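import Pool.Agent.Strip051.G.IE1.Tab

/-! # Certificates F55 (generated) -/

set_option linter.all false
set_option maxRecDepth 100000

namespace Pool.Agent.Strip051.G.IE1.Tab.C.FB61

open Pool.Agent.Strip051.PB Pool.Agent.Strip051.PB.T
open Pool.Agent.Strip051.G.IE1.Tab

noncomputable def f_pp_022_a : ℕ → ℕ → ℕ → ℕ → Bool := onCell 0 536870912 0 420477299 1046898278 26843546
    (rowFX 0 false true true .pp 0 2 2 (qsf 0 536870912 0 420477299 2) ndF6q0 ndF1q2a pcF2 Cut.none Ext.none)

def k0_pp_022_a : ∃ t, chk3 f_pp_022_a t 4 2 1 = true :=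
  ⟨(a (a (b (a (a (c (l 15882160) (c (l 15862336) (a (l 15881936) (l 15817304)))) (c (b (a (l 15798024) (l 15742336)) (a (l 15766664) (l 15725112))) (b (l 15749792) (c (l 15735832) (l 15714104))))) (c (b (l 15662456) (l 15670520)) (b (l 15615032) (l 15623136)))) (a (a (c (b (a (l 15835824) (l 15771464)) (a (l 15782888) (l 15759728))) (b (a (c (l 15809400) (l 15711696)) (c (l 15711104) (l 15741384))) (a (c (l 15755120) (a (l 15742288) (l 15731904))) (c (l 15741024) (l 15729176))))) (c (b (a (l 15734824) (l 15719224)) (c (l 15751392) (l 15745880))) (b (c (l 15714224) (l 15692040)) (l 15725784)))) (c (a (b (l 15708576) (l 15747456)) (l 15698456)) (l 15556080)))) (b (c (a (l 15526992) (l 15399816)) (l 15423064)) (c (b (a (l 15605464) (l 15524136)) (a (l 15695704) (c (l 15644568) (l 15635552)))) (b (l 15530640) (a (l 15652472) (l 15614344)))))) (b (a (c (a (b (l 15227352) (l 15329336)) (l 15119248)) (a (l 15250752) (l 15102800))) (c (b (l 14806944) (l 14939336)) (l 14866888))) (a (c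 (a (b (l 15429776) (l 15528880)) (l 15268632)) (b (l 15339800) (l 15441480))) (c (b (l 15065672) (l 15193664)) (b (l 15058576) (l 15178280)))))), by decide +kernel⟩

def k1_pp_022_a : ∃ t, chk3 f_pp_022_a t 4 6 1 = true :=
  ⟨(a (a (a (c (a (b (l 15823632) (c (l 15963192) (l 15947192))) (b (c (l 15823272) (a (l 15813472) (l 15828864))) (c (a (l 15964008) (l 15983648)) (a (l 15962232) (l 15989808))))) (a (c (b (a (l 15801448) (l 15800704)) (a (l 15929952) (c (l 15940144) (l 15938768)))) (b (c (l 15665544) (l 15783680)) (a (c (l 15920248) (l 15871864)) (l 15930664)))) (c (b (l 15808328) (l 15965192)) (b (l 15786784) (l 15945256))))) (c (b (a (c (l 15852504) (l 15835824)) (l 15848928)) (a (c (l 15835528) (l 16013056)) (b (l 15982416) (l 16066000)))) (b (l 15797728) (b (l 15929608) (a (l 16034920) (l 16041832)))))) (b (c (a (b (l 15792832) (l 15810984)) (a (l 15576624) (l 15726880))) (a (l 15794328) (l 15736160))) (c (a (b (a (l 15974624) (l 15931696)) (l 16017680)) (c (l 15870088)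 (l 15861544))) (a (b (l 15918008) (l 15986400)) (l 15849848))))) (a (c (b (a (l 15629504) (l 15502552)) (a (l 15748992) (l 15632352))) (b (l 15554744) (a (l 15731848) (l 15615416)))) (c (b (l 15328664) (l 15476112)) (b (l 15305960) (l 15448728))))), by decide +kernel⟩

def k2_pp_022_a : ∃ t, chk3 f_pp_022_a t 16 7 1 = true :=
  ⟨(b (a (c (a (b (c (l 16114896) (l 16100792)) (c (l 16177408) (a (l 16160568) (b (l 16156928) (l 16181704))))) (b (c (a (l 16126512) (l 16151872)) (a (l 16127448) (l 16162264))) (c (a (b (l 16179304) (a (l 16189936) (l 16182144))) (l 16185072)) (a (b (l 16181336) (l 16187528)) (b (l 16201512) (l 16188200)))))) (a (c (b (a (l 16081736) (c (l 16099288) (l 16099040))) (a (l 16146200) (b (l 16132000) (a (l 16174072) (l 16183184))))) (a (b (c (l 16073400) (a (l 16062888) (l 16073632))) (c (a (l 16132048) (l 16143904)) (c (l 16071624) (l 16131712)))) (b (l 16092440) (c (l 16162592) (l 16153856))))) (b (c (l 15978624) (l 16117816)) (c (a (b (l 16182296) (l 16188624))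 (l 16180824)) (b (l 16162432) (l 16160728)))))) (c (b (a (c (a (l 16182296) (l 16172848)) (a (l 16179744) (l 16174120))) (l 16152856)) (a (c (a (l 16190072) (l 16184128)) (l 16173656)) (l 16116000))) (b (b (l 16053472) (l 16133080)) (c (l 16121752) (l 16107328))))) (a (c (a (b (a (l 16139664) (c (l 16128128) (l 16114360))) (l 15875896)) (c (a (b (l 16103768) (l 15974136)) (l 15925936)) (a (b (l 16104224) (l 15973024)) (b (l 16105944) (l 15977672))))) (a (c (a (b (l 16117048) (l 15988176)) (b (a (l 16110992) (l 16106416)) (c (l 15974584) (l 15973720)))) (a (b (c (a (l 16110856) (l 16109656)) (c (l 16020920) (l 16101832))) (c (l 15978632) (a (l 15975184) (l 15970192)))) (b (l 16102640) (l 15965712)))) (c (b (l 16095544) (l 15943016)) (l 15964408)))) (c (a (c (b (l 16101696) (l 15979168)) (b (l 16087400) (l 15963000))) (b (l 16061728) (l 15942544))) (b (l 15926904) (c (l 15913688) (l 15896064)))))), by decide +kernel⟩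

def k3_pp_022_a : ∃ t, chk3 f_pp_022_a t 17 7 1 = true :=
  ⟨(b (c (c (a (l 16069224) (b (l 15953520) (l 15946848))) (a (b (l 16051600) (l 16036144)) (l 15893880))) (c (b (l 15987208) (l 15972576)) (b (l 15978024) (l 15963000)))) (c (a (b (c (l 16000704) (l 15969960)) (c (l 15892664) (l 15859744))) (b (c (l 15748600) (l 15877376)) (c (l 15799176) (l 15779520)))) (b (a (l 15926272) (l 15818672)) (a (l 15834456) (l 15760464))))), by decide +kernel⟩

def k4_pp_022_a : ∃ t, chk3 f_pp_022_a t 9 7 1 = true :=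
  ⟨(b (a (c (b (l 15722784) (l 15783152)) (b (a (l 15821952) (l 15708768)) (l 15718256))) (c (l 629780459863) (b (l 15553880) (l 15555520)))) (a (b (b (a (c (l 15814832) (l 15790880)) (l 15702768)) (c (l 15688256) (l 15703664))) (a (c (l 15705904) (l 15678496)) (l 1))) (l 1))), by decide +kernel⟩

def k5_pp_022_a : ∃ t, chk3 f_pp_022_a t 5 1 1 = true :=
  ⟨(a (b (b (c (l 14473696) (a (b (l 14485344) (l 14640200)) (l 1))) (c (l 14791808) (a (b (l 14788584) (l 14937000)) (l 1)))) (b (b (c (l 15031776) (l 14988872)) (l 1)) (l 1))) (l 1)), by decide +kernel⟩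

def k6_pp_022_a : ∃ t, chk3 f_pp_022_a t 3 1 1 = true :=
  ⟨(l 1), by decide +kernel⟩

theorem s7_pp_022_a : ∃ t, chk3 f_pp_022_a t 8 7 1 = true := ex3_a k2_pp_022_a k3_pp_022_a

theorem s8_pp_022_a : ∃ t, chk3 f_pp_022_a t 4 7 1 = true := ex3_a s7_pp_022_a k4_pp_022_a

theorem s9_pp_022_a : ∃ t, chk3 f_pp_022_a t 4 3 1 = true := ex3_b k1_pp_022_a s8_pp_022_a

theorem s10_pp_022_a : ∃ t, chk3 f_pp_022_a t 4 1 1 = true := ex3_b k0_pp_022_a s9_pp_022_a

theorem s11_pp_022_a : ∃ t, chk3 f_pp_022_a t 2 1 1 = true := ex3_a s10_pp_022_a k5_pp_022_a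

theorem s12_pp_022_a : ∃ t, chk3 f_pp_022_a t 1 1 1 = true := ex3_a s11_pp_022_a k6_pp_022_a

theorem c_pp_022_a : CertFX 0 536870912 0 420477299 1046898278 26843546 false true true .pp 0 2 2
    ndF6q0 ndF1q2a pcF2 Cut.none Ext.none :=
  certFX0 (fam := false) (s1 := true) (s2 := true) (a := 0) (b := 2) (c := 2) (cn := .pp) (n1 := ndF6q0) (n2 := ndF1q2a) (pc := pcF2) (cut := Cut.none) (xt := Ext.none) (P1 := 0) (W1 := 536870912) (P2 := 0) (W2 := 420477299) (P3 := 1046898278) (W3 := 26843546)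
    rfl s12_pp_022_a

noncomputable def f_pp_022_b : ℕ → ℕ → ℕ → ℕ → Bool := onCell 0 536870912 1073741824 536870912 1046898278 26843546
    (rowFX 1 false true true .pp 0 2 2 (qsf 0 536870912 1239849684 370763052 2) ndF6q0 ndF1q2b pcF2 Cut.none Ext.none)

def k0_pp_022_b : ∃ t, chk3 f_pp_022_b t 1 2 1 = true :=
  ⟨(b (a (a (a (b (l 1) (b (a (l 1) (c (b (l 1) (l 15255856)) (l 401609441543))) (a (a (l 1) (c (l 15390736) (l 15485432))) (c (l 15414784) (l 15369584))))) (b (a (b (l 1) (c (l 535289624663) (l 14906952))) (c (b (l 14580496) (l 14747152)) (b (l 14556264) (l 14737016)))) (b (a (c (l 356511977719) (l 15075744)) (c (l 14947376) (l 14922136))) (a (l 15241584) (l 15117360))))) (b (c (b (l 14265896) (a (l 14557056) (l 14349040))) (b (a (l 14303600) (l 14112320)) (a (l 14544184) (l 14332840)))) (b (a (c (l 14778728) (l 14750064)) (l 14579232)) (a (l 14981200) (l 14840352))))) (b (a (c (l 14140584) (b (l 13990456) (l 14226248))) (b (l 13924760) (l 14201584))) (b (a (c (l 14524928)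 (l 14491384)) (l 4)) (l 14813000)))) (a (a (b (a (a (b (a (a (b (l 1) (c (l 15871240) (c (l 15851192) (l 15837736)))) (b (c (l 15696048) (l 15670896)) (c (l 15842208) (l 15821040)))) (b (c (l 15667240) (l 15620072)) (c (l 15815080) (l 15772880)))) (a (c (a (l 16124096) (l 16030552)) (a (c (l 16109680) (l 15995120)) (l 16079272))) (c (l 16062992) (l 16029072)))) (b (b (c (l 15565392) (l 15525008)) (l 15702024)) (l 15761992))) (b (b (a (l 15420800) (l 15319928)) (l 15537384)) (a (l 15828768) (l 15732360)))) (a (a (b (a (c (a (l 16377176) (l 16344280)) (c (l 16227912) (l 16347056))) (c (l 16309136) (l 16284328))) (a (c (l 16539504) (a (l 16549624) (l 16521528))) (c (l 16491280) (l 16474368)))) (b (l 16113336) (l 16403136))) (b (a (l 16079752) (l 15995224)) (l 4)))) (b (b (b (l 15163576) (l 15343256)) (l 15595256)) (l 4))) (l 4))), by decide +kernel⟩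

def k1_pp_022_b : ∃ t, chk3 f_pp_022_b t 1 3 1 = true :=
  ⟨(a (a (b (a (b (b (a (a (c (l 16400936) (a (l 16389760) (l 16411832))) (l 4)) (l 4)) (l 4)) (l 4)) (l 4)) (l 4)) (l 4)) (l 4)), by decide +kernel⟩

theorem s2_pp_022_b : ∃ t, chk3 f_pp_022_b t 1 1 1 = true := ex3_b k0_pp_022_b k1_pp_022_b

theorem c_pp_022_b : CertFX 0 536870912 1239849684 370763052 1046898278 26843546 false true true .pp 0 2 2
    ndF6q0 ndF1q2b pcF2 Cut.none Ext.none :=
  certFX1 (fam := false) (s1 := true) (s2 := true) (a := 0) (b := 2) (c := 2) (cn := .pp) (n1 := ndF6q0) (n2 := ndF1q2b) (pc := pcF2) (cut := Cut.none) (xt := Ext.none) (P1 := 0) (W1 := 536870912) (P2 := 1239849684) (W2 := 370763052) (P3 := 1046898278) (W3 := 26843546)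
    rfl (fun _ => rfl) s2_pp_022_b

noncomputable def f_pp_023 : ℕ → ℕ → ℕ → ℕ → Bool := onCell 1073741824 536870912 1610612736 469762048 1046898278 26843546
    (rowFX 2 false true true .up 0 2 3 (qsf 0 536870912 1610612736 469762048 2) ndF6q0 ndF1q3 pcF2 Cut.none Ext.none)

def k0_pp_023 : ∃ t, chk3 f_pp_023 t 1 1 1 = true :=
  ⟨(a (a (b (a (b (l 13919840) (l 2)) (l 4)) (l 2)) (l 4)) (l 4)), by decide +kernel⟩

theorem c_pp_023 : CertFX 0 536870912 1610612736 469762048 1046898278 26843546 false true true .up 0 2 3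
    ndF6q0 ndF1q3 pcF2 Cut.none Ext.none :=
  certFX2 (fam := false) (s1 := true) (s2 := true) (a := 0) (b := 2) (c := 3) (cn := .up) (n1 := ndF6q0) (n2 := ndF1q3) (pc := pcF2) (cut := Cut.none) (xt := Ext.none) (P1 := 0) (W1 := 536870912) (P2 := 1610612736) (W2 := 469762048) (P3 := 1046898278) (W3 := 26843546)
    rfl (fun _ => rfl) k0_pp_023

noncomputable def f_pp_033 : ℕ → ℕ → ℕ → ℕ → Bool := onCell 0 536870912 1610612736 469762048 1046898278 26843546
    (rowFX 0 false true true .pnn 0 3 3 (qsf 0 536870912 1610612736 469762048 3) ndF6q0 ndF1q3 pcF3 Cut.none Ext.none)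

def k0_pp_033 : ∃ t, chk3 f_pp_033 t 1 1 1 = true :=
  ⟨(a (l 4) (b (l 1) (l 4))), by decide +kernel⟩

theorem c_pp_033 : CertFX 0 536870912 1610612736 469762048 1046898278 26843546 false true true .pnn 0 3 3
    ndF6q0 ndF1q3 pcF3 Cut.none Ext.none :=
  certFX0 (fam := false) (s1 := true) (s2 := true) (a := 0) (b := 3) (c := 3) (cn := .pnn) (n1 := ndF6q0) (n2 := ndF1q3) (pc := pcF3) (cut := Cut.none) (xt := Ext.none) (P1 := 0) (W1 := 536870912) (P2 := 1610612736) (W2 := 469762048) (P3 := 1046898278) (W3 := 26843546)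
    rfl k0_pp_033

noncomputable def f_pp_101 : ℕ → ℕ → ℕ → ℕ → Bool := onCell 0 536870912 536870912 536870912 1046898278 26843546
    (rowFX 2 false true true .npn 1 0 1 (qsf 536870912 469762048 536870912 536870912 0) ndF6q1 ndF1q1 pcF0 Cut.none Ext.none)

def k0_pp_101 : ∃ t, chk3 f_pp_101 t 1 1 1 = true :=
  ⟨(b (l 3) (l 3)), by decide +kernel⟩

theorem c_pp_101 : CertFX 536870912 469762048 536870912 536870912 1046898278 26843546 false true true .npn 1 0 1
    ndF6q1 ndF1q1 pcF0 Cut.none Ext.none :=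
  certFX2 (fam := false) (s1 := true) (s2 := true) (a := 1) (b := 0) (c := 1) (cn := .npn) (n1 := ndF6q1) (n2 := ndF1q1) (pc := pcF0) (cut := Cut.none) (xt := Ext.none) (P1 := 536870912) (W1 := 469762048) (P2 := 536870912) (W2 := 536870912) (P3 := 1046898278) (W3 := 26843546)
    rfl (fun _ => rfl) k0_pp_101

noncomputable def f_pp_102_a : ℕ → ℕ → ℕ → ℕ → Bool := onCell 536870912 469762048 0 420477299 1046898278 26843546
    (rowFX 0 false true true .npp 1 0 2 (qsf 536870912 469762048 0 420477299 0) ndF6q1 ndF1q2a pcF0 Cut.none Ext.none)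

def k0_pp_102_a : ∃ t, chk3 f_pp_102_a t 1 1 1 = true :=
  ⟨(a (a (b (l 2) (b (l 16777184) (b (l 16722320) (l 16501368)))) (b (b (l 16777216) (l 16777208)) (b (l 16777184) (b (l 16722320) (l 16480392))))) (a (b (a (l 16777208) (a (l 16482032) (b (l 16203696) (l 16203704)))) (b (a (l 16777184) (l 16241416)) (a (b (l 16722320) (l 16501368)) (b (a (l 16678616) (l 16235928)) (a (l 16540904) (l 16367856)))))) (b (a (a (b (l 15723360) (l 15723368)) (l 15417168)) (a (l 15014376) (b (l 14783656) (a (b (l 14895184) (c (l 14927608) (l 14891832))) (b (c (l 14712640) (l 14682680)) (l 14744528)))))) (b (a (l 15509288) (a (b (a (l 15252352) (c (l 15144536) (l 15104648))) (a (l 15270464) (c (l 15208392) (l 15170528)))) (b (c (l 14799168) (l 14878616)) (c (c (l 15006064) (l 15004640)) (l 14978928))))) (a (b (a (l 15758912) (b (l 15433088) (l 15516880))) (a (b (l 15859352) (a (l 16061296) (b (l 15818080) (l 15890520)))) (b (l 15644376) (l 15819080)))) (c (b (a (l 15396592) (l 14992976)) (a (a (l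 15743512) (l 15710496)) (b (l 15431256) (l 15615704)))) (b (a (l 15362496) (l 15162592)) (a (l 15704568) (l 15524544))))))))), by decide +kernel⟩

theorem c_pp_102_a : CertFX 536870912 469762048 0 420477299 1046898278 26843546 false true true .npp 1 0 2
    ndF6q1 ndF1q2a pcF0 Cut.none Ext.none :=
  certFX0 (fam := false) (s1 := true) (s2 := true) (a := 1) (b := 0) (c := 2) (cn := .npp) (n1 := ndF6q1) (n2 := ndF1q2a) (pc := pcF0) (cut := Cut.none) (xt := Ext.none) (P1 := 536870912) (W1 := 469762048) (P2 := 0) (W2 := 420477299) (P3 := 1046898278) (W3 := 26843546)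
    rfl k0_pp_102_a

noncomputable def f_pp_102_b : ℕ → ℕ → ℕ → ℕ → Bool := onCell 536870912 469762048 0 536870912 1046898278 26843546
    (rowFX 1 false true true .npp 1 0 2 (qsf 536870912 469762048 1239849684 370763052 0) ndF6q1 ndF1q2b pcF0 Cut.none Ext.none)

def k0_pp_102_b : ∃ t, chk3 f_pp_102_b t 1 1 1 = true :=
  ⟨(b (a (l 1) (b (l 1) (a (l 1) (a (l 1) (b (l 1) (a (l 438116504455) (c (l 14827672) (l 14798640)))))))) (a (b (l 1) (a (l 1) (l 515429156023))) (a (b (a (l 1) (b (l 1) (l 16431224))) (a (l 16776960) (l 16430144))) (a (b (l 354365405063) (b (l 15572176) (l 15572176))) (b (c (l 147668837447) (l 14938312)) (c (l 14972416) (l 14938312))))))), by decide +kernel⟩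

theorem c_pp_102_b : CertFX 536870912 469762048 1239849684 370763052 1046898278 26843546 false true true .npp 1 0 2
    ndF6q1 ndF1q2b pcF0 Cut.none Ext.none :=
  certFX1 (fam := false) (s1 := true) (s2 := true) (a := 1) (b := 0) (c := 2) (cn := .npp) (n1 := ndF6q1) (n2 := ndF1q2b) (pc := pcF0) (cut := Cut.none) (xt := Ext.none) (P1 := 536870912) (W1 := 469762048) (P2 := 1239849684) (W2 := 370763052) (P3 := 1046898278) (W3 := 26843546)
    rfl (fun _ => rfl) k0_pp_102_b

noncomputable def f_pp_112_a : ℕ → ℕ → ℕ → ℕ → Bool := onCell 536870912 536870912 0 420477299 1046898278 26843546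
    (rowFX 2 false true true .dn 1 1 2 (qsf 536870912 469762048 0 420477299 1) ndF6q1 ndF1q2a pcF1 Cut.none Ext.none)

def k0_pp_112_a : ∃ t, chk3 f_pp_112_a t 1 1 1 = true :=
  ⟨(a (b (a (b (l 16777216) (l 16777208)) (l 270616493991)) (b (l 147136184183) (a (b (l 16722320) (l 16501368)) (l 1)))) (l 1)), by decide +kernel⟩

theorem c_pp_112_a : CertFX 536870912 469762048 0 420477299 1046898278 26843546 false true true .dn 1 1 2
    ndF6q1 ndF1q2a pcF1 Cut.none Ext.none :=
  certFX2 (fam := false) (s1 := true) (s2 := true) (a := 1) (b := 1) (c := 2) (cn := .dn) (n1 := ndF6q1) (n2 := ndF1q2a) (pc := pcF1) (cut := Cut.none) (xt := Ext.none) (P1 := 536870912) (W1 := 469762048) (P2 := 0) (W2 := 420477299) (P3 := 1046898278) (W3 := 26843546)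
    rfl (fun _ => rfl) k0_pp_112_a

noncomputable def f_pp_112_b : ℕ → ℕ → ℕ → ℕ → Bool := onCell 536870912 469762048 536870912 536870912 1046898278 26843546
    (rowFX 1 false true true .dn 1 1 2 (qsf 536870912 469762048 1239849684 370763052 1) ndF6q1 ndF1q2b pcF1 Cut.none Ext.none)

def k0_pp_112_b : ∃ t, chk3 f_pp_112_b t 1 1 1 = true :=
  ⟨(b (a (b (a (b (l 16691400) (l 16715384)) (l 16777216)) (l 16777216)) (a (b (a (l 16777216) (l 16430144)) (l 16609176)) (a (b (l 15572176) (l 15572176)) (b (c (l 14972416) (l 14938312)) (l 2))))) (b (a (b (l 16762168) (l 16689040)) (a (b (l 16610656) (l 2)) (l 2))) (a (b (l 15651920) (a (a (l 14232504) (l 14354392)) (l 2))) (l 2)))), by decide +kernel⟩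

theorem c_pp_112_b : CertFX 536870912 469762048 1239849684 370763052 1046898278 26843546 false true true .dn 1 1 2
    ndF6q1 ndF1q2b pcF1 Cut.none Ext.none :=
  certFX1 (fam := false) (s1 := true) (s2 := true) (a := 1) (b := 1) (c := 2) (cn := .dn) (n1 := ndF6q1) (n2 := ndF1q2b) (pc := pcF1) (cut := Cut.none) (xt := Ext.none) (P1 := 536870912) (W1 := 469762048) (P2 := 1239849684) (W2 := 370763052) (P3 := 1046898278) (W3 := 26843546)
    rfl (fun _ => rfl) k0_pp_112_b

noncomputable def f_pp_113 : ℕ → ℕ → ℕ → ℕ → Bool := onCell 536870912 469762048 536870912 536870912 1046898278 26843546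
    (rowFX 1 false true true .nn 1 1 3 (qsf 536870912 469762048 1610612736 469762048 1) ndF6q1 ndF1q3 pcF1 Cut.none Ext.none)

def k0_pp_113 : ∃ t, chk3 f_pp_113 t 1 1 1 = true :=
  ⟨(b (a (l 1) (a (b (l 1) (l 16609176)) (a (l 588441055735) (b (l 584681824855) (l 14952496))))) (b (a (b (l 16762168) (l 16689040)) (a (b (l 16610656) (l 16524752)) (a (l 15534856) (l 14916496)))) (a (b (l 15651920) (b (a (l 14696240) (l 14665512)) (a (l 14042304) (a (l 14006136) (b (l 14103672) (l 13833072)))))) (b (a (l 15486632) (a (l 14531152) (l 13978456))) (b (a (l 14503536) (a (l 13597160) (l 13141592))) (a (a (b (l 14096752) (l 13831392)) (b (l 13782440) (l 13519464))) (c (b (l 12981008) (l 12764072)) (b (l 12757568) (a (l 12685104) (l 12202320)))))))))), by decide +kernel⟩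

theorem c_pp_113 : CertFX 536870912 469762048 1610612736 469762048 1046898278 26843546 false true true .nn 1 1 3
    ndF6q1 ndF1q3 pcF1 Cut.none Ext.none :=
  certFX1 (fam := false) (s1 := true) (s2 := true) (a := 1) (b := 1) (c := 3) (cn := .nn) (n1 := ndF6q1) (n2 := ndF1q3) (pc := pcF1) (cut := Cut.none) (xt := Ext.none) (P1 := 536870912) (W1 := 469762048) (P2 := 1610612736) (W2 := 469762048) (P3 := 1046898278) (W3 := 26843546)
    rfl (fun _ => rfl) k0_pp_113

noncomputable def f_pp_123 : ℕ → ℕ → ℕ → ℕ → Bool := onCell 1073741824 536870912 1610612736 469762048 1046898278 26843546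
    (rowFX 2 false true true .npn 1 2 3 (qsf 536870912 469762048 1610612736 469762048 2) ndF6q1 ndF1q3 pcF2 Cut.none Ext.none)

def k0_pp_123 : ∃ t, chk3 f_pp_123 t 1 1 1 = true :=
  ⟨(a (a (b (a (b (l 13835960) (l 14035944)) (l 4)) (a (a (b (l 13767408) (b (l 4) (l 4))) (l 4)) (l 4))) (l 4)) (l 4)), by decide +kernel⟩

theorem c_pp_123 : CertFX 536870912 469762048 1610612736 469762048 1046898278 26843546 false true true .npn 1 2 3
    ndF6q1 ndF1q3 pcF2 Cut.none Ext.none :=
  certFX2 (fam := false) (s1 := true) (s2 := true) (a := 1) (b := 2) (c := 3) (cn := .npn) (n1 := ndF6q1) (n2 := ndF1q3) (pc := pcF2) (cut := Cut.none) (xt := Ext.none) (P1 := 536870912) (W1 := 469762048) (P2 := 1610612736) (W2 := 469762048) (P3 := 1046898278) (W3 := 26843546)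
    rfl (fun _ => rfl) k0_pp_123

noncomputable def f_pp_133 : ℕ → ℕ → ℕ → ℕ → Bool := onCell 536870912 469762048 1610612736 469762048 1046898278 26843546
    (rowFX 0 false true true .dn 1 3 3 (qsf 536870912 469762048 1610612736 469762048 3) ndF6q1 ndF1q3 pcF3 Cut.none Ext.none)

def k0_pp_133 : ∃ t, chk3 f_pp_133 t 1 1 1 = true :=
  ⟨(l 1), by decide +kernel⟩

theorem c_pp_133 : CertFX 536870912 469762048 1610612736 469762048 1046898278 26843546 false true true .dn 1 3 3
    ndF6q1 ndF1q3 pcF3 Cut.none Ext.none :=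
  certFX0 (fam := false) (s1 := true) (s2 := true) (a := 1) (b := 3) (c := 3) (cn := .dn) (n1 := ndF6q1) (n2 := ndF1q3) (pc := pcF3) (cut := Cut.none) (xt := Ext.none) (P1 := 536870912) (W1 := 469762048) (P2 := 1610612736) (W2 := 469762048) (P3 := 1046898278) (W3 := 26843546)
    rfl k0_pp_133

noncomputable def f_pp_202_a : ℕ → ℕ → ℕ → ℕ → Bool := onCell 1073741824 536870912 0 420477299 1046898278 26843546
    (rowFX 0 false true true .pp 2 0 2 (qsf 1073741824 536870912 0 420477299 0) ndF6q2 ndF1q2a pcF0 Cut.none Ext.none)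

def k0_pp_202_a : ∃ t, chk3 f_pp_202_a t 1 1 1 = true :=
  ⟨(a (b (a (a (b (a (b (b (a (l 16148424) (l 16286832)) (l 3)) (l 3)) (l 3)) (l 3)) (l 3)) (l 3)) (l 3)) (l 1)), by decide +kernel⟩

theorem c_pp_202_a : CertFX 1073741824 536870912 0 420477299 1046898278 26843546 false true true .pp 2 0 2
    ndF6q2 ndF1q2a pcF0 Cut.none Ext.none :=
  certFX0 (fam := false) (s1 := true) (s2 := true) (a := 2) (b := 0) (c := 2) (cn := .pp) (n1 := ndF6q2) (n2 := ndF1q2a) (pc := pcF0) (cut := Cut.none) (xt := Ext.none) (P1 := 1073741824) (W1 := 536870912) (P2 := 0) (W2 := 420477299) (P3 := 1046898278) (W3 := 26843546)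
    rfl k0_pp_202_a

noncomputable def f_pp_202_b : ℕ → ℕ → ℕ → ℕ → Bool := onCell 1073741824 536870912 0 536870912 1046898278 26843546
    (rowFX 1 false true true .pp 2 0 2 (qsf 1073741824 536870912 1239849684 370763052 0) ndF6q2 ndF1q2b pcF0 Cut.none Ext.none)

def k0_pp_202_b : ∃ t, chk3 f_pp_202_b t 1 1 1 = true :=
  ⟨(b (a (a (a (b (a (b (l 1) (b (l 1) (b (l 1) (l 342556260215)))) (l 3)) (b (b (c (a (l 16124896) (l 16225816)) (a (l 16197312) (l 16215256))) (c (l 15913888) (l 15811848))) (b (c (a (l 15715864) (l 15777832)) (b (l 15780208) (l 15664728))) (c (b (l 15535736) (l 15576952)) (b (a (l 15531744) (l 15603800)) (l 15545776)))))) (b (l 3) (b (l 3) (b (a (a (l 15808904) (l 3)) (l 3)) (a (b (a (l 15670472) (l 15634616)) (l 15626768)) (l 15415008)))))) (l 3)) (l 3)) (a (a (b (b (a (c (c (l 15584744) (l 15569160)) (c (l 15553568) (l 15537984))) (c (a (l 15641512) (l 15420960)) (a (b (l 15612016) (l 15612016)) (l 15385736)))) (a (c (b (l 15576952) (l 15576952)) (b (l 15545776)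 (l 15545776))) (c (a (l 15641512) (l 15420960)) (a (b (l 15612016) (l 15612016)) (l 15385736))))) (b (a (c (l 15576952) (b (l 15545776) (l 15545776))) (c (a (l 15641512) (l 15420960)) (a (l 15612016) (l 15385736)))) (a (c (l 15535008) (b (l 15545776) (l 15545776))) (a (b (l 15626768) (l 2)) (l 2))))) (b (a (b (a (a (c (l 15233688) (l 15193592)) (l 15347992)) (l 3)) (a (a (c (l 15233688) (l 15193592)) (l 15159248)) (b (l 15851320) (l 15851320)))) (b (l 3) (b (l 3) (l 2)))) (a (b (a (c (l 15300640) (l 15115488)) (l 2)) (l 2)) (l 2)))) (b (b (l 3) (l 2)) (l 2)))), by decide +kernel⟩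

theorem c_pp_202_b : CertFX 1073741824 536870912 1239849684 370763052 1046898278 26843546 false true true .pp 2 0 2
    ndF6q2 ndF1q2b pcF0 Cut.none Ext.none :=
  certFX1 (fam := false) (s1 := true) (s2 := true) (a := 2) (b := 0) (c := 2) (cn := .pp) (n1 := ndF6q2) (n2 := ndF1q2b) (pc := pcF0) (cut := Cut.none) (xt := Ext.none) (P1 := 1073741824) (W1 := 536870912) (P2 := 1239849684) (W2 := 370763052) (P3 := 1046898278) (W3 := 26843546)
    rfl (fun _ => rfl) k0_pp_202_b

noncomputable def f_pp_203 : ℕ → ℕ → ℕ → ℕ → Bool := onCell 1073741824 536870912 0 536870912 1046898278 26843546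
    (rowFX 1 false true true .up 2 0 3 (qsf 1073741824 536870912 1610612736 469762048 0) ndF6q2 ndF1q3 pcF0 Cut.none Ext.none)

def k0_pp_203 : ∃ t, chk3 f_pp_203 t 1 1 1 = true :=
  ⟨(b (a (a (l 1) (l 3)) (l 3)) (a (a (b (b (l 1) (a (l 1) (c (l 470866343063) (l 502004791079)))) (b (a (c (l 15576952) (l 202431252359)) (c (l 153038763159) (a (l 15612016) (l 15385736)))) (a (c (l 15493064) (l 155723483015)) (c (a (l 15641512) (l 15420960)) (a (l 15612016) (l 15385736)))))) (b (a (b (a (l 1) (l 3)) (a (a (l 176123884567) (l 15201192)) (l 106868384999))) (b (l 3) (a (c (l 16472896) (l 16464992)) (l 3)))) (a (b (a (c (l 15300640) (l 15052576)) (c (l 15863192) (l 15839448))) (a (c (l 15300640) (a (l 15193592) (l 15329672))) (c (l 15863192) (l 15839448)))) (b (a (c (l 16472896) (l 16444024)) (l 16776784)) (a (c (l 16472896) (l 16444024)) (l 16776784)))))) (a (b (l 3) (b (a (l 16777216) (l 3)) (c (l 16777208) (l 16777208)))) (b (l 3) (b (l 3) (a (l 16771896) (l 3))))))), by decide +kernel⟩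

theorem c_pp_203 : CertFX 1073741824 536870912 1610612736 469762048 1046898278 26843546 false true true .up 2 0 3
    ndF6q2 ndF1q3 pcF0 Cut.none Ext.none :=
  certFX1 (fam := false) (s1 := true) (s2 := true) (a := 2) (b := 0) (c := 3) (cn := .up) (n1 := ndF6q2) (n2 := ndF1q3) (pc := pcF0) (cut := Cut.none) (xt := Ext.none) (P1 := 1073741824) (W1 := 536870912) (P2 := 1610612736) (W2 := 469762048) (P3 := 1046898278) (W3 := 26843546)
    rfl (fun _ => rfl) k0_pp_203

noncomputable def f_pp_213 : ℕ → ℕ → ℕ → ℕ → Bool := onCell 1073741824 536870912 536870912 536870912 1046898278 26843546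
    (rowFX 1 false true true .pnn 2 1 3 (qsf 1073741824 536870912 1610612736 469762048 1) ndF6q2 ndF1q3 pcF1 Cut.none Ext.none)

def k0_pp_213 : ∃ t, chk3 f_pp_213 t 1 1 1 = true :=
  ⟨(a (b (a (a (b (l 15561360) (l 15561360)) (b (b (c (b (l 15528272) (l 15528272)) (b (l 15495832) (l 15495832))) (l 15512056)) (l 15512048))) (b (a (b (a (c (l 15300640) (a (l 15193592) (l 15329672))) (c (l 15863192) (l 15839448))) (a (l 15281464) (b (l 15851320) (l 15851320)))) (b (a (c (l 16472896) (l 16444024)) (l 16776784)) (b (a (l 16468944) (l 16776776)) (l 16480152)))) (a (a (l 15280872) (l 15846640)) (a (l 16463512) (l 16765664))))) (a (b (b (l 15530440) (a (l 15565776) (l 15498816))) (b (a (l 15581008) (l 15669840)) (a (l 15925392) (l 2)))) (b (a (b (l 15563968) (a (l 15265528) (l 2))) (b (l 16602824) (l 2))) (l 2)))) (b (b (b (a (c (l 16771928) (l 16771792)) (b (l 16764072) (l 16754768))) (a (b (l 16771040) (l 16766064)) (b (l 16726888) (l 2)))) (a (b (b (l 16764072) (l 16754768)) (l 16707864))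 (l 2))) (l 2))), by decide +kernel⟩

theorem c_pp_213 : CertFX 1073741824 536870912 1610612736 469762048 1046898278 26843546 false true true .pnn 2 1 3
    ndF6q2 ndF1q3 pcF1 Cut.none Ext.none :=
  certFX1 (fam := false) (s1 := true) (s2 := true) (a := 2) (b := 1) (c := 3) (cn := .pnn) (n1 := ndF6q2) (n2 := ndF1q3) (pc := pcF1) (cut := Cut.none) (xt := Ext.none) (P1 := 1073741824) (W1 := 536870912) (P2 := 1610612736) (W2 := 469762048) (P3 := 1046898278) (W3 := 26843546)
    rfl (fun _ => rfl) k0_pp_213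

noncomputable def f_pp_303 : ℕ → ℕ → ℕ → ℕ → Bool := onCell 0 1230186008 1610612736 469762048 1046898278 26843546
    (rowFX 0 false true true .npn 3 0 3 (qsf 0 1230186008 1610612736 469762048 0) ndF6q3 ndF1q3 pcF0 Cut.none Ext.none)

def k0_pp_303 : ∃ t, chk3 f_pp_303 t 1 1 1 = true :=
  ⟨(a (l 3) (l 3)), by decide +kernel⟩

theorem c_pp_303 : CertFX 0 1230186008 1610612736 469762048 1046898278 26843546 false true true .npn 3 0 3
    ndF6q3 ndF1q3 pcF0 Cut.none Ext.none :=
  certFX0 (fam := false) (s1 := true) (s2 := true) (a := 3) (b := 0) (c := 3) (cn := .npn) (n1 := ndF6q3) (n2 := ndF1q3) (pc := pcF0) (cut := Cut.none) (xt := Ext.none) (P1 := 0) (W1 := 1230186008) (P2 := 1610612736) (W2 := 469762048) (P3 := 1046898278) (W3 := 26843546)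
    rfl k0_pp_303

noncomputable def f_pp_313 : ℕ → ℕ → ℕ → ℕ → Bool := onCell 0 1230186008 1610612736 469762048 1046898278 26843546
    (rowFX 0 false true true .dn 3 1 3 (qsf 0 1230186008 1610612736 469762048 1) ndF6q3 ndF1q3 pcF1 Cut.none Ext.none)

def k0_pp_313 : ∃ t, chk3 f_pp_313 t 1 1 1 = true :=
  ⟨(l 1), by decide +kernel⟩

theorem c_pp_313 : CertFX 0 1230186008 1610612736 469762048 1046898278 26843546 false true true .dn 3 1 3
    ndF6q3 ndF1q3 pcF1 Cut.none Ext.none :=
  certFX0 (fam := false) (s1 := true) (s2 := true) (a := 3) (b := 1) (c := 3) (cn := .dn) (n1 := ndF6q3) (n2 := ndF1q3) (pc := pcF1) (cut := Cut.none) (xt := Ext.none) (P1 := 0) (W1 := 1230186008) (P2 := 1610612736) (W2 := 469762048) (P3 := 1046898278) (W3 := 26843546)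
    rfl k0_pp_313

noncomputable def f_pm_001 : ℕ → ℕ → ℕ → ℕ → Bool := onCell 0 536870912 536870912 536870912 1046898278 26843546
    (rowFX 0 false true false .up 0 0 1 (qsf 0 536870912 536870912 536870912 0) ndF6q0 ndF1q1 pcF0 Cut.none Ext.none)

def k0_pm_001 : ∃ t, chk3 f_pm_001 t 1 1 1 = true :=
  ⟨(l 4), by decide +kernel⟩

theorem c_pm_001 : CertFX 0 536870912 536870912 536870912 1046898278 26843546 false true false .up 0 0 1
    ndF6q0 ndF1q1 pcF0 Cut.none Ext.none :=
  certFX0 (fam := false) (s1 := true) (s2 := false) (a := 0) (b := 0) (c := 1) (cn := .up) (n1 := ndF6q0) (n2 := ndF1q1) (pc := pcF0) (cut := Cut.none) (xt := Ext.none) (P1 := 0) (W1 := 536870912) (P2 := 536870912) (W2 := 536870912) (P3 := 1046898278) (W3 := 26843546)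
    rfl k0_pm_001

noncomputable def f_pm_011 : ℕ → ℕ → ℕ → ℕ → Bool := onCell 0 536870912 536870912 536870912 1046898278 26843546
    (rowFX 0 false true false .pnn 0 1 1 (qsf 0 536870912 536870912 536870912 1) ndF6q0 ndF1q1 pcF1 Cut.none Ext.none)

def k0_pm_011 : ∃ t, chk3 f_pm_011 t 1 1 1 = true :=
  ⟨(l 4), by decide +kernel⟩

theorem c_pm_011 : CertFX 0 536870912 536870912 536870912 1046898278 26843546 false true false .pnn 0 1 1
    ndF6q0 ndF1q1 pcF1 Cut.none Ext.none :=
  certFX0 (fam := false) (s1 := true) (s2 := false) (a := 0) (b := 1) (c := 1) (cn := .pnn) (n1 := ndF6q0) (n2 := ndF1q1) (pc := pcF1) (cut := Cut.none) (xt := Ext.none) (P1 := 0) (W1 := 536870912) (P2 := 536870912) (W2 := 536870912) (P3 := 1046898278) (W3 := 26843546)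
    rfl k0_pm_011

noncomputable def f_pm_012_a : ℕ → ℕ → ℕ → ℕ → Bool := onCell 0 536870912 0 420477299 1046898278 26843546
    (rowFX 0 false true false .pnp 0 1 2 (qsf 0 536870912 0 420477299 1) ndF6q0 ndF1q2a pcF1 Cut.none Ext.none)

def k0_pm_012_a : ∃ t, chk3 f_pm_012_a t 1 1 1 = true :=
  ⟨(a (l 4) (l 4)), by decide +kernel⟩

theorem c_pm_012_a : CertFX 0 536870912 0 420477299 1046898278 26843546 false true false .pnp 0 1 2
    ndF6q0 ndF1q2a pcF1 Cut.none Ext.none :=
  certFX0 (fam := false) (s1 := true) (s2 := false) (a := 0) (b := 1) (c := 2) (cn := .pnp) (n1 := ndF6q0) (n2 := ndF1q2a) (pc := pcF1) (cut := Cut.none) (xt := Ext.none) (P1 := 0) (W1 := 536870912) (P2 := 0) (W2 := 420477299) (P3 := 1046898278) (W3 := 26843546)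
    rfl k0_pm_012_a

noncomputable def f_pm_012_b : ℕ → ℕ → ℕ → ℕ → Bool := onCell 0 536870912 1239849684 370763052 1046898278 26843546
    (rowFX 0 false true false .pnp 0 1 2 (qsf 0 536870912 1239849684 370763052 1) ndF6q0 ndF1q2b pcF1 Cut.none Ext.none)

def k0_pm_012_b : ∃ t, chk3 f_pm_012_b t 1 1 1 = true :=
  ⟨(a (l 4) (l 4)), by decide +kernel⟩

theorem c_pm_012_b : CertFX 0 536870912 1239849684 370763052 1046898278 26843546 false true false .pnp 0 1 2
    ndF6q0 ndF1q2b pcF1 Cut.none Ext.none :=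
  certFX0 (fam := false) (s1 := true) (s2 := false) (a := 0) (b := 1) (c := 2) (cn := .pnp) (n1 := ndF6q0) (n2 := ndF1q2b) (pc := pcF1) (cut := Cut.none) (xt := Ext.none) (P1 := 0) (W1 := 536870912) (P2 := 1239849684) (W2 := 370763052) (P3 := 1046898278) (W3 := 26843546)
    rfl k0_pm_012_b

noncomputable def f_pm_022_a : ℕ → ℕ → ℕ → ℕ → Bool := onCell 0 536870912 0 420477299 1046898278 26843546
    (rowFX 0 false true false .pp 0 2 2 (qsf 0 536870912 0 420477299 2) ndF6q0 ndF1q2a pcF2 Cut.none Ext.none)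

def k0_pm_022_a : ∃ t, chk3 f_pm_022_a t 1 1 1 = true :=
  ⟨(a (l 4) (l 1)), by decide +kernel⟩

theorem c_pm_022_a : CertFX 0 536870912 0 420477299 1046898278 26843546 false true false .pp 0 2 2
    ndF6q0 ndF1q2a pcF2 Cut.none Ext.none :=
  certFX0 (fam := false) (s1 := true) (s2 := false) (a := 0) (b := 2) (c := 2) (cn := .pp) (n1 := ndF6q0) (n2 := ndF1q2a) (pc := pcF2) (cut := Cut.none) (xt := Ext.none) (P1 := 0) (W1 := 536870912) (P2 := 0) (W2 := 420477299) (P3 := 1046898278) (W3 := 26843546)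
    rfl k0_pm_022_a

noncomputable def f_pm_022_b : ℕ → ℕ → ℕ → ℕ → Bool := onCell 0 536870912 1239849684 370763052 1046898278 26843546
    (rowFX 0 false true false .pp 0 2 2 (qsf 0 536870912 1239849684 370763052 2) ndF6q0 ndF1q2b pcF2 Cut.none Ext.none)

def k0_pm_022_b : ∃ t, chk3 f_pm_022_b t 1 1 1 = true :=
  ⟨(a (l 4) (l 4)), by decide +kernel⟩

theorem c_pm_022_b : CertFX 0 536870912 1239849684 370763052 1046898278 26843546 false true false .pp 0 2 2
    ndF6q0 ndF1q2b pcF2 Cut.none Ext.none :=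
  certFX0 (fam := false) (s1 := true) (s2 := false) (a := 0) (b := 2) (c := 2) (cn := .pp) (n1 := ndF6q0) (n2 := ndF1q2b) (pc := pcF2) (cut := Cut.none) (xt := Ext.none) (P1 := 0) (W1 := 536870912) (P2 := 1239849684) (W2 := 370763052) (P3 := 1046898278) (W3 := 26843546)
    rfl k0_pm_022_b

noncomputable def f_pm_023 : ℕ → ℕ → ℕ → ℕ → Bool := onCell 0 536870912 1610612736 469762048 1046898278 26843546
    (rowFX 0 false true false .up 0 2 3 (qsf 0 536870912 1610612736 469762048 2) ndF6q0 ndF1q3 pcF2 Cut.none Ext.none)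

def k0_pm_023 : ∃ t, chk3 f_pm_023 t 1 1 1 = true :=
  ⟨(l 4), by decide +kernel⟩

theorem c_pm_023 : CertFX 0 536870912 1610612736 469762048 1046898278 26843546 false true false .up 0 2 3
    ndF6q0 ndF1q3 pcF2 Cut.none Ext.none :=
  certFX0 (fam := false) (s1 := true) (s2 := false) (a := 0) (b := 2) (c := 3) (cn := .up) (n1 := ndF6q0) (n2 := ndF1q3) (pc := pcF2) (cut := Cut.none) (xt := Ext.none) (P1 := 0) (W1 := 536870912) (P2 := 1610612736) (W2 := 469762048) (P3 := 1046898278) (W3 := 26843546)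
    rfl k0_pm_023

noncomputable def f_pm_033 : ℕ → ℕ → ℕ → ℕ → Bool := onCell 0 536870912 1610612736 469762048 1046898278 26843546
    (rowFX 0 false true false .pnn 0 3 3 (qsf 0 536870912 1610612736 469762048 3) ndF6q0 ndF1q3 pcF3 Cut.none Ext.none)

def k0_pm_033 : ∃ t, chk3 f_pm_033 t 1 1 1 = true :=
  ⟨(l 4), by decide +kernel⟩

theorem c_pm_033 : CertFX 0 536870912 1610612736 469762048 1046898278 26843546 false true false .pnn 0 3 3
    ndF6q0 ndF1q3 pcF3 Cut.none Ext.none :=
  certFX0 (fam := false) (s1 := true) (s2 := false) (a := 0) (b := 3) (c := 3) (cn := .pnn) (n1 := ndF6q0) (n2 := ndF1q3) (pc := pcF3) (cut := Cut.none) (xt := Ext.none) (P1 := 0) (W1 := 536870912) (P2 := 1610612736) (W2 := 469762048) (P3 := 1046898278) (W3 := 26843546)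
    rfl k0_pm_033

noncomputable def f_pm_101 : ℕ → ℕ → ℕ → ℕ → Bool := onCell 536870912 469762048 536870912 536870912 1046898278 26843546
    (rowFX 0 false true false .npn 1 0 1 (qsf 536870912 469762048 536870912 536870912 0) ndF6q1 ndF1q1 pcF0 Cut.none Ext.none)

def k0_pm_101 : ∃ t, chk3 f_pm_101 t 1 1 1 = true :=
  ⟨(l 4), by decide +kernel⟩

theorem c_pm_101 : CertFX 536870912 469762048 536870912 536870912 1046898278 26843546 false true false .npn 1 0 1
    ndF6q1 ndF1q1 pcF0 Cut.none Ext.none :=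
  certFX0 (fam := false) (s1 := true) (s2 := false) (a := 1) (b := 0) (c := 1) (cn := .npn) (n1 := ndF6q1) (n2 := ndF1q1) (pc := pcF0) (cut := Cut.none) (xt := Ext.none) (P1 := 536870912) (W1 := 469762048) (P2 := 536870912) (W2 := 536870912) (P3 := 1046898278) (W3 := 26843546)
    rfl k0_pm_101

noncomputable def f_pm_102_a : ℕ → ℕ → ℕ → ℕ → Bool := onCell 536870912 469762048 0 420477299 1046898278 26843546
    (rowFX 0 false true false .npp 1 0 2 (qsf 536870912 469762048 0 420477299 0) ndF6q1 ndF1q2a pcF0 Cut.none Ext.none)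

def k0_pm_102_a : ∃ t, chk3 f_pm_102_a t 1 1 1 = true :=
  ⟨(b (a (c (l 83449872295) (l 78081163175)) (a (a (l 16777208) (a (l 16503000) (l 61973385543))) (a (c (l 15461800) (l 55529640679)) (a (c (l 15201808) (l 15162232)) (b (l 14779912) (b (l 14590712) (l 4))))))) (l 4)), by decide +kernel⟩

theorem c_pm_102_a : CertFX 536870912 469762048 0 420477299 1046898278 26843546 false true false .npp 1 0 2
    ndF6q1 ndF1q2a pcF0 Cut.none Ext.none :=
  certFX0 (fam := false) (s1 := true) (s2 := false) (a := 1) (b := 0) (c := 2) (cn := .npp) (n1 := ndF6q1) (n2 := ndF1q2a) (pc := pcF0) (cut := Cut.none) (xt := Ext.none) (P1 := 536870912) (W1 := 469762048) (P2 := 0) (W2 := 420477299) (P3 := 1046898278) (W3 := 26843546)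
    rfl k0_pm_102_a

noncomputable def f_pm_102_b : ℕ → ℕ → ℕ → ℕ → Bool := onCell 536870912 469762048 0 536870912 1046898278 26843546
    (rowFX 1 false true false .npp 1 0 2 (qsf 536870912 469762048 1239849684 370763052 0) ndF6q1 ndF1q2b pcF0 Cut.none Ext.none)

def k0_pm_102_b : ∃ t, chk3 f_pm_102_b t 1 1 1 = true :=
  ⟨(b (a (l 1) (b (l 1) (a (l 1) (a (l 1) (b (l 1) (a (l 376913243415) (l 454221868823))))))) (a (b (l 1) (a (l 1) (l 537440716615))) (a (b (a (l 1) (b (l 1) (l 16429056))) (a (l 16776960) (l 16430144))) (a (b (l 512742316055) (l 15572176)) (b (c (l 346311179751) (l 14938312)) (l 14784728)))))), by decide +kernel⟩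

theorem c_pm_102_b : CertFX 536870912 469762048 1239849684 370763052 1046898278 26843546 false true false .npp 1 0 2
    ndF6q1 ndF1q2b pcF0 Cut.none Ext.none :=
  certFX1 (fam := false) (s1 := true) (s2 := false) (a := 1) (b := 0) (c := 2) (cn := .npp) (n1 := ndF6q1) (n2 := ndF1q2b) (pc := pcF0) (cut := Cut.none) (xt := Ext.none) (P1 := 536870912) (W1 := 469762048) (P2 := 1239849684) (W2 := 370763052) (P3 := 1046898278) (W3 := 26843546)
    rfl (fun _ => rfl) k0_pm_102_b

noncomputable def f_pm_112_a : ℕ → ℕ → ℕ → ℕ → Bool := onCell 536870912 536870912 0 420477299 1046898278 26843546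
    (rowFX 2 false true false .dn 1 1 2 (qsf 536870912 469762048 0 420477299 1) ndF6q1 ndF1q2a pcF1 Cut.none Ext.none)

def k0_pm_112_a : ∃ t, chk3 f_pm_112_a t 1 1 1 = true :=
  ⟨(a (b (a (l 72175583191) (l 4)) (l 4)) (l 1)), by decide +kernel⟩

theorem c_pm_112_a : CertFX 536870912 469762048 0 420477299 1046898278 26843546 false true false .dn 1 1 2
    ndF6q1 ndF1q2a pcF1 Cut.none Ext.none :=
  certFX2 (fam := false) (s1 := true) (s2 := false) (a := 1) (b := 1) (c := 2) (cn := .dn) (n1 := ndF6q1) (n2 := ndF1q2a) (pc := pcF1) (cut := Cut.none) (xt := Ext.none) (P1 := 536870912) (W1 := 469762048) (P2 := 0) (W2 := 420477299) (P3 := 1046898278) (W3 := 26843546)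
    rfl (fun _ => rfl) k0_pm_112_a

noncomputable def f_pm_112_b : ℕ → ℕ → ℕ → ℕ → Bool := onCell 536870912 469762048 536870912 536870912 1046898278 26843546
    (rowFX 1 false true false .dn 1 1 2 (qsf 536870912 469762048 1239849684 370763052 1) ndF6q1 ndF1q2b pcF1 Cut.none Ext.none)

def k0_pm_112_b : ∃ t, chk3 f_pm_112_b t 1 1 1 = true :=
  ⟨(a (b (b (a (b (l 16691400) (l 4)) (l 16777216)) (b (l 4) (l 4))) (l 4)) (b (a (b (a (l 16777216) (l 16430144)) (b (l 16488896) (l 16055648))) (b (a (l 15572176) (l 14952496)) (a (b (l 15480096) (l 2)) (l 2)))) (b (a (l 4) (l 2)) (l 2)))), by decide +kernel⟩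

theorem c_pm_112_b : CertFX 536870912 469762048 1239849684 370763052 1046898278 26843546 false true false .dn 1 1 2
    ndF6q1 ndF1q2b pcF1 Cut.none Ext.none :=
  certFX1 (fam := false) (s1 := true) (s2 := false) (a := 1) (b := 1) (c := 2) (cn := .dn) (n1 := ndF6q1) (n2 := ndF1q2b) (pc := pcF1) (cut := Cut.none) (xt := Ext.none) (P1 := 536870912) (W1 := 469762048) (P2 := 1239849684) (W2 := 370763052) (P3 := 1046898278) (W3 := 26843546)
    rfl (fun _ => rfl) k0_pm_112_b

noncomputable def f_pm_113 : ℕ → ℕ → ℕ → ℕ → Bool := onCell 536870912 469762048 536870912 536870912 1046898278 26843546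
    (rowFX 1 false true false .nn 1 1 3 (qsf 536870912 469762048 1610612736 469762048 1) ndF6q1 ndF1q3 pcF1 Cut.none Ext.none)

def k0_pm_113 : ∃ t, chk3 f_pm_113 t 1 1 1 = true :=
  ⟨(a (b (l 1) (l 4)) (b (a (b (l 1) (b (l 16488896) (l 16034680))) (b (a (l 15572176) (l 14952496)) (a (b (l 15480096) (l 15135144)) (b (l 14891232) (l 14660512))))) (b (a (l 4) (b (a (b (l 14761104) (l 14497592)) (b (l 14367784) (l 14048656))) (a (l 4) (b (l 13704464) (l 13569176))))) (a (l 4) (b (l 4) (l 4)))))), by decide +kernel⟩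

theorem c_pm_113 : CertFX 536870912 469762048 1610612736 469762048 1046898278 26843546 false true false .nn 1 1 3
    ndF6q1 ndF1q3 pcF1 Cut.none Ext.none :=
  certFX1 (fam := false) (s1 := true) (s2 := false) (a := 1) (b := 1) (c := 3) (cn := .nn) (n1 := ndF6q1) (n2 := ndF1q3) (pc := pcF1) (cut := Cut.none) (xt := Ext.none) (P1 := 536870912) (W1 := 469762048) (P2 := 1610612736) (W2 := 469762048) (P3 := 1046898278) (W3 := 26843546)
    rfl (fun _ => rfl) k0_pm_113

noncomputable def f_pm_123 : ℕ → ℕ → ℕ → ℕ → Bool := onCell 1073741824 536870912 1610612736 469762048 1046898278 26843546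
    (rowFX 2 false true false .npn 1 2 3 (qsf 536870912 469762048 1610612736 469762048 2) ndF6q1 ndF1q3 pcF2 Cut.none Ext.none)

def k0_pm_123 : ∃ t, chk3 f_pm_123 t 1 1 1 = true :=
  ⟨(a (l 4) (l 4)), by decide +kernel⟩

theorem c_pm_123 : CertFX 536870912 469762048 1610612736 469762048 1046898278 26843546 false true false .npn 1 2 3
    ndF6q1 ndF1q3 pcF2 Cut.none Ext.none :=
  certFX2 (fam := false) (s1 := true) (s2 := false) (a := 1) (b := 2) (c := 3) (cn := .npn) (n1 := ndF6q1) (n2 := ndF1q3) (pc := pcF2) (cut := Cut.none) (xt := Ext.none) (P1 := 536870912) (W1 := 469762048) (P2 := 1610612736) (W2 := 469762048) (P3 := 1046898278) (W3 := 26843546)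
    rfl (fun _ => rfl) k0_pm_123

noncomputable def f_pm_133 : ℕ → ℕ → ℕ → ℕ → Bool := onCell 536870912 469762048 1610612736 469762048 1046898278 26843546
    (rowFX 0 false true false .dn 1 3 3 (qsf 536870912 469762048 1610612736 469762048 3) ndF6q1 ndF1q3 pcF3 Cut.none Ext.none)

def k0_pm_133 : ∃ t, chk3 f_pm_133 t 1 1 1 = true :=
  ⟨(l 1), by decide +kernel⟩

theorem c_pm_133 : CertFX 536870912 469762048 1610612736 469762048 1046898278 26843546 false true false .dn 1 3 3
    ndF6q1 ndF1q3 pcF3 Cut.none Ext.none :=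
  certFX0 (fam := false) (s1 := true) (s2 := false) (a := 1) (b := 3) (c := 3) (cn := .dn) (n1 := ndF6q1) (n2 := ndF1q3) (pc := pcF3) (cut := Cut.none) (xt := Ext.none) (P1 := 536870912) (W1 := 469762048) (P2 := 1610612736) (W2 := 469762048) (P3 := 1046898278) (W3 := 26843546)
    rfl k0_pm_133

noncomputable def f_pm_202_a : ℕ → ℕ → ℕ → ℕ → Bool := onCell 0 536870912 0 420477299 1046898278 26843546
    (rowFX 2 false true false .pp 2 0 2 (qsf 1073741824 536870912 0 420477299 0) ndF6q2 ndF1q2a pcF0 Cut.none Ext.none)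

def k0_pm_202_a : ∃ t, chk3 f_pm_202_a t 32 2 2 = true :=
  ⟨(b (a (a (l 16268744) (c (l 16204472) (b (l 16281744) (a (l 16325584) (l 16166848))))) (a (b (c (c (l 16244800) (a (l 16349936) (l 16303176))) (c (l 16250160) (l 16346304))) (c (a (l 16164536) (b (c (l 16213576) (l 16215608)) (c (l 16157680) (l 16138112)))) (a (c (l 16097096) (l 16231776)) (l 16208328)))) (c (b (a (a (l 16250616) (l 16256688)) (l 16234496)) (a (b (c (l 16186736) (l 16199712)) (l 16165640)) (l 16201240))) (b (c (l 16285496) (a (l 16299992) (l 16280944))) (c (l 16214360) (a (l 16214120) (l 16223424))))))) (a (b (a (l 16108112) (c (b (l 16187208) (l 16132056)) (a (l 16159072) (b (c (l 16149072) (l 16145376)) (l 16089048))))) (a (b (l 16119720) (l 16116416)) (c (l 16127424) (a (l 16109568) (c (l 16116232) (l 16112144)))))) (a (b (c (a (b (l 16135704) (l 16125232)) (c (l 16133912) (l 16134816))) (a (c (b (l 16130056) (l 16119384)) (l 16134192)) (l 16150248))) (c (a (l 16131152) (c (l 16138128) (l 16138624)))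 (c (a (l 16125224) (l 16147184)) (l 16144704)))) (c (c (b (l 16160816) (l 16165216)) (l 16176096)) (c (l 16187560) (b (l 16188776) (l 16190304))))))), by decide +kernel⟩

def k1_pm_202_a : ∃ t, chk3 f_pm_202_a t 32 2 3 = true :=
  ⟨(b (a (c (a (l 16250480) (c (b (l 16345128) (l 16193272)) (b (l 16371728) (l 16197392)))) (a (c (b (l 16399688) (l 16245936)) (b (l 16271544) (a (l 16329288) (l 16366816)))) (c (l 16197224) (l 16334528)))) (c (b (a (c (l 16356856) (l 16351488)) (l 16229024)) (a (c (a (l 16244752) (l 16200848)) (l 16187752)) (l 16198816))) (b (l 16225832) (l 16051528)))) (a (c (a (b (l 16043320) (b (l 16094816) (l 16091696))) (b (a (b (l 16186328) (c (l 16107360) (l 16109616))) (c (l 16136552) (l 16145024))) (c (a (l 16099368) (l 16116232)) (a (l 16101160) (l 16123632))))) (a (b (c (a (l 16223696) (l 16074624)) (a (l 16093520) (l 16177208))) (c (a (l 16082856) (l 16064904)) (a (c (l 16078648) (b (l 16076232) (l 16070104))) (l 16082768)))) (b (c (b (l 16171448) (l 16113688))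 (l 16140144)) (c (l 16108192) (l 16097792))))) (c (a (b (c (a (l 16145344) (l 16161784)) (l 16147392)) (c (l 16151192) (l 16144632))) (l 16171800)) (b (l 16135296) (l 16135080))))), by decide +kernel⟩

def k2_pm_202_a : ∃ t, chk3 f_pm_202_a t 33 2 1 = true :=
  ⟨(b (c (a (a (b (c (l 16289888) (c (l 16299680) (l 16284648))) (c (l 16242024) (c (l 16250272) (l 16235584)))) (c (c (b (l 16317416) (l 16289680)) (b (l 16315080) (l 16286896))) (l 16282952))) (c (a (a (b (l 16294712) (l 16308872)) (l 16299216)) (l 16263592)) (l 16296504))) (b (c (l 16273192) (l 16258080)) (c (l 16227008) (l 16211704)))) (c (a (c (c (b (l 16177208) (l 16159360)) (a (l 16229192) (b (l 16263680) (l 16266264)))) (c (a (b (l 16226656) (l 16228688)) (l 16249712)) (l 16222256))) (c (c (b (l 16243104) (l 16226280)) (l 16289616)) (l 16257912))) (c (a (l 16152328) (l 16186104)) (l 16197752)))), by decide +kernel⟩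

def k3_pm_202_a : ∃ t, chk3 f_pm_202_a t 17 2 1 = true :=
  ⟨(c (c (b (a (b (a (l 16379552) (b (c (l 16377400) (l 16394472)) (l 16377664))) (l 16343496)) (b (b (a (b (c (l 16433072) (a (c (l 16412704) (l 16403112)) (c (l 16418016) (l 16414392)))) (l 16388896)) (c (a (c (l 16437312) (b (l 16433344) (l 16421008))) (c (b (a (l 16446704) (l 16450728)) (b (a (l 16436536) (l 16419248)) (l 16432488))) (l 16438144))) (b (l 16436616) (l 16425120)))) (a (c (l 16400232) (l 16381200)) (a (l 16404464) (l 16416264)))) (a (c (l 16375872) (l 16357448)) (c (a (l 16386256) (l 16396976)) (l 16385416))))) (a (b (l 16327584) (l 16338656)) (b (a (c (l 16365664) (l 16348152)) (a (l 16375608) (l 16348528))) (a (c (l 16381504) (l 16344088)) (c (a (l 16364144) (b (l 16390024) (l 16362368))) (l 16370032)))))) (b (a (b (a (l 16334952) (b (b (c (a (l 16375016) (l 16386216)) (l 16375024)) (l 16363024)) (l 16343888))) (a (l 16292224) (l 16317960))) (b (b (a (b (l 16405488) (l 16391056)) (l 16428984)) (l 16389152))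 (l 16366320))) (a (b (a (l 16276408) (l 16305536)) (a (l 16287592) (l 16320696))) (b (l 16358640) (a (l 16357072) (l 16367120)))))) (b (b (a (a (l 16313960) (b (l 16365456) (l 16335296))) (b (c (l 16349800) (l 16410368)) (l 16384848))) (a (l 16288864) (l 16361280))) (a (c (l 16286752) (l 16282784)) (b (l 16353056) (a (l 16351488) (l 16361336)))))), by decide +kernel⟩

def k4_pm_202_a : ∃ t, chk3 f_pm_202_a t 16 6 1 = true :=
  ⟨(a (c (a (c (l 16178160) (a (l 16157888) (a (l 16164992) (c (l 16173480) (b (l 16139936) (l 16132256)))))) (c (a (c (b (l 16165704) (l 16179952)) (a (l 16164808) (b (l 16168088) (l 16120136)))) (c (b (l 16195328) (l 16190056)) (l 16235464))) (a (a (c (a (b (l 16148912) (l 16204920)) (l 16124432)) (l 16189496)) (l 16210704)) (c (l 16245008) (b (l 16197120) (a (l 16265608) (l 16284608))))))) (a (a (c (b (l 16114328) (l 16166744)) (a (c (l 16127992) (c (a (l 16120616) (l 16126688)) (c (l 16038136) (l 16120560)))) (c (a (l 16135424) (l 16059408)) (l 16032208))))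 (c (a (c (b (l 16126272) (l 16180624)) (l 16114928)) (c (l 16173040) (l 16158456))) (c (b (l 16134808) (l 16189320)) (l 16154640)))) (c (c (a (b (l 16178368) (l 16212440)) (l 16239000)) (b (l 16181064) (l 16216840))) (b (l 16164520) (l 16222536))))) (c (a (c (a (b (l 16251744) (l 16308760)) (c (b (l 16298496) (l 16334704)) (b (l 16211512) (a (l 16346920) (l 16360816))))) (c (a (b (a (l 16250592) (l 16266392)) (a (l 16306736) (l 16323232))) (l 16311104)) (l 16284024))) (c (b (b (l 16277616) (l 16279464)) (a (c (a (l 16343352) (l 16393408)) (l 16371104)) (l 16386232))) (b (l 16293784) (l 16344264)))) (c (b (a (l 16226872) (l 16266584)) (a (l 16287904) (c (l 16258832) (l 16315552)))) (b (l 16234136) (l 16246664))))), by decide +kernel⟩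

def k5_pm_202_a : ∃ t, chk3 f_pm_202_a t 32 14 1 = true :=
  ⟨(c (a (c (b (l 16245112) (l 16206584)) (a (l 16203432) (a (l 16214624) (a (b (l 16240056) (l 16161440)) (c (l 16183472) (b (l 16244208) (c (l 16204168) (l 16205408)))))))) (c (a (a (b (l 16261808) (l 16112312)) (b (c (l 16272272) (a (l 16266760) (l 16277064))) (b (c (l 16249952) (l 16249840)) (c (l 16192584) (l 16170984))))) (b (b (l 16306280) (l 16261800)) (a (b (l 16240160) (l 16190464)) (l 16230816)))) (a (b (c (a (a (l 16251608) (l 16260440)) (l 16279120)) (l 16274504)) (c (a (b (l 16236280) (a (l 16193640) (l 16194400))) (l 16223104)) (l 16220560))) (b (c (l 16317552) (a (l 16312088) (l 16331104))) (c (l 16236592) (a (l 16240288) (l 16178672))))))) (b (a (c (a (l 16210360) (a (c (l 16225904) (l 16227040)) (c (l 16244224) (l 16249864)))) (a (c (a (l 16195824) (a (l 16204456) (l 16212832))) (a (c (l 16192160) (a (l 16186128) (l 16193792))) (l 16206488))) (c (l 16192872) (l 16226232)))) (c (a (c (a (l 16269424) (l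 16291136)) (l 16274000)) (l 16304632)) (l 16270768))) (a (c (a (c (l 16176632) (l 16148904)) (a (c (a (l 16186744) (l 16171512)) (l 16190424)) (c (l 16204728) (l 16146656)))) (a (c (a (l 16158280) (a (l 16167456) (l 16176048))) (a (c (a (l 16150656) (l 16157704)) (a (c (l 16148720) (l 16147456)) (l 16156088))) (l 16127256))) (c (a (l 16128128) (l 16202712)) (l 16186072)))) (c (a (b (c (l 16234768) (l 16250168)) (c (a (l 16204248) (l 16206928)) (l 16197952))) (l 16138568)) (c (l 16158920) (l 16194392)))))), by decide +kernel⟩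

def k6_pm_202_a : ∃ t, chk3 f_pm_202_a t 32 15 1 = true :=
  ⟨(c (a (b (a (l 16107384) (c (l 16096704) (l 16082800))) (c (l 15916736) (l 15900040))) (c (a (b (l 16072752) (l 15879776)) (l 15884712)) (a (c (l 15762072) (l 15974568)) (b (l 16073088) (l 15876016))))) (a (c (a (b (l 16084720) (l 15895176)) (a (b (l 16078984) (l 15880696)) (c (l 15975504) (l 15978096)))) (a (c (b (a (l 16078368) (l 16077288)) (l 15843040)) (a (b (c (l 16074160) (l 16071392)) (l 15756024)) (l 15742600))) (c (l 15825512) (l 15962592)))) (c (a (b (l 16071448) (l 15872120)) (l 15957072)) (l 15900520)))), by decide +kernel⟩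

def k7_pm_202_a : ∃ t, chk3 f_pm_202_a t 33 7 1 = true :=
  ⟨(c (b (c (a (a (b (b (l 16357400) (l 16340136)) (l 16236608)) (b (b (c (l 16393264) (a (l 16391600) (l 16395416))) (c (l 16352520) (l 16349576))) (c (l 16240008) (a (l 16240904) (l 16233728))))) (a (b (c (l 16266520) (l 16355536)) (l 16077592)) (l 16271176))) (c (a (a (b (a (c (l 16350440) (l 16350440)) (l 16338144)) (a (l 16243176) (l 16238304))) (b (l 16354496) (l 16222200))) (l 16172504)) (b (l 16318296) (l 16192872)))) (b (a (c (l 16069104) (l 16054624)) (a (l 16040208) (l 16017440))) (a (c (l 15874256) (l 15857432)) (l 15791728)))) (b (c (b (a (c (l 16319008) (l 16306264)) (l 16272904)) (a (l 16194200) (l 16153584))) (b (l 16267008) (l 16160552))) (c (b (a (l 16025408) (l 15985016)) (l 15807960)) (b (l 15990896) (l 15789824))))), by decide +kernel⟩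

def k8_pm_202_a : ∃ t, chk3 f_pm_202_a t 17 3 1 = true :=
  ⟨(b (c (a (b (a (c (l 16362576) (l 16326792)) (c (l 16377768) (a (l 16286936) (l 16356256)))) (c (b (l 16329712) (l 16340480)) (a (b (c (l 16362616) (l 16348528)) (l 16333776)) (c (l 16313216) (l 16306664))))) (a (b (c (b (c (l 16385616) (l 16369904)) (l 16349320)) (l 16344656)) (c (l 16261504) (l 16265736))) (c (c (b (l 16318888) (l 16233552)) (l 16269728)) (l 16265512)))) (a (b (a (l 16307824) (l 16340928)) (a (b (l 16338192) (l 16315632)) (l 16300352))) (b (a (l 16338368) (l 16300880)) (l 16234928)))) (b (c (a (c (b (l 16276272) (l 16140544)) (b (a (l 16248432) (l 16223152)) (a (l 16132472) (l 16087232)))) (c (a (b (l 16196672) (l 16063048)) (c (b (l 16149808) (l 16017896)) (l 16076560))) (b (l 16158248) (l 16023688)))) (a (c (l 16039864) (l 16117048)) (b (l 16147224) (l 16009792)))) (c (b (a (c (l 15976728) (a (l 15903336) (l 15859784))) (c (b (a (l 15943768) (l 15874552)) (l 15832272)) (l 15860992))) (a (c (l 15781296)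 (l 15749520)) (c (l 15686752) (l 15666400)))) (a (b (c (l 15929048) (l 15919040)) (l 15722976)) (b (l 15801752) (l 15645080)))))), by decide +kernel⟩

def k9_pm_202_a : ∃ t, chk3 f_pm_202_a t 9 1 1 = true :=
  ⟨(b (a (a (a (b (c (b (b (c (c (b (l 16468032) (a (l 16447384) (l 16461784))) (l 16458896)) (l 16457480)) (l 16416136)) (c (l 16418688) (l 16415976))) (b (b (l 16454656) (l 16432680)) (l 16411824))) (c (b (c (b (l 16404056) (l 16387640)) (l 16389032)) (l 16297224)) (b (l 16383960) (l 16330704)))) (b (b (c (b (a (l 16481352) (l 16478872)) (b (a (l 16466248) (l 16458464)) (l 16448384))) (b (l 16475320) (l 16451832))) (c (l 16393336) (l 16408472))) (b (l 16352496) (l 16283520)))) (b (b (c (b (l 16359872) (a (b (l 16412200) (l 16398184)) (l 16342856))) (b (l 16395680) (l 16368424))) (l 16327872)) (c (l 16240576) (l 16229136)))) (b (b (a (a (c (b (l 16302456) (l 16276368)) (l 16277600)) (c (l 16235472) (l 16224392))) (c (c (l 16170504) (l 16163912)) (l 16154224))) (b (a (a (l 16246464)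 (l 16155512)) (c (l 16134248) (l 16119944))) (l 16148592))) (a (c (l 16129768) (l 16115128)) (l 16033120)))) (b (a (c (a (a (b (l 16263096) (l 16178832)) (l 16173664)) (l 16098216)) (a (l 16100936) (l 16082272))) (a (b (l 16025080) (l 15950024)) (c (l 15915640) (l 15894728)))) (a (b (c (a (c (l 15887184) (l 16003648)) (l 15915592)) (a (b (l 16056496) (l 15921128)) (l 15894264))) (c (a (b (c (l 15788184) (l 15775608)) (l 15591576)) (b (l 15692304) (l 1))) (b (a (l 15735672) (l 15664568)) (l 15392000)))) (a (b (c (b (l 15885136) (l 15758904)) (b (l 15863120) (l 15733216))) (l 1)) (l 1))))), by decide +kernel⟩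

def k10_pm_202_a : ∃ t, chk3 f_pm_202_a t 5 1 1 = true :=
  ⟨(a (b (a (b (c (b (b (a (l 16082056) (l 15904504)) (l 15939304)) (a (b (l 16033784) (l 16012328)) (a (l 15945584) (l 15890920)))) (b (a (l 16049488) (l 15936080)) (a (l 16008016) (l 15898072)))) (c (l 15902304) (l 15881328))) (b (l 1) (l 1))) (b (a (c (l 109552886055) (l 135859522503)) (l 1)) (l 1))) (l 1)), by decide +kernel⟩

def k11_pm_202_a : ∃ t, chk3 f_pm_202_a t 3 1 1 = true :=
  ⟨(l 1), by decide +kernel⟩

theorem s12_pm_202_a : ∃ t, chk3 f_pm_202_a t 32 7 1 = true := ex3_b k5_pm_202_a k6_pm_202_a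

theorem s13_pm_202_a : ∃ t, chk3 f_pm_202_a t 16 7 1 = true := ex3_a s12_pm_202_a k7_pm_202_a

theorem s14_pm_202_a : ∃ t, chk3 f_pm_202_a t 16 3 1 = true := ex3_b k4_pm_202_a s13_pm_202_a

theorem s15_pm_202_a : ∃ t, chk3 f_pm_202_a t 8 3 1 = true := ex3_a s14_pm_202_a k8_pm_202_a

theorem s16_pm_202_a : ∃ t, chk3 f_pm_202_a t 32 2 1 = true := ex3_c k0_pm_202_a k1_pm_202_a

theorem s17_pm_202_a : ∃ t, chk3 f_pm_202_a t 16 2 1 = true := ex3_a s16_pm_202_a k2_pm_202_a

theorem s18_pm_202_a : ∃ t, chk3 f_pm_202_a t 8 2 1 = true := ex3_a s17_pm_202_a k3_pm_202_a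

theorem s19_pm_202_a : ∃ t, chk3 f_pm_202_a t 8 1 1 = true := ex3_b s18_pm_202_a s15_pm_202_a

theorem s20_pm_202_a : ∃ t, chk3 f_pm_202_a t 4 1 1 = true := ex3_a s19_pm_202_a k9_pm_202_a

theorem s21_pm_202_a : ∃ t, chk3 f_pm_202_a t 2 1 1 = true := ex3_a s20_pm_202_a k10_pm_202_a

theorem s22_pm_202_a : ∃ t, chk3 f_pm_202_a t 1 1 1 = true := ex3_a s21_pm_202_a k11_pm_202_a

theorem c_pm_202_a : CertFX 1073741824 536870912 0 420477299 1046898278 26843546 false true false .pp 2 0 2
    ndF6q2 ndF1q2a pcF0 Cut.none Ext.none :=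
  certFX2 (fam := false) (s1 := true) (s2 := false) (a := 2) (b := 0) (c := 2) (cn := .pp) (n1 := ndF6q2) (n2 := ndF1q2a) (pc := pcF0) (cut := Cut.none) (xt := Ext.none) (P1 := 1073741824) (W1 := 536870912) (P2 := 0) (W2 := 420477299) (P3 := 1046898278) (W3 := 26843546)
    rfl (fun _ => rfl) s22_pm_202_a

noncomputable def f_pm_202_b : ℕ → ℕ → ℕ → ℕ → Bool := onCell 1073741824 536870912 0 536870912 1046898278 26843546
    (rowFX 1 false true false .pp 2 0 2 (qsf 1073741824 536870912 1239849684 370763052 0) ndF6q2 ndF1q2b pcF0 Cut.none Ext.none)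

def k0_pm_202_b : ∃ t, chk3 f_pm_202_b t 8 4 1 = true :=
  ⟨(b (l 1) (b (a (l 1) (b (l 1) (c (l 601864901255) (l 16373928)))) (b (a (l 1) (b (c (l 16306632) (l 16297464)) (l 16233008))) (c (a (l 16166640) (c (l 292089979863) (l 16195792))) (l 16149688))))), by decide +kernel⟩

def k1_pm_202_b : ∃ t, chk3 f_pm_202_b t 9 4 1 = true :=
  ⟨(b (a (b (l 1) (b (l 1) (b (l 1) (b (l 1) (b (l 1) (a (l 1) (c (c (a (l 1) (c (l 307123010743) (l 16491368))) (l 16510560)) (l 16530192)))))))) (b (b (l 1) (b (l 1) (b (l 1) (c (c (l 125660549127) (l 16392944)) (l 36003072935))))) (b (a (a (l 1) (b (l 1) (a (l 1) (b (l 1) (c (c (l 16426280) (l 16374080)) (l 16411736)))))) (c (c (b (a (l 16432880) (l 16269680)) (b (l 387116404071) (l 16241616))) (b (c (l 16314504) (b (l 16392384) (l 16301392))) (c (b (l 401611852951) (l 16274448)) (l 16324496)))) (c (l 353293377847) (l 16282520)))) (b (c (c (a (b (a (l 1) (c (l 16443536) (l 16357256))) (c (l 16363000) (l 374768506327))) (c (l 16305600) (b (l 16279144)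 (l 16269224)))) (a (l 366715439575) (l 16276504))) (l 428992099191)) (c (c (c (a (b (c (l 16373192) (l 16279400)) (b (l 423623694391) (l 16265072))) (b (l 16251952) (l 16220192))) (l 415033410807)) (l 16179048)) (l 16194528)))))) (c (b (b (b (a (a (l 1) (a (b (l 1) (l 16483560)) (c (l 388190419303) (l 16456400)))) (c (a (l 16230832) (l 16178416)) (l 16231008))) (a (a (l 16504168) (l 391411534455)) (l 16138304))) (a (a (l 16374256) (b (l 16386328) (l 16328008))) (a (l 16196960) (c (l 16010448) (l 16038728))))) (b (a (a (l 16197424) (b (l 16268536) (l 16234224))) (b (c (l 15876952) (l 16035560)) (l 15995608))) (a (a (l 16227712) (l 16170048)) (l 15939440)))) (b (a (b (a (l 291553910759) (b (l 16474384) (l 16438728))) (a (l 16410640) (l 16350544))) (b (l 16050528) (l 16106136))) (b (a (a (l 16293448) (l 16236360)) (l 15891384)) (a (l 16162368) (l 15921872)))))), by decide +kernel⟩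

def k2_pm_202_b : ∃ t, chk3 f_pm_202_b t 4 5 1 = true :=
  ⟨(b (b (c (a (b (a (c (l 461740931463) (l 16014616)) (l 16115864)) (a (l 481604951127) (l 16025600))) (a (b (a (l 16136856) (l 16087952)) (l 16027704)) (l 15818808))) (a (b (l 345239935895) (l 392484359383)) (a (a (l 16084608) (l 16030968)) (l 15797480)))) (a (b (c (a (l 15891928) (l 15935944)) (l 15896216)) (c (l 15823760) (l 15801520))) (a (l 15898768) (l 15655616)))) (b (a (l 15668648) (l 15604112)) (a (l 15561520) (l 15512192)))), by decide +kernel⟩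

def k3_pm_202_b : ∃ t, chk3 f_pm_202_b t 20 8 1 = true :=
  ⟨(a (b (b (b (l 1) (b (l 1) (c (c (l 230350062199) (l 243771897927)) (c (l 16357096) (l 16328368))))) (c (b (b (c (l 272762917447) (l 289405893671)) (c (c (l 304438342935) (l 314638870487)) (l 16341960))) (c (a (l 184179261463) (c (l 16294944) (l 16292384))) (l 16294408))) (c (l 16142632) (l 16274368)))) (b (c (c (b (a (l 16253752) (l 16197088)) (l 16168104)) (b (c (l 16219392) (b (l 16214432) (l 16205504))) (c (l 16156552) (l 16169216)))) (b (c (l 16212112) (l 16207968)) (l 16162968))) (c (c (b (c (l 16152600) (l 16132352)) (b (l 16095736) (l 16067096))) (l 16097296)) (l 16088008)))) (b (b (c (b (c (l 16329872) (l 364567819095)) (c (b (c (l 16253224) (l 401075036599)) (l 16251472)) (b (l 16247504) (l 16299432)))) (b (c (b (l 16366664) (c (l 16300992) (l 16328168))) (b (c (l 16320624) (l 16255032)) (l 16326664))) (c (l 16228496) (l 16398088)))) (c (b (c (c (l 16290736) (l 16254152)) (l 16238368)) (c (b (b (l 16311008)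 (l 16319080)) (l 16273808)) (l 16224120))) (b (l 16258784) (c (l 16151432) (l 16355592))))) (b (c (b (c (l 16224392) (l 16118992)) (c (l 16223040) (l 16169200))) (l 16096152)) (c (c (b (c (l 16229792) (l 16190096)) (l 16036336)) (l 16157216)) (l 16192456))))), by decide +kernel⟩

def k4_pm_202_b : ∃ t, chk3 f_pm_202_b t 21 8 1 = true :=
  ⟨(b (b (b (c (c (l 15773112) (a (l 16036160) (l 15866736))) (c (b (l 15876056) (c (l 15858872) (l 15845864))) (b (c (l 15813288) (a (l 16095096) (l 15850072))) (l 15863136)))) (c (b (a (c (l 16063096) (l 16142880)) (c (l 15924696) (l 15894408))) (c (b (l 15838136) (l 15837864)) (a (l 16177728) (c (l 15873448) (l 15814552))))) (b (c (l 15843080) (l 16031680)) (c (a (l 16212640) (l 15876600)) (l 15945768))))) (c (b (c (a (b (l 16204120) (c (b (l 16184096) (l 16000496)) (b (l 16024064) (l 16177152)))) (b (l 15882344) (c (l 15861728) (l 15858288)))) (b (a (l 16172344) (c (l 15751880) (l 15871920))) (l 15864200))) (a (c (b (c (b (l 16020552) (l 16179488))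 (l 16203216)) (l 16219120)) (l 16224440)) (c (l 15785240) (l 15945896)))) (c (a (b (b (l 16241648) (l 16225128)) (l 16263744)) (b (l 15925952) (l 15980888))) (a (l 16288808) (l 15961856))))) (c (b (c (a (l 16179240) (l 16001336)) (a (l 16143272) (l 15982104))) (c (b (l 16074792) (l 16161920)) (l 16223560))) (b (l 16020168) (l 16261192)))), by decide +kernel⟩

def k5_pm_202_b : ∃ t, chk3 f_pm_202_b t 10 9 1 = true :=
  ⟨(b (a (a (c (c (b (l 16003320) (l 15906856)) (l 15901856)) (l 15784392)) (c (b (c (l 16106464) (l 16100624)) (l 15943184)) (l 15956184))) (b (c (c (a (l 16227816) (l 16223200)) (l 16297248)) (l 16408368)) (b (l 16232384) (l 16263672)))) (a (b (a (b (c (l 15817944) (l 15792872)) (l 15761880)) (b (l 15915840) (l 15870408))) (c (a (l 15720776) (l 15829856)) (l 15565992))) (b (c (b (l 16257984) (l 16343552)) (l 16213640)) (a (l 16003216) (l 16443920))))), by decide +kernel⟩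

def k6_pm_202_b : ∃ t, chk3 f_pm_202_b t 11 4 1 = true :=
  ⟨(b (b (b (c (c (b (a (l 15259704) (l 15054416)) (b (a (b (l 15288400) (a (c (l 15630824) (l 15616712)) (l 15324856))) (b (l 15123152) (l 15140344))) (a (a (l 15611352) (l 15314888)) (l 15131368)))) (b (a (a (l 15544328) (b (l 15209776) (l 15199976))) (b (l 15021696) (l 15072408))) (a (a (b (c (l 15423056) (l 15562784)) (l 15450568)) (b (l 15275064) (l 15253576))) (b (l 15085192) (l 15066240))))) (c (b (a (b (l 15236752) (a (l 15545784) (b (l 15234936) (l 15241520)))) (b (l 15017296) (c (l 15053336) (l 15032192)))) (a (b (c (l 15384440) (l 15382360)) (l 15406808)) (l 15057304))) (b (a (b (b (l 15352744) (c (l 15300256) (l 15353816))) (a (l 15529552) (l 15213904))) (b (c (l 15006152) (l 14746976)) (l 15017104))) (a (l 15412704) (l 15063552))))) (c (a (b (b (c (l 15426976) (l 15152120)) (c (c (l 15410672) (l 15403640)) (l 15434656))) (c (l 15277920) (l 15495552))) (b (c (l 14992608) (l 15090704)) (l 15147232))) (a (c (l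 15404176) (l 15489504)) (l 15153232)))) (c (a (b (c (l 15572168) (l 15567840)) (c (b (l 15705096) (l 15539992)) (l 15739032))) (b (c (l 15250600) (l 15299328)) (c (l 15348040) (l 15447016)))) (a (b (l 15607896) (l 15728512)) (b (l 15290288) (l 15422856))))) (b (b (c (a (b (l 15713688) (l 15915688)) (b (l 15579480) (l 15641424))) (a (l 15857848) (l 15555040))) (a (c (l 15917952) (l 15998248)) (c (l 15769296) (l 15740224)))) (a (a (c (l 16277552) (l 16309256)) (l 15915312)) (l 15909648)))), by decide +kernel⟩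

def k7_pm_202_b : ∃ t, chk3 f_pm_202_b t 5 5 1 = true :=
  ⟨(b (a (a (b (l 15408080) (l 15513160)) (b (l 16196720) (l 16059712))) (a (b (l 16373808) (l 16577040)) (l 16029208))) (a (b (a (l 15360224) (l 15922488)) (a (l 15281584) (l 15851424))) (b (l 16495944) (l 16606072)))), by decide +kernel⟩

def k8_pm_202_b : ∃ t, chk3 f_pm_202_b t 2 3 1 = true :=
  ⟨(a (b (a (b (l 15561360) (l 15561360)) (b (l 15512056) (l 15512056))) (a (l 15561360) (l 15512056))) (a (b (a (l 15281464) (l 15851320)) (a (l 15281464) (l 2))) (a (b (l 16468944) (l 2)) (l 16776784)))), by decide +kernel⟩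

def k9_pm_202_b : ∃ t, chk3 f_pm_202_b t 3 1 1 = true :=
  ⟨(b (a (b (c (b (a (b (b (b (c (l 14980240) (l 14974008)) (c (b (l 15061568) (a (l 15087216) (l 15003656))) (b (l 15015800) (l 14996016)))) (b (c (a (l 15052344) (l 14995192)) (l 15017824)) (l 15084088))) (b (a (l 15239632) (l 15191808)) (a (b (l 15392984) (l 15462144)) (l 15387616)))) (b (b (a (b (l 14871592) (c (l 14856448) (l 14919880))) (b (l 14851752) (c (l 14704056) (l 14865904)))) (a (b (l 14966160) (l 15040144)) (l 14971504))) (b (l 15092664) (l 15326088)))) (b (b (a (l 15527448) (l 15456176)) (l 15642280)) (a (l 15936720) (l 15865832)))) (b (b (b (c (a (b (b (l 14942216) (l 14970160)) (l 14986728)) (b (l 14835472) (l 14872360))) (b (b (a (c (l 14930656) (l 14922816)) (l 14819576)) (l 14891528)) (l 14924272))) (a (l 15080192) (l 14971816))) (b (a (l 15203040) (a (l 15174800) (l 15128584))) (a (l 15365928) (l 15296008)))) (b (a (b (a (l 15548152) (l 15498688)) (l 15673448)) (l 15515456)) (a (l 15914888) (l 15842152)))))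 (b (b (a (l 16133296) (l 16088544)) (l 16360328)) (b (l 16622144) (l 16772928)))) (a (b (b (b (b (c (b (c (l 14796880) (l 14773848)) (c (l 198268775079) (l 213837991079))) (b (c (b (l 14735272) (l 14615744)) (b (l 246050021767) (l 14750952))) (c (l 14817848) (l 14812104)))) (c (l 14944368) (l 240681756151))) (c (b (l 209006700887) (l 15264416)) (l 15163328))) (b (c (b (l 15437176) (l 15583064)) (l 15475320)) (c (l 15829544) (l 15804920)))) (b (l 355507572295) (l 2))) (l 3))) (a (a (l 16777216) (l 2)) (l 2))), by decide +kernel⟩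

theorem s10_pm_202_b : ∃ t, chk3 f_pm_202_b t 10 8 1 = true := ex3_a k3_pm_202_b k4_pm_202_b

theorem s11_pm_202_b : ∃ t, chk3 f_pm_202_b t 10 4 1 = true := ex3_b s10_pm_202_b k5_pm_202_b

theorem s12_pm_202_b : ∃ t, chk3 f_pm_202_b t 5 4 1 = true := ex3_a s11_pm_202_b k6_pm_202_b

theorem s13_pm_202_b : ∃ t, chk3 f_pm_202_b t 5 2 1 = true := ex3_b s12_pm_202_b k7_pm_202_b

theorem s14_pm_202_b : ∃ t, chk3 f_pm_202_b t 4 4 1 = true := ex3_a k0_pm_202_b k1_pm_202_b

theorem s15_pm_202_b : ∃ t, chk3 f_pm_202_b t 4 2 1 = true := ex3_b s14_pm_202_b k2_pm_202_b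

theorem s16_pm_202_b : ∃ t, chk3 f_pm_202_b t 2 2 1 = true := ex3_a s15_pm_202_b s13_pm_202_b

theorem s17_pm_202_b : ∃ t, chk3 f_pm_202_b t 2 1 1 = true := ex3_b s16_pm_202_b k8_pm_202_b

theorem s18_pm_202_b : ∃ t, chk3 f_pm_202_b t 1 1 1 = true := ex3_a s17_pm_202_b k9_pm_202_b

theorem c_pm_202_b : CertFX 1073741824 536870912 1239849684 370763052 1046898278 26843546 false true false .pp 2 0 2
    ndF6q2 ndF1q2b pcF0 Cut.none Ext.none :=
  certFX1 (fam := false) (s1 := true) (s2 := false) (a := 2) (b := 0) (c := 2) (cn := .pp) (n1 := ndF6q2) (n2 := ndF1q2b) (pc := pcF0) (cut := Cut.none) (xt := Ext.none) (P1 := 1073741824) (W1 := 536870912) (P2 := 1239849684) (W2 := 370763052) (P3 := 1046898278) (W3 := 26843546)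
    rfl (fun _ => rfl) s18_pm_202_b

noncomputable def f_pm_203 : ℕ → ℕ → ℕ → ℕ → Bool := onCell 1073741824 536870912 0 536870912 1046898278 26843546
    (rowFX 1 false true false .up 2 0 3 (qsf 1073741824 536870912 1610612736 469762048 0) ndF6q2 ndF1q3 pcF0 Cut.none Ext.none)

def k0_pm_203 : ∃ t, chk3 f_pm_203 t 1 1 1 = true :=
  ⟨(b (a (a (l 1) (b (l 1) (b (l 1) (a (l 1) (b (l 1) (l 16585104)))))) (a (b (b (l 1) (b (l 1) (c (l 368861579495) (l 416643044215)))) (b (b (l 245918609639) (l 16360328)) (b (l 16622144) (l 16772928)))) (a (b (a (b (l 1) (b (c (l 15297416) (l 15496288)) (b (l 15727264) (l 15876400)))) (b (b (l 1) (l 3)) (l 3))) (b (l 247663543959) (b (l 16604560) (l 16762712)))) (l 3)))) (b (a (a (a (l 1) (l 322153068007)) (a (a (l 15281464) (l 15851320)) (l 140156058647))) (b (c (l 16777216) (l 16777216)) (a (l 16777216) (l 16777208)))) (a (a (a (l 15561360) (l 15512056)) (a (a (l 15281464) (l 15851320)) (l 16605992))) (a (c (l 16777208) (l 16777208)) (b (l 16771864)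 (l 16767512)))))), by decide +kernel⟩

theorem c_pm_203 : CertFX 1073741824 536870912 1610612736 469762048 1046898278 26843546 false true false .up 2 0 3
    ndF6q2 ndF1q3 pcF0 Cut.none Ext.none :=
  certFX1 (fam := false) (s1 := true) (s2 := false) (a := 2) (b := 0) (c := 3) (cn := .up) (n1 := ndF6q2) (n2 := ndF1q3) (pc := pcF0) (cut := Cut.none) (xt := Ext.none) (P1 := 1073741824) (W1 := 536870912) (P2 := 1610612736) (W2 := 469762048) (P3 := 1046898278) (W3 := 26843546)
    rfl (fun _ => rfl) k0_pm_203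

noncomputable def f_pm_213 : ℕ → ℕ → ℕ → ℕ → Bool := onCell 1073741824 536870912 536870912 536870912 1046898278 26843546
    (rowFX 1 false true false .pnn 2 1 3 (qsf 1073741824 536870912 1610612736 469762048 1) ndF6q2 ndF1q3 pcF1 Cut.none Ext.none)

def k0_pm_213 : ∃ t, chk3 f_pm_213 t 1 1 1 = true :=
  ⟨(a (b (a (b (a (l 15561360) (l 15512056)) (l 15533944)) (a (b (a (l 15281464) (l 15851320)) (l 15451928)) (b (l 16626976) (l 16425360)))) (a (b (b (l 15539752) (a (l 15574256) (l 15511824))) (b (l 98345089735) (a (l 15859832) (l 2)))) (b (a (b (l 15577840) (l 48415971975)) (b (l 16589176) (l 2))) (l 2)))) (b (a (b (a (l 16771864) (b (l 16771896) (l 16767800))) (b (l 16759240) (l 16896608))) (b (b (l 16811664) (a (l 16742216) (l 2))) (l 2))) (l 2))), by decide +kernel⟩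

theorem c_pm_213 : CertFX 1073741824 536870912 1610612736 469762048 1046898278 26843546 false true false .pnn 2 1 3
    ndF6q2 ndF1q3 pcF1 Cut.none Ext.none :=
  certFX1 (fam := false) (s1 := true) (s2 := false) (a := 2) (b := 1) (c := 3) (cn := .pnn) (n1 := ndF6q2) (n2 := ndF1q3) (pc := pcF1) (cut := Cut.none) (xt := Ext.none) (P1 := 1073741824) (W1 := 536870912) (P2 := 1610612736) (W2 := 469762048) (P3 := 1046898278) (W3 := 26843546)
    rfl (fun _ => rfl) k0_pm_213

noncomputable def f_pm_303 : ℕ → ℕ → ℕ → ℕ → Bool := onCell 0 1230186008 1610612736 469762048 1046898278 26843546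
    (rowFX 0 false true false .npn 3 0 3 (qsf 0 1230186008 1610612736 469762048 0) ndF6q3 ndF1q3 pcF0 Cut.none Ext.none)

def k0_pm_303 : ∃ t, chk3 f_pm_303 t 1 1 1 = true :=
  ⟨(a (l 3) (a (l 3) (b (l 3) (l 3)))), by decide +kernel⟩

theorem c_pm_303 : CertFX 0 1230186008 1610612736 469762048 1046898278 26843546 false true false .npn 3 0 3
    ndF6q3 ndF1q3 pcF0 Cut.none Ext.none :=
  certFX0 (fam := false) (s1 := true) (s2 := false) (a := 3) (b := 0) (c := 3) (cn := .npn) (n1 := ndF6q3) (n2 := ndF1q3) (pc := pcF0) (cut := Cut.none) (xt := Ext.none) (P1 := 0) (W1 := 1230186008) (P2 := 1610612736) (W2 := 469762048) (P3 := 1046898278) (W3 := 26843546)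
    rfl k0_pm_303

noncomputable def f_pm_313 : ℕ → ℕ → ℕ → ℕ → Bool := onCell 0 1230186008 1610612736 469762048 1046898278 26843546
    (rowFX 0 false true false .dn 3 1 3 (qsf 0 1230186008 1610612736 469762048 1) ndF6q3 ndF1q3 pcF1 Cut.none Ext.none)

def k0_pm_313 : ∃ t, chk3 f_pm_313 t 1 1 1 = true :=
  ⟨(l 1), by decide +kernel⟩

theorem c_pm_313 : CertFX 0 1230186008 1610612736 469762048 1046898278 26843546 false true false .dn 3 1 3
    ndF6q3 ndF1q3 pcF1 Cut.none Ext.none :=
  certFX0 (fam := false) (s1 := true) (s2 := false) (a := 3) (b := 1) (c := 3) (cn := .dn) (n1 := ndF6q3) (n2 := ndF1q3) (pc := pcF1) (cut := Cut.none) (xt := Ext.none) (P1 := 0) (W1 := 1230186008) (P2 := 1610612736) (W2 := 469762048) (P3 := 1046898278) (W3 := 26843546)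
    rfl k0_pm_313

noncomputable def f_mm_001 : ℕ → ℕ → ℕ → ℕ → Bool := onCell 0 536870912 536870912 536870912 1046898278 26843546
    (rowFX 0 false false false .up 0 0 1 (qsf 0 536870912 536870912 536870912 0) ndF6q0 ndF1q1 pcF0 Cut.none Ext.none)

def k0_mm_001 : ∃ t, chk3 f_mm_001 t 1 1 1 = true :=
  ⟨(l 5), by decide +kernel⟩

theorem c_mm_001 : CertFX 0 536870912 536870912 536870912 1046898278 26843546 false false false .up 0 0 1
    ndF6q0 ndF1q1 pcF0 Cut.none Ext.none :=
  certFX0 (fam := false) (s1 := false) (s2 := false) (a := 0) (b := 0) (c := 1) (cn := .up) (n1 := ndF6q0) (n2 := ndF1q1) (pc := pcF0) (cut := Cut.none) (xt := Ext.none) (P1 := 0) (W1 := 536870912) (P2 := 536870912) (W2 := 536870912) (P3 := 1046898278) (W3 := 26843546)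
    rfl k0_mm_001

noncomputable def f_mm_011 : ℕ → ℕ → ℕ → ℕ → Bool := onCell 0 536870912 536870912 536870912 1046898278 26843546
    (rowFX 0 false false false .pnn 0 1 1 (qsf 0 536870912 536870912 536870912 1) ndF6q0 ndF1q1 pcF1 Cut.none Ext.none)

def k0_mm_011 : ∃ t, chk3 f_mm_011 t 1 1 1 = true :=
  ⟨(l 5), by decide +kernel⟩

theorem c_mm_011 : CertFX 0 536870912 536870912 536870912 1046898278 26843546 false false false .pnn 0 1 1
    ndF6q0 ndF1q1 pcF1 Cut.none Ext.none :=
  certFX0 (fam := false) (s1 := false) (s2 := false) (a := 0) (b := 1) (c := 1) (cn := .pnn) (n1 := ndF6q0) (n2 := ndF1q1) (pc := pcF1) (cut := Cut.none) (xt := Ext.none) (P1 := 0) (W1 := 536870912) (P2 := 536870912) (W2 := 536870912) (P3 := 1046898278) (W3 := 26843546)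
    rfl k0_mm_011

noncomputable def f_mm_012_a : ℕ → ℕ → ℕ → ℕ → Bool := onCell 0 536870912 0 420477299 1046898278 26843546
    (rowFX 0 false false false .pnp 0 1 2 (qsf 0 536870912 0 420477299 1) ndF6q0 ndF1q2a pcF1 Cut.none Ext.none)

def k0_mm_012_a : ∃ t, chk3 f_mm_012_a t 1 1 1 = true :=
  ⟨(l 5), by decide +kernel⟩

theorem c_mm_012_a : CertFX 0 536870912 0 420477299 1046898278 26843546 false false false .pnp 0 1 2
    ndF6q0 ndF1q2a pcF1 Cut.none Ext.none :=
  certFX0 (fam := false) (s1 := false) (s2 := false) (a := 0) (b := 1) (c := 2) (cn := .pnp) (n1 := ndF6q0) (n2 := ndF1q2a) (pc := pcF1) (cut := Cut.none) (xt := Ext.none) (P1 := 0) (W1 := 536870912) (P2 := 0) (W2 := 420477299) (P3 := 1046898278) (W3 := 26843546)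
    rfl k0_mm_012_a

noncomputable def f_mm_012_b : ℕ → ℕ → ℕ → ℕ → Bool := onCell 0 536870912 1239849684 370763052 1046898278 26843546
    (rowFX 0 false false false .pnp 0 1 2 (qsf 0 536870912 1239849684 370763052 1) ndF6q0 ndF1q2b pcF1 Cut.none Ext.none)

def k0_mm_012_b : ∃ t, chk3 f_mm_012_b t 1 1 1 = true :=
  ⟨(l 5), by decide +kernel⟩

theorem c_mm_012_b : CertFX 0 536870912 1239849684 370763052 1046898278 26843546 false false false .pnp 0 1 2
    ndF6q0 ndF1q2b pcF1 Cut.none Ext.none :=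
  certFX0 (fam := false) (s1 := false) (s2 := false) (a := 0) (b := 1) (c := 2) (cn := .pnp) (n1 := ndF6q0) (n2 := ndF1q2b) (pc := pcF1) (cut := Cut.none) (xt := Ext.none) (P1 := 0) (W1 := 536870912) (P2 := 1239849684) (W2 := 370763052) (P3 := 1046898278) (W3 := 26843546)
    rfl k0_mm_012_b

noncomputable def f_mm_022_a : ℕ → ℕ → ℕ → ℕ → Bool := onCell 0 536870912 0 420477299 1046898278 26843546
    (rowFX 0 false false false .pp 0 2 2 (qsf 0 536870912 0 420477299 2) ndF6q0 ndF1q2a pcF2 Cut.none Ext.none)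

def k0_mm_022_a : ∃ t, chk3 f_mm_022_a t 1 1 1 = true :=
  ⟨(l 5), by decide +kernel⟩

theorem c_mm_022_a : CertFX 0 536870912 0 420477299 1046898278 26843546 false false false .pp 0 2 2
    ndF6q0 ndF1q2a pcF2 Cut.none Ext.none :=
  certFX0 (fam := false) (s1 := false) (s2 := false) (a := 0) (b := 2) (c := 2) (cn := .pp) (n1 := ndF6q0) (n2 := ndF1q2a) (pc := pcF2) (cut := Cut.none) (xt := Ext.none) (P1 := 0) (W1 := 536870912) (P2 := 0) (W2 := 420477299) (P3 := 1046898278) (W3 := 26843546)
    rfl k0_mm_022_a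

noncomputable def f_mm_022_b : ℕ → ℕ → ℕ → ℕ → Bool := onCell 0 536870912 1239849684 370763052 1046898278 26843546
    (rowFX 0 false false false .pp 0 2 2 (qsf 0 536870912 1239849684 370763052 2) ndF6q0 ndF1q2b pcF2 Cut.none Ext.none)

def k0_mm_022_b : ∃ t, chk3 f_mm_022_b t 1 1 1 = true :=
  ⟨(l 5), by decide +kernel⟩

theorem c_mm_022_b : CertFX 0 536870912 1239849684 370763052 1046898278 26843546 false false false .pp 0 2 2
    ndF6q0 ndF1q2b pcF2 Cut.none Ext.none :=
  certFX0 (fam := false) (s1 := false) (s2 := false) (a := 0) (b := 2) (c := 2) (cn := .pp) (n1 := ndF6q0) (n2 := ndF1q2b) (pc := pcF2) (cut := Cut.none) (xt := Ext.none) (P1 := 0) (W1 := 536870912) (P2 := 1239849684) (W2 := 370763052) (P3 := 1046898278) (W3 := 26843546)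
    rfl k0_mm_022_b

noncomputable def f_mm_023 : ℕ → ℕ → ℕ → ℕ → Bool := onCell 0 536870912 1610612736 469762048 1046898278 26843546
    (rowFX 0 false false false .up 0 2 3 (qsf 0 536870912 1610612736 469762048 2) ndF6q0 ndF1q3 pcF2 Cut.none Ext.none)

def k0_mm_023 : ∃ t, chk3 f_mm_023 t 1 1 1 = true :=
  ⟨(l 5), by decide +kernel⟩

theorem c_mm_023 : CertFX 0 536870912 1610612736 469762048 1046898278 26843546 false false false .up 0 2 3
    ndF6q0 ndF1q3 pcF2 Cut.none Ext.none :=
  certFX0 (fam := false) (s1 := false) (s2 := false) (a := 0) (b := 2) (c := 3) (cn := .up) (n1 := ndF6q0) (n2 := ndF1q3) (pc := pcF2) (cut := Cut.none) (xt := Ext.none) (P1 := 0) (W1 := 536870912) (P2 := 1610612736) (W2 := 469762048) (P3 := 1046898278) (W3 := 26843546)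
    rfl k0_mm_023

noncomputable def f_mm_033 : ℕ → ℕ → ℕ → ℕ → Bool := onCell 0 536870912 1610612736 469762048 1046898278 26843546
    (rowFX 0 false false false .pnn 0 3 3 (qsf 0 536870912 1610612736 469762048 3) ndF6q0 ndF1q3 pcF3 Cut.none Ext.none)

def k0_mm_033 : ∃ t, chk3 f_mm_033 t 1 1 1 = true :=
  ⟨(l 5), by decide +kernel⟩

theorem c_mm_033 : CertFX 0 536870912 1610612736 469762048 1046898278 26843546 false false false .pnn 0 3 3
    ndF6q0 ndF1q3 pcF3 Cut.none Ext.none :=
  certFX0 (fam := false) (s1 := false) (s2 := false) (a := 0) (b := 3) (c := 3) (cn := .pnn) (n1 := ndF6q0) (n2 := ndF1q3) (pc := pcF3) (cut := Cut.none) (xt := Ext.none) (P1 := 0) (W1 := 536870912) (P2 := 1610612736) (W2 := 469762048) (P3 := 1046898278) (W3 := 26843546)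
    rfl k0_mm_033

noncomputable def f_mm_101 : ℕ → ℕ → ℕ → ℕ → Bool := onCell 0 536870912 536870912 536870912 1046898278 26843546
    (rowFX 2 false false false .npn 1 0 1 (qsf 536870912 469762048 536870912 536870912 0) ndF6q1 ndF1q1 pcF0 Cut.none Ext.none)

def k0_mm_101 : ∃ t, chk3 f_mm_101 t 1 1 1 = true :=
  ⟨(l 5), by decide +kernel⟩

theorem c_mm_101 : CertFX 536870912 469762048 536870912 536870912 1046898278 26843546 false false false .npn 1 0 1
    ndF6q1 ndF1q1 pcF0 Cut.none Ext.none :=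
  certFX2 (fam := false) (s1 := false) (s2 := false) (a := 1) (b := 0) (c := 1) (cn := .npn) (n1 := ndF6q1) (n2 := ndF1q1) (pc := pcF0) (cut := Cut.none) (xt := Ext.none) (P1 := 536870912) (W1 := 469762048) (P2 := 536870912) (W2 := 536870912) (P3 := 1046898278) (W3 := 26843546)
    rfl (fun _ => rfl) k0_mm_101

noncomputable def f_mm_102_a : ℕ → ℕ → ℕ → ℕ → Bool := onCell 536870912 469762048 0 420477299 1046898278 26843546
    (rowFX 0 false false false .npp 1 0 2 (qsf 536870912 469762048 0 420477299 0) ndF6q1 ndF1q2a pcF0 Cut.none Ext.none)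

def k0_mm_102_a : ∃ t, chk3 f_mm_102_a t 1 1 1 = true :=
  ⟨(l 5), by decide +kernel⟩

theorem c_mm_102_a : CertFX 536870912 469762048 0 420477299 1046898278 26843546 false false false .npp 1 0 2
    ndF6q1 ndF1q2a pcF0 Cut.none Ext.none :=
  certFX0 (fam := false) (s1 := false) (s2 := false) (a := 1) (b := 0) (c := 2) (cn := .npp) (n1 := ndF6q1) (n2 := ndF1q2a) (pc := pcF0) (cut := Cut.none) (xt := Ext.none) (P1 := 536870912) (W1 := 469762048) (P2 := 0) (W2 := 420477299) (P3 := 1046898278) (W3 := 26843546)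
    rfl k0_mm_102_a

noncomputable def f_mm_102_b : ℕ → ℕ → ℕ → ℕ → Bool := onCell 536870912 469762048 1239849684 370763052 1046898278 26843546
    (rowFX 0 false false false .npp 1 0 2 (qsf 536870912 469762048 1239849684 370763052 0) ndF6q1 ndF1q2b pcF0 Cut.none Ext.none)

def k0_mm_102_b : ∃ t, chk3 f_mm_102_b t 1 1 1 = true :=
  ⟨(l 5), by decide +kernel⟩

theorem c_mm_102_b : CertFX 536870912 469762048 1239849684 370763052 1046898278 26843546 false false false .npp 1 0 2
    ndF6q1 ndF1q2b pcF0 Cut.none Ext.none :=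
  certFX0 (fam := false) (s1 := false) (s2 := false) (a := 1) (b := 0) (c := 2) (cn := .npp) (n1 := ndF6q1) (n2 := ndF1q2b) (pc := pcF0) (cut := Cut.none) (xt := Ext.none) (P1 := 536870912) (W1 := 469762048) (P2 := 1239849684) (W2 := 370763052) (P3 := 1046898278) (W3 := 26843546)
    rfl k0_mm_102_b

noncomputable def f_mm_112_a : ℕ → ℕ → ℕ → ℕ → Bool := onCell 536870912 469762048 0 420477299 1046898278 26843546
    (rowFX 0 false false false .dn 1 1 2 (qsf 536870912 469762048 0 420477299 1) ndF6q1 ndF1q2a pcF1 Cut.none Ext.none)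

def k0_mm_112_a : ∃ t, chk3 f_mm_112_a t 1 1 1 = true :=
  ⟨(l 5), by decide +kernel⟩

theorem c_mm_112_a : CertFX 536870912 469762048 0 420477299 1046898278 26843546 false false false .dn 1 1 2
    ndF6q1 ndF1q2a pcF1 Cut.none Ext.none :=
  certFX0 (fam := false) (s1 := false) (s2 := false) (a := 1) (b := 1) (c := 2) (cn := .dn) (n1 := ndF6q1) (n2 := ndF1q2a) (pc := pcF1) (cut := Cut.none) (xt := Ext.none) (P1 := 536870912) (W1 := 469762048) (P2 := 0) (W2 := 420477299) (P3 := 1046898278) (W3 := 26843546)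
    rfl k0_mm_112_a

noncomputable def f_mm_112_b : ℕ → ℕ → ℕ → ℕ → Bool := onCell 536870912 469762048 1239849684 370763052 1046898278 26843546
    (rowFX 0 false false false .dn 1 1 2 (qsf 536870912 469762048 1239849684 370763052 1) ndF6q1 ndF1q2b pcF1 Cut.none Ext.none)

def k0_mm_112_b : ∃ t, chk3 f_mm_112_b t 1 1 1 = true :=
  ⟨(l 5), by decide +kernel⟩

theorem c_mm_112_b : CertFX 536870912 469762048 1239849684 370763052 1046898278 26843546 false false false .dn 1 1 2
    ndF6q1 ndF1q2b pcF1 Cut.none Ext.none :=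
  certFX0 (fam := false) (s1 := false) (s2 := false) (a := 1) (b := 1) (c := 2) (cn := .dn) (n1 := ndF6q1) (n2 := ndF1q2b) (pc := pcF1) (cut := Cut.none) (xt := Ext.none) (P1 := 536870912) (W1 := 469762048) (P2 := 1239849684) (W2 := 370763052) (P3 := 1046898278) (W3 := 26843546)
    rfl k0_mm_112_b

noncomputable def f_mm_113 : ℕ → ℕ → ℕ → ℕ → Bool := onCell 536870912 469762048 1610612736 469762048 1046898278 26843546
    (rowFX 0 false false false .nn 1 1 3 (qsf 536870912 469762048 1610612736 469762048 1) ndF6q1 ndF1q3 pcF1 Cut.none Ext.none)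

def k0_mm_113 : ∃ t, chk3 f_mm_113 t 1 1 1 = true :=
  ⟨(l 5), by decide +kernel⟩

theorem c_mm_113 : CertFX 536870912 469762048 1610612736 469762048 1046898278 26843546 false false false .nn 1 1 3
    ndF6q1 ndF1q3 pcF1 Cut.none Ext.none :=
  certFX0 (fam := false) (s1 := false) (s2 := false) (a := 1) (b := 1) (c := 3) (cn := .nn) (n1 := ndF6q1) (n2 := ndF1q3) (pc := pcF1) (cut := Cut.none) (xt := Ext.none) (P1 := 536870912) (W1 := 469762048) (P2 := 1610612736) (W2 := 469762048) (P3 := 1046898278) (W3 := 26843546)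
    rfl k0_mm_113

noncomputable def f_mm_123 : ℕ → ℕ → ℕ → ℕ → Bool := onCell 536870912 469762048 1610612736 469762048 1046898278 26843546
    (rowFX 0 false false false .npn 1 2 3 (qsf 536870912 469762048 1610612736 469762048 2) ndF6q1 ndF1q3 pcF2 Cut.none Ext.none)

def k0_mm_123 : ∃ t, chk3 f_mm_123 t 1 1 1 = true :=
  ⟨(l 5), by decide +kernel⟩

theorem c_mm_123 : CertFX 536870912 469762048 1610612736 469762048 1046898278 26843546 false false false .npn 1 2 3
    ndF6q1 ndF1q3 pcF2 Cut.none Ext.none :=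
  certFX0 (fam := false) (s1 := false) (s2 := false) (a := 1) (b := 2) (c := 3) (cn := .npn) (n1 := ndF6q1) (n2 := ndF1q3) (pc := pcF2) (cut := Cut.none) (xt := Ext.none) (P1 := 536870912) (W1 := 469762048) (P2 := 1610612736) (W2 := 469762048) (P3 := 1046898278) (W3 := 26843546)
    rfl k0_mm_123

noncomputable def f_mm_133 : ℕ → ℕ → ℕ → ℕ → Bool := onCell 536870912 469762048 1610612736 469762048 1046898278 26843546
    (rowFX 0 false false false .dn 1 3 3 (qsf 536870912 469762048 1610612736 469762048 3) ndF6q1 ndF1q3 pcF3 Cut.none Ext.none)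

def k0_mm_133 : ∃ t, chk3 f_mm_133 t 1 1 1 = true :=
  ⟨(l 1), by decide +kernel⟩

theorem c_mm_133 : CertFX 536870912 469762048 1610612736 469762048 1046898278 26843546 false false false .dn 1 3 3
    ndF6q1 ndF1q3 pcF3 Cut.none Ext.none :=
  certFX0 (fam := false) (s1 := false) (s2 := false) (a := 1) (b := 3) (c := 3) (cn := .dn) (n1 := ndF6q1) (n2 := ndF1q3) (pc := pcF3) (cut := Cut.none) (xt := Ext.none) (P1 := 536870912) (W1 := 469762048) (P2 := 1610612736) (W2 := 469762048) (P3 := 1046898278) (W3 := 26843546)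
    rfl k0_mm_133

noncomputable def f_mm_202_a : ℕ → ℕ → ℕ → ℕ → Bool := onCell 1073741824 536870912 0 420477299 1046898278 26843546
    (rowFX 0 false false false .pp 2 0 2 (qsf 1073741824 536870912 0 420477299 0) ndF6q2 ndF1q2a pcF0 Cut.none Ext.none)

def k0_mm_202_a : ∃ t, chk3 f_mm_202_a t 1 1 1 = true :=
  ⟨(l 5), by decide +kernel⟩

theorem c_mm_202_a : CertFX 1073741824 536870912 0 420477299 1046898278 26843546 false false false .pp 2 0 2
    ndF6q2 ndF1q2a pcF0 Cut.none Ext.none :=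
  certFX0 (fam := false) (s1 := false) (s2 := false) (a := 2) (b := 0) (c := 2) (cn := .pp) (n1 := ndF6q2) (n2 := ndF1q2a) (pc := pcF0) (cut := Cut.none) (xt := Ext.none) (P1 := 1073741824) (W1 := 536870912) (P2 := 0) (W2 := 420477299) (P3 := 1046898278) (W3 := 26843546)
    rfl k0_mm_202_a

noncomputable def f_mm_202_b : ℕ → ℕ → ℕ → ℕ → Bool := onCell 1073741824 536870912 1239849684 370763052 1046898278 26843546
    (rowFX 0 false false false .pp 2 0 2 (qsf 1073741824 536870912 1239849684 370763052 0) ndF6q2 ndF1q2b pcF0 Cut.none Ext.none)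

def k0_mm_202_b : ∃ t, chk3 f_mm_202_b t 1 1 1 = true :=
  ⟨(l 5), by decide +kernel⟩

theorem c_mm_202_b : CertFX 1073741824 536870912 1239849684 370763052 1046898278 26843546 false false false .pp 2 0 2
    ndF6q2 ndF1q2b pcF0 Cut.none Ext.none :=
  certFX0 (fam := false) (s1 := false) (s2 := false) (a := 2) (b := 0) (c := 2) (cn := .pp) (n1 := ndF6q2) (n2 := ndF1q2b) (pc := pcF0) (cut := Cut.none) (xt := Ext.none) (P1 := 1073741824) (W1 := 536870912) (P2 := 1239849684) (W2 := 370763052) (P3 := 1046898278) (W3 := 26843546)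
    rfl k0_mm_202_b

noncomputable def f_mm_203 : ℕ → ℕ → ℕ → ℕ → Bool := onCell 1073741824 536870912 1610612736 469762048 1046898278 26843546
    (rowFX 0 false false false .up 2 0 3 (qsf 1073741824 536870912 1610612736 469762048 0) ndF6q2 ndF1q3 pcF0 Cut.none Ext.none)

def k0_mm_203 : ∃ t, chk3 f_mm_203 t 1 1 1 = true :=
  ⟨(l 5), by decide +kernel⟩

theorem c_mm_203 : CertFX 1073741824 536870912 1610612736 469762048 1046898278 26843546 false false false .up 2 0 3
    ndF6q2 ndF1q3 pcF0 Cut.none Ext.none :=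
  certFX0 (fam := false) (s1 := false) (s2 := false) (a := 2) (b := 0) (c := 3) (cn := .up) (n1 := ndF6q2) (n2 := ndF1q3) (pc := pcF0) (cut := Cut.none) (xt := Ext.none) (P1 := 1073741824) (W1 := 536870912) (P2 := 1610612736) (W2 := 469762048) (P3 := 1046898278) (W3 := 26843546)
    rfl k0_mm_203

noncomputable def f_mm_213 : ℕ → ℕ → ℕ → ℕ → Bool := onCell 1073741824 536870912 1610612736 469762048 1046898278 26843546
    (rowFX 0 false false false .pnn 2 1 3 (qsf 1073741824 536870912 1610612736 469762048 1) ndF6q2 ndF1q3 pcF1 Cut.none Ext.none)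

def k0_mm_213 : ∃ t, chk3 f_mm_213 t 1 1 1 = true :=
  ⟨(l 5), by decide +kernel⟩

theorem c_mm_213 : CertFX 1073741824 536870912 1610612736 469762048 1046898278 26843546 false false false .pnn 2 1 3
    ndF6q2 ndF1q3 pcF1 Cut.none Ext.none :=
  certFX0 (fam := false) (s1 := false) (s2 := false) (a := 2) (b := 1) (c := 3) (cn := .pnn) (n1 := ndF6q2) (n2 := ndF1q3) (pc := pcF1) (cut := Cut.none) (xt := Ext.none) (P1 := 1073741824) (W1 := 536870912) (P2 := 1610612736) (W2 := 469762048) (P3 := 1046898278) (W3 := 26843546)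
    rfl k0_mm_213

noncomputable def f_mm_303 : ℕ → ℕ → ℕ → ℕ → Bool := onCell 0 1230186008 1610612736 469762048 1046898278 26843546
    (rowFX 0 false false false .npn 3 0 3 (qsf 0 1230186008 1610612736 469762048 0) ndF6q3 ndF1q3 pcF0 Cut.none Ext.none)

def k0_mm_303 : ∃ t, chk3 f_mm_303 t 1 1 1 = true :=
  ⟨(a (l 3) (l 3)), by decide +kernel⟩

theorem c_mm_303 : CertFX 0 1230186008 1610612736 469762048 1046898278 26843546 false false false .npn 3 0 3
    ndF6q3 ndF1q3 pcF0 Cut.none Ext.none :=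
  certFX0 (fam := false) (s1 := false) (s2 := false) (a := 3) (b := 0) (c := 3) (cn := .npn) (n1 := ndF6q3) (n2 := ndF1q3) (pc := pcF0) (cut := Cut.none) (xt := Ext.none) (P1 := 0) (W1 := 1230186008) (P2 := 1610612736) (W2 := 469762048) (P3 := 1046898278) (W3 := 26843546)
    rfl k0_mm_303

noncomputable def f_mm_313 : ℕ → ℕ → ℕ → ℕ → Bool := onCell 0 1230186008 1610612736 469762048 1046898278 26843546
    (rowFX 0 false false false .dn 3 1 3 (qsf 0 1230186008 1610612736 469762048 1) ndF6q3 ndF1q3 pcF1 Cut.none Ext.none)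

def k0_mm_313 : ∃ t, chk3 f_mm_313 t 1 1 1 = true :=
  ⟨(l 1), by decide +kernel⟩

theorem c_mm_313 : CertFX 0 1230186008 1610612736 469762048 1046898278 26843546 false false false .dn 3 1 3
    ndF6q3 ndF1q3 pcF1 Cut.none Ext.none :=
  certFX0 (fam := false) (s1 := false) (s2 := false) (a := 3) (b := 1) (c := 3) (cn := .dn) (n1 := ndF6q3) (n2 := ndF1q3) (pc := pcF1) (cut := Cut.none) (xt := Ext.none) (P1 := 0) (W1 := 1230186008) (P2 := 1610612736) (W2 := 469762048) (P3 := 1046898278) (W3 := 26843546)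
    rfl k0_mm_313

end Pool.Agent.Strip051.G.IE1.Tab.C.FB61

namespace Pool.Agent.Strip051.G.IE1.Tab.C.FB62

open Pool.Agent.Strip051.PB Pool.Agent.Strip051.PB.T
open Pool.Agent.Strip051.G.IE1.Tab

noncomputable def f_pp_001 : ℕ → ℕ → ℕ → ℕ → Bool := onCell 0 536870912 536870912 536870912 1046898278 26843546
    (rowFX 0 false true true .up 0 0 1 (qsf 0 536870912 536870912 536870912 0) ndF6q0 ndF2q1 pcF0 Cut.none Ext.none)

def k0_pp_001 : ∃ t, chk3 f_pp_001 t 1 1 1 = true :=
  ⟨(l 3), by decide +kernel⟩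

theorem c_pp_001 : CertFX 0 536870912 536870912 536870912 1046898278 26843546 false true true .up 0 0 1
    ndF6q0 ndF2q1 pcF0 Cut.none Ext.none :=
  certFX0 (fam := false) (s1 := true) (s2 := true) (a := 0) (b := 0) (c := 1) (cn := .up) (n1 := ndF6q0) (n2 := ndF2q1) (pc := pcF0) (cut := Cut.none) (xt := Ext.none) (P1 := 0) (W1 := 536870912) (P2 := 536870912) (W2 := 536870912) (P3 := 1046898278) (W3 := 26843546)
    rfl k0_pp_001

noncomputable def f_pp_011 : ℕ → ℕ → ℕ → ℕ → Bool := onCell 0 536870912 536870912 536870912 1046898278 26843546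
    (rowFX 0 false true true .pnn 0 1 1 (qsf 0 536870912 536870912 536870912 1) ndF6q0 ndF2q1 pcF1 Cut.none Ext.none)

def k0_pp_011 : ∃ t, chk3 f_pp_011 t 1 1 1 = true :=
  ⟨(l 3), by decide +kernel⟩

theorem c_pp_011 : CertFX 0 536870912 536870912 536870912 1046898278 26843546 false true true .pnn 0 1 1
    ndF6q0 ndF2q1 pcF1 Cut.none Ext.none :=
  certFX0 (fam := false) (s1 := true) (s2 := true) (a := 0) (b := 1) (c := 1) (cn := .pnn) (n1 := ndF6q0) (n2 := ndF2q1) (pc := pcF1) (cut := Cut.none) (xt := Ext.none) (P1 := 0) (W1 := 536870912) (P2 := 536870912) (W2 := 536870912) (P3 := 1046898278) (W3 := 26843546)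
    rfl k0_pp_011

noncomputable def f_pp_012_a : ℕ → ℕ → ℕ → ℕ → Bool := onCell 536870912 536870912 0 420477299 1046898278 26843546
    (rowFX 2 false true true .pnp 0 1 2 (qsf 0 536870912 0 420477299 1) ndF6q0 ndF2q2a pcF1 Cut.none Ext.none)

def k0_pp_012_a : ∃ t, chk3 f_pp_012_a t 1 1 1 = true :=
  ⟨(a (b (b (l 16702392) (a (l 2) (l 16752704))) (b (a (l 16609208) (l 16609208)) (a (b (l 16394016) (l 16285176)) (b (l 16394016) (l 16285176))))) (a (b (a (l 16733592) (a (l 16724496) (l 16658824))) (b (a (l 16606256) (a (l 16592144) (l 16593376))) (a (b (l 16390912) (l 16281968)) (b (a (l 16376224) (l 16377240)) (a (l 16266880) (l 16263256)))))) (b (a (b (l 16464000) (l 16456096)) (b (a (l 16220928) (a (l 16092032) (l 16026000))) (a (l 16423224) (b (l 16265016) (l 16371920))))) (b (a (a (l 16589984) (l 16501016)) (a (b (l 16520504) (l 16455760)) (b (a (l 16480576) (l 16445864)) (l 16423736)))) (a (b (l 16387176) (l 16375304)) (b (a (l 16351848) (l 16313168)) (a (l 16291680) (a (l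 16261056) (c (l 16263440) (l 16250104)))))))))), by decide +kernel⟩

theorem c_pp_012_a : CertFX 0 536870912 0 420477299 1046898278 26843546 false true true .pnp 0 1 2
    ndF6q0 ndF2q2a pcF1 Cut.none Ext.none :=
  certFX2 (fam := false) (s1 := true) (s2 := true) (a := 0) (b := 1) (c := 2) (cn := .pnp) (n1 := ndF6q0) (n2 := ndF2q2a) (pc := pcF1) (cut := Cut.none) (xt := Ext.none) (P1 := 0) (W1 := 536870912) (P2 := 0) (W2 := 420477299) (P3 := 1046898278) (W3 := 26843546)
    rfl (fun _ => rfl) k0_pp_012_a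

noncomputable def f_pp_012_b : ℕ → ℕ → ℕ → ℕ → Bool := onCell 536870912 536870912 1239849684 370763052 1046898278 26843546
    (rowFX 2 false true true .pnp 0 1 2 (qsf 0 536870912 1239849684 370763052 1) ndF6q0 ndF2q2b pcF1 Cut.none Ext.none)

def k0_pp_012_b : ∃ t, chk3 f_pp_012_b t 1 1 1 = true :=
  ⟨(a (b (l 16765984) (l 2)) (a (b (a (l 16765024) (b (l 16760336) (l 16756872))) (l 16766664)) (b (a (b (a (l 16491400) (l 16229280)) (l 16281928)) (b (a (b (l 16022128) (l 15897400)) (b (l 15754696) (l 15597048))) (a (l 15795400) (l 15452336)))) (a (l 16191472) (a (l 15619360) (l 15215232)))))), by decide +kernel⟩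

theorem c_pp_012_b : CertFX 0 536870912 1239849684 370763052 1046898278 26843546 false true true .pnp 0 1 2
    ndF6q0 ndF2q2b pcF1 Cut.none Ext.none :=
  certFX2 (fam := false) (s1 := true) (s2 := true) (a := 0) (b := 1) (c := 2) (cn := .pnp) (n1 := ndF6q0) (n2 := ndF2q2b) (pc := pcF1) (cut := Cut.none) (xt := Ext.none) (P1 := 0) (W1 := 536870912) (P2 := 1239849684) (W2 := 370763052) (P3 := 1046898278) (W3 := 26843546)
    rfl (fun _ => rfl) k0_pp_012_b

noncomputable def f_pp_022_a : ℕ → ℕ → ℕ → ℕ → Bool := onCell 0 536870912 0 420477299 1046898278 26843546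
    (rowFX 0 false true true .pp 0 2 2 (qsf 0 536870912 0 420477299 2) ndF6q0 ndF2q2a pcF2 Cut.none Ext.none)

def k0_pp_022_a : ∃ t, chk3 f_pp_022_a t 4 2 1 = true :=
  ⟨(a (a (b (a (a (c (l 15990368) (c (l 15888872) (a (l 16003824) (l 15919152)))) (c (b (a (l 15881800) (l 15812384)) (a (l 15848352) (l 15816224))) (b (l 15829456) (c (l 15827528) (l 15807016))))) (c (b (l 15812288) (l 15843624)) (b (l 15768904) (l 15800904)))) (a (c (a (b (l 15812696) (l 15804808)) (b (a (l 15813592) (l 15826480)) (c (l 15833800) (l 15829392)))) (a (b (a (c (l 15876024) (l 15842112)) (c (l 15818312) (l 15807504))) (a (c (l 15775176) (a (l 15756272) (l 15756664))) (c (l 15785320) (l 15774056)))) (b (c (l 15809448) (l 15788528)) (l 15810960)))) (c (b (l 15829424) (a (l 15883728) (l 15921136))) (l 15841248)))) (b (c (a (l 15837040) (l 15846824)) (l 15810192)) (b (c (l 15842464) (l 15897808)) (a (l 15878872) (c (l 15993440) (l 15972072)))))) (b (a (a (c (l 15849896) (l 15831840)) (l 15763072)) (c (l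 15609456) (l 15594920))) (a (b (a (l 15907088) (l 15834208)) (c (l 15893872) (l 15875480))) (b (l 15687880) (l 15694864))))), by decide +kernel⟩

def k1_pp_022_a : ∃ t, chk3 f_pp_022_a t 4 3 1 = true :=
  ⟨(a (b (a (a (c (a (b (l 15813384) (l 15804384)) (b (c (l 15837696) (a (l 15837984) (l 15876632))) (c (l 15855864) (l 15852120)))) (a (c (b (a (l 15779592) (l 15802048)) (l 15761280)) (b (a (c (l 15768536) (l 15761192)) (l 15790968)) (a (l 15711728) (l 15782720)))) (b (c (l 15844648) (l 15823560)) (c (l 15841936) (l 15820360))))) (c (b (a (c (l 15932272) (l 15916640)) (l 15971568)) (a (l 15926304) (l 15971112))) (b (l 15900864) (l 15899096)))) (b (a (c (b (l 16007840) (l 16027936)) (l 15979808)) (c (b (l 16013088) (l 15993456)) (l 15979464))) (a (c (l 15873520) (l 15919224)) (c (l 15888520) (l 15862048))))) (a (a (c (b (a (l 15820512) (a (b (l 15835080) (l 15862744)) (c (l 15869464) (l 15874560)))) (a (l 15832744) (c (l 15821800) (l 15818152)))) (b (a (c (a (l 15785048) (l 15789896))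 (a (c (l 15773752) (l 15766264)) (l 15799800))) (c (b (l 15840776) (l 15854224)) (l 15820608))) (a (c (a (l 15812488) (l 15809312)) (a (c (l 15801272) (a (l 15794896) (l 15796008))) (l 15798160))) (c (l 15807424) (l 15784208))))) (b (c (a (b (l 15906328) (l 15880168)) (l 15883744)) (b (l 15854120) (l 15821400))) (c (a (c (l 15837720) (l 15819752)) (l 15811776)) (l 15766064)))) (b (c (a (l 15829328) (l 15757080)) (a (l 15786744) (l 15726696))) (c (a (l 15764240) (l 15701736)) (a (l 15718776) (l 15669400)))))) (b (a (b (c (l 15848752) (l 15848736)) (c (l 15768624) (l 15743296))) (b (l 15676752) (l 15595152))) (b (a (c (l 15505856) (b (l 15638984) (l 15610296))) (b (l 15511056) (l 15493968))) (a (a (c (l 15641912) (l 15612600)) (l 295846800855)) (l 1))))), by decide +kernel⟩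

def k2_pp_022_a : ∃ t, chk3 f_pp_022_a t 5 1 1 = true :=
  ⟨(a (b (b (c (l 15330496) (l 15049312)) (b (l 15212112) (l 15295632))) (b (b (l 542806855559) (l 1)) (l 1))) (l 1)), by decide +kernel⟩

def k3_pp_022_a : ∃ t, chk3 f_pp_022_a t 3 1 1 = true :=
  ⟨(l 1), by decide +kernel⟩

theorem s4_pp_022_a : ∃ t, chk3 f_pp_022_a t 4 1 1 = true := ex3_b k0_pp_022_a k1_pp_022_a

theorem s5_pp_022_a : ∃ t, chk3 f_pp_022_a t 2 1 1 = true := ex3_a s4_pp_022_a k2_pp_022_a

theorem s6_pp_022_a : ∃ t, chk3 f_pp_022_a t 1 1 1 = true := ex3_a s5_pp_022_a k3_pp_022_a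

theorem c_pp_022_a : CertFX 0 536870912 0 420477299 1046898278 26843546 false true true .pp 0 2 2
    ndF6q0 ndF2q2a pcF2 Cut.none Ext.none :=
  certFX0 (fam := false) (s1 := true) (s2 := true) (a := 0) (b := 2) (c := 2) (cn := .pp) (n1 := ndF6q0) (n2 := ndF2q2a) (pc := pcF2) (cut := Cut.none) (xt := Ext.none) (P1 := 0) (W1 := 536870912) (P2 := 0) (W2 := 420477299) (P3 := 1046898278) (W3 := 26843546)
    rfl s6_pp_022_a

noncomputable def f_pp_022_b : ℕ → ℕ → ℕ → ℕ → Bool := onCell 0 536870912 1073741824 536870912 1046898278 26843546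
    (rowFX 1 false true true .pp 0 2 2 (qsf 0 536870912 1239849684 370763052 2) ndF6q0 ndF2q2b pcF2 Cut.none Ext.none)

def k0_pp_022_b : ∃ t, chk3 f_pp_022_b t 1 2 1 = true :=
  ⟨(a (b (a (a (b (l 1) (b (a (l 1) (b (l 1) (c (l 281888493431) (l 15784664)))) (a (a (l 1) (c (a (l 1) (l 15815368)) (l 15759512))) (c (a (l 15785032) (l 15723416)) (l 502542175655))))) (b (a (b (l 1) (c (l 319468812839) (l 448317797239))) (b (c (l 15334056) (l 324837014647)) (c (l 15499208) (l 15482352)))) (b (a (c (b (l 15712888) (l 15720472)) (l 508447668215)) (l 15479736)) (a (l 15577872) (l 15426376))))) (b (a (b (a (c (l 15297120) (l 15209024)) (l 15151336)) (c (l 15290248) (l 15270512))) (b (l 14947040) (l 15044304))) (b (a (l 15294088) (l 15130720)) (l 15203552)))) (a (b (a (a (b (a (a (b (l 1) (c (l 15964400) (c (l 15925272) (l 609916720823)))) (b (c (a (l 1) (l 15795632)) (l 15769744)) (c (l 583073186327) (l 15921080)))) (b (c (l 443486556583) (l 15741648)) (c (l 15899928) (l 15860048)))) (a (c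 (a (l 16333960) (b (l 16120312) (l 16401352))) (a (c (l 16198160) (a (l 16242864) (l 16309048))) (l 16181408))) (c (b (l 16141304) (l 16357320)) (l 16223176)))) (b (b (c (l 15667944) (l 15630320)) (l 15700168)) (c (l 16072504) (l 16111800)))) (b (b (a (l 15494424) (l 15382096)) (l 15323624)) (a (l 15992984) (l 15892544)))) (a (a (b (a (c (a (l 16481296) (l 16522616)) (c (l 16291416) (l 16483360))) (c (l 16556496) (l 16582288))) (a (c (l 16054408) (a (l 16114992) (l 16275344))) (l 16305880))) (b (l 16430632) (l 16463232))) (b (l 16351536) (l 16569456)))) (b (b (b (l 15221368) (l 15375568)) (l 15728504)) (b (l 16109248) (l 16336512))))) (b (b (a (c (l 14849992) (l 14827264)) (l 14686216)) (b (a (l 15008768) (l 14879736)) (l 15013432))) (b (b (b (l 15127704) (l 15295864)) (l 15599952)) (b (l 15913168) (l 16149344))))), by decide +kernel⟩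

def k1_pp_022_b : ∃ t, chk3 f_pp_022_b t 1 3 1 = true :=
  ⟨(a (a (b (a (a (a (b (c (l 15977064) (a (l 16014392) (l 16150832))) (c (l 15997600) (l 15879736))) (b (c (l 16201400) (l 16215624)) (l 15880720))) (b (l 16331688) (l 16178552))) (b (l 16487784) (l 16402496))) (a (b (a (c (a (l 15991496) (l 16046008)) (l 15888456)) (l 16172408)) (a (c (l 15918528) (l 15993312)) (l 4))) (b (l 16354824) (l 4)))) (b (b (l 16549072) (l 16488936)) (b (l 16673864) (l 2)))) (b (b (b (l 16361992) (l 2)) (l 2)) (l 2))), by decide +kernel⟩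

theorem s2_pp_022_b : ∃ t, chk3 f_pp_022_b t 1 1 1 = true := ex3_b k0_pp_022_b k1_pp_022_b

theorem c_pp_022_b : CertFX 0 536870912 1239849684 370763052 1046898278 26843546 false true true .pp 0 2 2
    ndF6q0 ndF2q2b pcF2 Cut.none Ext.none :=
  certFX1 (fam := false) (s1 := true) (s2 := true) (a := 0) (b := 2) (c := 2) (cn := .pp) (n1 := ndF6q0) (n2 := ndF2q2b) (pc := pcF2) (cut := Cut.none) (xt := Ext.none) (P1 := 0) (W1 := 536870912) (P2 := 1239849684) (W2 := 370763052) (P3 := 1046898278) (W3 := 26843546)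
    rfl (fun _ => rfl) s2_pp_022_b

noncomputable def f_pp_023 : ℕ → ℕ → ℕ → ℕ → Bool := onCell 1073741824 536870912 1610612736 469762048 1046898278 26843546
    (rowFX 2 false true true .up 0 2 3 (qsf 0 536870912 1610612736 469762048 2) ndF6q0 ndF2q3 pcF2 Cut.none Ext.none)

def k0_pp_023 : ∃ t, chk3 f_pp_023 t 1 1 1 = true :=
  ⟨(a (a (b (a (b (l 14590520) (l 2)) (a (l 14789112) (l 14944216))) (l 2)) (a (b (a (l 15203104) (l 15579336)) (l 2)) (b (a (l 15891912) (l 16143968)) (a (l 15842760) (l 4))))) (b (a (a (b (l 16485624) (l 16465168)) (b (l 16698384) (l 4))) (b (a (a (a (l 16642632) (l 4)) (l 4)) (l 4)) (l 4))) (l 4))), by decide +kernel⟩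

theorem c_pp_023 : CertFX 0 536870912 1610612736 469762048 1046898278 26843546 false true true .up 0 2 3
    ndF6q0 ndF2q3 pcF2 Cut.none Ext.none :=
  certFX2 (fam := false) (s1 := true) (s2 := true) (a := 0) (b := 2) (c := 3) (cn := .up) (n1 := ndF6q0) (n2 := ndF2q3) (pc := pcF2) (cut := Cut.none) (xt := Ext.none) (P1 := 0) (W1 := 536870912) (P2 := 1610612736) (W2 := 469762048) (P3 := 1046898278) (W3 := 26843546)
    rfl (fun _ => rfl) k0_pp_023

noncomputable def f_pp_033 : ℕ → ℕ → ℕ → ℕ → Bool := onCell 0 536870912 1610612736 536870912 1046898278 26843546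
    (rowFX 1 false true true .pnn 0 3 3 (qsf 0 536870912 1610612736 469762048 3) ndF6q0 ndF2q3 pcF3 Cut.none Ext.none)

def k0_pp_033 : ∃ t, chk3 f_pp_033 t 1 1 1 = true :=
  ⟨(a (b (a (l 4) (l 4)) (a (l 4) (b (l 4) (l 2)))) (b (a (l 4) (b (l 4) (l 2))) (l 2))), by decide +kernel⟩

theorem c_pp_033 : CertFX 0 536870912 1610612736 469762048 1046898278 26843546 false true true .pnn 0 3 3
    ndF6q0 ndF2q3 pcF3 Cut.none Ext.none :=
  certFX1 (fam := false) (s1 := true) (s2 := true) (a := 0) (b := 3) (c := 3) (cn := .pnn) (n1 := ndF6q0) (n2 := ndF2q3) (pc := pcF3) (cut := Cut.none) (xt := Ext.none) (P1 := 0) (W1 := 536870912) (P2 := 1610612736) (W2 := 469762048) (P3 := 1046898278) (W3 := 26843546)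
    rfl (fun _ => rfl) k0_pp_033

noncomputable def f_pp_101 : ℕ → ℕ → ℕ → ℕ → Bool := onCell 536870912 469762048 536870912 536870912 1046898278 26843546
    (rowFX 0 false true true .npn 1 0 1 (qsf 536870912 469762048 536870912 536870912 0) ndF6q1 ndF2q1 pcF0 Cut.none Ext.none)

def k0_pp_101 : ∃ t, chk3 f_pp_101 t 1 1 1 = true :=
  ⟨(l 3), by decide +kernel⟩

theorem c_pp_101 : CertFX 536870912 469762048 536870912 536870912 1046898278 26843546 false true true .npn 1 0 1
    ndF6q1 ndF2q1 pcF0 Cut.none Ext.none :=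
  certFX0 (fam := false) (s1 := true) (s2 := true) (a := 1) (b := 0) (c := 1) (cn := .npn) (n1 := ndF6q1) (n2 := ndF2q1) (pc := pcF0) (cut := Cut.none) (xt := Ext.none) (P1 := 536870912) (W1 := 469762048) (P2 := 536870912) (W2 := 536870912) (P3 := 1046898278) (W3 := 26843546)
    rfl k0_pp_101

noncomputable def f_pp_102_a : ℕ → ℕ → ℕ → ℕ → Bool := onCell 536870912 469762048 0 420477299 1046898278 26843546
    (rowFX 0 false true true .npp 1 0 2 (qsf 536870912 469762048 0 420477299 0) ndF6q1 ndF2q2a pcF0 Cut.none Ext.none)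

def k0_pp_102_a : ∃ t, chk3 f_pp_102_a t 1 1 1 = true :=
  ⟨(a (b (b (l 16702392) (a (l 2) (l 16752704))) (b (a (l 16609208) (l 16609208)) (b (l 16394016) (a (l 16285176) (l 16285176))))) (b (a (a (l 16735352) (b (l 16390752) (l 16207384))) (a (b (l 15523208) (l 15556024)) (b (a (l 15125936) (a (l 14834944) (l 14554160))) (a (l 15163648) (c (b (l 14773288) (l 14859624)) (b (l 14742560) (l 14831528))))))) (a (b (a (l 16609208) (a (l 16696856) (l 16300128))) (a (b (l 16394016) (l 16285176)) (b (l 16389936) (l 16376600)))) (b (a (l 15516624) (a (b (a (l 15327384) (l 15204784)) (a (l 15449008) (l 15383192))) (b (c (l 15007280) (l 14983592)) (c (l 15228384) (l 15211176))))) (a (b (a (l 15971056) (b (l 15676432) (l 15740848))) (a (b (l 16025112) (l 15956928)) (b (l 15831320) (l 15957328)))) (a (b (a (l 15658752) (l 15637616)) (c (l 15897136) (l 15899424))) (b (c (l 15431816) (l 15485128)) (c (a (l 15818968) (b (l 15639640) (l 15779264))) (l 15547384))))))))), by decide +kernel⟩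

theorem c_pp_102_a : CertFX 536870912 469762048 0 420477299 1046898278 26843546 false true true .npp 1 0 2
    ndF6q1 ndF2q2a pcF0 Cut.none Ext.none :=
  certFX0 (fam := false) (s1 := true) (s2 := true) (a := 1) (b := 0) (c := 2) (cn := .npp) (n1 := ndF6q1) (n2 := ndF2q2a) (pc := pcF0) (cut := Cut.none) (xt := Ext.none) (P1 := 536870912) (W1 := 469762048) (P2 := 0) (W2 := 420477299) (P3 := 1046898278) (W3 := 26843546)
    rfl k0_pp_102_a

noncomputable def f_pp_102_b : ℕ → ℕ → ℕ → ℕ → Bool := onCell 536870912 469762048 1239849684 370763052 1046898278 26843546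
    (rowFX 0 false true true .npp 1 0 2 (qsf 536870912 469762048 1239849684 370763052 0) ndF6q1 ndF2q2b pcF0 Cut.none Ext.none)

def k0_pp_102_b : ∃ t, chk3 f_pp_102_b t 1 1 1 = true :=
  ⟨(a (b (b (l 16753056) (l 2)) (l 2)) (a (a (b (l 16765984) (l 2)) (b (a (l 16477184) (l 16093192)) (l 16430144))) (a (b (b (a (l 15708880) (l 15401040)) (l 15572176)) (l 15572176)) (b (b (a (c (l 15184352) (l 15144160)) (c (l 14775912) (l 14745264))) (a (l 15182144) (l 14737136))) (a (l 15182144) (l 14611304)))))), by decide +kernel⟩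

theorem c_pp_102_b : CertFX 536870912 469762048 1239849684 370763052 1046898278 26843546 false true true .npp 1 0 2
    ndF6q1 ndF2q2b pcF0 Cut.none Ext.none :=
  certFX0 (fam := false) (s1 := true) (s2 := true) (a := 1) (b := 0) (c := 2) (cn := .npp) (n1 := ndF6q1) (n2 := ndF2q2b) (pc := pcF0) (cut := Cut.none) (xt := Ext.none) (P1 := 536870912) (W1 := 469762048) (P2 := 1239849684) (W2 := 370763052) (P3 := 1046898278) (W3 := 26843546)
    rfl k0_pp_102_b

noncomputable def f_pp_112_a : ℕ → ℕ → ℕ → ℕ → Bool := onCell 536870912 469762048 0 420477299 1046898278 26843546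
    (rowFX 0 false true true .dn 1 1 2 (qsf 536870912 469762048 0 420477299 1) ndF6q1 ndF2q2a pcF1 Cut.none Ext.none)

def k0_pp_112_a : ∃ t, chk3 f_pp_112_a t 1 1 1 = true :=
  ⟨(a (b (b (l 16702392) (a (l 16752704) (l 16752704))) (b (a (l 16609208) (l 16609208)) (a (b (l 16394016) (l 16285176)) (l 1)))) (l 1)), by decide +kernel⟩

theorem c_pp_112_a : CertFX 536870912 469762048 0 420477299 1046898278 26843546 false true true .dn 1 1 2
    ndF6q1 ndF2q2a pcF1 Cut.none Ext.none :=
  certFX0 (fam := false) (s1 := true) (s2 := true) (a := 1) (b := 1) (c := 2) (cn := .dn) (n1 := ndF6q1) (n2 := ndF2q2a) (pc := pcF1) (cut := Cut.none) (xt := Ext.none) (P1 := 536870912) (W1 := 469762048) (P2 := 0) (W2 := 420477299) (P3 := 1046898278) (W3 := 26843546)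
    rfl k0_pp_112_a

noncomputable def f_pp_112_b : ℕ → ℕ → ℕ → ℕ → Bool := onCell 536870912 469762048 1239849684 370763052 1046898278 26843546
    (rowFX 0 false true true .dn 1 1 2 (qsf 536870912 469762048 1239849684 370763052 1) ndF6q1 ndF2q2b pcF1 Cut.none Ext.none)

def k0_pp_112_b : ∃ t, chk3 f_pp_112_b t 1 1 1 = true :=
  ⟨(b (a (b (l 16753056) (l 16776272)) (a (a (l 16765984) (a (l 16435240) (l 369399080247))) (l 1))) (a (a (b (a (l 16658352) (l 16772504)) (a (b (l 16151368) (l 15343976)) (b (l 16651872) (l 16273064)))) (b (l 16776816) (l 16747560))) (a (a (l 16777216) (l 16430144)) (a (l 15572176) (a (l 15182144) (l 454221846407)))))), by decide +kernel⟩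

theorem c_pp_112_b : CertFX 536870912 469762048 1239849684 370763052 1046898278 26843546 false true true .dn 1 1 2
    ndF6q1 ndF2q2b pcF1 Cut.none Ext.none :=
  certFX0 (fam := false) (s1 := true) (s2 := true) (a := 1) (b := 1) (c := 2) (cn := .dn) (n1 := ndF6q1) (n2 := ndF2q2b) (pc := pcF1) (cut := Cut.none) (xt := Ext.none) (P1 := 536870912) (W1 := 469762048) (P2 := 1239849684) (W2 := 370763052) (P3 := 1046898278) (W3 := 26843546)
    rfl k0_pp_112_b

noncomputable def f_pp_113 : ℕ → ℕ → ℕ → ℕ → Bool := onCell 536870912 469762048 536870912 536870912 1046898278 26843546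
    (rowFX 1 false true true .nn 1 1 3 (qsf 536870912 469762048 1610612736 469762048 1) ndF6q1 ndF2q3 pcF1 Cut.none Ext.none)

def k0_pp_113 : ∃ t, chk3 f_pp_113 t 1 1 1 = true :=
  ⟨(b (a (l 1) (a (a (l 16777216) (l 16220424)) (a (l 507373652887) (b (l 14763752) (l 14952496))))) (a (b (l 595423875815) (b (l 16116112) (b (l 15422728) (l 14688568)))) (b (a (b (l 16611368) (l 16569720)) (a (l 15555144) (b (l 14954544) (l 14907376)))) (a (b (l 15850744) (b (l 15056304) (l 14457368))) (b (a (l 14818144) (l 14201920)) (a (l 13765968) (b (l 13452960) (l 12904632)))))))), by decide +kernel⟩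

theorem c_pp_113 : CertFX 536870912 469762048 1610612736 469762048 1046898278 26843546 false true true .nn 1 1 3
    ndF6q1 ndF2q3 pcF1 Cut.none Ext.none :=
  certFX1 (fam := false) (s1 := true) (s2 := true) (a := 1) (b := 1) (c := 3) (cn := .nn) (n1 := ndF6q1) (n2 := ndF2q3) (pc := pcF1) (cut := Cut.none) (xt := Ext.none) (P1 := 536870912) (W1 := 469762048) (P2 := 1610612736) (W2 := 469762048) (P3 := 1046898278) (W3 := 26843546)
    rfl (fun _ => rfl) k0_pp_113

noncomputable def f_pp_123 : ℕ → ℕ → ℕ → ℕ → Bool := onCell 1073741824 536870912 1610612736 469762048 1046898278 26843546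
    (rowFX 2 false true true .npn 1 2 3 (qsf 536870912 469762048 1610612736 469762048 2) ndF6q1 ndF2q3 pcF2 Cut.none Ext.none)

def k0_pp_123 : ∃ t, chk3 f_pp_123 t 1 1 1 = true :=
  ⟨(b (a (b (a (a (l 14590520) (l 14896560)) (l 1)) (a (a (l 14461296) (l 14809776)) (a (l 15280552) (l 15986192)))) (l 1)) (a (b (a (a (b (l 14359424) (l 14187208)) (l 14719808)) (a (l 15368960) (l 15964224))) (a (a (b (l 13824624) (a (l 13214088) (l 14020384))) (a (b (l 14496448) (l 14537104)) (l 14840376))) (l 4))) (l 4))), by decide +kernel⟩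

theorem c_pp_123 : CertFX 536870912 469762048 1610612736 469762048 1046898278 26843546 false true true .npn 1 2 3
    ndF6q1 ndF2q3 pcF2 Cut.none Ext.none :=
  certFX2 (fam := false) (s1 := true) (s2 := true) (a := 1) (b := 2) (c := 3) (cn := .npn) (n1 := ndF6q1) (n2 := ndF2q3) (pc := pcF2) (cut := Cut.none) (xt := Ext.none) (P1 := 536870912) (W1 := 469762048) (P2 := 1610612736) (W2 := 469762048) (P3 := 1046898278) (W3 := 26843546)
    rfl (fun _ => rfl) k0_pp_123

noncomputable def f_pp_133 : ℕ → ℕ → ℕ → ℕ → Bool := onCell 536870912 469762048 1610612736 469762048 1046898278 26843546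
    (rowFX 0 false true true .dn 1 3 3 (qsf 536870912 469762048 1610612736 469762048 3) ndF6q1 ndF2q3 pcF3 Cut.none Ext.none)

def k0_pp_133 : ∃ t, chk3 f_pp_133 t 1 1 1 = true :=
  ⟨(l 1), by decide +kernel⟩

theorem c_pp_133 : CertFX 536870912 469762048 1610612736 469762048 1046898278 26843546 false true true .dn 1 3 3
    ndF6q1 ndF2q3 pcF3 Cut.none Ext.none :=
  certFX0 (fam := false) (s1 := true) (s2 := true) (a := 1) (b := 3) (c := 3) (cn := .dn) (n1 := ndF6q1) (n2 := ndF2q3) (pc := pcF3) (cut := Cut.none) (xt := Ext.none) (P1 := 536870912) (W1 := 469762048) (P2 := 1610612736) (W2 := 469762048) (P3 := 1046898278) (W3 := 26843546)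
    rfl k0_pp_133

noncomputable def f_pp_202_a : ℕ → ℕ → ℕ → ℕ → Bool := onCell 1073741824 536870912 0 420477299 1046898278 26843546
    (rowFX 0 false true true .pp 2 0 2 (qsf 1073741824 536870912 0 420477299 0) ndF6q2 ndF2q2a pcF0 Cut.none Ext.none)

def k0_pp_202_a : ∃ t, chk3 f_pp_202_a t 1 1 1 = true :=
  ⟨(l 3), by decide +kernel⟩

theorem c_pp_202_a : CertFX 1073741824 536870912 0 420477299 1046898278 26843546 false true true .pp 2 0 2
    ndF6q2 ndF2q2a pcF0 Cut.none Ext.none :=
  certFX0 (fam := false) (s1 := true) (s2 := true) (a := 2) (b := 0) (c := 2) (cn := .pp) (n1 := ndF6q2) (n2 := ndF2q2a) (pc := pcF0) (cut := Cut.none) (xt := Ext.none) (P1 := 1073741824) (W1 := 536870912) (P2 := 0) (W2 := 420477299) (P3 := 1046898278) (W3 := 26843546)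
    rfl k0_pp_202_a

noncomputable def f_pp_202_b : ℕ → ℕ → ℕ → ℕ → Bool := onCell 1073741824 536870912 1239849684 370763052 1046898278 26843546
    (rowFX 0 false true true .pp 2 0 2 (qsf 1073741824 536870912 1239849684 370763052 0) ndF6q2 ndF2q2b pcF0 Cut.none Ext.none)

def k0_pp_202_b : ∃ t, chk3 f_pp_202_b t 1 1 1 = true :=
  ⟨(a (l 3) (l 3)), by decide +kernel⟩

theorem c_pp_202_b : CertFX 1073741824 536870912 1239849684 370763052 1046898278 26843546 false true true .pp 2 0 2
    ndF6q2 ndF2q2b pcF0 Cut.none Ext.none :=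
  certFX0 (fam := false) (s1 := true) (s2 := true) (a := 2) (b := 0) (c := 2) (cn := .pp) (n1 := ndF6q2) (n2 := ndF2q2b) (pc := pcF0) (cut := Cut.none) (xt := Ext.none) (P1 := 1073741824) (W1 := 536870912) (P2 := 1239849684) (W2 := 370763052) (P3 := 1046898278) (W3 := 26843546)
    rfl k0_pp_202_b

noncomputable def f_pp_203 : ℕ → ℕ → ℕ → ℕ → Bool := onCell 0 536870912 1610612736 469762048 1046898278 26843546
    (rowFX 2 false true true .up 2 0 3 (qsf 1073741824 536870912 1610612736 469762048 0) ndF6q2 ndF2q3 pcF0 Cut.none Ext.none)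

def k0_pp_203 : ∃ t, chk3 f_pp_203 t 1 1 1 = true :=
  ⟨(a (l 3) (b (l 3) (l 3))), by decide +kernel⟩

theorem c_pp_203 : CertFX 1073741824 536870912 1610612736 469762048 1046898278 26843546 false true true .up 2 0 3
    ndF6q2 ndF2q3 pcF0 Cut.none Ext.none :=
  certFX2 (fam := false) (s1 := true) (s2 := true) (a := 2) (b := 0) (c := 3) (cn := .up) (n1 := ndF6q2) (n2 := ndF2q3) (pc := pcF0) (cut := Cut.none) (xt := Ext.none) (P1 := 1073741824) (W1 := 536870912) (P2 := 1610612736) (W2 := 469762048) (P3 := 1046898278) (W3 := 26843546)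
    rfl (fun _ => rfl) k0_pp_203

noncomputable def f_pp_213 : ℕ → ℕ → ℕ → ℕ → Bool := onCell 1073741824 536870912 536870912 536870912 1046898278 26843546
    (rowFX 1 false true true .pnn 2 1 3 (qsf 1073741824 536870912 1610612736 469762048 1) ndF6q2 ndF2q3 pcF1 Cut.none Ext.none)

def k0_pp_213 : ∃ t, chk3 f_pp_213 t 1 1 1 = true :=
  ⟨(a (b (b (b (b (l 3) (a (a (c (l 15576952) (l 60831549319)) (a (c (l 15641512) (l 15612016)) (l 64589187847))) (a (a (a (l 15213640) (l 15347992)) (l 15809376)) (a (l 16385064) (l 16776776))))) (a (a (c (b (l 15576952) (l 15576952)) (b (c (l 15553568) (l 15537984)) (l 15545776))) (b (c (a (l 15641512) (l 15420960)) (a (a (l 15630552) (l 15594096)) (l 15385736))) (a (l 15626768) (l 15403352)))) (a (a (b (a (l 15213640) (l 15347992)) (a (l 15213640) (l 15347992))) (b (l 15704520) (l 15851312))) (a (b (c (l 16472888) (l 16464984)) (l 16468920)) (b (l 16776752) (l 16776744)))))) (a (b (a (c (l 15576952) (l 15545776)) (b (a (l 15626768) (l 15403352))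 (l 15365248))) (a (b (l 15561360) (l 15561360)) (b (l 15512040) (l 15512024)))) (a (b (a (b (l 15239520) (l 15281440)) (b (l 15851288) (l 15851288))) (a (b (l 15281432) (l 15279216)) (l 15814160))) (b (a (b (l 16468912) (l 16466640)) (b (l 16774232) (l 16760592))) (a (l 16452176) (l 16744288)))))) (a (b (b (a (l 15563904) (l 15498560)) (a (l 15557280) (b (l 15492104) (l 15483712)))) (b (a (l 15570776) (b (l 15577544) (l 2))) (a (b (l 15729272) (l 2)) (l 2)))) (b (a (b (a (l 15264224) (l 15826472)) (a (l 15109536) (l 2))) (b (a (l 16417848) (l 2)) (l 2))) (l 2)))) (b (a (b (b (a (l 16777192) (l 139217396215)) (b (a (l 16775432) (l 16757232)) (a (l 16758560) (l 16744688)))) (b (b (a (l 16757232) (l 16708184)) (a (l 16744688) (l 2))) (a (l 16672224) (l 2)))) (b (b (b (l 3) (a (l 16744688) (l 2))) (b (a (l 16708184) (l 2)) (l 2))) (l 2))) (l 2))), by decide +kernel⟩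

theorem c_pp_213 : CertFX 1073741824 536870912 1610612736 469762048 1046898278 26843546 false true true .pnn 2 1 3
    ndF6q2 ndF2q3 pcF1 Cut.none Ext.none :=
  certFX1 (fam := false) (s1 := true) (s2 := true) (a := 2) (b := 1) (c := 3) (cn := .pnn) (n1 := ndF6q2) (n2 := ndF2q3) (pc := pcF1) (cut := Cut.none) (xt := Ext.none) (P1 := 1073741824) (W1 := 536870912) (P2 := 1610612736) (W2 := 469762048) (P3 := 1046898278) (W3 := 26843546)
    rfl (fun _ => rfl) k0_pp_213

noncomputable def f_pp_303 : ℕ → ℕ → ℕ → ℕ → Bool := onCell 0 1230186008 1610612736 469762048 1046898278 26843546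
    (rowFX 0 false true true .npn 3 0 3 (qsf 0 1230186008 1610612736 469762048 0) ndF6q3 ndF2q3 pcF0 Cut.none Ext.none)

def k0_pp_303 : ∃ t, chk3 f_pp_303 t 1 1 1 = true :=
  ⟨(a (l 3) (l 3)), by decide +kernel⟩

theorem c_pp_303 : CertFX 0 1230186008 1610612736 469762048 1046898278 26843546 false true true .npn 3 0 3
    ndF6q3 ndF2q3 pcF0 Cut.none Ext.none :=
  certFX0 (fam := false) (s1 := true) (s2 := true) (a := 3) (b := 0) (c := 3) (cn := .npn) (n1 := ndF6q3) (n2 := ndF2q3) (pc := pcF0) (cut := Cut.none) (xt := Ext.none) (P1 := 0) (W1 := 1230186008) (P2 := 1610612736) (W2 := 469762048) (P3 := 1046898278) (W3 := 26843546)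
    rfl k0_pp_303

noncomputable def f_pp_313 : ℕ → ℕ → ℕ → ℕ → Bool := onCell 0 1230186008 1610612736 469762048 1046898278 26843546
    (rowFX 0 false true true .dn 3 1 3 (qsf 0 1230186008 1610612736 469762048 1) ndF6q3 ndF2q3 pcF1 Cut.none Ext.none)

def k0_pp_313 : ∃ t, chk3 f_pp_313 t 1 1 1 = true :=
  ⟨(l 1), by decide +kernel⟩

theorem c_pp_313 : CertFX 0 1230186008 1610612736 469762048 1046898278 26843546 false true true .dn 3 1 3
    ndF6q3 ndF2q3 pcF1 Cut.none Ext.none :=
  certFX0 (fam := false) (s1 := true) (s2 := true) (a := 3) (b := 1) (c := 3) (cn := .dn) (n1 := ndF6q3) (n2 := ndF2q3) (pc := pcF1) (cut := Cut.none) (xt := Ext.none) (P1 := 0) (W1 := 1230186008) (P2 := 1610612736) (W2 := 469762048) (P3 := 1046898278) (W3 := 26843546)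
    rfl k0_pp_313

noncomputable def f_pm_001 : ℕ → ℕ → ℕ → ℕ → Bool := onCell 0 536870912 536870912 536870912 1046898278 26843546
    (rowFX 0 false true false .up 0 0 1 (qsf 0 536870912 536870912 536870912 0) ndF6q0 ndF2q1 pcF0 Cut.none Ext.none)

def k0_pm_001 : ∃ t, chk3 f_pm_001 t 1 1 1 = true :=
  ⟨(l 4), by decide +kernel⟩

theorem c_pm_001 : CertFX 0 536870912 536870912 536870912 1046898278 26843546 false true false .up 0 0 1
    ndF6q0 ndF2q1 pcF0 Cut.none Ext.none :=
  certFX0 (fam := false) (s1 := true) (s2 := false) (a := 0) (b := 0) (c := 1) (cn := .up) (n1 := ndF6q0) (n2 := ndF2q1) (pc := pcF0) (cut := Cut.none) (xt := Ext.none) (P1 := 0) (W1 := 536870912) (P2 := 536870912) (W2 := 536870912) (P3 := 1046898278) (W3 := 26843546)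
    rfl k0_pm_001

noncomputable def f_pm_011 : ℕ → ℕ → ℕ → ℕ → Bool := onCell 0 536870912 536870912 536870912 1046898278 26843546
    (rowFX 0 false true false .pnn 0 1 1 (qsf 0 536870912 536870912 536870912 1) ndF6q0 ndF2q1 pcF1 Cut.none Ext.none)

def k0_pm_011 : ∃ t, chk3 f_pm_011 t 1 1 1 = true :=
  ⟨(l 4), by decide +kernel⟩

theorem c_pm_011 : CertFX 0 536870912 536870912 536870912 1046898278 26843546 false true false .pnn 0 1 1
    ndF6q0 ndF2q1 pcF1 Cut.none Ext.none :=
  certFX0 (fam := false) (s1 := true) (s2 := false) (a := 0) (b := 1) (c := 1) (cn := .pnn) (n1 := ndF6q0) (n2 := ndF2q1) (pc := pcF1) (cut := Cut.none) (xt := Ext.none) (P1 := 0) (W1 := 536870912) (P2 := 536870912) (W2 := 536870912) (P3 := 1046898278) (W3 := 26843546)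
    rfl k0_pm_011

noncomputable def f_pm_012_a : ℕ → ℕ → ℕ → ℕ → Bool := onCell 0 536870912 0 420477299 1046898278 26843546
    (rowFX 0 false true false .pnp 0 1 2 (qsf 0 536870912 0 420477299 1) ndF6q0 ndF2q2a pcF1 Cut.none Ext.none)

def k0_pm_012_a : ∃ t, chk3 f_pm_012_a t 1 1 1 = true :=
  ⟨(l 4), by decide +kernel⟩

theorem c_pm_012_a : CertFX 0 536870912 0 420477299 1046898278 26843546 false true false .pnp 0 1 2
    ndF6q0 ndF2q2a pcF1 Cut.none Ext.none :=
  certFX0 (fam := false) (s1 := true) (s2 := false) (a := 0) (b := 1) (c := 2) (cn := .pnp) (n1 := ndF6q0) (n2 := ndF2q2a) (pc := pcF1) (cut := Cut.none) (xt := Ext.none) (P1 := 0) (W1 := 536870912) (P2 := 0) (W2 := 420477299) (P3 := 1046898278) (W3 := 26843546)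
    rfl k0_pm_012_a

noncomputable def f_pm_012_b : ℕ → ℕ → ℕ → ℕ → Bool := onCell 0 536870912 1239849684 370763052 1046898278 26843546
    (rowFX 0 false true false .pnp 0 1 2 (qsf 0 536870912 1239849684 370763052 1) ndF6q0 ndF2q2b pcF1 Cut.none Ext.none)

def k0_pm_012_b : ∃ t, chk3 f_pm_012_b t 1 1 1 = true :=
  ⟨(l 4), by decide +kernel⟩

theorem c_pm_012_b : CertFX 0 536870912 1239849684 370763052 1046898278 26843546 false true false .pnp 0 1 2
    ndF6q0 ndF2q2b pcF1 Cut.none Ext.none :=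
  certFX0 (fam := false) (s1 := true) (s2 := false) (a := 0) (b := 1) (c := 2) (cn := .pnp) (n1 := ndF6q0) (n2 := ndF2q2b) (pc := pcF1) (cut := Cut.none) (xt := Ext.none) (P1 := 0) (W1 := 536870912) (P2 := 1239849684) (W2 := 370763052) (P3 := 1046898278) (W3 := 26843546)
    rfl k0_pm_012_b

noncomputable def f_pm_022_a : ℕ → ℕ → ℕ → ℕ → Bool := onCell 0 536870912 0 420477299 1046898278 26843546
    (rowFX 0 false true false .pp 0 2 2 (qsf 0 536870912 0 420477299 2) ndF6q0 ndF2q2a pcF2 Cut.none Ext.none)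

def k0_pm_022_a : ∃ t, chk3 f_pm_022_a t 1 1 1 = true :=
  ⟨(l 4), by decide +kernel⟩

theorem c_pm_022_a : CertFX 0 536870912 0 420477299 1046898278 26843546 false true false .pp 0 2 2
    ndF6q0 ndF2q2a pcF2 Cut.none Ext.none :=
  certFX0 (fam := false) (s1 := true) (s2 := false) (a := 0) (b := 2) (c := 2) (cn := .pp) (n1 := ndF6q0) (n2 := ndF2q2a) (pc := pcF2) (cut := Cut.none) (xt := Ext.none) (P1 := 0) (W1 := 536870912) (P2 := 0) (W2 := 420477299) (P3 := 1046898278) (W3 := 26843546)
    rfl k0_pm_022_a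

noncomputable def f_pm_022_b : ℕ → ℕ → ℕ → ℕ → Bool := onCell 0 536870912 1239849684 370763052 1046898278 26843546
    (rowFX 0 false true false .pp 0 2 2 (qsf 0 536870912 1239849684 370763052 2) ndF6q0 ndF2q2b pcF2 Cut.none Ext.none)

def k0_pm_022_b : ∃ t, chk3 f_pm_022_b t 1 1 1 = true :=
  ⟨(l 4), by decide +kernel⟩

theorem c_pm_022_b : CertFX 0 536870912 1239849684 370763052 1046898278 26843546 false true false .pp 0 2 2
    ndF6q0 ndF2q2b pcF2 Cut.none Ext.none :=
  certFX0 (fam := false) (s1 := true) (s2 := false) (a := 0) (b := 2) (c := 2) (cn := .pp) (n1 := ndF6q0) (n2 := ndF2q2b) (pc := pcF2) (cut := Cut.none) (xt := Ext.none) (P1 := 0) (W1 := 536870912) (P2 := 1239849684) (W2 := 370763052) (P3 := 1046898278) (W3 := 26843546)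
    rfl k0_pm_022_b

noncomputable def f_pm_023 : ℕ → ℕ → ℕ → ℕ → Bool := onCell 0 536870912 1610612736 469762048 1046898278 26843546
    (rowFX 0 false true false .up 0 2 3 (qsf 0 536870912 1610612736 469762048 2) ndF6q0 ndF2q3 pcF2 Cut.none Ext.none)

def k0_pm_023 : ∃ t, chk3 f_pm_023 t 1 1 1 = true :=
  ⟨(l 4), by decide +kernel⟩

theorem c_pm_023 : CertFX 0 536870912 1610612736 469762048 1046898278 26843546 false true false .up 0 2 3
    ndF6q0 ndF2q3 pcF2 Cut.none Ext.none :=
  certFX0 (fam := false) (s1 := true) (s2 := false) (a := 0) (b := 2) (c := 3) (cn := .up) (n1 := ndF6q0) (n2 := ndF2q3) (pc := pcF2) (cut := Cut.none) (xt := Ext.none) (P1 := 0) (W1 := 536870912) (P2 := 1610612736) (W2 := 469762048) (P3 := 1046898278) (W3 := 26843546)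
    rfl k0_pm_023

noncomputable def f_pm_033 : ℕ → ℕ → ℕ → ℕ → Bool := onCell 0 536870912 1610612736 469762048 1046898278 26843546
    (rowFX 0 false true false .pnn 0 3 3 (qsf 0 536870912 1610612736 469762048 3) ndF6q0 ndF2q3 pcF3 Cut.none Ext.none)

def k0_pm_033 : ∃ t, chk3 f_pm_033 t 1 1 1 = true :=
  ⟨(l 4), by decide +kernel⟩

theorem c_pm_033 : CertFX 0 536870912 1610612736 469762048 1046898278 26843546 false true false .pnn 0 3 3
    ndF6q0 ndF2q3 pcF3 Cut.none Ext.none :=
  certFX0 (fam := false) (s1 := true) (s2 := false) (a := 0) (b := 3) (c := 3) (cn := .pnn) (n1 := ndF6q0) (n2 := ndF2q3) (pc := pcF3) (cut := Cut.none) (xt := Ext.none) (P1 := 0) (W1 := 536870912) (P2 := 1610612736) (W2 := 469762048) (P3 := 1046898278) (W3 := 26843546)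
    rfl k0_pm_033

noncomputable def f_pm_101 : ℕ → ℕ → ℕ → ℕ → Bool := onCell 536870912 469762048 536870912 536870912 1046898278 26843546
    (rowFX 0 false true false .npn 1 0 1 (qsf 536870912 469762048 536870912 536870912 0) ndF6q1 ndF2q1 pcF0 Cut.none Ext.none)

def k0_pm_101 : ∃ t, chk3 f_pm_101 t 1 1 1 = true :=
  ⟨(l 4), by decide +kernel⟩

theorem c_pm_101 : CertFX 536870912 469762048 536870912 536870912 1046898278 26843546 false true false .npn 1 0 1
    ndF6q1 ndF2q1 pcF0 Cut.none Ext.none :=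
  certFX0 (fam := false) (s1 := true) (s2 := false) (a := 1) (b := 0) (c := 1) (cn := .npn) (n1 := ndF6q1) (n2 := ndF2q1) (pc := pcF0) (cut := Cut.none) (xt := Ext.none) (P1 := 536870912) (W1 := 469762048) (P2 := 536870912) (W2 := 536870912) (P3 := 1046898278) (W3 := 26843546)
    rfl k0_pm_101

noncomputable def f_pm_102_a : ℕ → ℕ → ℕ → ℕ → Bool := onCell 536870912 469762048 0 420477299 1046898278 26843546
    (rowFX 0 false true false .npp 1 0 2 (qsf 536870912 469762048 0 420477299 0) ndF6q1 ndF2q2a pcF0 Cut.none Ext.none)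

def k0_pm_102_a : ∃ t, chk3 f_pm_102_a t 1 1 1 = true :=
  ⟨(l 4), by decide +kernel⟩

theorem c_pm_102_a : CertFX 536870912 469762048 0 420477299 1046898278 26843546 false true false .npp 1 0 2
    ndF6q1 ndF2q2a pcF0 Cut.none Ext.none :=
  certFX0 (fam := false) (s1 := true) (s2 := false) (a := 1) (b := 0) (c := 2) (cn := .npp) (n1 := ndF6q1) (n2 := ndF2q2a) (pc := pcF0) (cut := Cut.none) (xt := Ext.none) (P1 := 536870912) (W1 := 469762048) (P2 := 0) (W2 := 420477299) (P3 := 1046898278) (W3 := 26843546)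
    rfl k0_pm_102_a

noncomputable def f_pm_102_b : ℕ → ℕ → ℕ → ℕ → Bool := onCell 536870912 469762048 1239849684 370763052 1046898278 26843546
    (rowFX 0 false true false .npp 1 0 2 (qsf 536870912 469762048 1239849684 370763052 0) ndF6q1 ndF2q2b pcF0 Cut.none Ext.none)

def k0_pm_102_b : ∃ t, chk3 f_pm_102_b t 1 1 1 = true :=
  ⟨(l 4), by decide +kernel⟩

theorem c_pm_102_b : CertFX 536870912 469762048 1239849684 370763052 1046898278 26843546 false true false .npp 1 0 2
    ndF6q1 ndF2q2b pcF0 Cut.none Ext.none :=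
  certFX0 (fam := false) (s1 := true) (s2 := false) (a := 1) (b := 0) (c := 2) (cn := .npp) (n1 := ndF6q1) (n2 := ndF2q2b) (pc := pcF0) (cut := Cut.none) (xt := Ext.none) (P1 := 536870912) (W1 := 469762048) (P2 := 1239849684) (W2 := 370763052) (P3 := 1046898278) (W3 := 26843546)
    rfl k0_pm_102_b

noncomputable def f_pm_112_a : ℕ → ℕ → ℕ → ℕ → Bool := onCell 536870912 469762048 0 420477299 1046898278 26843546
    (rowFX 0 false true false .dn 1 1 2 (qsf 536870912 469762048 0 420477299 1) ndF6q1 ndF2q2a pcF1 Cut.none Ext.none)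

def k0_pm_112_a : ∃ t, chk3 f_pm_112_a t 1 1 1 = true :=
  ⟨(l 4), by decide +kernel⟩

theorem c_pm_112_a : CertFX 536870912 469762048 0 420477299 1046898278 26843546 false true false .dn 1 1 2
    ndF6q1 ndF2q2a pcF1 Cut.none Ext.none :=
  certFX0 (fam := false) (s1 := true) (s2 := false) (a := 1) (b := 1) (c := 2) (cn := .dn) (n1 := ndF6q1) (n2 := ndF2q2a) (pc := pcF1) (cut := Cut.none) (xt := Ext.none) (P1 := 536870912) (W1 := 469762048) (P2 := 0) (W2 := 420477299) (P3 := 1046898278) (W3 := 26843546)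
    rfl k0_pm_112_a

noncomputable def f_pm_112_b : ℕ → ℕ → ℕ → ℕ → Bool := onCell 536870912 469762048 1239849684 370763052 1046898278 26843546
    (rowFX 0 false true false .dn 1 1 2 (qsf 536870912 469762048 1239849684 370763052 1) ndF6q1 ndF2q2b pcF1 Cut.none Ext.none)

def k0_pm_112_b : ∃ t, chk3 f_pm_112_b t 1 1 1 = true :=
  ⟨(l 4), by decide +kernel⟩

theorem c_pm_112_b : CertFX 536870912 469762048 1239849684 370763052 1046898278 26843546 false true false .dn 1 1 2
    ndF6q1 ndF2q2b pcF1 Cut.none Ext.none :=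
  certFX0 (fam := false) (s1 := true) (s2 := false) (a := 1) (b := 1) (c := 2) (cn := .dn) (n1 := ndF6q1) (n2 := ndF2q2b) (pc := pcF1) (cut := Cut.none) (xt := Ext.none) (P1 := 536870912) (W1 := 469762048) (P2 := 1239849684) (W2 := 370763052) (P3 := 1046898278) (W3 := 26843546)
    rfl k0_pm_112_b

noncomputable def f_pm_113 : ℕ → ℕ → ℕ → ℕ → Bool := onCell 536870912 469762048 1610612736 469762048 1046898278 26843546
    (rowFX 0 false true false .nn 1 1 3 (qsf 536870912 469762048 1610612736 469762048 1) ndF6q1 ndF2q3 pcF1 Cut.none Ext.none)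

def k0_pm_113 : ∃ t, chk3 f_pm_113 t 1 1 1 = true :=
  ⟨(l 4), by decide +kernel⟩

theorem c_pm_113 : CertFX 536870912 469762048 1610612736 469762048 1046898278 26843546 false true false .nn 1 1 3
    ndF6q1 ndF2q3 pcF1 Cut.none Ext.none :=
  certFX0 (fam := false) (s1 := true) (s2 := false) (a := 1) (b := 1) (c := 3) (cn := .nn) (n1 := ndF6q1) (n2 := ndF2q3) (pc := pcF1) (cut := Cut.none) (xt := Ext.none) (P1 := 536870912) (W1 := 469762048) (P2 := 1610612736) (W2 := 469762048) (P3 := 1046898278) (W3 := 26843546)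
    rfl k0_pm_113

noncomputable def f_pm_123 : ℕ → ℕ → ℕ → ℕ → Bool := onCell 536870912 469762048 1610612736 469762048 1046898278 26843546
    (rowFX 0 false true false .npn 1 2 3 (qsf 536870912 469762048 1610612736 469762048 2) ndF6q1 ndF2q3 pcF2 Cut.none Ext.none)

def k0_pm_123 : ∃ t, chk3 f_pm_123 t 1 1 1 = true :=
  ⟨(l 4), by decide +kernel⟩

theorem c_pm_123 : CertFX 536870912 469762048 1610612736 469762048 1046898278 26843546 false true false .npn 1 2 3
    ndF6q1 ndF2q3 pcF2 Cut.none Ext.none :=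
  certFX0 (fam := false) (s1 := true) (s2 := false) (a := 1) (b := 2) (c := 3) (cn := .npn) (n1 := ndF6q1) (n2 := ndF2q3) (pc := pcF2) (cut := Cut.none) (xt := Ext.none) (P1 := 536870912) (W1 := 469762048) (P2 := 1610612736) (W2 := 469762048) (P3 := 1046898278) (W3 := 26843546)
    rfl k0_pm_123

noncomputable def f_pm_133 : ℕ → ℕ → ℕ → ℕ → Bool := onCell 536870912 469762048 1610612736 469762048 1046898278 26843546
    (rowFX 0 false true false .dn 1 3 3 (qsf 536870912 469762048 1610612736 469762048 3) ndF6q1 ndF2q3 pcF3 Cut.none Ext.none)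

def k0_pm_133 : ∃ t, chk3 f_pm_133 t 1 1 1 = true :=
  ⟨(l 1), by decide +kernel⟩

theorem c_pm_133 : CertFX 536870912 469762048 1610612736 469762048 1046898278 26843546 false true false .dn 1 3 3
    ndF6q1 ndF2q3 pcF3 Cut.none Ext.none :=
  certFX0 (fam := false) (s1 := true) (s2 := false) (a := 1) (b := 3) (c := 3) (cn := .dn) (n1 := ndF6q1) (n2 := ndF2q3) (pc := pcF3) (cut := Cut.none) (xt := Ext.none) (P1 := 536870912) (W1 := 469762048) (P2 := 1610612736) (W2 := 469762048) (P3 := 1046898278) (W3 := 26843546)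
    rfl k0_pm_133

noncomputable def f_pm_202_a : ℕ → ℕ → ℕ → ℕ → Bool := onCell 0 536870912 0 420477299 1046898278 26843546
    (rowFX 2 false true false .pp 2 0 2 (qsf 1073741824 536870912 0 420477299 0) ndF6q2 ndF2q2a pcF0 Cut.none Ext.none)

def k0_pm_202_a : ∃ t, chk3 f_pm_202_a t 16 2 1 = true :=
  ⟨(a (c (b (a (c (l 16165392) (a (l 16203816) (l 15868688))) (a (c (b (l 16015104) (a (l 15994120) (c (l 15959520) (l 15957792)))) (b (l 16058480) (l 15792656))) (c (b (l 15987280) (l 15959200)) (b (l 15996848) (l 15967384))))) (a (b (a (l 15997144) (c (l 15937776) (a (l 15926912) (l 15820976)))) (a (l 15854664) (c (l 15868064) (l 15851608)))) (a (b (c (a (l 15908248) (l 15913040)) (l 15743680)) (c (a (l 15876544) (l 15886568)) (l 15879832))) (c (l 15865936) (c (l 15936264) (l 15936144)))))) (b (a (c (a (l 16190368) (c (l 15990016) (l 15969528))) (a (c (l 15931808) (a (l 16013552) (l 16156256))) (l 15879488))) (c (a (b (l 16059568) (l 15876016)) (b (l 15979832) (l 15950232))) (b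 (l 15998880) (l 15951168)))) (a (c (a (b (l 15972832) (l 15827720)) (b (a (l 15811352) (c (l 15901960) (l 15904944))) (a (l 15835368) (l 15849800)))) (a (b (c (a (l 15983200) (l 15939848)) (a (l 15956440) (l 15935432))) (c (a (l 15811944) (l 15815768)) (a (c (l 15806600) (l 15803080)) (l 15810440)))) (b (c (l 15910216) (l 15900056)) (l 15833448)))) (c (a (b (l 15846528) (l 15876848)) (l 15917896)) (b (l 15898312) (l 15867280)))))) (c (a (b (c (b (l 15916656) (a (l 15997656) (l 16035928))) (b (l 16006536) (l 16000216))) (c (a (l 15973760) (b (l 16023872) (l 15998152))) (b (l 15988192) (l 15962112)))) (b (c (l 16074488) (l 16037976)) (b (l 16042592) (l 16018896)))) (b (b (l 15986776) (l 15982104)) (b (l 15971800) (l 15947400))))), by decide +kernel⟩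

def k1_pm_202_a : ∃ t, chk3 f_pm_202_a t 17 2 1 = true :=
  ⟨(b (c (a (c (l 16118760) (l 16088472)) (c (a (l 16162600) (l 16197160)) (l 16166856))) (a (l 16068560) (l 16156800))) (c (a (c (l 16100072) (b (l 16079472) (l 16060688))) (a (b (l 16150336) (l 16134176)) (b (l 16191656) (l 16043008)))) (a (l 16051552) (b (l 16153704) (l 16117176))))), by decide +kernel⟩

def k2_pm_202_a : ∃ t, chk3 f_pm_202_a t 8 3 1 = true :=
  ⟨(b (a (a (b (c (a (c (l 15826328) (a (l 15801368) (l 15773864))) (a (c (b (l 15857760) (l 15776232)) (l 15781928)) (c (l 15881224) (l 15885424)))) (a (c (a (l 15783056) (b (a (l 15807664) (l 15822808)) (l 15795960))) (b (a (c (l 15780744) (a (l 15767016) (l 15780920))) (l 15805376)) (a (l 15756456) (l 15784752)))) (c (a (c (l 15846160) (l 15838280)) (l 15867792)) (l 15831752)))) (c (a (l 15768584) (c (l 15822400) (l 15817448))) (a (c (a (l 15731840) (l 15758208)) (a (c (l 15720312) (l 15712664)) (l 15746368))) (c (l 15806632) (l 15785416))))) (c (b (a (c (a (l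 15926144) (c (l 15969416) (l 15963992))) (a (l 15918120) (l 15940856))) (c (l 16003816) (l 15970488))) (a (l 15892152) (l 15937632))) (b (c (l 15922928) (l 15906624)) (l 15866168)))) (b (c (a (c (l 16052600) (a (l 16011608) (l 16042560))) (c (a (l 16061464) (l 16025968)) (l 16027280))) (a (l 16004136) (l 16013632))) (c (a (l 15902888) (l 15852864)) (a (l 15886016) (l 15825656))))) (a (a (c (b (a (l 15737248) (c (a (l 15766800) (l 15786128)) (a (l 15760848) (l 15787016)))) (a (l 15621624) (c (l 15642008) (a (l 15636392) (l 15634376))))) (b (a (c (a (l 15700744) (a (l 15719640) (l 15734256))) (a (c (l 15688944) (l 15576240)) (l 15714688))) (c (b (l 15770488) (l 15750712)) (l 15734368))) (a (c (a (l 15644928) (a (l 15637056) (l 15632040))) (a (c (l 15548736) (c (l 15542608) (l 15601240))) (l 15621576))) (c (l 15619864) (l 15597208))))) (c (b (a (c (l 15808640) (l 15791600)) (l 15784848)) (c (a (l 15635240) (l 15611904)) (l 15596584))) (b (b (l 15780816) (l 15705888)) (l 15370024))))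 (c (b (a (l 15722152) (l 15639464)) (a (l 15534048) (l 15432688))) (b (c (l 15650936) (l 15636816)) (c (l 15460792) (l 15444096)))))), by decide +kernel⟩

def k3_pm_202_a : ∃ t, chk3 f_pm_202_a t 9 1 1 = true :=
  ⟨(b (a (b (a (c (a (l 16233616) (l 16246856)) (l 16224240)) (l 16183528)) (a (c (b (l 16196472) (l 16104320)) (l 15962792)) (l 16060312))) (b (l 16051024) (b (l 15985432) (l 15884848)))) (b (a (c (b (a (l 15958816) (l 15875144)) (l 15730232)) (b (l 15896208) (l 15703824))) (b (l 15743656) (l 15306592))) (a (b (c (l 15520064) (l 15487688)) (c (l 15128272) (l 15300328))) (b (l 214241729527) (l 1))))), by decide +kernel⟩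

def k4_pm_202_a : ∃ t, chk3 f_pm_202_a t 5 1 1 = true :=
  ⟨(a (b (b (a (l 15891672) (l 1)) (a (l 15783432) (l 1))) (b (b (l 117068400391) (l 1)) (l 1))) (l 1)), by decide +kernel⟩

def k5_pm_202_a : ∃ t, chk3 f_pm_202_a t 3 1 1 = true :=
  ⟨(l 1), by decide +kernel⟩

theorem s6_pm_202_a : ∃ t, chk3 f_pm_202_a t 8 2 1 = true := ex3_a k0_pm_202_a k1_pm_202_a

theorem s7_pm_202_a : ∃ t, chk3 f_pm_202_a t 8 1 1 = true := ex3_b s6_pm_202_a k2_pm_202_a

theorem s8_pm_202_a : ∃ t, chk3 f_pm_202_a t 4 1 1 = true := ex3_a s7_pm_202_a k3_pm_202_a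

theorem s9_pm_202_a : ∃ t, chk3 f_pm_202_a t 2 1 1 = true := ex3_a s8_pm_202_a k4_pm_202_a

theorem s10_pm_202_a : ∃ t, chk3 f_pm_202_a t 1 1 1 = true := ex3_a s9_pm_202_a k5_pm_202_a

theorem c_pm_202_a : CertFX 1073741824 536870912 0 420477299 1046898278 26843546 false true false .pp 2 0 2
    ndF6q2 ndF2q2a pcF0 Cut.none Ext.none :=
  certFX2 (fam := false) (s1 := true) (s2 := false) (a := 2) (b := 0) (c := 2) (cn := .pp) (n1 := ndF6q2) (n2 := ndF2q2a) (pc := pcF0) (cut := Cut.none) (xt := Ext.none) (P1 := 1073741824) (W1 := 536870912) (P2 := 0) (W2 := 420477299) (P3 := 1046898278) (W3 := 26843546)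
    rfl (fun _ => rfl) s10_pm_202_a

noncomputable def f_pm_202_b : ℕ → ℕ → ℕ → ℕ → Bool := onCell 0 536870912 1239849684 370763052 1046898278 26843546
    (rowFX 2 false true false .pp 2 0 2 (qsf 1073741824 536870912 1239849684 370763052 0) ndF6q2 ndF2q2b pcF0 Cut.none Ext.none)

def k0_pm_202_b : ∃ t, chk3 f_pm_202_b t 8 4 1 = true :=
  ⟨(a (a (b (c (a (b (b (l 16105032) (l 16368504)) (l 16106872)) (a (b (c (c (l 16206664) (l 16100184)) (l 16128080)) (c (l 16453312) (l 16436984))) (c (b (l 16126800) (l 16527176)) (b (c (l 16223432) (l 16142336)) (l 16498520))))) (a (c (a (l 16326880) (b (a (l 16296824) (l 16191224)) (l 16303256))) (a (a (c (l 16453376) (l 16202944)) (c (l 16312152) (l 16415816))) (b (l 16190848) (l 16340440)))) (c (b (a (l 16132736) (l 16209928)) (l 16468512)) (b (l 16152768) (l 16485128))))) (c (a (b (l 15879784) (l 15608192)) (a (b (l 15773680) (c (l 15701392) (l 15672216))) (c (b (l 16113216) (l 15744160)) (b (l 16077264) (l 15701360))))) (a (c (b (a (l 15826696)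 (l 15919576)) (l 15446440)) (a (b (l 15631104) (l 15558696)) (b (l 15908288) (l 15594240)))) (c (b (l 16041528) (l 15682432)) (l 15787000))))) (b (c (b (a (c (b (a (l 16060672) (c (l 16041208) (l 16036560))) (l 16102760)) (b (a (l 15950960) (l 16010928)) (l 16153600))) (b (l 15893008) (c (l 15995944) (l 16021816)))) (a (c (l 16278528) (l 16355304)) (l 16097648))) (b (b (a (c (l 16011472) (l 15993448)) (l 15964304)) (a (l 16159520) (l 15988472))) (c (l 16217544) (l 16375248)))) (c (c (a (b (l 16197088) (l 15805616)) (l 16046872)) (b (l 16216040) (l 15816456))) (b (l 16328208) (l 15920032))))) (b (a (b (c (a (b (l 16042504) (l 15955760)) (l 16017616)) (l 15975952)) (c (a (b (l 16030304) (l 16233728)) (c (l 15914720) (l 15822936))) (b (l 15948216) (l 16102624)))) (c (b (c (l 16032344) (l 16058552)) (a (b (l 15886936) (l 15858856)) (l 15870544))) (b (l 16046584) (l 15875224)))) (a (c (b (a (l 16512736) (l 16282240)) (l 16241520)) (l 16280192)) (c (b (a (l 16068888) (l 15841944)) (l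 16241000)) (b (l 16024344) (l 16464208)))))), by decide +kernel⟩

def k1_pm_202_b : ∃ t, chk3 f_pm_202_b t 8 5 1 = true :=
  ⟨(a (a (c (a (l 15494600) (c (l 15563736) (l 15532176))) (a (c (l 15477928) (a (l 15455584) (l 15475336))) (l 15510488))) (c (a (l 15474616) (l 15505072)) (l 15608312))) (b (a (b (c (l 15859648) (l 15913480)) (l 15734024)) (b (l 16034912) (c (l 15943952) (l 15931096)))) (l 15491632))), by decide +kernel⟩

def k2_pm_202_b : ∃ t, chk3 f_pm_202_b t 9 2 1 = true :=
  ⟨(b (a (b (a (c (l 15795824) (l 16009824)) (b (l 16159352) (l 15980736))) (a (b (a (c (l 15836936) (l 15815576)) (l 15755080)) (c (l 16077336) (l 16084360))) (b (l 15761848) (l 15756592)))) (b (b (l 16075240) (l 15875728)) (b (l 15875296) (l 15689160)))) (a (b (a (l 16159032) (l 16254944)) (a (l 15963264) (l 16163232))) (b (b (a (l 15784464) (l 15602776)) (l 15938808)) (b (l 16446976) (l 16399440))))), by decide +kernel⟩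

def k3_pm_202_b : ∃ t, chk3 f_pm_202_b t 4 3 1 = true :=
  ⟨(a (a (c (a (a (b (l 15324288) (l 15072824)) (b (l 15382664) (c (l 15068208) (l 14935960)))) (b (l 15429304) (b (l 15293688) (l 15134640)))) (a (b (a (l 15192856) (l 15342576)) (b (l 15177280) (a (a (l 491870330999) (l 14816584)) (l 15092720)))) (b (l 15444720) (l 15215672)))) (b (l 15472600) (c (a (l 15386168) (l 15492296)) (l 15382296)))) (a (b (l 15924064) (c (l 15517688) (l 15793224))) (b (l 16178776) (l 15946616)))), by decide +kernel⟩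

def k4_pm_202_b : ∃ t, chk3 f_pm_202_b t 5 1 1 = true :=
  ⟨(b (a (b (b (a (l 15921752) (l 15746224)) (a (b (l 15920416) (l 15828816)) (l 15788176))) (b (a (b (l 15659672) (l 15580640)) (l 15688584)) (a (b (l 15767368) (l 16170128)) (b (l 15480864) (l 15555032))))) (b (a (l 547639141959) (l 562134501879)) (a (b (l 15666776) (l 15507016)) (l 15560456)))) (a (b (b (a (l 16477360) (l 16101776)) (a (l 16326960) (a (l 16499536) (l 16661136)))) (a (l 16271656) (l 16451600))) (b (a (b (l 15292432) (b (l 16031848) (l 16445824))) (b (a (l 15332816) (l 15425232)) (a (l 15722464) (l 15476992)))) (a (l 16499912) (b (a (l 16522448) (l 16275936)) (l 16757480)))))), by decide +kernel⟩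

def k5_pm_202_b : ∃ t, chk3 f_pm_202_b t 3 1 1 = true :=
  ⟨(b (a (b (l 1) (a (l 15500136) (l 489656675383))) (l 1)) (a (b (a (b (l 15549296) (a (l 15379728) (l 15490120))) (a (l 15562944) (l 15517824))) (a (b (a (l 15795000) (l 15429112)) (a (l 16539128) (l 16049088))) (b (a (l 15443592) (l 15572128)) (a (l 15534360) (l 15378624))))) (b (l 451538620231) (b (l 15488832) (l 15510648))))), by decide +kernel⟩

theorem s6_pm_202_b : ∃ t, chk3 f_pm_202_b t 8 2 1 = true := ex3_b k0_pm_202_b k1_pm_202_b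

theorem s7_pm_202_b : ∃ t, chk3 f_pm_202_b t 4 2 1 = true := ex3_a s6_pm_202_b k2_pm_202_b

theorem s8_pm_202_b : ∃ t, chk3 f_pm_202_b t 4 1 1 = true := ex3_b s7_pm_202_b k3_pm_202_b

theorem s9_pm_202_b : ∃ t, chk3 f_pm_202_b t 2 1 1 = true := ex3_a s8_pm_202_b k4_pm_202_b

theorem s10_pm_202_b : ∃ t, chk3 f_pm_202_b t 1 1 1 = true := ex3_a s9_pm_202_b k5_pm_202_b

theorem c_pm_202_b : CertFX 1073741824 536870912 1239849684 370763052 1046898278 26843546 false true false .pp 2 0 2
    ndF6q2 ndF2q2b pcF0 Cut.none Ext.none :=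
  certFX2 (fam := false) (s1 := true) (s2 := false) (a := 2) (b := 0) (c := 2) (cn := .pp) (n1 := ndF6q2) (n2 := ndF2q2b) (pc := pcF0) (cut := Cut.none) (xt := Ext.none) (P1 := 1073741824) (W1 := 536870912) (P2 := 1239849684) (W2 := 370763052) (P3 := 1046898278) (W3 := 26843546)
    rfl (fun _ => rfl) s10_pm_202_b

noncomputable def f_pm_203 : ℕ → ℕ → ℕ → ℕ → Bool := onCell 1073741824 536870912 0 536870912 1046898278 26843546
    (rowFX 1 false true false .up 2 0 3 (qsf 1073741824 536870912 1610612736 469762048 0) ndF6q2 ndF2q3 pcF0 Cut.none Ext.none)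

def k0_pm_203 : ∃ t, chk3 f_pm_203 t 1 1 1 = true :=
  ⟨(a (b (a (l 1) (b (l 1) (b (l 1) (a (l 1) (b (l 1) (l 16501200)))))) (a (b (b (l 1) (l 446170292439)) (a (l 15561360) (l 15512056))) (a (b (b (l 15363184) (l 344164897079)) (l 15363184)) (b (b (l 16626968) (l 16626968)) (l 16375304))))) (b (a (b (b (l 1) (b (l 1) (b (l 1) (l 16120504)))) (b (b (l 16112192) (l 16454296)) (b (l 16665264) (l 16777040)))) (b (b (a (a (l 1) (b (l 1) (b (l 1) (b (l 1) (l 15572768))))) (b (b (a (l 1) (c (b (l 15047176) (l 15090808)) (b (c (l 15025040) (l 15010216)) (l 15042632)))) (c (b (l 15138976) (l 15124312)) (l 15189320))) (c (b (l 15264528) (l 15416136)) (l 15203688)))) (b (a (b (a (l 1) (l 15635920)) (l 15810968)) (c (l 15463880) (l 15596192))) (c (l 15788800) (l 15680872)))) (b (b (l 16028440) (l 16352360)) (b (l 16627256) (l 16772936))))) (b (a (l 16777216) (b (l 16777216) (l 16777192))) (a (l 16777192) (b (a (l 16777192) (l 16761248)) (a (l 16761248) (l 16748960))))))), by decide +kernel⟩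

theorem c_pm_203 : CertFX 1073741824 536870912 1610612736 469762048 1046898278 26843546 false true false .up 2 0 3
    ndF6q2 ndF2q3 pcF0 Cut.none Ext.none :=
  certFX1 (fam := false) (s1 := true) (s2 := false) (a := 2) (b := 0) (c := 3) (cn := .up) (n1 := ndF6q2) (n2 := ndF2q3) (pc := pcF0) (cut := Cut.none) (xt := Ext.none) (P1 := 1073741824) (W1 := 536870912) (P2 := 1610612736) (W2 := 469762048) (P3 := 1046898278) (W3 := 26843546)
    rfl (fun _ => rfl) k0_pm_203

noncomputable def f_pm_213 : ℕ → ℕ → ℕ → ℕ → Bool := onCell 1073741824 536870912 1610612736 469762048 1046898278 26843546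
    (rowFX 0 false true false .pnn 2 1 3 (qsf 1073741824 536870912 1610612736 469762048 1) ndF6q2 ndF2q3 pcF1 Cut.none Ext.none)

def k0_pm_213 : ∃ t, chk3 f_pm_213 t 1 1 1 = true :=
  ⟨(a (b (b (a (a (l 15561360) (l 15512056)) (l 1)) (a (l 15512968) (a (a (l 15281464) (l 15851320)) (l 16626968)))) (a (b (a (l 15562784) (l 15512064)) (a (b (l 15560384) (a (l 15487368) (l 15606520))) (b (l 15512400) (l 15524288)))) (a (b (l 15572912) (l 15482312)) (b (l 16626976) (l 16641464))))) (b (l 1) (b (a (l 16777208) (l 1)) (a (a (l 16760472) (b (l 16777184) (c (l 16759696) (l 16759240)))) (c (a (l 16760688) (l 16760688)) (a (b (l 16777184) (l 16759240)) (l 840773453911))))))), by decide +kernel⟩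

theorem c_pm_213 : CertFX 1073741824 536870912 1610612736 469762048 1046898278 26843546 false true false .pnn 2 1 3
    ndF6q2 ndF2q3 pcF1 Cut.none Ext.none :=
  certFX0 (fam := false) (s1 := true) (s2 := false) (a := 2) (b := 1) (c := 3) (cn := .pnn) (n1 := ndF6q2) (n2 := ndF2q3) (pc := pcF1) (cut := Cut.none) (xt := Ext.none) (P1 := 1073741824) (W1 := 536870912) (P2 := 1610612736) (W2 := 469762048) (P3 := 1046898278) (W3 := 26843546)
    rfl k0_pm_213

noncomputable def f_pm_303 : ℕ → ℕ → ℕ → ℕ → Bool := onCell 0 1230186008 0 536870912 1046898278 26843546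
    (rowFX 1 false true false .npn 3 0 3 (qsf 0 1230186008 1610612736 469762048 0) ndF6q3 ndF2q3 pcF0 Cut.none Ext.none)

def k0_pm_303 : ∃ t, chk3 f_pm_303 t 1 1 1 = true :=
  ⟨(a (a (l 2) (b (b (l 3) (l 2)) (l 2))) (a (b (l 3) (l 2)) (b (a (l 3) (a (a (l 3) (b (a (l 3) (b (b (c (b (b (l 14783880) (b (l 14821960) (l 14845392))) (l 14937528)) (b (b (c (l 14748552) (l 317990760567)) (l 14795040)) (l 14930152))) (c (b (l 15081880) (l 15237904)) (l 15143320))) (l 3))) (l 3))) (b (b (b (b (c (b (l 14805944) (a (c (l 14867136) (l 14847704)) (l 14909872))) (a (b (c (l 14815104) (l 14799840)) (l 14818208)) (b (c (l 14924792) (l 14909112)) (l 14949584)))) (c (c (a (l 14946048) (l 14849040)) (b (l 14807456) (l 14995264))) (a (c (l 14951168) (l 14937760)) (l 15027856)))) (c (b (a (l 15113496) (l 15168632)) (l 26470947063)) (a (l 15177464) (b (l 15151984) (l 15320224))))) (b (c (b (l 15456176) (l 15642280)) (l 15284768)) (c (l 15865832) (l 15842152)))) (b (b (l 16014568) (l 16360328)) (b (l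 312089328887) (l 16852712)))))) (a (b (l 3) (l 2)) (a (l 3) (b (b (l 16777192) (l 327659106295)) (b (l 3) (l 3)))))))), by decide +kernel⟩

theorem c_pm_303 : CertFX 0 1230186008 1610612736 469762048 1046898278 26843546 false true false .npn 3 0 3
    ndF6q3 ndF2q3 pcF0 Cut.none Ext.none :=
  certFX1 (fam := false) (s1 := true) (s2 := false) (a := 3) (b := 0) (c := 3) (cn := .npn) (n1 := ndF6q3) (n2 := ndF2q3) (pc := pcF0) (cut := Cut.none) (xt := Ext.none) (P1 := 0) (W1 := 1230186008) (P2 := 1610612736) (W2 := 469762048) (P3 := 1046898278) (W3 := 26843546)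
    rfl (fun _ => rfl) k0_pm_303

noncomputable def f_pm_313 : ℕ → ℕ → ℕ → ℕ → Bool := onCell 0 1230186008 1610612736 469762048 1046898278 26843546
    (rowFX 0 false true false .dn 3 1 3 (qsf 0 1230186008 1610612736 469762048 1) ndF6q3 ndF2q3 pcF1 Cut.none Ext.none)

def k0_pm_313 : ∃ t, chk3 f_pm_313 t 1 1 1 = true :=
  ⟨(l 1), by decide +kernel⟩

theorem c_pm_313 : CertFX 0 1230186008 1610612736 469762048 1046898278 26843546 false true false .dn 3 1 3
    ndF6q3 ndF2q3 pcF1 Cut.none Ext.none :=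
  certFX0 (fam := false) (s1 := true) (s2 := false) (a := 3) (b := 1) (c := 3) (cn := .dn) (n1 := ndF6q3) (n2 := ndF2q3) (pc := pcF1) (cut := Cut.none) (xt := Ext.none) (P1 := 0) (W1 := 1230186008) (P2 := 1610612736) (W2 := 469762048) (P3 := 1046898278) (W3 := 26843546)
    rfl k0_pm_313

noncomputable def f_mm_001 : ℕ → ℕ → ℕ → ℕ → Bool := onCell 0 536870912 536870912 536870912 1046898278 26843546
    (rowFX 0 false false false .up 0 0 1 (qsf 0 536870912 536870912 536870912 0) ndF6q0 ndF2q1 pcF0 Cut.none Ext.none)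

def k0_mm_001 : ∃ t, chk3 f_mm_001 t 1 1 1 = true :=
  ⟨(l 3), by decide +kernel⟩

theorem c_mm_001 : CertFX 0 536870912 536870912 536870912 1046898278 26843546 false false false .up 0 0 1
    ndF6q0 ndF2q1 pcF0 Cut.none Ext.none :=
  certFX0 (fam := false) (s1 := false) (s2 := false) (a := 0) (b := 0) (c := 1) (cn := .up) (n1 := ndF6q0) (n2 := ndF2q1) (pc := pcF0) (cut := Cut.none) (xt := Ext.none) (P1 := 0) (W1 := 536870912) (P2 := 536870912) (W2 := 536870912) (P3 := 1046898278) (W3 := 26843546)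
    rfl k0_mm_001

noncomputable def f_mm_011 : ℕ → ℕ → ℕ → ℕ → Bool := onCell 0 536870912 536870912 536870912 1046898278 26843546
    (rowFX 0 false false false .pnn 0 1 1 (qsf 0 536870912 536870912 536870912 1) ndF6q0 ndF2q1 pcF1 Cut.none Ext.none)

def k0_mm_011 : ∃ t, chk3 f_mm_011 t 1 1 1 = true :=
  ⟨(l 3), by decide +kernel⟩

theorem c_mm_011 : CertFX 0 536870912 536870912 536870912 1046898278 26843546 false false false .pnn 0 1 1
    ndF6q0 ndF2q1 pcF1 Cut.none Ext.none :=
  certFX0 (fam := false) (s1 := false) (s2 := false) (a := 0) (b := 1) (c := 1) (cn := .pnn) (n1 := ndF6q0) (n2 := ndF2q1) (pc := pcF1) (cut := Cut.none) (xt := Ext.none) (P1 := 0) (W1 := 536870912) (P2 := 536870912) (W2 := 536870912) (P3 := 1046898278) (W3 := 26843546)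
    rfl k0_mm_011

noncomputable def f_mm_012_a : ℕ → ℕ → ℕ → ℕ → Bool := onCell 0 536870912 0 420477299 1046898278 26843546
    (rowFX 0 false false false .pnp 0 1 2 (qsf 0 536870912 0 420477299 1) ndF6q0 ndF2q2a pcF1 Cut.none Ext.none)

def k0_mm_012_a : ∃ t, chk3 f_mm_012_a t 1 1 1 = true :=
  ⟨(l 5), by decide +kernel⟩

theorem c_mm_012_a : CertFX 0 536870912 0 420477299 1046898278 26843546 false false false .pnp 0 1 2
    ndF6q0 ndF2q2a pcF1 Cut.none Ext.none :=
  certFX0 (fam := false) (s1 := false) (s2 := false) (a := 0) (b := 1) (c := 2) (cn := .pnp) (n1 := ndF6q0) (n2 := ndF2q2a) (pc := pcF1) (cut := Cut.none) (xt := Ext.none) (P1 := 0) (W1 := 536870912) (P2 := 0) (W2 := 420477299) (P3 := 1046898278) (W3 := 26843546)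
    rfl k0_mm_012_a

noncomputable def f_mm_012_b : ℕ → ℕ → ℕ → ℕ → Bool := onCell 0 536870912 1239849684 370763052 1046898278 26843546
    (rowFX 0 false false false .pnp 0 1 2 (qsf 0 536870912 1239849684 370763052 1) ndF6q0 ndF2q2b pcF1 Cut.none Ext.none)

def k0_mm_012_b : ∃ t, chk3 f_mm_012_b t 1 1 1 = true :=
  ⟨(l 5), by decide +kernel⟩

theorem c_mm_012_b : CertFX 0 536870912 1239849684 370763052 1046898278 26843546 false false false .pnp 0 1 2
    ndF6q0 ndF2q2b pcF1 Cut.none Ext.none :=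
  certFX0 (fam := false) (s1 := false) (s2 := false) (a := 0) (b := 1) (c := 2) (cn := .pnp) (n1 := ndF6q0) (n2 := ndF2q2b) (pc := pcF1) (cut := Cut.none) (xt := Ext.none) (P1 := 0) (W1 := 536870912) (P2 := 1239849684) (W2 := 370763052) (P3 := 1046898278) (W3 := 26843546)
    rfl k0_mm_012_b

noncomputable def f_mm_022_a : ℕ → ℕ → ℕ → ℕ → Bool := onCell 0 536870912 0 420477299 1046898278 26843546
    (rowFX 0 false false false .pp 0 2 2 (qsf 0 536870912 0 420477299 2) ndF6q0 ndF2q2a pcF2 Cut.none Ext.none)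

def k0_mm_022_a : ∃ t, chk3 f_mm_022_a t 1 1 1 = true :=
  ⟨(l 5), by decide +kernel⟩

theorem c_mm_022_a : CertFX 0 536870912 0 420477299 1046898278 26843546 false false false .pp 0 2 2
    ndF6q0 ndF2q2a pcF2 Cut.none Ext.none :=
  certFX0 (fam := false) (s1 := false) (s2 := false) (a := 0) (b := 2) (c := 2) (cn := .pp) (n1 := ndF6q0) (n2 := ndF2q2a) (pc := pcF2) (cut := Cut.none) (xt := Ext.none) (P1 := 0) (W1 := 536870912) (P2 := 0) (W2 := 420477299) (P3 := 1046898278) (W3 := 26843546)
    rfl k0_mm_022_a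

noncomputable def f_mm_022_b : ℕ → ℕ → ℕ → ℕ → Bool := onCell 0 536870912 1239849684 370763052 1046898278 26843546
    (rowFX 0 false false false .pp 0 2 2 (qsf 0 536870912 1239849684 370763052 2) ndF6q0 ndF2q2b pcF2 Cut.none Ext.none)

def k0_mm_022_b : ∃ t, chk3 f_mm_022_b t 1 1 1 = true :=
  ⟨(l 5), by decide +kernel⟩

theorem c_mm_022_b : CertFX 0 536870912 1239849684 370763052 1046898278 26843546 false false false .pp 0 2 2
    ndF6q0 ndF2q2b pcF2 Cut.none Ext.none :=
  certFX0 (fam := false) (s1 := false) (s2 := false) (a := 0) (b := 2) (c := 2) (cn := .pp) (n1 := ndF6q0) (n2 := ndF2q2b) (pc := pcF2) (cut := Cut.none) (xt := Ext.none) (P1 := 0) (W1 := 536870912) (P2 := 1239849684) (W2 := 370763052) (P3 := 1046898278) (W3 := 26843546)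
    rfl k0_mm_022_b

noncomputable def f_mm_023 : ℕ → ℕ → ℕ → ℕ → Bool := onCell 0 536870912 1610612736 469762048 1046898278 26843546
    (rowFX 0 false false false .up 0 2 3 (qsf 0 536870912 1610612736 469762048 2) ndF6q0 ndF2q3 pcF2 Cut.none Ext.none)

def k0_mm_023 : ∃ t, chk3 f_mm_023 t 1 1 1 = true :=
  ⟨(l 5), by decide +kernel⟩

theorem c_mm_023 : CertFX 0 536870912 1610612736 469762048 1046898278 26843546 false false false .up 0 2 3
    ndF6q0 ndF2q3 pcF2 Cut.none Ext.none :=
  certFX0 (fam := false) (s1 := false) (s2 := false) (a := 0) (b := 2) (c := 3) (cn := .up) (n1 := ndF6q0) (n2 := ndF2q3) (pc := pcF2) (cut := Cut.none) (xt := Ext.none) (P1 := 0) (W1 := 536870912) (P2 := 1610612736) (W2 := 469762048) (P3 := 1046898278) (W3 := 26843546)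
    rfl k0_mm_023

noncomputable def f_mm_033 : ℕ → ℕ → ℕ → ℕ → Bool := onCell 0 536870912 1610612736 469762048 1046898278 26843546
    (rowFX 0 false false false .pnn 0 3 3 (qsf 0 536870912 1610612736 469762048 3) ndF6q0 ndF2q3 pcF3 Cut.none Ext.none)

def k0_mm_033 : ∃ t, chk3 f_mm_033 t 1 1 1 = true :=
  ⟨(l 5), by decide +kernel⟩

theorem c_mm_033 : CertFX 0 536870912 1610612736 469762048 1046898278 26843546 false false false .pnn 0 3 3
    ndF6q0 ndF2q3 pcF3 Cut.none Ext.none :=
  certFX0 (fam := false) (s1 := false) (s2 := false) (a := 0) (b := 3) (c := 3) (cn := .pnn) (n1 := ndF6q0) (n2 := ndF2q3) (pc := pcF3) (cut := Cut.none) (xt := Ext.none) (P1 := 0) (W1 := 536870912) (P2 := 1610612736) (W2 := 469762048) (P3 := 1046898278) (W3 := 26843546)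
    rfl k0_mm_033

noncomputable def f_mm_101 : ℕ → ℕ → ℕ → ℕ → Bool := onCell 536870912 469762048 536870912 536870912 1046898278 26843546
    (rowFX 0 false false false .npn 1 0 1 (qsf 536870912 469762048 536870912 536870912 0) ndF6q1 ndF2q1 pcF0 Cut.none Ext.none)

def k0_mm_101 : ∃ t, chk3 f_mm_101 t 1 1 1 = true :=
  ⟨(l 3), by decide +kernel⟩

theorem c_mm_101 : CertFX 536870912 469762048 536870912 536870912 1046898278 26843546 false false false .npn 1 0 1
    ndF6q1 ndF2q1 pcF0 Cut.none Ext.none :=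
  certFX0 (fam := false) (s1 := false) (s2 := false) (a := 1) (b := 0) (c := 1) (cn := .npn) (n1 := ndF6q1) (n2 := ndF2q1) (pc := pcF0) (cut := Cut.none) (xt := Ext.none) (P1 := 536870912) (W1 := 469762048) (P2 := 536870912) (W2 := 536870912) (P3 := 1046898278) (W3 := 26843546)
    rfl k0_mm_101

noncomputable def f_mm_102_a : ℕ → ℕ → ℕ → ℕ → Bool := onCell 536870912 469762048 0 420477299 1046898278 26843546
    (rowFX 0 false false false .npp 1 0 2 (qsf 536870912 469762048 0 420477299 0) ndF6q1 ndF2q2a pcF0 Cut.none Ext.none)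

def k0_mm_102_a : ∃ t, chk3 f_mm_102_a t 1 1 1 = true :=
  ⟨(l 5), by decide +kernel⟩

theorem c_mm_102_a : CertFX 536870912 469762048 0 420477299 1046898278 26843546 false false false .npp 1 0 2
    ndF6q1 ndF2q2a pcF0 Cut.none Ext.none :=
  certFX0 (fam := false) (s1 := false) (s2 := false) (a := 1) (b := 0) (c := 2) (cn := .npp) (n1 := ndF6q1) (n2 := ndF2q2a) (pc := pcF0) (cut := Cut.none) (xt := Ext.none) (P1 := 536870912) (W1 := 469762048) (P2 := 0) (W2 := 420477299) (P3 := 1046898278) (W3 := 26843546)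
    rfl k0_mm_102_a

noncomputable def f_mm_102_b : ℕ → ℕ → ℕ → ℕ → Bool := onCell 536870912 469762048 1239849684 370763052 1046898278 26843546
    (rowFX 0 false false false .npp 1 0 2 (qsf 536870912 469762048 1239849684 370763052 0) ndF6q1 ndF2q2b pcF0 Cut.none Ext.none)

def k0_mm_102_b : ∃ t, chk3 f_mm_102_b t 1 1 1 = true :=
  ⟨(l 5), by decide +kernel⟩

theorem c_mm_102_b : CertFX 536870912 469762048 1239849684 370763052 1046898278 26843546 false false false .npp 1 0 2
    ndF6q1 ndF2q2b pcF0 Cut.none Ext.none :=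
  certFX0 (fam := false) (s1 := false) (s2 := false) (a := 1) (b := 0) (c := 2) (cn := .npp) (n1 := ndF6q1) (n2 := ndF2q2b) (pc := pcF0) (cut := Cut.none) (xt := Ext.none) (P1 := 536870912) (W1 := 469762048) (P2 := 1239849684) (W2 := 370763052) (P3 := 1046898278) (W3 := 26843546)
    rfl k0_mm_102_b

noncomputable def f_mm_112_a : ℕ → ℕ → ℕ → ℕ → Bool := onCell 536870912 469762048 0 420477299 1046898278 26843546
    (rowFX 0 false false false .dn 1 1 2 (qsf 536870912 469762048 0 420477299 1) ndF6q1 ndF2q2a pcF1 Cut.none Ext.none)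

def k0_mm_112_a : ∃ t, chk3 f_mm_112_a t 1 1 1 = true :=
  ⟨(l 5), by decide +kernel⟩

theorem c_mm_112_a : CertFX 536870912 469762048 0 420477299 1046898278 26843546 false false false .dn 1 1 2
    ndF6q1 ndF2q2a pcF1 Cut.none Ext.none :=
  certFX0 (fam := false) (s1 := false) (s2 := false) (a := 1) (b := 1) (c := 2) (cn := .dn) (n1 := ndF6q1) (n2 := ndF2q2a) (pc := pcF1) (cut := Cut.none) (xt := Ext.none) (P1 := 536870912) (W1 := 469762048) (P2 := 0) (W2 := 420477299) (P3 := 1046898278) (W3 := 26843546)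
    rfl k0_mm_112_a

noncomputable def f_mm_112_b : ℕ → ℕ → ℕ → ℕ → Bool := onCell 536870912 469762048 1239849684 370763052 1046898278 26843546
    (rowFX 0 false false false .dn 1 1 2 (qsf 536870912 469762048 1239849684 370763052 1) ndF6q1 ndF2q2b pcF1 Cut.none Ext.none)

def k0_mm_112_b : ∃ t, chk3 f_mm_112_b t 1 1 1 = true :=
  ⟨(l 5), by decide +kernel⟩

theorem c_mm_112_b : CertFX 536870912 469762048 1239849684 370763052 1046898278 26843546 false false false .dn 1 1 2
    ndF6q1 ndF2q2b pcF1 Cut.none Ext.none :=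
  certFX0 (fam := false) (s1 := false) (s2 := false) (a := 1) (b := 1) (c := 2) (cn := .dn) (n1 := ndF6q1) (n2 := ndF2q2b) (pc := pcF1) (cut := Cut.none) (xt := Ext.none) (P1 := 536870912) (W1 := 469762048) (P2 := 1239849684) (W2 := 370763052) (P3 := 1046898278) (W3 := 26843546)
    rfl k0_mm_112_b

noncomputable def f_mm_113 : ℕ → ℕ → ℕ → ℕ → Bool := onCell 536870912 469762048 1610612736 469762048 1046898278 26843546
    (rowFX 0 false false false .nn 1 1 3 (qsf 536870912 469762048 1610612736 469762048 1) ndF6q1 ndF2q3 pcF1 Cut.none Ext.none)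

def k0_mm_113 : ∃ t, chk3 f_mm_113 t 1 1 1 = true :=
  ⟨(l 5), by decide +kernel⟩

theorem c_mm_113 : CertFX 536870912 469762048 1610612736 469762048 1046898278 26843546 false false false .nn 1 1 3
    ndF6q1 ndF2q3 pcF1 Cut.none Ext.none :=
  certFX0 (fam := false) (s1 := false) (s2 := false) (a := 1) (b := 1) (c := 3) (cn := .nn) (n1 := ndF6q1) (n2 := ndF2q3) (pc := pcF1) (cut := Cut.none) (xt := Ext.none) (P1 := 536870912) (W1 := 469762048) (P2 := 1610612736) (W2 := 469762048) (P3 := 1046898278) (W3 := 26843546)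
    rfl k0_mm_113

noncomputable def f_mm_123 : ℕ → ℕ → ℕ → ℕ → Bool := onCell 536870912 469762048 1610612736 469762048 1046898278 26843546
    (rowFX 0 false false false .npn 1 2 3 (qsf 536870912 469762048 1610612736 469762048 2) ndF6q1 ndF2q3 pcF2 Cut.none Ext.none)

def k0_mm_123 : ∃ t, chk3 f_mm_123 t 1 1 1 = true :=
  ⟨(l 5), by decide +kernel⟩

theorem c_mm_123 : CertFX 536870912 469762048 1610612736 469762048 1046898278 26843546 false false false .npn 1 2 3
    ndF6q1 ndF2q3 pcF2 Cut.none Ext.none :=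
  certFX0 (fam := false) (s1 := false) (s2 := false) (a := 1) (b := 2) (c := 3) (cn := .npn) (n1 := ndF6q1) (n2 := ndF2q3) (pc := pcF2) (cut := Cut.none) (xt := Ext.none) (P1 := 536870912) (W1 := 469762048) (P2 := 1610612736) (W2 := 469762048) (P3 := 1046898278) (W3 := 26843546)
    rfl k0_mm_123

noncomputable def f_mm_133 : ℕ → ℕ → ℕ → ℕ → Bool := onCell 536870912 469762048 1610612736 469762048 1046898278 26843546
    (rowFX 0 false false false .dn 1 3 3 (qsf 536870912 469762048 1610612736 469762048 3) ndF6q1 ndF2q3 pcF3 Cut.none Ext.none)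

def k0_mm_133 : ∃ t, chk3 f_mm_133 t 1 1 1 = true :=
  ⟨(l 1), by decide +kernel⟩

theorem c_mm_133 : CertFX 536870912 469762048 1610612736 469762048 1046898278 26843546 false false false .dn 1 3 3
    ndF6q1 ndF2q3 pcF3 Cut.none Ext.none :=
  certFX0 (fam := false) (s1 := false) (s2 := false) (a := 1) (b := 3) (c := 3) (cn := .dn) (n1 := ndF6q1) (n2 := ndF2q3) (pc := pcF3) (cut := Cut.none) (xt := Ext.none) (P1 := 536870912) (W1 := 469762048) (P2 := 1610612736) (W2 := 469762048) (P3 := 1046898278) (W3 := 26843546)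
    rfl k0_mm_133

noncomputable def f_mm_202_a : ℕ → ℕ → ℕ → ℕ → Bool := onCell 1073741824 536870912 0 420477299 1046898278 26843546
    (rowFX 0 false false false .pp 2 0 2 (qsf 1073741824 536870912 0 420477299 0) ndF6q2 ndF2q2a pcF0 Cut.none Ext.none)

def k0_mm_202_a : ∃ t, chk3 f_mm_202_a t 1 1 1 = true :=
  ⟨(l 3), by decide +kernel⟩

theorem c_mm_202_a : CertFX 1073741824 536870912 0 420477299 1046898278 26843546 false false false .pp 2 0 2
    ndF6q2 ndF2q2a pcF0 Cut.none Ext.none :=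
  certFX0 (fam := false) (s1 := false) (s2 := false) (a := 2) (b := 0) (c := 2) (cn := .pp) (n1 := ndF6q2) (n2 := ndF2q2a) (pc := pcF0) (cut := Cut.none) (xt := Ext.none) (P1 := 1073741824) (W1 := 536870912) (P2 := 0) (W2 := 420477299) (P3 := 1046898278) (W3 := 26843546)
    rfl k0_mm_202_a

noncomputable def f_mm_202_b : ℕ → ℕ → ℕ → ℕ → Bool := onCell 1073741824 536870912 1239849684 370763052 1046898278 26843546
    (rowFX 0 false false false .pp 2 0 2 (qsf 1073741824 536870912 1239849684 370763052 0) ndF6q2 ndF2q2b pcF0 Cut.none Ext.none)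

def k0_mm_202_b : ∃ t, chk3 f_mm_202_b t 1 1 1 = true :=
  ⟨(l 5), by decide +kernel⟩

theorem c_mm_202_b : CertFX 1073741824 536870912 1239849684 370763052 1046898278 26843546 false false false .pp 2 0 2
    ndF6q2 ndF2q2b pcF0 Cut.none Ext.none :=
  certFX0 (fam := false) (s1 := false) (s2 := false) (a := 2) (b := 0) (c := 2) (cn := .pp) (n1 := ndF6q2) (n2 := ndF2q2b) (pc := pcF0) (cut := Cut.none) (xt := Ext.none) (P1 := 1073741824) (W1 := 536870912) (P2 := 1239849684) (W2 := 370763052) (P3 := 1046898278) (W3 := 26843546)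
    rfl k0_mm_202_b

noncomputable def f_mm_203 : ℕ → ℕ → ℕ → ℕ → Bool := onCell 1073741824 536870912 1610612736 469762048 1046898278 26843546
    (rowFX 0 false false false .up 2 0 3 (qsf 1073741824 536870912 1610612736 469762048 0) ndF6q2 ndF2q3 pcF0 Cut.none Ext.none)

def k0_mm_203 : ∃ t, chk3 f_mm_203 t 1 1 1 = true :=
  ⟨(l 5), by decide +kernel⟩

theorem c_mm_203 : CertFX 1073741824 536870912 1610612736 469762048 1046898278 26843546 false false false .up 2 0 3
    ndF6q2 ndF2q3 pcF0 Cut.none Ext.none :=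
  certFX0 (fam := false) (s1 := false) (s2 := false) (a := 2) (b := 0) (c := 3) (cn := .up) (n1 := ndF6q2) (n2 := ndF2q3) (pc := pcF0) (cut := Cut.none) (xt := Ext.none) (P1 := 1073741824) (W1 := 536870912) (P2 := 1610612736) (W2 := 469762048) (P3 := 1046898278) (W3 := 26843546)
    rfl k0_mm_203

noncomputable def f_mm_213 : ℕ → ℕ → ℕ → ℕ → Bool := onCell 1073741824 536870912 1610612736 469762048 1046898278 26843546
    (rowFX 0 false false false .pnn 2 1 3 (qsf 1073741824 536870912 1610612736 469762048 1) ndF6q2 ndF2q3 pcF1 Cut.none Ext.none)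

def k0_mm_213 : ∃ t, chk3 f_mm_213 t 1 1 1 = true :=
  ⟨(l 5), by decide +kernel⟩

theorem c_mm_213 : CertFX 1073741824 536870912 1610612736 469762048 1046898278 26843546 false false false .pnn 2 1 3
    ndF6q2 ndF2q3 pcF1 Cut.none Ext.none :=
  certFX0 (fam := false) (s1 := false) (s2 := false) (a := 2) (b := 1) (c := 3) (cn := .pnn) (n1 := ndF6q2) (n2 := ndF2q3) (pc := pcF1) (cut := Cut.none) (xt := Ext.none) (P1 := 1073741824) (W1 := 536870912) (P2 := 1610612736) (W2 := 469762048) (P3 := 1046898278) (W3 := 26843546)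
    rfl k0_mm_213

noncomputable def f_mm_303 : ℕ → ℕ → ℕ → ℕ → Bool := onCell 0 1230186008 1610612736 469762048 1046898278 26843546
    (rowFX 0 false false false .npn 3 0 3 (qsf 0 1230186008 1610612736 469762048 0) ndF6q3 ndF2q3 pcF0 Cut.none Ext.none)

def k0_mm_303 : ∃ t, chk3 f_mm_303 t 1 1 1 = true :=
  ⟨(a (l 3) (l 3)), by decide +kernel⟩

theorem c_mm_303 : CertFX 0 1230186008 1610612736 469762048 1046898278 26843546 false false false .npn 3 0 3
    ndF6q3 ndF2q3 pcF0 Cut.none Ext.none :=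
  certFX0 (fam := false) (s1 := false) (s2 := false) (a := 3) (b := 0) (c := 3) (cn := .npn) (n1 := ndF6q3) (n2 := ndF2q3) (pc := pcF0) (cut := Cut.none) (xt := Ext.none) (P1 := 0) (W1 := 1230186008) (P2 := 1610612736) (W2 := 469762048) (P3 := 1046898278) (W3 := 26843546)
    rfl k0_mm_303

noncomputable def f_mm_313 : ℕ → ℕ → ℕ → ℕ → Bool := onCell 0 1230186008 1610612736 469762048 1046898278 26843546
    (rowFX 0 false false false .dn 3 1 3 (qsf 0 1230186008 1610612736 469762048 1) ndF6q3 ndF2q3 pcF1 Cut.none Ext.none)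

def k0_mm_313 : ∃ t, chk3 f_mm_313 t 1 1 1 = true :=
  ⟨(l 1), by decide +kernel⟩

theorem c_mm_313 : CertFX 0 1230186008 1610612736 469762048 1046898278 26843546 false false false .dn 3 1 3
    ndF6q3 ndF2q3 pcF1 Cut.none Ext.none :=
  certFX0 (fam := false) (s1 := false) (s2 := false) (a := 3) (b := 1) (c := 3) (cn := .dn) (n1 := ndF6q3) (n2 := ndF2q3) (pc := pcF1) (cut := Cut.none) (xt := Ext.none) (P1 := 0) (W1 := 1230186008) (P2 := 1610612736) (W2 := 469762048) (P3 := 1046898278) (W3 := 26843546)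
    rfl k0_mm_313

end Pool.Agent.Strip051.G.IE1.Tab.C.FB62

namespace Pool.Agent.Strip051.G.IE1.Tab.C.FB63

open Pool.Agent.Strip051.PB Pool.Agent.Strip051.PB.T
open Pool.Agent.Strip051.G.IE1.Tab

noncomputable def f_pp_001 : ℕ → ℕ → ℕ → ℕ → Bool := onCell 0 536870912 536870912 536870912 1046898278 26843546
    (rowFX 0 false true true .up 0 0 1 (qsf 0 536870912 536870912 536870912 0) ndF6q0 ndF3q1 pcF0 Cut.none Ext.none)

def k0_pp_001 : ∃ t, chk3 f_pp_001 t 1 1 1 = true :=
  ⟨(l 3), by decide +kernel⟩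

theorem c_pp_001 : CertFX 0 536870912 536870912 536870912 1046898278 26843546 false true true .up 0 0 1
    ndF6q0 ndF3q1 pcF0 Cut.none Ext.none :=
  certFX0 (fam := false) (s1 := true) (s2 := true) (a := 0) (b := 0) (c := 1) (cn := .up) (n1 := ndF6q0) (n2 := ndF3q1) (pc := pcF0) (cut := Cut.none) (xt := Ext.none) (P1 := 0) (W1 := 536870912) (P2 := 536870912) (W2 := 536870912) (P3 := 1046898278) (W3 := 26843546)
    rfl k0_pp_001

noncomputable def f_pp_011 : ℕ → ℕ → ℕ → ℕ → Bool := onCell 0 536870912 536870912 536870912 1046898278 26843546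
    (rowFX 0 false true true .pnn 0 1 1 (qsf 0 536870912 536870912 536870912 1) ndF6q0 ndF3q1 pcF1 Cut.none Ext.none)

def k0_pp_011 : ∃ t, chk3 f_pp_011 t 1 1 1 = true :=
  ⟨(l 3), by decide +kernel⟩

theorem c_pp_011 : CertFX 0 536870912 536870912 536870912 1046898278 26843546 false true true .pnn 0 1 1
    ndF6q0 ndF3q1 pcF1 Cut.none Ext.none :=
  certFX0 (fam := false) (s1 := true) (s2 := true) (a := 0) (b := 1) (c := 1) (cn := .pnn) (n1 := ndF6q0) (n2 := ndF3q1) (pc := pcF1) (cut := Cut.none) (xt := Ext.none) (P1 := 0) (W1 := 536870912) (P2 := 536870912) (W2 := 536870912) (P3 := 1046898278) (W3 := 26843546)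
    rfl k0_pp_011

noncomputable def f_pp_012 : ℕ → ℕ → ℕ → ℕ → Bool := onCell 536870912 536870912 1073741824 536870912 1046898278 26843546
    (rowFX 2 false true true .pnp 0 1 2 (qsf 0 536870912 1073741824 536870912 1) ndF6q0 ndF3q2 pcF1 Cut.none Ext.none)

def k0_pp_012 : ∃ t, chk3 f_pp_012 t 2 1 1 = true :=
  ⟨(b (b (b (a (b (c (l 15903376) (l 15838904)) (l 16021456)) (b (b (l 15825584) (l 15930616)) (l 16021456))) (a (l 16000440) (l 16000440))) (b (a (l 15886640) (l 15802752)) (a (l 2) (l 16667800)))) (l 291084697559)), by decide +kernel⟩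

def k1_pp_012 : ∃ t, chk3 f_pp_012 t 3 2 1 = true :=
  ⟨(a (b (b (a (b (b (l 15807760) (l 15923864)) (l 16017976)) (b (a (l 15786160) (b (l 15600648) (l 15826032))) (a (l 15991520) (l 15971584)))) (a (l 15996984) (b (l 16038792) (l 15954448)))) (b (a (l 15967104) (b (l 15810368) (l 16088800))) (a (l 16664416) (l 16439656)))) (b (b (a (b (a (b (l 15714752) (l 15896872)) (b (c (l 15831880) (l 15732064)) (l 15997488))) (l 16009712)) (b (a (b (c (a (l 15892472) (l 15961864)) (a (l 15787376) (l 15855576))) (c (l 16122704) (l 16060888))) (a (c (b (b (c (l 16050032) (l 15966040)) (l 16123856)) (l 16122104)) (b (b (l 15847408) (l 16040952)) (l 16037264))) (b (c (b (a (c (b (l 16028544) (l 16085968)) (b (a (l 16034352) (l 16018432)) (l 16082128))) (b (a (l 16025736) (l 16025584)) (a (c (l 16065944) (l 16064944)) (l 16037496)))) (a (c (l 16153200) (l 16109632)) (c (b (l 16087616) (l 16136552)) (b (a (l 16102992) (l 16082576)) (l 16106016))))) (b (a (c (l 15994256) (l 15997776)) (c (b (a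 (c (l 16015592) (l 16009048)) (l 15878680)) (a (l 16045208) (c (l 16042160) (l 16025648)))) (b (a (l 15991520) (c (b (l 15984456) (l 15997976)) (l 15869056))) (l 15995368)))) (c (a (l 16047848) (l 16043440)) (l 15999112)))) (c (a (l 16126176) (b (l 16001528) (l 16125688))) (l 16023360))))) (a (b (a (l 16098824) (l 16081088)) (l 16095080)) (c (b (a (l 16091208) (l 16090328)) (l 16032640)) (a (l 16046344) (l 16033680)))))) (a (b (l 16158896) (l 16028176)) (a (l 15732952) (b (a (l 15984056) (b (l 16007640) (l 15919296))) (l 15796032))))) (b (a (b (l 15881072) (l 16102672)) (b (a (l 15676432) (l 15579928)) (l 15827776))) (a (l 16446424) (b (l 16209736) (l 16412168)))))), by decide +kernel⟩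

def k2_pp_012 : ∃ t, chk3 f_pp_012 t 3 3 1 = true :=
  ⟨(b (a (l 16764336) (a (l 16647608) (a (l 16490336) (l 16373120)))) (a (l 16763704) (a (l 16638712) (b (l 16390376) (l 16270848))))), by decide +kernel⟩

theorem s3_pp_012 : ∃ t, chk3 f_pp_012 t 3 1 1 = true := ex3_b k1_pp_012 k2_pp_012

theorem s4_pp_012 : ∃ t, chk3 f_pp_012 t 1 1 1 = true := ex3_a k0_pp_012 s3_pp_012

theorem c_pp_012 : CertFX 0 536870912 1073741824 536870912 1046898278 26843546 false true true .pnp 0 1 2
    ndF6q0 ndF3q2 pcF1 Cut.none Ext.none :=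
  certFX2 (fam := false) (s1 := true) (s2 := true) (a := 0) (b := 1) (c := 2) (cn := .pnp) (n1 := ndF6q0) (n2 := ndF3q2) (pc := pcF1) (cut := Cut.none) (xt := Ext.none) (P1 := 0) (W1 := 536870912) (P2 := 1073741824) (W2 := 536870912) (P3 := 1046898278) (W3 := 26843546)
    rfl (fun _ => rfl) s4_pp_012

noncomputable def f_pp_022 : ℕ → ℕ → ℕ → ℕ → Bool := onCell 0 536870912 1073741824 536870912 1046898278 26843546
    (rowFX 1 false true true .pp 0 2 2 (qsf 0 536870912 1073741824 536870912 2) ndF6q0 ndF3q2 pcF2 Cut.none Ext.none)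

def k0_pp_022 : ∃ t, chk3 f_pp_022 t 4 4 1 = true :=
  ⟨(a (a (b (a (c (b (a (b (b (l 15712312) (l 15730016)) (l 15714624)) (a (b (c (l 15736120) (l 15700848)) (l 15697576)) (c (l 15722888) (l 15702712)))) (a (l 15656144) (c (a (l 15661400) (l 15659104)) (a (l 15645408) (l 15653792))))) (a (b (c (a (b (l 15659632) (l 15641928)) (b (c (l 15666416) (l 15650248)) (l 15636920))) (a (a (c (l 15625000) (a (l 15587656) (l 15608296))) (c (l 15603784) (l 15611944))) (c (l 15628976) (l 15610352)))) (c (a (l 15634984) (l 15631912)) (a (c (l 15621840) (l 15613112)) (l 15618408)))) (b (c (b (a (l 15666392) (l 15662816)) (l 15643648)) (l 15615728)) (c (l 15628968) (l 15602968))))) (c (b (a (c (l 15622976) (b (l 15709832) (l 15682256))) (b (l 15723128) (l 15697632))) (a (c (l 15665272) (l 15637760)) (l 15618488))) (b (b (c (l 15637320) (l 15607592)) (l 15623424)) (l 15567808)))) (a (c (b (a (l 15537216) (c (l 15495032) (l 15465824))) (a (l 15135288) (l 15070608))) (a (b (a (b (l 15514440) (l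 15255792)) (c (l 15498648) (l 15483504))) (c (l 15099888) (a (l 15092504) (l 15062928)))) (b (c (l 15471736) (l 15444640)) (l 15028696)))) (b (c (a (l 15355448) (l 15407200)) (l 15201816)) (c (l 14747728) (l 14932752))))) (b (b (c (a (b (l 15677560) (l 15642528)) (b (l 15609144) (l 15539944))) (a (l 15591384) (l 15530352))) (c (a (l 15520376) (l 15394952)) (a (l 15469000) (l 15354832)))) (b (a (c (l 15294288) (l 15238536)) (b (l 15205576) (l 15054064))) (a (b (l 14953744) (l 14866240)) (l 14742800))))) (b (a (b (a (c (l 15456664) (l 15422256)) (l 15314720)) (a (l 15002816) (l 15092704))) (b (b (l 15162920) (l 15051224)) (b (l 15036832) (l 15134872)))) (a (b (a (b (l 15074984) (l 15062688)) (l 15154152)) (l 15240360)) (b (l 15407992) (l 15484912))))), by decide +kernel⟩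

def k1_pp_022 : ∃ t, chk3 f_pp_022 t 5 4 1 = true :=
  ⟨(b (a (b (a (b (l 14994568) (l 15087520)) (l 15319224)) (a (l 15381288) (l 15625440))) (b (a (l 15546392) (l 15591184)) (l 15628784))) (a (b (a (l 15669184) (l 15712152)) (l 15507944)) (b (l 15629080) (l 15399920)))), by decide +kernel⟩

def k2_pp_022 : ∃ t, chk3 f_pp_022 t 3 4 1 = true :=
  ⟨(b (a (a (l 15563952) (l 15501760)) (l 15325096)) (a (b (l 15531408) (l 15317872)) (l 15263688))), by decide +kernel⟩

def k3_pp_022 : ∃ t, chk3 f_pp_022 t 1 5 1 = true :=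
  ⟨(a (a (b (a (a (b (b (a (c (a (l 14787816) (l 14743704)) (a (c (l 14745912) (l 14717888)) (l 14693224))) (c (l 14807304) (l 14737088))) (a (c (a (l 14920888) (l 14980888)) (a (c (l 14881840) (l 14792800)) (l 14936672))) (c (l 15136544) (l 15076008)))) (a (c (a (l 15730984) (b (l 15547184) (l 16085616))) (a (b (l 15208592) (l 15767128)) (l 15630640))) (c (b (l 15695672) (l 16225600)) (l 15801840)))) (b (b (l 14997776) (l 15369016)) (b (l 15661784) (l 16279584)))) (b (b (a (l 15323728) (l 15392752)) (a (l 15563744) (l 15527464))) (a (l 16106368) (l 16029240)))) (a (b (a (a (c (a (l 16461568) (l 16416560)) (a (b (l 16379760) (l 16210968)) (l 16408016))) (c (l 16377016) (l 16396544))) (l 16448664)) (a (a (c (l 15992128) (a (l 15961704) (l 15991576))) (l 15979760)) (l 16175872))) (b (a (l 16585528) (l 16618816)) (l 16402248)))) (b (b (b (l 15269928) (l 15403928)) (l 15734592)) (b (l 16423104) (l 16667192)))) (b (b (a (l 15261384) (l 15243336)) (l 15729328)) (b (l 16164344) (l 16387720)))),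 by decide +kernel⟩

def k4_pp_022 : ∃ t, chk3 f_pp_022 t 1 3 1 = true :=
  ⟨(a (a (b (a (a (b (a (c (l 15994744) (a (l 15963440) (l 15994560))) (l 15817184)) (a (c (l 15992608) (l 15979400)) (l 16043696))) (b (l 16182528) (l 16174208))) (b (l 16433168) (l 16399016))) (a (a (b (c (l 15897560) (l 15972336)) (l 16227672)) (b (l 16172408) (l 16172408))) (b (l 16396768) (l 16396768)))) (b (b (l 16698200) (l 16676064)) (b (l 16673864) (l 2)))) (b (b (a (l 16589544) (l 2)) (l 2)) (l 2))), by decide +kernel⟩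

theorem s5_pp_022 : ∃ t, chk3 f_pp_022 t 2 4 1 = true := ex3_a k0_pp_022 k1_pp_022

theorem s6_pp_022 : ∃ t, chk3 f_pp_022 t 1 4 1 = true := ex3_a s5_pp_022 k2_pp_022

theorem s7_pp_022 : ∃ t, chk3 f_pp_022 t 1 2 1 = true := ex3_b s6_pp_022 k3_pp_022

theorem s8_pp_022 : ∃ t, chk3 f_pp_022 t 1 1 1 = true := ex3_b s7_pp_022 k4_pp_022

theorem c_pp_022 : CertFX 0 536870912 1073741824 536870912 1046898278 26843546 false true true .pp 0 2 2
    ndF6q0 ndF3q2 pcF2 Cut.none Ext.none :=
  certFX1 (fam := false) (s1 := true) (s2 := true) (a := 0) (b := 2) (c := 2) (cn := .pp) (n1 := ndF6q0) (n2 := ndF3q2) (pc := pcF2) (cut := Cut.none) (xt := Ext.none) (P1 := 0) (W1 := 536870912) (P2 := 1073741824) (W2 := 536870912) (P3 := 1046898278) (W3 := 26843546)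
    rfl (fun _ => rfl) s8_pp_022

noncomputable def f_pp_023 : ℕ → ℕ → ℕ → ℕ → Bool := onCell 1073741824 536870912 1610612736 536870912 1046898278 26843546
    (rowFX 2 false true true .up 0 2 3 (qsf 0 536870912 1610612736 536870912 2) ndF6q0 ndF3q3 pcF2 Cut.none Ext.none)

def k0_pp_023 : ∃ t, chk3 f_pp_023 t 1 1 1 = true :=
  ⟨(a (a (b (a (b (l 15159312) (l 2)) (b (l 15230800) (l 15066864))) (l 2)) (b (a (a (l 15236064) (l 15689384)) (a (l 16113864) (l 16371720))) (a (l 2) (b (l 16017392) (l 2))))) (b (a (a (l 16571920) (b (l 16701944) (l 16768672))) (b (a (b (l 16491960) (l 16673864)) (b (a (l 16317736) (b (l 16107864) (l 16251760))) (l 16491960))) (a (l 16770576) (l 16700064)))) (b (a (a (l 16472784) (l 16767592)) (l 4)) (l 4)))), by decide +kernel⟩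

theorem c_pp_023 : CertFX 0 536870912 1610612736 536870912 1046898278 26843546 false true true .up 0 2 3
    ndF6q0 ndF3q3 pcF2 Cut.none Ext.none :=
  certFX2 (fam := false) (s1 := true) (s2 := true) (a := 0) (b := 2) (c := 3) (cn := .up) (n1 := ndF6q0) (n2 := ndF3q3) (pc := pcF2) (cut := Cut.none) (xt := Ext.none) (P1 := 0) (W1 := 536870912) (P2 := 1610612736) (W2 := 536870912) (P3 := 1046898278) (W3 := 26843546)
    rfl (fun _ => rfl) k0_pp_023

noncomputable def f_pp_033 : ℕ → ℕ → ℕ → ℕ → Bool := onCell 0 536870912 1610612736 536870912 1046898278 26843546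
    (rowFX 0 false true true .pnn 0 3 3 (qsf 0 536870912 1610612736 536870912 3) ndF6q0 ndF3q3 pcF3 Cut.none Ext.none)

def k0_pp_033 : ∃ t, chk3 f_pp_033 t 1 1 1 = true :=
  ⟨(a (b (a (b (a (b (a (a (l 15857728) (l 16042264)) (l 16172408)) (a (c (l 16023392) (l 16014280)) (l 16172408))) (b (l 16396768) (l 16187048))) (l 4)) (b (a (l 710313242327) (l 1)) (b (a (l 16604624) (l 16755744)) (l 4)))) (l 4)) (b (b (l 1) (a (c (l 16777216) (l 358126452743)) (l 1))) (b (a (l 4) (b (l 1) (l 4))) (l 4)))), by decide +kernel⟩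

theorem c_pp_033 : CertFX 0 536870912 1610612736 536870912 1046898278 26843546 false true true .pnn 0 3 3
    ndF6q0 ndF3q3 pcF3 Cut.none Ext.none :=
  certFX0 (fam := false) (s1 := true) (s2 := true) (a := 0) (b := 3) (c := 3) (cn := .pnn) (n1 := ndF6q0) (n2 := ndF3q3) (pc := pcF3) (cut := Cut.none) (xt := Ext.none) (P1 := 0) (W1 := 536870912) (P2 := 1610612736) (W2 := 536870912) (P3 := 1046898278) (W3 := 26843546)
    rfl k0_pp_033

noncomputable def f_pp_101 : ℕ → ℕ → ℕ → ℕ → Bool := onCell 536870912 469762048 536870912 536870912 1046898278 26843546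
    (rowFX 0 false true true .npn 1 0 1 (qsf 536870912 469762048 536870912 536870912 0) ndF6q1 ndF3q1 pcF0 Cut.none Ext.none)

def k0_pp_101 : ∃ t, chk3 f_pp_101 t 1 1 1 = true :=
  ⟨(l 3), by decide +kernel⟩

theorem c_pp_101 : CertFX 536870912 469762048 536870912 536870912 1046898278 26843546 false true true .npn 1 0 1
    ndF6q1 ndF3q1 pcF0 Cut.none Ext.none :=
  certFX0 (fam := false) (s1 := true) (s2 := true) (a := 1) (b := 0) (c := 1) (cn := .npn) (n1 := ndF6q1) (n2 := ndF3q1) (pc := pcF0) (cut := Cut.none) (xt := Ext.none) (P1 := 536870912) (W1 := 469762048) (P2 := 536870912) (W2 := 536870912) (P3 := 1046898278) (W3 := 26843546)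
    rfl k0_pp_101

noncomputable def f_pp_102 : ℕ → ℕ → ℕ → ℕ → Bool := onCell 536870912 469762048 1073741824 536870912 1046898278 26843546
    (rowFX 0 false true true .npp 1 0 2 (qsf 536870912 469762048 1073741824 536870912 0) ndF6q1 ndF3q2 pcF0 Cut.none Ext.none)

def k0_pp_102 : ∃ t, chk3 f_pp_102 t 2 2 1 = true :=
  ⟨(b (b (b (a (b (l 15825584) (l 15930616)) (b (l 15657808) (l 15930616))) (a (l 16021456) (l 16021456))) (a (l 16000440) (l 16000440))) (b (b (l 15828440) (l 16106936)) (b (l 16553112) (l 16776904)))), by decide +kernel⟩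

def k1_pp_102 : ∃ t, chk3 f_pp_102 t 6 4 1 = true :=
  ⟨(b (a (b (b (l 15825584) (l 15930616)) (l 16021456)) (b (a (b (a (b (a (l 15795864) (l 15840080)) (l 15892632)) (b (l 15936008) (l 16050728))) (a (l 15958208) (l 16138808))) (b (c (l 16125856) (l 15971288)) (a (l 16160888) (l 16430072)))) (a (l 15985976) (b (l 16261768) (l 16543320))))) (a (l 16000440) (b (l 16148208) (l 16096104)))), by decide +kernel⟩

def k2_pp_102 : ∃ t, chk3 f_pp_102 t 7 8 1 = true :=
  ⟨(b (a (a (b (a (b (l 16274744) (l 16354000)) (c (l 16295248) (b (l 16290864) (l 16478160)))) (a (l 16519016) (l 16472400))) (b (b (c (l 16428000) (l 16359864)) (c (l 16541576) (l 16467456))) (c (l 16599096) (l 16554032)))) (a (b (c (a (l 16432424) (b (c (l 16414976) (l 16386616)) (a (l 16567736) (l 16533904)))) (b (a (l 16418392) (a (l 16326152) (l 16360008))) (a (l 16500264) (c (l 16525536) (l 16516024))))) (a (l 16545720) (c (b (l 16629312) (l 16512112)) (b (l 16592480) (l 16619624))))) (a (c (b (b (c (l 16506688) (l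 16487376)) (c (l 16551208) (l 16536144))) (a (b (l 16454448) (l 16503240)) (c (l 16389880) (l 16482112)))) (b (b (l 16376728) (b (l 16592664) (l 16535736))) (b (l 16479184) (l 16490184)))) (b (c (b (a (c (l 16573888) (l 16523984)) (c (l 16520160) (l 16463632))) (c (a (l 16601888) (l 16497744)) (b (l 16584808) (l 16602384)))) (b (b (a (l 16506688) (l 16466880)) (l 16500224)) (c (l 16608776) (l 16558816)))) (c (c (a (l 16353864) (l 16348944)) (b (l 16472720) (l 16411472))) (b (c (l 16577880) (l 16589976)) (l 16380416))))))) (a (a (b (l 16402760) (a (l 16341984) (l 16211400))) (b (l 16431384) (l 16237056))) (a (c (b (a (l 16479144) (c (l 16452072) (l 16479552))) (a (l 16296528) (l 16171296))) (b (a (l 16498200) (l 16486296)) (a (l 16293160) (l 16296696)))) (c (a (b (c (l 16347080) (l 16365944)) (l 16058176)) (b (c (l 16074360) (b (l 16338984) (l 16250688))) (c (l 16083264) (l 16114216)))) (b (a (l 16395008) (b (l 16354640) (l 16254992))) (a (l 16211848) (l 16112800))))))), by decide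 +kernel⟩

def k3_pp_102 : ∃ t, chk3 f_pp_102 t 7 9 1 = true :=
  ⟨(a (a (b (l 16034496) (l 16237032)) (b (l 16002056) (l 15986776))) (a (b (c (a (l 16074832) (l 16078840)) (a (l 16060128) (l 16067080))) (a (b (l 15900264) (a (l 15902016) (l 15868896))) (c (l 15788424) (l 15855808)))) (a (b (c (l 16003032) (l 15998984)) (c (l 15791136) (l 15782304))) (b (c (b (l 15964384) (l 15858144)) (l 15726072)) (c (l 15707648) (l 15709360)))))), by decide +kernel⟩

def k4_pp_102 : ∃ t, chk3 f_pp_102 t 3 5 1 = true :=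
  ⟨(a (b (a (l 15781784) (b (l 16050792) (l 16301792))) (a (l 16667800) (b (l 16351056) (l 16367376)))) (b (a (b (a (l 16314880) (l 16070400)) (a (l 16131848) (l 15870632))) (a (b (b (a (l 15935336) (c (l 15835832) (l 15819456))) (c (l 15919608) (l 15905224))) (b (l 15769768) (l 15593288))) (b (c (b (l 15394816) (a (l 15637496) (l 15523424))) (b (l 15643936) (a (l 15669192) (l 15521536)))) (c (a (l 15434400) (b (l 15325224) (l 15131960))) (a (l 15416264) (b (l 15317216) (l 15117696))))))) (a (b (l 15608456) (l 15572376)) (a (b (l 15346440) (l 15182376)) (b (c (l 14740728) (l 14947600)) (l 14527672)))))), by decide +kernel⟩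

def k5_pp_102 : ∃ t, chk3 f_pp_102 t 1 3 1 = true :=
  ⟨(a (l 2) (b (a (a (l 16777216) (a (l 16649800) (l 16203696))) (a (a (l 15723360) (l 15417160)) (a (c (l 15201816) (l 15162240)) (c (l 14752840) (l 14764784))))) (a (l 2) (a (l 15530240) (a (l 15182144) (c (l 14794776) (l 14764784))))))), by decide +kernel⟩

theorem s6_pp_102 : ∃ t, chk3 f_pp_102 t 7 4 1 = true := ex3_b k2_pp_102 k3_pp_102

theorem s7_pp_102 : ∃ t, chk3 f_pp_102 t 3 4 1 = true := ex3_a k1_pp_102 s6_pp_102

theorem s8_pp_102 : ∃ t, chk3 f_pp_102 t 3 2 1 = true := ex3_b s7_pp_102 k4_pp_102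

theorem s9_pp_102 : ∃ t, chk3 f_pp_102 t 1 2 1 = true := ex3_a k0_pp_102 s8_pp_102

theorem s10_pp_102 : ∃ t, chk3 f_pp_102 t 1 1 1 = true := ex3_b s9_pp_102 k5_pp_102

theorem c_pp_102 : CertFX 536870912 469762048 1073741824 536870912 1046898278 26843546 false true true .npp 1 0 2
    ndF6q1 ndF3q2 pcF0 Cut.none Ext.none :=
  certFX0 (fam := false) (s1 := true) (s2 := true) (a := 1) (b := 0) (c := 2) (cn := .npp) (n1 := ndF6q1) (n2 := ndF3q2) (pc := pcF0) (cut := Cut.none) (xt := Ext.none) (P1 := 536870912) (W1 := 469762048) (P2 := 1073741824) (W2 := 536870912) (P3 := 1046898278) (W3 := 26843546)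
    rfl s10_pp_102

noncomputable def f_pp_112 : ℕ → ℕ → ℕ → ℕ → Bool := onCell 536870912 469762048 1073741824 536870912 1046898278 26843546
    (rowFX 0 false true true .dn 1 1 2 (qsf 536870912 469762048 1073741824 536870912 1) ndF6q1 ndF3q2 pcF1 Cut.none Ext.none)

def k0_pp_112 : ∃ t, chk3 f_pp_112 t 1 1 1 = true :=
  ⟨(b (a (a (b (b (b (l 15825520) (l 16021456)) (l 16000440)) (b (l 15823728) (l 16667800))) (b (b (l 1) (l 16000440)) (b (l 15739840) (l 16646832)))) (a (b (l 1) (b (l 1) (a (l 16667800) (l 1)))) (l 1))) (a (b (a (b (l 16775992) (l 16766264)) (l 16777216)) (a (b (a (l 16720408) (l 16766760)) (a (b (l 16554112) (l 16315848)) (l 16684672))) (b (l 16774648) (a (l 16771968) (l 16772168))))) (a (b (a (l 16777216) (a (l 16649800) (l 16203696))) (a (l 16777216) (l 16304312))) (b (a (l 393557019543) (l 1)) (a (l 15509264) (a (l 15182144) (l 397850400647))))))), by decide +kernel⟩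

theorem c_pp_112 : CertFX 536870912 469762048 1073741824 536870912 1046898278 26843546 false true true .dn 1 1 2
    ndF6q1 ndF3q2 pcF1 Cut.none Ext.none :=
  certFX0 (fam := false) (s1 := true) (s2 := true) (a := 1) (b := 1) (c := 2) (cn := .dn) (n1 := ndF6q1) (n2 := ndF3q2) (pc := pcF1) (cut := Cut.none) (xt := Ext.none) (P1 := 536870912) (W1 := 469762048) (P2 := 1073741824) (W2 := 536870912) (P3 := 1046898278) (W3 := 26843546)
    rfl k0_pp_112

noncomputable def f_pp_113 : ℕ → ℕ → ℕ → ℕ → Bool := onCell 536870912 469762048 536870912 536870912 1046898278 26843546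
    (rowFX 1 false true true .nn 1 1 3 (qsf 536870912 469762048 1610612736 536870912 1) ndF6q1 ndF3q3 pcF1 Cut.none Ext.none)

def k0_pp_113 : ∃ t, chk3 f_pp_113 t 1 1 1 = true :=
  ⟨(b (a (l 1) (a (b (l 1) (l 500396405031)) (a (b (l 15572176) (l 15572176)) (b (a (l 15182144) (l 14779080)) (a (l 15182144) (l 14779080)))))) (b (a (l 481607250167) (a (b (l 16611976) (a (l 16773960) (l 16431280))) (a (b (l 15574832) (l 15565928)) (b (l 14955104) (l 14938336))))) (a (b (a (l 16610480) (l 16463344)) (a (l 16132784) (l 15854712))) (a (b (l 16214368) (b (l 15608984) (l 15083968))) (b (a (l 15100272) (l 14421264)) (a (l 14110440) (b (l 13760016) (l 13226944)))))))), by decide +kernel⟩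

theorem c_pp_113 : CertFX 536870912 469762048 1610612736 536870912 1046898278 26843546 false true true .nn 1 1 3
    ndF6q1 ndF3q3 pcF1 Cut.none Ext.none :=
  certFX1 (fam := false) (s1 := true) (s2 := true) (a := 1) (b := 1) (c := 3) (cn := .nn) (n1 := ndF6q1) (n2 := ndF3q3) (pc := pcF1) (cut := Cut.none) (xt := Ext.none) (P1 := 536870912) (W1 := 469762048) (P2 := 1610612736) (W2 := 536870912) (P3 := 1046898278) (W3 := 26843546)
    rfl (fun _ => rfl) k0_pp_113

noncomputable def f_pp_123 : ℕ → ℕ → ℕ → ℕ → Bool := onCell 1073741824 536870912 1610612736 536870912 1046898278 26843546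
    (rowFX 2 false true true .npn 1 2 3 (qsf 536870912 469762048 1610612736 536870912 2) ndF6q1 ndF3q3 pcF2 Cut.none Ext.none)

def k0_pp_123 : ∃ t, chk3 f_pp_123 t 1 1 1 = true :=
  ⟨(a (b (a (a (b (l 15159312) (l 14901576)) (b (l 15230800) (l 15066864))) (a (b (l 15387312) (l 15448448)) (l 568041418119))) (a (b (a (b (l 14636040) (l 14163696)) (a (l 14803648) (l 14954440))) (a (b (a (l 13423872) (l 14179832)) (a (b (l 14529608) (l 15030936)) (c (l 14810168) (l 14427616)))) (b (a (l 14628832) (l 14922592)) (a (b (l 15040776) (l 4)) (l 4))))) (a (b (l 15398120) (b (a (l 15234680) (l 15558648)) (l 4))) (b (l 16017392) (l 4))))) (b (a (a (l 16571448) (l 1)) (l 1)) (b (a (a (l 16472784) (l 16767592)) (l 4)) (l 4)))), by decide +kernel⟩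

theorem c_pp_123 : CertFX 536870912 469762048 1610612736 536870912 1046898278 26843546 false true true .npn 1 2 3
    ndF6q1 ndF3q3 pcF2 Cut.none Ext.none :=
  certFX2 (fam := false) (s1 := true) (s2 := true) (a := 1) (b := 2) (c := 3) (cn := .npn) (n1 := ndF6q1) (n2 := ndF3q3) (pc := pcF2) (cut := Cut.none) (xt := Ext.none) (P1 := 536870912) (W1 := 469762048) (P2 := 1610612736) (W2 := 536870912) (P3 := 1046898278) (W3 := 26843546)
    rfl (fun _ => rfl) k0_pp_123

noncomputable def f_pp_133 : ℕ → ℕ → ℕ → ℕ → Bool := onCell 1610612736 536870912 1610612736 536870912 1046898278 26843546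
    (rowFX 2 false true true .dn 1 3 3 (qsf 536870912 469762048 1610612736 536870912 3) ndF6q1 ndF3q3 pcF3 Cut.none Ext.none)

def k0_pp_133 : ∃ t, chk3 f_pp_133 t 1 1 1 = true :=
  ⟨(a (b (l 1) (l 4)) (l 1)), by decide +kernel⟩

theorem c_pp_133 : CertFX 536870912 469762048 1610612736 536870912 1046898278 26843546 false true true .dn 1 3 3
    ndF6q1 ndF3q3 pcF3 Cut.none Ext.none :=
  certFX2 (fam := false) (s1 := true) (s2 := true) (a := 1) (b := 3) (c := 3) (cn := .dn) (n1 := ndF6q1) (n2 := ndF3q3) (pc := pcF3) (cut := Cut.none) (xt := Ext.none) (P1 := 536870912) (W1 := 469762048) (P2 := 1610612736) (W2 := 536870912) (P3 := 1046898278) (W3 := 26843546)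
    rfl (fun _ => rfl) k0_pp_133

noncomputable def f_pp_202 : ℕ → ℕ → ℕ → ℕ → Bool := onCell 1073741824 536870912 1073741824 536870912 1046898278 26843546
    (rowFX 0 false true true .pp 2 0 2 (qsf 1073741824 536870912 1073741824 536870912 0) ndF6q2 ndF3q2 pcF0 Cut.none Ext.none)

def k0_pp_202 : ∃ t, chk3 f_pp_202 t 1 1 1 = true :=
  ⟨(l 3), by decide +kernel⟩

theorem c_pp_202 : CertFX 1073741824 536870912 1073741824 536870912 1046898278 26843546 false true true .pp 2 0 2
    ndF6q2 ndF3q2 pcF0 Cut.none Ext.none :=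
  certFX0 (fam := false) (s1 := true) (s2 := true) (a := 2) (b := 0) (c := 2) (cn := .pp) (n1 := ndF6q2) (n2 := ndF3q2) (pc := pcF0) (cut := Cut.none) (xt := Ext.none) (P1 := 1073741824) (W1 := 536870912) (P2 := 1073741824) (W2 := 536870912) (P3 := 1046898278) (W3 := 26843546)
    rfl k0_pp_202

noncomputable def f_pp_203 : ℕ → ℕ → ℕ → ℕ → Bool := onCell 1073741824 536870912 0 536870912 1046898278 26843546
    (rowFX 1 false true true .up 2 0 3 (qsf 1073741824 536870912 1610612736 536870912 0) ndF6q2 ndF3q3 pcF0 Cut.none Ext.none)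

def k0_pp_203 : ∃ t, chk3 f_pp_203 t 1 1 1 = true :=
  ⟨(b (l 3) (a (l 3) (l 3))), by decide +kernel⟩

theorem c_pp_203 : CertFX 1073741824 536870912 1610612736 536870912 1046898278 26843546 false true true .up 2 0 3
    ndF6q2 ndF3q3 pcF0 Cut.none Ext.none :=
  certFX1 (fam := false) (s1 := true) (s2 := true) (a := 2) (b := 0) (c := 3) (cn := .up) (n1 := ndF6q2) (n2 := ndF3q3) (pc := pcF0) (cut := Cut.none) (xt := Ext.none) (P1 := 1073741824) (W1 := 536870912) (P2 := 1610612736) (W2 := 536870912) (P3 := 1046898278) (W3 := 26843546)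
    rfl (fun _ => rfl) k0_pp_203

noncomputable def f_pp_213 : ℕ → ℕ → ℕ → ℕ → Bool := onCell 536870912 536870912 1610612736 536870912 1046898278 26843546
    (rowFX 2 false true true .pnn 2 1 3 (qsf 1073741824 536870912 1610612736 536870912 1) ndF6q2 ndF3q3 pcF1 Cut.none Ext.none)

def k0_pp_213 : ∃ t, chk3 f_pp_213 t 2 1 1 = true :=
  ⟨(b (a (l 3) (b (a (l 3) (l 1)) (a (b (l 3) (a (l 3) (c (b (l 15576952) (l 60294799143)) (b (l 240146433927) (a (l 290612374647) (l 15596936)))))) (a (b (c (l 273297887111) (l 372082019079)) (c (l 15543464) (b (l 15476208) (l 15545776)))) (b (l 1) (l 325374400487)))))) (b (a (a (l 3) (b (l 3) (b (l 3) (l 720648487191)))) (a (b (a (b (l 3) (a (l 3) (b (a (l 3) (l 15229440)) (l 15519592)))) (b (a (l 15428176) (b (l 15563848) (l 15538848))) (a (b (l 15274952) (a (l 15293864) (l 15229416))) (l 15338304)))) (a (b (a (l 16236320) (l 15948504)) (a (l 16639992) (l 16406312))) (b (a (l 15687384) (b (l 15260440) (l 15519552))) (l 16041952)))) (b (a (b (a (l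 15621680) (l 15611880)) (a (l 15470096) (l 15573224))) (b (l 15561360) (l 15610824))) (a (b (a (b (l 15274912) (l 15281400)) (l 15338264)) (b (l 15189040) (l 15687416))) (b (l 15511992) (l 15172552)))))) (a (c (a (l 636359955463) (b (l 16750808) (l 16727152))) (a (l 692194527335) (b (l 16750120) (l 16725768)))) (a (b (b (a (l 16775344) (b (l 16511232) (l 16721112))) (l 16733888)) (c (l 16727152) (l 16725768))) (b (b (a (l 16166376) (l 15361744)) (a (l 16546344) (l 16131848))) (b (a (l 16732144) (l 16588576)) (l 16770568))))))), by decide +kernel⟩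

def k1_pp_213 : ∃ t, chk3 f_pp_213 t 3 1 1 = true :=
  ⟨(a (b (a (b (l 1) (b (l 1) (a (l 335038048311) (l 1)))) (l 1)) (b (a (a (b (l 15527432) (b (l 15610792) (l 15512008))) (b (l 15465248) (l 15587128))) (a (l 423084689527) (l 513816111879))) (a (b (a (b (l 15338960) (l 15538160)) (b (l 15510456) (l 15303800))) (b (a (l 16135016) (l 15537696)) (a (l 16624736) (l 16160240)))) (b (a (l 15515480) (l 15565680)) (b (a (l 15299008) (l 15476128)) (a (l 15552848) (l 15324256))))))) (b (l 1) (b (a (b (l 1) (l 15371384)) (l 1)) (a (b (l 15497608) (b (l 15593400) (l 15667760))) (b (l 15411952) (l 15635720)))))), by decide +kernel⟩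

theorem s2_pp_213 : ∃ t, chk3 f_pp_213 t 1 1 1 = true := ex3_a k0_pp_213 k1_pp_213

theorem c_pp_213 : CertFX 1073741824 536870912 1610612736 536870912 1046898278 26843546 false true true .pnn 2 1 3
    ndF6q2 ndF3q3 pcF1 Cut.none Ext.none :=
  certFX2 (fam := false) (s1 := true) (s2 := true) (a := 2) (b := 1) (c := 3) (cn := .pnn) (n1 := ndF6q2) (n2 := ndF3q3) (pc := pcF1) (cut := Cut.none) (xt := Ext.none) (P1 := 1073741824) (W1 := 536870912) (P2 := 1610612736) (W2 := 536870912) (P3 := 1046898278) (W3 := 26843546)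
    rfl (fun _ => rfl) s2_pp_213

noncomputable def f_pp_303 : ℕ → ℕ → ℕ → ℕ → Bool := onCell 0 1230186008 1610612736 536870912 1046898278 26843546
    (rowFX 0 false true true .npn 3 0 3 (qsf 0 1230186008 1610612736 536870912 0) ndF6q3 ndF3q3 pcF0 Cut.none Ext.none)

def k0_pp_303 : ∃ t, chk3 f_pp_303 t 1 1 1 = true :=
  ⟨(a (l 3) (a (l 3) (b (l 3) (l 3)))), by decide +kernel⟩

theorem c_pp_303 : CertFX 0 1230186008 1610612736 536870912 1046898278 26843546 false true true .npn 3 0 3
    ndF6q3 ndF3q3 pcF0 Cut.none Ext.none :=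
  certFX0 (fam := false) (s1 := true) (s2 := true) (a := 3) (b := 0) (c := 3) (cn := .npn) (n1 := ndF6q3) (n2 := ndF3q3) (pc := pcF0) (cut := Cut.none) (xt := Ext.none) (P1 := 0) (W1 := 1230186008) (P2 := 1610612736) (W2 := 536870912) (P3 := 1046898278) (W3 := 26843546)
    rfl k0_pp_303

noncomputable def f_pp_313 : ℕ → ℕ → ℕ → ℕ → Bool := onCell 0 1230186008 1610612736 536870912 1046898278 26843546
    (rowFX 0 false true true .dn 3 1 3 (qsf 0 1230186008 1610612736 536870912 1) ndF6q3 ndF3q3 pcF1 Cut.none Ext.none)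

def k0_pp_313 : ∃ t, chk3 f_pp_313 t 1 1 1 = true :=
  ⟨(a (l 1) (a (l 1) (b (l 1) (l 3)))), by decide +kernel⟩

theorem c_pp_313 : CertFX 0 1230186008 1610612736 536870912 1046898278 26843546 false true true .dn 3 1 3
    ndF6q3 ndF3q3 pcF1 Cut.none Ext.none :=
  certFX0 (fam := false) (s1 := true) (s2 := true) (a := 3) (b := 1) (c := 3) (cn := .dn) (n1 := ndF6q3) (n2 := ndF3q3) (pc := pcF1) (cut := Cut.none) (xt := Ext.none) (P1 := 0) (W1 := 1230186008) (P2 := 1610612736) (W2 := 536870912) (P3 := 1046898278) (W3 := 26843546)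
    rfl k0_pp_313

noncomputable def f_pm_001 : ℕ → ℕ → ℕ → ℕ → Bool := onCell 0 536870912 536870912 536870912 1046898278 26843546
    (rowFX 0 false true false .up 0 0 1 (qsf 0 536870912 536870912 536870912 0) ndF6q0 ndF3q1 pcF0 Cut.none Ext.none)

def k0_pm_001 : ∃ t, chk3 f_pm_001 t 1 1 1 = true :=
  ⟨(l 4), by decide +kernel⟩

theorem c_pm_001 : CertFX 0 536870912 536870912 536870912 1046898278 26843546 false true false .up 0 0 1
    ndF6q0 ndF3q1 pcF0 Cut.none Ext.none :=
  certFX0 (fam := false) (s1 := true) (s2 := false) (a := 0) (b := 0) (c := 1) (cn := .up) (n1 := ndF6q0) (n2 := ndF3q1) (pc := pcF0) (cut := Cut.none) (xt := Ext.none) (P1 := 0) (W1 := 536870912) (P2 := 536870912) (W2 := 536870912) (P3 := 1046898278) (W3 := 26843546)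
    rfl k0_pm_001

noncomputable def f_pm_011 : ℕ → ℕ → ℕ → ℕ → Bool := onCell 0 536870912 536870912 536870912 1046898278 26843546
    (rowFX 0 false true false .pnn 0 1 1 (qsf 0 536870912 536870912 536870912 1) ndF6q0 ndF3q1 pcF1 Cut.none Ext.none)

def k0_pm_011 : ∃ t, chk3 f_pm_011 t 1 1 1 = true :=
  ⟨(l 4), by decide +kernel⟩

theorem c_pm_011 : CertFX 0 536870912 536870912 536870912 1046898278 26843546 false true false .pnn 0 1 1
    ndF6q0 ndF3q1 pcF1 Cut.none Ext.none :=
  certFX0 (fam := false) (s1 := true) (s2 := false) (a := 0) (b := 1) (c := 1) (cn := .pnn) (n1 := ndF6q0) (n2 := ndF3q1) (pc := pcF1) (cut := Cut.none) (xt := Ext.none) (P1 := 0) (W1 := 536870912) (P2 := 536870912) (W2 := 536870912) (P3 := 1046898278) (W3 := 26843546)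
    rfl k0_pm_011

noncomputable def f_pm_012 : ℕ → ℕ → ℕ → ℕ → Bool := onCell 0 536870912 1073741824 536870912 1046898278 26843546
    (rowFX 0 false true false .pnp 0 1 2 (qsf 0 536870912 1073741824 536870912 1) ndF6q0 ndF3q2 pcF1 Cut.none Ext.none)

def k0_pm_012 : ∃ t, chk3 f_pm_012 t 1 1 1 = true :=
  ⟨(l 4), by decide +kernel⟩

theorem c_pm_012 : CertFX 0 536870912 1073741824 536870912 1046898278 26843546 false true false .pnp 0 1 2
    ndF6q0 ndF3q2 pcF1 Cut.none Ext.none :=
  certFX0 (fam := false) (s1 := true) (s2 := false) (a := 0) (b := 1) (c := 2) (cn := .pnp) (n1 := ndF6q0) (n2 := ndF3q2) (pc := pcF1) (cut := Cut.none) (xt := Ext.none) (P1 := 0) (W1 := 536870912) (P2 := 1073741824) (W2 := 536870912) (P3 := 1046898278) (W3 := 26843546)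
    rfl k0_pm_012

noncomputable def f_pm_022 : ℕ → ℕ → ℕ → ℕ → Bool := onCell 0 536870912 1073741824 536870912 1046898278 26843546
    (rowFX 0 false true false .pp 0 2 2 (qsf 0 536870912 1073741824 536870912 2) ndF6q0 ndF3q2 pcF2 Cut.none Ext.none)

def k0_pm_022 : ∃ t, chk3 f_pm_022 t 1 1 1 = true :=
  ⟨(l 4), by decide +kernel⟩

theorem c_pm_022 : CertFX 0 536870912 1073741824 536870912 1046898278 26843546 false true false .pp 0 2 2
    ndF6q0 ndF3q2 pcF2 Cut.none Ext.none :=
  certFX0 (fam := false) (s1 := true) (s2 := false) (a := 0) (b := 2) (c := 2) (cn := .pp) (n1 := ndF6q0) (n2 := ndF3q2) (pc := pcF2) (cut := Cut.none) (xt := Ext.none) (P1 := 0) (W1 := 536870912) (P2 := 1073741824) (W2 := 536870912) (P3 := 1046898278) (W3 := 26843546)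
    rfl k0_pm_022

noncomputable def f_pm_023 : ℕ → ℕ → ℕ → ℕ → Bool := onCell 0 536870912 1610612736 536870912 1046898278 26843546
    (rowFX 0 false true false .up 0 2 3 (qsf 0 536870912 1610612736 536870912 2) ndF6q0 ndF3q3 pcF2 Cut.none Ext.none)

def k0_pm_023 : ∃ t, chk3 f_pm_023 t 1 1 1 = true :=
  ⟨(l 4), by decide +kernel⟩

theorem c_pm_023 : CertFX 0 536870912 1610612736 536870912 1046898278 26843546 false true false .up 0 2 3
    ndF6q0 ndF3q3 pcF2 Cut.none Ext.none :=
  certFX0 (fam := false) (s1 := true) (s2 := false) (a := 0) (b := 2) (c := 3) (cn := .up) (n1 := ndF6q0) (n2 := ndF3q3) (pc := pcF2) (cut := Cut.none) (xt := Ext.none) (P1 := 0) (W1 := 536870912) (P2 := 1610612736) (W2 := 536870912) (P3 := 1046898278) (W3 := 26843546)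
    rfl k0_pm_023

noncomputable def f_pm_033 : ℕ → ℕ → ℕ → ℕ → Bool := onCell 0 536870912 1610612736 536870912 1046898278 26843546
    (rowFX 0 false true false .pnn 0 3 3 (qsf 0 536870912 1610612736 536870912 3) ndF6q0 ndF3q3 pcF3 Cut.none Ext.none)

def k0_pm_033 : ∃ t, chk3 f_pm_033 t 1 1 1 = true :=
  ⟨(l 4), by decide +kernel⟩

theorem c_pm_033 : CertFX 0 536870912 1610612736 536870912 1046898278 26843546 false true false .pnn 0 3 3
    ndF6q0 ndF3q3 pcF3 Cut.none Ext.none :=
  certFX0 (fam := false) (s1 := true) (s2 := false) (a := 0) (b := 3) (c := 3) (cn := .pnn) (n1 := ndF6q0) (n2 := ndF3q3) (pc := pcF3) (cut := Cut.none) (xt := Ext.none) (P1 := 0) (W1 := 536870912) (P2 := 1610612736) (W2 := 536870912) (P3 := 1046898278) (W3 := 26843546)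
    rfl k0_pm_033

noncomputable def f_pm_101 : ℕ → ℕ → ℕ → ℕ → Bool := onCell 536870912 469762048 536870912 536870912 1046898278 26843546
    (rowFX 0 false true false .npn 1 0 1 (qsf 536870912 469762048 536870912 536870912 0) ndF6q1 ndF3q1 pcF0 Cut.none Ext.none)

def k0_pm_101 : ∃ t, chk3 f_pm_101 t 1 1 1 = true :=
  ⟨(l 4), by decide +kernel⟩

theorem c_pm_101 : CertFX 536870912 469762048 536870912 536870912 1046898278 26843546 false true false .npn 1 0 1
    ndF6q1 ndF3q1 pcF0 Cut.none Ext.none :=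
  certFX0 (fam := false) (s1 := true) (s2 := false) (a := 1) (b := 0) (c := 1) (cn := .npn) (n1 := ndF6q1) (n2 := ndF3q1) (pc := pcF0) (cut := Cut.none) (xt := Ext.none) (P1 := 536870912) (W1 := 469762048) (P2 := 536870912) (W2 := 536870912) (P3 := 1046898278) (W3 := 26843546)
    rfl k0_pm_101

noncomputable def f_pm_102 : ℕ → ℕ → ℕ → ℕ → Bool := onCell 536870912 469762048 1073741824 536870912 1046898278 26843546
    (rowFX 0 false true false .npp 1 0 2 (qsf 536870912 469762048 1073741824 536870912 0) ndF6q1 ndF3q2 pcF0 Cut.none Ext.none)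

def k0_pm_102 : ∃ t, chk3 f_pm_102 t 1 1 1 = true :=
  ⟨(l 4), by decide +kernel⟩

theorem c_pm_102 : CertFX 536870912 469762048 1073741824 536870912 1046898278 26843546 false true false .npp 1 0 2
    ndF6q1 ndF3q2 pcF0 Cut.none Ext.none :=
  certFX0 (fam := false) (s1 := true) (s2 := false) (a := 1) (b := 0) (c := 2) (cn := .npp) (n1 := ndF6q1) (n2 := ndF3q2) (pc := pcF0) (cut := Cut.none) (xt := Ext.none) (P1 := 536870912) (W1 := 469762048) (P2 := 1073741824) (W2 := 536870912) (P3 := 1046898278) (W3 := 26843546)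
    rfl k0_pm_102

noncomputable def f_pm_112 : ℕ → ℕ → ℕ → ℕ → Bool := onCell 536870912 469762048 1073741824 536870912 1046898278 26843546
    (rowFX 0 false true false .dn 1 1 2 (qsf 536870912 469762048 1073741824 536870912 1) ndF6q1 ndF3q2 pcF1 Cut.none Ext.none)

def k0_pm_112 : ∃ t, chk3 f_pm_112 t 1 1 1 = true :=
  ⟨(l 4), by decide +kernel⟩

theorem c_pm_112 : CertFX 536870912 469762048 1073741824 536870912 1046898278 26843546 false true false .dn 1 1 2
    ndF6q1 ndF3q2 pcF1 Cut.none Ext.none :=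
  certFX0 (fam := false) (s1 := true) (s2 := false) (a := 1) (b := 1) (c := 2) (cn := .dn) (n1 := ndF6q1) (n2 := ndF3q2) (pc := pcF1) (cut := Cut.none) (xt := Ext.none) (P1 := 536870912) (W1 := 469762048) (P2 := 1073741824) (W2 := 536870912) (P3 := 1046898278) (W3 := 26843546)
    rfl k0_pm_112

noncomputable def f_pm_113 : ℕ → ℕ → ℕ → ℕ → Bool := onCell 536870912 469762048 536870912 536870912 1046898278 26843546
    (rowFX 1 false true false .nn 1 1 3 (qsf 536870912 469762048 1610612736 536870912 1) ndF6q1 ndF3q3 pcF1 Cut.none Ext.none)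

def k0_pm_113 : ∃ t, chk3 f_pm_113 t 1 1 1 = true :=
  ⟨(l 4), by decide +kernel⟩

theorem c_pm_113 : CertFX 536870912 469762048 1610612736 536870912 1046898278 26843546 false true false .nn 1 1 3
    ndF6q1 ndF3q3 pcF1 Cut.none Ext.none :=
  certFX1 (fam := false) (s1 := true) (s2 := false) (a := 1) (b := 1) (c := 3) (cn := .nn) (n1 := ndF6q1) (n2 := ndF3q3) (pc := pcF1) (cut := Cut.none) (xt := Ext.none) (P1 := 536870912) (W1 := 469762048) (P2 := 1610612736) (W2 := 536870912) (P3 := 1046898278) (W3 := 26843546)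
    rfl (fun _ => rfl) k0_pm_113

noncomputable def f_pm_123 : ℕ → ℕ → ℕ → ℕ → Bool := onCell 536870912 469762048 1610612736 536870912 1046898278 26843546
    (rowFX 0 false true false .npn 1 2 3 (qsf 536870912 469762048 1610612736 536870912 2) ndF6q1 ndF3q3 pcF2 Cut.none Ext.none)

def k0_pm_123 : ∃ t, chk3 f_pm_123 t 1 1 1 = true :=
  ⟨(b (l 4) (l 4)), by decide +kernel⟩

theorem c_pm_123 : CertFX 536870912 469762048 1610612736 536870912 1046898278 26843546 false true false .npn 1 2 3
    ndF6q1 ndF3q3 pcF2 Cut.none Ext.none :=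
  certFX0 (fam := false) (s1 := true) (s2 := false) (a := 1) (b := 2) (c := 3) (cn := .npn) (n1 := ndF6q1) (n2 := ndF3q3) (pc := pcF2) (cut := Cut.none) (xt := Ext.none) (P1 := 536870912) (W1 := 469762048) (P2 := 1610612736) (W2 := 536870912) (P3 := 1046898278) (W3 := 26843546)
    rfl k0_pm_123

noncomputable def f_pm_133 : ℕ → ℕ → ℕ → ℕ → Bool := onCell 536870912 469762048 1610612736 536870912 1046898278 26843546
    (rowFX 0 false true false .dn 1 3 3 (qsf 536870912 469762048 1610612736 536870912 3) ndF6q1 ndF3q3 pcF3 Cut.none Ext.none)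

def k0_pm_133 : ∃ t, chk3 f_pm_133 t 1 1 1 = true :=
  ⟨(a (l 4) (l 1)), by decide +kernel⟩

theorem c_pm_133 : CertFX 536870912 469762048 1610612736 536870912 1046898278 26843546 false true false .dn 1 3 3
    ndF6q1 ndF3q3 pcF3 Cut.none Ext.none :=
  certFX0 (fam := false) (s1 := true) (s2 := false) (a := 1) (b := 3) (c := 3) (cn := .dn) (n1 := ndF6q1) (n2 := ndF3q3) (pc := pcF3) (cut := Cut.none) (xt := Ext.none) (P1 := 536870912) (W1 := 469762048) (P2 := 1610612736) (W2 := 536870912) (P3 := 1046898278) (W3 := 26843546)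
    rfl k0_pm_133

noncomputable def f_pm_202 : ℕ → ℕ → ℕ → ℕ → Bool := onCell 1073741824 536870912 0 536870912 1046898278 26843546
    (rowFX 1 false true false .pp 2 0 2 (qsf 1073741824 536870912 1073741824 536870912 0) ndF6q2 ndF3q2 pcF0 Cut.none Ext.none)

def k0_pm_202 : ∃ t, chk3 f_pm_202 t 4 16 1 = true :=
  ⟨(a (b (c (b (a (a (c (l 15025744) (b (l 14974320) (l 14991176))) (l 15120112)) (c (l 15268392) (l 15230440))) (a (c (b (a (l 15057664) (l 15152240)) (l 15114656)) (b (a (l 15008088) (l 15096720)) (a (l 15028400) (l 15114392)))) (c (b (l 15264192) (l 15269432)) (b (l 15238352) (l 15250280))))) (b (c (a (b (a (l 14882152) (l 15030952)) (b (c (l 14957680) (l 14979992)) (c (l 15008192) (l 14991416)))) (b (l 15197368) (c (l 15211096) (l 15203280)))) (b (a (c (b (l 14922904) (b (l 14865640) (l 14891256))) (a (b (c (l 14869152) (b (l 14857264) (l 14862416))) (l 14873416)) (c (l 14993848) (l 14987728)))) (c (l 15181104) (b (l 15083496) (l 15174576)))) (a (c (a (l 14906768) (l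 15020664)) (l 14946368)) (c (l 15193704) (l 15180880))))) (c (a (b (c (l 15025544) (l 15003568)) (l 15028456)) (l 15156080)) (a (l 14872784) (l 15193184))))) (c (a (b (c (a (l 15105960) (l 15183872)) (a (l 15044448) (l 15133248))) (c (l 15166440) (l 15108464))) (b (c (l 15279648) (l 15249792)) (l 15255504))) (a (c (a (l 14993632) (l 15104808)) (l 15020240)) (c (l 15208440) (l 15184816))))) (b (c (b (a (l 15298568) (l 14980888)) (a (c (l 15278992) (b (l 15269256) (l 15264168))) (c (l 14940232) (l 14920992)))) (b (a (c (b (l 15274480) (l 15094520)) (b (c (l 15258976) (b (l 15251400) (l 15246168))) (l 15243552))) (c (b (l 14956064) (l 14931496)) (b (c (l 14937544) (l 14925208)) (l 14908576)))) (a (c (l 15245416) (l 15219936)) (c (l 14897896) (l 14868000))))) (c (a (b (c (l 15263192) (l 15240240)) (l 15212728)) (b (l 14892016) (l 14854752))) (a (a (l 15223712) (l 15130496)) (l 14812256))))), by decide +kernel⟩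

def k1_pm_202 : ∃ t, chk3 f_pm_202 t 4 17 1 = true :=
  ⟨(a (c (a (b (c (l 15158352) (l 15112976)) (c (l 15133040) (l 15100480))) (b (l 15200408) (l 15126176))) (a (b (a (l 15027584) (l 15118360)) (l 15067680)) (b (l 15148896) (l 15080592)))) (a (c (b (l 15131592) (l 15027616)) (b (l 15078288) (l 14979528))) (b (c (l 14864336) (l 14804144)) (c (l 14951808) (l 14901992))))), by decide +kernel⟩

def k2_pm_202 : ∃ t, chk3 f_pm_202 t 4 9 1 = true :=
  ⟨(a (b (b (c (a (l 15062160) (l 15029360)) (a (l 15017016) (l 14983592))) (a (l 14968200) (l 14904880))) (a (b (l 14872360) (l 14781216)) (b (l 14852048) (l 14996496)))) (b (a (b (a (l 14954576) (l 14988488)) (l 15084048)) (l 15204728)) (a (l 15367728) (l 15476768)))), by decide +kernel⟩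

def k3_pm_202 : ∃ t, chk3 f_pm_202 t 5 4 1 = true :=
  ⟨(b (b (a (b (a (c (b (a (l 14677464) (l 14820976)) (a (l 14478136) (l 14892784))) (b (a (b (l 14484352) (l 14542136)) (c (l 14780792) (b (l 14732896) (l 14760544)))) (a (l 14591904) (l 14845304)))) (c (b (l 15630016) (b (l 15702920) (l 15755936))) (b (c (l 15480096) (b (l 15436880) (l 15617552))) (l 15517064)))) (a (c (a (l 14721720) (l 15060208)) (a (l 14655368) (l 15002856))) (c (a (l 15618512) (l 16150536)) (l 15790024)))) (b (a (c (b (l 16630560) (l 16418920)) (b (a (c (l 16409456) (l 16404240)) (l 16313552)) (l 16435608))) (c (l 16109744) (b (l 16028472) (l 16102016)))) (a (c (l 16502592) (l 16520272)) (l 16041336)))) (a (a (a (c (l 14994608) (l 14941320)) (c (l 15346240) (l 15302392))) (a (b (l 15785824) (l 15917328)) (b (l 16271968) (l 16297192)))) (a (l 16522288) (b (l 16179976) (l 16211584))))) (a (b (a (a (l 15308288) (l 15550352)) (l 16089440)) (a (l 15462752) (l 16030760))) (b (c (l 16334224) (l 16452888)) (l 16553560)))),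 by decide +kernel⟩

def k4_pm_202 : ∃ t, chk3 f_pm_202 t 2 5 1 = true :=
  ⟨(a (b (a (a (b (b (l 14675008) (l 14881680)) (l 15170784)) (b (l 15289096) (l 15571136))) (a (b (l 15653656) (l 15712352)) (l 15514608))) (a (b (a (l 15448760) (l 15625832)) (l 15561312)) (b (l 15543680) (l 15512104)))) (b (a (a (l 15390928) (l 15955312)) (l 16571680)) (a (a (l 15293960) (l 15866272)) (l 16640464)))), by decide +kernel⟩

def k5_pm_202 : ∃ t, chk3 f_pm_202 t 3 2 1 = true :=
  ⟨(b (b (b (a (b (c (b (l 15907496) (a (a (l 16062472) (l 15919104)) (l 15896656))) (b (a (a (l 16030272) (c (l 15968288) (l 15814640))) (c (l 15862112) (l 15854368))) (c (l 15952664) (l 15955656)))) (c (a (b (l 16026720) (l 16046384)) (l 15906008)) (l 15994976))) (b (c (b (l 15625104) (l 15653896)) (b (c (l 15610112) (l 15600232)) (l 15621600))) (c (l 15665360) (l 15678080)))) (a (a (c (l 15990072) (l 16135704)) (l 15944400)) (c (l 15797584) (l 15795784)))) (a (b (l 16040216) (l 16340552)) (b (b (l 15942392) (l 16006552))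 (l 16152000)))) (b (a (l 16502672) (b (l 16254872) (l 2))) (b (a (l 16693568) (l 2)) (l 16777040)))), by decide +kernel⟩

def k6_pm_202 : ∃ t, chk3 f_pm_202 t 1 3 1 = true :=
  ⟨(a (a (b (a (l 15561360) (l 15512056)) (b (l 15533936) (l 15387136))) (a (b (l 15468040) (b (l 15572896) (l 2))) (b (b (l 16626968) (l 16626968)) (l 2)))) (b (b (l 16777216) (l 2)) (l 2))), by decide +kernel⟩

theorem s7_pm_202 : ∃ t, chk3 f_pm_202 t 4 8 1 = true := ex3_b k0_pm_202 k1_pm_202

theorem s8_pm_202 : ∃ t, chk3 f_pm_202 t 4 4 1 = true := ex3_b s7_pm_202 k2_pm_202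

theorem s9_pm_202 : ∃ t, chk3 f_pm_202 t 2 4 1 = true := ex3_a s8_pm_202 k3_pm_202

theorem s10_pm_202 : ∃ t, chk3 f_pm_202 t 2 2 1 = true := ex3_b s9_pm_202 k4_pm_202

theorem s11_pm_202 : ∃ t, chk3 f_pm_202 t 1 2 1 = true := ex3_a s10_pm_202 k5_pm_202

theorem s12_pm_202 : ∃ t, chk3 f_pm_202 t 1 1 1 = true := ex3_b s11_pm_202 k6_pm_202

theorem c_pm_202 : CertFX 1073741824 536870912 1073741824 536870912 1046898278 26843546 false true false .pp 2 0 2
    ndF6q2 ndF3q2 pcF0 Cut.none Ext.none :=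
  certFX1 (fam := false) (s1 := true) (s2 := false) (a := 2) (b := 0) (c := 2) (cn := .pp) (n1 := ndF6q2) (n2 := ndF3q2) (pc := pcF0) (cut := Cut.none) (xt := Ext.none) (P1 := 1073741824) (W1 := 536870912) (P2 := 1073741824) (W2 := 536870912) (P3 := 1046898278) (W3 := 26843546)
    rfl (fun _ => rfl) s12_pm_202

noncomputable def f_pm_203 : ℕ → ℕ → ℕ → ℕ → Bool := onCell 1073741824 536870912 0 536870912 1046898278 26843546
    (rowFX 1 false true false .up 2 0 3 (qsf 1073741824 536870912 1610612736 536870912 0) ndF6q2 ndF3q3 pcF0 Cut.none Ext.none)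

def k0_pm_203 : ∃ t, chk3 f_pm_203 t 1 1 1 = true :=
  ⟨(b (b (a (l 1) (a (b (l 1) (b (l 1) (l 16340552))) (b (b (a (l 1) (b (b (l 15301256) (l 15361360)) (l 15574208))) (l 201894546823)) (b (b (l 15942392) (l 16006552)) (l 16152000))))) (a (a (l 1) (b (l 1) (a (l 1) (l 16640464)))) (b (a (l 16502672) (b (l 16254872) (l 16458296))) (b (a (l 16693568) (l 16654200)) (l 16777040))))) (a (a (b (a (l 1) (l 15512056)) (a (l 15561360) (l 471403181543))) (a (b (l 15426096) (b (l 15572896) (l 15572896))) (b (b (l 16626968) (l 16626968)) (l 16375304)))) (b (a (l 16777216) (b (l 16777208) (l 16777176))) (a (l 16777184) (b (a (l 16777168) (l 16748168)) (a (l 16748168) (b (l 16742784) (l 16729344)))))))), by decide +kernel⟩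

theorem c_pm_203 : CertFX 1073741824 536870912 1610612736 536870912 1046898278 26843546 false true false .up 2 0 3
    ndF6q2 ndF3q3 pcF0 Cut.none Ext.none :=
  certFX1 (fam := false) (s1 := true) (s2 := false) (a := 2) (b := 0) (c := 3) (cn := .up) (n1 := ndF6q2) (n2 := ndF3q3) (pc := pcF0) (cut := Cut.none) (xt := Ext.none) (P1 := 1073741824) (W1 := 536870912) (P2 := 1610612736) (W2 := 536870912) (P3 := 1046898278) (W3 := 26843546)
    rfl (fun _ => rfl) k0_pm_203

noncomputable def f_pm_213 : ℕ → ℕ → ℕ → ℕ → Bool := onCell 1073741824 536870912 1610612736 536870912 1046898278 26843546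
    (rowFX 0 false true false .pnn 2 1 3 (qsf 1073741824 536870912 1610612736 536870912 1) ndF6q2 ndF3q3 pcF1 Cut.none Ext.none)

def k0_pm_213 : ∃ t, chk3 f_pm_213 t 1 1 1 = true :=
  ⟨(a (b (a (b (b (l 15533936) (l 15429080)) (a (l 15561360) (l 15512056))) (a (b (b (l 1) (l 15572896)) (l 15426096)) (b (l 1) (l 16626968)))) (a (b (a (b (l 15562112) (l 15558680)) (l 15512312)) (a (b (b (l 15534584) (l 15560776)) (b (l 15643600) (l 15704616))) (b (l 15364280) (b (l 15541672) (l 15585032))))) (b (a (l 15342256) (l 16627008)) (a (b (l 15594560) (a (l 15285920) (l 15846032))) (b (l 16634176) (l 16584816)))))) (a (b (b (l 1) (l 16777216)) (b (l 16777168) (b (l 16750280) (b (l 16732344) (c (l 16777112) (l 16765680)))))) (b (l 1) (b (a (l 16777168) (l 1)) (c (b (a (l 16750808) (l 16750808)) (a (l 16727152) (l 16727152))) (a (b (l 16750120) (l 16725768)) (b (l 16750120) (l 16725768)))))))), by decide +kernel⟩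

theorem c_pm_213 : CertFX 1073741824 536870912 1610612736 536870912 1046898278 26843546 false true false .pnn 2 1 3
    ndF6q2 ndF3q3 pcF1 Cut.none Ext.none :=
  certFX0 (fam := false) (s1 := true) (s2 := false) (a := 2) (b := 1) (c := 3) (cn := .pnn) (n1 := ndF6q2) (n2 := ndF3q3) (pc := pcF1) (cut := Cut.none) (xt := Ext.none) (P1 := 1073741824) (W1 := 536870912) (P2 := 1610612736) (W2 := 536870912) (P3 := 1046898278) (W3 := 26843546)
    rfl k0_pm_213

noncomputable def f_pm_303 : ℕ → ℕ → ℕ → ℕ → Bool := onCell 0 1230186008 0 536870912 1046898278 26843546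
    (rowFX 1 false true false .npn 3 0 3 (qsf 0 1230186008 1610612736 536870912 0) ndF6q3 ndF3q3 pcF0 Cut.none Ext.none)

def k0_pm_303 : ∃ t, chk3 f_pm_303 t 1 4 1 = true :=
  ⟨(a (a (l 3) (l 3)) (a (l 3) (a (a (l 3) (b (b (b (c (c (b (l 318527777191) (a (l 333023373991) (b (l 14958440) (l 14917384)))) (b (a (l 14585840) (l 14872152)) (a (l 331412720807) (l 14822608)))) (b (a (c (b (l 14736672) (l 328728238775)) (c (l 327117573687) (l 326043822871))) (c (l 14854904) (b (l 14843192) (l 14857280)))) (c (a (l 14818072) (l 14879144)) (a (l 14812392) (l 14883752))))) (c (a (l 14755624) (b (a (l 14926784) (l 14982336)) (l 14773120))) (a (c (l 14903192) (l 14931248)) (a (l 14961896) (l 14995856))))) (c (b (c (l 15114736) (l 325507733511)) (c (l 328192416711) (l 15282536))) (b (a (l 15089336) (a (l 15100552) (l 15140464))) (l 328192348279)))) (b (c (b (l 331413941479) (l 334098713175)) (b (l 330340127607) (l 333024911223))) (c (l 337857177143) (l 336783386071))))) (b (b (b (a (c (b (l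 15057080) (c (l 14985440) (a (l 15041648) (l 15155472)))) (c (b (a (l 15002024) (l 14901128)) (l 14946968)) (b (b (a (l 14977408) (l 15096232)) (l 15046200)) (l 15072264)))) (c (l 15333368) (b (l 15294312) (l 15316456)))) (c (a (b (a (l 14870512) (l 15172040)) (l 15106272)) (l 15111552)) (a (a (l 15052168) (l 15219840)) (l 15325496)))) (a (c (b (a (l 15217456) (l 15264528)) (c (l 15171064) (l 15351560))) (b (a (l 15197808) (l 15304752)) (l 15215368))) (c (b (l 15436416) (l 15595864)) (l 15439792)))) (b (a (c (b (l 15328896) (l 15402352)) (b (l 15249344) (a (l 15612696) (l 15693952)))) (c (b (l 15688544) (l 15793256)) (l 15509752))) (a (c (l 15631472) (a (l 15842152) (l 15914888))) (l 15851584))))))), by decide +kernel⟩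

def k1_pm_303 : ∃ t, chk3 f_pm_303 t 1 5 1 = true :=
  ⟨(a (l 2) (a (l 3) (a (b (a (l 3) (b (l 343226505671) (l 3))) (l 3)) (b (b (a (b (l 16015856) (l 16157112)) (l 16175240)) (a (l 16255464) (l 16404432))) (b (a (l 316921132935) (l 16627256)) (a (l 320679942743) (l 16772912))))))), by decide +kernel⟩

def k2_pm_303 : ∃ t, chk3 f_pm_303 t 1 3 1 = true :=
  ⟨(a (l 2) (a (a (l 2) (b (b (l 3) (l 2)) (l 2))) (a (b (l 3) (l 2)) (b (a (b (c (l 332491026503) (l 334638507143)) (l 3)) (b (l 16777176) (c (l 293836284407) (l 16808352)))) (a (l 3) (b (b (l 16742920) (l 295446844263)) (b (l 314774220983) (l 3)))))))), by decide +kernel⟩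

theorem s3_pm_303 : ∃ t, chk3 f_pm_303 t 1 2 1 = true := ex3_b k0_pm_303 k1_pm_303

theorem s4_pm_303 : ∃ t, chk3 f_pm_303 t 1 1 1 = true := ex3_b s3_pm_303 k2_pm_303

theorem c_pm_303 : CertFX 0 1230186008 1610612736 536870912 1046898278 26843546 false true false .npn 3 0 3
    ndF6q3 ndF3q3 pcF0 Cut.none Ext.none :=
  certFX1 (fam := false) (s1 := true) (s2 := false) (a := 3) (b := 0) (c := 3) (cn := .npn) (n1 := ndF6q3) (n2 := ndF3q3) (pc := pcF0) (cut := Cut.none) (xt := Ext.none) (P1 := 0) (W1 := 1230186008) (P2 := 1610612736) (W2 := 536870912) (P3 := 1046898278) (W3 := 26843546)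
    rfl (fun _ => rfl) s4_pm_303

noncomputable def f_pm_313 : ℕ → ℕ → ℕ → ℕ → Bool := onCell 0 1230186008 1610612736 536870912 1046898278 26843546
    (rowFX 0 false true false .dn 3 1 3 (qsf 0 1230186008 1610612736 536870912 1) ndF6q3 ndF3q3 pcF1 Cut.none Ext.none)

def k0_pm_313 : ∃ t, chk3 f_pm_313 t 1 1 1 = true :=
  ⟨(a (l 1) (a (l 1) (b (l 1) (b (l 1) (b (l 1) (b (l 1) (l 3))))))), by decide +kernel⟩

theorem c_pm_313 : CertFX 0 1230186008 1610612736 536870912 1046898278 26843546 false true false .dn 3 1 3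
    ndF6q3 ndF3q3 pcF1 Cut.none Ext.none :=
  certFX0 (fam := false) (s1 := true) (s2 := false) (a := 3) (b := 1) (c := 3) (cn := .dn) (n1 := ndF6q3) (n2 := ndF3q3) (pc := pcF1) (cut := Cut.none) (xt := Ext.none) (P1 := 0) (W1 := 1230186008) (P2 := 1610612736) (W2 := 536870912) (P3 := 1046898278) (W3 := 26843546)
    rfl k0_pm_313

noncomputable def f_mm_001 : ℕ → ℕ → ℕ → ℕ → Bool := onCell 0 536870912 536870912 536870912 1046898278 26843546
    (rowFX 0 false false false .up 0 0 1 (qsf 0 536870912 536870912 536870912 0) ndF6q0 ndF3q1 pcF0 Cut.none Ext.none)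

def k0_mm_001 : ∃ t, chk3 f_mm_001 t 1 1 1 = true :=
  ⟨(l 3), by decide +kernel⟩

theorem c_mm_001 : CertFX 0 536870912 536870912 536870912 1046898278 26843546 false false false .up 0 0 1
    ndF6q0 ndF3q1 pcF0 Cut.none Ext.none :=
  certFX0 (fam := false) (s1 := false) (s2 := false) (a := 0) (b := 0) (c := 1) (cn := .up) (n1 := ndF6q0) (n2 := ndF3q1) (pc := pcF0) (cut := Cut.none) (xt := Ext.none) (P1 := 0) (W1 := 536870912) (P2 := 536870912) (W2 := 536870912) (P3 := 1046898278) (W3 := 26843546)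
    rfl k0_mm_001

noncomputable def f_mm_011 : ℕ → ℕ → ℕ → ℕ → Bool := onCell 0 536870912 536870912 536870912 1046898278 26843546
    (rowFX 0 false false false .pnn 0 1 1 (qsf 0 536870912 536870912 536870912 1) ndF6q0 ndF3q1 pcF1 Cut.none Ext.none)

def k0_mm_011 : ∃ t, chk3 f_mm_011 t 1 1 1 = true :=
  ⟨(l 3), by decide +kernel⟩

theorem c_mm_011 : CertFX 0 536870912 536870912 536870912 1046898278 26843546 false false false .pnn 0 1 1
    ndF6q0 ndF3q1 pcF1 Cut.none Ext.none :=
  certFX0 (fam := false) (s1 := false) (s2 := false) (a := 0) (b := 1) (c := 1) (cn := .pnn) (n1 := ndF6q0) (n2 := ndF3q1) (pc := pcF1) (cut := Cut.none) (xt := Ext.none) (P1 := 0) (W1 := 536870912) (P2 := 536870912) (W2 := 536870912) (P3 := 1046898278) (W3 := 26843546)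
    rfl k0_mm_011

noncomputable def f_mm_012 : ℕ → ℕ → ℕ → ℕ → Bool := onCell 0 536870912 1073741824 536870912 1046898278 26843546
    (rowFX 0 false false false .pnp 0 1 2 (qsf 0 536870912 1073741824 536870912 1) ndF6q0 ndF3q2 pcF1 Cut.none Ext.none)

def k0_mm_012 : ∃ t, chk3 f_mm_012 t 1 1 1 = true :=
  ⟨(l 5), by decide +kernel⟩

theorem c_mm_012 : CertFX 0 536870912 1073741824 536870912 1046898278 26843546 false false false .pnp 0 1 2
    ndF6q0 ndF3q2 pcF1 Cut.none Ext.none :=
  certFX0 (fam := false) (s1 := false) (s2 := false) (a := 0) (b := 1) (c := 2) (cn := .pnp) (n1 := ndF6q0) (n2 := ndF3q2) (pc := pcF1) (cut := Cut.none) (xt := Ext.none) (P1 := 0) (W1 := 536870912) (P2 := 1073741824) (W2 := 536870912) (P3 := 1046898278) (W3 := 26843546)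
    rfl k0_mm_012

noncomputable def f_mm_022 : ℕ → ℕ → ℕ → ℕ → Bool := onCell 0 536870912 1073741824 536870912 1046898278 26843546
    (rowFX 0 false false false .pp 0 2 2 (qsf 0 536870912 1073741824 536870912 2) ndF6q0 ndF3q2 pcF2 Cut.none Ext.none)

def k0_mm_022 : ∃ t, chk3 f_mm_022 t 1 1 1 = true :=
  ⟨(l 5), by decide +kernel⟩

theorem c_mm_022 : CertFX 0 536870912 1073741824 536870912 1046898278 26843546 false false false .pp 0 2 2
    ndF6q0 ndF3q2 pcF2 Cut.none Ext.none :=
  certFX0 (fam := false) (s1 := false) (s2 := false) (a := 0) (b := 2) (c := 2) (cn := .pp) (n1 := ndF6q0) (n2 := ndF3q2) (pc := pcF2) (cut := Cut.none) (xt := Ext.none) (P1 := 0) (W1 := 536870912) (P2 := 1073741824) (W2 := 536870912) (P3 := 1046898278) (W3 := 26843546)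
    rfl k0_mm_022

noncomputable def f_mm_023 : ℕ → ℕ → ℕ → ℕ → Bool := onCell 0 536870912 1610612736 536870912 1046898278 26843546
    (rowFX 0 false false false .up 0 2 3 (qsf 0 536870912 1610612736 536870912 2) ndF6q0 ndF3q3 pcF2 Cut.none Ext.none)

def k0_mm_023 : ∃ t, chk3 f_mm_023 t 1 1 1 = true :=
  ⟨(l 5), by decide +kernel⟩

theorem c_mm_023 : CertFX 0 536870912 1610612736 536870912 1046898278 26843546 false false false .up 0 2 3
    ndF6q0 ndF3q3 pcF2 Cut.none Ext.none :=
  certFX0 (fam := false) (s1 := false) (s2 := false) (a := 0) (b := 2) (c := 3) (cn := .up) (n1 := ndF6q0) (n2 := ndF3q3) (pc := pcF2) (cut := Cut.none) (xt := Ext.none) (P1 := 0) (W1 := 536870912) (P2 := 1610612736) (W2 := 536870912) (P3 := 1046898278) (W3 := 26843546)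
    rfl k0_mm_023

noncomputable def f_mm_033 : ℕ → ℕ → ℕ → ℕ → Bool := onCell 0 536870912 1610612736 536870912 1046898278 26843546
    (rowFX 0 false false false .pnn 0 3 3 (qsf 0 536870912 1610612736 536870912 3) ndF6q0 ndF3q3 pcF3 Cut.none Ext.none)

def k0_mm_033 : ∃ t, chk3 f_mm_033 t 1 1 1 = true :=
  ⟨(l 5), by decide +kernel⟩

theorem c_mm_033 : CertFX 0 536870912 1610612736 536870912 1046898278 26843546 false false false .pnn 0 3 3
    ndF6q0 ndF3q3 pcF3 Cut.none Ext.none :=
  certFX0 (fam := false) (s1 := false) (s2 := false) (a := 0) (b := 3) (c := 3) (cn := .pnn) (n1 := ndF6q0) (n2 := ndF3q3) (pc := pcF3) (cut := Cut.none) (xt := Ext.none) (P1 := 0) (W1 := 536870912) (P2 := 1610612736) (W2 := 536870912) (P3 := 1046898278) (W3 := 26843546)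
    rfl k0_mm_033

noncomputable def f_mm_101 : ℕ → ℕ → ℕ → ℕ → Bool := onCell 536870912 469762048 536870912 536870912 1046898278 26843546
    (rowFX 0 false false false .npn 1 0 1 (qsf 536870912 469762048 536870912 536870912 0) ndF6q1 ndF3q1 pcF0 Cut.none Ext.none)

def k0_mm_101 : ∃ t, chk3 f_mm_101 t 1 1 1 = true :=
  ⟨(l 3), by decide +kernel⟩

theorem c_mm_101 : CertFX 536870912 469762048 536870912 536870912 1046898278 26843546 false false false .npn 1 0 1
    ndF6q1 ndF3q1 pcF0 Cut.none Ext.none :=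
  certFX0 (fam := false) (s1 := false) (s2 := false) (a := 1) (b := 0) (c := 1) (cn := .npn) (n1 := ndF6q1) (n2 := ndF3q1) (pc := pcF0) (cut := Cut.none) (xt := Ext.none) (P1 := 536870912) (W1 := 469762048) (P2 := 536870912) (W2 := 536870912) (P3 := 1046898278) (W3 := 26843546)
    rfl k0_mm_101

noncomputable def f_mm_102 : ℕ → ℕ → ℕ → ℕ → Bool := onCell 536870912 469762048 1073741824 536870912 1046898278 26843546
    (rowFX 0 false false false .npp 1 0 2 (qsf 536870912 469762048 1073741824 536870912 0) ndF6q1 ndF3q2 pcF0 Cut.none Ext.none)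

def k0_mm_102 : ∃ t, chk3 f_mm_102 t 1 1 1 = true :=
  ⟨(l 5), by decide +kernel⟩

theorem c_mm_102 : CertFX 536870912 469762048 1073741824 536870912 1046898278 26843546 false false false .npp 1 0 2
    ndF6q1 ndF3q2 pcF0 Cut.none Ext.none :=
  certFX0 (fam := false) (s1 := false) (s2 := false) (a := 1) (b := 0) (c := 2) (cn := .npp) (n1 := ndF6q1) (n2 := ndF3q2) (pc := pcF0) (cut := Cut.none) (xt := Ext.none) (P1 := 536870912) (W1 := 469762048) (P2 := 1073741824) (W2 := 536870912) (P3 := 1046898278) (W3 := 26843546)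
    rfl k0_mm_102

noncomputable def f_mm_112 : ℕ → ℕ → ℕ → ℕ → Bool := onCell 536870912 469762048 1073741824 536870912 1046898278 26843546
    (rowFX 0 false false false .dn 1 1 2 (qsf 536870912 469762048 1073741824 536870912 1) ndF6q1 ndF3q2 pcF1 Cut.none Ext.none)

def k0_mm_112 : ∃ t, chk3 f_mm_112 t 1 1 1 = true :=
  ⟨(l 5), by decide +kernel⟩

theorem c_mm_112 : CertFX 536870912 469762048 1073741824 536870912 1046898278 26843546 false false false .dn 1 1 2
    ndF6q1 ndF3q2 pcF1 Cut.none Ext.none :=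
  certFX0 (fam := false) (s1 := false) (s2 := false) (a := 1) (b := 1) (c := 2) (cn := .dn) (n1 := ndF6q1) (n2 := ndF3q2) (pc := pcF1) (cut := Cut.none) (xt := Ext.none) (P1 := 536870912) (W1 := 469762048) (P2 := 1073741824) (W2 := 536870912) (P3 := 1046898278) (W3 := 26843546)
    rfl k0_mm_112

noncomputable def f_mm_113 : ℕ → ℕ → ℕ → ℕ → Bool := onCell 536870912 469762048 1610612736 536870912 1046898278 26843546
    (rowFX 0 false false false .nn 1 1 3 (qsf 536870912 469762048 1610612736 536870912 1) ndF6q1 ndF3q3 pcF1 Cut.none Ext.none)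

def k0_mm_113 : ∃ t, chk3 f_mm_113 t 1 1 1 = true :=
  ⟨(l 5), by decide +kernel⟩

theorem c_mm_113 : CertFX 536870912 469762048 1610612736 536870912 1046898278 26843546 false false false .nn 1 1 3
    ndF6q1 ndF3q3 pcF1 Cut.none Ext.none :=
  certFX0 (fam := false) (s1 := false) (s2 := false) (a := 1) (b := 1) (c := 3) (cn := .nn) (n1 := ndF6q1) (n2 := ndF3q3) (pc := pcF1) (cut := Cut.none) (xt := Ext.none) (P1 := 536870912) (W1 := 469762048) (P2 := 1610612736) (W2 := 536870912) (P3 := 1046898278) (W3 := 26843546)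
    rfl k0_mm_113

noncomputable def f_mm_123 : ℕ → ℕ → ℕ → ℕ → Bool := onCell 536870912 469762048 1610612736 536870912 1046898278 26843546
    (rowFX 0 false false false .npn 1 2 3 (qsf 536870912 469762048 1610612736 536870912 2) ndF6q1 ndF3q3 pcF2 Cut.none Ext.none)

def k0_mm_123 : ∃ t, chk3 f_mm_123 t 1 1 1 = true :=
  ⟨(l 5), by decide +kernel⟩

theorem c_mm_123 : CertFX 536870912 469762048 1610612736 536870912 1046898278 26843546 false false false .npn 1 2 3
    ndF6q1 ndF3q3 pcF2 Cut.none Ext.none :=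
  certFX0 (fam := false) (s1 := false) (s2 := false) (a := 1) (b := 2) (c := 3) (cn := .npn) (n1 := ndF6q1) (n2 := ndF3q3) (pc := pcF2) (cut := Cut.none) (xt := Ext.none) (P1 := 536870912) (W1 := 469762048) (P2 := 1610612736) (W2 := 536870912) (P3 := 1046898278) (W3 := 26843546)
    rfl k0_mm_123

noncomputable def f_mm_133 : ℕ → ℕ → ℕ → ℕ → Bool := onCell 536870912 469762048 1610612736 536870912 1046898278 26843546
    (rowFX 0 false false false .dn 1 3 3 (qsf 536870912 469762048 1610612736 536870912 3) ndF6q1 ndF3q3 pcF3 Cut.none Ext.none)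

def k0_mm_133 : ∃ t, chk3 f_mm_133 t 1 1 1 = true :=
  ⟨(l 5), by decide +kernel⟩

theorem c_mm_133 : CertFX 536870912 469762048 1610612736 536870912 1046898278 26843546 false false false .dn 1 3 3
    ndF6q1 ndF3q3 pcF3 Cut.none Ext.none :=
  certFX0 (fam := false) (s1 := false) (s2 := false) (a := 1) (b := 3) (c := 3) (cn := .dn) (n1 := ndF6q1) (n2 := ndF3q3) (pc := pcF3) (cut := Cut.none) (xt := Ext.none) (P1 := 536870912) (W1 := 469762048) (P2 := 1610612736) (W2 := 536870912) (P3 := 1046898278) (W3 := 26843546)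
    rfl k0_mm_133

noncomputable def f_mm_202 : ℕ → ℕ → ℕ → ℕ → Bool := onCell 1073741824 536870912 1073741824 536870912 1046898278 26843546
    (rowFX 0 false false false .pp 2 0 2 (qsf 1073741824 536870912 1073741824 536870912 0) ndF6q2 ndF3q2 pcF0 Cut.none Ext.none)

def k0_mm_202 : ∃ t, chk3 f_mm_202 t 1 1 1 = true :=
  ⟨(l 3), by decide +kernel⟩

theorem c_mm_202 : CertFX 1073741824 536870912 1073741824 536870912 1046898278 26843546 false false false .pp 2 0 2
    ndF6q2 ndF3q2 pcF0 Cut.none Ext.none :=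
  certFX0 (fam := false) (s1 := false) (s2 := false) (a := 2) (b := 0) (c := 2) (cn := .pp) (n1 := ndF6q2) (n2 := ndF3q2) (pc := pcF0) (cut := Cut.none) (xt := Ext.none) (P1 := 1073741824) (W1 := 536870912) (P2 := 1073741824) (W2 := 536870912) (P3 := 1046898278) (W3 := 26843546)
    rfl k0_mm_202

noncomputable def f_mm_203 : ℕ → ℕ → ℕ → ℕ → Bool := onCell 1073741824 536870912 1610612736 536870912 1046898278 26843546
    (rowFX 0 false false false .up 2 0 3 (qsf 1073741824 536870912 1610612736 536870912 0) ndF6q2 ndF3q3 pcF0 Cut.none Ext.none)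

def k0_mm_203 : ∃ t, chk3 f_mm_203 t 1 1 1 = true :=
  ⟨(l 5), by decide +kernel⟩

theorem c_mm_203 : CertFX 1073741824 536870912 1610612736 536870912 1046898278 26843546 false false false .up 2 0 3
    ndF6q2 ndF3q3 pcF0 Cut.none Ext.none :=
  certFX0 (fam := false) (s1 := false) (s2 := false) (a := 2) (b := 0) (c := 3) (cn := .up) (n1 := ndF6q2) (n2 := ndF3q3) (pc := pcF0) (cut := Cut.none) (xt := Ext.none) (P1 := 1073741824) (W1 := 536870912) (P2 := 1610612736) (W2 := 536870912) (P3 := 1046898278) (W3 := 26843546)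
    rfl k0_mm_203

noncomputable def f_mm_213 : ℕ → ℕ → ℕ → ℕ → Bool := onCell 1073741824 536870912 1610612736 536870912 1046898278 26843546
    (rowFX 0 false false false .pnn 2 1 3 (qsf 1073741824 536870912 1610612736 536870912 1) ndF6q2 ndF3q3 pcF1 Cut.none Ext.none)

def k0_mm_213 : ∃ t, chk3 f_mm_213 t 1 1 1 = true :=
  ⟨(l 5), by decide +kernel⟩

theorem c_mm_213 : CertFX 1073741824 536870912 1610612736 536870912 1046898278 26843546 false false false .pnn 2 1 3
    ndF6q2 ndF3q3 pcF1 Cut.none Ext.none :=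
  certFX0 (fam := false) (s1 := false) (s2 := false) (a := 2) (b := 1) (c := 3) (cn := .pnn) (n1 := ndF6q2) (n2 := ndF3q3) (pc := pcF1) (cut := Cut.none) (xt := Ext.none) (P1 := 1073741824) (W1 := 536870912) (P2 := 1610612736) (W2 := 536870912) (P3 := 1046898278) (W3 := 26843546)
    rfl k0_mm_213

noncomputable def f_mm_303 : ℕ → ℕ → ℕ → ℕ → Bool := onCell 0 1230186008 1610612736 536870912 1046898278 26843546
    (rowFX 0 false false false .npn 3 0 3 (qsf 0 1230186008 1610612736 536870912 0) ndF6q3 ndF3q3 pcF0 Cut.none Ext.none)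

def k0_mm_303 : ∃ t, chk3 f_mm_303 t 1 1 1 = true :=
  ⟨(a (l 3) (a (l 3) (l 5))), by decide +kernel⟩

theorem c_mm_303 : CertFX 0 1230186008 1610612736 536870912 1046898278 26843546 false false false .npn 3 0 3
    ndF6q3 ndF3q3 pcF0 Cut.none Ext.none :=
  certFX0 (fam := false) (s1 := false) (s2 := false) (a := 3) (b := 0) (c := 3) (cn := .npn) (n1 := ndF6q3) (n2 := ndF3q3) (pc := pcF0) (cut := Cut.none) (xt := Ext.none) (P1 := 0) (W1 := 1230186008) (P2 := 1610612736) (W2 := 536870912) (P3 := 1046898278) (W3 := 26843546)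
    rfl k0_mm_303

noncomputable def f_mm_313 : ℕ → ℕ → ℕ → ℕ → Bool := onCell 0 1230186008 1610612736 536870912 1046898278 26843546
    (rowFX 0 false false false .dn 3 1 3 (qsf 0 1230186008 1610612736 536870912 1) ndF6q3 ndF3q3 pcF1 Cut.none Ext.none)

def k0_mm_313 : ∃ t, chk3 f_mm_313 t 1 1 1 = true :=
  ⟨(a (l 1) (a (l 1) (l 5))), by decide +kernel⟩

theorem c_mm_313 : CertFX 0 1230186008 1610612736 536870912 1046898278 26843546 false false false .dn 3 1 3
    ndF6q3 ndF3q3 pcF1 Cut.none Ext.none :=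
  certFX0 (fam := false) (s1 := false) (s2 := false) (a := 3) (b := 1) (c := 3) (cn := .dn) (n1 := ndF6q3) (n2 := ndF3q3) (pc := pcF1) (cut := Cut.none) (xt := Ext.none) (P1 := 0) (W1 := 1230186008) (P2 := 1610612736) (W2 := 536870912) (P3 := 1046898278) (W3 := 26843546)
    rfl k0_mm_313

end Pool.Agent.Strip051.G.IE1.Tab.C.FB63

namespace Pool.Agent.Strip051.G.IE1.Tab.C.FB65

open Pool.Agent.Strip051.PB Pool.Agent.Strip051.PB.T
open Pool.Agent.Strip051.G.IE1.Tab

noncomputable def f_pp_001 : ℕ → ℕ → ℕ → ℕ → Bool := onCell 0 536870912 536870912 469762048 1046898278 26843546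
    (rowFX 0 false true true .up 0 0 1 (qsf 0 536870912 536870912 469762048 0) ndF6q0 ndF5q1 pcF0 Cut.none Ext.none)

def k0_pp_001 : ∃ t, chk3 f_pp_001 t 1 1 1 = true :=
  ⟨(l 3), by decide +kernel⟩

theorem c_pp_001 : CertFX 0 536870912 536870912 469762048 1046898278 26843546 false true true .up 0 0 1
    ndF6q0 ndF5q1 pcF0 Cut.none Ext.none :=
  certFX0 (fam := false) (s1 := true) (s2 := true) (a := 0) (b := 0) (c := 1) (cn := .up) (n1 := ndF6q0) (n2 := ndF5q1) (pc := pcF0) (cut := Cut.none) (xt := Ext.none) (P1 := 0) (W1 := 536870912) (P2 := 536870912) (W2 := 469762048) (P3 := 1046898278) (W3 := 26843546)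
    rfl k0_pp_001

noncomputable def f_pp_011 : ℕ → ℕ → ℕ → ℕ → Bool := onCell 0 536870912 536870912 469762048 1046898278 26843546
    (rowFX 0 false true true .pnn 0 1 1 (qsf 0 536870912 536870912 469762048 1) ndF6q0 ndF5q1 pcF1 Cut.none Ext.none)

def k0_pp_011 : ∃ t, chk3 f_pp_011 t 1 1 1 = true :=
  ⟨(l 3), by decide +kernel⟩

theorem c_pp_011 : CertFX 0 536870912 536870912 469762048 1046898278 26843546 false true true .pnn 0 1 1
    ndF6q0 ndF5q1 pcF1 Cut.none Ext.none :=
  certFX0 (fam := false) (s1 := true) (s2 := true) (a := 0) (b := 1) (c := 1) (cn := .pnn) (n1 := ndF6q0) (n2 := ndF5q1) (pc := pcF1) (cut := Cut.none) (xt := Ext.none) (P1 := 0) (W1 := 536870912) (P2 := 536870912) (W2 := 469762048) (P3 := 1046898278) (W3 := 26843546)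
    rfl k0_pp_011

noncomputable def f_pp_012 : ℕ → ℕ → ℕ → ℕ → Bool := onCell 536870912 536870912 1073741824 536870912 1046898278 26843546
    (rowFX 2 false true true .pnp 0 1 2 (qsf 0 536870912 1073741824 536870912 1) ndF6q0 ndF5q2 pcF1 Cut.none Ext.none)

def k0_pp_012 : ∃ t, chk3 f_pp_012 t 1 1 1 = true :=
  ⟨(a (b (b (a (a (b (c (b (l 16253952) (l 15824656)) (l 15848112)) (c (l 219140431207) (l 15207024))) (b (c (a (l 16035160) (l 16035160)) (l 15890056)) (c (l 15204832) (l 15207024)))) (a (b (c (l 15993216) (l 16015888)) (c (l 15246776) (l 15207024))) (b (l 15773864) (l 15226904)))) (a (b (a (l 2) (b (c (l 229877174951) (l 14861016)) (l 2))) (l 2)) (b (a (b (c (l 14909528) (l 14861016)) (l 15602360)) (b (b (l 14801512) (l 14967488)) (l 15602360))) (a (b (l 16280240) (l 2)) (l 16418136))))) (a (l 2) (a (l 2) (l 16777216)))) (b (a (b (a (b (a (l 16025496) (l 16008216)) (a (l 15226888) (l 15218656))) (b (a (l 15969152) (l 15943320)) (l 15205336))) (b (b (a (l 14881152) (l 14844472))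 (a (l 15598272) (l 15582488))) (b (l 16119400) (l 16761896)))) (b (b (a (b (a (l 16211960) (b (l 16374672) (l 16242328))) (l 15953504)) (b (a (b (c (l 16455848) (l 16441832)) (l 16175952)) (b (a (c (l 16448872) (l 16416272)) (c (b (a (l 16496696) (l 16486320)) (a (l 16370584) (l 16199056))) (b (a (l 16425680) (c (l 16476112) (l 16467376))) (l 16328480)))) (c (a (l 16158440) (l 16086312)) (l 16121520)))) (a (l 15646280) (c (l 15651264) (l 15698736))))) (a (a (l 15340144) (l 15296688)) (a (l 15129288) (b (l 14977248) (l 14763136))))) (b (a (b (b (l 14976784) (l 15118832)) (l 15644584)) (b (b (l 14562816) (l 14683976)) (l 15236072))) (a (b (l 16273888) (l 16578968)) (b (l 15931720) (l 16290032)))))) (a (b (l 16762752) (l 16763328)) (a (b (l 16593192) (l 16616488)) (b (l 16323672) (l 16378872)))))), by decide +kernel⟩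

theorem c_pp_012 : CertFX 0 536870912 1073741824 536870912 1046898278 26843546 false true true .pnp 0 1 2
    ndF6q0 ndF5q2 pcF1 Cut.none Ext.none :=
  certFX2 (fam := false) (s1 := true) (s2 := true) (a := 0) (b := 1) (c := 2) (cn := .pnp) (n1 := ndF6q0) (n2 := ndF5q2) (pc := pcF1) (cut := Cut.none) (xt := Ext.none) (P1 := 0) (W1 := 536870912) (P2 := 1073741824) (W2 := 536870912) (P3 := 1046898278) (W3 := 26843546)
    rfl (fun _ => rfl) k0_pp_012

noncomputable def f_pp_022 : ℕ → ℕ → ℕ → ℕ → Bool := onCell 0 536870912 1073741824 536870912 1046898278 26843546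
    (rowFX 1 false true true .pp 0 2 2 (qsf 0 536870912 1073741824 536870912 2) ndF6q0 ndF5q2 pcF2 Cut.none Ext.none)

def k0_pp_022 : ∃ t, chk3 f_pp_022 t 2 4 1 = true :=
  ⟨(a (a (b (a (a (b (c (a (l 16221096) (b (l 16114608) (l 15876888))) (a (b (c (l 16407848) (a (l 16419048) (l 16361672))) (c (l 16007824) (l 15869032))) (c (l 16058128) (l 16036664)))) (c (a (l 15472880) (l 15335016)) (a (c (l 15443120) (l 15234432)) (l 15299832)))) (c (b (a (l 15938880) (l 15794936)) (l 15153672)) (b (l 15728464) (l 15087032)))) (b (a (c (l 15558096) (l 15505784)) (l 15215296)) (c (l 14750184) (l 14684192)))) (a (a (c (a (l 14428872) (b (l 14667528) (l 13977800))) (a (c (l 14169624) (b (l 14717872) (l 13992656))) (b (l 14614928) (l 13907192)))) (b (c (l 14509056) (l 14427472)) (c (b (l 14003576) (l 13835592)) (b (l 13910200) (l 13738784))))) (b (a (l 14231064) (b (l 14150984) (l 13891512))) (a (b (l 13902080) (l 14030800)) (l 14267688))))) (b (b (a (a (l 14953736) (l 14685920)) (b (l 14466456)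 (a (l 14287792) (l 14232920)))) (a (a (l 14336984) (b (l 14240448) (l 14130352))) (b (a (l 14173712) (l 14419656)) (l 14553816)))) (a (b (a (b (l 14088912) (l 14256160)) (l 14474032)) (l 14795544)) (b (l 15009200) (l 15229112))))) (b (a (b (a (b (a (l 14294136) (l 14531872)) (l 14659712)) (l 15208008)) (a (l 15117360) (b (l 15583528) (l 15695456)))) (b (a (b (l 15659616) (l 15760712)) (l 15802944)) (l 15693064))) (a (b (a (b (l 15509128) (l 15592408)) (l 15647056)) (l 15399616)) (l 15442000)))), by decide +kernel⟩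

def k1_pp_022 : ∃ t, chk3 f_pp_022 t 2 5 1 = true :=
  ⟨(a (b (a (a (b (a (b (c (a (l 13651808) (l 13707032)) (a (c (l 13587568) (l 13418824)) (l 13629344))) (c (l 14133072) (a (l 13877504) (l 14160552)))) (b (c (l 13969208) (l 13876896)) (c (l 14515264) (l 14438256)))) (a (a (c (l 15195072) (a (l 14935336) (l 15003704))) (c (l 15243920) (l 15168048))) (c (b (l 15273424) (l 15993352)) (l 15382936)))) (b (b (l 14467816) (l 14870784)) (b (a (l 15577800) (l 15815512)) (a (l 16172552) (l 16266376))))) (b (b (a (l 14829904) (l 15263232)) (a (l 15371328) (l 15408104))) (a (l 16026872) (l 15954352)))) (a (a (b (a (c (b (l 16328944) (l 16269008)) (b (a (l 16001656) (l 16423168)) (a (l 16096880) (l 16211360)))) (c (l 16430704) (l 16389136))) (a (c (l 15992312) (a (l 15961928) (l 15991616))) (l 16021744))) (b (l 16472568) (l 16172824))) (b (l 16501496) (l 16355168)))) (b (b (b (l 15163168) (l 15312304)) (l 15854712)) (b (l 16506064) (l 16679072)))), by decide +kernel⟩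

def k2_pp_022 : ∃ t, chk3 f_pp_022 t 3 2 1 = true :=
  ⟨(b (b (a (l 15687096) (l 15605744)) (a (l 15294576) (b (l 15590872) (l 15363544)))) (b (b (b (l 15181552) (l 15323592)) (a (l 15830256) (l 2))) (b (a (l 16422968) (l 2)) (l 16588552)))), by decide +kernel⟩

def k3_pp_022 : ∃ t, chk3 f_pp_022 t 1 3 1 = true :=
  ⟨(a (b (a (a (a (c (a (l 15844696) (l 16046008)) (a (a (l 15898088) (l 15991144)) (l 16054376))) (b (l 16172408) (l 16172408))) (b (l 16396768) (l 16396488))) (b (l 16683744) (l 16674712))) (a (a (a (b (a (l 15815792) (l 16042264)) (l 16017960)) (l 16172408)) (b (l 16396768) (l 16396768))) (b (l 16673864) (l 2)))) (b (b (l 16632040) (l 2)) (l 2))), by decide +kernel⟩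

theorem s4_pp_022 : ∃ t, chk3 f_pp_022 t 2 2 1 = true := ex3_b k0_pp_022 k1_pp_022

theorem s5_pp_022 : ∃ t, chk3 f_pp_022 t 1 2 1 = true := ex3_a s4_pp_022 k2_pp_022

theorem s6_pp_022 : ∃ t, chk3 f_pp_022 t 1 1 1 = true := ex3_b s5_pp_022 k3_pp_022

theorem c_pp_022 : CertFX 0 536870912 1073741824 536870912 1046898278 26843546 false true true .pp 0 2 2
    ndF6q0 ndF5q2 pcF2 Cut.none Ext.none :=
  certFX1 (fam := false) (s1 := true) (s2 := true) (a := 0) (b := 2) (c := 2) (cn := .pp) (n1 := ndF6q0) (n2 := ndF5q2) (pc := pcF2) (cut := Cut.none) (xt := Ext.none) (P1 := 0) (W1 := 536870912) (P2 := 1073741824) (W2 := 536870912) (P3 := 1046898278) (W3 := 26843546)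
    rfl (fun _ => rfl) s6_pp_022

noncomputable def f_pp_023 : ℕ → ℕ → ℕ → ℕ → Bool := onCell 1073741824 536870912 0 1230186008 1046898278 26843546
    (rowFX 2 false true true .up 0 2 3 (qsf 0 536870912 0 1230186008 2) ndF6q0 ndF5q3 pcF2 Cut.none Ext.none)

def k0_pp_023 : ∃ t, chk3 f_pp_023 t 1 1 1 = true :=
  ⟨(b (a (l 2) (a (l 2) (l 4))) (a (a (b (l 2) (b (l 2) (a (l 15523160) (l 15305840)))) (b (a (l 2) (l 16130728)) (a (a (a (l 15184728) (l 15328872)) (l 15775792)) (a (l 16296960) (l 16567528))))) (b (a (a (l 16514368) (l 16768416)) (l 16777184)) (a (b (l 16691720) (a (l 16706224) (l 16703488))) (b (a (l 16772336) (l 16701392)) (b (l 16599264) (a (l 16501688) (b (l 16340944) (a (l 16262288) (l 16117352)))))))))), by decide +kernel⟩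

theorem c_pp_023 : CertFX 0 536870912 0 1230186008 1046898278 26843546 false true true .up 0 2 3
    ndF6q0 ndF5q3 pcF2 Cut.none Ext.none :=
  certFX2 (fam := false) (s1 := true) (s2 := true) (a := 0) (b := 2) (c := 3) (cn := .up) (n1 := ndF6q0) (n2 := ndF5q3) (pc := pcF2) (cut := Cut.none) (xt := Ext.none) (P1 := 0) (W1 := 536870912) (P2 := 0) (W2 := 1230186008) (P3 := 1046898278) (W3 := 26843546)
    rfl (fun _ => rfl) k0_pp_023

noncomputable def f_pp_033 : ℕ → ℕ → ℕ → ℕ → Bool := onCell 0 536870912 0 1230186008 1046898278 26843546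
    (rowFX 0 false true true .pnn 0 3 3 (qsf 0 536870912 0 1230186008 3) ndF6q0 ndF5q3 pcF3 Cut.none Ext.none)

def k0_pp_033 : ∃ t, chk3 f_pp_033 t 1 1 1 = true :=
  ⟨(b (l 4) (b (b (a (l 4) (a (l 4) (a (l 4) (l 1)))) (a (a (l 4) (l 4)) (a (c (l 16777200) (l 16777200)) (l 1)))) (a (a (b (b (l 4) (a (a (c (l 16023392) (l 16014280)) (l 16130464)) (a (l 16334024) (l 16465104)))) (a (b (a (c (l 16023392) (l 16014280)) (l 16172408)) (a (l 16017960) (l 16172408))) (b (l 16396768) (l 16396768)))) (b (c (b (l 16675192) (l 16675192)) (c (l 16673200) (l 16671880))) (b (l 16673864) (l 1)))) (l 1)))), by decide +kernel⟩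

theorem c_pp_033 : CertFX 0 536870912 0 1230186008 1046898278 26843546 false true true .pnn 0 3 3
    ndF6q0 ndF5q3 pcF3 Cut.none Ext.none :=
  certFX0 (fam := false) (s1 := true) (s2 := true) (a := 0) (b := 3) (c := 3) (cn := .pnn) (n1 := ndF6q0) (n2 := ndF5q3) (pc := pcF3) (cut := Cut.none) (xt := Ext.none) (P1 := 0) (W1 := 536870912) (P2 := 0) (W2 := 1230186008) (P3 := 1046898278) (W3 := 26843546)
    rfl k0_pp_033

noncomputable def f_pp_101 : ℕ → ℕ → ℕ → ℕ → Bool := onCell 536870912 469762048 536870912 469762048 1046898278 26843546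
    (rowFX 0 false true true .npn 1 0 1 (qsf 536870912 469762048 536870912 469762048 0) ndF6q1 ndF5q1 pcF0 Cut.none Ext.none)

def k0_pp_101 : ∃ t, chk3 f_pp_101 t 1 1 1 = true :=
  ⟨(l 3), by decide +kernel⟩

theorem c_pp_101 : CertFX 536870912 469762048 536870912 469762048 1046898278 26843546 false true true .npn 1 0 1
    ndF6q1 ndF5q1 pcF0 Cut.none Ext.none :=
  certFX0 (fam := false) (s1 := true) (s2 := true) (a := 1) (b := 0) (c := 1) (cn := .npn) (n1 := ndF6q1) (n2 := ndF5q1) (pc := pcF0) (cut := Cut.none) (xt := Ext.none) (P1 := 536870912) (W1 := 469762048) (P2 := 536870912) (W2 := 469762048) (P3 := 1046898278) (W3 := 26843546)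
    rfl k0_pp_101

end Pool.Agent.Strip051.G.IE1.Tab.C.FB65

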