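import Pool.Agent.Strip051.G.IE1.Tab

/-! # Certificates F56 (generated) -/

set_option linter.all false
set_option maxRecDepth 100000

namespace Pool.Agent.Strip051.G.IE1.Tab.C.FB65

open Pool.Agent.Strip051.PB Pool.Agent.Strip051.PB.T
open Pool.Agent.Strip051.G.IE1.Tab

noncomputable def f_pp_102 : ℕ → ℕ → ℕ → ℕ → Bool := onCell 0 536870912 1073741824 536870912 1046898278 26843546
    (rowFX 2 false true true .npp 1 0 2 (qsf 536870912 469762048 1073741824 536870912 0) ndF6q1 ndF5q2 pcF0 Cut.none Ext.none)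

def k0_pp_102 : ∃ t, chk3 f_pp_102 t 1 1 1 = true :=
  ⟨(a (l 3) (a (b (l 3) (b (l 3) (l 2))) (a (a (b (l 3) (b (a (l 3) (b (l 3) (c (b (l 14703408) (l 14232728)) (b (l 14679088) (l 14141808))))) (l 2))) (b (b (b (l 3) (c (l 1302613040487) (l 15207024))) (b (b (b (l 14801512) (l 14967488)) (l 255715473463)) (b (b (a (l 3) (l 16196432)) (a (l 16537328) (l 16497320))) (a (l 16018216) (b (l 16491880) (l 16237392)))))) (b (b (b (a (l 15610064) (l 15834016)) (c (l 15213408) (l 15345920))) (c (b (a (l 14930600) (l 15160712)) (a (l 14459640) (l 14703408))) (b (l 14848704) (l 14477088)))) (a (l 2) (b (b (c (l 14232728) (l 14204728)) (l 2)) (l 2)))))) (a (b (b (b (c (l 285244239015) (l 15973944)) (c (l 309401853287) (l 15207024))) (b (b (b (l 14801512) (l 14967488)) (l 15434592)) (b (b (l 16196248) (l 16548440)) (a (b (l 16704680) (l 16501840)) (l 16708240))))) (b (b (b (l 16048688) (a (l 15610064) (l 15834016))) (c (b (l 15381176) (l 14839568)) (b (l 15345920) (l 14974528)))) (b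 (b (c (l 14398376) (l 14560976)) (a (l 2) (c (l 14232728) (l 14204728)))) (l 2)))) (b (b (b (c (l 15846416) (l 16015888)) (c (l 15246776) (l 15207024))) (b (b (b (l 14801512) (l 14967488)) (l 15581392)) (b (l 16280240) (l 16776736)))) (b (b (b (a (l 16595024) (l 16728992)) (l 16069656)) (b (c (l 15749232) (l 15722528)) (c (l 15381176) (l 15345920)))) (a (b (c (l 14451504) (l 14592184)) (l 2)) (b (c (l 14679520) (l 14883952)) (b (c (l 14232728) (l 14204728)) (l 2)))))))))), by decide +kernel⟩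

theorem c_pp_102 : CertFX 536870912 469762048 1073741824 536870912 1046898278 26843546 false true true .npp 1 0 2
    ndF6q1 ndF5q2 pcF0 Cut.none Ext.none :=
  certFX2 (fam := false) (s1 := true) (s2 := true) (a := 1) (b := 0) (c := 2) (cn := .npp) (n1 := ndF6q1) (n2 := ndF5q2) (pc := pcF0) (cut := Cut.none) (xt := Ext.none) (P1 := 536870912) (W1 := 469762048) (P2 := 1073741824) (W2 := 536870912) (P3 := 1046898278) (W3 := 26843546)
    rfl (fun _ => rfl) k0_pp_102

noncomputable def f_pp_112 : ℕ → ℕ → ℕ → ℕ → Bool := onCell 536870912 536870912 1073741824 536870912 1046898278 26843546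
    (rowFX 2 false true true .dn 1 1 2 (qsf 536870912 469762048 1073741824 536870912 1) ndF6q1 ndF5q2 pcF1 Cut.none Ext.none)

def k0_pp_112 : ∃ t, chk3 f_pp_112 t 1 1 1 = true :=
  ⟨(a (b (b (a (a (b (c (b (l 16253952) (l 15824656)) (l 15827144)) (c (a (l 15246776) (l 15246776)) (l 15207024))) (b (c (l 439191973031) (l 15932000)) (c (l 15204832) (l 15207024)))) (a (b (l 1) (l 301751403047)) (l 1))) (a (b (a (b (c (b (l 14826840) (l 14990696)) (l 14651304)) (c (l 15617424) (l 15587304))) (b (c (b (l 14826840) (l 14990696)) (l 14861016)) (c (l 15617424) (l 15587304)))) (a (a (b (l 16301208) (l 16776664)) (b (l 16343152) (l 16776664))) (b (a (l 16343152) (l 16385096)) (c (l 16776672) (l 16776656))))) (b (a (b (c (l 14909528) (l 14861016)) (l 15581392)) (b (l 1) (l 15602360))) (a (b (l 16259264) (l 16776664)) (l 16397160))))) (a (b (a (b (a (b (l 16777024) (a (l 16595024) (l 16728992))) (l 16777088)) (a (b (l 16048688) (l 15568104)) (b (c (l 16643560) (l 16640088)) (l 16111600))))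 (a (b (l 16777216) (c (l 16689776) (l 16557744))) (l 16777144))) (a (b (a (c (b (l 15381176) (l 15007344)) (b (l 15345920) (l 14974528))) (b (l 15631024) (c (l 15381176) (l 15345920)))) (a (c (b (l 14587120) (l 299132054103)) (b (l 14560976) (a (l 2) (l 14204728)))) (c (b (l 15007344) (l 14587120)) (l 74721090951)))) (a (b (a (l 15657256) (l 15961016)) (c (b (l 15381176) (l 15007344)) (l 15099192))) (b (l 16423584) (b (l 15735880) (l 15363640)))))) (b (a (l 16777216) (l 16777216)) (a (b (l 16712056) (a (l 15852792) (l 16423584))) (l 16735504))))) (b (a (b (l 1) (b (l 1) (b (l 1) (l 16761896)))) (l 1)) (a (b (l 16762752) (l 16763328)) (a (l 528850596183) (l 549788490919))))), by decide +kernel⟩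

theorem c_pp_112 : CertFX 536870912 469762048 1073741824 536870912 1046898278 26843546 false true true .dn 1 1 2
    ndF6q1 ndF5q2 pcF1 Cut.none Ext.none :=
  certFX2 (fam := false) (s1 := true) (s2 := true) (a := 1) (b := 1) (c := 2) (cn := .dn) (n1 := ndF6q1) (n2 := ndF5q2) (pc := pcF1) (cut := Cut.none) (xt := Ext.none) (P1 := 536870912) (W1 := 469762048) (P2 := 1073741824) (W2 := 536870912) (P3 := 1046898278) (W3 := 26843546)
    rfl (fun _ => rfl) k0_pp_112

noncomputable def f_pp_113 : ℕ → ℕ → ℕ → ℕ → Bool := onCell 536870912 469762048 0 1230186008 1046898278 26843546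
    (rowFX 0 false true true .nn 1 1 3 (qsf 536870912 469762048 0 1230186008 1) ndF6q1 ndF5q3 pcF1 Cut.none Ext.none)

def k0_pp_113 : ∃ t, chk3 f_pp_113 t 1 1 1 = true :=
  ⟨(b (a (l 2) (b (l 2) (a (l 2) (a (l 2) (b (l 12835112) (b (l 13222448) (l 13566120))))))) (b (a (l 2) (a (b (a (l 2) (l 14234904)) (a (b (l 2) (l 15517192)) (b (l 15124144) (l 15747080)))) (b (a (b (l 13856800) (l 14380840)) (b (l 13774160) (l 14384936))) (a (b (l 14921640) (l 15356488)) (b (l 14755120) (a (l 15145416) (l 14789920))))))) (a (b (a (l 2) (b (a (l 2) (l 15663384)) (a (l 15870176) (b (l 16165984) (l 16442632))))) (a (b (a (l 2) (b (l 15950384) (l 16265640))) (a (b (l 16189368) (l 16350360)) (l 16473992))) (b (a (b (l 16352584) (l 16505312)) (l 16635824)) (a (l 16656592) (l 16767368))))) (b (a (b (a (l 16169264) (b (l 16134304) (l 16312264))) (a (l 16600056) (a (l 16623336) (l 16213072)))) (a (b (a (l 15692888) (l 15427136)) (l 15582688)) (b (l 14961448) (l 14764768)))) (a (a (b (l 16759808)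 (l 16768408)) (b (l 16440384) (l 16430592))) (a (b (l 15573120) (l 15572176)) (a (l 14993400) (b (l 14779080) (l 14779080))))))))), by decide +kernel⟩

theorem c_pp_113 : CertFX 536870912 469762048 0 1230186008 1046898278 26843546 false true true .nn 1 1 3
    ndF6q1 ndF5q3 pcF1 Cut.none Ext.none :=
  certFX0 (fam := false) (s1 := true) (s2 := true) (a := 1) (b := 1) (c := 3) (cn := .nn) (n1 := ndF6q1) (n2 := ndF5q3) (pc := pcF1) (cut := Cut.none) (xt := Ext.none) (P1 := 536870912) (W1 := 469762048) (P2 := 0) (W2 := 1230186008) (P3 := 1046898278) (W3 := 26843546)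
    rfl k0_pp_113

noncomputable def f_pp_123 : ℕ → ℕ → ℕ → ℕ → Bool := onCell 1073741824 536870912 0 1230186008 1046898278 26843546
    (rowFX 2 false true true .npn 1 2 3 (qsf 536870912 469762048 0 1230186008 2) ndF6q1 ndF5q3 pcF2 Cut.none Ext.none)

def k0_pp_123 : ∃ t, chk3 f_pp_123 t 1 1 1 = true :=
  ⟨(b (a (a (b (a (a (l 2) (b (l 16426040) (l 15587648))) (a (l 15972408) (l 4))) (a (b (a (l 14717848) (l 14757080)) (a (l 13649304) (l 14394384))) (b (a (l 15171056) (l 15413136)) (a (l 14817848) (l 15024872))))) (b (l 4) (a (b (l 15647856) (l 15371360)) (b (l 4) (l 16000720))))) (a (b (l 4) (a (l 16482616) (l 4))) (l 4))) (a (a (b (a (b (a (l 14059400) (l 14583416)) (l 14938128)) (b (l 14943552) (l 15117880))) (b (a (l 15272264) (l 15285400)) (a (l 15523160) (l 15263896)))) (b (a (l 15438832) (l 16130728)) (a (b (l 15502624) (a (l 710847121959) (l 1))) (a (l 605622563239) (l 16567528))))) (b (a (a (l 16514368) (l 16768416)) (l 16777184)) (l 1)))), by decide +kernel⟩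

theorem c_pp_123 : CertFX 536870912 469762048 0 1230186008 1046898278 26843546 false true true .npn 1 2 3
    ndF6q1 ndF5q3 pcF2 Cut.none Ext.none :=
  certFX2 (fam := false) (s1 := true) (s2 := true) (a := 1) (b := 2) (c := 3) (cn := .npn) (n1 := ndF6q1) (n2 := ndF5q3) (pc := pcF2) (cut := Cut.none) (xt := Ext.none) (P1 := 536870912) (W1 := 469762048) (P2 := 0) (W2 := 1230186008) (P3 := 1046898278) (W3 := 26843546)
    rfl (fun _ => rfl) k0_pp_123

noncomputable def f_pp_133 : ℕ → ℕ → ℕ → ℕ → Bool := onCell 1610612736 536870912 0 1230186008 1046898278 26843546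
    (rowFX 2 false true true .dn 1 3 3 (qsf 536870912 469762048 0 1230186008 3) ndF6q1 ndF5q3 pcF3 Cut.none Ext.none)

def k0_pp_133 : ∃ t, chk3 f_pp_133 t 1 1 1 = true :=
  ⟨(b (l 4) (l 1)), by decide +kernel⟩

theorem c_pp_133 : CertFX 536870912 469762048 0 1230186008 1046898278 26843546 false true true .dn 1 3 3
    ndF6q1 ndF5q3 pcF3 Cut.none Ext.none :=
  certFX2 (fam := false) (s1 := true) (s2 := true) (a := 1) (b := 3) (c := 3) (cn := .dn) (n1 := ndF6q1) (n2 := ndF5q3) (pc := pcF3) (cut := Cut.none) (xt := Ext.none) (P1 := 536870912) (W1 := 469762048) (P2 := 0) (W2 := 1230186008) (P3 := 1046898278) (W3 := 26843546)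
    rfl (fun _ => rfl) k0_pp_133

noncomputable def f_pp_202 : ℕ → ℕ → ℕ → ℕ → Bool := onCell 1073741824 536870912 1073741824 536870912 1046898278 26843546
    (rowFX 0 false true true .pp 2 0 2 (qsf 1073741824 536870912 1073741824 536870912 0) ndF6q2 ndF5q2 pcF0 Cut.none Ext.none)

def k0_pp_202 : ∃ t, chk3 f_pp_202 t 1 1 1 = true :=
  ⟨(l 3), by decide +kernel⟩

theorem c_pp_202 : CertFX 1073741824 536870912 1073741824 536870912 1046898278 26843546 false true true .pp 2 0 2
    ndF6q2 ndF5q2 pcF0 Cut.none Ext.none :=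
  certFX0 (fam := false) (s1 := true) (s2 := true) (a := 2) (b := 0) (c := 2) (cn := .pp) (n1 := ndF6q2) (n2 := ndF5q2) (pc := pcF0) (cut := Cut.none) (xt := Ext.none) (P1 := 1073741824) (W1 := 536870912) (P2 := 1073741824) (W2 := 536870912) (P3 := 1046898278) (W3 := 26843546)
    rfl k0_pp_202

noncomputable def f_pp_203 : ℕ → ℕ → ℕ → ℕ → Bool := onCell 0 536870912 0 1230186008 1046898278 26843546
    (rowFX 2 false true true .up 2 0 3 (qsf 1073741824 536870912 0 1230186008 0) ndF6q2 ndF5q3 pcF0 Cut.none Ext.none)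

def k0_pp_203 : ∃ t, chk3 f_pp_203 t 1 1 1 = true :=
  ⟨(b (a (l 2) (a (l 2) (l 3))) (l 3)), by decide +kernel⟩

theorem c_pp_203 : CertFX 1073741824 536870912 0 1230186008 1046898278 26843546 false true true .up 2 0 3
    ndF6q2 ndF5q3 pcF0 Cut.none Ext.none :=
  certFX2 (fam := false) (s1 := true) (s2 := true) (a := 2) (b := 0) (c := 3) (cn := .up) (n1 := ndF6q2) (n2 := ndF5q3) (pc := pcF0) (cut := Cut.none) (xt := Ext.none) (P1 := 1073741824) (W1 := 536870912) (P2 := 0) (W2 := 1230186008) (P3 := 1046898278) (W3 := 26843546)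
    rfl (fun _ => rfl) k0_pp_203

noncomputable def f_pp_213 : ℕ → ℕ → ℕ → ℕ → Bool := onCell 536870912 536870912 0 1230186008 1046898278 26843546
    (rowFX 2 false true true .pnn 2 1 3 (qsf 1073741824 536870912 0 1230186008 1) ndF6q2 ndF5q3 pcF1 Cut.none Ext.none)

def k0_pp_213 : ∃ t, chk3 f_pp_213 t 1 2 1 = true :=
  ⟨(a (b (a (c (a (l 16764288) (l 16764288)) (a (l 16757496) (l 16757496))) (a (b (l 16764712) (l 16762760)) (l 16759464))) (b (a (a (l 3) (a (l 3) (l 16738040))) (a (l 16654152) (a (l 16737856) (b (l 16722816) (l 16552392))))) (a (l 3) (a (b (l 16734352) (a (l 16769224) (b (l 16755280) (a (l 16771336) (l 16656008))))) (b (a (l 16537896) (l 16217056)) (a (b (l 16436320) (l 16243792)) (l 15719392))))))) (a (b (a (b (l 16581064) (a (l 16631736) (l 16144224))) (b (a (l 15784192) (l 15286520)) (a (l 15518680) (l 15300808)))) (b (b (a (l 16071696) (l 15299840)) (a (a (l 16019040) (l 15422616)) (a (l 15285424) (l 15520640)))) (a (a (b (l 15591360) (b (l 15333048)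 (l 15289296))) (b (a (l 15253440) (l 15266008)) (l 15436744))) (a (b (l 15453592) (l 15595656)) (l 15574368))))) (b (a (b (l 15673232) (l 15691648)) (b (l 15911560) (l 15775040))) (b (a (l 15598672) (l 15584536)) (a (l 15518736) (l 1001831509399)))))), by decide +kernel⟩

def k1_pp_213 : ∃ t, chk3 f_pp_213 t 1 3 1 = true :=
  ⟨(b (a (a (l 3) (b (a (a (l 3) (b (a (l 529521505079) (l 16118928)) (l 3))) (b (a (b (l 15954496) (a (l 15795120) (l 15463352))) (b (a (l 15460320) (l 15260896)) (a (l 15139496) (l 15296384)))) (a (b (a (l 15257824) (b (l 15217976) (l 15228992))) (a (l 3) (l 15320600))) (b (l 15368352) (a (l 15451920) (l 15577520)))))) (a (l 3) (b (a (b (l 15412040) (l 3)) (a (b (b (l 15573488) (l 120961199351)) (l 195049485607)) (b (l 15635120) (l 185922617127)))) (a (l 3) (c (l 274506169783) (b (l 225650963991) (l 3)))))))) (a (b (a (a (b (l 15425408) (a (b (l 15565376) (l 15634360)) (l 15557568))) (b (l 15486648) (l 15587944))) (a (b (l 15598400) (l 15533656)) (a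 (l 15527008) (l 15465464)))) (a (a (b (c (l 15586792) (l 15555864)) (c (l 403220832807) (a (l 163373766439) (l 15444024)))) (a (b (l 15521656) (l 394094042007)) (l 433285503799))) (a (b (l 15449400) (l 1)) (l 1)))) (a (b (a (l 15427352) (l 1)) (l 1)) (l 1)))) (a (b (l 3) (l 3)) (l 1))), by decide +kernel⟩

theorem s2_pp_213 : ∃ t, chk3 f_pp_213 t 1 1 1 = true := ex3_b k0_pp_213 k1_pp_213

theorem c_pp_213 : CertFX 1073741824 536870912 0 1230186008 1046898278 26843546 false true true .pnn 2 1 3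
    ndF6q2 ndF5q3 pcF1 Cut.none Ext.none :=
  certFX2 (fam := false) (s1 := true) (s2 := true) (a := 2) (b := 1) (c := 3) (cn := .pnn) (n1 := ndF6q2) (n2 := ndF5q3) (pc := pcF1) (cut := Cut.none) (xt := Ext.none) (P1 := 1073741824) (W1 := 536870912) (P2 := 0) (W2 := 1230186008) (P3 := 1046898278) (W3 := 26843546)
    rfl (fun _ => rfl) s2_pp_213

noncomputable def f_pp_303 : ℕ → ℕ → ℕ → ℕ → Bool := onCell 0 1230186008 0 1230186008 1046898278 26843546
    (rowFX 0 false true true .npn 3 0 3 (qsf 0 1230186008 0 1230186008 0) ndF6q3 ndF5q3 pcF0 Cut.none Ext.none)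

def k0_pp_303 : ∃ t, chk3 f_pp_303 t 1 1 1 = true :=
  ⟨(a (b (l 3) (l 3)) (b (a (l 3) (b (l 3) (l 3))) (l 3))), by decide +kernel⟩

theorem c_pp_303 : CertFX 0 1230186008 0 1230186008 1046898278 26843546 false true true .npn 3 0 3
    ndF6q3 ndF5q3 pcF0 Cut.none Ext.none :=
  certFX0 (fam := false) (s1 := true) (s2 := true) (a := 3) (b := 0) (c := 3) (cn := .npn) (n1 := ndF6q3) (n2 := ndF5q3) (pc := pcF0) (cut := Cut.none) (xt := Ext.none) (P1 := 0) (W1 := 1230186008) (P2 := 0) (W2 := 1230186008) (P3 := 1046898278) (W3 := 26843546)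
    rfl k0_pp_303

noncomputable def f_pp_313 : ℕ → ℕ → ℕ → ℕ → Bool := onCell 0 1230186008 0 1230186008 1046898278 26843546
    (rowFX 0 false true true .dn 3 1 3 (qsf 0 1230186008 0 1230186008 1) ndF6q3 ndF5q3 pcF1 Cut.none Ext.none)

def k0_pp_313 : ∃ t, chk3 f_pp_313 t 1 1 1 = true :=
  ⟨(a (l 1) (a (l 1) (b (b (l 3) (l 1)) (l 1)))), by decide +kernel⟩

theorem c_pp_313 : CertFX 0 1230186008 0 1230186008 1046898278 26843546 false true true .dn 3 1 3
    ndF6q3 ndF5q3 pcF1 Cut.none Ext.none :=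
  certFX0 (fam := false) (s1 := true) (s2 := true) (a := 3) (b := 1) (c := 3) (cn := .dn) (n1 := ndF6q3) (n2 := ndF5q3) (pc := pcF1) (cut := Cut.none) (xt := Ext.none) (P1 := 0) (W1 := 1230186008) (P2 := 0) (W2 := 1230186008) (P3 := 1046898278) (W3 := 26843546)
    rfl k0_pp_313

noncomputable def f_pm_001 : ℕ → ℕ → ℕ → ℕ → Bool := onCell 0 536870912 536870912 469762048 1046898278 26843546
    (rowFX 0 false true false .up 0 0 1 (qsf 0 536870912 536870912 469762048 0) ndF6q0 ndF5q1 pcF0 Cut.none Ext.none)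

def k0_pm_001 : ∃ t, chk3 f_pm_001 t 1 1 1 = true :=
  ⟨(l 4), by decide +kernel⟩

theorem c_pm_001 : CertFX 0 536870912 536870912 469762048 1046898278 26843546 false true false .up 0 0 1
    ndF6q0 ndF5q1 pcF0 Cut.none Ext.none :=
  certFX0 (fam := false) (s1 := true) (s2 := false) (a := 0) (b := 0) (c := 1) (cn := .up) (n1 := ndF6q0) (n2 := ndF5q1) (pc := pcF0) (cut := Cut.none) (xt := Ext.none) (P1 := 0) (W1 := 536870912) (P2 := 536870912) (W2 := 469762048) (P3 := 1046898278) (W3 := 26843546)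
    rfl k0_pm_001

noncomputable def f_pm_011 : ℕ → ℕ → ℕ → ℕ → Bool := onCell 0 536870912 536870912 469762048 1046898278 26843546
    (rowFX 0 false true false .pnn 0 1 1 (qsf 0 536870912 536870912 469762048 1) ndF6q0 ndF5q1 pcF1 Cut.none Ext.none)

def k0_pm_011 : ∃ t, chk3 f_pm_011 t 1 1 1 = true :=
  ⟨(l 4), by decide +kernel⟩

theorem c_pm_011 : CertFX 0 536870912 536870912 469762048 1046898278 26843546 false true false .pnn 0 1 1
    ndF6q0 ndF5q1 pcF1 Cut.none Ext.none :=
  certFX0 (fam := false) (s1 := true) (s2 := false) (a := 0) (b := 1) (c := 1) (cn := .pnn) (n1 := ndF6q0) (n2 := ndF5q1) (pc := pcF1) (cut := Cut.none) (xt := Ext.none) (P1 := 0) (W1 := 536870912) (P2 := 536870912) (W2 := 469762048) (P3 := 1046898278) (W3 := 26843546)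
    rfl k0_pm_011

noncomputable def f_pm_012 : ℕ → ℕ → ℕ → ℕ → Bool := onCell 0 536870912 1073741824 536870912 1046898278 26843546
    (rowFX 0 false true false .pnp 0 1 2 (qsf 0 536870912 1073741824 536870912 1) ndF6q0 ndF5q2 pcF1 Cut.none Ext.none)

def k0_pm_012 : ∃ t, chk3 f_pm_012 t 1 1 1 = true :=
  ⟨(l 4), by decide +kernel⟩

theorem c_pm_012 : CertFX 0 536870912 1073741824 536870912 1046898278 26843546 false true false .pnp 0 1 2
    ndF6q0 ndF5q2 pcF1 Cut.none Ext.none :=
  certFX0 (fam := false) (s1 := true) (s2 := false) (a := 0) (b := 1) (c := 2) (cn := .pnp) (n1 := ndF6q0) (n2 := ndF5q2) (pc := pcF1) (cut := Cut.none) (xt := Ext.none) (P1 := 0) (W1 := 536870912) (P2 := 1073741824) (W2 := 536870912) (P3 := 1046898278) (W3 := 26843546)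
    rfl k0_pm_012

noncomputable def f_pm_022 : ℕ → ℕ → ℕ → ℕ → Bool := onCell 0 536870912 1073741824 536870912 1046898278 26843546
    (rowFX 0 false true false .pp 0 2 2 (qsf 0 536870912 1073741824 536870912 2) ndF6q0 ndF5q2 pcF2 Cut.none Ext.none)

def k0_pm_022 : ∃ t, chk3 f_pm_022 t 1 1 1 = true :=
  ⟨(l 4), by decide +kernel⟩

theorem c_pm_022 : CertFX 0 536870912 1073741824 536870912 1046898278 26843546 false true false .pp 0 2 2
    ndF6q0 ndF5q2 pcF2 Cut.none Ext.none :=
  certFX0 (fam := false) (s1 := true) (s2 := false) (a := 0) (b := 2) (c := 2) (cn := .pp) (n1 := ndF6q0) (n2 := ndF5q2) (pc := pcF2) (cut := Cut.none) (xt := Ext.none) (P1 := 0) (W1 := 536870912) (P2 := 1073741824) (W2 := 536870912) (P3 := 1046898278) (W3 := 26843546)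
    rfl k0_pm_022

noncomputable def f_pm_023 : ℕ → ℕ → ℕ → ℕ → Bool := onCell 0 536870912 0 1230186008 1046898278 26843546
    (rowFX 0 false true false .up 0 2 3 (qsf 0 536870912 0 1230186008 2) ndF6q0 ndF5q3 pcF2 Cut.none Ext.none)

def k0_pm_023 : ∃ t, chk3 f_pm_023 t 1 1 1 = true :=
  ⟨(b (l 4) (l 4)), by decide +kernel⟩

theorem c_pm_023 : CertFX 0 536870912 0 1230186008 1046898278 26843546 false true false .up 0 2 3
    ndF6q0 ndF5q3 pcF2 Cut.none Ext.none :=
  certFX0 (fam := false) (s1 := true) (s2 := false) (a := 0) (b := 2) (c := 3) (cn := .up) (n1 := ndF6q0) (n2 := ndF5q3) (pc := pcF2) (cut := Cut.none) (xt := Ext.none) (P1 := 0) (W1 := 536870912) (P2 := 0) (W2 := 1230186008) (P3 := 1046898278) (W3 := 26843546)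
    rfl k0_pm_023

noncomputable def f_pm_033 : ℕ → ℕ → ℕ → ℕ → Bool := onCell 0 536870912 0 1230186008 1046898278 26843546
    (rowFX 0 false true false .pnn 0 3 3 (qsf 0 536870912 0 1230186008 3) ndF6q0 ndF5q3 pcF3 Cut.none Ext.none)

def k0_pm_033 : ∃ t, chk3 f_pm_033 t 1 1 1 = true :=
  ⟨(b (l 4) (l 4)), by decide +kernel⟩

theorem c_pm_033 : CertFX 0 536870912 0 1230186008 1046898278 26843546 false true false .pnn 0 3 3
    ndF6q0 ndF5q3 pcF3 Cut.none Ext.none :=
  certFX0 (fam := false) (s1 := true) (s2 := false) (a := 0) (b := 3) (c := 3) (cn := .pnn) (n1 := ndF6q0) (n2 := ndF5q3) (pc := pcF3) (cut := Cut.none) (xt := Ext.none) (P1 := 0) (W1 := 536870912) (P2 := 0) (W2 := 1230186008) (P3 := 1046898278) (W3 := 26843546)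
    rfl k0_pm_033

noncomputable def f_pm_101 : ℕ → ℕ → ℕ → ℕ → Bool := onCell 536870912 469762048 536870912 469762048 1046898278 26843546
    (rowFX 0 false true false .npn 1 0 1 (qsf 536870912 469762048 536870912 469762048 0) ndF6q1 ndF5q1 pcF0 Cut.none Ext.none)

def k0_pm_101 : ∃ t, chk3 f_pm_101 t 1 1 1 = true :=
  ⟨(l 4), by decide +kernel⟩

theorem c_pm_101 : CertFX 536870912 469762048 536870912 469762048 1046898278 26843546 false true false .npn 1 0 1
    ndF6q1 ndF5q1 pcF0 Cut.none Ext.none :=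
  certFX0 (fam := false) (s1 := true) (s2 := false) (a := 1) (b := 0) (c := 1) (cn := .npn) (n1 := ndF6q1) (n2 := ndF5q1) (pc := pcF0) (cut := Cut.none) (xt := Ext.none) (P1 := 536870912) (W1 := 469762048) (P2 := 536870912) (W2 := 469762048) (P3 := 1046898278) (W3 := 26843546)
    rfl k0_pm_101

noncomputable def f_pm_102 : ℕ → ℕ → ℕ → ℕ → Bool := onCell 536870912 469762048 1073741824 536870912 1046898278 26843546
    (rowFX 0 false true false .npp 1 0 2 (qsf 536870912 469762048 1073741824 536870912 0) ndF6q1 ndF5q2 pcF0 Cut.none Ext.none)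

def k0_pm_102 : ∃ t, chk3 f_pm_102 t 1 1 1 = true :=
  ⟨(l 4), by decide +kernel⟩

theorem c_pm_102 : CertFX 536870912 469762048 1073741824 536870912 1046898278 26843546 false true false .npp 1 0 2
    ndF6q1 ndF5q2 pcF0 Cut.none Ext.none :=
  certFX0 (fam := false) (s1 := true) (s2 := false) (a := 1) (b := 0) (c := 2) (cn := .npp) (n1 := ndF6q1) (n2 := ndF5q2) (pc := pcF0) (cut := Cut.none) (xt := Ext.none) (P1 := 536870912) (W1 := 469762048) (P2 := 1073741824) (W2 := 536870912) (P3 := 1046898278) (W3 := 26843546)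
    rfl k0_pm_102

noncomputable def f_pm_112 : ℕ → ℕ → ℕ → ℕ → Bool := onCell 536870912 469762048 1073741824 536870912 1046898278 26843546
    (rowFX 0 false true false .dn 1 1 2 (qsf 536870912 469762048 1073741824 536870912 1) ndF6q1 ndF5q2 pcF1 Cut.none Ext.none)

def k0_pm_112 : ∃ t, chk3 f_pm_112 t 1 1 1 = true :=
  ⟨(l 4), by decide +kernel⟩

theorem c_pm_112 : CertFX 536870912 469762048 1073741824 536870912 1046898278 26843546 false true false .dn 1 1 2
    ndF6q1 ndF5q2 pcF1 Cut.none Ext.none :=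
  certFX0 (fam := false) (s1 := true) (s2 := false) (a := 1) (b := 1) (c := 2) (cn := .dn) (n1 := ndF6q1) (n2 := ndF5q2) (pc := pcF1) (cut := Cut.none) (xt := Ext.none) (P1 := 536870912) (W1 := 469762048) (P2 := 1073741824) (W2 := 536870912) (P3 := 1046898278) (W3 := 26843546)
    rfl k0_pm_112

noncomputable def f_pm_113 : ℕ → ℕ → ℕ → ℕ → Bool := onCell 536870912 469762048 0 1230186008 1046898278 26843546
    (rowFX 0 false true false .nn 1 1 3 (qsf 536870912 469762048 0 1230186008 1) ndF6q1 ndF5q3 pcF1 Cut.none Ext.none)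

def k0_pm_113 : ∃ t, chk3 f_pm_113 t 1 1 1 = true :=
  ⟨(b (b (l 2) (l 4)) (l 4)), by decide +kernel⟩

theorem c_pm_113 : CertFX 536870912 469762048 0 1230186008 1046898278 26843546 false true false .nn 1 1 3
    ndF6q1 ndF5q3 pcF1 Cut.none Ext.none :=
  certFX0 (fam := false) (s1 := true) (s2 := false) (a := 1) (b := 1) (c := 3) (cn := .nn) (n1 := ndF6q1) (n2 := ndF5q3) (pc := pcF1) (cut := Cut.none) (xt := Ext.none) (P1 := 536870912) (W1 := 469762048) (P2 := 0) (W2 := 1230186008) (P3 := 1046898278) (W3 := 26843546)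
    rfl k0_pm_113

noncomputable def f_pm_123 : ℕ → ℕ → ℕ → ℕ → Bool := onCell 536870912 469762048 0 1230186008 1046898278 26843546
    (rowFX 0 false true false .npn 1 2 3 (qsf 536870912 469762048 0 1230186008 2) ndF6q1 ndF5q3 pcF2 Cut.none Ext.none)

def k0_pm_123 : ∃ t, chk3 f_pm_123 t 1 1 1 = true :=
  ⟨(b (b (l 4) (l 4)) (l 4)), by decide +kernel⟩

theorem c_pm_123 : CertFX 536870912 469762048 0 1230186008 1046898278 26843546 false true false .npn 1 2 3
    ndF6q1 ndF5q3 pcF2 Cut.none Ext.none :=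
  certFX0 (fam := false) (s1 := true) (s2 := false) (a := 1) (b := 2) (c := 3) (cn := .npn) (n1 := ndF6q1) (n2 := ndF5q3) (pc := pcF2) (cut := Cut.none) (xt := Ext.none) (P1 := 536870912) (W1 := 469762048) (P2 := 0) (W2 := 1230186008) (P3 := 1046898278) (W3 := 26843546)
    rfl k0_pm_123

noncomputable def f_pm_133 : ℕ → ℕ → ℕ → ℕ → Bool := onCell 1610612736 536870912 0 1230186008 1046898278 26843546
    (rowFX 2 false true false .dn 1 3 3 (qsf 536870912 469762048 0 1230186008 3) ndF6q1 ndF5q3 pcF3 Cut.none Ext.none)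

def k0_pm_133 : ∃ t, chk3 f_pm_133 t 1 1 1 = true :=
  ⟨(b (l 4) (l 1)), by decide +kernel⟩

theorem c_pm_133 : CertFX 536870912 469762048 0 1230186008 1046898278 26843546 false true false .dn 1 3 3
    ndF6q1 ndF5q3 pcF3 Cut.none Ext.none :=
  certFX2 (fam := false) (s1 := true) (s2 := false) (a := 1) (b := 3) (c := 3) (cn := .dn) (n1 := ndF6q1) (n2 := ndF5q3) (pc := pcF3) (cut := Cut.none) (xt := Ext.none) (P1 := 536870912) (W1 := 469762048) (P2 := 0) (W2 := 1230186008) (P3 := 1046898278) (W3 := 26843546)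
    rfl (fun _ => rfl) k0_pm_133

noncomputable def f_pm_202 : ℕ → ℕ → ℕ → ℕ → Bool := onCell 1073741824 536870912 0 536870912 1046898278 26843546
    (rowFX 1 false true false .pp 2 0 2 (qsf 1073741824 536870912 1073741824 536870912 0) ndF6q2 ndF5q2 pcF0 Cut.none Ext.none)

def k0_pm_202 : ∃ t, chk3 f_pm_202 t 4 4 1 = true :=
  ⟨(b (b (a (a (l 4) (c (b (b (l 14613656) (c (l 14528760) (l 14499456))) (l 179007576599)) (b (b (c (b (l 14596992) (l 14545656)) (b (c (l 14576144) (l 14520296)) (l 14517232))) (c (l 14470064) (l 14440512))) (l 14306704)))) (b (c (b (l 14008456) (c (l 13944672) (a (l 14178704) (l 13640880)))) (b (c (b (l 13976416) (a (l 14213808) (l 13662184))) (b (a (c (l 14236456) (l 14220344)) (l 13665440)) (a (l 14181192) (l 13622592)))) (c (a (l 14145240) (l 13600536)) (l 13833456)))) (a (c (l 14022640) (l 13992432)) (c (b (l 13617616) (l 13633624)) (a (l 13598248) (l 13482096)))))) (a (a (a (l 4) (c (l 14309848) (l 14244920))) (c (l 14095328) (l 14024688)))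 (a (b (c (l 13895384) (l 13818792)) (c (l 13631912) (a (l 13746864) (l 13727040)))) (b (c (l 13795592) (l 13463896)) (c (l 14124104) (l 14054168)))))) (a (b (a (c (l 14017480) (l 13943368)) (b (l 13800552) (a (l 13696792) (l 13744496)))) (a (b (l 13720408) (a (l 13620056) (l 13661464))) (b (a (l 13701792) (l 14042656)) (l 14233816)))) (b (a (b (a (c (l 13827880) (l 13750208)) (l 14062864)) (l 14284928)) (c (l 14717608) (l 14663624))) (a (l 14721200) (b (l 15197648) (l 15384056)))))), by decide +kernel⟩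

def k1_pm_202 : ∃ t, chk3 f_pm_202 t 5 4 1 = true :=
  ⟨(b (a (b (b (a (c (b (a (l 13393976) (l 13792904)) (a (l 13472048) (l 14003120))) (b (a (c (l 13327488) (b (l 13264024) (l 13275280))) (b (l 13554544) (l 13663272))) (a (c (l 13408264) (l 13363808)) (l 13931360)))) (c (b (l 14928952) (l 14873344)) (b (c (l 14850248) (b (l 14627352) (l 14919168))) (c (l 15093704) (l 15070224))))) (a (c (a (l 13754080) (l 14312976)) (a (l 13672000) (l 14244968))) (c (b (l 15320336) (l 15507792)) (l 15290160)))) (a (c (a (l 14361160) (l 14891000)) (a (l 14296128) (l 14839616))) (a (c (l 15449424) (l 15394232)) (b (l 15820208) (l 16123256))))) (b (b (a (c (b (l 16310928) (a (l 16169360) (l 16711104))) (b (b (a (l 15813368) (l 16470736)) (c (l 16219312) (l 16088384))) (a (l 16154280) (l 16710176)))) (c (l 16469608) (c (l 16465656) (l 16463616)))) (a (c (l 16318360) (a (l 16347712) (l 16674296))) (c (l 16470856) (l 16474376)))) (a (c (l 16600824) (l 16594240)) (l 16497640)))) (a (b (a (b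 (a (l 14899576) (l 15331720)) (l 15120784)) (l 15945224)) (a (l 15345104) (l 15926064))) (b (a (l 16574544) (l 16544432)) (l 16711824)))), by decide +kernel⟩

def k2_pm_202 : ∃ t, chk3 f_pm_202 t 2 5 1 = true :=
  ⟨(a (a (b (a (b (b (a (l 13624944) (l 13961408)) (l 14154704)) (l 14761240)) (b (l 14819384) (c (l 15435784) (l 15169488)))) (b (a (c (l 15358520) (l 15068816)) (l 15600608)) (l 15561200))) (b (a (b (a (l 15414272) (l 15574368)) (l 15647952)) (l 15438672)) (l 15517424))) (a (b (a (l 15324608) (l 15900320)) (a (l 15288328) (l 15858824))) (b (l 16575760) (a (l 16476744) (l 16759848))))), by decide +kernel⟩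

def k3_pm_202 : ∃ t, chk3 f_pm_202 t 3 2 1 = true :=
  ⟨(b (b (a (b (b (c (l 16291792) (c (l 16285552) (l 16282320))) (c (l 16276736) (l 16303192))) (l 16280744)) (b (b (a (a (l 16087800) (b (l 16180424) (l 16016912))) (c (l 15731744) (l 15842064))) (c (l 15983624) (l 15992696))) (a (l 16143160) (l 15969112)))) (a (b (a (l 16473856) (l 16362664)) (l 16488744)) (b (l 16132304) (l 16314512)))) (b (a (l 16595888) (l 16446096)) (a (l 16753976) (l 2)))), by decide +kernel⟩

def k4_pm_202 : ∃ t, chk3 f_pm_202 t 1 3 1 = true :=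
  ⟨(a (a (b (a (l 15561360) (b (l 15512056) (l 15512056))) (a (l 15561360) (l 15512056))) (a (b (a (l 15281464) (l 15851320)) (b (l 15572896) (l 2))) (b (a (l 16468944) (l 16776784)) (l 2)))) (b (a (l 16777216) (l 2)) (l 2))), by decide +kernel⟩

theorem s5_pm_202 : ∃ t, chk3 f_pm_202 t 2 4 1 = true := ex3_a k0_pm_202 k1_pm_202

theorem s6_pm_202 : ∃ t, chk3 f_pm_202 t 2 2 1 = true := ex3_b s5_pm_202 k2_pm_202

theorem s7_pm_202 : ∃ t, chk3 f_pm_202 t 1 2 1 = true := ex3_a s6_pm_202 k3_pm_202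

theorem s8_pm_202 : ∃ t, chk3 f_pm_202 t 1 1 1 = true := ex3_b s7_pm_202 k4_pm_202

theorem c_pm_202 : CertFX 1073741824 536870912 1073741824 536870912 1046898278 26843546 false true false .pp 2 0 2
    ndF6q2 ndF5q2 pcF0 Cut.none Ext.none :=
  certFX1 (fam := false) (s1 := true) (s2 := false) (a := 2) (b := 0) (c := 2) (cn := .pp) (n1 := ndF6q2) (n2 := ndF5q2) (pc := pcF0) (cut := Cut.none) (xt := Ext.none) (P1 := 1073741824) (W1 := 536870912) (P2 := 1073741824) (W2 := 536870912) (P3 := 1046898278) (W3 := 26843546)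
    rfl (fun _ => rfl) s8_pm_202

noncomputable def f_pm_203 : ℕ → ℕ → ℕ → ℕ → Bool := onCell 0 536870912 0 1230186008 1046898278 26843546
    (rowFX 2 false true false .up 2 0 3 (qsf 1073741824 536870912 0 1230186008 0) ndF6q2 ndF5q3 pcF0 Cut.none Ext.none)

def k0_pm_203 : ∃ t, chk3 f_pm_203 t 1 1 1 = true :=
  ⟨(b (a (l 2) (a (l 2) (b (a (l 2) (l 275045745191)) (a (b (l 1222555656327) (l 1215576283831)) (b (l 16738040) (l 16750656)))))) (a (a (b (l 2) (b (l 2) (b (a (l 2) (l 16104144)) (a (a (a (c (l 15635088) (l 15637152)) (l 15559640)) (l 15913392)) (l 16237256))))) (b (a (l 2) (a (l 2) (l 1121087449223))) (a (b (l 949824061895) (l 16505024)) (b (a (l 16667096) (l 16777056)) (l 16743720))))) (b (a (a (l 1063105069399) (l 697495978247)) (b (l 16777168) (l 16777200))) (b (a (l 16777216) (a (l 16744352) (b (l 16693256) (l 15954376)))) (a (b (l 16749072) (a (l 16710408) (b (l 16443776) (l 15918056)))) (b (a (l 16044128) (l 15747544)) (a (b (l 15571440) (l 15517864)) (l 15515752)))))))),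 by decide +kernel⟩

theorem c_pm_203 : CertFX 1073741824 536870912 0 1230186008 1046898278 26843546 false true false .up 2 0 3
    ndF6q2 ndF5q3 pcF0 Cut.none Ext.none :=
  certFX2 (fam := false) (s1 := true) (s2 := false) (a := 2) (b := 0) (c := 3) (cn := .up) (n1 := ndF6q2) (n2 := ndF5q3) (pc := pcF0) (cut := Cut.none) (xt := Ext.none) (P1 := 1073741824) (W1 := 536870912) (P2 := 0) (W2 := 1230186008) (P3 := 1046898278) (W3 := 26843546)
    rfl (fun _ => rfl) k0_pm_203

noncomputable def f_pm_213 : ℕ → ℕ → ℕ → ℕ → Bool := onCell 1073741824 536870912 0 1230186008 1046898278 26843546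
    (rowFX 0 false true false .pnn 2 1 3 (qsf 1073741824 536870912 0 1230186008 1) ndF6q2 ndF5q3 pcF1 Cut.none Ext.none)

def k0_pm_213 : ∃ t, chk3 f_pm_213 t 1 1 1 = true :=
  ⟨(b (a (a (b (a (b (l 15897744) (a (l 15817672) (l 15797256))) (b (l 15628288) (l 15554944))) (a (b (l 15677680) (b (l 15537000) (l 15505584))) (b (a (l 15672536) (l 15417016)) (l 15532992)))) (b (a (b (l 15441472) (l 15490152)) (l 16610216)) (a (b (l 15588744) (l 15593656)) (b (l 16604728) (l 16631952))))) (b (a (a (l 16759464) (c (l 16764288) (l 16757496))) (a (c (l 16764288) (l 16757496)) (c (l 16764288) (l 16757496)))) (a (b (l 16738040) (l 16750656)) (c (b (a (l 16743080) (l 16743080)) (l 659847704983)) (b (a (l 16729256) (l 16729256)) (a (l 16750224) (l 16750224))))))) (b (a (b (a (a (b (l 15532912) (l 15564568)) (l 15512400)) (a (l 15572944) (l 16627008))) (a (l 15534384) (a (l 15572912) (l 16626976)))) (a (l 16777184) (l 16777184))) (a (b (a (a (l 15561360) (l 15512056)) (a (l 15489016) (l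 16626968))) (a (b (a (l 15561360) (l 15512056)) (l 15512968)) (b (a (l 15572896) (l 1)) (l 1)))) (l 1)))), by decide +kernel⟩

theorem c_pm_213 : CertFX 1073741824 536870912 0 1230186008 1046898278 26843546 false true false .pnn 2 1 3
    ndF6q2 ndF5q3 pcF1 Cut.none Ext.none :=
  certFX0 (fam := false) (s1 := true) (s2 := false) (a := 2) (b := 1) (c := 3) (cn := .pnn) (n1 := ndF6q2) (n2 := ndF5q3) (pc := pcF1) (cut := Cut.none) (xt := Ext.none) (P1 := 1073741824) (W1 := 536870912) (P2 := 0) (W2 := 1230186008) (P3 := 1046898278) (W3 := 26843546)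
    rfl k0_pm_213

noncomputable def f_pm_303 : ℕ → ℕ → ℕ → ℕ → Bool := onCell 0 1230186008 0 1230186008 1046898278 26843546
    (rowFX 0 false true false .npn 3 0 3 (qsf 0 1230186008 0 1230186008 0) ndF6q3 ndF5q3 pcF0 Cut.none Ext.none)

def k0_pm_303 : ∃ t, chk3 f_pm_303 t 2 1 1 = true :=
  ⟨(b (l 3) (b (l 3) (l 1))), by decide +kernel⟩

def k1_pm_303 : ∃ t, chk3 f_pm_303 t 3 2 1 = true :=
  ⟨(a (l 3) (a (b (l 3) (l 3)) (b (a (l 3) (c (l 432348923847) (l 478519823447))) (a (b (l 3) (c (l 458655329399) (l 477445810839))) (b (c (l 16743080) (l 16729256)) (c (l 16730144) (l 16750224))))))), by decide +kernel⟩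

def k2_pm_303 : ∃ t, chk3 f_pm_303 t 6 3 1 = true :=
  ⟨(b (a (l 3) (l 3)) (b (b (b (b (l 3) (l 1)) (l 1)) (l 1)) (l 1))), by decide +kernel⟩

def k3_pm_303 : ∃ t, chk3 f_pm_303 t 7 6 1 = true :=
  ⟨(a (b (a (l 3) (b (l 3) (a (l 3) (c (l 16529216) (b (l 16596328) (l 16449808)))))) (a (a (a (l 3) (b (l 3) (b (l 3) (c (c (l 422144239959) (b (l 14944696) (l 403890517543))) (c (b (l 15042344) (c (l 14923776) (l 14941400))) (l 14979888)))))) (b (b (l 3) (c (l 427514258679) (l 419461136247))) (c (b (c (a (l 422144826711) (l 268063249943)) (a (l 15337376) (l 15504936))) (a (c (b (l 15192272) (l 15069824)) (b (l 15190104) (l 15074896))) (b (c (l 15322872) (l 15313880)) (l 15229952)))) (b (a (l 400670033783) (b (l 15513544) (l 15398176))) (a (c (l 15122048) (l 15101112)) (l 15235464)))))) (a (b (a (b (l 15899304) (c (l 15849152) (l 15825040))) (b (l 16112856) (l 15887696))) (c (b (a (l 15664240) (l 15812656)) (a (b (l 15505160) (l 15338624)) (l 15651240))) (b (a (l 15635200) (l 15787568))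 (a (l 15432640) (l 15621888))))) (b (b (l 16239552) (l 15966584)) (c (b (l 16011352) (l 15867040)) (b (l 15991456) (l 15591712))))))) (b (c (a (b (l 444697080551) (a (b (l 16752296) (l 16685728)) (l 16774240))) (l 16777168)) (a (a (b (l 16776288) (b (l 16667760) (l 16536552))) (b (l 16777192) (l 16774160))) (l 16777168))) (a (b (a (b (l 16518688) (l 16403080)) (l 16690232)) (a (b (l 16245432) (l 16102496)) (l 16430536))) (b (a (l 16773952) (l 16777184)) (b (a (l 16718496) (l 16777216)) (l 16668304)))))), by decide +kernel⟩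

def k4_pm_303 : ∃ t, chk3 f_pm_303 t 14 56 1 = true :=
  ⟨(b (a (c (a (b (l 14616304) (a (l 14740432) (b (l 14832024) (l 14813832)))) (c (b (l 15083872) (l 15013984)) (a (l 14897424) (l 15125792)))) (a (a (a (l 3) (b (c (l 14760264) (l 368993533191)) (c (l 14695664) (c (b (l 372214684007) (l 14688128)) (a (b (l 364698440535) (l 14652264)) (b (l 14716616) (l 14688184))))))) (c (b (l 270209489415) (b (l 14813832) (a (c (l 14759568) (l 14753240)) (l 14822544)))) (a (b (l 14810248) (b (l 14769768) (c (l 14688136) (l 14742360)))) (l 14847192)))) (c (a (l 14977376) (l 15113688)) (l 15032032)))) (a (a (c (l 15043376) (l 15246968)) (l 15452240)) (l 15710800))) (a (a (a (a (l 1) (c (l 957269557495) (c (l 14348784) (b (l 14602536) (l 1))))) (c (b (b (l 14802912) (l 950827461799)) (l 14733928)) (a (b (c (l 14721848) (b (a (c (l 14704176) (l 14701744)) (l 14533672)) (l 14694744))) (l 874054515687)) (b (c (b (l 14723944) (l 14638464)) (c (l 14578096) (l 14781544))) (c (l 14736944) (b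 (l 14755440) (l 14729176))))))) (c (b (a (c (l 14905976) (a (l 14869568) (l 14929360))) (l 15052184)) (a (c (l 14892696) (a (l 14844368) (b (l 14895784) (l 14648888)))) (l 14879768))) (a (c (a (b (l 14881536) (b (l 14823168) (l 14825968))) (l 14908840)) (b (l 14881984) (l 14788512))) (l 15008776)))) (a (c (a (l 15183296) (l 15353688)) (l 15079968)) (c (l 15548560) (l 15581912))))), by decide +kernel⟩

def k5_pm_303 : ∃ t, chk3 f_pm_303 t 14 57 1 = true :=
  ⟨(a (a (a (l 1) (b (c (l 952437671415) (l 14566672)) (l 1))) (c (b (b (a (a (l 14793976) (c (l 14907800) (l 14862000))) (a (c (l 14925000) (l 14886544)) (l 14977120))) (a (l 14773808) (c (c (b (l 14985112) (l 14974920)) (l 14956520)) (l 14900080)))) (a (l 14644304) (b (l 14904288) (l 14838480)))) (b (a (b (c (a (l 14781832) (l 14865464)) (a (b (l 14791008) (l 14763912)) (l 14852024))) (a (l 14702272) (c (l 14816160) (b (l 14825272) (l 14798344))))) (b (l 14961536) (c (a (l 14899312) (l 14956008)) (l 14793832)))) (a (l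 14636992) (b (a (c (l 14850472) (b (l 14859528) (l 14832776))) (c (l 14933136) (l 14920304))) (a (l 14771736) (c (l 14884768) (b (l 14893768) (l 14867200))))))))) (a (b (c (a (c (l 15075976) (l 15072856)) (l 15238256)) (l 15157824)) (c (a (b (a (l 15021152) (l 15054400)) (a (l 14992456) (l 15053936))) (l 15083160)) (a (b (l 15028928) (a (c (l 14966936) (l 14954400)) (l 15012344))) (l 15153240)))) (c (b (l 15322768) (a (l 15292728) (l 15476280))) (b (l 15483440) (l 15390856))))), by decide +kernel⟩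

def k6_pm_303 : ∃ t, chk3 f_pm_303 t 14 29 1 = true :=
  ⟨(a (b (a (l 1) (b (c (l 14610880) (l 861169647575)) (l 1))) (l 1)) (b (a (a (b (c (b (l 14867096) (l 14907184)) (b (a (c (l 14919040) (b (l 14927992) (l 14901608))) (c (l 15000704) (l 14988472))) (a (l 14841264) (c (l 14953304) (b (l 14962192) (l 14936008)))))) (c (l 14777680) (l 14771352))) (b (c (b (a (l 15086688) (l 15120008)) (a (l 15058936) (l 15077472))) (b (l 15096136) (a (c (l 15034448) (l 15022496)) (l 15079320)))) (b (c (a (l 15000864) (l 14988792)) (a (c (l 14988496) (b (l 14996360) (l 14969096))) (c (l 14944096) (l 14953432)))) (l 14975232)))) (a (b (c (l 15086512) (l 15220520)) (a (b (c (c (l 15162872) (l 15141352)) (l 15114800)) (l 15125000)) (c (b (l 15187432) (b (l 15186680) (l 15182344))) (l 14947600)))) (c (b (l 15371032) (b (l 15286120) (l 15190472))) (l 15295592)))) (a (l 806408953831) (b (a (c (l 15070640) (b (l 15088224) (l 15037760))) (c (l 15228832) (l 15209280))) (a (l 14925416) (c (l 15138784)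 (b (l 15156072) (l 15106592)))))))), by decide +kernel⟩

def k7_pm_303 : ∃ t, chk3 f_pm_303 t 14 15 1 = true :=
  ⟨(a (l 1) (b (b (a (l 1) (l 14570184)) (l 1)) (l 1))), by decide +kernel⟩

def k8_pm_303 : ∃ t, chk3 f_pm_303 t 15 7 1 = true :=
  ⟨(b (a (b (a (b (b (l 16002648) (c (l 15939544) (l 15915896))) (c (b (l 15851000) (l 15730656)) (b (l 15817016) (l 15716464)))) (b (l 16224312) (a (l 16011680) (l 16100416)))) (a (b (c (b (l 15528872) (a (l 15439728) (l 15620512))) (b (l 15615504) (l 15522576))) (b (l 15429616) (a (c (l 15294712) (l 15276176)) (l 15380656)))) (b (b (l 15944608) (a (l 15773280) (l 15933824))) (l 15693656)))) (b (a (l 16140488) (b (l 16670984) (l 16531720))) (a (b (b (l 16198048) (l 16131648)) (b (l 16049128) (l 15963768))) (b (l 16395376) (l 16237024))))) (b (a (b (a (b (a (c (l 15206760) (b (l 15160816) (l 15175320))) (c (l 15339368) (l 15300832))) (a (l 15067272) (c (l 15274560) (b (l 15144384) (l 15243904))))) (b (l 15474176) (a (c (l 15320816) (l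 15304176)) (l 15508544)))) (a (l 683466110263) (b (a (c (l 15342144) (b (l 15148688) (l 15312328))) (c (l 15301536) (l 15328128))) (a (l 15209304) (b (a (l 15388352) (l 15299928)) (l 595956959431)))))) (b (a (l 15816384) (l 16109440)) (a (a (c (a (l 15552056) (l 15452352)) (l 15572904)) (l 15724808)) (l 15871768)))) (a (b (a (l 1) (l 617431289095)) (l 1)) (b (a (b (a (c (l 15476552) (b (a (l 15460040) (l 15525760)) (l 15343712))) (c (l 15618768) (l 15353816))) (a (l 15351280) (c (l 15459432) (a (l 15310296) (l 15574608))))) (b (l 15817544) (c (a (l 15682368) (l 15792552)) (l 15733544)))) (a (b (l 15325728) (l 1)) (b (a (a (l 15571128) (c (l 15653464) (l 15640448))) (c (l 15745488) (l 15734112))) (a (l 15492968) (b (a (l 15422440) (l 15746472)) (l 15655192))))))))), by decide +kernel⟩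

theorem s9_pm_303 : ∃ t, chk3 f_pm_303 t 14 28 1 = true := ex3_b k4_pm_303 k5_pm_303

theorem s10_pm_303 : ∃ t, chk3 f_pm_303 t 14 14 1 = true := ex3_b s9_pm_303 k6_pm_303

theorem s11_pm_303 : ∃ t, chk3 f_pm_303 t 14 7 1 = true := ex3_b s10_pm_303 k7_pm_303

theorem s12_pm_303 : ∃ t, chk3 f_pm_303 t 7 7 1 = true := ex3_a s11_pm_303 k8_pm_303

theorem s13_pm_303 : ∃ t, chk3 f_pm_303 t 7 3 1 = true := ex3_b k3_pm_303 s12_pm_303

theorem s14_pm_303 : ∃ t, chk3 f_pm_303 t 3 3 1 = true := ex3_a k2_pm_303 s13_pm_303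

theorem s15_pm_303 : ∃ t, chk3 f_pm_303 t 3 1 1 = true := ex3_b k1_pm_303 s14_pm_303

theorem s16_pm_303 : ∃ t, chk3 f_pm_303 t 1 1 1 = true := ex3_a k0_pm_303 s15_pm_303

theorem c_pm_303 : CertFX 0 1230186008 0 1230186008 1046898278 26843546 false true false .npn 3 0 3
    ndF6q3 ndF5q3 pcF0 Cut.none Ext.none :=
  certFX0 (fam := false) (s1 := true) (s2 := false) (a := 3) (b := 0) (c := 3) (cn := .npn) (n1 := ndF6q3) (n2 := ndF5q3) (pc := pcF0) (cut := Cut.none) (xt := Ext.none) (P1 := 0) (W1 := 1230186008) (P2 := 0) (W2 := 1230186008) (P3 := 1046898278) (W3 := 26843546)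
    rfl s16_pm_303

noncomputable def f_pm_313 : ℕ → ℕ → ℕ → ℕ → Bool := onCell 0 1230186008 0 1230186008 1046898278 26843546
    (rowFX 0 false true false .dn 3 1 3 (qsf 0 1230186008 0 1230186008 1) ndF6q3 ndF5q3 pcF1 Cut.none Ext.none)

def k0_pm_313 : ∃ t, chk3 f_pm_313 t 1 1 1 = true :=
  ⟨(a (l 1) (b (a (l 1) (b (b (l 3) (l 1)) (l 1))) (l 1))), by decide +kernel⟩

theorem c_pm_313 : CertFX 0 1230186008 0 1230186008 1046898278 26843546 false true false .dn 3 1 3
    ndF6q3 ndF5q3 pcF1 Cut.none Ext.none :=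
  certFX0 (fam := false) (s1 := true) (s2 := false) (a := 3) (b := 1) (c := 3) (cn := .dn) (n1 := ndF6q3) (n2 := ndF5q3) (pc := pcF1) (cut := Cut.none) (xt := Ext.none) (P1 := 0) (W1 := 1230186008) (P2 := 0) (W2 := 1230186008) (P3 := 1046898278) (W3 := 26843546)
    rfl k0_pm_313

noncomputable def f_mm_001 : ℕ → ℕ → ℕ → ℕ → Bool := onCell 0 536870912 536870912 469762048 1046898278 26843546
    (rowFX 0 false false false .up 0 0 1 (qsf 0 536870912 536870912 469762048 0) ndF6q0 ndF5q1 pcF0 Cut.none Ext.none)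

def k0_mm_001 : ∃ t, chk3 f_mm_001 t 1 1 1 = true :=
  ⟨(l 3), by decide +kernel⟩

theorem c_mm_001 : CertFX 0 536870912 536870912 469762048 1046898278 26843546 false false false .up 0 0 1
    ndF6q0 ndF5q1 pcF0 Cut.none Ext.none :=
  certFX0 (fam := false) (s1 := false) (s2 := false) (a := 0) (b := 0) (c := 1) (cn := .up) (n1 := ndF6q0) (n2 := ndF5q1) (pc := pcF0) (cut := Cut.none) (xt := Ext.none) (P1 := 0) (W1 := 536870912) (P2 := 536870912) (W2 := 469762048) (P3 := 1046898278) (W3 := 26843546)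
    rfl k0_mm_001

noncomputable def f_mm_011 : ℕ → ℕ → ℕ → ℕ → Bool := onCell 0 536870912 536870912 469762048 1046898278 26843546
    (rowFX 0 false false false .pnn 0 1 1 (qsf 0 536870912 536870912 469762048 1) ndF6q0 ndF5q1 pcF1 Cut.none Ext.none)

def k0_mm_011 : ∃ t, chk3 f_mm_011 t 1 1 1 = true :=
  ⟨(l 3), by decide +kernel⟩

theorem c_mm_011 : CertFX 0 536870912 536870912 469762048 1046898278 26843546 false false false .pnn 0 1 1
    ndF6q0 ndF5q1 pcF1 Cut.none Ext.none :=
  certFX0 (fam := false) (s1 := false) (s2 := false) (a := 0) (b := 1) (c := 1) (cn := .pnn) (n1 := ndF6q0) (n2 := ndF5q1) (pc := pcF1) (cut := Cut.none) (xt := Ext.none) (P1 := 0) (W1 := 536870912) (P2 := 536870912) (W2 := 469762048) (P3 := 1046898278) (W3 := 26843546)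
    rfl k0_mm_011

noncomputable def f_mm_012 : ℕ → ℕ → ℕ → ℕ → Bool := onCell 0 536870912 1073741824 536870912 1046898278 26843546
    (rowFX 0 false false false .pnp 0 1 2 (qsf 0 536870912 1073741824 536870912 1) ndF6q0 ndF5q2 pcF1 Cut.none Ext.none)

def k0_mm_012 : ∃ t, chk3 f_mm_012 t 1 1 1 = true :=
  ⟨(l 5), by decide +kernel⟩

theorem c_mm_012 : CertFX 0 536870912 1073741824 536870912 1046898278 26843546 false false false .pnp 0 1 2
    ndF6q0 ndF5q2 pcF1 Cut.none Ext.none :=
  certFX0 (fam := false) (s1 := false) (s2 := false) (a := 0) (b := 1) (c := 2) (cn := .pnp) (n1 := ndF6q0) (n2 := ndF5q2) (pc := pcF1) (cut := Cut.none) (xt := Ext.none) (P1 := 0) (W1 := 536870912) (P2 := 1073741824) (W2 := 536870912) (P3 := 1046898278) (W3 := 26843546)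
    rfl k0_mm_012

noncomputable def f_mm_022 : ℕ → ℕ → ℕ → ℕ → Bool := onCell 0 536870912 1073741824 536870912 1046898278 26843546
    (rowFX 0 false false false .pp 0 2 2 (qsf 0 536870912 1073741824 536870912 2) ndF6q0 ndF5q2 pcF2 Cut.none Ext.none)

def k0_mm_022 : ∃ t, chk3 f_mm_022 t 1 1 1 = true :=
  ⟨(l 5), by decide +kernel⟩

theorem c_mm_022 : CertFX 0 536870912 1073741824 536870912 1046898278 26843546 false false false .pp 0 2 2
    ndF6q0 ndF5q2 pcF2 Cut.none Ext.none :=
  certFX0 (fam := false) (s1 := false) (s2 := false) (a := 0) (b := 2) (c := 2) (cn := .pp) (n1 := ndF6q0) (n2 := ndF5q2) (pc := pcF2) (cut := Cut.none) (xt := Ext.none) (P1 := 0) (W1 := 536870912) (P2 := 1073741824) (W2 := 536870912) (P3 := 1046898278) (W3 := 26843546)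
    rfl k0_mm_022

noncomputable def f_mm_023 : ℕ → ℕ → ℕ → ℕ → Bool := onCell 0 536870912 0 1230186008 1046898278 26843546
    (rowFX 0 false false false .up 0 2 3 (qsf 0 536870912 0 1230186008 2) ndF6q0 ndF5q3 pcF2 Cut.none Ext.none)

def k0_mm_023 : ∃ t, chk3 f_mm_023 t 1 1 1 = true :=
  ⟨(l 5), by decide +kernel⟩

theorem c_mm_023 : CertFX 0 536870912 0 1230186008 1046898278 26843546 false false false .up 0 2 3
    ndF6q0 ndF5q3 pcF2 Cut.none Ext.none :=
  certFX0 (fam := false) (s1 := false) (s2 := false) (a := 0) (b := 2) (c := 3) (cn := .up) (n1 := ndF6q0) (n2 := ndF5q3) (pc := pcF2) (cut := Cut.none) (xt := Ext.none) (P1 := 0) (W1 := 536870912) (P2 := 0) (W2 := 1230186008) (P3 := 1046898278) (W3 := 26843546)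
    rfl k0_mm_023

noncomputable def f_mm_033 : ℕ → ℕ → ℕ → ℕ → Bool := onCell 0 536870912 0 1230186008 1046898278 26843546
    (rowFX 0 false false false .pnn 0 3 3 (qsf 0 536870912 0 1230186008 3) ndF6q0 ndF5q3 pcF3 Cut.none Ext.none)

def k0_mm_033 : ∃ t, chk3 f_mm_033 t 1 1 1 = true :=
  ⟨(l 5), by decide +kernel⟩

theorem c_mm_033 : CertFX 0 536870912 0 1230186008 1046898278 26843546 false false false .pnn 0 3 3
    ndF6q0 ndF5q3 pcF3 Cut.none Ext.none :=
  certFX0 (fam := false) (s1 := false) (s2 := false) (a := 0) (b := 3) (c := 3) (cn := .pnn) (n1 := ndF6q0) (n2 := ndF5q3) (pc := pcF3) (cut := Cut.none) (xt := Ext.none) (P1 := 0) (W1 := 536870912) (P2 := 0) (W2 := 1230186008) (P3 := 1046898278) (W3 := 26843546)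
    rfl k0_mm_033

noncomputable def f_mm_101 : ℕ → ℕ → ℕ → ℕ → Bool := onCell 536870912 469762048 536870912 469762048 1046898278 26843546
    (rowFX 0 false false false .npn 1 0 1 (qsf 536870912 469762048 536870912 469762048 0) ndF6q1 ndF5q1 pcF0 Cut.none Ext.none)

def k0_mm_101 : ∃ t, chk3 f_mm_101 t 1 1 1 = true :=
  ⟨(l 3), by decide +kernel⟩

theorem c_mm_101 : CertFX 536870912 469762048 536870912 469762048 1046898278 26843546 false false false .npn 1 0 1
    ndF6q1 ndF5q1 pcF0 Cut.none Ext.none :=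
  certFX0 (fam := false) (s1 := false) (s2 := false) (a := 1) (b := 0) (c := 1) (cn := .npn) (n1 := ndF6q1) (n2 := ndF5q1) (pc := pcF0) (cut := Cut.none) (xt := Ext.none) (P1 := 536870912) (W1 := 469762048) (P2 := 536870912) (W2 := 469762048) (P3 := 1046898278) (W3 := 26843546)
    rfl k0_mm_101

noncomputable def f_mm_102 : ℕ → ℕ → ℕ → ℕ → Bool := onCell 536870912 469762048 1073741824 536870912 1046898278 26843546
    (rowFX 0 false false false .npp 1 0 2 (qsf 536870912 469762048 1073741824 536870912 0) ndF6q1 ndF5q2 pcF0 Cut.none Ext.none)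

def k0_mm_102 : ∃ t, chk3 f_mm_102 t 1 1 1 = true :=
  ⟨(l 5), by decide +kernel⟩

theorem c_mm_102 : CertFX 536870912 469762048 1073741824 536870912 1046898278 26843546 false false false .npp 1 0 2
    ndF6q1 ndF5q2 pcF0 Cut.none Ext.none :=
  certFX0 (fam := false) (s1 := false) (s2 := false) (a := 1) (b := 0) (c := 2) (cn := .npp) (n1 := ndF6q1) (n2 := ndF5q2) (pc := pcF0) (cut := Cut.none) (xt := Ext.none) (P1 := 536870912) (W1 := 469762048) (P2 := 1073741824) (W2 := 536870912) (P3 := 1046898278) (W3 := 26843546)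
    rfl k0_mm_102

noncomputable def f_mm_112 : ℕ → ℕ → ℕ → ℕ → Bool := onCell 536870912 469762048 1073741824 536870912 1046898278 26843546
    (rowFX 0 false false false .dn 1 1 2 (qsf 536870912 469762048 1073741824 536870912 1) ndF6q1 ndF5q2 pcF1 Cut.none Ext.none)

def k0_mm_112 : ∃ t, chk3 f_mm_112 t 1 1 1 = true :=
  ⟨(l 5), by decide +kernel⟩

theorem c_mm_112 : CertFX 536870912 469762048 1073741824 536870912 1046898278 26843546 false false false .dn 1 1 2
    ndF6q1 ndF5q2 pcF1 Cut.none Ext.none :=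
  certFX0 (fam := false) (s1 := false) (s2 := false) (a := 1) (b := 1) (c := 2) (cn := .dn) (n1 := ndF6q1) (n2 := ndF5q2) (pc := pcF1) (cut := Cut.none) (xt := Ext.none) (P1 := 536870912) (W1 := 469762048) (P2 := 1073741824) (W2 := 536870912) (P3 := 1046898278) (W3 := 26843546)
    rfl k0_mm_112

noncomputable def f_mm_113 : ℕ → ℕ → ℕ → ℕ → Bool := onCell 536870912 469762048 0 1230186008 1046898278 26843546
    (rowFX 0 false false false .nn 1 1 3 (qsf 536870912 469762048 0 1230186008 1) ndF6q1 ndF5q3 pcF1 Cut.none Ext.none)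

def k0_mm_113 : ∃ t, chk3 f_mm_113 t 1 1 1 = true :=
  ⟨(l 5), by decide +kernel⟩

theorem c_mm_113 : CertFX 536870912 469762048 0 1230186008 1046898278 26843546 false false false .nn 1 1 3
    ndF6q1 ndF5q3 pcF1 Cut.none Ext.none :=
  certFX0 (fam := false) (s1 := false) (s2 := false) (a := 1) (b := 1) (c := 3) (cn := .nn) (n1 := ndF6q1) (n2 := ndF5q3) (pc := pcF1) (cut := Cut.none) (xt := Ext.none) (P1 := 536870912) (W1 := 469762048) (P2 := 0) (W2 := 1230186008) (P3 := 1046898278) (W3 := 26843546)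
    rfl k0_mm_113

noncomputable def f_mm_123 : ℕ → ℕ → ℕ → ℕ → Bool := onCell 536870912 469762048 0 1230186008 1046898278 26843546
    (rowFX 0 false false false .npn 1 2 3 (qsf 536870912 469762048 0 1230186008 2) ndF6q1 ndF5q3 pcF2 Cut.none Ext.none)

def k0_mm_123 : ∃ t, chk3 f_mm_123 t 1 1 1 = true :=
  ⟨(l 5), by decide +kernel⟩

theorem c_mm_123 : CertFX 536870912 469762048 0 1230186008 1046898278 26843546 false false false .npn 1 2 3
    ndF6q1 ndF5q3 pcF2 Cut.none Ext.none :=
  certFX0 (fam := false) (s1 := false) (s2 := false) (a := 1) (b := 2) (c := 3) (cn := .npn) (n1 := ndF6q1) (n2 := ndF5q3) (pc := pcF2) (cut := Cut.none) (xt := Ext.none) (P1 := 536870912) (W1 := 469762048) (P2 := 0) (W2 := 1230186008) (P3 := 1046898278) (W3 := 26843546)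
    rfl k0_mm_123

noncomputable def f_mm_133 : ℕ → ℕ → ℕ → ℕ → Bool := onCell 536870912 469762048 0 1230186008 1046898278 26843546
    (rowFX 0 false false false .dn 1 3 3 (qsf 536870912 469762048 0 1230186008 3) ndF6q1 ndF5q3 pcF3 Cut.none Ext.none)

def k0_mm_133 : ∃ t, chk3 f_mm_133 t 1 1 1 = true :=
  ⟨(l 5), by decide +kernel⟩

theorem c_mm_133 : CertFX 536870912 469762048 0 1230186008 1046898278 26843546 false false false .dn 1 3 3
    ndF6q1 ndF5q3 pcF3 Cut.none Ext.none :=
  certFX0 (fam := false) (s1 := false) (s2 := false) (a := 1) (b := 3) (c := 3) (cn := .dn) (n1 := ndF6q1) (n2 := ndF5q3) (pc := pcF3) (cut := Cut.none) (xt := Ext.none) (P1 := 536870912) (W1 := 469762048) (P2 := 0) (W2 := 1230186008) (P3 := 1046898278) (W3 := 26843546)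
    rfl k0_mm_133

noncomputable def f_mm_202 : ℕ → ℕ → ℕ → ℕ → Bool := onCell 1073741824 536870912 1073741824 536870912 1046898278 26843546
    (rowFX 0 false false false .pp 2 0 2 (qsf 1073741824 536870912 1073741824 536870912 0) ndF6q2 ndF5q2 pcF0 Cut.none Ext.none)

def k0_mm_202 : ∃ t, chk3 f_mm_202 t 1 1 1 = true :=
  ⟨(l 3), by decide +kernel⟩

theorem c_mm_202 : CertFX 1073741824 536870912 1073741824 536870912 1046898278 26843546 false false false .pp 2 0 2
    ndF6q2 ndF5q2 pcF0 Cut.none Ext.none :=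
  certFX0 (fam := false) (s1 := false) (s2 := false) (a := 2) (b := 0) (c := 2) (cn := .pp) (n1 := ndF6q2) (n2 := ndF5q2) (pc := pcF0) (cut := Cut.none) (xt := Ext.none) (P1 := 1073741824) (W1 := 536870912) (P2 := 1073741824) (W2 := 536870912) (P3 := 1046898278) (W3 := 26843546)
    rfl k0_mm_202

noncomputable def f_mm_203 : ℕ → ℕ → ℕ → ℕ → Bool := onCell 1073741824 536870912 0 1230186008 1046898278 26843546
    (rowFX 0 false false false .up 2 0 3 (qsf 1073741824 536870912 0 1230186008 0) ndF6q2 ndF5q3 pcF0 Cut.none Ext.none)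

def k0_mm_203 : ∃ t, chk3 f_mm_203 t 1 1 1 = true :=
  ⟨(l 5), by decide +kernel⟩

theorem c_mm_203 : CertFX 1073741824 536870912 0 1230186008 1046898278 26843546 false false false .up 2 0 3
    ndF6q2 ndF5q3 pcF0 Cut.none Ext.none :=
  certFX0 (fam := false) (s1 := false) (s2 := false) (a := 2) (b := 0) (c := 3) (cn := .up) (n1 := ndF6q2) (n2 := ndF5q3) (pc := pcF0) (cut := Cut.none) (xt := Ext.none) (P1 := 1073741824) (W1 := 536870912) (P2 := 0) (W2 := 1230186008) (P3 := 1046898278) (W3 := 26843546)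
    rfl k0_mm_203

noncomputable def f_mm_213 : ℕ → ℕ → ℕ → ℕ → Bool := onCell 1073741824 536870912 0 1230186008 1046898278 26843546
    (rowFX 0 false false false .pnn 2 1 3 (qsf 1073741824 536870912 0 1230186008 1) ndF6q2 ndF5q3 pcF1 Cut.none Ext.none)

def k0_mm_213 : ∃ t, chk3 f_mm_213 t 1 1 1 = true :=
  ⟨(l 5), by decide +kernel⟩

theorem c_mm_213 : CertFX 1073741824 536870912 0 1230186008 1046898278 26843546 false false false .pnn 2 1 3
    ndF6q2 ndF5q3 pcF1 Cut.none Ext.none :=
  certFX0 (fam := false) (s1 := false) (s2 := false) (a := 2) (b := 1) (c := 3) (cn := .pnn) (n1 := ndF6q2) (n2 := ndF5q3) (pc := pcF1) (cut := Cut.none) (xt := Ext.none) (P1 := 1073741824) (W1 := 536870912) (P2 := 0) (W2 := 1230186008) (P3 := 1046898278) (W3 := 26843546)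
    rfl k0_mm_213

noncomputable def f_mm_303 : ℕ → ℕ → ℕ → ℕ → Bool := onCell 0 1230186008 0 1230186008 1046898278 26843546
    (rowFX 0 false false false .npn 3 0 3 (qsf 0 1230186008 0 1230186008 0) ndF6q3 ndF5q3 pcF0 Cut.none Ext.none)

def k0_mm_303 : ∃ t, chk3 f_mm_303 t 1 1 1 = true :=
  ⟨(a (b (l 3) (l 3)) (b (l 5) (l 3))), by decide +kernel⟩

theorem c_mm_303 : CertFX 0 1230186008 0 1230186008 1046898278 26843546 false false false .npn 3 0 3
    ndF6q3 ndF5q3 pcF0 Cut.none Ext.none :=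
  certFX0 (fam := false) (s1 := false) (s2 := false) (a := 3) (b := 0) (c := 3) (cn := .npn) (n1 := ndF6q3) (n2 := ndF5q3) (pc := pcF0) (cut := Cut.none) (xt := Ext.none) (P1 := 0) (W1 := 1230186008) (P2 := 0) (W2 := 1230186008) (P3 := 1046898278) (W3 := 26843546)
    rfl k0_mm_303

noncomputable def f_mm_313 : ℕ → ℕ → ℕ → ℕ → Bool := onCell 0 1230186008 0 1230186008 1046898278 26843546
    (rowFX 0 false false false .dn 3 1 3 (qsf 0 1230186008 0 1230186008 1) ndF6q3 ndF5q3 pcF1 Cut.none Ext.none)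

def k0_mm_313 : ∃ t, chk3 f_mm_313 t 1 1 1 = true :=
  ⟨(a (l 1) (b (l 5) (l 1))), by decide +kernel⟩

theorem c_mm_313 : CertFX 0 1230186008 0 1230186008 1046898278 26843546 false false false .dn 3 1 3
    ndF6q3 ndF5q3 pcF1 Cut.none Ext.none :=
  certFX0 (fam := false) (s1 := false) (s2 := false) (a := 3) (b := 1) (c := 3) (cn := .dn) (n1 := ndF6q3) (n2 := ndF5q3) (pc := pcF1) (cut := Cut.none) (xt := Ext.none) (P1 := 0) (W1 := 1230186008) (P2 := 0) (W2 := 1230186008) (P3 := 1046898278) (W3 := 26843546)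
    rfl k0_mm_313

end Pool.Agent.Strip051.G.IE1.Tab.C.FB65

namespace Pool.Agent.Strip051.G.IE1.Tab.C.FB66

open Pool.Agent.Strip051.PB Pool.Agent.Strip051.PB.T
open Pool.Agent.Strip051.G.IE1.Tab

noncomputable def f_pp_001 : ℕ → ℕ → ℕ → ℕ → Bool := onCell 0 536870912 536870912 469762048 1046898278 26843546
    (rowFX 0 false true true .up 0 0 1 (qsf 0 536870912 536870912 469762048 0) ndF6q0 ndF6q1 pcF0 Cut.none Ext.none)

def k0_pp_001 : ∃ t, chk3 f_pp_001 t 1 1 1 = true :=
  ⟨(l 3), by decide +kernel⟩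

theorem c_pp_001 : CertFX 0 536870912 536870912 469762048 1046898278 26843546 false true true .up 0 0 1
    ndF6q0 ndF6q1 pcF0 Cut.none Ext.none :=
  certFX0 (fam := false) (s1 := true) (s2 := true) (a := 0) (b := 0) (c := 1) (cn := .up) (n1 := ndF6q0) (n2 := ndF6q1) (pc := pcF0) (cut := Cut.none) (xt := Ext.none) (P1 := 0) (W1 := 536870912) (P2 := 536870912) (W2 := 469762048) (P3 := 1046898278) (W3 := 26843546)
    rfl k0_pp_001

noncomputable def f_pp_011 : ℕ → ℕ → ℕ → ℕ → Bool := onCell 0 536870912 536870912 469762048 1046898278 26843546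
    (rowFX 0 false true true .pnn 0 1 1 (qsf 0 536870912 536870912 469762048 1) ndF6q0 ndF6q1 pcF1 Cut.none Ext.none)

def k0_pp_011 : ∃ t, chk3 f_pp_011 t 1 1 1 = true :=
  ⟨(l 3), by decide +kernel⟩

theorem c_pp_011 : CertFX 0 536870912 536870912 469762048 1046898278 26843546 false true true .pnn 0 1 1
    ndF6q0 ndF6q1 pcF1 Cut.none Ext.none :=
  certFX0 (fam := false) (s1 := true) (s2 := true) (a := 0) (b := 1) (c := 1) (cn := .pnn) (n1 := ndF6q0) (n2 := ndF6q1) (pc := pcF1) (cut := Cut.none) (xt := Ext.none) (P1 := 0) (W1 := 536870912) (P2 := 536870912) (W2 := 469762048) (P3 := 1046898278) (W3 := 26843546)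
    rfl k0_pp_011

noncomputable def f_pp_012 : ℕ → ℕ → ℕ → ℕ → Bool := onCell 536870912 536870912 1073741824 536870912 1046898278 26843546
    (rowFX 2 false true true .pnp 0 1 2 (qsf 0 536870912 1073741824 536870912 1) ndF6q0 ndF6q2 pcF1 Cut.none Ext.none)

def k0_pp_012 : ∃ t, chk3 f_pp_012 t 1 1 1 = true :=
  ⟨(a (l 3) (b (a (l 3) (b (l 3) (a (l 3) (b (l 3) (a (l 3) (b (a (l 3) (l 676622043511)) (a (l 15903000) (l 15813176)))))))) (a (b (l 3) (a (l 2) (l 16773568))) (a (b (a (l 16592064) (l 16362968)) (l 16488856)) (a (b (b (l 16086928) (l 16110072)) (l 16156864)) (b (b (a (l 15924072) (l 15841216)) (l 15820256)) (a (l 16020008) (l 15922664)))))))), by decide +kernel⟩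

theorem c_pp_012 : CertFX 0 536870912 1073741824 536870912 1046898278 26843546 false true true .pnp 0 1 2
    ndF6q0 ndF6q2 pcF1 Cut.none Ext.none :=
  certFX2 (fam := false) (s1 := true) (s2 := true) (a := 0) (b := 1) (c := 2) (cn := .pnp) (n1 := ndF6q0) (n2 := ndF6q2) (pc := pcF1) (cut := Cut.none) (xt := Ext.none) (P1 := 0) (W1 := 536870912) (P2 := 1073741824) (W2 := 536870912) (P3 := 1046898278) (W3 := 26843546)
    rfl (fun _ => rfl) k0_pp_012

noncomputable def f_pp_022 : ℕ → ℕ → ℕ → ℕ → Bool := onCell 0 536870912 1073741824 536870912 1046898278 26843546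
    (rowFX 1 false true true .pp 0 2 2 (qsf 0 536870912 1073741824 536870912 2) ndF6q0 ndF6q2 pcF2 Cut.none Ext.none)

def k0_pp_022 : ∃ t, chk3 f_pp_022 t 4 8 1 = true :=
  ⟨(b (a (l 3) (b (l 3) (b (l 3) (a (l 3) (a (l 3) (a (l 3) (c (l 869357446087) (l 14810312)))))))) (a (a (l 3) (b (l 3) (a (b (l 3) (a (b (l 3) (c (l 15756400) (l 15708240))) (c (b (l 15644504) (l 373827348391)) (b (l 15603240) (l 15596016))))) (a (b (l 3) (b (c (l 15447776) (l 15493968)) (c (l 15513816) (l 15475704)))) (b (b (l 3) (c (l 15426024) (l 15389264))) (c (b (l 15414712) (l 15388704)) (b (l 15377568) (l 15351000)))))))) (b (b (a (l 3) (a (b (c (l 14754448) (l 732455391079)) (c (l 833387271591) (l 743192871399))) (c (b (l 14953632) (l 15081960)) (l 384563192807)))) (a (c (c (l 821039625863) (l 835535090951)) (a (l 864526399639) (l 374899732743))) (a (c (a (b (l 14916200) (l 14980848)) (l 15045504)) (a (b (l 14863992) (l 14930328)) (l 14995368))) (a (c (l 15183120) (l 15135928)) (l 15280912)))))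 (b (b (a (a (c (l 829629908231) (l 858620886295)) (c (a (l 15101464) (l 15014736)) (a (l 15055960) (l 14965960)))) (a (c (l 15149456) (l 15103376)) (l 15366664))) (a (a (c (a (l 15315800) (l 15200128)) (a (l 15277160) (l 15157904))) (c (a (l 15087704) (l 15068120)) (a (l 15041816) (l 15021248)))) (c (l 15356536) (l 15315832)))) (a (a (a (c (b (l 15293792) (l 15274664)) (b (l 15254592) (l 15235144))) (b (c (l 15181272) (l 15138640)) (l 15138696))) (a (b (l 15071920) (l 15116584)) (l 15155160))) (a (c (l 15375632) (l 15337168)) (c (l 15615792) (l 15583376)))))))), by decide +kernel⟩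

def k1_pp_022 : ∃ t, chk3 f_pp_022 t 5 8 1 = true :=
  ⟨(b (a (a (b (l 3) (c (b (c (l 14897432) (l 819965559223)) (c (l 15233184) (l 15205952))) (b (l 697022032903) (l 373826200567)))) (b (c (b (l 15097080) (l 741046217079)) (b (c (l 15020888) (b (l 3) (l 15055808))) (c (l 701854575223) (l 15157128)))) (c (b (c (l 15547960) (l 15508176)) (l 15545976)) (b (c (l 15460312) (l 15479648)) (a (l 15542960) (l 15774016)))))) (b (c (a (a (b (l 15501040) (l 15723288)) (b (l 15751576) (l 15926728))) (c (l 15964304) (b (l 15929960) (l 15971872)))) (a (b (b (c (l 693801974807) (a (l 653536381671) (b (l 15608368) (l 15701496)))) (c (a (l 15441440) (l 15813504)) (a (l 15503288) (l 15755736)))) (a (c (l 15684352) (l 15650144)) (c (l 15881248) (l 15825136)))) (c (b (l 15823656) (l 15919296)) (c (l 15690112) (l 15876888))))) (c (a (a (l 15694552) (l 16003632)) (l 16002640)) (a (a (c (b (l 15841096) (l 15940416)) (l 15861696)) (l 15926184)) (l 15922920))))) (b (a (a (c (b (a (l 15296000) (l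 15537176)) (a (l 15485696) (l 15726760))) (b (a (l 15248112) (l 15481520)) (a (l 15439888) (l 15684824)))) (c (a (b (l 15779960) (l 15943648)) (b (l 15985840) (l 16079704))) (a (l 15606600) (l 15819968)))) (c (l 15857368) (l 15965184))) (a (a (b (a (c (l 15674160) (l 15638872)) (l 15879280)) (l 15898448)) (c (a (b (l 16081976) (l 16177648)) (l 16115432)) (b (a (l 16051528) (l 16101272)) (l 15951544)))) (c (c (l 15844192) (l 15985624)) (l 15952768))))), by decide +kernel⟩

def k2_pp_022 : ∃ t, chk3 f_pp_022 t 4 36 1 = true :=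
  ⟨(a (b (b (a (a (l 3) (a (l 3) (c (l 769501670631) (l 15772272)))) (c (a (a (l 15745408) (l 15618216)) (a (l 15492272) (l 15374712))) (a (a (l 15697176) (l 15576496)) (a (l 15453712) (l 15336752))))) (a (a (a (l 3) (a (l 3) (a (l 3) (c (l 775407700983) (l 15995328))))) (c (a (c (a (l 16000016) (l 15960376)) (l 404966546839)) (l 15752616)) (a (c (l 15930600) (l 15911568)) (l 15801632)))) (c (a (c (l 15679968) (l 15645912)) (c (l 15432840) (l 15408912))) (a (a (l 15680680) (l 15560776)) (l 15382200))))) (a (a (c (a (a (l 334636942583) (c (l 16109256) (b (l 380807722359) (l 16104104)))) (a (b (c (a (l 16079008) (l 16053080)) (l 393692575431)) (c (l 16054424) (l 16054008))) (c (l 16013824) (l 366848926087)))) (a (c (a (l 418925585687) (a (b (l 427515509303) (l 16110568)) (c (l 16085264) (l 16089256)))) (a (c (a (l 16113936) (b (l 16090808) (l 16123352))) (a (c (l 16109824) (l 489792517591)) (l 16039240))) (c (b (l 16085008) (l 16095376)) (l 16076832)))) (c (a (c (l 16020920)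 (l 16055984)) (l 16004072)) (b (l 16015816) (l 16003408))))) (b (c (a (c (l 15943256) (l 15948112)) (l 15843056)) (c (l 15856480) (l 15838456))) (c (a (c (l 15950688) (l 15934464)) (c (l 15845888) (l 15808744))) (c (l 15671360) (l 15820952))))) (c (a (c (b (l 15669048) (l 15644640)) (b (l 15635048) (l 15610512))) (l 15340408)) (a (b (c (l 15613792) (l 15599440)) (l 15580888)) (l 15341800))))) (a (a (b (c (a (l 15247064) (l 15199792)) (a (l 15206968) (l 15158192))) (c (l 15264760) (l 15205280))) (b (l 15306248) (c (l 15489264) (l 15455272)))) (b (c (l 15502584) (a (l 15516160) (l 15754568))) (c (l 15820080) (l 15794824))))), by decide +kernel⟩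

def k3_pp_022 : ∃ t, chk3 f_pp_022 t 4 37 1 = true :=
  ⟨(a (a (a (c (a (b (c (l 16128880) (a (l 16151456) (b (l 16092832) (l 16077792)))) (b (c (l 16103024) (a (l 16126504) (l 16048296))) (l 16050576))) (b (c (a (b (l 16042144) (a (l 16040640) (l 16009472))) (b (l 15993792) (l 15972424))) (a (b (l 16041504) (l 16024536)) (b (l 16000448) (l 15978648)))) (c (a (l 15965920) (l 15909384)) (a (l 15964104) (l 15914560))))) (a (b (c (a (l 16136800) (c (a (l 16089584) (l 16064200)) (a (l 16089432) (l 16067920)))) (a (c (a (l 16143624) (l 16116536)) (a (c (l 16139696) (l 16137112)) (l 16112984))) (c (l 16073000) (l 16063616)))) (c (a (b (l 16111648) (l 16066328)) (c (l 16020176) (l 15998416))) (a (c (b (l 16082528) (l 16057776)) (a (b (l 16114552) (l 16069248)) (l 16060744))) (c (l 16015504) (l 16005864))))) (b (a (c (b (l 16040512) (l 16023264)) (l 16007904)) (c (l 15929568) (l 15946960))) (c (l 15927568) (l 15906656))))) (c (b (a (c (b (a (l 15958928) (l 15914992)) (l 15901184))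 (b (l 15834472) (l 15884432))) (l 15782944)) (a (c (l 15839424) (l 15821960)) (l 15703104))) (b (b (c (l 15675544) (l 15804024)) (l 15776336)) (l 15713488)))) (a (c (b (l 15577176) (l 15499576)) (b (l 15528600) (l 15449344))) (c (b (a (l 15379776) (l 15322152)) (a (l 15371464) (l 15423136))) (b (a (l 15338536) (l 15282936)) (a (l 15330144) (l 15386672)))))) (a (a (c (b (l 15430104) (l 15587712)) (b (l 15394920) (l 15556776))) (b (c (l 15650160) (l 15620544)) (l 15768904))) (l 15891992))), by decide +kernel⟩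

def k4_pp_022 : ∃ t, chk3 f_pp_022 t 5 18 1 = true :=
  ⟨(b (a (a (a (l 16048832) (b (l 16172616) (c (l 16221008) (l 16197600)))) (c (a (l 16189752) (l 16069032)) (a (l 16173104) (l 16094792)))) (c (l 15697248) (l 15911896))) (a (a (a (l 16220376) (c (l 16205784) (l 16036184))) (c (l 15911384) (l 16054248))) (c (a (l 15907552) (l 15797064)) (l 15762232)))), by decide +kernel⟩

def k5_pp_022 : ∃ t, chk3 f_pp_022 t 4 19 1 = true :=
  ⟨(a (a (b (a (c (a (b (c (l 15985912) (l 15969944)) (l 15877112)) (b (c (a (l 15873560) (l 15818016)) (a (l 15870376) (l 15821688))) (a (l 15780224) (l 15725320)))) (a (c (b (a (l 15992072) (l 15777472)) (a (l 15886688) (l 15823888))) (a (b (c (l 15982840) (l 15892824)) (c (l 15876488) (l 15869728))) (b (l 15914640) (l 15812968)))) (b (c (l 15833104) (l 15811192)) (c (l 15739976) (l 15717096))))) (c (b (a (c (l 15749272) (l 15730744)) (l 15614752)) (a (l 15655016) (l 15542592))) (b (l 15622208) (l 15543704)))) (a (c (a (b (l 15806456) (l 15759464))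 (b (a (l 15718184) (l 15668800)) (a (c (l 15675112) (l 15668880)) (c (l 15628096) (l 15628368))))) (a (c (a (l 15786328) (b (l 15754880) (l 15709440))) (a (b (l 15671888) (l 15752544)) (b (l 15743080) (l 15697064)))) (b (c (l 15679432) (l 15655984)) (c (l 15631040) (l 15607200))))) (c (b (a (c (l 15614448) (l 15594392)) (b (l 15532640) (l 15572824))) (a (a (b (l 15601112) (l 15590264)) (l 15604080)) (l 15657952))) (b (a (l 15550000) (b (l 15471808) (l 15513384))) (a (b (l 15543552) (l 15556680)) (l 15601304)))))) (b (b (a (c (a (l 15479696) (l 15374912)) (a (l 15426344) (l 15370928))) (c (c (l 15533752) (l 15511720)) (l 15466208))) (a (a (c (l 15479400) (l 15426496)) (c (l 15538000) (l 15495552))) (c (l 15680472) (l 15648384)))) (a (b (c (l 15653640) (l 15608696)) (l 15757856)) (c (l 15876072) (l 15849472))))) (a (b (a (b (l 15706160) (l 15846584)) (l 15960656)) (a (l 16021744) (l 16171128))) (b (b (l 16160504) (l 16221808)) (a (l 16252336) (a (l 16234816) (c (l 16162992)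 (l 16046072))))))), by decide +kernel⟩

def k6_pp_022 : ∃ t, chk3 f_pp_022 t 5 19 1 = true :=
  ⟨(c (a (a (b (a (l 16213496) (b (l 16151440) (l 16076128))) (a (l 16089184) (l 15843032))) (b (b (l 15897696) (l 15904760)) (l 15531024))) (a (b (c (l 15791176) (l 15774232)) (l 15615160)) (l 15439144))) (a (b (a (c (a (l 16147368) (l 16071288)) (b (l 16177440) (l 16126616))) (c (l 15950384) (l 15933888))) (a (a (l 15840112) (l 15959464)) (l 15783648))) (l 15357400))), by decide +kernel⟩

def k7_pp_022 : ∃ t, chk3 f_pp_022 t 3 4 1 = true :=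
  ⟨(b (b (a (c (a (b (a (b (l 15972680) (l 16013296)) (l 16102664)) (l 16029688)) (b (l 16219536) (l 16102016))) (a (c (l 15856512) (l 15920088)) (b (l 16152480) (l 16072128)))) (a (b (c (l 16326216) (l 16313320)) (a (l 16037616) (l 16099512))) (l 16154088))) (a (a (c (b (l 15970904) (l 15859872)) (l 15885728)) (c (b (l 15938000) (l 15751928)) (l 15695128))) (b (l 15661072) (l 15694400)))) (a (b (a (c (l 15617344) (l 15586544)) (c (l 15367656) (l 15374688))) (a (c (a (l 15273568) (l 15135536)) (a (l 15234240) (l 15092184))) (b (a (l 15166016) (l 15168176)) (l 15000064)))) (l 15295296))), by decide +kernel⟩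

def k8_pp_022 : ∃ t, chk3 f_pp_022 t 2 20 1 = true :=
  ⟨(a (b (a (a (a (a (c (b (a (l 15736456) (l 15655792)) (l 15629608)) (b (c (a (l 15707488) (l 15634848)) (a (c (l 15695736) (l 15687936)) (l 15621520))) (a (c (l 15597272) (a (l 15581208) (l 15565312))) (c (l 15589912) (l 15576016))))) (c (b (a (l 15588392) (l 15607840)) (a (l 15642320) (l 15690976))) (b (c (l 15602536) (l 15578560)) (l 15642864)))) (c (b (l 15575104) (l 15813384)) (l 15721472))) (a (c (l 15922568) (l 15885976)) (l 15884264))) (a (a (l 16189488) (l 16258856)) (a (l 16188840) (c (l 16058016) (c (l 16036632) (l 16033040)))))) (a (a (b (a (c (a (l 15653176) (a (l 15713808) (l 15761368))) (a (a (l 15385728) (l 15576208)) (l 15715704))) (c (l 15880896) (l 15839648))) (a (b (c (a (l 15688344) (l 15776328)) (a (c (l 15664552) (l 15648600)) (l 15753096))) (c (a (b (l 15699424) (l 15710000)) (b (l 15792408) (l 15806488))) (a (b (c (l 15675912) (l 15660152)) (c (l 15686744) (l 15671144))) (b (l 15769632) (l 15784112)))))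 (b (c (l 15918720) (l 15878928)) (c (b (l 15941984) (l 15961104)) (l 15767776))))) (b (a (l 16013504) (l 16152144)) (b (l 15981312) (b (l 16103360) (l 15944216))))) (a (b (l 16148184) (b (l 16220408) (b (l 16240608) (l 16255472)))) (c (b (a (l 16064520) (l 15957344)) (b (l 15776832) (b (l 16001048) (l 16034480)))) (a (b (l 16033568) (b (l 15998624) (b (l 16028712) (l 16058856)))) (b (l 15942392) (l 15920664))))))) (b (a (c (a (a (l 15885904) (l 15654392)) (c (l 15652408) (l 15653704))) (a (l 15665048) (l 15569592))) (c (l 15232128) (l 15192160))) (c (a (b (a (l 15474088) (l 15589040)) (a (l 15673384) (l 15641856))) (l 15245944)) (a (a (b (l 15759576) (l 15785152)) (l 15523280)) (l 15205856))))), by decide +kernel⟩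

def k9_pp_022 : ∃ t, chk3 f_pp_022 t 2 21 1 = true :=
  ⟨(a (a (a (a (c (a (l 16000272) (b (l 15991456) (l 16399192))) (a (c (l 15838592) (b (l 15881416) (l 16279312))) (b (l 15995696) (l 16393504)))) (c (b (l 16131224) (l 16560184)) (l 16171888))) (b (a (l 16332016) (l 16435592)) (a (l 16591248) (l 16619272)))) (a (a (l 16475040) (c (c (l 16379032) (l 16366200)) (l 16303872))) (c (b (a (l 16153120) (l 16062896)) (l 16310496)) (b (l 16054216) (l 16333424))))) (a (c (a (l 16028000) (l 15915120)) (b (l 15866024) (l 16112848))) (b (a (l 15601392) (l 15456312)) (a (l 15918552) (l 15827264))))), by decide +kernel⟩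

def k10_pp_022 : ∃ t, chk3 f_pp_022 t 2 11 1 = true :=
  ⟨(a (b (a (a (a (a (c (l 16354368) (a (l 16372968) (l 16334224))) (c (l 16295320) (l 16282680))) (c (l 16253000) (l 16268272))) (c (l 16166944) (l 16357472))) (c (a (b (l 16606888) (l 16439448)) (l 16660248)) (a (l 16516216) (l 16656328)))) (a (a (a (c (l 15992008) (a (l 15961584) (l 15991384))) (l 16042520)) (c (l 16175056) (l 16173936))) (c (l 16400992) (l 16370240)))) (b (a (c (l 16347240) (l 16535976)) (b (l 16061952) (l 16585768))) (c (l 16675440) (l 16672792)))), by decide +kernel⟩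

def k11_pp_022 : ∃ t, chk3 f_pp_022 t 3 5 1 = true :=
  ⟨(b (a (b (a (b (c (l 14901800) (l 14852000)) (a (b (l 14903560) (l 15102608)) (l 14992224))) (l 14943752)) (a (b (a (l 15419096) (l 15424192)) (l 15825656)) (l 15657688))) (b (l 15025960) (l 2))) (b (l 16418176) (l 16776720))), by decide +kernel⟩

def k12_pp_022 : ∃ t, chk3 f_pp_022 t 1 3 1 = true :=
  ⟨(a (a (b (a (a (c (a (b (c (l 15999120) (l 15987640)) (l 15991496)) (b (l 16046008) (l 16046008))) (a (b (a (l 15961000) (l 15991144)) (l 15978248)) (l 16054376))) (b (c (l 16174752) (l 16173648)) (b (l 16172408) (l 16172408)))) (b (a (l 16334024) (l 16465104)) (b (l 16396768) (l 16396768)))) (a (a (a (a (l 15909520) (l 15952208)) (l 16042264)) (l 16172408)) (l 16396768))) (b (b (l 16673864) (l 16673864)) (b (l 16673864) (l 2)))) (b (b (a (l 16777216) (l 2)) (l 2)) (l 2))), by decide +kernel⟩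

theorem s13_pp_022 : ∃ t, chk3 f_pp_022 t 2 10 1 = true := ex3_b k8_pp_022 k9_pp_022

theorem s14_pp_022 : ∃ t, chk3 f_pp_022 t 2 5 1 = true := ex3_b s13_pp_022 k10_pp_022

theorem s15_pp_022 : ∃ t, chk3 f_pp_022 t 1 5 1 = true := ex3_a s14_pp_022 k11_pp_022

theorem s16_pp_022 : ∃ t, chk3 f_pp_022 t 2 19 1 = true := ex3_a k5_pp_022 k6_pp_022

theorem s17_pp_022 : ∃ t, chk3 f_pp_022 t 4 18 1 = true := ex3_b k2_pp_022 k3_pp_022

theorem s18_pp_022 : ∃ t, chk3 f_pp_022 t 2 18 1 = true := ex3_a s17_pp_022 k4_pp_022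

theorem s19_pp_022 : ∃ t, chk3 f_pp_022 t 2 9 1 = true := ex3_b s18_pp_022 s16_pp_022

theorem s20_pp_022 : ∃ t, chk3 f_pp_022 t 2 8 1 = true := ex3_a k0_pp_022 k1_pp_022

theorem s21_pp_022 : ∃ t, chk3 f_pp_022 t 2 4 1 = true := ex3_b s20_pp_022 s19_pp_022

theorem s22_pp_022 : ∃ t, chk3 f_pp_022 t 1 4 1 = true := ex3_a s21_pp_022 k7_pp_022

theorem s23_pp_022 : ∃ t, chk3 f_pp_022 t 1 2 1 = true := ex3_b s22_pp_022 s15_pp_022

theorem s24_pp_022 : ∃ t, chk3 f_pp_022 t 1 1 1 = true := ex3_b s23_pp_022 k12_pp_022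

theorem c_pp_022 : CertFX 0 536870912 1073741824 536870912 1046898278 26843546 false true true .pp 0 2 2
    ndF6q0 ndF6q2 pcF2 Cut.none Ext.none :=
  certFX1 (fam := false) (s1 := true) (s2 := true) (a := 0) (b := 2) (c := 2) (cn := .pp) (n1 := ndF6q0) (n2 := ndF6q2) (pc := pcF2) (cut := Cut.none) (xt := Ext.none) (P1 := 0) (W1 := 536870912) (P2 := 1073741824) (W2 := 536870912) (P3 := 1046898278) (W3 := 26843546)
    rfl (fun _ => rfl) s24_pp_022

noncomputable def f_pp_023 : ℕ → ℕ → ℕ → ℕ → Bool := onCell 1073741824 536870912 0 1230186008 1046898278 26843546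
    (rowFX 2 false true true .up 0 2 3 (qsf 0 536870912 0 1230186008 2) ndF6q0 ndF6q3 pcF2 Cut.none Ext.none)

def k0_pp_023 : ∃ t, chk3 f_pp_023 t 1 1 1 = true :=
  ⟨(a (b (l 2) (a (b (l 2) (b (l 2) (a (l 15893144) (l 15314656)))) (b (a (l 2) (a (l 2) (l 16674400))) (a (a (b (l 15126248) (l 15014760)) (l 15722600)) (a (l 16427168) (l 16776728)))))) (b (a (l 2) (b (l 4) (c (l 16756496) (l 16753544)))) (b (a (a (l 16712952) (l 16774400)) (a (l 16777176) (l 16777176))) (b (a (l 16776232) (l 16715064)) (a (l 16715736) (b (l 16599264) (a (l 16501688) (b (l 16340944) (a (l 16262288) (l 16117352)))))))))), by decide +kernel⟩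

theorem c_pp_023 : CertFX 0 536870912 0 1230186008 1046898278 26843546 false true true .up 0 2 3
    ndF6q0 ndF6q3 pcF2 Cut.none Ext.none :=
  certFX2 (fam := false) (s1 := true) (s2 := true) (a := 0) (b := 2) (c := 3) (cn := .up) (n1 := ndF6q0) (n2 := ndF6q3) (pc := pcF2) (cut := Cut.none) (xt := Ext.none) (P1 := 0) (W1 := 536870912) (P2 := 0) (W2 := 1230186008) (P3 := 1046898278) (W3 := 26843546)
    rfl (fun _ => rfl) k0_pp_023

noncomputable def f_pp_033 : ℕ → ℕ → ℕ → ℕ → Bool := onCell 0 536870912 0 1230186008 1046898278 26843546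
    (rowFX 0 false true true .pnn 0 3 3 (qsf 0 536870912 0 1230186008 3) ndF6q0 ndF6q3 pcF3 Cut.none Ext.none)

def k0_pp_033 : ∃ t, chk3 f_pp_033 t 1 1 1 = true :=
  ⟨(a (b (l 4) (b (b (a (l 4) (a (l 4) (b (l 4) (l 16755680)))) (b (a (a (l 4) (b (l 4) (l 208002837991))) (a (c (l 16606808) (l 16602384)) (l 16755720))) (a (a (a (c (l 16023392) (l 16014280)) (l 16151440)) (c (l 16400696) (l 16390920))) (l 16673864)))) (b (a (a (b (c (l 16054504) (l 16098272)) (a (l 16017960) (l 16172408))) (b (l 16396768) (l 16396768))) (b (l 16673864) (l 16673864))) (a (a (a (c (l 16023392) (l 16014280)) (l 16172408)) (l 16396768)) (l 16673864))))) (b (b (l 4) (a (l 4) (c (l 126399655959) (b (l 4) (l 16764768))))) (b (a (b (c (l 16777160) (l 16777160)) (b (l 16777192) (l 16777216))) (b (a (l 16777160) (l 1)) (l 1))) (l 1)))), by decide +kernel⟩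

theorem c_pp_033 : CertFX 0 536870912 0 1230186008 1046898278 26843546 false true true .pnn 0 3 3
    ndF6q0 ndF6q3 pcF3 Cut.none Ext.none :=
  certFX0 (fam := false) (s1 := true) (s2 := true) (a := 0) (b := 3) (c := 3) (cn := .pnn) (n1 := ndF6q0) (n2 := ndF6q3) (pc := pcF3) (cut := Cut.none) (xt := Ext.none) (P1 := 0) (W1 := 536870912) (P2 := 0) (W2 := 1230186008) (P3 := 1046898278) (W3 := 26843546)
    rfl k0_pp_033

noncomputable def f_pp_101 : ℕ → ℕ → ℕ → ℕ → Bool := onCell 536870912 469762048 536870912 469762048 1046898278 26843546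
    (rowFX 0 false true true .npn 1 0 1 (qsf 536870912 469762048 536870912 469762048 0) ndF6q1 ndF6q1 pcF0 Cut.none Ext.none)

def k0_pp_101 : ∃ t, chk3 f_pp_101 t 1 1 1 = true :=
  ⟨(l 3), by decide +kernel⟩

theorem c_pp_101 : CertFX 536870912 469762048 536870912 469762048 1046898278 26843546 false true true .npn 1 0 1
    ndF6q1 ndF6q1 pcF0 Cut.none Ext.none :=
  certFX0 (fam := false) (s1 := true) (s2 := true) (a := 1) (b := 0) (c := 1) (cn := .npn) (n1 := ndF6q1) (n2 := ndF6q1) (pc := pcF0) (cut := Cut.none) (xt := Ext.none) (P1 := 536870912) (W1 := 469762048) (P2 := 536870912) (W2 := 469762048) (P3 := 1046898278) (W3 := 26843546)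
    rfl k0_pp_101

noncomputable def f_pp_102 : ℕ → ℕ → ℕ → ℕ → Bool := onCell 536870912 469762048 0 536870912 1046898278 26843546
    (rowFX 1 false true true .npp 1 0 2 (qsf 536870912 469762048 1073741824 536870912 0) ndF6q1 ndF6q2 pcF0 Cut.none Ext.none)

def k0_pp_102 : ∃ t, chk3 f_pp_102 t 1 1 1 = true :=
  ⟨(l 3), by decide +kernel⟩

theorem c_pp_102 : CertFX 536870912 469762048 1073741824 536870912 1046898278 26843546 false true true .npp 1 0 2
    ndF6q1 ndF6q2 pcF0 Cut.none Ext.none :=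
  certFX1 (fam := false) (s1 := true) (s2 := true) (a := 1) (b := 0) (c := 2) (cn := .npp) (n1 := ndF6q1) (n2 := ndF6q2) (pc := pcF0) (cut := Cut.none) (xt := Ext.none) (P1 := 536870912) (W1 := 469762048) (P2 := 1073741824) (W2 := 536870912) (P3 := 1046898278) (W3 := 26843546)
    rfl (fun _ => rfl) k0_pp_102

noncomputable def f_pp_112 : ℕ → ℕ → ℕ → ℕ → Bool := onCell 536870912 536870912 1073741824 536870912 1046898278 26843546
    (rowFX 2 false true true .dn 1 1 2 (qsf 536870912 469762048 1073741824 536870912 1) ndF6q1 ndF6q2 pcF1 Cut.none Ext.none)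

def k0_pp_112 : ∃ t, chk3 f_pp_112 t 1 1 1 = true :=
  ⟨(a (l 3) (a (b (l 3) (b (l 3) (a (l 920901411815) (l 16773568)))) (b (l 1) (a (b (l 673268944343) (l 16488856)) (b (l 1) (a (l 16156864) (l 720512642743))))))), by decide +kernel⟩

theorem c_pp_112 : CertFX 536870912 469762048 1073741824 536870912 1046898278 26843546 false true true .dn 1 1 2
    ndF6q1 ndF6q2 pcF1 Cut.none Ext.none :=
  certFX2 (fam := false) (s1 := true) (s2 := true) (a := 1) (b := 1) (c := 2) (cn := .dn) (n1 := ndF6q1) (n2 := ndF6q2) (pc := pcF1) (cut := Cut.none) (xt := Ext.none) (P1 := 536870912) (W1 := 469762048) (P2 := 1073741824) (W2 := 536870912) (P3 := 1046898278) (W3 := 26843546)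
    rfl (fun _ => rfl) k0_pp_112

noncomputable def f_pp_113 : ℕ → ℕ → ℕ → ℕ → Bool := onCell 536870912 536870912 0 1230186008 1046898278 26843546
    (rowFX 2 false true true .nn 1 1 3 (qsf 536870912 469762048 0 1230186008 1) ndF6q1 ndF6q3 pcF1 Cut.none Ext.none)

def k0_pp_113 : ∃ t, chk3 f_pp_113 t 1 1 1 = true :=
  ⟨(b (a (l 2) (a (l 2) (b (l 2) (a (l 2) (b (a (l 2) (l 13648936)) (a (b (l 2) (l 14205936)) (l 14346760))))))) (a (b (l 2) (a (b (l 2) (l 3)) (b (a (l 2) (b (a (l 2) (b (l 2) (c (l 14202048) (l 14151080)))) (a (b (l 2) (c (l 14512584) (l 14490520))) (c (b (l 14565744) (l 14958152)) (l 14740848))))) (a (l 3) (b (a (c (b (l 14934128) (l 3)) (l 14822768)) (b (l 15140648) (l 15644304))) (l 3)))))) (b (a (b (l 2) (a (b (l 2) (a (l 2) (b (l 2) (l 14334528)))) (b (a (l 607832769527) (l 14526456)) (a (l 14692232) (l 15065232))))) (b (a (b (a (l 2) (l 14247608)) (a (l 14341096) (l 14689944))) (b (a (l 14645448) (l 15016664)) (a (l 15026440) (l 15305360)))) (a (b (a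 (l 14841016) (l 15109432)) (a (l 15337440) (l 15611232))) (b (l 15593976) (l 16027848))))) (a (b (a (b (c (a (b (l 14268256) (l 14642216)) (l 14798096)) (a (l 14395768) (l 14877864))) (c (a (l 14969792) (l 15548520)) (a (l 15104376) (l 15517696)))) (b (a (b (l 15181456) (l 15428024)) (l 15662336)) (a (l 15971040) (a (l 16347512) (l 16515928))))) (a (b (a (b (l 15645600) (l 16118088)) (b (l 16126768) (l 16577912))) (a (l 16610912) (l 16772496))) (b (a (l 16661080) (l 16763208)) (l 16773240)))) (a (b (a (b (l 15974832) (l 16539944)) (l 16274608)) (l 16512840)) (b (l 16225392) (b (l 16174112) (a (l 16210128) (l 16042240))))))))), by decide +kernel⟩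

theorem c_pp_113 : CertFX 536870912 469762048 0 1230186008 1046898278 26843546 false true true .nn 1 1 3
    ndF6q1 ndF6q3 pcF1 Cut.none Ext.none :=
  certFX2 (fam := false) (s1 := true) (s2 := true) (a := 1) (b := 1) (c := 3) (cn := .nn) (n1 := ndF6q1) (n2 := ndF6q3) (pc := pcF1) (cut := Cut.none) (xt := Ext.none) (P1 := 536870912) (W1 := 469762048) (P2 := 0) (W2 := 1230186008) (P3 := 1046898278) (W3 := 26843546)
    rfl (fun _ => rfl) k0_pp_113

noncomputable def f_pp_123 : ℕ → ℕ → ℕ → ℕ → Bool := onCell 1073741824 536870912 0 1230186008 1046898278 26843546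
    (rowFX 2 false true true .npn 1 2 3 (qsf 536870912 469762048 0 1230186008 2) ndF6q1 ndF6q3 pcF2 Cut.none Ext.none)

def k0_pp_123 : ∃ t, chk3 f_pp_123 t 1 1 1 = true :=
  ⟨(b (b (a (a (a (a (l 2) (b (l 16485464) (l 15844720))) (a (b (l 16403024) (l 16005984)) (l 16161568))) (b (l 4) (a (l 16085808) (l 16020632)))) (l 4)) (a (a (a (b (a (l 15211064) (l 15182912)) (a (l 14350592) (l 14992704))) (b (a (l 15533472) (l 15597952)) (a (l 15315968) (l 15286136)))) (a (b (l 15677808) (l 15520000)) (b (l 16093016) (l 16269104)))) (a (a (l 16544520) (l 16748352)) (l 170221751111)))) (b (a (a (b (a (b (l 15011904) (l 15261752)) (b (l 15377288) (l 15475952))) (a (l 15605648) (l 15461848))) (a (a (a (l 15174736) (l 15316728)) (l 15804576)) (a (l 16385920) (l 16674400)))) (a (b (l 16712384) (l 16760520)) (a (l 16777176) (l 1)))) (a (a (b (l 15567808) (a (l 15893144) (l 15314656))) (a (a (a (l 14991664) (l 15146424)) (l 15722600)) (a (l 16427168) (l 16776728)))) (l 1)))), by decide +kernel⟩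

theorem c_pp_123 : CertFX 536870912 469762048 0 1230186008 1046898278 26843546 false true true .npn 1 2 3
    ndF6q1 ndF6q3 pcF2 Cut.none Ext.none :=
  certFX2 (fam := false) (s1 := true) (s2 := true) (a := 1) (b := 2) (c := 3) (cn := .npn) (n1 := ndF6q1) (n2 := ndF6q3) (pc := pcF2) (cut := Cut.none) (xt := Ext.none) (P1 := 536870912) (W1 := 469762048) (P2 := 0) (W2 := 1230186008) (P3 := 1046898278) (W3 := 26843546)
    rfl (fun _ => rfl) k0_pp_123

noncomputable def f_pp_133 : ℕ → ℕ → ℕ → ℕ → Bool := onCell 1610612736 536870912 0 1230186008 1046898278 26843546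
    (rowFX 2 false true true .dn 1 3 3 (qsf 536870912 469762048 0 1230186008 3) ndF6q1 ndF6q3 pcF3 Cut.none Ext.none)

def k0_pp_133 : ∃ t, chk3 f_pp_133 t 1 1 1 = true :=
  ⟨(b (b (l 4) (l 1)) (l 1)), by decide +kernel⟩

theorem c_pp_133 : CertFX 536870912 469762048 0 1230186008 1046898278 26843546 false true true .dn 1 3 3
    ndF6q1 ndF6q3 pcF3 Cut.none Ext.none :=
  certFX2 (fam := false) (s1 := true) (s2 := true) (a := 1) (b := 3) (c := 3) (cn := .dn) (n1 := ndF6q1) (n2 := ndF6q3) (pc := pcF3) (cut := Cut.none) (xt := Ext.none) (P1 := 536870912) (W1 := 469762048) (P2 := 0) (W2 := 1230186008) (P3 := 1046898278) (W3 := 26843546)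
    rfl (fun _ => rfl) k0_pp_133

noncomputable def f_pp_202 : ℕ → ℕ → ℕ → ℕ → Bool := onCell 1073741824 536870912 1073741824 536870912 1046898278 26843546
    (rowFX 0 false true true .pp 2 0 2 (qsf 1073741824 536870912 1073741824 536870912 0) ndF6q2 ndF6q2 pcF0 Cut.none Ext.none)

def k0_pp_202 : ∃ t, chk3 f_pp_202 t 1 1 1 = true :=
  ⟨(l 3), by decide +kernel⟩

theorem c_pp_202 : CertFX 1073741824 536870912 1073741824 536870912 1046898278 26843546 false true true .pp 2 0 2
    ndF6q2 ndF6q2 pcF0 Cut.none Ext.none :=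
  certFX0 (fam := false) (s1 := true) (s2 := true) (a := 2) (b := 0) (c := 2) (cn := .pp) (n1 := ndF6q2) (n2 := ndF6q2) (pc := pcF0) (cut := Cut.none) (xt := Ext.none) (P1 := 1073741824) (W1 := 536870912) (P2 := 1073741824) (W2 := 536870912) (P3 := 1046898278) (W3 := 26843546)
    rfl k0_pp_202

noncomputable def f_pp_203 : ℕ → ℕ → ℕ → ℕ → Bool := onCell 0 536870912 0 1230186008 1046898278 26843546
    (rowFX 2 false true true .up 2 0 3 (qsf 1073741824 536870912 0 1230186008 0) ndF6q2 ndF6q3 pcF0 Cut.none Ext.none)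

def k0_pp_203 : ∃ t, chk3 f_pp_203 t 1 1 1 = true :=
  ⟨(b (a (l 2) (l 3)) (l 3)), by decide +kernel⟩

theorem c_pp_203 : CertFX 1073741824 536870912 0 1230186008 1046898278 26843546 false true true .up 2 0 3
    ndF6q2 ndF6q3 pcF0 Cut.none Ext.none :=
  certFX2 (fam := false) (s1 := true) (s2 := true) (a := 2) (b := 0) (c := 3) (cn := .up) (n1 := ndF6q2) (n2 := ndF6q3) (pc := pcF0) (cut := Cut.none) (xt := Ext.none) (P1 := 1073741824) (W1 := 536870912) (P2 := 0) (W2 := 1230186008) (P3 := 1046898278) (W3 := 26843546)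
    rfl (fun _ => rfl) k0_pp_203

noncomputable def f_pp_213 : ℕ → ℕ → ℕ → ℕ → Bool := onCell 536870912 536870912 0 1230186008 1046898278 26843546
    (rowFX 2 false true true .pnn 2 1 3 (qsf 1073741824 536870912 0 1230186008 1) ndF6q2 ndF6q3 pcF1 Cut.none Ext.none)

def k0_pp_213 : ∃ t, chk3 f_pp_213 t 2 2 1 = true :=
  ⟨(b (a (c (a (l 16725328) (l 271287438167)) (a (l 305647394439) (l 276119281607))) (a (b (l 16739896) (b (l 16720424) (l 16734168))) (b (l 16739896) (l 16725344)))) (a (l 3) (b (a (l 3) (a (l 402820690647) (b (a (l 16753096) (l 16665528)) (a (l 365776180039) (l 403356747095))))) (l 3)))), by decide +kernel⟩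

def k1_pp_213 : ∃ t, chk3 f_pp_213 t 3 2 1 = true :=
  ⟨(a (b (a (b (l 16558296) (a (b (l 16664360) (l 16511544)) (b (l 16228616) (l 16028800)))) (b (a (l 15800216) (l 15304768)) (a (b (l 15599088) (l 15258552)) (b (l 15271872) (l 15296584))))) (a (b (a (a (b (l 16480688) (l 452211407703)) (b (l 16229680) (l 15731976))) (b (l 15752040) (a (l 15506624) (b (l 15326872) (a (l 15098328) (l 15191800)))))) (b (a (b (a (l 3) (l 15552208)) (l 3)) (a (b (a (b (l 15355912) (b (l 15265888) (l 117739226007))) (b (l 15206976) (a (l 15148448) (l 15184416)))) (a (a (l 3) (l 118813142119)) (l 15242040))) (b (l 15237832) (c (l 15356960) (l 15316448))))) (a (l 3) (b (c (a (l 3) (l 126329560487)) (l 15322848)) (l 3))))) (b (a (b (a (l 15295784) (l 15222880)) (b (l 15267168) (l 15337504))) (a (b (l 15333400) (l 15493248)) (b (l 15494464) (l 15581392)))) (a (b (b (l 15324808) (a (l 15469184) (a (l 15572896) (l 15620656)))) (a (b (a (l 175185093975) (b (l 15592672) (c (l 15654352) (l 15624488))))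 (c (a (l 3) (l 15659064)) (l 111297627767))) (b (b (l 15637584) (l 15638832)) (l 170890418167)))) (b (a (b (l 15603464) (l 15627152)) (l 15607400)) (a (b (l 15611408) (l 15588176)) (b (l 15573296) (l 15544584)))))))) (b (a (b (l 15706976) (a (l 15628456) (l 15830912))) (b (l 15970280) (l 15814136))) (a (b (a (b (l 15679248) (l 15637264)) (l 15593688)) (a (b (l 15531800) (a (l 15472088) (l 15353920))) (b (a (l 15369040) (l 15197288)) (a (l 15227384) (l 1))))) (a (b (l 15620664) (a (b (l 1064644789767) (l 1)) (l 1))) (b (l 2277437233207) (l 1)))))), by decide +kernel⟩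

def k2_pp_213 : ∃ t, chk3 f_pp_213 t 1 3 1 = true :=
  ⟨(a (l 3) (b (a (b (b (a (l 3) (a (c (l 90359792855) (l 15573864)) (a (b (l 180553968167) (l 15521072)) (c (a (l 188069935575) (l 429527533383)) (l 161763011799))))) (l 3)) (l 3)) (a (a (b (b (a (c (l 481603674647) (l 15342328)) (l 1)) (l 1)) (l 1)) (l 1)) (l 1))) (l 1))), by decide +kernel⟩

theorem s3_pp_213 : ∃ t, chk3 f_pp_213 t 1 2 1 = true := ex3_a k0_pp_213 k1_pp_213

theorem s4_pp_213 : ∃ t, chk3 f_pp_213 t 1 1 1 = true := ex3_b s3_pp_213 k2_pp_213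

theorem c_pp_213 : CertFX 1073741824 536870912 0 1230186008 1046898278 26843546 false true true .pnn 2 1 3
    ndF6q2 ndF6q3 pcF1 Cut.none Ext.none :=
  certFX2 (fam := false) (s1 := true) (s2 := true) (a := 2) (b := 1) (c := 3) (cn := .pnn) (n1 := ndF6q2) (n2 := ndF6q3) (pc := pcF1) (cut := Cut.none) (xt := Ext.none) (P1 := 1073741824) (W1 := 536870912) (P2 := 0) (W2 := 1230186008) (P3 := 1046898278) (W3 := 26843546)
    rfl (fun _ => rfl) s4_pp_213

noncomputable def f_pp_303 : ℕ → ℕ → ℕ → ℕ → Bool := onCell 0 1230186008 0 1230186008 1046898278 26843546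
    (rowFX 0 false true true .npn 3 0 3 (qsf 0 1230186008 0 1230186008 0) ndF6q3 ndF6q3 pcF0 Cut.none Ext.none)

def k0_pp_303 : ∃ t, chk3 f_pp_303 t 1 1 1 = true :=
  ⟨(a (b (l 3) (a (l 1) (l 3))) (b (b (l 3) (l 3)) (l 3))), by decide +kernel⟩

theorem c_pp_303 : CertFX 0 1230186008 0 1230186008 1046898278 26843546 false true true .npn 3 0 3
    ndF6q3 ndF6q3 pcF0 Cut.none Ext.none :=
  certFX0 (fam := false) (s1 := true) (s2 := true) (a := 3) (b := 0) (c := 3) (cn := .npn) (n1 := ndF6q3) (n2 := ndF6q3) (pc := pcF0) (cut := Cut.none) (xt := Ext.none) (P1 := 0) (W1 := 1230186008) (P2 := 0) (W2 := 1230186008) (P3 := 1046898278) (W3 := 26843546)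
    rfl k0_pp_303

noncomputable def f_pp_313 : ℕ → ℕ → ℕ → ℕ → Bool := onCell 0 1230186008 0 1230186008 1046898278 26843546
    (rowFX 0 false true true .dn 3 1 3 (qsf 0 1230186008 0 1230186008 1) ndF6q3 ndF6q3 pcF1 Cut.none Ext.none)

def k0_pp_313 : ∃ t, chk3 f_pp_313 t 1 1 1 = true :=
  ⟨(a (l 1) (b (b (l 3) (l 1)) (l 1))), by decide +kernel⟩

theorem c_pp_313 : CertFX 0 1230186008 0 1230186008 1046898278 26843546 false true true .dn 3 1 3
    ndF6q3 ndF6q3 pcF1 Cut.none Ext.none :=
  certFX0 (fam := false) (s1 := true) (s2 := true) (a := 3) (b := 1) (c := 3) (cn := .dn) (n1 := ndF6q3) (n2 := ndF6q3) (pc := pcF1) (cut := Cut.none) (xt := Ext.none) (P1 := 0) (W1 := 1230186008) (P2 := 0) (W2 := 1230186008) (P3 := 1046898278) (W3 := 26843546)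
    rfl k0_pp_313

noncomputable def f_pm_001 : ℕ → ℕ → ℕ → ℕ → Bool := onCell 0 536870912 536870912 469762048 1046898278 26843546
    (rowFX 0 false true false .up 0 0 1 (qsf 0 536870912 536870912 469762048 0) ndF6q0 ndF6q1 pcF0 Cut.none Ext.none)

def k0_pm_001 : ∃ t, chk3 f_pm_001 t 1 1 1 = true :=
  ⟨(l 4), by decide +kernel⟩

theorem c_pm_001 : CertFX 0 536870912 536870912 469762048 1046898278 26843546 false true false .up 0 0 1
    ndF6q0 ndF6q1 pcF0 Cut.none Ext.none :=
  certFX0 (fam := false) (s1 := true) (s2 := false) (a := 0) (b := 0) (c := 1) (cn := .up) (n1 := ndF6q0) (n2 := ndF6q1) (pc := pcF0) (cut := Cut.none) (xt := Ext.none) (P1 := 0) (W1 := 536870912) (P2 := 536870912) (W2 := 469762048) (P3 := 1046898278) (W3 := 26843546)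
    rfl k0_pm_001

noncomputable def f_pm_011 : ℕ → ℕ → ℕ → ℕ → Bool := onCell 0 536870912 536870912 469762048 1046898278 26843546
    (rowFX 0 false true false .pnn 0 1 1 (qsf 0 536870912 536870912 469762048 1) ndF6q0 ndF6q1 pcF1 Cut.none Ext.none)

def k0_pm_011 : ∃ t, chk3 f_pm_011 t 1 1 1 = true :=
  ⟨(l 4), by decide +kernel⟩

theorem c_pm_011 : CertFX 0 536870912 536870912 469762048 1046898278 26843546 false true false .pnn 0 1 1
    ndF6q0 ndF6q1 pcF1 Cut.none Ext.none :=
  certFX0 (fam := false) (s1 := true) (s2 := false) (a := 0) (b := 1) (c := 1) (cn := .pnn) (n1 := ndF6q0) (n2 := ndF6q1) (pc := pcF1) (cut := Cut.none) (xt := Ext.none) (P1 := 0) (W1 := 536870912) (P2 := 536870912) (W2 := 469762048) (P3 := 1046898278) (W3 := 26843546)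
    rfl k0_pm_011

noncomputable def f_pm_012 : ℕ → ℕ → ℕ → ℕ → Bool := onCell 0 536870912 1073741824 536870912 1046898278 26843546
    (rowFX 0 false true false .pnp 0 1 2 (qsf 0 536870912 1073741824 536870912 1) ndF6q0 ndF6q2 pcF1 Cut.none Ext.none)

def k0_pm_012 : ∃ t, chk3 f_pm_012 t 1 1 1 = true :=
  ⟨(l 4), by decide +kernel⟩

theorem c_pm_012 : CertFX 0 536870912 1073741824 536870912 1046898278 26843546 false true false .pnp 0 1 2
    ndF6q0 ndF6q2 pcF1 Cut.none Ext.none :=
  certFX0 (fam := false) (s1 := true) (s2 := false) (a := 0) (b := 1) (c := 2) (cn := .pnp) (n1 := ndF6q0) (n2 := ndF6q2) (pc := pcF1) (cut := Cut.none) (xt := Ext.none) (P1 := 0) (W1 := 536870912) (P2 := 1073741824) (W2 := 536870912) (P3 := 1046898278) (W3 := 26843546)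
    rfl k0_pm_012

noncomputable def f_pm_022 : ℕ → ℕ → ℕ → ℕ → Bool := onCell 0 536870912 1073741824 536870912 1046898278 26843546
    (rowFX 0 false true false .pp 0 2 2 (qsf 0 536870912 1073741824 536870912 2) ndF6q0 ndF6q2 pcF2 Cut.none Ext.none)

def k0_pm_022 : ∃ t, chk3 f_pm_022 t 1 1 1 = true :=
  ⟨(l 4), by decide +kernel⟩

theorem c_pm_022 : CertFX 0 536870912 1073741824 536870912 1046898278 26843546 false true false .pp 0 2 2
    ndF6q0 ndF6q2 pcF2 Cut.none Ext.none :=
  certFX0 (fam := false) (s1 := true) (s2 := false) (a := 0) (b := 2) (c := 2) (cn := .pp) (n1 := ndF6q0) (n2 := ndF6q2) (pc := pcF2) (cut := Cut.none) (xt := Ext.none) (P1 := 0) (W1 := 536870912) (P2 := 1073741824) (W2 := 536870912) (P3 := 1046898278) (W3 := 26843546)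
    rfl k0_pm_022

noncomputable def f_pm_023 : ℕ → ℕ → ℕ → ℕ → Bool := onCell 0 536870912 0 1230186008 1046898278 26843546
    (rowFX 0 false true false .up 0 2 3 (qsf 0 536870912 0 1230186008 2) ndF6q0 ndF6q3 pcF2 Cut.none Ext.none)

def k0_pm_023 : ∃ t, chk3 f_pm_023 t 1 1 1 = true :=
  ⟨(b (l 4) (l 4)), by decide +kernel⟩

theorem c_pm_023 : CertFX 0 536870912 0 1230186008 1046898278 26843546 false true false .up 0 2 3
    ndF6q0 ndF6q3 pcF2 Cut.none Ext.none :=
  certFX0 (fam := false) (s1 := true) (s2 := false) (a := 0) (b := 2) (c := 3) (cn := .up) (n1 := ndF6q0) (n2 := ndF6q3) (pc := pcF2) (cut := Cut.none) (xt := Ext.none) (P1 := 0) (W1 := 536870912) (P2 := 0) (W2 := 1230186008) (P3 := 1046898278) (W3 := 26843546)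
    rfl k0_pm_023

noncomputable def f_pm_033 : ℕ → ℕ → ℕ → ℕ → Bool := onCell 0 536870912 0 1230186008 1046898278 26843546
    (rowFX 0 false true false .pnn 0 3 3 (qsf 0 536870912 0 1230186008 3) ndF6q0 ndF6q3 pcF3 Cut.none Ext.none)

def k0_pm_033 : ∃ t, chk3 f_pm_033 t 1 1 1 = true :=
  ⟨(b (l 4) (l 4)), by decide +kernel⟩

theorem c_pm_033 : CertFX 0 536870912 0 1230186008 1046898278 26843546 false true false .pnn 0 3 3
    ndF6q0 ndF6q3 pcF3 Cut.none Ext.none :=
  certFX0 (fam := false) (s1 := true) (s2 := false) (a := 0) (b := 3) (c := 3) (cn := .pnn) (n1 := ndF6q0) (n2 := ndF6q3) (pc := pcF3) (cut := Cut.none) (xt := Ext.none) (P1 := 0) (W1 := 536870912) (P2 := 0) (W2 := 1230186008) (P3 := 1046898278) (W3 := 26843546)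
    rfl k0_pm_033

noncomputable def f_pm_101 : ℕ → ℕ → ℕ → ℕ → Bool := onCell 536870912 469762048 536870912 469762048 1046898278 26843546
    (rowFX 0 false true false .npn 1 0 1 (qsf 536870912 469762048 536870912 469762048 0) ndF6q1 ndF6q1 pcF0 Cut.none Ext.none)

def k0_pm_101 : ∃ t, chk3 f_pm_101 t 1 1 1 = true :=
  ⟨(l 4), by decide +kernel⟩

theorem c_pm_101 : CertFX 536870912 469762048 536870912 469762048 1046898278 26843546 false true false .npn 1 0 1
    ndF6q1 ndF6q1 pcF0 Cut.none Ext.none :=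
  certFX0 (fam := false) (s1 := true) (s2 := false) (a := 1) (b := 0) (c := 1) (cn := .npn) (n1 := ndF6q1) (n2 := ndF6q1) (pc := pcF0) (cut := Cut.none) (xt := Ext.none) (P1 := 536870912) (W1 := 469762048) (P2 := 536870912) (W2 := 469762048) (P3 := 1046898278) (W3 := 26843546)
    rfl k0_pm_101

noncomputable def f_pm_102 : ℕ → ℕ → ℕ → ℕ → Bool := onCell 536870912 469762048 1073741824 536870912 1046898278 26843546
    (rowFX 0 false true false .npp 1 0 2 (qsf 536870912 469762048 1073741824 536870912 0) ndF6q1 ndF6q2 pcF0 Cut.none Ext.none)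

def k0_pm_102 : ∃ t, chk3 f_pm_102 t 1 1 1 = true :=
  ⟨(l 4), by decide +kernel⟩

theorem c_pm_102 : CertFX 536870912 469762048 1073741824 536870912 1046898278 26843546 false true false .npp 1 0 2
    ndF6q1 ndF6q2 pcF0 Cut.none Ext.none :=
  certFX0 (fam := false) (s1 := true) (s2 := false) (a := 1) (b := 0) (c := 2) (cn := .npp) (n1 := ndF6q1) (n2 := ndF6q2) (pc := pcF0) (cut := Cut.none) (xt := Ext.none) (P1 := 536870912) (W1 := 469762048) (P2 := 1073741824) (W2 := 536870912) (P3 := 1046898278) (W3 := 26843546)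
    rfl k0_pm_102

noncomputable def f_pm_112 : ℕ → ℕ → ℕ → ℕ → Bool := onCell 536870912 469762048 1073741824 536870912 1046898278 26843546
    (rowFX 0 false true false .dn 1 1 2 (qsf 536870912 469762048 1073741824 536870912 1) ndF6q1 ndF6q2 pcF1 Cut.none Ext.none)

def k0_pm_112 : ∃ t, chk3 f_pm_112 t 1 1 1 = true :=
  ⟨(l 4), by decide +kernel⟩

theorem c_pm_112 : CertFX 536870912 469762048 1073741824 536870912 1046898278 26843546 false true false .dn 1 1 2
    ndF6q1 ndF6q2 pcF1 Cut.none Ext.none :=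
  certFX0 (fam := false) (s1 := true) (s2 := false) (a := 1) (b := 1) (c := 2) (cn := .dn) (n1 := ndF6q1) (n2 := ndF6q2) (pc := pcF1) (cut := Cut.none) (xt := Ext.none) (P1 := 536870912) (W1 := 469762048) (P2 := 1073741824) (W2 := 536870912) (P3 := 1046898278) (W3 := 26843546)
    rfl k0_pm_112

noncomputable def f_pm_113 : ℕ → ℕ → ℕ → ℕ → Bool := onCell 536870912 469762048 0 1230186008 1046898278 26843546
    (rowFX 0 false true false .nn 1 1 3 (qsf 536870912 469762048 0 1230186008 1) ndF6q1 ndF6q3 pcF1 Cut.none Ext.none)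

def k0_pm_113 : ∃ t, chk3 f_pm_113 t 1 1 1 = true :=
  ⟨(b (b (l 2) (l 4)) (l 4)), by decide +kernel⟩

theorem c_pm_113 : CertFX 536870912 469762048 0 1230186008 1046898278 26843546 false true false .nn 1 1 3
    ndF6q1 ndF6q3 pcF1 Cut.none Ext.none :=
  certFX0 (fam := false) (s1 := true) (s2 := false) (a := 1) (b := 1) (c := 3) (cn := .nn) (n1 := ndF6q1) (n2 := ndF6q3) (pc := pcF1) (cut := Cut.none) (xt := Ext.none) (P1 := 536870912) (W1 := 469762048) (P2 := 0) (W2 := 1230186008) (P3 := 1046898278) (W3 := 26843546)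
    rfl k0_pm_113

noncomputable def f_pm_123 : ℕ → ℕ → ℕ → ℕ → Bool := onCell 536870912 469762048 0 1230186008 1046898278 26843546
    (rowFX 0 false true false .npn 1 2 3 (qsf 536870912 469762048 0 1230186008 2) ndF6q1 ndF6q3 pcF2 Cut.none Ext.none)

def k0_pm_123 : ∃ t, chk3 f_pm_123 t 1 1 1 = true :=
  ⟨(b (b (l 4) (l 4)) (l 4)), by decide +kernel⟩

theorem c_pm_123 : CertFX 536870912 469762048 0 1230186008 1046898278 26843546 false true false .npn 1 2 3
    ndF6q1 ndF6q3 pcF2 Cut.none Ext.none :=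
  certFX0 (fam := false) (s1 := true) (s2 := false) (a := 1) (b := 2) (c := 3) (cn := .npn) (n1 := ndF6q1) (n2 := ndF6q3) (pc := pcF2) (cut := Cut.none) (xt := Ext.none) (P1 := 536870912) (W1 := 469762048) (P2 := 0) (W2 := 1230186008) (P3 := 1046898278) (W3 := 26843546)
    rfl k0_pm_123

noncomputable def f_pm_133 : ℕ → ℕ → ℕ → ℕ → Bool := onCell 1610612736 536870912 0 1230186008 1046898278 26843546
    (rowFX 2 false true false .dn 1 3 3 (qsf 536870912 469762048 0 1230186008 3) ndF6q1 ndF6q3 pcF3 Cut.none Ext.none)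

def k0_pm_133 : ∃ t, chk3 f_pm_133 t 1 1 1 = true :=
  ⟨(b (l 4) (l 1)), by decide +kernel⟩

theorem c_pm_133 : CertFX 536870912 469762048 0 1230186008 1046898278 26843546 false true false .dn 1 3 3
    ndF6q1 ndF6q3 pcF3 Cut.none Ext.none :=
  certFX2 (fam := false) (s1 := true) (s2 := false) (a := 1) (b := 3) (c := 3) (cn := .dn) (n1 := ndF6q1) (n2 := ndF6q3) (pc := pcF3) (cut := Cut.none) (xt := Ext.none) (P1 := 536870912) (W1 := 469762048) (P2 := 0) (W2 := 1230186008) (P3 := 1046898278) (W3 := 26843546)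
    rfl (fun _ => rfl) k0_pm_133

noncomputable def f_pm_202 : ℕ → ℕ → ℕ → ℕ → Bool := onCell 0 536870912 1073741824 536870912 1046898278 26843546
    (rowFX 2 false true false .pp 2 0 2 (qsf 1073741824 536870912 1073741824 536870912 0) ndF6q2 ndF6q2 pcF0 Cut.none Ext.none)

def k0_pm_202 : ∃ t, chk3 f_pm_202 t 1 1 1 = true :=
  ⟨(a (b (l 4) (a (b (l 4) (a (b (l 4) (a (a (c (l 16758920) (l 16758616)) (l 16768720)) (a (l 16774792) (a (l 16777152) (l 4))))) (l 4))) (l 4))) (l 4)), by decide +kernel⟩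

theorem c_pm_202 : CertFX 1073741824 536870912 1073741824 536870912 1046898278 26843546 false true false .pp 2 0 2
    ndF6q2 ndF6q2 pcF0 Cut.none Ext.none :=
  certFX2 (fam := false) (s1 := true) (s2 := false) (a := 2) (b := 0) (c := 2) (cn := .pp) (n1 := ndF6q2) (n2 := ndF6q2) (pc := pcF0) (cut := Cut.none) (xt := Ext.none) (P1 := 1073741824) (W1 := 536870912) (P2 := 1073741824) (W2 := 536870912) (P3 := 1046898278) (W3 := 26843546)
    rfl (fun _ => rfl) k0_pm_202

noncomputable def f_pm_203 : ℕ → ℕ → ℕ → ℕ → Bool := onCell 0 536870912 0 1230186008 1046898278 26843546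
    (rowFX 2 false true false .up 2 0 3 (qsf 1073741824 536870912 0 1230186008 0) ndF6q2 ndF6q3 pcF0 Cut.none Ext.none)

def k0_pm_203 : ∃ t, chk3 f_pm_203 t 1 1 1 = true :=
  ⟨(b (a (l 2) (a (l 2) (b (a (l 2) (c (l 839229961447) (l 890232694983))) (b (a (l 16747528) (l 16747528)) (l 16764968))))) (a (a (b (l 2) (b (l 2) (a (a (a (b (l 2) (l 16541936)) (l 16439992)) (l 16528136)) (a (l 16622992) (l 16621160))))) (b (a (l 2) (b (l 2) (l 1441062610647))) (a (b (l 16599312) (l 16690920)) (b (l 16754888) (l 16766480))))) (b (a (b (l 16777160) (l 16777200)) (b (l 16777160) (l 16777200))) (b (a (l 16777216) (a (l 16744352) (b (l 16693256) (l 16080208)))) (a (b (l 16749072) (l 4)) (l 4)))))), by decide +kernel⟩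

theorem c_pm_203 : CertFX 1073741824 536870912 0 1230186008 1046898278 26843546 false true false .up 2 0 3
    ndF6q2 ndF6q3 pcF0 Cut.none Ext.none :=
  certFX2 (fam := false) (s1 := true) (s2 := false) (a := 2) (b := 0) (c := 3) (cn := .up) (n1 := ndF6q2) (n2 := ndF6q3) (pc := pcF0) (cut := Cut.none) (xt := Ext.none) (P1 := 1073741824) (W1 := 536870912) (P2 := 0) (W2 := 1230186008) (P3 := 1046898278) (W3 := 26843546)
    rfl (fun _ => rfl) k0_pm_203

noncomputable def f_pm_213 : ℕ → ℕ → ℕ → ℕ → Bool := onCell 1073741824 536870912 0 1230186008 1046898278 26843546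
    (rowFX 0 false true false .pnn 2 1 3 (qsf 1073741824 536870912 0 1230186008 1) ndF6q2 ndF6q3 pcF1 Cut.none Ext.none)

def k0_pm_213 : ∃ t, chk3 f_pm_213 t 1 1 1 = true :=
  ⟨(b (a (a (b (a (b (a (l 15970256) (l 15899968)) (a (l 16001112) (l 16042768))) (b (l 15621728) (a (l 15888136) (l 15450416)))) (a (b (b (l 15778368) (l 15724360)) (b (l 15430584) (a (b (l 15120248) (l 15173616)) (l 15562144)))) (b (a (l 15767920) (l 15445608)) (b (l 15536672) (l 15514400))))) (b (a (a (b (l 15236056) (l 15252288)) (l 15804712)) (b (l 16588104) (l 16580504))) (a (b (l 15585112) (l 15582400)) (b (l 16613880) (l 16636888))))) (b (a (a (l 16723688) (b (l 16739896) (l 16725344))) (c (a (l 16725328) (l 16725328)) (a (l 16722792) (l 16722792)))) (a (b (l 16747528) (l 16764968)) (b (l 16747528) (l 16764968))))) (b (a (a (b (a (b (b (a (b (l 15242264) (l 15023136)) (b (l 15327592) (l 15519496))) (a (b (l 14787952) (a (l 14509832) (l 14961040))) (b (l 15449072) (l 15386544)))) (a (b (l 14713720)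 (l 14853888)) (b (a (l 15235352) (l 15485200)) (l 15317784)))) (b (a (b (l 15624960) (l 15618352)) (l 15403352)) (a (b (a (l 15615536) (l 15603960)) (l 15557744)) (l 15387008)))) (a (b (a (l 4) (l 15376888)) (l 4)) (b (l 15443728) (l 15473472)))) (b (a (b (l 15572936) (a (l 15280848) (l 15851384))) (l 16627016)) (a (b (l 15446296) (l 15571728)) (l 16626960)))) (b (l 334504132391) (a (l 16777200) (l 1)))) (a (a (l 4) (b (a (l 15468040) (l 16626968)) (l 4))) (l 1)))), by decide +kernel⟩

theorem c_pm_213 : CertFX 1073741824 536870912 0 1230186008 1046898278 26843546 false true false .pnn 2 1 3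
    ndF6q2 ndF6q3 pcF1 Cut.none Ext.none :=
  certFX0 (fam := false) (s1 := true) (s2 := false) (a := 2) (b := 1) (c := 3) (cn := .pnn) (n1 := ndF6q2) (n2 := ndF6q3) (pc := pcF1) (cut := Cut.none) (xt := Ext.none) (P1 := 1073741824) (W1 := 536870912) (P2 := 0) (W2 := 1230186008) (P3 := 1046898278) (W3 := 26843546)
    rfl k0_pm_213

noncomputable def f_pm_303 : ℕ → ℕ → ℕ → ℕ → Bool := onCell 0 1230186008 0 1230186008 1046898278 26843546
    (rowFX 0 false true false .npn 3 0 3 (qsf 0 1230186008 0 1230186008 0) ndF6q3 ndF6q3 pcF0 Cut.none Ext.none)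

def k0_pm_303 : ∃ t, chk3 f_pm_303 t 2 1 1 = true :=
  ⟨(b (l 3) (b (b (l 3) (l 1)) (l 1))), by decide +kernel⟩

def k1_pm_303 : ∃ t, chk3 f_pm_303 t 3 2 1 = true :=
  ⟨(a (b (l 3) (a (l 3) (b (l 3) (a (l 3) (b (l 3) (a (b (l 3) (l 418925291639)) (c (l 335710556807) (l 334099943735)))))))) (a (b (l 3) (a (b (l 3) (b (a (c (l 461875857447) (l 494088273671)) (b (a (l 16714264) (l 16751720)) (a (l 16658768) (l 16740344)))) (a (b (l 16436496) (l 16332160)) (b (a (l 16600768) (l 16711872)) (l 16553384))))) (b (c (l 453286672855) (l 461876598119)) (b (c (l 16818528) (a (l 16758272) (l 16757240))) (a (a (a (l 16597464) (l 16669648)) (l 16770600)) (l 16773712)))))) (a (b (c (l 463487473863) (l 490330769767)) (b (c (l 16750048) (l 16743248)) (b (l 16757480) (l 16773712)))) (b (b (l 447918028295) (a (l 16725344) (l 16725344))) (b (b (l 16753096) (l 16755744)) (l 16764968)))))), by decide +kernel⟩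

def k2_pm_303 : ∃ t, chk3 f_pm_303 t 6 24 1 = true :=
  ⟨(a (l 3) (b (a (l 3) (a (c (l 395302522151) (l 404429429143)) (a (l 15976656) (l 16065376)))) (a (a (l 3) (c (a (b (l 3) (c (l 15333232) (l 15324936))) (l 15400448)) (a (l 15277592) (l 15451600)))) (c (a (a (l 15655448) (l 15771224)) (l 15929424)) (a (a (l 15626176) (l 15745040)) (l 15907392)))))), by decide +kernel⟩

def k3_pm_303 : ∃ t, chk3 f_pm_303 t 6 25 1 = true :=
  ⟨(b (a (l 3) (a (c (a (c (a (l 403890664679) (l 329266671655)) (a (b (l 3) (l 386710724071)) (l 342151172071))) (a (c (b (l 15276184) (l 15183288)) (l 15223664)) (b (l 15377736) (l 15353400)))) (a (c (a (l 375973392727) (l 15114080)) (l 15045264)) (a (l 15199632) (l 15212744)))) (a (c (b (l 15615584) (l 15546384)) (l 15483736)) (c (l 15845520) (l 15821280))))) (a (a (l 1) (a (l 3) (a (b (l 3) (b (b (l 3) (l 1)) (l 1))) (c (b (l 14813896) (b (l 14772800) (l 14738096))) (b (c (l 14538376) (c (l 355034954871) (l 14779968))) (c (b (b (l 14745936) (b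 (l 14738088) (l 14736704))) (l 14689232)) (b (a (c (l 14571704) (a (l 14552536) (l 14489472))) (c (b (l 14752472) (l 14747688)) (l 14734456))) (a (l 14631632) (c (l 14715216) (l 14714944)))))))))) (b (a (c (a (a (l 14701992) (c (l 15011240) (l 15017720))) (a (l 15132136) (l 15250320))) (a (c (a (c (l 14886952) (l 14890056)) (l 15011576)) (l 14937016)) (l 15172112))) (a (a (l 15399168) (l 15538632)) (l 15777408))) (a (c (c (a (b (l 14704032) (a (l 14854496) (l 14942536))) (l 15126264)) (a (a (b (l 14835400) (b (l 14837032) (l 14836592))) (l 14950136)) (l 15131072))) (a (a (c (b (a (b (l 14808600) (l 14811240)) (l 14866008)) (a (c (l 14799472) (l 14785832)) (l 14785640))) (b (l 14821216) (b (l 14761328) (l 14803592)))) (c (l 14938064) (l 14926608))) (l 15118288))) (c (a (l 15403352) (l 15692992)) (l 15509424)))))), by decide +kernel⟩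

def k4_pm_303 : ∃ t, chk3 f_pm_303 t 12 13 1 = true :=
  ⟨(b (a (l 1) (b (a (l 1) (a (l 1) (b (c (l 1161280539399) (l 14595864)) (l 1)))) (l 1))) (l 1)), by decide +kernel⟩

def k5_pm_303 : ∃ t, chk3 f_pm_303 t 13 13 1 = true :=
  ⟨(b (b (a (a (a (b (c (a (l 14742312) (l 14820840)) (b (c (l 14797968) (a (l 14756688) (l 14816904))) (b (l 1063033401575) (l 14748176)))) (l 1115109665255)) (b (c (c (a (l 14902232) (b (l 14975440) (l 14978056))) (b (a (l 14891984) (l 14926088)) (l 14915512))) (b (l 14900432) (c (l 14857768) (l 14887096)))) (c (l 14868464) (c (b (l 14835800) (l 14839072)) (b (a (l 14837112) (l 14896808)) (l 1170408121463)))))) (c (b (a (c (a (b (l 14986960) (l 15006248)) (l 15022616)) (l 15003776)) (l 15105760)) (a (b (c (l 15027456) (l 15003856)) (l 15003376)) (c (l 15107048) (l 15086360)))) (a (b (l 14896352) (b (l 14979464) (c (l 14978968) (l 14966960)))) (l 15114912)))) (c (a (b (l 15331280) (l 15264400)) (b (l 15618376) (l 15562352))) (a (l 15311784) (l 15571792))))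 (b (a (a (c (l 14675208) (l 14668384)) (c (a (l 14947776) (b (c (l 15103256) (l 15081728)) (a (l 15057480) (l 15120824)))) (b (a (c (l 14957616) (a (l 14917664) (l 14976760))) (l 15058456)) (a (a (l 14870984) (c (l 14965936) (l 14957992))) (c (l 15058256) (l 15046824)))))) (a (c (a (b (l 15165856) (l 15178320)) (l 15260680)) (l 15237056)) (c (l 15498024) (l 15492760)))) (a (a (l 1) (b (a (l 14862656) (c (l 15050280) (b (a (l 15019552) (l 15084256)) (l 15027344)))) (l 14838016))) (b (a (b (c (a (l 15171864) (l 15237840)) (l 15206672)) (l 15196968)) (l 15438160)) (a (c (l 15204384) (l 15183976)) (l 15358304)))))) (b (a (l 1263823205143) (b (a (c (l 15169864) (a (l 15093936) (l 15208512))) (l 15283048)) (a (a (l 15005280) (c (l 15187472) (l 15174824))) (c (l 15365448) (l 15349328))))) (a (l 1) (a (l 14972528) (c (b (l 15328400) (l 15264376)) (b (a (l 15255808) (l 15366696)) (a (l 15178208) (l 15336872)))))))), by decide +kernel⟩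

def k6_pm_303 : ∃ t, chk3 f_pm_303 t 6 7 1 = true :=
  ⟨(a (l 1) (b (a (l 1) (b (b (a (l 1) (l 15148848)) (l 1)) (l 1))) (l 1))), by decide +kernel⟩

def k7_pm_303 : ∃ t, chk3 f_pm_303 t 7 6 1 = true :=
  ⟨(a (b (a (b (a (b (l 16223720) (l 16140152)) (l 16417152)) (b (l 16129128) (a (b (l 16012632) (l 15964920)) (l 16172272)))) (b (a (l 16534432) (b (l 16772816) (l 16733792))) (b (l 16557208) (l 16457704)))) (b (a (a (b (l 15678008) (b (c (l 15772240) (l 15749064)) (l 15697784))) (b (l 16056528) (l 15956176))) (a (b (l 16250000) (l 16170872)) (l 16395928))) (a (b (c (l 15739744) (l 15733600)) (a (c (b (l 15555464) (l 15435792)) (b (l 15542088) (l 15505888))) (l 15754776))) (a (l 16035184) (l 16235968))))) (b (a (b (l 16777176) (a (b (l 16767280) (l 16719432)) (l 16777152))) (l 16777160)) (a (b (a (l 16585192) (l 16719312)) (l 16497816)) (b (l 16775888) (l 16727184))))), by decide +kernel⟩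

def k8_pm_303 : ∃ t, chk3 f_pm_303 t 7 7 1 = true :=
  ⟨(a (b (a (b (b (a (b (a (c (l 15427680) (l 15418000)) (c (l 15549616) (l 15524512))) (a (l 15343248) (c (l 15507896) (l 15499184)))) (b (l 15699176) (a (c (l 15626320) (l 15610840)) (l 15697984)))) (a (l 15325032) (b (a (c (l 15588512) (l 15581536)) (c (l 15703560) (l 15689320))) (a (l 15522192) (c (l 15669400) (l 15662744)))))) (b (a (l 1) (l 15506808)) (l 1))) (b (a (b (l 15897776) (b (l 15846064) (a (c (l 15780640) (l 15767600)) (l 15848712)))) (b (l 16124808) (l 16037600))) (b (a (b (a (c (l 15750264) (b (l 15754240) (l 15737584))) (c (l 15857528) (l 15845648))) (a (l 15694264) (c (l 15831088) (b (l 15834320) (l 15819720))))) (b (l 15992376) (a (c (l 15934208) (l 15923448)) (l 15998344)))) (a (l 15695024) (b (a (c (l 15916584) (b (l 15914304) (l 15903792))) (c (l 16012384) (l 16002760))) (l 15933504)))))) (a (l 1) (b (b (l 15766264) (l 1)) (l 1)))) (b (a (b (a (l 16268456) (l 16436488)) (b (a (l 16181088) (l 16361904))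 (a (b (l 16132552) (l 16121736)) (l 16302968)))) (b (l 16641456) (b (l 16560712) (l 16515496)))) (b (a (b (a (b (l 16112840) (l 16100848)) (b (l 16277392) (l 16270608))) (a (l 16066864) (b (a (l 16232744) (l 16307192)) (l 16268528)))) (a (b (l 16427584) (b (l 16419520) (l 16417440))) (l 16545008))) (a (b (l 16171808) (l 1)) (b (c (a (b (l 16428536) (l 16435672)) (l 16772168)) (a (b (l 16424072) (l 16435312)) (l 16556632))) (a (l 16452296) (b (a (l 16553472) (l 16607248)) (a (l 16571128) (l 16633232))))))))), by decide +kernel⟩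

theorem s9_pm_303 : ∃ t, chk3 f_pm_303 t 7 3 1 = true := ex3_b k7_pm_303 k8_pm_303

theorem s10_pm_303 : ∃ t, chk3 f_pm_303 t 6 13 1 = true := ex3_a k4_pm_303 k5_pm_303

theorem s11_pm_303 : ∃ t, chk3 f_pm_303 t 6 12 1 = true := ex3_b k2_pm_303 k3_pm_303

theorem s12_pm_303 : ∃ t, chk3 f_pm_303 t 6 6 1 = true := ex3_b s11_pm_303 s10_pm_303

theorem s13_pm_303 : ∃ t, chk3 f_pm_303 t 6 3 1 = true := ex3_b s12_pm_303 k6_pm_303

theorem s14_pm_303 : ∃ t, chk3 f_pm_303 t 3 3 1 = true := ex3_a s13_pm_303 s9_pm_303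

theorem s15_pm_303 : ∃ t, chk3 f_pm_303 t 3 1 1 = true := ex3_b k1_pm_303 s14_pm_303

theorem s16_pm_303 : ∃ t, chk3 f_pm_303 t 1 1 1 = true := ex3_a k0_pm_303 s15_pm_303

theorem c_pm_303 : CertFX 0 1230186008 0 1230186008 1046898278 26843546 false true false .npn 3 0 3
    ndF6q3 ndF6q3 pcF0 Cut.none Ext.none :=
  certFX0 (fam := false) (s1 := true) (s2 := false) (a := 3) (b := 0) (c := 3) (cn := .npn) (n1 := ndF6q3) (n2 := ndF6q3) (pc := pcF0) (cut := Cut.none) (xt := Ext.none) (P1 := 0) (W1 := 1230186008) (P2 := 0) (W2 := 1230186008) (P3 := 1046898278) (W3 := 26843546)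
    rfl s16_pm_303

noncomputable def f_pm_313 : ℕ → ℕ → ℕ → ℕ → Bool := onCell 0 1230186008 0 1230186008 1046898278 26843546
    (rowFX 0 false true false .dn 3 1 3 (qsf 0 1230186008 0 1230186008 1) ndF6q3 ndF6q3 pcF1 Cut.none Ext.none)

def k0_pm_313 : ∃ t, chk3 f_pm_313 t 1 1 1 = true :=
  ⟨(a (l 1) (b (a (l 1) (b (a (l 1) (a (l 1) (c (l 814466804199) (l 863322053319)))) (l 1))) (l 1))), by decide +kernel⟩

theorem c_pm_313 : CertFX 0 1230186008 0 1230186008 1046898278 26843546 false true false .dn 3 1 3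
    ndF6q3 ndF6q3 pcF1 Cut.none Ext.none :=
  certFX0 (fam := false) (s1 := true) (s2 := false) (a := 3) (b := 1) (c := 3) (cn := .dn) (n1 := ndF6q3) (n2 := ndF6q3) (pc := pcF1) (cut := Cut.none) (xt := Ext.none) (P1 := 0) (W1 := 1230186008) (P2 := 0) (W2 := 1230186008) (P3 := 1046898278) (W3 := 26843546)
    rfl k0_pm_313

noncomputable def f_mm_001 : ℕ → ℕ → ℕ → ℕ → Bool := onCell 0 536870912 536870912 469762048 1046898278 26843546
    (rowFX 0 false false false .up 0 0 1 (qsf 0 536870912 536870912 469762048 0) ndF6q0 ndF6q1 pcF0 Cut.none Ext.none)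

def k0_mm_001 : ∃ t, chk3 f_mm_001 t 1 1 1 = true :=
  ⟨(l 3), by decide +kernel⟩

theorem c_mm_001 : CertFX 0 536870912 536870912 469762048 1046898278 26843546 false false false .up 0 0 1
    ndF6q0 ndF6q1 pcF0 Cut.none Ext.none :=
  certFX0 (fam := false) (s1 := false) (s2 := false) (a := 0) (b := 0) (c := 1) (cn := .up) (n1 := ndF6q0) (n2 := ndF6q1) (pc := pcF0) (cut := Cut.none) (xt := Ext.none) (P1 := 0) (W1 := 536870912) (P2 := 536870912) (W2 := 469762048) (P3 := 1046898278) (W3 := 26843546)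
    rfl k0_mm_001

noncomputable def f_mm_011 : ℕ → ℕ → ℕ → ℕ → Bool := onCell 0 536870912 536870912 469762048 1046898278 26843546
    (rowFX 0 false false false .pnn 0 1 1 (qsf 0 536870912 536870912 469762048 1) ndF6q0 ndF6q1 pcF1 Cut.none Ext.none)

def k0_mm_011 : ∃ t, chk3 f_mm_011 t 1 1 1 = true :=
  ⟨(l 3), by decide +kernel⟩

theorem c_mm_011 : CertFX 0 536870912 536870912 469762048 1046898278 26843546 false false false .pnn 0 1 1
    ndF6q0 ndF6q1 pcF1 Cut.none Ext.none :=
  certFX0 (fam := false) (s1 := false) (s2 := false) (a := 0) (b := 1) (c := 1) (cn := .pnn) (n1 := ndF6q0) (n2 := ndF6q1) (pc := pcF1) (cut := Cut.none) (xt := Ext.none) (P1 := 0) (W1 := 536870912) (P2 := 536870912) (W2 := 469762048) (P3 := 1046898278) (W3 := 26843546)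
    rfl k0_mm_011

noncomputable def f_mm_012 : ℕ → ℕ → ℕ → ℕ → Bool := onCell 0 536870912 1073741824 536870912 1046898278 26843546
    (rowFX 0 false false false .pnp 0 1 2 (qsf 0 536870912 1073741824 536870912 1) ndF6q0 ndF6q2 pcF1 Cut.none Ext.none)

def k0_mm_012 : ∃ t, chk3 f_mm_012 t 1 1 1 = true :=
  ⟨(l 5), by decide +kernel⟩

theorem c_mm_012 : CertFX 0 536870912 1073741824 536870912 1046898278 26843546 false false false .pnp 0 1 2
    ndF6q0 ndF6q2 pcF1 Cut.none Ext.none :=
  certFX0 (fam := false) (s1 := false) (s2 := false) (a := 0) (b := 1) (c := 2) (cn := .pnp) (n1 := ndF6q0) (n2 := ndF6q2) (pc := pcF1) (cut := Cut.none) (xt := Ext.none) (P1 := 0) (W1 := 536870912) (P2 := 1073741824) (W2 := 536870912) (P3 := 1046898278) (W3 := 26843546)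
    rfl k0_mm_012

noncomputable def f_mm_022 : ℕ → ℕ → ℕ → ℕ → Bool := onCell 0 536870912 1073741824 536870912 1046898278 26843546
    (rowFX 0 false false false .pp 0 2 2 (qsf 0 536870912 1073741824 536870912 2) ndF6q0 ndF6q2 pcF2 Cut.none Ext.none)

def k0_mm_022 : ∃ t, chk3 f_mm_022 t 1 1 1 = true :=
  ⟨(l 5), by decide +kernel⟩

theorem c_mm_022 : CertFX 0 536870912 1073741824 536870912 1046898278 26843546 false false false .pp 0 2 2
    ndF6q0 ndF6q2 pcF2 Cut.none Ext.none :=
  certFX0 (fam := false) (s1 := false) (s2 := false) (a := 0) (b := 2) (c := 2) (cn := .pp) (n1 := ndF6q0) (n2 := ndF6q2) (pc := pcF2) (cut := Cut.none) (xt := Ext.none) (P1 := 0) (W1 := 536870912) (P2 := 1073741824) (W2 := 536870912) (P3 := 1046898278) (W3 := 26843546)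
    rfl k0_mm_022

noncomputable def f_mm_023 : ℕ → ℕ → ℕ → ℕ → Bool := onCell 0 536870912 0 1230186008 1046898278 26843546
    (rowFX 0 false false false .up 0 2 3 (qsf 0 536870912 0 1230186008 2) ndF6q0 ndF6q3 pcF2 Cut.none Ext.none)

def k0_mm_023 : ∃ t, chk3 f_mm_023 t 1 1 1 = true :=
  ⟨(l 5), by decide +kernel⟩

theorem c_mm_023 : CertFX 0 536870912 0 1230186008 1046898278 26843546 false false false .up 0 2 3
    ndF6q0 ndF6q3 pcF2 Cut.none Ext.none :=
  certFX0 (fam := false) (s1 := false) (s2 := false) (a := 0) (b := 2) (c := 3) (cn := .up) (n1 := ndF6q0) (n2 := ndF6q3) (pc := pcF2) (cut := Cut.none) (xt := Ext.none) (P1 := 0) (W1 := 536870912) (P2 := 0) (W2 := 1230186008) (P3 := 1046898278) (W3 := 26843546)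
    rfl k0_mm_023

noncomputable def f_mm_033 : ℕ → ℕ → ℕ → ℕ → Bool := onCell 0 536870912 0 1230186008 1046898278 26843546
    (rowFX 0 false false false .pnn 0 3 3 (qsf 0 536870912 0 1230186008 3) ndF6q0 ndF6q3 pcF3 Cut.none Ext.none)

def k0_mm_033 : ∃ t, chk3 f_mm_033 t 1 1 1 = true :=
  ⟨(l 5), by decide +kernel⟩

theorem c_mm_033 : CertFX 0 536870912 0 1230186008 1046898278 26843546 false false false .pnn 0 3 3
    ndF6q0 ndF6q3 pcF3 Cut.none Ext.none :=
  certFX0 (fam := false) (s1 := false) (s2 := false) (a := 0) (b := 3) (c := 3) (cn := .pnn) (n1 := ndF6q0) (n2 := ndF6q3) (pc := pcF3) (cut := Cut.none) (xt := Ext.none) (P1 := 0) (W1 := 536870912) (P2 := 0) (W2 := 1230186008) (P3 := 1046898278) (W3 := 26843546)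
    rfl k0_mm_033

noncomputable def f_mm_101 : ℕ → ℕ → ℕ → ℕ → Bool := onCell 536870912 469762048 536870912 469762048 1046898278 26843546
    (rowFX 0 false false false .npn 1 0 1 (qsf 536870912 469762048 536870912 469762048 0) ndF6q1 ndF6q1 pcF0 Cut.none Ext.none)

def k0_mm_101 : ∃ t, chk3 f_mm_101 t 1 1 1 = true :=
  ⟨(l 3), by decide +kernel⟩

theorem c_mm_101 : CertFX 536870912 469762048 536870912 469762048 1046898278 26843546 false false false .npn 1 0 1
    ndF6q1 ndF6q1 pcF0 Cut.none Ext.none :=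
  certFX0 (fam := false) (s1 := false) (s2 := false) (a := 1) (b := 0) (c := 1) (cn := .npn) (n1 := ndF6q1) (n2 := ndF6q1) (pc := pcF0) (cut := Cut.none) (xt := Ext.none) (P1 := 536870912) (W1 := 469762048) (P2 := 536870912) (W2 := 469762048) (P3 := 1046898278) (W3 := 26843546)
    rfl k0_mm_101

noncomputable def f_mm_102 : ℕ → ℕ → ℕ → ℕ → Bool := onCell 536870912 469762048 1073741824 536870912 1046898278 26843546
    (rowFX 0 false false false .npp 1 0 2 (qsf 536870912 469762048 1073741824 536870912 0) ndF6q1 ndF6q2 pcF0 Cut.none Ext.none)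

def k0_mm_102 : ∃ t, chk3 f_mm_102 t 1 1 1 = true :=
  ⟨(l 5), by decide +kernel⟩

theorem c_mm_102 : CertFX 536870912 469762048 1073741824 536870912 1046898278 26843546 false false false .npp 1 0 2
    ndF6q1 ndF6q2 pcF0 Cut.none Ext.none :=
  certFX0 (fam := false) (s1 := false) (s2 := false) (a := 1) (b := 0) (c := 2) (cn := .npp) (n1 := ndF6q1) (n2 := ndF6q2) (pc := pcF0) (cut := Cut.none) (xt := Ext.none) (P1 := 536870912) (W1 := 469762048) (P2 := 1073741824) (W2 := 536870912) (P3 := 1046898278) (W3 := 26843546)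
    rfl k0_mm_102

noncomputable def f_mm_112 : ℕ → ℕ → ℕ → ℕ → Bool := onCell 536870912 469762048 1073741824 536870912 1046898278 26843546
    (rowFX 0 false false false .dn 1 1 2 (qsf 536870912 469762048 1073741824 536870912 1) ndF6q1 ndF6q2 pcF1 Cut.none Ext.none)

def k0_mm_112 : ∃ t, chk3 f_mm_112 t 1 1 1 = true :=
  ⟨(l 5), by decide +kernel⟩

theorem c_mm_112 : CertFX 536870912 469762048 1073741824 536870912 1046898278 26843546 false false false .dn 1 1 2
    ndF6q1 ndF6q2 pcF1 Cut.none Ext.none :=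
  certFX0 (fam := false) (s1 := false) (s2 := false) (a := 1) (b := 1) (c := 2) (cn := .dn) (n1 := ndF6q1) (n2 := ndF6q2) (pc := pcF1) (cut := Cut.none) (xt := Ext.none) (P1 := 536870912) (W1 := 469762048) (P2 := 1073741824) (W2 := 536870912) (P3 := 1046898278) (W3 := 26843546)
    rfl k0_mm_112

noncomputable def f_mm_113 : ℕ → ℕ → ℕ → ℕ → Bool := onCell 536870912 469762048 0 1230186008 1046898278 26843546
    (rowFX 0 false false false .nn 1 1 3 (qsf 536870912 469762048 0 1230186008 1) ndF6q1 ndF6q3 pcF1 Cut.none Ext.none)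

def k0_mm_113 : ∃ t, chk3 f_mm_113 t 1 1 1 = true :=
  ⟨(l 5), by decide +kernel⟩

theorem c_mm_113 : CertFX 536870912 469762048 0 1230186008 1046898278 26843546 false false false .nn 1 1 3
    ndF6q1 ndF6q3 pcF1 Cut.none Ext.none :=
  certFX0 (fam := false) (s1 := false) (s2 := false) (a := 1) (b := 1) (c := 3) (cn := .nn) (n1 := ndF6q1) (n2 := ndF6q3) (pc := pcF1) (cut := Cut.none) (xt := Ext.none) (P1 := 536870912) (W1 := 469762048) (P2 := 0) (W2 := 1230186008) (P3 := 1046898278) (W3 := 26843546)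
    rfl k0_mm_113

noncomputable def f_mm_123 : ℕ → ℕ → ℕ → ℕ → Bool := onCell 536870912 469762048 0 1230186008 1046898278 26843546
    (rowFX 0 false false false .npn 1 2 3 (qsf 536870912 469762048 0 1230186008 2) ndF6q1 ndF6q3 pcF2 Cut.none Ext.none)

def k0_mm_123 : ∃ t, chk3 f_mm_123 t 1 1 1 = true :=
  ⟨(l 5), by decide +kernel⟩

theorem c_mm_123 : CertFX 536870912 469762048 0 1230186008 1046898278 26843546 false false false .npn 1 2 3
    ndF6q1 ndF6q3 pcF2 Cut.none Ext.none :=
  certFX0 (fam := false) (s1 := false) (s2 := false) (a := 1) (b := 2) (c := 3) (cn := .npn) (n1 := ndF6q1) (n2 := ndF6q3) (pc := pcF2) (cut := Cut.none) (xt := Ext.none) (P1 := 536870912) (W1 := 469762048) (P2 := 0) (W2 := 1230186008) (P3 := 1046898278) (W3 := 26843546)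
    rfl k0_mm_123

noncomputable def f_mm_133 : ℕ → ℕ → ℕ → ℕ → Bool := onCell 536870912 469762048 0 1230186008 1046898278 26843546
    (rowFX 0 false false false .dn 1 3 3 (qsf 536870912 469762048 0 1230186008 3) ndF6q1 ndF6q3 pcF3 Cut.none Ext.none)

def k0_mm_133 : ∃ t, chk3 f_mm_133 t 1 1 1 = true :=
  ⟨(l 5), by decide +kernel⟩

theorem c_mm_133 : CertFX 536870912 469762048 0 1230186008 1046898278 26843546 false false false .dn 1 3 3
    ndF6q1 ndF6q3 pcF3 Cut.none Ext.none :=
  certFX0 (fam := false) (s1 := false) (s2 := false) (a := 1) (b := 3) (c := 3) (cn := .dn) (n1 := ndF6q1) (n2 := ndF6q3) (pc := pcF3) (cut := Cut.none) (xt := Ext.none) (P1 := 536870912) (W1 := 469762048) (P2 := 0) (W2 := 1230186008) (P3 := 1046898278) (W3 := 26843546)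
    rfl k0_mm_133

noncomputable def f_mm_202 : ℕ → ℕ → ℕ → ℕ → Bool := onCell 1073741824 536870912 1073741824 536870912 1046898278 26843546
    (rowFX 0 false false false .pp 2 0 2 (qsf 1073741824 536870912 1073741824 536870912 0) ndF6q2 ndF6q2 pcF0 Cut.none Ext.none)

def k0_mm_202 : ∃ t, chk3 f_mm_202 t 1 1 1 = true :=
  ⟨(l 3), by decide +kernel⟩

theorem c_mm_202 : CertFX 1073741824 536870912 1073741824 536870912 1046898278 26843546 false false false .pp 2 0 2
    ndF6q2 ndF6q2 pcF0 Cut.none Ext.none :=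
  certFX0 (fam := false) (s1 := false) (s2 := false) (a := 2) (b := 0) (c := 2) (cn := .pp) (n1 := ndF6q2) (n2 := ndF6q2) (pc := pcF0) (cut := Cut.none) (xt := Ext.none) (P1 := 1073741824) (W1 := 536870912) (P2 := 1073741824) (W2 := 536870912) (P3 := 1046898278) (W3 := 26843546)
    rfl k0_mm_202

noncomputable def f_mm_203 : ℕ → ℕ → ℕ → ℕ → Bool := onCell 1073741824 536870912 0 1230186008 1046898278 26843546
    (rowFX 0 false false false .up 2 0 3 (qsf 1073741824 536870912 0 1230186008 0) ndF6q2 ndF6q3 pcF0 Cut.none Ext.none)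

def k0_mm_203 : ∃ t, chk3 f_mm_203 t 1 1 1 = true :=
  ⟨(b (l 5) (a (l 5) (l 3))), by decide +kernel⟩

theorem c_mm_203 : CertFX 1073741824 536870912 0 1230186008 1046898278 26843546 false false false .up 2 0 3
    ndF6q2 ndF6q3 pcF0 Cut.none Ext.none :=
  certFX0 (fam := false) (s1 := false) (s2 := false) (a := 2) (b := 0) (c := 3) (cn := .up) (n1 := ndF6q2) (n2 := ndF6q3) (pc := pcF0) (cut := Cut.none) (xt := Ext.none) (P1 := 1073741824) (W1 := 536870912) (P2 := 0) (W2 := 1230186008) (P3 := 1046898278) (W3 := 26843546)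
    rfl k0_mm_203

noncomputable def f_mm_213 : ℕ → ℕ → ℕ → ℕ → Bool := onCell 536870912 536870912 0 1230186008 1046898278 26843546
    (rowFX 2 false false false .pnn 2 1 3 (qsf 1073741824 536870912 0 1230186008 1) ndF6q2 ndF6q3 pcF1 Cut.none Ext.none)

def k0_mm_213 : ∃ t, chk3 f_mm_213 t 1 1 1 = true :=
  ⟨(b (l 5) (l 5)), by decide +kernel⟩

theorem c_mm_213 : CertFX 1073741824 536870912 0 1230186008 1046898278 26843546 false false false .pnn 2 1 3
    ndF6q2 ndF6q3 pcF1 Cut.none Ext.none :=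
  certFX2 (fam := false) (s1 := false) (s2 := false) (a := 2) (b := 1) (c := 3) (cn := .pnn) (n1 := ndF6q2) (n2 := ndF6q3) (pc := pcF1) (cut := Cut.none) (xt := Ext.none) (P1 := 1073741824) (W1 := 536870912) (P2 := 0) (W2 := 1230186008) (P3 := 1046898278) (W3 := 26843546)
    rfl (fun _ => rfl) k0_mm_213

noncomputable def f_mm_303 : ℕ → ℕ → ℕ → ℕ → Bool := onCell 0 1230186008 0 1230186008 1046898278 26843546
    (rowFX 0 false false false .npn 3 0 3 (qsf 0 1230186008 0 1230186008 0) ndF6q3 ndF6q3 pcF0 Cut.none Ext.none)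

def k0_mm_303 : ∃ t, chk3 f_mm_303 t 1 1 1 = true :=
  ⟨(a (b (l 3) (a (l 1) (l 3))) (b (a (l 3) (l 5)) (l 3))), by decide +kernel⟩

theorem c_mm_303 : CertFX 0 1230186008 0 1230186008 1046898278 26843546 false false false .npn 3 0 3
    ndF6q3 ndF6q3 pcF0 Cut.none Ext.none :=
  certFX0 (fam := false) (s1 := false) (s2 := false) (a := 3) (b := 0) (c := 3) (cn := .npn) (n1 := ndF6q3) (n2 := ndF6q3) (pc := pcF0) (cut := Cut.none) (xt := Ext.none) (P1 := 0) (W1 := 1230186008) (P2 := 0) (W2 := 1230186008) (P3 := 1046898278) (W3 := 26843546)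
    rfl k0_mm_303

noncomputable def f_mm_313 : ℕ → ℕ → ℕ → ℕ → Bool := onCell 0 1230186008 0 1230186008 1046898278 26843546
    (rowFX 0 false false false .dn 3 1 3 (qsf 0 1230186008 0 1230186008 1) ndF6q3 ndF6q3 pcF1 Cut.none Ext.none)

def k0_mm_313 : ∃ t, chk3 f_mm_313 t 1 1 1 = true :=
  ⟨(a (l 1) (b (a (l 1) (l 5)) (l 1))), by decide +kernel⟩

theorem c_mm_313 : CertFX 0 1230186008 0 1230186008 1046898278 26843546 false false false .dn 3 1 3
    ndF6q3 ndF6q3 pcF1 Cut.none Ext.none :=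
  certFX0 (fam := false) (s1 := false) (s2 := false) (a := 3) (b := 1) (c := 3) (cn := .dn) (n1 := ndF6q3) (n2 := ndF6q3) (pc := pcF1) (cut := Cut.none) (xt := Ext.none) (P1 := 0) (W1 := 1230186008) (P2 := 0) (W2 := 1230186008) (P3 := 1046898278) (W3 := 26843546)
    rfl k0_mm_313

end Pool.Agent.Strip051.G.IE1.Tab.C.FB66

namespace Pool.Agent.Strip051.G.IE1.Tab.C.FB67

open Pool.Agent.Strip051.PB Pool.Agent.Strip051.PB.T
open Pool.Agent.Strip051.G.IE1.Tab

noncomputable def f_pp_001 : ℕ → ℕ → ℕ → ℕ → Bool := onCell 0 536870912 536870912 536870912 1046898278 26843546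
    (rowFX 0 false true true .up 0 0 1 (qsf 0 536870912 536870912 536870912 0) ndF6q0 ndF7q1 pcF0 Cut.none Ext.none)

def k0_pp_001 : ∃ t, chk3 f_pp_001 t 1 1 1 = true :=
  ⟨(l 3), by decide +kernel⟩

theorem c_pp_001 : CertFX 0 536870912 536870912 536870912 1046898278 26843546 false true true .up 0 0 1
    ndF6q0 ndF7q1 pcF0 Cut.none Ext.none :=
  certFX0 (fam := false) (s1 := true) (s2 := true) (a := 0) (b := 0) (c := 1) (cn := .up) (n1 := ndF6q0) (n2 := ndF7q1) (pc := pcF0) (cut := Cut.none) (xt := Ext.none) (P1 := 0) (W1 := 536870912) (P2 := 536870912) (W2 := 536870912) (P3 := 1046898278) (W3 := 26843546)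
    rfl k0_pp_001

noncomputable def f_pp_011 : ℕ → ℕ → ℕ → ℕ → Bool := onCell 0 536870912 536870912 536870912 1046898278 26843546
    (rowFX 0 false true true .pnn 0 1 1 (qsf 0 536870912 536870912 536870912 1) ndF6q0 ndF7q1 pcF1 Cut.none Ext.none)

def k0_pp_011 : ∃ t, chk3 f_pp_011 t 1 1 1 = true :=
  ⟨(l 3), by decide +kernel⟩

theorem c_pp_011 : CertFX 0 536870912 536870912 536870912 1046898278 26843546 false true true .pnn 0 1 1
    ndF6q0 ndF7q1 pcF1 Cut.none Ext.none :=
  certFX0 (fam := false) (s1 := true) (s2 := true) (a := 0) (b := 1) (c := 1) (cn := .pnn) (n1 := ndF6q0) (n2 := ndF7q1) (pc := pcF1) (cut := Cut.none) (xt := Ext.none) (P1 := 0) (W1 := 536870912) (P2 := 536870912) (W2 := 536870912) (P3 := 1046898278) (W3 := 26843546)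
    rfl k0_pp_011

noncomputable def f_pp_012 : ℕ → ℕ → ℕ → ℕ → Bool := onCell 536870912 536870912 1073741824 536870912 1046898278 26843546
    (rowFX 2 false true true .pnp 0 1 2 (qsf 0 536870912 1073741824 536870912 1) ndF6q0 ndF7q2 pcF1 Cut.none Ext.none)

def k0_pp_012 : ∃ t, chk3 f_pp_012 t 1 1 1 = true :=
  ⟨(l 3), by decide +kernel⟩

theorem c_pp_012 : CertFX 0 536870912 1073741824 536870912 1046898278 26843546 false true true .pnp 0 1 2
    ndF6q0 ndF7q2 pcF1 Cut.none Ext.none :=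
  certFX2 (fam := false) (s1 := true) (s2 := true) (a := 0) (b := 1) (c := 2) (cn := .pnp) (n1 := ndF6q0) (n2 := ndF7q2) (pc := pcF1) (cut := Cut.none) (xt := Ext.none) (P1 := 0) (W1 := 536870912) (P2 := 1073741824) (W2 := 536870912) (P3 := 1046898278) (W3 := 26843546)
    rfl (fun _ => rfl) k0_pp_012

noncomputable def f_pp_022 : ℕ → ℕ → ℕ → ℕ → Bool := onCell 0 536870912 1073741824 536870912 1046898278 26843546
    (rowFX 1 false true true .pp 0 2 2 (qsf 0 536870912 1073741824 536870912 2) ndF6q0 ndF7q2 pcF2 Cut.none Ext.none)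

def k0_pp_022 : ∃ t, chk3 f_pp_022 t 1 4 1 = true :=
  ⟨(a (b (l 3) (a (l 3) (b (l 3) (b (l 3) (a (l 3) (a (b (l 3) (c (l 16684760) (l 1294563357911))) (c (b (l 16777168) (l 16777160)) (b (l 16777160) (l 16777160))))))))) (a (b (l 3) (a (b (l 3) (b (c (b (l 1030959723719) (a (l 16777192) (l 16768192))) (b (l 1132428325463) (a (l 16777192) (l 16767952)))) (c (b (a (l 16773992) (l 16753344)) (l 16748464)) (b (a (l 16773912) (l 16752728)) (l 16747712))))) (b (b (c (l 1114710907687) (l 1088941099495)) (c (a (l 16661680) (b (l 16543456) (l 16661752))) (a (l 1076593712999) (b (l 16537384) (l 16658760))))) (a (b (c (b (l 16741504) (l 16727816)) (b (l 16740576) (l 16726536))) (l 16677192)) (b (b (c (l 16666256) (l 16663376)) (l 16610760)) (l 16580568)))))) (b (b (b (l 3) (c (l 1033642177959) (l 977270995783))) (a (b (l 3) (c (l 993377454999) (l 960091470679))) (b (c (l 15976344) (l 16074056)) (c (a (l 16268336) (l 2)) (l 16043176))))) (b (b (a (c (l 667497645911) (c (l 16296648)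 (l 16313096))) (a (b (l 16245160) (l 2)) (l 2))) (a (a (b (c (l 16561192) (l 16555584)) (l 16535864)) (b (l 16395624) (l 16374264))) (l 2))) (a (a (b (b (l 16487680) (l 16473296)) (l 16327408)) (b (b (l 16348272) (l 2)) (l 2))) (l 2)))))), by decide +kernel⟩

def k1_pp_022 : ∃ t, chk3 f_pp_022 t 4 20 1 = true :=
  ⟨(b (b (l 3) (a (l 3) (a (l 3) (b (l 3) (l 16401320))))) (b (a (l 3) (a (b (l 3) (c (l 16321768) (l 16310488))) (b (c (l 16454872) (l 16446624)) (c (l 16482624) (l 16475176))))) (a (a (b (l 3) (a (b (b (l 3) (c (a (l 15954664) (l 16014656)) (a (c (l 15936312) (l 15923976)) (l 15997800)))) (b (b (b (c (a (l 15960576) (l 16020376)) (c (l 15849144) (l 15962144))) (c (a (l 15962936) (c (l 16023008) (l 16020544))) (a (c (l 15881848) (b (l 15931944) (l 15933168))) (c (l 16012552) (l 15994752))))) (c (l 15851536) (a (l 15816992) (l 16009336)))) (c (l 15858264) (a (l 15824280) (l 16015960))))) (b (c (c (l 16112040) (l 16093648)) (b (l 16061480) (l 16069328))) (c (b (b (b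 (l 16108800) (b (l 16110216) (l 16111160))) (l 16113520)) (l 16119168)) (b (b (b (l 16074216) (b (l 16075680) (l 16076656))) (l 16079104)) (l 16084960)))))) (b (c (b (l 16190848) (l 16205688)) (b (l 16166568) (l 16181896))) (b (c (b (l 16216760) (l 16224128)) (b (l 16193336) (l 16200952))) (b (b (b (c (l 16228720) (l 16205688)) (b (c (l 16230088) (l 16207112)) (c (c (l 16237760) (l 16223032)) (l 16187088)))) (l 16076312)) (c (l 16238888) (l 16216200)))))) (b (c (a (b (l 16343344) (l 16357648)) (b (l 16503216) (l 16518656))) (a (b (l 16332680) (l 16347400)) (b (l 16496376) (l 16512264)))) (b (c (a (b (l 16368312) (l 16376712)) (b (l 16530592) (l 16541760))) (a (b (l 16358376) (l 16367016)) (b (l 16524552) (l 16431176)))) (a (b (b (b (c (l 16381824) (l 16372272)) (b (c (l 16384296) (l 16374816)) (a (c (l 16344832) (l 16334376)) (l 16423504)))) (l 16385056)) (l 16390568)) (l 16556096))))))), by decide +kernel⟩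

def k2_pp_022 : ∃ t, chk3 f_pp_022 t 4 21 1 = true :=
  ⟨(a (a (a (c (a (l 16110864) (l 16117208)) (a (c (l 16096072) (l 16065152)) (l 16146400))) (c (l 16220200) (l 16211480))) (a (l 16057504) (l 16198312))) (a (l 16319152) (l 16587248))), by decide +kernel⟩

def k3_pp_022 : ∃ t, chk3 f_pp_022 t 5 10 1 = true :=
  ⟨(b (b (a (b (a (l 3) (c (l 1211885024151) (l 1443813259207))) (b (c (l 1345565634295) (l 1496426354407)) (c (a (l 16599144) (l 16753184)) (a (l 16594624) (l 16753112))))) (c (b (a (l 16749512) (l 16772160)) (b (l 16759152) (l 16755936))) (b (a (l 16748832) (l 16772032)) (c (l 16758208) (l 16757976))))) (b (a (c (b (a (l 16625584) (l 16729344)) (a (l 16653144) (l 16663792))) (b (a (l 16621856) (l 16728440)) (a (l 16608328) (b (l 16709488) (l 16695880))))) (b (a (l 16730120) (l 16762760)) (l 16742168))) (b (a (a (c (b (l 16675344) (l 16694384)) (b (l 16673168) (l 16692808))) (l 16677872)) (l 16711016)) (a (b (a (l 16716032) (l 16659008)) (a (l 16735880) (l 16649528)))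 (b (l 16707552) (a (l 16706728) (l 16725536))))))) (a (c (l 16657832) (l 16654824)) (a (l 16713960) (c (l 16770448) (l 16770280))))), by decide +kernel⟩

def k4_pp_022 : ∃ t, chk3 f_pp_022 t 2 11 1 = true :=
  ⟨(a (a (a (a (c (a (l 16451776) (b (l 16386480) (l 16584088))) (a (c (l 16445472) (l 16231456)) (l 16260320))) (c (b (l 16462640) (l 16525816)) (l 16508368))) (c (b (l 16573528) (l 16479896)) (b (l 16562872) (l 16489264)))) (a (c (l 16542136) (l 16537320)) (b (l 16566536) (l 16474720)))) (b (a (c (l 16606104) (l 16601608)) (a (l 16731264) (l 16747816))) (a (c (l 16606832) (l 16602408)) (l 16755776)))), by decide +kernel⟩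

def k5_pp_022 : ∃ t, chk3 f_pp_022 t 3 5 1 = true :=
  ⟨(a (b (b (b (a (b (c (l 16746152) (l 16745344)) (c (l 16758920) (l 16758440))) (a (b (l 16689992) (l 16694792)) (b (l 16574512) (l 16473184)))) (a (b (a (l 16742440) (l 16769376)) (b (a (l 16728184) (l 16722016)) (a (b (l 16757608) (l 16744088)) (l 16596896)))) (b (a (l 16605192) (l 16355808)) (b (l 16374800) (l 16266808))))) (a (l 16608680) (l 16347280))) (b (a (l 16680448) (a (l 16612368) (l 2))) (a (l 16777016) (l 2)))) (b (b (b (a (a (l 16264760) (l 2)) (l 2)) (l 2)) (l 2)) (l 2))), by decide +kernel⟩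

def k6_pp_022 : ∃ t, chk3 f_pp_022 t 1 3 1 = true :=
  ⟨(a (a (b (a (a (b (a (c (a (l 16251624) (l 16234152)) (a (l 16247080) (l 16220280))) (c (l 16199320) (l 16213272))) (c (a (l 15999000) (l 16046008)) (a (a (l 15969664) (l 15992808)) (l 16054376)))) (b (c (l 16138008) (l 16244216)) (l 16151440))) (b (a (c (l 16345464) (l 16334104)) (l 16465104)) (a (l 16334024) (l 16465104)))) (a (c (a (b (a (l 15991496) (l 16046008)) (l 15897560)) (l 16174752)) (a (b (l 15762624) (l 15993312)) (l 16173648))) (b (l 16354824) (a (l 16334024) (l 2))))) (b (b (a (c (l 16606832) (l 16602408)) (l 16755744)) (a (l 16604624) (c (l 16756024) (l 16755472)))) (a (b (l 16604624) (l 2)) (l 2)))) (b (a (a (a (b (l 16777216) (l 2)) (l 2)) (l 2)) (l 2)) (l 2))), by decide +kernel⟩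

theorem s7_pp_022 : ∃ t, chk3 f_pp_022 t 4 10 1 = true := ex3_b k1_pp_022 k2_pp_022

theorem s8_pp_022 : ∃ t, chk3 f_pp_022 t 2 10 1 = true := ex3_a s7_pp_022 k3_pp_022

theorem s9_pp_022 : ∃ t, chk3 f_pp_022 t 2 5 1 = true := ex3_b s8_pp_022 k4_pp_022

theorem s10_pp_022 : ∃ t, chk3 f_pp_022 t 1 5 1 = true := ex3_a s9_pp_022 k5_pp_022

theorem s11_pp_022 : ∃ t, chk3 f_pp_022 t 1 2 1 = true := ex3_b k0_pp_022 s10_pp_022

theorem s12_pp_022 : ∃ t, chk3 f_pp_022 t 1 1 1 = true := ex3_b s11_pp_022 k6_pp_022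

theorem c_pp_022 : CertFX 0 536870912 1073741824 536870912 1046898278 26843546 false true true .pp 0 2 2
    ndF6q0 ndF7q2 pcF2 Cut.none Ext.none :=
  certFX1 (fam := false) (s1 := true) (s2 := true) (a := 0) (b := 2) (c := 2) (cn := .pp) (n1 := ndF6q0) (n2 := ndF7q2) (pc := pcF2) (cut := Cut.none) (xt := Ext.none) (P1 := 0) (W1 := 536870912) (P2 := 1073741824) (W2 := 536870912) (P3 := 1046898278) (W3 := 26843546)
    rfl (fun _ => rfl) s12_pp_022

noncomputable def f_pp_023 : ℕ → ℕ → ℕ → ℕ → Bool := onCell 1073741824 536870912 0 1230186008 1046898278 26843546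
    (rowFX 2 false true true .up 0 2 3 (qsf 0 536870912 0 1230186008 2) ndF6q0 ndF7q3 pcF2 Cut.none Ext.none)

def k0_pp_023 : ∃ t, chk3 f_pp_023 t 1 1 1 = true :=
  ⟨(b (a (l 2) (a (l 2) (b (l 4) (c (l 16769544) (l 16769344))))) (a (a (b (l 2) (b (l 2) (b (a (l 2) (b (c (a (l 2) (l 15703544)) (l 15716264)) (a (c (l 15910312) (l 16064064)) (c (l 15895856) (l 15697640))))) (a (a (b (l 2) (a (l 3) (l 885465763815))) (c (a (l 16102176) (l 182702237127)) (a (l 16074056) (l 16169008)))) (a (a (c (l 16251832) (l 16238728)) (c (l 16351632) (l 16340576))) (b (l 15957304) (a (b (l 16299888) (l 16391032)) (l 16359304)))))))) (b (a (l 2) (a (l 2) (l 16776736))) (b (b (a (l 15075104) (l 16591584)) (a (a (b (l 2) (a (l 15184480) (l 15260224))) (b (l 15640912) (l 15768160))) (a (b (l 16395248) (l 16435224)) (l 16776712)))) (a (a (a (b (c (b (l 15539032) (l 15759360)) (l 15637760)) (l 16109816)) (b (b (c (l 15551432) (l 15467104)) (b (l 15482000) (a (l 15734872) (a (l 15733744) (l 15811000)))))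 (a (l 16105504) (a (l 16069432) (l 15858392))))) (b (c (b (l 15949960) (l 16059064)) (l 15901280)) (l 16267416))) (b (a (c (l 16525112) (l 16517288)) (l 16776864)) (l 16694664)))))) (b (a (b (l 16770496) (l 16777216)) (b (l 16777216) (l 16777216))) (b (a (c (l 16777216) (l 16777216)) (b (l 16769664) (l 16704288))) (a (b (c (l 16773064) (l 16772952)) (c (l 16703072) (l 16701144))) (b (l 16599264) (a (b (l 16575144) (l 16449800)) (b (l 16340944) (a (l 16262288) (c (l 16126528) (l 16108520))))))))))), by decide +kernel⟩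

theorem c_pp_023 : CertFX 0 536870912 0 1230186008 1046898278 26843546 false true true .up 0 2 3
    ndF6q0 ndF7q3 pcF2 Cut.none Ext.none :=
  certFX2 (fam := false) (s1 := true) (s2 := true) (a := 0) (b := 2) (c := 3) (cn := .up) (n1 := ndF6q0) (n2 := ndF7q3) (pc := pcF2) (cut := Cut.none) (xt := Ext.none) (P1 := 0) (W1 := 536870912) (P2 := 0) (W2 := 1230186008) (P3 := 1046898278) (W3 := 26843546)
    rfl (fun _ => rfl) k0_pp_023

noncomputable def f_pp_033 : ℕ → ℕ → ℕ → ℕ → Bool := onCell 0 536870912 0 1230186008 1046898278 26843546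
    (rowFX 0 false true true .pnn 0 3 3 (qsf 0 536870912 0 1230186008 3) ndF6q0 ndF7q3 pcF3 Cut.none Ext.none)

def k0_pp_033 : ∃ t, chk3 f_pp_033 t 1 1 1 = true :=
  ⟨(b (b (l 4) (b (a (l 4) (a (l 4) (c (l 16764200) (l 16763864)))) (a (a (l 4) (a (l 4) (c (l 16756024) (l 16755472)))) (a (c (l 16777216) (l 16777216)) (c (l 16777216) (l 16777216)))))) (b (b (a (b (a (a (l 4) (c (l 16400696) (l 16390920))) (c (l 16633248) (l 87744231879))) (a (a (c (a (l 321818546311) (l 16174752)) (a (l 332019075415) (l 16173648))) (c (l 16400696) (l 16390920))) (a (l 16604624) (l 16755744)))) (a (b (l 16777216) (l 16777216)) (l 310881812487))) (b (a (a (a (a (c (l 16023384) (l 16014280)) (l 16172408)) (l 16396768)) (a (l 16604624) (l 16755744))) (a (l 16777216) (l 1))) (a (a (a (a (c (l 16023392) (l 16014280)) (l 16172408)) (l 16396768)) (l 16673864)) (l 16777216)))) (a (a (b (a (a (c (l 16023392) (l 16014280)) (l 16172408)) (l 16396768)) (a (c (a (a (l 15886640) (l 16046008)) (l 16174752))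 (b (l 16098272) (l 16098272))) (b (l 16396768) (l 16396768)))) (b (b (l 16673864) (l 16673864)) (b (l 16673864) (l 1)))) (l 1)))), by decide +kernel⟩

theorem c_pp_033 : CertFX 0 536870912 0 1230186008 1046898278 26843546 false true true .pnn 0 3 3
    ndF6q0 ndF7q3 pcF3 Cut.none Ext.none :=
  certFX0 (fam := false) (s1 := true) (s2 := true) (a := 0) (b := 3) (c := 3) (cn := .pnn) (n1 := ndF6q0) (n2 := ndF7q3) (pc := pcF3) (cut := Cut.none) (xt := Ext.none) (P1 := 0) (W1 := 536870912) (P2 := 0) (W2 := 1230186008) (P3 := 1046898278) (W3 := 26843546)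
    rfl k0_pp_033

noncomputable def f_pp_101 : ℕ → ℕ → ℕ → ℕ → Bool := onCell 536870912 469762048 536870912 536870912 1046898278 26843546
    (rowFX 0 false true true .npn 1 0 1 (qsf 536870912 469762048 536870912 536870912 0) ndF6q1 ndF7q1 pcF0 Cut.none Ext.none)

def k0_pp_101 : ∃ t, chk3 f_pp_101 t 1 1 1 = true :=
  ⟨(l 3), by decide +kernel⟩

theorem c_pp_101 : CertFX 536870912 469762048 536870912 536870912 1046898278 26843546 false true true .npn 1 0 1
    ndF6q1 ndF7q1 pcF0 Cut.none Ext.none :=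
  certFX0 (fam := false) (s1 := true) (s2 := true) (a := 1) (b := 0) (c := 1) (cn := .npn) (n1 := ndF6q1) (n2 := ndF7q1) (pc := pcF0) (cut := Cut.none) (xt := Ext.none) (P1 := 536870912) (W1 := 469762048) (P2 := 536870912) (W2 := 536870912) (P3 := 1046898278) (W3 := 26843546)
    rfl k0_pp_101

noncomputable def f_pp_102 : ℕ → ℕ → ℕ → ℕ → Bool := onCell 536870912 469762048 0 536870912 1046898278 26843546
    (rowFX 1 false true true .npp 1 0 2 (qsf 536870912 469762048 1073741824 536870912 0) ndF6q1 ndF7q2 pcF0 Cut.none Ext.none)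

def k0_pp_102 : ∃ t, chk3 f_pp_102 t 1 1 1 = true :=
  ⟨(l 3), by decide +kernel⟩

theorem c_pp_102 : CertFX 536870912 469762048 1073741824 536870912 1046898278 26843546 false true true .npp 1 0 2
    ndF6q1 ndF7q2 pcF0 Cut.none Ext.none :=
  certFX1 (fam := false) (s1 := true) (s2 := true) (a := 1) (b := 0) (c := 2) (cn := .npp) (n1 := ndF6q1) (n2 := ndF7q2) (pc := pcF0) (cut := Cut.none) (xt := Ext.none) (P1 := 536870912) (W1 := 469762048) (P2 := 1073741824) (W2 := 536870912) (P3 := 1046898278) (W3 := 26843546)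
    rfl (fun _ => rfl) k0_pp_102

noncomputable def f_pp_112 : ℕ → ℕ → ℕ → ℕ → Bool := onCell 536870912 536870912 1073741824 536870912 1046898278 26843546
    (rowFX 2 false true true .dn 1 1 2 (qsf 536870912 469762048 1073741824 536870912 1) ndF6q1 ndF7q2 pcF1 Cut.none Ext.none)

def k0_pp_112 : ∃ t, chk3 f_pp_112 t 1 1 1 = true :=
  ⟨(l 3), by decide +kernel⟩

theorem c_pp_112 : CertFX 536870912 469762048 1073741824 536870912 1046898278 26843546 false true true .dn 1 1 2
    ndF6q1 ndF7q2 pcF1 Cut.none Ext.none :=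
  certFX2 (fam := false) (s1 := true) (s2 := true) (a := 1) (b := 1) (c := 2) (cn := .dn) (n1 := ndF6q1) (n2 := ndF7q2) (pc := pcF1) (cut := Cut.none) (xt := Ext.none) (P1 := 536870912) (W1 := 469762048) (P2 := 1073741824) (W2 := 536870912) (P3 := 1046898278) (W3 := 26843546)
    rfl (fun _ => rfl) k0_pp_112

noncomputable def f_pp_113 : ℕ → ℕ → ℕ → ℕ → Bool := onCell 536870912 536870912 0 1230186008 1046898278 26843546
    (rowFX 2 false true true .nn 1 1 3 (qsf 536870912 469762048 0 1230186008 1) ndF6q1 ndF7q3 pcF1 Cut.none Ext.none)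

def k0_pp_113 : ∃ t, chk3 f_pp_113 t 1 1 1 = true :=
  ⟨(b (a (l 2) (a (l 2) (b (l 2) (a (l 2) (b (b (l 2) (a (l 2) (l 14231232))) (b (a (l 2) (l 14450000)) (c (l 14545768) (l 14298688)))))))) (a (b (l 2) (l 3)) (b (a (b (l 2) (a (b (l 2) (b (l 2) (l 3))) (b (a (a (l 2) (b (l 2) (l 14050608))) (c (b (l 14362904) (l 14666896)) (l 14501008))) (c (a (b (l 14510856) (l 14847848)) (b (l 14958256) (l 15254432))) (a (l 14576528) (l 15027080)))))) (a (b (b (a (l 2) (l 14168752)) (a (c (l 14315592) (l 14261216)) (c (l 14656736) (l 14550040)))) (b (a (c (l 14830128) (l 14768928)) (b (l 14945456) (l 15109448))) (a (b (l 15182400) (l 15394280)) (l 15506800)))) (b (b (a (l 14540032) (l 14900744)) (a (l 14890480) (l 15116936))) (a (b (a (l 15147464) (l 15279792)) (a (l 15719280) (l 15857536))) (b (l 15535464) (a (l 15932744) (l 15950384))))))) (a (b (a (l 3) (b (a (l 3) (b (l 15454744) (l 3))) (l 3))) (l 3)) (b (a (b (a (b (l 15713544) (l 16129992)) (b (l 16027400) (l 16281216))) (a (l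 3) (l 16362240))) (a (b (c (l 16133368) (l 16106488)) (l 16101912)) (c (l 15949312) (l 15937040)))) (a (l 3) (b (a (l 16080864) (l 15748432)) (l 3)))))))), by decide +kernel⟩

theorem c_pp_113 : CertFX 536870912 469762048 0 1230186008 1046898278 26843546 false true true .nn 1 1 3
    ndF6q1 ndF7q3 pcF1 Cut.none Ext.none :=
  certFX2 (fam := false) (s1 := true) (s2 := true) (a := 1) (b := 1) (c := 3) (cn := .nn) (n1 := ndF6q1) (n2 := ndF7q3) (pc := pcF1) (cut := Cut.none) (xt := Ext.none) (P1 := 536870912) (W1 := 469762048) (P2 := 0) (W2 := 1230186008) (P3 := 1046898278) (W3 := 26843546)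
    rfl (fun _ => rfl) k0_pp_113

noncomputable def f_pp_123 : ℕ → ℕ → ℕ → ℕ → Bool := onCell 1073741824 536870912 0 1230186008 1046898278 26843546
    (rowFX 2 false true true .npn 1 2 3 (qsf 536870912 469762048 0 1230186008 2) ndF6q1 ndF7q3 pcF2 Cut.none Ext.none)

def k0_pp_123 : ∃ t, chk3 f_pp_123 t 1 2 1 = true :=
  ⟨(a (a (b (a (a (l 2) (b (l 16553744) (l 16068744))) (b (a (l 16439504) (l 16303600)) (a (l 16229544) (l 16190520)))) (a (b (a (b (l 14903520) (l 14754752)) (l 15526392)) (b (a (l 14743136) (l 15396792)) (a (l 14841144) (l 15326512)))) (b (a (l 15836200) (l 15761544)) (b (l 15635776) (l 15502248))))) (b (a (b (l 16312056) (l 16129728)) (b (l 4) (l 16065384))) (a (b (a (l 15610224) (l 15843352)) (a (a (l 15229984) (l 15342800)) (l 15820288))) (b (l 16302200) (a (l 16401896) (l 16681144)))))) (b (a (b (l 4) (a (l 16411376) (l 16683096))) (l 4)) (a (b (a (l 16585896) (l 16757664)) (l 16735344)) (c (l 16769544) (l 16769344))))), by decide +kernel⟩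

def k1_pp_123 : ∃ t, chk3 f_pp_123 t 1 3 1 = true :=
  ⟨(b (a (a (b (a (b (l 15254328) (l 15480256)) (b (l 15414984) (l 15379584))) (a (b (l 15781096) (l 15935632)) (l 15315288))) (a (b (a (l 15151528) (l 15778040)) (a (l 15021952) (l 15694304))) (a (l 16285800) (l 16776736)))) (a (b (l 16770496) (l 16777216)) (b (l 16777216) (l 1)))) (a (b (b (a (b (l 15539168) (a (a (c (l 16233288) (l 16217832)) (b (l 15805552) (l 15818344))) (a (l 15434896) (l 15020032)))) (a (l 15075104) (l 16591584))) (a (a (c (a (l 16133192) (l 15892640)) (a (l 16102072) (l 15862432))) (b (a (l 15523824) (l 15164168)) (a (l 15678544) (l 15404408)))) (a (a (b (a (l 14908320) (l 15041872)) (a (l 15184480) (l 15260224))) (b (l 15640912) (l 15768160))) (l 1)))) (a (a (a (b (c (b (l 16001024) (a (l 15853840) (l 15980392))) (c (l 15926808) (l 15931616))) (c (a (l 15838800) (l 15972904)) (a (l 15687408) (l 15937584)))) (b (c (c (l 16037384) (l 16016544)) (l 15970656)) (c (a (l 16102176) (l 858488581495))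 (a (l 16074056) (l 16148032))))) (a (b (b (l 15764464) (c (l 15910312) (l 16064064))) (a (l 881037174807) (l 1))) (b (b (c (l 15703544) (l 15626232)) (c (l 15895856) (l 15676664))) (l 1)))) (a (a (a (b (b (l 15559104) (l 1)) (l 1)) (l 1)) (l 1)) (l 1)))) (l 1))), by decide +kernel⟩

theorem s2_pp_123 : ∃ t, chk3 f_pp_123 t 1 1 1 = true := ex3_b k0_pp_123 k1_pp_123

theorem c_pp_123 : CertFX 536870912 469762048 0 1230186008 1046898278 26843546 false true true .npn 1 2 3
    ndF6q1 ndF7q3 pcF2 Cut.none Ext.none :=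
  certFX2 (fam := false) (s1 := true) (s2 := true) (a := 1) (b := 2) (c := 3) (cn := .npn) (n1 := ndF6q1) (n2 := ndF7q3) (pc := pcF2) (cut := Cut.none) (xt := Ext.none) (P1 := 536870912) (W1 := 469762048) (P2 := 0) (W2 := 1230186008) (P3 := 1046898278) (W3 := 26843546)
    rfl (fun _ => rfl) s2_pp_123

noncomputable def f_pp_133 : ℕ → ℕ → ℕ → ℕ → Bool := onCell 1610612736 536870912 0 1230186008 1046898278 26843546
    (rowFX 2 false true true .dn 1 3 3 (qsf 536870912 469762048 0 1230186008 3) ndF6q1 ndF7q3 pcF3 Cut.none Ext.none)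

def k0_pp_133 : ∃ t, chk3 f_pp_133 t 1 1 1 = true :=
  ⟨(b (b (l 4) (l 1)) (l 1)), by decide +kernel⟩

theorem c_pp_133 : CertFX 536870912 469762048 0 1230186008 1046898278 26843546 false true true .dn 1 3 3
    ndF6q1 ndF7q3 pcF3 Cut.none Ext.none :=
  certFX2 (fam := false) (s1 := true) (s2 := true) (a := 1) (b := 3) (c := 3) (cn := .dn) (n1 := ndF6q1) (n2 := ndF7q3) (pc := pcF3) (cut := Cut.none) (xt := Ext.none) (P1 := 536870912) (W1 := 469762048) (P2 := 0) (W2 := 1230186008) (P3 := 1046898278) (W3 := 26843546)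
    rfl (fun _ => rfl) k0_pp_133

noncomputable def f_pp_202 : ℕ → ℕ → ℕ → ℕ → Bool := onCell 1073741824 536870912 1073741824 536870912 1046898278 26843546
    (rowFX 0 false true true .pp 2 0 2 (qsf 1073741824 536870912 1073741824 536870912 0) ndF6q2 ndF7q2 pcF0 Cut.none Ext.none)

def k0_pp_202 : ∃ t, chk3 f_pp_202 t 1 1 1 = true :=
  ⟨(l 3), by decide +kernel⟩

theorem c_pp_202 : CertFX 1073741824 536870912 1073741824 536870912 1046898278 26843546 false true true .pp 2 0 2
    ndF6q2 ndF7q2 pcF0 Cut.none Ext.none :=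
  certFX0 (fam := false) (s1 := true) (s2 := true) (a := 2) (b := 0) (c := 2) (cn := .pp) (n1 := ndF6q2) (n2 := ndF7q2) (pc := pcF0) (cut := Cut.none) (xt := Ext.none) (P1 := 1073741824) (W1 := 536870912) (P2 := 1073741824) (W2 := 536870912) (P3 := 1046898278) (W3 := 26843546)
    rfl k0_pp_202

noncomputable def f_pp_203 : ℕ → ℕ → ℕ → ℕ → Bool := onCell 0 536870912 0 1230186008 1046898278 26843546
    (rowFX 2 false true true .up 2 0 3 (qsf 1073741824 536870912 0 1230186008 0) ndF6q2 ndF7q3 pcF0 Cut.none Ext.none)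

def k0_pp_203 : ∃ t, chk3 f_pp_203 t 1 1 1 = true :=
  ⟨(b (a (l 2) (l 3)) (l 3)), by decide +kernel⟩

theorem c_pp_203 : CertFX 1073741824 536870912 0 1230186008 1046898278 26843546 false true true .up 2 0 3
    ndF6q2 ndF7q3 pcF0 Cut.none Ext.none :=
  certFX2 (fam := false) (s1 := true) (s2 := true) (a := 2) (b := 0) (c := 3) (cn := .up) (n1 := ndF6q2) (n2 := ndF7q3) (pc := pcF0) (cut := Cut.none) (xt := Ext.none) (P1 := 1073741824) (W1 := 536870912) (P2 := 0) (W2 := 1230186008) (P3 := 1046898278) (W3 := 26843546)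
    rfl (fun _ => rfl) k0_pp_203

noncomputable def f_pp_213 : ℕ → ℕ → ℕ → ℕ → Bool := onCell 536870912 536870912 0 1230186008 1046898278 26843546
    (rowFX 2 false true true .pnn 2 1 3 (qsf 1073741824 536870912 0 1230186008 1) ndF6q2 ndF7q3 pcF1 Cut.none Ext.none)

def k0_pp_213 : ∃ t, chk3 f_pp_213 t 2 2 1 = true :=
  ⟨(b (b (a (c (a (l 16717560) (l 16717560)) (a (l 16717544) (l 16717544))) (a (c (l 16717560) (l 16717544)) (b (l 16743664) (l 16694904)))) (a (l 3) (c (a (l 247665011623) (b (l 16687512) (l 16706488))) (a (l 246054393879) (b (l 16685176) (l 16704648)))))) (l 3)), by decide +kernel⟩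

def k1_pp_213 : ∃ t, chk3 f_pp_213 t 6 2 1 = true :=
  ⟨(b (a (b (b (l 16593352) (a (l 16680680) (l 16337264))) (a (b (a (l 16685976) (l 16593840)) (a (b (l 16681200) (l 16608784)) (l 16350080))) (b (l 16096600) (c (l 16040056) (l 15986904))))) (b (a (l 15811336) (b (l 15290200) (l 15319720))) (a (b (l 15499320) (a (l 15527632) (b (l 15264984) (l 15203736)))) (b (a (l 15206920) (l 15309992)) (a (l 15212016) (l 15370248)))))) (b (b (a (a (b (c (l 16263728) (l 16285416)) (l 3)) (c (b (l 15810472) (l 216524091511)) (b (l 15810656) (l 15584320)))) (a (a (b (c (l 15361384) (l 15304904)) (c (a (b (l 15322368) (l 15250600)) (b (l 15210240) (l 15218512))) (a (l 265915727399) (l 207396598295)))) (b (c (l 15230080) (l 15169824)) (c (l 15287496) (l 15245496)))) (a (c (l 15372232) (l 15324952)) (c (l 15526104) (l 15478024))))) (a (l 3) (a (b (a (a (l 3) (c (l 15270104) (l 15230952))) (c (l 199880905047) (l 15326416))) (l 3)) (a (c (b (l 15492328) (l 140288661335)) (b (l 15459560) (l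 15547368))) (c (b (a (l 15597072) (l 15672296)) (a (b (l 15654504) (l 15669608)) (l 15678440))) (b (l 15598232) (a (l 182701457383) (l 15641920)))))))) (l 3))), by decide +kernel⟩

def k2_pp_213 : ∃ t, chk3 f_pp_213 t 7 2 1 = true :=
  ⟨(b (a (b (b (l 15697848) (l 15783888)) (b (a (l 15627728) (l 15897456)) (a (a (l 15581624) (l 15751696)) (a (l 15813072) (l 15815016))))) (b (b (l 15959072) (l 16061384)) (b (l 15911608) (a (l 15767072) (l 15931880))))) (a (b (b (a (c (b (l 15736840) (l 15737272)) (b (l 15658352) (l 15673608))) (c (l 15766336) (l 15634912))) (a (c (b (l 15712368) (l 15664160)) (b (l 15650352) (l 15599352))) (c (a (l 15628520) (l 15534632)) (l 15323136)))) (b (a (c (b (l 207397229127) (l 118813341399)) (b (l 246051846663) (l 15475920))) (c (b (a (l 15481616) (l 15348544)) (a (l 15374664) (l 15258680))) (a (l 159614977095) (l 665749684039)))) (a (l 3) (a (l 3) (l 1))))) (a (a (b (b (b (l 15636160) (l 15503392)) (c (l 15199008) (l 15167224))) (b (c (b (l 15262104)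 (l 1)) (l 659306914823)) (l 1))) (b (b (c (a (l 15619696) (l 15610744)) (l 15571384)) (c (a (l 15372192) (l 1)) (l 791915373703))) (l 1))) (b (b (l 2685996246231) (l 1)) (l 1))))), by decide +kernel⟩

def k3_pp_213 : ∃ t, chk3 f_pp_213 t 1 3 1 = true :=
  ⟨(a (l 3) (a (l 3) (a (l 3) (l 1)))), by decide +kernel⟩

theorem s4_pp_213 : ∃ t, chk3 f_pp_213 t 3 2 1 = true := ex3_a k1_pp_213 k2_pp_213

theorem s5_pp_213 : ∃ t, chk3 f_pp_213 t 1 2 1 = true := ex3_a k0_pp_213 s4_pp_213

theorem s6_pp_213 : ∃ t, chk3 f_pp_213 t 1 1 1 = true := ex3_b s5_pp_213 k3_pp_213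

theorem c_pp_213 : CertFX 1073741824 536870912 0 1230186008 1046898278 26843546 false true true .pnn 2 1 3
    ndF6q2 ndF7q3 pcF1 Cut.none Ext.none :=
  certFX2 (fam := false) (s1 := true) (s2 := true) (a := 2) (b := 1) (c := 3) (cn := .pnn) (n1 := ndF6q2) (n2 := ndF7q3) (pc := pcF1) (cut := Cut.none) (xt := Ext.none) (P1 := 1073741824) (W1 := 536870912) (P2 := 0) (W2 := 1230186008) (P3 := 1046898278) (W3 := 26843546)
    rfl (fun _ => rfl) s6_pp_213

noncomputable def f_pp_303 : ℕ → ℕ → ℕ → ℕ → Bool := onCell 0 1230186008 0 1230186008 1046898278 26843546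
    (rowFX 0 false true true .npn 3 0 3 (qsf 0 1230186008 0 1230186008 0) ndF6q3 ndF7q3 pcF0 Cut.none Ext.none)

def k0_pp_303 : ∃ t, chk3 f_pp_303 t 1 1 1 = true :=
  ⟨(a (b (l 3) (l 5)) (b (a (l 3) (l 3)) (l 3))), by decide +kernel⟩

theorem c_pp_303 : CertFX 0 1230186008 0 1230186008 1046898278 26843546 false true true .npn 3 0 3
    ndF6q3 ndF7q3 pcF0 Cut.none Ext.none :=
  certFX0 (fam := false) (s1 := true) (s2 := true) (a := 3) (b := 0) (c := 3) (cn := .npn) (n1 := ndF6q3) (n2 := ndF7q3) (pc := pcF0) (cut := Cut.none) (xt := Ext.none) (P1 := 0) (W1 := 1230186008) (P2 := 0) (W2 := 1230186008) (P3 := 1046898278) (W3 := 26843546)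
    rfl k0_pp_303

noncomputable def f_pp_313 : ℕ → ℕ → ℕ → ℕ → Bool := onCell 0 1230186008 0 1230186008 1046898278 26843546
    (rowFX 0 false true true .dn 3 1 3 (qsf 0 1230186008 0 1230186008 1) ndF6q3 ndF7q3 pcF1 Cut.none Ext.none)

def k0_pp_313 : ∃ t, chk3 f_pp_313 t 1 1 1 = true :=
  ⟨(a (l 1) (b (a (l 1) (l 3)) (l 1))), by decide +kernel⟩

theorem c_pp_313 : CertFX 0 1230186008 0 1230186008 1046898278 26843546 false true true .dn 3 1 3
    ndF6q3 ndF7q3 pcF1 Cut.none Ext.none :=
  certFX0 (fam := false) (s1 := true) (s2 := true) (a := 3) (b := 1) (c := 3) (cn := .dn) (n1 := ndF6q3) (n2 := ndF7q3) (pc := pcF1) (cut := Cut.none) (xt := Ext.none) (P1 := 0) (W1 := 1230186008) (P2 := 0) (W2 := 1230186008) (P3 := 1046898278) (W3 := 26843546)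
    rfl k0_pp_313

noncomputable def f_pm_001 : ℕ → ℕ → ℕ → ℕ → Bool := onCell 0 536870912 536870912 536870912 1046898278 26843546
    (rowFX 0 false true false .up 0 0 1 (qsf 0 536870912 536870912 536870912 0) ndF6q0 ndF7q1 pcF0 Cut.none Ext.none)

def k0_pm_001 : ∃ t, chk3 f_pm_001 t 1 1 1 = true :=
  ⟨(l 4), by decide +kernel⟩

theorem c_pm_001 : CertFX 0 536870912 536870912 536870912 1046898278 26843546 false true false .up 0 0 1
    ndF6q0 ndF7q1 pcF0 Cut.none Ext.none :=
  certFX0 (fam := false) (s1 := true) (s2 := false) (a := 0) (b := 0) (c := 1) (cn := .up) (n1 := ndF6q0) (n2 := ndF7q1) (pc := pcF0) (cut := Cut.none) (xt := Ext.none) (P1 := 0) (W1 := 536870912) (P2 := 536870912) (W2 := 536870912) (P3 := 1046898278) (W3 := 26843546)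
    rfl k0_pm_001

noncomputable def f_pm_011 : ℕ → ℕ → ℕ → ℕ → Bool := onCell 0 536870912 536870912 536870912 1046898278 26843546
    (rowFX 0 false true false .pnn 0 1 1 (qsf 0 536870912 536870912 536870912 1) ndF6q0 ndF7q1 pcF1 Cut.none Ext.none)

def k0_pm_011 : ∃ t, chk3 f_pm_011 t 1 1 1 = true :=
  ⟨(l 4), by decide +kernel⟩

theorem c_pm_011 : CertFX 0 536870912 536870912 536870912 1046898278 26843546 false true false .pnn 0 1 1
    ndF6q0 ndF7q1 pcF1 Cut.none Ext.none :=
  certFX0 (fam := false) (s1 := true) (s2 := false) (a := 0) (b := 1) (c := 1) (cn := .pnn) (n1 := ndF6q0) (n2 := ndF7q1) (pc := pcF1) (cut := Cut.none) (xt := Ext.none) (P1 := 0) (W1 := 536870912) (P2 := 536870912) (W2 := 536870912) (P3 := 1046898278) (W3 := 26843546)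
    rfl k0_pm_011

noncomputable def f_pm_012 : ℕ → ℕ → ℕ → ℕ → Bool := onCell 0 536870912 1073741824 536870912 1046898278 26843546
    (rowFX 0 false true false .pnp 0 1 2 (qsf 0 536870912 1073741824 536870912 1) ndF6q0 ndF7q2 pcF1 Cut.none Ext.none)

def k0_pm_012 : ∃ t, chk3 f_pm_012 t 1 1 1 = true :=
  ⟨(l 4), by decide +kernel⟩

theorem c_pm_012 : CertFX 0 536870912 1073741824 536870912 1046898278 26843546 false true false .pnp 0 1 2
    ndF6q0 ndF7q2 pcF1 Cut.none Ext.none :=
  certFX0 (fam := false) (s1 := true) (s2 := false) (a := 0) (b := 1) (c := 2) (cn := .pnp) (n1 := ndF6q0) (n2 := ndF7q2) (pc := pcF1) (cut := Cut.none) (xt := Ext.none) (P1 := 0) (W1 := 536870912) (P2 := 1073741824) (W2 := 536870912) (P3 := 1046898278) (W3 := 26843546)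
    rfl k0_pm_012

noncomputable def f_pm_022 : ℕ → ℕ → ℕ → ℕ → Bool := onCell 0 536870912 1073741824 536870912 1046898278 26843546
    (rowFX 0 false true false .pp 0 2 2 (qsf 0 536870912 1073741824 536870912 2) ndF6q0 ndF7q2 pcF2 Cut.none Ext.none)

def k0_pm_022 : ∃ t, chk3 f_pm_022 t 1 1 1 = true :=
  ⟨(l 4), by decide +kernel⟩

theorem c_pm_022 : CertFX 0 536870912 1073741824 536870912 1046898278 26843546 false true false .pp 0 2 2
    ndF6q0 ndF7q2 pcF2 Cut.none Ext.none :=
  certFX0 (fam := false) (s1 := true) (s2 := false) (a := 0) (b := 2) (c := 2) (cn := .pp) (n1 := ndF6q0) (n2 := ndF7q2) (pc := pcF2) (cut := Cut.none) (xt := Ext.none) (P1 := 0) (W1 := 536870912) (P2 := 1073741824) (W2 := 536870912) (P3 := 1046898278) (W3 := 26843546)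
    rfl k0_pm_022

noncomputable def f_pm_023 : ℕ → ℕ → ℕ → ℕ → Bool := onCell 0 536870912 0 1230186008 1046898278 26843546
    (rowFX 0 false true false .up 0 2 3 (qsf 0 536870912 0 1230186008 2) ndF6q0 ndF7q3 pcF2 Cut.none Ext.none)

def k0_pm_023 : ∃ t, chk3 f_pm_023 t 1 1 1 = true :=
  ⟨(l 4), by decide +kernel⟩

theorem c_pm_023 : CertFX 0 536870912 0 1230186008 1046898278 26843546 false true false .up 0 2 3
    ndF6q0 ndF7q3 pcF2 Cut.none Ext.none :=
  certFX0 (fam := false) (s1 := true) (s2 := false) (a := 0) (b := 2) (c := 3) (cn := .up) (n1 := ndF6q0) (n2 := ndF7q3) (pc := pcF2) (cut := Cut.none) (xt := Ext.none) (P1 := 0) (W1 := 536870912) (P2 := 0) (W2 := 1230186008) (P3 := 1046898278) (W3 := 26843546)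
    rfl k0_pm_023

noncomputable def f_pm_033 : ℕ → ℕ → ℕ → ℕ → Bool := onCell 0 536870912 0 1230186008 1046898278 26843546
    (rowFX 0 false true false .pnn 0 3 3 (qsf 0 536870912 0 1230186008 3) ndF6q0 ndF7q3 pcF3 Cut.none Ext.none)

def k0_pm_033 : ∃ t, chk3 f_pm_033 t 1 1 1 = true :=
  ⟨(l 4), by decide +kernel⟩

theorem c_pm_033 : CertFX 0 536870912 0 1230186008 1046898278 26843546 false true false .pnn 0 3 3
    ndF6q0 ndF7q3 pcF3 Cut.none Ext.none :=
  certFX0 (fam := false) (s1 := true) (s2 := false) (a := 0) (b := 3) (c := 3) (cn := .pnn) (n1 := ndF6q0) (n2 := ndF7q3) (pc := pcF3) (cut := Cut.none) (xt := Ext.none) (P1 := 0) (W1 := 536870912) (P2 := 0) (W2 := 1230186008) (P3 := 1046898278) (W3 := 26843546)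
    rfl k0_pm_033

noncomputable def f_pm_101 : ℕ → ℕ → ℕ → ℕ → Bool := onCell 536870912 469762048 536870912 536870912 1046898278 26843546
    (rowFX 0 false true false .npn 1 0 1 (qsf 536870912 469762048 536870912 536870912 0) ndF6q1 ndF7q1 pcF0 Cut.none Ext.none)

def k0_pm_101 : ∃ t, chk3 f_pm_101 t 1 1 1 = true :=
  ⟨(l 4), by decide +kernel⟩

theorem c_pm_101 : CertFX 536870912 469762048 536870912 536870912 1046898278 26843546 false true false .npn 1 0 1
    ndF6q1 ndF7q1 pcF0 Cut.none Ext.none :=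
  certFX0 (fam := false) (s1 := true) (s2 := false) (a := 1) (b := 0) (c := 1) (cn := .npn) (n1 := ndF6q1) (n2 := ndF7q1) (pc := pcF0) (cut := Cut.none) (xt := Ext.none) (P1 := 536870912) (W1 := 469762048) (P2 := 536870912) (W2 := 536870912) (P3 := 1046898278) (W3 := 26843546)
    rfl k0_pm_101

noncomputable def f_pm_102 : ℕ → ℕ → ℕ → ℕ → Bool := onCell 536870912 469762048 1073741824 536870912 1046898278 26843546
    (rowFX 0 false true false .npp 1 0 2 (qsf 536870912 469762048 1073741824 536870912 0) ndF6q1 ndF7q2 pcF0 Cut.none Ext.none)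

def k0_pm_102 : ∃ t, chk3 f_pm_102 t 1 1 1 = true :=
  ⟨(l 4), by decide +kernel⟩

theorem c_pm_102 : CertFX 536870912 469762048 1073741824 536870912 1046898278 26843546 false true false .npp 1 0 2
    ndF6q1 ndF7q2 pcF0 Cut.none Ext.none :=
  certFX0 (fam := false) (s1 := true) (s2 := false) (a := 1) (b := 0) (c := 2) (cn := .npp) (n1 := ndF6q1) (n2 := ndF7q2) (pc := pcF0) (cut := Cut.none) (xt := Ext.none) (P1 := 536870912) (W1 := 469762048) (P2 := 1073741824) (W2 := 536870912) (P3 := 1046898278) (W3 := 26843546)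
    rfl k0_pm_102

noncomputable def f_pm_112 : ℕ → ℕ → ℕ → ℕ → Bool := onCell 536870912 469762048 1073741824 536870912 1046898278 26843546
    (rowFX 0 false true false .dn 1 1 2 (qsf 536870912 469762048 1073741824 536870912 1) ndF6q1 ndF7q2 pcF1 Cut.none Ext.none)

def k0_pm_112 : ∃ t, chk3 f_pm_112 t 1 1 1 = true :=
  ⟨(l 4), by decide +kernel⟩

theorem c_pm_112 : CertFX 536870912 469762048 1073741824 536870912 1046898278 26843546 false true false .dn 1 1 2
    ndF6q1 ndF7q2 pcF1 Cut.none Ext.none :=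
  certFX0 (fam := false) (s1 := true) (s2 := false) (a := 1) (b := 1) (c := 2) (cn := .dn) (n1 := ndF6q1) (n2 := ndF7q2) (pc := pcF1) (cut := Cut.none) (xt := Ext.none) (P1 := 536870912) (W1 := 469762048) (P2 := 1073741824) (W2 := 536870912) (P3 := 1046898278) (W3 := 26843546)
    rfl k0_pm_112

noncomputable def f_pm_113 : ℕ → ℕ → ℕ → ℕ → Bool := onCell 536870912 469762048 0 1230186008 1046898278 26843546
    (rowFX 0 false true false .nn 1 1 3 (qsf 536870912 469762048 0 1230186008 1) ndF6q1 ndF7q3 pcF1 Cut.none Ext.none)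

def k0_pm_113 : ∃ t, chk3 f_pm_113 t 1 1 1 = true :=
  ⟨(b (a (l 2) (l 4)) (l 4)), by decide +kernel⟩

theorem c_pm_113 : CertFX 536870912 469762048 0 1230186008 1046898278 26843546 false true false .nn 1 1 3
    ndF6q1 ndF7q3 pcF1 Cut.none Ext.none :=
  certFX0 (fam := false) (s1 := true) (s2 := false) (a := 1) (b := 1) (c := 3) (cn := .nn) (n1 := ndF6q1) (n2 := ndF7q3) (pc := pcF1) (cut := Cut.none) (xt := Ext.none) (P1 := 536870912) (W1 := 469762048) (P2 := 0) (W2 := 1230186008) (P3 := 1046898278) (W3 := 26843546)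
    rfl k0_pm_113

noncomputable def f_pm_123 : ℕ → ℕ → ℕ → ℕ → Bool := onCell 536870912 469762048 0 1230186008 1046898278 26843546
    (rowFX 0 false true false .npn 1 2 3 (qsf 536870912 469762048 0 1230186008 2) ndF6q1 ndF7q3 pcF2 Cut.none Ext.none)

def k0_pm_123 : ∃ t, chk3 f_pm_123 t 1 1 1 = true :=
  ⟨(b (a (l 4) (l 4)) (l 4)), by decide +kernel⟩

theorem c_pm_123 : CertFX 536870912 469762048 0 1230186008 1046898278 26843546 false true false .npn 1 2 3
    ndF6q1 ndF7q3 pcF2 Cut.none Ext.none :=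
  certFX0 (fam := false) (s1 := true) (s2 := false) (a := 1) (b := 2) (c := 3) (cn := .npn) (n1 := ndF6q1) (n2 := ndF7q3) (pc := pcF2) (cut := Cut.none) (xt := Ext.none) (P1 := 536870912) (W1 := 469762048) (P2 := 0) (W2 := 1230186008) (P3 := 1046898278) (W3 := 26843546)
    rfl k0_pm_123

noncomputable def f_pm_133 : ℕ → ℕ → ℕ → ℕ → Bool := onCell 1610612736 536870912 0 1230186008 1046898278 26843546
    (rowFX 2 false true false .dn 1 3 3 (qsf 536870912 469762048 0 1230186008 3) ndF6q1 ndF7q3 pcF3 Cut.none Ext.none)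

def k0_pm_133 : ∃ t, chk3 f_pm_133 t 1 1 1 = true :=
  ⟨(b (l 4) (l 1)), by decide +kernel⟩

theorem c_pm_133 : CertFX 536870912 469762048 0 1230186008 1046898278 26843546 false true false .dn 1 3 3
    ndF6q1 ndF7q3 pcF3 Cut.none Ext.none :=
  certFX2 (fam := false) (s1 := true) (s2 := false) (a := 1) (b := 3) (c := 3) (cn := .dn) (n1 := ndF6q1) (n2 := ndF7q3) (pc := pcF3) (cut := Cut.none) (xt := Ext.none) (P1 := 536870912) (W1 := 469762048) (P2 := 0) (W2 := 1230186008) (P3 := 1046898278) (W3 := 26843546)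
    rfl (fun _ => rfl) k0_pm_133

noncomputable def f_pm_202 : ℕ → ℕ → ℕ → ℕ → Bool := onCell 1073741824 536870912 1073741824 536870912 1046898278 26843546
    (rowFX 0 false true false .pp 2 0 2 (qsf 1073741824 536870912 1073741824 536870912 0) ndF6q2 ndF7q2 pcF0 Cut.none Ext.none)

def k0_pm_202 : ∃ t, chk3 f_pm_202 t 1 1 1 = true :=
  ⟨(l 4), by decide +kernel⟩

theorem c_pm_202 : CertFX 1073741824 536870912 1073741824 536870912 1046898278 26843546 false true false .pp 2 0 2
    ndF6q2 ndF7q2 pcF0 Cut.none Ext.none :=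
  certFX0 (fam := false) (s1 := true) (s2 := false) (a := 2) (b := 0) (c := 2) (cn := .pp) (n1 := ndF6q2) (n2 := ndF7q2) (pc := pcF0) (cut := Cut.none) (xt := Ext.none) (P1 := 1073741824) (W1 := 536870912) (P2 := 1073741824) (W2 := 536870912) (P3 := 1046898278) (W3 := 26843546)
    rfl k0_pm_202

noncomputable def f_pm_203 : ℕ → ℕ → ℕ → ℕ → Bool := onCell 1073741824 536870912 0 1230186008 1046898278 26843546
    (rowFX 0 false true false .up 2 0 3 (qsf 1073741824 536870912 0 1230186008 0) ndF6q2 ndF7q3 pcF0 Cut.none Ext.none)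

def k0_pm_203 : ∃ t, chk3 f_pm_203 t 1 1 1 = true :=
  ⟨(a (b (l 2) (b (b (l 2) (l 4)) (l 4))) (a (b (l 2) (b (c (l 16777216) (l 16777216)) (l 4))) (b (b (a (l 2) (a (l 2) (b (l 16717832) (l 16692088)))) (b (l 16764032) (l 16777216))) (b (b (l 16777216) (l 16777216)) (b (c (l 84524056183) (l 77007861815)) (l 4)))))), by decide +kernel⟩

theorem c_pm_203 : CertFX 1073741824 536870912 0 1230186008 1046898278 26843546 false true false .up 2 0 3
    ndF6q2 ndF7q3 pcF0 Cut.none Ext.none :=
  certFX0 (fam := false) (s1 := true) (s2 := false) (a := 2) (b := 0) (c := 3) (cn := .up) (n1 := ndF6q2) (n2 := ndF7q3) (pc := pcF0) (cut := Cut.none) (xt := Ext.none) (P1 := 1073741824) (W1 := 536870912) (P2 := 0) (W2 := 1230186008) (P3 := 1046898278) (W3 := 26843546)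
    rfl k0_pm_203

noncomputable def f_pm_213 : ℕ → ℕ → ℕ → ℕ → Bool := onCell 1073741824 536870912 0 1230186008 1046898278 26843546
    (rowFX 0 false true false .pnn 2 1 3 (qsf 1073741824 536870912 0 1230186008 1) ndF6q2 ndF7q3 pcF1 Cut.none Ext.none)

def k0_pm_213 : ∃ t, chk3 f_pm_213 t 1 1 1 = true :=
  ⟨(b (a (b (a (b (a (b (a (l 16002136) (l 15886184)) (l 16117360)) (b (l 15621304) (l 15624600))) (a (a (l 15825544) (l 16242592)) (a (l 16084112) (l 15549952)))) (b (a (a (l 15221568) (l 15782744)) (l 16566208)) (a (a (l 15249592) (l 15790960)) (l 16547520)))) (a (a (b (b (l 15789904) (b (l 15503992) (a (c (b (l 15203328) (a (l 14795544) (l 15250104))) (b (l 14765064) (l 14637088))) (b (l 15648120) (a (l 15485032) (l 15678824)))))) (b (c (a (a (l 14408448) (l 15043416)) (a (l 15369528) (l 15593600))) (b (a (l 14490600) (l 15367896)) (l 14859128))) (l 4))) (b (b (l 15723688) (b (l 15620144) (a (b (l 15729744) (a (l 15744856) (l 15659416))) (l 15415552)))) (b (a (a (b (l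 15745336) (l 15633152)) (b (b (l 15715728) (l 15759240)) (l 15708280))) (b (b (l 15427472) (l 15520856)) (l 15545072))) (a (l 15573736) (b (l 15515576) (l 15455008)))))) (b (a (a (l 15291056) (l 15857624)) (l 16628744)) (a (b (a (b (l 15282648) (b (l 15305800) (l 15317856))) (l 15850704)) (a (a (l 15311952) (l 15395120)) (l 15896096))) (b (l 16626968) (a (l 16502104) (l 16743440))))))) (b (b (a (a (l 16717832) (b (l 16743664) (l 16694904))) (c (a (l 16717560) (l 16717560)) (a (l 16717544) (l 16717544)))) (a (l 16692088) (a (l 16692088) (b (l 16686344) (l 16705568))))) (b (a (l 16764032) (l 16764032)) (a (b (l 16777216) (a (l 16776208) (l 16777216))) (l 16777216))))) (b (a (a (l 4) (b (a (b (l 15612640) (l 4)) (b (l 16646920) (l 16630368))) (l 4))) (b (a (l 16776208) (l 16777216)) (c (l 16777216) (l 16777216)))) (a (l 4) (l 1)))), by decide +kernel⟩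

theorem c_pm_213 : CertFX 1073741824 536870912 0 1230186008 1046898278 26843546 false true false .pnn 2 1 3
    ndF6q2 ndF7q3 pcF1 Cut.none Ext.none :=
  certFX0 (fam := false) (s1 := true) (s2 := false) (a := 2) (b := 1) (c := 3) (cn := .pnn) (n1 := ndF6q2) (n2 := ndF7q3) (pc := pcF1) (cut := Cut.none) (xt := Ext.none) (P1 := 1073741824) (W1 := 536870912) (P2 := 0) (W2 := 1230186008) (P3 := 1046898278) (W3 := 26843546)
    rfl k0_pm_213

noncomputable def f_pm_303 : ℕ → ℕ → ℕ → ℕ → Bool := onCell 0 1230186008 0 1230186008 1046898278 26843546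
    (rowFX 0 false true false .npn 3 0 3 (qsf 0 1230186008 0 1230186008 0) ndF6q3 ndF7q3 pcF0 Cut.none Ext.none)

def k0_pm_303 : ∃ t, chk3 f_pm_303 t 2 1 1 = true :=
  ⟨(b (l 3) (a (l 1) (b (b (b (b (b (l 3) (l 1)) (l 1)) (l 1)) (l 1)) (l 1)))), by decide +kernel⟩

def k1_pm_303 : ∃ t, chk3 f_pm_303 t 6 2 1 = true :=
  ⟨(b (l 3) (a (b (l 3) (a (b (l 3) (b (l 3) (b (a (l 3) (c (c (l 15023120) (l 411407399559)) (l 393153499703))) (c (a (l 14661960) (c (l 14984560) (a (l 14922952) (l 15019680)))) (a (a (l 3) (c (l 397448664503) (l 14830064))) (c (l 369530948551) (l 14965992))))))) (a (b (l 3) (c (b (c (b (l 403354734583) (a (l 15219968) (l 375437582951))) (l 384027367847)) (c (b (l 15201344) (l 15166248)) (b (l 15221632) (l 15167728)))) (b (l 373289781047) (b (l 15197240) (l 15155464))))) (b (b (l 3) (c (l 401744785943) (l 389396627159))) (c (b (a (b (l 15470424) (l 15420344)) (l 15579504)) (c (a (l 15390320) (l 15500160)) (l 15432728))) (b (a (l 15432792) (l 15548208)) (l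 15406696))))))) (b (a (b (l 3) (a (l 3) (c (l 462948978711) (l 449527103127)))) (b (b (l 3) (c (l 454359684647) (l 461338991111))) (a (c (l 326584010951) (l 319067798119)) (c (b (l 16615104) (l 16549096)) (l 305109570727))))) (a (b (c (a (b (l 419998923559) (b (l 15854576) (l 15821296))) (b (l 16087216) (l 16021672))) (a (b (l 410871989943) (b (l 15830608) (l 15796464))) (b (l 16006928) (l 16002040)))) (c (a (b (b (l 15773960) (l 15781376)) (l 15681832)) (b (l 15990504) (l 15939096))) (b (a (b (l 15747880) (l 15755464)) (l 15970064)) (b (l 15743032) (l 15709744))))) (b (b (a (l 16260344) (l 16463904)) (a (l 16193136) (l 16399296))) (b (a (l 16139968) (l 16324232)) (b (l 16195024) (l 16178696)))))))), by decide +kernel⟩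

def k2_pm_303 : ∃ t, chk3 f_pm_303 t 7 2 1 = true :=
  ⟨(b (a (b (l 3) (a (l 3) (c (l 253570591655) (l 257328683351)))) (c (b (a (l 470466599303) (l 16717560)) (a (l 234780114007) (l 16693184))) (b (a (l 499994505319) (l 16717544)) (a (l 236927593607) (l 16691000))))) (a (b (a (a (b (c (l 282024556999) (l 293835714871)) (a (c (l 16719928) (l 16613576)) (b (l 16776160) (l 16763048)))) (c (b (l 16753616) (l 16775960)) (b (l 16753008) (l 16775928)))) (b (c (l 16753616) (l 16753008)) (l 16777216))) (a (b (a (b (l 16675056) (l 16594880)) (b (l 16773704) (l 16746184))) (b (l 16604264) (l 16533584))) (b (l 16777216) (a (b (l 16774832) (l 16749280)) (l 16777216))))) (b (a (b (l 16753312) (l 16777216)) (l 16764032)) (b (l 16777216) (l 16777216))))), by decide +kernel⟩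

def k3_pm_303 : ∃ t, chk3 f_pm_303 t 12 24 1 = true :=
  ⟨(a (b (a (c (b (b (l 14794320) (b (l 14775744) (l 14765472))) (a (b (l 14721680) (l 1)) (l 14771384))) (b (b (c (l 14766304) (a (l 3) (l 14785800))) (a (a (l 3) (c (l 14718568) (b (l 3) (l 14689320)))) (c (b (l 14769576) (a (l 14739456) (l 14782000))) (a (c (l 14729816) (l 14724784)) (l 14767552))))) (b (a (a (l 1) (l 14663048)) (c (a (l 14726864) (l 14784312)) (b (a (l 14712936) (l 14756120)) (l 14735984)))) (c (l 1398040772839) (l 1375492168519))))) (c (b (b (a (l 14886120) (l 14979480)) (a (c (l 14861528) (l 14851224)) (l 14966496))) (a (a (c (l 14874472) (l 14845744)) (b (c (l 14902992) (l 14901376)) (l 14884824))) (c (b (l 14957408) (a (l 14971968) (l 14988256))) (b (l 14943744) (l 14938152))))) (b (c (a (l 14852344) (l 14964464)) (l 14900672)) (a (c (b (a (l 14829144) (l 14863344)) (l 14848840)) (b (l 14838256) (l 14834848))) (c (l 14935224) (l 14937040)))))) (a (c (b (l 1505415432695) (l 1)) (l 1431326707959))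 (c (b (a (l 14811984) (c (l 14944296) (l 14952464))) (l 14849312)) (b (a (b (a (l 14812920) (l 14874224)) (l 1380324471799)) (c (b (l 14941352) (l 14938320)) (b (l 14930536) (l 14925160)))) (a (l 14762928) (b (a (l 14903560) (l 14964128)) (l 1343817201623))))))) (a (b (c (b (l 15144808) (c (l 15091352) (l 15091624))) (b (l 15136240) (l 15097592))) (c (b (a (c (l 15054648) (l 15041424)) (l 15111800)) (a (b (l 15057400) (l 15052496)) (b (l 15134680) (l 15139720)))) (b (l 15083440) (a (c (b (l 15030656) (l 15027816)) (b (l 15020424) (l 15015464))) (l 15095960))))) (c (b (b (l 15382136) (l 15333704)) (b (l 15292040) (a (l 15202240) (l 15322872)))) (b (l 15070136) (l 15300864))))), by decide +kernel⟩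

def k4_pm_303 : ∃ t, chk3 f_pm_303 t 12 25 1 = true :=
  ⟨(a (b (b (a (l 1) (c (l 14782440) (l 14775856))) (l 1)) (l 1)) (b (a (a (b (b (c (l 15036424) (c (l 15020072) (a (l 14985112) (l 15035752)))) (l 15010080)) (l 14946728)) (b (b (b (c (l 15146344) (l 15105264)) (l 15147080)) (l 15139176)) (l 15114992))) (b (b (c (b (l 15250272) (l 15256256)) (l 15259024)) (l 15252072)) (c (l 15266696) (l 15247080)))) (a (l 14946992) (b (c (l 15252120) (a (l 15185264) (l 15284992))) (c (l 15216296) (a (l 15137336) (l 15276688))))))), by decide +kernel⟩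

def k5_pm_303 : ∃ t, chk3 f_pm_303 t 12 13 1 = true :=
  ⟨(b (a (l 1) (b (l 1156449449879) (l 1))) (l 1)), by decide +kernel⟩

def k6_pm_303 : ∃ t, chk3 f_pm_303 t 13 6 1 = true :=
  ⟨(b (b (a (c (b (a (b (l 15629768) (l 15581400)) (l 15858344)) (a (b (l 15552072) (l 15512752)) (l 15767064))) (b (b (l 15696656) (l 15685832)) (a (l 15524976) (l 15749608)))) (a (b (l 16037832) (l 15969232)) (b (l 16203040) (l 16151224)))) (a (b (c (l 15376752) (l 15570440)) (a (c (b (l 15448808) (l 15442056)) (b (l 15435832) (l 15425160))) (c (l 15621256) (l 15635096)))) (b (l 16006304) (l 15948832)))) (b (a (b (a (b (c (l 15431400) (a (l 15368240) (l 15464080))) (c (l 15401432) (a (l 15327168) (l 15459904)))) (c (b (l 15621168) (l 15616856)) (b (l 15609760) (l 15539536)))) (a (l 15340488) (b (c (l 15610720) (a (l 15551672) (l 15642864))) (a (l 15516064) (c (l 15652936) (l 15643536)))))) (b (c (a (l 15789288) (l 16007304)) (l 15897368)) (a (c (b (l 15791848) (a (l 15752632) (l 15831408)))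 (c (l 15782624) (l 15777728))) (c (l 15963728) (l 15960664))))) (a (b (c (l 15421208) (l 15417800)) (l 1)) (b (a (b (a (c (l 15743936) (l 15735496)) (c (l 15840056) (l 15821240))) (a (l 15709472) (c (l 15835024) (l 15827528)))) (c (b (l 15960576) (a (l 15927360) (l 16001472))) (c (l 15954760) (l 15950712)))) (a (c (l 15748160) (l 15745104)) (b (a (b (l 15746200) (l 15927688)) (c (l 16012472) (l 15997016))) (l 15966392))))))), by decide +kernel⟩

def k7_pm_303 : ∃ t, chk3 f_pm_303 t 6 7 1 = true :=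
  ⟨(a (l 1) (b (a (l 1) (b (b (l 15851568) (l 1)) (l 1))) (l 1))), by decide +kernel⟩

def k8_pm_303 : ∃ t, chk3 f_pm_303 t 7 3 1 = true :=
  ⟨(b (a (b (b (a (a (l 16334288) (l 16499376)) (a (l 16659680) (l 16754360))) (a (l 16323776) (l 16600736))) (a (b (b (l 16271280) (l 16229608)) (b (c (a (l 16131864) (l 16296216)) (l 16212400)) (a (b (c (l 16122232) (l 16115304)) (l 16125736)) (l 16275152)))) (b (l 16534984) (b (l 16481848) (l 16479728))))) (b (b (l 16777216) (a (l 16759608) (l 16777216))) (a (b (l 16701040) (l 16672208)) (b (l 16776984) (l 16764744))))) (a (b (b (a (b (a (b (l 16142792) (l 16155720)) (c (l 16295720) (l 16291616))) (a (l 16163000) (b (c (l 16326824) (l 16321320)) (l 16345600)))) (a (b (l 16425200) (b (l 16448944) (l 16473000))) (l 16553240))) (a (b (l 16300704) (l 1)) (b (a (b (a (l 16475248) (l 16531208)) (l 16536832)) (c (l 16624696) (l 16623504))) (a (l 16594656) (b (a (l 16659208) (l 16704584)) (a (l 16704160) (l 16748592))))))) (a (l 1) (b (b (a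 (l 1) (l 16761576)) (l 1)) (l 1)))) (b (a (b (b (l 16674656) (l 16697944)) (b (l 16732736) (a (b (l 16754768) (a (l 16771664) (l 4))) (l 16777032)))) (b (l 16763096) (b (l 16776168) (l 4)))) (b (l 4) (l 4))))), by decide +kernel⟩

theorem s9_pm_303 : ∃ t, chk3 f_pm_303 t 12 12 1 = true := ex3_b k3_pm_303 k4_pm_303

theorem s10_pm_303 : ∃ t, chk3 f_pm_303 t 12 6 1 = true := ex3_b s9_pm_303 k5_pm_303

theorem s11_pm_303 : ∃ t, chk3 f_pm_303 t 6 6 1 = true := ex3_a s10_pm_303 k6_pm_303

theorem s12_pm_303 : ∃ t, chk3 f_pm_303 t 6 3 1 = true := ex3_b s11_pm_303 k7_pm_303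

theorem s13_pm_303 : ∃ t, chk3 f_pm_303 t 3 3 1 = true := ex3_a s12_pm_303 k8_pm_303

theorem s14_pm_303 : ∃ t, chk3 f_pm_303 t 3 2 1 = true := ex3_a k1_pm_303 k2_pm_303

theorem s15_pm_303 : ∃ t, chk3 f_pm_303 t 3 1 1 = true := ex3_b s14_pm_303 s13_pm_303

theorem s16_pm_303 : ∃ t, chk3 f_pm_303 t 1 1 1 = true := ex3_a k0_pm_303 s15_pm_303

theorem c_pm_303 : CertFX 0 1230186008 0 1230186008 1046898278 26843546 false true false .npn 3 0 3
    ndF6q3 ndF7q3 pcF0 Cut.none Ext.none :=
  certFX0 (fam := false) (s1 := true) (s2 := false) (a := 3) (b := 0) (c := 3) (cn := .npn) (n1 := ndF6q3) (n2 := ndF7q3) (pc := pcF0) (cut := Cut.none) (xt := Ext.none) (P1 := 0) (W1 := 1230186008) (P2 := 0) (W2 := 1230186008) (P3 := 1046898278) (W3 := 26843546)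
    rfl s16_pm_303

noncomputable def f_pm_313 : ℕ → ℕ → ℕ → ℕ → Bool := onCell 0 1230186008 0 1230186008 1046898278 26843546
    (rowFX 0 false true false .dn 3 1 3 (qsf 0 1230186008 0 1230186008 1) ndF6q3 ndF7q3 pcF1 Cut.none Ext.none)

def k0_pm_313 : ∃ t, chk3 f_pm_313 t 1 1 1 = true :=
  ⟨(a (l 1) (b (a (l 1) (b (a (l 1) (a (l 1) (a (l 1) (b (l 211694829799) (l 1))))) (l 1))) (l 1))), by decide +kernel⟩

theorem c_pm_313 : CertFX 0 1230186008 0 1230186008 1046898278 26843546 false true false .dn 3 1 3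
    ndF6q3 ndF7q3 pcF1 Cut.none Ext.none :=
  certFX0 (fam := false) (s1 := true) (s2 := false) (a := 3) (b := 1) (c := 3) (cn := .dn) (n1 := ndF6q3) (n2 := ndF7q3) (pc := pcF1) (cut := Cut.none) (xt := Ext.none) (P1 := 0) (W1 := 1230186008) (P2 := 0) (W2 := 1230186008) (P3 := 1046898278) (W3 := 26843546)
    rfl k0_pm_313

noncomputable def f_mm_001 : ℕ → ℕ → ℕ → ℕ → Bool := onCell 0 536870912 536870912 536870912 1046898278 26843546
    (rowFX 0 false false false .up 0 0 1 (qsf 0 536870912 536870912 536870912 0) ndF6q0 ndF7q1 pcF0 Cut.none Ext.none)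

def k0_mm_001 : ∃ t, chk3 f_mm_001 t 1 1 1 = true :=
  ⟨(l 3), by decide +kernel⟩

theorem c_mm_001 : CertFX 0 536870912 536870912 536870912 1046898278 26843546 false false false .up 0 0 1
    ndF6q0 ndF7q1 pcF0 Cut.none Ext.none :=
  certFX0 (fam := false) (s1 := false) (s2 := false) (a := 0) (b := 0) (c := 1) (cn := .up) (n1 := ndF6q0) (n2 := ndF7q1) (pc := pcF0) (cut := Cut.none) (xt := Ext.none) (P1 := 0) (W1 := 536870912) (P2 := 536870912) (W2 := 536870912) (P3 := 1046898278) (W3 := 26843546)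
    rfl k0_mm_001

noncomputable def f_mm_011 : ℕ → ℕ → ℕ → ℕ → Bool := onCell 0 536870912 536870912 536870912 1046898278 26843546
    (rowFX 0 false false false .pnn 0 1 1 (qsf 0 536870912 536870912 536870912 1) ndF6q0 ndF7q1 pcF1 Cut.none Ext.none)

def k0_mm_011 : ∃ t, chk3 f_mm_011 t 1 1 1 = true :=
  ⟨(l 3), by decide +kernel⟩

theorem c_mm_011 : CertFX 0 536870912 536870912 536870912 1046898278 26843546 false false false .pnn 0 1 1
    ndF6q0 ndF7q1 pcF1 Cut.none Ext.none :=
  certFX0 (fam := false) (s1 := false) (s2 := false) (a := 0) (b := 1) (c := 1) (cn := .pnn) (n1 := ndF6q0) (n2 := ndF7q1) (pc := pcF1) (cut := Cut.none) (xt := Ext.none) (P1 := 0) (W1 := 536870912) (P2 := 536870912) (W2 := 536870912) (P3 := 1046898278) (W3 := 26843546)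
    rfl k0_mm_011

noncomputable def f_mm_012 : ℕ → ℕ → ℕ → ℕ → Bool := onCell 0 536870912 1073741824 536870912 1046898278 26843546
    (rowFX 0 false false false .pnp 0 1 2 (qsf 0 536870912 1073741824 536870912 1) ndF6q0 ndF7q2 pcF1 Cut.none Ext.none)

def k0_mm_012 : ∃ t, chk3 f_mm_012 t 1 1 1 = true :=
  ⟨(l 5), by decide +kernel⟩

theorem c_mm_012 : CertFX 0 536870912 1073741824 536870912 1046898278 26843546 false false false .pnp 0 1 2
    ndF6q0 ndF7q2 pcF1 Cut.none Ext.none :=
  certFX0 (fam := false) (s1 := false) (s2 := false) (a := 0) (b := 1) (c := 2) (cn := .pnp) (n1 := ndF6q0) (n2 := ndF7q2) (pc := pcF1) (cut := Cut.none) (xt := Ext.none) (P1 := 0) (W1 := 536870912) (P2 := 1073741824) (W2 := 536870912) (P3 := 1046898278) (W3 := 26843546)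
    rfl k0_mm_012

noncomputable def f_mm_022 : ℕ → ℕ → ℕ → ℕ → Bool := onCell 0 536870912 1073741824 536870912 1046898278 26843546
    (rowFX 0 false false false .pp 0 2 2 (qsf 0 536870912 1073741824 536870912 2) ndF6q0 ndF7q2 pcF2 Cut.none Ext.none)

def k0_mm_022 : ∃ t, chk3 f_mm_022 t 1 1 1 = true :=
  ⟨(l 5), by decide +kernel⟩

theorem c_mm_022 : CertFX 0 536870912 1073741824 536870912 1046898278 26843546 false false false .pp 0 2 2
    ndF6q0 ndF7q2 pcF2 Cut.none Ext.none :=
  certFX0 (fam := false) (s1 := false) (s2 := false) (a := 0) (b := 2) (c := 2) (cn := .pp) (n1 := ndF6q0) (n2 := ndF7q2) (pc := pcF2) (cut := Cut.none) (xt := Ext.none) (P1 := 0) (W1 := 536870912) (P2 := 1073741824) (W2 := 536870912) (P3 := 1046898278) (W3 := 26843546)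
    rfl k0_mm_022

noncomputable def f_mm_023 : ℕ → ℕ → ℕ → ℕ → Bool := onCell 0 536870912 0 1230186008 1046898278 26843546
    (rowFX 0 false false false .up 0 2 3 (qsf 0 536870912 0 1230186008 2) ndF6q0 ndF7q3 pcF2 Cut.none Ext.none)

def k0_mm_023 : ∃ t, chk3 f_mm_023 t 1 1 1 = true :=
  ⟨(l 5), by decide +kernel⟩

theorem c_mm_023 : CertFX 0 536870912 0 1230186008 1046898278 26843546 false false false .up 0 2 3
    ndF6q0 ndF7q3 pcF2 Cut.none Ext.none :=
  certFX0 (fam := false) (s1 := false) (s2 := false) (a := 0) (b := 2) (c := 3) (cn := .up) (n1 := ndF6q0) (n2 := ndF7q3) (pc := pcF2) (cut := Cut.none) (xt := Ext.none) (P1 := 0) (W1 := 536870912) (P2 := 0) (W2 := 1230186008) (P3 := 1046898278) (W3 := 26843546)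
    rfl k0_mm_023

noncomputable def f_mm_033 : ℕ → ℕ → ℕ → ℕ → Bool := onCell 0 536870912 0 1230186008 1046898278 26843546
    (rowFX 0 false false false .pnn 0 3 3 (qsf 0 536870912 0 1230186008 3) ndF6q0 ndF7q3 pcF3 Cut.none Ext.none)

def k0_mm_033 : ∃ t, chk3 f_mm_033 t 1 1 1 = true :=
  ⟨(l 5), by decide +kernel⟩

theorem c_mm_033 : CertFX 0 536870912 0 1230186008 1046898278 26843546 false false false .pnn 0 3 3
    ndF6q0 ndF7q3 pcF3 Cut.none Ext.none :=
  certFX0 (fam := false) (s1 := false) (s2 := false) (a := 0) (b := 3) (c := 3) (cn := .pnn) (n1 := ndF6q0) (n2 := ndF7q3) (pc := pcF3) (cut := Cut.none) (xt := Ext.none) (P1 := 0) (W1 := 536870912) (P2 := 0) (W2 := 1230186008) (P3 := 1046898278) (W3 := 26843546)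
    rfl k0_mm_033

noncomputable def f_mm_101 : ℕ → ℕ → ℕ → ℕ → Bool := onCell 536870912 469762048 536870912 536870912 1046898278 26843546
    (rowFX 0 false false false .npn 1 0 1 (qsf 536870912 469762048 536870912 536870912 0) ndF6q1 ndF7q1 pcF0 Cut.none Ext.none)

def k0_mm_101 : ∃ t, chk3 f_mm_101 t 1 1 1 = true :=
  ⟨(l 3), by decide +kernel⟩

theorem c_mm_101 : CertFX 536870912 469762048 536870912 536870912 1046898278 26843546 false false false .npn 1 0 1
    ndF6q1 ndF7q1 pcF0 Cut.none Ext.none :=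
  certFX0 (fam := false) (s1 := false) (s2 := false) (a := 1) (b := 0) (c := 1) (cn := .npn) (n1 := ndF6q1) (n2 := ndF7q1) (pc := pcF0) (cut := Cut.none) (xt := Ext.none) (P1 := 536870912) (W1 := 469762048) (P2 := 536870912) (W2 := 536870912) (P3 := 1046898278) (W3 := 26843546)
    rfl k0_mm_101

noncomputable def f_mm_102 : ℕ → ℕ → ℕ → ℕ → Bool := onCell 536870912 469762048 1073741824 536870912 1046898278 26843546
    (rowFX 0 false false false .npp 1 0 2 (qsf 536870912 469762048 1073741824 536870912 0) ndF6q1 ndF7q2 pcF0 Cut.none Ext.none)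

def k0_mm_102 : ∃ t, chk3 f_mm_102 t 1 1 1 = true :=
  ⟨(l 5), by decide +kernel⟩

theorem c_mm_102 : CertFX 536870912 469762048 1073741824 536870912 1046898278 26843546 false false false .npp 1 0 2
    ndF6q1 ndF7q2 pcF0 Cut.none Ext.none :=
  certFX0 (fam := false) (s1 := false) (s2 := false) (a := 1) (b := 0) (c := 2) (cn := .npp) (n1 := ndF6q1) (n2 := ndF7q2) (pc := pcF0) (cut := Cut.none) (xt := Ext.none) (P1 := 536870912) (W1 := 469762048) (P2 := 1073741824) (W2 := 536870912) (P3 := 1046898278) (W3 := 26843546)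
    rfl k0_mm_102

noncomputable def f_mm_112 : ℕ → ℕ → ℕ → ℕ → Bool := onCell 536870912 469762048 1073741824 536870912 1046898278 26843546
    (rowFX 0 false false false .dn 1 1 2 (qsf 536870912 469762048 1073741824 536870912 1) ndF6q1 ndF7q2 pcF1 Cut.none Ext.none)

def k0_mm_112 : ∃ t, chk3 f_mm_112 t 1 1 1 = true :=
  ⟨(l 5), by decide +kernel⟩

theorem c_mm_112 : CertFX 536870912 469762048 1073741824 536870912 1046898278 26843546 false false false .dn 1 1 2
    ndF6q1 ndF7q2 pcF1 Cut.none Ext.none :=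
  certFX0 (fam := false) (s1 := false) (s2 := false) (a := 1) (b := 1) (c := 2) (cn := .dn) (n1 := ndF6q1) (n2 := ndF7q2) (pc := pcF1) (cut := Cut.none) (xt := Ext.none) (P1 := 536870912) (W1 := 469762048) (P2 := 1073741824) (W2 := 536870912) (P3 := 1046898278) (W3 := 26843546)
    rfl k0_mm_112

noncomputable def f_mm_113 : ℕ → ℕ → ℕ → ℕ → Bool := onCell 536870912 469762048 0 1230186008 1046898278 26843546
    (rowFX 0 false false false .nn 1 1 3 (qsf 536870912 469762048 0 1230186008 1) ndF6q1 ndF7q3 pcF1 Cut.none Ext.none)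

def k0_mm_113 : ∃ t, chk3 f_mm_113 t 1 1 1 = true :=
  ⟨(l 5), by decide +kernel⟩

theorem c_mm_113 : CertFX 536870912 469762048 0 1230186008 1046898278 26843546 false false false .nn 1 1 3
    ndF6q1 ndF7q3 pcF1 Cut.none Ext.none :=
  certFX0 (fam := false) (s1 := false) (s2 := false) (a := 1) (b := 1) (c := 3) (cn := .nn) (n1 := ndF6q1) (n2 := ndF7q3) (pc := pcF1) (cut := Cut.none) (xt := Ext.none) (P1 := 536870912) (W1 := 469762048) (P2 := 0) (W2 := 1230186008) (P3 := 1046898278) (W3 := 26843546)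
    rfl k0_mm_113

noncomputable def f_mm_123 : ℕ → ℕ → ℕ → ℕ → Bool := onCell 536870912 469762048 0 1230186008 1046898278 26843546
    (rowFX 0 false false false .npn 1 2 3 (qsf 536870912 469762048 0 1230186008 2) ndF6q1 ndF7q3 pcF2 Cut.none Ext.none)

def k0_mm_123 : ∃ t, chk3 f_mm_123 t 1 1 1 = true :=
  ⟨(l 5), by decide +kernel⟩

theorem c_mm_123 : CertFX 536870912 469762048 0 1230186008 1046898278 26843546 false false false .npn 1 2 3
    ndF6q1 ndF7q3 pcF2 Cut.none Ext.none :=
  certFX0 (fam := false) (s1 := false) (s2 := false) (a := 1) (b := 2) (c := 3) (cn := .npn) (n1 := ndF6q1) (n2 := ndF7q3) (pc := pcF2) (cut := Cut.none) (xt := Ext.none) (P1 := 536870912) (W1 := 469762048) (P2 := 0) (W2 := 1230186008) (P3 := 1046898278) (W3 := 26843546)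
    rfl k0_mm_123

noncomputable def f_mm_133 : ℕ → ℕ → ℕ → ℕ → Bool := onCell 536870912 469762048 0 1230186008 1046898278 26843546
    (rowFX 0 false false false .dn 1 3 3 (qsf 536870912 469762048 0 1230186008 3) ndF6q1 ndF7q3 pcF3 Cut.none Ext.none)

def k0_mm_133 : ∃ t, chk3 f_mm_133 t 1 1 1 = true :=
  ⟨(l 5), by decide +kernel⟩

theorem c_mm_133 : CertFX 536870912 469762048 0 1230186008 1046898278 26843546 false false false .dn 1 3 3
    ndF6q1 ndF7q3 pcF3 Cut.none Ext.none :=
  certFX0 (fam := false) (s1 := false) (s2 := false) (a := 1) (b := 3) (c := 3) (cn := .dn) (n1 := ndF6q1) (n2 := ndF7q3) (pc := pcF3) (cut := Cut.none) (xt := Ext.none) (P1 := 536870912) (W1 := 469762048) (P2 := 0) (W2 := 1230186008) (P3 := 1046898278) (W3 := 26843546)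
    rfl k0_mm_133

noncomputable def f_mm_202 : ℕ → ℕ → ℕ → ℕ → Bool := onCell 1073741824 536870912 1073741824 536870912 1046898278 26843546
    (rowFX 0 false false false .pp 2 0 2 (qsf 1073741824 536870912 1073741824 536870912 0) ndF6q2 ndF7q2 pcF0 Cut.none Ext.none)

def k0_mm_202 : ∃ t, chk3 f_mm_202 t 1 1 1 = true :=
  ⟨(l 3), by decide +kernel⟩

theorem c_mm_202 : CertFX 1073741824 536870912 1073741824 536870912 1046898278 26843546 false false false .pp 2 0 2
    ndF6q2 ndF7q2 pcF0 Cut.none Ext.none :=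
  certFX0 (fam := false) (s1 := false) (s2 := false) (a := 2) (b := 0) (c := 2) (cn := .pp) (n1 := ndF6q2) (n2 := ndF7q2) (pc := pcF0) (cut := Cut.none) (xt := Ext.none) (P1 := 1073741824) (W1 := 536870912) (P2 := 1073741824) (W2 := 536870912) (P3 := 1046898278) (W3 := 26843546)
    rfl k0_mm_202

noncomputable def f_mm_203 : ℕ → ℕ → ℕ → ℕ → Bool := onCell 1073741824 536870912 0 1230186008 1046898278 26843546
    (rowFX 0 false false false .up 2 0 3 (qsf 1073741824 536870912 0 1230186008 0) ndF6q2 ndF7q3 pcF0 Cut.none Ext.none)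

def k0_mm_203 : ∃ t, chk3 f_mm_203 t 1 1 1 = true :=
  ⟨(b (l 5) (a (l 3) (l 3))), by decide +kernel⟩

theorem c_mm_203 : CertFX 1073741824 536870912 0 1230186008 1046898278 26843546 false false false .up 2 0 3
    ndF6q2 ndF7q3 pcF0 Cut.none Ext.none :=
  certFX0 (fam := false) (s1 := false) (s2 := false) (a := 2) (b := 0) (c := 3) (cn := .up) (n1 := ndF6q2) (n2 := ndF7q3) (pc := pcF0) (cut := Cut.none) (xt := Ext.none) (P1 := 1073741824) (W1 := 536870912) (P2 := 0) (W2 := 1230186008) (P3 := 1046898278) (W3 := 26843546)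
    rfl k0_mm_203

noncomputable def f_mm_213 : ℕ → ℕ → ℕ → ℕ → Bool := onCell 536870912 536870912 0 1230186008 1046898278 26843546
    (rowFX 2 false false false .pnn 2 1 3 (qsf 1073741824 536870912 0 1230186008 1) ndF6q2 ndF7q3 pcF1 Cut.none Ext.none)

def k0_mm_213 : ∃ t, chk3 f_mm_213 t 1 1 1 = true :=
  ⟨(b (l 5) (l 5)), by decide +kernel⟩

theorem c_mm_213 : CertFX 1073741824 536870912 0 1230186008 1046898278 26843546 false false false .pnn 2 1 3
    ndF6q2 ndF7q3 pcF1 Cut.none Ext.none :=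
  certFX2 (fam := false) (s1 := false) (s2 := false) (a := 2) (b := 1) (c := 3) (cn := .pnn) (n1 := ndF6q2) (n2 := ndF7q3) (pc := pcF1) (cut := Cut.none) (xt := Ext.none) (P1 := 1073741824) (W1 := 536870912) (P2 := 0) (W2 := 1230186008) (P3 := 1046898278) (W3 := 26843546)
    rfl (fun _ => rfl) k0_mm_213

noncomputable def f_mm_303 : ℕ → ℕ → ℕ → ℕ → Bool := onCell 0 1230186008 0 1230186008 1046898278 26843546
    (rowFX 0 false false false .npn 3 0 3 (qsf 0 1230186008 0 1230186008 0) ndF6q3 ndF7q3 pcF0 Cut.none Ext.none)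

def k0_mm_303 : ∃ t, chk3 f_mm_303 t 1 1 1 = true :=
  ⟨(a (b (l 3) (b (l 3) (l 1))) (b (a (l 3) (l 3)) (l 3))), by decide +kernel⟩

theorem c_mm_303 : CertFX 0 1230186008 0 1230186008 1046898278 26843546 false false false .npn 3 0 3
    ndF6q3 ndF7q3 pcF0 Cut.none Ext.none :=
  certFX0 (fam := false) (s1 := false) (s2 := false) (a := 3) (b := 0) (c := 3) (cn := .npn) (n1 := ndF6q3) (n2 := ndF7q3) (pc := pcF0) (cut := Cut.none) (xt := Ext.none) (P1 := 0) (W1 := 1230186008) (P2 := 0) (W2 := 1230186008) (P3 := 1046898278) (W3 := 26843546)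
    rfl k0_mm_303

noncomputable def f_mm_313 : ℕ → ℕ → ℕ → ℕ → Bool := onCell 0 1230186008 0 1230186008 1046898278 26843546
    (rowFX 0 false false false .dn 3 1 3 (qsf 0 1230186008 0 1230186008 1) ndF6q3 ndF7q3 pcF1 Cut.none Ext.none)

def k0_mm_313 : ∃ t, chk3 f_mm_313 t 1 1 1 = true :=
  ⟨(a (l 1) (b (a (l 1) (l 3)) (l 1))), by decide +kernel⟩

theorem c_mm_313 : CertFX 0 1230186008 0 1230186008 1046898278 26843546 false false false .dn 3 1 3
    ndF6q3 ndF7q3 pcF1 Cut.none Ext.none :=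
  certFX0 (fam := false) (s1 := false) (s2 := false) (a := 3) (b := 1) (c := 3) (cn := .dn) (n1 := ndF6q3) (n2 := ndF7q3) (pc := pcF1) (cut := Cut.none) (xt := Ext.none) (P1 := 0) (W1 := 1230186008) (P2 := 0) (W2 := 1230186008) (P3 := 1046898278) (W3 := 26843546)
    rfl k0_mm_313

end Pool.Agent.Strip051.G.IE1.Tab.C.FB67

namespace Pool.Agent.Strip051.G.IE1.Tab.C.FB70

open Pool.Agent.Strip051.PB Pool.Agent.Strip051.PB.T
open Pool.Agent.Strip051.G.IE1.Tab

noncomputable def cut_pp_001 : Cut := Cut.of [[⟨3, 0, 0, 1449551462⟩]]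

noncomputable def f_pp_001 : ℕ → ℕ → ℕ → ℕ → Bool := onCell 0 536870912 536870912 536870912 1046898278 26843546
    (rowFX 2 false true true .up 0 0 1 (qsf 0 536870912 536870912 536870912 0) ndF7q0 ndF0q1 pcF0 cut_pp_001 Ext.none)

def k0_pp_001 : ∃ t, chk3 f_pp_001 t 1 1 1 = true :=
  ⟨(a (l 6) (b (l 6) (b (l 6) (a (b (l 6) (l 2)) (b (a (l 6) (c (b (l 6) (l 16365336)) (l 16303136))) (b (c (a (l 16113496) (l 16113496)) (l 157939005191)) (c (a (l 2) (l 15858544)) (l 126799892263)))))))), by decide +kernel⟩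

theorem c_pp_001 : CertFX 0 536870912 536870912 536870912 1046898278 26843546 false true true .up 0 0 1
    ndF7q0 ndF0q1 pcF0 cut_pp_001 Ext.none :=
  certFX2 (fam := false) (s1 := true) (s2 := true) (a := 0) (b := 0) (c := 1) (cn := .up) (n1 := ndF7q0) (n2 := ndF0q1) (pc := pcF0) (cut := cut_pp_001) (xt := Ext.none) (P1 := 0) (W1 := 536870912) (P2 := 536870912) (W2 := 536870912) (P3 := 1046898278) (W3 := 26843546)
    rfl (fun _ => rfl) k0_pp_001

noncomputable def cut_pp_011 : Cut := Cut.of [[⟨3, 0, 0, 1449551462⟩]]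

noncomputable def f_pp_011 : ℕ → ℕ → ℕ → ℕ → Bool := onCell 0 536870912 536870912 536870912 1046898278 26843546
    (rowFX 0 false true true .pnn 0 1 1 (qsf 0 536870912 536870912 536870912 1) ndF7q0 ndF0q1 pcF1 cut_pp_011 Ext.none)

def k0_pp_011 : ∃ t, chk3 f_pp_011 t 1 2 1 = true :=
  ⟨(a (b (l 6) (b (l 6) (b (l 6) (a (a (a (l 16777216) (l 6)) (l 6)) (l 6))))) (l 6)), by decide +kernel⟩

def k1_pp_011 : ∃ t, chk3 f_pp_011 t 2 3 1 = true :=
  ⟨(a (b (c (b (a (l 16775256) (l 16777216)) (a (b (l 16767584) (l 16774272)) (l 16771456))) (b (a (l 16775208) (l 16777216)) (a (a (b (l 16762352) (l 16623232)) (l 16774072)) (l 16771184)))) (b (a (b (a (b (c (l 16645552) (l 16642832)) (l 16492536)) (b (l 16661184) (c (l 16550440) (l 16541648)))) (a (b (l 16333120) (c (l 16168416) (l 16157168))) (b (a (l 16409984) (l 16426904)) (l 16284336)))) (b (l 16530544) (a (c (l 16369160) (l 16230080)) (l 16359248)))) (a (b (a (b (l 15720416) (c (l 15584848) (l 15565376))) (b (c (l 16107160) (l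 16099816)) (c (l 15840928) (l 15825848)))) (a (b (c (a (l 15148200) (l 15323440)) (a (l 15142208) (l 15312288))) (c (a (l 14759720) (l 14945008)) (a (b (l 14761504) (c (l 14639792) (l 14634184))) (b (l 15040744) (l 14845840))))) (b (c (l 15555400) (l 15542472)) (c (l 15233144) (b (l 15302680) (l 15132472)))))) (b (a (b (a (l 16163320) (l 16163280)) (l 15858792)) (b (l 16160072) (c (l 16019952) (l 16001648)))) (a (b (c (l 15820272) (l 15816736)) (c (l 15560784) (l 15361312))) (b (c (l 15922832) (l 15921000)) (c (l 15835736) (l 15843096)))))))) (a (b (b (b (l 6) (c (l 16777216) (l 16777216))) (c (l 16770832) (l 16770664))) (b (c (l 16478440) (l 16428600)) (b (c (l 16110456) (l 16077432)) (a (c (l 15855408) (b (l 15886720) (l 15798448))) (c (l 15851088) (l 15845808)))))) (b (b (l 6) (b (c (l 16777216) (l 16777216)) (l 16764520))) (b (c (l 16478664) (l 16470904)) (b (c (l 16113496) (l 16081376)) (c (l 15794232) (b (l 15898632) (l 15793640)))))))), by decide +kernel⟩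

def k2_pp_011 : ∃ t, chk3 f_pp_011 t 3 3 1 = true :=
  ⟨(b (a (b (l 6) (b (l 6) (a (l 16764520) (l 260415853047)))) (l 6)) (b (a (a (b (l 16591888) (l 16359984)) (b (l 16591888) (l 16359984))) (a (b (l 349535898455) (l 16359984)) (a (l 842919778103) (l 1)))) (a (b (c (l 16113496) (l 16081376)) (c (a (l 15858544) (l 15858544)) (a (l 15854768) (l 15854768)))) (b (c (a (l 16113496) (l 16113496)) (l 16081376)) (c (a (l 15858544) (l 15858544)) (a (l 15854768) (l 15854768))))))), by decide +kernel⟩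

theorem s3_pp_011 : ∃ t, chk3 f_pp_011 t 1 3 1 = true := ex3_a k1_pp_011 k2_pp_011

theorem s4_pp_011 : ∃ t, chk3 f_pp_011 t 1 1 1 = true := ex3_b k0_pp_011 s3_pp_011

theorem c_pp_011 : CertFX 0 536870912 536870912 536870912 1046898278 26843546 false true true .pnn 0 1 1
    ndF7q0 ndF0q1 pcF1 cut_pp_011 Ext.none :=
  certFX0 (fam := false) (s1 := true) (s2 := true) (a := 0) (b := 1) (c := 1) (cn := .pnn) (n1 := ndF7q0) (n2 := ndF0q1) (pc := pcF1) (cut := cut_pp_011) (xt := Ext.none) (P1 := 0) (W1 := 536870912) (P2 := 536870912) (W2 := 536870912) (P3 := 1046898278) (W3 := 26843546)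
    rfl s4_pp_011

noncomputable def cut_pp_012 : Cut := Cut.of [[⟨3, 0, 0, 1449551462⟩]]

noncomputable def f_pp_012 : ℕ → ℕ → ℕ → ℕ → Bool := onCell 536870912 536870912 0 536870912 1046898278 26843546
    (rowFX 2 false true true .pnp 0 1 2 (qsf 0 536870912 0 536870912 1) ndF7q0 ndF0q2 pcF1 cut_pp_012 Ext.none)

def k0_pp_012 : ∃ t, chk3 f_pp_012 t 2 1 1 = true :=
  ⟨(b (a (b (l 2) (c (l 16777216) (l 16777216))) (b (b (a (c (l 16711624) (l 16709920)) (c (l 16516176) (l 170958792103))) (b (a (l 16710344) (a (l 16445064) (l 16103472))) (a (l 16760472) (a (l 16645312) (l 16436984))))) (b (b (a (l 16774832) (l 16732336)) (l 16777216)) (c (l 16777216) (l 16777216))))) (b (a (b (c (l 16777216) (l 16777216)) (c (l 16662200) (l 16659216))) (b (c (l 16777216) (l 16777216)) (c (l 16662200) (l 16659216)))) (b (a (c (l 16347472) (l 16336304)) (c (l 16347472) (l 16336304))) (a (c (b (l 16045520) (l 15850352)) (b (l 16026520) (l 15845824))) (c (b (l 16045520) (l 15850352)) (b (l 16026520)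 (l 15720000))))))), by decide +kernel⟩

def k1_pp_012 : ∃ t, chk3 f_pp_012 t 6 1 1 = true :=
  ⟨(b (b (b (l 4) (a (b (a (a (l 15967848) (l 4)) (l 4)) (a (a (l 16191488) (l 16003224)) (a (l 15755272) (a (l 15644208) (l 15563376))))) (a (a (b (l 4) (l 4)) (l 4)) (l 4)))) (b (b (a (a (b (l 16485912) (l 16711656)) (a (l 16310712) (l 15965368))) (a (b (a (l 15542232) (l 15315792)) (l 15619000)) (c (l 15291840) (l 15190344)))) (a (a (l 16776944) (a (l 16641992) (l 16335928))) (a (b (a (l 16054016) (l 15717864)) (a (l 16254024) (l 15946096))) (b (a (l 15379480) (l 15117352)) (a (b (l 15563952) (l 15717728)) (l 15407416)))))) (a (a (l 16777184) (b (b (l 16657096) (l 16743928)) (l 16768632))) (a (b (b (l 16354032) (c (l 16657864) (l 16592368))) (c (l 16747440) (l 16756160))) (b (b (a (l 16016304) (l 15736864)) (b (l 16099928) (a (a (c (l 16541568) (l 16549424)) (l 16393400)) (c (l 16210328) (l 16102288))))) (b (b (a (a (c (l 16731016) (l 16743424)) (c (l 16623408) (l 16632768))) (c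 (l 16384952) (l 16323384))) (l 16585336)) (l 16592712))))))) (b (a (b (l 16775432) (c (l 16660368) (l 16657176))) (b (a (l 16766496) (c (l 16619288) (l 16426440))) (a (l 16618024) (c (l 16431136) (a (l 16676608) (l 16465216)))))) (b (a (c (l 16345400) (l 16333984)) (a (c (l 16335840) (l 16322824)) (c (l 16215560) (a (l 16342144) (l 16295840))))) (a (c (l 15868392) (l 15739712)) (c (b (l 15975072) (l 15855728)) (a (l 15832176) (b (l 16076128) (l 15877096)))))))), by decide +kernel⟩

def k2_pp_012 : ∃ t, chk3 f_pp_012 t 7 4 1 = true :=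
  ⟨(l 4), by decide +kernel⟩

def k3_pp_012 : ∃ t, chk3 f_pp_012 t 7 10 1 = true :=
  ⟨(b (l 4) (a (a (a (b (b (l 14799504) (l 14886504)) (l 15134512)) (c (a (l 14959816) (l 14886456)) (a (l 14912608) (l 14837632)))) (c (c (a (l 14740776) (l 14525472)) (a (l 14732360) (l 14530000))) (a (l 14694392) (l 14498552)))) (l 4))), by decide +kernel⟩

def k4_pp_012 : ∃ t, chk3 f_pp_012 t 7 11 1 = true :=
  ⟨(b (a (b (a (a (l 15440232) (a (l 15252280) (c (l 15140352) (l 15099160)))) (c (a (b (l 14777240) (l 14958016)) (a (b (l 14502176) (l 14698008)) (l 14244856))) (a (b (l 14738552) (l 14920832)) (a (b (l 14466936) (l 14663920)) (l 14448832))))) (a (a (a (l 15704576) (l 15693888)) (c (l 15533064) (l 15507616))) (a (a (l 15282320) (l 14885752)) (a (b (l 14830256) (l 14996352)) (b (c (l 14660928) (l 14630208)) (l 14824792)))))) (a (c (a (c (a (a (l 14523720) (l 14485728)) (l 14393880)) (a (c (l 14527696) (l 14529784)) (l 14412880))) (c (l 14204896) (a (l 14294944) (l 14168096)))) (a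 (a (b (l 14355384) (b (l 14471688) (l 14637360))) (c (l 14405520) (l 14374928))) (c (c (l 14242096) (l 14236472)) (l 14213168)))) (a (c (a (l 14029720) (l 13896512)) (c (a (l 14061480) (l 13887432)) (l 13990680))) (l 4)))) (b (a (a (a (c (l 16061008) (l 15988496)) (c (l 15727776) (l 15665152))) (b (c (a (l 15419120) (l 15122952)) (a (l 15388672) (l 15001344))) (l 15302472))) (a (b (c (a (c (a (l 14896392) (l 14715168)) (l 14806240)) (b (l 14339952) (c (l 14427888) (l 14482840)))) (a (l 14603984) (b (l 14351096) (l 14470592)))) (a (l 14838696) (c (l 14479448) (l 14500840)))) (c (a (a (b (b (l 14029720) (l 14138168)) (l 14181240)) (c (l 13967616) (l 13994640))) (l 13833280)) (a (c (a (b (b (l 14061480) (l 14196088)) (l 14266912)) (b (l 13990664) (l 14068176))) (b (a (l 14129848) (l 13993920)) (l 14154600))) (c (a (l 13865688) (l 13737504)) (a (c (l 13854536) (l 13893704)) (a (l 13670304) (l 13688120)))))))) (a (a (l 15950456) (l 15345080)) (a (c (l 14723856) (l 14726952)) (c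 (l 14062296) (a (l 14235656) (l 13899048))))))), by decide +kernel⟩

def k5_pp_012 : ∃ t, chk3 f_pp_012 t 7 3 1 = true :=
  ⟨(b (a (b (a (c (l 16048808) (l 16029888)) (c (l 15503416) (l 15470328))) (a (c (l 16101448) (l 15915904)) (c (l 15631712) (b (l 15601432) (l 15599264))))) (a (b (c (c (l 14911240) (l 14928056)) (c (l 14929240) (l 14905704))) (c (c (l 15116120) (l 15127632)) (b (l 15101464) (l 15127448)))) (b (c (a (l 14409016) (l 14164024)) (a (l 14462272) (c (l 14145528) (l 14146416)))) (c (a (l 14673848) (l 14449984)) (a (b (l 14687200) (l 14735152)) (c (l 14431048) (b (l 14397272) (l 14458272)))))))) (a (b (a (c (l 15997152) (b (l 16013928) (l 15937504))) (c (l 15591368) (b (l 15581184) (l 15535968)))) (c (a (b (l 15860600) (l 15768920)) (b (l 15501688) (l 15444456))) (a (b (l 15840536) (l 15766264)) (b (l 15469640) (l 15345328))))) (b (a (c (b (l 15145992) (l 15131736)) (b (l 15136736) (l 15117408))) (c (a (l 14748904) (l 14540128)) (a (c (l 14775632) (l 14766416))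 (c (l 14516872) (b (l 14501552) (l 14514200)))))) (a (c (b (l 15095808) (l 15070328)) (b (l 15076192) (c (l 15068856) (l 15055104)))) (c (b (l 14587696) (l 14549064)) (b (a (l 14745280) (c (l 14515512) (l 14503896))) (c (a (l 14758208) (l 14534488)) (c (l 14537272) (l 14635264))))))))), by decide +kernel⟩

theorem s6_pp_012 : ∃ t, chk3 f_pp_012 t 7 5 1 = true := ex3_b k3_pp_012 k4_pp_012

theorem s7_pp_012 : ∃ t, chk3 f_pp_012 t 7 2 1 = true := ex3_b k2_pp_012 s6_pp_012

theorem s8_pp_012 : ∃ t, chk3 f_pp_012 t 7 1 1 = true := ex3_b s7_pp_012 k5_pp_012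

theorem s9_pp_012 : ∃ t, chk3 f_pp_012 t 3 1 1 = true := ex3_a k1_pp_012 s8_pp_012

theorem s10_pp_012 : ∃ t, chk3 f_pp_012 t 1 1 1 = true := ex3_a k0_pp_012 s9_pp_012

theorem c_pp_012 : CertFX 0 536870912 0 536870912 1046898278 26843546 false true true .pnp 0 1 2
    ndF7q0 ndF0q2 pcF1 cut_pp_012 Ext.none :=
  certFX2 (fam := false) (s1 := true) (s2 := true) (a := 0) (b := 1) (c := 2) (cn := .pnp) (n1 := ndF7q0) (n2 := ndF0q2) (pc := pcF1) (cut := cut_pp_012) (xt := Ext.none) (P1 := 0) (W1 := 536870912) (P2 := 0) (W2 := 536870912) (P3 := 1046898278) (W3 := 26843546)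
    rfl (fun _ => rfl) s10_pp_012

noncomputable def cut_pp_022 : Cut := Cut.of [[⟨3, 0, 0, 1449551462⟩]]

noncomputable def f_pp_022 : ℕ → ℕ → ℕ → ℕ → Bool := onCell 1073741824 536870912 0 536870912 1046898278 26843546
    (rowFX 2 false true true .pp 0 2 2 (qsf 0 536870912 0 536870912 2) ndF7q0 ndF0q2 pcF2 cut_pp_022 Ext.none)

def k0_pp_022 : ∃ t, chk3 f_pp_022 t 1 1 1 = true :=
  ⟨(a (a (b (a (b (l 4) (b (l 4) (b (l 4) (c (a (l 13889056) (l 14172880)) (a (c (l 13855440) (l 13847448)) (l 14157696)))))) (l 4)) (b (a (c (b (a (l 14051408) (c (l 14261832) (l 14271360))) (a (l 14196824) (c (l 14374256) (l 14378144)))) (b (a (c (l 14018736) (a (l 13943248) (l 14059208))) (c (l 14272168) (l 14245520))) (a (c (l 14058424) (b (l 14155576) (l 14144656))) (c (l 14374760) (l 14348512))))) (a (b (c (a (l 14478280) (l 14407000)) (a (l 14448848) (b (l 14549824) (l 14600424)))) (c (a (l 14550384) (l 14651344)) (a (l 14518024) (b (l 14636432) (l 14581520))))) (b (c (l 14720880) (b (l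 4) (l 14802288))) (c (l 14804176) (b (l 14796896) (l 1)))))) (a (a (b (c (b (l 14168208) (l 14114032)) (b (c (l 14131320) (l 14073824)) (c (l 14074328) (a (l 14012216) (l 14088896))))) (c (b (l 14037072) (l 13972896)) (b (c (l 13994224) (a (l 13933992) (l 14001976))) (c (b (l 13954424) (l 13919064)) (a (b (l 13898048) (l 13871600)) (b (l 13959528) (l 1))))))) (b (c (c (l 14293248) (b (l 14323152) (l 14250944))) (c (b (l 14314832) (l 14239040)) (b (l 14287152) (l 14210152)))) (a (b (a (c (l 14103320) (l 14069528)) (l 1)) (l 1)) (l 1)))) (b (b (a (a (c (l 14475760) (l 14437720)) (l 1)) (l 1)) (l 1)) (l 1))))) (b (l 4) (b (l 1) (l 1)))) (l 1)), by decide +kernel⟩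

theorem c_pp_022 : CertFX 0 536870912 0 536870912 1046898278 26843546 false true true .pp 0 2 2
    ndF7q0 ndF0q2 pcF2 cut_pp_022 Ext.none :=
  certFX2 (fam := false) (s1 := true) (s2 := true) (a := 0) (b := 2) (c := 2) (cn := .pp) (n1 := ndF7q0) (n2 := ndF0q2) (pc := pcF2) (cut := cut_pp_022) (xt := Ext.none) (P1 := 0) (W1 := 536870912) (P2 := 0) (W2 := 536870912) (P3 := 1046898278) (W3 := 26843546)
    rfl (fun _ => rfl) k0_pp_022

noncomputable def cut_pp_101 : Cut := Cut.of [[⟨3, 0, 0, 1449551462⟩], [⟨0, 1, 0, 67108864⟩, ⟨1, 0, 0, 67108864⟩, ⟨2, 1, 0, 67108864⟩]]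

noncomputable def f_pp_101 : ℕ → ℕ → ℕ → ℕ → Bool := onCell 536870912 536870912 536870912 536870912 1046898278 26843546
    (rowFX 0 false true true .npn 1 0 1 (qsf 536870912 536870912 536870912 536870912 0) ndF7q1 ndF0q1 pcF0 cut_pp_101 Ext.none)

def k0_pp_101 : ∃ t, chk3 f_pp_101 t 1 1 1 = true :=
  ⟨(b (l 3) (a (b (l 6) (a (b (l 6) (b (a (c (l 16113496) (l 16081376)) (c (l 16113496) (l 16081376))) (c (a (l 15858544) (l 15858544)) (a (l 15854768) (l 15854768))))) (b (l 6) (a (b (l 6) (c (b (l 15994944) (l 15931520)) (b (l 16032928) (l 15929440)))) (l 6))))) (l 6))), by decide +kernel⟩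

theorem c_pp_101 : CertFX 536870912 536870912 536870912 536870912 1046898278 26843546 false true true .npn 1 0 1
    ndF7q1 ndF0q1 pcF0 cut_pp_101 Ext.none :=
  certFX0 (fam := false) (s1 := true) (s2 := true) (a := 1) (b := 0) (c := 1) (cn := .npn) (n1 := ndF7q1) (n2 := ndF0q1) (pc := pcF0) (cut := cut_pp_101) (xt := Ext.none) (P1 := 536870912) (W1 := 536870912) (P2 := 536870912) (W2 := 536870912) (P3 := 1046898278) (W3 := 26843546)
    rfl k0_pp_101

noncomputable def cut_pp_102 : Cut := Cut.of [[⟨3, 0, 0, 1449551462⟩], [⟨0, 1, 0, 67108864⟩, ⟨1, 0, 0, 67108864⟩, ⟨2, 1, 0, 67108864⟩]]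

noncomputable def f_pp_102 : ℕ → ℕ → ℕ → ℕ → Bool := onCell 536870912 536870912 0 536870912 1046898278 26843546
    (rowFX 0 false true true .npp 1 0 2 (qsf 536870912 536870912 0 536870912 0) ndF7q1 ndF0q2 pcF0 cut_pp_102 Ext.none)

def k0_pp_102 : ∃ t, chk3 f_pp_102 t 2 1 1 = true :=
  ⟨(b (a (b (l 2) (c (l 131097165831) (l 16777216))) (c (b (a (l 16646024) (l 16255144)) (a (l 16646024) (l 16255144))) (b (a (l 16642616) (l 16241584)) (a (l 16642616) (l 16241584))))) (b (a (a (l 2) (b (l 16777216) (l 16639736))) (b (c (a (l 16646024) (l 16255144)) (a (l 16642616) (l 16241584))) (a (c (l 16673256) (l 16671568)) (l 16167064)))) (a (b (c (l 16347472) (l 16336304)) (c (b (l 16045520) (l 15745496)) (a (l 15952016) (l 15847160)))) (b (a (c (l 16453904) (l 16447488)) (c (l 16425072) (l 16418752))) (a (b (c (l 16162272) (l 16148200)) (c (l 15974808) (l 15975384))) (b (c (l 16516336) (l 16515632)) (c (l 16349576) (l 16363688)))))))), by decide +kernel⟩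

def k1_pp_102 : ∃ t, chk3 f_pp_102 t 3 2 1 = true :=
  ⟨(a (b (b (a (l 15782128) (l 15212584)) (a (l 15782128) (l 15212584))) (c (a (l 15794880) (l 15232640)) (a (l 15769368) (b (l 15192520) (l 15192520))))) (a (b (b (c (l 14596272) (l 14539632)) (c (l 14599328) (l 14542776))) (b (c (l 14506856) (l 14555520)) (b (c (l 14629416) (l 14573728)) (a (c (l 14711112) (l 14682408)) (c (l 14535888) (l 14506072)))))) (b (c (a (b (l 14181080) (l 14213592)) (l 14036816)) (a (b (l 14168560) (l 14202040)) (b (l 13979992) (l 14037216)))) (a (c (b (l 14272928) (a (l 14410096) (l 14329816))) (b (l 14263096) (b (l 14332032) (l 14394112)))) (c (b (l 14146448) (l 14264464)) (b (l 14121592) (c (l 14239432) (l 14237544)))))))), by decide +kernel⟩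

def k2_pp_102 : ∃ t, chk3 f_pp_102 t 3 3 1 = true :=
  ⟨(a (b (a (b (c (l 15794880) (l 15769368)) (c (l 15854448) (l 15830840))) (b (c (l 15232640) (l 15192520)) (a (c (l 15466104) (l 15432376)) (b (c (a (l 15183304) (l 14818088)) (l 14813096)) (c (l 15092056) (l 15199456)))))) (b (a (c (l 15813640) (l 16005416)) (b (a (c (l 15613512) (l 15584272)) (c (l 15421312) (l 15387120))) (a (c (a (l 15806680) (l 15728976)) (l 15750936)) (c (l 15671464) (l 15644360))))) (a (b (a (l 16245816) (b (c (l 16066168) (l 16049696)) (l 6))) (l 6)) (b (a (b (l 6) (l 6)) (l 6)) (l 6))))) (b (a (b (a (c (b (a (l 14806608) (l 14693504)) (a (l 14827584) (l 14754888))) (b (l 14701280) (a (l 14777272) (l 14701536)))) (c (b (l 14595720) (l 14673528)) (l 14607176))) (a (b (c (b (l 14845456) (l 14935384)) (l 14847760)) (c (l 15090880) (l 15051304))) (c (b (c (l 14802712) (l 14807816)) (c (a (l 15038240) (l 14984216)) (l 15020952))) (b (l 14779128) (l 14996656))))) (b (b (c (a (l 14447224) (l 14381680))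 (a (l 14463784) (c (l 14358728) (l 14358424)))) (a (c (c (l 14538320) (l 14555864)) (l 14550984)) (c (l 14475024) (a (l 14483800) (l 14431240))))) (b (a (c (c (l 14682440) (l 14703768)) (l 14533560)) (c (a (l 14638576) (b (l 14570712) (l 14703040))) (a (l 14638072) (c (l 14601376) (l 14596088))))) (b (a (c (a (l 14881328) (l 14843784)) (l 14874008)) (c (a (a (l 14816552) (l 14822200)) (l 14868832)) (a (l 14829264) (l 14826368)))) (a (c (c (l 14978656) (l 14979096)) (l 15006688)) (l 6)))))) (b (a (b (c (a (l 15322320) (c (l 15264416) (l 15275432))) (a (l 15289208) (l 15256656))) (a (a (l 6) (l 6)) (l 6))) (l 6)) (l 6)))), by decide +kernel⟩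

theorem s3_pp_102 : ∃ t, chk3 f_pp_102 t 3 1 1 = true := ex3_b k1_pp_102 k2_pp_102

theorem s4_pp_102 : ∃ t, chk3 f_pp_102 t 1 1 1 = true := ex3_a k0_pp_102 s3_pp_102

theorem c_pp_102 : CertFX 536870912 536870912 0 536870912 1046898278 26843546 false true true .npp 1 0 2
    ndF7q1 ndF0q2 pcF0 cut_pp_102 Ext.none :=
  certFX0 (fam := false) (s1 := true) (s2 := true) (a := 1) (b := 0) (c := 2) (cn := .npp) (n1 := ndF7q1) (n2 := ndF0q2) (pc := pcF0) (cut := cut_pp_102) (xt := Ext.none) (P1 := 536870912) (W1 := 536870912) (P2 := 0) (W2 := 536870912) (P3 := 1046898278) (W3 := 26843546)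
    rfl s4_pp_102

noncomputable def cut_pp_112 : Cut := Cut.of [[⟨3, 0, 0, 1449551462⟩]]

noncomputable def f_pp_112 : ℕ → ℕ → ℕ → ℕ → Bool := onCell 536870912 536870912 0 536870912 1046898278 26843546
    (rowFX 0 false true true .dn 1 1 2 (qsf 536870912 536870912 0 536870912 1) ndF7q1 ndF0q2 pcF1 cut_pp_112 Ext.none)

def k0_pp_112 : ∃ t, chk3 f_pp_112 t 1 1 1 = true :=
  ⟨(a (b (a (b (c (a (l 16770736) (l 16777216)) (a (l 16770568) (l 16777216))) (c (l 16777216) (l 16777216))) (a (b (b (l 16644320) (l 16644320)) (b (l 16644320) (l 2320389209095))) (l 1))) (b (a (b (c (l 16777216) (l 16777216)) (c (l 16662200) (l 16659216))) (l 1)) (a (b (c (l 16347472) (l 16336304)) (a (c (l 15807768) (l 15952016)) (l 1))) (l 1)))) (l 1)), by decide +kernel⟩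

theorem c_pp_112 : CertFX 536870912 536870912 0 536870912 1046898278 26843546 false true true .dn 1 1 2
    ndF7q1 ndF0q2 pcF1 cut_pp_112 Ext.none :=
  certFX0 (fam := false) (s1 := true) (s2 := true) (a := 1) (b := 1) (c := 2) (cn := .dn) (n1 := ndF7q1) (n2 := ndF0q2) (pc := pcF1) (cut := cut_pp_112) (xt := Ext.none) (P1 := 536870912) (W1 := 536870912) (P2 := 0) (W2 := 536870912) (P3 := 1046898278) (W3 := 26843546)
    rfl k0_pp_112

end Pool.Agent.Strip051.G.IE1.Tab.C.FB70

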