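import Pool.Agent.Strip051.G.IE1.StF

/-! # Strips St6 (generated) -/

set_option linter.all false
set_option maxRecDepth 100000

namespace Pool.Agent.Strip051.G.IE1.Tab.St.C

open Pool.Agent.Strip051.PB Pool.Agent.Strip051.PB.T
open Pool.Agent.StripNear Pool.Agent.Strip051.LC
open Pool.Agent.Strip051.G.IE1.Tab Pool.Agent.Strip051.G.IE1.Tab.St

noncomputable def cut_B07mm_202_s1 : Cut := Cut.of [[⟨4, 0, 0, 1449551462⟩], [⟨0, 1, 0, 67108864⟩, ⟨1, 0, 0, 67108864⟩, ⟨2, 1, 0, 67108864⟩]]

noncomputable def xt_B07mm_202_s1 : Ext := strExtY dd false false false .u2 .s2m .u0m .pp 2 0 2 rfl rfl gf0 ge vv ndF0q2 ndF7q2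

noncomputable def f_B07mm_202_s1 : ℕ → ℕ → ℕ → ℕ → Bool := onCell 0 536870912 0 536870912 1046898278 26843546
    (rowFX 1 false false false .pp 2 0 2 (qsf 0 536870912 1073741824 536870912 0) ndF0q2 ndF7q2 pcF0 cut_B07mm_202_s1 xt_B07mm_202_s1)

def k0_B07mm_202_s1 : ∃ t, chk3 f_B07mm_202_s1 t 2 4 1 = true :=
  ⟨(b (a (l 6) (a (l 6) (a (l 6) (b (l 6) (c (b (b (l 6) (c (l 16461600) (l 16260456))) (c (b (l 16310352) (c (l 16412632) (l 16489728))) (l 16347304))) (b (b (l 6) (l 16420928)) (b (l 16457152) (l 16484984)))))))) (a (l 6) (b (a (l 6) (a (b (l 6) (c (c (l 16602296) (l 16597400)) (l 16596312))) (c (b (c (l 16532960) (l 16531512)) (b (l 16573816) (l 16584392))) (b (l 16529176) (l 16574176))))) (b (a (l 6) (c (b (a (l 16630952) (c (l 16602504) (l 16603248))) (a (l 16653424) (c (l 16624544) (l 16622632)))) (a (b (l 16623960) (l 16655936)) (b (l 16602160) (l 16623720))))) (a (l 6) (c (a (c (a (l 16627240) (l 16646008)) (a (l 16624256) (l 16647424))) (l 16666544))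 (a (l 16632776) (c (l 16669352) (l 16669632))))))))), by decide +kernel⟩

def k1_B07mm_202_s1 : ∃ t, chk3 f_B07mm_202_s1 t 6 32 1 = true :=
  ⟨(c (a (a (b (l 16114584) (c (l 16172488) (l 16097144))) (b (l 16079984) (b (l 16109352) (c (l 16068752) (c (l 16176744) (l 16099312)))))) (b (c (a (l 16115944) (l 16199664)) (a (b (l 16099800) (c (l 16096928) (b (l 16088232) (l 16005704)))) (b (l 16209264) (l 16038856)))) (c (b (a (b (l 16106096) (c (l 16107008) (l 16109328))) (c (l 16200816) (l 16051200))) (a (l 15981112) (l 16170384))) (b (a (c (b (l 16014800) (l 16124000)) (l 16126160)) (l 16068120)) (a (c (l 16175488) (l 16098648)) (l 16208128)))))) (c (b (a (b (l 16060816) (a (l 16111080) (l 16070056))) (b (a (a (l 16047072) (l 16104088)) (l 16187896)) (a (b (a (l 16055632) (l 16025560)) (c (l 16097592) (l 16110696))) (c (l 16036552) (b (l 16198640) (l 16226824)))))) (a (b (l 16139704) (a (l 16198472) (l 16157736))) (a (b (c (a (l 16114224) (l 16166880)) (l 16129184))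 (l 16155080)) (b (c (l 16255776) (l 16247608)) (l 16270504))))) (b (a (b (c (l 16051104) (a (l 16062056) (l 16027008))) (c (l 16088648) (l 16075496))) (a (b (a (l 15950176) (c (b (l 16087440) (l 16096744)) (b (b (l 16075488) (l 16080896)) (l 16093952)))) (c (b (l 16089848) (l 16099952)) (l 16079104))) (b (c (b (l 16172928) (l 16184280)) (b (c (l 16168240) (l 15997352)) (l 16182048))) (c (l 16208632) (l 16194264))))) (a (a (l 16151840) (l 16025424)) (a (a (l 16087776) (l 16137992)) (l 16226304)))))), by decide +kernel⟩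

def k2_B07mm_202_s1 : ∃ t, chk3 f_B07mm_202_s1 t 6 33 1 = true :=
  ⟨(c (a (a (b (c (l 16290552) (l 16275552)) (b (l 16334088) (l 16271928))) (b (c (b (l 16226928) (c (l 16288176) (l 16200920))) (b (a (l 16235008) (l 16127896)) (l 16248120))) (c (b (l 16233544) (l 16334968)) (l 16269744)))) (b (c (c (a (l 16250224) (l 16263656)) (b (l 16115384) (a (l 16281840) (l 16378560)))) (c (a (l 16035288) (l 16260984)) (l 16271688))) (a (c (l 16324224) (l 16265400)) (c (a (l 16380040) (l 16344872)) (l 16267112))))) (a (c (a (b (l 16233080) (l 16201272)) (b (l 16022360) (l 16230928))) (a (l 16246424) (l 16109392))) (c (a (b (l 16182384) (l 16223800)) (b (l 16279616) (l 16301824))) (a (l 16186888) (l 16275424))))), by decide +kernel⟩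

def k3_B07mm_202_s1 : ∃ t, chk3 f_B07mm_202_s1 t 7 32 2 = true :=
  ⟨(a (a (c (b (l 16215048) (b (b (l 16292568) (a (l 16198840) (l 16157992))) (a (l 16325552) (a (l 16362072) (c (b (l 16335368) (l 16375976)) (l 16331632)))))) (b (c (l 16321328) (b (l 16330560) (l 16241112))) (b (c (b (l 16329800) (l 16359808)) (l 16366392)) (c (l 16414232) (l 16340944))))) (b (a (a (c (l 16354880) (b (l 14) (c (l 16386440) (l 16406040)))) (l 14)) (l 14)) (c (b (a (c (b (l 16355688) (c (l 16347200) (l 16359984))) (b (l 16291080) (a (l 16374952) (c (l 16391504) (l 16414760))))) (l 14)) (b (a (c (a (l 16274928) (l 16393896)) (l 16264584)) (l 14)) (a (c (l 16415664) (l 16387400)) (c (l 16500432) (l 16534944))))) (b (a (c (l 16258760) (l 16468488)) (l 14)) (b (a (c (a (l 16473656) (l 16419656)) (l 16521664)) (l 14)) (c (a (a (l 16514048) (l 16455712)) (l 16412656)) (a (l 16460184) (c (l 16533576) (l 16619400))))))))) (l 14)), by decide +kernel⟩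

def k4_B07mm_202_s1 : ∃ t, chk3 f_B07mm_202_s1 t 7 33 2 = true :=
  ⟨(a (c (a (b (c (b (a (l 16302216) (l 16260416)) (a (c (l 16457672) (l 16393248)) (l 16323624))) (b (a (l 16429760) (c (l 16387656) (l 16414640))) (a (l 16389448) (l 16437936)))) (a (l 16389152) (b (l 16422584) (l 16508216)))) (b (c (a (b (l 16473456) (l 16521232)) (b (l 16537832) (l 16483840))) (a (b (b (l 16423152) (l 16453168)) (l 16466960)) (b (l 16487248) (l 16509928)))) (a (b (l 16455472) (a (l 16527152) (l 16551448))) (b (a (l 16486920) (l 16512048)) (a (l 16581320) (l 16529840)))))) (a (b (b (b (l 16367200) (l 16378200)) (l 16378776)) (a (l 16432184) (l 16395424))) (b (a (c (b (c (a (l 16464264) (l 16486256)) (l 16479072)) (l 16558272)) (l 16542856)) (c (b (a (l 16509120) (l 14)) (a (l 16598048) (l 16540104))) (b (l 16612552) (l 16529016)))) (a (b (l 16538032) (a (l 16519968) (l 16552872))) (a (b (l 16590672) (l 16591976)) (b (l 16540352) (b (l 16632992) (l 16552680)))))))) (a (b (l 14) (a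 (a (c (b (b (l 16621856) (l 16632560)) (l 16560608)) (b (c (l 16576360) (l 16668264)) (c (c (l 16588944) (l 16681304)) (l 16586440)))) (b (l 14) (c (l 16583880) (c (l 16699136) (l 16620024))))) (l 14))) (l 14))), by decide +kernel⟩

def k5_B07mm_202_s1 : ∃ t, chk3 f_B07mm_202_s1 t 7 16 3 = true :=
  ⟨(a (b (b (a (c (b (l 16315632) (c (b (l 16316392) (l 16335856)) (b (l 16323576) (l 16352880)))) (b (b (c (l 16301040) (b (l 16123704) (l 16127272))) (c (l 16142280) (l 16308600))) (c (l 16334760) (l 16320272)))) (a (b (l 14) (a (b (l 14) (c (l 16337256) (l 16422632))) (l 14))) (l 14))) (c (b (a (c (l 16381632) (l 16373776)) (a (a (l 16374272) (l 16415488)) (l 14))) (a (l 16396040) (c (a (l 16515496) (l 16516736)) (l 16446696)))) (a (l 16351360) (a (l 16455296) (l 16457552))))) (a (c (b (b (l 16399120) (l 16242096)) (a (l 16309504) (c (l 16367376) (l 16444752)))) (a (l 16361400) (l 16344184))) (c (b (a (c (l 16435632) (b (l 16487080) (l 16499208))) (b (c (l 16508624) (l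 16446600)) (c (a (l 16567744) (l 16615648)) (a (l 16552976) (b (l 16587200) (l 16598600)))))) (a (b (c (l 16420968) (l 16500488)) (c (a (l 16501912) (l 16537064)) (l 16433328))) (a (c (b (l 16572408) (l 16485312)) (l 16567384)) (b (c (l 16610528) (l 16600272)) (b (l 16615184) (l 16617872)))))) (b (a (l 16484624) (b (l 16479240) (a (l 16557088) (l 16519248)))) (a (a (l 16501280) (l 16449960)) (a (b (l 16565272) (l 16570688)) (b (l 16602760) (l 16614760)))))))) (b (l 14) (a (a (b (l 14) (a (c (c (b (b (l 16652560) (l 16571352)) (c (b (l 16658848) (l 16658800)) (l 16656064))) (b (l 16648704) (l 16655736))) (b (l 16648056) (l 16654960))) (b (l 14) (c (c (c (l 16608144) (l 16687776)) (l 16687568)) (l 16687024))))) (l 14)) (l 14)))), by decide +kernel⟩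

def k6_B07mm_202_s1 : ∃ t, chk3 f_B07mm_202_s1 t 6 17 1 = true :=
  ⟨(c (a (b (c (a (l 16326976) (l 16370696)) (a (b (l 16184824) (l 16386616)) (l 16158896))) (c (a (b (l 16449696) (l 16388088)) (b (l 16246584) (c (l 16268192) (l 16430992)))) (a (l 16447456) (b (l 16381448) (l 16429472))))) (c (a (b (b (l 16356032) (l 16291168)) (b (c (l 16389960) (l 16290320)) (a (b (l 16388976) (l 16405632)) (b (l 16419248) (l 16433376))))) (a (b (l 16319960) (b (b (l 16420384) (l 16433928)) (b (l 16446480) (l 16465288)))) (b (b (l 16424576) (b (l 16428800) (l 16438032))) (b (b (l 16447864) (l 16462360)) (l 16490928))))) (b (a (b (l 16295520) (a (l 16315184) (l 16355032))) (b (c (l 16375472) (l 16230896)) (a (l 16292816) (b (l 16388216) (l 16418096))))) (a (b (l 16284776) (a (l 16386360) (l 16422024))) (b (a (b (l 16390344) (l 16422096)) (l 16436264)) (a (l 16442640) (l 16485000))))))) (a (b (a (c (l 16270496) (l 16351336)) (c (l 16308760) (l 16305064))) (a (l 16359592) (c (l 16402456)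 (l 16395104)))) (b (a (c (l 16296136) (l 16292168)) (b (c (l 16346072) (l 16333944)) (a (l 16376528) (a (l 16393496) (l 16411808))))) (b (a (c (l 16368632) (l 16362776)) (a (b (l 16398968) (l 16419088)) (c (l 16437640) (l 16435056)))) (a (a (l 16391896) (c (l 16417248) (l 16416520))) (a (l 16358000) (l 16480728))))))), by decide +kernel⟩

def k7_B07mm_202_s1 : ∃ t, chk3 f_B07mm_202_s1 t 14 34 1 = true :=
  ⟨(c (c (a (b (a (l 16455776) (b (l 16428408) (l 16501024))) (a (b (l 16454872) (l 16463200)) (b (l 16503000) (l 16509352)))) (b (a (a (b (l 16535224) (l 16545584)) (l 16480624)) (c (b (l 16523800) (a (l 16609704) (l 16640680))) (b (a (l 16613248) (l 16557144)) (l 16553592)))) (c (a (a (l 16564032) (l 16596904)) (a (l 16631736) (l 16577216))) (a (b (l 16566384) (l 16565312)) (b (l 16561680) (l 16647688)))))) (a (b (a (c (l 16423752) (l 16321680)) (c (l 16361184) (b (l 16392400) (l 16379976)))) (a (b (a (l 16422064) (l 16439624)) (l 16352416)) (b (a (l 16465320) (l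 16496808)) (l 16488400)))) (b (a (b (a (l 16517168) (l 16556768)) (l 16541816)) (c (b (l 16542848) (l 16542320)) (b (a (l 16507088) (c (l 16634088) (l 16626608))) (a (l 16593864) (l 16634256))))) (c (a (b (a (l 16530664) (l 16568904)) (l 16467440)) (b (l 16545208) (l 16547488))) (a (l 16545584) (a (l 16603600) (l 16644600))))))) (b (a (a (c (l 16399984) (l 16401608)) (c (b (a (l 16439680) (l 16474984)) (l 16463784)) (l 16382328))) (b (a (a (c (l 16499240) (l 16501024)) (l 16541288)) (c (l 16519856) (l 16602528))) (a (l 16531184) (a (l 16589984) (l 16630680))))) (a (a (c (a (l 16420600) (l 16437608)) (l 16433992)) (a (b (l 16453608) (l 16469344)) (l 16492664))) (a (a (l 16525656) (l 16560928)) (a (l 16601688) (l 16643240)))))), by decide +kernel⟩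

def k8_B07mm_202_s1 : ∃ t, chk3 f_B07mm_202_s1 t 14 35 1 = true :=
  ⟨(c (c (a (b (a (l 16490216) (c (l 16449496) (b (a (l 16499552) (l 16520928)) (l 16523056)))) (b (c (a (l 16520056) (l 16551600)) (l 16525568)) (a (l 16447960) (l 16566104)))) (c (a (b (l 16501864) (b (l 16511496) (l 16522288))) (b (a (l 16646304) (b (l 16683904) (b (l 16688552) (l 16605256)))) (b (a (l 16647872) (c (l 16692624) (b (l 16596448) (l 16596496)))) (c (b (a (l 16648632) (l 16604768)) (a (a (l 16642816) (l 16659760)) (l 16606272))) (a (l 16648032) (l 16685424)))))) (b (a (b (l 16483440) (l 16571616)) (b (l 16565000) (a (l 16629096) (b (l 16668392) (a (l 16660352) (l 16681496)))))) (a (l 16594360) (a (l 16559248) (b (l 16676760) (l 16685080))))))) (a (b (a (l 16476696) (l 16511648)) (a (l 16519448) (l 16550344))) (a (b (l 16561616) (l 16592944)) (b (a (l 16620920) (b (l 16657720) (l 16667720))) (a (l 16558224) (b (l 16676096) (l 16684360))))))) (a (a (b (l 16472640) (l 16515648)) (b (a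 (l 16499288) (l 16515904)) (l 16504960))) (a (b (a (l 16540624) (l 16578128)) (a (l 16575568) (l 16603304))) (a (b (l 16619016) (c (l 16556832) (b (l 16631536) (l 16643800)))) (b (c (l 16662992) (l 16578000)) (c (b (l 16675072) (l 16683408)) (b (l 16674056) (l 16682448)))))))), by decide +kernel⟩

def k9_B07mm_202_s1 : ∃ t, chk3 f_B07mm_202_s1 t 60 34 4 = true :=
  ⟨(b (a (c (l 16576432) (b (l 16591416) (l 16604584))) (b (c (l 16673256) (l 16613192)) (c (l 16691336) (l 16628736)))) (c (a (b (l 16688040) (l 16618488)) (b (b (l 16620536) (l 16627736)) (a (l 16720312) (l 16641128)))) (a (b (l 16620192) (b (l 16626112) (a (l 16700536) (l 16721640)))) (c (b (l 16682696) (b (l 16653456) (a (l 16740640) (l 16748136)))) (b (b (l 16732920) (a (l 16733504) (l 16742368))) (a (l 16732744) (l 16701560))))))), by decide +kernel⟩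

def k10_B07mm_202_s1 : ∃ t, chk3 f_B07mm_202_s1 t 61 68 4 = true :=
  ⟨(a (a (b (c (l 16688440) (l 16705792)) (c (b (l 16661160) (c (l 16708576) (l 16712512))) (l 16639136))) (b (l 14) (c (b (c (l 16716928) (l 16677936)) (c (l 16727008) (l 16727712))) (a (l 16642008) (l 16646896))))) (a (b (l 14) (b (l 14) (c (c (l 16659504) (l 16745176)) (a (l 16655912) (l 16706088))))) (l 14))), by decide +kernel⟩

def k11_B07mm_202_s1 : ∃ t, chk3 f_B07mm_202_s1 t 61 69 4 = true :=
  ⟨(a (c (b (a (b (l 16633672) (l 16724280)) (a (l 16649104) (l 16657480))) (a (c (l 16731312) (l 16651728)) (a (c (l 16745304) (l 16701248)) (l 514590799)))) (b (c (a (l 16646536) (l 16716880)) (b (l 16699512) (a (l 16749064) (l 16710416)))) (b (a (c (l 16743848) (l 16753616)) (a (c (l 16746232) (l 16716984)) (c (l 16708312) (l 16740080)))) (c (a (l 16668792) (a (l 16670744) (c (l 16734520) (l 16718048)))) (a (l 16754728) (l 522200399)))))) (a (a (a (b (c (l 16706224) (c (l 16744888) (c (l 16747008)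 (l 16753752)))) (c (l 518599759) (c (b (l 16712816) (c (l 16740184) (l 16741816))) (b (l 16720328) (l 524389199))))) (b (c (l 16731328) (c (l 16749688) (c (l 16665512) (l 16712440)))) (c (l 517947855) (c (l 519013455) (b (c (l 16719240) (l 16765816)) (l 524371535)))))) (c (b (b (l 16713152) (l 16760992)) (b (l 517702095) (l 517774799))) (c (b (l 16735960) (b (l 516722511) (l 518841679))) (b (b (l 16732080) (c (l 16716784) (b (l 16717488) (l 16742488)))) (b (c (a (c (l 16742840) (l 16722824)) (l 519055439)) (b (l 16745736) (l 525525967))) (l 522271311)))))) (a (c (b (b (b (l 14) (l 16764080)) (l 519962127)) (b (l 520043535) (l 520111119))) (b (b (l 518659407) (l 514735951)) (b (c (l 516646479) (l 519094863)) (c (l 518766159) (c (l 519151951) (l 525683151)))))) (b (b (l 14) (c (l 519889423) (c (l 520276495) (l 516830543)))) (b (c (l 519971087) (c (l 517950927) (l 519015503))) (l 3)))))), by decide +kernel⟩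

def k12_B07mm_202_s1 : ∃ t, chk3 f_B07mm_202_s1 t 60 34 5 = true :=
  ⟨(c (a (b (l 16604800) (b (l 16608552) (b (l 16691736) (a (l 16683552) (l 16620816))))) (b (b (a (l 16711552) (l 16630776)) (l 16721704)) (b (a (l 16719240) (c (l 16693768) (b (l 16639928) (l 16640024)))) (c (b (a (l 16636728) (l 16648664)) (a (l 16636744) (l 16649496))) (l 16722752))))) (b (b (a (l 16589208) (l 16705872)) (a (l 16675496) (l 16623816))) (a (b (l 16681792) (l 16691128)) (b (l 16714808) (l 16722624))))), by decide +kernel⟩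

def k13_B07mm_202_s1 : ∃ t, chk3 f_B07mm_202_s1 t 61 34 5 = true :=
  ⟨(b (a (b (a (c (l 16640464) (l 16724752)) (l 14)) (c (a (c (b (l 16737760) (l 16743896)) (b (l 16739472) (l 16737800))) (c (b (l 16740416) (l 16749728)) (c (b (l 16750544) (l 16753392)) (l 16663176)))) (c (c (b (l 16735552) (a (l 16644040) (l 16656400))) (b (a (l 16639784) (l 16651360)) (l 16731464))) (l 16645480)))) (c (b (l 14) (a (b (l 14) (c (l 16732320) (c (l 16761448) (l 16758592)))) (l 14))) (b (l 14) (a (b (l 14) (a (l 522489231) (l 522437519))) (l 14))))) (c (a (b (a (c (b (l 16746712) (l 16747056)) (b (l 16651616) (l 16652592))) (c (b (c (l 16755680) (l 16756912)) (l 16715048)) (b (l 16727520) (l 520539279)))) (c (a (b (l 16661504) (l 16724936)) (b (l 518470735) (l 522408591))) (l 16664408))) (c (a (b (b (c (l 16716320) (a (l 16762888) (l 16765000))) (b (c (l 16764016) (l 522248527)) (l 522222927))) (a (l 514900047) (b (l 522610511) (l 522654799)))) (b (b (a (c (a (l 16739616) (c (l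 16742192) (l 16722248))) (l 16745408)) (l 14)) (c (a (a (l 16746704) (b (l 16769056) (l 16750872))) (l 517224271)) (a (l 522546767) (l 522491983)))) (a (b (l 516526671) (l 518574415)) (a (b (l 522556751) (l 3)) (l 3))))) (a (b (b (c (l 16720320) (l 518416783)) (c (l 514541391) (l 16760072))) (b (l 16743888) (l 521961743))) (b (a (b (l 522626127) (l 522659663)) (b (l 14) (l 518585167))) (a (l 524401551) (b (l 522606415) (l 3))))))) (a (b (l 16696192) (l 16706312)) (a (b (c (l 16673744) (l 16673760)) (a (l 16743120) (l 522250255))) (a (b (l 518354063) (l 522192399)) (b (b (l 14) (l 522150671)) (l 520790031))))))), by decide +kernel⟩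

def k14_B07mm_202_s1 : ∃ t, chk3 f_B07mm_202_s1 t 60 35 4 = true :=
  ⟨(c (a (a (b (b (c (l 16710712) (l 16631680)) (c (b (l 16721672) (l 16640904)) (l 16714232))) (b (c (l 16724072) (l 16628536)) (b (c (l 16721016) (l 16715464)) (l 16679152)))) (b (c (b (l 16722000) (l 16738176)) (b (b (l 16731688) (l 16735296)) (l 16735400))) (b (c (l 16743240) (b (l 16648752) (l 16649416))) (c (b (l 16658448) (a (l 16737696) (l 16706368))) (l 16739080))))) (c (b (b (l 16648320) (b (l 16703112) (a (l 16751360) (l 16712896)))) (b (b (a (l 16755616) (c (l 16675352) (l 16763256))) (a (l 16756928) (l 524029519))) (a (l 518207567) (b (l 522132047) (l 522162767))))) (b (a (b (l 16742784) (l 16749032)) (b (c (l 16744352) (l 16751584)) (b (l 16757184) (l 524142927)))) (b (a (l 518343247) (l 516277839)) (a (l 16755312) (l 524126351)))))) (a (c (b (b (l 16632208) (b (a (l 16701904) (l 16639184)) (l 16670720))) (l 16639680)) (b (b (b (a (l 16692536) (l 16629936)) (a (l 16693720) (l 16630040)))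 (l 16708488)) (l 16639552))) (a (b (b (c (l 16741504) (l 518502543)) (c (l 520367247) (l 16735944))) (c (l 16729456) (l 16708424))) (b (b (b (c (l 16751896) (l 16742288)) (l 518356559)) (a (l 522432399) (l 520548687))) (b (l 16737232) (l 521938447)))))), by decide +kernel⟩

def k15_B07mm_202_s1 : ∃ t, chk3 f_B07mm_202_s1 t 61 35 4 = true :=
  ⟨(a (b (a (b (c (c (a (l 16655960) (l 16705528)) (b (l 16726432) (b (l 16732760) (l 16736800)))) (b (c (c (l 16757848) (l 16760600)) (l 520433743)) (l 518293583))) (c (c (a (b (c (l 16748312) (l 16669008)) (c (l 16735784) (l 16718624))) (a (c (l 518798671) (b (l 16756120) (l 16721768))) (l 518867279))) (b (a (l 16761312) (c (l 16740376) (l 16765376))) (l 522052687))) (b (l 518349135) (l 522370383)))) (b (c (a (c (l 516640079) (c (l 516843087) (b (l 16712384) (c (l 16740488) (l 16720944))))) (b (l 516591951) (l 518688847))) (b (c (c (a (l 16675680) (c (l 16741768) (l 16742952))) (l 522004815)) (l 520359247)) (c (l 518047823) (l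 520419151)))) (c (c (a (l 518782799) (l 516698191)) (c (a (l 518208143) (l 517008207)) (a (l 522225231) (l 527426511)))) (c (a (l 518450767) (b (l 522367055) (l 522413135))) (l 520242831))))) (b (c (a (c (b (b (a (l 16743176) (a (l 16747016) (l 518856207))) (l 522945231)) (l 519894351)) (a (l 522374479) (l 518315087))) (a (b (c (l 518907215) (l 522241871)) (l 3)) (l 3))) (a (l 522164623) (a (l 522402127) (l 3)))) (a (c (c (a (l 516168271) (l 518125647)) (l 518167375)) (l 521807375)) (l 3)))) (b (a (a (c (b (c (l 520304911) (l 512770639)) (b (l 514703951) (l 3))) (b (c (c (l 519132495) (l 522298703)) (b (l 522489423) (l 522545999))) (c (b (l 522309967) (l 3)) (l 522527823)))) (b (c (c (l 520240399) (l 512702543)) (c (b (l 516992847) (b (l 519141199) (l 3))) (b (l 518414415) (l 520484431)))) (l 3))) (l 3)) (l 3))), by decide +kernel⟩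

def k16_B07mm_202_s1 : ∃ t, chk3 f_B07mm_202_s1 t 30 35 5 = true :=
  ⟨(a (b (b (b (a (l 16697968) (l 16730032)) (a (l 16702192) (l 16734960))) (a (l 16708120) (l 16700136))) (a (c (l 16639360) (l 16639096)) (a (b (l 16745344) (c (l 16755168) (l 16755064))) (c (b (l 16716272) (l 521871631)) (b (l 16716184) (l 521804559)))))) (a (b (c (a (b (l 16751488) (l 522075407)) (b (a (l 16719056) (l 522320655)) (a (l 522103311) (l 522047759)))) (a (b (l 16751480) (l 521474063)) (b (a (l 16761040) (l 522167823)) (a (l 522039567) (l 521983759))))) (a (b (c (l 521905167) (l 521839119)) (c (l 521740047) (l 521672463))) (b (c (a (l 521928719) (l 3)) (l 521159695)) (l 3)))) (a (b (a (b (c (l 524510863) (l 522112015)) (c (l 521990671) (l 521926671))) (b (c (l 520643919) (l 522054671)) (l 3))) (l 3)) (l 3)))), by decide +kernel⟩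

def k17_B07mm_202_s1 : ∃ t, chk3 f_B07mm_202_s1 t 31 17 2 = true :=
  ⟨(b (b (l 14) (a (a (a (b (b (l 14) (b (l 14) (l 3))) (l 3)) (l 3)) (l 3)) (l 3))) (l 3)), by decide +kernel⟩

def k18_B07mm_202_s1 : ∃ t, chk3 f_B07mm_202_s1 t 15 17 3 = true :=
  ⟨(a (b (a (a (b (c (l 16667904) (l 16667528)) (b (l 16680848) (c (l 16690544) (l 16689768)))) (b (c (l 16616024) (l 16699840)) (b (c (l 16714536) (l 16714016)) (c (l 16638384) (l 16637920))))) (b (b (a (a (c (l 16713952) (l 16713840)) (l 14)) (l 14)) (a (c (a (l 16723744) (l 16735112)) (a (l 16723304) (l 16734768))) (a (c (l 16748088) (l 16747848)) (l 14)))) (b (a (c (a (l 16731960) (l 16744928)) (a (l 16731584) (l 16744656))) (c (a (c (l 16673696) (l 16673616)) (b (a (l 16754168) (l 14)) (c (a (l 522153487) (l 522089487)) (l 520139279)))) (a (c (l 16673536) (l 16673456)) (a (l 522195215) (l 521330959))))) (a (a (c (l 16741752) (l 16741456)) (a (l 522262031) (l 522208527))) (a (a (l 522153743) (l 522097679)) (a (b (l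 521971471) (l 521881871)) (a (l 522050575) (l 3)))))))) (a (b (a (c (b (l 16699592) (l 16707472)) (b (l 16698888) (l 16622936))) (a (c (l 16730648) (l 16730248)) (b (l 521088271) (l 521980943)))) (a (a (c (l 16711792) (l 16711152)) (c (l 16649576) (l 16691120))) (a (b (l 521929999) (l 521761551)) (b (l 521806351) (l 521636879))))) (a (b (a (b (c (l 16751312) (l 16667208)) (a (l 521989135) (l 521934863))) (b (a (l 522066447) (l 522011663)) (a (l 521879823) (l 521823759)))) (a (b (l 520869135) (l 521504015)) (b (a (l 521699855) (l 3)) (l 3)))) (a (b (b (a (l 521955599) (l 521897999)) (a (l 521766671) (l 3))) (l 3)) (l 3))))) (b (a (a (b (l 14) (b (b (l 14) (b (l 14) (l 3))) (l 3))) (l 3)) (l 3)) (l 3))), by decide +kernel⟩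

def k19_B07mm_202_s1 : ∃ t, chk3 f_B07mm_202_s1 t 12 9 1 = true :=
  ⟨(b (c (b (c (b (a (l 16421648) (l 16362976)) (a (l 16519464) (l 16408600))) (a (l 16425952) (b (l 16450632) (l 16403656)))) (a (c (b (l 16542432) (l 16551480)) (b (l 16542552) (l 16548088))) (a (l 16422840) (l 16491232)))) (b (a (c (l 16506120) (l 16500368)) (b (c (l 16452224) (l 16450240)) (a (l 16492352) (l 16462144)))) (a (c (l 16469808) (l 16469176)) (a (l 16419712) (l 16486016))))) (c (b (a (b (a (l 16483704) (l 16553152)) (l 16588576)) (b (c (l 16519568) (l 16517176)) (l 16542592))) (a (l 16636904) (l 16501152))) (b (a (b (a (l 16567840) (l 16549592)) (l 16585960)) (b (a (l 16525760) (l 16500184)) (l 16538352))) (a (l 16635616) (l 16497984))))), by decide +kernel⟩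

def k20_B07mm_202_s1 : ∃ t, chk3 f_B07mm_202_s1 t 13 9 1 = true :=
  ⟨(b (a (c (b (c (b (a (l 16426616) (l 16445776)) (l 16379752)) (b (a (l 16426840) (l 16446240)) (l 16463768))) (a (c (l 16484928) (l 16482120)) (c (l 16516304) (l 16513816)))) (b (b (a (l 16339544) (l 16445624)) (a (l 16448080) (l 16483640))) (a (l 16477880) (l 16468104)))) (c (b (b (a (l 16489336) (c (l 16524288) (l 16521976))) (c (l 16533136) (l 16530840))) (a (c (l 16545536) (l 16543304)) (c (l 16578384) (l 16576464)))) (b (b (a (l 16484304) (l 16518336)) (a (l 16514928) (l 16541384))) (a (l 16456040) (l 16573552))))) (c (b (a (b (c (l 16508400) (l 16505648)) (l 16531712)) (b (c (l 16578200) (l 16576160)) (a (l 16582288) (a (l 16608888) (l 16585344))))) (a (a (l 16561736) (l 16592880)) (a (b (l 16612504) (a (l 16633016) (l 16650984))) (b (c (l 16566304) (l 16607000)) (c (l 16677488) (l 16676568)))))) (a (b (b (a (l 16486888) (l 16520000)) (l 16526752)) (a (l 16557624) (l 16589368))) (a (b (b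 (l 16555768) (l 16578320)) (b (l 16609288) (c (l 16640480) (l 16639248)))) (b (b (l 16591616) (c (l 16616016) (l 16614376))) (b (c (a (l 16637536) (l 16656056)) (a (l 16636184) (l 16654872))) (c (l 16591760) (a (l 16665568) (l 16685328))))))))), by decide +kernel⟩

def k21_B07mm_202_s1 : ∃ t, chk3 f_B07mm_202_s1 t 28 18 1 = true :=
  ⟨(c (b (c (b (a (l 16553104) (l 16587720)) (l 16509000)) (b (l 16482536) (l 16591104))) (a (c (l 16605608) (l 16603896)) (a (b (l 16617384) (c (l 16636208) (l 16634720))) (b (c (l 16551328) (l 16633752)) (c (b (l 16648584) (l 16663296)) (l 16654032)))))) (b (b (a (l 16547728) (l 16583112)) (a (l 16573520) (l 16604128))) (a (c (l 16602152) (l 16600408)) (b (a (l 16614296) (c (l 16632240) (l 16546840))) (c (a (l 16633208) (l 16568800)) (a (b (l 16626360) (l 16634784)) (b (l 16644384) (l 16659560)))))))), by decide +kernel⟩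

def k22_B07mm_202_s1 : ∃ t, chk3 f_B07mm_202_s1 t 29 36 1 = true :=
  ⟨(c (b (a (b (c (l 16619752) (l 16618256)) (a (l 16617200) (c (l 16642872) (l 16641544)))) (b (c (b (a (l 16655824) (l 16690936)) (a (l 16660320) (l 16693848))) (a (l 16656992) (l 16691944))) (c (a (l 16670464) (c (l 16620648) (l 16620264))) (a (l 16669392) (l 514048847))))) (c (b (a (a (l 16627960) (a (l 16645560) (l 16661256))) (a (l 16687728) (a (l 16714504) (b (l 16727976) (l 16737088))))) (a (a (l 16637992) (l 16667168)) (a (l 16702728) (c (a (l 16729904) (l 16727048)) (l 515758351))))) (a (a (b (l 16626464) (l 16636568)) (b (l 16567664) (l 16666040))) (a (b (l 16686824) (l 16701968)) (a (l 511166095) (l 512990351)))))) (b (a (a (l 16609176) (b (l 16628168) (c (l 16640128) (l 16638704)))) (b (c (a (l 16655720) (l 16607152)) (a (l 16654456) (l 16606248))) (c (a (l 16668240) (l 515842383)) (a (l 16667088) (l 515622735))))) (a (a (c (b (l 16624888) (l 16635072)) (b (l 16623312) (l 16633584)))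 (c (b (l 16608272) (l 16664848)) (b (a (l 16641400) (l 16657592)) (l 16663664)))) (a (c (b (l 16685872) (l 16701168)) (b (l 16684912) (l 16700368))) (c (a (l 512918671) (l 512728975)) (a (l 512658319) (l 512467343))))))), by decide +kernel⟩

def k23_B07mm_202_s1 : ∃ t, chk3 f_B07mm_202_s1 t 29 37 1 = true :=
  ⟨(c (a (b (c (a (b (l 16647696) (l 16662272)) (c (l 16689016) (l 16688536))) (a (b (l 16646336) (l 16661048)) (l 16645880))) (a (c (l 518545359) (l 16598616)) (c (a (l 16666400) (l 516569871)) (l 516343823)))) (b (c (c (a (b (l 16717288) (c (l 16689640) (l 16689520))) (c (a (b (l 16660384) (l 516175119)) (b (l 516010255) (l 516021775))) (b (l 514797327) (l 515887119)))) (a (l 515930639) (a (l 516088079) (l 515936783)))) (a (b (l 16674544) (l 515979279)) (a (l 515921935) (l 515770383)))) (c (a (l 516243983) (a (l 516127503) (a (l 516045071) (l 3)))) (a (l 516024335) (a (l 515908111) (l 515755023)))))) (b (a (a (b (c (l 16644920) (l 16643512)) (l 516011471)) (c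 (l 16602976) (l 515910927))) (a (c (b (l 16673896) (l 515756303)) (b (l 515520271) (l 515533071))) (c (a (l 515700751) (l 515548431)) (a (l 515479567) (l 515326479))))) (a (a (c (l 16597592) (l 517953743)) (c (l 516121871) (l 515899919))) (a (a (l 515873551) (l 515724559)) (a (l 515573263) (c (l 515531279) (l 515307279))))))), by decide +kernel⟩

def k24_B07mm_202_s1 : ∃ t, chk3 f_B07mm_202_s1 t 14 19 1 = true :=
  ⟨(c (a (a (c (b (b (a (l 16620632) (l 16553568)) (a (l 16648048) (l 16669624))) (b (l 16649544) (l 525573903))) (b (b (a (l 16618968) (l 16635944)) (a (l 16646688) (l 16668488))) (b (l 524754575) (l 525472015)))) (a (b (b (c (l 16573272) (l 16655840)) (l 518965839)) (b (l 524673679) (l 525371151))) (b (b (c (l 16642736) (l 16683664)) (c (l 520865103) (l 520696399))) (b (l 523796559) (l 525193999))))) (a (b (b (c (a (a (l 16662608) (l 516565455)) (a (l 516758287) (l 516614159))) (a (l 514354127) (a (l 516537359) (l 516392719)))) (c (a (l 518901711) (a (l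 519129615) (l 519000335))) (a (l 520751311) (l 517192975)))) (a (b (l 523620943) (l 526211215)) (b (c (l 521436239) (l 523327567)) (l 3)))) (a (b (b (c (l 516291599) (l 516067855)) (a (c (l 518869519) (l 518682639)) (l 3))) (l 3)) (l 3)))) (a (a (a (b (b (l 16616472) (c (l 16645336) (l 16560096))) (c (l 523821455) (l 523726479))) (b (b (c (l 16634424) (b (l 16627248) (l 16636728))) (c (l 16667352) (b (l 16658736) (l 16678968)))) (c (l 523677839) (l 523582607)))) (a (b (b (a (c (l 16648208) (l 16646816)) (l 516485071)) (l 518630223)) (b (l 524449423) (l 525168143))) (b (b (c (l 16598760) (l 518206927)) (c (l 520527951) (l 520359247))) (b (l 523554895) (l 524989711))))) (a (b (b (a (c (l 516167887) (b (l 517884623) (l 518014671))) (c (l 515090959) (a (l 516093967) (l 515948047)))) (a (c (l 520587727) (l 518410959)) (c (l 518616591) (b (l 517512207) (l 519266319))))) (a (b (l 521365071) (l 526045839)) (b (c (l 523205455) (l 521069903)) (l 3)))) (b (a (a (b (l 515911439)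 (c (l 518496015) (l 518309391))) (b (l 515761679) (l 3))) (l 3)) (l 3))))), by decide +kernel⟩

def k25_B07mm_202_s1 : ∃ t, chk3 f_B07mm_202_s1 t 15 9 1 = true :=
  ⟨(b (c (b (a (a (c (c (a (b (b (b (l 16650464) (l 16695352)) (c (a (l 16711880) (l 516054607)) (a (l 16711760) (l 516000591)))) (c (a (b (l 511152271) (l 515830287)) (l 508279119)) (a (l 513093263) (l 508217935)))) (b (a (b (l 522891407) (l 518578703)) (b (l 516930127) (l 520517263))) (a (b (b (l 513527759) (l 3)) (l 3)) (l 3)))) (a (c (b (a (l 513304399) (l 509096271)) (a (l 513027727) (l 508155983))) (b (a (l 513254223) (l 509045839)) (a (l 512961935) (l 512120911)))) (b (a (b (l 520753167) (l 518488591)) (b (l 520621071) (l 518341391))) (a (a (l 512078671) (l 3)) (l 3))))) (a (b (b (b (l 16649960) (l 516460239)) (l 507549007)) (a (l 512797839) (l 509953103))) (b (a (b (c (l 520676623) (l 520599823)) (l 518347791)) (b (c (l 520544015) (l 520466959)) (c (l 518247183) (l 518152719)))) (a (l 506264143)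 (l 3))))) (l 3)) (l 3)) (b (b (a (a (a (a (c (c (c (l 515854095) (l 515798799)) (l 515715087)) (l 515547663)) (l 3)) (l 3)) (l 3)) (l 3)) (l 3)) (l 3))) (a (a (b (a (b (a (b (l 515121615) (l 515620431)) (b (l 514913999) (l 513410127))) (a (b (l 510399631) (l 515190543)) (b (l 511605583) (l 510022287)))) (b (a (b (l 520407823) (l 518065935)) (b (l 520274191) (l 517917199))) (a (b (l 511435599) (l 3)) (l 3)))) (a (b (b (a (l 515212559) (l 3)) (l 3)) (l 3)) (l 3))) (l 3)) (l 3))) (l 3)), by decide +kernel⟩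

def k26_B07mm_202_s1 : ∃ t, chk3 f_B07mm_202_s1 t 2 5 1 = true :=
  ⟨(a (a (l 6) (a (b (l 6) (l 6)) (b (l 6) (b (c (l 16658352) (l 16655264)) (c (l 16777072) (l 16735128)))))) (b (c (b (b (a (a (l 6) (c (l 16586024) (l 16582320))) (a (l 16609744) (l 16633848))) (a (a (l 6) (l 16558296)) (a (l 16575400) (l 16524440)))) (a (a (b (l 16522568) (l 16520312)) (b (l 16536824) (l 16536208))) (a (b (l 16563544) (l 16571288)) (b (l 16604320) (l 16612992))))) (b (b (a (a (l 6) (c (l 16573256) (l 16570552))) (a (c (l 16604296) (l 16602504)) (l 16632176))) (a (a (l 6) (a (l 16548520) (l 16552376))) (a (l 16571376) (l 16521488)))) (c (a (a (l 16521512) (l 16532536)) (a (l 16564168) (l 16611048))) (a (b (l 16370656) (l 16522072)) (a (l 16561696) (l 16609272)))))) (a (b (c (a (l 16570856) (b (l 16593984) (l 16708120))) (a (l 16483792) (b (l 16589232) (l 16706328)))) (c (c (l 16777032) (l 16777024)) (c (l 16777024) (l 16777024)))) (b (c (a (b (l 16603760) (l 16705936)) (b (l 16550312)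 (a (l 16704400) (l 16623472)))) (a (b (l 16599304) (l 16620200)) (b (c (l 16631512) (l 16629720)) (a (l 16702504) (l 16621664))))) (a (c (c (l 16777024) (l 16777016)) (c (l 16777016) (l 16777016))) (c (b (a (l 16776816) (b (c (l 16776128) (l 16776112)) (c (l 16776952) (l 16776952)))) (c (l 16777216) (l 16777216))) (b (a (l 16776808) (b (c (l 16776096) (l 16776088)) (c (l 16776952) (l 16776944)))) (c (l 16777216) (c (l 16777216) (l 16777216)))))))))), by decide +kernel⟩

def k27_B07mm_202_s1 : ∃ t, chk3 f_B07mm_202_s1 t 6 10 1 = true :=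
  ⟨(a (b (a (c (b (l 16682664) (l 16652936)) (b (l 16682536) (l 16651400))) (c (b (l 16643240) (a (l 16693600) (l 16680768))) (b (l 16641616) (a (l 16693360) (l 16680008))))) (c (a (c (l 16574200) (l 16573120)) (b (a (l 16695384) (c (l 16705208) (l 16704992))) (c (a (l 16712416) (l 16719288)) (a (l 16712072) (l 16719048))))) (a (c (l 16572032) (l 16570952)) (b (a (l 16694696) (c (l 16704784) (l 16704568))) (c (a (l 16711736) (l 16634912)) (a (l 16711400) (l 16634664))))))) (b (a (a (c (b (l 16618120) (b (l 16658200) (c (l 16679208) (l 16678648)))) (b (l 16615448) (b (l 16656584) (c (l 16678088) (l 16677528))))) (c (c (b (l 16566680) (b (l 16688264) (l 16704416))) (b (l 16565656) (b (l 16687720) (l 16704032)))) (b (b (l 16633048) (c (l 16662016) (l 16661160))) (c (b (l 16687176) (l 16703648)) (b (l 16686632) (l 16703264)))))) (c (a (b (b (c (l 16670288) (l 16669400)) (c (l 16694360) (l 16693760))) (l 529669391)) (b (c (b (l 16703712) (l 16640688)) (b (l 16703112) (l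 16640320))) (l 529426191))) (a (b (c (b (l 16668504) (l 16693160)) (b (l 16667616) (l 16692560))) (l 529592591)) (b (c (b (l 16702512) (l 16639952)) (b (l 16701904) (l 528082447))) (l 529348111))))) (a (a (b (c (c (l 16605200) (l 16604608)) (c (b (l 16684984) (l 16690824)) (b (l 16684408) (l 16690208)))) (c (a (c (l 16698720) (l 16698080)) (l 528491791)) (a (c (l 16697440) (l 16696792)) (l 528352271)))) (c (c (b (l 529273871) (l 528304655)) (b (l 529222927) (l 528233743))) (b (l 528072975) (a (l 528224527) (l 528094479))))) (a (c (b (l 529001743) (l 527994127)) (b (l 528898575) (l 527850511))) (c (b (l 528739343) (l 527702287)) (b (l 528634383) (l 527556623))))))), by decide +kernel⟩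

def k28_B07mm_202_s1 : ∃ t, chk3 f_B07mm_202_s1 t 6 11 1 = true :=
  ⟨(b (a (a (c (b (a (l 16672880) (c (l 16702632) (l 16701864))) (b (c (a (l 16695096) (l 16720072)) (a (l 16694040) (l 16719392))) (a (c (l 16733960) (l 16733392)) (l 530701135)))) (b (a (l 16670432) (c (l 16701088) (l 16700312))) (b (c (a (l 16692992) (l 16718712)) (a (l 16691944) (l 16718032))) (a (c (l 16732824) (l 16732264)) (l 530557775))))) (a (c (c (b (l 16731864) (l 530708815)) (b (l 16731576) (l 530636879))) (c (b (l 16731280) (l 530565199)) (b (b (l 16727472) (l 16735128)) (l 530493519)))) (c (c (b (l 16652944) (l 529574351)) (b (l 529232335) (l 529491919))) (b (c (l 529149647) (l 529066959)) (c (l 529409231) (l 529326799)))))) (a (c (c (a (a (b (l 529300687) (l 527541455)) (l 526854927)) (b (l 527485967) (l 526791695))) (a (a (b (l 527204047) (l 527457999)) (b (l 527638543) (l 526944271))) (b (l 527397647) (l 526688015)))) (a (a (c (b (l 527120591) (l 527374799)) (b (l 527037391) (l 527291599)))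 (c (b (l 527551247) (l 526841871)) (b (l 527464207) (l 526739215)))) (c (b (l 527309327) (l 526584079)) (b (l 527221007) (l 526480143))))) (a (b (c (l 527141647) (l 526962703)) (l 3)) (l 3)))) (a (a (a (c (b (b (c (l 16771976) (l 16771912)) (l 533135759)) (l 536870927)) (b (b (c (l 16771840) (l 16771776)) (l 535973647)) (l 536870927))) (c (b (l 528910223) (l 536870927)) (b (l 530821263) (l 536870927)))) (c (b (a (l 525233231) (l 527211855)) (l 536870927)) (b (a (l 527125839) (l 527089487)) (l 536870927)))) (a (a (c (a (b (a (l 531234895) (l 525203791)) (a (l 536870927) (l 3))) (b (l 531159375) (l 3))) (a (b (b (l 527347151) (l 529473359)) (a (l 536870927) (l 3))) (b (l 531037519) (l 3)))) (l 3)) (l 3)))), by decide +kernel⟩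

def k29_B07mm_202_s1 : ∃ t, chk3 f_B07mm_202_s1 t 7 5 1 = true :=
  ⟨(b (a (c (a (b (a (b (c (b (l 526848527) (l 527162383)) (b (l 526767631) (l 527906063))) (b (l 528934415) (l 529334031))) (b (c (b (l 525143311) (a (l 527854863) (l 3))) (a (l 526199823) (l 525780751))) (a (c (b (l 528860175) (l 3)) (l 529054479)) (l 3)))) (a (b (l 527247119) (l 3)) (l 3))) (l 3)) (a (b (a (b (c (b (l 526686991) (l 527844367)) (b (l 526606351) (l 527782927))) (b (l 528846095) (l 529259535))) (a (b (c (l 526667279) (b (l 526477071) (l 527672335))) (c (l 529015311) (l 528976143))) (b (b (l 526355983) (l 3)) (l 3)))) (a (b (l 528348175) (l 3)) (l 3))) (l 3))) (l 3)) (l 3)), by decide +kernel⟩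

def k30_B07mm_202_s1 : ∃ t, chk3 f_B07mm_202_s1 t 4 6 1 = true :=
  ⟨(b (a (a (l 6) (c (l 16777216) (l 16777216))) (c (b (a (l 16777216) (l 16777216)) (a (l 16777216) (l 16777216))) (a (c (l 16777216) (l 16777216)) (c (l 16777216) (l 16777216))))) (a (c (a (l 57008979975) (b (l 16777216) (l 16777216))) (b (c (l 16777216) (l 16777216)) (c (l 16777216) (l 16777216)))) (c (b (c (l 16777216) (l 16777216)) (a (l 16777216) (b (c (l 16777216) (l 16777216)) (l 2)))) (b (c (l 16777216) (l 16777216)) (a (l 207869706247) (b (c (l 16777216) (l 16777216)) (l 2))))))), by decide +kernel⟩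

def k31_B07mm_202_s1 : ∃ t, chk3 f_B07mm_202_s1 t 5 6 1 = true :=
  ⟨(b (a (c (b (c (l 16777216) (l 16777216)) (a (l 16777216) (c (b (l 16777216) (l 16777216)) (b (l 16777216) (l 16777216))))) (b (c (l 16777216) (l 16777216)) (a (l 16777216) (c (b (l 16777216) (l 16777216)) (b (l 16777216) (l 16777216)))))) (b (b (c (a (c (l 16777216) (l 16777216)) (a (c (l 16777216) (l 16777216)) (l 536870927))) (a (c (l 16777216) (l 16777216)) (a (c (l 16777216) (l 16777216)) (l 536870927)))) (c (a (c (l 16777216) (l 16777216)) (c (l 536870927) (l 536870927))) (a (c (l 16777216) (l 16777216)) (c (l 536870927) (l 536870927))))) (a (b (a (c (c (l 16777216) (l 16777216)) (c (l 16777216) (l 16777216))) (c (l 536870927) (l 536870927))) (c (l 536870927) (l 536870927))) (c (c (l 536870927) (l 536870927)) (c (l 536870927) (l 536870927)))))) (a (b (c (a (c (b (l 16777216) (l 16777216)) (b (l 16777216) (l 16777216))) (c (b (l 16777216) (l 536870927)) (b (l 16777216) (l 536870927)))) (a (c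 (b (l 16777216) (l 16777216)) (b (l 16777216) (l 16777216))) (c (b (l 16777216) (l 536870927)) (b (l 16777216) (l 536870927))))) (a (b (c (c (l 16777216) (l 16777216)) (c (l 16777216) (l 16777216))) (c (l 536870927) (l 536870927))) (c (c (l 536870927) (l 536870927)) (c (l 536870927) (l 536870927))))) (c (c (c (l 536870927) (l 536870927)) (c (l 536870927) (l 536870927))) (c (b (l 536870927) (l 536870927)) (b (l 536870927) (l 536870927)))))), by decide +kernel⟩

def k32_B07mm_202_s1 : ∃ t, chk3 f_B07mm_202_s1 t 2 7 1 = true :=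
  ⟨(b (b (a (l 2) (a (l 2) (a (l 2) (l 3)))) (l 2)) (l 2)), by decide +kernel⟩

def k33_B07mm_202_s1 : ∃ t, chk3 f_B07mm_202_s1 t 3 3 1 = true :=
  ⟨(a (b (b (a (a (c (c (b (l 536870927) (c (l 536870927) (l 536870927))) (b (l 536870927) (l 536870927))) (c (b (l 536870927) (l 536870927)) (b (l 536870927) (l 536870927)))) (b (c (l 536870927) (l 536870927)) (l 3))) (l 3)) (l 3)) (l 3)) (l 3)), by decide +kernel⟩

theorem t34_B07mm_202_s1 : ∃ t, chk3 f_B07mm_202_s1 t 2 6 1 = true := ex3_a k30_B07mm_202_s1 k31_B07mm_202_s1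

theorem t35_B07mm_202_s1 : ∃ t, chk3 f_B07mm_202_s1 t 2 3 1 = true := ex3_b t34_B07mm_202_s1 k32_B07mm_202_s1

theorem t36_B07mm_202_s1 : ∃ t, chk3 f_B07mm_202_s1 t 1 3 1 = true := ex3_a t35_B07mm_202_s1 k33_B07mm_202_s1

theorem t37_B07mm_202_s1 : ∃ t, chk3 f_B07mm_202_s1 t 6 5 1 = true := ex3_b k27_B07mm_202_s1 k28_B07mm_202_s1

theorem t38_B07mm_202_s1 : ∃ t, chk3 f_B07mm_202_s1 t 3 5 1 = true := ex3_a t37_B07mm_202_s1 k29_B07mm_202_s1

theorem t39_B07mm_202_s1 : ∃ t, chk3 f_B07mm_202_s1 t 1 5 1 = true := ex3_a k26_B07mm_202_s1 t38_B07mm_202_s1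

theorem t40_B07mm_202_s1 : ∃ t, chk3 f_B07mm_202_s1 t 29 18 1 = true := ex3_b k22_B07mm_202_s1 k23_B07mm_202_s1

theorem t41_B07mm_202_s1 : ∃ t, chk3 f_B07mm_202_s1 t 14 18 1 = true := ex3_a k21_B07mm_202_s1 t40_B07mm_202_s1

theorem t42_B07mm_202_s1 : ∃ t, chk3 f_B07mm_202_s1 t 14 9 1 = true := ex3_b t41_B07mm_202_s1 k24_B07mm_202_s1

theorem t43_B07mm_202_s1 : ∃ t, chk3 f_B07mm_202_s1 t 7 9 1 = true := ex3_a t42_B07mm_202_s1 k25_B07mm_202_s1

theorem t44_B07mm_202_s1 : ∃ t, chk3 f_B07mm_202_s1 t 6 9 1 = true := ex3_a k19_B07mm_202_s1 k20_B07mm_202_s1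

theorem t45_B07mm_202_s1 : ∃ t, chk3 f_B07mm_202_s1 t 3 9 1 = true := ex3_a t44_B07mm_202_s1 t43_B07mm_202_s1

theorem t46_B07mm_202_s1 : ∃ t, chk3 f_B07mm_202_s1 t 30 35 4 = true := ex3_a k14_B07mm_202_s1 k15_B07mm_202_s1

theorem t47_B07mm_202_s1 : ∃ t, chk3 f_B07mm_202_s1 t 30 35 2 = true := ex3_c t46_B07mm_202_s1 k16_B07mm_202_s1

theorem t48_B07mm_202_s1 : ∃ t, chk3 f_B07mm_202_s1 t 30 34 5 = true := ex3_a k12_B07mm_202_s1 k13_B07mm_202_s1

theorem t49_B07mm_202_s1 : ∃ t, chk3 f_B07mm_202_s1 t 61 34 4 = true := ex3_b k10_B07mm_202_s1 k11_B07mm_202_s1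

theorem t50_B07mm_202_s1 : ∃ t, chk3 f_B07mm_202_s1 t 30 34 4 = true := ex3_a k9_B07mm_202_s1 t49_B07mm_202_s1

theorem t51_B07mm_202_s1 : ∃ t, chk3 f_B07mm_202_s1 t 30 34 2 = true := ex3_c t50_B07mm_202_s1 t48_B07mm_202_s1

theorem t52_B07mm_202_s1 : ∃ t, chk3 f_B07mm_202_s1 t 30 17 2 = true := ex3_b t51_B07mm_202_s1 t47_B07mm_202_s1

theorem t53_B07mm_202_s1 : ∃ t, chk3 f_B07mm_202_s1 t 15 17 2 = true := ex3_a t52_B07mm_202_s1 k17_B07mm_202_s1

theorem t54_B07mm_202_s1 : ∃ t, chk3 f_B07mm_202_s1 t 15 17 1 = true := ex3_c t53_B07mm_202_s1 k18_B07mm_202_s1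

theorem t55_B07mm_202_s1 : ∃ t, chk3 f_B07mm_202_s1 t 14 17 1 = true := ex3_b k7_B07mm_202_s1 k8_B07mm_202_s1

theorem t56_B07mm_202_s1 : ∃ t, chk3 f_B07mm_202_s1 t 7 17 1 = true := ex3_a t55_B07mm_202_s1 t54_B07mm_202_s1

theorem t57_B07mm_202_s1 : ∃ t, chk3 f_B07mm_202_s1 t 3 17 1 = true := ex3_a k6_B07mm_202_s1 t56_B07mm_202_s1

theorem t58_B07mm_202_s1 : ∃ t, chk3 f_B07mm_202_s1 t 7 16 2 = true := ex3_b k3_B07mm_202_s1 k4_B07mm_202_s1

theorem t59_B07mm_202_s1 : ∃ t, chk3 f_B07mm_202_s1 t 7 16 1 = true := ex3_c t58_B07mm_202_s1 k5_B07mm_202_s1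

theorem t60_B07mm_202_s1 : ∃ t, chk3 f_B07mm_202_s1 t 6 16 1 = true := ex3_b k1_B07mm_202_s1 k2_B07mm_202_s1

theorem t61_B07mm_202_s1 : ∃ t, chk3 f_B07mm_202_s1 t 3 16 1 = true := ex3_a t60_B07mm_202_s1 t59_B07mm_202_s1

theorem t62_B07mm_202_s1 : ∃ t, chk3 f_B07mm_202_s1 t 3 8 1 = true := ex3_b t61_B07mm_202_s1 t57_B07mm_202_s1

theorem t63_B07mm_202_s1 : ∃ t, chk3 f_B07mm_202_s1 t 3 4 1 = true := ex3_b t62_B07mm_202_s1 t45_B07mm_202_s1

theorem t64_B07mm_202_s1 : ∃ t, chk3 f_B07mm_202_s1 t 1 4 1 = true := ex3_a k0_B07mm_202_s1 t63_B07mm_202_s1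

theorem t65_B07mm_202_s1 : ∃ t, chk3 f_B07mm_202_s1 t 1 2 1 = true := ex3_b t64_B07mm_202_s1 t39_B07mm_202_s1

theorem t66_B07mm_202_s1 : ∃ t, chk3 f_B07mm_202_s1 t 1 1 1 = true := ex3_b t65_B07mm_202_s1 t36_B07mm_202_s1

theorem c_B07mm_202_s1 : CertFX 0 536870912 1073741824 536870912 1046898278 26843546 false false false .pp 2 0 2
    ndF0q2 ndF7q2 pcF0 cut_B07mm_202_s1 xt_B07mm_202_s1 :=
  certFX1 (fam := false) (s1 := false) (s2 := false) (a := 2) (b := 0) (c := 2) (cn := .pp) (n1 := ndF0q2) (n2 := ndF7q2) (pc := pcF0) (cut := cut_B07mm_202_s1) (xt := xt_B07mm_202_s1) (P1 := 0) (W1 := 536870912) (P2 := 1073741824) (W2 := 536870912) (P3 := 1046898278) (W3 := 26843546)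
    rfl (fun _ => rfl) t66_B07mm_202_s1

theorem s_B07mm_202_s1 {κ x : ℝ} (hκ : κ * h0 = kenE x) (hx : 39 / 40 ≤ x) (hx' : x < 1)
    (H : CutVB (VFD κ) (DD x) tKF tL pcF (Cut.of [[⟨0, 1, 0, 67108864⟩, ⟨1, 0, 0, 67108864⟩, ⟨2, 1, 0, 67108864⟩]]) 2 0 2 0 7 (sgb false) (sgb false) x) :
    AltVB (VFD κ) (DD x) tKF tL pcF [⟨3, 0, 0, 1449551462⟩] 2 0 2 0 7 (sgb false) (sgb false) x :=
  strip_altVB (d := 1449551462) true rfl hκ (κ0 hκ hx) (x0 hx) hx' (covF02 hx hx') (covF72 hx hx') (x1 hx) (x2 hx') c_B07mm_202_s1 H ((ok hx hx').extB (T := tt) (sideF hx hx') hκ (κ0 hκ hx) rfl rfl (.O 2 false) (.N 2 false) (Or.inl rfl))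

noncomputable def cut_B07mm_203_s1 : Cut := Cut.of [[⟨4, 0, 0, 1449551462⟩]]

noncomputable def xt_B07mm_203_s1 : Ext := strExtY dd false false false .u2 .s2m .u0m .up 2 0 3 rfl rfl gf0 ge vv ndF0q2 ndF7q3

noncomputable def f_B07mm_203_s1 : ℕ → ℕ → ℕ → ℕ → Bool := onCell 0 536870912 0 1230186008 1046898278 26843546
    (rowFX 0 false false false .up 2 0 3 (qsf 0 536870912 0 1230186008 0) ndF0q2 ndF7q3 pcF0 cut_B07mm_203_s1 xt_B07mm_203_s1)

def k0_B07mm_203_s1 : ∃ t, chk3 f_B07mm_203_s1 t 1 2 1 = true :=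
  ⟨(l 2), by decide +kernel⟩

def k1_B07mm_203_s1 : ∃ t, chk3 f_B07mm_203_s1 t 2 6 1 = true :=
  ⟨(l 2), by decide +kernel⟩

def k2_B07mm_203_s1 : ∃ t, chk3 f_B07mm_203_s1 t 4 7 1 = true :=
  ⟨(b (b (l 2) (b (l 2) (c (a (a (l 536870927) (l 536870927)) (c (l 536870927) (l 536870927))) (a (a (l 536870927) (l 536870927)) (c (l 536870927) (l 536870927)))))) (b (a (c (b (a (c (b (l 16777216) (l 16777216)) (b (l 16777216) (l 16777216))) (c (l 536870927) (l 536870927))) (c (a (l 16777216) (b (l 16777216) (l 16777216))) (a (l 16777216) (b (l 16777216) (l 16777216))))) (b (a (c (b (l 16777216) (l 16777216)) (b (l 16777216) (l 16777216))) (c (l 536870927) (l 536870927))) (c (a (l 16777216) (b (l 16777216) (l 16777216))) (a (l 16777216) (b (l 16777216) (l 16777216)))))) (c (c (b (c (l 536870927) (l 536870927)) (l 536870927)) (c (l 536870927) (l 536870927))) (c (c (l 536870927) (l 536870927)) (b (l 536870927) (l 536870927))))) (a (c (b (a (l 16777216) (b (c (l 16777216) (l 16777216))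 (l 16777216))) (c (l 16777216) (l 16777216))) (b (a (l 16777216) (b (c (l 16777216) (l 16777216)) (l 16777216))) (c (l 16777216) (l 16777216)))) (a (c (b (c (b (l 16777216) (l 16777216)) (b (l 16777216) (l 16777216))) (b (c (l 16777216) (l 16777216)) (l 16777216))) (b (c (b (l 16777216) (l 16777216)) (b (l 16777216) (l 16777216))) (b (c (l 16777216) (l 16777216)) (l 16777216)))) (c (b (c (l 536870927) (l 536870927)) (c (b (l 16777216) (l 16777216)) (b (l 16777216) (l 16777216)))) (b (c (l 536870927) (l 536870927)) (c (b (l 16777216) (l 16777216)) (b (l 16777216) (l 16777216))))))))), by decide +kernel⟩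

def k3_B07mm_203_s1 : ∃ t, chk3 f_B07mm_203_s1 t 5 7 1 = true :=
  ⟨(a (b (l 3) (c (b (a (b (l 3) (l 536870927)) (l 3)) (b (l 536870927) (b (l 536870927) (c (l 536870927) (l 536870927))))) (b (a (b (l 3) (l 536870927)) (l 3)) (b (l 536870927) (c (l 536870927) (l 536870927)))))) (a (b (l 3) (a (b (l 3) (b (l 3) (c (c (l 536870927) (l 536870927)) (c (l 536870927) (l 536870927))))) (l 3))) (l 3))), by decide +kernel⟩

def k4_B07mm_203_s1 : ∃ t, chk3 f_B07mm_203_s1 t 3 3 1 = true :=
  ⟨(b (l 2) (l 3)), by decide +kernel⟩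

theorem t5_B07mm_203_s1 : ∃ t, chk3 f_B07mm_203_s1 t 2 7 1 = true := ex3_a k2_B07mm_203_s1 k3_B07mm_203_s1

theorem t6_B07mm_203_s1 : ∃ t, chk3 f_B07mm_203_s1 t 2 3 1 = true := ex3_b k1_B07mm_203_s1 t5_B07mm_203_s1

theorem t7_B07mm_203_s1 : ∃ t, chk3 f_B07mm_203_s1 t 1 3 1 = true := ex3_a t6_B07mm_203_s1 k4_B07mm_203_s1

theorem t8_B07mm_203_s1 : ∃ t, chk3 f_B07mm_203_s1 t 1 1 1 = true := ex3_b k0_B07mm_203_s1 t7_B07mm_203_s1

theorem c_B07mm_203_s1 : CertFX 0 536870912 0 1230186008 1046898278 26843546 false false false .up 2 0 3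
    ndF0q2 ndF7q3 pcF0 cut_B07mm_203_s1 xt_B07mm_203_s1 :=
  certFX0 (fam := false) (s1 := false) (s2 := false) (a := 2) (b := 0) (c := 3) (cn := .up) (n1 := ndF0q2) (n2 := ndF7q3) (pc := pcF0) (cut := cut_B07mm_203_s1) (xt := xt_B07mm_203_s1) (P1 := 0) (W1 := 536870912) (P2 := 0) (W2 := 1230186008) (P3 := 1046898278) (W3 := 26843546)
    rfl t8_B07mm_203_s1

theorem s_B07mm_203_s1 {κ x : ℝ} (hκ : κ * h0 = kenE x) (hx : 39 / 40 ≤ x) (hx' : x < 1) :
    AltVB (VFD κ) (DD x) tKF tL pcF [⟨3, 0, 0, 1449551462⟩] 2 0 3 0 7 (sgb false) (sgb false) x :=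
  strip_altVB (d := 1449551462) true rfl hκ (κ0 hκ hx) (x0 hx) hx' (covF02 hx hx') (covF73 hx hx') (x1 hx) (x2 hx') c_B07mm_203_s1 cutVB_nil ((ok hx hx').extB (T := tt) (sideF hx hx') hκ (κ0 hκ hx) rfl rfl (.O 2 false) (.N 3 false) (Or.inl rfl))

noncomputable def cut_B07mm_213_s1 : Cut := Cut.of [[⟨4, 0, 0, 1449551462⟩]]

noncomputable def xt_B07mm_213_s1 : Ext := strExtY dd false false false .u2 .s2m .u0m .pnn 2 1 3 rfl rfl gf1 ge vv ndF0q2 ndF7q3

noncomputable def f_B07mm_213_s1 : ℕ → ℕ → ℕ → ℕ → Bool := onCell 0 536870912 0 1230186008 1046898278 26843546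
    (rowFX 0 false false false .pnn 2 1 3 (qsf 0 536870912 0 1230186008 1) ndF0q2 ndF7q3 pcF1 cut_B07mm_213_s1 xt_B07mm_213_s1)

def k0_B07mm_213_s1 : ∃ t, chk3 f_B07mm_213_s1 t 1 1 1 = true :=
  ⟨(b (a (l 3) (b (l 5) (l 3))) (b (b (l 3) (a (a (l 3) (l 3)) (l 3))) (a (a (a (b (b (c (c (c (l 536870927) (l 536870927)) (b (l 536870927) (l 536870927))) (c (b (l 536870927) (l 536870927)) (b (l 536870927) (l 536870927)))) (c (a (c (l 536870927) (l 536870927)) (l 536870927)) (a (c (l 536870927) (l 536870927)) (l 536870927)))) (l 1)) (b (b (l 3) (a (c (l 536870927) (l 536870927)) (b (l 3) (l 3)))) (l 1))) (a (b (l 3) (b (l 1) (l 1))) (b (l 3) (b (l 3) (l 1))))) (l 3)))), by decide +kernel⟩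

theorem c_B07mm_213_s1 : CertFX 0 536870912 0 1230186008 1046898278 26843546 false false false .pnn 2 1 3
    ndF0q2 ndF7q3 pcF1 cut_B07mm_213_s1 xt_B07mm_213_s1 :=
  certFX0 (fam := false) (s1 := false) (s2 := false) (a := 2) (b := 1) (c := 3) (cn := .pnn) (n1 := ndF0q2) (n2 := ndF7q3) (pc := pcF1) (cut := cut_B07mm_213_s1) (xt := xt_B07mm_213_s1) (P1 := 0) (W1 := 536870912) (P2 := 0) (W2 := 1230186008) (P3 := 1046898278) (W3 := 26843546)
    rfl k0_B07mm_213_s1

theorem s_B07mm_213_s1 {κ x : ℝ} (hκ : κ * h0 = kenE x) (hx : 39 / 40 ≤ x) (hx' : x < 1) :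
    AltVB (VFD κ) (DD x) tKF tL pcF [⟨3, 0, 0, 1449551462⟩] 2 1 3 0 7 (sgb false) (sgb false) x :=
  strip_altVB (d := 1449551462) true rfl hκ (κ0 hκ hx) (x0 hx) hx' (covF02 hx hx') (covF73 hx hx') (x1 hx) (x2 hx') c_B07mm_213_s1 cutVB_nil ((ok hx hx').extB (T := tt) (sideF hx hx') hκ (κ0 hκ hx) rfl rfl (.O 2 false) (.N 3 false) (Or.inr rfl))

noncomputable def cut_B70pp_001_s1 : Cut := Cut.of [[⟨4, 0, 0, 1449551462⟩]]

noncomputable def xt_B70pp_001_s1 : Ext := strExtY dd false true true .s0 .u0 .u0m .up 0 0 1 rfl rfl gf0 ge vv ndF7q0 ndF0q1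

noncomputable def f_B70pp_001_s1 : ℕ → ℕ → ℕ → ℕ → Bool := onCell 0 536870912 536870912 536870912 1046898278 26843546
    (rowFX 2 false true true .up 0 0 1 (qsf 0 536870912 536870912 536870912 0) ndF7q0 ndF0q1 pcF0 cut_B70pp_001_s1 xt_B70pp_001_s1)

def k0_B70pp_001_s1 : ∃ t, chk3 f_B70pp_001_s1 t 2 1 1 = true :=
  ⟨(b (l 3) (b (b (l 3) (l 2)) (l 2))), by decide +kernel⟩

def k1_B70pp_001_s1 : ∃ t, chk3 f_B70pp_001_s1 t 3 2 1 = true :=
  ⟨(a (l 3) (b (l 3) (b (a (l 3) (c (c (c (l 536870927) (l 536870927)) (a (l 536870927) (l 536870927))) (c (a (l 536870927) (l 536870927)) (a (l 536870927) (l 536870927))))) (c (a (l 536870927) (c (c (l 536870927) (l 536870927)) (c (l 536870927) (l 536870927)))) (a (l 536870927) (c (c (l 536870927) (l 536870927)) (c (l 536870927) (l 536870927)))))))), by decide +kernel⟩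

def k2_B70pp_001_s1 : ∃ t, chk3 f_B70pp_001_s1 t 3 6 1 = true :=
  ⟨(c (b (a (a (a (l 3) (a (l 3) (b (l 3) (l 536870927)))) (c (c (l 536870927) (l 536870927)) (c (l 536870927) (l 536870927)))) (a (c (c (l 536870927) (l 536870927)) (c (l 536870927) (l 536870927))) (c (a (l 536870927) (l 536870927)) (a (l 536870927) (l 536870927))))) (b (a (a (a (l 2) (c (l 536870927) (l 536870927))) (c (a (l 536870927) (l 536870927)) (a (l 536870927) (l 536870927)))) (a (c (l 536870927) (l 536870927)) (a (c (l 16777216) (l 16777216)) (c (l 16777216) (l 16777216))))) (a (a (l 2) (c (a (l 526240143) (l 528391055)) (a (l 528140687) (l 528280207)))) (a (a (b (l 16777216) (l 16752376)) (c (l 16764768) (l 16764600))) (a (b (l 16777216) (l 16752376)) (l 16764680)))))) (a (b (b (a (l 3) (c (c (l 536870927) (l 536870927)) (l 536870927))) (a (a (l 3) (a (l 3) (l 536870927))) (c (l 536870927) (l 536870927)))) (a (a (l 2) (b (c (l 536870927) (l 536870927)) (l 2))) (c (b (a (l 536870927) (l 536870927))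 (a (l 528028047) (l 528169359))) (b (a (l 536870927) (l 536870927)) (a (l 527915407) (l 528058511)))))) (c (b (a (c (l 536870927) (l 536870927)) (a (l 536870927) (l 536870927))) (a (b (l 536870927) (a (l 16764440) (l 16764440))) (b (a (l 16777216) (l 16777216)) (a (l 16764440) (l 16764440))))) (b (a (c (l 536870927) (l 536870927)) (a (l 536870927) (l 536870927))) (a (b (l 536870927) (a (l 16764272) (l 16764272))) (b (a (l 16777216) (l 16777216)) (a (l 16764272) (l 16764272)))))))), by decide +kernel⟩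

def k3_B70pp_001_s1 : ∃ t, chk3 f_B70pp_001_s1 t 3 7 1 = true :=
  ⟨(a (b (b (a (l 2) (a (l 2) (a (l 2) (c (l 16594264) (l 16589512))))) (l 2)) (l 2)) (b (a (b (a (a (c (l 16594264) (l 16589512)) (l 16591888)) (l 16508000)) (c (l 16365336) (l 16354640))) (c (b (l 16594264) (l 16365336)) (l 16303136))) (b (c (a (l 16113496) (l 16113496)) (l 157939026151)) (a (l 2) (l 6))))), by decide +kernel⟩

theorem t4_B70pp_001_s1 : ∃ t, chk3 f_B70pp_001_s1 t 3 3 1 = true := ex3_b k2_B70pp_001_s1 k3_B70pp_001_s1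

theorem t5_B70pp_001_s1 : ∃ t, chk3 f_B70pp_001_s1 t 3 1 1 = true := ex3_b k1_B70pp_001_s1 t4_B70pp_001_s1

theorem t6_B70pp_001_s1 : ∃ t, chk3 f_B70pp_001_s1 t 1 1 1 = true := ex3_a k0_B70pp_001_s1 t5_B70pp_001_s1

theorem c_B70pp_001_s1 : CertFX 0 536870912 536870912 536870912 1046898278 26843546 false true true .up 0 0 1
    ndF7q0 ndF0q1 pcF0 cut_B70pp_001_s1 xt_B70pp_001_s1 :=
  certFX2 (fam := false) (s1 := true) (s2 := true) (a := 0) (b := 0) (c := 1) (cn := .up) (n1 := ndF7q0) (n2 := ndF0q1) (pc := pcF0) (cut := cut_B70pp_001_s1) (xt := xt_B70pp_001_s1) (P1 := 0) (W1 := 536870912) (P2 := 536870912) (W2 := 536870912) (P3 := 1046898278) (W3 := 26843546)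
    rfl (fun _ => rfl) t6_B70pp_001_s1

theorem s_B70pp_001_s1 {κ x : ℝ} (hκ : κ * h0 = kenE x) (hx : 39 / 40 ≤ x) (hx' : x < 1) :
    AltVB (VFD κ) (DD x) tKF tL pcF [⟨3, 0, 0, 1449551462⟩] 0 0 1 7 0 (sgb true) (sgb true) x :=
  strip_altVB (d := 1449551462) true rfl hκ (κ0 hκ hx) (x0 hx) hx' (covF70 hx hx') (covF01 hx hx') (x1 hx) (x2 hx') c_B70pp_001_s1 cutVB_nil ((ok hx hx').extB (T := tt) (sideF hx hx') hκ (κ0 hκ hx) rfl rfl (.N 0 true) (.O 1 true) (Or.inl rfl))

noncomputable def cut_B70pp_011_s1 : Cut := Cut.of [[⟨4, 0, 0, 1449551462⟩]]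

noncomputable def xt_B70pp_011_s1 : Ext := strExtY dd false true true .s0 .u0 .u0m .pnn 0 1 1 rfl rfl gf1 ge vv ndF7q0 ndF0q1

noncomputable def f_B70pp_011_s1 : ℕ → ℕ → ℕ → ℕ → Bool := onCell 0 536870912 536870912 536870912 1046898278 26843546
    (rowFX 1 false true true .pnn 0 1 1 (qsf 0 536870912 536870912 536870912 1) ndF7q0 ndF0q1 pcF1 cut_B70pp_011_s1 xt_B70pp_011_s1)

def k0_B70pp_011_s1 : ∃ t, chk3 f_B70pp_011_s1 t 2 4 1 = true :=
  ⟨(a (b (c (c (a (c (l 536870927) (l 536870927)) (b (l 536870927) (l 536870927))) (a (c (l 536870927) (l 536870927)) (b (l 536870927) (l 536870927)))) (c (a (c (l 536870927) (b (l 3) (l 536870927))) (b (l 536870927) (l 536870927))) (a (b (l 3) (c (l 536870927) (l 536870927))) (c (l 536870927) (l 536870927))))) (a (c (c (c (b (l 536870927) (l 536870927)) (b (l 536870927) (l 536870927))) (c (b (l 536870927) (l 536870927)) (b (l 536870927) (l 536870927)))) (c (c (b (l 536870927) (l 536870927)) (b (l 536870927) (l 536870927))) (b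 (c (l 536870927) (l 536870927)) (c (l 536870927) (l 536870927))))) (c (c (b (b (l 536870927) (l 536870927)) (a (l 16777216) (l 16777216))) (b (b (l 536870927) (l 536870927)) (a (l 16777216) (l 16777216)))) (c (b (b (l 536870927) (l 536870927)) (a (l 16777216) (l 16777216))) (b (b (l 536870927) (l 536870927)) (a (l 16777216) (l 16777216))))))) (b (a (c (c (l 536870927) (l 536870927)) (c (l 536870927) (l 536870927))) (b (c (c (a (l 536870927) (l 536870927)) (a (l 536870927) (l 536870927))) (c (l 536870927) (l 536870927))) (c (a (c (l 16777216) (l 16777216)) (b (l 16777216) (l 16777216))) (c (a (l 16777216) (l 16777216)) (a (l 16777216) (l 16777216)))))) (a (b (c (c (a (l 16777216) (l 16777216)) (a (l 16777216) (l 16777216))) (b (l 536870927) (a (l 16777216) (l 16777216)))) (c (c (l 16777216) (l 16777216)) (c (l 16777216) (l 16777216)))) (b (b (a (c (l 16777216) (l 16777216)) (l 16777216)) (c (l 16777216) (l 16777216))) (a (l 16777216) (l 16686864)))))), by decide +kernel⟩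

def k1_B70pp_011_s1 : ∃ t, chk3 f_B70pp_011_s1 t 2 5 1 = true :=
  ⟨(a (b (c (a (b (c (l 536870927) (l 536870927)) (c (l 16777216) (l 16777216))) (b (c (l 16777216) (l 16777216)) (a (l 16777216) (l 16777216)))) (c (a (b (l 536870927) (l 16777216)) (b (l 16777216) (l 16777216))) (a (b (l 536870927) (a (l 16777216) (l 16777216))) (b (l 16777216) (l 16777216))))) (b (a (c (a (l 16777216) (l 16777216)) (a (l 16777216) (l 16777216))) (c (l 16777216) (l 16777216))) (a (c (l 16777216) (l 16777216)) (l 6)))) (b (a (c (b (l 16777216) (l 16772872)) (b (l 16777216) (l 16772752))) (b (a (l 16770752) (l 6)) (l 6))) (l 6))), by decide +kernel⟩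

def k2_B70pp_011_s1 : ∃ t, chk3 f_B70pp_011_s1 t 3 2 1 = true :=
  ⟨(b (a (b (a (c (b (c (a (l 16777216) (l 16777216)) (a (l 16777216) (l 16777216))) (a (b (l 16777216) (l 16777216)) (l 16770832))) (b (c (a (l 16777216) (l 16777216)) (b (l 16777216) (l 16777216))) (a (b (l 16777216) (l 16777216)) (l 16770664)))) (b (a (b (c (l 16777216) (l 16777216)) (l 16768672)) (c (l 16678080) (l 16675504))) (a (l 16676792) (l 16474784)))) (a (b (a (l 16686864) (l 16676792)) (a (l 16676792) (l 6))) (b (a (l 6) (l 6)) (l 6)))) (b (a (b (a (l 16390896) (c (l 16236736) (l 16211752))) (l 6)) (l 6)) (l 6))) (a (b (l 6) (l 6)) (l 6))), by decide +kernel⟩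

def k3_B70pp_011_s1 : ∃ t, chk3 f_B70pp_011_s1 t 1 3 1 = true :=
  ⟨(a (b (a (b (a (l 6) (l 6)) (l 6)) (l 6)) (a (l 6) (l 6))) (l 6)), by decide +kernel⟩

theorem t4_B70pp_011_s1 : ∃ t, chk3 f_B70pp_011_s1 t 2 2 1 = true := ex3_b k0_B70pp_011_s1 k1_B70pp_011_s1

theorem t5_B70pp_011_s1 : ∃ t, chk3 f_B70pp_011_s1 t 1 2 1 = true := ex3_a t4_B70pp_011_s1 k2_B70pp_011_s1

theorem t6_B70pp_011_s1 : ∃ t, chk3 f_B70pp_011_s1 t 1 1 1 = true := ex3_b t5_B70pp_011_s1 k3_B70pp_011_s1

theorem c_B70pp_011_s1 : CertFX 0 536870912 536870912 536870912 1046898278 26843546 false true true .pnn 0 1 1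
    ndF7q0 ndF0q1 pcF1 cut_B70pp_011_s1 xt_B70pp_011_s1 :=
  certFX1 (fam := false) (s1 := true) (s2 := true) (a := 0) (b := 1) (c := 1) (cn := .pnn) (n1 := ndF7q0) (n2 := ndF0q1) (pc := pcF1) (cut := cut_B70pp_011_s1) (xt := xt_B70pp_011_s1) (P1 := 0) (W1 := 536870912) (P2 := 536870912) (W2 := 536870912) (P3 := 1046898278) (W3 := 26843546)
    rfl (fun _ => rfl) t6_B70pp_011_s1

theorem s_B70pp_011_s1 {κ x : ℝ} (hκ : κ * h0 = kenE x) (hx : 39 / 40 ≤ x) (hx' : x < 1) :
    AltVB (VFD κ) (DD x) tKF tL pcF [⟨3, 0, 0, 1449551462⟩] 0 1 1 7 0 (sgb true) (sgb true) x :=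
  strip_altVB (d := 1449551462) true rfl hκ (κ0 hκ hx) (x0 hx) hx' (covF70 hx hx') (covF01 hx hx') (x1 hx) (x2 hx') c_B70pp_011_s1 cutVB_nil ((ok hx hx').extB (T := tt) (sideF hx hx') hκ (κ0 hκ hx) rfl rfl (.N 0 true) (.O 1 true) (Or.inr rfl))

noncomputable def cut_B70pp_012_s1 : Cut := Cut.of [[⟨4, 0, 0, 1449551462⟩]]

noncomputable def f_B70pp_012_s1 : ℕ → ℕ → ℕ → ℕ → Bool := onCell 0 536870912 0 536870912 1046898278 26843546
    (rowFX 0 false true true .pnp 0 1 2 (qsf 0 536870912 0 536870912 1) ndF7q0 ndF0q2 pcF1 cut_B70pp_012_s1 Ext.none)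

def k0_B70pp_012_s1 : ∃ t, chk3 f_B70pp_012_s1 t 1 1 1 = true :=
  ⟨(a (l 6) (l 6)), by decide +kernel⟩

theorem c_B70pp_012_s1 : CertFX 0 536870912 0 536870912 1046898278 26843546 false true true .pnp 0 1 2
    ndF7q0 ndF0q2 pcF1 cut_B70pp_012_s1 Ext.none :=
  certFX0 (fam := false) (s1 := true) (s2 := true) (a := 0) (b := 1) (c := 2) (cn := .pnp) (n1 := ndF7q0) (n2 := ndF0q2) (pc := pcF1) (cut := cut_B70pp_012_s1) (xt := Ext.none) (P1 := 0) (W1 := 536870912) (P2 := 0) (W2 := 536870912) (P3 := 1046898278) (W3 := 26843546)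
    rfl k0_B70pp_012_s1

theorem s_B70pp_012_s1 {κ x : ℝ} (hκ : κ * h0 = kenE x) (hx : 39 / 40 ≤ x) (hx' : x < 1) :
    AltVB (VFD κ) (DD x) tKF tL pcF [⟨3, 0, 0, 1449551462⟩] 0 1 2 7 0 (sgb true) (sgb true) x :=
  strip_altVB (d := 1449551462) true rfl hκ (κ0 hκ hx) (x0 hx) hx' (covF70 hx hx') (covF02 hx hx') (x1 hx) (x2 hx') c_B70pp_012_s1 cutVB_nil (noExt_VB)

noncomputable def cut_B70pp_022_s1 : Cut := Cut.of [[⟨4, 0, 0, 1449551462⟩]]

noncomputable def f_B70pp_022_s1 : ℕ → ℕ → ℕ → ℕ → Bool := onCell 0 536870912 0 536870912 1046898278 26843546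
    (rowFX 0 false true true .pp 0 2 2 (qsf 0 536870912 0 536870912 2) ndF7q0 ndF0q2 pcF2 cut_B70pp_022_s1 Ext.none)

def k0_B70pp_022_s1 : ∃ t, chk3 f_B70pp_022_s1 t 1 1 1 = true :=
  ⟨(b (l 6) (l 6)), by decide +kernel⟩

theorem c_B70pp_022_s1 : CertFX 0 536870912 0 536870912 1046898278 26843546 false true true .pp 0 2 2
    ndF7q0 ndF0q2 pcF2 cut_B70pp_022_s1 Ext.none :=
  certFX0 (fam := false) (s1 := true) (s2 := true) (a := 0) (b := 2) (c := 2) (cn := .pp) (n1 := ndF7q0) (n2 := ndF0q2) (pc := pcF2) (cut := cut_B70pp_022_s1) (xt := Ext.none) (P1 := 0) (W1 := 536870912) (P2 := 0) (W2 := 536870912) (P3 := 1046898278) (W3 := 26843546)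
    rfl k0_B70pp_022_s1

theorem s_B70pp_022_s1 {κ x : ℝ} (hκ : κ * h0 = kenE x) (hx : 39 / 40 ≤ x) (hx' : x < 1) :
    AltVB (VFD κ) (DD x) tKF tL pcF [⟨3, 0, 0, 1449551462⟩] 0 2 2 7 0 (sgb true) (sgb true) x :=
  strip_altVB (d := 1449551462) true rfl hκ (κ0 hκ hx) (x0 hx) hx' (covF70 hx hx') (covF02 hx hx') (x1 hx) (x2 hx') c_B70pp_022_s1 cutVB_nil (noExt_VB)

noncomputable def cut_B70pp_101_s1 : Cut := Cut.of [[⟨4, 0, 0, 1449551462⟩], [⟨0, 1, 0, 67108864⟩, ⟨1, 0, 0, 67108864⟩, ⟨2, 1, 0, 67108864⟩]]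

noncomputable def xt_B70pp_101_s1 : Ext := strExtY dd false true true .s0 .u0 .u0m .npn 1 0 1 rfl rfl gf0 ge vv ndF7q1 ndF0q1

noncomputable def f_B70pp_101_s1 : ℕ → ℕ → ℕ → ℕ → Bool := onCell 0 536870912 536870912 536870912 1046898278 26843546
    (rowFX 2 false true true .npn 1 0 1 (qsf 536870912 536870912 536870912 536870912 0) ndF7q1 ndF0q1 pcF0 cut_B70pp_101_s1 xt_B70pp_101_s1)

def k0_B70pp_101_s1 : ∃ t, chk3 f_B70pp_101_s1 t 2 2 1 = true :=
  ⟨(l 3), by decide +kernel⟩

def k1_B70pp_101_s1 : ∃ t, chk3 f_B70pp_101_s1 t 4 6 1 = true :=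
  ⟨(l 3), by decide +kernel⟩

def k2_B70pp_101_s1 : ∃ t, chk3 f_B70pp_101_s1 t 8 14 1 = true :=
  ⟨(l 3), by decide +kernel⟩

def k3_B70pp_101_s1 : ∃ t, chk3 f_B70pp_101_s1 t 16 15 1 = true :=
  ⟨(b (l 3) (a (l 14) (b (b (l 3) (l 14)) (l 14)))), by decide +kernel⟩

def k4_B70pp_101_s1 : ∃ t, chk3 f_B70pp_101_s1 t 17 30 1 = true :=
  ⟨(b (l 3) (b (l 3) (b (l 3) (b (l 3) (a (l 3) (a (l 3) (c (c (c (a (l 3) (l 516602703)) (l 522476943)) (l 520102415)) (l 519896847)))))))), by decide +kernel⟩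

def k5_B70pp_101_s1 : ∃ t, chk3 f_B70pp_101_s1 t 34 124 2 = true :=
  ⟨(a (l 3) (b (l 3) (b (l 3) (a (l 3) (a (l 3) (c (c (l 519808783) (c (l 517637967) (l 522975055))) (c (l 523167567) (l 521144591)))))))), by decide +kernel⟩

def k6_B70pp_101_s1 : ∃ t, chk3 f_B70pp_101_s1 t 34 125 4 = true :=
  ⟨(a (b (b (l 3) (l 14)) (l 14)) (b (a (c (c (b (a (l 3) (l 518833423)) (a (b (a (l 14) (b (l 518646543) (l 14))) (l 14)) (b (b (l 518691855) (a (b (l 518712591) (l 16762432)) (l 16770720))) (b (a (l 16760160) (l 16767784)) (l 16744968))))) (b (l 518808079) (l 518896143))) (b (l 511331151) (l 511429455))) (c (b (l 518949135) (a (b (a (l 16758800) (l 16766456)) (l 16741128)) (l 16738280))) (c (b (l 517485903) (l 517582671)) (c (b (l 515817551) (l 517922383)) (a (l 518854735) (a (l 517040463) (b (l 517666319) (l 16756272)))))))) (c (a (a (l 14) (b (b (a (l 14) (l 16717944)) (l 14)) (l 14))) (b (l 16707208) (l 16734728))) (a (b (b (l 516630735) (l 14)) (l 14)) (c (a (l 16727312)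 (b (l 16664456) (l 16735856))) (a (b (l 518237263) (l 16741648)) (l 16718640))))))), by decide +kernel⟩

def k7_B70pp_101_s1 : ∃ t, chk3 f_B70pp_101_s1 t 34 125 5 = true :=
  ⟨(c (b (a (b (l 3) (l 14)) (a (c (c (b (b (l 3) (l 515741263)) (l 517987919)) (a (b (l 3) (l 518395471)) (b (l 523166031) (b (l 524292303) (l 517660431))))) (b (a (l 3) (l 523287631)) (a (l 521293647) (l 521343567)))) (b (a (l 515163983) (l 521221199)) (c (b (c (a (l 517553423) (a (c (l 16763872) (l 16723608)) (b (l 16724168) (l 16679336)))) (l 523183439)) (a (c (l 16761440) (a (b (l 16756240) (l 16721816)) (b (l 16745496) (l 16679672)))) (c (a (l 16674472) (l 16758152)) (l 16723400)))) (l 521257807))))) (a (l 14) (a (b (b (a (l 14) (a (l 14) (a (l 14) (c (l 16758960) (c (l 16681312) (l 16769224)))))) (l 14)) (l 14)) (c (a (c (l 16724400) (b (a (l 16713088) (l 16670968)) (l 16699248))) (c (b (l 16705880) (l 16650160)) (l 16665768))) (b (a (c (a (l 16720624) (l 16763288)) (l 16765312)) (l 16761040))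 (b (l 16713768) (l 16666712))))))) (b (b (a (l 3) (a (l 522766479) (l 521085711))) (a (l 14) (a (l 523311439) (l 524855695)))) (a (l 14) (a (a (l 14) (b (b (l 524932239) (l 14)) (l 14))) (b (b (l 16716104) (l 16714576)) (l 16668520)))))), by decide +kernel⟩

def k8_B70pp_101_s1 : ∃ t, chk3 f_B70pp_101_s1 t 35 124 4 = true :=
  ⟨(c (b (c (a (b (l 3) (a (l 3) (l 517109583))) (a (b (c (l 520115215) (l 522624591)) (a (l 517464911) (l 516756751))) (b (l 520675407) (a (c (l 16740640) (b (l 522797903) (a (l 16719976) (l 16761536)))) (c (a (b (l 16719472) (l 16755328)) (l 16736880)) (b (l 16755744) (l 16762592))))))) (a (a (l 3) (c (b (l 3) (l 517443407)) (l 520741199))) (a (l 516777551) (l 520819535)))) (a (c (a (l 516715983) (l 513565775)) (a (l 511665999) (a (l 516026703) (a (l 518210895) (b (l 517008655) (l 16670128)))))) (a (a (c (l 517893199) (b (c (l 517004047) (b (l 522911055) (a (l 16741888) (l 16720576)))) (c (l 16748688) (b (l 16735904) (l 16665856))))) (c (b (l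 16733760) (l 16741344)) (b (c (b (a (l 16741432) (l 16762040)) (l 16735472)) (b (l 522923087) (l 16763424))) (a (l 16708064) (l 16708448))))) (c (a (c (l 16657024) (a (l 16724024) (l 16702696))) (b (a (l 16707152) (l 16707544)) (l 16651352))) (b (a (c (l 16718040) (l 16763648)) (l 16759264)) (l 16729512)))))) (b (a (a (l 3) (c (l 514816335) (l 524544399))) (a (l 520867151) (l 524574607))) (c (b (a (a (c (l 517600335) (l 522822479)) (l 520890959)) (l 520729679)) (a (a (a (l 517839439) (a (l 518051919) (l 517241359))) (a (c (l 517235215) (b (l 523025487) (a (c (l 16762808) (l 16722408)) (l 16721472)))) (c (b (a (l 16742328) (l 16721040)) (l 16736312)) (b (l 523038543) (l 16722208))))) (a (a (c (l 16739776) (l 16764160)) (l 16759808)) (l 16753808)))) (a (a (b (l 518923855) (l 518985295)) (l 521079375)) (l 518579343))))), by decide +kernel⟩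

def k9_B70pp_101_s1 : ∃ t, chk3 f_B70pp_101_s1 t 35 125 4 = true :=
  ⟨(a (b (a (a (c (b (l 516403727) (l 16732584)) (c (l 516517711) (c (b (l 517476879) (l 16750360)) (b (b (l 523141199) (a (c (l 16763544) (l 16723232)) (l 16743240))) (a (l 16712528) (l 16754248)))))) (c (c (l 16732320) (l 518196559)) (c (b (b (l 16738960) (l 16753272)) (l 16743960)) (c (b (b (a (l 16753632) (l 16721888)) (a (l 16673872) (l 16757496))) (l 16705272)) (b (b (l 523155791) (l 16722848)) (l 16756136)))))) (c (c (b (l 514660815) (l 16696008)) (a (l 518360655) (l 16653072))) (c (a (c (l 16701176) (a (a (l 16704760) (l 16704160)) (l 16704392))) (b (a (l 16729824) (l 16709240)) (l 16653192))) (a (b (c (l 16740456) (l 16764608)) (l 16668640)) (b (l 16760280) (l 16752768)))))) (c (a (b (c (l 16736952) (l 16696664)) (l 16638808)) (c (l 16632944) (l 16631568))) (a (c (b (l 16694408) (l 16723456)) (a (c (l 16731592) (a (l 16691856) (l 16649088))) (b (l 16696080) (l 16640360)))) (c (a (b (l 16704648)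 (l 16627912)) (b (l 16639424) (l 16624696))) (a (l 16647832) (l 16734912)))))) (c (a (c (b (l 16696208) (l 16700280)) (b (c (a (l 16728952) (l 16682472)) (b (l 16719072) (l 16641840))) (a (c (l 16702400) (l 16619952)) (l 16616440)))) (c (b (a (b (l 16680880) (l 16625976)) (b (l 16636984) (l 16623112))) (a (l 16687952) (l 16600080))) (b (l 16686976) (l 16702216)))) (b (c (a (a (l 16703040) (l 16661984)) (l 16743104)) (b (l 16748824) (l 16659768))) (a (c (l 16717904) (l 16734200)) (l 16639592))))), by decide +kernel⟩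

def k10_B70pp_101_s1 : ∃ t, chk3 f_B70pp_101_s1 t 35 62 5 = true :=
  ⟨(b (b (a (a (l 3) (l 520939791)) (a (l 520808719) (l 520676623))) (a (a (b (l 522673295) (l 521068623)) (l 520642959)) (a (l 522674319) (l 522691983)))) (a (b (a (c (c (b (l 523155279) (a (c (a (l 16678136) (l 16762800)) (l 16764992)) (l 16760688))) (l 522727311)) (l 520730255)) (c (b (l 524812943) (l 16709680)) (l 16664336))) (c (a (b (c (b (l 16713384) (l 16666248)) (l 16754848)) (c (l 16695968) (l 16665584))) (c (l 16744208) (l 16742016))) (a (l 16703016) (l 16650400)))) (b (c (b (l 16656080) (l 16651568)) (l 16648320)) (c (l 16644704) (l 16634016))))), by decide +kernel⟩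

def k11_B70pp_101_s1 : ∃ t, chk3 f_B70pp_101_s1 t 17 63 2 = true :=
  ⟨(a (a (l 14) (a (l 14) (a (l 14) (b (b (c (c (l 16709520) (l 16628624)) (c (c (b (l 16682952) (l 14)) (l 16648680)) (l 16657568))) (l 14)) (l 14))))) (c (b (b (a (c (a (b (l 16707232) (l 16691744)) (c (l 16601360) (l 16685096))) (a (c (l 16701104) (a (l 16662912) (l 16617352))) (c (a (l 16688880) (l 16600528)) (l 16618344)))) (c (c (a (l 16669328) (a (l 16657408) (l 16568816))) (a (b (l 16679328) (l 16580376)) (l 16668352))) (a (l 16610424) (l 16609280)))) (a (b (c (a (l 16590504) (l 16659392)) (a (c (l 16677512) (a (l 14) (l 16677440))) (c (l 16580320) (l 16676808)))) (c (l 16647248) (l 16575952))) (c (a (l 16637744) (l 16625832)) (l 16576232)))) (a (b (c (l 16619480) (l 16544784)) (l 14)) (c (a (l 16493840) (l 16564312)) (l 16597888)))) (b (c (a (b (a (c (l 16634696) (l 16734504)) (c (l 16674760) (l 16645448))) (a (l 16610392) (l 16608752))) (b (l 16629528) (a (l 16602528) (l 16688000)))) (a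 (b (l 16644328) (l 16629016)) (b (l 16706192) (l 16691384)))) (a (b (c (l 16570808) (l 16594104)) (l 14)) (c (l 16545152) (l 16650776)))))), by decide +kernel⟩

def k12_B70pp_101_s1 : ∃ t, chk3 f_B70pp_101_s1 t 17 31 3 = true :=
  ⟨(b (c (b (a (a (l 3) (b (l 3) (a (l 3) (l 521308943)))) (b (a (a (l 3) (l 520814607)) (l 520278287)) (a (a (l 521171727) (l 521029391)) (a (l 520885519) (l 16662264))))) (a (b (b (a (l 3) (a (l 521084431) (l 520993039))) (a (l 14) (a (l 521166095) (l 521072911)))) (a (l 14) (a (b (l 521265423) (l 14)) (b (l 16754480) (l 16744736))))) (b (a (a (b (l 520887311) (l 16753704)) (l 16664144)) (l 16648032)) (a (a (l 16655104) (l 16728304)) (l 16711896))))) (b (a (a (l 3) (b (l 3) (a (l 3) (l 521190927)))) (b (a (a (l 3) (l 520689423)) (l 520145423)) (a (a (l 521051151) (l 520906511)) (a (l 520760079) (l 16662008))))) (a (b (b (a (l 3) (a (l 520962575) (l 520869647))) (a (l 14) (a (l 521045263) (l 520950031)))) (a (l 14) (a (b (l 521145359) (l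 14)) (l 16707528)))) (b (a (a (l 521379855) (l 16663912)) (l 16647664)) (a (l 16649632) (l 16711568)))))) (a (a (l 14) (b (a (l 14) (a (l 14) (b (c (l 16647224) (l 16727304)) (l 14)))) (l 14))) (b (c (b (a (b (l 16638008) (l 16628728)) (l 16611288)) (a (b (l 16622160) (l 16698896)) (l 16679552))) (a (b (l 16712992) (l 16694000)) (b (l 16691152) (l 16670568)))) (c (b (l 16589696) (l 16648808)) (b (l 16579224) (l 16558008)))))), by decide +kernel⟩

def k13_B70pp_101_s1 : ∃ t, chk3 f_B70pp_101_s1 t 9 14 2 = true :=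
  ⟨(a (l 3) (b (l 3) (a (l 3) (b (l 3) (b (l 3) (l 517967439)))))), by decide +kernel⟩

def k14_B70pp_101_s1 : ∃ t, chk3 f_B70pp_101_s1 t 9 30 4 = true :=
  ⟨(b (b (a (l 3) (a (a (l 3) (l 516061711)) (l 518197327))) (a (a (l 3) (a (l 3) (l 513356303))) (a (a (l 513519119) (l 516304911)) (a (l 521785295) (l 16702440))))) (a (c (b (b (a (l 3) (a (c (l 513284111) (l 513229071)) (l 513391375))) (a (a (l 3) (c (a (l 511844431) (l 513427983)) (l 511547983))) (a (a (l 513477135) (l 513540879)) (a (l 16696208) (l 16723464))))) (a (a (b (a (l 3) (l 512885199)) (l 514346319)) (b (a (a (l 512199503) (l 509755471)) (b (l 510174351) (l 511750735))) (a (b (l 511067343) (a (l 16659976) (l 16732360))) (b (l 16642544) (l 16712000))))) (a (b (a (b (l 16705072) (l 16728768)) (l 16639352)) (a (l 16616800) (l 16686008))) (b (l 16617360) (l 16664176))))) (b (a (a (l 3) (b (l 3) (a (l 511689039) (l 513290767)))) (a (l 513526287) (l 513628687))) (a (a (b (l 513679311) (l 517793039)) (b (a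 (l 511823439) (l 511698767)) (l 509721423))) (a (b (a (l 510283407) (l 16639088)) (l 16608536)) (b (l 16616992) (l 16663104)))))) (a (b (c (a (b (l 513566735) (l 16617792)) (b (l 16707744) (l 16684624))) (a (l 513774095) (l 16653904))) (a (b (l 16588112) (l 16634872)) (l 16557424))) (b (a (l 16646752) (l 16690448)) (a (l 16642264) (l 16648944)))))), by decide +kernel⟩

def k15_B70pp_101_s1 : ∃ t, chk3 f_B70pp_101_s1 t 9 30 5 = true :=
  ⟨(b (a (a (l 3) (b (l 3) (a (l 3) (l 513140751)))) (a (b (a (l 3) (l 515878159)) (a (l 513300751) (l 516123151))) (b (l 518096463) (a (l 521680079) (l 16681160))))) (a (b (a (a (l 3) (b (l 3) (l 511262799))) (a (l 513363727) (l 513465871))) (a (b (a (a (l 3) (l 512590543)) (a (l 511636815) (l 511510095))) (a (b (l 517485071) (l 517530383)) (l 509533007))) (a (b (l 509987471) (l 16649808)) (b (l 16658376) (l 16662224))))) (a (a (b (l 513611535) (l 16589192)) (b (l 516411919) (l 16639848))) (b (a (l 16604112) (l 16689904)) (a (l 16640936)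 (l 16647848)))))), by decide +kernel⟩

def k16_B70pp_101_s1 : ∃ t, chk3 f_B70pp_101_s1 t 18 31 2 = true :=
  ⟨(b (a (b (a (c (b (c (b (l 520282191) (a (c (a (c (l 16716256) (l 16762136)) (l 16755400)) (l 16753912)) (l 16720568))) (l 518473871)) (b (c (a (c (a (l 16665192) (l 16746456)) (l 16750608)) (l 16650424)) (l 520314511)) (c (a (c (l 16650592) (l 16744184)) (l 16641496)) (l 16642880)))) (b (a (l 519290895) (l 16695344)) (b (l 16644960) (l 16633696)))) (c (b (a (c (b (l 16686600) (l 16637712)) (l 16676312)) (c (l 16615656) (l 16691432))) (a (c (l 16626296) (l 16615128)) (l 16594072))) (b (l 508825039) (a (l 16691320) (l 16664032))))) (a (c (c (b (a (b (l 16642192) (l 16626112)) (l 16623352)) (a (l 16604296) (b (l 16603192) (l 16581728)))) (b (l 16633896) (b (l 16622888) (l 16611376)))) (b (b (l 16623832) (l 16616208)) (a (l 16616968) (l 16591240)))) (c (b (a (c (l 16605880) (l 16682152)) (l 16659432)) (a (b (l 16585096) (l 16593288)) (l 16555528))) (b (a (l 16585816)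 (l 16642128)) (a (l 16565200) (l 16623144)))))) (b (c (a (b (c (a (l 16590128) (l 16654904)) (l 16573088)) (b (l 16558368) (l 16631944))) (b (l 16589312) (l 16598408))) (a (b (l 16571848) (l 16623672)) (l 16603536))) (c (a (b (l 16617104) (l 16603824)) (b (l 16488032) (l 16554520))) (a (b (l 16599696) (l 16585128)) (b (l 16470392) (l 16535848)))))) (a (b (a (c (a (b (c (l 16571608) (l 16604712)) (l 16549472)) (c (l 16539328) (l 16569320))) (b (l 16590112) (l 16657296))) (c (c (l 16514704) (l 16621336)) (l 16613472))) (c (a (c (l 16548184) (l 16499368)) (l 16452088)) (a (b (l 16630888) (l 16503096)) (l 16569712)))) (c (b (a (l 16486768) (l 16527704)) (c (l 16395544) (l 16498608))) (b (l 16539712) (l 16497968))))), by decide +kernel⟩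

def k17_B70pp_101_s1 : ∃ t, chk3 f_B70pp_101_s1 t 19 31 2 = true :=
  ⟨(a (b (c (b (a (b (l 16518792) (l 16485696)) (b (l 16595496) (l 16568552))) (a (l 16449928) (l 16535120))) (b (a (l 16510936) (l 16570256)) (a (l 16432352) (l 16517968)))) (a (b (c (l 16485584) (l 16473528)) (l 16347960)) (b (l 16473832) (l 16413968)))) (b (b (a (c (b (l 16602840) (l 16580624)) (l 16581600)) (c (l 16604424) (l 16594168))) (c (l 16555328) (l 16539104))) (b (l 16495680) (l 16429584)))), by decide +kernel⟩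

def k18_B70pp_101_s1 : ∃ t, chk3 f_B70pp_101_s1 t 9 14 3 = true :=
  ⟨(a (l 3) (b (l 3) (a (l 3) (b (l 3) (b (l 3) (l 515750479)))))), by decide +kernel⟩

def k19_B70pp_101_s1 : ∃ t, chk3 f_B70pp_101_s1 t 9 30 3 = true :=
  ⟨(b (c (a (a (l 3) (b (l 3) (a (l 3) (l 512920847)))) (a (b (a (l 3) (l 515694607)) (a (l 513081615) (l 515941135))) (b (l 517995599) (a (l 521574607) (l 523513679))))) (a (a (l 3) (b (l 3) (a (l 3) (l 512701199)))) (a (b (a (l 3) (l 515511055)) (a (l 512862479) (l 515759375))) (b (l 515881295) (a (l 521469391) (l 523431247)))))) (a (b (c (a (a (l 3) (l 505247567)) (a (l 513146895) (l 513248783))) (a (a (l 3) (b (l 3) (l 510755919))) (a (l 512930063) (l 513031695)))) (a (b (a (l 511157199) (l 509001807)) (a (l 517408783) (l 507142991))) (c (a (b (l 509716111) (l 16606976)) (l 508432015)) (a (b (l 509444751) (l 16606088)) (b (l 509656463) (l 16659880)))))) (a (a (b (c (l 513394959) (l 513178383)) (c (l 16566976) (l 508368015))) (b (c (l 516232463)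 (l 516053007)) (c (l 16638560) (l 16637272)))) (b (a (c (l 16603408) (l 519421967)) (c (l 16689360) (l 16688816))) (a (c (l 16639784) (l 16638632)) (c (l 16646920) (l 16645992))))))), by decide +kernel⟩

def k20_B70pp_101_s1 : ∃ t, chk3 f_B70pp_101_s1 t 9 31 3 = true :=
  ⟨(a (b (c (a (a (b (b (l 517649167) (l 517847311)) (b (l 16615872) (l 16591648))) (b (b (l 508559823) (l 16592832)) (b (l 16649808) (l 16539880)))) (b (a (b (l 16654448) (l 16622088)) (l 16601888)) (a (l 16498968) (l 16453272)))) (a (b (a (b (l 517479695) (l 517679887)) (b (l 508294351) (l 16591840))) (a (b (l 16615184) (l 16590944)) (b (l 16648552) (l 16622464)))) (b (a (b (l 16569280) (l 16620464)) (l 16600048)) (a (l 16497336) (l 16451120))))) (a (b (a (b (c (l 16574992) (l 16654544)) (c (l 16642544) (l 16633320))) (c (l 16598872) (l 16592088))) (a (c (l 16611600) (l 16518464)) (c (l 16563384) (l 16553728)))) (b (c (l 16524624) (l 16517128)) (c (l 16491632) (l 16481360))))) (b (a (a (b (c (l 16488016)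 (b (l 16590776) (l 16550456))) (b (l 16519056) (l 16488088))) (b (b (l 16584704) (l 16551088)) (l 16505672))) (b (a (b (l 16592728) (l 16564128)) (l 16592064)) (l 16527752))) (a (b (a (c (l 16458040) (l 16449928)) (l 16450744)) (a (l 16330928) (l 16398392))) (b (l 16474032) (l 16414976))))), by decide +kernel⟩

def k21_B70pp_101_s1 : ∃ t, chk3 f_B70pp_101_s1 t 10 6 1 = true :=
  ⟨(l 3), by decide +kernel⟩

def k22_B70pp_101_s1 : ∃ t, chk3 f_B70pp_101_s1 t 10 14 1 = true :=
  ⟨(b (b (l 3) (a (l 3) (c (a (l 525841167) (l 524686351)) (a (l 525739023) (l 524546319))))) (b (c (a (a (l 3) (l 526864911)) (a (l 526139663) (l 524983055))) (a (a (l 3) (l 526790159)) (a (l 526040335) (l 524845839)))) (a (a (b (c (c (l 524761103) (l 524690447)) (c (l 524619791) (l 524549391))) (c (a (l 525672975) (l 525021583)) (a (l 525568655) (l 524957071)))) (b (c (c (l 526981135) (l 526941967)) (c (l 526902543) (l 526863375))) (c (c (l 526895631) (l 527126287)) (a (l 526614799) (l 527405071)))))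 (c (a (b (l 526250767) (l 526409999)) (c (l 525371407) (l 16596856))) (a (b (l 526148367) (l 526309391)) (l 524669967)))))), by decide +kernel⟩

def k23_B70pp_101_s1 : ∃ t, chk3 f_B70pp_101_s1 t 10 15 1 = true :=
  ⟨(b (a (b (b (c (a (a (l 525837967) (l 527193231)) (c (l 528032783) (l 16719992))) (a (c (l 526349711) (l 524293519)) (a (l 527597711) (l 528216079)))) (c (a (a (l 525202511) (l 16717088)) (c (l 16708456) (l 16708400))) (a (a (l 525081167) (l 528079119)) (a (l 16712456) (l 16704448))))) (c (a (b (a (l 16612392) (l 16700408)) (c (l 16580064) (l 16663280))) (b (a (l 16697960) (l 16687584)) (a (l 16676456) (l 16669968)))) (a (a (b (l 521265487) (l 16572976)) (b (l 16700168) (l 16668768))) (b (a (l 16697920) (l 16687496)) (a (l 16676456) (l 16670040)))))) (c (b (a (c (l 16682072) (l 16681744)) (c (l 16556056) (l 16555344))) (b (a (l 16660248) (l 16615712)) (l 16614224))) (b (a (b (l 526970127) (l 16674328)) (b (l 16646976) (l 16630032))) (b (a (l 16659744)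 (l 16614376)) (l 16613248))))) (a (b (a (c (b (l 16618608) (l 16488728)) (l 16498088)) (c (b (l 16634792) (l 16592792)) (l 16601008))) (c (a (l 16405144) (l 16511784)) (a (b (l 16503016) (l 16445552)) (b (l 16526472) (l 16470672))))) (b (c (b (l 16585256) (l 16555760)) (l 16474448)) (c (a (l 16422280) (l 16483656)) (a (l 16406888) (l 16384728)))))), by decide +kernel⟩

def k24_B70pp_101_s1 : ∃ t, chk3 f_B70pp_101_s1 t 11 3 1 = true :=
  ⟨(b (b (l 3) (b (l 3) (b (a (l 3) (a (l 3) (c (l 536870927) (l 536870927)))) (a (a (l 3) (a (l 3) (c (l 521764815) (l 521480655)))) (a (c (a (l 521868623) (b (l 527250767) (l 527286607))) (a (l 521651023) (b (l 527064143) (l 527100239)))) (c (c (l 527443279) (l 527350095)) (c (l 527257167) (l 527164239)))))))) (b (a (b (c (c (b (l 522911759) (l 522915087)) (b (l 522814991) (l 523087887))) (c (b (l 522718223) (l 522723855)) (a (l 523562255) (l 522432783)))) (c (b (a (l 524021007) (c (l 16569744) (l 16568832))) (a (l 524361999) (c (l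 16598080) (l 16596744)))) (a (b (l 523851279) (l 524197135)) (b (c (l 16567928) (l 16567016)) (l 523357199))))) (b (b (a (c (c (l 522494671) (l 522356943)) (a (l 523315215) (l 518431951))) (b (c (a (l 527599951) (l 527650383)) (l 525427279)) (c (c (l 16683632) (l 16598784)) (c (l 16597816) (l 16596848))))) (a (c (c (l 522593743) (l 522457807)) (a (l 523584527) (l 522532047))) (c (l 523017679) (l 522751183)))) (a (c (b (a (l 524043791) (l 522890959)) (a (b (l 16596592) (l 16570008)) (l 16535672))) (b (a (l 523867919) (l 522626255)) (a (l 16496496) (l 16534336)))) (c (b (l 16557680) (l 16619008)) (b (l 522825423) (l 16617832)))))) (a (c (b (b (a (b (l 16604360) (l 16587976)) (b (l 16560736) (l 16545904))) (l 16460632)) (b (l 16410544) (l 16435552))) (b (b (a (b (l 16602104) (l 16585760)) (b (l 16557648) (l 16542904))) (l 16540040)) (b (l 16483272) (l 16336688)))) (b (b (a (a (c (l 16545096) (l 16542168)) (l 16586168)) (l 16583216)) (c (l 16580656) (l 16578704))) (c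 (b (l 16450976) (l 16481328)) (b (l 16526952) (l 16469944))))))), by decide +kernel⟩

def k25_B70pp_101_s1 : ∃ t, chk3 f_B70pp_101_s1 t 3 2 1 = true :=
  ⟨(a (l 3) (l 1)), by decide +kernel⟩

def k26_B70pp_101_s1 : ∃ t, chk3 f_B70pp_101_s1 t 3 6 1 = true :=
  ⟨(a (b (b (a (l 3) (l 1)) (c (a (a (l 3) (a (l 3) (l 536870927))) (a (l 536870927) (l 1))) (a (a (l 3) (a (l 3) (l 536870927))) (a (l 536870927) (l 1))))) (a (a (c (b (c (l 536870927) (l 536870927)) (l 519840911)) (b (c (l 536870927) (l 536870927)) (b (l 536870927) (l 527799439)))) (b (c (c (l 536870927) (l 536870927)) (c (l 536870927) (l 536870927))) (c (c (a (l 528109455) (l 528180623)) (l 519941519)) (c (l 519826831) (l 523739023))))) (b (c (a (c (l 536870927) (l 536870927)) (c (l 346852163591) (l 353294614535))) (a (c (l 536870927) (l 536870927)) (c (l 365642645511) (l 366179516423)))) (c (a (c (l 526240143) (l 528140687)) (b (l 536870927) (l 524412815))) (a (b (l 536870927) (l 518019727)) (b (l 536870927)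 (l 528220303))))))) (a (a (a (b (l 1) (b (l 1) (c (l 361347506343) (l 355978817543)))) (l 1)) (l 1)) (l 1))), by decide +kernel⟩

def k27_B70pp_101_s1 : ∃ t, chk3 f_B70pp_101_s1 t 3 7 1 = true :=
  ⟨(a (b (a (c (a (b (b (a (c (l 527633231) (l 527541583)) (l 528124559)) (a (c (l 16501312) (l 16499000)) (b (l 16567160) (l 16516704)))) (b (a (l 16550512) (l 16385680)) (a (l 16523800) (l 16432704)))) (b (c (b (l 16650832) (l 16540472)) (b (l 16649184) (l 16537376))) (b (a (l 16428912) (l 16424496)) (l 16336504)))) (b (a (b (a (c (l 527449935) (l 527358031)) (l 527897487)) (a (c (l 16496680) (l 16494368)) (c (l 16538816) (l 16535800)))) (c (b (l 16647528) (l 16534280)) (b (l 16645880) (l 16531184)))) (a (a (b (l 16461904) (l 16519296)) (c (l 16361920) (l 16274216))) (b (a (l 16419904) (l 16415336)) (l 16325376))))) (c (b (a (c (l 16511568) (l 16509192)) (a (l 16510376) (l 16594264))) (l 16365336)) (b (a (c (l 16506816) (l 16504440)) (a (l 16505624) (l 16589512))) (l 16354640))))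 (a (b (b (a (l 16349352) (l 16168176)) (c (l 16203672) (l 16197208))) (c (b (l 16269240) (l 16265168)) (b (l 16273552) (l 16274936)))) (b (c (a (l 15883840) (l 16113496)) (a (l 16104232) (l 16081376))) (a (b (l 15904784) (l 15975736)) (b (l 15904176) (l 15748456)))))) (a (b (b (a (a (c (l 16594264) (l 16589512)) (l 16591888)) (l 16508000)) (c (l 16365336) (l 16354640))) (b (c (l 16113496) (l 16081376)) (c (l 15858544) (l 15854768)))) (b (c (l 569115620727) (l 16303136)) (b (c (l 16113496) (l 16081376)) (l 6))))), by decide +kernel⟩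

theorem t28_B70pp_101_s1 : ∃ t, chk3 f_B70pp_101_s1 t 3 3 1 = true := ex3_b k26_B70pp_101_s1 k27_B70pp_101_s1

theorem t29_B70pp_101_s1 : ∃ t, chk3 f_B70pp_101_s1 t 3 1 1 = true := ex3_b k25_B70pp_101_s1 t28_B70pp_101_s1

theorem t30_B70pp_101_s1 : ∃ t, chk3 f_B70pp_101_s1 t 10 7 1 = true := ex3_b k22_B70pp_101_s1 k23_B70pp_101_s1

theorem t31_B70pp_101_s1 : ∃ t, chk3 f_B70pp_101_s1 t 10 3 1 = true := ex3_b k21_B70pp_101_s1 t30_B70pp_101_s1

theorem t32_B70pp_101_s1 : ∃ t, chk3 f_B70pp_101_s1 t 5 3 1 = true := ex3_a t31_B70pp_101_s1 k24_B70pp_101_s1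

theorem t33_B70pp_101_s1 : ∃ t, chk3 f_B70pp_101_s1 t 9 15 3 = true := ex3_b k19_B70pp_101_s1 k20_B70pp_101_s1

theorem t34_B70pp_101_s1 : ∃ t, chk3 f_B70pp_101_s1 t 9 7 3 = true := ex3_b k18_B70pp_101_s1 t33_B70pp_101_s1

theorem t35_B70pp_101_s1 : ∃ t, chk3 f_B70pp_101_s1 t 9 31 2 = true := ex3_a k16_B70pp_101_s1 k17_B70pp_101_s1

theorem t36_B70pp_101_s1 : ∃ t, chk3 f_B70pp_101_s1 t 9 30 2 = true := ex3_c k14_B70pp_101_s1 k15_B70pp_101_s1

theorem t37_B70pp_101_s1 : ∃ t, chk3 f_B70pp_101_s1 t 9 15 2 = true := ex3_b t36_B70pp_101_s1 t35_B70pp_101_s1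

theorem t38_B70pp_101_s1 : ∃ t, chk3 f_B70pp_101_s1 t 9 7 2 = true := ex3_b k13_B70pp_101_s1 t37_B70pp_101_s1

theorem t39_B70pp_101_s1 : ∃ t, chk3 f_B70pp_101_s1 t 9 7 1 = true := ex3_c t38_B70pp_101_s1 t34_B70pp_101_s1

theorem t40_B70pp_101_s1 : ∃ t, chk3 f_B70pp_101_s1 t 35 62 4 = true := ex3_b k8_B70pp_101_s1 k9_B70pp_101_s1

theorem t41_B70pp_101_s1 : ∃ t, chk3 f_B70pp_101_s1 t 35 62 2 = true := ex3_c t40_B70pp_101_s1 k10_B70pp_101_s1

theorem t42_B70pp_101_s1 : ∃ t, chk3 f_B70pp_101_s1 t 34 125 2 = true := ex3_c k6_B70pp_101_s1 k7_B70pp_101_s1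

theorem t43_B70pp_101_s1 : ∃ t, chk3 f_B70pp_101_s1 t 34 62 2 = true := ex3_b k5_B70pp_101_s1 t42_B70pp_101_s1

theorem t44_B70pp_101_s1 : ∃ t, chk3 f_B70pp_101_s1 t 17 62 2 = true := ex3_a t43_B70pp_101_s1 t41_B70pp_101_s1

theorem t45_B70pp_101_s1 : ∃ t, chk3 f_B70pp_101_s1 t 17 31 2 = true := ex3_b t44_B70pp_101_s1 k11_B70pp_101_s1

theorem t46_B70pp_101_s1 : ∃ t, chk3 f_B70pp_101_s1 t 17 31 1 = true := ex3_c t45_B70pp_101_s1 k12_B70pp_101_s1

theorem t47_B70pp_101_s1 : ∃ t, chk3 f_B70pp_101_s1 t 17 15 1 = true := ex3_b k4_B70pp_101_s1 t46_B70pp_101_s1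

theorem t48_B70pp_101_s1 : ∃ t, chk3 f_B70pp_101_s1 t 8 15 1 = true := ex3_a k3_B70pp_101_s1 t47_B70pp_101_s1

theorem t49_B70pp_101_s1 : ∃ t, chk3 f_B70pp_101_s1 t 8 7 1 = true := ex3_b k2_B70pp_101_s1 t48_B70pp_101_s1

theorem t50_B70pp_101_s1 : ∃ t, chk3 f_B70pp_101_s1 t 4 7 1 = true := ex3_a t49_B70pp_101_s1 t39_B70pp_101_s1

theorem t51_B70pp_101_s1 : ∃ t, chk3 f_B70pp_101_s1 t 4 3 1 = true := ex3_b k1_B70pp_101_s1 t50_B70pp_101_s1

theorem t52_B70pp_101_s1 : ∃ t, chk3 f_B70pp_101_s1 t 2 3 1 = true := ex3_a t51_B70pp_101_s1 t32_B70pp_101_s1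

theorem t53_B70pp_101_s1 : ∃ t, chk3 f_B70pp_101_s1 t 2 1 1 = true := ex3_b k0_B70pp_101_s1 t52_B70pp_101_s1

theorem t54_B70pp_101_s1 : ∃ t, chk3 f_B70pp_101_s1 t 1 1 1 = true := ex3_a t53_B70pp_101_s1 t29_B70pp_101_s1

theorem c_B70pp_101_s1 : CertFX 536870912 536870912 536870912 536870912 1046898278 26843546 false true true .npn 1 0 1
    ndF7q1 ndF0q1 pcF0 cut_B70pp_101_s1 xt_B70pp_101_s1 :=
  certFX2 (fam := false) (s1 := true) (s2 := true) (a := 1) (b := 0) (c := 1) (cn := .npn) (n1 := ndF7q1) (n2 := ndF0q1) (pc := pcF0) (cut := cut_B70pp_101_s1) (xt := xt_B70pp_101_s1) (P1 := 536870912) (W1 := 536870912) (P2 := 536870912) (W2 := 536870912) (P3 := 1046898278) (W3 := 26843546)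
    rfl (fun _ => rfl) t54_B70pp_101_s1

theorem s_B70pp_101_s1 {κ x : ℝ} (hκ : κ * h0 = kenE x) (hx : 39 / 40 ≤ x) (hx' : x < 1)
    (H : CutVB (VFD κ) (DD x) tKF tL pcF (Cut.of [[⟨0, 1, 0, 67108864⟩, ⟨1, 0, 0, 67108864⟩, ⟨2, 1, 0, 67108864⟩]]) 1 0 1 7 0 (sgb true) (sgb true) x) :
    AltVB (VFD κ) (DD x) tKF tL pcF [⟨3, 0, 0, 1449551462⟩] 1 0 1 7 0 (sgb true) (sgb true) x :=
  strip_altVB (d := 1449551462) true rfl hκ (κ0 hκ hx) (x0 hx) hx' (covF71 hx hx') (covF01 hx hx') (x1 hx) (x2 hx') c_B70pp_101_s1 H ((ok hx hx').extB (T := tt) (sideF hx hx') hκ (κ0 hκ hx) rfl rfl (.N 1 true) (.O 1 true) (Or.inl rfl))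

noncomputable def cut_B70pp_102_s1 : Cut := Cut.of [[⟨4, 0, 0, 1449551462⟩], [⟨0, 1, 0, 67108864⟩, ⟨1, 0, 0, 67108864⟩, ⟨2, 1, 0, 67108864⟩]]

noncomputable def f_B70pp_102_s1 : ℕ → ℕ → ℕ → ℕ → Bool := onCell 0 536870912 0 536870912 1046898278 26843546
    (rowFX 2 false true true .npp 1 0 2 (qsf 536870912 536870912 0 536870912 0) ndF7q1 ndF0q2 pcF0 cut_B70pp_102_s1 Ext.none)

def k0_B70pp_102_s1 : ∃ t, chk3 f_B70pp_102_s1 t 4 2 1 = true :=
  ⟨(l 6), by decide +kernel⟩

def k1_B70pp_102_s1 : ∃ t, chk3 f_B70pp_102_s1 t 8 3 1 = true :=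
  ⟨(b (l 2) (a (b (l 2) (l 14)) (c (b (a (b (l 2) (l 14)) (a (b (l 2) (l 14)) (b (c (b (l 2) (l 15417016)) (l 15331576)) (c (b (l 15575128) (l 15661624)) (b (l 15543464) (l 15732104)))))) (a (l 14) (a (l 14) (a (l 14) (a (l 14) (c (b (l 15823664) (b (l 16269408) (l 16367120))) (b (l 15916792) (b (l 16135512) (l 16422136))))))))) (a (b (b (l 2) (l 14)) (l 14)) (a (b (b (l 2) (l 14)) (l 14)) (c (b (b (l 15314440) (b (l 15541888) (l 15736704))) (b (b (l 15953280) (l 16139000)) (b (b (l 16284032) (l 16382016)) (l 16386488)))) (b (b (l 15295064) (b (l 15556176) (l 15506776))) (b (l 15971472) (b (l 16334760) (l 16353872)))))))))), by decide +kernel⟩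

def k2_B70pp_102_s1 : ∃ t, chk3 f_B70pp_102_s1 t 9 6 1 = true :=
  ⟨(b (l 6) (b (a (a (l 2) (c (l 14673992) (l 14631824))) (l 6)) (a (c (a (c (l 15020128) (l 14984000)) (l 14937832)) (a (l 14875368) (c (l 14915384) (l 14909368)))) (c (a (a (l 14887872) (l 14882584)) (c (l 14902984) (l 14923240))) (a (c (b (l 14808728) (l 14969504)) (l 14899488)) (l 14927912)))))), by decide +kernel⟩

def k3_B70pp_102_s1 : ∃ t, chk3 f_B70pp_102_s1 t 9 14 1 = true :=
  ⟨(a (c (b (a (c (b (l 15216160) (l 15358032)) (l 15268312)) (b (l 15134072) (c (l 15288616) (l 15286744)))) (a (c (b (l 15513920) (l 15682720)) (b (l 15503576) (l 15680808))) (b (c (l 15440632) (l 15451224)) (c (l 15623696) (l 15653976))))) (b (a (c (l 15266648) (b (l 15177432) (l 15266808))) (c (b (l 15137776) (l 15307264)) (l 15076008))) (a (c (b (a (l 15522008) (l 15507240)) (a (l 15636456) (l 15707816))) (b (a (l 15542704) (l 15515424)) (l 15721104))) (c (b (l 15481728) (l 15679824)) (l 15581832))))) (c (b (c (a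 (b (l 15093200) (l 15240936)) (l 15188624)) (a (a (l 14925144) (l 15186952)) (l 15222072))) (a (c (l 15338760) (b (l 15444968) (l 15633040))) (c (l 15539664) (l 15560720)))) (b (a (c (a (l 15203688) (l 15207368)) (l 15206216)) (l 15133008)) (a (b (l 15450896) (l 15642984)) (l 15554488))))), by decide +kernel⟩

def k4_B70pp_102_s1 : ∃ t, chk3 f_B70pp_102_s1 t 9 15 1 = true :=
  ⟨(c (a (a (b (b (c (l 15862136) (l 15893176)) (a (c (l 16062440) (l 16088288)) (c (l 16033368) (l 16071640)))) (b (c (a (l 16253944) (l 16231328)) (a (b (l 16240040) (l 16345296)) (l 16098400))) (c (a (l 16357048) (l 16249456)) (a (l 16319832) (l 16365912))))) (b (c (b (l 15807904) (l 15836952)) (b (l 15855304) (l 15951664))) (c (b (c (l 16191376) (l 16210768)) (b (l 16332048) (l 16327016))) (b (b (l 16171800) (l 16273912)) (l 16398424))))) (a (b (b (c (l 15786752) (l 15821016)) (c (a (l 15973568) (l 15977080)) (l 15995424))) (c (b (a (l 16163112) (l 16154352)) (a (l 16234984) (l 16318696)))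 (b (l 16163048) (l 16322352)))) (b (c (b (l 15810496) (l 15982944)) (l 15908400)) (b (l 16071864) (l 16316712))))) (a (b (a (b (c (l 15841464) (l 15930248)) (a (l 16122304) (l 16087608))) (b (l 15865376) (l 16043288))) (a (b (a (b (l 16262416) (l 16355728)) (l 16270824)) (a (c (l 16415192) (l 16403776)) (c (l 16454896) (l 16443128)))) (b (l 16211368) (b (l 16337768) (l 16339984))))) (b (b (l 15817848) (a (l 15980768) (l 15969520))) (a (b (l 16142408) (c (l 16311744) (l 16214968))) (b (l 16127432) (l 16212368)))))), by decide +kernel⟩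

def k5_B70pp_102_s1 : ∃ t, chk3 f_B70pp_102_s1 t 5 1 1 = true :=
  ⟨(b (l 6) (b (a (a (a (b (l 6) (b (l 6) (b (l 6) (c (l 15021448) (l 15030480))))) (l 6)) (l 6)) (l 6)) (a (b (c (a (b (c (l 15013496) (l 15276136)) (c (b (l 15498624) (l 15675656)) (l 15595944))) (b (l 15323016) (l 15635736))) (a (b (l 15256352) (l 15565696)) (b (l 15295176) (l 15607744)))) (b (a (c (b (a (l 15835960) (l 15850992)) (a (l 15995112) (l 16022176))) (a (l 15894600) (l 15914472))) (c (b (l 15892936) (l 16055064)) (l 15951544))) (a (c (b (a (l 16168184) (l 16200752)) (l 16355968)) (b (l 16158432) (a (l 16322928) (l 16352360)))) (c (b (l 16218832) (l 16372368)) (b (l 16194976) (l 16356168)))))) (b (b (l 6) (a (a (l 15676360) (l 15710264)) (a (l 15781752) (l 6)))) (a (b (c (l 16002680) (l 15985032)) (c (l 16107208) (l 16086080))) (b (c (l 16104416) (l 16089824)) (c (l 16254896) (l 16237544)))))))), by decide +kernel⟩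

def k6_B70pp_102_s1 : ∃ t, chk3 f_B70pp_102_s1 t 3 1 1 = true :=
  ⟨(b (l 6) (b (l 6) (a (b (l 6) (b (a (c (l 16308976) (l 16387440)) (l 6)) (a (c (l 16333472) (l 16265920)) (c (l 15946936) (l 15865800))))) (l 6)))), by decide +kernel⟩

theorem t7_B70pp_102_s1 : ∃ t, chk3 f_B70pp_102_s1 t 9 7 1 = true := ex3_b k3_B70pp_102_s1 k4_B70pp_102_s1

theorem t8_B70pp_102_s1 : ∃ t, chk3 f_B70pp_102_s1 t 9 3 1 = true := ex3_b k2_B70pp_102_s1 t7_B70pp_102_s1

theorem t9_B70pp_102_s1 : ∃ t, chk3 f_B70pp_102_s1 t 4 3 1 = true := ex3_a k1_B70pp_102_s1 t8_B70pp_102_s1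

theorem t10_B70pp_102_s1 : ∃ t, chk3 f_B70pp_102_s1 t 4 1 1 = true := ex3_b k0_B70pp_102_s1 t9_B70pp_102_s1

theorem t11_B70pp_102_s1 : ∃ t, chk3 f_B70pp_102_s1 t 2 1 1 = true := ex3_a t10_B70pp_102_s1 k5_B70pp_102_s1

theorem t12_B70pp_102_s1 : ∃ t, chk3 f_B70pp_102_s1 t 1 1 1 = true := ex3_a t11_B70pp_102_s1 k6_B70pp_102_s1

theorem c_B70pp_102_s1 : CertFX 536870912 536870912 0 536870912 1046898278 26843546 false true true .npp 1 0 2
    ndF7q1 ndF0q2 pcF0 cut_B70pp_102_s1 Ext.none :=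
  certFX2 (fam := false) (s1 := true) (s2 := true) (a := 1) (b := 0) (c := 2) (cn := .npp) (n1 := ndF7q1) (n2 := ndF0q2) (pc := pcF0) (cut := cut_B70pp_102_s1) (xt := Ext.none) (P1 := 536870912) (W1 := 536870912) (P2 := 0) (W2 := 536870912) (P3 := 1046898278) (W3 := 26843546)
    rfl (fun _ => rfl) t12_B70pp_102_s1

theorem s_B70pp_102_s1 {κ x : ℝ} (hκ : κ * h0 = kenE x) (hx : 39 / 40 ≤ x) (hx' : x < 1)
    (H : CutVB (VFD κ) (DD x) tKF tL pcF (Cut.of [[⟨0, 1, 0, 67108864⟩, ⟨1, 0, 0, 67108864⟩, ⟨2, 1, 0, 67108864⟩]]) 1 0 2 7 0 (sgb true) (sgb true) x) :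
    AltVB (VFD κ) (DD x) tKF tL pcF [⟨3, 0, 0, 1449551462⟩] 1 0 2 7 0 (sgb true) (sgb true) x :=
  strip_altVB (d := 1449551462) true rfl hκ (κ0 hκ hx) (x0 hx) hx' (covF71 hx hx') (covF02 hx hx') (x1 hx) (x2 hx') c_B70pp_102_s1 H (noExt_VB)

noncomputable def cut_B70pp_112_s1 : Cut := Cut.of [[⟨4, 0, 0, 1449551462⟩]]

noncomputable def f_B70pp_112_s1 : ℕ → ℕ → ℕ → ℕ → Bool := onCell 536870912 536870912 0 536870912 1046898278 26843546
    (rowFX 0 false true true .dn 1 1 2 (qsf 536870912 536870912 0 536870912 1) ndF7q1 ndF0q2 pcF1 cut_B70pp_112_s1 Ext.none)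

def k0_B70pp_112_s1 : ∃ t, chk3 f_B70pp_112_s1 t 1 1 1 = true :=
  ⟨(a (b (l 6) (b (l 6) (a (l 6) (l 1)))) (l 1)), by decide +kernel⟩

theorem c_B70pp_112_s1 : CertFX 536870912 536870912 0 536870912 1046898278 26843546 false true true .dn 1 1 2
    ndF7q1 ndF0q2 pcF1 cut_B70pp_112_s1 Ext.none :=
  certFX0 (fam := false) (s1 := true) (s2 := true) (a := 1) (b := 1) (c := 2) (cn := .dn) (n1 := ndF7q1) (n2 := ndF0q2) (pc := pcF1) (cut := cut_B70pp_112_s1) (xt := Ext.none) (P1 := 536870912) (W1 := 536870912) (P2 := 0) (W2 := 536870912) (P3 := 1046898278) (W3 := 26843546)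
    rfl k0_B70pp_112_s1

theorem s_B70pp_112_s1 {κ x : ℝ} (hκ : κ * h0 = kenE x) (hx : 39 / 40 ≤ x) (hx' : x < 1) :
    AltVB (VFD κ) (DD x) tKF tL pcF [⟨3, 0, 0, 1449551462⟩] 1 1 2 7 0 (sgb true) (sgb true) x :=
  strip_altVB (d := 1449551462) true rfl hκ (κ0 hκ hx) (x0 hx) hx' (covF71 hx hx') (covF02 hx hx') (x1 hx) (x2 hx') c_B70pp_112_s1 cutVB_nil (noExt_VB)

end Pool.Agent.Strip051.G.IE1.Tab.St.C
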