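import Pool.Agent.Strip051.G.IE1.StF

/-! # Strips St7 (generated) -/

set_option linter.all false
set_option maxRecDepth 100000

namespace Pool.Agent.Strip051.G.IE1.Tab.St.C

open Pool.Agent.Strip051.PB Pool.Agent.Strip051.PB.T
open Pool.Agent.StripNear Pool.Agent.Strip051.LC
open Pool.Agent.Strip051.G.IE1.Tab Pool.Agent.Strip051.G.IE1.Tab.St

noncomputable def cut_B70pp_202_s1 : Cut := Cut.of [[⟨4, 0, 0, 1449551462⟩], [⟨0, 1, 0, 67108864⟩, ⟨1, 0, 0, 67108864⟩, ⟨2, 1, 0, 67108864⟩]]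

noncomputable def f_B70pp_202_s1 : ℕ → ℕ → ℕ → ℕ → Bool := onCell 0 536870912 0 536870912 1046898278 26843546
    (rowFX 2 false true true .pp 2 0 2 (qsf 1073741824 536870912 0 536870912 0) ndF7q2 ndF0q2 pcF0 cut_B70pp_202_s1 Ext.none)

def k0_B70pp_202_s1 : ∃ t, chk3 f_B70pp_202_s1 t 4 2 1 = true :=
  ⟨(l 6), by decide +kernel⟩

def k1_B70pp_202_s1 : ∃ t, chk3 f_B70pp_202_s1 t 16 6 1 = true :=
  ⟨(b (c (b (a (a (l 16024160) (l 6)) (l 6)) (a (a (l 16004864) (c (l 15879472) (l 15904736))) (c (l 15611760) (l 15775360)))) (a (a (c (a (l 16018696) (b (l 6) (l 15955024))) (a (c (l 16008560) (b (l 16013896) (l 15988192))) (l 15956416))) (c (l 15902896) (l 15872912))) (c (l 15735520) (l 15711024)))) (c (a (b (b (a (l 16007720) (c (l 15879448) (l 15909600))) (a (c (l 16054560) (a (l 16090032) (l 15933392))) (c (a (a (l 15952528) (l 15834960)) (l 15894960)) (a (l 15975552) (l 15959608))))) (a (c (l 16114976)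 (a (l 16174360) (c (l 16099104) (l 16095848)))) (c (a (c (l 15977792) (l 15839984)) (l 15955248)) (a (c (l 16037456) (l 16065320)) (c (l 16025368) (l 16049968)))))) (c (a (b (a (l 15862408) (c (l 15822160) (l 15850672))) (a (l 15942360) (l 15829512))) (b (c (l 15737920) (l 15737472)) (l 15822984))) (b (a (c (a (l 15826664) (l 15843792)) (l 15857000)) (l 15718920)) (a (c (l 15876688) (l 15955888)) (l 15806312))))) (a (a (c (a (b (l 15956800) (l 16152336)) (b (b (l 15960848) (b (l 16000376) (a (l 16036816) (l 16016072)))) (c (l 16013496) (l 15934624)))) (b (a (a (l 16035384) (c (b (l 15987416) (l 16042984)) (l 16012264))) (c (l 15904144) (l 15973016))) (a (c (a (l 16154952) (l 16129256)) (a (c (l 16150152) (l 16063104)) (l 16126696))) (c (l 16100368) (l 16085272))))) (c (b (b (l 15902440) (a (l 15816128) (l 15934056))) (a (l 15901848) (l 16020144))) (b (l 15899712) (l 16008840)))) (b (c (a (l 15813608)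 (l 15686800)) (l 15727160)) (c (a (l 15921176) (l 15782480)) (l 15834056)))))), by decide +kernel⟩

def k2_B70pp_202_s1 : ∃ t, chk3 f_B70pp_202_s1 t 17 6 1 = true :=
  ⟨(c (b (b (l 6) (a (c (l 15517840) (a (l 15567144) (l 15434888))) (l 6))) (a (c (b (l 15508728) (l 15605304)) (b (a (l 15568592) (l 15425136)) (a (l 15649616) (l 15502384)))) (c (b (a (l 15281592) (l 15145760)) (a (l 15386200) (l 15257488))) (b (l 15221296) (l 15306680))))) (b (b (l 6) (a (l 15318904) (l 6))) (c (a (b (l 15494608) (l 15592104)) (b (l 15242568) (l 15320032))) (b (l 15111544) (a (l 15591264) (l 15333824)))))), by decide +kernel⟩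

def k3_B70pp_202_s1 : ∃ t, chk3 f_B70pp_202_s1 t 8 7 1 = true :=
  ⟨(a (c (b (b (a (a (c (l 16210656) (c (l 16234760) (a (l 16291456) (a (l 16223032) (l 16186816))))) (c (a (b (l 15970272) (l 15934544)) (l 16041144)) (c (b (l 16097656) (l 16140072)) (a (l 16169752) (l 16064456))))) (c (a (b (l 15909160) (a (l 16064464) (l 16045232))) (l 15853360)) (a (c (l 15880512) (l 16049472)) (l 15898392)))) (l 14)) (l 14)) (b (b (a (a (c (a (l 16279200) (c (a (l 16225496) (l 16208608)) (a (l 16232144) (l 16224928)))) (a (c (a (l 16282648) (l 16170984)) (a (c (l 16278128) (l 16107432)) (l 16253080))) (c (l 16224376) (l 16209160)))) (c (c (a (l 16199208) (l 16149792)) (l 16157208)) (l 16129640))) (c (c (a (l 16037112) (l 15884144)) (l 15789200)) (l 15948192))) (l 14)) (l 14))) (c (b (a (b (c (b (l 15700072) (l 15600408)) (a (l 15744128) (l 15451672))) (l 14)) (a (b (c (b (l 15498192) (l 15553192)) (l 15495912))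 (l 14)) (b (c (b (l 15367592) (l 15421848)) (l 15376176)) (a (l 14) (l 1))))) (a (l 14) (l 1))) (a (b (b (c (b (l 15659808) (l 15706248)) (l 15367920)) (l 14)) (l 14)) (b (b (c (l 15180064) (b (l 15399688) (l 15451928))) (a (l 14) (a (l 14) (l 1)))) (l 1))))), by decide +kernel⟩

def k4_B70pp_202_s1 : ∃ t, chk3 f_B70pp_202_s1 t 9 3 1 = true :=
  ⟨(b (b (l 6) (b (a (c (a (l 14968696) (l 14728248)) (a (c (l 14964408) (l 14974368)) (c (l 14697384) (l 14691008)))) (l 6)) (a (c (a (c (l 15098456) (l 15063888)) (l 14842536)) (a (c (l 15053056) (l 15053432)) (l 14798088))) (l 1)))) (b (b (a (a (c (c (l 15030976) (l 15188320)) (c (l 15174784) (l 15078720))) (l 1)) (l 1)) (l 1)) (l 1))), by decide +kernel⟩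

def k5_B70pp_202_s1 : ∃ t, chk3 f_B70pp_202_s1 t 5 1 1 = true :=
  ⟨(b (l 6) (b (l 1) (l 1))), by decide +kernel⟩

def k6_B70pp_202_s1 : ∃ t, chk3 f_B70pp_202_s1 t 3 1 1 = true :=
  ⟨(l 1), by decide +kernel⟩

theorem t7_B70pp_202_s1 : ∃ t, chk3 f_B70pp_202_s1 t 8 6 1 = true := ex3_a k1_B70pp_202_s1 k2_B70pp_202_s1

theorem t8_B70pp_202_s1 : ∃ t, chk3 f_B70pp_202_s1 t 8 3 1 = true := ex3_b t7_B70pp_202_s1 k3_B70pp_202_s1

theorem t9_B70pp_202_s1 : ∃ t, chk3 f_B70pp_202_s1 t 4 3 1 = true := ex3_a t8_B70pp_202_s1 k4_B70pp_202_s1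

theorem t10_B70pp_202_s1 : ∃ t, chk3 f_B70pp_202_s1 t 4 1 1 = true := ex3_b k0_B70pp_202_s1 t9_B70pp_202_s1

theorem t11_B70pp_202_s1 : ∃ t, chk3 f_B70pp_202_s1 t 2 1 1 = true := ex3_a t10_B70pp_202_s1 k5_B70pp_202_s1

theorem t12_B70pp_202_s1 : ∃ t, chk3 f_B70pp_202_s1 t 1 1 1 = true := ex3_a t11_B70pp_202_s1 k6_B70pp_202_s1

theorem c_B70pp_202_s1 : CertFX 1073741824 536870912 0 536870912 1046898278 26843546 false true true .pp 2 0 2
    ndF7q2 ndF0q2 pcF0 cut_B70pp_202_s1 Ext.none :=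
  certFX2 (fam := false) (s1 := true) (s2 := true) (a := 2) (b := 0) (c := 2) (cn := .pp) (n1 := ndF7q2) (n2 := ndF0q2) (pc := pcF0) (cut := cut_B70pp_202_s1) (xt := Ext.none) (P1 := 1073741824) (W1 := 536870912) (P2 := 0) (W2 := 536870912) (P3 := 1046898278) (W3 := 26843546)
    rfl (fun _ => rfl) t12_B70pp_202_s1

theorem s_B70pp_202_s1 {κ x : ℝ} (hκ : κ * h0 = kenE x) (hx : 39 / 40 ≤ x) (hx' : x < 1)
    (H : CutVB (VFD κ) (DD x) tKF tL pcF (Cut.of [[⟨0, 1, 0, 67108864⟩, ⟨1, 0, 0, 67108864⟩, ⟨2, 1, 0, 67108864⟩]]) 2 0 2 7 0 (sgb true) (sgb true) x) :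
    AltVB (VFD κ) (DD x) tKF tL pcF [⟨3, 0, 0, 1449551462⟩] 2 0 2 7 0 (sgb true) (sgb true) x :=
  strip_altVB (d := 1449551462) true rfl hκ (κ0 hκ hx) (x0 hx) hx' (covF72 hx hx') (covF02 hx hx') (x1 hx) (x2 hx') c_B70pp_202_s1 H (noExt_VB)

noncomputable def cut_B70pm_001_s1 : Cut := Cut.of [[⟨4, 0, 0, 1449551462⟩]]

noncomputable def f_B70pm_001_s1 : ℕ → ℕ → ℕ → ℕ → Bool := onCell 0 536870912 536870912 536870912 1046898278 26843546
    (rowFX 0 false true false .up 0 0 1 (qsf 0 536870912 536870912 536870912 0) ndF7q0 ndF0q1 pcF0 cut_B70pm_001_s1 Ext.none)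

def k0_B70pm_001_s1 : ∃ t, chk3 f_B70pm_001_s1 t 1 1 1 = true :=
  ⟨(l 4), by decide +kernel⟩

theorem c_B70pm_001_s1 : CertFX 0 536870912 536870912 536870912 1046898278 26843546 false true false .up 0 0 1
    ndF7q0 ndF0q1 pcF0 cut_B70pm_001_s1 Ext.none :=
  certFX0 (fam := false) (s1 := true) (s2 := false) (a := 0) (b := 0) (c := 1) (cn := .up) (n1 := ndF7q0) (n2 := ndF0q1) (pc := pcF0) (cut := cut_B70pm_001_s1) (xt := Ext.none) (P1 := 0) (W1 := 536870912) (P2 := 536870912) (W2 := 536870912) (P3 := 1046898278) (W3 := 26843546)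
    rfl k0_B70pm_001_s1

theorem s_B70pm_001_s1 {κ x : ℝ} (hκ : κ * h0 = kenE x) (hx : 39 / 40 ≤ x) (hx' : x < 1) :
    AltVB (VFD κ) (DD x) tKF tL pcF [⟨3, 0, 0, 1449551462⟩] 0 0 1 7 0 (sgb true) (sgb false) x :=
  strip_altVB (d := 1449551462) true rfl hκ (κ0 hκ hx) (x0 hx) hx' (covF70 hx hx') (covF01 hx hx') (x1 hx) (x2 hx') c_B70pm_001_s1 cutVB_nil (noExt_VB)

noncomputable def cut_B70pm_011_s1 : Cut := Cut.of [[⟨4, 0, 0, 1449551462⟩]]

noncomputable def f_B70pm_011_s1 : ℕ → ℕ → ℕ → ℕ → Bool := onCell 0 536870912 536870912 536870912 1046898278 26843546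
    (rowFX 0 false true false .pnn 0 1 1 (qsf 0 536870912 536870912 536870912 1) ndF7q0 ndF0q1 pcF1 cut_B70pm_011_s1 Ext.none)

def k0_B70pm_011_s1 : ∃ t, chk3 f_B70pm_011_s1 t 1 1 1 = true :=
  ⟨(l 4), by decide +kernel⟩

theorem c_B70pm_011_s1 : CertFX 0 536870912 536870912 536870912 1046898278 26843546 false true false .pnn 0 1 1
    ndF7q0 ndF0q1 pcF1 cut_B70pm_011_s1 Ext.none :=
  certFX0 (fam := false) (s1 := true) (s2 := false) (a := 0) (b := 1) (c := 1) (cn := .pnn) (n1 := ndF7q0) (n2 := ndF0q1) (pc := pcF1) (cut := cut_B70pm_011_s1) (xt := Ext.none) (P1 := 0) (W1 := 536870912) (P2 := 536870912) (W2 := 536870912) (P3 := 1046898278) (W3 := 26843546)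
    rfl k0_B70pm_011_s1

theorem s_B70pm_011_s1 {κ x : ℝ} (hκ : κ * h0 = kenE x) (hx : 39 / 40 ≤ x) (hx' : x < 1) :
    AltVB (VFD κ) (DD x) tKF tL pcF [⟨3, 0, 0, 1449551462⟩] 0 1 1 7 0 (sgb true) (sgb false) x :=
  strip_altVB (d := 1449551462) true rfl hκ (κ0 hκ hx) (x0 hx) hx' (covF70 hx hx') (covF01 hx hx') (x1 hx) (x2 hx') c_B70pm_011_s1 cutVB_nil (noExt_VB)

noncomputable def cut_B70pm_012_s1 : Cut := Cut.of [[⟨4, 0, 0, 1449551462⟩]]

noncomputable def f_B70pm_012_s1 : ℕ → ℕ → ℕ → ℕ → Bool := onCell 0 536870912 0 536870912 1046898278 26843546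
    (rowFX 0 false true false .pnp 0 1 2 (qsf 0 536870912 0 536870912 1) ndF7q0 ndF0q2 pcF1 cut_B70pm_012_s1 Ext.none)

def k0_B70pm_012_s1 : ∃ t, chk3 f_B70pm_012_s1 t 1 1 1 = true :=
  ⟨(l 6), by decide +kernel⟩

theorem c_B70pm_012_s1 : CertFX 0 536870912 0 536870912 1046898278 26843546 false true false .pnp 0 1 2
    ndF7q0 ndF0q2 pcF1 cut_B70pm_012_s1 Ext.none :=
  certFX0 (fam := false) (s1 := true) (s2 := false) (a := 0) (b := 1) (c := 2) (cn := .pnp) (n1 := ndF7q0) (n2 := ndF0q2) (pc := pcF1) (cut := cut_B70pm_012_s1) (xt := Ext.none) (P1 := 0) (W1 := 536870912) (P2 := 0) (W2 := 536870912) (P3 := 1046898278) (W3 := 26843546)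
    rfl k0_B70pm_012_s1

theorem s_B70pm_012_s1 {κ x : ℝ} (hκ : κ * h0 = kenE x) (hx : 39 / 40 ≤ x) (hx' : x < 1) :
    AltVB (VFD κ) (DD x) tKF tL pcF [⟨3, 0, 0, 1449551462⟩] 0 1 2 7 0 (sgb true) (sgb false) x :=
  strip_altVB (d := 1449551462) true rfl hκ (κ0 hκ hx) (x0 hx) hx' (covF70 hx hx') (covF02 hx hx') (x1 hx) (x2 hx') c_B70pm_012_s1 cutVB_nil (noExt_VB)

noncomputable def cut_B70pm_022_s1 : Cut := Cut.of [[⟨4, 0, 0, 1449551462⟩]]

noncomputable def f_B70pm_022_s1 : ℕ → ℕ → ℕ → ℕ → Bool := onCell 0 536870912 0 536870912 1046898278 26843546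
    (rowFX 0 false true false .pp 0 2 2 (qsf 0 536870912 0 536870912 2) ndF7q0 ndF0q2 pcF2 cut_B70pm_022_s1 Ext.none)

def k0_B70pm_022_s1 : ∃ t, chk3 f_B70pm_022_s1 t 1 1 1 = true :=
  ⟨(l 6), by decide +kernel⟩

theorem c_B70pm_022_s1 : CertFX 0 536870912 0 536870912 1046898278 26843546 false true false .pp 0 2 2
    ndF7q0 ndF0q2 pcF2 cut_B70pm_022_s1 Ext.none :=
  certFX0 (fam := false) (s1 := true) (s2 := false) (a := 0) (b := 2) (c := 2) (cn := .pp) (n1 := ndF7q0) (n2 := ndF0q2) (pc := pcF2) (cut := cut_B70pm_022_s1) (xt := Ext.none) (P1 := 0) (W1 := 536870912) (P2 := 0) (W2 := 536870912) (P3 := 1046898278) (W3 := 26843546)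
    rfl k0_B70pm_022_s1

theorem s_B70pm_022_s1 {κ x : ℝ} (hκ : κ * h0 = kenE x) (hx : 39 / 40 ≤ x) (hx' : x < 1) :
    AltVB (VFD κ) (DD x) tKF tL pcF [⟨3, 0, 0, 1449551462⟩] 0 2 2 7 0 (sgb true) (sgb false) x :=
  strip_altVB (d := 1449551462) true rfl hκ (κ0 hκ hx) (x0 hx) hx' (covF70 hx hx') (covF02 hx hx') (x1 hx) (x2 hx') c_B70pm_022_s1 cutVB_nil (noExt_VB)

noncomputable def cut_B70pm_101_s1 : Cut := Cut.of [[⟨4, 0, 0, 1449551462⟩]]

noncomputable def f_B70pm_101_s1 : ℕ → ℕ → ℕ → ℕ → Bool := onCell 536870912 536870912 536870912 536870912 1046898278 26843546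
    (rowFX 0 false true false .npn 1 0 1 (qsf 536870912 536870912 536870912 536870912 0) ndF7q1 ndF0q1 pcF0 cut_B70pm_101_s1 Ext.none)

def k0_B70pm_101_s1 : ∃ t, chk3 f_B70pm_101_s1 t 1 1 1 = true :=
  ⟨(l 4), by decide +kernel⟩

theorem c_B70pm_101_s1 : CertFX 536870912 536870912 536870912 536870912 1046898278 26843546 false true false .npn 1 0 1
    ndF7q1 ndF0q1 pcF0 cut_B70pm_101_s1 Ext.none :=
  certFX0 (fam := false) (s1 := true) (s2 := false) (a := 1) (b := 0) (c := 1) (cn := .npn) (n1 := ndF7q1) (n2 := ndF0q1) (pc := pcF0) (cut := cut_B70pm_101_s1) (xt := Ext.none) (P1 := 536870912) (W1 := 536870912) (P2 := 536870912) (W2 := 536870912) (P3 := 1046898278) (W3 := 26843546)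
    rfl k0_B70pm_101_s1

theorem s_B70pm_101_s1 {κ x : ℝ} (hκ : κ * h0 = kenE x) (hx : 39 / 40 ≤ x) (hx' : x < 1) :
    AltVB (VFD κ) (DD x) tKF tL pcF [⟨3, 0, 0, 1449551462⟩] 1 0 1 7 0 (sgb true) (sgb false) x :=
  strip_altVB (d := 1449551462) true rfl hκ (κ0 hκ hx) (x0 hx) hx' (covF71 hx hx') (covF01 hx hx') (x1 hx) (x2 hx') c_B70pm_101_s1 cutVB_nil (noExt_VB)

noncomputable def cut_B70pm_102_s1 : Cut := Cut.of [[⟨4, 0, 0, 1449551462⟩]]

noncomputable def f_B70pm_102_s1 : ℕ → ℕ → ℕ → ℕ → Bool := onCell 536870912 536870912 0 536870912 1046898278 26843546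
    (rowFX 0 false true false .npp 1 0 2 (qsf 536870912 536870912 0 536870912 0) ndF7q1 ndF0q2 pcF0 cut_B70pm_102_s1 Ext.none)

def k0_B70pm_102_s1 : ∃ t, chk3 f_B70pm_102_s1 t 1 1 1 = true :=
  ⟨(l 6), by decide +kernel⟩

theorem c_B70pm_102_s1 : CertFX 536870912 536870912 0 536870912 1046898278 26843546 false true false .npp 1 0 2
    ndF7q1 ndF0q2 pcF0 cut_B70pm_102_s1 Ext.none :=
  certFX0 (fam := false) (s1 := true) (s2 := false) (a := 1) (b := 0) (c := 2) (cn := .npp) (n1 := ndF7q1) (n2 := ndF0q2) (pc := pcF0) (cut := cut_B70pm_102_s1) (xt := Ext.none) (P1 := 536870912) (W1 := 536870912) (P2 := 0) (W2 := 536870912) (P3 := 1046898278) (W3 := 26843546)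
    rfl k0_B70pm_102_s1

theorem s_B70pm_102_s1 {κ x : ℝ} (hκ : κ * h0 = kenE x) (hx : 39 / 40 ≤ x) (hx' : x < 1) :
    AltVB (VFD κ) (DD x) tKF tL pcF [⟨3, 0, 0, 1449551462⟩] 1 0 2 7 0 (sgb true) (sgb false) x :=
  strip_altVB (d := 1449551462) true rfl hκ (κ0 hκ hx) (x0 hx) hx' (covF71 hx hx') (covF02 hx hx') (x1 hx) (x2 hx') c_B70pm_102_s1 cutVB_nil (noExt_VB)

noncomputable def cut_B70pm_112_s1 : Cut := Cut.of [[⟨4, 0, 0, 1449551462⟩]]

noncomputable def f_B70pm_112_s1 : ℕ → ℕ → ℕ → ℕ → Bool := onCell 536870912 536870912 0 536870912 1046898278 26843546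
    (rowFX 0 false true false .dn 1 1 2 (qsf 536870912 536870912 0 536870912 1) ndF7q1 ndF0q2 pcF1 cut_B70pm_112_s1 Ext.none)

def k0_B70pm_112_s1 : ∃ t, chk3 f_B70pm_112_s1 t 1 1 1 = true :=
  ⟨(l 6), by decide +kernel⟩

theorem c_B70pm_112_s1 : CertFX 536870912 536870912 0 536870912 1046898278 26843546 false true false .dn 1 1 2
    ndF7q1 ndF0q2 pcF1 cut_B70pm_112_s1 Ext.none :=
  certFX0 (fam := false) (s1 := true) (s2 := false) (a := 1) (b := 1) (c := 2) (cn := .dn) (n1 := ndF7q1) (n2 := ndF0q2) (pc := pcF1) (cut := cut_B70pm_112_s1) (xt := Ext.none) (P1 := 536870912) (W1 := 536870912) (P2 := 0) (W2 := 536870912) (P3 := 1046898278) (W3 := 26843546)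
    rfl k0_B70pm_112_s1

theorem s_B70pm_112_s1 {κ x : ℝ} (hκ : κ * h0 = kenE x) (hx : 39 / 40 ≤ x) (hx' : x < 1) :
    AltVB (VFD κ) (DD x) tKF tL pcF [⟨3, 0, 0, 1449551462⟩] 1 1 2 7 0 (sgb true) (sgb false) x :=
  strip_altVB (d := 1449551462) true rfl hκ (κ0 hκ hx) (x0 hx) hx' (covF71 hx hx') (covF02 hx hx') (x1 hx) (x2 hx') c_B70pm_112_s1 cutVB_nil (noExt_VB)

noncomputable def cut_B70pm_202_s1 : Cut := Cut.of [[⟨4, 0, 0, 1449551462⟩]]

noncomputable def f_B70pm_202_s1 : ℕ → ℕ → ℕ → ℕ → Bool := onCell 1073741824 536870912 0 536870912 1046898278 26843546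
    (rowFX 0 false true false .pp 2 0 2 (qsf 1073741824 536870912 0 536870912 0) ndF7q2 ndF0q2 pcF0 cut_B70pm_202_s1 Ext.none)

def k0_B70pm_202_s1 : ∃ t, chk3 f_B70pm_202_s1 t 1 1 1 = true :=
  ⟨(a (l 6) (l 1)), by decide +kernel⟩

theorem c_B70pm_202_s1 : CertFX 1073741824 536870912 0 536870912 1046898278 26843546 false true false .pp 2 0 2
    ndF7q2 ndF0q2 pcF0 cut_B70pm_202_s1 Ext.none :=
  certFX0 (fam := false) (s1 := true) (s2 := false) (a := 2) (b := 0) (c := 2) (cn := .pp) (n1 := ndF7q2) (n2 := ndF0q2) (pc := pcF0) (cut := cut_B70pm_202_s1) (xt := Ext.none) (P1 := 1073741824) (W1 := 536870912) (P2 := 0) (W2 := 536870912) (P3 := 1046898278) (W3 := 26843546)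
    rfl k0_B70pm_202_s1

theorem s_B70pm_202_s1 {κ x : ℝ} (hκ : κ * h0 = kenE x) (hx : 39 / 40 ≤ x) (hx' : x < 1) :
    AltVB (VFD κ) (DD x) tKF tL pcF [⟨3, 0, 0, 1449551462⟩] 2 0 2 7 0 (sgb true) (sgb false) x :=
  strip_altVB (d := 1449551462) true rfl hκ (κ0 hκ hx) (x0 hx) hx' (covF72 hx hx') (covF02 hx hx') (x1 hx) (x2 hx') c_B70pm_202_s1 cutVB_nil (noExt_VB)

noncomputable def cut_B70mm_001_s1 : Cut := Cut.of [[⟨4, 0, 0, 1449551462⟩]]

noncomputable def f_B70mm_001_s1 : ℕ → ℕ → ℕ → ℕ → Bool := onCell 0 536870912 536870912 536870912 1046898278 26843546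
    (rowFX 0 false false false .up 0 0 1 (qsf 0 536870912 536870912 536870912 0) ndF7q0 ndF0q1 pcF0 cut_B70mm_001_s1 Ext.none)

def k0_B70mm_001_s1 : ∃ t, chk3 f_B70mm_001_s1 t 1 1 1 = true :=
  ⟨(l 5), by decide +kernel⟩

theorem c_B70mm_001_s1 : CertFX 0 536870912 536870912 536870912 1046898278 26843546 false false false .up 0 0 1
    ndF7q0 ndF0q1 pcF0 cut_B70mm_001_s1 Ext.none :=
  certFX0 (fam := false) (s1 := false) (s2 := false) (a := 0) (b := 0) (c := 1) (cn := .up) (n1 := ndF7q0) (n2 := ndF0q1) (pc := pcF0) (cut := cut_B70mm_001_s1) (xt := Ext.none) (P1 := 0) (W1 := 536870912) (P2 := 536870912) (W2 := 536870912) (P3 := 1046898278) (W3 := 26843546)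
    rfl k0_B70mm_001_s1

theorem s_B70mm_001_s1 {κ x : ℝ} (hκ : κ * h0 = kenE x) (hx : 39 / 40 ≤ x) (hx' : x < 1) :
    AltVB (VFD κ) (DD x) tKF tL pcF [⟨3, 0, 0, 1449551462⟩] 0 0 1 7 0 (sgb false) (sgb false) x :=
  strip_altVB (d := 1449551462) true rfl hκ (κ0 hκ hx) (x0 hx) hx' (covF70 hx hx') (covF01 hx hx') (x1 hx) (x2 hx') c_B70mm_001_s1 cutVB_nil (noExt_VB)

noncomputable def cut_B70mm_011_s1 : Cut := Cut.of [[⟨4, 0, 0, 1449551462⟩]]

noncomputable def f_B70mm_011_s1 : ℕ → ℕ → ℕ → ℕ → Bool := onCell 0 536870912 536870912 536870912 1046898278 26843546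
    (rowFX 0 false false false .pnn 0 1 1 (qsf 0 536870912 536870912 536870912 1) ndF7q0 ndF0q1 pcF1 cut_B70mm_011_s1 Ext.none)

def k0_B70mm_011_s1 : ∃ t, chk3 f_B70mm_011_s1 t 1 1 1 = true :=
  ⟨(l 5), by decide +kernel⟩

theorem c_B70mm_011_s1 : CertFX 0 536870912 536870912 536870912 1046898278 26843546 false false false .pnn 0 1 1
    ndF7q0 ndF0q1 pcF1 cut_B70mm_011_s1 Ext.none :=
  certFX0 (fam := false) (s1 := false) (s2 := false) (a := 0) (b := 1) (c := 1) (cn := .pnn) (n1 := ndF7q0) (n2 := ndF0q1) (pc := pcF1) (cut := cut_B70mm_011_s1) (xt := Ext.none) (P1 := 0) (W1 := 536870912) (P2 := 536870912) (W2 := 536870912) (P3 := 1046898278) (W3 := 26843546)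
    rfl k0_B70mm_011_s1

theorem s_B70mm_011_s1 {κ x : ℝ} (hκ : κ * h0 = kenE x) (hx : 39 / 40 ≤ x) (hx' : x < 1) :
    AltVB (VFD κ) (DD x) tKF tL pcF [⟨3, 0, 0, 1449551462⟩] 0 1 1 7 0 (sgb false) (sgb false) x :=
  strip_altVB (d := 1449551462) true rfl hκ (κ0 hκ hx) (x0 hx) hx' (covF70 hx hx') (covF01 hx hx') (x1 hx) (x2 hx') c_B70mm_011_s1 cutVB_nil (noExt_VB)

noncomputable def cut_B70mm_012_s1 : Cut := Cut.of [[⟨4, 0, 0, 1449551462⟩]]

noncomputable def f_B70mm_012_s1 : ℕ → ℕ → ℕ → ℕ → Bool := onCell 0 536870912 0 536870912 1046898278 26843546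
    (rowFX 0 false false false .pnp 0 1 2 (qsf 0 536870912 0 536870912 1) ndF7q0 ndF0q2 pcF1 cut_B70mm_012_s1 Ext.none)

def k0_B70mm_012_s1 : ∃ t, chk3 f_B70mm_012_s1 t 1 1 1 = true :=
  ⟨(l 5), by decide +kernel⟩

theorem c_B70mm_012_s1 : CertFX 0 536870912 0 536870912 1046898278 26843546 false false false .pnp 0 1 2
    ndF7q0 ndF0q2 pcF1 cut_B70mm_012_s1 Ext.none :=
  certFX0 (fam := false) (s1 := false) (s2 := false) (a := 0) (b := 1) (c := 2) (cn := .pnp) (n1 := ndF7q0) (n2 := ndF0q2) (pc := pcF1) (cut := cut_B70mm_012_s1) (xt := Ext.none) (P1 := 0) (W1 := 536870912) (P2 := 0) (W2 := 536870912) (P3 := 1046898278) (W3 := 26843546)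
    rfl k0_B70mm_012_s1

theorem s_B70mm_012_s1 {κ x : ℝ} (hκ : κ * h0 = kenE x) (hx : 39 / 40 ≤ x) (hx' : x < 1) :
    AltVB (VFD κ) (DD x) tKF tL pcF [⟨3, 0, 0, 1449551462⟩] 0 1 2 7 0 (sgb false) (sgb false) x :=
  strip_altVB (d := 1449551462) true rfl hκ (κ0 hκ hx) (x0 hx) hx' (covF70 hx hx') (covF02 hx hx') (x1 hx) (x2 hx') c_B70mm_012_s1 cutVB_nil (noExt_VB)

noncomputable def cut_B70mm_022_s1 : Cut := Cut.of [[⟨4, 0, 0, 1449551462⟩]]

noncomputable def f_B70mm_022_s1 : ℕ → ℕ → ℕ → ℕ → Bool := onCell 0 536870912 0 536870912 1046898278 26843546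
    (rowFX 0 false false false .pp 0 2 2 (qsf 0 536870912 0 536870912 2) ndF7q0 ndF0q2 pcF2 cut_B70mm_022_s1 Ext.none)

def k0_B70mm_022_s1 : ∃ t, chk3 f_B70mm_022_s1 t 1 1 1 = true :=
  ⟨(l 5), by decide +kernel⟩

theorem c_B70mm_022_s1 : CertFX 0 536870912 0 536870912 1046898278 26843546 false false false .pp 0 2 2
    ndF7q0 ndF0q2 pcF2 cut_B70mm_022_s1 Ext.none :=
  certFX0 (fam := false) (s1 := false) (s2 := false) (a := 0) (b := 2) (c := 2) (cn := .pp) (n1 := ndF7q0) (n2 := ndF0q2) (pc := pcF2) (cut := cut_B70mm_022_s1) (xt := Ext.none) (P1 := 0) (W1 := 536870912) (P2 := 0) (W2 := 536870912) (P3 := 1046898278) (W3 := 26843546)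
    rfl k0_B70mm_022_s1

theorem s_B70mm_022_s1 {κ x : ℝ} (hκ : κ * h0 = kenE x) (hx : 39 / 40 ≤ x) (hx' : x < 1) :
    AltVB (VFD κ) (DD x) tKF tL pcF [⟨3, 0, 0, 1449551462⟩] 0 2 2 7 0 (sgb false) (sgb false) x :=
  strip_altVB (d := 1449551462) true rfl hκ (κ0 hκ hx) (x0 hx) hx' (covF70 hx hx') (covF02 hx hx') (x1 hx) (x2 hx') c_B70mm_022_s1 cutVB_nil (noExt_VB)

noncomputable def cut_B70mm_101_s1 : Cut := Cut.of [[⟨4, 0, 0, 1449551462⟩]]

noncomputable def f_B70mm_101_s1 : ℕ → ℕ → ℕ → ℕ → Bool := onCell 536870912 536870912 536870912 536870912 1046898278 26843546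
    (rowFX 0 false false false .npn 1 0 1 (qsf 536870912 536870912 536870912 536870912 0) ndF7q1 ndF0q1 pcF0 cut_B70mm_101_s1 Ext.none)

def k0_B70mm_101_s1 : ∃ t, chk3 f_B70mm_101_s1 t 1 1 1 = true :=
  ⟨(b (l 3) (l 5)), by decide +kernel⟩

theorem c_B70mm_101_s1 : CertFX 536870912 536870912 536870912 536870912 1046898278 26843546 false false false .npn 1 0 1
    ndF7q1 ndF0q1 pcF0 cut_B70mm_101_s1 Ext.none :=
  certFX0 (fam := false) (s1 := false) (s2 := false) (a := 1) (b := 0) (c := 1) (cn := .npn) (n1 := ndF7q1) (n2 := ndF0q1) (pc := pcF0) (cut := cut_B70mm_101_s1) (xt := Ext.none) (P1 := 536870912) (W1 := 536870912) (P2 := 536870912) (W2 := 536870912) (P3 := 1046898278) (W3 := 26843546)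
    rfl k0_B70mm_101_s1

theorem s_B70mm_101_s1 {κ x : ℝ} (hκ : κ * h0 = kenE x) (hx : 39 / 40 ≤ x) (hx' : x < 1) :
    AltVB (VFD κ) (DD x) tKF tL pcF [⟨3, 0, 0, 1449551462⟩] 1 0 1 7 0 (sgb false) (sgb false) x :=
  strip_altVB (d := 1449551462) true rfl hκ (κ0 hκ hx) (x0 hx) hx' (covF71 hx hx') (covF01 hx hx') (x1 hx) (x2 hx') c_B70mm_101_s1 cutVB_nil (noExt_VB)

noncomputable def cut_B70mm_102_s1 : Cut := Cut.of [[⟨4, 0, 0, 1449551462⟩]]

noncomputable def f_B70mm_102_s1 : ℕ → ℕ → ℕ → ℕ → Bool := onCell 536870912 536870912 0 536870912 1046898278 26843546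
    (rowFX 0 false false false .npp 1 0 2 (qsf 536870912 536870912 0 536870912 0) ndF7q1 ndF0q2 pcF0 cut_B70mm_102_s1 Ext.none)

def k0_B70mm_102_s1 : ∃ t, chk3 f_B70mm_102_s1 t 1 1 1 = true :=
  ⟨(l 5), by decide +kernel⟩

theorem c_B70mm_102_s1 : CertFX 536870912 536870912 0 536870912 1046898278 26843546 false false false .npp 1 0 2
    ndF7q1 ndF0q2 pcF0 cut_B70mm_102_s1 Ext.none :=
  certFX0 (fam := false) (s1 := false) (s2 := false) (a := 1) (b := 0) (c := 2) (cn := .npp) (n1 := ndF7q1) (n2 := ndF0q2) (pc := pcF0) (cut := cut_B70mm_102_s1) (xt := Ext.none) (P1 := 536870912) (W1 := 536870912) (P2 := 0) (W2 := 536870912) (P3 := 1046898278) (W3 := 26843546)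
    rfl k0_B70mm_102_s1

theorem s_B70mm_102_s1 {κ x : ℝ} (hκ : κ * h0 = kenE x) (hx : 39 / 40 ≤ x) (hx' : x < 1) :
    AltVB (VFD κ) (DD x) tKF tL pcF [⟨3, 0, 0, 1449551462⟩] 1 0 2 7 0 (sgb false) (sgb false) x :=
  strip_altVB (d := 1449551462) true rfl hκ (κ0 hκ hx) (x0 hx) hx' (covF71 hx hx') (covF02 hx hx') (x1 hx) (x2 hx') c_B70mm_102_s1 cutVB_nil (noExt_VB)

noncomputable def cut_B70mm_112_s1 : Cut := Cut.of [[⟨4, 0, 0, 1449551462⟩]]

noncomputable def f_B70mm_112_s1 : ℕ → ℕ → ℕ → ℕ → Bool := onCell 536870912 536870912 0 536870912 1046898278 26843546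
    (rowFX 0 false false false .dn 1 1 2 (qsf 536870912 536870912 0 536870912 1) ndF7q1 ndF0q2 pcF1 cut_B70mm_112_s1 Ext.none)

def k0_B70mm_112_s1 : ∃ t, chk3 f_B70mm_112_s1 t 1 1 1 = true :=
  ⟨(l 5), by decide +kernel⟩

theorem c_B70mm_112_s1 : CertFX 536870912 536870912 0 536870912 1046898278 26843546 false false false .dn 1 1 2
    ndF7q1 ndF0q2 pcF1 cut_B70mm_112_s1 Ext.none :=
  certFX0 (fam := false) (s1 := false) (s2 := false) (a := 1) (b := 1) (c := 2) (cn := .dn) (n1 := ndF7q1) (n2 := ndF0q2) (pc := pcF1) (cut := cut_B70mm_112_s1) (xt := Ext.none) (P1 := 536870912) (W1 := 536870912) (P2 := 0) (W2 := 536870912) (P3 := 1046898278) (W3 := 26843546)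
    rfl k0_B70mm_112_s1

theorem s_B70mm_112_s1 {κ x : ℝ} (hκ : κ * h0 = kenE x) (hx : 39 / 40 ≤ x) (hx' : x < 1) :
    AltVB (VFD κ) (DD x) tKF tL pcF [⟨3, 0, 0, 1449551462⟩] 1 1 2 7 0 (sgb false) (sgb false) x :=
  strip_altVB (d := 1449551462) true rfl hκ (κ0 hκ hx) (x0 hx) hx' (covF71 hx hx') (covF02 hx hx') (x1 hx) (x2 hx') c_B70mm_112_s1 cutVB_nil (noExt_VB)

noncomputable def cut_B70mm_202_s1 : Cut := Cut.of [[⟨4, 0, 0, 1449551462⟩]]

noncomputable def f_B70mm_202_s1 : ℕ → ℕ → ℕ → ℕ → Bool := onCell 1073741824 536870912 0 536870912 1046898278 26843546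
    (rowFX 0 false false false .pp 2 0 2 (qsf 1073741824 536870912 0 536870912 0) ndF7q2 ndF0q2 pcF0 cut_B70mm_202_s1 Ext.none)

def k0_B70mm_202_s1 : ∃ t, chk3 f_B70mm_202_s1 t 1 1 1 = true :=
  ⟨(l 5), by decide +kernel⟩

theorem c_B70mm_202_s1 : CertFX 1073741824 536870912 0 536870912 1046898278 26843546 false false false .pp 2 0 2
    ndF7q2 ndF0q2 pcF0 cut_B70mm_202_s1 Ext.none :=
  certFX0 (fam := false) (s1 := false) (s2 := false) (a := 2) (b := 0) (c := 2) (cn := .pp) (n1 := ndF7q2) (n2 := ndF0q2) (pc := pcF0) (cut := cut_B70mm_202_s1) (xt := Ext.none) (P1 := 1073741824) (W1 := 536870912) (P2 := 0) (W2 := 536870912) (P3 := 1046898278) (W3 := 26843546)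
    rfl k0_B70mm_202_s1

theorem s_B70mm_202_s1 {κ x : ℝ} (hκ : κ * h0 = kenE x) (hx : 39 / 40 ≤ x) (hx' : x < 1) :
    AltVB (VFD κ) (DD x) tKF tL pcF [⟨3, 0, 0, 1449551462⟩] 2 0 2 7 0 (sgb false) (sgb false) x :=
  strip_altVB (d := 1449551462) true rfl hκ (κ0 hκ hx) (x0 hx) hx' (covF72 hx hx') (covF02 hx hx') (x1 hx) (x2 hx') c_B70mm_202_s1 cutVB_nil (noExt_VB)

end Pool.Agent.Strip051.G.IE1.Tab.St.C
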