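import Pool.Agent.Strip051.G.IE1.Tab

/-! # Certificates F57 (generated) -/

set_option linter.all false
set_option maxRecDepth 100000

namespace Pool.Agent.Strip051.G.IE1.Tab.C.FB70

open Pool.Agent.Strip051.PB Pool.Agent.Strip051.PB.T
open Pool.Agent.Strip051.G.IE1.Tab

noncomputable def cut_pp_202 : Cut := Cut.of [[⟨3, 0, 0, 1449551462⟩], [⟨0, 1, 0, 67108864⟩, ⟨1, 0, 0, 67108864⟩, ⟨2, 1, 0, 67108864⟩]]

noncomputable def f_pp_202 : ℕ → ℕ → ℕ → ℕ → Bool := onCell 0 536870912 0 536870912 1046898278 26843546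
    (rowFX 2 false true true .pp 2 0 2 (qsf 1073741824 536870912 0 536870912 0) ndF7q2 ndF0q2 pcF0 cut_pp_202 Ext.none)

def k0_pp_202 : ∃ t, chk3 f_pp_202 t 8 2 1 = true :=
  ⟨(a (c (a (a (b (b (l 15957656) (l 16008896)) (b (l 16078352) (l 16019480))) (c (b (b (l 15661096) (l 15813096)) (b (l 15961408) (l 15855544))) (a (b (a (l 15929224) (l 15911808)) (b (l 15983920) (l 15962352))) (b (l 15822072) (b (l 15950616) (l 15931776)))))) (b (c (a (b (l 15793136) (l 15864656)) (l 15723832)) (b (l 15713936) (l 15783144))) (b (c (a (l 15889816) (l 15786928)) (l 15805248)) (c (a (l 15878488) (l 15787256)) (l 15798912))))) (a (b (a (c (a (l 16019992) (b (l 15848104) (l 15962480))) (a (b (c (l 15977600) (l 15908776)) (c (l 16051808) (l 16004320))) (b (l 15923096) (l 15996904)))) (c (b (l 15858808) (l 15931112)) (l 15869512))) (a (c (b (a (l 16088352) (l 16030744)) (a (l 16071200) (l 15990104))) (a (b (c (l 16079960) (l 16074424)) (c (l 16062192) (l 16014312))) (b (l 16023928) (l 16004256))))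 (c (b (l 15956552) (l 15936304)) (b (l 15932440) (l 15909560))))) (b (b (l 15674352) (l 15678432)) (b (l 15759936) (c (l 15758552) (l 15736096)))))) (b (c (a (b (l 15482608) (l 15547624)) (c (b (l 15262696) (l 15323992)) (l 15267360))) (c (b (l 15331152) (l 15396552)) (b (l 15313544) (l 15379976)))) (c (b (a (l 15533824) (c (l 15335024) (l 15331192))) (c (a (l 15582184) (l 15309992)) (a (l 15556592) (l 15310768)))) (b (a (l 15521160) (l 15304832)) (c (l 15420880) (l 15404872)))))), by decide +kernel⟩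

def k1_pp_202 : ∃ t, chk3 f_pp_202 t 9 2 1 = true :=
  ⟨(b (a (c (c (b (l 14922184) (l 14962912)) (b (l 14926456) (l 14975512))) (b (l 14899840) (l 14951976))) (c (b (l 14476544) (l 14505608)) (c (b (l 14488096) (l 14515168)) (l 14476488)))) (a (c (b (c (l 14957872) (l 14980176)) (c (l 14919744) (a (l 15065152) (l 14799928)))) (b (l 14910912) (c (l 14947024) (l 14926064)))) (c (b (l 14497432) (l 14459448)) (b (c (l 14498520) (l 14495744)) (c (l 14442448) (l 14336016)))))), by decide +kernel⟩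

def k2_pp_202 : ∃ t, chk3 f_pp_202 t 4 3 1 = true :=
  ⟨(b (b (a (a (c (a (a (c (l 16020760) (l 16004848)) (c (a (l 15914288) (l 15871352)) (a (l 15923400) (l 15905448)))) (c (a (l 15846400) (l 15752288)) (l 15739736))) (a (a (c (a (l 16018696) (c (l 15961256) (l 15964088))) (a (c (l 16008560) (a (l 16014336) (l 15989144))) (l 15956416))) (c (l 15902896) (l 15872912))) (c (l 15735520) (l 15711024)))) (c (a (b (l 15457776) (c (l 15517840) (a (l 15567144) (l 15434888)))) (b (a (l 15335328) (l 15196032)) (c (a (l 15280952) (l 15137464)) (l 15209872)))) (b (l 15376528) (a (l 15360848) (c (l 15243336) (l 15234208)))))) (a (c (a (b (l 15007488) (c (l 14948584) (l 14955032))) (b (l 14743664) (l 14707568))) (a (b (l 15014984) (c (l 14972136) (l 14964312))) (b (l 14759240) (c (l 14691976) (l 14697136))))) (a (c (b (l 14510584) (l 14480144)) (c (b (l 14482720) (l 14438752)) (b (l 14480328) (l 14424936)))) (c (l 14306968) (b (l 14269648) (l 1)))))) (b (a (b (a (l 6) (c (a (a (l 6) (a (l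 6) (l 15374704))) (c (l 15194736) (l 15199864))) (a (l 15477552) (l 15215480)))) (l 6)) (a (c (a (l 14968696) (l 14728248)) (a (c (l 14964408) (l 14974368)) (c (l 14697384) (l 14691008)))) (a (c (l 14505696) (l 14442504)) (l 1)))) (a (l 6) (a (a (l 6) (a (l 6) (l 1))) (l 1))))) (l 6)), by decide +kernel⟩

def k3_pp_202 : ∃ t, chk3 f_pp_202 t 5 1 1 = true :=
  ⟨(b (a (a (b (c (l 14108112) (b (l 14066504) (c (l 14085712) (l 14074800)))) (c (l 14092528) (b (l 14066032) (l 14014928)))) (b (b (l 1) (l 1)) (l 1))) (l 1)) (b (l 1) (l 1))), by decide +kernel⟩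

def k4_pp_202 : ∃ t, chk3 f_pp_202 t 3 1 1 = true :=
  ⟨(l 1), by decide +kernel⟩

theorem s5_pp_202 : ∃ t, chk3 f_pp_202 t 4 2 1 = true := ex3_a k0_pp_202 k1_pp_202

theorem s6_pp_202 : ∃ t, chk3 f_pp_202 t 4 1 1 = true := ex3_b s5_pp_202 k2_pp_202

theorem s7_pp_202 : ∃ t, chk3 f_pp_202 t 2 1 1 = true := ex3_a s6_pp_202 k3_pp_202

theorem s8_pp_202 : ∃ t, chk3 f_pp_202 t 1 1 1 = true := ex3_a s7_pp_202 k4_pp_202

theorem c_pp_202 : CertFX 1073741824 536870912 0 536870912 1046898278 26843546 false true true .pp 2 0 2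
    ndF7q2 ndF0q2 pcF0 cut_pp_202 Ext.none :=
  certFX2 (fam := false) (s1 := true) (s2 := true) (a := 2) (b := 0) (c := 2) (cn := .pp) (n1 := ndF7q2) (n2 := ndF0q2) (pc := pcF0) (cut := cut_pp_202) (xt := Ext.none) (P1 := 1073741824) (W1 := 536870912) (P2 := 0) (W2 := 536870912) (P3 := 1046898278) (W3 := 26843546)
    rfl (fun _ => rfl) s8_pp_202

noncomputable def cut_pm_001 : Cut := Cut.of [[⟨3, 0, 0, 1449551462⟩]]

noncomputable def f_pm_001 : ℕ → ℕ → ℕ → ℕ → Bool := onCell 0 536870912 536870912 536870912 1046898278 26843546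
    (rowFX 0 false true false .up 0 0 1 (qsf 0 536870912 536870912 536870912 0) ndF7q0 ndF0q1 pcF0 cut_pm_001 Ext.none)

def k0_pm_001 : ∃ t, chk3 f_pm_001 t 1 1 1 = true :=
  ⟨(l 4), by decide +kernel⟩

theorem c_pm_001 : CertFX 0 536870912 536870912 536870912 1046898278 26843546 false true false .up 0 0 1
    ndF7q0 ndF0q1 pcF0 cut_pm_001 Ext.none :=
  certFX0 (fam := false) (s1 := true) (s2 := false) (a := 0) (b := 0) (c := 1) (cn := .up) (n1 := ndF7q0) (n2 := ndF0q1) (pc := pcF0) (cut := cut_pm_001) (xt := Ext.none) (P1 := 0) (W1 := 536870912) (P2 := 536870912) (W2 := 536870912) (P3 := 1046898278) (W3 := 26843546)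
    rfl k0_pm_001

noncomputable def cut_pm_011 : Cut := Cut.of [[⟨3, 0, 0, 1449551462⟩]]

noncomputable def f_pm_011 : ℕ → ℕ → ℕ → ℕ → Bool := onCell 0 536870912 536870912 536870912 1046898278 26843546
    (rowFX 0 false true false .pnn 0 1 1 (qsf 0 536870912 536870912 536870912 1) ndF7q0 ndF0q1 pcF1 cut_pm_011 Ext.none)

def k0_pm_011 : ∃ t, chk3 f_pm_011 t 1 1 1 = true :=
  ⟨(l 4), by decide +kernel⟩

theorem c_pm_011 : CertFX 0 536870912 536870912 536870912 1046898278 26843546 false true false .pnn 0 1 1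
    ndF7q0 ndF0q1 pcF1 cut_pm_011 Ext.none :=
  certFX0 (fam := false) (s1 := true) (s2 := false) (a := 0) (b := 1) (c := 1) (cn := .pnn) (n1 := ndF7q0) (n2 := ndF0q1) (pc := pcF1) (cut := cut_pm_011) (xt := Ext.none) (P1 := 0) (W1 := 536870912) (P2 := 536870912) (W2 := 536870912) (P3 := 1046898278) (W3 := 26843546)
    rfl k0_pm_011

noncomputable def cut_pm_012 : Cut := Cut.of [[⟨3, 0, 0, 1449551462⟩]]

noncomputable def f_pm_012 : ℕ → ℕ → ℕ → ℕ → Bool := onCell 0 536870912 0 536870912 1046898278 26843546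
    (rowFX 0 false true false .pnp 0 1 2 (qsf 0 536870912 0 536870912 1) ndF7q0 ndF0q2 pcF1 cut_pm_012 Ext.none)

def k0_pm_012 : ∃ t, chk3 f_pm_012 t 1 1 1 = true :=
  ⟨(a (l 4) (l 4)), by decide +kernel⟩

theorem c_pm_012 : CertFX 0 536870912 0 536870912 1046898278 26843546 false true false .pnp 0 1 2
    ndF7q0 ndF0q2 pcF1 cut_pm_012 Ext.none :=
  certFX0 (fam := false) (s1 := true) (s2 := false) (a := 0) (b := 1) (c := 2) (cn := .pnp) (n1 := ndF7q0) (n2 := ndF0q2) (pc := pcF1) (cut := cut_pm_012) (xt := Ext.none) (P1 := 0) (W1 := 536870912) (P2 := 0) (W2 := 536870912) (P3 := 1046898278) (W3 := 26843546)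
    rfl k0_pm_012

noncomputable def cut_pm_022 : Cut := Cut.of [[⟨3, 0, 0, 1449551462⟩]]

noncomputable def f_pm_022 : ℕ → ℕ → ℕ → ℕ → Bool := onCell 1073741824 536870912 0 536870912 1046898278 26843546
    (rowFX 2 false true false .pp 0 2 2 (qsf 0 536870912 0 536870912 2) ndF7q0 ndF0q2 pcF2 cut_pm_022 Ext.none)

def k0_pm_022 : ∃ t, chk3 f_pm_022 t 1 1 1 = true :=
  ⟨(l 4), by decide +kernel⟩

theorem c_pm_022 : CertFX 0 536870912 0 536870912 1046898278 26843546 false true false .pp 0 2 2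
    ndF7q0 ndF0q2 pcF2 cut_pm_022 Ext.none :=
  certFX2 (fam := false) (s1 := true) (s2 := false) (a := 0) (b := 2) (c := 2) (cn := .pp) (n1 := ndF7q0) (n2 := ndF0q2) (pc := pcF2) (cut := cut_pm_022) (xt := Ext.none) (P1 := 0) (W1 := 536870912) (P2 := 0) (W2 := 536870912) (P3 := 1046898278) (W3 := 26843546)
    rfl (fun _ => rfl) k0_pm_022

noncomputable def cut_pm_101 : Cut := Cut.of [[⟨3, 0, 0, 1449551462⟩]]

noncomputable def f_pm_101 : ℕ → ℕ → ℕ → ℕ → Bool := onCell 536870912 536870912 536870912 536870912 1046898278 26843546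
    (rowFX 0 false true false .npn 1 0 1 (qsf 536870912 536870912 536870912 536870912 0) ndF7q1 ndF0q1 pcF0 cut_pm_101 Ext.none)

def k0_pm_101 : ∃ t, chk3 f_pm_101 t 1 1 1 = true :=
  ⟨(l 4), by decide +kernel⟩

theorem c_pm_101 : CertFX 536870912 536870912 536870912 536870912 1046898278 26843546 false true false .npn 1 0 1
    ndF7q1 ndF0q1 pcF0 cut_pm_101 Ext.none :=
  certFX0 (fam := false) (s1 := true) (s2 := false) (a := 1) (b := 0) (c := 1) (cn := .npn) (n1 := ndF7q1) (n2 := ndF0q1) (pc := pcF0) (cut := cut_pm_101) (xt := Ext.none) (P1 := 536870912) (W1 := 536870912) (P2 := 536870912) (W2 := 536870912) (P3 := 1046898278) (W3 := 26843546)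
    rfl k0_pm_101

noncomputable def cut_pm_102 : Cut := Cut.of [[⟨3, 0, 0, 1449551462⟩]]

noncomputable def f_pm_102 : ℕ → ℕ → ℕ → ℕ → Bool := onCell 536870912 536870912 0 536870912 1046898278 26843546
    (rowFX 0 false true false .npp 1 0 2 (qsf 536870912 536870912 0 536870912 0) ndF7q1 ndF0q2 pcF0 cut_pm_102 Ext.none)

def k0_pm_102 : ∃ t, chk3 f_pm_102 t 1 1 1 = true :=
  ⟨(a (b (b (a (l 2) (c (a (l 16646024) (l 16255144)) (a (l 16642616) (l 16241584)))) (l 4)) (l 4)) (b (a (c (b (a (l 15794880) (l 15232640)) (a (l 15606136) (l 71098248951))) (b (a (l 15769368) (l 15192520)) (a (l 69488709671) (b (l 15192520) (l 4))))) (a (b (c (c (l 14596288) (l 14593112)) (b (l 14539464) (l 14540192))) (b (c (a (l 14727536) (l 14432744)) (l 14540288)) (a (l 4) (c (l 14430488) (l 14397712))))) (b (c (b (a (l 14166304) (l 13972032)) (l 13909056)) (b (a (l 14153344) (l 13941992)) (a (l 14143544) (l 13906712)))) (c (b (a (l 14143336) (l 13902544)) (a (l 14126912) (l 13863792))) (b (a (l 14129680)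 (l 13870344)) (a (l 49621172711) (c (l 13829864) (l 13822048)))))))) (l 4))), by decide +kernel⟩

theorem c_pm_102 : CertFX 536870912 536870912 0 536870912 1046898278 26843546 false true false .npp 1 0 2
    ndF7q1 ndF0q2 pcF0 cut_pm_102 Ext.none :=
  certFX0 (fam := false) (s1 := true) (s2 := false) (a := 1) (b := 0) (c := 2) (cn := .npp) (n1 := ndF7q1) (n2 := ndF0q2) (pc := pcF0) (cut := cut_pm_102) (xt := Ext.none) (P1 := 536870912) (W1 := 536870912) (P2 := 0) (W2 := 536870912) (P3 := 1046898278) (W3 := 26843546)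
    rfl k0_pm_102

noncomputable def cut_pm_112 : Cut := Cut.of [[⟨3, 0, 0, 1449551462⟩]]

noncomputable def f_pm_112 : ℕ → ℕ → ℕ → ℕ → Bool := onCell 536870912 536870912 0 536870912 1046898278 26843546
    (rowFX 2 false true false .dn 1 1 2 (qsf 536870912 536870912 0 536870912 1) ndF7q1 ndF0q2 pcF1 cut_pm_112 Ext.none)

def k0_pm_112 : ∃ t, chk3 f_pm_112 t 1 1 1 = true :=
  ⟨(a (b (a (b (c (l 16766776) (l 16766504)) (l 4)) (l 4)) (l 4)) (l 1)), by decide +kernel⟩

theorem c_pm_112 : CertFX 536870912 536870912 0 536870912 1046898278 26843546 false true false .dn 1 1 2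
    ndF7q1 ndF0q2 pcF1 cut_pm_112 Ext.none :=
  certFX2 (fam := false) (s1 := true) (s2 := false) (a := 1) (b := 1) (c := 2) (cn := .dn) (n1 := ndF7q1) (n2 := ndF0q2) (pc := pcF1) (cut := cut_pm_112) (xt := Ext.none) (P1 := 536870912) (W1 := 536870912) (P2 := 0) (W2 := 536870912) (P3 := 1046898278) (W3 := 26843546)
    rfl (fun _ => rfl) k0_pm_112

noncomputable def cut_pm_202 : Cut := Cut.of [[⟨3, 0, 0, 1449551462⟩]]

noncomputable def f_pm_202 : ℕ → ℕ → ℕ → ℕ → Bool := onCell 0 536870912 0 536870912 1046898278 26843546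
    (rowFX 2 false true false .pp 2 0 2 (qsf 1073741824 536870912 0 536870912 0) ndF7q2 ndF0q2 pcF0 cut_pm_202 Ext.none)

def k0_pm_202 : ∃ t, chk3 f_pm_202 t 4 2 1 = true :=
  ⟨(a (b (a (b (a (c (a (b (l 15892976) (l 15823704)) (b (c (l 15682968) (a (l 15804432) (l 15765480))) (l 15717352))) (a (b (c (a (l 15899288) (l 15845392)) (a (c (l 15889648) (l 15883248)) (l 15835016))) (c (l 15802848) (l 15788864))) (c (b (l 15771792) (l 15701032)) (l 15719048)))) (c (b (a (c (l 15707008) (l 15688808)) (l 15588096)) (l 15569000)) (b (l 15590104) (l 15520544)))) (a (c (a (l 15687448) (c (l 15585672) (l 15575744))) (a (c (l 15664144) (a (l 15675032) (l 15622928))) (c (l 15561464) (l 15539480)))) (c (c (l 15445776) (l 15420448)) (l 15381984)))) (c (b (b (a (l 15402824) (l 15177696)) (l 15224192)) (c (l 15127744) (l 15092264))) (b (b (l 15096840) (l 15179864)) (l 15056072)))) (a (a (c (a (b (l 15456320) (l 15156016)) (c (b (l 15356872) (l 15059816)) (b (l 15342168) (l 15039400)))) (a (c (a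 (l 15300992) (b (l 15401456) (l 15095928))) (a (c (l 15202304) (a (l 15080072) (l 15263032))) (b (l 15384480) (l 15074760)))) (c (b (l 15324416) (l 15017336)) (l 15145184)))) (c (b (c (l 15211144) (l 15185128)) (c (l 14752040) (l 14897704))) (b (l 15145784) (l 14731088)))) (c (b (c (l 14907872) (l 14887368)) (c (l 14463608) (l 14625616))) (b (l 14848344) (c (l 14603528) (l 14575928)))))) (b (a (c (b (c (l 14836272) (l 14839256)) (c (l 14689720) (l 14698240))) (b (l 14789728) (l 14668568))) (c (b (a (l 14502920) (l 14302800)) (l 14284976)) (b (c (l 14417776) (l 14392896)) (l 14242184)))) (a (c (b (c (l 14491776) (l 14507184)) (c (l 14244880) (l 14256896))) (b (l 14469488) (c (l 14252392) (l 14221536)))) (c (b (l 14121400) (l 13919920)) (b (c (l 14114080) (l 14105704)) (c (l 13890960) (a (l 13960264) (l 13783360)))))))), by decide +kernel⟩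

def k1_pm_202 : ∃ t, chk3 f_pm_202 t 4 3 1 = true :=
  ⟨(b (b (a (a (c (a (a (c (l 14815760) (l 14793992)) (c (a (l 14750992) (l 14701712)) (a (l 14727576) (l 14688064)))) (c (a (l 14641584) (l 14553128)) (c (l 14599688) (l 14586040)))) (a (a (c (a (l 14788488) (c (l 14750128) (l 14737336))) (a (c (l 26000165847) (c (l 30831984951) (l 14606664))) (c (l 14724416) (l 14711248)))) (c (b (l 14753224) (l 14608464)) (l 14655304))) (c (l 14564536) (l 14536160)))) (b (c (c (l 14331016) (l 14171072)) (c (l 14386616) (l 14356208))) (l 4))) (b (a (c (c (l 14050792) (l 14048272)) (c (l 14053336) (l 14033088))) (l 4)) (l 4))) (l 4)) (l 4)), by decide +kernel⟩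

def k2_pm_202 : ∃ t, chk3 f_pm_202 t 5 1 1 = true :=
  ⟨(b (a (b (c (b (l 13890304) (l 13802592)) (c (b (l 13849968) (l 13758184)) (a (b (l 14002080) (l 13893456)) (l 13595920)))) (a (c (l 13609344) (c (l 13684936) (b (l 13743400) (l 13562760)))) (l 1))) (l 1)) (l 4)), by decide +kernel⟩

def k3_pm_202 : ∃ t, chk3 f_pm_202 t 3 1 1 = true :=
  ⟨(l 1), by decide +kernel⟩

theorem s4_pm_202 : ∃ t, chk3 f_pm_202 t 4 1 1 = true := ex3_b k0_pm_202 k1_pm_202

theorem s5_pm_202 : ∃ t, chk3 f_pm_202 t 2 1 1 = true := ex3_a s4_pm_202 k2_pm_202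

theorem s6_pm_202 : ∃ t, chk3 f_pm_202 t 1 1 1 = true := ex3_a s5_pm_202 k3_pm_202

theorem c_pm_202 : CertFX 1073741824 536870912 0 536870912 1046898278 26843546 false true false .pp 2 0 2
    ndF7q2 ndF0q2 pcF0 cut_pm_202 Ext.none :=
  certFX2 (fam := false) (s1 := true) (s2 := false) (a := 2) (b := 0) (c := 2) (cn := .pp) (n1 := ndF7q2) (n2 := ndF0q2) (pc := pcF0) (cut := cut_pm_202) (xt := Ext.none) (P1 := 1073741824) (W1 := 536870912) (P2 := 0) (W2 := 536870912) (P3 := 1046898278) (W3 := 26843546)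
    rfl (fun _ => rfl) s6_pm_202

noncomputable def cut_mm_001 : Cut := Cut.of [[⟨3, 0, 0, 1449551462⟩]]

noncomputable def f_mm_001 : ℕ → ℕ → ℕ → ℕ → Bool := onCell 0 536870912 536870912 536870912 1046898278 26843546
    (rowFX 0 false false false .up 0 0 1 (qsf 0 536870912 536870912 536870912 0) ndF7q0 ndF0q1 pcF0 cut_mm_001 Ext.none)

def k0_mm_001 : ∃ t, chk3 f_mm_001 t 1 1 1 = true :=
  ⟨(l 5), by decide +kernel⟩

theorem c_mm_001 : CertFX 0 536870912 536870912 536870912 1046898278 26843546 false false false .up 0 0 1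
    ndF7q0 ndF0q1 pcF0 cut_mm_001 Ext.none :=
  certFX0 (fam := false) (s1 := false) (s2 := false) (a := 0) (b := 0) (c := 1) (cn := .up) (n1 := ndF7q0) (n2 := ndF0q1) (pc := pcF0) (cut := cut_mm_001) (xt := Ext.none) (P1 := 0) (W1 := 536870912) (P2 := 536870912) (W2 := 536870912) (P3 := 1046898278) (W3 := 26843546)
    rfl k0_mm_001

noncomputable def cut_mm_011 : Cut := Cut.of [[⟨3, 0, 0, 1449551462⟩]]

noncomputable def f_mm_011 : ℕ → ℕ → ℕ → ℕ → Bool := onCell 0 536870912 536870912 536870912 1046898278 26843546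
    (rowFX 0 false false false .pnn 0 1 1 (qsf 0 536870912 536870912 536870912 1) ndF7q0 ndF0q1 pcF1 cut_mm_011 Ext.none)

def k0_mm_011 : ∃ t, chk3 f_mm_011 t 1 1 1 = true :=
  ⟨(l 5), by decide +kernel⟩

theorem c_mm_011 : CertFX 0 536870912 536870912 536870912 1046898278 26843546 false false false .pnn 0 1 1
    ndF7q0 ndF0q1 pcF1 cut_mm_011 Ext.none :=
  certFX0 (fam := false) (s1 := false) (s2 := false) (a := 0) (b := 1) (c := 1) (cn := .pnn) (n1 := ndF7q0) (n2 := ndF0q1) (pc := pcF1) (cut := cut_mm_011) (xt := Ext.none) (P1 := 0) (W1 := 536870912) (P2 := 536870912) (W2 := 536870912) (P3 := 1046898278) (W3 := 26843546)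
    rfl k0_mm_011

noncomputable def cut_mm_012 : Cut := Cut.of [[⟨3, 0, 0, 1449551462⟩]]

noncomputable def f_mm_012 : ℕ → ℕ → ℕ → ℕ → Bool := onCell 0 536870912 0 536870912 1046898278 26843546
    (rowFX 0 false false false .pnp 0 1 2 (qsf 0 536870912 0 536870912 1) ndF7q0 ndF0q2 pcF1 cut_mm_012 Ext.none)

def k0_mm_012 : ∃ t, chk3 f_mm_012 t 1 1 1 = true :=
  ⟨(l 5), by decide +kernel⟩

theorem c_mm_012 : CertFX 0 536870912 0 536870912 1046898278 26843546 false false false .pnp 0 1 2
    ndF7q0 ndF0q2 pcF1 cut_mm_012 Ext.none :=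
  certFX0 (fam := false) (s1 := false) (s2 := false) (a := 0) (b := 1) (c := 2) (cn := .pnp) (n1 := ndF7q0) (n2 := ndF0q2) (pc := pcF1) (cut := cut_mm_012) (xt := Ext.none) (P1 := 0) (W1 := 536870912) (P2 := 0) (W2 := 536870912) (P3 := 1046898278) (W3 := 26843546)
    rfl k0_mm_012

noncomputable def cut_mm_022 : Cut := Cut.of [[⟨3, 0, 0, 1449551462⟩]]

noncomputable def f_mm_022 : ℕ → ℕ → ℕ → ℕ → Bool := onCell 0 536870912 0 536870912 1046898278 26843546
    (rowFX 0 false false false .pp 0 2 2 (qsf 0 536870912 0 536870912 2) ndF7q0 ndF0q2 pcF2 cut_mm_022 Ext.none)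

def k0_mm_022 : ∃ t, chk3 f_mm_022 t 1 1 1 = true :=
  ⟨(l 5), by decide +kernel⟩

theorem c_mm_022 : CertFX 0 536870912 0 536870912 1046898278 26843546 false false false .pp 0 2 2
    ndF7q0 ndF0q2 pcF2 cut_mm_022 Ext.none :=
  certFX0 (fam := false) (s1 := false) (s2 := false) (a := 0) (b := 2) (c := 2) (cn := .pp) (n1 := ndF7q0) (n2 := ndF0q2) (pc := pcF2) (cut := cut_mm_022) (xt := Ext.none) (P1 := 0) (W1 := 536870912) (P2 := 0) (W2 := 536870912) (P3 := 1046898278) (W3 := 26843546)
    rfl k0_mm_022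

noncomputable def cut_mm_101 : Cut := Cut.of [[⟨3, 0, 0, 1449551462⟩]]

noncomputable def f_mm_101 : ℕ → ℕ → ℕ → ℕ → Bool := onCell 0 536870912 536870912 536870912 1046898278 26843546
    (rowFX 2 false false false .npn 1 0 1 (qsf 536870912 536870912 536870912 536870912 0) ndF7q1 ndF0q1 pcF0 cut_mm_101 Ext.none)

def k0_mm_101 : ∃ t, chk3 f_mm_101 t 1 1 1 = true :=
  ⟨(l 5), by decide +kernel⟩

theorem c_mm_101 : CertFX 536870912 536870912 536870912 536870912 1046898278 26843546 false false false .npn 1 0 1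
    ndF7q1 ndF0q1 pcF0 cut_mm_101 Ext.none :=
  certFX2 (fam := false) (s1 := false) (s2 := false) (a := 1) (b := 0) (c := 1) (cn := .npn) (n1 := ndF7q1) (n2 := ndF0q1) (pc := pcF0) (cut := cut_mm_101) (xt := Ext.none) (P1 := 536870912) (W1 := 536870912) (P2 := 536870912) (W2 := 536870912) (P3 := 1046898278) (W3 := 26843546)
    rfl (fun _ => rfl) k0_mm_101

noncomputable def cut_mm_102 : Cut := Cut.of [[⟨3, 0, 0, 1449551462⟩]]

noncomputable def f_mm_102 : ℕ → ℕ → ℕ → ℕ → Bool := onCell 536870912 536870912 0 536870912 1046898278 26843546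
    (rowFX 0 false false false .npp 1 0 2 (qsf 536870912 536870912 0 536870912 0) ndF7q1 ndF0q2 pcF0 cut_mm_102 Ext.none)

def k0_mm_102 : ∃ t, chk3 f_mm_102 t 1 1 1 = true :=
  ⟨(l 5), by decide +kernel⟩

theorem c_mm_102 : CertFX 536870912 536870912 0 536870912 1046898278 26843546 false false false .npp 1 0 2
    ndF7q1 ndF0q2 pcF0 cut_mm_102 Ext.none :=
  certFX0 (fam := false) (s1 := false) (s2 := false) (a := 1) (b := 0) (c := 2) (cn := .npp) (n1 := ndF7q1) (n2 := ndF0q2) (pc := pcF0) (cut := cut_mm_102) (xt := Ext.none) (P1 := 536870912) (W1 := 536870912) (P2 := 0) (W2 := 536870912) (P3 := 1046898278) (W3 := 26843546)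
    rfl k0_mm_102

noncomputable def cut_mm_112 : Cut := Cut.of [[⟨3, 0, 0, 1449551462⟩]]

noncomputable def f_mm_112 : ℕ → ℕ → ℕ → ℕ → Bool := onCell 536870912 536870912 0 536870912 1046898278 26843546
    (rowFX 0 false false false .dn 1 1 2 (qsf 536870912 536870912 0 536870912 1) ndF7q1 ndF0q2 pcF1 cut_mm_112 Ext.none)

def k0_mm_112 : ∃ t, chk3 f_mm_112 t 1 1 1 = true :=
  ⟨(l 5), by decide +kernel⟩

theorem c_mm_112 : CertFX 536870912 536870912 0 536870912 1046898278 26843546 false false false .dn 1 1 2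
    ndF7q1 ndF0q2 pcF1 cut_mm_112 Ext.none :=
  certFX0 (fam := false) (s1 := false) (s2 := false) (a := 1) (b := 1) (c := 2) (cn := .dn) (n1 := ndF7q1) (n2 := ndF0q2) (pc := pcF1) (cut := cut_mm_112) (xt := Ext.none) (P1 := 536870912) (W1 := 536870912) (P2 := 0) (W2 := 536870912) (P3 := 1046898278) (W3 := 26843546)
    rfl k0_mm_112

noncomputable def cut_mm_202 : Cut := Cut.of [[⟨3, 0, 0, 1449551462⟩]]

noncomputable def f_mm_202 : ℕ → ℕ → ℕ → ℕ → Bool := onCell 1073741824 536870912 0 536870912 1046898278 26843546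
    (rowFX 0 false false false .pp 2 0 2 (qsf 1073741824 536870912 0 536870912 0) ndF7q2 ndF0q2 pcF0 cut_mm_202 Ext.none)

def k0_mm_202 : ∃ t, chk3 f_mm_202 t 1 1 1 = true :=
  ⟨(l 5), by decide +kernel⟩

theorem c_mm_202 : CertFX 1073741824 536870912 0 536870912 1046898278 26843546 false false false .pp 2 0 2
    ndF7q2 ndF0q2 pcF0 cut_mm_202 Ext.none :=
  certFX0 (fam := false) (s1 := false) (s2 := false) (a := 2) (b := 0) (c := 2) (cn := .pp) (n1 := ndF7q2) (n2 := ndF0q2) (pc := pcF0) (cut := cut_mm_202) (xt := Ext.none) (P1 := 1073741824) (W1 := 536870912) (P2 := 0) (W2 := 536870912) (P3 := 1046898278) (W3 := 26843546)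
    rfl k0_mm_202

end Pool.Agent.Strip051.G.IE1.Tab.C.FB70

namespace Pool.Agent.Strip051.G.IE1.Tab.C.FB71

open Pool.Agent.Strip051.PB Pool.Agent.Strip051.PB.T
open Pool.Agent.Strip051.G.IE1.Tab

noncomputable def f_pp_001 : ℕ → ℕ → ℕ → ℕ → Bool := onCell 0 536870912 0 536870912 1046898278 26843546
    (rowFX 1 false true true .up 0 0 1 (qsf 0 536870912 536870912 536870912 0) ndF7q0 ndF1q1 pcF0 Cut.none Ext.none)

def k0_pp_001 : ∃ t, chk3 f_pp_001 t 1 1 1 = true :=
  ⟨(b (l 3) (a (l 3) (b (l 3) (a (l 3) (b (l 3) (a (b (l 3) (a (l 3) (c (l 16374048) (l 16304472)))) (b (c (a (l 440400966871) (l 16318712)) (a (l 460265156327) (l 16243888))) (a (c (l 16318712) (l 16306800)) (c (l 16122144) (l 16105128)))))))))), by decide +kernel⟩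

theorem c_pp_001 : CertFX 0 536870912 536870912 536870912 1046898278 26843546 false true true .up 0 0 1
    ndF7q0 ndF1q1 pcF0 Cut.none Ext.none :=
  certFX1 (fam := false) (s1 := true) (s2 := true) (a := 0) (b := 0) (c := 1) (cn := .up) (n1 := ndF7q0) (n2 := ndF1q1) (pc := pcF0) (cut := Cut.none) (xt := Ext.none) (P1 := 0) (W1 := 536870912) (P2 := 536870912) (W2 := 536870912) (P3 := 1046898278) (W3 := 26843546)
    rfl (fun _ => rfl) k0_pp_001

noncomputable def f_pp_011 : ℕ → ℕ → ℕ → ℕ → Bool := onCell 536870912 536870912 536870912 536870912 1046898278 26843546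
    (rowFX 2 false true true .pnn 0 1 1 (qsf 0 536870912 536870912 536870912 1) ndF7q0 ndF1q1 pcF1 Cut.none Ext.none)

def k0_pp_011 : ∃ t, chk3 f_pp_011 t 2 1 1 = true :=
  ⟨(a (b (l 3) (b (a (a (l 3) (b (l 3) (c (l 388862096903) (l 360407934775)))) (a (b (l 3) (c (l 286319751399) (b (l 16750128) (l 16758016)))) (b (c (l 16772688) (l 311015991431)) (c (l 16754640) (b (l 16750128) (l 16758016)))))) (c (a (b (a (l 196661572823) (l 16478904)) (a (l 16122144) (l 16122144))) (b (a (l 16520848) (l 16520848)) (a (l 16122144) (l 16122144)))) (a (b (a (l 196124667623) (l 16472248)) (a (l 16105128) (l 16105128))) (b (a (l 16493216) (l 16514184)) (a (l 16105128) (l 16105128))))))) (a (b (b (l 3) (a (c (l 449528725511) (l 414632116151)) (b (l 3) (c (l 16777216) (l 16777216))))) (b (c (b (c (l 16772720) (l 16772664)) (b (l 16750816) (l 16758504))) (b (c (l 16772600) (l 16772544)) (c (l 16754200) (l 16732928)))) (b (c (a (l 16520848) (l 16520848)) (b (l 16618552) (l 16409792))) (c (l 16038256)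 (b (l 16204384) (l 16007080)))))) (b (b (l 1) (c (c (l 153578635271) (l 236390973447)) (c (l 219076886535) (l 211158040423)))) (b (c (b (l 16772688) (l 16754640)) (b (l 16772576) (b (l 16750128) (l 16758016)))) (b (c (l 16520848) (b (l 16618552) (l 16409792))) (l 16113632)))))), by decide +kernel⟩

def k1_pp_011 : ∃ t, chk3 f_pp_011 t 3 1 1 = true :=
  ⟨(a (b (a (a (b (l 1) (c (l 218003143063) (l 302291875927))) (l 1)) (l 1)) (b (a (c (b (l 16767072) (a (l 16754624) (l 16745944))) (b (a (l 16772560) (l 16764976)) (a (b (l 16750120) (l 16758000)) (b (l 16741136) (l 16748896))))) (a (c (b (l 16748352) (l 16729176)) (b (l 16747632) (l 16665024))) (b (l 1) (a (l 148209617895) (a (l 144988383639) (l 16672344)))))) (a (b (c (l 16520824) (l 16513760)) (l 15922400)) (b (c (l 16529352) (a (l 16517872) (l 16521960))) (c (l 16114424) (a (l 16091816) (l 16096104))))))) (b (l 1) (a (a (b (b (l 1) (c (l 16670624) (l 416107945063))) (b (l 273836408039) (l 16104720))) (b (l 1) (b (c (l 16245080)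 (l 16208120)) (l 15891048)))) (b (l 1) (c (b (l 493415907351) (l 15644512)) (b (a (l 442413268023) (l 1)) (a (l 15757584) (l 15601448)))))))), by decide +kernel⟩

theorem s2_pp_011 : ∃ t, chk3 f_pp_011 t 1 1 1 = true := ex3_a k0_pp_011 k1_pp_011

theorem c_pp_011 : CertFX 0 536870912 536870912 536870912 1046898278 26843546 false true true .pnn 0 1 1
    ndF7q0 ndF1q1 pcF1 Cut.none Ext.none :=
  certFX2 (fam := false) (s1 := true) (s2 := true) (a := 0) (b := 1) (c := 1) (cn := .pnn) (n1 := ndF7q0) (n2 := ndF1q1) (pc := pcF1) (cut := Cut.none) (xt := Ext.none) (P1 := 0) (W1 := 536870912) (P2 := 536870912) (W2 := 536870912) (P3 := 1046898278) (W3 := 26843546)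
    rfl (fun _ => rfl) s2_pp_011

noncomputable def f_pp_012_a : ℕ → ℕ → ℕ → ℕ → Bool := onCell 536870912 536870912 0 420477299 1046898278 26843546
    (rowFX 2 false true true .pnp 0 1 2 (qsf 0 536870912 0 420477299 1) ndF7q0 ndF1q2a pcF1 Cut.none Ext.none)

def k0_pp_012_a : ∃ t, chk3 f_pp_012_a t 2 1 1 = true :=
  ⟨(b (a (l 2) (b (a (b (l 16765408) (l 16777216)) (a (b (l 16700296) (l 16777216)) (b (l 16558880) (l 16756704)))) (c (l 16777208) (l 16777208)))) (b (a (l 16777184) (l 16777184)) (a (b (c (l 16723024) (l 16721616)) (c (l 16504904) (l 16497824))) (b (l 16722320) (l 16354560))))), by decide +kernel⟩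

def k1_pp_012_a : ∃ t, chk3 f_pp_012_a t 6 1 1 = true :=
  ⟨(b (a (b (b (a (b (l 16092360) (l 16420448)) (b (a (l 15765584) (l 15594296)) (l 15785224))) (a (b (l 16705528) (l 16776928)) (b (a (l 16473288) (l 16120760)) (l 16508200)))) (a (l 16777176) (b (l 16702856) (l 16768656)))) (a (b (b (c (l 15474840) (a (l 15765696) (l 15545024))) (b (a (l 15787176) (l 15465960)) (a (l 16101320) (l 15787936)))) (b (b (l 16248120) (b (l 16473032) (l 16609016))) (a (l 16756152) (l 16747408)))) (b (a (b (l 4) (b (l 15199184) (l 15346224))) (l 15174152)) (b (b (a (l 15820552) (l 15545048)) (a (b (l 16208880) (a (l 16318520) (l 16415208))) (a (l 15914496) (l 15884984)))) (a (a (c (l 16731592) (l 16744016)) (a (l 16503200) (l 16594344))) (c (l 16397648) (l 16315440))))))) (b (a (l 16775320) (a (l 16766048) (l 16375136))) (a (b (l 16720320) (l 16499208)) (b (a (l 16710696) (a (l 16722856) (l 16525152))) (a (l 16489000) (a (l 16508928) (l 16406600))))))), by decide +kernel⟩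

def k2_pp_012_a : ∃ t, chk3 f_pp_012_a t 7 2 1 = true :=
  ⟨(b (a (a (c (a (l 15066280) (l 14881800)) (a (l 15021840) (l 14875224))) (a (a (c (l 14789112) (l 14742632)) (l 4)) (l 4))) (l 4)) (a (b (b (a (a (b (l 15222600) (l 15396072)) (b (l 14909632) (a (l 15217464) (l 15085576)))) (a (a (b (a (l 14686872) (l 14602800)) (l 14905696)) (c (l 14684584) (l 14645864))) (c (c (l 14525464) (l 14530000)) (l 14498552)))) (a (a (l 15545192) (a (l 15541648) (l 15385528))) (b (a (a (l 15092192) (l 14912800)) (c (b (l 14627424) (l 14712848)) (b (l 14601168) (l 14683168)))) (a (l 15197984) (c (l 14876048) (l 14841568)))))) (b (b (a (a (l 15884200) (a (l 15793488) (l 15558512))) (a (c (l 15417344) (l 15386760)) (c (l 15119192) (l 15081376)))) (a (l 15928048) (l 15308544))) (a (l 15961744) (l 15362248)))) (b (a (c (a (a (c (l 14263080) (l 14421016)) (c (l 14393872) (l 14412880))) (c (l 14204888) (l 14231000))) (a (a (l 14285688) (l 14391344)) (c (l 14111480) (l 14213168)))) (a (c (l 13941232)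 (c (l 13939512) (l 13931568))) (l 4))) (a (b (b (c (a (a (c (l 14890192) (l 14879432)) (b (l 14621192) (l 14734504))) (b (a (l 14414544) (l 14181512)) (a (l 14552984) (l 14355336)))) (a (b (l 14685056) (l 14785400)) (b (c (l 14263608) (l 14245768)) (b (l 14419784) (l 14477512))))) (a (l 14845560) (c (l 14494944) (l 14508192)))) (c (l 14745936) (l 14748912))) (c (a (b (b (a (b (l 14029712) (l 14139864)) (l 13948928)) (l 14106560)) (l 14201232)) (l 13882264)) (b (a (c (b (a (b (l 14061472) (l 14217752)) (l 13990648)) (l 14174256)) (b (a (l 14129840) (l 13993912)) (l 14172016))) (c (a (l 13869256) (l 13741024)) (a (c (l 13900000) (l 13897224)) (c (l 13729384) (l 13729296))))) (l 14030328))))))), by decide +kernel⟩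

def k3_pp_012_a : ∃ t, chk3 f_pp_012_a t 7 3 1 = true :=
  ⟨(a (b (a (l 15884784) (c (l 15556448) (l 15524744))) (b (a (l 15997576) (c (l 15722040) (l 15694488))) (a (c (l 16093624) (l 16075760)) (c (l 15680544) (l 15651664))))) (b (a (c (l 14840120) (l 14988584)) (c (a (l 14495264) (l 14255328)) (a (l 14545896) (c (l 14237280) (l 14237928))))) (a (b (c (l 15226624) (l 15225320)) (c (l 15222672) (l 15214888))) (c (b (l 14699568) (l 14730136)) (b (a (l 14834536) (c (l 14560632) (l 14559520))) (a (l 14849536) (c (l 14593976) (l 14589208)))))))), by decide +kernel⟩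

theorem s4_pp_012_a : ∃ t, chk3 f_pp_012_a t 7 1 1 = true := ex3_b k2_pp_012_a k3_pp_012_a

theorem s5_pp_012_a : ∃ t, chk3 f_pp_012_a t 3 1 1 = true := ex3_a k1_pp_012_a s4_pp_012_a

theorem s6_pp_012_a : ∃ t, chk3 f_pp_012_a t 1 1 1 = true := ex3_a k0_pp_012_a s5_pp_012_a

theorem c_pp_012_a : CertFX 0 536870912 0 420477299 1046898278 26843546 false true true .pnp 0 1 2
    ndF7q0 ndF1q2a pcF1 Cut.none Ext.none :=
  certFX2 (fam := false) (s1 := true) (s2 := true) (a := 0) (b := 1) (c := 2) (cn := .pnp) (n1 := ndF7q0) (n2 := ndF1q2a) (pc := pcF1) (cut := Cut.none) (xt := Ext.none) (P1 := 0) (W1 := 536870912) (P2 := 0) (W2 := 420477299) (P3 := 1046898278) (W3 := 26843546)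
    rfl (fun _ => rfl) s6_pp_012_a

noncomputable def f_pp_012_b : ℕ → ℕ → ℕ → ℕ → Bool := onCell 0 536870912 536870912 536870912 1046898278 26843546
    (rowFX 1 false true true .pnp 0 1 2 (qsf 0 536870912 1239849684 370763052 1) ndF7q0 ndF1q2b pcF1 Cut.none Ext.none)

def k0_pp_012_b : ∃ t, chk3 f_pp_012_b t 1 1 1 = true :=
  ⟨(b (a (l 1) (a (l 1) (b (l 1) (b (a (l 1) (l 16724600)) (a (l 530460861415) (l 16516424)))))) (b (a (l 1) (b (a (b (a (l 1) (l 381746492551)) (l 4)) (b (a (l 15977472) (l 16123968)) (a (l 15658512) (l 15717016)))) (l 4))) (l 4))), by decide +kernel⟩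

theorem c_pp_012_b : CertFX 0 536870912 1239849684 370763052 1046898278 26843546 false true true .pnp 0 1 2
    ndF7q0 ndF1q2b pcF1 Cut.none Ext.none :=
  certFX1 (fam := false) (s1 := true) (s2 := true) (a := 0) (b := 1) (c := 2) (cn := .pnp) (n1 := ndF7q0) (n2 := ndF1q2b) (pc := pcF1) (cut := Cut.none) (xt := Ext.none) (P1 := 0) (W1 := 536870912) (P2 := 1239849684) (W2 := 370763052) (P3 := 1046898278) (W3 := 26843546)
    rfl (fun _ => rfl) k0_pp_012_b

noncomputable def f_pp_022_a : ℕ → ℕ → ℕ → ℕ → Bool := onCell 1073741824 536870912 0 420477299 1046898278 26843546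
    (rowFX 2 false true true .pp 0 2 2 (qsf 0 536870912 0 420477299 2) ndF7q0 ndF1q2a pcF2 Cut.none Ext.none)

def k0_pp_022_a : ∃ t, chk3 f_pp_022_a t 1 1 1 = true :=
  ⟨(a (a (b (a (b (l 4) (b (l 4) (c (a (l 13897264) (l 14175488)) (a (c (l 13863696) (l 13855672)) (l 14160280))))) (l 4)) (a (b (c (a (l 14110304) (c (l 14310056) (l 14318712))) (a (c (l 14077968) (l 14068904)) (c (l 14318952) (l 14292712)))) (c (b (a (l 14301504) (l 14479360)) (a (l 14247448) (l 14405200))) (b (a (c (l 14269456) (l 14258448)) (c (l 14473968) (l 14448848))) (a (c (l 14211912) (a (l 14149128) (l 14233328))) (c (l 14393072) (l 14366336)))))) (b (a (c (a (l 14515728) (l 14645064)) (a (l 14486312) (l 14605992))) (c (l 14859520) (b (l 14789544) (l 14824744)))) (a (c (b (a (l 14643768) (l 14739592)) (a (l 14551208) (l 14628152))) (b (a (l 14612992) (l 14700504)) (a (l 14514848) (l 14584488)))) (b (c (l 14880504) (l 14831264)) (l 1)))))) (b (l 4) (b (b (l 4) (l 1)) (l 1)))) (l 1)), by decide +kernel⟩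

theorem c_pp_022_a : CertFX 0 536870912 0 420477299 1046898278 26843546 false true true .pp 0 2 2
    ndF7q0 ndF1q2a pcF2 Cut.none Ext.none :=
  certFX2 (fam := false) (s1 := true) (s2 := true) (a := 0) (b := 2) (c := 2) (cn := .pp) (n1 := ndF7q0) (n2 := ndF1q2a) (pc := pcF2) (cut := Cut.none) (xt := Ext.none) (P1 := 0) (W1 := 536870912) (P2 := 0) (W2 := 420477299) (P3 := 1046898278) (W3 := 26843546)
    rfl (fun _ => rfl) k0_pp_022_a

noncomputable def f_pp_022_b : ℕ → ℕ → ℕ → ℕ → Bool := onCell 0 536870912 1073741824 536870912 1046898278 26843546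
    (rowFX 1 false true true .pp 0 2 2 (qsf 0 536870912 1239849684 370763052 2) ndF7q0 ndF1q2b pcF2 Cut.none Ext.none)

def k0_pp_022_b : ∃ t, chk3 f_pp_022_b t 1 1 1 = true :=
  ⟨(l 4), by decide +kernel⟩

theorem c_pp_022_b : CertFX 0 536870912 1239849684 370763052 1046898278 26843546 false true true .pp 0 2 2
    ndF7q0 ndF1q2b pcF2 Cut.none Ext.none :=
  certFX1 (fam := false) (s1 := true) (s2 := true) (a := 0) (b := 2) (c := 2) (cn := .pp) (n1 := ndF7q0) (n2 := ndF1q2b) (pc := pcF2) (cut := Cut.none) (xt := Ext.none) (P1 := 0) (W1 := 536870912) (P2 := 1239849684) (W2 := 370763052) (P3 := 1046898278) (W3 := 26843546)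
    rfl (fun _ => rfl) k0_pp_022_b

noncomputable def f_pp_023 : ℕ → ℕ → ℕ → ℕ → Bool := onCell 0 536870912 1610612736 469762048 1046898278 26843546
    (rowFX 0 false true true .up 0 2 3 (qsf 0 536870912 1610612736 469762048 2) ndF7q0 ndF1q3 pcF2 Cut.none Ext.none)

def k0_pp_023 : ∃ t, chk3 f_pp_023 t 1 1 1 = true :=
  ⟨(l 4), by decide +kernel⟩

theorem c_pp_023 : CertFX 0 536870912 1610612736 469762048 1046898278 26843546 false true true .up 0 2 3
    ndF7q0 ndF1q3 pcF2 Cut.none Ext.none :=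
  certFX0 (fam := false) (s1 := true) (s2 := true) (a := 0) (b := 2) (c := 3) (cn := .up) (n1 := ndF7q0) (n2 := ndF1q3) (pc := pcF2) (cut := Cut.none) (xt := Ext.none) (P1 := 0) (W1 := 536870912) (P2 := 1610612736) (W2 := 469762048) (P3 := 1046898278) (W3 := 26843546)
    rfl k0_pp_023

noncomputable def f_pp_033 : ℕ → ℕ → ℕ → ℕ → Bool := onCell 0 536870912 1610612736 469762048 1046898278 26843546
    (rowFX 0 false true true .pnn 0 3 3 (qsf 0 536870912 1610612736 469762048 3) ndF7q0 ndF1q3 pcF3 Cut.none Ext.none)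

def k0_pp_033 : ∃ t, chk3 f_pp_033 t 1 1 1 = true :=
  ⟨(l 4), by decide +kernel⟩

theorem c_pp_033 : CertFX 0 536870912 1610612736 469762048 1046898278 26843546 false true true .pnn 0 3 3
    ndF7q0 ndF1q3 pcF3 Cut.none Ext.none :=
  certFX0 (fam := false) (s1 := true) (s2 := true) (a := 0) (b := 3) (c := 3) (cn := .pnn) (n1 := ndF7q0) (n2 := ndF1q3) (pc := pcF3) (cut := Cut.none) (xt := Ext.none) (P1 := 0) (W1 := 536870912) (P2 := 1610612736) (W2 := 469762048) (P3 := 1046898278) (W3 := 26843546)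
    rfl k0_pp_033

noncomputable def f_pp_101 : ℕ → ℕ → ℕ → ℕ → Bool := onCell 0 536870912 536870912 536870912 1046898278 26843546
    (rowFX 2 false true true .npn 1 0 1 (qsf 536870912 536870912 536870912 536870912 0) ndF7q1 ndF1q1 pcF0 Cut.none Ext.none)

def k0_pp_101 : ∃ t, chk3 f_pp_101 t 1 1 1 = true :=
  ⟨(a (l 3) (b (l 3) (b (l 3) (a (a (l 3) (b (l 3) (l 3))) (a (b (l 3) (c (b (a (l 3) (l 16218888)) (a (l 16089496) (l 16026576))) (b (l 183239379431) (a (l 16007080) (l 16007080))))) (a (b (c (l 338932364503) (l 384029486823)) (c (b (l 16218888) (l 16026576)) (b (l 16204384) (l 16007080)))) (b (l 1) (c (l 16122144) (l 16105128))))))))), by decide +kernel⟩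

theorem c_pp_101 : CertFX 536870912 536870912 536870912 536870912 1046898278 26843546 false true true .npn 1 0 1
    ndF7q1 ndF1q1 pcF0 Cut.none Ext.none :=
  certFX2 (fam := false) (s1 := true) (s2 := true) (a := 1) (b := 0) (c := 1) (cn := .npn) (n1 := ndF7q1) (n2 := ndF1q1) (pc := pcF0) (cut := Cut.none) (xt := Ext.none) (P1 := 536870912) (W1 := 536870912) (P2 := 536870912) (W2 := 536870912) (P3 := 1046898278) (W3 := 26843546)
    rfl (fun _ => rfl) k0_pp_101

noncomputable def f_pp_102_a : ℕ → ℕ → ℕ → ℕ → Bool := onCell 536870912 536870912 0 420477299 1046898278 26843546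
    (rowFX 0 false true true .npp 1 0 2 (qsf 536870912 536870912 0 420477299 0) ndF7q1 ndF1q2a pcF0 Cut.none Ext.none)

def k0_pp_102_a : ∃ t, chk3 f_pp_102_a t 2 1 1 = true :=
  ⟨(b (a (l 2) (b (l 16453240) (a (l 16644328) (l 16248368)))) (a (b (l 16777184) (b (l 16722320) (c (l 16504904) (l 16497824)))) (b (a (l 16644328) (l 16248376)) (a (b (l 16657232) (l 16581328)) (b (l 16268976) (l 16355240)))))), by decide +kernel⟩

def k1_pp_102_a : ∃ t, chk3 f_pp_102_a t 3 2 1 = true :=
  ⟨(a (a (b (l 15782128) (l 15782128)) (a (l 15376768) (l 15044376))) (a (a (l 14707048) (b (l 14418048) (b (l 14429544) (c (a (l 14516744) (l 14423832)) (a (l 14475888) (l 14397976)))))) (b (c (l 14155880) (a (l 14201416) (l 14053360))) (b (c (l 14215880) (a (l 14251992) (l 14125752))) (c (a (l 14321648) (l 14225704)) (a (l 14313176) (a (l 14231200) (l 14170680)))))))), by decide +kernel⟩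

def k2_pp_102_a : ∃ t, chk3 f_pp_102_a t 3 3 1 = true :=
  ⟨(a (b (a (c (l 15794904) (l 15769384)) (c (l 15232664) (l 15192544))) (a (b (l 15810336) (l 15884768)) (b (a (l 15410672) (b (l 15053768) (l 15119760))) (a (l 15381768) (b (c (l 15244248) (l 15205056)) (c (l 15388432) (l 15353408))))))) (c (b (a (a (b (l 14730752) (a (l 14810704) (b (l 14684264) (l 14724584)))) (b (b (l 14506256) (l 14546688)) (c (l 14625032) (l 14628456)))) (a (b (l 14417176) (c (l 14497584) (l 14516712))) (b (l 14317848) (a (l 14448496) (l 14447072))))) (a (b (a (b (l 14819560) (l 14941968)) (b (l 14718880) (l 14865352))) (a (l 15195752) (b (l 15038832) (c (l 15239744) (l 15250488))))) (a (b (c (b (l 14610216) (l 14754920)) (a (l 14730728) (l 14672112))) (a (c (l 15064064) (l 15100048)) (b (l 14941312) (c (l 15140848) (l 15160888))))) (b (a (b (l 14562016) (l 14723144)) (b (b (l 14536176) (l 14600016)) (a (l 14723464) (l 14751008)))) (a (b (a (l 14801504) (l 14924168)) (l 15173728)) (b (c (l 14985568)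 (l 14966696)) (b (l 15174272) (l 15316896)))))))) (b (a (a (b (l 14681064) (a (l 14759640) (l 14652376))) (b (l 14496696) (l 14596528))) (a (b (l 14396976) (l 14512224)) (b (a (l 14323728) (l 14270528)) (c (l 14419672) (l 14420248))))) (a (b (a (l 14837168) (l 14770664)) (a (l 15159200) (l 15127368))) (a (b (a (l 14726984) (l 14666520)) (b (l 14973192) (a (l 15211584) (l 15184432)))) (b (a (c (l 14645984) (l 14646616)) (b (c (l 14530024) (l 14518096)) (c (l 14710760) (a (l 14704072) (l 14699904))))) (a (b (c (a (l 14923544) (l 14914752)) (l 14865952)) (c (l 15180712) (l 15189224))) (b (c (l 14945616) (l 14946112)) (c (l 15216960) (a (l 15215016) (l 15234112))))))))))), by decide +kernel⟩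

theorem s3_pp_102_a : ∃ t, chk3 f_pp_102_a t 3 1 1 = true := ex3_b k1_pp_102_a k2_pp_102_a

theorem s4_pp_102_a : ∃ t, chk3 f_pp_102_a t 1 1 1 = true := ex3_a k0_pp_102_a s3_pp_102_a

theorem c_pp_102_a : CertFX 536870912 536870912 0 420477299 1046898278 26843546 false true true .npp 1 0 2
    ndF7q1 ndF1q2a pcF0 Cut.none Ext.none :=
  certFX0 (fam := false) (s1 := true) (s2 := true) (a := 1) (b := 0) (c := 2) (cn := .npp) (n1 := ndF7q1) (n2 := ndF1q2a) (pc := pcF0) (cut := Cut.none) (xt := Ext.none) (P1 := 536870912) (W1 := 536870912) (P2 := 0) (W2 := 420477299) (P3 := 1046898278) (W3 := 26843546)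
    rfl s4_pp_102_a

noncomputable def f_pp_102_b : ℕ → ℕ → ℕ → ℕ → Bool := onCell 536870912 536870912 1239849684 370763052 1046898278 26843546
    (rowFX 0 false true true .npp 1 0 2 (qsf 536870912 536870912 1239849684 370763052 0) ndF7q1 ndF1q2b pcF0 Cut.none Ext.none)

def k0_pp_102_b : ∃ t, chk3 f_pp_102_b t 1 1 1 = true :=
  ⟨(a (a (l 2) (b (a (l 16644320) (l 16248360)) (l 2))) (b (a (a (l 15782128) (b (l 15212584) (l 15212584))) (a (b (c (l 14595832) (l 14539184)) (l 14550992)) (b (b (a (c (l 14154560) (l 14141272)) (c (l 13966688) (l 13936584))) (c (l 13840360) (a (l 14110352) (l 13833472)))) (c (l 13998896) (l 13985328))))) (b (a (l 15504608) (a (l 14550992) (c (l 13998896) (l 13985328)))) (a (l 2) (a (l 14550992) (c (l 13998896) (l 13985328))))))), by decide +kernel⟩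

theorem c_pp_102_b : CertFX 536870912 536870912 1239849684 370763052 1046898278 26843546 false true true .npp 1 0 2
    ndF7q1 ndF1q2b pcF0 Cut.none Ext.none :=
  certFX0 (fam := false) (s1 := true) (s2 := true) (a := 1) (b := 0) (c := 2) (cn := .npp) (n1 := ndF7q1) (n2 := ndF1q2b) (pc := pcF0) (cut := Cut.none) (xt := Ext.none) (P1 := 536870912) (W1 := 536870912) (P2 := 1239849684) (W2 := 370763052) (P3 := 1046898278) (W3 := 26843546)
    rfl k0_pp_102_b

noncomputable def f_pp_112_a : ℕ → ℕ → ℕ → ℕ → Bool := onCell 536870912 536870912 0 420477299 1046898278 26843546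
    (rowFX 0 false true true .dn 1 1 2 (qsf 536870912 536870912 0 420477299 1) ndF7q1 ndF1q2a pcF1 Cut.none Ext.none)

def k0_pp_112_a : ∃ t, chk3 f_pp_112_a t 1 1 1 = true :=
  ⟨(a (a (b (a (b (b (l 16776176) (l 16777216)) (l 16777208)) (l 16777208)) (b (l 16777184) (b (l 16701344) (c (l 16504904) (l 16497824))))) (a (b (b (l 16644320) (l 16644328)) (b (l 16644328) (l 1))) (l 1))) (l 1)), by decide +kernel⟩

theorem c_pp_112_a : CertFX 536870912 536870912 0 420477299 1046898278 26843546 false true true .dn 1 1 2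
    ndF7q1 ndF1q2a pcF1 Cut.none Ext.none :=
  certFX0 (fam := false) (s1 := true) (s2 := true) (a := 1) (b := 1) (c := 2) (cn := .dn) (n1 := ndF7q1) (n2 := ndF1q2a) (pc := pcF1) (cut := Cut.none) (xt := Ext.none) (P1 := 536870912) (W1 := 536870912) (P2 := 0) (W2 := 420477299) (P3 := 1046898278) (W3 := 26843546)
    rfl k0_pp_112_a

noncomputable def f_pp_112_b : ℕ → ℕ → ℕ → ℕ → Bool := onCell 536870912 536870912 1239849684 370763052 1046898278 26843546
    (rowFX 2 false true true .dn 1 1 2 (qsf 536870912 536870912 1239849684 370763052 1) ndF7q1 ndF1q2b pcF1 Cut.none Ext.none)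

def k0_pp_112_b : ∃ t, chk3 f_pp_112_b t 1 1 1 = true :=
  ⟨(a (a (b (b (a (l 16551160) (l 16740864)) (a (l 15999264) (l 16429168))) (b (a (l 14964080) (l 15811152)) (a (c (l 14381288) (l 14360416)) (b (l 15220440) (l 14742144))))) (b (a (b (l 16750976) (l 16682000)) (b (l 16287408) (l 16657480))) (a (b (l 16277192) (l 15607176)) (b (l 16572976) (l 16109112))))) (a (b (b (l 1) (a (a (l 16291744) (l 15551528)) (a (l 1007401994919) (l 1)))) (a (b (a (l 16586928) (l 16042912)) (a (l 16393856) (l 16212440))) (a (b (l 15586480) (l 15435752)) (l 874794071591)))) (l 4))), by decide +kernel⟩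

theorem c_pp_112_b : CertFX 536870912 536870912 1239849684 370763052 1046898278 26843546 false true true .dn 1 1 2
    ndF7q1 ndF1q2b pcF1 Cut.none Ext.none :=
  certFX2 (fam := false) (s1 := true) (s2 := true) (a := 1) (b := 1) (c := 2) (cn := .dn) (n1 := ndF7q1) (n2 := ndF1q2b) (pc := pcF1) (cut := Cut.none) (xt := Ext.none) (P1 := 536870912) (W1 := 536870912) (P2 := 1239849684) (W2 := 370763052) (P3 := 1046898278) (W3 := 26843546)
    rfl (fun _ => rfl) k0_pp_112_b

noncomputable def f_pp_113 : ℕ → ℕ → ℕ → ℕ → Bool := onCell 536870912 536870912 536870912 536870912 1046898278 26843546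
    (rowFX 1 false true true .nn 1 1 3 (qsf 536870912 536870912 1610612736 469762048 1) ndF7q1 ndF1q3 pcF1 Cut.none Ext.none)

def k0_pp_113 : ∃ t, chk3 f_pp_113 t 1 1 1 = true :=
  ⟨(b (a (a (l 1) (a (l 1) (l 16248360))) (a (b (l 15399752) (l 15504608)) (b (a (l 14550992) (c (l 13998896) (l 13985328))) (a (l 14550992) (l 14000792))))) (b (a (b (a (l 1) (a (l 16217344) (l 16111728))) (a (b (l 1) (l 15272552)) (a (b (l 15614584) (l 15143488)) (b (l 15460040) (l 14913328))))) (b (a (l 15435944) (a (l 14547048) (l 14002264))) (a (b (a (l 15255472) (l 14986104)) (a (l 14615632) (l 14643816))) (a (b (l 14527784) (b (l 14452264) (l 14190080))) (l 13926152))))) (a (b (a (l 4) (b (c (l 14691464) (l 14626808)) (c (l 14182552) (l 14275872)))) (l 4)) (a (b (b (b (l 13946024) (a (l 14199200) (l 13744600))) (c (a (l 13739152) (l 13459576)) (l 13540040))) (b (c (b (l 13359496) (l 13045920)) (l 13096712)) (l 4))) (b (a (b (b (l 13897328) (l 13600112)) (c (l 13383624) (l 13086976))) (b (l 13314024)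 (l 12860896))) (b (c (a (b (l 12979944) (l 12685488)) (a (l 12824464) (l 13050632))) (a (l 12480560) (l 12189256))) (c (a (l 12463840) (l 13358088)) (a (l 11935424) (b (l 11928424) (l 11886832)))))))))), by decide +kernel⟩

theorem c_pp_113 : CertFX 536870912 536870912 1610612736 469762048 1046898278 26843546 false true true .nn 1 1 3
    ndF7q1 ndF1q3 pcF1 Cut.none Ext.none :=
  certFX1 (fam := false) (s1 := true) (s2 := true) (a := 1) (b := 1) (c := 3) (cn := .nn) (n1 := ndF7q1) (n2 := ndF1q3) (pc := pcF1) (cut := Cut.none) (xt := Ext.none) (P1 := 536870912) (W1 := 536870912) (P2 := 1610612736) (W2 := 469762048) (P3 := 1046898278) (W3 := 26843546)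
    rfl (fun _ => rfl) k0_pp_113

noncomputable def f_pp_123 : ℕ → ℕ → ℕ → ℕ → Bool := onCell 1073741824 536870912 1610612736 469762048 1046898278 26843546
    (rowFX 2 false true true .npn 1 2 3 (qsf 536870912 536870912 1610612736 469762048 2) ndF7q1 ndF1q3 pcF2 Cut.none Ext.none)

def k0_pp_123 : ∃ t, chk3 f_pp_123 t 1 1 1 = true :=
  ⟨(a (a (l 4) (l 4)) (l 4)), by decide +kernel⟩

theorem c_pp_123 : CertFX 536870912 536870912 1610612736 469762048 1046898278 26843546 false true true .npn 1 2 3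
    ndF7q1 ndF1q3 pcF2 Cut.none Ext.none :=
  certFX2 (fam := false) (s1 := true) (s2 := true) (a := 1) (b := 2) (c := 3) (cn := .npn) (n1 := ndF7q1) (n2 := ndF1q3) (pc := pcF2) (cut := Cut.none) (xt := Ext.none) (P1 := 536870912) (W1 := 536870912) (P2 := 1610612736) (W2 := 469762048) (P3 := 1046898278) (W3 := 26843546)
    rfl (fun _ => rfl) k0_pp_123

noncomputable def f_pp_133 : ℕ → ℕ → ℕ → ℕ → Bool := onCell 536870912 536870912 1610612736 469762048 1046898278 26843546
    (rowFX 0 false true true .dn 1 3 3 (qsf 536870912 536870912 1610612736 469762048 3) ndF7q1 ndF1q3 pcF3 Cut.none Ext.none)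

def k0_pp_133 : ∃ t, chk3 f_pp_133 t 1 1 1 = true :=
  ⟨(l 1), by decide +kernel⟩

theorem c_pp_133 : CertFX 536870912 536870912 1610612736 469762048 1046898278 26843546 false true true .dn 1 3 3
    ndF7q1 ndF1q3 pcF3 Cut.none Ext.none :=
  certFX0 (fam := false) (s1 := true) (s2 := true) (a := 1) (b := 3) (c := 3) (cn := .dn) (n1 := ndF7q1) (n2 := ndF1q3) (pc := pcF3) (cut := Cut.none) (xt := Ext.none) (P1 := 536870912) (W1 := 536870912) (P2 := 1610612736) (W2 := 469762048) (P3 := 1046898278) (W3 := 26843546)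
    rfl k0_pp_133

noncomputable def f_pp_202_a : ℕ → ℕ → ℕ → ℕ → Bool := onCell 0 536870912 0 420477299 1046898278 26843546
    (rowFX 2 false true true .pp 2 0 2 (qsf 1073741824 536870912 0 420477299 0) ndF7q2 ndF1q2a pcF0 Cut.none Ext.none)

def k0_pp_202_a : ∃ t, chk3 f_pp_202_a t 8 2 1 = true :=
  ⟨(a (a (c (a (b (l 16168712) (l 16209272)) (b (c (l 16055024) (l 15911264)) (c (l 16089216) (l 15969280)))) (a (a (c (l 16151280) (b (c (l 16173176) (l 16126488)) (c (l 16214712) (l 16189048)))) (c (b (l 16124496) (l 16163680)) (b (l 16118992) (l 16159160)))) (c (b (l 16052152) (l 16090272)) (l 16019200)))) (c (b (a (l 15825168) (l 15862080)) (a (l 15840664) (l 15896440))) (b (l 15861576) (l 15891672)))) (c (b (a (l 15661264) (l 15417272)) (a (l 15656536) (c (l 15446968) (l 15443952)))) (b (l 15435248) (l 15370000)))), by decide +kernel⟩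

def k1_pp_202_a : ∃ t, chk3 f_pp_202_a t 32 6 1 = true :=
  ⟨(a (c (b (l 16174552) (b (l 16132376) (c (l 16116264) (a (l 16131888) (l 16015504))))) (b (c (l 16074392) (a (l 16092616) (l 16120768))) (a (c (l 16045520) (b (l 16132024) (a (c (l 16113368) (a (l 16112312) (l 16097432))) (c (l 16085656) (l 16082952))))) (c (b (l 16081056) (a (l 16022168) (l 15876192))) (c (l 15987424) (l 16057600)))))) (c (b (c (l 16048576) (l 16055776)) (b (c (l 16012624) (l 16020304)) (c (a (a (l 16019888) (l 15991912)) (l 15974680)) (a (l 16016752) (l 16000680))))) (b (c (l 16050688) (l 16023792)) (c (b (l 16014824) (a (l 15941232) (l 15977320))) (l 15981192))))), by decide +kernel⟩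

def k2_pp_202_a : ∃ t, chk3 f_pp_202_a t 32 7 1 = true :=
  ⟨(c (b (a (c (l 16073776) (a (l 16151336) (c (l 16081936) (l 15928096)))) (c (a (b (l 15827800) (c (l 16022576) (l 16049128))) (b (l 15950448) (l 15993104))) (a (c (l 15989336) (l 16045344)) (c (l 16024600) (l 16031264))))) (a (c (b (l 16213576) (l 16290744)) (c (l 16207752) (a (l 16313912) (a (l 16252480) (l 16092008))))) (c (a (c (l 16023168) (b (l 16103080) (l 16168184))) (b (l 16050376) (l 16116648))) (a (c (b (l 16136224) (l 16208696)) (l 16198128)) (c (l 16156360) (b (l 16143600) (l 16229896))))))) (a (c (b (a (l 16025224) (c (a (l 16082352) (l 16066248)) (a (l 16087344) (l 16079928)))) (a (b (l 16247184) (l 16348672)) (c (a (l 16224648) (l 16229120)) (a (l 16252400) (l 16245456))))) (b (a (c (a (l 16132664) (b (l 16077624) (l 16139408))) (a (c (l 16128056) (b (l 16094608) (l 16157864))) (l 16105136))) (c (l 16078904) (l 16064216))) (a (c (a (l 16302136) (b (l 16223472) (l 16325168))) (a (c (l 16192976) (b (l 16243016)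 (l 16325000))) (l 16189448))) (c (l 16098248) (l 16230232))))) (b (c (a (c (l 16057112) (l 16047976)) (l 16001448)) (l 15990328)) (c (a (b (l 16162568) (l 16199344)) (l 16162840)) (l 16068240))))), by decide +kernel⟩

def k3_pp_202_a : ∃ t, chk3 f_pp_202_a t 33 3 1 = true :=
  ⟨(b (c (b (a (l 15975944) (l 15876704)) (a (b (l 15956408) (c (a (l 15965288) (l 15909920)) (l 15914696))) (c (c (l 15829152) (l 15862384)) (l 15819912)))) (b (l 15859512) (c (a (l 15895432) (l 15774152)) (l 15813816)))) (b (c (c (a (a (l 15958832) (c (l 15926680) (l 15950784))) (b (l 15824984) (l 15862176))) (a (b (l 15932112) (l 15986576)) (l 15814360))) (c (b (l 15819288) (l 15874360)) (l 15821160))) (c (c (a (c (b (l 16002960) (a (l 16089392) (l 16083168))) (a (l 16099568) (l 15852864))) (b (l 15916784) (l 15999296))) (c (a (b (l 16058760) (l 16129960)) (l 15738040)) (b (l 15974064) (l 16050272)))) (c (b (l 15951608) (c (l 15998296) (l 16031616))) (l 15973936))))), by decide +kernel⟩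

def k4_pp_202_a : ∃ t, chk3 f_pp_202_a t 17 3 1 = true :=
  ⟨(b (c (a (b (l 15672000) (c (l 15596632) (a (l 15686768) (l 15544816)))) (c (b (b (l 15420128) (a (l 15464976) (l 15319192))) (a (l 15404024) (l 15255560))) (b (l 15412832) (l 15350640)))) (a (b (l 15628920) (l 15590416)) (b (l 15403704) (l 15352712)))) (c (b (a (c (l 15611880) (b (l 15581528) (l 15512992))) (c (a (l 15374200) (b (l 15206920) (l 15267656))) (b (l 15297160) (l 15328496)))) (a (c (b (l 15509232) (a (l 15849688) (l 15701504))) (b (a (l 15741904) (l 15592136)) (a (c (l 15822576) (l 15815592)) (c (l 15672032) (l 15672920))))) (c (a (b (l 15472712) (l 15566432)) (b (l 15336448) (l 15442160))) (b (l 15293328) (l 15308296))))) (c (b (a (l 15588608) (l 15189064)) (a (b (l 15683008) (a (l 15824584) (c (l 15687888) (l 15694256)))) (b (a (l 15473456) (l 15338016)) (a (l 15553712) (l 15413208))))) (b (l 15312880) (a (l 15604496) (b (l 15417328) (a (l 15568216) (l 15425080)))))))), by decide +kernel⟩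

def k5_pp_202_a : ∃ t, chk3 f_pp_202_a t 9 1 1 = true :=
  ⟨(b (a (c (b (a (l 15179912) (l 14940776)) (a (l 15192568) (l 14937048))) (b (l 15047600) (l 14994816))) (b (c (l 14589576) (l 14596392)) (c (l 14584584) (a (l 14684176) (l 14471272))))) (b (a (c (a (b (c (l 15128304) (l 15158400)) (c (l 15057280) (l 15081632))) (b (l 14881072) (l 14813560))) (b (a (l 15158744) (l 14881768)) (a (l 15083320) (c (l 14813632) (l 14814296))))) (c (b (a (l 14619424) (l 14414904)) (a (l 14574432) (l 14380160))) (b (a (c (l 14614768) (l 14614776)) (l 14389512)) (a (c (l 14540752) (l 14537312)) (l 14323032))))) (a (a (c (b (c (b (l 15019672) (l 15083712)) (l 14909928)) (b (c (l 15149200) (l 15138952)) (c (l 15261872) (l 15248016)))) (b (c (b (l 15041168) (l 15068112)) (l 14981160)) (b (c (l 15135880) (l 15096536)) (c (l 15228624) (a (l 15288336) (l 15150048)))))) (b (c (l 14679168) (c (l 14786272) (l 14589216))) (b (c (l 14908568) (l 14665880)) (l 1)))) (a (b (c (a (l 14613768) (l 14503616)) (b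 (l 14494440) (l 14538512))) (l 1)) (l 1))))), by decide +kernel⟩

def k6_pp_202_a : ∃ t, chk3 f_pp_202_a t 5 1 1 = true :=
  ⟨(a (a (b (c (b (l 14185752) (l 14194120)) (b (l 14157880) (b (l 14151672) (a (l 14224112) (l 14007864))))) (b (b (c (l 14124128) (l 14065808)) (l 1)) (l 1))) (b (b (l 1) (l 1)) (l 1))) (l 1)), by decide +kernel⟩

def k7_pp_202_a : ∃ t, chk3 f_pp_202_a t 3 1 1 = true :=
  ⟨(l 1), by decide +kernel⟩

theorem s8_pp_202_a : ∃ t, chk3 f_pp_202_a t 32 3 1 = true := ex3_b k1_pp_202_a k2_pp_202_a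

theorem s9_pp_202_a : ∃ t, chk3 f_pp_202_a t 16 3 1 = true := ex3_a s8_pp_202_a k3_pp_202_a

theorem s10_pp_202_a : ∃ t, chk3 f_pp_202_a t 8 3 1 = true := ex3_a s9_pp_202_a k4_pp_202_a

theorem s11_pp_202_a : ∃ t, chk3 f_pp_202_a t 8 1 1 = true := ex3_b k0_pp_202_a s10_pp_202_a

theorem s12_pp_202_a : ∃ t, chk3 f_pp_202_a t 4 1 1 = true := ex3_a s11_pp_202_a k5_pp_202_a

theorem s13_pp_202_a : ∃ t, chk3 f_pp_202_a t 2 1 1 = true := ex3_a s12_pp_202_a k6_pp_202_a

theorem s14_pp_202_a : ∃ t, chk3 f_pp_202_a t 1 1 1 = true := ex3_a s13_pp_202_a k7_pp_202_a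

theorem c_pp_202_a : CertFX 1073741824 536870912 0 420477299 1046898278 26843546 false true true .pp 2 0 2
    ndF7q2 ndF1q2a pcF0 Cut.none Ext.none :=
  certFX2 (fam := false) (s1 := true) (s2 := true) (a := 2) (b := 0) (c := 2) (cn := .pp) (n1 := ndF7q2) (n2 := ndF1q2a) (pc := pcF0) (cut := Cut.none) (xt := Ext.none) (P1 := 1073741824) (W1 := 536870912) (P2 := 0) (W2 := 420477299) (P3 := 1046898278) (W3 := 26843546)
    rfl (fun _ => rfl) s14_pp_202_a

noncomputable def f_pp_202_b : ℕ → ℕ → ℕ → ℕ → Bool := onCell 0 536870912 1239849684 370763052 1046898278 26843546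
    (rowFX 2 false true true .pp 2 0 2 (qsf 1073741824 536870912 1239849684 370763052 0) ndF7q2 ndF1q2b pcF0 Cut.none Ext.none)

def k0_pp_202_b : ∃ t, chk3 f_pp_202_b t 4 2 1 = true :=
  ⟨(a (a (b (a (c (a (b (l 16211272) (l 16339936)) (b (c (l 15995024) (a (l 16237784) (l 16208032))) (c (l 16430760) (l 16309760)))) (c (a (a (l 16251624) (b (l 16133648) (l 16372528))) (b (l 16131752) (l 16432176))) (a (b (a (c (l 16324048) (l 16131920)) (l 16277160)) (c (l 16094744) (l 16223048))) (b (l 16197912) (l 16451160))))) (c (b (a (c (l 16150680) (l 16137704)) (l 16039424)) (a (l 16270000) (l 16419624))) (b (l 15917400) (l 16408408)))) (a (c (a (b (l 15917264) (l 15527288)) (c (b (l 16015088) (l 15653120)) (b (l 15949784) (l 15622480)))) (a (c (b (l 15765720) (l 15513504)) (b (a (l 15779136) (l 15931872)) (l 15399576))) (c (l 15567696) (l 15809784)))) (c (b (a (l 16085528) (l 16179848)) (l 15525280)) (b (l 16174824) (l 15781272))))) (b (c (a (b (l 15809656) (l 16179824)) (c (b (l 15635296)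 (l 16052240)) (l 15564208))) (b (a (l 15808048) (l 15568480)) (a (l 16234552) (l 16025680)))) (c (b (a (l 16364440) (l 16399960)) (a (l 15988784) (l 16228752))) (b (l 16357104) (l 16118664))))) (b (a (b (c (a (l 15298096) (l 15128248)) (l 15220168)) (c (l 15612352) (l 15671232))) (b (c (a (l 14899336) (l 14691080)) (l 14789608)) (c (b (l 15093136) (l 15342160)) (l 15200608)))) (a (c (b (l 16111952) (l 16442952)) (b (l 16099016) (l 16441136))) (b (l 15679928) (l 16082920))))), by decide +kernel⟩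

def k1_pp_202_b : ∃ t, chk3 f_pp_202_b t 4 3 1 = true :=
  ⟨(a (a (b (a (c (a (l 15240624) (b (l 15213432) (l 15262040))) (a (c (l 15220712) (l 15123672)) (c (l 15272928) (l 15278552)))) (c (b (l 15278448) (l 15318312)) (b (l 15463784) (l 15335000)))) (c (a (a (b (l 15093032) (l 14999792)) (b (c (l 15022216) (l 15106864)) (l 15012624))) (b (b (l 15253744) (l 15169456)) (l 15138880))) (c (a (a (b (l 14967544) (l 14976768)) (l 15086288)) (l 15214536)) (a (b (b (l 15122136) (l 14842760)) (l 14997160)) (l 15211288))))) (b (c (b (a (l 15654288) (l 15895224)) (l 15573240)) (b (l 15776768) (l 15571504))) (c (a (b (l 15401168) (l 15319392)) (c (l 15339656) (l 15565840))) (b (l 15487304) (l 15410024))))) (a (b (b (c (l 16229400) (l 16219288)) (c (l 15962760) (l 15942568))) (c (b (a (l 15753856) (l 15909768)) (l 15758784)) (b (l 15807480) (l 15744776)))) (b (b (l 16414528) (a (l 16255408) (l 16419280))) (b (c (l 16082736) (l 16130064)) (c (l 16054184) (l 16044552)))))), by decide +kernel⟩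

def k2_pp_202_b : ∃ t, chk3 f_pp_202_b t 5 1 1 = true :=
  ⟨(b (b (a (c (b (a (l 14298360) (l 13988696)) (a (l 14811904) (l 14383288))) (b (a (b (l 14257624) (l 14469832)) (c (l 13955032) (l 13939656))) (a (l 14782960) (l 14383216)))) (c (a (l 13809192) (l 13475928)) (a (b (l 13545160) (l 13753008)) (b (l 1) (l 13576912))))) (a (b (c (a (l 15231008) (l 14829296)) (l 14973736)) (a (l 15702224) (l 15267136))) (a (b (c (l 14389776) (l 14375520)) (c (l 14837048) (l 14794392))) (b (c (l 14011464) (l 13993288)) (c (l 14456432) (l 14420112)))))) (a (b (a (b (l 16089784) (l 16398632)) (b (l 15723336) (l 16080416))) (a (b (l 16425392) (c (l 16287624) (l 16280840))) (b (l 16430104) (l 16543952)))) (b (a (b (l 15300032) (l 15745072)) (b (l 14625808) (l 15378304))) (a (b (l 16118136) (l 16451720)) (b (l 15807568) (l 16175968)))))), by decide +kernel⟩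

def k3_pp_202_b : ∃ t, chk3 f_pp_202_b t 3 1 1 = true :=
  ⟨(b (a (b (l 1) (a (c (b (l 13616952) (l 13998832)) (b (l 13457000) (a (l 14117480) (l 13798648)))) (c (l 13296944) (l 13217504)))) (l 1)) (a (b (a (b (c (l 14428904) (l 14421760)) (c (l 14912512) (l 14838640))) (c (b (l 13824072) (a (l 14374328) (l 14053888))) (b (l 13784624) (l 14088992)))) (a (b (l 15324448) (l 15771112)) (c (b (l 14687944) (l 15177968)) (b (l 14677024) (l 15098640))))) (b (a (b (l 1) (c (l 13655056) (l 13602888))) (l 1)) (a (c (b (l 14040728) (l 14477960)) (b (l 14019520) (l 14464584))) (c (l 13700584) (b (l 13428688) (l 13828000))))))), by decide +kernel⟩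

theorem s4_pp_202_b : ∃ t, chk3 f_pp_202_b t 4 1 1 = true := ex3_b k0_pp_202_b k1_pp_202_b

theorem s5_pp_202_b : ∃ t, chk3 f_pp_202_b t 2 1 1 = true := ex3_a s4_pp_202_b k2_pp_202_b

theorem s6_pp_202_b : ∃ t, chk3 f_pp_202_b t 1 1 1 = true := ex3_a s5_pp_202_b k3_pp_202_b

theorem c_pp_202_b : CertFX 1073741824 536870912 1239849684 370763052 1046898278 26843546 false true true .pp 2 0 2
    ndF7q2 ndF1q2b pcF0 Cut.none Ext.none :=
  certFX2 (fam := false) (s1 := true) (s2 := true) (a := 2) (b := 0) (c := 2) (cn := .pp) (n1 := ndF7q2) (n2 := ndF1q2b) (pc := pcF0) (cut := Cut.none) (xt := Ext.none) (P1 := 1073741824) (W1 := 536870912) (P2 := 1239849684) (W2 := 370763052) (P3 := 1046898278) (W3 := 26843546)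
    rfl (fun _ => rfl) s6_pp_202_b

noncomputable def f_pp_203 : ℕ → ℕ → ℕ → ℕ → Bool := onCell 1073741824 536870912 0 536870912 1046898278 26843546
    (rowFX 1 false true true .up 2 0 3 (qsf 1073741824 536870912 1610612736 469762048 0) ndF7q2 ndF1q3 pcF0 Cut.none Ext.none)

def k0_pp_203 : ∃ t, chk3 f_pp_203 t 1 1 1 = true :=
  ⟨(a (b (a (l 1) (b (l 1) (b (l 1) (b (l 1) (a (l 1) (l 15964224)))))) (a (b (a (l 1) (c (l 435968060423) (l 14632392))) (a (c (l 14031584) (l 13976424)) (c (l 14691592) (l 14632392)))) (b (a (b (l 15364072) (l 15364072)) (b (l 15964160) (l 15964160))) (a (l 15364072) (l 15964160))))) (b (a (b (a (l 1) (b (l 1) (a (l 1) (b (l 1) (l 504153354887))))) (b (a (b (l 1) (l 16451776)) (b (l 368325412999) (l 16464688))) (b (a (l 16495192) (l 16669936)) (a (l 16464416) (l 16767544))))) (a (b (b (a (l 1) (b (l 1) (c (b (l 1) (l 15518528)) (l 15427112)))) (b (c (l 682930784951) (l 15700904)) (c (l 16011024) (l 15985672)))) (b (b (l 16229928) (l 16432400)) (b (l 16655712)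 (l 16777040)))) (b (b (b (b (a (l 1) (c (b (l 14976464) (l 15035000)) (b (l 14817696) (l 14984912)))) (c (a (l 15143528) (l 15064584)) (l 15127328))) (c (b (l 15264528) (l 355438872711)) (l 15077856))) (b (c (l 15504952) (l 15656648)) (c (l 15949328) (l 15932528)))) (b (l 16226336) (l 16713248))))) (a (b (a (b (l 16464376) (l 16464376)) (l 16767528)) (a (l 16464376) (l 16767520))) (b (a (l 16777216) (l 16777208)) (l 16789264))))), by decide +kernel⟩

theorem c_pp_203 : CertFX 1073741824 536870912 1610612736 469762048 1046898278 26843546 false true true .up 2 0 3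
    ndF7q2 ndF1q3 pcF0 Cut.none Ext.none :=
  certFX1 (fam := false) (s1 := true) (s2 := true) (a := 2) (b := 0) (c := 3) (cn := .up) (n1 := ndF7q2) (n2 := ndF1q3) (pc := pcF0) (cut := Cut.none) (xt := Ext.none) (P1 := 1073741824) (W1 := 536870912) (P2 := 1610612736) (W2 := 469762048) (P3 := 1046898278) (W3 := 26843546)
    rfl (fun _ => rfl) k0_pp_203

noncomputable def f_pp_213 : ℕ → ℕ → ℕ → ℕ → Bool := onCell 1073741824 536870912 1610612736 469762048 1046898278 26843546
    (rowFX 0 false true true .pnn 2 1 3 (qsf 1073741824 536870912 1610612736 469762048 1) ndF7q2 ndF1q3 pcF1 Cut.none Ext.none)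

def k0_pp_213 : ∃ t, chk3 f_pp_213 t 1 1 1 = true :=
  ⟨(a (b (a (a (b (c (l 14031584) (l 14018360)) (l 14033576)) (b (l 539584044471) (l 14640608))) (b (l 1) (l 490730862599))) (a (b (a (l 14034440) (l 14640608)) (a (b (l 13996328) (a (l 13474168) (l 14134680))) (a (l 14481712) (l 14807360)))) (a (l 15358920) (l 15958928)))) (b (l 1) (a (a (l 16459064) (l 16762048)) (a (l 16771616) (l 782791449591))))), by decide +kernel⟩

theorem c_pp_213 : CertFX 1073741824 536870912 1610612736 469762048 1046898278 26843546 false true true .pnn 2 1 3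
    ndF7q2 ndF1q3 pcF1 Cut.none Ext.none :=
  certFX0 (fam := false) (s1 := true) (s2 := true) (a := 2) (b := 1) (c := 3) (cn := .pnn) (n1 := ndF7q2) (n2 := ndF1q3) (pc := pcF1) (cut := Cut.none) (xt := Ext.none) (P1 := 1073741824) (W1 := 536870912) (P2 := 1610612736) (W2 := 469762048) (P3 := 1046898278) (W3 := 26843546)
    rfl k0_pp_213

noncomputable def f_pp_303 : ℕ → ℕ → ℕ → ℕ → Bool := onCell 0 1230186008 0 536870912 1046898278 26843546
    (rowFX 1 false true true .npn 3 0 3 (qsf 0 1230186008 1610612736 469762048 0) ndF7q3 ndF1q3 pcF0 Cut.none Ext.none)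

def k0_pp_303 : ∃ t, chk3 f_pp_303 t 1 1 1 = true :=
  ⟨(a (a (l 2) (b (b (l 3) (l 2)) (l 2))) (a (b (l 3) (l 2)) (a (b (a (l 3) (b (l 3) (l 3))) (b (b (a (l 3) (l 678235782935)) (l 2)) (l 2))) (a (b (b (a (l 3) (b (b (c (b (b (l 14783880) (l 14828344)) (l 14927264)) (b (c (l 297589767239) (l 304569069815)) (l 14920528))) (c (l 284705599511) (l 15143320))) (c (b (l 15486616) (l 15829544)) (l 313160701351)))) (b (c (l 16218752) (l 16183272)) (b (l 16604568) (l 16856816)))) (b (c (l 16766840) (l 16766520)) (l 2))) (b (b (b (b (c (b (b (a (l 14688384) (l 14876608)) (a (c (l 14847072) (l 14829808)) (l 14944144))) (a (l 14948296) (c (l 15000224) (l 15003376)))) (c (b (b (l 14632704) (l 14833808)) (l 14893424)) (b (b (a (l 14744088) (l 14852832)) (l 14834480)) (l 14942008)))) (c (b (c (l 15114736) (l 15130296)) (l 15289464)) (a (l 15177464) (b (l 15144392) (l 15309888))))) (c (b (l 15357784) (l 15883136)) (b (l 15515456) (l 15859904)))) (b (a (l 16179336) (l 16249888)) (b (l 16623032)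 (l 16772928)))) (b (b (l 16777208) (l 16771776)) (l 16757920))))))), by decide +kernel⟩

theorem c_pp_303 : CertFX 0 1230186008 1610612736 469762048 1046898278 26843546 false true true .npn 3 0 3
    ndF7q3 ndF1q3 pcF0 Cut.none Ext.none :=
  certFX1 (fam := false) (s1 := true) (s2 := true) (a := 3) (b := 0) (c := 3) (cn := .npn) (n1 := ndF7q3) (n2 := ndF1q3) (pc := pcF0) (cut := Cut.none) (xt := Ext.none) (P1 := 0) (W1 := 1230186008) (P2 := 1610612736) (W2 := 469762048) (P3 := 1046898278) (W3 := 26843546)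
    rfl (fun _ => rfl) k0_pp_303

noncomputable def f_pp_313 : ℕ → ℕ → ℕ → ℕ → Bool := onCell 0 1230186008 1610612736 469762048 1046898278 26843546
    (rowFX 0 false true true .dn 3 1 3 (qsf 0 1230186008 1610612736 469762048 1) ndF7q3 ndF1q3 pcF1 Cut.none Ext.none)

def k0_pp_313 : ∃ t, chk3 f_pp_313 t 1 1 1 = true :=
  ⟨(l 1), by decide +kernel⟩

theorem c_pp_313 : CertFX 0 1230186008 1610612736 469762048 1046898278 26843546 false true true .dn 3 1 3
    ndF7q3 ndF1q3 pcF1 Cut.none Ext.none :=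
  certFX0 (fam := false) (s1 := true) (s2 := true) (a := 3) (b := 1) (c := 3) (cn := .dn) (n1 := ndF7q3) (n2 := ndF1q3) (pc := pcF1) (cut := Cut.none) (xt := Ext.none) (P1 := 0) (W1 := 1230186008) (P2 := 1610612736) (W2 := 469762048) (P3 := 1046898278) (W3 := 26843546)
    rfl k0_pp_313

noncomputable def f_pm_001 : ℕ → ℕ → ℕ → ℕ → Bool := onCell 0 536870912 536870912 536870912 1046898278 26843546
    (rowFX 0 false true false .up 0 0 1 (qsf 0 536870912 536870912 536870912 0) ndF7q0 ndF1q1 pcF0 Cut.none Ext.none)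

def k0_pm_001 : ∃ t, chk3 f_pm_001 t 1 1 1 = true :=
  ⟨(l 4), by decide +kernel⟩

theorem c_pm_001 : CertFX 0 536870912 536870912 536870912 1046898278 26843546 false true false .up 0 0 1
    ndF7q0 ndF1q1 pcF0 Cut.none Ext.none :=
  certFX0 (fam := false) (s1 := true) (s2 := false) (a := 0) (b := 0) (c := 1) (cn := .up) (n1 := ndF7q0) (n2 := ndF1q1) (pc := pcF0) (cut := Cut.none) (xt := Ext.none) (P1 := 0) (W1 := 536870912) (P2 := 536870912) (W2 := 536870912) (P3 := 1046898278) (W3 := 26843546)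
    rfl k0_pm_001

noncomputable def f_pm_011 : ℕ → ℕ → ℕ → ℕ → Bool := onCell 0 536870912 536870912 536870912 1046898278 26843546
    (rowFX 0 false true false .pnn 0 1 1 (qsf 0 536870912 536870912 536870912 1) ndF7q0 ndF1q1 pcF1 Cut.none Ext.none)

def k0_pm_011 : ∃ t, chk3 f_pm_011 t 1 1 1 = true :=
  ⟨(l 4), by decide +kernel⟩

theorem c_pm_011 : CertFX 0 536870912 536870912 536870912 1046898278 26843546 false true false .pnn 0 1 1
    ndF7q0 ndF1q1 pcF1 Cut.none Ext.none :=
  certFX0 (fam := false) (s1 := true) (s2 := false) (a := 0) (b := 1) (c := 1) (cn := .pnn) (n1 := ndF7q0) (n2 := ndF1q1) (pc := pcF1) (cut := Cut.none) (xt := Ext.none) (P1 := 0) (W1 := 536870912) (P2 := 536870912) (W2 := 536870912) (P3 := 1046898278) (W3 := 26843546)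
    rfl k0_pm_011

noncomputable def f_pm_012_a : ℕ → ℕ → ℕ → ℕ → Bool := onCell 0 536870912 0 420477299 1046898278 26843546
    (rowFX 0 false true false .pnp 0 1 2 (qsf 0 536870912 0 420477299 1) ndF7q0 ndF1q2a pcF1 Cut.none Ext.none)

def k0_pm_012_a : ∃ t, chk3 f_pm_012_a t 1 1 1 = true :=
  ⟨(l 4), by decide +kernel⟩

theorem c_pm_012_a : CertFX 0 536870912 0 420477299 1046898278 26843546 false true false .pnp 0 1 2
    ndF7q0 ndF1q2a pcF1 Cut.none Ext.none :=
  certFX0 (fam := false) (s1 := true) (s2 := false) (a := 0) (b := 1) (c := 2) (cn := .pnp) (n1 := ndF7q0) (n2 := ndF1q2a) (pc := pcF1) (cut := Cut.none) (xt := Ext.none) (P1 := 0) (W1 := 536870912) (P2 := 0) (W2 := 420477299) (P3 := 1046898278) (W3 := 26843546)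
    rfl k0_pm_012_a

noncomputable def f_pm_012_b : ℕ → ℕ → ℕ → ℕ → Bool := onCell 0 536870912 1239849684 370763052 1046898278 26843546
    (rowFX 0 false true false .pnp 0 1 2 (qsf 0 536870912 1239849684 370763052 1) ndF7q0 ndF1q2b pcF1 Cut.none Ext.none)

def k0_pm_012_b : ∃ t, chk3 f_pm_012_b t 1 1 1 = true :=
  ⟨(l 4), by decide +kernel⟩

theorem c_pm_012_b : CertFX 0 536870912 1239849684 370763052 1046898278 26843546 false true false .pnp 0 1 2
    ndF7q0 ndF1q2b pcF1 Cut.none Ext.none :=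
  certFX0 (fam := false) (s1 := true) (s2 := false) (a := 0) (b := 1) (c := 2) (cn := .pnp) (n1 := ndF7q0) (n2 := ndF1q2b) (pc := pcF1) (cut := Cut.none) (xt := Ext.none) (P1 := 0) (W1 := 536870912) (P2 := 1239849684) (W2 := 370763052) (P3 := 1046898278) (W3 := 26843546)
    rfl k0_pm_012_b

noncomputable def f_pm_022_a : ℕ → ℕ → ℕ → ℕ → Bool := onCell 0 536870912 0 420477299 1046898278 26843546
    (rowFX 0 false true false .pp 0 2 2 (qsf 0 536870912 0 420477299 2) ndF7q0 ndF1q2a pcF2 Cut.none Ext.none)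

def k0_pm_022_a : ∃ t, chk3 f_pm_022_a t 1 1 1 = true :=
  ⟨(l 4), by decide +kernel⟩

theorem c_pm_022_a : CertFX 0 536870912 0 420477299 1046898278 26843546 false true false .pp 0 2 2
    ndF7q0 ndF1q2a pcF2 Cut.none Ext.none :=
  certFX0 (fam := false) (s1 := true) (s2 := false) (a := 0) (b := 2) (c := 2) (cn := .pp) (n1 := ndF7q0) (n2 := ndF1q2a) (pc := pcF2) (cut := Cut.none) (xt := Ext.none) (P1 := 0) (W1 := 536870912) (P2 := 0) (W2 := 420477299) (P3 := 1046898278) (W3 := 26843546)
    rfl k0_pm_022_a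

noncomputable def f_pm_022_b : ℕ → ℕ → ℕ → ℕ → Bool := onCell 0 536870912 1239849684 370763052 1046898278 26843546
    (rowFX 0 false true false .pp 0 2 2 (qsf 0 536870912 1239849684 370763052 2) ndF7q0 ndF1q2b pcF2 Cut.none Ext.none)

def k0_pm_022_b : ∃ t, chk3 f_pm_022_b t 1 1 1 = true :=
  ⟨(l 4), by decide +kernel⟩

theorem c_pm_022_b : CertFX 0 536870912 1239849684 370763052 1046898278 26843546 false true false .pp 0 2 2
    ndF7q0 ndF1q2b pcF2 Cut.none Ext.none :=
  certFX0 (fam := false) (s1 := true) (s2 := false) (a := 0) (b := 2) (c := 2) (cn := .pp) (n1 := ndF7q0) (n2 := ndF1q2b) (pc := pcF2) (cut := Cut.none) (xt := Ext.none) (P1 := 0) (W1 := 536870912) (P2 := 1239849684) (W2 := 370763052) (P3 := 1046898278) (W3 := 26843546)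
    rfl k0_pm_022_b

noncomputable def f_pm_023 : ℕ → ℕ → ℕ → ℕ → Bool := onCell 0 536870912 1610612736 469762048 1046898278 26843546
    (rowFX 0 false true false .up 0 2 3 (qsf 0 536870912 1610612736 469762048 2) ndF7q0 ndF1q3 pcF2 Cut.none Ext.none)

def k0_pm_023 : ∃ t, chk3 f_pm_023 t 1 1 1 = true :=
  ⟨(l 4), by decide +kernel⟩

theorem c_pm_023 : CertFX 0 536870912 1610612736 469762048 1046898278 26843546 false true false .up 0 2 3
    ndF7q0 ndF1q3 pcF2 Cut.none Ext.none :=
  certFX0 (fam := false) (s1 := true) (s2 := false) (a := 0) (b := 2) (c := 3) (cn := .up) (n1 := ndF7q0) (n2 := ndF1q3) (pc := pcF2) (cut := Cut.none) (xt := Ext.none) (P1 := 0) (W1 := 536870912) (P2 := 1610612736) (W2 := 469762048) (P3 := 1046898278) (W3 := 26843546)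
    rfl k0_pm_023

noncomputable def f_pm_033 : ℕ → ℕ → ℕ → ℕ → Bool := onCell 0 536870912 1610612736 469762048 1046898278 26843546
    (rowFX 0 false true false .pnn 0 3 3 (qsf 0 536870912 1610612736 469762048 3) ndF7q0 ndF1q3 pcF3 Cut.none Ext.none)

def k0_pm_033 : ∃ t, chk3 f_pm_033 t 1 1 1 = true :=
  ⟨(l 4), by decide +kernel⟩

theorem c_pm_033 : CertFX 0 536870912 1610612736 469762048 1046898278 26843546 false true false .pnn 0 3 3
    ndF7q0 ndF1q3 pcF3 Cut.none Ext.none :=
  certFX0 (fam := false) (s1 := true) (s2 := false) (a := 0) (b := 3) (c := 3) (cn := .pnn) (n1 := ndF7q0) (n2 := ndF1q3) (pc := pcF3) (cut := Cut.none) (xt := Ext.none) (P1 := 0) (W1 := 536870912) (P2 := 1610612736) (W2 := 469762048) (P3 := 1046898278) (W3 := 26843546)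
    rfl k0_pm_033

noncomputable def f_pm_101 : ℕ → ℕ → ℕ → ℕ → Bool := onCell 536870912 536870912 536870912 536870912 1046898278 26843546
    (rowFX 0 false true false .npn 1 0 1 (qsf 536870912 536870912 536870912 536870912 0) ndF7q1 ndF1q1 pcF0 Cut.none Ext.none)

def k0_pm_101 : ∃ t, chk3 f_pm_101 t 1 1 1 = true :=
  ⟨(l 4), by decide +kernel⟩

theorem c_pm_101 : CertFX 536870912 536870912 536870912 536870912 1046898278 26843546 false true false .npn 1 0 1
    ndF7q1 ndF1q1 pcF0 Cut.none Ext.none :=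
  certFX0 (fam := false) (s1 := true) (s2 := false) (a := 1) (b := 0) (c := 1) (cn := .npn) (n1 := ndF7q1) (n2 := ndF1q1) (pc := pcF0) (cut := Cut.none) (xt := Ext.none) (P1 := 536870912) (W1 := 536870912) (P2 := 536870912) (W2 := 536870912) (P3 := 1046898278) (W3 := 26843546)
    rfl k0_pm_101

noncomputable def f_pm_102_a : ℕ → ℕ → ℕ → ℕ → Bool := onCell 536870912 536870912 0 420477299 1046898278 26843546
    (rowFX 0 false true false .npp 1 0 2 (qsf 536870912 536870912 0 420477299 0) ndF7q1 ndF1q2a pcF0 Cut.none Ext.none)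

def k0_pm_102_a : ∃ t, chk3 f_pm_102_a t 1 1 1 = true :=
  ⟨(a (b (a (l 2) (l 4)) (l 4)) (b (a (b (a (l 15698240) (l 25464181303)) (l 4)) (a (a (b (l 14707040) (l 4)) (b (l 14393712) (c (l 14430536) (l 14397752)))) (b (c (l 14031408) (a (l 14127272) (l 13872856))) (c (a (l 14127176) (l 13864336)) (a (l 14113040) (c (l 13830424) (l 13822616))))))) (l 4))), by decide +kernel⟩

theorem c_pm_102_a : CertFX 536870912 536870912 0 420477299 1046898278 26843546 false true false .npp 1 0 2
    ndF7q1 ndF1q2a pcF0 Cut.none Ext.none :=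
  certFX0 (fam := false) (s1 := true) (s2 := false) (a := 1) (b := 0) (c := 2) (cn := .npp) (n1 := ndF7q1) (n2 := ndF1q2a) (pc := pcF0) (cut := Cut.none) (xt := Ext.none) (P1 := 536870912) (W1 := 536870912) (P2 := 0) (W2 := 420477299) (P3 := 1046898278) (W3 := 26843546)
    rfl k0_pm_102_a

noncomputable def f_pm_102_b : ℕ → ℕ → ℕ → ℕ → Bool := onCell 536870912 536870912 1239849684 370763052 1046898278 26843546
    (rowFX 0 false true false .npp 1 0 2 (qsf 536870912 536870912 1239849684 370763052 0) ndF7q1 ndF1q2b pcF0 Cut.none Ext.none)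

def k0_pm_102_b : ∃ t, chk3 f_pm_102_b t 1 1 1 = true :=
  ⟨(a (a (l 2) (b (l 4) (l 2))) (a (a (b (b (c (l 15794880) (l 15769368)) (c (l 15794880) (l 15769368))) (l 2)) (b (b (l 15212584) (l 15212584)) (c (l 15232640) (l 15192520)))) (b (a (b (c (l 14595768) (l 14539112)) (l 14530016)) (b (c (a (l 14130912) (l 13880360)) (a (l 14116904) (b (l 13863664) (l 13824792)))) (c (l 13998896) (l 13985328)))) (a (c (l 14595736) (l 14539088)) (c (l 13998896) (l 13985328)))))), by decide +kernel⟩

theorem c_pm_102_b : CertFX 536870912 536870912 1239849684 370763052 1046898278 26843546 false true false .npp 1 0 2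
    ndF7q1 ndF1q2b pcF0 Cut.none Ext.none :=
  certFX0 (fam := false) (s1 := true) (s2 := false) (a := 1) (b := 0) (c := 2) (cn := .npp) (n1 := ndF7q1) (n2 := ndF1q2b) (pc := pcF0) (cut := Cut.none) (xt := Ext.none) (P1 := 536870912) (W1 := 536870912) (P2 := 1239849684) (W2 := 370763052) (P3 := 1046898278) (W3 := 26843546)
    rfl k0_pm_102_b

noncomputable def f_pm_112_a : ℕ → ℕ → ℕ → ℕ → Bool := onCell 536870912 536870912 0 420477299 1046898278 26843546
    (rowFX 2 false true false .dn 1 1 2 (qsf 536870912 536870912 0 420477299 1) ndF7q1 ndF1q2a pcF1 Cut.none Ext.none)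

def k0_pm_112_a : ∃ t, chk3 f_pm_112_a t 1 1 1 = true :=
  ⟨(l 4), by decide +kernel⟩

theorem c_pm_112_a : CertFX 536870912 536870912 0 420477299 1046898278 26843546 false true false .dn 1 1 2
    ndF7q1 ndF1q2a pcF1 Cut.none Ext.none :=
  certFX2 (fam := false) (s1 := true) (s2 := false) (a := 1) (b := 1) (c := 2) (cn := .dn) (n1 := ndF7q1) (n2 := ndF1q2a) (pc := pcF1) (cut := Cut.none) (xt := Ext.none) (P1 := 536870912) (W1 := 536870912) (P2 := 0) (W2 := 420477299) (P3 := 1046898278) (W3 := 26843546)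
    rfl (fun _ => rfl) k0_pm_112_a

noncomputable def f_pm_112_b : ℕ → ℕ → ℕ → ℕ → Bool := onCell 536870912 536870912 536870912 536870912 1046898278 26843546
    (rowFX 1 false true false .dn 1 1 2 (qsf 536870912 536870912 1239849684 370763052 1) ndF7q1 ndF1q2b pcF1 Cut.none Ext.none)

def k0_pm_112_b : ∃ t, chk3 f_pm_112_b t 1 1 1 = true :=
  ⟨(a (b (l 4) (l 4)) (a (b (b (c (l 15520920) (l 15488288)) (b (l 139281269015) (l 4))) (l 4)) (b (b (a (l 14550992) (l 14000792)) (a (b (l 14454928) (l 2)) (l 2))) (l 2)))), by decide +kernel⟩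

theorem c_pm_112_b : CertFX 536870912 536870912 1239849684 370763052 1046898278 26843546 false true false .dn 1 1 2
    ndF7q1 ndF1q2b pcF1 Cut.none Ext.none :=
  certFX1 (fam := false) (s1 := true) (s2 := false) (a := 1) (b := 1) (c := 2) (cn := .dn) (n1 := ndF7q1) (n2 := ndF1q2b) (pc := pcF1) (cut := Cut.none) (xt := Ext.none) (P1 := 536870912) (W1 := 536870912) (P2 := 1239849684) (W2 := 370763052) (P3 := 1046898278) (W3 := 26843546)
    rfl (fun _ => rfl) k0_pm_112_b

noncomputable def f_pm_113 : ℕ → ℕ → ℕ → ℕ → Bool := onCell 536870912 536870912 536870912 536870912 1046898278 26843546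
    (rowFX 1 false true false .nn 1 1 3 (qsf 536870912 536870912 1610612736 469762048 1) ndF7q1 ndF1q3 pcF1 Cut.none Ext.none)

def k0_pm_113 : ∃ t, chk3 f_pm_113 t 1 1 1 = true :=
  ⟨(a (b (l 4) (l 4)) (a (b (b (l 600252185527) (b (l 307120537879) (l 4))) (l 4)) (a (b (b (l 14550992) (b (l 14454928) (l 14126912))) (b (b (b (l 13782080) (l 13899408)) (b (l 13527064) (l 4))) (l 4))) (b (b (l 14000792) (b (l 13967296) (l 13856368))) (b (a (b (l 13533352) (l 12727848)) (b (l 13599280) (b (l 13029448) (l 12666632)))) (b (b (c (l 12857552) (l 12548240)) (c (l 12688936) (l 12208728))) (b (c (l 12693752) (l 11908744)) (c (l 13351840) (b (l 11800792) (l 11883792)))))))))), by decide +kernel⟩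

theorem c_pm_113 : CertFX 536870912 536870912 1610612736 469762048 1046898278 26843546 false true false .nn 1 1 3
    ndF7q1 ndF1q3 pcF1 Cut.none Ext.none :=
  certFX1 (fam := false) (s1 := true) (s2 := false) (a := 1) (b := 1) (c := 3) (cn := .nn) (n1 := ndF7q1) (n2 := ndF1q3) (pc := pcF1) (cut := Cut.none) (xt := Ext.none) (P1 := 536870912) (W1 := 536870912) (P2 := 1610612736) (W2 := 469762048) (P3 := 1046898278) (W3 := 26843546)
    rfl (fun _ => rfl) k0_pm_113

noncomputable def f_pm_123 : ℕ → ℕ → ℕ → ℕ → Bool := onCell 1073741824 536870912 1610612736 469762048 1046898278 26843546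
    (rowFX 2 false true false .npn 1 2 3 (qsf 536870912 536870912 1610612736 469762048 2) ndF7q1 ndF1q3 pcF2 Cut.none Ext.none)

def k0_pm_123 : ∃ t, chk3 f_pm_123 t 1 1 1 = true :=
  ⟨(l 4), by decide +kernel⟩

theorem c_pm_123 : CertFX 536870912 536870912 1610612736 469762048 1046898278 26843546 false true false .npn 1 2 3
    ndF7q1 ndF1q3 pcF2 Cut.none Ext.none :=
  certFX2 (fam := false) (s1 := true) (s2 := false) (a := 1) (b := 2) (c := 3) (cn := .npn) (n1 := ndF7q1) (n2 := ndF1q3) (pc := pcF2) (cut := Cut.none) (xt := Ext.none) (P1 := 536870912) (W1 := 536870912) (P2 := 1610612736) (W2 := 469762048) (P3 := 1046898278) (W3 := 26843546)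
    rfl (fun _ => rfl) k0_pm_123

noncomputable def f_pm_133 : ℕ → ℕ → ℕ → ℕ → Bool := onCell 536870912 536870912 1610612736 469762048 1046898278 26843546
    (rowFX 0 false true false .dn 1 3 3 (qsf 536870912 536870912 1610612736 469762048 3) ndF7q1 ndF1q3 pcF3 Cut.none Ext.none)

def k0_pm_133 : ∃ t, chk3 f_pm_133 t 1 1 1 = true :=
  ⟨(l 1), by decide +kernel⟩

theorem c_pm_133 : CertFX 536870912 536870912 1610612736 469762048 1046898278 26843546 false true false .dn 1 3 3
    ndF7q1 ndF1q3 pcF3 Cut.none Ext.none :=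
  certFX0 (fam := false) (s1 := true) (s2 := false) (a := 1) (b := 3) (c := 3) (cn := .dn) (n1 := ndF7q1) (n2 := ndF1q3) (pc := pcF3) (cut := Cut.none) (xt := Ext.none) (P1 := 536870912) (W1 := 536870912) (P2 := 1610612736) (W2 := 469762048) (P3 := 1046898278) (W3 := 26843546)
    rfl k0_pm_133

noncomputable def f_pm_202_a : ℕ → ℕ → ℕ → ℕ → Bool := onCell 0 536870912 0 420477299 1046898278 26843546
    (rowFX 2 false true false .pp 2 0 2 (qsf 1073741824 536870912 0 420477299 0) ndF7q2 ndF1q2a pcF0 Cut.none Ext.none)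

def k0_pm_202_a : ∃ t, chk3 f_pm_202_a t 1 1 1 = true :=
  ⟨(a (b (a (a (a (a (c (a (b (l 15641336) (l 15352552)) (b (c (l 15542304) (l 15530632)) (c (l 15256568) (l 15238960)))) (a (a (c (l 15489576) (b (l 15627680) (c (l 15335568) (l 15326120)))) (c (b (l 15590440) (l 15296888)) (l 15210376))) (c (b (l 15515488) (l 15219528)) (l 15338368)))) (c (b (a (l 15441424) (l 15335888)) (a (l 15147448) (l 15042920))) (b (l 15339712) (l 15045632)))) (c (b (a (l 15163984) (l 14959400)) (a (l 14892424) (l 14699456))) (b (l 15015200) (l 14755680)))) (a (c (b (l 14665376) (c (l 14418984) (l 14431336))) (b (l 14635784) (l 14391960))) (c (b (l 14268880) (l 14069600)) (b (l 14266056) (c (l 14060808) (l 14050360)))))) (a (a (c (l 13855064) (b (l 13896096) (c (l 13730216) (l 13708840)))) (b (l 1) (l 1))) (l 1))) (b (a (a (a (a (a (c (c (l 14940696) (l 14916432)) (c (a (l 14914472) (b (l 14974288) (l 14757264))) (a (c (l 22779068935) (b (l 14999544) (l 40495681175))) (c (l 14848088) (l 14835728)))))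 (b (c (c (l 14942792) (l 14919328)) (c (l 14895440) (l 14870816))) (l 4))) (b (c (a (l 14835200) (l 14749040)) (l 14742008)) (l 4))) (b (c (a (l 14614136) (l 14443152)) (l 14372392)) (l 4))) (b (a (b (c (l 14227360) (l 14204744)) (l 4)) (l 4)) (l 4))) (l 4)) (l 4))) (l 1)), by decide +kernel⟩

theorem c_pm_202_a : CertFX 1073741824 536870912 0 420477299 1046898278 26843546 false true false .pp 2 0 2
    ndF7q2 ndF1q2a pcF0 Cut.none Ext.none :=
  certFX2 (fam := false) (s1 := true) (s2 := false) (a := 2) (b := 0) (c := 2) (cn := .pp) (n1 := ndF7q2) (n2 := ndF1q2a) (pc := pcF0) (cut := Cut.none) (xt := Ext.none) (P1 := 1073741824) (W1 := 536870912) (P2 := 0) (W2 := 420477299) (P3 := 1046898278) (W3 := 26843546)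
    rfl (fun _ => rfl) k0_pm_202_a

noncomputable def f_pm_202_b : ℕ → ℕ → ℕ → ℕ → Bool := onCell 1073741824 536870912 0 536870912 1046898278 26843546
    (rowFX 1 false true false .pp 2 0 2 (qsf 1073741824 536870912 1239849684 370763052 0) ndF7q2 ndF1q2b pcF0 Cut.none Ext.none)

def k0_pm_202_b : ∃ t, chk3 f_pm_202_b t 1 4 1 = true :=
  ⟨(a (a (a (b (l 1) (b (a (l 1) (c (l 14414800) (l 14406696))) (c (l 208333826151) (a (l 14013168) (l 14342112))))) (b (b (b (l 1) (c (a (l 1) (l 15121912)) (l 345237507431))) (c (a (l 367248865815) (l 15170656)) (l 296382168695))) (c (b (l 239473812263) (l 14877680)) (b (l 14892760) (l 14824176))))) (b (c (b (a (b (b (l 15799112) (c (l 15787648) (l 15633576))) (b (l 15615008) (l 15770480))) (b (b (l 16376640) (a (l 16211192) (b (l 16483600) (l 16480304)))) (a (l 16221000) (a (l 16411032) (l 16529456))))) (a (l 15506800) (b (l 16167880) (l 16144016)))) (b (a (b (b (c (l 334501589239) (b (l 425232667575) (l 15762024))) (c (l 15768848) (l 15749768)))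 (l 15734856)) (b (b (c (l 16368600) (a (l 16228272) (l 16489888))) (c (l 16212904) (l 16349376))) (l 16101432))) (a (l 15682240) (l 16024528)))) (b (a (c (l 15635736) (l 15607544)) (c (l 16210536) (l 16198376))) (a (l 15554672) (l 16138256))))) (b (a (b (b (c (a (b (l 16233560) (c (l 16259248) (l 16243688))) (b (l 15796488) (c (l 15840160) (l 15815744)))) (a (b (c (b (l 16227272) (l 16235864)) (c (l 16229552) (l 16229384))) (c (l 16236864) (l 16245408))) (b (c (l 15783864) (b (l 15769320) (l 15779424))) (l 15799152)))) (c (a (c (l 16241280) (l 16252944)) (l 15697352)) (a (l 16271280) (l 15855288)))) (a (c (l 16340424) (l 16349552)) (c (l 15928584) (l 15969368)))) (b (c (b (b (l 15550512) (a (l 15669928) (l 15507928))) (a (l 15690720) (l 15531664))) (b (b (c (l 15534560) (l 15356272)) (l 15532560)) (l 15623336))) (c (l 15557160) (l 15765008)))) (a (b (a (l 16302112) (l 16041032)) (a (l 16580440) (l 16305704))) (b (c (l 15993888) (l 15973168)) (a (l 16225144) (l 2)))))), by decide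 +kernel⟩

def k1_pm_202_b : ∃ t, chk3 f_pm_202_b t 1 5 1 = true :=
  ⟨(a (a (a (b (c (l 273295063271) (a (l 13941624) (l 14266656))) (c (l 14045720) (l 13781328))) (b (c (l 14801024) (l 14745408)) (a (l 14503976) (l 14827272)))) (b (a (l 15473104) (l 16063736)) (a (l 15378272) (l 15976864)))) (b (a (a (l 16544144) (l 16493960)) (a (l 16429664) (l 2))) (a (a (l 16473848) (b (l 16700464) (l 2))) (l 2)))), by decide +kernel⟩

def k2_pm_202_b : ∃ t, chk3 f_pm_202_b t 1 3 1 = true :=
  ⟨(a (a (b (a (c (l 14031584) (l 14018360)) (c (l 14691592) (l 14632392))) (a (l 13802888) (l 14640608))) (b (a (l 15364072) (l 15964160)) (a (l 15364072) (l 2)))) (a (b (a (l 16464376) (l 2)) (l 2)) (l 2))), by decide +kernel⟩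

theorem s3_pm_202_b : ∃ t, chk3 f_pm_202_b t 1 2 1 = true := ex3_b k0_pm_202_b k1_pm_202_b

theorem s4_pm_202_b : ∃ t, chk3 f_pm_202_b t 1 1 1 = true := ex3_b s3_pm_202_b k2_pm_202_b

theorem c_pm_202_b : CertFX 1073741824 536870912 1239849684 370763052 1046898278 26843546 false true false .pp 2 0 2
    ndF7q2 ndF1q2b pcF0 Cut.none Ext.none :=
  certFX1 (fam := false) (s1 := true) (s2 := false) (a := 2) (b := 0) (c := 2) (cn := .pp) (n1 := ndF7q2) (n2 := ndF1q2b) (pc := pcF0) (cut := Cut.none) (xt := Ext.none) (P1 := 1073741824) (W1 := 536870912) (P2 := 1239849684) (W2 := 370763052) (P3 := 1046898278) (W3 := 26843546)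
    rfl (fun _ => rfl) s4_pm_202_b

noncomputable def f_pm_203 : ℕ → ℕ → ℕ → ℕ → Bool := onCell 1073741824 536870912 0 536870912 1046898278 26843546
    (rowFX 1 false true false .up 2 0 3 (qsf 1073741824 536870912 1610612736 469762048 0) ndF7q2 ndF1q3 pcF0 Cut.none Ext.none)

def k0_pm_203 : ∃ t, chk3 f_pm_203 t 1 1 1 = true :=
  ⟨(b (b (a (l 1) (b (a (l 1) (a (b (l 1) (l 346312901239)) (b (b (c (l 15483152) (b (l 15444296) (l 15471432))) (c (l 15531664) (l 15545904))) (l 15694600)))) (a (b (l 1) (l 484289930183)) (b (c (l 15993888) (l 15973168)) (a (l 16225144) (l 16121096)))))) (a (a (l 1) (b (l 1) (a (l 1) (l 15976864)))) (b (a (a (l 16544144) (l 16493960)) (a (l 16429664) (l 16203472))) (a (b (l 16492032) (l 344166956503)) (b (l 16667416) (l 16777056)))))) (a (a (b (a (l 1) (l 440262925751)) (a (l 13781920) (l 14640608))) (b (l 345238845447) (a (l 15364072) (l 15964160)))) (a (b (a (l 16464376) (l 16767528)) (a (l 16464376) (l 16767536))) (b (a (l 16777216) (l 16777208)) (a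 (l 16771864) (l 16767512)))))), by decide +kernel⟩

theorem c_pm_203 : CertFX 1073741824 536870912 1610612736 469762048 1046898278 26843546 false true false .up 2 0 3
    ndF7q2 ndF1q3 pcF0 Cut.none Ext.none :=
  certFX1 (fam := false) (s1 := true) (s2 := false) (a := 2) (b := 0) (c := 3) (cn := .up) (n1 := ndF7q2) (n2 := ndF1q3) (pc := pcF0) (cut := Cut.none) (xt := Ext.none) (P1 := 1073741824) (W1 := 536870912) (P2 := 1610612736) (W2 := 469762048) (P3 := 1046898278) (W3 := 26843546)
    rfl (fun _ => rfl) k0_pm_203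

noncomputable def f_pm_213 : ℕ → ℕ → ℕ → ℕ → Bool := onCell 1073741824 536870912 1610612736 469762048 1046898278 26843546
    (rowFX 0 false true false .pnn 2 1 3 (qsf 1073741824 536870912 1610612736 469762048 1) ndF7q2 ndF1q3 pcF1 Cut.none Ext.none)

def k0_pm_213 : ∃ t, chk3 f_pm_213 t 1 1 1 = true :=
  ⟨(b (a (a (a (b (l 14033576) (a (l 13863504) (l 14191696))) (l 577701879223)) (a (l 562670940599) (l 560524657143))) (l 1)) (a (a (b (a (a (b (l 13867784) (l 13735024)) (l 14186176)) (l 14640608)) (a (b (a (b (l 13456112) (l 13297544)) (a (l 13966744) (l 14229360))) (a (b (a (l 12875144) (l 13485912)) (a (l 12838080) (l 13531296))) (b (a (l 13954928) (b (l 14224784) (l 14240048))) (a (l 13987728) (l 14256128))))) (a (b (l 14494344) (b (l 14488960) (l 14510400))) (l 14816296)))) (b (a (l 15364072) (l 15964160)) (b (l 15676184) (l 15680880)))) (a (a (b (l 16464376) (l 16469440)) (l 438657365319)) (a (l 422014180999) (l 891239360711))))), by decide +kernel⟩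

theorem c_pm_213 : CertFX 1073741824 536870912 1610612736 469762048 1046898278 26843546 false true false .pnn 2 1 3
    ndF7q2 ndF1q3 pcF1 Cut.none Ext.none :=
  certFX0 (fam := false) (s1 := true) (s2 := false) (a := 2) (b := 1) (c := 3) (cn := .pnn) (n1 := ndF7q2) (n2 := ndF1q3) (pc := pcF1) (cut := Cut.none) (xt := Ext.none) (P1 := 1073741824) (W1 := 536870912) (P2 := 1610612736) (W2 := 469762048) (P3 := 1046898278) (W3 := 26843546)
    rfl k0_pm_213

noncomputable def f_pm_303 : ℕ → ℕ → ℕ → ℕ → Bool := onCell 0 1230186008 0 536870912 1046898278 26843546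
    (rowFX 1 false true false .npn 3 0 3 (qsf 0 1230186008 1610612736 469762048 0) ndF7q3 ndF1q3 pcF0 Cut.none Ext.none)

def k0_pm_303 : ∃ t, chk3 f_pm_303 t 1 1 1 = true :=
  ⟨(a (a (l 2) (b (b (l 3) (l 2)) (l 2))) (a (b (l 3) (l 2)) (a (b (a (l 3) (b (b (b (c (b (b (a (a (l 14783880) (l 14809472)) (l 14879864)) (a (a (l 14830560) (l 14783960)) (c (l 14966024) (l 14921832)))) (a (l 14906352) (c (l 14786128) (l 15003160)))) (b (b (a (c (l 14751680) (l 323359479655)) (c (l 14858512) (l 14854392))) (a (l 326043995575) (l 14895376))) (a (c (l 14948288) (l 14934824)) (l 15001784)))) (c (b (c (l 15114736) (l 313159632823)) (l 313696843047)) (a (l 15177464) (b (l 15151984) (l 15296008))))) (c (b (b (l 15456176) (l 15642280)) (l 15865832)) (b (l 325508518007) (l 15800208)))) (b (c (l 16112528) (b (l 16089744) (l 16354976))) (b (c (l 16624616) (l 16620600)) (c (l 16766376) (l 16765880)))))) (b (a (l 3) (b (l 349670768983) (l 2))) (l 2))) (a (b (b (b (b (b (c (b (l 15044344) (c (l 15145328)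 (l 15033336))) (b (c (a (l 14979784) (l 15081440)) (a (l 14964600) (a (l 15044520) (l 15102528)))) (c (l 15064592) (l 15080960)))) (c (c (l 14860080) (l 15092384)) (l 15190136))) (c (b (l 15217456) (l 15311280)) (c (l 15298936) (l 15274872)))) (b (c (l 15631648) (l 15449392)) (c (l 15956576) (l 15932528)))) (b (c (l 16289360) (l 16276688)) (b (l 16649944) (l 16772920)))) (b (b (l 16771656) (l 16766848)) (l 2))) (b (b (b (b (b (c (l 15289448) (l 15054648)) (c (b (l 15317712) (l 15305336)) (l 15298400))) (c (b (l 15425864) (l 15592664)) (l 15494888))) (b (c (l 15710000) (l 15798408)) (b (l 15945296) (l 16058488)))) (b (l 16341600) (l 16714424))) (b (l 16771832) (l 16757920))))))), by decide +kernel⟩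

theorem c_pm_303 : CertFX 0 1230186008 1610612736 469762048 1046898278 26843546 false true false .npn 3 0 3
    ndF7q3 ndF1q3 pcF0 Cut.none Ext.none :=
  certFX1 (fam := false) (s1 := true) (s2 := false) (a := 3) (b := 0) (c := 3) (cn := .npn) (n1 := ndF7q3) (n2 := ndF1q3) (pc := pcF0) (cut := Cut.none) (xt := Ext.none) (P1 := 0) (W1 := 1230186008) (P2 := 1610612736) (W2 := 469762048) (P3 := 1046898278) (W3 := 26843546)
    rfl (fun _ => rfl) k0_pm_303

noncomputable def f_pm_313 : ℕ → ℕ → ℕ → ℕ → Bool := onCell 0 1230186008 1610612736 469762048 1046898278 26843546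
    (rowFX 0 false true false .dn 3 1 3 (qsf 0 1230186008 1610612736 469762048 1) ndF7q3 ndF1q3 pcF1 Cut.none Ext.none)

def k0_pm_313 : ∃ t, chk3 f_pm_313 t 1 1 1 = true :=
  ⟨(l 1), by decide +kernel⟩

theorem c_pm_313 : CertFX 0 1230186008 1610612736 469762048 1046898278 26843546 false true false .dn 3 1 3
    ndF7q3 ndF1q3 pcF1 Cut.none Ext.none :=
  certFX0 (fam := false) (s1 := true) (s2 := false) (a := 3) (b := 1) (c := 3) (cn := .dn) (n1 := ndF7q3) (n2 := ndF1q3) (pc := pcF1) (cut := Cut.none) (xt := Ext.none) (P1 := 0) (W1 := 1230186008) (P2 := 1610612736) (W2 := 469762048) (P3 := 1046898278) (W3 := 26843546)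
    rfl k0_pm_313

noncomputable def f_mm_001 : ℕ → ℕ → ℕ → ℕ → Bool := onCell 0 536870912 536870912 536870912 1046898278 26843546
    (rowFX 0 false false false .up 0 0 1 (qsf 0 536870912 536870912 536870912 0) ndF7q0 ndF1q1 pcF0 Cut.none Ext.none)

def k0_mm_001 : ∃ t, chk3 f_mm_001 t 1 1 1 = true :=
  ⟨(l 5), by decide +kernel⟩

theorem c_mm_001 : CertFX 0 536870912 536870912 536870912 1046898278 26843546 false false false .up 0 0 1
    ndF7q0 ndF1q1 pcF0 Cut.none Ext.none :=
  certFX0 (fam := false) (s1 := false) (s2 := false) (a := 0) (b := 0) (c := 1) (cn := .up) (n1 := ndF7q0) (n2 := ndF1q1) (pc := pcF0) (cut := Cut.none) (xt := Ext.none) (P1 := 0) (W1 := 536870912) (P2 := 536870912) (W2 := 536870912) (P3 := 1046898278) (W3 := 26843546)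
    rfl k0_mm_001

noncomputable def f_mm_011 : ℕ → ℕ → ℕ → ℕ → Bool := onCell 0 536870912 536870912 536870912 1046898278 26843546
    (rowFX 0 false false false .pnn 0 1 1 (qsf 0 536870912 536870912 536870912 1) ndF7q0 ndF1q1 pcF1 Cut.none Ext.none)

def k0_mm_011 : ∃ t, chk3 f_mm_011 t 1 1 1 = true :=
  ⟨(l 5), by decide +kernel⟩

theorem c_mm_011 : CertFX 0 536870912 536870912 536870912 1046898278 26843546 false false false .pnn 0 1 1
    ndF7q0 ndF1q1 pcF1 Cut.none Ext.none :=
  certFX0 (fam := false) (s1 := false) (s2 := false) (a := 0) (b := 1) (c := 1) (cn := .pnn) (n1 := ndF7q0) (n2 := ndF1q1) (pc := pcF1) (cut := Cut.none) (xt := Ext.none) (P1 := 0) (W1 := 536870912) (P2 := 536870912) (W2 := 536870912) (P3 := 1046898278) (W3 := 26843546)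
    rfl k0_mm_011

noncomputable def f_mm_012_a : ℕ → ℕ → ℕ → ℕ → Bool := onCell 0 536870912 0 420477299 1046898278 26843546
    (rowFX 0 false false false .pnp 0 1 2 (qsf 0 536870912 0 420477299 1) ndF7q0 ndF1q2a pcF1 Cut.none Ext.none)

def k0_mm_012_a : ∃ t, chk3 f_mm_012_a t 1 1 1 = true :=
  ⟨(l 5), by decide +kernel⟩

theorem c_mm_012_a : CertFX 0 536870912 0 420477299 1046898278 26843546 false false false .pnp 0 1 2
    ndF7q0 ndF1q2a pcF1 Cut.none Ext.none :=
  certFX0 (fam := false) (s1 := false) (s2 := false) (a := 0) (b := 1) (c := 2) (cn := .pnp) (n1 := ndF7q0) (n2 := ndF1q2a) (pc := pcF1) (cut := Cut.none) (xt := Ext.none) (P1 := 0) (W1 := 536870912) (P2 := 0) (W2 := 420477299) (P3 := 1046898278) (W3 := 26843546)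
    rfl k0_mm_012_a

noncomputable def f_mm_012_b : ℕ → ℕ → ℕ → ℕ → Bool := onCell 0 536870912 1239849684 370763052 1046898278 26843546
    (rowFX 0 false false false .pnp 0 1 2 (qsf 0 536870912 1239849684 370763052 1) ndF7q0 ndF1q2b pcF1 Cut.none Ext.none)

def k0_mm_012_b : ∃ t, chk3 f_mm_012_b t 1 1 1 = true :=
  ⟨(l 5), by decide +kernel⟩

theorem c_mm_012_b : CertFX 0 536870912 1239849684 370763052 1046898278 26843546 false false false .pnp 0 1 2
    ndF7q0 ndF1q2b pcF1 Cut.none Ext.none :=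
  certFX0 (fam := false) (s1 := false) (s2 := false) (a := 0) (b := 1) (c := 2) (cn := .pnp) (n1 := ndF7q0) (n2 := ndF1q2b) (pc := pcF1) (cut := Cut.none) (xt := Ext.none) (P1 := 0) (W1 := 536870912) (P2 := 1239849684) (W2 := 370763052) (P3 := 1046898278) (W3 := 26843546)
    rfl k0_mm_012_b

noncomputable def f_mm_022_a : ℕ → ℕ → ℕ → ℕ → Bool := onCell 0 536870912 0 420477299 1046898278 26843546
    (rowFX 0 false false false .pp 0 2 2 (qsf 0 536870912 0 420477299 2) ndF7q0 ndF1q2a pcF2 Cut.none Ext.none)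

def k0_mm_022_a : ∃ t, chk3 f_mm_022_a t 1 1 1 = true :=
  ⟨(l 5), by decide +kernel⟩

theorem c_mm_022_a : CertFX 0 536870912 0 420477299 1046898278 26843546 false false false .pp 0 2 2
    ndF7q0 ndF1q2a pcF2 Cut.none Ext.none :=
  certFX0 (fam := false) (s1 := false) (s2 := false) (a := 0) (b := 2) (c := 2) (cn := .pp) (n1 := ndF7q0) (n2 := ndF1q2a) (pc := pcF2) (cut := Cut.none) (xt := Ext.none) (P1 := 0) (W1 := 536870912) (P2 := 0) (W2 := 420477299) (P3 := 1046898278) (W3 := 26843546)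
    rfl k0_mm_022_a

noncomputable def f_mm_022_b : ℕ → ℕ → ℕ → ℕ → Bool := onCell 0 536870912 1239849684 370763052 1046898278 26843546
    (rowFX 0 false false false .pp 0 2 2 (qsf 0 536870912 1239849684 370763052 2) ndF7q0 ndF1q2b pcF2 Cut.none Ext.none)

def k0_mm_022_b : ∃ t, chk3 f_mm_022_b t 1 1 1 = true :=
  ⟨(l 5), by decide +kernel⟩

theorem c_mm_022_b : CertFX 0 536870912 1239849684 370763052 1046898278 26843546 false false false .pp 0 2 2
    ndF7q0 ndF1q2b pcF2 Cut.none Ext.none :=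
  certFX0 (fam := false) (s1 := false) (s2 := false) (a := 0) (b := 2) (c := 2) (cn := .pp) (n1 := ndF7q0) (n2 := ndF1q2b) (pc := pcF2) (cut := Cut.none) (xt := Ext.none) (P1 := 0) (W1 := 536870912) (P2 := 1239849684) (W2 := 370763052) (P3 := 1046898278) (W3 := 26843546)
    rfl k0_mm_022_b

noncomputable def f_mm_023 : ℕ → ℕ → ℕ → ℕ → Bool := onCell 0 536870912 1610612736 469762048 1046898278 26843546
    (rowFX 0 false false false .up 0 2 3 (qsf 0 536870912 1610612736 469762048 2) ndF7q0 ndF1q3 pcF2 Cut.none Ext.none)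

def k0_mm_023 : ∃ t, chk3 f_mm_023 t 1 1 1 = true :=
  ⟨(l 4), by decide +kernel⟩

theorem c_mm_023 : CertFX 0 536870912 1610612736 469762048 1046898278 26843546 false false false .up 0 2 3
    ndF7q0 ndF1q3 pcF2 Cut.none Ext.none :=
  certFX0 (fam := false) (s1 := false) (s2 := false) (a := 0) (b := 2) (c := 3) (cn := .up) (n1 := ndF7q0) (n2 := ndF1q3) (pc := pcF2) (cut := Cut.none) (xt := Ext.none) (P1 := 0) (W1 := 536870912) (P2 := 1610612736) (W2 := 469762048) (P3 := 1046898278) (W3 := 26843546)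
    rfl k0_mm_023

noncomputable def f_mm_033 : ℕ → ℕ → ℕ → ℕ → Bool := onCell 0 536870912 1610612736 469762048 1046898278 26843546
    (rowFX 0 false false false .pnn 0 3 3 (qsf 0 536870912 1610612736 469762048 3) ndF7q0 ndF1q3 pcF3 Cut.none Ext.none)

def k0_mm_033 : ∃ t, chk3 f_mm_033 t 1 1 1 = true :=
  ⟨(l 4), by decide +kernel⟩

theorem c_mm_033 : CertFX 0 536870912 1610612736 469762048 1046898278 26843546 false false false .pnn 0 3 3
    ndF7q0 ndF1q3 pcF3 Cut.none Ext.none :=
  certFX0 (fam := false) (s1 := false) (s2 := false) (a := 0) (b := 3) (c := 3) (cn := .pnn) (n1 := ndF7q0) (n2 := ndF1q3) (pc := pcF3) (cut := Cut.none) (xt := Ext.none) (P1 := 0) (W1 := 536870912) (P2 := 1610612736) (W2 := 469762048) (P3 := 1046898278) (W3 := 26843546)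
    rfl k0_mm_033

noncomputable def f_mm_101 : ℕ → ℕ → ℕ → ℕ → Bool := onCell 0 536870912 536870912 536870912 1046898278 26843546
    (rowFX 2 false false false .npn 1 0 1 (qsf 536870912 536870912 536870912 536870912 0) ndF7q1 ndF1q1 pcF0 Cut.none Ext.none)

def k0_mm_101 : ∃ t, chk3 f_mm_101 t 1 1 1 = true :=
  ⟨(l 5), by decide +kernel⟩

theorem c_mm_101 : CertFX 536870912 536870912 536870912 536870912 1046898278 26843546 false false false .npn 1 0 1
    ndF7q1 ndF1q1 pcF0 Cut.none Ext.none :=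
  certFX2 (fam := false) (s1 := false) (s2 := false) (a := 1) (b := 0) (c := 1) (cn := .npn) (n1 := ndF7q1) (n2 := ndF1q1) (pc := pcF0) (cut := Cut.none) (xt := Ext.none) (P1 := 536870912) (W1 := 536870912) (P2 := 536870912) (W2 := 536870912) (P3 := 1046898278) (W3 := 26843546)
    rfl (fun _ => rfl) k0_mm_101

noncomputable def f_mm_102_a : ℕ → ℕ → ℕ → ℕ → Bool := onCell 536870912 536870912 0 420477299 1046898278 26843546
    (rowFX 0 false false false .npp 1 0 2 (qsf 536870912 536870912 0 420477299 0) ndF7q1 ndF1q2a pcF0 Cut.none Ext.none)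

def k0_mm_102_a : ∃ t, chk3 f_mm_102_a t 1 1 1 = true :=
  ⟨(l 5), by decide +kernel⟩

theorem c_mm_102_a : CertFX 536870912 536870912 0 420477299 1046898278 26843546 false false false .npp 1 0 2
    ndF7q1 ndF1q2a pcF0 Cut.none Ext.none :=
  certFX0 (fam := false) (s1 := false) (s2 := false) (a := 1) (b := 0) (c := 2) (cn := .npp) (n1 := ndF7q1) (n2 := ndF1q2a) (pc := pcF0) (cut := Cut.none) (xt := Ext.none) (P1 := 536870912) (W1 := 536870912) (P2 := 0) (W2 := 420477299) (P3 := 1046898278) (W3 := 26843546)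
    rfl k0_mm_102_a

noncomputable def f_mm_102_b : ℕ → ℕ → ℕ → ℕ → Bool := onCell 536870912 536870912 1239849684 370763052 1046898278 26843546
    (rowFX 0 false false false .npp 1 0 2 (qsf 536870912 536870912 1239849684 370763052 0) ndF7q1 ndF1q2b pcF0 Cut.none Ext.none)

def k0_mm_102_b : ∃ t, chk3 f_mm_102_b t 1 1 1 = true :=
  ⟨(l 5), by decide +kernel⟩

theorem c_mm_102_b : CertFX 536870912 536870912 1239849684 370763052 1046898278 26843546 false false false .npp 1 0 2
    ndF7q1 ndF1q2b pcF0 Cut.none Ext.none :=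
  certFX0 (fam := false) (s1 := false) (s2 := false) (a := 1) (b := 0) (c := 2) (cn := .npp) (n1 := ndF7q1) (n2 := ndF1q2b) (pc := pcF0) (cut := Cut.none) (xt := Ext.none) (P1 := 536870912) (W1 := 536870912) (P2 := 1239849684) (W2 := 370763052) (P3 := 1046898278) (W3 := 26843546)
    rfl k0_mm_102_b

noncomputable def f_mm_112_a : ℕ → ℕ → ℕ → ℕ → Bool := onCell 536870912 536870912 0 420477299 1046898278 26843546
    (rowFX 0 false false false .dn 1 1 2 (qsf 536870912 536870912 0 420477299 1) ndF7q1 ndF1q2a pcF1 Cut.none Ext.none)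

def k0_mm_112_a : ∃ t, chk3 f_mm_112_a t 1 1 1 = true :=
  ⟨(l 5), by decide +kernel⟩

theorem c_mm_112_a : CertFX 536870912 536870912 0 420477299 1046898278 26843546 false false false .dn 1 1 2
    ndF7q1 ndF1q2a pcF1 Cut.none Ext.none :=
  certFX0 (fam := false) (s1 := false) (s2 := false) (a := 1) (b := 1) (c := 2) (cn := .dn) (n1 := ndF7q1) (n2 := ndF1q2a) (pc := pcF1) (cut := Cut.none) (xt := Ext.none) (P1 := 536870912) (W1 := 536870912) (P2 := 0) (W2 := 420477299) (P3 := 1046898278) (W3 := 26843546)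
    rfl k0_mm_112_a

noncomputable def f_mm_112_b : ℕ → ℕ → ℕ → ℕ → Bool := onCell 536870912 536870912 1239849684 370763052 1046898278 26843546
    (rowFX 0 false false false .dn 1 1 2 (qsf 536870912 536870912 1239849684 370763052 1) ndF7q1 ndF1q2b pcF1 Cut.none Ext.none)

def k0_mm_112_b : ∃ t, chk3 f_mm_112_b t 1 1 1 = true :=
  ⟨(l 5), by decide +kernel⟩

theorem c_mm_112_b : CertFX 536870912 536870912 1239849684 370763052 1046898278 26843546 false false false .dn 1 1 2
    ndF7q1 ndF1q2b pcF1 Cut.none Ext.none :=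
  certFX0 (fam := false) (s1 := false) (s2 := false) (a := 1) (b := 1) (c := 2) (cn := .dn) (n1 := ndF7q1) (n2 := ndF1q2b) (pc := pcF1) (cut := Cut.none) (xt := Ext.none) (P1 := 536870912) (W1 := 536870912) (P2 := 1239849684) (W2 := 370763052) (P3 := 1046898278) (W3 := 26843546)
    rfl k0_mm_112_b

noncomputable def f_mm_113 : ℕ → ℕ → ℕ → ℕ → Bool := onCell 536870912 536870912 1610612736 469762048 1046898278 26843546
    (rowFX 0 false false false .nn 1 1 3 (qsf 536870912 536870912 1610612736 469762048 1) ndF7q1 ndF1q3 pcF1 Cut.none Ext.none)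

def k0_mm_113 : ∃ t, chk3 f_mm_113 t 1 1 1 = true :=
  ⟨(l 5), by decide +kernel⟩

theorem c_mm_113 : CertFX 536870912 536870912 1610612736 469762048 1046898278 26843546 false false false .nn 1 1 3
    ndF7q1 ndF1q3 pcF1 Cut.none Ext.none :=
  certFX0 (fam := false) (s1 := false) (s2 := false) (a := 1) (b := 1) (c := 3) (cn := .nn) (n1 := ndF7q1) (n2 := ndF1q3) (pc := pcF1) (cut := Cut.none) (xt := Ext.none) (P1 := 536870912) (W1 := 536870912) (P2 := 1610612736) (W2 := 469762048) (P3 := 1046898278) (W3 := 26843546)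
    rfl k0_mm_113

noncomputable def f_mm_123 : ℕ → ℕ → ℕ → ℕ → Bool := onCell 536870912 536870912 1610612736 469762048 1046898278 26843546
    (rowFX 0 false false false .npn 1 2 3 (qsf 536870912 536870912 1610612736 469762048 2) ndF7q1 ndF1q3 pcF2 Cut.none Ext.none)

def k0_mm_123 : ∃ t, chk3 f_mm_123 t 1 1 1 = true :=
  ⟨(l 5), by decide +kernel⟩

theorem c_mm_123 : CertFX 536870912 536870912 1610612736 469762048 1046898278 26843546 false false false .npn 1 2 3
    ndF7q1 ndF1q3 pcF2 Cut.none Ext.none :=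
  certFX0 (fam := false) (s1 := false) (s2 := false) (a := 1) (b := 2) (c := 3) (cn := .npn) (n1 := ndF7q1) (n2 := ndF1q3) (pc := pcF2) (cut := Cut.none) (xt := Ext.none) (P1 := 536870912) (W1 := 536870912) (P2 := 1610612736) (W2 := 469762048) (P3 := 1046898278) (W3 := 26843546)
    rfl k0_mm_123

noncomputable def f_mm_133 : ℕ → ℕ → ℕ → ℕ → Bool := onCell 536870912 536870912 1610612736 469762048 1046898278 26843546
    (rowFX 0 false false false .dn 1 3 3 (qsf 536870912 536870912 1610612736 469762048 3) ndF7q1 ndF1q3 pcF3 Cut.none Ext.none)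

def k0_mm_133 : ∃ t, chk3 f_mm_133 t 1 1 1 = true :=
  ⟨(l 1), by decide +kernel⟩

theorem c_mm_133 : CertFX 536870912 536870912 1610612736 469762048 1046898278 26843546 false false false .dn 1 3 3
    ndF7q1 ndF1q3 pcF3 Cut.none Ext.none :=
  certFX0 (fam := false) (s1 := false) (s2 := false) (a := 1) (b := 3) (c := 3) (cn := .dn) (n1 := ndF7q1) (n2 := ndF1q3) (pc := pcF3) (cut := Cut.none) (xt := Ext.none) (P1 := 536870912) (W1 := 536870912) (P2 := 1610612736) (W2 := 469762048) (P3 := 1046898278) (W3 := 26843546)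
    rfl k0_mm_133

noncomputable def f_mm_202_a : ℕ → ℕ → ℕ → ℕ → Bool := onCell 1073741824 536870912 0 420477299 1046898278 26843546
    (rowFX 0 false false false .pp 2 0 2 (qsf 1073741824 536870912 0 420477299 0) ndF7q2 ndF1q2a pcF0 Cut.none Ext.none)

def k0_mm_202_a : ∃ t, chk3 f_mm_202_a t 1 1 1 = true :=
  ⟨(l 5), by decide +kernel⟩

theorem c_mm_202_a : CertFX 1073741824 536870912 0 420477299 1046898278 26843546 false false false .pp 2 0 2
    ndF7q2 ndF1q2a pcF0 Cut.none Ext.none :=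
  certFX0 (fam := false) (s1 := false) (s2 := false) (a := 2) (b := 0) (c := 2) (cn := .pp) (n1 := ndF7q2) (n2 := ndF1q2a) (pc := pcF0) (cut := Cut.none) (xt := Ext.none) (P1 := 1073741824) (W1 := 536870912) (P2 := 0) (W2 := 420477299) (P3 := 1046898278) (W3 := 26843546)
    rfl k0_mm_202_a

noncomputable def f_mm_202_b : ℕ → ℕ → ℕ → ℕ → Bool := onCell 1073741824 536870912 1239849684 370763052 1046898278 26843546
    (rowFX 0 false false false .pp 2 0 2 (qsf 1073741824 536870912 1239849684 370763052 0) ndF7q2 ndF1q2b pcF0 Cut.none Ext.none)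

def k0_mm_202_b : ∃ t, chk3 f_mm_202_b t 1 1 1 = true :=
  ⟨(l 5), by decide +kernel⟩

theorem c_mm_202_b : CertFX 1073741824 536870912 1239849684 370763052 1046898278 26843546 false false false .pp 2 0 2
    ndF7q2 ndF1q2b pcF0 Cut.none Ext.none :=
  certFX0 (fam := false) (s1 := false) (s2 := false) (a := 2) (b := 0) (c := 2) (cn := .pp) (n1 := ndF7q2) (n2 := ndF1q2b) (pc := pcF0) (cut := Cut.none) (xt := Ext.none) (P1 := 1073741824) (W1 := 536870912) (P2 := 1239849684) (W2 := 370763052) (P3 := 1046898278) (W3 := 26843546)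
    rfl k0_mm_202_b

noncomputable def f_mm_203 : ℕ → ℕ → ℕ → ℕ → Bool := onCell 1073741824 536870912 1610612736 469762048 1046898278 26843546
    (rowFX 0 false false false .up 2 0 3 (qsf 1073741824 536870912 1610612736 469762048 0) ndF7q2 ndF1q3 pcF0 Cut.none Ext.none)

def k0_mm_203 : ∃ t, chk3 f_mm_203 t 1 1 1 = true :=
  ⟨(l 5), by decide +kernel⟩

theorem c_mm_203 : CertFX 1073741824 536870912 1610612736 469762048 1046898278 26843546 false false false .up 2 0 3
    ndF7q2 ndF1q3 pcF0 Cut.none Ext.none :=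
  certFX0 (fam := false) (s1 := false) (s2 := false) (a := 2) (b := 0) (c := 3) (cn := .up) (n1 := ndF7q2) (n2 := ndF1q3) (pc := pcF0) (cut := Cut.none) (xt := Ext.none) (P1 := 1073741824) (W1 := 536870912) (P2 := 1610612736) (W2 := 469762048) (P3 := 1046898278) (W3 := 26843546)
    rfl k0_mm_203

noncomputable def f_mm_213 : ℕ → ℕ → ℕ → ℕ → Bool := onCell 1073741824 536870912 1610612736 469762048 1046898278 26843546
    (rowFX 0 false false false .pnn 2 1 3 (qsf 1073741824 536870912 1610612736 469762048 1) ndF7q2 ndF1q3 pcF1 Cut.none Ext.none)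

def k0_mm_213 : ∃ t, chk3 f_mm_213 t 1 1 1 = true :=
  ⟨(l 5), by decide +kernel⟩

theorem c_mm_213 : CertFX 1073741824 536870912 1610612736 469762048 1046898278 26843546 false false false .pnn 2 1 3
    ndF7q2 ndF1q3 pcF1 Cut.none Ext.none :=
  certFX0 (fam := false) (s1 := false) (s2 := false) (a := 2) (b := 1) (c := 3) (cn := .pnn) (n1 := ndF7q2) (n2 := ndF1q3) (pc := pcF1) (cut := Cut.none) (xt := Ext.none) (P1 := 1073741824) (W1 := 536870912) (P2 := 1610612736) (W2 := 469762048) (P3 := 1046898278) (W3 := 26843546)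
    rfl k0_mm_213

noncomputable def f_mm_303 : ℕ → ℕ → ℕ → ℕ → Bool := onCell 0 1230186008 1610612736 469762048 1046898278 26843546
    (rowFX 0 false false false .npn 3 0 3 (qsf 0 1230186008 1610612736 469762048 0) ndF7q3 ndF1q3 pcF0 Cut.none Ext.none)

def k0_mm_303 : ∃ t, chk3 f_mm_303 t 1 1 1 = true :=
  ⟨(a (l 3) (l 5)), by decide +kernel⟩

theorem c_mm_303 : CertFX 0 1230186008 1610612736 469762048 1046898278 26843546 false false false .npn 3 0 3
    ndF7q3 ndF1q3 pcF0 Cut.none Ext.none :=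
  certFX0 (fam := false) (s1 := false) (s2 := false) (a := 3) (b := 0) (c := 3) (cn := .npn) (n1 := ndF7q3) (n2 := ndF1q3) (pc := pcF0) (cut := Cut.none) (xt := Ext.none) (P1 := 0) (W1 := 1230186008) (P2 := 1610612736) (W2 := 469762048) (P3 := 1046898278) (W3 := 26843546)
    rfl k0_mm_303

noncomputable def f_mm_313 : ℕ → ℕ → ℕ → ℕ → Bool := onCell 0 1230186008 1610612736 469762048 1046898278 26843546
    (rowFX 0 false false false .dn 3 1 3 (qsf 0 1230186008 1610612736 469762048 1) ndF7q3 ndF1q3 pcF1 Cut.none Ext.none)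

def k0_mm_313 : ∃ t, chk3 f_mm_313 t 1 1 1 = true :=
  ⟨(l 1), by decide +kernel⟩

theorem c_mm_313 : CertFX 0 1230186008 1610612736 469762048 1046898278 26843546 false false false .dn 3 1 3
    ndF7q3 ndF1q3 pcF1 Cut.none Ext.none :=
  certFX0 (fam := false) (s1 := false) (s2 := false) (a := 3) (b := 1) (c := 3) (cn := .dn) (n1 := ndF7q3) (n2 := ndF1q3) (pc := pcF1) (cut := Cut.none) (xt := Ext.none) (P1 := 0) (W1 := 1230186008) (P2 := 1610612736) (W2 := 469762048) (P3 := 1046898278) (W3 := 26843546)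
    rfl k0_mm_313

end Pool.Agent.Strip051.G.IE1.Tab.C.FB71

namespace Pool.Agent.Strip051.G.IE1.Tab.C.FB72

open Pool.Agent.Strip051.PB Pool.Agent.Strip051.PB.T
open Pool.Agent.Strip051.G.IE1.Tab

noncomputable def f_pp_001 : ℕ → ℕ → ℕ → ℕ → Bool := onCell 0 536870912 0 536870912 1046898278 26843546
    (rowFX 1 false true true .up 0 0 1 (qsf 0 536870912 536870912 536870912 0) ndF7q0 ndF2q1 pcF0 Cut.none Ext.none)

def k0_pp_001 : ∃ t, chk3 f_pp_001 t 1 1 1 = true :=
  ⟨(l 3), by decide +kernel⟩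

theorem c_pp_001 : CertFX 0 536870912 536870912 536870912 1046898278 26843546 false true true .up 0 0 1
    ndF7q0 ndF2q1 pcF0 Cut.none Ext.none :=
  certFX1 (fam := false) (s1 := true) (s2 := true) (a := 0) (b := 0) (c := 1) (cn := .up) (n1 := ndF7q0) (n2 := ndF2q1) (pc := pcF0) (cut := Cut.none) (xt := Ext.none) (P1 := 0) (W1 := 536870912) (P2 := 536870912) (W2 := 536870912) (P3 := 1046898278) (W3 := 26843546)
    rfl (fun _ => rfl) k0_pp_001

noncomputable def f_pp_011 : ℕ → ℕ → ℕ → ℕ → Bool := onCell 536870912 536870912 536870912 536870912 1046898278 26843546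
    (rowFX 2 false true true .pnn 0 1 1 (qsf 0 536870912 536870912 536870912 1) ndF7q0 ndF2q1 pcF1 Cut.none Ext.none)

def k0_pp_011 : ∃ t, chk3 f_pp_011 t 1 1 1 = true :=
  ⟨(a (l 3) (a (l 3) (b (l 1) (a (b (l 3) (b (a (l 3) (c (l 16257496) (b (l 16206256) (l 16195800)))) (a (c (l 16333896) (l 16261208)) (c (l 16090552) (b (l 16111288) (l 16038400)))))) (b (l 1) (b (a (a (b (l 1) (l 527775665495)) (l 1)) (l 1)) (a (c (a (l 15900368) (l 15768400)) (b (l 15846864) (l 15626984))) (c (a (l 15604232) (l 15576400)) (a (l 15644848) (c (l 55865184839) (a (l 15565904) (l 15498880)))))))))))), by decide +kernel⟩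

theorem c_pp_011 : CertFX 0 536870912 536870912 536870912 1046898278 26843546 false true true .pnn 0 1 1
    ndF7q0 ndF2q1 pcF1 Cut.none Ext.none :=
  certFX2 (fam := false) (s1 := true) (s2 := true) (a := 0) (b := 1) (c := 1) (cn := .pnn) (n1 := ndF7q0) (n2 := ndF2q1) (pc := pcF1) (cut := Cut.none) (xt := Ext.none) (P1 := 0) (W1 := 536870912) (P2 := 536870912) (W2 := 536870912) (P3 := 1046898278) (W3 := 26843546)
    rfl (fun _ => rfl) k0_pp_011

noncomputable def f_pp_012_a : ℕ → ℕ → ℕ → ℕ → Bool := onCell 536870912 536870912 0 420477299 1046898278 26843546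
    (rowFX 2 false true true .pnp 0 1 2 (qsf 0 536870912 0 420477299 1) ndF7q0 ndF2q2a pcF1 Cut.none Ext.none)

def k0_pp_012_a : ∃ t, chk3 f_pp_012_a t 1 1 1 = true :=
  ⟨(a (a (b (l 2) (b (l 16609208) (b (l 16394016) (l 16285176)))) (b (b (l 16702392) (l 16752704)) (b (l 16609208) (b (l 16394016) (l 16285176))))) (a (b (a (l 16734064) (a (l 16727416) (b (l 16691632) (l 16683568)))) (b (a (l 16606992) (a (l 16596472) (l 16534752))) (a (b (l 16391688) (l 16282776)) (b (a (l 16380712) (l 16438560)) (a (l 16271512) (l 16332760)))))) (b (a (a (b (l 16182968) (l 16236736)) (b (l 15685760) (l 15789704))) (a (b (c (l 15163392) (l 15166512)) (c (l 15314968) (l 15315632))) (b (c (l 14596936) (l 14496304)) (c (l 14793992) (a (l 14929672) (l 14660192)))))) (a (b (a (l 16182168) (l 15775344)) (b (a (l 16083616) (l 15703024)) (a (l 16041264) (l 15681200)))) (b (a (c (l 15340464) (l 15335016)) (c (l 14855888) (a (l 14975896) (l 14723560)))) (a (c (b (l 15294832) (l 15293368)) (b (l 15283336)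 (l 15278960))) (c (b (l 14833896) (l 14851400)) (b (a (l 14941528) (l 14700192)) (a (l 14951072) (l 14718728)))))))))), by decide +kernel⟩

theorem c_pp_012_a : CertFX 0 536870912 0 420477299 1046898278 26843546 false true true .pnp 0 1 2
    ndF7q0 ndF2q2a pcF1 Cut.none Ext.none :=
  certFX2 (fam := false) (s1 := true) (s2 := true) (a := 0) (b := 1) (c := 2) (cn := .pnp) (n1 := ndF7q0) (n2 := ndF2q2a) (pc := pcF1) (cut := Cut.none) (xt := Ext.none) (P1 := 0) (W1 := 536870912) (P2 := 0) (W2 := 420477299) (P3 := 1046898278) (W3 := 26843546)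
    rfl (fun _ => rfl) k0_pp_012_a

noncomputable def f_pp_012_b : ℕ → ℕ → ℕ → ℕ → Bool := onCell 536870912 536870912 1239849684 370763052 1046898278 26843546
    (rowFX 2 false true true .pnp 0 1 2 (qsf 0 536870912 1239849684 370763052 1) ndF7q0 ndF2q2b pcF1 Cut.none Ext.none)

def k0_pp_012_b : ∃ t, chk3 f_pp_012_b t 1 1 1 = true :=
  ⟨(a (b (a (l 2) (b (l 16753056) (l 16777216))) (l 2)) (a (b (b (a (l 16752128) (a (l 16747152) (l 16646760))) (a (l 16775264) (l 16714032))) (a (l 2) (l 16716808))) (a (b (b (a (l 16104360) (l 15577104)) (l 15664352)) (a (l 16107616) (l 15578984))) (b (a (b (c (l 15025416) (l 15027688)) (l 15003728)) (b (c (l 14428352) (a (l 14584576) (l 14278104))) (l 14391872))) (a (l 15010256) (b (l 14411208) (l 14406192))))))), by decide +kernel⟩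

theorem c_pp_012_b : CertFX 0 536870912 1239849684 370763052 1046898278 26843546 false true true .pnp 0 1 2
    ndF7q0 ndF2q2b pcF1 Cut.none Ext.none :=
  certFX2 (fam := false) (s1 := true) (s2 := true) (a := 0) (b := 1) (c := 2) (cn := .pnp) (n1 := ndF7q0) (n2 := ndF2q2b) (pc := pcF1) (cut := Cut.none) (xt := Ext.none) (P1 := 0) (W1 := 536870912) (P2 := 1239849684) (W2 := 370763052) (P3 := 1046898278) (W3 := 26843546)
    rfl (fun _ => rfl) k0_pp_012_b

noncomputable def f_pp_022_a : ℕ → ℕ → ℕ → ℕ → Bool := onCell 1073741824 536870912 0 420477299 1046898278 26843546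
    (rowFX 2 false true true .pp 0 2 2 (qsf 0 536870912 0 420477299 2) ndF7q0 ndF2q2a pcF2 Cut.none Ext.none)

def k0_pp_022_a : ∃ t, chk3 f_pp_022_a t 1 1 1 = true :=
  ⟨(a (a (b (a (c (b (l 14188984) (a (l 14389856) (l 14564216))) (b (a (l 14242752) (l 14453096)) (a (l 14357688) (l 14545840)))) (a (c (b (l 14704816) (l 14772160)) (b (l 14673656) (l 14740072))) (b (l 14924712) (l 14852232)))) (a (b (c (a (l 14366696) (l 14520656)) (a (c (l 14333240) (l 14319760)) (l 14495560))) (c (a (l 14284520) (b (l 14418312) (l 14384440))) (b (a (l 14236144) (l 14386504)) (a (c (l 14216456) (l 14197728)) (l 14349184))))) (b (a (c (l 14700376) (l 14663696)) (c (l 14831840) (l 14781320))) (a (c (b (l 14577136) (l 14529448)) (b (l 14535304) (l 14485200))) (b (c (l 14666304) (l 14611648)) (l 1)))))) (a (b (a (a (b (l 15170824) (l 15132752)) (b (l 15353680) (l 15309808))) (b (l 1) (l 1))) (b (a (a (l 14953344) (l 1)) (l 1)) (l 1))) (l 1))) (l 1)), by decide +kernel⟩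

theorem c_pp_022_a : CertFX 0 536870912 0 420477299 1046898278 26843546 false true true .pp 0 2 2
    ndF7q0 ndF2q2a pcF2 Cut.none Ext.none :=
  certFX2 (fam := false) (s1 := true) (s2 := true) (a := 0) (b := 2) (c := 2) (cn := .pp) (n1 := ndF7q0) (n2 := ndF2q2a) (pc := pcF2) (cut := Cut.none) (xt := Ext.none) (P1 := 0) (W1 := 536870912) (P2 := 0) (W2 := 420477299) (P3 := 1046898278) (W3 := 26843546)
    rfl (fun _ => rfl) k0_pp_022_a

noncomputable def f_pp_022_b : ℕ → ℕ → ℕ → ℕ → Bool := onCell 1073741824 536870912 1239849684 370763052 1046898278 26843546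
    (rowFX 2 false true true .pp 0 2 2 (qsf 0 536870912 1239849684 370763052 2) ndF7q0 ndF2q2b pcF2 Cut.none Ext.none)

def k0_pp_022_b : ∃ t, chk3 f_pp_022_b t 1 1 1 = true :=
  ⟨(a (a (a (b (c (b (a (l 14139696) (l 14342984)) (l 14218632)) (b (a (l 14107392) (l 14326968)) (l 14203240))) (c (l 14206216) (l 14190968))) (b (a (c (b (l 14592328) (l 14558296)) (b (l 14559616) (l 14524872))) (b (c (l 14867872) (l 14818312)) (l 14815720))) (a (c (l 14542032) (l 14508552)) (l 14813896)))) (a (b (l 4) (l 4)) (l 4))) (l 4)), by decide +kernel⟩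

theorem c_pp_022_b : CertFX 0 536870912 1239849684 370763052 1046898278 26843546 false true true .pp 0 2 2
    ndF7q0 ndF2q2b pcF2 Cut.none Ext.none :=
  certFX2 (fam := false) (s1 := true) (s2 := true) (a := 0) (b := 2) (c := 2) (cn := .pp) (n1 := ndF7q0) (n2 := ndF2q2b) (pc := pcF2) (cut := Cut.none) (xt := Ext.none) (P1 := 0) (W1 := 536870912) (P2 := 1239849684) (W2 := 370763052) (P3 := 1046898278) (W3 := 26843546)
    rfl (fun _ => rfl) k0_pp_022_b

noncomputable def f_pp_023 : ℕ → ℕ → ℕ → ℕ → Bool := onCell 1073741824 536870912 1610612736 469762048 1046898278 26843546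
    (rowFX 2 false true true .up 0 2 3 (qsf 0 536870912 1610612736 469762048 2) ndF7q0 ndF2q3 pcF2 Cut.none Ext.none)

def k0_pp_023 : ∃ t, chk3 f_pp_023 t 1 1 1 = true :=
  ⟨(a (a (b (a (b (l 14184192) (l 2)) (a (b (l 14506656) (l 2)) (l 14812312))) (l 2)) (b (l 4) (l 4))) (l 4)), by decide +kernel⟩

theorem c_pp_023 : CertFX 0 536870912 1610612736 469762048 1046898278 26843546 false true true .up 0 2 3
    ndF7q0 ndF2q3 pcF2 Cut.none Ext.none :=
  certFX2 (fam := false) (s1 := true) (s2 := true) (a := 0) (b := 2) (c := 3) (cn := .up) (n1 := ndF7q0) (n2 := ndF2q3) (pc := pcF2) (cut := Cut.none) (xt := Ext.none) (P1 := 0) (W1 := 536870912) (P2 := 1610612736) (W2 := 469762048) (P3 := 1046898278) (W3 := 26843546)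
    rfl (fun _ => rfl) k0_pp_023

noncomputable def f_pp_033 : ℕ → ℕ → ℕ → ℕ → Bool := onCell 1610612736 536870912 1610612736 469762048 1046898278 26843546
    (rowFX 2 false true true .pnn 0 3 3 (qsf 0 536870912 1610612736 469762048 3) ndF7q0 ndF2q3 pcF3 Cut.none Ext.none)

def k0_pp_033 : ∃ t, chk3 f_pp_033 t 1 1 1 = true :=
  ⟨(l 4), by decide +kernel⟩

theorem c_pp_033 : CertFX 0 536870912 1610612736 469762048 1046898278 26843546 false true true .pnn 0 3 3
    ndF7q0 ndF2q3 pcF3 Cut.none Ext.none :=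
  certFX2 (fam := false) (s1 := true) (s2 := true) (a := 0) (b := 3) (c := 3) (cn := .pnn) (n1 := ndF7q0) (n2 := ndF2q3) (pc := pcF3) (cut := Cut.none) (xt := Ext.none) (P1 := 0) (W1 := 536870912) (P2 := 1610612736) (W2 := 469762048) (P3 := 1046898278) (W3 := 26843546)
    rfl (fun _ => rfl) k0_pp_033

noncomputable def f_pp_101 : ℕ → ℕ → ℕ → ℕ → Bool := onCell 536870912 536870912 536870912 536870912 1046898278 26843546
    (rowFX 0 false true true .npn 1 0 1 (qsf 536870912 536870912 536870912 536870912 0) ndF7q1 ndF2q1 pcF0 Cut.none Ext.none)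

def k0_pp_101 : ∃ t, chk3 f_pp_101 t 1 1 1 = true :=
  ⟨(l 3), by decide +kernel⟩

theorem c_pp_101 : CertFX 536870912 536870912 536870912 536870912 1046898278 26843546 false true true .npn 1 0 1
    ndF7q1 ndF2q1 pcF0 Cut.none Ext.none :=
  certFX0 (fam := false) (s1 := true) (s2 := true) (a := 1) (b := 0) (c := 1) (cn := .npn) (n1 := ndF7q1) (n2 := ndF2q1) (pc := pcF0) (cut := Cut.none) (xt := Ext.none) (P1 := 536870912) (W1 := 536870912) (P2 := 536870912) (W2 := 536870912) (P3 := 1046898278) (W3 := 26843546)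
    rfl k0_pp_101

noncomputable def f_pp_102_a : ℕ → ℕ → ℕ → ℕ → Bool := onCell 536870912 536870912 0 420477299 1046898278 26843546
    (rowFX 0 false true true .npp 1 0 2 (qsf 536870912 536870912 0 420477299 0) ndF7q1 ndF2q2a pcF0 Cut.none Ext.none)

def k0_pp_102_a : ∃ t, chk3 f_pp_102_a t 2 1 1 = true :=
  ⟨(b (a (l 2) (a (l 16636256) (l 16234240))) (a (b (l 16609208) (c (l 16215584) (l 16309664))) (b (a (l 16679088) (l 16308184)) (a (b (l 16486616) (l 16386224)) (b (l 16390736) (l 16437784)))))), by decide +kernel⟩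

def k1_pp_102_a : ∃ t, chk3 f_pp_102_a t 3 2 1 = true :=
  ⟨(a (a (b (l 15746248) (l 15770208)) (b (l 15165680) (l 15197096))) (a (b (a (l 14651872) (b (c (l 14375416) (l 14340872)) (l 14126320))) (a (l 14688880) (c (b (l 14406336) (l 14488376)) (b (l 14372744) (l 14457288))))) (b (c (a (l 14193304) (b (l 14106888) (l 14129320))) (a (l 14179816) (a (l 14118952) (l 14070648)))) (a (c (b (l 14263376) (l 14382384)) (l 14315552)) (c (l 14270856) (b (l 14181368) (l 14316152))))))), by decide +kernel⟩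

def k2_pp_102_a : ∃ t, chk3 f_pp_102_a t 3 3 1 = true :=
  ⟨(a (b (a (l 15865976) (l 15320352)) (a (b (l 15978368) (l 16039488)) (b (a (l 15613008) (b (l 15289128) (l 15335240))) (a (l 15684552) (b (a (l 15445704) (l 15347904)) (a (l 15523664) (l 15474808))))))) (b (a (a (b (l 14785880) (c (l 14940144) (l 14896832))) (c (b (l 14627728) (l 14842808)) (l 14629480))) (a (a (c (l 14663672) (l 14693008)) (c (l 14550064) (l 14666024))) (c (b (l 14520112) (l 14764648)) (b (a (l 14522032) (l 14488584)) (a (l 14771200) (l 14741944)))))) (a (b (a (a (b (l 15081800) (l 15181448)) (l 15112320)) (c (b (l 15043400) (l 15164712)) (l 15090168))) (a (c (l 15380120) (l 15349216)) (c (a (b (l 15302144) (l 15445552)) (b (l 15291248) (l 15430368))) (l 15356912)))) (c (a (b (a (b (l 15012792) (l 15134960)) (l 15047352)) (a (c (l 15308056) (l 15347640)) (c (l 15121000) (l 15311088)))) (b (b (l 14982608) (a (l 15093744) (l 15135464))) (a (b (c (l 15236216) (l 15227176)) (c (l 15410304) (l 15403520)))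 (b (l 15306016) (a (l 15478824) (l 15532200)))))) (a (b (a (l 15091600) (l 15069392)) (a (l 15356976) (b (l 15263288) (l 15411360)))) (b (a (c (l 15037336) (l 15044376)) (b (l 14969528) (c (l 15108984) (l 14943056)))) (a (b (c (l 15242800) (l 15252440)) (c (l 15421368) (l 15433248))) (b (c (l 15282896) (l 15286944)) (c (l 15488448) (a (l 15477456) (l 15487192))))))))))), by decide +kernel⟩

theorem s3_pp_102_a : ∃ t, chk3 f_pp_102_a t 3 1 1 = true := ex3_b k1_pp_102_a k2_pp_102_a

theorem s4_pp_102_a : ∃ t, chk3 f_pp_102_a t 1 1 1 = true := ex3_a k0_pp_102_a s3_pp_102_a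

theorem c_pp_102_a : CertFX 536870912 536870912 0 420477299 1046898278 26843546 false true true .npp 1 0 2
    ndF7q1 ndF2q2a pcF0 Cut.none Ext.none :=
  certFX0 (fam := false) (s1 := true) (s2 := true) (a := 1) (b := 0) (c := 2) (cn := .npp) (n1 := ndF7q1) (n2 := ndF2q2a) (pc := pcF0) (cut := Cut.none) (xt := Ext.none) (P1 := 536870912) (W1 := 536870912) (P2 := 0) (W2 := 420477299) (P3 := 1046898278) (W3 := 26843546)
    rfl s4_pp_102_a

noncomputable def f_pp_102_b : ℕ → ℕ → ℕ → ℕ → Bool := onCell 536870912 536870912 1239849684 370763052 1046898278 26843546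
    (rowFX 0 false true true .npp 1 0 2 (qsf 536870912 536870912 1239849684 370763052 0) ndF7q1 ndF2q2b pcF0 Cut.none Ext.none)

def k0_pp_102_b : ∃ t, chk3 f_pp_102_b t 1 1 1 = true :=
  ⟨(a (a (l 2) (b (a (l 16643344) (l 16098744)) (l 2))) (a (b (a (b (l 15771296) (l 15782128)) (b (c (l 15218312) (l 15177664)) (l 15212584))) (a (l 2) (l 15212584))) (b (b (a (a (l 14584768) (b (c (l 14395560) (l 14361480)) (l 14409880))) (b (a (b (c (a (b (l 14184696) (l 14161568)) (l 14093584)) (a (l 14171432) (l 14088296))) (c (l 14105712) (l 14090864))) (c (b (l 14043296) (b (l 13961440) (l 13911792))) (a (b (l 14045496) (b (l 13955840) (l 13906192))) (l 13873112)))) (a (c (l 14119960) (l 14105584)) (c (l 13723000) (b (a (l 13887480) (l 13776232)) (l 13819712)))))) (a (c (l 14595736) (l 14539088)) (c (l 13956960) (a (l 14110352) (l 13819696))))) (a (c (l 14595736) (l 14539088)) (c (b (l 13998896) (l 13998896)) (a (l 14110352) (l 13819696))))))), by decide +kernel⟩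

theorem c_pp_102_b : CertFX 536870912 536870912 1239849684 370763052 1046898278 26843546 false true true .npp 1 0 2
    ndF7q1 ndF2q2b pcF0 Cut.none Ext.none :=
  certFX0 (fam := false) (s1 := true) (s2 := true) (a := 1) (b := 0) (c := 2) (cn := .npp) (n1 := ndF7q1) (n2 := ndF2q2b) (pc := pcF0) (cut := Cut.none) (xt := Ext.none) (P1 := 536870912) (W1 := 536870912) (P2 := 1239849684) (W2 := 370763052) (P3 := 1046898278) (W3 := 26843546)
    rfl k0_pp_102_b

noncomputable def f_pp_112_a : ℕ → ℕ → ℕ → ℕ → Bool := onCell 536870912 536870912 0 420477299 1046898278 26843546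
    (rowFX 0 false true true .dn 1 1 2 (qsf 536870912 536870912 0 420477299 1) ndF7q1 ndF2q2a pcF1 Cut.none Ext.none)

def k0_pp_112_a : ∃ t, chk3 f_pp_112_a t 1 1 1 = true :=
  ⟨(a (b (a (b (l 16702392) (l 16752704)) (a (l 16636256) (l 1))) (a (b (l 16609208) (a (l 16356992) (l 16252136))) (b (l 428455486247) (l 1)))) (l 1)), by decide +kernel⟩

theorem c_pp_112_a : CertFX 536870912 536870912 0 420477299 1046898278 26843546 false true true .dn 1 1 2
    ndF7q1 ndF2q2a pcF1 Cut.none Ext.none :=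
  certFX0 (fam := false) (s1 := true) (s2 := true) (a := 1) (b := 1) (c := 2) (cn := .dn) (n1 := ndF7q1) (n2 := ndF2q2a) (pc := pcF1) (cut := Cut.none) (xt := Ext.none) (P1 := 536870912) (W1 := 536870912) (P2 := 0) (W2 := 420477299) (P3 := 1046898278) (W3 := 26843546)
    rfl k0_pp_112_a

noncomputable def f_pp_112_b : ℕ → ℕ → ℕ → ℕ → Bool := onCell 536870912 536870912 1239849684 370763052 1046898278 26843546
    (rowFX 0 false true true .dn 1 1 2 (qsf 536870912 536870912 1239849684 370763052 1) ndF7q1 ndF2q2b pcF1 Cut.none Ext.none)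

def k0_pp_112_b : ∃ t, chk3 f_pp_112_b t 1 1 1 = true :=
  ⟨(a (b (a (b (l 16753056) (l 16776064)) (a (l 16643344) (l 16098744))) (a (b (a (b (l 16758024) (l 16493256)) (l 16772200)) (a (b (l 15906864) (a (l 14863600) (l 15401104))) (b (l 16649504) (l 16187536)))) (a (b (l 16644376) (l 16624848)) (l 16248848)))) (a (b (b (l 1) (l 462276361143)) (a (l 15782128) (l 15212584))) (b (l 1) (a (c (l 14595736) (l 14539088)) (c (l 424692385879) (l 488043126359)))))), by decide +kernel⟩

theorem c_pp_112_b : CertFX 536870912 536870912 1239849684 370763052 1046898278 26843546 false true true .dn 1 1 2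
    ndF7q1 ndF2q2b pcF1 Cut.none Ext.none :=
  certFX0 (fam := false) (s1 := true) (s2 := true) (a := 1) (b := 1) (c := 2) (cn := .dn) (n1 := ndF7q1) (n2 := ndF2q2b) (pc := pcF1) (cut := Cut.none) (xt := Ext.none) (P1 := 536870912) (W1 := 536870912) (P2 := 1239849684) (W2 := 370763052) (P3 := 1046898278) (W3 := 26843546)
    rfl k0_pp_112_b

noncomputable def f_pp_113 : ℕ → ℕ → ℕ → ℕ → Bool := onCell 536870912 536870912 536870912 536870912 1046898278 26843546
    (rowFX 1 false true true .nn 1 1 3 (qsf 536870912 536870912 1610612736 469762048 1) ndF7q1 ndF2q3 pcF1 Cut.none Ext.none)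

def k0_pp_113 : ∃ t, chk3 f_pp_113 t 1 1 1 = true :=
  ⟨(b (a (a (l 1) (l 512744124135)) (a (b (l 15441696) (l 15504608)) (a (b (l 14550992) (l 14550992)) (b (c (l 13998896) (l 13985328)) (l 14000792))))) (a (b (a (l 623877962039) (l 371010133799)) (a (b (l 15865728) (b (l 15007056) (l 14391224))) (b (l 15558496) (b (l 14686960) (l 14052712))))) (b (a (b (l 15506576) (l 15451824)) (b (l 14326776) (a (l 14500304) (l 13950816)))) (a (b (l 14654864) (b (l 13793336) (l 13150424))) (b (a (l 13756936) (l 13253136)) (b (a (l 12994256) (l 12721864)) (a (l 12456368) (b (l 12629592) (c (l 13781464) (l 11976832)))))))))), by decide +kernel⟩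

theorem c_pp_113 : CertFX 536870912 536870912 1610612736 469762048 1046898278 26843546 false true true .nn 1 1 3
    ndF7q1 ndF2q3 pcF1 Cut.none Ext.none :=
  certFX1 (fam := false) (s1 := true) (s2 := true) (a := 1) (b := 1) (c := 3) (cn := .nn) (n1 := ndF7q1) (n2 := ndF2q3) (pc := pcF1) (cut := Cut.none) (xt := Ext.none) (P1 := 536870912) (W1 := 536870912) (P2 := 1610612736) (W2 := 469762048) (P3 := 1046898278) (W3 := 26843546)
    rfl (fun _ => rfl) k0_pp_113

noncomputable def f_pp_123 : ℕ → ℕ → ℕ → ℕ → Bool := onCell 1073741824 536870912 1610612736 469762048 1046898278 26843546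
    (rowFX 2 false true true .npn 1 2 3 (qsf 536870912 536870912 1610612736 469762048 2) ndF7q1 ndF2q3 pcF2 Cut.none Ext.none)

def k0_pp_123 : ∃ t, chk3 f_pp_123 t 1 1 1 = true :=
  ⟨(a (a (b (a (b (l 14184192) (a (l 13927176) (l 14220072))) (a (b (l 14506656) (l 14490248)) (l 14812312))) (a (b (l 13651968) (b (l 13132264) (a (l 12907384) (l 13856960)))) (b (a (l 14327744) (l 4)) (l 4)))) (b (l 4) (l 4))) (l 4)), by decide +kernel⟩

theorem c_pp_123 : CertFX 536870912 536870912 1610612736 469762048 1046898278 26843546 false true true .npn 1 2 3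
    ndF7q1 ndF2q3 pcF2 Cut.none Ext.none :=
  certFX2 (fam := false) (s1 := true) (s2 := true) (a := 1) (b := 2) (c := 3) (cn := .npn) (n1 := ndF7q1) (n2 := ndF2q3) (pc := pcF2) (cut := Cut.none) (xt := Ext.none) (P1 := 536870912) (W1 := 536870912) (P2 := 1610612736) (W2 := 469762048) (P3 := 1046898278) (W3 := 26843546)
    rfl (fun _ => rfl) k0_pp_123

noncomputable def f_pp_133 : ℕ → ℕ → ℕ → ℕ → Bool := onCell 536870912 536870912 1610612736 469762048 1046898278 26843546
    (rowFX 0 false true true .dn 1 3 3 (qsf 536870912 536870912 1610612736 469762048 3) ndF7q1 ndF2q3 pcF3 Cut.none Ext.none)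

def k0_pp_133 : ∃ t, chk3 f_pp_133 t 1 1 1 = true :=
  ⟨(l 1), by decide +kernel⟩

theorem c_pp_133 : CertFX 536870912 536870912 1610612736 469762048 1046898278 26843546 false true true .dn 1 3 3
    ndF7q1 ndF2q3 pcF3 Cut.none Ext.none :=
  certFX0 (fam := false) (s1 := true) (s2 := true) (a := 1) (b := 3) (c := 3) (cn := .dn) (n1 := ndF7q1) (n2 := ndF2q3) (pc := pcF3) (cut := Cut.none) (xt := Ext.none) (P1 := 536870912) (W1 := 536870912) (P2 := 1610612736) (W2 := 469762048) (P3 := 1046898278) (W3 := 26843546)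
    rfl k0_pp_133

noncomputable def f_pp_202_a : ℕ → ℕ → ℕ → ℕ → Bool := onCell 0 536870912 0 420477299 1046898278 26843546
    (rowFX 2 false true true .pp 2 0 2 (qsf 1073741824 536870912 0 420477299 0) ndF7q2 ndF2q2a pcF0 Cut.none Ext.none)

def k0_pp_202_a : ∃ t, chk3 f_pp_202_a t 8 2 1 = true :=
  ⟨(a (a (c (b (a (b (c (l 16436712) (l 16298584)) (l 16374168)) (c (a (b (l 16325000) (l 16330320)) (l 16283888)) (a (c (l 16328496) (l 16342360)) (l 16311152)))) (a (b (l 16405240) (l 16365592)) (c (b (l 16237424) (l 16278272)) (a (l 16361240) (l 16252192))))) (a (b (c (a (l 16446520) (c (b (l 16386144) (l 16392104)) (b (l 16392184) (l 16398488)))) (a (a (c (l 16455504) (a (l 16353960) (l 16380448))) (c (l 16342424) (l 16426416))) (c (l 16391000) (l 16380744)))) (c (a (l 16475472) (b (l 16405664) (l 16428040))) (a (c (b (l 16460088) (l 16483808)) (b (l 16310248) (l 16333936))) (c (l 16418736) (l 16407800))))) (b (c (a (b (l 16349496) (l 16356288)) (l 16294568)) (l 16274280)) (c (b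 (l 16334208) (l 16355360)) (l 16277464))))) (c (b (a (c (a (l 16268112) (l 16218336)) (a (l 16206512) (l 16205952))) (c (l 16151104) (l 16096952))) (a (c (b (l 16263688) (b (l 16278688) (c (l 16291144) (l 16233008)))) (b (l 16248584) (l 16268248))) (b (l 16135280) (l 16026872)))) (b (c (l 16021920) (l 16108776)) (b (l 16087088) (l 16021184))))) (c (a (b (c (l 15929008) (l 15881064)) (b (c (l 15946896) (l 15890744)) (c (l 15962184) (l 15905640)))) (b (c (a (l 15709296) (l 15592696)) (l 15622592)) (c (b (a (l 15735592) (l 15584664)) (a (l 15736872) (l 15598864))) (l 15657480)))) (b (a (l 15852656) (l 15603120)) (a (b (l 15861704) (l 15906352)) (l 15641200))))), by decide +kernel⟩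

def k1_pp_202_a : ∃ t, chk3 f_pp_202_a t 9 2 1 = true :=
  ⟨(a (c (a (b (c (l 15389664) (l 15395624)) (b (c (l 15372456) (l 15400568)) (c (l 15389880) (l 15410912)))) (b (b (l 15115128) (l 15115304)) (b (l 15099232) (l 14918456)))) (b (l 15241344) (b (l 15243416) (a (l 15407608) (l 15121848))))) (c (b (a (c (l 14819088) (l 14851712)) (l 14587456)) (c (a (b (l 14808448) (l 14812840)) (l 14593584)) (a (b (l 14828744) (l 14827104)) (l 14586368)))) (b (a (l 14841232) (l 14604888)) (a (a (l 14649648) (l 14707896)) (b (l 14601296) (l 14608296)))))), by decide +kernel⟩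

def k2_pp_202_a : ∃ t, chk3 f_pp_202_a t 5 2 1 = true :=
  ⟨(a (a (c (b (b (l 14276720) (l 14261584)) (l 14281616)) (b (c (l 14253224) (a (l 14367176) (l 14110640))) (b (a (l 14348864) (l 14115176)) (l 14254544)))) (b (l 1) (l 1))) (l 1)), by decide +kernel⟩

def k3_pp_202_a : ∃ t, chk3 f_pp_202_a t 32 3 2 = true :=
  ⟨(b (a (a (b (l 16472288) (c (l 16510904) (b (l 16526152) (l 16470112)))) (b (c (l 16467048) (l 16449312)) (c (l 16509024) (c (l 16499440) (b (l 16472832) (a (l 16525912) (l 16494312))))))) (c (b (a (c (l 16385104) (b (l 16373704) (l 16391376))) (c (l 16293536) (l 16354184))) (a (c (l 16457160) (b (l 16414936) (l 16469936))) (c (l 16393968) (l 16418624)))) (a (b (l 16398632) (c (b (a (l 16425424) (l 16414728)) (l 16467080)) (b (l 16438016) (l 16482360)))) (b (c (l 16353000) (l 16381200)) (c (l 16430776) (b (l 16421240) (l 16463816))))))) (b (a (c (b (l 16540880) (l 16479216)) (a (b (l 16514800) (l 16543776)) (c (l 16573032) (b (a (l 16572840) (l 16541720)) (l 16574168)))))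 (b (c (a (l 16482936) (l 16476968)) (a (c (l 16523816) (l 16528464)) (l 16499600))) (c (a (l 16439944) (l 16479288)) (a (l 16501104) (l 16506016))))) (a (c (b (l 16485304) (c (l 16555208) (l 16544152))) (c (b (l 16604664) (l 16527080)) (a (l 16598664) (b (l 16589000) (l 16600728))))) (c (b (a (c (l 16501304) (l 16531064)) (c (l 16452752) (l 16478416))) (a (c (l 16488144) (l 16493704)) (l 16407688))) (a (c (b (l 16551248) (l 16497640)) (b (l 16552176) (l 16550576))) (c (b (l 16496440) (l 16454568)) (b (l 16502368) (l 16426976)))))))), by decide +kernel⟩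

def k4_pp_202_a : ∃ t, chk3 f_pp_202_a t 33 3 2 = true :=
  ⟨(b (c (a (b (a (c (l 16318896) (l 16337856)) (l 16168232)) (c (l 16296936) (l 16333736))) (b (l 16205176) (l 16238200))) (a (b (l 16175136) (c (l 16305712) (l 16353376))) (b (l 16163720) (l 16221432)))) (b (c (a (b (a (l 16436024) (l 16377376)) (a (l 16402296) (l 16354224))) (b (l 16182408) (l 16224408))) (a (b (l 16373552) (a (l 16447440) (l 16377192))) (b (l 16282432) (l 16223296)))) (a (c (b (l 16202720) (a (l 16376848) (l 16308272))) (b (a (l 16342424) (l 16353736)) (a (l 16258816) (l 16333896)))) (c (b (l 16220848) (l 16212208)) (b (l 16227256) (l 16183576)))))), by decide +kernel⟩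

def k5_pp_202_a : ∃ t, chk3 f_pp_202_a t 16 6 3 = true :=
  ⟨(a (a (c (a (b (l 16517840) (l 16545512)) (b (l 16350696) (c (l 16496504) (l 16504856)))) (a (c (b (l 16513032) (l 16488888)) (a (b (l 16524680) (l 16541528)) (l 16516544))) (b (l 16456144) (l 16482024)))) (c (b (l 16360664) (a (a (l 16480056) (l 16463112)) (l 16420944))) (b (l 16356112) (l 16414232)))) (b (c (l 16009232) (l 16172824)) (c (a (l 16240128) (l 16194448)) (l 16225584)))), by decide +kernel⟩

def k6_pp_202_a : ∃ t, chk3 f_pp_202_a t 16 7 3 = true :=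
  ⟨(a (a (c (b (a (b (l 16532800) (c (l 16549848) (l 16561096))) (c (a (b (c (l 16566624) (l 16565304)) (c (l 16578480) (l 16578720))) (b (c (l 16547264) (l 16557112)) (l 16565544))) (b (l 16569736) (c (a (l 16582952) (l 16580144)) (l 16583512))))) (a (a (b (l 16563608) (l 16544912)) (a (b (l 16592712) (l 16539280)) (c (l 16616616) (c (l 16609440) (b (l 16604496) (l 16611000)))))) (c (a (b (l 16590144) (l 16605120)) (l 16580984)) (a (c (b (l 16589296) (l 16601272)) (b (l 16598704) (l 16603416))) (c (l 16584552) (b (l 16589512) (l 16589816))))))) (b (a (c (a (l 16539128) (l 16566696)) (a (b (l 16530080) (l 16553600)) (l 16565464))) (c (l 16576368) (l 16563944))) (a (c (b (l 16553120) (c (a (l 16612096) (a (c (l 16624456) (l 16623096)) (c (l 16613864) (l 16619392)))) (l 16570176))) (a (b (l 16565536) (c (l 16623320) (l 16625344))) (l 16621544))) (c (a (c (b (l 16608904) (c (l 16610768) (l 16613600))) (l 16607024)) (l 16579432)) (l 16579096))))) (a (b (c (c (b (c (l 16542552) (l 16547824))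 (l 16510480)) (l 16500680)) (l 16497672)) (c (c (b (l 16551584) (l 16552184)) (b (l 16545776) (l 16543272))) (c (b (l 16528704) (l 16505080)) (l 16520960)))) (b (c (l 16411456) (l 16396408)) (c (b (l 16463792) (l 16442944)) (b (l 16463384) (l 16382336)))))) (b (c (a (a (l 16329976) (b (l 16346272) (l 16355800))) (c (l 16138224) (l 16260040))) (b (l 16195200) (l 16192704))) (c (a (c (b (l 16395032) (l 16275752)) (b (l 16360856) (l 16289376))) (b (l 16259760) (c (l 16242192) (l 16249880)))) (a (b (l 16376664) (l 16347848)) (l 16249992))))), by decide +kernel⟩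

def k7_pp_202_a : ∃ t, chk3 f_pp_202_a t 17 3 1 = true :=
  ⟨(b (c (a (b (c (l 15917232) (l 15897224)) (c (a (l 16036920) (l 15943984)) (a (l 15914848) (l 15723104)))) (c (b (a (l 15764032) (l 15618936)) (a (l 15792152) (l 15647600))) (b (l 15536712) (a (l 15810576) (l 15685816))))) (a (b (l 15905304) (c (l 15855096) (l 16020632))) (b (l 15702912) (l 15549976)))) (c (b (a (c (a (b (l 16118152) (l 16098712)) (l 15964104)) (b (a (l 16114256) (l 15997904)) (a (l 16123360) (l 15980664)))) (c (b (l 15758856) (l 15756560)) (b (l 15784848) (l 15770312)))) (a (c (b (l 16020976) (a (l 16086472) (l 15961264))) (c (b (l 16024824) (a (l 16075824) (l 15940376))) (b (l 15952256) (a (l 16079328) (l 15940968))))) (c (a (b (l 15821128) (l 15839040)) (c (a (l 15744200) (l 15682264)) (l 15702328))) (b (l 15758784) (l 15761752))))) (c (b (a (b (l 16068272) (l 16065144)) (b (l 15810480) (l 15800656))) (a (b (l 15889112) (a (l 15916488) (l 15842912))) (b (a (l 15846624) (l 15707200)) (l 15621304))))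 (b (a (l 15956712) (l 15810184)) (a (b (l 16060896) (l 15944952)) (b (l 15797832) (a (l 15849832) (l 15605928)))))))), by decide +kernel⟩

def k8_pp_202_a : ∃ t, chk3 f_pp_202_a t 9 3 1 = true :=
  ⟨(a (b (c (a (b (c (l 15389808) (l 15427648)) (c (l 15442080) (l 15472344))) (b (l 15140264) (l 15181552))) (a (b (l 15437352) (l 15335584)) (b (l 15148728) (c (l 15189640) (l 15195608))))) (c (a (b (b (l 15501432) (l 15502104)) (a (l 15579760) (l 15450752))) (b (l 15236224) (l 15251384))) (b (a (c (b (l 15526720) (l 15508360)) (b (l 15528208) (l 15526728))) (c (l 15223760) (b (l 15229368) (l 15216528)))) (a (c (a (l 15570560) (l 15429200)) (b (a (l 15579480) (l 15425320)) (a (l 15568832) (l 15424040)))) (b (l 15218160) (l 1)))))) (b (c (b (l 14758392) (l 14816024)) (b (a (c (l 14861328) (l 14864896)) (l 14626048)) (a (c (l 14898504) (l 14900160)) (l 14673312)))) (a (b (c (l 445095509847) (b (l 14946416) (l 14942976))) (l 1)) (l 1)))), by decide +kernel⟩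

def k9_pp_202_a : ∃ t, chk3 f_pp_202_a t 5 3 1 = true :=
  ⟨(a (b (a (c (l 14368432) (b (l 14285264) (l 1))) (l 1)) (l 1)) (l 1)), by decide +kernel⟩

def k10_pp_202_a : ∃ t, chk3 f_pp_202_a t 3 1 1 = true :=
  ⟨(l 1), by decide +kernel⟩

theorem s11_pp_202_a : ∃ t, chk3 f_pp_202_a t 16 3 3 = true := ex3_b k5_pp_202_a k6_pp_202_a

theorem s12_pp_202_a : ∃ t, chk3 f_pp_202_a t 16 3 2 = true := ex3_a k3_pp_202_a k4_pp_202_a

theorem s13_pp_202_a : ∃ t, chk3 f_pp_202_a t 16 3 1 = true := ex3_c s12_pp_202_a s11_pp_202_a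

theorem s14_pp_202_a : ∃ t, chk3 f_pp_202_a t 8 3 1 = true := ex3_a s13_pp_202_a k7_pp_202_a

theorem s15_pp_202_a : ∃ t, chk3 f_pp_202_a t 4 3 1 = true := ex3_a s14_pp_202_a k8_pp_202_a

theorem s16_pp_202_a : ∃ t, chk3 f_pp_202_a t 2 3 1 = true := ex3_a s15_pp_202_a k9_pp_202_a

theorem s17_pp_202_a : ∃ t, chk3 f_pp_202_a t 4 2 1 = true := ex3_a k0_pp_202_a k1_pp_202_a

theorem s18_pp_202_a : ∃ t, chk3 f_pp_202_a t 2 2 1 = true := ex3_a s17_pp_202_a k2_pp_202_a

theorem s19_pp_202_a : ∃ t, chk3 f_pp_202_a t 2 1 1 = true := ex3_b s18_pp_202_a s16_pp_202_a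

theorem s20_pp_202_a : ∃ t, chk3 f_pp_202_a t 1 1 1 = true := ex3_a s19_pp_202_a k10_pp_202_a

theorem c_pp_202_a : CertFX 1073741824 536870912 0 420477299 1046898278 26843546 false true true .pp 2 0 2
    ndF7q2 ndF2q2a pcF0 Cut.none Ext.none :=
  certFX2 (fam := false) (s1 := true) (s2 := true) (a := 2) (b := 0) (c := 2) (cn := .pp) (n1 := ndF7q2) (n2 := ndF2q2a) (pc := pcF0) (cut := Cut.none) (xt := Ext.none) (P1 := 1073741824) (W1 := 536870912) (P2 := 0) (W2 := 420477299) (P3 := 1046898278) (W3 := 26843546)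
    rfl (fun _ => rfl) s20_pp_202_a

noncomputable def f_pp_202_b : ℕ → ℕ → ℕ → ℕ → Bool := onCell 1073741824 536870912 0 536870912 1046898278 26843546
    (rowFX 1 false true true .pp 2 0 2 (qsf 1073741824 536870912 1239849684 370763052 0) ndF7q2 ndF2q2b pcF0 Cut.none Ext.none)

def k0_pp_202_b : ∃ t, chk3 f_pp_202_b t 4 2 1 = true :=
  ⟨(b (a (b (l 1) (b (a (l 1) (b (l 1) (c (l 979282054215) (l 15016328)))) (c (a (l 731783781591) (b (a (l 14758896) (l 14864456)) (c (l 14704128) (l 14719944)))) (a (b (l 1) (l 442947026615)) (b (l 14806008) (l 14713848)))))) (b (a (b (l 1) (b (l 1) (b (l 1) (c (c (l 663066039527) (l 15495592)) (l 15475512))))) (b (a (l 1) (b (l 1) (b (l 1) (c (l 533681279943) (l 15973424))))) (b (c (c (l 15649632) (a (l 15608240) (l 15900784))) (a (l 15766848) (l 15873416))) (c (b (l 15546248) (l 15653136)) (l 15698760))))) (b (c (a (b (c (l 15291256) (l 15369336)) (l 15212208)) (b (l 15622056) (l 15536776))) (a (b (l 15346720) (l 15199984)) (l 15546888))) (c (a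 (b (c (l 15114824) (l 15122584)) (l 15040968)) (b (l 15428696) (l 15356976))) (b (a (l 15091168) (l 15402536)) (l 15138664)))))) (b (a (b (c (a (b (l 14384008) (l 14259104)) (c (l 14587568) (l 14606992))) (a (c (l 14238864) (l 14300576)) (l 14601784))) (c (a (l 14129280) (l 14443208)) (a (c (l 14109920) (l 14107192)) (l 14437472)))) (b (c (a (c (l 14932616) (l 14940000)) (l 15236544)) (a (l 14910464) (l 15200376))) (c (l 14801344) (l 14897664)))) (a (b (c (l 13983536) (a (l 13938832) (l 14260768))) (c (l 14031728) (a (l 13836240) (l 14157192)))) (b (c (l 14780944) (l 14724904)) (c (l 14691720) (l 14632528)))))), by decide +kernel⟩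

def k1_pp_202_b : ∃ t, chk3 f_pp_202_b t 10 8 1 = true :=
  ⟨(b (b (a (b (a (l 1) (c (b (l 16430272) (c (l 16390168) (l 16357408))) (b (c (l 16409416) (l 16403312)) (b (l 16336408) (c (l 16354592) (l 16377064)))))) (b (a (l 1) (c (c (l 16269904) (l 16366424)) (c (l 16357592) (l 16356944)))) (c (c (l 16101920) (c (l 16315000) (l 16112536))) (c (l 16174856) (l 16249952))))) (c (b (b (l 16270560) (a (l 16175872) (l 16151032))) (c (b (b (l 16357000) (l 16303936)) (l 16347128)) (b (l 16146672) (l 16197320)))) (b (c (b (l 16147904) (b (a (l 16429928) (l 16212512)) (c (l 16335000) (l 16313192)))) (b (c (b (l 16317456) (a (l 16422248) (l 16224392))) (b (a (a (l 16475744) (l 16364984)) (l 16115480)) (l 16259784))) (c (l 16217576) (l 16334600)))) (c (b (a (l 16410344) (l 16195512)) (l 16319024)) (l 16324808))))) (c (b (a (c (b (l 16302280) (l 16075136)) (b (a (l 16166800) (l 16376960)) (l 16275120))) (c (b (l 16301728) (l 16253504)) (l 16115896))) (c (a (l 16280016) (l 16292432)) (l 16199424)))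 (a (a (c (l 15997248) (l 16126712)) (l 16163312)) (c (l 16228512) (l 16391056))))) (c (b (c (l 16092536) (a (l 16129176) (l 16356608))) (c (a (l 15988272) (b (l 16406520) (l 16348032))) (a (l 16054048) (l 16364048)))) (b (a (l 16129160) (l 16360760)) (a (l 16044216) (l 16356000))))), by decide +kernel⟩

def k2_pp_202_b : ∃ t, chk3 f_pp_202_b t 11 8 1 = true :=
  ⟨(b (b (c (b (c (l 15780096) (a (l 15805496) (l 15627208))) (c (b (a (l 15943232) (l 15695920)) (l 15695840)) (b (a (l 15955672) (l 15661200)) (a (l 15947056) (l 15636056))))) (b (c (b (l 15542144) (a (c (l 15966504) (l 15910712)) (l 15380288))) (b (c (a (l 15816480) (l 15606112)) (b (a (l 15792768) (l 15599400)) (l 15666800))) (c (l 15632656) (l 15788512)))) (c (a (l 15707024) (l 15640616)) (l 15648824)))) (a (b (c (c (l 15886760) (l 15936776)) (l 15906928)) (c (l 15842736) (l 16062704))) (c (c (b (b (l 15654856) (l 15630528)) (l 15672992)) (l 15606400)) (l 15646168)))) (c (b (b (a (l 15896144) (l 15749792)) (c (l 15864088)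 (l 15826688))) (a (c (b (l 16201288) (l 16284040)) (l 16247080)) (c (l 15747088) (l 15944264)))) (b (a (l 16138816) (l 15814016)) (a (l 16229992) (l 15946736))))), by decide +kernel⟩

def k3_pp_202_b : ∃ t, chk3 f_pp_202_b t 5 9 1 = true :=
  ⟨(b (c (a (a (c (l 15688400) (l 15850168)) (b (l 16011920) (l 16162208))) (b (b (a (l 16330576) (l 16089120)) (l 16139608)) (l 16189808))) (a (a (b (l 15950208) (l 15854440)) (b (l 16264416) (l 16156088))) (b (a (l 16337288) (l 16104384)) (l 16206416)))) (a (b (c (a (l 15764720) (l 16059016)) (a (l 15745936) (l 16048112))) (c (l 15840616) (l 15821504))) (b (c (l 16410848) (l 16409424)) (l 16201872)))), by decide +kernel⟩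

def k4_pp_202_b : ∃ t, chk3 f_pp_202_b t 5 5 1 = true :=
  ⟨(b (a (b (l 15477424) (l 15542320)) (b (a (l 16141240) (l 16371240)) (l 16054016))) (b (a (l 15397264) (l 16021448)) (a (l 15364176) (l 15964240)))), by decide +kernel⟩

def k5_pp_202_b : ∃ t, chk3 f_pp_202_b t 2 3 1 = true :=
  ⟨(a (a (b (c (a (l 13869312) (l 14172216)) (a (b (l 13836088) (l 13836088)) (l 14157040))) (c (l 14031584) (l 13955448))) (b (c (a (l 14506136) (l 14837472)) (l 14632392)) (c (l 14691592) (l 14632392)))) (b (a (b (l 15364072) (l 15364072)) (l 15964160)) (a (l 15364072) (l 2)))), by decide +kernel⟩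

def k6_pp_202_b : ∃ t, chk3 f_pp_202_b t 12 2 1 = true :=
  ⟨(b (b (b (b (c (a (b (c (l 15308864) (l 15332976)) (c (b (a (l 15481304) (c (l 15345936) (l 15337080))) (c (l 15421912) (l 15387488))) (b (l 15371968) (l 15316704)))) (b (b (l 15020880) (c (l 15080952) (a (l 15054640) (l 14995968)))) (c (a (b (l 15200752) (l 15192424)) (l 15050520)) (b (c (a (l 15179648) (l 15045328)) (l 15070336)) (l 15088384))))) (b (c (b (l 15164784) (a (l 15335048) (c (l 15048448) (l 15046984)))) (b (c (l 15114896) (a (l 15298280) (l 15010600))) (l 14941048))) (c (a (l 15348040) (l 15070264)) (l 15216872)))) (c (c (b (a (c (l 15384040) (l 15362432)) (b (l 15123864) (l 15141808))) (l 15313888)) (a (l 15380120) (l 15175656))) (a (l 15249128) (c (l 15176664) (l 15171936))))) (c (b (c (a (l 15552576) (l 15323896)) (a (l 15553696) (l 15269896))) (c (a (l 15625632) (b (l 15460304) (l 15540008))) (a (l 15745912) (l 15489256)))) (b (a (l 15563944) (l 15171416)) (a (l 15724656) (l 15465960))))) (b (c (b (a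 (l 15870648) (l 15658352)) (l 15721528)) (b (a (l 15850632) (l 15630320)) (l 15849872))) (b (c (l 15975848) (l 16066360)) (l 16174176)))) (b (b (l 16295808) (l 16519672)) (b (l 16502608) (l 16464424)))), by decide +kernel⟩

def k7_pp_202_b : ∃ t, chk3 f_pp_202_b t 13 2 1 = true :=
  ⟨(b (b (b (c (a (b (b (c (a (l 14872200) (l 14793864)) (a (l 14650192) (l 14739632))) (c (a (l 14910624) (l 14844824)) (b (a (l 14891496) (l 14817936)) (l 14767784)))) (c (b (a (l 14968320) (l 14915584)) (l 15020584)) (l 14984920))) (b (b (c (l 14796880) (l 14770792)) (l 14830560)) (c (l 14935192) (l 14935592)))) (b (c (b (a (b (l 14792768) (c (l 14706544) (l 14800136))) (b (l 14733720) (l 14759856))) (a (l 14787248) (l 14814664))) (b (c (b (a (l 14775640) (l 14714792)) (l 14762904)) (a (l 14782368) (l 14728352))) (l 14823072))) (c (a (l 14984168) (l 14938640)) (l 14944232)))) (c (b (c (a (l 15159680) (l 15096192)) (a (l 15164512) (l 15105544))) (c (a (l 15311800) (l 15255872)) (l 15273624))) (b (a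 (l 15145992) (l 15089336)) (l 15244352)))) (b (c (b (a (l 15480296) (l 15421360)) (l 15500000)) (a (l 15539928) (l 15480704))) (c (a (l 15900048) (l 15861128)) (a (l 15877512) (l 15837328))))) (a (b (l 16163728) (l 16715808)) (b (c (l 16083648) (l 16153336)) (l 2)))), by decide +kernel⟩

def k8_pp_202_b : ∃ t, chk3 f_pp_202_b t 7 2 1 = true :=
  ⟨(a (b (b (b (l 3) (c (c (b (l 15076080) (l 15243200)) (l 14928400)) (l 15143320))) (c (b (b (l 15400568) (l 15583064)) (l 15829544)) (b (l 15456848) (l 15804920)))) (b (c (l 16183016) (l 16210616)) (l 2))) (b (l 3) (l 2))), by decide +kernel⟩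

def k9_pp_202_b : ∃ t, chk3 f_pp_202_b t 3 3 1 = true :=
  ⟨(a (b (a (l 16464376) (l 2)) (l 2)) (l 2)), by decide +kernel⟩

theorem s10_pp_202_b : ∃ t, chk3 f_pp_202_b t 6 2 1 = true := ex3_a k6_pp_202_b k7_pp_202_b

theorem s11_pp_202_b : ∃ t, chk3 f_pp_202_b t 3 2 1 = true := ex3_a s10_pp_202_b k8_pp_202_b

theorem s12_pp_202_b : ∃ t, chk3 f_pp_202_b t 3 1 1 = true := ex3_b s11_pp_202_b k9_pp_202_b

theorem s13_pp_202_b : ∃ t, chk3 f_pp_202_b t 5 8 1 = true := ex3_a k1_pp_202_b k2_pp_202_b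

theorem s14_pp_202_b : ∃ t, chk3 f_pp_202_b t 5 4 1 = true := ex3_b s13_pp_202_b k3_pp_202_b

theorem s15_pp_202_b : ∃ t, chk3 f_pp_202_b t 5 2 1 = true := ex3_b s14_pp_202_b k4_pp_202_b

theorem s16_pp_202_b : ∃ t, chk3 f_pp_202_b t 2 2 1 = true := ex3_a k0_pp_202_b s15_pp_202_b

theorem s17_pp_202_b : ∃ t, chk3 f_pp_202_b t 2 1 1 = true := ex3_b s16_pp_202_b k5_pp_202_b

theorem s18_pp_202_b : ∃ t, chk3 f_pp_202_b t 1 1 1 = true := ex3_a s17_pp_202_b s12_pp_202_b

theorem c_pp_202_b : CertFX 1073741824 536870912 1239849684 370763052 1046898278 26843546 false true true .pp 2 0 2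
    ndF7q2 ndF2q2b pcF0 Cut.none Ext.none :=
  certFX1 (fam := false) (s1 := true) (s2 := true) (a := 2) (b := 0) (c := 2) (cn := .pp) (n1 := ndF7q2) (n2 := ndF2q2b) (pc := pcF0) (cut := Cut.none) (xt := Ext.none) (P1 := 1073741824) (W1 := 536870912) (P2 := 1239849684) (W2 := 370763052) (P3 := 1046898278) (W3 := 26843546)
    rfl (fun _ => rfl) s18_pp_202_b

noncomputable def f_pp_203 : ℕ → ℕ → ℕ → ℕ → Bool := onCell 1073741824 536870912 0 536870912 1046898278 26843546
    (rowFX 1 false true true .up 2 0 3 (qsf 1073741824 536870912 1610612736 469762048 0) ndF7q2 ndF2q3 pcF0 Cut.none Ext.none)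

def k0_pp_203 : ∃ t, chk3 f_pp_203 t 1 1 1 = true :=
  ⟨(a (b (a (l 1) (b (l 1) (b (l 1) (b (l 1) (a (l 1) (l 15964240)))))) (a (a (b (l 1) (c (l 14031584) (l 14018360))) (a (b (l 1) (l 14489120)) (l 331815344871))) (b (a (l 290477388215) (l 15964160)) (a (l 15364072) (l 15964160))))) (b (b (a (a (l 1) (b (l 1) (b (l 1) (c (l 540660235607) (l 641055049031))))) (a (b (a (l 1) (l 3)) (c (b (a (l 541196349207) (l 3)) (l 15829544)) (b (l 15456848) (l 15804920)))) (l 3))) (b (a (a (b (l 1) (l 16519672)) (c (l 290479052951) (l 289405367303))) (a (c (l 16183016) (l 16210616)) (c (l 16218752) (l 16204240)))) (a (a (b (l 16502608) (l 16464424)) (b (l 16640952) (l 16767544))) (c (b (l 16621800) (l 16772976)) (b (l 16617760) (l 16772864)))))) (a (b (a (l 16464376) (l 16767528)) (a (l 16464368) (l 16767504))) (b (c (b (l 16777216) (l 16777192)) (b (l 16777216) (l 16777192))) (a (l 16761160) (l 16748104)))))), by decide +kernel⟩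

theorem c_pp_203 : CertFX 1073741824 536870912 1610612736 469762048 1046898278 26843546 false true true .up 2 0 3
    ndF7q2 ndF2q3 pcF0 Cut.none Ext.none :=
  certFX1 (fam := false) (s1 := true) (s2 := true) (a := 2) (b := 0) (c := 3) (cn := .up) (n1 := ndF7q2) (n2 := ndF2q3) (pc := pcF0) (cut := Cut.none) (xt := Ext.none) (P1 := 1073741824) (W1 := 536870912) (P2 := 1610612736) (W2 := 469762048) (P3 := 1046898278) (W3 := 26843546)
    rfl (fun _ => rfl) k0_pp_203

noncomputable def f_pp_213 : ℕ → ℕ → ℕ → ℕ → Bool := onCell 1073741824 536870912 1610612736 469762048 1046898278 26843546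
    (rowFX 0 false true true .pnn 2 1 3 (qsf 1073741824 536870912 1610612736 469762048 1) ndF7q2 ndF2q3 pcF1 Cut.none Ext.none)

def k0_pp_213 : ∃ t, chk3 f_pp_213 t 1 1 1 = true :=
  ⟨(a (a (b (a (c (l 503075604407) (b (l 14018360) (l 14018360))) (b (l 462811504055) (l 14640608))) (b (a (l 14034696) (l 14640600)) (a (b (a (l 13816656) (l 14194744)) (a (l 13516904) (l 14133696))) (b (l 14640808) (l 14629952))))) (b (b (l 1) (a (l 475160981943) (l 15964160))) (b (a (l 15364056) (l 15964152)) (a (l 15349320) (l 15949184))))) (b (l 1) (b (a (a (l 16464360) (l 16767520)) (l 1)) (a (a (l 16448992) (l 16751040)) (a (l 16760472) (b (l 1) (l 16759416))))))), by decide +kernel⟩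

theorem c_pp_213 : CertFX 1073741824 536870912 1610612736 469762048 1046898278 26843546 false true true .pnn 2 1 3
    ndF7q2 ndF2q3 pcF1 Cut.none Ext.none :=
  certFX0 (fam := false) (s1 := true) (s2 := true) (a := 2) (b := 1) (c := 3) (cn := .pnn) (n1 := ndF7q2) (n2 := ndF2q3) (pc := pcF1) (cut := Cut.none) (xt := Ext.none) (P1 := 1073741824) (W1 := 536870912) (P2 := 1610612736) (W2 := 469762048) (P3 := 1046898278) (W3 := 26843546)
    rfl k0_pp_213

noncomputable def f_pp_303 : ℕ → ℕ → ℕ → ℕ → Bool := onCell 0 1230186008 1610612736 469762048 1046898278 26843546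
    (rowFX 0 false true true .npn 3 0 3 (qsf 0 1230186008 1610612736 469762048 0) ndF7q3 ndF2q3 pcF0 Cut.none Ext.none)

def k0_pp_303 : ∃ t, chk3 f_pp_303 t 1 1 1 = true :=
  ⟨(a (l 3) (a (l 3) (b (a (l 3) (l 3)) (a (l 3) (b (a (l 3) (a (b (l 3) (b (a (l 3) (l 16769560)) (l 16777184))) (b (b (a (l 3) (l 16707824)) (a (l 16745616) (l 16776728))) (l 16777200)))) (a (b (a (l 3) (l 503752775927)) (c (l 16759696) (l 16759240))) (c (b (l 16777184) (l 16759696)) (b (l 16777184) (l 16759240))))))))), by decide +kernel⟩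

theorem c_pp_303 : CertFX 0 1230186008 1610612736 469762048 1046898278 26843546 false true true .npn 3 0 3
    ndF7q3 ndF2q3 pcF0 Cut.none Ext.none :=
  certFX0 (fam := false) (s1 := true) (s2 := true) (a := 3) (b := 0) (c := 3) (cn := .npn) (n1 := ndF7q3) (n2 := ndF2q3) (pc := pcF0) (cut := Cut.none) (xt := Ext.none) (P1 := 0) (W1 := 1230186008) (P2 := 1610612736) (W2 := 469762048) (P3 := 1046898278) (W3 := 26843546)
    rfl k0_pp_303

noncomputable def f_pp_313 : ℕ → ℕ → ℕ → ℕ → Bool := onCell 0 1230186008 1610612736 469762048 1046898278 26843546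
    (rowFX 0 false true true .dn 3 1 3 (qsf 0 1230186008 1610612736 469762048 1) ndF7q3 ndF2q3 pcF1 Cut.none Ext.none)

def k0_pp_313 : ∃ t, chk3 f_pp_313 t 1 1 1 = true :=
  ⟨(l 1), by decide +kernel⟩

theorem c_pp_313 : CertFX 0 1230186008 1610612736 469762048 1046898278 26843546 false true true .dn 3 1 3
    ndF7q3 ndF2q3 pcF1 Cut.none Ext.none :=
  certFX0 (fam := false) (s1 := true) (s2 := true) (a := 3) (b := 1) (c := 3) (cn := .dn) (n1 := ndF7q3) (n2 := ndF2q3) (pc := pcF1) (cut := Cut.none) (xt := Ext.none) (P1 := 0) (W1 := 1230186008) (P2 := 1610612736) (W2 := 469762048) (P3 := 1046898278) (W3 := 26843546)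
    rfl k0_pp_313

noncomputable def f_pm_001 : ℕ → ℕ → ℕ → ℕ → Bool := onCell 0 536870912 536870912 536870912 1046898278 26843546
    (rowFX 0 false true false .up 0 0 1 (qsf 0 536870912 536870912 536870912 0) ndF7q0 ndF2q1 pcF0 Cut.none Ext.none)

def k0_pm_001 : ∃ t, chk3 f_pm_001 t 1 1 1 = true :=
  ⟨(l 4), by decide +kernel⟩

theorem c_pm_001 : CertFX 0 536870912 536870912 536870912 1046898278 26843546 false true false .up 0 0 1
    ndF7q0 ndF2q1 pcF0 Cut.none Ext.none :=
  certFX0 (fam := false) (s1 := true) (s2 := false) (a := 0) (b := 0) (c := 1) (cn := .up) (n1 := ndF7q0) (n2 := ndF2q1) (pc := pcF0) (cut := Cut.none) (xt := Ext.none) (P1 := 0) (W1 := 536870912) (P2 := 536870912) (W2 := 536870912) (P3 := 1046898278) (W3 := 26843546)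
    rfl k0_pm_001

noncomputable def f_pm_011 : ℕ → ℕ → ℕ → ℕ → Bool := onCell 0 536870912 536870912 536870912 1046898278 26843546
    (rowFX 0 false true false .pnn 0 1 1 (qsf 0 536870912 536870912 536870912 1) ndF7q0 ndF2q1 pcF1 Cut.none Ext.none)

def k0_pm_011 : ∃ t, chk3 f_pm_011 t 1 1 1 = true :=
  ⟨(l 4), by decide +kernel⟩

theorem c_pm_011 : CertFX 0 536870912 536870912 536870912 1046898278 26843546 false true false .pnn 0 1 1
    ndF7q0 ndF2q1 pcF1 Cut.none Ext.none :=
  certFX0 (fam := false) (s1 := true) (s2 := false) (a := 0) (b := 1) (c := 1) (cn := .pnn) (n1 := ndF7q0) (n2 := ndF2q1) (pc := pcF1) (cut := Cut.none) (xt := Ext.none) (P1 := 0) (W1 := 536870912) (P2 := 536870912) (W2 := 536870912) (P3 := 1046898278) (W3 := 26843546)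
    rfl k0_pm_011

noncomputable def f_pm_012_a : ℕ → ℕ → ℕ → ℕ → Bool := onCell 0 536870912 0 420477299 1046898278 26843546
    (rowFX 0 false true false .pnp 0 1 2 (qsf 0 536870912 0 420477299 1) ndF7q0 ndF2q2a pcF1 Cut.none Ext.none)

def k0_pm_012_a : ∃ t, chk3 f_pm_012_a t 1 1 1 = true :=
  ⟨(l 4), by decide +kernel⟩

theorem c_pm_012_a : CertFX 0 536870912 0 420477299 1046898278 26843546 false true false .pnp 0 1 2
    ndF7q0 ndF2q2a pcF1 Cut.none Ext.none :=
  certFX0 (fam := false) (s1 := true) (s2 := false) (a := 0) (b := 1) (c := 2) (cn := .pnp) (n1 := ndF7q0) (n2 := ndF2q2a) (pc := pcF1) (cut := Cut.none) (xt := Ext.none) (P1 := 0) (W1 := 536870912) (P2 := 0) (W2 := 420477299) (P3 := 1046898278) (W3 := 26843546)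
    rfl k0_pm_012_a

noncomputable def f_pm_012_b : ℕ → ℕ → ℕ → ℕ → Bool := onCell 0 536870912 1239849684 370763052 1046898278 26843546
    (rowFX 0 false true false .pnp 0 1 2 (qsf 0 536870912 1239849684 370763052 1) ndF7q0 ndF2q2b pcF1 Cut.none Ext.none)

def k0_pm_012_b : ∃ t, chk3 f_pm_012_b t 1 1 1 = true :=
  ⟨(l 4), by decide +kernel⟩

theorem c_pm_012_b : CertFX 0 536870912 1239849684 370763052 1046898278 26843546 false true false .pnp 0 1 2
    ndF7q0 ndF2q2b pcF1 Cut.none Ext.none :=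
  certFX0 (fam := false) (s1 := true) (s2 := false) (a := 0) (b := 1) (c := 2) (cn := .pnp) (n1 := ndF7q0) (n2 := ndF2q2b) (pc := pcF1) (cut := Cut.none) (xt := Ext.none) (P1 := 0) (W1 := 536870912) (P2 := 1239849684) (W2 := 370763052) (P3 := 1046898278) (W3 := 26843546)
    rfl k0_pm_012_b

noncomputable def f_pm_022_a : ℕ → ℕ → ℕ → ℕ → Bool := onCell 0 536870912 0 420477299 1046898278 26843546
    (rowFX 0 false true false .pp 0 2 2 (qsf 0 536870912 0 420477299 2) ndF7q0 ndF2q2a pcF2 Cut.none Ext.none)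

def k0_pm_022_a : ∃ t, chk3 f_pm_022_a t 1 1 1 = true :=
  ⟨(l 4), by decide +kernel⟩

theorem c_pm_022_a : CertFX 0 536870912 0 420477299 1046898278 26843546 false true false .pp 0 2 2
    ndF7q0 ndF2q2a pcF2 Cut.none Ext.none :=
  certFX0 (fam := false) (s1 := true) (s2 := false) (a := 0) (b := 2) (c := 2) (cn := .pp) (n1 := ndF7q0) (n2 := ndF2q2a) (pc := pcF2) (cut := Cut.none) (xt := Ext.none) (P1 := 0) (W1 := 536870912) (P2 := 0) (W2 := 420477299) (P3 := 1046898278) (W3 := 26843546)
    rfl k0_pm_022_a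

noncomputable def f_pm_022_b : ℕ → ℕ → ℕ → ℕ → Bool := onCell 0 536870912 1239849684 370763052 1046898278 26843546
    (rowFX 0 false true false .pp 0 2 2 (qsf 0 536870912 1239849684 370763052 2) ndF7q0 ndF2q2b pcF2 Cut.none Ext.none)

def k0_pm_022_b : ∃ t, chk3 f_pm_022_b t 1 1 1 = true :=
  ⟨(l 4), by decide +kernel⟩

theorem c_pm_022_b : CertFX 0 536870912 1239849684 370763052 1046898278 26843546 false true false .pp 0 2 2
    ndF7q0 ndF2q2b pcF2 Cut.none Ext.none :=
  certFX0 (fam := false) (s1 := true) (s2 := false) (a := 0) (b := 2) (c := 2) (cn := .pp) (n1 := ndF7q0) (n2 := ndF2q2b) (pc := pcF2) (cut := Cut.none) (xt := Ext.none) (P1 := 0) (W1 := 536870912) (P2 := 1239849684) (W2 := 370763052) (P3 := 1046898278) (W3 := 26843546)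
    rfl k0_pm_022_b

noncomputable def f_pm_023 : ℕ → ℕ → ℕ → ℕ → Bool := onCell 0 536870912 1610612736 469762048 1046898278 26843546
    (rowFX 0 false true false .up 0 2 3 (qsf 0 536870912 1610612736 469762048 2) ndF7q0 ndF2q3 pcF2 Cut.none Ext.none)

def k0_pm_023 : ∃ t, chk3 f_pm_023 t 1 1 1 = true :=
  ⟨(l 4), by decide +kernel⟩

theorem c_pm_023 : CertFX 0 536870912 1610612736 469762048 1046898278 26843546 false true false .up 0 2 3
    ndF7q0 ndF2q3 pcF2 Cut.none Ext.none :=
  certFX0 (fam := false) (s1 := true) (s2 := false) (a := 0) (b := 2) (c := 3) (cn := .up) (n1 := ndF7q0) (n2 := ndF2q3) (pc := pcF2) (cut := Cut.none) (xt := Ext.none) (P1 := 0) (W1 := 536870912) (P2 := 1610612736) (W2 := 469762048) (P3 := 1046898278) (W3 := 26843546)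
    rfl k0_pm_023

noncomputable def f_pm_033 : ℕ → ℕ → ℕ → ℕ → Bool := onCell 0 536870912 1610612736 469762048 1046898278 26843546
    (rowFX 0 false true false .pnn 0 3 3 (qsf 0 536870912 1610612736 469762048 3) ndF7q0 ndF2q3 pcF3 Cut.none Ext.none)

def k0_pm_033 : ∃ t, chk3 f_pm_033 t 1 1 1 = true :=
  ⟨(l 4), by decide +kernel⟩

theorem c_pm_033 : CertFX 0 536870912 1610612736 469762048 1046898278 26843546 false true false .pnn 0 3 3
    ndF7q0 ndF2q3 pcF3 Cut.none Ext.none :=
  certFX0 (fam := false) (s1 := true) (s2 := false) (a := 0) (b := 3) (c := 3) (cn := .pnn) (n1 := ndF7q0) (n2 := ndF2q3) (pc := pcF3) (cut := Cut.none) (xt := Ext.none) (P1 := 0) (W1 := 536870912) (P2 := 1610612736) (W2 := 469762048) (P3 := 1046898278) (W3 := 26843546)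
    rfl k0_pm_033

noncomputable def f_pm_101 : ℕ → ℕ → ℕ → ℕ → Bool := onCell 536870912 536870912 536870912 536870912 1046898278 26843546
    (rowFX 0 false true false .npn 1 0 1 (qsf 536870912 536870912 536870912 536870912 0) ndF7q1 ndF2q1 pcF0 Cut.none Ext.none)

def k0_pm_101 : ∃ t, chk3 f_pm_101 t 1 1 1 = true :=
  ⟨(l 4), by decide +kernel⟩

theorem c_pm_101 : CertFX 536870912 536870912 536870912 536870912 1046898278 26843546 false true false .npn 1 0 1
    ndF7q1 ndF2q1 pcF0 Cut.none Ext.none :=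
  certFX0 (fam := false) (s1 := true) (s2 := false) (a := 1) (b := 0) (c := 1) (cn := .npn) (n1 := ndF7q1) (n2 := ndF2q1) (pc := pcF0) (cut := Cut.none) (xt := Ext.none) (P1 := 536870912) (W1 := 536870912) (P2 := 536870912) (W2 := 536870912) (P3 := 1046898278) (W3 := 26843546)
    rfl k0_pm_101

noncomputable def f_pm_102_a : ℕ → ℕ → ℕ → ℕ → Bool := onCell 536870912 536870912 0 420477299 1046898278 26843546
    (rowFX 0 false true false .npp 1 0 2 (qsf 536870912 536870912 0 420477299 0) ndF7q1 ndF2q2a pcF0 Cut.none Ext.none)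

def k0_pm_102_a : ∃ t, chk3 f_pm_102_a t 1 1 1 = true :=
  ⟨(l 4), by decide +kernel⟩

theorem c_pm_102_a : CertFX 536870912 536870912 0 420477299 1046898278 26843546 false true false .npp 1 0 2
    ndF7q1 ndF2q2a pcF0 Cut.none Ext.none :=
  certFX0 (fam := false) (s1 := true) (s2 := false) (a := 1) (b := 0) (c := 2) (cn := .npp) (n1 := ndF7q1) (n2 := ndF2q2a) (pc := pcF0) (cut := Cut.none) (xt := Ext.none) (P1 := 536870912) (W1 := 536870912) (P2 := 0) (W2 := 420477299) (P3 := 1046898278) (W3 := 26843546)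
    rfl k0_pm_102_a

noncomputable def f_pm_102_b : ℕ → ℕ → ℕ → ℕ → Bool := onCell 536870912 536870912 1239849684 370763052 1046898278 26843546
    (rowFX 0 false true false .npp 1 0 2 (qsf 536870912 536870912 1239849684 370763052 0) ndF7q1 ndF2q2b pcF0 Cut.none Ext.none)

def k0_pm_102_b : ∃ t, chk3 f_pm_102_b t 1 1 1 = true :=
  ⟨(l 4), by decide +kernel⟩

theorem c_pm_102_b : CertFX 536870912 536870912 1239849684 370763052 1046898278 26843546 false true false .npp 1 0 2
    ndF7q1 ndF2q2b pcF0 Cut.none Ext.none :=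
  certFX0 (fam := false) (s1 := true) (s2 := false) (a := 1) (b := 0) (c := 2) (cn := .npp) (n1 := ndF7q1) (n2 := ndF2q2b) (pc := pcF0) (cut := Cut.none) (xt := Ext.none) (P1 := 536870912) (W1 := 536870912) (P2 := 1239849684) (W2 := 370763052) (P3 := 1046898278) (W3 := 26843546)
    rfl k0_pm_102_b

noncomputable def f_pm_112_a : ℕ → ℕ → ℕ → ℕ → Bool := onCell 536870912 536870912 0 420477299 1046898278 26843546
    (rowFX 0 false true false .dn 1 1 2 (qsf 536870912 536870912 0 420477299 1) ndF7q1 ndF2q2a pcF1 Cut.none Ext.none)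

def k0_pm_112_a : ∃ t, chk3 f_pm_112_a t 1 1 1 = true :=
  ⟨(l 4), by decide +kernel⟩

theorem c_pm_112_a : CertFX 536870912 536870912 0 420477299 1046898278 26843546 false true false .dn 1 1 2
    ndF7q1 ndF2q2a pcF1 Cut.none Ext.none :=
  certFX0 (fam := false) (s1 := true) (s2 := false) (a := 1) (b := 1) (c := 2) (cn := .dn) (n1 := ndF7q1) (n2 := ndF2q2a) (pc := pcF1) (cut := Cut.none) (xt := Ext.none) (P1 := 536870912) (W1 := 536870912) (P2 := 0) (W2 := 420477299) (P3 := 1046898278) (W3 := 26843546)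
    rfl k0_pm_112_a

noncomputable def f_pm_112_b : ℕ → ℕ → ℕ → ℕ → Bool := onCell 536870912 536870912 1239849684 370763052 1046898278 26843546
    (rowFX 0 false true false .dn 1 1 2 (qsf 536870912 536870912 1239849684 370763052 1) ndF7q1 ndF2q2b pcF1 Cut.none Ext.none)

def k0_pm_112_b : ∃ t, chk3 f_pm_112_b t 1 1 1 = true :=
  ⟨(l 4), by decide +kernel⟩

theorem c_pm_112_b : CertFX 536870912 536870912 1239849684 370763052 1046898278 26843546 false true false .dn 1 1 2
    ndF7q1 ndF2q2b pcF1 Cut.none Ext.none :=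
  certFX0 (fam := false) (s1 := true) (s2 := false) (a := 1) (b := 1) (c := 2) (cn := .dn) (n1 := ndF7q1) (n2 := ndF2q2b) (pc := pcF1) (cut := Cut.none) (xt := Ext.none) (P1 := 536870912) (W1 := 536870912) (P2 := 1239849684) (W2 := 370763052) (P3 := 1046898278) (W3 := 26843546)
    rfl k0_pm_112_b

noncomputable def f_pm_113 : ℕ → ℕ → ℕ → ℕ → Bool := onCell 536870912 536870912 1610612736 469762048 1046898278 26843546
    (rowFX 0 false true false .nn 1 1 3 (qsf 536870912 536870912 1610612736 469762048 1) ndF7q1 ndF2q3 pcF1 Cut.none Ext.none)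

def k0_pm_113 : ∃ t, chk3 f_pm_113 t 1 1 1 = true :=
  ⟨(a (l 4) (b (l 4) (l 4))), by decide +kernel⟩

theorem c_pm_113 : CertFX 536870912 536870912 1610612736 469762048 1046898278 26843546 false true false .nn 1 1 3
    ndF7q1 ndF2q3 pcF1 Cut.none Ext.none :=
  certFX0 (fam := false) (s1 := true) (s2 := false) (a := 1) (b := 1) (c := 3) (cn := .nn) (n1 := ndF7q1) (n2 := ndF2q3) (pc := pcF1) (cut := Cut.none) (xt := Ext.none) (P1 := 536870912) (W1 := 536870912) (P2 := 1610612736) (W2 := 469762048) (P3 := 1046898278) (W3 := 26843546)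
    rfl k0_pm_113

noncomputable def f_pm_123 : ℕ → ℕ → ℕ → ℕ → Bool := onCell 1073741824 536870912 1610612736 469762048 1046898278 26843546
    (rowFX 2 false true false .npn 1 2 3 (qsf 536870912 536870912 1610612736 469762048 2) ndF7q1 ndF2q3 pcF2 Cut.none Ext.none)

def k0_pm_123 : ∃ t, chk3 f_pm_123 t 1 1 1 = true :=
  ⟨(l 4), by decide +kernel⟩

theorem c_pm_123 : CertFX 536870912 536870912 1610612736 469762048 1046898278 26843546 false true false .npn 1 2 3
    ndF7q1 ndF2q3 pcF2 Cut.none Ext.none :=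
  certFX2 (fam := false) (s1 := true) (s2 := false) (a := 1) (b := 2) (c := 3) (cn := .npn) (n1 := ndF7q1) (n2 := ndF2q3) (pc := pcF2) (cut := Cut.none) (xt := Ext.none) (P1 := 536870912) (W1 := 536870912) (P2 := 1610612736) (W2 := 469762048) (P3 := 1046898278) (W3 := 26843546)
    rfl (fun _ => rfl) k0_pm_123

noncomputable def f_pm_133 : ℕ → ℕ → ℕ → ℕ → Bool := onCell 536870912 536870912 1610612736 469762048 1046898278 26843546
    (rowFX 0 false true false .dn 1 3 3 (qsf 536870912 536870912 1610612736 469762048 3) ndF7q1 ndF2q3 pcF3 Cut.none Ext.none)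

def k0_pm_133 : ∃ t, chk3 f_pm_133 t 1 1 1 = true :=
  ⟨(l 1), by decide +kernel⟩

theorem c_pm_133 : CertFX 536870912 536870912 1610612736 469762048 1046898278 26843546 false true false .dn 1 3 3
    ndF7q1 ndF2q3 pcF3 Cut.none Ext.none :=
  certFX0 (fam := false) (s1 := true) (s2 := false) (a := 1) (b := 3) (c := 3) (cn := .dn) (n1 := ndF7q1) (n2 := ndF2q3) (pc := pcF3) (cut := Cut.none) (xt := Ext.none) (P1 := 536870912) (W1 := 536870912) (P2 := 1610612736) (W2 := 469762048) (P3 := 1046898278) (W3 := 26843546)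
    rfl k0_pm_133

noncomputable def f_pm_202_a : ℕ → ℕ → ℕ → ℕ → Bool := onCell 0 536870912 0 420477299 1046898278 26843546
    (rowFX 2 false true false .pp 2 0 2 (qsf 1073741824 536870912 0 420477299 0) ndF7q2 ndF2q2a pcF0 Cut.none Ext.none)

def k0_pm_202_a : ∃ t, chk3 f_pm_202_a t 1 1 1 = true :=
  ⟨(a (b (a (a (b (a (a (a (c (l 15385688) (c (l 15190736) (c (l 15177144) (l 15272928)))) (b (c (l 15268704) (l 15272600)) (l 4))) (c (a (l 15195264) (l 15099264)) (l 15105968))) (a (c (l 14956064) (l 14908768)) (l 4))) (l 4)) (l 4)) (l 4)) (l 4)) (l 1)), by decide +kernel⟩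

theorem c_pm_202_a : CertFX 1073741824 536870912 0 420477299 1046898278 26843546 false true false .pp 2 0 2
    ndF7q2 ndF2q2a pcF0 Cut.none Ext.none :=
  certFX2 (fam := false) (s1 := true) (s2 := false) (a := 2) (b := 0) (c := 2) (cn := .pp) (n1 := ndF7q2) (n2 := ndF2q2a) (pc := pcF0) (cut := Cut.none) (xt := Ext.none) (P1 := 1073741824) (W1 := 536870912) (P2 := 0) (W2 := 420477299) (P3 := 1046898278) (W3 := 26843546)
    rfl (fun _ => rfl) k0_pm_202_a

noncomputable def f_pm_202_b : ℕ → ℕ → ℕ → ℕ → Bool := onCell 1073741824 536870912 0 536870912 1046898278 26843546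
    (rowFX 1 false true false .pp 2 0 2 (qsf 1073741824 536870912 1239849684 370763052 0) ndF7q2 ndF2q2b pcF0 Cut.none Ext.none)

def k0_pm_202_b : ∃ t, chk3 f_pm_202_b t 1 2 1 = true :=
  ⟨(a (a (a (l 4) (a (b (l 4) (l 4)) (b (b (a (l 4) (b (b (l 1) (c (l 14938048) (l 14890184))) (c (l 14978936) (l 14932168)))) (b (c (l 14871840) (l 14822392)) (l 14822920))) (b (l 14815016) (l 14812840))))) (b (b (b (b (a (c (b (l 15291208) (c (l 15369808) (l 326984672775))) (b (c (a (l 281887175655) (l 15637768)) (b (a (c (l 15205600) (l 15195632)) (l 15625352)) (l 579850924743))) (c (l 15315512) (l 15423560)))) (c (b (l 16090072) (c (l 16087712) (l 16080176))) (b (c (l 15992288) (b (l 15942072) (l 16065224))) (l 15940848)))) (c (a (b (l 303899371463) (l 15464776)) (l 15933480)) (a (l 15282568) (l 16058616)))) (a (c (l 15277640) (l 15409896)) (c (l 16065352) (l 16045072)))) (a (b (c (l 15422112) (l 15387064)) (l 15391880)) (b (l 15973096) (l 16018192)))) (b (a (l 15382120) (l 15996840)) (a (l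 15366792) (l 15968648))))) (b (b (a (b (a (b (c (b (l 16610864) (l 16606008)) (b (c (l 16608224) (l 16606424)) (l 16603976))) (c (l 16602520) (l 16595064))) (b (c (l 16300816) (c (l 16294856) (l 16291800))) (c (l 16313000) (l 16318768)))) (a (c (l 16582864) (l 16577000)) (l 16367072))) (b (b (a (c (l 16120672) (l 15920856)) (c (l 15942512) (b (l 15918104) (l 15932176)))) (c (a (l 16133840) (l 15964400)) (l 16032784))) (a (c (l 16206816) (l 16205768)) (l 15968568)))) (a (b (a (l 16552872) (l 16449840)) (a (l 16528768) (l 16526656))) (b (a (l 16329176) (l 16199920)) (l 16395008)))) (a (b (a (l 16501104) (l 16617816)) (a (l 16469016) (l 16756904))) (b (a (l 16564960) (l 2)) (l 2))))), by decide +kernel⟩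

def k1_pm_202_b : ∃ t, chk3 f_pm_202_b t 1 3 1 = true :=
  ⟨(a (a (a (l 4) (b (c (l 14691592) (l 14632392)) (l 14640608))) (b (a (l 15364072) (l 15964160)) (a (l 15364072) (l 2)))) (a (b (a (l 16464376) (l 2)) (l 2)) (l 2))), by decide +kernel⟩

theorem s2_pm_202_b : ∃ t, chk3 f_pm_202_b t 1 1 1 = true := ex3_b k0_pm_202_b k1_pm_202_b

theorem c_pm_202_b : CertFX 1073741824 536870912 1239849684 370763052 1046898278 26843546 false true false .pp 2 0 2
    ndF7q2 ndF2q2b pcF0 Cut.none Ext.none :=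
  certFX1 (fam := false) (s1 := true) (s2 := false) (a := 2) (b := 0) (c := 2) (cn := .pp) (n1 := ndF7q2) (n2 := ndF2q2b) (pc := pcF0) (cut := Cut.none) (xt := Ext.none) (P1 := 1073741824) (W1 := 536870912) (P2 := 1239849684) (W2 := 370763052) (P3 := 1046898278) (W3 := 26843546)
    rfl (fun _ => rfl) s2_pm_202_b

noncomputable def f_pm_203 : ℕ → ℕ → ℕ → ℕ → Bool := onCell 1073741824 536870912 0 536870912 1046898278 26843546
    (rowFX 1 false true false .up 2 0 3 (qsf 1073741824 536870912 1610612736 469762048 0) ndF7q2 ndF2q3 pcF0 Cut.none Ext.none)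

def k0_pm_203 : ∃ t, chk3 f_pm_203 t 1 1 1 = true :=
  ⟨(b (b (a (l 1) (b (a (l 1) (a (b (l 1) (l 636224943223)) (b (b (c (l 15942512) (b (l 15918104) (l 15932176))) (c (l 15964400) (l 15973688))) (l 15968568)))) (a (b (l 1) (l 454762799095)) (b (a (l 16329176) (l 16199920)) (l 16395008))))) (a (a (l 1) (b (l 1) (l 439191262791))) (a (b (a (l 16501104) (l 16617816)) (a (l 16469016) (l 16756904))) (b (a (l 16564960) (l 16501936)) (b (l 16706320) (l 16777096)))))) (a (a (a (l 4) (b (l 488044436919) (l 14640608))) (b (a (l 15364072) (l 15964160)) (a (l 15364072) (l 15964160)))) (a (b (a (l 16464376) (l 16767528)) (a (l 16464376) (l 16767552))) (b (l 16777192) (a (l 16761160) (l 16748104)))))), by decide +kernel⟩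

theorem c_pm_203 : CertFX 1073741824 536870912 1610612736 469762048 1046898278 26843546 false true false .up 2 0 3
    ndF7q2 ndF2q3 pcF0 Cut.none Ext.none :=
  certFX1 (fam := false) (s1 := true) (s2 := false) (a := 2) (b := 0) (c := 3) (cn := .up) (n1 := ndF7q2) (n2 := ndF2q3) (pc := pcF0) (cut := Cut.none) (xt := Ext.none) (P1 := 1073741824) (W1 := 536870912) (P2 := 1610612736) (W2 := 469762048) (P3 := 1046898278) (W3 := 26843546)
    rfl (fun _ => rfl) k0_pm_203

noncomputable def f_pm_213 : ℕ → ℕ → ℕ → ℕ → Bool := onCell 1073741824 536870912 1610612736 469762048 1046898278 26843546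
    (rowFX 0 false true false .pnn 2 1 3 (qsf 1073741824 536870912 1610612736 469762048 1) ndF7q2 ndF2q3 pcF1 Cut.none Ext.none)

def k0_pm_213 : ∃ t, chk3 f_pm_213 t 1 1 1 = true :=
  ⟨(a (b (a (a (b (l 4) (b (l 4) (l 4))) (b (l 510056144311) (a (l 14484152) (l 14812280)))) (b (l 1) (a (l 15364072) (l 15964160)))) (a (b (a (a (l 4) (b (l 13945600) (a (l 13599680) (l 13927024)))) (b (a (l 14414728) (l 14801440)) (a (l 14367528) (l 14802736)))) (a (b (a (l 4) (a (l 13514816) (l 13926704))) (a (a (l 4) (b (l 13035984) (l 13307360))) (b (a (l 13584424) (l 14018488)) (a (a (l 13693200) (l 13941064)) (l 14230584))))) (b (a (b (l 14404824) (l 14430784)) (b (l 14807832) (l 14811944))) (a (b (l 14462696) (a (l 14506664) (l 14653912))) (b (l 14826728) (a (l 14767632) (l 14923232))))))) (b (a (b (l 15363712) (l 15359856)) (l 15964096)) (a (b (l 15364096) (a (l 15004392) (l 15549992))) (l 15979008))))) (b (l 1) (b (a (a (l 16464384) (l 16767536)) (l 1)) (a (a (l 16479440) (l 16754336)) (l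 16760472))))), by decide +kernel⟩

theorem c_pm_213 : CertFX 1073741824 536870912 1610612736 469762048 1046898278 26843546 false true false .pnn 2 1 3
    ndF7q2 ndF2q3 pcF1 Cut.none Ext.none :=
  certFX0 (fam := false) (s1 := true) (s2 := false) (a := 2) (b := 1) (c := 3) (cn := .pnn) (n1 := ndF7q2) (n2 := ndF2q3) (pc := pcF1) (cut := Cut.none) (xt := Ext.none) (P1 := 1073741824) (W1 := 536870912) (P2 := 1610612736) (W2 := 469762048) (P3 := 1046898278) (W3 := 26843546)
    rfl k0_pm_213

noncomputable def f_pm_303 : ℕ → ℕ → ℕ → ℕ → Bool := onCell 0 1230186008 0 536870912 1046898278 26843546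
    (rowFX 1 false true false .npn 3 0 3 (qsf 0 1230186008 1610612736 469762048 0) ndF7q3 ndF2q3 pcF0 Cut.none Ext.none)

def k0_pm_303 : ∃ t, chk3 f_pm_303 t 2 2 1 = true :=
  ⟨(a (l 2) (b (l 3) (l 2))), by decide +kernel⟩

def k1_pm_303 : ∃ t, chk3 f_pm_303 t 6 2 1 = true :=
  ⟨(a (l 3) (a (l 3) (a (l 3) (b (b (a (l 3) (b (b (c (b (l 14787224) (b (l 14821960) (l 14845392))) (b (c (l 14749608) (b (l 14717216) (l 14750840))) (l 14607568))) (c (l 14944368) (l 14894632))) (c (c (l 15118624) (l 15159080)) (l 15143312)))) (l 3)) (l 3))))), by decide +kernel⟩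

def k2_pm_303 : ∃ t, chk3 f_pm_303 t 7 2 1 = true :=
  ⟨(b (b (a (b (b (c (a (b (a (l 14805944) (l 15008768)) (c (a (a (l 14872632) (l 14962976)) (l 15036272)) (a (l 14878864) (l 15030392)))) (b (l 15134016) (b (l 15035688) (l 14942424)))) (a (b (a (c (l 14838080) (b (l 14823560) (l 14836280))) (c (l 14984784) (b (l 14959336) (l 14969096)))) (a (c (l 14869560) (l 14870752)) (l 14999912))) (a (a (b (b (l 14911736) (l 14981400)) (l 15097248)) (l 15149192)) (l 15244816)))) (c (a (a (a (l 14927600) (b (l 14979720) (l 15039440))) (b (l 14870512) (l 15097688))) (b (l 14956776) (l 15239424))) (a (a (a (l 14941472) (l 14992160)) (l 15052168)) (l 15126344)))) (b (a (c (a (l 15034848) (l 15217456)) (a (a (l 15100552) (l 15140104)) (l 15197808))) (c (l 15206760) (l 15385520))) (c (a (a (l 15156168) (l 15353536)) (l 15497864)) (a (a (l 15253312) (l 15320224)) (l 15459768))))) (b (b (a (c (l 15457688) (b (l 15378888) (l 15443240))) (c (l 15538464) (l 15688176))) (c (l 15470000) (l 15630072)))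 (a (l 15587672) (l 15798744)))) (a (b (b (c (a (l 15464000) (l 15611968)) (a (a (l 15401144) (l 15501000)) (l 15574592))) (a (c (l 15642264) (l 15612672)) (l 15641256))) (c (a (l 336246776391) (l 15956568)) (a (a (l 15842112) (l 15859880)) (l 15932520)))) (b (c (l 15941520) (l 15911544)) (a (l 16063168) (l 16221384))))) (a (a (a (b (b (l 16013424) (l 16335184)) (l 3)) (b (c (l 16238344) (l 16224344)) (b (l 16593472) (l 343227751959)))) (b (b (c (l 16178880) (l 16166568)) (l 16310392)) (b (a (l 16619000) (l 16644184)) (a (l 16756608) (l 16772152))))) (b (a (c (l 16352912) (l 16339664)) (l 16403736)) (a (b (l 16653464) (l 16777008)) (b (l 16667280) (l 16777048)))))), by decide +kernel⟩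

def k3_pm_303 : ∃ t, chk3 f_pm_303 t 1 3 1 = true :=
  ⟨(a (l 2) (a (l 2) (a (b (b (a (c (l 1524277321463) (l 1502802486679)) (c (l 16749536) (l 16748704))) (l 2)) (l 2)) (b (a (b (l 16760528) (l 16746112)) (l 16761072)) (a (l 2) (b (l 16746592) (l 220217832663))))))), by decide +kernel⟩

theorem s4_pm_303 : ∃ t, chk3 f_pm_303 t 3 2 1 = true := ex3_a k1_pm_303 k2_pm_303

theorem s5_pm_303 : ∃ t, chk3 f_pm_303 t 1 2 1 = true := ex3_a k0_pm_303 s4_pm_303

theorem s6_pm_303 : ∃ t, chk3 f_pm_303 t 1 1 1 = true := ex3_b s5_pm_303 k3_pm_303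

theorem c_pm_303 : CertFX 0 1230186008 1610612736 469762048 1046898278 26843546 false true false .npn 3 0 3
    ndF7q3 ndF2q3 pcF0 Cut.none Ext.none :=
  certFX1 (fam := false) (s1 := true) (s2 := false) (a := 3) (b := 0) (c := 3) (cn := .npn) (n1 := ndF7q3) (n2 := ndF2q3) (pc := pcF0) (cut := Cut.none) (xt := Ext.none) (P1 := 0) (W1 := 1230186008) (P2 := 1610612736) (W2 := 469762048) (P3 := 1046898278) (W3 := 26843546)
    rfl (fun _ => rfl) s6_pm_303

noncomputable def f_pm_313 : ℕ → ℕ → ℕ → ℕ → Bool := onCell 0 1230186008 1610612736 469762048 1046898278 26843546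
    (rowFX 0 false true false .dn 3 1 3 (qsf 0 1230186008 1610612736 469762048 1) ndF7q3 ndF2q3 pcF1 Cut.none Ext.none)

def k0_pm_313 : ∃ t, chk3 f_pm_313 t 1 1 1 = true :=
  ⟨(l 1), by decide +kernel⟩

theorem c_pm_313 : CertFX 0 1230186008 1610612736 469762048 1046898278 26843546 false true false .dn 3 1 3
    ndF7q3 ndF2q3 pcF1 Cut.none Ext.none :=
  certFX0 (fam := false) (s1 := true) (s2 := false) (a := 3) (b := 1) (c := 3) (cn := .dn) (n1 := ndF7q3) (n2 := ndF2q3) (pc := pcF1) (cut := Cut.none) (xt := Ext.none) (P1 := 0) (W1 := 1230186008) (P2 := 1610612736) (W2 := 469762048) (P3 := 1046898278) (W3 := 26843546)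
    rfl k0_pm_313

noncomputable def f_mm_001 : ℕ → ℕ → ℕ → ℕ → Bool := onCell 0 536870912 536870912 536870912 1046898278 26843546
    (rowFX 0 false false false .up 0 0 1 (qsf 0 536870912 536870912 536870912 0) ndF7q0 ndF2q1 pcF0 Cut.none Ext.none)

def k0_mm_001 : ∃ t, chk3 f_mm_001 t 1 1 1 = true :=
  ⟨(l 5), by decide +kernel⟩

theorem c_mm_001 : CertFX 0 536870912 536870912 536870912 1046898278 26843546 false false false .up 0 0 1
    ndF7q0 ndF2q1 pcF0 Cut.none Ext.none :=
  certFX0 (fam := false) (s1 := false) (s2 := false) (a := 0) (b := 0) (c := 1) (cn := .up) (n1 := ndF7q0) (n2 := ndF2q1) (pc := pcF0) (cut := Cut.none) (xt := Ext.none) (P1 := 0) (W1 := 536870912) (P2 := 536870912) (W2 := 536870912) (P3 := 1046898278) (W3 := 26843546)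
    rfl k0_mm_001

noncomputable def f_mm_011 : ℕ → ℕ → ℕ → ℕ → Bool := onCell 0 536870912 536870912 536870912 1046898278 26843546
    (rowFX 0 false false false .pnn 0 1 1 (qsf 0 536870912 536870912 536870912 1) ndF7q0 ndF2q1 pcF1 Cut.none Ext.none)

def k0_mm_011 : ∃ t, chk3 f_mm_011 t 1 1 1 = true :=
  ⟨(l 5), by decide +kernel⟩

theorem c_mm_011 : CertFX 0 536870912 536870912 536870912 1046898278 26843546 false false false .pnn 0 1 1
    ndF7q0 ndF2q1 pcF1 Cut.none Ext.none :=
  certFX0 (fam := false) (s1 := false) (s2 := false) (a := 0) (b := 1) (c := 1) (cn := .pnn) (n1 := ndF7q0) (n2 := ndF2q1) (pc := pcF1) (cut := Cut.none) (xt := Ext.none) (P1 := 0) (W1 := 536870912) (P2 := 536870912) (W2 := 536870912) (P3 := 1046898278) (W3 := 26843546)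
    rfl k0_mm_011

noncomputable def f_mm_012_a : ℕ → ℕ → ℕ → ℕ → Bool := onCell 0 536870912 0 420477299 1046898278 26843546
    (rowFX 0 false false false .pnp 0 1 2 (qsf 0 536870912 0 420477299 1) ndF7q0 ndF2q2a pcF1 Cut.none Ext.none)

def k0_mm_012_a : ∃ t, chk3 f_mm_012_a t 1 1 1 = true :=
  ⟨(l 5), by decide +kernel⟩

theorem c_mm_012_a : CertFX 0 536870912 0 420477299 1046898278 26843546 false false false .pnp 0 1 2
    ndF7q0 ndF2q2a pcF1 Cut.none Ext.none :=
  certFX0 (fam := false) (s1 := false) (s2 := false) (a := 0) (b := 1) (c := 2) (cn := .pnp) (n1 := ndF7q0) (n2 := ndF2q2a) (pc := pcF1) (cut := Cut.none) (xt := Ext.none) (P1 := 0) (W1 := 536870912) (P2 := 0) (W2 := 420477299) (P3 := 1046898278) (W3 := 26843546)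
    rfl k0_mm_012_a

noncomputable def f_mm_012_b : ℕ → ℕ → ℕ → ℕ → Bool := onCell 0 536870912 1239849684 370763052 1046898278 26843546
    (rowFX 0 false false false .pnp 0 1 2 (qsf 0 536870912 1239849684 370763052 1) ndF7q0 ndF2q2b pcF1 Cut.none Ext.none)

def k0_mm_012_b : ∃ t, chk3 f_mm_012_b t 1 1 1 = true :=
  ⟨(l 5), by decide +kernel⟩

theorem c_mm_012_b : CertFX 0 536870912 1239849684 370763052 1046898278 26843546 false false false .pnp 0 1 2
    ndF7q0 ndF2q2b pcF1 Cut.none Ext.none :=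
  certFX0 (fam := false) (s1 := false) (s2 := false) (a := 0) (b := 1) (c := 2) (cn := .pnp) (n1 := ndF7q0) (n2 := ndF2q2b) (pc := pcF1) (cut := Cut.none) (xt := Ext.none) (P1 := 0) (W1 := 536870912) (P2 := 1239849684) (W2 := 370763052) (P3 := 1046898278) (W3 := 26843546)
    rfl k0_mm_012_b

noncomputable def f_mm_022_a : ℕ → ℕ → ℕ → ℕ → Bool := onCell 0 536870912 0 420477299 1046898278 26843546
    (rowFX 0 false false false .pp 0 2 2 (qsf 0 536870912 0 420477299 2) ndF7q0 ndF2q2a pcF2 Cut.none Ext.none)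

def k0_mm_022_a : ∃ t, chk3 f_mm_022_a t 1 1 1 = true :=
  ⟨(l 5), by decide +kernel⟩

theorem c_mm_022_a : CertFX 0 536870912 0 420477299 1046898278 26843546 false false false .pp 0 2 2
    ndF7q0 ndF2q2a pcF2 Cut.none Ext.none :=
  certFX0 (fam := false) (s1 := false) (s2 := false) (a := 0) (b := 2) (c := 2) (cn := .pp) (n1 := ndF7q0) (n2 := ndF2q2a) (pc := pcF2) (cut := Cut.none) (xt := Ext.none) (P1 := 0) (W1 := 536870912) (P2 := 0) (W2 := 420477299) (P3 := 1046898278) (W3 := 26843546)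
    rfl k0_mm_022_a

noncomputable def f_mm_022_b : ℕ → ℕ → ℕ → ℕ → Bool := onCell 0 536870912 1239849684 370763052 1046898278 26843546
    (rowFX 0 false false false .pp 0 2 2 (qsf 0 536870912 1239849684 370763052 2) ndF7q0 ndF2q2b pcF2 Cut.none Ext.none)

def k0_mm_022_b : ∃ t, chk3 f_mm_022_b t 1 1 1 = true :=
  ⟨(l 5), by decide +kernel⟩

theorem c_mm_022_b : CertFX 0 536870912 1239849684 370763052 1046898278 26843546 false false false .pp 0 2 2
    ndF7q0 ndF2q2b pcF2 Cut.none Ext.none :=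
  certFX0 (fam := false) (s1 := false) (s2 := false) (a := 0) (b := 2) (c := 2) (cn := .pp) (n1 := ndF7q0) (n2 := ndF2q2b) (pc := pcF2) (cut := Cut.none) (xt := Ext.none) (P1 := 0) (W1 := 536870912) (P2 := 1239849684) (W2 := 370763052) (P3 := 1046898278) (W3 := 26843546)
    rfl k0_mm_022_b

noncomputable def f_mm_023 : ℕ → ℕ → ℕ → ℕ → Bool := onCell 0 536870912 1610612736 469762048 1046898278 26843546
    (rowFX 0 false false false .up 0 2 3 (qsf 0 536870912 1610612736 469762048 2) ndF7q0 ndF2q3 pcF2 Cut.none Ext.none)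

def k0_mm_023 : ∃ t, chk3 f_mm_023 t 1 1 1 = true :=
  ⟨(l 5), by decide +kernel⟩

theorem c_mm_023 : CertFX 0 536870912 1610612736 469762048 1046898278 26843546 false false false .up 0 2 3
    ndF7q0 ndF2q3 pcF2 Cut.none Ext.none :=
  certFX0 (fam := false) (s1 := false) (s2 := false) (a := 0) (b := 2) (c := 3) (cn := .up) (n1 := ndF7q0) (n2 := ndF2q3) (pc := pcF2) (cut := Cut.none) (xt := Ext.none) (P1 := 0) (W1 := 536870912) (P2 := 1610612736) (W2 := 469762048) (P3 := 1046898278) (W3 := 26843546)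
    rfl k0_mm_023

noncomputable def f_mm_033 : ℕ → ℕ → ℕ → ℕ → Bool := onCell 0 536870912 1610612736 469762048 1046898278 26843546
    (rowFX 0 false false false .pnn 0 3 3 (qsf 0 536870912 1610612736 469762048 3) ndF7q0 ndF2q3 pcF3 Cut.none Ext.none)

def k0_mm_033 : ∃ t, chk3 f_mm_033 t 1 1 1 = true :=
  ⟨(l 5), by decide +kernel⟩

theorem c_mm_033 : CertFX 0 536870912 1610612736 469762048 1046898278 26843546 false false false .pnn 0 3 3
    ndF7q0 ndF2q3 pcF3 Cut.none Ext.none :=
  certFX0 (fam := false) (s1 := false) (s2 := false) (a := 0) (b := 3) (c := 3) (cn := .pnn) (n1 := ndF7q0) (n2 := ndF2q3) (pc := pcF3) (cut := Cut.none) (xt := Ext.none) (P1 := 0) (W1 := 536870912) (P2 := 1610612736) (W2 := 469762048) (P3 := 1046898278) (W3 := 26843546)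
    rfl k0_mm_033

noncomputable def f_mm_101 : ℕ → ℕ → ℕ → ℕ → Bool := onCell 536870912 536870912 536870912 536870912 1046898278 26843546
    (rowFX 0 false false false .npn 1 0 1 (qsf 536870912 536870912 536870912 536870912 0) ndF7q1 ndF2q1 pcF0 Cut.none Ext.none)

def k0_mm_101 : ∃ t, chk3 f_mm_101 t 1 1 1 = true :=
  ⟨(l 3), by decide +kernel⟩

theorem c_mm_101 : CertFX 536870912 536870912 536870912 536870912 1046898278 26843546 false false false .npn 1 0 1
    ndF7q1 ndF2q1 pcF0 Cut.none Ext.none :=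
  certFX0 (fam := false) (s1 := false) (s2 := false) (a := 1) (b := 0) (c := 1) (cn := .npn) (n1 := ndF7q1) (n2 := ndF2q1) (pc := pcF0) (cut := Cut.none) (xt := Ext.none) (P1 := 536870912) (W1 := 536870912) (P2 := 536870912) (W2 := 536870912) (P3 := 1046898278) (W3 := 26843546)
    rfl k0_mm_101

noncomputable def f_mm_102_a : ℕ → ℕ → ℕ → ℕ → Bool := onCell 536870912 536870912 0 420477299 1046898278 26843546
    (rowFX 0 false false false .npp 1 0 2 (qsf 536870912 536870912 0 420477299 0) ndF7q1 ndF2q2a pcF0 Cut.none Ext.none)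

def k0_mm_102_a : ∃ t, chk3 f_mm_102_a t 1 1 1 = true :=
  ⟨(l 5), by decide +kernel⟩

theorem c_mm_102_a : CertFX 536870912 536870912 0 420477299 1046898278 26843546 false false false .npp 1 0 2
    ndF7q1 ndF2q2a pcF0 Cut.none Ext.none :=
  certFX0 (fam := false) (s1 := false) (s2 := false) (a := 1) (b := 0) (c := 2) (cn := .npp) (n1 := ndF7q1) (n2 := ndF2q2a) (pc := pcF0) (cut := Cut.none) (xt := Ext.none) (P1 := 536870912) (W1 := 536870912) (P2 := 0) (W2 := 420477299) (P3 := 1046898278) (W3 := 26843546)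
    rfl k0_mm_102_a

noncomputable def f_mm_102_b : ℕ → ℕ → ℕ → ℕ → Bool := onCell 536870912 536870912 1239849684 370763052 1046898278 26843546
    (rowFX 0 false false false .npp 1 0 2 (qsf 536870912 536870912 1239849684 370763052 0) ndF7q1 ndF2q2b pcF0 Cut.none Ext.none)

def k0_mm_102_b : ∃ t, chk3 f_mm_102_b t 1 1 1 = true :=
  ⟨(l 5), by decide +kernel⟩

theorem c_mm_102_b : CertFX 536870912 536870912 1239849684 370763052 1046898278 26843546 false false false .npp 1 0 2
    ndF7q1 ndF2q2b pcF0 Cut.none Ext.none :=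
  certFX0 (fam := false) (s1 := false) (s2 := false) (a := 1) (b := 0) (c := 2) (cn := .npp) (n1 := ndF7q1) (n2 := ndF2q2b) (pc := pcF0) (cut := Cut.none) (xt := Ext.none) (P1 := 536870912) (W1 := 536870912) (P2 := 1239849684) (W2 := 370763052) (P3 := 1046898278) (W3 := 26843546)
    rfl k0_mm_102_b

noncomputable def f_mm_112_a : ℕ → ℕ → ℕ → ℕ → Bool := onCell 536870912 536870912 0 420477299 1046898278 26843546
    (rowFX 0 false false false .dn 1 1 2 (qsf 536870912 536870912 0 420477299 1) ndF7q1 ndF2q2a pcF1 Cut.none Ext.none)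

def k0_mm_112_a : ∃ t, chk3 f_mm_112_a t 1 1 1 = true :=
  ⟨(l 5), by decide +kernel⟩

theorem c_mm_112_a : CertFX 536870912 536870912 0 420477299 1046898278 26843546 false false false .dn 1 1 2
    ndF7q1 ndF2q2a pcF1 Cut.none Ext.none :=
  certFX0 (fam := false) (s1 := false) (s2 := false) (a := 1) (b := 1) (c := 2) (cn := .dn) (n1 := ndF7q1) (n2 := ndF2q2a) (pc := pcF1) (cut := Cut.none) (xt := Ext.none) (P1 := 536870912) (W1 := 536870912) (P2 := 0) (W2 := 420477299) (P3 := 1046898278) (W3 := 26843546)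
    rfl k0_mm_112_a

noncomputable def f_mm_112_b : ℕ → ℕ → ℕ → ℕ → Bool := onCell 536870912 536870912 1239849684 370763052 1046898278 26843546
    (rowFX 0 false false false .dn 1 1 2 (qsf 536870912 536870912 1239849684 370763052 1) ndF7q1 ndF2q2b pcF1 Cut.none Ext.none)

def k0_mm_112_b : ∃ t, chk3 f_mm_112_b t 1 1 1 = true :=
  ⟨(l 5), by decide +kernel⟩

theorem c_mm_112_b : CertFX 536870912 536870912 1239849684 370763052 1046898278 26843546 false false false .dn 1 1 2
    ndF7q1 ndF2q2b pcF1 Cut.none Ext.none :=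
  certFX0 (fam := false) (s1 := false) (s2 := false) (a := 1) (b := 1) (c := 2) (cn := .dn) (n1 := ndF7q1) (n2 := ndF2q2b) (pc := pcF1) (cut := Cut.none) (xt := Ext.none) (P1 := 536870912) (W1 := 536870912) (P2 := 1239849684) (W2 := 370763052) (P3 := 1046898278) (W3 := 26843546)
    rfl k0_mm_112_b

noncomputable def f_mm_113 : ℕ → ℕ → ℕ → ℕ → Bool := onCell 536870912 536870912 1610612736 469762048 1046898278 26843546
    (rowFX 0 false false false .nn 1 1 3 (qsf 536870912 536870912 1610612736 469762048 1) ndF7q1 ndF2q3 pcF1 Cut.none Ext.none)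

def k0_mm_113 : ∃ t, chk3 f_mm_113 t 1 1 1 = true :=
  ⟨(l 5), by decide +kernel⟩

theorem c_mm_113 : CertFX 536870912 536870912 1610612736 469762048 1046898278 26843546 false false false .nn 1 1 3
    ndF7q1 ndF2q3 pcF1 Cut.none Ext.none :=
  certFX0 (fam := false) (s1 := false) (s2 := false) (a := 1) (b := 1) (c := 3) (cn := .nn) (n1 := ndF7q1) (n2 := ndF2q3) (pc := pcF1) (cut := Cut.none) (xt := Ext.none) (P1 := 536870912) (W1 := 536870912) (P2 := 1610612736) (W2 := 469762048) (P3 := 1046898278) (W3 := 26843546)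
    rfl k0_mm_113

noncomputable def f_mm_123 : ℕ → ℕ → ℕ → ℕ → Bool := onCell 536870912 536870912 1610612736 469762048 1046898278 26843546
    (rowFX 0 false false false .npn 1 2 3 (qsf 536870912 536870912 1610612736 469762048 2) ndF7q1 ndF2q3 pcF2 Cut.none Ext.none)

def k0_mm_123 : ∃ t, chk3 f_mm_123 t 1 1 1 = true :=
  ⟨(l 5), by decide +kernel⟩

theorem c_mm_123 : CertFX 536870912 536870912 1610612736 469762048 1046898278 26843546 false false false .npn 1 2 3
    ndF7q1 ndF2q3 pcF2 Cut.none Ext.none :=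
  certFX0 (fam := false) (s1 := false) (s2 := false) (a := 1) (b := 2) (c := 3) (cn := .npn) (n1 := ndF7q1) (n2 := ndF2q3) (pc := pcF2) (cut := Cut.none) (xt := Ext.none) (P1 := 536870912) (W1 := 536870912) (P2 := 1610612736) (W2 := 469762048) (P3 := 1046898278) (W3 := 26843546)
    rfl k0_mm_123

noncomputable def f_mm_133 : ℕ → ℕ → ℕ → ℕ → Bool := onCell 536870912 536870912 1610612736 469762048 1046898278 26843546
    (rowFX 0 false false false .dn 1 3 3 (qsf 536870912 536870912 1610612736 469762048 3) ndF7q1 ndF2q3 pcF3 Cut.none Ext.none)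

def k0_mm_133 : ∃ t, chk3 f_mm_133 t 1 1 1 = true :=
  ⟨(l 1), by decide +kernel⟩

theorem c_mm_133 : CertFX 536870912 536870912 1610612736 469762048 1046898278 26843546 false false false .dn 1 3 3
    ndF7q1 ndF2q3 pcF3 Cut.none Ext.none :=
  certFX0 (fam := false) (s1 := false) (s2 := false) (a := 1) (b := 3) (c := 3) (cn := .dn) (n1 := ndF7q1) (n2 := ndF2q3) (pc := pcF3) (cut := Cut.none) (xt := Ext.none) (P1 := 536870912) (W1 := 536870912) (P2 := 1610612736) (W2 := 469762048) (P3 := 1046898278) (W3 := 26843546)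
    rfl k0_mm_133

noncomputable def f_mm_202_a : ℕ → ℕ → ℕ → ℕ → Bool := onCell 1073741824 536870912 0 420477299 1046898278 26843546
    (rowFX 0 false false false .pp 2 0 2 (qsf 1073741824 536870912 0 420477299 0) ndF7q2 ndF2q2a pcF0 Cut.none Ext.none)

def k0_mm_202_a : ∃ t, chk3 f_mm_202_a t 1 1 1 = true :=
  ⟨(l 5), by decide +kernel⟩

theorem c_mm_202_a : CertFX 1073741824 536870912 0 420477299 1046898278 26843546 false false false .pp 2 0 2
    ndF7q2 ndF2q2a pcF0 Cut.none Ext.none :=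
  certFX0 (fam := false) (s1 := false) (s2 := false) (a := 2) (b := 0) (c := 2) (cn := .pp) (n1 := ndF7q2) (n2 := ndF2q2a) (pc := pcF0) (cut := Cut.none) (xt := Ext.none) (P1 := 1073741824) (W1 := 536870912) (P2 := 0) (W2 := 420477299) (P3 := 1046898278) (W3 := 26843546)
    rfl k0_mm_202_a

noncomputable def f_mm_202_b : ℕ → ℕ → ℕ → ℕ → Bool := onCell 1073741824 536870912 1239849684 370763052 1046898278 26843546
    (rowFX 0 false false false .pp 2 0 2 (qsf 1073741824 536870912 1239849684 370763052 0) ndF7q2 ndF2q2b pcF0 Cut.none Ext.none)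

def k0_mm_202_b : ∃ t, chk3 f_mm_202_b t 1 1 1 = true :=
  ⟨(l 5), by decide +kernel⟩

theorem c_mm_202_b : CertFX 1073741824 536870912 1239849684 370763052 1046898278 26843546 false false false .pp 2 0 2
    ndF7q2 ndF2q2b pcF0 Cut.none Ext.none :=
  certFX0 (fam := false) (s1 := false) (s2 := false) (a := 2) (b := 0) (c := 2) (cn := .pp) (n1 := ndF7q2) (n2 := ndF2q2b) (pc := pcF0) (cut := Cut.none) (xt := Ext.none) (P1 := 1073741824) (W1 := 536870912) (P2 := 1239849684) (W2 := 370763052) (P3 := 1046898278) (W3 := 26843546)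
    rfl k0_mm_202_b

noncomputable def f_mm_203 : ℕ → ℕ → ℕ → ℕ → Bool := onCell 1073741824 536870912 1610612736 469762048 1046898278 26843546
    (rowFX 0 false false false .up 2 0 3 (qsf 1073741824 536870912 1610612736 469762048 0) ndF7q2 ndF2q3 pcF0 Cut.none Ext.none)

def k0_mm_203 : ∃ t, chk3 f_mm_203 t 1 1 1 = true :=
  ⟨(l 5), by decide +kernel⟩

theorem c_mm_203 : CertFX 1073741824 536870912 1610612736 469762048 1046898278 26843546 false false false .up 2 0 3
    ndF7q2 ndF2q3 pcF0 Cut.none Ext.none :=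
  certFX0 (fam := false) (s1 := false) (s2 := false) (a := 2) (b := 0) (c := 3) (cn := .up) (n1 := ndF7q2) (n2 := ndF2q3) (pc := pcF0) (cut := Cut.none) (xt := Ext.none) (P1 := 1073741824) (W1 := 536870912) (P2 := 1610612736) (W2 := 469762048) (P3 := 1046898278) (W3 := 26843546)
    rfl k0_mm_203

noncomputable def f_mm_213 : ℕ → ℕ → ℕ → ℕ → Bool := onCell 1073741824 536870912 1610612736 469762048 1046898278 26843546
    (rowFX 0 false false false .pnn 2 1 3 (qsf 1073741824 536870912 1610612736 469762048 1) ndF7q2 ndF2q3 pcF1 Cut.none Ext.none)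

def k0_mm_213 : ∃ t, chk3 f_mm_213 t 1 1 1 = true :=
  ⟨(l 5), by decide +kernel⟩

theorem c_mm_213 : CertFX 1073741824 536870912 1610612736 469762048 1046898278 26843546 false false false .pnn 2 1 3
    ndF7q2 ndF2q3 pcF1 Cut.none Ext.none :=
  certFX0 (fam := false) (s1 := false) (s2 := false) (a := 2) (b := 1) (c := 3) (cn := .pnn) (n1 := ndF7q2) (n2 := ndF2q3) (pc := pcF1) (cut := Cut.none) (xt := Ext.none) (P1 := 1073741824) (W1 := 536870912) (P2 := 1610612736) (W2 := 469762048) (P3 := 1046898278) (W3 := 26843546)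
    rfl k0_mm_213

noncomputable def f_mm_303 : ℕ → ℕ → ℕ → ℕ → Bool := onCell 0 1230186008 1610612736 469762048 1046898278 26843546
    (rowFX 0 false false false .npn 3 0 3 (qsf 0 1230186008 1610612736 469762048 0) ndF7q3 ndF2q3 pcF0 Cut.none Ext.none)

def k0_mm_303 : ∃ t, chk3 f_mm_303 t 1 1 1 = true :=
  ⟨(a (l 3) (l 5)), by decide +kernel⟩

theorem c_mm_303 : CertFX 0 1230186008 1610612736 469762048 1046898278 26843546 false false false .npn 3 0 3
    ndF7q3 ndF2q3 pcF0 Cut.none Ext.none :=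
  certFX0 (fam := false) (s1 := false) (s2 := false) (a := 3) (b := 0) (c := 3) (cn := .npn) (n1 := ndF7q3) (n2 := ndF2q3) (pc := pcF0) (cut := Cut.none) (xt := Ext.none) (P1 := 0) (W1 := 1230186008) (P2 := 1610612736) (W2 := 469762048) (P3 := 1046898278) (W3 := 26843546)
    rfl k0_mm_303

noncomputable def f_mm_313 : ℕ → ℕ → ℕ → ℕ → Bool := onCell 0 1230186008 1610612736 469762048 1046898278 26843546
    (rowFX 0 false false false .dn 3 1 3 (qsf 0 1230186008 1610612736 469762048 1) ndF7q3 ndF2q3 pcF1 Cut.none Ext.none)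

def k0_mm_313 : ∃ t, chk3 f_mm_313 t 1 1 1 = true :=
  ⟨(l 1), by decide +kernel⟩

theorem c_mm_313 : CertFX 0 1230186008 1610612736 469762048 1046898278 26843546 false false false .dn 3 1 3
    ndF7q3 ndF2q3 pcF1 Cut.none Ext.none :=
  certFX0 (fam := false) (s1 := false) (s2 := false) (a := 3) (b := 1) (c := 3) (cn := .dn) (n1 := ndF7q3) (n2 := ndF2q3) (pc := pcF1) (cut := Cut.none) (xt := Ext.none) (P1 := 0) (W1 := 1230186008) (P2 := 1610612736) (W2 := 469762048) (P3 := 1046898278) (W3 := 26843546)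
    rfl k0_mm_313

end Pool.Agent.Strip051.G.IE1.Tab.C.FB72

namespace Pool.Agent.Strip051.G.IE1.Tab.C.FB73

open Pool.Agent.Strip051.PB Pool.Agent.Strip051.PB.T
open Pool.Agent.Strip051.G.IE1.Tab

noncomputable def f_pp_001 : ℕ → ℕ → ℕ → ℕ → Bool := onCell 0 536870912 536870912 536870912 1046898278 26843546
    (rowFX 0 false true true .up 0 0 1 (qsf 0 536870912 536870912 536870912 0) ndF7q0 ndF3q1 pcF0 Cut.none Ext.none)

def k0_pp_001 : ∃ t, chk3 f_pp_001 t 1 1 1 = true :=
  ⟨(l 3), by decide +kernel⟩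

theorem c_pp_001 : CertFX 0 536870912 536870912 536870912 1046898278 26843546 false true true .up 0 0 1
    ndF7q0 ndF3q1 pcF0 Cut.none Ext.none :=
  certFX0 (fam := false) (s1 := true) (s2 := true) (a := 0) (b := 0) (c := 1) (cn := .up) (n1 := ndF7q0) (n2 := ndF3q1) (pc := pcF0) (cut := Cut.none) (xt := Ext.none) (P1 := 0) (W1 := 536870912) (P2 := 536870912) (W2 := 536870912) (P3 := 1046898278) (W3 := 26843546)
    rfl k0_pp_001

noncomputable def f_pp_011 : ℕ → ℕ → ℕ → ℕ → Bool := onCell 0 536870912 536870912 536870912 1046898278 26843546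
    (rowFX 0 false true true .pnn 0 1 1 (qsf 0 536870912 536870912 536870912 1) ndF7q0 ndF3q1 pcF1 Cut.none Ext.none)

def k0_pp_011 : ∃ t, chk3 f_pp_011 t 1 1 1 = true :=
  ⟨(l 3), by decide +kernel⟩

theorem c_pp_011 : CertFX 0 536870912 536870912 536870912 1046898278 26843546 false true true .pnn 0 1 1
    ndF7q0 ndF3q1 pcF1 Cut.none Ext.none :=
  certFX0 (fam := false) (s1 := true) (s2 := true) (a := 0) (b := 1) (c := 1) (cn := .pnn) (n1 := ndF7q0) (n2 := ndF3q1) (pc := pcF1) (cut := Cut.none) (xt := Ext.none) (P1 := 0) (W1 := 536870912) (P2 := 536870912) (W2 := 536870912) (P3 := 1046898278) (W3 := 26843546)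
    rfl k0_pp_011

noncomputable def f_pp_012 : ℕ → ℕ → ℕ → ℕ → Bool := onCell 536870912 536870912 1073741824 536870912 1046898278 26843546
    (rowFX 2 false true true .pnp 0 1 2 (qsf 0 536870912 1073741824 536870912 1) ndF7q0 ndF3q2 pcF1 Cut.none Ext.none)

def k0_pp_012 : ∃ t, chk3 f_pp_012 t 1 1 1 = true :=
  ⟨(a (b (b (a (b (c (b (l 15903376) (l 16038456)) (b (l 15838904) (l 15996768))) (c (l 16010400) (l 15990480))) (b (c (b (l 15903376) (l 16038456)) (b (l 15838904) (l 15996768))) (c (l 16010400) (l 15990480)))) (b (a (b (l 15828440) (l 2)) (b (l 15828440) (l 16106936))) (a (l 2) (b (l 16553112) (l 16776904))))) (a (l 2) (b (l 16777216) (l 2)))) (b (a (b (b (c (a (l 15944880) (b (l 15904512) (l 16039120))) (a (l 15765128) (b (a (l 15823112) (l 15860528)) (l 15997552)))) (a (l 15997776) (b (l 16060576) (l 15972384)))) (b (a (l 15967816) (b (l 15828080) (l 16106392))) (a (l 16665048) (l 16415488)))) (b (a (b (b (c (l 15456968) (a (l 15798976) (l 15483464))) (c (l 15828008)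 (l 15746168))) (c (l 15795528) (a (l 15939072) (l 15627720)))) (b (a (c (b (l 15197488) (l 15324928)) (b (l 15010288) (l 15283472))) (c (b (l 14803016) (l 14934936)) (b (c (l 14647848) (a (l 14826824) (l 14612680))) (l 14889168)))) (a (c (l 15304448) (l 15281792)) (c (l 14906104) (b (l 14940288) (l 14851288)))))) (a (b (b (l 15448184) (l 15883376)) (b (l 16251120) (l 16418480))) (b (a (b (l 15138656) (l 15385240)) (b (c (l 14737608) (l 14705960)) (l 14984432))) (a (b (l 15774296) (l 15962384)) (b (l 15401688) (l 15602656))))))) (a (b (a (l 16774320) (l 16777088)) (l 16772928)) (a (b (l 16407168) (l 16373816)) (b (a (l 15933952) (l 15560616)) (a (l 15863872) (l 15462744))))))), by decide +kernel⟩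

theorem c_pp_012 : CertFX 0 536870912 1073741824 536870912 1046898278 26843546 false true true .pnp 0 1 2
    ndF7q0 ndF3q2 pcF1 Cut.none Ext.none :=
  certFX2 (fam := false) (s1 := true) (s2 := true) (a := 0) (b := 1) (c := 2) (cn := .pnp) (n1 := ndF7q0) (n2 := ndF3q2) (pc := pcF1) (cut := Cut.none) (xt := Ext.none) (P1 := 0) (W1 := 536870912) (P2 := 1073741824) (W2 := 536870912) (P3 := 1046898278) (W3 := 26843546)
    rfl (fun _ => rfl) k0_pp_012

noncomputable def f_pp_022 : ℕ → ℕ → ℕ → ℕ → Bool := onCell 0 536870912 1073741824 536870912 1046898278 26843546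
    (rowFX 1 false true true .pp 0 2 2 (qsf 0 536870912 1073741824 536870912 2) ndF7q0 ndF3q2 pcF2 Cut.none Ext.none)

def k0_pp_022 : ∃ t, chk3 f_pp_022 t 1 1 1 = true :=
  ⟨(b (b (a (a (b (a (b (c (a (b (l 14108256) (l 14218744)) (l 14242600)) (a (b (c (l 14026664) (a (l 13941776) (l 14024760))) (c (l 14155432) (l 14120184))) (b (l 14145056) (l 14224632)))) (c (a (l 14301752) (l 14292168)) (a (b (l 14253960) (l 14338904)) (l 14247328)))) (b (c (a (l 14192024) (l 14083200)) (a (b (l 14149176) (l 14160560)) (b (l 14039008) (l 14018912)))) (a (c (l 14181944) (l 14133816)) (c (l 14250520) (b (l 14089336) (l 14271240)))))) (a (b (a (c (l 14398944) (b (l 14376008) (l 14354496))) (b (l 14290240) (l 14238968))) (a (c (l 14279168) (l 14214256)) (c (l 14350304) (l 14287000)))) (b (a (b (c (l 14260528) (l 14207528)) (l 14377536)) (c (l 14708560) (l 14665136))) (a (l 14678384) (l 15005240))))) (b (a (b (a (c (l 14152552) (b (l 13983728) (l 14159088))) (l 14464576)) (a (l 14383952) (c (l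 14918368) (l 14890920)))) (b (c (l 14851088) (l 14690464)) (l 15006880))) (b (a (c (l 15059184) (l 14962848)) (l 15090336)) (l 15096968)))) (b (a (c (l 14919584) (l 14896048)) (l 14832416)) (a (b (l 15045744) (l 15062608)) (l 14973520)))) (a (b (a (a (b (b (a (l 14258800) (l 14597064)) (a (l 14541888) (l 14978560))) (a (l 15230000) (l 15558840))) (b (b (l 15063592) (l 15286400)) (l 15661688))) (b (b (l 15145160) (l 15306072)) (l 15646512))) (b (a (a (a (l 15934416) (l 16055376)) (l 16040080)) (l 16003960)) (a (l 16282656) (l 16227032)))) (b (b (a (l 15219360) (l 15210664)) (l 15603664)) (b (l 15908512) (l 16137848))))) (b (a (b (a (c (l 16514768) (l 16507952)) (l 16486608)) (c (l 16767880) (a (l 16767648) (l 16767416)))) (b (a (l 16470464) (l 2)) (l 2))) (a (l 4) (l 2)))), by decide +kernel⟩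

theorem c_pp_022 : CertFX 0 536870912 1073741824 536870912 1046898278 26843546 false true true .pp 0 2 2
    ndF7q0 ndF3q2 pcF2 Cut.none Ext.none :=
  certFX1 (fam := false) (s1 := true) (s2 := true) (a := 0) (b := 2) (c := 2) (cn := .pp) (n1 := ndF7q0) (n2 := ndF3q2) (pc := pcF2) (cut := Cut.none) (xt := Ext.none) (P1 := 0) (W1 := 536870912) (P2 := 1073741824) (W2 := 536870912) (P3 := 1046898278) (W3 := 26843546)
    rfl (fun _ => rfl) k0_pp_022

noncomputable def f_pp_023 : ℕ → ℕ → ℕ → ℕ → Bool := onCell 1073741824 536870912 1610612736 536870912 1046898278 26843546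
    (rowFX 2 false true true .up 0 2 3 (qsf 0 536870912 1610612736 536870912 2) ndF7q0 ndF3q3 pcF2 Cut.none Ext.none)

def k0_pp_023 : ∃ t, chk3 f_pp_023 t 1 1 1 = true :=
  ⟨(a (a (b (a (b (l 14760304) (l 2)) (b (l 14959016) (l 14866824))) (l 2)) (b (a (b (a (l 15212128) (l 15602688)) (l 15390448)) (a (l 15866640) (l 16131208))) (a (l 2) (b (l 4) (l 2))))) (b (a (a (b (l 16471616) (l 4)) (l 4)) (l 4)) (l 4))), by decide +kernel⟩

theorem c_pp_023 : CertFX 0 536870912 1610612736 536870912 1046898278 26843546 false true true .up 0 2 3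
    ndF7q0 ndF3q3 pcF2 Cut.none Ext.none :=
  certFX2 (fam := false) (s1 := true) (s2 := true) (a := 0) (b := 2) (c := 3) (cn := .up) (n1 := ndF7q0) (n2 := ndF3q3) (pc := pcF2) (cut := Cut.none) (xt := Ext.none) (P1 := 0) (W1 := 536870912) (P2 := 1610612736) (W2 := 536870912) (P3 := 1046898278) (W3 := 26843546)
    rfl (fun _ => rfl) k0_pp_023

noncomputable def f_pp_033 : ℕ → ℕ → ℕ → ℕ → Bool := onCell 1610612736 536870912 1610612736 536870912 1046898278 26843546
    (rowFX 2 false true true .pnn 0 3 3 (qsf 0 536870912 1610612736 536870912 3) ndF7q0 ndF3q3 pcF3 Cut.none Ext.none)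

def k0_pp_033 : ∃ t, chk3 f_pp_033 t 1 1 1 = true :=
  ⟨(l 4), by decide +kernel⟩

theorem c_pp_033 : CertFX 0 536870912 1610612736 536870912 1046898278 26843546 false true true .pnn 0 3 3
    ndF7q0 ndF3q3 pcF3 Cut.none Ext.none :=
  certFX2 (fam := false) (s1 := true) (s2 := true) (a := 0) (b := 3) (c := 3) (cn := .pnn) (n1 := ndF7q0) (n2 := ndF3q3) (pc := pcF3) (cut := Cut.none) (xt := Ext.none) (P1 := 0) (W1 := 536870912) (P2 := 1610612736) (W2 := 536870912) (P3 := 1046898278) (W3 := 26843546)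
    rfl (fun _ => rfl) k0_pp_033

noncomputable def f_pp_101 : ℕ → ℕ → ℕ → ℕ → Bool := onCell 536870912 536870912 536870912 536870912 1046898278 26843546
    (rowFX 0 false true true .npn 1 0 1 (qsf 536870912 536870912 536870912 536870912 0) ndF7q1 ndF3q1 pcF0 Cut.none Ext.none)

def k0_pp_101 : ∃ t, chk3 f_pp_101 t 1 1 1 = true :=
  ⟨(l 3), by decide +kernel⟩

theorem c_pp_101 : CertFX 536870912 536870912 536870912 536870912 1046898278 26843546 false true true .npn 1 0 1
    ndF7q1 ndF3q1 pcF0 Cut.none Ext.none :=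
  certFX0 (fam := false) (s1 := true) (s2 := true) (a := 1) (b := 0) (c := 1) (cn := .npn) (n1 := ndF7q1) (n2 := ndF3q1) (pc := pcF0) (cut := Cut.none) (xt := Ext.none) (P1 := 536870912) (W1 := 536870912) (P2 := 536870912) (W2 := 536870912) (P3 := 1046898278) (W3 := 26843546)
    rfl k0_pp_101

noncomputable def cut_pp_102 : Cut := Cut.of [[⟨0, 1, 0, 67108864⟩, ⟨1, 0, 0, 67108864⟩, ⟨2, 1, 0, 67108864⟩]]

noncomputable def f_pp_102 : ℕ → ℕ → ℕ → ℕ → Bool := onCell 536870912 536870912 1073741824 536870912 1046898278 26843546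
    (rowFX 0 false true true .npp 1 0 2 (qsf 536870912 536870912 1073741824 536870912 0) ndF7q1 ndF3q2 pcF0 cut_pp_102 Ext.none)

def k0_pp_102 : ∃ t, chk3 f_pp_102 t 2 2 1 = true :=
  ⟨(b (a (b (c (b (l 15903376) (l 16038456)) (b (l 15838904) (l 15996768))) (c (l 16010400) (l 15990480))) (b (a (b (c (l 16004648) (l 15966192)) (l 16091576)) (b (c (l 16373464) (l 16348480)) (l 16370352))) (a (l 15988608) (b (l 16467480) (l 16333376))))) (a (b (b (l 15828440) (l 2)) (l 2)) (b (a (b (l 15902464) (l 16168216)) (b (l 16143280) (l 16374608))) (a (l 16613872) (l 16236080))))), by decide +kernel⟩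

def k1_pp_102 : ∃ t, chk3 f_pp_102 t 6 2 1 = true :=
  ⟨(b (b (a (b (a (b (l 16213704) (l 16341064)) (b (a (c (l 16206152) (l 16218408)) (l 16214376)) (a (l 16197112) (c (l 16128592) (l 16148704))))) (c (l 16063280) (l 16168744))) (b (a (c (b (l 16315528) (l 16119464)) (b (l 16267824) (l 16141840))) (b (c (a (l 16295664) (l 16257424)) (b (l 16245240) (l 16270000))) (c (l 16109840) (l 16135360)))) (a (b (a (l 15964144) (l 15953528)) (a (l 15902648) (l 15805096))) (c (b (l 15940072) (l 15764832)) (l 15843664))))) (a (b (l 16154592) (l 16185432)) (b (a (l 15823320) (a (l 15574536) (b (l 15596424) (l 15509144)))) (a (l 15866248) (l 15591096))))) (b (a (b (l 16238536) (l 16091840)) (b (l 15641960) (l 15624944))) (a (b (l 15881376) (l 15782256)) (b (l 15347168) (l 15212768))))), by decide +kernel⟩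

def k2_pp_102 : ∃ t, chk3 f_pp_102 t 14 2 1 = true :=
  ⟨(a (b (b (b (c (b (a (l 16266808) (a (l 16255560) (c (l 16115912) (l 16203784)))) (a (l 16082824) (l 16073776))) (b (b (a (l 16328280) (a (l 16318088) (l 16290920))) (l 16227112)) (l 16084240))) (a (b (l 15922504) (l 15732896)) (c (b (l 15925320) (l 15756640)) (l 15829480)))) (b (c (l 15533000) (l 15507168)) (a (l 15394000) (c (l 15355960) (l 15321296))))) (b (b (c (l 15417656) (l 15391432)) (l 15195904)) (b (l 14868064) (l 14707264)))) (b (b (b (c (b (b (a (c (a (l 16354080) (l 16379512)) (l 16378952)) (c (a (l 16407408) (l 16348784)) (a (l 16447208) (a (l 16479248) (l 16427624))))) (c (a (a (l 16199112) (l 16210240)) (l 16119832)) (a (l 16232952) (l 16192072)))) (b (a (c (l 15931712) (l 16133936)) (c (l 16111840) (l 16175136))) (a (l 16026504) (c (l 15941496) (l 16073160))))) (b (b (a (l 16241992) (b (a (l 16494952) (l 16521864)) (l 16440912))) (a (l 16195480) (l 16339992))) (a (l 16116464) (b (l 16220808) (l 16103848)))))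 (c (b (c (a (l 15903040) (l 15859984)) (a (l 15942864) (l 15854576))) (c (a (l 15755824) (l 15728936)) (l 15768488))) (b (l 15943752) (l 15760288)))) (b (c (a (l 15557200) (c (l 15551560) (l 15576928))) (l 15555264)) (c (l 15311688) (l 15349080)))) (b (b (c (b (l 15263016) (a (l 15265920) (l 15187672))) (b (l 15256952) (l 15224872))) (c (l 14961208) (l 14946440))) (b (l 14341112) (l 14246608))))), by decide +kernel⟩

def k3_pp_102 : ∃ t, chk3 f_pp_102 t 30 8 1 = true :=
  ⟨(a (b (a (c (b (b (c (c (b (a (l 16478208) (l 16450800)) (l 16394400)) (l 16464616)) (c (l 16438312) (l 16466592))) (c (l 16198552) (l 16213088))) (c (l 16087568) (l 16178040))) (b (b (b (l 16518152) (l 16466992)) (l 16348488)) (l 16222648))) (c (b (b (b (l 6) (c (c (l 16406600) (l 16436640)) (l 16459696))) (c (c (b (a (l 16325768) (l 16345584)) (l 16257800)) (l 16318232)) (c (l 16356376) (l 16402984)))) (c (b (l 16177880) (l 16057992)) (b (l 16242688) (l 16148136)))) (b (b (c (l 16545528) (l 16517552)) (b (l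 16420344) (l 16339320))) (b (l 16276056) (l 16207640))))) (c (c (b (l 15844336) (l 15700392)) (b (b (l 16018488) (l 15906640)) (l 15754872))) (b (l 15952184) (l 15772360)))) (a (b (b (b (l 6) (c (c (b (l 6) (c (l 16296536) (l 16308840))) (l 16264232)) (c (l 16420304) (l 16494264)))) (c (c (b (c (b (l 16233664) (l 16169128)) (l 16221152)) (l 16096928)) (b (l 16284184) (l 16179304))) (c (b (l 16278056) (l 16246152)) (l 16273608)))) (c (b (c (l 15928936) (b (l 16060216) (l 15937856))) (c (l 15582472) (l 15753808))) (b (c (l 15981864) (l 16045696)) (c (l 15787856) (l 15785672))))) (b (b (l 6) (c (a (c (b (c (l 16230872) (l 16244080)) (l 16128040)) (l 16179224)) (c (b (l 6) (c (l 16140312) (l 16156888))) (l 16167032))) (c (b (l 16296000) (l 16190664)) (l 16305368)))) (c (b (a (c (l 15961160) (l 15828184)) (b (c (l 16042824) (l 16099848)) (l 15912632))) (c (l 15746488) (l 15775152))) (b (b (c (a (l 16141880) (l 16159232)) (l 16162408)) (c (l 16013608) (l 16022656))) (c (l 15816024) (l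 15822696))))))), by decide +kernel⟩

def k4_pp_102 : ∃ t, chk3 f_pp_102 t 30 9 1 = true :=
  ⟨(c (b (a (a (l 15476600) (c (l 15522904) (l 15566808))) (b (a (l 15582200) (l 15441104)) (l 15393072))) (a (c (l 15351632) (l 15392856)) (c (l 15362248) (l 15386648)))) (b (b (a (l 15633096) (c (a (l 15628960) (l 15631080)) (l 15630848))) (a (l 15542368) (l 15449080))) (a (l 15404672) (c (l 15417160) (l 15416288))))), by decide +kernel⟩

def k5_pp_102 : ∃ t, chk3 f_pp_102 t 30 5 1 = true :=
  ⟨(b (b (b (c (a (l 15263688) (l 15286936)) (l 15299832)) (c (a (l 15167776) (l 15189560)) (a (l 15192944) (l 15218848)))) (a (b (c (a (l 14914616) (l 14881392)) (l 14921112)) (c (l 14667040) (l 14676776))) (c (b (l 14887008) (l 14553384)) (b (l 14907272) (a (l 14590864) (l 14568248)))))) (a (b (c (l 14385616) (l 14386128)) (l 14030712)) (b (c (b (l 14337616) (l 14148816)) (b (a (l 14373168) (l 14307016)) (l 14145560))) (c (l 14044592) (l 14037776))))), by decide +kernel⟩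

def k6_pp_102 : ∃ t, chk3 f_pp_102 t 31 8 1 = true :=
  ⟨(a (a (b (a (a (b (l 6) (b (l 6) (c (b (l 6) (c (l 16140648) (l 16192368))) (c (l 16287496) (l 16309424))))) (l 6)) (l 6)) (c (b (c (b (c (a (l 16062536) (b (l 16078368) (l 16066576))) (l 16089080)) (l 15980328)) (b (l 16125208) (l 16014288))) (c (l 15805960) (l 15819320))) (b (c (b (c (l 16160688) (l 16186840)) (c (l 16038160) (l 16063600))) (b (l 16198944) (l 16074640))) (c (l 15830528) (l 15871432))))) (b (l 6) (c (b (a (c (b (c (l 16039728) (l 16128160)) (l 16026296)) (l 16096048)) (c (b (l 6) (c (l 15966520) (l 16057848))) (l 16095160))) (b (c (l 15935232) (l 15942264)) (l 15813880))) (b (c (b (l 16192648) (l 16079152)) (b (l 16219152) (l 16104392))) (c (b (l 15958032) (l 15825840)) (b (l 15981872) (l 15848112))))))) (b (l 6) (b (a (a (b (l 6) (c (b (l 6) (c (l 16017296) (l 16066600))) (c (l 16092208) (l 16118752)))) (l 6)) (l 6)) (c (c (a (b (c (a (l 15974416) (l 16005232)) (l 15994464)) (l 15883152)) (b (c (l 16046504)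 (a (l 16028496) (l 6))) (c (a (l 15924144) (l 15954064)) (l 15932760)))) (a (l 15933984) (l 15978960))) (a (c (l 15803080) (c (a (l 15935440) (l 15945896)) (b (l 16011400) (l 15891464)))) (c (l 15971424) (c (l 15966456) (a (l 15968992) (l 15976552))))))))), by decide +kernel⟩

def k7_pp_102 : ∃ t, chk3 f_pp_102 t 31 9 1 = true :=
  ⟨(b (c (a (b (c (l 15646576) (l 15643256)) (a (l 15498784) (l 15529520))) (b (a (l 15738544) (b (l 15842864) (l 15768040))) (a (l 15582432) (l 15646856)))) (a (c (b (a (l 15645544) (l 15677856)) (a (l 15525200) (l 15534344))) (b (a (l 15663080) (l 15698440)) (l 15545592))) (a (c (l 15624808) (b (c (l 15735648) (l 15743944)) (l 15585912))) (b (c (l 15789408) (a (l 15711912) (l 15799496))) (c (l 15628496) (l 15626640)))))) (c (a (b (l 15421592) (l 15375056)) (b (b (l 15506040) (l 15464088)) (l 15424552))) (a (c (a (l 15412008) (l 15408712)) (l 15424360)) (c (b (l 15467296) (l 15405488)) (b (a (l 15463328) (l 15484608)) (l 15412312)))))), by decide +kernel⟩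

def k8_pp_102 : ∃ t, chk3 f_pp_102 t 31 5 1 = true :=
  ⟨(b (b (c (b (l 15347360) (l 15262344)) (a (c (l 15117536) (l 15297208)) (c (l 15313848) (b (l 15363392) (l 15280296))))) (c (a (l 14740392) (l 14798864)) (a (c (l 14740896) (l 14745096)) (c (l 14767440) (l 14766016))))) (b (c (a (b (l 14253808) (l 14016368)) (l 14119176)) (a (b (c (l 14242888) (l 14239472)) (c (l 13999632) (l 13992344))) (c (l 14071872) (b (l 14221016) (l 13895752))))) (c (a (l 13904968) (l 13800992)) (a (c (l 13885416) (l 13876240)) (c (l 13745824) (b (l 13730328) (l 13726488))))))), by decide +kernel⟩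

def k9_pp_102 : ∃ t, chk3 f_pp_102 t 1 3 1 = true :=
  ⟨(a (a (l 2) (b (a (l 2) (l 16248360)) (l 2))) (a (b (a (l 15761152) (b (l 15212584) (l 15212584))) (a (l 2) (l 15212584))) (b (b (a (c (l 14511856) (l 14539088)) (a (c (l 14124568) (l 14110352)) (c (b (l 13853368) (l 13853368)) (c (b (l 13819208) (l 13819208)) (a (l 13875936) (l 13726488)))))) (a (c (l 14595736) (l 14539088)) (c (l 13747240) (a (l 14110352) (l 13819696))))) (a (c (l 14595736) (l 14539088)) (c (a (l 14124568) (l 13853368)) (a (l 14110352) (b (l 13819696) (l 13819696)))))))), by decide +kernel⟩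

theorem s10_pp_102 : ∃ t, chk3 f_pp_102 t 31 4 1 = true := ex3_b k6_pp_102 k7_pp_102

theorem s11_pp_102 : ∃ t, chk3 f_pp_102 t 31 2 1 = true := ex3_b s10_pp_102 k8_pp_102

theorem s12_pp_102 : ∃ t, chk3 f_pp_102 t 30 4 1 = true := ex3_b k3_pp_102 k4_pp_102

theorem s13_pp_102 : ∃ t, chk3 f_pp_102 t 30 2 1 = true := ex3_b s12_pp_102 k5_pp_102

theorem s14_pp_102 : ∃ t, chk3 f_pp_102 t 15 2 1 = true := ex3_a s13_pp_102 s11_pp_102

theorem s15_pp_102 : ∃ t, chk3 f_pp_102 t 7 2 1 = true := ex3_a k2_pp_102 s14_pp_102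

theorem s16_pp_102 : ∃ t, chk3 f_pp_102 t 3 2 1 = true := ex3_a k1_pp_102 s15_pp_102

theorem s17_pp_102 : ∃ t, chk3 f_pp_102 t 1 2 1 = true := ex3_a k0_pp_102 s16_pp_102

theorem s18_pp_102 : ∃ t, chk3 f_pp_102 t 1 1 1 = true := ex3_b s17_pp_102 k9_pp_102

theorem c_pp_102 : CertFX 536870912 536870912 1073741824 536870912 1046898278 26843546 false true true .npp 1 0 2
    ndF7q1 ndF3q2 pcF0 cut_pp_102 Ext.none :=
  certFX0 (fam := false) (s1 := true) (s2 := true) (a := 1) (b := 0) (c := 2) (cn := .npp) (n1 := ndF7q1) (n2 := ndF3q2) (pc := pcF0) (cut := cut_pp_102) (xt := Ext.none) (P1 := 536870912) (W1 := 536870912) (P2 := 1073741824) (W2 := 536870912) (P3 := 1046898278) (W3 := 26843546)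
    rfl s18_pp_102

noncomputable def f_pp_112 : ℕ → ℕ → ℕ → ℕ → Bool := onCell 536870912 536870912 536870912 536870912 1046898278 26843546
    (rowFX 1 false true true .dn 1 1 2 (qsf 536870912 536870912 1073741824 536870912 1) ndF7q1 ndF3q2 pcF1 Cut.none Ext.none)

def k0_pp_112 : ∃ t, chk3 f_pp_112 t 1 1 1 = true :=
  ⟨(b (a (a (b (a (b (a (b (l 15757520) (l 16044696)) (l 16016272)) (a (l 15948928) (l 15884056))) (b (a (l 15948928) (l 15905024)) (a (l 16173448) (l 16489600)))) (b (a (a (l 16173448) (l 16489600)) (l 16725376)) (a (l 16725376) (l 16777216)))) (b (a (b (a (b (l 15993536) (l 16353640)) (l 16573328)) (l 16647992)) (b (l 16260832) (l 16248360))) (a (l 16644320) (l 16248360)))) (a (b (a (l 15782128) (l 15212584)) (l 15315864)) (b (a (c (l 14595736) (l 14539088)) (c (l 13998896) (b (l 13985328) (l 13985328)))) (a (l 14550992) (l 2))))) (b (a (a (l 16773040) (b (l 16456008) (l 16447048))) (a (b (l 15507256) (l 2)) (l 2))) (a (a (b (l 16356704) (l 15593912)) (b (l 15980608)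 (l 2))) (l 2)))), by decide +kernel⟩

theorem c_pp_112 : CertFX 536870912 536870912 1073741824 536870912 1046898278 26843546 false true true .dn 1 1 2
    ndF7q1 ndF3q2 pcF1 Cut.none Ext.none :=
  certFX1 (fam := false) (s1 := true) (s2 := true) (a := 1) (b := 1) (c := 2) (cn := .dn) (n1 := ndF7q1) (n2 := ndF3q2) (pc := pcF1) (cut := Cut.none) (xt := Ext.none) (P1 := 536870912) (W1 := 536870912) (P2 := 1073741824) (W2 := 536870912) (P3 := 1046898278) (W3 := 26843546)
    rfl (fun _ => rfl) k0_pp_112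

noncomputable def f_pp_113 : ℕ → ℕ → ℕ → ℕ → Bool := onCell 536870912 536870912 536870912 536870912 1046898278 26843546
    (rowFX 1 false true true .nn 1 1 3 (qsf 536870912 536870912 1610612736 536870912 1) ndF7q1 ndF3q3 pcF1 Cut.none Ext.none)

def k0_pp_113 : ∃ t, chk3 f_pp_113 t 1 1 1 = true :=
  ⟨(b (a (a (l 1) (b (l 1) (l 16453240))) (a (b (l 519721548727) (a (l 15782128) (l 15212584))) (b (a (l 441336488343) (c (l 13998896) (b (l 13985328) (l 13985328)))) (a (l 14488072) (c (l 13998896) (l 13985328)))))) (b (a (a (l 16773040) (b (l 16456008) (l 16447048))) (a (b (l 15507256) (l 15491776)) (b (a (l 14553520) (l 14003208)) (a (l 14531624) (l 13975456))))) (a (a (b (l 16356704) (l 15593912)) (b (l 15980608) (b (l 15349608) (l 14825544)))) (a (b (l 14974928) (b (l 14280568) (l 13696088))) (b (a (l 13978520) (l 13399368)) (b (a (l 13305304) (l 12877384)) (a (l 12788080) (b (l 12768512) (c (l 13887688) (l 11871976)))))))))), by decide +kernel⟩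

theorem c_pp_113 : CertFX 536870912 536870912 1610612736 536870912 1046898278 26843546 false true true .nn 1 1 3
    ndF7q1 ndF3q3 pcF1 Cut.none Ext.none :=
  certFX1 (fam := false) (s1 := true) (s2 := true) (a := 1) (b := 1) (c := 3) (cn := .nn) (n1 := ndF7q1) (n2 := ndF3q3) (pc := pcF1) (cut := Cut.none) (xt := Ext.none) (P1 := 536870912) (W1 := 536870912) (P2 := 1610612736) (W2 := 536870912) (P3 := 1046898278) (W3 := 26843546)
    rfl (fun _ => rfl) k0_pp_113

noncomputable def f_pp_123 : ℕ → ℕ → ℕ → ℕ → Bool := onCell 1073741824 536870912 1610612736 536870912 1046898278 26843546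
    (rowFX 2 false true true .npn 1 2 3 (qsf 536870912 536870912 1610612736 536870912 2) ndF7q1 ndF3q3 pcF2 Cut.none Ext.none)

def k0_pp_123 : ∃ t, chk3 f_pp_123 t 1 1 1 = true :=
  ⟨(a (a (b (a (b (l 14760304) (b (l 14609792) (l 14336864))) (b (l 14959016) (a (l 14791872) (l 14942400)))) (b (a (b (l 13970976) (l 13654008)) (a (l 14433632) (l 14771920))) (a (b (c (l 14524640) (l 14319712)) (c (a (l 15053856) (l 14798872)) (a (l 14310976) (l 14406800)))) (b (a (l 14534736) (l 14999032)) (l 4))))) (b (a (b (l 534753755431) (l 15390448)) (a (l 15866640) (l 16131208))) (b (a (a (l 15165016) (l 15538176)) (l 4)) (l 4)))) (b (a (a (l 550325228503) (l 1)) (l 1)) (l 4))), by decide +kernel⟩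

theorem c_pp_123 : CertFX 536870912 536870912 1610612736 536870912 1046898278 26843546 false true true .npn 1 2 3
    ndF7q1 ndF3q3 pcF2 Cut.none Ext.none :=
  certFX2 (fam := false) (s1 := true) (s2 := true) (a := 1) (b := 2) (c := 3) (cn := .npn) (n1 := ndF7q1) (n2 := ndF3q3) (pc := pcF2) (cut := Cut.none) (xt := Ext.none) (P1 := 536870912) (W1 := 536870912) (P2 := 1610612736) (W2 := 536870912) (P3 := 1046898278) (W3 := 26843546)
    rfl (fun _ => rfl) k0_pp_123

noncomputable def f_pp_133 : ℕ → ℕ → ℕ → ℕ → Bool := onCell 1610612736 536870912 1610612736 536870912 1046898278 26843546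
    (rowFX 2 false true true .dn 1 3 3 (qsf 536870912 536870912 1610612736 536870912 3) ndF7q1 ndF3q3 pcF3 Cut.none Ext.none)

def k0_pp_133 : ∃ t, chk3 f_pp_133 t 1 1 1 = true :=
  ⟨(l 4), by decide +kernel⟩

theorem c_pp_133 : CertFX 536870912 536870912 1610612736 536870912 1046898278 26843546 false true true .dn 1 3 3
    ndF7q1 ndF3q3 pcF3 Cut.none Ext.none :=
  certFX2 (fam := false) (s1 := true) (s2 := true) (a := 1) (b := 3) (c := 3) (cn := .dn) (n1 := ndF7q1) (n2 := ndF3q3) (pc := pcF3) (cut := Cut.none) (xt := Ext.none) (P1 := 536870912) (W1 := 536870912) (P2 := 1610612736) (W2 := 536870912) (P3 := 1046898278) (W3 := 26843546)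
    rfl (fun _ => rfl) k0_pp_133

noncomputable def cut_pp_202 : Cut := Cut.of [[⟨0, 1, 0, 67108864⟩, ⟨1, 0, 0, 67108864⟩, ⟨2, 1, 0, 67108864⟩]]

noncomputable def f_pp_202 : ℕ → ℕ → ℕ → ℕ → Bool := onCell 1073741824 536870912 0 536870912 1046898278 26843546
    (rowFX 1 false true true .pp 2 0 2 (qsf 1073741824 536870912 1073741824 536870912 0) ndF7q2 ndF3q2 pcF0 cut_pp_202 Ext.none)

def k0_pp_202 : ∃ t, chk3 f_pp_202 t 4 2 1 = true :=
  ⟨(a (b (b (a (a (a (b (l 6) (b (l 6) (c (c (b (c (l 16080400) (l 16064752)) (c (l 15980104) (l 15966048))) (l 16006952)) (c (l 15999600) (c (l 15994968) (b (l 16047208) (l 15868568))))))) (l 3)) (l 3)) (l 3)) (a (a (b (c (b (b (l 15921040) (l 15861112)) (l 15747960)) (b (c (l 15880056) (a (c (l 15845488) (l 15788504)) (l 2436485882695))) (c (l 15734680) (a (l 15695208) (l 15790536))))) (c (b (l 15626048) (l 15546088)) (c (l 15569432) (b (l 15578208) (l 15538416))))) (a (b (a (l 3) (l 3)) (c (l 15713584) (c (l 15723904) (l 15746056)))) (b (l 3)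 (c (l 1021830644647) (b (l 3) (l 516635116727)))))) (b (l 3) (l 3)))) (b (a (b (c (b (a (l 15477144) (l 15507128)) (a (l 15284904) (l 15177480))) (a (b (c (l 15459992) (l 15405144)) (c (l 15264016) (l 15017936))) (b (c (l 15398408) (l 15538800)) (l 15143048)))) (c (l 14713784) (a (c (l 14736496) (l 14734552)) (c (l 14656440) (l 14658616))))) (b (c (a (l 15047016) (l 216523053831)) (a (l 15117952) (l 15199736))) (c (a (b (l 14753440) (l 14473808)) (c (l 14648672) (l 14510664))) (a (b (l 14767496) (l 14479288)) (l 14669552))))) (b (a (c (b (l 14235752) (l 14005632)) (a (b (l 14207944) (c (l 13910400) (l 13895800))) (c (b (l 14193960) (l 14011800)) (l 14105504)))) (c (c (l 14317168) (l 14331224)) (l 14320192))) (c (a (l 13874488) (c (l 14167816) (l 14179320))) (a (b (c (l 13847408) (l 13839712)) (l 13794144)) (b (l 14173400) (l 14157040))))))) (b (l 3) (b (b (l 3) (c (a (l 549919245415) (l 3)) (l 240144971255))) (b (c (a (l 14658608) (l 14978952)) (a (l 14630328) (l 14933688))) (c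 (a (b (l 14525352) (l 14506136)) (l 14847264)) (b (l 14569544) (l 14632392))))))), by decide +kernel⟩

def k1_pp_202 : ∃ t, chk3 f_pp_202 t 5 2 1 = true :=
  ⟨(b (l 3) (b (l 3) (b (l 3) (a (c (l 15349360) (a (l 15175424) (l 15528864))) (l 3))))), by decide +kernel⟩

def k2_pp_202 : ∃ t, chk3 f_pp_202 t 3 2 1 = true :=
  ⟨(a (l 3) (l 3)), by decide +kernel⟩

def k3_pp_202 : ∃ t, chk3 f_pp_202 t 1 3 1 = true :=
  ⟨(a (a (b (c (a (b (a (l 13869312) (c (l 14160720) (l 14172096))) (b (a (l 13869312) (l 14172216)) (l 14031584))) (b (a (l 14464192) (l 14837472)) (a (l 14506136) (l 14837472)))) (a (b (a (c (l 13835584) (b (l 13827688) (l 13827688))) (c (l 14174088) (l 14146584))) (b (a (l 13731232) (l 14157040)) (a (l 13836088) (l 14157040)))) (b (b (l 14632392) (l 14632392)) (b (l 14632392) (l 14632392))))) (a (c (a (l 13869312) (l 14172216)) (a (b (l 13836088) (l 13836088)) (l 14157040))) (c (a (l 14506136) (l 14837472)) (l 14632392)))) (a (b (b (c (l 15277328) (b (l 15345952) (l 15345952)))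 (c (l 15298296) (b (l 15345952) (l 15345952)))) (b (b (c (l 15382184) (l 15345952)) (l 2)) (l 2))) (b (b (c (l 15848752) (b (l 15953736) (l 15953736))) (c (l 15974584) (l 15953736))) (l 2)))) (b (b (a (b (l 3) (l 2)) (l 2)) (l 2)) (l 2))), by decide +kernel⟩

theorem s4_pp_202 : ∃ t, chk3 f_pp_202 t 2 2 1 = true := ex3_a k0_pp_202 k1_pp_202

theorem s5_pp_202 : ∃ t, chk3 f_pp_202 t 1 2 1 = true := ex3_a s4_pp_202 k2_pp_202

theorem s6_pp_202 : ∃ t, chk3 f_pp_202 t 1 1 1 = true := ex3_b s5_pp_202 k3_pp_202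

theorem c_pp_202 : CertFX 1073741824 536870912 1073741824 536870912 1046898278 26843546 false true true .pp 2 0 2
    ndF7q2 ndF3q2 pcF0 cut_pp_202 Ext.none :=
  certFX1 (fam := false) (s1 := true) (s2 := true) (a := 2) (b := 0) (c := 2) (cn := .pp) (n1 := ndF7q2) (n2 := ndF3q2) (pc := pcF0) (cut := cut_pp_202) (xt := Ext.none) (P1 := 1073741824) (W1 := 536870912) (P2 := 1073741824) (W2 := 536870912) (P3 := 1046898278) (W3 := 26843546)
    rfl (fun _ => rfl) s6_pp_202

end Pool.Agent.Strip051.G.IE1.Tab.C.FB73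

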