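import Pool.Agent.Strip051.G.IE1.Fact
import Pool.Agent.Strip051.PB.BridgeX

/-! # Rows from certificates (generated) -/

set_option linter.all false
set_option maxRecDepth 100000

namespace Pool.Agent.Strip051.G.IE1.Tab

open Pool.Agent.Strip051.PB Pool.Agent.StripNear Pool.Agent.Strip051.LC


theorem xa0 {x : ℝ} (hx : 39 / 40 ≤ x) : 0 ≤ x := by linarith

theorem ka0 {κ x : ℝ} (hκ : κ * h0 = kenE x) (hx : 39 / 40 ≤ x) (hx' : x < 1) : 0 ≤ κ := by
  have h1 : (0 : ℝ) < x := by linarith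
  have h2 := ken_nonneg h1.le hx'.le
  rw [← kenE_eq h1 hx', ← hκ] at h2
  exact nonneg_of_mul_nonneg_left h2 h0_pos

theorem nr4_1 {x : ℝ} : ∀ y, InQ 1 y → ¬(DD x).r 4 y := by
  intro y h hr
  have h1 : y ≤ 1 / 16 := hr
  have h2 := h.1
  linarith

theorem nr4_2 {x : ℝ} : ∀ y, InQ 2 y → ¬(DD x).r 4 y := by
  intro y h hr
  have h1 : y ≤ 1 / 16 := hr
  have h2 := h.1
  linarith

theorem nr4_3 {x : ℝ} : ∀ y, InQ 3 y → ¬(DD x).r 4 y := by
  intro y h hr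
  have h1 : y ≤ 1 / 16 := hr
  have h2 := h.1
  linarith

end Pool.Agent.Strip051.G.IE1.Tab
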