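import Pool.Agent.Strip051.G.IE1.Hyq

/-! # Rests near the full period: the cubes (generated) -/

set_option linter.all false

namespace Pool.Agent.Strip051.G.IE1.Tab

open Pool.Agent.StripNear Pool.Agent.StripSquare Pool.Agent.Strip051 Pool.Agent.Strip051.Sweep
open Pool.Agent.Strip051.PB
open Pool.Agent.Strip051.LC
open Pool.Agent.Strip051.LC.E1

theorem qN_A00pp_011_011 {κ x : ℝ} (hκ : κ * h0 = kenE x) (hx : 39 / 40 ≤ x) (hx' : x < 1) :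
    AltVA (VND 3 κ) (DD x) tKN tL pcN [⟨0, 0, 0, 67108864⟩, ⟨1, 1, 0, 67108864⟩, ⟨2, 1, 0, 67108864⟩]
      0 1 1 0 0 (sgb true) (sgb true) x :=
  aNA3 hκ hx hx' (by decide)

theorem qN_A00pp_012_011 {κ x : ℝ} (hκ : κ * h0 = kenE x) (hx : 39 / 40 ≤ x) (hx' : x < 1) :
    AltVA (VND 3 κ) (DD x) tKN tL pcN [⟨0, 0, 0, 67108864⟩, ⟨1, 1, 0, 67108864⟩, ⟨2, 1, 0, 67108864⟩]
      0 1 2 0 0 (sgb true) (sgb true) x :=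
  aNA3 hκ hx hx' (by decide)

theorem qN_A00pp_022_011 {κ x : ℝ} (hκ : κ * h0 = kenE x) (hx : 39 / 40 ≤ x) (hx' : x < 1) :
    AltVA (VND 3 κ) (DD x) tKN tL pcN [⟨0, 0, 0, 67108864⟩, ⟨1, 1, 0, 67108864⟩, ⟨2, 1, 0, 67108864⟩]
      0 2 2 0 0 (sgb true) (sgb true) x :=
  aNA3 hκ hx hx' (by decide)

theorem qN_A00pm_011_011 {κ x : ℝ} (hκ : κ * h0 = kenE x) (hx : 39 / 40 ≤ x) (hx' : x < 1) :
    AltVA (VND 3 κ) (DD x) tKN tL pcN [⟨0, 0, 0, 67108864⟩, ⟨1, 1, 0, 67108864⟩, ⟨2, 1, 0, 67108864⟩, ⟨3, 0, 0, 1233125376⟩]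
      0 1 1 0 0 (sgb true) (sgb false) x :=
  aNA1 hκ hx hx' (by decide) (by decide)

theorem qN_A00pm_012_011 {κ x : ℝ} (hκ : κ * h0 = kenE x) (hx : 39 / 40 ≤ x) (hx' : x < 1) :
    AltVA (VND 3 κ) (DD x) tKN tL pcN [⟨0, 0, 0, 67108864⟩, ⟨1, 1, 0, 67108864⟩, ⟨2, 1, 0, 67108864⟩, ⟨3, 0, 0, 1233125376⟩]
      0 1 2 0 0 (sgb true) (sgb false) x :=
  aNA1 hκ hx hx' (by decide) (by decide)

theorem qN_A00pm_022_011 {κ x : ℝ} (hκ : κ * h0 = kenE x) (hx : 39 / 40 ≤ x) (hx' : x < 1) :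
    AltVA (VND 3 κ) (DD x) tKN tL pcN [⟨0, 0, 0, 67108864⟩, ⟨1, 1, 0, 67108864⟩, ⟨2, 1, 0, 67108864⟩, ⟨3, 0, 0, 1233125376⟩]
      0 2 2 0 0 (sgb true) (sgb false) x :=
  aNA1 hκ hx hx' (by decide) (by decide)

theorem qN_A00pm_101_101 {κ x : ℝ} (hκ : κ * h0 = kenE x) (hx : 39 / 40 ≤ x) (hx' : x < 1) :
    AltVA (VND 3 κ) (DD x) tKN tL pcN [⟨0, 1, 0, 67108864⟩, ⟨1, 0, 0, 67108864⟩, ⟨2, 1, 0, 67108864⟩, ⟨3, 0, 0, 1233125376⟩]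
      1 0 1 0 0 (sgb true) (sgb false) x :=
  aNA1m hκ hx hx' (by decide) (by decide)

theorem qN_A00pm_102_101 {κ x : ℝ} (hκ : κ * h0 = kenE x) (hx : 39 / 40 ≤ x) (hx' : x < 1) :
    AltVA (VND 3 κ) (DD x) tKN tL pcN [⟨0, 1, 0, 67108864⟩, ⟨1, 0, 0, 67108864⟩, ⟨2, 1, 0, 67108864⟩, ⟨3, 0, 0, 1233125376⟩]
      1 0 2 0 0 (sgb true) (sgb false) x :=
  aNA1m hκ hx hx' (by decide) (by decide)

theorem qN_A00pm_113_112 {κ x : ℝ} (hκ : κ * h0 = kenE x) (hx : 39 / 40 ≤ x) (hx' : x < 1) :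
    AltVA (VND 3 κ) (DD x) tKN tL pcN [⟨0, 1, 0, 67108864⟩, ⟨1, 1, 0, 67108864⟩, ⟨2, 2, 0, 67108864⟩]
      1 1 3 0 0 (sgb true) (sgb false) x :=
  aNAv hκ hx hx' (by decide) (by decide)

theorem qN_A00pm_123_112 {κ x : ℝ} (hκ : κ * h0 = kenE x) (hx : 39 / 40 ≤ x) (hx' : x < 1) :
    AltVA (VND 3 κ) (DD x) tKN tL pcN [⟨0, 1, 0, 67108864⟩, ⟨1, 1, 0, 67108864⟩, ⟨2, 2, 0, 67108864⟩]
      1 2 3 0 0 (sgb true) (sgb false) x :=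
  aNAv hκ hx hx' (by decide) (by decide)

theorem qN_A00pm_202_101 {κ x : ℝ} (hκ : κ * h0 = kenE x) (hx : 39 / 40 ≤ x) (hx' : x < 1) :
    AltVA (VND 3 κ) (DD x) tKN tL pcN [⟨0, 1, 0, 67108864⟩, ⟨1, 0, 0, 67108864⟩, ⟨2, 1, 0, 67108864⟩, ⟨3, 0, 0, 1233125376⟩]
      2 0 2 0 0 (sgb true) (sgb false) x :=
  aNA1m hκ hx hx' (by decide) (by decide)

theorem qN_A00pm_213_112 {κ x : ℝ} (hκ : κ * h0 = kenE x) (hx : 39 / 40 ≤ x) (hx' : x < 1) :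
    AltVA (VND 3 κ) (DD x) tKN tL pcN [⟨0, 1, 0, 67108864⟩, ⟨1, 1, 0, 67108864⟩, ⟨2, 2, 0, 67108864⟩]
      2 1 3 0 0 (sgb true) (sgb false) x :=
  aNAv hκ hx hx' (by decide) (by decide)

theorem qN_A00mm_101_101 {κ x : ℝ} (hκ : κ * h0 = kenE x) (hx : 39 / 40 ≤ x) (hx' : x < 1) :
    AltVA (VND 3 κ) (DD x) tKN tL pcN [⟨0, 1, 0, 67108864⟩, ⟨1, 0, 0, 67108864⟩, ⟨2, 1, 0, 67108864⟩]
      1 0 1 0 0 (sgb false) (sgb false) x :=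
  aNA3m hκ hx hx' (by decide)

theorem qN_A00mm_102_101 {κ x : ℝ} (hκ : κ * h0 = kenE x) (hx : 39 / 40 ≤ x) (hx' : x < 1) :
    AltVA (VND 3 κ) (DD x) tKN tL pcN [⟨0, 1, 0, 67108864⟩, ⟨1, 0, 0, 67108864⟩, ⟨2, 1, 0, 67108864⟩]
      1 0 2 0 0 (sgb false) (sgb false) x :=
  aNA3m hκ hx hx' (by decide)

theorem qN_A00mm_202_101 {κ x : ℝ} (hκ : κ * h0 = kenE x) (hx : 39 / 40 ≤ x) (hx' : x < 1) :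
    AltVA (VND 3 κ) (DD x) tKN tL pcN [⟨0, 1, 0, 67108864⟩, ⟨1, 0, 0, 67108864⟩, ⟨2, 1, 0, 67108864⟩]
      2 0 2 0 0 (sgb false) (sgb false) x :=
  aNA3m hκ hx hx' (by decide)

theorem qN_A03pp_022_011 {κ x : ℝ} (hκ : κ * h0 = kenE x) (hx : 39 / 40 ≤ x) (hx' : x < 1) :
    AltVA (VND 3 κ) (DD x) tKN tL pcN [⟨0, 0, 0, 67108864⟩, ⟨1, 1, 0, 67108864⟩, ⟨2, 1, 0, 67108864⟩]
      0 2 2 0 3 (sgb true) (sgb true) x :=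
  aNA3 hκ hx hx' (by decide)

theorem qN_A03pm_011_011 {κ x : ℝ} (hκ : κ * h0 = kenE x) (hx : 39 / 40 ≤ x) (hx' : x < 1) :
    AltVA (VND 3 κ) (DD x) tKN tL pcN [⟨0, 0, 0, 67108864⟩, ⟨1, 1, 0, 67108864⟩, ⟨2, 1, 0, 67108864⟩]
      0 1 1 0 3 (sgb true) (sgb false) x :=
  aNA2 hκ hx hx' (by decide)

theorem qN_A03pm_012_011 {κ x : ℝ} (hκ : κ * h0 = kenE x) (hx : 39 / 40 ≤ x) (hx' : x < 1) :
    AltVA (VND 3 κ) (DD x) tKN tL pcN [⟨0, 0, 0, 67108864⟩, ⟨1, 1, 0, 67108864⟩, ⟨2, 1, 0, 67108864⟩]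
      0 1 2 0 3 (sgb true) (sgb false) x :=
  aNA2 hκ hx hx' (by decide)

theorem qN_A03pm_022_011 {κ x : ℝ} (hκ : κ * h0 = kenE x) (hx : 39 / 40 ≤ x) (hx' : x < 1) :
    AltVA (VND 3 κ) (DD x) tKN tL pcN [⟨0, 0, 0, 67108864⟩, ⟨1, 1, 0, 67108864⟩, ⟨2, 1, 0, 67108864⟩, ⟨3, 0, 0, 1233125376⟩]
      0 2 2 0 3 (sgb true) (sgb false) x :=
  aNA1 hκ hx hx' (by decide) (by decide)

theorem qN_A03pm_101_101 {κ x : ℝ} (hκ : κ * h0 = kenE x) (hx : 39 / 40 ≤ x) (hx' : x < 1) :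
    AltVA (VND 3 κ) (DD x) tKN tL pcN [⟨0, 1, 0, 67108864⟩, ⟨1, 0, 0, 67108864⟩, ⟨2, 1, 0, 67108864⟩, ⟨3, 0, 0, 1233125376⟩]
      1 0 1 0 3 (sgb true) (sgb false) x :=
  aNA1m hκ hx hx' (by decide) (by decide)

theorem qN_A03pm_102_101 {κ x : ℝ} (hκ : κ * h0 = kenE x) (hx : 39 / 40 ≤ x) (hx' : x < 1) :
    AltVA (VND 3 κ) (DD x) tKN tL pcN [⟨0, 1, 0, 67108864⟩, ⟨1, 0, 0, 67108864⟩, ⟨2, 1, 0, 67108864⟩, ⟨3, 0, 0, 1233125376⟩]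
      1 0 2 0 3 (sgb true) (sgb false) x :=
  aNA1m hκ hx hx' (by decide) (by decide)

theorem qN_A03pm_123_112 {κ x : ℝ} (hκ : κ * h0 = kenE x) (hx : 39 / 40 ≤ x) (hx' : x < 1) :
    AltVA (VND 3 κ) (DD x) tKN tL pcN [⟨0, 1, 0, 67108864⟩, ⟨1, 1, 0, 67108864⟩, ⟨2, 2, 0, 67108864⟩]
      1 2 3 0 3 (sgb true) (sgb false) x :=
  aNAv hκ hx hx' (by decide) (by decide)

theorem qN_A03pm_202_101 {κ x : ℝ} (hκ : κ * h0 = kenE x) (hx : 39 / 40 ≤ x) (hx' : x < 1) :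
    AltVA (VND 3 κ) (DD x) tKN tL pcN [⟨0, 1, 0, 67108864⟩, ⟨1, 0, 0, 67108864⟩, ⟨2, 1, 0, 67108864⟩, ⟨3, 0, 0, 1233125376⟩]
      2 0 2 0 3 (sgb true) (sgb false) x :=
  aNA1m hκ hx hx' (by decide) (by decide)

theorem qN_A03mm_101_101 {κ x : ℝ} (hκ : κ * h0 = kenE x) (hx : 39 / 40 ≤ x) (hx' : x < 1) :
    AltVA (VND 3 κ) (DD x) tKN tL pcN [⟨0, 1, 0, 67108864⟩, ⟨1, 0, 0, 67108864⟩, ⟨2, 1, 0, 67108864⟩]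
      1 0 1 0 3 (sgb false) (sgb false) x :=
  aNA3m hκ hx hx' (by decide)

theorem qN_A03mm_102_101 {κ x : ℝ} (hκ : κ * h0 = kenE x) (hx : 39 / 40 ≤ x) (hx' : x < 1) :
    AltVA (VND 3 κ) (DD x) tKN tL pcN [⟨0, 1, 0, 67108864⟩, ⟨1, 0, 0, 67108864⟩, ⟨2, 1, 0, 67108864⟩]
      1 0 2 0 3 (sgb false) (sgb false) x :=
  aNA3m hκ hx hx' (by decide)

theorem qN_A03mm_202_101 {κ x : ℝ} (hκ : κ * h0 = kenE x) (hx : 39 / 40 ≤ x) (hx' : x < 1) :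
    AltVA (VND 3 κ) (DD x) tKN tL pcN [⟨0, 1, 0, 67108864⟩, ⟨1, 0, 0, 67108864⟩, ⟨2, 1, 0, 67108864⟩]
      2 0 2 0 3 (sgb false) (sgb false) x :=
  aNA3m hκ hx hx' (by decide)

theorem qN_A04pm_101_101 {κ x : ℝ} (hκ : κ * h0 = kenE x) (hx : 39 / 40 ≤ x) (hx' : x < 1) :
    AltVA (VND 3 κ) (DD x) tKN tL pcN [⟨0, 1, 0, 67108864⟩, ⟨1, 0, 0, 67108864⟩, ⟨2, 1, 0, 67108864⟩, ⟨3, 0, 0, 1233125376⟩]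
      1 0 1 0 4 (sgb true) (sgb false) x :=
  aNA1m hκ hx hx' (by decide) (by decide)

theorem qN_A04pm_102_101 {κ x : ℝ} (hκ : κ * h0 = kenE x) (hx : 39 / 40 ≤ x) (hx' : x < 1) :
    AltVA (VND 3 κ) (DD x) tKN tL pcN [⟨0, 1, 0, 67108864⟩, ⟨1, 0, 0, 67108864⟩, ⟨2, 1, 0, 67108864⟩, ⟨3, 0, 0, 1233125376⟩]
      1 0 2 0 4 (sgb true) (sgb false) x :=
  aNA1m hκ hx hx' (by decide) (by decide)

theorem qN_A04pm_202_101 {κ x : ℝ} (hκ : κ * h0 = kenE x) (hx : 39 / 40 ≤ x) (hx' : x < 1) :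
    AltVA (VND 3 κ) (DD x) tKN tL pcN [⟨0, 1, 0, 67108864⟩, ⟨1, 0, 0, 67108864⟩, ⟨2, 1, 0, 67108864⟩, ⟨3, 0, 0, 1233125376⟩]
      2 0 2 0 4 (sgb true) (sgb false) x :=
  aNA1m hκ hx hx' (by decide) (by decide)

theorem qN_A04mm_101_101 {κ x : ℝ} (hκ : κ * h0 = kenE x) (hx : 39 / 40 ≤ x) (hx' : x < 1) :
    AltVA (VND 3 κ) (DD x) tKN tL pcN [⟨0, 1, 0, 67108864⟩, ⟨1, 0, 0, 67108864⟩, ⟨2, 1, 0, 67108864⟩]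
      1 0 1 0 4 (sgb false) (sgb false) x :=
  aNA3m hκ hx hx' (by decide)

theorem qN_A04mm_102_101 {κ x : ℝ} (hκ : κ * h0 = kenE x) (hx : 39 / 40 ≤ x) (hx' : x < 1) :
    AltVA (VND 3 κ) (DD x) tKN tL pcN [⟨0, 1, 0, 67108864⟩, ⟨1, 0, 0, 67108864⟩, ⟨2, 1, 0, 67108864⟩]
      1 0 2 0 4 (sgb false) (sgb false) x :=
  aNA3m hκ hx hx' (by decide)

theorem qN_A04mm_202_101 {κ x : ℝ} (hκ : κ * h0 = kenE x) (hx : 39 / 40 ≤ x) (hx' : x < 1) :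
    AltVA (VND 3 κ) (DD x) tKN tL pcN [⟨0, 1, 0, 67108864⟩, ⟨1, 0, 0, 67108864⟩, ⟨2, 1, 0, 67108864⟩]
      2 0 2 0 4 (sgb false) (sgb false) x :=
  aNA3m hκ hx hx' (by decide)

theorem qN_A07pm_011_011 {κ x : ℝ} (hκ : κ * h0 = kenE x) (hx : 39 / 40 ≤ x) (hx' : x < 1) :
    AltVA (VND 3 κ) (DD x) tKN tL pcN [⟨0, 0, 0, 67108864⟩, ⟨1, 1, 0, 67108864⟩, ⟨2, 1, 0, 67108864⟩]
      0 1 1 0 7 (sgb true) (sgb false) x :=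
  aNA2 hκ hx hx' (by decide)

theorem qN_A07pm_012_011 {κ x : ℝ} (hκ : κ * h0 = kenE x) (hx : 39 / 40 ≤ x) (hx' : x < 1) :
    AltVA (VND 3 κ) (DD x) tKN tL pcN [⟨0, 0, 0, 67108864⟩, ⟨1, 1, 0, 67108864⟩, ⟨2, 1, 0, 67108864⟩]
      0 1 2 0 7 (sgb true) (sgb false) x :=
  aNA2 hκ hx hx' (by decide)

theorem qN_A07pm_022_011 {κ x : ℝ} (hκ : κ * h0 = kenE x) (hx : 39 / 40 ≤ x) (hx' : x < 1) :
    AltVA (VND 3 κ) (DD x) tKN tL pcN [⟨0, 0, 0, 67108864⟩, ⟨1, 1, 0, 67108864⟩, ⟨2, 1, 0, 67108864⟩]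
      0 2 2 0 7 (sgb true) (sgb false) x :=
  aNA2 hκ hx hx' (by decide)

theorem qN_A33pp_022_011 {κ x : ℝ} (hκ : κ * h0 = kenE x) (hx : 39 / 40 ≤ x) (hx' : x < 1) :
    AltVA (VND 3 κ) (DD x) tKN tL pcN [⟨0, 0, 0, 67108864⟩, ⟨1, 1, 0, 67108864⟩, ⟨2, 1, 0, 67108864⟩]
      0 2 2 3 3 (sgb true) (sgb true) x :=
  aNA3 hκ hx hx' (by decide)

theorem qN_A33pm_011_011 {κ x : ℝ} (hκ : κ * h0 = kenE x) (hx : 39 / 40 ≤ x) (hx' : x < 1) :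
    AltVA (VND 3 κ) (DD x) tKN tL pcN [⟨0, 0, 0, 67108864⟩, ⟨1, 1, 0, 67108864⟩, ⟨2, 1, 0, 67108864⟩]
      0 1 1 3 3 (sgb true) (sgb false) x :=
  aNA2 hκ hx hx' (by decide)

theorem qN_A33pm_012_011 {κ x : ℝ} (hκ : κ * h0 = kenE x) (hx : 39 / 40 ≤ x) (hx' : x < 1) :
    AltVA (VND 3 κ) (DD x) tKN tL pcN [⟨0, 0, 0, 67108864⟩, ⟨1, 1, 0, 67108864⟩, ⟨2, 1, 0, 67108864⟩]
      0 1 2 3 3 (sgb true) (sgb false) x :=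
  aNA2 hκ hx hx' (by decide)

theorem qN_A33pm_022_011 {κ x : ℝ} (hκ : κ * h0 = kenE x) (hx : 39 / 40 ≤ x) (hx' : x < 1) :
    AltVA (VND 3 κ) (DD x) tKN tL pcN [⟨0, 0, 0, 67108864⟩, ⟨1, 1, 0, 67108864⟩, ⟨2, 1, 0, 67108864⟩, ⟨3, 0, 0, 1233125376⟩]
      0 2 2 3 3 (sgb true) (sgb false) x :=
  aNA1 hκ hx hx' (by decide) (by decide)

theorem qN_A33pm_101_101 {κ x : ℝ} (hκ : κ * h0 = kenE x) (hx : 39 / 40 ≤ x) (hx' : x < 1) :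
    AltVA (VND 3 κ) (DD x) tKN tL pcN [⟨0, 1, 0, 67108864⟩, ⟨1, 0, 0, 67108864⟩, ⟨2, 1, 0, 67108864⟩]
      1 0 1 3 3 (sgb true) (sgb false) x :=
  aNA2m hκ hx hx' (by decide)

theorem qN_A33pm_102_101 {κ x : ℝ} (hκ : κ * h0 = kenE x) (hx : 39 / 40 ≤ x) (hx' : x < 1) :
    AltVA (VND 3 κ) (DD x) tKN tL pcN [⟨0, 1, 0, 67108864⟩, ⟨1, 0, 0, 67108864⟩, ⟨2, 1, 0, 67108864⟩]
      1 0 2 3 3 (sgb true) (sgb false) x :=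
  aNA2m hκ hx hx' (by decide)

theorem qN_A33pm_202_101 {κ x : ℝ} (hκ : κ * h0 = kenE x) (hx : 39 / 40 ≤ x) (hx' : x < 1) :
    AltVA (VND 3 κ) (DD x) tKN tL pcN [⟨0, 1, 0, 67108864⟩, ⟨1, 0, 0, 67108864⟩, ⟨2, 1, 0, 67108864⟩, ⟨3, 0, 0, 1233125376⟩]
      2 0 2 3 3 (sgb true) (sgb false) x :=
  aNA1m hκ hx hx' (by decide) (by decide)

theorem qN_A33mm_202_101 {κ x : ℝ} (hκ : κ * h0 = kenE x) (hx : 39 / 40 ≤ x) (hx' : x < 1) :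
    AltVA (VND 3 κ) (DD x) tKN tL pcN [⟨0, 1, 0, 67108864⟩, ⟨1, 0, 0, 67108864⟩, ⟨2, 1, 0, 67108864⟩]
      2 0 2 3 3 (sgb false) (sgb false) x :=
  aNA3m hκ hx hx' (by decide)

theorem qN_A34pm_101_101 {κ x : ℝ} (hκ : κ * h0 = kenE x) (hx : 39 / 40 ≤ x) (hx' : x < 1) :
    AltVA (VND 3 κ) (DD x) tKN tL pcN [⟨0, 1, 0, 67108864⟩, ⟨1, 0, 0, 67108864⟩, ⟨2, 1, 0, 67108864⟩]
      1 0 1 3 4 (sgb true) (sgb false) x :=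
  aNA2m hκ hx hx' (by decide)

theorem qN_A34pm_102_101 {κ x : ℝ} (hκ : κ * h0 = kenE x) (hx : 39 / 40 ≤ x) (hx' : x < 1) :
    AltVA (VND 3 κ) (DD x) tKN tL pcN [⟨0, 1, 0, 67108864⟩, ⟨1, 0, 0, 67108864⟩, ⟨2, 1, 0, 67108864⟩]
      1 0 2 3 4 (sgb true) (sgb false) x :=
  aNA2m hκ hx hx' (by decide)

theorem qN_A34pm_202_101 {κ x : ℝ} (hκ : κ * h0 = kenE x) (hx : 39 / 40 ≤ x) (hx' : x < 1) :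
    AltVA (VND 3 κ) (DD x) tKN tL pcN [⟨0, 1, 0, 67108864⟩, ⟨1, 0, 0, 67108864⟩, ⟨2, 1, 0, 67108864⟩, ⟨3, 0, 0, 1233125376⟩]
      2 0 2 3 4 (sgb true) (sgb false) x :=
  aNA1m hκ hx hx' (by decide) (by decide)

theorem qN_A34mm_202_101 {κ x : ℝ} (hκ : κ * h0 = kenE x) (hx : 39 / 40 ≤ x) (hx' : x < 1) :
    AltVA (VND 3 κ) (DD x) tKN tL pcN [⟨0, 1, 0, 67108864⟩, ⟨1, 0, 0, 67108864⟩, ⟨2, 1, 0, 67108864⟩]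
      2 0 2 3 4 (sgb false) (sgb false) x :=
  aNA3m hκ hx hx' (by decide)

theorem qN_A37pm_011_011 {κ x : ℝ} (hκ : κ * h0 = kenE x) (hx : 39 / 40 ≤ x) (hx' : x < 1) :
    AltVA (VND 3 κ) (DD x) tKN tL pcN [⟨0, 0, 0, 67108864⟩, ⟨1, 1, 0, 67108864⟩, ⟨2, 1, 0, 67108864⟩]
      0 1 1 3 7 (sgb true) (sgb false) x :=
  aNA2 hκ hx hx' (by decide)

theorem qN_A37pm_012_011 {κ x : ℝ} (hκ : κ * h0 = kenE x) (hx : 39 / 40 ≤ x) (hx' : x < 1) :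
    AltVA (VND 3 κ) (DD x) tKN tL pcN [⟨0, 0, 0, 67108864⟩, ⟨1, 1, 0, 67108864⟩, ⟨2, 1, 0, 67108864⟩]
      0 1 2 3 7 (sgb true) (sgb false) x :=
  aNA2 hκ hx hx' (by decide)

theorem qN_A37pm_022_011 {κ x : ℝ} (hκ : κ * h0 = kenE x) (hx : 39 / 40 ≤ x) (hx' : x < 1) :
    AltVA (VND 3 κ) (DD x) tKN tL pcN [⟨0, 0, 0, 67108864⟩, ⟨1, 1, 0, 67108864⟩, ⟨2, 1, 0, 67108864⟩]
      0 2 2 3 7 (sgb true) (sgb false) x :=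
  aNA2 hκ hx hx' (by decide)

theorem qN_A47pm_011_011 {κ x : ℝ} (hκ : κ * h0 = kenE x) (hx : 39 / 40 ≤ x) (hx' : x < 1) :
    AltVA (VND 3 κ) (DD x) tKN tL pcN [⟨0, 0, 0, 67108864⟩, ⟨1, 1, 0, 67108864⟩, ⟨2, 1, 0, 67108864⟩]
      0 1 1 4 7 (sgb true) (sgb false) x :=
  aNA2 hκ hx hx' (by decide)

theorem qN_A47pm_012_011 {κ x : ℝ} (hκ : κ * h0 = kenE x) (hx : 39 / 40 ≤ x) (hx' : x < 1) :
    AltVA (VND 3 κ) (DD x) tKN tL pcN [⟨0, 0, 0, 67108864⟩, ⟨1, 1, 0, 67108864⟩, ⟨2, 1, 0, 67108864⟩]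
      0 1 2 4 7 (sgb true) (sgb false) x :=
  aNA2 hκ hx hx' (by decide)

theorem qN_A47pm_022_011 {κ x : ℝ} (hκ : κ * h0 = kenE x) (hx : 39 / 40 ≤ x) (hx' : x < 1) :
    AltVA (VND 3 κ) (DD x) tKN tL pcN [⟨0, 0, 0, 67108864⟩, ⟨1, 1, 0, 67108864⟩, ⟨2, 1, 0, 67108864⟩]
      0 2 2 4 7 (sgb true) (sgb false) x :=
  aNA2 hκ hx hx' (by decide)

theorem qN_B00pp_011_011 {κ x : ℝ} (hκ : κ * h0 = kenE x) (hx : 39 / 40 ≤ x) (hx' : x < 1) :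
    AltVB (VND 3 κ) (DD x) tKN tL pcN [⟨0, 0, 0, 67108864⟩, ⟨1, 1, 0, 67108864⟩, ⟨2, 1, 0, 67108864⟩, ⟨3, 0, 0, 1233125376⟩]
      0 1 1 0 0 (sgb true) (sgb true) x :=
  aNB1 hκ hx hx' (by decide) (by decide)

theorem qN_B00pp_012_011 {κ x : ℝ} (hκ : κ * h0 = kenE x) (hx : 39 / 40 ≤ x) (hx' : x < 1) :
    AltVB (VND 3 κ) (DD x) tKN tL pcN [⟨0, 0, 0, 67108864⟩, ⟨1, 1, 0, 67108864⟩, ⟨2, 1, 0, 67108864⟩, ⟨3, 0, 0, 1233125376⟩]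
      0 1 2 0 0 (sgb true) (sgb true) x :=
  aNB1 hκ hx hx' (by decide) (by decide)

theorem qN_B00pp_022_011 {κ x : ℝ} (hκ : κ * h0 = kenE x) (hx : 39 / 40 ≤ x) (hx' : x < 1) :
    AltVB (VND 3 κ) (DD x) tKN tL pcN [⟨0, 0, 0, 67108864⟩, ⟨1, 1, 0, 67108864⟩, ⟨2, 1, 0, 67108864⟩, ⟨3, 0, 0, 1233125376⟩]
      0 2 2 0 0 (sgb true) (sgb true) x :=
  aNB1 hκ hx hx' (by decide) (by decide)

theorem qN_B00pm_011_011 {κ x : ℝ} (hκ : κ * h0 = kenE x) (hx : 39 / 40 ≤ x) (hx' : x < 1) :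
    AltVB (VND 3 κ) (DD x) tKN tL pcN [⟨0, 0, 0, 67108864⟩, ⟨1, 1, 0, 67108864⟩, ⟨2, 1, 0, 67108864⟩]
      0 1 1 0 0 (sgb true) (sgb false) x :=
  aNB2 hκ hx hx' (by decide)

theorem qN_B00pm_012_011 {κ x : ℝ} (hκ : κ * h0 = kenE x) (hx : 39 / 40 ≤ x) (hx' : x < 1) :
    AltVB (VND 3 κ) (DD x) tKN tL pcN [⟨0, 0, 0, 67108864⟩, ⟨1, 1, 0, 67108864⟩, ⟨2, 1, 0, 67108864⟩]
      0 1 2 0 0 (sgb true) (sgb false) x :=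
  aNB2 hκ hx hx' (by decide)

theorem qN_B00pm_022_011 {κ x : ℝ} (hκ : κ * h0 = kenE x) (hx : 39 / 40 ≤ x) (hx' : x < 1) :
    AltVB (VND 3 κ) (DD x) tKN tL pcN [⟨0, 0, 0, 67108864⟩, ⟨1, 1, 0, 67108864⟩, ⟨2, 1, 0, 67108864⟩]
      0 2 2 0 0 (sgb true) (sgb false) x :=
  aNB2 hκ hx hx' (by decide)

theorem qN_B00pm_101_101 {κ x : ℝ} (hκ : κ * h0 = kenE x) (hx : 39 / 40 ≤ x) (hx' : x < 1) :
    AltVB (VND 3 κ) (DD x) tKN tL pcN [⟨0, 1, 0, 67108864⟩, ⟨1, 0, 0, 67108864⟩, ⟨2, 1, 0, 67108864⟩, ⟨3, 0, 0, 1317011456⟩]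
      1 0 1 0 0 (sgb true) (sgb false) x :=
  aNB1m hκ hx hx' (by decide) (by decide)

theorem qN_B00pm_102_101 {κ x : ℝ} (hκ : κ * h0 = kenE x) (hx : 39 / 40 ≤ x) (hx' : x < 1) :
    AltVB (VND 3 κ) (DD x) tKN tL pcN [⟨0, 1, 0, 67108864⟩, ⟨1, 0, 0, 67108864⟩, ⟨2, 1, 0, 67108864⟩, ⟨3, 0, 0, 1317011456⟩]
      1 0 2 0 0 (sgb true) (sgb false) x :=
  aNB1m hκ hx hx' (by decide) (by decide)

theorem qN_B00pm_202_101 {κ x : ℝ} (hκ : κ * h0 = kenE x) (hx : 39 / 40 ≤ x) (hx' : x < 1) :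
    AltVB (VND 3 κ) (DD x) tKN tL pcN [⟨0, 1, 0, 67108864⟩, ⟨1, 0, 0, 67108864⟩, ⟨2, 1, 0, 67108864⟩, ⟨3, 0, 0, 1317011456⟩]
      2 0 2 0 0 (sgb true) (sgb false) x :=
  aNB1m hκ hx hx' (by decide) (by decide)

theorem qN_B03pp_011_011 {κ x : ℝ} (hκ : κ * h0 = kenE x) (hx : 39 / 40 ≤ x) (hx' : x < 1) :
    AltVB (VND 3 κ) (DD x) tKN tL pcN [⟨0, 0, 0, 67108864⟩, ⟨1, 1, 0, 67108864⟩, ⟨2, 1, 0, 67108864⟩]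
      0 1 1 0 3 (sgb true) (sgb true) x :=
  aNB3 hκ hx hx' (by decide)

theorem qN_B03pp_012_011 {κ x : ℝ} (hκ : κ * h0 = kenE x) (hx : 39 / 40 ≤ x) (hx' : x < 1) :
    AltVB (VND 3 κ) (DD x) tKN tL pcN [⟨0, 0, 0, 67108864⟩, ⟨1, 1, 0, 67108864⟩, ⟨2, 1, 0, 67108864⟩, ⟨3, 0, 0, 1233125376⟩]
      0 1 2 0 3 (sgb true) (sgb true) x :=
  aNB1 hκ hx hx' (by decide) (by decide)

theorem qN_B03pp_022_011 {κ x : ℝ} (hκ : κ * h0 = kenE x) (hx : 39 / 40 ≤ x) (hx' : x < 1) :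
    AltVB (VND 3 κ) (DD x) tKN tL pcN [⟨0, 0, 0, 67108864⟩, ⟨1, 1, 0, 67108864⟩, ⟨2, 1, 0, 67108864⟩, ⟨3, 0, 0, 1233125376⟩]
      0 2 2 0 3 (sgb true) (sgb true) x :=
  aNB1 hκ hx hx' (by decide) (by decide)

theorem qN_B03pp_113_112 {κ x : ℝ} (hκ : κ * h0 = kenE x) (hx : 39 / 40 ≤ x) (hx' : x < 1) :
    AltVB (VND 3 κ) (DD x) tKN tL pcN [⟨0, 1, 0, 67108864⟩, ⟨1, 1, 0, 67108864⟩, ⟨2, 2, 0, 67108864⟩, ⟨3, 0, 0, 1233125376⟩]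
      1 1 3 0 3 (sgb true) (sgb true) x :=
  aNBvp hκ hx hx' (by decide)

theorem qN_B03pp_123_112 {κ x : ℝ} (hκ : κ * h0 = kenE x) (hx : 39 / 40 ≤ x) (hx' : x < 1) :
    AltVB (VND 3 κ) (DD x) tKN tL pcN [⟨0, 1, 0, 67108864⟩, ⟨1, 1, 0, 67108864⟩, ⟨2, 2, 0, 67108864⟩, ⟨3, 0, 0, 1233125376⟩]
      1 2 3 0 3 (sgb true) (sgb true) x :=
  aNBvp hκ hx hx' (by decide)

theorem qN_B03pp_213_112 {κ x : ℝ} (hκ : κ * h0 = kenE x) (hx : 39 / 40 ≤ x) (hx' : x < 1) :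
    AltVB (VND 3 κ) (DD x) tKN tL pcN [⟨0, 1, 0, 67108864⟩, ⟨1, 1, 0, 67108864⟩, ⟨2, 2, 0, 67108864⟩, ⟨3, 0, 0, 1233125376⟩]
      2 1 3 0 3 (sgb true) (sgb true) x :=
  aNBvp hκ hx hx' (by decide)

theorem qN_B03pm_012_011 {κ x : ℝ} (hκ : κ * h0 = kenE x) (hx : 39 / 40 ≤ x) (hx' : x < 1) :
    AltVB (VND 3 κ) (DD x) tKN tL pcN [⟨0, 0, 0, 67108864⟩, ⟨1, 1, 0, 67108864⟩, ⟨2, 1, 0, 67108864⟩]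
      0 1 2 0 3 (sgb true) (sgb false) x :=
  aNB2 hκ hx hx' (by decide)

theorem qN_B03pm_022_011 {κ x : ℝ} (hκ : κ * h0 = kenE x) (hx : 39 / 40 ≤ x) (hx' : x < 1) :
    AltVB (VND 3 κ) (DD x) tKN tL pcN [⟨0, 0, 0, 67108864⟩, ⟨1, 1, 0, 67108864⟩, ⟨2, 1, 0, 67108864⟩]
      0 2 2 0 3 (sgb true) (sgb false) x :=
  aNB2 hκ hx hx' (by decide)

theorem qN_B03pm_102_101 {κ x : ℝ} (hκ : κ * h0 = kenE x) (hx : 39 / 40 ≤ x) (hx' : x < 1) :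
    AltVB (VND 3 κ) (DD x) tKN tL pcN [⟨0, 1, 0, 67108864⟩, ⟨1, 0, 0, 67108864⟩, ⟨2, 1, 0, 67108864⟩, ⟨3, 0, 0, 1317011456⟩]
      1 0 2 0 3 (sgb true) (sgb false) x :=
  aNB1m hκ hx hx' (by decide) (by decide)

theorem qN_B03pm_113_112 {κ x : ℝ} (hκ : κ * h0 = kenE x) (hx : 39 / 40 ≤ x) (hx' : x < 1) :
    AltVB (VND 3 κ) (DD x) tKN tL pcN [⟨0, 1, 0, 67108864⟩, ⟨1, 1, 0, 67108864⟩, ⟨2, 2, 0, 67108864⟩, ⟨3, 0, 0, 1233125376⟩]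
      1 1 3 0 3 (sgb true) (sgb false) x :=
  aNBvm hκ hx hx' (by decide)

theorem qN_B03pm_123_112 {κ x : ℝ} (hκ : κ * h0 = kenE x) (hx : 39 / 40 ≤ x) (hx' : x < 1) :
    AltVB (VND 3 κ) (DD x) tKN tL pcN [⟨0, 1, 0, 67108864⟩, ⟨1, 1, 0, 67108864⟩, ⟨2, 2, 0, 67108864⟩, ⟨3, 0, 0, 1233125376⟩]
      1 2 3 0 3 (sgb true) (sgb false) x :=
  aNBvm hκ hx hx' (by decide)

theorem qN_B03pm_202_101 {κ x : ℝ} (hκ : κ * h0 = kenE x) (hx : 39 / 40 ≤ x) (hx' : x < 1) :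
    AltVB (VND 3 κ) (DD x) tKN tL pcN [⟨0, 1, 0, 67108864⟩, ⟨1, 0, 0, 67108864⟩, ⟨2, 1, 0, 67108864⟩, ⟨3, 0, 0, 1317011456⟩]
      2 0 2 0 3 (sgb true) (sgb false) x :=
  aNB1m hκ hx hx' (by decide) (by decide)

theorem qN_B03pm_213_112 {κ x : ℝ} (hκ : κ * h0 = kenE x) (hx : 39 / 40 ≤ x) (hx' : x < 1) :
    AltVB (VND 3 κ) (DD x) tKN tL pcN [⟨0, 1, 0, 67108864⟩, ⟨1, 1, 0, 67108864⟩, ⟨2, 2, 0, 67108864⟩, ⟨3, 0, 0, 1233125376⟩]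
      2 1 3 0 3 (sgb true) (sgb false) x :=
  aNBvm hκ hx hx' (by decide)

theorem qN_B03mm_101_101 {κ x : ℝ} (hκ : κ * h0 = kenE x) (hx : 39 / 40 ≤ x) (hx' : x < 1) :
    AltVB (VND 3 κ) (DD x) tKN tL pcN [⟨0, 1, 0, 67108864⟩, ⟨1, 0, 0, 67108864⟩, ⟨2, 1, 0, 67108864⟩]
      1 0 1 0 3 (sgb false) (sgb false) x :=
  aNB3m hκ hx hx' (by decide) (by decide)

theorem qN_B05pp_113_112 {κ x : ℝ} (hκ : κ * h0 = kenE x) (hx : 39 / 40 ≤ x) (hx' : x < 1) :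
    AltVB (VND 3 κ) (DD x) tKN tL pcN [⟨0, 1, 0, 67108864⟩, ⟨1, 1, 0, 67108864⟩, ⟨2, 2, 0, 67108864⟩, ⟨3, 0, 0, 1233125376⟩]
      1 1 3 0 5 (sgb true) (sgb true) x :=
  aNBvp hκ hx hx' (by decide)

theorem qN_B05pp_123_112 {κ x : ℝ} (hκ : κ * h0 = kenE x) (hx : 39 / 40 ≤ x) (hx' : x < 1) :
    AltVB (VND 3 κ) (DD x) tKN tL pcN [⟨0, 1, 0, 67108864⟩, ⟨1, 1, 0, 67108864⟩, ⟨2, 2, 0, 67108864⟩, ⟨3, 0, 0, 1233125376⟩]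
      1 2 3 0 5 (sgb true) (sgb true) x :=
  aNBvp hκ hx hx' (by decide)

theorem qN_B05pp_213_112 {κ x : ℝ} (hκ : κ * h0 = kenE x) (hx : 39 / 40 ≤ x) (hx' : x < 1) :
    AltVB (VND 3 κ) (DD x) tKN tL pcN [⟨0, 1, 0, 67108864⟩, ⟨1, 1, 0, 67108864⟩, ⟨2, 2, 0, 67108864⟩, ⟨3, 0, 0, 1233125376⟩]
      2 1 3 0 5 (sgb true) (sgb true) x :=
  aNBvp hκ hx hx' (by decide)

theorem qN_B05pm_113_112 {κ x : ℝ} (hκ : κ * h0 = kenE x) (hx : 39 / 40 ≤ x) (hx' : x < 1) :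
    AltVB (VND 3 κ) (DD x) tKN tL pcN [⟨0, 1, 0, 67108864⟩, ⟨1, 1, 0, 67108864⟩, ⟨2, 2, 0, 67108864⟩, ⟨3, 0, 0, 1233125376⟩]
      1 1 3 0 5 (sgb true) (sgb false) x :=
  aNBvm hκ hx hx' (by decide)

theorem qN_B05pm_123_112 {κ x : ℝ} (hκ : κ * h0 = kenE x) (hx : 39 / 40 ≤ x) (hx' : x < 1) :
    AltVB (VND 3 κ) (DD x) tKN tL pcN [⟨0, 1, 0, 67108864⟩, ⟨1, 1, 0, 67108864⟩, ⟨2, 2, 0, 67108864⟩, ⟨3, 0, 0, 1233125376⟩]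
      1 2 3 0 5 (sgb true) (sgb false) x :=
  aNBvm hκ hx hx' (by decide)

theorem qN_B05pm_213_112 {κ x : ℝ} (hκ : κ * h0 = kenE x) (hx : 39 / 40 ≤ x) (hx' : x < 1) :
    AltVB (VND 3 κ) (DD x) tKN tL pcN [⟨0, 1, 0, 67108864⟩, ⟨1, 1, 0, 67108864⟩, ⟨2, 2, 0, 67108864⟩, ⟨3, 0, 0, 1233125376⟩]
      2 1 3 0 5 (sgb true) (sgb false) x :=
  aNBvm hκ hx hx' (by decide)

theorem qN_B06pp_113_112 {κ x : ℝ} (hκ : κ * h0 = kenE x) (hx : 39 / 40 ≤ x) (hx' : x < 1) :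
    AltVB (VND 3 κ) (DD x) tKN tL pcN [⟨0, 1, 0, 67108864⟩, ⟨1, 1, 0, 67108864⟩, ⟨2, 2, 0, 67108864⟩, ⟨3, 0, 0, 1233125376⟩]
      1 1 3 0 6 (sgb true) (sgb true) x :=
  aNBvp hκ hx hx' (by decide)

theorem qN_B06pp_123_112 {κ x : ℝ} (hκ : κ * h0 = kenE x) (hx : 39 / 40 ≤ x) (hx' : x < 1) :
    AltVB (VND 3 κ) (DD x) tKN tL pcN [⟨0, 1, 0, 67108864⟩, ⟨1, 1, 0, 67108864⟩, ⟨2, 2, 0, 67108864⟩, ⟨3, 0, 0, 1233125376⟩]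
      1 2 3 0 6 (sgb true) (sgb true) x :=
  aNBvp hκ hx hx' (by decide)

theorem qN_B06pp_213_112 {κ x : ℝ} (hκ : κ * h0 = kenE x) (hx : 39 / 40 ≤ x) (hx' : x < 1) :
    AltVB (VND 3 κ) (DD x) tKN tL pcN [⟨0, 1, 0, 67108864⟩, ⟨1, 1, 0, 67108864⟩, ⟨2, 2, 0, 67108864⟩, ⟨3, 0, 0, 1233125376⟩]
      2 1 3 0 6 (sgb true) (sgb true) x :=
  aNBvp hκ hx hx' (by decide)

theorem qN_B06pm_113_112 {κ x : ℝ} (hκ : κ * h0 = kenE x) (hx : 39 / 40 ≤ x) (hx' : x < 1) :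
    AltVB (VND 3 κ) (DD x) tKN tL pcN [⟨0, 1, 0, 67108864⟩, ⟨1, 1, 0, 67108864⟩, ⟨2, 2, 0, 67108864⟩, ⟨3, 0, 0, 1233125376⟩]
      1 1 3 0 6 (sgb true) (sgb false) x :=
  aNBvm hκ hx hx' (by decide)

theorem qN_B06pm_123_112 {κ x : ℝ} (hκ : κ * h0 = kenE x) (hx : 39 / 40 ≤ x) (hx' : x < 1) :
    AltVB (VND 3 κ) (DD x) tKN tL pcN [⟨0, 1, 0, 67108864⟩, ⟨1, 1, 0, 67108864⟩, ⟨2, 2, 0, 67108864⟩, ⟨3, 0, 0, 1233125376⟩]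
      1 2 3 0 6 (sgb true) (sgb false) x :=
  aNBvm hκ hx hx' (by decide)

theorem qN_B06pm_213_112 {κ x : ℝ} (hκ : κ * h0 = kenE x) (hx : 39 / 40 ≤ x) (hx' : x < 1) :
    AltVB (VND 3 κ) (DD x) tKN tL pcN [⟨0, 1, 0, 67108864⟩, ⟨1, 1, 0, 67108864⟩, ⟨2, 2, 0, 67108864⟩, ⟨3, 0, 0, 1233125376⟩]
      2 1 3 0 6 (sgb true) (sgb false) x :=
  aNBvm hκ hx hx' (by decide)

theorem qN_B07pp_011_011 {κ x : ℝ} (hκ : κ * h0 = kenE x) (hx : 39 / 40 ≤ x) (hx' : x < 1) :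
    AltVB (VND 3 κ) (DD x) tKN tL pcN [⟨0, 0, 0, 67108864⟩, ⟨1, 1, 0, 67108864⟩, ⟨2, 1, 0, 67108864⟩]
      0 1 1 0 7 (sgb true) (sgb true) x :=
  aNB3 hκ hx hx' (by decide)

theorem qN_B07pp_012_011 {κ x : ℝ} (hκ : κ * h0 = kenE x) (hx : 39 / 40 ≤ x) (hx' : x < 1) :
    AltVB (VND 3 κ) (DD x) tKN tL pcN [⟨0, 0, 0, 67108864⟩, ⟨1, 1, 0, 67108864⟩, ⟨2, 1, 0, 67108864⟩]
      0 1 2 0 7 (sgb true) (sgb true) x :=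
  aNB3 hκ hx hx' (by decide)

theorem qN_B07pp_022_011 {κ x : ℝ} (hκ : κ * h0 = kenE x) (hx : 39 / 40 ≤ x) (hx' : x < 1) :
    AltVB (VND 3 κ) (DD x) tKN tL pcN [⟨0, 0, 0, 67108864⟩, ⟨1, 1, 0, 67108864⟩, ⟨2, 1, 0, 67108864⟩]
      0 2 2 0 7 (sgb true) (sgb true) x :=
  aNB3 hκ hx hx' (by decide)

theorem qN_B07pp_113_112 {κ x : ℝ} (hκ : κ * h0 = kenE x) (hx : 39 / 40 ≤ x) (hx' : x < 1) :
    AltVB (VND 3 κ) (DD x) tKN tL pcN [⟨0, 1, 0, 67108864⟩, ⟨1, 1, 0, 67108864⟩, ⟨2, 2, 0, 67108864⟩, ⟨3, 0, 0, 1233125376⟩]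
      1 1 3 0 7 (sgb true) (sgb true) x :=
  aNBvp hκ hx hx' (by decide)

theorem qN_B07pp_123_112 {κ x : ℝ} (hκ : κ * h0 = kenE x) (hx : 39 / 40 ≤ x) (hx' : x < 1) :
    AltVB (VND 3 κ) (DD x) tKN tL pcN [⟨0, 1, 0, 67108864⟩, ⟨1, 1, 0, 67108864⟩, ⟨2, 2, 0, 67108864⟩, ⟨3, 0, 0, 1233125376⟩]
      1 2 3 0 7 (sgb true) (sgb true) x :=
  aNBvp hκ hx hx' (by decide)

theorem qN_B07pp_213_112 {κ x : ℝ} (hκ : κ * h0 = kenE x) (hx : 39 / 40 ≤ x) (hx' : x < 1) :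
    AltVB (VND 3 κ) (DD x) tKN tL pcN [⟨0, 1, 0, 67108864⟩, ⟨1, 1, 0, 67108864⟩, ⟨2, 2, 0, 67108864⟩, ⟨3, 0, 0, 1233125376⟩]
      2 1 3 0 7 (sgb true) (sgb true) x :=
  aNBvp hκ hx hx' (by decide)

theorem qN_B07pm_113_112 {κ x : ℝ} (hκ : κ * h0 = kenE x) (hx : 39 / 40 ≤ x) (hx' : x < 1) :
    AltVB (VND 3 κ) (DD x) tKN tL pcN [⟨0, 1, 0, 67108864⟩, ⟨1, 1, 0, 67108864⟩, ⟨2, 2, 0, 67108864⟩, ⟨3, 0, 0, 1233125376⟩]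
      1 1 3 0 7 (sgb true) (sgb false) x :=
  aNBvm hκ hx hx' (by decide)

theorem qN_B07pm_123_112 {κ x : ℝ} (hκ : κ * h0 = kenE x) (hx : 39 / 40 ≤ x) (hx' : x < 1) :
    AltVB (VND 3 κ) (DD x) tKN tL pcN [⟨0, 1, 0, 67108864⟩, ⟨1, 1, 0, 67108864⟩, ⟨2, 2, 0, 67108864⟩, ⟨3, 0, 0, 1233125376⟩]
      1 2 3 0 7 (sgb true) (sgb false) x :=
  aNBvm hκ hx hx' (by decide)

theorem qN_B07pm_213_112 {κ x : ℝ} (hκ : κ * h0 = kenE x) (hx : 39 / 40 ≤ x) (hx' : x < 1) :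
    AltVB (VND 3 κ) (DD x) tKN tL pcN [⟨0, 1, 0, 67108864⟩, ⟨1, 1, 0, 67108864⟩, ⟨2, 2, 0, 67108864⟩, ⟨3, 0, 0, 1233125376⟩]
      2 1 3 0 7 (sgb true) (sgb false) x :=
  aNBvm hκ hx hx' (by decide)

theorem qN_B07mm_101_101 {κ x : ℝ} (hκ : κ * h0 = kenE x) (hx : 39 / 40 ≤ x) (hx' : x < 1) :
    AltVB (VND 3 κ) (DD x) tKN tL pcN [⟨0, 1, 0, 67108864⟩, ⟨1, 0, 0, 67108864⟩, ⟨2, 1, 0, 67108864⟩]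
      1 0 1 0 7 (sgb false) (sgb false) x :=
  aNB3m hκ hx hx' (by decide) (by decide)

theorem qN_B07mm_102_101 {κ x : ℝ} (hκ : κ * h0 = kenE x) (hx : 39 / 40 ≤ x) (hx' : x < 1) :
    AltVB (VND 3 κ) (DD x) tKN tL pcN [⟨0, 1, 0, 67108864⟩, ⟨1, 0, 0, 67108864⟩, ⟨2, 1, 0, 67108864⟩]
      1 0 2 0 7 (sgb false) (sgb false) x :=
  aNB3m hκ hx hx' (by decide) (by decide)

theorem qN_B07mm_202_101 {κ x : ℝ} (hκ : κ * h0 = kenE x) (hx : 39 / 40 ≤ x) (hx' : x < 1) :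
    AltVB (VND 3 κ) (DD x) tKN tL pcN [⟨0, 1, 0, 67108864⟩, ⟨1, 0, 0, 67108864⟩, ⟨2, 1, 0, 67108864⟩]
      2 0 2 0 7 (sgb false) (sgb false) x :=
  aNB3m hκ hx hx' (by decide) (by decide)

theorem qN_B30pp_011_011 {κ x : ℝ} (hκ : κ * h0 = kenE x) (hx : 39 / 40 ≤ x) (hx' : x < 1) :
    AltVB (VND 3 κ) (DD x) tKN tL pcN [⟨0, 0, 0, 67108864⟩, ⟨1, 1, 0, 67108864⟩, ⟨2, 1, 0, 67108864⟩, ⟨3, 0, 0, 1233125376⟩]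
      0 1 1 3 0 (sgb true) (sgb true) x :=
  aNB1 hκ hx hx' (by decide) (by decide)

theorem qN_B30pp_012_011 {κ x : ℝ} (hκ : κ * h0 = kenE x) (hx : 39 / 40 ≤ x) (hx' : x < 1) :
    AltVB (VND 3 κ) (DD x) tKN tL pcN [⟨0, 0, 0, 67108864⟩, ⟨1, 1, 0, 67108864⟩, ⟨2, 1, 0, 67108864⟩, ⟨3, 0, 0, 1233125376⟩]
      0 1 2 3 0 (sgb true) (sgb true) x :=
  aNB1 hκ hx hx' (by decide) (by decide)

theorem qN_B30pp_022_011 {κ x : ℝ} (hκ : κ * h0 = kenE x) (hx : 39 / 40 ≤ x) (hx' : x < 1) :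
    AltVB (VND 3 κ) (DD x) tKN tL pcN [⟨0, 0, 0, 67108864⟩, ⟨1, 1, 0, 67108864⟩, ⟨2, 1, 0, 67108864⟩, ⟨3, 0, 0, 1233125376⟩]
      0 2 2 3 0 (sgb true) (sgb true) x :=
  aNB1 hκ hx hx' (by decide) (by decide)

theorem qN_B30pp_101_101 {κ x : ℝ} (hκ : κ * h0 = kenE x) (hx : 39 / 40 ≤ x) (hx' : x < 1) :
    AltVB (VND 3 κ) (DD x) tKN tL pcN [⟨0, 1, 0, 67108864⟩, ⟨1, 0, 0, 67108864⟩, ⟨2, 1, 0, 67108864⟩]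
      1 0 1 3 0 (sgb true) (sgb true) x :=
  aNB2m hκ hx hx' (by decide) (by decide)

theorem qN_B30pp_102_101 {κ x : ℝ} (hκ : κ * h0 = kenE x) (hx : 39 / 40 ≤ x) (hx' : x < 1) :
    AltVB (VND 3 κ) (DD x) tKN tL pcN [⟨0, 1, 0, 67108864⟩, ⟨1, 0, 0, 67108864⟩, ⟨2, 1, 0, 67108864⟩]
      1 0 2 3 0 (sgb true) (sgb true) x :=
  aNB2m hκ hx hx' (by decide) (by decide)

theorem qN_B30pm_011_011 {κ x : ℝ} (hκ : κ * h0 = kenE x) (hx : 39 / 40 ≤ x) (hx' : x < 1) :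
    AltVB (VND 3 κ) (DD x) tKN tL pcN [⟨0, 0, 0, 67108864⟩, ⟨1, 1, 0, 67108864⟩, ⟨2, 1, 0, 67108864⟩]
      0 1 1 3 0 (sgb true) (sgb false) x :=
  aNB2 hκ hx hx' (by decide)

theorem qN_B30pm_012_011 {κ x : ℝ} (hκ : κ * h0 = kenE x) (hx : 39 / 40 ≤ x) (hx' : x < 1) :
    AltVB (VND 3 κ) (DD x) tKN tL pcN [⟨0, 0, 0, 67108864⟩, ⟨1, 1, 0, 67108864⟩, ⟨2, 1, 0, 67108864⟩]
      0 1 2 3 0 (sgb true) (sgb false) x :=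
  aNB2 hκ hx hx' (by decide)

theorem qN_B30pm_022_011 {κ x : ℝ} (hκ : κ * h0 = kenE x) (hx : 39 / 40 ≤ x) (hx' : x < 1) :
    AltVB (VND 3 κ) (DD x) tKN tL pcN [⟨0, 0, 0, 67108864⟩, ⟨1, 1, 0, 67108864⟩, ⟨2, 1, 0, 67108864⟩]
      0 2 2 3 0 (sgb true) (sgb false) x :=
  aNB2 hκ hx hx' (by decide)

theorem qN_B30pm_202_101 {κ x : ℝ} (hκ : κ * h0 = kenE x) (hx : 39 / 40 ≤ x) (hx' : x < 1) :
    AltVB (VND 3 κ) (DD x) tKN tL pcN [⟨0, 1, 0, 67108864⟩, ⟨1, 0, 0, 67108864⟩, ⟨2, 1, 0, 67108864⟩, ⟨3, 0, 0, 1317011456⟩]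
      2 0 2 3 0 (sgb true) (sgb false) x :=
  aNB1m hκ hx hx' (by decide) (by decide)

theorem qN_B33pp_011_011 {κ x : ℝ} (hκ : κ * h0 = kenE x) (hx : 39 / 40 ≤ x) (hx' : x < 1) :
    AltVB (VND 3 κ) (DD x) tKN tL pcN [⟨0, 0, 0, 67108864⟩, ⟨1, 1, 0, 67108864⟩, ⟨2, 1, 0, 67108864⟩]
      0 1 1 3 3 (sgb true) (sgb true) x :=
  aNB3 hκ hx hx' (by decide)

theorem qN_B33pp_012_011 {κ x : ℝ} (hκ : κ * h0 = kenE x) (hx : 39 / 40 ≤ x) (hx' : x < 1) :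
    AltVB (VND 3 κ) (DD x) tKN tL pcN [⟨0, 0, 0, 67108864⟩, ⟨1, 1, 0, 67108864⟩, ⟨2, 1, 0, 67108864⟩, ⟨3, 0, 0, 1233125376⟩]
      0 1 2 3 3 (sgb true) (sgb true) x :=
  aNB1 hκ hx hx' (by decide) (by decide)

theorem qN_B33pp_022_011 {κ x : ℝ} (hκ : κ * h0 = kenE x) (hx : 39 / 40 ≤ x) (hx' : x < 1) :
    AltVB (VND 3 κ) (DD x) tKN tL pcN [⟨0, 0, 0, 67108864⟩, ⟨1, 1, 0, 67108864⟩, ⟨2, 1, 0, 67108864⟩, ⟨3, 0, 0, 1233125376⟩]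
      0 2 2 3 3 (sgb true) (sgb true) x :=
  aNB1 hκ hx hx' (by decide) (by decide)

theorem qN_B33pp_102_101 {κ x : ℝ} (hκ : κ * h0 = kenE x) (hx : 39 / 40 ≤ x) (hx' : x < 1) :
    AltVB (VND 3 κ) (DD x) tKN tL pcN [⟨0, 1, 0, 67108864⟩, ⟨1, 0, 0, 67108864⟩, ⟨2, 1, 0, 67108864⟩]
      1 0 2 3 3 (sgb true) (sgb true) x :=
  aNB2m hκ hx hx' (by decide) (by decide)

theorem qN_B33pp_213_112 {κ x : ℝ} (hκ : κ * h0 = kenE x) (hx : 39 / 40 ≤ x) (hx' : x < 1) :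
    AltVB (VND 3 κ) (DD x) tKN tL pcN [⟨0, 1, 0, 67108864⟩, ⟨1, 1, 0, 67108864⟩, ⟨2, 2, 0, 67108864⟩, ⟨3, 0, 0, 1233125376⟩]
      2 1 3 3 3 (sgb true) (sgb true) x :=
  aNBvp hκ hx hx' (by decide)

theorem qN_B33pm_012_011 {κ x : ℝ} (hκ : κ * h0 = kenE x) (hx : 39 / 40 ≤ x) (hx' : x < 1) :
    AltVB (VND 3 κ) (DD x) tKN tL pcN [⟨0, 0, 0, 67108864⟩, ⟨1, 1, 0, 67108864⟩, ⟨2, 1, 0, 67108864⟩]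
      0 1 2 3 3 (sgb true) (sgb false) x :=
  aNB2 hκ hx hx' (by decide)

theorem qN_B33pm_022_011 {κ x : ℝ} (hκ : κ * h0 = kenE x) (hx : 39 / 40 ≤ x) (hx' : x < 1) :
    AltVB (VND 3 κ) (DD x) tKN tL pcN [⟨0, 0, 0, 67108864⟩, ⟨1, 1, 0, 67108864⟩, ⟨2, 1, 0, 67108864⟩]
      0 2 2 3 3 (sgb true) (sgb false) x :=
  aNB2 hκ hx hx' (by decide)

theorem qN_B33pm_202_101 {κ x : ℝ} (hκ : κ * h0 = kenE x) (hx : 39 / 40 ≤ x) (hx' : x < 1) :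
    AltVB (VND 3 κ) (DD x) tKN tL pcN [⟨0, 1, 0, 67108864⟩, ⟨1, 0, 0, 67108864⟩, ⟨2, 1, 0, 67108864⟩, ⟨3, 0, 0, 1317011456⟩]
      2 0 2 3 3 (sgb true) (sgb false) x :=
  aNB1m hκ hx hx' (by decide) (by decide)

theorem qN_B33pm_213_112 {κ x : ℝ} (hκ : κ * h0 = kenE x) (hx : 39 / 40 ≤ x) (hx' : x < 1) :
    AltVB (VND 3 κ) (DD x) tKN tL pcN [⟨0, 1, 0, 67108864⟩, ⟨1, 1, 0, 67108864⟩, ⟨2, 2, 0, 67108864⟩, ⟨3, 0, 0, 1233125376⟩]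
      2 1 3 3 3 (sgb true) (sgb false) x :=
  aNBvm hκ hx hx' (by decide)

theorem qN_B35pp_213_112 {κ x : ℝ} (hκ : κ * h0 = kenE x) (hx : 39 / 40 ≤ x) (hx' : x < 1) :
    AltVB (VND 3 κ) (DD x) tKN tL pcN [⟨0, 1, 0, 67108864⟩, ⟨1, 1, 0, 67108864⟩, ⟨2, 2, 0, 67108864⟩, ⟨3, 0, 0, 1233125376⟩]
      2 1 3 3 5 (sgb true) (sgb true) x :=
  aNBvp hκ hx hx' (by decide)

theorem qN_B35pm_213_112 {κ x : ℝ} (hκ : κ * h0 = kenE x) (hx : 39 / 40 ≤ x) (hx' : x < 1) :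
    AltVB (VND 3 κ) (DD x) tKN tL pcN [⟨0, 1, 0, 67108864⟩, ⟨1, 1, 0, 67108864⟩, ⟨2, 2, 0, 67108864⟩, ⟨3, 0, 0, 1233125376⟩]
      2 1 3 3 5 (sgb true) (sgb false) x :=
  aNBvm hκ hx hx' (by decide)

theorem qN_B36pp_213_112 {κ x : ℝ} (hκ : κ * h0 = kenE x) (hx : 39 / 40 ≤ x) (hx' : x < 1) :
    AltVB (VND 3 κ) (DD x) tKN tL pcN [⟨0, 1, 0, 67108864⟩, ⟨1, 1, 0, 67108864⟩, ⟨2, 2, 0, 67108864⟩, ⟨3, 0, 0, 1233125376⟩]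
      2 1 3 3 6 (sgb true) (sgb true) x :=
  aNBvp hκ hx hx' (by decide)

theorem qN_B36pm_213_112 {κ x : ℝ} (hκ : κ * h0 = kenE x) (hx : 39 / 40 ≤ x) (hx' : x < 1) :
    AltVB (VND 3 κ) (DD x) tKN tL pcN [⟨0, 1, 0, 67108864⟩, ⟨1, 1, 0, 67108864⟩, ⟨2, 2, 0, 67108864⟩, ⟨3, 0, 0, 1233125376⟩]
      2 1 3 3 6 (sgb true) (sgb false) x :=
  aNBvm hκ hx hx' (by decide)

theorem qN_B37pp_011_011 {κ x : ℝ} (hκ : κ * h0 = kenE x) (hx : 39 / 40 ≤ x) (hx' : x < 1) :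
    AltVB (VND 3 κ) (DD x) tKN tL pcN [⟨0, 0, 0, 67108864⟩, ⟨1, 1, 0, 67108864⟩, ⟨2, 1, 0, 67108864⟩]
      0 1 1 3 7 (sgb true) (sgb true) x :=
  aNB3 hκ hx hx' (by decide)

theorem qN_B37pp_012_011 {κ x : ℝ} (hκ : κ * h0 = kenE x) (hx : 39 / 40 ≤ x) (hx' : x < 1) :
    AltVB (VND 3 κ) (DD x) tKN tL pcN [⟨0, 0, 0, 67108864⟩, ⟨1, 1, 0, 67108864⟩, ⟨2, 1, 0, 67108864⟩]
      0 1 2 3 7 (sgb true) (sgb true) x :=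
  aNB3 hκ hx hx' (by decide)

theorem qN_B37pp_022_011 {κ x : ℝ} (hκ : κ * h0 = kenE x) (hx : 39 / 40 ≤ x) (hx' : x < 1) :
    AltVB (VND 3 κ) (DD x) tKN tL pcN [⟨0, 0, 0, 67108864⟩, ⟨1, 1, 0, 67108864⟩, ⟨2, 1, 0, 67108864⟩]
      0 2 2 3 7 (sgb true) (sgb true) x :=
  aNB3 hκ hx hx' (by decide)

theorem qN_B37pp_213_112 {κ x : ℝ} (hκ : κ * h0 = kenE x) (hx : 39 / 40 ≤ x) (hx' : x < 1) :
    AltVB (VND 3 κ) (DD x) tKN tL pcN [⟨0, 1, 0, 67108864⟩, ⟨1, 1, 0, 67108864⟩, ⟨2, 2, 0, 67108864⟩, ⟨3, 0, 0, 1233125376⟩]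
      2 1 3 3 7 (sgb true) (sgb true) x :=
  aNBvp hκ hx hx' (by decide)

theorem qN_B37pm_213_112 {κ x : ℝ} (hκ : κ * h0 = kenE x) (hx : 39 / 40 ≤ x) (hx' : x < 1) :
    AltVB (VND 3 κ) (DD x) tKN tL pcN [⟨0, 1, 0, 67108864⟩, ⟨1, 1, 0, 67108864⟩, ⟨2, 2, 0, 67108864⟩, ⟨3, 0, 0, 1233125376⟩]
      2 1 3 3 7 (sgb true) (sgb false) x :=
  aNBvm hκ hx hx' (by decide)

theorem qN_B37mm_202_101 {κ x : ℝ} (hκ : κ * h0 = kenE x) (hx : 39 / 40 ≤ x) (hx' : x < 1) :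
    AltVB (VND 3 κ) (DD x) tKN tL pcN [⟨0, 1, 0, 67108864⟩, ⟨1, 0, 0, 67108864⟩, ⟨2, 1, 0, 67108864⟩]
      2 0 2 3 7 (sgb false) (sgb false) x :=
  aNB3m hκ hx hx' (by decide) (by decide)

theorem qN_B40pp_011_011 {κ x : ℝ} (hκ : κ * h0 = kenE x) (hx : 39 / 40 ≤ x) (hx' : x < 1) :
    AltVB (VND 3 κ) (DD x) tKN tL pcN [⟨0, 0, 0, 67108864⟩, ⟨1, 1, 0, 67108864⟩, ⟨2, 1, 0, 67108864⟩, ⟨3, 0, 0, 1233125376⟩]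
      0 1 1 4 0 (sgb true) (sgb true) x :=
  aNB1 hκ hx hx' (by decide) (by decide)

theorem qN_B40pp_012_011 {κ x : ℝ} (hκ : κ * h0 = kenE x) (hx : 39 / 40 ≤ x) (hx' : x < 1) :
    AltVB (VND 3 κ) (DD x) tKN tL pcN [⟨0, 0, 0, 67108864⟩, ⟨1, 1, 0, 67108864⟩, ⟨2, 1, 0, 67108864⟩, ⟨3, 0, 0, 1233125376⟩]
      0 1 2 4 0 (sgb true) (sgb true) x :=
  aNB1 hκ hx hx' (by decide) (by decide)

theorem qN_B40pp_022_011 {κ x : ℝ} (hκ : κ * h0 = kenE x) (hx : 39 / 40 ≤ x) (hx' : x < 1) :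
    AltVB (VND 3 κ) (DD x) tKN tL pcN [⟨0, 0, 0, 67108864⟩, ⟨1, 1, 0, 67108864⟩, ⟨2, 1, 0, 67108864⟩, ⟨3, 0, 0, 1233125376⟩]
      0 2 2 4 0 (sgb true) (sgb true) x :=
  aNB1 hκ hx hx' (by decide) (by decide)

theorem qN_B40pm_011_011 {κ x : ℝ} (hκ : κ * h0 = kenE x) (hx : 39 / 40 ≤ x) (hx' : x < 1) :
    AltVB (VND 3 κ) (DD x) tKN tL pcN [⟨0, 0, 0, 67108864⟩, ⟨1, 1, 0, 67108864⟩, ⟨2, 1, 0, 67108864⟩]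
      0 1 1 4 0 (sgb true) (sgb false) x :=
  aNB2 hκ hx hx' (by decide)

theorem qN_B40pm_012_011 {κ x : ℝ} (hκ : κ * h0 = kenE x) (hx : 39 / 40 ≤ x) (hx' : x < 1) :
    AltVB (VND 3 κ) (DD x) tKN tL pcN [⟨0, 0, 0, 67108864⟩, ⟨1, 1, 0, 67108864⟩, ⟨2, 1, 0, 67108864⟩]
      0 1 2 4 0 (sgb true) (sgb false) x :=
  aNB2 hκ hx hx' (by decide)

theorem qN_B40pm_022_011 {κ x : ℝ} (hκ : κ * h0 = kenE x) (hx : 39 / 40 ≤ x) (hx' : x < 1) :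
    AltVB (VND 3 κ) (DD x) tKN tL pcN [⟨0, 0, 0, 67108864⟩, ⟨1, 1, 0, 67108864⟩, ⟨2, 1, 0, 67108864⟩]
      0 2 2 4 0 (sgb true) (sgb false) x :=
  aNB2 hκ hx hx' (by decide)

theorem qN_B43pp_011_011 {κ x : ℝ} (hκ : κ * h0 = kenE x) (hx : 39 / 40 ≤ x) (hx' : x < 1) :
    AltVB (VND 3 κ) (DD x) tKN tL pcN [⟨0, 0, 0, 67108864⟩, ⟨1, 1, 0, 67108864⟩, ⟨2, 1, 0, 67108864⟩]
      0 1 1 4 3 (sgb true) (sgb true) x :=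
  aNB3 hκ hx hx' (by decide)

theorem qN_B43pp_012_011 {κ x : ℝ} (hκ : κ * h0 = kenE x) (hx : 39 / 40 ≤ x) (hx' : x < 1) :
    AltVB (VND 3 κ) (DD x) tKN tL pcN [⟨0, 0, 0, 67108864⟩, ⟨1, 1, 0, 67108864⟩, ⟨2, 1, 0, 67108864⟩, ⟨3, 0, 0, 1233125376⟩]
      0 1 2 4 3 (sgb true) (sgb true) x :=
  aNB1 hκ hx hx' (by decide) (by decide)

theorem qN_B43pp_022_011 {κ x : ℝ} (hκ : κ * h0 = kenE x) (hx : 39 / 40 ≤ x) (hx' : x < 1) :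
    AltVB (VND 3 κ) (DD x) tKN tL pcN [⟨0, 0, 0, 67108864⟩, ⟨1, 1, 0, 67108864⟩, ⟨2, 1, 0, 67108864⟩, ⟨3, 0, 0, 1233125376⟩]
      0 2 2 4 3 (sgb true) (sgb true) x :=
  aNB1 hκ hx hx' (by decide) (by decide)

theorem qN_B43pm_012_011 {κ x : ℝ} (hκ : κ * h0 = kenE x) (hx : 39 / 40 ≤ x) (hx' : x < 1) :
    AltVB (VND 3 κ) (DD x) tKN tL pcN [⟨0, 0, 0, 67108864⟩, ⟨1, 1, 0, 67108864⟩, ⟨2, 1, 0, 67108864⟩]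
      0 1 2 4 3 (sgb true) (sgb false) x :=
  aNB2 hκ hx hx' (by decide)

theorem qN_B43pm_022_011 {κ x : ℝ} (hκ : κ * h0 = kenE x) (hx : 39 / 40 ≤ x) (hx' : x < 1) :
    AltVB (VND 3 κ) (DD x) tKN tL pcN [⟨0, 0, 0, 67108864⟩, ⟨1, 1, 0, 67108864⟩, ⟨2, 1, 0, 67108864⟩]
      0 2 2 4 3 (sgb true) (sgb false) x :=
  aNB2 hκ hx hx' (by decide)

theorem qN_B47pp_011_011 {κ x : ℝ} (hκ : κ * h0 = kenE x) (hx : 39 / 40 ≤ x) (hx' : x < 1) :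
    AltVB (VND 3 κ) (DD x) tKN tL pcN [⟨0, 0, 0, 67108864⟩, ⟨1, 1, 0, 67108864⟩, ⟨2, 1, 0, 67108864⟩]
      0 1 1 4 7 (sgb true) (sgb true) x :=
  aNB3 hκ hx hx' (by decide)

theorem qN_B47pp_012_011 {κ x : ℝ} (hκ : κ * h0 = kenE x) (hx : 39 / 40 ≤ x) (hx' : x < 1) :
    AltVB (VND 3 κ) (DD x) tKN tL pcN [⟨0, 0, 0, 67108864⟩, ⟨1, 1, 0, 67108864⟩, ⟨2, 1, 0, 67108864⟩]
      0 1 2 4 7 (sgb true) (sgb true) x :=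
  aNB3 hκ hx hx' (by decide)

theorem qN_B47pp_022_011 {κ x : ℝ} (hκ : κ * h0 = kenE x) (hx : 39 / 40 ≤ x) (hx' : x < 1) :
    AltVB (VND 3 κ) (DD x) tKN tL pcN [⟨0, 0, 0, 67108864⟩, ⟨1, 1, 0, 67108864⟩, ⟨2, 1, 0, 67108864⟩]
      0 2 2 4 7 (sgb true) (sgb true) x :=
  aNB3 hκ hx hx' (by decide)

theorem qN_B70pp_101_101 {κ x : ℝ} (hκ : κ * h0 = kenE x) (hx : 39 / 40 ≤ x) (hx' : x < 1) :
    AltVB (VND 3 κ) (DD x) tKN tL pcN [⟨0, 1, 0, 67108864⟩, ⟨1, 0, 0, 67108864⟩, ⟨2, 1, 0, 67108864⟩]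
      1 0 1 7 0 (sgb true) (sgb true) x :=
  aNB2m hκ hx hx' (by decide) (by decide)

theorem qN_B70pp_102_101 {κ x : ℝ} (hκ : κ * h0 = kenE x) (hx : 39 / 40 ≤ x) (hx' : x < 1) :
    AltVB (VND 3 κ) (DD x) tKN tL pcN [⟨0, 1, 0, 67108864⟩, ⟨1, 0, 0, 67108864⟩, ⟨2, 1, 0, 67108864⟩]
      1 0 2 7 0 (sgb true) (sgb true) x :=
  aNB2m hκ hx hx' (by decide) (by decide)

theorem qN_B70pp_202_101 {κ x : ℝ} (hκ : κ * h0 = kenE x) (hx : 39 / 40 ≤ x) (hx' : x < 1) :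
    AltVB (VND 3 κ) (DD x) tKN tL pcN [⟨0, 1, 0, 67108864⟩, ⟨1, 0, 0, 67108864⟩, ⟨2, 1, 0, 67108864⟩]
      2 0 2 7 0 (sgb true) (sgb true) x :=
  aNB2m hκ hx hx' (by decide) (by decide)

theorem qN_B73pp_102_101 {κ x : ℝ} (hκ : κ * h0 = kenE x) (hx : 39 / 40 ≤ x) (hx' : x < 1) :
    AltVB (VND 3 κ) (DD x) tKN tL pcN [⟨0, 1, 0, 67108864⟩, ⟨1, 0, 0, 67108864⟩, ⟨2, 1, 0, 67108864⟩]
      1 0 2 7 3 (sgb true) (sgb true) x :=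
  aNB2m hκ hx hx' (by decide) (by decide)

theorem qN_B73pp_202_101 {κ x : ℝ} (hκ : κ * h0 = kenE x) (hx : 39 / 40 ≤ x) (hx' : x < 1) :
    AltVB (VND 3 κ) (DD x) tKN tL pcN [⟨0, 1, 0, 67108864⟩, ⟨1, 0, 0, 67108864⟩, ⟨2, 1, 0, 67108864⟩]
      2 0 2 7 3 (sgb true) (sgb true) x :=
  aNB2m hκ hx hx' (by decide) (by decide)

end Pool.Agent.Strip051.G.IE1.Tab
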