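import Pool.Agent.Strip051.G.IE1.StNg0
import Pool.Agent.Strip051.G.IE1.StNg1
import Pool.Agent.Strip051.G.IE1.StNg2
import Pool.Agent.Strip051.G.IE1.StNg3
import Pool.Agent.Strip051.G.IE1.StNg4
import Pool.Agent.Strip051.G.IE1.StNg5
import Pool.Agent.Strip051.G.IE1.StNg6
import Pool.Agent.Strip051.G.IE1.StNg7
import Pool.Agent.Strip051.G.IE1.StNg8
import Pool.Agent.Strip051.G.IE1.StNg9
import Pool.Agent.Strip051.G.IE1.StNg10
import Pool.Agent.Strip051.G.IE1.StNg11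
import Pool.Agent.Strip051.G.IE1.StNg12
import Pool.Agent.Strip051.G.IE1.StNg13
import Pool.Agent.Strip051.G.IE1.StNg14
import Pool.Agent.Strip051.G.IE1.StNg15
import Pool.Agent.Strip051.G.IE1.StNg16
import Pool.Agent.Strip051.G.IE1.StNg17
import Pool.Agent.Strip051.G.IE1.StNg18
import Pool.Agent.Strip051.G.IE1.StNg19
import Pool.Agent.Strip051.G.IE1.StNg20
import Pool.Agent.Strip051.G.IE1.StNg21
import Pool.Agent.Strip051.G.IE1.StNg22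
import Pool.Agent.Strip051.G.IE1.StNg23
import Pool.Agent.Strip051.G.IE1.StNg24
import Pool.Agent.Strip051.G.IE1.StNg25
import Pool.Agent.Strip051.G.IE1.StNg26
import Pool.Agent.Strip051.G.IE1.StNg27
import Pool.Agent.Strip051.G.IE1.StNg28
import Pool.Agent.Strip051.G.IE1.StNg29
import Pool.Agent.Strip051.G.IE1.StNg30
import Pool.Agent.Strip051.G.IE1.StNg31
import Pool.Agent.Strip051.G.IE1.StNg32
import Pool.Agent.Strip051.G.IE1.StNg33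
import Pool.Agent.Strip051.G.IE1.StNg34
import Pool.Agent.Strip051.G.IE1.StNg35
import Pool.Agent.Strip051.G.IE1.StNg36
import Pool.Agent.Strip051.G.IE1.StNg37
import Pool.Agent.Strip051.G.IE1.StNg38
import Pool.Agent.Strip051.G.IE1.StNg39
import Pool.Agent.Strip051.G.IE1.StNg40
import Pool.Agent.Strip051.G.IE1.StNg41
import Pool.Agent.Strip051.G.IE1.StNg42
import Pool.Agent.Strip051.G.IE1.StNg43
import Pool.Agent.Strip051.G.IE1.StNg44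
import Pool.Agent.Strip051.G.IE1.StNg45
import Pool.Agent.Strip051.G.IE1.StNg46
import Pool.Agent.Strip051.G.IE1.StNg47
import Pool.Agent.Strip051.G.IE1.StNg48
import Pool.Agent.Strip051.G.IE1.StNg49
import Pool.Agent.Strip051.G.IE1.StNg50
import Pool.Agent.Strip051.G.IE1.StNg51
import Pool.Agent.Strip051.G.IE1.StNg52
import Pool.Agent.Strip051.G.IE1.StNg53
import Pool.Agent.Strip051.G.IE1.StNg54
import Pool.Agent.Strip051.G.IE1.StNg55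
import Pool.Agent.Strip051.G.IE1.StNg56
import Pool.Agent.Strip051.G.IE1.StNg57
import Pool.Agent.Strip051.G.IE1.StNg58
import Pool.Agent.Strip051.G.IE1.StNg59
import Pool.Agent.Strip051.G.IE1.StNg60
import Pool.Agent.Strip051.G.IE1.StNg61
import Pool.Agent.Strip051.G.IE1.StNg62
import Pool.Agent.Strip051.G.IE1.StNg63
import Pool.Agent.Strip051.G.IE1.StNg64

/-! # Strips StNgZ (generated) -/

set_option linter.all false
set_option maxRecDepth 100000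

namespace Pool.Agent.Strip051.G.IE1.Tab.StN.C

open Pool.Agent.Strip051.PB Pool.Agent.Strip051.PB.T
open Pool.Agent.StripNear Pool.Agent.Strip051.LC
open Pool.Agent.Strip051.G.IE1.Tab Pool.Agent.Strip051.G.IE1.Tab.St Pool.Agent.Strip051.G.IE1.Tab.StN

theorem t5215_A00pp_022_s3 : ∃ t, chk3 f_A00pp_022_s3 t 3 6 6 = true := ex3_b k5211_A00pp_022_s3 k5212_A00pp_022_s3

theorem t5216_A00pp_022_s3 : ∃ t, chk3 f_A00pp_022_s3 t 3 6 3 = true := ex3_c t5215_A00pp_022_s3 k5213_A00pp_022_s3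

theorem t5217_A00pp_022_s3 : ∃ t, chk3 f_A00pp_022_s3 t 3 6 5 = true := ex3_b k5209_A00pp_022_s3 k5210_A00pp_022_s3

theorem t5218_A00pp_022_s3 : ∃ t, chk3 f_A00pp_022_s3 t 3 13 4 = true := ex3_b k5207_A00pp_022_s3 k5208_A00pp_022_s3

theorem t5219_A00pp_022_s3 : ∃ t, chk3 f_A00pp_022_s3 t 3 6 4 = true := ex3_b k5206_A00pp_022_s3 t5218_A00pp_022_s3

theorem t5220_A00pp_022_s3 : ∃ t, chk3 f_A00pp_022_s3 t 3 6 2 = true := ex3_c t5219_A00pp_022_s3 t5217_A00pp_022_s3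

theorem t5221_A00pp_022_s3 : ∃ t, chk3 f_A00pp_022_s3 t 3 6 1 = true := ex3_c t5220_A00pp_022_s3 t5216_A00pp_022_s3

theorem t5222_A00pp_022_s3 : ∃ t, chk3 f_A00pp_022_s3 t 3 3 1 = true := ex3_b t5221_A00pp_022_s3 k5214_A00pp_022_s3

theorem t5223_A00pp_022_s3 : ∃ t, chk3 f_A00pp_022_s3 t 3 1 1 = true := ex3_b k5205_A00pp_022_s3 t5222_A00pp_022_s3

theorem t5224_A00pp_022_s3 : ∃ t, chk3 f_A00pp_022_s3 t 23 14 1 = true := ex3_c k5202_A00pp_022_s3 k5203_A00pp_022_s3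

theorem t5225_A00pp_022_s3 : ∃ t, chk3 f_A00pp_022_s3 t 23 7 1 = true := ex3_b t5224_A00pp_022_s3 k5204_A00pp_022_s3

theorem t5226_A00pp_022_s3 : ∃ t, chk3 f_A00pp_022_s3 t 44 114 2 = true := ex3_a k5195_A00pp_022_s3 k5196_A00pp_022_s3

theorem t5227_A00pp_022_s3 : ∃ t, chk3 f_A00pp_022_s3 t 44 57 2 = true := ex3_b t5226_A00pp_022_s3 k5197_A00pp_022_s3

theorem t5228_A00pp_022_s3 : ∃ t, chk3 f_A00pp_022_s3 t 22 57 2 = true := ex3_a t5227_A00pp_022_s3 k5198_A00pp_022_s3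

theorem t5229_A00pp_022_s3 : ∃ t, chk3 f_A00pp_022_s3 t 22 56 2 = true := ex3_a k5193_A00pp_022_s3 k5194_A00pp_022_s3

theorem t5230_A00pp_022_s3 : ∃ t, chk3 f_A00pp_022_s3 t 22 28 2 = true := ex3_b t5229_A00pp_022_s3 t5228_A00pp_022_s3

theorem t5231_A00pp_022_s3 : ∃ t, chk3 f_A00pp_022_s3 t 22 14 2 = true := ex3_b t5230_A00pp_022_s3 k5199_A00pp_022_s3

theorem t5232_A00pp_022_s3 : ∃ t, chk3 f_A00pp_022_s3 t 22 14 1 = true := ex3_c t5231_A00pp_022_s3 k5200_A00pp_022_s3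

theorem t5233_A00pp_022_s3 : ∃ t, chk3 f_A00pp_022_s3 t 22 7 1 = true := ex3_b t5232_A00pp_022_s3 k5201_A00pp_022_s3

theorem t5234_A00pp_022_s3 : ∃ t, chk3 f_A00pp_022_s3 t 11 7 1 = true := ex3_a t5233_A00pp_022_s3 t5225_A00pp_022_s3

theorem t5235_A00pp_022_s3 : ∃ t, chk3 f_A00pp_022_s3 t 21 29 3 = true := ex3_a k5190_A00pp_022_s3 k5191_A00pp_022_s3

theorem t5236_A00pp_022_s3 : ∃ t, chk3 f_A00pp_022_s3 t 42 58 5 = true := ex3_a k5186_A00pp_022_s3 k5187_A00pp_022_s3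

theorem t5237_A00pp_022_s3 : ∃ t, chk3 f_A00pp_022_s3 t 42 29 5 = true := ex3_b t5236_A00pp_022_s3 k5188_A00pp_022_s3

theorem t5238_A00pp_022_s3 : ∃ t, chk3 f_A00pp_022_s3 t 21 29 5 = true := ex3_a t5237_A00pp_022_s3 k5189_A00pp_022_s3

theorem t5239_A00pp_022_s3 : ∃ t, chk3 f_A00pp_022_s3 t 85 233 4 = true := ex3_a k5181_A00pp_022_s3 k5182_A00pp_022_s3

theorem t5240_A00pp_022_s3 : ∃ t, chk3 f_A00pp_022_s3 t 85 116 4 = true := ex3_b k5180_A00pp_022_s3 t5239_A00pp_022_s3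

theorem t5241_A00pp_022_s3 : ∃ t, chk3 f_A00pp_022_s3 t 85 58 4 = true := ex3_b t5240_A00pp_022_s3 k5183_A00pp_022_s3

theorem t5242_A00pp_022_s3 : ∃ t, chk3 f_A00pp_022_s3 t 84 234 4 = true := ex3_a k5177_A00pp_022_s3 k5178_A00pp_022_s3

theorem t5243_A00pp_022_s3 : ∃ t, chk3 f_A00pp_022_s3 t 84 117 4 = true := ex3_b t5242_A00pp_022_s3 k5179_A00pp_022_s3

theorem t5244_A00pp_022_s3 : ∃ t, chk3 f_A00pp_022_s3 t 84 58 4 = true := ex3_b k5176_A00pp_022_s3 t5243_A00pp_022_s3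

theorem t5245_A00pp_022_s3 : ∃ t, chk3 f_A00pp_022_s3 t 42 58 4 = true := ex3_a t5244_A00pp_022_s3 t5241_A00pp_022_s3

theorem t5246_A00pp_022_s3 : ∃ t, chk3 f_A00pp_022_s3 t 21 58 4 = true := ex3_a t5245_A00pp_022_s3 k5184_A00pp_022_s3

theorem t5247_A00pp_022_s3 : ∃ t, chk3 f_A00pp_022_s3 t 21 29 4 = true := ex3_b t5246_A00pp_022_s3 k5185_A00pp_022_s3

theorem t5248_A00pp_022_s3 : ∃ t, chk3 f_A00pp_022_s3 t 21 29 2 = true := ex3_c t5247_A00pp_022_s3 t5238_A00pp_022_s3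

theorem t5249_A00pp_022_s3 : ∃ t, chk3 f_A00pp_022_s3 t 21 29 1 = true := ex3_c t5248_A00pp_022_s3 t5235_A00pp_022_s3

theorem t5250_A00pp_022_s3 : ∃ t, chk3 f_A00pp_022_s3 t 43 231 2 = true := ex3_a k5173_A00pp_022_s3 k5174_A00pp_022_s3

theorem t5251_A00pp_022_s3 : ∃ t, chk3 f_A00pp_022_s3 t 43 115 2 = true := ex3_b k5172_A00pp_022_s3 t5250_A00pp_022_s3

theorem t5252_A00pp_022_s3 : ∃ t, chk3 f_A00pp_022_s3 t 43 57 2 = true := ex3_b k5171_A00pp_022_s3 t5251_A00pp_022_s3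

theorem t5253_A00pp_022_s3 : ∃ t, chk3 f_A00pp_022_s3 t 21 57 2 = true := ex3_a k5170_A00pp_022_s3 t5252_A00pp_022_s3

theorem t5254_A00pp_022_s3 : ∃ t, chk3 f_A00pp_022_s3 t 21 57 1 = true := ex3_c t5253_A00pp_022_s3 k5175_A00pp_022_s3

theorem t5255_A00pp_022_s3 : ∃ t, chk3 f_A00pp_022_s3 t 21 28 1 = true := ex3_b k5169_A00pp_022_s3 t5254_A00pp_022_s3

theorem t5256_A00pp_022_s3 : ∃ t, chk3 f_A00pp_022_s3 t 21 14 1 = true := ex3_b t5255_A00pp_022_s3 t5249_A00pp_022_s3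

theorem t5257_A00pp_022_s3 : ∃ t, chk3 f_A00pp_022_s3 t 82 236 4 = true := ex3_a k5162_A00pp_022_s3 k5163_A00pp_022_s3

theorem t5258_A00pp_022_s3 : ∃ t, chk3 f_A00pp_022_s3 t 82 118 4 = true := ex3_b t5257_A00pp_022_s3 k5164_A00pp_022_s3

theorem t5259_A00pp_022_s3 : ∃ t, chk3 f_A00pp_022_s3 t 41 118 4 = true := ex3_a t5258_A00pp_022_s3 k5165_A00pp_022_s3

theorem t5260_A00pp_022_s3 : ∃ t, chk3 f_A00pp_022_s3 t 41 59 4 = true := ex3_b t5259_A00pp_022_s3 k5166_A00pp_022_s3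

theorem t5261_A00pp_022_s3 : ∃ t, chk3 f_A00pp_022_s3 t 41 59 2 = true := ex3_c t5260_A00pp_022_s3 k5167_A00pp_022_s3

theorem t5262_A00pp_022_s3 : ∃ t, chk3 f_A00pp_022_s3 t 41 59 1 = true := ex3_c t5261_A00pp_022_s3 k5168_A00pp_022_s3

theorem t5263_A00pp_022_s3 : ∃ t, chk3 f_A00pp_022_s3 t 166 235 2 = true := ex3_c k5158_A00pp_022_s3 k5159_A00pp_022_s3

theorem t5264_A00pp_022_s3 : ∃ t, chk3 f_A00pp_022_s3 t 83 235 2 = true := ex3_a t5263_A00pp_022_s3 k5160_A00pp_022_s3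

theorem t5265_A00pp_022_s3 : ∃ t, chk3 f_A00pp_022_s3 t 83 117 2 = true := ex3_b k5157_A00pp_022_s3 t5264_A00pp_022_s3

theorem t5266_A00pp_022_s3 : ∃ t, chk3 f_A00pp_022_s3 t 41 117 2 = true := ex3_a k5156_A00pp_022_s3 t5265_A00pp_022_s3

theorem t5267_A00pp_022_s3 : ∃ t, chk3 f_A00pp_022_s3 t 41 58 2 = true := ex3_b k5155_A00pp_022_s3 t5266_A00pp_022_s3

theorem t5268_A00pp_022_s3 : ∃ t, chk3 f_A00pp_022_s3 t 41 58 1 = true := ex3_c t5267_A00pp_022_s3 k5161_A00pp_022_s3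

theorem t5269_A00pp_022_s3 : ∃ t, chk3 f_A00pp_022_s3 t 41 29 1 = true := ex3_b t5268_A00pp_022_s3 t5262_A00pp_022_s3

theorem t5270_A00pp_022_s3 : ∃ t, chk3 f_A00pp_022_s3 t 41 14 1 = true := ex3_b k5154_A00pp_022_s3 t5269_A00pp_022_s3

theorem t5271_A00pp_022_s3 : ∃ t, chk3 f_A00pp_022_s3 t 40 59 3 = true := ex3_b k5152_A00pp_022_s3 k5153_A00pp_022_s3

theorem t5272_A00pp_022_s3 : ∃ t, chk3 f_A00pp_022_s3 t 80 119 5 = true := ex3_a k5149_A00pp_022_s3 k5150_A00pp_022_s3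

theorem t5273_A00pp_022_s3 : ∃ t, chk3 f_A00pp_022_s3 t 40 119 5 = true := ex3_a t5272_A00pp_022_s3 k5151_A00pp_022_s3

theorem t5274_A00pp_022_s3 : ∃ t, chk3 f_A00pp_022_s3 t 80 119 9 = true := ex3_a k5146_A00pp_022_s3 k5147_A00pp_022_s3

theorem t5275_A00pp_022_s3 : ∃ t, chk3 f_A00pp_022_s3 t 40 119 9 = true := ex3_a t5274_A00pp_022_s3 k5148_A00pp_022_s3

theorem t5276_A00pp_022_s3 : ∃ t, chk3 f_A00pp_022_s3 t 80 119 8 = true := ex3_a k5143_A00pp_022_s3 k5144_A00pp_022_s3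

theorem t5277_A00pp_022_s3 : ∃ t, chk3 f_A00pp_022_s3 t 40 119 8 = true := ex3_a t5276_A00pp_022_s3 k5145_A00pp_022_s3

theorem t5278_A00pp_022_s3 : ∃ t, chk3 f_A00pp_022_s3 t 40 119 4 = true := ex3_c t5277_A00pp_022_s3 t5275_A00pp_022_s3

theorem t5279_A00pp_022_s3 : ∃ t, chk3 f_A00pp_022_s3 t 40 119 2 = true := ex3_c t5278_A00pp_022_s3 t5273_A00pp_022_s3

theorem t5280_A00pp_022_s3 : ∃ t, chk3 f_A00pp_022_s3 t 163 237 2 = true := ex3_a k5141_A00pp_022_s3 k5142_A00pp_022_s3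

theorem t5281_A00pp_022_s3 : ∃ t, chk3 f_A00pp_022_s3 t 81 237 2 = true := ex3_a k5140_A00pp_022_s3 t5280_A00pp_022_s3

theorem t5282_A00pp_022_s3 : ∃ t, chk3 f_A00pp_022_s3 t 81 118 2 = true := ex3_b k5139_A00pp_022_s3 t5281_A00pp_022_s3

theorem t5283_A00pp_022_s3 : ∃ t, chk3 f_A00pp_022_s3 t 40 118 2 = true := ex3_a k5138_A00pp_022_s3 t5282_A00pp_022_s3

theorem t5284_A00pp_022_s3 : ∃ t, chk3 f_A00pp_022_s3 t 40 59 2 = true := ex3_b t5283_A00pp_022_s3 t5279_A00pp_022_s3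

theorem t5285_A00pp_022_s3 : ∃ t, chk3 f_A00pp_022_s3 t 40 59 1 = true := ex3_c t5284_A00pp_022_s3 t5271_A00pp_022_s3

theorem t5286_A00pp_022_s3 : ∃ t, chk3 f_A00pp_022_s3 t 40 58 2 = true := ex3_b k5135_A00pp_022_s3 k5136_A00pp_022_s3

theorem t5287_A00pp_022_s3 : ∃ t, chk3 f_A00pp_022_s3 t 40 58 1 = true := ex3_c t5286_A00pp_022_s3 k5137_A00pp_022_s3

theorem t5288_A00pp_022_s3 : ∃ t, chk3 f_A00pp_022_s3 t 40 29 1 = true := ex3_b t5287_A00pp_022_s3 t5285_A00pp_022_s3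

theorem t5289_A00pp_022_s3 : ∃ t, chk3 f_A00pp_022_s3 t 40 14 1 = true := ex3_b k5134_A00pp_022_s3 t5288_A00pp_022_s3

theorem t5290_A00pp_022_s3 : ∃ t, chk3 f_A00pp_022_s3 t 20 14 1 = true := ex3_a t5289_A00pp_022_s3 t5270_A00pp_022_s3

theorem t5291_A00pp_022_s3 : ∃ t, chk3 f_A00pp_022_s3 t 10 14 1 = true := ex3_a t5290_A00pp_022_s3 t5256_A00pp_022_s3

theorem t5292_A00pp_022_s3 : ∃ t, chk3 f_A00pp_022_s3 t 10 7 1 = true := ex3_b t5291_A00pp_022_s3 k5192_A00pp_022_s3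

theorem t5293_A00pp_022_s3 : ∃ t, chk3 f_A00pp_022_s3 t 5 7 1 = true := ex3_a t5292_A00pp_022_s3 t5234_A00pp_022_s3

theorem t5294_A00pp_022_s3 : ∃ t, chk3 f_A00pp_022_s3 t 23 27 2 = true := ex3_b k5131_A00pp_022_s3 k5132_A00pp_022_s3

theorem t5295_A00pp_022_s3 : ∃ t, chk3 f_A00pp_022_s3 t 23 13 2 = true := ex3_b k5130_A00pp_022_s3 t5294_A00pp_022_s3

theorem t5296_A00pp_022_s3 : ∃ t, chk3 f_A00pp_022_s3 t 23 13 1 = true := ex3_c t5295_A00pp_022_s3 k5133_A00pp_022_s3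

theorem t5297_A00pp_022_s3 : ∃ t, chk3 f_A00pp_022_s3 t 23 6 1 = true := ex3_b k5129_A00pp_022_s3 t5296_A00pp_022_s3

theorem t5298_A00pp_022_s3 : ∃ t, chk3 f_A00pp_022_s3 t 11 6 1 = true := ex3_a k5128_A00pp_022_s3 t5297_A00pp_022_s3

theorem t5299_A00pp_022_s3 : ∃ t, chk3 f_A00pp_022_s3 t 5 6 1 = true := ex3_a k5127_A00pp_022_s3 t5298_A00pp_022_s3

theorem t5300_A00pp_022_s3 : ∃ t, chk3 f_A00pp_022_s3 t 5 3 1 = true := ex3_b t5299_A00pp_022_s3 t5293_A00pp_022_s3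

theorem t5301_A00pp_022_s3 : ∃ t, chk3 f_A00pp_022_s3 t 5 1 1 = true := ex3_b k5126_A00pp_022_s3 t5300_A00pp_022_s3

theorem t5302_A00pp_022_s3 : ∃ t, chk3 f_A00pp_022_s3 t 78 120 3 = true := ex3_a k5120_A00pp_022_s3 k5121_A00pp_022_s3

theorem t5303_A00pp_022_s3 : ∃ t, chk3 f_A00pp_022_s3 t 78 60 3 = true := ex3_b t5302_A00pp_022_s3 k5122_A00pp_022_s3

theorem t5304_A00pp_022_s3 : ∃ t, chk3 f_A00pp_022_s3 t 39 60 3 = true := ex3_a t5303_A00pp_022_s3 k5123_A00pp_022_s3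

theorem t5305_A00pp_022_s3 : ∃ t, chk3 f_A00pp_022_s3 t 39 30 3 = true := ex3_b t5304_A00pp_022_s3 k5124_A00pp_022_s3

theorem t5306_A00pp_022_s3 : ∃ t, chk3 f_A00pp_022_s3 t 155 241 6 = true := ex3_a k5115_A00pp_022_s3 k5116_A00pp_022_s3

theorem t5307_A00pp_022_s3 : ∃ t, chk3 f_A00pp_022_s3 t 155 241 3 = true := ex3_c t5306_A00pp_022_s3 k5117_A00pp_022_s3

theorem t5308_A00pp_022_s3 : ∃ t, chk3 f_A00pp_022_s3 t 77 241 3 = true := ex3_a k5114_A00pp_022_s3 t5307_A00pp_022_s3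

theorem t5309_A00pp_022_s3 : ∃ t, chk3 f_A00pp_022_s3 t 77 120 3 = true := ex3_b k5113_A00pp_022_s3 t5308_A00pp_022_s3

theorem t5310_A00pp_022_s3 : ∃ t, chk3 f_A00pp_022_s3 t 77 60 3 = true := ex3_b t5309_A00pp_022_s3 k5118_A00pp_022_s3

theorem t5311_A00pp_022_s3 : ∃ t, chk3 f_A00pp_022_s3 t 76 243 3 = true := ex3_a k5111_A00pp_022_s3 k5112_A00pp_022_s3

theorem t5312_A00pp_022_s3 : ∃ t, chk3 f_A00pp_022_s3 t 76 121 3 = true := ex3_b k5110_A00pp_022_s3 t5311_A00pp_022_s3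

theorem t5313_A00pp_022_s3 : ∃ t, chk3 f_A00pp_022_s3 t 76 60 3 = true := ex3_b k5109_A00pp_022_s3 t5312_A00pp_022_s3

theorem t5314_A00pp_022_s3 : ∃ t, chk3 f_A00pp_022_s3 t 38 60 3 = true := ex3_a t5313_A00pp_022_s3 t5310_A00pp_022_s3

theorem t5315_A00pp_022_s3 : ∃ t, chk3 f_A00pp_022_s3 t 38 30 3 = true := ex3_b t5314_A00pp_022_s3 k5119_A00pp_022_s3

theorem t5316_A00pp_022_s3 : ∃ t, chk3 f_A00pp_022_s3 t 19 30 3 = true := ex3_a t5315_A00pp_022_s3 t5305_A00pp_022_s3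

theorem t5317_A00pp_022_s3 : ∃ t, chk3 f_A00pp_022_s3 t 19 15 3 = true := ex3_b t5316_A00pp_022_s3 k5125_A00pp_022_s3

theorem t5318_A00pp_022_s3 : ∃ t, chk3 f_A00pp_022_s3 t 156 120 5 = true := ex3_b k5102_A00pp_022_s3 k5103_A00pp_022_s3

theorem t5319_A00pp_022_s3 : ∃ t, chk3 f_A00pp_022_s3 t 78 120 5 = true := ex3_a t5318_A00pp_022_s3 k5104_A00pp_022_s3

theorem t5320_A00pp_022_s3 : ∃ t, chk3 f_A00pp_022_s3 t 39 120 5 = true := ex3_a t5319_A00pp_022_s3 k5105_A00pp_022_s3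

theorem t5321_A00pp_022_s3 : ∃ t, chk3 f_A00pp_022_s3 t 79 120 4 = true := ex3_c k5100_A00pp_022_s3 k5101_A00pp_022_s3

theorem t5322_A00pp_022_s3 : ∃ t, chk3 f_A00pp_022_s3 t 157 120 4 = true := ex3_c k5098_A00pp_022_s3 k5099_A00pp_022_s3

theorem t5323_A00pp_022_s3 : ∃ t, chk3 f_A00pp_022_s3 t 156 241 8 = true := ex3_c k5095_A00pp_022_s3 k5096_A00pp_022_s3

theorem t5324_A00pp_022_s3 : ∃ t, chk3 f_A00pp_022_s3 t 156 241 4 = true := ex3_c t5323_A00pp_022_s3 k5097_A00pp_022_s3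

theorem t5325_A00pp_022_s3 : ∃ t, chk3 f_A00pp_022_s3 t 156 120 4 = true := ex3_b k5094_A00pp_022_s3 t5324_A00pp_022_s3

theorem t5326_A00pp_022_s3 : ∃ t, chk3 f_A00pp_022_s3 t 78 120 4 = true := ex3_a t5325_A00pp_022_s3 t5322_A00pp_022_s3

theorem t5327_A00pp_022_s3 : ∃ t, chk3 f_A00pp_022_s3 t 39 120 4 = true := ex3_a t5326_A00pp_022_s3 t5321_A00pp_022_s3

theorem t5328_A00pp_022_s3 : ∃ t, chk3 f_A00pp_022_s3 t 39 120 2 = true := ex3_c t5327_A00pp_022_s3 t5320_A00pp_022_s3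

theorem t5329_A00pp_022_s3 : ∃ t, chk3 f_A00pp_022_s3 t 39 60 2 = true := ex3_b t5328_A00pp_022_s3 k5106_A00pp_022_s3

theorem t5330_A00pp_022_s3 : ∃ t, chk3 f_A00pp_022_s3 t 39 30 2 = true := ex3_b t5329_A00pp_022_s3 k5107_A00pp_022_s3

theorem t5331_A00pp_022_s3 : ∃ t, chk3 f_A00pp_022_s3 t 39 15 2 = true := ex3_b t5330_A00pp_022_s3 k5108_A00pp_022_s3

theorem t5332_A00pp_022_s3 : ∃ t, chk3 f_A00pp_022_s3 t 154 484 5 = true := ex3_b k5087_A00pp_022_s3 k5088_A00pp_022_s3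

theorem t5333_A00pp_022_s3 : ∃ t, chk3 f_A00pp_022_s3 t 154 242 5 = true := ex3_b t5332_A00pp_022_s3 k5089_A00pp_022_s3

theorem t5334_A00pp_022_s3 : ∃ t, chk3 f_A00pp_022_s3 t 154 121 5 = true := ex3_b t5333_A00pp_022_s3 k5090_A00pp_022_s3

theorem t5335_A00pp_022_s3 : ∃ t, chk3 f_A00pp_022_s3 t 77 121 5 = true := ex3_a t5334_A00pp_022_s3 k5091_A00pp_022_s3

theorem t5336_A00pp_022_s3 : ∃ t, chk3 f_A00pp_022_s3 t 154 242 9 = true := ex3_b k5083_A00pp_022_s3 k5084_A00pp_022_s3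

theorem t5337_A00pp_022_s3 : ∃ t, chk3 f_A00pp_022_s3 t 77 242 9 = true := ex3_a t5336_A00pp_022_s3 k5085_A00pp_022_s3

theorem t5338_A00pp_022_s3 : ∃ t, chk3 f_A00pp_022_s3 t 154 242 8 = true := ex3_b k5080_A00pp_022_s3 k5081_A00pp_022_s3

theorem t5339_A00pp_022_s3 : ∃ t, chk3 f_A00pp_022_s3 t 77 242 8 = true := ex3_a t5338_A00pp_022_s3 k5082_A00pp_022_s3

theorem t5340_A00pp_022_s3 : ∃ t, chk3 f_A00pp_022_s3 t 77 242 4 = true := ex3_c t5339_A00pp_022_s3 t5337_A00pp_022_s3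

theorem t5341_A00pp_022_s3 : ∃ t, chk3 f_A00pp_022_s3 t 77 121 4 = true := ex3_b t5340_A00pp_022_s3 k5086_A00pp_022_s3

theorem t5342_A00pp_022_s3 : ∃ t, chk3 f_A00pp_022_s3 t 77 121 2 = true := ex3_c t5341_A00pp_022_s3 t5335_A00pp_022_s3

theorem t5343_A00pp_022_s3 : ∃ t, chk3 f_A00pp_022_s3 t 311 483 2 = true := ex3_c k5078_A00pp_022_s3 k5079_A00pp_022_s3

theorem t5344_A00pp_022_s3 : ∃ t, chk3 f_A00pp_022_s3 t 311 241 2 = true := ex3_b k5077_A00pp_022_s3 t5343_A00pp_022_s3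

theorem t5345_A00pp_022_s3 : ∃ t, chk3 f_A00pp_022_s3 t 621 483 2 = true := ex3_b k5075_A00pp_022_s3 k5076_A00pp_022_s3

theorem t5346_A00pp_022_s3 : ∃ t, chk3 f_A00pp_022_s3 t 620 967 2 = true := ex3_c k5073_A00pp_022_s3 k5074_A00pp_022_s3

theorem t5347_A00pp_022_s3 : ∃ t, chk3 f_A00pp_022_s3 t 620 483 2 = true := ex3_b k5072_A00pp_022_s3 t5346_A00pp_022_s3

theorem t5348_A00pp_022_s3 : ∃ t, chk3 f_A00pp_022_s3 t 310 483 2 = true := ex3_a t5347_A00pp_022_s3 t5345_A00pp_022_s3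

theorem t5349_A00pp_022_s3 : ∃ t, chk3 f_A00pp_022_s3 t 310 241 2 = true := ex3_b k5071_A00pp_022_s3 t5348_A00pp_022_s3

theorem t5350_A00pp_022_s3 : ∃ t, chk3 f_A00pp_022_s3 t 155 241 2 = true := ex3_a t5349_A00pp_022_s3 t5344_A00pp_022_s3

theorem t5351_A00pp_022_s3 : ∃ t, chk3 f_A00pp_022_s3 t 77 241 2 = true := ex3_a k5070_A00pp_022_s3 t5350_A00pp_022_s3

theorem t5352_A00pp_022_s3 : ∃ t, chk3 f_A00pp_022_s3 t 77 240 2 = true := ex3_a k5068_A00pp_022_s3 k5069_A00pp_022_s3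

theorem t5353_A00pp_022_s3 : ∃ t, chk3 f_A00pp_022_s3 t 77 120 2 = true := ex3_b t5352_A00pp_022_s3 t5351_A00pp_022_s3

theorem t5354_A00pp_022_s3 : ∃ t, chk3 f_A00pp_022_s3 t 77 60 2 = true := ex3_b t5353_A00pp_022_s3 t5342_A00pp_022_s3

theorem t5355_A00pp_022_s3 : ∃ t, chk3 f_A00pp_022_s3 t 305 486 5 = true := ex3_a k5064_A00pp_022_s3 k5065_A00pp_022_s3

theorem t5356_A00pp_022_s3 : ∃ t, chk3 f_A00pp_022_s3 t 152 486 5 = true := ex3_a k5063_A00pp_022_s3 t5355_A00pp_022_s3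

theorem t5357_A00pp_022_s3 : ∃ t, chk3 f_A00pp_022_s3 t 152 243 5 = true := ex3_b t5356_A00pp_022_s3 k5066_A00pp_022_s3

theorem t5358_A00pp_022_s3 : ∃ t, chk3 f_A00pp_022_s3 t 76 243 5 = true := ex3_a t5357_A00pp_022_s3 k5067_A00pp_022_s3

theorem t5359_A00pp_022_s3 : ∃ t, chk3 f_A00pp_022_s3 t 153 485 5 = true := ex3_a k5061_A00pp_022_s3 k5062_A00pp_022_s3

theorem t5360_A00pp_022_s3 : ∃ t, chk3 f_A00pp_022_s3 t 153 242 5 = true := ex3_b k5060_A00pp_022_s3 t5359_A00pp_022_s3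

theorem t5361_A00pp_022_s3 : ∃ t, chk3 f_A00pp_022_s3 t 76 242 5 = true := ex3_a k5059_A00pp_022_s3 t5360_A00pp_022_s3

theorem t5362_A00pp_022_s3 : ∃ t, chk3 f_A00pp_022_s3 t 76 121 5 = true := ex3_b t5361_A00pp_022_s3 t5358_A00pp_022_s3

theorem t5363_A00pp_022_s3 : ∃ t, chk3 f_A00pp_022_s3 t 152 486 9 = true := ex3_a k5055_A00pp_022_s3 k5056_A00pp_022_s3

theorem t5364_A00pp_022_s3 : ∃ t, chk3 f_A00pp_022_s3 t 152 243 9 = true := ex3_b t5363_A00pp_022_s3 k5057_A00pp_022_s3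

theorem t5365_A00pp_022_s3 : ∃ t, chk3 f_A00pp_022_s3 t 152 486 8 = true := ex3_a k5052_A00pp_022_s3 k5053_A00pp_022_s3

theorem t5366_A00pp_022_s3 : ∃ t, chk3 f_A00pp_022_s3 t 152 243 8 = true := ex3_b t5365_A00pp_022_s3 k5054_A00pp_022_s3

theorem t5367_A00pp_022_s3 : ∃ t, chk3 f_A00pp_022_s3 t 152 243 4 = true := ex3_c t5366_A00pp_022_s3 t5364_A00pp_022_s3

theorem t5368_A00pp_022_s3 : ∃ t, chk3 f_A00pp_022_s3 t 76 243 4 = true := ex3_a t5367_A00pp_022_s3 k5058_A00pp_022_s3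

theorem t5369_A00pp_022_s3 : ∃ t, chk3 f_A00pp_022_s3 t 153 485 4 = true := ex3_a k5050_A00pp_022_s3 k5051_A00pp_022_s3

theorem t5370_A00pp_022_s3 : ∃ t, chk3 f_A00pp_022_s3 t 153 242 4 = true := ex3_b k5049_A00pp_022_s3 t5369_A00pp_022_s3

theorem t5371_A00pp_022_s3 : ∃ t, chk3 f_A00pp_022_s3 t 608 971 64 = true := ex3_a k5041_A00pp_022_s3 k5042_A00pp_022_s3

theorem t5372_A00pp_022_s3 : ∃ t, chk3 f_A00pp_022_s3 t 304 971 64 = true := ex3_a t5371_A00pp_022_s3 k5043_A00pp_022_s3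

theorem t5373_A00pp_022_s3 : ∃ t, chk3 f_A00pp_022_s3 t 304 970 64 = true := ex3_a k5039_A00pp_022_s3 k5040_A00pp_022_s3

theorem t5374_A00pp_022_s3 : ∃ t, chk3 f_A00pp_022_s3 t 304 485 64 = true := ex3_b t5373_A00pp_022_s3 t5372_A00pp_022_s3

theorem t5375_A00pp_022_s3 : ∃ t, chk3 f_A00pp_022_s3 t 304 485 32 = true := ex3_c t5374_A00pp_022_s3 k5044_A00pp_022_s3

theorem t5376_A00pp_022_s3 : ∃ t, chk3 f_A00pp_022_s3 t 304 485 16 = true := ex3_c t5375_A00pp_022_s3 k5045_A00pp_022_s3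

theorem t5377_A00pp_022_s3 : ∃ t, chk3 f_A00pp_022_s3 t 152 485 16 = true := ex3_a t5376_A00pp_022_s3 k5046_A00pp_022_s3

theorem t5378_A00pp_022_s3 : ∃ t, chk3 f_A00pp_022_s3 t 609 484 64 = true := ex3_b k5034_A00pp_022_s3 k5035_A00pp_022_s3

theorem t5379_A00pp_022_s3 : ∃ t, chk3 f_A00pp_022_s3 t 609 484 32 = true := ex3_c t5378_A00pp_022_s3 k5036_A00pp_022_s3

theorem t5380_A00pp_022_s3 : ∃ t, chk3 f_A00pp_022_s3 t 608 484 32 = true := ex3_c k5032_A00pp_022_s3 k5033_A00pp_022_s3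

theorem t5381_A00pp_022_s3 : ∃ t, chk3 f_A00pp_022_s3 t 304 484 32 = true := ex3_a t5380_A00pp_022_s3 t5379_A00pp_022_s3

theorem t5382_A00pp_022_s3 : ∃ t, chk3 f_A00pp_022_s3 t 152 484 32 = true := ex3_a t5381_A00pp_022_s3 k5037_A00pp_022_s3

theorem t5383_A00pp_022_s3 : ∃ t, chk3 f_A00pp_022_s3 t 152 484 16 = true := ex3_c t5382_A00pp_022_s3 k5038_A00pp_022_s3

theorem t5384_A00pp_022_s3 : ∃ t, chk3 f_A00pp_022_s3 t 152 242 16 = true := ex3_b t5383_A00pp_022_s3 t5377_A00pp_022_s3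

theorem t5385_A00pp_022_s3 : ∃ t, chk3 f_A00pp_022_s3 t 152 242 8 = true := ex3_c t5384_A00pp_022_s3 k5047_A00pp_022_s3

theorem t5386_A00pp_022_s3 : ∃ t, chk3 f_A00pp_022_s3 t 152 242 4 = true := ex3_c t5385_A00pp_022_s3 k5048_A00pp_022_s3

theorem t5387_A00pp_022_s3 : ∃ t, chk3 f_A00pp_022_s3 t 76 242 4 = true := ex3_a t5386_A00pp_022_s3 t5370_A00pp_022_s3

theorem t5388_A00pp_022_s3 : ∃ t, chk3 f_A00pp_022_s3 t 76 121 4 = true := ex3_b t5387_A00pp_022_s3 t5368_A00pp_022_s3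

theorem t5389_A00pp_022_s3 : ∃ t, chk3 f_A00pp_022_s3 t 76 121 2 = true := ex3_c t5388_A00pp_022_s3 t5362_A00pp_022_s3

theorem t5390_A00pp_022_s3 : ∃ t, chk3 f_A00pp_022_s3 t 305 483 32 = true := ex3_b k5025_A00pp_022_s3 k5026_A00pp_022_s3

theorem t5391_A00pp_022_s3 : ∃ t, chk3 f_A00pp_022_s3 t 305 483 16 = true := ex3_c t5390_A00pp_022_s3 k5027_A00pp_022_s3

theorem t5392_A00pp_022_s3 : ∃ t, chk3 f_A00pp_022_s3 t 304 483 33 = true := ex3_c k5023_A00pp_022_s3 k5024_A00pp_022_s3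

theorem t5393_A00pp_022_s3 : ∃ t, chk3 f_A00pp_022_s3 t 304 483 16 = true := ex3_c k5022_A00pp_022_s3 t5392_A00pp_022_s3

theorem t5394_A00pp_022_s3 : ∃ t, chk3 f_A00pp_022_s3 t 152 483 16 = true := ex3_a t5393_A00pp_022_s3 t5391_A00pp_022_s3

theorem t5395_A00pp_022_s3 : ∃ t, chk3 f_A00pp_022_s3 t 152 482 33 = true := ex3_a k5020_A00pp_022_s3 k5021_A00pp_022_s3

theorem t5396_A00pp_022_s3 : ∃ t, chk3 f_A00pp_022_s3 t 305 482 32 = true := ex3_b k5018_A00pp_022_s3 k5019_A00pp_022_s3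

theorem t5397_A00pp_022_s3 : ∃ t, chk3 f_A00pp_022_s3 t 152 482 32 = true := ex3_a k5017_A00pp_022_s3 t5396_A00pp_022_s3

theorem t5398_A00pp_022_s3 : ∃ t, chk3 f_A00pp_022_s3 t 152 482 16 = true := ex3_c t5397_A00pp_022_s3 t5395_A00pp_022_s3

theorem t5399_A00pp_022_s3 : ∃ t, chk3 f_A00pp_022_s3 t 152 241 16 = true := ex3_b t5398_A00pp_022_s3 t5394_A00pp_022_s3

theorem t5400_A00pp_022_s3 : ∃ t, chk3 f_A00pp_022_s3 t 152 241 8 = true := ex3_c t5399_A00pp_022_s3 k5028_A00pp_022_s3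

theorem t5401_A00pp_022_s3 : ∃ t, chk3 f_A00pp_022_s3 t 76 241 8 = true := ex3_a t5400_A00pp_022_s3 k5029_A00pp_022_s3

theorem t5402_A00pp_022_s3 : ∃ t, chk3 f_A00pp_022_s3 t 76 240 17 = true := ex3_b k5015_A00pp_022_s3 k5016_A00pp_022_s3

theorem t5403_A00pp_022_s3 : ∃ t, chk3 f_A00pp_022_s3 t 153 480 32 = true := ex3_a k5011_A00pp_022_s3 k5012_A00pp_022_s3

theorem t5404_A00pp_022_s3 : ∃ t, chk3 f_A00pp_022_s3 t 153 480 16 = true := ex3_c t5403_A00pp_022_s3 k5013_A00pp_022_s3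

theorem t5405_A00pp_022_s3 : ∃ t, chk3 f_A00pp_022_s3 t 153 240 16 = true := ex3_b t5404_A00pp_022_s3 k5014_A00pp_022_s3

theorem t5406_A00pp_022_s3 : ∃ t, chk3 f_A00pp_022_s3 t 152 481 16 = true := ex3_c k5009_A00pp_022_s3 k5010_A00pp_022_s3

theorem t5407_A00pp_022_s3 : ∃ t, chk3 f_A00pp_022_s3 t 152 240 16 = true := ex3_b k5008_A00pp_022_s3 t5406_A00pp_022_s3

theorem t5408_A00pp_022_s3 : ∃ t, chk3 f_A00pp_022_s3 t 76 240 16 = true := ex3_a t5407_A00pp_022_s3 t5405_A00pp_022_s3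

theorem t5409_A00pp_022_s3 : ∃ t, chk3 f_A00pp_022_s3 t 76 240 8 = true := ex3_c t5408_A00pp_022_s3 t5402_A00pp_022_s3

theorem t5410_A00pp_022_s3 : ∃ t, chk3 f_A00pp_022_s3 t 76 120 8 = true := ex3_b t5409_A00pp_022_s3 t5401_A00pp_022_s3

theorem t5411_A00pp_022_s3 : ∃ t, chk3 f_A00pp_022_s3 t 76 120 4 = true := ex3_c t5410_A00pp_022_s3 k5030_A00pp_022_s3

theorem t5412_A00pp_022_s3 : ∃ t, chk3 f_A00pp_022_s3 t 76 120 2 = true := ex3_c t5411_A00pp_022_s3 k5031_A00pp_022_s3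

theorem t5413_A00pp_022_s3 : ∃ t, chk3 f_A00pp_022_s3 t 76 60 2 = true := ex3_b t5412_A00pp_022_s3 t5389_A00pp_022_s3

theorem t5414_A00pp_022_s3 : ∃ t, chk3 f_A00pp_022_s3 t 38 60 2 = true := ex3_a t5413_A00pp_022_s3 t5354_A00pp_022_s3

theorem t5415_A00pp_022_s3 : ∃ t, chk3 f_A00pp_022_s3 t 38 30 2 = true := ex3_b t5414_A00pp_022_s3 k5092_A00pp_022_s3

theorem t5416_A00pp_022_s3 : ∃ t, chk3 f_A00pp_022_s3 t 38 15 2 = true := ex3_b t5415_A00pp_022_s3 k5093_A00pp_022_s3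

theorem t5417_A00pp_022_s3 : ∃ t, chk3 f_A00pp_022_s3 t 19 15 2 = true := ex3_a t5416_A00pp_022_s3 t5331_A00pp_022_s3

theorem t5418_A00pp_022_s3 : ∃ t, chk3 f_A00pp_022_s3 t 19 15 1 = true := ex3_c t5417_A00pp_022_s3 t5317_A00pp_022_s3

theorem t5419_A00pp_022_s3 : ∃ t, chk3 f_A00pp_022_s3 t 150 244 3 = true := ex3_a k5002_A00pp_022_s3 k5003_A00pp_022_s3

theorem t5420_A00pp_022_s3 : ∃ t, chk3 f_A00pp_022_s3 t 150 122 3 = true := ex3_b t5419_A00pp_022_s3 k5004_A00pp_022_s3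

theorem t5421_A00pp_022_s3 : ∃ t, chk3 f_A00pp_022_s3 t 75 122 3 = true := ex3_a t5420_A00pp_022_s3 k5005_A00pp_022_s3

theorem t5422_A00pp_022_s3 : ∃ t, chk3 f_A00pp_022_s3 t 75 61 3 = true := ex3_b t5421_A00pp_022_s3 k5006_A00pp_022_s3

theorem t5423_A00pp_022_s3 : ∃ t, chk3 f_A00pp_022_s3 t 297 490 6 = true := ex3_b k4996_A00pp_022_s3 k4997_A00pp_022_s3

theorem t5424_A00pp_022_s3 : ∃ t, chk3 f_A00pp_022_s3 t 297 490 3 = true := ex3_c t5423_A00pp_022_s3 k4998_A00pp_022_s3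

theorem t5425_A00pp_022_s3 : ∃ t, chk3 f_A00pp_022_s3 t 297 245 3 = true := ex3_b t5424_A00pp_022_s3 k4999_A00pp_022_s3

theorem t5426_A00pp_022_s3 : ∃ t, chk3 f_A00pp_022_s3 t 296 491 3 = true := ex3_c k4994_A00pp_022_s3 k4995_A00pp_022_s3

theorem t5427_A00pp_022_s3 : ∃ t, chk3 f_A00pp_022_s3 t 296 245 3 = true := ex3_b k4993_A00pp_022_s3 t5426_A00pp_022_s3

theorem t5428_A00pp_022_s3 : ∃ t, chk3 f_A00pp_022_s3 t 148 245 3 = true := ex3_a t5427_A00pp_022_s3 t5425_A00pp_022_s3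

theorem t5429_A00pp_022_s3 : ∃ t, chk3 f_A00pp_022_s3 t 74 245 3 = true := ex3_a t5428_A00pp_022_s3 k5000_A00pp_022_s3

theorem t5430_A00pp_022_s3 : ∃ t, chk3 f_A00pp_022_s3 t 149 489 3 = true := ex3_c k4991_A00pp_022_s3 k4992_A00pp_022_s3

theorem t5431_A00pp_022_s3 : ∃ t, chk3 f_A00pp_022_s3 t 149 244 3 = true := ex3_b k4990_A00pp_022_s3 t5430_A00pp_022_s3

theorem t5432_A00pp_022_s3 : ∃ t, chk3 f_A00pp_022_s3 t 74 244 3 = true := ex3_a k4989_A00pp_022_s3 t5431_A00pp_022_s3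

theorem t5433_A00pp_022_s3 : ∃ t, chk3 f_A00pp_022_s3 t 74 122 3 = true := ex3_b t5432_A00pp_022_s3 t5429_A00pp_022_s3

theorem t5434_A00pp_022_s3 : ∃ t, chk3 f_A00pp_022_s3 t 74 61 3 = true := ex3_b t5433_A00pp_022_s3 k5001_A00pp_022_s3

theorem t5435_A00pp_022_s3 : ∃ t, chk3 f_A00pp_022_s3 t 37 61 3 = true := ex3_a t5434_A00pp_022_s3 t5422_A00pp_022_s3

theorem t5436_A00pp_022_s3 : ∃ t, chk3 f_A00pp_022_s3 t 75 243 3 = true := ex3_c k4987_A00pp_022_s3 k4988_A00pp_022_s3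

theorem t5437_A00pp_022_s3 : ∃ t, chk3 f_A00pp_022_s3 t 75 121 3 = true := ex3_b k4986_A00pp_022_s3 t5436_A00pp_022_s3

theorem t5438_A00pp_022_s3 : ∃ t, chk3 f_A00pp_022_s3 t 75 60 3 = true := ex3_b k4985_A00pp_022_s3 t5437_A00pp_022_s3

theorem t5439_A00pp_022_s3 : ∃ t, chk3 f_A00pp_022_s3 t 37 60 3 = true := ex3_a k4984_A00pp_022_s3 t5438_A00pp_022_s3

theorem t5440_A00pp_022_s3 : ∃ t, chk3 f_A00pp_022_s3 t 37 30 3 = true := ex3_b t5439_A00pp_022_s3 t5435_A00pp_022_s3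

theorem t5441_A00pp_022_s3 : ∃ t, chk3 f_A00pp_022_s3 t 294 984 6 = true := ex3_a k4977_A00pp_022_s3 k4978_A00pp_022_s3

theorem t5442_A00pp_022_s3 : ∃ t, chk3 f_A00pp_022_s3 t 294 492 6 = true := ex3_b t5441_A00pp_022_s3 k4979_A00pp_022_s3

theorem t5443_A00pp_022_s3 : ∃ t, chk3 f_A00pp_022_s3 t 294 246 6 = true := ex3_b t5442_A00pp_022_s3 k4980_A00pp_022_s3

theorem t5444_A00pp_022_s3 : ∃ t, chk3 f_A00pp_022_s3 t 294 246 3 = true := ex3_c t5443_A00pp_022_s3 k4981_A00pp_022_s3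

theorem t5445_A00pp_022_s3 : ∃ t, chk3 f_A00pp_022_s3 t 147 246 3 = true := ex3_a t5444_A00pp_022_s3 k4982_A00pp_022_s3

theorem t5446_A00pp_022_s3 : ∃ t, chk3 f_A00pp_022_s3 t 147 123 3 = true := ex3_b t5445_A00pp_022_s3 k4983_A00pp_022_s3

theorem t5447_A00pp_022_s3 : ∃ t, chk3 f_A00pp_022_s3 t 292 986 6 = true := ex3_a k4971_A00pp_022_s3 k4972_A00pp_022_s3

theorem t5448_A00pp_022_s3 : ∃ t, chk3 f_A00pp_022_s3 t 292 986 3 = true := ex3_c t5447_A00pp_022_s3 k4973_A00pp_022_s3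

theorem t5449_A00pp_022_s3 : ∃ t, chk3 f_A00pp_022_s3 t 292 493 3 = true := ex3_b t5448_A00pp_022_s3 k4974_A00pp_022_s3

theorem t5450_A00pp_022_s3 : ∃ t, chk3 f_A00pp_022_s3 t 146 493 3 = true := ex3_a t5449_A00pp_022_s3 k4975_A00pp_022_s3

theorem t5451_A00pp_022_s3 : ∃ t, chk3 f_A00pp_022_s3 t 293 985 6 = true := ex3_a k4968_A00pp_022_s3 k4969_A00pp_022_s3

theorem t5452_A00pp_022_s3 : ∃ t, chk3 f_A00pp_022_s3 t 293 492 6 = true := ex3_b k4967_A00pp_022_s3 t5451_A00pp_022_s3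

theorem t5453_A00pp_022_s3 : ∃ t, chk3 f_A00pp_022_s3 t 146 492 6 = true := ex3_a k4966_A00pp_022_s3 t5452_A00pp_022_s3

theorem t5454_A00pp_022_s3 : ∃ t, chk3 f_A00pp_022_s3 t 146 492 3 = true := ex3_c t5453_A00pp_022_s3 k4970_A00pp_022_s3

theorem t5455_A00pp_022_s3 : ∃ t, chk3 f_A00pp_022_s3 t 146 246 3 = true := ex3_b t5454_A00pp_022_s3 t5450_A00pp_022_s3

theorem t5456_A00pp_022_s3 : ∃ t, chk3 f_A00pp_022_s3 t 146 123 3 = true := ex3_b t5455_A00pp_022_s3 k4976_A00pp_022_s3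

theorem t5457_A00pp_022_s3 : ∃ t, chk3 f_A00pp_022_s3 t 73 123 3 = true := ex3_a t5456_A00pp_022_s3 t5446_A00pp_022_s3

theorem t5458_A00pp_022_s3 : ∃ t, chk3 f_A00pp_022_s3 t 581 988 6 = true := ex3_a k4960_A00pp_022_s3 k4961_A00pp_022_s3

theorem t5459_A00pp_022_s3 : ∃ t, chk3 f_A00pp_022_s3 t 290 988 6 = true := ex3_a k4959_A00pp_022_s3 t5458_A00pp_022_s3

theorem t5460_A00pp_022_s3 : ∃ t, chk3 f_A00pp_022_s3 t 290 494 6 = true := ex3_b t5459_A00pp_022_s3 k4962_A00pp_022_s3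

theorem t5461_A00pp_022_s3 : ∃ t, chk3 f_A00pp_022_s3 t 145 494 6 = true := ex3_a t5460_A00pp_022_s3 k4963_A00pp_022_s3

theorem t5462_A00pp_022_s3 : ∃ t, chk3 f_A00pp_022_s3 t 145 247 6 = true := ex3_b t5461_A00pp_022_s3 k4964_A00pp_022_s3

theorem t5463_A00pp_022_s3 : ∃ t, chk3 f_A00pp_022_s3 t 145 247 3 = true := ex3_c t5462_A00pp_022_s3 k4965_A00pp_022_s3

theorem t5464_A00pp_022_s3 : ∃ t, chk3 f_A00pp_022_s3 t 577 990 12 = true := ex3_b k4953_A00pp_022_s3 k4954_A00pp_022_s3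

theorem t5465_A00pp_022_s3 : ∃ t, chk3 f_A00pp_022_s3 t 577 495 12 = true := ex3_b t5464_A00pp_022_s3 k4955_A00pp_022_s3

theorem t5466_A00pp_022_s3 : ∃ t, chk3 f_A00pp_022_s3 t 577 495 6 = true := ex3_c t5465_A00pp_022_s3 k4956_A00pp_022_s3

theorem t5467_A00pp_022_s3 : ∃ t, chk3 f_A00pp_022_s3 t 576 991 6 = true := ex3_c k4951_A00pp_022_s3 k4952_A00pp_022_s3

theorem t5468_A00pp_022_s3 : ∃ t, chk3 f_A00pp_022_s3 t 576 495 6 = true := ex3_b k4950_A00pp_022_s3 t5467_A00pp_022_s3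

theorem t5469_A00pp_022_s3 : ∃ t, chk3 f_A00pp_022_s3 t 288 495 6 = true := ex3_a t5468_A00pp_022_s3 t5466_A00pp_022_s3

theorem t5470_A00pp_022_s3 : ∃ t, chk3 f_A00pp_022_s3 t 144 495 6 = true := ex3_a t5469_A00pp_022_s3 k4957_A00pp_022_s3

theorem t5471_A00pp_022_s3 : ∃ t, chk3 f_A00pp_022_s3 t 144 495 3 = true := ex3_c t5470_A00pp_022_s3 k4958_A00pp_022_s3

theorem t5472_A00pp_022_s3 : ∃ t, chk3 f_A00pp_022_s3 t 289 1979 6 = true := ex3_a k4947_A00pp_022_s3 k4948_A00pp_022_s3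

theorem t5473_A00pp_022_s3 : ∃ t, chk3 f_A00pp_022_s3 t 289 989 6 = true := ex3_b k4946_A00pp_022_s3 t5472_A00pp_022_s3

theorem t5474_A00pp_022_s3 : ∃ t, chk3 f_A00pp_022_s3 t 289 494 6 = true := ex3_b k4945_A00pp_022_s3 t5473_A00pp_022_s3

theorem t5475_A00pp_022_s3 : ∃ t, chk3 f_A00pp_022_s3 t 144 494 6 = true := ex3_a k4944_A00pp_022_s3 t5474_A00pp_022_s3

theorem t5476_A00pp_022_s3 : ∃ t, chk3 f_A00pp_022_s3 t 144 494 3 = true := ex3_c t5475_A00pp_022_s3 k4949_A00pp_022_s3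

theorem t5477_A00pp_022_s3 : ∃ t, chk3 f_A00pp_022_s3 t 144 247 3 = true := ex3_b t5476_A00pp_022_s3 t5471_A00pp_022_s3

theorem t5478_A00pp_022_s3 : ∃ t, chk3 f_A00pp_022_s3 t 72 247 3 = true := ex3_a t5477_A00pp_022_s3 t5463_A00pp_022_s3

theorem t5479_A00pp_022_s3 : ∃ t, chk3 f_A00pp_022_s3 t 291 987 6 = true := ex3_a k4941_A00pp_022_s3 k4942_A00pp_022_s3

theorem t5480_A00pp_022_s3 : ∃ t, chk3 f_A00pp_022_s3 t 291 493 6 = true := ex3_b k4940_A00pp_022_s3 t5479_A00pp_022_s3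

theorem t5481_A00pp_022_s3 : ∃ t, chk3 f_A00pp_022_s3 t 145 493 6 = true := ex3_a k4939_A00pp_022_s3 t5480_A00pp_022_s3

theorem t5482_A00pp_022_s3 : ∃ t, chk3 f_A00pp_022_s3 t 145 493 3 = true := ex3_c t5481_A00pp_022_s3 k4943_A00pp_022_s3

theorem t5483_A00pp_022_s3 : ∃ t, chk3 f_A00pp_022_s3 t 145 246 3 = true := ex3_b k4938_A00pp_022_s3 t5482_A00pp_022_s3

theorem t5484_A00pp_022_s3 : ∃ t, chk3 f_A00pp_022_s3 t 72 246 3 = true := ex3_a k4937_A00pp_022_s3 t5483_A00pp_022_s3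

theorem t5485_A00pp_022_s3 : ∃ t, chk3 f_A00pp_022_s3 t 72 123 3 = true := ex3_b t5484_A00pp_022_s3 t5478_A00pp_022_s3

theorem t5486_A00pp_022_s3 : ∃ t, chk3 f_A00pp_022_s3 t 36 123 3 = true := ex3_a t5485_A00pp_022_s3 t5457_A00pp_022_s3

theorem t5487_A00pp_022_s3 : ∃ t, chk3 f_A00pp_022_s3 t 295 491 6 = true := ex3_b k4934_A00pp_022_s3 k4935_A00pp_022_s3

theorem t5488_A00pp_022_s3 : ∃ t, chk3 f_A00pp_022_s3 t 147 491 6 = true := ex3_a k4933_A00pp_022_s3 t5487_A00pp_022_s3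

theorem t5489_A00pp_022_s3 : ∃ t, chk3 f_A00pp_022_s3 t 147 245 6 = true := ex3_b k4932_A00pp_022_s3 t5488_A00pp_022_s3

theorem t5490_A00pp_022_s3 : ∃ t, chk3 f_A00pp_022_s3 t 73 245 6 = true := ex3_a k4931_A00pp_022_s3 t5489_A00pp_022_s3

theorem t5491_A00pp_022_s3 : ∃ t, chk3 f_A00pp_022_s3 t 73 245 3 = true := ex3_c t5490_A00pp_022_s3 k4936_A00pp_022_s3

theorem t5492_A00pp_022_s3 : ∃ t, chk3 f_A00pp_022_s3 t 73 122 3 = true := ex3_b k4930_A00pp_022_s3 t5491_A00pp_022_s3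

theorem t5493_A00pp_022_s3 : ∃ t, chk3 f_A00pp_022_s3 t 36 122 3 = true := ex3_a k4929_A00pp_022_s3 t5492_A00pp_022_s3

theorem t5494_A00pp_022_s3 : ∃ t, chk3 f_A00pp_022_s3 t 36 61 3 = true := ex3_b t5493_A00pp_022_s3 t5486_A00pp_022_s3

theorem t5495_A00pp_022_s3 : ∃ t, chk3 f_A00pp_022_s3 t 36 60 3 = true := ex3_a k4927_A00pp_022_s3 k4928_A00pp_022_s3

theorem t5496_A00pp_022_s3 : ∃ t, chk3 f_A00pp_022_s3 t 36 30 3 = true := ex3_b t5495_A00pp_022_s3 t5494_A00pp_022_s3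

theorem t5497_A00pp_022_s3 : ∃ t, chk3 f_A00pp_022_s3 t 18 30 3 = true := ex3_a t5496_A00pp_022_s3 t5440_A00pp_022_s3

theorem t5498_A00pp_022_s3 : ∃ t, chk3 f_A00pp_022_s3 t 301 488 10 = true := ex3_b k4920_A00pp_022_s3 k4921_A00pp_022_s3

theorem t5499_A00pp_022_s3 : ∃ t, chk3 f_A00pp_022_s3 t 301 244 10 = true := ex3_b t5498_A00pp_022_s3 k4922_A00pp_022_s3

theorem t5500_A00pp_022_s3 : ∃ t, chk3 f_A00pp_022_s3 t 301 244 5 = true := ex3_c t5499_A00pp_022_s3 k4923_A00pp_022_s3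

theorem t5501_A00pp_022_s3 : ∃ t, chk3 f_A00pp_022_s3 t 300 489 5 = true := ex3_c k4918_A00pp_022_s3 k4919_A00pp_022_s3

theorem t5502_A00pp_022_s3 : ∃ t, chk3 f_A00pp_022_s3 t 300 244 5 = true := ex3_b k4917_A00pp_022_s3 t5501_A00pp_022_s3

theorem t5503_A00pp_022_s3 : ∃ t, chk3 f_A00pp_022_s3 t 150 244 5 = true := ex3_a t5502_A00pp_022_s3 t5500_A00pp_022_s3

theorem t5504_A00pp_022_s3 : ∃ t, chk3 f_A00pp_022_s3 t 150 122 5 = true := ex3_b t5503_A00pp_022_s3 k4924_A00pp_022_s3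

theorem t5505_A00pp_022_s3 : ∃ t, chk3 f_A00pp_022_s3 t 75 122 5 = true := ex3_a t5504_A00pp_022_s3 k4925_A00pp_022_s3

theorem t5506_A00pp_022_s3 : ∃ t, chk3 f_A00pp_022_s3 t 75 61 5 = true := ex3_b t5505_A00pp_022_s3 k4926_A00pp_022_s3

theorem t5507_A00pp_022_s3 : ∃ t, chk3 f_A00pp_022_s3 t 151 975 5 = true := ex3_a k4915_A00pp_022_s3 k4916_A00pp_022_s3

theorem t5508_A00pp_022_s3 : ∃ t, chk3 f_A00pp_022_s3 t 151 487 5 = true := ex3_b k4914_A00pp_022_s3 t5507_A00pp_022_s3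

theorem t5509_A00pp_022_s3 : ∃ t, chk3 f_A00pp_022_s3 t 151 243 5 = true := ex3_b k4913_A00pp_022_s3 t5508_A00pp_022_s3

theorem t5510_A00pp_022_s3 : ∃ t, chk3 f_A00pp_022_s3 t 75 243 5 = true := ex3_a k4912_A00pp_022_s3 t5509_A00pp_022_s3

theorem t5511_A00pp_022_s3 : ∃ t, chk3 f_A00pp_022_s3 t 75 121 5 = true := ex3_b k4911_A00pp_022_s3 t5510_A00pp_022_s3

theorem t5512_A00pp_022_s3 : ∃ t, chk3 f_A00pp_022_s3 t 75 60 5 = true := ex3_b k4910_A00pp_022_s3 t5511_A00pp_022_s3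

theorem t5513_A00pp_022_s3 : ∃ t, chk3 f_A00pp_022_s3 t 75 30 5 = true := ex3_b t5512_A00pp_022_s3 t5506_A00pp_022_s3

theorem t5514_A00pp_022_s3 : ∃ t, chk3 f_A00pp_022_s3 t 149 245 5 = true := ex3_c k4907_A00pp_022_s3 k4908_A00pp_022_s3

theorem t5515_A00pp_022_s3 : ∃ t, chk3 f_A00pp_022_s3 t 297 981 10 = true := ex3_a k4903_A00pp_022_s3 k4904_A00pp_022_s3

theorem t5516_A00pp_022_s3 : ∃ t, chk3 f_A00pp_022_s3 t 297 981 5 = true := ex3_c t5515_A00pp_022_s3 k4905_A00pp_022_s3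

theorem t5517_A00pp_022_s3 : ∃ t, chk3 f_A00pp_022_s3 t 297 490 5 = true := ex3_b k4902_A00pp_022_s3 t5516_A00pp_022_s3

theorem t5518_A00pp_022_s3 : ∃ t, chk3 f_A00pp_022_s3 t 297 245 5 = true := ex3_b t5517_A00pp_022_s3 k4906_A00pp_022_s3

theorem t5519_A00pp_022_s3 : ∃ t, chk3 f_A00pp_022_s3 t 296 491 10 = true := ex3_c k4899_A00pp_022_s3 k4900_A00pp_022_s3

theorem t5520_A00pp_022_s3 : ∃ t, chk3 f_A00pp_022_s3 t 296 491 5 = true := ex3_c t5519_A00pp_022_s3 k4901_A00pp_022_s3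

theorem t5521_A00pp_022_s3 : ∃ t, chk3 f_A00pp_022_s3 t 296 490 5 = true := ex3_b k4897_A00pp_022_s3 k4898_A00pp_022_s3

theorem t5522_A00pp_022_s3 : ∃ t, chk3 f_A00pp_022_s3 t 296 245 5 = true := ex3_b t5521_A00pp_022_s3 t5520_A00pp_022_s3

theorem t5523_A00pp_022_s3 : ∃ t, chk3 f_A00pp_022_s3 t 148 245 5 = true := ex3_a t5522_A00pp_022_s3 t5518_A00pp_022_s3

theorem t5524_A00pp_022_s3 : ∃ t, chk3 f_A00pp_022_s3 t 74 245 5 = true := ex3_a t5523_A00pp_022_s3 t5514_A00pp_022_s3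

theorem t5525_A00pp_022_s3 : ∃ t, chk3 f_A00pp_022_s3 t 299 979 5 = true := ex3_c k4895_A00pp_022_s3 k4896_A00pp_022_s3

theorem t5526_A00pp_022_s3 : ∃ t, chk3 f_A00pp_022_s3 t 299 489 5 = true := ex3_b k4894_A00pp_022_s3 t5525_A00pp_022_s3

theorem t5527_A00pp_022_s3 : ∃ t, chk3 f_A00pp_022_s3 t 149 489 5 = true := ex3_a k4893_A00pp_022_s3 t5526_A00pp_022_s3

theorem t5528_A00pp_022_s3 : ∃ t, chk3 f_A00pp_022_s3 t 149 244 5 = true := ex3_b k4892_A00pp_022_s3 t5527_A00pp_022_s3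

theorem t5529_A00pp_022_s3 : ∃ t, chk3 f_A00pp_022_s3 t 74 244 5 = true := ex3_a k4891_A00pp_022_s3 t5528_A00pp_022_s3

theorem t5530_A00pp_022_s3 : ∃ t, chk3 f_A00pp_022_s3 t 74 122 5 = true := ex3_b t5529_A00pp_022_s3 t5524_A00pp_022_s3

theorem t5531_A00pp_022_s3 : ∃ t, chk3 f_A00pp_022_s3 t 74 61 5 = true := ex3_b t5530_A00pp_022_s3 k4909_A00pp_022_s3

theorem t5532_A00pp_022_s3 : ∃ t, chk3 f_A00pp_022_s3 t 296 121 20 = true := ex3_b k4885_A00pp_022_s3 k4886_A00pp_022_s3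

theorem t5533_A00pp_022_s3 : ∃ t, chk3 f_A00pp_022_s3 t 148 121 20 = true := ex3_a t5532_A00pp_022_s3 k4887_A00pp_022_s3

theorem t5534_A00pp_022_s3 : ∃ t, chk3 f_A00pp_022_s3 t 148 121 10 = true := ex3_c t5533_A00pp_022_s3 k4888_A00pp_022_s3

theorem t5535_A00pp_022_s3 : ∃ t, chk3 f_A00pp_022_s3 t 148 121 5 = true := ex3_c t5534_A00pp_022_s3 k4889_A00pp_022_s3

theorem t5536_A00pp_022_s3 : ∃ t, chk3 f_A00pp_022_s3 t 74 121 5 = true := ex3_a t5535_A00pp_022_s3 k4890_A00pp_022_s3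

theorem t5537_A00pp_022_s3 : ∃ t, chk3 f_A00pp_022_s3 t 148 241 20 = true := ex3_a k4880_A00pp_022_s3 k4881_A00pp_022_s3

theorem t5538_A00pp_022_s3 : ∃ t, chk3 f_A00pp_022_s3 t 148 241 10 = true := ex3_c t5537_A00pp_022_s3 k4882_A00pp_022_s3

theorem t5539_A00pp_022_s3 : ∃ t, chk3 f_A00pp_022_s3 t 74 241 10 = true := ex3_a t5538_A00pp_022_s3 k4883_A00pp_022_s3

theorem t5540_A00pp_022_s3 : ∃ t, chk3 f_A00pp_022_s3 t 148 240 10 = true := ex3_c k4877_A00pp_022_s3 k4878_A00pp_022_s3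

theorem t5541_A00pp_022_s3 : ∃ t, chk3 f_A00pp_022_s3 t 74 240 10 = true := ex3_a t5540_A00pp_022_s3 k4879_A00pp_022_s3

theorem t5542_A00pp_022_s3 : ∃ t, chk3 f_A00pp_022_s3 t 74 120 10 = true := ex3_b t5541_A00pp_022_s3 t5539_A00pp_022_s3

theorem t5543_A00pp_022_s3 : ∃ t, chk3 f_A00pp_022_s3 t 74 120 5 = true := ex3_c t5542_A00pp_022_s3 k4884_A00pp_022_s3

theorem t5544_A00pp_022_s3 : ∃ t, chk3 f_A00pp_022_s3 t 74 60 5 = true := ex3_b t5543_A00pp_022_s3 t5536_A00pp_022_s3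

theorem t5545_A00pp_022_s3 : ∃ t, chk3 f_A00pp_022_s3 t 74 30 5 = true := ex3_b t5544_A00pp_022_s3 t5531_A00pp_022_s3

theorem t5546_A00pp_022_s3 : ∃ t, chk3 f_A00pp_022_s3 t 37 30 5 = true := ex3_a t5545_A00pp_022_s3 t5513_A00pp_022_s3

theorem t5547_A00pp_022_s3 : ∃ t, chk3 f_A00pp_022_s3 t 151 244 4 = true := ex3_c k4873_A00pp_022_s3 k4874_A00pp_022_s3

theorem t5548_A00pp_022_s3 : ∃ t, chk3 f_A00pp_022_s3 t 301 488 9 = true := ex3_b k4870_A00pp_022_s3 k4871_A00pp_022_s3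

theorem t5549_A00pp_022_s3 : ∃ t, chk3 f_A00pp_022_s3 t 301 488 33 = true := ex3_c k4867_A00pp_022_s3 k4868_A00pp_022_s3

theorem t5550_A00pp_022_s3 : ∃ t, chk3 f_A00pp_022_s3 t 301 488 16 = true := ex3_c k4866_A00pp_022_s3 t5549_A00pp_022_s3

theorem t5551_A00pp_022_s3 : ∃ t, chk3 f_A00pp_022_s3 t 301 488 8 = true := ex3_c t5550_A00pp_022_s3 k4869_A00pp_022_s3

theorem t5552_A00pp_022_s3 : ∃ t, chk3 f_A00pp_022_s3 t 301 488 4 = true := ex3_c t5551_A00pp_022_s3 t5548_A00pp_022_s3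

theorem t5553_A00pp_022_s3 : ∃ t, chk3 f_A00pp_022_s3 t 301 244 4 = true := ex3_b t5552_A00pp_022_s3 k4872_A00pp_022_s3

theorem t5554_A00pp_022_s3 : ∃ t, chk3 f_A00pp_022_s3 t 1203 976 68 = true := ex3_c k4859_A00pp_022_s3 k4860_A00pp_022_s3

theorem t5555_A00pp_022_s3 : ∃ t, chk3 f_A00pp_022_s3 t 1202 1952 68 = true := ex3_c k4856_A00pp_022_s3 k4857_A00pp_022_s3

theorem t5556_A00pp_022_s3 : ∃ t, chk3 f_A00pp_022_s3 t 1202 976 68 = true := ex3_b t5555_A00pp_022_s3 k4858_A00pp_022_s3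

theorem t5557_A00pp_022_s3 : ∃ t, chk3 f_A00pp_022_s3 t 601 976 68 = true := ex3_a t5556_A00pp_022_s3 t5554_A00pp_022_s3

theorem t5558_A00pp_022_s3 : ∃ t, chk3 f_A00pp_022_s3 t 601 488 68 = true := ex3_b t5557_A00pp_022_s3 k4861_A00pp_022_s3

theorem t5559_A00pp_022_s3 : ∃ t, chk3 f_A00pp_022_s3 t 601 488 34 = true := ex3_c t5558_A00pp_022_s3 k4862_A00pp_022_s3

theorem t5560_A00pp_022_s3 : ∃ t, chk3 f_A00pp_022_s3 t 600 976 138 = true := ex3_b k4852_A00pp_022_s3 k4853_A00pp_022_s3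

theorem t5561_A00pp_022_s3 : ∃ t, chk3 f_A00pp_022_s3 t 600 976 69 = true := ex3_c t5560_A00pp_022_s3 k4854_A00pp_022_s3

theorem t5562_A00pp_022_s3 : ∃ t, chk3 f_A00pp_022_s3 t 600 488 69 = true := ex3_b t5561_A00pp_022_s3 k4855_A00pp_022_s3

theorem t5563_A00pp_022_s3 : ∃ t, chk3 f_A00pp_022_s3 t 1201 976 137 = true := ex3_b k4849_A00pp_022_s3 k4850_A00pp_022_s3

theorem t5564_A00pp_022_s3 : ∃ t, chk3 f_A00pp_022_s3 t 600 976 137 = true := ex3_a k4848_A00pp_022_s3 t5563_A00pp_022_s3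

theorem t5565_A00pp_022_s3 : ∃ t, chk3 f_A00pp_022_s3 t 600 976 68 = true := ex3_c k4847_A00pp_022_s3 t5564_A00pp_022_s3

theorem t5566_A00pp_022_s3 : ∃ t, chk3 f_A00pp_022_s3 t 600 488 68 = true := ex3_b t5565_A00pp_022_s3 k4851_A00pp_022_s3

theorem t5567_A00pp_022_s3 : ∃ t, chk3 f_A00pp_022_s3 t 600 488 34 = true := ex3_c t5566_A00pp_022_s3 t5562_A00pp_022_s3

theorem t5568_A00pp_022_s3 : ∃ t, chk3 f_A00pp_022_s3 t 300 488 34 = true := ex3_a t5567_A00pp_022_s3 t5559_A00pp_022_s3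

theorem t5569_A00pp_022_s3 : ∃ t, chk3 f_A00pp_022_s3 t 300 244 34 = true := ex3_b t5568_A00pp_022_s3 k4863_A00pp_022_s3

theorem t5570_A00pp_022_s3 : ∃ t, chk3 f_A00pp_022_s3 t 300 244 17 = true := ex3_c t5569_A00pp_022_s3 k4864_A00pp_022_s3

theorem t5571_A00pp_022_s3 : ∃ t, chk3 f_A00pp_022_s3 t 601 976 67 = true := ex3_c k4843_A00pp_022_s3 k4844_A00pp_022_s3

theorem t5572_A00pp_022_s3 : ∃ t, chk3 f_A00pp_022_s3 t 601 488 67 = true := ex3_b t5571_A00pp_022_s3 k4845_A00pp_022_s3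

theorem t5573_A00pp_022_s3 : ∃ t, chk3 f_A00pp_022_s3 t 300 488 67 = true := ex3_a k4842_A00pp_022_s3 t5572_A00pp_022_s3

theorem t5574_A00pp_022_s3 : ∃ t, chk3 f_A00pp_022_s3 t 300 488 33 = true := ex3_c k4841_A00pp_022_s3 t5573_A00pp_022_s3

theorem t5575_A00pp_022_s3 : ∃ t, chk3 f_A00pp_022_s3 t 300 244 33 = true := ex3_b t5574_A00pp_022_s3 k4846_A00pp_022_s3

theorem t5576_A00pp_022_s3 : ∃ t, chk3 f_A00pp_022_s3 t 300 244 16 = true := ex3_c k4840_A00pp_022_s3 t5575_A00pp_022_s3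

theorem t5577_A00pp_022_s3 : ∃ t, chk3 f_A00pp_022_s3 t 300 244 8 = true := ex3_c t5576_A00pp_022_s3 t5570_A00pp_022_s3

theorem t5578_A00pp_022_s3 : ∃ t, chk3 f_A00pp_022_s3 t 300 244 4 = true := ex3_c t5577_A00pp_022_s3 k4865_A00pp_022_s3

theorem t5579_A00pp_022_s3 : ∃ t, chk3 f_A00pp_022_s3 t 150 244 4 = true := ex3_a t5578_A00pp_022_s3 t5553_A00pp_022_s3

theorem t5580_A00pp_022_s3 : ∃ t, chk3 f_A00pp_022_s3 t 75 244 4 = true := ex3_a t5579_A00pp_022_s3 t5547_A00pp_022_s3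

theorem t5581_A00pp_022_s3 : ∃ t, chk3 f_A00pp_022_s3 t 75 122 4 = true := ex3_b t5580_A00pp_022_s3 k4875_A00pp_022_s3

theorem t5582_A00pp_022_s3 : ∃ t, chk3 f_A00pp_022_s3 t 75 61 4 = true := ex3_b t5581_A00pp_022_s3 k4876_A00pp_022_s3

theorem t5583_A00pp_022_s3 : ∃ t, chk3 f_A00pp_022_s3 t 151 487 9 = true := ex3_b k4838_A00pp_022_s3 k4839_A00pp_022_s3

theorem t5584_A00pp_022_s3 : ∃ t, chk3 f_A00pp_022_s3 t 151 243 9 = true := ex3_b k4837_A00pp_022_s3 t5583_A00pp_022_s3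

theorem t5585_A00pp_022_s3 : ∃ t, chk3 f_A00pp_022_s3 t 75 243 9 = true := ex3_a k4836_A00pp_022_s3 t5584_A00pp_022_s3

theorem t5586_A00pp_022_s3 : ∃ t, chk3 f_A00pp_022_s3 t 150 484 18 = true := ex3_a k4831_A00pp_022_s3 k4832_A00pp_022_s3

theorem t5587_A00pp_022_s3 : ∃ t, chk3 f_A00pp_022_s3 t 150 242 18 = true := ex3_b t5586_A00pp_022_s3 k4833_A00pp_022_s3

theorem t5588_A00pp_022_s3 : ∃ t, chk3 f_A00pp_022_s3 t 75 242 18 = true := ex3_a t5587_A00pp_022_s3 k4834_A00pp_022_s3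

theorem t5589_A00pp_022_s3 : ∃ t, chk3 f_A00pp_022_s3 t 75 242 9 = true := ex3_c t5588_A00pp_022_s3 k4835_A00pp_022_s3

theorem t5590_A00pp_022_s3 : ∃ t, chk3 f_A00pp_022_s3 t 75 121 9 = true := ex3_b t5589_A00pp_022_s3 t5585_A00pp_022_s3

theorem t5591_A00pp_022_s3 : ∃ t, chk3 f_A00pp_022_s3 t 150 483 18 = true := ex3_c k4827_A00pp_022_s3 k4828_A00pp_022_s3

theorem t5592_A00pp_022_s3 : ∃ t, chk3 f_A00pp_022_s3 t 150 482 18 = true := ex3_a k4825_A00pp_022_s3 k4826_A00pp_022_s3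

theorem t5593_A00pp_022_s3 : ∃ t, chk3 f_A00pp_022_s3 t 150 241 18 = true := ex3_b t5592_A00pp_022_s3 t5591_A00pp_022_s3

theorem t5594_A00pp_022_s3 : ∃ t, chk3 f_A00pp_022_s3 t 150 241 9 = true := ex3_c t5593_A00pp_022_s3 k4829_A00pp_022_s3

theorem t5595_A00pp_022_s3 : ∃ t, chk3 f_A00pp_022_s3 t 75 241 9 = true := ex3_a t5594_A00pp_022_s3 k4830_A00pp_022_s3

theorem t5596_A00pp_022_s3 : ∃ t, chk3 f_A00pp_022_s3 t 150 240 18 = true := ex3_b k4821_A00pp_022_s3 k4822_A00pp_022_s3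

theorem t5597_A00pp_022_s3 : ∃ t, chk3 f_A00pp_022_s3 t 75 240 18 = true := ex3_a t5596_A00pp_022_s3 k4823_A00pp_022_s3

theorem t5598_A00pp_022_s3 : ∃ t, chk3 f_A00pp_022_s3 t 75 240 9 = true := ex3_c t5597_A00pp_022_s3 k4824_A00pp_022_s3

theorem t5599_A00pp_022_s3 : ∃ t, chk3 f_A00pp_022_s3 t 75 120 9 = true := ex3_b t5598_A00pp_022_s3 t5595_A00pp_022_s3

theorem t5600_A00pp_022_s3 : ∃ t, chk3 f_A00pp_022_s3 t 75 60 9 = true := ex3_b t5599_A00pp_022_s3 t5590_A00pp_022_s3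

theorem t5601_A00pp_022_s3 : ∃ t, chk3 f_A00pp_022_s3 t 1209 974 132 = true := ex3_b k4813_A00pp_022_s3 k4814_A00pp_022_s3

theorem t5602_A00pp_022_s3 : ∃ t, chk3 f_A00pp_022_s3 t 1209 974 66 = true := ex3_c t5601_A00pp_022_s3 k4815_A00pp_022_s3

theorem t5603_A00pp_022_s3 : ∃ t, chk3 f_A00pp_022_s3 t 1208 1949 66 = true := ex3_c k4811_A00pp_022_s3 k4812_A00pp_022_s3

theorem t5604_A00pp_022_s3 : ∃ t, chk3 f_A00pp_022_s3 t 1208 974 66 = true := ex3_b k4810_A00pp_022_s3 t5603_A00pp_022_s3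

theorem t5605_A00pp_022_s3 : ∃ t, chk3 f_A00pp_022_s3 t 604 974 66 = true := ex3_a t5604_A00pp_022_s3 t5602_A00pp_022_s3

theorem t5606_A00pp_022_s3 : ∃ t, chk3 f_A00pp_022_s3 t 604 974 33 = true := ex3_c t5605_A00pp_022_s3 k4816_A00pp_022_s3

theorem t5607_A00pp_022_s3 : ∃ t, chk3 f_A00pp_022_s3 t 302 974 33 = true := ex3_a t5606_A00pp_022_s3 k4817_A00pp_022_s3

theorem t5608_A00pp_022_s3 : ∃ t, chk3 f_A00pp_022_s3 t 151 974 33 = true := ex3_a t5607_A00pp_022_s3 k4818_A00pp_022_s3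

theorem t5609_A00pp_022_s3 : ∃ t, chk3 f_A00pp_022_s3 t 151 487 33 = true := ex3_b t5608_A00pp_022_s3 k4819_A00pp_022_s3

theorem t5610_A00pp_022_s3 : ∃ t, chk3 f_A00pp_022_s3 t 1210 974 65 = true := ex3_c k4805_A00pp_022_s3 k4806_A00pp_022_s3

theorem t5611_A00pp_022_s3 : ∃ t, chk3 f_A00pp_022_s3 t 605 974 65 = true := ex3_a t5610_A00pp_022_s3 k4807_A00pp_022_s3

theorem t5612_A00pp_022_s3 : ∃ t, chk3 f_A00pp_022_s3 t 604 974 65 = true := ex3_c k4803_A00pp_022_s3 k4804_A00pp_022_s3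

theorem t5613_A00pp_022_s3 : ∃ t, chk3 f_A00pp_022_s3 t 302 974 65 = true := ex3_a t5612_A00pp_022_s3 t5611_A00pp_022_s3

theorem t5614_A00pp_022_s3 : ∃ t, chk3 f_A00pp_022_s3 t 302 974 32 = true := ex3_c k4802_A00pp_022_s3 t5613_A00pp_022_s3

theorem t5615_A00pp_022_s3 : ∃ t, chk3 f_A00pp_022_s3 t 151 974 32 = true := ex3_a t5614_A00pp_022_s3 k4808_A00pp_022_s3

theorem t5616_A00pp_022_s3 : ∃ t, chk3 f_A00pp_022_s3 t 151 487 32 = true := ex3_b t5615_A00pp_022_s3 k4809_A00pp_022_s3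

theorem t5617_A00pp_022_s3 : ∃ t, chk3 f_A00pp_022_s3 t 151 487 16 = true := ex3_c t5616_A00pp_022_s3 t5609_A00pp_022_s3

theorem t5618_A00pp_022_s3 : ∃ t, chk3 f_A00pp_022_s3 t 607 973 64 = true := ex3_a k4798_A00pp_022_s3 k4799_A00pp_022_s3

theorem t5619_A00pp_022_s3 : ∃ t, chk3 f_A00pp_022_s3 t 607 973 32 = true := ex3_c t5618_A00pp_022_s3 k4800_A00pp_022_s3

theorem t5620_A00pp_022_s3 : ∃ t, chk3 f_A00pp_022_s3 t 1215 972 128 = true := ex3_b k4794_A00pp_022_s3 k4795_A00pp_022_s3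

theorem t5621_A00pp_022_s3 : ∃ t, chk3 f_A00pp_022_s3 t 1215 972 64 = true := ex3_c t5620_A00pp_022_s3 k4796_A00pp_022_s3

theorem t5622_A00pp_022_s3 : ∃ t, chk3 f_A00pp_022_s3 t 1214 972 64 = true := ex3_c k4792_A00pp_022_s3 k4793_A00pp_022_s3

theorem t5623_A00pp_022_s3 : ∃ t, chk3 f_A00pp_022_s3 t 607 972 64 = true := ex3_a t5622_A00pp_022_s3 t5621_A00pp_022_s3

theorem t5624_A00pp_022_s3 : ∃ t, chk3 f_A00pp_022_s3 t 607 972 32 = true := ex3_c t5623_A00pp_022_s3 k4797_A00pp_022_s3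

theorem t5625_A00pp_022_s3 : ∃ t, chk3 f_A00pp_022_s3 t 607 486 32 = true := ex3_b t5624_A00pp_022_s3 t5619_A00pp_022_s3

theorem t5626_A00pp_022_s3 : ∃ t, chk3 f_A00pp_022_s3 t 1212 973 130 = true := ex3_b k4788_A00pp_022_s3 k4789_A00pp_022_s3

theorem t5627_A00pp_022_s3 : ∃ t, chk3 f_A00pp_022_s3 t 606 973 130 = true := ex3_a t5626_A00pp_022_s3 k4790_A00pp_022_s3

theorem t5628_A00pp_022_s3 : ∃ t, chk3 f_A00pp_022_s3 t 606 973 65 = true := ex3_c t5627_A00pp_022_s3 k4791_A00pp_022_s3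

theorem t5629_A00pp_022_s3 : ∃ t, chk3 f_A00pp_022_s3 t 1213 972 65 = true := ex3_c k4786_A00pp_022_s3 k4787_A00pp_022_s3

theorem t5630_A00pp_022_s3 : ∃ t, chk3 f_A00pp_022_s3 t 606 972 65 = true := ex3_a k4785_A00pp_022_s3 t5629_A00pp_022_s3

theorem t5631_A00pp_022_s3 : ∃ t, chk3 f_A00pp_022_s3 t 606 486 65 = true := ex3_b t5630_A00pp_022_s3 t5628_A00pp_022_s3

theorem t5632_A00pp_022_s3 : ∃ t, chk3 f_A00pp_022_s3 t 1213 973 64 = true := ex3_c k4783_A00pp_022_s3 k4784_A00pp_022_s3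

theorem t5633_A00pp_022_s3 : ∃ t, chk3 f_A00pp_022_s3 t 606 973 64 = true := ex3_a k4782_A00pp_022_s3 t5632_A00pp_022_s3

theorem t5634_A00pp_022_s3 : ∃ t, chk3 f_A00pp_022_s3 t 606 486 64 = true := ex3_b k4781_A00pp_022_s3 t5633_A00pp_022_s3

theorem t5635_A00pp_022_s3 : ∃ t, chk3 f_A00pp_022_s3 t 606 486 32 = true := ex3_c t5634_A00pp_022_s3 t5631_A00pp_022_s3

theorem t5636_A00pp_022_s3 : ∃ t, chk3 f_A00pp_022_s3 t 303 486 32 = true := ex3_a t5635_A00pp_022_s3 t5625_A00pp_022_s3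

theorem t5637_A00pp_022_s3 : ∃ t, chk3 f_A00pp_022_s3 t 303 486 16 = true := ex3_c t5636_A00pp_022_s3 k4801_A00pp_022_s3

theorem t5638_A00pp_022_s3 : ∃ t, chk3 f_A00pp_022_s3 t 605 973 66 = true := ex3_a k4778_A00pp_022_s3 k4779_A00pp_022_s3

theorem t5639_A00pp_022_s3 : ∃ t, chk3 f_A00pp_022_s3 t 605 972 66 = true := ex3_c k4776_A00pp_022_s3 k4777_A00pp_022_s3

theorem t5640_A00pp_022_s3 : ∃ t, chk3 f_A00pp_022_s3 t 605 486 66 = true := ex3_b t5639_A00pp_022_s3 t5638_A00pp_022_s3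

theorem t5641_A00pp_022_s3 : ∃ t, chk3 f_A00pp_022_s3 t 605 486 33 = true := ex3_c t5640_A00pp_022_s3 k4780_A00pp_022_s3

theorem t5642_A00pp_022_s3 : ∃ t, chk3 f_A00pp_022_s3 t 604 972 67 = true := ex3_a k4773_A00pp_022_s3 k4774_A00pp_022_s3

theorem t5643_A00pp_022_s3 : ∃ t, chk3 f_A00pp_022_s3 t 604 486 67 = true := ex3_b t5642_A00pp_022_s3 k4775_A00pp_022_s3

theorem t5644_A00pp_022_s3 : ∃ t, chk3 f_A00pp_022_s3 t 604 973 66 = true := ex3_a k4771_A00pp_022_s3 k4772_A00pp_022_s3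

theorem t5645_A00pp_022_s3 : ∃ t, chk3 f_A00pp_022_s3 t 604 486 66 = true := ex3_b k4770_A00pp_022_s3 t5644_A00pp_022_s3

theorem t5646_A00pp_022_s3 : ∃ t, chk3 f_A00pp_022_s3 t 604 486 33 = true := ex3_c t5645_A00pp_022_s3 t5643_A00pp_022_s3

theorem t5647_A00pp_022_s3 : ∃ t, chk3 f_A00pp_022_s3 t 302 486 33 = true := ex3_a t5646_A00pp_022_s3 t5641_A00pp_022_s3

theorem t5648_A00pp_022_s3 : ∃ t, chk3 f_A00pp_022_s3 t 1211 973 65 = true := ex3_b k4768_A00pp_022_s3 k4769_A00pp_022_s3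

theorem t5649_A00pp_022_s3 : ∃ t, chk3 f_A00pp_022_s3 t 605 973 65 = true := ex3_a k4767_A00pp_022_s3 t5648_A00pp_022_s3

theorem t5650_A00pp_022_s3 : ∃ t, chk3 f_A00pp_022_s3 t 605 486 65 = true := ex3_b k4766_A00pp_022_s3 t5649_A00pp_022_s3

theorem t5651_A00pp_022_s3 : ∃ t, chk3 f_A00pp_022_s3 t 605 486 32 = true := ex3_c k4765_A00pp_022_s3 t5650_A00pp_022_s3

theorem t5652_A00pp_022_s3 : ∃ t, chk3 f_A00pp_022_s3 t 604 486 32 = true := ex3_c k4763_A00pp_022_s3 k4764_A00pp_022_s3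

theorem t5653_A00pp_022_s3 : ∃ t, chk3 f_A00pp_022_s3 t 302 486 32 = true := ex3_a t5652_A00pp_022_s3 t5651_A00pp_022_s3

theorem t5654_A00pp_022_s3 : ∃ t, chk3 f_A00pp_022_s3 t 302 486 16 = true := ex3_c t5653_A00pp_022_s3 t5647_A00pp_022_s3

theorem t5655_A00pp_022_s3 : ∃ t, chk3 f_A00pp_022_s3 t 151 486 16 = true := ex3_a t5654_A00pp_022_s3 t5637_A00pp_022_s3

theorem t5656_A00pp_022_s3 : ∃ t, chk3 f_A00pp_022_s3 t 151 243 16 = true := ex3_b t5655_A00pp_022_s3 t5617_A00pp_022_s3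

theorem t5657_A00pp_022_s3 : ∃ t, chk3 f_A00pp_022_s3 t 151 243 8 = true := ex3_c t5656_A00pp_022_s3 k4820_A00pp_022_s3

theorem t5658_A00pp_022_s3 : ∃ t, chk3 f_A00pp_022_s3 t 604 485 34 = true := ex3_c k4758_A00pp_022_s3 k4759_A00pp_022_s3

theorem t5659_A00pp_022_s3 : ∃ t, chk3 f_A00pp_022_s3 t 302 485 34 = true := ex3_a t5658_A00pp_022_s3 k4760_A00pp_022_s3

theorem t5660_A00pp_022_s3 : ∃ t, chk3 f_A00pp_022_s3 t 151 485 34 = true := ex3_a t5659_A00pp_022_s3 k4761_A00pp_022_s3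

theorem t5661_A00pp_022_s3 : ∃ t, chk3 f_A00pp_022_s3 t 302 484 34 = true := ex3_c k4755_A00pp_022_s3 k4756_A00pp_022_s3

theorem t5662_A00pp_022_s3 : ∃ t, chk3 f_A00pp_022_s3 t 151 484 34 = true := ex3_a t5661_A00pp_022_s3 k4757_A00pp_022_s3

theorem t5663_A00pp_022_s3 : ∃ t, chk3 f_A00pp_022_s3 t 151 242 34 = true := ex3_b t5662_A00pp_022_s3 t5660_A00pp_022_s3

theorem t5664_A00pp_022_s3 : ∃ t, chk3 f_A00pp_022_s3 t 151 242 17 = true := ex3_c t5663_A00pp_022_s3 k4762_A00pp_022_s3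

theorem t5665_A00pp_022_s3 : ∃ t, chk3 f_A00pp_022_s3 t 606 485 66 = true := ex3_b k4751_A00pp_022_s3 k4752_A00pp_022_s3

theorem t5666_A00pp_022_s3 : ∃ t, chk3 f_A00pp_022_s3 t 606 485 33 = true := ex3_c t5665_A00pp_022_s3 k4753_A00pp_022_s3

theorem t5667_A00pp_022_s3 : ∃ t, chk3 f_A00pp_022_s3 t 303 485 33 = true := ex3_a t5666_A00pp_022_s3 k4754_A00pp_022_s3

theorem t5668_A00pp_022_s3 : ∃ t, chk3 f_A00pp_022_s3 t 303 484 33 = true := ex3_c k4749_A00pp_022_s3 k4750_A00pp_022_s3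

theorem t5669_A00pp_022_s3 : ∃ t, chk3 f_A00pp_022_s3 t 303 242 33 = true := ex3_b t5668_A00pp_022_s3 t5667_A00pp_022_s3

theorem t5670_A00pp_022_s3 : ∃ t, chk3 f_A00pp_022_s3 t 607 485 65 = true := ex3_b k4747_A00pp_022_s3 k4748_A00pp_022_s3

theorem t5671_A00pp_022_s3 : ∃ t, chk3 f_A00pp_022_s3 t 607 485 32 = true := ex3_c k4746_A00pp_022_s3 t5670_A00pp_022_s3

theorem t5672_A00pp_022_s3 : ∃ t, chk3 f_A00pp_022_s3 t 303 485 32 = true := ex3_a k4745_A00pp_022_s3 t5671_A00pp_022_s3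

theorem t5673_A00pp_022_s3 : ∃ t, chk3 f_A00pp_022_s3 t 303 242 32 = true := ex3_b k4744_A00pp_022_s3 t5672_A00pp_022_s3

theorem t5674_A00pp_022_s3 : ∃ t, chk3 f_A00pp_022_s3 t 303 242 16 = true := ex3_c t5673_A00pp_022_s3 t5669_A00pp_022_s3

theorem t5675_A00pp_022_s3 : ∃ t, chk3 f_A00pp_022_s3 t 605 485 67 = true := ex3_b k4742_A00pp_022_s3 k4743_A00pp_022_s3

theorem t5676_A00pp_022_s3 : ∃ t, chk3 f_A00pp_022_s3 t 605 485 33 = true := ex3_c k4741_A00pp_022_s3 t5675_A00pp_022_s3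

theorem t5677_A00pp_022_s3 : ∃ t, chk3 f_A00pp_022_s3 t 302 485 33 = true := ex3_a k4740_A00pp_022_s3 t5676_A00pp_022_s3

theorem t5678_A00pp_022_s3 : ∃ t, chk3 f_A00pp_022_s3 t 302 242 33 = true := ex3_b k4739_A00pp_022_s3 t5677_A00pp_022_s3

theorem t5679_A00pp_022_s3 : ∃ t, chk3 f_A00pp_022_s3 t 302 242 32 = true := ex3_b k4737_A00pp_022_s3 k4738_A00pp_022_s3

theorem t5680_A00pp_022_s3 : ∃ t, chk3 f_A00pp_022_s3 t 302 242 16 = true := ex3_c t5679_A00pp_022_s3 t5678_A00pp_022_s3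

theorem t5681_A00pp_022_s3 : ∃ t, chk3 f_A00pp_022_s3 t 151 242 16 = true := ex3_a t5680_A00pp_022_s3 t5674_A00pp_022_s3

theorem t5682_A00pp_022_s3 : ∃ t, chk3 f_A00pp_022_s3 t 151 242 8 = true := ex3_c t5681_A00pp_022_s3 t5664_A00pp_022_s3

theorem t5683_A00pp_022_s3 : ∃ t, chk3 f_A00pp_022_s3 t 151 121 8 = true := ex3_b t5682_A00pp_022_s3 t5657_A00pp_022_s3

theorem t5684_A00pp_022_s3 : ∃ t, chk3 f_A00pp_022_s3 t 1204 975 136 = true := ex3_b k4730_A00pp_022_s3 k4731_A00pp_022_s3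

theorem t5685_A00pp_022_s3 : ∃ t, chk3 f_A00pp_022_s3 t 602 975 136 = true := ex3_a t5684_A00pp_022_s3 k4732_A00pp_022_s3

theorem t5686_A00pp_022_s3 : ∃ t, chk3 f_A00pp_022_s3 t 602 975 68 = true := ex3_c t5685_A00pp_022_s3 k4733_A00pp_022_s3

theorem t5687_A00pp_022_s3 : ∃ t, chk3 f_A00pp_022_s3 t 301 975 68 = true := ex3_a t5686_A00pp_022_s3 k4734_A00pp_022_s3

theorem t5688_A00pp_022_s3 : ∃ t, chk3 f_A00pp_022_s3 t 602 974 68 = true := ex3_b k4727_A00pp_022_s3 k4728_A00pp_022_s3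

theorem t5689_A00pp_022_s3 : ∃ t, chk3 f_A00pp_022_s3 t 301 974 68 = true := ex3_a t5688_A00pp_022_s3 k4729_A00pp_022_s3

theorem t5690_A00pp_022_s3 : ∃ t, chk3 f_A00pp_022_s3 t 301 487 68 = true := ex3_b t5689_A00pp_022_s3 t5687_A00pp_022_s3

theorem t5691_A00pp_022_s3 : ∃ t, chk3 f_A00pp_022_s3 t 301 487 34 = true := ex3_c t5690_A00pp_022_s3 k4735_A00pp_022_s3

theorem t5692_A00pp_022_s3 : ∃ t, chk3 f_A00pp_022_s3 t 301 487 17 = true := ex3_c t5691_A00pp_022_s3 k4736_A00pp_022_s3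

theorem t5693_A00pp_022_s3 : ∃ t, chk3 f_A00pp_022_s3 t 603 486 68 = true := ex3_b k4723_A00pp_022_s3 k4724_A00pp_022_s3

theorem t5694_A00pp_022_s3 : ∃ t, chk3 f_A00pp_022_s3 t 603 486 34 = true := ex3_c t5693_A00pp_022_s3 k4725_A00pp_022_s3

theorem t5695_A00pp_022_s3 : ∃ t, chk3 f_A00pp_022_s3 t 602 973 34 = true := ex3_c k4721_A00pp_022_s3 k4722_A00pp_022_s3

theorem t5696_A00pp_022_s3 : ∃ t, chk3 f_A00pp_022_s3 t 602 486 34 = true := ex3_b k4720_A00pp_022_s3 t5695_A00pp_022_s3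

theorem t5697_A00pp_022_s3 : ∃ t, chk3 f_A00pp_022_s3 t 301 486 34 = true := ex3_a t5696_A00pp_022_s3 t5694_A00pp_022_s3

theorem t5698_A00pp_022_s3 : ∃ t, chk3 f_A00pp_022_s3 t 301 486 17 = true := ex3_c t5697_A00pp_022_s3 k4726_A00pp_022_s3

theorem t5699_A00pp_022_s3 : ∃ t, chk3 f_A00pp_022_s3 t 301 243 17 = true := ex3_b t5698_A00pp_022_s3 t5692_A00pp_022_s3

theorem t5700_A00pp_022_s3 : ∃ t, chk3 f_A00pp_022_s3 t 600 487 70 = true := ex3_b k4716_A00pp_022_s3 k4717_A00pp_022_s3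

theorem t5701_A00pp_022_s3 : ∃ t, chk3 f_A00pp_022_s3 t 600 487 35 = true := ex3_c t5700_A00pp_022_s3 k4718_A00pp_022_s3

theorem t5702_A00pp_022_s3 : ∃ t, chk3 f_A00pp_022_s3 t 300 487 35 = true := ex3_a t5701_A00pp_022_s3 k4719_A00pp_022_s3

theorem t5703_A00pp_022_s3 : ∃ t, chk3 f_A00pp_022_s3 t 300 486 70 = true := ex3_b k4713_A00pp_022_s3 k4714_A00pp_022_s3

theorem t5704_A00pp_022_s3 : ∃ t, chk3 f_A00pp_022_s3 t 300 486 35 = true := ex3_c t5703_A00pp_022_s3 k4715_A00pp_022_s3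

theorem t5705_A00pp_022_s3 : ∃ t, chk3 f_A00pp_022_s3 t 300 243 35 = true := ex3_b t5704_A00pp_022_s3 t5702_A00pp_022_s3

theorem t5706_A00pp_022_s3 : ∃ t, chk3 f_A00pp_022_s3 t 601 974 69 = true := ex3_a k4710_A00pp_022_s3 k4711_A00pp_022_s3

theorem t5707_A00pp_022_s3 : ∃ t, chk3 f_A00pp_022_s3 t 601 487 69 = true := ex3_b t5706_A00pp_022_s3 k4712_A00pp_022_s3

theorem t5708_A00pp_022_s3 : ∃ t, chk3 f_A00pp_022_s3 t 1203 975 68 = true := ex3_c k4708_A00pp_022_s3 k4709_A00pp_022_s3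

theorem t5709_A00pp_022_s3 : ∃ t, chk3 f_A00pp_022_s3 t 601 975 68 = true := ex3_a k4707_A00pp_022_s3 t5708_A00pp_022_s3

theorem t5710_A00pp_022_s3 : ∃ t, chk3 f_A00pp_022_s3 t 601 487 68 = true := ex3_b k4706_A00pp_022_s3 t5709_A00pp_022_s3

theorem t5711_A00pp_022_s3 : ∃ t, chk3 f_A00pp_022_s3 t 601 487 34 = true := ex3_c t5710_A00pp_022_s3 t5707_A00pp_022_s3

theorem t5712_A00pp_022_s3 : ∃ t, chk3 f_A00pp_022_s3 t 1201 975 69 = true := ex3_b k4704_A00pp_022_s3 k4705_A00pp_022_s3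

theorem t5713_A00pp_022_s3 : ∃ t, chk3 f_A00pp_022_s3 t 600 975 69 = true := ex3_a k4703_A00pp_022_s3 t5712_A00pp_022_s3

theorem t5714_A00pp_022_s3 : ∃ t, chk3 f_A00pp_022_s3 t 600 487 69 = true := ex3_b k4702_A00pp_022_s3 t5713_A00pp_022_s3

theorem t5715_A00pp_022_s3 : ∃ t, chk3 f_A00pp_022_s3 t 600 487 34 = true := ex3_c k4701_A00pp_022_s3 t5714_A00pp_022_s3

theorem t5716_A00pp_022_s3 : ∃ t, chk3 f_A00pp_022_s3 t 300 487 34 = true := ex3_a t5715_A00pp_022_s3 t5711_A00pp_022_s3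

theorem t5717_A00pp_022_s3 : ∃ t, chk3 f_A00pp_022_s3 t 300 243 34 = true := ex3_b k4700_A00pp_022_s3 t5716_A00pp_022_s3

theorem t5718_A00pp_022_s3 : ∃ t, chk3 f_A00pp_022_s3 t 300 243 17 = true := ex3_c t5717_A00pp_022_s3 t5705_A00pp_022_s3

theorem t5719_A00pp_022_s3 : ∃ t, chk3 f_A00pp_022_s3 t 150 243 17 = true := ex3_a t5718_A00pp_022_s3 t5699_A00pp_022_s3

theorem t5720_A00pp_022_s3 : ∃ t, chk3 f_A00pp_022_s3 t 301 485 35 = true := ex3_c k4698_A00pp_022_s3 k4699_A00pp_022_s3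

theorem t5721_A00pp_022_s3 : ∃ t, chk3 f_A00pp_022_s3 t 603 485 34 = true := ex3_b k4696_A00pp_022_s3 k4697_A00pp_022_s3

theorem t5722_A00pp_022_s3 : ∃ t, chk3 f_A00pp_022_s3 t 301 485 34 = true := ex3_a k4695_A00pp_022_s3 t5721_A00pp_022_s3

theorem t5723_A00pp_022_s3 : ∃ t, chk3 f_A00pp_022_s3 t 301 485 17 = true := ex3_c t5722_A00pp_022_s3 t5720_A00pp_022_s3

theorem t5724_A00pp_022_s3 : ∃ t, chk3 f_A00pp_022_s3 t 301 484 35 = true := ex3_a k4693_A00pp_022_s3 k4694_A00pp_022_s3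

theorem t5725_A00pp_022_s3 : ∃ t, chk3 f_A00pp_022_s3 t 301 484 17 = true := ex3_c k4692_A00pp_022_s3 t5724_A00pp_022_s3

theorem t5726_A00pp_022_s3 : ∃ t, chk3 f_A00pp_022_s3 t 301 242 17 = true := ex3_b t5725_A00pp_022_s3 t5723_A00pp_022_s3

theorem t5727_A00pp_022_s3 : ∃ t, chk3 f_A00pp_022_s3 t 300 242 35 = true := ex3_b k4690_A00pp_022_s3 k4691_A00pp_022_s3

theorem t5728_A00pp_022_s3 : ∃ t, chk3 f_A00pp_022_s3 t 300 242 17 = true := ex3_c k4689_A00pp_022_s3 t5727_A00pp_022_s3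

theorem t5729_A00pp_022_s3 : ∃ t, chk3 f_A00pp_022_s3 t 150 242 17 = true := ex3_a t5728_A00pp_022_s3 t5726_A00pp_022_s3

theorem t5730_A00pp_022_s3 : ∃ t, chk3 f_A00pp_022_s3 t 150 121 17 = true := ex3_b t5729_A00pp_022_s3 t5719_A00pp_022_s3

theorem t5731_A00pp_022_s3 : ∃ t, chk3 f_A00pp_022_s3 t 1206 975 134 = true := ex3_b k4685_A00pp_022_s3 k4686_A00pp_022_s3

theorem t5732_A00pp_022_s3 : ∃ t, chk3 f_A00pp_022_s3 t 1206 975 67 = true := ex3_c t5731_A00pp_022_s3 k4687_A00pp_022_s3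

theorem t5733_A00pp_022_s3 : ∃ t, chk3 f_A00pp_022_s3 t 603 975 67 = true := ex3_a t5732_A00pp_022_s3 k4688_A00pp_022_s3

theorem t5734_A00pp_022_s3 : ∃ t, chk3 f_A00pp_022_s3 t 603 1949 67 = true := ex3_a k4683_A00pp_022_s3 k4684_A00pp_022_s3

theorem t5735_A00pp_022_s3 : ∃ t, chk3 f_A00pp_022_s3 t 603 974 67 = true := ex3_b k4682_A00pp_022_s3 t5734_A00pp_022_s3

theorem t5736_A00pp_022_s3 : ∃ t, chk3 f_A00pp_022_s3 t 603 487 67 = true := ex3_b t5735_A00pp_022_s3 t5733_A00pp_022_s3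

theorem t5737_A00pp_022_s3 : ∃ t, chk3 f_A00pp_022_s3 t 603 975 66 = true := ex3_a k4680_A00pp_022_s3 k4681_A00pp_022_s3

theorem t5738_A00pp_022_s3 : ∃ t, chk3 f_A00pp_022_s3 t 603 487 66 = true := ex3_b k4679_A00pp_022_s3 t5737_A00pp_022_s3

theorem t5739_A00pp_022_s3 : ∃ t, chk3 f_A00pp_022_s3 t 603 487 33 = true := ex3_c t5738_A00pp_022_s3 t5736_A00pp_022_s3

theorem t5740_A00pp_022_s3 : ∃ t, chk3 f_A00pp_022_s3 t 1205 975 135 = true := ex3_b k4677_A00pp_022_s3 k4678_A00pp_022_s3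

theorem t5741_A00pp_022_s3 : ∃ t, chk3 f_A00pp_022_s3 t 1205 975 67 = true := ex3_c k4676_A00pp_022_s3 t5740_A00pp_022_s3

theorem t5742_A00pp_022_s3 : ∃ t, chk3 f_A00pp_022_s3 t 602 975 67 = true := ex3_a k4675_A00pp_022_s3 t5741_A00pp_022_s3

theorem t5743_A00pp_022_s3 : ∃ t, chk3 f_A00pp_022_s3 t 602 487 67 = true := ex3_b k4674_A00pp_022_s3 t5742_A00pp_022_s3

theorem t5744_A00pp_022_s3 : ∃ t, chk3 f_A00pp_022_s3 t 602 487 66 = true := ex3_b k4672_A00pp_022_s3 k4673_A00pp_022_s3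

theorem t5745_A00pp_022_s3 : ∃ t, chk3 f_A00pp_022_s3 t 602 487 33 = true := ex3_c t5744_A00pp_022_s3 t5743_A00pp_022_s3

theorem t5746_A00pp_022_s3 : ∃ t, chk3 f_A00pp_022_s3 t 301 487 33 = true := ex3_a t5745_A00pp_022_s3 t5739_A00pp_022_s3

theorem t5747_A00pp_022_s3 : ∃ t, chk3 f_A00pp_022_s3 t 603 486 67 = true := ex3_b k4670_A00pp_022_s3 k4671_A00pp_022_s3

theorem t5748_A00pp_022_s3 : ∃ t, chk3 f_A00pp_022_s3 t 301 486 67 = true := ex3_a k4669_A00pp_022_s3 t5747_A00pp_022_s3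

theorem t5749_A00pp_022_s3 : ∃ t, chk3 f_A00pp_022_s3 t 301 486 33 = true := ex3_c k4668_A00pp_022_s3 t5748_A00pp_022_s3

theorem t5750_A00pp_022_s3 : ∃ t, chk3 f_A00pp_022_s3 t 301 243 33 = true := ex3_b t5749_A00pp_022_s3 t5746_A00pp_022_s3

theorem t5751_A00pp_022_s3 : ∃ t, chk3 f_A00pp_022_s3 t 300 975 33 = true := ex3_c k4666_A00pp_022_s3 k4667_A00pp_022_s3

theorem t5752_A00pp_022_s3 : ∃ t, chk3 f_A00pp_022_s3 t 300 487 33 = true := ex3_b k4665_A00pp_022_s3 t5751_A00pp_022_s3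

theorem t5753_A00pp_022_s3 : ∃ t, chk3 f_A00pp_022_s3 t 300 243 33 = true := ex3_b k4664_A00pp_022_s3 t5752_A00pp_022_s3

theorem t5754_A00pp_022_s3 : ∃ t, chk3 f_A00pp_022_s3 t 150 243 33 = true := ex3_a t5753_A00pp_022_s3 t5750_A00pp_022_s3

theorem t5755_A00pp_022_s3 : ∃ t, chk3 f_A00pp_022_s3 t 300 242 33 = true := ex3_c k4661_A00pp_022_s3 k4662_A00pp_022_s3

theorem t5756_A00pp_022_s3 : ∃ t, chk3 f_A00pp_022_s3 t 150 242 33 = true := ex3_a t5755_A00pp_022_s3 k4663_A00pp_022_s3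

theorem t5757_A00pp_022_s3 : ∃ t, chk3 f_A00pp_022_s3 t 150 121 33 = true := ex3_b t5756_A00pp_022_s3 t5754_A00pp_022_s3

theorem t5758_A00pp_022_s3 : ∃ t, chk3 f_A00pp_022_s3 t 150 487 32 = true := ex3_c k4659_A00pp_022_s3 k4660_A00pp_022_s3

theorem t5759_A00pp_022_s3 : ∃ t, chk3 f_A00pp_022_s3 t 150 243 32 = true := ex3_b k4658_A00pp_022_s3 t5758_A00pp_022_s3

theorem t5760_A00pp_022_s3 : ∃ t, chk3 f_A00pp_022_s3 t 300 242 65 = true := ex3_a k4655_A00pp_022_s3 k4656_A00pp_022_s3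

theorem t5761_A00pp_022_s3 : ∃ t, chk3 f_A00pp_022_s3 t 300 242 64 = true := ex3_a k4653_A00pp_022_s3 k4654_A00pp_022_s3

theorem t5762_A00pp_022_s3 : ∃ t, chk3 f_A00pp_022_s3 t 300 242 32 = true := ex3_c t5761_A00pp_022_s3 t5760_A00pp_022_s3

theorem t5763_A00pp_022_s3 : ∃ t, chk3 f_A00pp_022_s3 t 150 242 32 = true := ex3_a t5762_A00pp_022_s3 k4657_A00pp_022_s3

theorem t5764_A00pp_022_s3 : ∃ t, chk3 f_A00pp_022_s3 t 150 121 32 = true := ex3_b t5763_A00pp_022_s3 t5759_A00pp_022_s3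

theorem t5765_A00pp_022_s3 : ∃ t, chk3 f_A00pp_022_s3 t 150 121 16 = true := ex3_c t5764_A00pp_022_s3 t5757_A00pp_022_s3

theorem t5766_A00pp_022_s3 : ∃ t, chk3 f_A00pp_022_s3 t 150 121 8 = true := ex3_c t5765_A00pp_022_s3 t5730_A00pp_022_s3

theorem t5767_A00pp_022_s3 : ∃ t, chk3 f_A00pp_022_s3 t 75 121 8 = true := ex3_a t5766_A00pp_022_s3 t5683_A00pp_022_s3

theorem t5768_A00pp_022_s3 : ∃ t, chk3 f_A00pp_022_s3 t 302 483 17 = true := ex3_c k4650_A00pp_022_s3 k4651_A00pp_022_s3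

theorem t5769_A00pp_022_s3 : ∃ t, chk3 f_A00pp_022_s3 t 151 483 17 = true := ex3_a t5768_A00pp_022_s3 k4652_A00pp_022_s3

theorem t5770_A00pp_022_s3 : ∃ t, chk3 f_A00pp_022_s3 t 151 482 17 = true := ex3_a k4648_A00pp_022_s3 k4649_A00pp_022_s3

theorem t5771_A00pp_022_s3 : ∃ t, chk3 f_A00pp_022_s3 t 151 241 17 = true := ex3_b t5770_A00pp_022_s3 t5769_A00pp_022_s3

theorem t5772_A00pp_022_s3 : ∃ t, chk3 f_A00pp_022_s3 t 150 483 17 = true := ex3_c k4646_A00pp_022_s3 k4647_A00pp_022_s3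

theorem t5773_A00pp_022_s3 : ∃ t, chk3 f_A00pp_022_s3 t 300 482 34 = true := ex3_c k4642_A00pp_022_s3 k4643_A00pp_022_s3

theorem t5774_A00pp_022_s3 : ∃ t, chk3 f_A00pp_022_s3 t 150 482 34 = true := ex3_a t5773_A00pp_022_s3 k4644_A00pp_022_s3

theorem t5775_A00pp_022_s3 : ∃ t, chk3 f_A00pp_022_s3 t 150 482 17 = true := ex3_c t5774_A00pp_022_s3 k4645_A00pp_022_s3

theorem t5776_A00pp_022_s3 : ∃ t, chk3 f_A00pp_022_s3 t 150 241 17 = true := ex3_b t5775_A00pp_022_s3 t5772_A00pp_022_s3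

theorem t5777_A00pp_022_s3 : ∃ t, chk3 f_A00pp_022_s3 t 75 241 17 = true := ex3_a t5776_A00pp_022_s3 t5771_A00pp_022_s3

theorem t5778_A00pp_022_s3 : ∃ t, chk3 f_A00pp_022_s3 t 151 483 32 = true := ex3_a k4639_A00pp_022_s3 k4640_A00pp_022_s3

theorem t5779_A00pp_022_s3 : ∃ t, chk3 f_A00pp_022_s3 t 151 483 16 = true := ex3_c t5778_A00pp_022_s3 k4641_A00pp_022_s3

theorem t5780_A00pp_022_s3 : ∃ t, chk3 f_A00pp_022_s3 t 302 482 32 = true := ex3_c k4635_A00pp_022_s3 k4636_A00pp_022_s3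

theorem t5781_A00pp_022_s3 : ∃ t, chk3 f_A00pp_022_s3 t 151 482 32 = true := ex3_a t5780_A00pp_022_s3 k4637_A00pp_022_s3

theorem t5782_A00pp_022_s3 : ∃ t, chk3 f_A00pp_022_s3 t 151 482 16 = true := ex3_c t5781_A00pp_022_s3 k4638_A00pp_022_s3

theorem t5783_A00pp_022_s3 : ∃ t, chk3 f_A00pp_022_s3 t 151 241 16 = true := ex3_b t5782_A00pp_022_s3 t5779_A00pp_022_s3

theorem t5784_A00pp_022_s3 : ∃ t, chk3 f_A00pp_022_s3 t 300 483 33 = true := ex3_c k4632_A00pp_022_s3 k4633_A00pp_022_s3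

theorem t5785_A00pp_022_s3 : ∃ t, chk3 f_A00pp_022_s3 t 150 483 33 = true := ex3_a t5784_A00pp_022_s3 k4634_A00pp_022_s3

theorem t5786_A00pp_022_s3 : ∃ t, chk3 f_A00pp_022_s3 t 301 482 66 = true := ex3_a k4629_A00pp_022_s3 k4630_A00pp_022_s3

theorem t5787_A00pp_022_s3 : ∃ t, chk3 f_A00pp_022_s3 t 301 482 33 = true := ex3_c t5786_A00pp_022_s3 k4631_A00pp_022_s3

theorem t5788_A00pp_022_s3 : ∃ t, chk3 f_A00pp_022_s3 t 300 482 67 = true := ex3_a k4627_A00pp_022_s3 k4628_A00pp_022_s3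

theorem t5789_A00pp_022_s3 : ∃ t, chk3 f_A00pp_022_s3 t 300 482 33 = true := ex3_c k4626_A00pp_022_s3 t5788_A00pp_022_s3

theorem t5790_A00pp_022_s3 : ∃ t, chk3 f_A00pp_022_s3 t 150 482 33 = true := ex3_a t5789_A00pp_022_s3 t5787_A00pp_022_s3

theorem t5791_A00pp_022_s3 : ∃ t, chk3 f_A00pp_022_s3 t 150 241 33 = true := ex3_b t5790_A00pp_022_s3 t5785_A00pp_022_s3

theorem t5792_A00pp_022_s3 : ∃ t, chk3 f_A00pp_022_s3 t 301 241 65 = true := ex3_a k4624_A00pp_022_s3 k4625_A00pp_022_s3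

theorem t5793_A00pp_022_s3 : ∃ t, chk3 f_A00pp_022_s3 t 301 241 64 = true := ex3_a k4622_A00pp_022_s3 k4623_A00pp_022_s3

theorem t5794_A00pp_022_s3 : ∃ t, chk3 f_A00pp_022_s3 t 301 241 32 = true := ex3_c t5793_A00pp_022_s3 t5792_A00pp_022_s3

theorem t5795_A00pp_022_s3 : ∃ t, chk3 f_A00pp_022_s3 t 150 241 32 = true := ex3_a k4621_A00pp_022_s3 t5794_A00pp_022_s3

theorem t5796_A00pp_022_s3 : ∃ t, chk3 f_A00pp_022_s3 t 150 241 16 = true := ex3_c t5795_A00pp_022_s3 t5791_A00pp_022_s3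

theorem t5797_A00pp_022_s3 : ∃ t, chk3 f_A00pp_022_s3 t 75 241 16 = true := ex3_a t5796_A00pp_022_s3 t5783_A00pp_022_s3

theorem t5798_A00pp_022_s3 : ∃ t, chk3 f_A00pp_022_s3 t 75 241 8 = true := ex3_c t5797_A00pp_022_s3 t5777_A00pp_022_s3

theorem t5799_A00pp_022_s3 : ∃ t, chk3 f_A00pp_022_s3 t 151 240 17 = true := ex3_b k4619_A00pp_022_s3 k4620_A00pp_022_s3

theorem t5800_A00pp_022_s3 : ∃ t, chk3 f_A00pp_022_s3 t 150 481 34 = true := ex3_a k4616_A00pp_022_s3 k4617_A00pp_022_s3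

theorem t5801_A00pp_022_s3 : ∃ t, chk3 f_A00pp_022_s3 t 150 481 17 = true := ex3_c t5800_A00pp_022_s3 k4618_A00pp_022_s3

theorem t5802_A00pp_022_s3 : ∃ t, chk3 f_A00pp_022_s3 t 150 480 17 = true := ex3_a k4614_A00pp_022_s3 k4615_A00pp_022_s3

theorem t5803_A00pp_022_s3 : ∃ t, chk3 f_A00pp_022_s3 t 150 240 17 = true := ex3_b t5802_A00pp_022_s3 t5801_A00pp_022_s3

theorem t5804_A00pp_022_s3 : ∃ t, chk3 f_A00pp_022_s3 t 75 240 17 = true := ex3_a t5803_A00pp_022_s3 t5799_A00pp_022_s3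

theorem t5805_A00pp_022_s3 : ∃ t, chk3 f_A00pp_022_s3 t 302 480 33 = true := ex3_a k4610_A00pp_022_s3 k4611_A00pp_022_s3

theorem t5806_A00pp_022_s3 : ∃ t, chk3 f_A00pp_022_s3 t 302 240 33 = true := ex3_b t5805_A00pp_022_s3 k4612_A00pp_022_s3

theorem t5807_A00pp_022_s3 : ∃ t, chk3 f_A00pp_022_s3 t 151 240 33 = true := ex3_a t5806_A00pp_022_s3 k4613_A00pp_022_s3

theorem t5808_A00pp_022_s3 : ∃ t, chk3 f_A00pp_022_s3 t 606 480 32 = true := ex3_c k4606_A00pp_022_s3 k4607_A00pp_022_s3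

theorem t5809_A00pp_022_s3 : ∃ t, chk3 f_A00pp_022_s3 t 303 480 32 = true := ex3_a t5808_A00pp_022_s3 k4608_A00pp_022_s3

theorem t5810_A00pp_022_s3 : ∃ t, chk3 f_A00pp_022_s3 t 303 240 32 = true := ex3_b t5809_A00pp_022_s3 k4609_A00pp_022_s3

theorem t5811_A00pp_022_s3 : ∃ t, chk3 f_A00pp_022_s3 t 604 481 65 = true := ex3_c k4603_A00pp_022_s3 k4604_A00pp_022_s3

theorem t5812_A00pp_022_s3 : ∃ t, chk3 f_A00pp_022_s3 t 604 240 65 = true := ex3_b k4602_A00pp_022_s3 t5811_A00pp_022_s3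

theorem t5813_A00pp_022_s3 : ∃ t, chk3 f_A00pp_022_s3 t 302 240 65 = true := ex3_a t5812_A00pp_022_s3 k4605_A00pp_022_s3

theorem t5814_A00pp_022_s3 : ∃ t, chk3 f_A00pp_022_s3 t 605 481 64 = true := ex3_c k4600_A00pp_022_s3 k4601_A00pp_022_s3

theorem t5815_A00pp_022_s3 : ∃ t, chk3 f_A00pp_022_s3 t 605 240 64 = true := ex3_b k4599_A00pp_022_s3 t5814_A00pp_022_s3

theorem t5816_A00pp_022_s3 : ∃ t, chk3 f_A00pp_022_s3 t 302 240 64 = true := ex3_a k4598_A00pp_022_s3 t5815_A00pp_022_s3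

theorem t5817_A00pp_022_s3 : ∃ t, chk3 f_A00pp_022_s3 t 302 240 32 = true := ex3_c t5816_A00pp_022_s3 t5813_A00pp_022_s3

theorem t5818_A00pp_022_s3 : ∃ t, chk3 f_A00pp_022_s3 t 151 240 32 = true := ex3_a t5817_A00pp_022_s3 t5810_A00pp_022_s3

theorem t5819_A00pp_022_s3 : ∃ t, chk3 f_A00pp_022_s3 t 151 240 16 = true := ex3_c t5818_A00pp_022_s3 t5807_A00pp_022_s3

theorem t5820_A00pp_022_s3 : ∃ t, chk3 f_A00pp_022_s3 t 301 240 67 = true := ex3_b k4596_A00pp_022_s3 k4597_A00pp_022_s3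

theorem t5821_A00pp_022_s3 : ∃ t, chk3 f_A00pp_022_s3 t 301 240 66 = true := ex3_a k4594_A00pp_022_s3 k4595_A00pp_022_s3

theorem t5822_A00pp_022_s3 : ∃ t, chk3 f_A00pp_022_s3 t 301 240 33 = true := ex3_c t5821_A00pp_022_s3 t5820_A00pp_022_s3

theorem t5823_A00pp_022_s3 : ∃ t, chk3 f_A00pp_022_s3 t 150 240 33 = true := ex3_a k4593_A00pp_022_s3 t5822_A00pp_022_s3

theorem t5824_A00pp_022_s3 : ∃ t, chk3 f_A00pp_022_s3 t 150 240 16 = true := ex3_c k4592_A00pp_022_s3 t5823_A00pp_022_s3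

theorem t5825_A00pp_022_s3 : ∃ t, chk3 f_A00pp_022_s3 t 75 240 16 = true := ex3_a t5824_A00pp_022_s3 t5819_A00pp_022_s3

theorem t5826_A00pp_022_s3 : ∃ t, chk3 f_A00pp_022_s3 t 75 240 8 = true := ex3_c t5825_A00pp_022_s3 t5804_A00pp_022_s3

theorem t5827_A00pp_022_s3 : ∃ t, chk3 f_A00pp_022_s3 t 75 120 8 = true := ex3_b t5826_A00pp_022_s3 t5798_A00pp_022_s3

theorem t5828_A00pp_022_s3 : ∃ t, chk3 f_A00pp_022_s3 t 75 60 8 = true := ex3_b t5827_A00pp_022_s3 t5767_A00pp_022_s3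

theorem t5829_A00pp_022_s3 : ∃ t, chk3 f_A00pp_022_s3 t 75 60 4 = true := ex3_c t5828_A00pp_022_s3 t5600_A00pp_022_s3

theorem t5830_A00pp_022_s3 : ∃ t, chk3 f_A00pp_022_s3 t 75 30 4 = true := ex3_b t5829_A00pp_022_s3 t5582_A00pp_022_s3

theorem t5831_A00pp_022_s3 : ∃ t, chk3 f_A00pp_022_s3 t 148 245 19 = true := ex3_a k4588_A00pp_022_s3 k4589_A00pp_022_s3

theorem t5832_A00pp_022_s3 : ∃ t, chk3 f_A00pp_022_s3 t 74 245 19 = true := ex3_a t5831_A00pp_022_s3 k4590_A00pp_022_s3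

theorem t5833_A00pp_022_s3 : ∃ t, chk3 f_A00pp_022_s3 t 592 488 38 = true := ex3_c k4581_A00pp_022_s3 k4582_A00pp_022_s3

theorem t5834_A00pp_022_s3 : ∃ t, chk3 f_A00pp_022_s3 t 296 488 38 = true := ex3_a t5833_A00pp_022_s3 k4583_A00pp_022_s3

theorem t5835_A00pp_022_s3 : ∃ t, chk3 f_A00pp_022_s3 t 296 488 19 = true := ex3_c t5834_A00pp_022_s3 k4584_A00pp_022_s3

theorem t5836_A00pp_022_s3 : ∃ t, chk3 f_A00pp_022_s3 t 296 244 19 = true := ex3_b t5835_A00pp_022_s3 k4585_A00pp_022_s3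

theorem t5837_A00pp_022_s3 : ∃ t, chk3 f_A00pp_022_s3 t 148 244 19 = true := ex3_a t5836_A00pp_022_s3 k4586_A00pp_022_s3

theorem t5838_A00pp_022_s3 : ∃ t, chk3 f_A00pp_022_s3 t 74 244 19 = true := ex3_a t5837_A00pp_022_s3 k4587_A00pp_022_s3

theorem t5839_A00pp_022_s3 : ∃ t, chk3 f_A00pp_022_s3 t 74 122 19 = true := ex3_b t5838_A00pp_022_s3 t5832_A00pp_022_s3

theorem t5840_A00pp_022_s3 : ∃ t, chk3 f_A00pp_022_s3 t 1188 1960 146 = true := ex3_a k4571_A00pp_022_s3 k4572_A00pp_022_s3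

theorem t5841_A00pp_022_s3 : ∃ t, chk3 f_A00pp_022_s3 t 1188 1960 73 = true := ex3_c t5840_A00pp_022_s3 k4573_A00pp_022_s3

theorem t5842_A00pp_022_s3 : ∃ t, chk3 f_A00pp_022_s3 t 594 1960 73 = true := ex3_a t5841_A00pp_022_s3 k4574_A00pp_022_s3

theorem t5843_A00pp_022_s3 : ∃ t, chk3 f_A00pp_022_s3 t 594 980 73 = true := ex3_b t5842_A00pp_022_s3 k4575_A00pp_022_s3

theorem t5844_A00pp_022_s3 : ∃ t, chk3 f_A00pp_022_s3 t 1189 1960 145 = true := ex3_a k4568_A00pp_022_s3 k4569_A00pp_022_s3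

theorem t5845_A00pp_022_s3 : ∃ t, chk3 f_A00pp_022_s3 t 1189 980 145 = true := ex3_b t5844_A00pp_022_s3 k4570_A00pp_022_s3

theorem t5846_A00pp_022_s3 : ∃ t, chk3 f_A00pp_022_s3 t 1189 980 72 = true := ex3_c k4567_A00pp_022_s3 t5845_A00pp_022_s3

theorem t5847_A00pp_022_s3 : ∃ t, chk3 f_A00pp_022_s3 t 594 980 72 = true := ex3_a k4566_A00pp_022_s3 t5846_A00pp_022_s3

theorem t5848_A00pp_022_s3 : ∃ t, chk3 f_A00pp_022_s3 t 594 980 36 = true := ex3_c t5847_A00pp_022_s3 t5843_A00pp_022_s3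

theorem t5849_A00pp_022_s3 : ∃ t, chk3 f_A00pp_022_s3 t 594 490 36 = true := ex3_b t5848_A00pp_022_s3 k4576_A00pp_022_s3

theorem t5850_A00pp_022_s3 : ∃ t, chk3 f_A00pp_022_s3 t 297 490 36 = true := ex3_a t5849_A00pp_022_s3 k4577_A00pp_022_s3

theorem t5851_A00pp_022_s3 : ∃ t, chk3 f_A00pp_022_s3 t 297 490 18 = true := ex3_c t5850_A00pp_022_s3 k4578_A00pp_022_s3

theorem t5852_A00pp_022_s3 : ∃ t, chk3 f_A00pp_022_s3 t 297 245 18 = true := ex3_b t5851_A00pp_022_s3 k4579_A00pp_022_s3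

theorem t5853_A00pp_022_s3 : ∃ t, chk3 f_A00pp_022_s3 t 1186 980 148 = true := ex3_b k4559_A00pp_022_s3 k4560_A00pp_022_s3

theorem t5854_A00pp_022_s3 : ∃ t, chk3 f_A00pp_022_s3 t 1186 980 74 = true := ex3_c t5853_A00pp_022_s3 k4561_A00pp_022_s3

theorem t5855_A00pp_022_s3 : ∃ t, chk3 f_A00pp_022_s3 t 593 980 74 = true := ex3_a t5854_A00pp_022_s3 k4562_A00pp_022_s3

theorem t5856_A00pp_022_s3 : ∃ t, chk3 f_A00pp_022_s3 t 593 980 37 = true := ex3_c t5855_A00pp_022_s3 k4563_A00pp_022_s3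

theorem t5857_A00pp_022_s3 : ∃ t, chk3 f_A00pp_022_s3 t 593 490 37 = true := ex3_b t5856_A00pp_022_s3 k4564_A00pp_022_s3

theorem t5858_A00pp_022_s3 : ∃ t, chk3 f_A00pp_022_s3 t 1184 1963 74 = true := ex3_c k4555_A00pp_022_s3 k4556_A00pp_022_s3

theorem t5859_A00pp_022_s3 : ∃ t, chk3 f_A00pp_022_s3 t 592 1963 74 = true := ex3_a t5858_A00pp_022_s3 k4557_A00pp_022_s3

theorem t5860_A00pp_022_s3 : ∃ t, chk3 f_A00pp_022_s3 t 1185 1962 148 = true := ex3_a k4552_A00pp_022_s3 k4553_A00pp_022_s3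

theorem t5861_A00pp_022_s3 : ∃ t, chk3 f_A00pp_022_s3 t 1185 1962 74 = true := ex3_c t5860_A00pp_022_s3 k4554_A00pp_022_s3

theorem t5862_A00pp_022_s3 : ∃ t, chk3 f_A00pp_022_s3 t 1184 1962 149 = true := ex3_a k4550_A00pp_022_s3 k4551_A00pp_022_s3

theorem t5863_A00pp_022_s3 : ∃ t, chk3 f_A00pp_022_s3 t 1184 1962 74 = true := ex3_c k4549_A00pp_022_s3 t5862_A00pp_022_s3

theorem t5864_A00pp_022_s3 : ∃ t, chk3 f_A00pp_022_s3 t 592 1962 74 = true := ex3_a t5863_A00pp_022_s3 t5861_A00pp_022_s3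

theorem t5865_A00pp_022_s3 : ∃ t, chk3 f_A00pp_022_s3 t 592 981 74 = true := ex3_b t5864_A00pp_022_s3 t5859_A00pp_022_s3

theorem t5866_A00pp_022_s3 : ∃ t, chk3 f_A00pp_022_s3 t 592 981 37 = true := ex3_c t5865_A00pp_022_s3 k4558_A00pp_022_s3

theorem t5867_A00pp_022_s3 : ∃ t, chk3 f_A00pp_022_s3 t 592 980 150 = true := ex3_a k4546_A00pp_022_s3 k4547_A00pp_022_s3

theorem t5868_A00pp_022_s3 : ∃ t, chk3 f_A00pp_022_s3 t 592 980 75 = true := ex3_c t5867_A00pp_022_s3 k4548_A00pp_022_s3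

theorem t5869_A00pp_022_s3 : ∃ t, chk3 f_A00pp_022_s3 t 1185 1961 74 = true := ex3_c k4544_A00pp_022_s3 k4545_A00pp_022_s3

theorem t5870_A00pp_022_s3 : ∃ t, chk3 f_A00pp_022_s3 t 1185 980 74 = true := ex3_b k4543_A00pp_022_s3 t5869_A00pp_022_s3

theorem t5871_A00pp_022_s3 : ∃ t, chk3 f_A00pp_022_s3 t 592 980 74 = true := ex3_a k4542_A00pp_022_s3 t5870_A00pp_022_s3

theorem t5872_A00pp_022_s3 : ∃ t, chk3 f_A00pp_022_s3 t 592 980 37 = true := ex3_c t5871_A00pp_022_s3 t5868_A00pp_022_s3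

theorem t5873_A00pp_022_s3 : ∃ t, chk3 f_A00pp_022_s3 t 592 490 37 = true := ex3_b t5872_A00pp_022_s3 t5866_A00pp_022_s3

theorem t5874_A00pp_022_s3 : ∃ t, chk3 f_A00pp_022_s3 t 296 490 37 = true := ex3_a t5873_A00pp_022_s3 t5857_A00pp_022_s3

theorem t5875_A00pp_022_s3 : ∃ t, chk3 f_A00pp_022_s3 t 296 245 37 = true := ex3_b t5874_A00pp_022_s3 k4565_A00pp_022_s3

theorem t5876_A00pp_022_s3 : ∃ t, chk3 f_A00pp_022_s3 t 1186 981 73 = true := ex3_c k4538_A00pp_022_s3 k4539_A00pp_022_s3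

theorem t5877_A00pp_022_s3 : ∃ t, chk3 f_A00pp_022_s3 t 593 981 73 = true := ex3_a t5876_A00pp_022_s3 k4540_A00pp_022_s3

theorem t5878_A00pp_022_s3 : ∃ t, chk3 f_A00pp_022_s3 t 2374 980 147 = true := ex3_b k4535_A00pp_022_s3 k4536_A00pp_022_s3

theorem t5879_A00pp_022_s3 : ∃ t, chk3 f_A00pp_022_s3 t 1187 980 147 = true := ex3_a t5878_A00pp_022_s3 k4537_A00pp_022_s3

theorem t5880_A00pp_022_s3 : ∃ t, chk3 f_A00pp_022_s3 t 1187 980 73 = true := ex3_c k4534_A00pp_022_s3 t5879_A00pp_022_s3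

theorem t5881_A00pp_022_s3 : ∃ t, chk3 f_A00pp_022_s3 t 1186 980 73 = true := ex3_c k4532_A00pp_022_s3 k4533_A00pp_022_s3

theorem t5882_A00pp_022_s3 : ∃ t, chk3 f_A00pp_022_s3 t 593 980 73 = true := ex3_a t5881_A00pp_022_s3 t5880_A00pp_022_s3

theorem t5883_A00pp_022_s3 : ∃ t, chk3 f_A00pp_022_s3 t 593 490 73 = true := ex3_b t5882_A00pp_022_s3 t5877_A00pp_022_s3

theorem t5884_A00pp_022_s3 : ∃ t, chk3 f_A00pp_022_s3 t 592 981 73 = true := ex3_a k4530_A00pp_022_s3 k4531_A00pp_022_s3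

theorem t5885_A00pp_022_s3 : ∃ t, chk3 f_A00pp_022_s3 t 592 490 73 = true := ex3_b k4529_A00pp_022_s3 t5884_A00pp_022_s3

theorem t5886_A00pp_022_s3 : ∃ t, chk3 f_A00pp_022_s3 t 296 490 73 = true := ex3_a t5885_A00pp_022_s3 t5883_A00pp_022_s3

theorem t5887_A00pp_022_s3 : ∃ t, chk3 f_A00pp_022_s3 t 296 980 72 = true := ex3_b k4526_A00pp_022_s3 k4527_A00pp_022_s3

theorem t5888_A00pp_022_s3 : ∃ t, chk3 f_A00pp_022_s3 t 296 490 72 = true := ex3_b t5887_A00pp_022_s3 k4528_A00pp_022_s3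

theorem t5889_A00pp_022_s3 : ∃ t, chk3 f_A00pp_022_s3 t 296 490 36 = true := ex3_c t5888_A00pp_022_s3 t5886_A00pp_022_s3

theorem t5890_A00pp_022_s3 : ∃ t, chk3 f_A00pp_022_s3 t 296 245 36 = true := ex3_b t5889_A00pp_022_s3 k4541_A00pp_022_s3

theorem t5891_A00pp_022_s3 : ∃ t, chk3 f_A00pp_022_s3 t 296 245 18 = true := ex3_c t5890_A00pp_022_s3 t5875_A00pp_022_s3

theorem t5892_A00pp_022_s3 : ∃ t, chk3 f_A00pp_022_s3 t 148 245 18 = true := ex3_a t5891_A00pp_022_s3 t5852_A00pp_022_s3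

theorem t5893_A00pp_022_s3 : ∃ t, chk3 f_A00pp_022_s3 t 74 245 18 = true := ex3_a t5892_A00pp_022_s3 k4580_A00pp_022_s3

theorem t5894_A00pp_022_s3 : ∃ t, chk3 f_A00pp_022_s3 t 1192 978 144 = true := ex3_b k4517_A00pp_022_s3 k4518_A00pp_022_s3

theorem t5895_A00pp_022_s3 : ∃ t, chk3 f_A00pp_022_s3 t 1192 978 72 = true := ex3_c t5894_A00pp_022_s3 k4519_A00pp_022_s3

theorem t5896_A00pp_022_s3 : ∃ t, chk3 f_A00pp_022_s3 t 596 978 72 = true := ex3_a t5895_A00pp_022_s3 k4520_A00pp_022_s3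

theorem t5897_A00pp_022_s3 : ∃ t, chk3 f_A00pp_022_s3 t 298 978 72 = true := ex3_a t5896_A00pp_022_s3 k4521_A00pp_022_s3

theorem t5898_A00pp_022_s3 : ∃ t, chk3 f_A00pp_022_s3 t 298 978 36 = true := ex3_c t5897_A00pp_022_s3 k4522_A00pp_022_s3

theorem t5899_A00pp_022_s3 : ∃ t, chk3 f_A00pp_022_s3 t 298 978 18 = true := ex3_c t5898_A00pp_022_s3 k4523_A00pp_022_s3

theorem t5900_A00pp_022_s3 : ∃ t, chk3 f_A00pp_022_s3 t 298 489 18 = true := ex3_b t5899_A00pp_022_s3 k4524_A00pp_022_s3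

theorem t5901_A00pp_022_s3 : ∃ t, chk3 f_A00pp_022_s3 t 149 489 18 = true := ex3_a t5900_A00pp_022_s3 k4525_A00pp_022_s3

theorem t5902_A00pp_022_s3 : ∃ t, chk3 f_A00pp_022_s3 t 596 488 73 = true := ex3_b k4512_A00pp_022_s3 k4513_A00pp_022_s3

theorem t5903_A00pp_022_s3 : ∃ t, chk3 f_A00pp_022_s3 t 298 488 73 = true := ex3_a t5902_A00pp_022_s3 k4514_A00pp_022_s3

theorem t5904_A00pp_022_s3 : ∃ t, chk3 f_A00pp_022_s3 t 597 976 72 = true := ex3_a k4509_A00pp_022_s3 k4510_A00pp_022_s3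

theorem t5905_A00pp_022_s3 : ∃ t, chk3 f_A00pp_022_s3 t 597 488 72 = true := ex3_b t5904_A00pp_022_s3 k4511_A00pp_022_s3

theorem t5906_A00pp_022_s3 : ∃ t, chk3 f_A00pp_022_s3 t 596 977 72 = true := ex3_c k4507_A00pp_022_s3 k4508_A00pp_022_s3

theorem t5907_A00pp_022_s3 : ∃ t, chk3 f_A00pp_022_s3 t 596 488 72 = true := ex3_b k4506_A00pp_022_s3 t5906_A00pp_022_s3

theorem t5908_A00pp_022_s3 : ∃ t, chk3 f_A00pp_022_s3 t 298 488 72 = true := ex3_a t5907_A00pp_022_s3 t5905_A00pp_022_s3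

theorem t5909_A00pp_022_s3 : ∃ t, chk3 f_A00pp_022_s3 t 298 488 36 = true := ex3_c t5908_A00pp_022_s3 t5903_A00pp_022_s3

theorem t5910_A00pp_022_s3 : ∃ t, chk3 f_A00pp_022_s3 t 298 488 18 = true := ex3_c t5909_A00pp_022_s3 k4515_A00pp_022_s3

theorem t5911_A00pp_022_s3 : ∃ t, chk3 f_A00pp_022_s3 t 149 488 18 = true := ex3_a t5910_A00pp_022_s3 k4516_A00pp_022_s3

theorem t5912_A00pp_022_s3 : ∃ t, chk3 f_A00pp_022_s3 t 149 244 18 = true := ex3_b t5911_A00pp_022_s3 t5901_A00pp_022_s3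

theorem t5913_A00pp_022_s3 : ∃ t, chk3 f_A00pp_022_s3 t 594 978 74 = true := ex3_b k4501_A00pp_022_s3 k4502_A00pp_022_s3

theorem t5914_A00pp_022_s3 : ∃ t, chk3 f_A00pp_022_s3 t 594 489 74 = true := ex3_b t5913_A00pp_022_s3 k4503_A00pp_022_s3

theorem t5915_A00pp_022_s3 : ∃ t, chk3 f_A00pp_022_s3 t 594 489 37 = true := ex3_c t5914_A00pp_022_s3 k4504_A00pp_022_s3

theorem t5916_A00pp_022_s3 : ∃ t, chk3 f_A00pp_022_s3 t 297 489 37 = true := ex3_a t5915_A00pp_022_s3 k4505_A00pp_022_s3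

theorem t5917_A00pp_022_s3 : ∃ t, chk3 f_A00pp_022_s3 t 297 977 74 = true := ex3_a k4498_A00pp_022_s3 k4499_A00pp_022_s3

theorem t5918_A00pp_022_s3 : ∃ t, chk3 f_A00pp_022_s3 t 297 488 74 = true := ex3_b k4497_A00pp_022_s3 t5917_A00pp_022_s3

theorem t5919_A00pp_022_s3 : ∃ t, chk3 f_A00pp_022_s3 t 297 488 37 = true := ex3_c t5918_A00pp_022_s3 k4500_A00pp_022_s3

theorem t5920_A00pp_022_s3 : ∃ t, chk3 f_A00pp_022_s3 t 297 244 37 = true := ex3_b t5919_A00pp_022_s3 t5916_A00pp_022_s3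

theorem t5921_A00pp_022_s3 : ∃ t, chk3 f_A00pp_022_s3 t 1191 1958 72 = true := ex3_c k4493_A00pp_022_s3 k4494_A00pp_022_s3

theorem t5922_A00pp_022_s3 : ∃ t, chk3 f_A00pp_022_s3 t 1191 979 72 = true := ex3_b t5921_A00pp_022_s3 k4495_A00pp_022_s3

theorem t5923_A00pp_022_s3 : ∃ t, chk3 f_A00pp_022_s3 t 1190 979 145 = true := ex3_b k4491_A00pp_022_s3 k4492_A00pp_022_s3

theorem t5924_A00pp_022_s3 : ∃ t, chk3 f_A00pp_022_s3 t 1190 979 72 = true := ex3_c k4490_A00pp_022_s3 t5923_A00pp_022_s3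

theorem t5925_A00pp_022_s3 : ∃ t, chk3 f_A00pp_022_s3 t 595 979 72 = true := ex3_a t5924_A00pp_022_s3 t5922_A00pp_022_s3

theorem t5926_A00pp_022_s3 : ∃ t, chk3 f_A00pp_022_s3 t 595 979 36 = true := ex3_c t5925_A00pp_022_s3 k4496_A00pp_022_s3

theorem t5927_A00pp_022_s3 : ∃ t, chk3 f_A00pp_022_s3 t 1190 978 73 = true := ex3_c k4487_A00pp_022_s3 k4488_A00pp_022_s3

theorem t5928_A00pp_022_s3 : ∃ t, chk3 f_A00pp_022_s3 t 595 978 73 = true := ex3_a t5927_A00pp_022_s3 k4489_A00pp_022_s3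

theorem t5929_A00pp_022_s3 : ∃ t, chk3 f_A00pp_022_s3 t 1191 978 72 = true := ex3_b k4485_A00pp_022_s3 k4486_A00pp_022_s3

theorem t5930_A00pp_022_s3 : ∃ t, chk3 f_A00pp_022_s3 t 595 978 72 = true := ex3_a k4484_A00pp_022_s3 t5929_A00pp_022_s3

theorem t5931_A00pp_022_s3 : ∃ t, chk3 f_A00pp_022_s3 t 595 978 36 = true := ex3_c t5930_A00pp_022_s3 t5928_A00pp_022_s3

theorem t5932_A00pp_022_s3 : ∃ t, chk3 f_A00pp_022_s3 t 595 489 36 = true := ex3_b t5931_A00pp_022_s3 t5926_A00pp_022_s3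

theorem t5933_A00pp_022_s3 : ∃ t, chk3 f_A00pp_022_s3 t 1189 979 146 = true := ex3_b k4481_A00pp_022_s3 k4482_A00pp_022_s3

theorem t5934_A00pp_022_s3 : ∃ t, chk3 f_A00pp_022_s3 t 1189 979 73 = true := ex3_c t5933_A00pp_022_s3 k4483_A00pp_022_s3

theorem t5935_A00pp_022_s3 : ∃ t, chk3 f_A00pp_022_s3 t 1188 1959 73 = true := ex3_c k4479_A00pp_022_s3 k4480_A00pp_022_s3

theorem t5936_A00pp_022_s3 : ∃ t, chk3 f_A00pp_022_s3 t 1188 979 73 = true := ex3_b k4478_A00pp_022_s3 t5935_A00pp_022_s3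

theorem t5937_A00pp_022_s3 : ∃ t, chk3 f_A00pp_022_s3 t 594 979 73 = true := ex3_a t5936_A00pp_022_s3 t5934_A00pp_022_s3

theorem t5938_A00pp_022_s3 : ∃ t, chk3 f_A00pp_022_s3 t 594 489 73 = true := ex3_b k4477_A00pp_022_s3 t5937_A00pp_022_s3

theorem t5939_A00pp_022_s3 : ∃ t, chk3 f_A00pp_022_s3 t 594 979 72 = true := ex3_a k4475_A00pp_022_s3 k4476_A00pp_022_s3

theorem t5940_A00pp_022_s3 : ∃ t, chk3 f_A00pp_022_s3 t 594 489 72 = true := ex3_b k4474_A00pp_022_s3 t5939_A00pp_022_s3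

theorem t5941_A00pp_022_s3 : ∃ t, chk3 f_A00pp_022_s3 t 594 489 36 = true := ex3_c t5940_A00pp_022_s3 t5938_A00pp_022_s3

theorem t5942_A00pp_022_s3 : ∃ t, chk3 f_A00pp_022_s3 t 297 489 36 = true := ex3_a t5941_A00pp_022_s3 t5932_A00pp_022_s3

theorem t5943_A00pp_022_s3 : ∃ t, chk3 f_A00pp_022_s3 t 595 977 73 = true := ex3_a k4472_A00pp_022_s3 k4473_A00pp_022_s3

theorem t5944_A00pp_022_s3 : ∃ t, chk3 f_A00pp_022_s3 t 595 488 73 = true := ex3_b k4471_A00pp_022_s3 t5943_A00pp_022_s3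

theorem t5945_A00pp_022_s3 : ∃ t, chk3 f_A00pp_022_s3 t 595 488 36 = true := ex3_c k4470_A00pp_022_s3 t5944_A00pp_022_s3

theorem t5946_A00pp_022_s3 : ∃ t, chk3 f_A00pp_022_s3 t 297 488 36 = true := ex3_a k4469_A00pp_022_s3 t5945_A00pp_022_s3

theorem t5947_A00pp_022_s3 : ∃ t, chk3 f_A00pp_022_s3 t 297 244 36 = true := ex3_b t5946_A00pp_022_s3 t5942_A00pp_022_s3

theorem t5948_A00pp_022_s3 : ∃ t, chk3 f_A00pp_022_s3 t 297 244 18 = true := ex3_c t5947_A00pp_022_s3 t5920_A00pp_022_s3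

theorem t5949_A00pp_022_s3 : ∃ t, chk3 f_A00pp_022_s3 t 593 979 149 = true := ex3_a k4466_A00pp_022_s3 k4467_A00pp_022_s3

theorem t5950_A00pp_022_s3 : ∃ t, chk3 f_A00pp_022_s3 t 1187 979 148 = true := ex3_a k4464_A00pp_022_s3 k4465_A00pp_022_s3

theorem t5951_A00pp_022_s3 : ∃ t, chk3 f_A00pp_022_s3 t 593 979 148 = true := ex3_a k4463_A00pp_022_s3 t5950_A00pp_022_s3

theorem t5952_A00pp_022_s3 : ∃ t, chk3 f_A00pp_022_s3 t 593 979 74 = true := ex3_c t5951_A00pp_022_s3 t5949_A00pp_022_s3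

theorem t5953_A00pp_022_s3 : ∃ t, chk3 f_A00pp_022_s3 t 593 489 74 = true := ex3_b k4462_A00pp_022_s3 t5952_A00pp_022_s3

theorem t5954_A00pp_022_s3 : ∃ t, chk3 f_A00pp_022_s3 t 593 489 37 = true := ex3_c t5953_A00pp_022_s3 k4468_A00pp_022_s3

theorem t5955_A00pp_022_s3 : ∃ t, chk3 f_A00pp_022_s3 t 592 979 75 = true := ex3_a k4460_A00pp_022_s3 k4461_A00pp_022_s3

theorem t5956_A00pp_022_s3 : ∃ t, chk3 f_A00pp_022_s3 t 592 489 75 = true := ex3_b k4459_A00pp_022_s3 t5955_A00pp_022_s3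

theorem t5957_A00pp_022_s3 : ∃ t, chk3 f_A00pp_022_s3 t 592 489 37 = true := ex3_c k4458_A00pp_022_s3 t5956_A00pp_022_s3

theorem t5958_A00pp_022_s3 : ∃ t, chk3 f_A00pp_022_s3 t 296 489 37 = true := ex3_a t5957_A00pp_022_s3 t5954_A00pp_022_s3

theorem t5959_A00pp_022_s3 : ∃ t, chk3 f_A00pp_022_s3 t 593 488 75 = true := ex3_b k4456_A00pp_022_s3 k4457_A00pp_022_s3

theorem t5960_A00pp_022_s3 : ∃ t, chk3 f_A00pp_022_s3 t 593 488 37 = true := ex3_c k4455_A00pp_022_s3 t5959_A00pp_022_s3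

theorem t5961_A00pp_022_s3 : ∃ t, chk3 f_A00pp_022_s3 t 296 488 37 = true := ex3_a k4454_A00pp_022_s3 t5960_A00pp_022_s3

theorem t5962_A00pp_022_s3 : ∃ t, chk3 f_A00pp_022_s3 t 296 244 37 = true := ex3_b t5961_A00pp_022_s3 t5958_A00pp_022_s3

theorem t5963_A00pp_022_s3 : ∃ t, chk3 f_A00pp_022_s3 t 593 979 36 = true := ex3_c k4452_A00pp_022_s3 k4453_A00pp_022_s3

theorem t5964_A00pp_022_s3 : ∃ t, chk3 f_A00pp_022_s3 t 296 979 36 = true := ex3_a k4451_A00pp_022_s3 t5963_A00pp_022_s3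

theorem t5965_A00pp_022_s3 : ∃ t, chk3 f_A00pp_022_s3 t 296 489 36 = true := ex3_b k4450_A00pp_022_s3 t5964_A00pp_022_s3

theorem t5966_A00pp_022_s3 : ∃ t, chk3 f_A00pp_022_s3 t 296 244 36 = true := ex3_b k4449_A00pp_022_s3 t5965_A00pp_022_s3

theorem t5967_A00pp_022_s3 : ∃ t, chk3 f_A00pp_022_s3 t 296 244 18 = true := ex3_c t5966_A00pp_022_s3 t5962_A00pp_022_s3

theorem t5968_A00pp_022_s3 : ∃ t, chk3 f_A00pp_022_s3 t 148 244 18 = true := ex3_a t5967_A00pp_022_s3 t5948_A00pp_022_s3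

theorem t5969_A00pp_022_s3 : ∃ t, chk3 f_A00pp_022_s3 t 74 244 18 = true := ex3_a t5968_A00pp_022_s3 t5912_A00pp_022_s3

theorem t5970_A00pp_022_s3 : ∃ t, chk3 f_A00pp_022_s3 t 74 122 18 = true := ex3_b t5969_A00pp_022_s3 t5893_A00pp_022_s3

theorem t5971_A00pp_022_s3 : ∃ t, chk3 f_A00pp_022_s3 t 74 122 9 = true := ex3_c t5970_A00pp_022_s3 t5839_A00pp_022_s3

theorem t5972_A00pp_022_s3 : ∃ t, chk3 f_A00pp_022_s3 t 74 61 9 = true := ex3_b t5971_A00pp_022_s3 k4591_A00pp_022_s3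

theorem t5973_A00pp_022_s3 : ∃ t, chk3 f_A00pp_022_s3 t 598 487 72 = true := ex3_b k4443_A00pp_022_s3 k4444_A00pp_022_s3

theorem t5974_A00pp_022_s3 : ∃ t, chk3 f_A00pp_022_s3 t 598 487 36 = true := ex3_c t5973_A00pp_022_s3 k4445_A00pp_022_s3

theorem t5975_A00pp_022_s3 : ∃ t, chk3 f_A00pp_022_s3 t 299 487 36 = true := ex3_a t5974_A00pp_022_s3 k4446_A00pp_022_s3

theorem t5976_A00pp_022_s3 : ∃ t, chk3 f_A00pp_022_s3 t 597 487 36 = true := ex3_c k4441_A00pp_022_s3 k4442_A00pp_022_s3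

theorem t5977_A00pp_022_s3 : ∃ t, chk3 f_A00pp_022_s3 t 298 487 36 = true := ex3_a k4440_A00pp_022_s3 t5976_A00pp_022_s3

theorem t5978_A00pp_022_s3 : ∃ t, chk3 f_A00pp_022_s3 t 149 487 36 = true := ex3_a t5977_A00pp_022_s3 t5975_A00pp_022_s3

theorem t5979_A00pp_022_s3 : ∃ t, chk3 f_A00pp_022_s3 t 149 487 18 = true := ex3_c t5978_A00pp_022_s3 k4447_A00pp_022_s3

theorem t5980_A00pp_022_s3 : ∃ t, chk3 f_A00pp_022_s3 t 598 486 36 = true := ex3_c k4436_A00pp_022_s3 k4437_A00pp_022_s3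

theorem t5981_A00pp_022_s3 : ∃ t, chk3 f_A00pp_022_s3 t 299 486 36 = true := ex3_a t5980_A00pp_022_s3 k4438_A00pp_022_s3

theorem t5982_A00pp_022_s3 : ∃ t, chk3 f_A00pp_022_s3 t 299 486 18 = true := ex3_c t5981_A00pp_022_s3 k4439_A00pp_022_s3

theorem t5983_A00pp_022_s3 : ∃ t, chk3 f_A00pp_022_s3 t 298 486 37 = true := ex3_a k4434_A00pp_022_s3 k4435_A00pp_022_s3

theorem t5984_A00pp_022_s3 : ∃ t, chk3 f_A00pp_022_s3 t 298 486 18 = true := ex3_c k4433_A00pp_022_s3 t5983_A00pp_022_s3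

theorem t5985_A00pp_022_s3 : ∃ t, chk3 f_A00pp_022_s3 t 149 486 18 = true := ex3_a t5984_A00pp_022_s3 t5982_A00pp_022_s3

theorem t5986_A00pp_022_s3 : ∃ t, chk3 f_A00pp_022_s3 t 149 243 18 = true := ex3_b t5985_A00pp_022_s3 t5979_A00pp_022_s3

theorem t5987_A00pp_022_s3 : ∃ t, chk3 f_A00pp_022_s3 t 149 243 9 = true := ex3_c t5986_A00pp_022_s3 k4448_A00pp_022_s3

theorem t5988_A00pp_022_s3 : ∃ t, chk3 f_A00pp_022_s3 t 298 242 38 = true := ex3_b k4429_A00pp_022_s3 k4430_A00pp_022_s3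

theorem t5989_A00pp_022_s3 : ∃ t, chk3 f_A00pp_022_s3 t 298 242 19 = true := ex3_c t5988_A00pp_022_s3 k4431_A00pp_022_s3

theorem t5990_A00pp_022_s3 : ∃ t, chk3 f_A00pp_022_s3 t 149 242 19 = true := ex3_a t5989_A00pp_022_s3 k4432_A00pp_022_s3

theorem t5991_A00pp_022_s3 : ∃ t, chk3 f_A00pp_022_s3 t 299 242 37 = true := ex3_b k4427_A00pp_022_s3 k4428_A00pp_022_s3

theorem t5992_A00pp_022_s3 : ∃ t, chk3 f_A00pp_022_s3 t 299 242 18 = true := ex3_c k4426_A00pp_022_s3 t5991_A00pp_022_s3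

theorem t5993_A00pp_022_s3 : ∃ t, chk3 f_A00pp_022_s3 t 149 242 18 = true := ex3_a k4425_A00pp_022_s3 t5992_A00pp_022_s3

theorem t5994_A00pp_022_s3 : ∃ t, chk3 f_A00pp_022_s3 t 149 242 9 = true := ex3_c t5993_A00pp_022_s3 t5990_A00pp_022_s3

theorem t5995_A00pp_022_s3 : ∃ t, chk3 f_A00pp_022_s3 t 149 121 9 = true := ex3_b t5994_A00pp_022_s3 t5987_A00pp_022_s3

theorem t5996_A00pp_022_s3 : ∃ t, chk3 f_A00pp_022_s3 t 297 486 38 = true := ex3_a k4421_A00pp_022_s3 k4422_A00pp_022_s3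

theorem t5997_A00pp_022_s3 : ∃ t, chk3 f_A00pp_022_s3 t 297 243 38 = true := ex3_b t5996_A00pp_022_s3 k4423_A00pp_022_s3

theorem t5998_A00pp_022_s3 : ∃ t, chk3 f_A00pp_022_s3 t 297 243 19 = true := ex3_c t5997_A00pp_022_s3 k4424_A00pp_022_s3

theorem t5999_A00pp_022_s3 : ∃ t, chk3 f_A00pp_022_s3 t 296 243 39 = true := ex3_b k4419_A00pp_022_s3 k4420_A00pp_022_s3

theorem t6000_A00pp_022_s3 : ∃ t, chk3 f_A00pp_022_s3 t 296 487 38 = true := ex3_c k4417_A00pp_022_s3 k4418_A00pp_022_s3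

theorem t6001_A00pp_022_s3 : ∃ t, chk3 f_A00pp_022_s3 t 296 243 38 = true := ex3_b k4416_A00pp_022_s3 t6000_A00pp_022_s3

theorem t6002_A00pp_022_s3 : ∃ t, chk3 f_A00pp_022_s3 t 296 243 19 = true := ex3_c t6001_A00pp_022_s3 t5999_A00pp_022_s3

theorem t6003_A00pp_022_s3 : ∃ t, chk3 f_A00pp_022_s3 t 148 243 19 = true := ex3_a t6002_A00pp_022_s3 t5998_A00pp_022_s3

theorem t6004_A00pp_022_s3 : ∃ t, chk3 f_A00pp_022_s3 t 297 242 19 = true := ex3_c k4414_A00pp_022_s3 k4415_A00pp_022_s3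

theorem t6005_A00pp_022_s3 : ∃ t, chk3 f_A00pp_022_s3 t 148 242 19 = true := ex3_a k4413_A00pp_022_s3 t6004_A00pp_022_s3

theorem t6006_A00pp_022_s3 : ∃ t, chk3 f_A00pp_022_s3 t 148 121 19 = true := ex3_b t6005_A00pp_022_s3 t6003_A00pp_022_s3

theorem t6007_A00pp_022_s3 : ∃ t, chk3 f_A00pp_022_s3 t 595 487 37 = true := ex3_c k4411_A00pp_022_s3 k4412_A00pp_022_s3

theorem t6008_A00pp_022_s3 : ∃ t, chk3 f_A00pp_022_s3 t 297 487 37 = true := ex3_a k4410_A00pp_022_s3 t6007_A00pp_022_s3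

theorem t6009_A00pp_022_s3 : ∃ t, chk3 f_A00pp_022_s3 t 297 243 37 = true := ex3_b k4409_A00pp_022_s3 t6008_A00pp_022_s3

theorem t6010_A00pp_022_s3 : ∃ t, chk3 f_A00pp_022_s3 t 297 243 18 = true := ex3_c k4408_A00pp_022_s3 t6009_A00pp_022_s3

theorem t6011_A00pp_022_s3 : ∃ t, chk3 f_A00pp_022_s3 t 297 242 72 = true := ex3_a k4404_A00pp_022_s3 k4405_A00pp_022_s3

theorem t6012_A00pp_022_s3 : ∃ t, chk3 f_A00pp_022_s3 t 297 242 36 = true := ex3_c t6011_A00pp_022_s3 k4406_A00pp_022_s3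

theorem t6013_A00pp_022_s3 : ∃ t, chk3 f_A00pp_022_s3 t 297 242 18 = true := ex3_c t6012_A00pp_022_s3 k4407_A00pp_022_s3

theorem t6014_A00pp_022_s3 : ∃ t, chk3 f_A00pp_022_s3 t 297 121 18 = true := ex3_b t6013_A00pp_022_s3 t6010_A00pp_022_s3

theorem t6015_A00pp_022_s3 : ∃ t, chk3 f_A00pp_022_s3 t 296 121 37 = true := ex3_b k4402_A00pp_022_s3 k4403_A00pp_022_s3

theorem t6016_A00pp_022_s3 : ∃ t, chk3 f_A00pp_022_s3 t 296 486 36 = true := ex3_c k4399_A00pp_022_s3 k4400_A00pp_022_s3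

theorem t6017_A00pp_022_s3 : ∃ t, chk3 f_A00pp_022_s3 t 296 243 36 = true := ex3_b t6016_A00pp_022_s3 k4401_A00pp_022_s3

theorem t6018_A00pp_022_s3 : ∃ t, chk3 f_A00pp_022_s3 t 593 485 36 = true := ex3_c k4397_A00pp_022_s3 k4398_A00pp_022_s3

theorem t6019_A00pp_022_s3 : ∃ t, chk3 f_A00pp_022_s3 t 296 485 36 = true := ex3_a k4396_A00pp_022_s3 t6018_A00pp_022_s3

theorem t6020_A00pp_022_s3 : ∃ t, chk3 f_A00pp_022_s3 t 296 242 36 = true := ex3_b k4395_A00pp_022_s3 t6019_A00pp_022_s3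

theorem t6021_A00pp_022_s3 : ∃ t, chk3 f_A00pp_022_s3 t 296 121 36 = true := ex3_b t6020_A00pp_022_s3 t6017_A00pp_022_s3

theorem t6022_A00pp_022_s3 : ∃ t, chk3 f_A00pp_022_s3 t 296 121 18 = true := ex3_c t6021_A00pp_022_s3 t6015_A00pp_022_s3

theorem t6023_A00pp_022_s3 : ∃ t, chk3 f_A00pp_022_s3 t 148 121 18 = true := ex3_a t6022_A00pp_022_s3 t6014_A00pp_022_s3

theorem t6024_A00pp_022_s3 : ∃ t, chk3 f_A00pp_022_s3 t 148 121 9 = true := ex3_c t6023_A00pp_022_s3 t6006_A00pp_022_s3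

theorem t6025_A00pp_022_s3 : ∃ t, chk3 f_A00pp_022_s3 t 74 121 9 = true := ex3_a t6024_A00pp_022_s3 t5995_A00pp_022_s3

theorem t6026_A00pp_022_s3 : ∃ t, chk3 f_A00pp_022_s3 t 149 483 19 = true := ex3_a k4393_A00pp_022_s3 k4394_A00pp_022_s3

theorem t6027_A00pp_022_s3 : ∃ t, chk3 f_A00pp_022_s3 t 149 241 19 = true := ex3_b k4392_A00pp_022_s3 t6026_A00pp_022_s3

theorem t6028_A00pp_022_s3 : ∃ t, chk3 f_A00pp_022_s3 t 149 241 18 = true := ex3_b k4390_A00pp_022_s3 k4391_A00pp_022_s3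

theorem t6029_A00pp_022_s3 : ∃ t, chk3 f_A00pp_022_s3 t 149 241 9 = true := ex3_c t6028_A00pp_022_s3 t6027_A00pp_022_s3

theorem t6030_A00pp_022_s3 : ∃ t, chk3 f_A00pp_022_s3 t 149 240 18 = true := ex3_b k4387_A00pp_022_s3 k4388_A00pp_022_s3

theorem t6031_A00pp_022_s3 : ∃ t, chk3 f_A00pp_022_s3 t 149 240 9 = true := ex3_c t6030_A00pp_022_s3 k4389_A00pp_022_s3

theorem t6032_A00pp_022_s3 : ∃ t, chk3 f_A00pp_022_s3 t 149 120 9 = true := ex3_b t6031_A00pp_022_s3 t6029_A00pp_022_s3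

theorem t6033_A00pp_022_s3 : ∃ t, chk3 f_A00pp_022_s3 t 297 241 18 = true := ex3_b k4384_A00pp_022_s3 k4385_A00pp_022_s3

theorem t6034_A00pp_022_s3 : ∃ t, chk3 f_A00pp_022_s3 t 297 241 9 = true := ex3_c t6033_A00pp_022_s3 k4386_A00pp_022_s3

theorem t6035_A00pp_022_s3 : ∃ t, chk3 f_A00pp_022_s3 t 296 241 9 = true := ex3_c k4382_A00pp_022_s3 k4383_A00pp_022_s3

theorem t6036_A00pp_022_s3 : ∃ t, chk3 f_A00pp_022_s3 t 148 241 9 = true := ex3_a t6035_A00pp_022_s3 t6034_A00pp_022_s3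

theorem t6037_A00pp_022_s3 : ∃ t, chk3 f_A00pp_022_s3 t 148 240 9 = true := ex3_a k4380_A00pp_022_s3 k4381_A00pp_022_s3

theorem t6038_A00pp_022_s3 : ∃ t, chk3 f_A00pp_022_s3 t 148 120 9 = true := ex3_b t6037_A00pp_022_s3 t6036_A00pp_022_s3

theorem t6039_A00pp_022_s3 : ∃ t, chk3 f_A00pp_022_s3 t 74 120 9 = true := ex3_a t6038_A00pp_022_s3 t6032_A00pp_022_s3

theorem t6040_A00pp_022_s3 : ∃ t, chk3 f_A00pp_022_s3 t 74 60 9 = true := ex3_b t6039_A00pp_022_s3 t6025_A00pp_022_s3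

theorem t6041_A00pp_022_s3 : ∃ t, chk3 f_A00pp_022_s3 t 74 30 9 = true := ex3_b t6040_A00pp_022_s3 t5972_A00pp_022_s3

theorem t6042_A00pp_022_s3 : ∃ t, chk3 f_A00pp_022_s3 t 297 490 35 = true := ex3_a k4375_A00pp_022_s3 k4376_A00pp_022_s3

theorem t6043_A00pp_022_s3 : ∃ t, chk3 f_A00pp_022_s3 t 297 245 35 = true := ex3_b t6042_A00pp_022_s3 k4377_A00pp_022_s3

theorem t6044_A00pp_022_s3 : ∃ t, chk3 f_A00pp_022_s3 t 296 980 35 = true := ex3_b k4371_A00pp_022_s3 k4372_A00pp_022_s3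

theorem t6045_A00pp_022_s3 : ∃ t, chk3 f_A00pp_022_s3 t 296 490 35 = true := ex3_b t6044_A00pp_022_s3 k4373_A00pp_022_s3

theorem t6046_A00pp_022_s3 : ∃ t, chk3 f_A00pp_022_s3 t 296 245 35 = true := ex3_b t6045_A00pp_022_s3 k4374_A00pp_022_s3

theorem t6047_A00pp_022_s3 : ∃ t, chk3 f_A00pp_022_s3 t 148 245 35 = true := ex3_a t6046_A00pp_022_s3 t6043_A00pp_022_s3

theorem t6048_A00pp_022_s3 : ∃ t, chk3 f_A00pp_022_s3 t 74 245 35 = true := ex3_a t6047_A00pp_022_s3 k4378_A00pp_022_s3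

theorem t6049_A00pp_022_s3 : ∃ t, chk3 f_A00pp_022_s3 t 148 245 68 = true := ex3_a k4367_A00pp_022_s3 k4368_A00pp_022_s3

theorem t6050_A00pp_022_s3 : ∃ t, chk3 f_A00pp_022_s3 t 74 245 68 = true := ex3_a t6049_A00pp_022_s3 k4369_A00pp_022_s3

theorem t6051_A00pp_022_s3 : ∃ t, chk3 f_A00pp_022_s3 t 74 245 34 = true := ex3_c t6050_A00pp_022_s3 k4370_A00pp_022_s3

theorem t6052_A00pp_022_s3 : ∃ t, chk3 f_A00pp_022_s3 t 74 245 17 = true := ex3_c t6051_A00pp_022_s3 t6048_A00pp_022_s3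

theorem t6053_A00pp_022_s3 : ∃ t, chk3 f_A00pp_022_s3 t 1196 1956 70 = true := ex3_c k4360_A00pp_022_s3 k4361_A00pp_022_s3

theorem t6054_A00pp_022_s3 : ∃ t, chk3 f_A00pp_022_s3 t 1196 978 70 = true := ex3_b t6053_A00pp_022_s3 k4362_A00pp_022_s3

theorem t6055_A00pp_022_s3 : ∃ t, chk3 f_A00pp_022_s3 t 598 978 70 = true := ex3_a t6054_A00pp_022_s3 k4363_A00pp_022_s3

theorem t6056_A00pp_022_s3 : ∃ t, chk3 f_A00pp_022_s3 t 299 978 70 = true := ex3_a t6055_A00pp_022_s3 k4364_A00pp_022_s3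

theorem t6057_A00pp_022_s3 : ∃ t, chk3 f_A00pp_022_s3 t 299 978 35 = true := ex3_c t6056_A00pp_022_s3 k4365_A00pp_022_s3

theorem t6058_A00pp_022_s3 : ∃ t, chk3 f_A00pp_022_s3 t 299 489 35 = true := ex3_b t6057_A00pp_022_s3 k4366_A00pp_022_s3

theorem t6059_A00pp_022_s3 : ∃ t, chk3 f_A00pp_022_s3 t 299 978 69 = true := ex3_a k4357_A00pp_022_s3 k4358_A00pp_022_s3

theorem t6060_A00pp_022_s3 : ∃ t, chk3 f_A00pp_022_s3 t 299 489 69 = true := ex3_b t6059_A00pp_022_s3 k4359_A00pp_022_s3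

theorem t6061_A00pp_022_s3 : ∃ t, chk3 f_A00pp_022_s3 t 299 489 34 = true := ex3_c k4356_A00pp_022_s3 t6060_A00pp_022_s3

theorem t6062_A00pp_022_s3 : ∃ t, chk3 f_A00pp_022_s3 t 299 489 17 = true := ex3_c t6061_A00pp_022_s3 t6058_A00pp_022_s3

theorem t6063_A00pp_022_s3 : ∃ t, chk3 f_A00pp_022_s3 t 1194 1957 142 = true := ex3_a k4351_A00pp_022_s3 k4352_A00pp_022_s3

theorem t6064_A00pp_022_s3 : ∃ t, chk3 f_A00pp_022_s3 t 1194 1957 71 = true := ex3_c t6063_A00pp_022_s3 k4353_A00pp_022_s3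

theorem t6065_A00pp_022_s3 : ∃ t, chk3 f_A00pp_022_s3 t 597 1957 71 = true := ex3_a t6064_A00pp_022_s3 k4354_A00pp_022_s3

theorem t6066_A00pp_022_s3 : ∃ t, chk3 f_A00pp_022_s3 t 597 1956 71 = true := ex3_a k4349_A00pp_022_s3 k4350_A00pp_022_s3

theorem t6067_A00pp_022_s3 : ∃ t, chk3 f_A00pp_022_s3 t 597 978 71 = true := ex3_b t6066_A00pp_022_s3 t6065_A00pp_022_s3

theorem t6068_A00pp_022_s3 : ∃ t, chk3 f_A00pp_022_s3 t 597 489 71 = true := ex3_b t6067_A00pp_022_s3 k4355_A00pp_022_s3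

theorem t6069_A00pp_022_s3 : ∃ t, chk3 f_A00pp_022_s3 t 1192 1958 143 = true := ex3_b k4345_A00pp_022_s3 k4346_A00pp_022_s3

theorem t6070_A00pp_022_s3 : ∃ t, chk3 f_A00pp_022_s3 t 1192 979 143 = true := ex3_b t6069_A00pp_022_s3 k4347_A00pp_022_s3

theorem t6071_A00pp_022_s3 : ∃ t, chk3 f_A00pp_022_s3 t 1192 979 71 = true := ex3_c k4344_A00pp_022_s3 t6070_A00pp_022_s3

theorem t6072_A00pp_022_s3 : ∃ t, chk3 f_A00pp_022_s3 t 596 979 71 = true := ex3_a t6071_A00pp_022_s3 k4348_A00pp_022_s3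

theorem t6073_A00pp_022_s3 : ∃ t, chk3 f_A00pp_022_s3 t 1193 1957 143 = true := ex3_a k4342_A00pp_022_s3 k4343_A00pp_022_s3

theorem t6074_A00pp_022_s3 : ∃ t, chk3 f_A00pp_022_s3 t 1193 978 143 = true := ex3_b k4341_A00pp_022_s3 t6073_A00pp_022_s3

theorem t6075_A00pp_022_s3 : ∃ t, chk3 f_A00pp_022_s3 t 1193 978 71 = true := ex3_c k4340_A00pp_022_s3 t6074_A00pp_022_s3

theorem t6076_A00pp_022_s3 : ∃ t, chk3 f_A00pp_022_s3 t 596 978 71 = true := ex3_a k4339_A00pp_022_s3 t6075_A00pp_022_s3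

theorem t6077_A00pp_022_s3 : ∃ t, chk3 f_A00pp_022_s3 t 596 489 71 = true := ex3_b t6076_A00pp_022_s3 t6072_A00pp_022_s3

theorem t6078_A00pp_022_s3 : ∃ t, chk3 f_A00pp_022_s3 t 298 489 71 = true := ex3_a t6077_A00pp_022_s3 t6068_A00pp_022_s3

theorem t6079_A00pp_022_s3 : ∃ t, chk3 f_A00pp_022_s3 t 1195 978 141 = true := ex3_b k4336_A00pp_022_s3 k4337_A00pp_022_s3

theorem t6080_A00pp_022_s3 : ∃ t, chk3 f_A00pp_022_s3 t 597 978 141 = true := ex3_a k4335_A00pp_022_s3 t6079_A00pp_022_s3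

theorem t6081_A00pp_022_s3 : ∃ t, chk3 f_A00pp_022_s3 t 597 978 70 = true := ex3_c k4334_A00pp_022_s3 t6080_A00pp_022_s3

theorem t6082_A00pp_022_s3 : ∃ t, chk3 f_A00pp_022_s3 t 597 489 70 = true := ex3_b t6081_A00pp_022_s3 k4338_A00pp_022_s3

theorem t6083_A00pp_022_s3 : ∃ t, chk3 f_A00pp_022_s3 t 596 489 70 = true := ex3_b k4332_A00pp_022_s3 k4333_A00pp_022_s3

theorem t6084_A00pp_022_s3 : ∃ t, chk3 f_A00pp_022_s3 t 298 489 70 = true := ex3_a t6083_A00pp_022_s3 t6082_A00pp_022_s3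

theorem t6085_A00pp_022_s3 : ∃ t, chk3 f_A00pp_022_s3 t 298 489 35 = true := ex3_c t6084_A00pp_022_s3 t6078_A00pp_022_s3

theorem t6086_A00pp_022_s3 : ∃ t, chk3 f_A00pp_022_s3 t 298 489 34 = true := ex3_c k4330_A00pp_022_s3 k4331_A00pp_022_s3

theorem t6087_A00pp_022_s3 : ∃ t, chk3 f_A00pp_022_s3 t 298 489 17 = true := ex3_c t6086_A00pp_022_s3 t6085_A00pp_022_s3

theorem t6088_A00pp_022_s3 : ∃ t, chk3 f_A00pp_022_s3 t 149 489 17 = true := ex3_a t6087_A00pp_022_s3 t6062_A00pp_022_s3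

theorem t6089_A00pp_022_s3 : ∃ t, chk3 f_A00pp_022_s3 t 1197 1955 140 = true := ex3_a k4325_A00pp_022_s3 k4326_A00pp_022_s3

theorem t6090_A00pp_022_s3 : ∃ t, chk3 f_A00pp_022_s3 t 1197 977 140 = true := ex3_b k4324_A00pp_022_s3 t6089_A00pp_022_s3

theorem t6091_A00pp_022_s3 : ∃ t, chk3 f_A00pp_022_s3 t 1197 977 70 = true := ex3_c t6090_A00pp_022_s3 k4327_A00pp_022_s3

theorem t6092_A00pp_022_s3 : ∃ t, chk3 f_A00pp_022_s3 t 1196 977 141 = true := ex3_b k4322_A00pp_022_s3 k4323_A00pp_022_s3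

theorem t6093_A00pp_022_s3 : ∃ t, chk3 f_A00pp_022_s3 t 1196 977 70 = true := ex3_c k4321_A00pp_022_s3 t6092_A00pp_022_s3

theorem t6094_A00pp_022_s3 : ∃ t, chk3 f_A00pp_022_s3 t 598 977 70 = true := ex3_a t6093_A00pp_022_s3 t6091_A00pp_022_s3

theorem t6095_A00pp_022_s3 : ∃ t, chk3 f_A00pp_022_s3 t 598 977 35 = true := ex3_c t6094_A00pp_022_s3 k4328_A00pp_022_s3

theorem t6096_A00pp_022_s3 : ∃ t, chk3 f_A00pp_022_s3 t 299 977 35 = true := ex3_a t6095_A00pp_022_s3 k4329_A00pp_022_s3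

theorem t6097_A00pp_022_s3 : ∃ t, chk3 f_A00pp_022_s3 t 1198 976 70 = true := ex3_c k4317_A00pp_022_s3 k4318_A00pp_022_s3

theorem t6098_A00pp_022_s3 : ∃ t, chk3 f_A00pp_022_s3 t 599 976 70 = true := ex3_a t6097_A00pp_022_s3 k4319_A00pp_022_s3

theorem t6099_A00pp_022_s3 : ∃ t, chk3 f_A00pp_022_s3 t 599 976 35 = true := ex3_c t6098_A00pp_022_s3 k4320_A00pp_022_s3

theorem t6100_A00pp_022_s3 : ∃ t, chk3 f_A00pp_022_s3 t 598 976 71 = true := ex3_a k4315_A00pp_022_s3 k4316_A00pp_022_s3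

theorem t6101_A00pp_022_s3 : ∃ t, chk3 f_A00pp_022_s3 t 598 976 35 = true := ex3_c k4314_A00pp_022_s3 t6100_A00pp_022_s3

theorem t6102_A00pp_022_s3 : ∃ t, chk3 f_A00pp_022_s3 t 299 976 35 = true := ex3_a t6101_A00pp_022_s3 t6099_A00pp_022_s3

theorem t6103_A00pp_022_s3 : ∃ t, chk3 f_A00pp_022_s3 t 299 488 35 = true := ex3_b t6102_A00pp_022_s3 t6096_A00pp_022_s3

theorem t6104_A00pp_022_s3 : ∃ t, chk3 f_A00pp_022_s3 t 1195 977 71 = true := ex3_c k4312_A00pp_022_s3 k4313_A00pp_022_s3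

theorem t6105_A00pp_022_s3 : ∃ t, chk3 f_A00pp_022_s3 t 597 977 71 = true := ex3_a k4311_A00pp_022_s3 t6104_A00pp_022_s3

theorem t6106_A00pp_022_s3 : ∃ t, chk3 f_A00pp_022_s3 t 597 488 71 = true := ex3_b k4310_A00pp_022_s3 t6105_A00pp_022_s3

theorem t6107_A00pp_022_s3 : ∃ t, chk3 f_A00pp_022_s3 t 597 488 35 = true := ex3_c k4309_A00pp_022_s3 t6106_A00pp_022_s3

theorem t6108_A00pp_022_s3 : ∃ t, chk3 f_A00pp_022_s3 t 298 488 35 = true := ex3_a k4308_A00pp_022_s3 t6107_A00pp_022_s3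

theorem t6109_A00pp_022_s3 : ∃ t, chk3 f_A00pp_022_s3 t 149 488 35 = true := ex3_a t6108_A00pp_022_s3 t6103_A00pp_022_s3

theorem t6110_A00pp_022_s3 : ∃ t, chk3 f_A00pp_022_s3 t 1199 1954 69 = true := ex3_c k4305_A00pp_022_s3 k4306_A00pp_022_s3

theorem t6111_A00pp_022_s3 : ∃ t, chk3 f_A00pp_022_s3 t 1199 977 69 = true := ex3_b t6110_A00pp_022_s3 k4307_A00pp_022_s3

theorem t6112_A00pp_022_s3 : ∃ t, chk3 f_A00pp_022_s3 t 1198 977 139 = true := ex3_b k4303_A00pp_022_s3 k4304_A00pp_022_s3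

theorem t6113_A00pp_022_s3 : ∃ t, chk3 f_A00pp_022_s3 t 1198 977 69 = true := ex3_c k4302_A00pp_022_s3 t6112_A00pp_022_s3

theorem t6114_A00pp_022_s3 : ∃ t, chk3 f_A00pp_022_s3 t 599 977 69 = true := ex3_a t6113_A00pp_022_s3 t6111_A00pp_022_s3

theorem t6115_A00pp_022_s3 : ∃ t, chk3 f_A00pp_022_s3 t 599 976 69 = true := ex3_a k4300_A00pp_022_s3 k4301_A00pp_022_s3

theorem t6116_A00pp_022_s3 : ∃ t, chk3 f_A00pp_022_s3 t 599 488 69 = true := ex3_b t6115_A00pp_022_s3 t6114_A00pp_022_s3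

theorem t6117_A00pp_022_s3 : ∃ t, chk3 f_A00pp_022_s3 t 598 977 69 = true := ex3_b k4298_A00pp_022_s3 k4299_A00pp_022_s3

theorem t6118_A00pp_022_s3 : ∃ t, chk3 f_A00pp_022_s3 t 598 488 69 = true := ex3_b k4297_A00pp_022_s3 t6117_A00pp_022_s3

theorem t6119_A00pp_022_s3 : ∃ t, chk3 f_A00pp_022_s3 t 299 488 69 = true := ex3_a t6118_A00pp_022_s3 t6116_A00pp_022_s3

theorem t6120_A00pp_022_s3 : ∃ t, chk3 f_A00pp_022_s3 t 299 488 68 = true := ex3_b k4295_A00pp_022_s3 k4296_A00pp_022_s3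

theorem t6121_A00pp_022_s3 : ∃ t, chk3 f_A00pp_022_s3 t 299 488 34 = true := ex3_c t6120_A00pp_022_s3 t6119_A00pp_022_s3

theorem t6122_A00pp_022_s3 : ∃ t, chk3 f_A00pp_022_s3 t 149 488 34 = true := ex3_a k4294_A00pp_022_s3 t6121_A00pp_022_s3

theorem t6123_A00pp_022_s3 : ∃ t, chk3 f_A00pp_022_s3 t 149 488 17 = true := ex3_c t6122_A00pp_022_s3 t6109_A00pp_022_s3

theorem t6124_A00pp_022_s3 : ∃ t, chk3 f_A00pp_022_s3 t 149 244 17 = true := ex3_b t6123_A00pp_022_s3 t6088_A00pp_022_s3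

theorem t6125_A00pp_022_s3 : ∃ t, chk3 f_A00pp_022_s3 t 595 979 71 = true := ex3_a k4292_A00pp_022_s3 k4293_A00pp_022_s3

theorem t6126_A00pp_022_s3 : ∃ t, chk3 f_A00pp_022_s3 t 297 979 71 = true := ex3_a k4291_A00pp_022_s3 t6125_A00pp_022_s3

theorem t6127_A00pp_022_s3 : ∃ t, chk3 f_A00pp_022_s3 t 297 979 35 = true := ex3_c k4290_A00pp_022_s3 t6126_A00pp_022_s3

theorem t6128_A00pp_022_s3 : ∃ t, chk3 f_A00pp_022_s3 t 297 489 35 = true := ex3_b k4289_A00pp_022_s3 t6127_A00pp_022_s3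

theorem t6129_A00pp_022_s3 : ∃ t, chk3 f_A00pp_022_s3 t 297 244 35 = true := ex3_b k4288_A00pp_022_s3 t6128_A00pp_022_s3

theorem t6130_A00pp_022_s3 : ∃ t, chk3 f_A00pp_022_s3 t 297 244 34 = true := ex3_b k4286_A00pp_022_s3 k4287_A00pp_022_s3

theorem t6131_A00pp_022_s3 : ∃ t, chk3 f_A00pp_022_s3 t 297 244 17 = true := ex3_c t6130_A00pp_022_s3 t6129_A00pp_022_s3

theorem t6132_A00pp_022_s3 : ∃ t, chk3 f_A00pp_022_s3 t 296 244 35 = true := ex3_b k4284_A00pp_022_s3 k4285_A00pp_022_s3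

theorem t6133_A00pp_022_s3 : ∃ t, chk3 f_A00pp_022_s3 t 296 489 69 = true := ex3_a k4282_A00pp_022_s3 k4283_A00pp_022_s3

theorem t6134_A00pp_022_s3 : ∃ t, chk3 f_A00pp_022_s3 t 593 489 68 = true := ex3_b k4280_A00pp_022_s3 k4281_A00pp_022_s3

theorem t6135_A00pp_022_s3 : ∃ t, chk3 f_A00pp_022_s3 t 1184 979 68 = true := ex3_c k4277_A00pp_022_s3 k4278_A00pp_022_s3

theorem t6136_A00pp_022_s3 : ∃ t, chk3 f_A00pp_022_s3 t 592 979 68 = true := ex3_a t6135_A00pp_022_s3 k4279_A00pp_022_s3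

theorem t6137_A00pp_022_s3 : ∃ t, chk3 f_A00pp_022_s3 t 592 489 68 = true := ex3_b k4276_A00pp_022_s3 t6136_A00pp_022_s3

theorem t6138_A00pp_022_s3 : ∃ t, chk3 f_A00pp_022_s3 t 296 489 68 = true := ex3_a t6137_A00pp_022_s3 t6134_A00pp_022_s3

theorem t6139_A00pp_022_s3 : ∃ t, chk3 f_A00pp_022_s3 t 296 489 34 = true := ex3_c t6138_A00pp_022_s3 t6133_A00pp_022_s3

theorem t6140_A00pp_022_s3 : ∃ t, chk3 f_A00pp_022_s3 t 296 488 69 = true := ex3_a k4274_A00pp_022_s3 k4275_A00pp_022_s3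

theorem t6141_A00pp_022_s3 : ∃ t, chk3 f_A00pp_022_s3 t 593 488 68 = true := ex3_a k4272_A00pp_022_s3 k4273_A00pp_022_s3

theorem t6142_A00pp_022_s3 : ∃ t, chk3 f_A00pp_022_s3 t 296 488 68 = true := ex3_a k4271_A00pp_022_s3 t6141_A00pp_022_s3

theorem t6143_A00pp_022_s3 : ∃ t, chk3 f_A00pp_022_s3 t 296 488 34 = true := ex3_c t6142_A00pp_022_s3 t6140_A00pp_022_s3

theorem t6144_A00pp_022_s3 : ∃ t, chk3 f_A00pp_022_s3 t 296 244 34 = true := ex3_b t6143_A00pp_022_s3 t6139_A00pp_022_s3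

theorem t6145_A00pp_022_s3 : ∃ t, chk3 f_A00pp_022_s3 t 296 244 17 = true := ex3_c t6144_A00pp_022_s3 t6132_A00pp_022_s3

theorem t6146_A00pp_022_s3 : ∃ t, chk3 f_A00pp_022_s3 t 148 244 17 = true := ex3_a t6145_A00pp_022_s3 t6131_A00pp_022_s3

theorem t6147_A00pp_022_s3 : ∃ t, chk3 f_A00pp_022_s3 t 74 244 17 = true := ex3_a t6146_A00pp_022_s3 t6124_A00pp_022_s3

theorem t6148_A00pp_022_s3 : ∃ t, chk3 f_A00pp_022_s3 t 74 122 17 = true := ex3_b t6147_A00pp_022_s3 t6052_A00pp_022_s3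

theorem t6149_A00pp_022_s3 : ∃ t, chk3 f_A00pp_022_s3 t 74 61 17 = true := ex3_b t6148_A00pp_022_s3 k4379_A00pp_022_s3

theorem t6150_A00pp_022_s3 : ∃ t, chk3 f_A00pp_022_s3 t 599 975 70 = true := ex3_a k4268_A00pp_022_s3 k4269_A00pp_022_s3

theorem t6151_A00pp_022_s3 : ∃ t, chk3 f_A00pp_022_s3 t 599 975 35 = true := ex3_c t6150_A00pp_022_s3 k4270_A00pp_022_s3

theorem t6152_A00pp_022_s3 : ∃ t, chk3 f_A00pp_022_s3 t 599 974 35 = true := ex3_c k4266_A00pp_022_s3 k4267_A00pp_022_s3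

theorem t6153_A00pp_022_s3 : ∃ t, chk3 f_A00pp_022_s3 t 599 487 35 = true := ex3_b t6152_A00pp_022_s3 t6151_A00pp_022_s3

theorem t6154_A00pp_022_s3 : ∃ t, chk3 f_A00pp_022_s3 t 598 487 35 = true := ex3_c k4264_A00pp_022_s3 k4265_A00pp_022_s3

theorem t6155_A00pp_022_s3 : ∃ t, chk3 f_A00pp_022_s3 t 299 487 35 = true := ex3_a t6154_A00pp_022_s3 t6153_A00pp_022_s3

theorem t6156_A00pp_022_s3 : ∃ t, chk3 f_A00pp_022_s3 t 299 243 35 = true := ex3_b k4263_A00pp_022_s3 t6155_A00pp_022_s3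

theorem t6157_A00pp_022_s3 : ∃ t, chk3 f_A00pp_022_s3 t 298 243 35 = true := ex3_b k4261_A00pp_022_s3 k4262_A00pp_022_s3

theorem t6158_A00pp_022_s3 : ∃ t, chk3 f_A00pp_022_s3 t 149 243 35 = true := ex3_a t6157_A00pp_022_s3 t6156_A00pp_022_s3

theorem t6159_A00pp_022_s3 : ∃ t, chk3 f_A00pp_022_s3 t 299 487 34 = true := ex3_b k4259_A00pp_022_s3 k4260_A00pp_022_s3

theorem t6160_A00pp_022_s3 : ∃ t, chk3 f_A00pp_022_s3 t 299 243 34 = true := ex3_b k4258_A00pp_022_s3 t6159_A00pp_022_s3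

theorem t6161_A00pp_022_s3 : ∃ t, chk3 f_A00pp_022_s3 t 149 243 34 = true := ex3_a k4257_A00pp_022_s3 t6160_A00pp_022_s3

theorem t6162_A00pp_022_s3 : ∃ t, chk3 f_A00pp_022_s3 t 149 243 17 = true := ex3_c t6161_A00pp_022_s3 t6158_A00pp_022_s3

theorem t6163_A00pp_022_s3 : ∃ t, chk3 f_A00pp_022_s3 t 298 242 70 = true := ex3_a k4253_A00pp_022_s3 k4254_A00pp_022_s3

theorem t6164_A00pp_022_s3 : ∃ t, chk3 f_A00pp_022_s3 t 298 242 35 = true := ex3_c t6163_A00pp_022_s3 k4255_A00pp_022_s3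

theorem t6165_A00pp_022_s3 : ∃ t, chk3 f_A00pp_022_s3 t 149 242 35 = true := ex3_a t6164_A00pp_022_s3 k4256_A00pp_022_s3

theorem t6166_A00pp_022_s3 : ∃ t, chk3 f_A00pp_022_s3 t 299 242 34 = true := ex3_c k4251_A00pp_022_s3 k4252_A00pp_022_s3

theorem t6167_A00pp_022_s3 : ∃ t, chk3 f_A00pp_022_s3 t 298 242 69 = true := ex3_b k4249_A00pp_022_s3 k4250_A00pp_022_s3

theorem t6168_A00pp_022_s3 : ∃ t, chk3 f_A00pp_022_s3 t 298 242 34 = true := ex3_c k4248_A00pp_022_s3 t6167_A00pp_022_s3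

theorem t6169_A00pp_022_s3 : ∃ t, chk3 f_A00pp_022_s3 t 149 242 34 = true := ex3_a t6168_A00pp_022_s3 t6166_A00pp_022_s3

theorem t6170_A00pp_022_s3 : ∃ t, chk3 f_A00pp_022_s3 t 149 242 17 = true := ex3_c t6169_A00pp_022_s3 t6165_A00pp_022_s3

theorem t6171_A00pp_022_s3 : ∃ t, chk3 f_A00pp_022_s3 t 149 121 17 = true := ex3_b t6170_A00pp_022_s3 t6162_A00pp_022_s3

theorem t6172_A00pp_022_s3 : ∃ t, chk3 f_A00pp_022_s3 t 297 243 35 = true := ex3_b k4246_A00pp_022_s3 k4247_A00pp_022_s3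

theorem t6173_A00pp_022_s3 : ∃ t, chk3 f_A00pp_022_s3 t 297 242 71 = true := ex3_a k4244_A00pp_022_s3 k4245_A00pp_022_s3

theorem t6174_A00pp_022_s3 : ∃ t, chk3 f_A00pp_022_s3 t 297 242 35 = true := ex3_c k4243_A00pp_022_s3 t6173_A00pp_022_s3

theorem t6175_A00pp_022_s3 : ∃ t, chk3 f_A00pp_022_s3 t 297 121 35 = true := ex3_b t6174_A00pp_022_s3 t6172_A00pp_022_s3

theorem t6176_A00pp_022_s3 : ∃ t, chk3 f_A00pp_022_s3 t 297 243 69 = true := ex3_a k4241_A00pp_022_s3 k4242_A00pp_022_s3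

theorem t6177_A00pp_022_s3 : ∃ t, chk3 f_A00pp_022_s3 t 297 487 68 = true := ex3_a k4239_A00pp_022_s3 k4240_A00pp_022_s3

theorem t6178_A00pp_022_s3 : ∃ t, chk3 f_A00pp_022_s3 t 297 243 68 = true := ex3_b k4238_A00pp_022_s3 t6177_A00pp_022_s3

theorem t6179_A00pp_022_s3 : ∃ t, chk3 f_A00pp_022_s3 t 297 243 34 = true := ex3_c t6178_A00pp_022_s3 t6176_A00pp_022_s3

theorem t6180_A00pp_022_s3 : ∃ t, chk3 f_A00pp_022_s3 t 297 121 34 = true := ex3_b k4237_A00pp_022_s3 t6179_A00pp_022_s3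

theorem t6181_A00pp_022_s3 : ∃ t, chk3 f_A00pp_022_s3 t 297 121 17 = true := ex3_c t6180_A00pp_022_s3 t6175_A00pp_022_s3

theorem t6182_A00pp_022_s3 : ∃ t, chk3 f_A00pp_022_s3 t 296 243 71 = true := ex3_a k4235_A00pp_022_s3 k4236_A00pp_022_s3

theorem t6183_A00pp_022_s3 : ∃ t, chk3 f_A00pp_022_s3 t 296 243 70 = true := ex3_a k4233_A00pp_022_s3 k4234_A00pp_022_s3

theorem t6184_A00pp_022_s3 : ∃ t, chk3 f_A00pp_022_s3 t 296 243 35 = true := ex3_c t6183_A00pp_022_s3 t6182_A00pp_022_s3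

theorem t6185_A00pp_022_s3 : ∃ t, chk3 f_A00pp_022_s3 t 296 121 35 = true := ex3_b k4232_A00pp_022_s3 t6184_A00pp_022_s3

theorem t6186_A00pp_022_s3 : ∃ t, chk3 f_A00pp_022_s3 t 296 121 34 = true := ex3_b k4230_A00pp_022_s3 k4231_A00pp_022_s3

theorem t6187_A00pp_022_s3 : ∃ t, chk3 f_A00pp_022_s3 t 296 121 17 = true := ex3_c t6186_A00pp_022_s3 t6185_A00pp_022_s3

theorem t6188_A00pp_022_s3 : ∃ t, chk3 f_A00pp_022_s3 t 148 121 17 = true := ex3_a t6187_A00pp_022_s3 t6181_A00pp_022_s3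

theorem t6189_A00pp_022_s3 : ∃ t, chk3 f_A00pp_022_s3 t 74 121 17 = true := ex3_a t6188_A00pp_022_s3 t6171_A00pp_022_s3

theorem t6190_A00pp_022_s3 : ∃ t, chk3 f_A00pp_022_s3 t 298 241 35 = true := ex3_c k4227_A00pp_022_s3 k4228_A00pp_022_s3

theorem t6191_A00pp_022_s3 : ∃ t, chk3 f_A00pp_022_s3 t 149 241 35 = true := ex3_a t6190_A00pp_022_s3 k4229_A00pp_022_s3

theorem t6192_A00pp_022_s3 : ∃ t, chk3 f_A00pp_022_s3 t 299 241 69 = true := ex3_a k4225_A00pp_022_s3 k4226_A00pp_022_s3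

theorem t6193_A00pp_022_s3 : ∃ t, chk3 f_A00pp_022_s3 t 299 241 34 = true := ex3_c k4224_A00pp_022_s3 t6192_A00pp_022_s3

theorem t6194_A00pp_022_s3 : ∃ t, chk3 f_A00pp_022_s3 t 149 241 34 = true := ex3_a k4223_A00pp_022_s3 t6193_A00pp_022_s3

theorem t6195_A00pp_022_s3 : ∃ t, chk3 f_A00pp_022_s3 t 149 241 17 = true := ex3_c t6194_A00pp_022_s3 t6191_A00pp_022_s3

theorem t6196_A00pp_022_s3 : ∃ t, chk3 f_A00pp_022_s3 t 149 120 17 = true := ex3_b k4222_A00pp_022_s3 t6195_A00pp_022_s3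

theorem t6197_A00pp_022_s3 : ∃ t, chk3 f_A00pp_022_s3 t 74 120 17 = true := ex3_a k4221_A00pp_022_s3 t6196_A00pp_022_s3

theorem t6198_A00pp_022_s3 : ∃ t, chk3 f_A00pp_022_s3 t 74 60 17 = true := ex3_b t6197_A00pp_022_s3 t6189_A00pp_022_s3

theorem t6199_A00pp_022_s3 : ∃ t, chk3 f_A00pp_022_s3 t 74 30 17 = true := ex3_b t6198_A00pp_022_s3 t6149_A00pp_022_s3

theorem t6200_A00pp_022_s3 : ∃ t, chk3 f_A00pp_022_s3 t 1184 1963 134 = true := ex3_a k4212_A00pp_022_s3 k4213_A00pp_022_s3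

theorem t6201_A00pp_022_s3 : ∃ t, chk3 f_A00pp_022_s3 t 1184 1962 134 = true := ex3_a k4210_A00pp_022_s3 k4211_A00pp_022_s3

theorem t6202_A00pp_022_s3 : ∃ t, chk3 f_A00pp_022_s3 t 1184 981 134 = true := ex3_b t6201_A00pp_022_s3 t6200_A00pp_022_s3

theorem t6203_A00pp_022_s3 : ∃ t, chk3 f_A00pp_022_s3 t 1184 981 67 = true := ex3_c t6202_A00pp_022_s3 k4214_A00pp_022_s3

theorem t6204_A00pp_022_s3 : ∃ t, chk3 f_A00pp_022_s3 t 592 981 67 = true := ex3_a t6203_A00pp_022_s3 k4215_A00pp_022_s3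

theorem t6205_A00pp_022_s3 : ∃ t, chk3 f_A00pp_022_s3 t 1185 1961 134 = true := ex3_a k4207_A00pp_022_s3 k4208_A00pp_022_s3

theorem t6206_A00pp_022_s3 : ∃ t, chk3 f_A00pp_022_s3 t 1185 980 134 = true := ex3_b k4206_A00pp_022_s3 t6205_A00pp_022_s3

theorem t6207_A00pp_022_s3 : ∃ t, chk3 f_A00pp_022_s3 t 1185 980 67 = true := ex3_c t6206_A00pp_022_s3 k4209_A00pp_022_s3

theorem t6208_A00pp_022_s3 : ∃ t, chk3 f_A00pp_022_s3 t 1184 980 135 = true := ex3_b k4204_A00pp_022_s3 k4205_A00pp_022_s3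

theorem t6209_A00pp_022_s3 : ∃ t, chk3 f_A00pp_022_s3 t 1184 980 67 = true := ex3_c k4203_A00pp_022_s3 t6208_A00pp_022_s3

theorem t6210_A00pp_022_s3 : ∃ t, chk3 f_A00pp_022_s3 t 592 980 67 = true := ex3_a t6209_A00pp_022_s3 t6207_A00pp_022_s3

theorem t6211_A00pp_022_s3 : ∃ t, chk3 f_A00pp_022_s3 t 592 490 67 = true := ex3_b t6210_A00pp_022_s3 t6204_A00pp_022_s3

theorem t6212_A00pp_022_s3 : ∃ t, chk3 f_A00pp_022_s3 t 296 490 67 = true := ex3_a t6211_A00pp_022_s3 k4216_A00pp_022_s3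

theorem t6213_A00pp_022_s3 : ∃ t, chk3 f_A00pp_022_s3 t 296 245 67 = true := ex3_b t6212_A00pp_022_s3 k4217_A00pp_022_s3

theorem t6214_A00pp_022_s3 : ∃ t, chk3 f_A00pp_022_s3 t 1186 981 66 = true := ex3_c k4199_A00pp_022_s3 k4200_A00pp_022_s3

theorem t6215_A00pp_022_s3 : ∃ t, chk3 f_A00pp_022_s3 t 593 981 66 = true := ex3_a t6214_A00pp_022_s3 k4201_A00pp_022_s3

theorem t6216_A00pp_022_s3 : ∃ t, chk3 f_A00pp_022_s3 t 1187 1961 132 = true := ex3_a k4196_A00pp_022_s3 k4197_A00pp_022_s3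

theorem t6217_A00pp_022_s3 : ∃ t, chk3 f_A00pp_022_s3 t 1187 1960 132 = true := ex3_a k4194_A00pp_022_s3 k4195_A00pp_022_s3

theorem t6218_A00pp_022_s3 : ∃ t, chk3 f_A00pp_022_s3 t 1187 980 132 = true := ex3_b t6217_A00pp_022_s3 t6216_A00pp_022_s3

theorem t6219_A00pp_022_s3 : ∃ t, chk3 f_A00pp_022_s3 t 1187 980 66 = true := ex3_c t6218_A00pp_022_s3 k4198_A00pp_022_s3

theorem t6220_A00pp_022_s3 : ∃ t, chk3 f_A00pp_022_s3 t 1186 1961 133 = true := ex3_a k4192_A00pp_022_s3 k4193_A00pp_022_s3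

theorem t6221_A00pp_022_s3 : ∃ t, chk3 f_A00pp_022_s3 t 1186 980 133 = true := ex3_b k4191_A00pp_022_s3 t6220_A00pp_022_s3

theorem t6222_A00pp_022_s3 : ∃ t, chk3 f_A00pp_022_s3 t 1186 980 66 = true := ex3_c k4190_A00pp_022_s3 t6221_A00pp_022_s3

theorem t6223_A00pp_022_s3 : ∃ t, chk3 f_A00pp_022_s3 t 593 980 66 = true := ex3_a t6222_A00pp_022_s3 t6219_A00pp_022_s3

theorem t6224_A00pp_022_s3 : ∃ t, chk3 f_A00pp_022_s3 t 593 490 66 = true := ex3_b t6223_A00pp_022_s3 t6215_A00pp_022_s3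

theorem t6225_A00pp_022_s3 : ∃ t, chk3 f_A00pp_022_s3 t 1185 1962 133 = true := ex3_a k4187_A00pp_022_s3 k4188_A00pp_022_s3

theorem t6226_A00pp_022_s3 : ∃ t, chk3 f_A00pp_022_s3 t 1185 1962 66 = true := ex3_c k4186_A00pp_022_s3 t6225_A00pp_022_s3

theorem t6227_A00pp_022_s3 : ∃ t, chk3 f_A00pp_022_s3 t 1185 981 66 = true := ex3_b t6226_A00pp_022_s3 k4189_A00pp_022_s3

theorem t6228_A00pp_022_s3 : ∃ t, chk3 f_A00pp_022_s3 t 1184 1963 66 = true := ex3_c k4184_A00pp_022_s3 k4185_A00pp_022_s3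

theorem t6229_A00pp_022_s3 : ∃ t, chk3 f_A00pp_022_s3 t 1184 1962 265 = true := ex3_a k4181_A00pp_022_s3 k4182_A00pp_022_s3

theorem t6230_A00pp_022_s3 : ∃ t, chk3 f_A00pp_022_s3 t 1184 1962 132 = true := ex3_c k4180_A00pp_022_s3 t6229_A00pp_022_s3

theorem t6231_A00pp_022_s3 : ∃ t, chk3 f_A00pp_022_s3 t 1184 1962 66 = true := ex3_c t6230_A00pp_022_s3 k4183_A00pp_022_s3

theorem t6232_A00pp_022_s3 : ∃ t, chk3 f_A00pp_022_s3 t 1184 981 66 = true := ex3_b t6231_A00pp_022_s3 t6228_A00pp_022_s3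

theorem t6233_A00pp_022_s3 : ∃ t, chk3 f_A00pp_022_s3 t 592 981 66 = true := ex3_a t6232_A00pp_022_s3 t6227_A00pp_022_s3

theorem t6234_A00pp_022_s3 : ∃ t, chk3 f_A00pp_022_s3 t 2370 980 264 = true := ex3_b k4175_A00pp_022_s3 k4176_A00pp_022_s3

theorem t6235_A00pp_022_s3 : ∃ t, chk3 f_A00pp_022_s3 t 2370 980 132 = true := ex3_c t6234_A00pp_022_s3 k4177_A00pp_022_s3

theorem t6236_A00pp_022_s3 : ∃ t, chk3 f_A00pp_022_s3 t 1185 980 132 = true := ex3_a t6235_A00pp_022_s3 k4178_A00pp_022_s3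

theorem t6237_A00pp_022_s3 : ∃ t, chk3 f_A00pp_022_s3 t 1185 980 66 = true := ex3_c t6236_A00pp_022_s3 k4179_A00pp_022_s3

theorem t6238_A00pp_022_s3 : ∃ t, chk3 f_A00pp_022_s3 t 2369 980 265 = true := ex3_b k4172_A00pp_022_s3 k4173_A00pp_022_s3

theorem t6239_A00pp_022_s3 : ∃ t, chk3 f_A00pp_022_s3 t 1184 980 265 = true := ex3_a k4171_A00pp_022_s3 t6238_A00pp_022_s3

theorem t6240_A00pp_022_s3 : ∃ t, chk3 f_A00pp_022_s3 t 1184 980 132 = true := ex3_c k4170_A00pp_022_s3 t6239_A00pp_022_s3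

theorem t6241_A00pp_022_s3 : ∃ t, chk3 f_A00pp_022_s3 t 1184 980 66 = true := ex3_c t6240_A00pp_022_s3 k4174_A00pp_022_s3

theorem t6242_A00pp_022_s3 : ∃ t, chk3 f_A00pp_022_s3 t 592 980 66 = true := ex3_a t6241_A00pp_022_s3 t6237_A00pp_022_s3

theorem t6243_A00pp_022_s3 : ∃ t, chk3 f_A00pp_022_s3 t 592 490 66 = true := ex3_b t6242_A00pp_022_s3 t6233_A00pp_022_s3

theorem t6244_A00pp_022_s3 : ∃ t, chk3 f_A00pp_022_s3 t 296 490 66 = true := ex3_a t6243_A00pp_022_s3 t6224_A00pp_022_s3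

theorem t6245_A00pp_022_s3 : ∃ t, chk3 f_A00pp_022_s3 t 296 245 66 = true := ex3_b t6244_A00pp_022_s3 k4202_A00pp_022_s3

theorem t6246_A00pp_022_s3 : ∃ t, chk3 f_A00pp_022_s3 t 296 245 33 = true := ex3_c t6245_A00pp_022_s3 t6213_A00pp_022_s3

theorem t6247_A00pp_022_s3 : ∃ t, chk3 f_A00pp_022_s3 t 148 245 33 = true := ex3_a t6246_A00pp_022_s3 k4218_A00pp_022_s3

theorem t6248_A00pp_022_s3 : ∃ t, chk3 f_A00pp_022_s3 t 74 245 33 = true := ex3_a t6247_A00pp_022_s3 k4219_A00pp_022_s3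

theorem t6249_A00pp_022_s3 : ∃ t, chk3 f_A00pp_022_s3 t 149 488 33 = true := ex3_b k4167_A00pp_022_s3 k4168_A00pp_022_s3

theorem t6250_A00pp_022_s3 : ∃ t, chk3 f_A00pp_022_s3 t 149 244 33 = true := ex3_b t6249_A00pp_022_s3 k4169_A00pp_022_s3

theorem t6251_A00pp_022_s3 : ∃ t, chk3 f_A00pp_022_s3 t 1188 979 132 = true := ex3_b k4161_A00pp_022_s3 k4162_A00pp_022_s3

theorem t6252_A00pp_022_s3 : ∃ t, chk3 f_A00pp_022_s3 t 1188 979 66 = true := ex3_c t6251_A00pp_022_s3 k4163_A00pp_022_s3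

theorem t6253_A00pp_022_s3 : ∃ t, chk3 f_A00pp_022_s3 t 594 979 66 = true := ex3_a t6252_A00pp_022_s3 k4164_A00pp_022_s3

theorem t6254_A00pp_022_s3 : ∃ t, chk3 f_A00pp_022_s3 t 1189 978 66 = true := ex3_c k4159_A00pp_022_s3 k4160_A00pp_022_s3

theorem t6255_A00pp_022_s3 : ∃ t, chk3 f_A00pp_022_s3 t 594 978 66 = true := ex3_a k4158_A00pp_022_s3 t6254_A00pp_022_s3

theorem t6256_A00pp_022_s3 : ∃ t, chk3 f_A00pp_022_s3 t 594 489 66 = true := ex3_b t6255_A00pp_022_s3 t6253_A00pp_022_s3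

theorem t6257_A00pp_022_s3 : ∃ t, chk3 f_A00pp_022_s3 t 594 489 33 = true := ex3_c t6256_A00pp_022_s3 k4165_A00pp_022_s3

theorem t6258_A00pp_022_s3 : ∃ t, chk3 f_A00pp_022_s3 t 297 489 33 = true := ex3_a t6257_A00pp_022_s3 k4166_A00pp_022_s3

theorem t6259_A00pp_022_s3 : ∃ t, chk3 f_A00pp_022_s3 t 594 488 67 = true := ex3_c k4155_A00pp_022_s3 k4156_A00pp_022_s3

theorem t6260_A00pp_022_s3 : ∃ t, chk3 f_A00pp_022_s3 t 297 488 67 = true := ex3_a t6259_A00pp_022_s3 k4157_A00pp_022_s3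

theorem t6261_A00pp_022_s3 : ∃ t, chk3 f_A00pp_022_s3 t 595 488 132 = true := ex3_b k4152_A00pp_022_s3 k4153_A00pp_022_s3

theorem t6262_A00pp_022_s3 : ∃ t, chk3 f_A00pp_022_s3 t 595 488 66 = true := ex3_c t6261_A00pp_022_s3 k4154_A00pp_022_s3

theorem t6263_A00pp_022_s3 : ∃ t, chk3 f_A00pp_022_s3 t 297 488 66 = true := ex3_a k4151_A00pp_022_s3 t6262_A00pp_022_s3

theorem t6264_A00pp_022_s3 : ∃ t, chk3 f_A00pp_022_s3 t 297 488 33 = true := ex3_c t6263_A00pp_022_s3 t6260_A00pp_022_s3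

theorem t6265_A00pp_022_s3 : ∃ t, chk3 f_A00pp_022_s3 t 297 244 33 = true := ex3_b t6264_A00pp_022_s3 t6258_A00pp_022_s3

theorem t6266_A00pp_022_s3 : ∃ t, chk3 f_A00pp_022_s3 t 1186 979 67 = true := ex3_c k4148_A00pp_022_s3 k4149_A00pp_022_s3

theorem t6267_A00pp_022_s3 : ∃ t, chk3 f_A00pp_022_s3 t 593 979 67 = true := ex3_a t6266_A00pp_022_s3 k4150_A00pp_022_s3

theorem t6268_A00pp_022_s3 : ∃ t, chk3 f_A00pp_022_s3 t 1187 978 67 = true := ex3_c k4146_A00pp_022_s3 k4147_A00pp_022_s3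

theorem t6269_A00pp_022_s3 : ∃ t, chk3 f_A00pp_022_s3 t 593 978 67 = true := ex3_a k4145_A00pp_022_s3 t6268_A00pp_022_s3

theorem t6270_A00pp_022_s3 : ∃ t, chk3 f_A00pp_022_s3 t 593 489 67 = true := ex3_b t6269_A00pp_022_s3 t6267_A00pp_022_s3

theorem t6271_A00pp_022_s3 : ∃ t, chk3 f_A00pp_022_s3 t 1187 979 133 = true := ex3_b k4143_A00pp_022_s3 k4144_A00pp_022_s3

theorem t6272_A00pp_022_s3 : ∃ t, chk3 f_A00pp_022_s3 t 1187 979 66 = true := ex3_c k4142_A00pp_022_s3 t6271_A00pp_022_s3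

theorem t6273_A00pp_022_s3 : ∃ t, chk3 f_A00pp_022_s3 t 593 979 66 = true := ex3_a k4141_A00pp_022_s3 t6272_A00pp_022_s3

theorem t6274_A00pp_022_s3 : ∃ t, chk3 f_A00pp_022_s3 t 593 489 66 = true := ex3_b k4140_A00pp_022_s3 t6273_A00pp_022_s3

theorem t6275_A00pp_022_s3 : ∃ t, chk3 f_A00pp_022_s3 t 593 489 33 = true := ex3_c t6274_A00pp_022_s3 t6270_A00pp_022_s3

theorem t6276_A00pp_022_s3 : ∃ t, chk3 f_A00pp_022_s3 t 592 489 67 = true := ex3_b k4138_A00pp_022_s3 k4139_A00pp_022_s3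

theorem t6277_A00pp_022_s3 : ∃ t, chk3 f_A00pp_022_s3 t 1184 978 133 = true := ex3_c k4134_A00pp_022_s3 k4135_A00pp_022_s3

theorem t6278_A00pp_022_s3 : ∃ t, chk3 f_A00pp_022_s3 t 1184 489 133 = true := ex3_b t6277_A00pp_022_s3 k4136_A00pp_022_s3

theorem t6279_A00pp_022_s3 : ∃ t, chk3 f_A00pp_022_s3 t 592 489 133 = true := ex3_a t6278_A00pp_022_s3 k4137_A00pp_022_s3

theorem t6280_A00pp_022_s3 : ∃ t, chk3 f_A00pp_022_s3 t 2370 979 264 = true := ex3_c k4130_A00pp_022_s3 k4131_A00pp_022_s3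

theorem t6281_A00pp_022_s3 : ∃ t, chk3 f_A00pp_022_s3 t 2370 979 132 = true := ex3_c t6280_A00pp_022_s3 k4132_A00pp_022_s3

theorem t6282_A00pp_022_s3 : ∃ t, chk3 f_A00pp_022_s3 t 1185 979 132 = true := ex3_a t6281_A00pp_022_s3 k4133_A00pp_022_s3

theorem t6283_A00pp_022_s3 : ∃ t, chk3 f_A00pp_022_s3 t 2370 1957 264 = true := ex3_b k4126_A00pp_022_s3 k4127_A00pp_022_s3

theorem t6284_A00pp_022_s3 : ∃ t, chk3 f_A00pp_022_s3 t 2370 1956 264 = true := ex3_b k4124_A00pp_022_s3 k4125_A00pp_022_s3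

theorem t6285_A00pp_022_s3 : ∃ t, chk3 f_A00pp_022_s3 t 2370 978 264 = true := ex3_b t6284_A00pp_022_s3 t6283_A00pp_022_s3

theorem t6286_A00pp_022_s3 : ∃ t, chk3 f_A00pp_022_s3 t 1185 978 264 = true := ex3_a t6285_A00pp_022_s3 k4128_A00pp_022_s3

theorem t6287_A00pp_022_s3 : ∃ t, chk3 f_A00pp_022_s3 t 1185 978 132 = true := ex3_c t6286_A00pp_022_s3 k4129_A00pp_022_s3

theorem t6288_A00pp_022_s3 : ∃ t, chk3 f_A00pp_022_s3 t 1185 489 132 = true := ex3_b t6287_A00pp_022_s3 t6282_A00pp_022_s3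

theorem t6289_A00pp_022_s3 : ∃ t, chk3 f_A00pp_022_s3 t 2369 979 530 = true := ex3_b k4121_A00pp_022_s3 k4122_A00pp_022_s3

theorem t6290_A00pp_022_s3 : ∃ t, chk3 f_A00pp_022_s3 t 2369 979 265 = true := ex3_c t6289_A00pp_022_s3 k4123_A00pp_022_s3

theorem t6291_A00pp_022_s3 : ∃ t, chk3 f_A00pp_022_s3 t 1184 979 265 = true := ex3_a k4120_A00pp_022_s3 t6290_A00pp_022_s3

theorem t6292_A00pp_022_s3 : ∃ t, chk3 f_A00pp_022_s3 t 1184 979 132 = true := ex3_c k4119_A00pp_022_s3 t6291_A00pp_022_s3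

theorem t6293_A00pp_022_s3 : ∃ t, chk3 f_A00pp_022_s3 t 1184 978 265 = true := ex3_b k4117_A00pp_022_s3 k4118_A00pp_022_s3

theorem t6294_A00pp_022_s3 : ∃ t, chk3 f_A00pp_022_s3 t 1184 978 132 = true := ex3_c k4116_A00pp_022_s3 t6293_A00pp_022_s3

theorem t6295_A00pp_022_s3 : ∃ t, chk3 f_A00pp_022_s3 t 1184 489 132 = true := ex3_b t6294_A00pp_022_s3 t6292_A00pp_022_s3

theorem t6296_A00pp_022_s3 : ∃ t, chk3 f_A00pp_022_s3 t 592 489 132 = true := ex3_a t6295_A00pp_022_s3 t6288_A00pp_022_s3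

theorem t6297_A00pp_022_s3 : ∃ t, chk3 f_A00pp_022_s3 t 592 489 66 = true := ex3_c t6296_A00pp_022_s3 t6279_A00pp_022_s3

theorem t6298_A00pp_022_s3 : ∃ t, chk3 f_A00pp_022_s3 t 592 489 33 = true := ex3_c t6297_A00pp_022_s3 t6276_A00pp_022_s3

theorem t6299_A00pp_022_s3 : ∃ t, chk3 f_A00pp_022_s3 t 296 489 33 = true := ex3_a t6298_A00pp_022_s3 t6275_A00pp_022_s3

theorem t6300_A00pp_022_s3 : ∃ t, chk3 f_A00pp_022_s3 t 593 488 66 = true := ex3_b k4113_A00pp_022_s3 k4114_A00pp_022_s3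

theorem t6301_A00pp_022_s3 : ∃ t, chk3 f_A00pp_022_s3 t 1184 1954 266 = true := ex3_b k4108_A00pp_022_s3 k4109_A00pp_022_s3

theorem t6302_A00pp_022_s3 : ∃ t, chk3 f_A00pp_022_s3 t 1184 1954 133 = true := ex3_c t6301_A00pp_022_s3 k4110_A00pp_022_s3

theorem t6303_A00pp_022_s3 : ∃ t, chk3 f_A00pp_022_s3 t 1184 977 133 = true := ex3_b t6302_A00pp_022_s3 k4111_A00pp_022_s3

theorem t6304_A00pp_022_s3 : ∃ t, chk3 f_A00pp_022_s3 t 592 977 133 = true := ex3_a t6303_A00pp_022_s3 k4112_A00pp_022_s3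

theorem t6305_A00pp_022_s3 : ∃ t, chk3 f_A00pp_022_s3 t 592 488 133 = true := ex3_b k4107_A00pp_022_s3 t6304_A00pp_022_s3

theorem t6306_A00pp_022_s3 : ∃ t, chk3 f_A00pp_022_s3 t 2370 1955 264 = true := ex3_b k4103_A00pp_022_s3 k4104_A00pp_022_s3

theorem t6307_A00pp_022_s3 : ∃ t, chk3 f_A00pp_022_s3 t 2370 1954 264 = true := ex3_b k4101_A00pp_022_s3 k4102_A00pp_022_s3

theorem t6308_A00pp_022_s3 : ∃ t, chk3 f_A00pp_022_s3 t 2370 977 264 = true := ex3_b t6307_A00pp_022_s3 t6306_A00pp_022_s3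

theorem t6309_A00pp_022_s3 : ∃ t, chk3 f_A00pp_022_s3 t 1185 977 264 = true := ex3_a t6308_A00pp_022_s3 k4105_A00pp_022_s3

theorem t6310_A00pp_022_s3 : ∃ t, chk3 f_A00pp_022_s3 t 1185 977 132 = true := ex3_c t6309_A00pp_022_s3 k4106_A00pp_022_s3

theorem t6311_A00pp_022_s3 : ∃ t, chk3 f_A00pp_022_s3 t 2369 3908 530 = true := ex3_a k4096_A00pp_022_s3 k4097_A00pp_022_s3

theorem t6312_A00pp_022_s3 : ∃ t, chk3 f_A00pp_022_s3 t 2369 3908 265 = true := ex3_c t6311_A00pp_022_s3 k4098_A00pp_022_s3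

theorem t6313_A00pp_022_s3 : ∃ t, chk3 f_A00pp_022_s3 t 2369 1954 265 = true := ex3_b t6312_A00pp_022_s3 k4099_A00pp_022_s3

theorem t6314_A00pp_022_s3 : ∃ t, chk3 f_A00pp_022_s3 t 2368 3908 531 = true := ex3_a k4093_A00pp_022_s3 k4094_A00pp_022_s3

theorem t6315_A00pp_022_s3 : ∃ t, chk3 f_A00pp_022_s3 t 2368 1954 531 = true := ex3_b t6314_A00pp_022_s3 k4095_A00pp_022_s3

theorem t6316_A00pp_022_s3 : ∃ t, chk3 f_A00pp_022_s3 t 2368 1954 265 = true := ex3_c k4092_A00pp_022_s3 t6315_A00pp_022_s3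

theorem t6317_A00pp_022_s3 : ∃ t, chk3 f_A00pp_022_s3 t 1184 1954 265 = true := ex3_a t6316_A00pp_022_s3 t6313_A00pp_022_s3

theorem t6318_A00pp_022_s3 : ∃ t, chk3 f_A00pp_022_s3 t 1184 977 265 = true := ex3_b t6317_A00pp_022_s3 k4100_A00pp_022_s3

theorem t6319_A00pp_022_s3 : ∃ t, chk3 f_A00pp_022_s3 t 1184 977 132 = true := ex3_c k4091_A00pp_022_s3 t6318_A00pp_022_s3

theorem t6320_A00pp_022_s3 : ∃ t, chk3 f_A00pp_022_s3 t 592 977 132 = true := ex3_a t6319_A00pp_022_s3 t6310_A00pp_022_s3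

theorem t6321_A00pp_022_s3 : ∃ t, chk3 f_A00pp_022_s3 t 2370 3907 528 = true := ex3_a k4086_A00pp_022_s3 k4087_A00pp_022_s3

theorem t6322_A00pp_022_s3 : ∃ t, chk3 f_A00pp_022_s3 t 2370 3907 264 = true := ex3_c t6321_A00pp_022_s3 k4088_A00pp_022_s3

theorem t6323_A00pp_022_s3 : ∃ t, chk3 f_A00pp_022_s3 t 2370 1953 264 = true := ex3_b k4085_A00pp_022_s3 t6322_A00pp_022_s3

theorem t6324_A00pp_022_s3 : ∃ t, chk3 f_A00pp_022_s3 t 1185 1953 264 = true := ex3_a t6323_A00pp_022_s3 k4089_A00pp_022_s3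

theorem t6325_A00pp_022_s3 : ∃ t, chk3 f_A00pp_022_s3 t 1185 976 264 = true := ex3_b k4084_A00pp_022_s3 t6324_A00pp_022_s3

theorem t6326_A00pp_022_s3 : ∃ t, chk3 f_A00pp_022_s3 t 1185 976 132 = true := ex3_c t6325_A00pp_022_s3 k4090_A00pp_022_s3

theorem t6327_A00pp_022_s3 : ∃ t, chk3 f_A00pp_022_s3 t 1184 976 265 = true := ex3_b k4082_A00pp_022_s3 k4083_A00pp_022_s3

theorem t6328_A00pp_022_s3 : ∃ t, chk3 f_A00pp_022_s3 t 1184 976 132 = true := ex3_c k4081_A00pp_022_s3 t6327_A00pp_022_s3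

theorem t6329_A00pp_022_s3 : ∃ t, chk3 f_A00pp_022_s3 t 592 976 132 = true := ex3_a t6328_A00pp_022_s3 t6326_A00pp_022_s3

theorem t6330_A00pp_022_s3 : ∃ t, chk3 f_A00pp_022_s3 t 592 488 132 = true := ex3_b t6329_A00pp_022_s3 t6320_A00pp_022_s3

theorem t6331_A00pp_022_s3 : ∃ t, chk3 f_A00pp_022_s3 t 592 488 66 = true := ex3_c t6330_A00pp_022_s3 t6305_A00pp_022_s3

theorem t6332_A00pp_022_s3 : ∃ t, chk3 f_A00pp_022_s3 t 296 488 66 = true := ex3_a t6331_A00pp_022_s3 t6300_A00pp_022_s3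

theorem t6333_A00pp_022_s3 : ∃ t, chk3 f_A00pp_022_s3 t 296 488 33 = true := ex3_c t6332_A00pp_022_s3 k4115_A00pp_022_s3

theorem t6334_A00pp_022_s3 : ∃ t, chk3 f_A00pp_022_s3 t 296 244 33 = true := ex3_b t6333_A00pp_022_s3 t6299_A00pp_022_s3

theorem t6335_A00pp_022_s3 : ∃ t, chk3 f_A00pp_022_s3 t 148 244 33 = true := ex3_a t6334_A00pp_022_s3 t6265_A00pp_022_s3

theorem t6336_A00pp_022_s3 : ∃ t, chk3 f_A00pp_022_s3 t 74 244 33 = true := ex3_a t6335_A00pp_022_s3 t6250_A00pp_022_s3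

theorem t6337_A00pp_022_s3 : ∃ t, chk3 f_A00pp_022_s3 t 74 122 33 = true := ex3_b t6336_A00pp_022_s3 t6248_A00pp_022_s3

theorem t6338_A00pp_022_s3 : ∃ t, chk3 f_A00pp_022_s3 t 1189 1960 130 = true := ex3_a k4073_A00pp_022_s3 k4074_A00pp_022_s3

theorem t6339_A00pp_022_s3 : ∃ t, chk3 f_A00pp_022_s3 t 1189 980 130 = true := ex3_b t6338_A00pp_022_s3 k4075_A00pp_022_s3

theorem t6340_A00pp_022_s3 : ∃ t, chk3 f_A00pp_022_s3 t 1189 980 65 = true := ex3_c t6339_A00pp_022_s3 k4076_A00pp_022_s3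

theorem t6341_A00pp_022_s3 : ∃ t, chk3 f_A00pp_022_s3 t 1188 1960 131 = true := ex3_a k4070_A00pp_022_s3 k4071_A00pp_022_s3

theorem t6342_A00pp_022_s3 : ∃ t, chk3 f_A00pp_022_s3 t 1188 980 131 = true := ex3_b t6341_A00pp_022_s3 k4072_A00pp_022_s3

theorem t6343_A00pp_022_s3 : ∃ t, chk3 f_A00pp_022_s3 t 1188 980 65 = true := ex3_c k4069_A00pp_022_s3 t6342_A00pp_022_s3

theorem t6344_A00pp_022_s3 : ∃ t, chk3 f_A00pp_022_s3 t 594 980 65 = true := ex3_a t6343_A00pp_022_s3 t6340_A00pp_022_s3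

theorem t6345_A00pp_022_s3 : ∃ t, chk3 f_A00pp_022_s3 t 594 490 65 = true := ex3_b t6344_A00pp_022_s3 k4077_A00pp_022_s3

theorem t6346_A00pp_022_s3 : ∃ t, chk3 f_A00pp_022_s3 t 297 490 65 = true := ex3_a t6345_A00pp_022_s3 k4078_A00pp_022_s3

theorem t6347_A00pp_022_s3 : ∃ t, chk3 f_A00pp_022_s3 t 595 980 64 = true := ex3_a k4066_A00pp_022_s3 k4067_A00pp_022_s3

theorem t6348_A00pp_022_s3 : ∃ t, chk3 f_A00pp_022_s3 t 595 490 64 = true := ex3_b t6347_A00pp_022_s3 k4068_A00pp_022_s3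

theorem t6349_A00pp_022_s3 : ∃ t, chk3 f_A00pp_022_s3 t 1189 1960 64 = true := ex3_c k4062_A00pp_022_s3 k4063_A00pp_022_s3

theorem t6350_A00pp_022_s3 : ∃ t, chk3 f_A00pp_022_s3 t 1188 1960 259 = true := ex3_a k4060_A00pp_022_s3 k4061_A00pp_022_s3

theorem t6351_A00pp_022_s3 : ∃ t, chk3 f_A00pp_022_s3 t 1188 1960 129 = true := ex3_c k4059_A00pp_022_s3 t6350_A00pp_022_s3

theorem t6352_A00pp_022_s3 : ∃ t, chk3 f_A00pp_022_s3 t 1188 1960 64 = true := ex3_c k4058_A00pp_022_s3 t6351_A00pp_022_s3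

theorem t6353_A00pp_022_s3 : ∃ t, chk3 f_A00pp_022_s3 t 594 1960 64 = true := ex3_a t6352_A00pp_022_s3 t6349_A00pp_022_s3

theorem t6354_A00pp_022_s3 : ∃ t, chk3 f_A00pp_022_s3 t 594 980 64 = true := ex3_b t6353_A00pp_022_s3 k4064_A00pp_022_s3

theorem t6355_A00pp_022_s3 : ∃ t, chk3 f_A00pp_022_s3 t 594 490 64 = true := ex3_b t6354_A00pp_022_s3 k4065_A00pp_022_s3

theorem t6356_A00pp_022_s3 : ∃ t, chk3 f_A00pp_022_s3 t 297 490 64 = true := ex3_a t6355_A00pp_022_s3 t6348_A00pp_022_s3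

theorem t6357_A00pp_022_s3 : ∃ t, chk3 f_A00pp_022_s3 t 297 490 32 = true := ex3_c t6356_A00pp_022_s3 t6346_A00pp_022_s3

theorem t6358_A00pp_022_s3 : ∃ t, chk3 f_A00pp_022_s3 t 297 245 32 = true := ex3_b t6357_A00pp_022_s3 k4079_A00pp_022_s3

theorem t6359_A00pp_022_s3 : ∃ t, chk3 f_A00pp_022_s3 t 1186 1962 65 = true := ex3_b k4053_A00pp_022_s3 k4054_A00pp_022_s3

theorem t6360_A00pp_022_s3 : ∃ t, chk3 f_A00pp_022_s3 t 1186 981 65 = true := ex3_b t6359_A00pp_022_s3 k4055_A00pp_022_s3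

theorem t6361_A00pp_022_s3 : ∃ t, chk3 f_A00pp_022_s3 t 593 981 65 = true := ex3_a t6360_A00pp_022_s3 k4056_A00pp_022_s3

theorem t6362_A00pp_022_s3 : ∃ t, chk3 f_A00pp_022_s3 t 593 981 32 = true := ex3_c k4052_A00pp_022_s3 t6361_A00pp_022_s3

theorem t6363_A00pp_022_s3 : ∃ t, chk3 f_A00pp_022_s3 t 1187 1961 130 = true := ex3_a k4049_A00pp_022_s3 k4050_A00pp_022_s3

theorem t6364_A00pp_022_s3 : ∃ t, chk3 f_A00pp_022_s3 t 1187 1961 65 = true := ex3_c t6363_A00pp_022_s3 k4051_A00pp_022_s3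

theorem t6365_A00pp_022_s3 : ∃ t, chk3 f_A00pp_022_s3 t 1187 1961 32 = true := ex3_c k4048_A00pp_022_s3 t6364_A00pp_022_s3

theorem t6366_A00pp_022_s3 : ∃ t, chk3 f_A00pp_022_s3 t 1186 1961 262 = true := ex3_a k4045_A00pp_022_s3 k4046_A00pp_022_s3

theorem t6367_A00pp_022_s3 : ∃ t, chk3 f_A00pp_022_s3 t 1186 1961 131 = true := ex3_c t6366_A00pp_022_s3 k4047_A00pp_022_s3

theorem t6368_A00pp_022_s3 : ∃ t, chk3 f_A00pp_022_s3 t 1186 1961 65 = true := ex3_c k4044_A00pp_022_s3 t6367_A00pp_022_s3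

theorem t6369_A00pp_022_s3 : ∃ t, chk3 f_A00pp_022_s3 t 1186 1961 32 = true := ex3_c k4043_A00pp_022_s3 t6368_A00pp_022_s3

theorem t6370_A00pp_022_s3 : ∃ t, chk3 f_A00pp_022_s3 t 593 1961 32 = true := ex3_a t6369_A00pp_022_s3 t6365_A00pp_022_s3

theorem t6371_A00pp_022_s3 : ∃ t, chk3 f_A00pp_022_s3 t 1187 1960 130 = true := ex3_a k4040_A00pp_022_s3 k4041_A00pp_022_s3

theorem t6372_A00pp_022_s3 : ∃ t, chk3 f_A00pp_022_s3 t 1187 1960 65 = true := ex3_c t6371_A00pp_022_s3 k4042_A00pp_022_s3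

theorem t6373_A00pp_022_s3 : ∃ t, chk3 f_A00pp_022_s3 t 1187 1960 32 = true := ex3_c k4039_A00pp_022_s3 t6372_A00pp_022_s3

theorem t6374_A00pp_022_s3 : ∃ t, chk3 f_A00pp_022_s3 t 1186 1960 262 = true := ex3_a k4036_A00pp_022_s3 k4037_A00pp_022_s3

theorem t6375_A00pp_022_s3 : ∃ t, chk3 f_A00pp_022_s3 t 1186 1960 131 = true := ex3_c t6374_A00pp_022_s3 k4038_A00pp_022_s3

theorem t6376_A00pp_022_s3 : ∃ t, chk3 f_A00pp_022_s3 t 1186 1960 65 = true := ex3_c k4035_A00pp_022_s3 t6375_A00pp_022_s3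

theorem t6377_A00pp_022_s3 : ∃ t, chk3 f_A00pp_022_s3 t 1186 1960 32 = true := ex3_c k4034_A00pp_022_s3 t6376_A00pp_022_s3

theorem t6378_A00pp_022_s3 : ∃ t, chk3 f_A00pp_022_s3 t 593 1960 32 = true := ex3_a t6377_A00pp_022_s3 t6373_A00pp_022_s3

theorem t6379_A00pp_022_s3 : ∃ t, chk3 f_A00pp_022_s3 t 593 980 32 = true := ex3_b t6378_A00pp_022_s3 t6370_A00pp_022_s3

theorem t6380_A00pp_022_s3 : ∃ t, chk3 f_A00pp_022_s3 t 593 490 32 = true := ex3_b t6379_A00pp_022_s3 t6362_A00pp_022_s3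

theorem t6381_A00pp_022_s3 : ∃ t, chk3 f_A00pp_022_s3 t 593 245 32 = true := ex3_b t6380_A00pp_022_s3 k4057_A00pp_022_s3

theorem t6382_A00pp_022_s3 : ∃ t, chk3 f_A00pp_022_s3 t 2371 980 263 = true := ex3_b k4030_A00pp_022_s3 k4031_A00pp_022_s3

theorem t6383_A00pp_022_s3 : ∃ t, chk3 f_A00pp_022_s3 t 1185 980 263 = true := ex3_a k4029_A00pp_022_s3 t6382_A00pp_022_s3

theorem t6384_A00pp_022_s3 : ∃ t, chk3 f_A00pp_022_s3 t 1185 490 263 = true := ex3_b t6383_A00pp_022_s3 k4032_A00pp_022_s3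

theorem t6385_A00pp_022_s3 : ∃ t, chk3 f_A00pp_022_s3 t 1185 245 263 = true := ex3_b t6384_A00pp_022_s3 k4033_A00pp_022_s3

theorem t6386_A00pp_022_s3 : ∃ t, chk3 f_A00pp_022_s3 t 1185 245 131 = true := ex3_c k4028_A00pp_022_s3 t6385_A00pp_022_s3

theorem t6387_A00pp_022_s3 : ∃ t, chk3 f_A00pp_022_s3 t 592 245 131 = true := ex3_a k4027_A00pp_022_s3 t6386_A00pp_022_s3

theorem t6388_A00pp_022_s3 : ∃ t, chk3 f_A00pp_022_s3 t 592 245 65 = true := ex3_c k4026_A00pp_022_s3 t6387_A00pp_022_s3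

theorem t6389_A00pp_022_s3 : ∃ t, chk3 f_A00pp_022_s3 t 592 245 32 = true := ex3_c k4025_A00pp_022_s3 t6388_A00pp_022_s3

theorem t6390_A00pp_022_s3 : ∃ t, chk3 f_A00pp_022_s3 t 296 245 32 = true := ex3_a t6389_A00pp_022_s3 t6381_A00pp_022_s3

theorem t6391_A00pp_022_s3 : ∃ t, chk3 f_A00pp_022_s3 t 148 245 32 = true := ex3_a t6390_A00pp_022_s3 t6358_A00pp_022_s3

theorem t6392_A00pp_022_s3 : ∃ t, chk3 f_A00pp_022_s3 t 74 245 32 = true := ex3_a t6391_A00pp_022_s3 k4080_A00pp_022_s3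

theorem t6393_A00pp_022_s3 : ∃ t, chk3 f_A00pp_022_s3 t 1192 1958 128 = true := ex3_a k4017_A00pp_022_s3 k4018_A00pp_022_s3

theorem t6394_A00pp_022_s3 : ∃ t, chk3 f_A00pp_022_s3 t 1192 979 128 = true := ex3_b t6393_A00pp_022_s3 k4019_A00pp_022_s3

theorem t6395_A00pp_022_s3 : ∃ t, chk3 f_A00pp_022_s3 t 1192 979 64 = true := ex3_c t6394_A00pp_022_s3 k4020_A00pp_022_s3

theorem t6396_A00pp_022_s3 : ∃ t, chk3 f_A00pp_022_s3 t 596 979 64 = true := ex3_a t6395_A00pp_022_s3 k4021_A00pp_022_s3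

theorem t6397_A00pp_022_s3 : ∃ t, chk3 f_A00pp_022_s3 t 1193 978 128 = true := ex3_b k4014_A00pp_022_s3 k4015_A00pp_022_s3

theorem t6398_A00pp_022_s3 : ∃ t, chk3 f_A00pp_022_s3 t 1193 978 64 = true := ex3_c t6397_A00pp_022_s3 k4016_A00pp_022_s3

theorem t6399_A00pp_022_s3 : ∃ t, chk3 f_A00pp_022_s3 t 1192 978 129 = true := ex3_b k4012_A00pp_022_s3 k4013_A00pp_022_s3

theorem t6400_A00pp_022_s3 : ∃ t, chk3 f_A00pp_022_s3 t 1192 978 64 = true := ex3_c k4011_A00pp_022_s3 t6399_A00pp_022_s3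

theorem t6401_A00pp_022_s3 : ∃ t, chk3 f_A00pp_022_s3 t 596 978 64 = true := ex3_a t6400_A00pp_022_s3 t6398_A00pp_022_s3

theorem t6402_A00pp_022_s3 : ∃ t, chk3 f_A00pp_022_s3 t 596 489 64 = true := ex3_b t6401_A00pp_022_s3 t6396_A00pp_022_s3

theorem t6403_A00pp_022_s3 : ∃ t, chk3 f_A00pp_022_s3 t 596 489 32 = true := ex3_c t6402_A00pp_022_s3 k4022_A00pp_022_s3

theorem t6404_A00pp_022_s3 : ∃ t, chk3 f_A00pp_022_s3 t 298 489 32 = true := ex3_a t6403_A00pp_022_s3 k4023_A00pp_022_s3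

theorem t6405_A00pp_022_s3 : ∃ t, chk3 f_A00pp_022_s3 t 1194 977 64 = true := ex3_c k4007_A00pp_022_s3 k4008_A00pp_022_s3

theorem t6406_A00pp_022_s3 : ∃ t, chk3 f_A00pp_022_s3 t 597 977 64 = true := ex3_a t6405_A00pp_022_s3 k4009_A00pp_022_s3

theorem t6407_A00pp_022_s3 : ∃ t, chk3 f_A00pp_022_s3 t 597 976 64 = true := ex3_a k4005_A00pp_022_s3 k4006_A00pp_022_s3

theorem t6408_A00pp_022_s3 : ∃ t, chk3 f_A00pp_022_s3 t 597 488 64 = true := ex3_b t6407_A00pp_022_s3 t6406_A00pp_022_s3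

theorem t6409_A00pp_022_s3 : ∃ t, chk3 f_A00pp_022_s3 t 597 488 32 = true := ex3_c t6408_A00pp_022_s3 k4010_A00pp_022_s3

theorem t6410_A00pp_022_s3 : ∃ t, chk3 f_A00pp_022_s3 t 596 977 65 = true := ex3_a k4003_A00pp_022_s3 k4004_A00pp_022_s3

theorem t6411_A00pp_022_s3 : ∃ t, chk3 f_A00pp_022_s3 t 596 976 65 = true := ex3_c k4001_A00pp_022_s3 k4002_A00pp_022_s3

theorem t6412_A00pp_022_s3 : ∃ t, chk3 f_A00pp_022_s3 t 596 488 65 = true := ex3_b t6411_A00pp_022_s3 t6410_A00pp_022_s3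

theorem t6413_A00pp_022_s3 : ∃ t, chk3 f_A00pp_022_s3 t 596 977 64 = true := ex3_a k3999_A00pp_022_s3 k4000_A00pp_022_s3

theorem t6414_A00pp_022_s3 : ∃ t, chk3 f_A00pp_022_s3 t 596 488 64 = true := ex3_b k3998_A00pp_022_s3 t6413_A00pp_022_s3

theorem t6415_A00pp_022_s3 : ∃ t, chk3 f_A00pp_022_s3 t 596 488 32 = true := ex3_c t6414_A00pp_022_s3 t6412_A00pp_022_s3

theorem t6416_A00pp_022_s3 : ∃ t, chk3 f_A00pp_022_s3 t 298 488 32 = true := ex3_a t6415_A00pp_022_s3 t6409_A00pp_022_s3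

theorem t6417_A00pp_022_s3 : ∃ t, chk3 f_A00pp_022_s3 t 298 244 32 = true := ex3_b t6416_A00pp_022_s3 t6404_A00pp_022_s3

theorem t6418_A00pp_022_s3 : ∃ t, chk3 f_A00pp_022_s3 t 149 244 32 = true := ex3_a t6417_A00pp_022_s3 k4024_A00pp_022_s3

theorem t6419_A00pp_022_s3 : ∃ t, chk3 f_A00pp_022_s3 t 1190 1959 130 = true := ex3_a k3994_A00pp_022_s3 k3995_A00pp_022_s3

theorem t6420_A00pp_022_s3 : ∃ t, chk3 f_A00pp_022_s3 t 1190 979 130 = true := ex3_b k3993_A00pp_022_s3 t6419_A00pp_022_s3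

theorem t6421_A00pp_022_s3 : ∃ t, chk3 f_A00pp_022_s3 t 1190 979 65 = true := ex3_c t6420_A00pp_022_s3 k3996_A00pp_022_s3

theorem t6422_A00pp_022_s3 : ∃ t, chk3 f_A00pp_022_s3 t 595 979 65 = true := ex3_a t6421_A00pp_022_s3 k3997_A00pp_022_s3

theorem t6423_A00pp_022_s3 : ∃ t, chk3 f_A00pp_022_s3 t 1191 978 65 = true := ex3_c k3991_A00pp_022_s3 k3992_A00pp_022_s3

theorem t6424_A00pp_022_s3 : ∃ t, chk3 f_A00pp_022_s3 t 1190 978 65 = true := ex3_c k3989_A00pp_022_s3 k3990_A00pp_022_s3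

theorem t6425_A00pp_022_s3 : ∃ t, chk3 f_A00pp_022_s3 t 595 978 65 = true := ex3_a t6424_A00pp_022_s3 t6423_A00pp_022_s3

theorem t6426_A00pp_022_s3 : ∃ t, chk3 f_A00pp_022_s3 t 595 489 65 = true := ex3_b t6425_A00pp_022_s3 t6422_A00pp_022_s3

theorem t6427_A00pp_022_s3 : ∃ t, chk3 f_A00pp_022_s3 t 1191 1958 129 = true := ex3_a k3986_A00pp_022_s3 k3987_A00pp_022_s3

theorem t6428_A00pp_022_s3 : ∃ t, chk3 f_A00pp_022_s3 t 1191 979 129 = true := ex3_b t6427_A00pp_022_s3 k3988_A00pp_022_s3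

theorem t6429_A00pp_022_s3 : ∃ t, chk3 f_A00pp_022_s3 t 1191 979 64 = true := ex3_c k3985_A00pp_022_s3 t6428_A00pp_022_s3

theorem t6430_A00pp_022_s3 : ∃ t, chk3 f_A00pp_022_s3 t 1190 979 129 = true := ex3_b k3983_A00pp_022_s3 k3984_A00pp_022_s3

theorem t6431_A00pp_022_s3 : ∃ t, chk3 f_A00pp_022_s3 t 2380 979 256 = true := ex3_b k3979_A00pp_022_s3 k3980_A00pp_022_s3

theorem t6432_A00pp_022_s3 : ∃ t, chk3 f_A00pp_022_s3 t 1190 979 256 = true := ex3_a t6431_A00pp_022_s3 k3981_A00pp_022_s3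

theorem t6433_A00pp_022_s3 : ∃ t, chk3 f_A00pp_022_s3 t 1190 979 128 = true := ex3_c t6432_A00pp_022_s3 k3982_A00pp_022_s3

theorem t6434_A00pp_022_s3 : ∃ t, chk3 f_A00pp_022_s3 t 1190 979 64 = true := ex3_c t6433_A00pp_022_s3 t6430_A00pp_022_s3

theorem t6435_A00pp_022_s3 : ∃ t, chk3 f_A00pp_022_s3 t 595 979 64 = true := ex3_a t6434_A00pp_022_s3 t6429_A00pp_022_s3

theorem t6436_A00pp_022_s3 : ∃ t, chk3 f_A00pp_022_s3 t 2380 978 256 = true := ex3_a k3973_A00pp_022_s3 k3974_A00pp_022_s3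

theorem t6437_A00pp_022_s3 : ∃ t, chk3 f_A00pp_022_s3 t 1190 978 256 = true := ex3_a t6436_A00pp_022_s3 k3975_A00pp_022_s3

theorem t6438_A00pp_022_s3 : ∃ t, chk3 f_A00pp_022_s3 t 1190 978 128 = true := ex3_c t6437_A00pp_022_s3 k3976_A00pp_022_s3

theorem t6439_A00pp_022_s3 : ∃ t, chk3 f_A00pp_022_s3 t 1190 978 64 = true := ex3_c t6438_A00pp_022_s3 k3977_A00pp_022_s3

theorem t6440_A00pp_022_s3 : ∃ t, chk3 f_A00pp_022_s3 t 595 978 64 = true := ex3_a t6439_A00pp_022_s3 k3978_A00pp_022_s3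

theorem t6441_A00pp_022_s3 : ∃ t, chk3 f_A00pp_022_s3 t 595 489 64 = true := ex3_b t6440_A00pp_022_s3 t6435_A00pp_022_s3

theorem t6442_A00pp_022_s3 : ∃ t, chk3 f_A00pp_022_s3 t 595 489 32 = true := ex3_c t6441_A00pp_022_s3 t6426_A00pp_022_s3

theorem t6443_A00pp_022_s3 : ∃ t, chk3 f_A00pp_022_s3 t 1189 979 131 = true := ex3_b k3971_A00pp_022_s3 k3972_A00pp_022_s3

theorem t6444_A00pp_022_s3 : ∃ t, chk3 f_A00pp_022_s3 t 1189 979 65 = true := ex3_c k3970_A00pp_022_s3 t6443_A00pp_022_s3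

theorem t6445_A00pp_022_s3 : ∃ t, chk3 f_A00pp_022_s3 t 594 979 65 = true := ex3_a k3969_A00pp_022_s3 t6444_A00pp_022_s3

theorem t6446_A00pp_022_s3 : ∃ t, chk3 f_A00pp_022_s3 t 2378 979 258 = true := ex3_c k3965_A00pp_022_s3 k3966_A00pp_022_s3

theorem t6447_A00pp_022_s3 : ∃ t, chk3 f_A00pp_022_s3 t 2378 979 129 = true := ex3_c t6446_A00pp_022_s3 k3967_A00pp_022_s3

theorem t6448_A00pp_022_s3 : ∃ t, chk3 f_A00pp_022_s3 t 1189 979 129 = true := ex3_a t6447_A00pp_022_s3 k3968_A00pp_022_s3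

theorem t6449_A00pp_022_s3 : ∃ t, chk3 f_A00pp_022_s3 t 2379 979 257 = true := ex3_b k3963_A00pp_022_s3 k3964_A00pp_022_s3

theorem t6450_A00pp_022_s3 : ∃ t, chk3 f_A00pp_022_s3 t 1189 979 257 = true := ex3_a k3962_A00pp_022_s3 t6449_A00pp_022_s3

theorem t6451_A00pp_022_s3 : ∃ t, chk3 f_A00pp_022_s3 t 1189 979 128 = true := ex3_c k3961_A00pp_022_s3 t6450_A00pp_022_s3

theorem t6452_A00pp_022_s3 : ∃ t, chk3 f_A00pp_022_s3 t 1189 979 64 = true := ex3_c t6451_A00pp_022_s3 t6448_A00pp_022_s3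

theorem t6453_A00pp_022_s3 : ∃ t, chk3 f_A00pp_022_s3 t 2376 979 259 = true := ex3_c k3958_A00pp_022_s3 k3959_A00pp_022_s3

theorem t6454_A00pp_022_s3 : ∃ t, chk3 f_A00pp_022_s3 t 1188 979 259 = true := ex3_a t6453_A00pp_022_s3 k3960_A00pp_022_s3

theorem t6455_A00pp_022_s3 : ∃ t, chk3 f_A00pp_022_s3 t 1188 979 129 = true := ex3_c k3957_A00pp_022_s3 t6454_A00pp_022_s3

theorem t6456_A00pp_022_s3 : ∃ t, chk3 f_A00pp_022_s3 t 1188 979 64 = true := ex3_c k3956_A00pp_022_s3 t6455_A00pp_022_s3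

theorem t6457_A00pp_022_s3 : ∃ t, chk3 f_A00pp_022_s3 t 594 979 64 = true := ex3_a t6456_A00pp_022_s3 t6452_A00pp_022_s3

theorem t6458_A00pp_022_s3 : ∃ t, chk3 f_A00pp_022_s3 t 594 979 32 = true := ex3_c t6457_A00pp_022_s3 t6445_A00pp_022_s3

theorem t6459_A00pp_022_s3 : ∃ t, chk3 f_A00pp_022_s3 t 2378 978 516 = true := ex3_b k3950_A00pp_022_s3 k3951_A00pp_022_s3

theorem t6460_A00pp_022_s3 : ∃ t, chk3 f_A00pp_022_s3 t 2378 978 258 = true := ex3_c t6459_A00pp_022_s3 k3952_A00pp_022_s3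

theorem t6461_A00pp_022_s3 : ∃ t, chk3 f_A00pp_022_s3 t 2378 978 129 = true := ex3_c t6460_A00pp_022_s3 k3953_A00pp_022_s3

theorem t6462_A00pp_022_s3 : ∃ t, chk3 f_A00pp_022_s3 t 1189 978 129 = true := ex3_a t6461_A00pp_022_s3 k3954_A00pp_022_s3

theorem t6463_A00pp_022_s3 : ∃ t, chk3 f_A00pp_022_s3 t 2376 978 259 = true := ex3_b k3947_A00pp_022_s3 k3948_A00pp_022_s3

theorem t6464_A00pp_022_s3 : ∃ t, chk3 f_A00pp_022_s3 t 1188 978 259 = true := ex3_a t6463_A00pp_022_s3 k3949_A00pp_022_s3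

theorem t6465_A00pp_022_s3 : ∃ t, chk3 f_A00pp_022_s3 t 1188 978 129 = true := ex3_c k3946_A00pp_022_s3 t6464_A00pp_022_s3

theorem t6466_A00pp_022_s3 : ∃ t, chk3 f_A00pp_022_s3 t 594 978 129 = true := ex3_a t6465_A00pp_022_s3 t6462_A00pp_022_s3

theorem t6467_A00pp_022_s3 : ∃ t, chk3 f_A00pp_022_s3 t 2379 978 257 = true := ex3_c k3944_A00pp_022_s3 k3945_A00pp_022_s3

theorem t6468_A00pp_022_s3 : ∃ t, chk3 f_A00pp_022_s3 t 1189 978 257 = true := ex3_a k3943_A00pp_022_s3 t6467_A00pp_022_s3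

theorem t6469_A00pp_022_s3 : ∃ t, chk3 f_A00pp_022_s3 t 1189 978 128 = true := ex3_c k3942_A00pp_022_s3 t6468_A00pp_022_s3

theorem t6470_A00pp_022_s3 : ∃ t, chk3 f_A00pp_022_s3 t 594 978 128 = true := ex3_a k3941_A00pp_022_s3 t6469_A00pp_022_s3

theorem t6471_A00pp_022_s3 : ∃ t, chk3 f_A00pp_022_s3 t 594 978 64 = true := ex3_c t6470_A00pp_022_s3 t6466_A00pp_022_s3

theorem t6472_A00pp_022_s3 : ∃ t, chk3 f_A00pp_022_s3 t 594 978 32 = true := ex3_c t6471_A00pp_022_s3 k3955_A00pp_022_s3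

theorem t6473_A00pp_022_s3 : ∃ t, chk3 f_A00pp_022_s3 t 594 489 32 = true := ex3_b t6472_A00pp_022_s3 t6458_A00pp_022_s3

theorem t6474_A00pp_022_s3 : ∃ t, chk3 f_A00pp_022_s3 t 297 489 32 = true := ex3_a t6473_A00pp_022_s3 t6442_A00pp_022_s3

theorem t6475_A00pp_022_s3 : ∃ t, chk3 f_A00pp_022_s3 t 2381 488 256 = true := ex3_b k3935_A00pp_022_s3 k3936_A00pp_022_s3

theorem t6476_A00pp_022_s3 : ∃ t, chk3 f_A00pp_022_s3 t 2380 1955 256 = true := ex3_b k3933_A00pp_022_s3 k3934_A00pp_022_s3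

theorem t6477_A00pp_022_s3 : ∃ t, chk3 f_A00pp_022_s3 t 2380 1954 256 = true := ex3_b k3931_A00pp_022_s3 k3932_A00pp_022_s3

theorem t6478_A00pp_022_s3 : ∃ t, chk3 f_A00pp_022_s3 t 2380 977 256 = true := ex3_b t6477_A00pp_022_s3 t6476_A00pp_022_s3

theorem t6479_A00pp_022_s3 : ∃ t, chk3 f_A00pp_022_s3 t 2380 976 256 = true := ex3_b k3929_A00pp_022_s3 k3930_A00pp_022_s3

theorem t6480_A00pp_022_s3 : ∃ t, chk3 f_A00pp_022_s3 t 2380 488 256 = true := ex3_b t6479_A00pp_022_s3 t6478_A00pp_022_s3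

theorem t6481_A00pp_022_s3 : ∃ t, chk3 f_A00pp_022_s3 t 1190 488 256 = true := ex3_a t6480_A00pp_022_s3 t6475_A00pp_022_s3

theorem t6482_A00pp_022_s3 : ∃ t, chk3 f_A00pp_022_s3 t 1190 488 128 = true := ex3_c t6481_A00pp_022_s3 k3937_A00pp_022_s3

theorem t6483_A00pp_022_s3 : ∃ t, chk3 f_A00pp_022_s3 t 1190 488 64 = true := ex3_c t6482_A00pp_022_s3 k3938_A00pp_022_s3

theorem t6484_A00pp_022_s3 : ∃ t, chk3 f_A00pp_022_s3 t 595 488 64 = true := ex3_a t6483_A00pp_022_s3 k3939_A00pp_022_s3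

theorem t6485_A00pp_022_s3 : ∃ t, chk3 f_A00pp_022_s3 t 595 488 32 = true := ex3_c t6484_A00pp_022_s3 k3940_A00pp_022_s3

theorem t6486_A00pp_022_s3 : ∃ t, chk3 f_A00pp_022_s3 t 594 976 65 = true := ex3_c k3926_A00pp_022_s3 k3927_A00pp_022_s3

theorem t6487_A00pp_022_s3 : ∃ t, chk3 f_A00pp_022_s3 t 594 488 65 = true := ex3_b t6486_A00pp_022_s3 k3928_A00pp_022_s3

theorem t6488_A00pp_022_s3 : ∃ t, chk3 f_A00pp_022_s3 t 2378 488 258 = true := ex3_b k3922_A00pp_022_s3 k3923_A00pp_022_s3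

theorem t6489_A00pp_022_s3 : ∃ t, chk3 f_A00pp_022_s3 t 1189 488 258 = true := ex3_a t6488_A00pp_022_s3 k3924_A00pp_022_s3

theorem t6490_A00pp_022_s3 : ∃ t, chk3 f_A00pp_022_s3 t 1189 488 129 = true := ex3_c t6489_A00pp_022_s3 k3925_A00pp_022_s3

theorem t6491_A00pp_022_s3 : ∃ t, chk3 f_A00pp_022_s3 t 2377 977 259 = true := ex3_b k3920_A00pp_022_s3 k3921_A00pp_022_s3

theorem t6492_A00pp_022_s3 : ∃ t, chk3 f_A00pp_022_s3 t 2377 976 259 = true := ex3_b k3918_A00pp_022_s3 k3919_A00pp_022_s3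

theorem t6493_A00pp_022_s3 : ∃ t, chk3 f_A00pp_022_s3 t 2377 488 259 = true := ex3_b t6492_A00pp_022_s3 t6491_A00pp_022_s3

theorem t6494_A00pp_022_s3 : ∃ t, chk3 f_A00pp_022_s3 t 2376 976 259 = true := ex3_b k3915_A00pp_022_s3 k3916_A00pp_022_s3

theorem t6495_A00pp_022_s3 : ∃ t, chk3 f_A00pp_022_s3 t 2376 488 259 = true := ex3_b t6494_A00pp_022_s3 k3917_A00pp_022_s3

theorem t6496_A00pp_022_s3 : ∃ t, chk3 f_A00pp_022_s3 t 1188 488 259 = true := ex3_a t6495_A00pp_022_s3 t6493_A00pp_022_s3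

theorem t6497_A00pp_022_s3 : ∃ t, chk3 f_A00pp_022_s3 t 1188 488 258 = true := ex3_b k3913_A00pp_022_s3 k3914_A00pp_022_s3

theorem t6498_A00pp_022_s3 : ∃ t, chk3 f_A00pp_022_s3 t 1188 488 129 = true := ex3_c t6497_A00pp_022_s3 t6496_A00pp_022_s3

theorem t6499_A00pp_022_s3 : ∃ t, chk3 f_A00pp_022_s3 t 594 488 129 = true := ex3_a t6498_A00pp_022_s3 t6490_A00pp_022_s3

theorem t6500_A00pp_022_s3 : ∃ t, chk3 f_A00pp_022_s3 t 2379 1955 257 = true := ex3_b k3911_A00pp_022_s3 k3912_A00pp_022_s3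

theorem t6501_A00pp_022_s3 : ∃ t, chk3 f_A00pp_022_s3 t 2379 1954 257 = true := ex3_b k3909_A00pp_022_s3 k3910_A00pp_022_s3

theorem t6502_A00pp_022_s3 : ∃ t, chk3 f_A00pp_022_s3 t 2379 977 257 = true := ex3_b t6501_A00pp_022_s3 t6500_A00pp_022_s3

theorem t6503_A00pp_022_s3 : ∃ t, chk3 f_A00pp_022_s3 t 2379 1953 257 = true := ex3_b k3907_A00pp_022_s3 k3908_A00pp_022_s3

theorem t6504_A00pp_022_s3 : ∃ t, chk3 f_A00pp_022_s3 t 2379 1952 257 = true := ex3_b k3905_A00pp_022_s3 k3906_A00pp_022_s3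

theorem t6505_A00pp_022_s3 : ∃ t, chk3 f_A00pp_022_s3 t 2379 976 257 = true := ex3_b t6504_A00pp_022_s3 t6503_A00pp_022_s3

theorem t6506_A00pp_022_s3 : ∃ t, chk3 f_A00pp_022_s3 t 2379 488 257 = true := ex3_b t6505_A00pp_022_s3 t6502_A00pp_022_s3

theorem t6507_A00pp_022_s3 : ∃ t, chk3 f_A00pp_022_s3 t 1189 488 257 = true := ex3_a k3904_A00pp_022_s3 t6506_A00pp_022_s3

theorem t6508_A00pp_022_s3 : ∃ t, chk3 f_A00pp_022_s3 t 1189 488 128 = true := ex3_c k3903_A00pp_022_s3 t6507_A00pp_022_s3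

theorem t6509_A00pp_022_s3 : ∃ t, chk3 f_A00pp_022_s3 t 594 488 128 = true := ex3_a k3902_A00pp_022_s3 t6508_A00pp_022_s3

theorem t6510_A00pp_022_s3 : ∃ t, chk3 f_A00pp_022_s3 t 594 488 64 = true := ex3_c t6509_A00pp_022_s3 t6499_A00pp_022_s3

theorem t6511_A00pp_022_s3 : ∃ t, chk3 f_A00pp_022_s3 t 594 488 32 = true := ex3_c t6510_A00pp_022_s3 t6487_A00pp_022_s3

theorem t6512_A00pp_022_s3 : ∃ t, chk3 f_A00pp_022_s3 t 297 488 32 = true := ex3_a t6511_A00pp_022_s3 t6485_A00pp_022_s3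

theorem t6513_A00pp_022_s3 : ∃ t, chk3 f_A00pp_022_s3 t 297 244 32 = true := ex3_b t6512_A00pp_022_s3 t6474_A00pp_022_s3

theorem t6514_A00pp_022_s3 : ∃ t, chk3 f_A00pp_022_s3 t 2375 979 260 = true := ex3_a k3898_A00pp_022_s3 k3899_A00pp_022_s3

theorem t6515_A00pp_022_s3 : ∃ t, chk3 f_A00pp_022_s3 t 2375 979 130 = true := ex3_c t6514_A00pp_022_s3 k3900_A00pp_022_s3

theorem t6516_A00pp_022_s3 : ∃ t, chk3 f_A00pp_022_s3 t 2374 979 261 = true := ex3_c k3896_A00pp_022_s3 k3897_A00pp_022_s3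

theorem t6517_A00pp_022_s3 : ∃ t, chk3 f_A00pp_022_s3 t 2374 979 130 = true := ex3_c k3895_A00pp_022_s3 t6516_A00pp_022_s3

theorem t6518_A00pp_022_s3 : ∃ t, chk3 f_A00pp_022_s3 t 1187 979 130 = true := ex3_a t6517_A00pp_022_s3 t6515_A00pp_022_s3

theorem t6519_A00pp_022_s3 : ∃ t, chk3 f_A00pp_022_s3 t 2375 978 260 = true := ex3_b k3892_A00pp_022_s3 k3893_A00pp_022_s3

theorem t6520_A00pp_022_s3 : ∃ t, chk3 f_A00pp_022_s3 t 2375 978 130 = true := ex3_c t6519_A00pp_022_s3 k3894_A00pp_022_s3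

theorem t6521_A00pp_022_s3 : ∃ t, chk3 f_A00pp_022_s3 t 2374 978 261 = true := ex3_b k3890_A00pp_022_s3 k3891_A00pp_022_s3

theorem t6522_A00pp_022_s3 : ∃ t, chk3 f_A00pp_022_s3 t 2374 978 130 = true := ex3_c k3889_A00pp_022_s3 t6521_A00pp_022_s3

theorem t6523_A00pp_022_s3 : ∃ t, chk3 f_A00pp_022_s3 t 1187 978 130 = true := ex3_a t6522_A00pp_022_s3 t6520_A00pp_022_s3

theorem t6524_A00pp_022_s3 : ∃ t, chk3 f_A00pp_022_s3 t 1187 489 130 = true := ex3_b t6523_A00pp_022_s3 t6518_A00pp_022_s3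

theorem t6525_A00pp_022_s3 : ∃ t, chk3 f_A00pp_022_s3 t 1187 489 65 = true := ex3_c t6524_A00pp_022_s3 k3901_A00pp_022_s3

theorem t6526_A00pp_022_s3 : ∃ t, chk3 f_A00pp_022_s3 t 1186 979 262 = true := ex3_a k3886_A00pp_022_s3 k3887_A00pp_022_s3

theorem t6527_A00pp_022_s3 : ∃ t, chk3 f_A00pp_022_s3 t 1186 979 131 = true := ex3_c t6526_A00pp_022_s3 k3888_A00pp_022_s3

theorem t6528_A00pp_022_s3 : ∃ t, chk3 f_A00pp_022_s3 t 2373 978 262 = true := ex3_b k3883_A00pp_022_s3 k3884_A00pp_022_s3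

theorem t6529_A00pp_022_s3 : ∃ t, chk3 f_A00pp_022_s3 t 1186 978 262 = true := ex3_a k3882_A00pp_022_s3 t6528_A00pp_022_s3

theorem t6530_A00pp_022_s3 : ∃ t, chk3 f_A00pp_022_s3 t 1186 978 131 = true := ex3_c t6529_A00pp_022_s3 k3885_A00pp_022_s3

theorem t6531_A00pp_022_s3 : ∃ t, chk3 f_A00pp_022_s3 t 1186 489 131 = true := ex3_b t6530_A00pp_022_s3 t6527_A00pp_022_s3

theorem t6532_A00pp_022_s3 : ∃ t, chk3 f_A00pp_022_s3 t 1186 489 130 = true := ex3_b k3880_A00pp_022_s3 k3881_A00pp_022_s3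

theorem t6533_A00pp_022_s3 : ∃ t, chk3 f_A00pp_022_s3 t 1186 489 65 = true := ex3_c t6532_A00pp_022_s3 t6531_A00pp_022_s3

theorem t6534_A00pp_022_s3 : ∃ t, chk3 f_A00pp_022_s3 t 593 489 65 = true := ex3_a t6533_A00pp_022_s3 t6525_A00pp_022_s3

theorem t6535_A00pp_022_s3 : ∃ t, chk3 f_A00pp_022_s3 t 593 489 32 = true := ex3_c k3879_A00pp_022_s3 t6534_A00pp_022_s3

theorem t6536_A00pp_022_s3 : ∃ t, chk3 f_A00pp_022_s3 t 2371 979 131 = true := ex3_b k3877_A00pp_022_s3 k3878_A00pp_022_s3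

theorem t6537_A00pp_022_s3 : ∃ t, chk3 f_A00pp_022_s3 t 1185 979 131 = true := ex3_a k3876_A00pp_022_s3 t6536_A00pp_022_s3

theorem t6538_A00pp_022_s3 : ∃ t, chk3 f_A00pp_022_s3 t 592 979 131 = true := ex3_a k3875_A00pp_022_s3 t6537_A00pp_022_s3

theorem t6539_A00pp_022_s3 : ∃ t, chk3 f_A00pp_022_s3 t 2371 1957 263 = true := ex3_b k3873_A00pp_022_s3 k3874_A00pp_022_s3

theorem t6540_A00pp_022_s3 : ∃ t, chk3 f_A00pp_022_s3 t 2371 1957 131 = true := ex3_c k3872_A00pp_022_s3 t6539_A00pp_022_s3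

theorem t6541_A00pp_022_s3 : ∃ t, chk3 f_A00pp_022_s3 t 2371 1956 263 = true := ex3_b k3870_A00pp_022_s3 k3871_A00pp_022_s3

theorem t6542_A00pp_022_s3 : ∃ t, chk3 f_A00pp_022_s3 t 2371 1956 131 = true := ex3_c k3869_A00pp_022_s3 t6541_A00pp_022_s3

theorem t6543_A00pp_022_s3 : ∃ t, chk3 f_A00pp_022_s3 t 2371 978 131 = true := ex3_b t6542_A00pp_022_s3 t6540_A00pp_022_s3

theorem t6544_A00pp_022_s3 : ∃ t, chk3 f_A00pp_022_s3 t 1185 978 131 = true := ex3_a k3868_A00pp_022_s3 t6543_A00pp_022_s3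

theorem t6545_A00pp_022_s3 : ∃ t, chk3 f_A00pp_022_s3 t 592 978 131 = true := ex3_a k3867_A00pp_022_s3 t6544_A00pp_022_s3

theorem t6546_A00pp_022_s3 : ∃ t, chk3 f_A00pp_022_s3 t 592 489 131 = true := ex3_b t6545_A00pp_022_s3 t6538_A00pp_022_s3

theorem t6547_A00pp_022_s3 : ∃ t, chk3 f_A00pp_022_s3 t 592 489 65 = true := ex3_c k3866_A00pp_022_s3 t6546_A00pp_022_s3

theorem t6548_A00pp_022_s3 : ∃ t, chk3 f_A00pp_022_s3 t 592 489 32 = true := ex3_c k3865_A00pp_022_s3 t6547_A00pp_022_s3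

theorem t6549_A00pp_022_s3 : ∃ t, chk3 f_A00pp_022_s3 t 296 489 32 = true := ex3_a t6548_A00pp_022_s3 t6535_A00pp_022_s3

theorem t6550_A00pp_022_s3 : ∃ t, chk3 f_A00pp_022_s3 t 1186 977 262 = true := ex3_b k3861_A00pp_022_s3 k3862_A00pp_022_s3

theorem t6551_A00pp_022_s3 : ∃ t, chk3 f_A00pp_022_s3 t 1186 977 131 = true := ex3_c t6550_A00pp_022_s3 k3863_A00pp_022_s3

theorem t6552_A00pp_022_s3 : ∃ t, chk3 f_A00pp_022_s3 t 2372 1953 525 = true := ex3_a k3857_A00pp_022_s3 k3858_A00pp_022_s3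

theorem t6553_A00pp_022_s3 : ∃ t, chk3 f_A00pp_022_s3 t 2372 1953 262 = true := ex3_c k3856_A00pp_022_s3 t6552_A00pp_022_s3

theorem t6554_A00pp_022_s3 : ∃ t, chk3 f_A00pp_022_s3 t 1186 1953 262 = true := ex3_a t6553_A00pp_022_s3 k3859_A00pp_022_s3

theorem t6555_A00pp_022_s3 : ∃ t, chk3 f_A00pp_022_s3 t 2373 1952 524 = true := ex3_a k3853_A00pp_022_s3 k3854_A00pp_022_s3

theorem t6556_A00pp_022_s3 : ∃ t, chk3 f_A00pp_022_s3 t 2373 1952 262 = true := ex3_c t6555_A00pp_022_s3 k3855_A00pp_022_s3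

theorem t6557_A00pp_022_s3 : ∃ t, chk3 f_A00pp_022_s3 t 1186 1952 262 = true := ex3_a k3852_A00pp_022_s3 t6556_A00pp_022_s3

theorem t6558_A00pp_022_s3 : ∃ t, chk3 f_A00pp_022_s3 t 1186 976 262 = true := ex3_b t6557_A00pp_022_s3 t6554_A00pp_022_s3

theorem t6559_A00pp_022_s3 : ∃ t, chk3 f_A00pp_022_s3 t 1186 976 131 = true := ex3_c t6558_A00pp_022_s3 k3860_A00pp_022_s3

theorem t6560_A00pp_022_s3 : ∃ t, chk3 f_A00pp_022_s3 t 1186 488 131 = true := ex3_b t6559_A00pp_022_s3 t6551_A00pp_022_s3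

theorem t6561_A00pp_022_s3 : ∃ t, chk3 f_A00pp_022_s3 t 593 488 131 = true := ex3_a t6560_A00pp_022_s3 k3864_A00pp_022_s3

theorem t6562_A00pp_022_s3 : ∃ t, chk3 f_A00pp_022_s3 t 2375 977 260 = true := ex3_b k3849_A00pp_022_s3 k3850_A00pp_022_s3

theorem t6563_A00pp_022_s3 : ∃ t, chk3 f_A00pp_022_s3 t 2375 977 130 = true := ex3_c t6562_A00pp_022_s3 k3851_A00pp_022_s3

theorem t6564_A00pp_022_s3 : ∃ t, chk3 f_A00pp_022_s3 t 2374 977 261 = true := ex3_b k3847_A00pp_022_s3 k3848_A00pp_022_s3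

theorem t6565_A00pp_022_s3 : ∃ t, chk3 f_A00pp_022_s3 t 2374 977 130 = true := ex3_c k3846_A00pp_022_s3 t6564_A00pp_022_s3

theorem t6566_A00pp_022_s3 : ∃ t, chk3 f_A00pp_022_s3 t 1187 977 130 = true := ex3_a t6565_A00pp_022_s3 t6563_A00pp_022_s3

theorem t6567_A00pp_022_s3 : ∃ t, chk3 f_A00pp_022_s3 t 2374 1953 261 = true := ex3_b k3843_A00pp_022_s3 k3844_A00pp_022_s3

theorem t6568_A00pp_022_s3 : ∃ t, chk3 f_A00pp_022_s3 t 2374 3905 261 = true := ex3_c k3841_A00pp_022_s3 k3842_A00pp_022_s3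

theorem t6569_A00pp_022_s3 : ∃ t, chk3 f_A00pp_022_s3 t 2374 1952 261 = true := ex3_b k3840_A00pp_022_s3 t6568_A00pp_022_s3

theorem t6570_A00pp_022_s3 : ∃ t, chk3 f_A00pp_022_s3 t 2374 976 261 = true := ex3_b t6569_A00pp_022_s3 t6567_A00pp_022_s3

theorem t6571_A00pp_022_s3 : ∃ t, chk3 f_A00pp_022_s3 t 1187 976 261 = true := ex3_a t6570_A00pp_022_s3 k3845_A00pp_022_s3

theorem t6572_A00pp_022_s3 : ∃ t, chk3 f_A00pp_022_s3 t 4751 3904 520 = true := ex3_a k3835_A00pp_022_s3 k3836_A00pp_022_s3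

theorem t6573_A00pp_022_s3 : ∃ t, chk3 f_A00pp_022_s3 t 4751 3904 260 = true := ex3_c t6572_A00pp_022_s3 k3837_A00pp_022_s3

theorem t6574_A00pp_022_s3 : ∃ t, chk3 f_A00pp_022_s3 t 2375 3904 260 = true := ex3_a k3834_A00pp_022_s3 t6573_A00pp_022_s3

theorem t6575_A00pp_022_s3 : ∃ t, chk3 f_A00pp_022_s3 t 2375 1952 260 = true := ex3_b t6574_A00pp_022_s3 k3838_A00pp_022_s3

theorem t6576_A00pp_022_s3 : ∃ t, chk3 f_A00pp_022_s3 t 1187 1952 260 = true := ex3_a k3833_A00pp_022_s3 t6575_A00pp_022_s3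

theorem t6577_A00pp_022_s3 : ∃ t, chk3 f_A00pp_022_s3 t 1187 976 260 = true := ex3_b t6576_A00pp_022_s3 k3839_A00pp_022_s3

theorem t6578_A00pp_022_s3 : ∃ t, chk3 f_A00pp_022_s3 t 1187 976 130 = true := ex3_c t6577_A00pp_022_s3 t6571_A00pp_022_s3

theorem t6579_A00pp_022_s3 : ∃ t, chk3 f_A00pp_022_s3 t 1187 488 130 = true := ex3_b t6578_A00pp_022_s3 t6566_A00pp_022_s3

theorem t6580_A00pp_022_s3 : ∃ t, chk3 f_A00pp_022_s3 t 1186 1952 523 = true := ex3_b k3829_A00pp_022_s3 k3830_A00pp_022_s3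

theorem t6581_A00pp_022_s3 : ∃ t, chk3 f_A00pp_022_s3 t 1186 1952 261 = true := ex3_c k3828_A00pp_022_s3 t6580_A00pp_022_s3

theorem t6582_A00pp_022_s3 : ∃ t, chk3 f_A00pp_022_s3 t 1186 1952 130 = true := ex3_c k3827_A00pp_022_s3 t6581_A00pp_022_s3

theorem t6583_A00pp_022_s3 : ∃ t, chk3 f_A00pp_022_s3 t 1186 976 130 = true := ex3_b t6582_A00pp_022_s3 k3831_A00pp_022_s3

theorem t6584_A00pp_022_s3 : ∃ t, chk3 f_A00pp_022_s3 t 1186 488 130 = true := ex3_b t6583_A00pp_022_s3 k3832_A00pp_022_s3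

theorem t6585_A00pp_022_s3 : ∃ t, chk3 f_A00pp_022_s3 t 593 488 130 = true := ex3_a t6584_A00pp_022_s3 t6579_A00pp_022_s3

theorem t6586_A00pp_022_s3 : ∃ t, chk3 f_A00pp_022_s3 t 593 488 65 = true := ex3_c t6585_A00pp_022_s3 t6561_A00pp_022_s3

theorem t6587_A00pp_022_s3 : ∃ t, chk3 f_A00pp_022_s3 t 1185 977 65 = true := ex3_a k3825_A00pp_022_s3 k3826_A00pp_022_s3

theorem t6588_A00pp_022_s3 : ∃ t, chk3 f_A00pp_022_s3 t 592 977 65 = true := ex3_a k3824_A00pp_022_s3 t6587_A00pp_022_s3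

theorem t6589_A00pp_022_s3 : ∃ t, chk3 f_A00pp_022_s3 t 2371 3906 263 = true := ex3_c k3821_A00pp_022_s3 k3822_A00pp_022_s3

theorem t6590_A00pp_022_s3 : ∃ t, chk3 f_A00pp_022_s3 t 2371 1953 263 = true := ex3_b t6589_A00pp_022_s3 k3823_A00pp_022_s3

theorem t6591_A00pp_022_s3 : ∃ t, chk3 f_A00pp_022_s3 t 1185 1953 263 = true := ex3_a k3820_A00pp_022_s3 t6590_A00pp_022_s3

theorem t6592_A00pp_022_s3 : ∃ t, chk3 f_A00pp_022_s3 t 1185 1953 131 = true := ex3_c k3819_A00pp_022_s3 t6591_A00pp_022_s3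

theorem t6593_A00pp_022_s3 : ∃ t, chk3 f_A00pp_022_s3 t 592 1953 131 = true := ex3_a k3818_A00pp_022_s3 t6592_A00pp_022_s3

theorem t6594_A00pp_022_s3 : ∃ t, chk3 f_A00pp_022_s3 t 592 1953 65 = true := ex3_c k3817_A00pp_022_s3 t6593_A00pp_022_s3

theorem t6595_A00pp_022_s3 : ∃ t, chk3 f_A00pp_022_s3 t 592 976 65 = true := ex3_b k3816_A00pp_022_s3 t6594_A00pp_022_s3

theorem t6596_A00pp_022_s3 : ∃ t, chk3 f_A00pp_022_s3 t 592 488 65 = true := ex3_b t6595_A00pp_022_s3 t6588_A00pp_022_s3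

theorem t6597_A00pp_022_s3 : ∃ t, chk3 f_A00pp_022_s3 t 296 488 65 = true := ex3_a t6596_A00pp_022_s3 t6586_A00pp_022_s3

theorem t6598_A00pp_022_s3 : ∃ t, chk3 f_A00pp_022_s3 t 296 488 32 = true := ex3_c k3815_A00pp_022_s3 t6597_A00pp_022_s3

theorem t6599_A00pp_022_s3 : ∃ t, chk3 f_A00pp_022_s3 t 296 244 32 = true := ex3_b t6598_A00pp_022_s3 t6549_A00pp_022_s3

theorem t6600_A00pp_022_s3 : ∃ t, chk3 f_A00pp_022_s3 t 148 244 32 = true := ex3_a t6599_A00pp_022_s3 t6513_A00pp_022_s3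

theorem t6601_A00pp_022_s3 : ∃ t, chk3 f_A00pp_022_s3 t 74 244 32 = true := ex3_a t6600_A00pp_022_s3 t6418_A00pp_022_s3

theorem t6602_A00pp_022_s3 : ∃ t, chk3 f_A00pp_022_s3 t 74 122 32 = true := ex3_b t6601_A00pp_022_s3 t6392_A00pp_022_s3

theorem t6603_A00pp_022_s3 : ∃ t, chk3 f_A00pp_022_s3 t 74 122 16 = true := ex3_c t6602_A00pp_022_s3 t6337_A00pp_022_s3

theorem t6604_A00pp_022_s3 : ∃ t, chk3 f_A00pp_022_s3 t 74 61 16 = true := ex3_b t6603_A00pp_022_s3 k4220_A00pp_022_s3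

theorem t6605_A00pp_022_s3 : ∃ t, chk3 f_A00pp_022_s3 t 298 487 66 = true := ex3_a k3811_A00pp_022_s3 k3812_A00pp_022_s3

theorem t6606_A00pp_022_s3 : ∃ t, chk3 f_A00pp_022_s3 t 298 487 33 = true := ex3_c t6605_A00pp_022_s3 k3813_A00pp_022_s3

theorem t6607_A00pp_022_s3 : ∃ t, chk3 f_A00pp_022_s3 t 298 486 33 = true := ex3_c k3809_A00pp_022_s3 k3810_A00pp_022_s3

theorem t6608_A00pp_022_s3 : ∃ t, chk3 f_A00pp_022_s3 t 298 243 33 = true := ex3_b t6607_A00pp_022_s3 t6606_A00pp_022_s3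

theorem t6609_A00pp_022_s3 : ∃ t, chk3 f_A00pp_022_s3 t 149 243 33 = true := ex3_a t6608_A00pp_022_s3 k3814_A00pp_022_s3

theorem t6610_A00pp_022_s3 : ∃ t, chk3 f_A00pp_022_s3 t 299 242 67 = true := ex3_a k3807_A00pp_022_s3 k3808_A00pp_022_s3

theorem t6611_A00pp_022_s3 : ∃ t, chk3 f_A00pp_022_s3 t 299 242 66 = true := ex3_a k3805_A00pp_022_s3 k3806_A00pp_022_s3

theorem t6612_A00pp_022_s3 : ∃ t, chk3 f_A00pp_022_s3 t 299 242 33 = true := ex3_c t6611_A00pp_022_s3 t6610_A00pp_022_s3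

theorem t6613_A00pp_022_s3 : ∃ t, chk3 f_A00pp_022_s3 t 149 242 33 = true := ex3_a k3804_A00pp_022_s3 t6612_A00pp_022_s3

theorem t6614_A00pp_022_s3 : ∃ t, chk3 f_A00pp_022_s3 t 149 121 33 = true := ex3_b t6613_A00pp_022_s3 t6609_A00pp_022_s3

theorem t6615_A00pp_022_s3 : ∃ t, chk3 f_A00pp_022_s3 t 598 487 64 = true := ex3_c k3800_A00pp_022_s3 k3801_A00pp_022_s3

theorem t6616_A00pp_022_s3 : ∃ t, chk3 f_A00pp_022_s3 t 299 487 64 = true := ex3_a t6615_A00pp_022_s3 k3802_A00pp_022_s3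

theorem t6617_A00pp_022_s3 : ∃ t, chk3 f_A00pp_022_s3 t 299 487 32 = true := ex3_c t6616_A00pp_022_s3 k3803_A00pp_022_s3

theorem t6618_A00pp_022_s3 : ∃ t, chk3 f_A00pp_022_s3 t 599 486 32 = true := ex3_c k3798_A00pp_022_s3 k3799_A00pp_022_s3

theorem t6619_A00pp_022_s3 : ∃ t, chk3 f_A00pp_022_s3 t 299 486 32 = true := ex3_a k3797_A00pp_022_s3 t6618_A00pp_022_s3

theorem t6620_A00pp_022_s3 : ∃ t, chk3 f_A00pp_022_s3 t 299 243 32 = true := ex3_b t6619_A00pp_022_s3 t6617_A00pp_022_s3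

theorem t6621_A00pp_022_s3 : ∃ t, chk3 f_A00pp_022_s3 t 299 121 32 = true := ex3_b k3796_A00pp_022_s3 t6620_A00pp_022_s3

theorem t6622_A00pp_022_s3 : ∃ t, chk3 f_A00pp_022_s3 t 597 243 65 = true := ex3_c k3794_A00pp_022_s3 k3795_A00pp_022_s3

theorem t6623_A00pp_022_s3 : ∃ t, chk3 f_A00pp_022_s3 t 298 243 65 = true := ex3_a k3793_A00pp_022_s3 t6622_A00pp_022_s3

theorem t6624_A00pp_022_s3 : ∃ t, chk3 f_A00pp_022_s3 t 298 243 64 = true := ex3_a k3791_A00pp_022_s3 k3792_A00pp_022_s3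

theorem t6625_A00pp_022_s3 : ∃ t, chk3 f_A00pp_022_s3 t 298 243 32 = true := ex3_c t6624_A00pp_022_s3 t6623_A00pp_022_s3

theorem t6626_A00pp_022_s3 : ∃ t, chk3 f_A00pp_022_s3 t 298 121 32 = true := ex3_b k3790_A00pp_022_s3 t6625_A00pp_022_s3

theorem t6627_A00pp_022_s3 : ∃ t, chk3 f_A00pp_022_s3 t 149 121 32 = true := ex3_a t6626_A00pp_022_s3 t6621_A00pp_022_s3

theorem t6628_A00pp_022_s3 : ∃ t, chk3 f_A00pp_022_s3 t 149 121 16 = true := ex3_c t6627_A00pp_022_s3 t6614_A00pp_022_s3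

theorem t6629_A00pp_022_s3 : ∃ t, chk3 f_A00pp_022_s3 t 149 60 16 = true := ex3_b k3789_A00pp_022_s3 t6628_A00pp_022_s3

theorem t6630_A00pp_022_s3 : ∃ t, chk3 f_A00pp_022_s3 t 297 121 67 = true := ex3_b k3787_A00pp_022_s3 k3788_A00pp_022_s3

theorem t6631_A00pp_022_s3 : ∃ t, chk3 f_A00pp_022_s3 t 297 121 33 = true := ex3_c k3786_A00pp_022_s3 t6630_A00pp_022_s3

theorem t6632_A00pp_022_s3 : ∃ t, chk3 f_A00pp_022_s3 t 2380 3901 513 = true := ex3_a k3778_A00pp_022_s3 k3779_A00pp_022_s3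

theorem t6633_A00pp_022_s3 : ∃ t, chk3 f_A00pp_022_s3 t 2380 1950 513 = true := ex3_b k3777_A00pp_022_s3 t6632_A00pp_022_s3

theorem t6634_A00pp_022_s3 : ∃ t, chk3 f_A00pp_022_s3 t 2380 1950 512 = true := ex3_b k3775_A00pp_022_s3 k3776_A00pp_022_s3

theorem t6635_A00pp_022_s3 : ∃ t, chk3 f_A00pp_022_s3 t 2380 1950 256 = true := ex3_c t6634_A00pp_022_s3 t6633_A00pp_022_s3

theorem t6636_A00pp_022_s3 : ∃ t, chk3 f_A00pp_022_s3 t 1190 1950 256 = true := ex3_a t6635_A00pp_022_s3 k3780_A00pp_022_s3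

theorem t6637_A00pp_022_s3 : ∃ t, chk3 f_A00pp_022_s3 t 1190 975 256 = true := ex3_b t6636_A00pp_022_s3 k3781_A00pp_022_s3

theorem t6638_A00pp_022_s3 : ∃ t, chk3 f_A00pp_022_s3 t 1190 975 128 = true := ex3_c t6637_A00pp_022_s3 k3782_A00pp_022_s3

theorem t6639_A00pp_022_s3 : ∃ t, chk3 f_A00pp_022_s3 t 1190 487 128 = true := ex3_b k3774_A00pp_022_s3 t6638_A00pp_022_s3

theorem t6640_A00pp_022_s3 : ∃ t, chk3 f_A00pp_022_s3 t 595 487 128 = true := ex3_a t6639_A00pp_022_s3 k3783_A00pp_022_s3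

theorem t6641_A00pp_022_s3 : ∃ t, chk3 f_A00pp_022_s3 t 595 243 128 = true := ex3_b k3773_A00pp_022_s3 t6640_A00pp_022_s3

theorem t6642_A00pp_022_s3 : ∃ t, chk3 f_A00pp_022_s3 t 595 121 128 = true := ex3_b k3772_A00pp_022_s3 t6641_A00pp_022_s3

theorem t6643_A00pp_022_s3 : ∃ t, chk3 f_A00pp_022_s3 t 595 121 64 = true := ex3_c t6642_A00pp_022_s3 k3784_A00pp_022_s3

theorem t6644_A00pp_022_s3 : ∃ t, chk3 f_A00pp_022_s3 t 2378 3902 516 = true := ex3_a k3766_A00pp_022_s3 k3767_A00pp_022_s3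

theorem t6645_A00pp_022_s3 : ∃ t, chk3 f_A00pp_022_s3 t 1189 3902 516 = true := ex3_a t6644_A00pp_022_s3 k3768_A00pp_022_s3

theorem t6646_A00pp_022_s3 : ∃ t, chk3 f_A00pp_022_s3 t 1189 3902 258 = true := ex3_c t6645_A00pp_022_s3 k3769_A00pp_022_s3

theorem t6647_A00pp_022_s3 : ∃ t, chk3 f_A00pp_022_s3 t 1189 1951 258 = true := ex3_b t6646_A00pp_022_s3 k3770_A00pp_022_s3

theorem t6648_A00pp_022_s3 : ∃ t, chk3 f_A00pp_022_s3 t 1189 975 258 = true := ex3_b k3765_A00pp_022_s3 t6647_A00pp_022_s3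

theorem t6649_A00pp_022_s3 : ∃ t, chk3 f_A00pp_022_s3 t 1189 975 129 = true := ex3_c t6648_A00pp_022_s3 k3771_A00pp_022_s3

theorem t6650_A00pp_022_s3 : ∃ t, chk3 f_A00pp_022_s3 t 1189 487 129 = true := ex3_b k3764_A00pp_022_s3 t6649_A00pp_022_s3

theorem t6651_A00pp_022_s3 : ∃ t, chk3 f_A00pp_022_s3 t 2377 1951 518 = true := ex3_b k3761_A00pp_022_s3 k3762_A00pp_022_s3

theorem t6652_A00pp_022_s3 : ∃ t, chk3 f_A00pp_022_s3 t 2377 1951 259 = true := ex3_c t6651_A00pp_022_s3 k3763_A00pp_022_s3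

theorem t6653_A00pp_022_s3 : ∃ t, chk3 f_A00pp_022_s3 t 2376 1951 519 = true := ex3_a k3759_A00pp_022_s3 k3760_A00pp_022_s3

theorem t6654_A00pp_022_s3 : ∃ t, chk3 f_A00pp_022_s3 t 2376 1951 259 = true := ex3_c k3758_A00pp_022_s3 t6653_A00pp_022_s3

theorem t6655_A00pp_022_s3 : ∃ t, chk3 f_A00pp_022_s3 t 1188 1951 259 = true := ex3_a t6654_A00pp_022_s3 t6652_A00pp_022_s3

theorem t6656_A00pp_022_s3 : ∃ t, chk3 f_A00pp_022_s3 t 2377 3903 517 = true := ex3_a k3756_A00pp_022_s3 k3757_A00pp_022_s3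

theorem t6657_A00pp_022_s3 : ∃ t, chk3 f_A00pp_022_s3 t 2377 1951 517 = true := ex3_b k3755_A00pp_022_s3 t6656_A00pp_022_s3

theorem t6658_A00pp_022_s3 : ∃ t, chk3 f_A00pp_022_s3 t 1188 1951 517 = true := ex3_a k3754_A00pp_022_s3 t6657_A00pp_022_s3

theorem t6659_A00pp_022_s3 : ∃ t, chk3 f_A00pp_022_s3 t 1188 1951 258 = true := ex3_c k3753_A00pp_022_s3 t6658_A00pp_022_s3

theorem t6660_A00pp_022_s3 : ∃ t, chk3 f_A00pp_022_s3 t 1188 1951 129 = true := ex3_c t6659_A00pp_022_s3 t6655_A00pp_022_s3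

theorem t6661_A00pp_022_s3 : ∃ t, chk3 f_A00pp_022_s3 t 1188 975 129 = true := ex3_b k3752_A00pp_022_s3 t6660_A00pp_022_s3

theorem t6662_A00pp_022_s3 : ∃ t, chk3 f_A00pp_022_s3 t 1188 487 129 = true := ex3_b k3751_A00pp_022_s3 t6661_A00pp_022_s3

theorem t6663_A00pp_022_s3 : ∃ t, chk3 f_A00pp_022_s3 t 594 487 129 = true := ex3_a t6662_A00pp_022_s3 t6650_A00pp_022_s3

theorem t6664_A00pp_022_s3 : ∃ t, chk3 f_A00pp_022_s3 t 594 243 129 = true := ex3_b k3750_A00pp_022_s3 t6663_A00pp_022_s3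

theorem t6665_A00pp_022_s3 : ∃ t, chk3 f_A00pp_022_s3 t 2379 3902 257 = true := ex3_c k3747_A00pp_022_s3 k3748_A00pp_022_s3

theorem t6666_A00pp_022_s3 : ∃ t, chk3 f_A00pp_022_s3 t 2379 1951 257 = true := ex3_b t6665_A00pp_022_s3 k3749_A00pp_022_s3

theorem t6667_A00pp_022_s3 : ∃ t, chk3 f_A00pp_022_s3 t 1189 1951 257 = true := ex3_a k3746_A00pp_022_s3 t6666_A00pp_022_s3

theorem t6668_A00pp_022_s3 : ∃ t, chk3 f_A00pp_022_s3 t 1189 1951 128 = true := ex3_c k3745_A00pp_022_s3 t6667_A00pp_022_s3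

theorem t6669_A00pp_022_s3 : ∃ t, chk3 f_A00pp_022_s3 t 594 1951 128 = true := ex3_a k3744_A00pp_022_s3 t6668_A00pp_022_s3

theorem t6670_A00pp_022_s3 : ∃ t, chk3 f_A00pp_022_s3 t 2379 1950 514 = true := ex3_a k3741_A00pp_022_s3 k3742_A00pp_022_s3

theorem t6671_A00pp_022_s3 : ∃ t, chk3 f_A00pp_022_s3 t 2379 1950 257 = true := ex3_c t6670_A00pp_022_s3 k3743_A00pp_022_s3

theorem t6672_A00pp_022_s3 : ∃ t, chk3 f_A00pp_022_s3 t 1189 1950 257 = true := ex3_a k3740_A00pp_022_s3 t6671_A00pp_022_s3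

theorem t6673_A00pp_022_s3 : ∃ t, chk3 f_A00pp_022_s3 t 1189 1950 128 = true := ex3_c k3739_A00pp_022_s3 t6672_A00pp_022_s3

theorem t6674_A00pp_022_s3 : ∃ t, chk3 f_A00pp_022_s3 t 594 1950 128 = true := ex3_a k3738_A00pp_022_s3 t6673_A00pp_022_s3

theorem t6675_A00pp_022_s3 : ∃ t, chk3 f_A00pp_022_s3 t 594 975 128 = true := ex3_b t6674_A00pp_022_s3 t6669_A00pp_022_s3

theorem t6676_A00pp_022_s3 : ∃ t, chk3 f_A00pp_022_s3 t 594 487 128 = true := ex3_b k3737_A00pp_022_s3 t6675_A00pp_022_s3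

theorem t6677_A00pp_022_s3 : ∃ t, chk3 f_A00pp_022_s3 t 594 243 128 = true := ex3_b k3736_A00pp_022_s3 t6676_A00pp_022_s3

theorem t6678_A00pp_022_s3 : ∃ t, chk3 f_A00pp_022_s3 t 594 243 64 = true := ex3_c t6677_A00pp_022_s3 t6664_A00pp_022_s3

theorem t6679_A00pp_022_s3 : ∃ t, chk3 f_A00pp_022_s3 t 594 121 64 = true := ex3_b k3735_A00pp_022_s3 t6678_A00pp_022_s3

theorem t6680_A00pp_022_s3 : ∃ t, chk3 f_A00pp_022_s3 t 297 121 64 = true := ex3_a t6679_A00pp_022_s3 t6643_A00pp_022_s3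

theorem t6681_A00pp_022_s3 : ∃ t, chk3 f_A00pp_022_s3 t 297 121 32 = true := ex3_c t6680_A00pp_022_s3 k3785_A00pp_022_s3

theorem t6682_A00pp_022_s3 : ∃ t, chk3 f_A00pp_022_s3 t 297 121 16 = true := ex3_c t6681_A00pp_022_s3 t6631_A00pp_022_s3

theorem t6683_A00pp_022_s3 : ∃ t, chk3 f_A00pp_022_s3 t 592 243 132 = true := ex3_a k3730_A00pp_022_s3 k3731_A00pp_022_s3

theorem t6684_A00pp_022_s3 : ∃ t, chk3 f_A00pp_022_s3 t 592 121 132 = true := ex3_b k3729_A00pp_022_s3 t6683_A00pp_022_s3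

theorem t6685_A00pp_022_s3 : ∃ t, chk3 f_A00pp_022_s3 t 592 121 66 = true := ex3_c t6684_A00pp_022_s3 k3732_A00pp_022_s3

theorem t6686_A00pp_022_s3 : ∃ t, chk3 f_A00pp_022_s3 t 296 121 66 = true := ex3_a t6685_A00pp_022_s3 k3733_A00pp_022_s3

theorem t6687_A00pp_022_s3 : ∃ t, chk3 f_A00pp_022_s3 t 296 121 33 = true := ex3_c t6686_A00pp_022_s3 k3734_A00pp_022_s3

theorem t6688_A00pp_022_s3 : ∃ t, chk3 f_A00pp_022_s3 t 1186 243 131 = true := ex3_b k3726_A00pp_022_s3 k3727_A00pp_022_s3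

theorem t6689_A00pp_022_s3 : ∃ t, chk3 f_A00pp_022_s3 t 1186 121 131 = true := ex3_b k3725_A00pp_022_s3 t6688_A00pp_022_s3

theorem t6690_A00pp_022_s3 : ∃ t, chk3 f_A00pp_022_s3 t 593 121 131 = true := ex3_a t6689_A00pp_022_s3 k3728_A00pp_022_s3

theorem t6691_A00pp_022_s3 : ∃ t, chk3 f_A00pp_022_s3 t 1187 487 260 = true := ex3_b k3722_A00pp_022_s3 k3723_A00pp_022_s3

theorem t6692_A00pp_022_s3 : ∃ t, chk3 f_A00pp_022_s3 t 1187 487 130 = true := ex3_c t6691_A00pp_022_s3 k3724_A00pp_022_s3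

theorem t6693_A00pp_022_s3 : ∃ t, chk3 f_A00pp_022_s3 t 1187 243 130 = true := ex3_b k3721_A00pp_022_s3 t6692_A00pp_022_s3

theorem t6694_A00pp_022_s3 : ∃ t, chk3 f_A00pp_022_s3 t 593 243 130 = true := ex3_a k3720_A00pp_022_s3 t6693_A00pp_022_s3

theorem t6695_A00pp_022_s3 : ∃ t, chk3 f_A00pp_022_s3 t 593 121 130 = true := ex3_b k3719_A00pp_022_s3 t6694_A00pp_022_s3

theorem t6696_A00pp_022_s3 : ∃ t, chk3 f_A00pp_022_s3 t 593 121 65 = true := ex3_c t6695_A00pp_022_s3 t6690_A00pp_022_s3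

theorem t6697_A00pp_022_s3 : ∃ t, chk3 f_A00pp_022_s3 t 296 121 65 = true := ex3_a k3718_A00pp_022_s3 t6696_A00pp_022_s3

theorem t6698_A00pp_022_s3 : ∃ t, chk3 f_A00pp_022_s3 t 593 3903 129 = true := ex3_a k3716_A00pp_022_s3 k3717_A00pp_022_s3

theorem t6699_A00pp_022_s3 : ∃ t, chk3 f_A00pp_022_s3 t 593 3903 64 = true := ex3_c k3715_A00pp_022_s3 t6698_A00pp_022_s3

theorem t6700_A00pp_022_s3 : ∃ t, chk3 f_A00pp_022_s3 t 593 1951 64 = true := ex3_b k3714_A00pp_022_s3 t6699_A00pp_022_s3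

theorem t6701_A00pp_022_s3 : ∃ t, chk3 f_A00pp_022_s3 t 296 1951 64 = true := ex3_a k3713_A00pp_022_s3 t6700_A00pp_022_s3

theorem t6702_A00pp_022_s3 : ∃ t, chk3 f_A00pp_022_s3 t 296 975 64 = true := ex3_b k3712_A00pp_022_s3 t6701_A00pp_022_s3

theorem t6703_A00pp_022_s3 : ∃ t, chk3 f_A00pp_022_s3 t 296 487 64 = true := ex3_b k3711_A00pp_022_s3 t6702_A00pp_022_s3

theorem t6704_A00pp_022_s3 : ∃ t, chk3 f_A00pp_022_s3 t 296 243 64 = true := ex3_b k3710_A00pp_022_s3 t6703_A00pp_022_s3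

theorem t6705_A00pp_022_s3 : ∃ t, chk3 f_A00pp_022_s3 t 296 121 64 = true := ex3_b k3709_A00pp_022_s3 t6704_A00pp_022_s3

theorem t6706_A00pp_022_s3 : ∃ t, chk3 f_A00pp_022_s3 t 296 121 32 = true := ex3_c t6705_A00pp_022_s3 t6697_A00pp_022_s3

theorem t6707_A00pp_022_s3 : ∃ t, chk3 f_A00pp_022_s3 t 296 121 16 = true := ex3_c t6706_A00pp_022_s3 t6687_A00pp_022_s3

theorem t6708_A00pp_022_s3 : ∃ t, chk3 f_A00pp_022_s3 t 148 121 16 = true := ex3_a t6707_A00pp_022_s3 t6682_A00pp_022_s3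

theorem t6709_A00pp_022_s3 : ∃ t, chk3 f_A00pp_022_s3 t 296 120 16 = true := ex3_c k3706_A00pp_022_s3 k3707_A00pp_022_s3

theorem t6710_A00pp_022_s3 : ∃ t, chk3 f_A00pp_022_s3 t 148 120 16 = true := ex3_a t6709_A00pp_022_s3 k3708_A00pp_022_s3

theorem t6711_A00pp_022_s3 : ∃ t, chk3 f_A00pp_022_s3 t 148 60 16 = true := ex3_b t6710_A00pp_022_s3 t6708_A00pp_022_s3

theorem t6712_A00pp_022_s3 : ∃ t, chk3 f_A00pp_022_s3 t 74 60 16 = true := ex3_a t6711_A00pp_022_s3 t6629_A00pp_022_s3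

theorem t6713_A00pp_022_s3 : ∃ t, chk3 f_A00pp_022_s3 t 74 30 16 = true := ex3_b t6712_A00pp_022_s3 t6604_A00pp_022_s3

theorem t6714_A00pp_022_s3 : ∃ t, chk3 f_A00pp_022_s3 t 74 30 8 = true := ex3_c t6713_A00pp_022_s3 t6199_A00pp_022_s3

theorem t6715_A00pp_022_s3 : ∃ t, chk3 f_A00pp_022_s3 t 74 30 4 = true := ex3_c t6714_A00pp_022_s3 t6041_A00pp_022_s3

theorem t6716_A00pp_022_s3 : ∃ t, chk3 f_A00pp_022_s3 t 37 30 4 = true := ex3_a t6715_A00pp_022_s3 t5830_A00pp_022_s3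

theorem t6717_A00pp_022_s3 : ∃ t, chk3 f_A00pp_022_s3 t 37 30 2 = true := ex3_c t6716_A00pp_022_s3 t5546_A00pp_022_s3

theorem t6718_A00pp_022_s3 : ∃ t, chk3 f_A00pp_022_s3 t 294 984 11 = true := ex3_a k3700_A00pp_022_s3 k3701_A00pp_022_s3

theorem t6719_A00pp_022_s3 : ∃ t, chk3 f_A00pp_022_s3 t 294 492 11 = true := ex3_b t6718_A00pp_022_s3 k3702_A00pp_022_s3

theorem t6720_A00pp_022_s3 : ∃ t, chk3 f_A00pp_022_s3 t 294 246 11 = true := ex3_b t6719_A00pp_022_s3 k3703_A00pp_022_s3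

theorem t6721_A00pp_022_s3 : ∃ t, chk3 f_A00pp_022_s3 t 147 246 11 = true := ex3_a t6720_A00pp_022_s3 k3704_A00pp_022_s3

theorem t6722_A00pp_022_s3 : ∃ t, chk3 f_A00pp_022_s3 t 292 986 11 = true := ex3_a k3696_A00pp_022_s3 k3697_A00pp_022_s3

theorem t6723_A00pp_022_s3 : ∃ t, chk3 f_A00pp_022_s3 t 292 493 11 = true := ex3_b t6722_A00pp_022_s3 k3698_A00pp_022_s3

theorem t6724_A00pp_022_s3 : ∃ t, chk3 f_A00pp_022_s3 t 146 493 11 = true := ex3_a t6723_A00pp_022_s3 k3699_A00pp_022_s3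

theorem t6725_A00pp_022_s3 : ∃ t, chk3 f_A00pp_022_s3 t 293 985 11 = true := ex3_a k3694_A00pp_022_s3 k3695_A00pp_022_s3

theorem t6726_A00pp_022_s3 : ∃ t, chk3 f_A00pp_022_s3 t 293 492 11 = true := ex3_b k3693_A00pp_022_s3 t6725_A00pp_022_s3

theorem t6727_A00pp_022_s3 : ∃ t, chk3 f_A00pp_022_s3 t 146 492 11 = true := ex3_a k3692_A00pp_022_s3 t6726_A00pp_022_s3

theorem t6728_A00pp_022_s3 : ∃ t, chk3 f_A00pp_022_s3 t 146 246 11 = true := ex3_b t6727_A00pp_022_s3 t6724_A00pp_022_s3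

theorem t6729_A00pp_022_s3 : ∃ t, chk3 f_A00pp_022_s3 t 73 246 11 = true := ex3_a t6728_A00pp_022_s3 t6721_A00pp_022_s3

theorem t6730_A00pp_022_s3 : ∃ t, chk3 f_A00pp_022_s3 t 73 123 11 = true := ex3_b t6729_A00pp_022_s3 k3705_A00pp_022_s3

theorem t6731_A00pp_022_s3 : ∃ t, chk3 f_A00pp_022_s3 t 295 983 11 = true := ex3_a k3690_A00pp_022_s3 k3691_A00pp_022_s3

theorem t6732_A00pp_022_s3 : ∃ t, chk3 f_A00pp_022_s3 t 295 491 11 = true := ex3_b k3689_A00pp_022_s3 t6731_A00pp_022_s3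

theorem t6733_A00pp_022_s3 : ∃ t, chk3 f_A00pp_022_s3 t 147 491 11 = true := ex3_a k3688_A00pp_022_s3 t6732_A00pp_022_s3

theorem t6734_A00pp_022_s3 : ∃ t, chk3 f_A00pp_022_s3 t 147 245 11 = true := ex3_b k3687_A00pp_022_s3 t6733_A00pp_022_s3

theorem t6735_A00pp_022_s3 : ∃ t, chk3 f_A00pp_022_s3 t 73 245 11 = true := ex3_a k3686_A00pp_022_s3 t6734_A00pp_022_s3

theorem t6736_A00pp_022_s3 : ∃ t, chk3 f_A00pp_022_s3 t 73 122 11 = true := ex3_b k3685_A00pp_022_s3 t6735_A00pp_022_s3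

theorem t6737_A00pp_022_s3 : ∃ t, chk3 f_A00pp_022_s3 t 73 61 11 = true := ex3_b t6736_A00pp_022_s3 t6730_A00pp_022_s3

theorem t6738_A00pp_022_s3 : ∃ t, chk3 f_A00pp_022_s3 t 294 984 10 = true := ex3_a k3679_A00pp_022_s3 k3680_A00pp_022_s3

theorem t6739_A00pp_022_s3 : ∃ t, chk3 f_A00pp_022_s3 t 294 492 10 = true := ex3_b t6738_A00pp_022_s3 k3681_A00pp_022_s3

theorem t6740_A00pp_022_s3 : ∃ t, chk3 f_A00pp_022_s3 t 294 246 10 = true := ex3_b t6739_A00pp_022_s3 k3682_A00pp_022_s3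

theorem t6741_A00pp_022_s3 : ∃ t, chk3 f_A00pp_022_s3 t 147 246 10 = true := ex3_a t6740_A00pp_022_s3 k3683_A00pp_022_s3

theorem t6742_A00pp_022_s3 : ∃ t, chk3 f_A00pp_022_s3 t 292 986 10 = true := ex3_a k3675_A00pp_022_s3 k3676_A00pp_022_s3

theorem t6743_A00pp_022_s3 : ∃ t, chk3 f_A00pp_022_s3 t 292 493 10 = true := ex3_b t6742_A00pp_022_s3 k3677_A00pp_022_s3

theorem t6744_A00pp_022_s3 : ∃ t, chk3 f_A00pp_022_s3 t 146 493 10 = true := ex3_a t6743_A00pp_022_s3 k3678_A00pp_022_s3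

theorem t6745_A00pp_022_s3 : ∃ t, chk3 f_A00pp_022_s3 t 293 985 10 = true := ex3_a k3673_A00pp_022_s3 k3674_A00pp_022_s3

theorem t6746_A00pp_022_s3 : ∃ t, chk3 f_A00pp_022_s3 t 293 492 10 = true := ex3_b k3672_A00pp_022_s3 t6745_A00pp_022_s3

theorem t6747_A00pp_022_s3 : ∃ t, chk3 f_A00pp_022_s3 t 1168 1971 160 = true := ex3_a k3664_A00pp_022_s3 k3665_A00pp_022_s3

theorem t6748_A00pp_022_s3 : ∃ t, chk3 f_A00pp_022_s3 t 1168 1971 80 = true := ex3_c t6747_A00pp_022_s3 k3666_A00pp_022_s3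

theorem t6749_A00pp_022_s3 : ∃ t, chk3 f_A00pp_022_s3 t 584 1971 80 = true := ex3_a t6748_A00pp_022_s3 k3667_A00pp_022_s3

theorem t6750_A00pp_022_s3 : ∃ t, chk3 f_A00pp_022_s3 t 1168 1970 160 = true := ex3_a k3660_A00pp_022_s3 k3661_A00pp_022_s3

theorem t6751_A00pp_022_s3 : ∃ t, chk3 f_A00pp_022_s3 t 1168 1970 80 = true := ex3_c t6750_A00pp_022_s3 k3662_A00pp_022_s3

theorem t6752_A00pp_022_s3 : ∃ t, chk3 f_A00pp_022_s3 t 584 1970 80 = true := ex3_a t6751_A00pp_022_s3 k3663_A00pp_022_s3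

theorem t6753_A00pp_022_s3 : ∃ t, chk3 f_A00pp_022_s3 t 584 985 80 = true := ex3_b t6752_A00pp_022_s3 t6749_A00pp_022_s3

theorem t6754_A00pp_022_s3 : ∃ t, chk3 f_A00pp_022_s3 t 584 985 40 = true := ex3_c t6753_A00pp_022_s3 k3668_A00pp_022_s3

theorem t6755_A00pp_022_s3 : ∃ t, chk3 f_A00pp_022_s3 t 292 985 40 = true := ex3_a t6754_A00pp_022_s3 k3669_A00pp_022_s3

theorem t6756_A00pp_022_s3 : ∃ t, chk3 f_A00pp_022_s3 t 584 984 161 = true := ex3_b k3656_A00pp_022_s3 k3657_A00pp_022_s3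

theorem t6757_A00pp_022_s3 : ∃ t, chk3 f_A00pp_022_s3 t 1169 984 160 = true := ex3_b k3654_A00pp_022_s3 k3655_A00pp_022_s3

theorem t6758_A00pp_022_s3 : ∃ t, chk3 f_A00pp_022_s3 t 584 984 160 = true := ex3_a k3653_A00pp_022_s3 t6757_A00pp_022_s3

theorem t6759_A00pp_022_s3 : ∃ t, chk3 f_A00pp_022_s3 t 584 984 80 = true := ex3_c t6758_A00pp_022_s3 t6756_A00pp_022_s3

theorem t6760_A00pp_022_s3 : ∃ t, chk3 f_A00pp_022_s3 t 292 984 80 = true := ex3_a t6759_A00pp_022_s3 k3658_A00pp_022_s3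

theorem t6761_A00pp_022_s3 : ∃ t, chk3 f_A00pp_022_s3 t 292 984 40 = true := ex3_c t6760_A00pp_022_s3 k3659_A00pp_022_s3

theorem t6762_A00pp_022_s3 : ∃ t, chk3 f_A00pp_022_s3 t 292 492 40 = true := ex3_b t6761_A00pp_022_s3 t6755_A00pp_022_s3

theorem t6763_A00pp_022_s3 : ∃ t, chk3 f_A00pp_022_s3 t 292 492 20 = true := ex3_c t6762_A00pp_022_s3 k3670_A00pp_022_s3

theorem t6764_A00pp_022_s3 : ∃ t, chk3 f_A00pp_022_s3 t 292 492 10 = true := ex3_c t6763_A00pp_022_s3 k3671_A00pp_022_s3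

theorem t6765_A00pp_022_s3 : ∃ t, chk3 f_A00pp_022_s3 t 146 492 10 = true := ex3_a t6764_A00pp_022_s3 t6746_A00pp_022_s3

theorem t6766_A00pp_022_s3 : ∃ t, chk3 f_A00pp_022_s3 t 146 246 10 = true := ex3_b t6765_A00pp_022_s3 t6744_A00pp_022_s3

theorem t6767_A00pp_022_s3 : ∃ t, chk3 f_A00pp_022_s3 t 73 246 10 = true := ex3_a t6766_A00pp_022_s3 t6741_A00pp_022_s3

theorem t6768_A00pp_022_s3 : ∃ t, chk3 f_A00pp_022_s3 t 73 123 10 = true := ex3_b t6767_A00pp_022_s3 k3684_A00pp_022_s3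

theorem t6769_A00pp_022_s3 : ∃ t, chk3 f_A00pp_022_s3 t 292 244 42 = true := ex3_b k3647_A00pp_022_s3 k3648_A00pp_022_s3

theorem t6770_A00pp_022_s3 : ∃ t, chk3 f_A00pp_022_s3 t 292 244 21 = true := ex3_c t6769_A00pp_022_s3 k3649_A00pp_022_s3

theorem t6771_A00pp_022_s3 : ∃ t, chk3 f_A00pp_022_s3 t 146 244 21 = true := ex3_a t6770_A00pp_022_s3 k3650_A00pp_022_s3

theorem t6772_A00pp_022_s3 : ∃ t, chk3 f_A00pp_022_s3 t 73 244 21 = true := ex3_a t6771_A00pp_022_s3 k3651_A00pp_022_s3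

theorem t6773_A00pp_022_s3 : ∃ t, chk3 f_A00pp_022_s3 t 73 122 21 = true := ex3_b t6772_A00pp_022_s3 k3652_A00pp_022_s3

theorem t6774_A00pp_022_s3 : ∃ t, chk3 f_A00pp_022_s3 t 294 488 40 = true := ex3_a k3641_A00pp_022_s3 k3642_A00pp_022_s3

theorem t6775_A00pp_022_s3 : ∃ t, chk3 f_A00pp_022_s3 t 294 244 40 = true := ex3_b t6774_A00pp_022_s3 k3643_A00pp_022_s3

theorem t6776_A00pp_022_s3 : ∃ t, chk3 f_A00pp_022_s3 t 294 244 20 = true := ex3_c t6775_A00pp_022_s3 k3644_A00pp_022_s3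

theorem t6777_A00pp_022_s3 : ∃ t, chk3 f_A00pp_022_s3 t 147 244 20 = true := ex3_a t6776_A00pp_022_s3 k3645_A00pp_022_s3

theorem t6778_A00pp_022_s3 : ∃ t, chk3 f_A00pp_022_s3 t 147 122 20 = true := ex3_b t6777_A00pp_022_s3 k3646_A00pp_022_s3

theorem t6779_A00pp_022_s3 : ∃ t, chk3 f_A00pp_022_s3 t 584 983 81 = true := ex3_b k3636_A00pp_022_s3 k3637_A00pp_022_s3

theorem t6780_A00pp_022_s3 : ∃ t, chk3 f_A00pp_022_s3 t 292 983 81 = true := ex3_a t6779_A00pp_022_s3 k3638_A00pp_022_s3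

theorem t6781_A00pp_022_s3 : ∃ t, chk3 f_A00pp_022_s3 t 1170 983 80 = true := ex3_b k3633_A00pp_022_s3 k3634_A00pp_022_s3

theorem t6782_A00pp_022_s3 : ∃ t, chk3 f_A00pp_022_s3 t 585 983 80 = true := ex3_a t6781_A00pp_022_s3 k3635_A00pp_022_s3

theorem t6783_A00pp_022_s3 : ∃ t, chk3 f_A00pp_022_s3 t 292 983 80 = true := ex3_a k3632_A00pp_022_s3 t6782_A00pp_022_s3

theorem t6784_A00pp_022_s3 : ∃ t, chk3 f_A00pp_022_s3 t 292 983 40 = true := ex3_c t6783_A00pp_022_s3 t6780_A00pp_022_s3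

theorem t6785_A00pp_022_s3 : ∃ t, chk3 f_A00pp_022_s3 t 585 982 80 = true := ex3_a k3629_A00pp_022_s3 k3630_A00pp_022_s3

theorem t6786_A00pp_022_s3 : ∃ t, chk3 f_A00pp_022_s3 t 585 982 40 = true := ex3_c t6785_A00pp_022_s3 k3631_A00pp_022_s3

theorem t6787_A00pp_022_s3 : ∃ t, chk3 f_A00pp_022_s3 t 584 982 40 = true := ex3_c k3627_A00pp_022_s3 k3628_A00pp_022_s3

theorem t6788_A00pp_022_s3 : ∃ t, chk3 f_A00pp_022_s3 t 292 982 40 = true := ex3_a t6787_A00pp_022_s3 t6786_A00pp_022_s3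

theorem t6789_A00pp_022_s3 : ∃ t, chk3 f_A00pp_022_s3 t 292 491 40 = true := ex3_b t6788_A00pp_022_s3 t6784_A00pp_022_s3

theorem t6790_A00pp_022_s3 : ∃ t, chk3 f_A00pp_022_s3 t 292 491 20 = true := ex3_c t6789_A00pp_022_s3 k3639_A00pp_022_s3

theorem t6791_A00pp_022_s3 : ∃ t, chk3 f_A00pp_022_s3 t 146 491 20 = true := ex3_a t6790_A00pp_022_s3 k3640_A00pp_022_s3

theorem t6792_A00pp_022_s3 : ∃ t, chk3 f_A00pp_022_s3 t 586 490 80 = true := ex3_b k3622_A00pp_022_s3 k3623_A00pp_022_s3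

theorem t6793_A00pp_022_s3 : ∃ t, chk3 f_A00pp_022_s3 t 586 490 40 = true := ex3_c t6792_A00pp_022_s3 k3624_A00pp_022_s3

theorem t6794_A00pp_022_s3 : ∃ t, chk3 f_A00pp_022_s3 t 293 490 40 = true := ex3_a t6793_A00pp_022_s3 k3625_A00pp_022_s3

theorem t6795_A00pp_022_s3 : ∃ t, chk3 f_A00pp_022_s3 t 293 490 20 = true := ex3_c t6794_A00pp_022_s3 k3626_A00pp_022_s3

theorem t6796_A00pp_022_s3 : ∃ t, chk3 f_A00pp_022_s3 t 292 490 41 = true := ex3_b k3620_A00pp_022_s3 k3621_A00pp_022_s3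

theorem t6797_A00pp_022_s3 : ∃ t, chk3 f_A00pp_022_s3 t 585 490 81 = true := ex3_b k3618_A00pp_022_s3 k3619_A00pp_022_s3

theorem t6798_A00pp_022_s3 : ∃ t, chk3 f_A00pp_022_s3 t 585 490 40 = true := ex3_c k3617_A00pp_022_s3 t6797_A00pp_022_s3

theorem t6799_A00pp_022_s3 : ∃ t, chk3 f_A00pp_022_s3 t 292 490 40 = true := ex3_a k3616_A00pp_022_s3 t6798_A00pp_022_s3

theorem t6800_A00pp_022_s3 : ∃ t, chk3 f_A00pp_022_s3 t 292 490 20 = true := ex3_c t6799_A00pp_022_s3 t6796_A00pp_022_s3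

theorem t6801_A00pp_022_s3 : ∃ t, chk3 f_A00pp_022_s3 t 146 490 20 = true := ex3_a t6800_A00pp_022_s3 t6795_A00pp_022_s3

theorem t6802_A00pp_022_s3 : ∃ t, chk3 f_A00pp_022_s3 t 146 245 20 = true := ex3_b t6801_A00pp_022_s3 t6791_A00pp_022_s3

theorem t6803_A00pp_022_s3 : ∃ t, chk3 f_A00pp_022_s3 t 293 244 41 = true := ex3_a k3614_A00pp_022_s3 k3615_A00pp_022_s3

theorem t6804_A00pp_022_s3 : ∃ t, chk3 f_A00pp_022_s3 t 293 489 81 = true := ex3_b k3612_A00pp_022_s3 k3613_A00pp_022_s3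

theorem t6805_A00pp_022_s3 : ∃ t, chk3 f_A00pp_022_s3 t 293 489 40 = true := ex3_c k3611_A00pp_022_s3 t6804_A00pp_022_s3

theorem t6806_A00pp_022_s3 : ∃ t, chk3 f_A00pp_022_s3 t 293 244 40 = true := ex3_b k3610_A00pp_022_s3 t6805_A00pp_022_s3

theorem t6807_A00pp_022_s3 : ∃ t, chk3 f_A00pp_022_s3 t 293 244 20 = true := ex3_c t6806_A00pp_022_s3 t6803_A00pp_022_s3

theorem t6808_A00pp_022_s3 : ∃ t, chk3 f_A00pp_022_s3 t 292 489 41 = true := ex3_a k3608_A00pp_022_s3 k3609_A00pp_022_s3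

theorem t6809_A00pp_022_s3 : ∃ t, chk3 f_A00pp_022_s3 t 292 244 41 = true := ex3_b k3607_A00pp_022_s3 t6808_A00pp_022_s3

theorem t6810_A00pp_022_s3 : ∃ t, chk3 f_A00pp_022_s3 t 292 244 20 = true := ex3_c k3606_A00pp_022_s3 t6809_A00pp_022_s3

theorem t6811_A00pp_022_s3 : ∃ t, chk3 f_A00pp_022_s3 t 146 244 20 = true := ex3_a t6810_A00pp_022_s3 t6807_A00pp_022_s3

theorem t6812_A00pp_022_s3 : ∃ t, chk3 f_A00pp_022_s3 t 146 122 20 = true := ex3_b t6811_A00pp_022_s3 t6802_A00pp_022_s3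

theorem t6813_A00pp_022_s3 : ∃ t, chk3 f_A00pp_022_s3 t 73 122 20 = true := ex3_a t6812_A00pp_022_s3 t6778_A00pp_022_s3

theorem t6814_A00pp_022_s3 : ∃ t, chk3 f_A00pp_022_s3 t 73 122 10 = true := ex3_c t6813_A00pp_022_s3 t6773_A00pp_022_s3

theorem t6815_A00pp_022_s3 : ∃ t, chk3 f_A00pp_022_s3 t 73 61 10 = true := ex3_b t6814_A00pp_022_s3 t6768_A00pp_022_s3

theorem t6816_A00pp_022_s3 : ∃ t, chk3 f_A00pp_022_s3 t 73 61 5 = true := ex3_c t6815_A00pp_022_s3 t6737_A00pp_022_s3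

theorem t6817_A00pp_022_s3 : ∃ t, chk3 f_A00pp_022_s3 t 581 988 11 = true := ex3_a k3601_A00pp_022_s3 k3602_A00pp_022_s3

theorem t6818_A00pp_022_s3 : ∃ t, chk3 f_A00pp_022_s3 t 290 988 11 = true := ex3_a k3600_A00pp_022_s3 t6817_A00pp_022_s3

theorem t6819_A00pp_022_s3 : ∃ t, chk3 f_A00pp_022_s3 t 290 494 11 = true := ex3_b t6818_A00pp_022_s3 k3603_A00pp_022_s3

theorem t6820_A00pp_022_s3 : ∃ t, chk3 f_A00pp_022_s3 t 290 247 11 = true := ex3_b t6819_A00pp_022_s3 k3604_A00pp_022_s3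

theorem t6821_A00pp_022_s3 : ∃ t, chk3 f_A00pp_022_s3 t 145 247 11 = true := ex3_a t6820_A00pp_022_s3 k3605_A00pp_022_s3

theorem t6822_A00pp_022_s3 : ∃ t, chk3 f_A00pp_022_s3 t 583 987 11 = true := ex3_a k3598_A00pp_022_s3 k3599_A00pp_022_s3

theorem t6823_A00pp_022_s3 : ∃ t, chk3 f_A00pp_022_s3 t 291 987 11 = true := ex3_a k3597_A00pp_022_s3 t6822_A00pp_022_s3

theorem t6824_A00pp_022_s3 : ∃ t, chk3 f_A00pp_022_s3 t 291 493 11 = true := ex3_b k3596_A00pp_022_s3 t6823_A00pp_022_s3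

theorem t6825_A00pp_022_s3 : ∃ t, chk3 f_A00pp_022_s3 t 145 493 11 = true := ex3_a k3595_A00pp_022_s3 t6824_A00pp_022_s3

theorem t6826_A00pp_022_s3 : ∃ t, chk3 f_A00pp_022_s3 t 145 246 11 = true := ex3_b k3594_A00pp_022_s3 t6825_A00pp_022_s3

theorem t6827_A00pp_022_s3 : ∃ t, chk3 f_A00pp_022_s3 t 145 123 11 = true := ex3_b t6826_A00pp_022_s3 t6821_A00pp_022_s3

theorem t6828_A00pp_022_s3 : ∃ t, chk3 f_A00pp_022_s3 t 577 990 11 = true := ex3_b k3590_A00pp_022_s3 k3591_A00pp_022_s3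

theorem t6829_A00pp_022_s3 : ∃ t, chk3 f_A00pp_022_s3 t 577 495 11 = true := ex3_b t6828_A00pp_022_s3 k3592_A00pp_022_s3

theorem t6830_A00pp_022_s3 : ∃ t, chk3 f_A00pp_022_s3 t 576 991 11 = true := ex3_c k3588_A00pp_022_s3 k3589_A00pp_022_s3

theorem t6831_A00pp_022_s3 : ∃ t, chk3 f_A00pp_022_s3 t 576 495 11 = true := ex3_b k3587_A00pp_022_s3 t6830_A00pp_022_s3

theorem t6832_A00pp_022_s3 : ∃ t, chk3 f_A00pp_022_s3 t 288 495 11 = true := ex3_a t6831_A00pp_022_s3 t6829_A00pp_022_s3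

theorem t6833_A00pp_022_s3 : ∃ t, chk3 f_A00pp_022_s3 t 144 495 11 = true := ex3_a t6832_A00pp_022_s3 k3593_A00pp_022_s3

theorem t6834_A00pp_022_s3 : ∃ t, chk3 f_A00pp_022_s3 t 289 1979 11 = true := ex3_a k3585_A00pp_022_s3 k3586_A00pp_022_s3

theorem t6835_A00pp_022_s3 : ∃ t, chk3 f_A00pp_022_s3 t 289 989 11 = true := ex3_b k3584_A00pp_022_s3 t6834_A00pp_022_s3

theorem t6836_A00pp_022_s3 : ∃ t, chk3 f_A00pp_022_s3 t 289 494 11 = true := ex3_b k3583_A00pp_022_s3 t6835_A00pp_022_s3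

theorem t6837_A00pp_022_s3 : ∃ t, chk3 f_A00pp_022_s3 t 144 494 11 = true := ex3_a k3582_A00pp_022_s3 t6836_A00pp_022_s3

theorem t6838_A00pp_022_s3 : ∃ t, chk3 f_A00pp_022_s3 t 144 247 11 = true := ex3_b t6837_A00pp_022_s3 t6833_A00pp_022_s3

theorem t6839_A00pp_022_s3 : ∃ t, chk3 f_A00pp_022_s3 t 288 492 44 = true := ex3_a k3576_A00pp_022_s3 k3577_A00pp_022_s3

theorem t6840_A00pp_022_s3 : ∃ t, chk3 f_A00pp_022_s3 t 288 492 22 = true := ex3_c t6839_A00pp_022_s3 k3578_A00pp_022_s3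

theorem t6841_A00pp_022_s3 : ∃ t, chk3 f_A00pp_022_s3 t 144 492 22 = true := ex3_a t6840_A00pp_022_s3 k3579_A00pp_022_s3

theorem t6842_A00pp_022_s3 : ∃ t, chk3 f_A00pp_022_s3 t 144 246 22 = true := ex3_b t6841_A00pp_022_s3 k3580_A00pp_022_s3

theorem t6843_A00pp_022_s3 : ∃ t, chk3 f_A00pp_022_s3 t 144 246 11 = true := ex3_c t6842_A00pp_022_s3 k3581_A00pp_022_s3

theorem t6844_A00pp_022_s3 : ∃ t, chk3 f_A00pp_022_s3 t 144 123 11 = true := ex3_b t6843_A00pp_022_s3 t6838_A00pp_022_s3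

theorem t6845_A00pp_022_s3 : ∃ t, chk3 f_A00pp_022_s3 t 72 123 11 = true := ex3_a t6844_A00pp_022_s3 t6827_A00pp_022_s3

theorem t6846_A00pp_022_s3 : ∃ t, chk3 f_A00pp_022_s3 t 290 494 21 = true := ex3_b k3572_A00pp_022_s3 k3573_A00pp_022_s3

theorem t6847_A00pp_022_s3 : ∃ t, chk3 f_A00pp_022_s3 t 145 494 21 = true := ex3_a t6846_A00pp_022_s3 k3574_A00pp_022_s3

theorem t6848_A00pp_022_s3 : ∃ t, chk3 f_A00pp_022_s3 t 145 247 21 = true := ex3_b t6847_A00pp_022_s3 k3575_A00pp_022_s3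

theorem t6849_A00pp_022_s3 : ∃ t, chk3 f_A00pp_022_s3 t 580 492 84 = true := ex3_b k3565_A00pp_022_s3 k3566_A00pp_022_s3

theorem t6850_A00pp_022_s3 : ∃ t, chk3 f_A00pp_022_s3 t 580 492 42 = true := ex3_c t6849_A00pp_022_s3 k3567_A00pp_022_s3

theorem t6851_A00pp_022_s3 : ∃ t, chk3 f_A00pp_022_s3 t 290 492 42 = true := ex3_a t6850_A00pp_022_s3 k3568_A00pp_022_s3

theorem t6852_A00pp_022_s3 : ∃ t, chk3 f_A00pp_022_s3 t 145 492 42 = true := ex3_a t6851_A00pp_022_s3 k3569_A00pp_022_s3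

theorem t6853_A00pp_022_s3 : ∃ t, chk3 f_A00pp_022_s3 t 145 492 21 = true := ex3_c t6852_A00pp_022_s3 k3570_A00pp_022_s3

theorem t6854_A00pp_022_s3 : ∃ t, chk3 f_A00pp_022_s3 t 145 246 21 = true := ex3_b t6853_A00pp_022_s3 k3571_A00pp_022_s3

theorem t6855_A00pp_022_s3 : ∃ t, chk3 f_A00pp_022_s3 t 145 123 21 = true := ex3_b t6854_A00pp_022_s3 t6848_A00pp_022_s3

theorem t6856_A00pp_022_s3 : ∃ t, chk3 f_A00pp_022_s3 t 1161 988 82 = true := ex3_b k3558_A00pp_022_s3 k3559_A00pp_022_s3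

theorem t6857_A00pp_022_s3 : ∃ t, chk3 f_A00pp_022_s3 t 2320 1976 330 = true := ex3_b k3553_A00pp_022_s3 k3554_A00pp_022_s3

theorem t6858_A00pp_022_s3 : ∃ t, chk3 f_A00pp_022_s3 t 2320 1976 165 = true := ex3_c t6857_A00pp_022_s3 k3555_A00pp_022_s3

theorem t6859_A00pp_022_s3 : ∃ t, chk3 f_A00pp_022_s3 t 1160 1976 165 = true := ex3_a t6858_A00pp_022_s3 k3556_A00pp_022_s3

theorem t6860_A00pp_022_s3 : ∃ t, chk3 f_A00pp_022_s3 t 1160 988 165 = true := ex3_b t6859_A00pp_022_s3 k3557_A00pp_022_s3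

theorem t6861_A00pp_022_s3 : ∃ t, chk3 f_A00pp_022_s3 t 2321 1976 329 = true := ex3_b k3550_A00pp_022_s3 k3551_A00pp_022_s3

theorem t6862_A00pp_022_s3 : ∃ t, chk3 f_A00pp_022_s3 t 2321 1976 164 = true := ex3_c k3549_A00pp_022_s3 t6861_A00pp_022_s3

theorem t6863_A00pp_022_s3 : ∃ t, chk3 f_A00pp_022_s3 t 1160 1976 164 = true := ex3_a k3548_A00pp_022_s3 t6862_A00pp_022_s3

theorem t6864_A00pp_022_s3 : ∃ t, chk3 f_A00pp_022_s3 t 1160 988 164 = true := ex3_b t6863_A00pp_022_s3 k3552_A00pp_022_s3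

theorem t6865_A00pp_022_s3 : ∃ t, chk3 f_A00pp_022_s3 t 1160 988 82 = true := ex3_c t6864_A00pp_022_s3 t6860_A00pp_022_s3

theorem t6866_A00pp_022_s3 : ∃ t, chk3 f_A00pp_022_s3 t 580 988 82 = true := ex3_a t6865_A00pp_022_s3 t6856_A00pp_022_s3

theorem t6867_A00pp_022_s3 : ∃ t, chk3 f_A00pp_022_s3 t 290 988 82 = true := ex3_a t6866_A00pp_022_s3 k3560_A00pp_022_s3

theorem t6868_A00pp_022_s3 : ∃ t, chk3 f_A00pp_022_s3 t 290 988 41 = true := ex3_c t6867_A00pp_022_s3 k3561_A00pp_022_s3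

theorem t6869_A00pp_022_s3 : ∃ t, chk3 f_A00pp_022_s3 t 580 988 163 = true := ex3_a k3545_A00pp_022_s3 k3546_A00pp_022_s3

theorem t6870_A00pp_022_s3 : ∃ t, chk3 f_A00pp_022_s3 t 290 988 163 = true := ex3_a t6869_A00pp_022_s3 k3547_A00pp_022_s3

theorem t6871_A00pp_022_s3 : ∃ t, chk3 f_A00pp_022_s3 t 290 988 81 = true := ex3_c k3544_A00pp_022_s3 t6870_A00pp_022_s3

theorem t6872_A00pp_022_s3 : ∃ t, chk3 f_A00pp_022_s3 t 290 988 40 = true := ex3_c k3543_A00pp_022_s3 t6871_A00pp_022_s3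

theorem t6873_A00pp_022_s3 : ∃ t, chk3 f_A00pp_022_s3 t 290 988 20 = true := ex3_c t6872_A00pp_022_s3 t6868_A00pp_022_s3

theorem t6874_A00pp_022_s3 : ∃ t, chk3 f_A00pp_022_s3 t 290 494 20 = true := ex3_b t6873_A00pp_022_s3 k3562_A00pp_022_s3

theorem t6875_A00pp_022_s3 : ∃ t, chk3 f_A00pp_022_s3 t 145 494 20 = true := ex3_a t6874_A00pp_022_s3 k3563_A00pp_022_s3

theorem t6876_A00pp_022_s3 : ∃ t, chk3 f_A00pp_022_s3 t 145 247 20 = true := ex3_b t6875_A00pp_022_s3 k3564_A00pp_022_s3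

theorem t6877_A00pp_022_s3 : ∃ t, chk3 f_A00pp_022_s3 t 582 985 164 = true := ex3_a k3537_A00pp_022_s3 k3538_A00pp_022_s3

theorem t6878_A00pp_022_s3 : ∃ t, chk3 f_A00pp_022_s3 t 582 985 82 = true := ex3_c t6877_A00pp_022_s3 k3539_A00pp_022_s3

theorem t6879_A00pp_022_s3 : ∃ t, chk3 f_A00pp_022_s3 t 582 985 41 = true := ex3_c t6878_A00pp_022_s3 k3540_A00pp_022_s3

theorem t6880_A00pp_022_s3 : ∃ t, chk3 f_A00pp_022_s3 t 291 985 41 = true := ex3_a t6879_A00pp_022_s3 k3541_A00pp_022_s3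

theorem t6881_A00pp_022_s3 : ∃ t, chk3 f_A00pp_022_s3 t 582 984 82 = true := ex3_a k3533_A00pp_022_s3 k3534_A00pp_022_s3

theorem t6882_A00pp_022_s3 : ∃ t, chk3 f_A00pp_022_s3 t 291 984 82 = true := ex3_a t6881_A00pp_022_s3 k3535_A00pp_022_s3

theorem t6883_A00pp_022_s3 : ∃ t, chk3 f_A00pp_022_s3 t 291 984 41 = true := ex3_c t6882_A00pp_022_s3 k3536_A00pp_022_s3

theorem t6884_A00pp_022_s3 : ∃ t, chk3 f_A00pp_022_s3 t 291 492 41 = true := ex3_b t6883_A00pp_022_s3 t6880_A00pp_022_s3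

theorem t6885_A00pp_022_s3 : ∃ t, chk3 f_A00pp_022_s3 t 291 246 41 = true := ex3_b t6884_A00pp_022_s3 k3542_A00pp_022_s3

theorem t6886_A00pp_022_s3 : ∃ t, chk3 f_A00pp_022_s3 t 2324 1974 164 = true := ex3_c k3526_A00pp_022_s3 k3527_A00pp_022_s3

theorem t6887_A00pp_022_s3 : ∃ t, chk3 f_A00pp_022_s3 t 1162 1974 164 = true := ex3_a t6886_A00pp_022_s3 k3528_A00pp_022_s3

theorem t6888_A00pp_022_s3 : ∃ t, chk3 f_A00pp_022_s3 t 1162 1974 82 = true := ex3_c t6887_A00pp_022_s3 k3529_A00pp_022_s3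

theorem t6889_A00pp_022_s3 : ∃ t, chk3 f_A00pp_022_s3 t 581 1974 82 = true := ex3_a t6888_A00pp_022_s3 k3530_A00pp_022_s3

theorem t6890_A00pp_022_s3 : ∃ t, chk3 f_A00pp_022_s3 t 581 1974 41 = true := ex3_c t6889_A00pp_022_s3 k3531_A00pp_022_s3

theorem t6891_A00pp_022_s3 : ∃ t, chk3 f_A00pp_022_s3 t 581 987 41 = true := ex3_b t6890_A00pp_022_s3 k3532_A00pp_022_s3

theorem t6892_A00pp_022_s3 : ∃ t, chk3 f_A00pp_022_s3 t 1162 986 165 = true := ex3_b k3522_A00pp_022_s3 k3523_A00pp_022_s3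

theorem t6893_A00pp_022_s3 : ∃ t, chk3 f_A00pp_022_s3 t 581 986 165 = true := ex3_a t6892_A00pp_022_s3 k3524_A00pp_022_s3

theorem t6894_A00pp_022_s3 : ∃ t, chk3 f_A00pp_022_s3 t 1162 1973 164 = true := ex3_b k3519_A00pp_022_s3 k3520_A00pp_022_s3

theorem t6895_A00pp_022_s3 : ∃ t, chk3 f_A00pp_022_s3 t 581 1973 164 = true := ex3_a t6894_A00pp_022_s3 k3521_A00pp_022_s3

theorem t6896_A00pp_022_s3 : ∃ t, chk3 f_A00pp_022_s3 t 581 1972 164 = true := ex3_a k3517_A00pp_022_s3 k3518_A00pp_022_s3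

theorem t6897_A00pp_022_s3 : ∃ t, chk3 f_A00pp_022_s3 t 581 986 164 = true := ex3_b t6896_A00pp_022_s3 t6895_A00pp_022_s3

theorem t6898_A00pp_022_s3 : ∃ t, chk3 f_A00pp_022_s3 t 581 986 82 = true := ex3_c t6897_A00pp_022_s3 t6893_A00pp_022_s3

theorem t6899_A00pp_022_s3 : ∃ t, chk3 f_A00pp_022_s3 t 581 986 41 = true := ex3_c t6898_A00pp_022_s3 k3525_A00pp_022_s3

theorem t6900_A00pp_022_s3 : ∃ t, chk3 f_A00pp_022_s3 t 581 493 41 = true := ex3_b t6899_A00pp_022_s3 t6891_A00pp_022_s3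

theorem t6901_A00pp_022_s3 : ∃ t, chk3 f_A00pp_022_s3 t 1160 987 166 = true := ex3_b k3513_A00pp_022_s3 k3514_A00pp_022_s3

theorem t6902_A00pp_022_s3 : ∃ t, chk3 f_A00pp_022_s3 t 1160 987 83 = true := ex3_c t6901_A00pp_022_s3 k3515_A00pp_022_s3

theorem t6903_A00pp_022_s3 : ∃ t, chk3 f_A00pp_022_s3 t 580 987 83 = true := ex3_a t6902_A00pp_022_s3 k3516_A00pp_022_s3

theorem t6904_A00pp_022_s3 : ∃ t, chk3 f_A00pp_022_s3 t 2323 1975 328 = true := ex3_b k3509_A00pp_022_s3 k3510_A00pp_022_s3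

theorem t6905_A00pp_022_s3 : ∃ t, chk3 f_A00pp_022_s3 t 2323 1975 164 = true := ex3_c t6904_A00pp_022_s3 k3511_A00pp_022_s3

theorem t6906_A00pp_022_s3 : ∃ t, chk3 f_A00pp_022_s3 t 2322 1975 164 = true := ex3_b k3507_A00pp_022_s3 k3508_A00pp_022_s3

theorem t6907_A00pp_022_s3 : ∃ t, chk3 f_A00pp_022_s3 t 1161 1975 164 = true := ex3_a t6906_A00pp_022_s3 t6905_A00pp_022_s3

theorem t6908_A00pp_022_s3 : ∃ t, chk3 f_A00pp_022_s3 t 1161 1975 82 = true := ex3_c t6907_A00pp_022_s3 k3512_A00pp_022_s3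

theorem t6909_A00pp_022_s3 : ∃ t, chk3 f_A00pp_022_s3 t 1161 1974 165 = true := ex3_a k3505_A00pp_022_s3 k3506_A00pp_022_s3

theorem t6910_A00pp_022_s3 : ∃ t, chk3 f_A00pp_022_s3 t 1161 1974 82 = true := ex3_c k3504_A00pp_022_s3 t6909_A00pp_022_s3

theorem t6911_A00pp_022_s3 : ∃ t, chk3 f_A00pp_022_s3 t 1161 987 82 = true := ex3_b t6910_A00pp_022_s3 t6908_A00pp_022_s3

theorem t6912_A00pp_022_s3 : ∃ t, chk3 f_A00pp_022_s3 t 1160 1975 331 = true := ex3_a k3502_A00pp_022_s3 k3503_A00pp_022_s3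

theorem t6913_A00pp_022_s3 : ∃ t, chk3 f_A00pp_022_s3 t 1160 1975 165 = true := ex3_c k3501_A00pp_022_s3 t6912_A00pp_022_s3

theorem t6914_A00pp_022_s3 : ∃ t, chk3 f_A00pp_022_s3 t 1160 987 165 = true := ex3_b k3500_A00pp_022_s3 t6913_A00pp_022_s3

theorem t6915_A00pp_022_s3 : ∃ t, chk3 f_A00pp_022_s3 t 1160 987 82 = true := ex3_c k3499_A00pp_022_s3 t6914_A00pp_022_s3

theorem t6916_A00pp_022_s3 : ∃ t, chk3 f_A00pp_022_s3 t 580 987 82 = true := ex3_a t6915_A00pp_022_s3 t6911_A00pp_022_s3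

theorem t6917_A00pp_022_s3 : ∃ t, chk3 f_A00pp_022_s3 t 580 987 41 = true := ex3_c t6916_A00pp_022_s3 t6903_A00pp_022_s3

theorem t6918_A00pp_022_s3 : ∃ t, chk3 f_A00pp_022_s3 t 1161 986 83 = true := ex3_c k3497_A00pp_022_s3 k3498_A00pp_022_s3

theorem t6919_A00pp_022_s3 : ∃ t, chk3 f_A00pp_022_s3 t 1160 986 83 = true := ex3_b k3495_A00pp_022_s3 k3496_A00pp_022_s3

theorem t6920_A00pp_022_s3 : ∃ t, chk3 f_A00pp_022_s3 t 580 986 83 = true := ex3_a t6919_A00pp_022_s3 t6918_A00pp_022_s3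

theorem t6921_A00pp_022_s3 : ∃ t, chk3 f_A00pp_022_s3 t 1161 986 82 = true := ex3_c k3493_A00pp_022_s3 k3494_A00pp_022_s3

theorem t6922_A00pp_022_s3 : ∃ t, chk3 f_A00pp_022_s3 t 580 986 82 = true := ex3_a k3492_A00pp_022_s3 t6921_A00pp_022_s3

theorem t6923_A00pp_022_s3 : ∃ t, chk3 f_A00pp_022_s3 t 580 986 41 = true := ex3_c t6922_A00pp_022_s3 t6920_A00pp_022_s3

theorem t6924_A00pp_022_s3 : ∃ t, chk3 f_A00pp_022_s3 t 580 493 41 = true := ex3_b t6923_A00pp_022_s3 t6917_A00pp_022_s3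

theorem t6925_A00pp_022_s3 : ∃ t, chk3 f_A00pp_022_s3 t 290 493 41 = true := ex3_a t6924_A00pp_022_s3 t6900_A00pp_022_s3

theorem t6926_A00pp_022_s3 : ∃ t, chk3 f_A00pp_022_s3 t 1163 985 82 = true := ex3_c k3489_A00pp_022_s3 k3490_A00pp_022_s3

theorem t6927_A00pp_022_s3 : ∃ t, chk3 f_A00pp_022_s3 t 581 985 82 = true := ex3_a k3488_A00pp_022_s3 t6926_A00pp_022_s3

theorem t6928_A00pp_022_s3 : ∃ t, chk3 f_A00pp_022_s3 t 581 985 41 = true := ex3_c t6927_A00pp_022_s3 k3491_A00pp_022_s3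

theorem t6929_A00pp_022_s3 : ∃ t, chk3 f_A00pp_022_s3 t 581 984 83 = true := ex3_a k3486_A00pp_022_s3 k3487_A00pp_022_s3

theorem t6930_A00pp_022_s3 : ∃ t, chk3 f_A00pp_022_s3 t 581 984 41 = true := ex3_c k3485_A00pp_022_s3 t6929_A00pp_022_s3

theorem t6931_A00pp_022_s3 : ∃ t, chk3 f_A00pp_022_s3 t 581 492 41 = true := ex3_b t6930_A00pp_022_s3 t6928_A00pp_022_s3

theorem t6932_A00pp_022_s3 : ∃ t, chk3 f_A00pp_022_s3 t 580 985 83 = true := ex3_a k3483_A00pp_022_s3 k3484_A00pp_022_s3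

theorem t6933_A00pp_022_s3 : ∃ t, chk3 f_A00pp_022_s3 t 580 492 83 = true := ex3_b k3482_A00pp_022_s3 t6932_A00pp_022_s3

theorem t6934_A00pp_022_s3 : ∃ t, chk3 f_A00pp_022_s3 t 580 492 41 = true := ex3_c k3481_A00pp_022_s3 t6933_A00pp_022_s3

theorem t6935_A00pp_022_s3 : ∃ t, chk3 f_A00pp_022_s3 t 290 492 41 = true := ex3_a t6934_A00pp_022_s3 t6931_A00pp_022_s3

theorem t6936_A00pp_022_s3 : ∃ t, chk3 f_A00pp_022_s3 t 290 246 41 = true := ex3_b t6935_A00pp_022_s3 t6925_A00pp_022_s3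

theorem t6937_A00pp_022_s3 : ∃ t, chk3 f_A00pp_022_s3 t 145 246 41 = true := ex3_a t6936_A00pp_022_s3 t6885_A00pp_022_s3

theorem t6938_A00pp_022_s3 : ∃ t, chk3 f_A00pp_022_s3 t 1164 3948 162 = true := ex3_a k3474_A00pp_022_s3 k3475_A00pp_022_s3

theorem t6939_A00pp_022_s3 : ∃ t, chk3 f_A00pp_022_s3 t 1164 1974 162 = true := ex3_b t6938_A00pp_022_s3 k3476_A00pp_022_s3

theorem t6940_A00pp_022_s3 : ∃ t, chk3 f_A00pp_022_s3 t 1164 1974 81 = true := ex3_c t6939_A00pp_022_s3 k3477_A00pp_022_s3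

theorem t6941_A00pp_022_s3 : ∃ t, chk3 f_A00pp_022_s3 t 1164 987 81 = true := ex3_b t6940_A00pp_022_s3 k3478_A00pp_022_s3

theorem t6942_A00pp_022_s3 : ∃ t, chk3 f_A00pp_022_s3 t 582 987 81 = true := ex3_a t6941_A00pp_022_s3 k3479_A00pp_022_s3

theorem t6943_A00pp_022_s3 : ∃ t, chk3 f_A00pp_022_s3 t 291 987 81 = true := ex3_a t6942_A00pp_022_s3 k3480_A00pp_022_s3

theorem t6944_A00pp_022_s3 : ∃ t, chk3 f_A00pp_022_s3 t 1165 1972 162 = true := ex3_a k3469_A00pp_022_s3 k3470_A00pp_022_s3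

theorem t6945_A00pp_022_s3 : ∃ t, chk3 f_A00pp_022_s3 t 1165 986 162 = true := ex3_b t6944_A00pp_022_s3 k3471_A00pp_022_s3

theorem t6946_A00pp_022_s3 : ∃ t, chk3 f_A00pp_022_s3 t 1165 986 81 = true := ex3_c t6945_A00pp_022_s3 k3472_A00pp_022_s3

theorem t6947_A00pp_022_s3 : ∃ t, chk3 f_A00pp_022_s3 t 2329 1973 162 = true := ex3_c k3466_A00pp_022_s3 k3467_A00pp_022_s3

theorem t6948_A00pp_022_s3 : ∃ t, chk3 f_A00pp_022_s3 t 1164 1973 162 = true := ex3_a k3465_A00pp_022_s3 t6947_A00pp_022_s3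

theorem t6949_A00pp_022_s3 : ∃ t, chk3 f_A00pp_022_s3 t 1164 1973 81 = true := ex3_c t6948_A00pp_022_s3 k3468_A00pp_022_s3

theorem t6950_A00pp_022_s3 : ∃ t, chk3 f_A00pp_022_s3 t 1164 1972 163 = true := ex3_a k3463_A00pp_022_s3 k3464_A00pp_022_s3

theorem t6951_A00pp_022_s3 : ∃ t, chk3 f_A00pp_022_s3 t 1164 1972 81 = true := ex3_c k3462_A00pp_022_s3 t6950_A00pp_022_s3

theorem t6952_A00pp_022_s3 : ∃ t, chk3 f_A00pp_022_s3 t 1164 986 81 = true := ex3_b t6951_A00pp_022_s3 t6949_A00pp_022_s3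

theorem t6953_A00pp_022_s3 : ∃ t, chk3 f_A00pp_022_s3 t 582 986 81 = true := ex3_a t6952_A00pp_022_s3 t6946_A00pp_022_s3

theorem t6954_A00pp_022_s3 : ∃ t, chk3 f_A00pp_022_s3 t 291 986 81 = true := ex3_a t6953_A00pp_022_s3 k3473_A00pp_022_s3

theorem t6955_A00pp_022_s3 : ∃ t, chk3 f_A00pp_022_s3 t 291 493 81 = true := ex3_b t6954_A00pp_022_s3 t6943_A00pp_022_s3

theorem t6956_A00pp_022_s3 : ∃ t, chk3 f_A00pp_022_s3 t 583 1970 81 = true := ex3_c k3459_A00pp_022_s3 k3460_A00pp_022_s3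

theorem t6957_A00pp_022_s3 : ∃ t, chk3 f_A00pp_022_s3 t 583 985 81 = true := ex3_b t6956_A00pp_022_s3 k3461_A00pp_022_s3

theorem t6958_A00pp_022_s3 : ∃ t, chk3 f_A00pp_022_s3 t 583 984 162 = true := ex3_b k3456_A00pp_022_s3 k3457_A00pp_022_s3

theorem t6959_A00pp_022_s3 : ∃ t, chk3 f_A00pp_022_s3 t 583 984 81 = true := ex3_c t6958_A00pp_022_s3 k3458_A00pp_022_s3

theorem t6960_A00pp_022_s3 : ∃ t, chk3 f_A00pp_022_s3 t 583 492 81 = true := ex3_b t6959_A00pp_022_s3 t6957_A00pp_022_s3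

theorem t6961_A00pp_022_s3 : ∃ t, chk3 f_A00pp_022_s3 t 1165 1971 81 = true := ex3_c k3454_A00pp_022_s3 k3455_A00pp_022_s3

theorem t6962_A00pp_022_s3 : ∃ t, chk3 f_A00pp_022_s3 t 1165 985 81 = true := ex3_b k3453_A00pp_022_s3 t6961_A00pp_022_s3

theorem t6963_A00pp_022_s3 : ∃ t, chk3 f_A00pp_022_s3 t 582 985 81 = true := ex3_a k3452_A00pp_022_s3 t6962_A00pp_022_s3

theorem t6964_A00pp_022_s3 : ∃ t, chk3 f_A00pp_022_s3 t 582 492 81 = true := ex3_b k3451_A00pp_022_s3 t6963_A00pp_022_s3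

theorem t6965_A00pp_022_s3 : ∃ t, chk3 f_A00pp_022_s3 t 291 492 81 = true := ex3_a t6964_A00pp_022_s3 t6960_A00pp_022_s3

theorem t6966_A00pp_022_s3 : ∃ t, chk3 f_A00pp_022_s3 t 291 246 81 = true := ex3_b t6965_A00pp_022_s3 t6955_A00pp_022_s3

theorem t6967_A00pp_022_s3 : ∃ t, chk3 f_A00pp_022_s3 t 582 987 161 = true := ex3_a k3448_A00pp_022_s3 k3449_A00pp_022_s3

theorem t6968_A00pp_022_s3 : ∃ t, chk3 f_A00pp_022_s3 t 291 987 161 = true := ex3_a t6967_A00pp_022_s3 k3450_A00pp_022_s3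

theorem t6969_A00pp_022_s3 : ∃ t, chk3 f_A00pp_022_s3 t 291 987 80 = true := ex3_c k3447_A00pp_022_s3 t6968_A00pp_022_s3

theorem t6970_A00pp_022_s3 : ∃ t, chk3 f_A00pp_022_s3 t 1167 3945 160 = true := ex3_a k3443_A00pp_022_s3 k3444_A00pp_022_s3

theorem t6971_A00pp_022_s3 : ∃ t, chk3 f_A00pp_022_s3 t 1167 3944 160 = true := ex3_c k3441_A00pp_022_s3 k3442_A00pp_022_s3

theorem t6972_A00pp_022_s3 : ∃ t, chk3 f_A00pp_022_s3 t 1167 1972 160 = true := ex3_b t6971_A00pp_022_s3 t6970_A00pp_022_s3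

theorem t6973_A00pp_022_s3 : ∃ t, chk3 f_A00pp_022_s3 t 1167 1972 80 = true := ex3_c t6972_A00pp_022_s3 k3445_A00pp_022_s3

theorem t6974_A00pp_022_s3 : ∃ t, chk3 f_A00pp_022_s3 t 1167 986 80 = true := ex3_b t6973_A00pp_022_s3 k3446_A00pp_022_s3

theorem t6975_A00pp_022_s3 : ∃ t, chk3 f_A00pp_022_s3 t 1166 1973 322 = true := ex3_a k3438_A00pp_022_s3 k3439_A00pp_022_s3

theorem t6976_A00pp_022_s3 : ∃ t, chk3 f_A00pp_022_s3 t 1166 1973 161 = true := ex3_c t6975_A00pp_022_s3 k3440_A00pp_022_s3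

theorem t6977_A00pp_022_s3 : ∃ t, chk3 f_A00pp_022_s3 t 2332 1972 161 = true := ex3_c k3435_A00pp_022_s3 k3436_A00pp_022_s3

theorem t6978_A00pp_022_s3 : ∃ t, chk3 f_A00pp_022_s3 t 1166 1972 161 = true := ex3_a t6977_A00pp_022_s3 k3437_A00pp_022_s3

theorem t6979_A00pp_022_s3 : ∃ t, chk3 f_A00pp_022_s3 t 1166 986 161 = true := ex3_b t6978_A00pp_022_s3 t6976_A00pp_022_s3

theorem t6980_A00pp_022_s3 : ∃ t, chk3 f_A00pp_022_s3 t 1166 1973 160 = true := ex3_a k3433_A00pp_022_s3 k3434_A00pp_022_s3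

theorem t6981_A00pp_022_s3 : ∃ t, chk3 f_A00pp_022_s3 t 1166 986 160 = true := ex3_b k3432_A00pp_022_s3 t6980_A00pp_022_s3

theorem t6982_A00pp_022_s3 : ∃ t, chk3 f_A00pp_022_s3 t 1166 986 80 = true := ex3_c t6981_A00pp_022_s3 t6979_A00pp_022_s3

theorem t6983_A00pp_022_s3 : ∃ t, chk3 f_A00pp_022_s3 t 583 986 80 = true := ex3_a t6982_A00pp_022_s3 t6974_A00pp_022_s3

theorem t6984_A00pp_022_s3 : ∃ t, chk3 f_A00pp_022_s3 t 2331 1973 161 = true := ex3_c k3430_A00pp_022_s3 k3431_A00pp_022_s3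

theorem t6985_A00pp_022_s3 : ∃ t, chk3 f_A00pp_022_s3 t 1165 1973 161 = true := ex3_a k3429_A00pp_022_s3 t6984_A00pp_022_s3

theorem t6986_A00pp_022_s3 : ∃ t, chk3 f_A00pp_022_s3 t 1165 986 161 = true := ex3_b k3428_A00pp_022_s3 t6985_A00pp_022_s3

theorem t6987_A00pp_022_s3 : ∃ t, chk3 f_A00pp_022_s3 t 1165 986 160 = true := ex3_b k3426_A00pp_022_s3 k3427_A00pp_022_s3

theorem t6988_A00pp_022_s3 : ∃ t, chk3 f_A00pp_022_s3 t 1165 986 80 = true := ex3_c t6987_A00pp_022_s3 t6986_A00pp_022_s3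

theorem t6989_A00pp_022_s3 : ∃ t, chk3 f_A00pp_022_s3 t 582 986 80 = true := ex3_a k3425_A00pp_022_s3 t6988_A00pp_022_s3

theorem t6990_A00pp_022_s3 : ∃ t, chk3 f_A00pp_022_s3 t 291 986 80 = true := ex3_a t6989_A00pp_022_s3 t6983_A00pp_022_s3

theorem t6991_A00pp_022_s3 : ∃ t, chk3 f_A00pp_022_s3 t 291 493 80 = true := ex3_b t6990_A00pp_022_s3 t6969_A00pp_022_s3

theorem t6992_A00pp_022_s3 : ∃ t, chk3 f_A00pp_022_s3 t 1167 1971 160 = true := ex3_a k3422_A00pp_022_s3 k3423_A00pp_022_s3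

theorem t6993_A00pp_022_s3 : ∃ t, chk3 f_A00pp_022_s3 t 1167 1971 80 = true := ex3_c t6992_A00pp_022_s3 k3424_A00pp_022_s3

theorem t6994_A00pp_022_s3 : ∃ t, chk3 f_A00pp_022_s3 t 1167 1970 80 = true := ex3_c k3420_A00pp_022_s3 k3421_A00pp_022_s3

theorem t6995_A00pp_022_s3 : ∃ t, chk3 f_A00pp_022_s3 t 1167 985 80 = true := ex3_b t6994_A00pp_022_s3 t6993_A00pp_022_s3

theorem t6996_A00pp_022_s3 : ∃ t, chk3 f_A00pp_022_s3 t 1166 985 80 = true := ex3_c k3418_A00pp_022_s3 k3419_A00pp_022_s3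

theorem t6997_A00pp_022_s3 : ∃ t, chk3 f_A00pp_022_s3 t 583 985 80 = true := ex3_a t6996_A00pp_022_s3 t6995_A00pp_022_s3

theorem t6998_A00pp_022_s3 : ∃ t, chk3 f_A00pp_022_s3 t 583 492 80 = true := ex3_b k3417_A00pp_022_s3 t6997_A00pp_022_s3

theorem t6999_A00pp_022_s3 : ∃ t, chk3 f_A00pp_022_s3 t 582 985 80 = true := ex3_b k3415_A00pp_022_s3 k3416_A00pp_022_s3

theorem t7000_A00pp_022_s3 : ∃ t, chk3 f_A00pp_022_s3 t 582 492 80 = true := ex3_b k3414_A00pp_022_s3 t6999_A00pp_022_s3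

theorem t7001_A00pp_022_s3 : ∃ t, chk3 f_A00pp_022_s3 t 291 492 80 = true := ex3_a t7000_A00pp_022_s3 t6998_A00pp_022_s3

theorem t7002_A00pp_022_s3 : ∃ t, chk3 f_A00pp_022_s3 t 291 246 80 = true := ex3_b t7001_A00pp_022_s3 t6991_A00pp_022_s3

theorem t7003_A00pp_022_s3 : ∃ t, chk3 f_A00pp_022_s3 t 291 246 40 = true := ex3_c t7002_A00pp_022_s3 t6966_A00pp_022_s3

theorem t7004_A00pp_022_s3 : ∃ t, chk3 f_A00pp_022_s3 t 2326 1974 163 = true := ex3_c k3410_A00pp_022_s3 k3411_A00pp_022_s3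

theorem t7005_A00pp_022_s3 : ∃ t, chk3 f_A00pp_022_s3 t 1163 1974 163 = true := ex3_a t7004_A00pp_022_s3 k3412_A00pp_022_s3

theorem t7006_A00pp_022_s3 : ∃ t, chk3 f_A00pp_022_s3 t 2327 1974 325 = true := ex3_b k3408_A00pp_022_s3 k3409_A00pp_022_s3

theorem t7007_A00pp_022_s3 : ∃ t, chk3 f_A00pp_022_s3 t 2327 1974 162 = true := ex3_c k3407_A00pp_022_s3 t7006_A00pp_022_s3

theorem t7008_A00pp_022_s3 : ∃ t, chk3 f_A00pp_022_s3 t 1163 1974 162 = true := ex3_a k3406_A00pp_022_s3 t7007_A00pp_022_s3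

theorem t7009_A00pp_022_s3 : ∃ t, chk3 f_A00pp_022_s3 t 1163 1974 81 = true := ex3_c t7008_A00pp_022_s3 t7005_A00pp_022_s3

theorem t7010_A00pp_022_s3 : ∃ t, chk3 f_A00pp_022_s3 t 1163 987 81 = true := ex3_b t7009_A00pp_022_s3 k3413_A00pp_022_s3

theorem t7011_A00pp_022_s3 : ∃ t, chk3 f_A00pp_022_s3 t 2325 1975 163 = true := ex3_b k3404_A00pp_022_s3 k3405_A00pp_022_s3

theorem t7012_A00pp_022_s3 : ∃ t, chk3 f_A00pp_022_s3 t 2324 1975 327 = true := ex3_b k3402_A00pp_022_s3 k3403_A00pp_022_s3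

theorem t7013_A00pp_022_s3 : ∃ t, chk3 f_A00pp_022_s3 t 2324 1975 163 = true := ex3_c k3401_A00pp_022_s3 t7012_A00pp_022_s3

theorem t7014_A00pp_022_s3 : ∃ t, chk3 f_A00pp_022_s3 t 1162 1975 163 = true := ex3_a t7013_A00pp_022_s3 t7011_A00pp_022_s3

theorem t7015_A00pp_022_s3 : ∃ t, chk3 f_A00pp_022_s3 t 1162 1974 163 = true := ex3_a k3399_A00pp_022_s3 k3400_A00pp_022_s3

theorem t7016_A00pp_022_s3 : ∃ t, chk3 f_A00pp_022_s3 t 1162 987 163 = true := ex3_b t7015_A00pp_022_s3 t7014_A00pp_022_s3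

theorem t7017_A00pp_022_s3 : ∃ t, chk3 f_A00pp_022_s3 t 1162 987 162 = true := ex3_b k3397_A00pp_022_s3 k3398_A00pp_022_s3

theorem t7018_A00pp_022_s3 : ∃ t, chk3 f_A00pp_022_s3 t 1162 987 81 = true := ex3_c t7017_A00pp_022_s3 t7016_A00pp_022_s3

theorem t7019_A00pp_022_s3 : ∃ t, chk3 f_A00pp_022_s3 t 581 987 81 = true := ex3_a t7018_A00pp_022_s3 t7010_A00pp_022_s3

theorem t7020_A00pp_022_s3 : ∃ t, chk3 f_A00pp_022_s3 t 1163 1973 163 = true := ex3_a k3395_A00pp_022_s3 k3396_A00pp_022_s3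

theorem t7021_A00pp_022_s3 : ∃ t, chk3 f_A00pp_022_s3 t 1163 986 163 = true := ex3_b k3394_A00pp_022_s3 t7020_A00pp_022_s3

theorem t7022_A00pp_022_s3 : ∃ t, chk3 f_A00pp_022_s3 t 1163 986 81 = true := ex3_c k3393_A00pp_022_s3 t7021_A00pp_022_s3

theorem t7023_A00pp_022_s3 : ∃ t, chk3 f_A00pp_022_s3 t 581 986 81 = true := ex3_a k3392_A00pp_022_s3 t7022_A00pp_022_s3

theorem t7024_A00pp_022_s3 : ∃ t, chk3 f_A00pp_022_s3 t 581 493 81 = true := ex3_b t7023_A00pp_022_s3 t7019_A00pp_022_s3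

theorem t7025_A00pp_022_s3 : ∃ t, chk3 f_A00pp_022_s3 t 580 1975 163 = true := ex3_a k3390_A00pp_022_s3 k3391_A00pp_022_s3

theorem t7026_A00pp_022_s3 : ∃ t, chk3 f_A00pp_022_s3 t 580 1975 81 = true := ex3_c k3389_A00pp_022_s3 t7025_A00pp_022_s3

theorem t7027_A00pp_022_s3 : ∃ t, chk3 f_A00pp_022_s3 t 580 987 81 = true := ex3_b k3388_A00pp_022_s3 t7026_A00pp_022_s3

theorem t7028_A00pp_022_s3 : ∃ t, chk3 f_A00pp_022_s3 t 580 493 81 = true := ex3_b k3387_A00pp_022_s3 t7027_A00pp_022_s3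

theorem t7029_A00pp_022_s3 : ∃ t, chk3 f_A00pp_022_s3 t 290 493 81 = true := ex3_a t7028_A00pp_022_s3 t7024_A00pp_022_s3

theorem t7030_A00pp_022_s3 : ∃ t, chk3 f_A00pp_022_s3 t 290 987 80 = true := ex3_b k3385_A00pp_022_s3 k3386_A00pp_022_s3

theorem t7031_A00pp_022_s3 : ∃ t, chk3 f_A00pp_022_s3 t 290 493 80 = true := ex3_b k3384_A00pp_022_s3 t7030_A00pp_022_s3

theorem t7032_A00pp_022_s3 : ∃ t, chk3 f_A00pp_022_s3 t 290 493 40 = true := ex3_c t7031_A00pp_022_s3 t7029_A00pp_022_s3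

theorem t7033_A00pp_022_s3 : ∃ t, chk3 f_A00pp_022_s3 t 290 492 40 = true := ex3_b k3382_A00pp_022_s3 k3383_A00pp_022_s3

theorem t7034_A00pp_022_s3 : ∃ t, chk3 f_A00pp_022_s3 t 290 246 40 = true := ex3_b t7033_A00pp_022_s3 t7032_A00pp_022_s3

theorem t7035_A00pp_022_s3 : ∃ t, chk3 f_A00pp_022_s3 t 145 246 40 = true := ex3_a t7034_A00pp_022_s3 t7003_A00pp_022_s3

theorem t7036_A00pp_022_s3 : ∃ t, chk3 f_A00pp_022_s3 t 145 246 20 = true := ex3_c t7035_A00pp_022_s3 t6937_A00pp_022_s3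

theorem t7037_A00pp_022_s3 : ∃ t, chk3 f_A00pp_022_s3 t 145 123 20 = true := ex3_b t7036_A00pp_022_s3 t6876_A00pp_022_s3

theorem t7038_A00pp_022_s3 : ∃ t, chk3 f_A00pp_022_s3 t 145 123 10 = true := ex3_c t7037_A00pp_022_s3 t6855_A00pp_022_s3

theorem t7039_A00pp_022_s3 : ∃ t, chk3 f_A00pp_022_s3 t 288 495 43 = true := ex3_a k3379_A00pp_022_s3 k3380_A00pp_022_s3

theorem t7040_A00pp_022_s3 : ∃ t, chk3 f_A00pp_022_s3 t 144 495 43 = true := ex3_a t7039_A00pp_022_s3 k3381_A00pp_022_s3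

theorem t7041_A00pp_022_s3 : ∃ t, chk3 f_A00pp_022_s3 t 1152 988 172 = true := ex3_b k3371_A00pp_022_s3 k3372_A00pp_022_s3

theorem t7042_A00pp_022_s3 : ∃ t, chk3 f_A00pp_022_s3 t 1152 988 86 = true := ex3_c t7041_A00pp_022_s3 k3373_A00pp_022_s3

theorem t7043_A00pp_022_s3 : ∃ t, chk3 f_A00pp_022_s3 t 576 988 86 = true := ex3_a t7042_A00pp_022_s3 k3374_A00pp_022_s3

theorem t7044_A00pp_022_s3 : ∃ t, chk3 f_A00pp_022_s3 t 576 988 43 = true := ex3_c t7043_A00pp_022_s3 k3375_A00pp_022_s3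

theorem t7045_A00pp_022_s3 : ∃ t, chk3 f_A00pp_022_s3 t 288 988 43 = true := ex3_a t7044_A00pp_022_s3 k3376_A00pp_022_s3

theorem t7046_A00pp_022_s3 : ∃ t, chk3 f_A00pp_022_s3 t 288 494 43 = true := ex3_b t7045_A00pp_022_s3 k3377_A00pp_022_s3

theorem t7047_A00pp_022_s3 : ∃ t, chk3 f_A00pp_022_s3 t 144 494 43 = true := ex3_a t7046_A00pp_022_s3 k3378_A00pp_022_s3

theorem t7048_A00pp_022_s3 : ∃ t, chk3 f_A00pp_022_s3 t 144 247 43 = true := ex3_b t7047_A00pp_022_s3 t7040_A00pp_022_s3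

theorem t7049_A00pp_022_s3 : ∃ t, chk3 f_A00pp_022_s3 t 577 990 84 = true := ex3_c k3366_A00pp_022_s3 k3367_A00pp_022_s3

theorem t7050_A00pp_022_s3 : ∃ t, chk3 f_A00pp_022_s3 t 577 990 42 = true := ex3_c t7049_A00pp_022_s3 k3368_A00pp_022_s3

theorem t7051_A00pp_022_s3 : ∃ t, chk3 f_A00pp_022_s3 t 577 495 42 = true := ex3_b t7050_A00pp_022_s3 k3369_A00pp_022_s3

theorem t7052_A00pp_022_s3 : ∃ t, chk3 f_A00pp_022_s3 t 1152 3962 170 = true := ex3_c k3360_A00pp_022_s3 k3361_A00pp_022_s3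

theorem t7053_A00pp_022_s3 : ∃ t, chk3 f_A00pp_022_s3 t 1152 1981 170 = true := ex3_b t7052_A00pp_022_s3 k3362_A00pp_022_s3

theorem t7054_A00pp_022_s3 : ∃ t, chk3 f_A00pp_022_s3 t 1152 1981 85 = true := ex3_c t7053_A00pp_022_s3 k3363_A00pp_022_s3

theorem t7055_A00pp_022_s3 : ∃ t, chk3 f_A00pp_022_s3 t 2305 3961 340 = true := ex3_a k3356_A00pp_022_s3 k3357_A00pp_022_s3

theorem t7056_A00pp_022_s3 : ∃ t, chk3 f_A00pp_022_s3 t 2305 1980 340 = true := ex3_b k3355_A00pp_022_s3 t7055_A00pp_022_s3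

theorem t7057_A00pp_022_s3 : ∃ t, chk3 f_A00pp_022_s3 t 2305 1980 170 = true := ex3_c t7056_A00pp_022_s3 k3358_A00pp_022_s3

theorem t7058_A00pp_022_s3 : ∃ t, chk3 f_A00pp_022_s3 t 2304 3961 170 = true := ex3_c k3353_A00pp_022_s3 k3354_A00pp_022_s3

theorem t7059_A00pp_022_s3 : ∃ t, chk3 f_A00pp_022_s3 t 2304 1980 170 = true := ex3_b k3352_A00pp_022_s3 t7058_A00pp_022_s3

theorem t7060_A00pp_022_s3 : ∃ t, chk3 f_A00pp_022_s3 t 1152 1980 170 = true := ex3_a t7059_A00pp_022_s3 t7057_A00pp_022_s3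

theorem t7061_A00pp_022_s3 : ∃ t, chk3 f_A00pp_022_s3 t 1152 1980 85 = true := ex3_c t7060_A00pp_022_s3 k3359_A00pp_022_s3

theorem t7062_A00pp_022_s3 : ∃ t, chk3 f_A00pp_022_s3 t 1152 990 85 = true := ex3_b t7061_A00pp_022_s3 t7054_A00pp_022_s3

theorem t7063_A00pp_022_s3 : ∃ t, chk3 f_A00pp_022_s3 t 576 990 85 = true := ex3_a t7062_A00pp_022_s3 k3364_A00pp_022_s3

theorem t7064_A00pp_022_s3 : ∃ t, chk3 f_A00pp_022_s3 t 576 495 85 = true := ex3_b t7063_A00pp_022_s3 k3365_A00pp_022_s3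

theorem t7065_A00pp_022_s3 : ∃ t, chk3 f_A00pp_022_s3 t 2307 3960 169 = true := ex3_c k3347_A00pp_022_s3 k3348_A00pp_022_s3

theorem t7066_A00pp_022_s3 : ∃ t, chk3 f_A00pp_022_s3 t 2307 1980 169 = true := ex3_b t7065_A00pp_022_s3 k3349_A00pp_022_s3

theorem t7067_A00pp_022_s3 : ∃ t, chk3 f_A00pp_022_s3 t 2306 1980 339 = true := ex3_b k3345_A00pp_022_s3 k3346_A00pp_022_s3

theorem t7068_A00pp_022_s3 : ∃ t, chk3 f_A00pp_022_s3 t 2306 1980 169 = true := ex3_c k3344_A00pp_022_s3 t7067_A00pp_022_s3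

theorem t7069_A00pp_022_s3 : ∃ t, chk3 f_A00pp_022_s3 t 1153 1980 169 = true := ex3_a t7068_A00pp_022_s3 t7066_A00pp_022_s3

theorem t7070_A00pp_022_s3 : ∃ t, chk3 f_A00pp_022_s3 t 1153 990 169 = true := ex3_b t7069_A00pp_022_s3 k3350_A00pp_022_s3

theorem t7071_A00pp_022_s3 : ∃ t, chk3 f_A00pp_022_s3 t 1152 1980 169 = true := ex3_c k3341_A00pp_022_s3 k3342_A00pp_022_s3

theorem t7072_A00pp_022_s3 : ∃ t, chk3 f_A00pp_022_s3 t 1152 990 169 = true := ex3_b t7071_A00pp_022_s3 k3343_A00pp_022_s3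

theorem t7073_A00pp_022_s3 : ∃ t, chk3 f_A00pp_022_s3 t 576 990 169 = true := ex3_a t7072_A00pp_022_s3 t7070_A00pp_022_s3

theorem t7074_A00pp_022_s3 : ∃ t, chk3 f_A00pp_022_s3 t 576 990 84 = true := ex3_c k3340_A00pp_022_s3 t7073_A00pp_022_s3

theorem t7075_A00pp_022_s3 : ∃ t, chk3 f_A00pp_022_s3 t 576 495 84 = true := ex3_b t7074_A00pp_022_s3 k3351_A00pp_022_s3

theorem t7076_A00pp_022_s3 : ∃ t, chk3 f_A00pp_022_s3 t 576 495 42 = true := ex3_c t7075_A00pp_022_s3 t7064_A00pp_022_s3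

theorem t7077_A00pp_022_s3 : ∃ t, chk3 f_A00pp_022_s3 t 288 495 42 = true := ex3_a t7076_A00pp_022_s3 t7051_A00pp_022_s3

theorem t7078_A00pp_022_s3 : ∃ t, chk3 f_A00pp_022_s3 t 144 495 42 = true := ex3_a t7077_A00pp_022_s3 k3370_A00pp_022_s3

theorem t7079_A00pp_022_s3 : ∃ t, chk3 f_A00pp_022_s3 t 2312 1978 168 = true := ex3_c k3332_A00pp_022_s3 k3333_A00pp_022_s3

theorem t7080_A00pp_022_s3 : ∃ t, chk3 f_A00pp_022_s3 t 1156 1978 168 = true := ex3_a t7079_A00pp_022_s3 k3334_A00pp_022_s3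

theorem t7081_A00pp_022_s3 : ∃ t, chk3 f_A00pp_022_s3 t 1156 1978 84 = true := ex3_c t7080_A00pp_022_s3 k3335_A00pp_022_s3

theorem t7082_A00pp_022_s3 : ∃ t, chk3 f_A00pp_022_s3 t 1156 1978 42 = true := ex3_c t7081_A00pp_022_s3 k3336_A00pp_022_s3

theorem t7083_A00pp_022_s3 : ∃ t, chk3 f_A00pp_022_s3 t 578 1978 42 = true := ex3_a t7082_A00pp_022_s3 k3337_A00pp_022_s3

theorem t7084_A00pp_022_s3 : ∃ t, chk3 f_A00pp_022_s3 t 289 1978 42 = true := ex3_a t7083_A00pp_022_s3 k3338_A00pp_022_s3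

theorem t7085_A00pp_022_s3 : ∃ t, chk3 f_A00pp_022_s3 t 289 989 42 = true := ex3_b t7084_A00pp_022_s3 k3339_A00pp_022_s3

theorem t7086_A00pp_022_s3 : ∃ t, chk3 f_A00pp_022_s3 t 2312 1977 168 = true := ex3_c k3325_A00pp_022_s3 k3326_A00pp_022_s3

theorem t7087_A00pp_022_s3 : ∃ t, chk3 f_A00pp_022_s3 t 1156 1977 168 = true := ex3_a t7086_A00pp_022_s3 k3327_A00pp_022_s3

theorem t7088_A00pp_022_s3 : ∃ t, chk3 f_A00pp_022_s3 t 578 1977 168 = true := ex3_a t7087_A00pp_022_s3 k3328_A00pp_022_s3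

theorem t7089_A00pp_022_s3 : ∃ t, chk3 f_A00pp_022_s3 t 578 1976 168 = true := ex3_b k3323_A00pp_022_s3 k3324_A00pp_022_s3

theorem t7090_A00pp_022_s3 : ∃ t, chk3 f_A00pp_022_s3 t 578 988 168 = true := ex3_b t7089_A00pp_022_s3 t7088_A00pp_022_s3

theorem t7091_A00pp_022_s3 : ∃ t, chk3 f_A00pp_022_s3 t 578 988 84 = true := ex3_c t7090_A00pp_022_s3 k3329_A00pp_022_s3

theorem t7092_A00pp_022_s3 : ∃ t, chk3 f_A00pp_022_s3 t 578 988 42 = true := ex3_c t7091_A00pp_022_s3 k3330_A00pp_022_s3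

theorem t7093_A00pp_022_s3 : ∃ t, chk3 f_A00pp_022_s3 t 289 988 42 = true := ex3_a t7092_A00pp_022_s3 k3331_A00pp_022_s3

theorem t7094_A00pp_022_s3 : ∃ t, chk3 f_A00pp_022_s3 t 289 494 42 = true := ex3_b t7093_A00pp_022_s3 t7085_A00pp_022_s3

theorem t7095_A00pp_022_s3 : ∃ t, chk3 f_A00pp_022_s3 t 1155 3958 336 = true := ex3_a k3317_A00pp_022_s3 k3318_A00pp_022_s3

theorem t7096_A00pp_022_s3 : ∃ t, chk3 f_A00pp_022_s3 t 1155 3958 168 = true := ex3_c t7095_A00pp_022_s3 k3319_A00pp_022_s3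

theorem t7097_A00pp_022_s3 : ∃ t, chk3 f_A00pp_022_s3 t 1155 1979 168 = true := ex3_b t7096_A00pp_022_s3 k3320_A00pp_022_s3

theorem t7098_A00pp_022_s3 : ∃ t, chk3 f_A00pp_022_s3 t 1155 1979 84 = true := ex3_c t7097_A00pp_022_s3 k3321_A00pp_022_s3

theorem t7099_A00pp_022_s3 : ∃ t, chk3 f_A00pp_022_s3 t 2311 1978 168 = true := ex3_b k3314_A00pp_022_s3 k3315_A00pp_022_s3

theorem t7100_A00pp_022_s3 : ∃ t, chk3 f_A00pp_022_s3 t 1155 1978 168 = true := ex3_a k3313_A00pp_022_s3 t7099_A00pp_022_s3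

theorem t7101_A00pp_022_s3 : ∃ t, chk3 f_A00pp_022_s3 t 1155 1978 84 = true := ex3_c t7100_A00pp_022_s3 k3316_A00pp_022_s3

theorem t7102_A00pp_022_s3 : ∃ t, chk3 f_A00pp_022_s3 t 1155 989 84 = true := ex3_b t7101_A00pp_022_s3 t7098_A00pp_022_s3

theorem t7103_A00pp_022_s3 : ∃ t, chk3 f_A00pp_022_s3 t 2308 1979 338 = true := ex3_b k3309_A00pp_022_s3 k3310_A00pp_022_s3

theorem t7104_A00pp_022_s3 : ∃ t, chk3 f_A00pp_022_s3 t 2308 1979 169 = true := ex3_c t7103_A00pp_022_s3 k3311_A00pp_022_s3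

theorem t7105_A00pp_022_s3 : ∃ t, chk3 f_A00pp_022_s3 t 1154 1979 169 = true := ex3_a t7104_A00pp_022_s3 k3312_A00pp_022_s3

theorem t7106_A00pp_022_s3 : ∃ t, chk3 f_A00pp_022_s3 t 2309 1978 169 = true := ex3_c k3307_A00pp_022_s3 k3308_A00pp_022_s3

theorem t7107_A00pp_022_s3 : ∃ t, chk3 f_A00pp_022_s3 t 1154 1978 169 = true := ex3_a k3306_A00pp_022_s3 t7106_A00pp_022_s3

theorem t7108_A00pp_022_s3 : ∃ t, chk3 f_A00pp_022_s3 t 1154 989 169 = true := ex3_b t7107_A00pp_022_s3 t7105_A00pp_022_s3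

theorem t7109_A00pp_022_s3 : ∃ t, chk3 f_A00pp_022_s3 t 2309 1979 337 = true := ex3_b k3304_A00pp_022_s3 k3305_A00pp_022_s3

theorem t7110_A00pp_022_s3 : ∃ t, chk3 f_A00pp_022_s3 t 2309 1979 168 = true := ex3_c k3303_A00pp_022_s3 t7109_A00pp_022_s3

theorem t7111_A00pp_022_s3 : ∃ t, chk3 f_A00pp_022_s3 t 1154 1979 168 = true := ex3_a k3302_A00pp_022_s3 t7110_A00pp_022_s3

theorem t7112_A00pp_022_s3 : ∃ t, chk3 f_A00pp_022_s3 t 1154 989 168 = true := ex3_b k3301_A00pp_022_s3 t7111_A00pp_022_s3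

theorem t7113_A00pp_022_s3 : ∃ t, chk3 f_A00pp_022_s3 t 1154 989 84 = true := ex3_c t7112_A00pp_022_s3 t7108_A00pp_022_s3

theorem t7114_A00pp_022_s3 : ∃ t, chk3 f_A00pp_022_s3 t 577 989 84 = true := ex3_a t7113_A00pp_022_s3 t7102_A00pp_022_s3

theorem t7115_A00pp_022_s3 : ∃ t, chk3 f_A00pp_022_s3 t 577 989 42 = true := ex3_c t7114_A00pp_022_s3 k3322_A00pp_022_s3

theorem t7116_A00pp_022_s3 : ∃ t, chk3 f_A00pp_022_s3 t 1154 1977 170 = true := ex3_a k3297_A00pp_022_s3 k3298_A00pp_022_s3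

theorem t7117_A00pp_022_s3 : ∃ t, chk3 f_A00pp_022_s3 t 1154 988 170 = true := ex3_b k3296_A00pp_022_s3 t7116_A00pp_022_s3

theorem t7118_A00pp_022_s3 : ∃ t, chk3 f_A00pp_022_s3 t 1154 988 85 = true := ex3_c t7117_A00pp_022_s3 k3299_A00pp_022_s3

theorem t7119_A00pp_022_s3 : ∃ t, chk3 f_A00pp_022_s3 t 577 988 85 = true := ex3_a t7118_A00pp_022_s3 k3300_A00pp_022_s3

theorem t7120_A00pp_022_s3 : ∃ t, chk3 f_A00pp_022_s3 t 1155 1977 169 = true := ex3_a k3294_A00pp_022_s3 k3295_A00pp_022_s3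

theorem t7121_A00pp_022_s3 : ∃ t, chk3 f_A00pp_022_s3 t 1155 988 169 = true := ex3_b k3293_A00pp_022_s3 t7120_A00pp_022_s3

theorem t7122_A00pp_022_s3 : ∃ t, chk3 f_A00pp_022_s3 t 1155 988 84 = true := ex3_c k3292_A00pp_022_s3 t7121_A00pp_022_s3

theorem t7123_A00pp_022_s3 : ∃ t, chk3 f_A00pp_022_s3 t 577 988 84 = true := ex3_a k3291_A00pp_022_s3 t7122_A00pp_022_s3

theorem t7124_A00pp_022_s3 : ∃ t, chk3 f_A00pp_022_s3 t 577 988 42 = true := ex3_c t7123_A00pp_022_s3 t7119_A00pp_022_s3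

theorem t7125_A00pp_022_s3 : ∃ t, chk3 f_A00pp_022_s3 t 577 494 42 = true := ex3_b t7124_A00pp_022_s3 t7115_A00pp_022_s3

theorem t7126_A00pp_022_s3 : ∃ t, chk3 f_A00pp_022_s3 t 2306 1979 170 = true := ex3_c k3287_A00pp_022_s3 k3288_A00pp_022_s3

theorem t7127_A00pp_022_s3 : ∃ t, chk3 f_A00pp_022_s3 t 1153 1979 170 = true := ex3_a t7126_A00pp_022_s3 k3289_A00pp_022_s3

theorem t7128_A00pp_022_s3 : ∃ t, chk3 f_A00pp_022_s3 t 1153 1979 85 = true := ex3_c t7127_A00pp_022_s3 k3290_A00pp_022_s3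

theorem t7129_A00pp_022_s3 : ∃ t, chk3 f_A00pp_022_s3 t 1152 1979 171 = true := ex3_a k3285_A00pp_022_s3 k3286_A00pp_022_s3

theorem t7130_A00pp_022_s3 : ∃ t, chk3 f_A00pp_022_s3 t 1152 1979 170 = true := ex3_a k3283_A00pp_022_s3 k3284_A00pp_022_s3

theorem t7131_A00pp_022_s3 : ∃ t, chk3 f_A00pp_022_s3 t 1152 1979 85 = true := ex3_c t7130_A00pp_022_s3 t7129_A00pp_022_s3

theorem t7132_A00pp_022_s3 : ∃ t, chk3 f_A00pp_022_s3 t 576 1979 85 = true := ex3_a t7131_A00pp_022_s3 t7128_A00pp_022_s3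

theorem t7133_A00pp_022_s3 : ∃ t, chk3 f_A00pp_022_s3 t 1153 1978 170 = true := ex3_b k3280_A00pp_022_s3 k3281_A00pp_022_s3

theorem t7134_A00pp_022_s3 : ∃ t, chk3 f_A00pp_022_s3 t 1153 1978 85 = true := ex3_c t7133_A00pp_022_s3 k3282_A00pp_022_s3

theorem t7135_A00pp_022_s3 : ∃ t, chk3 f_A00pp_022_s3 t 1152 1978 171 = true := ex3_a k3278_A00pp_022_s3 k3279_A00pp_022_s3

theorem t7136_A00pp_022_s3 : ∃ t, chk3 f_A00pp_022_s3 t 1152 1978 85 = true := ex3_c k3277_A00pp_022_s3 t7135_A00pp_022_s3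

theorem t7137_A00pp_022_s3 : ∃ t, chk3 f_A00pp_022_s3 t 576 1978 85 = true := ex3_a t7136_A00pp_022_s3 t7134_A00pp_022_s3

theorem t7138_A00pp_022_s3 : ∃ t, chk3 f_A00pp_022_s3 t 576 989 85 = true := ex3_b t7137_A00pp_022_s3 t7132_A00pp_022_s3

theorem t7139_A00pp_022_s3 : ∃ t, chk3 f_A00pp_022_s3 t 1153 988 171 = true := ex3_b k3275_A00pp_022_s3 k3276_A00pp_022_s3

theorem t7140_A00pp_022_s3 : ∃ t, chk3 f_A00pp_022_s3 t 1153 988 85 = true := ex3_c k3274_A00pp_022_s3 t7139_A00pp_022_s3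

theorem t7141_A00pp_022_s3 : ∃ t, chk3 f_A00pp_022_s3 t 576 988 85 = true := ex3_a k3273_A00pp_022_s3 t7140_A00pp_022_s3

theorem t7142_A00pp_022_s3 : ∃ t, chk3 f_A00pp_022_s3 t 576 494 85 = true := ex3_b t7141_A00pp_022_s3 t7138_A00pp_022_s3

theorem t7143_A00pp_022_s3 : ∃ t, chk3 f_A00pp_022_s3 t 2307 1979 339 = true := ex3_b k3271_A00pp_022_s3 k3272_A00pp_022_s3

theorem t7144_A00pp_022_s3 : ∃ t, chk3 f_A00pp_022_s3 t 2307 1979 169 = true := ex3_c k3270_A00pp_022_s3 t7143_A00pp_022_s3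

theorem t7145_A00pp_022_s3 : ∃ t, chk3 f_A00pp_022_s3 t 1153 1979 169 = true := ex3_a k3269_A00pp_022_s3 t7144_A00pp_022_s3

theorem t7146_A00pp_022_s3 : ∃ t, chk3 f_A00pp_022_s3 t 1153 989 169 = true := ex3_b k3268_A00pp_022_s3 t7145_A00pp_022_s3

theorem t7147_A00pp_022_s3 : ∃ t, chk3 f_A00pp_022_s3 t 1153 989 84 = true := ex3_c k3267_A00pp_022_s3 t7146_A00pp_022_s3

theorem t7148_A00pp_022_s3 : ∃ t, chk3 f_A00pp_022_s3 t 576 989 84 = true := ex3_a k3266_A00pp_022_s3 t7147_A00pp_022_s3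

theorem t7149_A00pp_022_s3 : ∃ t, chk3 f_A00pp_022_s3 t 576 494 84 = true := ex3_b k3265_A00pp_022_s3 t7148_A00pp_022_s3

theorem t7150_A00pp_022_s3 : ∃ t, chk3 f_A00pp_022_s3 t 576 494 42 = true := ex3_c t7149_A00pp_022_s3 t7142_A00pp_022_s3

theorem t7151_A00pp_022_s3 : ∃ t, chk3 f_A00pp_022_s3 t 288 494 42 = true := ex3_a t7150_A00pp_022_s3 t7125_A00pp_022_s3

theorem t7152_A00pp_022_s3 : ∃ t, chk3 f_A00pp_022_s3 t 144 494 42 = true := ex3_a t7151_A00pp_022_s3 t7094_A00pp_022_s3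

theorem t7153_A00pp_022_s3 : ∃ t, chk3 f_A00pp_022_s3 t 144 247 42 = true := ex3_b t7152_A00pp_022_s3 t7078_A00pp_022_s3

theorem t7154_A00pp_022_s3 : ∃ t, chk3 f_A00pp_022_s3 t 144 247 21 = true := ex3_c t7153_A00pp_022_s3 t7048_A00pp_022_s3

theorem t7155_A00pp_022_s3 : ∃ t, chk3 f_A00pp_022_s3 t 576 495 41 = true := ex3_b k3261_A00pp_022_s3 k3262_A00pp_022_s3

theorem t7156_A00pp_022_s3 : ∃ t, chk3 f_A00pp_022_s3 t 288 495 41 = true := ex3_a t7155_A00pp_022_s3 k3263_A00pp_022_s3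

theorem t7157_A00pp_022_s3 : ∃ t, chk3 f_A00pp_022_s3 t 144 495 41 = true := ex3_a t7156_A00pp_022_s3 k3264_A00pp_022_s3

theorem t7158_A00pp_022_s3 : ∃ t, chk3 f_A00pp_022_s3 t 2314 1978 334 = true := ex3_b k3255_A00pp_022_s3 k3256_A00pp_022_s3

theorem t7159_A00pp_022_s3 : ∃ t, chk3 f_A00pp_022_s3 t 2314 1978 167 = true := ex3_c t7158_A00pp_022_s3 k3257_A00pp_022_s3

theorem t7160_A00pp_022_s3 : ∃ t, chk3 f_A00pp_022_s3 t 1157 1978 167 = true := ex3_a t7159_A00pp_022_s3 k3258_A00pp_022_s3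

theorem t7161_A00pp_022_s3 : ∃ t, chk3 f_A00pp_022_s3 t 1157 1978 166 = true := ex3_a k3253_A00pp_022_s3 k3254_A00pp_022_s3

theorem t7162_A00pp_022_s3 : ∃ t, chk3 f_A00pp_022_s3 t 1157 1978 83 = true := ex3_c t7161_A00pp_022_s3 t7160_A00pp_022_s3

theorem t7163_A00pp_022_s3 : ∃ t, chk3 f_A00pp_022_s3 t 2313 3956 167 = true := ex3_c k3250_A00pp_022_s3 k3251_A00pp_022_s3

theorem t7164_A00pp_022_s3 : ∃ t, chk3 f_A00pp_022_s3 t 2313 1978 167 = true := ex3_b t7163_A00pp_022_s3 k3252_A00pp_022_s3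

theorem t7165_A00pp_022_s3 : ∃ t, chk3 f_A00pp_022_s3 t 2312 1978 335 = true := ex3_b k3248_A00pp_022_s3 k3249_A00pp_022_s3

theorem t7166_A00pp_022_s3 : ∃ t, chk3 f_A00pp_022_s3 t 2312 1978 167 = true := ex3_c k3247_A00pp_022_s3 t7165_A00pp_022_s3

theorem t7167_A00pp_022_s3 : ∃ t, chk3 f_A00pp_022_s3 t 1156 1978 167 = true := ex3_a t7166_A00pp_022_s3 t7164_A00pp_022_s3

theorem t7168_A00pp_022_s3 : ∃ t, chk3 f_A00pp_022_s3 t 1156 1978 83 = true := ex3_c k3246_A00pp_022_s3 t7167_A00pp_022_s3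

theorem t7169_A00pp_022_s3 : ∃ t, chk3 f_A00pp_022_s3 t 578 1978 83 = true := ex3_a t7168_A00pp_022_s3 t7162_A00pp_022_s3

theorem t7170_A00pp_022_s3 : ∃ t, chk3 f_A00pp_022_s3 t 289 1978 83 = true := ex3_a t7169_A00pp_022_s3 k3259_A00pp_022_s3

theorem t7171_A00pp_022_s3 : ∃ t, chk3 f_A00pp_022_s3 t 289 989 83 = true := ex3_b t7170_A00pp_022_s3 k3260_A00pp_022_s3

theorem t7172_A00pp_022_s3 : ∃ t, chk3 f_A00pp_022_s3 t 289 1978 82 = true := ex3_a k3243_A00pp_022_s3 k3244_A00pp_022_s3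

theorem t7173_A00pp_022_s3 : ∃ t, chk3 f_A00pp_022_s3 t 289 989 82 = true := ex3_b t7172_A00pp_022_s3 k3245_A00pp_022_s3

theorem t7174_A00pp_022_s3 : ∃ t, chk3 f_A00pp_022_s3 t 289 989 41 = true := ex3_c t7173_A00pp_022_s3 t7171_A00pp_022_s3

theorem t7175_A00pp_022_s3 : ∃ t, chk3 f_A00pp_022_s3 t 2317 1977 166 = true := ex3_b k3239_A00pp_022_s3 k3240_A00pp_022_s3

theorem t7176_A00pp_022_s3 : ∃ t, chk3 f_A00pp_022_s3 t 2316 1977 333 = true := ex3_b k3237_A00pp_022_s3 k3238_A00pp_022_s3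

theorem t7177_A00pp_022_s3 : ∃ t, chk3 f_A00pp_022_s3 t 2316 1977 166 = true := ex3_c k3236_A00pp_022_s3 t7176_A00pp_022_s3

theorem t7178_A00pp_022_s3 : ∃ t, chk3 f_A00pp_022_s3 t 1158 1977 166 = true := ex3_a t7177_A00pp_022_s3 t7175_A00pp_022_s3

theorem t7179_A00pp_022_s3 : ∃ t, chk3 f_A00pp_022_s3 t 1158 1977 83 = true := ex3_c t7178_A00pp_022_s3 k3241_A00pp_022_s3

theorem t7180_A00pp_022_s3 : ∃ t, chk3 f_A00pp_022_s3 t 579 1977 83 = true := ex3_a t7179_A00pp_022_s3 k3242_A00pp_022_s3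

theorem t7181_A00pp_022_s3 : ∃ t, chk3 f_A00pp_022_s3 t 2318 1976 166 = true := ex3_b k3232_A00pp_022_s3 k3233_A00pp_022_s3

theorem t7182_A00pp_022_s3 : ∃ t, chk3 f_A00pp_022_s3 t 1159 1976 166 = true := ex3_a t7181_A00pp_022_s3 k3234_A00pp_022_s3

theorem t7183_A00pp_022_s3 : ∃ t, chk3 f_A00pp_022_s3 t 1159 1976 83 = true := ex3_c t7182_A00pp_022_s3 k3235_A00pp_022_s3

theorem t7184_A00pp_022_s3 : ∃ t, chk3 f_A00pp_022_s3 t 1158 1976 167 = true := ex3_c k3230_A00pp_022_s3 k3231_A00pp_022_s3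

theorem t7185_A00pp_022_s3 : ∃ t, chk3 f_A00pp_022_s3 t 2317 1976 166 = true := ex3_c k3228_A00pp_022_s3 k3229_A00pp_022_s3

theorem t7186_A00pp_022_s3 : ∃ t, chk3 f_A00pp_022_s3 t 1158 1976 166 = true := ex3_a k3227_A00pp_022_s3 t7185_A00pp_022_s3

theorem t7187_A00pp_022_s3 : ∃ t, chk3 f_A00pp_022_s3 t 1158 1976 83 = true := ex3_c t7186_A00pp_022_s3 t7184_A00pp_022_s3

theorem t7188_A00pp_022_s3 : ∃ t, chk3 f_A00pp_022_s3 t 579 1976 83 = true := ex3_a t7187_A00pp_022_s3 t7183_A00pp_022_s3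

theorem t7189_A00pp_022_s3 : ∃ t, chk3 f_A00pp_022_s3 t 579 988 83 = true := ex3_b t7188_A00pp_022_s3 t7180_A00pp_022_s3

theorem t7190_A00pp_022_s3 : ∃ t, chk3 f_A00pp_022_s3 t 1157 3955 167 = true := ex3_a k3225_A00pp_022_s3 k3226_A00pp_022_s3

theorem t7191_A00pp_022_s3 : ∃ t, chk3 f_A00pp_022_s3 t 1157 3954 167 = true := ex3_a k3223_A00pp_022_s3 k3224_A00pp_022_s3

theorem t7192_A00pp_022_s3 : ∃ t, chk3 f_A00pp_022_s3 t 1157 1977 167 = true := ex3_b t7191_A00pp_022_s3 t7190_A00pp_022_s3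

theorem t7193_A00pp_022_s3 : ∃ t, chk3 f_A00pp_022_s3 t 1157 1976 167 = true := ex3_a k3221_A00pp_022_s3 k3222_A00pp_022_s3

theorem t7194_A00pp_022_s3 : ∃ t, chk3 f_A00pp_022_s3 t 1157 988 167 = true := ex3_b t7193_A00pp_022_s3 t7192_A00pp_022_s3

theorem t7195_A00pp_022_s3 : ∃ t, chk3 f_A00pp_022_s3 t 1157 988 166 = true := ex3_b k3219_A00pp_022_s3 k3220_A00pp_022_s3

theorem t7196_A00pp_022_s3 : ∃ t, chk3 f_A00pp_022_s3 t 1157 988 83 = true := ex3_c t7195_A00pp_022_s3 t7194_A00pp_022_s3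

theorem t7197_A00pp_022_s3 : ∃ t, chk3 f_A00pp_022_s3 t 1156 988 83 = true := ex3_c k3217_A00pp_022_s3 k3218_A00pp_022_s3

theorem t7198_A00pp_022_s3 : ∃ t, chk3 f_A00pp_022_s3 t 578 988 83 = true := ex3_a t7197_A00pp_022_s3 t7196_A00pp_022_s3

theorem t7199_A00pp_022_s3 : ∃ t, chk3 f_A00pp_022_s3 t 289 988 83 = true := ex3_a t7198_A00pp_022_s3 t7189_A00pp_022_s3

theorem t7200_A00pp_022_s3 : ∃ t, chk3 f_A00pp_022_s3 t 1159 3954 165 = true := ex3_a k3214_A00pp_022_s3 k3215_A00pp_022_s3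

theorem t7201_A00pp_022_s3 : ∃ t, chk3 f_A00pp_022_s3 t 1159 1977 165 = true := ex3_b t7200_A00pp_022_s3 k3216_A00pp_022_s3

theorem t7202_A00pp_022_s3 : ∃ t, chk3 f_A00pp_022_s3 t 2319 3953 165 = true := ex3_c k3212_A00pp_022_s3 k3213_A00pp_022_s3

theorem t7203_A00pp_022_s3 : ∃ t, chk3 f_A00pp_022_s3 t 2319 1976 165 = true := ex3_b k3211_A00pp_022_s3 t7202_A00pp_022_s3

theorem t7204_A00pp_022_s3 : ∃ t, chk3 f_A00pp_022_s3 t 1159 1976 165 = true := ex3_a k3210_A00pp_022_s3 t7203_A00pp_022_s3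

theorem t7205_A00pp_022_s3 : ∃ t, chk3 f_A00pp_022_s3 t 1159 988 165 = true := ex3_b t7204_A00pp_022_s3 t7201_A00pp_022_s3

theorem t7206_A00pp_022_s3 : ∃ t, chk3 f_A00pp_022_s3 t 1159 988 164 = true := ex3_b k3208_A00pp_022_s3 k3209_A00pp_022_s3

theorem t7207_A00pp_022_s3 : ∃ t, chk3 f_A00pp_022_s3 t 1159 988 82 = true := ex3_c t7206_A00pp_022_s3 t7205_A00pp_022_s3

theorem t7208_A00pp_022_s3 : ∃ t, chk3 f_A00pp_022_s3 t 1158 1977 165 = true := ex3_a k3206_A00pp_022_s3 k3207_A00pp_022_s3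

theorem t7209_A00pp_022_s3 : ∃ t, chk3 f_A00pp_022_s3 t 1158 1977 82 = true := ex3_c k3205_A00pp_022_s3 t7208_A00pp_022_s3

theorem t7210_A00pp_022_s3 : ∃ t, chk3 f_A00pp_022_s3 t 1158 988 82 = true := ex3_b k3204_A00pp_022_s3 t7209_A00pp_022_s3

theorem t7211_A00pp_022_s3 : ∃ t, chk3 f_A00pp_022_s3 t 579 988 82 = true := ex3_a t7210_A00pp_022_s3 t7207_A00pp_022_s3

theorem t7212_A00pp_022_s3 : ∃ t, chk3 f_A00pp_022_s3 t 289 988 82 = true := ex3_a k3203_A00pp_022_s3 t7211_A00pp_022_s3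

theorem t7213_A00pp_022_s3 : ∃ t, chk3 f_A00pp_022_s3 t 289 988 41 = true := ex3_c t7212_A00pp_022_s3 t7199_A00pp_022_s3

theorem t7214_A00pp_022_s3 : ∃ t, chk3 f_A00pp_022_s3 t 289 494 41 = true := ex3_b t7213_A00pp_022_s3 t7174_A00pp_022_s3

theorem t7215_A00pp_022_s3 : ∃ t, chk3 f_A00pp_022_s3 t 1155 1979 167 = true := ex3_c k3201_A00pp_022_s3 k3202_A00pp_022_s3

theorem t7216_A00pp_022_s3 : ∃ t, chk3 f_A00pp_022_s3 t 577 1979 167 = true := ex3_a k3200_A00pp_022_s3 t7215_A00pp_022_s3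

theorem t7217_A00pp_022_s3 : ∃ t, chk3 f_A00pp_022_s3 t 577 989 167 = true := ex3_b k3199_A00pp_022_s3 t7216_A00pp_022_s3

theorem t7218_A00pp_022_s3 : ∃ t, chk3 f_A00pp_022_s3 t 577 989 83 = true := ex3_c k3198_A00pp_022_s3 t7217_A00pp_022_s3

theorem t7219_A00pp_022_s3 : ∃ t, chk3 f_A00pp_022_s3 t 288 989 83 = true := ex3_a k3197_A00pp_022_s3 t7218_A00pp_022_s3

theorem t7220_A00pp_022_s3 : ∃ t, chk3 f_A00pp_022_s3 t 288 989 41 = true := ex3_c k3196_A00pp_022_s3 t7219_A00pp_022_s3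

theorem t7221_A00pp_022_s3 : ∃ t, chk3 f_A00pp_022_s3 t 288 494 41 = true := ex3_b k3195_A00pp_022_s3 t7220_A00pp_022_s3

theorem t7222_A00pp_022_s3 : ∃ t, chk3 f_A00pp_022_s3 t 144 494 41 = true := ex3_a t7221_A00pp_022_s3 t7214_A00pp_022_s3

theorem t7223_A00pp_022_s3 : ∃ t, chk3 f_A00pp_022_s3 t 144 247 41 = true := ex3_b t7222_A00pp_022_s3 t7157_A00pp_022_s3

theorem t7224_A00pp_022_s3 : ∃ t, chk3 f_A00pp_022_s3 t 288 495 40 = true := ex3_a k3192_A00pp_022_s3 k3193_A00pp_022_s3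

theorem t7225_A00pp_022_s3 : ∃ t, chk3 f_A00pp_022_s3 t 144 495 40 = true := ex3_a t7224_A00pp_022_s3 k3194_A00pp_022_s3

theorem t7226_A00pp_022_s3 : ∃ t, chk3 f_A00pp_022_s3 t 289 988 40 = true := ex3_c k3189_A00pp_022_s3 k3190_A00pp_022_s3

theorem t7227_A00pp_022_s3 : ∃ t, chk3 f_A00pp_022_s3 t 289 494 40 = true := ex3_b t7226_A00pp_022_s3 k3191_A00pp_022_s3

theorem t7228_A00pp_022_s3 : ∃ t, chk3 f_A00pp_022_s3 t 1152 1978 160 = true := ex3_a k3182_A00pp_022_s3 k3183_A00pp_022_s3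

theorem t7229_A00pp_022_s3 : ∃ t, chk3 f_A00pp_022_s3 t 1152 1978 80 = true := ex3_c t7228_A00pp_022_s3 k3184_A00pp_022_s3

theorem t7230_A00pp_022_s3 : ∃ t, chk3 f_A00pp_022_s3 t 1152 989 80 = true := ex3_b t7229_A00pp_022_s3 k3185_A00pp_022_s3

theorem t7231_A00pp_022_s3 : ∃ t, chk3 f_A00pp_022_s3 t 576 989 80 = true := ex3_a t7230_A00pp_022_s3 k3186_A00pp_022_s3

theorem t7232_A00pp_022_s3 : ∃ t, chk3 f_A00pp_022_s3 t 1153 988 160 = true := ex3_b k3179_A00pp_022_s3 k3180_A00pp_022_s3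

theorem t7233_A00pp_022_s3 : ∃ t, chk3 f_A00pp_022_s3 t 1153 988 80 = true := ex3_c t7232_A00pp_022_s3 k3181_A00pp_022_s3

theorem t7234_A00pp_022_s3 : ∃ t, chk3 f_A00pp_022_s3 t 1152 988 161 = true := ex3_b k3177_A00pp_022_s3 k3178_A00pp_022_s3

theorem t7235_A00pp_022_s3 : ∃ t, chk3 f_A00pp_022_s3 t 1152 988 80 = true := ex3_c k3176_A00pp_022_s3 t7234_A00pp_022_s3

theorem t7236_A00pp_022_s3 : ∃ t, chk3 f_A00pp_022_s3 t 576 988 80 = true := ex3_a t7235_A00pp_022_s3 t7233_A00pp_022_s3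

theorem t7237_A00pp_022_s3 : ∃ t, chk3 f_A00pp_022_s3 t 576 494 80 = true := ex3_b t7236_A00pp_022_s3 t7231_A00pp_022_s3

theorem t7238_A00pp_022_s3 : ∃ t, chk3 f_A00pp_022_s3 t 576 494 40 = true := ex3_c t7237_A00pp_022_s3 k3187_A00pp_022_s3

theorem t7239_A00pp_022_s3 : ∃ t, chk3 f_A00pp_022_s3 t 288 494 40 = true := ex3_a t7238_A00pp_022_s3 k3188_A00pp_022_s3

theorem t7240_A00pp_022_s3 : ∃ t, chk3 f_A00pp_022_s3 t 144 494 40 = true := ex3_a t7239_A00pp_022_s3 t7227_A00pp_022_s3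

theorem t7241_A00pp_022_s3 : ∃ t, chk3 f_A00pp_022_s3 t 144 247 40 = true := ex3_b t7240_A00pp_022_s3 t7225_A00pp_022_s3

theorem t7242_A00pp_022_s3 : ∃ t, chk3 f_A00pp_022_s3 t 144 247 20 = true := ex3_c t7241_A00pp_022_s3 t7223_A00pp_022_s3

theorem t7243_A00pp_022_s3 : ∃ t, chk3 f_A00pp_022_s3 t 144 247 10 = true := ex3_c t7242_A00pp_022_s3 t7154_A00pp_022_s3

theorem t7244_A00pp_022_s3 : ∃ t, chk3 f_A00pp_022_s3 t 1157 987 168 = true := ex3_b k3170_A00pp_022_s3 k3171_A00pp_022_s3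

theorem t7245_A00pp_022_s3 : ∃ t, chk3 f_A00pp_022_s3 t 1157 987 84 = true := ex3_c t7244_A00pp_022_s3 k3172_A00pp_022_s3

theorem t7246_A00pp_022_s3 : ∃ t, chk3 f_A00pp_022_s3 t 1156 987 169 = true := ex3_b k3168_A00pp_022_s3 k3169_A00pp_022_s3

theorem t7247_A00pp_022_s3 : ∃ t, chk3 f_A00pp_022_s3 t 1156 987 84 = true := ex3_c k3167_A00pp_022_s3 t7246_A00pp_022_s3

theorem t7248_A00pp_022_s3 : ∃ t, chk3 f_A00pp_022_s3 t 578 987 84 = true := ex3_a t7247_A00pp_022_s3 t7245_A00pp_022_s3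

theorem t7249_A00pp_022_s3 : ∃ t, chk3 f_A00pp_022_s3 t 289 987 84 = true := ex3_a t7248_A00pp_022_s3 k3173_A00pp_022_s3

theorem t7250_A00pp_022_s3 : ∃ t, chk3 f_A00pp_022_s3 t 289 987 42 = true := ex3_c t7249_A00pp_022_s3 k3174_A00pp_022_s3

theorem t7251_A00pp_022_s3 : ∃ t, chk3 f_A00pp_022_s3 t 1158 986 84 = true := ex3_c k3163_A00pp_022_s3 k3164_A00pp_022_s3

theorem t7252_A00pp_022_s3 : ∃ t, chk3 f_A00pp_022_s3 t 579 986 84 = true := ex3_a t7251_A00pp_022_s3 k3165_A00pp_022_s3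

theorem t7253_A00pp_022_s3 : ∃ t, chk3 f_A00pp_022_s3 t 579 986 42 = true := ex3_c t7252_A00pp_022_s3 k3166_A00pp_022_s3

theorem t7254_A00pp_022_s3 : ∃ t, chk3 f_A00pp_022_s3 t 578 986 85 = true := ex3_a k3161_A00pp_022_s3 k3162_A00pp_022_s3

theorem t7255_A00pp_022_s3 : ∃ t, chk3 f_A00pp_022_s3 t 578 986 42 = true := ex3_c k3160_A00pp_022_s3 t7254_A00pp_022_s3

theorem t7256_A00pp_022_s3 : ∃ t, chk3 f_A00pp_022_s3 t 289 986 42 = true := ex3_a t7255_A00pp_022_s3 t7253_A00pp_022_s3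

theorem t7257_A00pp_022_s3 : ∃ t, chk3 f_A00pp_022_s3 t 289 493 42 = true := ex3_b t7256_A00pp_022_s3 t7250_A00pp_022_s3

theorem t7258_A00pp_022_s3 : ∃ t, chk3 f_A00pp_022_s3 t 289 493 21 = true := ex3_c t7257_A00pp_022_s3 k3175_A00pp_022_s3

theorem t7259_A00pp_022_s3 : ∃ t, chk3 f_A00pp_022_s3 t 578 492 86 = true := ex3_b k3156_A00pp_022_s3 k3157_A00pp_022_s3

theorem t7260_A00pp_022_s3 : ∃ t, chk3 f_A00pp_022_s3 t 289 492 86 = true := ex3_a t7259_A00pp_022_s3 k3158_A00pp_022_s3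

theorem t7261_A00pp_022_s3 : ∃ t, chk3 f_A00pp_022_s3 t 289 492 43 = true := ex3_c t7260_A00pp_022_s3 k3159_A00pp_022_s3

theorem t7262_A00pp_022_s3 : ∃ t, chk3 f_A00pp_022_s3 t 579 492 85 = true := ex3_b k3154_A00pp_022_s3 k3155_A00pp_022_s3

theorem t7263_A00pp_022_s3 : ∃ t, chk3 f_A00pp_022_s3 t 579 985 84 = true := ex3_c k3152_A00pp_022_s3 k3153_A00pp_022_s3

theorem t7264_A00pp_022_s3 : ∃ t, chk3 f_A00pp_022_s3 t 579 492 84 = true := ex3_b k3151_A00pp_022_s3 t7263_A00pp_022_s3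

theorem t7265_A00pp_022_s3 : ∃ t, chk3 f_A00pp_022_s3 t 579 492 42 = true := ex3_c t7264_A00pp_022_s3 t7262_A00pp_022_s3

theorem t7266_A00pp_022_s3 : ∃ t, chk3 f_A00pp_022_s3 t 289 492 42 = true := ex3_a k3150_A00pp_022_s3 t7265_A00pp_022_s3

theorem t7267_A00pp_022_s3 : ∃ t, chk3 f_A00pp_022_s3 t 289 492 21 = true := ex3_c t7266_A00pp_022_s3 t7261_A00pp_022_s3

theorem t7268_A00pp_022_s3 : ∃ t, chk3 f_A00pp_022_s3 t 289 246 21 = true := ex3_b t7267_A00pp_022_s3 t7258_A00pp_022_s3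

theorem t7269_A00pp_022_s3 : ∃ t, chk3 f_A00pp_022_s3 t 576 493 87 = true := ex3_b k3147_A00pp_022_s3 k3148_A00pp_022_s3

theorem t7270_A00pp_022_s3 : ∃ t, chk3 f_A00pp_022_s3 t 288 493 87 = true := ex3_a t7269_A00pp_022_s3 k3149_A00pp_022_s3

theorem t7271_A00pp_022_s3 : ∃ t, chk3 f_A00pp_022_s3 t 576 987 86 = true := ex3_c k3144_A00pp_022_s3 k3145_A00pp_022_s3

theorem t7272_A00pp_022_s3 : ∃ t, chk3 f_A00pp_022_s3 t 288 987 86 = true := ex3_a t7271_A00pp_022_s3 k3146_A00pp_022_s3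

theorem t7273_A00pp_022_s3 : ∃ t, chk3 f_A00pp_022_s3 t 577 986 86 = true := ex3_a k3142_A00pp_022_s3 k3143_A00pp_022_s3

theorem t7274_A00pp_022_s3 : ∃ t, chk3 f_A00pp_022_s3 t 288 986 86 = true := ex3_a k3141_A00pp_022_s3 t7273_A00pp_022_s3

theorem t7275_A00pp_022_s3 : ∃ t, chk3 f_A00pp_022_s3 t 288 493 86 = true := ex3_b t7274_A00pp_022_s3 t7272_A00pp_022_s3

theorem t7276_A00pp_022_s3 : ∃ t, chk3 f_A00pp_022_s3 t 288 493 43 = true := ex3_c t7275_A00pp_022_s3 t7270_A00pp_022_s3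

theorem t7277_A00pp_022_s3 : ∃ t, chk3 f_A00pp_022_s3 t 288 985 87 = true := ex3_a k3139_A00pp_022_s3 k3140_A00pp_022_s3

theorem t7278_A00pp_022_s3 : ∃ t, chk3 f_A00pp_022_s3 t 288 985 43 = true := ex3_c k3138_A00pp_022_s3 t7277_A00pp_022_s3

theorem t7279_A00pp_022_s3 : ∃ t, chk3 f_A00pp_022_s3 t 288 492 43 = true := ex3_b k3137_A00pp_022_s3 t7278_A00pp_022_s3

theorem t7280_A00pp_022_s3 : ∃ t, chk3 f_A00pp_022_s3 t 288 246 43 = true := ex3_b t7279_A00pp_022_s3 t7276_A00pp_022_s3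

theorem t7281_A00pp_022_s3 : ∃ t, chk3 f_A00pp_022_s3 t 577 987 171 = true := ex3_a k3135_A00pp_022_s3 k3136_A00pp_022_s3

theorem t7282_A00pp_022_s3 : ∃ t, chk3 f_A00pp_022_s3 t 577 987 85 = true := ex3_c k3134_A00pp_022_s3 t7281_A00pp_022_s3

theorem t7283_A00pp_022_s3 : ∃ t, chk3 f_A00pp_022_s3 t 577 493 85 = true := ex3_b k3133_A00pp_022_s3 t7282_A00pp_022_s3

theorem t7284_A00pp_022_s3 : ∃ t, chk3 f_A00pp_022_s3 t 577 493 42 = true := ex3_c k3132_A00pp_022_s3 t7283_A00pp_022_s3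

theorem t7285_A00pp_022_s3 : ∃ t, chk3 f_A00pp_022_s3 t 288 493 42 = true := ex3_a k3131_A00pp_022_s3 t7284_A00pp_022_s3

theorem t7286_A00pp_022_s3 : ∃ t, chk3 f_A00pp_022_s3 t 288 246 42 = true := ex3_b k3130_A00pp_022_s3 t7285_A00pp_022_s3

theorem t7287_A00pp_022_s3 : ∃ t, chk3 f_A00pp_022_s3 t 288 246 21 = true := ex3_c t7286_A00pp_022_s3 t7280_A00pp_022_s3

theorem t7288_A00pp_022_s3 : ∃ t, chk3 f_A00pp_022_s3 t 144 246 21 = true := ex3_a t7287_A00pp_022_s3 t7268_A00pp_022_s3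

theorem t7289_A00pp_022_s3 : ∃ t, chk3 f_A00pp_022_s3 t 1159 1975 166 = true := ex3_a k3127_A00pp_022_s3 k3128_A00pp_022_s3

theorem t7290_A00pp_022_s3 : ∃ t, chk3 f_A00pp_022_s3 t 1159 987 166 = true := ex3_b k3126_A00pp_022_s3 t7289_A00pp_022_s3

theorem t7291_A00pp_022_s3 : ∃ t, chk3 f_A00pp_022_s3 t 1159 987 83 = true := ex3_c t7290_A00pp_022_s3 k3129_A00pp_022_s3

theorem t7292_A00pp_022_s3 : ∃ t, chk3 f_A00pp_022_s3 t 1158 1975 167 = true := ex3_a k3124_A00pp_022_s3 k3125_A00pp_022_s3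

theorem t7293_A00pp_022_s3 : ∃ t, chk3 f_A00pp_022_s3 t 1158 987 167 = true := ex3_b k3123_A00pp_022_s3 t7292_A00pp_022_s3

theorem t7294_A00pp_022_s3 : ∃ t, chk3 f_A00pp_022_s3 t 1158 987 83 = true := ex3_c k3122_A00pp_022_s3 t7293_A00pp_022_s3

theorem t7295_A00pp_022_s3 : ∃ t, chk3 f_A00pp_022_s3 t 579 987 83 = true := ex3_a t7294_A00pp_022_s3 t7291_A00pp_022_s3

theorem t7296_A00pp_022_s3 : ∃ t, chk3 f_A00pp_022_s3 t 579 493 83 = true := ex3_b k3121_A00pp_022_s3 t7295_A00pp_022_s3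

theorem t7297_A00pp_022_s3 : ∃ t, chk3 f_A00pp_022_s3 t 579 987 82 = true := ex3_a k3119_A00pp_022_s3 k3120_A00pp_022_s3

theorem t7298_A00pp_022_s3 : ∃ t, chk3 f_A00pp_022_s3 t 579 493 82 = true := ex3_b k3118_A00pp_022_s3 t7297_A00pp_022_s3

theorem t7299_A00pp_022_s3 : ∃ t, chk3 f_A00pp_022_s3 t 579 493 41 = true := ex3_c t7298_A00pp_022_s3 t7296_A00pp_022_s3

theorem t7300_A00pp_022_s3 : ∃ t, chk3 f_A00pp_022_s3 t 578 493 41 = true := ex3_b k3116_A00pp_022_s3 k3117_A00pp_022_s3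

theorem t7301_A00pp_022_s3 : ∃ t, chk3 f_A00pp_022_s3 t 289 493 41 = true := ex3_a t7300_A00pp_022_s3 t7299_A00pp_022_s3

theorem t7302_A00pp_022_s3 : ∃ t, chk3 f_A00pp_022_s3 t 289 246 41 = true := ex3_b k3115_A00pp_022_s3 t7301_A00pp_022_s3

theorem t7303_A00pp_022_s3 : ∃ t, chk3 f_A00pp_022_s3 t 578 492 80 = true := ex3_c k3110_A00pp_022_s3 k3111_A00pp_022_s3

theorem t7304_A00pp_022_s3 : ∃ t, chk3 f_A00pp_022_s3 t 289 492 80 = true := ex3_a t7303_A00pp_022_s3 k3112_A00pp_022_s3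

theorem t7305_A00pp_022_s3 : ∃ t, chk3 f_A00pp_022_s3 t 289 492 40 = true := ex3_c t7304_A00pp_022_s3 k3113_A00pp_022_s3

theorem t7306_A00pp_022_s3 : ∃ t, chk3 f_A00pp_022_s3 t 289 246 40 = true := ex3_b t7305_A00pp_022_s3 k3114_A00pp_022_s3

theorem t7307_A00pp_022_s3 : ∃ t, chk3 f_A00pp_022_s3 t 289 246 20 = true := ex3_c t7306_A00pp_022_s3 t7302_A00pp_022_s3

theorem t7308_A00pp_022_s3 : ∃ t, chk3 f_A00pp_022_s3 t 576 987 81 = true := ex3_c k3106_A00pp_022_s3 k3107_A00pp_022_s3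

theorem t7309_A00pp_022_s3 : ∃ t, chk3 f_A00pp_022_s3 t 576 986 81 = true := ex3_a k3104_A00pp_022_s3 k3105_A00pp_022_s3

theorem t7310_A00pp_022_s3 : ∃ t, chk3 f_A00pp_022_s3 t 576 493 81 = true := ex3_b t7309_A00pp_022_s3 t7308_A00pp_022_s3

theorem t7311_A00pp_022_s3 : ∃ t, chk3 f_A00pp_022_s3 t 288 493 81 = true := ex3_a t7310_A00pp_022_s3 k3108_A00pp_022_s3

theorem t7312_A00pp_022_s3 : ∃ t, chk3 f_A00pp_022_s3 t 1154 493 160 = true := ex3_b k3100_A00pp_022_s3 k3101_A00pp_022_s3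

theorem t7313_A00pp_022_s3 : ∃ t, chk3 f_A00pp_022_s3 t 577 493 160 = true := ex3_a t7312_A00pp_022_s3 k3102_A00pp_022_s3

theorem t7314_A00pp_022_s3 : ∃ t, chk3 f_A00pp_022_s3 t 577 493 80 = true := ex3_c t7313_A00pp_022_s3 k3103_A00pp_022_s3

theorem t7315_A00pp_022_s3 : ∃ t, chk3 f_A00pp_022_s3 t 576 493 161 = true := ex3_a k3098_A00pp_022_s3 k3099_A00pp_022_s3

theorem t7316_A00pp_022_s3 : ∃ t, chk3 f_A00pp_022_s3 t 576 493 80 = true := ex3_c k3097_A00pp_022_s3 t7315_A00pp_022_s3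

theorem t7317_A00pp_022_s3 : ∃ t, chk3 f_A00pp_022_s3 t 288 493 80 = true := ex3_a t7316_A00pp_022_s3 t7314_A00pp_022_s3

theorem t7318_A00pp_022_s3 : ∃ t, chk3 f_A00pp_022_s3 t 288 493 40 = true := ex3_c t7317_A00pp_022_s3 t7311_A00pp_022_s3

theorem t7319_A00pp_022_s3 : ∃ t, chk3 f_A00pp_022_s3 t 288 493 20 = true := ex3_c t7318_A00pp_022_s3 k3109_A00pp_022_s3

theorem t7320_A00pp_022_s3 : ∃ t, chk3 f_A00pp_022_s3 t 576 492 82 = true := ex3_c k3093_A00pp_022_s3 k3094_A00pp_022_s3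

theorem t7321_A00pp_022_s3 : ∃ t, chk3 f_A00pp_022_s3 t 288 492 82 = true := ex3_a t7320_A00pp_022_s3 k3095_A00pp_022_s3

theorem t7322_A00pp_022_s3 : ∃ t, chk3 f_A00pp_022_s3 t 288 492 41 = true := ex3_c t7321_A00pp_022_s3 k3096_A00pp_022_s3

theorem t7323_A00pp_022_s3 : ∃ t, chk3 f_A00pp_022_s3 t 577 492 81 = true := ex3_c k3091_A00pp_022_s3 k3092_A00pp_022_s3

theorem t7324_A00pp_022_s3 : ∃ t, chk3 f_A00pp_022_s3 t 288 492 81 = true := ex3_a k3090_A00pp_022_s3 t7323_A00pp_022_s3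

theorem t7325_A00pp_022_s3 : ∃ t, chk3 f_A00pp_022_s3 t 288 492 40 = true := ex3_c k3089_A00pp_022_s3 t7324_A00pp_022_s3

theorem t7326_A00pp_022_s3 : ∃ t, chk3 f_A00pp_022_s3 t 288 492 20 = true := ex3_c t7325_A00pp_022_s3 t7322_A00pp_022_s3

theorem t7327_A00pp_022_s3 : ∃ t, chk3 f_A00pp_022_s3 t 288 246 20 = true := ex3_b t7326_A00pp_022_s3 t7319_A00pp_022_s3

theorem t7328_A00pp_022_s3 : ∃ t, chk3 f_A00pp_022_s3 t 144 246 20 = true := ex3_a t7327_A00pp_022_s3 t7307_A00pp_022_s3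

theorem t7329_A00pp_022_s3 : ∃ t, chk3 f_A00pp_022_s3 t 144 246 10 = true := ex3_c t7328_A00pp_022_s3 t7288_A00pp_022_s3

theorem t7330_A00pp_022_s3 : ∃ t, chk3 f_A00pp_022_s3 t 144 123 10 = true := ex3_b t7329_A00pp_022_s3 t7243_A00pp_022_s3

theorem t7331_A00pp_022_s3 : ∃ t, chk3 f_A00pp_022_s3 t 72 123 10 = true := ex3_a t7330_A00pp_022_s3 t7038_A00pp_022_s3

theorem t7332_A00pp_022_s3 : ∃ t, chk3 f_A00pp_022_s3 t 72 123 5 = true := ex3_c t7331_A00pp_022_s3 t6845_A00pp_022_s3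

theorem t7333_A00pp_022_s3 : ∃ t, chk3 f_A00pp_022_s3 t 288 491 44 = true := ex3_a k3083_A00pp_022_s3 k3084_A00pp_022_s3

theorem t7334_A00pp_022_s3 : ∃ t, chk3 f_A00pp_022_s3 t 144 491 44 = true := ex3_a t7333_A00pp_022_s3 k3085_A00pp_022_s3

theorem t7335_A00pp_022_s3 : ∃ t, chk3 f_A00pp_022_s3 t 144 490 44 = true := ex3_a k3081_A00pp_022_s3 k3082_A00pp_022_s3

theorem t7336_A00pp_022_s3 : ∃ t, chk3 f_A00pp_022_s3 t 144 245 44 = true := ex3_b t7335_A00pp_022_s3 t7334_A00pp_022_s3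

theorem t7337_A00pp_022_s3 : ∃ t, chk3 f_A00pp_022_s3 t 144 245 22 = true := ex3_c t7336_A00pp_022_s3 k3086_A00pp_022_s3

theorem t7338_A00pp_022_s3 : ∃ t, chk3 f_A00pp_022_s3 t 72 245 22 = true := ex3_a t7337_A00pp_022_s3 k3087_A00pp_022_s3

theorem t7339_A00pp_022_s3 : ∃ t, chk3 f_A00pp_022_s3 t 72 245 11 = true := ex3_c t7338_A00pp_022_s3 k3088_A00pp_022_s3

theorem t7340_A00pp_022_s3 : ∃ t, chk3 f_A00pp_022_s3 t 289 244 44 = true := ex3_b k3076_A00pp_022_s3 k3077_A00pp_022_s3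

theorem t7341_A00pp_022_s3 : ∃ t, chk3 f_A00pp_022_s3 t 289 244 22 = true := ex3_c t7340_A00pp_022_s3 k3078_A00pp_022_s3

theorem t7342_A00pp_022_s3 : ∃ t, chk3 f_A00pp_022_s3 t 288 244 22 = true := ex3_c k3074_A00pp_022_s3 k3075_A00pp_022_s3

theorem t7343_A00pp_022_s3 : ∃ t, chk3 f_A00pp_022_s3 t 144 244 22 = true := ex3_a t7342_A00pp_022_s3 t7341_A00pp_022_s3

theorem t7344_A00pp_022_s3 : ∃ t, chk3 f_A00pp_022_s3 t 72 244 22 = true := ex3_a t7343_A00pp_022_s3 k3079_A00pp_022_s3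

theorem t7345_A00pp_022_s3 : ∃ t, chk3 f_A00pp_022_s3 t 72 244 11 = true := ex3_c t7344_A00pp_022_s3 k3080_A00pp_022_s3

theorem t7346_A00pp_022_s3 : ∃ t, chk3 f_A00pp_022_s3 t 72 122 11 = true := ex3_b t7345_A00pp_022_s3 t7339_A00pp_022_s3

theorem t7347_A00pp_022_s3 : ∃ t, chk3 f_A00pp_022_s3 t 290 245 43 = true := ex3_b k3071_A00pp_022_s3 k3072_A00pp_022_s3

theorem t7348_A00pp_022_s3 : ∃ t, chk3 f_A00pp_022_s3 t 145 245 43 = true := ex3_a t7347_A00pp_022_s3 k3073_A00pp_022_s3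

theorem t7349_A00pp_022_s3 : ∃ t, chk3 f_A00pp_022_s3 t 290 491 85 = true := ex3_a k3068_A00pp_022_s3 k3069_A00pp_022_s3

theorem t7350_A00pp_022_s3 : ∃ t, chk3 f_A00pp_022_s3 t 290 491 84 = true := ex3_b k3066_A00pp_022_s3 k3067_A00pp_022_s3

theorem t7351_A00pp_022_s3 : ∃ t, chk3 f_A00pp_022_s3 t 290 491 42 = true := ex3_c t7350_A00pp_022_s3 t7349_A00pp_022_s3

theorem t7352_A00pp_022_s3 : ∃ t, chk3 f_A00pp_022_s3 t 145 491 42 = true := ex3_a t7351_A00pp_022_s3 k3070_A00pp_022_s3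

theorem t7353_A00pp_022_s3 : ∃ t, chk3 f_A00pp_022_s3 t 291 490 42 = true := ex3_c k3064_A00pp_022_s3 k3065_A00pp_022_s3

theorem t7354_A00pp_022_s3 : ∃ t, chk3 f_A00pp_022_s3 t 145 490 42 = true := ex3_a k3063_A00pp_022_s3 t7353_A00pp_022_s3

theorem t7355_A00pp_022_s3 : ∃ t, chk3 f_A00pp_022_s3 t 145 245 42 = true := ex3_b t7354_A00pp_022_s3 t7352_A00pp_022_s3

theorem t7356_A00pp_022_s3 : ∃ t, chk3 f_A00pp_022_s3 t 145 245 21 = true := ex3_c t7355_A00pp_022_s3 t7348_A00pp_022_s3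

theorem t7357_A00pp_022_s3 : ∃ t, chk3 f_A00pp_022_s3 t 291 489 42 = true := ex3_a k3060_A00pp_022_s3 k3061_A00pp_022_s3

theorem t7358_A00pp_022_s3 : ∃ t, chk3 f_A00pp_022_s3 t 291 244 42 = true := ex3_b k3059_A00pp_022_s3 t7357_A00pp_022_s3

theorem t7359_A00pp_022_s3 : ∃ t, chk3 f_A00pp_022_s3 t 291 244 21 = true := ex3_c t7358_A00pp_022_s3 k3062_A00pp_022_s3

theorem t7360_A00pp_022_s3 : ∃ t, chk3 f_A00pp_022_s3 t 290 244 43 = true := ex3_b k3057_A00pp_022_s3 k3058_A00pp_022_s3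

theorem t7361_A00pp_022_s3 : ∃ t, chk3 f_A00pp_022_s3 t 290 244 21 = true := ex3_c k3056_A00pp_022_s3 t7360_A00pp_022_s3

theorem t7362_A00pp_022_s3 : ∃ t, chk3 f_A00pp_022_s3 t 145 244 21 = true := ex3_a t7361_A00pp_022_s3 t7359_A00pp_022_s3

theorem t7363_A00pp_022_s3 : ∃ t, chk3 f_A00pp_022_s3 t 145 122 21 = true := ex3_b t7362_A00pp_022_s3 t7356_A00pp_022_s3

theorem t7364_A00pp_022_s3 : ∃ t, chk3 f_A00pp_022_s3 t 582 491 83 = true := ex3_b k3053_A00pp_022_s3 k3054_A00pp_022_s3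

theorem t7365_A00pp_022_s3 : ∃ t, chk3 f_A00pp_022_s3 t 291 491 83 = true := ex3_a t7364_A00pp_022_s3 k3055_A00pp_022_s3

theorem t7366_A00pp_022_s3 : ∃ t, chk3 f_A00pp_022_s3 t 583 491 82 = true := ex3_b k3051_A00pp_022_s3 k3052_A00pp_022_s3

theorem t7367_A00pp_022_s3 : ∃ t, chk3 f_A00pp_022_s3 t 291 491 82 = true := ex3_a k3050_A00pp_022_s3 t7366_A00pp_022_s3

theorem t7368_A00pp_022_s3 : ∃ t, chk3 f_A00pp_022_s3 t 291 491 41 = true := ex3_c t7367_A00pp_022_s3 t7365_A00pp_022_s3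

theorem t7369_A00pp_022_s3 : ∃ t, chk3 f_A00pp_022_s3 t 583 490 41 = true := ex3_c k3048_A00pp_022_s3 k3049_A00pp_022_s3

theorem t7370_A00pp_022_s3 : ∃ t, chk3 f_A00pp_022_s3 t 291 490 41 = true := ex3_a k3047_A00pp_022_s3 t7369_A00pp_022_s3

theorem t7371_A00pp_022_s3 : ∃ t, chk3 f_A00pp_022_s3 t 291 245 41 = true := ex3_b t7370_A00pp_022_s3 t7368_A00pp_022_s3

theorem t7372_A00pp_022_s3 : ∃ t, chk3 f_A00pp_022_s3 t 291 491 40 = true := ex3_a k3045_A00pp_022_s3 k3046_A00pp_022_s3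

theorem t7373_A00pp_022_s3 : ∃ t, chk3 f_A00pp_022_s3 t 291 245 40 = true := ex3_b k3044_A00pp_022_s3 t7372_A00pp_022_s3

theorem t7374_A00pp_022_s3 : ∃ t, chk3 f_A00pp_022_s3 t 291 245 20 = true := ex3_c t7373_A00pp_022_s3 t7371_A00pp_022_s3

theorem t7375_A00pp_022_s3 : ∃ t, chk3 f_A00pp_022_s3 t 580 490 40 = true := ex3_c k3039_A00pp_022_s3 k3040_A00pp_022_s3

theorem t7376_A00pp_022_s3 : ∃ t, chk3 f_A00pp_022_s3 t 290 490 40 = true := ex3_a t7375_A00pp_022_s3 k3041_A00pp_022_s3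

theorem t7377_A00pp_022_s3 : ∃ t, chk3 f_A00pp_022_s3 t 290 245 40 = true := ex3_b t7376_A00pp_022_s3 k3042_A00pp_022_s3

theorem t7378_A00pp_022_s3 : ∃ t, chk3 f_A00pp_022_s3 t 290 245 20 = true := ex3_c t7377_A00pp_022_s3 k3043_A00pp_022_s3

theorem t7379_A00pp_022_s3 : ∃ t, chk3 f_A00pp_022_s3 t 145 245 20 = true := ex3_a t7378_A00pp_022_s3 t7374_A00pp_022_s3

theorem t7380_A00pp_022_s3 : ∃ t, chk3 f_A00pp_022_s3 t 291 489 80 = true := ex3_a k3035_A00pp_022_s3 k3036_A00pp_022_s3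

theorem t7381_A00pp_022_s3 : ∃ t, chk3 f_A00pp_022_s3 t 291 489 40 = true := ex3_c t7380_A00pp_022_s3 k3037_A00pp_022_s3

theorem t7382_A00pp_022_s3 : ∃ t, chk3 f_A00pp_022_s3 t 291 488 40 = true := ex3_c k3033_A00pp_022_s3 k3034_A00pp_022_s3

theorem t7383_A00pp_022_s3 : ∃ t, chk3 f_A00pp_022_s3 t 291 244 40 = true := ex3_b t7382_A00pp_022_s3 t7381_A00pp_022_s3

theorem t7384_A00pp_022_s3 : ∃ t, chk3 f_A00pp_022_s3 t 291 244 20 = true := ex3_c t7383_A00pp_022_s3 k3038_A00pp_022_s3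

theorem t7385_A00pp_022_s3 : ∃ t, chk3 f_A00pp_022_s3 t 290 244 41 = true := ex3_b k3031_A00pp_022_s3 k3032_A00pp_022_s3

theorem t7386_A00pp_022_s3 : ∃ t, chk3 f_A00pp_022_s3 t 581 244 81 = true := ex3_b k3029_A00pp_022_s3 k3030_A00pp_022_s3

theorem t7387_A00pp_022_s3 : ∃ t, chk3 f_A00pp_022_s3 t 290 244 81 = true := ex3_a k3028_A00pp_022_s3 t7386_A00pp_022_s3

theorem t7388_A00pp_022_s3 : ∃ t, chk3 f_A00pp_022_s3 t 290 244 40 = true := ex3_c k3027_A00pp_022_s3 t7387_A00pp_022_s3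

theorem t7389_A00pp_022_s3 : ∃ t, chk3 f_A00pp_022_s3 t 290 244 20 = true := ex3_c t7388_A00pp_022_s3 t7385_A00pp_022_s3

theorem t7390_A00pp_022_s3 : ∃ t, chk3 f_A00pp_022_s3 t 145 244 20 = true := ex3_a t7389_A00pp_022_s3 t7384_A00pp_022_s3

theorem t7391_A00pp_022_s3 : ∃ t, chk3 f_A00pp_022_s3 t 145 122 20 = true := ex3_b t7390_A00pp_022_s3 t7379_A00pp_022_s3

theorem t7392_A00pp_022_s3 : ∃ t, chk3 f_A00pp_022_s3 t 145 122 10 = true := ex3_c t7391_A00pp_022_s3 t7363_A00pp_022_s3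

theorem t7393_A00pp_022_s3 : ∃ t, chk3 f_A00pp_022_s3 t 578 491 43 = true := ex3_c k3024_A00pp_022_s3 k3025_A00pp_022_s3

theorem t7394_A00pp_022_s3 : ∃ t, chk3 f_A00pp_022_s3 t 289 491 43 = true := ex3_a t7393_A00pp_022_s3 k3026_A00pp_022_s3

theorem t7395_A00pp_022_s3 : ∃ t, chk3 f_A00pp_022_s3 t 289 245 43 = true := ex3_b k3023_A00pp_022_s3 t7394_A00pp_022_s3

theorem t7396_A00pp_022_s3 : ∃ t, chk3 f_A00pp_022_s3 t 289 245 21 = true := ex3_c k3022_A00pp_022_s3 t7395_A00pp_022_s3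

theorem t7397_A00pp_022_s3 : ∃ t, chk3 f_A00pp_022_s3 t 576 491 84 = true := ex3_c k3017_A00pp_022_s3 k3018_A00pp_022_s3

theorem t7398_A00pp_022_s3 : ∃ t, chk3 f_A00pp_022_s3 t 576 245 84 = true := ex3_b k3016_A00pp_022_s3 t7397_A00pp_022_s3

theorem t7399_A00pp_022_s3 : ∃ t, chk3 f_A00pp_022_s3 t 576 245 42 = true := ex3_c t7398_A00pp_022_s3 k3019_A00pp_022_s3

theorem t7400_A00pp_022_s3 : ∃ t, chk3 f_A00pp_022_s3 t 288 245 42 = true := ex3_a t7399_A00pp_022_s3 k3020_A00pp_022_s3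

theorem t7401_A00pp_022_s3 : ∃ t, chk3 f_A00pp_022_s3 t 288 245 21 = true := ex3_c t7400_A00pp_022_s3 k3021_A00pp_022_s3

theorem t7402_A00pp_022_s3 : ∃ t, chk3 f_A00pp_022_s3 t 144 245 21 = true := ex3_a t7401_A00pp_022_s3 t7396_A00pp_022_s3

theorem t7403_A00pp_022_s3 : ∃ t, chk3 f_A00pp_022_s3 t 289 244 42 = true := ex3_b k3013_A00pp_022_s3 k3014_A00pp_022_s3

theorem t7404_A00pp_022_s3 : ∃ t, chk3 f_A00pp_022_s3 t 289 244 21 = true := ex3_c t7403_A00pp_022_s3 k3015_A00pp_022_s3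

theorem t7405_A00pp_022_s3 : ∃ t, chk3 f_A00pp_022_s3 t 288 244 43 = true := ex3_b k3011_A00pp_022_s3 k3012_A00pp_022_s3

theorem t7406_A00pp_022_s3 : ∃ t, chk3 f_A00pp_022_s3 t 288 244 21 = true := ex3_c k3010_A00pp_022_s3 t7405_A00pp_022_s3

theorem t7407_A00pp_022_s3 : ∃ t, chk3 f_A00pp_022_s3 t 144 244 21 = true := ex3_a t7406_A00pp_022_s3 t7404_A00pp_022_s3

theorem t7408_A00pp_022_s3 : ∃ t, chk3 f_A00pp_022_s3 t 144 122 21 = true := ex3_b t7407_A00pp_022_s3 t7402_A00pp_022_s3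

theorem t7409_A00pp_022_s3 : ∃ t, chk3 f_A00pp_022_s3 t 578 245 83 = true := ex3_b k3007_A00pp_022_s3 k3008_A00pp_022_s3

theorem t7410_A00pp_022_s3 : ∃ t, chk3 f_A00pp_022_s3 t 289 245 83 = true := ex3_a t7409_A00pp_022_s3 k3009_A00pp_022_s3

theorem t7411_A00pp_022_s3 : ∃ t, chk3 f_A00pp_022_s3 t 579 490 82 = true := ex3_c k3004_A00pp_022_s3 k3005_A00pp_022_s3

theorem t7412_A00pp_022_s3 : ∃ t, chk3 f_A00pp_022_s3 t 579 245 82 = true := ex3_b t7411_A00pp_022_s3 k3006_A00pp_022_s3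

theorem t7413_A00pp_022_s3 : ∃ t, chk3 f_A00pp_022_s3 t 578 245 82 = true := ex3_b k3002_A00pp_022_s3 k3003_A00pp_022_s3

theorem t7414_A00pp_022_s3 : ∃ t, chk3 f_A00pp_022_s3 t 289 245 82 = true := ex3_a t7413_A00pp_022_s3 t7412_A00pp_022_s3

theorem t7415_A00pp_022_s3 : ∃ t, chk3 f_A00pp_022_s3 t 289 245 41 = true := ex3_c t7414_A00pp_022_s3 t7410_A00pp_022_s3

theorem t7416_A00pp_022_s3 : ∃ t, chk3 f_A00pp_022_s3 t 579 245 81 = true := ex3_b k3000_A00pp_022_s3 k3001_A00pp_022_s3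

theorem t7417_A00pp_022_s3 : ∃ t, chk3 f_A00pp_022_s3 t 289 245 81 = true := ex3_a k2999_A00pp_022_s3 t7416_A00pp_022_s3

theorem t7418_A00pp_022_s3 : ∃ t, chk3 f_A00pp_022_s3 t 579 491 80 = true := ex3_c k2997_A00pp_022_s3 k2998_A00pp_022_s3

theorem t7419_A00pp_022_s3 : ∃ t, chk3 f_A00pp_022_s3 t 289 491 80 = true := ex3_a k2996_A00pp_022_s3 t7418_A00pp_022_s3

theorem t7420_A00pp_022_s3 : ∃ t, chk3 f_A00pp_022_s3 t 289 245 80 = true := ex3_b k2995_A00pp_022_s3 t7419_A00pp_022_s3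

theorem t7421_A00pp_022_s3 : ∃ t, chk3 f_A00pp_022_s3 t 289 245 40 = true := ex3_c t7420_A00pp_022_s3 t7417_A00pp_022_s3

theorem t7422_A00pp_022_s3 : ∃ t, chk3 f_A00pp_022_s3 t 289 245 20 = true := ex3_c t7421_A00pp_022_s3 t7415_A00pp_022_s3

theorem t7423_A00pp_022_s3 : ∃ t, chk3 f_A00pp_022_s3 t 577 245 83 = true := ex3_b k2993_A00pp_022_s3 k2994_A00pp_022_s3

theorem t7424_A00pp_022_s3 : ∃ t, chk3 f_A00pp_022_s3 t 288 245 83 = true := ex3_a k2992_A00pp_022_s3 t7423_A00pp_022_s3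

theorem t7425_A00pp_022_s3 : ∃ t, chk3 f_A00pp_022_s3 t 288 245 41 = true := ex3_c k2991_A00pp_022_s3 t7424_A00pp_022_s3

theorem t7426_A00pp_022_s3 : ∃ t, chk3 f_A00pp_022_s3 t 288 245 20 = true := ex3_c k2990_A00pp_022_s3 t7425_A00pp_022_s3

theorem t7427_A00pp_022_s3 : ∃ t, chk3 f_A00pp_022_s3 t 144 245 20 = true := ex3_a t7426_A00pp_022_s3 t7422_A00pp_022_s3

theorem t7428_A00pp_022_s3 : ∃ t, chk3 f_A00pp_022_s3 t 289 244 41 = true := ex3_c k2988_A00pp_022_s3 k2989_A00pp_022_s3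

theorem t7429_A00pp_022_s3 : ∃ t, chk3 f_A00pp_022_s3 t 144 244 41 = true := ex3_a k2987_A00pp_022_s3 t7428_A00pp_022_s3

theorem t7430_A00pp_022_s3 : ∃ t, chk3 f_A00pp_022_s3 t 144 244 20 = true := ex3_c k2986_A00pp_022_s3 t7429_A00pp_022_s3

theorem t7431_A00pp_022_s3 : ∃ t, chk3 f_A00pp_022_s3 t 144 122 20 = true := ex3_b t7430_A00pp_022_s3 t7427_A00pp_022_s3

theorem t7432_A00pp_022_s3 : ∃ t, chk3 f_A00pp_022_s3 t 144 122 10 = true := ex3_c t7431_A00pp_022_s3 t7408_A00pp_022_s3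

theorem t7433_A00pp_022_s3 : ∃ t, chk3 f_A00pp_022_s3 t 72 122 10 = true := ex3_a t7432_A00pp_022_s3 t7392_A00pp_022_s3

theorem t7434_A00pp_022_s3 : ∃ t, chk3 f_A00pp_022_s3 t 72 122 5 = true := ex3_c t7433_A00pp_022_s3 t7346_A00pp_022_s3

theorem t7435_A00pp_022_s3 : ∃ t, chk3 f_A00pp_022_s3 t 72 61 5 = true := ex3_b t7434_A00pp_022_s3 t7332_A00pp_022_s3

theorem t7436_A00pp_022_s3 : ∃ t, chk3 f_A00pp_022_s3 t 36 61 5 = true := ex3_a t7435_A00pp_022_s3 t6816_A00pp_022_s3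

theorem t7437_A00pp_022_s3 : ∃ t, chk3 f_A00pp_022_s3 t 147 243 41 = true := ex3_a k2982_A00pp_022_s3 k2983_A00pp_022_s3

theorem t7438_A00pp_022_s3 : ∃ t, chk3 f_A00pp_022_s3 t 295 243 40 = true := ex3_b k2980_A00pp_022_s3 k2981_A00pp_022_s3

theorem t7439_A00pp_022_s3 : ∃ t, chk3 f_A00pp_022_s3 t 147 243 40 = true := ex3_a k2979_A00pp_022_s3 t7438_A00pp_022_s3

theorem t7440_A00pp_022_s3 : ∃ t, chk3 f_A00pp_022_s3 t 147 243 20 = true := ex3_c t7439_A00pp_022_s3 t7437_A00pp_022_s3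

theorem t7441_A00pp_022_s3 : ∃ t, chk3 f_A00pp_022_s3 t 147 243 10 = true := ex3_c t7440_A00pp_022_s3 k2984_A00pp_022_s3

theorem t7442_A00pp_022_s3 : ∃ t, chk3 f_A00pp_022_s3 t 292 243 21 = true := ex3_c k2976_A00pp_022_s3 k2977_A00pp_022_s3

theorem t7443_A00pp_022_s3 : ∃ t, chk3 f_A00pp_022_s3 t 146 243 21 = true := ex3_a t7442_A00pp_022_s3 k2978_A00pp_022_s3

theorem t7444_A00pp_022_s3 : ∃ t, chk3 f_A00pp_022_s3 t 292 243 40 = true := ex3_b k2972_A00pp_022_s3 k2973_A00pp_022_s3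

theorem t7445_A00pp_022_s3 : ∃ t, chk3 f_A00pp_022_s3 t 292 243 20 = true := ex3_c t7444_A00pp_022_s3 k2974_A00pp_022_s3

theorem t7446_A00pp_022_s3 : ∃ t, chk3 f_A00pp_022_s3 t 146 243 20 = true := ex3_a t7445_A00pp_022_s3 k2975_A00pp_022_s3

theorem t7447_A00pp_022_s3 : ∃ t, chk3 f_A00pp_022_s3 t 146 243 10 = true := ex3_c t7446_A00pp_022_s3 t7443_A00pp_022_s3

theorem t7448_A00pp_022_s3 : ∃ t, chk3 f_A00pp_022_s3 t 73 243 10 = true := ex3_a t7447_A00pp_022_s3 t7441_A00pp_022_s3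

theorem t7449_A00pp_022_s3 : ∃ t, chk3 f_A00pp_022_s3 t 295 242 20 = true := ex3_c k2969_A00pp_022_s3 k2970_A00pp_022_s3

theorem t7450_A00pp_022_s3 : ∃ t, chk3 f_A00pp_022_s3 t 147 242 20 = true := ex3_a k2968_A00pp_022_s3 t7449_A00pp_022_s3

theorem t7451_A00pp_022_s3 : ∃ t, chk3 f_A00pp_022_s3 t 147 242 10 = true := ex3_c t7450_A00pp_022_s3 k2971_A00pp_022_s3

theorem t7452_A00pp_022_s3 : ∃ t, chk3 f_A00pp_022_s3 t 146 242 21 = true := ex3_c k2966_A00pp_022_s3 k2967_A00pp_022_s3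

theorem t7453_A00pp_022_s3 : ∃ t, chk3 f_A00pp_022_s3 t 146 242 20 = true := ex3_a k2964_A00pp_022_s3 k2965_A00pp_022_s3

theorem t7454_A00pp_022_s3 : ∃ t, chk3 f_A00pp_022_s3 t 146 242 10 = true := ex3_c t7453_A00pp_022_s3 t7452_A00pp_022_s3

theorem t7455_A00pp_022_s3 : ∃ t, chk3 f_A00pp_022_s3 t 73 242 10 = true := ex3_a t7454_A00pp_022_s3 t7451_A00pp_022_s3

theorem t7456_A00pp_022_s3 : ∃ t, chk3 f_A00pp_022_s3 t 73 121 10 = true := ex3_b t7455_A00pp_022_s3 t7448_A00pp_022_s3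

theorem t7457_A00pp_022_s3 : ∃ t, chk3 f_A00pp_022_s3 t 73 121 5 = true := ex3_c t7456_A00pp_022_s3 k2985_A00pp_022_s3

theorem t7458_A00pp_022_s3 : ∃ t, chk3 f_A00pp_022_s3 t 146 120 22 = true := ex3_b k2960_A00pp_022_s3 k2961_A00pp_022_s3

theorem t7459_A00pp_022_s3 : ∃ t, chk3 f_A00pp_022_s3 t 146 120 11 = true := ex3_c t7458_A00pp_022_s3 k2962_A00pp_022_s3

theorem t7460_A00pp_022_s3 : ∃ t, chk3 f_A00pp_022_s3 t 73 120 11 = true := ex3_a t7459_A00pp_022_s3 k2963_A00pp_022_s3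

theorem t7461_A00pp_022_s3 : ∃ t, chk3 f_A00pp_022_s3 t 147 241 10 = true := ex3_c k2958_A00pp_022_s3 k2959_A00pp_022_s3

theorem t7462_A00pp_022_s3 : ∃ t, chk3 f_A00pp_022_s3 t 146 241 10 = true := ex3_b k2956_A00pp_022_s3 k2957_A00pp_022_s3

theorem t7463_A00pp_022_s3 : ∃ t, chk3 f_A00pp_022_s3 t 73 241 10 = true := ex3_a t7462_A00pp_022_s3 t7461_A00pp_022_s3

theorem t7464_A00pp_022_s3 : ∃ t, chk3 f_A00pp_022_s3 t 147 240 10 = true := ex3_c k2954_A00pp_022_s3 k2955_A00pp_022_s3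

theorem t7465_A00pp_022_s3 : ∃ t, chk3 f_A00pp_022_s3 t 73 240 10 = true := ex3_a k2953_A00pp_022_s3 t7464_A00pp_022_s3

theorem t7466_A00pp_022_s3 : ∃ t, chk3 f_A00pp_022_s3 t 73 120 10 = true := ex3_b t7465_A00pp_022_s3 t7463_A00pp_022_s3

theorem t7467_A00pp_022_s3 : ∃ t, chk3 f_A00pp_022_s3 t 73 120 5 = true := ex3_c t7466_A00pp_022_s3 t7460_A00pp_022_s3

theorem t7468_A00pp_022_s3 : ∃ t, chk3 f_A00pp_022_s3 t 73 60 5 = true := ex3_b t7467_A00pp_022_s3 t7457_A00pp_022_s3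

theorem t7469_A00pp_022_s3 : ∃ t, chk3 f_A00pp_022_s3 t 144 243 23 = true := ex3_c k2950_A00pp_022_s3 k2951_A00pp_022_s3

theorem t7470_A00pp_022_s3 : ∃ t, chk3 f_A00pp_022_s3 t 144 121 23 = true := ex3_b k2949_A00pp_022_s3 t7469_A00pp_022_s3

theorem t7471_A00pp_022_s3 : ∃ t, chk3 f_A00pp_022_s3 t 72 121 23 = true := ex3_a t7470_A00pp_022_s3 k2952_A00pp_022_s3

theorem t7472_A00pp_022_s3 : ∃ t, chk3 f_A00pp_022_s3 t 145 243 22 = true := ex3_a k2947_A00pp_022_s3 k2948_A00pp_022_s3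

theorem t7473_A00pp_022_s3 : ∃ t, chk3 f_A00pp_022_s3 t 144 243 22 = true := ex3_a k2945_A00pp_022_s3 k2946_A00pp_022_s3

theorem t7474_A00pp_022_s3 : ∃ t, chk3 f_A00pp_022_s3 t 72 243 22 = true := ex3_a t7473_A00pp_022_s3 t7472_A00pp_022_s3

theorem t7475_A00pp_022_s3 : ∃ t, chk3 f_A00pp_022_s3 t 145 242 22 = true := ex3_a k2943_A00pp_022_s3 k2944_A00pp_022_s3

theorem t7476_A00pp_022_s3 : ∃ t, chk3 f_A00pp_022_s3 t 72 242 22 = true := ex3_a k2942_A00pp_022_s3 t7475_A00pp_022_s3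

theorem t7477_A00pp_022_s3 : ∃ t, chk3 f_A00pp_022_s3 t 72 121 22 = true := ex3_b t7476_A00pp_022_s3 t7474_A00pp_022_s3

theorem t7478_A00pp_022_s3 : ∃ t, chk3 f_A00pp_022_s3 t 72 121 11 = true := ex3_c t7477_A00pp_022_s3 t7471_A00pp_022_s3

theorem t7479_A00pp_022_s3 : ∃ t, chk3 f_A00pp_022_s3 t 145 241 11 = true := ex3_c k2940_A00pp_022_s3 k2941_A00pp_022_s3

theorem t7480_A00pp_022_s3 : ∃ t, chk3 f_A00pp_022_s3 t 145 120 11 = true := ex3_b k2939_A00pp_022_s3 t7479_A00pp_022_s3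

theorem t7481_A00pp_022_s3 : ∃ t, chk3 f_A00pp_022_s3 t 72 120 11 = true := ex3_a k2938_A00pp_022_s3 t7480_A00pp_022_s3

theorem t7482_A00pp_022_s3 : ∃ t, chk3 f_A00pp_022_s3 t 72 60 11 = true := ex3_b t7481_A00pp_022_s3 t7478_A00pp_022_s3

theorem t7483_A00pp_022_s3 : ∃ t, chk3 f_A00pp_022_s3 t 145 243 21 = true := ex3_a k2936_A00pp_022_s3 k2937_A00pp_022_s3

theorem t7484_A00pp_022_s3 : ∃ t, chk3 f_A00pp_022_s3 t 145 243 41 = true := ex3_a k2934_A00pp_022_s3 k2935_A00pp_022_s3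

theorem t7485_A00pp_022_s3 : ∃ t, chk3 f_A00pp_022_s3 t 145 243 20 = true := ex3_c k2933_A00pp_022_s3 t7484_A00pp_022_s3

theorem t7486_A00pp_022_s3 : ∃ t, chk3 f_A00pp_022_s3 t 145 243 10 = true := ex3_c t7485_A00pp_022_s3 t7483_A00pp_022_s3

theorem t7487_A00pp_022_s3 : ∃ t, chk3 f_A00pp_022_s3 t 145 242 21 = true := ex3_a k2931_A00pp_022_s3 k2932_A00pp_022_s3

theorem t7488_A00pp_022_s3 : ∃ t, chk3 f_A00pp_022_s3 t 145 242 10 = true := ex3_c k2930_A00pp_022_s3 t7487_A00pp_022_s3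

theorem t7489_A00pp_022_s3 : ∃ t, chk3 f_A00pp_022_s3 t 145 121 10 = true := ex3_b t7488_A00pp_022_s3 t7486_A00pp_022_s3

theorem t7490_A00pp_022_s3 : ∃ t, chk3 f_A00pp_022_s3 t 144 121 21 = true := ex3_b k2928_A00pp_022_s3 k2929_A00pp_022_s3

theorem t7491_A00pp_022_s3 : ∃ t, chk3 f_A00pp_022_s3 t 144 121 10 = true := ex3_c k2927_A00pp_022_s3 t7490_A00pp_022_s3

theorem t7492_A00pp_022_s3 : ∃ t, chk3 f_A00pp_022_s3 t 72 121 10 = true := ex3_a t7491_A00pp_022_s3 t7489_A00pp_022_s3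

theorem t7493_A00pp_022_s3 : ∃ t, chk3 f_A00pp_022_s3 t 72 60 10 = true := ex3_b k2926_A00pp_022_s3 t7492_A00pp_022_s3

theorem t7494_A00pp_022_s3 : ∃ t, chk3 f_A00pp_022_s3 t 72 60 5 = true := ex3_c t7493_A00pp_022_s3 t7482_A00pp_022_s3

theorem t7495_A00pp_022_s3 : ∃ t, chk3 f_A00pp_022_s3 t 36 60 5 = true := ex3_a t7494_A00pp_022_s3 t7468_A00pp_022_s3

theorem t7496_A00pp_022_s3 : ∃ t, chk3 f_A00pp_022_s3 t 36 30 5 = true := ex3_b t7495_A00pp_022_s3 t7436_A00pp_022_s3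

theorem t7497_A00pp_022_s3 : ∃ t, chk3 f_A00pp_022_s3 t 294 984 19 = true := ex3_c k2920_A00pp_022_s3 k2921_A00pp_022_s3

theorem t7498_A00pp_022_s3 : ∃ t, chk3 f_A00pp_022_s3 t 294 492 19 = true := ex3_b t7497_A00pp_022_s3 k2922_A00pp_022_s3

theorem t7499_A00pp_022_s3 : ∃ t, chk3 f_A00pp_022_s3 t 294 246 19 = true := ex3_b t7498_A00pp_022_s3 k2923_A00pp_022_s3

theorem t7500_A00pp_022_s3 : ∃ t, chk3 f_A00pp_022_s3 t 147 246 19 = true := ex3_a t7499_A00pp_022_s3 k2924_A00pp_022_s3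

theorem t7501_A00pp_022_s3 : ∃ t, chk3 f_A00pp_022_s3 t 1168 1972 159 = true := ex3_a k2913_A00pp_022_s3 k2914_A00pp_022_s3

theorem t7502_A00pp_022_s3 : ∃ t, chk3 f_A00pp_022_s3 t 584 1972 159 = true := ex3_a t7501_A00pp_022_s3 k2915_A00pp_022_s3

theorem t7503_A00pp_022_s3 : ∃ t, chk3 f_A00pp_022_s3 t 584 986 159 = true := ex3_b t7502_A00pp_022_s3 k2916_A00pp_022_s3

theorem t7504_A00pp_022_s3 : ∃ t, chk3 f_A00pp_022_s3 t 292 986 159 = true := ex3_a t7503_A00pp_022_s3 k2917_A00pp_022_s3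

theorem t7505_A00pp_022_s3 : ∃ t, chk3 f_A00pp_022_s3 t 292 986 79 = true := ex3_c k2912_A00pp_022_s3 t7504_A00pp_022_s3

theorem t7506_A00pp_022_s3 : ∃ t, chk3 f_A00pp_022_s3 t 292 986 39 = true := ex3_c k2911_A00pp_022_s3 t7505_A00pp_022_s3

theorem t7507_A00pp_022_s3 : ∃ t, chk3 f_A00pp_022_s3 t 292 493 39 = true := ex3_b t7506_A00pp_022_s3 k2918_A00pp_022_s3

theorem t7508_A00pp_022_s3 : ∃ t, chk3 f_A00pp_022_s3 t 146 493 39 = true := ex3_a t7507_A00pp_022_s3 k2919_A00pp_022_s3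

theorem t7509_A00pp_022_s3 : ∃ t, chk3 f_A00pp_022_s3 t 586 985 39 = true := ex3_b k2908_A00pp_022_s3 k2909_A00pp_022_s3

theorem t7510_A00pp_022_s3 : ∃ t, chk3 f_A00pp_022_s3 t 293 985 39 = true := ex3_a t7509_A00pp_022_s3 k2910_A00pp_022_s3

theorem t7511_A00pp_022_s3 : ∃ t, chk3 f_A00pp_022_s3 t 2346 1969 156 = true := ex3_c k2902_A00pp_022_s3 k2903_A00pp_022_s3

theorem t7512_A00pp_022_s3 : ∃ t, chk3 f_A00pp_022_s3 t 1173 1969 156 = true := ex3_a t7511_A00pp_022_s3 k2904_A00pp_022_s3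

theorem t7513_A00pp_022_s3 : ∃ t, chk3 f_A00pp_022_s3 t 1173 1969 78 = true := ex3_c t7512_A00pp_022_s3 k2905_A00pp_022_s3

theorem t7514_A00pp_022_s3 : ∃ t, chk3 f_A00pp_022_s3 t 1173 1968 156 = true := ex3_a k2899_A00pp_022_s3 k2900_A00pp_022_s3

theorem t7515_A00pp_022_s3 : ∃ t, chk3 f_A00pp_022_s3 t 1173 1968 78 = true := ex3_c t7514_A00pp_022_s3 k2901_A00pp_022_s3

theorem t7516_A00pp_022_s3 : ∃ t, chk3 f_A00pp_022_s3 t 1173 984 78 = true := ex3_b t7515_A00pp_022_s3 t7513_A00pp_022_s3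

theorem t7517_A00pp_022_s3 : ∃ t, chk3 f_A00pp_022_s3 t 2344 1969 157 = true := ex3_c k2896_A00pp_022_s3 k2897_A00pp_022_s3

theorem t7518_A00pp_022_s3 : ∃ t, chk3 f_A00pp_022_s3 t 1172 1969 157 = true := ex3_a t7517_A00pp_022_s3 k2898_A00pp_022_s3

theorem t7519_A00pp_022_s3 : ∃ t, chk3 f_A00pp_022_s3 t 1172 984 157 = true := ex3_b k2895_A00pp_022_s3 t7518_A00pp_022_s3

theorem t7520_A00pp_022_s3 : ∃ t, chk3 f_A00pp_022_s3 t 1172 984 156 = true := ex3_b k2893_A00pp_022_s3 k2894_A00pp_022_s3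

theorem t7521_A00pp_022_s3 : ∃ t, chk3 f_A00pp_022_s3 t 1172 984 78 = true := ex3_c t7520_A00pp_022_s3 t7519_A00pp_022_s3

theorem t7522_A00pp_022_s3 : ∃ t, chk3 f_A00pp_022_s3 t 586 984 78 = true := ex3_a t7521_A00pp_022_s3 t7516_A00pp_022_s3

theorem t7523_A00pp_022_s3 : ∃ t, chk3 f_A00pp_022_s3 t 586 984 39 = true := ex3_c t7522_A00pp_022_s3 k2906_A00pp_022_s3

theorem t7524_A00pp_022_s3 : ∃ t, chk3 f_A00pp_022_s3 t 293 984 39 = true := ex3_a t7523_A00pp_022_s3 k2907_A00pp_022_s3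

theorem t7525_A00pp_022_s3 : ∃ t, chk3 f_A00pp_022_s3 t 293 492 39 = true := ex3_b t7524_A00pp_022_s3 t7510_A00pp_022_s3

theorem t7526_A00pp_022_s3 : ∃ t, chk3 f_A00pp_022_s3 t 1170 3941 158 = true := ex3_a k2888_A00pp_022_s3 k2889_A00pp_022_s3

theorem t7527_A00pp_022_s3 : ∃ t, chk3 f_A00pp_022_s3 t 1170 1970 158 = true := ex3_b k2887_A00pp_022_s3 t7526_A00pp_022_s3

theorem t7528_A00pp_022_s3 : ∃ t, chk3 f_A00pp_022_s3 t 585 1970 158 = true := ex3_a t7527_A00pp_022_s3 k2890_A00pp_022_s3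

theorem t7529_A00pp_022_s3 : ∃ t, chk3 f_A00pp_022_s3 t 585 1970 79 = true := ex3_c t7528_A00pp_022_s3 k2891_A00pp_022_s3

theorem t7530_A00pp_022_s3 : ∃ t, chk3 f_A00pp_022_s3 t 585 985 79 = true := ex3_b t7529_A00pp_022_s3 k2892_A00pp_022_s3

theorem t7531_A00pp_022_s3 : ∃ t, chk3 f_A00pp_022_s3 t 1171 1969 158 = true := ex3_a k2884_A00pp_022_s3 k2885_A00pp_022_s3

theorem t7532_A00pp_022_s3 : ∃ t, chk3 f_A00pp_022_s3 t 585 1969 158 = true := ex3_a k2883_A00pp_022_s3 t7531_A00pp_022_s3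

theorem t7533_A00pp_022_s3 : ∃ t, chk3 f_A00pp_022_s3 t 585 1969 79 = true := ex3_c t7532_A00pp_022_s3 k2886_A00pp_022_s3

theorem t7534_A00pp_022_s3 : ∃ t, chk3 f_A00pp_022_s3 t 1171 1968 79 = true := ex3_c k2881_A00pp_022_s3 k2882_A00pp_022_s3

theorem t7535_A00pp_022_s3 : ∃ t, chk3 f_A00pp_022_s3 t 585 1968 79 = true := ex3_a k2880_A00pp_022_s3 t7534_A00pp_022_s3

theorem t7536_A00pp_022_s3 : ∃ t, chk3 f_A00pp_022_s3 t 585 984 79 = true := ex3_b t7535_A00pp_022_s3 t7533_A00pp_022_s3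

theorem t7537_A00pp_022_s3 : ∃ t, chk3 f_A00pp_022_s3 t 585 492 79 = true := ex3_b t7536_A00pp_022_s3 t7530_A00pp_022_s3

theorem t7538_A00pp_022_s3 : ∃ t, chk3 f_A00pp_022_s3 t 2338 1971 318 = true := ex3_b k2876_A00pp_022_s3 k2877_A00pp_022_s3

theorem t7539_A00pp_022_s3 : ∃ t, chk3 f_A00pp_022_s3 t 2338 1971 159 = true := ex3_c t7538_A00pp_022_s3 k2878_A00pp_022_s3

theorem t7540_A00pp_022_s3 : ∃ t, chk3 f_A00pp_022_s3 t 1169 1971 159 = true := ex3_a t7539_A00pp_022_s3 k2879_A00pp_022_s3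

theorem t7541_A00pp_022_s3 : ∃ t, chk3 f_A00pp_022_s3 t 1169 1970 159 = true := ex3_b k2874_A00pp_022_s3 k2875_A00pp_022_s3

theorem t7542_A00pp_022_s3 : ∃ t, chk3 f_A00pp_022_s3 t 1169 985 159 = true := ex3_b t7541_A00pp_022_s3 t7540_A00pp_022_s3

theorem t7543_A00pp_022_s3 : ∃ t, chk3 f_A00pp_022_s3 t 1169 1971 158 = true := ex3_a k2872_A00pp_022_s3 k2873_A00pp_022_s3

theorem t7544_A00pp_022_s3 : ∃ t, chk3 f_A00pp_022_s3 t 1169 985 158 = true := ex3_b k2871_A00pp_022_s3 t7543_A00pp_022_s3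

theorem t7545_A00pp_022_s3 : ∃ t, chk3 f_A00pp_022_s3 t 1169 985 79 = true := ex3_c t7544_A00pp_022_s3 t7542_A00pp_022_s3

theorem t7546_A00pp_022_s3 : ∃ t, chk3 f_A00pp_022_s3 t 2337 1971 159 = true := ex3_b k2869_A00pp_022_s3 k2870_A00pp_022_s3

theorem t7547_A00pp_022_s3 : ∃ t, chk3 f_A00pp_022_s3 t 1168 1971 159 = true := ex3_a k2868_A00pp_022_s3 t7546_A00pp_022_s3

theorem t7548_A00pp_022_s3 : ∃ t, chk3 f_A00pp_022_s3 t 1168 985 159 = true := ex3_b k2867_A00pp_022_s3 t7547_A00pp_022_s3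

theorem t7549_A00pp_022_s3 : ∃ t, chk3 f_A00pp_022_s3 t 1168 985 79 = true := ex3_c k2866_A00pp_022_s3 t7548_A00pp_022_s3

theorem t7550_A00pp_022_s3 : ∃ t, chk3 f_A00pp_022_s3 t 584 985 79 = true := ex3_a t7549_A00pp_022_s3 t7545_A00pp_022_s3

theorem t7551_A00pp_022_s3 : ∃ t, chk3 f_A00pp_022_s3 t 584 492 79 = true := ex3_b k2865_A00pp_022_s3 t7550_A00pp_022_s3

theorem t7552_A00pp_022_s3 : ∃ t, chk3 f_A00pp_022_s3 t 292 492 79 = true := ex3_a t7551_A00pp_022_s3 t7537_A00pp_022_s3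

theorem t7553_A00pp_022_s3 : ∃ t, chk3 f_A00pp_022_s3 t 1171 1970 157 = true := ex3_a k2862_A00pp_022_s3 k2863_A00pp_022_s3

theorem t7554_A00pp_022_s3 : ∃ t, chk3 f_A00pp_022_s3 t 1171 985 157 = true := ex3_b t7553_A00pp_022_s3 k2864_A00pp_022_s3

theorem t7555_A00pp_022_s3 : ∃ t, chk3 f_A00pp_022_s3 t 585 985 157 = true := ex3_a k2861_A00pp_022_s3 t7554_A00pp_022_s3

theorem t7556_A00pp_022_s3 : ∃ t, chk3 f_A00pp_022_s3 t 585 985 78 = true := ex3_c k2860_A00pp_022_s3 t7555_A00pp_022_s3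

theorem t7557_A00pp_022_s3 : ∃ t, chk3 f_A00pp_022_s3 t 292 985 78 = true := ex3_a k2859_A00pp_022_s3 t7556_A00pp_022_s3

theorem t7558_A00pp_022_s3 : ∃ t, chk3 f_A00pp_022_s3 t 1171 984 78 = true := ex3_c k2857_A00pp_022_s3 k2858_A00pp_022_s3

theorem t7559_A00pp_022_s3 : ∃ t, chk3 f_A00pp_022_s3 t 585 984 78 = true := ex3_a k2856_A00pp_022_s3 t7558_A00pp_022_s3

theorem t7560_A00pp_022_s3 : ∃ t, chk3 f_A00pp_022_s3 t 292 984 78 = true := ex3_a k2855_A00pp_022_s3 t7559_A00pp_022_s3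

theorem t7561_A00pp_022_s3 : ∃ t, chk3 f_A00pp_022_s3 t 292 492 78 = true := ex3_b t7560_A00pp_022_s3 t7557_A00pp_022_s3

theorem t7562_A00pp_022_s3 : ∃ t, chk3 f_A00pp_022_s3 t 292 492 39 = true := ex3_c t7561_A00pp_022_s3 t7552_A00pp_022_s3

theorem t7563_A00pp_022_s3 : ∃ t, chk3 f_A00pp_022_s3 t 146 492 39 = true := ex3_a t7562_A00pp_022_s3 t7525_A00pp_022_s3

theorem t7564_A00pp_022_s3 : ∃ t, chk3 f_A00pp_022_s3 t 146 246 39 = true := ex3_b t7563_A00pp_022_s3 t7508_A00pp_022_s3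

theorem t7565_A00pp_022_s3 : ∃ t, chk3 f_A00pp_022_s3 t 1175 1968 77 = true := ex3_c k2850_A00pp_022_s3 k2851_A00pp_022_s3

theorem t7566_A00pp_022_s3 : ∃ t, chk3 f_A00pp_022_s3 t 1175 984 77 = true := ex3_b t7565_A00pp_022_s3 k2852_A00pp_022_s3

theorem t7567_A00pp_022_s3 : ∃ t, chk3 f_A00pp_022_s3 t 2349 1968 155 = true := ex3_c k2847_A00pp_022_s3 k2848_A00pp_022_s3

theorem t7568_A00pp_022_s3 : ∃ t, chk3 f_A00pp_022_s3 t 1174 1968 155 = true := ex3_a k2846_A00pp_022_s3 t7567_A00pp_022_s3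

theorem t7569_A00pp_022_s3 : ∃ t, chk3 f_A00pp_022_s3 t 1174 984 155 = true := ex3_b t7568_A00pp_022_s3 k2849_A00pp_022_s3

theorem t7570_A00pp_022_s3 : ∃ t, chk3 f_A00pp_022_s3 t 1174 984 77 = true := ex3_c k2845_A00pp_022_s3 t7569_A00pp_022_s3

theorem t7571_A00pp_022_s3 : ∃ t, chk3 f_A00pp_022_s3 t 587 984 77 = true := ex3_a t7570_A00pp_022_s3 t7566_A00pp_022_s3

theorem t7572_A00pp_022_s3 : ∃ t, chk3 f_A00pp_022_s3 t 586 1969 155 = true := ex3_a k2843_A00pp_022_s3 k2844_A00pp_022_s3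

theorem t7573_A00pp_022_s3 : ∃ t, chk3 f_A00pp_022_s3 t 586 1969 77 = true := ex3_c k2842_A00pp_022_s3 t7572_A00pp_022_s3

theorem t7574_A00pp_022_s3 : ∃ t, chk3 f_A00pp_022_s3 t 586 984 77 = true := ex3_b k2841_A00pp_022_s3 t7573_A00pp_022_s3

theorem t7575_A00pp_022_s3 : ∃ t, chk3 f_A00pp_022_s3 t 293 984 77 = true := ex3_a t7574_A00pp_022_s3 t7571_A00pp_022_s3

theorem t7576_A00pp_022_s3 : ∃ t, chk3 f_A00pp_022_s3 t 293 984 38 = true := ex3_c k2840_A00pp_022_s3 t7575_A00pp_022_s3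

theorem t7577_A00pp_022_s3 : ∃ t, chk3 f_A00pp_022_s3 t 293 492 38 = true := ex3_b t7576_A00pp_022_s3 k2853_A00pp_022_s3

theorem t7578_A00pp_022_s3 : ∃ t, chk3 f_A00pp_022_s3 t 292 492 38 = true := ex3_b k2838_A00pp_022_s3 k2839_A00pp_022_s3

theorem t7579_A00pp_022_s3 : ∃ t, chk3 f_A00pp_022_s3 t 146 492 38 = true := ex3_a t7578_A00pp_022_s3 t7577_A00pp_022_s3

theorem t7580_A00pp_022_s3 : ∃ t, chk3 f_A00pp_022_s3 t 146 246 38 = true := ex3_b t7579_A00pp_022_s3 k2854_A00pp_022_s3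

theorem t7581_A00pp_022_s3 : ∃ t, chk3 f_A00pp_022_s3 t 146 246 19 = true := ex3_c t7580_A00pp_022_s3 t7564_A00pp_022_s3

theorem t7582_A00pp_022_s3 : ∃ t, chk3 f_A00pp_022_s3 t 73 246 19 = true := ex3_a t7581_A00pp_022_s3 t7500_A00pp_022_s3

theorem t7583_A00pp_022_s3 : ∃ t, chk3 f_A00pp_022_s3 t 73 123 19 = true := ex3_b t7582_A00pp_022_s3 k2925_A00pp_022_s3

theorem t7584_A00pp_022_s3 : ∃ t, chk3 f_A00pp_022_s3 t 1180 982 152 = true := ex3_b k2830_A00pp_022_s3 k2831_A00pp_022_s3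

theorem t7585_A00pp_022_s3 : ∃ t, chk3 f_A00pp_022_s3 t 1180 982 76 = true := ex3_c t7584_A00pp_022_s3 k2832_A00pp_022_s3

theorem t7586_A00pp_022_s3 : ∃ t, chk3 f_A00pp_022_s3 t 1180 982 38 = true := ex3_c t7585_A00pp_022_s3 k2833_A00pp_022_s3

theorem t7587_A00pp_022_s3 : ∃ t, chk3 f_A00pp_022_s3 t 590 982 38 = true := ex3_a t7586_A00pp_022_s3 k2834_A00pp_022_s3

theorem t7588_A00pp_022_s3 : ∃ t, chk3 f_A00pp_022_s3 t 590 982 19 = true := ex3_c t7587_A00pp_022_s3 k2835_A00pp_022_s3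

theorem t7589_A00pp_022_s3 : ∃ t, chk3 f_A00pp_022_s3 t 590 491 19 = true := ex3_b t7588_A00pp_022_s3 k2836_A00pp_022_s3

theorem t7590_A00pp_022_s3 : ∃ t, chk3 f_A00pp_022_s3 t 295 491 19 = true := ex3_a t7589_A00pp_022_s3 k2837_A00pp_022_s3

theorem t7591_A00pp_022_s3 : ∃ t, chk3 f_A00pp_022_s3 t 590 1963 152 = true := ex3_a k2824_A00pp_022_s3 k2825_A00pp_022_s3

theorem t7592_A00pp_022_s3 : ∃ t, chk3 f_A00pp_022_s3 t 590 981 152 = true := ex3_b k2823_A00pp_022_s3 t7591_A00pp_022_s3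

theorem t7593_A00pp_022_s3 : ∃ t, chk3 f_A00pp_022_s3 t 590 981 76 = true := ex3_c t7592_A00pp_022_s3 k2826_A00pp_022_s3

theorem t7594_A00pp_022_s3 : ∃ t, chk3 f_A00pp_022_s3 t 1181 980 76 = true := ex3_c k2821_A00pp_022_s3 k2822_A00pp_022_s3

theorem t7595_A00pp_022_s3 : ∃ t, chk3 f_A00pp_022_s3 t 590 980 76 = true := ex3_a k2820_A00pp_022_s3 t7594_A00pp_022_s3

theorem t7596_A00pp_022_s3 : ∃ t, chk3 f_A00pp_022_s3 t 590 490 76 = true := ex3_b t7595_A00pp_022_s3 t7593_A00pp_022_s3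

theorem t7597_A00pp_022_s3 : ∃ t, chk3 f_A00pp_022_s3 t 295 490 76 = true := ex3_a t7596_A00pp_022_s3 k2827_A00pp_022_s3

theorem t7598_A00pp_022_s3 : ∃ t, chk3 f_A00pp_022_s3 t 295 490 38 = true := ex3_c t7597_A00pp_022_s3 k2828_A00pp_022_s3

theorem t7599_A00pp_022_s3 : ∃ t, chk3 f_A00pp_022_s3 t 295 490 19 = true := ex3_c t7598_A00pp_022_s3 k2829_A00pp_022_s3

theorem t7600_A00pp_022_s3 : ∃ t, chk3 f_A00pp_022_s3 t 295 245 19 = true := ex3_b t7599_A00pp_022_s3 t7590_A00pp_022_s3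

theorem t7601_A00pp_022_s3 : ∃ t, chk3 f_A00pp_022_s3 t 588 981 78 = true := ex3_a k2815_A00pp_022_s3 k2816_A00pp_022_s3

theorem t7602_A00pp_022_s3 : ∃ t, chk3 f_A00pp_022_s3 t 294 981 78 = true := ex3_a t7601_A00pp_022_s3 k2817_A00pp_022_s3

theorem t7603_A00pp_022_s3 : ∃ t, chk3 f_A00pp_022_s3 t 294 980 78 = true := ex3_a k2813_A00pp_022_s3 k2814_A00pp_022_s3

theorem t7604_A00pp_022_s3 : ∃ t, chk3 f_A00pp_022_s3 t 294 490 78 = true := ex3_b t7603_A00pp_022_s3 t7602_A00pp_022_s3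

theorem t7605_A00pp_022_s3 : ∃ t, chk3 f_A00pp_022_s3 t 294 490 39 = true := ex3_c t7604_A00pp_022_s3 k2818_A00pp_022_s3

theorem t7606_A00pp_022_s3 : ∃ t, chk3 f_A00pp_022_s3 t 294 245 39 = true := ex3_b t7605_A00pp_022_s3 k2819_A00pp_022_s3

theorem t7607_A00pp_022_s3 : ∃ t, chk3 f_A00pp_022_s3 t 1178 1966 153 = true := ex3_a k2808_A00pp_022_s3 k2809_A00pp_022_s3

theorem t7608_A00pp_022_s3 : ∃ t, chk3 f_A00pp_022_s3 t 1178 1966 76 = true := ex3_c k2807_A00pp_022_s3 t7607_A00pp_022_s3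

theorem t7609_A00pp_022_s3 : ∃ t, chk3 f_A00pp_022_s3 t 1178 983 76 = true := ex3_b t7608_A00pp_022_s3 k2810_A00pp_022_s3

theorem t7610_A00pp_022_s3 : ∃ t, chk3 f_A00pp_022_s3 t 589 983 76 = true := ex3_a t7609_A00pp_022_s3 k2811_A00pp_022_s3

theorem t7611_A00pp_022_s3 : ∃ t, chk3 f_A00pp_022_s3 t 589 983 38 = true := ex3_c t7610_A00pp_022_s3 k2812_A00pp_022_s3

theorem t7612_A00pp_022_s3 : ∃ t, chk3 f_A00pp_022_s3 t 1179 982 153 = true := ex3_b k2804_A00pp_022_s3 k2805_A00pp_022_s3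

theorem t7613_A00pp_022_s3 : ∃ t, chk3 f_A00pp_022_s3 t 1179 1965 152 = true := ex3_b k2802_A00pp_022_s3 k2803_A00pp_022_s3

theorem t7614_A00pp_022_s3 : ∃ t, chk3 f_A00pp_022_s3 t 1179 982 152 = true := ex3_b k2801_A00pp_022_s3 t7613_A00pp_022_s3

theorem t7615_A00pp_022_s3 : ∃ t, chk3 f_A00pp_022_s3 t 1179 982 76 = true := ex3_c t7614_A00pp_022_s3 t7612_A00pp_022_s3

theorem t7616_A00pp_022_s3 : ∃ t, chk3 f_A00pp_022_s3 t 1178 1965 153 = true := ex3_a k2799_A00pp_022_s3 k2800_A00pp_022_s3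

theorem t7617_A00pp_022_s3 : ∃ t, chk3 f_A00pp_022_s3 t 1178 982 153 = true := ex3_b k2798_A00pp_022_s3 t7616_A00pp_022_s3

theorem t7618_A00pp_022_s3 : ∃ t, chk3 f_A00pp_022_s3 t 1178 982 76 = true := ex3_c k2797_A00pp_022_s3 t7617_A00pp_022_s3

theorem t7619_A00pp_022_s3 : ∃ t, chk3 f_A00pp_022_s3 t 589 982 76 = true := ex3_a t7618_A00pp_022_s3 t7615_A00pp_022_s3

theorem t7620_A00pp_022_s3 : ∃ t, chk3 f_A00pp_022_s3 t 589 982 38 = true := ex3_c t7619_A00pp_022_s3 k2806_A00pp_022_s3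

theorem t7621_A00pp_022_s3 : ∃ t, chk3 f_A00pp_022_s3 t 589 491 38 = true := ex3_b t7620_A00pp_022_s3 t7611_A00pp_022_s3

theorem t7622_A00pp_022_s3 : ∃ t, chk3 f_A00pp_022_s3 t 1176 1967 154 = true := ex3_b k2793_A00pp_022_s3 k2794_A00pp_022_s3

theorem t7623_A00pp_022_s3 : ∃ t, chk3 f_A00pp_022_s3 t 1176 983 154 = true := ex3_b k2792_A00pp_022_s3 t7622_A00pp_022_s3

theorem t7624_A00pp_022_s3 : ∃ t, chk3 f_A00pp_022_s3 t 588 983 154 = true := ex3_a t7623_A00pp_022_s3 k2795_A00pp_022_s3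

theorem t7625_A00pp_022_s3 : ∃ t, chk3 f_A00pp_022_s3 t 588 983 77 = true := ex3_c t7624_A00pp_022_s3 k2796_A00pp_022_s3

theorem t7626_A00pp_022_s3 : ∃ t, chk3 f_A00pp_022_s3 t 1177 1965 154 = true := ex3_a k2789_A00pp_022_s3 k2790_A00pp_022_s3

theorem t7627_A00pp_022_s3 : ∃ t, chk3 f_A00pp_022_s3 t 1177 982 154 = true := ex3_b k2788_A00pp_022_s3 t7626_A00pp_022_s3

theorem t7628_A00pp_022_s3 : ∃ t, chk3 f_A00pp_022_s3 t 1177 982 77 = true := ex3_c t7627_A00pp_022_s3 k2791_A00pp_022_s3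

theorem t7629_A00pp_022_s3 : ∃ t, chk3 f_A00pp_022_s3 t 1176 982 155 = true := ex3_b k2786_A00pp_022_s3 k2787_A00pp_022_s3

theorem t7630_A00pp_022_s3 : ∃ t, chk3 f_A00pp_022_s3 t 1176 982 77 = true := ex3_c k2785_A00pp_022_s3 t7629_A00pp_022_s3

theorem t7631_A00pp_022_s3 : ∃ t, chk3 f_A00pp_022_s3 t 588 982 77 = true := ex3_a t7630_A00pp_022_s3 t7628_A00pp_022_s3

theorem t7632_A00pp_022_s3 : ∃ t, chk3 f_A00pp_022_s3 t 588 491 77 = true := ex3_b t7631_A00pp_022_s3 t7625_A00pp_022_s3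

theorem t7633_A00pp_022_s3 : ∃ t, chk3 f_A00pp_022_s3 t 1177 1967 153 = true := ex3_a k2783_A00pp_022_s3 k2784_A00pp_022_s3

theorem t7634_A00pp_022_s3 : ∃ t, chk3 f_A00pp_022_s3 t 1177 1966 153 = true := ex3_c k2781_A00pp_022_s3 k2782_A00pp_022_s3

theorem t7635_A00pp_022_s3 : ∃ t, chk3 f_A00pp_022_s3 t 1177 983 153 = true := ex3_b t7634_A00pp_022_s3 t7633_A00pp_022_s3

theorem t7636_A00pp_022_s3 : ∃ t, chk3 f_A00pp_022_s3 t 1177 983 152 = true := ex3_b k2779_A00pp_022_s3 k2780_A00pp_022_s3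

theorem t7637_A00pp_022_s3 : ∃ t, chk3 f_A00pp_022_s3 t 1177 983 76 = true := ex3_c t7636_A00pp_022_s3 t7635_A00pp_022_s3

theorem t7638_A00pp_022_s3 : ∃ t, chk3 f_A00pp_022_s3 t 1176 983 76 = true := ex3_b k2777_A00pp_022_s3 k2778_A00pp_022_s3

theorem t7639_A00pp_022_s3 : ∃ t, chk3 f_A00pp_022_s3 t 588 983 76 = true := ex3_a t7638_A00pp_022_s3 t7637_A00pp_022_s3

theorem t7640_A00pp_022_s3 : ∃ t, chk3 f_A00pp_022_s3 t 588 491 76 = true := ex3_b k2776_A00pp_022_s3 t7639_A00pp_022_s3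

theorem t7641_A00pp_022_s3 : ∃ t, chk3 f_A00pp_022_s3 t 588 491 38 = true := ex3_c t7640_A00pp_022_s3 t7632_A00pp_022_s3

theorem t7642_A00pp_022_s3 : ∃ t, chk3 f_A00pp_022_s3 t 294 491 38 = true := ex3_a t7641_A00pp_022_s3 t7621_A00pp_022_s3

theorem t7643_A00pp_022_s3 : ∃ t, chk3 f_A00pp_022_s3 t 1178 981 77 = true := ex3_c k2773_A00pp_022_s3 k2774_A00pp_022_s3

theorem t7644_A00pp_022_s3 : ∃ t, chk3 f_A00pp_022_s3 t 589 981 77 = true := ex3_a t7643_A00pp_022_s3 k2775_A00pp_022_s3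

theorem t7645_A00pp_022_s3 : ∃ t, chk3 f_A00pp_022_s3 t 589 980 77 = true := ex3_c k2771_A00pp_022_s3 k2772_A00pp_022_s3

theorem t7646_A00pp_022_s3 : ∃ t, chk3 f_A00pp_022_s3 t 589 490 77 = true := ex3_b t7645_A00pp_022_s3 t7644_A00pp_022_s3

theorem t7647_A00pp_022_s3 : ∃ t, chk3 f_A00pp_022_s3 t 589 490 38 = true := ex3_c k2770_A00pp_022_s3 t7646_A00pp_022_s3

theorem t7648_A00pp_022_s3 : ∃ t, chk3 f_A00pp_022_s3 t 588 490 38 = true := ex3_c k2768_A00pp_022_s3 k2769_A00pp_022_s3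

theorem t7649_A00pp_022_s3 : ∃ t, chk3 f_A00pp_022_s3 t 294 490 38 = true := ex3_a t7648_A00pp_022_s3 t7647_A00pp_022_s3

theorem t7650_A00pp_022_s3 : ∃ t, chk3 f_A00pp_022_s3 t 294 245 38 = true := ex3_b t7649_A00pp_022_s3 t7642_A00pp_022_s3

theorem t7651_A00pp_022_s3 : ∃ t, chk3 f_A00pp_022_s3 t 294 245 19 = true := ex3_c t7650_A00pp_022_s3 t7606_A00pp_022_s3

theorem t7652_A00pp_022_s3 : ∃ t, chk3 f_A00pp_022_s3 t 147 245 19 = true := ex3_a t7651_A00pp_022_s3 t7600_A00pp_022_s3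

theorem t7653_A00pp_022_s3 : ∃ t, chk3 f_A00pp_022_s3 t 295 979 77 = true := ex3_a k2765_A00pp_022_s3 k2766_A00pp_022_s3

theorem t7654_A00pp_022_s3 : ∃ t, chk3 f_A00pp_022_s3 t 591 979 76 = true := ex3_a k2763_A00pp_022_s3 k2764_A00pp_022_s3

theorem t7655_A00pp_022_s3 : ∃ t, chk3 f_A00pp_022_s3 t 295 979 76 = true := ex3_a k2762_A00pp_022_s3 t7654_A00pp_022_s3

theorem t7656_A00pp_022_s3 : ∃ t, chk3 f_A00pp_022_s3 t 295 979 38 = true := ex3_c t7655_A00pp_022_s3 t7653_A00pp_022_s3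

theorem t7657_A00pp_022_s3 : ∃ t, chk3 f_A00pp_022_s3 t 591 978 38 = true := ex3_c k2760_A00pp_022_s3 k2761_A00pp_022_s3

theorem t7658_A00pp_022_s3 : ∃ t, chk3 f_A00pp_022_s3 t 295 978 38 = true := ex3_a k2759_A00pp_022_s3 t7657_A00pp_022_s3

theorem t7659_A00pp_022_s3 : ∃ t, chk3 f_A00pp_022_s3 t 295 489 38 = true := ex3_b t7658_A00pp_022_s3 t7656_A00pp_022_s3

theorem t7660_A00pp_022_s3 : ∃ t, chk3 f_A00pp_022_s3 t 295 489 19 = true := ex3_c t7659_A00pp_022_s3 k2767_A00pp_022_s3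

theorem t7661_A00pp_022_s3 : ∃ t, chk3 f_A00pp_022_s3 t 590 488 39 = true := ex3_c k2756_A00pp_022_s3 k2757_A00pp_022_s3

theorem t7662_A00pp_022_s3 : ∃ t, chk3 f_A00pp_022_s3 t 295 488 39 = true := ex3_a t7661_A00pp_022_s3 k2758_A00pp_022_s3

theorem t7663_A00pp_022_s3 : ∃ t, chk3 f_A00pp_022_s3 t 295 488 19 = true := ex3_c k2755_A00pp_022_s3 t7662_A00pp_022_s3

theorem t7664_A00pp_022_s3 : ∃ t, chk3 f_A00pp_022_s3 t 295 244 19 = true := ex3_b t7663_A00pp_022_s3 t7660_A00pp_022_s3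

theorem t7665_A00pp_022_s3 : ∃ t, chk3 f_A00pp_022_s3 t 294 489 79 = true := ex3_a k2753_A00pp_022_s3 k2754_A00pp_022_s3

theorem t7666_A00pp_022_s3 : ∃ t, chk3 f_A00pp_022_s3 t 589 489 78 = true := ex3_b k2751_A00pp_022_s3 k2752_A00pp_022_s3

theorem t7667_A00pp_022_s3 : ∃ t, chk3 f_A00pp_022_s3 t 294 489 78 = true := ex3_a k2750_A00pp_022_s3 t7666_A00pp_022_s3

theorem t7668_A00pp_022_s3 : ∃ t, chk3 f_A00pp_022_s3 t 294 489 39 = true := ex3_c t7667_A00pp_022_s3 t7665_A00pp_022_s3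

theorem t7669_A00pp_022_s3 : ∃ t, chk3 f_A00pp_022_s3 t 294 244 39 = true := ex3_b k2749_A00pp_022_s3 t7668_A00pp_022_s3

theorem t7670_A00pp_022_s3 : ∃ t, chk3 f_A00pp_022_s3 t 294 244 19 = true := ex3_c k2748_A00pp_022_s3 t7669_A00pp_022_s3

theorem t7671_A00pp_022_s3 : ∃ t, chk3 f_A00pp_022_s3 t 147 244 19 = true := ex3_a t7670_A00pp_022_s3 t7664_A00pp_022_s3

theorem t7672_A00pp_022_s3 : ∃ t, chk3 f_A00pp_022_s3 t 147 122 19 = true := ex3_b t7671_A00pp_022_s3 t7652_A00pp_022_s3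

theorem t7673_A00pp_022_s3 : ∃ t, chk3 f_A00pp_022_s3 t 1174 1967 156 = true := ex3_a k2743_A00pp_022_s3 k2744_A00pp_022_s3

theorem t7674_A00pp_022_s3 : ∃ t, chk3 f_A00pp_022_s3 t 587 1967 156 = true := ex3_a t7673_A00pp_022_s3 k2745_A00pp_022_s3

theorem t7675_A00pp_022_s3 : ∃ t, chk3 f_A00pp_022_s3 t 587 1966 156 = true := ex3_a k2741_A00pp_022_s3 k2742_A00pp_022_s3

theorem t7676_A00pp_022_s3 : ∃ t, chk3 f_A00pp_022_s3 t 587 983 156 = true := ex3_b t7675_A00pp_022_s3 t7674_A00pp_022_s3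

theorem t7677_A00pp_022_s3 : ∃ t, chk3 f_A00pp_022_s3 t 587 983 78 = true := ex3_c t7676_A00pp_022_s3 k2746_A00pp_022_s3

theorem t7678_A00pp_022_s3 : ∃ t, chk3 f_A00pp_022_s3 t 1175 982 78 = true := ex3_c k2739_A00pp_022_s3 k2740_A00pp_022_s3

theorem t7679_A00pp_022_s3 : ∃ t, chk3 f_A00pp_022_s3 t 587 982 78 = true := ex3_a k2738_A00pp_022_s3 t7678_A00pp_022_s3

theorem t7680_A00pp_022_s3 : ∃ t, chk3 f_A00pp_022_s3 t 587 491 78 = true := ex3_b t7679_A00pp_022_s3 t7677_A00pp_022_s3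

theorem t7681_A00pp_022_s3 : ∃ t, chk3 f_A00pp_022_s3 t 587 491 39 = true := ex3_c t7680_A00pp_022_s3 k2747_A00pp_022_s3

theorem t7682_A00pp_022_s3 : ∃ t, chk3 f_A00pp_022_s3 t 1172 983 158 = true := ex3_b k2734_A00pp_022_s3 k2735_A00pp_022_s3

theorem t7683_A00pp_022_s3 : ∃ t, chk3 f_A00pp_022_s3 t 1172 983 79 = true := ex3_c t7682_A00pp_022_s3 k2736_A00pp_022_s3

theorem t7684_A00pp_022_s3 : ∃ t, chk3 f_A00pp_022_s3 t 586 983 79 = true := ex3_a t7683_A00pp_022_s3 k2737_A00pp_022_s3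

theorem t7685_A00pp_022_s3 : ∃ t, chk3 f_A00pp_022_s3 t 586 982 79 = true := ex3_c k2732_A00pp_022_s3 k2733_A00pp_022_s3

theorem t7686_A00pp_022_s3 : ∃ t, chk3 f_A00pp_022_s3 t 586 491 79 = true := ex3_b t7685_A00pp_022_s3 t7684_A00pp_022_s3

theorem t7687_A00pp_022_s3 : ∃ t, chk3 f_A00pp_022_s3 t 1173 983 157 = true := ex3_b k2730_A00pp_022_s3 k2731_A00pp_022_s3

theorem t7688_A00pp_022_s3 : ∃ t, chk3 f_A00pp_022_s3 t 1173 983 78 = true := ex3_c k2729_A00pp_022_s3 t7687_A00pp_022_s3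

theorem t7689_A00pp_022_s3 : ∃ t, chk3 f_A00pp_022_s3 t 586 983 78 = true := ex3_a k2728_A00pp_022_s3 t7688_A00pp_022_s3

theorem t7690_A00pp_022_s3 : ∃ t, chk3 f_A00pp_022_s3 t 586 491 78 = true := ex3_b k2727_A00pp_022_s3 t7689_A00pp_022_s3

theorem t7691_A00pp_022_s3 : ∃ t, chk3 f_A00pp_022_s3 t 586 491 39 = true := ex3_c t7690_A00pp_022_s3 t7686_A00pp_022_s3

theorem t7692_A00pp_022_s3 : ∃ t, chk3 f_A00pp_022_s3 t 293 491 39 = true := ex3_a t7691_A00pp_022_s3 t7681_A00pp_022_s3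

theorem t7693_A00pp_022_s3 : ∃ t, chk3 f_A00pp_022_s3 t 587 981 79 = true := ex3_a k2725_A00pp_022_s3 k2726_A00pp_022_s3

theorem t7694_A00pp_022_s3 : ∃ t, chk3 f_A00pp_022_s3 t 587 490 79 = true := ex3_b k2724_A00pp_022_s3 t7693_A00pp_022_s3

theorem t7695_A00pp_022_s3 : ∃ t, chk3 f_A00pp_022_s3 t 587 490 39 = true := ex3_c k2723_A00pp_022_s3 t7694_A00pp_022_s3

theorem t7696_A00pp_022_s3 : ∃ t, chk3 f_A00pp_022_s3 t 293 490 39 = true := ex3_a k2722_A00pp_022_s3 t7695_A00pp_022_s3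

theorem t7697_A00pp_022_s3 : ∃ t, chk3 f_A00pp_022_s3 t 293 245 39 = true := ex3_b t7696_A00pp_022_s3 t7692_A00pp_022_s3

theorem t7698_A00pp_022_s3 : ∃ t, chk3 f_A00pp_022_s3 t 1171 983 79 = true := ex3_b k2720_A00pp_022_s3 k2721_A00pp_022_s3

theorem t7699_A00pp_022_s3 : ∃ t, chk3 f_A00pp_022_s3 t 585 983 79 = true := ex3_a k2719_A00pp_022_s3 t7698_A00pp_022_s3

theorem t7700_A00pp_022_s3 : ∃ t, chk3 f_A00pp_022_s3 t 585 491 79 = true := ex3_b k2718_A00pp_022_s3 t7699_A00pp_022_s3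

theorem t7701_A00pp_022_s3 : ∃ t, chk3 f_A00pp_022_s3 t 585 491 39 = true := ex3_c k2717_A00pp_022_s3 t7700_A00pp_022_s3

theorem t7702_A00pp_022_s3 : ∃ t, chk3 f_A00pp_022_s3 t 292 491 39 = true := ex3_a k2716_A00pp_022_s3 t7701_A00pp_022_s3

theorem t7703_A00pp_022_s3 : ∃ t, chk3 f_A00pp_022_s3 t 292 245 39 = true := ex3_b k2715_A00pp_022_s3 t7702_A00pp_022_s3

theorem t7704_A00pp_022_s3 : ∃ t, chk3 f_A00pp_022_s3 t 146 245 39 = true := ex3_a t7703_A00pp_022_s3 t7697_A00pp_022_s3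

theorem t7705_A00pp_022_s3 : ∃ t, chk3 f_A00pp_022_s3 t 1175 1967 155 = true := ex3_a k2713_A00pp_022_s3 k2714_A00pp_022_s3

theorem t7706_A00pp_022_s3 : ∃ t, chk3 f_A00pp_022_s3 t 1175 983 155 = true := ex3_b k2712_A00pp_022_s3 t7705_A00pp_022_s3

theorem t7707_A00pp_022_s3 : ∃ t, chk3 f_A00pp_022_s3 t 1175 983 77 = true := ex3_c k2711_A00pp_022_s3 t7706_A00pp_022_s3

theorem t7708_A00pp_022_s3 : ∃ t, chk3 f_A00pp_022_s3 t 587 983 77 = true := ex3_a k2710_A00pp_022_s3 t7707_A00pp_022_s3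

theorem t7709_A00pp_022_s3 : ∃ t, chk3 f_A00pp_022_s3 t 293 983 77 = true := ex3_a k2709_A00pp_022_s3 t7708_A00pp_022_s3

theorem t7710_A00pp_022_s3 : ∃ t, chk3 f_A00pp_022_s3 t 293 983 38 = true := ex3_c k2708_A00pp_022_s3 t7709_A00pp_022_s3

theorem t7711_A00pp_022_s3 : ∃ t, chk3 f_A00pp_022_s3 t 293 982 38 = true := ex3_c k2706_A00pp_022_s3 k2707_A00pp_022_s3

theorem t7712_A00pp_022_s3 : ∃ t, chk3 f_A00pp_022_s3 t 293 491 38 = true := ex3_b t7711_A00pp_022_s3 t7710_A00pp_022_s3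

theorem t7713_A00pp_022_s3 : ∃ t, chk3 f_A00pp_022_s3 t 146 491 38 = true := ex3_a k2705_A00pp_022_s3 t7712_A00pp_022_s3

theorem t7714_A00pp_022_s3 : ∃ t, chk3 f_A00pp_022_s3 t 293 490 38 = true := ex3_b k2703_A00pp_022_s3 k2704_A00pp_022_s3

theorem t7715_A00pp_022_s3 : ∃ t, chk3 f_A00pp_022_s3 t 584 490 76 = true := ex3_c k2699_A00pp_022_s3 k2700_A00pp_022_s3

theorem t7716_A00pp_022_s3 : ∃ t, chk3 f_A00pp_022_s3 t 292 490 76 = true := ex3_a t7715_A00pp_022_s3 k2701_A00pp_022_s3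

theorem t7717_A00pp_022_s3 : ∃ t, chk3 f_A00pp_022_s3 t 292 490 38 = true := ex3_c t7716_A00pp_022_s3 k2702_A00pp_022_s3

theorem t7718_A00pp_022_s3 : ∃ t, chk3 f_A00pp_022_s3 t 146 490 38 = true := ex3_a t7717_A00pp_022_s3 t7714_A00pp_022_s3

theorem t7719_A00pp_022_s3 : ∃ t, chk3 f_A00pp_022_s3 t 146 245 38 = true := ex3_b t7718_A00pp_022_s3 t7713_A00pp_022_s3

theorem t7720_A00pp_022_s3 : ∃ t, chk3 f_A00pp_022_s3 t 146 245 19 = true := ex3_c t7719_A00pp_022_s3 t7704_A00pp_022_s3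

theorem t7721_A00pp_022_s3 : ∃ t, chk3 f_A00pp_022_s3 t 292 488 78 = true := ex3_a k2694_A00pp_022_s3 k2695_A00pp_022_s3

theorem t7722_A00pp_022_s3 : ∃ t, chk3 f_A00pp_022_s3 t 292 488 39 = true := ex3_c t7721_A00pp_022_s3 k2696_A00pp_022_s3

theorem t7723_A00pp_022_s3 : ∃ t, chk3 f_A00pp_022_s3 t 292 244 39 = true := ex3_b t7722_A00pp_022_s3 k2697_A00pp_022_s3

theorem t7724_A00pp_022_s3 : ∃ t, chk3 f_A00pp_022_s3 t 146 244 39 = true := ex3_a t7723_A00pp_022_s3 k2698_A00pp_022_s3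

theorem t7725_A00pp_022_s3 : ∃ t, chk3 f_A00pp_022_s3 t 293 244 76 = true := ex3_a k2691_A00pp_022_s3 k2692_A00pp_022_s3

theorem t7726_A00pp_022_s3 : ∃ t, chk3 f_A00pp_022_s3 t 293 244 38 = true := ex3_c t7725_A00pp_022_s3 k2693_A00pp_022_s3

theorem t7727_A00pp_022_s3 : ∃ t, chk3 f_A00pp_022_s3 t 292 244 77 = true := ex3_a k2689_A00pp_022_s3 k2690_A00pp_022_s3

theorem t7728_A00pp_022_s3 : ∃ t, chk3 f_A00pp_022_s3 t 292 244 76 = true := ex3_a k2687_A00pp_022_s3 k2688_A00pp_022_s3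

theorem t7729_A00pp_022_s3 : ∃ t, chk3 f_A00pp_022_s3 t 292 244 38 = true := ex3_c t7728_A00pp_022_s3 t7727_A00pp_022_s3

theorem t7730_A00pp_022_s3 : ∃ t, chk3 f_A00pp_022_s3 t 146 244 38 = true := ex3_a t7729_A00pp_022_s3 t7726_A00pp_022_s3

theorem t7731_A00pp_022_s3 : ∃ t, chk3 f_A00pp_022_s3 t 146 244 19 = true := ex3_c t7730_A00pp_022_s3 t7724_A00pp_022_s3

theorem t7732_A00pp_022_s3 : ∃ t, chk3 f_A00pp_022_s3 t 146 122 19 = true := ex3_b t7731_A00pp_022_s3 t7720_A00pp_022_s3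

theorem t7733_A00pp_022_s3 : ∃ t, chk3 f_A00pp_022_s3 t 73 122 19 = true := ex3_a t7732_A00pp_022_s3 t7672_A00pp_022_s3

theorem t7734_A00pp_022_s3 : ∃ t, chk3 f_A00pp_022_s3 t 73 61 19 = true := ex3_b t7733_A00pp_022_s3 t7583_A00pp_022_s3

theorem t7735_A00pp_022_s3 : ∃ t, chk3 f_A00pp_022_s3 t 1168 984 148 = true := ex3_b k2676_A00pp_022_s3 k2677_A00pp_022_s3

theorem t7736_A00pp_022_s3 : ∃ t, chk3 f_A00pp_022_s3 t 1168 984 74 = true := ex3_c t7735_A00pp_022_s3 k2678_A00pp_022_s3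

theorem t7737_A00pp_022_s3 : ∃ t, chk3 f_A00pp_022_s3 t 584 984 74 = true := ex3_a t7736_A00pp_022_s3 k2679_A00pp_022_s3

theorem t7738_A00pp_022_s3 : ∃ t, chk3 f_A00pp_022_s3 t 584 492 74 = true := ex3_b t7737_A00pp_022_s3 k2680_A00pp_022_s3

theorem t7739_A00pp_022_s3 : ∃ t, chk3 f_A00pp_022_s3 t 292 492 74 = true := ex3_a t7738_A00pp_022_s3 k2681_A00pp_022_s3

theorem t7740_A00pp_022_s3 : ∃ t, chk3 f_A00pp_022_s3 t 292 492 37 = true := ex3_c t7739_A00pp_022_s3 k2682_A00pp_022_s3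

theorem t7741_A00pp_022_s3 : ∃ t, chk3 f_A00pp_022_s3 t 146 492 37 = true := ex3_a t7740_A00pp_022_s3 k2683_A00pp_022_s3

theorem t7742_A00pp_022_s3 : ∃ t, chk3 f_A00pp_022_s3 t 146 246 37 = true := ex3_b t7741_A00pp_022_s3 k2684_A00pp_022_s3

theorem t7743_A00pp_022_s3 : ∃ t, chk3 f_A00pp_022_s3 t 2336 1972 146 = true := ex3_c k2667_A00pp_022_s3 k2668_A00pp_022_s3

theorem t7744_A00pp_022_s3 : ∃ t, chk3 f_A00pp_022_s3 t 1168 1972 146 = true := ex3_a t7743_A00pp_022_s3 k2669_A00pp_022_s3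

theorem t7745_A00pp_022_s3 : ∃ t, chk3 f_A00pp_022_s3 t 584 1972 146 = true := ex3_a t7744_A00pp_022_s3 k2670_A00pp_022_s3

theorem t7746_A00pp_022_s3 : ∃ t, chk3 f_A00pp_022_s3 t 292 1972 146 = true := ex3_a t7745_A00pp_022_s3 k2671_A00pp_022_s3

theorem t7747_A00pp_022_s3 : ∃ t, chk3 f_A00pp_022_s3 t 292 986 146 = true := ex3_b t7746_A00pp_022_s3 k2672_A00pp_022_s3

theorem t7748_A00pp_022_s3 : ∃ t, chk3 f_A00pp_022_s3 t 292 986 73 = true := ex3_c t7747_A00pp_022_s3 k2673_A00pp_022_s3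

theorem t7749_A00pp_022_s3 : ∃ t, chk3 f_A00pp_022_s3 t 1168 1972 145 = true := ex3_a k2662_A00pp_022_s3 k2663_A00pp_022_s3

theorem t7750_A00pp_022_s3 : ∃ t, chk3 f_A00pp_022_s3 t 584 1972 145 = true := ex3_a t7749_A00pp_022_s3 k2664_A00pp_022_s3

theorem t7751_A00pp_022_s3 : ∃ t, chk3 f_A00pp_022_s3 t 292 1972 145 = true := ex3_a t7750_A00pp_022_s3 k2665_A00pp_022_s3

theorem t7752_A00pp_022_s3 : ∃ t, chk3 f_A00pp_022_s3 t 292 986 145 = true := ex3_b t7751_A00pp_022_s3 k2666_A00pp_022_s3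

theorem t7753_A00pp_022_s3 : ∃ t, chk3 f_A00pp_022_s3 t 292 986 72 = true := ex3_c k2661_A00pp_022_s3 t7752_A00pp_022_s3

theorem t7754_A00pp_022_s3 : ∃ t, chk3 f_A00pp_022_s3 t 292 986 36 = true := ex3_c t7753_A00pp_022_s3 t7748_A00pp_022_s3

theorem t7755_A00pp_022_s3 : ∃ t, chk3 f_A00pp_022_s3 t 292 493 36 = true := ex3_b t7754_A00pp_022_s3 k2674_A00pp_022_s3

theorem t7756_A00pp_022_s3 : ∃ t, chk3 f_A00pp_022_s3 t 146 493 36 = true := ex3_a t7755_A00pp_022_s3 k2675_A00pp_022_s3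

theorem t7757_A00pp_022_s3 : ∃ t, chk3 f_A00pp_022_s3 t 1172 1968 144 = true := ex3_a k2653_A00pp_022_s3 k2654_A00pp_022_s3

theorem t7758_A00pp_022_s3 : ∃ t, chk3 f_A00pp_022_s3 t 1172 984 144 = true := ex3_b t7757_A00pp_022_s3 k2655_A00pp_022_s3

theorem t7759_A00pp_022_s3 : ∃ t, chk3 f_A00pp_022_s3 t 1172 984 72 = true := ex3_c t7758_A00pp_022_s3 k2656_A00pp_022_s3

theorem t7760_A00pp_022_s3 : ∃ t, chk3 f_A00pp_022_s3 t 586 984 72 = true := ex3_a t7759_A00pp_022_s3 k2657_A00pp_022_s3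

theorem t7761_A00pp_022_s3 : ∃ t, chk3 f_A00pp_022_s3 t 586 984 36 = true := ex3_c t7760_A00pp_022_s3 k2658_A00pp_022_s3

theorem t7762_A00pp_022_s3 : ∃ t, chk3 f_A00pp_022_s3 t 293 984 36 = true := ex3_a t7761_A00pp_022_s3 k2659_A00pp_022_s3

theorem t7763_A00pp_022_s3 : ∃ t, chk3 f_A00pp_022_s3 t 293 492 36 = true := ex3_b t7762_A00pp_022_s3 k2660_A00pp_022_s3

theorem t7764_A00pp_022_s3 : ∃ t, chk3 f_A00pp_022_s3 t 1170 984 146 = true := ex3_b k2648_A00pp_022_s3 k2649_A00pp_022_s3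

theorem t7765_A00pp_022_s3 : ∃ t, chk3 f_A00pp_022_s3 t 1170 984 73 = true := ex3_c t7764_A00pp_022_s3 k2650_A00pp_022_s3

theorem t7766_A00pp_022_s3 : ∃ t, chk3 f_A00pp_022_s3 t 585 984 73 = true := ex3_a t7765_A00pp_022_s3 k2651_A00pp_022_s3

theorem t7767_A00pp_022_s3 : ∃ t, chk3 f_A00pp_022_s3 t 585 492 73 = true := ex3_b t7766_A00pp_022_s3 k2652_A00pp_022_s3

theorem t7768_A00pp_022_s3 : ∃ t, chk3 f_A00pp_022_s3 t 2342 1970 144 = true := ex3_c k2643_A00pp_022_s3 k2644_A00pp_022_s3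

theorem t7769_A00pp_022_s3 : ∃ t, chk3 f_A00pp_022_s3 t 1171 1970 144 = true := ex3_a t7768_A00pp_022_s3 k2645_A00pp_022_s3

theorem t7770_A00pp_022_s3 : ∃ t, chk3 f_A00pp_022_s3 t 1171 1970 72 = true := ex3_c t7769_A00pp_022_s3 k2646_A00pp_022_s3

theorem t7771_A00pp_022_s3 : ∃ t, chk3 f_A00pp_022_s3 t 1171 985 72 = true := ex3_b t7770_A00pp_022_s3 k2647_A00pp_022_s3

theorem t7772_A00pp_022_s3 : ∃ t, chk3 f_A00pp_022_s3 t 2340 1970 145 = true := ex3_c k2639_A00pp_022_s3 k2640_A00pp_022_s3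

theorem t7773_A00pp_022_s3 : ∃ t, chk3 f_A00pp_022_s3 t 1170 1970 145 = true := ex3_a t7772_A00pp_022_s3 k2641_A00pp_022_s3

theorem t7774_A00pp_022_s3 : ∃ t, chk3 f_A00pp_022_s3 t 1170 985 145 = true := ex3_b t7773_A00pp_022_s3 k2642_A00pp_022_s3

theorem t7775_A00pp_022_s3 : ∃ t, chk3 f_A00pp_022_s3 t 1170 1970 144 = true := ex3_a k2636_A00pp_022_s3 k2637_A00pp_022_s3

theorem t7776_A00pp_022_s3 : ∃ t, chk3 f_A00pp_022_s3 t 1170 985 144 = true := ex3_b t7775_A00pp_022_s3 k2638_A00pp_022_s3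

theorem t7777_A00pp_022_s3 : ∃ t, chk3 f_A00pp_022_s3 t 1170 985 72 = true := ex3_c t7776_A00pp_022_s3 t7774_A00pp_022_s3

theorem t7778_A00pp_022_s3 : ∃ t, chk3 f_A00pp_022_s3 t 585 985 72 = true := ex3_a t7777_A00pp_022_s3 t7771_A00pp_022_s3

theorem t7779_A00pp_022_s3 : ∃ t, chk3 f_A00pp_022_s3 t 1171 1968 145 = true := ex3_a k2633_A00pp_022_s3 k2634_A00pp_022_s3

theorem t7780_A00pp_022_s3 : ∃ t, chk3 f_A00pp_022_s3 t 1171 984 145 = true := ex3_b t7779_A00pp_022_s3 k2635_A00pp_022_s3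

theorem t7781_A00pp_022_s3 : ∃ t, chk3 f_A00pp_022_s3 t 2343 1969 144 = true := ex3_c k2631_A00pp_022_s3 k2632_A00pp_022_s3

theorem t7782_A00pp_022_s3 : ∃ t, chk3 f_A00pp_022_s3 t 1171 1969 144 = true := ex3_a k2630_A00pp_022_s3 t7781_A00pp_022_s3

theorem t7783_A00pp_022_s3 : ∃ t, chk3 f_A00pp_022_s3 t 1171 984 144 = true := ex3_b k2629_A00pp_022_s3 t7782_A00pp_022_s3

theorem t7784_A00pp_022_s3 : ∃ t, chk3 f_A00pp_022_s3 t 1171 984 72 = true := ex3_c t7783_A00pp_022_s3 t7780_A00pp_022_s3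

theorem t7785_A00pp_022_s3 : ∃ t, chk3 f_A00pp_022_s3 t 1170 984 145 = true := ex3_b k2627_A00pp_022_s3 k2628_A00pp_022_s3

theorem t7786_A00pp_022_s3 : ∃ t, chk3 f_A00pp_022_s3 t 1170 984 72 = true := ex3_c k2626_A00pp_022_s3 t7785_A00pp_022_s3

theorem t7787_A00pp_022_s3 : ∃ t, chk3 f_A00pp_022_s3 t 585 984 72 = true := ex3_a t7786_A00pp_022_s3 t7784_A00pp_022_s3

theorem t7788_A00pp_022_s3 : ∃ t, chk3 f_A00pp_022_s3 t 585 492 72 = true := ex3_b t7787_A00pp_022_s3 t7778_A00pp_022_s3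

theorem t7789_A00pp_022_s3 : ∃ t, chk3 f_A00pp_022_s3 t 585 492 36 = true := ex3_c t7788_A00pp_022_s3 t7767_A00pp_022_s3

theorem t7790_A00pp_022_s3 : ∃ t, chk3 f_A00pp_022_s3 t 2338 1971 146 = true := ex3_b k2622_A00pp_022_s3 k2623_A00pp_022_s3

theorem t7791_A00pp_022_s3 : ∃ t, chk3 f_A00pp_022_s3 t 1169 1971 146 = true := ex3_a t7790_A00pp_022_s3 k2624_A00pp_022_s3

theorem t7792_A00pp_022_s3 : ∃ t, chk3 f_A00pp_022_s3 t 1169 1970 146 = true := ex3_a k2620_A00pp_022_s3 k2621_A00pp_022_s3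

theorem t7793_A00pp_022_s3 : ∃ t, chk3 f_A00pp_022_s3 t 1169 985 146 = true := ex3_b t7792_A00pp_022_s3 t7791_A00pp_022_s3

theorem t7794_A00pp_022_s3 : ∃ t, chk3 f_A00pp_022_s3 t 1169 985 73 = true := ex3_c t7793_A00pp_022_s3 k2625_A00pp_022_s3

theorem t7795_A00pp_022_s3 : ∃ t, chk3 f_A00pp_022_s3 t 2336 1971 147 = true := ex3_c k2617_A00pp_022_s3 k2618_A00pp_022_s3

theorem t7796_A00pp_022_s3 : ∃ t, chk3 f_A00pp_022_s3 t 1168 1971 147 = true := ex3_a t7795_A00pp_022_s3 k2619_A00pp_022_s3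

theorem t7797_A00pp_022_s3 : ∃ t, chk3 f_A00pp_022_s3 t 1168 1970 147 = true := ex3_a k2615_A00pp_022_s3 k2616_A00pp_022_s3

theorem t7798_A00pp_022_s3 : ∃ t, chk3 f_A00pp_022_s3 t 1168 985 147 = true := ex3_b t7797_A00pp_022_s3 t7796_A00pp_022_s3

theorem t7799_A00pp_022_s3 : ∃ t, chk3 f_A00pp_022_s3 t 2337 1971 146 = true := ex3_c k2613_A00pp_022_s3 k2614_A00pp_022_s3

theorem t7800_A00pp_022_s3 : ∃ t, chk3 f_A00pp_022_s3 t 1168 1971 146 = true := ex3_a k2612_A00pp_022_s3 t7799_A00pp_022_s3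

theorem t7801_A00pp_022_s3 : ∃ t, chk3 f_A00pp_022_s3 t 1168 985 146 = true := ex3_b k2611_A00pp_022_s3 t7800_A00pp_022_s3

theorem t7802_A00pp_022_s3 : ∃ t, chk3 f_A00pp_022_s3 t 1168 985 73 = true := ex3_c t7801_A00pp_022_s3 t7798_A00pp_022_s3

theorem t7803_A00pp_022_s3 : ∃ t, chk3 f_A00pp_022_s3 t 584 985 73 = true := ex3_a t7802_A00pp_022_s3 t7794_A00pp_022_s3

theorem t7804_A00pp_022_s3 : ∃ t, chk3 f_A00pp_022_s3 t 2339 1971 145 = true := ex3_c k2609_A00pp_022_s3 k2610_A00pp_022_s3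

theorem t7805_A00pp_022_s3 : ∃ t, chk3 f_A00pp_022_s3 t 1169 1971 145 = true := ex3_a k2608_A00pp_022_s3 t7804_A00pp_022_s3

theorem t7806_A00pp_022_s3 : ∃ t, chk3 f_A00pp_022_s3 t 1169 3943 144 = true := ex3_a k2606_A00pp_022_s3 k2607_A00pp_022_s3

theorem t7807_A00pp_022_s3 : ∃ t, chk3 f_A00pp_022_s3 t 1169 3942 144 = true := ex3_c k2604_A00pp_022_s3 k2605_A00pp_022_s3

theorem t7808_A00pp_022_s3 : ∃ t, chk3 f_A00pp_022_s3 t 1169 1971 144 = true := ex3_b t7807_A00pp_022_s3 t7806_A00pp_022_s3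

theorem t7809_A00pp_022_s3 : ∃ t, chk3 f_A00pp_022_s3 t 1169 1971 72 = true := ex3_c t7808_A00pp_022_s3 t7805_A00pp_022_s3

theorem t7810_A00pp_022_s3 : ∃ t, chk3 f_A00pp_022_s3 t 1168 1971 290 = true := ex3_a k2601_A00pp_022_s3 k2602_A00pp_022_s3

theorem t7811_A00pp_022_s3 : ∃ t, chk3 f_A00pp_022_s3 t 1168 1971 145 = true := ex3_c t7810_A00pp_022_s3 k2603_A00pp_022_s3

theorem t7812_A00pp_022_s3 : ∃ t, chk3 f_A00pp_022_s3 t 1168 1971 72 = true := ex3_c k2600_A00pp_022_s3 t7811_A00pp_022_s3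

theorem t7813_A00pp_022_s3 : ∃ t, chk3 f_A00pp_022_s3 t 584 1971 72 = true := ex3_a t7812_A00pp_022_s3 t7809_A00pp_022_s3

theorem t7814_A00pp_022_s3 : ∃ t, chk3 f_A00pp_022_s3 t 1169 1970 288 = true := ex3_a k2596_A00pp_022_s3 k2597_A00pp_022_s3

theorem t7815_A00pp_022_s3 : ∃ t, chk3 f_A00pp_022_s3 t 1169 1970 144 = true := ex3_c t7814_A00pp_022_s3 k2598_A00pp_022_s3

theorem t7816_A00pp_022_s3 : ∃ t, chk3 f_A00pp_022_s3 t 1169 1970 72 = true := ex3_c t7815_A00pp_022_s3 k2599_A00pp_022_s3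

theorem t7817_A00pp_022_s3 : ∃ t, chk3 f_A00pp_022_s3 t 1168 1970 290 = true := ex3_a k2593_A00pp_022_s3 k2594_A00pp_022_s3

theorem t7818_A00pp_022_s3 : ∃ t, chk3 f_A00pp_022_s3 t 1168 1970 145 = true := ex3_c t7817_A00pp_022_s3 k2595_A00pp_022_s3

theorem t7819_A00pp_022_s3 : ∃ t, chk3 f_A00pp_022_s3 t 1168 1970 72 = true := ex3_c k2592_A00pp_022_s3 t7818_A00pp_022_s3

theorem t7820_A00pp_022_s3 : ∃ t, chk3 f_A00pp_022_s3 t 584 1970 72 = true := ex3_a t7819_A00pp_022_s3 t7816_A00pp_022_s3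

theorem t7821_A00pp_022_s3 : ∃ t, chk3 f_A00pp_022_s3 t 584 985 72 = true := ex3_b t7820_A00pp_022_s3 t7813_A00pp_022_s3

theorem t7822_A00pp_022_s3 : ∃ t, chk3 f_A00pp_022_s3 t 584 985 36 = true := ex3_c t7821_A00pp_022_s3 t7803_A00pp_022_s3

theorem t7823_A00pp_022_s3 : ∃ t, chk3 f_A00pp_022_s3 t 1169 984 147 = true := ex3_b k2590_A00pp_022_s3 k2591_A00pp_022_s3

theorem t7824_A00pp_022_s3 : ∃ t, chk3 f_A00pp_022_s3 t 1169 984 73 = true := ex3_c k2589_A00pp_022_s3 t7823_A00pp_022_s3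

theorem t7825_A00pp_022_s3 : ∃ t, chk3 f_A00pp_022_s3 t 584 984 73 = true := ex3_a k2588_A00pp_022_s3 t7824_A00pp_022_s3

theorem t7826_A00pp_022_s3 : ∃ t, chk3 f_A00pp_022_s3 t 2336 984 290 = true := ex3_b k2583_A00pp_022_s3 k2584_A00pp_022_s3

theorem t7827_A00pp_022_s3 : ∃ t, chk3 f_A00pp_022_s3 t 1168 984 290 = true := ex3_a t7826_A00pp_022_s3 k2585_A00pp_022_s3

theorem t7828_A00pp_022_s3 : ∃ t, chk3 f_A00pp_022_s3 t 1168 984 145 = true := ex3_c t7827_A00pp_022_s3 k2586_A00pp_022_s3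

theorem t7829_A00pp_022_s3 : ∃ t, chk3 f_A00pp_022_s3 t 584 984 145 = true := ex3_a t7828_A00pp_022_s3 k2587_A00pp_022_s3

theorem t7830_A00pp_022_s3 : ∃ t, chk3 f_A00pp_022_s3 t 2338 984 289 = true := ex3_b k2580_A00pp_022_s3 k2581_A00pp_022_s3

theorem t7831_A00pp_022_s3 : ∃ t, chk3 f_A00pp_022_s3 t 1169 984 289 = true := ex3_a t7830_A00pp_022_s3 k2582_A00pp_022_s3

theorem t7832_A00pp_022_s3 : ∃ t, chk3 f_A00pp_022_s3 t 2339 984 288 = true := ex3_b k2578_A00pp_022_s3 k2579_A00pp_022_s3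

theorem t7833_A00pp_022_s3 : ∃ t, chk3 f_A00pp_022_s3 t 1169 984 288 = true := ex3_a k2577_A00pp_022_s3 t7832_A00pp_022_s3

theorem t7834_A00pp_022_s3 : ∃ t, chk3 f_A00pp_022_s3 t 1169 984 144 = true := ex3_c t7833_A00pp_022_s3 t7831_A00pp_022_s3

theorem t7835_A00pp_022_s3 : ∃ t, chk3 f_A00pp_022_s3 t 584 984 144 = true := ex3_a k2576_A00pp_022_s3 t7834_A00pp_022_s3

theorem t7836_A00pp_022_s3 : ∃ t, chk3 f_A00pp_022_s3 t 584 984 72 = true := ex3_c t7835_A00pp_022_s3 t7829_A00pp_022_s3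

theorem t7837_A00pp_022_s3 : ∃ t, chk3 f_A00pp_022_s3 t 584 984 36 = true := ex3_c t7836_A00pp_022_s3 t7825_A00pp_022_s3

theorem t7838_A00pp_022_s3 : ∃ t, chk3 f_A00pp_022_s3 t 584 492 36 = true := ex3_b t7837_A00pp_022_s3 t7822_A00pp_022_s3

theorem t7839_A00pp_022_s3 : ∃ t, chk3 f_A00pp_022_s3 t 292 492 36 = true := ex3_a t7838_A00pp_022_s3 t7789_A00pp_022_s3

theorem t7840_A00pp_022_s3 : ∃ t, chk3 f_A00pp_022_s3 t 146 492 36 = true := ex3_a t7839_A00pp_022_s3 t7763_A00pp_022_s3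

theorem t7841_A00pp_022_s3 : ∃ t, chk3 f_A00pp_022_s3 t 146 246 36 = true := ex3_b t7840_A00pp_022_s3 t7756_A00pp_022_s3

theorem t7842_A00pp_022_s3 : ∃ t, chk3 f_A00pp_022_s3 t 146 246 18 = true := ex3_c t7841_A00pp_022_s3 t7742_A00pp_022_s3

theorem t7843_A00pp_022_s3 : ∃ t, chk3 f_A00pp_022_s3 t 146 123 18 = true := ex3_b t7842_A00pp_022_s3 k2685_A00pp_022_s3

theorem t7844_A00pp_022_s3 : ∃ t, chk3 f_A00pp_022_s3 t 73 123 18 = true := ex3_a t7843_A00pp_022_s3 k2686_A00pp_022_s3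

theorem t7845_A00pp_022_s3 : ∃ t, chk3 f_A00pp_022_s3 t 1182 1964 150 = true := ex3_a k2570_A00pp_022_s3 k2571_A00pp_022_s3

theorem t7846_A00pp_022_s3 : ∃ t, chk3 f_A00pp_022_s3 t 1182 1964 75 = true := ex3_c t7845_A00pp_022_s3 k2572_A00pp_022_s3

theorem t7847_A00pp_022_s3 : ∃ t, chk3 f_A00pp_022_s3 t 591 1964 75 = true := ex3_a t7846_A00pp_022_s3 k2573_A00pp_022_s3

theorem t7848_A00pp_022_s3 : ∃ t, chk3 f_A00pp_022_s3 t 591 982 75 = true := ex3_b t7847_A00pp_022_s3 k2574_A00pp_022_s3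

theorem t7849_A00pp_022_s3 : ∃ t, chk3 f_A00pp_022_s3 t 591 491 75 = true := ex3_b t7848_A00pp_022_s3 k2575_A00pp_022_s3

theorem t7850_A00pp_022_s3 : ∃ t, chk3 f_A00pp_022_s3 t 591 982 74 = true := ex3_c k2567_A00pp_022_s3 k2568_A00pp_022_s3

theorem t7851_A00pp_022_s3 : ∃ t, chk3 f_A00pp_022_s3 t 591 491 74 = true := ex3_b t7850_A00pp_022_s3 k2569_A00pp_022_s3

theorem t7852_A00pp_022_s3 : ∃ t, chk3 f_A00pp_022_s3 t 591 491 37 = true := ex3_c t7851_A00pp_022_s3 t7849_A00pp_022_s3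

theorem t7853_A00pp_022_s3 : ∃ t, chk3 f_A00pp_022_s3 t 1181 1964 151 = true := ex3_a k2563_A00pp_022_s3 k2564_A00pp_022_s3

theorem t7854_A00pp_022_s3 : ∃ t, chk3 f_A00pp_022_s3 t 1181 1964 75 = true := ex3_c k2562_A00pp_022_s3 t7853_A00pp_022_s3

theorem t7855_A00pp_022_s3 : ∃ t, chk3 f_A00pp_022_s3 t 1181 982 75 = true := ex3_b t7854_A00pp_022_s3 k2565_A00pp_022_s3

theorem t7856_A00pp_022_s3 : ∃ t, chk3 f_A00pp_022_s3 t 1180 1965 151 = true := ex3_a k2560_A00pp_022_s3 k2561_A00pp_022_s3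

theorem t7857_A00pp_022_s3 : ∃ t, chk3 f_A00pp_022_s3 t 1180 982 151 = true := ex3_b k2559_A00pp_022_s3 t7856_A00pp_022_s3

theorem t7858_A00pp_022_s3 : ∃ t, chk3 f_A00pp_022_s3 t 1180 982 75 = true := ex3_c k2558_A00pp_022_s3 t7857_A00pp_022_s3

theorem t7859_A00pp_022_s3 : ∃ t, chk3 f_A00pp_022_s3 t 590 982 75 = true := ex3_a t7858_A00pp_022_s3 t7855_A00pp_022_s3

theorem t7860_A00pp_022_s3 : ∃ t, chk3 f_A00pp_022_s3 t 590 982 37 = true := ex3_c k2557_A00pp_022_s3 t7859_A00pp_022_s3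

theorem t7861_A00pp_022_s3 : ∃ t, chk3 f_A00pp_022_s3 t 590 491 37 = true := ex3_b t7860_A00pp_022_s3 k2566_A00pp_022_s3

theorem t7862_A00pp_022_s3 : ∃ t, chk3 f_A00pp_022_s3 t 295 491 37 = true := ex3_a t7861_A00pp_022_s3 t7852_A00pp_022_s3

theorem t7863_A00pp_022_s3 : ∃ t, chk3 f_A00pp_022_s3 t 295 491 36 = true := ex3_a k2555_A00pp_022_s3 k2556_A00pp_022_s3

theorem t7864_A00pp_022_s3 : ∃ t, chk3 f_A00pp_022_s3 t 295 491 18 = true := ex3_c t7863_A00pp_022_s3 t7862_A00pp_022_s3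

theorem t7865_A00pp_022_s3 : ∃ t, chk3 f_A00pp_022_s3 t 589 983 75 = true := ex3_c k2553_A00pp_022_s3 k2554_A00pp_022_s3

theorem t7866_A00pp_022_s3 : ∃ t, chk3 f_A00pp_022_s3 t 294 983 75 = true := ex3_a k2552_A00pp_022_s3 t7865_A00pp_022_s3

theorem t7867_A00pp_022_s3 : ∃ t, chk3 f_A00pp_022_s3 t 589 982 75 = true := ex3_b k2550_A00pp_022_s3 k2551_A00pp_022_s3

theorem t7868_A00pp_022_s3 : ∃ t, chk3 f_A00pp_022_s3 t 294 982 75 = true := ex3_a k2549_A00pp_022_s3 t7867_A00pp_022_s3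

theorem t7869_A00pp_022_s3 : ∃ t, chk3 f_A00pp_022_s3 t 294 491 75 = true := ex3_b t7868_A00pp_022_s3 t7866_A00pp_022_s3

theorem t7870_A00pp_022_s3 : ∃ t, chk3 f_A00pp_022_s3 t 294 491 37 = true := ex3_c k2548_A00pp_022_s3 t7869_A00pp_022_s3

theorem t7871_A00pp_022_s3 : ∃ t, chk3 f_A00pp_022_s3 t 294 491 18 = true := ex3_c k2547_A00pp_022_s3 t7870_A00pp_022_s3

theorem t7872_A00pp_022_s3 : ∃ t, chk3 f_A00pp_022_s3 t 147 491 18 = true := ex3_a t7871_A00pp_022_s3 t7864_A00pp_022_s3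

theorem t7873_A00pp_022_s3 : ∃ t, chk3 f_A00pp_022_s3 t 1182 981 151 = true := ex3_b k2544_A00pp_022_s3 k2545_A00pp_022_s3

theorem t7874_A00pp_022_s3 : ∃ t, chk3 f_A00pp_022_s3 t 591 981 151 = true := ex3_a t7873_A00pp_022_s3 k2546_A00pp_022_s3

theorem t7875_A00pp_022_s3 : ∃ t, chk3 f_A00pp_022_s3 t 1183 981 150 = true := ex3_b k2542_A00pp_022_s3 k2543_A00pp_022_s3

theorem t7876_A00pp_022_s3 : ∃ t, chk3 f_A00pp_022_s3 t 1182 1963 150 = true := ex3_a k2540_A00pp_022_s3 k2541_A00pp_022_s3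

theorem t7877_A00pp_022_s3 : ∃ t, chk3 f_A00pp_022_s3 t 1182 981 150 = true := ex3_b k2539_A00pp_022_s3 t7876_A00pp_022_s3

theorem t7878_A00pp_022_s3 : ∃ t, chk3 f_A00pp_022_s3 t 591 981 150 = true := ex3_a t7877_A00pp_022_s3 t7875_A00pp_022_s3

theorem t7879_A00pp_022_s3 : ∃ t, chk3 f_A00pp_022_s3 t 591 981 75 = true := ex3_c t7878_A00pp_022_s3 t7874_A00pp_022_s3

theorem t7880_A00pp_022_s3 : ∃ t, chk3 f_A00pp_022_s3 t 591 980 151 = true := ex3_b k2537_A00pp_022_s3 k2538_A00pp_022_s3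

theorem t7881_A00pp_022_s3 : ∃ t, chk3 f_A00pp_022_s3 t 591 980 75 = true := ex3_c k2536_A00pp_022_s3 t7880_A00pp_022_s3

theorem t7882_A00pp_022_s3 : ∃ t, chk3 f_A00pp_022_s3 t 591 490 75 = true := ex3_b t7881_A00pp_022_s3 t7879_A00pp_022_s3

theorem t7883_A00pp_022_s3 : ∃ t, chk3 f_A00pp_022_s3 t 1183 1963 149 = true := ex3_a k2534_A00pp_022_s3 k2535_A00pp_022_s3

theorem t7884_A00pp_022_s3 : ∃ t, chk3 f_A00pp_022_s3 t 1183 981 149 = true := ex3_b k2533_A00pp_022_s3 t7883_A00pp_022_s3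

theorem t7885_A00pp_022_s3 : ∃ t, chk3 f_A00pp_022_s3 t 1183 981 74 = true := ex3_c k2532_A00pp_022_s3 t7884_A00pp_022_s3

theorem t7886_A00pp_022_s3 : ∃ t, chk3 f_A00pp_022_s3 t 591 981 74 = true := ex3_a k2531_A00pp_022_s3 t7885_A00pp_022_s3

theorem t7887_A00pp_022_s3 : ∃ t, chk3 f_A00pp_022_s3 t 591 490 74 = true := ex3_b k2530_A00pp_022_s3 t7886_A00pp_022_s3

theorem t7888_A00pp_022_s3 : ∃ t, chk3 f_A00pp_022_s3 t 591 490 37 = true := ex3_c t7887_A00pp_022_s3 t7882_A00pp_022_s3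

theorem t7889_A00pp_022_s3 : ∃ t, chk3 f_A00pp_022_s3 t 1181 981 151 = true := ex3_b k2528_A00pp_022_s3 k2529_A00pp_022_s3

theorem t7890_A00pp_022_s3 : ∃ t, chk3 f_A00pp_022_s3 t 1181 981 75 = true := ex3_c k2527_A00pp_022_s3 t7889_A00pp_022_s3

theorem t7891_A00pp_022_s3 : ∃ t, chk3 f_A00pp_022_s3 t 590 981 75 = true := ex3_a k2526_A00pp_022_s3 t7890_A00pp_022_s3

theorem t7892_A00pp_022_s3 : ∃ t, chk3 f_A00pp_022_s3 t 590 981 37 = true := ex3_c k2525_A00pp_022_s3 t7891_A00pp_022_s3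

theorem t7893_A00pp_022_s3 : ∃ t, chk3 f_A00pp_022_s3 t 590 490 37 = true := ex3_b k2524_A00pp_022_s3 t7892_A00pp_022_s3

theorem t7894_A00pp_022_s3 : ∃ t, chk3 f_A00pp_022_s3 t 295 490 37 = true := ex3_a t7893_A00pp_022_s3 t7888_A00pp_022_s3

theorem t7895_A00pp_022_s3 : ∃ t, chk3 f_A00pp_022_s3 t 147 490 37 = true := ex3_a k2523_A00pp_022_s3 t7894_A00pp_022_s3

theorem t7896_A00pp_022_s3 : ∃ t, chk3 f_A00pp_022_s3 t 588 490 72 = true := ex3_c k2518_A00pp_022_s3 k2519_A00pp_022_s3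

theorem t7897_A00pp_022_s3 : ∃ t, chk3 f_A00pp_022_s3 t 294 490 72 = true := ex3_a t7896_A00pp_022_s3 k2520_A00pp_022_s3

theorem t7898_A00pp_022_s3 : ∃ t, chk3 f_A00pp_022_s3 t 147 490 72 = true := ex3_a t7897_A00pp_022_s3 k2521_A00pp_022_s3

theorem t7899_A00pp_022_s3 : ∃ t, chk3 f_A00pp_022_s3 t 147 490 36 = true := ex3_c t7898_A00pp_022_s3 k2522_A00pp_022_s3

theorem t7900_A00pp_022_s3 : ∃ t, chk3 f_A00pp_022_s3 t 147 490 18 = true := ex3_c t7899_A00pp_022_s3 t7895_A00pp_022_s3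

theorem t7901_A00pp_022_s3 : ∃ t, chk3 f_A00pp_022_s3 t 147 245 18 = true := ex3_b t7900_A00pp_022_s3 t7872_A00pp_022_s3

theorem t7902_A00pp_022_s3 : ∃ t, chk3 f_A00pp_022_s3 t 295 489 37 = true := ex3_a k2516_A00pp_022_s3 k2517_A00pp_022_s3

theorem t7903_A00pp_022_s3 : ∃ t, chk3 f_A00pp_022_s3 t 295 244 37 = true := ex3_b k2515_A00pp_022_s3 t7902_A00pp_022_s3

theorem t7904_A00pp_022_s3 : ∃ t, chk3 f_A00pp_022_s3 t 294 488 37 = true := ex3_c k2512_A00pp_022_s3 k2513_A00pp_022_s3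

theorem t7905_A00pp_022_s3 : ∃ t, chk3 f_A00pp_022_s3 t 294 244 37 = true := ex3_b t7904_A00pp_022_s3 k2514_A00pp_022_s3

theorem t7906_A00pp_022_s3 : ∃ t, chk3 f_A00pp_022_s3 t 147 244 37 = true := ex3_a t7905_A00pp_022_s3 t7903_A00pp_022_s3

theorem t7907_A00pp_022_s3 : ∃ t, chk3 f_A00pp_022_s3 t 295 244 36 = true := ex3_c k2510_A00pp_022_s3 k2511_A00pp_022_s3

theorem t7908_A00pp_022_s3 : ∃ t, chk3 f_A00pp_022_s3 t 294 489 73 = true := ex3_a k2508_A00pp_022_s3 k2509_A00pp_022_s3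

theorem t7909_A00pp_022_s3 : ∃ t, chk3 f_A00pp_022_s3 t 294 489 72 = true := ex3_a k2506_A00pp_022_s3 k2507_A00pp_022_s3

theorem t7910_A00pp_022_s3 : ∃ t, chk3 f_A00pp_022_s3 t 294 489 36 = true := ex3_c t7909_A00pp_022_s3 t7908_A00pp_022_s3

theorem t7911_A00pp_022_s3 : ∃ t, chk3 f_A00pp_022_s3 t 294 488 73 = true := ex3_a k2504_A00pp_022_s3 k2505_A00pp_022_s3

theorem t7912_A00pp_022_s3 : ∃ t, chk3 f_A00pp_022_s3 t 294 488 36 = true := ex3_c k2503_A00pp_022_s3 t7911_A00pp_022_s3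

theorem t7913_A00pp_022_s3 : ∃ t, chk3 f_A00pp_022_s3 t 294 244 36 = true := ex3_b t7912_A00pp_022_s3 t7910_A00pp_022_s3

theorem t7914_A00pp_022_s3 : ∃ t, chk3 f_A00pp_022_s3 t 147 244 36 = true := ex3_a t7913_A00pp_022_s3 t7907_A00pp_022_s3

theorem t7915_A00pp_022_s3 : ∃ t, chk3 f_A00pp_022_s3 t 147 244 18 = true := ex3_c t7914_A00pp_022_s3 t7906_A00pp_022_s3

theorem t7916_A00pp_022_s3 : ∃ t, chk3 f_A00pp_022_s3 t 147 122 18 = true := ex3_b t7915_A00pp_022_s3 t7901_A00pp_022_s3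

theorem t7917_A00pp_022_s3 : ∃ t, chk3 f_A00pp_022_s3 t 586 490 74 = true := ex3_b k2498_A00pp_022_s3 k2499_A00pp_022_s3

theorem t7918_A00pp_022_s3 : ∃ t, chk3 f_A00pp_022_s3 t 293 490 74 = true := ex3_a t7917_A00pp_022_s3 k2500_A00pp_022_s3

theorem t7919_A00pp_022_s3 : ∃ t, chk3 f_A00pp_022_s3 t 293 490 37 = true := ex3_c t7918_A00pp_022_s3 k2501_A00pp_022_s3

theorem t7920_A00pp_022_s3 : ∃ t, chk3 f_A00pp_022_s3 t 293 245 37 = true := ex3_b t7919_A00pp_022_s3 k2502_A00pp_022_s3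

theorem t7921_A00pp_022_s3 : ∃ t, chk3 f_A00pp_022_s3 t 584 491 75 = true := ex3_b k2495_A00pp_022_s3 k2496_A00pp_022_s3

theorem t7922_A00pp_022_s3 : ∃ t, chk3 f_A00pp_022_s3 t 292 491 75 = true := ex3_a t7921_A00pp_022_s3 k2497_A00pp_022_s3

theorem t7923_A00pp_022_s3 : ∃ t, chk3 f_A00pp_022_s3 t 585 490 75 = true := ex3_c k2493_A00pp_022_s3 k2494_A00pp_022_s3

theorem t7924_A00pp_022_s3 : ∃ t, chk3 f_A00pp_022_s3 t 292 490 75 = true := ex3_a k2492_A00pp_022_s3 t7923_A00pp_022_s3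

theorem t7925_A00pp_022_s3 : ∃ t, chk3 f_A00pp_022_s3 t 292 245 75 = true := ex3_b t7924_A00pp_022_s3 t7922_A00pp_022_s3

theorem t7926_A00pp_022_s3 : ∃ t, chk3 f_A00pp_022_s3 t 585 982 74 = true := ex3_c k2489_A00pp_022_s3 k2490_A00pp_022_s3

theorem t7927_A00pp_022_s3 : ∃ t, chk3 f_A00pp_022_s3 t 585 491 74 = true := ex3_b t7926_A00pp_022_s3 k2491_A00pp_022_s3

theorem t7928_A00pp_022_s3 : ∃ t, chk3 f_A00pp_022_s3 t 585 245 74 = true := ex3_b k2488_A00pp_022_s3 t7927_A00pp_022_s3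

theorem t7929_A00pp_022_s3 : ∃ t, chk3 f_A00pp_022_s3 t 584 491 149 = true := ex3_a k2486_A00pp_022_s3 k2487_A00pp_022_s3

theorem t7930_A00pp_022_s3 : ∃ t, chk3 f_A00pp_022_s3 t 584 491 74 = true := ex3_c k2485_A00pp_022_s3 t7929_A00pp_022_s3

theorem t7931_A00pp_022_s3 : ∃ t, chk3 f_A00pp_022_s3 t 584 245 74 = true := ex3_b k2484_A00pp_022_s3 t7930_A00pp_022_s3

theorem t7932_A00pp_022_s3 : ∃ t, chk3 f_A00pp_022_s3 t 292 245 74 = true := ex3_a t7931_A00pp_022_s3 t7928_A00pp_022_s3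

theorem t7933_A00pp_022_s3 : ∃ t, chk3 f_A00pp_022_s3 t 292 245 37 = true := ex3_c t7932_A00pp_022_s3 t7925_A00pp_022_s3

theorem t7934_A00pp_022_s3 : ∃ t, chk3 f_A00pp_022_s3 t 146 245 37 = true := ex3_a t7933_A00pp_022_s3 t7920_A00pp_022_s3

theorem t7935_A00pp_022_s3 : ∃ t, chk3 f_A00pp_022_s3 t 586 244 75 = true := ex3_b k2481_A00pp_022_s3 k2482_A00pp_022_s3

theorem t7936_A00pp_022_s3 : ∃ t, chk3 f_A00pp_022_s3 t 293 244 75 = true := ex3_a t7935_A00pp_022_s3 k2483_A00pp_022_s3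

theorem t7937_A00pp_022_s3 : ∃ t, chk3 f_A00pp_022_s3 t 293 489 74 = true := ex3_a k2479_A00pp_022_s3 k2480_A00pp_022_s3

theorem t7938_A00pp_022_s3 : ∃ t, chk3 f_A00pp_022_s3 t 293 244 74 = true := ex3_b k2478_A00pp_022_s3 t7937_A00pp_022_s3

theorem t7939_A00pp_022_s3 : ∃ t, chk3 f_A00pp_022_s3 t 293 244 37 = true := ex3_c t7938_A00pp_022_s3 t7936_A00pp_022_s3

theorem t7940_A00pp_022_s3 : ∃ t, chk3 f_A00pp_022_s3 t 146 244 37 = true := ex3_a k2477_A00pp_022_s3 t7939_A00pp_022_s3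

theorem t7941_A00pp_022_s3 : ∃ t, chk3 f_A00pp_022_s3 t 146 122 37 = true := ex3_b t7940_A00pp_022_s3 t7934_A00pp_022_s3

theorem t7942_A00pp_022_s3 : ∃ t, chk3 f_A00pp_022_s3 t 1174 982 72 = true := ex3_c k2472_A00pp_022_s3 k2473_A00pp_022_s3

theorem t7943_A00pp_022_s3 : ∃ t, chk3 f_A00pp_022_s3 t 587 982 72 = true := ex3_a t7942_A00pp_022_s3 k2474_A00pp_022_s3

theorem t7944_A00pp_022_s3 : ∃ t, chk3 f_A00pp_022_s3 t 587 491 72 = true := ex3_b t7943_A00pp_022_s3 k2475_A00pp_022_s3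

theorem t7945_A00pp_022_s3 : ∃ t, chk3 f_A00pp_022_s3 t 587 491 36 = true := ex3_c t7944_A00pp_022_s3 k2476_A00pp_022_s3

theorem t7946_A00pp_022_s3 : ∃ t, chk3 f_A00pp_022_s3 t 586 982 146 = true := ex3_a k2468_A00pp_022_s3 k2469_A00pp_022_s3

theorem t7947_A00pp_022_s3 : ∃ t, chk3 f_A00pp_022_s3 t 586 982 73 = true := ex3_c t7946_A00pp_022_s3 k2470_A00pp_022_s3

theorem t7948_A00pp_022_s3 : ∃ t, chk3 f_A00pp_022_s3 t 586 491 73 = true := ex3_b t7947_A00pp_022_s3 k2471_A00pp_022_s3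

theorem t7949_A00pp_022_s3 : ∃ t, chk3 f_A00pp_022_s3 t 1173 983 144 = true := ex3_b k2465_A00pp_022_s3 k2466_A00pp_022_s3

theorem t7950_A00pp_022_s3 : ∃ t, chk3 f_A00pp_022_s3 t 1173 983 72 = true := ex3_c t7949_A00pp_022_s3 k2467_A00pp_022_s3

theorem t7951_A00pp_022_s3 : ∃ t, chk3 f_A00pp_022_s3 t 1172 983 145 = true := ex3_b k2463_A00pp_022_s3 k2464_A00pp_022_s3

theorem t7952_A00pp_022_s3 : ∃ t, chk3 f_A00pp_022_s3 t 1172 983 72 = true := ex3_c k2462_A00pp_022_s3 t7951_A00pp_022_s3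

theorem t7953_A00pp_022_s3 : ∃ t, chk3 f_A00pp_022_s3 t 586 983 72 = true := ex3_a t7952_A00pp_022_s3 t7950_A00pp_022_s3

theorem t7954_A00pp_022_s3 : ∃ t, chk3 f_A00pp_022_s3 t 1173 982 72 = true := ex3_c k2460_A00pp_022_s3 k2461_A00pp_022_s3

theorem t7955_A00pp_022_s3 : ∃ t, chk3 f_A00pp_022_s3 t 586 982 72 = true := ex3_a k2459_A00pp_022_s3 t7954_A00pp_022_s3

theorem t7956_A00pp_022_s3 : ∃ t, chk3 f_A00pp_022_s3 t 586 491 72 = true := ex3_b t7955_A00pp_022_s3 t7953_A00pp_022_s3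

theorem t7957_A00pp_022_s3 : ∃ t, chk3 f_A00pp_022_s3 t 586 491 36 = true := ex3_c t7956_A00pp_022_s3 t7948_A00pp_022_s3

theorem t7958_A00pp_022_s3 : ∃ t, chk3 f_A00pp_022_s3 t 293 491 36 = true := ex3_a t7957_A00pp_022_s3 t7945_A00pp_022_s3

theorem t7959_A00pp_022_s3 : ∃ t, chk3 f_A00pp_022_s3 t 587 490 73 = true := ex3_b k2457_A00pp_022_s3 k2458_A00pp_022_s3

theorem t7960_A00pp_022_s3 : ∃ t, chk3 f_A00pp_022_s3 t 586 490 73 = true := ex3_c k2455_A00pp_022_s3 k2456_A00pp_022_s3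

theorem t7961_A00pp_022_s3 : ∃ t, chk3 f_A00pp_022_s3 t 293 490 73 = true := ex3_a t7960_A00pp_022_s3 t7959_A00pp_022_s3

theorem t7962_A00pp_022_s3 : ∃ t, chk3 f_A00pp_022_s3 t 587 490 145 = true := ex3_a k2453_A00pp_022_s3 k2454_A00pp_022_s3

theorem t7963_A00pp_022_s3 : ∃ t, chk3 f_A00pp_022_s3 t 587 490 72 = true := ex3_c k2452_A00pp_022_s3 t7962_A00pp_022_s3

theorem t7964_A00pp_022_s3 : ∃ t, chk3 f_A00pp_022_s3 t 293 490 72 = true := ex3_a k2451_A00pp_022_s3 t7963_A00pp_022_s3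

theorem t7965_A00pp_022_s3 : ∃ t, chk3 f_A00pp_022_s3 t 293 490 36 = true := ex3_c t7964_A00pp_022_s3 t7961_A00pp_022_s3

theorem t7966_A00pp_022_s3 : ∃ t, chk3 f_A00pp_022_s3 t 293 245 36 = true := ex3_b t7965_A00pp_022_s3 t7958_A00pp_022_s3

theorem t7967_A00pp_022_s3 : ∃ t, chk3 f_A00pp_022_s3 t 1171 983 73 = true := ex3_c k2449_A00pp_022_s3 k2450_A00pp_022_s3

theorem t7968_A00pp_022_s3 : ∃ t, chk3 f_A00pp_022_s3 t 1170 983 73 = true := ex3_c k2447_A00pp_022_s3 k2448_A00pp_022_s3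

theorem t7969_A00pp_022_s3 : ∃ t, chk3 f_A00pp_022_s3 t 585 983 73 = true := ex3_a t7968_A00pp_022_s3 t7967_A00pp_022_s3

theorem t7970_A00pp_022_s3 : ∃ t, chk3 f_A00pp_022_s3 t 585 491 73 = true := ex3_b k2446_A00pp_022_s3 t7969_A00pp_022_s3

theorem t7971_A00pp_022_s3 : ∃ t, chk3 f_A00pp_022_s3 t 585 491 72 = true := ex3_b k2444_A00pp_022_s3 k2445_A00pp_022_s3

theorem t7972_A00pp_022_s3 : ∃ t, chk3 f_A00pp_022_s3 t 585 491 36 = true := ex3_c t7971_A00pp_022_s3 t7970_A00pp_022_s3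

theorem t7973_A00pp_022_s3 : ∃ t, chk3 f_A00pp_022_s3 t 1168 491 291 = true := ex3_b k2440_A00pp_022_s3 k2441_A00pp_022_s3

theorem t7974_A00pp_022_s3 : ∃ t, chk3 f_A00pp_022_s3 t 1168 983 290 = true := ex3_a k2438_A00pp_022_s3 k2439_A00pp_022_s3

theorem t7975_A00pp_022_s3 : ∃ t, chk3 f_A00pp_022_s3 t 1168 982 290 = true := ex3_b k2436_A00pp_022_s3 k2437_A00pp_022_s3

theorem t7976_A00pp_022_s3 : ∃ t, chk3 f_A00pp_022_s3 t 1168 491 290 = true := ex3_b t7975_A00pp_022_s3 t7974_A00pp_022_s3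

theorem t7977_A00pp_022_s3 : ∃ t, chk3 f_A00pp_022_s3 t 1168 491 145 = true := ex3_c t7976_A00pp_022_s3 t7973_A00pp_022_s3

theorem t7978_A00pp_022_s3 : ∃ t, chk3 f_A00pp_022_s3 t 584 491 145 = true := ex3_a t7977_A00pp_022_s3 k2442_A00pp_022_s3

theorem t7979_A00pp_022_s3 : ∃ t, chk3 f_A00pp_022_s3 t 2338 983 289 = true := ex3_c k2433_A00pp_022_s3 k2434_A00pp_022_s3

theorem t7980_A00pp_022_s3 : ∃ t, chk3 f_A00pp_022_s3 t 1169 983 289 = true := ex3_a t7979_A00pp_022_s3 k2435_A00pp_022_s3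

theorem t7981_A00pp_022_s3 : ∃ t, chk3 f_A00pp_022_s3 t 2339 983 288 = true := ex3_b k2431_A00pp_022_s3 k2432_A00pp_022_s3

theorem t7982_A00pp_022_s3 : ∃ t, chk3 f_A00pp_022_s3 t 1169 983 288 = true := ex3_a k2430_A00pp_022_s3 t7981_A00pp_022_s3

theorem t7983_A00pp_022_s3 : ∃ t, chk3 f_A00pp_022_s3 t 1169 983 144 = true := ex3_c t7982_A00pp_022_s3 t7980_A00pp_022_s3

theorem t7984_A00pp_022_s3 : ∃ t, chk3 f_A00pp_022_s3 t 2339 982 288 = true := ex3_b k2427_A00pp_022_s3 k2428_A00pp_022_s3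

theorem t7985_A00pp_022_s3 : ∃ t, chk3 f_A00pp_022_s3 t 1169 982 288 = true := ex3_a k2426_A00pp_022_s3 t7984_A00pp_022_s3

theorem t7986_A00pp_022_s3 : ∃ t, chk3 f_A00pp_022_s3 t 1169 982 144 = true := ex3_c t7985_A00pp_022_s3 k2429_A00pp_022_s3

theorem t7987_A00pp_022_s3 : ∃ t, chk3 f_A00pp_022_s3 t 1169 491 144 = true := ex3_b t7986_A00pp_022_s3 t7983_A00pp_022_s3

theorem t7988_A00pp_022_s3 : ∃ t, chk3 f_A00pp_022_s3 t 1168 491 144 = true := ex3_b k2424_A00pp_022_s3 k2425_A00pp_022_s3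

theorem t7989_A00pp_022_s3 : ∃ t, chk3 f_A00pp_022_s3 t 584 491 144 = true := ex3_a t7988_A00pp_022_s3 t7987_A00pp_022_s3

theorem t7990_A00pp_022_s3 : ∃ t, chk3 f_A00pp_022_s3 t 584 491 72 = true := ex3_c t7989_A00pp_022_s3 t7978_A00pp_022_s3

theorem t7991_A00pp_022_s3 : ∃ t, chk3 f_A00pp_022_s3 t 584 491 36 = true := ex3_c t7990_A00pp_022_s3 k2443_A00pp_022_s3

theorem t7992_A00pp_022_s3 : ∃ t, chk3 f_A00pp_022_s3 t 292 491 36 = true := ex3_a t7991_A00pp_022_s3 t7972_A00pp_022_s3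

theorem t7993_A00pp_022_s3 : ∃ t, chk3 f_A00pp_022_s3 t 585 490 72 = true := ex3_c k2421_A00pp_022_s3 k2422_A00pp_022_s3

theorem t7994_A00pp_022_s3 : ∃ t, chk3 f_A00pp_022_s3 t 2336 1963 290 = true := ex3_c k2416_A00pp_022_s3 k2417_A00pp_022_s3

theorem t7995_A00pp_022_s3 : ∃ t, chk3 f_A00pp_022_s3 t 1168 1963 290 = true := ex3_a t7994_A00pp_022_s3 k2418_A00pp_022_s3

theorem t7996_A00pp_022_s3 : ∃ t, chk3 f_A00pp_022_s3 t 1168 981 290 = true := ex3_b k2415_A00pp_022_s3 t7995_A00pp_022_s3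

theorem t7997_A00pp_022_s3 : ∃ t, chk3 f_A00pp_022_s3 t 1168 490 290 = true := ex3_b k2414_A00pp_022_s3 t7996_A00pp_022_s3

theorem t7998_A00pp_022_s3 : ∃ t, chk3 f_A00pp_022_s3 t 1168 490 145 = true := ex3_c t7997_A00pp_022_s3 k2419_A00pp_022_s3

theorem t7999_A00pp_022_s3 : ∃ t, chk3 f_A00pp_022_s3 t 584 490 145 = true := ex3_a t7998_A00pp_022_s3 k2420_A00pp_022_s3

theorem t8000_A00pp_022_s3 : ∃ t, chk3 f_A00pp_022_s3 t 2338 1963 578 = true := ex3_b k2410_A00pp_022_s3 k2411_A00pp_022_s3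

theorem t8001_A00pp_022_s3 : ∃ t, chk3 f_A00pp_022_s3 t 2338 1963 289 = true := ex3_c t8000_A00pp_022_s3 k2412_A00pp_022_s3

theorem t8002_A00pp_022_s3 : ∃ t, chk3 f_A00pp_022_s3 t 1169 1963 289 = true := ex3_a t8001_A00pp_022_s3 k2413_A00pp_022_s3

theorem t8003_A00pp_022_s3 : ∃ t, chk3 f_A00pp_022_s3 t 1169 981 289 = true := ex3_b k2409_A00pp_022_s3 t8002_A00pp_022_s3

theorem t8004_A00pp_022_s3 : ∃ t, chk3 f_A00pp_022_s3 t 2339 1963 288 = true := ex3_c k2407_A00pp_022_s3 k2408_A00pp_022_s3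

theorem t8005_A00pp_022_s3 : ∃ t, chk3 f_A00pp_022_s3 t 1169 1963 288 = true := ex3_a k2406_A00pp_022_s3 t8004_A00pp_022_s3

theorem t8006_A00pp_022_s3 : ∃ t, chk3 f_A00pp_022_s3 t 1169 981 288 = true := ex3_b k2405_A00pp_022_s3 t8005_A00pp_022_s3

theorem t8007_A00pp_022_s3 : ∃ t, chk3 f_A00pp_022_s3 t 1169 981 144 = true := ex3_c t8006_A00pp_022_s3 t8003_A00pp_022_s3

theorem t8008_A00pp_022_s3 : ∃ t, chk3 f_A00pp_022_s3 t 1168 981 144 = true := ex3_b k2403_A00pp_022_s3 k2404_A00pp_022_s3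

theorem t8009_A00pp_022_s3 : ∃ t, chk3 f_A00pp_022_s3 t 584 981 144 = true := ex3_a t8008_A00pp_022_s3 t8007_A00pp_022_s3

theorem t8010_A00pp_022_s3 : ∃ t, chk3 f_A00pp_022_s3 t 584 490 144 = true := ex3_b k2402_A00pp_022_s3 t8009_A00pp_022_s3

theorem t8011_A00pp_022_s3 : ∃ t, chk3 f_A00pp_022_s3 t 584 490 72 = true := ex3_c t8010_A00pp_022_s3 t7999_A00pp_022_s3

theorem t8012_A00pp_022_s3 : ∃ t, chk3 f_A00pp_022_s3 t 292 490 72 = true := ex3_a t8011_A00pp_022_s3 t7993_A00pp_022_s3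

theorem t8013_A00pp_022_s3 : ∃ t, chk3 f_A00pp_022_s3 t 292 490 36 = true := ex3_c t8012_A00pp_022_s3 k2423_A00pp_022_s3

theorem t8014_A00pp_022_s3 : ∃ t, chk3 f_A00pp_022_s3 t 292 245 36 = true := ex3_b t8013_A00pp_022_s3 t7992_A00pp_022_s3

theorem t8015_A00pp_022_s3 : ∃ t, chk3 f_A00pp_022_s3 t 146 245 36 = true := ex3_a t8014_A00pp_022_s3 t7966_A00pp_022_s3

theorem t8016_A00pp_022_s3 : ∃ t, chk3 f_A00pp_022_s3 t 293 244 36 = true := ex3_c k2400_A00pp_022_s3 k2401_A00pp_022_s3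

theorem t8017_A00pp_022_s3 : ∃ t, chk3 f_A00pp_022_s3 t 584 244 72 = true := ex3_c k2396_A00pp_022_s3 k2397_A00pp_022_s3

theorem t8018_A00pp_022_s3 : ∃ t, chk3 f_A00pp_022_s3 t 292 244 72 = true := ex3_a t8017_A00pp_022_s3 k2398_A00pp_022_s3

theorem t8019_A00pp_022_s3 : ∃ t, chk3 f_A00pp_022_s3 t 292 244 36 = true := ex3_c t8018_A00pp_022_s3 k2399_A00pp_022_s3

theorem t8020_A00pp_022_s3 : ∃ t, chk3 f_A00pp_022_s3 t 146 244 36 = true := ex3_a t8019_A00pp_022_s3 t8016_A00pp_022_s3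

theorem t8021_A00pp_022_s3 : ∃ t, chk3 f_A00pp_022_s3 t 146 122 36 = true := ex3_b t8020_A00pp_022_s3 t8015_A00pp_022_s3

theorem t8022_A00pp_022_s3 : ∃ t, chk3 f_A00pp_022_s3 t 146 122 18 = true := ex3_c t8021_A00pp_022_s3 t7941_A00pp_022_s3

theorem t8023_A00pp_022_s3 : ∃ t, chk3 f_A00pp_022_s3 t 73 122 18 = true := ex3_a t8022_A00pp_022_s3 t7916_A00pp_022_s3

theorem t8024_A00pp_022_s3 : ∃ t, chk3 f_A00pp_022_s3 t 73 61 18 = true := ex3_b t8023_A00pp_022_s3 t7844_A00pp_022_s3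

theorem t8025_A00pp_022_s3 : ∃ t, chk3 f_A00pp_022_s3 t 73 61 9 = true := ex3_c t8024_A00pp_022_s3 t7734_A00pp_022_s3

theorem t8026_A00pp_022_s3 : ∃ t, chk3 f_A00pp_022_s3 t 294 984 17 = true := ex3_c k2390_A00pp_022_s3 k2391_A00pp_022_s3

theorem t8027_A00pp_022_s3 : ∃ t, chk3 f_A00pp_022_s3 t 294 492 17 = true := ex3_b t8026_A00pp_022_s3 k2392_A00pp_022_s3

theorem t8028_A00pp_022_s3 : ∃ t, chk3 f_A00pp_022_s3 t 294 246 17 = true := ex3_b t8027_A00pp_022_s3 k2393_A00pp_022_s3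

theorem t8029_A00pp_022_s3 : ∃ t, chk3 f_A00pp_022_s3 t 147 246 17 = true := ex3_a t8028_A00pp_022_s3 k2394_A00pp_022_s3

theorem t8030_A00pp_022_s3 : ∃ t, chk3 f_A00pp_022_s3 t 147 123 17 = true := ex3_b t8029_A00pp_022_s3 k2395_A00pp_022_s3

theorem t8031_A00pp_022_s3 : ∃ t, chk3 f_A00pp_022_s3 t 146 493 35 = true := ex3_a k2387_A00pp_022_s3 k2388_A00pp_022_s3

theorem t8032_A00pp_022_s3 : ∃ t, chk3 f_A00pp_022_s3 t 2348 1968 142 = true := ex3_c k2380_A00pp_022_s3 k2381_A00pp_022_s3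

theorem t8033_A00pp_022_s3 : ∃ t, chk3 f_A00pp_022_s3 t 1174 1968 142 = true := ex3_a t8032_A00pp_022_s3 k2382_A00pp_022_s3

theorem t8034_A00pp_022_s3 : ∃ t, chk3 f_A00pp_022_s3 t 1174 1968 71 = true := ex3_c t8033_A00pp_022_s3 k2383_A00pp_022_s3

theorem t8035_A00pp_022_s3 : ∃ t, chk3 f_A00pp_022_s3 t 1174 984 71 = true := ex3_b t8034_A00pp_022_s3 k2384_A00pp_022_s3

theorem t8036_A00pp_022_s3 : ∃ t, chk3 f_A00pp_022_s3 t 587 984 71 = true := ex3_a t8035_A00pp_022_s3 k2385_A00pp_022_s3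

theorem t8037_A00pp_022_s3 : ∃ t, chk3 f_A00pp_022_s3 t 587 492 71 = true := ex3_b t8036_A00pp_022_s3 k2386_A00pp_022_s3

theorem t8038_A00pp_022_s3 : ∃ t, chk3 f_A00pp_022_s3 t 1172 985 71 = true := ex3_c k2377_A00pp_022_s3 k2378_A00pp_022_s3

theorem t8039_A00pp_022_s3 : ∃ t, chk3 f_A00pp_022_s3 t 586 985 71 = true := ex3_a t8038_A00pp_022_s3 k2379_A00pp_022_s3

theorem t8040_A00pp_022_s3 : ∃ t, chk3 f_A00pp_022_s3 t 2346 1968 143 = true := ex3_c k2373_A00pp_022_s3 k2374_A00pp_022_s3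

theorem t8041_A00pp_022_s3 : ∃ t, chk3 f_A00pp_022_s3 t 1173 1968 143 = true := ex3_a t8040_A00pp_022_s3 k2375_A00pp_022_s3

theorem t8042_A00pp_022_s3 : ∃ t, chk3 f_A00pp_022_s3 t 1173 984 143 = true := ex3_b t8041_A00pp_022_s3 k2376_A00pp_022_s3

theorem t8043_A00pp_022_s3 : ∃ t, chk3 f_A00pp_022_s3 t 1173 1969 142 = true := ex3_a k2371_A00pp_022_s3 k2372_A00pp_022_s3

theorem t8044_A00pp_022_s3 : ∃ t, chk3 f_A00pp_022_s3 t 1173 984 142 = true := ex3_b k2370_A00pp_022_s3 t8043_A00pp_022_s3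

theorem t8045_A00pp_022_s3 : ∃ t, chk3 f_A00pp_022_s3 t 1173 984 71 = true := ex3_c t8044_A00pp_022_s3 t8042_A00pp_022_s3

theorem t8046_A00pp_022_s3 : ∃ t, chk3 f_A00pp_022_s3 t 2345 1969 143 = true := ex3_c k2368_A00pp_022_s3 k2369_A00pp_022_s3

theorem t8047_A00pp_022_s3 : ∃ t, chk3 f_A00pp_022_s3 t 1172 1969 143 = true := ex3_a k2367_A00pp_022_s3 t8046_A00pp_022_s3

theorem t8048_A00pp_022_s3 : ∃ t, chk3 f_A00pp_022_s3 t 2344 1969 284 = true := ex3_c k2363_A00pp_022_s3 k2364_A00pp_022_s3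

theorem t8049_A00pp_022_s3 : ∃ t, chk3 f_A00pp_022_s3 t 2344 1969 142 = true := ex3_c t8048_A00pp_022_s3 k2365_A00pp_022_s3

theorem t8050_A00pp_022_s3 : ∃ t, chk3 f_A00pp_022_s3 t 1172 1969 142 = true := ex3_a t8049_A00pp_022_s3 k2366_A00pp_022_s3

theorem t8051_A00pp_022_s3 : ∃ t, chk3 f_A00pp_022_s3 t 1172 1969 71 = true := ex3_c t8050_A00pp_022_s3 t8047_A00pp_022_s3

theorem t8052_A00pp_022_s3 : ∃ t, chk3 f_A00pp_022_s3 t 1172 1968 284 = true := ex3_a k2359_A00pp_022_s3 k2360_A00pp_022_s3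

theorem t8053_A00pp_022_s3 : ∃ t, chk3 f_A00pp_022_s3 t 1172 1968 142 = true := ex3_c t8052_A00pp_022_s3 k2361_A00pp_022_s3

theorem t8054_A00pp_022_s3 : ∃ t, chk3 f_A00pp_022_s3 t 1172 1968 71 = true := ex3_c t8053_A00pp_022_s3 k2362_A00pp_022_s3

theorem t8055_A00pp_022_s3 : ∃ t, chk3 f_A00pp_022_s3 t 1172 984 71 = true := ex3_b t8054_A00pp_022_s3 t8051_A00pp_022_s3

theorem t8056_A00pp_022_s3 : ∃ t, chk3 f_A00pp_022_s3 t 586 984 71 = true := ex3_a t8055_A00pp_022_s3 t8045_A00pp_022_s3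

theorem t8057_A00pp_022_s3 : ∃ t, chk3 f_A00pp_022_s3 t 586 492 71 = true := ex3_b t8056_A00pp_022_s3 t8039_A00pp_022_s3

theorem t8058_A00pp_022_s3 : ∃ t, chk3 f_A00pp_022_s3 t 293 492 71 = true := ex3_a t8057_A00pp_022_s3 t8037_A00pp_022_s3

theorem t8059_A00pp_022_s3 : ∃ t, chk3 f_A00pp_022_s3 t 2350 1968 141 = true := ex3_c k2354_A00pp_022_s3 k2355_A00pp_022_s3

theorem t8060_A00pp_022_s3 : ∃ t, chk3 f_A00pp_022_s3 t 1175 1968 141 = true := ex3_a t8059_A00pp_022_s3 k2356_A00pp_022_s3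

theorem t8061_A00pp_022_s3 : ∃ t, chk3 f_A00pp_022_s3 t 1175 984 141 = true := ex3_b t8060_A00pp_022_s3 k2357_A00pp_022_s3

theorem t8062_A00pp_022_s3 : ∃ t, chk3 f_A00pp_022_s3 t 1175 492 141 = true := ex3_b t8061_A00pp_022_s3 k2358_A00pp_022_s3

theorem t8063_A00pp_022_s3 : ∃ t, chk3 f_A00pp_022_s3 t 2349 1968 283 = true := ex3_b k2350_A00pp_022_s3 k2351_A00pp_022_s3

theorem t8064_A00pp_022_s3 : ∃ t, chk3 f_A00pp_022_s3 t 1174 1968 283 = true := ex3_a k2349_A00pp_022_s3 t8063_A00pp_022_s3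

theorem t8065_A00pp_022_s3 : ∃ t, chk3 f_A00pp_022_s3 t 1174 984 283 = true := ex3_b t8064_A00pp_022_s3 k2352_A00pp_022_s3

theorem t8066_A00pp_022_s3 : ∃ t, chk3 f_A00pp_022_s3 t 1174 492 283 = true := ex3_b t8065_A00pp_022_s3 k2353_A00pp_022_s3

theorem t8067_A00pp_022_s3 : ∃ t, chk3 f_A00pp_022_s3 t 1174 492 141 = true := ex3_c k2348_A00pp_022_s3 t8066_A00pp_022_s3

theorem t8068_A00pp_022_s3 : ∃ t, chk3 f_A00pp_022_s3 t 587 492 141 = true := ex3_a t8067_A00pp_022_s3 t8062_A00pp_022_s3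

theorem t8069_A00pp_022_s3 : ∃ t, chk3 f_A00pp_022_s3 t 1175 1968 140 = true := ex3_a k2344_A00pp_022_s3 k2345_A00pp_022_s3

theorem t8070_A00pp_022_s3 : ∃ t, chk3 f_A00pp_022_s3 t 1175 984 140 = true := ex3_b t8069_A00pp_022_s3 k2346_A00pp_022_s3

theorem t8071_A00pp_022_s3 : ∃ t, chk3 f_A00pp_022_s3 t 2349 1968 140 = true := ex3_c k2341_A00pp_022_s3 k2342_A00pp_022_s3

theorem t8072_A00pp_022_s3 : ∃ t, chk3 f_A00pp_022_s3 t 2348 1968 281 = true := ex3_c k2339_A00pp_022_s3 k2340_A00pp_022_s3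

theorem t8073_A00pp_022_s3 : ∃ t, chk3 f_A00pp_022_s3 t 2348 1968 140 = true := ex3_c k2338_A00pp_022_s3 t8072_A00pp_022_s3

theorem t8074_A00pp_022_s3 : ∃ t, chk3 f_A00pp_022_s3 t 1174 1968 140 = true := ex3_a t8073_A00pp_022_s3 t8071_A00pp_022_s3

theorem t8075_A00pp_022_s3 : ∃ t, chk3 f_A00pp_022_s3 t 1174 984 140 = true := ex3_b t8074_A00pp_022_s3 k2343_A00pp_022_s3

theorem t8076_A00pp_022_s3 : ∃ t, chk3 f_A00pp_022_s3 t 587 984 140 = true := ex3_a t8075_A00pp_022_s3 t8070_A00pp_022_s3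

theorem t8077_A00pp_022_s3 : ∃ t, chk3 f_A00pp_022_s3 t 587 492 140 = true := ex3_b t8076_A00pp_022_s3 k2347_A00pp_022_s3

theorem t8078_A00pp_022_s3 : ∃ t, chk3 f_A00pp_022_s3 t 587 492 70 = true := ex3_c t8077_A00pp_022_s3 t8068_A00pp_022_s3

theorem t8079_A00pp_022_s3 : ∃ t, chk3 f_A00pp_022_s3 t 1173 3938 141 = true := ex3_c k2334_A00pp_022_s3 k2335_A00pp_022_s3

theorem t8080_A00pp_022_s3 : ∃ t, chk3 f_A00pp_022_s3 t 1173 3938 70 = true := ex3_c k2333_A00pp_022_s3 t8079_A00pp_022_s3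

theorem t8081_A00pp_022_s3 : ∃ t, chk3 f_A00pp_022_s3 t 1173 1969 70 = true := ex3_b t8080_A00pp_022_s3 k2336_A00pp_022_s3

theorem t8082_A00pp_022_s3 : ∃ t, chk3 f_A00pp_022_s3 t 586 1969 70 = true := ex3_a k2332_A00pp_022_s3 t8081_A00pp_022_s3

theorem t8083_A00pp_022_s3 : ∃ t, chk3 f_A00pp_022_s3 t 1173 1968 282 = true := ex3_a k2329_A00pp_022_s3 k2330_A00pp_022_s3

theorem t8084_A00pp_022_s3 : ∃ t, chk3 f_A00pp_022_s3 t 1173 1968 141 = true := ex3_c t8083_A00pp_022_s3 k2331_A00pp_022_s3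

theorem t8085_A00pp_022_s3 : ∃ t, chk3 f_A00pp_022_s3 t 586 1968 141 = true := ex3_a k2328_A00pp_022_s3 t8084_A00pp_022_s3

theorem t8086_A00pp_022_s3 : ∃ t, chk3 f_A00pp_022_s3 t 586 1968 70 = true := ex3_c k2327_A00pp_022_s3 t8085_A00pp_022_s3

theorem t8087_A00pp_022_s3 : ∃ t, chk3 f_A00pp_022_s3 t 586 984 70 = true := ex3_b t8086_A00pp_022_s3 t8082_A00pp_022_s3

theorem t8088_A00pp_022_s3 : ∃ t, chk3 f_A00pp_022_s3 t 586 492 70 = true := ex3_b t8087_A00pp_022_s3 k2337_A00pp_022_s3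

theorem t8089_A00pp_022_s3 : ∃ t, chk3 f_A00pp_022_s3 t 293 492 70 = true := ex3_a t8088_A00pp_022_s3 t8078_A00pp_022_s3

theorem t8090_A00pp_022_s3 : ∃ t, chk3 f_A00pp_022_s3 t 293 492 35 = true := ex3_c t8089_A00pp_022_s3 t8058_A00pp_022_s3

theorem t8091_A00pp_022_s3 : ∃ t, chk3 f_A00pp_022_s3 t 585 1971 71 = true := ex3_a k2325_A00pp_022_s3 k2326_A00pp_022_s3

theorem t8092_A00pp_022_s3 : ∃ t, chk3 f_A00pp_022_s3 t 1171 1970 143 = true := ex3_a k2323_A00pp_022_s3 k2324_A00pp_022_s3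

theorem t8093_A00pp_022_s3 : ∃ t, chk3 f_A00pp_022_s3 t 1171 1970 285 = true := ex3_a k2321_A00pp_022_s3 k2322_A00pp_022_s3

theorem t8094_A00pp_022_s3 : ∃ t, chk3 f_A00pp_022_s3 t 1171 1970 142 = true := ex3_c k2320_A00pp_022_s3 t8093_A00pp_022_s3

theorem t8095_A00pp_022_s3 : ∃ t, chk3 f_A00pp_022_s3 t 1171 1970 71 = true := ex3_c t8094_A00pp_022_s3 t8092_A00pp_022_s3

theorem t8096_A00pp_022_s3 : ∃ t, chk3 f_A00pp_022_s3 t 1170 1970 287 = true := ex3_a k2318_A00pp_022_s3 k2319_A00pp_022_s3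

theorem t8097_A00pp_022_s3 : ∃ t, chk3 f_A00pp_022_s3 t 1170 1970 143 = true := ex3_c k2317_A00pp_022_s3 t8096_A00pp_022_s3

theorem t8098_A00pp_022_s3 : ∃ t, chk3 f_A00pp_022_s3 t 1170 1970 71 = true := ex3_c k2316_A00pp_022_s3 t8097_A00pp_022_s3

theorem t8099_A00pp_022_s3 : ∃ t, chk3 f_A00pp_022_s3 t 585 1970 71 = true := ex3_a t8098_A00pp_022_s3 t8095_A00pp_022_s3

theorem t8100_A00pp_022_s3 : ∃ t, chk3 f_A00pp_022_s3 t 585 985 71 = true := ex3_b t8099_A00pp_022_s3 t8091_A00pp_022_s3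

theorem t8101_A00pp_022_s3 : ∃ t, chk3 f_A00pp_022_s3 t 292 985 71 = true := ex3_a k2315_A00pp_022_s3 t8100_A00pp_022_s3

theorem t8102_A00pp_022_s3 : ∃ t, chk3 f_A00pp_022_s3 t 292 985 35 = true := ex3_c k2314_A00pp_022_s3 t8101_A00pp_022_s3

theorem t8103_A00pp_022_s3 : ∃ t, chk3 f_A00pp_022_s3 t 1171 3939 71 = true := ex3_c k2312_A00pp_022_s3 k2313_A00pp_022_s3

theorem t8104_A00pp_022_s3 : ∃ t, chk3 f_A00pp_022_s3 t 1171 3939 35 = true := ex3_c k2311_A00pp_022_s3 t8103_A00pp_022_s3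

theorem t8105_A00pp_022_s3 : ∃ t, chk3 f_A00pp_022_s3 t 1171 3938 35 = true := ex3_c k2309_A00pp_022_s3 k2310_A00pp_022_s3

theorem t8106_A00pp_022_s3 : ∃ t, chk3 f_A00pp_022_s3 t 1171 1969 35 = true := ex3_b t8105_A00pp_022_s3 t8104_A00pp_022_s3

theorem t8107_A00pp_022_s3 : ∃ t, chk3 f_A00pp_022_s3 t 1170 1969 287 = true := ex3_a k2307_A00pp_022_s3 k2308_A00pp_022_s3

theorem t8108_A00pp_022_s3 : ∃ t, chk3 f_A00pp_022_s3 t 1170 1969 143 = true := ex3_c k2306_A00pp_022_s3 t8107_A00pp_022_s3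

theorem t8109_A00pp_022_s3 : ∃ t, chk3 f_A00pp_022_s3 t 1170 1969 71 = true := ex3_c k2305_A00pp_022_s3 t8108_A00pp_022_s3

theorem t8110_A00pp_022_s3 : ∃ t, chk3 f_A00pp_022_s3 t 1170 1969 35 = true := ex3_c k2304_A00pp_022_s3 t8109_A00pp_022_s3

theorem t8111_A00pp_022_s3 : ∃ t, chk3 f_A00pp_022_s3 t 585 1969 35 = true := ex3_a t8110_A00pp_022_s3 t8106_A00pp_022_s3

theorem t8112_A00pp_022_s3 : ∃ t, chk3 f_A00pp_022_s3 t 1170 1968 287 = true := ex3_a k2301_A00pp_022_s3 k2302_A00pp_022_s3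

theorem t8113_A00pp_022_s3 : ∃ t, chk3 f_A00pp_022_s3 t 1170 1968 143 = true := ex3_c k2300_A00pp_022_s3 t8112_A00pp_022_s3

theorem t8114_A00pp_022_s3 : ∃ t, chk3 f_A00pp_022_s3 t 585 1968 143 = true := ex3_a t8113_A00pp_022_s3 k2303_A00pp_022_s3

theorem t8115_A00pp_022_s3 : ∃ t, chk3 f_A00pp_022_s3 t 1171 1968 142 = true := ex3_a k2298_A00pp_022_s3 k2299_A00pp_022_s3

theorem t8116_A00pp_022_s3 : ∃ t, chk3 f_A00pp_022_s3 t 585 1968 142 = true := ex3_a k2297_A00pp_022_s3 t8115_A00pp_022_s3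

theorem t8117_A00pp_022_s3 : ∃ t, chk3 f_A00pp_022_s3 t 585 1968 71 = true := ex3_c t8116_A00pp_022_s3 t8114_A00pp_022_s3

theorem t8118_A00pp_022_s3 : ∃ t, chk3 f_A00pp_022_s3 t 585 1968 35 = true := ex3_c k2296_A00pp_022_s3 t8117_A00pp_022_s3

theorem t8119_A00pp_022_s3 : ∃ t, chk3 f_A00pp_022_s3 t 585 984 35 = true := ex3_b t8118_A00pp_022_s3 t8111_A00pp_022_s3

theorem t8120_A00pp_022_s3 : ∃ t, chk3 f_A00pp_022_s3 t 292 984 35 = true := ex3_a k2295_A00pp_022_s3 t8119_A00pp_022_s3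

theorem t8121_A00pp_022_s3 : ∃ t, chk3 f_A00pp_022_s3 t 292 492 35 = true := ex3_b t8120_A00pp_022_s3 t8102_A00pp_022_s3

theorem t8122_A00pp_022_s3 : ∃ t, chk3 f_A00pp_022_s3 t 146 492 35 = true := ex3_a t8121_A00pp_022_s3 t8090_A00pp_022_s3

theorem t8123_A00pp_022_s3 : ∃ t, chk3 f_A00pp_022_s3 t 146 246 35 = true := ex3_b t8122_A00pp_022_s3 t8031_A00pp_022_s3

theorem t8124_A00pp_022_s3 : ∃ t, chk3 f_A00pp_022_s3 t 1175 1968 69 = true := ex3_b k2290_A00pp_022_s3 k2291_A00pp_022_s3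

theorem t8125_A00pp_022_s3 : ∃ t, chk3 f_A00pp_022_s3 t 587 1968 69 = true := ex3_a k2289_A00pp_022_s3 t8124_A00pp_022_s3

theorem t8126_A00pp_022_s3 : ∃ t, chk3 f_A00pp_022_s3 t 293 1968 69 = true := ex3_a k2288_A00pp_022_s3 t8125_A00pp_022_s3

theorem t8127_A00pp_022_s3 : ∃ t, chk3 f_A00pp_022_s3 t 146 1968 69 = true := ex3_a k2287_A00pp_022_s3 t8126_A00pp_022_s3

theorem t8128_A00pp_022_s3 : ∃ t, chk3 f_A00pp_022_s3 t 146 984 69 = true := ex3_b t8127_A00pp_022_s3 k2292_A00pp_022_s3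

theorem t8129_A00pp_022_s3 : ∃ t, chk3 f_A00pp_022_s3 t 146 492 69 = true := ex3_b t8128_A00pp_022_s3 k2293_A00pp_022_s3

theorem t8130_A00pp_022_s3 : ∃ t, chk3 f_A00pp_022_s3 t 146 492 68 = true := ex3_b k2285_A00pp_022_s3 k2286_A00pp_022_s3

theorem t8131_A00pp_022_s3 : ∃ t, chk3 f_A00pp_022_s3 t 146 492 34 = true := ex3_c t8130_A00pp_022_s3 t8129_A00pp_022_s3

theorem t8132_A00pp_022_s3 : ∃ t, chk3 f_A00pp_022_s3 t 146 246 34 = true := ex3_b t8131_A00pp_022_s3 k2294_A00pp_022_s3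

theorem t8133_A00pp_022_s3 : ∃ t, chk3 f_A00pp_022_s3 t 146 246 17 = true := ex3_c t8132_A00pp_022_s3 t8123_A00pp_022_s3

theorem t8134_A00pp_022_s3 : ∃ t, chk3 f_A00pp_022_s3 t 146 123 17 = true := ex3_b t8133_A00pp_022_s3 k2389_A00pp_022_s3

theorem t8135_A00pp_022_s3 : ∃ t, chk3 f_A00pp_022_s3 t 73 123 17 = true := ex3_a t8134_A00pp_022_s3 t8030_A00pp_022_s3

theorem t8136_A00pp_022_s3 : ∃ t, chk3 f_A00pp_022_s3 t 590 490 70 = true := ex3_b k2280_A00pp_022_s3 k2281_A00pp_022_s3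

theorem t8137_A00pp_022_s3 : ∃ t, chk3 f_A00pp_022_s3 t 295 490 70 = true := ex3_a t8136_A00pp_022_s3 k2282_A00pp_022_s3

theorem t8138_A00pp_022_s3 : ∃ t, chk3 f_A00pp_022_s3 t 295 490 35 = true := ex3_c t8137_A00pp_022_s3 k2283_A00pp_022_s3

theorem t8139_A00pp_022_s3 : ∃ t, chk3 f_A00pp_022_s3 t 295 245 35 = true := ex3_b t8138_A00pp_022_s3 k2284_A00pp_022_s3

theorem t8140_A00pp_022_s3 : ∃ t, chk3 f_A00pp_022_s3 t 1178 982 70 = true := ex3_b k2275_A00pp_022_s3 k2276_A00pp_022_s3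

theorem t8141_A00pp_022_s3 : ∃ t, chk3 f_A00pp_022_s3 t 589 982 70 = true := ex3_a t8140_A00pp_022_s3 k2277_A00pp_022_s3

theorem t8142_A00pp_022_s3 : ∃ t, chk3 f_A00pp_022_s3 t 589 982 35 = true := ex3_c t8141_A00pp_022_s3 k2278_A00pp_022_s3

theorem t8143_A00pp_022_s3 : ∃ t, chk3 f_A00pp_022_s3 t 589 491 35 = true := ex3_b t8142_A00pp_022_s3 k2279_A00pp_022_s3

theorem t8144_A00pp_022_s3 : ∃ t, chk3 f_A00pp_022_s3 t 1176 982 142 = true := ex3_b k2270_A00pp_022_s3 k2271_A00pp_022_s3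

theorem t8145_A00pp_022_s3 : ∃ t, chk3 f_A00pp_022_s3 t 1176 982 71 = true := ex3_c t8144_A00pp_022_s3 k2272_A00pp_022_s3

theorem t8146_A00pp_022_s3 : ∃ t, chk3 f_A00pp_022_s3 t 588 982 71 = true := ex3_a t8145_A00pp_022_s3 k2273_A00pp_022_s3

theorem t8147_A00pp_022_s3 : ∃ t, chk3 f_A00pp_022_s3 t 588 491 71 = true := ex3_b t8146_A00pp_022_s3 k2274_A00pp_022_s3

theorem t8148_A00pp_022_s3 : ∃ t, chk3 f_A00pp_022_s3 t 2354 1966 140 = true := ex3_c k2265_A00pp_022_s3 k2266_A00pp_022_s3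

theorem t8149_A00pp_022_s3 : ∃ t, chk3 f_A00pp_022_s3 t 1177 1966 140 = true := ex3_a t8148_A00pp_022_s3 k2267_A00pp_022_s3

theorem t8150_A00pp_022_s3 : ∃ t, chk3 f_A00pp_022_s3 t 1177 1966 70 = true := ex3_c t8149_A00pp_022_s3 k2268_A00pp_022_s3

theorem t8151_A00pp_022_s3 : ∃ t, chk3 f_A00pp_022_s3 t 1177 983 70 = true := ex3_b t8150_A00pp_022_s3 k2269_A00pp_022_s3

theorem t8152_A00pp_022_s3 : ∃ t, chk3 f_A00pp_022_s3 t 1176 1966 141 = true := ex3_a k2262_A00pp_022_s3 k2263_A00pp_022_s3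

theorem t8153_A00pp_022_s3 : ∃ t, chk3 f_A00pp_022_s3 t 1176 983 141 = true := ex3_b t8152_A00pp_022_s3 k2264_A00pp_022_s3

theorem t8154_A00pp_022_s3 : ∃ t, chk3 f_A00pp_022_s3 t 2353 1967 140 = true := ex3_c k2260_A00pp_022_s3 k2261_A00pp_022_s3

theorem t8155_A00pp_022_s3 : ∃ t, chk3 f_A00pp_022_s3 t 2352 1967 281 = true := ex3_b k2258_A00pp_022_s3 k2259_A00pp_022_s3

theorem t8156_A00pp_022_s3 : ∃ t, chk3 f_A00pp_022_s3 t 2352 1967 140 = true := ex3_c k2257_A00pp_022_s3 t8155_A00pp_022_s3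

theorem t8157_A00pp_022_s3 : ∃ t, chk3 f_A00pp_022_s3 t 1176 1967 140 = true := ex3_a t8156_A00pp_022_s3 t8154_A00pp_022_s3

theorem t8158_A00pp_022_s3 : ∃ t, chk3 f_A00pp_022_s3 t 1176 983 140 = true := ex3_b k2256_A00pp_022_s3 t8157_A00pp_022_s3

theorem t8159_A00pp_022_s3 : ∃ t, chk3 f_A00pp_022_s3 t 1176 983 70 = true := ex3_c t8158_A00pp_022_s3 t8153_A00pp_022_s3

theorem t8160_A00pp_022_s3 : ∃ t, chk3 f_A00pp_022_s3 t 588 983 70 = true := ex3_a t8159_A00pp_022_s3 t8151_A00pp_022_s3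

theorem t8161_A00pp_022_s3 : ∃ t, chk3 f_A00pp_022_s3 t 1177 982 141 = true := ex3_b k2254_A00pp_022_s3 k2255_A00pp_022_s3

theorem t8162_A00pp_022_s3 : ∃ t, chk3 f_A00pp_022_s3 t 1177 1965 140 = true := ex3_a k2252_A00pp_022_s3 k2253_A00pp_022_s3

theorem t8163_A00pp_022_s3 : ∃ t, chk3 f_A00pp_022_s3 t 1177 982 140 = true := ex3_b k2251_A00pp_022_s3 t8162_A00pp_022_s3

theorem t8164_A00pp_022_s3 : ∃ t, chk3 f_A00pp_022_s3 t 1177 982 70 = true := ex3_c t8163_A00pp_022_s3 t8161_A00pp_022_s3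

theorem t8165_A00pp_022_s3 : ∃ t, chk3 f_A00pp_022_s3 t 588 982 70 = true := ex3_a k2250_A00pp_022_s3 t8164_A00pp_022_s3

theorem t8166_A00pp_022_s3 : ∃ t, chk3 f_A00pp_022_s3 t 588 491 70 = true := ex3_b t8165_A00pp_022_s3 t8160_A00pp_022_s3

theorem t8167_A00pp_022_s3 : ∃ t, chk3 f_A00pp_022_s3 t 588 491 35 = true := ex3_c t8166_A00pp_022_s3 t8147_A00pp_022_s3

theorem t8168_A00pp_022_s3 : ∃ t, chk3 f_A00pp_022_s3 t 294 491 35 = true := ex3_a t8167_A00pp_022_s3 t8143_A00pp_022_s3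

theorem t8169_A00pp_022_s3 : ∃ t, chk3 f_A00pp_022_s3 t 589 490 71 = true := ex3_b k2248_A00pp_022_s3 k2249_A00pp_022_s3

theorem t8170_A00pp_022_s3 : ∃ t, chk3 f_A00pp_022_s3 t 588 981 71 = true := ex3_a k2246_A00pp_022_s3 k2247_A00pp_022_s3

theorem t8171_A00pp_022_s3 : ∃ t, chk3 f_A00pp_022_s3 t 588 490 71 = true := ex3_b k2245_A00pp_022_s3 t8170_A00pp_022_s3

theorem t8172_A00pp_022_s3 : ∃ t, chk3 f_A00pp_022_s3 t 294 490 71 = true := ex3_a t8171_A00pp_022_s3 t8169_A00pp_022_s3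

theorem t8173_A00pp_022_s3 : ∃ t, chk3 f_A00pp_022_s3 t 1178 981 70 = true := ex3_c k2242_A00pp_022_s3 k2243_A00pp_022_s3

theorem t8174_A00pp_022_s3 : ∃ t, chk3 f_A00pp_022_s3 t 589 981 70 = true := ex3_a t8173_A00pp_022_s3 k2244_A00pp_022_s3

theorem t8175_A00pp_022_s3 : ∃ t, chk3 f_A00pp_022_s3 t 589 980 70 = true := ex3_a k2240_A00pp_022_s3 k2241_A00pp_022_s3

theorem t8176_A00pp_022_s3 : ∃ t, chk3 f_A00pp_022_s3 t 589 490 70 = true := ex3_b t8175_A00pp_022_s3 t8174_A00pp_022_s3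

theorem t8177_A00pp_022_s3 : ∃ t, chk3 f_A00pp_022_s3 t 294 490 70 = true := ex3_a k2239_A00pp_022_s3 t8176_A00pp_022_s3

theorem t8178_A00pp_022_s3 : ∃ t, chk3 f_A00pp_022_s3 t 294 490 35 = true := ex3_c t8177_A00pp_022_s3 t8172_A00pp_022_s3

theorem t8179_A00pp_022_s3 : ∃ t, chk3 f_A00pp_022_s3 t 294 245 35 = true := ex3_b t8178_A00pp_022_s3 t8168_A00pp_022_s3

theorem t8180_A00pp_022_s3 : ∃ t, chk3 f_A00pp_022_s3 t 147 245 35 = true := ex3_a t8179_A00pp_022_s3 t8139_A00pp_022_s3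

theorem t8181_A00pp_022_s3 : ∃ t, chk3 f_A00pp_022_s3 t 591 982 68 = true := ex3_a k2235_A00pp_022_s3 k2236_A00pp_022_s3

theorem t8182_A00pp_022_s3 : ∃ t, chk3 f_A00pp_022_s3 t 591 982 34 = true := ex3_c t8181_A00pp_022_s3 k2237_A00pp_022_s3

theorem t8183_A00pp_022_s3 : ∃ t, chk3 f_A00pp_022_s3 t 591 491 34 = true := ex3_b t8182_A00pp_022_s3 k2238_A00pp_022_s3

theorem t8184_A00pp_022_s3 : ∃ t, chk3 f_A00pp_022_s3 t 1180 982 69 = true := ex3_b k2231_A00pp_022_s3 k2232_A00pp_022_s3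

theorem t8185_A00pp_022_s3 : ∃ t, chk3 f_A00pp_022_s3 t 1180 491 69 = true := ex3_b t8184_A00pp_022_s3 k2233_A00pp_022_s3

theorem t8186_A00pp_022_s3 : ∃ t, chk3 f_A00pp_022_s3 t 590 491 69 = true := ex3_a t8185_A00pp_022_s3 k2234_A00pp_022_s3

theorem t8187_A00pp_022_s3 : ∃ t, chk3 f_A00pp_022_s3 t 1181 982 137 = true := ex3_b k2228_A00pp_022_s3 k2229_A00pp_022_s3

theorem t8188_A00pp_022_s3 : ∃ t, chk3 f_A00pp_022_s3 t 2363 1964 136 = true := ex3_c k2225_A00pp_022_s3 k2226_A00pp_022_s3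

theorem t8189_A00pp_022_s3 : ∃ t, chk3 f_A00pp_022_s3 t 1181 1964 136 = true := ex3_a k2224_A00pp_022_s3 t8188_A00pp_022_s3

theorem t8190_A00pp_022_s3 : ∃ t, chk3 f_A00pp_022_s3 t 1181 982 136 = true := ex3_b t8189_A00pp_022_s3 k2227_A00pp_022_s3

theorem t8191_A00pp_022_s3 : ∃ t, chk3 f_A00pp_022_s3 t 1181 982 68 = true := ex3_c t8190_A00pp_022_s3 t8187_A00pp_022_s3

theorem t8192_A00pp_022_s3 : ∃ t, chk3 f_A00pp_022_s3 t 2360 1965 137 = true := ex3_c k2221_A00pp_022_s3 k2222_A00pp_022_s3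

theorem t8193_A00pp_022_s3 : ∃ t, chk3 f_A00pp_022_s3 t 1180 1965 137 = true := ex3_a t8192_A00pp_022_s3 k2223_A00pp_022_s3

theorem t8194_A00pp_022_s3 : ∃ t, chk3 f_A00pp_022_s3 t 1180 1964 137 = true := ex3_a k2219_A00pp_022_s3 k2220_A00pp_022_s3

theorem t8195_A00pp_022_s3 : ∃ t, chk3 f_A00pp_022_s3 t 1180 982 137 = true := ex3_b t8194_A00pp_022_s3 t8193_A00pp_022_s3

theorem t8196_A00pp_022_s3 : ∃ t, chk3 f_A00pp_022_s3 t 1180 982 136 = true := ex3_b k2217_A00pp_022_s3 k2218_A00pp_022_s3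

theorem t8197_A00pp_022_s3 : ∃ t, chk3 f_A00pp_022_s3 t 1180 982 68 = true := ex3_c t8196_A00pp_022_s3 t8195_A00pp_022_s3

theorem t8198_A00pp_022_s3 : ∃ t, chk3 f_A00pp_022_s3 t 590 982 68 = true := ex3_a t8197_A00pp_022_s3 t8191_A00pp_022_s3

theorem t8199_A00pp_022_s3 : ∃ t, chk3 f_A00pp_022_s3 t 590 491 68 = true := ex3_b t8198_A00pp_022_s3 k2230_A00pp_022_s3

theorem t8200_A00pp_022_s3 : ∃ t, chk3 f_A00pp_022_s3 t 590 491 34 = true := ex3_c t8199_A00pp_022_s3 t8186_A00pp_022_s3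

theorem t8201_A00pp_022_s3 : ∃ t, chk3 f_A00pp_022_s3 t 295 491 34 = true := ex3_a t8200_A00pp_022_s3 t8183_A00pp_022_s3

theorem t8202_A00pp_022_s3 : ∃ t, chk3 f_A00pp_022_s3 t 1182 1963 136 = true := ex3_a k2212_A00pp_022_s3 k2213_A00pp_022_s3

theorem t8203_A00pp_022_s3 : ∃ t, chk3 f_A00pp_022_s3 t 1182 981 136 = true := ex3_b k2211_A00pp_022_s3 t8202_A00pp_022_s3

theorem t8204_A00pp_022_s3 : ∃ t, chk3 f_A00pp_022_s3 t 1182 981 68 = true := ex3_c t8203_A00pp_022_s3 k2214_A00pp_022_s3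

theorem t8205_A00pp_022_s3 : ∃ t, chk3 f_A00pp_022_s3 t 591 981 68 = true := ex3_a t8204_A00pp_022_s3 k2215_A00pp_022_s3

theorem t8206_A00pp_022_s3 : ∃ t, chk3 f_A00pp_022_s3 t 1183 980 68 = true := ex3_c k2209_A00pp_022_s3 k2210_A00pp_022_s3

theorem t8207_A00pp_022_s3 : ∃ t, chk3 f_A00pp_022_s3 t 591 980 68 = true := ex3_a k2208_A00pp_022_s3 t8206_A00pp_022_s3

theorem t8208_A00pp_022_s3 : ∃ t, chk3 f_A00pp_022_s3 t 591 490 68 = true := ex3_b t8207_A00pp_022_s3 t8205_A00pp_022_s3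

theorem t8209_A00pp_022_s3 : ∃ t, chk3 f_A00pp_022_s3 t 591 490 34 = true := ex3_c t8208_A00pp_022_s3 k2216_A00pp_022_s3

theorem t8210_A00pp_022_s3 : ∃ t, chk3 f_A00pp_022_s3 t 1180 981 138 = true := ex3_b k2204_A00pp_022_s3 k2205_A00pp_022_s3

theorem t8211_A00pp_022_s3 : ∃ t, chk3 f_A00pp_022_s3 t 1180 981 69 = true := ex3_c t8210_A00pp_022_s3 k2206_A00pp_022_s3

theorem t8212_A00pp_022_s3 : ∃ t, chk3 f_A00pp_022_s3 t 590 981 69 = true := ex3_a t8211_A00pp_022_s3 k2207_A00pp_022_s3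

theorem t8213_A00pp_022_s3 : ∃ t, chk3 f_A00pp_022_s3 t 1181 980 69 = true := ex3_c k2202_A00pp_022_s3 k2203_A00pp_022_s3

theorem t8214_A00pp_022_s3 : ∃ t, chk3 f_A00pp_022_s3 t 590 980 69 = true := ex3_a k2201_A00pp_022_s3 t8213_A00pp_022_s3

theorem t8215_A00pp_022_s3 : ∃ t, chk3 f_A00pp_022_s3 t 590 490 69 = true := ex3_b t8214_A00pp_022_s3 t8212_A00pp_022_s3

theorem t8216_A00pp_022_s3 : ∃ t, chk3 f_A00pp_022_s3 t 1181 1963 137 = true := ex3_a k2199_A00pp_022_s3 k2200_A00pp_022_s3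

theorem t8217_A00pp_022_s3 : ∃ t, chk3 f_A00pp_022_s3 t 1181 981 137 = true := ex3_b k2198_A00pp_022_s3 t8216_A00pp_022_s3

theorem t8218_A00pp_022_s3 : ∃ t, chk3 f_A00pp_022_s3 t 1181 981 68 = true := ex3_c k2197_A00pp_022_s3 t8217_A00pp_022_s3

theorem t8219_A00pp_022_s3 : ∃ t, chk3 f_A00pp_022_s3 t 2360 981 272 = true := ex3_c k2192_A00pp_022_s3 k2193_A00pp_022_s3

theorem t8220_A00pp_022_s3 : ∃ t, chk3 f_A00pp_022_s3 t 2360 981 136 = true := ex3_c t8219_A00pp_022_s3 k2194_A00pp_022_s3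

theorem t8221_A00pp_022_s3 : ∃ t, chk3 f_A00pp_022_s3 t 1180 981 136 = true := ex3_a t8220_A00pp_022_s3 k2195_A00pp_022_s3

theorem t8222_A00pp_022_s3 : ∃ t, chk3 f_A00pp_022_s3 t 1180 981 68 = true := ex3_c t8221_A00pp_022_s3 k2196_A00pp_022_s3

theorem t8223_A00pp_022_s3 : ∃ t, chk3 f_A00pp_022_s3 t 590 981 68 = true := ex3_a t8222_A00pp_022_s3 t8218_A00pp_022_s3

theorem t8224_A00pp_022_s3 : ∃ t, chk3 f_A00pp_022_s3 t 2360 980 544 = true := ex3_b k2185_A00pp_022_s3 k2186_A00pp_022_s3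

theorem t8225_A00pp_022_s3 : ∃ t, chk3 f_A00pp_022_s3 t 2360 980 272 = true := ex3_c t8224_A00pp_022_s3 k2187_A00pp_022_s3

theorem t8226_A00pp_022_s3 : ∃ t, chk3 f_A00pp_022_s3 t 1180 980 272 = true := ex3_a t8225_A00pp_022_s3 k2188_A00pp_022_s3

theorem t8227_A00pp_022_s3 : ∃ t, chk3 f_A00pp_022_s3 t 1180 980 136 = true := ex3_c t8226_A00pp_022_s3 k2189_A00pp_022_s3

theorem t8228_A00pp_022_s3 : ∃ t, chk3 f_A00pp_022_s3 t 1180 980 68 = true := ex3_c t8227_A00pp_022_s3 k2190_A00pp_022_s3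

theorem t8229_A00pp_022_s3 : ∃ t, chk3 f_A00pp_022_s3 t 590 980 68 = true := ex3_a t8228_A00pp_022_s3 k2191_A00pp_022_s3

theorem t8230_A00pp_022_s3 : ∃ t, chk3 f_A00pp_022_s3 t 590 490 68 = true := ex3_b t8229_A00pp_022_s3 t8223_A00pp_022_s3

theorem t8231_A00pp_022_s3 : ∃ t, chk3 f_A00pp_022_s3 t 590 490 34 = true := ex3_c t8230_A00pp_022_s3 t8215_A00pp_022_s3

theorem t8232_A00pp_022_s3 : ∃ t, chk3 f_A00pp_022_s3 t 295 490 34 = true := ex3_a t8231_A00pp_022_s3 t8209_A00pp_022_s3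

theorem t8233_A00pp_022_s3 : ∃ t, chk3 f_A00pp_022_s3 t 295 245 34 = true := ex3_b t8232_A00pp_022_s3 t8201_A00pp_022_s3

theorem t8234_A00pp_022_s3 : ∃ t, chk3 f_A00pp_022_s3 t 2356 1966 139 = true := ex3_c k2180_A00pp_022_s3 k2181_A00pp_022_s3

theorem t8235_A00pp_022_s3 : ∃ t, chk3 f_A00pp_022_s3 t 1178 1966 139 = true := ex3_a t8234_A00pp_022_s3 k2182_A00pp_022_s3

theorem t8236_A00pp_022_s3 : ∃ t, chk3 f_A00pp_022_s3 t 1178 983 139 = true := ex3_b t8235_A00pp_022_s3 k2183_A00pp_022_s3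

theorem t8237_A00pp_022_s3 : ∃ t, chk3 f_A00pp_022_s3 t 2357 1966 138 = true := ex3_c k2177_A00pp_022_s3 k2178_A00pp_022_s3

theorem t8238_A00pp_022_s3 : ∃ t, chk3 f_A00pp_022_s3 t 1178 1966 138 = true := ex3_a k2176_A00pp_022_s3 t8237_A00pp_022_s3

theorem t8239_A00pp_022_s3 : ∃ t, chk3 f_A00pp_022_s3 t 1178 983 138 = true := ex3_b t8238_A00pp_022_s3 k2179_A00pp_022_s3

theorem t8240_A00pp_022_s3 : ∃ t, chk3 f_A00pp_022_s3 t 1178 983 69 = true := ex3_c t8239_A00pp_022_s3 t8236_A00pp_022_s3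

theorem t8241_A00pp_022_s3 : ∃ t, chk3 f_A00pp_022_s3 t 589 983 69 = true := ex3_a t8240_A00pp_022_s3 k2184_A00pp_022_s3

theorem t8242_A00pp_022_s3 : ∃ t, chk3 f_A00pp_022_s3 t 1179 1966 68 = true := ex3_c k2173_A00pp_022_s3 k2174_A00pp_022_s3

theorem t8243_A00pp_022_s3 : ∃ t, chk3 f_A00pp_022_s3 t 2356 1966 137 = true := ex3_c k2170_A00pp_022_s3 k2171_A00pp_022_s3

theorem t8244_A00pp_022_s3 : ∃ t, chk3 f_A00pp_022_s3 t 1178 1966 137 = true := ex3_a t8243_A00pp_022_s3 k2172_A00pp_022_s3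

theorem t8245_A00pp_022_s3 : ∃ t, chk3 f_A00pp_022_s3 t 1178 1966 68 = true := ex3_c k2169_A00pp_022_s3 t8244_A00pp_022_s3

theorem t8246_A00pp_022_s3 : ∃ t, chk3 f_A00pp_022_s3 t 589 1966 68 = true := ex3_a t8245_A00pp_022_s3 t8242_A00pp_022_s3

theorem t8247_A00pp_022_s3 : ∃ t, chk3 f_A00pp_022_s3 t 589 983 68 = true := ex3_b t8246_A00pp_022_s3 k2175_A00pp_022_s3

theorem t8248_A00pp_022_s3 : ∃ t, chk3 f_A00pp_022_s3 t 589 983 34 = true := ex3_c t8247_A00pp_022_s3 t8241_A00pp_022_s3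

theorem t8249_A00pp_022_s3 : ∃ t, chk3 f_A00pp_022_s3 t 1177 1967 139 = true := ex3_a k2167_A00pp_022_s3 k2168_A00pp_022_s3

theorem t8250_A00pp_022_s3 : ∃ t, chk3 f_A00pp_022_s3 t 1177 1967 138 = true := ex3_a k2165_A00pp_022_s3 k2166_A00pp_022_s3

theorem t8251_A00pp_022_s3 : ∃ t, chk3 f_A00pp_022_s3 t 1177 1967 69 = true := ex3_c t8250_A00pp_022_s3 t8249_A00pp_022_s3

theorem t8252_A00pp_022_s3 : ∃ t, chk3 f_A00pp_022_s3 t 2352 1967 139 = true := ex3_c k2162_A00pp_022_s3 k2163_A00pp_022_s3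

theorem t8253_A00pp_022_s3 : ∃ t, chk3 f_A00pp_022_s3 t 1176 1967 139 = true := ex3_a t8252_A00pp_022_s3 k2164_A00pp_022_s3

theorem t8254_A00pp_022_s3 : ∃ t, chk3 f_A00pp_022_s3 t 1176 1967 277 = true := ex3_a k2160_A00pp_022_s3 k2161_A00pp_022_s3

theorem t8255_A00pp_022_s3 : ∃ t, chk3 f_A00pp_022_s3 t 1176 1967 138 = true := ex3_c k2159_A00pp_022_s3 t8254_A00pp_022_s3

theorem t8256_A00pp_022_s3 : ∃ t, chk3 f_A00pp_022_s3 t 1176 1967 69 = true := ex3_c t8255_A00pp_022_s3 t8253_A00pp_022_s3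

theorem t8257_A00pp_022_s3 : ∃ t, chk3 f_A00pp_022_s3 t 588 1967 69 = true := ex3_a t8256_A00pp_022_s3 t8251_A00pp_022_s3

theorem t8258_A00pp_022_s3 : ∃ t, chk3 f_A00pp_022_s3 t 588 1967 34 = true := ex3_c k2158_A00pp_022_s3 t8257_A00pp_022_s3

theorem t8259_A00pp_022_s3 : ∃ t, chk3 f_A00pp_022_s3 t 2355 1966 139 = true := ex3_c k2156_A00pp_022_s3 k2157_A00pp_022_s3

theorem t8260_A00pp_022_s3 : ∃ t, chk3 f_A00pp_022_s3 t 1177 1966 139 = true := ex3_a k2155_A00pp_022_s3 t8259_A00pp_022_s3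

theorem t8261_A00pp_022_s3 : ∃ t, chk3 f_A00pp_022_s3 t 1177 1966 276 = true := ex3_a k2152_A00pp_022_s3 k2153_A00pp_022_s3

theorem t8262_A00pp_022_s3 : ∃ t, chk3 f_A00pp_022_s3 t 1177 1966 138 = true := ex3_c t8261_A00pp_022_s3 k2154_A00pp_022_s3

theorem t8263_A00pp_022_s3 : ∃ t, chk3 f_A00pp_022_s3 t 1177 1966 69 = true := ex3_c t8262_A00pp_022_s3 t8260_A00pp_022_s3

theorem t8264_A00pp_022_s3 : ∃ t, chk3 f_A00pp_022_s3 t 1177 1966 34 = true := ex3_c k2151_A00pp_022_s3 t8263_A00pp_022_s3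

theorem t8265_A00pp_022_s3 : ∃ t, chk3 f_A00pp_022_s3 t 1176 1966 69 = true := ex3_c k2149_A00pp_022_s3 k2150_A00pp_022_s3

theorem t8266_A00pp_022_s3 : ∃ t, chk3 f_A00pp_022_s3 t 1176 1966 34 = true := ex3_c k2148_A00pp_022_s3 t8265_A00pp_022_s3

theorem t8267_A00pp_022_s3 : ∃ t, chk3 f_A00pp_022_s3 t 588 1966 34 = true := ex3_a t8266_A00pp_022_s3 t8264_A00pp_022_s3

theorem t8268_A00pp_022_s3 : ∃ t, chk3 f_A00pp_022_s3 t 588 983 34 = true := ex3_b t8267_A00pp_022_s3 t8258_A00pp_022_s3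

theorem t8269_A00pp_022_s3 : ∃ t, chk3 f_A00pp_022_s3 t 294 983 34 = true := ex3_a t8268_A00pp_022_s3 t8248_A00pp_022_s3

theorem t8270_A00pp_022_s3 : ∃ t, chk3 f_A00pp_022_s3 t 1179 982 139 = true := ex3_b k2146_A00pp_022_s3 k2147_A00pp_022_s3

theorem t8271_A00pp_022_s3 : ∃ t, chk3 f_A00pp_022_s3 t 1179 1965 138 = true := ex3_a k2144_A00pp_022_s3 k2145_A00pp_022_s3

theorem t8272_A00pp_022_s3 : ∃ t, chk3 f_A00pp_022_s3 t 1179 982 138 = true := ex3_b k2143_A00pp_022_s3 t8271_A00pp_022_s3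

theorem t8273_A00pp_022_s3 : ∃ t, chk3 f_A00pp_022_s3 t 1179 982 69 = true := ex3_c t8272_A00pp_022_s3 t8270_A00pp_022_s3

theorem t8274_A00pp_022_s3 : ∃ t, chk3 f_A00pp_022_s3 t 1178 1965 139 = true := ex3_a k2141_A00pp_022_s3 k2142_A00pp_022_s3

theorem t8275_A00pp_022_s3 : ∃ t, chk3 f_A00pp_022_s3 t 1178 982 139 = true := ex3_b k2140_A00pp_022_s3 t8274_A00pp_022_s3

theorem t8276_A00pp_022_s3 : ∃ t, chk3 f_A00pp_022_s3 t 1178 982 69 = true := ex3_c k2139_A00pp_022_s3 t8275_A00pp_022_s3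

theorem t8277_A00pp_022_s3 : ∃ t, chk3 f_A00pp_022_s3 t 589 982 69 = true := ex3_a t8276_A00pp_022_s3 t8273_A00pp_022_s3

theorem t8278_A00pp_022_s3 : ∃ t, chk3 f_A00pp_022_s3 t 1179 1965 273 = true := ex3_a k2136_A00pp_022_s3 k2137_A00pp_022_s3

theorem t8279_A00pp_022_s3 : ∃ t, chk3 f_A00pp_022_s3 t 1179 1965 136 = true := ex3_c k2135_A00pp_022_s3 t8278_A00pp_022_s3

theorem t8280_A00pp_022_s3 : ∃ t, chk3 f_A00pp_022_s3 t 1179 1965 68 = true := ex3_c t8279_A00pp_022_s3 k2138_A00pp_022_s3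

theorem t8281_A00pp_022_s3 : ∃ t, chk3 f_A00pp_022_s3 t 1178 1965 137 = true := ex3_c k2133_A00pp_022_s3 k2134_A00pp_022_s3

theorem t8282_A00pp_022_s3 : ∃ t, chk3 f_A00pp_022_s3 t 1178 1965 68 = true := ex3_c k2132_A00pp_022_s3 t8281_A00pp_022_s3

theorem t8283_A00pp_022_s3 : ∃ t, chk3 f_A00pp_022_s3 t 589 1965 68 = true := ex3_a t8282_A00pp_022_s3 t8280_A00pp_022_s3

theorem t8284_A00pp_022_s3 : ∃ t, chk3 f_A00pp_022_s3 t 1179 1964 273 = true := ex3_a k2129_A00pp_022_s3 k2130_A00pp_022_s3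

theorem t8285_A00pp_022_s3 : ∃ t, chk3 f_A00pp_022_s3 t 1179 1964 136 = true := ex3_c k2128_A00pp_022_s3 t8284_A00pp_022_s3

theorem t8286_A00pp_022_s3 : ∃ t, chk3 f_A00pp_022_s3 t 1179 1964 68 = true := ex3_c t8285_A00pp_022_s3 k2131_A00pp_022_s3

theorem t8287_A00pp_022_s3 : ∃ t, chk3 f_A00pp_022_s3 t 1178 1964 137 = true := ex3_c k2126_A00pp_022_s3 k2127_A00pp_022_s3

theorem t8288_A00pp_022_s3 : ∃ t, chk3 f_A00pp_022_s3 t 1178 1964 68 = true := ex3_c k2125_A00pp_022_s3 t8287_A00pp_022_s3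

theorem t8289_A00pp_022_s3 : ∃ t, chk3 f_A00pp_022_s3 t 589 1964 68 = true := ex3_a t8288_A00pp_022_s3 t8286_A00pp_022_s3

theorem t8290_A00pp_022_s3 : ∃ t, chk3 f_A00pp_022_s3 t 589 982 68 = true := ex3_b t8289_A00pp_022_s3 t8283_A00pp_022_s3

theorem t8291_A00pp_022_s3 : ∃ t, chk3 f_A00pp_022_s3 t 589 982 34 = true := ex3_c t8290_A00pp_022_s3 t8277_A00pp_022_s3

theorem t8292_A00pp_022_s3 : ∃ t, chk3 f_A00pp_022_s3 t 1177 1965 276 = true := ex3_a k2121_A00pp_022_s3 k2122_A00pp_022_s3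

theorem t8293_A00pp_022_s3 : ∃ t, chk3 f_A00pp_022_s3 t 1177 1965 138 = true := ex3_c t8292_A00pp_022_s3 k2123_A00pp_022_s3

theorem t8294_A00pp_022_s3 : ∃ t, chk3 f_A00pp_022_s3 t 1177 1965 69 = true := ex3_c t8293_A00pp_022_s3 k2124_A00pp_022_s3

theorem t8295_A00pp_022_s3 : ∃ t, chk3 f_A00pp_022_s3 t 1177 1965 34 = true := ex3_c k2120_A00pp_022_s3 t8294_A00pp_022_s3

theorem t8296_A00pp_022_s3 : ∃ t, chk3 f_A00pp_022_s3 t 1176 1965 69 = true := ex3_c k2118_A00pp_022_s3 k2119_A00pp_022_s3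

theorem t8297_A00pp_022_s3 : ∃ t, chk3 f_A00pp_022_s3 t 1176 1965 34 = true := ex3_c k2117_A00pp_022_s3 t8296_A00pp_022_s3

theorem t8298_A00pp_022_s3 : ∃ t, chk3 f_A00pp_022_s3 t 588 1965 34 = true := ex3_a t8297_A00pp_022_s3 t8295_A00pp_022_s3

theorem t8299_A00pp_022_s3 : ∃ t, chk3 f_A00pp_022_s3 t 1177 1964 276 = true := ex3_a k2113_A00pp_022_s3 k2114_A00pp_022_s3

theorem t8300_A00pp_022_s3 : ∃ t, chk3 f_A00pp_022_s3 t 1177 1964 138 = true := ex3_c t8299_A00pp_022_s3 k2115_A00pp_022_s3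

theorem t8301_A00pp_022_s3 : ∃ t, chk3 f_A00pp_022_s3 t 588 1964 138 = true := ex3_a k2112_A00pp_022_s3 t8300_A00pp_022_s3

theorem t8302_A00pp_022_s3 : ∃ t, chk3 f_A00pp_022_s3 t 588 1964 69 = true := ex3_c t8301_A00pp_022_s3 k2116_A00pp_022_s3

theorem t8303_A00pp_022_s3 : ∃ t, chk3 f_A00pp_022_s3 t 588 1964 34 = true := ex3_c k2111_A00pp_022_s3 t8302_A00pp_022_s3

theorem t8304_A00pp_022_s3 : ∃ t, chk3 f_A00pp_022_s3 t 588 982 34 = true := ex3_b t8303_A00pp_022_s3 t8298_A00pp_022_s3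

theorem t8305_A00pp_022_s3 : ∃ t, chk3 f_A00pp_022_s3 t 294 982 34 = true := ex3_a t8304_A00pp_022_s3 t8291_A00pp_022_s3

theorem t8306_A00pp_022_s3 : ∃ t, chk3 f_A00pp_022_s3 t 294 491 34 = true := ex3_b t8305_A00pp_022_s3 t8269_A00pp_022_s3

theorem t8307_A00pp_022_s3 : ∃ t, chk3 f_A00pp_022_s3 t 2356 981 275 = true := ex3_c k2106_A00pp_022_s3 k2107_A00pp_022_s3

theorem t8308_A00pp_022_s3 : ∃ t, chk3 f_A00pp_022_s3 t 1178 981 275 = true := ex3_a t8307_A00pp_022_s3 k2108_A00pp_022_s3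

theorem t8309_A00pp_022_s3 : ∃ t, chk3 f_A00pp_022_s3 t 2357 981 274 = true := ex3_a k2104_A00pp_022_s3 k2105_A00pp_022_s3

theorem t8310_A00pp_022_s3 : ∃ t, chk3 f_A00pp_022_s3 t 1178 981 274 = true := ex3_a k2103_A00pp_022_s3 t8309_A00pp_022_s3

theorem t8311_A00pp_022_s3 : ∃ t, chk3 f_A00pp_022_s3 t 1178 981 137 = true := ex3_c t8310_A00pp_022_s3 t8308_A00pp_022_s3

theorem t8312_A00pp_022_s3 : ∃ t, chk3 f_A00pp_022_s3 t 589 981 137 = true := ex3_a t8311_A00pp_022_s3 k2109_A00pp_022_s3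

theorem t8313_A00pp_022_s3 : ∃ t, chk3 f_A00pp_022_s3 t 2358 981 273 = true := ex3_b k2100_A00pp_022_s3 k2101_A00pp_022_s3

theorem t8314_A00pp_022_s3 : ∃ t, chk3 f_A00pp_022_s3 t 1179 981 273 = true := ex3_a t8313_A00pp_022_s3 k2102_A00pp_022_s3

theorem t8315_A00pp_022_s3 : ∃ t, chk3 f_A00pp_022_s3 t 1179 981 136 = true := ex3_c k2099_A00pp_022_s3 t8314_A00pp_022_s3

theorem t8316_A00pp_022_s3 : ∃ t, chk3 f_A00pp_022_s3 t 589 981 136 = true := ex3_a k2098_A00pp_022_s3 t8315_A00pp_022_s3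

theorem t8317_A00pp_022_s3 : ∃ t, chk3 f_A00pp_022_s3 t 589 981 68 = true := ex3_c t8316_A00pp_022_s3 t8312_A00pp_022_s3

theorem t8318_A00pp_022_s3 : ∃ t, chk3 f_A00pp_022_s3 t 589 981 34 = true := ex3_c t8317_A00pp_022_s3 k2110_A00pp_022_s3

theorem t8319_A00pp_022_s3 : ∃ t, chk3 f_A00pp_022_s3 t 2352 1962 278 = true := ex3_b k2092_A00pp_022_s3 k2093_A00pp_022_s3

theorem t8320_A00pp_022_s3 : ∃ t, chk3 f_A00pp_022_s3 t 2352 981 278 = true := ex3_b t8319_A00pp_022_s3 k2094_A00pp_022_s3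

theorem t8321_A00pp_022_s3 : ∃ t, chk3 f_A00pp_022_s3 t 1176 981 278 = true := ex3_a t8320_A00pp_022_s3 k2095_A00pp_022_s3

theorem t8322_A00pp_022_s3 : ∃ t, chk3 f_A00pp_022_s3 t 1176 981 139 = true := ex3_c t8321_A00pp_022_s3 k2096_A00pp_022_s3

theorem t8323_A00pp_022_s3 : ∃ t, chk3 f_A00pp_022_s3 t 588 981 139 = true := ex3_a t8322_A00pp_022_s3 k2097_A00pp_022_s3

theorem t8324_A00pp_022_s3 : ∃ t, chk3 f_A00pp_022_s3 t 1177 981 276 = true := ex3_a k2089_A00pp_022_s3 k2090_A00pp_022_s3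

theorem t8325_A00pp_022_s3 : ∃ t, chk3 f_A00pp_022_s3 t 1177 981 138 = true := ex3_c t8324_A00pp_022_s3 k2091_A00pp_022_s3

theorem t8326_A00pp_022_s3 : ∃ t, chk3 f_A00pp_022_s3 t 2353 981 138 = true := ex3_b k2087_A00pp_022_s3 k2088_A00pp_022_s3

theorem t8327_A00pp_022_s3 : ∃ t, chk3 f_A00pp_022_s3 t 1176 981 138 = true := ex3_a k2086_A00pp_022_s3 t8326_A00pp_022_s3

theorem t8328_A00pp_022_s3 : ∃ t, chk3 f_A00pp_022_s3 t 588 981 138 = true := ex3_a t8327_A00pp_022_s3 t8325_A00pp_022_s3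

theorem t8329_A00pp_022_s3 : ∃ t, chk3 f_A00pp_022_s3 t 588 981 69 = true := ex3_c t8328_A00pp_022_s3 t8323_A00pp_022_s3

theorem t8330_A00pp_022_s3 : ∃ t, chk3 f_A00pp_022_s3 t 588 981 34 = true := ex3_c k2085_A00pp_022_s3 t8329_A00pp_022_s3

theorem t8331_A00pp_022_s3 : ∃ t, chk3 f_A00pp_022_s3 t 294 981 34 = true := ex3_a t8330_A00pp_022_s3 t8318_A00pp_022_s3

theorem t8332_A00pp_022_s3 : ∃ t, chk3 f_A00pp_022_s3 t 2357 1960 274 = true := ex3_b k2079_A00pp_022_s3 k2080_A00pp_022_s3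

theorem t8333_A00pp_022_s3 : ∃ t, chk3 f_A00pp_022_s3 t 2357 980 274 = true := ex3_b t8332_A00pp_022_s3 k2081_A00pp_022_s3

theorem t8334_A00pp_022_s3 : ∃ t, chk3 f_A00pp_022_s3 t 1178 980 274 = true := ex3_a k2078_A00pp_022_s3 t8333_A00pp_022_s3

theorem t8335_A00pp_022_s3 : ∃ t, chk3 f_A00pp_022_s3 t 1178 980 137 = true := ex3_c t8334_A00pp_022_s3 k2082_A00pp_022_s3

theorem t8336_A00pp_022_s3 : ∃ t, chk3 f_A00pp_022_s3 t 589 980 137 = true := ex3_a t8335_A00pp_022_s3 k2083_A00pp_022_s3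

theorem t8337_A00pp_022_s3 : ∃ t, chk3 f_A00pp_022_s3 t 2358 980 273 = true := ex3_b k2075_A00pp_022_s3 k2076_A00pp_022_s3

theorem t8338_A00pp_022_s3 : ∃ t, chk3 f_A00pp_022_s3 t 1179 980 273 = true := ex3_a t8337_A00pp_022_s3 k2077_A00pp_022_s3

theorem t8339_A00pp_022_s3 : ∃ t, chk3 f_A00pp_022_s3 t 1179 980 136 = true := ex3_c k2074_A00pp_022_s3 t8338_A00pp_022_s3

theorem t8340_A00pp_022_s3 : ∃ t, chk3 f_A00pp_022_s3 t 589 980 136 = true := ex3_a k2073_A00pp_022_s3 t8339_A00pp_022_s3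

theorem t8341_A00pp_022_s3 : ∃ t, chk3 f_A00pp_022_s3 t 589 980 68 = true := ex3_c t8340_A00pp_022_s3 t8336_A00pp_022_s3

theorem t8342_A00pp_022_s3 : ∃ t, chk3 f_A00pp_022_s3 t 589 980 34 = true := ex3_c t8341_A00pp_022_s3 k2084_A00pp_022_s3

theorem t8343_A00pp_022_s3 : ∃ t, chk3 f_A00pp_022_s3 t 2352 1961 278 = true := ex3_b k2068_A00pp_022_s3 k2069_A00pp_022_s3

theorem t8344_A00pp_022_s3 : ∃ t, chk3 f_A00pp_022_s3 t 2352 1960 278 = true := ex3_b k2066_A00pp_022_s3 k2067_A00pp_022_s3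

theorem t8345_A00pp_022_s3 : ∃ t, chk3 f_A00pp_022_s3 t 2352 980 278 = true := ex3_b t8344_A00pp_022_s3 t8343_A00pp_022_s3

theorem t8346_A00pp_022_s3 : ∃ t, chk3 f_A00pp_022_s3 t 1176 980 278 = true := ex3_a t8345_A00pp_022_s3 k2070_A00pp_022_s3

theorem t8347_A00pp_022_s3 : ∃ t, chk3 f_A00pp_022_s3 t 1176 980 139 = true := ex3_c t8346_A00pp_022_s3 k2071_A00pp_022_s3

theorem t8348_A00pp_022_s3 : ∃ t, chk3 f_A00pp_022_s3 t 588 980 139 = true := ex3_a t8347_A00pp_022_s3 k2072_A00pp_022_s3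

theorem t8349_A00pp_022_s3 : ∃ t, chk3 f_A00pp_022_s3 t 1177 980 276 = true := ex3_a k2063_A00pp_022_s3 k2064_A00pp_022_s3

theorem t8350_A00pp_022_s3 : ∃ t, chk3 f_A00pp_022_s3 t 1177 980 138 = true := ex3_c t8349_A00pp_022_s3 k2065_A00pp_022_s3

theorem t8351_A00pp_022_s3 : ∃ t, chk3 f_A00pp_022_s3 t 2353 980 277 = true := ex3_b k2061_A00pp_022_s3 k2062_A00pp_022_s3

theorem t8352_A00pp_022_s3 : ∃ t, chk3 f_A00pp_022_s3 t 2353 980 138 = true := ex3_c k2060_A00pp_022_s3 t8351_A00pp_022_s3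

theorem t8353_A00pp_022_s3 : ∃ t, chk3 f_A00pp_022_s3 t 1176 980 138 = true := ex3_a k2059_A00pp_022_s3 t8352_A00pp_022_s3

theorem t8354_A00pp_022_s3 : ∃ t, chk3 f_A00pp_022_s3 t 588 980 138 = true := ex3_a t8353_A00pp_022_s3 t8350_A00pp_022_s3

theorem t8355_A00pp_022_s3 : ∃ t, chk3 f_A00pp_022_s3 t 588 980 69 = true := ex3_c t8354_A00pp_022_s3 t8348_A00pp_022_s3

theorem t8356_A00pp_022_s3 : ∃ t, chk3 f_A00pp_022_s3 t 588 980 34 = true := ex3_c k2058_A00pp_022_s3 t8355_A00pp_022_s3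

theorem t8357_A00pp_022_s3 : ∃ t, chk3 f_A00pp_022_s3 t 294 980 34 = true := ex3_a t8356_A00pp_022_s3 t8342_A00pp_022_s3

theorem t8358_A00pp_022_s3 : ∃ t, chk3 f_A00pp_022_s3 t 294 490 34 = true := ex3_b t8357_A00pp_022_s3 t8331_A00pp_022_s3

theorem t8359_A00pp_022_s3 : ∃ t, chk3 f_A00pp_022_s3 t 294 245 34 = true := ex3_b t8358_A00pp_022_s3 t8306_A00pp_022_s3

theorem t8360_A00pp_022_s3 : ∃ t, chk3 f_A00pp_022_s3 t 147 245 34 = true := ex3_a t8359_A00pp_022_s3 t8233_A00pp_022_s3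

theorem t8361_A00pp_022_s3 : ∃ t, chk3 f_A00pp_022_s3 t 147 245 17 = true := ex3_c t8360_A00pp_022_s3 t8180_A00pp_022_s3

theorem t8362_A00pp_022_s3 : ∃ t, chk3 f_A00pp_022_s3 t 295 488 71 = true := ex3_a k2055_A00pp_022_s3 k2056_A00pp_022_s3

theorem t8363_A00pp_022_s3 : ∃ t, chk3 f_A00pp_022_s3 t 295 244 71 = true := ex3_b t8362_A00pp_022_s3 k2057_A00pp_022_s3

theorem t8364_A00pp_022_s3 : ∃ t, chk3 f_A00pp_022_s3 t 591 244 70 = true := ex3_b k2053_A00pp_022_s3 k2054_A00pp_022_s3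

theorem t8365_A00pp_022_s3 : ∃ t, chk3 f_A00pp_022_s3 t 590 244 70 = true := ex3_c k2051_A00pp_022_s3 k2052_A00pp_022_s3

theorem t8366_A00pp_022_s3 : ∃ t, chk3 f_A00pp_022_s3 t 295 244 70 = true := ex3_a t8365_A00pp_022_s3 t8364_A00pp_022_s3

theorem t8367_A00pp_022_s3 : ∃ t, chk3 f_A00pp_022_s3 t 295 244 35 = true := ex3_c t8366_A00pp_022_s3 t8363_A00pp_022_s3

theorem t8368_A00pp_022_s3 : ∃ t, chk3 f_A00pp_022_s3 t 589 244 71 = true := ex3_c k2049_A00pp_022_s3 k2050_A00pp_022_s3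

theorem t8369_A00pp_022_s3 : ∃ t, chk3 f_A00pp_022_s3 t 294 244 71 = true := ex3_a k2048_A00pp_022_s3 t8368_A00pp_022_s3

theorem t8370_A00pp_022_s3 : ∃ t, chk3 f_A00pp_022_s3 t 294 244 35 = true := ex3_c k2047_A00pp_022_s3 t8369_A00pp_022_s3

theorem t8371_A00pp_022_s3 : ∃ t, chk3 f_A00pp_022_s3 t 147 244 35 = true := ex3_a t8370_A00pp_022_s3 t8367_A00pp_022_s3

theorem t8372_A00pp_022_s3 : ∃ t, chk3 f_A00pp_022_s3 t 591 489 139 = true := ex3_a k2045_A00pp_022_s3 k2046_A00pp_022_s3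

theorem t8373_A00pp_022_s3 : ∃ t, chk3 f_A00pp_022_s3 t 591 489 69 = true := ex3_c k2044_A00pp_022_s3 t8372_A00pp_022_s3

theorem t8374_A00pp_022_s3 : ∃ t, chk3 f_A00pp_022_s3 t 591 244 69 = true := ex3_b k2043_A00pp_022_s3 t8373_A00pp_022_s3

theorem t8375_A00pp_022_s3 : ∃ t, chk3 f_A00pp_022_s3 t 295 244 69 = true := ex3_a k2042_A00pp_022_s3 t8374_A00pp_022_s3

theorem t8376_A00pp_022_s3 : ∃ t, chk3 f_A00pp_022_s3 t 590 979 68 = true := ex3_c k2039_A00pp_022_s3 k2040_A00pp_022_s3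

theorem t8377_A00pp_022_s3 : ∃ t, chk3 f_A00pp_022_s3 t 2360 1956 544 = true := ex3_b k2031_A00pp_022_s3 k2032_A00pp_022_s3

theorem t8378_A00pp_022_s3 : ∃ t, chk3 f_A00pp_022_s3 t 1180 1956 544 = true := ex3_a t8377_A00pp_022_s3 k2033_A00pp_022_s3

theorem t8379_A00pp_022_s3 : ∃ t, chk3 f_A00pp_022_s3 t 1180 1956 272 = true := ex3_c t8378_A00pp_022_s3 k2034_A00pp_022_s3

theorem t8380_A00pp_022_s3 : ∃ t, chk3 f_A00pp_022_s3 t 1180 978 272 = true := ex3_b t8379_A00pp_022_s3 k2035_A00pp_022_s3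

theorem t8381_A00pp_022_s3 : ∃ t, chk3 f_A00pp_022_s3 t 1180 978 136 = true := ex3_c t8380_A00pp_022_s3 k2036_A00pp_022_s3

theorem t8382_A00pp_022_s3 : ∃ t, chk3 f_A00pp_022_s3 t 590 978 136 = true := ex3_a t8381_A00pp_022_s3 k2037_A00pp_022_s3

theorem t8383_A00pp_022_s3 : ∃ t, chk3 f_A00pp_022_s3 t 590 978 68 = true := ex3_c t8382_A00pp_022_s3 k2038_A00pp_022_s3

theorem t8384_A00pp_022_s3 : ∃ t, chk3 f_A00pp_022_s3 t 590 489 68 = true := ex3_b t8383_A00pp_022_s3 t8376_A00pp_022_s3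

theorem t8385_A00pp_022_s3 : ∃ t, chk3 f_A00pp_022_s3 t 295 489 68 = true := ex3_a t8384_A00pp_022_s3 k2041_A00pp_022_s3

theorem t8386_A00pp_022_s3 : ∃ t, chk3 f_A00pp_022_s3 t 295 244 68 = true := ex3_b k2030_A00pp_022_s3 t8385_A00pp_022_s3

theorem t8387_A00pp_022_s3 : ∃ t, chk3 f_A00pp_022_s3 t 295 244 34 = true := ex3_c t8386_A00pp_022_s3 t8375_A00pp_022_s3

theorem t8388_A00pp_022_s3 : ∃ t, chk3 f_A00pp_022_s3 t 2352 3918 556 = true := ex3_a k2022_A00pp_022_s3 k2023_A00pp_022_s3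

theorem t8389_A00pp_022_s3 : ∃ t, chk3 f_A00pp_022_s3 t 2352 3918 278 = true := ex3_c t8388_A00pp_022_s3 k2024_A00pp_022_s3

theorem t8390_A00pp_022_s3 : ∃ t, chk3 f_A00pp_022_s3 t 2352 1959 278 = true := ex3_b t8389_A00pp_022_s3 k2025_A00pp_022_s3

theorem t8391_A00pp_022_s3 : ∃ t, chk3 f_A00pp_022_s3 t 1176 1959 278 = true := ex3_a t8390_A00pp_022_s3 k2026_A00pp_022_s3

theorem t8392_A00pp_022_s3 : ∃ t, chk3 f_A00pp_022_s3 t 1176 979 278 = true := ex3_b k2021_A00pp_022_s3 t8391_A00pp_022_s3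

theorem t8393_A00pp_022_s3 : ∃ t, chk3 f_A00pp_022_s3 t 1176 979 139 = true := ex3_c t8392_A00pp_022_s3 k2027_A00pp_022_s3

theorem t8394_A00pp_022_s3 : ∃ t, chk3 f_A00pp_022_s3 t 1176 489 139 = true := ex3_b k2020_A00pp_022_s3 t8393_A00pp_022_s3

theorem t8395_A00pp_022_s3 : ∃ t, chk3 f_A00pp_022_s3 t 1176 244 139 = true := ex3_b k2019_A00pp_022_s3 t8394_A00pp_022_s3

theorem t8396_A00pp_022_s3 : ∃ t, chk3 f_A00pp_022_s3 t 588 244 139 = true := ex3_a t8395_A00pp_022_s3 k2028_A00pp_022_s3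

theorem t8397_A00pp_022_s3 : ∃ t, chk3 f_A00pp_022_s3 t 2355 1958 552 = true := ex3_b k2014_A00pp_022_s3 k2015_A00pp_022_s3

theorem t8398_A00pp_022_s3 : ∃ t, chk3 f_A00pp_022_s3 t 2355 1958 276 = true := ex3_c t8397_A00pp_022_s3 k2016_A00pp_022_s3

theorem t8399_A00pp_022_s3 : ∃ t, chk3 f_A00pp_022_s3 t 2354 1958 553 = true := ex3_b k2012_A00pp_022_s3 k2013_A00pp_022_s3

theorem t8400_A00pp_022_s3 : ∃ t, chk3 f_A00pp_022_s3 t 2354 1958 276 = true := ex3_c k2011_A00pp_022_s3 t8399_A00pp_022_s3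

theorem t8401_A00pp_022_s3 : ∃ t, chk3 f_A00pp_022_s3 t 1177 1958 276 = true := ex3_a t8400_A00pp_022_s3 t8398_A00pp_022_s3

theorem t8402_A00pp_022_s3 : ∃ t, chk3 f_A00pp_022_s3 t 1177 979 276 = true := ex3_b t8401_A00pp_022_s3 k2017_A00pp_022_s3

theorem t8403_A00pp_022_s3 : ∃ t, chk3 f_A00pp_022_s3 t 1177 979 138 = true := ex3_c t8402_A00pp_022_s3 k2018_A00pp_022_s3

theorem t8404_A00pp_022_s3 : ∃ t, chk3 f_A00pp_022_s3 t 2353 1958 555 = true := ex3_a k2008_A00pp_022_s3 k2009_A00pp_022_s3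

theorem t8405_A00pp_022_s3 : ∃ t, chk3 f_A00pp_022_s3 t 2353 1958 277 = true := ex3_c k2007_A00pp_022_s3 t8404_A00pp_022_s3

theorem t8406_A00pp_022_s3 : ∃ t, chk3 f_A00pp_022_s3 t 1176 1958 277 = true := ex3_a k2006_A00pp_022_s3 t8405_A00pp_022_s3

theorem t8407_A00pp_022_s3 : ∃ t, chk3 f_A00pp_022_s3 t 1176 1958 138 = true := ex3_c k2005_A00pp_022_s3 t8406_A00pp_022_s3

theorem t8408_A00pp_022_s3 : ∃ t, chk3 f_A00pp_022_s3 t 1176 979 138 = true := ex3_b t8407_A00pp_022_s3 k2010_A00pp_022_s3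

theorem t8409_A00pp_022_s3 : ∃ t, chk3 f_A00pp_022_s3 t 588 979 138 = true := ex3_a t8408_A00pp_022_s3 t8403_A00pp_022_s3

theorem t8410_A00pp_022_s3 : ∃ t, chk3 f_A00pp_022_s3 t 588 978 138 = true := ex3_a k2003_A00pp_022_s3 k2004_A00pp_022_s3

theorem t8411_A00pp_022_s3 : ∃ t, chk3 f_A00pp_022_s3 t 588 489 138 = true := ex3_b t8410_A00pp_022_s3 t8409_A00pp_022_s3

theorem t8412_A00pp_022_s3 : ∃ t, chk3 f_A00pp_022_s3 t 588 244 138 = true := ex3_b k2002_A00pp_022_s3 t8411_A00pp_022_s3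

theorem t8413_A00pp_022_s3 : ∃ t, chk3 f_A00pp_022_s3 t 588 244 69 = true := ex3_c t8412_A00pp_022_s3 t8396_A00pp_022_s3

theorem t8414_A00pp_022_s3 : ∃ t, chk3 f_A00pp_022_s3 t 294 244 69 = true := ex3_a t8413_A00pp_022_s3 k2029_A00pp_022_s3

theorem t8415_A00pp_022_s3 : ∃ t, chk3 f_A00pp_022_s3 t 2356 1958 275 = true := ex3_b k1997_A00pp_022_s3 k1998_A00pp_022_s3

theorem t8416_A00pp_022_s3 : ∃ t, chk3 f_A00pp_022_s3 t 2356 979 275 = true := ex3_b t8415_A00pp_022_s3 k1999_A00pp_022_s3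

theorem t8417_A00pp_022_s3 : ∃ t, chk3 f_A00pp_022_s3 t 1178 979 275 = true := ex3_a t8416_A00pp_022_s3 k2000_A00pp_022_s3

theorem t8418_A00pp_022_s3 : ∃ t, chk3 f_A00pp_022_s3 t 2357 1959 274 = true := ex3_b k1995_A00pp_022_s3 k1996_A00pp_022_s3

theorem t8419_A00pp_022_s3 : ∃ t, chk3 f_A00pp_022_s3 t 2357 979 274 = true := ex3_b k1994_A00pp_022_s3 t8418_A00pp_022_s3

theorem t8420_A00pp_022_s3 : ∃ t, chk3 f_A00pp_022_s3 t 1178 979 274 = true := ex3_a k1993_A00pp_022_s3 t8419_A00pp_022_s3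

theorem t8421_A00pp_022_s3 : ∃ t, chk3 f_A00pp_022_s3 t 1178 979 137 = true := ex3_c t8420_A00pp_022_s3 t8417_A00pp_022_s3

theorem t8422_A00pp_022_s3 : ∃ t, chk3 f_A00pp_022_s3 t 589 979 137 = true := ex3_a t8421_A00pp_022_s3 k2001_A00pp_022_s3

theorem t8423_A00pp_022_s3 : ∃ t, chk3 f_A00pp_022_s3 t 2356 1957 275 = true := ex3_c k1989_A00pp_022_s3 k1990_A00pp_022_s3

theorem t8424_A00pp_022_s3 : ∃ t, chk3 f_A00pp_022_s3 t 1178 1957 275 = true := ex3_a t8423_A00pp_022_s3 k1991_A00pp_022_s3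

theorem t8425_A00pp_022_s3 : ∃ t, chk3 f_A00pp_022_s3 t 2357 1957 548 = true := ex3_b k1986_A00pp_022_s3 k1987_A00pp_022_s3

theorem t8426_A00pp_022_s3 : ∃ t, chk3 f_A00pp_022_s3 t 2357 1957 274 = true := ex3_c t8425_A00pp_022_s3 k1988_A00pp_022_s3

theorem t8427_A00pp_022_s3 : ∃ t, chk3 f_A00pp_022_s3 t 1178 1957 274 = true := ex3_a k1985_A00pp_022_s3 t8426_A00pp_022_s3

theorem t8428_A00pp_022_s3 : ∃ t, chk3 f_A00pp_022_s3 t 1178 1957 137 = true := ex3_c t8427_A00pp_022_s3 t8424_A00pp_022_s3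

theorem t8429_A00pp_022_s3 : ∃ t, chk3 f_A00pp_022_s3 t 1178 978 137 = true := ex3_b k1984_A00pp_022_s3 t8428_A00pp_022_s3

theorem t8430_A00pp_022_s3 : ∃ t, chk3 f_A00pp_022_s3 t 589 978 137 = true := ex3_a t8429_A00pp_022_s3 k1992_A00pp_022_s3

theorem t8431_A00pp_022_s3 : ∃ t, chk3 f_A00pp_022_s3 t 589 489 137 = true := ex3_b t8430_A00pp_022_s3 t8422_A00pp_022_s3

theorem t8432_A00pp_022_s3 : ∃ t, chk3 f_A00pp_022_s3 t 1179 979 136 = true := ex3_b k1982_A00pp_022_s3 k1983_A00pp_022_s3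

theorem t8433_A00pp_022_s3 : ∃ t, chk3 f_A00pp_022_s3 t 589 979 136 = true := ex3_a k1981_A00pp_022_s3 t8432_A00pp_022_s3

theorem t8434_A00pp_022_s3 : ∃ t, chk3 f_A00pp_022_s3 t 2358 3914 273 = true := ex3_c k1977_A00pp_022_s3 k1978_A00pp_022_s3

theorem t8435_A00pp_022_s3 : ∃ t, chk3 f_A00pp_022_s3 t 2358 1957 273 = true := ex3_b t8434_A00pp_022_s3 k1979_A00pp_022_s3

theorem t8436_A00pp_022_s3 : ∃ t, chk3 f_A00pp_022_s3 t 1179 1957 273 = true := ex3_a t8435_A00pp_022_s3 k1980_A00pp_022_s3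

theorem t8437_A00pp_022_s3 : ∃ t, chk3 f_A00pp_022_s3 t 1179 978 273 = true := ex3_b k1976_A00pp_022_s3 t8436_A00pp_022_s3

theorem t8438_A00pp_022_s3 : ∃ t, chk3 f_A00pp_022_s3 t 1179 978 272 = true := ex3_b k1974_A00pp_022_s3 k1975_A00pp_022_s3

theorem t8439_A00pp_022_s3 : ∃ t, chk3 f_A00pp_022_s3 t 1179 978 136 = true := ex3_c t8438_A00pp_022_s3 t8437_A00pp_022_s3

theorem t8440_A00pp_022_s3 : ∃ t, chk3 f_A00pp_022_s3 t 589 978 136 = true := ex3_a k1973_A00pp_022_s3 t8439_A00pp_022_s3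

theorem t8441_A00pp_022_s3 : ∃ t, chk3 f_A00pp_022_s3 t 589 489 136 = true := ex3_b t8440_A00pp_022_s3 t8433_A00pp_022_s3

theorem t8442_A00pp_022_s3 : ∃ t, chk3 f_A00pp_022_s3 t 589 489 68 = true := ex3_c t8441_A00pp_022_s3 t8431_A00pp_022_s3

theorem t8443_A00pp_022_s3 : ∃ t, chk3 f_A00pp_022_s3 t 1177 1958 551 = true := ex3_a k1970_A00pp_022_s3 k1971_A00pp_022_s3

theorem t8444_A00pp_022_s3 : ∃ t, chk3 f_A00pp_022_s3 t 1177 1958 275 = true := ex3_c k1969_A00pp_022_s3 t8443_A00pp_022_s3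

theorem t8445_A00pp_022_s3 : ∃ t, chk3 f_A00pp_022_s3 t 1177 1958 137 = true := ex3_c k1968_A00pp_022_s3 t8444_A00pp_022_s3

theorem t8446_A00pp_022_s3 : ∃ t, chk3 f_A00pp_022_s3 t 1177 1958 68 = true := ex3_c k1967_A00pp_022_s3 t8445_A00pp_022_s3

theorem t8447_A00pp_022_s3 : ∃ t, chk3 f_A00pp_022_s3 t 588 1958 68 = true := ex3_a k1966_A00pp_022_s3 t8446_A00pp_022_s3

theorem t8448_A00pp_022_s3 : ∃ t, chk3 f_A00pp_022_s3 t 588 979 68 = true := ex3_b t8447_A00pp_022_s3 k1972_A00pp_022_s3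

theorem t8449_A00pp_022_s3 : ∃ t, chk3 f_A00pp_022_s3 t 588 489 68 = true := ex3_b k1965_A00pp_022_s3 t8448_A00pp_022_s3

theorem t8450_A00pp_022_s3 : ∃ t, chk3 f_A00pp_022_s3 t 294 489 68 = true := ex3_a t8449_A00pp_022_s3 t8442_A00pp_022_s3

theorem t8451_A00pp_022_s3 : ∃ t, chk3 f_A00pp_022_s3 t 589 488 68 = true := ex3_c k1963_A00pp_022_s3 k1964_A00pp_022_s3

theorem t8452_A00pp_022_s3 : ∃ t, chk3 f_A00pp_022_s3 t 294 488 68 = true := ex3_a k1962_A00pp_022_s3 t8451_A00pp_022_s3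

theorem t8453_A00pp_022_s3 : ∃ t, chk3 f_A00pp_022_s3 t 294 244 68 = true := ex3_b t8452_A00pp_022_s3 t8450_A00pp_022_s3

theorem t8454_A00pp_022_s3 : ∃ t, chk3 f_A00pp_022_s3 t 294 244 34 = true := ex3_c t8453_A00pp_022_s3 t8414_A00pp_022_s3

theorem t8455_A00pp_022_s3 : ∃ t, chk3 f_A00pp_022_s3 t 147 244 34 = true := ex3_a t8454_A00pp_022_s3 t8387_A00pp_022_s3

theorem t8456_A00pp_022_s3 : ∃ t, chk3 f_A00pp_022_s3 t 147 244 17 = true := ex3_c t8455_A00pp_022_s3 t8371_A00pp_022_s3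

theorem t8457_A00pp_022_s3 : ∃ t, chk3 f_A00pp_022_s3 t 147 122 17 = true := ex3_b t8456_A00pp_022_s3 t8361_A00pp_022_s3

theorem t8458_A00pp_022_s3 : ∃ t, chk3 f_A00pp_022_s3 t 1175 1966 142 = true := ex3_a k1958_A00pp_022_s3 k1959_A00pp_022_s3

theorem t8459_A00pp_022_s3 : ∃ t, chk3 f_A00pp_022_s3 t 1175 983 142 = true := ex3_b t8458_A00pp_022_s3 k1960_A00pp_022_s3

theorem t8460_A00pp_022_s3 : ∃ t, chk3 f_A00pp_022_s3 t 1175 983 71 = true := ex3_c t8459_A00pp_022_s3 k1961_A00pp_022_s3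

theorem t8461_A00pp_022_s3 : ∃ t, chk3 f_A00pp_022_s3 t 1174 983 143 = true := ex3_b k1956_A00pp_022_s3 k1957_A00pp_022_s3

theorem t8462_A00pp_022_s3 : ∃ t, chk3 f_A00pp_022_s3 t 1174 1967 142 = true := ex3_a k1954_A00pp_022_s3 k1955_A00pp_022_s3

theorem t8463_A00pp_022_s3 : ∃ t, chk3 f_A00pp_022_s3 t 1174 983 142 = true := ex3_b k1953_A00pp_022_s3 t8462_A00pp_022_s3

theorem t8464_A00pp_022_s3 : ∃ t, chk3 f_A00pp_022_s3 t 1174 983 71 = true := ex3_c t8463_A00pp_022_s3 t8461_A00pp_022_s3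

theorem t8465_A00pp_022_s3 : ∃ t, chk3 f_A00pp_022_s3 t 587 983 71 = true := ex3_a t8464_A00pp_022_s3 t8460_A00pp_022_s3

theorem t8466_A00pp_022_s3 : ∃ t, chk3 f_A00pp_022_s3 t 2351 1967 141 = true := ex3_c k1951_A00pp_022_s3 k1952_A00pp_022_s3

theorem t8467_A00pp_022_s3 : ∃ t, chk3 f_A00pp_022_s3 t 1175 1967 141 = true := ex3_a k1950_A00pp_022_s3 t8466_A00pp_022_s3

theorem t8468_A00pp_022_s3 : ∃ t, chk3 f_A00pp_022_s3 t 1175 983 141 = true := ex3_b k1949_A00pp_022_s3 t8467_A00pp_022_s3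

theorem t8469_A00pp_022_s3 : ∃ t, chk3 f_A00pp_022_s3 t 1175 983 140 = true := ex3_b k1947_A00pp_022_s3 k1948_A00pp_022_s3

theorem t8470_A00pp_022_s3 : ∃ t, chk3 f_A00pp_022_s3 t 1175 983 70 = true := ex3_c t8469_A00pp_022_s3 t8468_A00pp_022_s3

theorem t8471_A00pp_022_s3 : ∃ t, chk3 f_A00pp_022_s3 t 2348 983 281 = true := ex3_b k1943_A00pp_022_s3 k1944_A00pp_022_s3

theorem t8472_A00pp_022_s3 : ∃ t, chk3 f_A00pp_022_s3 t 1174 983 281 = true := ex3_a t8471_A00pp_022_s3 k1945_A00pp_022_s3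

theorem t8473_A00pp_022_s3 : ∃ t, chk3 f_A00pp_022_s3 t 2349 983 280 = true := ex3_b k1941_A00pp_022_s3 k1942_A00pp_022_s3

theorem t8474_A00pp_022_s3 : ∃ t, chk3 f_A00pp_022_s3 t 1174 983 280 = true := ex3_a k1940_A00pp_022_s3 t8473_A00pp_022_s3

theorem t8475_A00pp_022_s3 : ∃ t, chk3 f_A00pp_022_s3 t 1174 983 140 = true := ex3_c t8474_A00pp_022_s3 t8472_A00pp_022_s3

theorem t8476_A00pp_022_s3 : ∃ t, chk3 f_A00pp_022_s3 t 1174 983 70 = true := ex3_c t8475_A00pp_022_s3 k1946_A00pp_022_s3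

theorem t8477_A00pp_022_s3 : ∃ t, chk3 f_A00pp_022_s3 t 587 983 70 = true := ex3_a t8476_A00pp_022_s3 t8470_A00pp_022_s3

theorem t8478_A00pp_022_s3 : ∃ t, chk3 f_A00pp_022_s3 t 587 983 35 = true := ex3_c t8477_A00pp_022_s3 t8465_A00pp_022_s3

theorem t8479_A00pp_022_s3 : ∃ t, chk3 f_A00pp_022_s3 t 1173 983 71 = true := ex3_c k1938_A00pp_022_s3 k1939_A00pp_022_s3

theorem t8480_A00pp_022_s3 : ∃ t, chk3 f_A00pp_022_s3 t 2344 983 284 = true := ex3_c k1933_A00pp_022_s3 k1934_A00pp_022_s3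

theorem t8481_A00pp_022_s3 : ∃ t, chk3 f_A00pp_022_s3 t 1172 983 284 = true := ex3_a t8480_A00pp_022_s3 k1935_A00pp_022_s3

theorem t8482_A00pp_022_s3 : ∃ t, chk3 f_A00pp_022_s3 t 1172 983 142 = true := ex3_c t8481_A00pp_022_s3 k1936_A00pp_022_s3

theorem t8483_A00pp_022_s3 : ∃ t, chk3 f_A00pp_022_s3 t 1172 983 71 = true := ex3_c t8482_A00pp_022_s3 k1937_A00pp_022_s3

theorem t8484_A00pp_022_s3 : ∃ t, chk3 f_A00pp_022_s3 t 586 983 71 = true := ex3_a t8483_A00pp_022_s3 t8479_A00pp_022_s3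

theorem t8485_A00pp_022_s3 : ∃ t, chk3 f_A00pp_022_s3 t 2347 983 282 = true := ex3_b k1930_A00pp_022_s3 k1931_A00pp_022_s3

theorem t8486_A00pp_022_s3 : ∃ t, chk3 f_A00pp_022_s3 t 1173 983 282 = true := ex3_a k1929_A00pp_022_s3 t8485_A00pp_022_s3

theorem t8487_A00pp_022_s3 : ∃ t, chk3 f_A00pp_022_s3 t 1173 983 141 = true := ex3_c t8486_A00pp_022_s3 k1932_A00pp_022_s3

theorem t8488_A00pp_022_s3 : ∃ t, chk3 f_A00pp_022_s3 t 2345 983 283 = true := ex3_a k1927_A00pp_022_s3 k1928_A00pp_022_s3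

theorem t8489_A00pp_022_s3 : ∃ t, chk3 f_A00pp_022_s3 t 1172 983 283 = true := ex3_a k1926_A00pp_022_s3 t8488_A00pp_022_s3

theorem t8490_A00pp_022_s3 : ∃ t, chk3 f_A00pp_022_s3 t 1172 983 141 = true := ex3_c k1925_A00pp_022_s3 t8489_A00pp_022_s3

theorem t8491_A00pp_022_s3 : ∃ t, chk3 f_A00pp_022_s3 t 586 983 141 = true := ex3_a t8490_A00pp_022_s3 t8487_A00pp_022_s3

theorem t8492_A00pp_022_s3 : ∃ t, chk3 f_A00pp_022_s3 t 586 983 70 = true := ex3_c k1924_A00pp_022_s3 t8491_A00pp_022_s3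

theorem t8493_A00pp_022_s3 : ∃ t, chk3 f_A00pp_022_s3 t 586 983 35 = true := ex3_c t8492_A00pp_022_s3 t8484_A00pp_022_s3

theorem t8494_A00pp_022_s3 : ∃ t, chk3 f_A00pp_022_s3 t 293 983 35 = true := ex3_a t8493_A00pp_022_s3 t8478_A00pp_022_s3

theorem t8495_A00pp_022_s3 : ∃ t, chk3 f_A00pp_022_s3 t 1175 1967 279 = true := ex3_a k1922_A00pp_022_s3 k1923_A00pp_022_s3

theorem t8496_A00pp_022_s3 : ∃ t, chk3 f_A00pp_022_s3 t 1175 1967 139 = true := ex3_c k1921_A00pp_022_s3 t8495_A00pp_022_s3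

theorem t8497_A00pp_022_s3 : ∃ t, chk3 f_A00pp_022_s3 t 587 1967 139 = true := ex3_a k1920_A00pp_022_s3 t8496_A00pp_022_s3

theorem t8498_A00pp_022_s3 : ∃ t, chk3 f_A00pp_022_s3 t 293 1967 139 = true := ex3_a k1919_A00pp_022_s3 t8497_A00pp_022_s3

theorem t8499_A00pp_022_s3 : ∃ t, chk3 f_A00pp_022_s3 t 293 1967 69 = true := ex3_c k1918_A00pp_022_s3 t8498_A00pp_022_s3

theorem t8500_A00pp_022_s3 : ∃ t, chk3 f_A00pp_022_s3 t 293 1967 34 = true := ex3_c k1917_A00pp_022_s3 t8499_A00pp_022_s3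

theorem t8501_A00pp_022_s3 : ∃ t, chk3 f_A00pp_022_s3 t 1175 1966 279 = true := ex3_a k1915_A00pp_022_s3 k1916_A00pp_022_s3

theorem t8502_A00pp_022_s3 : ∃ t, chk3 f_A00pp_022_s3 t 1175 1966 139 = true := ex3_c k1914_A00pp_022_s3 t8501_A00pp_022_s3

theorem t8503_A00pp_022_s3 : ∃ t, chk3 f_A00pp_022_s3 t 587 1966 139 = true := ex3_a k1913_A00pp_022_s3 t8502_A00pp_022_s3

theorem t8504_A00pp_022_s3 : ∃ t, chk3 f_A00pp_022_s3 t 293 1966 139 = true := ex3_a k1912_A00pp_022_s3 t8503_A00pp_022_s3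

theorem t8505_A00pp_022_s3 : ∃ t, chk3 f_A00pp_022_s3 t 293 1966 69 = true := ex3_c k1911_A00pp_022_s3 t8504_A00pp_022_s3

theorem t8506_A00pp_022_s3 : ∃ t, chk3 f_A00pp_022_s3 t 293 1966 34 = true := ex3_c k1910_A00pp_022_s3 t8505_A00pp_022_s3

theorem t8507_A00pp_022_s3 : ∃ t, chk3 f_A00pp_022_s3 t 293 983 34 = true := ex3_b t8506_A00pp_022_s3 t8500_A00pp_022_s3

theorem t8508_A00pp_022_s3 : ∃ t, chk3 f_A00pp_022_s3 t 293 983 17 = true := ex3_c t8507_A00pp_022_s3 t8494_A00pp_022_s3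

theorem t8509_A00pp_022_s3 : ∃ t, chk3 f_A00pp_022_s3 t 1175 982 71 = true := ex3_c k1908_A00pp_022_s3 k1909_A00pp_022_s3

theorem t8510_A00pp_022_s3 : ∃ t, chk3 f_A00pp_022_s3 t 587 982 71 = true := ex3_a k1907_A00pp_022_s3 t8509_A00pp_022_s3

theorem t8511_A00pp_022_s3 : ∃ t, chk3 f_A00pp_022_s3 t 2348 982 281 = true := ex3_c k1902_A00pp_022_s3 k1903_A00pp_022_s3

theorem t8512_A00pp_022_s3 : ∃ t, chk3 f_A00pp_022_s3 t 1174 982 281 = true := ex3_a t8511_A00pp_022_s3 k1904_A00pp_022_s3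

theorem t8513_A00pp_022_s3 : ∃ t, chk3 f_A00pp_022_s3 t 2349 982 280 = true := ex3_b k1900_A00pp_022_s3 k1901_A00pp_022_s3

theorem t8514_A00pp_022_s3 : ∃ t, chk3 f_A00pp_022_s3 t 1174 982 280 = true := ex3_a k1899_A00pp_022_s3 t8513_A00pp_022_s3

theorem t8515_A00pp_022_s3 : ∃ t, chk3 f_A00pp_022_s3 t 1174 982 140 = true := ex3_c t8514_A00pp_022_s3 t8512_A00pp_022_s3

theorem t8516_A00pp_022_s3 : ∃ t, chk3 f_A00pp_022_s3 t 587 982 140 = true := ex3_a t8515_A00pp_022_s3 k1905_A00pp_022_s3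

theorem t8517_A00pp_022_s3 : ∃ t, chk3 f_A00pp_022_s3 t 587 982 70 = true := ex3_c t8516_A00pp_022_s3 k1906_A00pp_022_s3

theorem t8518_A00pp_022_s3 : ∃ t, chk3 f_A00pp_022_s3 t 587 982 35 = true := ex3_c t8517_A00pp_022_s3 t8510_A00pp_022_s3

theorem t8519_A00pp_022_s3 : ∃ t, chk3 f_A00pp_022_s3 t 1175 982 279 = true := ex3_a k1897_A00pp_022_s3 k1898_A00pp_022_s3

theorem t8520_A00pp_022_s3 : ∃ t, chk3 f_A00pp_022_s3 t 1175 982 139 = true := ex3_c k1896_A00pp_022_s3 t8519_A00pp_022_s3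

theorem t8521_A00pp_022_s3 : ∃ t, chk3 f_A00pp_022_s3 t 587 982 139 = true := ex3_a k1895_A00pp_022_s3 t8520_A00pp_022_s3

theorem t8522_A00pp_022_s3 : ∃ t, chk3 f_A00pp_022_s3 t 587 982 69 = true := ex3_c k1894_A00pp_022_s3 t8521_A00pp_022_s3

theorem t8523_A00pp_022_s3 : ∃ t, chk3 f_A00pp_022_s3 t 587 982 34 = true := ex3_c k1893_A00pp_022_s3 t8522_A00pp_022_s3

theorem t8524_A00pp_022_s3 : ∃ t, chk3 f_A00pp_022_s3 t 587 982 17 = true := ex3_c t8523_A00pp_022_s3 t8518_A00pp_022_s3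

theorem t8525_A00pp_022_s3 : ∃ t, chk3 f_A00pp_022_s3 t 2344 982 284 = true := ex3_b k1887_A00pp_022_s3 k1888_A00pp_022_s3

theorem t8526_A00pp_022_s3 : ∃ t, chk3 f_A00pp_022_s3 t 1172 982 284 = true := ex3_a t8525_A00pp_022_s3 k1889_A00pp_022_s3

theorem t8527_A00pp_022_s3 : ∃ t, chk3 f_A00pp_022_s3 t 1172 982 142 = true := ex3_c t8526_A00pp_022_s3 k1890_A00pp_022_s3

theorem t8528_A00pp_022_s3 : ∃ t, chk3 f_A00pp_022_s3 t 1172 982 71 = true := ex3_c t8527_A00pp_022_s3 k1891_A00pp_022_s3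

theorem t8529_A00pp_022_s3 : ∃ t, chk3 f_A00pp_022_s3 t 586 982 71 = true := ex3_a t8528_A00pp_022_s3 k1892_A00pp_022_s3

theorem t8530_A00pp_022_s3 : ∃ t, chk3 f_A00pp_022_s3 t 2347 982 282 = true := ex3_c k1884_A00pp_022_s3 k1885_A00pp_022_s3

theorem t8531_A00pp_022_s3 : ∃ t, chk3 f_A00pp_022_s3 t 1173 982 282 = true := ex3_a k1883_A00pp_022_s3 t8530_A00pp_022_s3

theorem t8532_A00pp_022_s3 : ∃ t, chk3 f_A00pp_022_s3 t 1173 982 141 = true := ex3_c t8531_A00pp_022_s3 k1886_A00pp_022_s3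

theorem t8533_A00pp_022_s3 : ∃ t, chk3 f_A00pp_022_s3 t 586 982 141 = true := ex3_a k1882_A00pp_022_s3 t8532_A00pp_022_s3

theorem t8534_A00pp_022_s3 : ∃ t, chk3 f_A00pp_022_s3 t 586 982 70 = true := ex3_c k1881_A00pp_022_s3 t8533_A00pp_022_s3

theorem t8535_A00pp_022_s3 : ∃ t, chk3 f_A00pp_022_s3 t 586 982 35 = true := ex3_c t8534_A00pp_022_s3 t8529_A00pp_022_s3

theorem t8536_A00pp_022_s3 : ∃ t, chk3 f_A00pp_022_s3 t 586 982 17 = true := ex3_c k1880_A00pp_022_s3 t8535_A00pp_022_s3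

theorem t8537_A00pp_022_s3 : ∃ t, chk3 f_A00pp_022_s3 t 293 982 17 = true := ex3_a t8536_A00pp_022_s3 t8524_A00pp_022_s3

theorem t8538_A00pp_022_s3 : ∃ t, chk3 f_A00pp_022_s3 t 293 491 17 = true := ex3_b t8537_A00pp_022_s3 t8508_A00pp_022_s3

theorem t8539_A00pp_022_s3 : ∃ t, chk3 f_A00pp_022_s3 t 2340 983 287 = true := ex3_b k1876_A00pp_022_s3 k1877_A00pp_022_s3

theorem t8540_A00pp_022_s3 : ∃ t, chk3 f_A00pp_022_s3 t 1170 983 287 = true := ex3_a t8539_A00pp_022_s3 k1878_A00pp_022_s3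

theorem t8541_A00pp_022_s3 : ∃ t, chk3 f_A00pp_022_s3 t 1170 983 143 = true := ex3_c k1875_A00pp_022_s3 t8540_A00pp_022_s3

theorem t8542_A00pp_022_s3 : ∃ t, chk3 f_A00pp_022_s3 t 585 983 143 = true := ex3_a t8541_A00pp_022_s3 k1879_A00pp_022_s3

theorem t8543_A00pp_022_s3 : ∃ t, chk3 f_A00pp_022_s3 t 2343 983 285 = true := ex3_c k1873_A00pp_022_s3 k1874_A00pp_022_s3

theorem t8544_A00pp_022_s3 : ∃ t, chk3 f_A00pp_022_s3 t 1171 983 285 = true := ex3_a k1872_A00pp_022_s3 t8543_A00pp_022_s3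

theorem t8545_A00pp_022_s3 : ∃ t, chk3 f_A00pp_022_s3 t 1171 983 142 = true := ex3_c k1871_A00pp_022_s3 t8544_A00pp_022_s3

theorem t8546_A00pp_022_s3 : ∃ t, chk3 f_A00pp_022_s3 t 585 983 142 = true := ex3_a k1870_A00pp_022_s3 t8545_A00pp_022_s3

theorem t8547_A00pp_022_s3 : ∃ t, chk3 f_A00pp_022_s3 t 585 983 71 = true := ex3_c t8546_A00pp_022_s3 t8542_A00pp_022_s3

theorem t8548_A00pp_022_s3 : ∃ t, chk3 f_A00pp_022_s3 t 585 983 35 = true := ex3_c k1869_A00pp_022_s3 t8547_A00pp_022_s3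

theorem t8549_A00pp_022_s3 : ∃ t, chk3 f_A00pp_022_s3 t 292 983 35 = true := ex3_a k1868_A00pp_022_s3 t8548_A00pp_022_s3

theorem t8550_A00pp_022_s3 : ∃ t, chk3 f_A00pp_022_s3 t 292 983 17 = true := ex3_c k1867_A00pp_022_s3 t8549_A00pp_022_s3

theorem t8551_A00pp_022_s3 : ∃ t, chk3 f_A00pp_022_s3 t 2342 982 286 = true := ex3_b k1863_A00pp_022_s3 k1864_A00pp_022_s3

theorem t8552_A00pp_022_s3 : ∃ t, chk3 f_A00pp_022_s3 t 1171 982 286 = true := ex3_a t8551_A00pp_022_s3 k1865_A00pp_022_s3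

theorem t8553_A00pp_022_s3 : ∃ t, chk3 f_A00pp_022_s3 t 1171 982 143 = true := ex3_c t8552_A00pp_022_s3 k1866_A00pp_022_s3

theorem t8554_A00pp_022_s3 : ∃ t, chk3 f_A00pp_022_s3 t 2340 982 287 = true := ex3_b k1860_A00pp_022_s3 k1861_A00pp_022_s3

theorem t8555_A00pp_022_s3 : ∃ t, chk3 f_A00pp_022_s3 t 1170 982 287 = true := ex3_a t8554_A00pp_022_s3 k1862_A00pp_022_s3

theorem t8556_A00pp_022_s3 : ∃ t, chk3 f_A00pp_022_s3 t 1170 982 143 = true := ex3_c k1859_A00pp_022_s3 t8555_A00pp_022_s3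

theorem t8557_A00pp_022_s3 : ∃ t, chk3 f_A00pp_022_s3 t 585 982 143 = true := ex3_a t8556_A00pp_022_s3 t8553_A00pp_022_s3

theorem t8558_A00pp_022_s3 : ∃ t, chk3 f_A00pp_022_s3 t 2343 982 285 = true := ex3_b k1857_A00pp_022_s3 k1858_A00pp_022_s3

theorem t8559_A00pp_022_s3 : ∃ t, chk3 f_A00pp_022_s3 t 1171 982 285 = true := ex3_a k1856_A00pp_022_s3 t8558_A00pp_022_s3

theorem t8560_A00pp_022_s3 : ∃ t, chk3 f_A00pp_022_s3 t 1171 982 142 = true := ex3_c k1855_A00pp_022_s3 t8559_A00pp_022_s3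

theorem t8561_A00pp_022_s3 : ∃ t, chk3 f_A00pp_022_s3 t 585 982 142 = true := ex3_a k1854_A00pp_022_s3 t8560_A00pp_022_s3

theorem t8562_A00pp_022_s3 : ∃ t, chk3 f_A00pp_022_s3 t 585 982 71 = true := ex3_c t8561_A00pp_022_s3 t8557_A00pp_022_s3

theorem t8563_A00pp_022_s3 : ∃ t, chk3 f_A00pp_022_s3 t 292 982 71 = true := ex3_a k1853_A00pp_022_s3 t8562_A00pp_022_s3

theorem t8564_A00pp_022_s3 : ∃ t, chk3 f_A00pp_022_s3 t 292 982 35 = true := ex3_c k1852_A00pp_022_s3 t8563_A00pp_022_s3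

theorem t8565_A00pp_022_s3 : ∃ t, chk3 f_A00pp_022_s3 t 292 982 17 = true := ex3_c k1851_A00pp_022_s3 t8564_A00pp_022_s3

theorem t8566_A00pp_022_s3 : ∃ t, chk3 f_A00pp_022_s3 t 292 491 17 = true := ex3_b t8565_A00pp_022_s3 t8550_A00pp_022_s3

theorem t8567_A00pp_022_s3 : ∃ t, chk3 f_A00pp_022_s3 t 146 491 17 = true := ex3_a t8566_A00pp_022_s3 t8538_A00pp_022_s3

theorem t8568_A00pp_022_s3 : ∃ t, chk3 f_A00pp_022_s3 t 1175 490 140 = true := ex3_b k1847_A00pp_022_s3 k1848_A00pp_022_s3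

theorem t8569_A00pp_022_s3 : ∃ t, chk3 f_A00pp_022_s3 t 2348 981 281 = true := ex3_b k1844_A00pp_022_s3 k1845_A00pp_022_s3

theorem t8570_A00pp_022_s3 : ∃ t, chk3 f_A00pp_022_s3 t 1174 981 281 = true := ex3_a t8569_A00pp_022_s3 k1846_A00pp_022_s3

theorem t8571_A00pp_022_s3 : ∃ t, chk3 f_A00pp_022_s3 t 2348 1960 281 = true := ex3_c k1840_A00pp_022_s3 k1841_A00pp_022_s3

theorem t8572_A00pp_022_s3 : ∃ t, chk3 f_A00pp_022_s3 t 2348 980 281 = true := ex3_b t8571_A00pp_022_s3 k1842_A00pp_022_s3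

theorem t8573_A00pp_022_s3 : ∃ t, chk3 f_A00pp_022_s3 t 1174 980 281 = true := ex3_a t8572_A00pp_022_s3 k1843_A00pp_022_s3

theorem t8574_A00pp_022_s3 : ∃ t, chk3 f_A00pp_022_s3 t 1174 490 281 = true := ex3_b t8573_A00pp_022_s3 t8570_A00pp_022_s3

theorem t8575_A00pp_022_s3 : ∃ t, chk3 f_A00pp_022_s3 t 2349 981 280 = true := ex3_b k1838_A00pp_022_s3 k1839_A00pp_022_s3

theorem t8576_A00pp_022_s3 : ∃ t, chk3 f_A00pp_022_s3 t 1174 981 280 = true := ex3_a k1837_A00pp_022_s3 t8575_A00pp_022_s3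

theorem t8577_A00pp_022_s3 : ∃ t, chk3 f_A00pp_022_s3 t 2349 1960 280 = true := ex3_c k1834_A00pp_022_s3 k1835_A00pp_022_s3

theorem t8578_A00pp_022_s3 : ∃ t, chk3 f_A00pp_022_s3 t 1174 1960 280 = true := ex3_a k1833_A00pp_022_s3 t8577_A00pp_022_s3

theorem t8579_A00pp_022_s3 : ∃ t, chk3 f_A00pp_022_s3 t 1174 980 280 = true := ex3_b t8578_A00pp_022_s3 k1836_A00pp_022_s3

theorem t8580_A00pp_022_s3 : ∃ t, chk3 f_A00pp_022_s3 t 1174 490 280 = true := ex3_b t8579_A00pp_022_s3 t8576_A00pp_022_s3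

theorem t8581_A00pp_022_s3 : ∃ t, chk3 f_A00pp_022_s3 t 1174 490 140 = true := ex3_c t8580_A00pp_022_s3 t8574_A00pp_022_s3

theorem t8582_A00pp_022_s3 : ∃ t, chk3 f_A00pp_022_s3 t 587 490 140 = true := ex3_a t8581_A00pp_022_s3 t8568_A00pp_022_s3

theorem t8583_A00pp_022_s3 : ∃ t, chk3 f_A00pp_022_s3 t 587 490 70 = true := ex3_c t8582_A00pp_022_s3 k1849_A00pp_022_s3

theorem t8584_A00pp_022_s3 : ∃ t, chk3 f_A00pp_022_s3 t 587 490 35 = true := ex3_c t8583_A00pp_022_s3 k1850_A00pp_022_s3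

theorem t8585_A00pp_022_s3 : ∃ t, chk3 f_A00pp_022_s3 t 2344 981 284 = true := ex3_b k1827_A00pp_022_s3 k1828_A00pp_022_s3

theorem t8586_A00pp_022_s3 : ∃ t, chk3 f_A00pp_022_s3 t 1172 981 284 = true := ex3_a t8585_A00pp_022_s3 k1829_A00pp_022_s3

theorem t8587_A00pp_022_s3 : ∃ t, chk3 f_A00pp_022_s3 t 1172 981 142 = true := ex3_c t8586_A00pp_022_s3 k1830_A00pp_022_s3

theorem t8588_A00pp_022_s3 : ∃ t, chk3 f_A00pp_022_s3 t 586 981 142 = true := ex3_a t8587_A00pp_022_s3 k1831_A00pp_022_s3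

theorem t8589_A00pp_022_s3 : ∃ t, chk3 f_A00pp_022_s3 t 2344 1961 569 = true := ex3_b k1822_A00pp_022_s3 k1823_A00pp_022_s3

theorem t8590_A00pp_022_s3 : ∃ t, chk3 f_A00pp_022_s3 t 2344 1961 284 = true := ex3_c k1821_A00pp_022_s3 t8589_A00pp_022_s3

theorem t8591_A00pp_022_s3 : ∃ t, chk3 f_A00pp_022_s3 t 1172 1961 284 = true := ex3_a t8590_A00pp_022_s3 k1824_A00pp_022_s3

theorem t8592_A00pp_022_s3 : ∃ t, chk3 f_A00pp_022_s3 t 1172 980 284 = true := ex3_b k1820_A00pp_022_s3 t8591_A00pp_022_s3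

theorem t8593_A00pp_022_s3 : ∃ t, chk3 f_A00pp_022_s3 t 1172 980 142 = true := ex3_c t8592_A00pp_022_s3 k1825_A00pp_022_s3

theorem t8594_A00pp_022_s3 : ∃ t, chk3 f_A00pp_022_s3 t 586 980 142 = true := ex3_a t8593_A00pp_022_s3 k1826_A00pp_022_s3

theorem t8595_A00pp_022_s3 : ∃ t, chk3 f_A00pp_022_s3 t 586 490 142 = true := ex3_b t8594_A00pp_022_s3 t8588_A00pp_022_s3

theorem t8596_A00pp_022_s3 : ∃ t, chk3 f_A00pp_022_s3 t 586 490 71 = true := ex3_c t8595_A00pp_022_s3 k1832_A00pp_022_s3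

theorem t8597_A00pp_022_s3 : ∃ t, chk3 f_A00pp_022_s3 t 1173 981 282 = true := ex3_a k1817_A00pp_022_s3 k1818_A00pp_022_s3

theorem t8598_A00pp_022_s3 : ∃ t, chk3 f_A00pp_022_s3 t 1173 981 141 = true := ex3_c t8597_A00pp_022_s3 k1819_A00pp_022_s3

theorem t8599_A00pp_022_s3 : ∃ t, chk3 f_A00pp_022_s3 t 586 981 141 = true := ex3_a k1816_A00pp_022_s3 t8598_A00pp_022_s3

theorem t8600_A00pp_022_s3 : ∃ t, chk3 f_A00pp_022_s3 t 1173 980 283 = true := ex3_b k1814_A00pp_022_s3 k1815_A00pp_022_s3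

theorem t8601_A00pp_022_s3 : ∃ t, chk3 f_A00pp_022_s3 t 2347 3921 282 = true := ex3_c k1811_A00pp_022_s3 k1812_A00pp_022_s3

theorem t8602_A00pp_022_s3 : ∃ t, chk3 f_A00pp_022_s3 t 1173 3921 282 = true := ex3_a k1810_A00pp_022_s3 t8601_A00pp_022_s3

theorem t8603_A00pp_022_s3 : ∃ t, chk3 f_A00pp_022_s3 t 1173 1960 282 = true := ex3_b k1809_A00pp_022_s3 t8602_A00pp_022_s3

theorem t8604_A00pp_022_s3 : ∃ t, chk3 f_A00pp_022_s3 t 1173 980 282 = true := ex3_b t8603_A00pp_022_s3 k1813_A00pp_022_s3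

theorem t8605_A00pp_022_s3 : ∃ t, chk3 f_A00pp_022_s3 t 1173 980 141 = true := ex3_c t8604_A00pp_022_s3 t8600_A00pp_022_s3

theorem t8606_A00pp_022_s3 : ∃ t, chk3 f_A00pp_022_s3 t 2345 1961 567 = true := ex3_b k1807_A00pp_022_s3 k1808_A00pp_022_s3

theorem t8607_A00pp_022_s3 : ∃ t, chk3 f_A00pp_022_s3 t 2345 1961 283 = true := ex3_c k1806_A00pp_022_s3 t8606_A00pp_022_s3

theorem t8608_A00pp_022_s3 : ∃ t, chk3 f_A00pp_022_s3 t 1172 1961 283 = true := ex3_a k1805_A00pp_022_s3 t8607_A00pp_022_s3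

theorem t8609_A00pp_022_s3 : ∃ t, chk3 f_A00pp_022_s3 t 1172 1961 141 = true := ex3_c k1804_A00pp_022_s3 t8608_A00pp_022_s3

theorem t8610_A00pp_022_s3 : ∃ t, chk3 f_A00pp_022_s3 t 1172 980 141 = true := ex3_b k1803_A00pp_022_s3 t8609_A00pp_022_s3

theorem t8611_A00pp_022_s3 : ∃ t, chk3 f_A00pp_022_s3 t 586 980 141 = true := ex3_a t8610_A00pp_022_s3 t8605_A00pp_022_s3

theorem t8612_A00pp_022_s3 : ∃ t, chk3 f_A00pp_022_s3 t 586 490 141 = true := ex3_b t8611_A00pp_022_s3 t8599_A00pp_022_s3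

theorem t8613_A00pp_022_s3 : ∃ t, chk3 f_A00pp_022_s3 t 586 490 70 = true := ex3_c k1802_A00pp_022_s3 t8612_A00pp_022_s3

theorem t8614_A00pp_022_s3 : ∃ t, chk3 f_A00pp_022_s3 t 586 490 35 = true := ex3_c t8613_A00pp_022_s3 t8596_A00pp_022_s3

theorem t8615_A00pp_022_s3 : ∃ t, chk3 f_A00pp_022_s3 t 293 490 35 = true := ex3_a t8614_A00pp_022_s3 t8584_A00pp_022_s3

theorem t8616_A00pp_022_s3 : ∃ t, chk3 f_A00pp_022_s3 t 2351 981 279 = true := ex3_b k1800_A00pp_022_s3 k1801_A00pp_022_s3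

theorem t8617_A00pp_022_s3 : ∃ t, chk3 f_A00pp_022_s3 t 1175 981 279 = true := ex3_a k1799_A00pp_022_s3 t8616_A00pp_022_s3

theorem t8618_A00pp_022_s3 : ∃ t, chk3 f_A00pp_022_s3 t 1175 980 279 = true := ex3_a k1797_A00pp_022_s3 k1798_A00pp_022_s3

theorem t8619_A00pp_022_s3 : ∃ t, chk3 f_A00pp_022_s3 t 1175 490 279 = true := ex3_b t8618_A00pp_022_s3 t8617_A00pp_022_s3

theorem t8620_A00pp_022_s3 : ∃ t, chk3 f_A00pp_022_s3 t 1175 490 139 = true := ex3_c k1796_A00pp_022_s3 t8619_A00pp_022_s3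

theorem t8621_A00pp_022_s3 : ∃ t, chk3 f_A00pp_022_s3 t 587 490 139 = true := ex3_a k1795_A00pp_022_s3 t8620_A00pp_022_s3

theorem t8622_A00pp_022_s3 : ∃ t, chk3 f_A00pp_022_s3 t 293 490 139 = true := ex3_a k1794_A00pp_022_s3 t8621_A00pp_022_s3

theorem t8623_A00pp_022_s3 : ∃ t, chk3 f_A00pp_022_s3 t 293 490 69 = true := ex3_c k1793_A00pp_022_s3 t8622_A00pp_022_s3

theorem t8624_A00pp_022_s3 : ∃ t, chk3 f_A00pp_022_s3 t 293 490 34 = true := ex3_c k1792_A00pp_022_s3 t8623_A00pp_022_s3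

theorem t8625_A00pp_022_s3 : ∃ t, chk3 f_A00pp_022_s3 t 293 490 17 = true := ex3_c t8624_A00pp_022_s3 t8615_A00pp_022_s3

theorem t8626_A00pp_022_s3 : ∃ t, chk3 f_A00pp_022_s3 t 2342 1962 572 = true := ex3_b k1786_A00pp_022_s3 k1787_A00pp_022_s3

theorem t8627_A00pp_022_s3 : ∃ t, chk3 f_A00pp_022_s3 t 2342 1962 286 = true := ex3_c t8626_A00pp_022_s3 k1788_A00pp_022_s3

theorem t8628_A00pp_022_s3 : ∃ t, chk3 f_A00pp_022_s3 t 2342 981 286 = true := ex3_b t8627_A00pp_022_s3 k1789_A00pp_022_s3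

theorem t8629_A00pp_022_s3 : ∃ t, chk3 f_A00pp_022_s3 t 1171 981 286 = true := ex3_a t8628_A00pp_022_s3 k1790_A00pp_022_s3

theorem t8630_A00pp_022_s3 : ∃ t, chk3 f_A00pp_022_s3 t 1171 981 143 = true := ex3_c t8629_A00pp_022_s3 k1791_A00pp_022_s3

theorem t8631_A00pp_022_s3 : ∃ t, chk3 f_A00pp_022_s3 t 2340 1962 287 = true := ex3_c k1782_A00pp_022_s3 k1783_A00pp_022_s3

theorem t8632_A00pp_022_s3 : ∃ t, chk3 f_A00pp_022_s3 t 1170 1962 287 = true := ex3_a t8631_A00pp_022_s3 k1784_A00pp_022_s3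

theorem t8633_A00pp_022_s3 : ∃ t, chk3 f_A00pp_022_s3 t 1170 981 287 = true := ex3_b t8632_A00pp_022_s3 k1785_A00pp_022_s3

theorem t8634_A00pp_022_s3 : ∃ t, chk3 f_A00pp_022_s3 t 2341 1962 573 = true := ex3_b k1779_A00pp_022_s3 k1780_A00pp_022_s3

theorem t8635_A00pp_022_s3 : ∃ t, chk3 f_A00pp_022_s3 t 1170 1962 573 = true := ex3_a k1778_A00pp_022_s3 t8634_A00pp_022_s3

theorem t8636_A00pp_022_s3 : ∃ t, chk3 f_A00pp_022_s3 t 1170 1962 286 = true := ex3_c k1777_A00pp_022_s3 t8635_A00pp_022_s3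

theorem t8637_A00pp_022_s3 : ∃ t, chk3 f_A00pp_022_s3 t 1170 981 286 = true := ex3_b t8636_A00pp_022_s3 k1781_A00pp_022_s3

theorem t8638_A00pp_022_s3 : ∃ t, chk3 f_A00pp_022_s3 t 1170 981 143 = true := ex3_c t8637_A00pp_022_s3 t8633_A00pp_022_s3

theorem t8639_A00pp_022_s3 : ∃ t, chk3 f_A00pp_022_s3 t 585 981 143 = true := ex3_a t8638_A00pp_022_s3 t8630_A00pp_022_s3

theorem t8640_A00pp_022_s3 : ∃ t, chk3 f_A00pp_022_s3 t 585 980 143 = true := ex3_a k1775_A00pp_022_s3 k1776_A00pp_022_s3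

theorem t8641_A00pp_022_s3 : ∃ t, chk3 f_A00pp_022_s3 t 585 490 143 = true := ex3_b t8640_A00pp_022_s3 t8639_A00pp_022_s3

theorem t8642_A00pp_022_s3 : ∃ t, chk3 f_A00pp_022_s3 t 1171 981 285 = true := ex3_b k1773_A00pp_022_s3 k1774_A00pp_022_s3

theorem t8643_A00pp_022_s3 : ∃ t, chk3 f_A00pp_022_s3 t 1171 981 142 = true := ex3_c k1772_A00pp_022_s3 t8642_A00pp_022_s3

theorem t8644_A00pp_022_s3 : ∃ t, chk3 f_A00pp_022_s3 t 585 981 142 = true := ex3_a k1771_A00pp_022_s3 t8643_A00pp_022_s3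

theorem t8645_A00pp_022_s3 : ∃ t, chk3 f_A00pp_022_s3 t 2343 1961 285 = true := ex3_c k1769_A00pp_022_s3 k1770_A00pp_022_s3

theorem t8646_A00pp_022_s3 : ∃ t, chk3 f_A00pp_022_s3 t 1171 1961 285 = true := ex3_a k1768_A00pp_022_s3 t8645_A00pp_022_s3

theorem t8647_A00pp_022_s3 : ∃ t, chk3 f_A00pp_022_s3 t 1171 1961 142 = true := ex3_c k1767_A00pp_022_s3 t8646_A00pp_022_s3

theorem t8648_A00pp_022_s3 : ∃ t, chk3 f_A00pp_022_s3 t 585 1961 142 = true := ex3_a k1766_A00pp_022_s3 t8647_A00pp_022_s3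

theorem t8649_A00pp_022_s3 : ∃ t, chk3 f_A00pp_022_s3 t 585 980 142 = true := ex3_b k1765_A00pp_022_s3 t8648_A00pp_022_s3

theorem t8650_A00pp_022_s3 : ∃ t, chk3 f_A00pp_022_s3 t 585 490 142 = true := ex3_b t8649_A00pp_022_s3 t8644_A00pp_022_s3

theorem t8651_A00pp_022_s3 : ∃ t, chk3 f_A00pp_022_s3 t 585 490 71 = true := ex3_c t8650_A00pp_022_s3 t8641_A00pp_022_s3

theorem t8652_A00pp_022_s3 : ∃ t, chk3 f_A00pp_022_s3 t 292 490 71 = true := ex3_a k1764_A00pp_022_s3 t8651_A00pp_022_s3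

theorem t8653_A00pp_022_s3 : ∃ t, chk3 f_A00pp_022_s3 t 292 490 35 = true := ex3_c k1763_A00pp_022_s3 t8652_A00pp_022_s3

theorem t8654_A00pp_022_s3 : ∃ t, chk3 f_A00pp_022_s3 t 292 490 17 = true := ex3_c k1762_A00pp_022_s3 t8653_A00pp_022_s3

theorem t8655_A00pp_022_s3 : ∃ t, chk3 f_A00pp_022_s3 t 146 490 17 = true := ex3_a t8654_A00pp_022_s3 t8625_A00pp_022_s3

theorem t8656_A00pp_022_s3 : ∃ t, chk3 f_A00pp_022_s3 t 146 245 17 = true := ex3_b t8655_A00pp_022_s3 t8567_A00pp_022_s3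

theorem t8657_A00pp_022_s3 : ∃ t, chk3 f_A00pp_022_s3 t 1175 979 280 = true := ex3_b k1757_A00pp_022_s3 k1758_A00pp_022_s3

theorem t8658_A00pp_022_s3 : ∃ t, chk3 f_A00pp_022_s3 t 1175 489 280 = true := ex3_b k1756_A00pp_022_s3 t8657_A00pp_022_s3

theorem t8659_A00pp_022_s3 : ∃ t, chk3 f_A00pp_022_s3 t 1175 489 140 = true := ex3_c t8658_A00pp_022_s3 k1759_A00pp_022_s3

theorem t8660_A00pp_022_s3 : ∃ t, chk3 f_A00pp_022_s3 t 1175 244 140 = true := ex3_b k1755_A00pp_022_s3 t8659_A00pp_022_s3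

theorem t8661_A00pp_022_s3 : ∃ t, chk3 f_A00pp_022_s3 t 1174 979 280 = true := ex3_b k1752_A00pp_022_s3 k1753_A00pp_022_s3

theorem t8662_A00pp_022_s3 : ∃ t, chk3 f_A00pp_022_s3 t 1174 489 280 = true := ex3_b k1751_A00pp_022_s3 t8661_A00pp_022_s3

theorem t8663_A00pp_022_s3 : ∃ t, chk3 f_A00pp_022_s3 t 1174 489 140 = true := ex3_c t8662_A00pp_022_s3 k1754_A00pp_022_s3

theorem t8664_A00pp_022_s3 : ∃ t, chk3 f_A00pp_022_s3 t 1174 244 140 = true := ex3_b k1750_A00pp_022_s3 t8663_A00pp_022_s3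

theorem t8665_A00pp_022_s3 : ∃ t, chk3 f_A00pp_022_s3 t 587 244 140 = true := ex3_a t8664_A00pp_022_s3 t8660_A00pp_022_s3

theorem t8666_A00pp_022_s3 : ∃ t, chk3 f_A00pp_022_s3 t 587 244 70 = true := ex3_c t8665_A00pp_022_s3 k1760_A00pp_022_s3

theorem t8667_A00pp_022_s3 : ∃ t, chk3 f_A00pp_022_s3 t 1173 244 141 = true := ex3_b k1748_A00pp_022_s3 k1749_A00pp_022_s3

theorem t8668_A00pp_022_s3 : ∃ t, chk3 f_A00pp_022_s3 t 586 244 141 = true := ex3_a k1747_A00pp_022_s3 t8667_A00pp_022_s3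

theorem t8669_A00pp_022_s3 : ∃ t, chk3 f_A00pp_022_s3 t 586 244 70 = true := ex3_c k1746_A00pp_022_s3 t8668_A00pp_022_s3

theorem t8670_A00pp_022_s3 : ∃ t, chk3 f_A00pp_022_s3 t 293 244 70 = true := ex3_a t8669_A00pp_022_s3 t8666_A00pp_022_s3

theorem t8671_A00pp_022_s3 : ∃ t, chk3 f_A00pp_022_s3 t 293 244 35 = true := ex3_c t8670_A00pp_022_s3 k1761_A00pp_022_s3

theorem t8672_A00pp_022_s3 : ∃ t, chk3 f_A00pp_022_s3 t 2351 1959 558 = true := ex3_b k1743_A00pp_022_s3 k1744_A00pp_022_s3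

theorem t8673_A00pp_022_s3 : ∃ t, chk3 f_A00pp_022_s3 t 2351 1959 279 = true := ex3_c t8672_A00pp_022_s3 k1745_A00pp_022_s3

theorem t8674_A00pp_022_s3 : ∃ t, chk3 f_A00pp_022_s3 t 2350 1959 559 = true := ex3_b k1741_A00pp_022_s3 k1742_A00pp_022_s3

theorem t8675_A00pp_022_s3 : ∃ t, chk3 f_A00pp_022_s3 t 2350 1959 279 = true := ex3_c k1740_A00pp_022_s3 t8674_A00pp_022_s3

theorem t8676_A00pp_022_s3 : ∃ t, chk3 f_A00pp_022_s3 t 1175 1959 279 = true := ex3_a t8675_A00pp_022_s3 t8673_A00pp_022_s3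

theorem t8677_A00pp_022_s3 : ∃ t, chk3 f_A00pp_022_s3 t 1175 1959 139 = true := ex3_c k1739_A00pp_022_s3 t8676_A00pp_022_s3

theorem t8678_A00pp_022_s3 : ∃ t, chk3 f_A00pp_022_s3 t 587 1959 139 = true := ex3_a k1738_A00pp_022_s3 t8677_A00pp_022_s3

theorem t8679_A00pp_022_s3 : ∃ t, chk3 f_A00pp_022_s3 t 587 979 139 = true := ex3_b k1737_A00pp_022_s3 t8678_A00pp_022_s3

theorem t8680_A00pp_022_s3 : ∃ t, chk3 f_A00pp_022_s3 t 293 979 139 = true := ex3_a k1736_A00pp_022_s3 t8679_A00pp_022_s3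

theorem t8681_A00pp_022_s3 : ∃ t, chk3 f_A00pp_022_s3 t 293 979 69 = true := ex3_c k1735_A00pp_022_s3 t8680_A00pp_022_s3

theorem t8682_A00pp_022_s3 : ∃ t, chk3 f_A00pp_022_s3 t 293 489 69 = true := ex3_b k1734_A00pp_022_s3 t8681_A00pp_022_s3

theorem t8683_A00pp_022_s3 : ∃ t, chk3 f_A00pp_022_s3 t 293 489 34 = true := ex3_c k1733_A00pp_022_s3 t8682_A00pp_022_s3

theorem t8684_A00pp_022_s3 : ∃ t, chk3 f_A00pp_022_s3 t 293 244 34 = true := ex3_b k1732_A00pp_022_s3 t8683_A00pp_022_s3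

theorem t8685_A00pp_022_s3 : ∃ t, chk3 f_A00pp_022_s3 t 293 244 17 = true := ex3_c t8684_A00pp_022_s3 t8671_A00pp_022_s3

theorem t8686_A00pp_022_s3 : ∃ t, chk3 f_A00pp_022_s3 t 585 244 71 = true := ex3_c k1730_A00pp_022_s3 k1731_A00pp_022_s3

theorem t8687_A00pp_022_s3 : ∃ t, chk3 f_A00pp_022_s3 t 292 244 71 = true := ex3_a k1729_A00pp_022_s3 t8686_A00pp_022_s3

theorem t8688_A00pp_022_s3 : ∃ t, chk3 f_A00pp_022_s3 t 292 244 35 = true := ex3_c k1728_A00pp_022_s3 t8687_A00pp_022_s3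

theorem t8689_A00pp_022_s3 : ∃ t, chk3 f_A00pp_022_s3 t 292 244 17 = true := ex3_c k1727_A00pp_022_s3 t8688_A00pp_022_s3

theorem t8690_A00pp_022_s3 : ∃ t, chk3 f_A00pp_022_s3 t 146 244 17 = true := ex3_a t8689_A00pp_022_s3 t8685_A00pp_022_s3

theorem t8691_A00pp_022_s3 : ∃ t, chk3 f_A00pp_022_s3 t 146 122 17 = true := ex3_b t8690_A00pp_022_s3 t8656_A00pp_022_s3

theorem t8692_A00pp_022_s3 : ∃ t, chk3 f_A00pp_022_s3 t 73 122 17 = true := ex3_a t8691_A00pp_022_s3 t8457_A00pp_022_s3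

theorem t8693_A00pp_022_s3 : ∃ t, chk3 f_A00pp_022_s3 t 73 61 17 = true := ex3_b t8692_A00pp_022_s3 t8135_A00pp_022_s3

theorem t8694_A00pp_022_s3 : ∃ t, chk3 f_A00pp_022_s3 t 294 984 16 = true := ex3_a k1721_A00pp_022_s3 k1722_A00pp_022_s3

theorem t8695_A00pp_022_s3 : ∃ t, chk3 f_A00pp_022_s3 t 294 492 16 = true := ex3_b t8694_A00pp_022_s3 k1723_A00pp_022_s3

theorem t8696_A00pp_022_s3 : ∃ t, chk3 f_A00pp_022_s3 t 294 246 16 = true := ex3_b t8695_A00pp_022_s3 k1724_A00pp_022_s3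

theorem t8697_A00pp_022_s3 : ∃ t, chk3 f_A00pp_022_s3 t 147 246 16 = true := ex3_a t8696_A00pp_022_s3 k1725_A00pp_022_s3

theorem t8698_A00pp_022_s3 : ∃ t, chk3 f_A00pp_022_s3 t 147 123 16 = true := ex3_b t8697_A00pp_022_s3 k1726_A00pp_022_s3

theorem t8699_A00pp_022_s3 : ∃ t, chk3 f_A00pp_022_s3 t 292 986 16 = true := ex3_a k1716_A00pp_022_s3 k1717_A00pp_022_s3

theorem t8700_A00pp_022_s3 : ∃ t, chk3 f_A00pp_022_s3 t 292 493 16 = true := ex3_b t8699_A00pp_022_s3 k1718_A00pp_022_s3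

theorem t8701_A00pp_022_s3 : ∃ t, chk3 f_A00pp_022_s3 t 146 493 16 = true := ex3_a t8700_A00pp_022_s3 k1719_A00pp_022_s3

theorem t8702_A00pp_022_s3 : ∃ t, chk3 f_A00pp_022_s3 t 293 985 16 = true := ex3_a k1714_A00pp_022_s3 k1715_A00pp_022_s3

theorem t8703_A00pp_022_s3 : ∃ t, chk3 f_A00pp_022_s3 t 293 492 16 = true := ex3_b k1713_A00pp_022_s3 t8702_A00pp_022_s3

theorem t8704_A00pp_022_s3 : ∃ t, chk3 f_A00pp_022_s3 t 146 492 16 = true := ex3_a k1712_A00pp_022_s3 t8703_A00pp_022_s3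

theorem t8705_A00pp_022_s3 : ∃ t, chk3 f_A00pp_022_s3 t 146 246 16 = true := ex3_b t8704_A00pp_022_s3 t8701_A00pp_022_s3

theorem t8706_A00pp_022_s3 : ∃ t, chk3 f_A00pp_022_s3 t 146 123 16 = true := ex3_b t8705_A00pp_022_s3 k1720_A00pp_022_s3

theorem t8707_A00pp_022_s3 : ∃ t, chk3 f_A00pp_022_s3 t 73 123 16 = true := ex3_a t8706_A00pp_022_s3 t8698_A00pp_022_s3

theorem t8708_A00pp_022_s3 : ∃ t, chk3 f_A00pp_022_s3 t 1182 1964 135 = true := ex3_a k1707_A00pp_022_s3 k1708_A00pp_022_s3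

theorem t8709_A00pp_022_s3 : ∃ t, chk3 f_A00pp_022_s3 t 1182 982 135 = true := ex3_b t8708_A00pp_022_s3 k1709_A00pp_022_s3

theorem t8710_A00pp_022_s3 : ∃ t, chk3 f_A00pp_022_s3 t 591 982 135 = true := ex3_a t8709_A00pp_022_s3 k1710_A00pp_022_s3

theorem t8711_A00pp_022_s3 : ∃ t, chk3 f_A00pp_022_s3 t 591 491 135 = true := ex3_b t8710_A00pp_022_s3 k1711_A00pp_022_s3

theorem t8712_A00pp_022_s3 : ∃ t, chk3 f_A00pp_022_s3 t 1182 1964 134 = true := ex3_a k1702_A00pp_022_s3 k1703_A00pp_022_s3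

theorem t8713_A00pp_022_s3 : ∃ t, chk3 f_A00pp_022_s3 t 1182 982 134 = true := ex3_b t8712_A00pp_022_s3 k1704_A00pp_022_s3

theorem t8714_A00pp_022_s3 : ∃ t, chk3 f_A00pp_022_s3 t 591 982 134 = true := ex3_a t8713_A00pp_022_s3 k1705_A00pp_022_s3

theorem t8715_A00pp_022_s3 : ∃ t, chk3 f_A00pp_022_s3 t 591 491 134 = true := ex3_b t8714_A00pp_022_s3 k1706_A00pp_022_s3

theorem t8716_A00pp_022_s3 : ∃ t, chk3 f_A00pp_022_s3 t 591 491 67 = true := ex3_c t8715_A00pp_022_s3 t8711_A00pp_022_s3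

theorem t8717_A00pp_022_s3 : ∃ t, chk3 f_A00pp_022_s3 t 591 491 33 = true := ex3_c k1701_A00pp_022_s3 t8716_A00pp_022_s3

theorem t8718_A00pp_022_s3 : ∃ t, chk3 f_A00pp_022_s3 t 590 1965 67 = true := ex3_a k1698_A00pp_022_s3 k1699_A00pp_022_s3

theorem t8719_A00pp_022_s3 : ∃ t, chk3 f_A00pp_022_s3 t 1181 1964 270 = true := ex3_a k1695_A00pp_022_s3 k1696_A00pp_022_s3

theorem t8720_A00pp_022_s3 : ∃ t, chk3 f_A00pp_022_s3 t 1181 1964 135 = true := ex3_c t8719_A00pp_022_s3 k1697_A00pp_022_s3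

theorem t8721_A00pp_022_s3 : ∃ t, chk3 f_A00pp_022_s3 t 1181 1964 67 = true := ex3_c k1694_A00pp_022_s3 t8720_A00pp_022_s3

theorem t8722_A00pp_022_s3 : ∃ t, chk3 f_A00pp_022_s3 t 1180 1964 271 = true := ex3_a k1692_A00pp_022_s3 k1693_A00pp_022_s3

theorem t8723_A00pp_022_s3 : ∃ t, chk3 f_A00pp_022_s3 t 1180 1964 135 = true := ex3_c k1691_A00pp_022_s3 t8722_A00pp_022_s3

theorem t8724_A00pp_022_s3 : ∃ t, chk3 f_A00pp_022_s3 t 1180 1964 67 = true := ex3_c k1690_A00pp_022_s3 t8723_A00pp_022_s3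

theorem t8725_A00pp_022_s3 : ∃ t, chk3 f_A00pp_022_s3 t 590 1964 67 = true := ex3_a t8724_A00pp_022_s3 t8721_A00pp_022_s3

theorem t8726_A00pp_022_s3 : ∃ t, chk3 f_A00pp_022_s3 t 590 982 67 = true := ex3_b t8725_A00pp_022_s3 t8718_A00pp_022_s3

theorem t8727_A00pp_022_s3 : ∃ t, chk3 f_A00pp_022_s3 t 590 491 67 = true := ex3_b t8726_A00pp_022_s3 k1700_A00pp_022_s3

theorem t8728_A00pp_022_s3 : ∃ t, chk3 f_A00pp_022_s3 t 590 491 33 = true := ex3_c k1689_A00pp_022_s3 t8727_A00pp_022_s3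

theorem t8729_A00pp_022_s3 : ∃ t, chk3 f_A00pp_022_s3 t 295 491 33 = true := ex3_a t8728_A00pp_022_s3 t8717_A00pp_022_s3

theorem t8730_A00pp_022_s3 : ∃ t, chk3 f_A00pp_022_s3 t 294 983 33 = true := ex3_b k1687_A00pp_022_s3 k1688_A00pp_022_s3

theorem t8731_A00pp_022_s3 : ∃ t, chk3 f_A00pp_022_s3 t 294 491 33 = true := ex3_b k1686_A00pp_022_s3 t8730_A00pp_022_s3

theorem t8732_A00pp_022_s3 : ∃ t, chk3 f_A00pp_022_s3 t 147 491 33 = true := ex3_a t8731_A00pp_022_s3 t8729_A00pp_022_s3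

theorem t8733_A00pp_022_s3 : ∃ t, chk3 f_A00pp_022_s3 t 73 491 33 = true := ex3_a k1685_A00pp_022_s3 t8732_A00pp_022_s3

theorem t8734_A00pp_022_s3 : ∃ t, chk3 f_A00pp_022_s3 t 2366 1963 135 = true := ex3_c k1682_A00pp_022_s3 k1683_A00pp_022_s3

theorem t8735_A00pp_022_s3 : ∃ t, chk3 f_A00pp_022_s3 t 1183 1963 135 = true := ex3_a t8734_A00pp_022_s3 k1684_A00pp_022_s3

theorem t8736_A00pp_022_s3 : ∃ t, chk3 f_A00pp_022_s3 t 1183 1963 67 = true := ex3_c k1681_A00pp_022_s3 t8735_A00pp_022_s3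

theorem t8737_A00pp_022_s3 : ∃ t, chk3 f_A00pp_022_s3 t 1182 1963 268 = true := ex3_a k1677_A00pp_022_s3 k1678_A00pp_022_s3

theorem t8738_A00pp_022_s3 : ∃ t, chk3 f_A00pp_022_s3 t 1182 1963 134 = true := ex3_c t8737_A00pp_022_s3 k1679_A00pp_022_s3

theorem t8739_A00pp_022_s3 : ∃ t, chk3 f_A00pp_022_s3 t 1182 1963 67 = true := ex3_c t8738_A00pp_022_s3 k1680_A00pp_022_s3

theorem t8740_A00pp_022_s3 : ∃ t, chk3 f_A00pp_022_s3 t 591 1963 67 = true := ex3_a t8739_A00pp_022_s3 t8736_A00pp_022_s3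

theorem t8741_A00pp_022_s3 : ∃ t, chk3 f_A00pp_022_s3 t 1183 1963 133 = true := ex3_c k1675_A00pp_022_s3 k1676_A00pp_022_s3

theorem t8742_A00pp_022_s3 : ∃ t, chk3 f_A00pp_022_s3 t 1183 1963 66 = true := ex3_c k1674_A00pp_022_s3 t8741_A00pp_022_s3

theorem t8743_A00pp_022_s3 : ∃ t, chk3 f_A00pp_022_s3 t 591 1963 66 = true := ex3_a k1673_A00pp_022_s3 t8742_A00pp_022_s3

theorem t8744_A00pp_022_s3 : ∃ t, chk3 f_A00pp_022_s3 t 591 1963 33 = true := ex3_c t8743_A00pp_022_s3 t8740_A00pp_022_s3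

theorem t8745_A00pp_022_s3 : ∃ t, chk3 f_A00pp_022_s3 t 1182 1962 268 = true := ex3_a k1668_A00pp_022_s3 k1669_A00pp_022_s3

theorem t8746_A00pp_022_s3 : ∃ t, chk3 f_A00pp_022_s3 t 1182 1962 134 = true := ex3_c t8745_A00pp_022_s3 k1670_A00pp_022_s3

theorem t8747_A00pp_022_s3 : ∃ t, chk3 f_A00pp_022_s3 t 1182 1962 67 = true := ex3_c t8746_A00pp_022_s3 k1671_A00pp_022_s3

theorem t8748_A00pp_022_s3 : ∃ t, chk3 f_A00pp_022_s3 t 591 1962 67 = true := ex3_a t8747_A00pp_022_s3 k1672_A00pp_022_s3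

theorem t8749_A00pp_022_s3 : ∃ t, chk3 f_A00pp_022_s3 t 1183 1962 133 = true := ex3_c k1666_A00pp_022_s3 k1667_A00pp_022_s3

theorem t8750_A00pp_022_s3 : ∃ t, chk3 f_A00pp_022_s3 t 591 1962 133 = true := ex3_a k1665_A00pp_022_s3 t8749_A00pp_022_s3

theorem t8751_A00pp_022_s3 : ∃ t, chk3 f_A00pp_022_s3 t 591 1962 66 = true := ex3_c k1664_A00pp_022_s3 t8750_A00pp_022_s3

theorem t8752_A00pp_022_s3 : ∃ t, chk3 f_A00pp_022_s3 t 591 1962 33 = true := ex3_c t8751_A00pp_022_s3 t8748_A00pp_022_s3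

theorem t8753_A00pp_022_s3 : ∃ t, chk3 f_A00pp_022_s3 t 591 981 33 = true := ex3_b t8752_A00pp_022_s3 t8744_A00pp_022_s3

theorem t8754_A00pp_022_s3 : ∃ t, chk3 f_A00pp_022_s3 t 2362 981 270 = true := ex3_c k1660_A00pp_022_s3 k1661_A00pp_022_s3

theorem t8755_A00pp_022_s3 : ∃ t, chk3 f_A00pp_022_s3 t 1181 981 270 = true := ex3_a t8754_A00pp_022_s3 k1662_A00pp_022_s3

theorem t8756_A00pp_022_s3 : ∃ t, chk3 f_A00pp_022_s3 t 1181 981 135 = true := ex3_c t8755_A00pp_022_s3 k1663_A00pp_022_s3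

theorem t8757_A00pp_022_s3 : ∃ t, chk3 f_A00pp_022_s3 t 2361 981 271 = true := ex3_b k1658_A00pp_022_s3 k1659_A00pp_022_s3

theorem t8758_A00pp_022_s3 : ∃ t, chk3 f_A00pp_022_s3 t 1180 981 271 = true := ex3_a k1657_A00pp_022_s3 t8757_A00pp_022_s3

theorem t8759_A00pp_022_s3 : ∃ t, chk3 f_A00pp_022_s3 t 1180 981 135 = true := ex3_c k1656_A00pp_022_s3 t8758_A00pp_022_s3

theorem t8760_A00pp_022_s3 : ∃ t, chk3 f_A00pp_022_s3 t 590 981 135 = true := ex3_a t8759_A00pp_022_s3 t8756_A00pp_022_s3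

theorem t8761_A00pp_022_s3 : ∃ t, chk3 f_A00pp_022_s3 t 2363 981 269 = true := ex3_c k1654_A00pp_022_s3 k1655_A00pp_022_s3

theorem t8762_A00pp_022_s3 : ∃ t, chk3 f_A00pp_022_s3 t 1181 981 269 = true := ex3_a k1653_A00pp_022_s3 t8761_A00pp_022_s3

theorem t8763_A00pp_022_s3 : ∃ t, chk3 f_A00pp_022_s3 t 590 981 269 = true := ex3_a k1652_A00pp_022_s3 t8762_A00pp_022_s3

theorem t8764_A00pp_022_s3 : ∃ t, chk3 f_A00pp_022_s3 t 590 981 134 = true := ex3_c k1651_A00pp_022_s3 t8763_A00pp_022_s3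

theorem t8765_A00pp_022_s3 : ∃ t, chk3 f_A00pp_022_s3 t 590 981 67 = true := ex3_c t8764_A00pp_022_s3 t8760_A00pp_022_s3

theorem t8766_A00pp_022_s3 : ∃ t, chk3 f_A00pp_022_s3 t 590 981 33 = true := ex3_c k1650_A00pp_022_s3 t8765_A00pp_022_s3

theorem t8767_A00pp_022_s3 : ∃ t, chk3 f_A00pp_022_s3 t 295 981 33 = true := ex3_a t8766_A00pp_022_s3 t8753_A00pp_022_s3

theorem t8768_A00pp_022_s3 : ∃ t, chk3 f_A00pp_022_s3 t 2365 980 268 = true := ex3_c k1645_A00pp_022_s3 k1646_A00pp_022_s3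

theorem t8769_A00pp_022_s3 : ∃ t, chk3 f_A00pp_022_s3 t 1182 980 268 = true := ex3_a k1644_A00pp_022_s3 t8768_A00pp_022_s3

theorem t8770_A00pp_022_s3 : ∃ t, chk3 f_A00pp_022_s3 t 1182 980 134 = true := ex3_c t8769_A00pp_022_s3 k1647_A00pp_022_s3

theorem t8771_A00pp_022_s3 : ∃ t, chk3 f_A00pp_022_s3 t 1182 980 67 = true := ex3_c t8770_A00pp_022_s3 k1648_A00pp_022_s3

theorem t8772_A00pp_022_s3 : ∃ t, chk3 f_A00pp_022_s3 t 591 980 67 = true := ex3_a t8771_A00pp_022_s3 k1649_A00pp_022_s3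

theorem t8773_A00pp_022_s3 : ∃ t, chk3 f_A00pp_022_s3 t 2366 980 267 = true := ex3_c k1641_A00pp_022_s3 k1642_A00pp_022_s3

theorem t8774_A00pp_022_s3 : ∃ t, chk3 f_A00pp_022_s3 t 1183 980 267 = true := ex3_a t8773_A00pp_022_s3 k1643_A00pp_022_s3

theorem t8775_A00pp_022_s3 : ∃ t, chk3 f_A00pp_022_s3 t 2367 980 266 = true := ex3_a k1639_A00pp_022_s3 k1640_A00pp_022_s3

theorem t8776_A00pp_022_s3 : ∃ t, chk3 f_A00pp_022_s3 t 1183 980 266 = true := ex3_a k1638_A00pp_022_s3 t8775_A00pp_022_s3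

theorem t8777_A00pp_022_s3 : ∃ t, chk3 f_A00pp_022_s3 t 1183 980 133 = true := ex3_c t8776_A00pp_022_s3 t8774_A00pp_022_s3

theorem t8778_A00pp_022_s3 : ∃ t, chk3 f_A00pp_022_s3 t 591 980 133 = true := ex3_a k1637_A00pp_022_s3 t8777_A00pp_022_s3

theorem t8779_A00pp_022_s3 : ∃ t, chk3 f_A00pp_022_s3 t 591 980 66 = true := ex3_c k1636_A00pp_022_s3 t8778_A00pp_022_s3

theorem t8780_A00pp_022_s3 : ∃ t, chk3 f_A00pp_022_s3 t 591 980 33 = true := ex3_c t8779_A00pp_022_s3 t8772_A00pp_022_s3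

theorem t8781_A00pp_022_s3 : ∃ t, chk3 f_A00pp_022_s3 t 2362 980 270 = true := ex3_b k1632_A00pp_022_s3 k1633_A00pp_022_s3

theorem t8782_A00pp_022_s3 : ∃ t, chk3 f_A00pp_022_s3 t 1181 980 270 = true := ex3_a t8781_A00pp_022_s3 k1634_A00pp_022_s3

theorem t8783_A00pp_022_s3 : ∃ t, chk3 f_A00pp_022_s3 t 1181 980 135 = true := ex3_c t8782_A00pp_022_s3 k1635_A00pp_022_s3

theorem t8784_A00pp_022_s3 : ∃ t, chk3 f_A00pp_022_s3 t 2361 1960 271 = true := ex3_b k1629_A00pp_022_s3 k1630_A00pp_022_s3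

theorem t8785_A00pp_022_s3 : ∃ t, chk3 f_A00pp_022_s3 t 2361 980 271 = true := ex3_b t8784_A00pp_022_s3 k1631_A00pp_022_s3

theorem t8786_A00pp_022_s3 : ∃ t, chk3 f_A00pp_022_s3 t 1180 980 271 = true := ex3_a k1628_A00pp_022_s3 t8785_A00pp_022_s3

theorem t8787_A00pp_022_s3 : ∃ t, chk3 f_A00pp_022_s3 t 1180 980 135 = true := ex3_c k1627_A00pp_022_s3 t8786_A00pp_022_s3

theorem t8788_A00pp_022_s3 : ∃ t, chk3 f_A00pp_022_s3 t 590 980 135 = true := ex3_a t8787_A00pp_022_s3 t8783_A00pp_022_s3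

theorem t8789_A00pp_022_s3 : ∃ t, chk3 f_A00pp_022_s3 t 590 980 134 = true := ex3_a k1625_A00pp_022_s3 k1626_A00pp_022_s3

theorem t8790_A00pp_022_s3 : ∃ t, chk3 f_A00pp_022_s3 t 590 980 67 = true := ex3_c t8789_A00pp_022_s3 t8788_A00pp_022_s3

theorem t8791_A00pp_022_s3 : ∃ t, chk3 f_A00pp_022_s3 t 590 980 33 = true := ex3_c k1624_A00pp_022_s3 t8790_A00pp_022_s3

theorem t8792_A00pp_022_s3 : ∃ t, chk3 f_A00pp_022_s3 t 295 980 33 = true := ex3_a t8791_A00pp_022_s3 t8780_A00pp_022_s3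

theorem t8793_A00pp_022_s3 : ∃ t, chk3 f_A00pp_022_s3 t 295 490 33 = true := ex3_b t8792_A00pp_022_s3 t8767_A00pp_022_s3

theorem t8794_A00pp_022_s3 : ∃ t, chk3 f_A00pp_022_s3 t 147 490 33 = true := ex3_a k1623_A00pp_022_s3 t8793_A00pp_022_s3

theorem t8795_A00pp_022_s3 : ∃ t, chk3 f_A00pp_022_s3 t 73 490 33 = true := ex3_a k1622_A00pp_022_s3 t8794_A00pp_022_s3

theorem t8796_A00pp_022_s3 : ∃ t, chk3 f_A00pp_022_s3 t 73 245 33 = true := ex3_b t8795_A00pp_022_s3 t8733_A00pp_022_s3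

theorem t8797_A00pp_022_s3 : ∃ t, chk3 f_A00pp_022_s3 t 147 491 65 = true := ex3_a k1620_A00pp_022_s3 k1621_A00pp_022_s3

theorem t8798_A00pp_022_s3 : ∃ t, chk3 f_A00pp_022_s3 t 73 491 65 = true := ex3_a k1619_A00pp_022_s3 t8797_A00pp_022_s3

theorem t8799_A00pp_022_s3 : ∃ t, chk3 f_A00pp_022_s3 t 73 491 32 = true := ex3_c k1618_A00pp_022_s3 t8798_A00pp_022_s3

theorem t8800_A00pp_022_s3 : ∃ t, chk3 f_A00pp_022_s3 t 73 981 32 = true := ex3_a k1616_A00pp_022_s3 k1617_A00pp_022_s3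

theorem t8801_A00pp_022_s3 : ∃ t, chk3 f_A00pp_022_s3 t 73 490 32 = true := ex3_b k1615_A00pp_022_s3 t8800_A00pp_022_s3

theorem t8802_A00pp_022_s3 : ∃ t, chk3 f_A00pp_022_s3 t 73 245 32 = true := ex3_b t8801_A00pp_022_s3 t8799_A00pp_022_s3

theorem t8803_A00pp_022_s3 : ∃ t, chk3 f_A00pp_022_s3 t 73 245 16 = true := ex3_c t8802_A00pp_022_s3 t8796_A00pp_022_s3

theorem t8804_A00pp_022_s3 : ∃ t, chk3 f_A00pp_022_s3 t 2364 979 269 = true := ex3_b k1610_A00pp_022_s3 k1611_A00pp_022_s3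

theorem t8805_A00pp_022_s3 : ∃ t, chk3 f_A00pp_022_s3 t 2364 489 269 = true := ex3_b k1609_A00pp_022_s3 t8804_A00pp_022_s3

theorem t8806_A00pp_022_s3 : ∃ t, chk3 f_A00pp_022_s3 t 1182 489 269 = true := ex3_a t8805_A00pp_022_s3 k1612_A00pp_022_s3

theorem t8807_A00pp_022_s3 : ∃ t, chk3 f_A00pp_022_s3 t 2365 979 268 = true := ex3_b k1607_A00pp_022_s3 k1608_A00pp_022_s3

theorem t8808_A00pp_022_s3 : ∃ t, chk3 f_A00pp_022_s3 t 2365 1957 268 = true := ex3_b k1605_A00pp_022_s3 k1606_A00pp_022_s3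

theorem t8809_A00pp_022_s3 : ∃ t, chk3 f_A00pp_022_s3 t 2365 978 268 = true := ex3_b k1604_A00pp_022_s3 t8808_A00pp_022_s3

theorem t8810_A00pp_022_s3 : ∃ t, chk3 f_A00pp_022_s3 t 2365 489 268 = true := ex3_b t8809_A00pp_022_s3 t8807_A00pp_022_s3

theorem t8811_A00pp_022_s3 : ∃ t, chk3 f_A00pp_022_s3 t 1182 489 268 = true := ex3_a k1603_A00pp_022_s3 t8810_A00pp_022_s3

theorem t8812_A00pp_022_s3 : ∃ t, chk3 f_A00pp_022_s3 t 1182 489 134 = true := ex3_c t8811_A00pp_022_s3 t8806_A00pp_022_s3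

theorem t8813_A00pp_022_s3 : ∃ t, chk3 f_A00pp_022_s3 t 591 489 134 = true := ex3_a t8812_A00pp_022_s3 k1613_A00pp_022_s3

theorem t8814_A00pp_022_s3 : ∃ t, chk3 f_A00pp_022_s3 t 591 489 67 = true := ex3_c t8813_A00pp_022_s3 k1614_A00pp_022_s3

theorem t8815_A00pp_022_s3 : ∃ t, chk3 f_A00pp_022_s3 t 2362 1959 270 = true := ex3_b k1599_A00pp_022_s3 k1600_A00pp_022_s3

theorem t8816_A00pp_022_s3 : ∃ t, chk3 f_A00pp_022_s3 t 2362 979 270 = true := ex3_b k1598_A00pp_022_s3 t8815_A00pp_022_s3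

theorem t8817_A00pp_022_s3 : ∃ t, chk3 f_A00pp_022_s3 t 2362 3912 270 = true := ex3_c k1594_A00pp_022_s3 k1595_A00pp_022_s3

theorem t8818_A00pp_022_s3 : ∃ t, chk3 f_A00pp_022_s3 t 2362 1956 270 = true := ex3_b t8817_A00pp_022_s3 k1596_A00pp_022_s3

theorem t8819_A00pp_022_s3 : ∃ t, chk3 f_A00pp_022_s3 t 2362 978 270 = true := ex3_b t8818_A00pp_022_s3 k1597_A00pp_022_s3

theorem t8820_A00pp_022_s3 : ∃ t, chk3 f_A00pp_022_s3 t 2362 489 270 = true := ex3_b t8819_A00pp_022_s3 t8816_A00pp_022_s3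

theorem t8821_A00pp_022_s3 : ∃ t, chk3 f_A00pp_022_s3 t 1181 489 270 = true := ex3_a t8820_A00pp_022_s3 k1601_A00pp_022_s3

theorem t8822_A00pp_022_s3 : ∃ t, chk3 f_A00pp_022_s3 t 1181 489 135 = true := ex3_c t8821_A00pp_022_s3 k1602_A00pp_022_s3

theorem t8823_A00pp_022_s3 : ∃ t, chk3 f_A00pp_022_s3 t 2361 1959 271 = true := ex3_b k1592_A00pp_022_s3 k1593_A00pp_022_s3

theorem t8824_A00pp_022_s3 : ∃ t, chk3 f_A00pp_022_s3 t 2361 1958 271 = true := ex3_b k1590_A00pp_022_s3 k1591_A00pp_022_s3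

theorem t8825_A00pp_022_s3 : ∃ t, chk3 f_A00pp_022_s3 t 2361 979 271 = true := ex3_b t8824_A00pp_022_s3 t8823_A00pp_022_s3

theorem t8826_A00pp_022_s3 : ∃ t, chk3 f_A00pp_022_s3 t 1180 979 271 = true := ex3_a k1589_A00pp_022_s3 t8825_A00pp_022_s3

theorem t8827_A00pp_022_s3 : ∃ t, chk3 f_A00pp_022_s3 t 1180 979 135 = true := ex3_c k1588_A00pp_022_s3 t8826_A00pp_022_s3

theorem t8828_A00pp_022_s3 : ∃ t, chk3 f_A00pp_022_s3 t 2361 1957 271 = true := ex3_b k1586_A00pp_022_s3 k1587_A00pp_022_s3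

theorem t8829_A00pp_022_s3 : ∃ t, chk3 f_A00pp_022_s3 t 1180 1957 271 = true := ex3_a k1585_A00pp_022_s3 t8828_A00pp_022_s3

theorem t8830_A00pp_022_s3 : ∃ t, chk3 f_A00pp_022_s3 t 1180 1957 135 = true := ex3_c k1584_A00pp_022_s3 t8829_A00pp_022_s3

theorem t8831_A00pp_022_s3 : ∃ t, chk3 f_A00pp_022_s3 t 2361 3912 542 = true := ex3_a k1580_A00pp_022_s3 k1581_A00pp_022_s3

theorem t8832_A00pp_022_s3 : ∃ t, chk3 f_A00pp_022_s3 t 2361 3912 271 = true := ex3_c t8831_A00pp_022_s3 k1582_A00pp_022_s3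

theorem t8833_A00pp_022_s3 : ∃ t, chk3 f_A00pp_022_s3 t 2361 1956 271 = true := ex3_b t8832_A00pp_022_s3 k1583_A00pp_022_s3

theorem t8834_A00pp_022_s3 : ∃ t, chk3 f_A00pp_022_s3 t 1180 1956 271 = true := ex3_a k1579_A00pp_022_s3 t8833_A00pp_022_s3

theorem t8835_A00pp_022_s3 : ∃ t, chk3 f_A00pp_022_s3 t 1180 1956 135 = true := ex3_c k1578_A00pp_022_s3 t8834_A00pp_022_s3

theorem t8836_A00pp_022_s3 : ∃ t, chk3 f_A00pp_022_s3 t 1180 978 135 = true := ex3_b t8835_A00pp_022_s3 t8830_A00pp_022_s3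

theorem t8837_A00pp_022_s3 : ∃ t, chk3 f_A00pp_022_s3 t 1180 489 135 = true := ex3_b t8836_A00pp_022_s3 t8827_A00pp_022_s3

theorem t8838_A00pp_022_s3 : ∃ t, chk3 f_A00pp_022_s3 t 590 489 135 = true := ex3_a t8837_A00pp_022_s3 t8822_A00pp_022_s3

theorem t8839_A00pp_022_s3 : ∃ t, chk3 f_A00pp_022_s3 t 590 489 134 = true := ex3_b k1576_A00pp_022_s3 k1577_A00pp_022_s3

theorem t8840_A00pp_022_s3 : ∃ t, chk3 f_A00pp_022_s3 t 590 489 67 = true := ex3_c t8839_A00pp_022_s3 t8838_A00pp_022_s3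

theorem t8841_A00pp_022_s3 : ∃ t, chk3 f_A00pp_022_s3 t 295 489 67 = true := ex3_a t8840_A00pp_022_s3 t8814_A00pp_022_s3

theorem t8842_A00pp_022_s3 : ∃ t, chk3 f_A00pp_022_s3 t 2366 1958 267 = true := ex3_b k1572_A00pp_022_s3 k1573_A00pp_022_s3

theorem t8843_A00pp_022_s3 : ∃ t, chk3 f_A00pp_022_s3 t 2366 979 267 = true := ex3_b t8842_A00pp_022_s3 k1574_A00pp_022_s3

theorem t8844_A00pp_022_s3 : ∃ t, chk3 f_A00pp_022_s3 t 2366 1957 267 = true := ex3_b k1570_A00pp_022_s3 k1571_A00pp_022_s3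

theorem t8845_A00pp_022_s3 : ∃ t, chk3 f_A00pp_022_s3 t 2366 1956 267 = true := ex3_b k1568_A00pp_022_s3 k1569_A00pp_022_s3

theorem t8846_A00pp_022_s3 : ∃ t, chk3 f_A00pp_022_s3 t 2366 978 267 = true := ex3_b t8845_A00pp_022_s3 t8844_A00pp_022_s3

theorem t8847_A00pp_022_s3 : ∃ t, chk3 f_A00pp_022_s3 t 2366 489 267 = true := ex3_b t8846_A00pp_022_s3 t8843_A00pp_022_s3

theorem t8848_A00pp_022_s3 : ∃ t, chk3 f_A00pp_022_s3 t 1183 489 267 = true := ex3_a t8847_A00pp_022_s3 k1575_A00pp_022_s3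

theorem t8849_A00pp_022_s3 : ∃ t, chk3 f_A00pp_022_s3 t 2367 979 266 = true := ex3_b k1566_A00pp_022_s3 k1567_A00pp_022_s3

theorem t8850_A00pp_022_s3 : ∃ t, chk3 f_A00pp_022_s3 t 1183 979 266 = true := ex3_a k1565_A00pp_022_s3 t8849_A00pp_022_s3

theorem t8851_A00pp_022_s3 : ∃ t, chk3 f_A00pp_022_s3 t 1183 489 266 = true := ex3_b k1564_A00pp_022_s3 t8850_A00pp_022_s3

theorem t8852_A00pp_022_s3 : ∃ t, chk3 f_A00pp_022_s3 t 1183 489 133 = true := ex3_c t8851_A00pp_022_s3 t8848_A00pp_022_s3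

theorem t8853_A00pp_022_s3 : ∃ t, chk3 f_A00pp_022_s3 t 591 489 133 = true := ex3_a k1563_A00pp_022_s3 t8852_A00pp_022_s3

theorem t8854_A00pp_022_s3 : ∃ t, chk3 f_A00pp_022_s3 t 591 489 66 = true := ex3_c k1562_A00pp_022_s3 t8853_A00pp_022_s3

theorem t8855_A00pp_022_s3 : ∃ t, chk3 f_A00pp_022_s3 t 295 489 66 = true := ex3_a k1561_A00pp_022_s3 t8854_A00pp_022_s3

theorem t8856_A00pp_022_s3 : ∃ t, chk3 f_A00pp_022_s3 t 295 489 33 = true := ex3_c t8855_A00pp_022_s3 t8841_A00pp_022_s3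

theorem t8857_A00pp_022_s3 : ∃ t, chk3 f_A00pp_022_s3 t 295 489 16 = true := ex3_c k1560_A00pp_022_s3 t8856_A00pp_022_s3

theorem t8858_A00pp_022_s3 : ∃ t, chk3 f_A00pp_022_s3 t 147 489 16 = true := ex3_a k1559_A00pp_022_s3 t8857_A00pp_022_s3

theorem t8859_A00pp_022_s3 : ∃ t, chk3 f_A00pp_022_s3 t 73 489 16 = true := ex3_a k1558_A00pp_022_s3 t8858_A00pp_022_s3

theorem t8860_A00pp_022_s3 : ∃ t, chk3 f_A00pp_022_s3 t 2364 3911 538 = true := ex3_a k1552_A00pp_022_s3 k1553_A00pp_022_s3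

theorem t8861_A00pp_022_s3 : ∃ t, chk3 f_A00pp_022_s3 t 1182 3911 538 = true := ex3_a t8860_A00pp_022_s3 k1554_A00pp_022_s3

theorem t8862_A00pp_022_s3 : ∃ t, chk3 f_A00pp_022_s3 t 1182 3911 269 = true := ex3_c t8861_A00pp_022_s3 k1555_A00pp_022_s3

theorem t8863_A00pp_022_s3 : ∃ t, chk3 f_A00pp_022_s3 t 1182 1955 269 = true := ex3_b k1551_A00pp_022_s3 t8862_A00pp_022_s3

theorem t8864_A00pp_022_s3 : ∃ t, chk3 f_A00pp_022_s3 t 1182 977 269 = true := ex3_b k1550_A00pp_022_s3 t8863_A00pp_022_s3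

theorem t8865_A00pp_022_s3 : ∃ t, chk3 f_A00pp_022_s3 t 2365 3910 536 = true := ex3_a k1546_A00pp_022_s3 k1547_A00pp_022_s3

theorem t8866_A00pp_022_s3 : ∃ t, chk3 f_A00pp_022_s3 t 2365 3910 268 = true := ex3_c t8865_A00pp_022_s3 k1548_A00pp_022_s3

theorem t8867_A00pp_022_s3 : ∃ t, chk3 f_A00pp_022_s3 t 1182 3910 268 = true := ex3_a k1545_A00pp_022_s3 t8866_A00pp_022_s3

theorem t8868_A00pp_022_s3 : ∃ t, chk3 f_A00pp_022_s3 t 1182 1955 268 = true := ex3_b t8867_A00pp_022_s3 k1549_A00pp_022_s3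

theorem t8869_A00pp_022_s3 : ∃ t, chk3 f_A00pp_022_s3 t 1182 977 268 = true := ex3_b k1544_A00pp_022_s3 t8868_A00pp_022_s3

theorem t8870_A00pp_022_s3 : ∃ t, chk3 f_A00pp_022_s3 t 1182 977 134 = true := ex3_c t8869_A00pp_022_s3 t8864_A00pp_022_s3

theorem t8871_A00pp_022_s3 : ∃ t, chk3 f_A00pp_022_s3 t 1182 488 134 = true := ex3_b k1543_A00pp_022_s3 t8870_A00pp_022_s3

theorem t8872_A00pp_022_s3 : ∃ t, chk3 f_A00pp_022_s3 t 591 488 134 = true := ex3_a t8871_A00pp_022_s3 k1556_A00pp_022_s3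

theorem t8873_A00pp_022_s3 : ∃ t, chk3 f_A00pp_022_s3 t 591 488 67 = true := ex3_c t8872_A00pp_022_s3 k1557_A00pp_022_s3

theorem t8874_A00pp_022_s3 : ∃ t, chk3 f_A00pp_022_s3 t 1181 1955 270 = true := ex3_a k1540_A00pp_022_s3 k1541_A00pp_022_s3

theorem t8875_A00pp_022_s3 : ∃ t, chk3 f_A00pp_022_s3 t 1181 977 270 = true := ex3_b k1539_A00pp_022_s3 t8874_A00pp_022_s3

theorem t8876_A00pp_022_s3 : ∃ t, chk3 f_A00pp_022_s3 t 1181 488 270 = true := ex3_b k1538_A00pp_022_s3 t8875_A00pp_022_s3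

theorem t8877_A00pp_022_s3 : ∃ t, chk3 f_A00pp_022_s3 t 1181 488 135 = true := ex3_c t8876_A00pp_022_s3 k1542_A00pp_022_s3

theorem t8878_A00pp_022_s3 : ∃ t, chk3 f_A00pp_022_s3 t 590 488 135 = true := ex3_a k1537_A00pp_022_s3 t8877_A00pp_022_s3

theorem t8879_A00pp_022_s3 : ∃ t, chk3 f_A00pp_022_s3 t 2363 1955 539 = true := ex3_a k1535_A00pp_022_s3 k1536_A00pp_022_s3

theorem t8880_A00pp_022_s3 : ∃ t, chk3 f_A00pp_022_s3 t 2363 1955 269 = true := ex3_c k1534_A00pp_022_s3 t8879_A00pp_022_s3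

theorem t8881_A00pp_022_s3 : ∃ t, chk3 f_A00pp_022_s3 t 1181 1955 269 = true := ex3_a k1533_A00pp_022_s3 t8880_A00pp_022_s3

theorem t8882_A00pp_022_s3 : ∃ t, chk3 f_A00pp_022_s3 t 1181 1955 134 = true := ex3_c k1532_A00pp_022_s3 t8881_A00pp_022_s3

theorem t8883_A00pp_022_s3 : ∃ t, chk3 f_A00pp_022_s3 t 590 1955 134 = true := ex3_a k1531_A00pp_022_s3 t8882_A00pp_022_s3

theorem t8884_A00pp_022_s3 : ∃ t, chk3 f_A00pp_022_s3 t 590 977 134 = true := ex3_b k1530_A00pp_022_s3 t8883_A00pp_022_s3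

theorem t8885_A00pp_022_s3 : ∃ t, chk3 f_A00pp_022_s3 t 590 488 134 = true := ex3_b k1529_A00pp_022_s3 t8884_A00pp_022_s3

theorem t8886_A00pp_022_s3 : ∃ t, chk3 f_A00pp_022_s3 t 590 488 67 = true := ex3_c t8885_A00pp_022_s3 t8878_A00pp_022_s3

theorem t8887_A00pp_022_s3 : ∃ t, chk3 f_A00pp_022_s3 t 295 488 67 = true := ex3_a t8886_A00pp_022_s3 t8873_A00pp_022_s3

theorem t8888_A00pp_022_s3 : ∃ t, chk3 f_A00pp_022_s3 t 2366 1955 267 = true := ex3_b k1526_A00pp_022_s3 k1527_A00pp_022_s3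

theorem t8889_A00pp_022_s3 : ∃ t, chk3 f_A00pp_022_s3 t 1183 1955 267 = true := ex3_a t8888_A00pp_022_s3 k1528_A00pp_022_s3

theorem t8890_A00pp_022_s3 : ∃ t, chk3 f_A00pp_022_s3 t 2366 1954 534 = true := ex3_a k1522_A00pp_022_s3 k1523_A00pp_022_s3

theorem t8891_A00pp_022_s3 : ∃ t, chk3 f_A00pp_022_s3 t 2366 1954 267 = true := ex3_c t8890_A00pp_022_s3 k1524_A00pp_022_s3

theorem t8892_A00pp_022_s3 : ∃ t, chk3 f_A00pp_022_s3 t 1183 1954 267 = true := ex3_a t8891_A00pp_022_s3 k1525_A00pp_022_s3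

theorem t8893_A00pp_022_s3 : ∃ t, chk3 f_A00pp_022_s3 t 1183 977 267 = true := ex3_b t8892_A00pp_022_s3 t8889_A00pp_022_s3

theorem t8894_A00pp_022_s3 : ∃ t, chk3 f_A00pp_022_s3 t 2367 3909 533 = true := ex3_a k1519_A00pp_022_s3 k1520_A00pp_022_s3

theorem t8895_A00pp_022_s3 : ∃ t, chk3 f_A00pp_022_s3 t 2367 1954 533 = true := ex3_b k1518_A00pp_022_s3 t8894_A00pp_022_s3

theorem t8896_A00pp_022_s3 : ∃ t, chk3 f_A00pp_022_s3 t 2367 1954 266 = true := ex3_c k1517_A00pp_022_s3 t8895_A00pp_022_s3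

theorem t8897_A00pp_022_s3 : ∃ t, chk3 f_A00pp_022_s3 t 1183 1954 266 = true := ex3_a k1516_A00pp_022_s3 t8896_A00pp_022_s3

theorem t8898_A00pp_022_s3 : ∃ t, chk3 f_A00pp_022_s3 t 1183 977 266 = true := ex3_b t8897_A00pp_022_s3 k1521_A00pp_022_s3

theorem t8899_A00pp_022_s3 : ∃ t, chk3 f_A00pp_022_s3 t 1183 977 133 = true := ex3_c t8898_A00pp_022_s3 t8893_A00pp_022_s3

theorem t8900_A00pp_022_s3 : ∃ t, chk3 f_A00pp_022_s3 t 591 977 133 = true := ex3_a k1515_A00pp_022_s3 t8899_A00pp_022_s3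

theorem t8901_A00pp_022_s3 : ∃ t, chk3 f_A00pp_022_s3 t 295 977 133 = true := ex3_a k1514_A00pp_022_s3 t8900_A00pp_022_s3

theorem t8902_A00pp_022_s3 : ∃ t, chk3 f_A00pp_022_s3 t 295 977 66 = true := ex3_c k1513_A00pp_022_s3 t8901_A00pp_022_s3

theorem t8903_A00pp_022_s3 : ∃ t, chk3 f_A00pp_022_s3 t 295 488 66 = true := ex3_b k1512_A00pp_022_s3 t8902_A00pp_022_s3

theorem t8904_A00pp_022_s3 : ∃ t, chk3 f_A00pp_022_s3 t 295 488 33 = true := ex3_c t8903_A00pp_022_s3 t8887_A00pp_022_s3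

theorem t8905_A00pp_022_s3 : ∃ t, chk3 f_A00pp_022_s3 t 147 488 33 = true := ex3_a k1511_A00pp_022_s3 t8904_A00pp_022_s3

theorem t8906_A00pp_022_s3 : ∃ t, chk3 f_A00pp_022_s3 t 73 488 33 = true := ex3_a k1510_A00pp_022_s3 t8905_A00pp_022_s3

theorem t8907_A00pp_022_s3 : ∃ t, chk3 f_A00pp_022_s3 t 147 488 32 = true := ex3_c k1508_A00pp_022_s3 k1509_A00pp_022_s3

theorem t8908_A00pp_022_s3 : ∃ t, chk3 f_A00pp_022_s3 t 73 488 32 = true := ex3_a k1507_A00pp_022_s3 t8907_A00pp_022_s3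

theorem t8909_A00pp_022_s3 : ∃ t, chk3 f_A00pp_022_s3 t 73 488 16 = true := ex3_c t8908_A00pp_022_s3 t8906_A00pp_022_s3

theorem t8910_A00pp_022_s3 : ∃ t, chk3 f_A00pp_022_s3 t 73 244 16 = true := ex3_b t8909_A00pp_022_s3 t8859_A00pp_022_s3

theorem t8911_A00pp_022_s3 : ∃ t, chk3 f_A00pp_022_s3 t 73 122 16 = true := ex3_b t8910_A00pp_022_s3 t8803_A00pp_022_s3

theorem t8912_A00pp_022_s3 : ∃ t, chk3 f_A00pp_022_s3 t 73 61 16 = true := ex3_b t8911_A00pp_022_s3 t8707_A00pp_022_s3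

theorem t8913_A00pp_022_s3 : ∃ t, chk3 f_A00pp_022_s3 t 73 61 8 = true := ex3_c t8912_A00pp_022_s3 t8693_A00pp_022_s3

theorem t8914_A00pp_022_s3 : ∃ t, chk3 f_A00pp_022_s3 t 73 61 4 = true := ex3_c t8913_A00pp_022_s3 t8025_A00pp_022_s3

theorem t8915_A00pp_022_s3 : ∃ t, chk3 f_A00pp_022_s3 t 2320 3953 305 = true := ex3_a k1495_A00pp_022_s3 k1496_A00pp_022_s3

theorem t8916_A00pp_022_s3 : ∃ t, chk3 f_A00pp_022_s3 t 2320 1976 305 = true := ex3_b k1494_A00pp_022_s3 t8915_A00pp_022_s3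

theorem t8917_A00pp_022_s3 : ∃ t, chk3 f_A00pp_022_s3 t 1160 1976 305 = true := ex3_a t8916_A00pp_022_s3 k1497_A00pp_022_s3

theorem t8918_A00pp_022_s3 : ∃ t, chk3 f_A00pp_022_s3 t 580 1976 305 = true := ex3_a t8917_A00pp_022_s3 k1498_A00pp_022_s3

theorem t8919_A00pp_022_s3 : ∃ t, chk3 f_A00pp_022_s3 t 290 1976 305 = true := ex3_a t8918_A00pp_022_s3 k1499_A00pp_022_s3

theorem t8920_A00pp_022_s3 : ∃ t, chk3 f_A00pp_022_s3 t 290 988 305 = true := ex3_b t8919_A00pp_022_s3 k1500_A00pp_022_s3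

theorem t8921_A00pp_022_s3 : ∃ t, chk3 f_A00pp_022_s3 t 2321 1976 304 = true := ex3_b k1489_A00pp_022_s3 k1490_A00pp_022_s3

theorem t8922_A00pp_022_s3 : ∃ t, chk3 f_A00pp_022_s3 t 1160 1976 304 = true := ex3_a k1488_A00pp_022_s3 t8921_A00pp_022_s3

theorem t8923_A00pp_022_s3 : ∃ t, chk3 f_A00pp_022_s3 t 1160 988 304 = true := ex3_b t8922_A00pp_022_s3 k1491_A00pp_022_s3

theorem t8924_A00pp_022_s3 : ∃ t, chk3 f_A00pp_022_s3 t 580 988 304 = true := ex3_a t8923_A00pp_022_s3 k1492_A00pp_022_s3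

theorem t8925_A00pp_022_s3 : ∃ t, chk3 f_A00pp_022_s3 t 290 988 304 = true := ex3_a t8924_A00pp_022_s3 k1493_A00pp_022_s3

theorem t8926_A00pp_022_s3 : ∃ t, chk3 f_A00pp_022_s3 t 290 988 152 = true := ex3_c t8925_A00pp_022_s3 t8920_A00pp_022_s3

theorem t8927_A00pp_022_s3 : ∃ t, chk3 f_A00pp_022_s3 t 290 988 76 = true := ex3_c t8926_A00pp_022_s3 k1501_A00pp_022_s3

theorem t8928_A00pp_022_s3 : ∃ t, chk3 f_A00pp_022_s3 t 290 988 38 = true := ex3_c t8927_A00pp_022_s3 k1502_A00pp_022_s3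

theorem t8929_A00pp_022_s3 : ∃ t, chk3 f_A00pp_022_s3 t 290 494 38 = true := ex3_b t8928_A00pp_022_s3 k1503_A00pp_022_s3

theorem t8930_A00pp_022_s3 : ∃ t, chk3 f_A00pp_022_s3 t 290 247 38 = true := ex3_b t8929_A00pp_022_s3 k1504_A00pp_022_s3

theorem t8931_A00pp_022_s3 : ∃ t, chk3 f_A00pp_022_s3 t 290 247 19 = true := ex3_c t8930_A00pp_022_s3 k1505_A00pp_022_s3

theorem t8932_A00pp_022_s3 : ∃ t, chk3 f_A00pp_022_s3 t 145 247 19 = true := ex3_a t8931_A00pp_022_s3 k1506_A00pp_022_s3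

theorem t8933_A00pp_022_s3 : ∃ t, chk3 f_A00pp_022_s3 t 583 986 159 = true := ex3_a k1485_A00pp_022_s3 k1486_A00pp_022_s3

theorem t8934_A00pp_022_s3 : ∃ t, chk3 f_A00pp_022_s3 t 583 986 79 = true := ex3_c k1484_A00pp_022_s3 t8933_A00pp_022_s3

theorem t8935_A00pp_022_s3 : ∃ t, chk3 f_A00pp_022_s3 t 291 986 79 = true := ex3_a k1483_A00pp_022_s3 t8934_A00pp_022_s3

theorem t8936_A00pp_022_s3 : ∃ t, chk3 f_A00pp_022_s3 t 291 986 39 = true := ex3_c k1482_A00pp_022_s3 t8935_A00pp_022_s3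

theorem t8937_A00pp_022_s3 : ∃ t, chk3 f_A00pp_022_s3 t 291 493 39 = true := ex3_b t8936_A00pp_022_s3 k1487_A00pp_022_s3

theorem t8938_A00pp_022_s3 : ∃ t, chk3 f_A00pp_022_s3 t 290 493 39 = true := ex3_b k1480_A00pp_022_s3 k1481_A00pp_022_s3

theorem t8939_A00pp_022_s3 : ∃ t, chk3 f_A00pp_022_s3 t 145 493 39 = true := ex3_a t8938_A00pp_022_s3 t8937_A00pp_022_s3

theorem t8940_A00pp_022_s3 : ∃ t, chk3 f_A00pp_022_s3 t 291 492 39 = true := ex3_b k1478_A00pp_022_s3 k1479_A00pp_022_s3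

theorem t8941_A00pp_022_s3 : ∃ t, chk3 f_A00pp_022_s3 t 1160 492 78 = true := ex3_c k1473_A00pp_022_s3 k1474_A00pp_022_s3

theorem t8942_A00pp_022_s3 : ∃ t, chk3 f_A00pp_022_s3 t 580 492 78 = true := ex3_a t8941_A00pp_022_s3 k1475_A00pp_022_s3

theorem t8943_A00pp_022_s3 : ∃ t, chk3 f_A00pp_022_s3 t 290 492 78 = true := ex3_a t8942_A00pp_022_s3 k1476_A00pp_022_s3

theorem t8944_A00pp_022_s3 : ∃ t, chk3 f_A00pp_022_s3 t 290 492 39 = true := ex3_c t8943_A00pp_022_s3 k1477_A00pp_022_s3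

theorem t8945_A00pp_022_s3 : ∃ t, chk3 f_A00pp_022_s3 t 145 492 39 = true := ex3_a t8944_A00pp_022_s3 t8940_A00pp_022_s3

theorem t8946_A00pp_022_s3 : ∃ t, chk3 f_A00pp_022_s3 t 145 246 39 = true := ex3_b t8945_A00pp_022_s3 t8939_A00pp_022_s3

theorem t8947_A00pp_022_s3 : ∃ t, chk3 f_A00pp_022_s3 t 582 984 152 = true := ex3_a k1466_A00pp_022_s3 k1467_A00pp_022_s3

theorem t8948_A00pp_022_s3 : ∃ t, chk3 f_A00pp_022_s3 t 582 984 76 = true := ex3_c t8947_A00pp_022_s3 k1468_A00pp_022_s3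

theorem t8949_A00pp_022_s3 : ∃ t, chk3 f_A00pp_022_s3 t 582 492 76 = true := ex3_b t8948_A00pp_022_s3 k1469_A00pp_022_s3

theorem t8950_A00pp_022_s3 : ∃ t, chk3 f_A00pp_022_s3 t 582 492 38 = true := ex3_c t8949_A00pp_022_s3 k1470_A00pp_022_s3

theorem t8951_A00pp_022_s3 : ∃ t, chk3 f_A00pp_022_s3 t 291 492 38 = true := ex3_a t8950_A00pp_022_s3 k1471_A00pp_022_s3

theorem t8952_A00pp_022_s3 : ∃ t, chk3 f_A00pp_022_s3 t 291 246 38 = true := ex3_b t8951_A00pp_022_s3 k1472_A00pp_022_s3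

theorem t8953_A00pp_022_s3 : ∃ t, chk3 f_A00pp_022_s3 t 1162 1973 152 = true := ex3_a k1460_A00pp_022_s3 k1461_A00pp_022_s3

theorem t8954_A00pp_022_s3 : ∃ t, chk3 f_A00pp_022_s3 t 1162 986 152 = true := ex3_b k1459_A00pp_022_s3 t8953_A00pp_022_s3

theorem t8955_A00pp_022_s3 : ∃ t, chk3 f_A00pp_022_s3 t 1162 986 76 = true := ex3_c t8954_A00pp_022_s3 k1462_A00pp_022_s3

theorem t8956_A00pp_022_s3 : ∃ t, chk3 f_A00pp_022_s3 t 581 986 76 = true := ex3_a t8955_A00pp_022_s3 k1463_A00pp_022_s3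

theorem t8957_A00pp_022_s3 : ∃ t, chk3 f_A00pp_022_s3 t 581 986 38 = true := ex3_c t8956_A00pp_022_s3 k1464_A00pp_022_s3

theorem t8958_A00pp_022_s3 : ∃ t, chk3 f_A00pp_022_s3 t 581 493 38 = true := ex3_b t8957_A00pp_022_s3 k1465_A00pp_022_s3

theorem t8959_A00pp_022_s3 : ∃ t, chk3 f_A00pp_022_s3 t 1160 986 154 = true := ex3_b k1454_A00pp_022_s3 k1455_A00pp_022_s3

theorem t8960_A00pp_022_s3 : ∃ t, chk3 f_A00pp_022_s3 t 1160 986 77 = true := ex3_c t8959_A00pp_022_s3 k1456_A00pp_022_s3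

theorem t8961_A00pp_022_s3 : ∃ t, chk3 f_A00pp_022_s3 t 580 986 77 = true := ex3_a t8960_A00pp_022_s3 k1457_A00pp_022_s3

theorem t8962_A00pp_022_s3 : ∃ t, chk3 f_A00pp_022_s3 t 580 493 77 = true := ex3_b t8961_A00pp_022_s3 k1458_A00pp_022_s3

theorem t8963_A00pp_022_s3 : ∃ t, chk3 f_A00pp_022_s3 t 2322 1975 304 = true := ex3_b k1449_A00pp_022_s3 k1450_A00pp_022_s3

theorem t8964_A00pp_022_s3 : ∃ t, chk3 f_A00pp_022_s3 t 2322 1975 152 = true := ex3_c t8963_A00pp_022_s3 k1451_A00pp_022_s3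

theorem t8965_A00pp_022_s3 : ∃ t, chk3 f_A00pp_022_s3 t 1161 1975 152 = true := ex3_a t8964_A00pp_022_s3 k1452_A00pp_022_s3

theorem t8966_A00pp_022_s3 : ∃ t, chk3 f_A00pp_022_s3 t 2323 1974 152 = true := ex3_c k1447_A00pp_022_s3 k1448_A00pp_022_s3

theorem t8967_A00pp_022_s3 : ∃ t, chk3 f_A00pp_022_s3 t 1161 1974 152 = true := ex3_a k1446_A00pp_022_s3 t8966_A00pp_022_s3

theorem t8968_A00pp_022_s3 : ∃ t, chk3 f_A00pp_022_s3 t 1161 987 152 = true := ex3_b t8967_A00pp_022_s3 t8965_A00pp_022_s3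

theorem t8969_A00pp_022_s3 : ∃ t, chk3 f_A00pp_022_s3 t 1161 987 76 = true := ex3_c t8968_A00pp_022_s3 k1453_A00pp_022_s3

theorem t8970_A00pp_022_s3 : ∃ t, chk3 f_A00pp_022_s3 t 2320 1975 153 = true := ex3_c k1443_A00pp_022_s3 k1444_A00pp_022_s3

theorem t8971_A00pp_022_s3 : ∃ t, chk3 f_A00pp_022_s3 t 1160 1975 153 = true := ex3_a t8970_A00pp_022_s3 k1445_A00pp_022_s3

theorem t8972_A00pp_022_s3 : ∃ t, chk3 f_A00pp_022_s3 t 1160 1974 153 = true := ex3_a k1441_A00pp_022_s3 k1442_A00pp_022_s3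

theorem t8973_A00pp_022_s3 : ∃ t, chk3 f_A00pp_022_s3 t 1160 987 153 = true := ex3_b t8972_A00pp_022_s3 t8971_A00pp_022_s3

theorem t8974_A00pp_022_s3 : ∃ t, chk3 f_A00pp_022_s3 t 2321 1975 152 = true := ex3_c k1439_A00pp_022_s3 k1440_A00pp_022_s3

theorem t8975_A00pp_022_s3 : ∃ t, chk3 f_A00pp_022_s3 t 1160 1975 152 = true := ex3_a k1438_A00pp_022_s3 t8974_A00pp_022_s3

theorem t8976_A00pp_022_s3 : ∃ t, chk3 f_A00pp_022_s3 t 1160 987 152 = true := ex3_b k1437_A00pp_022_s3 t8975_A00pp_022_s3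

theorem t8977_A00pp_022_s3 : ∃ t, chk3 f_A00pp_022_s3 t 1160 987 76 = true := ex3_c t8976_A00pp_022_s3 t8973_A00pp_022_s3

theorem t8978_A00pp_022_s3 : ∃ t, chk3 f_A00pp_022_s3 t 580 987 76 = true := ex3_a t8977_A00pp_022_s3 t8969_A00pp_022_s3

theorem t8979_A00pp_022_s3 : ∃ t, chk3 f_A00pp_022_s3 t 1161 1973 153 = true := ex3_a k1435_A00pp_022_s3 k1436_A00pp_022_s3

theorem t8980_A00pp_022_s3 : ∃ t, chk3 f_A00pp_022_s3 t 1161 986 153 = true := ex3_b k1434_A00pp_022_s3 t8979_A00pp_022_s3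

theorem t8981_A00pp_022_s3 : ∃ t, chk3 f_A00pp_022_s3 t 1161 986 76 = true := ex3_c k1433_A00pp_022_s3 t8980_A00pp_022_s3

theorem t8982_A00pp_022_s3 : ∃ t, chk3 f_A00pp_022_s3 t 580 986 76 = true := ex3_a k1432_A00pp_022_s3 t8981_A00pp_022_s3

theorem t8983_A00pp_022_s3 : ∃ t, chk3 f_A00pp_022_s3 t 580 493 76 = true := ex3_b t8982_A00pp_022_s3 t8978_A00pp_022_s3

theorem t8984_A00pp_022_s3 : ∃ t, chk3 f_A00pp_022_s3 t 580 493 38 = true := ex3_c t8983_A00pp_022_s3 t8962_A00pp_022_s3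

theorem t8985_A00pp_022_s3 : ∃ t, chk3 f_A00pp_022_s3 t 290 493 38 = true := ex3_a t8984_A00pp_022_s3 t8958_A00pp_022_s3

theorem t8986_A00pp_022_s3 : ∃ t, chk3 f_A00pp_022_s3 t 581 984 77 = true := ex3_c k1429_A00pp_022_s3 k1430_A00pp_022_s3

theorem t8987_A00pp_022_s3 : ∃ t, chk3 f_A00pp_022_s3 t 581 492 77 = true := ex3_b t8986_A00pp_022_s3 k1431_A00pp_022_s3

theorem t8988_A00pp_022_s3 : ∃ t, chk3 f_A00pp_022_s3 t 580 492 155 = true := ex3_a k1427_A00pp_022_s3 k1428_A00pp_022_s3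

theorem t8989_A00pp_022_s3 : ∃ t, chk3 f_A00pp_022_s3 t 580 492 77 = true := ex3_c k1426_A00pp_022_s3 t8988_A00pp_022_s3

theorem t8990_A00pp_022_s3 : ∃ t, chk3 f_A00pp_022_s3 t 290 492 77 = true := ex3_a t8989_A00pp_022_s3 t8987_A00pp_022_s3

theorem t8991_A00pp_022_s3 : ∃ t, chk3 f_A00pp_022_s3 t 1163 985 76 = true := ex3_c k1424_A00pp_022_s3 k1425_A00pp_022_s3

theorem t8992_A00pp_022_s3 : ∃ t, chk3 f_A00pp_022_s3 t 581 985 76 = true := ex3_a k1423_A00pp_022_s3 t8991_A00pp_022_s3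

theorem t8993_A00pp_022_s3 : ∃ t, chk3 f_A00pp_022_s3 t 581 492 76 = true := ex3_b k1422_A00pp_022_s3 t8992_A00pp_022_s3

theorem t8994_A00pp_022_s3 : ∃ t, chk3 f_A00pp_022_s3 t 290 492 76 = true := ex3_a k1421_A00pp_022_s3 t8993_A00pp_022_s3

theorem t8995_A00pp_022_s3 : ∃ t, chk3 f_A00pp_022_s3 t 290 492 38 = true := ex3_c t8994_A00pp_022_s3 t8990_A00pp_022_s3

theorem t8996_A00pp_022_s3 : ∃ t, chk3 f_A00pp_022_s3 t 290 246 38 = true := ex3_b t8995_A00pp_022_s3 t8985_A00pp_022_s3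

theorem t8997_A00pp_022_s3 : ∃ t, chk3 f_A00pp_022_s3 t 145 246 38 = true := ex3_a t8996_A00pp_022_s3 t8952_A00pp_022_s3

theorem t8998_A00pp_022_s3 : ∃ t, chk3 f_A00pp_022_s3 t 145 246 19 = true := ex3_c t8997_A00pp_022_s3 t8946_A00pp_022_s3

theorem t8999_A00pp_022_s3 : ∃ t, chk3 f_A00pp_022_s3 t 145 123 19 = true := ex3_b t8998_A00pp_022_s3 t8932_A00pp_022_s3

theorem t9000_A00pp_022_s3 : ∃ t, chk3 f_A00pp_022_s3 t 2320 1976 303 = true := ex3_c k1412_A00pp_022_s3 k1413_A00pp_022_s3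

theorem t9001_A00pp_022_s3 : ∃ t, chk3 f_A00pp_022_s3 t 1160 1976 303 = true := ex3_a t9000_A00pp_022_s3 k1414_A00pp_022_s3

theorem t9002_A00pp_022_s3 : ∃ t, chk3 f_A00pp_022_s3 t 1160 988 303 = true := ex3_b t9001_A00pp_022_s3 k1415_A00pp_022_s3

theorem t9003_A00pp_022_s3 : ∃ t, chk3 f_A00pp_022_s3 t 580 988 303 = true := ex3_a t9002_A00pp_022_s3 k1416_A00pp_022_s3

theorem t9004_A00pp_022_s3 : ∃ t, chk3 f_A00pp_022_s3 t 290 988 303 = true := ex3_a t9003_A00pp_022_s3 k1417_A00pp_022_s3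

theorem t9005_A00pp_022_s3 : ∃ t, chk3 f_A00pp_022_s3 t 580 988 605 = true := ex3_a k1409_A00pp_022_s3 k1410_A00pp_022_s3

theorem t9006_A00pp_022_s3 : ∃ t, chk3 f_A00pp_022_s3 t 290 988 605 = true := ex3_a t9005_A00pp_022_s3 k1411_A00pp_022_s3

theorem t9007_A00pp_022_s3 : ∃ t, chk3 f_A00pp_022_s3 t 290 988 302 = true := ex3_c k1408_A00pp_022_s3 t9006_A00pp_022_s3

theorem t9008_A00pp_022_s3 : ∃ t, chk3 f_A00pp_022_s3 t 290 988 151 = true := ex3_c t9007_A00pp_022_s3 t9004_A00pp_022_s3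

theorem t9009_A00pp_022_s3 : ∃ t, chk3 f_A00pp_022_s3 t 580 988 150 = true := ex3_b k1405_A00pp_022_s3 k1406_A00pp_022_s3

theorem t9010_A00pp_022_s3 : ∃ t, chk3 f_A00pp_022_s3 t 290 988 150 = true := ex3_a t9009_A00pp_022_s3 k1407_A00pp_022_s3

theorem t9011_A00pp_022_s3 : ∃ t, chk3 f_A00pp_022_s3 t 290 988 75 = true := ex3_c t9010_A00pp_022_s3 t9008_A00pp_022_s3

theorem t9012_A00pp_022_s3 : ∃ t, chk3 f_A00pp_022_s3 t 290 988 37 = true := ex3_c k1404_A00pp_022_s3 t9011_A00pp_022_s3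

theorem t9013_A00pp_022_s3 : ∃ t, chk3 f_A00pp_022_s3 t 290 988 18 = true := ex3_c k1403_A00pp_022_s3 t9012_A00pp_022_s3

theorem t9014_A00pp_022_s3 : ∃ t, chk3 f_A00pp_022_s3 t 290 494 18 = true := ex3_b t9013_A00pp_022_s3 k1418_A00pp_022_s3

theorem t9015_A00pp_022_s3 : ∃ t, chk3 f_A00pp_022_s3 t 290 247 18 = true := ex3_b t9014_A00pp_022_s3 k1419_A00pp_022_s3

theorem t9016_A00pp_022_s3 : ∃ t, chk3 f_A00pp_022_s3 t 145 247 18 = true := ex3_a t9015_A00pp_022_s3 k1420_A00pp_022_s3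

theorem t9017_A00pp_022_s3 : ∃ t, chk3 f_A00pp_022_s3 t 2332 1973 296 = true := ex3_b k1395_A00pp_022_s3 k1396_A00pp_022_s3

theorem t9018_A00pp_022_s3 : ∃ t, chk3 f_A00pp_022_s3 t 2332 1973 148 = true := ex3_c t9017_A00pp_022_s3 k1397_A00pp_022_s3

theorem t9019_A00pp_022_s3 : ∃ t, chk3 f_A00pp_022_s3 t 1166 1973 148 = true := ex3_a t9018_A00pp_022_s3 k1398_A00pp_022_s3

theorem t9020_A00pp_022_s3 : ∃ t, chk3 f_A00pp_022_s3 t 2333 1972 296 = true := ex3_b k1392_A00pp_022_s3 k1393_A00pp_022_s3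

theorem t9021_A00pp_022_s3 : ∃ t, chk3 f_A00pp_022_s3 t 2333 1972 148 = true := ex3_c t9020_A00pp_022_s3 k1394_A00pp_022_s3

theorem t9022_A00pp_022_s3 : ∃ t, chk3 f_A00pp_022_s3 t 2332 1972 148 = true := ex3_c k1390_A00pp_022_s3 k1391_A00pp_022_s3

theorem t9023_A00pp_022_s3 : ∃ t, chk3 f_A00pp_022_s3 t 1166 1972 148 = true := ex3_a t9022_A00pp_022_s3 t9021_A00pp_022_s3

theorem t9024_A00pp_022_s3 : ∃ t, chk3 f_A00pp_022_s3 t 1166 986 148 = true := ex3_b t9023_A00pp_022_s3 t9019_A00pp_022_s3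

theorem t9025_A00pp_022_s3 : ∃ t, chk3 f_A00pp_022_s3 t 1166 986 74 = true := ex3_c t9024_A00pp_022_s3 k1399_A00pp_022_s3

theorem t9026_A00pp_022_s3 : ∃ t, chk3 f_A00pp_022_s3 t 583 986 74 = true := ex3_a t9025_A00pp_022_s3 k1400_A00pp_022_s3

theorem t9027_A00pp_022_s3 : ∃ t, chk3 f_A00pp_022_s3 t 583 493 74 = true := ex3_b t9026_A00pp_022_s3 k1401_A00pp_022_s3

theorem t9028_A00pp_022_s3 : ∃ t, chk3 f_A00pp_022_s3 t 583 493 37 = true := ex3_c t9027_A00pp_022_s3 k1402_A00pp_022_s3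

theorem t9029_A00pp_022_s3 : ∃ t, chk3 f_A00pp_022_s3 t 2328 1973 150 = true := ex3_c k1384_A00pp_022_s3 k1385_A00pp_022_s3

theorem t9030_A00pp_022_s3 : ∃ t, chk3 f_A00pp_022_s3 t 1164 1973 150 = true := ex3_a t9029_A00pp_022_s3 k1386_A00pp_022_s3

theorem t9031_A00pp_022_s3 : ∃ t, chk3 f_A00pp_022_s3 t 1164 1972 150 = true := ex3_a k1382_A00pp_022_s3 k1383_A00pp_022_s3

theorem t9032_A00pp_022_s3 : ∃ t, chk3 f_A00pp_022_s3 t 1164 986 150 = true := ex3_b t9031_A00pp_022_s3 t9030_A00pp_022_s3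

theorem t9033_A00pp_022_s3 : ∃ t, chk3 f_A00pp_022_s3 t 1164 986 75 = true := ex3_c t9032_A00pp_022_s3 k1387_A00pp_022_s3

theorem t9034_A00pp_022_s3 : ∃ t, chk3 f_A00pp_022_s3 t 582 986 75 = true := ex3_a t9033_A00pp_022_s3 k1388_A00pp_022_s3

theorem t9035_A00pp_022_s3 : ∃ t, chk3 f_A00pp_022_s3 t 582 493 75 = true := ex3_b t9034_A00pp_022_s3 k1389_A00pp_022_s3

theorem t9036_A00pp_022_s3 : ∃ t, chk3 f_A00pp_022_s3 t 2329 1974 149 = true := ex3_c k1378_A00pp_022_s3 k1379_A00pp_022_s3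

theorem t9037_A00pp_022_s3 : ∃ t, chk3 f_A00pp_022_s3 t 2328 1974 299 = true := ex3_b k1376_A00pp_022_s3 k1377_A00pp_022_s3

theorem t9038_A00pp_022_s3 : ∃ t, chk3 f_A00pp_022_s3 t 2328 1974 149 = true := ex3_c k1375_A00pp_022_s3 t9037_A00pp_022_s3

theorem t9039_A00pp_022_s3 : ∃ t, chk3 f_A00pp_022_s3 t 1164 1974 149 = true := ex3_a t9038_A00pp_022_s3 t9036_A00pp_022_s3

theorem t9040_A00pp_022_s3 : ∃ t, chk3 f_A00pp_022_s3 t 2328 1974 148 = true := ex3_c k1372_A00pp_022_s3 k1373_A00pp_022_s3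

theorem t9041_A00pp_022_s3 : ∃ t, chk3 f_A00pp_022_s3 t 1164 1974 148 = true := ex3_a t9040_A00pp_022_s3 k1374_A00pp_022_s3

theorem t9042_A00pp_022_s3 : ∃ t, chk3 f_A00pp_022_s3 t 1164 1974 74 = true := ex3_c t9041_A00pp_022_s3 t9039_A00pp_022_s3

theorem t9043_A00pp_022_s3 : ∃ t, chk3 f_A00pp_022_s3 t 1164 987 74 = true := ex3_b t9042_A00pp_022_s3 k1380_A00pp_022_s3

theorem t9044_A00pp_022_s3 : ∃ t, chk3 f_A00pp_022_s3 t 582 987 74 = true := ex3_a t9043_A00pp_022_s3 k1381_A00pp_022_s3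

theorem t9045_A00pp_022_s3 : ∃ t, chk3 f_A00pp_022_s3 t 2330 1973 298 = true := ex3_b k1368_A00pp_022_s3 k1369_A00pp_022_s3

theorem t9046_A00pp_022_s3 : ∃ t, chk3 f_A00pp_022_s3 t 2330 1973 149 = true := ex3_c t9045_A00pp_022_s3 k1370_A00pp_022_s3

theorem t9047_A00pp_022_s3 : ∃ t, chk3 f_A00pp_022_s3 t 1165 1973 149 = true := ex3_a t9046_A00pp_022_s3 k1371_A00pp_022_s3

theorem t9048_A00pp_022_s3 : ∃ t, chk3 f_A00pp_022_s3 t 2331 1972 149 = true := ex3_c k1366_A00pp_022_s3 k1367_A00pp_022_s3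

theorem t9049_A00pp_022_s3 : ∃ t, chk3 f_A00pp_022_s3 t 1165 1972 149 = true := ex3_a k1365_A00pp_022_s3 t9048_A00pp_022_s3

theorem t9050_A00pp_022_s3 : ∃ t, chk3 f_A00pp_022_s3 t 1165 986 149 = true := ex3_b t9049_A00pp_022_s3 t9047_A00pp_022_s3

theorem t9051_A00pp_022_s3 : ∃ t, chk3 f_A00pp_022_s3 t 2331 1973 297 = true := ex3_b k1363_A00pp_022_s3 k1364_A00pp_022_s3

theorem t9052_A00pp_022_s3 : ∃ t, chk3 f_A00pp_022_s3 t 2331 1973 148 = true := ex3_c k1362_A00pp_022_s3 t9051_A00pp_022_s3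

theorem t9053_A00pp_022_s3 : ∃ t, chk3 f_A00pp_022_s3 t 1165 1973 148 = true := ex3_a k1361_A00pp_022_s3 t9052_A00pp_022_s3

theorem t9054_A00pp_022_s3 : ∃ t, chk3 f_A00pp_022_s3 t 1165 986 148 = true := ex3_b k1360_A00pp_022_s3 t9053_A00pp_022_s3

theorem t9055_A00pp_022_s3 : ∃ t, chk3 f_A00pp_022_s3 t 1165 986 74 = true := ex3_c t9054_A00pp_022_s3 t9050_A00pp_022_s3

theorem t9056_A00pp_022_s3 : ∃ t, chk3 f_A00pp_022_s3 t 2329 1973 299 = true := ex3_b k1358_A00pp_022_s3 k1359_A00pp_022_s3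

theorem t9057_A00pp_022_s3 : ∃ t, chk3 f_A00pp_022_s3 t 2329 1973 149 = true := ex3_c k1357_A00pp_022_s3 t9056_A00pp_022_s3

theorem t9058_A00pp_022_s3 : ∃ t, chk3 f_A00pp_022_s3 t 1164 1973 149 = true := ex3_a k1356_A00pp_022_s3 t9057_A00pp_022_s3

theorem t9059_A00pp_022_s3 : ∃ t, chk3 f_A00pp_022_s3 t 1164 1973 296 = true := ex3_a k1353_A00pp_022_s3 k1354_A00pp_022_s3

theorem t9060_A00pp_022_s3 : ∃ t, chk3 f_A00pp_022_s3 t 1164 1973 148 = true := ex3_c t9059_A00pp_022_s3 k1355_A00pp_022_s3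

theorem t9061_A00pp_022_s3 : ∃ t, chk3 f_A00pp_022_s3 t 1164 1973 74 = true := ex3_c t9060_A00pp_022_s3 t9058_A00pp_022_s3

theorem t9062_A00pp_022_s3 : ∃ t, chk3 f_A00pp_022_s3 t 1164 1972 296 = true := ex3_a k1349_A00pp_022_s3 k1350_A00pp_022_s3

theorem t9063_A00pp_022_s3 : ∃ t, chk3 f_A00pp_022_s3 t 1164 1972 148 = true := ex3_c t9062_A00pp_022_s3 k1351_A00pp_022_s3

theorem t9064_A00pp_022_s3 : ∃ t, chk3 f_A00pp_022_s3 t 1164 1972 74 = true := ex3_c t9063_A00pp_022_s3 k1352_A00pp_022_s3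

theorem t9065_A00pp_022_s3 : ∃ t, chk3 f_A00pp_022_s3 t 1164 986 74 = true := ex3_b t9064_A00pp_022_s3 t9061_A00pp_022_s3

theorem t9066_A00pp_022_s3 : ∃ t, chk3 f_A00pp_022_s3 t 582 986 74 = true := ex3_a t9065_A00pp_022_s3 t9055_A00pp_022_s3

theorem t9067_A00pp_022_s3 : ∃ t, chk3 f_A00pp_022_s3 t 582 493 74 = true := ex3_b t9066_A00pp_022_s3 t9044_A00pp_022_s3

theorem t9068_A00pp_022_s3 : ∃ t, chk3 f_A00pp_022_s3 t 582 493 37 = true := ex3_c t9067_A00pp_022_s3 t9035_A00pp_022_s3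

theorem t9069_A00pp_022_s3 : ∃ t, chk3 f_A00pp_022_s3 t 291 493 37 = true := ex3_a t9068_A00pp_022_s3 t9028_A00pp_022_s3

theorem t9070_A00pp_022_s3 : ∃ t, chk3 f_A00pp_022_s3 t 2327 1974 300 = true := ex3_b k1344_A00pp_022_s3 k1345_A00pp_022_s3

theorem t9071_A00pp_022_s3 : ∃ t, chk3 f_A00pp_022_s3 t 2327 1974 150 = true := ex3_c t9070_A00pp_022_s3 k1346_A00pp_022_s3

theorem t9072_A00pp_022_s3 : ∃ t, chk3 f_A00pp_022_s3 t 2326 1974 301 = true := ex3_b k1342_A00pp_022_s3 k1343_A00pp_022_s3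

theorem t9073_A00pp_022_s3 : ∃ t, chk3 f_A00pp_022_s3 t 2326 1974 150 = true := ex3_c k1341_A00pp_022_s3 t9072_A00pp_022_s3

theorem t9074_A00pp_022_s3 : ∃ t, chk3 f_A00pp_022_s3 t 1163 1974 150 = true := ex3_a t9073_A00pp_022_s3 t9071_A00pp_022_s3

theorem t9075_A00pp_022_s3 : ∃ t, chk3 f_A00pp_022_s3 t 1163 1974 75 = true := ex3_c t9074_A00pp_022_s3 k1347_A00pp_022_s3

theorem t9076_A00pp_022_s3 : ∃ t, chk3 f_A00pp_022_s3 t 1163 987 75 = true := ex3_b t9075_A00pp_022_s3 k1348_A00pp_022_s3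

theorem t9077_A00pp_022_s3 : ∃ t, chk3 f_A00pp_022_s3 t 2324 1975 302 = true := ex3_b k1337_A00pp_022_s3 k1338_A00pp_022_s3

theorem t9078_A00pp_022_s3 : ∃ t, chk3 f_A00pp_022_s3 t 2324 1975 151 = true := ex3_c t9077_A00pp_022_s3 k1339_A00pp_022_s3

theorem t9079_A00pp_022_s3 : ∃ t, chk3 f_A00pp_022_s3 t 1162 1975 151 = true := ex3_a t9078_A00pp_022_s3 k1340_A00pp_022_s3

theorem t9080_A00pp_022_s3 : ∃ t, chk3 f_A00pp_022_s3 t 2325 1975 301 = true := ex3_b k1335_A00pp_022_s3 k1336_A00pp_022_s3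

theorem t9081_A00pp_022_s3 : ∃ t, chk3 f_A00pp_022_s3 t 2325 1975 150 = true := ex3_c k1334_A00pp_022_s3 t9080_A00pp_022_s3

theorem t9082_A00pp_022_s3 : ∃ t, chk3 f_A00pp_022_s3 t 2324 1975 150 = true := ex3_b k1332_A00pp_022_s3 k1333_A00pp_022_s3

theorem t9083_A00pp_022_s3 : ∃ t, chk3 f_A00pp_022_s3 t 1162 1975 150 = true := ex3_a t9082_A00pp_022_s3 t9081_A00pp_022_s3

theorem t9084_A00pp_022_s3 : ∃ t, chk3 f_A00pp_022_s3 t 1162 1975 75 = true := ex3_c t9083_A00pp_022_s3 t9079_A00pp_022_s3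

theorem t9085_A00pp_022_s3 : ∃ t, chk3 f_A00pp_022_s3 t 2325 1974 302 = true := ex3_b k1329_A00pp_022_s3 k1330_A00pp_022_s3

theorem t9086_A00pp_022_s3 : ∃ t, chk3 f_A00pp_022_s3 t 2325 1974 151 = true := ex3_c t9085_A00pp_022_s3 k1331_A00pp_022_s3

theorem t9087_A00pp_022_s3 : ∃ t, chk3 f_A00pp_022_s3 t 1162 1974 151 = true := ex3_a k1328_A00pp_022_s3 t9086_A00pp_022_s3

theorem t9088_A00pp_022_s3 : ∃ t, chk3 f_A00pp_022_s3 t 1162 1974 150 = true := ex3_a k1326_A00pp_022_s3 k1327_A00pp_022_s3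

theorem t9089_A00pp_022_s3 : ∃ t, chk3 f_A00pp_022_s3 t 1162 1974 75 = true := ex3_c t9088_A00pp_022_s3 t9087_A00pp_022_s3

theorem t9090_A00pp_022_s3 : ∃ t, chk3 f_A00pp_022_s3 t 1162 987 75 = true := ex3_b t9089_A00pp_022_s3 t9084_A00pp_022_s3

theorem t9091_A00pp_022_s3 : ∃ t, chk3 f_A00pp_022_s3 t 581 987 75 = true := ex3_a t9090_A00pp_022_s3 t9076_A00pp_022_s3

theorem t9092_A00pp_022_s3 : ∃ t, chk3 f_A00pp_022_s3 t 1162 1975 74 = true := ex3_b k1323_A00pp_022_s3 k1324_A00pp_022_s3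

theorem t9093_A00pp_022_s3 : ∃ t, chk3 f_A00pp_022_s3 t 581 1975 74 = true := ex3_a t9092_A00pp_022_s3 k1325_A00pp_022_s3

theorem t9094_A00pp_022_s3 : ∃ t, chk3 f_A00pp_022_s3 t 2326 1974 298 = true := ex3_c k1319_A00pp_022_s3 k1320_A00pp_022_s3

theorem t9095_A00pp_022_s3 : ∃ t, chk3 f_A00pp_022_s3 t 2326 1974 149 = true := ex3_c t9094_A00pp_022_s3 k1321_A00pp_022_s3

theorem t9096_A00pp_022_s3 : ∃ t, chk3 f_A00pp_022_s3 t 1163 1974 149 = true := ex3_a t9095_A00pp_022_s3 k1322_A00pp_022_s3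

theorem t9097_A00pp_022_s3 : ∃ t, chk3 f_A00pp_022_s3 t 1163 1974 297 = true := ex3_a k1317_A00pp_022_s3 k1318_A00pp_022_s3

theorem t9098_A00pp_022_s3 : ∃ t, chk3 f_A00pp_022_s3 t 1163 1974 148 = true := ex3_c k1316_A00pp_022_s3 t9097_A00pp_022_s3

theorem t9099_A00pp_022_s3 : ∃ t, chk3 f_A00pp_022_s3 t 1163 1974 74 = true := ex3_c t9098_A00pp_022_s3 t9096_A00pp_022_s3

theorem t9100_A00pp_022_s3 : ∃ t, chk3 f_A00pp_022_s3 t 2325 1974 299 = true := ex3_c k1314_A00pp_022_s3 k1315_A00pp_022_s3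

theorem t9101_A00pp_022_s3 : ∃ t, chk3 f_A00pp_022_s3 t 1162 1974 299 = true := ex3_a k1313_A00pp_022_s3 t9100_A00pp_022_s3

theorem t9102_A00pp_022_s3 : ∃ t, chk3 f_A00pp_022_s3 t 1162 1974 149 = true := ex3_c k1312_A00pp_022_s3 t9101_A00pp_022_s3

theorem t9103_A00pp_022_s3 : ∃ t, chk3 f_A00pp_022_s3 t 1162 1974 74 = true := ex3_c k1311_A00pp_022_s3 t9102_A00pp_022_s3

theorem t9104_A00pp_022_s3 : ∃ t, chk3 f_A00pp_022_s3 t 581 1974 74 = true := ex3_a t9103_A00pp_022_s3 t9099_A00pp_022_s3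

theorem t9105_A00pp_022_s3 : ∃ t, chk3 f_A00pp_022_s3 t 581 987 74 = true := ex3_b t9104_A00pp_022_s3 t9093_A00pp_022_s3

theorem t9106_A00pp_022_s3 : ∃ t, chk3 f_A00pp_022_s3 t 581 987 37 = true := ex3_c t9105_A00pp_022_s3 t9091_A00pp_022_s3

theorem t9107_A00pp_022_s3 : ∃ t, chk3 f_A00pp_022_s3 t 2323 3951 303 = true := ex3_a k1309_A00pp_022_s3 k1310_A00pp_022_s3

theorem t9108_A00pp_022_s3 : ∃ t, chk3 f_A00pp_022_s3 t 2323 1975 303 = true := ex3_b k1308_A00pp_022_s3 t9107_A00pp_022_s3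

theorem t9109_A00pp_022_s3 : ∃ t, chk3 f_A00pp_022_s3 t 2323 1975 151 = true := ex3_c k1307_A00pp_022_s3 t9108_A00pp_022_s3

theorem t9110_A00pp_022_s3 : ∃ t, chk3 f_A00pp_022_s3 t 1161 1975 151 = true := ex3_a k1306_A00pp_022_s3 t9109_A00pp_022_s3

theorem t9111_A00pp_022_s3 : ∃ t, chk3 f_A00pp_022_s3 t 2323 1975 150 = true := ex3_c k1304_A00pp_022_s3 k1305_A00pp_022_s3

theorem t9112_A00pp_022_s3 : ∃ t, chk3 f_A00pp_022_s3 t 2322 1975 301 = true := ex3_c k1302_A00pp_022_s3 k1303_A00pp_022_s3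

theorem t9113_A00pp_022_s3 : ∃ t, chk3 f_A00pp_022_s3 t 2322 1975 150 = true := ex3_c k1301_A00pp_022_s3 t9112_A00pp_022_s3

theorem t9114_A00pp_022_s3 : ∃ t, chk3 f_A00pp_022_s3 t 1161 1975 150 = true := ex3_a t9113_A00pp_022_s3 t9111_A00pp_022_s3

theorem t9115_A00pp_022_s3 : ∃ t, chk3 f_A00pp_022_s3 t 1161 1975 75 = true := ex3_c t9114_A00pp_022_s3 t9110_A00pp_022_s3

theorem t9116_A00pp_022_s3 : ∃ t, chk3 f_A00pp_022_s3 t 2321 1975 302 = true := ex3_c k1298_A00pp_022_s3 k1299_A00pp_022_s3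

theorem t9117_A00pp_022_s3 : ∃ t, chk3 f_A00pp_022_s3 t 1160 1975 302 = true := ex3_a k1297_A00pp_022_s3 t9116_A00pp_022_s3

theorem t9118_A00pp_022_s3 : ∃ t, chk3 f_A00pp_022_s3 t 1160 1975 151 = true := ex3_c t9117_A00pp_022_s3 k1300_A00pp_022_s3

theorem t9119_A00pp_022_s3 : ∃ t, chk3 f_A00pp_022_s3 t 1160 1975 75 = true := ex3_c k1296_A00pp_022_s3 t9118_A00pp_022_s3

theorem t9120_A00pp_022_s3 : ∃ t, chk3 f_A00pp_022_s3 t 580 1975 75 = true := ex3_a t9119_A00pp_022_s3 t9115_A00pp_022_s3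

theorem t9121_A00pp_022_s3 : ∃ t, chk3 f_A00pp_022_s3 t 580 1975 37 = true := ex3_c k1295_A00pp_022_s3 t9120_A00pp_022_s3

theorem t9122_A00pp_022_s3 : ∃ t, chk3 f_A00pp_022_s3 t 1161 1974 301 = true := ex3_a k1292_A00pp_022_s3 k1293_A00pp_022_s3

theorem t9123_A00pp_022_s3 : ∃ t, chk3 f_A00pp_022_s3 t 1161 1974 150 = true := ex3_c k1291_A00pp_022_s3 t9122_A00pp_022_s3

theorem t9124_A00pp_022_s3 : ∃ t, chk3 f_A00pp_022_s3 t 1161 1974 75 = true := ex3_c t9123_A00pp_022_s3 k1294_A00pp_022_s3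

theorem t9125_A00pp_022_s3 : ∃ t, chk3 f_A00pp_022_s3 t 1161 1974 37 = true := ex3_c k1290_A00pp_022_s3 t9124_A00pp_022_s3

theorem t9126_A00pp_022_s3 : ∃ t, chk3 f_A00pp_022_s3 t 1160 1974 151 = true := ex3_a k1288_A00pp_022_s3 k1289_A00pp_022_s3

theorem t9127_A00pp_022_s3 : ∃ t, chk3 f_A00pp_022_s3 t 1160 1974 75 = true := ex3_c k1287_A00pp_022_s3 t9126_A00pp_022_s3

theorem t9128_A00pp_022_s3 : ∃ t, chk3 f_A00pp_022_s3 t 1160 1974 37 = true := ex3_c k1286_A00pp_022_s3 t9127_A00pp_022_s3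

theorem t9129_A00pp_022_s3 : ∃ t, chk3 f_A00pp_022_s3 t 580 1974 37 = true := ex3_a t9128_A00pp_022_s3 t9125_A00pp_022_s3

theorem t9130_A00pp_022_s3 : ∃ t, chk3 f_A00pp_022_s3 t 580 987 37 = true := ex3_b t9129_A00pp_022_s3 t9121_A00pp_022_s3

theorem t9131_A00pp_022_s3 : ∃ t, chk3 f_A00pp_022_s3 t 290 987 37 = true := ex3_a t9130_A00pp_022_s3 t9106_A00pp_022_s3

theorem t9132_A00pp_022_s3 : ∃ t, chk3 f_A00pp_022_s3 t 1163 1973 151 = true := ex3_a k1284_A00pp_022_s3 k1285_A00pp_022_s3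

theorem t9133_A00pp_022_s3 : ∃ t, chk3 f_A00pp_022_s3 t 1163 986 151 = true := ex3_b k1283_A00pp_022_s3 t9132_A00pp_022_s3

theorem t9134_A00pp_022_s3 : ∃ t, chk3 f_A00pp_022_s3 t 1163 986 75 = true := ex3_c k1282_A00pp_022_s3 t9133_A00pp_022_s3

theorem t9135_A00pp_022_s3 : ∃ t, chk3 f_A00pp_022_s3 t 1162 986 150 = true := ex3_a k1279_A00pp_022_s3 k1280_A00pp_022_s3

theorem t9136_A00pp_022_s3 : ∃ t, chk3 f_A00pp_022_s3 t 1162 986 75 = true := ex3_c t9135_A00pp_022_s3 k1281_A00pp_022_s3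

theorem t9137_A00pp_022_s3 : ∃ t, chk3 f_A00pp_022_s3 t 581 986 75 = true := ex3_a t9136_A00pp_022_s3 t9134_A00pp_022_s3

theorem t9138_A00pp_022_s3 : ∃ t, chk3 f_A00pp_022_s3 t 2326 986 298 = true := ex3_b k1275_A00pp_022_s3 k1276_A00pp_022_s3

theorem t9139_A00pp_022_s3 : ∃ t, chk3 f_A00pp_022_s3 t 1163 986 298 = true := ex3_a t9138_A00pp_022_s3 k1277_A00pp_022_s3

theorem t9140_A00pp_022_s3 : ∃ t, chk3 f_A00pp_022_s3 t 1163 986 149 = true := ex3_c t9139_A00pp_022_s3 k1278_A00pp_022_s3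

theorem t9141_A00pp_022_s3 : ∃ t, chk3 f_A00pp_022_s3 t 1163 986 297 = true := ex3_b k1273_A00pp_022_s3 k1274_A00pp_022_s3

theorem t9142_A00pp_022_s3 : ∃ t, chk3 f_A00pp_022_s3 t 1163 986 148 = true := ex3_c k1272_A00pp_022_s3 t9141_A00pp_022_s3

theorem t9143_A00pp_022_s3 : ∃ t, chk3 f_A00pp_022_s3 t 1163 986 74 = true := ex3_c t9142_A00pp_022_s3 t9140_A00pp_022_s3

theorem t9144_A00pp_022_s3 : ∃ t, chk3 f_A00pp_022_s3 t 2325 986 299 = true := ex3_b k1270_A00pp_022_s3 k1271_A00pp_022_s3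

theorem t9145_A00pp_022_s3 : ∃ t, chk3 f_A00pp_022_s3 t 1162 986 299 = true := ex3_a k1269_A00pp_022_s3 t9144_A00pp_022_s3

theorem t9146_A00pp_022_s3 : ∃ t, chk3 f_A00pp_022_s3 t 1162 986 149 = true := ex3_c k1268_A00pp_022_s3 t9145_A00pp_022_s3

theorem t9147_A00pp_022_s3 : ∃ t, chk3 f_A00pp_022_s3 t 1162 986 74 = true := ex3_c k1267_A00pp_022_s3 t9146_A00pp_022_s3

theorem t9148_A00pp_022_s3 : ∃ t, chk3 f_A00pp_022_s3 t 581 986 74 = true := ex3_a t9147_A00pp_022_s3 t9143_A00pp_022_s3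

theorem t9149_A00pp_022_s3 : ∃ t, chk3 f_A00pp_022_s3 t 581 986 37 = true := ex3_c t9148_A00pp_022_s3 t9137_A00pp_022_s3

theorem t9150_A00pp_022_s3 : ∃ t, chk3 f_A00pp_022_s3 t 2321 986 302 = true := ex3_c k1263_A00pp_022_s3 k1264_A00pp_022_s3

theorem t9151_A00pp_022_s3 : ∃ t, chk3 f_A00pp_022_s3 t 1160 986 302 = true := ex3_a k1262_A00pp_022_s3 t9150_A00pp_022_s3

theorem t9152_A00pp_022_s3 : ∃ t, chk3 f_A00pp_022_s3 t 1160 986 151 = true := ex3_c t9151_A00pp_022_s3 k1265_A00pp_022_s3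

theorem t9153_A00pp_022_s3 : ∃ t, chk3 f_A00pp_022_s3 t 580 986 151 = true := ex3_a t9152_A00pp_022_s3 k1266_A00pp_022_s3

theorem t9154_A00pp_022_s3 : ∃ t, chk3 f_A00pp_022_s3 t 2322 986 301 = true := ex3_c k1259_A00pp_022_s3 k1260_A00pp_022_s3

theorem t9155_A00pp_022_s3 : ∃ t, chk3 f_A00pp_022_s3 t 1161 986 301 = true := ex3_a t9154_A00pp_022_s3 k1261_A00pp_022_s3

theorem t9156_A00pp_022_s3 : ∃ t, chk3 f_A00pp_022_s3 t 1161 986 150 = true := ex3_c k1258_A00pp_022_s3 t9155_A00pp_022_s3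

theorem t9157_A00pp_022_s3 : ∃ t, chk3 f_A00pp_022_s3 t 580 986 150 = true := ex3_a k1257_A00pp_022_s3 t9156_A00pp_022_s3

theorem t9158_A00pp_022_s3 : ∃ t, chk3 f_A00pp_022_s3 t 580 986 75 = true := ex3_c t9157_A00pp_022_s3 t9153_A00pp_022_s3

theorem t9159_A00pp_022_s3 : ∃ t, chk3 f_A00pp_022_s3 t 580 986 37 = true := ex3_c k1256_A00pp_022_s3 t9158_A00pp_022_s3

theorem t9160_A00pp_022_s3 : ∃ t, chk3 f_A00pp_022_s3 t 290 986 37 = true := ex3_a t9159_A00pp_022_s3 t9149_A00pp_022_s3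

theorem t9161_A00pp_022_s3 : ∃ t, chk3 f_A00pp_022_s3 t 290 493 37 = true := ex3_b t9160_A00pp_022_s3 t9131_A00pp_022_s3

theorem t9162_A00pp_022_s3 : ∃ t, chk3 f_A00pp_022_s3 t 145 493 37 = true := ex3_a t9161_A00pp_022_s3 t9069_A00pp_022_s3

theorem t9163_A00pp_022_s3 : ∃ t, chk3 f_A00pp_022_s3 t 2335 1972 294 = true := ex3_b k1251_A00pp_022_s3 k1252_A00pp_022_s3

theorem t9164_A00pp_022_s3 : ∃ t, chk3 f_A00pp_022_s3 t 2335 1972 147 = true := ex3_c t9163_A00pp_022_s3 k1253_A00pp_022_s3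

theorem t9165_A00pp_022_s3 : ∃ t, chk3 f_A00pp_022_s3 t 2334 1972 295 = true := ex3_b k1249_A00pp_022_s3 k1250_A00pp_022_s3

theorem t9166_A00pp_022_s3 : ∃ t, chk3 f_A00pp_022_s3 t 2334 1972 147 = true := ex3_c k1248_A00pp_022_s3 t9165_A00pp_022_s3

theorem t9167_A00pp_022_s3 : ∃ t, chk3 f_A00pp_022_s3 t 1167 1972 147 = true := ex3_a t9166_A00pp_022_s3 t9164_A00pp_022_s3

theorem t9168_A00pp_022_s3 : ∃ t, chk3 f_A00pp_022_s3 t 1167 986 147 = true := ex3_b t9167_A00pp_022_s3 k1254_A00pp_022_s3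

theorem t9169_A00pp_022_s3 : ∃ t, chk3 f_A00pp_022_s3 t 1167 493 147 = true := ex3_b t9168_A00pp_022_s3 k1255_A00pp_022_s3

theorem t9170_A00pp_022_s3 : ∃ t, chk3 f_A00pp_022_s3 t 1166 1973 147 = true := ex3_a k1245_A00pp_022_s3 k1246_A00pp_022_s3

theorem t9171_A00pp_022_s3 : ∃ t, chk3 f_A00pp_022_s3 t 1166 1972 147 = true := ex3_a k1243_A00pp_022_s3 k1244_A00pp_022_s3

theorem t9172_A00pp_022_s3 : ∃ t, chk3 f_A00pp_022_s3 t 1166 986 147 = true := ex3_b t9171_A00pp_022_s3 t9170_A00pp_022_s3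

theorem t9173_A00pp_022_s3 : ∃ t, chk3 f_A00pp_022_s3 t 1166 493 147 = true := ex3_b t9172_A00pp_022_s3 k1247_A00pp_022_s3

theorem t9174_A00pp_022_s3 : ∃ t, chk3 f_A00pp_022_s3 t 583 493 147 = true := ex3_a t9173_A00pp_022_s3 t9169_A00pp_022_s3

theorem t9175_A00pp_022_s3 : ∃ t, chk3 f_A00pp_022_s3 t 1166 3946 146 = true := ex3_c k1238_A00pp_022_s3 k1239_A00pp_022_s3

theorem t9176_A00pp_022_s3 : ∃ t, chk3 f_A00pp_022_s3 t 1166 1973 146 = true := ex3_b t9175_A00pp_022_s3 k1240_A00pp_022_s3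

theorem t9177_A00pp_022_s3 : ∃ t, chk3 f_A00pp_022_s3 t 583 1973 146 = true := ex3_a t9176_A00pp_022_s3 k1241_A00pp_022_s3

theorem t9178_A00pp_022_s3 : ∃ t, chk3 f_A00pp_022_s3 t 2334 1972 292 = true := ex3_c k1234_A00pp_022_s3 k1235_A00pp_022_s3

theorem t9179_A00pp_022_s3 : ∃ t, chk3 f_A00pp_022_s3 t 2334 1972 146 = true := ex3_c t9178_A00pp_022_s3 k1236_A00pp_022_s3

theorem t9180_A00pp_022_s3 : ∃ t, chk3 f_A00pp_022_s3 t 1167 1972 146 = true := ex3_a t9179_A00pp_022_s3 k1237_A00pp_022_s3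

theorem t9181_A00pp_022_s3 : ∃ t, chk3 f_A00pp_022_s3 t 1166 1972 293 = true := ex3_a k1232_A00pp_022_s3 k1233_A00pp_022_s3

theorem t9182_A00pp_022_s3 : ∃ t, chk3 f_A00pp_022_s3 t 1166 1972 146 = true := ex3_c k1231_A00pp_022_s3 t9181_A00pp_022_s3

theorem t9183_A00pp_022_s3 : ∃ t, chk3 f_A00pp_022_s3 t 583 1972 146 = true := ex3_a t9182_A00pp_022_s3 t9180_A00pp_022_s3

theorem t9184_A00pp_022_s3 : ∃ t, chk3 f_A00pp_022_s3 t 583 986 146 = true := ex3_b t9183_A00pp_022_s3 t9177_A00pp_022_s3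

theorem t9185_A00pp_022_s3 : ∃ t, chk3 f_A00pp_022_s3 t 583 493 146 = true := ex3_b t9184_A00pp_022_s3 k1242_A00pp_022_s3

theorem t9186_A00pp_022_s3 : ∃ t, chk3 f_A00pp_022_s3 t 583 493 73 = true := ex3_c t9185_A00pp_022_s3 t9174_A00pp_022_s3

theorem t9187_A00pp_022_s3 : ∃ t, chk3 f_A00pp_022_s3 t 1165 3947 73 = true := ex3_a k1228_A00pp_022_s3 k1229_A00pp_022_s3

theorem t9188_A00pp_022_s3 : ∃ t, chk3 f_A00pp_022_s3 t 1165 3946 147 = true := ex3_c k1226_A00pp_022_s3 k1227_A00pp_022_s3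

theorem t9189_A00pp_022_s3 : ∃ t, chk3 f_A00pp_022_s3 t 1165 3946 73 = true := ex3_c k1225_A00pp_022_s3 t9188_A00pp_022_s3

theorem t9190_A00pp_022_s3 : ∃ t, chk3 f_A00pp_022_s3 t 1165 1973 73 = true := ex3_b t9189_A00pp_022_s3 t9187_A00pp_022_s3

theorem t9191_A00pp_022_s3 : ∃ t, chk3 f_A00pp_022_s3 t 582 1973 73 = true := ex3_a k1224_A00pp_022_s3 t9190_A00pp_022_s3

theorem t9192_A00pp_022_s3 : ∃ t, chk3 f_A00pp_022_s3 t 2331 1972 147 = true := ex3_c k1222_A00pp_022_s3 k1223_A00pp_022_s3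

theorem t9193_A00pp_022_s3 : ∃ t, chk3 f_A00pp_022_s3 t 1165 1972 147 = true := ex3_a k1221_A00pp_022_s3 t9192_A00pp_022_s3

theorem t9194_A00pp_022_s3 : ∃ t, chk3 f_A00pp_022_s3 t 582 1972 147 = true := ex3_a k1220_A00pp_022_s3 t9193_A00pp_022_s3

theorem t9195_A00pp_022_s3 : ∃ t, chk3 f_A00pp_022_s3 t 582 1972 73 = true := ex3_c k1219_A00pp_022_s3 t9194_A00pp_022_s3

theorem t9196_A00pp_022_s3 : ∃ t, chk3 f_A00pp_022_s3 t 582 986 73 = true := ex3_b t9195_A00pp_022_s3 t9191_A00pp_022_s3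

theorem t9197_A00pp_022_s3 : ∃ t, chk3 f_A00pp_022_s3 t 582 493 73 = true := ex3_b t9196_A00pp_022_s3 k1230_A00pp_022_s3

theorem t9198_A00pp_022_s3 : ∃ t, chk3 f_A00pp_022_s3 t 291 493 73 = true := ex3_a t9197_A00pp_022_s3 t9186_A00pp_022_s3

theorem t9199_A00pp_022_s3 : ∃ t, chk3 f_A00pp_022_s3 t 583 1972 72 = true := ex3_b k1215_A00pp_022_s3 k1216_A00pp_022_s3

theorem t9200_A00pp_022_s3 : ∃ t, chk3 f_A00pp_022_s3 t 291 1972 72 = true := ex3_a k1214_A00pp_022_s3 t9199_A00pp_022_s3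

theorem t9201_A00pp_022_s3 : ∃ t, chk3 f_A00pp_022_s3 t 291 986 72 = true := ex3_b t9200_A00pp_022_s3 k1217_A00pp_022_s3

theorem t9202_A00pp_022_s3 : ∃ t, chk3 f_A00pp_022_s3 t 291 493 72 = true := ex3_b t9201_A00pp_022_s3 k1218_A00pp_022_s3

theorem t9203_A00pp_022_s3 : ∃ t, chk3 f_A00pp_022_s3 t 291 493 36 = true := ex3_c t9202_A00pp_022_s3 t9198_A00pp_022_s3

theorem t9204_A00pp_022_s3 : ∃ t, chk3 f_A00pp_022_s3 t 290 987 36 = true := ex3_b k1212_A00pp_022_s3 k1213_A00pp_022_s3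

theorem t9205_A00pp_022_s3 : ∃ t, chk3 f_A00pp_022_s3 t 290 493 36 = true := ex3_b k1211_A00pp_022_s3 t9204_A00pp_022_s3

theorem t9206_A00pp_022_s3 : ∃ t, chk3 f_A00pp_022_s3 t 145 493 36 = true := ex3_a t9205_A00pp_022_s3 t9203_A00pp_022_s3

theorem t9207_A00pp_022_s3 : ∃ t, chk3 f_A00pp_022_s3 t 145 493 18 = true := ex3_c t9206_A00pp_022_s3 t9162_A00pp_022_s3

theorem t9208_A00pp_022_s3 : ∃ t, chk3 f_A00pp_022_s3 t 583 984 150 = true := ex3_a k1207_A00pp_022_s3 k1208_A00pp_022_s3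

theorem t9209_A00pp_022_s3 : ∃ t, chk3 f_A00pp_022_s3 t 583 984 75 = true := ex3_c t9208_A00pp_022_s3 k1209_A00pp_022_s3

theorem t9210_A00pp_022_s3 : ∃ t, chk3 f_A00pp_022_s3 t 583 492 75 = true := ex3_b t9209_A00pp_022_s3 k1210_A00pp_022_s3

theorem t9211_A00pp_022_s3 : ∃ t, chk3 f_A00pp_022_s3 t 1167 1971 148 = true := ex3_a k1204_A00pp_022_s3 k1205_A00pp_022_s3

theorem t9212_A00pp_022_s3 : ∃ t, chk3 f_A00pp_022_s3 t 1167 1970 148 = true := ex3_a k1202_A00pp_022_s3 k1203_A00pp_022_s3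

theorem t9213_A00pp_022_s3 : ∃ t, chk3 f_A00pp_022_s3 t 1167 985 148 = true := ex3_b t9212_A00pp_022_s3 t9211_A00pp_022_s3

theorem t9214_A00pp_022_s3 : ∃ t, chk3 f_A00pp_022_s3 t 1167 985 74 = true := ex3_c t9213_A00pp_022_s3 k1206_A00pp_022_s3

theorem t9215_A00pp_022_s3 : ∃ t, chk3 f_A00pp_022_s3 t 1166 1971 149 = true := ex3_a k1200_A00pp_022_s3 k1201_A00pp_022_s3

theorem t9216_A00pp_022_s3 : ∃ t, chk3 f_A00pp_022_s3 t 1166 985 149 = true := ex3_b k1199_A00pp_022_s3 t9215_A00pp_022_s3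

theorem t9217_A00pp_022_s3 : ∃ t, chk3 f_A00pp_022_s3 t 1166 985 74 = true := ex3_c k1198_A00pp_022_s3 t9216_A00pp_022_s3

theorem t9218_A00pp_022_s3 : ∃ t, chk3 f_A00pp_022_s3 t 583 985 74 = true := ex3_a t9217_A00pp_022_s3 t9214_A00pp_022_s3

theorem t9219_A00pp_022_s3 : ∃ t, chk3 f_A00pp_022_s3 t 1167 984 149 = true := ex3_b k1196_A00pp_022_s3 k1197_A00pp_022_s3

theorem t9220_A00pp_022_s3 : ∃ t, chk3 f_A00pp_022_s3 t 1167 984 74 = true := ex3_c k1195_A00pp_022_s3 t9219_A00pp_022_s3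

theorem t9221_A00pp_022_s3 : ∃ t, chk3 f_A00pp_022_s3 t 583 984 74 = true := ex3_a k1194_A00pp_022_s3 t9220_A00pp_022_s3

theorem t9222_A00pp_022_s3 : ∃ t, chk3 f_A00pp_022_s3 t 583 492 74 = true := ex3_b t9221_A00pp_022_s3 t9218_A00pp_022_s3

theorem t9223_A00pp_022_s3 : ∃ t, chk3 f_A00pp_022_s3 t 583 492 37 = true := ex3_c t9222_A00pp_022_s3 t9210_A00pp_022_s3

theorem t9224_A00pp_022_s3 : ∃ t, chk3 f_A00pp_022_s3 t 1165 1971 150 = true := ex3_a k1191_A00pp_022_s3 k1192_A00pp_022_s3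

theorem t9225_A00pp_022_s3 : ∃ t, chk3 f_A00pp_022_s3 t 1165 985 150 = true := ex3_b k1190_A00pp_022_s3 t9224_A00pp_022_s3

theorem t9226_A00pp_022_s3 : ∃ t, chk3 f_A00pp_022_s3 t 1165 985 75 = true := ex3_c t9225_A00pp_022_s3 k1193_A00pp_022_s3

theorem t9227_A00pp_022_s3 : ∃ t, chk3 f_A00pp_022_s3 t 1164 985 151 = true := ex3_b k1188_A00pp_022_s3 k1189_A00pp_022_s3

theorem t9228_A00pp_022_s3 : ∃ t, chk3 f_A00pp_022_s3 t 1164 985 75 = true := ex3_c k1187_A00pp_022_s3 t9227_A00pp_022_s3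

theorem t9229_A00pp_022_s3 : ∃ t, chk3 f_A00pp_022_s3 t 582 985 75 = true := ex3_a t9228_A00pp_022_s3 t9226_A00pp_022_s3

theorem t9230_A00pp_022_s3 : ∃ t, chk3 f_A00pp_022_s3 t 582 984 75 = true := ex3_a k1185_A00pp_022_s3 k1186_A00pp_022_s3

theorem t9231_A00pp_022_s3 : ∃ t, chk3 f_A00pp_022_s3 t 582 492 75 = true := ex3_b t9230_A00pp_022_s3 t9229_A00pp_022_s3

theorem t9232_A00pp_022_s3 : ∃ t, chk3 f_A00pp_022_s3 t 2329 985 296 = true := ex3_c k1180_A00pp_022_s3 k1181_A00pp_022_s3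

theorem t9233_A00pp_022_s3 : ∃ t, chk3 f_A00pp_022_s3 t 1164 985 296 = true := ex3_a k1179_A00pp_022_s3 t9232_A00pp_022_s3

theorem t9234_A00pp_022_s3 : ∃ t, chk3 f_A00pp_022_s3 t 1164 985 148 = true := ex3_c t9233_A00pp_022_s3 k1182_A00pp_022_s3

theorem t9235_A00pp_022_s3 : ∃ t, chk3 f_A00pp_022_s3 t 1164 985 74 = true := ex3_c t9234_A00pp_022_s3 k1183_A00pp_022_s3

theorem t9236_A00pp_022_s3 : ∃ t, chk3 f_A00pp_022_s3 t 582 985 74 = true := ex3_a t9235_A00pp_022_s3 k1184_A00pp_022_s3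

theorem t9237_A00pp_022_s3 : ∃ t, chk3 f_A00pp_022_s3 t 1164 984 296 = true := ex3_a k1174_A00pp_022_s3 k1175_A00pp_022_s3

theorem t9238_A00pp_022_s3 : ∃ t, chk3 f_A00pp_022_s3 t 1164 984 148 = true := ex3_c t9237_A00pp_022_s3 k1176_A00pp_022_s3

theorem t9239_A00pp_022_s3 : ∃ t, chk3 f_A00pp_022_s3 t 1164 984 74 = true := ex3_c t9238_A00pp_022_s3 k1177_A00pp_022_s3

theorem t9240_A00pp_022_s3 : ∃ t, chk3 f_A00pp_022_s3 t 582 984 74 = true := ex3_a t9239_A00pp_022_s3 k1178_A00pp_022_s3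

theorem t9241_A00pp_022_s3 : ∃ t, chk3 f_A00pp_022_s3 t 582 492 74 = true := ex3_b t9240_A00pp_022_s3 t9236_A00pp_022_s3

theorem t9242_A00pp_022_s3 : ∃ t, chk3 f_A00pp_022_s3 t 582 492 37 = true := ex3_c t9241_A00pp_022_s3 t9231_A00pp_022_s3

theorem t9243_A00pp_022_s3 : ∃ t, chk3 f_A00pp_022_s3 t 291 492 37 = true := ex3_a t9242_A00pp_022_s3 t9223_A00pp_022_s3

theorem t9244_A00pp_022_s3 : ∃ t, chk3 f_A00pp_022_s3 t 2335 1971 147 = true := ex3_c k1172_A00pp_022_s3 k1173_A00pp_022_s3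

theorem t9245_A00pp_022_s3 : ∃ t, chk3 f_A00pp_022_s3 t 1167 1971 147 = true := ex3_a k1171_A00pp_022_s3 t9244_A00pp_022_s3

theorem t9246_A00pp_022_s3 : ∃ t, chk3 f_A00pp_022_s3 t 1167 1971 146 = true := ex3_a k1169_A00pp_022_s3 k1170_A00pp_022_s3

theorem t9247_A00pp_022_s3 : ∃ t, chk3 f_A00pp_022_s3 t 1167 1971 73 = true := ex3_c t9246_A00pp_022_s3 t9245_A00pp_022_s3

theorem t9248_A00pp_022_s3 : ∃ t, chk3 f_A00pp_022_s3 t 1167 1971 145 = true := ex3_a k1167_A00pp_022_s3 k1168_A00pp_022_s3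

theorem t9249_A00pp_022_s3 : ∃ t, chk3 f_A00pp_022_s3 t 1167 1971 72 = true := ex3_c k1166_A00pp_022_s3 t9248_A00pp_022_s3

theorem t9250_A00pp_022_s3 : ∃ t, chk3 f_A00pp_022_s3 t 1167 1971 36 = true := ex3_c t9249_A00pp_022_s3 t9247_A00pp_022_s3

theorem t9251_A00pp_022_s3 : ∃ t, chk3 f_A00pp_022_s3 t 1166 1971 293 = true := ex3_a k1163_A00pp_022_s3 k1164_A00pp_022_s3

theorem t9252_A00pp_022_s3 : ∃ t, chk3 f_A00pp_022_s3 t 1166 1971 146 = true := ex3_c k1162_A00pp_022_s3 t9251_A00pp_022_s3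

theorem t9253_A00pp_022_s3 : ∃ t, chk3 f_A00pp_022_s3 t 1166 1971 73 = true := ex3_c t9252_A00pp_022_s3 k1165_A00pp_022_s3

theorem t9254_A00pp_022_s3 : ∃ t, chk3 f_A00pp_022_s3 t 1166 1971 36 = true := ex3_c k1161_A00pp_022_s3 t9253_A00pp_022_s3

theorem t9255_A00pp_022_s3 : ∃ t, chk3 f_A00pp_022_s3 t 583 1971 36 = true := ex3_a t9254_A00pp_022_s3 t9250_A00pp_022_s3

theorem t9256_A00pp_022_s3 : ∃ t, chk3 f_A00pp_022_s3 t 1167 1970 73 = true := ex3_c k1159_A00pp_022_s3 k1160_A00pp_022_s3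

theorem t9257_A00pp_022_s3 : ∃ t, chk3 f_A00pp_022_s3 t 1166 1970 146 = true := ex3_a k1156_A00pp_022_s3 k1157_A00pp_022_s3

theorem t9258_A00pp_022_s3 : ∃ t, chk3 f_A00pp_022_s3 t 1166 1970 73 = true := ex3_c t9257_A00pp_022_s3 k1158_A00pp_022_s3

theorem t9259_A00pp_022_s3 : ∃ t, chk3 f_A00pp_022_s3 t 583 1970 73 = true := ex3_a t9258_A00pp_022_s3 t9256_A00pp_022_s3

theorem t9260_A00pp_022_s3 : ∃ t, chk3 f_A00pp_022_s3 t 583 1970 36 = true := ex3_c k1155_A00pp_022_s3 t9259_A00pp_022_s3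

theorem t9261_A00pp_022_s3 : ∃ t, chk3 f_A00pp_022_s3 t 583 985 36 = true := ex3_b t9260_A00pp_022_s3 t9255_A00pp_022_s3

theorem t9262_A00pp_022_s3 : ∃ t, chk3 f_A00pp_022_s3 t 2330 985 295 = true := ex3_c k1152_A00pp_022_s3 k1153_A00pp_022_s3

theorem t9263_A00pp_022_s3 : ∃ t, chk3 f_A00pp_022_s3 t 1165 985 295 = true := ex3_a t9262_A00pp_022_s3 k1154_A00pp_022_s3

theorem t9264_A00pp_022_s3 : ∃ t, chk3 f_A00pp_022_s3 t 2331 985 294 = true := ex3_c k1150_A00pp_022_s3 k1151_A00pp_022_s3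

theorem t9265_A00pp_022_s3 : ∃ t, chk3 f_A00pp_022_s3 t 1165 985 294 = true := ex3_a k1149_A00pp_022_s3 t9264_A00pp_022_s3

theorem t9266_A00pp_022_s3 : ∃ t, chk3 f_A00pp_022_s3 t 1165 985 147 = true := ex3_c t9265_A00pp_022_s3 t9263_A00pp_022_s3

theorem t9267_A00pp_022_s3 : ∃ t, chk3 f_A00pp_022_s3 t 582 985 147 = true := ex3_a k1148_A00pp_022_s3 t9266_A00pp_022_s3

theorem t9268_A00pp_022_s3 : ∃ t, chk3 f_A00pp_022_s3 t 582 985 73 = true := ex3_c k1147_A00pp_022_s3 t9267_A00pp_022_s3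

theorem t9269_A00pp_022_s3 : ∃ t, chk3 f_A00pp_022_s3 t 582 985 36 = true := ex3_c k1146_A00pp_022_s3 t9268_A00pp_022_s3

theorem t9270_A00pp_022_s3 : ∃ t, chk3 f_A00pp_022_s3 t 291 985 36 = true := ex3_a t9269_A00pp_022_s3 t9261_A00pp_022_s3

theorem t9271_A00pp_022_s3 : ∃ t, chk3 f_A00pp_022_s3 t 2334 984 292 = true := ex3_c k1141_A00pp_022_s3 k1142_A00pp_022_s3

theorem t9272_A00pp_022_s3 : ∃ t, chk3 f_A00pp_022_s3 t 2334 984 146 = true := ex3_c t9271_A00pp_022_s3 k1143_A00pp_022_s3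

theorem t9273_A00pp_022_s3 : ∃ t, chk3 f_A00pp_022_s3 t 1167 984 146 = true := ex3_a t9272_A00pp_022_s3 k1144_A00pp_022_s3

theorem t9274_A00pp_022_s3 : ∃ t, chk3 f_A00pp_022_s3 t 1166 984 293 = true := ex3_a k1139_A00pp_022_s3 k1140_A00pp_022_s3

theorem t9275_A00pp_022_s3 : ∃ t, chk3 f_A00pp_022_s3 t 1166 984 146 = true := ex3_c k1138_A00pp_022_s3 t9274_A00pp_022_s3

theorem t9276_A00pp_022_s3 : ∃ t, chk3 f_A00pp_022_s3 t 583 984 146 = true := ex3_a t9275_A00pp_022_s3 t9273_A00pp_022_s3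

theorem t9277_A00pp_022_s3 : ∃ t, chk3 f_A00pp_022_s3 t 583 984 73 = true := ex3_c t9276_A00pp_022_s3 k1145_A00pp_022_s3

theorem t9278_A00pp_022_s3 : ∃ t, chk3 f_A00pp_022_s3 t 2335 984 291 = true := ex3_c k1136_A00pp_022_s3 k1137_A00pp_022_s3

theorem t9279_A00pp_022_s3 : ∃ t, chk3 f_A00pp_022_s3 t 1167 984 291 = true := ex3_a k1135_A00pp_022_s3 t9278_A00pp_022_s3

theorem t9280_A00pp_022_s3 : ∃ t, chk3 f_A00pp_022_s3 t 1167 984 145 = true := ex3_c k1134_A00pp_022_s3 t9279_A00pp_022_s3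

theorem t9281_A00pp_022_s3 : ∃ t, chk3 f_A00pp_022_s3 t 583 984 145 = true := ex3_a k1133_A00pp_022_s3 t9280_A00pp_022_s3

theorem t9282_A00pp_022_s3 : ∃ t, chk3 f_A00pp_022_s3 t 583 984 72 = true := ex3_c k1132_A00pp_022_s3 t9281_A00pp_022_s3

theorem t9283_A00pp_022_s3 : ∃ t, chk3 f_A00pp_022_s3 t 583 984 36 = true := ex3_c t9282_A00pp_022_s3 t9277_A00pp_022_s3

theorem t9284_A00pp_022_s3 : ∃ t, chk3 f_A00pp_022_s3 t 2330 984 295 = true := ex3_b k1129_A00pp_022_s3 k1130_A00pp_022_s3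

theorem t9285_A00pp_022_s3 : ∃ t, chk3 f_A00pp_022_s3 t 1165 984 295 = true := ex3_a t9284_A00pp_022_s3 k1131_A00pp_022_s3

theorem t9286_A00pp_022_s3 : ∃ t, chk3 f_A00pp_022_s3 t 2331 984 294 = true := ex3_b k1127_A00pp_022_s3 k1128_A00pp_022_s3

theorem t9287_A00pp_022_s3 : ∃ t, chk3 f_A00pp_022_s3 t 1165 984 294 = true := ex3_a k1126_A00pp_022_s3 t9286_A00pp_022_s3

theorem t9288_A00pp_022_s3 : ∃ t, chk3 f_A00pp_022_s3 t 1165 984 147 = true := ex3_c t9287_A00pp_022_s3 t9285_A00pp_022_s3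

theorem t9289_A00pp_022_s3 : ∃ t, chk3 f_A00pp_022_s3 t 582 984 147 = true := ex3_a k1125_A00pp_022_s3 t9288_A00pp_022_s3

theorem t9290_A00pp_022_s3 : ∃ t, chk3 f_A00pp_022_s3 t 582 984 73 = true := ex3_c k1124_A00pp_022_s3 t9289_A00pp_022_s3

theorem t9291_A00pp_022_s3 : ∃ t, chk3 f_A00pp_022_s3 t 582 984 36 = true := ex3_c k1123_A00pp_022_s3 t9290_A00pp_022_s3

theorem t9292_A00pp_022_s3 : ∃ t, chk3 f_A00pp_022_s3 t 291 984 36 = true := ex3_a t9291_A00pp_022_s3 t9283_A00pp_022_s3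

theorem t9293_A00pp_022_s3 : ∃ t, chk3 f_A00pp_022_s3 t 291 492 36 = true := ex3_b t9292_A00pp_022_s3 t9270_A00pp_022_s3

theorem t9294_A00pp_022_s3 : ∃ t, chk3 f_A00pp_022_s3 t 291 492 18 = true := ex3_c t9293_A00pp_022_s3 t9243_A00pp_022_s3

theorem t9295_A00pp_022_s3 : ∃ t, chk3 f_A00pp_022_s3 t 581 985 75 = true := ex3_a k1121_A00pp_022_s3 k1122_A00pp_022_s3

theorem t9296_A00pp_022_s3 : ∃ t, chk3 f_A00pp_022_s3 t 2326 985 298 = true := ex3_a k1117_A00pp_022_s3 k1118_A00pp_022_s3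

theorem t9297_A00pp_022_s3 : ∃ t, chk3 f_A00pp_022_s3 t 1163 985 298 = true := ex3_a t9296_A00pp_022_s3 k1119_A00pp_022_s3

theorem t9298_A00pp_022_s3 : ∃ t, chk3 f_A00pp_022_s3 t 1163 985 149 = true := ex3_c t9297_A00pp_022_s3 k1120_A00pp_022_s3

theorem t9299_A00pp_022_s3 : ∃ t, chk3 f_A00pp_022_s3 t 2325 985 299 = true := ex3_c k1115_A00pp_022_s3 k1116_A00pp_022_s3

theorem t9300_A00pp_022_s3 : ∃ t, chk3 f_A00pp_022_s3 t 1162 985 299 = true := ex3_a k1114_A00pp_022_s3 t9299_A00pp_022_s3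

theorem t9301_A00pp_022_s3 : ∃ t, chk3 f_A00pp_022_s3 t 1162 985 149 = true := ex3_c k1113_A00pp_022_s3 t9300_A00pp_022_s3

theorem t9302_A00pp_022_s3 : ∃ t, chk3 f_A00pp_022_s3 t 581 985 149 = true := ex3_a t9301_A00pp_022_s3 t9298_A00pp_022_s3

theorem t9303_A00pp_022_s3 : ∃ t, chk3 f_A00pp_022_s3 t 2327 985 148 = true := ex3_b k1111_A00pp_022_s3 k1112_A00pp_022_s3

theorem t9304_A00pp_022_s3 : ∃ t, chk3 f_A00pp_022_s3 t 1163 985 148 = true := ex3_a k1110_A00pp_022_s3 t9303_A00pp_022_s3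

theorem t9305_A00pp_022_s3 : ∃ t, chk3 f_A00pp_022_s3 t 581 985 148 = true := ex3_a k1109_A00pp_022_s3 t9304_A00pp_022_s3

theorem t9306_A00pp_022_s3 : ∃ t, chk3 f_A00pp_022_s3 t 581 985 74 = true := ex3_c t9305_A00pp_022_s3 t9302_A00pp_022_s3

theorem t9307_A00pp_022_s3 : ∃ t, chk3 f_A00pp_022_s3 t 581 985 37 = true := ex3_c t9306_A00pp_022_s3 t9295_A00pp_022_s3

theorem t9308_A00pp_022_s3 : ∃ t, chk3 f_A00pp_022_s3 t 581 985 18 = true := ex3_c k1108_A00pp_022_s3 t9307_A00pp_022_s3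

theorem t9309_A00pp_022_s3 : ∃ t, chk3 f_A00pp_022_s3 t 1160 985 302 = true := ex3_a k1104_A00pp_022_s3 k1105_A00pp_022_s3

theorem t9310_A00pp_022_s3 : ∃ t, chk3 f_A00pp_022_s3 t 1160 985 151 = true := ex3_c t9309_A00pp_022_s3 k1106_A00pp_022_s3

theorem t9311_A00pp_022_s3 : ∃ t, chk3 f_A00pp_022_s3 t 580 985 151 = true := ex3_a t9310_A00pp_022_s3 k1107_A00pp_022_s3

theorem t9312_A00pp_022_s3 : ∃ t, chk3 f_A00pp_022_s3 t 1161 985 301 = true := ex3_a k1102_A00pp_022_s3 k1103_A00pp_022_s3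

theorem t9313_A00pp_022_s3 : ∃ t, chk3 f_A00pp_022_s3 t 1161 985 150 = true := ex3_c k1101_A00pp_022_s3 t9312_A00pp_022_s3

theorem t9314_A00pp_022_s3 : ∃ t, chk3 f_A00pp_022_s3 t 580 985 150 = true := ex3_a k1100_A00pp_022_s3 t9313_A00pp_022_s3

theorem t9315_A00pp_022_s3 : ∃ t, chk3 f_A00pp_022_s3 t 580 985 75 = true := ex3_c t9314_A00pp_022_s3 t9311_A00pp_022_s3

theorem t9316_A00pp_022_s3 : ∃ t, chk3 f_A00pp_022_s3 t 580 985 37 = true := ex3_c k1099_A00pp_022_s3 t9315_A00pp_022_s3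

theorem t9317_A00pp_022_s3 : ∃ t, chk3 f_A00pp_022_s3 t 580 985 18 = true := ex3_c k1098_A00pp_022_s3 t9316_A00pp_022_s3

theorem t9318_A00pp_022_s3 : ∃ t, chk3 f_A00pp_022_s3 t 290 985 18 = true := ex3_a t9317_A00pp_022_s3 t9308_A00pp_022_s3

theorem t9319_A00pp_022_s3 : ∃ t, chk3 f_A00pp_022_s3 t 581 984 75 = true := ex3_c k1096_A00pp_022_s3 k1097_A00pp_022_s3

theorem t9320_A00pp_022_s3 : ∃ t, chk3 f_A00pp_022_s3 t 2320 1968 303 = true := ex3_c k1091_A00pp_022_s3 k1092_A00pp_022_s3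

theorem t9321_A00pp_022_s3 : ∃ t, chk3 f_A00pp_022_s3 t 1160 1968 303 = true := ex3_a t9320_A00pp_022_s3 k1093_A00pp_022_s3

theorem t9322_A00pp_022_s3 : ∃ t, chk3 f_A00pp_022_s3 t 1160 984 303 = true := ex3_b t9321_A00pp_022_s3 k1094_A00pp_022_s3

theorem t9323_A00pp_022_s3 : ∃ t, chk3 f_A00pp_022_s3 t 2321 1968 302 = true := ex3_c k1088_A00pp_022_s3 k1089_A00pp_022_s3

theorem t9324_A00pp_022_s3 : ∃ t, chk3 f_A00pp_022_s3 t 1160 1968 302 = true := ex3_a k1087_A00pp_022_s3 t9323_A00pp_022_s3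

theorem t9325_A00pp_022_s3 : ∃ t, chk3 f_A00pp_022_s3 t 1160 984 302 = true := ex3_b t9324_A00pp_022_s3 k1090_A00pp_022_s3

theorem t9326_A00pp_022_s3 : ∃ t, chk3 f_A00pp_022_s3 t 1160 984 151 = true := ex3_c t9325_A00pp_022_s3 t9322_A00pp_022_s3

theorem t9327_A00pp_022_s3 : ∃ t, chk3 f_A00pp_022_s3 t 580 984 151 = true := ex3_a t9326_A00pp_022_s3 k1095_A00pp_022_s3

theorem t9328_A00pp_022_s3 : ∃ t, chk3 f_A00pp_022_s3 t 2322 1968 301 = true := ex3_c k1083_A00pp_022_s3 k1084_A00pp_022_s3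

theorem t9329_A00pp_022_s3 : ∃ t, chk3 f_A00pp_022_s3 t 2322 984 301 = true := ex3_b t9328_A00pp_022_s3 k1085_A00pp_022_s3

theorem t9330_A00pp_022_s3 : ∃ t, chk3 f_A00pp_022_s3 t 1161 984 301 = true := ex3_a t9329_A00pp_022_s3 k1086_A00pp_022_s3

theorem t9331_A00pp_022_s3 : ∃ t, chk3 f_A00pp_022_s3 t 1161 984 150 = true := ex3_c k1082_A00pp_022_s3 t9330_A00pp_022_s3

theorem t9332_A00pp_022_s3 : ∃ t, chk3 f_A00pp_022_s3 t 580 984 150 = true := ex3_a k1081_A00pp_022_s3 t9331_A00pp_022_s3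

theorem t9333_A00pp_022_s3 : ∃ t, chk3 f_A00pp_022_s3 t 580 984 75 = true := ex3_c t9332_A00pp_022_s3 t9327_A00pp_022_s3

theorem t9334_A00pp_022_s3 : ∃ t, chk3 f_A00pp_022_s3 t 290 984 75 = true := ex3_a t9333_A00pp_022_s3 t9319_A00pp_022_s3

theorem t9335_A00pp_022_s3 : ∃ t, chk3 f_A00pp_022_s3 t 1163 984 298 = true := ex3_a k1078_A00pp_022_s3 k1079_A00pp_022_s3

theorem t9336_A00pp_022_s3 : ∃ t, chk3 f_A00pp_022_s3 t 1163 984 149 = true := ex3_c t9335_A00pp_022_s3 k1080_A00pp_022_s3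

theorem t9337_A00pp_022_s3 : ∃ t, chk3 f_A00pp_022_s3 t 1162 984 299 = true := ex3_a k1076_A00pp_022_s3 k1077_A00pp_022_s3

theorem t9338_A00pp_022_s3 : ∃ t, chk3 f_A00pp_022_s3 t 1162 984 149 = true := ex3_c k1075_A00pp_022_s3 t9337_A00pp_022_s3

theorem t9339_A00pp_022_s3 : ∃ t, chk3 f_A00pp_022_s3 t 581 984 149 = true := ex3_a t9338_A00pp_022_s3 t9336_A00pp_022_s3

theorem t9340_A00pp_022_s3 : ∃ t, chk3 f_A00pp_022_s3 t 581 984 74 = true := ex3_c k1074_A00pp_022_s3 t9339_A00pp_022_s3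

theorem t9341_A00pp_022_s3 : ∃ t, chk3 f_A00pp_022_s3 t 290 984 74 = true := ex3_a k1073_A00pp_022_s3 t9340_A00pp_022_s3

theorem t9342_A00pp_022_s3 : ∃ t, chk3 f_A00pp_022_s3 t 290 984 37 = true := ex3_c t9341_A00pp_022_s3 t9334_A00pp_022_s3

theorem t9343_A00pp_022_s3 : ∃ t, chk3 f_A00pp_022_s3 t 290 984 18 = true := ex3_c k1072_A00pp_022_s3 t9342_A00pp_022_s3

theorem t9344_A00pp_022_s3 : ∃ t, chk3 f_A00pp_022_s3 t 290 492 18 = true := ex3_b t9343_A00pp_022_s3 t9318_A00pp_022_s3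

theorem t9345_A00pp_022_s3 : ∃ t, chk3 f_A00pp_022_s3 t 145 492 18 = true := ex3_a t9344_A00pp_022_s3 t9294_A00pp_022_s3

theorem t9346_A00pp_022_s3 : ∃ t, chk3 f_A00pp_022_s3 t 145 246 18 = true := ex3_b t9345_A00pp_022_s3 t9207_A00pp_022_s3

theorem t9347_A00pp_022_s3 : ∃ t, chk3 f_A00pp_022_s3 t 145 123 18 = true := ex3_b t9346_A00pp_022_s3 t9016_A00pp_022_s3

theorem t9348_A00pp_022_s3 : ∃ t, chk3 f_A00pp_022_s3 t 145 123 9 = true := ex3_c t9347_A00pp_022_s3 t8999_A00pp_022_s3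

theorem t9349_A00pp_022_s3 : ∃ t, chk3 f_A00pp_022_s3 t 577 990 78 = true := ex3_c k1067_A00pp_022_s3 k1068_A00pp_022_s3

theorem t9350_A00pp_022_s3 : ∃ t, chk3 f_A00pp_022_s3 t 577 990 39 = true := ex3_c t9349_A00pp_022_s3 k1069_A00pp_022_s3

theorem t9351_A00pp_022_s3 : ∃ t, chk3 f_A00pp_022_s3 t 577 495 39 = true := ex3_b t9350_A00pp_022_s3 k1070_A00pp_022_s3

theorem t9352_A00pp_022_s3 : ∃ t, chk3 f_A00pp_022_s3 t 2306 3960 316 = true := ex3_a k1059_A00pp_022_s3 k1060_A00pp_022_s3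

theorem t9353_A00pp_022_s3 : ∃ t, chk3 f_A00pp_022_s3 t 2306 3960 158 = true := ex3_c t9352_A00pp_022_s3 k1061_A00pp_022_s3

theorem t9354_A00pp_022_s3 : ∃ t, chk3 f_A00pp_022_s3 t 2306 1980 158 = true := ex3_b t9353_A00pp_022_s3 k1062_A00pp_022_s3

theorem t9355_A00pp_022_s3 : ∃ t, chk3 f_A00pp_022_s3 t 1153 1980 158 = true := ex3_a t9354_A00pp_022_s3 k1063_A00pp_022_s3

theorem t9356_A00pp_022_s3 : ∃ t, chk3 f_A00pp_022_s3 t 1153 1980 79 = true := ex3_c t9355_A00pp_022_s3 k1064_A00pp_022_s3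

theorem t9357_A00pp_022_s3 : ∃ t, chk3 f_A00pp_022_s3 t 1153 990 79 = true := ex3_b t9356_A00pp_022_s3 k1065_A00pp_022_s3

theorem t9358_A00pp_022_s3 : ∃ t, chk3 f_A00pp_022_s3 t 2304 1980 318 = true := ex3_b k1054_A00pp_022_s3 k1055_A00pp_022_s3

theorem t9359_A00pp_022_s3 : ∃ t, chk3 f_A00pp_022_s3 t 2304 1980 159 = true := ex3_c t9358_A00pp_022_s3 k1056_A00pp_022_s3

theorem t9360_A00pp_022_s3 : ∃ t, chk3 f_A00pp_022_s3 t 1152 1980 159 = true := ex3_a t9359_A00pp_022_s3 k1057_A00pp_022_s3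

theorem t9361_A00pp_022_s3 : ∃ t, chk3 f_A00pp_022_s3 t 1152 990 159 = true := ex3_b t9360_A00pp_022_s3 k1058_A00pp_022_s3

theorem t9362_A00pp_022_s3 : ∃ t, chk3 f_A00pp_022_s3 t 2304 3962 317 = true := ex3_a k1050_A00pp_022_s3 k1051_A00pp_022_s3

theorem t9363_A00pp_022_s3 : ∃ t, chk3 f_A00pp_022_s3 t 2304 1981 317 = true := ex3_b t9362_A00pp_022_s3 k1052_A00pp_022_s3

theorem t9364_A00pp_022_s3 : ∃ t, chk3 f_A00pp_022_s3 t 2304 1981 158 = true := ex3_c k1049_A00pp_022_s3 t9363_A00pp_022_s3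

theorem t9365_A00pp_022_s3 : ∃ t, chk3 f_A00pp_022_s3 t 1152 1981 158 = true := ex3_a t9364_A00pp_022_s3 k1053_A00pp_022_s3

theorem t9366_A00pp_022_s3 : ∃ t, chk3 f_A00pp_022_s3 t 2305 3960 317 = true := ex3_a k1046_A00pp_022_s3 k1047_A00pp_022_s3

theorem t9367_A00pp_022_s3 : ∃ t, chk3 f_A00pp_022_s3 t 2305 1980 317 = true := ex3_b t9366_A00pp_022_s3 k1048_A00pp_022_s3

theorem t9368_A00pp_022_s3 : ∃ t, chk3 f_A00pp_022_s3 t 2305 3961 316 = true := ex3_a k1044_A00pp_022_s3 k1045_A00pp_022_s3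

theorem t9369_A00pp_022_s3 : ∃ t, chk3 f_A00pp_022_s3 t 2305 1980 316 = true := ex3_b k1043_A00pp_022_s3 t9368_A00pp_022_s3

theorem t9370_A00pp_022_s3 : ∃ t, chk3 f_A00pp_022_s3 t 2305 1980 158 = true := ex3_c t9369_A00pp_022_s3 t9367_A00pp_022_s3

theorem t9371_A00pp_022_s3 : ∃ t, chk3 f_A00pp_022_s3 t 2304 1980 158 = true := ex3_c k1041_A00pp_022_s3 k1042_A00pp_022_s3

theorem t9372_A00pp_022_s3 : ∃ t, chk3 f_A00pp_022_s3 t 1152 1980 158 = true := ex3_a t9371_A00pp_022_s3 t9370_A00pp_022_s3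

theorem t9373_A00pp_022_s3 : ∃ t, chk3 f_A00pp_022_s3 t 1152 990 158 = true := ex3_b t9372_A00pp_022_s3 t9365_A00pp_022_s3

theorem t9374_A00pp_022_s3 : ∃ t, chk3 f_A00pp_022_s3 t 1152 990 79 = true := ex3_c t9373_A00pp_022_s3 t9361_A00pp_022_s3

theorem t9375_A00pp_022_s3 : ∃ t, chk3 f_A00pp_022_s3 t 576 990 79 = true := ex3_a t9374_A00pp_022_s3 t9357_A00pp_022_s3

theorem t9376_A00pp_022_s3 : ∃ t, chk3 f_A00pp_022_s3 t 576 495 79 = true := ex3_b t9375_A00pp_022_s3 k1066_A00pp_022_s3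

theorem t9377_A00pp_022_s3 : ∃ t, chk3 f_A00pp_022_s3 t 576 1981 157 = true := ex3_a k1038_A00pp_022_s3 k1039_A00pp_022_s3

theorem t9378_A00pp_022_s3 : ∃ t, chk3 f_A00pp_022_s3 t 576 1981 78 = true := ex3_c k1037_A00pp_022_s3 t9377_A00pp_022_s3

theorem t9379_A00pp_022_s3 : ∃ t, chk3 f_A00pp_022_s3 t 1153 3961 78 = true := ex3_c k1035_A00pp_022_s3 k1036_A00pp_022_s3

theorem t9380_A00pp_022_s3 : ∃ t, chk3 f_A00pp_022_s3 t 2307 3960 315 = true := ex3_a k1033_A00pp_022_s3 k1034_A00pp_022_s3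

theorem t9381_A00pp_022_s3 : ∃ t, chk3 f_A00pp_022_s3 t 2307 3960 157 = true := ex3_c k1032_A00pp_022_s3 t9380_A00pp_022_s3

theorem t9382_A00pp_022_s3 : ∃ t, chk3 f_A00pp_022_s3 t 1153 3960 157 = true := ex3_a k1031_A00pp_022_s3 t9381_A00pp_022_s3

theorem t9383_A00pp_022_s3 : ∃ t, chk3 f_A00pp_022_s3 t 1153 3960 156 = true := ex3_a k1029_A00pp_022_s3 k1030_A00pp_022_s3

theorem t9384_A00pp_022_s3 : ∃ t, chk3 f_A00pp_022_s3 t 1153 3960 78 = true := ex3_c t9383_A00pp_022_s3 t9382_A00pp_022_s3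

theorem t9385_A00pp_022_s3 : ∃ t, chk3 f_A00pp_022_s3 t 1153 1980 78 = true := ex3_b t9384_A00pp_022_s3 t9379_A00pp_022_s3

theorem t9386_A00pp_022_s3 : ∃ t, chk3 f_A00pp_022_s3 t 2305 3961 157 = true := ex3_c k1027_A00pp_022_s3 k1028_A00pp_022_s3

theorem t9387_A00pp_022_s3 : ∃ t, chk3 f_A00pp_022_s3 t 2305 3961 78 = true := ex3_c k1026_A00pp_022_s3 t9386_A00pp_022_s3

theorem t9388_A00pp_022_s3 : ∃ t, chk3 f_A00pp_022_s3 t 1152 3961 78 = true := ex3_a k1025_A00pp_022_s3 t9387_A00pp_022_s3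

theorem t9389_A00pp_022_s3 : ∃ t, chk3 f_A00pp_022_s3 t 1152 3960 157 = true := ex3_c k1023_A00pp_022_s3 k1024_A00pp_022_s3

theorem t9390_A00pp_022_s3 : ∃ t, chk3 f_A00pp_022_s3 t 1152 3960 78 = true := ex3_c k1022_A00pp_022_s3 t9389_A00pp_022_s3

theorem t9391_A00pp_022_s3 : ∃ t, chk3 f_A00pp_022_s3 t 1152 1980 78 = true := ex3_b t9390_A00pp_022_s3 t9388_A00pp_022_s3

theorem t9392_A00pp_022_s3 : ∃ t, chk3 f_A00pp_022_s3 t 576 1980 78 = true := ex3_a t9391_A00pp_022_s3 t9385_A00pp_022_s3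

theorem t9393_A00pp_022_s3 : ∃ t, chk3 f_A00pp_022_s3 t 576 990 78 = true := ex3_b t9392_A00pp_022_s3 t9378_A00pp_022_s3

theorem t9394_A00pp_022_s3 : ∃ t, chk3 f_A00pp_022_s3 t 576 495 78 = true := ex3_b t9393_A00pp_022_s3 k1040_A00pp_022_s3

theorem t9395_A00pp_022_s3 : ∃ t, chk3 f_A00pp_022_s3 t 576 495 39 = true := ex3_c t9394_A00pp_022_s3 t9376_A00pp_022_s3

theorem t9396_A00pp_022_s3 : ∃ t, chk3 f_A00pp_022_s3 t 288 495 39 = true := ex3_a t9395_A00pp_022_s3 t9351_A00pp_022_s3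

theorem t9397_A00pp_022_s3 : ∃ t, chk3 f_A00pp_022_s3 t 144 495 39 = true := ex3_a t9396_A00pp_022_s3 k1071_A00pp_022_s3

theorem t9398_A00pp_022_s3 : ∃ t, chk3 f_A00pp_022_s3 t 2312 1978 312 = true := ex3_b k1013_A00pp_022_s3 k1014_A00pp_022_s3

theorem t9399_A00pp_022_s3 : ∃ t, chk3 f_A00pp_022_s3 t 2312 1978 156 = true := ex3_c t9398_A00pp_022_s3 k1015_A00pp_022_s3

theorem t9400_A00pp_022_s3 : ∃ t, chk3 f_A00pp_022_s3 t 1156 1978 156 = true := ex3_a t9399_A00pp_022_s3 k1016_A00pp_022_s3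

theorem t9401_A00pp_022_s3 : ∃ t, chk3 f_A00pp_022_s3 t 1156 1978 78 = true := ex3_c t9400_A00pp_022_s3 k1017_A00pp_022_s3

theorem t9402_A00pp_022_s3 : ∃ t, chk3 f_A00pp_022_s3 t 1156 989 78 = true := ex3_b t9401_A00pp_022_s3 k1018_A00pp_022_s3

theorem t9403_A00pp_022_s3 : ∃ t, chk3 f_A00pp_022_s3 t 578 989 78 = true := ex3_a t9402_A00pp_022_s3 k1019_A00pp_022_s3

theorem t9404_A00pp_022_s3 : ∃ t, chk3 f_A00pp_022_s3 t 1157 988 78 = true := ex3_b k1011_A00pp_022_s3 k1012_A00pp_022_s3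

theorem t9405_A00pp_022_s3 : ∃ t, chk3 f_A00pp_022_s3 t 1156 1976 157 = true := ex3_a k1008_A00pp_022_s3 k1009_A00pp_022_s3

theorem t9406_A00pp_022_s3 : ∃ t, chk3 f_A00pp_022_s3 t 1156 988 157 = true := ex3_b t9405_A00pp_022_s3 k1010_A00pp_022_s3

theorem t9407_A00pp_022_s3 : ∃ t, chk3 f_A00pp_022_s3 t 2313 1977 156 = true := ex3_b k1006_A00pp_022_s3 k1007_A00pp_022_s3

theorem t9408_A00pp_022_s3 : ∃ t, chk3 f_A00pp_022_s3 t 2312 1977 156 = true := ex3_c k1004_A00pp_022_s3 k1005_A00pp_022_s3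

theorem t9409_A00pp_022_s3 : ∃ t, chk3 f_A00pp_022_s3 t 1156 1977 156 = true := ex3_a t9408_A00pp_022_s3 t9407_A00pp_022_s3

theorem t9410_A00pp_022_s3 : ∃ t, chk3 f_A00pp_022_s3 t 1156 988 156 = true := ex3_b k1003_A00pp_022_s3 t9409_A00pp_022_s3

theorem t9411_A00pp_022_s3 : ∃ t, chk3 f_A00pp_022_s3 t 1156 988 78 = true := ex3_c t9410_A00pp_022_s3 t9406_A00pp_022_s3

theorem t9412_A00pp_022_s3 : ∃ t, chk3 f_A00pp_022_s3 t 578 988 78 = true := ex3_a t9411_A00pp_022_s3 t9404_A00pp_022_s3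

theorem t9413_A00pp_022_s3 : ∃ t, chk3 f_A00pp_022_s3 t 578 494 78 = true := ex3_b t9412_A00pp_022_s3 t9403_A00pp_022_s3

theorem t9414_A00pp_022_s3 : ∃ t, chk3 f_A00pp_022_s3 t 289 494 78 = true := ex3_a t9413_A00pp_022_s3 k1020_A00pp_022_s3

theorem t9415_A00pp_022_s3 : ∃ t, chk3 f_A00pp_022_s3 t 289 494 39 = true := ex3_c t9414_A00pp_022_s3 k1021_A00pp_022_s3

theorem t9416_A00pp_022_s3 : ∃ t, chk3 f_A00pp_022_s3 t 2308 1978 158 = true := ex3_c k997_A00pp_022_s3 k998_A00pp_022_s3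

theorem t9417_A00pp_022_s3 : ∃ t, chk3 f_A00pp_022_s3 t 1154 1978 158 = true := ex3_a t9416_A00pp_022_s3 k999_A00pp_022_s3

theorem t9418_A00pp_022_s3 : ∃ t, chk3 f_A00pp_022_s3 t 1154 1978 79 = true := ex3_c t9417_A00pp_022_s3 k1000_A00pp_022_s3

theorem t9419_A00pp_022_s3 : ∃ t, chk3 f_A00pp_022_s3 t 1154 989 79 = true := ex3_b t9418_A00pp_022_s3 k1001_A00pp_022_s3

theorem t9420_A00pp_022_s3 : ∃ t, chk3 f_A00pp_022_s3 t 577 989 79 = true := ex3_a t9419_A00pp_022_s3 k1002_A00pp_022_s3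

theorem t9421_A00pp_022_s3 : ∃ t, chk3 f_A00pp_022_s3 t 2310 1978 314 = true := ex3_b k992_A00pp_022_s3 k993_A00pp_022_s3

theorem t9422_A00pp_022_s3 : ∃ t, chk3 f_A00pp_022_s3 t 2310 1978 157 = true := ex3_c t9421_A00pp_022_s3 k994_A00pp_022_s3

theorem t9423_A00pp_022_s3 : ∃ t, chk3 f_A00pp_022_s3 t 1155 1978 157 = true := ex3_a t9422_A00pp_022_s3 k995_A00pp_022_s3

theorem t9424_A00pp_022_s3 : ∃ t, chk3 f_A00pp_022_s3 t 1155 989 157 = true := ex3_b t9423_A00pp_022_s3 k996_A00pp_022_s3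

theorem t9425_A00pp_022_s3 : ∃ t, chk3 f_A00pp_022_s3 t 2311 1979 156 = true := ex3_b k990_A00pp_022_s3 k991_A00pp_022_s3

theorem t9426_A00pp_022_s3 : ∃ t, chk3 f_A00pp_022_s3 t 2310 3958 313 = true := ex3_a k987_A00pp_022_s3 k988_A00pp_022_s3

theorem t9427_A00pp_022_s3 : ∃ t, chk3 f_A00pp_022_s3 t 2310 1979 313 = true := ex3_b t9426_A00pp_022_s3 k989_A00pp_022_s3

theorem t9428_A00pp_022_s3 : ∃ t, chk3 f_A00pp_022_s3 t 2310 1979 156 = true := ex3_c k986_A00pp_022_s3 t9427_A00pp_022_s3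

theorem t9429_A00pp_022_s3 : ∃ t, chk3 f_A00pp_022_s3 t 1155 1979 156 = true := ex3_a t9428_A00pp_022_s3 t9425_A00pp_022_s3

theorem t9430_A00pp_022_s3 : ∃ t, chk3 f_A00pp_022_s3 t 2311 1978 313 = true := ex3_b k984_A00pp_022_s3 k985_A00pp_022_s3

theorem t9431_A00pp_022_s3 : ∃ t, chk3 f_A00pp_022_s3 t 2311 1978 312 = true := ex3_b k982_A00pp_022_s3 k983_A00pp_022_s3

theorem t9432_A00pp_022_s3 : ∃ t, chk3 f_A00pp_022_s3 t 2311 1978 156 = true := ex3_c t9431_A00pp_022_s3 t9430_A00pp_022_s3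

theorem t9433_A00pp_022_s3 : ∃ t, chk3 f_A00pp_022_s3 t 1155 1978 156 = true := ex3_a k981_A00pp_022_s3 t9432_A00pp_022_s3

theorem t9434_A00pp_022_s3 : ∃ t, chk3 f_A00pp_022_s3 t 1155 989 156 = true := ex3_b t9433_A00pp_022_s3 t9429_A00pp_022_s3

theorem t9435_A00pp_022_s3 : ∃ t, chk3 f_A00pp_022_s3 t 1155 989 78 = true := ex3_c t9434_A00pp_022_s3 t9424_A00pp_022_s3

theorem t9436_A00pp_022_s3 : ∃ t, chk3 f_A00pp_022_s3 t 2309 3958 314 = true := ex3_a k977_A00pp_022_s3 k978_A00pp_022_s3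

theorem t9437_A00pp_022_s3 : ∃ t, chk3 f_A00pp_022_s3 t 2309 1979 314 = true := ex3_b t9436_A00pp_022_s3 k979_A00pp_022_s3

theorem t9438_A00pp_022_s3 : ∃ t, chk3 f_A00pp_022_s3 t 2309 1979 157 = true := ex3_c t9437_A00pp_022_s3 k980_A00pp_022_s3

theorem t9439_A00pp_022_s3 : ∃ t, chk3 f_A00pp_022_s3 t 2308 1979 315 = true := ex3_b k975_A00pp_022_s3 k976_A00pp_022_s3

theorem t9440_A00pp_022_s3 : ∃ t, chk3 f_A00pp_022_s3 t 2308 3959 314 = true := ex3_a k973_A00pp_022_s3 k974_A00pp_022_s3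

theorem t9441_A00pp_022_s3 : ∃ t, chk3 f_A00pp_022_s3 t 2308 1979 314 = true := ex3_b k972_A00pp_022_s3 t9440_A00pp_022_s3

theorem t9442_A00pp_022_s3 : ∃ t, chk3 f_A00pp_022_s3 t 2308 1979 157 = true := ex3_c t9441_A00pp_022_s3 t9439_A00pp_022_s3

theorem t9443_A00pp_022_s3 : ∃ t, chk3 f_A00pp_022_s3 t 1154 1979 157 = true := ex3_a t9442_A00pp_022_s3 t9438_A00pp_022_s3

theorem t9444_A00pp_022_s3 : ∃ t, chk3 f_A00pp_022_s3 t 2309 3959 313 = true := ex3_a k970_A00pp_022_s3 k971_A00pp_022_s3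

theorem t9445_A00pp_022_s3 : ∃ t, chk3 f_A00pp_022_s3 t 2309 1979 313 = true := ex3_b k969_A00pp_022_s3 t9444_A00pp_022_s3

theorem t9446_A00pp_022_s3 : ∃ t, chk3 f_A00pp_022_s3 t 2309 1979 156 = true := ex3_c k968_A00pp_022_s3 t9445_A00pp_022_s3

theorem t9447_A00pp_022_s3 : ∃ t, chk3 f_A00pp_022_s3 t 2308 1979 312 = true := ex3_a k965_A00pp_022_s3 k966_A00pp_022_s3

theorem t9448_A00pp_022_s3 : ∃ t, chk3 f_A00pp_022_s3 t 2308 1979 156 = true := ex3_c t9447_A00pp_022_s3 k967_A00pp_022_s3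

theorem t9449_A00pp_022_s3 : ∃ t, chk3 f_A00pp_022_s3 t 1154 1979 156 = true := ex3_a t9448_A00pp_022_s3 t9446_A00pp_022_s3

theorem t9450_A00pp_022_s3 : ∃ t, chk3 f_A00pp_022_s3 t 1154 1979 78 = true := ex3_c t9449_A00pp_022_s3 t9443_A00pp_022_s3

theorem t9451_A00pp_022_s3 : ∃ t, chk3 f_A00pp_022_s3 t 2309 1978 157 = true := ex3_c k963_A00pp_022_s3 k964_A00pp_022_s3

theorem t9452_A00pp_022_s3 : ∃ t, chk3 f_A00pp_022_s3 t 1154 1978 157 = true := ex3_a k962_A00pp_022_s3 t9451_A00pp_022_s3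

theorem t9453_A00pp_022_s3 : ∃ t, chk3 f_A00pp_022_s3 t 2308 1978 312 = true := ex3_a k958_A00pp_022_s3 k959_A00pp_022_s3

theorem t9454_A00pp_022_s3 : ∃ t, chk3 f_A00pp_022_s3 t 1154 1978 312 = true := ex3_a t9453_A00pp_022_s3 k960_A00pp_022_s3

theorem t9455_A00pp_022_s3 : ∃ t, chk3 f_A00pp_022_s3 t 1154 1978 156 = true := ex3_c t9454_A00pp_022_s3 k961_A00pp_022_s3

theorem t9456_A00pp_022_s3 : ∃ t, chk3 f_A00pp_022_s3 t 1154 1978 78 = true := ex3_c t9455_A00pp_022_s3 t9452_A00pp_022_s3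

theorem t9457_A00pp_022_s3 : ∃ t, chk3 f_A00pp_022_s3 t 1154 989 78 = true := ex3_b t9456_A00pp_022_s3 t9450_A00pp_022_s3

theorem t9458_A00pp_022_s3 : ∃ t, chk3 f_A00pp_022_s3 t 577 989 78 = true := ex3_a t9457_A00pp_022_s3 t9435_A00pp_022_s3

theorem t9459_A00pp_022_s3 : ∃ t, chk3 f_A00pp_022_s3 t 577 989 39 = true := ex3_c t9458_A00pp_022_s3 t9420_A00pp_022_s3

theorem t9460_A00pp_022_s3 : ∃ t, chk3 f_A00pp_022_s3 t 1155 988 79 = true := ex3_b k956_A00pp_022_s3 k957_A00pp_022_s3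

theorem t9461_A00pp_022_s3 : ∃ t, chk3 f_A00pp_022_s3 t 1154 988 159 = true := ex3_b k954_A00pp_022_s3 k955_A00pp_022_s3

theorem t9462_A00pp_022_s3 : ∃ t, chk3 f_A00pp_022_s3 t 1154 1977 158 = true := ex3_a k952_A00pp_022_s3 k953_A00pp_022_s3

theorem t9463_A00pp_022_s3 : ∃ t, chk3 f_A00pp_022_s3 t 1154 988 158 = true := ex3_b k951_A00pp_022_s3 t9462_A00pp_022_s3

theorem t9464_A00pp_022_s3 : ∃ t, chk3 f_A00pp_022_s3 t 1154 988 79 = true := ex3_c t9463_A00pp_022_s3 t9461_A00pp_022_s3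

theorem t9465_A00pp_022_s3 : ∃ t, chk3 f_A00pp_022_s3 t 577 988 79 = true := ex3_a t9464_A00pp_022_s3 t9460_A00pp_022_s3

theorem t9466_A00pp_022_s3 : ∃ t, chk3 f_A00pp_022_s3 t 1155 1977 157 = true := ex3_a k949_A00pp_022_s3 k950_A00pp_022_s3

theorem t9467_A00pp_022_s3 : ∃ t, chk3 f_A00pp_022_s3 t 1155 988 157 = true := ex3_b k948_A00pp_022_s3 t9466_A00pp_022_s3

theorem t9468_A00pp_022_s3 : ∃ t, chk3 f_A00pp_022_s3 t 1155 988 78 = true := ex3_c k947_A00pp_022_s3 t9467_A00pp_022_s3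

theorem t9469_A00pp_022_s3 : ∃ t, chk3 f_A00pp_022_s3 t 2308 988 312 = true := ex3_c k942_A00pp_022_s3 k943_A00pp_022_s3

theorem t9470_A00pp_022_s3 : ∃ t, chk3 f_A00pp_022_s3 t 1154 988 312 = true := ex3_a t9469_A00pp_022_s3 k944_A00pp_022_s3

theorem t9471_A00pp_022_s3 : ∃ t, chk3 f_A00pp_022_s3 t 1154 988 156 = true := ex3_c t9470_A00pp_022_s3 k945_A00pp_022_s3

theorem t9472_A00pp_022_s3 : ∃ t, chk3 f_A00pp_022_s3 t 1154 988 78 = true := ex3_c t9471_A00pp_022_s3 k946_A00pp_022_s3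

theorem t9473_A00pp_022_s3 : ∃ t, chk3 f_A00pp_022_s3 t 577 988 78 = true := ex3_a t9472_A00pp_022_s3 t9468_A00pp_022_s3

theorem t9474_A00pp_022_s3 : ∃ t, chk3 f_A00pp_022_s3 t 577 988 39 = true := ex3_c t9473_A00pp_022_s3 t9465_A00pp_022_s3

theorem t9475_A00pp_022_s3 : ∃ t, chk3 f_A00pp_022_s3 t 577 494 39 = true := ex3_b t9474_A00pp_022_s3 t9459_A00pp_022_s3

theorem t9476_A00pp_022_s3 : ∃ t, chk3 f_A00pp_022_s3 t 1153 1978 159 = true := ex3_a k939_A00pp_022_s3 k940_A00pp_022_s3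

theorem t9477_A00pp_022_s3 : ∃ t, chk3 f_A00pp_022_s3 t 1153 989 159 = true := ex3_b t9476_A00pp_022_s3 k941_A00pp_022_s3

theorem t9478_A00pp_022_s3 : ∃ t, chk3 f_A00pp_022_s3 t 2307 1979 316 = true := ex3_b k936_A00pp_022_s3 k937_A00pp_022_s3

theorem t9479_A00pp_022_s3 : ∃ t, chk3 f_A00pp_022_s3 t 2307 1979 158 = true := ex3_c t9478_A00pp_022_s3 k938_A00pp_022_s3

theorem t9480_A00pp_022_s3 : ∃ t, chk3 f_A00pp_022_s3 t 2306 1979 317 = true := ex3_b k934_A00pp_022_s3 k935_A00pp_022_s3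

theorem t9481_A00pp_022_s3 : ∃ t, chk3 f_A00pp_022_s3 t 2306 1979 158 = true := ex3_c k933_A00pp_022_s3 t9480_A00pp_022_s3

theorem t9482_A00pp_022_s3 : ∃ t, chk3 f_A00pp_022_s3 t 1153 1979 158 = true := ex3_a t9481_A00pp_022_s3 t9479_A00pp_022_s3

theorem t9483_A00pp_022_s3 : ∃ t, chk3 f_A00pp_022_s3 t 1153 1978 158 = true := ex3_a k931_A00pp_022_s3 k932_A00pp_022_s3

theorem t9484_A00pp_022_s3 : ∃ t, chk3 f_A00pp_022_s3 t 1153 989 158 = true := ex3_b t9483_A00pp_022_s3 t9482_A00pp_022_s3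

theorem t9485_A00pp_022_s3 : ∃ t, chk3 f_A00pp_022_s3 t 1153 989 79 = true := ex3_c t9484_A00pp_022_s3 t9477_A00pp_022_s3

theorem t9486_A00pp_022_s3 : ∃ t, chk3 f_A00pp_022_s3 t 2305 1979 159 = true := ex3_c k929_A00pp_022_s3 k930_A00pp_022_s3

theorem t9487_A00pp_022_s3 : ∃ t, chk3 f_A00pp_022_s3 t 2304 1979 159 = true := ex3_c k927_A00pp_022_s3 k928_A00pp_022_s3

theorem t9488_A00pp_022_s3 : ∃ t, chk3 f_A00pp_022_s3 t 1152 1979 159 = true := ex3_a t9487_A00pp_022_s3 t9486_A00pp_022_s3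

theorem t9489_A00pp_022_s3 : ∃ t, chk3 f_A00pp_022_s3 t 1152 989 159 = true := ex3_b k926_A00pp_022_s3 t9488_A00pp_022_s3

theorem t9490_A00pp_022_s3 : ∃ t, chk3 f_A00pp_022_s3 t 1152 989 79 = true := ex3_c k925_A00pp_022_s3 t9489_A00pp_022_s3

theorem t9491_A00pp_022_s3 : ∃ t, chk3 f_A00pp_022_s3 t 576 989 79 = true := ex3_a t9490_A00pp_022_s3 t9485_A00pp_022_s3

theorem t9492_A00pp_022_s3 : ∃ t, chk3 f_A00pp_022_s3 t 1153 1979 157 = true := ex3_a k923_A00pp_022_s3 k924_A00pp_022_s3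

theorem t9493_A00pp_022_s3 : ∃ t, chk3 f_A00pp_022_s3 t 2307 1979 313 = true := ex3_c k921_A00pp_022_s3 k922_A00pp_022_s3

theorem t9494_A00pp_022_s3 : ∃ t, chk3 f_A00pp_022_s3 t 1153 1979 313 = true := ex3_a k920_A00pp_022_s3 t9493_A00pp_022_s3

theorem t9495_A00pp_022_s3 : ∃ t, chk3 f_A00pp_022_s3 t 1153 1979 156 = true := ex3_c k919_A00pp_022_s3 t9494_A00pp_022_s3

theorem t9496_A00pp_022_s3 : ∃ t, chk3 f_A00pp_022_s3 t 1153 1979 78 = true := ex3_c t9495_A00pp_022_s3 t9492_A00pp_022_s3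

theorem t9497_A00pp_022_s3 : ∃ t, chk3 f_A00pp_022_s3 t 2305 1979 157 = true := ex3_c k917_A00pp_022_s3 k918_A00pp_022_s3

theorem t9498_A00pp_022_s3 : ∃ t, chk3 f_A00pp_022_s3 t 2304 1979 315 = true := ex3_c k915_A00pp_022_s3 k916_A00pp_022_s3

theorem t9499_A00pp_022_s3 : ∃ t, chk3 f_A00pp_022_s3 t 2304 1979 157 = true := ex3_c k914_A00pp_022_s3 t9498_A00pp_022_s3

theorem t9500_A00pp_022_s3 : ∃ t, chk3 f_A00pp_022_s3 t 1152 1979 157 = true := ex3_a t9499_A00pp_022_s3 t9497_A00pp_022_s3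

theorem t9501_A00pp_022_s3 : ∃ t, chk3 f_A00pp_022_s3 t 1152 1979 78 = true := ex3_c k913_A00pp_022_s3 t9500_A00pp_022_s3

theorem t9502_A00pp_022_s3 : ∃ t, chk3 f_A00pp_022_s3 t 576 1979 78 = true := ex3_a t9501_A00pp_022_s3 t9496_A00pp_022_s3

theorem t9503_A00pp_022_s3 : ∃ t, chk3 f_A00pp_022_s3 t 1153 1978 313 = true := ex3_a k910_A00pp_022_s3 k911_A00pp_022_s3

theorem t9504_A00pp_022_s3 : ∃ t, chk3 f_A00pp_022_s3 t 1153 1978 156 = true := ex3_c k909_A00pp_022_s3 t9503_A00pp_022_s3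

theorem t9505_A00pp_022_s3 : ∃ t, chk3 f_A00pp_022_s3 t 1153 1978 78 = true := ex3_c t9504_A00pp_022_s3 k912_A00pp_022_s3

theorem t9506_A00pp_022_s3 : ∃ t, chk3 f_A00pp_022_s3 t 1152 1978 157 = true := ex3_c k907_A00pp_022_s3 k908_A00pp_022_s3

theorem t9507_A00pp_022_s3 : ∃ t, chk3 f_A00pp_022_s3 t 1152 1978 78 = true := ex3_c k906_A00pp_022_s3 t9506_A00pp_022_s3

theorem t9508_A00pp_022_s3 : ∃ t, chk3 f_A00pp_022_s3 t 576 1978 78 = true := ex3_a t9507_A00pp_022_s3 t9505_A00pp_022_s3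

theorem t9509_A00pp_022_s3 : ∃ t, chk3 f_A00pp_022_s3 t 576 989 78 = true := ex3_b t9508_A00pp_022_s3 t9502_A00pp_022_s3

theorem t9510_A00pp_022_s3 : ∃ t, chk3 f_A00pp_022_s3 t 576 989 39 = true := ex3_c t9509_A00pp_022_s3 t9491_A00pp_022_s3

theorem t9511_A00pp_022_s3 : ∃ t, chk3 f_A00pp_022_s3 t 1153 988 159 = true := ex3_b k904_A00pp_022_s3 k905_A00pp_022_s3

theorem t9512_A00pp_022_s3 : ∃ t, chk3 f_A00pp_022_s3 t 1153 988 79 = true := ex3_c k903_A00pp_022_s3 t9511_A00pp_022_s3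

theorem t9513_A00pp_022_s3 : ∃ t, chk3 f_A00pp_022_s3 t 576 988 79 = true := ex3_a k902_A00pp_022_s3 t9512_A00pp_022_s3

theorem t9514_A00pp_022_s3 : ∃ t, chk3 f_A00pp_022_s3 t 2304 988 315 = true := ex3_a k898_A00pp_022_s3 k899_A00pp_022_s3

theorem t9515_A00pp_022_s3 : ∃ t, chk3 f_A00pp_022_s3 t 1152 988 315 = true := ex3_a t9514_A00pp_022_s3 k900_A00pp_022_s3

theorem t9516_A00pp_022_s3 : ∃ t, chk3 f_A00pp_022_s3 t 1152 988 157 = true := ex3_c k897_A00pp_022_s3 t9515_A00pp_022_s3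

theorem t9517_A00pp_022_s3 : ∃ t, chk3 f_A00pp_022_s3 t 576 988 157 = true := ex3_a t9516_A00pp_022_s3 k901_A00pp_022_s3

theorem t9518_A00pp_022_s3 : ∃ t, chk3 f_A00pp_022_s3 t 2307 988 313 = true := ex3_b k895_A00pp_022_s3 k896_A00pp_022_s3

theorem t9519_A00pp_022_s3 : ∃ t, chk3 f_A00pp_022_s3 t 1153 988 313 = true := ex3_a k894_A00pp_022_s3 t9518_A00pp_022_s3

theorem t9520_A00pp_022_s3 : ∃ t, chk3 f_A00pp_022_s3 t 1153 988 156 = true := ex3_c k893_A00pp_022_s3 t9519_A00pp_022_s3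

theorem t9521_A00pp_022_s3 : ∃ t, chk3 f_A00pp_022_s3 t 576 988 156 = true := ex3_a k892_A00pp_022_s3 t9520_A00pp_022_s3

theorem t9522_A00pp_022_s3 : ∃ t, chk3 f_A00pp_022_s3 t 576 988 78 = true := ex3_c t9521_A00pp_022_s3 t9517_A00pp_022_s3

theorem t9523_A00pp_022_s3 : ∃ t, chk3 f_A00pp_022_s3 t 576 988 39 = true := ex3_c t9522_A00pp_022_s3 t9513_A00pp_022_s3

theorem t9524_A00pp_022_s3 : ∃ t, chk3 f_A00pp_022_s3 t 576 494 39 = true := ex3_b t9523_A00pp_022_s3 t9510_A00pp_022_s3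

theorem t9525_A00pp_022_s3 : ∃ t, chk3 f_A00pp_022_s3 t 288 494 39 = true := ex3_a t9524_A00pp_022_s3 t9475_A00pp_022_s3

theorem t9526_A00pp_022_s3 : ∃ t, chk3 f_A00pp_022_s3 t 144 494 39 = true := ex3_a t9525_A00pp_022_s3 t9415_A00pp_022_s3

theorem t9527_A00pp_022_s3 : ∃ t, chk3 f_A00pp_022_s3 t 144 247 39 = true := ex3_b t9526_A00pp_022_s3 t9397_A00pp_022_s3

theorem t9528_A00pp_022_s3 : ∃ t, chk3 f_A00pp_022_s3 t 576 990 38 = true := ex3_b k887_A00pp_022_s3 k888_A00pp_022_s3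

theorem t9529_A00pp_022_s3 : ∃ t, chk3 f_A00pp_022_s3 t 576 495 38 = true := ex3_b t9528_A00pp_022_s3 k889_A00pp_022_s3

theorem t9530_A00pp_022_s3 : ∃ t, chk3 f_A00pp_022_s3 t 288 495 38 = true := ex3_a t9529_A00pp_022_s3 k890_A00pp_022_s3

theorem t9531_A00pp_022_s3 : ∃ t, chk3 f_A00pp_022_s3 t 144 495 38 = true := ex3_a t9530_A00pp_022_s3 k891_A00pp_022_s3

theorem t9532_A00pp_022_s3 : ∃ t, chk3 f_A00pp_022_s3 t 1159 494 77 = true := ex3_b k885_A00pp_022_s3 k886_A00pp_022_s3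

theorem t9533_A00pp_022_s3 : ∃ t, chk3 f_A00pp_022_s3 t 1158 988 155 = true := ex3_b k882_A00pp_022_s3 k883_A00pp_022_s3

theorem t9534_A00pp_022_s3 : ∃ t, chk3 f_A00pp_022_s3 t 2316 3955 308 = true := ex3_a k878_A00pp_022_s3 k879_A00pp_022_s3

theorem t9535_A00pp_022_s3 : ∃ t, chk3 f_A00pp_022_s3 t 2316 1977 308 = true := ex3_b k877_A00pp_022_s3 t9534_A00pp_022_s3

theorem t9536_A00pp_022_s3 : ∃ t, chk3 f_A00pp_022_s3 t 2316 1977 154 = true := ex3_c t9535_A00pp_022_s3 k880_A00pp_022_s3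

theorem t9537_A00pp_022_s3 : ∃ t, chk3 f_A00pp_022_s3 t 1158 1977 154 = true := ex3_a t9536_A00pp_022_s3 k881_A00pp_022_s3

theorem t9538_A00pp_022_s3 : ∃ t, chk3 f_A00pp_022_s3 t 2317 1976 154 = true := ex3_c k875_A00pp_022_s3 k876_A00pp_022_s3

theorem t9539_A00pp_022_s3 : ∃ t, chk3 f_A00pp_022_s3 t 1158 1976 154 = true := ex3_a k874_A00pp_022_s3 t9538_A00pp_022_s3

theorem t9540_A00pp_022_s3 : ∃ t, chk3 f_A00pp_022_s3 t 1158 988 154 = true := ex3_b t9539_A00pp_022_s3 t9537_A00pp_022_s3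

theorem t9541_A00pp_022_s3 : ∃ t, chk3 f_A00pp_022_s3 t 1158 988 77 = true := ex3_c t9540_A00pp_022_s3 t9533_A00pp_022_s3

theorem t9542_A00pp_022_s3 : ∃ t, chk3 f_A00pp_022_s3 t 1158 494 77 = true := ex3_b t9541_A00pp_022_s3 k884_A00pp_022_s3

theorem t9543_A00pp_022_s3 : ∃ t, chk3 f_A00pp_022_s3 t 579 494 77 = true := ex3_a t9542_A00pp_022_s3 t9532_A00pp_022_s3

theorem t9544_A00pp_022_s3 : ∃ t, chk3 f_A00pp_022_s3 t 2314 3956 310 = true := ex3_a k868_A00pp_022_s3 k869_A00pp_022_s3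

theorem t9545_A00pp_022_s3 : ∃ t, chk3 f_A00pp_022_s3 t 2314 3956 155 = true := ex3_c t9544_A00pp_022_s3 k870_A00pp_022_s3

theorem t9546_A00pp_022_s3 : ∃ t, chk3 f_A00pp_022_s3 t 2314 1978 155 = true := ex3_b t9545_A00pp_022_s3 k871_A00pp_022_s3

theorem t9547_A00pp_022_s3 : ∃ t, chk3 f_A00pp_022_s3 t 1157 1978 155 = true := ex3_a t9546_A00pp_022_s3 k872_A00pp_022_s3

theorem t9548_A00pp_022_s3 : ∃ t, chk3 f_A00pp_022_s3 t 1157 989 155 = true := ex3_b t9547_A00pp_022_s3 k873_A00pp_022_s3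

theorem t9549_A00pp_022_s3 : ∃ t, chk3 f_A00pp_022_s3 t 2315 1978 154 = true := ex3_c k865_A00pp_022_s3 k866_A00pp_022_s3

theorem t9550_A00pp_022_s3 : ∃ t, chk3 f_A00pp_022_s3 t 2314 1978 154 = true := ex3_c k863_A00pp_022_s3 k864_A00pp_022_s3

theorem t9551_A00pp_022_s3 : ∃ t, chk3 f_A00pp_022_s3 t 1157 1978 154 = true := ex3_a t9550_A00pp_022_s3 t9549_A00pp_022_s3

theorem t9552_A00pp_022_s3 : ∃ t, chk3 f_A00pp_022_s3 t 1157 989 154 = true := ex3_b t9551_A00pp_022_s3 k867_A00pp_022_s3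

theorem t9553_A00pp_022_s3 : ∃ t, chk3 f_A00pp_022_s3 t 1157 989 77 = true := ex3_c t9552_A00pp_022_s3 t9548_A00pp_022_s3

theorem t9554_A00pp_022_s3 : ∃ t, chk3 f_A00pp_022_s3 t 2313 1978 311 = true := ex3_b k860_A00pp_022_s3 k861_A00pp_022_s3

theorem t9555_A00pp_022_s3 : ∃ t, chk3 f_A00pp_022_s3 t 2313 1978 310 = true := ex3_b k858_A00pp_022_s3 k859_A00pp_022_s3

theorem t9556_A00pp_022_s3 : ∃ t, chk3 f_A00pp_022_s3 t 2313 1978 155 = true := ex3_c t9555_A00pp_022_s3 t9554_A00pp_022_s3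

theorem t9557_A00pp_022_s3 : ∃ t, chk3 f_A00pp_022_s3 t 2312 3957 311 = true := ex3_a k856_A00pp_022_s3 k857_A00pp_022_s3

theorem t9558_A00pp_022_s3 : ∃ t, chk3 f_A00pp_022_s3 t 2312 1978 311 = true := ex3_b k855_A00pp_022_s3 t9557_A00pp_022_s3

theorem t9559_A00pp_022_s3 : ∃ t, chk3 f_A00pp_022_s3 t 2312 1978 155 = true := ex3_c k854_A00pp_022_s3 t9558_A00pp_022_s3

theorem t9560_A00pp_022_s3 : ∃ t, chk3 f_A00pp_022_s3 t 1156 1978 155 = true := ex3_a t9559_A00pp_022_s3 t9556_A00pp_022_s3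

theorem t9561_A00pp_022_s3 : ∃ t, chk3 f_A00pp_022_s3 t 1156 3957 154 = true := ex3_a k852_A00pp_022_s3 k853_A00pp_022_s3

theorem t9562_A00pp_022_s3 : ∃ t, chk3 f_A00pp_022_s3 t 1156 3956 154 = true := ex3_a k850_A00pp_022_s3 k851_A00pp_022_s3

theorem t9563_A00pp_022_s3 : ∃ t, chk3 f_A00pp_022_s3 t 1156 1978 154 = true := ex3_b t9562_A00pp_022_s3 t9561_A00pp_022_s3

theorem t9564_A00pp_022_s3 : ∃ t, chk3 f_A00pp_022_s3 t 1156 1978 77 = true := ex3_c t9563_A00pp_022_s3 t9560_A00pp_022_s3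

theorem t9565_A00pp_022_s3 : ∃ t, chk3 f_A00pp_022_s3 t 1156 989 77 = true := ex3_b t9564_A00pp_022_s3 k862_A00pp_022_s3

theorem t9566_A00pp_022_s3 : ∃ t, chk3 f_A00pp_022_s3 t 578 989 77 = true := ex3_a t9565_A00pp_022_s3 t9553_A00pp_022_s3

theorem t9567_A00pp_022_s3 : ∃ t, chk3 f_A00pp_022_s3 t 2315 1977 155 = true := ex3_b k848_A00pp_022_s3 k849_A00pp_022_s3

theorem t9568_A00pp_022_s3 : ∃ t, chk3 f_A00pp_022_s3 t 2314 1977 311 = true := ex3_b k846_A00pp_022_s3 k847_A00pp_022_s3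

theorem t9569_A00pp_022_s3 : ∃ t, chk3 f_A00pp_022_s3 t 2314 1977 155 = true := ex3_c k845_A00pp_022_s3 t9568_A00pp_022_s3

theorem t9570_A00pp_022_s3 : ∃ t, chk3 f_A00pp_022_s3 t 1157 1977 155 = true := ex3_a t9569_A00pp_022_s3 t9567_A00pp_022_s3

theorem t9571_A00pp_022_s3 : ∃ t, chk3 f_A00pp_022_s3 t 2315 1976 155 = true := ex3_c k843_A00pp_022_s3 k844_A00pp_022_s3

theorem t9572_A00pp_022_s3 : ∃ t, chk3 f_A00pp_022_s3 t 1157 1976 155 = true := ex3_a k842_A00pp_022_s3 t9571_A00pp_022_s3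

theorem t9573_A00pp_022_s3 : ∃ t, chk3 f_A00pp_022_s3 t 1157 988 155 = true := ex3_b t9572_A00pp_022_s3 t9570_A00pp_022_s3

theorem t9574_A00pp_022_s3 : ∃ t, chk3 f_A00pp_022_s3 t 2315 3955 309 = true := ex3_a k840_A00pp_022_s3 k841_A00pp_022_s3

theorem t9575_A00pp_022_s3 : ∃ t, chk3 f_A00pp_022_s3 t 2315 1977 309 = true := ex3_b k839_A00pp_022_s3 t9574_A00pp_022_s3

theorem t9576_A00pp_022_s3 : ∃ t, chk3 f_A00pp_022_s3 t 2315 1977 154 = true := ex3_c k838_A00pp_022_s3 t9575_A00pp_022_s3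

theorem t9577_A00pp_022_s3 : ∃ t, chk3 f_A00pp_022_s3 t 1157 1977 154 = true := ex3_a k837_A00pp_022_s3 t9576_A00pp_022_s3

theorem t9578_A00pp_022_s3 : ∃ t, chk3 f_A00pp_022_s3 t 1157 988 154 = true := ex3_b k836_A00pp_022_s3 t9577_A00pp_022_s3

theorem t9579_A00pp_022_s3 : ∃ t, chk3 f_A00pp_022_s3 t 1157 988 77 = true := ex3_c t9578_A00pp_022_s3 t9573_A00pp_022_s3

theorem t9580_A00pp_022_s3 : ∃ t, chk3 f_A00pp_022_s3 t 2312 1977 309 = true := ex3_c k832_A00pp_022_s3 k833_A00pp_022_s3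

theorem t9581_A00pp_022_s3 : ∃ t, chk3 f_A00pp_022_s3 t 1156 1977 309 = true := ex3_a t9580_A00pp_022_s3 k834_A00pp_022_s3

theorem t9582_A00pp_022_s3 : ∃ t, chk3 f_A00pp_022_s3 t 2313 1977 308 = true := ex3_c k830_A00pp_022_s3 k831_A00pp_022_s3

theorem t9583_A00pp_022_s3 : ∃ t, chk3 f_A00pp_022_s3 t 1156 1977 308 = true := ex3_a k829_A00pp_022_s3 t9582_A00pp_022_s3

theorem t9584_A00pp_022_s3 : ∃ t, chk3 f_A00pp_022_s3 t 1156 1977 154 = true := ex3_c t9583_A00pp_022_s3 t9581_A00pp_022_s3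

theorem t9585_A00pp_022_s3 : ∃ t, chk3 f_A00pp_022_s3 t 1156 1977 77 = true := ex3_c t9584_A00pp_022_s3 k835_A00pp_022_s3

theorem t9586_A00pp_022_s3 : ∃ t, chk3 f_A00pp_022_s3 t 1156 1976 154 = true := ex3_c k826_A00pp_022_s3 k827_A00pp_022_s3

theorem t9587_A00pp_022_s3 : ∃ t, chk3 f_A00pp_022_s3 t 1156 1976 77 = true := ex3_c t9586_A00pp_022_s3 k828_A00pp_022_s3

theorem t9588_A00pp_022_s3 : ∃ t, chk3 f_A00pp_022_s3 t 1156 988 77 = true := ex3_b t9587_A00pp_022_s3 t9585_A00pp_022_s3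

theorem t9589_A00pp_022_s3 : ∃ t, chk3 f_A00pp_022_s3 t 578 988 77 = true := ex3_a t9588_A00pp_022_s3 t9579_A00pp_022_s3

theorem t9590_A00pp_022_s3 : ∃ t, chk3 f_A00pp_022_s3 t 578 494 77 = true := ex3_b t9589_A00pp_022_s3 t9566_A00pp_022_s3

theorem t9591_A00pp_022_s3 : ∃ t, chk3 f_A00pp_022_s3 t 289 494 77 = true := ex3_a t9590_A00pp_022_s3 t9543_A00pp_022_s3

theorem t9592_A00pp_022_s3 : ∃ t, chk3 f_A00pp_022_s3 t 1157 3956 153 = true := ex3_a k821_A00pp_022_s3 k822_A00pp_022_s3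

theorem t9593_A00pp_022_s3 : ∃ t, chk3 f_A00pp_022_s3 t 1157 3956 76 = true := ex3_c k820_A00pp_022_s3 t9592_A00pp_022_s3

theorem t9594_A00pp_022_s3 : ∃ t, chk3 f_A00pp_022_s3 t 578 3956 76 = true := ex3_a k819_A00pp_022_s3 t9593_A00pp_022_s3

theorem t9595_A00pp_022_s3 : ∃ t, chk3 f_A00pp_022_s3 t 578 1978 76 = true := ex3_b t9594_A00pp_022_s3 k823_A00pp_022_s3

theorem t9596_A00pp_022_s3 : ∃ t, chk3 f_A00pp_022_s3 t 289 1978 76 = true := ex3_a t9595_A00pp_022_s3 k824_A00pp_022_s3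

theorem t9597_A00pp_022_s3 : ∃ t, chk3 f_A00pp_022_s3 t 289 989 76 = true := ex3_b t9596_A00pp_022_s3 k825_A00pp_022_s3

theorem t9598_A00pp_022_s3 : ∃ t, chk3 f_A00pp_022_s3 t 2318 1977 153 = true := ex3_c k816_A00pp_022_s3 k817_A00pp_022_s3

theorem t9599_A00pp_022_s3 : ∃ t, chk3 f_A00pp_022_s3 t 1159 1977 153 = true := ex3_a t9598_A00pp_022_s3 k818_A00pp_022_s3

theorem t9600_A00pp_022_s3 : ∃ t, chk3 f_A00pp_022_s3 t 1159 1977 152 = true := ex3_a k814_A00pp_022_s3 k815_A00pp_022_s3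

theorem t9601_A00pp_022_s3 : ∃ t, chk3 f_A00pp_022_s3 t 1159 1977 76 = true := ex3_c t9600_A00pp_022_s3 t9599_A00pp_022_s3

theorem t9602_A00pp_022_s3 : ∃ t, chk3 f_A00pp_022_s3 t 1158 3955 153 = true := ex3_a k812_A00pp_022_s3 k813_A00pp_022_s3

theorem t9603_A00pp_022_s3 : ∃ t, chk3 f_A00pp_022_s3 t 1158 3955 76 = true := ex3_c k811_A00pp_022_s3 t9602_A00pp_022_s3

theorem t9604_A00pp_022_s3 : ∃ t, chk3 f_A00pp_022_s3 t 1158 3954 153 = true := ex3_a k809_A00pp_022_s3 k810_A00pp_022_s3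

theorem t9605_A00pp_022_s3 : ∃ t, chk3 f_A00pp_022_s3 t 1158 3954 76 = true := ex3_c k808_A00pp_022_s3 t9604_A00pp_022_s3

theorem t9606_A00pp_022_s3 : ∃ t, chk3 f_A00pp_022_s3 t 1158 1977 76 = true := ex3_b t9605_A00pp_022_s3 t9603_A00pp_022_s3

theorem t9607_A00pp_022_s3 : ∃ t, chk3 f_A00pp_022_s3 t 579 1977 76 = true := ex3_a t9606_A00pp_022_s3 t9601_A00pp_022_s3

theorem t9608_A00pp_022_s3 : ∃ t, chk3 f_A00pp_022_s3 t 2319 3953 306 = true := ex3_a k805_A00pp_022_s3 k806_A00pp_022_s3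

theorem t9609_A00pp_022_s3 : ∃ t, chk3 f_A00pp_022_s3 t 2319 1976 306 = true := ex3_b k804_A00pp_022_s3 t9608_A00pp_022_s3

theorem t9610_A00pp_022_s3 : ∃ t, chk3 f_A00pp_022_s3 t 2319 1976 153 = true := ex3_c t9609_A00pp_022_s3 k807_A00pp_022_s3

theorem t9611_A00pp_022_s3 : ∃ t, chk3 f_A00pp_022_s3 t 2318 1976 307 = true := ex3_b k802_A00pp_022_s3 k803_A00pp_022_s3

theorem t9612_A00pp_022_s3 : ∃ t, chk3 f_A00pp_022_s3 t 2318 1976 153 = true := ex3_c k801_A00pp_022_s3 t9611_A00pp_022_s3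

theorem t9613_A00pp_022_s3 : ∃ t, chk3 f_A00pp_022_s3 t 1159 1976 153 = true := ex3_a t9612_A00pp_022_s3 t9610_A00pp_022_s3

theorem t9614_A00pp_022_s3 : ∃ t, chk3 f_A00pp_022_s3 t 2318 1976 152 = true := ex3_c k798_A00pp_022_s3 k799_A00pp_022_s3

theorem t9615_A00pp_022_s3 : ∃ t, chk3 f_A00pp_022_s3 t 1159 1976 152 = true := ex3_a t9614_A00pp_022_s3 k800_A00pp_022_s3

theorem t9616_A00pp_022_s3 : ∃ t, chk3 f_A00pp_022_s3 t 1159 1976 76 = true := ex3_c t9615_A00pp_022_s3 t9613_A00pp_022_s3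

theorem t9617_A00pp_022_s3 : ∃ t, chk3 f_A00pp_022_s3 t 2316 1976 153 = true := ex3_c k795_A00pp_022_s3 k796_A00pp_022_s3

theorem t9618_A00pp_022_s3 : ∃ t, chk3 f_A00pp_022_s3 t 1158 1976 153 = true := ex3_a t9617_A00pp_022_s3 k797_A00pp_022_s3

theorem t9619_A00pp_022_s3 : ∃ t, chk3 f_A00pp_022_s3 t 2317 1976 305 = true := ex3_c k793_A00pp_022_s3 k794_A00pp_022_s3

theorem t9620_A00pp_022_s3 : ∃ t, chk3 f_A00pp_022_s3 t 1158 1976 305 = true := ex3_a k792_A00pp_022_s3 t9619_A00pp_022_s3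

theorem t9621_A00pp_022_s3 : ∃ t, chk3 f_A00pp_022_s3 t 1158 1976 152 = true := ex3_c k791_A00pp_022_s3 t9620_A00pp_022_s3

theorem t9622_A00pp_022_s3 : ∃ t, chk3 f_A00pp_022_s3 t 1158 1976 76 = true := ex3_c t9621_A00pp_022_s3 t9618_A00pp_022_s3

theorem t9623_A00pp_022_s3 : ∃ t, chk3 f_A00pp_022_s3 t 579 1976 76 = true := ex3_a t9622_A00pp_022_s3 t9616_A00pp_022_s3

theorem t9624_A00pp_022_s3 : ∃ t, chk3 f_A00pp_022_s3 t 579 988 76 = true := ex3_b t9623_A00pp_022_s3 t9607_A00pp_022_s3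

theorem t9625_A00pp_022_s3 : ∃ t, chk3 f_A00pp_022_s3 t 1157 1977 307 = true := ex3_a k789_A00pp_022_s3 k790_A00pp_022_s3

theorem t9626_A00pp_022_s3 : ∃ t, chk3 f_A00pp_022_s3 t 1157 1977 153 = true := ex3_c k788_A00pp_022_s3 t9625_A00pp_022_s3

theorem t9627_A00pp_022_s3 : ∃ t, chk3 f_A00pp_022_s3 t 1157 1977 76 = true := ex3_c k787_A00pp_022_s3 t9626_A00pp_022_s3

theorem t9628_A00pp_022_s3 : ∃ t, chk3 f_A00pp_022_s3 t 578 1977 76 = true := ex3_a k786_A00pp_022_s3 t9627_A00pp_022_s3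

theorem t9629_A00pp_022_s3 : ∃ t, chk3 f_A00pp_022_s3 t 1157 1976 307 = true := ex3_a k784_A00pp_022_s3 k785_A00pp_022_s3

theorem t9630_A00pp_022_s3 : ∃ t, chk3 f_A00pp_022_s3 t 1157 1976 153 = true := ex3_c k783_A00pp_022_s3 t9629_A00pp_022_s3

theorem t9631_A00pp_022_s3 : ∃ t, chk3 f_A00pp_022_s3 t 578 1976 153 = true := ex3_a k782_A00pp_022_s3 t9630_A00pp_022_s3

theorem t9632_A00pp_022_s3 : ∃ t, chk3 f_A00pp_022_s3 t 578 1976 76 = true := ex3_c k781_A00pp_022_s3 t9631_A00pp_022_s3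

theorem t9633_A00pp_022_s3 : ∃ t, chk3 f_A00pp_022_s3 t 578 988 76 = true := ex3_b t9632_A00pp_022_s3 t9628_A00pp_022_s3

theorem t9634_A00pp_022_s3 : ∃ t, chk3 f_A00pp_022_s3 t 289 988 76 = true := ex3_a t9633_A00pp_022_s3 t9624_A00pp_022_s3

theorem t9635_A00pp_022_s3 : ∃ t, chk3 f_A00pp_022_s3 t 289 494 76 = true := ex3_b t9634_A00pp_022_s3 t9597_A00pp_022_s3

theorem t9636_A00pp_022_s3 : ∃ t, chk3 f_A00pp_022_s3 t 289 494 38 = true := ex3_c t9635_A00pp_022_s3 t9591_A00pp_022_s3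

theorem t9637_A00pp_022_s3 : ∃ t, chk3 f_A00pp_022_s3 t 2311 3958 77 = true := ex3_c k778_A00pp_022_s3 k779_A00pp_022_s3

theorem t9638_A00pp_022_s3 : ∃ t, chk3 f_A00pp_022_s3 t 1155 3958 77 = true := ex3_a k777_A00pp_022_s3 t9637_A00pp_022_s3

theorem t9639_A00pp_022_s3 : ∃ t, chk3 f_A00pp_022_s3 t 1155 1979 77 = true := ex3_b t9638_A00pp_022_s3 k780_A00pp_022_s3

theorem t9640_A00pp_022_s3 : ∃ t, chk3 f_A00pp_022_s3 t 1154 1979 77 = true := ex3_b k775_A00pp_022_s3 k776_A00pp_022_s3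

theorem t9641_A00pp_022_s3 : ∃ t, chk3 f_A00pp_022_s3 t 577 1979 77 = true := ex3_a t9640_A00pp_022_s3 t9639_A00pp_022_s3

theorem t9642_A00pp_022_s3 : ∃ t, chk3 f_A00pp_022_s3 t 288 1979 77 = true := ex3_a k774_A00pp_022_s3 t9641_A00pp_022_s3

theorem t9643_A00pp_022_s3 : ∃ t, chk3 f_A00pp_022_s3 t 1155 3957 155 = true := ex3_c k772_A00pp_022_s3 k773_A00pp_022_s3

theorem t9644_A00pp_022_s3 : ∃ t, chk3 f_A00pp_022_s3 t 1155 3957 77 = true := ex3_c k771_A00pp_022_s3 t9643_A00pp_022_s3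

theorem t9645_A00pp_022_s3 : ∃ t, chk3 f_A00pp_022_s3 t 1155 3956 155 = true := ex3_c k769_A00pp_022_s3 k770_A00pp_022_s3

theorem t9646_A00pp_022_s3 : ∃ t, chk3 f_A00pp_022_s3 t 1155 3956 77 = true := ex3_c k768_A00pp_022_s3 t9645_A00pp_022_s3

theorem t9647_A00pp_022_s3 : ∃ t, chk3 f_A00pp_022_s3 t 1155 1978 77 = true := ex3_b t9646_A00pp_022_s3 t9644_A00pp_022_s3

theorem t9648_A00pp_022_s3 : ∃ t, chk3 f_A00pp_022_s3 t 1154 1978 311 = true := ex3_a k766_A00pp_022_s3 k767_A00pp_022_s3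

theorem t9649_A00pp_022_s3 : ∃ t, chk3 f_A00pp_022_s3 t 1154 1978 155 = true := ex3_c k765_A00pp_022_s3 t9648_A00pp_022_s3

theorem t9650_A00pp_022_s3 : ∃ t, chk3 f_A00pp_022_s3 t 1154 1978 77 = true := ex3_c k764_A00pp_022_s3 t9649_A00pp_022_s3

theorem t9651_A00pp_022_s3 : ∃ t, chk3 f_A00pp_022_s3 t 577 1978 77 = true := ex3_a t9650_A00pp_022_s3 t9647_A00pp_022_s3

theorem t9652_A00pp_022_s3 : ∃ t, chk3 f_A00pp_022_s3 t 288 1978 77 = true := ex3_a k763_A00pp_022_s3 t9651_A00pp_022_s3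

theorem t9653_A00pp_022_s3 : ∃ t, chk3 f_A00pp_022_s3 t 288 989 77 = true := ex3_b t9652_A00pp_022_s3 t9642_A00pp_022_s3

theorem t9654_A00pp_022_s3 : ∃ t, chk3 f_A00pp_022_s3 t 288 989 76 = true := ex3_b k761_A00pp_022_s3 k762_A00pp_022_s3

theorem t9655_A00pp_022_s3 : ∃ t, chk3 f_A00pp_022_s3 t 288 989 38 = true := ex3_c t9654_A00pp_022_s3 t9653_A00pp_022_s3

theorem t9656_A00pp_022_s3 : ∃ t, chk3 f_A00pp_022_s3 t 1155 1977 310 = true := ex3_a k758_A00pp_022_s3 k759_A00pp_022_s3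

theorem t9657_A00pp_022_s3 : ∃ t, chk3 f_A00pp_022_s3 t 1155 1977 155 = true := ex3_c t9656_A00pp_022_s3 k760_A00pp_022_s3

theorem t9658_A00pp_022_s3 : ∃ t, chk3 f_A00pp_022_s3 t 577 1977 155 = true := ex3_a k757_A00pp_022_s3 t9657_A00pp_022_s3

theorem t9659_A00pp_022_s3 : ∃ t, chk3 f_A00pp_022_s3 t 577 1977 77 = true := ex3_c k756_A00pp_022_s3 t9658_A00pp_022_s3

theorem t9660_A00pp_022_s3 : ∃ t, chk3 f_A00pp_022_s3 t 577 1977 38 = true := ex3_c k755_A00pp_022_s3 t9659_A00pp_022_s3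

theorem t9661_A00pp_022_s3 : ∃ t, chk3 f_A00pp_022_s3 t 288 1977 38 = true := ex3_a k754_A00pp_022_s3 t9660_A00pp_022_s3

theorem t9662_A00pp_022_s3 : ∃ t, chk3 f_A00pp_022_s3 t 1155 1976 155 = true := ex3_c k752_A00pp_022_s3 k753_A00pp_022_s3

theorem t9663_A00pp_022_s3 : ∃ t, chk3 f_A00pp_022_s3 t 577 1976 155 = true := ex3_a k751_A00pp_022_s3 t9662_A00pp_022_s3

theorem t9664_A00pp_022_s3 : ∃ t, chk3 f_A00pp_022_s3 t 577 1976 77 = true := ex3_c k750_A00pp_022_s3 t9663_A00pp_022_s3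

theorem t9665_A00pp_022_s3 : ∃ t, chk3 f_A00pp_022_s3 t 288 1976 77 = true := ex3_a k749_A00pp_022_s3 t9664_A00pp_022_s3

theorem t9666_A00pp_022_s3 : ∃ t, chk3 f_A00pp_022_s3 t 288 1976 38 = true := ex3_c k748_A00pp_022_s3 t9665_A00pp_022_s3

theorem t9667_A00pp_022_s3 : ∃ t, chk3 f_A00pp_022_s3 t 288 988 38 = true := ex3_b t9666_A00pp_022_s3 t9661_A00pp_022_s3

theorem t9668_A00pp_022_s3 : ∃ t, chk3 f_A00pp_022_s3 t 288 494 38 = true := ex3_b t9667_A00pp_022_s3 t9655_A00pp_022_s3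

theorem t9669_A00pp_022_s3 : ∃ t, chk3 f_A00pp_022_s3 t 144 494 38 = true := ex3_a t9668_A00pp_022_s3 t9636_A00pp_022_s3

theorem t9670_A00pp_022_s3 : ∃ t, chk3 f_A00pp_022_s3 t 144 247 38 = true := ex3_b t9669_A00pp_022_s3 t9531_A00pp_022_s3

theorem t9671_A00pp_022_s3 : ∃ t, chk3 f_A00pp_022_s3 t 144 247 19 = true := ex3_c t9670_A00pp_022_s3 t9527_A00pp_022_s3

theorem t9672_A00pp_022_s3 : ∃ t, chk3 f_A00pp_022_s3 t 288 495 37 = true := ex3_a k745_A00pp_022_s3 k746_A00pp_022_s3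

theorem t9673_A00pp_022_s3 : ∃ t, chk3 f_A00pp_022_s3 t 144 495 37 = true := ex3_a t9672_A00pp_022_s3 k747_A00pp_022_s3

theorem t9674_A00pp_022_s3 : ∃ t, chk3 f_A00pp_022_s3 t 289 989 37 = true := ex3_b k743_A00pp_022_s3 k744_A00pp_022_s3

theorem t9675_A00pp_022_s3 : ∃ t, chk3 f_A00pp_022_s3 t 144 989 37 = true := ex3_a k742_A00pp_022_s3 t9674_A00pp_022_s3

theorem t9676_A00pp_022_s3 : ∃ t, chk3 f_A00pp_022_s3 t 289 1977 37 = true := ex3_c k740_A00pp_022_s3 k741_A00pp_022_s3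

theorem t9677_A00pp_022_s3 : ∃ t, chk3 f_A00pp_022_s3 t 144 1977 37 = true := ex3_a k739_A00pp_022_s3 t9676_A00pp_022_s3

theorem t9678_A00pp_022_s3 : ∃ t, chk3 f_A00pp_022_s3 t 144 1976 37 = true := ex3_c k737_A00pp_022_s3 k738_A00pp_022_s3

theorem t9679_A00pp_022_s3 : ∃ t, chk3 f_A00pp_022_s3 t 144 988 37 = true := ex3_b t9678_A00pp_022_s3 t9677_A00pp_022_s3

theorem t9680_A00pp_022_s3 : ∃ t, chk3 f_A00pp_022_s3 t 144 494 37 = true := ex3_b t9679_A00pp_022_s3 t9675_A00pp_022_s3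

theorem t9681_A00pp_022_s3 : ∃ t, chk3 f_A00pp_022_s3 t 144 247 37 = true := ex3_b t9680_A00pp_022_s3 t9673_A00pp_022_s3

theorem t9682_A00pp_022_s3 : ∃ t, chk3 f_A00pp_022_s3 t 288 495 36 = true := ex3_a k734_A00pp_022_s3 k735_A00pp_022_s3

theorem t9683_A00pp_022_s3 : ∃ t, chk3 f_A00pp_022_s3 t 144 495 36 = true := ex3_a t9682_A00pp_022_s3 k736_A00pp_022_s3

theorem t9684_A00pp_022_s3 : ∃ t, chk3 f_A00pp_022_s3 t 289 494 36 = true := ex3_b k732_A00pp_022_s3 k733_A00pp_022_s3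

theorem t9685_A00pp_022_s3 : ∃ t, chk3 f_A00pp_022_s3 t 144 494 36 = true := ex3_a k731_A00pp_022_s3 t9684_A00pp_022_s3

theorem t9686_A00pp_022_s3 : ∃ t, chk3 f_A00pp_022_s3 t 144 247 36 = true := ex3_b t9685_A00pp_022_s3 t9683_A00pp_022_s3

theorem t9687_A00pp_022_s3 : ∃ t, chk3 f_A00pp_022_s3 t 144 247 18 = true := ex3_c t9686_A00pp_022_s3 t9681_A00pp_022_s3

theorem t9688_A00pp_022_s3 : ∃ t, chk3 f_A00pp_022_s3 t 144 247 9 = true := ex3_c t9687_A00pp_022_s3 t9671_A00pp_022_s3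

theorem t9689_A00pp_022_s3 : ∃ t, chk3 f_A00pp_022_s3 t 1156 987 158 = true := ex3_b k726_A00pp_022_s3 k727_A00pp_022_s3

theorem t9690_A00pp_022_s3 : ∃ t, chk3 f_A00pp_022_s3 t 578 987 158 = true := ex3_a t9689_A00pp_022_s3 k728_A00pp_022_s3

theorem t9691_A00pp_022_s3 : ∃ t, chk3 f_A00pp_022_s3 t 578 987 79 = true := ex3_c t9690_A00pp_022_s3 k729_A00pp_022_s3

theorem t9692_A00pp_022_s3 : ∃ t, chk3 f_A00pp_022_s3 t 578 986 158 = true := ex3_a k723_A00pp_022_s3 k724_A00pp_022_s3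

theorem t9693_A00pp_022_s3 : ∃ t, chk3 f_A00pp_022_s3 t 578 986 79 = true := ex3_c t9692_A00pp_022_s3 k725_A00pp_022_s3

theorem t9694_A00pp_022_s3 : ∃ t, chk3 f_A00pp_022_s3 t 578 493 79 = true := ex3_b t9693_A00pp_022_s3 t9691_A00pp_022_s3

theorem t9695_A00pp_022_s3 : ∃ t, chk3 f_A00pp_022_s3 t 289 493 79 = true := ex3_a t9694_A00pp_022_s3 k730_A00pp_022_s3

theorem t9696_A00pp_022_s3 : ∃ t, chk3 f_A00pp_022_s3 t 579 987 78 = true := ex3_a k721_A00pp_022_s3 k722_A00pp_022_s3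

theorem t9697_A00pp_022_s3 : ∃ t, chk3 f_A00pp_022_s3 t 579 986 156 = true := ex3_a k718_A00pp_022_s3 k719_A00pp_022_s3

theorem t9698_A00pp_022_s3 : ∃ t, chk3 f_A00pp_022_s3 t 579 986 78 = true := ex3_c t9697_A00pp_022_s3 k720_A00pp_022_s3

theorem t9699_A00pp_022_s3 : ∃ t, chk3 f_A00pp_022_s3 t 579 493 78 = true := ex3_b t9698_A00pp_022_s3 t9696_A00pp_022_s3

theorem t9700_A00pp_022_s3 : ∃ t, chk3 f_A00pp_022_s3 t 1157 1975 156 = true := ex3_a k715_A00pp_022_s3 k716_A00pp_022_s3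

theorem t9701_A00pp_022_s3 : ∃ t, chk3 f_A00pp_022_s3 t 1157 987 156 = true := ex3_b k714_A00pp_022_s3 t9700_A00pp_022_s3

theorem t9702_A00pp_022_s3 : ∃ t, chk3 f_A00pp_022_s3 t 1157 987 78 = true := ex3_c t9701_A00pp_022_s3 k717_A00pp_022_s3

theorem t9703_A00pp_022_s3 : ∃ t, chk3 f_A00pp_022_s3 t 1156 987 78 = true := ex3_c k712_A00pp_022_s3 k713_A00pp_022_s3

theorem t9704_A00pp_022_s3 : ∃ t, chk3 f_A00pp_022_s3 t 578 987 78 = true := ex3_a t9703_A00pp_022_s3 t9702_A00pp_022_s3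

theorem t9705_A00pp_022_s3 : ∃ t, chk3 f_A00pp_022_s3 t 578 493 78 = true := ex3_b k711_A00pp_022_s3 t9704_A00pp_022_s3

theorem t9706_A00pp_022_s3 : ∃ t, chk3 f_A00pp_022_s3 t 289 493 78 = true := ex3_a t9705_A00pp_022_s3 t9699_A00pp_022_s3

theorem t9707_A00pp_022_s3 : ∃ t, chk3 f_A00pp_022_s3 t 289 493 39 = true := ex3_c t9706_A00pp_022_s3 t9695_A00pp_022_s3

theorem t9708_A00pp_022_s3 : ∃ t, chk3 f_A00pp_022_s3 t 579 492 79 = true := ex3_b k709_A00pp_022_s3 k710_A00pp_022_s3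

theorem t9709_A00pp_022_s3 : ∃ t, chk3 f_A00pp_022_s3 t 289 492 79 = true := ex3_a k708_A00pp_022_s3 t9708_A00pp_022_s3

theorem t9710_A00pp_022_s3 : ∃ t, chk3 f_A00pp_022_s3 t 579 492 78 = true := ex3_c k706_A00pp_022_s3 k707_A00pp_022_s3

theorem t9711_A00pp_022_s3 : ∃ t, chk3 f_A00pp_022_s3 t 289 492 78 = true := ex3_a k705_A00pp_022_s3 t9710_A00pp_022_s3

theorem t9712_A00pp_022_s3 : ∃ t, chk3 f_A00pp_022_s3 t 289 492 39 = true := ex3_c t9711_A00pp_022_s3 t9709_A00pp_022_s3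

theorem t9713_A00pp_022_s3 : ∃ t, chk3 f_A00pp_022_s3 t 289 246 39 = true := ex3_b t9712_A00pp_022_s3 t9707_A00pp_022_s3

theorem t9714_A00pp_022_s3 : ∃ t, chk3 f_A00pp_022_s3 t 1159 1975 154 = true := ex3_a k702_A00pp_022_s3 k703_A00pp_022_s3

theorem t9715_A00pp_022_s3 : ∃ t, chk3 f_A00pp_022_s3 t 1159 987 154 = true := ex3_b k701_A00pp_022_s3 t9714_A00pp_022_s3

theorem t9716_A00pp_022_s3 : ∃ t, chk3 f_A00pp_022_s3 t 1159 987 77 = true := ex3_c t9715_A00pp_022_s3 k704_A00pp_022_s3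

theorem t9717_A00pp_022_s3 : ∃ t, chk3 f_A00pp_022_s3 t 1158 1975 155 = true := ex3_a k699_A00pp_022_s3 k700_A00pp_022_s3

theorem t9718_A00pp_022_s3 : ∃ t, chk3 f_A00pp_022_s3 t 1158 987 155 = true := ex3_b k698_A00pp_022_s3 t9717_A00pp_022_s3

theorem t9719_A00pp_022_s3 : ∃ t, chk3 f_A00pp_022_s3 t 1158 987 77 = true := ex3_c k697_A00pp_022_s3 t9718_A00pp_022_s3

theorem t9720_A00pp_022_s3 : ∃ t, chk3 f_A00pp_022_s3 t 579 987 77 = true := ex3_a t9719_A00pp_022_s3 t9716_A00pp_022_s3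

theorem t9721_A00pp_022_s3 : ∃ t, chk3 f_A00pp_022_s3 t 1159 1975 304 = true := ex3_a k693_A00pp_022_s3 k694_A00pp_022_s3

theorem t9722_A00pp_022_s3 : ∃ t, chk3 f_A00pp_022_s3 t 1159 1975 152 = true := ex3_c t9721_A00pp_022_s3 k695_A00pp_022_s3

theorem t9723_A00pp_022_s3 : ∃ t, chk3 f_A00pp_022_s3 t 1159 1975 76 = true := ex3_c t9722_A00pp_022_s3 k696_A00pp_022_s3

theorem t9724_A00pp_022_s3 : ∃ t, chk3 f_A00pp_022_s3 t 1159 1974 152 = true := ex3_c k690_A00pp_022_s3 k691_A00pp_022_s3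

theorem t9725_A00pp_022_s3 : ∃ t, chk3 f_A00pp_022_s3 t 1159 1974 76 = true := ex3_c t9724_A00pp_022_s3 k692_A00pp_022_s3

theorem t9726_A00pp_022_s3 : ∃ t, chk3 f_A00pp_022_s3 t 1159 987 76 = true := ex3_b t9725_A00pp_022_s3 t9723_A00pp_022_s3

theorem t9727_A00pp_022_s3 : ∃ t, chk3 f_A00pp_022_s3 t 2316 987 306 = true := ex3_b k686_A00pp_022_s3 k687_A00pp_022_s3

theorem t9728_A00pp_022_s3 : ∃ t, chk3 f_A00pp_022_s3 t 2316 987 153 = true := ex3_c t9727_A00pp_022_s3 k688_A00pp_022_s3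

theorem t9729_A00pp_022_s3 : ∃ t, chk3 f_A00pp_022_s3 t 1158 987 153 = true := ex3_a t9728_A00pp_022_s3 k689_A00pp_022_s3

theorem t9730_A00pp_022_s3 : ∃ t, chk3 f_A00pp_022_s3 t 2317 987 305 = true := ex3_b k684_A00pp_022_s3 k685_A00pp_022_s3

theorem t9731_A00pp_022_s3 : ∃ t, chk3 f_A00pp_022_s3 t 1158 987 305 = true := ex3_a k683_A00pp_022_s3 t9730_A00pp_022_s3

theorem t9732_A00pp_022_s3 : ∃ t, chk3 f_A00pp_022_s3 t 1158 987 152 = true := ex3_c k682_A00pp_022_s3 t9731_A00pp_022_s3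

theorem t9733_A00pp_022_s3 : ∃ t, chk3 f_A00pp_022_s3 t 1158 987 76 = true := ex3_c t9732_A00pp_022_s3 t9729_A00pp_022_s3

theorem t9734_A00pp_022_s3 : ∃ t, chk3 f_A00pp_022_s3 t 579 987 76 = true := ex3_a t9733_A00pp_022_s3 t9726_A00pp_022_s3

theorem t9735_A00pp_022_s3 : ∃ t, chk3 f_A00pp_022_s3 t 579 987 38 = true := ex3_c t9734_A00pp_022_s3 t9720_A00pp_022_s3

theorem t9736_A00pp_022_s3 : ∃ t, chk3 f_A00pp_022_s3 t 2312 987 309 = true := ex3_c k677_A00pp_022_s3 k678_A00pp_022_s3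

theorem t9737_A00pp_022_s3 : ∃ t, chk3 f_A00pp_022_s3 t 1156 987 309 = true := ex3_a t9736_A00pp_022_s3 k679_A00pp_022_s3

theorem t9738_A00pp_022_s3 : ∃ t, chk3 f_A00pp_022_s3 t 2313 987 308 = true := ex3_c k675_A00pp_022_s3 k676_A00pp_022_s3

theorem t9739_A00pp_022_s3 : ∃ t, chk3 f_A00pp_022_s3 t 1156 987 308 = true := ex3_a k674_A00pp_022_s3 t9738_A00pp_022_s3

theorem t9740_A00pp_022_s3 : ∃ t, chk3 f_A00pp_022_s3 t 1156 987 154 = true := ex3_c t9739_A00pp_022_s3 t9737_A00pp_022_s3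

theorem t9741_A00pp_022_s3 : ∃ t, chk3 f_A00pp_022_s3 t 1156 987 77 = true := ex3_c t9740_A00pp_022_s3 k680_A00pp_022_s3

theorem t9742_A00pp_022_s3 : ∃ t, chk3 f_A00pp_022_s3 t 578 987 77 = true := ex3_a t9741_A00pp_022_s3 k681_A00pp_022_s3

theorem t9743_A00pp_022_s3 : ∃ t, chk3 f_A00pp_022_s3 t 1157 987 307 = true := ex3_a k672_A00pp_022_s3 k673_A00pp_022_s3

theorem t9744_A00pp_022_s3 : ∃ t, chk3 f_A00pp_022_s3 t 1157 987 153 = true := ex3_c k671_A00pp_022_s3 t9743_A00pp_022_s3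

theorem t9745_A00pp_022_s3 : ∃ t, chk3 f_A00pp_022_s3 t 578 987 153 = true := ex3_a k670_A00pp_022_s3 t9744_A00pp_022_s3

theorem t9746_A00pp_022_s3 : ∃ t, chk3 f_A00pp_022_s3 t 578 987 76 = true := ex3_c k669_A00pp_022_s3 t9745_A00pp_022_s3

theorem t9747_A00pp_022_s3 : ∃ t, chk3 f_A00pp_022_s3 t 578 987 38 = true := ex3_c t9746_A00pp_022_s3 t9742_A00pp_022_s3

theorem t9748_A00pp_022_s3 : ∃ t, chk3 f_A00pp_022_s3 t 289 987 38 = true := ex3_a t9747_A00pp_022_s3 t9735_A00pp_022_s3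

theorem t9749_A00pp_022_s3 : ∃ t, chk3 f_A00pp_022_s3 t 579 986 77 = true := ex3_a k667_A00pp_022_s3 k668_A00pp_022_s3

theorem t9750_A00pp_022_s3 : ∃ t, chk3 f_A00pp_022_s3 t 2316 986 153 = true := ex3_c k663_A00pp_022_s3 k664_A00pp_022_s3

theorem t9751_A00pp_022_s3 : ∃ t, chk3 f_A00pp_022_s3 t 1158 986 153 = true := ex3_a t9750_A00pp_022_s3 k665_A00pp_022_s3

theorem t9752_A00pp_022_s3 : ∃ t, chk3 f_A00pp_022_s3 t 579 986 153 = true := ex3_a t9751_A00pp_022_s3 k666_A00pp_022_s3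

theorem t9753_A00pp_022_s3 : ∃ t, chk3 f_A00pp_022_s3 t 1159 986 304 = true := ex3_a k660_A00pp_022_s3 k661_A00pp_022_s3

theorem t9754_A00pp_022_s3 : ∃ t, chk3 f_A00pp_022_s3 t 1159 986 152 = true := ex3_c t9753_A00pp_022_s3 k662_A00pp_022_s3

theorem t9755_A00pp_022_s3 : ∃ t, chk3 f_A00pp_022_s3 t 2317 986 305 = true := ex3_b k658_A00pp_022_s3 k659_A00pp_022_s3

theorem t9756_A00pp_022_s3 : ∃ t, chk3 f_A00pp_022_s3 t 1158 986 305 = true := ex3_a k657_A00pp_022_s3 t9755_A00pp_022_s3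

theorem t9757_A00pp_022_s3 : ∃ t, chk3 f_A00pp_022_s3 t 1158 986 152 = true := ex3_c k656_A00pp_022_s3 t9756_A00pp_022_s3

theorem t9758_A00pp_022_s3 : ∃ t, chk3 f_A00pp_022_s3 t 579 986 152 = true := ex3_a t9757_A00pp_022_s3 t9754_A00pp_022_s3

theorem t9759_A00pp_022_s3 : ∃ t, chk3 f_A00pp_022_s3 t 579 986 76 = true := ex3_c t9758_A00pp_022_s3 t9752_A00pp_022_s3

theorem t9760_A00pp_022_s3 : ∃ t, chk3 f_A00pp_022_s3 t 579 986 38 = true := ex3_c t9759_A00pp_022_s3 t9749_A00pp_022_s3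

theorem t9761_A00pp_022_s3 : ∃ t, chk3 f_A00pp_022_s3 t 1156 986 154 = true := ex3_c k652_A00pp_022_s3 k653_A00pp_022_s3

theorem t9762_A00pp_022_s3 : ∃ t, chk3 f_A00pp_022_s3 t 578 986 154 = true := ex3_a t9761_A00pp_022_s3 k654_A00pp_022_s3

theorem t9763_A00pp_022_s3 : ∃ t, chk3 f_A00pp_022_s3 t 578 986 77 = true := ex3_c t9762_A00pp_022_s3 k655_A00pp_022_s3

theorem t9764_A00pp_022_s3 : ∃ t, chk3 f_A00pp_022_s3 t 1157 986 307 = true := ex3_a k650_A00pp_022_s3 k651_A00pp_022_s3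

theorem t9765_A00pp_022_s3 : ∃ t, chk3 f_A00pp_022_s3 t 1157 986 153 = true := ex3_c k649_A00pp_022_s3 t9764_A00pp_022_s3

theorem t9766_A00pp_022_s3 : ∃ t, chk3 f_A00pp_022_s3 t 578 986 153 = true := ex3_a k648_A00pp_022_s3 t9765_A00pp_022_s3

theorem t9767_A00pp_022_s3 : ∃ t, chk3 f_A00pp_022_s3 t 578 986 76 = true := ex3_c k647_A00pp_022_s3 t9766_A00pp_022_s3

theorem t9768_A00pp_022_s3 : ∃ t, chk3 f_A00pp_022_s3 t 578 986 38 = true := ex3_c t9767_A00pp_022_s3 t9763_A00pp_022_s3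

theorem t9769_A00pp_022_s3 : ∃ t, chk3 f_A00pp_022_s3 t 289 986 38 = true := ex3_a t9768_A00pp_022_s3 t9760_A00pp_022_s3

theorem t9770_A00pp_022_s3 : ∃ t, chk3 f_A00pp_022_s3 t 289 493 38 = true := ex3_b t9769_A00pp_022_s3 t9748_A00pp_022_s3

theorem t9771_A00pp_022_s3 : ∃ t, chk3 f_A00pp_022_s3 t 1158 985 153 = true := ex3_c k643_A00pp_022_s3 k644_A00pp_022_s3

theorem t9772_A00pp_022_s3 : ∃ t, chk3 f_A00pp_022_s3 t 579 985 153 = true := ex3_a t9771_A00pp_022_s3 k645_A00pp_022_s3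

theorem t9773_A00pp_022_s3 : ∃ t, chk3 f_A00pp_022_s3 t 1158 1969 306 = true := ex3_a k639_A00pp_022_s3 k640_A00pp_022_s3

theorem t9774_A00pp_022_s3 : ∃ t, chk3 f_A00pp_022_s3 t 1158 984 306 = true := ex3_b k638_A00pp_022_s3 t9773_A00pp_022_s3

theorem t9775_A00pp_022_s3 : ∃ t, chk3 f_A00pp_022_s3 t 1158 984 153 = true := ex3_c t9774_A00pp_022_s3 k641_A00pp_022_s3

theorem t9776_A00pp_022_s3 : ∃ t, chk3 f_A00pp_022_s3 t 579 984 153 = true := ex3_a t9775_A00pp_022_s3 k642_A00pp_022_s3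

theorem t9777_A00pp_022_s3 : ∃ t, chk3 f_A00pp_022_s3 t 579 492 153 = true := ex3_b t9776_A00pp_022_s3 t9772_A00pp_022_s3

theorem t9778_A00pp_022_s3 : ∃ t, chk3 f_A00pp_022_s3 t 1159 985 304 = true := ex3_a k635_A00pp_022_s3 k636_A00pp_022_s3

theorem t9779_A00pp_022_s3 : ∃ t, chk3 f_A00pp_022_s3 t 1159 985 152 = true := ex3_c t9778_A00pp_022_s3 k637_A00pp_022_s3

theorem t9780_A00pp_022_s3 : ∃ t, chk3 f_A00pp_022_s3 t 1158 985 152 = true := ex3_a k633_A00pp_022_s3 k634_A00pp_022_s3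

theorem t9781_A00pp_022_s3 : ∃ t, chk3 f_A00pp_022_s3 t 579 985 152 = true := ex3_a t9780_A00pp_022_s3 t9779_A00pp_022_s3

theorem t9782_A00pp_022_s3 : ∃ t, chk3 f_A00pp_022_s3 t 2318 1969 304 = true := ex3_c k629_A00pp_022_s3 k630_A00pp_022_s3

theorem t9783_A00pp_022_s3 : ∃ t, chk3 f_A00pp_022_s3 t 1159 1969 304 = true := ex3_a t9782_A00pp_022_s3 k631_A00pp_022_s3

theorem t9784_A00pp_022_s3 : ∃ t, chk3 f_A00pp_022_s3 t 1159 984 304 = true := ex3_b k628_A00pp_022_s3 t9783_A00pp_022_s3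

theorem t9785_A00pp_022_s3 : ∃ t, chk3 f_A00pp_022_s3 t 1159 984 152 = true := ex3_c t9784_A00pp_022_s3 k632_A00pp_022_s3

theorem t9786_A00pp_022_s3 : ∃ t, chk3 f_A00pp_022_s3 t 2317 1969 305 = true := ex3_c k626_A00pp_022_s3 k627_A00pp_022_s3

theorem t9787_A00pp_022_s3 : ∃ t, chk3 f_A00pp_022_s3 t 1158 1969 305 = true := ex3_a k625_A00pp_022_s3 t9786_A00pp_022_s3

theorem t9788_A00pp_022_s3 : ∃ t, chk3 f_A00pp_022_s3 t 1158 1969 152 = true := ex3_c k624_A00pp_022_s3 t9787_A00pp_022_s3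

theorem t9789_A00pp_022_s3 : ∃ t, chk3 f_A00pp_022_s3 t 1158 984 152 = true := ex3_b k623_A00pp_022_s3 t9788_A00pp_022_s3

theorem t9790_A00pp_022_s3 : ∃ t, chk3 f_A00pp_022_s3 t 579 984 152 = true := ex3_a t9789_A00pp_022_s3 t9785_A00pp_022_s3

theorem t9791_A00pp_022_s3 : ∃ t, chk3 f_A00pp_022_s3 t 579 492 152 = true := ex3_b t9790_A00pp_022_s3 t9781_A00pp_022_s3

theorem t9792_A00pp_022_s3 : ∃ t, chk3 f_A00pp_022_s3 t 579 492 76 = true := ex3_c t9791_A00pp_022_s3 t9777_A00pp_022_s3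

theorem t9793_A00pp_022_s3 : ∃ t, chk3 f_A00pp_022_s3 t 579 492 38 = true := ex3_c t9792_A00pp_022_s3 k646_A00pp_022_s3

theorem t9794_A00pp_022_s3 : ∃ t, chk3 f_A00pp_022_s3 t 2312 1971 309 = true := ex3_c k618_A00pp_022_s3 k619_A00pp_022_s3

theorem t9795_A00pp_022_s3 : ∃ t, chk3 f_A00pp_022_s3 t 1156 1971 309 = true := ex3_a t9794_A00pp_022_s3 k620_A00pp_022_s3

theorem t9796_A00pp_022_s3 : ∃ t, chk3 f_A00pp_022_s3 t 1156 985 309 = true := ex3_b k617_A00pp_022_s3 t9795_A00pp_022_s3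

theorem t9797_A00pp_022_s3 : ∃ t, chk3 f_A00pp_022_s3 t 2313 1970 308 = true := ex3_c k614_A00pp_022_s3 k615_A00pp_022_s3

theorem t9798_A00pp_022_s3 : ∃ t, chk3 f_A00pp_022_s3 t 1156 1970 308 = true := ex3_a k613_A00pp_022_s3 t9797_A00pp_022_s3

theorem t9799_A00pp_022_s3 : ∃ t, chk3 f_A00pp_022_s3 t 1156 985 308 = true := ex3_b t9798_A00pp_022_s3 k616_A00pp_022_s3

theorem t9800_A00pp_022_s3 : ∃ t, chk3 f_A00pp_022_s3 t 1156 985 154 = true := ex3_c t9799_A00pp_022_s3 t9796_A00pp_022_s3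

theorem t9801_A00pp_022_s3 : ∃ t, chk3 f_A00pp_022_s3 t 1156 492 154 = true := ex3_b k612_A00pp_022_s3 t9800_A00pp_022_s3

theorem t9802_A00pp_022_s3 : ∃ t, chk3 f_A00pp_022_s3 t 578 492 154 = true := ex3_a t9801_A00pp_022_s3 k621_A00pp_022_s3

theorem t9803_A00pp_022_s3 : ∃ t, chk3 f_A00pp_022_s3 t 578 492 77 = true := ex3_c t9802_A00pp_022_s3 k622_A00pp_022_s3

theorem t9804_A00pp_022_s3 : ∃ t, chk3 f_A00pp_022_s3 t 1157 1970 307 = true := ex3_a k609_A00pp_022_s3 k610_A00pp_022_s3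

theorem t9805_A00pp_022_s3 : ∃ t, chk3 f_A00pp_022_s3 t 1157 1970 153 = true := ex3_c k608_A00pp_022_s3 t9804_A00pp_022_s3

theorem t9806_A00pp_022_s3 : ∃ t, chk3 f_A00pp_022_s3 t 1157 985 153 = true := ex3_b t9805_A00pp_022_s3 k611_A00pp_022_s3

theorem t9807_A00pp_022_s3 : ∃ t, chk3 f_A00pp_022_s3 t 578 985 153 = true := ex3_a k607_A00pp_022_s3 t9806_A00pp_022_s3

theorem t9808_A00pp_022_s3 : ∃ t, chk3 f_A00pp_022_s3 t 578 985 76 = true := ex3_c k606_A00pp_022_s3 t9807_A00pp_022_s3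

theorem t9809_A00pp_022_s3 : ∃ t, chk3 f_A00pp_022_s3 t 578 492 76 = true := ex3_b k605_A00pp_022_s3 t9808_A00pp_022_s3

theorem t9810_A00pp_022_s3 : ∃ t, chk3 f_A00pp_022_s3 t 578 492 38 = true := ex3_c t9809_A00pp_022_s3 t9803_A00pp_022_s3

theorem t9811_A00pp_022_s3 : ∃ t, chk3 f_A00pp_022_s3 t 289 492 38 = true := ex3_a t9810_A00pp_022_s3 t9793_A00pp_022_s3

theorem t9812_A00pp_022_s3 : ∃ t, chk3 f_A00pp_022_s3 t 289 246 38 = true := ex3_b t9811_A00pp_022_s3 t9770_A00pp_022_s3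

theorem t9813_A00pp_022_s3 : ∃ t, chk3 f_A00pp_022_s3 t 289 246 19 = true := ex3_c t9812_A00pp_022_s3 t9713_A00pp_022_s3

theorem t9814_A00pp_022_s3 : ∃ t, chk3 f_A00pp_022_s3 t 1155 987 159 = true := ex3_b k603_A00pp_022_s3 k604_A00pp_022_s3

theorem t9815_A00pp_022_s3 : ∃ t, chk3 f_A00pp_022_s3 t 1155 987 79 = true := ex3_c k602_A00pp_022_s3 t9814_A00pp_022_s3

theorem t9816_A00pp_022_s3 : ∃ t, chk3 f_A00pp_022_s3 t 577 987 79 = true := ex3_a k601_A00pp_022_s3 t9815_A00pp_022_s3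

theorem t9817_A00pp_022_s3 : ∃ t, chk3 f_A00pp_022_s3 t 577 493 79 = true := ex3_b k600_A00pp_022_s3 t9816_A00pp_022_s3

theorem t9818_A00pp_022_s3 : ∃ t, chk3 f_A00pp_022_s3 t 2308 987 312 = true := ex3_b k594_A00pp_022_s3 k595_A00pp_022_s3

theorem t9819_A00pp_022_s3 : ∃ t, chk3 f_A00pp_022_s3 t 1154 987 312 = true := ex3_a t9818_A00pp_022_s3 k596_A00pp_022_s3

theorem t9820_A00pp_022_s3 : ∃ t, chk3 f_A00pp_022_s3 t 1154 987 156 = true := ex3_c t9819_A00pp_022_s3 k597_A00pp_022_s3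

theorem t9821_A00pp_022_s3 : ∃ t, chk3 f_A00pp_022_s3 t 1154 987 78 = true := ex3_c t9820_A00pp_022_s3 k598_A00pp_022_s3

theorem t9822_A00pp_022_s3 : ∃ t, chk3 f_A00pp_022_s3 t 577 987 78 = true := ex3_a t9821_A00pp_022_s3 k599_A00pp_022_s3

theorem t9823_A00pp_022_s3 : ∃ t, chk3 f_A00pp_022_s3 t 2308 1972 312 = true := ex3_c k587_A00pp_022_s3 k588_A00pp_022_s3

theorem t9824_A00pp_022_s3 : ∃ t, chk3 f_A00pp_022_s3 t 2308 986 312 = true := ex3_b t9823_A00pp_022_s3 k589_A00pp_022_s3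

theorem t9825_A00pp_022_s3 : ∃ t, chk3 f_A00pp_022_s3 t 1154 986 312 = true := ex3_a t9824_A00pp_022_s3 k590_A00pp_022_s3

theorem t9826_A00pp_022_s3 : ∃ t, chk3 f_A00pp_022_s3 t 1154 986 156 = true := ex3_c t9825_A00pp_022_s3 k591_A00pp_022_s3

theorem t9827_A00pp_022_s3 : ∃ t, chk3 f_A00pp_022_s3 t 577 986 156 = true := ex3_a t9826_A00pp_022_s3 k592_A00pp_022_s3

theorem t9828_A00pp_022_s3 : ∃ t, chk3 f_A00pp_022_s3 t 577 986 78 = true := ex3_c t9827_A00pp_022_s3 k593_A00pp_022_s3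

theorem t9829_A00pp_022_s3 : ∃ t, chk3 f_A00pp_022_s3 t 577 493 78 = true := ex3_b t9828_A00pp_022_s3 t9822_A00pp_022_s3

theorem t9830_A00pp_022_s3 : ∃ t, chk3 f_A00pp_022_s3 t 577 493 39 = true := ex3_c t9829_A00pp_022_s3 t9817_A00pp_022_s3

theorem t9831_A00pp_022_s3 : ∃ t, chk3 f_A00pp_022_s3 t 1152 987 315 = true := ex3_a k583_A00pp_022_s3 k584_A00pp_022_s3

theorem t9832_A00pp_022_s3 : ∃ t, chk3 f_A00pp_022_s3 t 1152 987 157 = true := ex3_c k582_A00pp_022_s3 t9831_A00pp_022_s3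

theorem t9833_A00pp_022_s3 : ∃ t, chk3 f_A00pp_022_s3 t 576 987 157 = true := ex3_a t9832_A00pp_022_s3 k585_A00pp_022_s3

theorem t9834_A00pp_022_s3 : ∃ t, chk3 f_A00pp_022_s3 t 2307 987 156 = true := ex3_c k580_A00pp_022_s3 k581_A00pp_022_s3

theorem t9835_A00pp_022_s3 : ∃ t, chk3 f_A00pp_022_s3 t 1153 987 156 = true := ex3_a k579_A00pp_022_s3 t9834_A00pp_022_s3

theorem t9836_A00pp_022_s3 : ∃ t, chk3 f_A00pp_022_s3 t 576 987 156 = true := ex3_a k578_A00pp_022_s3 t9835_A00pp_022_s3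

theorem t9837_A00pp_022_s3 : ∃ t, chk3 f_A00pp_022_s3 t 576 987 78 = true := ex3_c t9836_A00pp_022_s3 t9833_A00pp_022_s3

theorem t9838_A00pp_022_s3 : ∃ t, chk3 f_A00pp_022_s3 t 1153 986 157 = true := ex3_c k576_A00pp_022_s3 k577_A00pp_022_s3

theorem t9839_A00pp_022_s3 : ∃ t, chk3 f_A00pp_022_s3 t 2304 1973 315 = true := ex3_c k573_A00pp_022_s3 k574_A00pp_022_s3

theorem t9840_A00pp_022_s3 : ∃ t, chk3 f_A00pp_022_s3 t 1152 1973 315 = true := ex3_a t9839_A00pp_022_s3 k575_A00pp_022_s3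

theorem t9841_A00pp_022_s3 : ∃ t, chk3 f_A00pp_022_s3 t 1152 986 315 = true := ex3_b k572_A00pp_022_s3 t9840_A00pp_022_s3

theorem t9842_A00pp_022_s3 : ∃ t, chk3 f_A00pp_022_s3 t 1152 1973 314 = true := ex3_c k570_A00pp_022_s3 k571_A00pp_022_s3

theorem t9843_A00pp_022_s3 : ∃ t, chk3 f_A00pp_022_s3 t 1152 986 314 = true := ex3_b k569_A00pp_022_s3 t9842_A00pp_022_s3

theorem t9844_A00pp_022_s3 : ∃ t, chk3 f_A00pp_022_s3 t 1152 986 157 = true := ex3_c t9843_A00pp_022_s3 t9841_A00pp_022_s3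

theorem t9845_A00pp_022_s3 : ∃ t, chk3 f_A00pp_022_s3 t 576 986 157 = true := ex3_a t9844_A00pp_022_s3 t9838_A00pp_022_s3

theorem t9846_A00pp_022_s3 : ∃ t, chk3 f_A00pp_022_s3 t 2307 1972 313 = true := ex3_c k566_A00pp_022_s3 k567_A00pp_022_s3

theorem t9847_A00pp_022_s3 : ∃ t, chk3 f_A00pp_022_s3 t 1153 1972 313 = true := ex3_a k565_A00pp_022_s3 t9846_A00pp_022_s3

theorem t9848_A00pp_022_s3 : ∃ t, chk3 f_A00pp_022_s3 t 576 1972 313 = true := ex3_a k564_A00pp_022_s3 t9847_A00pp_022_s3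

theorem t9849_A00pp_022_s3 : ∃ t, chk3 f_A00pp_022_s3 t 576 1972 156 = true := ex3_c k563_A00pp_022_s3 t9848_A00pp_022_s3

theorem t9850_A00pp_022_s3 : ∃ t, chk3 f_A00pp_022_s3 t 576 986 156 = true := ex3_b t9849_A00pp_022_s3 k568_A00pp_022_s3

theorem t9851_A00pp_022_s3 : ∃ t, chk3 f_A00pp_022_s3 t 576 986 78 = true := ex3_c t9850_A00pp_022_s3 t9845_A00pp_022_s3

theorem t9852_A00pp_022_s3 : ∃ t, chk3 f_A00pp_022_s3 t 576 493 78 = true := ex3_b t9851_A00pp_022_s3 t9837_A00pp_022_s3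

theorem t9853_A00pp_022_s3 : ∃ t, chk3 f_A00pp_022_s3 t 576 493 39 = true := ex3_c t9852_A00pp_022_s3 k586_A00pp_022_s3

theorem t9854_A00pp_022_s3 : ∃ t, chk3 f_A00pp_022_s3 t 288 493 39 = true := ex3_a t9853_A00pp_022_s3 t9830_A00pp_022_s3

theorem t9855_A00pp_022_s3 : ∃ t, chk3 f_A00pp_022_s3 t 1155 987 310 = true := ex3_a k560_A00pp_022_s3 k561_A00pp_022_s3

theorem t9856_A00pp_022_s3 : ∃ t, chk3 f_A00pp_022_s3 t 1155 987 155 = true := ex3_c t9855_A00pp_022_s3 k562_A00pp_022_s3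

theorem t9857_A00pp_022_s3 : ∃ t, chk3 f_A00pp_022_s3 t 1155 986 310 = true := ex3_a k557_A00pp_022_s3 k558_A00pp_022_s3

theorem t9858_A00pp_022_s3 : ∃ t, chk3 f_A00pp_022_s3 t 1155 986 155 = true := ex3_c t9857_A00pp_022_s3 k559_A00pp_022_s3

theorem t9859_A00pp_022_s3 : ∃ t, chk3 f_A00pp_022_s3 t 1155 493 155 = true := ex3_b t9858_A00pp_022_s3 t9856_A00pp_022_s3

theorem t9860_A00pp_022_s3 : ∃ t, chk3 f_A00pp_022_s3 t 1154 986 155 = true := ex3_a k554_A00pp_022_s3 k555_A00pp_022_s3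

theorem t9861_A00pp_022_s3 : ∃ t, chk3 f_A00pp_022_s3 t 1154 493 155 = true := ex3_b t9860_A00pp_022_s3 k556_A00pp_022_s3

theorem t9862_A00pp_022_s3 : ∃ t, chk3 f_A00pp_022_s3 t 577 493 155 = true := ex3_a t9861_A00pp_022_s3 t9859_A00pp_022_s3

theorem t9863_A00pp_022_s3 : ∃ t, chk3 f_A00pp_022_s3 t 577 493 77 = true := ex3_c k553_A00pp_022_s3 t9862_A00pp_022_s3

theorem t9864_A00pp_022_s3 : ∃ t, chk3 f_A00pp_022_s3 t 288 493 77 = true := ex3_a k552_A00pp_022_s3 t9863_A00pp_022_s3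

theorem t9865_A00pp_022_s3 : ∃ t, chk3 f_A00pp_022_s3 t 288 493 38 = true := ex3_c k551_A00pp_022_s3 t9864_A00pp_022_s3

theorem t9866_A00pp_022_s3 : ∃ t, chk3 f_A00pp_022_s3 t 288 493 19 = true := ex3_c t9865_A00pp_022_s3 t9854_A00pp_022_s3

theorem t9867_A00pp_022_s3 : ∃ t, chk3 f_A00pp_022_s3 t 576 492 78 = true := ex3_c k547_A00pp_022_s3 k548_A00pp_022_s3

theorem t9868_A00pp_022_s3 : ∃ t, chk3 f_A00pp_022_s3 t 288 492 78 = true := ex3_a t9867_A00pp_022_s3 k549_A00pp_022_s3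

theorem t9869_A00pp_022_s3 : ∃ t, chk3 f_A00pp_022_s3 t 288 492 39 = true := ex3_c t9868_A00pp_022_s3 k550_A00pp_022_s3

theorem t9870_A00pp_022_s3 : ∃ t, chk3 f_A00pp_022_s3 t 2311 1971 310 = true := ex3_c k544_A00pp_022_s3 k545_A00pp_022_s3

theorem t9871_A00pp_022_s3 : ∃ t, chk3 f_A00pp_022_s3 t 1155 1971 310 = true := ex3_a k543_A00pp_022_s3 t9870_A00pp_022_s3

theorem t9872_A00pp_022_s3 : ∃ t, chk3 f_A00pp_022_s3 t 1155 985 310 = true := ex3_b k542_A00pp_022_s3 t9871_A00pp_022_s3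

theorem t9873_A00pp_022_s3 : ∃ t, chk3 f_A00pp_022_s3 t 1155 492 310 = true := ex3_b k541_A00pp_022_s3 t9872_A00pp_022_s3

theorem t9874_A00pp_022_s3 : ∃ t, chk3 f_A00pp_022_s3 t 1155 492 155 = true := ex3_c t9873_A00pp_022_s3 k546_A00pp_022_s3

theorem t9875_A00pp_022_s3 : ∃ t, chk3 f_A00pp_022_s3 t 1154 985 155 = true := ex3_c k539_A00pp_022_s3 k540_A00pp_022_s3

theorem t9876_A00pp_022_s3 : ∃ t, chk3 f_A00pp_022_s3 t 1154 492 155 = true := ex3_b k538_A00pp_022_s3 t9875_A00pp_022_s3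

theorem t9877_A00pp_022_s3 : ∃ t, chk3 f_A00pp_022_s3 t 577 492 155 = true := ex3_a t9876_A00pp_022_s3 t9874_A00pp_022_s3

theorem t9878_A00pp_022_s3 : ∃ t, chk3 f_A00pp_022_s3 t 288 492 155 = true := ex3_a k537_A00pp_022_s3 t9877_A00pp_022_s3

theorem t9879_A00pp_022_s3 : ∃ t, chk3 f_A00pp_022_s3 t 288 492 77 = true := ex3_c k536_A00pp_022_s3 t9878_A00pp_022_s3

theorem t9880_A00pp_022_s3 : ∃ t, chk3 f_A00pp_022_s3 t 288 492 38 = true := ex3_c k535_A00pp_022_s3 t9879_A00pp_022_s3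

theorem t9881_A00pp_022_s3 : ∃ t, chk3 f_A00pp_022_s3 t 288 492 19 = true := ex3_c t9880_A00pp_022_s3 t9869_A00pp_022_s3

theorem t9882_A00pp_022_s3 : ∃ t, chk3 f_A00pp_022_s3 t 288 246 19 = true := ex3_b t9881_A00pp_022_s3 t9866_A00pp_022_s3

theorem t9883_A00pp_022_s3 : ∃ t, chk3 f_A00pp_022_s3 t 144 246 19 = true := ex3_a t9882_A00pp_022_s3 t9813_A00pp_022_s3

theorem t9884_A00pp_022_s3 : ∃ t, chk3 f_A00pp_022_s3 t 144 987 75 = true := ex3_c k533_A00pp_022_s3 k534_A00pp_022_s3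

theorem t9885_A00pp_022_s3 : ∃ t, chk3 f_A00pp_022_s3 t 144 987 37 = true := ex3_c k532_A00pp_022_s3 t9884_A00pp_022_s3

theorem t9886_A00pp_022_s3 : ∃ t, chk3 f_A00pp_022_s3 t 144 493 37 = true := ex3_b k531_A00pp_022_s3 t9885_A00pp_022_s3

theorem t9887_A00pp_022_s3 : ∃ t, chk3 f_A00pp_022_s3 t 144 493 18 = true := ex3_c k530_A00pp_022_s3 t9886_A00pp_022_s3

theorem t9888_A00pp_022_s3 : ∃ t, chk3 f_A00pp_022_s3 t 289 1968 151 = true := ex3_c k526_A00pp_022_s3 k527_A00pp_022_s3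

theorem t9889_A00pp_022_s3 : ∃ t, chk3 f_A00pp_022_s3 t 289 984 151 = true := ex3_b t9888_A00pp_022_s3 k528_A00pp_022_s3

theorem t9890_A00pp_022_s3 : ∃ t, chk3 f_A00pp_022_s3 t 289 984 75 = true := ex3_c k525_A00pp_022_s3 t9889_A00pp_022_s3

theorem t9891_A00pp_022_s3 : ∃ t, chk3 f_A00pp_022_s3 t 144 984 75 = true := ex3_a k524_A00pp_022_s3 t9890_A00pp_022_s3

theorem t9892_A00pp_022_s3 : ∃ t, chk3 f_A00pp_022_s3 t 144 492 75 = true := ex3_b t9891_A00pp_022_s3 k529_A00pp_022_s3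

theorem t9893_A00pp_022_s3 : ∃ t, chk3 f_A00pp_022_s3 t 144 492 37 = true := ex3_c k523_A00pp_022_s3 t9892_A00pp_022_s3

theorem t9894_A00pp_022_s3 : ∃ t, chk3 f_A00pp_022_s3 t 144 492 18 = true := ex3_c k522_A00pp_022_s3 t9893_A00pp_022_s3

theorem t9895_A00pp_022_s3 : ∃ t, chk3 f_A00pp_022_s3 t 144 246 18 = true := ex3_b t9894_A00pp_022_s3 t9887_A00pp_022_s3

theorem t9896_A00pp_022_s3 : ∃ t, chk3 f_A00pp_022_s3 t 144 246 9 = true := ex3_c t9895_A00pp_022_s3 t9883_A00pp_022_s3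

theorem t9897_A00pp_022_s3 : ∃ t, chk3 f_A00pp_022_s3 t 144 123 9 = true := ex3_b t9896_A00pp_022_s3 t9688_A00pp_022_s3

theorem t9898_A00pp_022_s3 : ∃ t, chk3 f_A00pp_022_s3 t 72 123 9 = true := ex3_a t9897_A00pp_022_s3 t9348_A00pp_022_s3

theorem t9899_A00pp_022_s3 : ∃ t, chk3 f_A00pp_022_s3 t 291 245 79 = true := ex3_b k520_A00pp_022_s3 k521_A00pp_022_s3

theorem t9900_A00pp_022_s3 : ∃ t, chk3 f_A00pp_022_s3 t 582 245 78 = true := ex3_c k517_A00pp_022_s3 k518_A00pp_022_s3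

theorem t9901_A00pp_022_s3 : ∃ t, chk3 f_A00pp_022_s3 t 291 245 78 = true := ex3_a t9900_A00pp_022_s3 k519_A00pp_022_s3

theorem t9902_A00pp_022_s3 : ∃ t, chk3 f_A00pp_022_s3 t 291 245 39 = true := ex3_c t9901_A00pp_022_s3 t9899_A00pp_022_s3

theorem t9903_A00pp_022_s3 : ∃ t, chk3 f_A00pp_022_s3 t 580 491 79 = true := ex3_c k514_A00pp_022_s3 k515_A00pp_022_s3

theorem t9904_A00pp_022_s3 : ∃ t, chk3 f_A00pp_022_s3 t 290 491 79 = true := ex3_a t9903_A00pp_022_s3 k516_A00pp_022_s3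

theorem t9905_A00pp_022_s3 : ∃ t, chk3 f_A00pp_022_s3 t 581 491 78 = true := ex3_c k512_A00pp_022_s3 k513_A00pp_022_s3

theorem t9906_A00pp_022_s3 : ∃ t, chk3 f_A00pp_022_s3 t 290 491 78 = true := ex3_a k511_A00pp_022_s3 t9905_A00pp_022_s3

theorem t9907_A00pp_022_s3 : ∃ t, chk3 f_A00pp_022_s3 t 290 491 39 = true := ex3_c t9906_A00pp_022_s3 t9904_A00pp_022_s3

theorem t9908_A00pp_022_s3 : ∃ t, chk3 f_A00pp_022_s3 t 290 490 39 = true := ex3_c k509_A00pp_022_s3 k510_A00pp_022_s3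

theorem t9909_A00pp_022_s3 : ∃ t, chk3 f_A00pp_022_s3 t 290 245 39 = true := ex3_b t9908_A00pp_022_s3 t9907_A00pp_022_s3

theorem t9910_A00pp_022_s3 : ∃ t, chk3 f_A00pp_022_s3 t 145 245 39 = true := ex3_a t9909_A00pp_022_s3 t9902_A00pp_022_s3

theorem t9911_A00pp_022_s3 : ∃ t, chk3 f_A00pp_022_s3 t 291 489 79 = true := ex3_a k507_A00pp_022_s3 k508_A00pp_022_s3

theorem t9912_A00pp_022_s3 : ∃ t, chk3 f_A00pp_022_s3 t 291 244 79 = true := ex3_b k506_A00pp_022_s3 t9911_A00pp_022_s3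

theorem t9913_A00pp_022_s3 : ∃ t, chk3 f_A00pp_022_s3 t 291 244 39 = true := ex3_c k505_A00pp_022_s3 t9912_A00pp_022_s3

theorem t9914_A00pp_022_s3 : ∃ t, chk3 f_A00pp_022_s3 t 145 244 39 = true := ex3_a k504_A00pp_022_s3 t9913_A00pp_022_s3

theorem t9915_A00pp_022_s3 : ∃ t, chk3 f_A00pp_022_s3 t 145 122 39 = true := ex3_b t9914_A00pp_022_s3 t9910_A00pp_022_s3

theorem t9916_A00pp_022_s3 : ∃ t, chk3 f_A00pp_022_s3 t 583 491 76 = true := ex3_b k501_A00pp_022_s3 k502_A00pp_022_s3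

theorem t9917_A00pp_022_s3 : ∃ t, chk3 f_A00pp_022_s3 t 583 491 38 = true := ex3_c t9916_A00pp_022_s3 k503_A00pp_022_s3

theorem t9918_A00pp_022_s3 : ∃ t, chk3 f_A00pp_022_s3 t 582 491 77 = true := ex3_b k499_A00pp_022_s3 k500_A00pp_022_s3

theorem t9919_A00pp_022_s3 : ∃ t, chk3 f_A00pp_022_s3 t 582 491 38 = true := ex3_c k498_A00pp_022_s3 t9918_A00pp_022_s3

theorem t9920_A00pp_022_s3 : ∃ t, chk3 f_A00pp_022_s3 t 291 491 38 = true := ex3_a t9919_A00pp_022_s3 t9917_A00pp_022_s3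

theorem t9921_A00pp_022_s3 : ∃ t, chk3 f_A00pp_022_s3 t 583 490 38 = true := ex3_c k496_A00pp_022_s3 k497_A00pp_022_s3

theorem t9922_A00pp_022_s3 : ∃ t, chk3 f_A00pp_022_s3 t 291 490 38 = true := ex3_a k495_A00pp_022_s3 t9921_A00pp_022_s3

theorem t9923_A00pp_022_s3 : ∃ t, chk3 f_A00pp_022_s3 t 291 245 38 = true := ex3_b t9922_A00pp_022_s3 t9920_A00pp_022_s3

theorem t9924_A00pp_022_s3 : ∃ t, chk3 f_A00pp_022_s3 t 291 122 38 = true := ex3_b k494_A00pp_022_s3 t9923_A00pp_022_s3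

theorem t9925_A00pp_022_s3 : ∃ t, chk3 f_A00pp_022_s3 t 290 245 38 = true := ex3_c k492_A00pp_022_s3 k493_A00pp_022_s3

theorem t9926_A00pp_022_s3 : ∃ t, chk3 f_A00pp_022_s3 t 290 122 38 = true := ex3_b k491_A00pp_022_s3 t9925_A00pp_022_s3

theorem t9927_A00pp_022_s3 : ∃ t, chk3 f_A00pp_022_s3 t 145 122 38 = true := ex3_a t9926_A00pp_022_s3 t9924_A00pp_022_s3

theorem t9928_A00pp_022_s3 : ∃ t, chk3 f_A00pp_022_s3 t 145 122 19 = true := ex3_c t9927_A00pp_022_s3 t9915_A00pp_022_s3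

theorem t9929_A00pp_022_s3 : ∃ t, chk3 f_A00pp_022_s3 t 583 491 75 = true := ex3_c k489_A00pp_022_s3 k490_A00pp_022_s3

theorem t9930_A00pp_022_s3 : ∃ t, chk3 f_A00pp_022_s3 t 291 491 75 = true := ex3_a k488_A00pp_022_s3 t9929_A00pp_022_s3

theorem t9931_A00pp_022_s3 : ∃ t, chk3 f_A00pp_022_s3 t 2328 983 297 = true := ex3_b k482_A00pp_022_s3 k483_A00pp_022_s3

theorem t9932_A00pp_022_s3 : ∃ t, chk3 f_A00pp_022_s3 t 1164 983 297 = true := ex3_a t9931_A00pp_022_s3 k484_A00pp_022_s3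

theorem t9933_A00pp_022_s3 : ∃ t, chk3 f_A00pp_022_s3 t 2329 1966 296 = true := ex3_c k479_A00pp_022_s3 k480_A00pp_022_s3

theorem t9934_A00pp_022_s3 : ∃ t, chk3 f_A00pp_022_s3 t 1164 1966 296 = true := ex3_a k478_A00pp_022_s3 t9933_A00pp_022_s3

theorem t9935_A00pp_022_s3 : ∃ t, chk3 f_A00pp_022_s3 t 1164 983 296 = true := ex3_b t9934_A00pp_022_s3 k481_A00pp_022_s3

theorem t9936_A00pp_022_s3 : ∃ t, chk3 f_A00pp_022_s3 t 1164 983 148 = true := ex3_c t9935_A00pp_022_s3 t9932_A00pp_022_s3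

theorem t9937_A00pp_022_s3 : ∃ t, chk3 f_A00pp_022_s3 t 582 983 148 = true := ex3_a t9936_A00pp_022_s3 k485_A00pp_022_s3

theorem t9938_A00pp_022_s3 : ∃ t, chk3 f_A00pp_022_s3 t 582 982 148 = true := ex3_a k476_A00pp_022_s3 k477_A00pp_022_s3

theorem t9939_A00pp_022_s3 : ∃ t, chk3 f_A00pp_022_s3 t 582 491 148 = true := ex3_b t9938_A00pp_022_s3 t9937_A00pp_022_s3

theorem t9940_A00pp_022_s3 : ∃ t, chk3 f_A00pp_022_s3 t 582 491 74 = true := ex3_c t9939_A00pp_022_s3 k486_A00pp_022_s3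

theorem t9941_A00pp_022_s3 : ∃ t, chk3 f_A00pp_022_s3 t 291 491 74 = true := ex3_a t9940_A00pp_022_s3 k487_A00pp_022_s3

theorem t9942_A00pp_022_s3 : ∃ t, chk3 f_A00pp_022_s3 t 291 491 37 = true := ex3_c t9941_A00pp_022_s3 t9930_A00pp_022_s3

theorem t9943_A00pp_022_s3 : ∃ t, chk3 f_A00pp_022_s3 t 1166 982 147 = true := ex3_c k472_A00pp_022_s3 k473_A00pp_022_s3

theorem t9944_A00pp_022_s3 : ∃ t, chk3 f_A00pp_022_s3 t 583 982 147 = true := ex3_a t9943_A00pp_022_s3 k474_A00pp_022_s3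

theorem t9945_A00pp_022_s3 : ∃ t, chk3 f_A00pp_022_s3 t 583 491 147 = true := ex3_b t9944_A00pp_022_s3 k475_A00pp_022_s3

theorem t9946_A00pp_022_s3 : ∃ t, chk3 f_A00pp_022_s3 t 1167 983 146 = true := ex3_c k470_A00pp_022_s3 k471_A00pp_022_s3

theorem t9947_A00pp_022_s3 : ∃ t, chk3 f_A00pp_022_s3 t 2333 983 146 = true := ex3_c k468_A00pp_022_s3 k469_A00pp_022_s3

theorem t9948_A00pp_022_s3 : ∃ t, chk3 f_A00pp_022_s3 t 1166 983 146 = true := ex3_a k467_A00pp_022_s3 t9947_A00pp_022_s3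

theorem t9949_A00pp_022_s3 : ∃ t, chk3 f_A00pp_022_s3 t 583 983 146 = true := ex3_a t9948_A00pp_022_s3 t9946_A00pp_022_s3

theorem t9950_A00pp_022_s3 : ∃ t, chk3 f_A00pp_022_s3 t 2334 1964 292 = true := ex3_c k462_A00pp_022_s3 k463_A00pp_022_s3

theorem t9951_A00pp_022_s3 : ∃ t, chk3 f_A00pp_022_s3 t 2334 982 292 = true := ex3_b t9950_A00pp_022_s3 k464_A00pp_022_s3

theorem t9952_A00pp_022_s3 : ∃ t, chk3 f_A00pp_022_s3 t 1167 982 292 = true := ex3_a t9951_A00pp_022_s3 k465_A00pp_022_s3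

theorem t9953_A00pp_022_s3 : ∃ t, chk3 f_A00pp_022_s3 t 1167 982 146 = true := ex3_c t9952_A00pp_022_s3 k466_A00pp_022_s3

theorem t9954_A00pp_022_s3 : ∃ t, chk3 f_A00pp_022_s3 t 1166 1965 293 = true := ex3_a k460_A00pp_022_s3 k461_A00pp_022_s3

theorem t9955_A00pp_022_s3 : ∃ t, chk3 f_A00pp_022_s3 t 1166 1965 146 = true := ex3_c k459_A00pp_022_s3 t9954_A00pp_022_s3

theorem t9956_A00pp_022_s3 : ∃ t, chk3 f_A00pp_022_s3 t 2333 1964 293 = true := ex3_c k457_A00pp_022_s3 k458_A00pp_022_s3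

theorem t9957_A00pp_022_s3 : ∃ t, chk3 f_A00pp_022_s3 t 1166 1964 293 = true := ex3_a k456_A00pp_022_s3 t9956_A00pp_022_s3

theorem t9958_A00pp_022_s3 : ∃ t, chk3 f_A00pp_022_s3 t 1166 1964 146 = true := ex3_c k455_A00pp_022_s3 t9957_A00pp_022_s3

theorem t9959_A00pp_022_s3 : ∃ t, chk3 f_A00pp_022_s3 t 1166 982 146 = true := ex3_b t9958_A00pp_022_s3 t9955_A00pp_022_s3

theorem t9960_A00pp_022_s3 : ∃ t, chk3 f_A00pp_022_s3 t 583 982 146 = true := ex3_a t9959_A00pp_022_s3 t9953_A00pp_022_s3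

theorem t9961_A00pp_022_s3 : ∃ t, chk3 f_A00pp_022_s3 t 583 491 146 = true := ex3_b t9960_A00pp_022_s3 t9949_A00pp_022_s3

theorem t9962_A00pp_022_s3 : ∃ t, chk3 f_A00pp_022_s3 t 583 491 73 = true := ex3_c t9961_A00pp_022_s3 t9945_A00pp_022_s3

theorem t9963_A00pp_022_s3 : ∃ t, chk3 f_A00pp_022_s3 t 1165 983 295 = true := ex3_a k453_A00pp_022_s3 k454_A00pp_022_s3

theorem t9964_A00pp_022_s3 : ∃ t, chk3 f_A00pp_022_s3 t 1165 983 147 = true := ex3_c k452_A00pp_022_s3 t9963_A00pp_022_s3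

theorem t9965_A00pp_022_s3 : ∃ t, chk3 f_A00pp_022_s3 t 582 983 147 = true := ex3_a k451_A00pp_022_s3 t9964_A00pp_022_s3

theorem t9966_A00pp_022_s3 : ∃ t, chk3 f_A00pp_022_s3 t 582 983 73 = true := ex3_c k450_A00pp_022_s3 t9965_A00pp_022_s3

theorem t9967_A00pp_022_s3 : ∃ t, chk3 f_A00pp_022_s3 t 2330 1965 295 = true := ex3_c k447_A00pp_022_s3 k448_A00pp_022_s3

theorem t9968_A00pp_022_s3 : ∃ t, chk3 f_A00pp_022_s3 t 1165 1965 295 = true := ex3_a t9967_A00pp_022_s3 k449_A00pp_022_s3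

theorem t9969_A00pp_022_s3 : ∃ t, chk3 f_A00pp_022_s3 t 1165 982 295 = true := ex3_b k446_A00pp_022_s3 t9968_A00pp_022_s3

theorem t9970_A00pp_022_s3 : ∃ t, chk3 f_A00pp_022_s3 t 2331 1965 294 = true := ex3_c k444_A00pp_022_s3 k445_A00pp_022_s3

theorem t9971_A00pp_022_s3 : ∃ t, chk3 f_A00pp_022_s3 t 1165 1965 294 = true := ex3_a k443_A00pp_022_s3 t9970_A00pp_022_s3

theorem t9972_A00pp_022_s3 : ∃ t, chk3 f_A00pp_022_s3 t 1165 982 294 = true := ex3_b k442_A00pp_022_s3 t9971_A00pp_022_s3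

theorem t9973_A00pp_022_s3 : ∃ t, chk3 f_A00pp_022_s3 t 1165 982 147 = true := ex3_c t9972_A00pp_022_s3 t9969_A00pp_022_s3

theorem t9974_A00pp_022_s3 : ∃ t, chk3 f_A00pp_022_s3 t 582 982 147 = true := ex3_a k441_A00pp_022_s3 t9973_A00pp_022_s3

theorem t9975_A00pp_022_s3 : ∃ t, chk3 f_A00pp_022_s3 t 582 982 73 = true := ex3_c k440_A00pp_022_s3 t9974_A00pp_022_s3

theorem t9976_A00pp_022_s3 : ∃ t, chk3 f_A00pp_022_s3 t 582 491 73 = true := ex3_b t9975_A00pp_022_s3 t9966_A00pp_022_s3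

theorem t9977_A00pp_022_s3 : ∃ t, chk3 f_A00pp_022_s3 t 291 491 73 = true := ex3_a t9976_A00pp_022_s3 t9962_A00pp_022_s3

theorem t9978_A00pp_022_s3 : ∃ t, chk3 f_A00pp_022_s3 t 2335 983 291 = true := ex3_b k438_A00pp_022_s3 k439_A00pp_022_s3

theorem t9979_A00pp_022_s3 : ∃ t, chk3 f_A00pp_022_s3 t 1167 983 291 = true := ex3_a k437_A00pp_022_s3 t9978_A00pp_022_s3

theorem t9980_A00pp_022_s3 : ∃ t, chk3 f_A00pp_022_s3 t 583 983 291 = true := ex3_a k436_A00pp_022_s3 t9979_A00pp_022_s3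

theorem t9981_A00pp_022_s3 : ∃ t, chk3 f_A00pp_022_s3 t 291 983 291 = true := ex3_a k435_A00pp_022_s3 t9980_A00pp_022_s3

theorem t9982_A00pp_022_s3 : ∃ t, chk3 f_A00pp_022_s3 t 2335 1964 291 = true := ex3_c k432_A00pp_022_s3 k433_A00pp_022_s3

theorem t9983_A00pp_022_s3 : ∃ t, chk3 f_A00pp_022_s3 t 1167 1964 291 = true := ex3_a k431_A00pp_022_s3 t9982_A00pp_022_s3

theorem t9984_A00pp_022_s3 : ∃ t, chk3 f_A00pp_022_s3 t 1167 982 291 = true := ex3_b t9983_A00pp_022_s3 k434_A00pp_022_s3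

theorem t9985_A00pp_022_s3 : ∃ t, chk3 f_A00pp_022_s3 t 583 982 291 = true := ex3_a k430_A00pp_022_s3 t9984_A00pp_022_s3

theorem t9986_A00pp_022_s3 : ∃ t, chk3 f_A00pp_022_s3 t 291 982 291 = true := ex3_a k429_A00pp_022_s3 t9985_A00pp_022_s3

theorem t9987_A00pp_022_s3 : ∃ t, chk3 f_A00pp_022_s3 t 291 491 291 = true := ex3_b t9986_A00pp_022_s3 t9981_A00pp_022_s3

theorem t9988_A00pp_022_s3 : ∃ t, chk3 f_A00pp_022_s3 t 291 491 145 = true := ex3_c k428_A00pp_022_s3 t9987_A00pp_022_s3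

theorem t9989_A00pp_022_s3 : ∃ t, chk3 f_A00pp_022_s3 t 291 491 72 = true := ex3_c k427_A00pp_022_s3 t9988_A00pp_022_s3

theorem t9990_A00pp_022_s3 : ∃ t, chk3 f_A00pp_022_s3 t 291 491 36 = true := ex3_c t9989_A00pp_022_s3 t9977_A00pp_022_s3

theorem t9991_A00pp_022_s3 : ∃ t, chk3 f_A00pp_022_s3 t 291 491 18 = true := ex3_c t9990_A00pp_022_s3 t9942_A00pp_022_s3

theorem t9992_A00pp_022_s3 : ∃ t, chk3 f_A00pp_022_s3 t 1162 1967 300 = true := ex3_c k422_A00pp_022_s3 k423_A00pp_022_s3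

theorem t9993_A00pp_022_s3 : ∃ t, chk3 f_A00pp_022_s3 t 1162 983 300 = true := ex3_b k421_A00pp_022_s3 t9992_A00pp_022_s3

theorem t9994_A00pp_022_s3 : ∃ t, chk3 f_A00pp_022_s3 t 1162 491 300 = true := ex3_b k420_A00pp_022_s3 t9993_A00pp_022_s3

theorem t9995_A00pp_022_s3 : ∃ t, chk3 f_A00pp_022_s3 t 1162 491 150 = true := ex3_c t9994_A00pp_022_s3 k424_A00pp_022_s3

theorem t9996_A00pp_022_s3 : ∃ t, chk3 f_A00pp_022_s3 t 581 491 150 = true := ex3_a t9995_A00pp_022_s3 k425_A00pp_022_s3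

theorem t9997_A00pp_022_s3 : ∃ t, chk3 f_A00pp_022_s3 t 581 491 75 = true := ex3_c t9996_A00pp_022_s3 k426_A00pp_022_s3

theorem t9998_A00pp_022_s3 : ∃ t, chk3 f_A00pp_022_s3 t 580 491 151 = true := ex3_a k418_A00pp_022_s3 k419_A00pp_022_s3

theorem t9999_A00pp_022_s3 : ∃ t, chk3 f_A00pp_022_s3 t 1161 983 301 = true := ex3_b k416_A00pp_022_s3 k417_A00pp_022_s3

theorem t10000_A00pp_022_s3 : ∃ t, chk3 f_A00pp_022_s3 t 1161 491 301 = true := ex3_b k415_A00pp_022_s3 t9999_A00pp_022_s3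

theorem t10001_A00pp_022_s3 : ∃ t, chk3 f_A00pp_022_s3 t 1161 983 300 = true := ex3_b k413_A00pp_022_s3 k414_A00pp_022_s3

theorem t10002_A00pp_022_s3 : ∃ t, chk3 f_A00pp_022_s3 t 1161 491 300 = true := ex3_b k412_A00pp_022_s3 t10001_A00pp_022_s3

theorem t10003_A00pp_022_s3 : ∃ t, chk3 f_A00pp_022_s3 t 1161 491 150 = true := ex3_c t10002_A00pp_022_s3 t10000_A00pp_022_s3

theorem t10004_A00pp_022_s3 : ∃ t, chk3 f_A00pp_022_s3 t 580 491 150 = true := ex3_a k411_A00pp_022_s3 t10003_A00pp_022_s3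

theorem t10005_A00pp_022_s3 : ∃ t, chk3 f_A00pp_022_s3 t 580 491 75 = true := ex3_c t10004_A00pp_022_s3 t9998_A00pp_022_s3

theorem t10006_A00pp_022_s3 : ∃ t, chk3 f_A00pp_022_s3 t 290 491 75 = true := ex3_a t10005_A00pp_022_s3 t9997_A00pp_022_s3

theorem t10007_A00pp_022_s3 : ∃ t, chk3 f_A00pp_022_s3 t 2326 1966 298 = true := ex3_c k406_A00pp_022_s3 k407_A00pp_022_s3

theorem t10008_A00pp_022_s3 : ∃ t, chk3 f_A00pp_022_s3 t 1163 1966 298 = true := ex3_a t10007_A00pp_022_s3 k408_A00pp_022_s3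

theorem t10009_A00pp_022_s3 : ∃ t, chk3 f_A00pp_022_s3 t 1163 983 298 = true := ex3_b t10008_A00pp_022_s3 k409_A00pp_022_s3

theorem t10010_A00pp_022_s3 : ∃ t, chk3 f_A00pp_022_s3 t 1163 983 149 = true := ex3_c t10009_A00pp_022_s3 k410_A00pp_022_s3

theorem t10011_A00pp_022_s3 : ∃ t, chk3 f_A00pp_022_s3 t 1163 491 149 = true := ex3_b k405_A00pp_022_s3 t10010_A00pp_022_s3

theorem t10012_A00pp_022_s3 : ∃ t, chk3 f_A00pp_022_s3 t 2325 1967 299 = true := ex3_c k403_A00pp_022_s3 k404_A00pp_022_s3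

theorem t10013_A00pp_022_s3 : ∃ t, chk3 f_A00pp_022_s3 t 1162 1967 299 = true := ex3_a k402_A00pp_022_s3 t10012_A00pp_022_s3

theorem t10014_A00pp_022_s3 : ∃ t, chk3 f_A00pp_022_s3 t 1162 1967 149 = true := ex3_c k401_A00pp_022_s3 t10013_A00pp_022_s3

theorem t10015_A00pp_022_s3 : ∃ t, chk3 f_A00pp_022_s3 t 1162 983 149 = true := ex3_b k400_A00pp_022_s3 t10014_A00pp_022_s3

theorem t10016_A00pp_022_s3 : ∃ t, chk3 f_A00pp_022_s3 t 1162 491 149 = true := ex3_b k399_A00pp_022_s3 t10015_A00pp_022_s3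

theorem t10017_A00pp_022_s3 : ∃ t, chk3 f_A00pp_022_s3 t 581 491 149 = true := ex3_a t10016_A00pp_022_s3 t10011_A00pp_022_s3

theorem t10018_A00pp_022_s3 : ∃ t, chk3 f_A00pp_022_s3 t 2327 1966 297 = true := ex3_c k396_A00pp_022_s3 k397_A00pp_022_s3

theorem t10019_A00pp_022_s3 : ∃ t, chk3 f_A00pp_022_s3 t 1163 1966 297 = true := ex3_a k395_A00pp_022_s3 t10018_A00pp_022_s3

theorem t10020_A00pp_022_s3 : ∃ t, chk3 f_A00pp_022_s3 t 581 1966 297 = true := ex3_a k394_A00pp_022_s3 t10019_A00pp_022_s3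

theorem t10021_A00pp_022_s3 : ∃ t, chk3 f_A00pp_022_s3 t 581 1966 148 = true := ex3_c k393_A00pp_022_s3 t10020_A00pp_022_s3

theorem t10022_A00pp_022_s3 : ∃ t, chk3 f_A00pp_022_s3 t 581 983 148 = true := ex3_b t10021_A00pp_022_s3 k398_A00pp_022_s3

theorem t10023_A00pp_022_s3 : ∃ t, chk3 f_A00pp_022_s3 t 581 491 148 = true := ex3_b k392_A00pp_022_s3 t10022_A00pp_022_s3

theorem t10024_A00pp_022_s3 : ∃ t, chk3 f_A00pp_022_s3 t 581 491 74 = true := ex3_c t10023_A00pp_022_s3 t10017_A00pp_022_s3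

theorem t10025_A00pp_022_s3 : ∃ t, chk3 f_A00pp_022_s3 t 290 491 74 = true := ex3_a k391_A00pp_022_s3 t10024_A00pp_022_s3

theorem t10026_A00pp_022_s3 : ∃ t, chk3 f_A00pp_022_s3 t 290 491 37 = true := ex3_c t10025_A00pp_022_s3 t10006_A00pp_022_s3

theorem t10027_A00pp_022_s3 : ∃ t, chk3 f_A00pp_022_s3 t 290 491 18 = true := ex3_c k390_A00pp_022_s3 t10026_A00pp_022_s3

theorem t10028_A00pp_022_s3 : ∃ t, chk3 f_A00pp_022_s3 t 145 491 18 = true := ex3_a t10027_A00pp_022_s3 t9991_A00pp_022_s3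

theorem t10029_A00pp_022_s3 : ∃ t, chk3 f_A00pp_022_s3 t 583 490 146 = true := ex3_a k386_A00pp_022_s3 k387_A00pp_022_s3

theorem t10030_A00pp_022_s3 : ∃ t, chk3 f_A00pp_022_s3 t 583 490 73 = true := ex3_c t10029_A00pp_022_s3 k388_A00pp_022_s3

theorem t10031_A00pp_022_s3 : ∃ t, chk3 f_A00pp_022_s3 t 291 490 73 = true := ex3_a k385_A00pp_022_s3 t10030_A00pp_022_s3

theorem t10032_A00pp_022_s3 : ∃ t, chk3 f_A00pp_022_s3 t 291 981 72 = true := ex3_a k383_A00pp_022_s3 k384_A00pp_022_s3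

theorem t10033_A00pp_022_s3 : ∃ t, chk3 f_A00pp_022_s3 t 291 490 72 = true := ex3_b k382_A00pp_022_s3 t10032_A00pp_022_s3

theorem t10034_A00pp_022_s3 : ∃ t, chk3 f_A00pp_022_s3 t 291 490 36 = true := ex3_c t10033_A00pp_022_s3 t10031_A00pp_022_s3

theorem t10035_A00pp_022_s3 : ∃ t, chk3 f_A00pp_022_s3 t 291 490 18 = true := ex3_c t10034_A00pp_022_s3 k389_A00pp_022_s3

theorem t10036_A00pp_022_s3 : ∃ t, chk3 f_A00pp_022_s3 t 290 490 37 = true := ex3_c k380_A00pp_022_s3 k381_A00pp_022_s3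

theorem t10037_A00pp_022_s3 : ∃ t, chk3 f_A00pp_022_s3 t 290 490 18 = true := ex3_c k379_A00pp_022_s3 t10036_A00pp_022_s3

theorem t10038_A00pp_022_s3 : ∃ t, chk3 f_A00pp_022_s3 t 145 490 18 = true := ex3_a t10037_A00pp_022_s3 t10035_A00pp_022_s3

theorem t10039_A00pp_022_s3 : ∃ t, chk3 f_A00pp_022_s3 t 145 245 18 = true := ex3_b t10038_A00pp_022_s3 t10028_A00pp_022_s3

theorem t10040_A00pp_022_s3 : ∃ t, chk3 f_A00pp_022_s3 t 291 244 73 = true := ex3_a k376_A00pp_022_s3 k377_A00pp_022_s3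

theorem t10041_A00pp_022_s3 : ∃ t, chk3 f_A00pp_022_s3 t 291 244 36 = true := ex3_c k375_A00pp_022_s3 t10040_A00pp_022_s3

theorem t10042_A00pp_022_s3 : ∃ t, chk3 f_A00pp_022_s3 t 291 244 18 = true := ex3_c t10041_A00pp_022_s3 k378_A00pp_022_s3

theorem t10043_A00pp_022_s3 : ∃ t, chk3 f_A00pp_022_s3 t 290 244 37 = true := ex3_c k373_A00pp_022_s3 k374_A00pp_022_s3

theorem t10044_A00pp_022_s3 : ∃ t, chk3 f_A00pp_022_s3 t 290 244 18 = true := ex3_c k372_A00pp_022_s3 t10043_A00pp_022_s3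

theorem t10045_A00pp_022_s3 : ∃ t, chk3 f_A00pp_022_s3 t 145 244 18 = true := ex3_a t10044_A00pp_022_s3 t10042_A00pp_022_s3

theorem t10046_A00pp_022_s3 : ∃ t, chk3 f_A00pp_022_s3 t 145 122 18 = true := ex3_b t10045_A00pp_022_s3 t10039_A00pp_022_s3

theorem t10047_A00pp_022_s3 : ∃ t, chk3 f_A00pp_022_s3 t 145 122 9 = true := ex3_c t10046_A00pp_022_s3 t9928_A00pp_022_s3

theorem t10048_A00pp_022_s3 : ∃ t, chk3 f_A00pp_022_s3 t 576 122 78 = true := ex3_c k367_A00pp_022_s3 k368_A00pp_022_s3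

theorem t10049_A00pp_022_s3 : ∃ t, chk3 f_A00pp_022_s3 t 288 122 78 = true := ex3_a t10048_A00pp_022_s3 k369_A00pp_022_s3

theorem t10050_A00pp_022_s3 : ∃ t, chk3 f_A00pp_022_s3 t 288 122 39 = true := ex3_c t10049_A00pp_022_s3 k370_A00pp_022_s3

theorem t10051_A00pp_022_s3 : ∃ t, chk3 f_A00pp_022_s3 t 144 122 39 = true := ex3_a t10050_A00pp_022_s3 k371_A00pp_022_s3

theorem t10052_A00pp_022_s3 : ∃ t, chk3 f_A00pp_022_s3 t 289 122 77 = true := ex3_a k365_A00pp_022_s3 k366_A00pp_022_s3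

theorem t10053_A00pp_022_s3 : ∃ t, chk3 f_A00pp_022_s3 t 579 245 152 = true := ex3_a k362_A00pp_022_s3 k363_A00pp_022_s3

theorem t10054_A00pp_022_s3 : ∃ t, chk3 f_A00pp_022_s3 t 579 122 152 = true := ex3_b k361_A00pp_022_s3 t10053_A00pp_022_s3

theorem t10055_A00pp_022_s3 : ∃ t, chk3 f_A00pp_022_s3 t 579 122 76 = true := ex3_c t10054_A00pp_022_s3 k364_A00pp_022_s3

theorem t10056_A00pp_022_s3 : ∃ t, chk3 f_A00pp_022_s3 t 289 122 76 = true := ex3_a k360_A00pp_022_s3 t10055_A00pp_022_s3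

theorem t10057_A00pp_022_s3 : ∃ t, chk3 f_A00pp_022_s3 t 289 122 38 = true := ex3_c t10056_A00pp_022_s3 t10052_A00pp_022_s3

theorem t10058_A00pp_022_s3 : ∃ t, chk3 f_A00pp_022_s3 t 288 122 77 = true := ex3_a k358_A00pp_022_s3 k359_A00pp_022_s3

theorem t10059_A00pp_022_s3 : ∃ t, chk3 f_A00pp_022_s3 t 288 122 38 = true := ex3_c k357_A00pp_022_s3 t10058_A00pp_022_s3

theorem t10060_A00pp_022_s3 : ∃ t, chk3 f_A00pp_022_s3 t 144 122 38 = true := ex3_a t10059_A00pp_022_s3 t10057_A00pp_022_s3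

theorem t10061_A00pp_022_s3 : ∃ t, chk3 f_A00pp_022_s3 t 144 122 19 = true := ex3_c t10060_A00pp_022_s3 t10051_A00pp_022_s3

theorem t10062_A00pp_022_s3 : ∃ t, chk3 f_A00pp_022_s3 t 144 491 18 = true := ex3_c k355_A00pp_022_s3 k356_A00pp_022_s3

theorem t10063_A00pp_022_s3 : ∃ t, chk3 f_A00pp_022_s3 t 144 245 18 = true := ex3_b k354_A00pp_022_s3 t10062_A00pp_022_s3

theorem t10064_A00pp_022_s3 : ∃ t, chk3 f_A00pp_022_s3 t 144 122 18 = true := ex3_b k353_A00pp_022_s3 t10063_A00pp_022_s3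

theorem t10065_A00pp_022_s3 : ∃ t, chk3 f_A00pp_022_s3 t 144 122 9 = true := ex3_c t10064_A00pp_022_s3 t10061_A00pp_022_s3

theorem t10066_A00pp_022_s3 : ∃ t, chk3 f_A00pp_022_s3 t 72 122 9 = true := ex3_a t10065_A00pp_022_s3 t10047_A00pp_022_s3

theorem t10067_A00pp_022_s3 : ∃ t, chk3 f_A00pp_022_s3 t 72 61 9 = true := ex3_b t10066_A00pp_022_s3 t9898_A00pp_022_s3

theorem t10068_A00pp_022_s3 : ∃ t, chk3 f_A00pp_022_s3 t 290 988 17 = true := ex3_a k348_A00pp_022_s3 k349_A00pp_022_s3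

theorem t10069_A00pp_022_s3 : ∃ t, chk3 f_A00pp_022_s3 t 290 494 17 = true := ex3_b t10068_A00pp_022_s3 k350_A00pp_022_s3

theorem t10070_A00pp_022_s3 : ∃ t, chk3 f_A00pp_022_s3 t 290 247 17 = true := ex3_b t10069_A00pp_022_s3 k351_A00pp_022_s3

theorem t10071_A00pp_022_s3 : ∃ t, chk3 f_A00pp_022_s3 t 145 247 17 = true := ex3_a t10070_A00pp_022_s3 k352_A00pp_022_s3

theorem t10072_A00pp_022_s3 : ∃ t, chk3 f_A00pp_022_s3 t 145 493 35 = true := ex3_b k346_A00pp_022_s3 k347_A00pp_022_s3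

theorem t10073_A00pp_022_s3 : ∃ t, chk3 f_A00pp_022_s3 t 145 493 17 = true := ex3_c k345_A00pp_022_s3 t10072_A00pp_022_s3

theorem t10074_A00pp_022_s3 : ∃ t, chk3 f_A00pp_022_s3 t 145 492 17 = true := ex3_c k343_A00pp_022_s3 k344_A00pp_022_s3

theorem t10075_A00pp_022_s3 : ∃ t, chk3 f_A00pp_022_s3 t 145 246 17 = true := ex3_b t10074_A00pp_022_s3 t10073_A00pp_022_s3

theorem t10076_A00pp_022_s3 : ∃ t, chk3 f_A00pp_022_s3 t 145 123 17 = true := ex3_b t10075_A00pp_022_s3 t10071_A00pp_022_s3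

theorem t10077_A00pp_022_s3 : ∃ t, chk3 f_A00pp_022_s3 t 290 988 16 = true := ex3_a k338_A00pp_022_s3 k339_A00pp_022_s3

theorem t10078_A00pp_022_s3 : ∃ t, chk3 f_A00pp_022_s3 t 290 494 16 = true := ex3_b t10077_A00pp_022_s3 k340_A00pp_022_s3

theorem t10079_A00pp_022_s3 : ∃ t, chk3 f_A00pp_022_s3 t 290 247 16 = true := ex3_b t10078_A00pp_022_s3 k341_A00pp_022_s3

theorem t10080_A00pp_022_s3 : ∃ t, chk3 f_A00pp_022_s3 t 145 247 16 = true := ex3_a t10079_A00pp_022_s3 k342_A00pp_022_s3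

theorem t10081_A00pp_022_s3 : ∃ t, chk3 f_A00pp_022_s3 t 291 987 16 = true := ex3_a k336_A00pp_022_s3 k337_A00pp_022_s3

theorem t10082_A00pp_022_s3 : ∃ t, chk3 f_A00pp_022_s3 t 291 493 16 = true := ex3_b k335_A00pp_022_s3 t10081_A00pp_022_s3

theorem t10083_A00pp_022_s3 : ∃ t, chk3 f_A00pp_022_s3 t 145 493 16 = true := ex3_a k334_A00pp_022_s3 t10082_A00pp_022_s3

theorem t10084_A00pp_022_s3 : ∃ t, chk3 f_A00pp_022_s3 t 145 246 16 = true := ex3_b k333_A00pp_022_s3 t10083_A00pp_022_s3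

theorem t10085_A00pp_022_s3 : ∃ t, chk3 f_A00pp_022_s3 t 145 123 16 = true := ex3_b t10084_A00pp_022_s3 t10080_A00pp_022_s3

theorem t10086_A00pp_022_s3 : ∃ t, chk3 f_A00pp_022_s3 t 145 123 8 = true := ex3_c t10085_A00pp_022_s3 t10076_A00pp_022_s3

theorem t10087_A00pp_022_s3 : ∃ t, chk3 f_A00pp_022_s3 t 578 990 8 = true := ex3_c k329_A00pp_022_s3 k330_A00pp_022_s3

theorem t10088_A00pp_022_s3 : ∃ t, chk3 f_A00pp_022_s3 t 578 495 8 = true := ex3_b t10087_A00pp_022_s3 k331_A00pp_022_s3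

theorem t10089_A00pp_022_s3 : ∃ t, chk3 f_A00pp_022_s3 t 289 495 8 = true := ex3_a t10088_A00pp_022_s3 k332_A00pp_022_s3

theorem t10090_A00pp_022_s3 : ∃ t, chk3 f_A00pp_022_s3 t 577 1981 8 = true := ex3_c k326_A00pp_022_s3 k327_A00pp_022_s3

theorem t10091_A00pp_022_s3 : ∃ t, chk3 f_A00pp_022_s3 t 1155 1980 8 = true := ex3_b k324_A00pp_022_s3 k325_A00pp_022_s3

theorem t10092_A00pp_022_s3 : ∃ t, chk3 f_A00pp_022_s3 t 577 1980 8 = true := ex3_a k323_A00pp_022_s3 t10091_A00pp_022_s3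

theorem t10093_A00pp_022_s3 : ∃ t, chk3 f_A00pp_022_s3 t 577 990 8 = true := ex3_b t10092_A00pp_022_s3 t10090_A00pp_022_s3

theorem t10094_A00pp_022_s3 : ∃ t, chk3 f_A00pp_022_s3 t 577 495 8 = true := ex3_b t10093_A00pp_022_s3 k328_A00pp_022_s3

theorem t10095_A00pp_022_s3 : ∃ t, chk3 f_A00pp_022_s3 t 576 991 8 = true := ex3_c k321_A00pp_022_s3 k322_A00pp_022_s3

theorem t10096_A00pp_022_s3 : ∃ t, chk3 f_A00pp_022_s3 t 1153 3963 8 = true := ex3_a k319_A00pp_022_s3 k320_A00pp_022_s3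

theorem t10097_A00pp_022_s3 : ∃ t, chk3 f_A00pp_022_s3 t 1153 1981 8 = true := ex3_b k318_A00pp_022_s3 t10096_A00pp_022_s3

theorem t10098_A00pp_022_s3 : ∃ t, chk3 f_A00pp_022_s3 t 576 1981 8 = true := ex3_a k317_A00pp_022_s3 t10097_A00pp_022_s3

theorem t10099_A00pp_022_s3 : ∃ t, chk3 f_A00pp_022_s3 t 576 990 8 = true := ex3_b k316_A00pp_022_s3 t10098_A00pp_022_s3

theorem t10100_A00pp_022_s3 : ∃ t, chk3 f_A00pp_022_s3 t 576 495 8 = true := ex3_b t10099_A00pp_022_s3 t10095_A00pp_022_s3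

theorem t10101_A00pp_022_s3 : ∃ t, chk3 f_A00pp_022_s3 t 288 495 8 = true := ex3_a t10100_A00pp_022_s3 t10094_A00pp_022_s3

theorem t10102_A00pp_022_s3 : ∃ t, chk3 f_A00pp_022_s3 t 144 495 8 = true := ex3_a t10101_A00pp_022_s3 t10089_A00pp_022_s3

theorem t10103_A00pp_022_s3 : ∃ t, chk3 f_A00pp_022_s3 t 579 1979 8 = true := ex3_c k314_A00pp_022_s3 k315_A00pp_022_s3

theorem t10104_A00pp_022_s3 : ∃ t, chk3 f_A00pp_022_s3 t 1157 3959 8 = true := ex3_a k312_A00pp_022_s3 k313_A00pp_022_s3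

theorem t10105_A00pp_022_s3 : ∃ t, chk3 f_A00pp_022_s3 t 1157 1979 8 = true := ex3_b k311_A00pp_022_s3 t10104_A00pp_022_s3

theorem t10106_A00pp_022_s3 : ∃ t, chk3 f_A00pp_022_s3 t 578 1979 8 = true := ex3_a k310_A00pp_022_s3 t10105_A00pp_022_s3

theorem t10107_A00pp_022_s3 : ∃ t, chk3 f_A00pp_022_s3 t 289 1979 8 = true := ex3_a t10106_A00pp_022_s3 t10103_A00pp_022_s3

theorem t10108_A00pp_022_s3 : ∃ t, chk3 f_A00pp_022_s3 t 1159 1978 8 = true := ex3_b k308_A00pp_022_s3 k309_A00pp_022_s3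

theorem t10109_A00pp_022_s3 : ∃ t, chk3 f_A00pp_022_s3 t 579 1978 8 = true := ex3_a k307_A00pp_022_s3 t10108_A00pp_022_s3

theorem t10110_A00pp_022_s3 : ∃ t, chk3 f_A00pp_022_s3 t 289 1978 8 = true := ex3_a k306_A00pp_022_s3 t10109_A00pp_022_s3

theorem t10111_A00pp_022_s3 : ∃ t, chk3 f_A00pp_022_s3 t 289 989 8 = true := ex3_b t10110_A00pp_022_s3 t10107_A00pp_022_s3

theorem t10112_A00pp_022_s3 : ∃ t, chk3 f_A00pp_022_s3 t 289 494 8 = true := ex3_b k305_A00pp_022_s3 t10111_A00pp_022_s3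

theorem t10113_A00pp_022_s3 : ∃ t, chk3 f_A00pp_022_s3 t 144 494 8 = true := ex3_a k304_A00pp_022_s3 t10112_A00pp_022_s3

theorem t10114_A00pp_022_s3 : ∃ t, chk3 f_A00pp_022_s3 t 144 247 8 = true := ex3_b t10113_A00pp_022_s3 t10102_A00pp_022_s3

theorem t10115_A00pp_022_s3 : ∃ t, chk3 f_A00pp_022_s3 t 144 246 8 = true := ex3_c k302_A00pp_022_s3 k303_A00pp_022_s3

theorem t10116_A00pp_022_s3 : ∃ t, chk3 f_A00pp_022_s3 t 144 123 8 = true := ex3_b t10115_A00pp_022_s3 t10114_A00pp_022_s3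

theorem t10117_A00pp_022_s3 : ∃ t, chk3 f_A00pp_022_s3 t 72 123 8 = true := ex3_a t10116_A00pp_022_s3 t10086_A00pp_022_s3

theorem t10118_A00pp_022_s3 : ∃ t, chk3 f_A00pp_022_s3 t 72 490 35 = true := ex3_a k299_A00pp_022_s3 k300_A00pp_022_s3

theorem t10119_A00pp_022_s3 : ∃ t, chk3 f_A00pp_022_s3 t 72 490 17 = true := ex3_c k298_A00pp_022_s3 t10118_A00pp_022_s3

theorem t10120_A00pp_022_s3 : ∃ t, chk3 f_A00pp_022_s3 t 72 245 17 = true := ex3_b t10119_A00pp_022_s3 k301_A00pp_022_s3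

theorem t10121_A00pp_022_s3 : ∃ t, chk3 f_A00pp_022_s3 t 72 491 16 = true := ex3_c k296_A00pp_022_s3 k297_A00pp_022_s3

theorem t10122_A00pp_022_s3 : ∃ t, chk3 f_A00pp_022_s3 t 72 245 16 = true := ex3_b k295_A00pp_022_s3 t10121_A00pp_022_s3

theorem t10123_A00pp_022_s3 : ∃ t, chk3 f_A00pp_022_s3 t 72 245 8 = true := ex3_c t10122_A00pp_022_s3 t10120_A00pp_022_s3

theorem t10124_A00pp_022_s3 : ∃ t, chk3 f_A00pp_022_s3 t 144 244 17 = true := ex3_c k292_A00pp_022_s3 k293_A00pp_022_s3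

theorem t10125_A00pp_022_s3 : ∃ t, chk3 f_A00pp_022_s3 t 72 244 17 = true := ex3_a t10124_A00pp_022_s3 k294_A00pp_022_s3

theorem t10126_A00pp_022_s3 : ∃ t, chk3 f_A00pp_022_s3 t 72 488 16 = true := ex3_a k289_A00pp_022_s3 k290_A00pp_022_s3

theorem t10127_A00pp_022_s3 : ∃ t, chk3 f_A00pp_022_s3 t 72 244 16 = true := ex3_b t10126_A00pp_022_s3 k291_A00pp_022_s3

theorem t10128_A00pp_022_s3 : ∃ t, chk3 f_A00pp_022_s3 t 72 244 8 = true := ex3_c t10127_A00pp_022_s3 t10125_A00pp_022_s3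

theorem t10129_A00pp_022_s3 : ∃ t, chk3 f_A00pp_022_s3 t 72 122 8 = true := ex3_b t10128_A00pp_022_s3 t10123_A00pp_022_s3

theorem t10130_A00pp_022_s3 : ∃ t, chk3 f_A00pp_022_s3 t 72 61 8 = true := ex3_b t10129_A00pp_022_s3 t10117_A00pp_022_s3

theorem t10131_A00pp_022_s3 : ∃ t, chk3 f_A00pp_022_s3 t 72 61 4 = true := ex3_c t10130_A00pp_022_s3 t10067_A00pp_022_s3

theorem t10132_A00pp_022_s3 : ∃ t, chk3 f_A00pp_022_s3 t 36 61 4 = true := ex3_a t10131_A00pp_022_s3 t8914_A00pp_022_s3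

theorem t10133_A00pp_022_s3 : ∃ t, chk3 f_A00pp_022_s3 t 295 243 39 = true := ex3_b k287_A00pp_022_s3 k288_A00pp_022_s3

theorem t10134_A00pp_022_s3 : ∃ t, chk3 f_A00pp_022_s3 t 295 243 19 = true := ex3_c k286_A00pp_022_s3 t10133_A00pp_022_s3

theorem t10135_A00pp_022_s3 : ∃ t, chk3 f_A00pp_022_s3 t 294 243 76 = true := ex3_b k282_A00pp_022_s3 k283_A00pp_022_s3

theorem t10136_A00pp_022_s3 : ∃ t, chk3 f_A00pp_022_s3 t 294 243 38 = true := ex3_c t10135_A00pp_022_s3 k284_A00pp_022_s3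

theorem t10137_A00pp_022_s3 : ∃ t, chk3 f_A00pp_022_s3 t 294 243 19 = true := ex3_c t10136_A00pp_022_s3 k285_A00pp_022_s3

theorem t10138_A00pp_022_s3 : ∃ t, chk3 f_A00pp_022_s3 t 147 243 19 = true := ex3_a t10137_A00pp_022_s3 t10134_A00pp_022_s3

theorem t10139_A00pp_022_s3 : ∃ t, chk3 f_A00pp_022_s3 t 147 242 38 = true := ex3_a k279_A00pp_022_s3 k280_A00pp_022_s3

theorem t10140_A00pp_022_s3 : ∃ t, chk3 f_A00pp_022_s3 t 147 242 19 = true := ex3_c t10139_A00pp_022_s3 k281_A00pp_022_s3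

theorem t10141_A00pp_022_s3 : ∃ t, chk3 f_A00pp_022_s3 t 147 121 19 = true := ex3_b t10140_A00pp_022_s3 t10138_A00pp_022_s3

theorem t10142_A00pp_022_s3 : ∃ t, chk3 f_A00pp_022_s3 t 589 243 75 = true := ex3_b k276_A00pp_022_s3 k277_A00pp_022_s3

theorem t10143_A00pp_022_s3 : ∃ t, chk3 f_A00pp_022_s3 t 294 243 75 = true := ex3_a k275_A00pp_022_s3 t10142_A00pp_022_s3

theorem t10144_A00pp_022_s3 : ∃ t, chk3 f_A00pp_022_s3 t 147 243 75 = true := ex3_a t10143_A00pp_022_s3 k278_A00pp_022_s3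

theorem t10145_A00pp_022_s3 : ∃ t, chk3 f_A00pp_022_s3 t 295 243 74 = true := ex3_a k273_A00pp_022_s3 k274_A00pp_022_s3

theorem t10146_A00pp_022_s3 : ∃ t, chk3 f_A00pp_022_s3 t 147 243 74 = true := ex3_a k272_A00pp_022_s3 t10145_A00pp_022_s3

theorem t10147_A00pp_022_s3 : ∃ t, chk3 f_A00pp_022_s3 t 147 243 37 = true := ex3_c t10146_A00pp_022_s3 t10144_A00pp_022_s3

theorem t10148_A00pp_022_s3 : ∃ t, chk3 f_A00pp_022_s3 t 295 243 73 = true := ex3_a k270_A00pp_022_s3 k271_A00pp_022_s3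

theorem t10149_A00pp_022_s3 : ∃ t, chk3 f_A00pp_022_s3 t 295 243 36 = true := ex3_c k269_A00pp_022_s3 t10148_A00pp_022_s3

theorem t10150_A00pp_022_s3 : ∃ t, chk3 f_A00pp_022_s3 t 147 243 36 = true := ex3_a k268_A00pp_022_s3 t10149_A00pp_022_s3

theorem t10151_A00pp_022_s3 : ∃ t, chk3 f_A00pp_022_s3 t 147 243 18 = true := ex3_c t10150_A00pp_022_s3 t10147_A00pp_022_s3

theorem t10152_A00pp_022_s3 : ∃ t, chk3 f_A00pp_022_s3 t 295 242 37 = true := ex3_c k266_A00pp_022_s3 k267_A00pp_022_s3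

theorem t10153_A00pp_022_s3 : ∃ t, chk3 f_A00pp_022_s3 t 147 242 37 = true := ex3_a k265_A00pp_022_s3 t10152_A00pp_022_s3

theorem t10154_A00pp_022_s3 : ∃ t, chk3 f_A00pp_022_s3 t 147 242 18 = true := ex3_c k264_A00pp_022_s3 t10153_A00pp_022_s3

theorem t10155_A00pp_022_s3 : ∃ t, chk3 f_A00pp_022_s3 t 147 121 18 = true := ex3_b t10154_A00pp_022_s3 t10151_A00pp_022_s3

theorem t10156_A00pp_022_s3 : ∃ t, chk3 f_A00pp_022_s3 t 147 121 9 = true := ex3_c t10155_A00pp_022_s3 t10141_A00pp_022_s3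

theorem t10157_A00pp_022_s3 : ∃ t, chk3 f_A00pp_022_s3 t 147 120 19 = true := ex3_a k262_A00pp_022_s3 k263_A00pp_022_s3

theorem t10158_A00pp_022_s3 : ∃ t, chk3 f_A00pp_022_s3 t 147 120 9 = true := ex3_c k261_A00pp_022_s3 t10157_A00pp_022_s3

theorem t10159_A00pp_022_s3 : ∃ t, chk3 f_A00pp_022_s3 t 147 60 9 = true := ex3_b t10158_A00pp_022_s3 t10156_A00pp_022_s3

theorem t10160_A00pp_022_s3 : ∃ t, chk3 f_A00pp_022_s3 t 293 243 39 = true := ex3_b k259_A00pp_022_s3 k260_A00pp_022_s3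

theorem t10161_A00pp_022_s3 : ∃ t, chk3 f_A00pp_022_s3 t 292 243 39 = true := ex3_a k257_A00pp_022_s3 k258_A00pp_022_s3

theorem t10162_A00pp_022_s3 : ∃ t, chk3 f_A00pp_022_s3 t 146 243 39 = true := ex3_a t10161_A00pp_022_s3 t10160_A00pp_022_s3

theorem t10163_A00pp_022_s3 : ∃ t, chk3 f_A00pp_022_s3 t 293 243 77 = true := ex3_a k255_A00pp_022_s3 k256_A00pp_022_s3

theorem t10164_A00pp_022_s3 : ∃ t, chk3 f_A00pp_022_s3 t 293 243 38 = true := ex3_c k254_A00pp_022_s3 t10163_A00pp_022_s3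

theorem t10165_A00pp_022_s3 : ∃ t, chk3 f_A00pp_022_s3 t 146 243 38 = true := ex3_a k253_A00pp_022_s3 t10164_A00pp_022_s3

theorem t10166_A00pp_022_s3 : ∃ t, chk3 f_A00pp_022_s3 t 146 243 19 = true := ex3_c t10165_A00pp_022_s3 t10162_A00pp_022_s3

theorem t10167_A00pp_022_s3 : ∃ t, chk3 f_A00pp_022_s3 t 146 121 19 = true := ex3_b k252_A00pp_022_s3 t10166_A00pp_022_s3

theorem t10168_A00pp_022_s3 : ∃ t, chk3 f_A00pp_022_s3 t 146 60 19 = true := ex3_b k251_A00pp_022_s3 t10167_A00pp_022_s3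

theorem t10169_A00pp_022_s3 : ∃ t, chk3 f_A00pp_022_s3 t 146 60 36 = true := ex3_a k248_A00pp_022_s3 k249_A00pp_022_s3

theorem t10170_A00pp_022_s3 : ∃ t, chk3 f_A00pp_022_s3 t 146 60 18 = true := ex3_c t10169_A00pp_022_s3 k250_A00pp_022_s3

theorem t10171_A00pp_022_s3 : ∃ t, chk3 f_A00pp_022_s3 t 146 60 9 = true := ex3_c t10170_A00pp_022_s3 t10168_A00pp_022_s3

theorem t10172_A00pp_022_s3 : ∃ t, chk3 f_A00pp_022_s3 t 73 60 9 = true := ex3_a t10171_A00pp_022_s3 t10159_A00pp_022_s3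

theorem t10173_A00pp_022_s3 : ∃ t, chk3 f_A00pp_022_s3 t 145 60 19 = true := ex3_c k246_A00pp_022_s3 k247_A00pp_022_s3

theorem t10174_A00pp_022_s3 : ∃ t, chk3 f_A00pp_022_s3 t 144 121 38 = true := ex3_a k243_A00pp_022_s3 k244_A00pp_022_s3

theorem t10175_A00pp_022_s3 : ∃ t, chk3 f_A00pp_022_s3 t 144 121 19 = true := ex3_c t10174_A00pp_022_s3 k245_A00pp_022_s3

theorem t10176_A00pp_022_s3 : ∃ t, chk3 f_A00pp_022_s3 t 144 60 19 = true := ex3_b k242_A00pp_022_s3 t10175_A00pp_022_s3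

theorem t10177_A00pp_022_s3 : ∃ t, chk3 f_A00pp_022_s3 t 72 60 19 = true := ex3_a t10176_A00pp_022_s3 t10173_A00pp_022_s3

theorem t10178_A00pp_022_s3 : ∃ t, chk3 f_A00pp_022_s3 t 145 121 37 = true := ex3_a k240_A00pp_022_s3 k241_A00pp_022_s3

theorem t10179_A00pp_022_s3 : ∃ t, chk3 f_A00pp_022_s3 t 145 121 18 = true := ex3_c k239_A00pp_022_s3 t10178_A00pp_022_s3

theorem t10180_A00pp_022_s3 : ∃ t, chk3 f_A00pp_022_s3 t 145 120 18 = true := ex3_c k237_A00pp_022_s3 k238_A00pp_022_s3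

theorem t10181_A00pp_022_s3 : ∃ t, chk3 f_A00pp_022_s3 t 145 60 18 = true := ex3_b t10180_A00pp_022_s3 t10179_A00pp_022_s3

theorem t10182_A00pp_022_s3 : ∃ t, chk3 f_A00pp_022_s3 t 72 60 18 = true := ex3_a k236_A00pp_022_s3 t10181_A00pp_022_s3

theorem t10183_A00pp_022_s3 : ∃ t, chk3 f_A00pp_022_s3 t 72 60 9 = true := ex3_c t10182_A00pp_022_s3 t10177_A00pp_022_s3

theorem t10184_A00pp_022_s3 : ∃ t, chk3 f_A00pp_022_s3 t 36 60 9 = true := ex3_a t10183_A00pp_022_s3 t10172_A00pp_022_s3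

theorem t10185_A00pp_022_s3 : ∃ t, chk3 f_A00pp_022_s3 t 147 121 35 = true := ex3_a k234_A00pp_022_s3 k235_A00pp_022_s3

theorem t10186_A00pp_022_s3 : ∃ t, chk3 f_A00pp_022_s3 t 589 121 68 = true := ex3_b k230_A00pp_022_s3 k231_A00pp_022_s3

theorem t10187_A00pp_022_s3 : ∃ t, chk3 f_A00pp_022_s3 t 294 121 68 = true := ex3_a k229_A00pp_022_s3 t10186_A00pp_022_s3

theorem t10188_A00pp_022_s3 : ∃ t, chk3 f_A00pp_022_s3 t 294 121 34 = true := ex3_c t10187_A00pp_022_s3 k232_A00pp_022_s3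

theorem t10189_A00pp_022_s3 : ∃ t, chk3 f_A00pp_022_s3 t 147 121 34 = true := ex3_a t10188_A00pp_022_s3 k233_A00pp_022_s3

theorem t10190_A00pp_022_s3 : ∃ t, chk3 f_A00pp_022_s3 t 147 121 17 = true := ex3_c t10189_A00pp_022_s3 t10185_A00pp_022_s3

theorem t10191_A00pp_022_s3 : ∃ t, chk3 f_A00pp_022_s3 t 590 121 67 = true := ex3_b k226_A00pp_022_s3 k227_A00pp_022_s3

theorem t10192_A00pp_022_s3 : ∃ t, chk3 f_A00pp_022_s3 t 295 121 67 = true := ex3_a t10191_A00pp_022_s3 k228_A00pp_022_s3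

theorem t10193_A00pp_022_s3 : ∃ t, chk3 f_A00pp_022_s3 t 295 121 66 = true := ex3_b k224_A00pp_022_s3 k225_A00pp_022_s3

theorem t10194_A00pp_022_s3 : ∃ t, chk3 f_A00pp_022_s3 t 295 121 33 = true := ex3_c t10193_A00pp_022_s3 t10192_A00pp_022_s3

theorem t10195_A00pp_022_s3 : ∃ t, chk3 f_A00pp_022_s3 t 147 121 33 = true := ex3_a k223_A00pp_022_s3 t10194_A00pp_022_s3

theorem t10196_A00pp_022_s3 : ∃ t, chk3 f_A00pp_022_s3 t 147 121 16 = true := ex3_c k222_A00pp_022_s3 t10195_A00pp_022_s3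

theorem t10197_A00pp_022_s3 : ∃ t, chk3 f_A00pp_022_s3 t 147 121 8 = true := ex3_c t10196_A00pp_022_s3 t10190_A00pp_022_s3

theorem t10198_A00pp_022_s3 : ∃ t, chk3 f_A00pp_022_s3 t 293 121 35 = true := ex3_c k220_A00pp_022_s3 k221_A00pp_022_s3

theorem t10199_A00pp_022_s3 : ∃ t, chk3 f_A00pp_022_s3 t 146 121 35 = true := ex3_a k219_A00pp_022_s3 t10198_A00pp_022_s3

theorem t10200_A00pp_022_s3 : ∃ t, chk3 f_A00pp_022_s3 t 146 121 17 = true := ex3_c k218_A00pp_022_s3 t10199_A00pp_022_s3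

theorem t10201_A00pp_022_s3 : ∃ t, chk3 f_A00pp_022_s3 t 146 121 8 = true := ex3_c k217_A00pp_022_s3 t10200_A00pp_022_s3

theorem t10202_A00pp_022_s3 : ∃ t, chk3 f_A00pp_022_s3 t 73 121 8 = true := ex3_a t10201_A00pp_022_s3 t10197_A00pp_022_s3

theorem t10203_A00pp_022_s3 : ∃ t, chk3 f_A00pp_022_s3 t 147 120 34 = true := ex3_a k214_A00pp_022_s3 k215_A00pp_022_s3

theorem t10204_A00pp_022_s3 : ∃ t, chk3 f_A00pp_022_s3 t 147 120 17 = true := ex3_c t10203_A00pp_022_s3 k216_A00pp_022_s3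

theorem t10205_A00pp_022_s3 : ∃ t, chk3 f_A00pp_022_s3 t 147 120 16 = true := ex3_b k212_A00pp_022_s3 k213_A00pp_022_s3

theorem t10206_A00pp_022_s3 : ∃ t, chk3 f_A00pp_022_s3 t 147 120 8 = true := ex3_c t10205_A00pp_022_s3 t10204_A00pp_022_s3

theorem t10207_A00pp_022_s3 : ∃ t, chk3 f_A00pp_022_s3 t 146 120 35 = true := ex3_a k210_A00pp_022_s3 k211_A00pp_022_s3

theorem t10208_A00pp_022_s3 : ∃ t, chk3 f_A00pp_022_s3 t 146 120 17 = true := ex3_c k209_A00pp_022_s3 t10207_A00pp_022_s3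

theorem t10209_A00pp_022_s3 : ∃ t, chk3 f_A00pp_022_s3 t 146 120 8 = true := ex3_c k208_A00pp_022_s3 t10208_A00pp_022_s3

theorem t10210_A00pp_022_s3 : ∃ t, chk3 f_A00pp_022_s3 t 73 120 8 = true := ex3_a t10209_A00pp_022_s3 t10206_A00pp_022_s3

theorem t10211_A00pp_022_s3 : ∃ t, chk3 f_A00pp_022_s3 t 73 60 8 = true := ex3_b t10210_A00pp_022_s3 t10202_A00pp_022_s3

theorem t10212_A00pp_022_s3 : ∃ t, chk3 f_A00pp_022_s3 t 72 121 8 = true := ex3_c k206_A00pp_022_s3 k207_A00pp_022_s3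

theorem t10213_A00pp_022_s3 : ∃ t, chk3 f_A00pp_022_s3 t 72 60 8 = true := ex3_b k205_A00pp_022_s3 t10212_A00pp_022_s3

theorem t10214_A00pp_022_s3 : ∃ t, chk3 f_A00pp_022_s3 t 36 60 8 = true := ex3_a t10213_A00pp_022_s3 t10211_A00pp_022_s3

theorem t10215_A00pp_022_s3 : ∃ t, chk3 f_A00pp_022_s3 t 36 60 4 = true := ex3_c t10214_A00pp_022_s3 t10184_A00pp_022_s3

theorem t10216_A00pp_022_s3 : ∃ t, chk3 f_A00pp_022_s3 t 36 30 4 = true := ex3_b t10215_A00pp_022_s3 t10132_A00pp_022_s3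

theorem t10217_A00pp_022_s3 : ∃ t, chk3 f_A00pp_022_s3 t 36 30 2 = true := ex3_c t10216_A00pp_022_s3 t7496_A00pp_022_s3

theorem t10218_A00pp_022_s3 : ∃ t, chk3 f_A00pp_022_s3 t 18 30 2 = true := ex3_a t10217_A00pp_022_s3 t6717_A00pp_022_s3

theorem t10219_A00pp_022_s3 : ∃ t, chk3 f_A00pp_022_s3 t 18 30 1 = true := ex3_c t10218_A00pp_022_s3 t5497_A00pp_022_s3

theorem t10220_A00pp_022_s3 : ∃ t, chk3 f_A00pp_022_s3 t 18 15 1 = true := ex3_b t10219_A00pp_022_s3 k5007_A00pp_022_s3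

theorem t10221_A00pp_022_s3 : ∃ t, chk3 f_A00pp_022_s3 t 9 15 1 = true := ex3_a t10220_A00pp_022_s3 t5418_A00pp_022_s3

theorem t10222_A00pp_022_s3 : ∃ t, chk3 f_A00pp_022_s3 t 39 59 3 = true := ex3_a k203_A00pp_022_s3 k204_A00pp_022_s3

theorem t10223_A00pp_022_s3 : ∃ t, chk3 f_A00pp_022_s3 t 39 29 3 = true := ex3_b k202_A00pp_022_s3 t10222_A00pp_022_s3

theorem t10224_A00pp_022_s3 : ∃ t, chk3 f_A00pp_022_s3 t 19 29 3 = true := ex3_a k201_A00pp_022_s3 t10223_A00pp_022_s3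

theorem t10225_A00pp_022_s3 : ∃ t, chk3 f_A00pp_022_s3 t 159 479 2 = true := ex3_c k199_A00pp_022_s3 k200_A00pp_022_s3

theorem t10226_A00pp_022_s3 : ∃ t, chk3 f_A00pp_022_s3 t 159 239 2 = true := ex3_b k198_A00pp_022_s3 t10225_A00pp_022_s3

theorem t10227_A00pp_022_s3 : ∃ t, chk3 f_A00pp_022_s3 t 79 239 2 = true := ex3_a k197_A00pp_022_s3 t10226_A00pp_022_s3

theorem t10228_A00pp_022_s3 : ∃ t, chk3 f_A00pp_022_s3 t 79 119 2 = true := ex3_b k196_A00pp_022_s3 t10227_A00pp_022_s3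

theorem t10229_A00pp_022_s3 : ∃ t, chk3 f_A00pp_022_s3 t 79 59 2 = true := ex3_b k195_A00pp_022_s3 t10228_A00pp_022_s3

theorem t10230_A00pp_022_s3 : ∃ t, chk3 f_A00pp_022_s3 t 78 119 2 = true := ex3_a k193_A00pp_022_s3 k194_A00pp_022_s3

theorem t10231_A00pp_022_s3 : ∃ t, chk3 f_A00pp_022_s3 t 78 59 2 = true := ex3_b k192_A00pp_022_s3 t10230_A00pp_022_s3

theorem t10232_A00pp_022_s3 : ∃ t, chk3 f_A00pp_022_s3 t 39 59 2 = true := ex3_a t10231_A00pp_022_s3 t10229_A00pp_022_s3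

theorem t10233_A00pp_022_s3 : ∃ t, chk3 f_A00pp_022_s3 t 39 29 2 = true := ex3_b k191_A00pp_022_s3 t10232_A00pp_022_s3

theorem t10234_A00pp_022_s3 : ∃ t, chk3 f_A00pp_022_s3 t 308 238 32 = true := ex3_b k182_A00pp_022_s3 k183_A00pp_022_s3

theorem t10235_A00pp_022_s3 : ∃ t, chk3 f_A00pp_022_s3 t 154 238 32 = true := ex3_a t10234_A00pp_022_s3 k184_A00pp_022_s3

theorem t10236_A00pp_022_s3 : ∃ t, chk3 f_A00pp_022_s3 t 154 238 16 = true := ex3_c t10235_A00pp_022_s3 k185_A00pp_022_s3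

theorem t10237_A00pp_022_s3 : ∃ t, chk3 f_A00pp_022_s3 t 154 238 8 = true := ex3_c t10236_A00pp_022_s3 k186_A00pp_022_s3

theorem t10238_A00pp_022_s3 : ∃ t, chk3 f_A00pp_022_s3 t 154 238 4 = true := ex3_c t10237_A00pp_022_s3 k187_A00pp_022_s3

theorem t10239_A00pp_022_s3 : ∃ t, chk3 f_A00pp_022_s3 t 154 119 4 = true := ex3_b t10238_A00pp_022_s3 k188_A00pp_022_s3

theorem t10240_A00pp_022_s3 : ∃ t, chk3 f_A00pp_022_s3 t 77 119 4 = true := ex3_a t10239_A00pp_022_s3 k189_A00pp_022_s3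

theorem t10241_A00pp_022_s3 : ∃ t, chk3 f_A00pp_022_s3 t 152 238 18 = true := ex3_c k177_A00pp_022_s3 k178_A00pp_022_s3

theorem t10242_A00pp_022_s3 : ∃ t, chk3 f_A00pp_022_s3 t 152 238 9 = true := ex3_c t10241_A00pp_022_s3 k179_A00pp_022_s3

theorem t10243_A00pp_022_s3 : ∃ t, chk3 f_A00pp_022_s3 t 76 238 9 = true := ex3_a t10242_A00pp_022_s3 k180_A00pp_022_s3

theorem t10244_A00pp_022_s3 : ∃ t, chk3 f_A00pp_022_s3 t 76 119 9 = true := ex3_b t10243_A00pp_022_s3 k181_A00pp_022_s3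

theorem t10245_A00pp_022_s3 : ∃ t, chk3 f_A00pp_022_s3 t 152 239 17 = true := ex3_b k174_A00pp_022_s3 k175_A00pp_022_s3

theorem t10246_A00pp_022_s3 : ∃ t, chk3 f_A00pp_022_s3 t 76 239 17 = true := ex3_a t10245_A00pp_022_s3 k176_A00pp_022_s3

theorem t10247_A00pp_022_s3 : ∃ t, chk3 f_A00pp_022_s3 t 153 479 32 = true := ex3_a k171_A00pp_022_s3 k172_A00pp_022_s3

theorem t10248_A00pp_022_s3 : ∃ t, chk3 f_A00pp_022_s3 t 153 479 16 = true := ex3_c t10247_A00pp_022_s3 k173_A00pp_022_s3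

theorem t10249_A00pp_022_s3 : ∃ t, chk3 f_A00pp_022_s3 t 153 478 16 = true := ex3_c k169_A00pp_022_s3 k170_A00pp_022_s3

theorem t10250_A00pp_022_s3 : ∃ t, chk3 f_A00pp_022_s3 t 153 239 16 = true := ex3_b t10249_A00pp_022_s3 t10248_A00pp_022_s3

theorem t10251_A00pp_022_s3 : ∃ t, chk3 f_A00pp_022_s3 t 608 478 32 = true := ex3_c k163_A00pp_022_s3 k164_A00pp_022_s3

theorem t10252_A00pp_022_s3 : ∃ t, chk3 f_A00pp_022_s3 t 304 478 32 = true := ex3_a t10251_A00pp_022_s3 k165_A00pp_022_s3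

theorem t10253_A00pp_022_s3 : ∃ t, chk3 f_A00pp_022_s3 t 304 239 32 = true := ex3_b t10252_A00pp_022_s3 k166_A00pp_022_s3

theorem t10254_A00pp_022_s3 : ∃ t, chk3 f_A00pp_022_s3 t 304 239 16 = true := ex3_c t10253_A00pp_022_s3 k167_A00pp_022_s3

theorem t10255_A00pp_022_s3 : ∃ t, chk3 f_A00pp_022_s3 t 152 239 16 = true := ex3_a t10254_A00pp_022_s3 k168_A00pp_022_s3

theorem t10256_A00pp_022_s3 : ∃ t, chk3 f_A00pp_022_s3 t 76 239 16 = true := ex3_a t10255_A00pp_022_s3 t10250_A00pp_022_s3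

theorem t10257_A00pp_022_s3 : ∃ t, chk3 f_A00pp_022_s3 t 76 239 8 = true := ex3_c t10256_A00pp_022_s3 t10246_A00pp_022_s3

theorem t10258_A00pp_022_s3 : ∃ t, chk3 f_A00pp_022_s3 t 153 238 34 = true := ex3_a k160_A00pp_022_s3 k161_A00pp_022_s3

theorem t10259_A00pp_022_s3 : ∃ t, chk3 f_A00pp_022_s3 t 153 238 17 = true := ex3_c t10258_A00pp_022_s3 k162_A00pp_022_s3

theorem t10260_A00pp_022_s3 : ∃ t, chk3 f_A00pp_022_s3 t 76 238 17 = true := ex3_a k159_A00pp_022_s3 t10259_A00pp_022_s3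

theorem t10261_A00pp_022_s3 : ∃ t, chk3 f_A00pp_022_s3 t 153 238 16 = true := ex3_c k157_A00pp_022_s3 k158_A00pp_022_s3

theorem t10262_A00pp_022_s3 : ∃ t, chk3 f_A00pp_022_s3 t 305 476 32 = true := ex3_a k153_A00pp_022_s3 k154_A00pp_022_s3

theorem t10263_A00pp_022_s3 : ∃ t, chk3 f_A00pp_022_s3 t 305 238 32 = true := ex3_b t10262_A00pp_022_s3 k155_A00pp_022_s3

theorem t10264_A00pp_022_s3 : ∃ t, chk3 f_A00pp_022_s3 t 305 238 16 = true := ex3_c t10263_A00pp_022_s3 k156_A00pp_022_s3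

theorem t10265_A00pp_022_s3 : ∃ t, chk3 f_A00pp_022_s3 t 304 238 33 = true := ex3_b k151_A00pp_022_s3 k152_A00pp_022_s3

theorem t10266_A00pp_022_s3 : ∃ t, chk3 f_A00pp_022_s3 t 609 477 32 = true := ex3_c k149_A00pp_022_s3 k150_A00pp_022_s3

theorem t10267_A00pp_022_s3 : ∃ t, chk3 f_A00pp_022_s3 t 304 477 32 = true := ex3_a k148_A00pp_022_s3 t10266_A00pp_022_s3

theorem t10268_A00pp_022_s3 : ∃ t, chk3 f_A00pp_022_s3 t 304 238 32 = true := ex3_b k147_A00pp_022_s3 t10267_A00pp_022_s3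

theorem t10269_A00pp_022_s3 : ∃ t, chk3 f_A00pp_022_s3 t 304 238 16 = true := ex3_c t10268_A00pp_022_s3 t10265_A00pp_022_s3

theorem t10270_A00pp_022_s3 : ∃ t, chk3 f_A00pp_022_s3 t 152 238 16 = true := ex3_a t10269_A00pp_022_s3 t10264_A00pp_022_s3

theorem t10271_A00pp_022_s3 : ∃ t, chk3 f_A00pp_022_s3 t 76 238 16 = true := ex3_a t10270_A00pp_022_s3 t10261_A00pp_022_s3

theorem t10272_A00pp_022_s3 : ∃ t, chk3 f_A00pp_022_s3 t 76 238 8 = true := ex3_c t10271_A00pp_022_s3 t10260_A00pp_022_s3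

theorem t10273_A00pp_022_s3 : ∃ t, chk3 f_A00pp_022_s3 t 76 119 8 = true := ex3_b t10272_A00pp_022_s3 t10257_A00pp_022_s3

theorem t10274_A00pp_022_s3 : ∃ t, chk3 f_A00pp_022_s3 t 76 119 4 = true := ex3_c t10273_A00pp_022_s3 t10244_A00pp_022_s3

theorem t10275_A00pp_022_s3 : ∃ t, chk3 f_A00pp_022_s3 t 38 119 4 = true := ex3_a t10274_A00pp_022_s3 t10240_A00pp_022_s3

theorem t10276_A00pp_022_s3 : ∃ t, chk3 f_A00pp_022_s3 t 310 236 16 = true := ex3_c k141_A00pp_022_s3 k142_A00pp_022_s3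

theorem t10277_A00pp_022_s3 : ∃ t, chk3 f_A00pp_022_s3 t 155 236 16 = true := ex3_a t10276_A00pp_022_s3 k143_A00pp_022_s3

theorem t10278_A00pp_022_s3 : ∃ t, chk3 f_A00pp_022_s3 t 155 236 8 = true := ex3_c t10277_A00pp_022_s3 k144_A00pp_022_s3

theorem t10279_A00pp_022_s3 : ∃ t, chk3 f_A00pp_022_s3 t 155 118 8 = true := ex3_b t10278_A00pp_022_s3 k145_A00pp_022_s3

theorem t10280_A00pp_022_s3 : ∃ t, chk3 f_A00pp_022_s3 t 154 237 33 = true := ex3_a k138_A00pp_022_s3 k139_A00pp_022_s3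

theorem t10281_A00pp_022_s3 : ∃ t, chk3 f_A00pp_022_s3 t 154 237 16 = true := ex3_c k137_A00pp_022_s3 t10280_A00pp_022_s3

theorem t10282_A00pp_022_s3 : ∃ t, chk3 f_A00pp_022_s3 t 154 237 8 = true := ex3_c t10281_A00pp_022_s3 k140_A00pp_022_s3

theorem t10283_A00pp_022_s3 : ∃ t, chk3 f_A00pp_022_s3 t 154 236 8 = true := ex3_c k135_A00pp_022_s3 k136_A00pp_022_s3

theorem t10284_A00pp_022_s3 : ∃ t, chk3 f_A00pp_022_s3 t 154 118 8 = true := ex3_b t10283_A00pp_022_s3 t10282_A00pp_022_s3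

theorem t10285_A00pp_022_s3 : ∃ t, chk3 f_A00pp_022_s3 t 77 118 8 = true := ex3_a t10284_A00pp_022_s3 t10279_A00pp_022_s3

theorem t10286_A00pp_022_s3 : ∃ t, chk3 f_A00pp_022_s3 t 77 118 4 = true := ex3_c t10285_A00pp_022_s3 k146_A00pp_022_s3

theorem t10287_A00pp_022_s3 : ∃ t, chk3 f_A00pp_022_s3 t 76 118 9 = true := ex3_b k133_A00pp_022_s3 k134_A00pp_022_s3

theorem t10288_A00pp_022_s3 : ∃ t, chk3 f_A00pp_022_s3 t 153 237 17 = true := ex3_c k131_A00pp_022_s3 k132_A00pp_022_s3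

theorem t10289_A00pp_022_s3 : ∃ t, chk3 f_A00pp_022_s3 t 76 237 17 = true := ex3_a k130_A00pp_022_s3 t10288_A00pp_022_s3

theorem t10290_A00pp_022_s3 : ∃ t, chk3 f_A00pp_022_s3 t 306 474 32 = true := ex3_a k125_A00pp_022_s3 k126_A00pp_022_s3

theorem t10291_A00pp_022_s3 : ∃ t, chk3 f_A00pp_022_s3 t 306 237 32 = true := ex3_b t10290_A00pp_022_s3 k127_A00pp_022_s3

theorem t10292_A00pp_022_s3 : ∃ t, chk3 f_A00pp_022_s3 t 153 237 32 = true := ex3_a t10291_A00pp_022_s3 k128_A00pp_022_s3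

theorem t10293_A00pp_022_s3 : ∃ t, chk3 f_A00pp_022_s3 t 153 237 16 = true := ex3_c t10292_A00pp_022_s3 k129_A00pp_022_s3

theorem t10294_A00pp_022_s3 : ∃ t, chk3 f_A00pp_022_s3 t 305 475 32 = true := ex3_a k122_A00pp_022_s3 k123_A00pp_022_s3

theorem t10295_A00pp_022_s3 : ∃ t, chk3 f_A00pp_022_s3 t 305 237 32 = true := ex3_b k121_A00pp_022_s3 t10294_A00pp_022_s3

theorem t10296_A00pp_022_s3 : ∃ t, chk3 f_A00pp_022_s3 t 305 237 16 = true := ex3_c t10295_A00pp_022_s3 k124_A00pp_022_s3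

theorem t10297_A00pp_022_s3 : ∃ t, chk3 f_A00pp_022_s3 t 152 237 16 = true := ex3_a k120_A00pp_022_s3 t10296_A00pp_022_s3

theorem t10298_A00pp_022_s3 : ∃ t, chk3 f_A00pp_022_s3 t 76 237 16 = true := ex3_a t10297_A00pp_022_s3 t10293_A00pp_022_s3

theorem t10299_A00pp_022_s3 : ∃ t, chk3 f_A00pp_022_s3 t 76 237 8 = true := ex3_c t10298_A00pp_022_s3 t10289_A00pp_022_s3

theorem t10300_A00pp_022_s3 : ∃ t, chk3 f_A00pp_022_s3 t 76 118 8 = true := ex3_b k119_A00pp_022_s3 t10299_A00pp_022_s3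

theorem t10301_A00pp_022_s3 : ∃ t, chk3 f_A00pp_022_s3 t 76 118 4 = true := ex3_c t10300_A00pp_022_s3 t10287_A00pp_022_s3

theorem t10302_A00pp_022_s3 : ∃ t, chk3 f_A00pp_022_s3 t 38 118 4 = true := ex3_a t10301_A00pp_022_s3 t10286_A00pp_022_s3

theorem t10303_A00pp_022_s3 : ∃ t, chk3 f_A00pp_022_s3 t 38 59 4 = true := ex3_b t10302_A00pp_022_s3 t10275_A00pp_022_s3

theorem t10304_A00pp_022_s3 : ∃ t, chk3 f_A00pp_022_s3 t 38 59 2 = true := ex3_c t10303_A00pp_022_s3 k190_A00pp_022_s3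

theorem t10305_A00pp_022_s3 : ∃ t, chk3 f_A00pp_022_s3 t 38 29 2 = true := ex3_b k118_A00pp_022_s3 t10304_A00pp_022_s3

theorem t10306_A00pp_022_s3 : ∃ t, chk3 f_A00pp_022_s3 t 19 29 2 = true := ex3_a t10305_A00pp_022_s3 t10233_A00pp_022_s3

theorem t10307_A00pp_022_s3 : ∃ t, chk3 f_A00pp_022_s3 t 19 29 1 = true := ex3_c t10306_A00pp_022_s3 t10224_A00pp_022_s3

theorem t10308_A00pp_022_s3 : ∃ t, chk3 f_A00pp_022_s3 t 19 14 1 = true := ex3_b k117_A00pp_022_s3 t10307_A00pp_022_s3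

theorem t10309_A00pp_022_s3 : ∃ t, chk3 f_A00pp_022_s3 t 74 239 10 = true := ex3_a k112_A00pp_022_s3 k113_A00pp_022_s3

theorem t10310_A00pp_022_s3 : ∃ t, chk3 f_A00pp_022_s3 t 74 119 10 = true := ex3_b k111_A00pp_022_s3 t10309_A00pp_022_s3

theorem t10311_A00pp_022_s3 : ∃ t, chk3 f_A00pp_022_s3 t 74 119 5 = true := ex3_c t10310_A00pp_022_s3 k114_A00pp_022_s3

theorem t10312_A00pp_022_s3 : ∃ t, chk3 f_A00pp_022_s3 t 37 119 5 = true := ex3_a t10311_A00pp_022_s3 k115_A00pp_022_s3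

theorem t10313_A00pp_022_s3 : ∃ t, chk3 f_A00pp_022_s3 t 37 59 5 = true := ex3_b k110_A00pp_022_s3 t10312_A00pp_022_s3

theorem t10314_A00pp_022_s3 : ∃ t, chk3 f_A00pp_022_s3 t 37 29 5 = true := ex3_b k109_A00pp_022_s3 t10313_A00pp_022_s3

theorem t10315_A00pp_022_s3 : ∃ t, chk3 f_A00pp_022_s3 t 75 239 19 = true := ex3_a k107_A00pp_022_s3 k108_A00pp_022_s3

theorem t10316_A00pp_022_s3 : ∃ t, chk3 f_A00pp_022_s3 t 151 239 18 = true := ex3_b k105_A00pp_022_s3 k106_A00pp_022_s3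

theorem t10317_A00pp_022_s3 : ∃ t, chk3 f_A00pp_022_s3 t 150 239 18 = true := ex3_b k103_A00pp_022_s3 k104_A00pp_022_s3

theorem t10318_A00pp_022_s3 : ∃ t, chk3 f_A00pp_022_s3 t 75 239 18 = true := ex3_a t10317_A00pp_022_s3 t10316_A00pp_022_s3

theorem t10319_A00pp_022_s3 : ∃ t, chk3 f_A00pp_022_s3 t 75 239 9 = true := ex3_c t10318_A00pp_022_s3 t10315_A00pp_022_s3

theorem t10320_A00pp_022_s3 : ∃ t, chk3 f_A00pp_022_s3 t 75 238 19 = true := ex3_a k101_A00pp_022_s3 k102_A00pp_022_s3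

theorem t10321_A00pp_022_s3 : ∃ t, chk3 f_A00pp_022_s3 t 75 238 18 = true := ex3_a k99_A00pp_022_s3 k100_A00pp_022_s3

theorem t10322_A00pp_022_s3 : ∃ t, chk3 f_A00pp_022_s3 t 75 238 9 = true := ex3_c t10321_A00pp_022_s3 t10320_A00pp_022_s3

theorem t10323_A00pp_022_s3 : ∃ t, chk3 f_A00pp_022_s3 t 75 119 9 = true := ex3_b t10322_A00pp_022_s3 t10319_A00pp_022_s3

theorem t10324_A00pp_022_s3 : ∃ t, chk3 f_A00pp_022_s3 t 75 59 9 = true := ex3_b k98_A00pp_022_s3 t10323_A00pp_022_s3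

theorem t10325_A00pp_022_s3 : ∃ t, chk3 f_A00pp_022_s3 t 302 239 34 = true := ex3_b k94_A00pp_022_s3 k95_A00pp_022_s3

theorem t10326_A00pp_022_s3 : ∃ t, chk3 f_A00pp_022_s3 t 151 239 34 = true := ex3_a t10325_A00pp_022_s3 k96_A00pp_022_s3

theorem t10327_A00pp_022_s3 : ∃ t, chk3 f_A00pp_022_s3 t 151 239 17 = true := ex3_c t10326_A00pp_022_s3 k97_A00pp_022_s3

theorem t10328_A00pp_022_s3 : ∃ t, chk3 f_A00pp_022_s3 t 301 239 17 = true := ex3_c k92_A00pp_022_s3 k93_A00pp_022_s3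

theorem t10329_A00pp_022_s3 : ∃ t, chk3 f_A00pp_022_s3 t 150 239 17 = true := ex3_a k91_A00pp_022_s3 t10328_A00pp_022_s3

theorem t10330_A00pp_022_s3 : ∃ t, chk3 f_A00pp_022_s3 t 75 239 17 = true := ex3_a t10329_A00pp_022_s3 t10327_A00pp_022_s3

theorem t10331_A00pp_022_s3 : ∃ t, chk3 f_A00pp_022_s3 t 303 238 34 = true := ex3_b k88_A00pp_022_s3 k89_A00pp_022_s3

theorem t10332_A00pp_022_s3 : ∃ t, chk3 f_A00pp_022_s3 t 151 238 34 = true := ex3_a k87_A00pp_022_s3 t10331_A00pp_022_s3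

theorem t10333_A00pp_022_s3 : ∃ t, chk3 f_A00pp_022_s3 t 151 238 17 = true := ex3_c t10332_A00pp_022_s3 k90_A00pp_022_s3

theorem t10334_A00pp_022_s3 : ∃ t, chk3 f_A00pp_022_s3 t 75 238 17 = true := ex3_a k86_A00pp_022_s3 t10333_A00pp_022_s3

theorem t10335_A00pp_022_s3 : ∃ t, chk3 f_A00pp_022_s3 t 75 119 17 = true := ex3_b t10334_A00pp_022_s3 t10330_A00pp_022_s3

theorem t10336_A00pp_022_s3 : ∃ t, chk3 f_A00pp_022_s3 t 303 239 66 = true := ex3_b k83_A00pp_022_s3 k84_A00pp_022_s3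

theorem t10337_A00pp_022_s3 : ∃ t, chk3 f_A00pp_022_s3 t 303 239 33 = true := ex3_c t10336_A00pp_022_s3 k85_A00pp_022_s3

theorem t10338_A00pp_022_s3 : ∃ t, chk3 f_A00pp_022_s3 t 607 479 32 = true := ex3_c k81_A00pp_022_s3 k82_A00pp_022_s3

theorem t10339_A00pp_022_s3 : ∃ t, chk3 f_A00pp_022_s3 t 607 239 32 = true := ex3_b k80_A00pp_022_s3 t10338_A00pp_022_s3

theorem t10340_A00pp_022_s3 : ∃ t, chk3 f_A00pp_022_s3 t 303 239 32 = true := ex3_a k79_A00pp_022_s3 t10339_A00pp_022_s3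

theorem t10341_A00pp_022_s3 : ∃ t, chk3 f_A00pp_022_s3 t 303 239 16 = true := ex3_c t10340_A00pp_022_s3 t10337_A00pp_022_s3

theorem t10342_A00pp_022_s3 : ∃ t, chk3 f_A00pp_022_s3 t 303 119 16 = true := ex3_b k78_A00pp_022_s3 t10341_A00pp_022_s3

theorem t10343_A00pp_022_s3 : ∃ t, chk3 f_A00pp_022_s3 t 302 479 33 = true := ex3_a k76_A00pp_022_s3 k77_A00pp_022_s3

theorem t10344_A00pp_022_s3 : ∃ t, chk3 f_A00pp_022_s3 t 302 239 33 = true := ex3_b k75_A00pp_022_s3 t10343_A00pp_022_s3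

theorem t10345_A00pp_022_s3 : ∃ t, chk3 f_A00pp_022_s3 t 302 119 33 = true := ex3_b k74_A00pp_022_s3 t10344_A00pp_022_s3

theorem t10346_A00pp_022_s3 : ∃ t, chk3 f_A00pp_022_s3 t 302 119 16 = true := ex3_c k73_A00pp_022_s3 t10345_A00pp_022_s3

theorem t10347_A00pp_022_s3 : ∃ t, chk3 f_A00pp_022_s3 t 151 119 16 = true := ex3_a t10346_A00pp_022_s3 t10342_A00pp_022_s3

theorem t10348_A00pp_022_s3 : ∃ t, chk3 f_A00pp_022_s3 t 75 119 16 = true := ex3_a k72_A00pp_022_s3 t10347_A00pp_022_s3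

theorem t10349_A00pp_022_s3 : ∃ t, chk3 f_A00pp_022_s3 t 75 119 8 = true := ex3_c t10348_A00pp_022_s3 t10335_A00pp_022_s3

theorem t10350_A00pp_022_s3 : ∃ t, chk3 f_A00pp_022_s3 t 75 59 8 = true := ex3_b k71_A00pp_022_s3 t10349_A00pp_022_s3

theorem t10351_A00pp_022_s3 : ∃ t, chk3 f_A00pp_022_s3 t 75 59 4 = true := ex3_c t10350_A00pp_022_s3 t10324_A00pp_022_s3

theorem t10352_A00pp_022_s3 : ∃ t, chk3 f_A00pp_022_s3 t 149 239 9 = true := ex3_c k69_A00pp_022_s3 k70_A00pp_022_s3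

theorem t10353_A00pp_022_s3 : ∃ t, chk3 f_A00pp_022_s3 t 149 119 9 = true := ex3_b k68_A00pp_022_s3 t10352_A00pp_022_s3

theorem t10354_A00pp_022_s3 : ∃ t, chk3 f_A00pp_022_s3 t 74 119 9 = true := ex3_a k67_A00pp_022_s3 t10353_A00pp_022_s3

theorem t10355_A00pp_022_s3 : ∃ t, chk3 f_A00pp_022_s3 t 74 59 9 = true := ex3_b k66_A00pp_022_s3 t10354_A00pp_022_s3

theorem t10356_A00pp_022_s3 : ∃ t, chk3 f_A00pp_022_s3 t 74 59 4 = true := ex3_c k65_A00pp_022_s3 t10355_A00pp_022_s3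

theorem t10357_A00pp_022_s3 : ∃ t, chk3 f_A00pp_022_s3 t 37 59 4 = true := ex3_a t10356_A00pp_022_s3 t10351_A00pp_022_s3

theorem t10358_A00pp_022_s3 : ∃ t, chk3 f_A00pp_022_s3 t 37 29 4 = true := ex3_b k64_A00pp_022_s3 t10357_A00pp_022_s3

theorem t10359_A00pp_022_s3 : ∃ t, chk3 f_A00pp_022_s3 t 37 29 2 = true := ex3_c t10358_A00pp_022_s3 t10314_A00pp_022_s3

theorem t10360_A00pp_022_s3 : ∃ t, chk3 f_A00pp_022_s3 t 37 14 2 = true := ex3_b k63_A00pp_022_s3 t10359_A00pp_022_s3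

theorem t10361_A00pp_022_s3 : ∃ t, chk3 f_A00pp_022_s3 t 18 14 2 = true := ex3_a k62_A00pp_022_s3 t10360_A00pp_022_s3

theorem t10362_A00pp_022_s3 : ∃ t, chk3 f_A00pp_022_s3 t 18 14 1 = true := ex3_c t10361_A00pp_022_s3 k116_A00pp_022_s3

theorem t10363_A00pp_022_s3 : ∃ t, chk3 f_A00pp_022_s3 t 9 14 1 = true := ex3_a t10362_A00pp_022_s3 t10308_A00pp_022_s3

theorem t10364_A00pp_022_s3 : ∃ t, chk3 f_A00pp_022_s3 t 9 7 1 = true := ex3_b t10363_A00pp_022_s3 t10221_A00pp_022_s3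

theorem t10365_A00pp_022_s3 : ∃ t, chk3 f_A00pp_022_s3 t 35 30 3 = true := ex3_c k59_A00pp_022_s3 k60_A00pp_022_s3

theorem t10366_A00pp_022_s3 : ∃ t, chk3 f_A00pp_022_s3 t 17 30 3 = true := ex3_a k58_A00pp_022_s3 t10365_A00pp_022_s3

theorem t10367_A00pp_022_s3 : ∃ t, chk3 f_A00pp_022_s3 t 17 15 3 = true := ex3_b t10366_A00pp_022_s3 k61_A00pp_022_s3

theorem t10368_A00pp_022_s3 : ∃ t, chk3 f_A00pp_022_s3 t 71 61 11 = true := ex3_b k55_A00pp_022_s3 k56_A00pp_022_s3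

theorem t10369_A00pp_022_s3 : ∃ t, chk3 f_A00pp_022_s3 t 35 61 11 = true := ex3_a k54_A00pp_022_s3 t10368_A00pp_022_s3

theorem t10370_A00pp_022_s3 : ∃ t, chk3 f_A00pp_022_s3 t 287 990 42 = true := ex3_c k50_A00pp_022_s3 k51_A00pp_022_s3

theorem t10371_A00pp_022_s3 : ∃ t, chk3 f_A00pp_022_s3 t 287 495 42 = true := ex3_b t10370_A00pp_022_s3 k52_A00pp_022_s3

theorem t10372_A00pp_022_s3 : ∃ t, chk3 f_A00pp_022_s3 t 287 247 42 = true := ex3_b k49_A00pp_022_s3 t10371_A00pp_022_s3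

theorem t10373_A00pp_022_s3 : ∃ t, chk3 f_A00pp_022_s3 t 287 247 21 = true := ex3_c t10372_A00pp_022_s3 k53_A00pp_022_s3

theorem t10374_A00pp_022_s3 : ∃ t, chk3 f_A00pp_022_s3 t 143 247 21 = true := ex3_a k48_A00pp_022_s3 t10373_A00pp_022_s3

theorem t10375_A00pp_022_s3 : ∃ t, chk3 f_A00pp_022_s3 t 143 123 21 = true := ex3_b k47_A00pp_022_s3 t10374_A00pp_022_s3

theorem t10376_A00pp_022_s3 : ∃ t, chk3 f_A00pp_022_s3 t 71 123 21 = true := ex3_a k46_A00pp_022_s3 t10375_A00pp_022_s3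

theorem t10377_A00pp_022_s3 : ∃ t, chk3 f_A00pp_022_s3 t 575 494 40 = true := ex3_c k42_A00pp_022_s3 k43_A00pp_022_s3

theorem t10378_A00pp_022_s3 : ∃ t, chk3 f_A00pp_022_s3 t 287 494 40 = true := ex3_a k41_A00pp_022_s3 t10377_A00pp_022_s3

theorem t10379_A00pp_022_s3 : ∃ t, chk3 f_A00pp_022_s3 t 143 494 40 = true := ex3_a k40_A00pp_022_s3 t10378_A00pp_022_s3

theorem t10380_A00pp_022_s3 : ∃ t, chk3 f_A00pp_022_s3 t 143 247 40 = true := ex3_b t10379_A00pp_022_s3 k44_A00pp_022_s3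

theorem t10381_A00pp_022_s3 : ∃ t, chk3 f_A00pp_022_s3 t 143 247 20 = true := ex3_c t10380_A00pp_022_s3 k45_A00pp_022_s3

theorem t10382_A00pp_022_s3 : ∃ t, chk3 f_A00pp_022_s3 t 143 246 20 = true := ex3_c k38_A00pp_022_s3 k39_A00pp_022_s3

theorem t10383_A00pp_022_s3 : ∃ t, chk3 f_A00pp_022_s3 t 143 123 20 = true := ex3_b t10382_A00pp_022_s3 t10381_A00pp_022_s3

theorem t10384_A00pp_022_s3 : ∃ t, chk3 f_A00pp_022_s3 t 71 123 20 = true := ex3_a k37_A00pp_022_s3 t10383_A00pp_022_s3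

theorem t10385_A00pp_022_s3 : ∃ t, chk3 f_A00pp_022_s3 t 71 123 10 = true := ex3_c t10384_A00pp_022_s3 t10376_A00pp_022_s3

theorem t10386_A00pp_022_s3 : ∃ t, chk3 f_A00pp_022_s3 t 71 122 10 = true := ex3_c k35_A00pp_022_s3 k36_A00pp_022_s3

theorem t10387_A00pp_022_s3 : ∃ t, chk3 f_A00pp_022_s3 t 71 61 10 = true := ex3_b t10386_A00pp_022_s3 t10385_A00pp_022_s3

theorem t10388_A00pp_022_s3 : ∃ t, chk3 f_A00pp_022_s3 t 35 61 10 = true := ex3_a k34_A00pp_022_s3 t10387_A00pp_022_s3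

theorem t10389_A00pp_022_s3 : ∃ t, chk3 f_A00pp_022_s3 t 35 61 5 = true := ex3_c t10388_A00pp_022_s3 t10369_A00pp_022_s3

theorem t10390_A00pp_022_s3 : ∃ t, chk3 f_A00pp_022_s3 t 35 30 5 = true := ex3_b k33_A00pp_022_s3 t10389_A00pp_022_s3

theorem t10391_A00pp_022_s3 : ∃ t, chk3 f_A00pp_022_s3 t 575 990 79 = true := ex3_b k30_A00pp_022_s3 k31_A00pp_022_s3

theorem t10392_A00pp_022_s3 : ∃ t, chk3 f_A00pp_022_s3 t 287 990 79 = true := ex3_a k29_A00pp_022_s3 t10391_A00pp_022_s3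

theorem t10393_A00pp_022_s3 : ∃ t, chk3 f_A00pp_022_s3 t 287 495 79 = true := ex3_b t10392_A00pp_022_s3 k32_A00pp_022_s3

theorem t10394_A00pp_022_s3 : ∃ t, chk3 f_A00pp_022_s3 t 287 495 39 = true := ex3_c k28_A00pp_022_s3 t10393_A00pp_022_s3

theorem t10395_A00pp_022_s3 : ∃ t, chk3 f_A00pp_022_s3 t 143 495 39 = true := ex3_a k27_A00pp_022_s3 t10394_A00pp_022_s3

theorem t10396_A00pp_022_s3 : ∃ t, chk3 f_A00pp_022_s3 t 143 495 19 = true := ex3_c k26_A00pp_022_s3 t10395_A00pp_022_s3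

theorem t10397_A00pp_022_s3 : ∃ t, chk3 f_A00pp_022_s3 t 71 495 19 = true := ex3_a k25_A00pp_022_s3 t10396_A00pp_022_s3

theorem t10398_A00pp_022_s3 : ∃ t, chk3 f_A00pp_022_s3 t 143 494 19 = true := ex3_b k23_A00pp_022_s3 k24_A00pp_022_s3

theorem t10399_A00pp_022_s3 : ∃ t, chk3 f_A00pp_022_s3 t 71 494 19 = true := ex3_a k22_A00pp_022_s3 t10398_A00pp_022_s3

theorem t10400_A00pp_022_s3 : ∃ t, chk3 f_A00pp_022_s3 t 71 247 19 = true := ex3_b t10399_A00pp_022_s3 t10397_A00pp_022_s3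

theorem t10401_A00pp_022_s3 : ∃ t, chk3 f_A00pp_022_s3 t 71 247 9 = true := ex3_c k21_A00pp_022_s3 t10400_A00pp_022_s3

theorem t10402_A00pp_022_s3 : ∃ t, chk3 f_A00pp_022_s3 t 35 247 9 = true := ex3_a k20_A00pp_022_s3 t10401_A00pp_022_s3

theorem t10403_A00pp_022_s3 : ∃ t, chk3 f_A00pp_022_s3 t 287 493 39 = true := ex3_c k18_A00pp_022_s3 k19_A00pp_022_s3

theorem t10404_A00pp_022_s3 : ∃ t, chk3 f_A00pp_022_s3 t 143 493 39 = true := ex3_a k17_A00pp_022_s3 t10403_A00pp_022_s3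

theorem t10405_A00pp_022_s3 : ∃ t, chk3 f_A00pp_022_s3 t 143 493 19 = true := ex3_c k16_A00pp_022_s3 t10404_A00pp_022_s3

theorem t10406_A00pp_022_s3 : ∃ t, chk3 f_A00pp_022_s3 t 71 493 19 = true := ex3_a k15_A00pp_022_s3 t10405_A00pp_022_s3

theorem t10407_A00pp_022_s3 : ∃ t, chk3 f_A00pp_022_s3 t 71 246 19 = true := ex3_b k14_A00pp_022_s3 t10406_A00pp_022_s3

theorem t10408_A00pp_022_s3 : ∃ t, chk3 f_A00pp_022_s3 t 71 246 9 = true := ex3_c k13_A00pp_022_s3 t10407_A00pp_022_s3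

theorem t10409_A00pp_022_s3 : ∃ t, chk3 f_A00pp_022_s3 t 35 246 9 = true := ex3_a k12_A00pp_022_s3 t10408_A00pp_022_s3

theorem t10410_A00pp_022_s3 : ∃ t, chk3 f_A00pp_022_s3 t 35 123 9 = true := ex3_b t10409_A00pp_022_s3 t10402_A00pp_022_s3

theorem t10411_A00pp_022_s3 : ∃ t, chk3 f_A00pp_022_s3 t 71 123 8 = true := ex3_b k10_A00pp_022_s3 k11_A00pp_022_s3

theorem t10412_A00pp_022_s3 : ∃ t, chk3 f_A00pp_022_s3 t 35 123 8 = true := ex3_a k9_A00pp_022_s3 t10411_A00pp_022_s3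

theorem t10413_A00pp_022_s3 : ∃ t, chk3 f_A00pp_022_s3 t 35 123 4 = true := ex3_c t10412_A00pp_022_s3 t10410_A00pp_022_s3

theorem t10414_A00pp_022_s3 : ∃ t, chk3 f_A00pp_022_s3 t 35 122 8 = true := ex3_b k6_A00pp_022_s3 k7_A00pp_022_s3

theorem t10415_A00pp_022_s3 : ∃ t, chk3 f_A00pp_022_s3 t 35 122 4 = true := ex3_c t10414_A00pp_022_s3 k8_A00pp_022_s3

theorem t10416_A00pp_022_s3 : ∃ t, chk3 f_A00pp_022_s3 t 35 61 4 = true := ex3_b t10415_A00pp_022_s3 t10413_A00pp_022_s3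

theorem t10417_A00pp_022_s3 : ∃ t, chk3 f_A00pp_022_s3 t 35 30 4 = true := ex3_b k5_A00pp_022_s3 t10416_A00pp_022_s3

theorem t10418_A00pp_022_s3 : ∃ t, chk3 f_A00pp_022_s3 t 35 30 2 = true := ex3_c t10417_A00pp_022_s3 t10390_A00pp_022_s3

theorem t10419_A00pp_022_s3 : ∃ t, chk3 f_A00pp_022_s3 t 17 30 2 = true := ex3_a k4_A00pp_022_s3 t10418_A00pp_022_s3

theorem t10420_A00pp_022_s3 : ∃ t, chk3 f_A00pp_022_s3 t 17 15 2 = true := ex3_b t10419_A00pp_022_s3 k57_A00pp_022_s3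

theorem t10421_A00pp_022_s3 : ∃ t, chk3 f_A00pp_022_s3 t 17 15 1 = true := ex3_c t10420_A00pp_022_s3 t10367_A00pp_022_s3

theorem t10422_A00pp_022_s3 : ∃ t, chk3 f_A00pp_022_s3 t 8 15 1 = true := ex3_a k3_A00pp_022_s3 t10421_A00pp_022_s3

theorem t10423_A00pp_022_s3 : ∃ t, chk3 f_A00pp_022_s3 t 8 7 1 = true := ex3_b k2_A00pp_022_s3 t10422_A00pp_022_s3

theorem t10424_A00pp_022_s3 : ∃ t, chk3 f_A00pp_022_s3 t 4 7 1 = true := ex3_a t10423_A00pp_022_s3 t10364_A00pp_022_s3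

theorem t10425_A00pp_022_s3 : ∃ t, chk3 f_A00pp_022_s3 t 4 3 1 = true := ex3_b k1_A00pp_022_s3 t10424_A00pp_022_s3

theorem t10426_A00pp_022_s3 : ∃ t, chk3 f_A00pp_022_s3 t 4 1 1 = true := ex3_b k0_A00pp_022_s3 t10425_A00pp_022_s3

theorem t10427_A00pp_022_s3 : ∃ t, chk3 f_A00pp_022_s3 t 2 1 1 = true := ex3_a t10426_A00pp_022_s3 t5301_A00pp_022_s3

theorem t10428_A00pp_022_s3 : ∃ t, chk3 f_A00pp_022_s3 t 1 1 1 = true := ex3_a t10427_A00pp_022_s3 t5223_A00pp_022_s3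

theorem c_A00pp_022_s3 : CertNX 0 536870912 0 536870912 1046898278 26843546 3 true true true .pp 0 2 2
    ndN0q0 ndN0q2 pcN2 cut_A00pp_022_s3 xt_A00pp_022_s3 :=
  certNX2 (N0 := 3) (fam := true) (s1 := true) (s2 := true) (a := 0) (b := 2) (c := 2) (cn := .pp) (n1 := ndN0q0) (n2 := ndN0q2) (pc := pcN2) (cut := cut_A00pp_022_s3) (xt := xt_A00pp_022_s3) (P1 := 0) (W1 := 536870912) (P2 := 0) (W2 := 536870912) (P3 := 1046898278) (W3 := 26843546)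
    rfl (fun _ => rfl) t10428_A00pp_022_s3

theorem s_A00pp_022_s3 {κ x : ℝ} (hκ : κ * h0 = kenE x) (hx : 39 / 40 ≤ x) (hx' : x < 1)
    (H : CutVA (VND 3 κ) (DD x) tKN tL pcN (Cut.of [[⟨0, 0, 0, 67108864⟩, ⟨1, 1, 0, 67108864⟩, ⟨2, 1, 0, 67108864⟩]]) 0 2 2 0 0 (sgb true) (sgb true) x) :
    AltVA (VND 3 κ) (DD x) tKN tL pcN [⟨4, 0, 0, 3154116608⟩] 0 2 2 0 0 (sgb true) (sgb true) x :=
  strip_altVAN (d := 3154116608) false rfl hκ (κ0 hκ hx) (x0 hx) hx' (covN00 hx hx') (covN02 hx hx') (x1 hx) (x2 hx') c_A00pp_022_s3 H ((ok hx hx').extAN (T := tt) (sideN hx hx') hκ (κ0 hκ hx) rfl rfl (.O 0 true) (.O 2 true) (Or.inl rfl))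

end Pool.Agent.Strip051.G.IE1.Tab.StN.C
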