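import Pool.Agent.Strip051.G.IE1.StNgZ
import Pool.Agent.Strip051.PB.StripYM

/-! # The strip `A00mm_202_s3`, near vertex, by reflection -/

set_option linter.all false

namespace Pool.Agent.Strip051.G.IE1.Tab.StN.C

open Pool.Agent.Strip051.PB Pool.Agent.Strip051.PB.T
open Pool.Agent.StripNear Pool.Agent.Strip051.LC
open Pool.Agent.Strip051.G.IE1.Tab Pool.Agent.Strip051.G.IE1.Tab.St Pool.Agent.Strip051.G.IE1.Tab.StN

theorem s_A00mm_202_s3 {κ x : ℝ} (hκ : κ * h0 = kenE x) (hx : 39 / 40 ≤ x) (hx' : x < 1)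
    (H : CutVA (VND 3 κ) (DD x) tKN tL pcN (Cut.of [[⟨0, 1, 0, 67108864⟩, ⟨1, 0, 0, 67108864⟩, ⟨2, 1, 0, 67108864⟩]]) 2 0 2 0 0 (sgb false) (sgb false) x) :
    AltVA (VND 3 κ) (DD x) tKN tL pcN [⟨4, 0, 0, 3154116608⟩] 2 0 2 0 0 (sgb false) (sgb false) x := by
  have q : ∀ X Y : ℝ, qqn (-X) Y = qqn X Y := fun X Y => by unfold qqn; ring
  have c1 : ∀ y : ℝ, InQ 0 y → 0 < c1n y := fun y h => by
    unfold c1n
    exact Real.sqrt_pos.2 (by nlinarith [h.1, h.2])
  have c2 : ∀ (q : ℕ) (y : ℝ), crv (DD x).P 0 q y = c1n y := fun q y => crv0 x q y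
  refine AltVA.mirror (s1 := true) (s2 := true) (mirVN (x0 hx) hx') (sideN hx hx') ?_ ?_
    (s_A00pp_022_s3 hκ hx hx' (CutVA.mirror (s1 := false) (s2 := false) (mirVN (x0 hx) hx') (sideN hx hx')
      ?_ ?_ H))
  · intro y y' X Y h d hd
    have h2 := h d hd
    simp only [List.mem_singleton] at hd
    subst hd
    simpa only [Cc.P, q] using h2
  · intro y y' F
    have h1 := c1 y F.q1
    have h2 := c1n_nn y'
    simp only [sgb, cond_true, c2]
    linarith
  · rintro y y' X Y ⟨l, hl, h⟩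
    simp only [List.mem_singleton] at hl
    subst hl
    refine ⟨_, List.mem_singleton.2 rfl, ?_⟩
    simp only [List.mem_cons, List.not_mem_nil, or_false, forall_eq_or_imp, forall_eq] at h ⊢
    simp only [Cc.P, Cc.cen] at h ⊢
    refine ⟨h.2.1, h.1, ?_⟩
    have := h.2.2
    rwa [add_comm] at this
  · intro y y' F
    have h1 := c1 y' F.q2
    have h2 := c1n_nn y
    simp only [sgb, cond_false, c2]
    linarith

end Pool.Agent.Strip051.G.IE1.Tab.StN.C
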