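import Pool.Agent.Strip051.G.IE1.Tab

/-! # Certificates N1 (generated) -/

set_option linter.all false
set_option maxRecDepth 100000

namespace Pool.Agent.Strip051.G.IE1.Tab.C.NA00

open Pool.Agent.Strip051.PB Pool.Agent.Strip051.PB.T
open Pool.Agent.Strip051.G.IE1.Tab

noncomputable def cut_pp_022 : Cut := Cut.of [[⟨4, 0, 0, 3154116608⟩], [⟨0, 0, 0, 67108864⟩, ⟨1, 1, 0, 67108864⟩, ⟨2, 1, 0, 67108864⟩]]

noncomputable def f_pp_022 : ℕ → ℕ → ℕ → ℕ → Bool := onCell 0 536870912 0 536870912 1046898278 26843546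
    (rowNX 3 0 true true true .pp 0 2 2 (qsf 0 536870912 0 536870912 2) ndN0q0 ndN0q2 pcN2 cut_pp_022 Ext.none)

def k0_pp_022 : ∃ t, chk3 f_pp_022 t 16 4 1 = true :=
  ⟨(c (b (a (b (l 15618504) (b (l 15653128) (l 15684784))) (c (b (l 15329608) (b (l 15349808) (l 15391672))) (b (c (l 15330352) (l 15096296)) (a (l 15431720) (c (l 15305856) (l 15220728)))))) (a (b (l 15713800) (l 15810160)) (c (b (l 15470064) (l 15593432)) (a (l 15509408) (c (l 15477832) (a (l 15517072) (l 15468296))))))) (b (a (c (b (a (l 15703760) (l 15538416)) (a (l 15732392) (c (l 15570000) (l 15571800)))) (a (c (b (l 15696432) (l 15725456)) (b (a (l 15689072) (l 15638368)) (a (c (l 15763016) (l 15758360)) (l 15668376)))) (c (b (a (l 15566872) (l 15494512)) (a (c (l 15608296) (l 15605552)) (l 15528592))) (l 15538792)))) (c (c (a (b (l 15393808) (l 15432056)) (b (l 15165328) (c (l 15306344) (l 15288952)))) (a (b (l 15260168) (c (l 15412704) (l 15420528))) (l 15201088))) (b (l 15277088) (l 15320512)))) (a (c (a (l 15880608) (c (l 15725104)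 (l 15686432))) (a (c (l 15875768) (a (b (l 15783176) (l 15861904)) (l 15675504))) (c (a (b (l 15690728) (l 15793096)) (l 15688776)) (l 15711648)))) (c (a (c (l 15491112) (b (l 15377296) (l 15503184))) (c (b (l 15319464) (l 15449328)) (l 15439784))) (l 15431416))))), by decide +kernel⟩

def k1_pp_022 : ∃ t, chk3 f_pp_022 t 17 4 1 = true :=
  ⟨(c (b (a (c (b (c (l 15085368) (a (l 15142176) (a (l 15078768) (l 15009520)))) (a (l 15192976) (c (l 15101808) (l 15103688)))) (c (a (b (l 15149712) (l 15205160)) (a (b (l 14957952) (l 15106280)) (b (l 14938896) (l 15009024)))) (b (a (a (l 15164992) (l 15065680)) (l 14947944)) (a (a (l 15218864) (l 15125296)) (l 15015448))))) (c (b (c (a (a (l 14975640) (c (l 14927400) (l 14884624))) (a (c (l 14829048) (l 14773168)) (b (l 14697568) (l 14715128)))) (a (c (a (l 14941400) (l 14829544)) (l 14849496)) (l 14712704))) (c (a (a (l 15050264) (l 14981880)) (c (a (l 14915872) (l 14812048)) (l 14826536))) (a (c (l 14930808) (l 14927624)) (l 14803296)))) (b (l 14752344) (l 14836696))))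 (a (c (c (b (l 15259320) (l 15394648)) (a (l 15378760) (b (l 15223192) (l 15363240)))) (c (a (b (l 15318712) (l 15453208)) (b (c (l 15197352) (l 15158232)) (l 15075512))) (a (b (l 15206880) (l 15342680)) (l 15211288)))) (c (c (a (b (l 15092232) (l 15279456)) (b (c (l 14945224) (l 14959920)) (c (l 15138496) (l 15111992)))) (a (a (a (l 15093456) (l 15166376)) (l 15023160)) (l 15016616))) (l 14796200)))) (b (b (a (c (l 14998040) (l 14968448)) (l 14637088)) (a (l 14982640) (l 14786832))) (c (b (l 15056104) (l 15183432)) (b (l 15027584) (l 15178744))))), by decide +kernel⟩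

def k2_pp_022 : ∃ t, chk3 f_pp_022 t 9 4 1 = true :=
  ⟨(b (a (a (b (c (a (a (b (a (l 14610992) (a (l 14587400) (l 14584864))) (c (c (l 14626944) (l 14608432)) (l 14601328))) (b (l 14604088) (l 14623696))) (b (l 14681896) (l 14705720))) (a (a (b (l 14522440) (l 14544272)) (l 14539208)) (l 14620320))) (c (a (c (l 14724776) (l 14689200)) (l 14771056)) (a (l 14634656) (l 14700808)))) (c (b (b (l 14925424) (l 14954376)) (l 15011568)) (b (l 14874080) (l 14949752)))) (c (a (b (l 15196808) (l 15322456)) (c (l 15584144) (l 15563320))) (a (b (l 15206376) (l 15271536)) (l 15531504)))) (a (a (c (a (b (c (l 14849368) (l 14816216)) (l 14984976)) (b (l 14860816) (b (l 14935224) (l 14995824)))) (b (a (l 14765368) (l 14794064)) (a (l 14923664) (l 14801272)))) (c (b (l 15090760) (l 15176064)) (l 14928832))) (c (b (a (l 15387824) (l 15649864)) (a (l 15459600) (l 15708392))) (b (l 15392960) (a (l 15413976) (l 15671368)))))), by decide +kernel⟩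

def k3_pp_022 : ∃ t, chk3 f_pp_022 t 16 5 2 = true :=
  ⟨(b (a (b (l 15933568) (a (b (l 16190024) (a (l 16291880) (l 16264968))) (l 16112368))) (c (b (l 15739752) (l 15909752)) (a (l 15764688) (b (l 15599000) (l 15750480))))) (a (b (a (b (l 16318432) (l 16349560)) (b (l 16232544) (a (l 16356440) (l 16320240)))) (b (a (l 16385712) (l 16351808)) (l 16435768))) (a (b (l 16069448) (b (a (l 16339520) (l 16282480)) (a (l 16374936) (b (l 16390128) (l 16315800))))) (b (c (l 16042168) (c (l 16057224) (l 15958264))) (c (b (l 16203768) (l 16319640)) (b (l 16093672) (c (l 16338528) (l 16242152)))))))), by decide +kernel⟩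

def k4_pp_022 : ∃ t, chk3 f_pp_022 t 16 5 3 = true :=
  ⟨(c (a (b (b (l 15759432) (a (b (l 16203416) (l 16267032)) (l 16027856))) (b (a (l 16327288) (a (b (l 16289488) (l 16358696)) (b (l 16227264) (l 16268432)))) (a (l 16405112) (a (l 16418504) (b (a (l 16413280) (l 16405272)) (l 16433072)))))) (b (a (c (l 15729648) (b (l 15655256) (l 15792344))) (c (b (l 15558376) (l 15691320)) (l 15747144))) (a (b (c (l 16101744) (a (c (l 16232160) (l 16222376)) (l 16091672))) (c (b (a (l 16379768) (l 16318440)) (a (l 16435264) (a (l 16445840) (l 16441216)))) (c (a (b (l 16395272) (l 16422240)) (b (l 16325072) (a (l 16379680) (l 16415232)))) (a (b (l 16323312) (l 16323240)) (l 16257512))))) (b (c (c (l 15944408) (l 15993544)) (l 16035712)) (c (a (c (l 16318672) (l 16237848)) (c (a (l 16258688) (l 16224576)) (l 16233928))) (l 16265192)))))) (b (a (a (c (b (l 16082384) (a (l 16253624) (l 16194800))) (b (a (l 15969608) (l 16032096)) (a (c (l 16253808) (b (l 16212568) (l 16281664))) (a (b (l 16183368) (l 16270800)) (l 16202456)))))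 (c (a (b (l 15902432) (l 16017664)) (l 15889064)) (l 16018176))) (l 15595536)) (a (a (a (c (l 16357200) (c (l 16357968) (a (l 16310736) (l 16357224)))) (b (c (l 16335368) (a (l 16329520) (l 16341032))) (c (l 16411704) (l 16403832)))) (b (a (c (c (b (l 16296968) (l 16366928)) (b (l 16297408) (l 16367664))) (l 16235376)) (b (l 16204832) (l 16205944))) (c (a (c (l 16427296) (l 16428256)) (b (l 16244912) (l 16426360))) (b (l 16400880) (l 16431840))))) (b (l 16056128) (a (b (l 16314640) (a (l 16438208) (l 16418680))) (l 16240344)))))), by decide +kernel⟩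

def k5_pp_022 : ∃ t, chk3 f_pp_022 t 17 5 1 = true :=
  ⟨(c (b (a (c (a (l 15444608) (c (l 15603688) (b (l 15521000) (l 15693968)))) (a (c (b (l 15606384) (l 15776248)) (b (l 15518296) (l 15626856))) (c (b (l 15318688) (l 15493304)) (l 15532072)))) (c (a (c (b (l 15441520) (l 15617944)) (a (a (l 15415544) (l 15449456)) (l 15331552))) (c (c (a (l 15455096) (l 15320008)) (l 15122104)) (l 15354504))) (l 15154192))) (a (c (a (b (l 15945416) (l 16121536)) (c (b (l 15871104) (l 16078120)) (b (l 15817480) (a (l 16123560) (l 15941576))))) (b (a (c (l 15926496) (a (l 15921856) (l 15898240))) (c (a (l 15799136) (l 15800280)) (l 15807176))) (a (c (l 16021776) (a (c (l 16181080) (l 16167744)) (l 16078680))) (c (a (c (l 16110752) (l 16067760)) (l 15944040)) (l 16020064))))) (c (b (a (c (l 15722664) (a (l 15735920) (l 15714784))) (c (c (l 15553376) (l 15655320)) (l 15638072))) (a (c (a (l 16040440) (l 15924112)) (a (c (l 16013904) (l 15965560)) (l 15916416))) (c (c (a (l 15934744) (l 15846840)) (l 15795432)) (l 15842536))))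 (b (l 15669000) (l 15812304))))) (b (a (b (l 15471488) (l 15649632)) (b (l 15253776) (l 15442304))) (a (b (c (l 15853648) (l 15840384)) (c (l 15948112) (l 16001848))) (b (l 15643232) (b (l 15799680) (l 15908552)))))), by decide +kernel⟩

def k6_pp_022 : ∃ t, chk3 f_pp_022 t 9 5 1 = true :=
  ⟨(a (b (a (c (a (b (l 15160672) (l 15349528)) (b (b (l 15067328) (l 15150952)) (l 15296776))) (b (a (l 15106176) (b (l 15008568) (l 15095424))) (l 15273968))) (b (c (l 15187336) (l 15219448)) (c (a (b (l 15294224) (l 15375504)) (l 15442896)) (a (b (l 15243608) (l 15328000)) (l 15397424))))) (a (c (b (a (l 15549464) (l 15500760)) (a (c (l 15766504) (l 15750944)) (b (l 15658512) (l 15766664)))) (b (a (l 15509928) (l 15458672)) (a (l 15726952) (l 15679344)))) (b (c (a (l 15525928) (b (l 15536400) (a (l 15602224) (l 15632704)))) (a (l 15484184) (b (l 15494480) (a (l 15562944) (l 15594312))))) (c (b (l 15702752) (l 15813104)) (b (l 15667448) (l 15782000)))))) (b (c (a (b (l 15540752) (l 15634312)) (b (l 15776520) (l 15857192)))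 (a (b (l 15498256) (l 15595376)) (b (l 15742104) (l 15825856)))) (b (c (a (l 15743344) (c (l 15960240) (l 15946592))) (a (l 15708552) (l 15862816))) (a (c (a (b (a (b (l 15735800) (l 15779320)) (l 15808424)) (a (l 15859376) (b (l 15863320) (l 15909856)))) (b (l 15893288) (l 15960784))) (a (b (a (l 15725464) (l 15776192)) (a (l 15829320) (b (l 15833160) (l 15881456)))) (l 15856640))) (c (c (l 15990176) (l 16062552)) (c (l 16050888) (l 16039064))))))), by decide +kernel⟩

def k7_pp_022 : ∃ t, chk3 f_pp_022 t 5 4 1 = true :=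
  ⟨(a (b (c (a (c (l 15858832) (l 15842784)) (c (l 16181112) (l 16170672))) (a (c (l 15826536) (l 15810064)) (c (l 16160088) (l 16149368)))) (c (a (b (l 15897064) (l 15936296)) (b (l 16164616) (a (l 16132328) (l 16261280)))) (a (b (l 15866328) (l 15907064)) (c (l 15968008) (l 16062472))))) (a (c (b (l 16417680) (c (l 16503968) (l 16499176))) (b (l 16428944) (c (l 16494320) (l 16489400)))) (c (c (b (l 16754776) (l 16691864)) (b (l 16754384) (l 16712440))) (b (a (l 16729864) (l 16777216)) (c (l 16712040) (l 16711632)))))), by decide +kernel⟩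

def k8_pp_022 : ∃ t, chk3 f_pp_022 t 5 5 1 = true :=
  ⟨(a (b (b (c (a (l 15922520) (a (l 16163208) (l 16274432))) (a (l 15958072) (a (l 16141808) (l 16256768)))) (c (a (a (l 15989248) (l 16103088)) (a (l 16207032) (l 16301728))) (a (c (l 16028656) (l 16015992)) (c (l 16241944) (l 16232752))))) (c (a (b (c (l 16088368) (l 16119424)) (c (a (l 16180240) (l 16268944)) (a (l 16170440) (l 16260544)))) (b (c (a (l 16270920) (l 16352896)) (l 16221072)) (c (a (l 16348424) (l 16418888)) (a (l 16341256) (l 16412808))))) (a (b (c (l 16108400) (l 16097224)) (c (a (l 16160504) (l 16252024)) (l 16177032))) (b (c (l 16296896) (l 16288728)) (c (a (l 16334000) (l 16406640)) (l 16259656)))))) (b (b (c (a (l 16438656) (a (l 16731480) (l 16777216))) (a (l 16428944) (a (l 16729864) (l 16777216)))) (a (c (a (l 16423104) (l 16580936)) (c (l 16453872) (l 16448976))) (c (a (l 16689536) (l 16777216)) (a (l 16687920) (l 16777216))))) (a (c (a (b (c (l 16442208) (l 16436352)) (c (b (l 16466848) (l 16497064)) (b (l 16461456) (l 16492232))))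 (b (c (l 16582640) (l 16579232)) (c (b (l 16582696) (l 16566104)) (l 16498976)))) (b (a (c (l 16430424) (l 16424408)) (l 16532072)) (a (c (l 16451272) (l 16467000)) (c (l 16537528) (l 16555064))))) (c (b (a (c (l 16710904) (l 16731080)) (l 16777216)) (a (c (l 16668960) (l 16668168)) (c (l 16777216) (l 16777216)))) (c (a (b (l 16730272) (l 16688336)) (l 16777216)) (a (b (l 16729456) (l 16708488)) (l 16777216))))))), by decide +kernel⟩

def k9_pp_022 : ∃ t, chk3 f_pp_022 t 32 12 1 = true :=
  ⟨(c (b (b (l 16415544) (l 16356120)) (b (a (l 16320544) (l 16339064)) (a (l 16257096) (c (l 16284040) (l 16277968))))) (c (b (a (l 16387512) (c (l 16397752) (l 16304480))) (a (b (l 16313856) (l 16269856)) (c (l 16259808) (a (l 16290176) (l 16189784))))) (a (c (b (l 16361704) (b (l 16286728) (l 16199968))) (b (a (c (l 16380320) (a (l 16358952) (l 16382896))) (c (l 16278624) (l 16381408))) (a (c (l 16267432) (a (b (l 16282384) (l 16271840)) (b (l 16303176) (l 16262304)))) (c (b (l 16264336) (a (l 16252648) (l 16243760)))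 (l 16279608))))) (c (a (b (c (l 16383208) (l 16339472)) (c (l 16260944) (b (l 16309384) (l 16204560)))) (b (l 16300752) (b (l 16296632) (l 16193976)))) (b (l 16387264) (l 16287720)))))), by decide +kernel⟩

def k10_pp_022 : ∃ t, chk3 f_pp_022 t 33 12 1 = true :=
  ⟨(b (a (c (a (l 16373008) (b (b (l 16416960) (l 16423816)) (l 16401992))) (c (c (b (a (l 16409160) (a (l 16403448) (l 16379608))) (l 16379296)) (a (c (l 16380760) (l 16365504)) (a (l 16327264) (b (l 16420272) (l 16389040))))) (b (l 16415408) (l 16382560)))) (c (b (a (b (l 16333960) (c (l 16450112) (l 16404056))) (c (l 16411176) (c (l 16437392) (l 16461208)))) (a (c (l 16419728) (l 16393640)) (c (b (l 16433920) (l 16422176)) (c (b (l 16432224) (l 16398784)) (b (a (l 16393776) (l 16421472)) (a (l 16368128) (c (l 16372704) (l 16372616)))))))) (c (b (a (c (a (b (l 16386400) (l 16354480)) (b (l 16464744) (l 16292600))) (l 16390552)) (c (l 16337392) (l 16418136))) (a (c (c (l 16350912) (l 16300200)) (l 16399304)) (a (c (b (c (l 16363504) (l 16426152))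 (l 16361808)) (l 16414096)) (b (l 16453424) (l 16326984))))) (b (a (l 16368376) (l 16416336)) (a (l 16397168) (b (l 16439680) (l 16404616))))))) (c (c (b (l 16333408) (a (l 16314696) (l 16340472))) (a (b (l 16352400) (l 16298760)) (c (l 16302976) (a (l 16322528) (c (l 16320992) (l 16258720)))))) (c (a (a (c (l 16306912) (c (l 16271128) (b (l 16324680) (l 16267528)))) (c (c (l 16308048) (l 16258288)) (c (a (l 16239112) (l 16322536)) (l 16322432)))) (c (a (c (l 16247176) (b (l 16325112) (l 16253704))) (c (a (l 16266472) (l 16333736)) (l 16354120))) (l 16344792))) (b (l 16351592) (l 16298536))))), by decide +kernel⟩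

def k11_pp_022 : ∃ t, chk3 f_pp_022 t 32 26 2 = true :=
  ⟨(b (b (a (l 16258456) (c (l 16243928) (l 16236928))) (c (a (l 16284696) (l 16257288)) (l 16222568))) (c (a (c (c (b (a (l 16269712) (l 16307904)) (a (c (l 16387064) (l 16324000)) (c (l 16325176) (l 16337264)))) (b (l 16314128) (l 16344704))) (l 16326856)) (l 16298688)) (a (l 16323208) (l 16292544)))), by decide +kernel⟩

def k12_pp_022 : ∃ t, chk3 f_pp_022 t 32 54 4 = true :=
  ⟨(a (c (a (c (b (b (l 16398520) (l 16451904)) (a (b (l 16433888) (a (l 16502568) (l 16455712))) (l 16402424))) (b (c (l 16334096) (l 16383008)) (a (b (l 16394808) (l 16445176)) (b (l 16393464) (l 16400216))))) (c (b (c (l 16354896) (l 16314192)) (l 16363224)) (b (l 16365832) (c (b (l 16394432) (l 16398152)) (l 16396104))))) (b (l 16370056) (a (a (c (b (l 16404032) (c (l 16382112) (l 16413640))) (l 16406696)) (l 16402680)) (l 16391824)))) (c (c (b (a (c (l 16317384) (l 16352088)) (l 16339432)) (b (a (c (l 16372056) (l 16377688)) (l 16362768)) (a (c (l 16422400) (l 16379120))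 (l 16339648)))) (l 16317984)) (l 16357768))), by decide +kernel⟩

def k13_pp_022 : ∃ t, chk3 f_pp_022 t 32 55 4 = true :=
  ⟨(a (a (c (b (a (c (l 16528360) (l 16443576)) (b (c (c (l 16496816) (l 16479720)) (l 16430080)) (c (l 16542088) (l 16481736)))) (c (l 16522464) (b (c (l 16502344) (l 16483256)) (c (l 16555720) (l 16483872))))) (c (b (a (c (l 16460584) (l 16395736)) (b (a (l 16387224) (l 16403328)) (l 16383032))) (c (l 16465704) (b (l 16420664) (l 16468032)))) (b (b (l 16420704) (l 16430136)) (c (b (l 16423200) (a (l 16467640) (l 16453920))) (l 16443856))))) (c (b (b (c (l 16432984) (a (l 16385256) (l 16364160))) (a (c (c (b (l 16524944) (l 16553696)) (l 16487208)) (l 16436528)) (c (l 16475648) (l 16391872)))) (c (b (a (l 16530808) (c (b (l 16533984) (l 16563576)) (l 16495112))) (c (l 16562648) (a (l 16564832) (l 16540688)))) (b (a (l 16489128) (l 16422600)) (l 16442536)))) (b (a (b (l 16417064) (c (c (a (l 16439920) (l 16433352)) (l 16429040)) (l 16428384))) (l 16417640)) (a (c (c (l 16433080) (b (l 16441984)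 (l 16460144))) (l 16442616)) (c (b (c (a (l 16426384) (l 16440992)) (l 16437360)) (c (l 16467904) (l 16450328))) (l 16441488)))))) (c (b (c (b (a (l 16359104) (c (l 16345048) (l 16394040))) (a (l 16433992) (c (l 16416176) (a (l 16421568) (l 16406320))))) (a (c (b (l 16387832) (l 16370216)) (l 16411456)) (l 16398408))) (c (a (b (l 16448072) (a (c (b (l 16522400) (l 16552752)) (l 16482520)) (l 16491952))) (c (l 16469144) (b (a (l 16451680) (l 16429968)) (l 16453352)))) (c (a (b (l 16420344) (l 16432864)) (a (b (l 16429640) (l 16456416)) (l 16366944))) (a (b (a (l 16446624) (l 16431008)) (a (l 16412616) (l 16433576))) (l 16428912))))) (b (l 16402248) (a (b (l 16430112) (a (c (a (b (l 16447296) (l 16455856)) (l 16426888)) (l 16445432)) (l 16441720))) (l 16426216))))), by decide +kernel⟩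

def k14_pp_022 : ∃ t, chk3 f_pp_022 t 32 27 5 = true :=
  ⟨(a (b (b (l 16366872) (a (l 16401336) (l 16388824))) (b (a (l 16422696) (l 16416776)) (a (l 16439808) (l 16418544)))) (b (l 16353472) (b (l 16398408) (a (l 16412888) (l 16422264))))), by decide +kernel⟩

def k15_pp_022 : ∃ t, chk3 f_pp_022 t 33 13 2 = true :=
  ⟨(b (c (b (a (l 16230312) (b (l 16301696) (l 16305520))) (a (b (l 16281016) (a (l 16294880) (l 16294792))) (l 16263496))) (a (b (a (l 16252328) (l 16263208)) (a (l 16274872) (b (l 16268960) (l 16275640)))) (c (b (l 16282288) (l 16294016)) (a (b (l 16256568) (l 16266568)) (b (c (l 16259328) (b (l 16257312) (l 16261440))) (c (l 16272032) (a (l 16259656) (l 16278544)))))))) (c (a (b (b (l 16319000) (l 16349160)) (c (c (b (a (c (b (l 16381696) (l 16380216)) (l 16388216)) (l 16378616)) (a (c (b (a (l 16431968) (l 16414536)) (l 16391568)) (b (l 16412576) (a (l 16417992) (l 16425336)))) (c (b (l 16402096) (a (l 16424440) (l 16415136))) (l 16409048)))) (b (l 16382048) (l 16412632))) (l 16372792)))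 (b (a (b (l 16314816) (l 16330440)) (b (l 16331592) (l 16333472))) (a (l 16375192) (b (l 16346320) (l 16373976))))) (a (b (a (l 16330368) (b (l 16294240) (l 16324520))) (a (l 16392152) (l 16308752))) (a (b (b (l 16283728) (c (l 16314064) (l 16287616))) (c (l 16359112) (l 16332672))) (c (b (l 16305768) (b (l 16318776) (l 16346488))) (b (c (l 16278416) (a (c (l 16263984) (l 16263336)) (l 16284768))) (c (b (l 16291104) (l 16318736)) (a (c (l 16297768) (l 16276192)) (b (c (l 16279376) (l 16298656)) (l 16316768)))))))))), by decide +kernel⟩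

def k16_pp_022 : ∃ t, chk3 f_pp_022 t 32 13 6 = true :=
  ⟨(b (a (b (l 16261432) (l 16318056)) (b (a (l 16233496) (c (l 16232488) (b (l 16214448) (l 16221776)))) (c (l 16284536) (a (l 16286784) (c (l 16263344) (l 16236424)))))) (a (b (b (l 16362344) (a (l 16397544) (l 16384472))) (a (b (l 16419168) (l 16436464)) (b (l 16391840) (l 16393880)))) (a (b (l 16350776) (b (l 16395768) (a (l 16410216) (l 16421544)))) (a (b (l 16331424) (l 16350288)) (c (l 16342456) (c (l 16328400) (b (l 16306088) (l 16367600)))))))), by decide +kernel⟩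

def k17_pp_022 : ∃ t, chk3 f_pp_022 t 32 13 7 = true :=
  ⟨(a (a (b (c (l 16294904) (c (b (l 16262528) (l 16319328)) (a (c (l 16295672) (b (l 16266696) (l 16323400))) (b (l 16258552) (l 16315952))))) (c (b (l 16359552) (l 16424904)) (c (b (b (l 16363760) (l 16349616)) (b (l 16392496) (l 16430952))) (b (a (c (l 16381152) (b (l 16367784) (a (l 16375728) (l 16394744)))) (c (l 16310344) (l 16371992))) (a (c (l 16422504) (a (l 16422912) (l 16423160))) (c (a (l 16379456) (l 16396608)) (l 16419496))))))) (b (c (b (l 16243872) (l 16301760)) (c (a (c (l 16273536) (a (l 16231672) (l 16268784))) (b (l 16231648) (l 16290120))) (l 16268544))) (c (b (l 16299144) (a (b (l 16410496) (l 16431352)) (b (l 16400448) (a (l 16426256) (b (l 16420672) (l 16431520)))))) (b (c (a (c (l 16362096) (l 16360960)) (l 16351008)) (l 16358064)) (c (a (c (b (l 16405048) (l 16425936)) (b (a (l 16404592) (l 16401768)) (l 16424888))) (b (l 16395856) (a (l 16380216) (l 16377720)))) (b (l 16401848) (l 16425208))))))) (b (c (a (c (b (l 16221432)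 (l 16278040)) (b (a (l 16218896) (l 16212488)) (c (l 16252096) (l 16275720)))) (b (c (b (l 16185440) (a (l 16210000) (l 16210856))) (l 16219104)) (c (c (l 16251824) (l 16255936)) (l 16262088)))) (b (l 16221400) (l 16268912))) (c (a (c (b (l 16339496) (a (l 16383512) (c (l 16390280) (l 16386096)))) (b (c (a (l 16337104) (l 16330416)) (l 16337440)) (a (c (b (l 16382176) (l 16410968)) (b (l 16385288) (a (l 16393096) (l 16416848)))) (c (l 16391160) (l 16398640))))) (c (b (a (c (l 16314632) (l 16321248)) (l 16270544)) (c (a (l 16375680) (l 16374376)) (a (l 16382520) (l 16384112)))) (l 16356592))) (b (l 16331656) (b (l 16377896) (l 16407912)))))), by decide +kernel⟩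

def k18_pp_022 : ∃ t, chk3 f_pp_022 t 33 13 3 = true :=
  ⟨(c (b (a (c (b (c (l 16236712) (a (l 16226000) (l 16228568))) (a (l 16253688) (c (l 16246608) (a (l 16230416) (l 16237936))))) (a (b (c (l 16215520) (a (l 16212744) (l 16232400))) (c (a (l 16236352) (l 16231056)) (a (c (l 16233920) (l 16247008)) (l 16248112)))) (c (b (a (l 16207976) (l 16252096)) (a (c (l 16233272) (l 16249896)) (l 16260120))) (b (l 16250512) (l 16260424))))) (c (a (c (b (l 16201352) (l 16232112)) (b (a (l 16204840) (l 16272704)) (a (l 16214016) (l 16283672)))) (c (b (a (l 16203288) (l 16294208)) (a (l 16236448) (l 16308192))) (l 16278928))) (b (l 16280008) (l 16291800)))) (a (c (c (b (l 16278160) (l 16339968)) (a (l 16251832) (b (b (l 16216920) (l 16289264)) (a (l 16336864) (c (l 16322656) (l 16332752)))))) (a (c (b (l 16272672) (a (l 16358840) (l 16326944))) (a (b (c (l 16294648) (l 16308080)) (c (l 16356696) (l 16370480))) (b (l 16302984) (l 16366016)))) (c (b (a (c (l 16277088) (l 16294080)) (l 16269792)) (a (c (l 16340136) (l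 16357544)) (l 16353528))) (b (l 16297456) (l 16360448))))) (b (c (a (c (a (b (l 16248040) (l 16269216)) (b (l 16260824) (l 16270208))) (a (c (l 16268792) (l 16267016)) (b (l 16287528) (l 16297168)))) (c (a (c (l 16280088) (l 16300184)) (l 16314920)) (l 16312456))) (b (l 16297808) (l 16308464))) (c (a (c (a (l 16316936) (c (l 16304928) (l 16319720))) (a (c (l 16325944) (l 16345584)) (l 16321032))) (c (a (c (l 16314272) (l 16313808)) (b (c (l 16319000) (l 16325336)) (l 16347680))) (l 16340800))) (b (l 16328184) (l 16357824)))))) (b (b (a (l 16237304) (l 16275704)) (a (l 16214552) (l 16287464))) (b (a (l 16300952) (b (l 16293408) (l 16304120))) (a (l 16364144) (b (l 16324008) (l 16353952)))))), by decide +kernel⟩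

def k19_pp_022 : ∃ t, chk3 f_pp_022 t 34 12 2 = true :=
  ⟨(c (b (a (b (l 16321416) (l 16322592)) (c (b (l 16252928) (l 16379352)) (b (l 16118976) (c (l 16362728) (l 16227696))))) (a (b (a (b (a (l 16387632) (l 16401680)) (l 16387960)) (b (l 16456640) (b (l 16406776) (a (l 16387592) (l 16402232))))) (b (a (l 16366568) (a (l 16369728) (b (l 16358768) (l 16364040)))) (l 16341808))) (a (b (l 16336248) (b (a (l 16342240) (l 16383512)) (a (l 16346032) (c (l 16285720) (a (l 16246816) (a (l 16293120) (l 16319496))))))) (c (l 16307696) (b (l 16356616) (c (l 16317416) (l 16314592))))))) (c (b (a (a (l 16322096) (l 16226088)) (a (b (l 16109840) (c (l 16377888) (l 16336336))) (l 16039304))) (a (b (a (b (a (l 16373016) (l 16360128)) (l 16349864)) (a (b (l 16406960) (a (l 16329856) (l 16298000))) (l 16311504))) (a (l 16315616) (a (l 16317512) (b (c (l 16269752) (l 16289184)) (l 16318328))))) (a (b (c (l 16382928) (l 16413984)) (b (c (a (l 16295456) (l 16406744)) (c (l 16307040) (l 16319456))) (c (a (l 16277560) (l 16271336))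 (a (l 16314776) (b (l 16398184) (l 16334320)))))) (b (l 16321208) (c (l 16306048) (l 16444048)))))) (b (a (a (b (l 16256968) (c (l 16340008) (l 16364544))) (l 16209512)) (l 16202512)) (a (b (a (b (c (a (l 16355432) (b (l 16397048) (l 16373720))) (a (l 16341640) (l 16396160))) (c (l 16325152) (l 16349624))) (b (l 16419824) (a (b (l 16340144) (l 16299472)) (l 16429664)))) (a (c (l 16311552) (l 16336120)) (a (l 16332304) (b (b (l 16350840) (l 16376704)) (l 16358792))))) (b (l 16444408) (a (b (l 16411984) (a (l 16372464) (l 16370360))) (l 16443216))))))), by decide +kernel⟩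

def k20_pp_022 : ∃ t, chk3 f_pp_022 t 34 12 3 = true :=
  ⟨(b (b (l 16087056) (c (l 16200192) (l 16217752))) (a (b (a (b (a (l 16355136) (l 16418368)) (l 16379344)) (b (l 16468048) (a (l 16358984) (l 16428920)))) (a (l 16344088) (b (a (l 16370552) (l 16341968)) (l 16350984)))) (b (l 16399928) (b (b (l 16471632) (l 16338536)) (a (a (l 16367408) (b (l 16396832) (l 16374144))) (l 16432144)))))), by decide +kernel⟩

def k21_pp_022 : ∃ t, chk3 f_pp_022 t 35 12 1 = true :=
  ⟨(c (c (b (a (c (a (l 16102216) (c (l 16041624) (l 16089024))) (a (c (l 16140208) (l 16071984)) (c (l 15956376) (l 16127008)))) (c (a (c (l 16085048) (b (l 16040072) (l 16153440))) (b (l 15996528) (l 16020352))) (l 16058160))) (a (c (a (b (l 16401128) (l 16360824)) (c (a (l 16404128) (l 16330800)) (l 16265600))) (c (a (l 16321456) (b (l 16274296) (l 16349256))) (a (a (l 16337512) (l 16312992)) (l 16285056)))) (c (c (a (b (l 16309616) (l 16383024)) (b (l 16145840) (l 16238576))) (a (b (l 16219040) (l 16293104)) (l 16196872))) (l 16117320))))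 (b (b (l 16039224) (l 16054288)) (b (l 16141576) (l 16238960)))) (b (b (l 15981920) (a (l 16201016) (l 16092144))) (b (c (l 16198920) (l 16214160)) (c (l 16277880) (l 16274736))))), by decide +kernel⟩

def k22_pp_022 : ∃ t, chk3 f_pp_022 t 34 13 4 = true :=
  ⟨(c (b (b (a (l 16336640) (a (l 16346008) (b (b (l 16269856) (a (l 16337128) (l 16343240))) (l 16348352)))) (a (l 16354360) (l 16367280))) (b (a (a (l 16358008) (l 16374464)) (l 16383096)) (a (a (b (l 16358728) (l 16368992)) (b (l 16376528) (l 16374608))) (b (l 16387920) (l 16387496))))) (b (a (b (l 16313208) (l 16330600)) (b (a (c (l 16318792) (l 16283288)) (b (a (b (c (l 16318584) (a (l 16313280) (l 16331984))) (c (l 16309816) (l 16316152))) (b (l 16338840) (c (a (l 16315288) (l 16329328)) (l 16355776)))) (a (l 16284976) (c (c (l 16325808) (l 16287040)) (l 16360720))))) (a (c (l 16340024) (l 16325304)) (c (a (l 16339616) (l 16348520)) (l 16301592))))) (a (b (l 16298976) (a (b (l 16340320) (a (l 16353848) (l 16346160))) (l 16344736))) (a (b (c (l 16354184)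 (a (l 16334728) (l 16320112))) (c (l 16357320) (a (l 16336880) (c (l 16343640) (b (l 16342696) (l 16341480)))))) (b (b (c (l 16317736) (l 16357400)) (c (a (l 16357968) (l 16368552)) (l 16321272))) (c (a (l 16360488) (c (l 16368240) (a (l 16363016) (l 16377192)))) (a (c (b (l 16356720) (l 16356224)) (l 16374776)) (l 16404992)))))))), by decide +kernel⟩

def k23_pp_022 : ∃ t, chk3 f_pp_022 t 34 13 10 = true :=
  ⟨(b (a (b (a (l 16281992) (c (l 16287696) (a (l 16281888) (l 16306896)))) (a (l 16297648) (c (l 16305992) (a (l 16299496) (l 16326200))))) (b (a (c (a (l 16301576) (l 16330328)) (b (l 16344648) (l 16353376))) (a (b (a (c (l 16311160) (l 16372720)) (b (l 16317536) (l 16369936))) (l 16332728)) (b (b (l 16407752) (a (l 16319800) (l 16398096))) (a (l 16391448) (l 16379568))))) (a (c (a (l 16322008) (l 16352488)) (a (l 16360264) (l 16386552))) (c (a (l 16387600) (l 16414184)) (l 16410904))))) (a (a (b (l 16306144) (b (l 16306024) (a (l 16320000) (a (l 16308768) (l 16284376))))) (b (c (l 16317136) (a (c (l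 16303144) (l 16311848)) (l 16338320))) (c (a (l 16314512) (c (l 16320496) (l 16315096))) (a (b (l 16289544) (c (l 16300744) (l 16309624))) (l 16339264))))) (a (c (b (a (c (l 16326488) (l 16339752)) (l 16367512)) (a (c (a (l 16322672) (l 16331216)) (l 16341952)) (l 16371416))) (b (a (l 16332272) (l 16381224)) (a (c (l 16368144) (l 16367240)) (c (l 16383720) (l 16411016))))) (c (b (a (l 16362512) (l 16411736)) (a (c (l 16401408) (l 16379392)) (c (b (l 16437472) (l 16438280)) (l 16444472)))) (b (l 16428800) (l 16435576)))))), by decide +kernel⟩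

def k24_pp_022 : ∃ t, chk3 f_pp_022 t 34 13 11 = true :=
  ⟨(b (a (a (c (b (b (l 16274520) (l 16280104)) (a (l 16278696) (l 16301536))) (b (b (l 16299176) (l 16304968)) (a (l 16307848) (l 16333536)))) (a (c (b (l 16315456) (l 16333672)) (l 16342120)) (b (l 16319952) (l 16360872)))) (b (a (l 16360688) (b (a (b (l 16380080) (l 16371336)) (l 16379216)) (l 16389688))) (l 16396096))) (a (a (c (b (a (l 16286216) (l 16310720)) (a (b (c (l 16281224) (l 16285336)) (c (l 16295576) (l 16299744))) (a (b (l 16300328) (l 16262304)) (l 16318608)))) (b (a (l 16315872) (l 16343280)) (b (a (l 16273640) (l 16343336)) (a (c (l 16321264) (l 16341728)) (c (a (l 16339552) (l 16349480)) (l 16350720)))))) (b (c (a (l 16323712) (l 16372376)) (l 16368712)) (c (a (c (l 16335832) (b (l 16356944) (l 16354464))) (c (l 16350920) (l 16378216))) (l 16369744)))) (b (l 16412544) (l 16417784)))), by decide +kernel⟩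

def k25_pp_022 : ∃ t, chk3 f_pp_022 t 34 13 3 = true :=
  ⟨(b (b (a (c (l 16323248) (l 16318232)) (a (l 16355112) (b (b (a (l 16375048) (l 16404240)) (a (l 16366016) (l 16386040))) (b (l 16380824) (l 16388080))))) (c (a (l 16341080) (l 16393040)) (l 16341136))) (b (c (a (l 16351592) (l 16409512)) (a (l 16346560) (l 16405400))) (a (b (c (l 16352608) (l 16347376)) (a (c (l 16348144) (l 16342696)) (l 16362448))) (c (l 16414592) (l 16410272))))), by decide +kernel⟩

def k26_pp_022 : ∃ t, chk3 f_pp_022 t 35 52 1 = true :=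
  ⟨(c (c (a (c (a (b (c (l 16387944) (l 16337608)) (a (b (l 16353888) (a (l 16350952) (l 16353928))) (c (l 16376416) (l 16329368)))) (c (b (l 16374824) (l 16374800)) (l 16348864))) (c (a (b (l 16359968) (a (b (l 16315592) (a (l 16346064) (l 16364504))) (l 16407552))) (b (l 16395912) (l 16417160))) (a (b (l 16353224) (a (b (l 16337672) (a (l 16391632) (l 16367656))) (l 16419880))) (l 16481440)))) (c (c (a (l 16410360) (a (l 16379384) (b (l 16420592) (l 16461048)))) (a (b (l 16416080) (l 16458344)) (l 16427896))) (l 16412880))) (a (a (b (l 16448168) (a (b (l 16415568) (l 16415088)) (l 16443264))) (l 16459328)) (l 16411432))) (b (a (l 16414072) (l 16407968)) (a (a (a (b (l 16410272) (l 16388696)) (l 16438704)) (l 16487760)) (l 16471176)))), by decide +kernel⟩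

def k27_pp_022 : ∃ t, chk3 f_pp_022 t 35 53 1 = true :=
  ⟨(c (a (c (a (c (a (l 16368192) (b (b (c (l 16370440) (a (l 16355968) (c (l 16361344) (l 16374984)))) (l 16373072)) (c (l 16383432) (l 16378216)))) (a (c (l 16371936) (l 16394688)) (b (c (b (l 16359744) (l 16405608)) (b (a (l 16428352) (l 16442728)) (l 16439224))) (c (l 16415080) (l 16448936))))) (c (b (a (b (c (l 16386128) (l 16404552)) (c (a (l 16376400) (l 16384640)) (a (l 16366872) (l 16411128)))) (l 16374216)) (a (c (l 16366272) (l 16384872)) (b (a (c (c (l 16390536) (l 16376824)) (l 16434448)) (l 16374200)) (a (l 16377336) (a (l 16409336) (l 16376952)))))) (b (a (b (l 16393016) (c (a (l 16393696) (l 16414544)) (l 16441152))) (l 16470360)) (a (c (c (l 16442784) (l 16440856)) (l 16467784)) (b (a (c (c (l 16428368) (l 16478576)) (l 16478088)) (l 16490696)) (a (l 16479344) (l 16468680))))))) (a (b (b (a (l 16420800) (l 16437456)) (l 16434656)) (l 16444176)) (b (a (b (l 16464176) (l 16439360)) (l 16492224)) (a (l 16465992) (b (l 16462600) (l 16484528))))))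 (c (c (a (a (a (b (l 16407504) (b (l 16417912) (a (b (l 16428448) (l 16406856)) (l 16399952)))) (c (l 16469312) (l 16472600))) (c (l 16490248) (l 16502728))) (c (a (l 16499600) (l 16451768)) (l 16543664))) (b (l 16531624) (a (a (l 16469824) (l 16541768)) (l 16560896)))) (b (l 16530824) (a (b (l 16528664) (l 16459432)) (l 16560024))))) (a (a (b (b (a (l 16415440) (c (l 16434216) (l 16430904))) (l 16429560)) (l 16439184)) (b (a (b (l 16460024) (c (l 16436456) (l 16454472))) (l 16488800)) (a (l 16461600) (b (c (l 16460056) (l 16478424)) (l 16459608))))) (b (l 16487128) (a (a (c (l 16466168) (l 16464032)) (l 16538344)) (l 16537264))))), by decide +kernel⟩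

def k28_pp_022 : ∃ t, chk3 f_pp_022 t 70 27 2 = true :=
  ⟨(c (c (b (a (c (l 16396504) (a (l 16377984) (c (l 16385928) (l 16393736)))) (c (a (l 16402032) (c (l 16411808) (l 16424008))) (l 16378600))) (a (c (l 16405088) (a (l 16385640) (c (l 16373896) (a (l 16392968) (l 16410800))))) (c (a (b (l 16410984) (l 16392328)) (c (a (l 16417744) (l 16405392)) (l 16435896))) (b (l 16409496) (l 16391480))))) (a (c (a (b (l 16369856) (b (l 16397928) (l 16357024))) (b (l 16429544) (l 16439280))) (b (a (c (l 16426760) (l 16446216)) (l 16421944)) (a (c (l 16435296) (b (l 16454064) (l 16455608))) (c (b (l 16470808) (l 16473088)) (l 16478544))))) (b (c (a (c (l 16458384) (l 16477696)) (l 16432784)) (l 16491592)) (c (a (c (l 16469792) (b (l 16487704) (l 16490712))) (c (b (l 16504752) (l 16508480)) (l 16513216))) (l 16504168))))) (b (l 16453264) (b (l 16483744) (l 16486360)))), by decide +kernel⟩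

def k29_pp_022 : ∃ t, chk3 f_pp_022 t 71 27 2 = true :=
  ⟨(b (a (c (c (b (a (a (c (l 16437152) (l 16486544)) (b (c (l 16435232) (c (l 16494264) (l 16469232))) (l 16441008))) (b (c (l 16452856) (a (c (l 16474968) (l 16525256)) (l 16538624))) (c (a (l 16481328) (l 16462336)) (a (l 16478800) (b (l 16513320) (l 16513312)))))) (c (l 16478160) (a (l 16461936) (l 16512320)))) (b (a (b (l 16487448) (l 16513144)) (b (l 16511168) (a (l 16525168) (l 16514344)))) (l 16528696))) (b (a (b (l 16485752) (l 16511448)) (b (l 16509808) (a (l 16523656) (l 16512968)))) (l 16527120))) (b (c (c (a (c (a (l 16468808) (l 16534616)) (l 16559400)) (l 16523968)) (l 16553072)) (l 16531304)) (c (a (c (b (c (a (a (l 16522896) (l 16490936)) (c (l 16498008) (b (l 16557008) (l 16535128)))) (a (l 16547888) (l 16537824))) (c (l 16497856) (l 16556680))) (b (a (l 16547256) (l 16537272)) (l 16556072))) (b (c (c (l 16512752) (l 16579680)) (l 16579272)) (a (c (c (c (b (l 16519168) (l 16562400)) (l 16549456)) (l 16549200)) (l 16548688)) (b (l 16581880)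 (c (a (l 16555912) (l 16583336)) (l 16580240)))))) (a (b (a (l 16545976) (l 16536152)) (l 16554856)) (b (l 16578440) (a (l 16547656) (l 16538544))))))) (c (c (c (a (l 16424936) (c (a (l 16540480) (b (l 16532400) (l 16559928))) (a (b (l 16535768) (l 16541624)) (l 16563264)))) (a (a (c (l 16504864) (b (l 16521944) (l 16505408))) (c (b (l 16518296) (l 16523448)) (l 16548456))) (l 16554112))) (b (l 16532760) (l 16559264))) (b (l 16531376) (l 16557824)))), by decide +kernel⟩

def k30_pp_022 : ∃ t, chk3 f_pp_022 t 35 27 3 = true :=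
  ⟨(b (a (c (l 16471232) (l 16468200)) (a (b (a (b (c (l 16483464) (l 16502104)) (l 16508008)) (b (b (l 16529296) (l 16484416)) (c (a (l 16521592) (l 16511096)) (l 16483368)))) (l 16523928)) (b (c (l 16551192) (l 16550072)) (a (b (a (c (l 16544248) (l 16542472)) (c (l 16534624) (l 16533056))) (l 16552360)) (b (l 16576736) (c (a (l 16546256) (l 16579304)) (a (l 16544824) (l 16578096)))))))) (a (c (l 16461232) (l 16479056)) (b (c (l 16529552) (l 16527696)) (c (l 16555936) (l 16554008))))), by decide +kernel⟩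

def k31_pp_022 : ∃ t, chk3 f_pp_022 t 18 12 1 = true :=
  ⟨(a (c (b (a (c (l 15959984) (l 15969408)) (b (l 15876432) (l 15987592))) (a (c (b (l 16146136) (l 16206216)) (b (l 16137632) (l 16262888))) (b (c (l 16104776) (l 16095152)) (c (l 16217280) (l 16209728))))) (b (a (b (l 15893728) (l 16007592)) (b (l 15848568) (l 15963888))) (a (b (l 16124408) (c (l 16256416) (l 16249840))) (b (l 16080432) (c (l 16202056) (l 16194264)))))) (c (b (b (c (l 15931592) (l 15918352)) (c (l 16043640) (l 16032496))) (b (c (l 16156720) (l 16147688)) (c (a (l 16251192) (l 16290824)) (l 16221776)))) (b (b (l 15898096) (c (l 16021192) (l 16009720))) (b (c (l 16138528) (l 16129224)) (c (l 16256704) (l 16249576)))))), by decide +kernel⟩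

def k32_pp_022 : ∃ t, chk3 f_pp_022 t 19 12 1 = true :=
  ⟨(b (a (c (a (b (l 15982920) (l 16097792)) (b (a (b (a (l 15982280) (l 16002280)) (l 16043648)) (b (l 16041392) (l 16080104))) (b (a (l 16100688) (a (l 16117552) (l 16091952))) (l 16169848)))) (a (b (l 15957424) (l 16076656)) (b (a (b (l 15967880) (l 16020072)) (l 16037752)) (b (c (l 16098392) (l 16087728)) (l 16150944))))) (c (b (a (l 16136296) (l 16199720)) (a (b (l 16192640) (a (a (c (l 16205792) (l 16196912)) (l 16221544)) (l 16255384))) (l 16272568))) (b (c (l 16153720) (l 16143808)) (a (b (l 16174160) (a (c (l 16199112) (l 16190160)) (l 16239176))) (l 16256800))))) (a (c (b (c (a (l 16217680) (l 16261512)) (l 16231272)) (c (a (l 16333040) (l 16377744)) (a (l 16326952) (l 16372280)))) (c (b (l 16223184) (l 16301448)) (b (l 16214984) (l 16337432)))) (c (b (b (a (a (c (l 16267600) (l 16259864)) (c (l 16300688) (l 16293472))) (l 16331368)) (a (a (l 16321680) (b (a (l 16325200) (l 16337704)) (c (l 16361696) (l 16355640)))) (l 16372776))) (a (c (l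 16381632) (l 16418760)) (a (b (c (a (b (l 16395464) (l 16422472)) (l 16414488)) (a (l 16404232) (l 16409336))) (c (b (l 16451816) (l 16480904)) (l 16462368))) (b (l 16425168) (a (c (b (l 16456408) (l 16481584)) (b (l 16452016) (l 16477680))) (l 16474128)))))) (b (a (a (b (l 16206096) (l 16308200)) (b (c (l 16286160) (l 16278744)) (c (a (l 16330248) (l 16341328)) (l 16330056)))) (l 16318224)) (a (c (l 16413872) (l 16408920)) (a (b (c (a (l 16398952) (l 16404112)) (l 16396968)) (c (l 16458176) (l 16453920))) (b (l 16415120) (c (a (l 16461112) (l 16468008)) (l 16439824))))))))), by decide +kernel⟩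

def k33_pp_022 : ∃ t, chk3 f_pp_022 t 36 26 1 = true :=
  ⟨(c (a (b (c (l 16261712) (l 16320504)) (c (l 16378136) (l 16417112))) (b (b (c (l 16259552) (l 16295472)) (a (l 16332768) (l 16331288))) (c (a (l 16390160) (l 16383928)) (a (l 16385560) (l 16379088))))) (b (a (c (l 16337160) (l 16353736)) (c (b (l 16289352) (l 16324344)) (b (l 16283128) (l 16318664)))) (a (c (l 16413960) (l 16410760)) (c (a (l 16380896) (l 16374176)) (l 16309664))))), by decide +kernel⟩

def k34_pp_022 : ∃ t, chk3 f_pp_022 t 36 27 1 = true :=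
  ⟨(a (b (c (c (l 16429936) (l 16449040)) (c (l 16447000) (l 16465888))) (c (a (b (a (b (c (a (b (l 16592048) (l 16592576)) (l 16604784)) (a (b (l 16590968) (l 16591456)) (l 16603976))) (c (l 16600232) (l 16599184))) (b (l 16593200) (a (b (c (l 16613552) (l 16612824)) (l 16614552)) (c (l 16605232) (l 16604296))))) (c (a (l 16605344) (b (l 16601392) (l 16625472))) (b (l 16570280) (l 16615176)))) (b (l 16520648) (b (a (c (a (b (l 16605864) (l 16612792)) (l 16576584)) (a (b (l 16604864) (l 16611880)) (l 16575384))) (l 16577320)) (a (b (c (l 16571504) (l 16570552)) (l 16618056)) (a (b (l 16576800) (c (l 16584896) (l 16583728))) (c (l 16590160) (l 16588696))))))) (b (a (b (a (c (a (l 16560320) (l 16603136)) (a (l 16568400) (l 16602280))) (l 16591040)) (a (c (l 16598168) (l 16597120)) (a (b (c (l 16612072) (l 16611296)) (l 16592048)) (c (l 16603344) (l 16602368))))) (l 16517104)) (b (a (c (l 16569416) (l 16589496)) (a (a (b (c (l 16603840) (l 16602792)) (c (l 16610944) (l 16609992))) (c (l 16574152) (l 16572904)))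 (l 16574056))) (a (l 16592840) (b (a (c (l 16569576) (l 16568576)) (c (l 16589120) (l 16587656))) (a (l 16616208) (a (c (l 16582536) (l 16581312)) (c (l 16591944) (l 16590488)))))))))) (c (b (c (a (l 16421504) (l 16457392)) (a (l 16418016) (l 16453672))) (c (a (b (l 16518624) (l 16534840)) (l 16510768)) (a (b (l 16515952) (l 16532704)) (l 16508152)))) (b (c (a (l 16435432) (l 16449888)) (a (l 16452792) (l 16446032))) (c (a (b (l 16513232) (l 16530536)) (l 16526456)) (a (b (l 16510456) (l 16549296)) (l 16523744)))))), by decide +kernel⟩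

def k35_pp_022 : ∃ t, chk3 f_pp_022 t 37 13 1 = true :=
  ⟨(b (c (b (c (b (l 16310656) (l 16380216)) (b (l 16347200) (l 16375216))) (a (c (b (l 16382392) (l 16408936)) (b (l 16377416) (l 16404320))) (c (l 16434640) (l 16430360)))) (b (c (b (l 16341704) (l 16370144)) (b (l 16336128) (l 16364984))) (c (a (b (l 16372352) (l 16399632)) (l 16426008)) (a (l 16340904) (l 16421592))))) (c (b (a (c (b (l 16440160) (l 16476320)) (b (l 16436000) (l 16472696))) (c (b (l 16465616) (a (l 16480920) (l 16496544))) (b (l 16461704) (a (l 16477208) (l 16493024))))) (a (c (b (l 16513712) (l 16551256)) (b (l 16510648) (l 16548752))) (c (b (a (l 16515848) (l 16521672)) (l 16554600)) (b (a (l 16512656) (l 16518472)) (l 16551928))))) (b (a (c (b (l 16431768) (l 16469016)) (b (l 16427472) (l 16465272))) (c (b (l 16457736) (l 16461592)) (b (l 16453696) (l 16478840)))) (c (a (b (l 16507536) (l 16546200)) (b (a (l 16509408) (l 16515216)) (l 16549216))) (a (b (l 16504368) (l 16543608)) (b (l 16488560) (l 16546448))))))), by decide +kernel⟩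

def k36_pp_022 : ∃ t, chk3 f_pp_022 t 19 26 1 = true :=
  ⟨(c (a (b (c (b (a (l 16416120) (l 16461504)) (a (l 16445344) (l 16491760))) (b (l 16371344) (l 16443480))) (c (a (l 16438448) (b (l 16516400) (l 16540024))) (a (l 16455800) (b (l 16513320) (l 16537256))))) (b (a (c (b (l 16486992) (l 16539208)) (b (l 16504760) (l 16536496))) (b (b (a (l 16508712) (a (l 16508136) (c (l 16490896) (l 16508512)))) (c (l 16532840) (l 16529920))) (c (l 16553640) (l 16551032)))) (a (c (b (l 16543984) (l 16547744)) (b (l 16562600) (l 16566696))) (c (b (l 16580464) (l 16606272)) (b (l 16578240) (l 16604408)))))) (a (b (c (b (l 16429968) (l 16460632)) (b (l 16425616) (l 16456752))) (c (a (l 16473088) (l 16501664)) (a (l 16469344) (l 16519624)))) (b (a (c (b (l 16501504) (l 16533744)) (l 16472904)) (b (a (l 16514016) (b (c (l 16483400) (l 16500920)) (l 16525240))) (c (l 16548376) (l 16545688)))) (c (a (b (l 16560216) (l 16585624)) (l 16568576)) (a (l 16529040) (l 16587440)))))), by decide +kernel⟩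

def k37_pp_022 : ∃ t, chk3 f_pp_022 t 19 27 1 = true :=
  ⟨(c (a (b (c (a (b (l 16512744) (l 16533032)) (b (l 16562576) (l 16584008))) (a (b (l 16509520) (l 16530040)) (b (l 16560096) (l 16581784)))) (a (c (b (l 16531208) (a (b (l 16555184) (l 16569440)) (l 16583128))) (b (l 16549400) (a (b (l 16552392) (l 16566840)) (l 16580728)))) (c (b (l 16562312) (c (l 16602736) (l 16601848))) (b (l 16581296) (a (l 16607760) (l 16635352)))))) (a (b (c (b (a (l 16601424) (l 16625432)) (a (l 16623688) (l 16648248))) (b (l 16569704) (a (l 16622080) (l 16647016)))) (a (c (b (l 16644776) (l 16643656)) (b (l 16643416) (l 16663488))) (c (b (l 16648904) (c (l 16669488) (l 16669128))) (b (l 16647936) (c (l 16668760) (l 16668384)))))) (b (c (b (l 16631016) (l 16633664)) (b (l 16629480) (l 16653408))) (c (b (a (l 16675888) (l 16678488)) (c (l 16677504) (l 16677152))) (b (c (l 16676376) (l 16675896)) (c (l 16676800) (l 16697416))))))) (a (b (c (a (l 16454048) (b (l 16557584) (l 16579536))) (a (l 16492784) (l 16524520))) (c (a (b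 (l 16546568) (a (l 16536920) (l 16578280))) (b (l 16600248) (l 16577712))) (a (b (l 16543696) (a (l 16555120) (l 16575792))) (b (l 16598192) (l 16596840))))) (a (b (c (b (l 16588944) (l 16591080)) (b (l 16608160) (l 16610592))) (a (c (b (l 16642040) (l 16662328)) (l 16609288)) (c (b (l 16646960) (l 16667816)) (b (l 16666928) (l 16667056))))) (b (c (b (l 16627928) (l 16652168)) (l 16617968)) (c (b (l 16675168) (c (l 16697064) (l 16696704))) (b (l 16674192) (l 16675184))))))), by decide +kernel⟩

def k38_pp_022 : ∃ t, chk3 f_pp_022 t 64 56 4 = true :=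
  ⟨(c (c (b (a (l 16541440) (b (l 16544336) (l 16566688))) (l 16529104)) (b (a (c (l 16558880) (a (l 16563064) (b (l 16564600) (l 16574520)))) (b (c (b (l 16519384) (l 16527936)) (l 16500592)) (c (l 16566352) (c (l 16531392) (l 16521928))))) (a (l 16560768) (b (c (l 16582160) (a (l 16585616) (l 16543576))) (l 16564176))))) (c (b (a (c (b (l 16485360) (a (l 16570728) (l 16546736))) (b (l 16499520) (l 16485920))) (c (l 16462016) (b (a (l 16485184) (l 16447544)) (l 16484784)))) (a (b (c (l 16576088) (a (l 16576568) (l 16527688))) (c (l 16577944) (a (l 16582976) (l 16566512)))) (c (b (a (l 16536120) (l 16541832)) (a (l 16592712) (l 16546896))) (b (l 16517552) (l 16503464))))) (b (a (c (b (l 16445112) (l 16517000)) (b (a (l 16446832) (l 16457792)) (a (l 16493456) (l 16455480)))) (c (b (l 16419024) (a (l 16463360) (l 16471280))) (l 16461432))) (a (c (b (l 16506576) (a (l 16539320) (l 16528512))) (b (l 16472632) (l 16505464))) (b (c (a (l 16513688) (l 16472496)) (a (l 16443640) (l 16476152))) (c (l 16514848) (a (l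 16490968) (c (l 16498600) (l 16488408))))))))), by decide +kernel⟩

def k39_pp_022 : ∃ t, chk3 f_pp_022 t 65 56 8 = true :=
  ⟨(b (a (c (b (a (c (l 16579480) (l 16529576)) (c (b (l 16532168) (a (l 16587392) (l 16584856))) (l 16491400))) (a (l 16582136) (c (l 16590632) (l 16518848)))) (b (a (l 16505376) (a (l 16465584) (l 16431912))) (a (l 16493368) (l 16493344)))) (c (b (l 16465424) (a (c (b (l 16542376) (a (l 16594216) (l 16574480))) (l 16500832)) (l 16489584))) (b (c (l 16415872) (a (l 16442096) (l 16448920))) (a (b (l 16438456) (l 16476584)) (c (l 16498656) (l 16430224)))))) (b (a (c (c (l 16585568) (l 16571416)) (c (a (l 16571024) (l 16541616)) (l 16519856))) (a (c (c (l 16599776) (b (l 16546456) (l 16578888))) (l 16502880)) (c (c (a (b (l 16579472) (l 16597072)) (l 16534904)) (l 16510856)) (b (c (l 16527568) (l 16450872)) (l 16465136))))) (c (a (l 16589656) (a (c (l 16604184) (l 16603864)) (c (b (l 16600008) (l 16602400)) (b (l 16557312) (l 16586728))))) (a (c (a (l 16600272) (l 16561320)) (a (l 16554600)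 (l 16542320))) (a (l 16513976) (l 16513008)))))), by decide +kernel⟩

def k40_pp_022 : ∃ t, chk3 f_pp_022 t 65 56 9 = true :=
  ⟨(b (a (c (b (a (c (l 16455216) (l 16459096)) (a (b (l 16455888) (l 16422672)) (l 16435664))) (c (a (l 16504768) (b (l 16456504) (l 16490408))) (a (l 16456400) (l 16468264)))) (b (l 16454920) (l 16465392))) (b (l 16448320) (a (c (c (b (l 16464600) (a (l 16477032) (l 16470896))) (l 16464560)) (l 16463968)) (l 16460464)))) (a (c (c (l 16460600) (b (a (l 16481960) (l 16444776)) (l 16482832))) (c (b (a (l 16459672) (l 16475224)) (a (l 16461192) (l 16448504))) (l 16459584))) (c (b (a (c (b (a (l 16489264) (l 16481712)) (l 16499768)) (l 16456880)) (c (a (b (l 16475640) (l 16465536)) (l 16455520)) (l 16474384))) (c (a (l 16523736) (b (a (l 16498896) (l 16470448)) (l 16509680))) (a (c (l 16499656) (l 16490008)) (b (l 16483640) (l 16490688))))) (b (l 16453216) (l 16485176))))), by decide +kernel⟩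

def k41_pp_022 : ∃ t, chk3 f_pp_022 t 32 57 8 = true :=
  ⟨(a (b (l 16515128) (a (l 16498192) (l 16544360))) (b (c (b (a (l 16587616) (c (l 16609264) (a (l 16609680) (l 16585736)))) (l 16557368)) (a (c (l 16583472) (b (a (l 16608600) (a (l 16587160) (l 16566328))) (l 16593208))) (c (b (a (c (l 16604712) (l 16588064)) (l 16563816)) (a (l 16611496) (c (l 16607488) (l 16570008)))) (b (l 16520280) (a (c (l 16588624) (l 16574896)) (l 16565104)))))) (a (l 16552048) (c (l 16589112) (c (l 16584432) (b (a (l 16614384) (c (l 16591408) (l 16577728))) (a (l 16625072) (l 16617232)))))))), by decide +kernel⟩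

def k42_pp_022 : ∃ t, chk3 f_pp_022 t 64 57 9 = true :=
  ⟨(b (c (a (l 16559216) (c (b (a (l 16596336) (l 16604160)) (l 16601040)) (b (a (l 16567288) (l 16549200)) (a (l 16606032) (c (l 16610768) (l 16590016)))))) (a (b (c (a (l 16591472) (c (l 16597672) (l 16570768))) (a (c (l 16570600) (l 16561848)) (l 16549296))) (c (l 16596448) (a (l 16598928) (a (l 16579512) (l 16553880))))) (c (b (l 16506296) (a (a (l 16586128) (l 16562592)) (l 16550576))) (a (l 16500352) (l 16476832))))) (c (a (l 16574840) (l 16561320)) (a (b (a (l 14) (c (l 16602672) (l 16589640))) (l 14)) (c (b (a (l 16614760) (c (l 16615104) (l 16573096))) (l 16599056)) (b (a (b (l 16562672) (l 16573344)) (l 16551112)) (a (l 16600504) (c (b (l 16598936) (l 16617464)) (l 16576112)))))))), by decide +kernel⟩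

def k43_pp_022 : ∃ t, chk3 f_pp_022 t 65 57 9 = true :=
  ⟨(b (c (c (a (b (a (c (l 16586240) (l 16576288)) (l 16563016)) (a (l 16591608) (a (l 16572728) (l 16568896)))) (c (l 16511096) (l 16492416))) (a (b (l 16516976) (a (l 16539720) (l 16561864))) (b (a (l 16501968) (c (l 16488960) (l 16500312))) (l 16472712)))) (a (c (b (a (l 16533496) (c (l 16518568) (l 16484208))) (l 16515144)) (b (a (c (l 16487712) (l 16498512)) (l 16496168)) (a (l 16490776) (c (l 16498328) (l 16488104))))) (c (b (a (c (l 16481424) (l 16495984)) (l 16495624)) (a (c (l 16529312) (l 16473896)) (c (l 16471152) (l 16506664)))) (b (l 16494712) (l 16485624))))) (c (a (c (b (a (l 16619976) (c (l 16613384) (l 16592768))) (l 16624872)) (b (a (c (l 16613616) (l 16574856)) (a (l 16578080) (l 16570464))) (a (l 16621488) (c (l 16616472) (b (l 16598112) (l 16616040)))))) (c (b (a (c (l 16584304) (l 16579056)) (l 16565584)) (a (b (l 16594912) (l 16617312)) (c (c (l 16594344) (l 16576840)) (l 16586584)))) (a (b (l 16573768) (b (l 16579864) (c (l 16597088)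 (l 16608464)))) (l 16525112)))) (a (c (b (l 16518728) (a (c (l 16596960) (l 16587184)) (l 16553856))) (b (l 16493640) (l 16529616))) (b (c (a (l 16534800) (c (l 16519672) (b (l 16519280) (l 16532224)))) (a (c (l 16488520) (l 16478160)) (l 16496856))) (c (l 16538944) (a (l 16513920) (c (b (l 16512608) (l 16548584)) (b (l 16525144) (l 16514632))))))))), by decide +kernel⟩

def k44_pp_022 : ∃ t, chk3 f_pp_022 t 32 56 5 = true :=
  ⟨(a (c (c (b (a (c (b (l 16454760) (a (l 16470144) (l 16463840))) (l 16458208)) (l 16459080)) (a (c (b (a (l 16471744) (l 16458320)) (a (l 16522936) (l 16460248))) (b (l 16474128) (a (l 16452104) (l 16484208)))) (c (b (l 16473384) (a (l 16446952) (l 16483088))) (l 16477304)))) (b (l 16457952) (l 16476552))) (l 16465896)) (a (b (b (l 16452880) (l 16463200)) (l 16477328)) (b (a (b (l 16448008) (l 16461760)) (l 16449104)) (a (l 16477848) (b (l 16449440) (l 16481968)))))), by decide +kernel⟩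

def k45_pp_022 : ∃ t, chk3 f_pp_022 t 32 57 5 = true :=
  ⟨(a (b (c (c (a (c (b (l 16504384) (a (l 16535120) (l 16548192))) (b (a (l 16500288) (b (l 16475728) (l 16487648))) (l 16481400))) (c (b (a (l 16470256) (c (l 16479864) (l 16493912))) (a (l 16543608) (c (l 16528336) (l 16493360)))) (b (l 16472888) (a (c (l 16497040) (l 16486312)) (l 16504648))))) (a (c (b (a (c (l 16499456) (l 16492048)) (l 16491128)) (a (l 16458640) (c (l 16488808) (l 16502344)))) (b (l 16489936) (l 16460304))) (l 16496352))) (l 16494480)) (a (a (l 14) (b (a (l 14) (c (c (l 16515840) (c (l 16484768) (l 16511008))) (l 16509352))) (l 14))) (c (a (b (c (a (l 16526344) (l 16492824)) (c (c (l 16478664) (l 16513056)) (l 16510632))) (b (c (l 16524808) (c (l 16493232) (l 16519224))) (l 14))) (c (c (l 16511720) (b (c (l 16508032) (l 16497160)) (l 16512624))) (c (b (l 16512224) (c (b (l 16524400) (l 16536856)) (l 16524192))) (l 16516432)))) (l 16515296)))) (c (c (b (a (c (b (l 16493464) (a (c (l 16490384) (l 16504400)) (l 16503816))) (l 16497752))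 (l 16499184)) (a (b (c (a (c (l 16539496) (l 16483384)) (c (b (l 16515208) (l 16526920)) (l 16515296))) (a (l 16494528) (l 16513280))) (c (a (l 16545856) (c (l 16530312) (b (l 16528736) (l 16542472)))) (a (c (l 16498608) (a (l 16509752) (l 16525656))) (c (l 16506704) (l 16523752))))) (c (b (l 16515016) (a (c (b (l 16526504) (l 16517624)) (l 16526608)) (l 16526048))) (l 16519576)))) (b (l 16497848) (a (l 16517976) (l 16519088)))) (a (l 16506336) (l 16505960)))), by decide +kernel⟩

def k46_pp_022 : ∃ t, chk3 f_pp_022 t 33 56 4 = true :=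
  ⟨(a (c (b (c (a (c (l 16466368) (b (a (l 16468920) (l 16406600)) (l 16450720))) (c (b (a (l 16408968) (l 16413912)) (a (l 16484232) (c (l 16465696) (l 16453832)))) (b (l 16433128) (a (c (l 16461424) (l 16452640)) (l 16446384))))) (a (c (b (a (l 16447872) (l 16438064)) (a (l 16432536) (l 16436832))) (l 16448336)) (l 16438240))) (a (c (a (b (l 16499792) (c (b (l 16543232) (a (l 16599888) (l 16563216))) (l 16521480))) (l 16469664)) (b (c (a (l 16508152) (c (l 16489056) (l 16455768))) (a (c (l 16484736) (l 16475544)) (l 16468848))) (c (a (l 16505016) (l 16518304)) (a (b (l 16439632) (l 16477464)) (c (l 16473904) (l 16485800)))))) (c (c (l 16466264) (b (a (l 16446776) (c (l 16451032) (l 16463408))) (a (l 16526056) (l 16457608)))) (c (b (a (l 16426304) (l 16459400)) (a (c (l 16499488) (l 16466280)) (c (l 16438504) (l 16474880)))) (b (l 16460488) (l 16434720)))))) (b (l 16439232) (a (b (l 16468200) (a (c (c (b (l 16463056) (a (c (l 16499720) (l 16490504)) (l 16490584))) (l 16484592)) (l 16484024)) (l 16480800)))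 (l 16463848)))) (c (c (b (a (a (c (b (l 16425736) (c (l 16425848) (l 16441352))) (l 16431840)) (l 16424976)) (l 16412952)) (a (c (a (b (c (l 16476208) (a (l 16467536) (l 16458448))) (l 16484336)) (b (c (l 16433888) (l 16449080)) (c (l 16463312) (b (l 16463768) (l 16477312))))) (b (l 16451752) (a (c (a (l 16486360) (l 16475232)) (l 16451800)) (l 16463352)))) (b (l 16436312) (c (a (c (b (l 16455056) (l 16467104)) (l 16456544)) (l 16449200)) (l 16450648))))) (b (l 16416264) (l 16447216))) (b (l 16408840) (l 16439880)))), by decide +kernel⟩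

def k47_pp_022 : ∃ t, chk3 f_pp_022 t 66 114 8 = true :=
  ⟨(a (c (b (a (c (b (a (l 16601232) (l 16580304)) (l 16605016)) (a (l 16567984) (l 16550648))) (c (b (a (l 16564704) (l 16593944)) (a (l 16581680) (l 16566136))) (l 16532736))) (a (c (l 16614160) (c (l 16606600) (l 16587320))) (c (a (l 16586056) (b (c (l 16601232) (l 16582440)) (l 16605184))) (b (c (l 16569776) (l 16594728)) (l 16571608))))) (b (a (l 16502792) (b (a (l 16494840) (l 16481920)) (a (l 16534776) (l 16500288)))) (a (c (l 16554696) (l 16562440)) (l 16514184)))) (c (b (l 16486528) (a (c (b (a (l 16567528) (l 16599144)) (a (c (l 16602536) (l 16583784)) (b (l 16590600) (l 16565984)))) (l 16544640)) (l 16513224))) (b (c (a (l 16508160) (c (l 16489488) (b (l 16489800) (l 16482744)))) (a (c (l 16463656) (l 16475584)) (l 16468624))) (a (a (b (l 16505904) (l 16525232)) (b (l 16472080) (l 16511680))) (c (l 16498400) (c (b (l 16486232) (l 16501816)) (a (l 16488256) (l 16501896)))))))), by decide +kernel⟩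

def k48_pp_022 : ∃ t, chk3 f_pp_022 t 66 115 8 = true :=
  ⟨(a (c (b (c (l 16622464) (a (l 16615216) (c (l 16588360) (a (l 16586688) (l 16589680))))) (l 16609200)) (c (b (a (b (c (l 16607936) (l 16594008)) (l 16590984)) (c (l 16577040) (l 16603360))) (a (l 16617192) (c (l 16592008) (b (l 16596600) (l 16592264))))) (b (l 16543944) (a (c (b (l 16592704) (l 16612752)) (b (l 16603168) (l 16596088))) (l 16569160))))) (c (b (a (c (b (a (l 16606520) (c (l 16603848) (l 16585096))) (l 16610424)) (b (b (l 16582896) (l 16578168)) (c (l 16588368) (l 16597960)))) (c (b (b (l 16578296) (a (l 16577744) (l 16598096))) (a (c (l 16605176) (l 16586368)) (c (l 16585584) (l 16595576)))) (b (l 16568104) (l 16567648)))) (a (c (l 16619920) (c (l 16591128) (b (l 16591584) (l 16610960)))) (c (b (a (l 16609240) (c (l 16606512) (b (l 16587592) (l 16606400)))) (l 16613216)) (b (a (l 16598088) (l 16588472)) (a (l 16592552) (l 16578312)))))) (b (a (l 16526224) (a (b (l 16496488) (l 16537160)) (c (l 16552976) (b (l 16505984) (l 16523648)))))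 (a (b (l 16554552) (c (c (l 16595136) (l 16608104)) (l 16596992))) (l 16517120))))), by decide +kernel⟩

def k49_pp_022 : ∃ t, chk3 f_pp_022 t 66 57 9 = true :=
  ⟨(b (a (c (b (a (c (b (a (l 16509064) (c (l 16504848) (l 16495696))) (l 16499176)) (b (l 16493992) (l 16501160))) (c (b (l 16473472) (a (c (l 16510120) (l 16500992)) (l 16501136))) (l 16495176))) (c (a (l 16524152) (b (a (l 16519768) (c (l 16515536) (l 16506392))) (l 16510208))) (a (c (l 16478792) (l 16490088)) (b (l 16504712) (l 16512040))))) (b (a (l 16495760) (l 16494424)) (l 16485280))) (b (l 16486232) (a (c (c (b (a (l 16485624) (l 16502536)) (a (c (l 16500112) (l 16511904)) (c (l 16513272) (l 16509504)))) (l 16505536)) (l 16503048)) (l 16497888)))) (a (c (c (b (l 16527616) (l 16544416)) (b (a (l 16482320) (c (b (l 16523840) (l 16537992)) (b (l 16516272) (l 16525984)))) (a (l 16560264) (c (l 16565056) (l 16505968))))) (c (b (a (c (a (l 16504848) (l 16520184)) (l 16517744)) (l 16517480)) (a (c (l 16531616) (b (l 16509776) (l 16523128))) (c (b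 (l 16528792) (l 16519528)) (l 16529232)))) (b (l 16516344) (a (c (l 16509080) (l 16526632)) (l 16527224))))) (c (b (a (c (b (a (l 16510056) (c (l 16505800) (l 16517392))) (l 16490272)) (a (l 16499496) (l 16517704))) (c (b (a (c (l 16497160) (l 16513648)) (l 16510504)) (a (c (b (l 16506424) (l 16535112)) (l 16521608)) (c (l 16500768) (l 16517040)))) (l 16513240))) (a (c (l 16547960) (c (b (l 16498472) (l 16528792)) (a (l 16492856) (l 16529472)))) (c (b (a (l 16499608) (c (b (l 16510128) (l 16538912)) (l 16504120))) (c (l 16560232) (l 16522072))) (b (l 16523032) (l 16509824))))) (b (a (l 16515176) (l 16509880)) (a (l 16526120) (l 16522160)))))), by decide +kernel⟩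

def k50_pp_022 : ∃ t, chk3 f_pp_022 t 67 114 8 = true :=
  ⟨(c (a (b (c (l 16466688) (a (a (l 16515336) (l 16449240)) (c (a (l 16493864) (l 16461440)) (l 16459016)))) (c (l 16528608) (a (l 16547536) (c (l 16524152) (b (l 16477320) (l 16515112)))))) (c (b (a (c (l 16449784) (b (l 16471176) (l 16463792))) (c (b (l 16462848) (l 16453928)) (l 16464416))) (a (l 16479448) (c (b (l 16468928) (l 16507928)) (b (l 16479056) (a (l 16497296) (l 16485944)))))) (b (l 16445928) (a (c (b (l 16467160) (l 16482416)) (b (l 16481168) (l 16471128))) (l 16478800))))) (a (c (b (a (c (b (l 16481784) (l 16494184)) (l 16482960)) (l 16475104)) (a (c (l 16498456) (b (l 16497912) (l 16490976))) (c (b (l 16489000) (l 16480512)) (l 16490216)))) (b (l 16476696) (a (l 16497112) (l 16487904)))) (l 16470256))), by decide +kernel⟩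

def k51_pp_022 : ∃ t, chk3 f_pp_022 t 67 115 8 = true :=
  ⟨(c (a (b (a (l 16524680) (l 16534192)) (a (c (a (b (c (l 16586784) (l 16596752)) (c (l 16607864) (b (l 16588792) (l 16607672)))) (b (l 16584096) (c (a (l 16585920) (l 16609952)) (l 16578176)))) (b (l 16579504) (a (l 16590360) (l 16613720)))) (l 16534240))) (b (c (l 16462576) (a (c (l 16532232) (b (l 16464112) (l 16523112))) (c (b (a (l 16499832) (l 16490192)) (l 16490672)) (b (l 16489136) (a (l 16503112) (l 16495184)))))) (c (l 16546696) (a (l 16543376) (c (l 16540960) (b (a (l 16519168) (l 16507320)) (l 16531728))))))) (a (b (c (a (l 16507536) (c (l 16485112) (b (l 16484288) (l 16477544)))) (a (c (b (l 16493984) (l 16509800)) (b (l 16507160) (l 16497568))) (l 16473000))) (a (b (a (l 16505992) (c (l 16572096) (l 16492488))) (a (l 16547032) (l 16510072))) (c (l 16515648) (c (b (a (l 16526656) (l 16516024)) (l 16517664)) (b (l 16514544) (a (l 16529464) (l 16520520))))))) (c (b (a (c (b (l 16496656) (a (l 16513176) (l 16503048))) (l 16497880)) (l 16490664))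 (a (c (b (l 16504096) (l 16544080)) (b (a (l 16516216) (l 16507792)) (a (l 16532696) (l 16520312)))) (c (b (l 16504752) (a (l 16521504) (l 16511328))) (l 16505936)))) (b (l 16491920) (a (c (b (l 16507480) (l 16496480)) (l 16509960)) (l 16503504)))))), by decide +kernel⟩

def k52_pp_022 : ∃ t, chk3 f_pp_022 t 67 57 9 = true :=
  ⟨(b (l 16470496) (a (b (l 16501040) (a (c (c (b (a (c (b (l 16521616) (l 16506792)) (l 16520512)) (l 16517584)) (a (c (b (l 16513824) (l 16542736)) (l 16507704)) (c (b (l 16525280) (l 16510528)) (l 16524080)))) (l 16499240)) (l 16495888)) (l 16512192))) (l 16493280))), by decide +kernel⟩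

def k53_pp_022 : ∃ t, chk3 f_pp_022 t 33 28 5 = true :=
  ⟨(a (b (a (b (l 16437544) (a (b (l 16464232) (c (l 16481984) (l 16475176))) (l 16463864))) (c (l 16440528) (l 16406016))) (a (b (b (a (l 16490120) (a (l 16487416) (l 16484016))) (a (l 16500368) (l 16497472))) (l 16514304)) (b (a (b (l 16477096) (a (l 16472800) (l 16489712))) (l 16431752)) (c (b (a (l 16508648) (l 16503112)) (l 16517384)) (a (l 16482896) (b (a (l 16471592) (l 16486128)) (l 16479888))))))) (a (b (c (l 16400688) (l 16395216)) (b (c (l 16467456) (l 16440984)) (a (a (b (l 16466568) (c (l 16511824) (b (l 16489176) (l 16495616)))) (c (l 16501176) (l 16476600))) (c (l 16493152) (l 16461848))))) (c (b (l 16331096) (b (l 16440472) (l 16428976))) (c (b (l 16366144) (b (l 16412480) (l 16442824))) (b (a (c (l 16360616) (b (l 16344432) (l 16375608))) (c (b (l 16337384) (l 16368792)) (l 16373064))) (a (c (l 16421960) (a (l 16398384) (b (l 16404992) (l 16435320)))) (c (a (b (l 16396624) (l 16426984)) (l 16372920)) (l 16435464)))))))), by decide +kernel⟩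

def k54_pp_022 : ∃ t, chk3 f_pp_022 t 64 58 2 = true :=
  ⟨(a (l 14) (a (l 14) (a (l 14) (b (b (b (c (c (l 16572176) (c (l 16611080) (c (l 16626680) (l 16620056)))) (c (c (l 16553632) (c (l 16520408) (l 16529720))) (l 16528960))) (l 14)) (l 14)) (l 14))))), by decide +kernel⟩

def k55_pp_022 : ∃ t, chk3 f_pp_022 t 130 58 2 = true :=
  ⟨(b (c (c (l 16548904) (c (b (l 16607536) (l 16610448)) (b (c (a (l 16623984) (c (a (l 16597640) (l 16598464)) (b (l 16606432) (l 16600696)))) (a (c (b (l 16601528) (l 16620232)) (l 16588904)) (l 16576296))) (c (a (l 16631208) (l 16600784)) (a (c (l 16621336) (b (l 16600104) (l 14))) (b (c (l 16581448) (l 16614416)) (c (l 16592960) (l 16577528)))))))) (c (b (c (c (l 16530256) (a (l 16524952) (c (l 16505504) (b (l 16534336) (l 16524624))))) (c (a (c (b (l 16536000) (l 16527960)) (l 16535768)) (l 16534864)) (l 16533360))) (a (b (c (c (l 16571104) (l 16576000)) (c (c (l 16566944) (l 16510416)) (l 16543888))) (l 14)) (c (c (l 16561656) (l 16522424)) (c (c (b (l 16507776) (l 16549968))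 (b (l 16544104) (l 16539616))) (l 16550144))))) (l 16540792))) (a (l 14) (a (l 14) (b (b (c (c (l 16591600) (c (l 16636776) (c (l 16616328) (l 16587328)))) (c (c (l 16577400) (c (c (l 16589744) (l 16576136)) (l 16570984))) (l 16570376))) (l 14)) (l 14))))), by decide +kernel⟩

def k56_pp_022 : ∃ t, chk3 f_pp_022 t 131 58 4 = true :=
  ⟨(c (b (l 16578472) (l 16578640)) (b (c (b (c (a (l 16626176) (c (l 16598248) (b (l 16596464) (l 16617384)))) (a (c (l 16619336) (b (l 16600648) (l 16618728))) (c (b (l 16605944) (l 16599592)) (l 16593720)))) (c (l 16629920) (a (l 16622496) (c (l 16596016) (b (a (l 16596336) (l 16603152)) (l 16591480)))))) (b (a (b (l 16540096) (c (l 16592288) (l 16582088))) (c (l 16564912) (l 16505440))) (c (a (b (c (l 16598768) (l 16586152)) (c (l 16613240) (l 16573200))) (b (l 16596088) (c (l 16576816) (l 16612128)))) (b (l 16569504) (l 16575152))))) (c (l 16580096) (c (b (a (l 16588080) (c (b (a (l 16604232) (l 16585136)) (l 16600208)) (b (l 16572752) (a (l 16597944) (l 16580360))))) (a (l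 16606280) (l 16575096))) (a (b (c (b (a (l 16605584) (l 16590160)) (l 16579544)) (b (l 16579752) (a (l 16579144) (l 16586232)))) (c (l 16595888) (b (a (l 14) (l 16572176)) (l 14)))) (b (a (l 16561112) (l 16595184)) (c (b (a (l 16591920) (l 16575832)) (l 16587048)) (b (l 16586112) (a (l 16565176) (l 16571528)))))))))), by decide +kernel⟩

def k57_pp_022 : ∃ t, chk3 f_pp_022 t 131 58 5 = true :=
  ⟨(c (b (c (b (c (a (c (l 16542720) (b (l 16519576) (l 16533816))) (c (b (l 16538264) (l 16529856)) (l 16538352))) (a (c (b (l 16533544) (l 16522168)) (l 16535272)) (l 16535992))) (c (a (l 16556232) (c (l 16540264) (b (a (l 16556696) (l 16549856)) (l 16556064)))) (a (c (b (l 16515824) (l 16561048)) (b (l 16526992) (l 16525528))) (c (b (l 16547096) (l 16522952)) (l 16552640))))) (b (l 16535120) (b (l 16544944) (l 16558864)))) (b (c (c (l 16558008) (a (l 16552488) (c (b (l 16544936) (l 16591584)) (b (l 16555584) (a (l 16579112) (l 16571312)))))) (c (a (c (b (l 16536512) (l 16559104)) (b (l 16572352) (l 16569144))) (l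 16560104)) (l 16579176))) (a (b (a (l 14) (a (l 14) (c (l 16595224) (c (l 16569848) (l 16600344))))) (l 14)) (c (b (l 16568608) (l 16550144)) (c (c (b (a (l 16589464) (l 16604216)) (l 16590112)) (b (l 16601888) (a (l 16600608) (l 16616936)))) (l 16608232)))))) (b (l 16540704) (l 16591088))), by decide +kernel⟩

def k58_pp_022 : ∃ t, chk3 f_pp_022 t 32 59 2 = true :=
  ⟨(b (b (b (b (a (l 14) (a (l 14) (a (l 14) (a (l 14) (c (c (l 16632872) (c (l 16612256) (c (l 16591240) (c (l 16580680) (l 16580360))))) (c (c (l 16581848) (c (l 16597048) (l 16626456))) (l 16623080))))))) (l 14)) (l 14)) (l 14)) (l 14)), by decide +kernel⟩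

def k59_pp_022 : ∃ t, chk3 f_pp_022 t 66 58 8 = true :=
  ⟨(b (c (b (a (l 16614720) (a (l 16627752) (c (l 16623000) (b (c (l 16611752) (l 16594048)) (l 16595152))))) (l 16600944)) (a (b (c (l 16604536) (a (c (l 16620360) (l 16596552)) (c (b (l 16595240) (l 16615496)) (b (l 16605520) (l 16598520))))) (b (a (l 16633056) (c (l 16628408) (c (l 16618360) (l 16595008)))) (l 16606608))) (a (b (c (c (b (l 16592240) (l 16615304)) (b (l 16599000) (l 16594808))) (l 16576880)) (c (l 16597064) (b (c (a (l 16613320) (l 16596360)) (l 16585136)) (c (l 16609488) (a (l 16608416) (l 16593016)))))) (a (b (c (c (l 16586520) (l 16609752)) (l 16606920)) (c (c (l 16612472) (b (l 16593952) (l 16606864))) (c (b (l 16606632) (l 16590224)) (l 16615976)))) (b (l 16549096) (c (c (b (l 16592208) (l 16607008)) (b (l 16603008) (l 16588480))) (l 16601808))))))) (a (l 16598224) (c (l 16610024) (c (b (l 16590584) (l 16610296)) (b (a (c (l 16606296) (b (l 16582552) (l 16599312))) (c (a (l 16579032) (b (l 16584784) (l 16595744))) (a (b (l 16586480)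 (l 16574544)) (l 16570976)))) (a (l 16602040) (c (l 16594792) (b (a (l 16590544) (l 16590936)) (l 16588280))))))))), by decide +kernel⟩

def k60_pp_022 : ∃ t, chk3 f_pp_022 t 66 116 9 = true :=
  ⟨(c (a (b (c (a (c (b (l 16599800) (l 16596264)) (l 16589000)) (l 16591584)) (l 16544456)) (c (a (b (c (l 16617240) (a (l 16615048) (l 16597272))) (l 16614328)) (b (a (c (l 16595112) (l 16606688)) (l 16591336)) (c (l 16590008) (l 16576144)))) (a (b (l 16573976) (c (a (l 16609848) (l 16593648)) (l 16582832))) (l 16597896)))) (c (b (l 16530640) (a (l 16582072) (l 16561832))) (b (a (c (l 16577592) (a (l 16564704) (l 16511208))) (c (b (a (l 16547576) (l 16537808)) (l 16538000)) (b (l 16534856) (a (l 16548184) (l 16540048))))) (a (l 16570760) (c (l 16572072) (b (a (l 16566048) (l 16532840)) (l 16585896))))))) (a (b (c (a (l 16559656) (c (l 16544176) (b (l 16521744) (l 16535592)))) (a (c (b (l 16524640) (l 16561144)) (b (l 16536864) (l 16526784))) (c (b (l 16536272) (l 16514032)) (l 16538000)))) (c (l 16549848) (a (b (l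 16510360) (l 16578448)) (c (b (a (l 16562856) (l 16533384)) (l 16562568)) (b (a (l 16551128) (l 16547960)) (a (l 16571872) (l 16564568))))))) (b (c (a (c (a (b (l 16541288) (l 16555352)) (l 16520720)) (l 16518176)) (l 16534632)) (l 16533936)) (c (c (a (l 16519584) (b (a (l 16530184) (l 16544648)) (a (l 16573512) (l 16541896)))) (a (b (a (l 16536872) (l 16549344)) (l 16534952)) (b (l 16543664) (l 16538336)))) (a (c (b (l 16547176) (a (l 16545936) (l 16559880))) (l 16551976)) (l 16548568)))))), by decide +kernel⟩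

def k61_pp_022 : ∃ t, chk3 f_pp_022 t 66 117 18 = true :=
  ⟨(a (c (b (a (l 16612080) (c (l 16604656) (b (a (l 16602536) (l 16584232)) (l 16598416)))) (l 16605408)) (b (a (c (l 16583304) (b (a (l 16604392) (l 16589736)) (l 16578152))) (c (b (l 16572312) (a (l 16596536) (l 16579736))) (l 16579568))) (a (l 16597416) (c (b (l 16591992) (l 16588976)) (b (a (l 16590792) (l 16575480)) (a (l 16585048) (l 16563000))))))) (c (b (a (c (b (a (l 16582272) (l 16589392)) (a (l 16595976) (l 16575520))) (a (b (l 16593176) (l 16577368)) (l 16576296))) (l 16560648)) (a (c (l 16592008) (b (a (l 16589448) (a (l 16589040) (l 16570904))) (l 16585576))) (b (c (a (c (l 16588096) (l 16590648)) (l 16578704)) (l 16589432)) (c (a (l 16584136) (l 16565432)) (a (c (l 16583160) (l 16586968)) (l 16576008)))))) (a (b (l 16578016) (c (a (b (l 16572704) (l 16583176)) (b (l 16604440) (a (l 16562976) (l 16588216)))) (b (l 16596024) (a (l 16568304) (l 16602248))))) (l 16548424)))), by decide +kernel⟩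

def k62_pp_022 : ∃ t, chk3 f_pp_022 t 66 117 19 = true :=
  ⟨(a (c (b (c (a (a (b (l 16593280) (l 16578232)) (l 16576144)) (l 16598008)) (l 16582288)) (a (c (b (a (l 16591080) (l 16571288)) (l 16587200)) (b (a (l 16573288) (l 16603624)) (a (l 16584528) (l 16566184)))) (c (b (l 16586128) (a (l 16564320) (l 16571448))) (l 16573264)))) (b (b (c (l 16582960) (a (l 16596936) (l 16550752))) (l 16580720)) (a (c (b (l 16594784) (a (l 16568584) (l 16600400))) (l 16582720)) (l 16582936)))) (c (b (a (l 16565304) (c (l 16566256) (b (a (l 16561408) (l 16573320)) (l 16560600)))) (l 16571648)) (a (b (c (a (l 16562904) (b (l 16558408) (l 16582552))) (b (l 16554464) (a (l 16578448) (l 16568808)))) (b (l 16567504) (l 16616864))) (b (c (b (l 16570880) (a (l 16571088) (l 16584576))) (l 16575976)) (c (b (a (l 16595720) (l 16583976)) (l 16596064)) (b (a (l 16581560) (l 16596616)) (a (l 16604712) (l 16594504)))))))), by decide +kernel⟩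

def k63_pp_022 : ∃ t, chk3 f_pp_022 t 134 116 8 = true :=
  ⟨(c (b (a (c (a (l 16615440) (b (c (l 16609848) (b (l 16591248) (l 16610216))) (l 16614496))) (a (c (b (l 16592480) (l 16611272)) (l 16582104)) (b (l 16593616) (l 16583488)))) (c (b (a (c (b (l 16612712) (l 16590192)) (l 16581792)) (l 16591120)) (a (c (l 16613560) (b (l 16594960) (l 16614048))) (c (b (l 16616424) (l 16594056)) (l 16585368)))) (b (l 16588840) (a (l 16597256) (l 16602152))))) (a (c (l 16621840) (c (a (l 16614288) (l 16591656)) (b (a (l 16591624) (l 16599000)) (l 16588888)))) (c (b (a (l 16616840) (c (l 16616152) (b (l 16593304) (l 16615048)))) (l 16615256)) (b (a (c (l 16597928) (l 16612744)) (l 16599336)) (c (a (l 16610008) (l 16594536)) (l 16582432)))))) (b (a (l 16527096) (a (b (l 16503840) (l 16555752)) (c (l 16549552) (b (c (l 16549464) (l 16533456)) (l 16518880))))) (a (c (b (l 16577072) (c (a (l 16587936) (l 16597016)) (l 16586680))) (l 16572904)) (l 16541800)))), by decide +kernel⟩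

def k64_pp_022 : ∃ t, chk3 f_pp_022 t 135 116 8 = true :=
  ⟨(a (b (c (b (l 16554576) (l 16554440)) (c (l 16524416) (c (b (a (l 16534792) (l 16524064)) (l 16526136)) (b (l 16522344) (a (l 16516608) (l 16528504)))))) (a (b (c (c (c (b (l 16599016) (l 16595080)) (a (l 16582904) (l 16611680))) (l 16608680)) (b (l 16539096) (l 16552528))) (c (c (c (l 16613176) (b (a (l 16613328) (l 16596968)) (l 16611256))) (l 16595712)) (l 16553360))) (c (c (b (l 16596640) (c (b (l 16596152) (l 16591328)) (b (l 16608976) (l 16578216)))) (l 16585536)) (c (l 16543424) (c (l 16532696) (b (b (l 16537328) (l 16548080)) (l 16526648))))))) (c (b (c (l 16573352) (l 16552664)) (c (b (l 16608072) (l 16581184)) (l 16560040))) (c (b (c (b (l 16491776) (l 16553160)) (b (a (l 16503568) (l 16516032)) (a (l 16541448) (l 16507928)))) (b (l 16524480) (l 16574616))) (b (c (b (l 16515520) (a (l 16528264) (l 16521416))) (l 16517952)) (c (b (a (l 16524128) (b (l 16528744) (l 16538208))) (l 16523448)) (b (l 16511184) (a (l 16513504) (l 16546144)))))))),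 by decide +kernel⟩

def k65_pp_022 : ∃ t, chk3 f_pp_022 t 67 116 9 = true :=
  ⟨(a (a (c (b (c (b (a (l 16507360) (c (b (l 16517664) (l 16546704)) (b (l 16529584) (l 16534192)))) (c (l 16568600) (l 16508952))) (b (l 16530136) (c (l 16518680) (l 16534880)))) (c (l 16530824) (c (b (a (l 16557304) (l 16526224)) (l 16555784)) (b (l 16523024) (a (l 16544656) (l 16557120)))))) (b (l 16529256) (l 16525280))) (b (c (c (b (a (c (b (l 16529056) (a (l 16537152) (l 16532296))) (l 16527736)) (l 16525040)) (a (c (b (l 16521640) (l 16550824)) (b (l 16533304) (l 16538024))) (c (b (l 16532952) (a (l 16541176) (l 16536264))) (l 16531464)))) (b (l 16524280) (l 16531040))) (b (l 16520920) (l 16527688))) (c (b (c (a (c (l 16566784) (l 16528760)) (c (b (a (l 16549280) (l 16543360)) (l 16558160)) (b (l 16537256) (l 16545024)))) (b (l 16535912) (l 16542168))) (c (c (l 16586776) (a (l 16573680) (l 16540600))) (c (a (l 16537952) (l 16552568)) (l 16551632)))) (l 16542112)))) (b (c (l 16518688) (l 16513304)) (a (c (c (b (a (c (b (l 16537088)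 (a (l 16548384) (l 16543408))) (l 16536880)) (l 16534488)) (a (c (b (a (l 16560640) (l 16554616)) (l 16570824)) (b (l 16548216) (l 16557320))) (c (b (l 16548256) (a (l 16539928) (l 16555848))) (l 16548432)))) (b (l 16533520) (l 16547928))) (b (l 16530168) (l 16544608))) (c (l 16535664) (l 16529888))))), by decide +kernel⟩

def k66_pp_022 : ∃ t, chk3 f_pp_022 t 134 117 8 = true :=
  ⟨(c (b (a (l 16615568) (c (l 16614168) (c (l 16606888) (b (a (l 16605400) (l 16591440)) (l 16581352))))) (l 16611632)) (c (b (a (c (b (a (l 16602448) (l 16584024)) (l 16600304)) (b (a (l 16584128) (l 16594752)) (a (l 16597024) (l 16580080)))) (c (b (l 16580152) (a (l 16580088) (l 16588584))) (l 16589048))) (a (l 16597120) (c (b (a (l 16595264) (l 16576128)) (l 16593232)) (b (a (c (l 16593992) (l 16597360)) (l 16585968)) (a (l 16589608) (c (l 16590048) (l 16572112))))))) (b (a (a (c (b (l 16597184) (l 16580584)) (l 16585872)) (l 16572480)) (l 16599064)) (a (c (b (a (l 16591864) (l 16565896)) (l 16589128)) (b (a (l 16577280) (l 16611880))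 (a (l 16586960) (b (l 16596560) (l 16568080))))) (b (l 16586672) (c (a (a (l 16568944) (l 16573128)) (l 16583544)) (l 16595200))))))), by decide +kernel⟩

def k67_pp_022 : ∃ t, chk3 f_pp_022 t 135 117 8 = true :=
  ⟨(a (c (c (b (b (a (l 16610328) (c (l 16609672) (b (a (l 16609440) (l 16592840)) (l 16607432)))) (l 16608272)) (l 16607480)) (b (b (a (c (l 16590544) (l 16604704)) (l 16591448)) (c (a (l 16602600) (l 16576016)) (a (l 16587288) (l 16621232)))) (c (l 16599728) (b (a (l 16597736) (a (l 16579600) (l 16584520))) (l 16573872))))) (b (l 16547032) (c (c (b (a (l 16584272) (l 16619696)) (a (c (l 16591176) (l 16592760)) (c (l 16575488) (l 16603096)))) (b (l 16611128) (l 16569040))) (l 16590072)))) (b (a (c (b (c (c (b (l 16592176) (a (l 16607320) (l 16608360))) (b (l 16604584) (a (l 16590760) (l 16618584)))) (l 16609312)) (c (c (l 16606176) (b (a (l 16605520) (l 16588664)) (l 16603592))) (l 16587088))) (b (a (l 16554472) (l 16546288)) (l 16579968))) (c (c (b (l 16588696) (c (b (a (l 16606424) (l 16609856))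 (a (l 16603784) (l 16604496))) (b (l 16600104) (a (l 16586552) (l 16614088))))) (l 16595704)) (b (c (l 16596488) (c (l 16585504) (c (l 16570752) (l 16563984)))) (b (l 16556304) (l 16571280))))) (c (c (b (c (l 16604264) (a (l 16600536) (b (a (l 16601576) (l 16584440)) (l 16599744)))) (l 16601328)) (c (b (a (c (l 16600064) (l 16583168)) (l 16572296)) (a (l 16595184) (c (l 16596104) (l 16578880)))) (b (l 16583696) (a (a (l 16575440) (l 16580128)) (l 16612072))))) (l 16562840)))), by decide +kernel⟩

def k68_pp_022 : ∃ t, chk3 f_pp_022 t 67 117 18 = true :=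
  ⟨(b (a (c (l 16551296) (c (a (l 16576824) (b (a (l 16560992) (l 16550456)) (l 16581600))) (b (a (l 16543464) (l 16546952)) (a (l 16590936) (a (l 16570088) (l 16561120)))))) (c (a (b (a (c (l 16591920) (l 16553224)) (c (b (a (l 16573384) (l 16546272)) (l 16583712)) (b (l 16560512) (l 16569800)))) (c (l 16613016) (a (l 16599632) (l 16566056)))) (b (a (c (b (l 16539784) (a (l 16552656) (l 16568480))) (l 16560712)) (l 16558632)) (a (c (b (l 16541760) (l 16596848)) (b (l 16572976) (l 16582472))) (c (b (a (l 16553896) (l 16570768)) (a (l 16565608) (l 16560336))) (l 16573160))))) (a (b (a (l 16564032) (l 16561480)) (c (a (l 16542192) (l 16577328)) (l 16576152))) (b (l 16557432) (l 16551560))))) (a (b (c (l 16590168) (a (l 16609984) (c (l 16609968) (l 16564264)))) (c (a (c (l 16561616) (l 16601808)) (l 16606480)) (l 16602784))) (c (a (l 16583504) (a (c (l 16612368) (b (l 16558136) (l 16626552))) (b (c (b (l 16575840) (l 16610224)) (b (l 16564648) (l 16574376))) (c (l 16632256) (l 16571408))))) (a (c (b (a (l 16587136)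 (a (l 16577616) (l 16573056))) (l 16587384)) (b (a (l 16573888) (l 16589616)) (a (l 16596392) (c (l 16588184) (l 16604696))))) (b (a (l 16589040) (l 16586280)) (c (a (c (l 16591320) (l 16585160)) (l 16602800)) (l 16601328))))))), by decide +kernel⟩

def k69_pp_022 : ∃ t, chk3 f_pp_022 t 67 117 19 = true :=
  ⟨(a (b (c (a (c (b (a (l 16554384) (l 16568440)) (a (l 16578208) (l 16567072))) (b (l 16567248) (a (l 16564912) (l 16580560)))) (l 16550696)) (l 16570656)) (c (a (c (l 16571880) (b (a (l 16587248) (l 16577664)) (l 16587072))) (b (c (a (l 16559000) (l 16593528)) (l 16592056)) (c (a (l 16604800) (l 16582592)) (a (l 16569656) (l 16605728))))) (a (c (b (l 16574880) (a (l 16576104) (l 16589032))) (l 16600904)) (l 16597328)))) (b (a (l 16566192) (b (l 16532064) (a (l 16570488) (l 16566760)))) (a (b (l 16587576) (c (l 16583168) (l 16600896))) (l 16590032)))), by decide +kernel⟩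

def k70_pp_022 : ∃ t, chk3 f_pp_022 t 66 118 8 = true :=
  ⟨(a (l 16597192) (l 16574984)), by decide +kernel⟩

def k71_pp_022 : ∃ t, chk3 f_pp_022 t 67 118 16 = true :=
  ⟨(a (l 16590216) (b (a (l 16601248) (c (l 16600840) (c (l 16592592) (b (a (l 16590056) (c (l 16570856) (l 16575680))) (l 16574264))))) (l 16597840))), by decide +kernel⟩

def k72_pp_022 : ∃ t, chk3 f_pp_022 t 67 118 17 = true :=
  ⟨(c (a (b (l 16593112) (l 16592456)) (a (b (c (b (a (l 16588176) (c (l 16587416) (l 16567664))) (l 16586272)) (b (a (c (l 16586112) (l 16567808)) (l 16576888)) (a (l 16582272) (c (l 16582184) (b (l 16586312) (l 16580384)))))) (l 16583064)) (b (b (a (c (c (l 16571176) (l 16598424)) (l 16613360)) (l 16599920)) (c (a (c (l 16583688) (l 16563528)) (b (l 16573656) (c (l 16583568) (l 16588232)))) (a (c (l 16567608) (l 16595928)) (l 16608304)))) (c (b (a (l 16581248) (c (l 16580008) (b (l 16581384) (l 16577424)))) (l 16579448)) (b (a (c (l 16578288) (b (l 16581768) (l 16576256))) (c (b (l 16586688) (l 16579272)) (l 16590960)))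 (a (l 16575088) (c (l 16574432) (b (l 16577232) (l 16572176))))))))) (a (b (a (b (c (l 16587240) (a (l 16582856) (l 16562000))) (l 16583936)) (c (b (a (l 16584192) (b (l 16569720) (l 16563632))) (l 16581648)) (b (a (c (l 16564440) (l 16591000)) (l 16602288)) (a (l 16558016) (c (l 16560128) (l 16565328)))))) (a (l 16583536) (b (a (l 16578912) (c (l 16578752) (l 16554048))) (l 16577064)))) (b (a (c (b (l 16566704) (a (b (l 16565256) (l 16559448)) (l 16574064))) (l 16576104)) (b (l 16613096) (l 16610832))) (a (c (b (a (l 16576576) (c (l 16556240) (b (l 16582968) (l 16575896)))) (l 16574264)) (b (a (c (b (l 16578280) (l 16573112)) (l 16560584)) (l 16571392)) (a (l 16560592) (c (b (l 16573768) (l 16569064)) (b (l 16579912) (l 16571704)))))) (b (c (a (c (l 16564264) (l 16593648)) (l 16606528)) (l 16619192)) (c (a (c (a (l 16571736) (l 16572928)) (b (l 16578160) (l 16571528))) (c (b (l 16583808) (l 16554288)) (l 16588416))) (l 16554368))))))), by decide +kernel⟩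

def k73_pp_022 : ∃ t, chk3 f_pp_022 t 33 119 8 = true :=
  ⟨(a (a (l 14) (a (c (l 16614584) (l 16607656)) (l 16569152))) (a (b (l 16577808) (l 16556832)) (c (l 16597832) (c (l 16558400) (b (a (b (a (l 16572040) (c (l 16571888) (l 16556680))) (l 16570240)) (c (b (a (l 16569112) (c (b (l 16569656) (l 16567056)) (b (l 16552376) (l 16546240)))) (l 16567032)) (b (a (c (b (l 16548304) (l 16565080)) (b (l 16574824) (a (l 16564136) (l 16568096)))) (c (b (l 16581184) (l 16550536)) (l 16586032))) (a (l 16563304) (c (b (a (l 16562560) (l 16565248)) (l 16540208)) (b (l 16569720) (a (l 16559896) (l 16563184)))))))) (b (a (l 16570096) (a (l 16565224) (l 16562440))) (l 16566736))))))), by decide +kernel⟩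

def k74_pp_022 : ∃ t, chk3 f_pp_022 t 132 59 9 = true :=
  ⟨(b (c (l 16576336) (c (b (a (l 16562144) (c (b (a (l 16577984) (c (l 16575896) (l 16578152))) (l 16574272)) (b (a (c (l 16576824) (l 16580568)) (l 16588576)) (a (l 16571152) (c (l 16569848) (l 16573192)))))) (l 16554928)) (a (b (c (b (a (l 16578216) (l 16561296)) (l 16552608)) (b (l 16550200) (a (l 14) (l 16556600)))) (l 14)) (a (b (c (b (l 16592696) (c (l 16571240) (l 16576080))) (l 16580344)) (b (c (l 16564528) (c (l 16544944) (l 16571832))) (l 14))) (b (l 16565520) (c (b (c (l 16543136) (l 16547680)) (l 16557872)) (b (l 16582032) (a (c (l 16556040) (l 16560520)) (l 16543432))))))))) (l 14)), by decide +kernel⟩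

def k75_pp_022 : ∃ t, chk3 f_pp_022 t 133 118 9 = true :=
  ⟨(c (b (c (a (l 16587392) (c (l 16581672) (b (a (l 16578280) (c (l 16579056) (l 16561536))) (l 16575848)))) (a (c (a (l 16579632) (b (l 16577120) (l 16574224))) (a (b (l 16556208) (l 16572376)) (b (c (l 16558048) (l 16585376)) (c (l 16570184) (l 16571048))))) (c (b (a (a (l 16558120) (l 16562648)) (l 16594480)) (a (l 16572800) (b (l 16559088) (l 16552576)))) (b (l 16585416) (a (c (l 16553520) (l 16580504)) (l 16592152)))))) (a (l 16580064) (c (l 16577784) (c (b (l 16570040) (l 16568400)) (b (a (c (l 16566304) (l 16566768)) (c (l 16549024) (l 16575584))) (a (l 16563856) (c (l 16562520) (l 16562512)))))))) (c (b (c (a (b (a (l 16564384) (l 16600488)) (a (c (l 16569304) (l 16550408)) (l 16558992))) (l 16595368)) (a (l 16539448) (l 16596280))) (a (c (b (a (l 16565360) (c (l 16564536) (l 16545520))) (l 16562920)) (b (a (c (l 16563608) (l 16545952)) (l 16555808)) (a (l 16558848) (c (l 16559184) (b (l 16564504) (l 16557600)))))) (c (b (a (c (l 16549568)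 (l 16577624)) (l 16589976)) (a (c (l 16560520) (b (l 16563552) (l 16558256))) (c (b (l 16568336) (l 16561120)) (l 16572456)))) (b (l 16602672) (a (c (l 16545840) (l 16574952)) (l 16587896)))))) (b (b (l 16579744) (l 16577984)) (a (b (l 16557024) (c (a (c (l 16537544) (l 16542032)) (l 16552768)) (l 16564632))) (b (l 16593832) (l 16590800)))))), by decide +kernel⟩

def k76_pp_022 : ∃ t, chk3 f_pp_022 t 133 119 9 = true :=
  ⟨(c (a (l 16579272) (l 16570872)) (b (c (a (l 16538400) (c (b (a (l 16557360) (c (l 16556560) (b (l 16558864) (l 16554072)))) (l 16555368)) (b (a (c (l 16554976) (b (l 16559528) (l 16553112))) (c (b (l 16565032) (l 16556680)) (l 16569504))) (a (l 16551024) (c (l 16550816) (b (l 16554560) (l 16548680))))))) (a (c (b (a (l 16552840) (c (b (l 16555264) (l 16550792)) (b (l 16561032) (l 16553000)))) (l 16550136)) (b (a (c (b (l 16555728) (l 16549632)) (l 16538360)) (l 16570832)) (a (l 14) (c (b (l 16550800) (l 16545232)) (b (l 16557816) (l 16548656)))))) (c (b (a (l 16547496) (l 16585712)) (a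 (c (b (l 16550648) (l 16546720)) (b (l 16555760) (l 16548240))) (c (b (l 16561976) (l 16552504)) (l 16566720)))) (l 16523896)))) (c (l 16555168) (a (l 14) (c (b (a (l 16544848) (b (c (l 16546080) (l 16550504)) (a (l 16542440) (a (l 16542808) (l 16523160))))) (l 16542456)) (b (a (a (l 14) (b (l 16552008) (l 14))) (l 16523056)) (a (l 14) (a (l 14) (b (l 16525592) (l 14)))))))))), by decide +kernel⟩

def k77_pp_022 : ∃ t, chk3 f_pp_022 t 67 118 18 = true :=
  ⟨(a (c (b (a (c (b (a (c (l 16580072) (l 16582048)) (l 16548648)) (a (l 16576664) (c (l 16576176) (l 16556776)))) (b (l 16559056) (a (c (l 16574960) (l 16557040)) (l 16566528)))) (b (l 16583360) (a (c (c (l 16560560) (l 16588200)) (l 16603544)) (l 16590136)))) (a (c (l 16574480) (b (a (l 16570696) (c (l 16570888) (b (l 16575584) (l 16569184)))) (l 16568464))) (c (b (a (b (l 16553888) (l 16571088)) (c (b (l 16579272) (l 16572536)) (l 16583256))) (a (l 16569520) (c (l 16568488) (b (l 16570312) (l 16565952))))) (b (a (c (l 16556912) (l 16585616)) (l 16598280))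 (a (c (l 16566840) (b (l 16570832) (l 16564880))) (c (b (l 16576040) (l 16568168)) (l 16580416))))))) (b (a (l 16558040) (l 16594344)) (a (c (b (a (c (l 16549136) (l 16553240)) (l 16563600)) (a (l 16564920) (c (b (l 16566872) (l 16562848)) (b (l 16572184) (l 16564640))))) (b (l 16575216) (a (c (b (l 16567192) (l 16561568)) (l 16549656)) (l 16581776)))) (b (l 16601000) (c (a (l 16537576) (l 16596304)) (l 16609064)))))) (a (c (b (l 16587432) (b (l 16573264) (c (a (c (b (l 16574488) (l 16568200)) (l 16557296)) (l 16589824)) (l 16602200)))) (c (l 16575904) (b (b (l 16585976) (l 16645928)) (l 16616344)))) (c (l 16558944) (b (c (b (a (l 16614232) (c (l 16604816) (l 16598352))) (l 16615104)) (b (a (c (l 16601480) (l 16617688)) (l 16615160)) (a (l 16602656) (b (l 16607248) (l 16618016))))) (b (a (l 16642272) (l 16606256)) (l 16630688)))))), by decide +kernel⟩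

def k78_pp_022 : ∃ t, chk3 f_pp_022 t 67 118 19 = true :=
  ⟨(a (b (c (a (l 16601272) (c (l 16599440) (b (a (l 16614000) (c (l 16605368) (l 16621296))) (l 16614488)))) (a (c (b (a (l 16622784) (l 16589424)) (l 16623752)) (b (a (l 16586696) (l 16622128)) (a (l 16610960) (c (l 16622896) (l 16617248))))) (c (b (l 16590088) (a (l 16602984) (l 16615248))) (l 16605544)))) (c (a (b (l 16607896) (l 16583976)) (l 16591288)) (a (l 16587248) (a (c (l 16636064) (b (c (l 16636664) (l 16630672)) (l 16639184))) (c (b (l 16616776) (l 16663928)) (b (l 16627432) (c (l 16629720) (l 16644320)))))))) (c (b (a (c (b (a (c (l 16608864) (l 16602112)) (l 16598392)) (a (l 16632384) (c (l 16622608) (l 16615528)))) (b (l 16617536) (a (c (l 16618896) (l 16613528)) (l 16631632)))) (b (l 16613952) (c (a (l 16611608) (l 16628256)) (l 16628064)))) (a (c (l 16617352) (a (l 16614840) (b (c (l 16632664) (l 16626944)) (l 16634992)))) (c (b (a (c (l 16636608) (l 16629176)) (c (l 16626064) (l 16643328))) (c (l 16637840) (a (l 16655496) (l 16622096))))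 (b (l 16622768) (a (c (l 16625712) (l 16640592)) (l 16637344)))))) (b (l 16599032) (a (c (b (a (c (l 16629808) (l 16646792)) (l 16644624)) (a (l 16636056) (c (l 16643584) (l 16639224)))) (b (l 16644304) (l 16639600))) (l 16626328))))), by decide +kernel⟩

def k79_pp_022 : ∃ t, chk3 f_pp_022 t 134 119 18 = true :=
  ⟨(b (c (a (l 16570832) (c (l 16567520) (b (a (l 16563272) (c (l 16562832) (b (l 16566088) (l 16560632)))) (l 16561248)))) (a (c (l 16541168) (b (a (b (l 16559824) (l 16557328)) (c (b (l 16562472) (l 16557352)) (b (l 16569048) (l 16560376)))) (a (l 16556800) (c (l 16555168) (l 16533136))))) (c (b (a (c (a (l 16559984) (l 16561488)) (b (l 16567144) (l 16560088))) (c (b (l 16573072) (l 16564072)) (l 16577744))) (a (l 16557192) (c (b (l 16558072) (l 16555120)) (b (l 16562120) (l 16545096))))) (b (l 16543696) (a (c (b (l 16536816) (l 16553208)) (b (l 16563712) (a (l 16552408) (l 16556744)))) (c (l 16534488) (l 16575232))))))) (a (l 16564184) (c (l 16564008) (c (l 16554808) (b (a (c (l 16551624) (l 16549992))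 (c (b (a (l 16550672) (l 16553712)) (l 16549152)) (b (l 16558384) (a (l 16547976) (l 16551600))))) (a (l 16549792) (l 16547344))))))), by decide +kernel⟩

def k80_pp_022 : ∃ t, chk3 f_pp_022 t 135 238 18 = true :=
  ⟨(c (a (c (b (a (c (l 16564728) (b (l 16565856) (l 16562008))) (c (b (l 16548744) (l 16563912)) (b (l 16577120) (l 16546808)))) (a (l 16562568) (b (c (l 16561136) (l 16540472)) (l 16559600)))) (b (a (b (l 16555120) (c (l 16542608) (l 16569312))) (l 16587400)) (a (c (l 16558888) (b (a (l 16558320) (l 16562464)) (l 16556448))) (c (b (l 16544944) (a (l 16556664) (l 16559528))) (l 16548920))))) (b (l 16562752) (c (a (c (b (a (l 16561712) (l 16566280)) (l 16559696)) (b (l 16571720) (a (l 16559384) (l 16564552)))) (l 16537232)) (l 16570240)))) (a (b (l 16590264) (c (a (c (b (l 16567704) (a (l 16555888) (l 16560632))) (l 16572224)) (l 16585072)) (l 16597952))) (b (c (l 16616648) (l 16638896)) (l 16603520)))), by decide +kernel⟩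

def k81_pp_022 : ∃ t, chk3 f_pp_022 t 135 239 18 = true :=
  ⟨(c (a (b (c (l 16560736) (a (l 16556112) (c (l 16555016) (b (a (l 16553992) (l 16557440)) (l 16552352))))) (l 16557424)) (c (b (a (c (l 16557448) (b (c (l 16556144) (l 16556792)) (l 16554400))) (c (b (a (l 16557320) (l 16561192)) (l 16555560)) (b (l 16566312) (a (l 16554824) (l 16559280))))) (a (l 16555672) (c (l 16553960) (b (a (l 16551776) (l 16552592)) (l 16550784))))) (b (a (c (b (a (l 16557128) (l 16562888)) (a (l 16531640) (l 16554752))) (b (l 16568824) (a (l 16554952) (l 16561304)))) (l 16555272)) (a (c (l 16530264) (b (a (l 16528816) (l 16531520)) (l 16527400))) (c (b (a (l 16541920) (l 16557440)) (c (l 16528320) (a (l 16547992) (l 16550072)))) (b (l 16563096) (a (c (l 16548352) (l 16550392)) (l 16555656)))))))) (a (c (b (a (c (b (l 16553768) (l 16551416)) (b (a (l 16553528) (l 16558872)) (c (l 16550136) (l 16550864)))) (c (b (l 16562336) (a (l 16551392) (l 16555424))) (l 16545696))) (a (l 16549736) (c (b (l 16549544) (l 16547848)) (b (a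 (l 16548880) (l 16553488)) (a (l 16545640) (l 16546592)))))) (b (a (c (b (l 16564656) (a (l 16551256) (l 16557192))) (l 16569416)) (l 16582688)) (a (c (b (a (l 16525568) (l 16548832)) (l 16524248)) (b (a (l 16549056) (l 16555576)) (a (l 16543688) (l 16525576)))) (c (b (l 16558960) (a (l 16535944) (l 16551608))) (l 16563568))))) (b (l 16578952) (c (a (c (b (a (l 16552856) (l 16559784)) (a (l 16547032) (c (l 16548248) (l 16551040)))) (b (l 16566120) (a (l 16550824) (l 16558320)))) (l 16573384)) (l 16586240))))), by decide +kernel⟩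

def k82_pp_022 : ∃ t, chk3 f_pp_022 t 134 119 19 = true :=
  ⟨(b (c (a (c (b (a (c (b (l 16563336) (l 16556600)) (l 16546272)) (l 16579112)) (a (c (l 16552664) (b (l 16554216) (l 16549960))) (c (b (l 16558336) (l 16552128)) (b (l 16566152) (l 16556360))))) (b (l 16591688) (a (c (b (l 16559728) (l 16530920)) (l 16564024)) (l 16576544)))) (b (l 16597184) (l 16552048))) (a (b (l 16604128) (l 16579640)) (b (l 16599504) (c (l 16606296) (l 16628728))))) (c (a (c (b (a (l 16550232) (c (l 16548848) (b (a (l 16547376) (l 16550008)) (l 16524984)))) (l 16548328)) (b (a (c (l 16546728) (b (a (l 16546392) (l 16550928)) (l 16544320))) (c (b (l 16554440) (a (l 16544584) (l 16547800))) (l 16537536))) (a (l 16543632) (c (l 16542712) (b (a (l 16541864) (l 16545664)) (l 16540064)))))) (c (b (a (c (b (a (l 16549952) (l 16554888)) (l 16547728)) (b (l 16560496) (a (l 16547584) (l 16553112)))) (l 16547024)) (a (a (l 16544592) (c (l 16544336) (b (l 16545192) (l 16541328)))) (c (b (a (l 16545360) (l 16549560)) (l 16543432)) (b (l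 16554848) (a (l 16542824) (l 16547592)))))) (b (l 16559248) (a (c (b (a (l 16545288) (l 16551400)) (a (l 16519384) (l 16542808))) (b (l 16557480) (a (l 16543064) (l 16549752)))) (l 16543936))))) (a (c (b (a (c (b (l 16556360) (a (l 16543928) (l 16549056))) (l 16560952)) (l 16574048)) (a (c (b (l 16541592) (l 16538904)) (b (a (l 16541536) (l 16547248)) (a (l 16516064) (l 16539088)))) (b (l 16535144) (c (a (l 16539232) (l 16543600)) (l 16548968))))) (b (l 16587024) (a (c (b (l 16553184) (a (l 16539216) (l 16545512))) (l 16558000)) (l 16571448)))) (b (l 16592864) (l 16567880))))), by decide +kernel⟩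

def k83_pp_022 : ∃ t, chk3 f_pp_022 t 135 119 19 = true :=
  ⟨(c (b (a (b (c (l 16623624) (l 16624960)) (a (l 16601056) (l 16619944))) (c (l 16607192) (b (a (l 16649504) (c (l 16639992) (l 16633512))) (l 16638112)))) (a (b (l 16585896) (b (l 16567216) (a (c (c (a (l 16546928) (l 16554024)) (l 16560416)) (l 16577344)) (l 16585168)))) (b (c (l 16612616) (l 16635128)) (l 16599104)))) (a (b (a (c (l 16625816) (b (c (l 16644008) (l 16637248)) (l 16635776))) (c (b (l 16647728) (l 16653592)) (b (l 16633560) (c (l 16648208) (l 16651392))))) (b (c (l 16619648) (l 16621072)) (l 16606136))) (b (c (a (b (c (l 16636632) (l 16652856)) (l 16654848)) (b (l 16649576) (c (c (l 16651936) (l 16648408)) (l 16644768)))) (a (b (l 16671424) (c (l 16648376) (l 16665744))) (l 16653304))) (b (c (a (l 16648176) (c (l 16661768) (a (l 16667752) (l 16656000)))) (a (c (l 16643224) (b (l 16677056) (l 16668608))) (c (b (l 16675064) (l 16656016)) (l 16675832)))) (c (l 16633584) (a (l 16646240) (c (l 16640464) (b (l 16655704) (l 16667720))))))))),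 by decide +kernel⟩

def k84_pp_022 : ∃ t, chk3 f_pp_022 t 66 58 5 = true :=
  ⟨(c (c (b (a (c (b (l 16537400) (a (c (b (a (l 16553344) (l 16548608)) (l 16530992)) (b (l 16547112) (l 16542232))) (l 16512232))) (l 16544056)) (l 16538840)) (a (c (b (b (a (c (l 16576992) (a (l 16564888) (l 16578592))) (c (a (l 16561296) (l 16575920)) (l 16574144))) (a (l 16575368) (c (a (l 16585736) (l 16575168)) (a (l 16572264) (l 16587824))))) (c (l 16572952) (a (l 16607920) (b (a (l 16595216) (l 16585552)) (l 16595416))))) (a (b (c (b (l 16575552) (a (l 16575272) (l 16590576))) (l 16581312)) (b (c (l 16575512) (a (l 16586472) (l 16603224))) (a (l 16599296) (c (l 16616336) (l 16601704))))) (b (l 16579496) (c (b (l 16582312) (a (l 16584248) (l 16596688))) (l 16587216))))) (c (b (b (l 16568936) (l 16562936)) (a (c (b (a (l 16588072) (l 16600976)) (a (l 16613544) (l 16601168))) (b (l 16599200) (a (l 16598488) (l 16612952)))) (b (l 16595432) (l 16579824)))) (l 16588056)))) (b (l 16516944) (a (b (l 16577680) (a (c (c (b (l 16601904)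 (l 16576736)) (l 16608536)) (l 16607384)) (l 16604856))) (l 16584776)))) (a (b (l 16535400) (l 16585928)) (b (b (l 16514984) (l 16510648)) (c (l 16579952) (l 16548992))))), by decide +kernel⟩

def k85_pp_022 : ∃ t, chk3 f_pp_022 t 67 58 5 = true :=
  ⟨(a (b (b (a (c (l 16522448) (l 16479032)) (c (a (b (l 16514952) (l 16521408)) (l 16492144)) (b (l 16480288) (l 16487032)))) (a (c (l 16539136) (l 16516704)) (c (c (l 16537648) (l 16508240)) (l 16501496)))) (c (l 16525032) (l 16509088))) (c (b (b (l 16493408) (a (b (c (l 16502400) (l 16507960)) (a (l 16533432) (l 16505960))) (l 16506448))) (a (b (c (l 16559504) (l 16544136)) (l 16558824)) (b (a (b (l 16513336) (l 16549160)) (l 16491072)) (l 16545752)))) (b (c (b (l 16465240) (a (b (l 16487384) (l 16501888)) (l 16475984))) (a (b (c (l 16459248) (a (l 16456560) (l 16457712))) (c (b (l 16471824) (l 16486328)) (a (b (c (l 16468800) (l 16467808)) (l 16462304)) (c (b (l 16464736) (l 16479728)) (l 16481792))))) (c (a (c (l 16457688) (l 16417264)) (b (l 16452600) (l 16473008)))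 (l 16483688)))) (c (b (a (l 16523576) (a (l 16469112) (b (l 16494616) (l 16489256)))) (l 16502384)) (a (c (l 16522320) (a (l 16497880) (a (l 16497928) (b (l 16508488) (l 16537272))))) (a (c (b (a (b (l 16492152) (l 16506736)) (b (l 16491720) (l 16485848))) (l 16529368)) (b (l 16497160) (l 16547400))) (a (b (b (l 16507280) (b (l 16498192) (l 16505784))) (l 16523896)) (b (l 16520536) (l 16529984))))))))), by decide +kernel⟩

def k86_pp_022 : ∃ t, chk3 f_pp_022 t 66 118 5 = true :=
  ⟨(a (c (a (b (c (c (l 16544392) (l 16566248)) (c (c (a (l 16593160) (b (l 16613336) (l 16615192))) (b (l 16610432) (a (l 14) (l 16625448)))) (l 16615688))) (l 14)) (c (c (b (l 16578800) (b (l 16585056) (a (l 14) (l 16590528)))) (b (c (b (c (l 16608432) (l 16600032)) (l 16620384)) (b (a (l 16594744) (l 16629560)) (c (l 16617760) (l 16610312)))) (l 16574456))) (c (b (c (b (l 16628352) (a (l 16626832) (l 16642208))) (l 16634440)) (c (b (a (l 16629288) (l 16619264)) (l 16615648)) (b (l 16616296) (a (l 14) (l 16652128))))) (l 16606000))))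 (l 16623320)) (a (c (c (c (c (l 16559472) (b (a (l 16595304) (b (l 16590664) (l 16615248))) (l 16599880))) (b (c (b (l 16587048) (a (l 16611240) (l 16622864))) (l 16612752)) (c (b (l 16611072) (l 16610136)) (a (b (l 16621696) (l 16643512)) (b (l 16634832) (l 16635528)))))) (b (l 16630112) (c (b (l 16632608) (c (a (l 16632896) (l 16647520)) (l 16667696))) (l 16658656)))) (l 16595568)) (c (c (c (b (c (b (a (l 16593512) (l 16605800)) (c (l 16617944) (l 16609416))) (b (l 16624616) (a (l 16604040) (l 16617848)))) (b (c (l 16626976) (a (l 16629224) (c (l 16640768) (l 16634504)))) (l 16592936))) (b (l 16629632) (c (b (a (l 16615304) (l 16651592)) (a (l 16636192) (c (l 16630432) (l 16646504)))) (b (l 16651096) (l 16625864))))) (l 16620136)) (l 16587272)))), by decide +kernel⟩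

def k87_pp_022 : ∃ t, chk3 f_pp_022 t 66 119 5 = true :=
  ⟨(a (l 14) (c (a (b (a (b (c (c (l 16584888) (l 16608608)) (c (c (l 16619752) (l 16632600)) (l 16679240))) (l 14)) (c (c (l 16549592) (l 16594144)) (c (c (b (c (l 16631304) (l 16657840)) (l 16614672)) (b (l 16681880) (c (l 16647976) (l 16652184)))) (l 16679520)))) (l 14)) (b (c (c (b (l 16611088) (l 16586576)) (c (b (l 16601352) (l 16620304)) (b (a (a (l 16630040) (l 16636768)) (l 16640944)) (a (l 16633144) (c (l 16645888) (l 16632664)))))) (c (c (b (l 16659824) (a (c (l 16647496) (l 16653480)) (l 16659216))) (l 16663352)) (l 16685048))) (a (b (a (l 14) (c (l 16579496) (c (c (l 16635040) (l 16647944)) (l 16672656)))) (l 14)) (c (c (l 16518464) (b (l 16616376) (l 16612408))) (c (c (b (c (l 16642544) (l 16648976)) (l 16624960)) (b (l 16673960) (a (l 14) (l 16643456)))) (l 16671800)))))) (c (l 16635192) (l 16624656)))), by decide +kernel⟩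

def k88_pp_022 : ∃ t, chk3 f_pp_022 t 67 118 10 = true :=
  ⟨(c (a (c (b (a (c (b (l 16621184) (a (l 16619000) (l 16634992))) (l 16627376)) (l 16624240)) (a (c (b (a (l 16620848) (l 16611448)) (c (l 16634872) (l 16637312))) (b (l 16629800) (a (a (l 16633256) (l 16628200)) (l 16644512)))) (c (b (l 16647088) (a (c (l 16626464) (l 16642808)) (l 16661296))) (l 16653272)))) (l 16586456)) (l 16562560)) (a (l 16590840) (l 16587656))), by decide +kernel⟩

def k89_pp_022 : ∃ t, chk3 f_pp_022 t 67 119 20 = true :=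
  ⟨(a (b (c (a (b (c (l 16616680) (a (l 16629192) (b (l 16638552) (l 16640464)))) (l 16603392)) (c (b (a (l 16642920) (c (l 16640496) (l 16656440))) (a (l 16641736) (l 16638056))) (b (a (l 16637200) (l 16674888)) (a (b (l 16644824) (l 16635592)) (b (l 16666288) (l 16669184)))))) (a (c (b (a (c (l 16642752) (l 16660144)) (l 16657312)) (a (l 16626416) (c (l 16638080) (l 16664784)))) (a (b (l 16678328) (b (l 16664624) (l 16657872))) (l 16663168))) (l 16640440))) (c (a (b (l 16599864) (l 16574848)) (b (c (l 16626704) (a (l 16639640) (c (l 16652480) (l 16649936)))) (a (l 16603600) (l 16622744)))) (a (c (b (l 16611960) (l 16608888)) (b (a (c (l 16640672) (l 16627904)) (c (l 16633848) (l 16659232))) (a (l 16642992) (b (l 16634152) (l 16634360))))) (c (b (a (c (l 16633248) (l 16660392)) (l 16666232)) (a (l 16615952) (c (l 16628232) (b (l 16660400) (l 16652808))))) (b (l 16666368) (a (c (b (l 16655144) (l 16646568)) (l 16654952)) (l 16660104))))))) (b (a (c (c (b (l 16652752) (a (c (l 16649528) (l 16670312)) (l 16667440)))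 (l 16658472)) (l 16654008)) (l 16644552)) (c (a (c (b (a (l 16633024) (c (l 16644808) (l 16650720))) (c (l 16634488) (l 16623984))) (b (a (c (l 16661000) (l 16670392)) (l 16675808)) (a (c (l 16647192) (b (l 16660968) (l 16651696))) (c (b (l 16666696) (l 16658416)) (l 16667064))))) (c (b (a (a (l 16676592) (l 16677464)) (l 16692328)) (a (c (a (l 16657840) (l 16645728)) (a (l 16655680) (l 16674032))) (b (l 16683192) (l 16668008)))) (l 16657304))) (a (a (b (l 16694648) (c (c (l 16661232) (l 16685152)) (l 16687472))) (l 16678056)) (l 16670424))))), by decide +kernel⟩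

def k90_pp_022 : ∃ t, chk3 f_pp_022 t 67 119 21 = true :=
  ⟨(c (a (a (b (l 16683416) (c (b (a (l 16655000) (l 16682096)) (a (c (l 16637408) (b (l 16649032) (l 16641144))) (c (l 16649824) (l 16673888)))) (l 16655448))) (l 16651904)) (l 16632008)) (a (l 16649416) (l 16621800))), by decide +kernel⟩

def k91_pp_022 : ∃ t, chk3 f_pp_022 t 67 59 11 = true :=
  ⟨(c (b (a (l 16577456) (l 16546280)) (a (l 16616856) (a (l 16614512) (l 16598464)))) (a (b (l 16578976) (l 16618408)) (a (c (l 16526720) (c (a (l 16564912) (b (l 16553408) (a (l 16611880) (l 16613768)))) (b (a (l 16555016) (l 16584232)) (a (l 16594416) (l 16623760))))) (b (c (a (c (l 16571304) (l 16551992)) (l 16515392)) (l 16577984)) (c (a (c (l 16631544) (a (l 16609984) (l 16612872))) (b (l 16581456) (l 16614776))) (b (l 16623288) (l 16633168))))))), by decide +kernel⟩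

def k92_pp_022 : ∃ t, chk3 f_pp_022 t 32 28 6 = true :=
  ⟨(a (b (l 16463360) (b (l 16492168) (l 16512496))) (a (b (b (a (l 16453344) (b (l 16400640) (l 16453616))) (l 16468648)) (c (l 16503992) (l 16475224))) (b (c (b (a (l 16448008) (l 16438720)) (a (l 16471272) (b (l 16460184) (l 16471816)))) (b (a (l 16411520) (c (l 16424784) (l 16412744))) (a (l 16455776) (c (l 16409840) (c (l 16416496) (b (l 16390592) (l 16444136))))))) (c (l 16498648) (c (l 16487496) (a (l 16479944) (c (l 16468792) (l 16448448)))))))), by decide +kernel⟩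

def k93_pp_022 : ∃ t, chk3 f_pp_022 t 32 28 7 = true :=
  ⟨(a (a (c (b (l 16460760) (l 16499744)) (c (b (l 16458000) (a (l 16498504) (l 16496576))) (c (a (l 16456320) (a (c (l 16474872) (l 16432432)) (b (l 16453848) (l 16493136)))) (a (a (b (l 16416560) (b (l 16445536) (l 14))) (b (l 16458864) (l 16477112))) (l 16475072))))) (c (c (l 16436848) (a (l 16455624) (b (l 16452448) (l 16449920)))) (c (c (a (b (l 16453144) (l 16492456)) (b (l 16427848) (b (l 16478040) (l 16456712)))) (a (b (l 16410176) (a (l 16469528) (l 16490160))) (l 16472640))) (l 16472816)))) (c (a (c (b (b (a (l 16441096) (c (l 16431440) (b (l 16422064) (l 16433112)))) (l 16416064)) (c (l 16487104) (a (l 16487240) (l 16477344)))) (c (b (a (l 16442520) (b (a (l 16410648) (l 16437416)) (l 16452664))) (a (l 16481944) (a (l 16460016) (l 16488112)))) (b (b (a (l 16436448) (l 16440136)) (l 16414472)) (a (b (l 16475112) (l 16474800)) (l 16490648))))) (b (c (b (a (c (b (l 16413032) (l 16426936)) (a (b (l 16419816) (l 16433416)) (l 16432456))) (c (l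 16419736) (l 16429680))) (a (c (l 16443112) (a (l 16448576) (l 16456808))) (c (a (c (l 16443608) (l 16454640)) (b (l 16448280) (l 16460640))) (l 16456936)))) (b (l 16432072) (l 16436368))) (c (c (a (l 16473168) (a (l 16455800) (l 16486208))) (a (a (l 16457696) (l 16487136)) (l 16488680))) (l 16488752)))) (b (b (a (l 16440104) (l 16430672)) (a (l 16460088) (l 16435088))) (l 16488896)))), by decide +kernel⟩

def k94_pp_022 : ∃ t, chk3 f_pp_022 t 32 29 3 = true :=
  ⟨(b (a (a (l 14) (b (b (a (l 14) (a (l 14) (c (l 16529392) (c (l 16499344) (l 16493296))))) (l 14)) (l 14))) (c (c (b (a (l 16538632) (l 16533504)) (a (l 16589184) (l 16563240))) (a (b (l 16489000) (l 16539872)) (c (b (l 16522368) (l 16552288)) (a (l 16477152) (c (l 16465936) (b (a (l 16500632) (l 16504144)) (l 16513320))))))) (c (a (a (b (c (l 16524672) (c (l 16495696) (a (c (l 16515744) (l 16523296)) (l 16524040)))) (l 14)) (c (c (l 16499680) (b (l 16491120) (l 16542208))) (c (b (a (c (l 16512784) (l 16522352)) (l 16523112)) (a (l 14) (l 16574416)))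 (l 16530264)))) (c (c (a (b (a (l 16505400) (l 16506864)) (l 16517056)) (b (c (a (l 16509192) (l 16520168)) (l 16521576)) (c (l 16500064) (l 16572872)))) (a (b (a (c (l 16510600) (l 16521448)) (l 16522216)) (a (l 16501808) (l 16573520))) (l 16528456))) (l 16507616))) (b (l 16524136) (l 16575824))))) (b (a (l 14) (a (l 14) (a (l 14) (a (l 14) (a (l 14) (c (c (l 16618984) (c (l 16622776) (c (l 16606968) (l 16594592)))) (l 16591832))))))) (l 14))), by decide +kernel⟩

def k95_pp_022 : ∃ t, chk3 f_pp_022 t 66 28 6 = true :=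
  ⟨(c (b (a (b (l 16417264) (a (b (l 16448672) (l 16462832)) (l 16440656))) (c (l 16406672) (a (l 16398240) (c (l 16384464) (l 16394848))))) (a (b (a (l 16479784) (b (l 16441360) (l 16474352))) (l 16494248)) (a (b (a (l 16414656) (c (l 16457032) (l 16438168))) (c (l 16486472) (b (l 16441056) (l 16472704)))) (b (c (l 16441504) (c (l 16429640) (l 16440256))) (c (b (l 16463208) (l 16475464)) (b (c (a (l 16452576) (l 16448008)) (a (b (l 16453472) (l 16459872)) (l 16466352))) (c (a (l 16464016) (l 16460776)) (l 16432408)))))))) (b (a (c (a (b (l 16404272) (l 16412680)) (c (l 16403704) (l 16409216))) (a (a (b (l 16386000) (c (l 16386568) (l 16423960))) (c (l 16416856) (l 16434720))) (c (l 16425392) (l 16432320)))) (c (a (c (l 16401736) (l 16419576)) (c (l 16393032) (l 16420824))) (l 16423088))) (a (c (a (b (l 16457688) (l 16478448)) (b (b (c (l 16440232) (a (l 16441704) (l 16447352))) (c (l 16452200) (l 16436912))) (c (l 16467888) (l 16473648)))) (c (a (a (l 16461656) (b (l 16456672) (l 16477504))) (b (b (a (l 16461104)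 (l 16466320)) (l 16453432)) (l 16490304))) (a (b (l 16428208) (l 16491104)) (b (l 16454200) (l 16497496))))) (b (c (a (c (a (b (l 16434672) (l 16427744)) (l 16449064)) (b (l 16457424) (a (l 16449584) (l 16475912)))) (c (l 16459752) (l 16466752))) (l 16468608)) (c (a (c (a (l 16465280) (l 16474592)) (a (l 16487312) (l 16473240))) (a (b (c (l 16438424) (l 16489968)) (l 16474824)) (b (l 16486656) (l 16478688)))) (b (a (l 16491032) (l 16488192)) (l 16501272))))))), by decide +kernel⟩

def k96_pp_022 : ∃ t, chk3 f_pp_022 t 67 28 6 = true :=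
  ⟨(c (b (a (c (a (c (l 16380672) (l 16375752)) (c (l 16325704) (l 16382824))) (a (c (l 16388552) (l 16387688)) (c (l 16361608) (l 16410272)))) (c (a (c (l 16377672) (l 16356728)) (c (b (l 16377960) (l 16409856)) (l 16400640))) (l 16402384))) (c (a (a (b (l 16403752) (b (l 16447104) (a (l 16441808) (a (l 16457568) (l 16455736))))) (c (b (l 16413512) (l 16401584)) (l 16444216))) (a (c (l 16439568) (b (l 16445592) (l 16434376))) (c (a (l 16413672) (l 16418744)) (l 16463784)))) (a (a (c (b (l 16434336) (b (l 16456840) (a (b (l 16462104) (l 16468528)) (l 16476664)))) (b (l 16454808) (b (l 16477504) (a (c (l 16485632) (l 16475704)) (l 16496184))))) (c (b (l 16450088) (l 16459592)) (l 16472400))) (l 16465384)))) (b (l 16406056) (b (l 16453200) (a (b (l 16481336) (a (l 16498440) (l 16494104))) (l 16479448))))), by decide +kernel⟩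

def k97_pp_022 : ∃ t, chk3 f_pp_022 t 33 28 7 = true :=
  ⟨(b (a (b (l 16411128) (a (a (l 16451264) (l 16445336)) (l 16435976))) (l 16402688)) (a (b (a (a (l 16475752) (b (l 16467432) (l 16479680))) (b (l 16459048) (l 16473920))) (a (l 16496240) (b (a (l 16489024) (l 16486128)) (l 16499328)))) (b (l 16450304) (a (b (l 16478752) (a (l 16496032) (l 16491600))) (l 16476728))))), by decide +kernel⟩

def k98_pp_022 : ∃ t, chk3 f_pp_022 t 132 29 3 = true :=
  ⟨(b (c (c (b (b (l 16510424) (l 16527064)) (l 16527528)) (c (a (b (l 16502832) (l 16553688)) (c (b (l 16492256) (l 16543056)) (b (a (l 16471816) (l 16500328)) (l 16486136)))) (c (a (b (b (l 16492664) (l 16488352)) (a (l 16547344) (l 16552976))) (b (b (l 16506600) (l 16502400)) (a (l 16542872) (l 16550096)))) (a (b (b (l 16507360) (l 16503144)) (l 16504008)) (l 16526824))))) (b (l 16521128) (l 16572888))) (b (c (c (c (l 16593848) (l 16581000)) (c (a (l 16591496) (c (l 16580800) (a (l 16560544) (l 16589288)))) (a (b (c (l 16554008) (l 16569176)) (l 14)) (c (a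 (l 16581024) (l 16588368)) (l 16633000))))) (l 16611736)) (l 14))), by decide +kernel⟩

def k99_pp_022 : ∃ t, chk3 f_pp_022 t 133 29 3 = true :=
  ⟨(c (c (c (b (b (l 16502800) (l 16553496)) (b (l 16591096) (l 16609728))) (b (a (b (c (l 16495448) (l 16445320)) (l 16500584)) (c (b (b (l 16474432) (l 16491032)) (a (l 16533760) (l 16509688))) (b (a (l 16466176) (l 16498576)) (l 16502576)))) (a (c (l 16572008) (b (l 16554720) (a (l 16638136) (l 16612064)))) (b (c (a (l 16592328) (l 16547304)) (a (l 16554744) (l 16608432))) (c (a (l 16631928) (c (l 16626504) (l 16607768))) (a (c (l 16609272) (l 16640904)) (l 16627384))))))) (b (c (c (a (b (a (l 16468728) (l 16499216)) (l 16504640)) (b (b (l 16505200) (l 16480064)) (a (l 16541480) (l 16548664)))) (a (b (a (l 16491000) (l 16498088)) (a (l 16542152) (l 16549360))) (l 16504376))) (b (l 16520776) (l 16572240))) (c (a (c (b (a (l 16557368) (l 16588144)) (a (c (l 16612880) (l 16620920)) (l 16628096))) (a (b (l 16580280) (l 16620432)) (b (l 16587600) (l 16641776)))) (c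 (a (b (l 16579584) (b (l 16625192) (l 16644664))) (b (l 16586880) (b (l 16632584) (l 16638968)))) (l 16599024))) (l 16599288)))) (b (b (l 16518976) (l 16570912)) (b (l 16630912) (l 16660880)))), by decide +kernel⟩

def k100_pp_022 : ∃ t, chk3 f_pp_022 t 67 58 6 = true :=
  ⟨(c (a (c (b (a (c (l 16462448) (a (l 16477600) (b (a (l 16466376) (l 16467760)) (l 16484824)))) (b (c (a (b (l 16460656) (l 16467056)) (a (l 16440504) (l 16463384))) (a (b (l 16471552) (l 16477984)) (l 16487312))) (c (a (l 16481000) (a (l 16479488) (l 16440192))) (l 16478104)))) (a (c (l 16534072) (a (l 16528224) (l 16506192))) (c (a (l 16523264) (l 16482264)) (l 16520632)))) (b (a (a (c (l 16485128) (l 16468728)) (c (l 16477008) (b (l 16509240) (l 16526176)))) (b (c (a (b (l 16497880) (l 16504384)) (l 16485872)) (l 16509648)) (c (a (l 16518520) (c (l 16503384) (l 16527944))) (l 16527920)))) (c (a (l 16521888) (a (l 16540248) (l 16547392))) (a (a (l 16540840) (l 16548008)) (l 16570832))))) (c (b (a (c (b (l 16477192) (b (l 16489880) (l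 16462544))) (b (l 16478056) (a (b (c (l 16505440) (l 16516480)) (l 16503720)) (c (b (l 16514688) (l 16529864)) (l 16525808))))) (c (b (a (l 16493768) (l 16499112)) (a (l 16514368) (l 16519824))) (l 16512592))) (a (c (l 16498784) (a (l 16518720) (a (l 16546416) (l 16527480)))) (b (c (a (b (c (l 16532904) (l 16522992)) (l 16510912)) (a (c (l 16528472) (l 16554280)) (l 16552800))) (b (l 16546536) (l 16561968))) (c (a (l 16553712) (c (l 16559656) (l 16584256))) (l 16584264))))) (b (b (l 16503704) (a (b (l 16518728) (l 16533472)) (l 16522368))) (b (a (l 16555536) (b (l 16546040) (l 16561512))) (l 16584280))))) (b (a (b (a (l 16511056) (l 16508680)) (l 16527512)) (b (l 16502480) (a (b (l 16517584) (l 16532416)) (l 16521224)))) (a (l 16570576) (b (a (l 16554600) (b (l 16545040) (l 16560600))) (l 16583512))))), by decide +kernel⟩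

def k101_pp_022 : ∃ t, chk3 f_pp_022 t 67 58 7 = true :=
  ⟨(b (a (b (a (l 16508760) (l 16506312)) (l 16525376)) (b (l 16499992) (a (b (l 16515272) (l 16530272)) (l 16518920)))) (a (l 16568928) (b (a (l 16552712) (b (l 16543008) (l 16558752))) (l 16581928)))), by decide +kernel⟩

def k102_pp_022 : ∃ t, chk3 f_pp_022 t 67 59 3 = true :=
  ⟨(c (c (c (c (a (a (l 16559656) (b (a (l 16560720) (c (l 16577784) (l 16585096))) (a (l 16600168) (c (l 16596240) (l 16624656))))) (a (b (l 16578496) (l 16618240)) (c (b (a (l 16614112) (l 16604160)) (a (l 16633064) (l 16644240))) (a (b (l 16604432) (l 16644528)) (l 16596296))))) (a (b (a (a (l 16586728) (c (l 16581968) (l 16586712))) (l 16558408)) (a (a (l 16626248) (c (l 16621464) (l 16605336))) (l 16598184))) (a (b (a (l 16556744) (l 16584960)) (a (c (l 16633616) (l 16645128)) (c (l 16644824) (l 16669608)))) (l 16596376)))) (a (c (b (a (l 16559696) (c (l 16557176) (l 16585720))) (a (a (l 16592384) (l 16626776)) (a (c (l 16634200) (l 16645768)) (c (l 16645448) (l 16670256)))))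 (a (b (c (l 16578760) (l 16586368)) (a (c (l 16634824) (l 16646456)) (c (l 16646104) (l 16670936)))) (l 16597624))) (l 16596552))) (b (l 16608256) (l 16648888))) (b (l 16607264) (c (l 16648712) (l 16648480)))), by decide +kernel⟩

def k103_pp_022 : ∃ t, chk3 f_pp_022 t 34 56 4 = true :=
  ⟨(a (a (c (l 16411232) (b (l 16376760) (l 16408536))) (b (c (a (l 16383880) (b (l 16376304) (l 16380936))) (l 16308872)) (c (l 16386488) (l 16375720)))) (c (b (a (l 16381336) (l 16387336)) (a (a (b (l 16382456) (l 16395600)) (l 16349616)) (l 16381480))) (a (a (b (l 16341016) (l 16350256)) (c (b (l 16353416) (l 16351344)) (b (c (l 16338552) (a (l 16330048) (l 16341072))) (c (l 16336312) (a (b (l 16324992) (l 16330360)) (b (l 16335968) (c (l 16330008) (l 16338048)))))))) (c (a (b (l 16356536) (l 16350056)) (c (b (l 16365264) (l 16359304)) (b (a (l 16359736) (l 16374536)) (a (l 16332584) (l 16368776))))) (a (c (b (a (l 16344584) (l 16357504)) (a (a (l 16313768) (l 16338984)) (l 16351000))) (l 16368048)) (l 16399912)))))), by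 decide +kernel⟩

def k104_pp_022 : ∃ t, chk3 f_pp_022 t 68 57 4 = true :=
  ⟨(c (b (a (b (l 16450432) (c (a (c (c (b (l 16471064) (a (l 16486632) (l 16477464))) (l 16472680)) (l 16470608)) (l 16464896)) (l 16463704))) (c (l 16445976) (l 16434704))) (c (a (c (a (b (c (b (l 16456416) (l 16516648)) (b (a (l 16490144) (l 16482696)) (a (l 16505784) (l 16494464)))) (l 16476000)) (b (c (b (l 16479704) (a (l 16495368) (l 16486256))) (l 16481320)) (c (b (a (l 16512976) (l 16478968)) (l 16526000)) (b (a (l 16477936) (l 16491480)) (a (l 16514864) (l 16472016)))))) (b (a (c (l 16467048) (l 16485392)) (l 16479232)) (a (c (b (a (l 16508360) (l 16498720)) (a (l 16526432) (l 16491864))) (b (l 16497504) (a (l 16490680) (l 16503688)))) (c (b (l 16491352) (l 16479992)) (l 16494032))))) (a (b (l 16473824) (c (c (b (l 16467792) (a (l 16473184) (l 16495480))) (l 16490344)) (l 16488192))) (l 16473672))) (a (l 16486840) (l 16445072)))) (a (b (c (l 16447976) (l 16433960)) (c (l 16478896) (l 16464848))) (b (l 16407424) (l 16438672)))),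 by decide +kernel⟩

def k105_pp_022 : ∃ t, chk3 f_pp_022 t 69 57 4 = true :=
  ⟨(c (b (a (l 16389816) (b (a (l 16380224) (l 16377152)) (a (l 16392728) (l 16379208)))) (a (c (l 16452264) (l 16432840)) (l 16387056))) (a (c (b (l 16381224) (l 16412808)) (a (l 16364888) (c (l 16373112) (c (a (l 16369928) (b (l 16349560) (l 16381208))) (a (b (l 16352256) (l 16383800)) (l 16373664)))))) (c (a (b (b (l 16350408) (l 16362832)) (l 16386648)) (b (c (b (l 16352912) (a (l 16355528) (b (l 16329512) (l 16331264)))) (a (b (c (l 16323440) (l 16347288)) (c (l 16348696) (a (l 16348544) (l 16352736)))) (b (l 16362360) (b (l 16358768) (l 16339568))))) (c (a (l 16378664) (c (l 16372656) (l 16368904))) (a (c (l 16371808) (a (l 16372392) (l 16375776))) (b (l 16371408) (l 16387360)))))) (a (c (b (a (c (l 16347008) (a (l 16345568) (l 16347424))) (b (b (l 16345688) (l 16326712)) (l 16358616))) (a (c (l 16378288) (a (l 16377248) (l 16378728))) (c (a (l 16374680) (l 16377112)) (l 16387192)))) (b (l 16350952) (l 16401576))) (b (b (l 16390624)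 (l 16392736)) (l 16413312)))))), by decide +kernel⟩

def k106_pp_022 : ∃ t, chk3 f_pp_022 t 68 28 5 = true :=
  ⟨(a (c (b (a (l 16367064) (b (l 16332584) (l 16343392))) (a (l 16408424) (c (l 16420656) (b (l 16385968) (c (l 16420656) (l 16412248)))))) (c (b (a (c (l 16342528) (a (l 16343080) (l 16347584))) (b (l 16337488) (l 16306584))) (a (c (b (l 16389272) (l 16419880)) (b (l 16351800) (a (l 16420376) (l 16425424)))) (c (b (l 16346368) (a (l 16414472) (l 16421504))) (l 16428056)))) (b (a (c (l 16368752) (b (l 16373408) (l 16405560))) (c (b (l 16369080) (l 16401480)) (l 16391912))) (a (c (l 16431648) (b (l 16416296) (a (l 16467104) (l 16472352)))) (c (b (l 16391488) (a (l 16463480) (l 16468800))) (l 16456056)))))) (c (a (b (c (l 16318952) (c (b (a (l 16312512) (l 16308928)) (l 16342680)) (b (a (l 16314832) (l 16324824)) (l 16351792)))) (c (l 16402008) (c (a (l 16391320) (b (l 16370656) (c (l 16400160) (l 16401160)))) (a (b (l 16378224) (l 16409256)) (l 16402720))))) (b (c (b (c (l 16318952) (a (l 16309744)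 (b (l 16311744) (l 16312296)))) (c (l 16341296) (l 16314824))) (b (b (l 16334416) (l 16317920)) (l 16360552))) (c (c (l 16388720) (a (l 16362416) (b (l 16364624) (c (l 16392936) (l 16396368))))) (b (l 16350648) (c (l 16365968) (l 16437264)))))) (b (c (a (c (l 16361768) (b (a (l 16363888) (l 16370360)) (l 16397616))) (b (c (a (l 16365656) (l 16376616)) (l 16377368)) (c (l 16373008) (l 16400464)))) (b (l 16376136) (l 16401680))) (c (a (c (l 16424680) (b (a (l 16428440) (l 16433608)) (a (l 16460072) (l 16465456)))) (c (b (a (l 16425000) (l 16430232)) (a (l 16456880) (l 16462328))) (l 16449192))) (l 16450312))))), by decide +kernel⟩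

def k107_pp_022 : ∃ t, chk3 f_pp_022 t 69 28 5 = true :=
  ⟨(c (a (b (c (a (b (c (a (l 16316424) (l 16325240)) (l 16336112)) (c (a (l 16328832) (b (l 16323312) (l 16335320))) (a (l 16337704) (l 16351192)))) (b (l 16366648) (b (l 16361840) (l 16364928)))) (b (a (c (l 16362640) (a (l 16376440) (l 16391608))) (c (l 16400344) (l 16406728))) (a (c (l 16372128) (a (l 16389472) (c (l 16395768) (l 16398984)))) (c (a (b (l 16389088) (l 16394776)) (c (l 16403664) (l 16406872))) (l 16405048))))) (c (a (c (a (b (l 16360376) (l 16391728)) (b (c (l 16355176) (l 16360936)) (c (l 16386624) (l 16392464)))) (b (l 16375368) (l 16407000))) (b (l 16385888) (l 16417920))) (a (c (l 16418560) (b (a (l 16421776) (l 16427080)) (a (l 16432928) (l 16459408)))) (c (b (a (l 16418760) (l 16424128)) (a (l 16409176) (l 16435728))) (l 16443176))))) (b (c (a (c (l 16395144) (b (l 16418120) (a (l 16405304) (l 16421152)))) (c (b (l 16415080) (a (l 16423800) (l 16439864))) (l 16440048))) (l 16430416)) (c (b (a (c (l 16399408) (a (c (l 16411848)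 (l 16422144)) (b (c (l 16416936) (l 16420160)) (l 16429624)))) (c (a (b (l 16417736) (c (l 16417840) (l 16428120))) (c (b (l 16432872) (l 16431160)) (l 16435648))) (l 16433552))) (a (c (l 16429376) (a (c (l 16443936) (l 16454368)) (c (l 16453144) (l 16456440)))) (c (a (c (l 16441592) (l 16451968)) (c (l 16450848) (l 16454120))) (l 16454416)))) (b (b (l 16425824) (l 16432872)) (l 16455040))))) (b (b (l 16414056) (a (l 16381608) (l 16425592))) (b (a (l 16427128) (b (l 16424080) (l 16431144))) (l 16456472)))), by decide +kernel⟩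

def k108_pp_022 : ∃ t, chk3 f_pp_022 t 136 116 8 = true :=
  ⟨(c (b (c (a (l 16560552) (b (l 16495888) (l 16558824))) (a (c (l 16550344) (b (a (l 16528072) (l 16495144)) (l 16520000))) (c (b (a (l 16496472) (l 16507704)) (a (l 16535968) (c (l 16524992) (l 16517784)))) (b (l 16506264) (a (c (l 16522576) (l 16517000)) (l 16512616)))))) (c (a (l 16568144) (b (l 16561448) (l 16591232))) (a (b (l 16574128) (l 16582848)) (b (c (l 16550952) (a (l 16518200) (c (l 16507984) (l 16502248)))) (l 16528504))))) (b (c (a (c (b (a (l 16515640) (l 16509352)) (a (l 16509424) (l 16499104))) (l 16514392)) (l 16507672)) (l 16508544)) (c (a (c (b (a (l 16551048) (c (l 16539760) (l 16511080))) (l 16572096)) (b (a (b (l 16528952) (l 16539544)) (l 16526288)) (a (l 16560016) (c (l 16549424) (l 16543176))))) (c (b (a (c (l 16506456) (l 16523328)) (l 16519760)) (a (l 16507112) (c (l 16518792) (l 16535488)))) (b (l 16519976) (l 16515480)))) (a (c (b (l 16525520) (a (c (l 16547648) (l 16543056)) (l 16539176))) (l 16531672)) (l 16525848))))),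 by decide +kernel⟩

def k109_pp_022 : ∃ t, chk3 f_pp_022 t 137 116 8 = true :=
  ⟨(c (b (c (a (c (b (a (l 16522640) (c (l 16511992) (l 16505272))) (l 16536000)) (b (a (c (l 16509816) (l 16504720)) (l 16500664)) (a (l 16524528) (c (l 16514696) (l 16509456))))) (c (b (a (l 16479288) (l 16494976)) (a (c (l 16517048) (l 16510176)) (c (l 16506080) (l 16502800)))) (a (l 16501360) (l 16497520)))) (a (c (b (l 16500352) (a (c (l 16513408) (l 16509800)) (l 16506512))) (l 16503008)) (l 16495176))) (c (a (b (b (l 16500736) (l 16555920)) (l 16578568)) (c (b (a (l 16534528) (b (c (l 16517080) (l 16510856)) (l 16526136))) (l 16555800)) (b (a (b (l 16492688) (l 16502920)) (c (l 16512368) (l 16510336))) (a (l 16522984) (c (l 16513056) (a (l 16529736) (l 16525560))))))) (a (c (b (a (c (l 16531560) (l 16492728)) (b (l 16513520) (l 16501672))) (a (l 16555320) (c (l 16544288) (l 16515744)))) (b (a (l 16518816) (l 16514520)) (a (b (l 16511864) (l 16523608)) (l 16531136)))) (c (b (l 16510240) (a (c (l 16511400) (l 16528416)) (l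 16523464))) (l 16514776))))) (b (l 16489216) (a (c (b (l 16513640) (l 16529008)) (l 16515424)) (l 16503472)))), by decide +kernel⟩

def k110_pp_022 : ∃ t, chk3 f_pp_022 t 136 117 8 = true :=
  ⟨(c (b (b (l 16554688) (c (a (a (c (l 16595816) (l 16612976)) (l 16600656)) (l 16629400)) (l 16585200))) (a (b (c (a (c (b (a (l 16602576) (l 16605688)) (a (l 16600280) (l 16600648))) (b (l 16595536) (a (l 16582312) (l 16609520)))) (c (a (l 16587432) (l 16593528)) (l 16629184))) (l 16588856)) (c (a (c (l 16599280) (b (a (l 16597624) (l 16580176)) (l 16595896))) (c (b (a (l 16598728) (l 16601496)) (a (l 16596824) (l 16596824))) (b (l 16590896) (a (l 16578040) (l 16583928))))) (a (a (l 16594656) (l 16602544)) (l 16595472)))) (b (l 16584960) (a (c (c (b (l 16590024) (l 16581936)) (l 16624296)) (l 16614616)) (l 16591552))))) (a (b (c (b (l 16550216) (l 16580520)) (c (b (a (l 16549320) (c (l 16539584) (l 16555760))) (l 16549728)) (b (a (l 16537824) (l 16553344)) (a (c (l 16583896) (l 16555920)) (l 16550656))))) (b (a (b (l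 16569872) (l 16584992)) (c (l 16602864) (c (l 16612544) (c (l 16597272) (l 16569040))))) (a (l 16607512) (b (l 16583688) (l 16598944))))) (c (b (c (b (a (l 16576976) (l 16520304)) (l 16599080)) (b (a (a (l 16541328) (l 16535768)) (l 16530280)) (a (l 16586608) (c (l 16575888) (l 16548224))))) (b (l 16577456) (l 16608352))) (b (c (b (l 16550192) (a (c (l 16552712) (l 16568656)) (l 16564712))) (l 16556544)) (c (b (a (l 16575968) (c (l 16566048) (l 16581744))) (l 16576928)) (b (a (c (l 16564696) (l 16582072)) (l 16578800)) (a (b (l 16579776) (l 16592792)) (c (l 16578008) (l 16595056))))))))), by decide +kernel⟩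

def k111_pp_022 : ∃ t, chk3 f_pp_022 t 137 117 8 = true :=
  ⟨(a (c (b (c (b (l 16588152) (l 16597992)) (c (l 16571648) (b (a (l 16565136) (c (l 16533840) (l 16527704))) (l 16566088)))) (l 16581360)) (b (c (c (b (a (c (l 16531912) (l 16548400)) (l 16544704)) (a (l 16533720) (c (l 16545224) (l 16561360)))) (a (b (l 16546296) (c (l 16544168) (l 16562096))) (l 16549816))) (l 16546768)) (c (b (c (a (l 16604440) (c (l 16592992) (l 16542304))) (a (b (l 16558888) (l 16571464)) (c (b (l 16571664) (l 16561456)) (l 16573368)))) (c (l 16605984) (a (l 16593176) (c (l 16581568) (a (l 16576416) (l 16589928)))))) (c (a (b (l 16577240) (c (l 16558536) (b (l 16588568) (l 16578008)))) (b (l 16569688) (l 16565688))) (l 16577008))))) (c (b (c (b (c (l 16586192) (a (l 16573320) (l 16515408))) (l 16585256)) (c (a (b (c (l 16557816) (l 16529064)) (l 16582704)) (b (c (b (l 16538304) (l 16528824)) (l 16539432)) (c (l 16570640) (b (l 16533520) (l 16567120))))) (a (b (c (l 16523744) (l 16541568)) (c (l 16547192) (b (l 16554912) (l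 16545056)))) (b (l 16535032) (c (l 16533480) (l 16549808)))))) (c (b (l 16595296) (l 16626568)) (b (c (l 16583144) (a (l 16570960) (c (l 16557392) (a (l 16551976) (l 16565328))))) (c (l 16614296) (l 16570152))))) (c (b (a (l 16523520) (l 16535536)) (c (b (a (c (b (l 16549976) (l 16583232)) (l 16550280)) (l 16562512)) (a (c (l 16605112) (l 16552680)) (c (a (l 16589520) (l 16559880)) (l 16557704)))) (b (l 16561344) (a (c (a (l 16568488) (l 16582152)) (l 16580976)) (l 16572912))))) (l 16545928)))), by decide +kernel⟩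

def k112_pp_022 : ∃ t, chk3 f_pp_022 t 69 116 8 = true :=
  ⟨(a (b (c (l 16454752) (l 16456256)) (c (c (a (c (b (a (c (b (l 16506944) (l 16516576)) (l 16508232)) (l 16501192)) (a (c (l 16536464) (a (l 16531320) (l 16524608))) (c (b (l 16515120) (l 16526104)) (l 16515760)))) (b (l 16500472) (a (c (l 16501696) (l 16519008)) (l 16511480)))) (l 16493312)) (l 16492048)) (l 16477096))) (b (l 16431688) (l 16410728))), by decide +kernel⟩

def k113_pp_022 : ∃ t, chk3 f_pp_022 t 69 117 32 = true :=
  ⟨(a (b (a (c (a (l 16554776) (b (c (l 16546304) (b (l 16530216) (l 16542312))) (l 16570120))) (b (a (c (b (l 16517224) (l 16551168)) (b (l 16531848) (l 16542456))) (c (l 16509256) (l 16526144))) (a (l 16526216) (c (b (l 16546056) (l 16559296)) (b (l 16539208) (l 16529080)))))) (c (b (a (c (b (l 16522536) (l 16512768)) (l 16523104)) (l 16515136)) (a (c (l 16554280) (b (l 16516856) (l 16550176))) (c (a (l 16508200) (l 16511128)) (l 16530592)))) (b (l 16514360) (a (c (b (l 16532208) (l 16542160)) (l 16533416)) (l 16526000)))))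 (a (b (a (l 16588896) (l 16546896)) (c (l 16600608) (l 16597120))) (c (b (a (l 16578376) (c (l 16562472) (b (a (l 16548888) (l 16541112)) (l 16558256)))) (l 16577208)) (b (a (c (b (l 16532920) (l 16567416)) (b (l 16546736) (l 16536880))) (c (b (l 16539712) (l 16528944)) (l 16540840))) (a (l 16563656) (c (b (l 16540960) (l 16575768)) (b (l 16554448) (a (l 16569432) (l 16561040))))))))) (b (b (l 16491256) (l 16465392)) (a (c (b (a (c (b (l 16516920) (a (l 16553432) (l 16544648))) (b (l 16533208) (l 16542512))) (l 16530232)) (a (c (l 16570888) (a (l 16543536) (b (l 16548984) (l 16561152)))) (c (b (a (l 16548696) (l 16541800)) (a (l 16561848) (l 16552792))) (b (l 16540832) (a (l 16552992) (l 16546856)))))) (b (l 16529208) (a (c (b (l 16547376) (a (l 16560880) (l 16553616))) (l 16548416)) (l 16541008)))) (b (l 16514880) (a (b (l 16531088) (l 16518480)) (l 16526784)))))), by decide +kernel⟩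

def k114_pp_022 : ∃ t, chk3 f_pp_022 t 69 117 33 = true :=
  ⟨(a (b (a (c (b (l 16526976) (a (c (b (l 16546736) (l 16558472)) (l 16547008)) (l 16538664))) (l 16529784)) (l 16514896)) (a (c (b (a (c (l 16579680) (b (l 16541408) (l 16575288))) (c (a (l 16543416) (l 16535304)) (l 16533480))) (a (l 16604184) (c (l 16587888) (b (l 16549200) (l 16583392))))) (b (a (c (a (l 16543712) (l 16557936)) (l 16557024)) (l 16549312)) (a (c (l 16565344) (b (l 16570920) (l 16561632))) (c (b (l 16563504) (l 16553304)) (l 16564392))))) (c (b (l 16541664) (a (c (b (l 16541072) (l 16553384)) (b (l 16556616) (l 16545512))) (l 16532656))) (l 16544360)))) (l 16463384)), by decide +kernel⟩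

def k115_pp_022 : ∃ t, chk3 f_pp_022 t 69 117 17 = true :=
  ⟨(a (b (l 16508616) (a (b (l 16541240) (c (a (l 16546160) (l 16557840)) (l 16552224))) (l 16531896))) (l 16427416)), by decide +kernel⟩

def k116_pp_022 : ∃ t, chk3 f_pp_022 t 34 116 9 = true :=
  ⟨(a (a (b (c (l 16501752) (l 16487688)) (c (l 16501272) (l 16508192))) (b (l 16461768) (l 16482440))) (a (c (b (l 16436152) (l 16456976)) (a (l 16414136) (c (l 16401632) (c (a (l 16419320) (b (l 16404600) (a (l 16424296) (l 16424928)))) (a (b (l 16407120) (a (l 16427312) (l 16426968))) (b (l 16412912) (l 16433848))))))) (c (a (b (l 16410160) (c (l 16436032) (l 16426048))) (c (b (a (l 16402264) (c (l 16396320) (l 16392568))) (a (l 16423248) (c (l 16417336) (a (l 16414368) (c (l 16411448) (l 16411536)))))) (a (b (c (l 16395400) (l 16398384)) (c (a (l 16417752) (l 16414528)) (a (c (l 16414968) (l 16417696)) (l 16420480)))) (b (c (l 16396744) (l 16409064)) (c (a (c (l 16412584) (l 16416520)) (l 16419552)) (l 16430208)))))) (a (c (c (a (b (l 16401736) (l 16422624))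 (b (l 16400232) (a (c (l 16417744) (l 16419264)) (l 16421688)))) (a (b (l 16402304) (a (l 16421568) (l 16423168))) (l 16421392))) (l 16393936)) (b (l 16437344) (l 16458640)))))), by decide +kernel⟩

def k117_pp_022 : ∃ t, chk3 f_pp_022 t 34 117 9 = true :=
  ⟨(a (a (b (c (a (c (l 16540624) (l 16558480)) (l 16548872)) (l 16539472)) (a (c (b (c (a (c (b (a (l 16566824) (l 16583576)) (a (l 16578776) (c (l 16596400) (l 16590768)))) (l 16564792)) (l 16584016)) (a (l 16584000) (l 16580392))) (a (c (c (l 16575432) (b (l 16577472) (l 16587456))) (l 16598888)) (c (c (b (a (c (l 16603096) (l 16597256)) (l 16596576)) (a (l 16592168) (c (l 16609864) (l 16603792)))) (b (l 16594520) (l 16602456))) (l 16595992)))) (a (b (l 16555288) (l 16591176)) (b (l 16568536) (l 16584152)))) (a (c (a (c (l 16547752) (l 16584152)) (l 16583392)) (l 16567320)) (l 16567888)))) (l 16487824)) (c (a (l 16462552) (a (b (l 16462736) (l 16473824)) (c (a (l 16471000) (c (l 16465136) (a (l 16462168) (b (l 16443720) (c (l 16475336) (l 16475456))))))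 (a (c (b (l 16448088) (l 16480200)) (a (c (l 16462744) (l 16465512)) (l 16468360))) (c (a (b (l 16446840) (c (l 16476472) (l 16480472))) (l 16467496)) (l 16478248)))))) (a (a (l 16492976) (c (l 16480608) (a (c (l 16477304) (a (l 16474912) (b (l 16458608) (l 16490640)))) (c (a (l 16450968) (b (l 16456600) (l 16488664))) (l 16481640))))) (a (c (a (c (l 16470312) (a (b (l 16453232) (l 16485288)) (b (l 16454872) (l 16486984)))) (c (a (b (l 16450816) (l 16482912)) (l 16427568)) (l 16479808))) (l 16494448)) (l 16465016))))), by decide +kernel⟩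

def k118_pp_022 : ∃ t, chk3 f_pp_022 t 272 118 8 = true :=
  ⟨(b (c (c (b (c (l 16597480) (a (l 16593432) (b (a (l 16593680) (l 16575896)) (l 16592056)))) (l 16594464)) (b (c (a (b (l 16575720) (l 16570288)) (b (l 16609200) (l 16578744))) (l 16574352)) (c (a (l 16587824) (c (l 16588192) (b (l 16593408) (l 16586776)))) (a (c (b (l 16589000) (l 16584256)) (l 16571144)) (l 16581616))))) (l 16553560)) (c (c (l 16594240) (c (l 16585536) (b (a (l 16582416) (c (b (l 16584680) (l 16580368)) (b (l 16590432) (l 16582656)))) (l 16569496)))) (c (c (b (a (c (b (l 16585280) (l 16579416)) (l 16567960)) (l 16600176)) (a (c (l 16576376) (b (l 16577112) (l 16552656))) (c (b (l 16559736) (l 16575304)) (b (l 16587728) (l 16557856))))) (b (l 16612360) (a (c (b (l 16581848) (l 16553904)) (l 16564968)) (l 16597896)))) (b (l 16603248) (l 16600512))))), by decide +kernel⟩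

def k119_pp_022 : ∃ t, chk3 f_pp_022 t 273 118 8 = true :=
  ⟨(c (b (a (c (b (c (b (a (l 16594920) (l 16597296)) (a (l 16593432) (l 16593024))) (b (a (l 16581600) (l 16610864)) (a (l 16573752) (c (l 16574440) (l 16604120))))) (c (l 16592528) (b (c (l 16589688) (l 16592344)) (l 16588232)))) (b (l 16590608) (a (c (l 16575392) (l 16615224)) (l 16592896)))) (b (c (c (c (b (l 16601720) (l 16595200)) (l 16584128)) (l 16619288)) (l 16609744)) (c (c (b (a (l 16591144) (l 16593104)) (a (l 16590064) (l 16589280))) (b (a (c (l 16572168) (l 16601560)) (l 16605776)) (a (l 16569464) (a (l 16572424) (l 16596728))))) (l 16585600)))) (c (b (c (l 16590808) (a (l 16586472) (c (l 16585608) (b (l 16587992) (l 16583320))))) (l 16587736)) (c (b (a (c (l 16563288) (b (l 16588808) (l 16582592))) (c (b (l 16594192) (l 16565096)) (l 16598720))) (a (l 16580592) (c (l 16559384) (b (l 16563232) (l 16578440))))) (b (a (l 16555800) (l 16614688)) (a (c (b (l 16559400) (l 16576536)) (b (l 16585560) (a (l 16575464) (l 16579072)))) (c (b (l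 16591672) (l 16561440)) (l 16596472))))))) (b (b (c (l 16597584) (c (l 16586008) (a (l 16593792) (b (l 16582800) (l 16606584))))) (a (l 16611352) (a (l 16623912) (l 16594656)))) (c (b (c (l 16627328) (l 16628248)) (l 16552128)) (l 16607520)))), by decide +kernel⟩

def k120_pp_022 : ∃ t, chk3 f_pp_022 t 274 118 8 = true :=
  ⟨(c (b (c (b (l 16595768) (a (c (b (l 16580712) (a (l 16570040) (l 16574232))) (l 16614192)) (l 16581152))) (l 16605672)) (b (c (a (c (b (a (l 16587424) (b (l 16589528) (l 16587176))) (a (l 16586720) (l 16585592))) (b (a (c (b (l 16589856) (l 16586168)) (l 16596360)) (l 16600640)) (b (a (l 16586896) (l 16571432)) (c (l 16562936) (l 16567120))))) (c (b (c (l 16571648) (l 16599280)) (a (b (l 16587400) (l 16585192)) (c (l 16587048) (l 16592104)))) (l 16588048))) (a (l 16559496) (l 16620584))) (c (a (c (l 16585856) (c (l 16581936) (b (a (l 16580984) (l 16584424)) (l 16579448)))) (c (b (a (l 16583784) (b (l 16585288) (l 16583224))) (l 16582760)) (b (a (c (b (l 16585136) (l 16581840)) (l 16591136))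 (l 16595456)) (a (c (l 16558640) (l 16582120)) (c (b (l 16567072) (l 16579720)) (l 16588528)))))) (a (c (b (l 16573504) (c (a (l 16578616) (l 16582672)) (l 16587864))) (l 16609432)) (a (l 16591416) (l 16579880)))))) (b (c (l 16578752) (b (c (a (l 16582064) (c (l 16569088) (l 16571800))) (a (c (a (l 16592816) (l 16606768)) (l 16605224)) (l 16596840))) (c (a (l 16633416) (l 16592408)) (a (c (l 16616256) (b (l 16599472) (l 16612352))) (c (a (l 16601392) (l 16593288)) (l 16591600)))))) (a (b (a (l 16599912) (l 16607936)) (c (l 16621416) (l 16646536))) (b (c (l 16644552) (b (c (l 16636248) (l 16598496)) (l 16618616))) (a (l 16597528) (l 16611736)))))), by decide +kernel⟩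

def k121_pp_022 : ∃ t, chk3 f_pp_022 t 275 118 8 = true :=
  ⟨(c (a (c (b (b (l 16624432) (l 16621008)) (b (l 16576048) (c (b (c (a (l 16584920) (l 16589328)) (l 16594184)) (a (b (l 16583184) (l 16581272)) (c (l 16582816) (l 16587112)))) (b (l 16609640) (a (l 16571888) (l 16602032)))))) (l 16568872)) (b (l 16578928) (c (b (l 16615880) (c (c (b (l 16601768) (l 16570216)) (l 16606432)) (l 16623056))) (l 16608960)))) (b (c (b (c (a (l 16609040) (c (l 16613720) (l 16560624))) (a (c (l 16590864) (a (l 16584896) (l 16576512))) (c (b (l 16587696) (l 16578080)) (l 16588296)))) (c (l 16608192) (a (l 16615240) (c (l 16599064) (b (l 16582232) (l 16594848)))))) (c (b (a (l 16573008) (l 16583848)) (a (c (l 16577024) (b (l 16604616) (l 16594688))) (c (l 16571640) (l 16598664)))) (l 16570536))) (c (l 16580208) (b (c (a (l 16600696) (c (l 16585152) (a (l 16600696) (l 16593216)))) (a (c (b (l 16598968) (l 16611296)) (l 16599080)) (l 16611448))) (c (a (l 16631936) (l 16609208)) (a (b (c (l 16646528) (l 16615192)) (l 16614272))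 (c (b (l 16606832) (l 16619552)) (b (l 16622056) (l 16611256))))))))), by decide +kernel⟩

def k122_pp_022 : ∃ t, chk3 f_pp_022 t 136 119 16 = true :=
  ⟨(b (a (l 16588096) (c (l 16587704) (c (l 16578616) (b (a (l 16574896) (c (b (a (l 16553056) (l 16576400)) (l 16551808)) (b (l 16559712) (a (l 16571400) (l 16574376))))) (l 16572736))))) (l 16584880)), by decide +kernel⟩

def k123_pp_022 : ∃ t, chk3 f_pp_022 t 136 238 17 = true :=
  ⟨(c (a (c (b (a (l 16574440) (b (c (l 16572864) (l 16572872)) (l 16571384))) (l 16572688)) (b (a (c (l 16570624) (b (a (l 16569848) (l 16573632)) (l 16568152))) (c (b (l 16556040) (a (l 16547368) (l 16570872))) (b (l 16585280) (l 16554280)))) (a (l 16568144) (c (l 16566880) (b (a (l 16565704) (l 16568824)) (l 16564216)))))) (c (b (a (c (b (a (l 16573080) (l 16577304)) (l 16571240)) (b (l 16582568) (a (l 16570784) (l 16575616)))) (c (l 16563752) (l 16594368))) (a (c (l 16569328) (b (c (l 16546888) (l 16568344)) (l 16566296))) (c (b (a (l 16568872) (l 16572440)) (l 16567256)) (b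 (l 16577400) (a (l 16566424) (l 16570584)))))) (b (l 16580864) (a (c (a (b (l 16568576) (l 16564456)) (b (l 16574008) (l 16566304))) (b (l 16579808) (a (l 16566448) (l 16572480)))) (l 16566232))))) (a (c (b (a (c (b (l 16578688) (a (l 16567448) (l 16571840))) (l 16583128)) (l 16595720)) (a (c (b (l 16565520) (l 16563480)) (b (a (l 16565136) (l 16570128)) (c (l 16541080) (l 16562616)))) (c (b (l 16573552) (a (l 16563144) (l 16566864))) (l 16556840)))) (b (l 16608504) (a (c (b (l 16575752) (a (l 16562904) (l 16568496))) (l 16580472)) (l 16593544)))) (b (a (l 16604472) (l 16623176)) (l 16568696)))), by decide +kernel⟩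

def k124_pp_022 : ∃ t, chk3 f_pp_022 t 136 239 17 = true :=
  ⟨(c (a (l 16569488) (c (b (a (l 16567688) (c (l 16565936) (b (a (l 16563720) (l 16564280)) (l 16562800)))) (l 16565992)) (b (a (c (l 16542256) (b (a (l 16540696) (l 16543120)) (l 16539400))) (c (b (a (l 16543080) (l 16568800)) (a (l 16560704) (c (l 16539664) (l 16561744)))) (b (l 16574328) (a (c (l 16560152) (l 16562008)) (l 16567080))))) (a (l 16561368) (b (c (l 16559704) (a (l 16536800) (c (l 16558008) (l 16559560)))) (l 16537216)))))) (a (c (b (a (l 16561888) (c (b (l 16561456) (l 16560032)) (b (a (l 16560672) (l 16564976)) (a (l 16557800) (l 16558488))))) (l 16560048)) (b (a (c (b (a (l 16537616) (l 16560576)) (l 16536416)) (b (a (l 16560752) (l 16566936)) (a (l 16534808) (l 16537376)))) (c (b (l 16570312) (a (l 16547792) (l 16563168))) (l 16574864))) (a (l 16555768) (c (b (a (l 16554768) (c (l 16533792) (l 16555960))) (l 16553720)) (b (a (c (l 16554304) (l 16556248)) (l 16561416)) (a (l 16530840) (c (l 16552112) (l 16553744)))))))) (c (b (a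 (c (b (a (l 16564400) (l 16571024)) (a (l 16558960) (c (l 16560000) (l 16562592)))) (b (l 16577248) (a (l 16562432) (l 16569632)))) (l 16563544)) (a (c (l 16557312) (b (a (l 16556328) (c (l 16557752) (l 16560792))) (a (l 16554296) (l 16554216)))) (c (b (a (c (l 16557720) (l 16560008)) (l 16565432)) (a (l 16533944) (c (l 16555472) (l 16557464)))) (b (l 16571432) (a (c (l 16555368) (l 16558104)) (l 16563848)))))) (b (l 16597256) (a (c (b (a (l 16560528) (l 16568304)) (a (c (l 16531744) (l 16553600)) (c (l 16555600) (l 16559080)))) (b (l 16574760) (l 16542192))) (l 16581944)))))), by decide +kernel⟩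

def k125_pp_022 : ∃ t, chk3 f_pp_022 t 274 238 16 = true :=
  ⟨(c (b (a (l 16582784) (c (l 16582544) (c (l 16557352) (b (a (l 16577008) (l 16579832)) (l 16554680))))) (l 16581128)) (c (b (a (c (l 16566016) (b (a (l 16576336) (l 16581008)) (l 16563856))) (c (b (l 16563416) (a (l 16574496) (l 16577920))) (l 16567608))) (a (l 16573592) (c (l 16572712) (b (a (l 16572064) (l 16576088)) (a (l 16569528) (l 16569968)))))) (b (a (c (b (l 16586488) (a (l 16574152) (l 16579432))) (l 16591152)) (l 16604032)) (a (c (a (l 16549112) (b (l 16571928) (l 16568360))) (b (a (l 16572056) (l 16577928)) (a (l 16546480) (l 16548776)))) (b (l 16565624) (c (a (l 16569728) (l 16574336)) (l 16579800))))))), by decide +kernel⟩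

def k126_pp_022 : ∃ t, chk3 f_pp_022 t 275 238 16 = true :=
  ⟨(c (b (a (c (b (a (l 16580224) (b (l 16581104) (b (l 16579440) (l 16557888)))) (l 16579296)) (b (a (c (b (a (l 16578752) (l 16581152)) (l 16577616)) (l 16585912)) (b (l 16592712) (a (l 16563944) (l 16588920)))) (a (c (l 16575872) (l 16577560)) (c (b (a (l 16576576) (l 16578728)) (l 16575544)) (l 16562344))))) (c (c (b (a (l 16580736) (l 16584496)) (a (l 16578512) (l 16578680))) (b (l 16568104) (a (b (l 16578400) (l 16576192)) (l 16582152)))) (a (b (l 16599256) (b (l 16589984) (c (a (l 16577520) (l 16580824)) (l 16589104)))) (l 16603024)))) (a (c (l 16579248) (b (a (l 16553488) (c (l 16574048) (l 16554328))) (l 16552424))) (c (b (a (l 16576776) (c (l 16555848) (b (l 16565720) (l 16563760)))) (l 16575928)) (b (a (c (b (a (l 16553472) (l 16576328)) (l 16552536)) (l 16559744)) (c (b (l 16581856) (a (l 16575144) (l 16578176))) (l 16589824))) (a (c (l 16572264) (c (l 16571552) (l 16573232))) (c (b (a (l 16551376) (l 16573976)) (l 16550536)) (a (l 16576008)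 (l 16580184)))))))) (b (a (a (l 16565120) (b (l 16602232) (l 16589984))) (b (l 16619944) (l 16586504))) (a (c (c (b (a (l 16575560) (l 16581896)) (a (l 16549496) (c (l 16571352) (l 16573760)))) (b (l 16588008) (a (l 16552680) (l 16580568)))) (l 16599232)) (a (b (l 16588840) (l 16555928)) (b (l 16600904) (l 16588600)))))), by decide +kernel⟩

def k127_pp_022 : ∃ t, chk3 f_pp_022 t 137 239 16 = true :=
  ⟨(c (a (l 16581216) (a (l 16576240) (b (c (l 16575960) (c (l 16571336) (b (a (l 16569376) (c (l 16569624) (a (l 16569320) (l 16572264)))) (l 16547640)))) (l 16573072)))) (a (c (l 16571880) (b (a (l 16567600) (c (b (a (l 16566536) (c (l 16545432) (l 16567432))) (l 16565576)) (b (a (c (l 16565904) (l 16567664)) (l 16572656)) (a (l 16542656) (c (l 16542832) (l 16565272)))))) (l 16565704))) (c (a (b (c (l 16548024) (b (a (l 16567896) (c (l 16569152) (l 16572016))) (l 16555888))) (l 16566880)) (b (c (a (b (c (l 16569160) (l 16571392)) (l 16545688)) (b (l 16578232) (c (l 16557704) (l 16549968)))) (a (b (l 16578672)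 (c (a (l 16544536) (l 16567920)) (l 16570528))) (l 16584816))) (c (a (l 16566016) (l 16545304)) (a (b (c (l 16564088) (l 16564400)) (l 16563664)) (b (c (b (l 16568480) (l 16545016)) (l 16550176)) (l 16565600)))))) (a (b (c (b (a (l 16550832) (l 16579640)) (a (c (l 16543472) (l 16565176)) (c (l 16556640) (l 16570768)))) (a (b (l 16581064) (l 16549104)) (l 16585752))) (c (b (a (l 16563024) (c (l 16541624) (a (l 16540864) (l 16563712)))) (l 16562368)) (a (b (c (l 16540776) (b (l 16563936) (l 16539856))) (l 16560016)) (b (c (a (l 16563448) (l 16567552)) (l 16570648)) (c (l 16539760) (b (l 16563256) (l 16560472))))))) (b (l 16577128) (c (c (b (a (b (l 16567712) (l 16564408)) (l 16576168)) (a (l 16562624) (b (l 16568560) (l 16565584)))) (b (l 16555920) (a (l 16553328) (l 16571448)))) (b (l 16586224) (a (c (b (l 16568016) (l 16564232)) (l 16571216)) (l 16580232))))))))), by decide +kernel⟩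

def k128_pp_022 : ∃ t, chk3 f_pp_022 t 137 238 17 = true :=
  ⟨(b (a (c (c (l 16595888) (l 16618904)) (l 16614024)) (a (a (l 16597224) (l 16609904)) (c (l 16623952) (b (c (l 16653776) (c (l 16655208) (l 16623384))) (l 16615008))))) (a (c (a (c (c (b (l 16583896) (a (l 16570032) (l 16576504))) (l 16588776)) (l 16605400)) (l 16593208)) (c (l 16598016) (a (l 16631688) (l 16656776)))) (c (a (l 16616032) (c (l 16596632) (l 16633680))) (b (l 16621120) (l 16633808))))), by decide +kernel⟩

def k129_pp_022 : ∃ t, chk3 f_pp_022 t 137 239 17 = true :=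
  ⟨(c (a (c (b (a (c (b (a (l 16564768) (c (l 16565728) (l 16568224))) (l 16542400)) (b (a (l 16547112) (l 16575144)) (a (l 16562168) (c (l 16563504) (l 16566456))))) (c (b (l 16578368) (a (c (l 16563488) (l 16565696)) (l 16571040))) (l 16583272))) (a (b (a (l 16561840) (c (l 16561744) (l 16560088))) (l 16560992)) (c (b (a (l 16539832) (c (l 16561296) (l 16563208))) (l 16538632)) (b (a (c (l 16561168) (l 16563824)) (l 16569728)) (a (l 16537072) (c (b (l 16559640) (l 16536080)) (a (l 16559240) (l 16562776)))))))) (a (b (b (l 16587048) (c (a (l 16566216) (l 16573856)) (l 16580288))) (c (b (a (c (l 16537664) (l 16559440)) (c (l 16561376) (l 16564768))) (a (l 16557128) (c (l 16535704) (l 16557168)))) (b (l 16547880) (a (c (l 16534944) (l 16546664)) (c (l 16559336) (l 16563168)))))) (b (l 16601320) (c (a (b (l 16570936) (c (b (l 16560064) (l 16535688)) (l 16562048))) (l 16575504)) (l 16582552))))) (b (c (l 16591120) (l 16617560)) (c (a (c (a (b (l 16548088) (c (b (l 16559912) (l 16537168)) (a (l 16559280) (l 16562848))))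 (b (l 16580328) (c (l 16566032) (l 16571304)))) (l 16560416)) (l 16600024)) (l 16592952)))) (a (b (c (l 16594616) (l 16599032)) (a (a (c (l 16553200) (l 16597408)) (l 16575968)) (l 16594568))) (b (c (a (l 16631448) (l 16657048)) (l 16650032)) (c (l 16619736) (a (l 16633704) (l 16659432)))))), by decide +kernel⟩

def k130_pp_022 : ∃ t, chk3 f_pp_022 t 136 118 9 = true :=
  ⟨(c (b (a (c (c (b (l 16596904) (l 16626416)) (b (a (l 16584912) (b (l 16590496) (l 16600752))) (a (l 16633528) (l 16598648)))) (c (b (a (l 16594848) (l 16612160)) (a (c (l 16618552) (l 16611768)) (c (l 16608912) (l 16626792)))) (b (l 16611392) (l 16605608)))) (c (b (a (c (b (a (c (l 16616680) (l 16610384)) (l 16609768)) (a (l 16626776) (b (l 16596680) (l 16602688)))) (a (l 16591232) (l 16610040))) (c (c (l 16590240) (l 16607800)) (l 16604544))) (a (c (l 16624008) (c (a (l 16612904) (l 16608080)) (l 16605984))) (c (b (a (c (l 16630528) (l 16602424)) (l 16600488)) (a (l 16619448) (c (l 16615712) (l 16607128)))) (b (l 16616400) (a (l 16626848)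 (l 16622128)))))) (b (a (l 16584560) (l 16597120)) (a (l 16620536) (l 16612760))))) (c (a (l 16614504) (c (l 16613480) (a (c (l 16631720) (b (l 16607144) (l 16656528))) (b (c (b (l 16615320) (l 16627320)) (l 16615032)) (c (l 16648976) (l 16616896)))))) (a (c (a (l 16615664) (b (c (l 16632544) (l 16614912)) (l 16635792))) (a (b (c (l 16628760) (l 16623336)) (l 16630888)) (b (l 16619504) (c (a (l 16644944) (l 16638720)) (b (l 16650976) (l 16640176)))))) (c (b (a (c (a (l 16623328) (l 16638752)) (l 16637256)) (l 16630352)) (a (c (l 16624480) (b (l 16629920) (l 16641696))) (b (l 16621616) (c (l 16634064) (l 16648480))))) (b (l 16629256) (l 16613632)))))) (b (a (l 16609352) (b (a (l 16590888) (l 16582040)) (a (l 16605896) (l 16576712)))) (a (c (c (b (l 16638248) (a (c (l 16618856) (l 16635456)) (l 16651064))) (l 16642032)) (l 16634968)) (l 16624120)))), by decide +kernel⟩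

def k131_pp_022 : ∃ t, chk3 f_pp_022 t 137 118 9 = true :=
  ⟨(b (a (c (b (l 16588592) (a (c (c (c (l 16588728) (l 16615432)) (l 16611544)) (l 16604040)) (l 16600088))) (l 16576456)) (l 16568712)) (c (a (c (b (c (a (b (a (c (l 16620160) (l 16610864)) (l 16608264)) (a (l 16629336) (c (l 16645208) (b (l 16632440) (l 16638080))))) (b (l 16620216) (c (a (l 16614656) (l 16627896)) (l 16626680)))) (a (b (l 16623408) (a (l 16634144) (l 16629112))) (l 16618584))) (a (c (l 16625608) (c (b (l 16623032) (l 16635472)) (l 16601504))) (b (c (a (c (l 16649360) (b (l 16636224) (l 16641992))) (c (l 16618640) (l 16632704))) (l 16630504)) (c (a (l 16637592) (c (l 16653584) (a (l 16645008) (l 16620112)))) (a (l 16641536) (l 16636264)))))) (b (a (l 16598720) (l 16611080)) (a (l 16634872) (l 16605768)))) (b (l 16602792) (a (c (c (a (b (l 16630024) (c (l 16622688) (l 16636456))) (l 16608608)) (l 16625752)) (l 16618240)) (l 16614480)))) (a (b (a (l 16583632) (l 16595976)) (a (l 16619704) (l 16590672))) (l 16590672)))), by decide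 +kernel⟩

def k132_pp_022 : ∃ t, chk3 f_pp_022 t 136 119 18 = true :=
  ⟨(c (b (a (b (c (l 16609680) (l 16631880)) (l 16596560)) (c (b (l 16626928) (l 16623840)) (l 16618096))) (a (c (b (a (c (b (l 16573024) (a (l 16558680) (l 16565448))) (l 16577936)) (l 16591248)) (a (c (b (a (l 16553048) (c (l 16554176) (l 16556864))) (l 16530560)) (b (a (l 16556672) (l 16564024)) (a (l 16550392) (c (l 16551904) (l 16555040))))) (c (b (l 16567256) (a (c (l 16551840) (l 16554224)) (l 16559736))) (l 16572040)))) (a (b (l 16594704) (b (l 16576056) (c (a (l 16554736) (l 16562656)) (l 16569144)))) (l 16580272))) (a (l 16567328) (b (c (l 16630360) (l 16634792)) (l 16597712))))) (c (a (b (b (l 16633160) (l 16630040)) (l 16593256)) (b (b (a (l 16648320) (c (l 16633536) (b (l 16637752) (l 16649984)))) (l 16631336)) (b (a (l 16636432) (l 16640576)) (a (l 16611808) (l 16637016))))) (a (b (a (l 16634064) (b (l 16644408) (l 16641944))) (b (a (l 16639560) (l 16638624)) (l 16604048))) (b (b (a (c (l 16631464) (a (l 16646960) (l 16640192)))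 (c (l 16637432) (l 16653968))) (a (l 16654560) (c (l 16639768) (b (l 16645840) (l 16656920))))) (b (l 16633240) (a (l 16638112) (l 16643024))))))), by decide +kernel⟩

def k133_pp_022 : ∃ t, chk3 f_pp_022 t 136 119 19 = true :=
  ⟨(b (c (a (c (a (c (l 16650512) (b (b (l 16649936) (l 16662456)) (l 16671328))) (b (c (b (l 16644744) (l 16656312)) (l 16645008)) (c (l 16656728) (l 16646272)))) (c (b (a (b (l 16666024) (l 16654984)) (l 16662256)) (a (l 16653448) (l 16648856))) (a (b (l 16667616) (b (l 16659792) (l 16650184))) (l 16646536)))) (c (b (l 16633416) (a (c (b (l 16652704) (l 16664752)) (l 16652600)) (l 16644856))) (l 16656632))) (a (l 16623424) (l 16649072))) (b (a (c (a (l 16611672) (c (l 16642952) (c (l 16661848) (b (l 16667888) (l 16658776))))) (c (a (c (c (l 16659008) (l 16658464)) (l 16653680)) (l 16645480)) (l 16664464))) (c (c (a (b (l 16658488) (l 16662176)) (c (a (l 16650240) (l 16641912)) (b (l 16675824) (l 16664768)))) (a (c (b (l 16661120) (l 16672016)) (l 16661712)) (l 16675544))) (l 16671896)))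 (a (c (c (a (l 16637664) (l 16639368)) (a (l 16641144) (l 16645112))) (c (a (c (l 16660592) (l 16651720)) (c (c (l 16660944) (l 16665912)) (b (l 16676624) (l 16666368)))) (a (b (l 16660544) (c (l 16657840) (l 16686312))) (l 16676032)))) (c (c (a (l 16644152) (b (l 16661912) (l 16663752))) (a (c (l 16663656) (b (l 16675992) (l 16667416))) (c (b (l 16669032) (l 16659480)) (l 16669456)))) (a (c (b (l 16669128) (l 16667896)) (l 16688728)) (l 16683288)))))), by decide +kernel⟩

def k134_pp_022 : ∃ t, chk3 f_pp_022 t 137 238 18 = true :=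
  ⟨(a (c (c (l 16639952) (b (a (l 16631336) (c (b (l 16630896) (l 16643792)) (b (l 16645256) (l 16634608)))) (l 16635208))) (c (b (a (c (b (l 16630776) (l 16642048)) (l 16631008)) (l 16644640)) (a (c (l 16642128) (b (l 16645696) (l 16658416))) (c (b (l 16638552) (l 16650296)) (l 16638608)))) (b (l 16643328) (a (c (b (l 16660432) (l 16649576)) (l 16661288)) (l 16654488))))) (c (a (b (a (c (b (c (l 16657872) (b (l 16623008) (l 16650016))) (l 16646112)) (b (l 16639912) (l 16628168))) (c (b (c (l 16626800) (l 16619288)) (c (l 16662240) (l 16627840))) (b (l 16635576) (l 16643608)))) (c (l 16642936) (c (b (l 16639008) (l 16652392)) (a (l 16635496) (l 16633912))))) (b (c (b (l 16614272) (a (c (l 16625744) (b (l 16641320) (l 16625360))) (l 16620600))) (l 16633032)) (c (b (a (c (l 16666688) (l 16634576)) (c (b (l 16652392) (l 16659504)) (b (l 16645144) (l 16629320)))) (c (l 16655824) (a (l 16669328) (l 16638752)))) (b (a (l 16647352) (l 16642896)) (c (a (l 16638240) (l 16652592)) (l 16651464)))))) (b (a (l 16612944)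 (l 16625512)) (a (l 16628464) (l 16620240))))), by decide +kernel⟩

def k135_pp_022 : ∃ t, chk3 f_pp_022 t 137 239 18 = true :=
  ⟨(c (a (b (c (a (l 16633624) (l 16659312)) (l 16652312)) (c (a (l 16630000) (l 16634816)) (a (l 16635920) (l 16661720)))) (b (c (l 16663256) (a (l 16648712) (b (c (l 16647392) (l 16639728)) (c (l 16661296) (a (l 16654472) (l 16646264)))))) (l 16623768))) (b (a (c (a (l 16666312) (c (l 16651000) (b (l 16653904) (l 16667128)))) (a (c (l 16648336) (b (l 16653680) (l 16665256))) (b (l 16645640) (c (l 16657728) (l 16672728))))) (a (c (c (b (l 16646568) (l 16658824)) (b (l 16662032) (l 16650688))) (l 16661864)) (l 16628144))) (a (a (l 16634224) (c (l 16667720) (c (l 16657184) (b (l 16661784) (l 16652912))))) (c (a (c (l 16660168) (b (l 16651888) (l 16676152))) (c (b (a (l 16657944) (l 16671400)) (l 16667640)) (b (l 16669752) (a (l 16661696) (l 16675840))))) (c (a (b (l 16655032) (a (l 16669464) (l 16661512))) (l 16670720)) (l 16651496)))))), by decide +kernel⟩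

def k136_pp_022 : ∃ t, chk3 f_pp_022 t 137 119 19 = true :=
  ⟨(b (a (l 16638288) (b (a (l 16597840) (l 16610392)) (a (l 16634040) (l 16594640)))) (a (c (c (b (a (l 16652456) (l 16664688)) (a (c (b (l 16648048) (l 16661136)) (b (l 16662576) (l 16662520))) (c (b (l 16677576) (l 16666056)) (l 16678784)))) (l 16650408)) (l 16663696)) (l 16652984))), by decide +kernel⟩

def k137_pp_022 : ∃ t, chk3 f_pp_022 t 69 118 32 = true :=
  ⟨(a (a (l 16578512) (b (b (a (l 16607224) (l 16563816)) (c (a (l 16630712) (l 16628920)) (a (l 16626080) (l 16624264)))) (l 16612560))) (b (a (c (b (a (l 16595576) (c (l 16579536) (a (l 16552000) (b (l 16557056) (l 16569616))))) (l 16594872)) (b (a (c (b (l 16549216) (l 16584368)) (b (a (l 16565056) (l 16558544)) (a (l 16577800) (l 16569120)))) (c (b (l 16555216) (a (l 16569152) (l 16561600))) (l 16556160))) (a (l 16580840) (c (b (l 16557696) (l 16593208)) (b (a (l 16573248) (l 16566440)) (a (l 16586424) (l 16556456))))))) (c (b (a (c (b (a (l 16556952) (l 16549776)) (a (l 16570496)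 (l 16540184))) (b (l 16548624) (a (l 16561168) (l 16554744)))) (b (l 16541328) (c (l 16530544) (l 16548136)))) (a (c (l 16588416) (b (a (l 16573936) (l 16544360)) (l 16583840))) (c (b (a (l 16544448) (l 16557952)) (a (l 16579408) (l 16548776))) (b (l 16556584) (a (c (l 16571008) (l 16567144)) (l 16562832)))))) (b (l 16544552) (a (c (b (a (l 16565672) (l 16560000)) (a (l 16577656) (l 16569800))) (l 16564064)) (l 16556568))))) (a (b (c (a (l 16638088) (l 16636352)) (l 16580128)) (c (a (l 16649264) (l 16647472)) (a (l 16644408) (l 16621624)))) (c (b (a (l 16613688) (c (l 16597552) (b (a (l 16582768) (c (l 16575376) (l 16571344))) (l 16592856)))) (l 16613432)) (b (a (c (b (l 16566408) (l 16602312)) (b (a (l 16560696) (l 16574536)) (a (l 16595304) (l 16564992)))) (c (b (a (l 16553000) (l 16567984)) (a (l 16586408) (c (l 16579424) (l 16576056)))) (b (l 16567384) (l 16558008)))) (a (l 16598968) (c (b (l 16575368) (l 16611680)) (b (a (c (l 16592160) (l 16587592)) (l 16561880)) (a (l 16604464) (c (l 16596696) (l 16591944))))))))))),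 by decide +kernel⟩

def k138_pp_022 : ∃ t, chk3 f_pp_022 t 138 118 33 = true :=
  ⟨(b (a (b (c (l 16603128) (a (l 16589248) (c (l 16573520) (b (l 16557648) (l 16569640))))) (c (a (l 16625224) (l 16623280)) (l 16588208))) (c (b (a (c (l 16596336) (b (l 16557208) (l 16591728))) (c (b (a (l 16573184) (l 16565544)) (l 16561656)) (b (l 16564216) (a (l 16577232) (l 16570344))))) (a (l 16621392) (c (l 16605032) (b (l 16565424) (l 16600304))))) (b (a (c (b (l 16571152) (l 16556016)) (l 16571920)) (l 16564152)) (a (c (l 16581920) (b (l 16565544) (l 16577880))) (c (b (l 16558016) (a (l 16593936) (l 16585608))) (l 16579632)))))) (a (l 16606848) (b (c (a (l 16632216) (l 16630328)) (a (l 16606496) (c (l 16590552) (b (a (l 16597776) (l 16590184)) (l 16586360))))) (c (a (l 16643312) (l 16641376)) (a (l 16638392) (l 16615480)))))), by decide +kernel⟩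

def k139_pp_022 : ∃ t, chk3 f_pp_022 t 139 118 33 = true :=
  ⟨(b (a (c (b (a (a (l 16542624) (l 16558480)) (l 16552120)) (a (c (b (a (l 16581480) (l 16573544)) (l 16570160)) (b (l 16571984) (a (l 16585448) (l 16578256)))) (c (b (l 16565512) (a (l 16577624) (l 16571560))) (l 16566968)))) (l 16559488)) (l 16545152)) (a (c (b (a (c (l 16613976) (b (a (l 16599040) (l 16589648)) (l 16609136))) (c (b (a (l 16590024) (l 16581760)) (l 16578904)) (b (l 16579936) (a (l 16593904) (l 16586368))))) (a (l 16618520) (c (l 16623160) (b (a (l 16607976) (l 16577248)) (l 16618240))))) (b (a (c (b (a (l 16589696) (l 16583240)) (a (l 16602520) (l 16593848))) (b (l 16582520) (l 16570808))) (l 16579608)) (a (c (l 16599432) (b (a (l 16606272) (l 16598328)) (l 16595080))) (c (b (a (l 16577088) (l 16591256)) (a (l 16611368) (l 16581360))) (b (l 16590320) (a (l 16581520) (l 16596408))))))) (c (b (a (c (b (l 16573400) (a (l 16564984) (l 16579560))) (l 16574760)) (l 16567704)) (a (c (b (a (l 16598816) (c (l 16591576) (l 16587856)))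 (l 16587904)) (b (a (l 16590512) (l 16584848)) (a (l 16581632) (l 16573744)))) (c (b (l 16581464) (a (c (l 16595984) (l 16592072)) (l 16587760))) (l 16582712)))) (b (l 16566864) (a (b (l 16583136) (l 16570728)) (l 16578912)))))), by decide +kernel⟩

def k140_pp_022 : ∃ t, chk3 f_pp_022 t 69 118 17 = true :=
  ⟨(a (b (c (a (c (b (a (c (b (l 16565640) (l 16599528)) (b (l 16580416) (l 16569888))) (c (l 16557904) (l 16575088))) (a (c (l 16622216) (l 16568776)) (c (b (l 16573600) (l 16607840)) (b (l 16587992) (l 16577792))))) (b (l 16575808) (a (c (a (l 16584120) (l 16576376)) (l 16595800)) (l 16587632)))) (b (l 16560912) (a (c (c (b (l 16581176) (l 16570056)) (l 16582512)) (l 16578768)) (l 16572696)))) (l 16567568)) (c (a (b (c (a (l 16626528) (l 16583408)) (a (c (l 16607504) (b (l 16590144) (l 16603136))) (c (b (l 16582200) (l 16594256)) (l 16582512)))) (a (c (l 16637544) (l 16632560)) (c (l 16635456) (c (l 16616192) (b (a (l 16622816) (l 16614424)) (l 16611672)))))) (c (b (a (c (b (l 16576544) (l 16616400))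 (b (l 16595760) (a (l 16610232) (l 16602240)))) (c (b (l 16588872) (a (l 16601904) (l 16595048))) (l 16590104))) (a (l 16592120) (c (b (a (l 16615144) (l 16606064)) (l 16625224)) (b (l 16582752) (a (l 16618768) (l 16610416)))))) (b (l 16569896) (a (c (b (a (l 16614232) (l 16606968)) (l 16602704)) (b (l 16605880) (l 16594808))) (l 16582024))))) (a (c (b (a (c (b (l 16604960) (l 16594456)) (l 16606056)) (l 16598472)) (a (c (l 16593520) (b (l 16598992) (l 16610776))) (c (b (l 16612656) (a (l 16626688) (l 16619024))) (l 16613624)))) (b (l 16597808) (a (l 16598032) (l 16609576)))) (l 16591136)))) (a (b (l 16546944) (b (l 16571104) (c (a (c (c (b (l 16596752) (a (l 16589328) (l 16603080))) (l 16597864)) (l 16593960)) (l 16588048)) (l 16582256)))) (l 16504384))), by decide +kernel⟩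

def k141_pp_022 : ∃ t, chk3 f_pp_022 t 138 238 16 = true :=
  ⟨(a (c (b (a (c (c (a (b (l 16591472) (l 16561128)) (l 16595480)) (l 16602032)) (l 16620896)) (l 16612704)) (a (c (a (b (c (l 16576648) (c (l 16577560) (l 16580776))) (a (b (l 16553368) (l 16573848)) (b (l 16574976) (l 16552568)))) (c (b (c (l 16578096) (l 16580880)) (l 16575184)) (b (l 16588824) (c (l 16555624) (l 16580352))))) (b (l 16602048) (a (c (b (l 16559232) (a (c (l 16550224) (l 16573912)) (l 16577040))) (l 16589304)) (l 16595768)))) (c (b (l 16581000) (c (a (c (l 16578152) (l 16581280)) (l 16589688)) (l 16595800))) (l 16621744)))) (b (c (a (l 16626056) (l 16652232)) (l 16644584)) (a (b (l 16620496) (l 16586992)) (c (l 16627216) (l 16653720))))) (c (b (c (a (l 16625624) (l 16651648)) (a (l 16651960) (l 16657024))) (c (l 16613576) (a (l 16626936) (l 16653056)))) (b (l 16630208) (l 16637800)))), by decide +kernel⟩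

def k142_pp_022 : ∃ t, chk3 f_pp_022 t 139 238 16 = true :=
  ⟨(c (a (b (l 16636344) (l 16636936)) (b (c (a (l 16657088) (l 16634384)) (a (l 16631120) (l 16608408))) (c (a (l 16668712) (b (l 16658760) (l 16675104))) (a (b (l 16655472) (l 16671792)) (l 16640848))))) (a (b (c (a (l 16650760) (l 16627904)) (a (l 16624728) (c (l 16608568) (b (a (l 16615024) (l 16585736)) (l 16604056))))) (c (a (l 16662312) (b (l 16652224) (l 16668528))) (a (l 16657160) (l 16634224)))) (c (b (a (b (c (l 16624504) (a (l 16617200) (l 16586088))) (l 16634144)) (c (b (a (l 16607888) (c (l 16600456) (l 16596352))) (l 16618136)) (b (a (c (l 16600136) (l 16596880)) (l 16592936)) (a (l 16590608) (c (l 16604536) (l 16601088)))))) (a (l 16637512) (b (a (l 16633248) (l 16591008)) (l 16643808)))) (b (a (c (b (a (c (l 16608320) (l 16604048)) (l 16599488)) (a (l 16620496) (c (l 16612832) (l 16608360)))) (b (l 16598304) (a (c (l 16612312) (l 16608688)) (l 16604528)))) (b (l 16591064) (c (a (l 16582720) (l 16598368)) (l 16597928)))) (a (c (l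 16617976) (b (a (l 16624056) (c (l 16616752) (l 16612928))) (l 16613312))) (c (b (a (c (l 16617416) (l 16612744)) (c (l 16608952) (l 16606144))) (a (l 16629920) (c (l 16622088) (l 16596232)))) (b (l 16606488) (a (b (l 16595264) (l 16601448)) (l 16612864))))))))), by decide +kernel⟩

def k143_pp_022 : ∃ t, chk3 f_pp_022 t 69 478 16 = true :=
  ⟨(a (a (c (a (c (a (l 16573552) (b (c (l 16553000) (b (a (l 16551200) (l 16574592)) (l 16551408))) (l 16573152))) (b (a (c (a (l 16549488) (b (l 16573136) (l 16549792))) (b (l 16580256) (l 16575536))) (c (b (a (l 16556424) (l 16582968)) (a (l 16573648) (c (l 16574944) (l 16579912)))) (l 16589776))) (c (a (l 16569832) (c (l 16550720) (l 16573136))) (a (c (l 16569696) (l 16561392)) (c (l 16555272) (l 16581000)))))) (c (b (c (a (l 16575712) (c (l 16579312) (l 16582160))) (a (b (l 16581256) (l 16556560)) (l 16589872))) (a (b (a (l 16552984) (l 16575752)) (l 16553336)) (c (l 16556176) (b (l 16561112) (c (l 16576768) (l 16579216)))))) (b (l 16602808) (a (c (b (a (c (l 16575424)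 (l 16580160)) (l 16583480)) (a (l 16574760) (c (l 16575920) (l 16580416)))) (l 16569240)) (l 16596728))))) (a (b (l 16564080) (c (a (l 16564224) (l 16597264)) (l 16617472))) (b (l 16621584) (a (l 16581472) (l 16615496))))) (c (c (a (c (b (l 16575696) (a (c (l 16580512) (b (l 16584328) (l 16580680))) (l 16570040))) (l 16582168)) (l 16622312)) (l 16614776)) (c (a (l 16628232) (b (l 16660744) (l 16648128))) (a (l 16654840) (l 16660096))))) (c (a (c (a (l 16627456) (b (l 16659816) (l 16647200))) (a (b (l 16660304) (l 16647688)) (l 16659104))) (l 16656128)) (a (l 16649544) (a (b (b (l 16644808) (l 6)) (l 6)) (l 6))))), by decide +kernel⟩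

def k144_pp_022 : ∃ t, chk3 f_pp_022 t 69 958 16 = true :=
  ⟨(a (a (c (a (c (l 16573616) (c (l 16570528) (a (l 16568544) (c (l 16550112) (b (l 16573744) (l 16571048)))))) (c (a (l 16574240) (b (a (l 16554584) (c (l 16576944) (l 16577032))) (l 16554976))) (a (c (a (l 16551784) (l 16564448)) (c (b (l 16578456) (l 16574760)) (l 16581632))) (c (b (a (c (l 16565952) (l 16580696)) (l 16584032)) (a (l 16575928) (c (l 16566488) (l 16580984)))) (b (l 16593720) (l 16587496)))))) (a (c (c (a (c (l 16569280) (b (l 16573080) (l 16569576))) (c (l 16576512) (l 16581712))) (l 16564664)) (l 16605160)) (a (l 16611024) (l 16581936)))) (c (c (a (a (c (l 16557648) (b (c (l 16580400) (l 16584280)) (a (l 16577680) (l 16580728)))) (c (c (l 16581760) (b (l 16585096) (l 16581784))) (l 16570080))) (c (a (c (b (l 16590424) (l 16586096)) (l 16593608)) (l 16603104)) (l 16609840))) (b (l 16598888) (a (l 16569104) (l 16626600)))) (a (l 16622520) (c (l 16656424) (l 16662144))))) (a (c (a (l 16621696) (l 6)) (l 16646160)) (l 6))), by decide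 +kernel⟩

def k145_pp_022 : ∃ t, chk3 f_pp_022 t 69 959 16 = true :=
  ⟨(a (a (c (a (l 16551192) (c (l 16575120) (c (a (l 16572808) (c (l 16574792) (l 16575624))) (a (c (l 16551552) (b (l 16574728) (l 16551400))) (c (b (l 16579232) (l 16575856)) (l 16582280)))))) (c (a (c (a (l 16546784) (c (l 16570584) (b (l 16573896) (l 16570720)))) (a (c (b (l 16569512) (l 16546376)) (b (l 16573464) (l 16569480))) (l 16559032))) (c (a (c (b (l 16578912) (l 16574728)) (l 16582232)) (l 16591440)) (l 16598376))) (l 16563776))) (a (a (c (a (c (l 16577208) (c (b (c (l 16577528) (l 16581288)) (l 16577144)) (l 16587872))) (b (c (b (l 16557680) (l 16557224)) (c (l 16563648) (l 16597312))) (l 6))) (l 16582360)) (b (c (c (c (l 16580248) (c (l 16581456) (l 16584944))) (l 16600504)) (l 16640512)) (l 6))) (l 6))) (l 6)), by decide +kernel⟩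

def k146_pp_022 : ∃ t, chk3 f_pp_022 t 138 238 17 = true :=
  ⟨(c (a (b (l 16624256) (l 16617544)) (b (b (c (l 16604456) (a (c (l 16638080) (c (l 16608392) (l 16603912))) (c (a (l 16622672) (l 16615032)) (l 16613680)))) (a (l 16618896) (c (l 16650640) (c (l 16611392) (a (l 16605864) (l 16619920)))))) (c (a (l 16656080) (l 16653992)) (a (l 16650864) (c (l 16634360) (a (l 16627312) (b (l 16610128) (l 16644824)))))))) (a (a (b (c (b (l 16630928) (l 16646688)) (c (b (l 16609672) (l 16628064)) (b (l 16629672) (l 16614032)))) (c (l 16649984) (b (c (l 16664176) (l 16631824)) (l 16631904)))) (b (c (c (l 16602136) (b (l 16601744) (l 16608696))) (c (b (l 16622992) (l 16611648)) (l 16624448))) (c (l 16626968) (c (b (c (l 16624856) (l 16620584)) (l 16636848)) (b (l 16637496) (a (l 16630752) (l 16643952))))))) (c (b (a (c (b (l 16599584) (c (l 16612288) (l 16608296))) (l 16621368)) (l 16613648)) (a (c (l 16611000) (b (a (l 16618240) (l 16631864)) (l 16619976))) (c (b (a (l 16631264) (l 16625064)) (a (l 16643944) (l 16614496)))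 (b (l 16624464) (l 16612584))))) (b (l 16612840) (a (c (b (l 16630712) (a (l 16622536) (l 16636872))) (l 16632048)) (l 16624768)))))), by decide +kernel⟩

def k147_pp_022 : ∃ t, chk3 f_pp_022 t 138 239 17 = true :=
  ⟨(a (a (c (b (c (l 16603096) (l 16635008)) (c (l 16625672) (l 16631464))) (a (l 16635536) (b (l 16642416) (l 16657152)))) (c (c (b (l 16634280) (l 16609400)) (b (l 16640000) (l 16636176))) (b (b (c (l 16672192) (l 16625848)) (l 16633360)) (l 16655472)))) (b (c (l 16643128) (a (c (l 16636248) (c (b (a (l 16656656) (l 16626768)) (l 16645912)) (b (l 16624568) (a (l 16639472) (l 16631256))))) (c (c (l 16620128) (b (a (l 16626896) (l 16640096)) (l 16626288))) (c (b (l 16638640) (a (l 16631072) (l 16644968))) (l 16639848))))) (b (c (l 16647192) (a (c (l 16660768) (a (l 16661088) (l 16650256))) (c (l 16658552) (c (a (l 16665792) (l 16635448)) (a (l 16635496) (l 16650096)))))) (a (c (c (l 16629032) (l 16655848)) (l 16642928)) (l 6))))), by decide +kernel⟩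

def k148_pp_022 : ∃ t, chk3 f_pp_022 t 139 119 17 = true :=
  ⟨(a (b (c (c (b (a (c (b (a (l 16624048) (l 16593616)) (l 16634312)) (b (a (l 16593624) (l 16608104)) (a (l 16627584) (l 16597864)))) (c (b (l 16583864) (a (l 16597976) (l 16611344))) (l 16605808))) (a (l 16610288) (c (b (a (l 16633248) (l 16602408)) (l 16643688)) (b (a (c (l 16624640) (l 16620648)) (l 16616248)) (a (l 16636680) (c (l 16629120) (l 16624920))))))) (b (a (c (b (l 16607344) (l 16595720)) (l 16608872)) (l 16601736)) (a (c (b (a (l 16610408) (l 16602368)) (l 16620352)) (b (l 16621688) (a (l 16614456) (l 16628104)))) (c (b (l 16615248) (a (l 16606616) (l 16621400))) (l 16616696))))) (l 16569912)) (b (c (c (a (b (l 16655416) (l 16671792)) (l 16619760)) (a (c (l 16643856) (a (l 16636592) (b (l 16618864) (l 16654152)))) (a (c (l 16616840) (b (l 16611312) (l 16623336))) (b (b (l 16605920) (c (l 16634416) (l 16628840))) (l 6))))) (c (a (c (b (a (l 16618768) (l 16633120)) (a (l 16653008) (c (l 16645560) (l 16641616)))) (b (l 16632280) (a (l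 16623336) (l 16638384)))) (l 16608544)) (l 16628360))) (a (a (a (b (c (l 16662744) (c (l 16644376) (l 16627728))) (l 6)) (l 6)) (l 6)) (l 6)))) (b (c (b (l 16591768) (c (a (c (b (a (l 16594600) (l 16609816)) (a (l 16606904) (c (l 16620992) (l 16617808)))) (b (l 16609312) (l 16597168))) (l 16606456)) (l 16605504))) (l 16589880)) (b (b (b (c (c (a (c (l 16613000) (a (l 16607344) (l 16621760))) (l 6)) (l 16615656)) (l 16608160)) (l 6)) (l 6)) (l 6)))), by decide +kernel⟩

def k149_pp_022 : ∃ t, chk3 f_pp_022 t 69 118 9 = true :=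
  ⟨(a (c (l 16526664) (c (l 16511512) (a (l 16551984) (a (a (l 16499512) (c (l 16539352) (b (l 16522776) (l 16555024)))) (c (a (b (l 16520088) (l 16552328)) (b (l 16520840) (l 16553128))) (l 16525136)))))) (c (a (b (l 16505976) (l 16517272)) (c (a (l 16535408) (a (l 16529160) (c (l 16527536) (c (l 16523760) (b (l 16507720) (l 16540088)))))) (a (c (a (l 16529920) (b (l 16510600) (l 16542928))) (a (c (a (l 16527200) (l 16505536)) (l 16509032)) (l 16511968))) (a (c (c (b (l 16508720) (l 16541072)) (l 16528960)) (l 16539624)) (l 16518336))))) (c (a (a (c (l 16534632) (a (b (l 16517456) (l 16549728)) (b (l 16519192) (l 16551512)))) (c (c (a (l 16529840) (l 16488728)) (b (l 16518256) (l 16550600))) (l 16544440))) (l 16515792)) (l 16509984)))), by decide +kernel⟩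

def k150_pp_022 : ∃ t, chk3 f_pp_022 t 276 119 9 = true :=
  ⟨(b (b (l 16565504) (c (c (c (a (b (c (l 16623832) (l 16640216)) (a (c (a (l 16662840) (l 16636816)) (b (l 16649032) (l 16633352))) (c (l 16630720) (l 16646184)))) (l 16637120)) (l 16615152)) (l 16607624)) (l 16592480))) (a (c (c (b (c (b (a (l 16628224) (c (b (l 16640056) (l 16668456)) (b (l 16652984) (a (l 16659912) (l 16656240))))) (l 16638128)) (b (a (l 16654992) (l 16650336)) (c (a (l 16646576) (l 16660464)) (l 16659064)))) (c (l 16661368) (c (b (l 16656048) (l 16670504)) (b (a (l 16650424) (l 16665008)) (a (l 16663376) (l 16654664)))))) (b (l 16627664) (c (c (b (l 16663992) (l 16652168)) (l 16665272)) (l 16661504)))) (b (l 16612536) (l 16648896))) (c (c (b (c (b (c (a (l 16634912) (l 16648816)) (l 16647848)) (a (c (b (l 16644488) (l 16673056)) (b (l 16636024) (a (l 16664152) (l 16660328)))) (c (l 16639176) (l 16653936)))) (l 16626984)) (c (b (a (l 16658096) (c (l 16652976) (b (a (l 16662400) (l 16659144)) (a (l 16668472) (l 16664496))))) (l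 16647248)) (b (a (l 16641872) (l 16657904)) (c (a (l 16655224) (l 16647640)) (l 16666896))))) (b (l 16619456) (l 16635208))) (b (b (l 16621296) (l 16608344)) (l 16620072))))), by decide +kernel⟩

def k151_pp_022 : ∃ t, chk3 f_pp_022 t 277 119 9 = true :=
  ⟨(c (b (l 16608400) (b (c (a (b (l 16637912) (l 16625424)) (l 16633472)) (l 16627656)) (b (a (c (c (c (a (b (l 16660816) (l 16646368)) (l 16656968)) (l 16655688)) (l 16651616)) (l 16644080)) (l 16640616)) (a (c (c (a (c (l 16657608) (b (a (l 16666608) (l 16663208)) (l 16650208))) (c (a (l 16649792) (l 6)) (l 16640968))) (a (l 16661768) (l 16657600))) (l 16631128)) (l 6))))) (a (a (b (l 16594800) (b (l 16619088) (a (l 16615104) (b (l 16630208) (b (l 16636280) (l 6)))))) (c (l 16569656) (c (l 16562048) (b (l 16566408) (c (a (l 16617536) (l 16616992)) (l 16599792)))))) (c (l 16584248) (c (a (b (l 16584672) (l 16617120)) (b (l 16564544) (c (l 16615288) (l 16619688)))) (l 16569064))))), by decide +kernel⟩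

def k152_pp_022 : ∃ t, chk3 f_pp_022 t 139 119 9 = true :=
  ⟨(a (c (a (l 16590944) (b (l 16566448) (c (l 16624800) (l 16593984)))) (c (a (c (l 16557424) (c (a (l 16597632) (b (l 16580848) (l 16613352))) (a (b (l 16581784) (l 16614272)) (l 16602688)))) (c (a (b (c (l 16578376) (l 16580008)) (c (l 16610872) (l 16612536))) (b (l 16582648) (l 16594240))) (l 16588520))) (l 16582528))) (a (c (c (l 16579264) (a (c (l 16594752) (b (c (l 16575752) (l 16578632)) (c (l 16608288) (l 16611192)))) (c (a (l 16549808) (b (l 16574560) (l 6))) (b (l 16581640) (l 16614240))))) (c (l 16574200) (l 16603448))) (b (c (c (c (l 16578216) (a (l 16575240) (c (l 16572392) (l 16551592)))) (c (a (c (l 16573528) (l 16577648)) (l 16580912)) (l 16591904))) (l 16607240)) (l 6)))), by decide +kernel⟩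

def k153_pp_022 : ∃ t, chk3 f_pp_022 t 68 58 10 = true :=
  ⟨(a (b (c (l 16457440) (a (l 16467288) (c (l 16453720) (a (l 16448056) (b (l 16431040) (l 16430592)))))) (a (b (l 16519040) (b (l 16500696) (a (l 16562176) (l 16532792)))) (c (l 16526568) (c (l 16511200) (a (l 16505520) (c (l 16498872) (l 16476544))))))) (c (b (a (l 16450688) (c (l 16437656) (a (b (l 16421872) (l 16442520)) (b (c (l 16416024) (l 16419496)) (c (l 16436712) (l 16440224)))))) (a (l 16508296) (c (l 16495400) (a (l 16489944) (c (l 16484192) (a (l 16485232) (l 16489056))))))) (c (a (b (a (l 16439864) (b (l 16424680) (c (l 16443696) (l 16444752)))) (a (l 16497456) (c (l 16491088) (a (l 16490400) (l 16492256))))) (b (b (l 16412768) (a (c (l 16442376) (l 16453632)) (l 16459528))) (a (c (a (l 16487672) (l 16490512)) (l 16501264)) (l 16507296)))) (b (a (a (c (b (l 16426776) (l 16447352)) (l 16446024)) (l 16451768)) (l 16471208)) (a (a (c (a (l 16493424) (l 16494280)) (l 16503824)) (l 16509752)) (l 16529632)))))), by decide +kernel⟩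

def k154_pp_022 : ∃ t, chk3 f_pp_022 t 68 58 11 = true :=
  ⟨(a (b (c (a (c (b (l 16442496) (l 16462904)) (a (c (l 16449888) (l 16432928)) (l 16406032))) (c (a (b (l 16437232) (c (l 16453248) (l 16459760))) (l 16454776)) (l 16477024))) (a (c (l 16480248) (b (a (l 16490112) (l 16495528)) (a (l 16510832) (l 16516360)))) (c (b (a (l 16486680) (l 16492160)) (a (l 16486536) (l 16513104))) (l 16505608)))) (c (a (b (c (l 16494224) (a (l 16473752) (l 16500152))) (c (a (b (l 16521528) (l 16536472)) (b (l 16513664) (a (l 16530304) (l 16506488)))) (a (b (c (a (l 16516032) (l 16513168)) (a (l 16516352) (l 16520664))) (c (l 16529864) (l 16534016))) (b (l 16524024) (a (l 16494560) (l 16542448)))))) (c (a (c (l 16500520) (l 16507128)) (l 16512584)) (l 16535080))) (a (c (b (l 16522112) (b (l 16524968) (l 16519392))) (b (a (l 16542528) (l 16548168)) (a (b (a (l 16543776) (l 16548376)) (l 16539568)) (c (b (l 16571136) (a (l 16586112) (l 16589272))) (l 16582640))))) (c (a (c (l 16550520) (l 16540552)) (c (l 16539024) (l 16563560)))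 (l 16564168))))) (c (c (a (b (l 16474008) (l 16532248)) (b (b (a (l 16480448) (l 16486056)) (a (c (l 16496728) (l 16507496)) (c (l 16506112) (l 16509552)))) (a (c (l 16544824) (l 16513776)) (c (l 16512448) (l 16557912))))) (a (b (b (a (l 16483456) (l 16489008)) (c (l 16461712) (l 16489824))) (a (c (l 16547568) (l 16537544)) (c (l 16536120) (l 16560632)))) (b (l 16499472) (l 16558408)))) (b (l 16500488) (l 16559440)))), by decide +kernel⟩

def k155_pp_022 : ∃ t, chk3 f_pp_022 t 69 58 5 = true :=
  ⟨(c (c (c (a (a (a (b (b (l 16414888) (l 16414656)) (b (l 16467168) (l 16499120))) (b (b (c (l 16409856) (l 16415768)) (c (l 16409664) (l 16436592))) (c (b (l 16462224) (l 16494208)) (l 16463296)))) (b (b (l 16427576) (l 16448576)) (l 16433576))) (a (b (l 16443056) (l 16522992)) (a (b (c (l 16476584) (b (l 16476312) (a (l 16496944) (l 16499920)))) (c (l 16535880) (a (l 16524656) (l 16527712)))) (b (c (b (l 16475272) (a (l 16495952) (l 16498944))) (l 16489424)) (c (a (l 16502752) (l 16526800)) (l 16549064)))))) (a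 (b (b (l 16422120) (a (l 16409328) (l 16476784))) (a (b (l 16462032) (l 16473184)) (l 16525000))) (a (a (b (c (l 16478688) (b (l 16478528) (l 16478968))) (c (l 16537816) (b (l 16532200) (l 16543896)))) (b (c (b (l 16477392) (l 16477888)) (l 16491512)) (c (a (l 16525632) (l 16528680)) (l 16550976)))) (b (l 16489688) (l 16549336))))) (a (c (a (b (l 16468608) (l 16527216)) (b (b (a (l 16454080) (l 16480792)) (a (c (l 16491600) (l 16502256)) (c (l 16501072) (l 16504472)))) (a (c (l 16539944) (b (l 16534432) (l 16567016))) (c (a (l 16527744) (l 16551728)) (l 16553080))))) (a (b (b (a (l 16477648) (l 16483320)) (a (c (l 16494064) (l 16504776)) (c (l 16503488) (l 16506912)))) (a (c (l 16542280) (l 16511176)) (c (l 16499472) (l 16555392)))) (b (l 16494168) (l 16553472)))) (b (l 16490264) (l 16549936)))) (b (b (l 16480776) (l 16502336)) (a (l 16553936) (l 16548840)))), by decide +kernel⟩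

def k156_pp_022 : ∃ t, chk3 f_pp_022 t 68 118 10 = true :=
  ⟨(a (a (l 16552832) (b (a (b (l 16539440) (l 16575432)) (c (b (l 16561744) (l 16577400)) (b (c (l 16546392) (l 16538712)) (c (l 16562056) (c (l 16554344) (a (l 16552104) (b (l 16548448) (l 16556288)))))))) (c (l 16603856) (c (l 16588528) (a (l 16582232) (c (l 16576840) (l 16575544))))))) (a (c (b (l 16556136) (b (a (l 16563336) (l 16575656)) (a (l 16599416) (l 16570360)))) (b (c (a (l 16545288) (c (l 16538968) (l 16540136))) (a (c (l 16521656) (l 16551824)) (l 16557896))) (c (a (b (l 16547984) (l 16584080)) (b (c (l 16563008) (a (l 16562336) (l 16564312))) (c (a (l 16580656) (l 16576712)) (a (a (l 16577392) (l 16556472)) (b (l 16576360) (l 16584160)))))) (a (b (c (a (b (l 16561088) (l 16568616)) (b (l 16562232) (l 16570048))) (l 16554608)) (c (l 16581456) (l 16590752))) (b (l 16582064) (l 16576864)))))) (a (c (a (l 16539976) (l 16514784)) (c (c (a (b (l 16535624) (b (l 16559696) (l 16554792))) (l 16554632)) (l 16544536)) (l 16545624))) (c (c (l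 16554968) (c (l 16506304) (a (l 16507376) (l 16553264)))) (l 16544472))))), by decide +kernel⟩

def k157_pp_022 : ∃ t, chk3 f_pp_022 t 68 118 11 = true :=
  ⟨(c (c (a (b (a (l 16523824) (a (b (c (a (l 16539736) (l 16517960)) (a (l 16543512) (l 16549648))) (c (l 16555072) (l 16561784))) (b (l 16552568) (a (l 16564880) (l 16571712))))) (a (l 16563888) (a (c (l 16577288) (l 16584048)) (l 16590912)))) (a (b (l 16580592) (b (a (l 16576768) (l 16611640)) (a (l 16612992) (l 16606544)))) (a (c (l 16588720) (a (b (l 16603552) (l 16615184)) (l 16601936))) (c (a (l 16597648) (l 16600704)) (l 16623144))))) (a (a (a (c (l 16566496) (l 16549728)) (a (l 16552432) (l 16579800))) (b (b (l 16533096) (l 16548592)) (l 16613152))) (a (b (a (c (l 16596032) (l 16607112)) (l 16564992)) (a (b (c (l 16620016) (a (l 16609192) (l 16612536))) (l 16608848)) (b (c (l 16609200) (l 16633824)) (c (a (l 16624120) (c (l 16626912) (l 16649720))) (l 16649792))))) (l 16602680)))) (a (a (c (l 16577584) (a (c (l 16613632) (l 16582920)) (a (l 16583464)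 (l 16585552)))) (b (c (a (b (c (l 16590496) (a (l 16600672) (l 16603896))) (l 16589688)) (b (l 16601600) (c (a (l 16594384) (l 16618640)) (l 16619976)))) (b (l 16604472) (l 16620088))) (c (a (l 16591240) (l 16598456)) (l 16642912)))) (b (l 16608352) (a (b (a (l 16634688) (l 16633600)) (l 16628848)) (l 16639752))))), by decide +kernel⟩

def k158_pp_022 : ∃ t, chk3 f_pp_022 t 68 119 10 = true :=
  ⟨(c (a (b (l 16620864) (l 16651392)) (a (l 16612216) (b (a (b (a (l 16600568) (b (l 16592840) (l 16600624))) (l 16613920)) (c (b (l 16595152) (l 16589888)) (b (a (c (l 16589680) (c (l 16587232) (l 16590584))) (c (l 16586624) (l 16593584))) (c (a (l 16605256) (b (a (l 16598656) (l 16597912)) (l 16606432))) (a (c (l 16602808) (l 16606184)) (l 16588544)))))) (c (l 16637768) (a (l 16631824) (c (l 16627144) (a (l 16607064) (l 16632568)))))))) (a (a (l 16623672) (c (l 16612784) (a (l 16627480) (c (l 16622064) (a (l 16598680) (l 16578272)))))) (a (c (a (l 16621816) (c (l 16616600) (a (l 16578992) (l 16576304)))) (a (c (a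 (l 16596576) (l 16577160)) (l 16607648)) (l 16614984))) (a (a (c (c (b (c (l 16597184) (l 16578312)) (l 16629384)) (l 16582752)) (l 16605120)) (b (b (b (l 16591776) (l 16599608)) (l 16611048)) (l 16613128))) (b (b (l 16606016) (l 16579944)) (c (l 16651120) (l 16660056))))))), by decide +kernel⟩

def k159_pp_022 : ∃ t, chk3 f_pp_022 t 68 119 11 = true :=
  ⟨(c (c (a (a (a (l 16633232) (b (l 16611256) (l 16620848))) (a (c (a (l 16622016) (l 16579640)) (l 16587480)) (l 16594408))) (a (b (l 16622160) (l 16652960)) (b (a (b (c (l 16629056) (a (l 16639168) (c (l 16642008) (l 16664824)))) (c (l 16665488) (l 16655736))) (b (c (a (l 16638488) (l 16662624)) (l 16664088)) (c (a (l 16654336) (b (l 16653912) (l 16682792))) (l 16680104)))) (a (c (l 16667744) (l 16658048)) (c (l 16668320) (l 16703520)))))) (a (a (a (c (l 16605688) (l 16589032)) (l 16574344)) (b (l 16622496) (l 16653312))) (a (a (c (l 16631664) (a (l 16641768) (l 16645408))) (c (a (l 16641536) (l 16645176)) (l 16667432))) (b (b (a (l 16664856) (l 16663992))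 (l 16659224)) (l 16703600))))) (a (c (a (b (l 16622872) (l 16632736)) (a (c (l 16632096) (a (l 16642248) (l 16645904))) (c (a (l 16642000) (l 16645648)) (l 16667920)))) (a (a (c (l 16632560) (l 16643968)) (c (l 16633216) (l 16668448))) (l 16668008))) (a (l 16667472) (b (b (a (l 16664664) (l 16663792)) (l 16659072)) (l 16703520))))), by decide +kernel⟩

def k160_pp_022 : ∃ t, chk3 f_pp_022 t 138 59 20 = true :=
  ⟨(b (a (a (b (c (l 16510200) (l 16519888)) (c (c (l 16564784) (l 16561288)) (l 16531184))) (c (c (a (l 16542312) (b (l 16525000) (l 16557208))) (a (l 16503512) (l 16551208))) (l 16569648))) (b (l 16517384) (l 16549912))) (b (a (c (a (a (l 16575672) (c (l 16594864) (l 16591968))) (c (a (l 16590680) (l 16568552)) (l 16576096))) (a (a (a (b (l 16592584) (b (l 16604728) (b (l 16589808) (l 16593720)))) (l 16582160)) (l 16608016)) (l 16618376))) (l 16561584)) (a (c (a (a (l 16627944) (b (b (a (l 16613896) (c (l 16613960) (l 16601080))) (l 16621544)) (c (l 16634248) (l 16631368)))) (b (a (c (b (l 16610904)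 (l 16618888)) (b (l 16614152) (a (l 16599632) (l 16623024)))) (c (l 16592856) (l 16624112))) (a (c (l 16630496) (l 16633768)) (c (b (c (l 16624264) (a (l 16624760) (l 16626944))) (l 16633632)) (l 16640056))))) (a (a (a (l 16600456) (l 16613640)) (b (l 16611128) (l 16647576))) (b (l 16600824) (l 16637680)))) (a (b (l 16600152) (a (a (b (l 16607200) (l 16615168)) (l 16614576)) (l 16640840))) (c (l 16649320) (l 16657968)))))), by decide +kernel⟩

def k161_pp_022 : ∃ t, chk3 f_pp_022 t 139 59 20 = true :=
  ⟨(b (c (a (l 16567232) (a (c (l 16601424) (a (l 16569352) (l 16572520))) (c (a (b (l 16593952) (l 16605960)) (b (l 16597104) (l 16630144))) (l 16614960)))) (a (a (c (l 16603192) (a (l 16571192) (l 16574328))) (c (a (l 16570248) (l 16573400)) (l 16616704))) (l 16615256))) (c (a (b (l 16616408) (c (l 16641960) (l 16656736))) (b (a (c (l 16650848) (a (l 16639840) (l 16643088))) (c (a (l 16639056) (l 16642320)) (l 16664648))) (a (c (l 16662976) (a (l 16673008) (l 16676304))) (l 6)))) (a (a (b (c (l 16652496) (a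 (l 16641560) (l 16644784))) (c (l 16664544) (a (l 16674648) (l 16677920)))) (c (b (a (l 16640680) (l 16643912)) (a (l 16673800) (l 16677088))) (l 16661904))) (l 16660640)))), by decide +kernel⟩

def k162_pp_022 : ∃ t, chk3 f_pp_022 t 69 59 21 = true :=
  ⟨(a (a (b (c (l 16571128) (a (c (l 16607328) (b (l 16581000) (l 16613720))) (c (a (l 16574328) (l 16598392)) (l 16620800)))) (b (c (l 16599064) (a (c (l 16635384) (a (b (l 16658352) (a (l 16652888) (l 16655280))) (l 16648752))) (c (l 16624504) (l 16670120)))) (c (b (a (l 16616200) (l 16630536)) (l 16639136)) (a (c (l 16646368) (a (l 16677408) (b (b (l 16669240) (l 16698120)) (l 16688872)))) (b (a (c (a (l 16668256) (l 16670680)) (l 16695064)) (l 16672912)) (c (a (l 16685032) (a (l 16688440) (l 16689464))) (l 16689920))))))) (b (c (a (c (l 16605160) (a (l 16573232) (l 16597312))) (c (a (l 16572192) (l 16575312)) (l 16618648))) (l 16619056)) (c (a (a (b (l 16615600) (b (l 16661264) (c (l 16670944) (b (l 16680600) (c (l 16686216) (l 16691832)))))) (c (l 16632344)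 (b (l 16646672) (c (l 16679104) (l 16680952))))) (c (a (b (l 16642496) (l 16675536)) (b (l 16645704) (l 16678792))) (l 16663688))) (b (l 16668520) (b (l 16693352) (a (l 16689368) (l 16709464))))))) (b (l 16615896) (l 16640360))), by decide +kernel⟩

def k163_pp_022 : ∃ t, chk3 f_pp_022 t 69 59 11 = true :=
  ⟨(b (a (l 16598720) (l 16615176)) (a (b (a (l 16649416) (l 16668192)) (a (b (a (l 16674336) (l 16673672)) (l 16689944)) (b (l 16693136) (a (l 16689240) (l 16709320))))) (l 16640016))), by decide +kernel⟩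

def k164_pp_022 : ∃ t, chk3 f_pp_022 t 70 56 8 = true :=
  ⟨(a (c (l 16401912) (a (b (l 16383784) (a (l 16376552) (l 16358912))) (c (a (l 16388408) (b (l 16395896) (l 16370536))) (a (b (l 16391832) (c (l 16382336) (l 16389880))) (l 16408472))))) (a (c (c (l 16413120) (a (l 16402536) (b (l 16411560) (c (l 16405496) (l 16407984))))) (b (l 16390152) (c (a (l 16404784) (l 16425424)) (l 16440632)))) (c (c (b (a (l 16397696) (l 16427816)) (a (l 16415344) (c (l 16421264) (l 16426064)))) (b (l 16437264) (l 16413272))) (l 16454016)))), by decide +kernel⟩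

def k165_pp_022 : ∃ t, chk3 f_pp_022 t 140 57 8 = true :=
  ⟨(c (b (l 16391496) (b (a (b (l 16385544) (l 16389344)) (l 16386232)) (a (l 16400560) (b (l 16384904) (l 16388680))))) (b (a (a (l 16368096) (c (l 16375360) (c (l 16367904) (l 16344848)))) (c (a (l 16377840) (c (l 16382904) (a (l 16357912) (l 16385560)))) (a (c (a (l 16349672) (l 16376392)) (l 16381944)) (l 16398568)))) (a (a (l 16377272) (b (c (l 16349448) (c (l 16341928) (a (l 16337272) (b (l 16339680) (l 16349776))))) (c (l 16381384) (c (l 16373832) (c (l 16349656) (l 16371352)))))) (c (a (b (l 16369968) (l 16373824)) (b (c (l 16375032) (a (l 16349944) (l 16377744))) (c (a (l 16351272) (l 16350264)) (a (b (c (l 16366376) (l 16345264)) (l 16349064)) (b (l 16352128) (a (l 16349632) (l 16352584))))))) (a (b (c (a (l 16341728) (l 16368296)) (l 16374064)) (c (a (l 16347552) (c (b (l 16343040) (l 16349528)) (l 16371056))) (l 16377944))) (b (l 16390776) (l 16367144))))))), by decide +kernel⟩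

def k166_pp_022 : ∃ t, chk3 f_pp_022 t 141 57 8 = true :=
  ⟨(c (a (b (c (l 16404008) (a (l 16372056) (c (l 16377608) (a (l 16396128) (l 16404648))))) (c (l 16393856) (a (a (l 16360792) (l 16362248)) (c (b (l 16370272) (l 16364288)) (a (c (l 16363056) (l 16386264)) (l 16394496)))))) (c (b (a (l 16398328) (c (b (l 16395976) (l 16392048)) (l 16419888))) (a (c (l 16400680) (a (l 16394976) (b (l 16379816) (l 16384536)))) (a (c (l 16403016) (b (l 16407520) (c (l 16378192) (l 16403760)))) (c (b (l 16388680) (c (l 16403080) (l 16382976))) (l 16415312))))) (b (a (b (l 16418496) (l 16393464)) (l 16438912)) (a (a (c (c (l 16382384) (l 16396288)) (l 16406272)) (l 16411544)) (l 16429568))))) (b (a (c (a (c (a (l 16387376) (l 16394976)) (l 16401864)) (l 16418672)) (l 16433872)) (l 16467488)) (a (a (c (c (a (b (l 16358712) (c (l 16351744) (b (l 16354088) (l 16351360)))) (l 16363480)) (l 16391512)) (l 16411920)) (l 16422168)) (l 16437280)))), by decide +kernel⟩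

def k167_pp_022 : ∃ t, chk3 f_pp_022 t 70 28 9 = true :=
  ⟨(a (c (b (a (a (c (b (l 16375488) (c (l 16366224) (l 16371448))) (l 16393656)) (l 16382208)) (l 16416208)) (b (a (c (a (c (a (l 16334136) (l 16358832)) (l 16362888)) (l 16378880)) (l 16394088)) (l 16427424)) (a (a (c (c (a (l 16366408) (b (c (l 16335616) (l 16357840)) (l 16372792))) (a (b (l 16360712) (l 16376592)) (l 16374384))) (l 16391688)) (b (b (l 16385912) (l 16366648)) (l 16398552))) (b (l 16419896) (b (l 16397688) (l 16422544)))))) (b (a (c (l 16431952) (b (l 16433152) (a (l 16442600) (l 16458720)))) (c (b (l 16451376) (a (l 16461536) (l 16477712))) (l 16477104))) (b (a (c (l 16421344) (a (c (l 16430128) (l 16440344)) (l 16430096))) (c (a (c (l 16449712) (l 16459896)) (c (l 16469792) (l 16473024))) (l 16467832))) (a (c (b (l 16420768) (l 16433280)) (c (a (l 16439952) (b (a (l 16442608) (l 16448584)) (l 16456984))) (a (b (l 16421360) (l 16457976)) (l 16455088)))) (c (a (b (c (l 16442272) (l 16452520)) (c (l 16446496) (a (l 16455208) (l 16459000))))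 (c (b (l 16462456) (a (l 16436168) (l 16463160))) (l 16464968))) (b (l 16460528) (l 16462328))))))) (b (c (a (c (l 16469392) (b (l 16448760) (a (l 16480616) (l 16496840)))) (c (b (l 16467264) (a (l 16499824) (l 16516104))) (l 16514720))) (l 16504904)) (c (c (a (b (l 16460952) (l 16430256)) (a (c (l 16464248) (b (l 16499656) (a (l 16486856) (l 16495416)))) (c (b (l 16509680) (a (l 16497248) (l 16505824))) (l 16508848)))) (a (a (b (c (l 16469552) (l 16479712)) (c (l 16459784) (a (b (l 16469008) (l 16463528)) (l 16474696)))) (c (b (l 16489672) (a (l 16476496) (l 16485040))) (l 16488464))) (l 16482560))) (b (l 16497272) (l 16488040))))), by decide +kernel⟩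

def k168_pp_022 : ∃ t, chk3 f_pp_022 t 71 28 4 = true :=
  ⟨(c (a (c (b (b (l 16449240) (l 16426576)) (b (a (c (l 16405824) (l 16474272)) (l 16487072)) (a (a (a (b (l 16416008) (c (l 16397304) (l 16444880))) (l 16446128)) (l 16464184)) (l 16479344)))) (b (a (c (l 16507376) (b (l 16485896) (a (l 16519160) (l 16535496)))) (c (b (l 16504656) (a (l 16538624) (l 16555008))) (l 16552856))) (a (c (b (l 16501176) (l 16492816)) (a (c (l 16484720) (b (l 16519728) (a (l 16507672) (l 16516256)))) (c (b (l 16529808) (a (l 16518120) (l 16526720))) (l 16529360)))) (c (a (c (l 16484344) (b (l 16539920) (a (l 16528600) (l 16537208)))) (c (b (l 16550056) (a (l 16539112) (l 16547728))) (l 16549992))) (l 16518448))))) (b (c (a (c (l 16524896) (b (l 16523544) (c (l 16542160) (l 16548752)))) (c (b (l 16542560) (a (l 16556944) (l 16573424))) (l 16591504))) (l 16581608)) (c (a (c (b (l 16541872) (l 16535024)) (a (c (l 16505056) (b (l 16560224) (a (l 16549648) (l 16558280)))) (c (b (l 16570424) (a (l 16560216) (l 16568856))) (l 16570736))))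 (a (c (b (c (l 16570632) (l 16580648)) (c (l 16564456) (a (l 16570808) (l 16579456)))) (l 16560120)) (c (c (b (l 16569928) (a (l 16581424) (l 16590088))) (l 16591592)) (l 16591416)))) (b (l 16578432) (l 16572120))))) (b (b (l 16540824) (l 16540248)) (b (l 16515472) (a (l 16529416) (l 16571216))))), by decide +kernel⟩

def k169_pp_022 : ∃ t, chk3 f_pp_022 t 35 28 5 = true :=
  ⟨(b (a (b (l 16464952) (a (l 16463512) (l 16501248))) (b (l 16539288) (l 16538568))) (a (b (a (c (l 16457008) (l 16454912)) (l 16495080)) (a (b (a (c (l 16446960) (l 16444720)) (l 16458136)) (a (l 16458608) (l 16459896))) (b (l 16488272) (l 16482768)))) (b (a (l 16535160) (l 16576088)) (b (l 16529384) (l 16503856))))), by decide +kernel⟩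

def k170_pp_022 : ∃ t, chk3 f_pp_022 t 140 116 8 = true :=
  ⟨(c (b (l 16408144) (l 16408304)) (a (c (b (l 16401400) (l 16422480)) (b (a (l 16395496) (c (l 16389672) (a (l 16366104) (l 16386560)))) (a (l 16416552) (c (l 16410768) (a (l 16408160) (c (l 16405800) (l 16408304))))))) (c (a (b (l 16388960) (l 16410104)) (c (b (l 16383304) (l 16404480)) (b (a (c (l 16381544) (l 16360440)) (l 16385912)) (a (c (l 16402704) (b (l 16373880) (l 16389344))) (c (b (l 16388720) (l 16388464)) (l 16406584)))))) (a (c (b (a (l 16363384) (c (l 16361440) (l 16386072))) (a (b (l 16387264) (l 16392232)) (c (b (l 16374856) (l 16390320)) (l 16407256)))) (b (l 16393136) (l 16414352))) (b (l 16399224) (l 16420528)))))), by decide +kernel⟩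

def k171_pp_022 : ∃ t, chk3 f_pp_022 t 282 116 16 = true :=
  ⟨(a (b (a (l 16389736) (b (b (l 16360776) (l 16362848)) (l 16389752))) (b (b (l 16397832) (l 16404704)) (l 16416744))) (b (c (b (l 16387664) (l 16368528)) (c (a (l 16375208) (b (l 16360240) (a (l 16359592) (b (c (l 16379688) (l 16357776)) (l 16360072))))) (a (b (c (b (l 16355752) (l 16355016)) (l 16357808)) (c (l 16359136) (l 16361384))) (b (l 16365480) (b (l 16363920) (l 16366152)))))) (c (l 16405880) (c (a (l 16400360) (c (l 16397608) (a (l 16396168) (b (l 16377440) (l 16382448))))) (b (a (c (l 16384360) (l 16370896)) (l 16394664)) (a (c (l 16384128) (l 16407376)) (l 16410192))))))), by decide +kernel⟩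

def k172_pp_022 : ∃ t, chk3 f_pp_022 t 283 116 16 = true :=
  ⟨(b (c (a (a (l 16367280) (c (l 16391896) (c (l 16388152) (a (l 16364824) (l 16368056))))) (c (c (l 16374760) (a (l 16392344) (a (l 16374048) (l 16378208)))) (a (c (a (l 16369376) (l 16373072)) (l 16397232)) (l 16406048)))) (a (a (c (c (b (l 16363936) (a (l 16359544) (l 16361568))) (b (l 16388344) (l 16364600))) (l 16397104)) (l 16402032)) (l 16420344))) (c (a (a (l 16399896) (c (b (l 16381224) (l 16406176)) (b (c (l 16377464) (b (a (l 16369976) (b (l 16363960) (l 16374384))) (a (l 16368424) (l 16368856)))) (c (l 16402416) (a (l 16380488) (l 16380928)))))) (c (a (b (b (l 16389176) (l 16370656)) (l 16402256)) (b (c (l 16371816) (a (c (l 16369528) (l 16370256)) (l 16374392))) (c (b (a (l 16396912) (l 16375536)) (l 16382760)) (a (c (l 16378104) (l 16389328)) (b (l 16377624) (l 16383928)))))) (a (b (c (b (a (l 16364952) (l 16368680)) (a (a (l 16367360) (l 16367680)) (l 16380672))) (l 16373328)) (c (a (l 16379440) (l 16380352)) (l 16405936))) (b (l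 16402240) (l 16410072))))) (a (a (c (c (a (l 16394872) (b (c (l 16365112) (l 16366536)) (l 16381632))) (b (l 16369976) (l 16406464))) (l 16408824)) (b (b (l 16398944) (l 16404296)) (l 16416408))) (b (b (l 16416032) (l 16418056)) (l 16427056))))), by decide +kernel⟩

def k173_pp_022 : ∃ t, chk3 f_pp_022 t 141 116 17 = true :=
  ⟨(a (b (a (c (c (a (c (l 16357688) (l 16358744)) (b (a (l 16366632) (l 16359632)) (l 16365080))) (l 16392424)) (l 16412976)) (b (l 16414752) (l 16416656))) (c (a (c (a (c (l 16399840) (b (l 16390544) (l 16387680))) (b (c (l 16387232) (l 16398312)) (l 16411080))) (l 16413080)) (l 16419456)) (l 16440392))) (b (l 16407472) (b (a (l 16397480) (l 16416472)) (l 16419496)))), by decide +kernel⟩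

def k174_pp_022 : ∃ t, chk3 f_pp_022 t 140 117 8 = true :=
  ⟨(c (b (l 16461048) (l 16493216)) (a (c (l 16470320) (a (l 16464392) (c (l 16458648) (a (b (l 16439944) (l 16472128)) (b (c (l 16437608) (l 16440136)) (c (l 16469808) (l 16472360))))))) (c (a (l 16458016) (c (b (l 16436320) (l 16468560)) (c (a (l 16450656) (b (l 16438816) (a (l 16464880) (l 16465952)))) (a (b (l 16434432) (a (l 16465952) (l 16466552))) (l 16454648))))) (a (c (c (a (l 16453760) (b (l 16435400) (l 16467632))) (a (b (l 16436456) (l 16468672)) (l 16434288))) (b (l 16446264) (l 16478568))) (l 16426784))))), by decide +kernel⟩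

def k175_pp_022 : ∃ t, chk3 f_pp_022 t 141 117 8 = true :=
  ⟨(a (c (c (b (l 16441760) (l 16474016)) (a (a (l 16453888) (b (l 16439176) (c (l 16468512) (l 16463808)))) (a (c (l 16448384) (b (c (l 16429248) (l 16431544)) (c (a (l 16461760) (l 16460816)) (l 16469104)))) (c (a (b (l 16429296) (l 16461584)) (c (l 16444664) (b (l 16427592) (l 16465144)))) (b (l 16434392) (c (l 16463392) (l 16469976))))))) (c (a (c (c (a (b (l 16431704) (l 16463960)) (b (l 16437368) (a (l 16463104) (l 16465120)))) (a (b (l 16438040) (a (l 16463928) (l 16465472))) (l 16454192))) (l 16461264)) (l 16425832)) (l 16446968))) (c (c (a (c (b (l 16432320) (l 16464624)) (a (l 16445448) (c (l 16448000) (b (a (l 16425632) (l 16431336)) (a (l 16457952) (b (l 16429360) (l 16445560))))))) (c (a (b (l 16426432) (l 16458768)) (b (c (l 16423896) (a (b (l 16405136) (l 16426528)) (l 16425088))) (c (l 16456240) (a (c (l 16455360) (l 16456120)) (l 16457464))))) (a (b (c (a (l 16427224) (l 16425528)) (l 16430160)) (c (a (b (l 16427864) (l 16444064))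 (l 16461160)) (l 16462552))) (b (l 16433448) (l 16465880))))) (a (c (a (b (c (a (l 16426792) (l 16432024)) (l 16430664)) (c (a (l 16459096) (b (l 16430040) (l 16446224))) (l 16463016))) (b (l 16433800) (l 16466192))) (l 16413256)) (b (l 16450736) (l 16483288)))) (b (l 16464544) (l 16497336)))), by decide +kernel⟩

def k176_pp_022 : ∃ t, chk3 f_pp_022 t 140 58 9 = true :=
  ⟨(c (b (a (c (a (b (c (a (l 16390080) (l 16388600)) (l 16395328)) (c (a (l 16411120) (c (l 16408432) (l 16409728))) (a (c (l 16410584) (l 16415704)) (l 16418824)))) (b (l 16400880) (b (l 16414328) (l 16429832)))) (b (l 16421704) (l 16443016))) (b (l 16433992) (l 16434520))) (a (c (a (c (a (l 16458960) (c (l 16456296) (b (l 16441520) (l 16473712)))) (a (b (l 16445272) (l 16456504)) (l 16466824))) (b (l 16412064) (c (l 16458456) (l 16493072)))) (l 16470328)) (l 16441136))) (c (a (b (b (l 16449472) (l 16470968)) (l 16498584)) (a (b (c (l 16451984) (b (l 16472472) (a (l 16493280) (l 16496320)))) (c (l 16532600) (a (b (l 16525760) (l 16558640))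 (b (l 16528848) (l 16561792))))) (b (c (b (l 16471640) (a (l 16492488) (l 16495544))) (l 16485848)) (c (a (b (l 16525008) (l 16557928)) (b (l 16528112) (l 16561088))) (l 16545832))))) (a (a (b (c (l 16474672) (b (l 16474288) (a (l 16495016) (l 16498024)))) (c (l 16534144) (a (l 16501872) (l 16504960)))) (b (c (b (l 16473360) (a (l 16494120) (l 16497144))) (l 16487536)) (c (a (b (l 16526560) (l 16559408)) (b (l 16529640) (l 16562536))) (l 16547352)))) (b (l 16486008) (l 16546000))))), by decide +kernel⟩

def k177_pp_022 : ∃ t, chk3 f_pp_022 t 141 58 9 = true :=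
  ⟨(c (b (a (c (b (b (l 16447032) (l 16451064)) (l 16468072)) (b (a (c (l 16461200) (a (l 16469952) (b (l 16470128) (l 16477072)))) (c (a (b (l 16469496) (l 16473320)) (b (l 16477480) (l 16477544))) (l 16478104))) (a (c (l 16482296) (a (l 16470768) (l 16494808))) (c (a (c (l 16488752) (l 16493936)) (l 16473160)) (l 16495296))))) (c (b (a (c (l 16471632) (a (c (l 16475936) (l 16481080)) (l 16486448))) (c (a (l 16488408) (l 16497144)) (l 16495456))) (a (c (l 16481552) (a (c (l 16488112) (l 16493280)) (c (b (l 16475592) (l 16500912)) (l 16495240)))) (c (b (a (b (l 16484256) (l 16486848)) (l 16493640)) (a (l 16497736) (c (l 16501224) (l 16502864)))) (b (l 16492648) (l 16502672))))) (b (l 16490176) (b (l 16490552) (l 16502504))))) (c (a (l 16474960) (a (c (l 16530096) (a (b (l 16523040) (l 16535104)) (b (l 16526184) (l 16538312)))) (c (a (b (l 16501504) (c (l 16553224) (l 16558472))) (b (l 16525640) (l 16535176))) (l 16543368)))) (a (a (c (l 16531248) (a (b (l 16524304) (l 16557264)) (b (l 16527424) (l 16560440))))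 (c (a (b (l 16523648) (l 16535672)) (b (l 16526784) (l 16559840))) (l 16544504))) (l 16543440)))) (b (b (a (l 16476800) (l 16489432)) (a (l 16495152) (b (l 16489800) (l 16501784)))) (l 16543624))), by decide +kernel⟩

def k178_pp_022 : ∃ t, chk3 f_pp_022 t 142 58 16 = true :=
  ⟨(b (a (b (c (a (c (a (c (a (l 16378840) (l 16404432)) (l 16408080)) (l 16416904)) (l 16424376)) (l 16442024)) (l 16457016)) (a (c (a (b (c (c (a (c (l 16374088) (l 16375408)) (l 16379712)) (l 16404336)) (l 16414552)) (c (c (a (b (l 16388192) (c (l 16381128) (l 16382456))) (l 16383856)) (l 16388248)) (l 16419464))) (l 16401000)) (b (l 16441192) (l 16445912))) (l 16412208))) (b (l 16471344) (l 16428304))) (a (c (b (a (a (c (a (c (a (l 16426352) (l 16428128)) (l 16428192)) (l 16428168)) (l 16440168)) (b (l 16411656) (l 16448144))) (b (b (l 16445696) (l 16428224)) (l 16427232))) (a (c (a (a (c (c (l 16454296) (l 16455648)) (l 16460600)) (l 16460592)) (l 16465640)) (l 16476072)) (l 16482752))) (b (b (a (l 16456560) (l 16454272)) (l 16458392))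 (l 16503664))) (b (b (l 16476832) (a (b (l 16467704) (a (l 16466000) (l 16497144))) (l 16514696))) (b (a (l 16460328) (b (l 16497096) (a (l 16495792) (l 16505648)))) (a (l 16497456) (l 16490320)))))), by decide +kernel⟩

def k179_pp_022 : ∃ t, chk3 f_pp_022 t 142 116 17 = true :=
  ⟨(a (c (b (l 16484336) (b (l 16480920) (l 16464528))) (b (a (c (l 16492664) (a (l 16499120) (l 16507864))) (c (a (l 16509856) (l 16518616)) (l 16516928))) (a (c (l 16470840) (a (b (l 16495680) (c (l 16498536) (l 16503696))) (c (l 16506016) (l 16507656)))) (c (a (c (l 16506328) (l 16511472)) (c (l 16516944) (l 16518592))) (l 16515744))))) (c (b (a (c (l 16514208) (a (l 16520624) (l 16529392))) (c (a (l 16531424) (l 16540200)) (l 16538512))) (a (c (l 16513152) (a (c (l 16517288) (l 16522424)) (c (l 16527912) (l 16529552)))) (c (a (c (l 16528272) (l 16533400)) (c (l 16538904) (l 16540544))) (l 16537696)))) (b (l 16532912) (l 16532000)))), by decide +kernel⟩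

def k180_pp_022 : ∃ t, chk3 f_pp_022 t 142 117 17 = true :=
  ⟨(a (c (b (b (a (l 16484136) (l 16502816)) (l 16486064)) (l 16531488)) (a (c (b (l 16512960) (l 16545648)) (c (a (l 16536216) (b (b (l 16517056) (l 16532880)) (l 16557768))) (a (b (l 16524848) (l 16557992)) (b (l 16526704) (l 16559448))))) (b (c (a (b (c (l 16514216) (a (l 16517712) (l 16521104))) (l 16529768)) (b (l 16513624) (a (l 16532904) (l 16534384)))) (b (l 16523352) (l 16534528))) (c (a (c (l 16552336) (l 16557552)) (c (l 16557352) (l 16559032))) (l 16559040))))) (c (b (a (c (l 16501864) (a (c (l 16527120) (b (l 16529072) (a (l 16533528) (l 16536824)))) (c (a (l 16534984) (l 16539408)) (l 16538584)))) (c (a (c (l 16537288) (l 16542448)) (c (l 16548032) (l 16549688))) (l 16546800))) (a (c (l 16545112) (a (c (l 16551960) (l 16557168)) (c (a (l 16556480) (b (l 16550248) (l 16566424))) (l 16558904)))) (c (a (c (l 16529560) (b (a (l 16549448) (l 16552632)) (l 16565144))) (a (c (b (l 16552944) (l 16564472)) (l 16561248)) (b (l 16557424) (l 16566608))))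 (b (l 16554952) (l 16566848))))) (b (l 16541648) (b (a (l 16550528) (l 16554656)) (l 16566768))))), by decide +kernel⟩

def k181_pp_022 : ∃ t, chk3 f_pp_022 t 143 58 8 = true :=
  ⟨(c (a (b (c (b (l 16527680) (l 16506048)) (b (a (c (l 16535864) (a (l 16542240) (l 16551032))) (c (a (l 16553088) (l 16561896)) (l 16560200))) (a (c (l 16535176) (a (c (l 16539280) (l 16544408)) (c (l 16549920) (l 16551568)))) (c (a (c (l 16550320) (l 16555440)) (c (l 16560960) (l 16562608))) (l 16559760))))) (c (b (l 16515256) (b (l 16542920) (a (b (l 16533768) (l 16517056)) (l 16559824)))) (a (c (b (l 16544376) (b (l 16551064) (l 16536176))) (a (b (c (l 16548472) (l 16553624)) (c (b (l 16555152) (l 16561832)) (b (l 16560336) (a (b (l 16562104) (l 16568496)) (b (l 16545152) (l 16570536)))))) (c (b (l 16559224) (a (b (l 16564016) (l 16568728)) (l 16570744))) (l 16565528)))) (c (c (a (l 16564232) (b (l 16570440) (l 16558584))) (a (b (l 16564832) (l 16573856)) (l 16576712))) (l 16573800))))) (b (c (b (a (c (l 16557632) (a (l 16563968)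 (l 16572776))) (c (a (l 16574864) (l 16583688)) (l 16582000))) (a (c (l 16557312) (a (c (l 16561384) (l 16566496)) (c (l 16572032) (l 16573680)))) (c (a (c (l 16572472) (l 16577576)) (c (l 16583128) (l 16584776))) (l 16581928)))) (b (l 16576392) (l 16576224))) (c (a (c (l 16550520) (c (a (l 16575552) (b (l 16581688) (l 16570000))) (a (b (l 16576064) (l 16564288)) (l 16588048)))) (c (c (a (l 16586904) (b (l 16592952) (l 16581440))) (a (b (l 16587320) (l 16575720)) (l 16599400))) (l 16596488))) (l 16590664)))) (b (b (l 16565168) (l 16564800)) (b (l 16574352) (a (b (l 16570064) (a (l 16570608) (l 16580040))) (l 16594824))))), by decide +kernel⟩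

def k182_pp_022 : ∃ t, chk3 f_pp_022 t 71 58 9 = true :=
  ⟨(b (b (a (l 16521288) (l 16564168)) (a (b (l 16518064) (l 16501608)) (l 16563752))) (a (b (a (b (a (l 16517768) (l 16522360)) (l 16533784)) (b (l 16537728) (l 16543088))) (a (l 16558512) (b (a (l 16549544) (l 16553688)) (l 16565848)))) (b (l 16573328) (a (b (l 16569000) (a (l 16569528) (l 16579024))) (l 16593912))))), by decide +kernel⟩

def k183_pp_022 : ∃ t, chk3 f_pp_022 t 140 118 8 = true :=
  ⟨(c (c (b (a (b (l 16530528) (a (c (c (b (l 16550464) (a (l 16541152) (l 16556528))) (l 16552008)) (l 16548288)) (l 16542600))) (l 16522376)) (a (b (c (a (c (b (a (l 16553160) (c (l 16567424) (l 16564400))) (a (l 16588584) (l 16557608))) (b (l 16564728) (a (c (l 16579808) (l 16575600)) (l 16571120)))) (c (b (l 16558528) (a (c (l 16571760) (l 16568568)) (l 16564696))) (l 16560016))) (l 16560472)) (c (a (c (l 16606944) (b (a (l 16591864) (c (l 16584312) (l 16579920))) (l 16602136))) (c (b (a (l 16562120) (c (l 16555192) (l 16572792))) (a (l 16598048) (l 16566696)))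 (b (a (c (l 16576256) (l 16573720)) (l 16570144)) (a (c (l 16588880) (l 16563336)) (c (l 16559616) (l 16577872)))))) (a (c (b (a (c (l 16583792) (l 16580248)) (l 16576160)) (a (l 16595416) (c (l 16588232) (l 16584496)))) (b (l 16575368) (a (c (l 16588120) (l 16585224)) (l 16581480)))) (b (l 16568448) (l 16555888))))) (b (l 16546664) (a (c (c (b (l 16566776) (a (c (b (l 16577080) (l 16583472)) (l 16577080)) (l 16573056))) (l 16568160)) (l 16564424)) (l 16558896))))) (b (l 16520504) (l 16552888))) (a (c (l 16492904) (a (l 16528904) (c (l 16523224) (a (b (l 16504416) (l 16536808)) (b (c (l 16502112) (l 16504696)) (c (l 16534528) (l 16537136))))))) (c (a (l 16501664) (c (b (l 16500896) (l 16533344)) (c (a (l 16515336) (a (b (l 16497232) (l 16529696)) (b (l 16498328) (l 16530816)))) (a (a (b (l 16498296) (l 16530736)) (b (l 16498912) (l 16531384))) (l 16519472))))) (c (a (c (a (l 16518384) (a (b (l 16499480) (l 16531912)) (b (l 16499624) (l 16532072)))) (a (b (l 16500992) (l 16538664)) (b (l 16503768) (l 16536240))))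 (l 16474232)) (b (l 16496792) (l 16508408)))))), by decide +kernel⟩

def k184_pp_022 : ∃ t, chk3 f_pp_022 t 141 118 8 = true :=
  ⟨(a (c (c (b (l 16506384) (l 16538848)) (a (a (l 16497624) (a (l 16494640) (c (l 16516128) (b (l 16495256) (l 16531680))))) (a (c (l 16471208) (c (a (l 16510392) (b (l 16493216) (b (l 16517584) (l 16533856)))) (a (b (l 16494808) (l 16532560)) (l 16492632)))) (a (c (b (l 16493984) (l 16526488)) (c (b (l 16494256) (l 16526776)) (l 16496072))) (c (c (l 16514712) (a (b (l 16491928) (l 16524440)) (b (l 16492176) (l 16524696)))) (l 16475024)))))) (a (c (c (c (a (b (l 16496328) (l 16528792)) (a (b (l 16495488) (l 16532568)) (b (l 16497536) (l 16530064)))) (a (a (b (l 16496296) (l 16528776)) (b (l 16497872) (l 16530376))) (l 16498120))) (l 16484304)) (l 16505536)) (b (l 16509704) (l 16542496)))) (b (c (c (a (c (l 16497040) (a (l 16494008) (c (l 16491336) (a (l 16490376) (b (l 16482752) (l 16499000)))))) (c (a (l 16491200) (c (l 16488688) (a (c (l 16487808) (l 16488576)) (l 16489944))))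 (a (c (a (b (l 16470768) (l 16487016)) (b (l 16482224) (l 16498480))) (l 16495048)) (l 16498424)))) (a (c (a (c (a (l 16491504) (b (l 16483408) (l 16499656))) (l 16495472)) (l 16498696)) (l 16509240)) (l 16515952))) (l 16509264)) (c (a (c (c (l 16529552) (a (l 16526520) (b (a (l 16515792) (c (l 16514744) (l 16515280))) (l 6)))) (c (a (c (a (l 16524024) (b (l 16515920) (l 6))) (l 16528040)) (l 16531304)) (l 16541912))) (b (c (c (a (l 16515592) (c (l 16513088) (a (c (l 16512208) (l 16512984)) (l 16514368)))) (a (c (a (l 16508528) (l 16514760)) (l 16519480)) (l 16522888))) (l 16540512)) (l 6))) (l 16542272)))), by decide +kernel⟩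

def k185_pp_022 : ∃ t, chk3 f_pp_022 t 70 118 9 = true :=
  ⟨(a (c (c (a (c (a (a (l 16502512) (b (c (l 16504656) (l 16506016)) (c (l 16537032) (l 16538416)))) (a (b (l 16508560) (l 16520040)) (l 16531024))) (a (a (c (b (l 16506816) (l 16539208)) (l 16528280)) (l 16531560)) (l 16541840))) (l 16492376)) (b (l 16532744) (l 16544584))) (c (a (l 16543152) (a (c (l 16577488) (a (b (l 16591640) (l 16603768)) (b (l 16594840) (l 16607024)))) (c (a (b (l 16569992) (l 16603136)) (b (l 16594176) (l 16606400))) (l 16612048)))) (a (a (c (l 16599848) (a (b (l 16593128) (l 16605184)) (b (l 16596296) (l 16629376)))) (c (a (b (l 16592360) (l 16604456)) (b (l 16595544) (l 16628664))) (l 16613408))) (l 16612240)))) (c (c (a (l 16519840) (a (c (l 16575296) (c (a (l 16603496) (a (l 16566112) (l 16567760))) (a (a (l 16566360) (l 16568000)) (l 16610304)))) (c (c (a (l 16603040) (b (l 16591456) (l 16603824))) (a (a (l 16565880) (l 16567528)) (l 16609856))) (l 16609896)))) (a (a (c (l 16576304) (a (b (l 16569368) (l 16602544)) (b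 (l 16593568) (l 16605832)))) (c (a (b (l 16568784) (c (l 16620600) (l 16625960))) (b (l 16572032) (c (l 16625704) (l 16627448)))) (l 16610872))) (l 16609992))) (l 16589248))), by decide +kernel⟩

def k186_pp_022 : ∃ t, chk3 f_pp_022 t 280 238 4 = true :=
  ⟨(c (c (b (c (c (a (l 16611720) (c (l 16616584) (b (a (l 16601240) (c (l 16593528) (b (l 16585256) (l 16591520)))) (l 16611680)))) (a (c (l 16571600) (b (a (c (l 16601312) (l 16596368)) (c (l 16571512) (l 16589408))) (a (l 16613904) (c (l 16606000) (l 16579888))))) (c (b (a (b (l 16577328) (l 16572936)) (l 16584552)) (a (l 16604704) (c (l 16576344) (b (l 16590000) (l 16595664))))) (b (l 16583536) (a (c (b (l 16593472) (l 16599616)) (l 16593640)) (l 16589752)))))) (a (c (c (b (a (l 16591944) (l 16587040)) (a (c (l 16605000) (l 16600704)) (c (l 16597072) (l 16594640)))) (l 16590848)) (l 16586928)) (l 16581280))) (b (c (a (l 16623032) (a (a (l 16608984) (l 6)) (l 6))) (c (a (c (a (l 16617240) (c (l 16609616) (l 16589384))) (a (c (l 16588040) (l 16605360)) (l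 16601240))) (b (l 16594136) (l 6))) (l 16595056))) (l 6))) (c (l 16583496) (a (l 16577552) (c (l 16571920) (a (l 16569312) (c (l 16567040) (l 16569680))))))) (c (c (a (c (a (l 16572128) (c (l 16569520) (l 16549960))) (a (c (l 16550728) (l 16577024)) (l 16580376))) (a (b (l 16551376) (l 16562464)) (l 16587096))) (l 16584552)) (c (l 16613544) (a (c (l 16649392) (a (l 16638320) (l 16641592))) (c (a (l 16637624) (l 16640920)) (l 16663216)))))), by decide +kernel⟩

def k187_pp_022 : ∃ t, chk3 f_pp_022 t 281 238 4 = true :=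
  ⟨(b (c (a (c (c (b (c (c (a (l 16571344) (c (b (l 16581536) (l 16588120)) (b (l 16578448) (l 16583760)))) (a (c (b (l 16581728) (l 16587512)) (l 16582080)) (l 16578392))) (l 16576608)) (b (c (c (l 16577584) (a (c (l 16594280) (l 16589688)) (l 6))) (l 16582792)) (l 6))) (l 16573216)) (c (l 16563216) (c (a (c (l 16558960) (l 16557800)) (c (l 16556800) (l 16560664))) (l 16567960)))) (b (c (b (l 16564080) (b (l 16567176) (l 6))) (c (c (l 16553672) (a (c (l 16551880) (l 16551832)) (c (l 16551024) (l 16556096)))) (l 16570472))) (l 6))) (c (l 16589696) (c (a (c (l 16639832) (a (l 16649640) (l 16652928))) (c (a (l 16628056) (l 16652336)) (l 16653632))) (l 16653840)))) (l 6)), by decide +kernel⟩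

def k188_pp_022 : ∃ t, chk3 f_pp_022 t 141 238 4 = true :=
  ⟨(l 6), by decide +kernel⟩

def k189_pp_022 : ∃ t, chk3 f_pp_022 t 70 239 4 = true :=
  ⟨(l 6), by decide +kernel⟩

def k190_pp_022 : ∃ t, chk3 f_pp_022 t 71 59 4 = true :=
  ⟨(b (a (c (a (a (c (c (c (a (b (a (c (c (l 16486752) (l 16488120)) (l 16493112)) (l 16493112)) (a (c (c (l 16524560) (l 16520704)) (l 16525736)) (l 16525744))) (b (l 16498224) (l 16530904))) (b (l 16508720) (l 16541472))) (b (l 16529672) (l 16562584))) (c (l 16511360) (c (l 16574480) (c (a (l 16602624) (b (l 16591032) (l 16603440))) (a (b (l 16591240) (l 16603632)) (l 16609448)))))) (b (c (l 16487488) (c (l 16571432) (c (a (c (l 16585576) (l 16590840)) (c (l 16590664) (l 16592360))) (l 16592376)))) (l 6))) (b (c (l 16487128) (c (a (c (l 16578144) (a (c (l 16585240) (l 16569520)) (c (l 16569360) (l 16592032)))) (c (a (c (l 16584944) (a (l 16589648) (l 16591312))) (c (a (l 16589512) (l 16591176)) (l 16591744))) (l 16591728))) (l 16591720))) (l 6))) (b (l 16591440) (l 16625064)))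 (b (b (a (a (c (c (c (l 16548560) (c (l 16569424) (a (c (l 16576344) (l 16581560)) (c (a (l 16580904) (l 16582728)) (l 16583256))))) (l 16582952)) (l 16581936)) (b (c (c (c (l 16563408) (c (a (c (l 16574648) (a (l 16578056) (l 16581824))) (c (l 16584920) (l 16586592))) (l 16584096))) (l 16583672)) (l 16582664)) (l 6))) (l 6)) (l 6)) (l 6))) (l 6)), by decide +kernel⟩

def k191_pp_022 : ∃ t, chk3 f_pp_022 t 35 29 5 = true :=
  ⟨(b (a (b (a (b (l 16473904) (c (l 16496776) (l 16494848))) (b (a (b (l 16471224) (l 16475352)) (l 16486960)) (a (l 16492704) (b (a (l 16484056) (l 16489032)) (l 16499376))))) (c (a (l 16546016) (l 16542424)) (b (l 16525808) (l 16559304)))) (b (b (a (l 16518704) (l 16562160)) (a (b (l 16515376) (a (l 16509184) (l 16530560))) (l 16540696))) (a (b (a (b (a (l 16515024) (l 16519688)) (l 16531224)) (b (l 16535248) (l 16540648))) (a (l 16556232) (b (a (l 16547152) (l 16551352)) (l 16563648)))) (b (l 16571296) (a (b (l 16566848) (a (l 16567352) (l 16576968))) (l 16592072)))))) (b (a (c (a (l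 16570480) (l 16588432)) (b (l 16592904) (l 16626624))) (b (a (l 16589512) (a (b (a (l 16579896) (c (l 16584144) (l 16582800))) (l 6)) (l 6))) (a (l 16623528) (l 6)))) (b (a (c (a (l 16662504) (l 6)) (l 16639472)) (l 6)) (l 6)))), by decide +kernel⟩

def k192_pp_022 : ∃ t, chk3 f_pp_022 t 17 28 3 = true :=
  ⟨(a (b (a (a (c (l 16391536) (l 16386672)) (b (c (l 16372896) (l 16367656)) (l 16396192))) (b (c (l 16410632) (l 16406000)) (a (c (b (l 16393184) (l 16400968)) (l 16393920)) (c (l 16422192) (l 16417584))))) (a (c (b (l 16435528) (c (l 16468552) (l 16466616))) (b (l 16431232) (l 16463656))) (b (c (a (l 16423664) (b (l 16420560) (l 16427664))) (a (l 16418992) (b (l 16415808) (l 16422960)))) (c (l 16453272) (l 16448944))))) (a (b (c (b (l 16482560) (l 16478712)) (b (l 16479168) (l 16475080))) (b (c (a (l 16451744) (l 16491552)) (l 16446664)) (c (a (b (a (l 16441328) (l 16453824)) (a (l 16454240) (l 16455536))) (l 16460776)) (a (b (l 16444336) (l 16451096)) (l 16477792))))) (b (c (b (l 16537272) (l 16536352))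 (b (l 16556176) (l 16534088))) (c (b (a (l 16532328) (l 16573968)) (b (l 16526672) (l 16521928))) (b (l 16529568) (l 16479584)))))), by decide +kernel⟩

def k193_pp_022 : ∃ t, chk3 f_pp_022 t 34 29 3 = true :=
  ⟨(b (a (c (b (b (l 16491176) (c (l 16513240) (l 16511616))) (a (b (l 16548192) (a (a (b (l 16575064) (l 16590360)) (l 16560520)) (l 16579080))) (l 16557808))) (b (b (l 16487616) (l 16509120)) (b (l 16541904) (a (a (b (l 16571960) (l 16566856)) (l 16576808)) (l 16571816))))) (b (c (b (l 16477816) (l 16499608)) (b (l 16473816) (l 16495928))) (c (b (l 16532496) (l 16565784)) (b (l 16529320) (l 16563128))))) (a (c (b (a (b (a (l 16612552) (b (a (l 16604152) (l 16602800)) (a (l 16619568) (l 16618896)))) (l 16642480)) (b (l 16607184) (a (b (a (l 16633792) (l 16632680)) (a (l 16649352) (l 16627864))) (l 16638872)))) (a (b (l 16652328) (l 16683656)) (b (a (l 16672400) (b (a (l 16643056) (l 16663136)) (a (l 16679752) (l 16658400)))) (l 16682544)))) (b (a (b (a (l 16610880) (b (l 16580552) (a (l 16617928) (l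 16617232)))) (l 16641248)) (b (l 16605280) (a (b (a (l 16632328) (l 16631176)) (a (l 16648128) (l 16647584))) (l 16637432)))) (a (l 16646432) (b (a (l 16671512) (b (a (l 16642016) (l 16662056)) (a (l 16678952) (l 16657568)))) (l 16682104))))) (b (c (c (l 16574480) (l 16573544)) (c (l 16593568) (l 16592616))) (b (c (a (b (l 16660128) (a (l 16657032) (l 16675792))) (l 16664328)) (a (c (l 16646744) (l 16646216)) (l 16663136))) (a (b (a (c (a (l 16673888) (l 16673200)) (a (l 16673272) (l 16672552))) (c (l 16692624) (l 16691928))) (a (c (b (l 16685680) (l 16714648)) (l 16689280)) (b (c (l 16705264) (l 16704760)) (a (c (l 16693120) (l 16692752)) (l 6))))) (c (l 16677240) (l 16676560))))))), by decide +kernel⟩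

def k194_pp_022 : ∃ t, chk3 f_pp_022 t 35 29 3 = true :=
  ⟨(b (a (b (c (a (b (l 16469712) (l 16491944)) (b (a (l 16469976) (l 16482952)) (a (l 16488736) (b (l 16483208) (l 16495480))))) (c (a (l 16477792) (b (l 16474672) (l 16487040))) (a (l 16475736) (b (l 16472576) (l 16485016))))) (c (c (l 16499032) (l 16518416)) (b (l 16519760) (l 16554160)))) (b (c (b (l 16495320) (a (b (l 16511776) (l 16516352)) (l 16558848))) (b (l 16513144) (a (l 16489592) (l 16555976)))) (c (a (b (a (b (l 16514464) (l 16527776)) (b (l 16531904) (l 16537344))) (a (l 16553176) (b (a (l 16543928) (l 16548176)) (l 16560656)))) (b (l 16568544) (a (c (l 16567840) (l 16566392)) (l 16589576)))) (a (b (a (b (l 16510760) (l 16524264)) (l 16531472)) (a (l 16550056) (b (l 16543552) (l 16557624)))) (a (c (l 16518128) (l 16558576)) (l 16582320)))))) (b (b (a (c (l 16570136) (l 16588672)) (a (c (l 16586944) (l 16584328)) (a (b (c (a (l 16577128) (l 16580760)) (l 16576848)) (l 6)) (l 6)))) (a (c (c (l 16625680) (l 16624736)) (l 16602328)) (a (c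 (l 16621480) (l 16619400)) (l 6)))) (b (a (a (c (l 16660872) (l 16659544)) (l 6)) (l 6)) (l 6)))), by decide +kernel⟩

def k195_pp_022 : ∃ t, chk3 f_pp_022 t 32 30 4 = true :=
  ⟨(l 14), by decide +kernel⟩

def k196_pp_022 : ∃ t, chk3 f_pp_022 t 66 120 4 = true :=
  ⟨(l 14), by decide +kernel⟩

def k197_pp_022 : ∃ t, chk3 f_pp_022 t 67 120 8 = true :=
  ⟨(a (b (c (l 16590584) (l 16585928)) (a (l 14) (l 16574800))) (b (l 16564632) (b (l 16585800) (l 16544384)))), by decide +kernel⟩

def k198_pp_022 : ∃ t, chk3 f_pp_022 t 134 120 18 = true :=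
  ⟨(b (l 16560648) (l 16539704)), by decide +kernel⟩

def k199_pp_022 : ∃ t, chk3 f_pp_022 t 135 120 18 = true :=
  ⟨(b (c (a (l 16557248) (b (a (l 16552368) (c (l 16552248) (b (a (l 16526200) (c (l 16546840) (c (l 16546112) (l 16547832)))) (l 16525088)))) (l 16550608))) (a (c (l 16547704) (b (a (l 16543496) (c (a (l 16521456) (b (c (l 16521736) (l 16544088)) (l 16540648))) (b (a (c (l 16542296) (l 16544432)) (l 16549800)) (a (l 16518584) (c (l 16540008) (l 16541816)))))) (l 16541352))) (c (b (a (c (b (l 16524472) (l 16544368)) (b (a (l 16544352) (c (l 16545952) (l 16549184))) (a (l 16542008) (l 16542144)))) (c (b (a (c (l 16545864) (l 16548336)) (l 16553936)) (a (l 16521856) (c (l 16543528) (l 16545672)))) (b (l 16560048) (a (c (l 16543464) (l 16546368)) (l 16552280))))) (a (l 16542656) (c (l 16520376) (b (a (l 16529496) (c (b (l 16541880) (l 16518024)) (l 16543592))) (a (l 16538520) (l 16516904)))))) (b (a (c (b (l 16532320) (a (c (l 16519600) (l 16541624)) (c (l 16543744) (l 16547400)))) (l 16536736)) (l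 16570576)) (a (c (b (a (l 16538784) (c (l 16517520) (l 16539208))) (l 16537800)) (b (a (c (l 16516808) (l 16539248)) (l 16523144)) (a (l 16535624) (c (l 16514632) (b (l 16537720) (l 16513568)))))) (c (b (a (c (l 16530656) (l 16544472)) (l 16550664)) (a (c (l 16515512) (b (l 16537464) (l 16514160))) (c (b (l 16539680) (l 16515352)) (l 16541584)))) (b (l 16557128) (a (c (b (l 16540464) (l 16536256)) (l 16542648)) (l 16549104))))))))) (b (a (l 16550712) (c (l 16550544) (c (l 16540872) (a (l 16536112) (c (b (a (l 16535224) (b (a (l 16513480) (l 16514304)) (l 16512840))) (l 16534320)) (b (a (c (l 16512520) (b (l 16535072) (l 16511304))) (c (b (l 16537584) (l 16533752)) (l 16539648))) (a (l 16531920) (c (l 16510488) (b (l 16532504) (l 16509136)))))))))) (l 16547696))), by decide +kernel⟩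

def k200_pp_022 : ∃ t, chk3 f_pp_022 t 134 120 19 = true :=
  ⟨(b (c (a (l 16544776) (c (b (a (l 16543200) (c (l 16541528) (b (a (l 16539400) (l 16540496)) (l 16538320)))) (l 16541336)) (b (a (c (l 16517832) (b (a (l 16537480) (l 16519520)) (l 16514960))) (c (b (a (l 16529872) (l 16545688)) (c (l 16536952) (b (l 16538232) (l 16535760)))) (b (l 16551488) (a (c (l 16536136) (l 16538376)) (l 16543848))))) (a (l 16536552) (b (a (l 16513704) (c (l 16534344) (c (l 16533800) (l 16535704)))) (l 16512512)))))) (a (c (b (a (l 16537144) (c (b (l 16537208) (l 16535216)) (a (b (l 16536672) (l 16533048)) (b (l 16541608) (l 16534288))))) (l 16535056)) (b (b (a (a (l 14) (a (l 14) (l 16542088))) (l 16552792)) (a (l 14) (c (a (l 16513200) (l 16539672)) (l 16545544)))) (b (a (l 14) (a (l 14) (a (l 14) (a (l 14) (l 16516016))))) (l 14)))) (c (b (a (c (b (a (l 16540912) (l 16548168)) (a (l 16534680) (l 16517272))) (b (l 16554616) (l 16522256))) (l 16561872)) (a (c (b (l 16532952) (l 16531656)) (b (a (l 16521464) (l 16515088))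 (a (l 16529264) (l 16519168)))) (c (b (a (c (l 16533600) (l 16536272)) (l 16542056)) (a (l 16509328) (c (l 16531160) (l 16533488)))) (b (l 16548280) (a (c (l 16531152) (l 16534240)) (l 16540320)))))) (b (l 16574864) (a (c (b (l 16520352) (a (c (l 16507024) (l 16529232)) (l 16512960))) (l 16524816)) (l 16558888)))))) (c (l 16541304) (a (l 14) (a (l 14) (b (a (b (c (c (l 16529056) (l 16516920)) (c (c (l 16528768) (l 16532280)) (l 16540320))) (l 14)) (c (c (l 16506968) (b (c (b (l 16529560) (l 16505472)) (l 16531344)) (l 16514728))) (b (l 16544336) (b (l 16514288) (a (l 14) (l 16510440)))))) (l 14)))))), by decide +kernel⟩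

def k201_pp_022 : ∃ t, chk3 f_pp_022 t 135 240 19 = true :=
  ⟨(c (a (c (b (a (c (b (a (l 16540912) (l 16528600)) (l 16539248)) (b (a (l 16544872) (l 16552528)) (a (l 16538200) (l 16526440)))) (c (b (l 16555760) (a (c (l 16539784) (l 16542352)) (l 16548048))) (l 16560576))) (a (b (c (l 16538072) (a (l 16535696) (l 16525464))) (l 16536360)) (c (b (a (l 16515648) (c (l 16537400) (l 16539632))) (l 16514240)) (b (a (c (l 16537360) (l 16540352)) (l 16546344)) (a (l 16523264) (c (b (l 16535768) (l 16511800)) (l 16537520))))))) (b (a (b (l 16564688) (c (l 16526384) (l 16557608))) (l 16577520)) (a (c (b (a (c (l 16513368) (l 16535480)) (l 16519104)) (a (l 16532440) (c (l 16511248) (l 16533008)))) (b (l 16545528) (a (c (l 16531520) (l 16533072)) (l 16517064)))) (c (b (l 16552696) (a (c (l 16524520) (l 16538424)) (l 16544696))) (l 16557640))))) (b (l 16573992) (c (a (b (l 16534344) (c (a (c (l 16535064) (b (l 16538400) (l 16534376))) (l 16542160)) (l 16548032))) (l 16567760)) (l 16580896)))) (a (b (l 16581000) (l 16513744))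 (b (c (l 16608600) (a (l 16642360) (b (l 16650128) (l 16637640)))) (a (l 16584608) (l 16585328))))), by decide +kernel⟩

def k202_pp_022 : ∃ t, chk3 f_pp_022 t 135 482 19 = true :=
  ⟨(c (a (c (a (l 16536224) (b (a (l 16533784) (c (l 16533744) (l 16521112))) (l 16532864))) (a (c (l 16531376) (a (l 16508168) (b (c (l 16508328) (b (l 16531544) (l 16507280))) (l 16527344)))) (c (b (a (c (l 16509192) (b (l 16531264) (l 16507848))) (c (b (l 16533544) (l 16509104)) (l 16535472))) (a (l 16528824) (b (a (l 16507152) (l 16508040)) (l 16506472)))) (b (a (c (b (l 16534360) (l 16530040)) (l 16536568)) (l 16543096)) (a (c (l 16506176) (b (l 16528840) (l 16504968))) (c (b (l 16531408) (l 16527480)) (l 16533496))))))) (c (a (c (b (a (l 16511560) (c (l 16522304) (b (l 16535552) (l 16510936)))) (l 16510376)) (b (a (c (b (l 16533160) (l 16509576)) (b (l 16536464) (l 16531968))) (l 16540264)) (a (l 16508528) (c (b (l 16530632) (l 16507440)) (b (l 16533480) (l 16529376)))))) (c (b (a (c (b (l 16538592) (l 16533912)) (l 16540896))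 (l 16547576)) (a (c (l 16520096) (b (l 16532776) (l 16508552))) (c (b (l 16535568) (l 16520792)) (l 16537768)))) (b (l 16554144) (a (c (l 16513656) (l 16539200)) (l 16546016))))) (a (c (b (l 16546336) (a (c (b (l 16530800) (l 16506760)) (l 16522088)) (l 16538408))) (l 16551168)) (l 16564816)))) (a (c (a (c (b (a (c (l 16528776) (l 16520264)) (l 16536048)) (a (l 16505168) (c (l 16526456) (b (l 16529352) (l 16525592))))) (b (l 16541968) (a (c (b (l 16526888) (l 16503192)) (l 16507520)) (l 16534104)))) (b (l 16555392) (c (a (c (l 16520040) (l 16534768)) (l 16541512)) (l 16548104)))) (l 16541176)) (l 16528288))), by decide +kernel⟩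

def k203_pp_022 : ∃ t, chk3 f_pp_022 t 135 966 19 = true :=
  ⟨(c (a (a (l 16532848) (c (l 16532784) (c (l 16527896) (a (l 16525488) (c (l 16504096) (b (l 16526216) (l 16502752))))))) (c (a (l 16508768) (c (a (l 16528680) (c (l 16507480) (b (a (l 16507384) (l 16530816)) (l 16506256)))) (b (a (c (l 16517696) (l 16530568)) (l 16536440)) (a (a (l 16505256) (c (l 16526024) (l 16506168))) (c (a (l 16506104) (l 16529776)) (l 16532712)))))) (a (c (a (a (l 16505048) (c (l 16525880) (l 16515376))) (c (b (l 16528144) (l 16504496)) (b (l 16531496) (a (l 16504216) (l 16527688))))) (a (b (l 16510104) (c (l 16514520) (l 16527432))) (l 16536592))) (a (c (l 16514336) (l 16546160)) (l 16550152))))) (a (c (a (c (l 16503936) (a (l 16502104) (c (b (l 16524304) (l 16501016)) (b (l 16527248) (l 16523032))))) (c (a (c (l 16513720) (b (l 16526512) (l 16502184))) (c (b (l 16529360) (l 16524976)) (l 16531584))) (a (c (l 16528384) (l 16533032)) (l 16539896)))) (a (c (a (b (l 16505960) (c (l 16500352) (l 16523336))) (l 16532208)) (l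 16538520)) (l 16552256))) (l 16508816))), by decide +kernel⟩

def k204_pp_022 : ∃ t, chk3 f_pp_022 t 135 967 19 = true :=
  ⟨(c (a (l 16531808) (c (a (l 16530080) (c (l 16507408) (a (l 16520944) (b (c (l 16520584) (a (l 16504840) (l 16528760))) (a (l 16504616) (c (l 16525424) (l 16515416))))))) (a (c (b (a (l 16525336) (l 16519344)) (l 16525864)) (a (b (a (l 16502048) (c (l 16522816) (l 16502992))) (l 16502752)) (b (c (a (l 16502928) (l 16526640)) (l 16529592)) (c (b (l 16512840) (l 16503120)) (a (l 16503048) (l 16506032)))))) (c (a (b (c (a (l 16503200) (l 16504976)) (l 16528448)) (c (l 16503728) (a (l 16503184) (l 16505200)))) (b (l 16534648) (b (l 16530608) (l 6)))) (b (l 16541192) (l 16515344)))))) (a (a (a (l 14) (b (c (l 16501608) (a (b (l 16506888) (l 14)) (l 16530608))) (l 14))) (c (c (a (l 16501944) (b (c (l 16501288) (a (l 16501024) (l 16524536))) (c (l 16522624) (l 16511720)))) (a (b (c (l 16511312) (l 16524264)) (c (l 16500328) (a (l 16499592) (l 16501192)))) (b (l 16530216) (c (a (l 16501112)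 (l 16503896)) (l 16527840))))) (b (l 16542408) (b (l 16538048) (l 16515904))))) (a (c (c (a (b (l 16529016) (c (a (l 16501376) (l 16503192)) (l 16526680))) (l 16535504)) (l 16542080)) (l 16559528)) (l 16527920)))), by decide +kernel⟩

def k205_pp_022 : ∃ t, chk3 f_pp_022 t 33 121 4 = true :=
  ⟨(a (l 14) (a (l 14) (b (b (c (l 16576056) (c (l 16558224) (b (c (a (l 16538152) (c (l 16534760) (b (a (a (l 16528784) (c (l 16528744) (a (l 16505168) (c (l 16525968) (l 16505520))))) (a (a (b (c (l 16526536) (l 16517608)) (l 6)) (l 6)) (l 6))) (a (l 16531808) (l 6))))) (a (a (l 14) (c (c (l 16528288) (a (l 16505136) (c (b (l 16514088) (l 16526952)) (b (l 16526560) (c (l 16505448) (l 16505944)))))) (c (b (a (a (l 14) (l 16527240)) (l 16533560)) (a (l 14) (c (l 16529240) (l 16533616)))) (l 16539016)))) (c (a (c (a (c (l 16506056) (b (a (l 16503752) (l 16505800)) (l 16506616))) (c (b (l 16523344) (a (l 16506752) (l 6))) (b (l 16532928) (l 16531280)))) (a (c (b (l 16529416) (a (l 16506208) (l 16508496))) (l 16533552)) (l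 16540152))) (a (l 16544352) (l 6))) (l 16543544)))) (a (b (c (l 16543872) (c (l 16534072) (a (l 14) (a (l 14) (a (l 14) (b (l 16537304) (l 6))))))) (l 14)) (l 6))))) (a (l 14) (l 6))) (l 6)))), by decide +kernel⟩

def k206_pp_022 : ∃ t, chk3 f_pp_022 t 33 61 4 = true :=
  ⟨(l 14), by decide +kernel⟩

def k207_pp_022 : ∃ t, chk3 f_pp_022 t 32 30 5 = true :=
  ⟨(l 14), by decide +kernel⟩

def k208_pp_022 : ∃ t, chk3 f_pp_022 t 66 60 5 = true :=
  ⟨(l 14), by decide +kernel⟩

def k209_pp_022 : ∃ t, chk3 f_pp_022 t 134 120 5 = true :=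
  ⟨(b (c (a (a (b (a (l 14) (c (l 16546464) (a (l 14) (c (c (l 16626488) (l 16640480)) (l 16665360))))) (l 14)) (c (a (b (l 16577072) (l 14)) (c (l 16530272) (l 16596848))) (c (b (c (c (l 16632080) (b (l 16644480) (l 16636064))) (l 16644600)) (a (l 14) (b (c (l 16645624) (l 16638696)) (l 14)))) (l 16643040)))) (c (c (b (l 16588024) (l 16562504)) (b (c (l 16600896) (a (b (c (l 16656856) (l 16644512)) (l 16628792)) (c (b (l 16650480) (l 16641368)) (l 16650528)))) (a (l 16598632) (c (l 16627536) (c (l 16644736) (b (l 16639392) (l 16649672))))))) (c (c (a (b (c (a (l 16643336) (l 16648448)) (l 16669752)) (c (l 16626536) (b (l 16639736) (l 16630768)))) (b (l 16674824) (c (b (l 16645232) (a (l 16655520) (l 16641264))) (l 16645104)))) (a (b (l 16671040) (c (b (l 16664248) (l 16637024)) (l 16662896))) (l 16673928))) (l 16655744)))) (l 16630184)) (a (l 14) (a (l 14) (b (c (c (a (l 16543504) (l 16553248)) (c (c (c (l 16620832) (a (l 16626528) (b (l 16639416) (l 16630776)))) (a (b (l 16660328) (l 14)) (l 16642064)))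 (l 16668944))) (l 16675568)) (l 14))))), by decide +kernel⟩

def k210_pp_022 : ∃ t, chk3 f_pp_022 t 135 240 10 = true :=
  ⟨(c (c (c (a (l 16602504) (b (a (c (l 16639272) (l 16630176)) (c (b (l 16668096) (l 16657600)) (b (l 16676072) (l 16647288)))) (a (l 16620608) (b (l 16651632) (l 16660416))))) (a (b (a (l 16649312) (c (l 16641832) (a (l 16647664) (b (l 16661384) (l 16652336))))) (l 16613112)) (b (a (c (b (l 16666040) (l 16657232)) (l 16657688)) (l 16679232)) (a (c (l 16639984) (b (l 16636464) (l 16647056))) (c (b (l 16662968) (l 16658840)) (b (l 16674608) (a (l 16664272) (l 16672928)))))))) (a (c (a (b (c (l 16623016) (b (l 16656088) (l 16647968))) (l 16625768)) (c (b (a (b (l 16660264) (l 16652304)) (l 16663104)) (b (l 16646680) (l 16656264))) (b (l 16663840) (b (l 16649920) (l 16638624))))) (a (b (c (l 16656192) (l 16679888)) (c (a (l 16637224) (b (l 16650520) (l 16641688))) (a (b (l 16670280) (l 16641568)) (l 16651936)))) (b (l 16689240) (c (b (l 16681544) (l 16654616)) (l 16682336))))) (c (b (l 16679720)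 (a (c (b (l 16665112) (a (l 16653232) (l 16663008))) (l 16666576)) (l 16677064))) (l 16681128)))) (l 16641568)), by decide +kernel⟩

def k211_pp_022 : ∃ t, chk3 f_pp_022 t 135 241 10 = true :=
  ⟨(c (c (c (a (l 16530264) (b (l 16586832) (l 16561304))) (a (l 16532744) (b (a (l 16621416) (c (l 16640912) (b (l 16648656) (l 16648160)))) (l 16588192)))) (a (c (b (a (l 16621416) (l 16622792)) (l 16565472)) (b (a (c (l 16639352) (a (l 16645680) (l 16625064))) (c (b (a (l 16663016) (l 16652280)) (l 16636232)) (b (l 16653904) (a (l 16642272) (l 16651840))))) (a (l 16599416) (b (c (l 16644824) (l 16636648)) (l 16639456))))) (b (c (c (a (l 16620416) (b (l 16667488) (a (l 16654688) (l 16665064)))) (a (b (a (l 16653368) (l 16662472)) (l 16627016)) (l 16669168))) (a (c (a (b (l 16681392) (l 16653248)) (l 16663952)) (l 16685264)) (l 16695320))) (c (a (l 16623496) (a (b (l 16627496) (l 16658248)) (c (l 16649328) (b (l 16664672) (l 16656336))))) (a (b (c (a (l 16664272) (l 16654144)) (a (l 16652880) (l 16681624))) (c (l 16637920)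 (a (l 16644352) (b (l 16677288) (l 16653648))))) (b (l 16667488) (c (a (b (l 16657760) (l 16675400)) (l 16664728)) (l 16686544)))))))) (c (b (a (c (a (c (b (a (l 16640536) (l 16669696)) (a (l 16651752) (l 16641368))) (b (l 16670096) (l 16643320))) (l 16656696)) (l 16677856)) (l 16676896)) (a (c (a (c (l 16597680) (b (a (l 16630984) (l 16641016)) (l 16625840))) (b (c (a (l 16642240) (l 16672120)) (l 16672848)) (c (b (l 16639864) (l 16636016)) (b (l 16647736) (a (l 16662688) (l 16671416)))))) (a (b (l 16644064) (c (a (l 14) (l 16641120)) (l 16663088))) (l 16675400))) (a (b (l 16685864) (b (l 16682528) (c (l 16657304) (l 16684696)))) (l 16695480)))) (l 16651488))), by decide +kernel⟩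

def k212_pp_022 : ∃ t, chk3 f_pp_022 t 135 120 11 = true :=
  ⟨(a (c (l 16665032) (c (l 16661240) (a (c (l 16657536) (a (l 16655368) (b (l 16661520) (l 16693064)))) (c (b (l 16660328) (c (l 16689592) (l 16671336))) (l 16665240))))) (c (b (l 16644936) (c (l 16694880) (l 16681808))) (c (a (c (l 16651784) (a (b (l 16656512) (l 16688000)) (l 16654176))) (a (c (c (l 16647552) (l 16650208)) (l 16661016)) (l 16640120))) (l 16645064)))), by decide +kernel⟩

def k213_pp_022 : ∃ t, chk3 f_pp_022 t 67 121 5 = true :=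
  ⟨(a (l 14) (b (a (a (l 14) (b (c (c (c (a (l 16539096) (l 16549456)) (l 16595568)) (c (c (c (l 16650912) (b (a (l 16660280) (l 16649976)) (l 16640920))) (c (b (a (l 16648592) (l 16677152)) (a (l 14) (l 16657280))) (l 16657176))) (l 16685760))) (c (l 16681304) (c (l 16718880) (c (a (l 16722456) (l 16700696)) (l 16689008))))) (l 6))) (b (b (c (c (c (l 16562088) (c (l 16624024) (a (l 16638048) (a (c (l 16672312) (l 16661856)) (l 6))))) (c (c (a (c (a (l 16650896) (l 16660432)) (l 16682528)) (l 16693080)) (l 16692928)) (l 16701160))) (c (l 16696488) (c (a (c (l 16722056) (l 16702592)) (c (l 16701648) (l 16693040))) (l 16674848)))) (l 6)) (l 6))) (l 6))), by decide +kernel⟩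

def k214_pp_022 : ∃ t, chk3 f_pp_022 t 33 61 5 = true :=
  ⟨(l 14), by decide +kernel⟩

def k215_pp_022 : ∃ t, chk3 f_pp_022 t 16 31 2 = true :=
  ⟨(l 14), by decide +kernel⟩

def k216_pp_022 : ∃ t, chk3 f_pp_022 t 16 15 3 = true :=
  ⟨(a (l 14) (b (a (l 14) (b (a (b (c (c (a (b (c (c (l 16678696) (a (l 16672952) (c (l 16668136) (l 16673064)))) (c (l 16655960) (a (c (l 16659888) (l 16647096)) (c (l 16650032) (l 16666696))))) (l 14)) (a (b (c (c (l 16667784) (l 16658600)) (c (c (l 16665688) (l 16652952)) (l 16669608))) (l 14)) (c (c (c (a (l 16657824) (b (l 16662952) (l 16694504))) (l 16666168)) (l 16647584)) (c (c (a (l 16637576) (l 16634800)) (l 16664056)) (l 16663952))))) (l 16638288)) (l 16637360)) (l 14)) (b (c (c (c (a (c (l 16639280) (a (c (l 16642040) (b (l 16658768) (a (l 16642440) (l 16639680)))) (c (b (l 16661656) (a (l 16645408) (l 16642656))) (l 16669952)))) (c (a (c (l 16647824) (b (l 16664528) (a (l 16648368) (l 16645616)))) (c (b (l 16667392) (a (l 16651320) (l 16648568))) (l 16675800))) (l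 16674280))) (l 16650256)) (l 16649856)) (c (l 16649328) (l 16648792))) (b (c (c (c (c (a (l 16653176) (a (c (l 16682776) (a (l 16649832) (l 16668056))) (c (a (l 16652800) (l 6)) (l 16668832)))) (a (a (l 14) (c (a (l 16646848) (l 16665072)) (l 16662856))) (l 16667264))) (l 16664120)) (l 16663616)) (l 16662616)) (l 6)))) (l 6))) (l 6))), by decide +kernel⟩

def k217_pp_022 : ∃ t, chk3 f_pp_022 t 136 120 8 = true :=
  ⟨(b (c (l 16585104) (c (l 16566168) (a (l 16546392) (c (b (a (l 16554992) (c (l 16532608) (b (a (l 16531160) (c (b (l 16553800) (l 16530144)) (l 16555448))) (l 16540248)))) (l 16553288)) (b (a (c (b (a (l 16551120) (c (l 16529752) (l 16551288))) (l 16550208)) (b (a (c (l 16529000) (l 16540800)) (c (l 16553528) (l 16557440))) (a (l 16548016) (c (l 16526912) (b (l 16549768) (l 16525824)))))) (c (b (a (c (b (l 16554280) (l 16529808)) (l 16556272)) (l 16562320)) (a (b (l 16539280) (l 16527136)) (c (b (l 16551656) (l 16527528)) (l 16553512)))) (b (l 16568760) (a (c (b (l 16552376) (l 16548392)) (l 16554528))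 (l 16560952))))) (a (l 16548600) (c (b (a (l 16547672) (a (l 16525736) (c (l 16546528) (l 16525776)))) (l 16546808)) (b (a (c (l 16524888) (b (l 16547240) (l 16523656))) (c (b (l 16549624) (l 16525016)) (l 16551776))) (a (l 16544440) (c (l 16522920) (b (a (l 16522408) (l 16545392)) (l 16521704)))))))))))) (b (l 16551672) (a (l 16555504) (l 6)))), by decide +kernel⟩

def k218_pp_022 : ∃ t, chk3 f_pp_022 t 274 240 16 = true :=
  ⟨(l 16575176), by decide +kernel⟩

def k219_pp_022 : ∃ t, chk3 f_pp_022 t 548 240 17 = true :=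
  ⟨(c (b (c (l 16560992) (c (l 16556240) (b (a (l 16554048) (c (l 16532896) (b (l 16555640) (l 16531792)))) (l 16553096)))) (l 16557840)) (c (b (c (b (a (c (l 16553280) (b (l 16556224) (l 16552528))) (c (l 16557384) (l 16561848))) (a (l 16530072) (c (l 16540664) (a (l 16550880) (l 16532352))))) (a (b (l 16560984) (c (b (l 16551360) (l 16528056)) (b (l 16554392) (l 16550216)))) (a (b (l 16568048) (l 16535344)) (l 16567728)))) (c (l 16529096) (a (b (l 16527144) (l 16547496)) (b (c (a (l 16526704) (b (l 16550328) (l 16526816))) (b (l 16552984) (a (l 16526032) (l 16550304)))) (l 16536816))))) (b (l 16536792) (c (a (b (c (a (l 16525952) (b (l 16550104) (l 16525520))) (a (b (l 16550400) (l 16525280)) (l 16552920))) (c (l 16545280) (c (l 16523752) (a (l 16543784) (l 16524552))))) (b (l 16559336) (c (b (a (l 16525648) (l 16550336)) (l 16525576)) (b (l 16553192) (a (l 16525456) (l 16550400)))))) (b (l 16566008) (a (c (a (b (l 16524560) (l 16522216)) (b (l 16549984) (l 16524808))) (b (l 16553248) (l 16548128))) (l 16559832))))))),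 by decide +kernel⟩

def k220_pp_022 : ∃ t, chk3 f_pp_022 t 549 240 17 = true :=
  ⟨(c (c (a (l 16558504) (b (c (l 16558384) (b (c (l 16556056) (l 16545256)) (l 16555456))) (l 16557000))) (b (c (a (b (b (a (l 16533776) (l 16555704)) (l 16533144)) (l 16553736)) (b (c (a (l 16555248) (l 16558272)) (l 16539960)) (a (l 16532328) (c (l 16553864) (l 16555112))))) (a (b (c (a (l 16554984) (l 16557976)) (l 16561056)) (c (l 16531152) (a (l 16530408) (l 16543352)))) (b (l 16569752) (c (b (l 16558136) (l 16554600)) (l 16561232))))) (a (l 16552560) (c (l 16553336) (b (c (l 16531616) (b (l 16554480) (l 16531352))) (l 16552032)))))) (b (a (c (c (b (l 16570296) (c (b (l 16557912) (a (l 16530088) (l 16555048))) (l 16561192))) (l 16577360)) (l 16597528)) (l 16576032)) (b (c (c (a (c (b (l 16529824) (l 16549664)) (b (l 16553480) (l 16550488))) (c (b (l 16558408) (a (l 16531088) (l 16555736))) (l 16561648))) (a (c (b (l 16558344) (l 16553504)) (l 16561792)) (l 16571328))) (l 16585072)) (b (c (c (a (l 16549424) (a (l 16530736)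 (l 6))) (a (c (l 16550280) (l 16553552)) (l 16562064))) (l 16575544)) (l 6))))), by decide +kernel⟩

def k221_pp_022 : ∃ t, chk3 f_pp_022 t 274 241 8 = true :=
  ⟨(a (a (c (l 16578208) (b (c (l 16558744) (c (l 16549104) (c (l 16544744) (b (c (l 16522320) (b (a (l 16521664) (l 16545688)) (l 6))) (l 6))))) (l 6))) (l 6)) (l 6)), by decide +kernel⟩

def k222_pp_022 : ∃ t, chk3 f_pp_022 t 275 120 8 = true :=
  ⟨(b (b (c (c (l 16574816) (a (l 16564328) (c (l 16565464) (c (a (l 16562176) (b (b (l 16565264) (l 16564008)) (l 16563864))) (b (a (c (l 16540936) (b (l 16564192) (l 16540776))) (c (b (l 16568752) (l 16565304)) (l 16571824))) (a (l 16561168) (c (l 16542408) (b (l 16565200) (l 16542144))))))))) (c (c (a (c (a (l 16536688) (b (c (l 16559952) (b (l 16563360) (l 16560104))) (l 16558616))) (b (a (c (b (l 16558944) (l 16535728)) (b (l 16562944) (l 16558864))) (l 16548544)) (a (l 16535384) (c (b (l 16559968) (l 16537104)) (b (l 16563592) (l 16559864)))))) (c (b (a (c (b (l 16568448) (l 16564176)) (l 16571784))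 (l 16581064)) (a (c (l 16540312) (b (l 16564192) (l 16561280))) (c (b (l 16569056) (l 16554640)) (l 16572280)))) (b (l 16588016) (a (c (b (l 16568976) (l 16564232)) (l 16572424)) (l 16581896))))) (a (b (l 16561560) (c (a (c (b (l 16558848) (l 16535160)) (b (l 16563408) (l 16558856))) (l 16570000)) (l 16576568))) (l 16601864))) (c (l 16594872) (a (l 16629840) (l 16634704))))) (b (a (c (l 16570520) (c (c (a (l 16556760) (l 16537256)) (b (c (a (l 16555840) (c (a (l 16536488) (l 16561104)) (l 16563928))) (a (c (l 16558888) (l 16563976)) (l 16573464))) (a (c (l 16554816) (c (l 16555704) (l 16558944))) (l 6)))) (l 16576528))) (l 6)) (l 6))) (l 6)), by decide +kernel⟩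

def k223_pp_022 : ∃ t, chk3 f_pp_022 t 69 120 8 = true :=
  ⟨(b (b (a (a (a (c (c (l 16551264) (a (c (l 16556864) (b (c (c (b (l 16569472) (l 16545864)) (b (l 16573960) (l 16569496))) (l 16580656)) (a (c (l 16565216) (b (l 16569560) (l 6))) (l 6)))) (b (c (c (l 16569320) (c (a (l 16547496) (l 16570968)) (b (l 16574152) (l 16570504)))) (l 16566096)) (l 6)))) (c (l 16572264) (c (l 16633560) (b (l 16666704) (l 16654304))))) (a (b (b (c (c (l 16573336) (c (c (c (l 16551160) (l 16574760)) (l 16582768)) (l 16602664))) (c (l 16642848) (l 16675632))) (l 6)) (l 6)) (l 6))) (l 6)) (l 6)) (l 6)) (l 6)), by decide +kernel⟩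

def k224_pp_022 : ∃ t, chk3 f_pp_022 t 34 121 8 = true :=
  ⟨(l 6), by decide +kernel⟩

def k225_pp_022 : ∃ t, chk3 f_pp_022 t 544 120 18 = true :=
  ⟨(b (c (c (b (b (c (l 16550552) (a (l 16548208) (l 16548232))) (l 16548904)) (l 16548840)) (b (c (b (a (c (l 16525728) (l 16547664)) (c (l 16549720) (l 16553288))) (a (l 16545008) (c (l 16523696) (l 16545296)))) (b (l 16536416) (a (c (l 16522960) (l 16534832)) (l 16533056)))) (c (l 16544032) (a (l 16520832) (b (c (l 16520824) (b (l 16543792) (l 16519752))) (l 16540024)))))) (c (b (l 16546496) (c (b (a (c (l 16541240) (b (l 16544440) (l 16540536))) (l 16527208)) (a (l 16517840) (c (l 16528528) (b (l 16541656) (l 16517144))))) (b (l 16553992) (a (c (b (l 16539328) (l 16515840)) (b (l 16542536) (l 16538152))) (l 16546320))))) (l 16535168))) (c (l 16545720) (b (c (c (l 16516648) (b (a (l 16514848) (c (b (l 16515880) (l 16513752)) (b (l 16539616) (l 16535616)))) (l 16513584))) (c (b (a (c (b (l 16537000) (l 16513056)) (b (l 16540728) (l 16535872))) (l 16544504))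 (a (c (l 16532672) (b (l 16511696) (l 16531120))) (c (b (a (l 16511840) (l 16514008)) (l 16510840)) (b (l 16537672) (a (l 16510528) (l 16533920)))))) (b (l 16550728) (a (c (b (l 16534768) (l 16520848)) (l 16515720)) (l 16542736))))) (b (c (l 16535792) (b (c (a (l 16531760) (l 16525712)) (a (a (l 16508448) (c (l 16529216) (l 16509312))) (c (a (l 16509248) (l 16532888)) (l 16535800)))) (c (l 16530904) (a (l 16507792) (c (c (l 16507560) (l 16507856)) (a (l 16508000) (l 16531888))))))) (a (l 16534024) (l 6)))))), by decide +kernel⟩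

def k226_pp_022 : ∃ t, chk3 f_pp_022 t 545 120 18 = true :=
  ⟨(b (c (c (b (c (b (a (l 16527952) (c (l 16549552) (l 16551616))) (l 16526656)) (b (a (c (l 16549472) (l 16552280)) (l 16558112)) (a (l 16535624) (c (b (l 16547888) (l 16524136)) (l 16549568))))) (b (b (l 16540928) (l 16545560)) (l 16545488))) (b (c (b (l 16564360) (a (c (b (l 16548408) (l 16523816)) (l 16550424)) (l 16556544))) (l 16569296)) (c (b (a (b (l 16533256) (l 16521032)) (c (b (l 16545720) (l 16521496)) (l 16547600))) (a (l 16541504) (a (l 16519608) (c (l 16540400) (l 16519720))))) (b (a (c (b (l 16546472) (l 16542376)) (l 16548640)) (l 16555024)) (a (c (l 16518760) (b (l 16541208) (l 16517536))) (c (b (l 16543648) (l 16518952)) (l 16545696))))))) (b (l 16577360) (c (b (l 16567224) (c (a (c (b (l 16544632) (l 16540064)) (l 16546920)) (l 16553544)) (l 16560104))) (l 16584624)))) (b (c (b (c (l 16545456) (c (l 16540616) (a (l 16538240) (c (l 16516760) (b (l 16538696) (l 16515408)))))) (l 16542200)) (c (c (b (a (c (l 16526368) (b (l 16538944)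 (l 16514808))) (c (b (l 16541672) (a (l 16514952) (l 16517080))) (l 16543864))) (a (l 16535024) (c (l 16513784) (b (a (l 16513648) (l 16537000)) (l 16512560))))) (b (a (c (b (l 16542880) (l 16537848)) (l 16545264)) (l 16552064)) (b (a (c (l 16523968) (l 16536768)) (l 16542592)) (a (a (l 16511608) (c (l 16532368) (l 16512424))) (c (a (l 16512376) (l 16535976)) (l 16538904)))))) (a (c (b (l 16553768) (c (l 16517792) (l 16543664))) (l 16558912)) (l 16564240)))) (b (c (l 16542184) (a (c (l 16512472) (c (a (c (l 16509320) (b (l 16511512) (l 16508160))) (b (l 16524152) (l 6))) (a (l 16537232) (l 16541928)))) (b (a (c (c (l 16533648) (c (l 16531376) (l 16511128))) (l 16544944)) (l 6)) (l 6)))) (l 6)))), by decide +kernel⟩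

def k227_pp_022 : ∃ t, chk3 f_pp_022 t 273 240 18 = true :=
  ⟨(c (b (a (c (c (b (l 16561496) (a (c (l 16547312) (b (l 16550384) (l 16546584))) (l 16533128))) (l 16545144)) (l 16583168)) (l 16572704)) (c (a (c (b (a (l 16524016) (c (l 16534648) (b (l 16547664) (l 16523248)))) (l 16522920)) (b (a (c (b (l 16545400) (l 16522000)) (b (l 16548512) (l 16544232))) (l 16552280)) (a (l 16521048) (c (b (l 16522000) (l 16519952)) (b (l 16545656) (l 16541744)))))) (c (a (b (c (b (l 16550568) (l 16546112)) (l 16552848)) (c (l 16532520) (b (l 16545008) (l 16520960)))) (b (l 16560368) (c (a (b (l 16545520) (l 16521128)) (l 16547888)) (l 16551040)))) (a (a (b (l 16558760) (b (l 16549296) (l 16533784))) (l 16557816)) (l 16567016)))) (a (c (b (l 16558296) (a (c (b (l 16543096) (l 16519240)) (b (l 16546736) (l 16541984))) (l 16550568))) (l 16542600)) (l 16580880)))) (b (c (l 16599576) (a (l 16634192) (l 16639208))) (c (l 16574296) (l 16601032)))), by decide +kernel⟩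

def k228_pp_022 : ∃ t, chk3 f_pp_022 t 273 241 18 = true :=
  ⟨(b (a (b (c (c (l 16521376) (c (a (c (l 16538952) (b (l 16517896) (l 16537400))) (c (b (a (l 16518032) (l 16520120)) (l 16517072)) (b (l 16543816) (a (l 16516736) (l 16540168))))) (a (c (b (l 16540896) (l 16527064)) (b (l 16545048) (l 16539832))) (l 16549584)))) (l 16555688)) (c (b (c (l 16542080) (c (a (l 16538072) (c (l 16537200) (a (l 16536072) (l 16515680)))) (a (a (l 16514736) (c (l 16535496) (l 16515520))) (c (a (l 16515480) (l 16539688)) (l 16542920))))) (a (l 16518816) (l 6))) (c (c (a (c (b (l 16538840) (a (l 16512680) (l 16514440))) (a (l 16538568) (l 16543192))) (l 16549504)) (l 16556624)) (l 16576904)))) (c (a (c (c (l 16541232) (b (c (b (c (l 16519064) (l 16530160)) (l 16518096)) (a (b (l 16519896) (l 16517216)) (b (l 16544856) (l 16540304)))) (l 16517544))) (c (b (c (b (l 16548328) (a (l 16540096) (l 16544992))) (l 16551672)) (c (a (l 16515944) (l 6)) (b (l 16542808) (l 6)))) (l 16529472))) (b (c (c (b (c (l 16531168) (a (l 16520240)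 (l 16544952))) (a (l 16540280) (l 6))) (b (l 16551256) (b (l 16526112) (l 6)))) (l 16568104)) (l 6))) (l 16574952))) (l 6)), by decide +kernel⟩

def k229_pp_022 : ∃ t, chk3 f_pp_022 t 137 120 18 = true :=
  ⟨(a (a (b (c (b (l 16597560) (l 16572312)) (b (c (l 16638088) (l 16665176)) (c (l 16612968) (l 16640136)))) (b (b (b (b (c (l 16558056) (l 16612280)) (l 6)) (l 6)) (l 6)) (l 6))) (b (c (b (c (l 16630936) (l 16636968)) (l 16598304)) (b (l 16635536) (c (l 16638992) (b (l 16672456) (l 16659896))))) (l 6))) (b (a (b (c (c (l 16635832) (b (l 16669056) (l 16656640))) (c (l 16668952) (c (l 16666320) (b (a (l 16673120) (l 16665848)) (l 16661840))))) (b (c (l 16630584) (l 16663864)) (l 6))) (b (c (c (b (l 16667880) (l 16655472)) (l 16667752)) (c (c (l 16669648) (b (a (l 16675176) (l 16666016)) (l 16685496))) (c (b (a (l 16665712) (l 16680544)) (a (l 16678472) (l 16669992))) (b (l 16679664) (l 16667688))))) (l 6))) (l 6))), by decide +kernel⟩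

def k230_pp_022 : ∃ t, chk3 f_pp_022 t 68 240 19 = true :=
  ⟨(a (c (a (b (a (l 16604280) (c (l 16614464) (l 16641432))) (c (l 16557136) (l 16582744))) (a (b (c (l 16640320) (l 16646448)) (c (l 16636136) (l 16642408))) (c (b (l 16645360) (l 16641272)) (c (l 16631944) (b (b (l 16673880) (l 16671960)) (l 16675360)))))) (a (c (b (a (l 16642536) (l 16646832)) (a (l 16617352) (l 16643536))) (b (a (b (c (l 16668752) (l 16657952)) (l 16641856)) (c (a (l 16659216) (l 16668752)) (l 16670304))) (a (l 16644656) (c (l 16663888) (b (l 16670472) (l 16670888)))))) (c (b (a (a (c (l 16680872) (l 16685720)) (c (l 16670880) (l 16686744))) (c (b (l 16678224) (l 16678016)) (l 16679216))) (a (l 16648208) (c (b (l 16672384) (l 16682608)) (b (l 16692848) (a (l 16689088) (l 16699320)))))) (b (l 16658712) (a (c (b (l 16686288) (l 16661504)) (b (l 16694080) (l 16686000))) (l 16686504)))))) (c (b (a (c (a (b (l 16670864) (l 16665096)) (c (a (l 16668048) (b (l 16672752) (l 16685704))) (b (l 16670544) (a (l 16684704) (l 16676992)))))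 (a (c (b (l 16677208) (l 16678688)) (l 16666944)) (l 16669888))) (a (a (c (c (b (l 16687408) (l 16677040)) (l 16688416)) (l 16684560)) (l 16662416)) (l 16677240))) (b (a (c (a (l 16673640) (l 16677896)) (a (a (l 16672552) (c (l 16697648) (l 16688288))) (c (a (l 16688528) (l 16681488)) (l 16701136)))) (c (a (c (a (l 16690352) (l 16681408)) (l 16678776)) (l 6)) (l 16690336))) (a (c (a (l 16661072) (l 16687168)) (a (l 16666856) (c (l 16687728) (a (l 16692608) (l 16686248))))) (l 6)))) (a (c (b (l 16689400) (a (c (b (l 16686256) (a (l 16700176) (l 16692680))) (l 16687088)) (l 16701064))) (l 16671168)) (l 16678856)))), by decide +kernel⟩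

def k231_pp_022 : ∃ t, chk3 f_pp_022 t 68 241 19 = true :=
  ⟨(b (a (c (a (c (l 16531480) (l 16557168)) (c (l 16602768) (a (l 16616984) (l 16643216)))) (a (c (l 16604960) (a (l 16619208) (l 16645512))) (c (a (l 16644368) (l 16649360)) (a (c (l 16664912) (b (a (l 16677992) (l 16688688)) (l 16672088))) (a (c (l 16662528) (b (l 16697296) (l 16689600))) (b (l 16700992) (l 6))))))) (b (a (a (a (b (c (l 16658712) (c (l 16692016) (l 16715744))) (l 6)) (l 6)) (l 6)) (l 6)) (l 6))) (a (a (a (c (c (b (c (a (c (b (l 16532616) (a (l 16506392) (l 16508128))) (l 16534696)) (l 16541008)) (l 16547880)) (a (b (c (c (l 16505544) (a (l 16504992) (l 16506976))) (l 16533288)) (l 6)) (l 6))) (l 16518720)) (l 16559016)) (c (b (l 16557792) (l 6)) (l 16585416))) (l 6)) (l 6))), by decide +kernel⟩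

def k232_pp_022 : ∃ t, chk3 f_pp_022 t 68 121 9 = true :=
  ⟨(l 6), by decide +kernel⟩

def k233_pp_022 : ∃ t, chk3 f_pp_022 t 69 60 9 = true :=
  ⟨(b (b (b (a (a (c (a (c (l 16658944) (c (c (b (a (l 16666768) (l 16658736)) (l 16676768)) (b (l 16656736) (a (l 16670424) (l 6)))) (l 16656232))) (b (c (c (l 16683880) (c (l 16665016) (a (l 16658984) (l 6)))) (l 16667880)) (l 6))) (l 16660432)) (l 6)) (l 6)) (l 6)) (l 6)) (l 6)), by decide +kernel⟩

def k234_pp_022 : ∃ t, chk3 f_pp_022 t 34 61 4 = true :=
  ⟨(l 6), by decide +kernel⟩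

def k235_pp_022 : ∃ t, chk3 f_pp_022 t 136 120 10 = true :=
  ⟨(c (b (c (a (a (c (b (c (b (l 16685624) (l 16657840)) (l 16686808)) (c (b (l 16669888) (l 16658808)) (b (l 16678496) (l 16664888)))) (a (b (l 16709312) (l 16678984)) (l 16689824))) (b (l 16683688) (c (c (b (l 16688288) (a (l 16676888) (l 16686336))) (l 16689656)) (l 16715216)))) (l 16658544)) (l 16656368)) (b (c (a (a (c (b (l 16652816) (l 16661232)) (c (b (a (l 16665888) (l 16675792)) (l 16660208)) (b (l 16677232) (a (l 16666064) (l 16675304))))) (c (c (l 16649544) (b (a (l 16676976) (l 16685752)) (a (l 16666696) (l 16677864)))) (b (l 16687912) (c (a (l 16676816) (l 16684928)) (l 16706256))))) (c (a (c (b (l 16690752) (a (l 16678464) (l 16688504))) (l 16692328)) (l 16701816)) (l 16700552))) (l 16678752)) (a (a (c (c (l 16621272) (b (c (l 16669048) (l 16650104)) (l 16642744))) (c (b (c (a (l 16665992) (l 16674576)) (l 16696136)) (c (a (l 16656536) (l 6)) (b (l 16671224) (l 6)))) (l 16698624))) (b (c (c (l 16653744) (c (a (l 16667248) (l 16677768))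 (l 16679648))) (l 16708960)) (l 6))) (l 6)))) (c (l 16640832) (a (l 16659616) (a (l 16647528) (c (l 16663048) (b (a (l 16666000) (l 16645616)) (a (l 16676392) (c (l 16674504) (l 16678216))))))))), by decide +kernel⟩

def k236_pp_022 : ∃ t, chk3 f_pp_022 t 136 120 11 = true :=
  ⟨(a (c (c (a (l 16653376) (a (l 16647328) (b (l 16650200) (a (l 16681552) (b (l 16673032) (l 6)))))) (b (a (c (l 16652136) (l 16656520)) (l 16641896)) (a (c (a (l 16684392) (l 16681968)) (a (c (l 16682296) (l 16686264)) (l 16689880))) (a (c (l 16673248) (l 16697448)) (l 16676392))))) (c (l 16650720) (a (c (l 16653568) (b (l 16670248) (a (l 16654256) (l 16651512)))) (c (a (c (l 16668328) (l 16662048)) (c (l 16653008) (l 16682352))) (l 16681600))))) (c (a (c (c (a (l 16642088) (c (l 16639792) (l 16642200))) (b (l 16654936) (l 16665416))) (l 16650936)) (b (l 16635104) (l 16657672))) (c (a (c (l 16659272) (b (l 16675928) (b (a (l 16664128) (l 16682352)) (l 6)))) (c (b (a (l 16679432) (l 16676672)) (b (a (l 16667008) (l 16685240)) (l 6)))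 (l 16666384))) (l 16664896)))), by decide +kernel⟩

def k237_pp_022 : ∃ t, chk3 f_pp_022 t 137 120 5 = true :=
  ⟨(b (c (c (a (l 16658480) (c (l 16668704) (a (l 16641808) (c (l 16637112) (a (l 16638032) (l 16663568)))))) (a (c (a (l 16668112) (c (l 16662864) (a (l 16641016) (l 16643600)))) (a (c (c (l 16642552) (l 16644896)) (l 16654104)) (l 16661504))) (c (c (a (c (l 16635272) (l 16643216)) (l 16674752)) (l 16661336)) (l 16662968)))) (c (a (c (l 16663304) (a (c (l 16694000) (a (l 16682240) (l 16679488))) (c (a (l 16685040) (l 16682288)) (l 16701160)))) (c (a (c (l 16699152) (a (l 16687832) (l 16685080))) (c (a (l 16690600) (l 16687864)) (l 16706744))) (l 16705312))) (l 16681480))) (a (a (b (a (c (c (l 16688024) (c (l 16693680) (c (l 16687464) (l 16694984)))) (c (b (l 16674952) (l 6)) (l 16685184))) (l 6)) (l 6)) (l 6)) (l 6))), by decide +kernel⟩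

def k238_pp_022 : ∃ t, chk3 f_pp_022 t 69 120 5 = true :=
  ⟨(b (b (a (a (c (c (c (a (c (l 16651664) (l 16637712)) (c (a (l 16645944) (l 6)) (l 16631704))) (a (c (l 16632344) (l 16666856)) (l 16674248))) (c (l 16675768) (a (c (l 16690872) (l 16696672)) (c (a (l 16700088) (l 6)) (l 16716256))))) (l 16714792)) (l 6)) (l 6)) (l 6)) (l 6)), by decide +kernel⟩

def k239_pp_022 : ∃ t, chk3 f_pp_022 t 34 121 5 = true :=
  ⟨(l 6), by decide +kernel⟩

def k240_pp_022 : ∃ t, chk3 f_pp_022 t 34 61 5 = true :=
  ⟨(l 6), by decide +kernel⟩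

def k241_pp_022 : ∃ t, chk3 f_pp_022 t 35 30 2 = true :=
  ⟨(l 6), by decide +kernel⟩

def k242_pp_022 : ∃ t, chk3 f_pp_022 t 17 31 2 = true :=
  ⟨(l 6), by decide +kernel⟩

def k243_pp_022 : ∃ t, chk3 f_pp_022 t 17 15 3 = true :=
  ⟨(b (a (b (b (a (c (c (a (l 16656560) (l 16673088)) (b (l 16675360) (l 16658568))) (b (l 16674872) (c (l 16658040) (l 16657512)))) (a (a (b (c (l 16689456) (l 16688984)) (l 6)) (l 6)) (l 6))) (l 6)) (l 6)) (l 6)) (l 6)), by decide +kernel⟩

def k244_pp_022 : ∃ t, chk3 f_pp_022 t 72 28 1 = true :=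
  ⟨(c (b (a (c (b (l 16598344) (l 16599920)) (l 16577312)) (b (b (b (a (l 16623032) (a (l 16610784) (a (l 16583520) (b (l 16597800) (l 16601488))))) (l 16599032)) (l 16607176)) (c (l 16625424) (l 16624728)))) (c (b (c (l 16587904) (l 16597856)) (c (a (l 16593720) (l 16636736)) (b (l 16594976) (l 16591968)))) (a (b (l 16596872) (l 16591648)) (b (l 16639456) (l 16614688))))) (b (b (a (c (l 16617296) (l 16616288)) (b (a (l 16602952) (a (l 16611096) (b (c (l 16578880) (l 16577528)) (l 16605056)))) (l 16594872))) (c (l 16597480) (l 16596680))) (c (b (c (l 16596376) (l 16595872)) (c (l 16591648) (l 16591000))) (b (l 16574136) (c (l 16590352) (l 16589688)))))), by decide +kernel⟩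

def k245_pp_022 : ∃ t, chk3 f_pp_022 t 73 56 2 = true :=
  ⟨(a (b (a (b (a (b (l 16590440) (c (a (l 16601824) (l 16596768)) (a (l 16600456) (l 16595296)))) (l 16561304)) (b (a (l 16604408) (c (a (l 16598576) (l 16572568)) (a (l 16597080) (l 16570968)))) (l 16605592))) (b (l 16577024) (b (l 16591136) (a (c (b (l 16598560) (l 16602208)) (b (l 16597008) (l 16600696))) (l 16600584))))) (b (a (l 16593160) (b (a (l 16605920) (c (b (l 16608056) (l 16590832)) (a (l 16587016) (l 16588056)))) (l 16613712))) (c (l 16604200) (l 16602984)))) (b (c (l 16587608) (l 16585800)) (b (a (b (l 16610144) (a (a (c (l 16598056) (l 16596736)) (c (l 16599016) (l 16597704))) (l 16619664))) (l 16615176)) (a (b (a (l 16625568) (a (b (c (l 16627008) (l 16625784)) (l 16629928)) (c (l 16608600) (l 16607392)))) (c (l 16634128) (l 16632984))) (b (l 16629384) (a (c (b (l 16615808) (a (l 16640256) (l 16641464))) (b (l 16614688) (a (l 16639184) (l 16640400)))) (l 16638976))))))), by decide +kernel⟩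

def k246_pp_022 : ∃ t, chk3 f_pp_022 t 73 56 3 = true :=
  ⟨(b (a (a (b (a (b (c (l 16588120) (l 16586528)) (c (a (l 16599064) (l 16593792)) (l 16573792))) (c (l 16579656) (l 16577872))) (b (a (l 16601640) (c (a (l 16595560) (l 16590312)) (a (l 16594008) (l 16588648)))) (l 16602760))) (b (l 16573232) (b (l 16587752) (a (c (b (l 16595424) (l 16599160)) (b (l 16593808) (l 16597592))) (l 16597448))))) (c (l 16583952) (l 16582080))) (a (b (b (a (l 16608504) (a (l 16602944) (c (b (l 16605128) (l 16608976)) (b (l 16603624) (l 16607520))))) (c (l 16613424) (l 16612048))) (c (l 16601744) (l 16621456))) (b (a (b (l 16607192) (a (c (b (l 16614880) (l 16597848)) (b (l 16613488) (l 16617480))) (l 16616960))) (c (l 16613008) (l 16611520))) (a (b (a (c (l 16623696) (l 16622416)) (c (a (b (l 16624528) (l 16628136)) (l 16606168)) (b (l 16623392) (l 16606504)))) (c (l 16631824) (l 16630632))) (a (b (l 16626816) (c (b (l 16613544) (a (l 16638096) (l 16639320))) (b (l 16633352) (l 16616536)))) (c (l 16632464) (l 16631248))))))),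 by decide +kernel⟩

def k247_pp_022 : ∃ t, chk3 f_pp_022 t 73 57 1 = true :=
  ⟨(c (b (a (c (a (l 16625976) (l 16643024)) (a (l 16625048) (l 16641976))) (b (b (a (l 16639864) (a (c (l 16645816) (l 16644816)) (c (b (l 16625472) (a (l 16650016) (l 16651152))) (b (l 16624456) (a (l 16649064) (l 16650208)))))) (c (l 16650464) (l 16649512))) (c (l 16660600) (l 16659768)))) (a (c (a (l 16635072) (l 16651576)) (a (l 16634528) (l 16650896))) (c (b (l 16653976) (l 16669328)) (b (l 16653328) (l 16668864))))) (b (a (c (a (l 16624112) (l 16640920)) (a (l 16623152) (l 16639832))) (b (a (c (l 16641552) (l 16640480)) (b (a (c (l 16643784) (l 16642744)) (c (b (l 16623432) (a (l 16648088) (l 16649240))) (a (b (l 16643232) (l 16647088)) (l 16624896)))) (c (l 16652120) (l 16651176)))) (c (l 16658920) (l 16658056)))) (c (a (a (l 16633968) (l 16650208)) (l 16649968)) (a (a (l 16654376) (l 16649512)) (l 16659872))))), by decide +kernel⟩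

def k248_pp_022 : ∃ t, chk3 f_pp_022 t 37 56 1 = true :=
  ⟨(c (c (a (b (l 16588936) (b (l 16617200) (l 16636120))) (b (l 16571576) (c (l 16610008) (l 16609240)))) (a (b (l 16566008) (b (l 16615656) (l 16634848))) (b (l 16564216) (a (l 16627944) (l 16630320))))) (c (a (b (l 16584992) (b (l 16614088) (l 16633552))) (b (l 16567312) (c (l 16627856) (l 16627056)))) (a (b (l 16582968) (l 16601448)) (b (l 16586096) (l 16604872))))), by decide +kernel⟩

def k249_pp_022 : ∃ t, chk3 f_pp_022 t 37 114 1 = true :=
  ⟨(c (a (a (a (a (b (b (l 16648712) (a (c (b (l 16656016) (l 16659808)) (b (l 16634152) (l 16658968))) (b (l 16655912) (c (l 16639920) (l 16639080))))) (c (l 16647968) (l 16647232))) (b (c (l 16654240) (l 16653288)) (b (a (c (b (l 16644800) (l 16669640)) (b (l 16644024) (l 16668904))) (b (l 16665720) (c (l 16649696) (l 16648976)))) (c (l 16675496) (l 16674832))))) (b (c (l 16654728) (l 16653744)) (b (c (l 16668912) (l 16668136)) (a (a (c (b (l 16654608) (l 16679504)) (b (l 16664424) (l 16678888))) (a (b (l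 16675544) (c (l 16659424) (l 16658816))) (c (l 16678336) (l 16677688)))) (c (l 16678584) (l 16677928)))))) (c (l 16644504) (l 16643600))) (c (a (c (l 16646808) (l 16646328)) (c (l 16649392) (l 16648880))) (c (b (l 16658272) (l 16677568)) (b (l 16657696) (l 16677128))))) (a (a (b (b (c (l 16647568) (l 16646496)) (a (a (c (b (l 16633368) (a (l 16658104) (l 16638224))) (b (l 16632440) (a (l 16657224) (l 16658328)))) (c (l 16657168) (l 16656248))) (c (l 16657600) (l 16656648)))) (a (a (c (l 16646480) (l 16666680)) (b (c (b (a (l 16643224) (l 16664528)) (a (l 16668160) (l 16648232))) (b (l 16642544) (a (l 16667400) (l 16668456)))) (c (l 16674160) (l 16673472)))) (b (c (l 16667336) (l 16666528)) (a (c (b (a (l 16653256) (l 16674568)) (a (l 16678256) (l 16658296))) (b (l 16652696) (a (l 16677616) (l 16657656)))) (c (l 16677256) (l 16676576)))))) (c (l 16642680) (l 16641744))) (c (c (l 16645992) (l 16645472)) (c (l 16644952) (l 16644424))))), by decide +kernel⟩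

def k250_pp_022 : ∃ t, chk3 f_pp_022 t 37 230 1 = true :=
  ⟨(a (c (a (a (c (l 16684496) (l 16683952)) (b (a (c (l 16664488) (l 16663944)) (b (b (c (l 16684488) (l 16683920)) (a (c (l 16665584) (l 16665048)) (l 16684080))) (c (a (l 16668432) (b (l 16689328) (l 16691504))) (a (l 16667936) (b (l 16688816) (l 16691024)))))) (c (l 16673064) (l 16672616)))) (a (b (c (l 16688688) (l 16688144)) (a (c (b (a (a (l 16695216) (l 16695520)) (l 16695704)) (a (l 16699352) (b (l 16699240) (l 16701424)))) (b (a (a (l 16673808) (l 16695080)) (l 16695256)) (a (l 16698968) (b (l 16698848) (l 16690576))))) (c (l 16698424) (l 16698000)))) (c (l 16673440) (l 16672928)))) (a (a (c (l 16683392) (l 16682816)) (b (a (c (l 16663384) (l 16662816)) (c (b (c (l 16663624) (l 16684312)) (a (l 16688392) (b (l 16688296) (l 16690536)))) (b (a (l 16683736) (l 16684072)) (a (l 16687872) (l 16688856))))) (c (l 16672168) (l 16692672)))) (a (a (b (c (l 16687384) (l 16686824)) (c (b (a (a (l 16694336) (l 16694632)) (l 16694808)) (a (l 16698576)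 (b (l 16698440) (l 16700688)))) (b (a (l 16693984) (l 16694344)) (a (l 16698168) (l 16678152))))) (c (l 16692696) (l 16692184))) (c (l 16693368) (l 16692832))))) (c (c (a (l 16675104) (l 16677760)) (a (l 16674536) (l 16677136))) (c (a (l 16673960) (l 16676504)) (c (l 16674680) (l 16674368))))), by decide +kernel⟩

def k251_pp_022 : ∃ t, chk3 f_pp_022 t 37 231 1 = true :=
  ⟨(a (a (c (c (l 16681272) (l 16680952)) (c (l 16680624) (l 16680280))) (a (a (c (c (b (l 16704400) (l 16703824)) (b (l 16683112) (l 16703440))) (c (b (l 16703752) (l 16703040)) (l 16682072))) (b (b (c (c (a (b (l 16704216) (a (l 16705008) (l 16705488))) (l 16705664)) (a (b (l 16703880) (a (l 16704688) (l 16705176))) (l 16705336))) (c (a (b (l 16703536) (l 16683664)) (l 16705000)) (c (l 16683552) (l 16704352)))) (a (c (c (l 16704936) (l 16704592)) (c (l 16704232) (l 16703872))) (b (c (c (l 16705968) (l 16705640)) (c (l 16705296) (l 16704944))) (l 6)))) (l 6))) (b (c (c (l 16708672) (l 16708352)) (c (l 16708032) (l 16707704))) (l 6)))) (l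 6)), by decide +kernel⟩

def k252_pp_022 : ∃ t, chk3 f_pp_022 t 18 29 1 = true :=
  ⟨(b (a (a (b (c (c (a (b (c (l 16608840) (l 16607872)) (c (l 16588224) (l 16608176))) (b (l 16631672) (b (l 16630080) (l 16635304)))) (b (a (l 16606440) (l 16630560)) (a (l 16585704) (c (l 16631808) (l 16631200))))) (b (c (c (l 16585816) (l 16585040)) (l 16583856)) (c (c (l 16565360) (l 16585512)) (c (l 16584680) (l 16604808))))) (b (c (c (a (c (l 16598480) (l 16618464)) (l 16633200)) (a (l 16596048) (l 16642576))) (c (c (l 16597104) (l 16596328)) (c (l 16595536) (l 16615712)))) (a (c (c (c (l 16608368) (l 16628384)) (c (l 16627456) (l 16626520))) (c (l 16604136) (l 16623184))) (l 6)))) (a (b (c (c (b (a (l 16665360) (l 16696800)) (a (l 16666928) (l 16677680))) (b (a (l 16664856) (l 16696456)) (a (l 16666344) (l 16677256)))) (c (a (b (l 16664336) (l 16665736)) (b (l 16696096) (l 16676824))) (a (b (l 16663800) (l 16665120)) (b (l 16695728) (l 16676376))))) (a (b (c (c (l 16678440) (l 16677944)) (c (l 16677440) (l 16676920)))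 (l 6)) (l 6))) (b (b (c (c (l 16697888) (l 16697488)) (c (l 16697072) (l 16696640))) (a (c (c (l 16678560) (l 16678104)) (c (l 16677632) (l 16698112))) (l 6))) (l 6)))) (b (b (a (a (c (c (l 16700392) (l 16699928)) (c (l 16699456) (l 16698960))) (l 6)) (l 6)) (l 6)) (l 6))) (l 6)), by decide +kernel⟩

def k253_pp_022 : ∃ t, chk3 f_pp_022 t 19 14 1 = true :=
  ⟨(b (b (a (c (a (b (c (a (l 16596600) (b (l 16597784) (l 16611448))) (a (l 16594392) (b (l 16595536) (l 16609376)))) (c (a (l 16634832) (b (l 16628592) (l 16647784))) (a (l 16612224) (b (l 16626768) (l 16646240))))) (a (b (c (l 16627184) (l 16625352)) (c (b (a (l 16634840) (l 16646312)) (a (l 16650712) (c (l 16656792) (l 16656040)))) (b (a (l 16633056) (l 16644696)) (a (l 16649144) (l 16633936))))) (b (c (l 16633952) (l 16632552)) (b (c (l 16667488) (l 16666200)) (l 6))))) (a (c (b (a (l 16592152) (b (l 16593256) (l 16607264))) (c (l 16612552) (l 16632672))) (b (a (l 16589872) (b (l 16590928) (l 16605128))) (c (l 16631808) (l 16630944)))) (c (b (c (l 16617152)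 (l 16616320)) (a (b (l 16616568) (a (l 16647544) (l 16653360))) (c (l 16669344) (l 16668704)))) (b (l 16594096) (a (b (l 16635784) (l 16649456)) (l 16667720)))))) (b (a (c (c (a (b (l 16678632) (l 16687576)) (a (l 16683736) (l 16693136))) (a (l 16661256) (a (l 16683128) (l 16692672)))) (c (a (l 16660288) (c (l 16687464) (l 16687192))) (c (l 16652168) (l 16651784)))) (a (b (c (c (l 16711664) (l 16711128)) (c (l 16710584) (l 16710032))) (l 6)) (l 6))) (b (a (a (c (c (l 16675200) (l 16674368)) (c (l 16694488) (l 16693624))) (l 6)) (l 6)) (l 6)))) (b (a (a (a (c (c (c (l 16652448) (l 16651912)) (c (l 16651368) (l 16671800))) (c (c (l 16671248) (l 16670688)) (l 16648872))) (b (c (c (l 16667000) (l 16665736)) (c (l 16664448) (l 16663144))) (l 6))) (l 6)) (l 6)) (l 6))) (l 6)), by decide +kernel⟩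

def k254_pp_022 : ∃ t, chk3 f_pp_022 t 9 15 1 = true :=
  ⟨(l 6), by decide +kernel⟩

def k255_pp_022 : ∃ t, chk3 f_pp_022 t 10 12 1 = true :=
  ⟨(c (a (b (c (a (b (l 16269976) (l 16337456)) (b (l 16349544) (l 16410904))) (a (l 16190968) (l 16268664))) (c (a (b (l 16411376) (a (l 16475592) (l 16508296))) (b (l 16478656) (b (l 16533808) (l 16572856)))) (a (b (l 16405952) (l 16446352)) (b (l 16474240) (l 16508304))))) (b (c (a (b (l 16420112) (l 16475496)) (b (l 16481888) (l 16531440))) (a (b (l 16414304) (l 16470744)) (b (l 16477000) (l 16527496)))) (a (c (b (l 16537224) (c (l 16564296) (l 16584160))) (b (l 16533656) (l 16540544))) (c (b (b (l 16572624) (l 16602184)) (c (l 16608272) (l 16628432))) (b (l 16584424) (l 16585264)))))) (a (b (c (a (l 16288248) (l 16367136)) (a (l 16280560) (l 16360656))) (c (a (b (l 16400448) (l 16484352)) (b (l 16469760) (l 16547224))) (a (l 16332256) (l 16399352)))) (b (c (a (l 16436768) (l 16413480)) (a (l 16431336) (l 16492816))) (a (c (b (l 16530040) (l 16580232)) (b (l 16526376)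 (l 16598912))) (c (b (l 16581512) (l 16625544)) (b (l 16578552) (l 16623864))))))), by decide +kernel⟩

def k256_pp_022 : ∃ t, chk3 f_pp_022 t 10 52 1 = true :=
  ⟨(a (c (a (a (b (b (l 16529088) (a (c (a (l 16515000) (l 16543152)) (l 16505320)) (l 16553448))) (a (a (c (b (l 16547472) (l 16561096)) (l 16530752)) (b (c (l 16551680) (l 16548920)) (c (a (l 16561584) (l 16562944)) (l 16538888)))) (c (l 16567048) (l 16564504)))) (c (b (l 16569208) (l 16588896)) (b (l 16566736) (l 16586688)))) (c (b (b (l 16603312) (l 16618168)) (l 16587080)) (b (l 16566912) (l 16627400)))) (a (a (b (c (b (l 16524424) (l 16499768)) (l 16467216)) (a (c (a (l 16548984) (b (l 16546128) (l 16557200))) (a (l 16546208) (l 16507392))) (c (l 16561928) (l 16559304)))) (c (l 16553304) (l 16571856))) (c (b (l 16606968) (l 16625752)) (b (l 16605056) (l 16624072))))) (c (a (b (c (a (l 16626560) (l 16648480)) (c (l 16636856) (l 16636264))) (c (c (l 16654512) (l 16654024)) (l 16653288))) (c (b (b (l 16671288) (l 16683728)) (a (l 16704568) (l 16700616)))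 (b (b (l 16670528) (l 16683192)) (l 16670840)))) (a (c (b (l 16635368) (l 16673264)) (b (l 16634152) (l 16672256))) (c (b (l 16655200) (l 16712288)) (b (l 16696472) (l 16711776)))))), by decide +kernel⟩

def k257_pp_022 : ∃ t, chk3 f_pp_022 t 10 53 1 = true :=
  ⟨(a (a (c (a (b (a (c (l 16582032) (l 16579712)) (a (b (c (a (l 16576528) (l 16557480)) (a (l 16574088) (l 16576032))) (c (l 16590256) (l 16588000))) (b (l 16582224) (c (a (b (l 16588632) (l 16594624)) (l 16594160)) (a (l 16589536) (l 16591936)))))) (c (b (a (l 16602040) (l 16604448)) (l 16616288)) (b (l 16580128) (l 16614424)))) (b (c (l 16605416) (l 16603376)) (a (b (b (c (l 16609480) (l 16607456)) (a (c (a (l 16609888) (l 16612280)) (a (l 16607864) (l 16610280))) (l 16616392))) (a (c (b (a (l 16616368) (l 16617632)) (l 16623472)) (b (l 16615120) (l 16621632))) (b (c (l 16621920) (l 16620048)) (a (c (l 16625424) (l 16623592)) (l 16627320))))) (c (l 16629648) (l 16627896))))) (a (a (c (l 16591336) (l 16589152)) (b (a (b (c (l 16572848) (l 16570352))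 (l 16584560)) (b (l 16577456) (c (l 16567728) (l 16586400)))) (c (l 16607192) (l 16605160)))) (b (c (l 16601304) (l 16599208)) (a (c (a (b (a (l 16603136) (l 16605928)) (l 16616552)) (b (l 16611192) (l 16599832))) (a (b (l 16602600) (l 16614608)) (l 16593128))) (c (l 16626120) (l 16624312)))))) (c (c (b (a (l 16631928) (l 16656336)) (c (l 16619144) (l 16639456))) (b (l 16600928) (a (l 16647248) (l 16671200)))) (c (c (l 16608104) (l 16628368)) (b (l 16639840) (l 16656752))))) (a (c (c (b (c (l 16668272) (l 16667840)) (a (l 16672960) (l 16692512))) (b (a (l 16677664) (l 16698224)) (c (l 16682384) (l 16682016)))) (c (c (l 16653064) (l 16652656)) (c (l 16673208) (l 16672792)))) (a (b (c (c (l 16696272) (l 16716736)) (c (l 16716208) (l 16715680))) (l 6)) (l 6)))), by decide +kernel⟩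

def k258_pp_022 : ∃ t, chk3 f_pp_022 t 40 27 1 = true :=
  ⟨(b (c (a (c (b (l 16635568) (c (l 16660560) (l 16659928))) (b (l 16633968) (l 16658968))) (b (a (b (c (a (l 16633376) (a (l 16634848) (b (l 16612296) (l 16639208)))) (a (l 16631672) (a (l 16633144) (b (l 16631528) (l 16637552))))) (c (l 16647352) (l 16645824))) (a (b (c (b (l 16637816) (a (l 16620176) (l 16644144))) (b (l 16636144) (l 16620096))) (c (a (l 16629208) (b (l 16649048) (l 16644224))) (a (l 16648664) (b (l 16647512) (l 16653240))))) (c (b (l 16646584) (l 16635128)) (l 16628864)))) (b (a (c (l 16660080) (l 16658720)) (a (c (l 16663632) (l 16662288)) (c (a (b (a (l 16662016) (l 16662928)) (l 16668760)) (b (l 16664928) (a (l 16669824) (l 16660344)))) (a (b (l 16640184) (l 16667472)) (b (l 16663584) (a (l 16668536) (l 16669560))))))) (c (l 16674960) (l 16673776))))) (a (c (b (l 16632344) (l 16657680)) (l 16622864)) (a (b (b (a (l 16629056) (a (l 16630536) (c (l 16611976) (l 16631200)))) (c (l 16644272) (l 16642704))) (c (l 16663800) (l 16662496)))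 (b (a (b (c (l 16636976) (l 16635280)) (c (a (l 16647120) (b (l 16645952) (l 16651752))) (a (l 16645560) (l 16647432)))) (c (l 16648312) (l 16646768))) (b (a (c (l 16660928) (l 16659544)) (c (a (l 16642048) (b (l 16662224) (l 16667816))) (a (l 16661640) (l 16642792)))) (c (l 16675240) (l 16674040))))))) (b (c (c (a (c (l 16663024) (l 16683512)) (c (l 16672544) (l 16672080))) (a (c (l 16683024) (l 16682528)) (c (l 16692576) (l 16692096)))) (c (a (l 16660816) (l 16670408)) (a (l 16680776) (l 16690400)))) (a (b (c (a (c (l 16698424) (l 16697648)) (c (l 16702872) (l 16702104))) (c (l 16698984) (l 16698192))) (l 6)) (l 6)))), by decide +kernel⟩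

def k259_pp_022 : ∃ t, chk3 f_pp_022 t 41 27 1 = true :=
  ⟨(b (b (c (c (a (l 16666640) (l 16668528)) (a (l 16665352) (l 16688520))) (c (l 16634064) (l 16653864))) (a (b (c (c (l 16659832) (l 16679672)) (c (l 16678520) (l 16677352))) (a (a (a (c (c (b (a (l 16677672) (l 16668272)) (l 16684288)) (b (a (l 16676480) (l 16677584)) (l 16683184))) (c (b (l 16675896) (l 16682064)) (l 16656904))) (b (c (c (l 16680864) (l 16679712)) (b (l 16676664) (l 16679240))) (l 6))) (c (c (l 16687768) (l 16686704)) (c (l 16685624) (l 16684536)))) (l 6))) (l 6))) (l 6)), by decide +kernel⟩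

def k260_pp_022 : ∃ t, chk3 f_pp_022 t 21 27 1 = true :=
  ⟨(a (a (b (b (c (c (l 16689352) (l 16709616)) (c (l 16708896) (l 16708160))) (l 6)) (l 6)) (l 6)) (l 6)), by decide +kernel⟩

def k261_pp_022 : ∃ t, chk3 f_pp_022 t 11 6 1 = true :=
  ⟨(b (b (a (c (a (c (b (l 16535064) (l 16578944)) (b (l 16530936) (l 16575648))) (c (b (a (l 16571720) (l 16622648)) (a (l 16609176) (b (l 16629168) (l 16640816)))) (b (a (l 16568144) (l 16619936)) (a (l 16606296) (l 16592424))))) (a (c (b (l 16526760) (l 16572312)) (l 16524368)) (c (b (l 16510040) (a (l 16603376) (l 16631888))) (b (l 16569776) (l 16532536))))) (c (a (c (a (l 16676856) (a (l 16754160) (l 16776944))) (c (l 16668368) (l 16667968))) (c (c (l 16777216) (l 16777216)) (l 16777216))) (a (c (c (l 16667560) (l 16688128)) (a (l 16693600) (l 16764960))) (c (l 16777216) (l 16777216))))) (b (a (c (a (c (a (l 16619456) (l 16638320)) (l 16605784)) (c (a (l 16655160) (b (l 16658624) (l 16681712))) (a (l 16653152) (l 16668296)))) (c (a (l 16624392) (a (l 16651104) (l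 16666440))) (a (l 16621992) (l 16657016)))) (a (c (c (a (b (l 16678480) (a (l 16693176) (l 16717208))) (a (l 16754160) (l 16776944))) (a (a (l 16666416) (l 16716008)) (l 16723432))) (c (a (l 16649976) (l 16744200)) (a (l 16680136) (l 16764960)))) (l 6))) (a (c (a (c (c (l 16644184) (l 16643584)) (a (l 16655360) (l 16671552))) (c (c (a (l 16686984) (l 16699072)) (b (l 16700128) (l 16706552))) (c (l 16671312) (l 16670840)))) (a (c (l 16641456) (l 16661184)) (c (c (l 16691344) (l 16690864)) (l 16669176)))) (l 6)))) (a (a (b (b (b (c (c (a (l 16702080) (b (l 16731504) (l 6))) (b (l 16703232) (l 16714656))) (c (a (l 16722320) (l 16736528)) (l 16708352))) (l 6)) (l 6)) (l 6)) (l 6)) (l 6))), by decide +kernel⟩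

def k262_pp_022 : ∃ t, chk3 f_pp_022 t 5 7 1 = true :=
  ⟨(b (l 6) (l 4)), by decide +kernel⟩

def k263_pp_022 : ∃ t, chk3 f_pp_022 t 3 1 1 = true :=
  ⟨(b (b (a (c (a (c (b (l 16777216) (a (l 16777216) (l 16777216))) (b (l 16777216) (a (l 16777216) (l 16777216)))) (c (b (l 16777216) (c (l 16777216) (l 16777216))) (b (l 16777216) (c (l 16777216) (l 16777216))))) (a (c (b (l 16777216) (a (l 16777216) (l 16777216))) (b (l 16777216) (l 16777216))) (c (b (l 16777216) (c (l 16777216) (l 16777216))) (b (l 16777216) (c (l 16777216) (l 16777216)))))) (l 2)) (b (a (c (a (c (a (l 16777216) (l 16777216)) (a (l 16777216) (l 16777216))) (c (a (b (l 16777216) (l 16777216)) (b (l 16777216) (l 16777216))) (a (l 16777216) (b (l 16777216) (l 16777216))))) (a (c (a (l 16777216) (l 16777216)) (a (l 16777216) (l 16777216))) (c (a (l 16777216) (b (l 16777216) (l 16777216))) (a (l 16777216) (l 85463138311))))) (l 2)) (a (b (a (c (c (a (l 16777216) (l 16777216)) (a (l 16777216) (l 16777216))) (c (a (l 16777216) (l 16777216)) (a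 (l 16777216) (l 16777216)))) (a (c (c (c (l 16777216) (l 16777216)) (l 16777216)) (c (l 16777216) (l 16777216))) (l 6))) (a (c (c (a (c (l 16777216) (l 16777216)) (c (l 48553263111) (l 16777216))) (a (l 16777216) (c (l 16777216) (l 16777216)))) (c (a (l 16777216) (c (l 16777216) (l 16777216))) (a (l 16777216) (c (l 16777216) (l 16777216))))) (l 6))) (l 6)))) (b (a (a (a (b (b (b (c (c (c (l 16777216) (l 16777216)) (l 16777216)) (c (l 16777216) (l 16777216))) (a (c (c (l 16777216) (l 16777216)) (c (l 16777216) (l 16777216))) (l 6))) (l 6)) (l 4)) (l 6)) (l 6)) (l 4)) (l 4))), by decide +kernel⟩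

theorem s264_pp_022 : ∃ t, chk3 f_pp_022 t 20 27 1 = true := ex3_a k258_pp_022 k259_pp_022

theorem s265_pp_022 : ∃ t, chk3 f_pp_022 t 10 27 1 = true := ex3_a s264_pp_022 k260_pp_022

theorem s266_pp_022 : ∃ t, chk3 f_pp_022 t 10 26 1 = true := ex3_b k256_pp_022 k257_pp_022

theorem s267_pp_022 : ∃ t, chk3 f_pp_022 t 10 13 1 = true := ex3_b s266_pp_022 s265_pp_022

theorem s268_pp_022 : ∃ t, chk3 f_pp_022 t 10 6 1 = true := ex3_b k255_pp_022 s267_pp_022

theorem s269_pp_022 : ∃ t, chk3 f_pp_022 t 5 6 1 = true := ex3_a s268_pp_022 k261_pp_022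

theorem s270_pp_022 : ∃ t, chk3 f_pp_022 t 5 3 1 = true := ex3_b s269_pp_022 k262_pp_022

theorem s271_pp_022 : ∃ t, chk3 f_pp_022 t 37 115 1 = true := ex3_b k250_pp_022 k251_pp_022

theorem s272_pp_022 : ∃ t, chk3 f_pp_022 t 37 57 1 = true := ex3_b k249_pp_022 s271_pp_022

theorem s273_pp_022 : ∃ t, chk3 f_pp_022 t 37 28 1 = true := ex3_b k248_pp_022 s272_pp_022

theorem s274_pp_022 : ∃ t, chk3 f_pp_022 t 73 56 1 = true := ex3_c k245_pp_022 k246_pp_022

theorem s275_pp_022 : ∃ t, chk3 f_pp_022 t 73 28 1 = true := ex3_b s274_pp_022 k247_pp_022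

theorem s276_pp_022 : ∃ t, chk3 f_pp_022 t 36 28 1 = true := ex3_a k244_pp_022 s275_pp_022

theorem s277_pp_022 : ∃ t, chk3 f_pp_022 t 18 28 1 = true := ex3_a s276_pp_022 s273_pp_022

theorem s278_pp_022 : ∃ t, chk3 f_pp_022 t 18 14 1 = true := ex3_b s277_pp_022 k252_pp_022

theorem s279_pp_022 : ∃ t, chk3 f_pp_022 t 9 14 1 = true := ex3_a s278_pp_022 k253_pp_022

theorem s280_pp_022 : ∃ t, chk3 f_pp_022 t 9 7 1 = true := ex3_b s279_pp_022 k254_pp_022

theorem s281_pp_022 : ∃ t, chk3 f_pp_022 t 136 120 5 = true := ex3_c k235_pp_022 k236_pp_022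

theorem s282_pp_022 : ∃ t, chk3 f_pp_022 t 68 120 5 = true := ex3_a s281_pp_022 k237_pp_022

theorem s283_pp_022 : ∃ t, chk3 f_pp_022 t 34 120 5 = true := ex3_a s282_pp_022 k238_pp_022

theorem s284_pp_022 : ∃ t, chk3 f_pp_022 t 34 60 5 = true := ex3_b s283_pp_022 k239_pp_022

theorem s285_pp_022 : ∃ t, chk3 f_pp_022 t 34 30 5 = true := ex3_b s284_pp_022 k240_pp_022

theorem s286_pp_022 : ∃ t, chk3 f_pp_022 t 68 120 19 = true := ex3_b k230_pp_022 k231_pp_022

theorem s287_pp_022 : ∃ t, chk3 f_pp_022 t 273 120 18 = true := ex3_b k227_pp_022 k228_pp_022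

theorem s288_pp_022 : ∃ t, chk3 f_pp_022 t 272 120 18 = true := ex3_a k225_pp_022 k226_pp_022

theorem s289_pp_022 : ∃ t, chk3 f_pp_022 t 136 120 18 = true := ex3_a s288_pp_022 s287_pp_022

theorem s290_pp_022 : ∃ t, chk3 f_pp_022 t 68 120 18 = true := ex3_a s289_pp_022 k229_pp_022

theorem s291_pp_022 : ∃ t, chk3 f_pp_022 t 68 120 9 = true := ex3_c s290_pp_022 s286_pp_022

theorem s292_pp_022 : ∃ t, chk3 f_pp_022 t 68 60 9 = true := ex3_b s291_pp_022 k232_pp_022

theorem s293_pp_022 : ∃ t, chk3 f_pp_022 t 34 60 9 = true := ex3_a s292_pp_022 k233_pp_022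

theorem s294_pp_022 : ∃ t, chk3 f_pp_022 t 274 240 17 = true := ex3_a k219_pp_022 k220_pp_022

theorem s295_pp_022 : ∃ t, chk3 f_pp_022 t 274 240 8 = true := ex3_c k218_pp_022 s294_pp_022

theorem s296_pp_022 : ∃ t, chk3 f_pp_022 t 274 120 8 = true := ex3_b s295_pp_022 k221_pp_022

theorem s297_pp_022 : ∃ t, chk3 f_pp_022 t 137 120 8 = true := ex3_a s296_pp_022 k222_pp_022

theorem s298_pp_022 : ∃ t, chk3 f_pp_022 t 68 120 8 = true := ex3_a k217_pp_022 s297_pp_022

theorem s299_pp_022 : ∃ t, chk3 f_pp_022 t 34 120 8 = true := ex3_a s298_pp_022 k223_pp_022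

theorem s300_pp_022 : ∃ t, chk3 f_pp_022 t 34 60 8 = true := ex3_b s299_pp_022 k224_pp_022

theorem s301_pp_022 : ∃ t, chk3 f_pp_022 t 34 60 4 = true := ex3_c s300_pp_022 s293_pp_022

theorem s302_pp_022 : ∃ t, chk3 f_pp_022 t 34 30 4 = true := ex3_b s301_pp_022 k234_pp_022

theorem s303_pp_022 : ∃ t, chk3 f_pp_022 t 34 30 2 = true := ex3_c s302_pp_022 s285_pp_022

theorem s304_pp_022 : ∃ t, chk3 f_pp_022 t 17 30 2 = true := ex3_a s303_pp_022 k241_pp_022

theorem s305_pp_022 : ∃ t, chk3 f_pp_022 t 17 15 2 = true := ex3_b s304_pp_022 k242_pp_022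

theorem s306_pp_022 : ∃ t, chk3 f_pp_022 t 17 15 1 = true := ex3_c s305_pp_022 k243_pp_022

theorem s307_pp_022 : ∃ t, chk3 f_pp_022 t 135 120 10 = true := ex3_b k210_pp_022 k211_pp_022

theorem s308_pp_022 : ∃ t, chk3 f_pp_022 t 135 120 5 = true := ex3_c s307_pp_022 k212_pp_022

theorem s309_pp_022 : ∃ t, chk3 f_pp_022 t 67 120 5 = true := ex3_a k209_pp_022 s308_pp_022

theorem s310_pp_022 : ∃ t, chk3 f_pp_022 t 67 60 5 = true := ex3_b s309_pp_022 k213_pp_022

theorem s311_pp_022 : ∃ t, chk3 f_pp_022 t 33 60 5 = true := ex3_a k208_pp_022 s310_pp_022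

theorem s312_pp_022 : ∃ t, chk3 f_pp_022 t 33 30 5 = true := ex3_b s311_pp_022 k214_pp_022

theorem s313_pp_022 : ∃ t, chk3 f_pp_022 t 16 30 5 = true := ex3_a k207_pp_022 s312_pp_022

theorem s314_pp_022 : ∃ t, chk3 f_pp_022 t 135 483 19 = true := ex3_b k203_pp_022 k204_pp_022

theorem s315_pp_022 : ∃ t, chk3 f_pp_022 t 135 241 19 = true := ex3_b k202_pp_022 s314_pp_022

theorem s316_pp_022 : ∃ t, chk3 f_pp_022 t 135 120 19 = true := ex3_b k201_pp_022 s315_pp_022

theorem s317_pp_022 : ∃ t, chk3 f_pp_022 t 67 120 19 = true := ex3_a k200_pp_022 s316_pp_022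

theorem s318_pp_022 : ∃ t, chk3 f_pp_022 t 67 120 18 = true := ex3_a k198_pp_022 k199_pp_022

theorem s319_pp_022 : ∃ t, chk3 f_pp_022 t 67 120 9 = true := ex3_c s318_pp_022 s317_pp_022

theorem s320_pp_022 : ∃ t, chk3 f_pp_022 t 67 120 4 = true := ex3_c k197_pp_022 s319_pp_022

theorem s321_pp_022 : ∃ t, chk3 f_pp_022 t 33 120 4 = true := ex3_a k196_pp_022 s320_pp_022

theorem s322_pp_022 : ∃ t, chk3 f_pp_022 t 33 60 4 = true := ex3_b s321_pp_022 k205_pp_022

theorem s323_pp_022 : ∃ t, chk3 f_pp_022 t 33 30 4 = true := ex3_b s322_pp_022 k206_pp_022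

theorem s324_pp_022 : ∃ t, chk3 f_pp_022 t 16 30 4 = true := ex3_a k195_pp_022 s323_pp_022

theorem s325_pp_022 : ∃ t, chk3 f_pp_022 t 16 30 2 = true := ex3_c s324_pp_022 s313_pp_022

theorem s326_pp_022 : ∃ t, chk3 f_pp_022 t 16 15 2 = true := ex3_b s325_pp_022 k215_pp_022

theorem s327_pp_022 : ∃ t, chk3 f_pp_022 t 16 15 1 = true := ex3_c s326_pp_022 k216_pp_022

theorem s328_pp_022 : ∃ t, chk3 f_pp_022 t 8 15 1 = true := ex3_a s327_pp_022 s306_pp_022

theorem s329_pp_022 : ∃ t, chk3 f_pp_022 t 17 29 3 = true := ex3_a k193_pp_022 k194_pp_022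

theorem s330_pp_022 : ∃ t, chk3 f_pp_022 t 17 14 3 = true := ex3_b k192_pp_022 s329_pp_022

theorem s331_pp_022 : ∃ t, chk3 f_pp_022 t 140 238 4 = true := ex3_a k186_pp_022 k187_pp_022

theorem s332_pp_022 : ∃ t, chk3 f_pp_022 t 70 238 4 = true := ex3_a s331_pp_022 k188_pp_022

theorem s333_pp_022 : ∃ t, chk3 f_pp_022 t 70 119 4 = true := ex3_b s332_pp_022 k189_pp_022

theorem s334_pp_022 : ∃ t, chk3 f_pp_022 t 70 118 8 = true := ex3_a k183_pp_022 k184_pp_022

theorem s335_pp_022 : ∃ t, chk3 f_pp_022 t 70 118 4 = true := ex3_c s334_pp_022 k185_pp_022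

theorem s336_pp_022 : ∃ t, chk3 f_pp_022 t 70 59 4 = true := ex3_b s335_pp_022 s333_pp_022

theorem s337_pp_022 : ∃ t, chk3 f_pp_022 t 35 59 4 = true := ex3_a s336_pp_022 k190_pp_022

theorem s338_pp_022 : ∃ t, chk3 f_pp_022 t 142 58 17 = true := ex3_b k179_pp_022 k180_pp_022

theorem s339_pp_022 : ∃ t, chk3 f_pp_022 t 142 58 8 = true := ex3_c k178_pp_022 s338_pp_022

theorem s340_pp_022 : ∃ t, chk3 f_pp_022 t 71 58 8 = true := ex3_a s339_pp_022 k181_pp_022

theorem s341_pp_022 : ∃ t, chk3 f_pp_022 t 71 58 4 = true := ex3_c s340_pp_022 k182_pp_022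

theorem s342_pp_022 : ∃ t, chk3 f_pp_022 t 70 58 9 = true := ex3_a k176_pp_022 k177_pp_022

theorem s343_pp_022 : ∃ t, chk3 f_pp_022 t 70 117 8 = true := ex3_a k174_pp_022 k175_pp_022

theorem s344_pp_022 : ∃ t, chk3 f_pp_022 t 141 116 16 = true := ex3_a k171_pp_022 k172_pp_022

theorem s345_pp_022 : ∃ t, chk3 f_pp_022 t 141 116 8 = true := ex3_c s344_pp_022 k173_pp_022

theorem s346_pp_022 : ∃ t, chk3 f_pp_022 t 70 116 8 = true := ex3_a k170_pp_022 s345_pp_022

theorem s347_pp_022 : ∃ t, chk3 f_pp_022 t 70 58 8 = true := ex3_b s346_pp_022 s343_pp_022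

theorem s348_pp_022 : ∃ t, chk3 f_pp_022 t 70 58 4 = true := ex3_c s347_pp_022 s342_pp_022

theorem s349_pp_022 : ∃ t, chk3 f_pp_022 t 35 58 4 = true := ex3_a s348_pp_022 s341_pp_022

theorem s350_pp_022 : ∃ t, chk3 f_pp_022 t 35 29 4 = true := ex3_b s349_pp_022 s337_pp_022

theorem s351_pp_022 : ∃ t, chk3 f_pp_022 t 35 29 2 = true := ex3_c s350_pp_022 k191_pp_022

theorem s352_pp_022 : ∃ t, chk3 f_pp_022 t 70 57 8 = true := ex3_a k165_pp_022 k166_pp_022

theorem s353_pp_022 : ∃ t, chk3 f_pp_022 t 70 28 8 = true := ex3_b k164_pp_022 s352_pp_022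

theorem s354_pp_022 : ∃ t, chk3 f_pp_022 t 70 28 4 = true := ex3_c s353_pp_022 k167_pp_022

theorem s355_pp_022 : ∃ t, chk3 f_pp_022 t 35 28 4 = true := ex3_a s354_pp_022 k168_pp_022

theorem s356_pp_022 : ∃ t, chk3 f_pp_022 t 35 28 2 = true := ex3_c s355_pp_022 k169_pp_022

theorem s357_pp_022 : ∃ t, chk3 f_pp_022 t 35 14 2 = true := ex3_b s356_pp_022 s351_pp_022

theorem s358_pp_022 : ∃ t, chk3 f_pp_022 t 69 59 20 = true := ex3_a k160_pp_022 k161_pp_022

theorem s359_pp_022 : ∃ t, chk3 f_pp_022 t 69 59 10 = true := ex3_c s358_pp_022 k162_pp_022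

theorem s360_pp_022 : ∃ t, chk3 f_pp_022 t 69 59 5 = true := ex3_c s359_pp_022 k163_pp_022

theorem s361_pp_022 : ∃ t, chk3 f_pp_022 t 68 119 5 = true := ex3_c k158_pp_022 k159_pp_022

theorem s362_pp_022 : ∃ t, chk3 f_pp_022 t 68 118 5 = true := ex3_c k156_pp_022 k157_pp_022

theorem s363_pp_022 : ∃ t, chk3 f_pp_022 t 68 59 5 = true := ex3_b s362_pp_022 s361_pp_022

theorem s364_pp_022 : ∃ t, chk3 f_pp_022 t 34 59 5 = true := ex3_a s363_pp_022 s360_pp_022

theorem s365_pp_022 : ∃ t, chk3 f_pp_022 t 68 58 5 = true := ex3_c k153_pp_022 k154_pp_022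

theorem s366_pp_022 : ∃ t, chk3 f_pp_022 t 34 58 5 = true := ex3_a s365_pp_022 k155_pp_022

theorem s367_pp_022 : ∃ t, chk3 f_pp_022 t 34 29 5 = true := ex3_b s366_pp_022 s364_pp_022

theorem s368_pp_022 : ∃ t, chk3 f_pp_022 t 138 119 9 = true := ex3_a k150_pp_022 k151_pp_022

theorem s369_pp_022 : ∃ t, chk3 f_pp_022 t 69 119 9 = true := ex3_a s368_pp_022 k152_pp_022

theorem s370_pp_022 : ∃ t, chk3 f_pp_022 t 69 59 9 = true := ex3_b k149_pp_022 s369_pp_022

theorem s371_pp_022 : ∃ t, chk3 f_pp_022 t 138 119 17 = true := ex3_b k146_pp_022 k147_pp_022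

theorem s372_pp_022 : ∃ t, chk3 f_pp_022 t 69 119 17 = true := ex3_a s371_pp_022 k148_pp_022

theorem s373_pp_022 : ∃ t, chk3 f_pp_022 t 69 479 16 = true := ex3_b k144_pp_022 k145_pp_022

theorem s374_pp_022 : ∃ t, chk3 f_pp_022 t 69 239 16 = true := ex3_b k143_pp_022 s373_pp_022

theorem s375_pp_022 : ∃ t, chk3 f_pp_022 t 69 238 16 = true := ex3_a k141_pp_022 k142_pp_022

theorem s376_pp_022 : ∃ t, chk3 f_pp_022 t 69 119 16 = true := ex3_b s375_pp_022 s374_pp_022

theorem s377_pp_022 : ∃ t, chk3 f_pp_022 t 69 119 8 = true := ex3_c s376_pp_022 s372_pp_022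

theorem s378_pp_022 : ∃ t, chk3 f_pp_022 t 69 118 33 = true := ex3_a k138_pp_022 k139_pp_022

theorem s379_pp_022 : ∃ t, chk3 f_pp_022 t 69 118 16 = true := ex3_c k137_pp_022 s378_pp_022

theorem s380_pp_022 : ∃ t, chk3 f_pp_022 t 69 118 8 = true := ex3_c s379_pp_022 k140_pp_022

theorem s381_pp_022 : ∃ t, chk3 f_pp_022 t 69 59 8 = true := ex3_b s380_pp_022 s377_pp_022

theorem s382_pp_022 : ∃ t, chk3 f_pp_022 t 69 59 4 = true := ex3_c s381_pp_022 s370_pp_022

theorem s383_pp_022 : ∃ t, chk3 f_pp_022 t 137 119 18 = true := ex3_b k134_pp_022 k135_pp_022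

theorem s384_pp_022 : ∃ t, chk3 f_pp_022 t 137 119 9 = true := ex3_c s383_pp_022 k136_pp_022

theorem s385_pp_022 : ∃ t, chk3 f_pp_022 t 136 119 9 = true := ex3_c k132_pp_022 k133_pp_022

theorem s386_pp_022 : ∃ t, chk3 f_pp_022 t 68 119 9 = true := ex3_a s385_pp_022 s384_pp_022

theorem s387_pp_022 : ∃ t, chk3 f_pp_022 t 68 118 9 = true := ex3_a k130_pp_022 k131_pp_022

theorem s388_pp_022 : ∃ t, chk3 f_pp_022 t 68 59 9 = true := ex3_b s387_pp_022 s386_pp_022

theorem s389_pp_022 : ∃ t, chk3 f_pp_022 t 137 119 17 = true := ex3_b k128_pp_022 k129_pp_022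

theorem s390_pp_022 : ∃ t, chk3 f_pp_022 t 137 238 16 = true := ex3_a k125_pp_022 k126_pp_022

theorem s391_pp_022 : ∃ t, chk3 f_pp_022 t 137 119 16 = true := ex3_b s390_pp_022 k127_pp_022

theorem s392_pp_022 : ∃ t, chk3 f_pp_022 t 137 119 8 = true := ex3_c s391_pp_022 s389_pp_022

theorem s393_pp_022 : ∃ t, chk3 f_pp_022 t 136 119 17 = true := ex3_b k123_pp_022 k124_pp_022

theorem s394_pp_022 : ∃ t, chk3 f_pp_022 t 136 119 8 = true := ex3_c k122_pp_022 s393_pp_022

theorem s395_pp_022 : ∃ t, chk3 f_pp_022 t 68 119 8 = true := ex3_a s394_pp_022 s392_pp_022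

theorem s396_pp_022 : ∃ t, chk3 f_pp_022 t 137 118 8 = true := ex3_a k120_pp_022 k121_pp_022

theorem s397_pp_022 : ∃ t, chk3 f_pp_022 t 136 118 8 = true := ex3_a k118_pp_022 k119_pp_022

theorem s398_pp_022 : ∃ t, chk3 f_pp_022 t 68 118 8 = true := ex3_a s397_pp_022 s396_pp_022

theorem s399_pp_022 : ∃ t, chk3 f_pp_022 t 68 59 8 = true := ex3_b s398_pp_022 s395_pp_022

theorem s400_pp_022 : ∃ t, chk3 f_pp_022 t 68 59 4 = true := ex3_c s399_pp_022 s388_pp_022

theorem s401_pp_022 : ∃ t, chk3 f_pp_022 t 34 59 4 = true := ex3_a s400_pp_022 s382_pp_022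

theorem s402_pp_022 : ∃ t, chk3 f_pp_022 t 34 58 9 = true := ex3_b k116_pp_022 k117_pp_022

theorem s403_pp_022 : ∃ t, chk3 f_pp_022 t 69 117 16 = true := ex3_c k113_pp_022 k114_pp_022

theorem s404_pp_022 : ∃ t, chk3 f_pp_022 t 69 117 8 = true := ex3_c s403_pp_022 k115_pp_022

theorem s405_pp_022 : ∃ t, chk3 f_pp_022 t 69 58 8 = true := ex3_b k112_pp_022 s404_pp_022

theorem s406_pp_022 : ∃ t, chk3 f_pp_022 t 68 117 8 = true := ex3_a k110_pp_022 k111_pp_022

theorem s407_pp_022 : ∃ t, chk3 f_pp_022 t 68 116 8 = true := ex3_a k108_pp_022 k109_pp_022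

theorem s408_pp_022 : ∃ t, chk3 f_pp_022 t 68 58 8 = true := ex3_b s407_pp_022 s406_pp_022

theorem s409_pp_022 : ∃ t, chk3 f_pp_022 t 34 58 8 = true := ex3_a s408_pp_022 s405_pp_022

theorem s410_pp_022 : ∃ t, chk3 f_pp_022 t 34 58 4 = true := ex3_c s409_pp_022 s402_pp_022

theorem s411_pp_022 : ∃ t, chk3 f_pp_022 t 34 29 4 = true := ex3_b s410_pp_022 s401_pp_022

theorem s412_pp_022 : ∃ t, chk3 f_pp_022 t 34 29 2 = true := ex3_c s411_pp_022 s367_pp_022

theorem s413_pp_022 : ∃ t, chk3 f_pp_022 t 34 28 5 = true := ex3_a k106_pp_022 k107_pp_022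

theorem s414_pp_022 : ∃ t, chk3 f_pp_022 t 34 57 4 = true := ex3_a k104_pp_022 k105_pp_022

theorem s415_pp_022 : ∃ t, chk3 f_pp_022 t 34 28 4 = true := ex3_b k103_pp_022 s414_pp_022

theorem s416_pp_022 : ∃ t, chk3 f_pp_022 t 34 28 2 = true := ex3_c s415_pp_022 s413_pp_022

theorem s417_pp_022 : ∃ t, chk3 f_pp_022 t 34 14 2 = true := ex3_b s416_pp_022 s412_pp_022

theorem s418_pp_022 : ∃ t, chk3 f_pp_022 t 17 14 2 = true := ex3_a s417_pp_022 s357_pp_022

theorem s419_pp_022 : ∃ t, chk3 f_pp_022 t 17 14 1 = true := ex3_c s418_pp_022 s330_pp_022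

theorem s420_pp_022 : ∃ t, chk3 f_pp_022 t 67 58 3 = true := ex3_c k100_pp_022 k101_pp_022

theorem s421_pp_022 : ∃ t, chk3 f_pp_022 t 67 29 3 = true := ex3_b s420_pp_022 k102_pp_022

theorem s422_pp_022 : ∃ t, chk3 f_pp_022 t 66 29 3 = true := ex3_a k98_pp_022 k99_pp_022

theorem s423_pp_022 : ∃ t, chk3 f_pp_022 t 33 29 3 = true := ex3_a s422_pp_022 s421_pp_022

theorem s424_pp_022 : ∃ t, chk3 f_pp_022 t 33 28 6 = true := ex3_a k95_pp_022 k96_pp_022

theorem s425_pp_022 : ∃ t, chk3 f_pp_022 t 33 28 3 = true := ex3_c s424_pp_022 k97_pp_022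

theorem s426_pp_022 : ∃ t, chk3 f_pp_022 t 33 14 3 = true := ex3_b s425_pp_022 s423_pp_022

theorem s427_pp_022 : ∃ t, chk3 f_pp_022 t 32 28 3 = true := ex3_c k92_pp_022 k93_pp_022

theorem s428_pp_022 : ∃ t, chk3 f_pp_022 t 32 14 3 = true := ex3_b s427_pp_022 k94_pp_022

theorem s429_pp_022 : ∃ t, chk3 f_pp_022 t 16 14 3 = true := ex3_a s428_pp_022 s426_pp_022

theorem s430_pp_022 : ∃ t, chk3 f_pp_022 t 67 119 10 = true := ex3_c k89_pp_022 k90_pp_022

theorem s431_pp_022 : ∃ t, chk3 f_pp_022 t 67 59 10 = true := ex3_b k88_pp_022 s430_pp_022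

theorem s432_pp_022 : ∃ t, chk3 f_pp_022 t 67 59 5 = true := ex3_c s431_pp_022 k91_pp_022

theorem s433_pp_022 : ∃ t, chk3 f_pp_022 t 66 59 5 = true := ex3_b k86_pp_022 k87_pp_022

theorem s434_pp_022 : ∃ t, chk3 f_pp_022 t 33 59 5 = true := ex3_a s433_pp_022 s432_pp_022

theorem s435_pp_022 : ∃ t, chk3 f_pp_022 t 33 58 5 = true := ex3_a k84_pp_022 k85_pp_022

theorem s436_pp_022 : ∃ t, chk3 f_pp_022 t 33 29 5 = true := ex3_b s435_pp_022 s434_pp_022

theorem s437_pp_022 : ∃ t, chk3 f_pp_022 t 67 119 19 = true := ex3_a k82_pp_022 k83_pp_022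

theorem s438_pp_022 : ∃ t, chk3 f_pp_022 t 135 119 18 = true := ex3_b k80_pp_022 k81_pp_022

theorem s439_pp_022 : ∃ t, chk3 f_pp_022 t 67 119 18 = true := ex3_a k79_pp_022 s438_pp_022

theorem s440_pp_022 : ∃ t, chk3 f_pp_022 t 67 119 9 = true := ex3_c s439_pp_022 s437_pp_022

theorem s441_pp_022 : ∃ t, chk3 f_pp_022 t 67 118 9 = true := ex3_c k77_pp_022 k78_pp_022

theorem s442_pp_022 : ∃ t, chk3 f_pp_022 t 67 59 9 = true := ex3_b s441_pp_022 s440_pp_022

theorem s443_pp_022 : ∃ t, chk3 f_pp_022 t 133 59 9 = true := ex3_b k75_pp_022 k76_pp_022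

theorem s444_pp_022 : ∃ t, chk3 f_pp_022 t 66 59 9 = true := ex3_a k74_pp_022 s443_pp_022

theorem s445_pp_022 : ∃ t, chk3 f_pp_022 t 33 59 9 = true := ex3_a s444_pp_022 s442_pp_022

theorem s446_pp_022 : ∃ t, chk3 f_pp_022 t 67 118 8 = true := ex3_c k71_pp_022 k72_pp_022

theorem s447_pp_022 : ∃ t, chk3 f_pp_022 t 33 118 8 = true := ex3_a k70_pp_022 s446_pp_022

theorem s448_pp_022 : ∃ t, chk3 f_pp_022 t 33 59 8 = true := ex3_b s447_pp_022 k73_pp_022

theorem s449_pp_022 : ∃ t, chk3 f_pp_022 t 33 59 4 = true := ex3_c s448_pp_022 s445_pp_022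

theorem s450_pp_022 : ∃ t, chk3 f_pp_022 t 67 117 9 = true := ex3_c k68_pp_022 k69_pp_022

theorem s451_pp_022 : ∃ t, chk3 f_pp_022 t 67 117 8 = true := ex3_a k66_pp_022 k67_pp_022

theorem s452_pp_022 : ∃ t, chk3 f_pp_022 t 67 117 4 = true := ex3_c s451_pp_022 s450_pp_022

theorem s453_pp_022 : ∃ t, chk3 f_pp_022 t 67 116 8 = true := ex3_a k63_pp_022 k64_pp_022

theorem s454_pp_022 : ∃ t, chk3 f_pp_022 t 67 116 4 = true := ex3_c s453_pp_022 k65_pp_022

theorem s455_pp_022 : ∃ t, chk3 f_pp_022 t 67 58 4 = true := ex3_b s454_pp_022 s452_pp_022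

theorem s456_pp_022 : ∃ t, chk3 f_pp_022 t 66 117 9 = true := ex3_c k61_pp_022 k62_pp_022

theorem s457_pp_022 : ∃ t, chk3 f_pp_022 t 66 58 9 = true := ex3_b k60_pp_022 s456_pp_022

theorem s458_pp_022 : ∃ t, chk3 f_pp_022 t 66 58 4 = true := ex3_c k59_pp_022 s457_pp_022

theorem s459_pp_022 : ∃ t, chk3 f_pp_022 t 33 58 4 = true := ex3_a s458_pp_022 s455_pp_022

theorem s460_pp_022 : ∃ t, chk3 f_pp_022 t 33 29 4 = true := ex3_b s459_pp_022 s449_pp_022

theorem s461_pp_022 : ∃ t, chk3 f_pp_022 t 33 29 2 = true := ex3_c s460_pp_022 s436_pp_022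

theorem s462_pp_022 : ∃ t, chk3 f_pp_022 t 131 58 2 = true := ex3_c k56_pp_022 k57_pp_022

theorem s463_pp_022 : ∃ t, chk3 f_pp_022 t 65 58 2 = true := ex3_a k55_pp_022 s462_pp_022

theorem s464_pp_022 : ∃ t, chk3 f_pp_022 t 32 58 2 = true := ex3_a k54_pp_022 s463_pp_022

theorem s465_pp_022 : ∃ t, chk3 f_pp_022 t 32 29 2 = true := ex3_b s464_pp_022 k58_pp_022

theorem s466_pp_022 : ∃ t, chk3 f_pp_022 t 16 29 2 = true := ex3_a s465_pp_022 s461_pp_022

theorem s467_pp_022 : ∃ t, chk3 f_pp_022 t 67 57 8 = true := ex3_b k50_pp_022 k51_pp_022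

theorem s468_pp_022 : ∃ t, chk3 f_pp_022 t 67 57 4 = true := ex3_c s467_pp_022 k52_pp_022

theorem s469_pp_022 : ∃ t, chk3 f_pp_022 t 66 57 8 = true := ex3_b k47_pp_022 k48_pp_022

theorem s470_pp_022 : ∃ t, chk3 f_pp_022 t 66 57 4 = true := ex3_c s469_pp_022 k49_pp_022

theorem s471_pp_022 : ∃ t, chk3 f_pp_022 t 33 57 4 = true := ex3_a s470_pp_022 s468_pp_022

theorem s472_pp_022 : ∃ t, chk3 f_pp_022 t 33 28 4 = true := ex3_b k46_pp_022 s471_pp_022

theorem s473_pp_022 : ∃ t, chk3 f_pp_022 t 33 28 2 = true := ex3_c s472_pp_022 k53_pp_022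

theorem s474_pp_022 : ∃ t, chk3 f_pp_022 t 32 28 5 = true := ex3_b k44_pp_022 k45_pp_022

theorem s475_pp_022 : ∃ t, chk3 f_pp_022 t 32 57 9 = true := ex3_a k42_pp_022 k43_pp_022

theorem s476_pp_022 : ∃ t, chk3 f_pp_022 t 32 57 4 = true := ex3_c k41_pp_022 s475_pp_022

theorem s477_pp_022 : ∃ t, chk3 f_pp_022 t 65 56 4 = true := ex3_c k39_pp_022 k40_pp_022

theorem s478_pp_022 : ∃ t, chk3 f_pp_022 t 32 56 4 = true := ex3_a k38_pp_022 s477_pp_022

theorem s479_pp_022 : ∃ t, chk3 f_pp_022 t 32 28 4 = true := ex3_b s478_pp_022 s476_pp_022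

theorem s480_pp_022 : ∃ t, chk3 f_pp_022 t 32 28 2 = true := ex3_c s479_pp_022 s474_pp_022

theorem s481_pp_022 : ∃ t, chk3 f_pp_022 t 16 28 2 = true := ex3_a s480_pp_022 s473_pp_022

theorem s482_pp_022 : ∃ t, chk3 f_pp_022 t 16 14 2 = true := ex3_b s481_pp_022 s466_pp_022

theorem s483_pp_022 : ∃ t, chk3 f_pp_022 t 16 14 1 = true := ex3_c s482_pp_022 s429_pp_022

theorem s484_pp_022 : ∃ t, chk3 f_pp_022 t 8 14 1 = true := ex3_a s483_pp_022 s419_pp_022

theorem s485_pp_022 : ∃ t, chk3 f_pp_022 t 8 7 1 = true := ex3_b s484_pp_022 s328_pp_022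

theorem s486_pp_022 : ∃ t, chk3 f_pp_022 t 4 7 1 = true := ex3_a s485_pp_022 s280_pp_022

theorem s487_pp_022 : ∃ t, chk3 f_pp_022 t 19 13 1 = true := ex3_b k36_pp_022 k37_pp_022

theorem s488_pp_022 : ∃ t, chk3 f_pp_022 t 36 13 1 = true := ex3_b k33_pp_022 k34_pp_022

theorem s489_pp_022 : ∃ t, chk3 f_pp_022 t 18 13 1 = true := ex3_a s488_pp_022 k35_pp_022

theorem s490_pp_022 : ∃ t, chk3 f_pp_022 t 9 13 1 = true := ex3_a s489_pp_022 s487_pp_022

theorem s491_pp_022 : ∃ t, chk3 f_pp_022 t 9 12 1 = true := ex3_a k31_pp_022 k32_pp_022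

theorem s492_pp_022 : ∃ t, chk3 f_pp_022 t 9 6 1 = true := ex3_b s491_pp_022 s490_pp_022

theorem s493_pp_022 : ∃ t, chk3 f_pp_022 t 35 27 2 = true := ex3_a k28_pp_022 k29_pp_022

theorem s494_pp_022 : ∃ t, chk3 f_pp_022 t 35 27 1 = true := ex3_c s493_pp_022 k30_pp_022

theorem s495_pp_022 : ∃ t, chk3 f_pp_022 t 35 26 1 = true := ex3_b k26_pp_022 k27_pp_022

theorem s496_pp_022 : ∃ t, chk3 f_pp_022 t 35 13 1 = true := ex3_b s495_pp_022 s494_pp_022

theorem s497_pp_022 : ∃ t, chk3 f_pp_022 t 34 13 5 = true := ex3_c k23_pp_022 k24_pp_022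

theorem s498_pp_022 : ∃ t, chk3 f_pp_022 t 34 13 2 = true := ex3_c k22_pp_022 s497_pp_022

theorem s499_pp_022 : ∃ t, chk3 f_pp_022 t 34 13 1 = true := ex3_c s498_pp_022 k25_pp_022

theorem s500_pp_022 : ∃ t, chk3 f_pp_022 t 17 13 1 = true := ex3_a s499_pp_022 s496_pp_022

theorem s501_pp_022 : ∃ t, chk3 f_pp_022 t 34 12 1 = true := ex3_c k19_pp_022 k20_pp_022

theorem s502_pp_022 : ∃ t, chk3 f_pp_022 t 17 12 1 = true := ex3_a s501_pp_022 k21_pp_022

theorem s503_pp_022 : ∃ t, chk3 f_pp_022 t 17 6 1 = true := ex3_b s502_pp_022 s500_pp_022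

theorem s504_pp_022 : ∃ t, chk3 f_pp_022 t 32 13 3 = true := ex3_c k16_pp_022 k17_pp_022

theorem s505_pp_022 : ∃ t, chk3 f_pp_022 t 16 13 3 = true := ex3_a s504_pp_022 k18_pp_022

theorem s506_pp_022 : ∃ t, chk3 f_pp_022 t 32 27 4 = true := ex3_b k12_pp_022 k13_pp_022

theorem s507_pp_022 : ∃ t, chk3 f_pp_022 t 32 27 2 = true := ex3_c s506_pp_022 k14_pp_022

theorem s508_pp_022 : ∃ t, chk3 f_pp_022 t 32 13 2 = true := ex3_b k11_pp_022 s507_pp_022

theorem s509_pp_022 : ∃ t, chk3 f_pp_022 t 16 13 2 = true := ex3_a s508_pp_022 k15_pp_022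

theorem s510_pp_022 : ∃ t, chk3 f_pp_022 t 16 13 1 = true := ex3_c s509_pp_022 s505_pp_022

theorem s511_pp_022 : ∃ t, chk3 f_pp_022 t 16 12 1 = true := ex3_a k9_pp_022 k10_pp_022

theorem s512_pp_022 : ∃ t, chk3 f_pp_022 t 16 6 1 = true := ex3_b s511_pp_022 s510_pp_022

theorem s513_pp_022 : ∃ t, chk3 f_pp_022 t 8 6 1 = true := ex3_a s512_pp_022 s503_pp_022

theorem s514_pp_022 : ∃ t, chk3 f_pp_022 t 4 6 1 = true := ex3_a s513_pp_022 s492_pp_022

theorem s515_pp_022 : ∃ t, chk3 f_pp_022 t 4 3 1 = true := ex3_b s514_pp_022 s486_pp_022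

theorem s516_pp_022 : ∃ t, chk3 f_pp_022 t 2 3 1 = true := ex3_a s515_pp_022 s270_pp_022

theorem s517_pp_022 : ∃ t, chk3 f_pp_022 t 5 2 1 = true := ex3_b k7_pp_022 k8_pp_022

theorem s518_pp_022 : ∃ t, chk3 f_pp_022 t 16 5 1 = true := ex3_c k3_pp_022 k4_pp_022

theorem s519_pp_022 : ∃ t, chk3 f_pp_022 t 8 5 1 = true := ex3_a s518_pp_022 k5_pp_022

theorem s520_pp_022 : ∃ t, chk3 f_pp_022 t 4 5 1 = true := ex3_a s519_pp_022 k6_pp_022

theorem s521_pp_022 : ∃ t, chk3 f_pp_022 t 8 4 1 = true := ex3_a k0_pp_022 k1_pp_022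

theorem s522_pp_022 : ∃ t, chk3 f_pp_022 t 4 4 1 = true := ex3_a s521_pp_022 k2_pp_022

theorem s523_pp_022 : ∃ t, chk3 f_pp_022 t 4 2 1 = true := ex3_b s522_pp_022 s520_pp_022

theorem s524_pp_022 : ∃ t, chk3 f_pp_022 t 2 2 1 = true := ex3_a s523_pp_022 s517_pp_022

theorem s525_pp_022 : ∃ t, chk3 f_pp_022 t 2 1 1 = true := ex3_b s524_pp_022 s516_pp_022

theorem s526_pp_022 : ∃ t, chk3 f_pp_022 t 1 1 1 = true := ex3_a s525_pp_022 k263_pp_022

theorem c_pp_022 : CertNX 0 536870912 0 536870912 1046898278 26843546 3 true true true .pp 0 2 2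
    ndN0q0 ndN0q2 pcN2 cut_pp_022 Ext.none :=
  certNX0 (fam := true) (s1 := true) (s2 := true) (a := 0) (b := 2) (c := 2) (cn := .pp) (n1 := ndN0q0) (n2 := ndN0q2) (pc := pcN2) (cut := cut_pp_022) (xt := Ext.none) (P1 := 0) (W1 := 536870912) (P2 := 0) (W2 := 536870912) (P3 := 1046898278) (W3 := 26843546) (N0 := 3)
    rfl s526_pp_022

end Pool.Agent.Strip051.G.IE1.Tab.C.NA00

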