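import Pool.Agent.Strip051.G.IE1.Tab

/-! # Certificates N11 (generated) -/

set_option linter.all false
set_option maxRecDepth 100000

namespace Pool.Agent.Strip051.G.IE1.Tab.C.NA00

open Pool.Agent.Strip051.PB Pool.Agent.Strip051.PB.T
open Pool.Agent.Strip051.G.IE1.Tab

noncomputable def f_mm_203 : ℕ → ℕ → ℕ → ℕ → Bool := onCell 0 536870912 1610612736 536870912 1046898278 26843546
    (rowNX 3 1 true false false .up 2 0 3 (qsf 0 536870912 0 536870912 3) ndN0q2 ndN0q0 pcN3 Cut.none Ext.none)

def k0_mm_203 : ∃ t, chk3 f_mm_203 t 2 4 1 = true :=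
  ⟨(a (a (c (b (c (c (l 16777216) (l 16777216)) (c (l 16777216) (l 16777216))) (c (c (l 16777216) (l 16777216)) (b (l 16777216) (l 16777216)))) (b (c (l 16777216) (l 16777216)) (c (b (l 16777216) (l 16777216)) (b (l 16777216) (l 16777216))))) (b (c (c (b (l 16777216) (c (l 16777216) (l 16777216))) (c (l 16777216) (l 16777216))) (c (c (l 16777216) (l 16777216)) (c (l 16777216) (l 16777216)))) (c (c (b (c (l 16777216) (l 16777216)) (b (c (l 42647683079) (l 42110812167)) (a (l 16777216) (a (l 16777216) (l 183307862023))))) (b (c (l 16777216) (l 16777216)) (a (l 16777216) (b (l 37278973959) (a (l 16777216) (l 176865411079)))))) (c (b (c (l 16777216) (l 16777216)) (a (l 16777216) (c (l 129083899911) (l 125862674439)))) (b (a (l 16777216) (l 16777216)) (a (l 16777216) (c (l 16777216) (l 16777216)))))))) (a (b (c (b (c (a (l 16777216) (c (l 41037070343) (l 16777216))) (a (l 16777216) (b (l 16777216) (l 42647683079)))) (a (c (b (l 16777216) (l 16777216)) (l 16777216)) (b (c (a (l 16777216) (l 169886089223))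 (l 133378867207)) (c (l 170422960135) (l 162906767367))))) (c (b (c (l 16777216) (l 16777216)) (a (l 16777216) (b (l 127473287175) (l 155927445511)))) (b (a (l 16777216) (l 53921972231)) (a (l 16777216) (b (l 121567707143) (l 148948123655)))))) (a (b (c (c (b (a (l 16777216) (l 154316832775)) (a (l 147874381831) (l 4))) (b (l 124788932615) (l 154853703687))) (c (b (l 16777216) (l 147337510919)) (b (l 16777216) (l 140358189063)))) (l 4)) (l 4))) (a (a (b (b (c (b (c (l 137136963591) (l 131231383559)) (l 4)) (c (l 137136963591) (l 131768254471))) (l 4)) (l 4)) (l 4)) (l 4)))), by decide +kernel⟩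

def k1_mm_203 : ∃ t, chk3 f_mm_203 t 2 5 1 = true :=
  ⟨(a (b (a (b (c (c (c (l 16777216) (l 16777216)) (c (l 16777216) (l 16777216))) (c (c (l 16777216) (l 16777216)) (l 16777216))) (l 2)) (b (b (c (a (c (l 41573941255) (l 16777216)) (a (c (l 177402281991) (l 171496701959)) (l 4))) (c (a (l 16777216) (l 172033572871)) (a (l 16777216) (l 166664863751)))) (a (c (c (a (l 16777216) (l 172033572871)) (c (l 16777216) (l 16777216))) (c (l 137673834503) (l 16777216))) (l 4))) (l 2))) (l 2)) (l 4)), by decide +kernel⟩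

def k2_mm_203 : ∃ t, chk3 f_mm_203 t 3 2 1 = true :=
  ⟨(l 4), by decide +kernel⟩

def k3_mm_203 : ∃ t, chk3 f_mm_203 t 1 3 1 = true :=
  ⟨(l 2), by decide +kernel⟩

theorem s4_mm_203 : ∃ t, chk3 f_mm_203 t 2 2 1 = true := ex3_b k0_mm_203 k1_mm_203

theorem s5_mm_203 : ∃ t, chk3 f_mm_203 t 1 2 1 = true := ex3_a s4_mm_203 k2_mm_203

theorem s6_mm_203 : ∃ t, chk3 f_mm_203 t 1 1 1 = true := ex3_b s5_mm_203 k3_mm_203

theorem c_mm_203 : CertNX 0 536870912 0 536870912 1046898278 26843546 3 true false false .up 2 0 3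
    ndN0q2 ndN0q0 pcN3 Cut.none Ext.none :=
  certNX1 (fam := true) (s1 := false) (s2 := false) (a := 2) (b := 0) (c := 3) (cn := .up) (n1 := ndN0q2) (n2 := ndN0q0) (pc := pcN3) (cut := Cut.none) (xt := Ext.none) (P1 := 0) (W1 := 536870912) (P2 := 0) (W2 := 536870912) (P3 := 1046898278) (W3 := 26843546) (N0 := 3)
    rfl (fun _ => rfl) s6_mm_203

noncomputable def f_mm_213 : ℕ → ℕ → ℕ → ℕ → Bool := onCell 0 536870912 536870912 536870912 1046898278 26843546
    (rowNX 3 0 true false false .pnn 2 1 3 (qsf 0 536870912 536870912 536870912 3) ndN0q2 ndN0q1 pcN3 Cut.none Ext.none)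

def k0_mm_213 : ∃ t, chk3 f_mm_213 t 1 1 1 = true :=
  ⟨(a (b (a (b (a (b (b (c (c (a (c (l 16777216) (l 16777216)) (b (l 16777216) (c (l 23320330247) (l 16777216)))) (a (l 16777216) (c (l 29225910279) (l 16777216)))) (c (a (l 16777216) (b (l 16777216) (l 16777216))) (c (l 16777216) (l 16777216)))) (a (c (c (b (l 16777216) (c (l 16777216) (l 16777216))) (c (l 26541555719) (l 16777216))) (c (b (l 16777216) (l 16777216)) (b (l 16777216) (l 16777216)))) (b (a (c (c (l 155927445511) (l 16777216)) (b (l 16777216) (l 165591121927))) (l 4)) (l 4)))) (a (a (b (b (c (c (c (l 16777216) (l 16777216)) (l 16777216)) (c (l 16777216) (l 16777216))) (l 4)) (l 4)) (l 4)) (l 4))) (b (a (a (b (b (c (c (l 155390574599) (l 16777216)) (c (l 16777216) (l 16777216))) (l 4)) (l 4)) (l 4)) (l 4)) (l 4))) (l 4)) (l 4)) (l 4)) (l 4)), by decide +kernel⟩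

theorem c_mm_213 : CertNX 0 536870912 536870912 536870912 1046898278 26843546 3 true false false .pnn 2 1 3
    ndN0q2 ndN0q1 pcN3 Cut.none Ext.none :=
  certNX0 (fam := true) (s1 := false) (s2 := false) (a := 2) (b := 1) (c := 3) (cn := .pnn) (n1 := ndN0q2) (n2 := ndN0q1) (pc := pcN3) (cut := Cut.none) (xt := Ext.none) (P1 := 0) (W1 := 536870912) (P2 := 536870912) (W2 := 536870912) (P3 := 1046898278) (W3 := 26843546) (N0 := 3)
    rfl k0_mm_213

end Pool.Agent.Strip051.G.IE1.Tab.C.NA00

namespace Pool.Agent.Strip051.G.IE1.Tab.C.NA01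

open Pool.Agent.Strip051.PB Pool.Agent.Strip051.PB.T
open Pool.Agent.Strip051.G.IE1.Tab

noncomputable def f_pp_001 : ℕ → ℕ → ℕ → ℕ → Bool := onCell 0 536870912 67108864 469762048 1046898278 26843546
    (rowNX 3 0 true true true .up 0 0 1 (qsf 0 536870912 67108864 469762048 1) ndN0q0 ndN1q0 pcN1 Cut.none Ext.none)

def k0_pp_001 : ∃ t, chk3 f_pp_001 t 1 1 1 = true :=
  ⟨(l 4), by decide +kernel⟩

theorem c_pp_001 : CertNX 0 536870912 67108864 469762048 1046898278 26843546 3 true true true .up 0 0 1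
    ndN0q0 ndN1q0 pcN1 Cut.none Ext.none :=
  certNX0 (fam := true) (s1 := true) (s2 := true) (a := 0) (b := 0) (c := 1) (cn := .up) (n1 := ndN0q0) (n2 := ndN1q0) (pc := pcN1) (cut := Cut.none) (xt := Ext.none) (P1 := 0) (W1 := 536870912) (P2 := 67108864) (W2 := 469762048) (P3 := 1046898278) (W3 := 26843546) (N0 := 3)
    rfl k0_pp_001

noncomputable def f_pp_011 : ℕ → ℕ → ℕ → ℕ → Bool := onCell 0 536870912 536870912 536870912 1046898278 26843546
    (rowNX 3 0 true true true .pnn 0 1 1 (qsf 0 536870912 536870912 536870912 1) ndN0q0 ndN1q1 pcN1 Cut.none Ext.none)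

def k0_pp_011 : ∃ t, chk3 f_pp_011 t 1 1 1 = true :=
  ⟨(l 4), by decide +kernel⟩

theorem c_pp_011 : CertNX 0 536870912 536870912 536870912 1046898278 26843546 3 true true true .pnn 0 1 1
    ndN0q0 ndN1q1 pcN1 Cut.none Ext.none :=
  certNX0 (fam := true) (s1 := true) (s2 := true) (a := 0) (b := 1) (c := 1) (cn := .pnn) (n1 := ndN0q0) (n2 := ndN1q1) (pc := pcN1) (cut := Cut.none) (xt := Ext.none) (P1 := 0) (W1 := 536870912) (P2 := 536870912) (W2 := 536870912) (P3 := 1046898278) (W3 := 26843546) (N0 := 3)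
    rfl k0_pp_011

noncomputable def f_pp_012 : ℕ → ℕ → ℕ → ℕ → Bool := onCell 0 536870912 536870912 536870912 1046898278 26843546
    (rowNX 3 0 true true true .pnp 0 1 2 (qsf 0 536870912 536870912 536870912 2) ndN0q0 ndN1q1 pcN2 Cut.none Ext.none)

def k0_pp_012 : ∃ t, chk3 f_pp_012 t 1 1 1 = true :=
  ⟨(l 4), by decide +kernel⟩

theorem c_pp_012 : CertNX 0 536870912 536870912 536870912 1046898278 26843546 3 true true true .pnp 0 1 2
    ndN0q0 ndN1q1 pcN2 Cut.none Ext.none :=
  certNX0 (fam := true) (s1 := true) (s2 := true) (a := 0) (b := 1) (c := 2) (cn := .pnp) (n1 := ndN0q0) (n2 := ndN1q1) (pc := pcN2) (cut := Cut.none) (xt := Ext.none) (P1 := 0) (W1 := 536870912) (P2 := 536870912) (W2 := 536870912) (P3 := 1046898278) (W3 := 26843546) (N0 := 3)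
    rfl k0_pp_012

noncomputable def f_pp_022_a : ℕ → ℕ → ℕ → ℕ → Bool := onCell 0 536870912 0 420477299 1046898278 26843546
    (rowNX 3 0 true true true .pp 0 2 2 (qsf 0 536870912 0 420477299 2) ndN0q0 ndN1q2a pcN2 Cut.none Ext.none)

def k0_pp_022_a : ∃ t, chk3 f_pp_022_a t 16 2 1 = true :=
  ⟨(b (c (a (b (l 15702960) (l 15807800)) (a (b (l 15502680) (l 15614872)) (c (l 15455064) (b (l 15390272) (l 15513080))))) (a (c (b (l 15582880) (l 15648808)) (a (c (l 15790040) (a (b (l 15782128) (l 15846272)) (l 15592232))) (a (c (a (l 15678504) (l 15532976)) (l 15694616)) (l 15485632)))) (c (b (a (c (l 15498216) (l 15491440)) (l 15209528)) (a (c (l 15613128) (l 15544544)) (l 15355704))) (l 15426200)))) (c (a (b (l 15958544) (a (b (a (l 16246160) (l 16181456)) (a (l 16328720) (l 16259304))) (l 16083144))) (a (b (l 15787280) (l 15939440)) (b (c (l 15681136) (l 15582296)) (c (l 15907008) (b (l 15827840) (l 15896880)))))) (a (a (b (c (l 16038528) (c (l 16035936) (a (l 15877216) (l 15967864)))) (c (b (l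 16205008) (a (l 16324184) (l 16296176))) (c (b (a (l 16215240) (l 16174048)) (a (l 16322000) (l 16193904))) (a (a (b (l 16173800) (l 16322152)) (b (l 16198976) (b (l 16282744) (l 16334680)))) (b (l 16122288) (a (c (l 16227080) (l 16311504)) (l 16293608))))))) (c (b (l 15903520) (a (l 16177352) (l 16033712))) (b (c (a (l 15824632) (l 15872584)) (l 15892496)) (c (a (c (l 16162616) (l 16131096)) (l 16035520)) (l 16141056))))) (c (a (c (b (l 15789656) (l 15947352)) (b (a (l 15822136) (l 15758272)) (c (l 15806432) (l 15921968)))) (b (c (l 15436944) (l 15659416)) (c (a (l 15810576) (l 15768536)) (l 15894992)))) (b (l 15706120) (l 15885552)))))), by decide +kernel⟩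

def k1_pp_022_a : ∃ t, chk3 f_pp_022_a t 17 2 1 = true :=
  ⟨(b (c (a (a (c (l 15290832) (c (b (l 15318576) (l 15451040)) (b (l 15290656) (l 15424416)))) (c (c (l 15309336) (b (l 15238136) (l 15379208))) (c (b (l 15158928) (l 15322368)) (l 15229240)))) (c (a (c (b (l 15163608) (l 15312872)) (b (a (l 15151520) (l 15063848)) (l 15142736))) (c (b (a (l 15072696) (l 14984752)) (a (l 15228984) (l 15145648))) (l 15066280))) (l 14922480))) (a (b (l 15175128) (l 15317368)) (l 14943040))) (c (a (a (c (b (l 15613456) (l 15833408)) (b (c (l 15631840) (l 15460160)) (c (l 15687160) (a (l 15674600) (l 15790672))))) (c (b (c (l 15559776) (l 15566168)) (c (l 15782648) (l 15644368))) (a (c (b (l 15563160) (l 15641992)) (l 15461480)) (b (l 15476752) (l 15706504))))) (c (b (a (c (l 15505608) (a (l 15492592) (l 15413472))) (c (a (l 15427272) (l 15347568)) (l 15344128))) (a (c (a (l 15765024) (l 15718920)) (a (l 15470376) (l 15645816))) (c (a (c (l 15673040) (l 15621312)) (l 15583280)) (l 15580712)))) (b (l 15365952)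 (l 15603064)))) (b (a (l 15508464) (l 15331648)) (a (b (l 15676072) (l 15802768)) (l 15575592))))), by decide +kernel⟩

def k2_pp_022_a : ∃ t, chk3 f_pp_022_a t 9 2 1 = true :=
  ⟨(a (b (a (a (c (b (l 14804736) (a (l 15073552) (l 15048192))) (b (l 14845408) (l 15005016))) (b (l 14938912) (c (l 15088824) (l 15031016)))) (c (l 15237400) (l 15184424))) (a (b (a (c (l 15263928) (l 15213592)) (c (b (l 15196344) (a (l 15275920) (l 15301904))) (b (l 15142720) (l 15241064)))) (c (a (l 15507168) (b (l 15406672) (l 15537720))) (b (l 15378952) (l 15513888)))) (b (c (l 15414416) (l 15368304)) (a (a (b (c (l 15445680) (l 15401200)) (l 15547552)) (b (l 15473896) (c (l 15596512) (l 15557504)))) (b (l 15564064) (c (l 15668056) (l 15631368))))))) (b (c (a (l 15506192) (l 15740536)) (a (l 15462448) (l 15704800))) (c (a (b (l 15657480) (l 15793688)) (b (l 15866656) (l 15923752))) (a (b (l 15619592) (l 15761016)) (b (l 15835800) (l 15960424)))))), by decide +kernel⟩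

def k3_pp_022_a : ∃ t, chk3 f_pp_022_a t 16 6 2 = true :=
  ⟨(b (b (a (a (l 16389376) (a (b (l 16345408) (l 16395064)) (l 16239680))) (c (l 16090520) (a (l 16239056) (l 15963360)))) (a (a (l 16389552) (b (l 16384704) (l 16407040))) (a (a (b (l 16381928) (l 16353496)) (l 16234640)) (c (l 16258248) (c (l 16297608) (a (l 16342048) (l 16287752))))))) (a (b (a (l 16324848) (l 16361984)) (a (l 16238600) (l 16281408))) (a (b (a (l 16390296) (b (c (l 16351944) (l 16337872)) (l 16388944))) (c (l 16331504) (l 16316432))) (b (a (b (l 16332040) (c (b (l 16435504) (l 16411512)) (b (l 16389192) (l 16385488)))) (c (l 16386592) (c (l 16434056) (l 16297848)))) (a (l 16218224) (b (c (a (l 16399480) (l 16311544)) (c (b (l 16397360) (l 16370984)) (a (l 16308824) (b (l 16384032) (l 16311384))))) (c (l 16363976) (c (l 16339408) (l 16318000))))))))), by decide +kernel⟩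

def k4_pp_022_a : ∃ t, chk3 f_pp_022_a t 32 6 3 = true :=
  ⟨(b (c (a (b (l 16386496) (l 16385920)) (b (a (b (l 16347504) (l 16398432)) (a (l 16331120) (l 16319904))) (a (l 16403952) (a (l 16407752) (b (l 16429072) (l 16405248)))))) (c (a (b (l 16388504) (l 16381432)) (b (a (c (b (l 16355656) (l 16407128)) (b (l 16293448) (l 16408056))) (a (l 16209424) (l 16328424))) (a (c (l 16395184) (l 16393568)) (b (l 16274168) (l 16393128))))) (a (a (c (l 16401424) (l 16255128)) (b (l 16379520) (l 16370448))) (b (a (l 16350536) (l 16329432)) (l 16364160))))) (c (a (b (l 16318904) (l 16229728)) (a (l 16239384) (c (l 16281912) (l 16187168)))) (a (c (b (l 16313192) (l 16201504)) (c (a (l 16176296) (b (l 16298960) (l 16165632))) (a (b (a (l 16300008) (l 16309416)) (a (l 16164240) (l 16214832))) (l 16274008)))) (c (a (c (b (l 16332856) (l 16246144)) (b (l 16330856) (l 16222664))) (b (l 16346768) (l 16221568))) (l 16260136))))), by decide +kernel⟩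

def k5_pp_022_a : ∃ t, chk3 f_pp_022_a t 33 6 3 = true :=
  ⟨(b (a (c (c (b (a (l 16279888) (l 16199288)) (b (l 16205536) (a (l 16418216) (l 16346960)))) (b (a (l 16205192) (l 16160608)) (a (a (b (l 16387392) (l 16397552)) (c (l 16270672) (l 16276448))) (a (l 16283024) (l 16364112))))) (b (l 16235112) (a (b (l 16392208) (l 16420776)) (l 16373816)))) (c (c (a (b (l 16113960) (l 16218680)) (b (l 16089384) (b (l 16191768) (l 16276968)))) (l 16115912)) (l 16111192))) (a (c (a (c (l 16290864) (c (l 16234744) (b (l 16361288) (l 16261360)))) (b (c (b (a (l 16390496) (l 16337328)) (l 16348976)) (b (a (l 16328024) (l 16398872)) (l 16363672))) (c (l 16248816) (l 16220824)))) (b (b (a (l 16386808) (l 16413368)) (l 16363352)) (l 16302208))) (b (c (a (b (c (a (l 16363136) (l 16462456)) (l 16449584)) (c (a (c (l 16361832) (l 16333184)) (c (l 16301136) (l 16347432))) (l 16363616))) (c (c (l 16272320) (l 16437088)) (l 16436336))) (b (l 16416928) (a (l 16340696) (l 16456720)))) (a (c (c (c (l 16314440) (l 16284496))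 (l 16341328)) (l 16338280)) (b (c (a (c (c (b (l 16361704) (l 16351032)) (l 16382760)) (l 16381552)) (b (l 16415496) (l 16384472))) (b (l 16403200) (l 16375560))) (c (c (l 16245864) (l 16345536)) (l 16342432))))))), by decide +kernel⟩

def k6_pp_022_a : ∃ t, chk3 f_pp_022_a t 34 6 1 = true :=
  ⟨(c (b (c (a (l 15902824) (c (l 15962400) (b (l 15937856) (a (l 16158736) (l 16087880))))) (a (c (b (l 16033848) (l 16112488)) (a (b (l 16027976) (l 16088880)) (l 15861888))) (c (a (c (l 15925752) (l 15882608)) (b (l 15904976) (l 16048840))) (l 15987472)))) (c (a (b (l 16283312) (b (l 16366832) (a (b (a (l 16389320) (l 16406264)) (l 16349888)) (c (l 16371400) (l 16385792))))) (a (b (l 16202104) (l 16329480)) (c (l 16219856) (b (l 16174784) (l 16302440))))) (c (a (b (l 16228352) (b (a (l 16413480) (l 16428272)) (a (b (l 16255560) (l 16332600)) (c (l 16319488) (l 16245144))))) (a (c (a (l 16260088) (l 16231264)) (b (l 16239760) (l 16370200))) (b (l 16158312) (l 16277240)))) (a (a (b (l 16217056) (b (c (l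 16326440) (l 16350840)) (a (c (l 16282824) (l 16289920)) (b (c (l 16369496) (l 16400296)) (c (l 16338208) (l 16369032)))))) (a (b (l 16285416) (c (l 16250432) (l 16392720))) (l 16219696))) (b (l 16234984) (l 16387424)))))) (b (b (l 15839696) (l 15894736)) (b (l 16055264) (a (b (l 16372832) (a (b (a (l 16376848) (l 16401160)) (l 16340480)) (l 16387184))) (l 16342200))))), by decide +kernel⟩

def k7_pp_022_a : ∃ t, chk3 f_pp_022_a t 35 6 1 = true :=
  ⟨(c (b (c (a (c (a (l 15876352) (b (l 15908912) (l 16045448))) (a (c (l 15954592) (l 15843280)) (l 15719384))) (c (a (c (l 15934312) (l 15820920)) (b (l 15776560) (l 15914776))) (l 15846104))) (b (l 15798440) (l 15938920))) (c (a (c (b (a (l 16227288) (l 16026072)) (a (l 16330576) (b (l 16240816) (l 16296240)))) (b (a (c (l 16223216) (l 16154904)) (l 16041352)) (a (c (l 16306840) (c (l 16266000) (l 16291336))) (l 16159976)))) (c (b (a (c (l 16144648) (l 16095168)) (l 16037736)) (a (c (l 16248960) (l 16137352)) (c (l 16032272) (l 16203472)))) (b (l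 16059360) (l 16224208)))) (b (l 15988864) (a (l 16277144) (l 16219112))))) (b (b (l 15776504) (l 15920920)) (b (l 15933216) (a (l 16269824) (l 16166680))))), by decide +kernel⟩

def k8_pp_022_a : ∃ t, chk3 f_pp_022_a t 16 14 2 = true :=
  ⟨(a (b (b (a (l 16173128) (l 16204696)) (a (l 16180128) (c (l 16191376) (l 16183432)))) (a (c (c (b (l 16206656) (c (a (b (l 16235664) (l 16233384)) (b (l 16255744) (l 16285464))) (l 16271536))) (l 16245624)) (l 16240888)) (b (c (l 16211168) (l 16203408)) (l 16247528)))) (a (b (b (c (l 16261024) (l 16244160)) (c (l 16241784) (l 16224248))) (c (b (l 16241704) (a (l 16244960) (l 16258408))) (b (l 16223832) (a (l 16232880) (l 16238640))))) (b (c (b (l 16307552) (l 16291688)) (c (l 16216048) (a (l 16249272) (b (l 16271816) (l 16255672))))) (c (b (l 16294688) (l 16296696)) (c (l 16273952) (a (l 16241968) (c (l 16256432) (l 16214760)))))))), by decide +kernel⟩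

def k9_pp_022_a : ∃ t, chk3 f_pp_022_a t 32 30 2 = true :=
  ⟨(c (a (c (b (c (a (b (l 16344656) (l 16357480)) (b (c (l 16329784) (l 16310856)) (l 16286512))) (a (b (l 16279800) (c (l 16350544) (l 16286144))) (b (l 16302384) (l 16333440)))) (a (b (c (a (b (l 16408728) (l 16467728)) (b (l 16453312) (l 16415720))) (a (l 16402536) (c (l 16414520) (l 16340584)))) (c (b (a (l 16501008) (l 16435816)) (l 16487744)) (a (l 16434752) (l 16435624)))) (c (b (l 16365976) (a (b (l 16443224) (c (l 16500360) (l 16480752))) (l 16433064))) (b (c (l 16358312) (l 16361296)) (a (b (l 16395568) (l 16446016)) (l 16346992)))))) (b (l 16297280) (a (b (c (a (b (l 16362384) (l 16380200)) (l 16342088)) (l 16359784)) (c (c (l 16333272) (a (l 16397880) (l 16387984))) (l 16384016))) (a (b (l 16355640) (a (b (l 16378728) (l 16373360)) (l 16363304))) (l 16366016))))) (c (b (c (a (b (l 16297736) (c (l 16317208) (l 16323912))) (l 16300920)) (l 16302840)) (c (a (b (c (l 16389064) (l 16322208)) (l 16372056)) (b (c (l 16330376) (l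 16341648)) (c (l 16357936) (l 16337320)))) (a (b (l 16349376) (c (l 16328816) (l 16378112))) (l 16354880)))) (l 16328512))) (a (b (l 16313864) (a (b (l 16356912) (l 16380664)) (l 16363784))) (l 16302776))), by decide +kernel⟩

def k10_pp_022_a : ∃ t, chk3 f_pp_022_a t 64 31 4 = true :=
  ⟨(c (b (a (c (l 16502120) (b (a (b (l 16469552) (l 16507072)) (l 16445024)) (a (l 16521648) (l 16482400)))) (b (b (c (a (l 16504984) (c (a (l 16515744) (l 16532264)) (l 16486840))) (l 16380232)) (c (c (l 16520992) (l 16493768)) (l 16452256))) (c (c (l 16550576) (l 16555072)) (c (l 16482728) (l 16480240))))) (a (l 16510208) (c (l 16569232) (b (c (l 16577808) (a (l 16577568) (l 16528776))) (l 16575272))))) (b (a (c (b (c (l 16473024) (l 16397752)) (l 16405424)) (b (c (l 16396720) (l 16407072)) (c (l 16422536) (l 16400280)))) (b (c (a (l 16345728) (b (l 16364104) (l 16362800))) (l 16407104)) (c (c (l 16465408) (l 16394016)) (l 16416352)))) (c (b (a (c (l 16525088) (l 16469368)) (c (l 16485904) (l 16472104))) (a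 (c (l 16589248) (l 16550128)) (c (a (l 16597208) (l 16556528)) (l 16493656)))) (a (b (c (l 16483264) (l 16428768)) (c (c (l 16525216) (l 16515480)) (l 16491760))) (b (c (l 16400160) (l 16444656)) (a (l 16455208) (c (l 16510304) (l 16460976)))))))), by decide +kernel⟩

def k11_pp_022_a : ∃ t, chk3 f_pp_022_a t 65 31 4 = true :=
  ⟨(b (c (a (b (b (c (l 16461736) (c (l 16429168) (l 16406704))) (c (a (l 16442368) (l 16503232)) (a (l 16415136) (l 16413920)))) (c (a (c (l 16523480) (b (l 16523744) (l 16568496))) (b (l 16471952) (b (l 16494056) (l 16505968)))) (a (l 16442952) (b (l 16422056) (l 16453952))))) (c (b (c (l 16461320) (l 16366496)) (l 16428128)) (b (c (l 16345824) (l 16399376)) (c (l 16376856) (l 16376904))))) (a (b (a (l 16344272) (l 16402504)) (c (a (b (c (l 16418832) (l 16427848)) (l 16415952)) (b (l 16427536) (c (l 16407840) (l 16440984)))) (l 16432768))) (l 16413560))) (c (a (c (b (c (l 16585856) (a (l 16588552) (l 16545968))) (l 16602608)) (b (a (l 16479496) (l 16483016)) (c (a (l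 16595024) (l 16575848)) (c (l 16541208) (l 16531840))))) (a (b (a (c (b (l 16494648) (l 16599664)) (l 16464504)) (c (b (l 16528520) (l 16533704)) (l 16430664))) (c (l 16576832) (l 16503240))) (b (b (c (l 16530920) (l 16438896)) (c (c (l 16558960) (l 16549168)) (l 16449640))) (c (b (c (l 16570936) (l 16562632)) (l 16572440)) (l 16482168))))) (a (c (a (b (l 16415736) (l 16500584)) (b (c (l 16470424) (l 16448280)) (l 16456712))) (b (l 16463104) (c (a (l 16469456) (l 16477432)) (l 16492760)))) (b (c (a (c (b (l 16439848) (l 16464640)) (l 16441792)) (l 16400048)) (l 16460488)) (c (b (a (l 16442408) (a (l 16473304) (l 16447720))) (c (l 16496504) (l 16470432))) (l 16471096)))))), by decide +kernel⟩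

def k12_pp_022_a : ∃ t, chk3 f_pp_022_a t 32 31 5 = true :=
  ⟨(a (b (b (l 16404224) (l 16429944)) (c (c (a (b (c (l 16406072) (l 16457936)) (c (l 16437576) (a (l 16458856) (l 16490416)))) (b (l 16458648) (c (l 16452656) (l 16487336)))) (l 16472208)) (l 16470472))) (b (a (b (l 16401008) (l 16430472)) (l 16409216)) (a (l 16473632) (b (a (l 16459184) (l 16456528)) (l 16488544))))), by decide +kernel⟩

def k13_pp_022_a : ∃ t, chk3 f_pp_022_a t 33 15 2 = true :=
  ⟨(b (a (c (b (l 16287936) (c (a (b (l 16334336) (c (l 16346776) (l 16362944))) (l 16343000)) (l 16341192))) (a (l 16308344) (b (l 16265232) (l 16320576)))) (c (b (a (l 16291352) (l 16313032)) (a (l 16329152) (l 16306832))) (a (b (l 16259736) (l 16297680)) (c (b (l 16285568) (l 16300064)) (b (c (l 16258168) (l 16258408)) (c (l 16272336) (a (l 16260144) (l 16274304)))))))) (c (c (a (b (c (a (b (c (b (l 16379160) (l 16405680)) (l 16398856)) (c (l 16432864) (a (l 16432424) (l 16414408)))) (b (l 16390672) (c (a (l 16397760) (l 16425752)) (l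 16422776)))) (a (b (l 16393408) (l 16386840)) (l 16403824))) (a (c (b (a (l 16499880) (l 16450816)) (a (b (l 16532064) (a (c (l 16584672) (l 16603104)) (l 16531640))) (l 16503240))) (b (c (b (l 16421736) (l 16450472)) (l 16421032)) (a (b (l 16459400) (l 16494072)) (c (l 16488160) (l 16440544))))) (c (b (c (l 16408880) (b (l 16432376) (l 16416632))) (a (l 16496768) (l 16429016))) (b (l 16454544) (c (a (l 16445528) (l 16451624)) (l 16468696)))))) (b (l 16389592) (c (a (b (c (a (l 16388232) (l 16448024)) (l 16447032)) (c (a (l 16480664) (b (l 16481600) (l 16490680))) (a (b (l 16480320) (l 16486376)) (l 16481008)))) (b (l 16436088) (c (a (l 16438648) (l 16469664)) (l 16470000)))) (l 16455256)))) (a (b (l 16402768) (a (b (l 16456680) (a (c (b (l 16485280) (c (a (l 16490496) (l 16505256)) (l 16500472))) (l 16491456)) (l 16490320))) (l 16466184))) (b (l 16379944) (l 16447824)))) (a (b (l 16304184) (a (b (l 16448336) (a (l 16485816) (l 16480656))) (l 16450672))) (c (b (l 16361352) (l 16408544)) (a (l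 16320496) (c (l 16316280) (b (a (l 16318320) (l 16322440)) (a (l 16386728) (l 16391248))))))))), by decide +kernel⟩

def k14_pp_022_a : ∃ t, chk3 f_pp_022_a t 16 14 3 = true :=
  ⟨(a (c (b (b (a (l 16162048) (c (l 16192384) (l 16180592))) (a (l 16168992) (a (l 16160016) (l 16129840)))) (a (l 16234288) (a (l 16213880) (c (l 16211000) (b (l 16177192) (l 16215792)))))) (a (c (b (b (l 16153632) (l 16160520)) (l 16121608)) (b (a (c (l 16157600) (a (c (l 16159432) (l 16159032)) (b (l 16145896) (l 16162160)))) (c (b (a (l 16144368) (l 16144720)) (a (l 16153784) (l 16142008))) (l 16149200))) (a (c (l 16231208) (a (c (l 16233704) (l 16233448)) (l 16228792))) (c (a (c (l 16217960) (l 16216544)) (l 16208776)) (l 16214176))))) (b (c (b (a (c (l 16164208) (l 16161240)) (l 16184088)) (a (c (l 16147232) (l 16102192)) (l 16160352))) (l 16167664)) (c (a (c (l 16201408) (a (l 16199400) (l 16193384))) (c (b (a (l 16162536) (l 16167632)) (l 16207528)) (l 16196920))) (l 16199208))))) (c (c (a (a (b (l 16206672) (l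 16205424)) (b (c (l 16221128) (l 16149896)) (a (l 16206112) (l 16210248)))) (b (a (c (b (l 16244600) (l 16226560)) (b (l 16256432) (l 16238432))) (c (b (l 16262456) (l 16267280)) (l 16293176))) (a (c (l 16228400) (a (l 16228864) (l 16260976))) (c (a (l 16239384) (l 16294504)) (l 16289528))))) (a (b (c (a (l 16170024) (b (l 16230680) (l 16210808))) (b (l 16159320) (l 16159464))) (a (c (b (l 16177848) (l 16194856)) (b (l 16182784) (a (l 16194400) (l 16206232)))) (c (a (c (l 16195408) (l 16211856)) (l 16228160)) (l 16224904)))) (b (l 16276784) (l 16271216)))) (b (b (l 16253000) (l 16233728)) (a (b (l 16204664) (l 16216744)) (l 16266640))))), by decide +kernel⟩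

def k15_pp_022_a : ∃ t, chk3 f_pp_022_a t 32 15 3 = true :=
  ⟨(c (b (a (b (l 16308328) (a (l 16363792) (l 16358864))) (a (l 16317776) (c (l 16309512) (b (l 16268456) (l 16283816))))) (a (b (a (l 16412624) (l 16413168)) (l 16467952)) (a (b (b (l 16391312) (a (l 16425696) (l 16420016))) (l 16464896)) (b (c (l 16399864) (c (l 16388504) (l 16361816))) (c (b (l 16448360) (l 16479960)) (a (l 16410120) (c (l 16364408) (b (l 16420096) (l 16452664))))))))) (a (b (c (a (b (l 16309400) (l 16360264)) (a (l 16285096) (l 16297288))) (a (c (b (l 16305872) (a (l 16359648) (l 16356016))) (b (a (c (l 16308288) (l 16308176)) (l 16304088)) (a (c (l 16358016) (a (l 16358552) (l 16358560))) (b (l 16303464) (l 16349992))))) (c (a (c (l 16258272) (b (l 16292048) (l 16305992))) (l 16313184)) (l 16318336)))) (c (a (l 16437696) (b (a (l 16407792) (b (l 16369032) (l 16416664))) (l 16419720))) (a (c (l 16413832) (a (c (l 16434648) (a (l 16392992) (l 16435456))) (c (a (l 16392064) (l 16430848)) (l 16432608)))) (a (c (c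 (l 16430488) (b (l 16401112) (l 16456920))) (l 16431456)) (b (a (l 16337408) (l 16354912)) (l 16434976)))))) (b (c (a (c (l 16306048) (a (l 16199152) (l 16298672))) (c (a (l 16225912) (l 16243696)) (l 16296888))) (l 16300480)) (c (a (c (b (a (l 16398264) (a (l 16390064) (l 16382728))) (l 16433264)) (c (b (a (l 16348328) (b (l 16372736) (l 16404352))) (a (l 16448080) (l 16449056))) (b (a (b (l 16379192) (l 16408400)) (l 16395944)) (l 16431656)))) (b (c (c (l 16356376) (l 16381864)) (l 16388632)) (c (a (b (c (l 16424152) (l 16389256)) (l 16437672)) (c (b (l 16427128) (l 16438872)) (l 16432440))) (b (l 16437872) (l 16469952))))) (b (a (l 16375192) (l 16386968)) (a (l 16456272) (b (l 16436480) (l 16468736)))))))), by decide +kernel⟩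

def k16_pp_022_a : ∃ t, chk3 f_pp_022_a t 33 15 3 = true :=
  ⟨(c (a (c (b (a (l 16287032) (c (l 16266224) (b (l 16229312) (l 16284968)))) (a (b (l 16378104) (b (l 16428064) (l 16420784))) (c (l 16390960) (b (l 16347768) (l 16352992))))) (b (a (c (l 16229016) (a (l 16191480) (l 16281536))) (c (a (c (l 16258304) (l 16275312)) (b (l 16246912) (l 16302592))) (l 16280440))) (a (c (b (l 16362256) (a (l 16410320) (l 16423440))) (a (b (l 16345864) (b (l 16417024) (c (l 16446504) (l 16439816)))) (l 16303864))) (c (a (c (l 16363992) (l 16360760)) (b (l 16366072) (l 16434920))) (l 16407104))))) (b (c (a (c (b (a (l 16222280) (l 16236040)) (l 16251120)) (b (a (c (l 16230808) (l 16249856)) (l 16262656)) (a (l 16282688) (l 16295744)))) (c (b (a (l 16261616) (l 16297416)) (a (c (l 16274984) (l 16295256)) (l 16304696))) (l 16301344))) (b (l 16276760) (l 16304584))) (c (a (c (b (l 16313992) (a (l 16399776) (l 16400112))) (a (c (l 16354736) (l 16332800)) (b (l 16359320) (l 16428520)))) (c (a (c (l 16368696)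 (l 16305712)) (b (l 16353440) (l 16422968))) (l 16394200))) (l 16374936)))) (b (a (l 16239072) (b (l 16272040) (l 16300088))) (b (l 16364136) (a (a (l 16383696) (l 16438432)) (l 16426952))))), by decide +kernel⟩

def k17_pp_022_a : ∃ t, chk3 f_pp_022_a t 34 14 2 = true :=
  ⟨(c (b (a (b (a (l 16337272) (b (a (l 16360144) (l 16330456)) (l 16339456))) (l 16328904)) (a (b (a (b (l 16390328) (l 16290000)) (l 16348248)) (a (l 16346176) (b (a (l 16306608) (c (l 16371512) (l 16339264))) (l 16353168)))) (b (c (l 16432016) (l 16299880)) (b (c (l 16392152) (l 16322424)) (c (a (l 16354728) (l 16388504)) (a (c (l 16348768) (a (l 16343728) (l 16362552))) (l 16325080))))))) (a (b (l 16334976) (l 16340048)) (a (c (l 16377792) (c (l 16350448) (l 16335864))) (b (c (b (a (l 16377192) (l 16361928)) (l 16383664)) (a (l 16358248) (b (b (a (l 16328504) (l 16346448)) (l 16318800)) (l 16385120)))) (c (l 16390120) (c (l 16369056) (l 16387576))))))) (b (a (a (c (l 16291552) (c (b (l 16293952) (l 16279504)) (b (l 16318320)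 (l 16304080)))) (b (c (b (a (l 16298688) (c (l 16332288) (l 16330672))) (c (l 16300576) (l 16267896))) (b (a (l 16292272) (l 16343304)) (c (l 16295840) (l 16349672)))) (c (l 16286824) (l 16340040)))) (a (b (c (a (b (l 16317968) (c (b (l 16333768) (l 16297256)) (l 16258832))) (c (l 16392280) (l 16425344))) (l 16309344)) (c (a (c (l 16319512) (l 16356848)) (c (b (l 16334048) (l 16354728)) (b (a (l 16380600) (l 16396624)) (l 16388096)))) (b (l 16318704) (l 16382816)))) (b (c (l 16362760) (l 16475096)) (b (l 16345992) (a (c (c (a (l 16386096) (l 16364576)) (l 16412184)) (l 16410896)) (l 16415640)))))) (a (c (a (l 16290872) (c (l 16307976) (l 16254560))) (a (c (l 16223496) (l 16269504)) (c (l 16283288) (l 16358400)))) (a (c (c (l 16286944) (a (l 16368528) (l 16399048))) (l 16393296)) (a (c (c (l 16404376) (l 16420952)) (l 16419632)) (b (b (a (l 16383152) (l 16395080)) (l 16434224)) (l 16441408))))))), by decide +kernel⟩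

def k18_pp_022_a : ∃ t, chk3 f_pp_022_a t 34 14 3 = true :=
  ⟨(b (a (b (a (l 16325912) (b (a (l 16360568) (l 16383360)) (l 16344752))) (l 16326928)) (b (a (c (l 16307008) (l 16324816)) (l 16472616)) (a (b (a (l 16365264) (l 16365480)) (l 16377824)) (b (l 16430648) (a (l 16385576) (l 16433576)))))) (a (c (l 16338440) (l 16333504)) (b (a (l 16384200) (b (a (l 16408096) (l 16406752)) (l 16421752))) (l 16410048)))), by decide +kernel⟩

def k19_pp_022_a : ∃ t, chk3 f_pp_022_a t 35 14 2 = true :=
  ⟨(b (c (a (c (b (a (l 16388624) (l 16333800)) (a (l 16405328) (c (l 16432760) (l 16480432)))) (a (c (l 16298080) (c (l 16329120) (l 16362496))) (b (l 16331192) (l 16425136)))) (c (a (c (l 16327112) (b (a (l 16386928) (l 16386928)) (l 16419984))) (c (b (l 16275992) (l 16368960)) (l 16316560))) (b (l 16367056) (l 16439872)))) (b (l 16291320) (l 16386144))) (a (c (a (b (c (b (a (l 16395040) (l 16418616)) (a (a (l 16389048) (l 16372128)) (a (b (l 16402176) (l 16378600)) (l 16371456)))) (a (b (c (l 16357024)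 (l 16379232)) (a (l 16363400) (c (l 16403944) (l 16386336)))) (c (l 16341688) (b (l 16484448) (b (l 16476720) (l 16410632)))))) (c (a (l 16397888) (c (l 16411704) (b (a (l 16396000) (l 16387504)) (l 16408856)))) (c (a (l 16401824) (l 16422520)) (a (l 16445704) (b (l 16432752) (l 16479816)))))) (b (c (c (l 16410104) (l 16437016)) (l 16414864)) (c (a (b (c (a (l 16415144) (l 16403168)) (b (l 16419072) (l 16375424))) (c (l 16422048) (l 16440792))) (b (l 16430000) (a (c (b (l 16392296) (l 16435600)) (l 16453120)) (b (l 16454856) (l 16390624))))) (b (a (c (a (b (l 16474488) (l 16474112)) (l 16433360)) (b (l 16501784) (l 16500256))) (l 16526512)) (a (c (l 16486296) (l 16503024)) (a (b (a (l 16490136) (l 16518408)) (l 16516136)) (b (l 16529760) (l 16528592)))))))) (b (a (b (l 16472632) (a (l 16454408) (l 16457288))) (l 16527128)) (a (l 16449768) (b (a (b (l 16500472) (l 16498880)) (l 16527856)) (a (l 16501624) (b (l 16501904) (l 16522888))))))) (c (c (a (c (b (l 16515864) (l 16414032)) (b (l 16452304)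 (a (a (l 16464240) (l 16550496)) (l 16563704)))) (c (b (l 16401160) (l 16431144)) (l 16452928))) (a (l 16420160) (l 16452088))) (b (l 16491920) (l 16459936))))), by decide +kernel⟩

def k20_pp_022_a : ∃ t, chk3 f_pp_022_a t 35 14 3 = true :=
  ⟨(b (b (l 16265568) (l 16341312)) (a (b (a (b (l 16447968) (a (l 16429056) (l 16432616))) (l 16524904)) (a (b (l 16463944) (l 16468920)) (b (a (b (l 16497248) (l 16474552)) (l 16525368)) (a (l 16498200) (b (l 16499112) (l 16520008)))))) (b (l 16446632) (a (l 16503880) (l 16493664))))), by decide +kernel⟩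

def k21_pp_022_a : ∃ t, chk3 f_pp_022_a t 34 15 4 = true :=
  ⟨(b (b (a (l 16302168) (c (l 16392544) (a (l 16353048) (c (l 16376408) (l 16395184))))) (c (a (l 16341048) (l 16398576)) (a (l 16337464) (a (l 16336960) (c (l 16361760) (l 16380792)))))) (a (b (a (c (l 16377232) (l 16316744)) (b (l 16361536) (c (l 16385864) (l 16354360)))) (a (l 16367080) (c (l 16383352) (l 16393752)))) (c (b (l 16403640) (a (b (l 16402840) (l 16420832)) (l 16415456))) (c (b (a (l 16368696) (a (l 16378056) (l 16393824))) (a (l 16364344) (a (l 16382752) (c (l 16394784) (l 16398256))))) (a (b (l 16353336) (a (l 16365440) (b (l 16360312) (c (l 16370096) (l 16368792))))) (b (l 16323464) (a (c (a (l 16369880) (l 16384208)) (l 16397392)) (l 16432416)))))))), by decide +kernel⟩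

def k22_pp_022_a : ∃ t, chk3 f_pp_022_a t 34 15 5 = true :=
  ⟨(a (b (c (b (a (l 16295232) (c (l 16314544) (l 16324216))) (a (l 16297544) (c (l 16317728) (l 16285576)))) (a (c (b (l 16290648) (a (l 16275000) (l 16303912))) (b (l 16316160) (a (l 16304888) (l 16336752)))) (c (b (l 16353504) (l 16315248)) (l 16368128)))) (c (a (b (a (l 16327728) (l 16295920)) (l 16387448)) (b (c (a (l 16320560) (l 16323992)) (a (b (l 16309336) (l 16298080)) (l 16344776))) (c (b (l 16348360) (l 16382824)) (a (l 16324312) (l 16358952))))) (a (c (b (a (l 16286712) (l 16279720)) (a (l 16375568) (l 16384184))) (b (a (l 16317136) (c (l 16353000) (l 16359384))) (a (l 16385736) (l 16418264)))) (b (c (a (c (l 16342024) (l 16362368)) (l 16379648)) (l 16377184)) (c (a (l 16381600) (c (l 16392384) (l 16419880))) (l 16420016)))))) (b (c (a (b (c (l 16359080) (l 16370472)) (c (l 16322080) (l 16333912))) (c (b (l 16388008) (a (l 16422640) (l 16455912))) (l 16446312))) (l 16425632)) (c (a (c (b (a (l 16346592) (l 16385016)) (a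 (b (c (l 16343120) (l 16356856)) (l 16376496)) (l 16373600))) (b (a (l 16386512) (l 16420592)) (a (b (l 16350624) (l 16417240)) (c (b (l 16421584) (l 16432808)) (l 16435080))))) (c (b (a (l 16428248) (l 16462536)) (a (c (l 16424632) (l 16424048)) (l 16447448))) (b (l 16455904) (l 16461848)))) (b (l 16433888) (a (l 16430872) (l 16460384)))))), by decide +kernel⟩

def k23_pp_022_a : ∃ t, chk3 f_pp_022_a t 34 15 3 = true :=
  ⟨(b (c (a (b (l 16344552) (l 16347856)) (l 16422696)) (b (l 16377008) (l 16339776))) (a (b (c (a (l 16356520) (l 16374008)) (l 16342400)) (c (l 16419456) (l 16414992))) (b (l 16428696) (b (l 16412688) (a (l 16431896) (l 16456536)))))), by decide +kernel⟩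

def k24_pp_022_a : ∃ t, chk3 f_pp_022_a t 35 30 2 = true :=
  ⟨(a (c (c (a (c (l 16422224) (b (l 16367344) (a (l 16405024) (l 16423960)))) (c (b (a (l 16429464) (l 16451392)) (a (l 16438416) (l 16440208))) (l 16371232))) (c (a (b (l 16411512) (l 16419712)) (b (l 16445640) (a (l 16483312) (l 16516984)))) (a (b (l 16406080) (a (l 16463216) (l 16496688))) (l 16526632)))) (l 16442280)) (c (a (b (c (a (a (c (l 16455408) (l 16463080)) (b (b (c (l 16496672) (l 16479496)) (l 16457136)) (l 16482552))) (b (c (l 16452064) (a (b (l 16562600) (l 16498056)) (l 16579368))) (c (l 16473656) (a (l 16564464) (l 16536896))))) (b (a (l 16507088) (l 16573736)) (l 16543392))) (c (c (l 16479960) (c (l 16493376) (l 16527280))) (l 16573192))) (b (a (b (c (l 16477152) (l 16568840)) (c (c (b (l 16497448) (a (l 16550360) (c (l 16584544) (l 16594368)))) (b (l 16586848) (l 16596456))) (b (l 16586512) (l 16596168)))) (c (l 16517144) (l 16555208))) (a (c (c (l 16503920) (l 16604960)) (l 16604648)) (b (a (c (b (c (c (l 16558512)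 (l 16589872)) (l 16589688)) (l 16600432)) (l 16592760)) (b (l 16578560) (c (l 16567536) (l 16587080)))) (l 16540608))))) (b (a (b (a (l 16505936) (l 16572952)) (l 16542344)) (b (l 16554880) (a (b (l 16585824) (l 16595568)) (l 16565904)))) (a (l 16572120) (b (a (l 16600768) (b (l 16582464) (l 16590904))) (l 16610056)))))), by decide +kernel⟩

def k25_pp_022_a : ∃ t, chk3 f_pp_022_a t 35 31 2 = true :=
  ⟨(c (a (a (a (c (b (l 16420648) (l 16426480)) (c (b (l 16424720) (l 16409616)) (b (l 16449512) (l 16414104)))) (c (c (l 16440760) (b (l 16389248) (c (l 16431160) (l 16439328)))) (c (l 16432216) (b (l 16504968) (l 16470576))))) (c (c (b (a (l 16446368) (c (l 16461472) (l 16474072))) (a (l 16453568) (c (l 16469376) (l 16482160)))) (b (l 16447632) (l 16434736))) (c (b (c (l 16461048) (l 16495168)) (a (l 16458464) (l 16515120))) (l 16525640)))) (c (a (c (b (l 16490384) (l 16500064)) (b (a (l 16514416) (l 16549264)) (a (c (l 16557272) (l 16556368)) (l 16539096)))) (c (b (c (l 16527016) (l 16561064))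 (a (c (l 16602496) (l 16580520)) (l 16584432))) (l 16593336))) (b (l 16585168) (l 16575440)))) (b (a (l 16518440) (l 16584320)) (a (l 16505408) (l 16574528)))), by decide +kernel⟩

def k26_pp_022_a : ∃ t, chk3 f_pp_022_a t 35 15 3 = true :=
  ⟨(b (a (c (l 16460720) (l 16479136)) (b (a (c (b (a (l 16525368) (l 16571872)) (l 16561936)) (b (a (l 16544768) (l 16570776)) (l 16560520))) (b (l 16552680) (a (b (l 16584392) (a (l 16589352) (l 16589168))) (l 16563800)))) (b (a (l 16567016) (a (l 16599504) (b (a (l 16586944) (l 16574936)) (l 16568296)))) (l 16573848)))) (b (c (l 16454792) (l 16473840)) (c (a (l 16523568) (l 16573336)) (a (l 16520728) (l 16572128))))), by decide +kernel⟩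

def k27_pp_022_a : ∃ t, chk3 f_pp_022_a t 9 6 1 = true :=
  ⟨(a (a (b (c (a (b (l 15705600) (l 15846976)) (b (l 15674992) (l 15817904))) (a (l 15747144) (l 15547648))) (c (a (b (l 15993880) (c (l 16150816) (l 16142496))) (b (l 15966024) (l 16077000))) (b (a (l 15971328) (l 15941752)) (a (l 16129568) (l 16100344))))) (b (b (a (c (l 15717768) (l 15683552)) (c (a (l 15713888) (b (l 15763504) (l 15819568))) (a (l 15722616) (l 15635032)))) (c (a (l 15862128) (l 15911912)) (l 15858568))) (c (b (a (l 16011360) (l 16062160)) (a (l 16165080) (l 16216608))) (b (l 16013976) (c (l 16178064) (l 16169608)))))) (b (a (b (c (l 15919776) (l 15891896)) (a (c (b (a (l 15920632) (l 15967216)) (a (l 15988040) (l 16023192))) (b (l 15792128) (a (l 15963104) (l 15999336)))) (c (l 16067976) (l 16045480)))) (c (a (l 16116136) (l 16174272)) (a (l 16095016) (l 16155000)))) (a (a (b (c (b (l 16077128) (l 16153408)) (b (l 16055448) (l 16134624))) (c (l 16270528) (l 16256192))) (b (c (b (a (b (l 16110792) (l 16141840)) (l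 16172280)) (a (l 16195688) (b (l 16215272) (l 16226208)))) (b (a (l 16106776) (l 16153616)) (a (l 16178144) (l 16173400)))) (c (b (c (l 16207064) (l 16283976)) (l 16365752)) (b (a (l 16258248) (l 16288304)) (l 16354576))))) (b (c (a (l 16268592) (l 16320744)) (l 16196576)) (a (b (c (a (b (l 16320584) (a (l 16343768) (l 16362752))) (l 16377232)) (a (b (l 16307344) (l 16341736)) (l 16365952))) (c (a (b (l 16390088) (l 16429168)) (b (l 16424312) (a (l 16452000) (l 16464976)))) (a (l 16379032) (b (l 16414832) (a (l 16443640) (l 16457024)))))) (c (l 16436448) (l 16427208))))))), by decide +kernel⟩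

def k28_pp_022_a : ∃ t, chk3 f_pp_022_a t 18 14 1 = true :=
  ⟨(a (c (b (a (b (c (l 16274016) (l 16267952)) (c (l 16339200) (l 16334232))) (b (l 16235544) (a (l 16278240) (l 16293680)))) (a (c (l 16313752) (l 16372912)) (b (a (l 16323144) (l 16327080)) (c (l 16375824) (l 16370824))))) (b (a (b (l 16258456) (l 16326416)) (b (l 16221216) (l 16273816))) (a (b (l 16381592) (l 16413936)) (b (c (l 16317664) (l 16311800)) (c (l 16365744) (l 16360568)))))) (b (c (b (c (l 16310736) (l 16304696)) (c (l 16360256) (l 16355024))) (b (c (l 16298552) (l 16292312)) (c (l 16349704) (l 16344296)))) (c (b (c (l 16389480) (l 16384600)) (a (c (l 16393128) (l 16388216)) (l 16439504))) (b (c (l 16379648) (l 16374600)) (a (c (l 16383216) (l 16378136)) (l 16430928)))))), by decide +kernel⟩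

def k29_pp_022_a : ∃ t, chk3 f_pp_022_a t 36 30 1 = true :=
  ⟨(a (c (b (c (l 16471616) (l 16489896)) (a (b (c (a (l 16522800) (l 16539968)) (l 16508536)) (b (a (a (l 16563136) (b (l 16571792) (l 16576312))) (l 16555808)) (a (l 16585976) (a (b (l 16569776) (l 16573728)) (l 16560400))))) (l 16512872))) (b (l 16443616) (a (b (a (l 16518856) (l 16534656)) (a (b (a (l 16581624) (l 16549840)) (l 16583424)) (b (l 16551984) (c (l 16521168) (l 16519344))))) (l 16507352)))) (c (b (c (l 16424928) (l 16420632)) (c (l 16450320) (l 16467624))) (c (b (l 16416256) (l 16463888)) (b (l 16411808) (l 16460088))))), by decide +kernel⟩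

def k30_pp_022_a : ∃ t, chk3 f_pp_022_a t 36 31 1 = true :=
  ⟨(a (c (b (b (c (a (l 16545360) (a (b (l 16511424) (a (l 16567232) (l 16557104))) (l 16534560))) (a (l 16564968) (a (b (l 16530280) (l 16518072)) (l 16532008)))) (a (l 16558432) (a (l 16571656) (b (a (b (l 16551672) (l 16555312)) (b (l 16540312) (l 16524000))) (l 16555528))))) (c (l 16540744) (l 16560280))) (b (a (b (b (l 16538344) (l 16587192)) (l 16597832)) (b (a (b (c (l 16528120) (l 16546896)) (c (l 16536984) (l 16534880))) (l 16507112)) (a (l 16567712) (b (a (l 16527840) (b (l 16535184) (l 16539952))) (l 16550816))))) (c (l 16558696) (l 16557080)))) (a (a (b (c (b (l 16508872) (b (l 16524624) (a (b (l 16538152) (l 16542312)) (l 16528784)))) (b (l 16502664) (b (l 16518808) (a (c (l 16536120) (l 16533400)) (l 16522952))))) (c (b (b (c (l 16522880) (l 16520208)) (l 16549720)) (l 16560680)) (b (c (l 16500128) (l 16518368)) (l 16555544)))) (b (c (l 16509392) (l 16502960)) (c (b (b (a (c (l 16535584) (l 16532720)) (l 16535248)) (a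 (l 16542240) (b (c (l 16543864) (l 16541064)) (l 16546608)))) (l 16554384)) (b (b (c (l 16509320) (l 16527320)) (a (l 16536568) (c (l 16519264) (l 16537368)))) (l 16548912))))) (b (c (l 16511920) (l 16505400)) (b (c (c (l 16543816) (l 16540968)) (c (l 16538072) (l 16535128))) (c (a (b (a (c (l 16555816) (l 16553128)) (b (l 16554064) (c (l 16559848) (l 16557184)))) (l 16563096)) (b (l 16557880) (a (b (c (l 16565624) (l 16563008)) (l 16557928)) (c (l 16569048) (l 16566440))))) (a (b (a (c (l 16550392) (l 16547608)) (c (l 16552160) (l 16549384))) (l 16557760)) (b (l 16552384) (b (c (l 16560872) (l 16558160)) (a (l 16542184) (l 16543824)))))))))), by decide +kernel⟩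

def k31_pp_022_a : ∃ t, chk3 f_pp_022_a t 37 15 1 = true :=
  ⟨(b (c (a (b (c (l 16430760) (l 16426328)) (c (l 16475840) (l 16472008))) (b (c (l 16463184) (l 16459136)) (c (a (l 16483208) (l 16496520)) (l 16466576)))) (a (b (c (l 16421824) (l 16417240)) (c (l 16468120) (l 16464168))) (b (c (l 16455024) (l 16450832)) (c (l 16483712) (l 16479816))))) (c (b (c (a (l 16519440) (l 16529064)) (a (l 16516168) (l 16525744))) (a (c (l 16559568) (l 16556768)) (c (b (l 16559792) (l 16579200)) (b (l 16556840) (l 16576464))))) (b (c (a (l 16512848) (l 16522376)) (a (l 16509464) (l 16518936))) (c (a (l 16553920) (l 16563784)) (a (l 16551024) (l 16560848)))))), by decide +kernel⟩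

def k32_pp_022_a : ∃ t, chk3 f_pp_022_a t 19 14 1 = true :=
  ⟨(a (b (c (b (c (l 16355488) (l 16413952)) (c (l 16427496) (l 16465848))) (b (c (l 16409432) (l 16404840)) (c (l 16462200) (l 16458488)))) (c (c (b (l 16438064) (a (l 16498592) (l 16557680))) (a (l 16461704) (l 16500120))) (c (a (l 16479144) (l 16518488)) (b (l 16491264) (l 16498024))))) (b (a (c (b (b (c (l 16442432) (l 16480872)) (l 16500544)) (c (l 16555728) (l 16553496))) (b (b (l 16412592) (l 16515904)) (l 16529088))) (c (b (a (a (b (l 16505944) (l 16521376)) (b (l 16512632) (c (l 16526592) (l 16545128)))) (l 16539432)) (a (c (l 16577784) (l 16575848)) (b (a (c (l 16552472) (l 16571408)) (l 16578064)) (a (l 16589416) (c (l 16557160) (l 16571112)))))) (b (a (b (l 16503040) (a (l 16537320) (l 16499456))) (l 16534112)) (a (l 16572864) (b (a (l 16526344) (l 16574072)) (c (l 16546696) (l 16565824))))))) (c (a (c (b (l 16588928) (l 16596536)) (b (l 16587136) (l 16595064))) (c (b (l 16614336) (l 16644032)) (l 16586584))) (a (c (l 16537680)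 (l 16556984)) (c (l 16606256) (l 16604928)))))), by decide +kernel⟩

def k33_pp_022_a : ∃ t, chk3 f_pp_022_a t 19 15 1 = true :=
  ⟨(b (c (a (b (c (a (l 16519736) (l 16580064)) (a (l 16516544) (l 16577824))) (c (a (l 16535400) (l 16597000)) (a (l 16532248) (l 16594816)))) (a (b (c (l 16599152) (l 16618864)) (c (l 16612120) (l 16616184))) (b (c (l 16668800) (l 16667912)) (c (l 16667128) (l 16666336))))) (a (c (b (l 16481184) (a (l 16529048) (l 16592600))) (b (l 16499344) (l 16473848))) (a (b (c (l 16617584) (l 16616272)) (c (l 16614976) (l 16634728))) (b (c (l 16667008) (l 16666088)) (c (l 16665528) (l 16664704)))))) (b (a (c (a (c (a (l 16541744) (l 16562176)) (a (l 16538488) (l 16559208))) (c (l 16566128) (l 16563872))) (a (c (a (l 16535184) (l 16556184)) (a (l 16531824) (l 16553112))) (c (l 16582544) (l 16601184)))) (c (a (c (a (l 16656536) (b (l 16684384) (l 16687744))) (a (l 16655048) (b (l 16683416) (l 16686688)))) (c (b (l 16675648) (l 114588207143)) (b (l 16674792) (l 16696480)))) (a (c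 (a (l 16653544) (l 129083664903)) (a (l 16652008) (l 16661944))) (c (b (l 16694888) (l 16695464)) (l 104924507767))))) (a (c (a (c (b (l 16551472) (a (l 16587960) (l 16594304))) (b (l 16569504) (l 126399128215))) (c (b (a (l 16596712) (l 16628184)) (a (b (l 16600672) (l 124788567079)) (l 115661786951))) (b (a (l 16594080) (l 16626040)) (a (b (l 16598000) (l 16603272)) (l 103850621271))))) (a (c (b (l 16566520) (l 16585536)) (b (l 16563488) (l 16582720))) (c (b (a (l 16591400) (l 16623864)) (a (b (l 16595288) (l 16600584)) (l 16622208))) (b (l 16563152) (a (l 16574976) (l 16619816)))))) (a (a (c (c (l 122104288167) (l 110293124423)) (c (l 102776928103) (l 100092569751))) (l 4)) (l 4))))), by decide +kernel⟩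

def k34_pp_022_a : ∃ t, chk3 f_pp_022_a t 5 2 1 = true :=
  ⟨(a (b (a (c (a (l 15883744) (l 16008424)) (b (l 15894936) (l 15942256))) (c (a (l 16123200) (l 16257056)) (a (l 16100288) (l 16238736)))) (a (c (b (a (l 15985280) (l 16085952)) (a (l 16089480) (l 16174720))) (b (a (l 15958288) (l 16062192)) (a (l 16066480) (l 16154352)))) (c (b (a (l 16177016) (l 16273744)) (a (l 16250720) (b (l 16300808) (l 16337296)))) (b (a (l 16156152) (l 16256056)) (a (l 16232672) (b (l 16284152) (l 16322024))))))) (a (b (c (l 16438704) (l 16408024)) (c (b (l 16418032) (a (b (l 16421616) (l 16386768)) (l 16581776))) (b (l 16408336) (a (b (l 16409096) (l 16395488)) (l 16574896))))) (c (b (a (l 16731520) (l 16777120)) (a (c (l 16690464) (l 16689680)) (c (l 16776072) (l 16776056)))) (b (a (l 16729912) (l 16777112)) (a (c (l 16688888) (l 16709056)) (c (l 16776032) (l 16776016))))))), by decide +kernel⟩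

def k35_pp_022_a : ∃ t, chk3 f_pp_022_a t 5 6 1 = true :=
  ⟨(a (a (b (c (a (b (l 16191728) (l 16274600)) (b (l 16265464) (l 16340680))) (a (l 16131208) (l 16203184))) (c (a (b (l 16349296) (c (l 16481992) (l 16478048))) (b (l 16428648) (c (l 16532264) (l 16528984)))) (a (b (l 16358016) (l 16409096)) (b (l 16418024) (l 16461064))))) (b (c (a (b (l 16330240) (l 16397976)) (b (l 16386248) (l 16446704))) (a (c (l 16353352) (l 16346384)) (c (l 16406816) (l 16400592)))) (c (a (b (l 16436488) (c (l 16574200) (l 16571440))) (c (b (l 16521888) (l 16587064)) (b (l 16517792) (l 16605624)))) (a (c (l 16393544) (l 16431688)) (c (b (l 16513632) (l 16603176)) (b (l 16509424) (l 16600696))))))) (b (a (c (c (a (b (l 16452072) (l 16491552)) (b (l 16584064) (l 16565856))) (a (b (l 16446400) (l 16486624)) (l 16498800))) (a (b (a (l 16410976) (l 16457720)) (c (l 16481632) (l 16476568))) (c (l 16516384) (l 16533928)))) (c (a (c (l 16670520) (l 16669760)) (c (l 16773928) (l 16773864))) (a (c (l 16668992) (l 16689184))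 (c (l 16773808) (l 16773752))))) (b (a (c (a (c (l 16554912) (l 16551184)) (a (c (l 16558952) (l 16576512)) (c (l 16626848) (l 16624224)))) (a (c (l 16547400) (l 16543568)) (a (c (l 16573048) (l 16569536)) (c (l 16621568) (l 16618872))))) (a (c (c (l 111366923255) (l 108682565895)) (c (l 109219435303) (l 113514398455))) (a (c (l 142505661047) (l 143579402519)) (l 4)))) (a (a (c (c (b (l 16612568) (l 61974708887)) (b (l 16609944) (l 16631736))) (c (l 53384667959) (l 16563496))) (b (a (c (a (l 16624568) (l 16628912)) (l 16621600)) (a (c (l 135526013751) (l 16628248)) (l 4))) (l 4))) (l 4))))), by decide +kernel⟩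

def k36_pp_022_a : ∃ t, chk3 f_pp_022_a t 5 28 1 = true :=
  ⟨(b (a (a (c (a (c (l 16551752) (l 16570552)) (c (l 16596168) (l 16594576))) (a (c (l 16568344) (l 16566096)) (c (l 16613936) (l 16612296)))) (c (a (c (l 16632384) (l 16652192)) (c (b (l 16668824) (l 16693200)) (l 16669264))) (a (c (l 16651008) (l 16649800)) (c (l 16678800) (l 16677840))))) (b (a (a (a (c (l 130694288199) (l 16680912)) (l 4)) (l 4)) (l 4)) (l 4))) (a (a (c (a (c (a (l 16601344) (l 16624304)) (l 16590568)) (c (l 16633856) (l 16632888))) (a (c (l 16589032) (l 16608448)) (c (l 16652888) (l 16651888)))) (c (a (c (l 16688160) (l 16687576)) (a (c (l 16705568) (l 16705096)) (l 4))) (a (c (l 16686976) (l 16686360)) (c (l 12045910631) (l 16707216))))) (l 4))), by decide +kernel⟩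

def k37_pp_022_a : ∃ t, chk3 f_pp_022_a t 5 29 1 = true :=
  ⟨(a (a (a (c (a (b (a (b (a (c (b (l 16609696) (l 16617528)) (l 16591264)) (c (l 16618560) (l 16617088))) (c (a (l 16629640) (l 16591176)) (l 16588144))) (b (l 16626488) (c (a (b (l 16634176) (l 16620000)) (l 16643048)) (l 16597248)))) (a (l 16632208) (b (a (c (l 16630912) (l 16650808)) (b (c (l 16652776) (l 16651712)) (c (l 16638568) (l 16637576)))) (l 16646600)))) (b (c (l 16650080) (l 16649024)) (a (b (l 16663488) (a (b (c (l 16649968) (l 16649104)) (c (l 16656576) (l 16655776))) (c (l 16679136) (l 16678360)))) (l 16659072)))) (a (b (c (a (b (a (l 16610688) (l 16615600)) (l 16607792)) (l 16589312)) (a (b (l 16569848) (l 16606440)) (l 16587992))) (a (l 16651056) (b (a (l 16628176) (c (l 16654176) (l 16653112))) (l 16665736)))) (b (l 16647384) (b (l 16666928) (a (a (c (b (l 16648216) (l 16675928)) (l 16671776)) (l 16656200)) (l 16684880)))))) (c (b (c (l 16658352) (l 16657648)) (c (a (l 16673304) (l 16707656)) (a (l 16672728) (l 16707192))))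 (c (b (l 16656936) (a (l 16672136) (l 16706712))) (b (l 16656208) (l 58753578503))))) (a (a (c (b (c (l 16702432) (l 16701968)) (c (l 33520778151) (l 16715408))) (c (l 92576493799) (l 108145722391))) (b (b (c (a (l 16686256) (l 128010013639)) (l 16708008)) (l 4)) (l 4))) (l 4))) (l 4)), by decide +kernel⟩

def k38_pp_022_a : ∃ t, chk3 f_pp_022_a t 5 15 1 = true :=
  ⟨(a (a (b (a (a (c (b (c (l 16662200) (l 16682408)) (c (b (l 16698208) (l 16692696)) (b (l 16697528) (l 16702448)))) (b (c (l 16681632) (l 16680840)) (c (l 117272536775) (l 112977567655)))) (a (c (b (b (a (l 16687008) (b (c (a (l 16687408) (l 16668768)) (l 16687904)) (l 16673608))) (c (l 16701072) (l 16700480))) (c (l 111366999351) (l 16707104))) (b (b (a (l 16685568) (b (c (l 16687200) (l 16686488)) (l 16693296))) (c (l 16699872) (l 16699256))) (c (l 16706400) (l 16705680)))) (b (b (a (c (b (l 16693096) (c (a (l 16698344) (l 16700736)) (l 16698976))) (c (l 16695280) (l 16694656))) (c (l 16700936) (l 16699816))) (a (a (c (l 16705552)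 (l 16704432)) (c (c (b (l 16706168) (l 4)) (l 51237492103)) (c (l 56069324295) (l 16705536)))) (b (b (c (l 16707344) (l 16706312)) (l 4)) (l 4)))) (l 4)))) (a (b (c (c (l 29225777927) (l 16709680)) (c (l 16709128) (l 16708560))) (l 4)) (l 4))) (l 4)) (l 4)) (l 4)), by decide +kernel⟩

def k39_pp_022_a : ∃ t, chk3 f_pp_022_a t 3 1 1 = true :=
  ⟨(b (a (a (c (b (a (l 16777120) (l 16777120)) (a (c (b (l 16776544) (l 16775560)) (b (l 16776528) (l 16775536))) (b (c (l 16776544) (l 16776528)) (c (a (l 16775560) (l 16775560)) (l 75396804039))))) (b (a (l 16777112) (l 16777112)) (a (c (b (l 16776520) (l 16775504)) (l 16776016)) (b (l 16776512) (c (l 76470545479) (l 78618029383)))))) (a (b (c (c (l 16777120) (l 16777120)) (l 16777112)) (c (b (c (l 16776544) (l 16776528)) (c (l 141968798487) (l 141968797127))) (b (c (l 16776520) (l 16776504)) (c (l 143042538567) (l 145726893383))))) (b (a (c (l 16777120) (l 16777112)) (l 2)) (b (a (c (c (l 16776544) (l 16776528)) (l 122104575671)) (l 2)) (l 4))))) (l 2))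 (a (b (b (a (a (c (c (a (l 104924699991) (l 125325794647)) (a (l 104387828967) (l 125862665447))) (c (a (l 16768568) (l 128547019895)) (a (l 16773752) (l 133915728887)))) (a (b (c (l 148948117031) (l 153243084135)) (l 4)) (l 4))) (l 4)) (l 4)) (l 4)) (l 4))), by decide +kernel⟩

theorem s40_pp_022_a : ∃ t, chk3 f_pp_022_a t 5 14 1 = true := ex3_b k36_pp_022_a k37_pp_022_a

theorem s41_pp_022_a : ∃ t, chk3 f_pp_022_a t 5 7 1 = true := ex3_b s40_pp_022_a k38_pp_022_a

theorem s42_pp_022_a : ∃ t, chk3 f_pp_022_a t 5 3 1 = true := ex3_b k35_pp_022_a s41_pp_022_a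

theorem s43_pp_022_a : ∃ t, chk3 f_pp_022_a t 5 1 1 = true := ex3_b k34_pp_022_a s42_pp_022_a

theorem s44_pp_022_a : ∃ t, chk3 f_pp_022_a t 19 7 1 = true := ex3_b k32_pp_022_a k33_pp_022_a

theorem s45_pp_022_a : ∃ t, chk3 f_pp_022_a t 36 15 1 = true := ex3_b k29_pp_022_a k30_pp_022_a

theorem s46_pp_022_a : ∃ t, chk3 f_pp_022_a t 18 15 1 = true := ex3_a s45_pp_022_a k31_pp_022_a

theorem s47_pp_022_a : ∃ t, chk3 f_pp_022_a t 18 7 1 = true := ex3_b k28_pp_022_a s46_pp_022_a

theorem s48_pp_022_a : ∃ t, chk3 f_pp_022_a t 9 7 1 = true := ex3_a s47_pp_022_a s44_pp_022_a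

theorem s49_pp_022_a : ∃ t, chk3 f_pp_022_a t 9 3 1 = true := ex3_b k27_pp_022_a s48_pp_022_a

theorem s50_pp_022_a : ∃ t, chk3 f_pp_022_a t 35 15 2 = true := ex3_b k24_pp_022_a k25_pp_022_a

theorem s51_pp_022_a : ∃ t, chk3 f_pp_022_a t 35 15 1 = true := ex3_c s50_pp_022_a k26_pp_022_a

theorem s52_pp_022_a : ∃ t, chk3 f_pp_022_a t 34 15 2 = true := ex3_c k21_pp_022_a k22_pp_022_a

theorem s53_pp_022_a : ∃ t, chk3 f_pp_022_a t 34 15 1 = true := ex3_c s52_pp_022_a k23_pp_022_a

theorem s54_pp_022_a : ∃ t, chk3 f_pp_022_a t 17 15 1 = true := ex3_a s53_pp_022_a s51_pp_022_a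

theorem s55_pp_022_a : ∃ t, chk3 f_pp_022_a t 35 14 1 = true := ex3_c k19_pp_022_a k20_pp_022_a

theorem s56_pp_022_a : ∃ t, chk3 f_pp_022_a t 34 14 1 = true := ex3_c k17_pp_022_a k18_pp_022_a

theorem s57_pp_022_a : ∃ t, chk3 f_pp_022_a t 17 14 1 = true := ex3_a s56_pp_022_a s55_pp_022_a

theorem s58_pp_022_a : ∃ t, chk3 f_pp_022_a t 17 7 1 = true := ex3_b s57_pp_022_a s54_pp_022_a

theorem s59_pp_022_a : ∃ t, chk3 f_pp_022_a t 16 15 3 = true := ex3_a k15_pp_022_a k16_pp_022_a

theorem s60_pp_022_a : ∃ t, chk3 f_pp_022_a t 16 7 3 = true := ex3_b k14_pp_022_a s59_pp_022_a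

theorem s61_pp_022_a : ∃ t, chk3 f_pp_022_a t 32 31 4 = true := ex3_a k10_pp_022_a k11_pp_022_a

theorem s62_pp_022_a : ∃ t, chk3 f_pp_022_a t 32 31 2 = true := ex3_c s61_pp_022_a k12_pp_022_a

theorem s63_pp_022_a : ∃ t, chk3 f_pp_022_a t 32 15 2 = true := ex3_b k9_pp_022_a s62_pp_022_a

theorem s64_pp_022_a : ∃ t, chk3 f_pp_022_a t 16 15 2 = true := ex3_a s63_pp_022_a k13_pp_022_a

theorem s65_pp_022_a : ∃ t, chk3 f_pp_022_a t 16 7 2 = true := ex3_b k8_pp_022_a s64_pp_022_a

theorem s66_pp_022_a : ∃ t, chk3 f_pp_022_a t 16 7 1 = true := ex3_c s65_pp_022_a s60_pp_022_a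

theorem s67_pp_022_a : ∃ t, chk3 f_pp_022_a t 8 7 1 = true := ex3_a s66_pp_022_a s58_pp_022_a

theorem s68_pp_022_a : ∃ t, chk3 f_pp_022_a t 17 6 1 = true := ex3_a k6_pp_022_a k7_pp_022_a

theorem s69_pp_022_a : ∃ t, chk3 f_pp_022_a t 16 6 3 = true := ex3_a k4_pp_022_a k5_pp_022_a

theorem s70_pp_022_a : ∃ t, chk3 f_pp_022_a t 16 6 1 = true := ex3_c k3_pp_022_a s69_pp_022_a

theorem s71_pp_022_a : ∃ t, chk3 f_pp_022_a t 8 6 1 = true := ex3_a s70_pp_022_a s68_pp_022_a

theorem s72_pp_022_a : ∃ t, chk3 f_pp_022_a t 8 3 1 = true := ex3_b s71_pp_022_a s67_pp_022_a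

theorem s73_pp_022_a : ∃ t, chk3 f_pp_022_a t 4 3 1 = true := ex3_a s72_pp_022_a s49_pp_022_a

theorem s74_pp_022_a : ∃ t, chk3 f_pp_022_a t 8 2 1 = true := ex3_a k0_pp_022_a k1_pp_022_a

theorem s75_pp_022_a : ∃ t, chk3 f_pp_022_a t 4 2 1 = true := ex3_a s74_pp_022_a k2_pp_022_a

theorem s76_pp_022_a : ∃ t, chk3 f_pp_022_a t 4 1 1 = true := ex3_b s75_pp_022_a s73_pp_022_a

theorem s77_pp_022_a : ∃ t, chk3 f_pp_022_a t 2 1 1 = true := ex3_a s76_pp_022_a s43_pp_022_a

theorem s78_pp_022_a : ∃ t, chk3 f_pp_022_a t 1 1 1 = true := ex3_a s77_pp_022_a k39_pp_022_a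

theorem c_pp_022_a : CertNX 0 536870912 0 420477299 1046898278 26843546 3 true true true .pp 0 2 2
    ndN0q0 ndN1q2a pcN2 Cut.none Ext.none :=
  certNX0 (fam := true) (s1 := true) (s2 := true) (a := 0) (b := 2) (c := 2) (cn := .pp) (n1 := ndN0q0) (n2 := ndN1q2a) (pc := pcN2) (cut := Cut.none) (xt := Ext.none) (P1 := 0) (W1 := 536870912) (P2 := 0) (W2 := 420477299) (P3 := 1046898278) (W3 := 26843546) (N0 := 3)
    rfl s78_pp_022_a

noncomputable def f_pp_022_b : ℕ → ℕ → ℕ → ℕ → Bool := onCell 0 536870912 1073741824 536870912 1046898278 26843546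
    (rowNX 3 1 true true true .pp 0 2 2 (qsf 0 536870912 1239849684 370763052 2) ndN0q0 ndN1q2b pcN2 Cut.none Ext.none)

def k0_pp_022_b : ∃ t, chk3 f_pp_022_b t 1 4 1 = true :=
  ⟨(l 1), by decide +kernel⟩

def k1_pp_022_b : ∃ t, chk3 f_pp_022_b t 8 10 1 = true :=
  ⟨(b (b (l 1) (a (a (a (a (a (c (l 16014544) (l 335575808407)) (l 1)) (l 1)) (l 1)) (l 1)) (l 1))) (a (c (a (l 228200489495) (c (l 266318534119) (a (l 15291152) (b (l 1) (l 15236808))))) (a (c (b (l 15361536) (l 15202760)) (a (c (l 15354928) (a (c (l 15329744) (l 15176280)) (l 15103056))) (c (a (c (l 15415808) (l 15370232)) (l 15304976)) (l 15415984)))) (c (a (c (l 250749259607) (b (l 332890915575) (l 15251264))) (b (l 1) (l 282424380119))) (l 15441480)))) (b (l 1) (c (a (a (c (l 15496072) (c (l 15512664) (l 341480369863))) (l 1)) (l 1)) (l 338259236679))))), by decide +kernel⟩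

def k2_pp_022_b : ∃ t, chk3 f_pp_022_b t 8 11 1 = true :=
  ⟨(c (a (b (a (l 14692704) (c (l 14835704) (a (l 14779632) (c (l 14868232) (l 14757944))))) (a (l 14324400) (c (l 14470856) (a (l 14407544) (l 14488104))))) (b (a (c (c (l 240010816119) (a (l 14964728) (b (l 15236728) (l 14899328)))) (c (a (l 14823800) (b (l 289403317143) (l 14858776))) (a (c (l 14741688) (l 14917776)) (l 14975736)))) (c (c (a (b (l 345238144039) (l 14990920)) (a (c (l 15196048) (l 301751233159)) (l 316246805623))) (a (b (l 343090571895) (l 249137465783)) (l 15131256))) (l 15058008))) (a (c (c (l 14647480) (a (l 14597896) (l 14697640))) (c (a (l 14600192) (c (l 14668000) (l 14626344))) (a (l 14565304) (l 14601592)))) (c (c (a (l 14791096) (c (a (l 14832944) (l 14816200)) (l 14787184))) (a (c (l 14753944) (l 14707776)) (l 14763696))) (l 14706272))))) (a (b (a (c (a (l 14610432) (l 14681560)) (a (c (l 14587344) (a (l 14549840) (l 14579776))) (c (a (l 14638264) (l 14684368)) (l 14641152)))) (c (a (c (l 14770568) (c (l 14767440)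 (l 14751120))) (b (l 14889008) (l 14666152))) (l 14754168))) (a (c (l 14268408) (a (c (l 14202056) (l 14051784)) (c (l 14269840) (l 14252144)))) (c (a (c (l 14392936) (l 14375432)) (l 14268792)) (l 14367200)))) (b (c (l 14776144) (l 14956024)) (l 14588552)))), by decide +kernel⟩

def k3_pp_022_b : ∃ t, chk3 f_pp_022_b t 9 5 1 = true :=
  ⟨(b (l 1) (a (b (a (c (a (l 342553510807) (l 1)) (l 346848465175)) (l 1)) (a (c (a (l 14816488) (l 14907520)) (l 14795872)) (c (l 324837493831) (l 15090032)))) (b (l 1) (a (l 413421078567) (l 1))))), by decide +kernel⟩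

def k4_pp_022_b : ∃ t, chk3 f_pp_022_b t 5 5 1 = true :=
  ⟨(l 1), by decide +kernel⟩

def k5_pp_022_b : ∃ t, chk3 f_pp_022_b t 3 5 1 = true :=
  ⟨(l 1), by decide +kernel⟩

def k6_pp_022_b : ∃ t, chk3 f_pp_022_b t 4 3 1 = true :=
  ⟨(b (a (a (c (b (a (l 14230800) (c (l 14377720) (b (l 14393528) (l 14314600)))) (c (l 14190328) (a (l 14080344) (l 14227080)))) (b (a (c (l 14172024) (a (c (l 14104392) (l 14078984)) (c (l 14171904) (l 14153264)))) (c (a (c (l 14296680) (l 14278248)) (l 14360704)) (l 14268568))) (a (c (l 14040288) (a (l 13954224) (l 14012960))) (c (c (a (l 14165120) (l 14243896)) (l 14172296)) (l 14133312))))) (c (b (a (c (b (l 14576640) (l 14499088)) (c (a (l 14505576) (l 14560544)) (a (l 14469784) (l 14506104)))) (c (b (c (a (l 14734424) (l 14768560)) (l 14708352)) (c (l 14670656) (l 14630392))) (l 14611432))) (c (a (l 14413136) (b (c (l 14589824) (l 14548704)) (l 14555336))) (a (c (l 14336896) (l 14363632)) (l 14481288)))) (b (l 14490952) (l 14356784)))) (a (b (a (c (b (l 14797368)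 (l 14719208)) (l 14698904)) (b (l 15060592) (l 14981344))) (c (a (l 14632176) (l 14925336)) (b (l 14718768) (l 14707832)))) (b (b (c (l 278129723719) (l 15252952)) (c (l 15470392) (l 15424808))) (c (b (l 15389112) (l 15378688)) (b (l 15340288) (l 15329432)))))) (a (c (a (b (l 14169840) (l 14169840)) (c (a (l 14407656) (b (l 14555336) (l 14555336))) (a (b (l 14371352) (l 14371352)) (l 14475664)))) (a (c (a (l 14034608) (b (l 14165704) (l 14165704))) (a (b (l 13981696) (l 13981696)) (l 14127464))) (l 14350976))) (a (c (b (a (l 14626616) (l 14919768)) (l 14728656)) (b (l 14707832) (l 14707832))) (b (c (l 15378688) (l 15329432)) (l 15354008))))), by decide +kernel⟩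

def k7_pp_022_b : ∃ t, chk3 f_pp_022_b t 5 3 1 = true :=
  ⟨(b (b (a (a (b (c (l 397852838311) (l 399463395463)) (c (l 15902360) (l 15871848))) (b (l 1) (c (l 395169043719) (l 414496360295)))) (l 1)) (a (c (b (a (l 15822280) (l 16116248)) (a (l 15811992) (l 16168920))) (b (a (l 15788688) (l 16158128)) (l 15840056))) (a (b (c (l 347924954439) (l 390874608727)) (c (l 16501704) (l 16492000))) (b (l 1) (c (l 442414925847) (l 386580349399)))))) (a (b (c (a (l 15811992) (l 16168920)) (a (l 15777984) (l 16147496))) (c (l 15993496) (l 15965880))) (b (a (c (l 16438656) (l 16470888)) (c (a (l 16710528) (l 16777000)) (a (l 16729888) (l 16776992)))) (a (c (l 16501568) (l 16491856)) (c (l 16754576) (l 16753784)))))), by decide +kernel⟩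

def k8_pp_022_b : ∃ t, chk3 f_pp_022_b t 3 3 1 = true :=
  ⟨(b (l 1) (a (b (a (b (a (c (l 457984398135) (l 456373785063)) (l 1)) (c (l 413960980503) (l 406444787063))) (l 1)) (a (c (c (l 16777088) (l 16777080)) (c (l 16777080) (l 16777080))) (a (c (b (l 464426892999) (l 16776936)) (l 342020277623)) (b (l 1) (c (l 460668796615) (l 454226301415)))))) (l 1))), by decide +kernel⟩

theorem s9_pp_022_b : ∃ t, chk3 f_pp_022_b t 2 3 1 = true := ex3_a k6_pp_022_b k7_pp_022_b

theorem s10_pp_022_b : ∃ t, chk3 f_pp_022_b t 1 3 1 = true := ex3_a s9_pp_022_b k8_pp_022_b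

theorem s11_pp_022_b : ∃ t, chk3 f_pp_022_b t 8 5 1 = true := ex3_b k1_pp_022_b k2_pp_022_b

theorem s12_pp_022_b : ∃ t, chk3 f_pp_022_b t 4 5 1 = true := ex3_a s11_pp_022_b k3_pp_022_b

theorem s13_pp_022_b : ∃ t, chk3 f_pp_022_b t 2 5 1 = true := ex3_a s12_pp_022_b k4_pp_022_b

theorem s14_pp_022_b : ∃ t, chk3 f_pp_022_b t 1 5 1 = true := ex3_a s13_pp_022_b k5_pp_022_b

theorem s15_pp_022_b : ∃ t, chk3 f_pp_022_b t 1 2 1 = true := ex3_b k0_pp_022_b s14_pp_022_b

theorem s16_pp_022_b : ∃ t, chk3 f_pp_022_b t 1 1 1 = true := ex3_b s15_pp_022_b s10_pp_022_b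

theorem c_pp_022_b : CertNX 0 536870912 1239849684 370763052 1046898278 26843546 3 true true true .pp 0 2 2
    ndN0q0 ndN1q2b pcN2 Cut.none Ext.none :=
  certNX1 (fam := true) (s1 := true) (s2 := true) (a := 0) (b := 2) (c := 2) (cn := .pp) (n1 := ndN0q0) (n2 := ndN1q2b) (pc := pcN2) (cut := Cut.none) (xt := Ext.none) (P1 := 0) (W1 := 536870912) (P2 := 1239849684) (W2 := 370763052) (P3 := 1046898278) (W3 := 26843546) (N0 := 3)
    rfl (fun _ => rfl) s16_pp_022_b

noncomputable def f_pp_023_a : ℕ → ℕ → ℕ → ℕ → Bool := onCell 1610612736 536870912 0 420477299 1046898278 26843546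
    (rowNX 3 2 true true true .up 0 2 3 (qsf 0 536870912 0 420477299 3) ndN0q0 ndN1q2a pcN3 Cut.none Ext.none)

def k0_pp_023_a : ∃ t, chk3 f_pp_023_a t 1 1 1 = true :=
  ⟨(a (b (a (a (a (b (c (c (l 16777120) (l 16777120)) (c (l 16777112) (l 16777112))) (b (c (c (l 138747574983) (l 140358186711)) (c (l 139821315783) (l 127473284455))) (l 4))) (b (b (c (l 16777208) (l 16777208)) (c (c (l 122104577383) (l 117272739175)) (c (l 112977771543) (l 16777040)))) (l 4))) (b (b (c (a (c (l 16777208) (l 16777208)) (c (a (l 130157641559) (l 152706220023)) (a (l 16777208) (l 151095607127)))) (a (c (l 16777208) (l 16777208)) (c (a (l 16777208) (l 148948123479)) (l 132841996119)))) (a (a (c (l 158074928823) (l 150021864471)) (l 4)) (l 4))) (l 4))) (a (b (l 4) (l 4)) (l 2))) (l 4)) (l 2)), by decide +kernel⟩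

theorem c_pp_023_a : CertNX 0 536870912 0 420477299 1046898278 26843546 3 true true true .up 0 2 3
    ndN0q0 ndN1q2a pcN3 Cut.none Ext.none :=
  certNX2 (fam := true) (s1 := true) (s2 := true) (a := 0) (b := 2) (c := 3) (cn := .up) (n1 := ndN0q0) (n2 := ndN1q2a) (pc := pcN3) (cut := Cut.none) (xt := Ext.none) (P1 := 0) (W1 := 536870912) (P2 := 0) (W2 := 420477299) (P3 := 1046898278) (W3 := 26843546) (N0 := 3)
    rfl (fun _ => rfl) k0_pp_023_a

noncomputable def f_pp_023_b : ℕ → ℕ → ℕ → ℕ → Bool := onCell 1610612736 536870912 1239849684 370763052 1046898278 26843546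
    (rowNX 3 2 true true true .up 0 2 3 (qsf 0 536870912 1239849684 370763052 3) ndN0q0 ndN1q2b pcN3 Cut.none Ext.none)

def k0_pp_023_b : ∃ t, chk3 f_pp_023_b t 1 1 1 = true :=
  ⟨(a (b (a (b (a (c (c (b (l 16777216) (l 16777216)) (b (l 16777216) (l 16777216))) (c (b (l 16777216) (l 16777216)) (b (l 16777216) (l 16777216)))) (c (a (b (c (l 16777216) (l 16777216)) (l 16777216)) (b (c (b (l 16777216) (l 16777216)) (b (l 16777216) (l 16777216))) (l 16777216))) (a (c (l 16777216) (l 16777216)) (b (c (l 16777216) (l 16777216)) (l 16777216))))) (a (b (c (a (l 16762928) (l 16777216)) (a (l 16762432) (l 16777216))) (a (c (l 16552880) (l 16482056)) (c (l 16730848) (l 16729216)))) (a (c (l 16777216) (l 16777216)) (l 4)))) (a (a (a (l 4) (l 4)) (l 4)) (l 4))) (a (a (b (b (a (l 15973840) (c (l 16446904) (l 16435272))) (a (c (l 15567712) (l 15525120)) (l 15962560))) (a (b (b (l 14999176) (c (a (l 14579976) (l 14725800)) (l 14611264))) (c (b (a (c (l 14399808) (l 14343040)) (l 14387424)) (a (l 14195280) (c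 (l 14353984) (l 14294800)))) (b (l 14350448) (a (c (l 14121544) (l 14063712)) (l 14228416))))) (b (c (l 15380992) (l 15331824)) (c (b (a (l 14687128) (l 14945136)) (a (c (l 14473960) (l 14443360)) (l 14618472))) (b (l 14759680) (l 14451040)))))) (a (a (b (b (l 16629080) (l 16228904)) (b (l 15722048) (b (l 15227080) (l 14735016)))) (l 4)) (l 4))) (l 4))) (l 4)), by decide +kernel⟩

theorem c_pp_023_b : CertNX 0 536870912 1239849684 370763052 1046898278 26843546 3 true true true .up 0 2 3
    ndN0q0 ndN1q2b pcN3 Cut.none Ext.none :=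
  certNX2 (fam := true) (s1 := true) (s2 := true) (a := 0) (b := 2) (c := 3) (cn := .up) (n1 := ndN0q0) (n2 := ndN1q2b) (pc := pcN3) (cut := Cut.none) (xt := Ext.none) (P1 := 0) (W1 := 536870912) (P2 := 1239849684) (W2 := 370763052) (P3 := 1046898278) (W3 := 26843546) (N0 := 3)
    rfl (fun _ => rfl) k0_pp_023_b

noncomputable def f_pp_033 : ℕ → ℕ → ℕ → ℕ → Bool := onCell 0 536870912 1610612736 469762048 1046898278 26843546
    (rowNX 3 0 true true true .pnn 0 3 3 (qsf 0 536870912 1610612736 469762048 3) ndN0q0 ndN1q3 pcN3 Cut.none Ext.none)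

def k0_pp_033 : ∃ t, chk3 f_pp_033 t 1 1 1 = true :=
  ⟨(a (a (b (b (a (a (c (b (l 14169840) (l 14169840)) (a (c (l 14034608) (b (l 13981696) (l 13981696))) (b (l 14117520) (l 4)))) (b (c (c (a (l 14407656) (l 14555336)) (l 14422488)) (l 14350976)) (l 4))) (a (b (c (l 116731184615) (l 14707832)) (l 4)) (l 4))) (l 4)) (l 4)) (l 4)) (l 4)), by decide +kernel⟩

theorem c_pp_033 : CertNX 0 536870912 1610612736 469762048 1046898278 26843546 3 true true true .pnn 0 3 3
    ndN0q0 ndN1q3 pcN3 Cut.none Ext.none :=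
  certNX0 (fam := true) (s1 := true) (s2 := true) (a := 0) (b := 3) (c := 3) (cn := .pnn) (n1 := ndN0q0) (n2 := ndN1q3) (pc := pcN3) (cut := Cut.none) (xt := Ext.none) (P1 := 0) (W1 := 536870912) (P2 := 1610612736) (W2 := 469762048) (P3 := 1046898278) (W3 := 26843546) (N0 := 3)
    rfl k0_pp_033

noncomputable def f_pp_101 : ℕ → ℕ → ℕ → ℕ → Bool := onCell 536870912 536870912 67108864 469762048 1046898278 26843546
    (rowNX 3 0 true true true .npn 1 0 1 (qsf 536870912 536870912 67108864 469762048 1) ndN0q1 ndN1q0 pcN1 Cut.none Ext.none)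

def k0_pp_101 : ∃ t, chk3 f_pp_101 t 1 1 1 = true :=
  ⟨(l 5), by decide +kernel⟩

theorem c_pp_101 : CertNX 536870912 536870912 67108864 469762048 1046898278 26843546 3 true true true .npn 1 0 1
    ndN0q1 ndN1q0 pcN1 Cut.none Ext.none :=
  certNX0 (fam := true) (s1 := true) (s2 := true) (a := 1) (b := 0) (c := 1) (cn := .npn) (n1 := ndN0q1) (n2 := ndN1q0) (pc := pcN1) (cut := Cut.none) (xt := Ext.none) (P1 := 536870912) (W1 := 536870912) (P2 := 67108864) (W2 := 469762048) (P3 := 1046898278) (W3 := 26843546) (N0 := 3)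
    rfl k0_pp_101

noncomputable def f_pp_102 : ℕ → ℕ → ℕ → ℕ → Bool := onCell 536870912 536870912 67108864 469762048 1046898278 26843546
    (rowNX 3 0 true true true .npp 1 0 2 (qsf 536870912 536870912 67108864 469762048 2) ndN0q1 ndN1q0 pcN2 Cut.none Ext.none)

def k0_pp_102 : ∃ t, chk3 f_pp_102 t 1 1 1 = true :=
  ⟨(l 5), by decide +kernel⟩

theorem c_pp_102 : CertNX 536870912 536870912 67108864 469762048 1046898278 26843546 3 true true true .npp 1 0 2
    ndN0q1 ndN1q0 pcN2 Cut.none Ext.none :=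
  certNX0 (fam := true) (s1 := true) (s2 := true) (a := 1) (b := 0) (c := 2) (cn := .npp) (n1 := ndN0q1) (n2 := ndN1q0) (pc := pcN2) (cut := Cut.none) (xt := Ext.none) (P1 := 536870912) (W1 := 536870912) (P2 := 67108864) (W2 := 469762048) (P3 := 1046898278) (W3 := 26843546) (N0 := 3)
    rfl k0_pp_102

noncomputable def f_pp_112 : ℕ → ℕ → ℕ → ℕ → Bool := onCell 536870912 536870912 536870912 536870912 1046898278 26843546
    (rowNX 3 0 true true true .dn 1 1 2 (qsf 536870912 536870912 536870912 536870912 2) ndN0q1 ndN1q1 pcN2 Cut.none Ext.none)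

def k0_pp_112 : ∃ t, chk3 f_pp_112 t 1 1 1 = true :=
  ⟨(l 4), by decide +kernel⟩

theorem c_pp_112 : CertNX 536870912 536870912 536870912 536870912 1046898278 26843546 3 true true true .dn 1 1 2
    ndN0q1 ndN1q1 pcN2 Cut.none Ext.none :=
  certNX0 (fam := true) (s1 := true) (s2 := true) (a := 1) (b := 1) (c := 2) (cn := .dn) (n1 := ndN0q1) (n2 := ndN1q1) (pc := pcN2) (cut := Cut.none) (xt := Ext.none) (P1 := 536870912) (W1 := 536870912) (P2 := 536870912) (W2 := 536870912) (P3 := 1046898278) (W3 := 26843546) (N0 := 3)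
    rfl k0_pp_112

noncomputable def f_pp_113 : ℕ → ℕ → ℕ → ℕ → Bool := onCell 536870912 536870912 536870912 536870912 1046898278 26843546
    (rowNX 3 0 true true true .nn 1 1 3 (qsf 536870912 536870912 536870912 536870912 3) ndN0q1 ndN1q1 pcN3 Cut.none Ext.none)

def k0_pp_113 : ∃ t, chk3 f_pp_113 t 1 1 1 = true :=
  ⟨(l 4), by decide +kernel⟩

theorem c_pp_113 : CertNX 536870912 536870912 536870912 536870912 1046898278 26843546 3 true true true .nn 1 1 3
    ndN0q1 ndN1q1 pcN3 Cut.none Ext.none :=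
  certNX0 (fam := true) (s1 := true) (s2 := true) (a := 1) (b := 1) (c := 3) (cn := .nn) (n1 := ndN0q1) (n2 := ndN1q1) (pc := pcN3) (cut := Cut.none) (xt := Ext.none) (P1 := 536870912) (W1 := 536870912) (P2 := 536870912) (W2 := 536870912) (P3 := 1046898278) (W3 := 26843546) (N0 := 3)
    rfl k0_pp_113

noncomputable def f_pp_123_a : ℕ → ℕ → ℕ → ℕ → Bool := onCell 536870912 536870912 0 420477299 1046898278 26843546
    (rowNX 3 0 true true true .npn 1 2 3 (qsf 536870912 536870912 0 420477299 3) ndN0q1 ndN1q2a pcN3 Cut.none Ext.none)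

def k0_pp_123_a : ∃ t, chk3 f_pp_123_a t 1 1 1 = true :=
  ⟨(a (b (l 4) (l 4)) (l 4)), by decide +kernel⟩

theorem c_pp_123_a : CertNX 536870912 536870912 0 420477299 1046898278 26843546 3 true true true .npn 1 2 3
    ndN0q1 ndN1q2a pcN3 Cut.none Ext.none :=
  certNX0 (fam := true) (s1 := true) (s2 := true) (a := 1) (b := 2) (c := 3) (cn := .npn) (n1 := ndN0q1) (n2 := ndN1q2a) (pc := pcN3) (cut := Cut.none) (xt := Ext.none) (P1 := 536870912) (W1 := 536870912) (P2 := 0) (W2 := 420477299) (P3 := 1046898278) (W3 := 26843546) (N0 := 3)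
    rfl k0_pp_123_a

noncomputable def f_pp_123_b : ℕ → ℕ → ℕ → ℕ → Bool := onCell 536870912 536870912 1239849684 370763052 1046898278 26843546
    (rowNX 3 0 true true true .npn 1 2 3 (qsf 536870912 536870912 1239849684 370763052 3) ndN0q1 ndN1q2b pcN3 Cut.none Ext.none)

def k0_pp_123_b : ∃ t, chk3 f_pp_123_b t 1 1 1 = true :=
  ⟨(a (b (a (l 4) (l 4)) (l 4)) (l 4)), by decide +kernel⟩

theorem c_pp_123_b : CertNX 536870912 536870912 1239849684 370763052 1046898278 26843546 3 true true true .npn 1 2 3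
    ndN0q1 ndN1q2b pcN3 Cut.none Ext.none :=
  certNX0 (fam := true) (s1 := true) (s2 := true) (a := 1) (b := 2) (c := 3) (cn := .npn) (n1 := ndN0q1) (n2 := ndN1q2b) (pc := pcN3) (cut := Cut.none) (xt := Ext.none) (P1 := 536870912) (W1 := 536870912) (P2 := 1239849684) (W2 := 370763052) (P3 := 1046898278) (W3 := 26843546) (N0 := 3)
    rfl k0_pp_123_b

noncomputable def f_pp_133 : ℕ → ℕ → ℕ → ℕ → Bool := onCell 536870912 536870912 1610612736 469762048 1046898278 26843546
    (rowNX 3 0 true true true .dn 1 3 3 (qsf 536870912 536870912 1610612736 469762048 3) ndN0q1 ndN1q3 pcN3 Cut.none Ext.none)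

def k0_pp_133 : ∃ t, chk3 f_pp_133 t 1 1 1 = true :=
  ⟨(l 4), by decide +kernel⟩

theorem c_pp_133 : CertNX 536870912 536870912 1610612736 469762048 1046898278 26843546 3 true true true .dn 1 3 3
    ndN0q1 ndN1q3 pcN3 Cut.none Ext.none :=
  certNX0 (fam := true) (s1 := true) (s2 := true) (a := 1) (b := 3) (c := 3) (cn := .dn) (n1 := ndN0q1) (n2 := ndN1q3) (pc := pcN3) (cut := Cut.none) (xt := Ext.none) (P1 := 536870912) (W1 := 536870912) (P2 := 1610612736) (W2 := 469762048) (P3 := 1046898278) (W3 := 26843546) (N0 := 3)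
    rfl k0_pp_133

noncomputable def f_pp_202 : ℕ → ℕ → ℕ → ℕ → Bool := onCell 0 536870912 67108864 469762048 1046898278 26843546
    (rowNX 3 0 true true true .pp 2 0 2 (qsf 0 536870912 67108864 469762048 2) ndN0q2 ndN1q0 pcN2 Cut.none Ext.none)

def k0_pp_202 : ∃ t, chk3 f_pp_202 t 1 1 1 = true :=
  ⟨(l 5), by decide +kernel⟩

theorem c_pp_202 : CertNX 0 536870912 67108864 469762048 1046898278 26843546 3 true true true .pp 2 0 2
    ndN0q2 ndN1q0 pcN2 Cut.none Ext.none :=
  certNX0 (fam := true) (s1 := true) (s2 := true) (a := 2) (b := 0) (c := 2) (cn := .pp) (n1 := ndN0q2) (n2 := ndN1q0) (pc := pcN2) (cut := Cut.none) (xt := Ext.none) (P1 := 0) (W1 := 536870912) (P2 := 67108864) (W2 := 469762048) (P3 := 1046898278) (W3 := 26843546) (N0 := 3)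
    rfl k0_pp_202

noncomputable def f_pp_203 : ℕ → ℕ → ℕ → ℕ → Bool := onCell 0 536870912 67108864 469762048 1046898278 26843546
    (rowNX 3 0 true true true .up 2 0 3 (qsf 0 536870912 67108864 469762048 3) ndN0q2 ndN1q0 pcN3 Cut.none Ext.none)

def k0_pp_203 : ∃ t, chk3 f_pp_203 t 1 1 1 = true :=
  ⟨(l 5), by decide +kernel⟩

theorem c_pp_203 : CertNX 0 536870912 67108864 469762048 1046898278 26843546 3 true true true .up 2 0 3
    ndN0q2 ndN1q0 pcN3 Cut.none Ext.none :=
  certNX0 (fam := true) (s1 := true) (s2 := true) (a := 2) (b := 0) (c := 3) (cn := .up) (n1 := ndN0q2) (n2 := ndN1q0) (pc := pcN3) (cut := Cut.none) (xt := Ext.none) (P1 := 0) (W1 := 536870912) (P2 := 67108864) (W2 := 469762048) (P3 := 1046898278) (W3 := 26843546) (N0 := 3)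
    rfl k0_pp_203

noncomputable def f_pp_213 : ℕ → ℕ → ℕ → ℕ → Bool := onCell 0 536870912 536870912 536870912 1046898278 26843546
    (rowNX 3 0 true true true .pnn 2 1 3 (qsf 0 536870912 536870912 536870912 3) ndN0q2 ndN1q1 pcN3 Cut.none Ext.none)

def k0_pp_213 : ∃ t, chk3 f_pp_213 t 1 1 1 = true :=
  ⟨(l 5), by decide +kernel⟩

theorem c_pp_213 : CertNX 0 536870912 536870912 536870912 1046898278 26843546 3 true true true .pnn 2 1 3
    ndN0q2 ndN1q1 pcN3 Cut.none Ext.none :=
  certNX0 (fam := true) (s1 := true) (s2 := true) (a := 2) (b := 1) (c := 3) (cn := .pnn) (n1 := ndN0q2) (n2 := ndN1q1) (pc := pcN3) (cut := Cut.none) (xt := Ext.none) (P1 := 0) (W1 := 536870912) (P2 := 536870912) (W2 := 536870912) (P3 := 1046898278) (W3 := 26843546) (N0 := 3)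
    rfl k0_pp_213

noncomputable def f_pm_001 : ℕ → ℕ → ℕ → ℕ → Bool := onCell 0 536870912 67108864 469762048 1046898278 26843546
    (rowNX 3 0 true true false .up 0 0 1 (qsf 0 536870912 67108864 469762048 1) ndN0q0 ndN1q0 pcN1 Cut.none Ext.none)

def k0_pm_001 : ∃ t, chk3 f_pm_001 t 1 1 1 = true :=
  ⟨(l 3), by decide +kernel⟩

theorem c_pm_001 : CertNX 0 536870912 67108864 469762048 1046898278 26843546 3 true true false .up 0 0 1
    ndN0q0 ndN1q0 pcN1 Cut.none Ext.none :=
  certNX0 (fam := true) (s1 := true) (s2 := false) (a := 0) (b := 0) (c := 1) (cn := .up) (n1 := ndN0q0) (n2 := ndN1q0) (pc := pcN1) (cut := Cut.none) (xt := Ext.none) (P1 := 0) (W1 := 536870912) (P2 := 67108864) (W2 := 469762048) (P3 := 1046898278) (W3 := 26843546) (N0 := 3)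
    rfl k0_pm_001

noncomputable def f_pm_011 : ℕ → ℕ → ℕ → ℕ → Bool := onCell 0 536870912 536870912 536870912 1046898278 26843546
    (rowNX 3 1 true true false .pnn 0 1 1 (qsf 0 536870912 536870912 536870912 1) ndN0q0 ndN1q1 pcN1 Cut.none Ext.none)

def k0_pm_011 : ∃ t, chk3 f_pm_011 t 1 1 1 = true :=
  ⟨(l 3), by decide +kernel⟩

theorem c_pm_011 : CertNX 0 536870912 536870912 536870912 1046898278 26843546 3 true true false .pnn 0 1 1
    ndN0q0 ndN1q1 pcN1 Cut.none Ext.none :=
  certNX1 (fam := true) (s1 := true) (s2 := false) (a := 0) (b := 1) (c := 1) (cn := .pnn) (n1 := ndN0q0) (n2 := ndN1q1) (pc := pcN1) (cut := Cut.none) (xt := Ext.none) (P1 := 0) (W1 := 536870912) (P2 := 536870912) (W2 := 536870912) (P3 := 1046898278) (W3 := 26843546) (N0 := 3)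
    rfl (fun _ => rfl) k0_pm_011

noncomputable def f_pm_012 : ℕ → ℕ → ℕ → ℕ → Bool := onCell 1073741824 536870912 536870912 536870912 1046898278 26843546
    (rowNX 3 2 true true false .pnp 0 1 2 (qsf 0 536870912 536870912 536870912 2) ndN0q0 ndN1q1 pcN2 Cut.none Ext.none)

def k0_pm_012 : ∃ t, chk3 f_pm_012 t 4 1 1 = true :=
  ⟨(a (l 3) (b (l 3) (a (l 3) (b (l 3) (b (l 3) (a (b (l 3) (b (l 3) (a (l 3) (a (b (l 3) (c (c (l 16487880) (l 16484544)) (l 16395600))) (c (b (a (l 16568096) (l 16590728)) (c (l 16487000) (l 16505896))) (b (a (l 16566048) (l 16589136)) (c (l 16503816) (l 16501728)))))))) (b (b (a (l 3) (a (l 3) (c (c (l 16345288) (l 16338760)) (c (l 16332112) (l 16325344))))) (a (a (l 3) (c (c (l 16457088) (l 16452984)) (c (l 16448792) (l 16444496)))) (c (c (a (b (l 16405728) (l 16421304)) (l 16370200)) (a (l 16408424) (l 16364488))) (c (a (l 16403408) (l 16358664)) (a (l 16398288) (l 16352720)))))) (a (c (b (c (a (l 16519336) (l 16473912)) (a (l 16517080) (l 16491808))) (a (b (c (l 16556248)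 (l 16554896)) (c (l 16540672) (l 16539712))) (c (b (l 16531080) (l 16518592)) (b (l 16528912) (l 16517112))))) (b (c (a (l 16535728) (l 16488656)) (a (l 16533320) (l 16485408))) (c (a (b (l 16574448) (l 16538752)) (l 16479016)) (a (b (l 16572968) (l 16558776)) (l 16498016))))) (c (b (c (a (l 16429080) (b (l 16395512) (l 16415784))) (a (l 16446160) (l 16400688))) (a (c (b (l 16484968) (l 16493192)) (b (l 16481968) (l 16490888))) (c (b (a (l 16450424) (l 16430032)) (a (l 16482696) (l 16469560))) (b (l 16395920) (a (l 16479840) (l 16466488)))))) (b (c (a (l 16442176) (l 16395880)) (a (l 16438096) (l 16390968))) (a (c (b (l 16478888) (l 16509480)) (l 16450416)) (c (b (l 16433992) (a (l 16476904) (l 16463328))) (b (l 16430032) (l 16446256)))))))))))))), by decide +kernel⟩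

def k1_pm_012 : ∃ t, chk3 f_pm_012 t 5 2 1 = true :=
  ⟨(b (b (l 2) (a (a (a (l 3) (l 2)) (l 2)) (l 2))) (a (a (a (l 3) (a (l 3) (a (b (b (b (l 2) (l 3)) (l 3)) (l 3)) (a (a (b (c (c (l 1691311144871) (l 1809959616423)) (b (l 16777208) (l 3))) (l 3)) (b (c (c (b (l 16777216) (l 16777216)) (b (l 16777216) (l 16777216))) (c (a (l 16777216) (l 16777216)) (l 1186652487607))) (b (l 3) (c (l 16777216) (l 16777216))))) (a (a (a (b (c (c (l 16777216) (l 16777216)) (c (l 16777216) (l 16777216))) (c (b (l 16777216) (l 16777216)) (b (l 16777216) (l 16777216)))) (a (b (c (c (l 16777216) (l 16777216)) (c (l 16777216) (l 16777216))) (c (b (l 16777216) (l 16777216)) (b (l 16777216) (l 16777216)))) (b (c (c (b (l 16777216) (l 16777216)) (b (l 16777216) (l 16777216))) (c (b (l 16777216) (l 16777216)) (b (l 16777216) (l 16777216)))) (c (b (c (l 16777216) (l 16777216)) (c (l 16777216) (l 16777216))) (b (c (l 16777216) (l 16777216)) (c (l 16777216) (l 16777216))))))) (b (c (l 16777216) (l 16777216)) (c (b (l 16777216)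 (l 16777216)) (l 16777216)))) (b (c (l 16777216) (l 16777216)) (c (b (l 16777216) (l 16777216)) (l 16777216)))))))) (b (c (c (l 16777216) (l 16777216)) (c (l 16777216) (l 16777216))) (c (c (l 16777216) (l 16777216)) (c (l 16777216) (l 16777216))))) (b (b (l 2) (c (l 16777216) (l 16777216))) (c (c (l 16777216) (l 16777216)) (c (l 16777216) (l 16777216)))))), by decide +kernel⟩

def k2_pm_012 : ∃ t, chk3 f_pm_012 t 40 6 1 = true :=
  ⟨(b (l 3) (l 3)), by decide +kernel⟩

def k3_pm_012 : ∃ t, chk3 f_pm_012 t 80 7 1 = true :=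
  ⟨(b (b (l 3) (c (a (b (l 3) (c (l 16289520) (l 16281600))) (c (b (l 16244976) (c (l 16252048) (l 16247744))) (b (l 16235912) (l 16241232)))) (b (c (l 16246600) (l 16237624)) (c (a (l 16273552) (l 16232424)) (l 16223488))))) (c (b (a (c (b (l 16303896) (l 16327416)) (b (l 16296584) (l 16320904))) (c (b (l 16262920) (a (l 16295400) (l 16274816))) (b (l 16254840) (a (l 16288296) (l 16267328))))) (a (b (c (b (l 16351408) (a (l 16382712) (l 16363560))) (b (l 16345624) (a (l 16377688) (l 16358192)))) (a (b (c (l 16412424) (l 16408136)) (l 16458944)) (l 16425392))) (b (a (c (b (l 16320440) (l 16349624)) (b (l 16314088) (l 16344016))) (b (c (b (l 16295656) (l 16311632)) (l 16297104)) (l 16340712))) (l 16373272)))) (b (a (c (b (l 16289152) (l 16314280)) (b (l 16281584) (l 16307520))) (c (b (l 16246624) (l 16271056)) (b (l 16238264) (l 16263504)))) (a (b (c (b (l 16339720) (l 16322288)) (b (l 16333696) (l 16358832))) (b (a (c (l 16403752) (l 16399248)) (l 16391608)) (l 16448104))) (b (c (b (a (l 16307608)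 (l 16290320)) (a (l 16338288) (l 16332040))) (b (l 16251800) (l 16329016))) (l 16406960)))))), by decide +kernel⟩

def k4_pm_012 : ∃ t, chk3 f_pm_012 t 81 7 1 = true :=
  ⟨(b (b (c (a (b (l 3) (c (b (l 16299320) (l 16188888)) (l 16235960))) (c (b (l 16413800) (l 16261464)) (b (l 16407464) (l 16252464)))) (a (c (l 16198912) (l 16316888)) (c (l 16280320) (l 16314368)))) (c (a (c (b (l 16186184) (l 16210712)) (b (l 16197376) (l 16201304))) (c (b (a (l 16158704) (l 16163624)) (l 16171728)) (b (b (l 16164656) (l 16159104)) (l 16161568)))) (a (c (b (l 16187448) (l 16191736)) (l 16178848)) (c (b (l 16151592) (l 16151256)) (b (l 16140832) (l 16140768)))))) (b (c (a (b (c (l 16222112) (l 16213256)) (c (a (b (l 16246776) (b (l 16257680) (l 16268648))) (b (l 16228856) (l 16253504))) (a (b (l 16238664) (l 16256368)) (b (l 16220408) (l 16245736))))) (b (c (a (b (l 16188248) (l 16197664)) (b (l 16170000) (a (l 16164672) (l 16182968)))) (a (l 16184560) (b (l 16160064) (l 16174928)))) (a (b (c (l 16216376) (l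 16207704)) (l 16246864)) (l 16227080)))) (a (b (c (l 16204256) (l 16195104)) (c (b (l 16222840) (a (l 16248632) (l 16237824))) (a (l 16233128) (l 16195720)))) (b (c (a (l 16175024) (b (l 16149968) (l 16165304))) (a (l 16165320) (l 16148864))) (a (c (l 16215856) (l 16207312)) (l 16210312))))) (a (c (b (l 16311736) (l 16363544)) (b (l 16298904) (l 16397008))) (c (b (l 16305576) (l 16358000)) (b (l 16292648) (l 16391400)))))), by decide +kernel⟩

def k5_pm_012 : ∃ t, chk3 f_pm_012 t 41 12 1 = true :=
  ⟨(a (l 3) (b (a (l 3) (a (c (a (l 16777176) (c (l 16777176) (l 16777176))) (a (l 16777176) (c (l 16777176) (l 16777176)))) (a (a (a (c (l 16777176) (l 16777168)) (a (c (l 16777176) (l 16777168)) (c (c (l 16777176) (l 16777176)) (c (l 16777176) (l 16777168))))) (l 16777176)) (l 16777176)))) (a (c (c (l 16727200) (l 16726688)) (a (l 16746880) (l 16725912))) (a (c (a (l 16747912) (c (l 16748160) (l 16747656))) (a (l 16746888) (c (l 16747144) (l 16746616)))) (a (a (a (c (l 16747904) (l 16746880)) (a (c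 (l 16747904) (l 16746880)) (c (c (l 16727192) (l 16726680)) (c (l 16747136) (l 16746616))))) (l 16726424)) (l 16726424)))))), by decide +kernel⟩

def k6_pm_012 : ∃ t, chk3 f_pm_012 t 41 13 1 = true :=
  ⟨(b (a (a (l 3) (c (c (l 16693136) (l 16691672)) (a (l 16689416) (l 16689432)))) (c (a (a (l 16692424) (c (l 16693160) (l 16691696))) (a (a (l 16692416) (a (l 16692400) (l 16692392))) (a (a (a (c (l 16694984) (l 16693560)) (a (b (l 16706392) (l 16661968)) (a (a (b (l 16707104) (l 16687056)) (b (l 16707648) (l 16690480))) (l 16698944)))) (l 16698880)) (l 16698712)))) (a (a (l 16689448) (l 16689456)) (a (a (l 16689440) (a (l 16689424) (l 16689416))) (a (a (a (l 16691376) (a (c (l 16693808) (l 16692376)) (a (a (l 16694440) (b (l 16705216) (l 16687560))) (l 16696256)))) (l 16696192)) (l 16696016)))))) (b (a (a (c (l 16650024) (l 16645560)) (c (c (l 16651184) (l 16648984)) (l 16624656))) (a (c (a (l 16650112) (l 16650096)) (a (l 16645648) (l 16645632))) (a (a (c (l 16650064) (l 16645600)) (c (a (l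 16651384) (c (l 16656064) (l 16653968))) (a (l 16646976) (l 16650768)))) (a (a (a (c (l 16662656) (l 16658744)) (c (l 16674224) (l 16670856))) (l 16679000)) (l 16678432))))) (a (a (c (c (l 16566040) (l 16562360)) (l 16556728)) (c (c (l 16566128) (l 16562448)) (c (l 16558712) (l 16554920)))) (a (c (a (c (l 16566128) (l 16562448)) (c (l 16566728) (l 16563064))) (a (l 16556816) (c (l 16559336) (l 16555560)))) (a (a (c (c (l 16528432) (l 16566784)) (c (l 16563136) (l 16559440))) (b (a (c (l 16608368) (l 16602488)) (l 16616832)) (l 16545312))) (c (a (a (a (l 16596968) (l 16566080)) (l 16614088)) (l 16613296)) (l 16513816))))))), by decide +kernel⟩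

def k7_pm_012 : ∃ t, chk3 f_pm_012 t 82 7 1 = true :=
  ⟨(b (c (b (a (c (b (l 16413928) (l 16261560)) (l 16225280)) (c (a (l 16295896) (b (l 16413992) (l 16262328))) (a (l 16330176) (l 16289200)))) (a (b (c (b (a (l 16156744) (l 16150336)) (l 16131944)) (b (l 16144368) (l 16120800))) (c (a (l 16123480) (b (l 16124608) (c (l 16115184) (l 16109832)))) (a (l 16133776) (b (l 16113472) (l 16122688))))) (a (b (b (c (l 16147576) (l 16136592)) (c (a (l 16109088) (l 16082440)) (l 16096248))) (b (a (c (l 16114320) (l 16102992)) (l 16109264)) (l 16129368))) (b (b (c (a (l 16148928) (l 16153032)) (l 16141192)) (a (c (l 16081552) (l 16090824)) (l 16102816))) (l 16122872))))) (b (a (c (l 16322360) (l 16314464)) (c (a (l 16322400) (l 16323384)) (l 16169448))) (a (b (c (l 16081600) (l 16112256)) (c (a (l 16122936) (b (l 16102168) (l 16111728))) (a (l 16111920) (l 16096856)))) (a (b (b (l 16119800) (c (l 16084472) (l 16072512))) (c (l 16101312) (l 16089912))) (b (c (b (l 16130144) (l 16082664)) (b (l 16118920)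 (l 16070688))) (l 16100688)))))) (a (b (c (b (a (b (c (c (l 16138400) (l 16154328)) (l 16146680)) (l 16178136)) (l 16164640)) (l 16226640)) (b (a (b (c (l 16136344) (l 16125840)) (l 16158896)) (l 16144736)) (l 16209968))) (c (b (l 16303976) (l 16377336)) (b (l 16291136) (l 16389864)))) (b (c (b (c (l 16173872) (l 16164224)) (l 16230544)) (b (l 16149448) (l 16214184))) (c (b (l 16286176) (l 16379672)) (b (l 16294600) (l 16392448)))))), by decide +kernel⟩

def k8_pm_012 : ∃ t, chk3 f_pm_012 t 83 14 1 = true :=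
  ⟨(a (c (b (b (a (c (l 16413952) (l 16407616)) (a (c (l 16416576) (l 16410296)) (c (l 16379792) (l 16415568)))) (a (c (a (l 16264832) (b (l 16302568) (l 16236832))) (a (l 16255912) (l 16260880))) (a (c (l 16280432) (l 16271832)) (l 16290632)))) (a (b (b (l 16165760) (l 16116144)) (l 16129288)) (b (l 16164112) (l 16134952)))) (b (b (a (l 16397928) (c (a (l 16403920) (l 16409304)) (l 16380832))) (a (c (a (l 16246856) (l 16251928)) (l 16241696)) (a (c (l 16263104) (l 16254240)) (l 16273784)))) (b (a (l 16119264) (l 16142984)) (l 16112208)))) (a (b (a (b (c (l 16432464) (l 16420520)) (c (l 16305600) (l 16289392))) (c (b (l 16451552) (l 16323656)) (l 16374128))) (b (c (a (l 16182488) (l 16199208)) (l 16173368)) (c (a (l 16138776) (c (l 16150280) (l 16139920))) (a (l 16117440) (l 16124072))))) (a (a (a (b (c (l 16359480) (l 16388760)) (b (c (l 16211848) (l 16192776)) (c (l 16150944) (l 16130176)))) (a (b (c (l 16345840) (l 16396424)) (b (c (l 16218528) (l 16199736)) (c (l 16155424) (l 16134856))))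 (b (c (b (l 16479808) (l 16350456)) (l 16360968)) (b (c (c (l 16228744) (l 16219608)) (l 16205640)) (c (c (b (l 16137448) (l 16150224)) (l 16154528)) (a (l 16139488) (l 16141384))))))) (b (c (l 16396424) (l 16405448)) (b (c (l 16226176) (l 16207728)) (c (l 16158872) (l 16138464))))) (b (c (l 16374240) (l 16404184)) (b (c (l 16224496) (l 16205976)) (c (l 16151384) (l 16130680))))))), by decide +kernel⟩

def k9_pm_012 : ∃ t, chk3 f_pm_012 t 83 15 1 = true :=
  ⟨(a (b (c (b (a (l 16176280) (l 16179248)) (a (l 16236736) (l 16236672))) (b (a (l 16157080) (l 16160256)) (a (l 16220760) (l 16220760)))) (c (a (b (l 16312160) (l 16404296)) (b (l 16308656) (l 16396920))) (a (b (l 16299944) (l 16396376)) (b (l 16296376) (l 16388784))))) (a (b (c (b (a (l 16180192) (c (l 16188344) (l 16179136))) (a (l 16234432) (l 16235480))) (b (a (l 16161288) (l 16165032)) (a (l 16218488) (l 16219624)))) (c (a (b (l 16302848) (l 16387088)) (b (l 16301048) (l 16382080))) (a (l 16228280) (b (l 16288552) (l 16373448))))) (b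 (c (a (b (a (a (l 16187688) (a (l 16191280) (c (b (l 16189024) (l 16209744)) (l 16190152)))) (l 16192816)) (a (a (l 16237560) (a (l 16240280) (a (a (l 16242696) (l 16244264)) (l 16244448)))) (l 16240512))) (b (l 16183064) (l 16230048))) (a (b (a (a (l 16169168) (a (l 16172912) (l 16176424))) (l 16174536)) (a (a (l 16221816) (a (l 16224656) (c (l 16231344) (l 16223456)))) (l 16224920))) (b (l 16164392) (l 16214040)))) (c (a (b (a (a (l 16301024) (a (l 16302752) (a (a (l 16304520) (l 16305728)) (l 16305720)))) (l 16301504)) (a (a (l 16379664) (a (l 16380264) (a (a (l 16381304) (l 16382088)) (l 16381864)))) (l 16377352))) (b (l 16290288) (l 16365336))) (a (a (a (l 16265512) (a (l 16245776) (b (c (l 16295368) (l 16289088)) (b (l 16350696) (l 16373696))))) (l 16306552)) (l 16294488)))))), by decide +kernel⟩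

def k10_pm_012 : ∃ t, chk3 f_pm_012 t 21 3 1 = true :=
  ⟨(b (b (c (b (l 16777176) (l 16747904)) (b (l 16777168) (l 16746880))) (b (c (b (l 16707240) (l 16684736)) (l 16672456)) (b (c (l 16668976) (l 16665384)) (c (l 16576136) (l 16591120))))) (b (b (c (c (b (l 16461968) (l 16326840)) (l 16303936)) (b (l 16448616) (l 16307672))) (c (b (c (l 16194048) (l 16184216)) (a (a (b (l 16126024) (l 16104152)) (b (l 16100384) (l 16042736))) (l 16038880))) (b (l 16169168) (a (b (l 16091648) (a (l 16081744) (l 16017872))) (l 16013640))))) (b (c (b (b (a (a (l 16116048) (l 16020032)) (a (l 15957440) (l 15929512))) (a (l 16082448) (a (l 15933872) (l 15870072)))) (a (c (l 16117960) (l 16107792)) (a (l 15952264) (b (l 15845616) (l 15855032))))) (b (a (c (l 16058584) (l 16046920)) (b (l 15915848) (a (l 15905400) (l 15839000)))) (a (l 16008336) (c (l 15879992) (l 15865192))))) (c (b (a (c (l 16168992) (l 16160256)) (c (l 15942512) (l 15929280))) (a (l 16083864) (l 15964208))) (b (a (l 16146848) (l 15909016)) (a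 (l 16174320) (l 15961152))))))), by decide +kernel⟩

def k11_pm_012 : ∃ t, chk3 f_pm_012 t 11 3 1 = true :=
  ⟨(b (b (c (b (l 16777176) (l 16747904)) (b (l 16777168) (l 16746880))) (b (c (a (l 16693096) (l 16692392)) (l 16647840)) (a (c (b (l 16654384) (l 16573152)) (l 16524232)) (c (l 16523288) (l 16559264))))) (b (a (c (b (b (l 16424864) (l 16276896)) (c (l 15958696) (l 16051240))) (b (l 16315096) (c (l 16038744) (l 16026064)))) (c (b (l 16333728) (l 16006104)) (b (l 16318168) (l 16000744)))) (a (b (c (b (c (l 15850728) (l 15834736)) (a (a (b (l 15780568) (l 15755192)) (l 15657504)) (l 15679872))) (b (l 15810288) (a (b (l 15731312) (l 15690304)) (l 15641576)))) (c (b (a (a (l 15771024) (l 15666688)) (a (b (l 15594896) (l 15567600)) (l 15531168))) (a (l 15750112) (c (l 15537880) (l 15516848)))) (b (a (c (l 15692480) (l 15674344)) (a (l 15544416) (l 15487600))) (a (l 15716624) (l 15484664))))) (b (c (c (l 15735720) (l 15717552)) (l 15647824)) (c (a (b (l 15509384) (a (b (l 15410672) (l 15382248))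 (l 15374288))) (l 15439536)) (a (b (l 15464888) (a (l 15352800) (l 15325080))) (l 15392584))))))), by decide +kernel⟩

def k12_pm_012 : ∃ t, chk3 f_pm_012 t 3 1 1 = true :=
  ⟨(b (a (b (l 2) (b (l 2) (a (a (b (l 2) (l 16777216)) (l 2)) (l 2)))) (l 2)) (b (a (a (b (b (c (l 16777176) (l 16777168)) (c (l 16747904) (l 16746880))) (b (c (l 16692392) (l 16689416)) (c (b (l 16650024) (l 16564152)) (l 16517320)))) (b (b (l 2) (c (l 16747904) (l 16746880))) (b (c (l 16692392) (l 16689416)) (c (l 16586200) (l 16601200))))) (a (b (l 2) (b (l 2) (c (l 16607168) (l 16601200)))) (l 2))) (a (b (a (c (b (l 16333712) (l 16027032)) (b (l 16318144) (l 16000704))) (c (b (l 16333712) (l 16027032)) (b (l 16318144) (l 16000704)))) (a (c (b (a (l 15726584) (l 15726584)) (a (l 15439536) (l 15439536))) (b (l 15647760) (c (l 15404488) (l 15380656)))) (c (b (l 15726584) (l 15439536)) (b (l 15689704) (l 15392584))))) (b (c (a (b (l 16333712) (l 16027032)) (b (l 2) (l 16027032))) (a (b (l 16318144) (l 16000704)) (l 16033616)))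 (c (a (b (l 15726584) (l 15439536)) (l 15435384)) (a (l 15477328) (l 15540240))))))), by decide +kernel⟩

theorem s13_pm_012 : ∃ t, chk3 f_pm_012 t 83 7 1 = true := ex3_b k8_pm_012 k9_pm_012

theorem s14_pm_012 : ∃ t, chk3 f_pm_012 t 41 7 1 = true := ex3_a k7_pm_012 s13_pm_012

theorem s15_pm_012 : ∃ t, chk3 f_pm_012 t 41 6 1 = true := ex3_b k5_pm_012 k6_pm_012

theorem s16_pm_012 : ∃ t, chk3 f_pm_012 t 41 3 1 = true := ex3_b s15_pm_012 s14_pm_012

theorem s17_pm_012 : ∃ t, chk3 f_pm_012 t 40 7 1 = true := ex3_a k3_pm_012 k4_pm_012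

theorem s18_pm_012 : ∃ t, chk3 f_pm_012 t 40 3 1 = true := ex3_b k2_pm_012 s17_pm_012

theorem s19_pm_012 : ∃ t, chk3 f_pm_012 t 20 3 1 = true := ex3_a s18_pm_012 s16_pm_012

theorem s20_pm_012 : ∃ t, chk3 f_pm_012 t 10 3 1 = true := ex3_a s19_pm_012 k10_pm_012

theorem s21_pm_012 : ∃ t, chk3 f_pm_012 t 5 3 1 = true := ex3_a s20_pm_012 k11_pm_012

theorem s22_pm_012 : ∃ t, chk3 f_pm_012 t 5 1 1 = true := ex3_b k1_pm_012 s21_pm_012

theorem s23_pm_012 : ∃ t, chk3 f_pm_012 t 2 1 1 = true := ex3_a k0_pm_012 s22_pm_012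

theorem s24_pm_012 : ∃ t, chk3 f_pm_012 t 1 1 1 = true := ex3_a s23_pm_012 k12_pm_012

theorem c_pm_012 : CertNX 0 536870912 536870912 536870912 1046898278 26843546 3 true true false .pnp 0 1 2
    ndN0q0 ndN1q1 pcN2 Cut.none Ext.none :=
  certNX2 (fam := true) (s1 := true) (s2 := false) (a := 0) (b := 1) (c := 2) (cn := .pnp) (n1 := ndN0q0) (n2 := ndN1q1) (pc := pcN2) (cut := Cut.none) (xt := Ext.none) (P1 := 0) (W1 := 536870912) (P2 := 536870912) (W2 := 536870912) (P3 := 1046898278) (W3 := 26843546) (N0 := 3)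
    rfl (fun _ => rfl) s24_pm_012

end Pool.Agent.Strip051.G.IE1.Tab.C.NA01

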