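import Pool.Agent.Strip051.G.IE1.Tab

/-! # Certificates N12 (generated) -/

set_option linter.all false
set_option maxRecDepth 100000

namespace Pool.Agent.Strip051.G.IE1.Tab.C.NA01

open Pool.Agent.Strip051.PB Pool.Agent.Strip051.PB.T
open Pool.Agent.Strip051.G.IE1.Tab

noncomputable def f_pm_022_a : ℕ → ℕ → ℕ → ℕ → Bool := onCell 0 536870912 0 420477299 1046898278 26843546
    (rowNX 3 0 true true false .pp 0 2 2 (qsf 0 536870912 0 420477299 2) ndN0q0 ndN1q2a pcN2 Cut.none Ext.none)

def k0_pm_022_a : ∃ t, chk3 f_pm_022_a t 8 4 1 = true :=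
  ⟨(a (c (a (b (l 15696368) (l 15795168)) (c (b (l 15372688) (l 15462856)) (b (a (l 15441336) (l 15231736)) (a (l 15535208) (l 15153928))))) (a (a (c (l 15718000) (c (b (l 15759376) (l 15864464)) (a (c (l 15837912) (b (l 15795600) (l 15902936))) (b (l 15700168) (l 15805224))))) (c (b (l 15593568) (l 15672248)) (c (b (a (l 15561672) (l 15548728)) (a (l 15475000) (l 15648792))) (l 15631432)))) (c (c (a (b (l 15441832) (l 15537048)) (b (l 15101632) (a (l 15430520) (l 15342360)))) (a (b (a (l 15482440) (l 15396912)) (a (l 15579568) (l 15492040))) (l 15308304))) (b (l 15322776) (l 15418248))))) (c (a (a (c (b (l 15170496) (l 15254920)) (c (b (l 15182352) (l 15268008)) (b (l 14985304) (a (l 15287816) (l 15182408))))) (c (c (l 15020632) (b (l 15061456) (l 15142448))) (c (b (a (l 15068576) (l 14961336)) (a (l 15151320) (l 15042144))) (l 15018224)))) (c (a (c (b (l 14946208) (l 15022632)) (b (a (l 14942776) (l 14833408)) (a (l 15020896) (l 14909616)))) (c (b (c (l 14749688) (l 14742352)) (a (l 14896384) (l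 14784592))) (l 14759392))) (b (l 14762000) (l 14838336)))) (b (a (l 15012400) (l 14709944)) (a (l 15098952) (l 14788496))))), by decide +kernel⟩

def k1_pm_022_a : ∃ t, chk3 f_pm_022_a t 16 5 1 = true :=
  ⟨(a (c (b (l 15836528) (a (b (a (l 16168704) (l 16231152)) (a (l 16370720) (b (l 16351352) (l 16398464)))) (l 16024904))) (b (c (a (l 16065936) (l 15736936)) (a (c (l 15979840) (a (c (l 16109080) (a (l 16067736) (l 16079592))) (l 15858024))) (c (a (c (l 15930280) (l 15929048)) (l 15840480)) (l 15872200)))) (a (c (b (a (l 16184976) (l 16224216)) (a (l 16367344) (b (l 16347752) (l 16395792)))) (b (c (a (l 16203696) (l 16225872)) (a (c (b (l 16281448) (l 16345280)) (a (b (l 16304400) (l 16360096)) (l 16293416))) (c (l 16160792) (l 16224248)))) (c (a (l 16365760) (b (l 16351104) (l 16306720))) (a (a (l 16353672) (c (l 16381984) (l 16273168))) (a (b (l 16179720) (l 16280456)) (l 16224336)))))) (c (c (l 16043072) (l 15966608)) (c (c (b (l 15854784) (a (l 16310560) (l 16190736))) (a (l 16036096) (l 16122176)))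 (l 16063136)))))) (c (a (b (l 15720048) (l 15888448)) (b (c (l 15556328) (c (l 15564440) (l 15502752))) (c (l 15819216) (c (l 15831072) (l 15625104))))) (c (a (c (b (l 15720696) (l 15853600)) (b (a (l 15703552) (l 15675928)) (a (l 15820120) (l 15851376)))) (b (c (a (l 15609696) (l 15518544)) (l 15528824)) (c (c (l 15588664) (l 15699624)) (l 15803080)))) (b (l 15603200) (l 15801512))))), by decide +kernel⟩

def k2_pm_022_a : ∃ t, chk3 f_pm_022_a t 17 5 1 = true :=
  ⟨(c (a (c (b (a (l 15420992) (c (l 15299712) (l 15303496))) (a (l 15676096) (c (l 15545872) (l 15468112)))) (a (c (b (l 15436464) (l 15632296)) (b (a (l 15459368) (l 15351008)) (a (l 15617712) (l 15610232)))) (a (c (b (l 15315384) (l 15484344)) (l 15306816)) (b (l 15192456) (l 15442552))))) (c (a (b (c (l 15134464) (a (l 15177600) (l 15063424))) (c (l 15309984) (a (l 15336384) (l 15302208)))) (a (c (b (l 15024888) (l 15194632)) (l 15015384)) (b (l 14919048) (l 15148952)))) (b (l 14992896) (l 15233104)))) (b (a (l 15270072) (l 14947512))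 (a (l 15428576) (l 15194624)))), by decide +kernel⟩

def k3_pm_022_a : ∃ t, chk3 f_pm_022_a t 9 2 1 = true :=
  ⟨(a (b (a (a (b (a (c (b (l 14601584) (l 14616800)) (l 14536144)) (b (l 14565816) (l 14566008))) (c (a (l 14678136) (b (l 14591912) (l 14642776))) (b (l 14559232) (l 14600584)))) (b (l 14642952) (c (l 14680048) (l 14606248)))) (c (l 14919696) (l 14854320))) (a (a (b (c (l 14788056) (l 14719008)) (c (l 15014296) (l 14953928))) (b (b (a (c (l 14665376) (l 14591144)) (l 14681144)) (a (l 14697672) (c (l 14738240) (l 14666552)))) (b (c (l 14830184) (l 14762152)) (l 14929144)))) (b (l 14781640) (a (b (a (c (l 14825064) (l 14756440)) (l 14845336)) (a (l 14892184) (c (l 14922088) (l 14856920)))) (b (l 14967056) (c (l 15000744) (l 14938216))))))) (b (c (a (l 15234792) (l 15520152)) (l 15329360)) (c (a (l 15233992) (l 15519392)) (a (l 15179648) (l 15475072))))), by decide +kernel⟩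

def k4_pm_022_a : ∃ t, chk3 f_pm_022_a t 5 2 1 = true :=
  ⟨(a (c (b (a (l 15811928) (l 16168864)) (a (l 15811224) (l 16084352))) (b (a (l 15777920) (l 16147432)) (a (l 15777184) (l 16146784)))) (a (b (l 16412760) (c (l 16438048) (l 16491232))) (c (a (l 16710216) (l 16776592)) (a (l 16729560) (l 16776568))))), by decide +kernel⟩

def k5_pm_022_a : ∃ t, chk3 f_pm_022_a t 32 6 1 = true :=
  ⟨(c (b (a (l 16199288) (b (a (b (l 16400976) (l 16391408)) (l 16221992)) (l 16258200))) (l 16151240)) (b (a (c (l 16194840) (c (b (l 16367712) (l 16318584)) (a (c (l 16307088) (l 16158008)) (b (c (l 16358712) (l 16401936)) (l 16282048))))) (c (b (a (b (l 16372648) (l 16383536)) (a (l 16281672) (l 16384768))) (a (l 16421056) (a (l 16389872) (b (l 16355712) (l 16383000))))) (c (b (a (c (b (l 16322200) (l 16374776)) (b (a (l 16364240) (l 16387584)) (l 16373128))) (b (l 16362736) (a (l 16257272) (l 16398104)))) (a (c (l 16429872) (l 16430848)) (b (a (l 16361152) (l 16345128)) (l 16390128)))) (b (a (b (l 16387336) (l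 16376824)) (l 16294272)) (l 16306448))))) (c (a (l 16223416) (l 16158680)) (a (c (l 16159624) (a (c (l 16183688) (l 16012920)) (a (l 16106944) (l 16278392)))) (c (a (c (l 16338024) (l 16275536)) (l 16308136)) (l 16367112)))))), by decide +kernel⟩

def k6_pm_022_a : ∃ t, chk3 f_pm_022_a t 33 6 1 = true :=
  ⟨(c (b (a (b (l 16177704) (a (b (l 16410864) (l 16372376)) (l 16282528))) (c (l 16015760) (b (l 15944472) (l 16074056)))) (a (b (a (l 16423032) (b (c (l 16369224) (l 16353952)) (l 16381488))) (l 16450648)) (b (a (b (l 16331464) (c (l 16337456) (l 16289640))) (a (l 16230304) (l 16237520))) (a (l 16387208) (b (c (l 16343968) (c (l 16319560) (a (l 16287944) (l 16246944)))) (c (l 16368072) (l 16302296))))))) (b (a (c (b (c (l 16149128) (c (l 16051808) (l 16105552))) (c (a (b (l 16391464) (l 16351704)) (l 16208328)) (a (b (a (l 16251232) (l 16401840)) (a (l 16337592) (c (l 16304896) (l 16342080)))) (l 16182072)))) (b (l 16238792) (b (l 16359720) (a (l 16331728) (l 16394736))))) (c (c (b (a (l 16068616)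 (l 16011776)) (c (l 16071288) (l 16100608))) (l 16036152)) (l 16031152))) (a (c (a (c (l 16457016) (l 16237752)) (b (c (b (a (l 16326640) (l 16275864)) (l 16362400)) (b (a (l 16284552) (l 16336656)) (l 16356088))) (c (l 16443456) (l 16416760)))) (b (b (a (l 16379624) (l 16322048)) (l 16398128)) (l 16478024))) (b (a (c (c (b (l 16205960) (a (l 16263584) (c (l 16281632) (l 16306584)))) (b (l 16394040) (l 16335896))) (b (l 16392064) (l 16311992))) (c (c (l 16174232) (l 16421352)) (l 16398992))) (a (c (c (l 16313000) (l 16386072)) (l 16383696)) (c (b (a (c (l 16259904) (l 16317592)) (l 16277168)) (l 16271856)) (b (l 16322080) (l 16347024)))))))), by decide +kernel⟩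

def k7_pm_022_a : ∃ t, chk3 f_pm_022_a t 17 6 1 = true :=
  ⟨(a (c (b (c (a (l 15946712) (c (l 15888960) (l 15688616))) (a (c (l 15824040) (b (l 15718720) (a (l 16066480) (l 16073624)))) (c (a (l 15689640) (l 15778376)) (l 15825280)))) (c (b (a (l 16323240) (a (l 16208936) (l 16118928))) (a (b (l 16401384) (a (l 16302944) (l 16350560))) (c (l 16470368) (l 16275456)))) (a (b (c (l 16226216) (a (l 16243832) (l 16206024))) (a (b (c (l 16344432) (l 16202688)) (c (l 16285192) (c (l 16239120) (l 16242216)))) (c (l 16191840) (l 16223992)))) (c (a (b (c (l 16224888) (l 16203576)) (l 16299840)) (l 16006792)) (l 16060992))))) (b (a (l 15887552) (l 15807736)) (b (l 16015072) (a (b (l 16321280) (a (a (l 16306496) (l 16305576)) (l 16335928))) (l 16314752))))) (b (c (c (a (c (l 15538488) (a (l 15570512) (l 15636304))) (c (a (l 15436840) (l 15481272)) (l 15500984))) (l 15569440)) (l 15540528)) (c (c (a (c (b (l 15980248) (l 16104960)) (b (l 15775192) (c (l 16057672) (l 16123656)))) (c (a (c (l 16007656) (l 15915680))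 (l 15803568)) (l 15935104))) (l 15784968)) (b (l 15868608) (l 16024072))))), by decide +kernel⟩

def k8_pm_022_a : ∃ t, chk3 f_pm_022_a t 9 6 1 = true :=
  ⟨(a (a (b (c (a (l 15332728) (l 15204728)) (l 15112280)) (a (c (l 15736008) (l 15724736)) (l 15367144))) (a (b (l 15122016) (l 15445992)) (b (b (a (b (l 14966928) (l 15037408)) (b (l 15007376) (l 15033464))) (l 15157280)) (l 15426000)))) (b (a (b (l 15205472) (a (b (a (l 15104552) (l 15165344)) (a (l 15165616) (l 15178584))) (l 15283296))) (c (l 15517808) (l 15473432))) (a (b (a (l 15279464) (b (l 15289896) (a (l 15312800) (l 15331544)))) (c (l 15511712) (l 15467696))) (b (l 15494240) (a (b (l 15422192) (a (l 15475056) (l 15486264))) (l 15550496)))))), by decide +kernel⟩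

def k9_pm_022_a : ∃ t, chk3 f_pm_022_a t 16 28 1 = true :=
  ⟨(c (a (b (l 16207448) (l 16201208)) (a (l 16269680) (c (l 16469768) (b (l 16312160) (l 16337248))))) (a (c (a (l 16123608) (c (l 16269888) (l 16193688))) (a (c (l 16120968) (a (c (l 16079880) (a (l 16057384) (l 16093224))) (c (l 16092312) (l 16155064)))) (c (a (c (l 16240768) (l 16240624)) (l 16276192)) (l 16269776)))) (c (a (c (l 16306336) (c (a (l 16408856) (l 16475984)) (l 16368792))) (c (b (l 16257952) (l 16325096)) (l 16454016))) (l 16408376)))), by decide +kernel⟩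

def k10_pm_022_a : ∃ t, chk3 f_pm_022_a t 32 29 1 = true :=
  ⟨(c (b (b (l 16192176) (a (c (b (a (l 16115864) (l 16186040)) (l 16133264)) (b (l 16037160) (l 16124696))) (a (b (a (c (l 16175560) (l 16231944)) (l 16270592)) (a (c (l 16226368) (l 16219456)) (l 16218696))) (b (l 16322304) (l 16253352))))) (a (c (c (l 15990520) (l 16027576)) (c (l 16064600) (l 16059656))) (b (a (a (l 16136816) (b (c (l 16211648) (l 16225816)) (l 16179056))) (c (b (l 16288192) (l 16236872)) (l 16205352))) (b (a (l 16114200) (a (c (l 16210528) (l 16203448)) (l 16243696))) (a (l 16047648) (a (l 16180144) (c (l 16217120) (l 16211544)))))))) (c (a (b (b (l 16131696) (b (l 16092040) (l 16116272))) (c (l 16054680) (l 16050000))) (b (b (l 16178488) (a (b (l 16186400) (a (l 16214632) (l 16258848))) (c (l 16318632) (l 16306584)))) (a (b (a (l 16169232) (l 16106616)) (l 16137320)) (a (b (l 16238464) (l 16136832)) (b (l 16296728) (a (l 16120912) (l 16203944))))))) (a (a (c (b (l 16039848) (l 16009464)) (b (c (l 16017424) (b (l 16062992)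 (a (l 16015640) (l 16095432)))) (c (l 16007248) (a (l 15963704) (l 16019848))))) (b (c (b (l 16166824) (l 16100128)) (b (l 16114144) (c (a (l 16119688) (l 16186248)) (l 16159624)))) (c (l 16085696) (c (a (l 16063192) (l 16106888)) (l 16081240))))) (b (a (a (c (b (l 16225688) (c (l 16207480) (b (l 16239688) (l 16225880)))) (b (l 16222008) (l 16220736))) (c (c (l 16202440) (l 16225024)) (l 16256056))) (c (c (l 16244136) (l 16315872)) (l 16313688))) (c (b (a (c (l 16113440) (a (l 16180024) (l 16218776))) (c (l 16200224) (l 16271728))) (a (c (l 16141936) (l 16141224)) (a (c (l 16206960) (l 16190288)) (l 16156720)))) (a (l 16096160) (b (l 16269464) (l 16207248)))))))), by decide +kernel⟩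

def k11_pm_022_a : ∃ t, chk3 f_pm_022_a t 33 29 1 = true :=
  ⟨(c (a (b (b (l 16364360) (b (l 16371456) (c (l 16361424) (l 16330424)))) (c (l 16208280) (l 16196824))) (c (b (b (l 16484696) (l 16384200)) (c (l 16385768) (l 16393536))) (b (c (l 16427888) (a (l 16488672) (l 16365456))) (c (l 16390776) (a (l 16490944) (l 16349952)))))) (c (a (c (b (a (l 16360560) (c (l 16492912) (l 16500856))) (l 16188288)) (b (a (c (l 16376144) (l 16345928)) (c (l 16487552) (l 16468640))) (a (c (l 16348968) (l 16297408)) (l 16275248)))) (b (c (c (a (l 16476504) (l 16398664)) (l 16375376)) (l 16472896)) (c (c (a (l 16503984) (l 16426720)) (l 16343272)) (l 16506712)))) (b (b (l 16503776) (l 16318432)) (a (l 16299488) (l 16443368))))), by decide +kernel⟩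

def k12_pm_022_a : ∃ t, chk3 f_pm_022_a t 32 15 2 = true :=
  ⟨(b (c (b (a (c (b (l 16016024) (l 15986648)) (l 15973824)) (b (a (l 16102896) (l 16100208)) (l 16009056))) (c (a (b (l 15965216) (l 15952000)) (l 15966648)) (a (l 15930576) (l 16045248)))) (b (a (c (l 15989104) (l 15983376)) (b (a (l 16093480) (l 16156160)) (l 16063248))) (a (c (l 15945376) (l 15939176)) (c (l 16039920) (l 16035824))))) (c (b (c (a (b (l 15947312) (l 15951440)) (b (l 16024080) (l 16017352))) (a (l 15900168) (l 16014104))) (c (a (b (l 15964696) (l 15987424)) (b (l 16019640) (l 16031288))) (a (b (l 15958496) (l 15981408)) (b (l 16013936) (l 16025656))))) (b (a (c (l 15935784) (l 15929416)) (c (l 16008416) (l 16003960))) (a (c (b (l 15952264) (l 15975344)) (l 15956760)) (c (l 16013240) (l 16008752)))))), by decide +kernel⟩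

def k13_pm_022_a : ∃ t, chk3 f_pm_022_a t 33 15 2 = true :=
  ⟨(b (a (b (a (c (b (a (b (l 16223728) (l 16196680)) (l 16245272)) (a (l 16161920) (b (l 16161184) (l 16178808)))) (b (a (b (l 16220952) (l 16193368)) (l 16246776)) (a (l 16157888) (b (l 16203776) (l 16178960))))) (b (c (l 16302408) (l 16313040)) (c (c (l 16201768) (l 16223112)) (l 16128096)))) (c (b (a (l 16135872) (a (b (l 16143904) (l 16165056)) (b (l 16220104) (a (l 16185408) (l 16201944))))) (c (l 16128992) (l 16126864))) (a (l 16011464) (b (a (l 16096264) (b (l 16231528) (l 16184280))) (l 16138592))))) (c (b (l 16226336) (a (b (l 16265432) (a (b (l 16183488) (l 16182136)) (l 16229880))) (l 16276352))) (a (b (l 16293920) (b (l 16289744) (a (b (l 16222328) (l 16199544)) (l 16255992)))) (c (l 16253168) (c (l 16302976) (l 16278784)))))) (a (c (b (c (b (l 16102856) (l 16085344)) (b (l 16100448) (l 16082728))) (c (b (l 16076728) (l 16077368)) (b (l 16074008) (l 16074616)))) (b (c (l 16090600) (l 16037208)) (c (l 16031280) (a (l 16056696)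 (l 16099224))))) (b (a (c (b (a (l 16157552) (b (l 16129984) (l 16175096))) (l 16144544)) (b (a (l 16174448) (b (l 16176320) (l 16200096))) (l 16166376))) (c (b (b (l 16249368) (a (l 16162496) (l 16242472))) (a (l 16105480) (b (l 16195928) (a (l 16189288) (l 16203040))))) (c (b (l 16175720) (a (l 16194896) (l 16192080))) (b (a (l 16182368) (l 16303504)) (a (l 16227072) (c (l 16264088) (l 16209160))))))) (c (c (b (l 16145944) (l 16135648)) (l 16060128)) (c (b (l 16164568) (l 16154016)) (a (l 16154360) (c (l 16209504) (l 16205168)))))))), by decide +kernel⟩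

def k14_pm_022_a : ∃ t, chk3 f_pm_022_a t 32 15 3 = true :=
  ⟨(c (b (a (b (c (l 15977616) (l 15972144)) (c (l 15932928) (l 15926968))) (b (a (l 16028104) (c (l 16134240) (b (l 16143544) (l 16119872)))) (c (l 16034824) (a (l 16007720) (l 16026568))))) (a (b (c (l 15923000) (l 15916872)) (c (l 15950520) (l 15944568))) (c (b (l 16002592) (l 15986392)) (b (a (l 15980728) (c (l 16031712) (l 16034352))) (a (l 15991192) (c (l 16030752) (l 16033352))))))) (b (a (c (b (a (l 15936296) (l 16001568)) (a (l 15896216) (l 15950312))) (a (b (c (l 15933512) (a (l 15850424) (l 15942968))) (c (l 15893104) (a (c (l 15877472) (l 15875128)) (l 15899504)))) (c (a (b (l 15981176) (l 15911344)) (l 15904328)) (l 15966136)))) (c (a (c (b (l 16073816) (l 16011584)) (b (l 16030808) (l 15926320))) (a (b (l 16083856) (l 15971200)) (b (l 16076088) (l 16083672)))) (b (l 16095720) (l 16027040)))) (a (c (b (a (l 15891664) (l 15913384)) (a (l 15925328) (c (l 15955192) (l 15957440)))) (a (c (b (l 15888456) (l 15922296)) (a (c (l 15890568)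 (b (l 15873288) (l 15910208))) (b (l 15891912) (l 15901944)))) (a (c (c (l 15932720) (b (l 15922800) (l 15947888))) (l 15926272)) (b (l 15942616) (l 15961872))))) (c (a (c (b (l 15984352) (l 15994832)) (b (c (l 15986872) (l 15981288)) (c (l 15997360) (l 15991776)))) (c (b (l 15991088) (c (l 16036648) (l 16029296))) (l 16015368))) (b (l 15993680) (l 15998360)))))), by decide +kernel⟩

def k15_pm_022_a : ∃ t, chk3 f_pm_022_a t 33 15 3 = true :=
  ⟨(b (a (c (c (b (a (b (a (l 16216912) (l 16265624)) (l 16084864)) (a (l 16199976) (l 16334472))) (a (l 16129728) (a (b (l 16202856) (l 16165008)) (b (c (l 16248544) (l 16250184)) (l 16202144))))) (b (b (a (a (c (l 16238096) (l 16147704)) (l 16229368)) (l 16285992)) (a (a (l 16182432) (c (l 16224480) (l 16199784))) (c (l 16186272) (l 16250128)))) (a (c (l 16142840) (l 16132184)) (b (a (c (l 16203536) (l 16178464)) (l 16195128)) (c (l 16173640) (l 16153128)))))) (b (a (b (l 16164744) (l 16131184)) (l 16255584)) (a (l 16111592) (b (l 16065168) (l 16147696)))))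 (a (c (b (c (c (l 16359064) (l 16320120)) (l 16360112)) (a (c (b (l 16285896) (c (l 16245712) (c (l 16232432) (l 16207456)))) (l 16076768)) (c (c (l 16304008) (l 16268240)) (l 16260112)))) (b (l 16356600) (b (l 16264968) (l 16125128)))) (c (c (c (l 16215176) (l 16316432)) (l 16314784)) (l 16248560)))) (c (a (a (c (b (l 16080872) (l 16068680)) (c (b (l 16093592) (l 16081256)) (b (l 16082680) (a (l 16066768) (l 16068960))))) (c (c (l 16062776) (b (l 16146864) (l 16123328))) (c (b (l 16131744) (c (l 16113048) (l 16094768))) (l 16095704)))) (b (a (c (a (c (l 16194656) (l 16174016)) (b (c (l 16228328) (l 16192184)) (l 16144032))) (l 16030848)) (c (c (b (a (l 16184048) (l 16260968)) (a (l 16207488) (l 16190104))) (b (l 16235792) (l 16191616))) (b (l 16233072) (l 16188560)))) (c (c (a (l 16164632) (l 16119472)) (a (l 16082536) (l 16156696))) (l 16137032)))) (b (a (l 16020408) (a (b (l 16165056) (l 16136520)) (b (l 16227608) (a (l 16168064) (l 16194576))))) (c (a (l 16067376) (l 16132376)) (l 16052760))))),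 by decide +kernel⟩

def k16_pm_022_a : ∃ t, chk3 f_pm_022_a t 17 28 1 = true :=
  ⟨(c (a (c (a (b (a (l 16353184) (l 16255136)) (l 16335224)) (a (b (l 16170856) (a (l 16237408) (l 16128880))) (b (l 16270200) (c (l 16221224) (b (l 16269568) (l 16064016)))))) (a (c (b (a (l 16314344) (a (l 16258776) (l 16234648))) (l 16306800)) (a (l 16246848) (b (b (l 16270800) (l 16292664)) (l 16299464)))) (b (c (c (a (l 16236288) (l 16427304)) (l 16195056)) (l 16328096)) (a (c (c (l 16217704) (l 16227328)) (l 16258984)) (c (l 16085888) (l 16280352)))))) (c (c (b (a (l 16376288) (a (l 16259704) (l 16231304))) (a (l 16161256) (a (l 16346560) (l 16366680)))) (a (a (a (l 16139256) (l 16251304)) (l 16295488)) (l 16227352))) (b (l 16226632) (l 16378976)))) (a (a (b (a (l 16342864) (l 16279648)) (l 16333936)) (b (l 16239816) (a (l 16251264) (l 16210168)))) (a (l 16275008) (l 16153768)))), by decide +kernel⟩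

def k17_pm_022_a : ∃ t, chk3 f_pm_022_a t 17 58 1 = true :=
  ⟨(c (a (c (a (l 16335576) (a (l 16222360) (c (l 16150776) (a (l 16143368) (l 16064928))))) (a (c (l 16306728) (a (l 16321824) (l 16299048))) (c (a (l 16211744) (l 16118976)) (l 16216432)))) (c (a (a (a (c (l 16055840) (b (l 16139512) (l 16082784))) (c (l 16032072) (l 16056160))) (c (l 16136224) (l 16205392))) (c (a (l 16129240) (l 16346024)) (l 16387112))) (a (a (l 16173048) (l 16272280)) (l 16384712)))) (a (a (l 16334096) (l 16207520)) (a (a (l 16098640) (l 16263000)) (l 16337904)))), by decide +kernel⟩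

def k18_pm_022_a : ∃ t, chk3 f_pm_022_a t 17 59 1 = true :=
  ⟨(c (a (c (a (b (c (l 16309040) (l 16285664)) (l 16304224)) (c (b (l 16178888) (l 16264648)) (b (a (l 16210176) (c (l 16130328) (l 16147768))) (l 16080840)))) (a (c (c (l 16232864) (a (l 16347400) (l 16277464))) (a (b (c (l 16359416) (l 16384928)) (l 16338528)) (l 16205368))) (c (c (a (l 16204824) (l 16126400)) (a (l 16236352) (l 16221696))) (l 16233656)))) (a (c (a (c (b (b (a (l 16076608) (l 16042584)) (l 16073216)) (l 16127160)) (a (c (l 16113760) (l 16156424)) (b (b (l 16087160) (l 16095824)) (l 16150304)))) (b (c (b (l 16048360) (a (c (a (l 16019256) (l 16014824)) (l 16037704)) (l 16069984))) (b (l 16137712) (a (c (l 16081272) (l 16096120)) (l 16121112)))) (c (a (l 16073336) (b (a (l 16045992) (l 16065048)) (l 16071976))) (a (l 16128648) (b (l 16110536) (l 16123488)))))) (b (a (l 16126776) (b (l 16139840) (a (l 16090216) (l 16116960)))) (a (l 16185408) (l 16044424)))) (b (a (c (c (c (l 16178960) (l 16131160)) (l 16225304)) (l 16220216))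 (b (l 16219584) (b (l 16200088) (c (a (l 16214448) (l 16288648)) (l 16280840))))) (c (c (a (c (l 16119304) (l 16134408)) (l 16229552)) (l 16210544)) (l 16183912))))) (b (a (c (l 16101952) (l 16117224)) (a (a (b (l 16105776) (l 16116408)) (b (l 16126656) (a (l 16075688) (l 16103208)))) (b (l 16285528) (a (l 16181408) (b (l 16296312) (l 16250664)))))) (c (a (l 16255376) (a (l 16087080) (l 16197248))) (a (l 16271936) (a (l 16036520) (l 16189448)))))), by decide +kernel⟩

def k19_pm_022_a : ∃ t, chk3 f_pm_022_a t 34 15 2 = true :=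
  ⟨(c (b (a (b (l 16326856) (c (l 16313088) (l 16316768))) (c (b (l 16286296) (l 16401608)) (c (l 16164080) (a (l 16278384) (l 16262288))))) (a (b (c (a (l 16264608) (l 16349112)) (l 16184992)) (a (b (a (b (c (l 16205384) (l 16215016)) (l 16196264)) (c (l 16186936) (l 16204968))) (c (l 16188352) (l 16182104))) (b (l 16287272) (a (c (b (l 16231480) (l 16214512)) (b (l 16259272) (l 16242128))) (l 16175712))))) (c (c (l 16245104) (l 16244368)) (c (a (l 16318040) (l 16350504)) (a (l 16312744) (l 16346696)))))) (b (a (a (c (l 16316808) (c (l 16339760) (l 16327440))) (c (b (l 16360272) (l 16404040)) (l 16292528))) (c (c (a (l 16314288) (l 16276400)) (l 16211024)) (l 16323952))) (a (b (c (a (l 16272944) (c (l 16409272) (l 16394808))) (a (c (l 16294624) (l 16281440)) (l 16308520))) (c (a (b (a (l 16241200) (l 16242728)) (l 16236648)) (b (l 16295464) (a (c (l 16281808) (b (l 16292032) (l 16274680))) (l 16244080)))) (a (b (c (a (l 16217488) (l 16273840)) (a (l 16219976) (l 16231064))) (c (l 16236600) (l 16201944)))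 (b (l 16290552) (a (c (l 16155000) (l 16214880)) (l 16249408)))))) (c (c (a (l 16292944) (l 16302472)) (c (l 16221112) (l 16273736))) (l 16269208))))), by decide +kernel⟩

def k20_pm_022_a : ∃ t, chk3 f_pm_022_a t 35 15 2 = true :=
  ⟨(b (c (a (c (b (c (l 16133176) (l 16122872)) (c (l 16226320) (l 16216800))) (a (c (l 16233264) (b (l 16283912) (l 16379816))) (c (l 16159328) (l 16296872)))) (b (a (c (b (a (c (l 16091408) (l 16094304)) (c (l 16123664) (l 16155800))) (c (l 16149024) (l 16164776))) (b (a (l 16150304) (l 16156928)) (l 16195864))) (b (c (l 16189576) (l 16215392)) (a (c (c (b (l 16157384) (l 16159432)) (l 16176840)) (l 16173752)) (l 16200024)))) (c (a (c (l 16247984) (l 16285568)) (b (a (l 16204632) (b (l 16184856) (l 16198040))) (l 16255968))) (b (a (l 16262688) (l 16205712)) (l 16295616))))) (a (c (l 16203952) (l 16222264)) (b (a (b (a (l 16143792) (l 16150504)) (l 16189952)) (b (l 16209792) (l 16120584))) (b (a (l 16257696) (l 16178928)) (l 16291032))))) (c (a (c (b (c (l 16313952) (l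 16326168)) (c (l 16416336) (l 16410768))) (c (a (l 16431640) (l 16358344)) (c (l 16342216) (l 16374376)))) (c (a (c (l 16334280) (l 16268728)) (b (l 16248216) (b (l 16383928) (l 16444416)))) (l 16267688))) (b (l 16229984) (l 16322304)))), by decide +kernel⟩

def k21_pm_022_a : ∃ t, chk3 f_pm_022_a t 17 15 3 = true :=
  ⟨(b (a (c (a (l 16242424) (l 16259104)) (a (l 16261088) (l 16235480))) (a (c (a (l 16233480) (l 16203256)) (l 16128888)) (b (a (b (c (l 16123080) (l 16093272)) (l 16135968)) (b (l 16198328) (c (l 16175352) (l 16167040)))) (b (c (l 16139048) (l 16068688)) (l 16239776))))) (a (b (c (c (l 16227248) (l 16246056)) (c (l 16243880) (l 16241696))) (b (a (a (c (a (l 16192704) (l 16220752)) (a (l 16184456) (l 16213072))) (l 16271184)) (l 16277432)) (a (a (c (l 16180072) (l 16171512)) (a (c (l 16209952) (l 16202008)) (l 16132048))) (l 16181760)))) (b (c (l 16268872) (l 16265784)) (c (l 16363232) (l 16341184))))), by decide +kernel⟩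

def k22_pm_022_a : ∃ t, chk3 f_pm_022_a t 18 14 1 = true :=
  ⟨(b (a (c (a (l 16040696) (l 16016048)) (a (l 16065832) (l 15971824))) (c (l 15903080) (l 15832728))) (b (a (c (a (l 16378976) (l 16305432)) (l 16165160)) (c (l 16181952) (l 16164304))) (b (a (a (c (c (l 16287152) (l 16347480)) (a (l 16271240) (l 16519120))) (l 16359296)) (c (l 16337944) (l 16326408))) (a (a (c (a (c (a (b (l 16337648) (l 16314360)) (l 16371064)) (a (l 16299504) (l 16366672))) (c (l 16439872) (l 16436752))) (a (a (b (l 16324664) (l 16300136)) (l 16254464)) (l 16368800))) (c (a (l 16379184) (l 16457464)) (c (l 16511336) (l 16447352)))) (c (c (c (l 16295448) (l 16314568)) (l 16269680)) (c (l 16286920) (c (l 16326184) (l 16303312)))))))), by decide +kernel⟩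

def k23_pm_022_a : ∃ t, chk3 f_pm_022_a t 18 30 1 = true :=
  ⟨(b (a (a (b (c (c (a (b (l 16251112) (l 16292104)) (a (l 16304960) (l 16412192))) (a (l 16255032) (l 16322992))) (a (c (l 16291000) (l 16242952)) (c (l 16339688) (l 16314328)))) (c (b (a (l 16226304) (a (l 16329720) (l 16351096))) (c (a (l 16251792) (l 16288496)) (l 16180088))) (a (l 16223336) (a (l 16244240) (c (l 16352592) (l 16326624)))))) (c (c (l 16324408) (l 16363672)) (c (l 16360912) (l 16337088)))) (c (c (a (l 16501704) (l 16475328)) (l 16424072)) (c (l 16422512) (l 16358040)))) (a (a (c (c (a (b (l 16204696) (a (l 16218472) (l 16175400))) (l 16278696)) (a (b (l 16218176) (a (l 16210816) (l 16209720))) (l 16272248))) (b (c (l 16248648) (l 16199696)) (a (c (l 16186680) (l 16115944)) (l 16180520)))) (c (a (b (b (c (l 16266240) (l 16356160)) (a (l 16340944) (l 16326152))) (c (a (l 16312184) (l 16335280)) (l 16297184))) (b (l 16411720) (c (a (l 16267048) (l 16368856)) (l 16292152)))) (a (b (a (c (l 16345064) (l 16318904)) (c (l 16374288)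 (l 16369624))) (c (l 16291440) (l 16243632))) (b (l 16403696) (c (l 16308016) (l 16260848)))))) (c (c (c (l 16358880) (l 16357520)) (l 16313504)) (c (l 16310672) (c (l 16371408) (l 16348952)))))), by decide +kernel⟩

def k24_pm_022_a : ∃ t, chk3 f_pm_022_a t 36 31 1 = true :=
  ⟨(c (b (a (c (a (l 16209504) (b (a (b (l 16223808) (l 16231680)) (l 16243960)) (a (l 16274208) (l 16227928)))) (a (l 16287088) (b (a (l 16223632) (l 16236784)) (l 16256416)))) (b (a (c (l 16284776) (l 16278360)) (c (a (l 16305056) (b (l 16329016) (l 16305136))) (a (l 16298976) (l 16311344)))) (c (a (a (l 16248240) (l 16259520)) (l 16270496)) (a (l 16248016) (l 16263704))))) (a (c (l 16299792) (l 16358008)) (c (a (b (a (l 16270936) (b (l 16239568) (l 16245552))) (l 16307456)) (b (l 16236224) (a (l 16174928) (l 16149936)))) (a (b (a (l 16264192) (l 16238320)) (l 16301368)) (b (l 16228736) (a (l 16230384) (l 16204872))))))) (a (b (b (a (l 16202120) (c (l 16205656) (l 16156200))) (c (l 16261096) (l 16233632))) (c (l 16353320) (l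 16327560))) (a (b (c (b (l 16271816) (l 16240856)) (b (l 16265128) (l 16212576))) (b (c (a (l 16257320) (l 16230928)) (a (l 16250304) (l 16223392))) (l 16208128))) (b (a (c (l 16271848) (l 16265096)) (b (c (l 16305336) (l 16278232)) (l 16257144))) (b (c (l 16221112) (l 16213336)) (c (a (l 16222776) (l 16196752)) (a (l 16215024) (l 16188472)))))))), by decide +kernel⟩

def k25_pm_022_a : ∃ t, chk3 f_pm_022_a t 37 31 1 = true :=
  ⟨(c (b (a (b (c (l 16315944) (l 16352696)) (a (c (a (l 16219688) (l 16231168)) (a (l 16275984) (l 16287648))) (l 16292488))) (c (l 16352536) (l 16389840))) (a (c (a (b (l 16245168) (l 16209864)) (b (a (b (l 16266920) (l 16242592)) (l 16266184)) (c (l 16195288) (l 16212264)))) (a (l 16155656) (b (a (l 16247792) (l 16259120)) (l 16164264)))) (a (b (l 16220752) (c (c (l 16188424) (l 16226472)) (l 16178624))) (c (l 16282920) (l 16276056))))) (b (a (b (c (l 16347392) (l 16341968)) (a (c (a (l 16269232) (l 16281080)) (a (l 16262344) (l 16274384))) (l 16301104))) (c (l 16385096)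 (l 16359280))) (c (a (a (l 16147760) (b (a (l 16240416) (l 16251920)) (l 16156056))) (b (l 16287920) (a (l 16191600) (l 16237184)))) (a (b (a (l 16222592) (a (l 16211912) (l 16244576))) (c (l 16168552) (l 16101408))) (b (l 16281184) (c (l 16198072) (l 16152120))))))), by decide +kernel⟩

def k26_pm_022_a : ∃ t, chk3 f_pm_022_a t 19 7 1 = true :=
  ⟨(b (b (a (c (l 15766696) (l 15732200)) (c (a (l 15629816) (b (l 15584232) (l 15668144))) (a (l 15507368) (b (l 15542208) (l 15629264))))) (a (b (c (l 16031568) (l 16007200)) (c (b (l 16179976) (b (l 16257304) (c (l 16290384) (l 16304672)))) (b (l 16161368) (a (l 16203104) (l 16185320))))) (c (l 15758144) (l 15814592)))) (b (c (a (b (c (a (l 16386016) (l 16317968)) (a (l 16445072) (l 16375408))) (c (l 16356216) (l 16438488))) (b (c (a (l 16227480) (l 16164392)) (a (l 16304392) (l 16197232))) (c (a (l 16392336) (l 16359816)) (l 16235016)))) (a (b (a (c (l 16441160) (l 16395272)) (c (l 16369872) (l 16343320))) (c (l 16436872) (l 16372336))) (b (c (a (l 16297328)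 (l 16188008)) (a (l 16227280) (l 16157696))) (c (l 16230296) (a (l 16402224) (l 16342648)))))) (c (a (c (b (c (l 16368128) (l 16387664)) (c (l 16266736) (l 16305840))) (b (l 16322568) (l 16175696))) (b (c (a (l 16488360) (l 16466176)) (l 16382208)) (c (a (l 16346464) (l 16388856)) (c (l 16323160) (l 16342352))))) (a (b (c (l 16319592) (c (l 16380224) (l 16357704))) (c (l 16169856) (c (l 16291216) (l 16267232)))) (b (c (l 16380928) (a (l 16484960) (l 16459544))) (c (c (l 16340560) (l 16317776)) (a (l 16354208) (l 16401536)))))))), by decide +kernel⟩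

def k27_pm_022_a : ∃ t, chk3 f_pm_022_a t 5 6 1 = true :=
  ⟨(a (c (a (l 15808928) (b (l 16166928) (l 16165376))) (a (l 15774800) (l 16102696))) (a (c (c (l 16417680) (l 16475760)) (l 16405448)) (c (a (l 16729296) (l 16772680)) (l 16688672)))), by decide +kernel⟩

def k28_pm_022_a : ∃ t, chk3 f_pm_022_a t 10 14 1 = true :=
  ⟨(a (b (c (l 15798552) (l 15659992)) (a (c (a (b (l 15765488) (l 15896064)) (l 15858344)) (a (b (l 15730168) (l 15865728)) (l 15826384))) (l 15870096))) (c (b (l 16175664) (l 16247464)) (l 15981656))), by decide +kernel⟩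

def k29_pm_022_a : ∃ t, chk3 f_pm_022_a t 20 15 1 = true :=
  ⟨(b (a (b (b (c (a (l 16033136) (b (l 15931864) (a (l 15967416) (a (l 15941864) (l 15959232))))) (a (l 16008072) (b (l 15902808) (a (l 15939776) (l 15922832))))) (c (a (l 16127896) (a (l 16039840) (a (c (l 16004784) (l 15991720)) (b (l 15974184) (c (l 16006976) (l 15993952)))))) (a (l 16106472) (a (l 16014976) (a (l 15971768) (b (l 15946752) (l 15974056))))))) (c (c (a (l 16270176) (l 16118696)) (l 15975616)) (c (l 16029432) (a (l 16246216) (l 16130080))))) (a (b (c (l 16021280) (l 15995480)) (c (a (b (a (b (l 16029896) (l 16064192)) (l 16054632)) (a (l 16135640) (b (l 16090984) (l 16133464)))) (b (l 16086008) (a (b (l 16098024) (l 16120832)) (l 16127120)))) (c (a (b (l 16016136) (l 16109632)) (l 16086960)) (a (b (a (l 16018888) (l 16024104)) (l 16098712)) (l 16033608))))) (c (l 16136072) (l 16114552)))) (a (c (b (c (l 16146248) (l 16266752)) (c (c (l 16429104) (l 16470240)) (l 16406104))) (b (c (l 16261360) (l 16213960)) (c (l 16404464)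 (l 16339888)))) (c (b (a (a (l 16268736) (b (a (l 16182304) (b (l 16153416) (l 16185112))) (l 16267400))) (a (b (l 16190592) (a (b (l 16215048) (l 16255704)) (b (l 16225416) (l 16247336)))) (l 16248256))) (a (c (l 16375584) (l 16434040)) (a (b (c (l 16322376) (l 16315560)) (l 16416184)) (b (a (b (l 16281704) (l 16313072)) (l 16309112)) (a (l 16382944) (b (l 16344944) (l 16385864))))))) (a (b (b (a (l 16202136) (a (l 16162984) (b (l 16132928) (l 16165904)))) (l 16276952)) (c (l 16408552) (l 16383008))) (b (a (b (l 16171512) (a (b (l 16197024) (l 16239320)) (l 16220256))) (l 16231392)) (c (a (l 16338648) (b (l 16296008) (l 16367984))) (a (l 16269760) (b (l 16204848) (l 16299280))))))))), by decide +kernel⟩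

def k30_pm_022_a : ∃ t, chk3 f_pm_022_a t 21 15 1 = true :=
  ⟨(b (c (l 16155296) (c (l 16333592) (l 16284560))) (c (b (l 16345736) (a (a (b (l 16359216) (c (l 16335648) (l 16393280))) (l 16455408)) (l 16570248))) (b (l 16335656) (a (a (c (l 16348504) (l 16279744)) (l 16446872)) (l 16566336))))), by decide +kernel⟩

def k31_pm_022_a : ∃ t, chk3 f_pm_022_a t 11 7 1 = true :=
  ⟨(b (a (c (b (a (l 16426848) (l 16586720)) (l 16466240)) (c (l 16365096) (l 16360984))) (c (a (b (l 16673952) (l 16621528)) (b (l 16766240) (l 16649936))) (a (l 16532152) (l 16601456)))) (a (c (b (a (l 16559688) (l 16565024)) (l 16322272)) (b (l 16444408) (l 16315992))) (c (a (b (b (l 16572488) (l 16487920)) (l 16323128)) (b (b (l 16537032) (l 16451816)) (l 16244064))) (a (b (l 16480384) (l 16329216)) (b (l 16484896) (l 16290416)))))), by decide +kernel⟩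

def k32_pm_022_a : ∃ t, chk3 f_pm_022_a t 3 1 1 = true :=
  ⟨(b (a (a (c (b (l 16777120) (l 16776064)) (l 16776568)) (c (b (l 16777120) (l 16776064)) (b (l 16777112) (l 16776024)))) (l 2)) (b (a (c (a (l 16772680) (l 16772680)) (a (l 16772528) (l 16772528))) (a (a (l 16772600) (l 2)) (l 2))) (a (b (c (a (b (l 16766240) (l 16649936)) (b (l 16766240) (l 16649936))) (a (b (l 16765848) (l 16645456)) (l 16601456))) (a (c (a (b (l 16494840) (c (l 16290096) (l 16302896))) (b (l 16494840) (l 16306984))) (b (a (l 16484896) (l 16484896)) (a (c (l 16294616) (l 16286224)) (l 16290416)))) (c (b (l 16494840) (a (l 16306984) (l 16306984))) (b (l 16484896) (l 16248472))))) (a (b (c (b (l 16766240) (l 16649936)) (l 16685344)) (c (b (l 16494840) (l 16306984)) (b (l 16484896) (l 16290416)))) (a (b (l 2) (c (l 16357792) (l 16386440))) (l 2)))))), by decide +kernel⟩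

theorem s33_pm_022_a : ∃ t, chk3 f_pm_022_a t 10 15 1 = true := ex3_a k29_pm_022_a k30_pm_022_a

theorem s34_pm_022_a : ∃ t, chk3 f_pm_022_a t 10 7 1 = true := ex3_b k28_pm_022_a s33_pm_022_a

theorem s35_pm_022_a : ∃ t, chk3 f_pm_022_a t 5 7 1 = true := ex3_a s34_pm_022_a k31_pm_022_a

theorem s36_pm_022_a : ∃ t, chk3 f_pm_022_a t 5 3 1 = true := ex3_b k27_pm_022_a s35_pm_022_a

theorem s37_pm_022_a : ∃ t, chk3 f_pm_022_a t 18 31 1 = true := ex3_a k24_pm_022_a k25_pm_022_a

theorem s38_pm_022_a : ∃ t, chk3 f_pm_022_a t 18 15 1 = true := ex3_b k23_pm_022_a s37_pm_022_a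

theorem s39_pm_022_a : ∃ t, chk3 f_pm_022_a t 18 7 1 = true := ex3_b k22_pm_022_a s38_pm_022_a

theorem s40_pm_022_a : ∃ t, chk3 f_pm_022_a t 9 7 1 = true := ex3_a s39_pm_022_a k26_pm_022_a

theorem s41_pm_022_a : ∃ t, chk3 f_pm_022_a t 17 15 2 = true := ex3_a k19_pm_022_a k20_pm_022_a

theorem s42_pm_022_a : ∃ t, chk3 f_pm_022_a t 17 15 1 = true := ex3_c s41_pm_022_a k21_pm_022_a

theorem s43_pm_022_a : ∃ t, chk3 f_pm_022_a t 17 29 1 = true := ex3_b k17_pm_022_a k18_pm_022_a

theorem s44_pm_022_a : ∃ t, chk3 f_pm_022_a t 17 14 1 = true := ex3_b k16_pm_022_a s43_pm_022_a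

theorem s45_pm_022_a : ∃ t, chk3 f_pm_022_a t 17 7 1 = true := ex3_b s44_pm_022_a s42_pm_022_a

theorem s46_pm_022_a : ∃ t, chk3 f_pm_022_a t 16 15 3 = true := ex3_a k14_pm_022_a k15_pm_022_a

theorem s47_pm_022_a : ∃ t, chk3 f_pm_022_a t 16 15 2 = true := ex3_a k12_pm_022_a k13_pm_022_a

theorem s48_pm_022_a : ∃ t, chk3 f_pm_022_a t 16 15 1 = true := ex3_c s47_pm_022_a s46_pm_022_a

theorem s49_pm_022_a : ∃ t, chk3 f_pm_022_a t 16 29 1 = true := ex3_a k10_pm_022_a k11_pm_022_a

theorem s50_pm_022_a : ∃ t, chk3 f_pm_022_a t 16 14 1 = true := ex3_b k9_pm_022_a s49_pm_022_a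

theorem s51_pm_022_a : ∃ t, chk3 f_pm_022_a t 16 7 1 = true := ex3_b s50_pm_022_a s48_pm_022_a

theorem s52_pm_022_a : ∃ t, chk3 f_pm_022_a t 8 7 1 = true := ex3_a s51_pm_022_a s45_pm_022_a

theorem s53_pm_022_a : ∃ t, chk3 f_pm_022_a t 4 7 1 = true := ex3_a s52_pm_022_a s40_pm_022_a

theorem s54_pm_022_a : ∃ t, chk3 f_pm_022_a t 16 6 1 = true := ex3_a k5_pm_022_a k6_pm_022_a

theorem s55_pm_022_a : ∃ t, chk3 f_pm_022_a t 8 6 1 = true := ex3_a s54_pm_022_a k7_pm_022_a

theorem s56_pm_022_a : ∃ t, chk3 f_pm_022_a t 4 6 1 = true := ex3_a s55_pm_022_a k8_pm_022_a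

theorem s57_pm_022_a : ∃ t, chk3 f_pm_022_a t 4 3 1 = true := ex3_b s56_pm_022_a s53_pm_022_a

theorem s58_pm_022_a : ∃ t, chk3 f_pm_022_a t 2 3 1 = true := ex3_a s57_pm_022_a s36_pm_022_a

theorem s59_pm_022_a : ∃ t, chk3 f_pm_022_a t 8 5 1 = true := ex3_a k1_pm_022_a k2_pm_022_a

theorem s60_pm_022_a : ∃ t, chk3 f_pm_022_a t 8 2 1 = true := ex3_b k0_pm_022_a s59_pm_022_a

theorem s61_pm_022_a : ∃ t, chk3 f_pm_022_a t 4 2 1 = true := ex3_a s60_pm_022_a k3_pm_022_a

theorem s62_pm_022_a : ∃ t, chk3 f_pm_022_a t 2 2 1 = true := ex3_a s61_pm_022_a k4_pm_022_a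

theorem s63_pm_022_a : ∃ t, chk3 f_pm_022_a t 2 1 1 = true := ex3_b s62_pm_022_a s58_pm_022_a

theorem s64_pm_022_a : ∃ t, chk3 f_pm_022_a t 1 1 1 = true := ex3_a s63_pm_022_a k32_pm_022_a

theorem c_pm_022_a : CertNX 0 536870912 0 420477299 1046898278 26843546 3 true true false .pp 0 2 2
    ndN0q0 ndN1q2a pcN2 Cut.none Ext.none :=
  certNX0 (fam := true) (s1 := true) (s2 := false) (a := 0) (b := 2) (c := 2) (cn := .pp) (n1 := ndN0q0) (n2 := ndN1q2a) (pc := pcN2) (cut := Cut.none) (xt := Ext.none) (P1 := 0) (W1 := 536870912) (P2 := 0) (W2 := 420477299) (P3 := 1046898278) (W3 := 26843546) (N0 := 3)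
    rfl s64_pm_022_a

noncomputable def f_pm_022_b : ℕ → ℕ → ℕ → ℕ → Bool := onCell 0 536870912 1073741824 536870912 1046898278 26843546
    (rowNX 3 1 true true false .pp 0 2 2 (qsf 0 536870912 1239849684 370763052 2) ndN0q0 ndN1q2b pcN2 Cut.none Ext.none)

def k0_pm_022_b : ∃ t, chk3 f_pm_022_b t 1 4 1 = true :=
  ⟨(l 1), by decide +kernel⟩

def k1_pm_022_b : ∃ t, chk3 f_pm_022_b t 4 10 1 = true :=
  ⟨(a (b (b (l 1) (b (l 1) (a (a (a (a (a (c (l 15932136) (l 285646684647)) (l 1)) (l 1)) (l 1)) (l 1)) (l 1)))) (a (c (c (b (l 273298190247) (l 307657024423)) (a (l 302288591751) (a (l 266855318855) (b (l 1) (l 297456667063))))) (a (c (b (l 314637070439) (l 14993184)) (a (c (l 15196136) (a (c (l 15296600) (l 358122974535)) (c (l 15099936) (l 15327000)))) (c (a (c (l 15382760) (l 15190216)) (l 313026075399)) (l 15382424)))) (c (a (c (l 271687033591) (b (l 257192087783) (l 324300029223))) (c (b (l 1) (l 307657207191)) (l 15497328))) (l 15260744)))) (b (l 1) (c (a (a (c (l 15434936) (c (l 15450600) (l 248601576711)))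 (l 1)) (l 1)) (l 259339083127))))) (l 1)), by decide +kernel⟩

def k2_pm_022_b : ∃ t, chk3 f_pm_022_b t 8 11 1 = true :=
  ⟨(b (a (c (a (l 14528456) (a (a (l 14604680) (l 14601992)) (c (l 14706544) (b (l 14799328) (l 14488456))))) (a (c (a (l 14441272) (l 14511912)) (a (c (l 14415560) (a (l 14376424) (l 14406104))) (c (a (l 14382224) (l 14512024)) (l 14467168)))) (c (a (c (l 14601440) (b (l 14801824) (l 14375920))) (c (b (l 14831328) (l 14472352)) (l 14641456))) (l 14580664)))) (c (a (c (a (l 299066190871) (c (l 14900200) (b (l 15066040) (l 14697952)))) (a (c (b (l 15014336) (l 14600432)) (b (l 319467656183) (l 14565480))) (c (a (b (l 15062344) (l 14648328)) (l 303898135527)) (l 14807904)))) (c (c (a (b (l 237863706295) (l 14560920)) (b (l 1) (c (l 283497012055) (l 14787856)))) (a (a (a (l 280812726871) (l 275444124999)) (l 265780459191)) (l 14966608))) (l 275444098311))) (a (l 328593961783) (l 14675424)))) (a (c (a (l 14098496) (c (l 14246104) (a (l 14178264) (b (l 14259024) (l 14257784))))) (a (c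 (l 14035224) (a (c (l 13965488) (l 13833688)) (c (l 14011640) (l 14012440)))) (c (a (c (l 14160064) (l 14140136)) (c (l 14133968) (l 14195496))) (l 14128096)))) (a (c (c (c (l 14423224) (a (l 14371400) (b (l 14471600) (l 14470376)))) (c (a (l 14371368) (b (c (l 14440240) (l 14397424)) (l 14425568))) (a (b (l 14271856) (l 14333528)) (l 14370304)))) (l 14285168)) (c (c (c (a (b (a (l 14563608) (l 14585968)) (l 14566096)) (b (c (a (l 14588784) (l 14572128)) (b (l 14564168) (l 14561720))) (l 14600208))) (a (c (a (l 14525728) (l 14511432)) (l 14480528)) (l 14537152))) (l 14476272)) (l 14415864))))), by decide +kernel⟩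

def k3_pm_022_b : ∃ t, chk3 f_pm_022_b t 9 11 1 = true :=
  ⟨(b (a (a (c (a (l 216925386471) (l 1)) (l 247527002759)) (l 1)) (l 1)) (a (a (c (b (a (b (l 14590928) (l 14588488)) (l 303898434839)) (l 14626616)) (b (l 336646846759) (l 14559064))) (c (b (l 244306318407) (l 14919680)) (l 402682474023))) (b (l 1) (c (l 269002579639) (l 355438697911))))), by decide +kernel⟩

def k4_pm_022_b : ∃ t, chk3 f_pm_022_b t 5 5 1 = true :=
  ⟨(l 1), by decide +kernel⟩

def k5_pm_022_b : ∃ t, chk3 f_pm_022_b t 3 5 1 = true :=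
  ⟨(l 1), by decide +kernel⟩

def k6_pm_022_b : ∃ t, chk3 f_pm_022_b t 2 3 1 = true :=
  ⟨(a (b (a (a (c (b (c (l 14184888) (a (l 14074792) (l 14221496))) (c (l 14184888) (l 14149840))) (a (c (l 14034608) (c (a (l 13964856) (l 14031984)) (b (l 13967880) (l 13967880)))) (a (c (c (l 14159440) (l 14139512)) (l 14092968)) (b (l 14193528) (l 14193528))))) (c (c (a (b (c (l 14422632) (l 14403080)) (l 14407656)) (b (c (a (l 14566096) (l 14600208)) (a (l 14514432) (l 14536552))) (c (l 14579520) (l 14538280)))) (a (b (c (a (l 14370760) (l 14425568)) (l 14358000)) (c (l 14394232) (l 14358000))) (l 14475664))) (b (l 14350976) (l 14350976)))) (a (c (a (b (b (l 14626616) (l 14626616)) (l 14626616)) (b (l 14919768) (l 14919768))) (b (a (l 14559064) (l 14854400)) (l 14707832))) (b (c (b (l 300141093463) (l 15378688)) (b (l 354364957047) (l 15329432))) (c (l 15378688) (l 15329432))))) (a (a (c (b (l 14169840) (l 14169840)) (a (c (l 14034608) (b (l 13834896) (l 13981696))) (c (b (l 14165704) (l 14165704)) (l 14127464))))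 (c (a (c (l 14407656) (b (l 14371352) (l 14371352))) (b (l 14526896) (l 14526896))) (l 14350976))) (a (b (a (l 14589296) (l 14887040)) (a (l 14589296) (l 14887040))) (b (l 15354008) (l 15354008))))) (b (a (b (a (c (l 336112416071) (l 403221191079)) (b (l 1) (l 316248905863))) (c (a (l 15811992) (l 373694135879)) (a (l 15777984) (l 16021560)))) (b (l 1) (a (c (l 330745128135) (l 387116554455)) (b (l 1) (a (l 299070517015) (l 1)))))) (a (b (a (l 15794952) (l 16158184)) (l 15832856)) (b (a (c (l 16501568) (l 16491856)) (c (l 310344783431) (l 402686527575))) (a (l 16496704) (c (l 16754576) (l 16753784))))))), by decide +kernel⟩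

def k7_pm_022_b : ∃ t, chk3 f_pm_022_b t 3 3 1 = true :=
  ⟨(b (l 1) (a (a (b (a (c (l 327524763671) (l 378527499639)) (b (l 1) (l 339335925607))) (c (a (l 16777216) (l 16777040)) (a (l 16777216) (l 16777032)))) (b (l 1) (b (a (l 335577829223) (l 1)) (c (l 403760433175) (l 427919623543))))) (l 1))), by decide +kernel⟩

theorem s8_pm_022_b : ∃ t, chk3 f_pm_022_b t 1 3 1 = true := ex3_a k6_pm_022_b k7_pm_022_b

theorem s9_pm_022_b : ∃ t, chk3 f_pm_022_b t 4 11 1 = true := ex3_a k2_pm_022_b k3_pm_022_b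

theorem s10_pm_022_b : ∃ t, chk3 f_pm_022_b t 4 5 1 = true := ex3_b k1_pm_022_b s9_pm_022_b

theorem s11_pm_022_b : ∃ t, chk3 f_pm_022_b t 2 5 1 = true := ex3_a s10_pm_022_b k4_pm_022_b

theorem s12_pm_022_b : ∃ t, chk3 f_pm_022_b t 1 5 1 = true := ex3_a s11_pm_022_b k5_pm_022_b

theorem s13_pm_022_b : ∃ t, chk3 f_pm_022_b t 1 2 1 = true := ex3_b k0_pm_022_b s12_pm_022_b

theorem s14_pm_022_b : ∃ t, chk3 f_pm_022_b t 1 1 1 = true := ex3_b s13_pm_022_b s8_pm_022_b

theorem c_pm_022_b : CertNX 0 536870912 1239849684 370763052 1046898278 26843546 3 true true false .pp 0 2 2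
    ndN0q0 ndN1q2b pcN2 Cut.none Ext.none :=
  certNX1 (fam := true) (s1 := true) (s2 := false) (a := 0) (b := 2) (c := 2) (cn := .pp) (n1 := ndN0q0) (n2 := ndN1q2b) (pc := pcN2) (cut := Cut.none) (xt := Ext.none) (P1 := 0) (W1 := 536870912) (P2 := 1239849684) (W2 := 370763052) (P3 := 1046898278) (W3 := 26843546) (N0 := 3)
    rfl (fun _ => rfl) s14_pm_022_b

noncomputable def f_pm_023_a : ℕ → ℕ → ℕ → ℕ → Bool := onCell 0 536870912 0 420477299 1046898278 26843546
    (rowNX 3 0 true true false .up 0 2 3 (qsf 0 536870912 0 420477299 3) ndN0q0 ndN1q2a pcN3 Cut.none Ext.none)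

def k0_pm_023_a : ∃ t, chk3 f_pm_023_a t 1 1 1 = true :=
  ⟨(a (l 1) (a (a (l 1) (b (c (b (l 16777120) (l 16776064)) (b (l 16777112) (l 16776024))) (b (a (l 1) (l 70900499703)) (l 1)))) (a (b (b (c (a (l 16777120) (l 16777120)) (l 16777112)) (c (l 16776064) (l 16776024))) (b (c (l 16772680) (l 16772528)) (b (c (b (l 16766240) (l 16649936)) (l 40835487927)) (a (l 1) (c (l 16210992) (l 16302552)))))) (b (b (c (a (l 16777120) (l 16777120)) (a (l 16777112) (l 16777112))) (c (l 16776064) (l 16776024))) (b (c (l 16772680) (l 16772528)) (b (c (b (l 16766240) (l 16649936)) (b (l 16765848) (l 16645456))) (c (b (l 16494840) (l 16265040)) (b (l 16484896) (l 16290416))))))))), by decide +kernel⟩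

theorem c_pm_023_a : CertNX 0 536870912 0 420477299 1046898278 26843546 3 true true false .up 0 2 3
    ndN0q0 ndN1q2a pcN3 Cut.none Ext.none :=
  certNX0 (fam := true) (s1 := true) (s2 := false) (a := 0) (b := 2) (c := 3) (cn := .up) (n1 := ndN0q0) (n2 := ndN1q2a) (pc := pcN3) (cut := Cut.none) (xt := Ext.none) (P1 := 0) (W1 := 536870912) (P2 := 0) (W2 := 420477299) (P3 := 1046898278) (W3 := 26843546) (N0 := 3)
    rfl k0_pm_023_a

noncomputable def f_pm_023_b : ℕ → ℕ → ℕ → ℕ → Bool := onCell 0 536870912 1610612736 536870912 1046898278 26843546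
    (rowNX 3 1 true true false .up 0 2 3 (qsf 0 536870912 1239849684 370763052 3) ndN0q0 ndN1q2b pcN3 Cut.none Ext.none)

def k0_pm_023_b : ∃ t, chk3 f_pm_023_b t 1 1 1 = true :=
  ⟨(a (b (b (a (a (a (b (c (l 14169840) (a (c (l 14034608) (l 13981696)) (l 14117520))) (l 2)) (c (c (a (l 14407656) (l 14555336)) (a (l 14371352) (l 14475664))) (l 14350976))) (c (a (b (l 14728656) (l 14728656)) (l 15378688)) (b (l 15013328) (l 15013328)))) (a (b (l 15853824) (c (l 15993496) (l 15965880))) (b (a (l 16496704) (l 16754176)) (c (l 16630544) (l 16625376))))) (a (a (l 2) (b (a (l 2) (l 15354008)) (l 2))) (b (a (c (l 15993496) (l 15965880)) (c (l 16630544) (l 16625376))) (b (a (l 15979656) (a (l 16496704) (l 16754176))) (l 4))))) (l 4)) (a (b (b (c (b (a (l 16777216) (l 393023059303)) (a (l 16777216) (l 16777216))) (b (a (l 16777216) (l 430067152055)) (a (l 16777216) (l 16777216)))) (b (c (l 16777216) (l 16777216)) (c (b (l 16777216) (l 16777216)) (b (l 16777216) (l 16777216))))) (l 4)) (b (b (b (a (a (c (l 382822467607)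 (l 426845881719)) (b (l 1) (c (l 317861090103) (l 16777048)))) (l 1)) (a (c (b (l 380675028391) (l 16777216)) (b (l 16777032) (l 16777216))) (a (c (l 334504085527) (l 380674983287)) (b (l 1) (c (l 322156057399) (l 366716342759)))))) (b (c (a (l 16777216) (c (l 365642642791) (l 383896253639))) (a (l 16777216) (b (l 416108508247) (l 16777216)))) (c (a (l 16777216) (b (l 16777216) (l 16777216))) (a (l 16777216) (b (l 16777216) (l 16777216)))))) (b (b (b (c (a (l 16777216) (l 16777216)) (a (l 16777216) (l 16777216))) (l 4)) (l 4)) (l 4))))), by decide +kernel⟩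

theorem c_pm_023_b : CertNX 0 536870912 1239849684 370763052 1046898278 26843546 3 true true false .up 0 2 3
    ndN0q0 ndN1q2b pcN3 Cut.none Ext.none :=
  certNX1 (fam := true) (s1 := true) (s2 := false) (a := 0) (b := 2) (c := 3) (cn := .up) (n1 := ndN0q0) (n2 := ndN1q2b) (pc := pcN3) (cut := Cut.none) (xt := Ext.none) (P1 := 0) (W1 := 536870912) (P2 := 1239849684) (W2 := 370763052) (P3 := 1046898278) (W3 := 26843546) (N0 := 3)
    rfl (fun _ => rfl) k0_pm_023_b

noncomputable def f_pm_033 : ℕ → ℕ → ℕ → ℕ → Bool := onCell 0 536870912 1610612736 536870912 1046898278 26843546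
    (rowNX 3 1 true true false .pnn 0 3 3 (qsf 0 536870912 1610612736 469762048 3) ndN0q0 ndN1q3 pcN3 Cut.none Ext.none)

def k0_pm_033 : ∃ t, chk3 f_pm_033 t 1 1 1 = true :=
  ⟨(b (b (a (a (a (c (a (b (l 14169840) (l 14169840)) (c (a (l 14407656) (l 14555336)) (l 207260513703))) (a (a (c (l 14034608) (b (l 13981696) (l 13981696))) (b (l 14117520) (l 14117520))) (l 14350976))) (c (a (b (l 14728656) (l 14728656)) (l 15378688)) (b (l 15013328) (l 15013328)))) (a (b (l 1) (l 324838357767)) (l 1))) (l 1)) (b (a (a (a (c (a (l 14169840) (c (a (l 14407656) (l 14555336)) (l 14422488))) (a (c (a (l 14034608) (l 14165704)) (a (l 13981696) (l 14127464))) (l 14350976))) (a (c (l 14728656) (l 14707832)) (l 15333040))) (a (c (l 15993496) (l 15965880)) (c (l 16630544) (l 16625376)))) (l 1)) (a (b (a (a (l 4) (a (c (l 14728656) (l 14707832)) (l 15354008))) (a (l 15979656) (a (l 16496704) (l 16754176)))) (l 4)) (a (c (l 398391771143) (l 411813543943)) (l 1))))) (b (b (a (l 4) (a (l 4) (l 1))) (l 4)) (l 4))), by decide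 +kernel⟩

theorem c_pm_033 : CertNX 0 536870912 1610612736 469762048 1046898278 26843546 3 true true false .pnn 0 3 3
    ndN0q0 ndN1q3 pcN3 Cut.none Ext.none :=
  certNX1 (fam := true) (s1 := true) (s2 := false) (a := 0) (b := 3) (c := 3) (cn := .pnn) (n1 := ndN0q0) (n2 := ndN1q3) (pc := pcN3) (cut := Cut.none) (xt := Ext.none) (P1 := 0) (W1 := 536870912) (P2 := 1610612736) (W2 := 469762048) (P3 := 1046898278) (W3 := 26843546) (N0 := 3)
    rfl (fun _ => rfl) k0_pm_033

noncomputable def f_pm_101 : ℕ → ℕ → ℕ → ℕ → Bool := onCell 536870912 536870912 67108864 469762048 1046898278 26843546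
    (rowNX 3 2 true true false .npn 1 0 1 (qsf 536870912 536870912 67108864 469762048 1) ndN0q1 ndN1q0 pcN1 Cut.none Ext.none)

def k0_pm_101 : ∃ t, chk3 f_pm_101 t 1 1 1 = true :=
  ⟨(b (l 3) (l 3)), by decide +kernel⟩

theorem c_pm_101 : CertNX 536870912 536870912 67108864 469762048 1046898278 26843546 3 true true false .npn 1 0 1
    ndN0q1 ndN1q0 pcN1 Cut.none Ext.none :=
  certNX2 (fam := true) (s1 := true) (s2 := false) (a := 1) (b := 0) (c := 1) (cn := .npn) (n1 := ndN0q1) (n2 := ndN1q0) (pc := pcN1) (cut := Cut.none) (xt := Ext.none) (P1 := 536870912) (W1 := 536870912) (P2 := 67108864) (W2 := 469762048) (P3 := 1046898278) (W3 := 26843546) (N0 := 3)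
    rfl (fun _ => rfl) k0_pm_101

end Pool.Agent.Strip051.G.IE1.Tab.C.NA01

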