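import Pool.Agent.Strip051.G.IE1.Tab

/-! # Certificates N13 (generated) -/

set_option linter.all false
set_option maxRecDepth 100000

namespace Pool.Agent.Strip051.G.IE1.Tab.C.NA01

open Pool.Agent.Strip051.PB Pool.Agent.Strip051.PB.T
open Pool.Agent.Strip051.G.IE1.Tab

noncomputable def f_pm_102 : ℕ → ℕ → ℕ → ℕ → Bool := onCell 536870912 536870912 1073741824 536870912 1046898278 26843546
    (rowNX 3 1 true true false .npp 1 0 2 (qsf 536870912 536870912 67108864 469762048 2) ndN0q1 ndN1q0 pcN2 Cut.none Ext.none)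

def k0_pm_102 : ∃ t, chk3 f_pm_102 t 2 4 1 = true :=
  ⟨(b (l 3) (b (l 3) (a (l 3) (b (l 3) (a (l 3) (b (a (l 3) (a (l 3) (c (l 446307495831) (l 418927079303)))) (a (a (l 3) (c (l 488720299255) (l 451676206311))) (c (b (l 16776464) (l 16775832)) (b (l 16776440) (l 16775784)))))))))), by decide +kernel⟩

def k1_pm_102 : ∃ t, chk3 f_pm_102 t 6 8 1 = true :=
  ⟨(l 3), by decide +kernel⟩

def k2_pm_102 : ∃ t, chk3 f_pm_102 t 14 16 1 = true :=
  ⟨(l 3), by decide +kernel⟩

def k3_pm_102 : ∃ t, chk3 f_pm_102 t 15 32 2 = true :=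
  ⟨(a (l 3) (l 1)), by decide +kernel⟩

def k4_pm_102 : ∃ t, chk3 f_pm_102 t 30 66 4 = true :=
  ⟨(a (l 3) (a (l 3) (a (a (a (l 3) (l 1)) (l 1)) (l 1)))), by decide +kernel⟩

def k5_pm_102 : ∃ t, chk3 f_pm_102 t 60 67 4 = true :=
  ⟨(a (l 3) (b (l 3) (a (b (l 3) (b (l 3) (l 239074305959))) (b (b (l 3) (b (l 3) (c (c (c (c (l 16350984) (l 213841488327)) (l 206862128407)) (l 16327496)) (l 16310728)))) (c (b (c (b (c (c (b (l 214915249815) (l 215452130423)) (l 16352232)) (l 16348264)) (l 16362912)) (l 16346712)) (l 16375832)) (l 16344424)))))), by decide +kernel⟩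

def k6_pm_102 : ∃ t, chk3 f_pm_102 t 122 134 4 = true :=
  ⟨(b (a (l 3) (a (l 3) (b (l 3) (c (c (c (l 16492248) (b (l 16481112) (c (l 16499528) (l 16495000)))) (b (l 271286981431) (l 16473216))) (c (c (l 16440552) (b (l 242295839127) (c (l 238537757991) (l 16428128)))) (l 16412048)))))) (b (a (l 3) (c (c (c (b (c (l 16493200) (b (l 16487960) (l 260012702407))) (c (b (l 16505912) (l 267528936647)) (l 16502680))) (b (l 264844533319) (l 16489440))) (a (l 16431160) (l 16485688))) (c (c (a (b (l 240685186455) (l 239074592935)) (b (c (l 16458464) (l 16451352)) (c (l 16469504) (l 16465888)))) (l 16425384)) (l 16416568)))) (c (c (a (l 16406976) (l 16508856)) (b (c (l 266455064631) (a (l 224578944679) (a (c (l 16437720) (l 16431136)) (c (l 16493088) (l 16486944))))) (a (c (l 234779545671) (l 220283991399)) (a (c (l 16458832) (l 16446752)) (c (l 16513504) (l 16502248)))))) (a (l 16344896) (l 16453704))))), by decide +kernel⟩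

def k7_pm_102 : ∃ t, chk3 f_pm_102 t 122 135 4 = true :=
  ⟨(c (b (c (b (a (b (l 16415984) (c (l 16430992) (c (l 16416816) (a (l 236927043191) (l 16433328))))) (b (l 16518448) (b (l 16522888) (c (l 16534056) (a (l 16491248) (l 16544680)))))) (a (c (b (l 16436152) (c (l 16445576) (b (l 16435488) (c (l 16440424) (l 16437960))))) (b (c (b (l 16420968) (c (l 16426056) (l 16423184))) (l 232095249847)) (l 16431872))) (c (b (l 16537912) (c (l 16546600) (b (l 16537600) (l 16562144)))) (b (c (a (l 16500048) (l 16552984)) (l 16521912)) (l 16534648))))) (c (b (c (a (b (a (l 3) (l 16417696)) (l 229947737287)) (b (a (l 16470296) (l 16524704)) (l 16507312))) (a (b (l 225652735687) (l 16399536)) (a (l 16471376) (l 16525984)))) (a (l 16420656) (l 16524752))) (a (l 16402448) (l 16508032)))) (c (b (b (a (c (c (b (c (l 16451240) (l 16447392)) (c (l 16454200) (l 16452128))) (l 16447512)) (l 16444096)) (c (c (b (l 16508104) (l 16438136)) (l 16548528)) (l 16545784))) (l 16381968)) (a (l 16474576) (l 16571248))) (a (l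 16455336) (l 16556136)))) (b (a (l 16389296) (l 16497128)) (a (l 16442736) (l 16546448)))), by decide +kernel⟩

def k8_pm_102 : ∃ t, chk3 f_pm_102 t 123 268 4 = true :=
  ⟨(a (a (b (b (a (a (l 3) (a (l 3) (l 1))) (l 1)) (a (c (c (a (l 16497336) (a (l 16507568) (b (a (l 16508096) (l 1)) (l 16519064)))) (c (b (l 16496176) (l 255180926919)) (l 16487720))) (c (l 16459904) (c (c (b (l 16433608) (l 16440352)) (l 16432208)) (l 16427416)))) (b (l 1) (c (a (a (a (c (l 16524112) (l 439193457399)) (l 1)) (l 1)) (l 1)) (c (l 16489000) (l 16462816)))))) (c (c (c (a (l 16532424) (c (a (a (l 16549312) (b (l 16545720) (l 16563480))) (b (l 16553744) (l 16571416))) (l 16556568))) (b (a (l 16521664) (l 16546320)) (a (c (l 16539848) (l 16535648)) (c (l 16564312) (b (l 16557736) (l 16563344)))))) (b (a (c (l 16513776) (l 16497200)) (c (c (b (l 16539592) (l 16545984)) (l 16535648)) (l 16522936))) (l 16527904))) (c (c (a (l 16483744) (l 16510344)) (a (b (c (l 16464992) (l 16457280)) (l 16474792)) (b (c (l 16492000) (b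 (l 16480856) (l 16487720))) (c (b (l 16500224) (l 16507016)) (l 16499848))))) (a (l 16456824) (l 16484416))))) (b (l 1) (b (l 1) (a (c (c (a (a (c (l 16579048) (l 482680147719)) (l 1)) (l 1)) (l 16563256)) (c (c (l 16538744) (l 453689010599)) (l 16517304))) (l 1))))) (l 1)), by decide +kernel⟩

def k9_pm_102 : ∃ t, chk3 f_pm_102 t 123 269 4 = true :=
  ⟨(a (c (c (a (b (c (b (a (l 16558208) (l 16582560)) (c (a (l 16574544) (l 16598872)) (l 16581360))) (a (l 16552968) (l 16578008))) (l 16588816)) (b (b (a (c (c (a (l 16599264) (l 16609904)) (b (l 16599640) (l 16607056))) (l 16595264)) (l 1)) (c (c (c (a (b (l 16617360) (l 16624976)) (l 510597568423)) (a (l 16619448) (b (l 1) (l 16643904)))) (a (l 16615168) (l 16636712))) (l 16615568))) (a (l 16624312) (a (l 16641384) (b (a (l 16645376) (l 1)) (l 16657048)))))) (b (a (a (l 16528056) (l 16554248)) (b (l 16584192) (a (l 16581984) (l 16605352)))) (c (a (a (l 16552072) (l 16578416)) (b (l 16609968) (b (l 16616320) (c (l 16623904) (l 16617032))))) (c (b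 (a (l 16549216) (a (l 16586960) (l 16611216))) (b (a (l 16556376) (c (l 16607608) (l 16605720))) (l 16587672))) (b (a (a (l 16530120) (l 16557088)) (b (a (l 16578184) (l 16602552)) (l 16596936))) (l 16519200)))))) (b (c (c (a (b (c (l 16515376) (a (l 16495248) (l 16522456))) (a (l 16511552) (l 16538712))) (b (c (l 16564640) (b (l 16554880) (l 16561768))) (c (a (b (l 16560968) (l 16567672)) (l 16588680)) (l 16573432)))) (a (l 16511728) (l 16561928))) (a (l 16504080) (l 16554744))) (a (l 16539992) (l 16590968)))) (b (l 1) (b (l 1) (a (c (c (c (a (l 425235178455) (l 1)) (l 16678976)) (l 16662504)) (l 16648512)) (l 1))))), by decide +kernel⟩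

def k10_pm_102 : ∃ t, chk3 f_pm_102 t 123 135 4 = true :=
  ⟨(b (b (c (a (c (b (l 16622712) (a (c (l 16611768) (a (l 16584048) (l 16609984))) (b (l 16651968) (l 16655112)))) (c (b (c (b (l 16602408) (a (l 16581312) (l 16631616))) (a (l 16574816) (l 16625360))) (a (l 16609008) (l 16638464))) (l 16603088))) (a (c (c (a (c (b (l 16691736) (l 16699768)) (l 16689792)) (c (l 16717184) (l 16712192))) (l 16692072)) (b (l 16674632) (l 16687048))) (l 1))) (a (l 16593712) (l 16694952))) (c (c (a (a (c (b (l 16616248) (a (c (l 16610936) (l 16604592)) (l 16632664))) (b (c (a (l 16593128) (l 16618616)) (l 16601968)) (l 16612712))) (l 16664000)) (a (c (a (l 16705456) (c (l 16710520) (l 16726712))) (l 16688024)) (a (c (c (l 16723344) (l 16721888)) (l 16740880)) (l 1)))) (a (l 16627840) (l 16704280))) (a (l 16618672) (l 16697344)))) (c (c (a (a (b (b (a (c (c (l 16614504) (l 16611432)) (l 16609360)) (l 16635384)) (l 16629584)) (l 16634688)) (l 16652848)) (a (l 16686824) (c (b (a (c (b (a (l 16740648) (l 16722016))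 (l 16716096)) (l 16737288)) (c (l 16705816) (l 16723288))) (a (l 16725984) (c (l 16705648) (l 16720744)))) (l 16711304)))) (a (l 16629416) (l 16672096))) (a (l 16623976) (l 16665176)))), by decide +kernel⟩

def k11_pm_102 : ∃ t, chk3 f_pm_102 t 30 33 5 = true :=
  ⟨(b (a (l 3) (a (l 3) (a (a (a (l 3) (l 1)) (l 1)) (l 1)))) (a (a (l 3) (b (l 3) (a (b (l 3) (l 16218792)) (b (l 210620113319) (c (l 16324672) (l 16304808)))))) (a (b (a (a (l 3) (b (l 3) (l 16317744))) (b (a (l 3) (l 16361144)) (c (l 16415976) (l 16393472)))) (b (a (c (l 16368160) (l 16346888)) (l 16449688)) (a (l 16417296) (c (l 16533400) (l 16520184))))) (b (a (b (a (a (b (l 244980158919) (l 16427520)) (b (l 16418000) (l 16456096))) (l 16475248)) (a (l 16495904) (b (l 16530472) (l 16565184)))) (b (l 1) (a (l 16600664) (l 1)))) (a (b (a (a (l 16545664) (l 16573952)) (l 16612640)) (a (l 16609648) (l 16651528))) (b (a (l 16665592) (l 16715888)) (a (l 16683112) (l 16685304)))))))), by decide +kernel⟩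

def k12_pm_102 : ∃ t, chk3 f_pm_102 t 31 33 2 = true :=
  ⟨(b (l 1) (b (l 1) (b (l 1) (b (l 1) (a (a (a (a (c (c (c (c (l 219076774583) (l 219613626375)) (l 16719560)) (l 16729048)) (l 16712288)) (l 1)) (l 1)) (l 1)) (l 1)))))), by decide +kernel⟩

def k13_pm_102 : ∃ t, chk3 f_pm_102 t 15 16 3 = true :=
  ⟨(a (b (l 3) (a (a (l 3) (b (l 3) (b (l 3) (b (a (l 3) (a (l 3) (l 171965238199))) (a (l 169280717783) (c (l 16275336) (l 16236184))))))) (a (b (l 3) (a (b (b (l 3) (b (l 3) (c (l 16257336) (l 16206720)))) (c (b (l 16315288) (l 16384992)) (b (l 16273624) (l 16354960)))) (b (b (b (l 3) (c (l 16296312) (l 16242408))) (c (l 16297048) (l 16316176))) (b (c (l 16436680) (l 16405904)) (c (l 16504392) (l 16487008)))))) (b (a (a (a (l 3) (l 1)) (l 1)) (l 1)) (b (a (c (b (a (a (b (l 16335808) (l 16380416)) (b (l 16367560) (l 16410672))) (l 16429624)) (a (l 16457856) (b (l 16492184) (a (l 16518872) (l 16545952))))) (b (a (a (l 16308424) (l 16342288)) (l 16386152)) (a (l 16423064) (b (l 16458240) (l 16504736)))))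 (a (b (l 1) (c (l 16506528) (l 16544704))) (l 1))) (a (c (b (a (l 16470520) (l 16589192)) (l 16562024)) (b (l 16437400) (l 16602704))) (a (b (c (b (l 16627248) (l 16662752)) (l 16633984)) (l 16671296)) (b (l 16702000) (c (l 16694464) (l 16692888)))))))))) (b (l 1) (b (l 1) (b (l 1) (a (a (c (b (l 1) (l 16699296)) (l 16700792)) (l 1)) (l 1)))))), by decide +kernel⟩

def k14_pm_102 : ∃ t, chk3 f_pm_102 t 28 17 1 = true :=
  ⟨(b (l 3) (a (a (l 3) (b (l 3) (b (l 3) (b (l 3) (c (l 16373176) (l 16337120)))))) (a (b (l 3) (b (c (c (l 191829848519) (l 16325640)) (l 16292888)) (c (c (b (l 16402016) (l 16429320)) (l 16397104)) (c (l 16379648) (l 16361992))))) (b (b (l 3) (a (l 3) (a (l 3) (b (l 3) (c (l 16373408) (l 16329152)))))) (b (c (c (b (a (l 16378808) (l 16408912)) (l 16422984)) (b (l 16371808) (l 16404424))) (c (l 16367016) (l 16347040))) (c (c (l 16458136) (l 16442488)) (c (l 16426784) (l 16410912)))))))), by decide +kernel⟩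

def k15_pm_102 : ∃ t, chk3 f_pm_102 t 58 17 1 = true :=
  ⟨(a (b (l 3) (b (b (b (l 3) (c (c (l 117741431943) (l 16304824)) (l 16266496))) (c (b (c (a (l 16366640) (l 16403136)) (l 16361248)) (c (l 16401904) (l 16402824))) (b (l 16327528) (l 16372872)))) (b (c (c (b (l 16448480) (l 16471984)) (l 16443264)) (c (l 16426320) (l 16409200))) (c (b (c (a (l 16481512) (l 16506216)) (l 16478296)) (c (a (l 16502280) (b (l 16523736) (l 16535496))) (a (l 16489368) (l 16518832)))) (b (c (l 16464160) (l 16449880)) (c (l 16490520) (l 16478248))))))) (b (b (l 3) (b (l 3) (b (l 3) (c (c (l 125257545143) (l 16272240)) (l 16230968))))) (b (c (b (b (c (a (l 16337136) (l 16377328)) (l 16331984)) (c (a (l 16390120) (l 16422864)) (l 16384720))) (b (c (l 16448760) (l 16429944)) (c (l 16481024) (l 16464632)))) (b (b (c (l 16308024) (l 16283800)) (l 16332448)) (b (l 16402928) (l 16441352)))) (c (b (c (b (a (l 16490528) (l 16476552)) (a (l 16511928) (l 16522832))) (b (l 16488416) (l 16474440))) (b (a (c (l 16536816) (l 16526184))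 (l 16559592)) (l 16566408))) (b (c (b (l 16475096) (l 16505320)) (b (l 16461640) (l 16494144))) (a (c (l 16487512) (l 16498976)) (l 16558576))))))), by decide +kernel⟩

def k16_pm_102 : ∃ t, chk3 f_pm_102 t 118 17 1 = true :=
  ⟨(b (b (l 3) (b (a (l 3) (b (l 3) (c (c (l 141363726871) (l 16267640)) (l 16226512)))) (c (b (c (a (l 16287640) (l 16331768)) (l 19493977095)) (c (a (l 16364840) (l 16402312)) (l 16360688))) (b (c (l 16279080) (l 16253720)) (c (l 16339336) (l 16317768)))))) (b (c (b (c (b (l 16429720) (a (l 16455424) (l 16487528))) (b (l 16409896) (l 16453584))) (b (c (a (l 16495448) (b (l 16517208) (l 16537160))) (a (l 16480256) (l 16515760))) (c (a (c (l 16529736) (l 16521624)) (l 16556536)) (a (l 16513600) (l 16548488))))) (b (b (l 16382984) (c (l 16438920) (l 16424104))) (b (c (a (l 16466856) (l 16506512)) (l 16388888)) (c (l 16498216) (a (l 16492240) (l 16536336)))))) (c (a (b (b (c (l 16550544) (l 16541448)) (l 16567360)) (l 16598032)) (b (l 16564808) (l 16575392))) (b (b (c (l 16552720)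 (l 16547096)) (l 16576392)) (l 16582936))))), by decide +kernel⟩

def k17_pm_102 : ∃ t, chk3 f_pm_102 t 119 17 1 = true :=
  ⟨(b (a (b (l 3) (c (b (c (b (c (l 16267424) (l 16274568)) (b (l 16327456) (l 16354848))) (b (l 16253744) (l 16316752))) (c (b (l 16392792) (l 16439664)) (l 16396632))) (b (b (l 16211896) (l 16281584)) (c (l 16379360) (l 16362040))))) (b (b (l 3) (b (l 3) (b (c (a (l 3) (b (l 3) (l 247127393447))) (l 16179112)) (c (c (l 123110224631) (l 16258136)) (l 16217752))))) (c (b (c (b (c (l 16336168) (l 16323832)) (l 16383888)) (b (l 16305536) (l 16362264))) (b (c (l 16432664) (l 16414272)) (c (a (l 16466680) (l 16485736)) (l 16461312)))) (b (c (l 16292392) (l 16292408)) (b (l 16393128) (c (l 16451720) (l 16442088))))))) (b (b (a (c (c (b (b (l 16472200) (l 16491704)) (b (l 16512664) (l 16532104))) (b (l 16465992) (l 16511936))) (b (b (l 16437736) (l 16461912)) (c (l 16504448) (l 16496872)))) (c (b (c (a (l 16509152) (l 16524752)) (l 16508232)) (l 16546552)) (b (c (l 16503200) (l 16498112))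 (l 16541008)))) (c (c (b (l 16565976) (l 16565728)) (l 16561224)) (b (l 16558184) (l 16555640)))) (c (c (b (l 16553696) (l 16536064)) (l 16477384)) (b (l 16542760) (l 16524968))))), by decide +kernel⟩

def k18_pm_102 : ∃ t, chk3 f_pm_102 t 30 136 1 = true :=
  ⟨(a (a (a (l 3) (b (l 3) (c (c (b (c (l 196124602711) (l 16254456)) (c (l 16299720) (l 16284016))) (b (l 16227944) (l 16260328))) (b (l 95192623463) (c (l 16229000) (l 16197600)))))) (c (c (c (b (a (l 202567163111) (l 16409016)) (b (a (l 16352984) (l 16438032)) (a (l 16378944) (l 16461088)))) (b (a (l 16303296) (l 16393176)) (b (l 16275752) (l 16302040)))) (b (a (l 42042506503) (l 16369208)) (b (a (l 16314088) (l 16404872)) (a (l 16344080) (l 16432712))))) (b (c (a (l 16239320) (l 16339024)) (a (l 16202848) (l 16310288))) (b (c (l 16331920) (l 16306456)) (c (l 16344528) (l 16345184)))))) (c (a (a (c (b (c (l 16500528) (l 16487616)) (b (c (l 16523832) (l 16514632)) (l 16537400))) (b (a (l 16443096) (l 16493824)) (b (l 16500784) (l 16525000))))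 (b (c (c (l 16588040) (l 16581264)) (b (l 16561536) (l 16568728))) (c (l 16563560) (l 16546200)))) (a (c (b (l 16600088) (b (l 16595512) (l 16582560))) (b (l 16581736) (b (l 16575136) (l 16561128)))) (c (a (b (l 16666824) (l 16633728)) (c (b (l 16643688) (b (l 16638464) (l 16624464))) (l 16633864))) (b (l 16661152) (l 16583608))))) (a (c (b (a (l 16446240) (l 16563664)) (b (l 16444280) (l 16527928))) (b (a (l 16428056) (l 16561752)) (b (l 16452680) (l 16524184)))) (a (b (l 16570088) (b (l 16563376) (l 16549512))) (b (l 16649008) (l 16571936)))))), by decide +kernel⟩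

def k19_pm_102 : ∃ t, chk3 f_pm_102 t 30 137 1 = true :=
  ⟨(c (a (a (c (b (a (c (l 243906153063) (l 16258896)) (c (b (l 16331736) (l 16361456)) (l 16333536))) (a (c (a (b (l 16303656) (l 16332552)) (l 16351040)) (b (l 16307736) (l 16337064))) (c (l 16380896) (l 16391488)))) (a (b (l 16141880) (b (l 16288904) (l 16278216))) (b (l 16292600) (l 16376384)))) (c (a (b (c (l 16380232) (l 16410792)) (c (l 16428168) (l 16462280))) (b (c (l 16497976) (l 16489968)) (c (l 16513288) (l 16505656)))) (a (b (l 16372944) (c (l 16454368) (l 16448256))) (b (c (l 16481856) (l 16474800)) (c (l 16497960) (l 16492512)))))) (a (b (c (l 16497952) (l 16448776)) (c (l 16521184) (l 16501912))) (c (a (a (l 16543496) (l 16568928)) (c (a (l 16604384) (c (l 16578352) (l 16630224))) (l 16605496))) (c (a (l 16537632) (l 16591768)) (a (l 16507552) (l 16581928)))))) (a (a (a (b (c (l 16206120) (l 16175792)) (c (l 16261128) (l 16259688))) (c (l 16262248) (l 16284032))) (a (b (c (l 16375424) (l 16358352)) (c (l 16443192) (l 16436528)))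 (c (b (l 16469576) (l 16489344)) (b (l 16463240) (l 16485280))))) (a (c (l 16504528) (l 16499864)) (c (l 16488376) (l 16484440))))), by decide +kernel⟩

def k20_pm_102 : ∃ t, chk3 f_pm_102 t 60 69 1 = true :=
  ⟨(a (c (b (c (b (a (a (c (l 16373544) (l 16362824)) (b (l 16384680) (l 16367248))) (c (l 16404792) (l 16439408))) (a (b (l 16420224) (l 16443392)) (a (c (b (l 16460528) (l 16464800)) (l 16458384)) (c (l 16467992) (l 16460672))))) (a (b (a (l 16347344) (l 16359016)) (l 16416528)) (b (b (l 16417984) (l 16442208)) (a (b (l 16449224) (l 16450672)) (l 16452200))))) (a (c (b (b (l 16465416) (l 16487392)) (l 16484200)) (b (l 16382096) (l 16496128))) (c (b (a (l 16464864) (l 16450232)) (l 16458072)) (b (l 16446400) (l 16445280))))) (c (b (a (b (l 16326872) (l 16406608)) (b (l 16422512) (a (l 16448040) (l 16447072)))) (a (b (l 16461672) (l 16493056)) (l 16442112))) (b (a (b (l 16311368) (l 16397080)) (b (l 16416152) (a (l 16424104) (l 16442528)))) (a (b (l 16457592) (l 16490032)) (l 16415792))))) (c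 (b (c (b (a (c (l 16468048) (l 16481880)) (l 16492528)) (l 16470256)) (b (a (a (l 16469880) (l 16473576)) (l 16476416)) (l 16454472))) (c (b (l 16448352) (a (a (l 16428856) (l 16424600)) (l 16424120))) (b (l 16432176) (l 16389136)))) (a (b (b (c (l 16467736) (l 16463704)) (l 16445208)) (b (l 16423328) (l 16402696))) (b (l 16456768) (l 16410064))))), by decide +kernel⟩

def k21_pm_102 : ∃ t, chk3 f_pm_102 t 61 69 1 = true :=
  ⟨(a (c (c (b (b (l 16499568) (l 16475640)) (c (l 16443192) (l 16429240))) (b (c (l 16449464) (l 16464512)) (b (l 16429712) (l 16403224)))) (b (c (l 16460384) (l 16454832)) (c (l 16409880) (l 16403424)))) (a (c (c (b (b (l 16519392) (l 16492376)) (b (l 16463728) (a (l 16423256) (l 16443792)))) (b (c (l 16464544) (l 16478928)) (b (l 16440952) (l 16390376)))) (b (c (l 16475008) (l 16469728)) (a (l 16385512) (b (l 16442160) (l 16412776))))) (c (c (c (b (a (l 16550448) (c (a (l 16575736) (l 16531832)) (l 16574256))) (a (l 16492872) (l 16457424))) (b (l 16507048) (l 16447376))) (b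 (b (l 16524520) (c (l 16519728) (l 16514312))) (b (l 16468296) (l 16458872)))) (b (c (l 16503408) (l 16499048)) (c (l 16448296) (l 16443000)))))), by decide +kernel⟩

def k22_pm_102 : ∃ t, chk3 f_pm_102 t 30 35 2 = true :=
  ⟨(c (a (b (b (a (c (l 16491944) (l 16461960)) (a (b (c (l 16419528) (l 16407928)) (l 16407368)) (b (l 16397688) (c (l 16379376) (l 16366336))))) (b (a (l 16488232) (a (l 16405736) (c (l 16361752) (l 16349424)))) (c (l 16326512) (l 16359408)))) (b (c (a (l 16471864) (l 16360072)) (l 16346096)) (a (l 16387568) (a (l 16366024) (b (l 16311816) (l 16303960)))))) (b (a (b (b (l 16393544) (c (l 16369760) (l 16354816))) (b (a (l 16336616) (c (l 16337672) (l 16323224))) (a (c (l 16311112) (l 16299240)) (c (l 16304112) (l 16291544))))) (c (a (b (a (l 16322160) (l 16405360)) (l 16328248)) (a (l 16394424) (b (l 16412616) (l 16321448)))) (b (a (b (l 16373464) (l 16342688)) (l 16422864)) (a (l 16314240) (l 16356120))))) (a (b (a (c (b (a (l 16294192) (l 16274392)) (l 16269424)) (b (l 16274992)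 (l 16261840))) (c (l 16248952) (l 16239400))) (b (a (l 16255608) (c (l 16205392) (l 16198816))) (l 16215936))) (c (a (b (l 16253368) (b (l 16197352) (l 16164072))) (b (c (l 16280192) (l 16289896)) (a (l 16209544) (b (l 16251112) (l 16193720))))) (b (l 16263992) (l 16173776)))))) (a (b (b (a (l 16476776) (a (l 16398600) (l 16371056))) (b (a (l 16479000) (l 16368896)) (l 16354400))) (b (l 16299216) (a (l 16444080) (a (l 16358048) (l 16298920))))) (b (a (b (b (l 16375984) (l 16346328)) (b (l 16317104) (a (l 16292536) (l 16284752)))) (b (a (b (l 16383736) (l 16354936)) (l 16412968)) (l 16328016))) (a (b (a (b (l 16268296) (l 16254976)) (l 16232272)) (a (l 16241136) (l 16185048))) (b (l 16257256) (l 16145144)))))), by decide +kernel⟩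

def k23_pm_102 : ∃ t, chk3 f_pm_102 t 30 35 3 = true :=
  ⟨(b (a (b (a (l 16406264) (a (c (l 16391928) (l 16385200)) (c (l 16363864) (l 16356600)))) (a (b (l 16471176) (l 16466784)) (b (c (l 16361656) (l 16354344)) (l 16348992)))) (b (a (b (l 16365296) (c (l 16338712) (l 16331024))) (a (c (b (l 16376856) (l 16347560)) (b (l 16369904) (l 16340096))) (l 16403480))) (c (a (b (l 16308984) (a (l 16283968) (l 16276088))) (l 16320200)) (a (b (l 16300776) (a (l 16275304) (l 16267328))) (l 16312304))))) (a (b (c (l 16334528) (l 16327840)) (a (l 16435144) (a (l 16346824) (b (l 16290096) (l 16282480))))) (a (b (a (c (b (l 16259296) (l 16245752)) (b (l 16250208) (l 16236424))) (l 16217808)) (a (b (l 16231392) (l 16221352)) (l 16169344))) (b (l 16243600) (a (l 16130160) (l 16191360)))))), by decide +kernel⟩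

def k24_pm_102 : ∃ t, chk3 f_pm_102 t 31 68 2 = true :=
  ⟨(a (b (a (a (c (c (c (a (b (c (b (a (l 16716160) (l 16747848)) (l 16684144)) (l 16681712)) (l 16665144)) (a (a (b (c (l 16736352) (l 16768584)) (l 16701984)) (b (l 1) (b (l 16710160) (l 16758240)))) (b (l 1) (c (b (c (l 16742752) (l 16718456)) (c (l 16716648) (l 16737480))) (l 16705120))))) (a (b (a (l 16722560) (l 16693688)) (l 16639184)) (b (l 16735160) (b (l 16706808) (l 16698512))))) (a (b (l 16716728) (l 16689096)) (b (l 16706480) (b (l 16677600) (l 16668944))))) (b (a (l 16677816) (l 16706376)) (b (l 16623312) (l 16653672)))) (b (l 1) (a (b (l 1) (c (c (c (c (l 16706448) (l 16739416)) (l 16729848)) (c (l 16721928) (l 16718440))) (l 16698416))) (l 1)))) (l 1)) (a (c (a (c (c (a (l 16625416) (b (l 16694616) (l 16667128))) (a (l 16577664) (l 16625192))) (a (l 16647312) (b (l 16651048) (l 16622576)))) (a (c (b (c (c (b (a (l 16715128) (l 16741456)) (l 16741208)) (l 16717440)) (a (l 16738072) (l 16719888))) (l 16668048)) (b (c (l 16652576)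 (l 16648808)) (l 16619240))) (c (c (b (c (l 16693952) (l 16703456)) (a (l 16722696) (b (l 16721776) (l 16741608)))) (l 16698360)) (c (b (l 16751352) (l 16691904)) (b (l 16712968) (l 16661504)))))) (b (a (l 16593040) (a (c (l 16698072) (l 16664608)) (l 16656416))) (a (c (l 16632984) (l 16623024)) (c (a (l 16674136) (l 16653176)) (l 16650848))))) (a (a (b (l 1) (c (c (c (c (l 16678848) (l 16709528)) (l 16744288)) (l 16731120)) (c (l 16667808) (l 16688008)))) (l 1)) (l 1)))) (l 1)), by decide +kernel⟩

def k25_pm_102 : ∃ t, chk3 f_pm_102 t 62 69 2 = true :=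
  ⟨(a (c (a (c (a (b (c (l 16569728) (b (l 16599400) (l 16589560))) (c (l 16569832) (l 16541432))) (c (b (l 16621872) (l 16599064)) (l 16491360))) (b (a (l 16589696) (l 16575616)) (l 16496272))) (a (c (c (l 16619304) (b (l 16637208) (l 16590664))) (c (l 16506240) (l 16501032))) (c (l 16609984) (c (a (l 16588056) (l 16608144)) (l 16520936))))) (b (a (b (c (l 16603080) (l 16595568)) (l 16568552)) (c (c (l 16601032) (l 16635056)) (l 16632048))) (c (a (l 16524008) (l 16510152)) (l 16544776)))) (b (a (a (c (c (a (l 16670432) (b (b (l 16707088) (l 16746144)) (l 16724128))) (b (c (l 16749760) (l 16676064)) (l 16652032))) (c (c (b (l 16644304) (l 16636784)) (b (l 16662776) (l 16657288))) (l 16665408))) (c (c (c (b (c (l 16679744) (l 16710744)) (a (l 16724576) (a (l 16703496) (l 223908534423)))) (l 16731496)) (l 16733808)) (c (c (b (l 16730488) (l 16673912)) (b (l 16680064) (l 16625712))) (l 16635656)))) (a (a (c (c (b (l 1) (b (l 1) (l 242699046055))) (l 16723624)) (c (l 235182794967) (l 16682448))) (l 1))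 (l 1))) (c (a (c (l 16672696) (c (l 16673688) (l 16581032))) (c (c (a (b (c (b (l 16710656) (l 16701504)) (l 16703992)) (l 16675088)) (b (c (l 16671144) (l 16677264)) (c (b (l 16673680) (l 16663752)) (l 16687208)))) (l 16620808)) (a (l 16660184) (l 16658112)))) (a (c (c (a (l 16562648) (l 16605872)) (l 16544688)) (l 16618264)) (c (a (c (l 16642688) (l 16597168)) (l 16640696)) (c (a (a (l 16632264) (l 16631968)) (a (l 16646136) (l 16692752))) (a (l 16628256) (a (l 16623080) (l 16658080))))))))), by decide +kernel⟩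

def k26_pm_102 : ∃ t, chk3 f_pm_102 t 63 69 2 = true :=
  ⟨(a (a (a (a (c (c (b (l 1) (c (b (l 1) (l 16662024)) (l 16685256))) (l 16640568)) (c (l 16637784) (l 16668024))) (l 1)) (l 1)) (l 1)) (l 1)), by decide +kernel⟩

def k27_pm_102 : ∃ t, chk3 f_pm_102 t 31 70 2 = true :=
  ⟨(a (a (c (a (c (a (c (l 16331168) (b (l 16473624) (l 16401760))) (c (b (l 16551248) (l 16478680)) (l 16352192))) (c (b (l 16473880) (l 16319008)) (l 16305712))) (c (a (b (l 16482992) (c (l 16503776) (l 16486856))) (l 16485560)) (b (c (a (l 16525512) (l 16570992)) (a (l 16500560) (l 16517704))) (c (a (l 16452648) (l 16475888)) (l 16368552))))) (b (l 16398328) (a (l 16393312) (l 16437736)))) (c (b (a (c (l 16597496) (c (l 16597560) (a (l 16540416) (l 16603896)))) (c (l 16623568) (l 16594120))) (c (l 16511608) (a (c (l 16521496) (l 16477320)) (l 16538896)))) (c (a (a (c (l 16438480) (l 16485536)) (c (l 16479768) (l 16458440))) (b (l 16557608) (l 16486184))) (a (l 16431568) (c (a (c (l 16506000) (l 16492464)) (l 16494976)) (a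 (l 16527912) (a (l 16529168) (l 16510648)))))))) (b (a (c (c (a (c (b (a (a (l 16647784) (l 16628240)) (c (l 16634616) (l 16660752))) (a (l 16636824) (a (l 16647904) (l 16607736)))) (l 16601200)) (a (c (b (l 1) (a (l 16623504) (l 1))) (l 213170932855)) (l 1))) (a (b (l 16645432) (l 16598096)) (l 16578144))) (a (a (c (l 16632120) (c (l 16646520) (l 16586040))) (l 16618176)) (l 16627248))) (l 1)) (c (b (a (a (l 16551520) (c (c (a (a (l 16628600) (l 16611624)) (l 16581488)) (l 16621520)) (a (l 16607952) (l 16610376)))) (l 1)) (a (a (l 16468408) (a (l 16542528) (c (a (l 16606128) (l 176663631959)) (l 16593352)))) (a (a (c (c (l 16564280) (l 16606616)) (l 16597560)) (l 1)) (l 1)))) (a (a (a (c (l 16564552) (l 16578040)) (l 16583384)) (a (l 16552592) (l 16601048))) (l 16595288))))), by decide +kernel⟩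

def k28_pm_102 : ∃ t, chk3 f_pm_102 t 31 71 2 = true :=
  ⟨(a (c (a (c (a (c (b (a (l 16353312) (l 16399768)) (a (l 16276248) (l 16301264))) (b (a (l 16325136) (l 16363880)) (l 16210448))) (c (b (l 16427032) (l 16348784)) (b (a (l 16409040) (l 16432016)) (l 16344048)))) (a (c (l 16231568) (l 16290704)) (a (c (l 16343400) (l 16324480)) (c (l 16387064) (l 16361040))))) (c (b (a (l 16439792) (l 16461664)) (c (l 16288184) (l 16374656))) (a (a (l 16298456) (l 16418200)) (l 16427800)))) (a (a (l 16285464) (l 16203104)) (a (c (a (c (l 16379048) (l 16362560)) (c (l 16419384) (l 16397416))) (l 16370080)) (c (a (l 16371680) (l 16447176)) (c (a (l 16356584) (l 16452080)) (a (l 16401720) (l 16354128))))))) (a (c (a (c (b (l 16474552) (c (l 16397368) (l 16415880))) (l 16432312)) (b (l 16453592) (l 16417536))) (a (a (c (l 16453616) (l 16424192)) (l 16430704)) (a (l 16486848) (l 16506496)))) (a (c (b (c (c (a (b (c (l 16553912) (l 16593952)) (l 16560488)) (b (l 16566736) (l 16511736))) (l 16549984)) (l 16567016))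 (l 16443272)) (b (a (l 16562176) (l 16573240)) (l 16501536))) (c (c (b (a (c (b (l 1) (l 16546872)) (l 16553216)) (l 1)) (c (b (a (c (l 16535024) (l 16555648)) (l 233034959447)) (a (l 16523000) (c (l 16472464) (l 16537792)))) (l 16538304))) (b (l 16573272) (l 16537088))) (b (l 16571272) (c (l 16535472) (l 16533840))))))), by decide +kernel⟩

def k29_pm_102 : ∃ t, chk3 f_pm_102 t 62 17 3 = true :=
  ⟨(b (b (a (b (a (b (a (l 16665248) (l 16693048)) (b (a (l 16665920) (l 16685808)) (l 16642640))) (b (l 1) (b (l 1) (l 16686832)))) (a (c (l 16591872) (l 16589472)) (b (b (l 16666240) (l 16683280)) (l 16648376)))) (b (l 1) (c (l 16682808) (l 16681320)))) (a (b (b (a (l 16549800) (l 16644664)) (l 16587232)) (l 16518952)) (a (b (b (l 16657520) (l 16639032)) (l 16614880)) (b (l 263636906951) (c (a (l 16647648) (l 16637160)) (l 16606568)))))) (b (b (a (l 16474416) (a (l 16545416) (l 16529960))) (a (l 16406016) (c (l 16477768) (l 16494184)))) (c (a (l 16298896) (b (l 16423952) (l 16349160))) (a (l 16290776)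 (l 16380056))))), by decide +kernel⟩

def k30_pm_102 : ∃ t, chk3 f_pm_102 t 63 34 3 = true :=
  ⟨(b (l 1) (a (a (a (a (c (l 264710598007) (l 16662184)) (l 1)) (l 1)) (l 1)) (l 1))), by decide +kernel⟩

def k31_pm_102 : ∃ t, chk3 f_pm_102 t 63 70 3 = true :=
  ⟨(a (c (a (c (b (a (c (a (l 16606088) (l 16603632)) (l 16623896)) (c (l 16611504) (a (l 16616792) (l 16627976)))) (a (c (l 16527312) (l 16555000)) (c (l 16576424) (l 16525288)))) (b (l 16582984) (l 16563288))) (a (c (b (l 259341836455) (a (l 16566752) (l 16610864))) (b (c (l 16619248) (l 16629792)) (c (a (l 16575128) (l 16570512)) (l 16573600)))) (c (l 16577656) (c (l 182032361399) (a (l 16556960) (l 16584568)))))) (a (b (l 16581368) (a (l 16551104) (c (l 16573136) (l 16506896)))) (b (c (l 16627408) (c (l 245920046471) (l 16626768))) (a (c (l 16572440) (c (a (l 16589312) (l 16597360)) (l 16550648))) (c (l 16562072) (b (l 16612200) (c (l 16575104) (l 16599048)))))))) (a (a (c (c (l 16610392) (l 16573552)) (c (c (l 16576240) (l 16611184)) (l 235182587511)))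 (l 1)) (l 1))), by decide +kernel⟩

def k32_pm_102 : ∃ t, chk3 f_pm_102 t 63 71 3 = true :=
  ⟨(a (c (a (c (a (c (l 16372728) (l 16441864)) (c (l 16422424) (a (l 16461888) (l 16442224)))) (l 16386336)) (c (b (l 16479040) (l 16444224)) (a (c (l 16432584) (l 16484456)) (c (l 16521072) (l 16432200))))) (c (a (a (l 16437072) (l 16459104)) (a (l 16439904) (c (l 16507208) (l 16505512)))) (a (c (b (l 16437984) (l 16361968)) (l 16316512)) (b (l 16447712) (c (l 16388568) (l 16454056)))))) (c (c (a (b (l 16523472) (l 16500784)) (b (l 16569264) (l 16511232))) (a (b (a (c (l 16568024) (l 16549720)) (l 16573928)) (c (l 16503824) (l 16505360))) (b (l 240014317223) (c (l 16509064) (a (l 16526480) (l 16517760)))))) (a (c (c (a (c (b (l 16530904) (l 16498240)) (l 16425928)) (b (l 188474709991) (l 16493624))) (a (b (l 16500576) (l 16489416)) (c (b (a (l 16558272) (l 16583120)) (l 16497504)) (a (l 183105845511) (l 16485936))))) (a (c (b (b (l 16545936) (l 16556400)) (l 16476104)) (l 16523704)) (l 16476240))) (a (c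 (c (b (l 16571200) (l 16446040)) (l 197064534759)) (c (b (l 16570488) (a (l 16528488) (l 16511744))) (l 16526960))) (c (b (l 1) (l 16536808)) (c (l 16550784) (a (l 16465744) (l 230887436839)))))))), by decide +kernel⟩

def k33_pm_102 : ∃ t, chk3 f_pm_102 t 6 18 1 = true :=
  ⟨(a (a (l 3) (a (l 3) (a (l 3) (b (l 3) (b (l 3) (c (l 397988947351) (l 16633800))))))) (a (b (l 3) (a (b (l 3) (b (c (l 16670048) (l 16666272)) (c (l 16720208) (l 16718200)))) (c (b (b (l 16558136) (l 16610824)) (b (l 16658624) (l 16701928))) (b (b (l 16550416) (l 16604968)) (b (l 16654448) (l 16699272)))))) (a (b (b (l 3) (a (l 3) (b (l 3) (c (c (l 16498744) (l 16493264)) (l 244980221831))))) (c (b (b (c (l 16550152) (l 16546152)) (l 16593272)) (b (l 16636576) (c (l 16683744) (l 16682104)))) (b (b (l 16498104) (l 16586792)) (b (l 16631624) (c (l 16680448) (l 16678760)))))) (a (b (b (l 3) (b (c (c (l 16429008) (l 16417720)) (l 16400528)) (c (l 16458376) (l 16462296)))) (c (b (b (c (l 16531960) (l 16526168)) (c (l 16579360) (l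 16575632))) (b (c (l 16628624) (l 16626336)) (l 16680024))) (b (b (l 16496376) (c (l 16571856) (l 16568032))) (b (c (l 16624008) (l 16621648)) (l 16677296))))) (b (b (b (l 3) (c (l 16390928) (l 16362056))) (c (c (l 16417312) (l 16470456)) (b (l 16427336) (l 16485040)))) (b (c (b (l 16553960) (c (l 16610552) (l 16608416))) (b (l 16543128) (l 16584184))) (c (l 16584368) (l 16622560)))))))), by decide +kernel⟩

def k34_pm_102 : ∃ t, chk3 f_pm_102 t 6 19 1 = true :=
  ⟨(a (a (b (b (l 3) (a (c (l 449528723783) (l 465097979911)) (c (l 341617668087) (l 344302019815)))) (c (b (b (l 16775904) (l 16775008)) (b (l 16772744) (c (l 16766968) (l 16766792)))) (b (b (l 16775864) (l 16774928)) (b (l 16772592) (c (l 16766608) (l 16766424)))))) (b (b (a (b (l 3) (c (l 16777200) (l 16777200))) (c (b (l 247665176263) (l 16777080)) (b (l 227800950679) (l 16777080)))) (c (b (l 16774664) (l 16772944)) (b (l 16774576) (l 16772792)))) (b (c (b (c (l 16768848) (l 16768696)) (c (l 16762824) (l 16762576))) (b (c (l 16768552)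 (l 16768400)) (c (l 16762320) (l 16762064)))) (b (c (c (l 16749784) (l 16749304)) (c (l 16748816) (l 16748328))) (l 16679776))))) (b (b (c (a (b (b (l 16743104) (a (l 16762624) (l 16749416))) (a (l 16776888) (c (l 16776216) (l 16776200)))) (b (a (b (l 16719840) (l 16745792)) (l 16649944)) (a (l 16770120) (a (l 16767912) (l 16704680))))) (a (b (b (l 16741896) (c (l 16755224) (l 16754840))) (a (l 16776880) (c (l 16776184) (l 16776168)))) (a (b (b (l 16686360) (l 16744688)) (l 16769872)) (a (l 16697896) (l 16618488))))) (a (b (c (c (l 16765640) (l 16765440)) (c (l 16765232) (l 16765024))) (c (c (l 16757328) (l 16756984)) (c (l 16756632) (l 16756272)))) (a (l 16737672) (c (l 16746640) (l 16745784))))) (a (a (b (b (l 16750704) (l 16728704)) (l 16685928)) (b (l 16713344) (l 16651816))) (b (a (l 16685832) (a (l 16668456) (l 16698112))) (a (l 16616960) (c (l 16609200) (l 16603472))))))), by decide +kernel⟩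

def k35_pm_102 : ∃ t, chk3 f_pm_102 t 14 36 1 = true :=
  ⟨(b (b (a (c (a (a (l 96266732327) (c (l 16425784) (l 16410664))) (b (c (l 16471856) (l 16458192)) (a (l 16471616) (c (l 16520480) (l 16509880))))) (a (a (l 16338312) (l 16366688)) (a (l 16430448) (c (l 16438976) (l 16468984))))) (a (a (c (a (c (b (l 16529232) (l 16560624)) (l 16495280)) (l 16567648)) (a (b (l 16502392) (l 16539680)) (l 16552192))) (c (l 16611320) (l 16605672))) (c (a (l 16587976) (l 16534936)) (a (l 16581608) (l 16526256))))) (a (c (a (a (c (l 16440176) (l 16427088)) (l 16471912)) (c (a (l 16475160) (b (l 16553688) (l 16585032))) (a (l 16507136) (l 16560328)))) (a (a (l 16407168) (l 16448168)) (c (a (l 16497056) (l 16534608)) (a (l 16486864) (l 16527152))))) (c (a (a (l 16621000) (l 16644464)) (a (l 16606576) (l 16558936))) (a (l 16563056) (l 16554640))))) (a (c (a (b (c (a (l 16491544) (l 16530232)) (l 16499504)) (c (a (l 16543504) (l 16590120)) (l 16538544))) (b (a (c (l 16580024) (l 16574024)) (l 16629520)) (l 16656272)))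 (a (b (c (l 16490160) (l 16480704)) (c (l 16553600) (l 16547616))) (b (a (c (l 16567952) (l 16561808)) (l 16624040)) (l 16653904)))) (a (c (b (l 16653456) (l 16656224)) (b (l 16649200) (l 16651832))) (c (b (a (l 16628016) (l 16586664)) (a (l 16647560) (l 16615560))) (b (l 16559024) (a (l 16642992) (l 16609984))))))), by decide +kernel⟩

def k36_pm_102 : ∃ t, chk3 f_pm_102 t 14 37 1 = true :=
  ⟨(a (b (c (a (b (c (l 16604120) (l 16622936)) (l 16646272)) (c (l 16658776) (l 16656664))) (a (b (c (l 16620752) (l 16618536)) (l 16642672)) (l 16653456))) (c (a (l 16646768) (l 16666360)) (a (l 16642144) (l 16662520)))) (c (b (a (c (l 16666640) (l 16664704)) (b (a (l 16664240) (c (l 16648048) (l 16645976))) (a (l 16677200) (a (l 16678760) (l 16665600))))) (a (b (l 16680720) (l 16691760)) (a (b (l 16691360) (l 16703352)) (l 16691408)))) (b (a (l 16661768) (b (a (l 16660496) (l 16621856)) (a (l 16674192) (l 16647840)))) (a (b (l 16677736) (l 16689488)) (a (b (l 16689176) (l 16701928)) (l 16689592)))))), by decide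 +kernel⟩

def k37_pm_102 : ∃ t, chk3 f_pm_102 t 30 18 1 = true :=
  ⟨(b (a (a (b (c (b (l 16430464) (a (l 16507344) (l 16454264))) (b (l 16439728) (l 16384512))) (c (b (c (l 16494504) (l 16510872)) (a (l 16571656) (l 16518824))) (b (l 16419984) (l 16517312)))) (b (a (c (b (b (l 16359312) (l 16376648)) (l 16381840)) (b (b (l 16344352) (l 16362352)) (l 16389544))) (b (b (c (l 16304296) (l 16287432)) (l 16311912)) (l 16316768))) (c (l 16422784) (l 16410536)))) (c (a (b (b (l 16223968) (l 16259768)) (l 16313048)) (b (c (a (b (a (l 16158440) (l 16156496)) (l 16191744)) (a (b (l 16145568) (l 16184344)) (c (b (l 16190304) (a (l 16186616) (l 16192384))) (l 16184376)))) (b (a (l 16148064) (l 16165944)) (l 16179824))) (c (a (l 16247520) (l 16199424)) (l 16234664)))) (a (b (l 16222832) (l 16297072)) (b (b (a (l 16131496) (l 16149936)) (a (l 16165984) (l 16160928))) (l 16220776))))) (a (c (b (l 16412760) (a (l 16601416) (l 16552064))) (b (l 16467976) (l 16486672))) (c (a (b (l 16383432) (l 16452944)) (c (a (l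 16315744) (b (l 16317848) (l 16393496))) (l 16307360))) (a (l 16280912) (b (l 16299840) (l 16378120)))))), by decide +kernel⟩

def k38_pm_102 : ∃ t, chk3 f_pm_102 t 62 18 2 = true :=
  ⟨(a (b (c (b (a (c (a (c (l 16228200) (l 16185208)) (c (l 16272888) (l 16243384))) (a (l 16199192) (l 16220720))) (c (a (l 16269224) (l 16307328)) (c (a (l 16260616) (l 16304624)) (l 16219920)))) (a (c (a (c (l 16261840) (l 16240008)) (c (l 16266360) (l 16257936))) (a (l 16233304) (l 16235424))) (c (a (b (l 16255840) (l 16296992)) (l 16295288)) (a (b (l 16239600) (l 16260008)) (c (l 16271584) (l 16266160)))))) (b (a (l 16202336) (l 16245080)) (a (l 16227840) (b (l 16231208) (l 16244392))))) (c (c (a (c (a (l 16357400) (l 16339528)) (b (l 16328216) (l 16406504))) (b (l 16330720) (l 16432672))) (a (l 16289224) (c (a (l 16348112) (l 16348576)) (l 16212808)))) (b (l 16304200) (l 16385848)))) (a (b (c (c (b (l 16315696) (l 16298336)) (a (b (l 16321056) (l 16282352)) (l 16326880))) (c (b (a (l 16289888) (c (l 16336968) (l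 16314648))) (a (l 16230112) (l 16266512))) (b (l 16286592) (l 16268952)))) (c (c (b (l 16328144) (l 16409040)) (b (a (l 16342504) (l 16337888)) (l 16420624))) (c (a (b (l 16311680) (l 16396544)) (b (c (l 16338664) (l 16316424)) (l 16411320))) (l 16216232)))) (b (c (b (l 16343360) (c (l 16318792) (l 16327472))) (c (b (l 16356864) (a (l 16335128) (l 16347456))) (b (c (a (l 16336768) (l 16369736)) (a (l 16318640) (l 16355328))) (a (l 16275224) (c (l 16351944) (l 16337456)))))) (c (b (a (b (l 16309424) (l 16330936)) (b (l 16318480) (l 16259368))) (a (l 16372208) (l 16370200))) (c (b (a (b (l 16325560) (l 16347808)) (l 16338672)) (a (l 16410880) (l 16388216))) (b (a (c (l 16280696) (l 16304464)) (b (l 16289560) (c (l 16343680) (l 16329224)))) (a (c (l 16395992) (l 16378232)) (l 16363816)))))))), by decide +kernel⟩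

def k39_pm_102 : ∃ t, chk3 f_pm_102 t 63 18 2 = true :=
  ⟨(c (b (a (a (b (a (l 16362864) (l 16381464)) (a (l 16346048) (l 16356784))) (b (l 16408304) (l 16377784))) (b (a (l 16449032) (b (l 16501584) (l 16478792))) (c (l 16426416) (l 16423848)))) (a (b (a (c (l 16323664) (l 16324312)) (c (l 16341080) (l 16338856))) (a (c (l 16336416) (l 16337256)) (c (l 16292824) (l 16311376)))) (c (b (l 16374944) (a (l 16311832) (l 16322840))) (b (l 16371960) (a (l 16308296) (l 16319440)))))) (a (b (a (b (c (l 16378904) (a (l 16382904) (l 16394328))) (c (l 16358704) (a (l 16365816) (l 16369296)))) (c (b (l 16406712) (l 16375864)) (b (l 16410640) (l 16379576)))) (c (b (a (l 16329728) (l 16337920)) (a (l 16342864) (l 16310248))) (b (a (a (l 16340040) (l 16338064)) (l 16341336)) (a (a (l 16365424) (l 16338016)) (l 16271528))))) (b (b (a (c (l 16445352) (l 16443472)) (b (l 16497720) (l 16474552))) (c (l 16421272) (l 16356112))) (c (b (l 16368960) (a (l 16304736) (l 16316032))) (b (l 16303368) (a (l 16301736) (l 16312592))))))),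 by decide +kernel⟩

def k40_pm_102 : ∃ t, chk3 f_pm_102 t 62 18 3 = true :=
  ⟨(b (b (a (b (l 16214392) (l 16204200)) (c (l 16302416) (l 16294480))) (a (b (l 16188024) (l 16231856)) (a (l 16258096) (a (l 16292096) (b (l 16319944) (c (l 16312856) (c (l 16307184) (c (l 16276632) (l 16301480))))))))) (a (l 16271600) (a (b (l 16289880) (l 16375520)) (b (b (a (l 16282400) (c (l 16304832) (c (l 16299104) (c (a (l 16291232) (l 16302296)) (l 16293584))))) (c (c (l 16311264) (l 16307128)) (c (a (l 16301624) (l 16303368)) (c (c (a (l 16301008) (l 16301632)) (a (l 16291464) (l 16278784))) (a (l 16295864) (a (l 16296968) (l 16295744))))))) (c (c (l 16348168) (l 16323632)) (c (a (l 16368040) (l 16289392)) (c (a (c (l 16367296) (l 16255624)) (c (l 16352720) (b (l 16318824) (l 16320824)))) (a (c (c (l 16363312) (l 16362112)) (l 16364120)) (l 16270152))))))))), by decide +kernel⟩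

def k41_pm_102 : ∃ t, chk3 f_pm_102 t 126 36 3 = true :=
  ⟨(c (a (c (b (a (c (l 16352000) (l 16357848)) (c (l 16401560) (l 16370592))) (a (c (l 16355736) (l 16340584)) (c (l 16376488) (l 16366392)))) (b (a (l 16354816) (l 16377584)) (a (l 16337672) (l 16352136)))) (c (c (l 16399896) (a (l 16380056) (l 16407304))) (c (a (b (l 16406872) (l 16377784)) (l 16349440)) (b (a (l 16395472) (l 16422968)) (l 16337376))))) (b (c (a (b (l 16366904) (l 16316392)) (c (l 16403816) (c (l 16401224) (a (l 16392104) (l 16411128))))) (a (b (c (c (l 16341520) (l 16363768)) (l 16341488)) (c (a (l 16319528) (l 16360040)) (l 16334232))) (c (b (c (l 16387120) (l 16410432)) (c (l 16355808) (l 16399144))) (l 16402576)))) (c (a (c (l 16343720) (a (l 16333360) (l 16347936))) (c (l 16369392) (c (l 16368296) (a (l 16360712) (l 16380160))))) (c (a (a (c (l 16332168) (a (l 16326224) (l 16322016))) (b (l 16350720) (l 16298920))) (c (b (l 16322864) (l 16287680)) (l 16356272))) (a (c (l 16259320) (l 16341800)) (l 16367496)))))), by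 decide +kernel⟩

def k42_pm_102 : ∃ t, chk3 f_pm_102 t 127 36 3 = true :=
  ⟨(c (c (b (a (l 16443104) (b (l 16494800) (l 16471368))) (c (l 16417608) (a (l 16402016) (l 16428856)))) (b (a (c (l 16445784) (c (l 16449360) (l 16445104))) (c (a (l 16471032) (l 16491328)) (b (l 16471952) (l 16408040)))) (c (a (l 16404696) (c (l 16428456) (l 16430688))) (a (a (l 16400448) (l 16366552)) (c (l 16412024) (l 16432840)))))) (c (a (a (c (b (c (l 16441376) (l 16436016)) (c (l 16400464) (l 16378560))) (b (c (l 16432712) (l 16433936)) (c (l 16396152) (l 16392600)))) (c (b (c (l 16455120) (l 16415480)) (c (l 16414448) (l 16413656))) (b (c (a (l 16451344) (l 16462952)) (l 16454240)) (l 16410896)))) (b (a (c (c (l 16471976) (l 16470232)) (l 16471920)) (l 16490456)) (l 16429648))) (a (l 16378208) (b (a (c (l 16448408) (l 16469152)) (c (l 16489896) (a (l 16481856) (l 16493120)))) (a (l 16332296) (c (l 16435240) (l 16433368))))))), by decide +kernel⟩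

def k43_pm_102 : ∃ t, chk3 f_pm_102 t 63 37 6 = true :=
  ⟨(a (c (a (b (c (a (l 16329800) (l 16345088)) (l 16244776)) (c (a (l 16355416) (l 16345096)) (l 16300296))) (b (c (l 16344904) (l 16344968)) (c (l 16316888) (l 16274912)))) (a (b (l 16253248) (c (l 16331240) (l 16329504))) (c (b (a (l 16341424) (l 16353352)) (a (l 16319120) (l 16313888))) (b (l 16340424) (b (l 16244064) (c (l 16310040) (l 16282456))))))) (c (a (b (l 16354048) (l 16300232)) (c (b (l 16375184) (l 16304304)) (b (a (l 16366136) (l 16377928)) (c (l 16305920) (l 16309704))))) (b (c (a (l 16352096) (c (l 16373560) (l 16376064))) (a (c (l 16356472) (a (l 16356376) (l 16361456))) (c (l 16374864) (l 16370616)))) (c (a (a (l 16299176) (l 16255400)) (b (l 16245912) (l 16253504))) (a (c (a (l 16303552) (l 16302928)) (a (l 16267352) (l 16300024))) (l 16304960)))))), by decide +kernel⟩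

def k44_pm_102 : ∃ t, chk3 f_pm_102 t 63 37 7 = true :=
  ⟨(a (a (b (c (c (l 16313840) (a (l 16307024) (l 16313552))) (c (a (b (l 16262248) (c (l 16298416) (l 16234096))) (c (a (l 16309120) (l 16317560)) (l 16280440))) (c (l 16271048) (l 16311088)))) (c (c (l 16327816) (c (l 16301488) (a (l 16331960) (b (l 16300048) (l 16329032))))) (a (c (c (b (l 16311856) (l 16348016)) (c (a (l 16335128) (l 16327968)) (l 16298088))) (b (l 16324760) (l 16347560))) (c (c (c (l 16317864) (b (l 16303128) (l 16326944))) (l 16313976)) (l 16312664))))) (c (b (c (c (l 16330152) (l 16329544)) (c (a (l 16324472) (l 16340040)) (a (l 16327528) (c (l 16337112) (l 16335840))))) (c (c (a (l 16304416) (l 16298616)) (b (l 16300592) (l 16239968))) (a (c (b (l 16298248) (l 16309520)) (b (l 16299984) (l 16305440))) (l 16296536)))) (b (a (c (c (c (l 16328040) (l 16316504)) (l 16324176)) (l 16322888)) (l 16333968)) (l 16300200)))) (c (b (a (c (a (c (l 16336704) (l 16355496)) (l 16360144)) (l 16352688)) (l 16370512)) (a (c (a (c (a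 (l 16303328) (l 16306544)) (l 16300392)) (l 16301576)) (l 16297880)) (l 16304096))) (a (l 16301504) (c (a (l 16248184) (l 16339384)) (a (l 16331296) (a (l 16334248) (l 16297024))))))), by decide +kernel⟩

def k45_pm_102 : ∃ t, chk3 f_pm_102 t 14 19 1 = true :=
  ⟨(b (a (b (c (b (a (l 16653296) (l 16678168)) (a (a (b (l 16660016) (l 16669840)) (l 16661776)) (b (l 16685376) (l 16685736)))) (b (a (l 16648920) (l 16675128)) (a (a (l 16663200) (l 16658000)) (l 16683024)))) (a (c (a (l 16689856) (l 16650760)) (l 16629568)) (b (l 16671032) (c (l 16654144) (l 16650768))))) (b (a (c (b (l 16682856) (b (l 16713376) (a (l 16711032) (l 16709920)))) (b (l 16702336) (b (l 16712504) (l 16712672)))) (c (b (l 16708624) (b (l 16698048) (l 16694360))) (b (l 16707784) (l 16695208)))) (a (b (c (l 16693856) (l 16692424)) (l 16617472)) (c (l 16638048) (l 16656616))))) (a (b (a (c (l 16665512) (l 16705928)) (a (c (b (l 16635304) (l 16633096)) (l 16589552)) (b (l 16639344) (l 16601808)))) (a (c (l 16565352) (l 16542560))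 (a (b (l 16610160) (l 16627504)) (l 16506184)))) (b (a (l 16532496) (c (l 16537448) (l 16552120))) (a (l 16473264) (c (l 16442856) (l 16432040)))))), by decide +kernel⟩

def k46_pm_102 : ∃ t, chk3 f_pm_102 t 30 19 1 = true :=
  ⟨(b (a (b (c (b (l 16550392) (b (l 16587328) (l 16564504))) (b (l 16589168) (b (l 16647904) (l 16604136)))) (b (a (l 16639752) (l 16554528)) (l 16443440))) (c (b (a (b (l 16504480) (b (l 16530032) (l 16534024))) (c (b (l 16448720) (b (l 16476056) (a (l 16478624) (l 16481032)))) (b (l 16443464) (l 16473304)))) (a (l 16404840) (a (l 16409080) (l 16301432)))) (b (b (l 16424472) (a (l 16504784) (l 16446152))) (a (l 16459088) (l 16396640))))) (a (c (b (l 16353200) (l 16261688)) (b (l 16427480) (l 16309824))) (a (b (c (l 16338896) (l 16325328)) (l 16160664)) (a (b (l 16215232) (l 16125288)) (c (b (a (l 16284160) (l 16282072)) (l 16075352)) (l 16127656)))))), by decide +kernel⟩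

def k47_pm_102 : ∃ t, chk3 f_pm_102 t 62 19 2 = true :=
  ⟨(b (a (b (c (b (c (a (c (l 16487752) (l 16464624)) (l 16492816)) (a (l 16450120) (l 16412520))) (c (a (b (c (l 16516440) (l 16493480)) (c (l 16498800) (l 16496840))) (b (l 16522680) (l 16525856))) (b (a (l 16479216) (l 16463688)) (a (l 16482616) (c (l 16494408) (l 16495032)))))) (b (l 16446504) (b (l 16476632) (l 16480024)))) (c (c (a (c (l 16402184) (l 16420840)) (l 16424256)) (a (l 16406088) (c (l 16413216) (l 16413464)))) (l 16399992))) (c (b (a (b (c (l 16469784) (l 16481864)) (c (b (l 16499856) (l 16501944)) (b (l 16512280) (l 16514432)))) (b (a (l 16452968) (l 16420928)) (b (l 16461736) (l 16439008)))) (a (a (l 16345720) (l 16328768)) (l 16278080))) (b (a (c (b (l 16384272) (b (l 16415064) (a (l 16494208) (l 16486792)))) (b (l 16445280) (l 16456088))) (c (b (l 16433976) (b (l 16477784) (l 16475840))) (b (a (l 16454984) (l 16436712)) (b (l 16426496) (l 16382696))))) (a (c (a (l 16406624) (l 16310336)) (l 16387792)) (c (l 16376376) (l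 16261376)))))) (c (a (a (c (b (c (l 16317584) (l 16293696)) (c (l 16180880) (l 16156344))) (b (l 16278048) (l 16139720))) (b (c (l 16311896) (l 16167064)) (c (a (l 16184216) (l 16171400)) (a (l 16146488) (l 16155808))))) (a (a (b (c (l 16286064) (l 16294512)) (c (l 16143232) (l 16150376))) (l 15993432)) (c (l 16122832) (l 16130064)))) (a (b (l 16266848) (a (l 16130728) (l 16117144))) (c (a (a (b (l 16263424) (l 16117984)) (l 16076872)) (l 16075872)) (a (b (l 16240928) (l 16090352)) (c (l 16132568) (l 16121656))))))), by decide +kernel⟩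

def k48_pm_102 : ∃ t, chk3 f_pm_102 t 63 19 2 = true :=
  ⟨(c (b (b (a (b (c (l 16355440) (l 16355088)) (b (c (l 16374960) (l 16374824)) (c (l 16370480) (l 16370320)))) (b (c (a (l 16291152) (l 16273184)) (l 16239688)) (b (c (l 16280152) (l 16276400)) (c (l 16268744) (l 16264896))))) (c (a (l 16270672) (l 16165840)) (a (l 16269592) (l 16161048)))) (c (a (l 15801728) (l 15689928)) (a (l 15882304) (l 15787704)))) (b (c (b (a (b (l 16359680) (b (l 16379632) (l 16333152))) (b (l 16256912) (b (l 16272624) (l 16261024)))) (a (l 16231496) (l 16156224))) (b (a (b (a (l 16391128) (l 16331456)) (b (l 16277632) (a (l 16409208) (l 16344608)))) (b (a (l 16280608) (l 16261640)) (b (l 16269168) (c (l 16258200) (l 16253896))))) (c (l 15986128) (a (l 16253128) (a (l 16177936) (l 16115704)))))) (a (c (l 15800024) (c (l 16034760) (l 15923688))) (c (l 15801552) (a (l 15734840) (c (b (l 15950832) (l 15781720)) (b (l 15948800) (l 15787472)))))))), by decide +kernel⟩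

def k49_pm_102 : ∃ t, chk3 f_pm_102 t 124 19 3 = true :=
  ⟨(b (b (b (l 16439176) (l 16451120)) (l 16391584)) (b (l 16254696) (a (l 16115000) (a (l 16110456) (c (l 16103856) (c (l 16095752) (c (c (l 16094624) (l 16083040)) (l 16046280)))))))), by decide +kernel⟩

def k50_pm_102 : ∃ t, chk3 f_pm_102 t 250 19 3 = true :=
  ⟨(b (b (a (b (l 16441272) (l 16475512)) (a (b (l 16441824) (l 16476464)) (c (b (l 16441944) (l 16475600)) (c (b (l 16438496) (l 16472696)) (c (b (l 16436760) (b (l 16470592) (l 16472816))) (b (l 16411760) (b (l 16423960) (b (c (l 16481064) (l 16479768)) (l 16397576))))))))) (c (c (l 16384392) (l 16381000)) (c (a (l 16381712) (l 16293160)) (c (c (a (l 16382952) (l 16376488)) (c (b (l 16322832) (l 16292104)) (l 16310168))) (c (c (b (l 16411544) (l 16270752)) (l 16309840)) (l 16312136)))))) (c (c (b (l 16236256) (l 16084504)) (a (l 16080392) (l 16139888))) (c (c (b (l 16228976) (l 16074736)) (a (l 16074360) (b (l 16214992) (l 16054848)))) (c (a (b (c (l 16233896) (l 16120288)) (c (l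 16082272) (l 16083168))) (b (c (l 16213936) (a (l 16212968) (l 16120720))) (c (c (l 16052480) (l 16049064)) (l 15905136)))) (a (c (b (l 16099480) (l 15954184)) (l 16007736)) (c (l 15941240) (l 16131936))))))), by decide +kernel⟩

def k51_pm_102 : ∃ t, chk3 f_pm_102 t 251 19 3 = true :=
  ⟨(b (b (c (c (b (l 16427160) (l 16407008)) (b (l 16424544) (b (l 16447016) (l 16445432)))) (b (c (a (l 16431848) (l 16387032)) (c (a (a (l 16434952) (l 16423616)) (c (l 16405600) (c (l 16403904) (l 16409064)))) (c (a (a (l 16432504) (l 16421088)) (l 16411704)) (l 16424296)))) (c (a (b (l 16456568) (l 16413552)) (b (l 16433416) (c (l 16431496) (l 16430336)))) (c (a (b (a (l 16462288) (l 16450752)) (c (l 16455632) (a (l 16461608) (l 16447696)))) (b (c (l 16429280) (c (l 16430352) (l 16419144))) (c (b (l 16436008) (l 16417256)) (c (b (l 16438296) (l 16420200)) (a (l 16415288) (l 16422104)))))) (b (c (l 16422032) (l 16445832)) (b (c (b (c (l 16434488) (l 16457928)) (l 16429488)) (l 16433056)) (c (l 16414440) (l 16435384))))))))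 (c (c (l 16347064) (l 16343264)) (c (c (l 16341448) (a (l 16353232) (l 16218056))) (a (c (c (c (l 16352408) (l 16350768)) (c (b (l 16392280) (l 16307312)) (l 16265280))) (c (l 16269656) (l 16353728))) (c (c (a (l 16329680) (l 16320632)) (c (a (l 16333128) (l 16186432)) (l 16253664))) (l 16323232)))))) (c (c (l 16105104) (l 15973720)) (c (c (b (l 16176856) (l 16008832)) (c (a (l 16105232) (l 15971152)) (b (a (l 16186560) (l 16159752)) (a (l 16022296) (l 16001112))))) (c (c (b (c (a (l 16183784) (l 16162464)) (a (l 16184552) (b (l 16203104) (l 16117056)))) (a (c (l 16024992) (a (l 16032040) (l 16018384))) (l 15994552))) (a (b (c (a (l 16191464) (l 16181632)) (l 16175040)) (l 15974296)) (l 16074984))) (b (l 16093160) (l 16005360)))))), by decide +kernel⟩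

def k52_pm_102 : ∃ t, chk3 f_pm_102 t 63 76 6 = true :=
  ⟨(b (a (c (a (c (l 16394288) (l 16386656)) (l 16334064)) (a (l 16375184) (c (l 16336376) (c (l 16329776) (l 16304640))))) (c (a (c (l 16278808) (l 16274632)) (c (l 16232336) (a (l 16256616) (l 16261128)))) (c (a (a (l 16286584) (l 16247064)) (l 16217056)) (a (c (l 16204880) (l 16242496)) (l 16253032))))) (a (c (a (b (l 16306624) (c (l 16412528) (l 16405016))) (b (l 16352816) (l 16284472))) (a (b (l 16397464) (l 16351760)) (c (b (l 16355280) (a (l 16363816) (l 16338160))) (b (c (l 16347240) (l 16345880)) (a (l 16349968) (c (l 16332552) (a (l 16331640) (l 16326776)))))))) (c (b (a (l 16241656) (c (l 16238704) (a (l 16250520) (l 16232784)))) (c (a (l 16282176) (a (l 16237184) (l 16216240))) (a (l 16191992) (a (l 16180304) (l 16212096))))) (a (c (b (a (l 16303408) (l 16278216)) (b (a (l 16307072) (l 16259936)) (l 16193088))) (c (b (l 16299744) (a (l 16307616) (l 16265952))) (l 16287880))) (l 16231840))))), by decide +kernel⟩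

def k53_pm_102 : ∃ t, chk3 f_pm_102 t 63 76 7 = true :=
  ⟨(c (a (a (b (c (l 16370824) (c (l 16367472) (a (l 16380304) (l 16362456)))) (c (b (l 16391272) (c (l 16391968) (l 16365768))) (b (c (l 16391080) (a (l 16404616) (l 16384408))) (c (a (l 16402464) (b (l 16388416) (l 16369992))) (a (b (l 16411616) (l 16393376)) (c (l 16378176) (l 16376240))))))) (b (c (c (l 16323824) (l 16327832)) (c (c (l 16325848) (l 16321808)) (l 16321176))) (c (b (c (l 16345200) (l 16347664)) (c (a (l 16350544) (l 16324576)) (a (l 16333176) (l 16322528)))) (l 16338104)))) (a (c (a (l 16276544) (l 16249856)) (b (l 16276248) (l 16262520))) (b (l 16251832) (b (l 16235640) (l 16220208))))) (c (a (a (a (b (c (c (l 16382360) (l 16384656)) (c (a (l 16390488) (l 16376040)) (l 16381800))) (c (b (l 16409608) (c (l 16363744) (l 16341808))) (l 16403912))) (l 16367864)) (l 16328488)) (a (l 16277648) (a (b (l 16249120) (l 16173144)) (b (l 16246912) (l 16213408))))) (a (l 16353176) (a (l 16275792) (a (l 16222832) (b (l 16244256) (b (l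 16218688) (l 16199416)))))))), by decide +kernel⟩

def k54_pm_102 : ∃ t, chk3 f_pm_102 t 63 77 3 = true :=
  ⟨(c (a (c (a (c (l 16309952) (l 16301960)) (l 16201104)) (a (l 16268976) (a (c (l 16259128) (l 16201632)) (c (l 16228080) (c (l 16230184) (l 16228984)))))) (c (c (a (l 16174752) (l 16016856)) (a (a (l 16187016) (l 16159264)) (a (l 16138560) (l 16103712)))) (a (c (c (l 16179144) (l 16163352)) (c (l 16183760) (l 16176984))) (l 16114008)))) (a (c (c (a (c (l 16282320) (l 16240864)) (c (l 16175000) (l 16235296))) (a (c (a (l 16296864) (l 16276776)) (a (l 16280840) (l 16270944))) (l 16228800))) (c (a (a (c (c (l 16301784) (l 16297656)) (l 16297000)) (l 16269528)) (l 16226720)) (l 16253256))) (c (a (a (l 16190552) (l 16050400)) (l 16110600)) (a (l 16166816) (c (a (l 16121696) (l 16091392)) (l 15997432)))))), by decide +kernel⟩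

def k55_pm_102 : ∃ t, chk3 f_pm_102 t 63 39 3 = true :=
  ⟨(c (a (c (a (c (l 16044000) (l 16055848)) (c (l 15995688) (a (l 16018584) (l 15907632)))) (c (a (l 16043584) (a (c (l 16007696) (l 15976768)) (c (l 15981000) (l 15880840)))) (a (c (l 16034968) (l 15845216)) (c (a (l 15997664) (l 15856304)) (a (l 15979672) (l 15971096)))))) (c (c (a (a (l 15933064) (l 15737464)) (b (l 15851400) (l 15788120))) (a (c (l 15776736) (b (l 16009096) (l 15844976))) (l 15860768))) (a (c (c (l 15741352) (l 15926464)) (l 15922056)) (l 15855264)))) (a (c (c (a (c (b (l 16116960) (l 15958344)) (b (l 16121344) (l 15961272))) (c (l 15878904) (l 15976904))) (a (a (c (b (l 16135624) (l 15972376)) (b (l 16136040) (l 15966416))) (l 16019784)) (l 15974472))) (l 16000032)) (c (a (c (l 15790664) (l 15913720)) (l 15849472)) (a (l 15907032) (c (a (l 15859672) (l 15827488)) (l 15628432)))))), by decide +kernel⟩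

def k56_pm_102 : ∃ t, chk3 f_pm_102 t 4 5 1 = true :=
  ⟨(b (b (b (b (l 3) (l 2)) (l 2)) (l 2)) (l 2)), by decide +kernel⟩

def k57_pm_102 : ∃ t, chk3 f_pm_102 t 10 20 1 = true :=
  ⟨(a (b (b (l 3) (c (b (l 704542408007) (c (l 16777032) (l 16777024))) (b (l 640117898551) (l 16777024)))) (b (b (c (l 16776848) (l 16776832)) (c (c (l 16776816) (l 16776808)) (c (l 16776800) (l 16776792)))) (a (l 2) (b (b (c (c (l 16768952) (l 16768808)) (c (l 16768664) (l 16768512))) (a (l 2) (l 16734128))) (a (l 2) (b (l 16690496) (c (l 16637784) (l 16654600)))))))) (b (c (b (b (l 695952473783) (l 471540431127)) (b (l 220821716311) (l 16776520))) (b (b (l 16777216) (l 16777056)) (b (l 16776768) (l 16776496)))) (b (b (c (c (l 16773400) (l 16773328)) (c (l 16773264) (l 16773192))) (c (b (c (l 16768112) (l 16767952)) (a (c (l 16768832) (l 16768688)) (l 16743032))) (b (c (l 16767792) (l 16767624)) (c (l 16755792) (l 16755424))))) (b (a (b (b (c (l 16754768) (l 16753976)) (l 16736648)) (l 16710472)) (c (l 16693944) (l 16691024)))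 (b (c (l 16658096) (l 16653912)) (b (b (b (l 16632456) (c (l 16623128) (l 16617720))) (l 16614336)) (l 16616576))))))), by decide +kernel⟩

def k58_pm_102 : ∃ t, chk3 f_pm_102 t 11 20 1 = true :=
  ⟨(b (a (c (b (b (l 16776696) (l 16776256)) (b (l 16775960) (a (l 16776064) (b (l 16773120) (l 16766912))))) (b (b (l 16776680) (l 16776224)) (b (l 16775920) (c (l 16767920) (l 16767760))))) (b (c (b (l 16775312) (c (l 16769088) (l 16768944))) (b (l 16775240) (c (l 16768800) (l 16768656)))) (c (c (b (a (l 16768960) (l 16749464)) (l 16729176)) (b (a (l 16768816) (l 16748976)) (l 16728344))) (b (c (a (l 16768664) (l 16748488)) (l 16756872)) (b (l 16737752) (l 16714584)))))) (b (b (a (a (c (b (l 16771568) (l 16761128)) (c (l 16763880) (l 16763648))) (b (c (l 16750328) (l 16749384)) (l 16724856))) (l 16659712)) (a (l 16660568) (l 16629496))) (b (c (a (l 16644904) (l 16578456)) (l 16563856)) (b (c (l 16512320) (l 16568144)) (b (b (b (l 16556048) (c (a (l 16575832) (l 16527656)) (l 16522784))) (l 16544048)) (l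 16547088)))))), by decide +kernel⟩

def k59_pm_102 : ∃ t, chk3 f_pm_102 t 5 21 1 = true :=
  ⟨(a (c (a (l 16699136) (l 16665736)) (l 16679248)) (c (l 16593784) (l 16609056))), by decide +kernel⟩

def k60_pm_102 : ∃ t, chk3 f_pm_102 t 5 11 1 = true :=
  ⟨(a (c (b (l 16748592) (l 2)) (l 16732224)) (b (l 16661040) (l 16777144))), by decide +kernel⟩

def k61_pm_102 : ∃ t, chk3 f_pm_102 t 6 5 1 = true :=
  ⟨(b (b (b (a (b (b (a (c (a (c (l 16767840) (l 16767680)) (l 16745040)) (c (l 16755592) (l 16755216))) (l 16668704)) (a (b (c (l 16736784) (l 16738072)) (l 16719976)) (l 16653560))) (a (c (l 16651176) (l 16668456)) (c (l 16595424) (l 16589048)))) (a (b (c (l 16598632) (l 16592368)) (c (l 16515984) (l 16506816))) (b (a (l 16536424) (a (l 16509624) (b (l 16554016) (l 16502456)))) (a (b (l 16471456) (c (l 16443872) (l 16432168))) (b (a (c (l 16461600) (l 16450544)) (l 16522432)) (a (l 16457560) (l 16548744))))))) (b (a (c (b (l 16568568) (l 16520616)) (b (l 16561248) (l 16511608))) (a (b (c (l 16451896)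 (l 16440472)) (a (l 16418480) (c (l 16368296) (l 16397360)))) (a (b (c (l 16434048) (l 16422000)) (l 16461912)) (a (l 16518192) (l 16587344))))) (a (b (c (b (l 16483264) (l 16469720)) (b (l 16472952) (l 16458928))) (b (b (c (l 16468856) (l 16458032)) (a (l 16483112) (a (l 16439968) (c (l 16441160) (l 16429368))))) (a (b (b (b (l 16477640) (b (l 16474448) (l 16471776))) (l 16471920)) (l 16475768)) (b (b (a (b (l 16438920) (b (l 16441936) (c (l 16454040) (l 16442696)))) (b (l 16457480) (l 16487864))) (l 16476840)) (l 16480472))))) (b (a (b (a (l 16388920) (c (l 16420064) (l 16407528))) (a (c (l 16411672) (l 16398840)) (l 16469680))) (a (l 16535968) (l 16526424))) (b (a (b (a (l 16440760) (l 16521248)) (l 16527448)) (a (l 16627016) (l 16688360))) (a (l 16477512) (a (l 16666136) (l 16607704)))))))) (a (a (l 16516472) (a (l 16436040) (l 16579768))) (a (l 16610760) (a (l 16727832) (l 16740784))))) (b (a (a (l 16705288) (c (l 16704856) (l 16702320))) (a (l 16735088) (l 16659240))) (a (c (l 16777120) (l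 16777112)) (a (l 16777152) (l 16759568))))), by decide +kernel⟩

def k62_pm_102 : ∃ t, chk3 f_pm_102 t 14 10 1 = true :=
  ⟨(b (b (a (b (a (b (a (l 16585760) (l 16698472)) (l 16638096)) (a (l 16613584) (l 16499120))) (a (l 16607392) (l 16478216))) (a (b (a (l 16409592) (l 16361024)) (c (l 16178920) (l 16246192))) (b (l 16202496) (l 16061872)))) (b (a (b (l 16388136) (l 16376136)) (a (b (l 16236160) (l 16201952)) (c (b (l 16069824) (l 16002752)) (l 15949120)))) (b (a (c (l 16294840) (l 16306952)) (a (l 16120416) (b (c (l 15952968) (l 15923088)) (l 15893296)))) (a (b (l 16268168) (a (l 16453088) (c (l 16307840) (l 16334264)))) (a (b (l 16132264) (c (a (l 16183288) (l 16026376)) (l 16102168))) (b (c (l 15866712) (l 15877048)) (b (b (b (l 15878416) (b (l 15873752) (l 15785880))) (l 15868656)) (l 15870552)))))))) (a (c (l 16318384) (l 16390928)) (c (a (l 16161496) (l 15904072)) (l 15859816)))), by decide +kernel⟩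

def k63_pm_102 : ∃ t, chk3 f_pm_102 t 30 20 1 = true :=
  ⟨(b (a (b (c (l 16161992) (l 16162688)) (c (l 16034696) (l 16008640))) (a (b (l 16025784) (l 15866352)) (a (b (l 15963448) (l 15799728)) (c (b (l 15975920) (l 15812472)) (l 15862760))))) (b (c (a (l 15795832) (a (l 15722512) (b (l 15692616) (l 15611408)))) (a (l 15847616) (l 15564440))) (b (a (b (l 15762120) (l 15731560)) (a (b (l 15601440) (l 15575176)) (c (b (l 15550992) (l 15528312)) (l 15495040)))) (b (a (c (l 15723488) (l 15685288)) (a (l 15555144) (c (c (l 15525320) (l 15502456)) (l 15468336)))) (a (c (b (b (b (l 15707376) (l 15638352)) (l 15696240)) (l 15691552)) (l 15554928)) (a (b (b (b (l 15543288) (b (l 15540328) (l 15537976))) (l 15535440)) (l 15531176)) (c (b (b (b (l 15505368) (b (l 15503512) (l 15502104))) (l 15500152)) (l 15496352)) (b (b (b (l 15459640) (l 15457768)) (l 15454216)) (l 15450272))))))))), by decide +kernel⟩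

def k64_pm_102 : ∃ t, chk3 f_pm_102 t 62 20 2 = true :=
  ⟨(b (a (c (a (b (c (c (l 16022240) (l 15996936)) (l 15979168)) (c (c (l 15858680) (l 15832584)) (l 15813632))) (b (c (a (l 16028840) (l 16019536)) (a (l 15989624) (l 15939632))) (c (a (l 15859760) (l 15846560)) (a (l 15818840) (l 15827976))))) (b (a (l 15967880) (l 15834112)) (c (l 15709032) (l 15783624)))) (c (c (b (l 15887544) (l 15760312)) (a (b (l 15972376) (l 15796384)) (l 15813304))) (c (a (c (l 15829952) (l 15851640)) (l 15630264)) (a (l 15836120) (c (l 15810512) (l 15798072)))))) (b (c (a (a (c (b (l 15728040) (l 15645424)) (l 15646776)) (b (c (l 15725328) (a (l 15694816) (l 15695064))) (c (l 15642816) (l 15617400)))) (c (l 15594952) (a (l 15626944) (l 15566232)))) (a (a (l 15628256) (a (l 15626336) (l 15608008))) (c (a (l 15605384) (l 15569536)) (a (l 15574696) (l 15551720))))) (a (a (b (c (b (c (l 15585672) (l 15546656)) (c (l 15565336) (l 15526136))) (l 15516904)) (b (c (c (b (l 15557584) (l 15552576)) (l 15516472)) (l 15497344))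 (c (b (b (b (c (l 15549232) (l 15509912)) (c (b (l 15548264) (a (l 15536448) (l 15556704))) (b (l 15508928) (l 15509152)))) (c (l 15545912) (l 15506552))) (c (l 15542344) (l 15502960))) (b (b (b (l 15490816) (c (l 15498552) (l 15487112))) (l 15487456)) (l 15483856))))) (a (c (c (l 15568912) (l 15525192)) (l 15495272)) (c (c (l 15550912) (l 15529392)) (l 15482352)))) (c (c (b (b (l 15501464) (l 15484008)) (l 15471888)) (b (a (l 15520408) (l 15466352)) (l 15465904))) (c (a (c (l 15431728) (l 15472560)) (b (l 15468680) (l 15448992))) (b (a (l 15466072) (b (l 15458448) (l 15441368))) (l 15439768))))))), by decide +kernel⟩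

def k65_pm_102 : ∃ t, chk3 f_pm_102 t 63 20 2 = true :=
  ⟨(b (c (c (a (b (l 15799448) (l 15642184)) (b (l 15680776) (l 15524464))) (a (b (l 15793920) (l 15635136)) (l 15445536))) (c (a (b (l 15793296) (l 15632984)) (c (l 15584696) (a (l 15610544) (b (l 15622592) (l 15461784))))) (a (c (l 15713816) (l 15538312)) (c (a (l 15599920) (b (l 15621864) (l 15466712))) (a (b (l 15674392) (l 15518040)) (b (l 15627032) (l 15463400))))))) (b (c (c (a (l 15497152) (l 15384912)) (a (l 15488680) (l 15393840))) (a (c (l 15485104) (c (l 15485232) (l 15472928))) (c (a (l 15408744) (c (l 15353792) (l 15353288))) (c (a (l 15393704) (l 15355200)) (a (l 15250328) (l 15341608)))))) (c (b (b (c (a (l 15415864) (l 15348584)) (a (l 15406600) (l 15335968))) (c (l 15370712) (l 15359976))) (c (l 15365464) (c (l 15356840) (l 15348904)))) (a (c (b (b (l 15402208) (l 15388040)) (l 15380248)) (b (b (c (l 15401736) (l 15387880)) (l 15374696)) (c (l 15379608) (l 15363216)))) (c (b (b (a (l 15340776) (c (l 15304120) (l 15305200)))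 (c (l 15309000) (l 15306640))) (a (l 15320256) (l 15297848))) (b (b (c (a (l 15327880) (l 15299960)) (a (l 15330488) (l 15289728))) (c (l 15309040) (l 15306528))) (a (l 15318160) (l 15282808)))))))), by decide +kernel⟩

def k66_pm_102 : ∃ t, chk3 f_pm_102 t 124 20 3 = true :=
  ⟨(a (b (l 15735696) (b (c (l 15604992) (a (l 15594664) (b (l 15635056) (c (l 15550328) (c (l 15531896) (l 15535704)))))) (b (a (l 15489032) (c (l 15495032) (c (l 15478136) (b (a (l 15481008) (c (l 15480616) (l 15471968))) (l 15450192))))) (b (c (l 15473144) (a (l 15456208) (c (l 15459432) (l 15441896)))) (c (b (b (b (l 15466656) (l 15467952)) (l 15463288)) (l 15459680)) (c (b (b (b (l 15449344) (l 15450656)) (l 15445928)) (l 15442272)) (b (b (b (l 15433808) (b (l 15432800) (l 15433064))) (l 15430424)) (l 15426840)))))))) (b (a (b (l 15946760) (c (l 15774744) (c (l 15761920) (a (l 15759688) (c (l 15756984) (l 15750360)))))) (c (b (l 15946832) (l 15767672)) (c (b (l 15936504) (l 15754768)) (c (b (c (l 15933352) (l 15926432))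 (c (l 15749672) (a (l 15752024) (l 15734544)))) (b (l 15823248) (l 15730448)))))) (b (c (c (l 15604904) (l 15594480)) (c (a (l 15590160) (l 15570096)) (a (c (c (l 15584808) (l 15580184)) (l 15579104)) (c (c (l 15488024) (l 15558872)) (l 15568392))))) (c (b (c (l 15484568) (l 15472600)) (l 15450536)) (c (a (b (l 15426072) (l 15441488)) (c (l 15444440) (b (l 15451760) (l 15424512)))) (b (b (b (l 15468768) (b (l 15453680) (l 15425152))) (l 15440312)) (l 15427064))))))), by decide +kernel⟩

def k67_pm_102 : ∃ t, chk3 f_pm_102 t 125 20 3 = true :=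
  ⟨(c (b (c (c (l 15804104) (l 15799792)) (a (l 15629800) (c (l 15772744) (b (l 15857744) (l 15676880))))) (b (c (l 15544488) (a (l 15553328) (c (l 15516592) (l 15505424)))) (c (b (b (l 15447280) (l 15429136)) (l 15416544)) (c (b (a (l 15445496) (l 15411200)) (l 15402640)) (a (b (l 15439664) (l 15416176)) (b (b (l 15412704) (l 15396336)) (l 15386424))))))) (c (a (b (c (l 15813448) (a (b (l 15916152) (l 15729104)) (c (l 15795432) (b (l 15887288) (l 15704984))))) (b (c (l 15541280) (c (l 15536824) (a (l 15545048) (l 15532688)))) (b (b (c (l 15439224) (c (l 15437112) (a (l 15443256) (l 15430432)))) (c (l 15419592) (c (l 15418744) (l 15432648)))) (c (l 15405792) (c (l 15406360) (l 15419648)))))) (b (a (c (b (l 15867480) (l 15685856)) (c (l 15606648) (b (l 15866536) (l 15689072)))) (c (b (l 15838176) (l 15524424)) (c (b (l 15841616) (l 15663080)) (l 15746672)))) (b (c (c (l 15507800) (l 15509720)) (c (a (l 15516040) (l 15491304)) (l 15498744))) (c (a (b (b (l 15421584) (l 15404496)) (l 15393304)) (l 15382744))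 (l 15384664))))) (b (c (a (b (c (a (l 15912200) (a (l 15894072) (l 15885440))) (b (l 15836448) (l 15817288))) (c (c (a (l 15723424) (l 15707280)) (a (l 15722392) (l 15721784))) (l 15638872))) (a (b (c (c (l 15866528) (l 15861688)) (l 15860264)) (l 15680488)) (l 15743416))) (a (b (c (l 15902024) (l 15899408)) (l 15716632)) (l 15751392))) (b (c (a (c (a (a (l 15550096) (l 15544744)) (l 15439392)) (l 15547104)) (l 15494600)) (l 15509256)) (b (c (b (b (l 15439656) (b (l 15424472) (l 15416840))) (l 15410800)) (l 15399576)) (l 15389712)))))), by decide +kernel⟩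

def k68_pm_102 : ∃ t, chk3 f_pm_102 t 63 20 3 = true :=
  ⟨(b (c (a (c (a (c (l 15700624) (l 15731920)) (c (b (l 15750392) (l 15585896)) (a (b (l 15771240) (l 15612064)) (b (l 15732488) (l 15578408))))) (c (a (b (l 15795216) (a (l 15648000) (l 15622528))) (a (c (l 15584272) (l 15640440)) (c (l 15661248) (l 15654600)))) (a (c (b (l 15795048) (l 15634856)) (b (l 15798640) (l 15636744))) (c (a (l 15673376) (l 15648824)) (l 15657352))))) (c (a (c (b (l 15679824) (l 15503296)) (b (l 15683008) (l 15513016))) (l 15529784)) (l 15471824))) (a (c (c (a (a (c (l 15625976) (l 15727912)) (l 15695280)) (l 15648384)) (l 15673024)) (l 15666000)) (c (a (c (l 15562016) (l 15578648)) (l 15510288)) (a (l 15569592) (c (a (l 15519336) (l 15484664)) (l 15411072)))))) (c (b (a (c (a (c (l 15502376) (l 15442552)) (c (l 15445048) (a (l 15468120) (l 15437928)))) (c (a (c (l 15473920) (l 15476080)) (a (l 15457104) (l 15433280))) (a (a (l 15486640) (l 15459368)) (l 15432192)))) (c (c (a (l 15396344) (l 15335352)) (l 15355968))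 (l 15349392))) (a (c (a (b (b (c (l 15414576) (a (l 15401976) (l 15393512))) (c (l 15399216) (l 15382504))) (c (l 15390080) (l 15374440))) (b (b (c (l 15367344) (a (l 15386496) (l 15353064))) (c (l 15355112) (l 15355648))) (c (l 15350064) (l 15348144)))) (a (c (b (b (c (l 15388448) (l 15389320)) (l 15375088)) (l 15367016)) (b (b (c (l 15385560) (l 15379304)) (l 15368488)) (l 15355976))) (b (l 15347096) (l 15333496)))) (c (l 15290048) (b (l 15283976) (l 15276136))))) (a (b (l 15433904) (l 15332032)) (b (c (a (c (l 15371184) (l 15365824)) (l 15308880)) (a (l 15355232) (a (l 15308696) (l 15279680)))) (c (a (c (l 15289584) (l 15283832)) (l 15247792)) (a (l 15272640) (a (l 15240656) (c (l 15228376) (l 15220960))))))))), by decide +kernel⟩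

def k69_pm_102 : ∃ t, chk3 f_pm_102 t 30 21 1 = true :=
  ⟨(a (b (c (a (l 15732256) (l 15606632)) (l 15636376)) (l 15579856)) (a (b (l 15484136) (c (l 15474312) (l 15427072))) (c (b (l 15454440) (a (l 15389400) (c (l 15397016) (l 15370392)))) (b (l 15406728) (a (l 15339184) (c (l 15343944) (a (l 15321272) (c (l 15327704) (l 15313760))))))))), by decide +kernel⟩

def k70_pm_102 : ∃ t, chk3 f_pm_102 t 31 21 2 = true :=
  ⟨(a (c (a (a (c (b (a (l 15489664) (l 15509488)) (a (l 15421104) (l 15435224))) (b (l 15462464) (l 15392024))) (c (b (l 15497456) (l 15433744)) (b (l 15470592) (l 15406240)))) (b (c (l 15435416) (a (l 15457344) (l 15413648))) (c (l 15388656) (l 15381848)))) (a (b (a (l 15442952) (l 15427960)) (c (l 15375632) (l 15362784))) (c (a (b (l 15434136) (l 15380576)) (b (l 15415456) (l 15373696))) (b (a (l 15401776) (l 15396136)) (l 15354048))))) (c (b (c (a (l 15372800) (l 15309600)) (a (l 15363112) (c (l 15317384) (b (l 15309360) (l 15307552))))) (c (a (l 15328984) (c (l 15336424) (l 15305744)))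 (a (l 15340032) (b (a (l 15322776) (l 15311408)) (l 15320376))))) (b (c (a (l 15358296) (c (a (l 15313872) (l 15299832)) (a (l 15309352) (l 15296912)))) (a (a (l 15366216) (c (l 15327368) (l 15328960))) (a (c (l 15309928) (l 15304856)) (l 15281224)))) (c (a (c (l 15334720) (l 15328544)) (c (b (l 15310296) (l 15317056)) (l 15310328))) (a (c (l 15329920) (a (l 15339768) (l 15316424))) (c (l 15301936) (l 15291744))))))), by decide +kernel⟩

def k71_pm_102 : ∃ t, chk3 f_pm_102 t 31 21 3 = true :=
  ⟨(c (a (a (a (b (l 15418160) (l 15346712)) (c (l 15374880) (b (l 15397496) (l 15330912)))) (a (c (l 15339328) (b (c (l 15380112) (l 15369040)) (c (l 15321664) (l 15318072)))) (c (b (l 15363776) (l 15322096)) (b (c (l 15355400) (b (l 15367944) (l 15344720))) (c (l 15318200) (b (l 15322408) (l 15300456))))))) (a (c (c (b (a (a (l 15371024) (l 15362496)) (l 15335144)) (a (l 15334784) (l 15313736))) (b (a (b (l 15360824) (l 15345296)) (l 15243632)) (a (l 15325344) (l 15307560)))) (b (a (c (a (l 15346776) (l 15329784))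 (l 15329224)) (l 15314896)) (l 15299400))) (b (c (l 15280536) (l 15270232)) (l 15278856)))) (a (b (a (c (a (c (l 15404616) (a (l 15400112) (l 15400192))) (b (c (l 15407880) (c (l 15402608) (l 15391520))) (c (l 15370064) (l 15360600)))) (a (b (c (l 15408872) (l 15404584)) (l 15371000)) (c (l 15378192) (l 15374816)))) (c (c (a (a (l 15371080) (l 15366296)) (c (l 15351848) (l 15344296))) (a (b (c (a (l 15385568) (l 15375752)) (l 15393512)) (l 15362720)) (l 15339584))) (l 15341272))) (a (b (c (a (l 15345904) (l 15335440)) (l 15336184)) (c (l 15295160) (l 15294280))) (c (a (c (c (l 15316592) (l 15326592)) (l 15317848)) (l 15299288)) (l 15291176)))) (a (b (l 15301424) (l 15277040)) (c (a (b (l 15226712) (l 15264488)) (l 15246632)) (a (l 15253320) (b (c (l 15233120) (l 15224864)) (c (l 15242960) (l 15234752)))))))), by decide +kernel⟩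

def k72_pm_102 : ∃ t, chk3 f_pm_102 t 14 11 1 = true :=
  ⟨(b (a (l 16351400) (c (l 16027840) (l 16131264))) (a (l 16477496) (c (l 16206920) (l 16186832)))), by decide +kernel⟩

def k73_pm_102 : ∃ t, chk3 f_pm_102 t 15 22 1 = true :=
  ⟨(a (a (c (l 15820816) (l 15786504)) (a (l 15574160) (b (a (l 15419568) (c (c (l 15424248) (l 15398464)) (c (l 15373376) (c (l 15351672) (l 15342408))))) (b (c (l 15504360) (l 15349480)) (c (l 15557224) (l 15512384)))))) (a (c (c (a (b (c (a (c (l 15437264) (l 15409104)) (l 15330304)) (a (l 15387048) (b (l 15370368) (l 15396144)))) (c (a (l 15536464) (l 15520096)) (l 15501472))) (b (c (l 15281664) (a (l 15377184) (l 15346664))) (c (l 15447480) (l 15441288)))) (a (b (b (l 15338136) (l 15371056)) (l 15465336)) (b (c (a (l 15353168) (l 15347800)) (a (l 15320008) (l 15326136))) (c (l 15350832) (l 15413360))))) (b (c (b (a (c (l 15318792) (a (l 15311024) (l 15291752))) (c (l 15299552) (l 15302264))) (a (l 15335760) (c (l 15303176) (l 15302168)))) (b (a (c (l 15288336)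 (l 15282376)) (l 15289496)) (a (l 15324920) (l 15271536)))) (c (b (l 15374360) (l 15448832)) (l 15391504)))) (a (c (c (b (a (l 15314760) (l 15314360)) (b (l 15329880) (l 15412584))) (b (c (a (l 15326304) (l 15317640)) (c (l 15324752) (l 15317792))) (c (b (l 15341088) (l 15403912)) (a (l 15378848) (l 15353632))))) (c (b (c (a (c (l 15320120) (l 15304880)) (l 15305664)) (l 15289592)) (a (l 15357400) (c (l 15347024) (l 15335888)))) (b (l 15267072) (l 15321392)))) (c (a (c (b (b (l 15332184) (l 15341800)) (b (l 15354512) (l 15389488))) (c (b (l 15324800) (l 15356712)) (l 15325712))) (c (b (c (l 15349896) (l 15342760)) (c (l 15389408) (l 15378016))) (b (l 15320576) (l 15358512)))) (c (b (l 15295728) (l 15336000)) (c (a (b (l 15274664) (l 15310744)) (l 15295624)) (a (l 15280680) (b (l 15262912) (a (l 15296544) (l 15305024)))))))))), by decide +kernel⟩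

def k74_pm_102 : ∃ t, chk3 f_pm_102 t 15 23 1 = true :=
  ⟨(a (a (l 15888264) (b (a (l 15675672) (c (c (l 15602480) (l 15581368)) (b (l 15549560) (l 15550288)))) (c (l 15585592) (l 15603512)))) (c (a (c (a (a (c (l 15542920) (l 15567256)) (c (l 15596632) (l 15549872))) (b (c (l 15534560) (l 15403464)) (l 15531080))) (a (l 15456344) (b (b (b (c (l 15522160) (l 15503080)) (l 15512144)) (l 15512144)) (l 15512144)))) (b (b (b (b (c (b (l 15445544) (l 15454160)) (a (l 15456296) (l 15408032))) (c (l 15454616) (l 15437296))) (c (l 15454616) (l 15437296))) (c (l 15454616) (l 15437296))) (c (l 15454616) (l 15437296)))) (a (b (c (l 15455272) (l 15474928)) (l 15487024)) (c (a (c (a (l 15462520) (l 15435184)) (l 15431968)) (l 15392248)) (a (l 15411672) (a (c (l 15383856) (l 15373520)) (c (l 15364016) (a (l 15353200) (l 15345568))))))))), by decide +kernel⟩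

def k75_pm_102 : ∃ t, chk3 f_pm_102 t 1 3 1 = true :=
  ⟨(a (a (l 2) (b (a (l 2) (c (l 16777216) (l 16777216))) (l 2))) (a (b (a (c (l 16777216) (l 16777216)) (a (l 16777216) (b (l 16759560) (l 16759560)))) (a (l 2) (a (l 2) (l 16759560)))) (a (b (a (b (l 16519464) (l 16519464)) (b (l 16196936) (l 16196936))) (a (l 16519464) (l 16196936))) (b (a (a (b (l 15888384) (c (l 15903792) (l 15873040))) (c (a (b (l 15695040) (l 15695040)) (b (l 15592112) (l 15592112))) (b (l 15603512) (l 15603512)))) (c (a (c (b (a (l 15584616) (l 15531080)) (a (b (l 15584616) (l 15584616)) (l 15531080))) (c (a (l 15524976) (b (l 15524160) (l 15524160))) (b (l 15521312) (l 15521312)))) (b (c (l 15454616) (l 15437296)) (c (l 15454616) (l 15437296)))) (a (b (l 15487024) (l 15487024)) (c (a (b (c (l 15442488) (l 15432272)) (l 15306240)) (b (l 15392376) (l 15392376))) (a (l 15411984) (b (a (l 15371568) (l 15292952)) (c (l 15373808) (l 15358656)))))))) (a (a (b (l 15888384) (l 15888384)) (c (a (l 15695040) (l 15592112)) (l 15603512)))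 (c (a (c (a (l 15584616) (l 15531080)) (a (l 15540440) (l 15512144))) (b (l 15447504) (l 15447504))) (a (l 15487024) (a (c (l 15432072) (l 15411984)) (c (l 15392376) (b (l 15365632) (l 15365632))))))))))), by decide +kernel⟩

theorem s76_pm_102 : ∃ t, chk3 f_pm_102 t 15 11 1 = true := ex3_b k73_pm_102 k74_pm_102

theorem s77_pm_102 : ∃ t, chk3 f_pm_102 t 7 11 1 = true := ex3_a k72_pm_102 s76_pm_102

theorem s78_pm_102 : ∃ t, chk3 f_pm_102 t 31 21 1 = true := ex3_c k70_pm_102 k71_pm_102

theorem s79_pm_102 : ∃ t, chk3 f_pm_102 t 15 21 1 = true := ex3_a k69_pm_102 s78_pm_102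

theorem s80_pm_102 : ∃ t, chk3 f_pm_102 t 62 20 3 = true := ex3_a k66_pm_102 k67_pm_102

theorem s81_pm_102 : ∃ t, chk3 f_pm_102 t 31 20 3 = true := ex3_a s80_pm_102 k68_pm_102

theorem s82_pm_102 : ∃ t, chk3 f_pm_102 t 31 20 2 = true := ex3_a k64_pm_102 k65_pm_102

theorem s83_pm_102 : ∃ t, chk3 f_pm_102 t 31 20 1 = true := ex3_c s82_pm_102 s81_pm_102

theorem s84_pm_102 : ∃ t, chk3 f_pm_102 t 15 20 1 = true := ex3_a k63_pm_102 s83_pm_102

theorem s85_pm_102 : ∃ t, chk3 f_pm_102 t 15 10 1 = true := ex3_b s84_pm_102 s79_pm_102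

theorem s86_pm_102 : ∃ t, chk3 f_pm_102 t 7 10 1 = true := ex3_a k62_pm_102 s85_pm_102

theorem s87_pm_102 : ∃ t, chk3 f_pm_102 t 7 5 1 = true := ex3_b s86_pm_102 s77_pm_102

theorem s88_pm_102 : ∃ t, chk3 f_pm_102 t 3 5 1 = true := ex3_a k61_pm_102 s87_pm_102

theorem s89_pm_102 : ∃ t, chk3 f_pm_102 t 5 20 1 = true := ex3_a k57_pm_102 k58_pm_102

theorem s90_pm_102 : ∃ t, chk3 f_pm_102 t 5 10 1 = true := ex3_b s89_pm_102 k59_pm_102

theorem s91_pm_102 : ∃ t, chk3 f_pm_102 t 5 5 1 = true := ex3_b s90_pm_102 k60_pm_102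

theorem s92_pm_102 : ∃ t, chk3 f_pm_102 t 2 5 1 = true := ex3_a k56_pm_102 s91_pm_102

theorem s93_pm_102 : ∃ t, chk3 f_pm_102 t 1 5 1 = true := ex3_a s92_pm_102 s88_pm_102

theorem s94_pm_102 : ∃ t, chk3 f_pm_102 t 63 76 3 = true := ex3_c k52_pm_102 k53_pm_102

theorem s95_pm_102 : ∃ t, chk3 f_pm_102 t 63 38 3 = true := ex3_b s94_pm_102 k54_pm_102

theorem s96_pm_102 : ∃ t, chk3 f_pm_102 t 63 19 3 = true := ex3_b s95_pm_102 k55_pm_102

theorem s97_pm_102 : ∃ t, chk3 f_pm_102 t 125 19 3 = true := ex3_a k50_pm_102 k51_pm_102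

theorem s98_pm_102 : ∃ t, chk3 f_pm_102 t 62 19 3 = true := ex3_a k49_pm_102 s97_pm_102

theorem s99_pm_102 : ∃ t, chk3 f_pm_102 t 31 19 3 = true := ex3_a s98_pm_102 s96_pm_102

theorem s100_pm_102 : ∃ t, chk3 f_pm_102 t 31 19 2 = true := ex3_a k47_pm_102 k48_pm_102

theorem s101_pm_102 : ∃ t, chk3 f_pm_102 t 31 19 1 = true := ex3_c s100_pm_102 s99_pm_102

theorem s102_pm_102 : ∃ t, chk3 f_pm_102 t 15 19 1 = true := ex3_a k46_pm_102 s101_pm_102

theorem s103_pm_102 : ∃ t, chk3 f_pm_102 t 7 19 1 = true := ex3_a k45_pm_102 s102_pm_102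

theorem s104_pm_102 : ∃ t, chk3 f_pm_102 t 63 37 3 = true := ex3_c k43_pm_102 k44_pm_102

theorem s105_pm_102 : ∃ t, chk3 f_pm_102 t 63 36 3 = true := ex3_a k41_pm_102 k42_pm_102

theorem s106_pm_102 : ∃ t, chk3 f_pm_102 t 63 18 3 = true := ex3_b s105_pm_102 s104_pm_102

theorem s107_pm_102 : ∃ t, chk3 f_pm_102 t 31 18 3 = true := ex3_a k40_pm_102 s106_pm_102

theorem s108_pm_102 : ∃ t, chk3 f_pm_102 t 31 18 2 = true := ex3_a k38_pm_102 k39_pm_102

theorem s109_pm_102 : ∃ t, chk3 f_pm_102 t 31 18 1 = true := ex3_c s108_pm_102 s107_pm_102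

theorem s110_pm_102 : ∃ t, chk3 f_pm_102 t 15 18 1 = true := ex3_a k37_pm_102 s109_pm_102

theorem s111_pm_102 : ∃ t, chk3 f_pm_102 t 14 18 1 = true := ex3_b k35_pm_102 k36_pm_102

theorem s112_pm_102 : ∃ t, chk3 f_pm_102 t 7 18 1 = true := ex3_a s111_pm_102 s110_pm_102

theorem s113_pm_102 : ∃ t, chk3 f_pm_102 t 7 9 1 = true := ex3_b s112_pm_102 s103_pm_102

theorem s114_pm_102 : ∃ t, chk3 f_pm_102 t 6 9 1 = true := ex3_b k33_pm_102 k34_pm_102

theorem s115_pm_102 : ∃ t, chk3 f_pm_102 t 3 9 1 = true := ex3_a s114_pm_102 s113_pm_102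

theorem s116_pm_102 : ∃ t, chk3 f_pm_102 t 63 35 3 = true := ex3_b k31_pm_102 k32_pm_102

theorem s117_pm_102 : ∃ t, chk3 f_pm_102 t 63 17 3 = true := ex3_b k30_pm_102 s116_pm_102

theorem s118_pm_102 : ∃ t, chk3 f_pm_102 t 31 17 3 = true := ex3_a k29_pm_102 s117_pm_102

theorem s119_pm_102 : ∃ t, chk3 f_pm_102 t 31 35 2 = true := ex3_b k27_pm_102 k28_pm_102

theorem s120_pm_102 : ∃ t, chk3 f_pm_102 t 31 69 2 = true := ex3_a k25_pm_102 k26_pm_102

theorem s121_pm_102 : ∃ t, chk3 f_pm_102 t 31 34 2 = true := ex3_b k24_pm_102 s120_pm_102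

theorem s122_pm_102 : ∃ t, chk3 f_pm_102 t 31 17 2 = true := ex3_b s121_pm_102 s119_pm_102

theorem s123_pm_102 : ∃ t, chk3 f_pm_102 t 31 17 1 = true := ex3_c s122_pm_102 s118_pm_102

theorem s124_pm_102 : ∃ t, chk3 f_pm_102 t 30 35 1 = true := ex3_c k22_pm_102 k23_pm_102

theorem s125_pm_102 : ∃ t, chk3 f_pm_102 t 30 69 1 = true := ex3_a k20_pm_102 k21_pm_102

theorem s126_pm_102 : ∃ t, chk3 f_pm_102 t 30 68 1 = true := ex3_b k18_pm_102 k19_pm_102

theorem s127_pm_102 : ∃ t, chk3 f_pm_102 t 30 34 1 = true := ex3_b s126_pm_102 s125_pm_102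

theorem s128_pm_102 : ∃ t, chk3 f_pm_102 t 30 17 1 = true := ex3_b s127_pm_102 s124_pm_102

theorem s129_pm_102 : ∃ t, chk3 f_pm_102 t 15 17 1 = true := ex3_a s128_pm_102 s123_pm_102

theorem s130_pm_102 : ∃ t, chk3 f_pm_102 t 59 17 1 = true := ex3_a k16_pm_102 k17_pm_102

theorem s131_pm_102 : ∃ t, chk3 f_pm_102 t 29 17 1 = true := ex3_a k15_pm_102 s130_pm_102

theorem s132_pm_102 : ∃ t, chk3 f_pm_102 t 14 17 1 = true := ex3_a k14_pm_102 s131_pm_102

theorem s133_pm_102 : ∃ t, chk3 f_pm_102 t 7 17 1 = true := ex3_a s132_pm_102 s129_pm_102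

theorem s134_pm_102 : ∃ t, chk3 f_pm_102 t 123 134 4 = true := ex3_b k8_pm_102 k9_pm_102

theorem s135_pm_102 : ∃ t, chk3 f_pm_102 t 123 67 4 = true := ex3_b s134_pm_102 k10_pm_102

theorem s136_pm_102 : ∃ t, chk3 f_pm_102 t 122 67 4 = true := ex3_b k6_pm_102 k7_pm_102

theorem s137_pm_102 : ∃ t, chk3 f_pm_102 t 61 67 4 = true := ex3_a s136_pm_102 s135_pm_102

theorem s138_pm_102 : ∃ t, chk3 f_pm_102 t 30 67 4 = true := ex3_a k5_pm_102 s137_pm_102

theorem s139_pm_102 : ∃ t, chk3 f_pm_102 t 30 33 4 = true := ex3_b k4_pm_102 s138_pm_102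

theorem s140_pm_102 : ∃ t, chk3 f_pm_102 t 30 33 2 = true := ex3_c s139_pm_102 k11_pm_102

theorem s141_pm_102 : ∃ t, chk3 f_pm_102 t 15 33 2 = true := ex3_a s140_pm_102 k12_pm_102

theorem s142_pm_102 : ∃ t, chk3 f_pm_102 t 15 16 2 = true := ex3_b k3_pm_102 s141_pm_102

theorem s143_pm_102 : ∃ t, chk3 f_pm_102 t 15 16 1 = true := ex3_c s142_pm_102 k13_pm_102

theorem s144_pm_102 : ∃ t, chk3 f_pm_102 t 7 16 1 = true := ex3_a k2_pm_102 s143_pm_102

theorem s145_pm_102 : ∃ t, chk3 f_pm_102 t 7 8 1 = true := ex3_b s144_pm_102 s133_pm_102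

theorem s146_pm_102 : ∃ t, chk3 f_pm_102 t 3 8 1 = true := ex3_a k1_pm_102 s145_pm_102

theorem s147_pm_102 : ∃ t, chk3 f_pm_102 t 3 4 1 = true := ex3_b s146_pm_102 s115_pm_102

theorem s148_pm_102 : ∃ t, chk3 f_pm_102 t 1 4 1 = true := ex3_a k0_pm_102 s147_pm_102

theorem s149_pm_102 : ∃ t, chk3 f_pm_102 t 1 2 1 = true := ex3_b s148_pm_102 s93_pm_102

theorem s150_pm_102 : ∃ t, chk3 f_pm_102 t 1 1 1 = true := ex3_b s149_pm_102 k75_pm_102

theorem c_pm_102 : CertNX 536870912 536870912 67108864 469762048 1046898278 26843546 3 true true false .npp 1 0 2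
    ndN0q1 ndN1q0 pcN2 Cut.none Ext.none :=
  certNX1 (fam := true) (s1 := true) (s2 := false) (a := 1) (b := 0) (c := 2) (cn := .npp) (n1 := ndN0q1) (n2 := ndN1q0) (pc := pcN2) (cut := Cut.none) (xt := Ext.none) (P1 := 536870912) (W1 := 536870912) (P2 := 67108864) (W2 := 469762048) (P3 := 1046898278) (W3 := 26843546) (N0 := 3)
    rfl (fun _ => rfl) s150_pm_102

noncomputable def f_pm_112 : ℕ → ℕ → ℕ → ℕ → Bool := onCell 536870912 536870912 1073741824 536870912 1046898278 26843546
    (rowNX 3 1 true true false .dn 1 1 2 (qsf 536870912 536870912 536870912 536870912 2) ndN0q1 ndN1q1 pcN2 Cut.none Ext.none)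

def k0_pm_112 : ∃ t, chk3 f_pm_112 t 1 4 1 = true :=
  ⟨(a (a (l 3) (a (l 3) (l 1))) (l 1)), by decide +kernel⟩

def k1_pm_112 : ∃ t, chk3 f_pm_112 t 8 5 1 = true :=
  ⟨(b (b (b (l 3) (b (a (l 3) (l 3)) (b (c (b (c (l 1361135533911) (l 1367577984855)) (c (a (l 16777216) (l 16777184)) (l 917143289575))) (b (c (l 1326238924455) (l 16777208)) (c (l 888689131239) (l 16777192)))) (b (b (c (c (l 16777200) (l 16777200)) (c (l 16777200) (l 16777200))) (c (c (a (l 16777216) (l 16777208)) (l 16777208)) (c (l 16777208) (l 16777208)))) (b (b (b (c (c (l 16777216) (l 16777216)) (c (l 16777216) (l 16777216))) (b (c (c (l 16777216) (l 16777216)) (c (l 16777216) (l 16777216))) (b (b (c (c (l 16776880) (l 16776872)) (c (l 16776872) (l 16776864))) (c (a (l 16777216) (c (l 16776120) (l 16776096))) (c (l 16775752) (l 16775720)))) (c (l 16776024) (l 16775976))))) (c (l 16776032) (l 16775992))) (c (l 16776104) (l 16776064))))))) (c (a (l 16777216) (l 16776464)) (l 16776160))) (c (l 16777216) (l 16777216))), by decide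 +kernel⟩

def k2_pm_112 : ∃ t, chk3 f_pm_112 t 9 5 1 = true :=
  ⟨(a (b (b (b (l 3) (b (b (l 3) (c (c (l 666961444279) (l 16777168)) (c (l 16777168) (l 16777168)))) (b (c (a (b (l 16777160) (l 16777144)) (b (l 16777104) (l 16777120))) (b (l 16777128) (a (l 16777144) (l 16777112)))) (b (b (c (c (l 16777168) (l 16777168)) (l 16777168)) (b (c (l 16777200) (l 16777200)) (c (c (l 16773832) (l 16773776)) (a (l 16777216) (l 16773800))))) (a (b (b (b (c (l 16776152) (l 16776112)) (b (c (c (l 16773264) (l 16773192)) (l 16773088)) (b (b (c (l 16769528) (l 16769256)) (a (c (l 16770112) (l 16769864)) (l 16758424))) (l 16761816)))) (l 16762032)) (l 16762616)) (b (b (b (c (l 16767928) (l 16767600)) (l 16728936)) (l 16739496)) (l 16740328))))))) (c (a (l 16771736) (l 16756864)) (l 16764512))) (c (l 16776296) (l 16776264))) (b (b (b (a (l 3) (b (l 3) (c (l 810842848871) (l 761450724871)))) (b (b (c (c (l 16777128) (l 16777128)) (l 16777128)) (c (c (l 16777024) (l 16777016)) (c (l 16777016) (l 16777016)))) (b (c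 (b (l 16777024) (c (l 16774200) (l 16774144))) (b (l 16777016) (c (l 16774088) (l 16774040)))) (b (b (c (c (a (l 16775616) (l 16767360)) (l 16769016)) (c (l 16768872) (l 16768728))) (a (c (b (l 16771984) (a (l 16767152) (l 16754168))) (b (l 16771800) (l 16760480))) (l 16741256))) (c (a (l 16713416) (l 16690240)) (l 16699920)))))) (c (l 16732232) (l 16730656))) (c (l 16772960) (l 16772808)))), by decide +kernel⟩

def k3_pm_112 : ∃ t, chk3 f_pm_112 t 5 5 1 = true :=
  ⟨(b (b (a (a (b (b (l 3) (c (b (l 707763633479) (c (l 16777032) (l 16777024))) (b (l 16777184) (l 16777024)))) (b (b (c (l 16776848) (l 16776832)) (c (c (l 16776816) (l 16776808)) (c (l 16776800) (l 16776792)))) (b (c (c (b (a (l 16776944) (l 16768952)) (b (l 16762880) (l 16750048))) (b (l 16769328) (b (l 16762632) (l 16749576)))) (b (c (l 16769192) (l 16769056)) (c (b (l 16762376) (l 16749096)) (b (l 16762120) (l 16748600))))) (b (c (l 16691192) (l 16709880)) (c (a (l 16646024) (a (l 16649488) (l 16637784))) (l 16651768)))))) (b (l 1)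 (b (l 1) (b (l 1) (b (l 1) (b (l 1) (l 16616576))))))) (l 1)) (a (c (a (l 16699136) (l 16665736)) (l 16679248)) (l 317323704759))) (a (c (b (l 16748592) (l 16777184)) (l 16742712)) (b (l 16682016) (l 16777144)))), by decide +kernel⟩

def k4_pm_112 : ∃ t, chk3 f_pm_112 t 3 5 1 = true :=
  ⟨(a (b (l 1) (a (b (l 1) (l 235182988135)) (l 1))) (l 1)), by decide +kernel⟩

def k5_pm_112 : ∃ t, chk3 f_pm_112 t 1 3 1 = true :=
  ⟨(a (a (b (a (b (a (c (l 16767624) (l 16767288)) (l 16777200)) (a (c (l 16683048) (l 16679744)) (l 16738952))) (b (c (l 16777216) (l 16777216)) (a (l 16767456) (l 16777200)))) (a (b (a (b (l 16297672) (l 16169936)) (b (l 16647760) (l 16360584))) (a (c (l 15729440) (l 15692664)) (b (l 16169936) (l 15860608)))) (b (a (l 16660424) (l 16738952)) (a (b (l 16381560) (l 16169936)) (b (l 16647760) (l 16423496)))))) (b (a (a (l 16777216) (l 16777216)) (c (l 16777216) (l 16777216))) (a (b (l 16769976) (a (l 16681392) (l 16738952))) (b (l 16777216) (l 16769976))))) (a (b (a (c (l 16777216) (l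 16777216)) (a (l 16777216) (l 130492963303))) (a (l 16777216) (a (l 16777216) (l 16759560)))) (a (b (a (l 16372664) (l 1)) (a (l 16519464) (l 16196936))) (b (l 1) (a (a (l 54255447911) (c (l 184177621383) (l 15603512))) (b (l 1) (a (c (c (l 15544984) (l 15525640)) (l 15487024)) (c (l 15447504) (a (l 15407176) (l 15376032)))))))))), by decide +kernel⟩

theorem s6_pm_112 : ∃ t, chk3 f_pm_112 t 4 5 1 = true := ex3_a k1_pm_112 k2_pm_112

theorem s7_pm_112 : ∃ t, chk3 f_pm_112 t 2 5 1 = true := ex3_a s6_pm_112 k3_pm_112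

theorem s8_pm_112 : ∃ t, chk3 f_pm_112 t 1 5 1 = true := ex3_a s7_pm_112 k4_pm_112

theorem s9_pm_112 : ∃ t, chk3 f_pm_112 t 1 2 1 = true := ex3_b k0_pm_112 s8_pm_112

theorem s10_pm_112 : ∃ t, chk3 f_pm_112 t 1 1 1 = true := ex3_b s9_pm_112 k5_pm_112

theorem c_pm_112 : CertNX 536870912 536870912 536870912 536870912 1046898278 26843546 3 true true false .dn 1 1 2
    ndN0q1 ndN1q1 pcN2 Cut.none Ext.none :=
  certNX1 (fam := true) (s1 := true) (s2 := false) (a := 1) (b := 1) (c := 2) (cn := .dn) (n1 := ndN0q1) (n2 := ndN1q1) (pc := pcN2) (cut := Cut.none) (xt := Ext.none) (P1 := 536870912) (W1 := 536870912) (P2 := 536870912) (W2 := 536870912) (P3 := 1046898278) (W3 := 26843546) (N0 := 3)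
    rfl (fun _ => rfl) s10_pm_112

noncomputable def f_pm_113 : ℕ → ℕ → ℕ → ℕ → Bool := onCell 536870912 536870912 1610612736 536870912 1046898278 26843546
    (rowNX 3 1 true true false .nn 1 1 3 (qsf 536870912 536870912 536870912 536870912 3) ndN0q1 ndN1q1 pcN3 Cut.none Ext.none)

def k0_pm_113 : ∃ t, chk3 f_pm_113 t 2 1 1 = true :=
  ⟨(b (b (a (a (b (a (b (l 15280432) (l 15030064)) (l 15232480)) (a (l 2) (b (l 15030064) (l 2)))) (b (a (c (l 15708472) (l 15692664)) (l 15889680)) (a (b (l 15280432) (l 15030064)) (b (l 15561248) (l 15280432))))) (a (b (a (b (l 16423496) (l 16169936)) (b (l 16647760) (l 16423496))) (a (l 15669144) (l 15889680))) (b (a (l 16681392) (l 16738952)) (a (b (l 16423496) (l 16169936)) (l 16499296))))) (a (b (a (l 2) (a (l 2) (b (l 15030064) (l 2)))) (l 2)) (b (a (a (l 199812898023) (l 15274416)) (a (l 15627200) (l 16015512))) (a (a (l 2) (l 321145278951)) (a (l 292691565799) (l 15421216)))))) (b (a (l 2) (b (a (l 2) (b (l 318460924391) (l 2))) (l 2))) (l 2))), by decide +kernel⟩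

def k1_pm_113 : ∃ t, chk3 f_pm_113 t 6 1 1 = true :=
  ⟨(b (b (a (b (l 16769976) (a (l 16681392) (l 16738952))) (a (l 16771496) (l 16759552))) (a (b (a (l 16315248) (l 16394432)) (a (l 15711088) (l 16015512))) (b (a (l 16681392) (l 16722288)) (a (l 16294272) (b (l 16631712) (l 16449704)))))) (b (a (b (a (l 14925880) (l 15421200)) (b (l 290006765991) (l 2))) (b (a (l 15711080) (l 16000112)) (a (l 15072680) (l 15406232)))) (b (b (a (l 2) (a (l 2) (l 14889560))) (l 2)) (l 2)))), by decide +kernel⟩

def k2_pm_113 : ∃ t, chk3 f_pm_113 t 14 1 1 = true :=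
  ⟨(a (b (b (l 16519464) (b (l 16510296) (l 16430752))) (b (b (l 16000192) (l 15496856)) (b (b (l 15033952) (b (l 14882568) (l 2))) (l 2)))) (b (b (c (l 16207000) (l 16186912)) (b (l 16196920) (l 16161712))) (b (b (b (l 16080632) (l 15919448)) (l 15518704)) (b (b (b (l 15181096) (l 15051832)) (b (l 14914016) (l 14781376))) (b (b (c (b (l 15059968) (l 2)) (l 14579680)) (l 2)) (l 2)))))), by decide +kernel⟩

def k3_pm_113 : ∃ t, chk3 f_pm_113 t 30 1 1 = true :=
  ⟨(b (b (c (a (l 15903792) (a (l 15695040) (l 15592112))) (l 15632488)) (a (b (l 15888384) (l 15877496)) (a (l 15674272) (l 15528760)))) (b (b (a (l 15788488) (l 15543016)) (a (l 15438592) (a (l 15325536) (b (l 15395256) (l 15166720))))) (b (b (a (b (l 15134752) (l 15026224)) (b (l 15002208) (l 14906424))) (a (b (l 14921224) (l 14817672)) (a (l 14821408) (l 14801736)))) (b (c (a (b (c (l 15127232) (l 14872856)) (l 15056976)) (b (l 15070472) (l 15275064))) (b (l 14478280) (l 14465448))) (a (l 2) (a (l 2) (b (b (l 15058032) (l 2)) (l 2)))))))),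 by decide +kernel⟩

def k4_pm_113 : ∃ t, chk3 f_pm_113 t 62 1 1 = true :=
  ⟨(b (b (c (a (l 15567328) (c (l 15531080) (l 15512144))) (l 15487024)) (c (c (a (l 15584608) (l 15531080)) (l 15504656)) (l 15487016))) (b (b (c (a (l 15524568) (c (l 15499416) (l 15477920))) (l 15442408)) (c (a (b (l 15443232) (l 15268928)) (c (l 15341720) (a (l 15329760) (l 15204216)))) (l 15233760))) (b (b (c (a (l 15097856) (c (l 15151720) (l 15051264))) (l 14867704)) (c (a (l 15162392) (c (l 15129832) (l 14952040))) (l 14649800))) (b (c (a (b (l 15134024) (l 15378272)) (c (b (l 15293720) (l 15638960)) (b (l 15001368) (l 15200864)))) (b (l 14523672) (l 14501056))) (b (c (a (b (l 15786560) (c (l 16567664) (l 15947312))) (c (b (l 16216200) (l 16675448)) (b (l 15579872) (l 16130336)))) (b (l 14566056) (l 14759648))) (a (l 2) (a (l 2) (b (b (c (l 16693776) (l 15075216)) (l 2)) (l 2))))))))), by decide +kernel⟩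

def k5_pm_113 : ∃ t, chk3 f_pm_113 t 63 1 1 = true :=
  ⟨(b (c (b (l 15447504) (l 15447504)) (b (b (a (l 15407176) (l 15376032)) (a (l 15407176) (l 15376032))) (a (c (l 15432072) (l 15411984)) (c (l 15392376) (l 15365632))))) (b (c (b (l 15425560) (b (l 15367864) (l 15270296))) (b (a (l 15358072) (c (l 15373352) (l 15345312))) (a (b (l 15304608) (l 14993680)) (c (l 15255248) (b (l 15272776) (l 15142528)))))) (b (c (b (l 15098696) (l 15258904)) (b (a (c (l 14953192) (l 14861216)) (c (l 14977416) (l 14890200))) (a (b (l 14725704) (l 14634200)) (c (l 14797416) (a (l 14627000) (l 14649448)))))) (b (b (c (l 15126160) (a (c (l 14711816) (l 14430640)) (c (l 14727080) (l 14461480)))) (c (b (l 15306320) (l 15536192)) (a (c (a (l 14776440) (l 14775584)) (l 14339432)) (c (l 14781848) (a (l 14357600) (l 14378984)))))) (b (c (b (l 15931040) (l 16684056)) (c (a (b (l 14974408) (l 15303168)) (l 15127056)) (a (l 14341400) (b (l 14376304) (l 14446832))))) (b (c (b (l 16734264) (l 16729824)) (c (a (b (l 15848128)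 (c (l 16749784) (l 16155216))) (l 16203560)) (a (l 14626320) (b (l 14843104) (l 4))))) (l 4))))))), by decide +kernel⟩

theorem s6_pm_113 : ∃ t, chk3 f_pm_113 t 31 1 1 = true := ex3_a k4_pm_113 k5_pm_113

theorem s7_pm_113 : ∃ t, chk3 f_pm_113 t 15 1 1 = true := ex3_a k3_pm_113 s6_pm_113

theorem s8_pm_113 : ∃ t, chk3 f_pm_113 t 7 1 1 = true := ex3_a k2_pm_113 s7_pm_113

theorem s9_pm_113 : ∃ t, chk3 f_pm_113 t 3 1 1 = true := ex3_a k1_pm_113 s8_pm_113

theorem s10_pm_113 : ∃ t, chk3 f_pm_113 t 1 1 1 = true := ex3_a k0_pm_113 s9_pm_113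

theorem c_pm_113 : CertNX 536870912 536870912 536870912 536870912 1046898278 26843546 3 true true false .nn 1 1 3
    ndN0q1 ndN1q1 pcN3 Cut.none Ext.none :=
  certNX1 (fam := true) (s1 := true) (s2 := false) (a := 1) (b := 1) (c := 3) (cn := .nn) (n1 := ndN0q1) (n2 := ndN1q1) (pc := pcN3) (cut := Cut.none) (xt := Ext.none) (P1 := 536870912) (W1 := 536870912) (P2 := 536870912) (W2 := 536870912) (P3 := 1046898278) (W3 := 26843546) (N0 := 3)
    rfl (fun _ => rfl) s10_pm_113

noncomputable def f_pm_123_a : ℕ → ℕ → ℕ → ℕ → Bool := onCell 1610612736 536870912 0 420477299 1046898278 26843546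
    (rowNX 3 2 true true false .npn 1 2 3 (qsf 536870912 536870912 0 420477299 3) ndN0q1 ndN1q2a pcN3 Cut.none Ext.none)

def k0_pm_123_a : ∃ t, chk3 f_pm_123_a t 2 1 1 = true :=
  ⟨(b (a (l 1) (a (c (b (a (l 16777120) (l 16777120)) (c (l 16776072) (l 16776056))) (b (a (l 16777112) (l 16777112)) (c (l 16776032) (l 16776016)))) (c (b (a (l 16777120) (c (l 16777120) (l 16777120))) (a (c (l 16776072) (l 16776056)) (c (l 16776072) (l 16776056)))) (b (a (l 16777112) (c (l 16777112) (l 16777112))) (c (l 16776032) (l 16776016)))))) (b (a (a (l 1) (c (l 16772680) (l 16772528))) (c (a (c (l 16772720) (l 16772648)) (a (l 16772680) (l 16772680))) (a (l 16772528) (l 16772528)))) (a (a (a (l 1) (b (l 1) (c (l 16399736) (l 16386440)))) (b (c (b (l 16766240) (l 16649936)) (b (l 16765848) (l 16645456))) (c (b (l 16494840) (l 16306984)) (b (l 16484896) (l 16290416))))) (b (a (c (b (l 16766240) (l 16649936)) (b (l 16765848) (l 16645456))) (c (b (l 16766240) (l 16649936)) (l 16664376))) (a (c (b (l 16494840) (l 16306984))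 (b (l 16484896) (l 16290416))) (c (b (l 16494840) (l 16306984)) (l 16302552))))))), by decide +kernel⟩

def k1_pm_123_a : ∃ t, chk3 f_pm_123_a t 6 1 1 = true :=
  ⟨(b (a (b (c (a (c (l 16777120) (l 16777120)) (c (l 16777120) (l 16777120))) (a (c (l 16777112) (l 16777112)) (c (l 16777120) (l 16777120)))) (c (a (l 16776064) (l 16776072)) (a (l 16776024) (l 16776032)))) (a (b (c (a (c (l 16777128) (l 16777128)) (b (c (l 164517379927) (l 172033572695)) (l 16777056))) (a (c (l 16777120) (l 16777120)) (b (c (l 16777208) (l 16777208)) (l 16777048)))) (c (c (l 16776096) (l 16776080)) (c (l 16776056) (l 16776040)))) (a (b (c (b (b (l 4) (l 209614536615)) (l 34594619271)) (b (l 225183792983) (l 16777048))) (c (l 16776088) (l 16776048))) (b (b (l 4) (c (c (l 184918474663) (l 189213441959)) (c (l 16777040) (l 16777040)))) (c (l 16776080) (l 16776040)))))) (b (a (c (a (l 16772680) (l 16772704)) (a (l 16772528) (l 16772544))) (b (a (c (l 16773944) (l 16773824)) (c (l 16773936) (l 16773824))) (a (l 16771328) (c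 (l 16771432) (l 16771232))))) (b (a (c (b (l 16766248) (l 16649952)) (b (l 16765864) (l 16645464))) (c (b (l 16724352) (l 16649992)) (b (l 16765920) (l 16645520)))) (a (c (b (l 16494856) (l 16306992)) (b (l 16484912) (l 16290432))) (c (b (l 16494904) (l 16265096)) (b (l 16484968) (l 16290480))))))), by decide +kernel⟩

def k2_pm_123_a : ∃ t, chk3 f_pm_123_a t 14 1 1 = true :=
  ⟨(b (a (a (b (a (c (l 248269242183) (l 247195500343)) (l 4)) (c (c (l 16776080) (l 16776056)) (b (l 31910262455) (l 16775496)))) (b (l 4) (c (b (a (l 205856437991) (l 236994960391)) (a (l 16775552) (l 16775896))) (b (a (l 199950857911) (l 230015620471)) (a (l 16775488) (l 16775848)))))) (b (l 4) (b (l 4) (a (c (a (l 13119774791) (b (l 4) (l 16775888))) (a (l 16776232) (l 183844722199))) (a (c (l 225183782711) (l 219815073479)) (l 4)))))) (b (a (c (a (l 16772696) (b (l 16774520) (l 16772464))) (a (l 16772544) (c (l 16773448) (l 16773384)))) (a (c (b (l 16773984) (l 16769488)) (c (l 16771536) (l 16771448))) (b (c (a (l 16774768)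 (c (l 16776144) (l 16776136))) (a (l 16774704) (c (l 16776120) (l 16776112)))) (c (a (l 16765248) (l 16765856)) (l 16764880))))) (a (b (b (a (l 16724120) (c (l 16703648) (l 16745376))) (c (l 16566968) (l 16583712))) (c (a (l 16378776) (b (l 16496720) (l 16309112))) (b (l 16444296) (l 16166112)))) (b (a (b (c (l 16729536) (l 16728576)) (c (l 16650648) (l 16647840))) (c (b (b (l 16757600) (l 16723056)) (a (l 16636504) (l 16630336))) (b (l 16697136) (a (l 16632312) (l 16625720))))) (a (c (b (l 16510592) (l 16325440)) (l 16222608)) (b (c (a (l 16495240) (l 16486320)) (l 16442304)) (c (a (l 16323352) (b (l 16364880) (l 16294168))) (a (l 16316752) (l 16306120))))))))), by decide +kernel⟩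

def k3_pm_123_a : ∃ t, chk3 f_pm_123_a t 15 2 1 = true :=
  ⟨(l 4), by decide +kernel⟩

def k4_pm_123_a : ∃ t, chk3 f_pm_123_a t 30 6 1 = true :=
  ⟨(b (b (l 4) (a (a (c (c (l 16774320) (l 16774304)) (l 151632460439)) (l 4)) (l 4))) (a (c (a (c (l 16771344) (l 16770928)) (c (l 58753767095) (l 16775400))) (a (l 16770776) (c (l 16775376) (l 16775352)))) (a (a (c (c (l 16772448) (l 16772760)) (l 136063202343)) (b (l 4) (c (c (l 16772176) (l 16772408)) (l 16772328)))) (a (a (b (l 4) (c (l 170422901335) (l 16769336))) (l 4)) (l 4))))), by decide +kernel⟩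

def k5_pm_123_a : ∃ t, chk3 f_pm_123_a t 30 7 1 = true :=
  ⟨(a (b (c (b (c (a (l 16744248) (l 16732656)) (l 16704888)) (a (l 16632464) (b (l 16673616) (l 16611696)))) (b (b (l 16764920) (l 16706064)) (a (l 16627312) (l 16596560)))) (b (a (c (c (a (l 16425176) (b (l 16529400) (l 16469104))) (l 16409864)) (b (l 16517480) (l 16451952))) (c (b (l 16559568) (c (l 16502320) (l 16499576))) (b (l 16553776) (l 16493352)))) (c (a (a (l 16353648) (l 16365896)) (c (l 16372600) (l 16383224))) (a (l 16349792) (l 16363928))))) (b (b (a (c (b (c (l 16773776) (l 16775384)) (c (l 16723912) (l 16720080))) (b (l 16775568) (l 16697744))) (c (b (a (c (l 16765376) (l 16764352)) (c (l 16736792) (l 149484882775))) (a (c (l 16749448) (l 16746512)) (l 16718680))) (a (b (l 16763824) (l 16745056)) (b (c (l 16757008) (l 16756688)) (l 16759144))))) (a (a (c (b (l 16683368) (l 16638544)) (l 16639616)) (c (c (l 16662064) (l 16661520)) (l 16659008))) (c (c (a (l 16710296) (l 16740888)) (l 16641864)) (a (l 16708688) (l 16734624)))))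 (c (b (a (c (l 16571432) (l 16566384)) (c (l 16600992) (l 16601792))) (a (c (b (l 16472752) (l 16393624)) (b (a (l 16452032) (l 16472576)) (l 16377216))) (b (l 16483328) (c (l 16455296) (a (l 16420416) (l 16457984)))))) (a (b (l 16554200) (b (l 16438912) (l 16344920))) (b (c (l 16616024) (l 16607168)) (b (l 16498056) (l 16407112))))))), by decide +kernel⟩

def k6_pm_123_a : ∃ t, chk3 f_pm_123_a t 31 3 1 = true :=
  ⟨(b (l 4) (a (a (a (b (a (b (b (l 4) (c (l 16772344) (l 16772312))) (c (l 16731984) (l 16749328))) (b (l 4) (c (l 16719288) (l 16737792)))) (c (b (c (l 16683240) (l 16680488)) (b (l 16584560) (l 16507752))) (b (l 16674440) (l 16392544)))) (b (b (l 4) (c (c (b (l 16721120) (l 16765816)) (l 92039695655)) (c (l 88281592375) (l 16752080)))) (c (b (c (l 16705032) (l 16724504)) (b (l 16630656) (l 16555688))) (b (c (l 16723768) (l 16722320)) (c (l 16577728) (l 16563048)))))) (a (b (a (a (b (l 4) (b (l 4) (c (l 16749720) (l 16749632)))) (l 4)) (l 4)) (c (b (c (a (l 16708336) (l 16715816)) (b (l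 16762792) (l 16739928))) (c (b (l 16686304) (l 16617568)) (b (l 16680016) (l 16604224)))) (b (c (b (l 16740744) (l 16736744)) (l 16728224)) (b (l 16651376) (l 16544416))))) (b (l 4) (b (b (l 4) (c (c (l 16716608) (a (l 16752400) (l 16741616))) (c (l 187065822487) (l 16756464)))) (c (c (b (l 16710864) (l 16677640)) (b (a (l 16721712) (l 16713408)) (l 16667320))) (c (b (l 16706592) (l 16659992)) (b (l 16725656) (l 16652112)))))))) (a (b (l 4) (b (l 4) (b (a (a (c (c (l 16744336) (l 16701848)) (c (l 16742888) (l 16742032))) (l 4)) (l 4)) (a (c (a (c (l 16711112) (l 16689232)) (c (l 16700536) (l 16678760))) (c (a (l 16708688) (l 16677344)) (a (l 16706304) (l 16696648)))) (b (l 4) (a (a (c (l 175791509863) (c (l 16717920) (l 16716816))) (l 4)) (l 4))))))) (l 4)))), by decide +kernel⟩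

theorem s7_pm_123_a : ∃ t, chk3 f_pm_123_a t 30 3 1 = true := ex3_b k4_pm_123_a k5_pm_123_a

theorem s8_pm_123_a : ∃ t, chk3 f_pm_123_a t 15 3 1 = true := ex3_a s7_pm_123_a k6_pm_123_a

theorem s9_pm_123_a : ∃ t, chk3 f_pm_123_a t 15 1 1 = true := ex3_b k3_pm_123_a s8_pm_123_a

theorem s10_pm_123_a : ∃ t, chk3 f_pm_123_a t 7 1 1 = true := ex3_a k2_pm_123_a s9_pm_123_a

theorem s11_pm_123_a : ∃ t, chk3 f_pm_123_a t 3 1 1 = true := ex3_a k1_pm_123_a s10_pm_123_a

theorem s12_pm_123_a : ∃ t, chk3 f_pm_123_a t 1 1 1 = true := ex3_a k0_pm_123_a s11_pm_123_a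

theorem c_pm_123_a : CertNX 536870912 536870912 0 420477299 1046898278 26843546 3 true true false .npn 1 2 3
    ndN0q1 ndN1q2a pcN3 Cut.none Ext.none :=
  certNX2 (fam := true) (s1 := true) (s2 := false) (a := 1) (b := 2) (c := 3) (cn := .npn) (n1 := ndN0q1) (n2 := ndN1q2a) (pc := pcN3) (cut := Cut.none) (xt := Ext.none) (P1 := 536870912) (W1 := 536870912) (P2 := 0) (W2 := 420477299) (P3 := 1046898278) (W3 := 26843546) (N0 := 3)
    rfl (fun _ => rfl) s12_pm_123_a

noncomputable def f_pm_123_b : ℕ → ℕ → ℕ → ℕ → Bool := onCell 1610612736 536870912 1239849684 370763052 1046898278 26843546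
    (rowNX 3 2 true true false .npn 1 2 3 (qsf 536870912 536870912 1239849684 370763052 3) ndN0q1 ndN1q2b pcN3 Cut.none Ext.none)

def k0_pm_123_b : ∃ t, chk3 f_pm_123_b t 1 1 1 = true :=
  ⟨(a (b (a (l 1) (a (b (b (c (c (l 16777216) (l 16777216)) (c (l 16777216) (l 16777216))) (l 1)) (l 1)) (a (b (c (c (l 16777216) (l 16777216)) (c (l 16777216) (l 16777216))) (l 1)) (c (b (b (c (l 16777216) (l 16777216)) (l 16777216)) (l 16777216)) (b (c (l 16777216) (l 16777216)) (l 16777216)))))) (l 1)) (a (b (b (b (a (c (a (c (l 16777216) (l 16777216)) (c (a (l 16777216) (l 16777216)) (l 16777216))) (a (c (l 16777216) (l 16777216)) (c (l 16777216) (l 16777216)))) (a (a (a (b (c (l 16777216) (l 16777216)) (l 4)) (l 4)) (l 4)) (l 4))) (a (c (a (l 16777216) (c (l 16777216) (l 16777216))) (a (l 16777216) (c (l 16777216) (l 16777216)))) (l 4))) (a (b (c (a (l 16777216) (l 174717927447)) (a (l 16777216) (l 16777216))) (a (l 1) (l 4))) (l 4))) (a (l 1) (l 4))) (l 4))), by decide +kernel⟩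

theorem c_pm_123_b : CertNX 536870912 536870912 1239849684 370763052 1046898278 26843546 3 true true false .npn 1 2 3
    ndN0q1 ndN1q2b pcN3 Cut.none Ext.none :=
  certNX2 (fam := true) (s1 := true) (s2 := false) (a := 1) (b := 2) (c := 3) (cn := .npn) (n1 := ndN0q1) (n2 := ndN1q2b) (pc := pcN3) (cut := Cut.none) (xt := Ext.none) (P1 := 536870912) (W1 := 536870912) (P2 := 1239849684) (W2 := 370763052) (P3 := 1046898278) (W3 := 26843546) (N0 := 3)
    rfl (fun _ => rfl) k0_pm_123_b

noncomputable def f_pm_133 : ℕ → ℕ → ℕ → ℕ → Bool := onCell 536870912 536870912 1610612736 469762048 1046898278 26843546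
    (rowNX 3 0 true true false .dn 1 3 3 (qsf 536870912 536870912 1610612736 469762048 3) ndN0q1 ndN1q3 pcN3 Cut.none Ext.none)

def k0_pm_133 : ∃ t, chk3 f_pm_133 t 1 1 1 = true :=
  ⟨(l 4), by decide +kernel⟩

theorem c_pm_133 : CertNX 536870912 536870912 1610612736 469762048 1046898278 26843546 3 true true false .dn 1 3 3
    ndN0q1 ndN1q3 pcN3 Cut.none Ext.none :=
  certNX0 (fam := true) (s1 := true) (s2 := false) (a := 1) (b := 3) (c := 3) (cn := .dn) (n1 := ndN0q1) (n2 := ndN1q3) (pc := pcN3) (cut := Cut.none) (xt := Ext.none) (P1 := 536870912) (W1 := 536870912) (P2 := 1610612736) (W2 := 469762048) (P3 := 1046898278) (W3 := 26843546) (N0 := 3)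
    rfl k0_pm_133

end Pool.Agent.Strip051.G.IE1.Tab.C.NA01

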