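import Pool.Agent.Strip051.G.IE1.Tab

/-! # Certificates N14 (generated) -/

set_option linter.all false
set_option maxRecDepth 100000

namespace Pool.Agent.Strip051.G.IE1.Tab.C.NA01

open Pool.Agent.Strip051.PB Pool.Agent.Strip051.PB.T
open Pool.Agent.Strip051.G.IE1.Tab

noncomputable def f_pm_202 : ℕ → ℕ → ℕ → ℕ → Bool := onCell 0 536870912 1073741824 536870912 1046898278 26843546
    (rowNX 3 1 true true false .pp 2 0 2 (qsf 0 536870912 67108864 469762048 2) ndN0q2 ndN1q0 pcN2 Cut.none Ext.none)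

def k0_pm_202 : ∃ t, chk3 f_pm_202 t 2 4 1 = true :=
  ⟨(l 1), by decide +kernel⟩

def k1_pm_202 : ∃ t, chk3 f_pm_202 t 2 10 1 = true :=
  ⟨(a (l 1) (b (l 1) (a (l 1) (a (l 1) (b (l 1) (b (l 1) (c (c (c (a (b (l 1) (l 79487680311)) (b (c (l 15681176) (l 15665136)) (l 15625808))) (l 15465456)) (l 15595520)) (l 15566848)))))))), by decide +kernel⟩

def k2_pm_202 : ∃ t, chk3 f_pm_202 t 2 22 1 = true :=
  ⟨(b (a (l 1) (b (a (l 1) (c (a (c (c (a (b (l 1) (l 15330144)) (b (l 15398280) (l 15388960))) (l 15377376)) (l 15357864)) (a (l 15476808) (l 15579424))) (a (l 15322472) (l 15481304)))) (a (c (c (a (c (a (l 1) (b (l 1) (l 15102824))) (l 15106816)) (c (a (b (l 1) (l 15127152)) (b (l 15225328) (l 15184288))) (l 15168384))) (a (l 15070880) (l 15147968))) (a (l 15027520) (l 15106552))) (c (a (a (l 15255240) (l 15343424)) (l 15494400)) (a (l 15244176) (l 15450968)))))) (a (a (b (l 1) (b (l 1) (c (c (a (l 14706280) (l 14728624)) (l 14683656)) (l 14628840)))) (c (c (b (a (l 1) (c (b (l 1) (c (l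 104719383895) (l 14900024))) (l 14917952))) (a (a (b (l 14790392) (l 14759088)) (l 14804736)) (l 14862808))) (a (l 14806112) (l 14864320))) (a (l 14754936) (b (l 14843432) (l 14776008))))) (a (b (c (a (c (c (b (a (l 15003928) (l 15037752)) (l 14991088)) (l 14991856)) (l 14968896)) (l 15103208)) (a (l 14922240) (l 15041184))) (c (c (l 15037912) (l 15007728)) (l 14961544))) (c (a (l 15261944) (l 15452200)) (a (l 15209408) (l 15406296)))))), by decide +kernel⟩

def k3_pm_202 : ∃ t, chk3 f_pm_202 t 2 23 1 = true :=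
  ⟨(a (a (c (b (c (a (b (b (l 14694992) (l 14805296)) (l 14945944)) (b (l 14785352) (l 14966648))) (a (b (l 14726352) (l 14913952)) (l 14843080))) (a (c (l 15223640) (l 15196536)) (l 15224608))) (a (b (b (l 14672472) (l 14865016)) (l 15155080)) (b (l 14729344) (l 15170088)))) (a (c (b (c (l 14824520) (l 14897080)) (l 15276776)) (b (l 14784776) (l 15224096))) (c (b (c (l 14987856) (l 14977928)) (l 15243672)) (b (l 14867760) (l 15298376))))) (c (a (a (b (c (l 15114464) (l 15085424)) (l 15220368)) (b (c (l 15246016) (l 15219280)) (l 15471160))) (b (a (b (c (l 15315520) (l 15290008)) (l 15453640)) (b (c (l 15470032) (l 15447224)) (l 15555200))) (a (l 15588688) (l 15662584)))) (a (b (a (l 15041008) (l 15157424)) (a (l 15382792) (l 15468736))) (b (a (b (l 15250984) (l 15407176)) (a (l 15348792) (l 15491920))) (l 15586064))))), by decide +kernel⟩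

def k4_pm_202 : ∃ t, chk3 f_pm_202 t 2 3 1 = true :=
  ⟨(a (b (b (b (c (a (a (b (b (l 15409928) (l 15568840)) (l 15683480)) (b (l 15515328) (l 15668648))) (a (l 15488128) (l 15646256))) (a (a (b (l 15477312) (l 15645184)) (l 15489952)) (a (l 15573128) (l 15606560)))) (a (a (c (l 15896824) (l 15866016)) (c (l 15845360) (l 15856088))) (c (l 15757776) (l 15895656)))) (b (a (c (l 16157976) (l 16202112)) (c (a (l 16273160) (l 16314544)) (l 16173152))) (a (a (l 16476616) (l 16488872)) (c (b (l 16574808) (l 16732016)) (b (l 16567704) (l 16730424)))))) (c (b (a (l 16777208) (l 16777216)) (a (l 16777216) (l 16777216))) (a (b (l 16777208) (l 16777216)) (b (l 16777216) (l 16777216))))) (a (c (b (b (b (l 15713936) (l 15860072)) (b (l 16342312) (l 16565256))) (b (l 16777216) (l 16777216))) (b (b (b (l 15676616) (l 15980568)) (b (l 16371200) (l 16625888))) (b (l 16777216) (l 16777216)))) (b (b (c (b (a (l 15801344) (l 15880912)) (a (l 16140072) (l 16240608))) (b (a (l 15767088) (l 15849448)) (l 16045472)))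 (b (a (c (l 16478328) (l 16490280)) (b (l 16477160) (l 16590144))) (c (l 16658360) (l 16741760)))) (c (l 16777216) (l 16777216))))), by decide +kernel⟩

def k5_pm_202 : ∃ t, chk3 f_pm_202 t 3 8 1 = true :=
  ⟨(a (l 1) (b (l 1) (b (l 1) (b (l 1) (b (l 1) (b (l 1) (b (l 1) (a (l 1) (a (l 1) (a (l 1) (a (l 1) (a (l 1) (a (l 1) (a (l 1) (c (c (l 16518488) (l 16537224)) (c (c (l 16534856) (l 16535016)) (l 16530480))))))))))))))))), by decide +kernel⟩

def k6_pm_202 : ∃ t, chk3 f_pm_202 t 6 9 1 = true :=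
  ⟨(l 1), by decide +kernel⟩

def k7_pm_202 : ∃ t, chk3 f_pm_202 t 7 72 1 = true :=
  ⟨(a (l 1) (a (l 1) (a (l 1) (a (b (l 1) (c (c (c (b (a (l 1) (a (l 1) (l 101501681511))) (c (a (l 662531909159) (l 16564648)) (l 16618264))) (l 16604408)) (c (l 16573320) (a (l 228203217543) (b (l 16583064) (l 16541704))))) (c (c (a (l 16639104) (c (a (l 16617272) (l 16580600)) (l 16608152))) (a (l 16578664) (l 16604696))) (a (l 16632296) (c (c (a (l 16604608) (l 16611072)) (l 16610504)) (l 16609008)))))) (c (c (a (c (b (b (l 1) (a (l 118681500455) (l 16531872))) (l 16528656)) (l 16506536)) (b (b (a (b (l 1) (l 16516120)) (l 16475584)) (l 16542520)) (l 16523760))) (b (c (l 16511504) (l 16489136)) (c (l 16544648) (l 16522232)))) (a (c (c (c (b (l 16567904) (l 16544960)) (b (l 16528872) (l 16527944))) (l 308733763783)) (c (c (l 16527736) (b (l 383358818983) (l 16506808))) (b (l 16550408) (l 16548240)))) (c (c (b (c (l 16537472) (l 16534728)) (l 16452016)) (c (b (l 16453496) (l 16519416)) (l 16523824)))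 (c (l 16502096) (c (a (b (l 16547808) (l 16529088)) (l 16511520)) (a (l 16536736) (c (l 16511296) (l 16510312)))))))))))), by decide +kernel⟩

def k8_pm_202 : ∃ t, chk3 f_pm_202 t 7 73 1 = true :=
  ⟨(a (l 1) (a (l 1) (a (a (a (l 1) (a (l 1) (b (l 1) (b (l 1) (a (l 1) (c (c (c (l 16638360) (l 16632848)) (l 16612128)) (l 16627088))))))) (b (a (l 1) (b (l 1) (c (c (c (a (l 16591952) (l 16648072)) (l 16656480)) (c (l 16574576) (l 16599136))) (c (c (l 16636440) (l 16666848)) (l 16663960))))) (c (c (c (a (c (b (l 16600160) (l 16661056)) (l 16656664)) (l 16590568)) (a (c (l 16654672) (l 16634528)) (l 16636080))) (c (c (a (l 16582928) (l 16635752)) (a (l 16641296) (l 16601168))) (a (l 16632768) (l 16649768)))) (c (c (a (l 16554176) (l 16594544)) (l 16595344)) (l 16593104))))) (c (c (a (b (a (b (c (a (l 16607024) (l 16627696)) (l 16633464)) (l 16580696)) (l 16567288)) (l 16488640)) (c (l 16503776) (l 16501976))) (c (a (a (b (l 16604440) (l 16527032)) (l 16568336)) (l 16500184)) (a (c (a (c (l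 16526120) (l 16529912)) (l 16522544)) (b (a (l 16633776) (l 16586264)) (l 16452480))) (c (l 16498824) (l 16431232))))) (c (a (a (c (l 16579512) (c (l 16563712) (l 16558920))) (b (c (c (l 16568880) (l 16588920)) (l 16572256)) (l 16490704))) (c (c (a (l 16458248) (l 16470408)) (a (l 16460208) (l 16410064))) (c (b (l 16432024) (l 16478680)) (l 16495488)))) (a (c (a (l 16593696) (a (l 16576704) (l 16500512))) (l 16507480)) (c (a (c (l 16523368) (l 16479584)) (l 16469280)) (a (l 16499752) (c (l 16468576) (l 16382560)))))))))), by decide +kernel⟩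

def k9_pm_202 : ∃ t, chk3 f_pm_202 t 14 37 1 = true :=
  ⟨(l 1), by decide +kernel⟩

def k10_pm_202 : ∃ t, chk3 f_pm_202 t 30 37 1 = true :=
  ⟨(b (b (l 1) (a (l 1) (a (l 1) (c (a (a (l 1) (b (l 1) (c (c (l 16526224) (l 16555016)) (l 16598688)))) (c (c (c (c (b (a (l 16590688) (l 16602152)) (l 16565576)) (l 16510096)) (l 16586512)) (l 16556232)) (c (c (l 16596976) (l 16611512)) (l 16612224)))) (c (l 16584792) (l 16562448)))))) (a (a (l 1) (a (l 1) (c (b (l 1) (b (l 1) (c (c (l 16550720) (l 16626400)) (l 16625800)))) (c (l 16588648) (l 16566560))))) (c (c (c (c (a (b (a (b (l 1) (l 128882056311)) (c (b (l 16527656) (l 16532800)) (l 448857196535))) (a (b (l 16523504) (l 16631440)) (l 16619440))) (a (l 16521232) (l 16478584))) (a (a (b (l 16605064) (l 16631344)) (l 16528776)) (l 16493552))) (a (a (l 16597656) (l 16505760)) (a (c (l 16590168) (l 16613376)) (l 16570136)))) (a (b (l 16604856) (l 16625720)) (c (a (l 16625152) (l 16533280)) (l 16571840)))) (c (a (b (l 16603560) (l 16624936))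 (l 16466152)) (a (c (l 16523080) (l 16501704)) (b (l 16600336) (l 16576656))))))), by decide +kernel⟩

def k11_pm_202 : ∃ t, chk3 f_pm_202 t 31 37 2 = true :=
  ⟨(a (c (a (c (b (c (b (a (b (l 16626952) (l 16534008)) (l 16564040)) (l 16531248)) (a (b (l 16514456) (l 16591992)) (l 16558824))) (c (a (c (l 16505912) (l 16469536)) (l 16538520)) (a (l 16439832) (l 16410760)))) (b (c (b (a (l 16572656) (l 16576896)) (a (l 16623720) (l 16585936))) (a (l 16583624) (b (l 16585392) (l 16637240)))) (c (b (l 16456768) (l 16440728)) (l 16555952)))) (c (b (l 16504056) (l 16446424)) (c (b (l 16502648) (a (l 16419144) (l 16471552))) (b (a (l 16506488) (l 16546792)) (a (b (l 16496208) (l 16486296)) (l 16384448)))))) (c (a (b (a (c (l 16518464) (l 16506856)) (l 16577352)) (a (l 16512320) (l 16543840))) (c (b (b (l 16473400) (a (l 16594272) (l 16526792))) (a (l 16512496) (l 16373008))) (b (a (l 16624184) (l 16473224)) (l 16498088)))) (a (b (a (l 16522584) (b (l 16538736) (l 16642640))) (c (l 16487968) (l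 16560168))) (b (l 16456296) (l 16395984))))) (c (b (c (l 16348600) (a (l 16489800) (l 16433920))) (c (a (l 16425192) (l 16361864)) (a (l 16422992) (l 16358856)))) (c (a (b (c (l 16487048) (a (l 16444448) (l 16488328))) (c (a (l 16370328) (l 16405384)) (a (l 16315976) (l 16378416)))) (b (l 16431544) (l 16355832))) (a (c (b (a (l 16451880) (l 16424104)) (a (l 16438792) (l 16280664))) (b (a (l 16532752) (l 16409536)) (l 16421728))) (c (b (l 16428984) (a (l 16365456) (l 16336672))) (b (a (l 16404480) (l 16408344)) (a (l 16288056) (l 16330136)))))))), by decide +kernel⟩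

def k12_pm_202 : ∃ t, chk3 f_pm_202 t 31 37 3 = true :=
  ⟨(a (b (c (a (b (l 16564440) (l 16620288)) (c (a (l 16542080) (l 16484184)) (l 16532832))) (a (b (l 16563408) (l 16619480)) (l 16508816))) (c (c (a (l 16554208) (a (l 16456624) (l 16426216))) (l 16396968)) (c (l 16457304) (l 16434856)))) (c (a (c (b (l 16475632) (l 16427472)) (a (c (l 16415360) (l 16410024)) (l 16346416))) (c (c (b (a (l 16368312) (l 16362600)) (a (l 16369800) (l 16231280))) (a (l 16407264) (b (l 16305552) (l 16335176)))) (l 16324688))) (a (c (a (l 16443976) (c (l 16327128) (l 16426544))) (l 16380736)) (c (a (c (l 16409440) (a (l 16400120) (l 16397448))) (l 16365104)) (a (c (l 16342736) (l 16404088)) (c (l 16258888) (a (l 16373448) (l 16267584)))))))), by decide +kernel⟩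

def k13_pm_202 : ∃ t, chk3 f_pm_202 t 14 19 1 = true :=
  ⟨(b (a (l 1) (a (l 1) (b (a (l 1) (b (l 1) (b (l 1) (b (l 1) (a (l 1) (c (c (l 16514856) (l 16578056)) (l 16575888))))))) (a (c (c (c (b (c (b (l 1) (l 16493024)) (l 16522832)) (c (a (l 16355896) (l 16419560)) (l 16452984))) (l 16396080)) (l 16373032)) (c (l 16370152) (l 16346224))) (c (c (b (a (c (b (l 16533128) (l 16484312)) (l 16530968)) (l 16395400)) (l 16385400)) (l 16317136)) (c (l 16292184) (l 16267144))))))) (b (a (l 1) (c (a (c (c (a (b (l 1) (c (a (l 16286608) (l 16306120)) (l 16309528))) (b (c (a (l 16328832) (l 16375864)) (l 16386416)) (l 16263088))) (a (l 16334248) (l 16298144))) (a (l 16330616) (l 16251528))) (c (a (l 16112488) (l 16156656)) (a (l 16233176) (l 16168560)))) (a (c (a (l 16304088) (l 16224232)) (a (l 16256464) (l 16196800))) (c (a (l 16204680) (l 16159384)) (a (l 16176048) (l 16150040)))))) (a (a (l 1) (c (c (c (a (b (l 1) (c (b (l 16116112) (l 16068152)) (l 16094008))) (b (c (b (l 16226384) (l 16178216))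 (l 16204712)) (l 16084024))) (l 175588687975)) (l 219075208039)) (c (a (l 16121648) (l 16120696)) (a (l 16111904) (l 16089864))))) (c (a (c (a (l 15971816) (l 16055864)) (a (l 16110720) (l 16044528))) (c (l 15754984) (l 15930208))) (a (a (c (l 16100552) (l 16090208)) (c (l 16033040) (l 16021352))) (c (l 15916504) (l 15902576))))))), by decide +kernel⟩

def k14_pm_202 : ∃ t, chk3 f_pm_202 t 30 19 2 = true :=
  ⟨(b (b (a (b (c (a (a (l 1) (b (l 1) (c (l 16534696) (l 16600952)))) (c (a (c (l 16509864) (l 16597984)) (l 16587360)) (l 16590088))) (a (l 16618464) (l 16589104))) (c (a (c (b (a (l 16555736) (l 16570224)) (l 16456472)) (l 16434464)) (b (l 16516040) (l 16466144))) (b (a (l 16583272) (l 16534592)) (l 16364208)))) (c (c (b (a (a (l 16580096) (l 16582216)) (c (l 16506640) (l 16551808))) (a (b (a (l 16523912) (l 16528368)) (a (l 16475896) (l 16460488))) (b (l 16497488) (l 16431272)))) (a (b (l 16560288) (l 16375992)) (b (c (l 16525920) (l 16496456)) (a (c (l 16460712) (l 16459696))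 (l 16380592))))) (c (b (c (l 16444312) (l 16535640)) (a (l 16476704) (b (l 16476304) (l 16388264)))) (l 16306760)))) (c (a (a (l 16264344) (l 16208624)) (a (c (a (l 16261648) (l 16225632)) (l 16283128)) (c (l 16196976) (a (l 16195384) (l 16269056))))) (a (l 16146848) (c (a (l 16277128) (l 16150736)) (l 16255800))))) (a (c (a (c (l 15833384) (l 15910680)) (c (l 15779608) (l 15898112))) (c (l 15688136) (l 15744096))) (c (a (c (a (c (l 15838736) (l 15883920)) (c (l 15829960) (l 15829128))) (l 15640416)) (c (b (l 15987728) (c (l 15753968) (l 15713320))) (a (c (l 15710560) (l 15748632)) (b (l 15994592) (l 15739832))))) (c (a (l 15861216) (b (l 15936320) (a (l 15704384) (l 15589736)))) (l 15612624))))), by decide +kernel⟩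

def k15_pm_202 : ∃ t, chk3 f_pm_202 t 31 76 2 = true :=
  ⟨(c (a (c (a (a (b (c (l 16422328) (l 16493128)) (c (b (l 16440984) (c (l 16353008) (l 16396424))) (l 16422072))) (b (c (l 16448624) (l 16433584)) (b (c (l 16403464) (l 16412552)) (c (l 16256352) (c (l 16368592) (l 16369656)))))) (b (l 16362424) (b (l 16277304) (c (l 16327376) (a (l 16293632) (l 16313912)))))) (b (a (c (l 16441192) (l 16487376)) (c (a (l 16425056) (l 16391704)) (a (l 16430040) (l 16394440)))) (a (l 16374272) (b (c (l 16239688) (l 16271184)) (c (a (c (l 16342480) (l 16344400)) (l 16287888)) (a (l 16341736) (l 16212880))))))) (b (c (l 16328752) (c (l 16326296) (l 16322496))) (c (b (l 16294904) (a (l 16280736) (l 16236104))) (b (c (l 16292232) (l 16285400)) (a (c (l 16277968) (l 16207288)) (l 16231976)))))) (a (c (b (a (l 16403520) (c (l 16376600) (l 16417352))) (a (a (l 16308008) (l 16410200)) (l 16353648))) (a (b (l 16435296) (a (l 16409120) (l 16318136))) (b (l 16419560) (l 16251728)))) (c (a (b (c (a (l 16363424)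 (l 16336608)) (a (l 16369464) (l 16333664))) (b (c (l 16205080) (l 16193576)) (c (a (l 16164112) (l 16258328)) (a (l 16286432) (l 16200440))))) (b (l 16294560) (b (l 16259352) (c (l 16228864) (l 16222088))))) (c (b (a (l 16314632) (l 16222424)) (a (b (l 16315872) (l 16273112)) (b (l 16233304) (a (l 16194712) (l 16210136))))) (a (l 16321696) (b (a (l 16310024) (l 16272624)) (b (l 16200016) (a (l 16232888) (b (l 16225288) (l 16197040)))))))))), by decide +kernel⟩

def k16_pm_202 : ∃ t, chk3 f_pm_202 t 31 77 2 = true :=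
  ⟨(c (a (c (a (c (a (l 16103544) (c (l 16150192) (l 16176168))) (a (l 16228928) (l 16097280))) (c (l 16132904) (a (l 16000056) (l 16141400)))) (a (l 16222200) (c (a (l 16092128) (l 15993192)) (a (l 16169616) (l 16085776))))) (c (a (b (l 16179448) (l 16056736)) (l 16004632)) (a (c (l 16115600) (a (b (l 16180456) (l 16048832)) (l 16105048))) (l 16104184)))) (a (a (c (l 16055456) (l 16126720)) (c (l 16159712) (l 16160840))) (c (a (c (a (a (l 16124888) (l 16051560)) (b (l 16155024) (l 16037760))) (a (l 16115288) (b (l 16162256) (l 16043408)))) (c (l 16100192) (b (l 16094112) (l 16040368)))) (a (l 16108680) (c (a (b (l 16143952) (l 16045824)) (l 16088280)) (a (l 16088792) (l 16074920))))))), by decide +kernel⟩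

def k17_pm_202 : ∃ t, chk3 f_pm_202 t 31 39 2 = true :=
  ⟨(c (a (b (c (a (a (l 15955408) (c (b (l 15996608) (l 15847328)) (l 15926992))) (c (a (b (l 15962544) (a (l 15852080) (l 15848528))) (l 15906296)) (a (b (l 15969888) (l 15857520)) (b (l 15944920) (l 15850264))))) (a (l 15950664) (a (l 15909528) (c (b (l 15887768) (l 15857568)) (l 15900016))))) (c (a (a (l 15721944) (c (l 15723120) (l 15716808))) (c (a (c (l 15724176) (l 15728208)) (l 15727496)) (a (l 15728184) (l 15708672)))) (a (l 15727656) (c (l 15731040) (l 15721456))))) (c (c (l 15718800) (b (l 15923800) (l 15751656))) (a (c (a (b (l 15897912) (l 15734896)) (l 15825824)) (b (a (l 15757112) (l 15905080)) (a (l 15738376) (l 15741344)))) (l 15653288)))) (a (a (c (b (a (l 15961024) (l 15941520)) (a (l 15723128) (l 15727848))) (b (l 15745200) (l 15580888))) (c (b (l 15909432) (l 15722040)) (b (l 15845304) (l 15719064)))) (c (a (c (a (l 15815160) (b (l 15909936) (l 15745736))) (b (l 15905408) (l 15730352))) (c (a (b (l 15912512)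 (l 15747424)) (l 15844920)) (b (a (l 15916280) (l 15919808)) (a (l 15752800) (l 15753160))))) (a (l 15811464) (c (a (l 15831584) (b (l 15922136) (l 15759184))) (b (l 15920848) (l 15743304))))))), by decide +kernel⟩

def k18_pm_202 : ∃ t, chk3 f_pm_202 t 30 19 3 = true :=
  ⟨(b (b (a (b (a (c (l 16617720) (l 16595960)) (c (l 16587744) (l 16544392))) (c (b (a (l 16581896) (l 16532224)) (a (l 16515936) (l 16480432))) (a (b (l 16559488) (l 16471728)) (b (l 16529792) (l 16477040))))) (c (b (l 16469408) (b (l 16477400) (l 16429072))) (b (l 16466840) (b (l 16473816) (l 16424600))))) (a (c (l 16140768) (l 16092640)) (c (l 16208080) (l 16179304)))) (a (c (a (l 15803344) (l 15809848)) (a (l 15747712) (l 15774096))) (c (b (l 15965592) (l 15548056)) (b (l 15952464) (a (l 15684208) (l 15662680)))))), by decide +kernel⟩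

def k19_pm_202 : ∃ t, chk3 f_pm_202 t 31 19 3 = true :=
  ⟨(b (b (a (c (c (a (l 16343952) (b (a (l 16435088) (l 16409576)) (a (l 16286136) (l 16221720)))) (b (l 16435080) (b (l 16389784) (l 16345896)))) (b (l 16409616) (b (l 16384672) (l 16340176)))) (a (c (c (l 16179968) (a (c (l 16241800) (l 16214816)) (b (l 16336160) (l 16279704)))) (c (a (l 16310664) (b (l 16334720) (c (l 16259280) (l 16274056)))) (l 16230072))) (c (c (c (b (l 16212320) (b (l 16261480) (a (l 16230832) (l 16211792)))) (l 16262304)) (b (l 16284872) (l 16234880))) (c (a (a (c (l 16284160) (l 16220944)) (l 16202176)) (l 16158296)) (a (b (l 16296896) (l 16179656)) (c (b (l 16263712) (b (l 16231616) (l 16197328))) (b (l 16260720) (a (l 16218896) (b (l 16221544) (l 16188912)))))))))) (a (c (a (l 16191120) (c (a (l 16171960) (l 16150456)) (l 16145416))) (l 16117440)) (c (a (c (l 16111480) (a (l 15970384) (l 16094440))) (l 16086296)) (a (c (a (l 16103512) (c (l 16072736) (l 16086656))) (l 16092688)) (c (a (c (l 16081272)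 (l 15972624)) (l 16076424)) (a (l 16052776) (c (l 16073152) (l 15985416)))))))) (a (b (c (a (l 15910576) (c (a (l 15883464) (l 15901872)) (l 15888056))) (a (l 15896296) (l 15875304))) (c (a (l 15680128) (c (l 15628880) (l 15695360))) (l 15671904))) (c (a (c (l 15811504) (a (l 15636616) (l 15806656))) (l 15819104)) (a (c (a (l 15787816) (l 15758400)) (l 15784296)) (c (a (l 15574672) (l 15812176)) (a (l 15798104) (c (l 15807080) (l 15760064)))))))), by decide +kernel⟩

def k20_pm_202 : ∃ t, chk3 f_pm_202 t 6 10 1 = true :=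
  ⟨(b (a (l 1) (a (b (l 1) (a (a (l 1) (c (c (b (l 1) (b (l 1) (l 16457888))) (l 16235120)) (l 16208576))) (c (c (b (a (l 1) (b (l 1) (l 16089976))) (a (b (c (l 1375496042791) (l 16395616)) (l 16463296)) (l 16339912))) (l 16041664)) (b (l 16206128) (l 16265376))))) (b (b (l 1) (c (a (a (l 1) (a (l 1) (b (l 1) (b (l 1) (l 15923312))))) (c (c (b (a (l 15964320) (l 15795768)) (a (l 15819016) (l 15806624))) (l 15887600)) (l 15877128))) (a (l 16015960) (b (l 15906680) (l 15792608))))) (c (b (a (c (a (b (l 265782899463) (l 16162216)) (l 16031680)) (l 16064504)) (l 15870432)) (l 16017280)) (a (b (l 15964664) (l 16170672)) (l 15893720)))))) (a (c (b (b (a (l 1) (c (a (l 1) (c (b (a (l 1) (l 16341856)) (l 154651021031)) (l 16299448))) (l 16219640))) (a (a (l 1) (a (l 1) (a (l 1) (b (l 1) (l 15901464))))) (a (c (a (b (l 16060800) (l 16047616)) (l 15944192)) (l 16098528)) (l 16155376)))) (a (b (c (c (a (b (a (l 1) (l 15891032)) (l 15697944)) (b (l 15917432) (l 15896688))) (l 15811384)) (l 15862584))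 (a (l 15731496) (l 15853384))) (l 16010600))) (b (a (l 15898408) (b (l 77341496823) (a (l 16083936) (l 16199288)))) (a (b (a (l 15788408) (l 15880864)) (l 15627192)) (l 16051888)))) (a (c (b (a (b (b (c (l 16281880) (l 16464288)) (l 16406072)) (l 16362528)) (l 16409184)) (c (l 16180736) (l 16175992))) (b (a (b (l 16314840) (l 16373944)) (l 16405448)) (a (l 16288552) (l 16363864)))) (c (b (c (l 16083064) (l 16074856)) (a (l 16286856) (l 16180776))) (b (a (l 16278648) (l 16075376)) (a (l 16302840) (l 16168856))))))), by decide +kernel⟩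

def k21_pm_202 : ∃ t, chk3 f_pm_202 t 28 20 1 = true :=
  ⟨(a (a (b (b (b (l 1) (c (c (c (a (l 15902448) (b (l 15912960) (l 15862896))) (l 15902968)) (l 15893224)) (a (l 15892440) (l 15724248)))) (c (b (l 15792064) (l 15679608)) (b (l 15760040) (l 15643040)))) (c (l 15749912) (l 15715440))) (b (c (b (c (b (c (c (b (l 16003320) (l 15954904)) (l 15980200)) (l 15975936)) (l 15855112)) (l 15899432)) (c (b (l 15721088) (a (b (l 15634312) (l 15578920)) (l 15585080))) (b (l 15703688) (l 15575432)))) (b (c (l 15885712) (l 15850744)) (a (c (l 15611864) (l 15488024)) (l 15414864)))) (c (b (c (c (a (l 15626864) (l 15581288)) (l 15597744)) (a (l 15603000) (l 15556000))) (b (c (b (l 15657120) (l 15680512)) (l 15566896)) (l 15705728))) (b (c (a (l 15583152) (l 15535296)) (a (l 15563000) (l 15514272))) (a (l 15674880) (b (b (l 15577296) (l 15601568)) (l 15637608))))))) (b (c (b (c (a (l 15904280) (l 15878192)) (l 15842024)) (c (c (l 15627544) (l 15617880)) (l 15603264))) (b (a (c (l 15878128) (l 15863736))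 (l 15778344)) (c (l 15583512) (l 15563448)))) (c (b (c (c (l 15538480) (l 15527896)) (l 15511880)) (c (b (b (l 15562272) (l 15573680)) (a (l 15622304) (l 15574352))) (b (b (l 15541336) (l 15553184)) (l 15575808)))) (b (c (l 15490264) (l 15468304)) (b (c (b (l 15520112) (l 15532360)) (b (l 15498584) (l 15511192))) (a (l 15446248) (l 15521664))))))), by decide +kernel⟩

def k22_pm_202 : ∃ t, chk3 f_pm_202 t 29 20 1 = true :=
  ⟨(b (c (c (a (b (l 15605712) (c (b (l 15619128) (l 15488728)) (l 15543432))) (b (c (l 15678472) (l 15669200)) (c (a (l 15452624) (l 15337000)) (l 15300112)))) (a (b (l 15799496) (l 15485680)) (b (l 15655168) (b (l 15451624) (l 15321440))))) (c (a (b (l 15783344) (l 15422392)) (b (l 15636232) (b (l 15428808) (l 15296152)))) (a (b (l 15766936) (l 15358784)) (b (l 15617000) (b (l 15405656) (l 15270496)))))) (c (b (c (a (c (l 15385304) (l 15436712)) (c (a (l 15349360) (l 15298008)) (l 15273120))) (a (l 15398320) (c (l 15302320) (l 15289488)))) (c (a (b (b (a (l 15490104)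 (l 15422768)) (l 15476000)) (l 15516336)) (b (b (l 15354048) (l 15379560)) (l 15422352))) (a (b (b (l 15434808) (l 15453312)) (l 15494352)) (b (l 15342072) (l 15398632))))) (b (a (c (a (l 15430488) (l 15359920)) (a (l 15407304) (l 15335376))) (c (b (l 15256216) (l 15276872)) (b (l 15229760) (l 15250736)))) (b (a (b (c (l 15411488) (l 15387824)) (c (l 15430296) (l 15406952))) (c (l 15317008) (l 15291576))) (a (c (l 15472056) (l 15449440)) (l 15362376)))))), by decide +kernel⟩

def k23_pm_202 : ∃ t, chk3 f_pm_202 t 30 20 2 = true :=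
  ⟨(b (c (a (a (b (l 15551672) (b (l 15358936) (c (l 15262888) (l 15249656)))) (b (c (l 15510576) (l 15499488)) (c (l 15305752) (l 15292712)))) (a (c (b (a (c (l 15523168) (l 15503632)) (c (l 15555704) (l 15532192))) (a (l 15338696) (c (l 15388744) (l 15364440)))) (b (l 15500736) (l 15324576))) (c (c (l 15477096) (l 15435144)) (a (a (l 15435896) (l 15310112)) (l 15304248))))) (a (b (a (l 15530672) (l 15483016)) (a (l 15285008) (l 15273280))) (c (a (l 15315400) (c (l 15292856) (l 15419072))) (b (l 15487568) (l 15311176))))) (c (b (a (a (l 15251672) (c (l 15232008) (l 15239408))) (c (a (a (l 15280088) (l 15312504)) (c (l 15326392) (l 15325648))) (a (l 15263224) (c (l 15314920) (l 15300600))))) (a (a (b (b (l 15284184) (l 15305504)) (l 15343200)) (c (b (l 15284776) (l 15328168)) (l 15293296))) (c (a (b (b (a (l 15295392) (l 15322912)) (l 15328768)) (l 15317592)) (b (c (l 15314864) (l 15335120)) (l 15367840))) (a (b (l 15284024) (l 15322992)) (b (b (l 15309368) (l 15322352)) (l 15349984))))))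 (b (a (l 15180352) (c (c (l 15274232) (l 15254680)) (l 15244192))) (a (b (b (l 15250320) (l 15270600)) (l 15307264)) (c (a (l 15288096) (b (l 15206704) (l 15325048))) (l 15278120)))))), by decide +kernel⟩

def k24_pm_202 : ∃ t, chk3 f_pm_202 t 31 40 2 = true :=
  ⟨(a (c (c (a (b (l 15552672) (l 15389920)) (c (a (b (l 15566992) (l 15400664)) (b (c (l 15565216) (l 15566440)) (c (l 15409344) (l 15411312)))) (a (l 15476224) (b (l 15570792) (l 15406736))))) (a (l 15473904) (l 15475296))) (a (c (a (l 15381664) (l 15475992)) (a (l 15431720) (l 15459040))) (c (l 15471720) (l 15466368)))) (c (c (a (c (b (l 15587640) (c (l 15429120) (l 15419392))) (a (b (l 15571400) (c (l 15415272) (l 15417496))) (b (l 15588704) (l 15422704)))) (l 15529144)) (a (c (b (a (l 15576400) (l 15578072)) (a (l 15414320) (l 15422512))) (a (l 15484760) (b (l 15582960) (l 15422560)))) (c (l 15515576) (a (b (l 15584584) (l 15427872)) (l 15517592))))) (c (a (l 15483920) (c (b (a (l 15588928) (l 15591016)) (a (l 15429904) (l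 15432840))) (a (l 15501528) (b (l 15594304) (l 15436360))))) (c (b (a (l 15559352) (l 15586936)) (l 15406520)) (l 15484008))))), by decide +kernel⟩

def k25_pm_202 : ∃ t, chk3 f_pm_202 t 31 41 2 = true :=
  ⟨(c (b (a (c (c (a (l 15311728) (a (l 15315168) (a (l 15317792) (l 15305216)))) (l 15293936)) (l 15315224)) (c (a (c (a (c (l 15304960) (l 15305768)) (l 15337216)) (a (l 15327848) (l 15327136))) (l 15346216)) (a (c (a (l 15315736) (l 15329848)) (l 15314024)) (c (a (l 15328144) (l 15340608)) (a (l 15331032) (l 15328992)))))) (a (c (b (c (l 15288368) (l 15307528)) (l 15315000)) (a (l 15326136) (l 15305776))) (c (b (b (a (a (b (l 15287736) (c (l 15283296) (l 15296360))) (c (l 15390328) (l 15301872))) (b (l 15313112) (l 15307008))) (a (c (l 15287608) (l 15309984)) (l 15306944))) (a (c (l 15327416) (l 15327632)) (l 15289304))) (b (b (a (c (l 15276376) (l 15287360)) (c (a (l 15297456) (l 15301688)) (a (l 15296520) (l 15292552)))) (a (l 15277576) (c (l 15295808) (l 15297496)))) (a (l 15312216)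 (c (l 15303760) (l 15305168))))))) (a (b (a (c (l 15305720) (l 15284408)) (c (l 15301448) (l 15294448))) (a (c (c (l 15325592) (l 15316624)) (b (l 15282576) (l 15312448))) (c (l 15300536) (l 15293504)))) (b (c (a (l 15305520) (a (l 15316968) (c (l 15331456) (l 15323792)))) (l 15302304)) (c (a (l 15290560) (b (b (c (l 15293504) (l 15280784)) (l 15291496)) (l 15296416))) (l 15275624))))), by decide +kernel⟩

def k26_pm_202 : ∃ t, chk3 f_pm_202 t 15 20 3 = true :=
  ⟨(a (b (a (c (b (a (l 15509384) (l 15460784)) (a (l 15259040) (l 15247064))) (b (a (l 15487776) (l 15438232)) (a (l 15232704) (l 15220464)))) (c (b (l 15470936) (l 15292032)) (b (l 15427528) (l 15266192)))) (b (c (a (l 15153128) (l 15224056)) (a (a (l 15170160) (l 15164184)) (l 15196888))) (b (c (a (b (l 15223576) (l 15244216)) (l 15239608)) (a (b (l 15196440) (l 15217448)) (l 15212688))) (c (l 15196192) (a (l 15255448) (l 15251104)))))) (b (a (c (c (a (l 15423656) (a (l 15453488) (l 15466872))) (l 15404448)) (l 15218056)) (c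 (a (c (l 15472120) (a (l 15419184) (l 15464944))) (l 15480936)) (a (c (a (l 15441328) (l 15455416)) (l 15435224)) (c (a (l 15293960) (l 15469864)) (a (l 15451240) (c (l 15462344) (l 15455648))))))) (a (b (c (a (l 15251776) (c (l 15263120) (l 15262600))) (l 15233168)) (c (a (l 15243976) (c (a (l 15284576) (l 15286768)) (l 15261600))) (b (l 15225224) (l 15253528)))) (c (b (a (c (l 15290248) (a (l 15279632) (l 15279264))) (l 15289848)) (a (c (l 15274960) (a (b (l 15257224) (l 15278888)) (l 15260200))) (b (l 15251552) (l 15258648)))) (b (a (c (l 15261768) (l 15248040)) (c (a (l 15270032) (l 15273920)) (a (l 15257688) (l 15198144)))) (a (b (c (l 15236152) (l 15222160)) (l 15250960)) (c (a (b (l 15235528) (l 15247672)) (l 15232000)) (a (l 15228280) (c (l 15222760) (b (l 15214456) (l 15217080))))))))))), by decide +kernel⟩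

def k27_pm_202 : ∃ t, chk3 f_pm_202 t 14 21 1 = true :=
  ⟨(a (a (b (c (c (l 15808240) (l 15898592)) (b (l 15807256) (l 15935160))) (l 16078760)) (a (b (b (c (c (b (l 15660424) (l 15718168)) (l 15674576)) (c (l 15529776) (b (l 15601768) (l 15662544)))) (a (l 15834064) (c (l 15732776) (l 15741496)))) (a (l 16105736) (b (c (l 15990872) (l 15963984)) (l 16153208)))) (b (c (c (b (l 15655440) (l 15801264)) (l 15710464)) (c (l 15650136) (l 15484688))) (c (c (b (l 15953856) (l 16115192)) (l 15918824)) (c (l 15801336) (a (l 15865328) (l 15963768))))))) (c (b (c (a (b (l 15612912) (l 15749128)) (b (l 15509216) (l 15627480))) (a (l 15619848) (l 15547056))) (c (a (l 15706592) (l 15579144)) (a (l 15944384) (l 15793280)))) (b (c (a (l 15516680) (l 15504720)) (a (b (l 15551296) (l 15695088)) (l 15399168))) (c (a (l 15867408) (l 15776504)) (a (l 15769272) (l 15717544)))))), by decide +kernel⟩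

def k28_pm_202 : ∃ t, chk3 f_pm_202 t 30 21 1 = true :=
  ⟨(c (c (a (b (a (l 15346192) (c (l 15445176) (l 15433344))) (a (l 15643688) (b (l 15585920) (l 15676320)))) (b (c (a (a (l 15451896) (l 15449744)) (l 15378112)) (a (l 15429744) (a (l 15445912) (l 15449304)))) (c (a (a (l 15622408) (l 15626224)) (l 15592344)) (a (l 15593344) (a (l 15586416) (l 15572360)))))) (a (b (a (l 15449216) (l 15415744)) (l 15448344)) (b (c (a (l 15415568) (l 15420968)) (l 15399496)) (c (a (l 15580712) (l 15553792)) (l 15548552))))) (b (c (a (b (l 15357576) (l 15461600)) (l 15381472)) (a (a (l 15402640) (l 15367928)) (l 15336192))) (a (c (b (l 15568512) (l 15669976)) (b (l 15547720) (l 15651104))) (c (l 15532640) (l 15511160))))), by decide +kernel⟩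

def k29_pm_202 : ∃ t, chk3 f_pm_202 t 31 21 1 = true :=
  ⟨(c (a (c (b (c (b (l 15380200) (l 15429920)) (a (l 15420312) (l 15376880))) (c (l 15466872) (l 15487992))) (a (b (c (a (l 15422880) (l 15412256)) (l 15393360)) (c (l 15513424) (l 15494032))) (b (c (l 15372296) (l 15365936)) (l 15438808)))) (c (b (c (c (a (b (a (l 15340192) (l 15345056)) (l 15376544)) (b (l 15325096) (l 15308984))) (a (b (l 15350656) (l 15366424)) (b (l 15313832) (l 15326040)))) (a (l 15345224) (c (b (l 15313456) (l 15325808)) (b (l 15312640) (l 15319664))))) (c (a (c (l 15366832) (l 15399048)) (b (c (l 15343544) (l 15342056)) (l 15361440))) (c (a (l 15393016) (l 15346904)) (l 15361720)))) (b (c (l 15317152) (l 15305944)) (l 15348168)))) (a (c (b (a (l 15362216) (c (a (l 15365448) (l 15354344)) (l 15335384))) (a (l 15464304) (c (l 15427744) (l 15407568)))) (b (b (l 15300504) (l 15353328)) (l 15414864))) (c (c (b (l 15297984) (l 15334552)) (a (b (a (l 15321128) (l 15296928)) (l 15267000)) (l 15274312))) (a (b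 (c (l 15291008) (l 15277520)) (c (l 15338088) (l 15325032))) (c (b (l 15167288) (l 15277584)) (a (b (l 15249728) (l 15281184)) (b (l 15205752) (l 15248592)))))))), by decide +kernel⟩

def k30_pm_202 : ∃ t, chk3 f_pm_202 t 6 11 1 = true :=
  ⟨(b (a (c (a (b (l 15734600) (c (l 15648432) (l 15629000))) (b (a (l 15918368) (l 15995640)) (a (l 15763536) (l 15824120)))) (a (b (l 15699792) (a (l 15559800) (l 15650608))) (b (a (l 15889872) (l 16013184)) (l 15736488)))) (a (c (b (a (b (l 16218400) (l 16110424)) (l 16182696)) (l 15957016)) (b (a (l 15991632) (l 16231160)) (l 15928864))) (b (a (l 16293000) (l 16369104)) (c (l 16209016) (l 16127592))))) (a (c (a (l 15551136) (l 15646608)) (a (b (l 15565280) (l 15710352)) (b (l 15664816) (l 15808200)))) (b (a (c (l 15854840) (l 15738784)) (c (l 16047288) (l 15878000))) (a (c (l 16006448) (l 15979600)) (l 16148296))))), by decide +kernel⟩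

def k31_pm_202 : ∃ t, chk3 f_pm_202 t 7 22 1 = true :=
  ⟨(a (a (b (a (l 16338912) (a (l 16325536) (b (c (l 16232952) (l 16175096)) (l 16431672)))) (a (l 16237600) (l 16307352))) (b (c (a (b (c (l 16170808) (l 16161128)) (c (l 16227920) (l 16304816))) (c (l 15812560) (l 16031208))) (a (b (c (l 16151296) (l 16141312)) (c (l 16234808) (l 16164712))) (c (l 15956080) (l 15838848)))) (b (a (c (l 16229608) (a (l 16386104) (l 16370496))) (c (l 16194496) (l 16155368))) (a (c (l 16392352) (l 16325528)) (c (l 16276368) (l 16241432)))))) (a (c (a (b (c (a (l 15875384) (l 15789240)) (l 15816552)) (c (a (l 16048688) (l 15945056)) (l 15984384))) (c (b (c (a (l 15654968) (l 15702384)) (a (l 15727072) (l 15687704))) (c (a (l 15897496) (l 15822664)) (a (l 15866112) (l 15809184)))) (b (c (l 15696312) (l 15674712)) (l 15779728)))) (b (a (c (l 15800408) (l 15700144)) (c (l 15660616) (l 15641592))) (a (c (l 15971560) (l 15916608)) (c (l 15795424) (l 15779064))))) (a (b (c (c (c (l 15570504) (l 15571456))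 (a (c (l 15606744) (l 15588248)) (l 15514448))) (c (a (l 15559888) (c (l 15504488) (l 15485048))) (l 15502848))) (c (c (l 15520080) (a (l 15492416) (l 15602024))) (c (a (l 15667448) (l 15480368)) (l 15603232)))) (c (c (a (b (l 15452560) (l 15520848)) (c (b (b (l 15382104) (l 15404256)) (l 15441584)) (l 15401896))) (b (l 15396536) (l 15457216))) (c (a (c (l 15457488) (a (l 15430912) (l 15423704))) (l 15255488)) (a (b (l 15392712) (l 15465224)) (c (b (l 15318240) (l 15371832)) (a (l 15354920) (b (l 15284912) (l 15334368)))))))))), by decide +kernel⟩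

def k32_pm_202 : ∃ t, chk3 f_pm_202 t 7 23 1 = true :=
  ⟨(c (b (a (a (l 16263344) (b (b (a (l 16396584) (l 16248832)) (l 16264576)) (l 16201464))) (c (a (a (a (l 15997336) (l 15904728)) (a (c (a (l 15917080) (l 15832256)) (l 15878816)) (c (l 15783400) (l 15644112)))) (b (b (a (l 15715280) (l 15509296)) (l 15374808)) (a (l 15619016) (l 15465824)))) (a (a (l 15970536) (b (l 15829488) (l 15787928))) (a (a (c (l 15704264) (l 15686728)) (l 15526072)) (l 15321264))))) (a (a (l 16502720) (l 16078024)) (a (a (l 15846536) (c (a (l 15746352) (l 15677984)) (l 15683864))) (a (c (l 15571304) (a (l 15584968) (l 15518968))) (l 15451960))))) (a (a (a (l 16219992) (l 16322696)) (b (b (b (a (a (l 16550968) (l 16453432)) (l 16216240)) (l 16214680)) (l 16127904)) (a (l 16328672) (l 16108072)))) (a (b (b (a (b (l 15931256) (l 16017232)) (l 15796584)) (l 15852392)) (a (l 15822448) (l 15645024))) (a (b (c (a (l 15659824) (b (l 15463416) (l 15532168))) (l 15531056)) (a (l 15537280) (l 15463640))) (c (a (b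 (c (l 15488816) (b (l 15496800) (l 15446656))) (l 15445872)) (l 15400752)) (a (b (b (l 15481048) (l 15430120)) (l 15424240)) (c (b (b (l 15395216) (l 15378584)) (l 15378584)) (a (l 15324008) (c (l 15359256) (l 15352064)))))))))), by decide +kernel⟩

def k33_pm_202 : ∃ t, chk3 f_pm_202 t 6 3 1 = true :=
  ⟨(b (b (a (b (c (a (l 15917416) (l 16080864)) (a (l 15952360) (l 16078128))) (c (a (l 16333920) (l 16397912)) (a (l 16340064) (l 16408512)))) (b (a (c (l 16161856) (l 16123928)) (a (l 16336424) (l 16436152))) (a (c (a (l 16470616) (l 16558232)) (a (l 16464352) (l 16556496))) (b (l 16369200) (a (l 16578808) (l 16465064)))))) (b (a (c (a (b (l 16631944) (l 16755344)) (b (l 16683928) (l 16777216))) (a (b (l 16626848) (l 16754576)) (l 16597080))) (a (c (l 16628792) (l 16668480)) (l 16495896))) (a (c (l 16777216) (l 16777216)) (a (l 16646672) (l 16516872))))) (a (c (l 16777216) (l 16777216)) (a (c (l 16710760) (l 16708424)) (b (l 16516872) (l 16516872))))), by decide +kernel⟩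

def k34_pm_202 : ∃ t, chk3 f_pm_202 t 7 3 1 = true :=
  ⟨(a (b (b (a (a (b (l 16391208) (l 16303440)) (b (a (l 16336920) (l 16224104)) (l 16241728))) (b (a (b (l 16234920) (l 16121696)) (b (a (l 15988944) (l 15792232)) (l 15887048))) (c (a (l 16114816) (l 15922720)) (l 15993040)))) (a (c (l 16307688) (l 16291144)) (c (l 15998744) (l 15993040)))) (a (c (l 16307688) (l 16291144)) (b (l 16006360) (l 16006360)))) (b (a (c (b (a (b (a (l 15778792) (l 15701536)) (l 15727072)) (c (a (l 15689752) (l 15650936)) (l 15636680))) (c (a (b (l 15762280) (l 15762280)) (b (a (l 15689752) (l 15650936)) (l 15665608))) (a (l 15725464) (l 15594736)))) (b (b (a (l 15706808) (l 15596320)) (l 15647568)) (b (l 15647568) (l 15647568)))) (c (b (c (l 15516256) (a (a (l 15576816) (l 15518816)) (l 15440800))) (c (l 15516256) (a (a (l 15576816) (l 15518816)) (l 15440800)))) (c (a (b (l 15517432) (l 15475488)) (a (b (l 15445872) (l 15445872)) (l 15394848))) (a (l 15494456) (c (a (l 15428928) (l 15336640)) (b (l 15344120)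 (l 15386064))))))) (a (c (a (l 15727072) (b (c (l 15665608) (l 15636680)) (l 15649840))) (b (l 15647568) (l 15647568))) (c (a (c (l 15564784) (b (l 15539776) (l 15539776))) (l 15451960)) (a (b (l 15508592) (l 15508592)) (c (b (l 15420544) (l 15420544)) (a (l 15424240) (l 15371256)))))))), by decide +kernel⟩

theorem s35_pm_202 : ∃ t, chk3 f_pm_202 t 3 3 1 = true := ex3_a k33_pm_202 k34_pm_202

theorem s36_pm_202 : ∃ t, chk3 f_pm_202 t 7 11 1 = true := ex3_b k31_pm_202 k32_pm_202

theorem s37_pm_202 : ∃ t, chk3 f_pm_202 t 3 11 1 = true := ex3_a k30_pm_202 s36_pm_202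

theorem s38_pm_202 : ∃ t, chk3 f_pm_202 t 15 21 1 = true := ex3_a k28_pm_202 k29_pm_202

theorem s39_pm_202 : ∃ t, chk3 f_pm_202 t 7 21 1 = true := ex3_a k27_pm_202 s38_pm_202

theorem s40_pm_202 : ∃ t, chk3 f_pm_202 t 31 20 2 = true := ex3_b k24_pm_202 k25_pm_202

theorem s41_pm_202 : ∃ t, chk3 f_pm_202 t 15 20 2 = true := ex3_a k23_pm_202 s40_pm_202

theorem s42_pm_202 : ∃ t, chk3 f_pm_202 t 15 20 1 = true := ex3_c s41_pm_202 k26_pm_202

theorem s43_pm_202 : ∃ t, chk3 f_pm_202 t 14 20 1 = true := ex3_a k21_pm_202 k22_pm_202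

theorem s44_pm_202 : ∃ t, chk3 f_pm_202 t 7 20 1 = true := ex3_a s43_pm_202 s42_pm_202

theorem s45_pm_202 : ∃ t, chk3 f_pm_202 t 7 10 1 = true := ex3_b s44_pm_202 s39_pm_202

theorem s46_pm_202 : ∃ t, chk3 f_pm_202 t 3 10 1 = true := ex3_a k20_pm_202 s45_pm_202

theorem s47_pm_202 : ∃ t, chk3 f_pm_202 t 3 5 1 = true := ex3_b s46_pm_202 s37_pm_202

theorem s48_pm_202 : ∃ t, chk3 f_pm_202 t 15 19 3 = true := ex3_a k18_pm_202 k19_pm_202

theorem s49_pm_202 : ∃ t, chk3 f_pm_202 t 31 38 2 = true := ex3_b k15_pm_202 k16_pm_202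

theorem s50_pm_202 : ∃ t, chk3 f_pm_202 t 31 19 2 = true := ex3_b s49_pm_202 k17_pm_202

theorem s51_pm_202 : ∃ t, chk3 f_pm_202 t 15 19 2 = true := ex3_a k14_pm_202 s50_pm_202

theorem s52_pm_202 : ∃ t, chk3 f_pm_202 t 15 19 1 = true := ex3_c s51_pm_202 s48_pm_202

theorem s53_pm_202 : ∃ t, chk3 f_pm_202 t 7 19 1 = true := ex3_a k13_pm_202 s52_pm_202

theorem s54_pm_202 : ∃ t, chk3 f_pm_202 t 31 37 1 = true := ex3_c k11_pm_202 k12_pm_202

theorem s55_pm_202 : ∃ t, chk3 f_pm_202 t 15 37 1 = true := ex3_a k10_pm_202 s54_pm_202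

theorem s56_pm_202 : ∃ t, chk3 f_pm_202 t 7 37 1 = true := ex3_a k9_pm_202 s55_pm_202

theorem s57_pm_202 : ∃ t, chk3 f_pm_202 t 7 36 1 = true := ex3_b k7_pm_202 k8_pm_202

theorem s58_pm_202 : ∃ t, chk3 f_pm_202 t 7 18 1 = true := ex3_b s57_pm_202 s56_pm_202

theorem s59_pm_202 : ∃ t, chk3 f_pm_202 t 7 9 1 = true := ex3_b s58_pm_202 s53_pm_202

theorem s60_pm_202 : ∃ t, chk3 f_pm_202 t 3 9 1 = true := ex3_a k6_pm_202 s59_pm_202

theorem s61_pm_202 : ∃ t, chk3 f_pm_202 t 3 4 1 = true := ex3_b k5_pm_202 s60_pm_202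

theorem s62_pm_202 : ∃ t, chk3 f_pm_202 t 3 2 1 = true := ex3_b s61_pm_202 s47_pm_202

theorem s63_pm_202 : ∃ t, chk3 f_pm_202 t 3 1 1 = true := ex3_b s62_pm_202 s35_pm_202

theorem s64_pm_202 : ∃ t, chk3 f_pm_202 t 2 11 1 = true := ex3_b k2_pm_202 k3_pm_202

theorem s65_pm_202 : ∃ t, chk3 f_pm_202 t 2 5 1 = true := ex3_b k1_pm_202 s64_pm_202

theorem s66_pm_202 : ∃ t, chk3 f_pm_202 t 2 2 1 = true := ex3_b k0_pm_202 s65_pm_202

theorem s67_pm_202 : ∃ t, chk3 f_pm_202 t 2 1 1 = true := ex3_b s66_pm_202 k4_pm_202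

theorem s68_pm_202 : ∃ t, chk3 f_pm_202 t 1 1 1 = true := ex3_a s67_pm_202 s63_pm_202

theorem c_pm_202 : CertNX 0 536870912 67108864 469762048 1046898278 26843546 3 true true false .pp 2 0 2
    ndN0q2 ndN1q0 pcN2 Cut.none Ext.none :=
  certNX1 (fam := true) (s1 := true) (s2 := false) (a := 2) (b := 0) (c := 2) (cn := .pp) (n1 := ndN0q2) (n2 := ndN1q0) (pc := pcN2) (cut := Cut.none) (xt := Ext.none) (P1 := 0) (W1 := 536870912) (P2 := 67108864) (W2 := 469762048) (P3 := 1046898278) (W3 := 26843546) (N0 := 3)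
    rfl (fun _ => rfl) s68_pm_202

noncomputable def f_pm_203 : ℕ → ℕ → ℕ → ℕ → Bool := onCell 0 536870912 1610612736 536870912 1046898278 26843546
    (rowNX 3 1 true true false .up 2 0 3 (qsf 0 536870912 67108864 469762048 3) ndN0q2 ndN1q0 pcN3 Cut.none Ext.none)

def k0_pm_203 : ∃ t, chk3 f_pm_203 t 1 1 1 = true :=
  ⟨(b (b (a (a (c (b (c (l 16777216) (l 16777216)) (c (l 16777216) (l 16777216))) (b (c (l 16777216) (l 16777216)) (c (l 16777216) (l 16777216)))) (c (b (a (l 16777216) (l 16777216)) (a (l 16777216) (l 16777216))) (b (a (l 16777216) (l 16777216)) (a (l 16777216) (l 16777216))))) (a (a (c (l 16777216) (l 16777216)) (a (c (l 16710760) (l 16708424)) (l 16495896))) (a (a (l 16299392) (c (l 16019712) (l 15993040))) (b (a (c (l 15472560) (l 15647568)) (b (c (l 15417128) (a (l 15508592) (l 15406232))) (l 2))) (l 2))))) (a (b (b (a (c (c (l 16777216) (l 16777216)) (c (l 16777216) (l 16777216))) (c (l 16777216) (l 16777216))) (a (a (l 2) (l 2)) (l 2))) (l 2)) (a (l 2) (l 2)))) (l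 2)), by decide +kernel⟩

theorem c_pm_203 : CertNX 0 536870912 67108864 469762048 1046898278 26843546 3 true true false .up 2 0 3
    ndN0q2 ndN1q0 pcN3 Cut.none Ext.none :=
  certNX1 (fam := true) (s1 := true) (s2 := false) (a := 2) (b := 0) (c := 3) (cn := .up) (n1 := ndN0q2) (n2 := ndN1q0) (pc := pcN3) (cut := Cut.none) (xt := Ext.none) (P1 := 0) (W1 := 536870912) (P2 := 67108864) (W2 := 469762048) (P3 := 1046898278) (W3 := 26843546) (N0 := 3)
    rfl (fun _ => rfl) k0_pm_203

noncomputable def f_pm_213 : ℕ → ℕ → ℕ → ℕ → Bool := onCell 0 536870912 1610612736 536870912 1046898278 26843546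
    (rowNX 3 1 true true false .pnn 2 1 3 (qsf 0 536870912 536870912 536870912 3) ndN0q2 ndN1q1 pcN3 Cut.none Ext.none)

def k0_pm_213 : ∃ t, chk3 f_pm_213 t 2 1 1 = true :=
  ⟨(b (a (b (l 1) (a (b (c (b (l 16777216) (l 16777216)) (b (l 16777216) (l 16777216))) (b (c (l 161833025543) (l 155390574599)) (l 4))) (b (c (l 16777216) (l 16777216)) (c (c (l 16777216) (l 16777216)) (b (l 16777216) (l 16777216)))))) (a (b (l 1) (b (c (l 16777216) (l 16777216)) (c (l 16777216) (l 16777216)))) (b (a (l 1) (b (l 1) (l 16777216))) (b (c (l 16777216) (l 16777216)) (c (l 16777216) (l 16777216)))))) (b (a (l 4) (a (b (c (b (l 16777216) (l 152169349143)) (b (l 16777216) (l 16777216))) (l 4)) (b (c (b (l 16777216) (l 16777208)) (b (l 16777216) (l 16777208))) (c (b (l 16777208) (l 176865411159)) (b (l 16777208) (l 163980509271)))))) (l 4))), by decide +kernel⟩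

def k1_pm_213 : ∃ t, chk3 f_pm_213 t 6 1 1 = true :=
  ⟨(b (b (a (c (l 16777216) (l 16777216)) (a (l 79490256167) (l 16516872))) (c (a (b (l 16777216) (l 16777216)) (b (l 16617984) (l 16617984))) (a (b (l 16777216) (l 16777216)) (b (l 16612376) (l 16612376))))) (b (b (a (c (l 16777208) (l 16777208)) (a (b (l 16709592) (l 16709608)) (l 16453968))) (a (b (c (l 16777192) (l 16777192)) (c (l 16777208) (l 16777208))) (b (c (l 16618032) (l 16612424)) (a (l 16667376) (l 16514584))))) (b (b (a (c (b (l 16772880) (l 175254647015)) (b (l 16772728) (l 235921057351))) (c (a (l 16711592) (l 16520536)) (a (l 16706528) (l 16505400)))) (a (l 4) (b (c (l 16608952) (l 16595744)) (a (l 4) (b (l 16533016) (l 4)))))) (l 4)))), by decide +kernel⟩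

def k2_pm_213 : ∃ t, chk3 f_pm_213 t 14 1 1 = true :=
  ⟨(a (b (b (l 16299392) (l 16278424)) (b (b (l 16299408) (b (l 16298928) (l 16290912))) (b (b (c (l 16300000) (l 16273088)) (b (l 16301400) (c (l 16342040) (l 16298184)))) (b (b (c (l 153241820023) (l 16338488)) (l 4)) (l 4))))) (b (b (b (l 16006360) (l 16006360)) (b (l 16006360) (l 16006360))) (b (b (l 16006368) (b (l 16000784) (l 15983704))) (b (b (b (l 15975768) (l 15891976)) (b (a (l 16091064) (l 15871808)) (c (l 16042984) (l 15960952)))) (b (b (c (l 16104024) (l 15998896)) (a (l 4) (b (l 16101408) (l 4)))) (l 4)))))), by decide +kernel⟩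

def k3_pm_213 : ∃ t, chk3 f_pm_213 t 30 1 1 = true :=
  ⟨(b (b (c (a (l 15727072) (l 15586928)) (l 15647568)) (c (a (l 15727072) (l 15544984)) (l 15647568))) (b (a (b (l 15708784) (l 15680216)) (c (b (l 15648608) (l 15360384)) (l 15401672))) (b (b (c (a (b (l 15685480) (l 15676352)) (b (l 15394704) (c (l 15581944) (l 15527080)))) (b (l 15568768) (l 15531944))) (c (a (l 15689072) (b (c (l 15583536) (l 15512752)) (c (l 15621128) (l 15530840)))) (b (l 15503152) (l 15497304)))) (b (b (c (a (l 15780304) (c (l 15705344) (l 15591088))) (l 15525584)) (c (a (b (l 15877608) (l 15992448)) (b (c (l 15819880) (l 15685000)) (c (l 15946152) (l 15801488)))) (b (l 15591136) (l 15696992)))) (b (b (c (a (l 4) (c (l 16114856) (l 15966720))) (l 15856400)) (l 4)) (l 4)))))), by decide +kernel⟩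

def k4_pm_213 : ∃ t, chk3 f_pm_213 t 31 1 1 = true :=
  ⟨(b (b (c (a (c (l 15564784) (l 15539776)) (l 15451960)) (a (l 15508592) (b (c (l 15420544) (l 15392720)) (l 15322344)))) (c (a (c (l 15564784) (l 15539776)) (l 15451960)) (a (l 15508592) (c (l 15420544) (l 15392720))))) (b (b (c (a (c (l 15560608) (l 15535272)) (l 15441784)) (a (l 15503576) (c (l 15409224) (l 15380624)))) (c (a (c (l 15512784) (l 15250512)) (l 15367152)) (a (l 15440016) (c (a (l 15358960) (l 15287096)) (a (l 15328712) (b (l 15292608) (l 15215448))))))) (b (b (c (a (c (l 15434272) (a (l 15437416) (l 15337584))) (l 15212496)) (a (l 15114720) (c (l 15114104) (a (l 15109928) (l 14978480))))) (c (a (c (l 15420632) (a (b (l 15388320) (l 15400416)) (l 15273392))) (l 15149472)) (a (b (l 15205232) (l 15174168)) (c (a (l 15037680) (l 14889584)) (a (l 14922136) (b (l 14803608) (l 14704944))))))) (b (b (c (a (c (l 15536016) (a (l 15456576) (l 15335008))) (l 15233880)) (a (l 15173512) (c (l 14932712) (a (l 14832560) (l 14608272)))))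 (c (a (c (l 15737928) (a (l 15609096) (l 15492208))) (l 15455592)) (b (a (l 15215552) (c (l 14968736) (l 14667752))) (a (l 15305728) (c (l 15058248) (l 14615944)))))) (b (c (a (c (b (l 16021848) (l 16286968)) (a (b (l 15851400) (l 4)) (l 15870320))) (b (l 15819968) (l 16245224))) (a (b (l 15457776) (c (l 131228932647) (l 15558648))) (c (a (b (l 15317152) (l 15573200)) (l 15247728)) (a (l 15050568) (b (l 14625056) (l 14765904)))))) (l 4)))))), by decide +kernel⟩

theorem s5_pm_213 : ∃ t, chk3 f_pm_213 t 15 1 1 = true := ex3_a k3_pm_213 k4_pm_213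

theorem s6_pm_213 : ∃ t, chk3 f_pm_213 t 7 1 1 = true := ex3_a k2_pm_213 s5_pm_213

theorem s7_pm_213 : ∃ t, chk3 f_pm_213 t 3 1 1 = true := ex3_a k1_pm_213 s6_pm_213

theorem s8_pm_213 : ∃ t, chk3 f_pm_213 t 1 1 1 = true := ex3_a k0_pm_213 s7_pm_213

theorem c_pm_213 : CertNX 0 536870912 536870912 536870912 1046898278 26843546 3 true true false .pnn 2 1 3
    ndN0q2 ndN1q1 pcN3 Cut.none Ext.none :=
  certNX1 (fam := true) (s1 := true) (s2 := false) (a := 2) (b := 1) (c := 3) (cn := .pnn) (n1 := ndN0q2) (n2 := ndN1q1) (pc := pcN3) (cut := Cut.none) (xt := Ext.none) (P1 := 0) (W1 := 536870912) (P2 := 536870912) (W2 := 536870912) (P3 := 1046898278) (W3 := 26843546) (N0 := 3)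
    rfl (fun _ => rfl) s8_pm_213

noncomputable def f_mm_001 : ℕ → ℕ → ℕ → ℕ → Bool := onCell 0 536870912 67108864 469762048 1046898278 26843546
    (rowNX 3 0 true false false .up 0 0 1 (qsf 0 536870912 67108864 469762048 1) ndN0q0 ndN1q0 pcN1 Cut.none Ext.none)

def k0_mm_001 : ∃ t, chk3 f_mm_001 t 1 1 1 = true :=
  ⟨(l 4), by decide +kernel⟩

theorem c_mm_001 : CertNX 0 536870912 67108864 469762048 1046898278 26843546 3 true false false .up 0 0 1
    ndN0q0 ndN1q0 pcN1 Cut.none Ext.none :=
  certNX0 (fam := true) (s1 := false) (s2 := false) (a := 0) (b := 0) (c := 1) (cn := .up) (n1 := ndN0q0) (n2 := ndN1q0) (pc := pcN1) (cut := Cut.none) (xt := Ext.none) (P1 := 0) (W1 := 536870912) (P2 := 67108864) (W2 := 469762048) (P3 := 1046898278) (W3 := 26843546) (N0 := 3)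
    rfl k0_mm_001

noncomputable def f_mm_011 : ℕ → ℕ → ℕ → ℕ → Bool := onCell 0 536870912 536870912 536870912 1046898278 26843546
    (rowNX 3 0 true false false .pnn 0 1 1 (qsf 0 536870912 536870912 536870912 1) ndN0q0 ndN1q1 pcN1 Cut.none Ext.none)

def k0_mm_011 : ∃ t, chk3 f_mm_011 t 1 1 1 = true :=
  ⟨(l 4), by decide +kernel⟩

theorem c_mm_011 : CertNX 0 536870912 536870912 536870912 1046898278 26843546 3 true false false .pnn 0 1 1
    ndN0q0 ndN1q1 pcN1 Cut.none Ext.none :=
  certNX0 (fam := true) (s1 := false) (s2 := false) (a := 0) (b := 1) (c := 1) (cn := .pnn) (n1 := ndN0q0) (n2 := ndN1q1) (pc := pcN1) (cut := Cut.none) (xt := Ext.none) (P1 := 0) (W1 := 536870912) (P2 := 536870912) (W2 := 536870912) (P3 := 1046898278) (W3 := 26843546) (N0 := 3)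
    rfl k0_mm_011

noncomputable def f_mm_012 : ℕ → ℕ → ℕ → ℕ → Bool := onCell 0 536870912 536870912 536870912 1046898278 26843546
    (rowNX 3 0 true false false .pnp 0 1 2 (qsf 0 536870912 536870912 536870912 2) ndN0q0 ndN1q1 pcN2 Cut.none Ext.none)

def k0_mm_012 : ∃ t, chk3 f_mm_012 t 1 1 1 = true :=
  ⟨(l 4), by decide +kernel⟩

theorem c_mm_012 : CertNX 0 536870912 536870912 536870912 1046898278 26843546 3 true false false .pnp 0 1 2
    ndN0q0 ndN1q1 pcN2 Cut.none Ext.none :=
  certNX0 (fam := true) (s1 := false) (s2 := false) (a := 0) (b := 1) (c := 2) (cn := .pnp) (n1 := ndN0q0) (n2 := ndN1q1) (pc := pcN2) (cut := Cut.none) (xt := Ext.none) (P1 := 0) (W1 := 536870912) (P2 := 536870912) (W2 := 536870912) (P3 := 1046898278) (W3 := 26843546) (N0 := 3)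
    rfl k0_mm_012

noncomputable def f_mm_022_a : ℕ → ℕ → ℕ → ℕ → Bool := onCell 0 536870912 0 420477299 1046898278 26843546
    (rowNX 3 0 true false false .pp 0 2 2 (qsf 0 536870912 0 420477299 2) ndN0q0 ndN1q2a pcN2 Cut.none Ext.none)

def k0_mm_022_a : ∃ t, chk3 f_mm_022_a t 1 1 1 = true :=
  ⟨(l 5), by decide +kernel⟩

theorem c_mm_022_a : CertNX 0 536870912 0 420477299 1046898278 26843546 3 true false false .pp 0 2 2
    ndN0q0 ndN1q2a pcN2 Cut.none Ext.none :=
  certNX0 (fam := true) (s1 := false) (s2 := false) (a := 0) (b := 2) (c := 2) (cn := .pp) (n1 := ndN0q0) (n2 := ndN1q2a) (pc := pcN2) (cut := Cut.none) (xt := Ext.none) (P1 := 0) (W1 := 536870912) (P2 := 0) (W2 := 420477299) (P3 := 1046898278) (W3 := 26843546) (N0 := 3)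
    rfl k0_mm_022_a

noncomputable def f_mm_022_b : ℕ → ℕ → ℕ → ℕ → Bool := onCell 0 536870912 1239849684 370763052 1046898278 26843546
    (rowNX 3 0 true false false .pp 0 2 2 (qsf 0 536870912 1239849684 370763052 2) ndN0q0 ndN1q2b pcN2 Cut.none Ext.none)

def k0_mm_022_b : ∃ t, chk3 f_mm_022_b t 1 1 1 = true :=
  ⟨(l 5), by decide +kernel⟩

theorem c_mm_022_b : CertNX 0 536870912 1239849684 370763052 1046898278 26843546 3 true false false .pp 0 2 2
    ndN0q0 ndN1q2b pcN2 Cut.none Ext.none :=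
  certNX0 (fam := true) (s1 := false) (s2 := false) (a := 0) (b := 2) (c := 2) (cn := .pp) (n1 := ndN0q0) (n2 := ndN1q2b) (pc := pcN2) (cut := Cut.none) (xt := Ext.none) (P1 := 0) (W1 := 536870912) (P2 := 1239849684) (W2 := 370763052) (P3 := 1046898278) (W3 := 26843546) (N0 := 3)
    rfl k0_mm_022_b

noncomputable def f_mm_023_a : ℕ → ℕ → ℕ → ℕ → Bool := onCell 0 536870912 0 420477299 1046898278 26843546
    (rowNX 3 0 true false false .up 0 2 3 (qsf 0 536870912 0 420477299 3) ndN0q0 ndN1q2a pcN3 Cut.none Ext.none)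

def k0_mm_023_a : ∃ t, chk3 f_mm_023_a t 1 1 1 = true :=
  ⟨(l 5), by decide +kernel⟩

theorem c_mm_023_a : CertNX 0 536870912 0 420477299 1046898278 26843546 3 true false false .up 0 2 3
    ndN0q0 ndN1q2a pcN3 Cut.none Ext.none :=
  certNX0 (fam := true) (s1 := false) (s2 := false) (a := 0) (b := 2) (c := 3) (cn := .up) (n1 := ndN0q0) (n2 := ndN1q2a) (pc := pcN3) (cut := Cut.none) (xt := Ext.none) (P1 := 0) (W1 := 536870912) (P2 := 0) (W2 := 420477299) (P3 := 1046898278) (W3 := 26843546) (N0 := 3)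
    rfl k0_mm_023_a

noncomputable def f_mm_023_b : ℕ → ℕ → ℕ → ℕ → Bool := onCell 0 536870912 1239849684 370763052 1046898278 26843546
    (rowNX 3 0 true false false .up 0 2 3 (qsf 0 536870912 1239849684 370763052 3) ndN0q0 ndN1q2b pcN3 Cut.none Ext.none)

def k0_mm_023_b : ∃ t, chk3 f_mm_023_b t 1 1 1 = true :=
  ⟨(l 5), by decide +kernel⟩

theorem c_mm_023_b : CertNX 0 536870912 1239849684 370763052 1046898278 26843546 3 true false false .up 0 2 3
    ndN0q0 ndN1q2b pcN3 Cut.none Ext.none :=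
  certNX0 (fam := true) (s1 := false) (s2 := false) (a := 0) (b := 2) (c := 3) (cn := .up) (n1 := ndN0q0) (n2 := ndN1q2b) (pc := pcN3) (cut := Cut.none) (xt := Ext.none) (P1 := 0) (W1 := 536870912) (P2 := 1239849684) (W2 := 370763052) (P3 := 1046898278) (W3 := 26843546) (N0 := 3)
    rfl k0_mm_023_b

noncomputable def f_mm_033 : ℕ → ℕ → ℕ → ℕ → Bool := onCell 0 536870912 1610612736 469762048 1046898278 26843546
    (rowNX 3 0 true false false .pnn 0 3 3 (qsf 0 536870912 1610612736 469762048 3) ndN0q0 ndN1q3 pcN3 Cut.none Ext.none)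

def k0_mm_033 : ∃ t, chk3 f_mm_033 t 1 1 1 = true :=
  ⟨(l 5), by decide +kernel⟩

theorem c_mm_033 : CertNX 0 536870912 1610612736 469762048 1046898278 26843546 3 true false false .pnn 0 3 3
    ndN0q0 ndN1q3 pcN3 Cut.none Ext.none :=
  certNX0 (fam := true) (s1 := false) (s2 := false) (a := 0) (b := 3) (c := 3) (cn := .pnn) (n1 := ndN0q0) (n2 := ndN1q3) (pc := pcN3) (cut := Cut.none) (xt := Ext.none) (P1 := 0) (W1 := 536870912) (P2 := 1610612736) (W2 := 469762048) (P3 := 1046898278) (W3 := 26843546) (N0 := 3)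
    rfl k0_mm_033

noncomputable def f_mm_101 : ℕ → ℕ → ℕ → ℕ → Bool := onCell 536870912 536870912 67108864 469762048 1046898278 26843546
    (rowNX 3 2 true false false .npn 1 0 1 (qsf 536870912 536870912 67108864 469762048 1) ndN0q1 ndN1q0 pcN1 Cut.none Ext.none)

def k0_mm_101 : ∃ t, chk3 f_mm_101 t 1 1 1 = true :=
  ⟨(l 4), by decide +kernel⟩

theorem c_mm_101 : CertNX 536870912 536870912 67108864 469762048 1046898278 26843546 3 true false false .npn 1 0 1
    ndN0q1 ndN1q0 pcN1 Cut.none Ext.none :=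
  certNX2 (fam := true) (s1 := false) (s2 := false) (a := 1) (b := 0) (c := 1) (cn := .npn) (n1 := ndN0q1) (n2 := ndN1q0) (pc := pcN1) (cut := Cut.none) (xt := Ext.none) (P1 := 536870912) (W1 := 536870912) (P2 := 67108864) (W2 := 469762048) (P3 := 1046898278) (W3 := 26843546) (N0 := 3)
    rfl (fun _ => rfl) k0_mm_101

noncomputable def f_mm_102 : ℕ → ℕ → ℕ → ℕ → Bool := onCell 536870912 536870912 67108864 469762048 1046898278 26843546
    (rowNX 3 0 true false false .npp 1 0 2 (qsf 536870912 536870912 67108864 469762048 2) ndN0q1 ndN1q0 pcN2 Cut.none Ext.none)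

def k0_mm_102 : ∃ t, chk3 f_mm_102 t 1 1 1 = true :=
  ⟨(a (l 4) (l 4)), by decide +kernel⟩

theorem c_mm_102 : CertNX 536870912 536870912 67108864 469762048 1046898278 26843546 3 true false false .npp 1 0 2
    ndN0q1 ndN1q0 pcN2 Cut.none Ext.none :=
  certNX0 (fam := true) (s1 := false) (s2 := false) (a := 1) (b := 0) (c := 2) (cn := .npp) (n1 := ndN0q1) (n2 := ndN1q0) (pc := pcN2) (cut := Cut.none) (xt := Ext.none) (P1 := 536870912) (W1 := 536870912) (P2 := 67108864) (W2 := 469762048) (P3 := 1046898278) (W3 := 26843546) (N0 := 3)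
    rfl k0_mm_102

noncomputable def f_mm_112 : ℕ → ℕ → ℕ → ℕ → Bool := onCell 536870912 536870912 536870912 536870912 1046898278 26843546
    (rowNX 3 0 true false false .dn 1 1 2 (qsf 536870912 536870912 536870912 536870912 2) ndN0q1 ndN1q1 pcN2 Cut.none Ext.none)

def k0_mm_112 : ∃ t, chk3 f_mm_112 t 1 1 1 = true :=
  ⟨(l 4), by decide +kernel⟩

theorem c_mm_112 : CertNX 536870912 536870912 536870912 536870912 1046898278 26843546 3 true false false .dn 1 1 2
    ndN0q1 ndN1q1 pcN2 Cut.none Ext.none :=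
  certNX0 (fam := true) (s1 := false) (s2 := false) (a := 1) (b := 1) (c := 2) (cn := .dn) (n1 := ndN0q1) (n2 := ndN1q1) (pc := pcN2) (cut := Cut.none) (xt := Ext.none) (P1 := 536870912) (W1 := 536870912) (P2 := 536870912) (W2 := 536870912) (P3 := 1046898278) (W3 := 26843546) (N0 := 3)
    rfl k0_mm_112

noncomputable def f_mm_113 : ℕ → ℕ → ℕ → ℕ → Bool := onCell 536870912 536870912 536870912 536870912 1046898278 26843546
    (rowNX 3 0 true false false .nn 1 1 3 (qsf 536870912 536870912 536870912 536870912 3) ndN0q1 ndN1q1 pcN3 Cut.none Ext.none)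

def k0_mm_113 : ∃ t, chk3 f_mm_113 t 1 1 1 = true :=
  ⟨(l 4), by decide +kernel⟩

theorem c_mm_113 : CertNX 536870912 536870912 536870912 536870912 1046898278 26843546 3 true false false .nn 1 1 3
    ndN0q1 ndN1q1 pcN3 Cut.none Ext.none :=
  certNX0 (fam := true) (s1 := false) (s2 := false) (a := 1) (b := 1) (c := 3) (cn := .nn) (n1 := ndN0q1) (n2 := ndN1q1) (pc := pcN3) (cut := Cut.none) (xt := Ext.none) (P1 := 536870912) (W1 := 536870912) (P2 := 536870912) (W2 := 536870912) (P3 := 1046898278) (W3 := 26843546) (N0 := 3)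
    rfl k0_mm_113

noncomputable def f_mm_123_a : ℕ → ℕ → ℕ → ℕ → Bool := onCell 536870912 536870912 0 420477299 1046898278 26843546
    (rowNX 3 0 true false false .npn 1 2 3 (qsf 536870912 536870912 0 420477299 3) ndN0q1 ndN1q2a pcN3 Cut.none Ext.none)

def k0_mm_123_a : ∃ t, chk3 f_mm_123_a t 1 1 1 = true :=
  ⟨(l 5), by decide +kernel⟩

theorem c_mm_123_a : CertNX 536870912 536870912 0 420477299 1046898278 26843546 3 true false false .npn 1 2 3
    ndN0q1 ndN1q2a pcN3 Cut.none Ext.none :=
  certNX0 (fam := true) (s1 := false) (s2 := false) (a := 1) (b := 2) (c := 3) (cn := .npn) (n1 := ndN0q1) (n2 := ndN1q2a) (pc := pcN3) (cut := Cut.none) (xt := Ext.none) (P1 := 536870912) (W1 := 536870912) (P2 := 0) (W2 := 420477299) (P3 := 1046898278) (W3 := 26843546) (N0 := 3)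
    rfl k0_mm_123_a

noncomputable def f_mm_123_b : ℕ → ℕ → ℕ → ℕ → Bool := onCell 536870912 536870912 1239849684 370763052 1046898278 26843546
    (rowNX 3 0 true false false .npn 1 2 3 (qsf 536870912 536870912 1239849684 370763052 3) ndN0q1 ndN1q2b pcN3 Cut.none Ext.none)

def k0_mm_123_b : ∃ t, chk3 f_mm_123_b t 1 1 1 = true :=
  ⟨(l 5), by decide +kernel⟩

theorem c_mm_123_b : CertNX 536870912 536870912 1239849684 370763052 1046898278 26843546 3 true false false .npn 1 2 3
    ndN0q1 ndN1q2b pcN3 Cut.none Ext.none :=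
  certNX0 (fam := true) (s1 := false) (s2 := false) (a := 1) (b := 2) (c := 3) (cn := .npn) (n1 := ndN0q1) (n2 := ndN1q2b) (pc := pcN3) (cut := Cut.none) (xt := Ext.none) (P1 := 536870912) (W1 := 536870912) (P2 := 1239849684) (W2 := 370763052) (P3 := 1046898278) (W3 := 26843546) (N0 := 3)
    rfl k0_mm_123_b

noncomputable def f_mm_133 : ℕ → ℕ → ℕ → ℕ → Bool := onCell 536870912 536870912 1610612736 469762048 1046898278 26843546
    (rowNX 3 0 true false false .dn 1 3 3 (qsf 536870912 536870912 1610612736 469762048 3) ndN0q1 ndN1q3 pcN3 Cut.none Ext.none)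

def k0_mm_133 : ∃ t, chk3 f_mm_133 t 1 1 1 = true :=
  ⟨(l 4), by decide +kernel⟩

theorem c_mm_133 : CertNX 536870912 536870912 1610612736 469762048 1046898278 26843546 3 true false false .dn 1 3 3
    ndN0q1 ndN1q3 pcN3 Cut.none Ext.none :=
  certNX0 (fam := true) (s1 := false) (s2 := false) (a := 1) (b := 3) (c := 3) (cn := .dn) (n1 := ndN0q1) (n2 := ndN1q3) (pc := pcN3) (cut := Cut.none) (xt := Ext.none) (P1 := 536870912) (W1 := 536870912) (P2 := 1610612736) (W2 := 469762048) (P3 := 1046898278) (W3 := 26843546) (N0 := 3)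
    rfl k0_mm_133

noncomputable def f_mm_202 : ℕ → ℕ → ℕ → ℕ → Bool := onCell 0 536870912 67108864 469762048 1046898278 26843546
    (rowNX 3 0 true false false .pp 2 0 2 (qsf 0 536870912 67108864 469762048 2) ndN0q2 ndN1q0 pcN2 Cut.none Ext.none)

def k0_mm_202 : ∃ t, chk3 f_mm_202 t 4 4 1 = true :=
  ⟨(b (b (a (b (b (a (c (b (a (l 14693312) (l 14746800)) (l 14776712)) (b (l 14648240) (l 14706624))) (c (c (l 14876112) (l 14843200)) (l 14792872))) (c (c (l 14965904) (l 14934440)) (l 14886312))) (c (c (l 15211272) (l 15184120)) (l 15142592))) (b (c (a (b (l 14861776) (l 15088368)) (b (l 15141576) (c (l 15218800) (l 15192248)))) (a (b (l 14925856) (l 15029976)) (b (l 15085832) (l 15151616)))) (c (c (l 15377472) (l 15353552)) (l 15316936)))) (c (a (b (c (l 15520000) (l 15498264)) (l 15681488)) (b (c (l 15662464) (l 15643488)) (l 15801816))) (a (b (l 15465024) (l 15643408)) (b (l 15614464) (l 15768392))))) (a (c (b (l 15846704) (l 16073448)) (b (l 15814336) (l 16048856))) (c (b (l 15932544)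 (a (l 16100912) (l 16129760))) (b (l 15903480) (l 16028984))))), by decide +kernel⟩

def k1_mm_202 : ∃ t, chk3 f_mm_202 t 5 4 1 = true :=
  ⟨(b (b (a (b (c (a (b (l 15313840) (l 15357864)) (l 15475072)) (a (l 15132664) (l 15471624))) (c (a (b (l 15383584) (l 15581632)) (b (a (l 15551456) (l 15641800)) (l 15674440))) (a (l 15472576) (b (l 15560152) (l 15659320))))) (b (c (a (l 15608576) (b (l 15896296) (l 15947616))) (a (l 15675592) (l 15887736))) (c (a (a (b (l 15742208) (l 15805624)) (l 15872432)) (l 16030888)) (a (a (l 15741752) (l 15843424)) (l 16007960))))) (a (c (b (c (l 15839368) (l 15823800)) (l 15958128)) (b (l 15778992) (l 15930736))) (b (c (a (b (a (l 15913416) (l 15983688)) (l 16057448)) (b (a (l 16071288) (l 16174392)) (a (l 16156792) (b (l 16225752) (l 16248024))))) (a (a (l 15944048) (l 15950552)) (b (a (l 16049088) (l 16156160)) (a (l 16137400) (l 16222384))))) (c (l 16174568) (l 16155480))))) (a (c (b (l 16056144) (a (l 16169984) (l 16224400))) (b (l 16031832) (a (l 16149088)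 (l 16205568)))) (b (c (a (l 16186400) (l 16298120)) (a (l 16167072) (l 16283080))) (c (a (l 16295880) (l 16387408)) (a (l 16279768) (l 16374800)))))), by decide +kernel⟩

def k2_mm_202 : ∃ t, chk3 f_mm_202 t 2 5 1 = true :=
  ⟨(a (b (c (b (a (l 16376992) (l 16276816)) (a (l 16646472) (l 16583560))) (b (a (l 16362952) (l 16283920)) (a (l 16664328) (l 16580440)))) (c (a (l 16777216) (l 16777216)) (a (l 16777216) (l 16777216)))) (b (a (b (c (a (l 16393256) (l 16373096)) (a (l 16379824) (l 16381456))) (c (l 16541616) (l 16559472))) (a (b (c (l 16307920) (l 16359720)) (c (l 16583568) (l 16580456))) (b (c (l 16500176) (l 16491576)) (c (b (l 16612592) (l 16756608)) (b (l 16607576) (l 16755880)))))) (c (a (c (l 16777216) (l 16777216)) (c (l 16777216) (l 16777216))) (a (c (l 16777216) (l 16777216)) (c (l 16777216) (l 16777216)))))), by decide +kernel⟩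

def k3_mm_202 : ∃ t, chk3 f_mm_202 t 12 8 1 = true :=
  ⟨(b (c (b (a (b (l 16105664) (l 16159096)) (b (a (l 16266600) (l 16388096)) (a (l 16319504) (l 16428760)))) (a (c (l 16249016) (l 16241776)) (a (l 16365664) (l 16438376)))) (a (b (b (l 16086824) (l 16141832)) (l 16209656)) (b (b (l 16193752) (l 16282080)) (a (l 16399040) (l 16491624))))) (b (c (a (a (b (l 16283072) (l 16337008)) (l 16356192)) (c (l 16460192) (l 16479952))) (a (a (l 16254552) (l 16410088)) (a (l 16503688) (l 16553864)))) (a (a (c (l 16330328) (l 16338992)) (c (b (l 16396368) (l 16439392)) (b (l 16408528) (l 16430368)))) (a (a (b (l 16515960) (c (l 16507400) (l 16501032))) (c (l 16566112) (l 16562184))) (c (l 16625552) (l 16623672)))))), by decide +kernel⟩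

def k4_mm_202 : ∃ t, chk3 f_mm_202 t 13 8 1 = true :=
  ⟨(b (a (c (b (a (b (l 16505936) (l 16489048)) (b (l 16578016) (l 16595592))) (a (c (l 16592336) (l 16591320)) (c (l 16585352) (l 16583872)))) (b (a (b (l 16480880) (l 16527488)) (b (l 16576176) (l 16593800))) (a (l 16526880) (l 16539704)))) (b (a (c (b (l 16560056) (l 16569216)) (b (l 16556712) (l 16565688))) (b (c (a (b (a (b (l 16522456) (l 16544144)) (b (l 16543256) (l 16519240))) (l 16544696)) (b (l 16542272) (a (b (l 16515824) (l 16537112)) (b (l 16535952) (l 16491264))))) (a (b (a (l 16497848) (l 16495504)) (l 16540048)) (b (l 16537472) (a (b (l 16531632) (l 16531840)) (b (l 16530576) (l 16527616)))))) (c (c (l 16545712) (l 16543160)) (l 16539296)))) (c (a (c (l 16574328) (l 16572304)) (c (l 16553608) (l 16550840))) (a (l 16506320) (l 16546640))))) (c (a (b (c (a (l 16531000) (l 16527160)) (a (l 16528216) (l 16524008))) (a (l 16553880) (l 16546848))) (b (c (a (l 16532888) (a (l 16538712) (l 16517960))) (b (l 16499608) (l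 16517592))) (a (l 16549608) (l 16519128)))) (a (b (a (b (l 16537792) (l 16509376)) (l 16477264)) (a (l 16548656) (l 16540744))) (b (a (b (l 16540608) (l 16507552)) (b (l 16540128) (l 16518808))) (a (l 16542992) (l 16512344)))))), by decide +kernel⟩

def k5_mm_202 : ∃ t, chk3 f_mm_202 t 6 9 1 = true :=
  ⟨(a (b (a (c (l 16432952) (l 16423104)) (a (c (l 16550784) (l 16545552)) (b (a (c (l 16589104) (l 16607424)) (b (c (l 16639432) (l 16637776)) (l 16649608))) (c (l 16642856) (l 16641088))))) (c (a (l 16397232) (a (l 16604744) (l 16618840))) (a (l 16389056) (a (l 16600640) (l 16617912))))) (b (a (b (a (b (c (l 16592144) (l 16588192)) (c (a (l 16613552) (b (l 16603040) (l 16610496))) (a (l 16610432) (l 16602784)))) (c (a (l 16553064) (l 16593720)) (a (l 16548648) (l 16588920)))) (a (c (l 16626176) (l 16623120)) (b (c (a (l 16619392) (b (l 16615920) (l 16622992))) (a (l 16615664) (b (l 16611760) (l 16619016)))) (c (l 16635136) (l 16631672))))) (b (c (a (l 16596776) (l 67880151031)) (a (l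 16591608) (l 54995237175))) (a (a (b (c (l 16560688) (b (l 16612720) (l 16603504))) (c (l 16628712) (l 16625328))) (l 4)) (l 4)))) (a (a (c (b (l 16645224) (l 16646104)) (b (l 16642520) (l 16642792))) (b (c (l 16640712) (l 16638008)) (l 4))) (l 4)))), by decide +kernel⟩

def k6_mm_202 : ∃ t, chk3 f_mm_202 t 14 16 1 = true :=
  ⟨(a (b (a (b (c (l 16514776) (l 16530040)) (c (a (b (a (c (l 16489224) (l 16507200)) (c (l 16528304) (l 16525176))) (l 16528776)) (b (l 16523824) (a (b (c (l 16523080) (l 16519672)) (l 16521136)) (c (l 16519776) (l 16516184))))) (a (b (a (b (l 16523432) (l 16523280)) (l 16473240)) (l 16522336)) (b (l 16517072) (a (b (l 16514504) (l 16514088)) (l 16510744)))))) (c (b (c (l 16523144) (l 16519704)) (c (l 16512552) (l 16508664))) (b (l 16514464) (l 16502768)))) (a (c (b (a (l 16532160) (c (l 16522504) (l 16518832))) (l 16486552)) (b (c (l 16478976) (l 16475432)) (l 16521064))) (a (c (b (b (b (c (l 16512736) (l 16508800)) (a (c (l 16514136) (l 16510208)) (l 16465856)))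 (a (l 16513000) (c (l 16467792) (l 16505552)))) (l 16511184)) (b (b (a (b (l 16504744) (l 16504248)) (l 16500088)) (c (l 16462176) (l 16478984))) (l 16502600))) (a (c (b (b (l 16503872) (b (l 16502736) (c (l 16504728) (l 16500336)))) (l 16503256)) (b (b (l 16495312) (b (l 16493968) (a (l 16495016) (l 16492304)))) (l 16494136))) (b (c (l 16497928) (l 16488864)) (a (c (c (l 16501872) (l 16497240)) (b (l 16489808) (l 4))) (l 4))))))) (a (b (c (b (c (a (l 16506240) (l 16516024)) (l 16507368)) (c (a (l 16497344) (l 16511288)) (a (l 16492912) (l 16506904)))) (b (a (l 16496064) (l 16505776)) (a (l 16486176) (l 16500264)))) (a (b (c (c (l 16495040) (l 16490344)) (l 16483224)) (l 4)) (l 4))) (a (b (b (c (c (l 16534432) (l 16530496)) (c (l 16526528) (l 16522504))) (l 4)) (l 4)) (l 4)))), by decide +kernel⟩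

def k7_mm_202 : ∃ t, chk3 f_mm_202 t 14 17 1 = true :=
  ⟨(a (a (b (c (b (c (l 16530728) (l 16526824)) (c (l 78080567559) (l 16486760))) (b (l 16520904) (b (l 16518088) (l 16529976)))) (a (c (l 16578216) (l 16571640)) (l 4))) (b (a (b (c (l 90965477991) (l 16502848)) (l 4)) (l 4)) (l 4))) (l 4)), by decide +kernel⟩

def k8_mm_202 : ∃ t, chk3 f_mm_202 t 15 8 1 = true :=
  ⟨(l 4), by decide +kernel⟩

def k9_mm_202 : ∃ t, chk3 f_mm_202 t 7 9 1 = true :=
  ⟨(l 4), by decide +kernel⟩

def k10_mm_202 : ∃ t, chk3 f_mm_202 t 3 5 1 = true :=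
  ⟨(a (a (a (b (a (b (c (l 16589800) (l 16583848)) (b (c (l 16663592) (l 16659704)) (c (l 16756608) (l 16755888)))) (b (c (l 16622600) (l 16618776)) (b (c (l 16704120) (l 16701784)) (l 4)))) (l 4)) (b (b (c (b (l 16649688) (l 39426178151)) (b (l 16628128) (l 16637128))) (l 4)) (l 4))) (l 4)) (l 4)), by decide +kernel⟩

def k11_mm_202 : ∃ t, chk3 f_mm_202 t 1 3 1 = true :=
  ⟨(a (b (b (a (c (a (l 16777216) (l 16777216)) (a (l 16777216) (l 16777216))) (b (a (c (l 16777216) (l 16777216)) (a (c (l 16777216) (l 16777216)) (l 4))) (a (c (l 16777216) (l 16777216)) (l 4)))) (b (a (c (a (l 16777216) (l 16777216)) (a (l 16777216) (l 16777216))) (a (c (l 111904030727) (l 16777216)) (l 4))) (a (l 2) (l 4)))) (l 2)) (l 4)), by decide +kernel⟩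

theorem s12_mm_202 : ∃ t, chk3 f_mm_202 t 14 8 1 = true := ex3_b k6_mm_202 k7_mm_202

theorem s13_mm_202 : ∃ t, chk3 f_mm_202 t 7 8 1 = true := ex3_a s12_mm_202 k8_mm_202

theorem s14_mm_202 : ∃ t, chk3 f_mm_202 t 7 4 1 = true := ex3_b s13_mm_202 k9_mm_202

theorem s15_mm_202 : ∃ t, chk3 f_mm_202 t 6 8 1 = true := ex3_a k3_mm_202 k4_mm_202

theorem s16_mm_202 : ∃ t, chk3 f_mm_202 t 6 4 1 = true := ex3_b s15_mm_202 k5_mm_202

theorem s17_mm_202 : ∃ t, chk3 f_mm_202 t 3 4 1 = true := ex3_a s16_mm_202 s14_mm_202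

theorem s18_mm_202 : ∃ t, chk3 f_mm_202 t 3 2 1 = true := ex3_b s17_mm_202 k10_mm_202

theorem s19_mm_202 : ∃ t, chk3 f_mm_202 t 2 4 1 = true := ex3_a k0_mm_202 k1_mm_202

theorem s20_mm_202 : ∃ t, chk3 f_mm_202 t 2 2 1 = true := ex3_b s19_mm_202 k2_mm_202

theorem s21_mm_202 : ∃ t, chk3 f_mm_202 t 1 2 1 = true := ex3_a s20_mm_202 s18_mm_202

theorem s22_mm_202 : ∃ t, chk3 f_mm_202 t 1 1 1 = true := ex3_b s21_mm_202 k11_mm_202

theorem c_mm_202 : CertNX 0 536870912 67108864 469762048 1046898278 26843546 3 true false false .pp 2 0 2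
    ndN0q2 ndN1q0 pcN2 Cut.none Ext.none :=
  certNX0 (fam := true) (s1 := false) (s2 := false) (a := 2) (b := 0) (c := 2) (cn := .pp) (n1 := ndN0q2) (n2 := ndN1q0) (pc := pcN2) (cut := Cut.none) (xt := Ext.none) (P1 := 0) (W1 := 536870912) (P2 := 67108864) (W2 := 469762048) (P3 := 1046898278) (W3 := 26843546) (N0 := 3)
    rfl s22_mm_202

noncomputable def f_mm_203 : ℕ → ℕ → ℕ → ℕ → Bool := onCell 0 536870912 1610612736 536870912 1046898278 26843546
    (rowNX 3 1 true false false .up 2 0 3 (qsf 0 536870912 67108864 469762048 3) ndN0q2 ndN1q0 pcN3 Cut.none Ext.none)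

def k0_mm_203 : ∃ t, chk3 f_mm_203 t 1 1 1 = true :=
  ⟨(b (a (a (a (b (b (c (l 16777216) (l 16777216)) (c (c (l 16777216) (l 16777216)) (c (l 16777216) (l 16777216)))) (b (b (c (l 140358189063) (l 128010158087)) (l 2)) (l 2))) (b (b (c (c (l 16777216) (l 16777216)) (c (l 16777216) (l 16777216))) (l 4)) (l 4))) (b (l 4) (l 4))) (l 4)) (l 2)), by decide +kernel⟩

theorem c_mm_203 : CertNX 0 536870912 67108864 469762048 1046898278 26843546 3 true false false .up 2 0 3
    ndN0q2 ndN1q0 pcN3 Cut.none Ext.none :=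
  certNX1 (fam := true) (s1 := false) (s2 := false) (a := 2) (b := 0) (c := 3) (cn := .up) (n1 := ndN0q2) (n2 := ndN1q0) (pc := pcN3) (cut := Cut.none) (xt := Ext.none) (P1 := 0) (W1 := 536870912) (P2 := 67108864) (W2 := 469762048) (P3 := 1046898278) (W3 := 26843546) (N0 := 3)
    rfl (fun _ => rfl) k0_mm_203

noncomputable def f_mm_213 : ℕ → ℕ → ℕ → ℕ → Bool := onCell 0 536870912 536870912 536870912 1046898278 26843546
    (rowNX 3 0 true false false .pnn 2 1 3 (qsf 0 536870912 536870912 536870912 3) ndN0q2 ndN1q1 pcN3 Cut.none Ext.none)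

def k0_mm_213 : ∃ t, chk3 f_mm_213 t 1 1 1 = true :=
  ⟨(a (b (l 4) (l 4)) (l 4)), by decide +kernel⟩

theorem c_mm_213 : CertNX 0 536870912 536870912 536870912 1046898278 26843546 3 true false false .pnn 2 1 3
    ndN0q2 ndN1q1 pcN3 Cut.none Ext.none :=
  certNX0 (fam := true) (s1 := false) (s2 := false) (a := 2) (b := 1) (c := 3) (cn := .pnn) (n1 := ndN0q2) (n2 := ndN1q1) (pc := pcN3) (cut := Cut.none) (xt := Ext.none) (P1 := 0) (W1 := 536870912) (P2 := 536870912) (W2 := 536870912) (P3 := 1046898278) (W3 := 26843546) (N0 := 3)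
    rfl k0_mm_213

end Pool.Agent.Strip051.G.IE1.Tab.C.NA01

namespace Pool.Agent.Strip051.G.IE1.Tab.C.NA02

open Pool.Agent.Strip051.PB Pool.Agent.Strip051.PB.T
open Pool.Agent.Strip051.G.IE1.Tab

noncomputable def f_pp_001 : ℕ → ℕ → ℕ → ℕ → Bool := onCell 0 536870912 67108864 469762048 1046898278 26843546
    (rowNX 3 0 true true true .up 0 0 1 (qsf 0 536870912 67108864 469762048 1) ndN0q0 ndN2q0 pcN1 Cut.none Ext.none)

def k0_pp_001 : ∃ t, chk3 f_pp_001 t 1 1 1 = true :=
  ⟨(l 4), by decide +kernel⟩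

theorem c_pp_001 : CertNX 0 536870912 67108864 469762048 1046898278 26843546 3 true true true .up 0 0 1
    ndN0q0 ndN2q0 pcN1 Cut.none Ext.none :=
  certNX0 (fam := true) (s1 := true) (s2 := true) (a := 0) (b := 0) (c := 1) (cn := .up) (n1 := ndN0q0) (n2 := ndN2q0) (pc := pcN1) (cut := Cut.none) (xt := Ext.none) (P1 := 0) (W1 := 536870912) (P2 := 67108864) (W2 := 469762048) (P3 := 1046898278) (W3 := 26843546) (N0 := 3)
    rfl k0_pp_001

noncomputable def f_pp_011 : ℕ → ℕ → ℕ → ℕ → Bool := onCell 0 536870912 536870912 536870912 1046898278 26843546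
    (rowNX 3 0 true true true .pnn 0 1 1 (qsf 0 536870912 536870912 536870912 1) ndN0q0 ndN2q1 pcN1 Cut.none Ext.none)

def k0_pp_011 : ∃ t, chk3 f_pp_011 t 1 1 1 = true :=
  ⟨(l 4), by decide +kernel⟩

theorem c_pp_011 : CertNX 0 536870912 536870912 536870912 1046898278 26843546 3 true true true .pnn 0 1 1
    ndN0q0 ndN2q1 pcN1 Cut.none Ext.none :=
  certNX0 (fam := true) (s1 := true) (s2 := true) (a := 0) (b := 1) (c := 1) (cn := .pnn) (n1 := ndN0q0) (n2 := ndN2q1) (pc := pcN1) (cut := Cut.none) (xt := Ext.none) (P1 := 0) (W1 := 536870912) (P2 := 536870912) (W2 := 536870912) (P3 := 1046898278) (W3 := 26843546) (N0 := 3)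
    rfl k0_pp_011

noncomputable def f_pp_012 : ℕ → ℕ → ℕ → ℕ → Bool := onCell 0 536870912 536870912 536870912 1046898278 26843546
    (rowNX 3 0 true true true .pnp 0 1 2 (qsf 0 536870912 536870912 536870912 2) ndN0q0 ndN2q1 pcN2 Cut.none Ext.none)

def k0_pp_012 : ∃ t, chk3 f_pp_012 t 1 1 1 = true :=
  ⟨(l 4), by decide +kernel⟩

theorem c_pp_012 : CertNX 0 536870912 536870912 536870912 1046898278 26843546 3 true true true .pnp 0 1 2
    ndN0q0 ndN2q1 pcN2 Cut.none Ext.none :=
  certNX0 (fam := true) (s1 := true) (s2 := true) (a := 0) (b := 1) (c := 2) (cn := .pnp) (n1 := ndN0q0) (n2 := ndN2q1) (pc := pcN2) (cut := Cut.none) (xt := Ext.none) (P1 := 0) (W1 := 536870912) (P2 := 536870912) (W2 := 536870912) (P3 := 1046898278) (W3 := 26843546) (N0 := 3)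
    rfl k0_pp_012

noncomputable def f_pp_022_a : ℕ → ℕ → ℕ → ℕ → Bool := onCell 0 536870912 0 420477299 1046898278 26843546
    (rowNX 3 0 true true true .pp 0 2 2 (qsf 0 536870912 0 420477299 2) ndN0q0 ndN2q2a pcN2 Cut.none Ext.none)

def k0_pp_022_a : ∃ t, chk3 f_pp_022_a t 8 4 1 = true :=
  ⟨(a (c (a (b (l 16201296) (l 16210256)) (b (c (l 16028544) (l 15851672)) (a (l 16107080) (c (l 16105520) (l 16015664))))) (a (c (b (l 16033464) (a (l 16316624) (l 16177384))) (c (a (b (l 16256664) (l 16312240)) (b (a (l 16166832) (l 16123504)) (a (l 16160872) (l 16241776)))) (a (b (a (l 16283344) (l 16217544)) (a (l 16091752) (l 16295824))) (l 16037872)))) (c (a (c (b (l 16073224) (l 16182432)) (b (l 16009336) (a (l 16164328) (l 16125840)))) (b (l 15906352) (b (l 16003200) (l 16009064)))) (b (l 16019600) (l 16111520))))) (c (a (a (c (b (l 15965760) (l 16076344)) (b (c (l 15989856) (l 15968824)) (c (l 16102072) (l 15914376)))) (c (c (l 15814920) (b (l 15953992) (l 16047688))) (c (b (l 15903152)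 (l 15830216)) (l 15882376)))) (a (c (b (c (l 15921784) (l 15841912)) (c (l 15975784) (a (l 15959472) (l 15961208)))) (l 15729712)) (c (c (b (l 15742992) (a (l 15923800) (l 15924328))) (l 15713976)) (l 15725680)))) (b (a (l 15897784) (l 15789712)) (a (l 16015792) (l 15914976))))), by decide +kernel⟩

def k1_pp_022_a : ∃ t, chk3 f_pp_022_a t 8 5 1 = true :=
  ⟨(a (c (a (b (l 16148368) (a (b (l 16011736) (a (l 16066176) (b (l 16126352) (l 16102672)))) (l 16188104))) (b (c (l 16131320) (a (l 16299552) (a (l 16254944) (l 16142736)))) (c (l 16182888) (a (l 16336528) (c (l 16365912) (l 16144432)))))) (a (b (c (a (l 16205224) (l 16260816)) (a (c (l 16198992) (c (a (l 16165512) (l 16228656)) (l 16051544))) (c (a (l 16165888) (l 16343464)) (l 16318328)))) (a (c (b (l 16085688) (a (l 16054112) (l 16062520))) (c (b (l 15973264) (a (l 16047864) (b (l 16106672) (l 16081704)))) (b (a (c (l 16086640) (a (l 16028336) (l 16101104))) (l 16151552)) (b (a (c (l 16051720) (l 15987728)) (l 16066128)) (a (l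 16034920) (a (l 16068216) (l 16086536))))))) (c (l 16089480) (c (c (a (l 16176624) (l 16231936)) (l 16101968)) (l 16206776))))) (c (b (a (c (l 16312848) (a (l 16301032) (l 16293072))) (c (a (l 16247408) (l 16232024)) (l 16222272))) (a (c (l 16281264) (b (l 16223248) (l 16123960))) (c (c (l 16133072) (l 16204848)) (l 16354392)))) (b (l 16219472) (l 16274872))))) (c (a (c (b (a (l 16191064) (c (l 16173664) (l 16144480))) (a (l 16299976) (c (l 16280488) (l 16241744)))) (b (a (c (l 16176456) (a (l 16221456) (l 16168800))) (c (l 15949096) (l 16120248))) (a (c (l 16223848) (a (l 16186392) (l 16277144))) (c (a (c (l 16301680) (l 16238896)) (l 16210936)) (l 16229864))))) (c (b (a (c (l 16094840) (a (l 16079080) (l 16082016))) (c (a (l 16044608) (l 16046280)) (l 16040856))) (a (c (a (l 16288536) (l 16196384)) (a (c (l 16264208) (l 16217360)) (l 16191920))) (c (a (l 16091448) (l 16156856)) (l 16151992)))) (b (l 16054488) (l 16166240)))) (b (a (l 16137280) (l 16041640)) (a (a (l 16256360) (l 16223344))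 (l 16156336))))), by decide +kernel⟩

def k2_pp_022_a : ∃ t, chk3 f_pp_022_a t 9 2 1 = true :=
  ⟨(a (a (b (a (b (c (a (l 15761712) (l 15752368)) (l 15728256)) (c (b (l 15841200) (l 15912152)) (b (l 15815376) (l 15889192)))) (b (l 15763712) (c (l 15888024) (l 15863480)))) (c (b (a (l 16001160) (b (l 15911544) (a (l 16011016) (l 16043040)))) (a (l 16114392) (b (l 16083480) (l 16140616)))) (b (a (l 15981600) (b (l 15953312) (l 15882312))) (b (l 16067088) (l 16125920))))) (b (c (b (l 15916824) (l 16018808)) (l 15863144)) (b (c (l 16122432) (l 16106232)) (b (a (c (a (l 16136696) (l 16176328)) (l 16016080)) (l 16229784)) (a (a (l 16186288) (c (l 16209912) (l 16197616))) (c (l 16266680) (l 16277216))))))) (b (a (c (b (l 16093976) (l 16185792)) (l 15998936)) (c (b (l 16238360) (l 16320176)) (b (l 16224336) (l 16309752)))) (b (a (c (l 16280912) (l 16269944)) (c (l 16341328) (l 16355320))) (a (c (l 16282808) (l 16295864)) (a (c (l 16462808) (l 16458016)) (l 4)))))), by decide +kernel⟩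

def k3_pp_022_a : ∃ t, chk3 f_pp_022_a t 32 6 1 = true :=
  ⟨(b (c (a (b (l 16053464) (l 16014712)) (b (a (b (l 16132504) (l 16110688)) (l 16092352)) (b (l 16031056) (l 16094680)))) (a (c (l 15853072) (c (b (l 16031328) (l 15990344)) (a (c (l 15986440) (l 15922080)) (b (l 16032256) (l 16012576))))) (c (b (a (b (l 16117248) (l 16094592)) (a (l 16138968) (l 16169912))) (a (l 16064880) (a (l 16091784) (b (l 16127768) (l 16106448))))) (c (b (a (c (b (l 16105424) (l 16082368)) (b (l 16018656) (l 16079336))) (a (l 16003288) (l 16156912))) (a (l 15972800) (b (l 15999192) (l 16082464)))) (b (a (l 16009696) (l 16147384)) (l 16031216)))))) (c (b (l 16015264) (l 15882112)) (c (a (l 15928416) (b (l 16040664) (l 15926144))) (a (c (b (l 15942480) (l 15889936)) (a (c (l 15890392) (b (l 15914200) (a (l 15850032) (l 15871192)))) (b (l 15964920) (l 15889056)))) (c (a (c (l 15980144) (l 15955480)) (l 15959560)) (l 16000656)))))), by decide +kernel⟩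

def k4_pp_022_a : ∃ t, chk3 f_pp_022_a t 33 6 1 = true :=
  ⟨(c (b (a (b (l 16235752) (a (b (l 16189576) (l 16101208)) (l 16163096))) (c (l 16320632) (c (l 16323080) (a (l 16281592) (l 16282536))))) (a (b (a (l 16131400) (b (a (l 16175256) (l 16133480)) (l 16161736))) (l 16102296)) (b (a (b (l 16225848) (a (l 16169888) (l 16131384))) (c (l 16281776) (c (l 16256928) (l 16214496)))) (a (l 16161896) (a (b (c (l 16228960) (l 16091976)) (l 16189248)) (b (c (l 16251592) (c (l 16222496) (b (l 16207984) (l 16194008)))) (c (l 16226480) (l 16157720)))))))) (b (a (c (b (c (l 16236608) (a (l 16177664) (l 16257704))) (c (a (b (l 16164776) (l 16138376)) (l 16120080)) (a (a (b (l 16137080) (l 16111984)) (c (l 16041120) (l 16056424))) (l 16091560)))) (b (l 16237056) (a (b (l 16161400) (l 16134256)) (l 16204152)))) (c (c (a (l 16129416) (l 16189144)) (l 16323408)) (l 16320696))) (a (c (b (c (a (l 16104344) (b (a (l 16141344) (l 16158112)) (l 16137312))) (a (l 16091600) (b (a (l 16139424) (l 16175440))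 (l 16128840)))) (c (l 16076552) (a (l 15999176) (l 16091032)))) (b (b (a (l 16110960) (l 16160392)) (l 16111304)) (l 16072576))) (b (c (a (b (c (l 16138184) (l 16219760)) (c (a (l 16072936) (b (l 16192656) (l 16157768))) (l 16191376))) (c (c (l 16183592) (l 16262952)) (l 16260984))) (b (l 16244224) (a (l 16186392) (l 16241544)))) (a (c (c (l 16071736) (l 16153096)) (l 16147392)) (a (c (b (a (l 16120320) (l 16166144)) (l 16142864)) (l 16185656)) (b (b (l 16234480) (l 16157352)) (l 16200696)))))))), by decide +kernel⟩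

def k5_pp_022_a : ∃ t, chk3 f_pp_022_a t 17 6 1 = true :=
  ⟨(a (c (b (c (a (l 16341536) (c (l 16401568) (b (l 16376808) (l 16364240)))) (a (c (b (l 16430096) (l 16375024)) (b (l 16224984) (l 16217808))) (c (a (b (l 16350968) (l 16366336)) (l 16242608)) (l 16353920)))) (c (a (b (l 16343160) (b (l 16300368) (a (b (l 16199272) (l 16249128)) (l 16292608)))) (c (l 16312352) (a (l 16246560) (b (l 16432144) (l 16291960))))) (a (b (c (a (l 16288552) (l 16335760)) (c (l 16195144) (l 16318568))) (a (b (c (l 16244216) (c (l 16239848) (l 16263456))) (b (c (l 16180688) (a (c (l 16196520) (l 16223920)) (l 16116104))) (c (l 16209104) (c (l 16204376) (l 16228136))))) (c (b (l 16291952) (a (l 16222800) (l 16273984))) (b (l 16323080) (a (l 16194432) (l 16313288)))))) (c (a (c (l 16231456) (l 16240528)) (b (l 16468144) (l 16353728))) (l 16362208))))) (b (b (l 16243352) (l 16263008)) (b (l 16272336) (a (a (b (l 16269960) (a (l 16227400) (l 16170552))) (l 16247936)) (l 16393320))))) (c (b (c (a (c (b (l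 16347280) (l 16338400)) (a (c (l 16373792) (l 16306424)) (l 16217680))) (c (a (c (l 16337560) (l 16247304)) (l 16182464)) (l 16262192))) (l 16172864)) (c (a (c (b (a (l 16467936) (l 16390624)) (a (l 16414400) (l 16366168))) (b (a (c (l 16474984) (l 16428992)) (l 16366720)) (a (c (l 16430608) (l 16443832)) (l 16394640)))) (c (b (a (c (l 16415616) (l 16346616)) (l 16322816)) (a (a (l 16365480) (l 108145072087)) (c (l 543010573959) (l 16388288)))) (b (l 16340672) (l 16407024)))) (b (a (l 16394712) (l 16337688)) (c (l 16301792) (l 16300696))))) (b (b (l 16241400) (l 16297592)) (b (a (l 16390392) (l 16331496)) (b (l 16314552) (l 16361328)))))), by decide +kernel⟩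

def k6_pp_022_a : ∃ t, chk3 f_pp_022_a t 16 14 1 = true :=
  ⟨(b (c (a (b (a (l 15898024) (l 15971048)) (a (l 15937224) (l 15976352))) (c (b (l 16119792) (l 16119664)) (c (b (l 16099456) (l 16099016)) (a (l 16026576) (a (l 16102128) (b (l 16139448) (l 16139288))))))) (a (c (c (b (l 15919696) (l 15943680)) (a (l 15857736) (b (l 15939248) (l 15944296)))) (a (c (b (l 15866904) (l 15907368)) (a (c (l 15877520) (b (a (l 15847176) (l 15849624)) (l 15901728))) (b (c (l 15868112) (l 15863520)) (l 15801064)))) (c (a (c (b (l 15909096) (l 15917168)) (b (l 15904952) (l 15913016))) (b (l 15952584) (l 15950440))) (l 15933808)))) (c (a (c (b (l 16035344) (l 16034144)) (b (a (c (l 15996168) (l 16000184)) (l 16049648)) (a (l 15892416) (l 16048544)))) (c (b (a (c (l 16088144) (l 16099256)) (l 16044744)) (a (c (l 16087448) (l 16098680)) (l 16086616))) (l 16138288))) (b (l 16080600) (l 16079760))))) (c (a (a (c (c (b (l 16020320) (c (a (l 16105824) (l 16105544)) (l 16097520))) (l 16053016)) (l 16045592))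 (b (l 16021144) (l 16092904))) (a (b (l 16078472) (a (l 16100968) (l 16123768))) (c (l 16194280) (c (l 16170768) (a (l 16127840) (l 16102960)))))) (a (c (a (l 16035360) (a (l 16032216) (c (l 16042968) (b (l 15991728) (l 16061624))))) (a (c (l 16024800) (a (c (l 16022256) (a (l 16021312) (l 16021856))) (c (l 15957240) (l 16016112)))) (c (a (c (l 16017648) (l 16013880)) (b (l 15982640) (l 16053048))) (l 16020328)))) (c (a (c (a (l 16052656) (c (l 16076904) (l 16067664))) (a (c (l 16014472) (b (l 16015160) (l 16057672))) (c (a (l 16059464) (l 16096928)) (l 16088288)))) (c (a (c (l 16113464) (l 16083056)) (c (l 16072136) (l 16194152))) (l 16165072))) (a (l 16067416) (l 16158992)))))), by decide +kernel⟩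

def k7_pp_022_a : ∃ t, chk3 f_pp_022_a t 32 30 2 = true :=
  ⟨(b (c (c (a (c (a (b (l 16224128) (l 16302456)) (l 16139856)) (a (b (l 16171016) (l 16234208)) (l 16186968))) (a (l 16088536) (l 16186952))) (l 16180104)) (l 16173208)) (c (a (c (a (b (c (a (l 16361744) (l 16370296)) (l 16224264)) (c (l 16387096) (l 16346176))) (c (b (l 16336856) (l 16286848)) (b (l 16271328) (a (l 16352208) (l 16330808))))) (a (a (b (l 16211832) (l 16230952)) (b (l 16248720) (l 16221272))) (b (l 16247304) (l 16235808)))) (c (c (a (l 16206096) (b (l 16263952) (l 16287032))) (a (l 16223592) (l 16277608))) (l 16273736))) (a (a (l 16264656) (l 16266360)) (l 16268104)))), by decide +kernel⟩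

def k8_pp_022_a : ∃ t, chk3 f_pp_022_a t 32 31 2 = true :=
  ⟨(c (a (c (c (b (a (l 16486640) (b (b (l 16383328) (l 16475432)) (l 16529616))) (l 16564632)) (b (b (a (l 16417376) (a (l 16440272) (l 16392664))) (a (l 16517056) (l 16448360))) (a (l 16576072) (b (l 16551072) (l 16581536))))) (b (a (c (b (l 16304664) (l 16419120)) (b (l 16350504) (l 16357480))) (b (c (a (l 16368712) (l 16314176)) (l 16343400)) (c (l 16378880) (l 16399352)))) (c (b (a (l 16491768) (l 16425344)) (a (l 16582904) (l 16491616))) (a (b (a (l 16473728) (l 16426712)) (l 16501784)) (c (l 16375848) (l 16349120)))))) (b (c (a (b (c (l 16369208) (l 16257952)) (c (a (l 16473632) (b (l 16510792) (l 16528264))) (c (l 16423800) (l 16361312)))) (c (b (l 16364016) (l 16432016)) (b (l 16358600) (l 16344064)))) (a (b (l 16347664) (c (a (l 16350928) (l 16383256)) (l 16396768))) (l 16374240))) (b (c (a (c (l 16586864) (l 16469240)) (c (a (b (l 16552472) (l 16597584)) (l 16489696)) (a (l 16435864) (b (l 16472640) (l 16474792)))))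 (a (c (a (l 16430272) (l 16412400)) (l 16451896)) (a (b (l 16441504) (l 16410216)) (l 16455088)))) (c (a (c (l 16582616) (l 16502272)) (c (a (l 16571680) (b (l 16542312) (l 16560936))) (l 16454728))) (c (a (l 16413040) (a (l 16456984) (b (l 16462216) (l 16500448)))) (a (c (a (l 16507248) (l 16493112)) (l 16507488)) (l 16507968))))))) (a (b (b (l 16338792) (l 16390088)) (c (c (b (l 16389088) (a (l 16423672) (l 16464616))) (l 16471536)) (l 16469704))) (b (a (l 16368080) (l 16369280)) (a (l 16475000) (b (l 16449040) (l 16504512)))))), by decide +kernel⟩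

def k9_pp_022_a : ∃ t, chk3 f_pp_022_a t 33 15 2 = true :=
  ⟨(b (a (c (b (l 16189376) (a (l 16238848) (l 16280432))) (a (l 16220560) (l 16194520))) (c (b (l 16230240) (l 117808431927)) (c (b (l 16206632) (l 112439689431)) (a (l 16098560) (b (l 16196272) (c (l 16233424) (a (l 16216664) (l 16238376)))))))) (c (b (a (c (c (a (b (l 16309872) (l 16364400)) (b (l 16359352) (l 16357816))) (l 16298872)) (l 16376160)) (l 16314064)) (b (c (a (c (a (l 16436664) (b (l 16409216) (l 16449800))) (a (l 16371360) (l 16461576))) (a (c (l 16388448) (l 16461112)) (l 4))) (l 16432944)) (a (c (a (c (a (a (l 16478200) (l 16508824)) (l 16571152)) (a (l 16439072) (l 16460648))) (c (l 16478104) (a (l 16446096) (l 16479544)))) (a (a (b (l 16496936) (l 16444304)) (l 16511728)) (l 16511112))) (l 4)))) (a (a (b (l 16367440) (l 16412184)) (l 16309912)) (a (l 277796048167) (a (a (l 263300524327) (l 4)) (l 4)))))), by decide +kernel⟩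

def k10_pp_022_a : ∃ t, chk3 f_pp_022_a t 32 15 3 = true :=
  ⟨(c (b (a (b (l 16164400) (a (l 16258240) (l 16259624))) (c (l 16212024) (a (l 16205056) (l 16155384)))) (a (b (l 16359208) (l 16467160)) (b (a (b (l 16331512) (l 16384032)) (c (l 16359352) (l 16347064))) (a (l 16466256) (c (b (l 16440016) (l 16496120)) (a (l 16413016) (c (l 16411240) (b (l 16412816) (l 16469384))))))))) (a (b (c (b (l 16155352) (a (l 16253248) (l 16208272))) (a (c (b (l 16153632) (l 16249248)) (b (a (l 16153256) (l 16153808)) (a (c (l 16248448) (l 16248184)) (c (l 16226984) (l 16246384))))) (c (a (c (l 16197336) (l 16132896)) (l 16193960)) (l 16196296)))) (c (a (l 16409176) (b (a (l 16353672) (l 16308328)) (l 16440600))) (a (c (l 16385112) (a (c (l 16405448) (l 16300656)) (l 16282128))) (c (a (c (l 16402944) (l 16338904)) (b (l 16324256) (l 16455128))) (l 16319520))))) (b (c (a (c (l 16195488) (a (l 16190408) (l 16190136))) (c (l 16062888) (l 16195920))) (l 16193736)) (c (a (b (c (b (l 16319624) (l 16351648))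 (a (b (l 16315008) (l 16368048)) (l 16278448))) (c (l 16455584) (a (l 16409184) (l 16430480)))) (b (c (l 16276328) (l 16347240)) (c (a (b (c (l 16413976) (l 16421000)) (l 16474520)) (b (l 16398856) (l 16413768))) (l 16394960)))) (b (l 16282976) (a (l 16457624) (l 16393672))))))), by decide +kernel⟩

def k11_pp_022_a : ∃ t, chk3 f_pp_022_a t 33 15 3 = true :=
  ⟨(c (a (c (b (a (l 16198000) (c (l 16187440) (b (l 16132400) (l 16223608)))) (a (b (l 16346320) (l 16392136)) (c (l 16367112) (b (l 16324592) (l 16391744))))) (b (a (c (l 16181296) (l 16039544)) (c (a (l 16139376) (l 16177120)) (l 16200536))) (a (c (b (l 16330232) (a (l 16418016) (l 16434752))) (a (b (l 16332448) (c (l 16374096) (l 16388312))) (l 16336120))) (c (a (c (l 16337592) (l 16355304)) (l 16295624)) (l 16404144))))) (b (c (a (c (b (l 16151176) (l 16220392)) (b (a (l 16148304) (l 16182880)) (a (l 16228368) (l 16246144)))) (c (b (l 16165832) (a (l 16130792) (l 16268584))) (l 16227688))) (b (l 16201608) (l 16259168))) (c (a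 (c (a (l 16287192) (l 296586489111)) (a (c (l 16338408) (l 16316480)) (l 16279592))) (c (a (l 286385937079) (l 4)) (l 16415392))) (l 16348224)))) (b (a (l 16195120) (b (l 16195808) (l 16254000))) (a (b (l 16344968) (b (l 16427176) (l 16422072))) (l 16323920)))), by decide +kernel⟩

def k12_pp_022_a : ∃ t, chk3 f_pp_022_a t 68 7 1 = true :=
  ⟨(b (c (c (b (b (a (l 16230328) (b (a (l 16264384) (l 16280912)) (l 16259288))) (l 16246888)) (l 16233144)) (b (a (c (l 16169008) (b (c (l 16184680) (l 16208544)) (c (l 16184960) (l 16209096)))) (b (c (b (a (l 16222504) (c (l 16239680) (l 16258608))) (a (l 16209904) (l 16176216))) (b (a (l 16236152) (l 16291560)) (c (l 16234904) (l 16267376)))) (c (l 16235200) (l 16266760)))) (c (a (l 16217064) (c (l 16254224) (l 16242488))) (a (c (l 16212072) (l 16236760)) (c (l 16270960) (l 16303864)))))) (b (b (a (l 16213776) (b (a (l 16260160) (l 16287432)) (l 16260672))) (l 16240912)) (c (l 16273248) (l 16267056)))) (b (c (a (c (l 16242584) (c (l 16241992) (c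 (b (l 16243960) (l 16229840)) (b (l 16269248) (l 16255568))))) (a (c (l 16336128) (c (l 208002783351) (l 222498312055))) (l 4))) (c (l 263300477463) (l 16274904))) (l 4))), by decide +kernel⟩

def k13_pp_022_a : ∃ t, chk3 f_pp_022_a t 69 7 1 = true :=
  ⟨(b (b (a (c (c (b (a (b (l 16296264) (l 16283152)) (l 16305344)) (a (l 16290192) (b (a (l 16296344) (l 16283688)) (l 16309824)))) (b (c (b (l 16177016) (a (c (b (l 16258616) (l 16253384)) (l 16208864)) (l 16244144))) (l 16223352)) (c (a (c (l 16262840) (l 16299920)) (b (c (l 16302168) (l 16272184)) (l 16255328))) (b (l 16261328) (l 16333176))))) (b (c (l 16219784) (l 16277880)) (b (a (l 16304200) (l 16331664)) (l 16326976)))) (c (c (b (c (l 16341480) (l 16271376)) (a (b (l 16321256) (c (l 16339608) (c (l 16312400) (a (l 16306744) (l 16327640))))) (c (l 16348752) (l 16284952)))) (b (c (l 16333392) (l 16381936)) (a (b (l 16339000) (c (c (a (l 16348936) (l 16350472)) (l 16375288)) (l 16373728))) (l 16374808)))) (b (l 16377192) (b (l 16373160)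 (a (l 16347488) (l 16396376)))))) (b (a (c (c (l 16282520) (c (c (l 16305360) (l 16336680)) (l 16348016))) (l 16341952)) (l 4)) (l 4))) (l 4)), by decide +kernel⟩

def k14_pp_022_a : ∃ t, chk3 f_pp_022_a t 35 7 1 = true :=
  ⟨(b (b (c (c (a (a (c (b (l 16374208) (l 16375544)) (c (b (l 16369368) (l 16391832)) (b (l 16382976) (l 16405856)))) (b (c (l 16327712) (l 16397584)) (l 4))) (l 4)) (b (l 16410320) (l 16434240))) (b (l 16366440) (l 16411056))) (l 4)) (l 4)), by decide +kernel⟩

def k15_pp_022_a : ∃ t, chk3 f_pp_022_a t 9 3 1 = true :=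
  ⟨(b (a (a (a (b (c (l 16120808) (l 16213776)) (b (c (l 16301320) (l 16291616)) (l 4))) (b (c (b (l 16196736) (l 16248168)) (b (l 16183384) (l 16236384))) (l 4))) (b (a (c (l 151094379911) (l 117808359751)) (a (b (c (l 16275832) (l 16266360)) (l 4)) (l 4))) (l 4))) (l 4)) (l 4)), by decide +kernel⟩

def k16_pp_022_a : ∃ t, chk3 f_pp_022_a t 5 1 1 = true :=
  ⟨(b (a (b (a (c (b (l 16313640) (a (l 16365328) (l 16392232))) (b (l 16301424) (a (l 16355944) (l 16383144)))) (a (b (c (l 16362112) (l 16350648)) (c (l 121029977159) (l 119956216551))) (b (c (l 16451824) (l 16443400)) (l 4)))) (a (a (b (c (l 16435512) (l 16429032)) (l 4)) (l 4)) (l 4))) (a (b (b (c (l 108682171143) (l 107071551639)) (l 4)) (l 4)) (l 4))) (l 4)), by decide +kernel⟩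

def k17_pp_022_a : ∃ t, chk3 f_pp_022_a t 3 1 1 = true :=
  ⟨(l 4), by decide +kernel⟩

theorem s18_pp_022_a : ∃ t, chk3 f_pp_022_a t 34 7 1 = true := ex3_a k12_pp_022_a k13_pp_022_a

theorem s19_pp_022_a : ∃ t, chk3 f_pp_022_a t 17 7 1 = true := ex3_a s18_pp_022_a k14_pp_022_a

theorem s20_pp_022_a : ∃ t, chk3 f_pp_022_a t 16 15 3 = true := ex3_a k10_pp_022_a k11_pp_022_a

theorem s21_pp_022_a : ∃ t, chk3 f_pp_022_a t 32 15 2 = true := ex3_b k7_pp_022_a k8_pp_022_a

theorem s22_pp_022_a : ∃ t, chk3 f_pp_022_a t 16 15 2 = true := ex3_a s21_pp_022_a k9_pp_022_a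

theorem s23_pp_022_a : ∃ t, chk3 f_pp_022_a t 16 15 1 = true := ex3_c s22_pp_022_a s20_pp_022_a

theorem s24_pp_022_a : ∃ t, chk3 f_pp_022_a t 16 7 1 = true := ex3_b k6_pp_022_a s23_pp_022_a

theorem s25_pp_022_a : ∃ t, chk3 f_pp_022_a t 8 7 1 = true := ex3_a s24_pp_022_a s19_pp_022_a

theorem s26_pp_022_a : ∃ t, chk3 f_pp_022_a t 16 6 1 = true := ex3_a k3_pp_022_a k4_pp_022_a

theorem s27_pp_022_a : ∃ t, chk3 f_pp_022_a t 8 6 1 = true := ex3_a s26_pp_022_a k5_pp_022_a

theorem s28_pp_022_a : ∃ t, chk3 f_pp_022_a t 8 3 1 = true := ex3_b s27_pp_022_a s25_pp_022_a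

theorem s29_pp_022_a : ∃ t, chk3 f_pp_022_a t 4 3 1 = true := ex3_a s28_pp_022_a k15_pp_022_a

theorem s30_pp_022_a : ∃ t, chk3 f_pp_022_a t 8 2 1 = true := ex3_b k0_pp_022_a k1_pp_022_a

theorem s31_pp_022_a : ∃ t, chk3 f_pp_022_a t 4 2 1 = true := ex3_a s30_pp_022_a k2_pp_022_a

theorem s32_pp_022_a : ∃ t, chk3 f_pp_022_a t 4 1 1 = true := ex3_b s31_pp_022_a s29_pp_022_a

theorem s33_pp_022_a : ∃ t, chk3 f_pp_022_a t 2 1 1 = true := ex3_a s32_pp_022_a k16_pp_022_a

theorem s34_pp_022_a : ∃ t, chk3 f_pp_022_a t 1 1 1 = true := ex3_a s33_pp_022_a k17_pp_022_a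

theorem c_pp_022_a : CertNX 0 536870912 0 420477299 1046898278 26843546 3 true true true .pp 0 2 2
    ndN0q0 ndN2q2a pcN2 Cut.none Ext.none :=
  certNX0 (fam := true) (s1 := true) (s2 := true) (a := 0) (b := 2) (c := 2) (cn := .pp) (n1 := ndN0q0) (n2 := ndN2q2a) (pc := pcN2) (cut := Cut.none) (xt := Ext.none) (P1 := 0) (W1 := 536870912) (P2 := 0) (W2 := 420477299) (P3 := 1046898278) (W3 := 26843546) (N0 := 3)
    rfl s34_pp_022_a

noncomputable def f_pp_022_b : ℕ → ℕ → ℕ → ℕ → Bool := onCell 0 536870912 1239849684 370763052 1046898278 26843546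
    (rowNX 3 0 true true true .pp 0 2 2 (qsf 0 536870912 1239849684 370763052 2) ndN0q0 ndN2q2b pcN2 Cut.none Ext.none)

def k0_pp_022_b : ∃ t, chk3 f_pp_022_b t 16 4 1 = true :=
  ⟨(b (c (b (a (b (l 15969440) (l 15777648)) (c (l 15767200) (a (l 15793936) (l 15643344)))) (a (l 15439616) (a (l 15366624) (b (l 15372440) (a (l 15257552) (b (l 15195480) (l 15204920))))))) (a (c (b (a (l 15871616) (l 15706544)) (l 15271120)) (c (b (a (b (l 16047248) (l 15791616)) (a (l 15632168) (l 15836544))) (a (l 15432080) (a (l 15389024) (l 15374280)))) (a (a (b (b (c (l 16092312) (l 16089336)) (l 15780968)) (l 15393488)) (b (l 15705112) (l 15401016))) (l 15389480)))) (b (c (a (c (l 15800104) (l 15565888)) (c (l 15583344) (l 15722928))) (l 15743112)) (a (c (c (l 15359864) (a (l 15369728) (l 15344824))) (l 15324112)) (b (c (l 15419600) (l 15382688)) (c (c (a (l 15020800) (l 15111584)) (l 15208680)) (l 15190560))))))) (c (b (a (b (l 15088528) (a (l 14963056) (l 14948320))) (a (b (b (l 15130216) (l 15056632))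 (l 14959152)) (l 15043808))) (a (l 14797200) (c (l 14823304) (l 14811736)))) (a (b (c (b (a (l 15115768) (a (l 15084304) (l 15075128))) (a (l 14920680) (l 14915240))) (a (c (b (l 15100560) (l 14902608)) (b (l 15022360) (a (c (l 14895008) (l 14886392)) (l 14685192)))) (b (a (l 14946328) (l 15052624)) (a (c (l 14807312) (l 14879200)) (l 14894408))))) (c (l 14756560) (a (c (l 14727944) (a (l 14707120) (l 14707000))) (c (l 14735624) (l 14722848))))) (c (a (b (a (c (l 14966360) (b (b (l 15115432) (l 15035336)) (l 14934368))) (c (l 15012296) (l 15004504))) (c (l 14789192) (l 14775928))) (b (l 15016520) (l 14794928))) (b (b (l 14978200) (l 14900568)) (l 14743064)))))), by decide +kernel⟩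

def k1_pp_022_b : ∃ t, chk3 f_pp_022_b t 17 4 1 = true :=
  ⟨(b (c (a (b (c (a (l 15713368) (a (l 15699912) (b (l 15798224) (l 15497752)))) (a (c (l 15733824) (l 15563528)) (b (l 15517768) (a (l 15578712) (l 15532224))))) (c (b (a (l 15399104) (a (l 15428184) (l 15447832))) (a (l 15267952) (l 15278528))) (a (b (c (a (l 15443200) (l 15416784)) (a (l 15424008) (l 15383608))) (c (l 15281936) (l 15254080))) (a (c (c (l 15262920) (l 15174688)) (l 15296584)) (l 15308368))))) (b (b (c (a (c (l 15779016) (l 15718704)) (a (b (l 15698632) (c (l 15641584) (l 15622568))) (b (l 15703440) (l 15625776)))) (a (l 15687856) (l 15483792))) (c (a (a (c (l 15619240) (b (l 15614520) (l 15533424))) (c (l 15603248) (l 15529480))) (c (l 15570512) (l 15516800))) (a (l 15468144) (l 15502488)))) (c (a (c (l 15403800) (l 15360816)) (c (l 15377152) (l 15321544))) (l 15304032)))) (b (a (a (l 15662712) (l 15443320)) (b (a (l 15664304) (b (l 15668320) (l 15581136))) (a (b (l 15519280) (l 15439720)) (l 15473264))))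 (a (b (a (b (l 15399744) (l 15307552)) (l 15337544)) (l 15197672)) (l 15269208)))) (c (a (c (b (l 15081800) (l 14867424)) (a (c (l 14976776) (b (l 15055696) (l 14836384))) (b (l 15069544) (l 14850392)))) (c (a (b (c (l 15147520) (l 15101960)) (l 14739664)) (b (l 14861472) (l 14896648))) (l 14930848))) (b (l 14997920) (l 14771584)))), by decide +kernel⟩

def k2_pp_022_b : ∃ t, chk3 f_pp_022_b t 9 4 1 = true :=
  ⟨(a (b (a (b (a (a (c (l 15556672) (l 15541368)) (l 15557888)) (l 15502288)) (c (l 15321296) (l 15282552))) (c (b (l 15746696) (l 15485608)) (l 15348392))) (a (c (b (l 15061424) (l 14841464)) (b (l 15012104) (l 14783016))) (b (c (l 15226112) (l 15173568)) (c (l 15013040) (l 14951584))))) (b (c (b (a (l 15929152) (l 16078792)) (a (l 15668600) (l 15818872))) (b (a (l 15903696) (l 16058048)) (a (l 15632464) (l 15787280)))) (b (a (c (l 15410344) (l 15363432)) (c (b (l 15634000) (l 15550464)) (l 15369272))) (c (a (l 15254376) (l 15520240)) (a (l 15200888) (l 15475960)))))), by decide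 +kernel⟩

def k3_pp_022_b : ∃ t, chk3 f_pp_022_b t 4 5 1 = true :=
  ⟨(a (a (c (c (b (l 14569648) (b (l 14320664) (l 14217352))) (b (a (l 14529336) (a (l 14540712) (l 14558520))) (a (l 14199240) (b (l 14299960) (l 14224184))))) (b (a (c (l 14499256) (a (c (l 14468504) (l 14342192)) (c (l 14472928) (l 14457552)))) (c (a (c (l 14528520) (l 14512632)) (l 14529808)) (l 14474096))) (a (c (b (l 14232736) (l 14082520)) (a (c (l 14113832) (l 14088584)) (c (l 14068496) (l 14112368)))) (c (a (c (l 14217760) (l 14198496)) (b (l 14273000) (l 14222448))) (l 14179664))))) (c (b (b (a (c (l 14696064) (c (l 14519592) (l 14654312))) (c (a (l 14733272) (l 14720648)) (l 14642064))) (a (c (l 14523440) (a (l 14498664) (l 14497992))) (c (a (c (l 14605456) (l 14554232)) (l 14496112)) (l 14507752)))) (a (c (b (l 14420664) (l 14407656)) (a (c (l 14380456) (l 14343328)) (l 14412248))) (c (c (l 14579520) (l 14538280)) (l 14475664)))) (b (b (l 14589216) (a (l 14406888) (l 14448384))) (b (l 14360736) (l 14350976)))))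 (b (b (a (a (c (a (l 14662264) (l 14711808)) (l 14620024)) (c (l 14925536) (l 14860408))) (c (l 15378688) (l 15329432))) (a (c (a (l 14626768) (l 14919768)) (l 14707960)) (l 4))) (a (a (c (l 14626616) (l 14559064)) (l 4)) (l 4)))), by decide +kernel⟩

def k4_pp_022_b : ∃ t, chk3 f_pp_022_b t 5 2 1 = true :=
  ⟨(b (a (b (b (a (c (a (l 16139104) (b (l 16247552) (l 16124552))) (a (l 16119840) (l 16022232))) (a (c (b (l 16302648) (l 16231864)) (b (l 16288472) (l 16214520))) (c (l 16408384) (l 16397712)))) (a (c (a (b (l 15945056) (l 15839904)) (l 15888648)) (a (l 15825816) (l 15967856))) (c (l 16092656) (l 16117648)))) (b (a (c (a (l 15755512) (l 15936584)) (a (l 15719920) (l 15907368))) (l 4)) (l 4))) (b (b (a (a (c (l 16542712) (l 16558952)) (l 4)) (l 4)) (l 4)) (l 4))) (l 4)), by decide +kernel⟩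

def k5_pp_022_b : ∃ t, chk3 f_pp_022_b t 2 3 1 = true :=
  ⟨(a (a (b (b (a (c (c (l 14184888) (l 14149840)) (a (c (l 14034608) (c (l 13997896) (l 13967880))) (c (c (l 14185872) (l 14166544)) (l 14127464)))) (l 4)) (l 4)) (l 4)) (l 4)) (l 4)), by decide +kernel⟩

def k6_pp_022_b : ∃ t, chk3 f_pp_022_b t 3 1 1 = true :=
  ⟨(l 4), by decide +kernel⟩

theorem s7_pp_022_b : ∃ t, chk3 f_pp_022_b t 8 4 1 = true := ex3_a k0_pp_022_b k1_pp_022_b

theorem s8_pp_022_b : ∃ t, chk3 f_pp_022_b t 4 4 1 = true := ex3_a s7_pp_022_b k2_pp_022_b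

theorem s9_pp_022_b : ∃ t, chk3 f_pp_022_b t 4 2 1 = true := ex3_b s8_pp_022_b k3_pp_022_b

theorem s10_pp_022_b : ∃ t, chk3 f_pp_022_b t 2 2 1 = true := ex3_a s9_pp_022_b k4_pp_022_b

theorem s11_pp_022_b : ∃ t, chk3 f_pp_022_b t 2 1 1 = true := ex3_b s10_pp_022_b k5_pp_022_b

theorem s12_pp_022_b : ∃ t, chk3 f_pp_022_b t 1 1 1 = true := ex3_a s11_pp_022_b k6_pp_022_b

theorem c_pp_022_b : CertNX 0 536870912 1239849684 370763052 1046898278 26843546 3 true true true .pp 0 2 2
    ndN0q0 ndN2q2b pcN2 Cut.none Ext.none :=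
  certNX0 (fam := true) (s1 := true) (s2 := true) (a := 0) (b := 2) (c := 2) (cn := .pp) (n1 := ndN0q0) (n2 := ndN2q2b) (pc := pcN2) (cut := Cut.none) (xt := Ext.none) (P1 := 0) (W1 := 536870912) (P2 := 1239849684) (W2 := 370763052) (P3 := 1046898278) (W3 := 26843546) (N0 := 3)
    rfl s12_pp_022_b

noncomputable def f_pp_023_a : ℕ → ℕ → ℕ → ℕ → Bool := onCell 1610612736 536870912 0 420477299 1046898278 26843546
    (rowNX 3 2 true true true .up 0 2 3 (qsf 0 536870912 0 420477299 3) ndN0q0 ndN2q2a pcN3 Cut.none Ext.none)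

def k0_pp_023_a : ∃ t, chk3 f_pp_023_a t 1 1 1 = true :=
  ⟨(l 4), by decide +kernel⟩

theorem c_pp_023_a : CertNX 0 536870912 0 420477299 1046898278 26843546 3 true true true .up 0 2 3
    ndN0q0 ndN2q2a pcN3 Cut.none Ext.none :=
  certNX2 (fam := true) (s1 := true) (s2 := true) (a := 0) (b := 2) (c := 3) (cn := .up) (n1 := ndN0q0) (n2 := ndN2q2a) (pc := pcN3) (cut := Cut.none) (xt := Ext.none) (P1 := 0) (W1 := 536870912) (P2 := 0) (W2 := 420477299) (P3 := 1046898278) (W3 := 26843546) (N0 := 3)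
    rfl (fun _ => rfl) k0_pp_023_a

noncomputable def f_pp_023_b : ℕ → ℕ → ℕ → ℕ → Bool := onCell 1610612736 536870912 1239849684 370763052 1046898278 26843546
    (rowNX 3 2 true true true .up 0 2 3 (qsf 0 536870912 1239849684 370763052 3) ndN0q0 ndN2q2b pcN3 Cut.none Ext.none)

def k0_pp_023_b : ∃ t, chk3 f_pp_023_b t 1 1 1 = true :=
  ⟨(a (l 4) (l 4)), by decide +kernel⟩

theorem c_pp_023_b : CertNX 0 536870912 1239849684 370763052 1046898278 26843546 3 true true true .up 0 2 3
    ndN0q0 ndN2q2b pcN3 Cut.none Ext.none :=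
  certNX2 (fam := true) (s1 := true) (s2 := true) (a := 0) (b := 2) (c := 3) (cn := .up) (n1 := ndN0q0) (n2 := ndN2q2b) (pc := pcN3) (cut := Cut.none) (xt := Ext.none) (P1 := 0) (W1 := 536870912) (P2 := 1239849684) (W2 := 370763052) (P3 := 1046898278) (W3 := 26843546) (N0 := 3)
    rfl (fun _ => rfl) k0_pp_023_b

noncomputable def f_pp_033 : ℕ → ℕ → ℕ → ℕ → Bool := onCell 0 536870912 1610612736 469762048 1046898278 26843546
    (rowNX 3 0 true true true .pnn 0 3 3 (qsf 0 536870912 1610612736 469762048 3) ndN0q0 ndN2q3 pcN3 Cut.none Ext.none)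

def k0_pp_033 : ∃ t, chk3 f_pp_033 t 1 1 1 = true :=
  ⟨(a (l 4) (l 4)), by decide +kernel⟩

theorem c_pp_033 : CertNX 0 536870912 1610612736 469762048 1046898278 26843546 3 true true true .pnn 0 3 3
    ndN0q0 ndN2q3 pcN3 Cut.none Ext.none :=
  certNX0 (fam := true) (s1 := true) (s2 := true) (a := 0) (b := 3) (c := 3) (cn := .pnn) (n1 := ndN0q0) (n2 := ndN2q3) (pc := pcN3) (cut := Cut.none) (xt := Ext.none) (P1 := 0) (W1 := 536870912) (P2 := 1610612736) (W2 := 469762048) (P3 := 1046898278) (W3 := 26843546) (N0 := 3)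
    rfl k0_pp_033

noncomputable def f_pp_101 : ℕ → ℕ → ℕ → ℕ → Bool := onCell 536870912 536870912 67108864 469762048 1046898278 26843546
    (rowNX 3 0 true true true .npn 1 0 1 (qsf 536870912 536870912 67108864 469762048 1) ndN0q1 ndN2q0 pcN1 Cut.none Ext.none)

def k0_pp_101 : ∃ t, chk3 f_pp_101 t 1 1 1 = true :=
  ⟨(l 5), by decide +kernel⟩

theorem c_pp_101 : CertNX 536870912 536870912 67108864 469762048 1046898278 26843546 3 true true true .npn 1 0 1
    ndN0q1 ndN2q0 pcN1 Cut.none Ext.none :=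
  certNX0 (fam := true) (s1 := true) (s2 := true) (a := 1) (b := 0) (c := 1) (cn := .npn) (n1 := ndN0q1) (n2 := ndN2q0) (pc := pcN1) (cut := Cut.none) (xt := Ext.none) (P1 := 536870912) (W1 := 536870912) (P2 := 67108864) (W2 := 469762048) (P3 := 1046898278) (W3 := 26843546) (N0 := 3)
    rfl k0_pp_101

noncomputable def f_pp_102 : ℕ → ℕ → ℕ → ℕ → Bool := onCell 536870912 536870912 67108864 469762048 1046898278 26843546
    (rowNX 3 0 true true true .npp 1 0 2 (qsf 536870912 536870912 67108864 469762048 2) ndN0q1 ndN2q0 pcN2 Cut.none Ext.none)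

def k0_pp_102 : ∃ t, chk3 f_pp_102 t 1 1 1 = true :=
  ⟨(l 5), by decide +kernel⟩

theorem c_pp_102 : CertNX 536870912 536870912 67108864 469762048 1046898278 26843546 3 true true true .npp 1 0 2
    ndN0q1 ndN2q0 pcN2 Cut.none Ext.none :=
  certNX0 (fam := true) (s1 := true) (s2 := true) (a := 1) (b := 0) (c := 2) (cn := .npp) (n1 := ndN0q1) (n2 := ndN2q0) (pc := pcN2) (cut := Cut.none) (xt := Ext.none) (P1 := 536870912) (W1 := 536870912) (P2 := 67108864) (W2 := 469762048) (P3 := 1046898278) (W3 := 26843546) (N0 := 3)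
    rfl k0_pp_102

noncomputable def f_pp_112 : ℕ → ℕ → ℕ → ℕ → Bool := onCell 536870912 536870912 536870912 536870912 1046898278 26843546
    (rowNX 3 0 true true true .dn 1 1 2 (qsf 536870912 536870912 536870912 536870912 2) ndN0q1 ndN2q1 pcN2 Cut.none Ext.none)

def k0_pp_112 : ∃ t, chk3 f_pp_112 t 1 1 1 = true :=
  ⟨(l 4), by decide +kernel⟩

theorem c_pp_112 : CertNX 536870912 536870912 536870912 536870912 1046898278 26843546 3 true true true .dn 1 1 2
    ndN0q1 ndN2q1 pcN2 Cut.none Ext.none :=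
  certNX0 (fam := true) (s1 := true) (s2 := true) (a := 1) (b := 1) (c := 2) (cn := .dn) (n1 := ndN0q1) (n2 := ndN2q1) (pc := pcN2) (cut := Cut.none) (xt := Ext.none) (P1 := 536870912) (W1 := 536870912) (P2 := 536870912) (W2 := 536870912) (P3 := 1046898278) (W3 := 26843546) (N0 := 3)
    rfl k0_pp_112

noncomputable def f_pp_113 : ℕ → ℕ → ℕ → ℕ → Bool := onCell 536870912 536870912 536870912 536870912 1046898278 26843546
    (rowNX 3 0 true true true .nn 1 1 3 (qsf 536870912 536870912 536870912 536870912 3) ndN0q1 ndN2q1 pcN3 Cut.none Ext.none)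

def k0_pp_113 : ∃ t, chk3 f_pp_113 t 1 1 1 = true :=
  ⟨(l 4), by decide +kernel⟩

theorem c_pp_113 : CertNX 536870912 536870912 536870912 536870912 1046898278 26843546 3 true true true .nn 1 1 3
    ndN0q1 ndN2q1 pcN3 Cut.none Ext.none :=
  certNX0 (fam := true) (s1 := true) (s2 := true) (a := 1) (b := 1) (c := 3) (cn := .nn) (n1 := ndN0q1) (n2 := ndN2q1) (pc := pcN3) (cut := Cut.none) (xt := Ext.none) (P1 := 536870912) (W1 := 536870912) (P2 := 536870912) (W2 := 536870912) (P3 := 1046898278) (W3 := 26843546) (N0 := 3)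
    rfl k0_pp_113

noncomputable def f_pp_123_a : ℕ → ℕ → ℕ → ℕ → Bool := onCell 536870912 536870912 0 420477299 1046898278 26843546
    (rowNX 3 0 true true true .npn 1 2 3 (qsf 536870912 536870912 0 420477299 3) ndN0q1 ndN2q2a pcN3 Cut.none Ext.none)

def k0_pp_123_a : ∃ t, chk3 f_pp_123_a t 1 1 1 = true :=
  ⟨(l 4), by decide +kernel⟩

theorem c_pp_123_a : CertNX 536870912 536870912 0 420477299 1046898278 26843546 3 true true true .npn 1 2 3
    ndN0q1 ndN2q2a pcN3 Cut.none Ext.none :=
  certNX0 (fam := true) (s1 := true) (s2 := true) (a := 1) (b := 2) (c := 3) (cn := .npn) (n1 := ndN0q1) (n2 := ndN2q2a) (pc := pcN3) (cut := Cut.none) (xt := Ext.none) (P1 := 536870912) (W1 := 536870912) (P2 := 0) (W2 := 420477299) (P3 := 1046898278) (W3 := 26843546) (N0 := 3)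
    rfl k0_pp_123_a

noncomputable def f_pp_123_b : ℕ → ℕ → ℕ → ℕ → Bool := onCell 536870912 536870912 1239849684 370763052 1046898278 26843546
    (rowNX 3 0 true true true .npn 1 2 3 (qsf 536870912 536870912 1239849684 370763052 3) ndN0q1 ndN2q2b pcN3 Cut.none Ext.none)

def k0_pp_123_b : ∃ t, chk3 f_pp_123_b t 1 1 1 = true :=
  ⟨(l 4), by decide +kernel⟩

theorem c_pp_123_b : CertNX 536870912 536870912 1239849684 370763052 1046898278 26843546 3 true true true .npn 1 2 3
    ndN0q1 ndN2q2b pcN3 Cut.none Ext.none :=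
  certNX0 (fam := true) (s1 := true) (s2 := true) (a := 1) (b := 2) (c := 3) (cn := .npn) (n1 := ndN0q1) (n2 := ndN2q2b) (pc := pcN3) (cut := Cut.none) (xt := Ext.none) (P1 := 536870912) (W1 := 536870912) (P2 := 1239849684) (W2 := 370763052) (P3 := 1046898278) (W3 := 26843546) (N0 := 3)
    rfl k0_pp_123_b

noncomputable def f_pp_133 : ℕ → ℕ → ℕ → ℕ → Bool := onCell 536870912 536870912 1610612736 469762048 1046898278 26843546
    (rowNX 3 0 true true true .dn 1 3 3 (qsf 536870912 536870912 1610612736 469762048 3) ndN0q1 ndN2q3 pcN3 Cut.none Ext.none)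

def k0_pp_133 : ∃ t, chk3 f_pp_133 t 1 1 1 = true :=
  ⟨(l 4), by decide +kernel⟩

theorem c_pp_133 : CertNX 536870912 536870912 1610612736 469762048 1046898278 26843546 3 true true true .dn 1 3 3
    ndN0q1 ndN2q3 pcN3 Cut.none Ext.none :=
  certNX0 (fam := true) (s1 := true) (s2 := true) (a := 1) (b := 3) (c := 3) (cn := .dn) (n1 := ndN0q1) (n2 := ndN2q3) (pc := pcN3) (cut := Cut.none) (xt := Ext.none) (P1 := 536870912) (W1 := 536870912) (P2 := 1610612736) (W2 := 469762048) (P3 := 1046898278) (W3 := 26843546) (N0 := 3)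
    rfl k0_pp_133

noncomputable def f_pp_202 : ℕ → ℕ → ℕ → ℕ → Bool := onCell 0 536870912 67108864 469762048 1046898278 26843546
    (rowNX 3 0 true true true .pp 2 0 2 (qsf 0 536870912 67108864 469762048 2) ndN0q2 ndN2q0 pcN2 Cut.none Ext.none)

def k0_pp_202 : ∃ t, chk3 f_pp_202 t 1 1 1 = true :=
  ⟨(l 5), by decide +kernel⟩

theorem c_pp_202 : CertNX 0 536870912 67108864 469762048 1046898278 26843546 3 true true true .pp 2 0 2
    ndN0q2 ndN2q0 pcN2 Cut.none Ext.none :=
  certNX0 (fam := true) (s1 := true) (s2 := true) (a := 2) (b := 0) (c := 2) (cn := .pp) (n1 := ndN0q2) (n2 := ndN2q0) (pc := pcN2) (cut := Cut.none) (xt := Ext.none) (P1 := 0) (W1 := 536870912) (P2 := 67108864) (W2 := 469762048) (P3 := 1046898278) (W3 := 26843546) (N0 := 3)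
    rfl k0_pp_202

noncomputable def f_pp_203 : ℕ → ℕ → ℕ → ℕ → Bool := onCell 0 536870912 67108864 469762048 1046898278 26843546
    (rowNX 3 0 true true true .up 2 0 3 (qsf 0 536870912 67108864 469762048 3) ndN0q2 ndN2q0 pcN3 Cut.none Ext.none)

def k0_pp_203 : ∃ t, chk3 f_pp_203 t 1 1 1 = true :=
  ⟨(l 5), by decide +kernel⟩

theorem c_pp_203 : CertNX 0 536870912 67108864 469762048 1046898278 26843546 3 true true true .up 2 0 3
    ndN0q2 ndN2q0 pcN3 Cut.none Ext.none :=
  certNX0 (fam := true) (s1 := true) (s2 := true) (a := 2) (b := 0) (c := 3) (cn := .up) (n1 := ndN0q2) (n2 := ndN2q0) (pc := pcN3) (cut := Cut.none) (xt := Ext.none) (P1 := 0) (W1 := 536870912) (P2 := 67108864) (W2 := 469762048) (P3 := 1046898278) (W3 := 26843546) (N0 := 3)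
    rfl k0_pp_203

noncomputable def f_pp_213 : ℕ → ℕ → ℕ → ℕ → Bool := onCell 0 536870912 536870912 536870912 1046898278 26843546
    (rowNX 3 0 true true true .pnn 2 1 3 (qsf 0 536870912 536870912 536870912 3) ndN0q2 ndN2q1 pcN3 Cut.none Ext.none)

def k0_pp_213 : ∃ t, chk3 f_pp_213 t 1 1 1 = true :=
  ⟨(l 4), by decide +kernel⟩

theorem c_pp_213 : CertNX 0 536870912 536870912 536870912 1046898278 26843546 3 true true true .pnn 2 1 3
    ndN0q2 ndN2q1 pcN3 Cut.none Ext.none :=
  certNX0 (fam := true) (s1 := true) (s2 := true) (a := 2) (b := 1) (c := 3) (cn := .pnn) (n1 := ndN0q2) (n2 := ndN2q1) (pc := pcN3) (cut := Cut.none) (xt := Ext.none) (P1 := 0) (W1 := 536870912) (P2 := 536870912) (W2 := 536870912) (P3 := 1046898278) (W3 := 26843546) (N0 := 3)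
    rfl k0_pp_213

noncomputable def f_pm_001 : ℕ → ℕ → ℕ → ℕ → Bool := onCell 0 536870912 67108864 469762048 1046898278 26843546
    (rowNX 3 0 true true false .up 0 0 1 (qsf 0 536870912 67108864 469762048 1) ndN0q0 ndN2q0 pcN1 Cut.none Ext.none)

def k0_pm_001 : ∃ t, chk3 f_pm_001 t 1 1 1 = true :=
  ⟨(l 3), by decide +kernel⟩

theorem c_pm_001 : CertNX 0 536870912 67108864 469762048 1046898278 26843546 3 true true false .up 0 0 1
    ndN0q0 ndN2q0 pcN1 Cut.none Ext.none :=
  certNX0 (fam := true) (s1 := true) (s2 := false) (a := 0) (b := 0) (c := 1) (cn := .up) (n1 := ndN0q0) (n2 := ndN2q0) (pc := pcN1) (cut := Cut.none) (xt := Ext.none) (P1 := 0) (W1 := 536870912) (P2 := 67108864) (W2 := 469762048) (P3 := 1046898278) (W3 := 26843546) (N0 := 3)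
    rfl k0_pm_001

noncomputable def f_pm_011 : ℕ → ℕ → ℕ → ℕ → Bool := onCell 0 536870912 536870912 536870912 1046898278 26843546
    (rowNX 3 1 true true false .pnn 0 1 1 (qsf 0 536870912 536870912 536870912 1) ndN0q0 ndN2q1 pcN1 Cut.none Ext.none)

def k0_pm_011 : ∃ t, chk3 f_pm_011 t 1 1 1 = true :=
  ⟨(l 3), by decide +kernel⟩

theorem c_pm_011 : CertNX 0 536870912 536870912 536870912 1046898278 26843546 3 true true false .pnn 0 1 1
    ndN0q0 ndN2q1 pcN1 Cut.none Ext.none :=
  certNX1 (fam := true) (s1 := true) (s2 := false) (a := 0) (b := 1) (c := 1) (cn := .pnn) (n1 := ndN0q0) (n2 := ndN2q1) (pc := pcN1) (cut := Cut.none) (xt := Ext.none) (P1 := 0) (W1 := 536870912) (P2 := 536870912) (W2 := 536870912) (P3 := 1046898278) (W3 := 26843546) (N0 := 3)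
    rfl (fun _ => rfl) k0_pm_011

noncomputable def f_pm_012 : ℕ → ℕ → ℕ → ℕ → Bool := onCell 1073741824 536870912 536870912 536870912 1046898278 26843546
    (rowNX 3 2 true true false .pnp 0 1 2 (qsf 0 536870912 536870912 536870912 2) ndN0q0 ndN2q1 pcN2 Cut.none Ext.none)

def k0_pm_012 : ∃ t, chk3 f_pm_012 t 4 1 1 = true :=
  ⟨(a (l 3) (a (b (b (b (a (l 3) (l 2)) (l 3)) (l 3)) (l 3)) (b (b (b (l 2) (a (b (a (a (c (l 16771344) (l 16771136)) (l 2)) (l 2)) (a (a (l 3) (c (l 16777200) (l 16777200))) (c (l 294373029127) (l 16774832)))) (b (l 2) (a (c (a (l 16772448) (l 16766512)) (a (l 16772280) (l 16766136))) (a (c (l 16748960) (l 16747968)) (l 16715384)))))) (b (a (a (l 3) (c (c (l 517711325431) (l 570861534615)) (c (l 606831885431) (l 626696108887)))) (c (a (a (a (l 16775912) (l 16775328)) (l 16774440)) (a (c (l 16768248) (l 16768096)) (c (l 16758680) (l 16758352)))) (a (c (l 586430794151) (l 16774304)) (c (a (l 16767936) (l 16758024)) (a (l 16767776) (l 16757688)))))) (a (l 3) (c (a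 (c (a (l 601463194919) (l 16776768)) (l 592873245207)) (a (l 16776096) (l 16775328))) (a (c (l 606295017895) (l 621864274247)) (c (l 540796769719) (l 16775040))))))) (b (a (l 3) (a (l 3) (b (b (c (l 543481119479) (l 527374991623)) (c (l 709910826791) (l 16638976))) (l 3)))) (l 3))))), by decide +kernel⟩

def k1_pm_012 : ∃ t, chk3 f_pm_012 t 5 2 1 = true :=
  ⟨(a (a (a (a (b (b (l 2) (c (l 16639992) (l 16635168))) (b (a (b (l 16693968) (c (l 16752952) (l 16752096))) (c (l 16695784) (l 16692920))) (c (a (c (l 16769616) (l 16769488)) (c (l 16759392) (l 16759080))) (a (c (l 16769352) (l 16769216)) (c (l 16758768) (l 16758448)))))) (b (l 2) (b (c (l 16607968) (l 16623736)) (b (c (l 16689568) (l 16686488)) (a (c (a (l 16762016) (l 16742808)) (l 16751736)) (l 16707192)))))) (b (l 2) (c (a (b (l 16485944) (l 16567008)) (a (b (l 16453912) (l 16528792)) (a (b (b (l 16440392) (l 16455472)) (l 16502688)) (a (a (a (b (l 16456320) (l 16493160)) (b (a (l 16463344) (b (l 16489184) (l 16453048))) (l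 16488192))) (b (l 16475272) (l 16486184))) (b (l 16479944) (l 16489240)))))) (a (b (l 16519136) (l 16603040)) (a (b (l 16442568) (l 16520080)) (b (a (b (l 16428568) (l 16444184)) (a (a (a (l 16445056) (b (l 16452128) (l 16443384))) (l 16464672)) (l 16469512))) (a (l 16493056) (b (l 16428472) (l 16496896))))))))) (b (l 2) (b (b (c (l 16604656) (l 16598600)) (c (l 16518216) (l 16552536))) (c (l 16498304) (l 16532672))))) (b (l 2) (c (a (b (l 16729160) (l 16705264)) (l 16777152)) (a (b (l 16727472) (l 16702744)) (l 16777152))))), by decide +kernel⟩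

def k2_pm_012 : ∃ t, chk3 f_pm_012 t 40 3 1 = true :=
  ⟨(a (b (b (c (b (c (l 16775896) (l 16775880)) (c (l 16683736) (l 16703440))) (b (l 16775848) (l 222968901111))) (b (c (c (l 16522808) (l 16561048)) (l 567102856903)) (b (c (l 851107439207) (l 16440216)) (l 3)))) (l 3)) (b (b (c (a (b (c (l 16770136) (l 16770016)) (l 16703784)) (b (a (l 16760752) (l 16738760)) (a (l 16703104) (l 16658312)))) (a (b (l 16769832) (l 16701200)) (b (l 16749208) (l 16634600)))) (c (b (c (l 16564368) (l 16560656)) (c (b (l 16454096) (l 16332664)) (b (l 16448464) (l 16324904)))) (b (c (l 16556880) (l 16553056)) (c (l 16317376) (l 16373400))))) (b (a (b (c (b (l 16149000) (l 3)) (l 1144237802343)) (l 3)) (b (c (l 15952424) (l 16032016)) (c (b (l 15840256) (l 15799968)) (l 832315521655)))) (l 3)))), by decide +kernel⟩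

def k3_pm_012 : ∃ t, chk3 f_pm_012 t 41 6 1 = true :=
  ⟨(a (a (b (b (l 16678288) (a (c (l 16672728) (l 16690712)) (l 16678152))) (c (b (a (l 16560880) (l 16535608)) (b (l 16451152) (l 16328600))) (b (c (l 16551176) (l 16547232)) (l 16292808)))) (b (b (l 16642760) (l 16633840)) (a (c (b (l 16545016) (b (l 16447456) (l 16328256))) (b (l 16536744) (b (l 16435856) (l 16312488)))) (b (l 16521912) (b (l 16426792) (c (c (l 16326000) (l 16318104)) (l 16306024))))))) (c (b (a (b (l 16586008) (l 16623232)) (a (b (l 16550904) (l 16600592)) (b (l 16513560) (l 16547272)))) (a (b (l 16496448) (l 16280568)) (a (b (l 16468248) (l 16286712)) (b (l 16432456) (b (l 16346840) (l 16228856)))))) (b (a (l 16530328) (a (l 16553776) (b (l 16526016) (l 16585440)))) (a (b (l 16486368) (l 16327976)) (a (b (l 16457256) (l 16290768)) (b (l 16442008) (b (l 16331312) (l 16209088)))))))), by decide +kernel⟩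

def k4_pm_012 : ∃ t, chk3 f_pm_012 t 41 7 1 = true :=
  ⟨(a (a (b (b (c (l 16036120) (l 16031808)) (c (b (l 15812736) (l 15760712)) (b (l 15779008) (l 15725672)))) (b (c (l 15707864) (l 15672024)) (l 3))) (b (b (c (c (l 15976736) (l 15985200)) (c (l 16035424) (l 16022536))) (c (b (a (l 15794904) (l 15787160)) (l 15721840)) (c (l 15732608) (l 15714608)))) (b (c (c (l 15675920) (l 15657504)) (c (l 15638808) (l 15619800))) (c (c (l 15614528) (l 15595928)) (l 15525480))))) (a (a (b (c (b (c (l 16032592) (l 16040912)) (b (l 15780704) (l 15693072))) (b (c (l 16028072) (l 16015032)) (b (l 15745736) (l 15655432)))) (c (b (l 15636192) (l 15572384)) (b (l 15597616) (l 15533320)))) (b (b (c (l 16024264) (l 15997632)) (a (c (b (l 15773240) (l 15678448)) (b (l 15737968) (l 15640240))) (b (l 15741280) (c (l 15664304) (l 15625536))))) (c (b (c (l 15624560) (l 15605160)) (c (l 15560432) (l 15540808))) (b (c (l 15585464) (l 15565448)) (l 15510752))))) (a (b (b (c (l 15991688) (l 15963712)) (a (b (l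 15722936) (l 15619720)) (b (l 15701624) (l 15587096)))) (b (a (c (c (l 15604968) (l 15585192)) (c (l 15565104) (l 15544704))) (a (c (l 15580728) (l 15539976)) (l 15540712))) (a (c (l 15534424) (l 15493928)) (a (c (l 15525696) (l 15484872)) (c (c (l 15526208) (l 15505936)) (b (l 15489696) (l 15464928))))))) (b (b (c (b (l 16054680) (l 15877600)) (l 15916600)) (c (b (l 15698088) (l 15571184)) (b (l 15659744) (l 15528656)))) (b (c (b (l 15538712) (l 15514320)) (l 15483136)) (b (c (l 15495256) (l 15452664)) (a (a (a (c (l 15498600) (l 15457280)) (a (c (l 15489512) (l 15447824)) (l 15455744))) (l 15447144)) (l 15438936)))))))), by decide +kernel⟩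

def k5_pm_012 : ∃ t, chk3 f_pm_012 t 21 3 1 = true :=
  ⟨(b (b (c (b (l 16587824) (l 16616112)) (l 16543528)) (c (b (l 16476816) (l 16286952)) (b (l 16466016) (l 16290936)))) (b (b (c (l 15981464) (l 15953000)) (a (c (l 15621664) (l 15580688)) (l 15605744))) (b (c (b (l 15415208) (l 15343976)) (a (l 15385312) (l 15277704))) (c (b (l 15312200) (l 15287264)) (l 15081840))))), by decide +kernel⟩

def k6_pm_012 : ∃ t, chk3 f_pm_012 t 11 3 1 = true :=
  ⟨(b (b (a (b (l 16707368) (l 16630648)) (c (l 16741360) (l 16740096))) (a (c (l 16280216) (l 16331272)) (b (l 16559264) (l 16383944)))) (b (c (a (l 15677696) (l 15871456)) (a (l 15728640) (l 15839664))) (b (a (c (b (l 15369888) (l 15190240)) (l 15231560)) (c (l 15292032) (l 15239904))) (b (a (c (a (l 15092568) (l 15007752)) (l 14997816)) (l 14961776)) (a (c (l 14977144) (l 14915248)) (c (l 14806256) (l 14737192))))))), by decide +kernel⟩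

def k7_pm_012 : ∃ t, chk3 f_pm_012 t 3 1 1 = true :=
  ⟨(b (b (l 2) (a (a (c (l 16777216) (l 16777216)) (l 2)) (l 2))) (b (a (b (c (a (l 16741400) (l 16741400)) (a (l 16740144) (l 16740144))) (a (c (l 16415192) (l 16362744)) (c (l 16436160) (l 16404688)))) (b (l 2) (a (b (l 2) (l 16383992)) (l 2)))) (a (b (a (c (l 15787616) (l 15839712)) (c (l 15808584) (l 15839712))) (a (c (b (l 15292064) (l 14892688)) (b (l 15239936) (l 14826536))) (c (b (l 15292064) (l 14892688)) (b (l 15239936) (l 14826536))))) (b (a (b (l 16044816) (l 15662120)) (b (l 2) (l 15662120))) (c (a (b (l 15292064) (l 14892688)) (l 15010216)) (a (b (l 15239936) (l 14826536)) (l 14993080))))))), by decide +kernel⟩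

theorem s8_pm_012 : ∃ t, chk3 f_pm_012 t 41 3 1 = true := ex3_b k3_pm_012 k4_pm_012

theorem s9_pm_012 : ∃ t, chk3 f_pm_012 t 20 3 1 = true := ex3_a k2_pm_012 s8_pm_012

theorem s10_pm_012 : ∃ t, chk3 f_pm_012 t 10 3 1 = true := ex3_a s9_pm_012 k5_pm_012

theorem s11_pm_012 : ∃ t, chk3 f_pm_012 t 5 3 1 = true := ex3_a s10_pm_012 k6_pm_012

theorem s12_pm_012 : ∃ t, chk3 f_pm_012 t 5 1 1 = true := ex3_b k1_pm_012 s11_pm_012

theorem s13_pm_012 : ∃ t, chk3 f_pm_012 t 2 1 1 = true := ex3_a k0_pm_012 s12_pm_012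

theorem s14_pm_012 : ∃ t, chk3 f_pm_012 t 1 1 1 = true := ex3_a s13_pm_012 k7_pm_012

theorem c_pm_012 : CertNX 0 536870912 536870912 536870912 1046898278 26843546 3 true true false .pnp 0 1 2
    ndN0q0 ndN2q1 pcN2 Cut.none Ext.none :=
  certNX2 (fam := true) (s1 := true) (s2 := false) (a := 0) (b := 1) (c := 2) (cn := .pnp) (n1 := ndN0q0) (n2 := ndN2q1) (pc := pcN2) (cut := Cut.none) (xt := Ext.none) (P1 := 0) (W1 := 536870912) (P2 := 536870912) (W2 := 536870912) (P3 := 1046898278) (W3 := 26843546) (N0 := 3)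
    rfl (fun _ => rfl) s14_pm_012

end Pool.Agent.Strip051.G.IE1.Tab.C.NA02

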