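import Pool.Agent.Strip051.G.IE1.Tab

/-! # Certificates N15 (generated) -/

set_option linter.all false
set_option maxRecDepth 100000

namespace Pool.Agent.Strip051.G.IE1.Tab.C.NA02

open Pool.Agent.Strip051.PB Pool.Agent.Strip051.PB.T
open Pool.Agent.Strip051.G.IE1.Tab

noncomputable def f_pm_022_a : ℕ → ℕ → ℕ → ℕ → Bool := onCell 0 536870912 0 420477299 1046898278 26843546
    (rowNX 3 0 true true false .pp 0 2 2 (qsf 0 536870912 0 420477299 2) ndN0q0 ndN2q2a pcN2 Cut.none Ext.none)

def k0_pm_022_a : ∃ t, chk3 f_pm_022_a t 8 4 1 = true :=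
  ⟨(a (c (a (b (l 15421960) (l 15479008)) (c (b (l 15096112) (l 15148232)) (b (l 15088808) (a (l 15214600) (l 15063072))))) (a (c (b (l 15398184) (l 15372944)) (a (c (l 15467080) (b (a (l 15508576) (l 15411048)) (a (l 15444504) (l 15471648)))) (c (b (l 15166064) (a (l 15395848) (l 15317488))) (l 15318312)))) (c (a (c (l 15083864) (b (l 15146368) (l 15180888))) (b (l 14990408) (l 14896544))) (l 15061144)))) (c (a (a (c (l 14918768) (c (l 14758928) (b (l 14865440) (l 14915384)))) (c (c (l 14805752) (b (l 14777008) (l 14823808))) (c (b (l 14735064) (l 14782304)) (l 14710176)))) (c (a (c (b (l 14662032) (l 14706192)) (b (l 14611176) (l 14655744))) (c (b (l 14493576) (l 14535528)) (l 14453880))) (l 14495272))) (b (l 14560296) (l 14524024)))), by decide +kernel⟩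

def k1_pm_022_a : ∃ t, chk3 f_pm_022_a t 8 10 1 = true :=
  ⟨(a (c (a (l 15661224) (c (l 15319056) (a (l 15391176) (l 15234736)))) (a (c (l 15434544) (a (c (l 15726976) (a (l 15577256) (l 15664784))) (c (a (l 15542736) (l 15503800)) (l 15532176)))) (c (a (c (l 15390672) (l 15298776)) (l 15071496)) (l 15264824)))) (c (a (c (a (l 15102488) (c (l 14982800) (l 14983328))) (a (c (l 15113072) (l 15082920)) (c (l 14943352) (l 14892352)))) (c (a (c (l 14859392) (l 14726528)) (c (a (l 14728736) (l 14614008)) (l 14620912))) (l 14667672))) (l 14625048))), by decide +kernel⟩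

def k2_pm_022_a : ∃ t, chk3 f_pm_022_a t 16 11 1 = true :=
  ⟨(b (c (a (a (l 15953584) (l 15792256)) (c (l 15532488) (a (l 15611464) (l 15449520)))) (a (c (a (l 15959936) (l 15782080)) (a (c (l 15914048) (a (a (l 15909952) (l 15938944)) (l 15904552))) (c (a (l 15819424) (l 15735720)) (l 15767704)))) (c (a (c (l 15614112) (l 15608224)) (l 15416240)) (l 15490768)))) (a (c (a (b (b (l 16071656) (a (l 16093792) (a (l 16094992) (l 16075160)))) (a (l 16033304) (a (l 16086696) (b (l 16096816) (l 16093192))))) (b (b (l 15907816) (a (l 16002904) (a (l 15931984) (l 15886360)))) (c (a (l 16046144) (l 15962368)) (l 15849248)))) (a (c (b (a (l 16078720) (l 16058000)) (l 15874696)) (a (c (l 15897216) (b (c (l 16072224) (a (l 16058816) (l 16083088))) (l 15903440))) (c (b (l 16057440) (l 16071000)) (b (c (l 15928312) (l 16053824)) (c (l 16004704) (l 16067336)))))) (c (b (a (l 15968912) (a (l 15907264) (l 15858336))) (a (l 16034792) (l 15832400))) (a (c (c (l 15986640) (l 15775968)) (l 15996736)) (b (a (b (l 15872736)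 (l 15924456)) (l 15856376)) (l 15741688)))))) (c (a (b (l 15754072) (a (a (b (l 15882376) (l 15904664)) (l 15853016)) (c (l 15791504) (l 15793704)))) (c (b (l 15581616) (l 15671632)) (b (l 15585160) (c (l 15681280) (l 15620520))))) (c (a (c (b (l 15755056) (a (l 15881752) (l 15798824))) (b (l 15750496) (a (a (l 15847664) (l 15867128)) (l 15797952)))) (c (b (l 15584752) (a (l 15730152) (l 15636920))) (l 15598264))) (b (l 15633344) (a (a (l 15859712) (l 15770840)) (l 15635560))))))), by decide +kernel⟩

def k3_pm_022_a : ∃ t, chk3 f_pm_022_a t 17 11 1 = true :=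
  ⟨(a (c (a (c (b (l 15307816) (b (l 15437624) (l 15530296))) (b (c (l 15321360) (l 15293216)) (c (b (l 15453048) (l 15547288)) (b (l 15426160) (a (l 15573656) (l 15461392)))))) (c (b (c (l 15181768) (l 15184216)) (c (l 15353056) (b (l 15311376) (l 15405096)))) (b (c (l 15146176) (l 15097128)) (c (a (c (l 15388072) (l 15341528)) (l 15255864)) (l 15273496))))) (b (l 15147528) (b (l 15281960) (a (l 15466848) (l 15291656))))) (c (c (a (c (a (l 15189968) (l 15102416)) (c (l 14914960) (l 15059096))) (c (a (c (l 15016672) (l 14961608)) (l 14883640)) (l 14895056))) (l 14949656)) (l 14902472))), by decide +kernel⟩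

def k4_pm_022_a : ∃ t, chk3 f_pm_022_a t 9 2 1 = true :=
  ⟨(a (b (a (a (b (c (l 14319288) (l 14231528)) (c (b (l 14320168) (l 14342224)) (l 14250096))) (b (l 14350424) (l 14318120))) (l 14588040)) (a (b (a (c (l 14465920) (l 14383792)) (c (b (l 14367576) (l 14426192)) (l 14321376))) (c (a (l 14733640) (l 14615792)) (l 14599896))) (b (l 14568752) (a (c (b (l 14564712) (l 14660256)) (l 14546952)) (c (l 14725408) (l 14651904)))))) (b (c (l 14854248) (l 15045624)) (b (c (l 15088024) (l 15027144)) (c (l 15118248) (l 15058640))))), by decide +kernel⟩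

def k5_pm_022_a : ∃ t, chk3 f_pm_022_a t 32 12 1 = true :=
  ⟨(c (b (a (c (l 15868024) (l 15941152)) (b (a (c (a (l 16068904) (l 16057320)) (l 16028152)) (l 15996336)) (a (b (l 16034736) (l 15997920)) (c (a (l 16042656) (l 16019856)) (l 16019984))))) (b (a (l 15801512) (a (l 15935696) (a (l 15991920) (b (l 16009656) (l 16008568))))) (c (l 15822584) (l 15809592)))) (c (a (b (l 15930504) (l 15760128)) (b (a (b (l 16046768) (l 16006920)) (c (l 16005144) (l 15885856))) (a (l 15882536) (c (l 15956912) (l 15795112))))) (a (c (b (l 15925864) (l 15752880)) (a (c (l 15792056) (l 15535664)) (b (l 15850376) (l 15759328)))) (b (c (a (c (l 15855280) (b (l 16050440) (l 16009824))) (b (l 15997616) (l 16005536))) (b (l 16009496) (l 15998184))) (c (a (l 15666032) (b (l 15981280) (l 15926128))) (l 15908600)))))), by decide +kernel⟩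

def k6_pm_022_a : ∃ t, chk3 f_pm_022_a t 33 12 1 = true :=
  ⟨(c (b (a (a (b (a (l 15937736) (b (l 15887496) (l 15910808))) (l 15963104)) (b (c (l 15841984) (l 15845072)) (c (a (l 15909784) (l 15748008)) (a (l 15910784) (l 15879936))))) (c (b (l 15731392) (l 15787288)) (c (l 15770968) (a (l 15819536) (l 15756840))))) (a (b (c (a (l 15980592) (l 15940096)) (a (l 15998040) (l 15944944))) (a (c (b (l 16006296) (l 15984032)) (l 15924056)) (c (l 15982672) (l 15988256)))) (c (b (a (a (l 15829120) (l 15860184)) (l 15810944)) (a (l 15927928) (b (l 15856560) (a (l 15900296) (l 15872208))))) (a (b (a (l 15905176) (l 15880456)) (l 15946904)) (b (l 15822848) (c (l 15784648) (a (l 15928992) (l 15896192)))))))) (a (b (c (c (a (l 15783680) (b (l 15850808) (a (l 15930672) (l 15904584)))) (a (b (a (l 15955096) (l 15914936)) (l 15978696)) (b (l 15850400) (a (l 15922536) (l 15870864))))) (a (b (l 15906536) (l 15952520)) (b (l 15824056) (l 15876936)))) (c (c (b (l 15876872) (a (l 15999472) (l 15995872))) (a (b (l 15891376)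 (c (l 16012136) (l 16001176))) (l 15808072))) (b (l 15959032) (a (l 15979808) (l 15972320))))) (b (c (c (a (l 15795920) (l 15731112)) (l 15740624)) (l 15729120)) (c (a (c (b (a (l 15881080) (l 15882904)) (l 15954840)) (b (l 15866088) (l 15920216))) (b (l 15815760) (c (a (l 15754824) (l 15847264)) (l 15854088)))) (b (a (l 15856376) (l 15780456)) (a (l 15911224) (l 15844104))))))), by decide +kernel⟩

def k7_pm_022_a : ∃ t, chk3 f_pm_022_a t 16 13 1 = true :=
  ⟨(c (a (c (b (c (l 15642592) (l 15697488)) (c (b (l 15586920) (l 15509144)) (l 15454400))) (b (c (l 15689432) (l 15682056)) (c (l 15528600) (l 15519592)))) (b (a (b (a (l 15902432) (c (b (l 15952096) (l 15976000)) (b (l 15999760) (l 15981312)))) (c (l 15882752) (l 15883944))) (c (b (a (l 15973720) (l 15905840)) (a (b (l 15967832) (l 15972840)) (l 15974448))) (a (b (l 15993496) (b (l 16008800) (l 15992472))) (c (b (l 15945816) (l 15994072)) (b (l 15964792) (l 16013464)))))) (c (a (c (l 15765040) (l 15759856)) (b (a (l 15917592) (b (a (l 15991128)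 (l 15996808)) (l 15974520))) (l 15880192))) (a (l 15635944) (a (l 15895360) (b (c (l 15976488) (a (l 16017952) (l 16033728))) (c (l 15937848) (l 15956600)))))))) (a (c (c (b (l 15676760) (l 15512648)) (a (l 15462528) (b (l 15757936) (l 15591568)))) (a (c (b (l 15582344) (l 15415504)) (a (c (l 15449408) (b (l 15528048) (l 15338456))) (b (l 15544848) (l 15250192)))) (c (c (a (l 15629544) (l 15633064)) (a (l 15500776) (l 15702056))) (l 15655160)))) (c (b (a (c (a (l 15889536) (b (a (l 15999968) (l 16026264)) (l 15930208))) (a (l 15852720) (a (l 15888160) (l 15857408)))) (b (c (a (l 15981064) (l 15857056)) (l 15939792)) (c (a (c (l 16014944) (l 15974384)) (l 15990040)) (l 15959088)))) (a (c (l 15703104) (c (l 15643776) (l 15757784))) (c (a (l 15818400) (b (c (l 15932448) (l 15969040)) (l 15932528))) (b (l 15933120) (l 15864544))))) (b (a (b (l 15915616) (l 15864768)) (b (l 15930960) (a (l 15961576) (l 15952864)))) (a (l 15737552) (b (l 15903072) (l 15854408))))))), by decide +kernel⟩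

def k8_pm_022_a : ∃ t, chk3 f_pm_022_a t 17 12 1 = true :=
  ⟨(c (a (a (c (b (l 15633392) (l 15655864)) (c (b (l 15651592) (l 15738752)) (b (a (l 15674504) (l 15569536)) (c (l 15704168) (l 15737208))))) (c (c (b (l 15515640) (l 15653016)) (b (a (l 15566936) (l 15489800)) (a (l 15702688) (l 15631032)))) (a (c (b (l 15534488) (l 15608592)) (l 15553024)) (b (l 15372160) (l 15535976))))) (c (b (a (c (a (l 15443504) (c (l 15384528) (l 15343856))) (a (c (l 15412336) (l 15360968)) (l 15282496))) (c (a (c (l 15275248) (l 15221424)) (c (l 15152744) (l 15129984))) (l 15157160))) (c (a (a (l 15588032) (l 15509104)) (c (a (l 15430096) (l 15313232)) (l 15336736))) (a (c (a (l 15558048) (l 15441728)) (l 15466424)) (l 15317000)))) (b (b (l 15172976) (l 15251112)) (l 15202448)))) (a (b (c (l 15378576) (l 15483976)) (c (l 15641976) (l 15624192))) (b (c (l 14977368) (l 15076536)) (c (l 15346936) (l 15323280))))), by decide +kernel⟩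

def k9_pm_022_a : ∃ t, chk3 f_pm_022_a t 34 13 1 = true :=
  ⟨(c (b (c (a (b (a (b (l 15864448) (a (l 15906248) (l 15884000))) (l 15834440)) (a (b (l 15925176) (l 15951328)) (b (l 15886872) (a (l 15927464) (l 15911336))))) (c (l 15798312) (a (l 15846752) (l 15780248)))) (a (c (a (b (a (l 15924768) (l 15908624)) (l 15975216)) (b (l 15857600) (a (b (l 15934032) (l 15966176)) (l 15915336)))) (a (b (c (l 15725312) (l 15773296)) (c (l 15973712) (l 15938072))) (b (l 15806680) (a (l 15769472) (l 15854512))))) (c (a (l 15607200) (l 15716760)) (l 15731328)))) (b (c (a (a (l 15902936) (b (l 15908400) (l 15976800))) (a (a (b (l 15930688) (l 15963376)) (c (l 15916648) (l 15949152))) (c (l 15895376) (l 15894928)))) (a (c (a (l 16024104) (a (l 16007088) (l 15959160))) (a (c (l 16022920) (l 15987496)) (l 15876144))) (a (c (c (a (l 15969224) (l 15919024)) (a (l 15917424) (l 15872304))) (l 15875536)) (l 15824528)))) (c (a (a (b (a (l 15996600) (l 16010704)) (l 15983216)) (c (l 15995792) (l 16024312))) (c (a (l 15983520)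 (b (l 15952896) (l 15987888))) (a (l 15996104) (b (l 15806176) (a (l 16010184) (l 15977224)))))) (a (c (a (l 15941264) (l 15952896)) (a (c (l 16002960) (l 15988488)) (l 15987472))) (a (c (c (l 16003240) (l 15959560)) (l 15938568)) (c (a (b (l 15908280) (l 15941560)) (l 15888416)) (l 15890968))))))) (b (a (b (a (c (l 15853160) (l 15839576)) (l 15777048)) (a (c (l 15913752) (l 15901248)) (c (l 15855952) (l 15842312)))) (c (l 15719184) (l 15702824))) (a (b (c (a (l 15963712) (l 15918720)) (a (l 15952072) (l 15906200))) (c (a (l 15964648) (l 15967760)) (a (l 15952928) (l 15956088)))) (b (a (c (l 15865424) (l 15851800)) (l 15795824)) (a (c (l 15929304) (l 15916824)) (c (l 15776104) (l 15846512))))))), by decide +kernel⟩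

def k10_pm_022_a : ∃ t, chk3 f_pm_022_a t 35 13 1 = true :=
  ⟨(c (c (c (a (b (a (l 15740920) (l 15604112)) (c (l 15811384) (l 15645664))) (b (c (a (l 15592632) (l 15480736)) (l 15502544)) (c (a (l 15760888) (l 15653928)) (l 15548248)))) (a (b (c (a (l 15712016) (l 15600768)) (l 15623672)) (c (a (l 15871808) (l 15765608)) (l 15765776))) (b (l 15483984) (l 15656720)))) (b (a (l 15601208) (l 15467992)) (c (l 15708872) (l 15700376)))) (b (c (l 15514264) (l 15493728)) (c (l 15624608) (l 15649232)))), by decide +kernel⟩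

def k11_pm_022_a : ∃ t, chk3 f_pm_022_a t 16 14 2 = true :=
  ⟨(a (b (b (c (a (b (l 15372848) (b (l 15344328) (c (l 15270520) (l 15321720)))) (l 15374512)) (a (c (l 15337264) (l 15325672)) (l 15480912))) (a (a (a (c (b (a (l 15246344) (b (l 15253472) (a (l 15275232) (l 15341064)))) (l 15266232)) (b (l 15226984) (l 15262832))) (c (b (c (l 15282648) (l 15270640)) (c (l 15283816) (l 15271800))) (b (l 15273448) (l 15274584)))) (c (a (b (l 15332680) (c (c (l 15308624) (l 15302728)) (l 15293848))) (l 15361472)) (c (l 15264424) (l 15315592)))) (c (l 15451752) (l 15431312)))) (a (c (b (b (a (l 15292632) (b (a (l 15301016) (l 15323296)) (c (a (l 15337896) (l 15329160)) (l 15332760)))) (c (l 15331896) (l 15320280))) (c (l 15400192) (l 15388992))) (b (a (l 15302728) (b (a (l 15303344) (b (l 15320848) (l 15320864))) (l 15330896))) (c (l 15377720) (l 15366376)))) (b (c (b (l 15429576) (a (a (c (c (c (l 15361144) (l 15358304)) (l 15354032)) (l 15366432)) (l 15378016)) (l 15451840))) (a (b (l 15371336) (a (c (l 15354944)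 (l 15343384)) (l 15376496))) (l 15438376))) (c (a (b (a (l 15370112) (c (b (l 15380664) (l 15409624)) (l 15395528))) (l 15403568)) (b (c (l 15446312) (l 15435488)) (a (c (l 15417296) (l 15406384)) (b (l 15428416) (c (l 15434344) (l 15423568)))))) (a (b (c (l 15380016) (l 15368664)) (l 15402456)) (b (l 15399488) (a (l 15411080) (c (l 15434560) (l 15426368))))))))) (c (b (b (c (l 15578776) (l 15618824)) (c (l 15633544) (l 15652104))) (c (a (l 15535368) (l 15704216)) (a (l 15548992) (l 15704408)))) (b (c (b (l 15563728) (l 15596488)) (a (b (l 15644128) (l 15593072)) (c (l 15760176) (b (l 15831392) (l 15779024))))) (c (a (l 15544104) (l 15714992)) (a (l 15548736) (a (l 15685760) (l 15776504))))))), by decide +kernel⟩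

def k12_pm_022_a : ∃ t, chk3 f_pm_022_a t 16 14 3 = true :=
  ⟨(a (c (b (a (b (l 15266432) (a (b (a (l 15223024) (l 15248960)) (l 15244368)) (l 15214256))) (c (l 15319024) (b (l 15470296) (l 15419416)))) (a (b (a (l 15278704) (b (a (l 15279304) (l 15298760)) (l 15307648))) (l 15265560)) (b (a (b (l 15355000) (a (l 15328040) (l 15361344))) (c (l 15429528) (l 15430128))) (a (b (a (l 15347624) (l 15363456)) (l 15386592)) (c (b (l 15411320) (l 15414352)) (a (l 15401568) (c (l 15433856) (l 15441328)))))))) (b (a (c (b (l 15294288) (a (l 15224448) (l 15285552))) (a (b (c (l 15244568) (a (l 15216824) (l 15255144))) (c (l 15216864) (a (c (l 15198560) (l 15194712)) (b (l 15214192) (l 15215280))))) (a (b (l 15297496) (c (l 15256616) (l 15251880))) (l 15321768)))) (c (c (a (l 15399120) (l 15359568)) (b (l 15457792) (l 15406264))) (l 15421240))) (a (c (a (l 15292216) (b (b (l 15236200) (l 15295112)) (l 15342272))) (a (c (l 15285048) (c (l 15154448) (l 15275752))) (b (c (a (l 15268488) (l 15291616)) (l 15274344))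 (c (l 15333256) (l 15329200))))) (c (a (b (c (l 15348336) (a (l 15307416) (l 15361528))) (c (l 15368344) (a (l 15361040) (l 15370576)))) (b (l 15423720) (a (b (l 15386776) (l 15396160)) (l 15401792)))) (b (l 15367736) (a (l 15349248) (l 15389568))))))) (c (a (c (b (b (l 15644976) (l 15593392)) (c (l 15553448) (l 15507224))) (b (c (a (l 15586896) (l 15513408)) (b (l 15635208) (l 15582968))) (c (a (l 15516592) (l 15588360)) (l 15537560)))) (b (c (b (c (l 15737088) (l 15805752)) (c (l 15747360) (l 15752848))) (l 15756112)) (c (c (a (l 15692960) (l 15753160)) (l 15642576)) (l 15681800)))) (b (b (l 15693072) (l 15639552)) (l 15529432)))), by decide +kernel⟩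

def k13_pm_022_a : ∃ t, chk3 f_pm_022_a t 16 30 2 = true :=
  ⟨(a (c (b (c (a (l 15482544) (b (l 15468728) (l 15487672))) (a (l 15472064) (a (l 15476008) (l 15479720)))) (c (a (l 15588600) (l 15580264)) (a (l 15579056) (l 15570608)))) (b (a (c (l 15461520) (l 15450904)) (c (l 15467296) (l 15457952))) (c (a (l 15569456) (l 15560896)) (a (l 15559792) (l 15552376))))) (a (c (b (a (b (a (c (b (l 15460360) (l 15465936)) (l 15475112)) (l 15485584)) (a (l 15485304) (c (a (l 15492808) (l 15499088)) (l 15508176)))) (c (b (l 15563000) (l 15555584)) (l 15553416))) (b (a (l 15548048) (c (a (l 15533600) (a (l 15541096) (l 15553080))) (a (l 15546688) (l 15565088)))) (c (l 15598160) (l 15591104)))) (b (a (b (a (c (l 15465584) (l 15461032)) (l 15494176)) (a (l 15489976) (c (l 15501896) (l 15499960)))) (c (l 15551120) (l 15554792))) (a (c (l 15559392) (l 15556400)) (b (c (a (l 15543904) (l 15563904)) (a (l 15543840) (l 15569000))) (l 15528544))))) (c (b (c (l 15669944) (l 15669760)) (a (b (l 15618904) (a (c (b (l 15578088)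 (l 15588928)) (l 15604640)) (l 15632360))) (l 15692640))) (a (b (l 15643328) (b (l 15631120) (c (a (l 15603888) (l 15634248)) (l 15620072)))) (c (l 15715520) (c (l 15739576) (l 15733144))))))), by decide +kernel⟩

def k14_pm_022_a : ∃ t, chk3 f_pm_022_a t 16 31 2 = true :=
  ⟨(a (c (c (b (c (b (l 15676616) (a (c (l 15758880) (l 15756776)) (c (l 15731600) (l 15731328)))) (a (l 15717792) (l 15695144))) (c (b (a (l 15839248) (c (l 15807328) (l 15803272))) (l 15902432)) (a (b (l 15789368) (l 15900056)) (b (l 15776296) (c (l 15881896) (l 15877360)))))) (b (a (l 15711504) (l 15688680)) (b (a (l 15828120) (l 15794336)) (c (a (l 15914544) (l 15873688)) (l 15892248))))) (b (c (a (l 15703064) (l 15680008)) (a (l 15694576) (l 15672544))) (c (a (l 15864056) (l 15826192)) (a (l 15856976) (l 15820016))))) (a (c (c (b (c (c (b (l 15652544) (l 15707872)) (l 15678680)) (l 15675736)) (c (b (c (l 15777016) (l 15771288)) (l 15846000)) (b (l 15767664) (c (l 15843544) (l 15838544))))) (b (l 15671536) (l 15717912))) (c (b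 (l 15667648) (l 15799072)) (b (l 15673288) (l 15742960)))) (c (c (b (a (b (a (l 15643832) (l 15649208)) (c (l 15695424) (l 15696664))) (b (b (l 15685456) (l 15686824)) (a (l 15698040) (b (l 15681712) (l 15693320))))) (c (b (c (l 15756296) (l 15751880)) (l 15821824)) (b (l 15754472) (c (l 15818768) (l 15816240))))) (b (a (b (l 15646448) (l 15696592)) (b (l 15687440) (a (l 15697904) (l 15711080)))) (l 15787064))) (b (b (a (c (l 15648176) (l 15667440)) (c (l 15702288) (c (l 15726216) (l 15698736)))) (a (l 15710496) (c (a (l 15707304) (l 15730296)) (a (l 15735008) (c (l 15756896) (l 15741576)))))) (c (l 15756312) (a (l 15812480) (c (l 15825352) (l 15819272)))))))), by decide +kernel⟩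

def k15_pm_022_a : ∃ t, chk3 f_pm_022_a t 32 15 3 = true :=
  ⟨(c (b (a (b (c (l 15440216) (l 15429784)) (c (l 15550056) (l 15540576))) (c (b (l 15451672) (l 15546920)) (a (l 15489800) (b (c (l 15460112) (l 15460184)) (l 15549816))))) (a (b (c (l 15686016) (l 15677728)) (c (l 15849840) (l 15842984))) (c (b (l 15668144) (l 15816920)) (a (b (l 15667704) (l 15821568)) (c (l 15741936) (a (l 15748840) (l 15605584))))))) (b (a (c (a (l 15473512) (c (l 15477304) (l 15477456))) (a (c (l 15467520) (a (c (l 15463144) (l 15396944)) (c (l 15463864) (l 15462120)))) (c (a (c (l 15473976) (l 15472072)) (l 15476248)) (l 15465864)))) (c (a (c (l 15490120) (c (l 15428072) (l 15484288))) (c (b (l 15456296) (l 15549288)) (l 15484832))) (b (l 15427792) (l 15525560)))) (a (c (b (a (l 15675336) (l 15647136)) (a (l 15845824) (c (l 15830016) (l 15831704)))) (a (c (b (l 15670656) (l 15842256)) (a (c (l 15713176) (b (l 15666928) (a (l 15843672) (l 15838120)))) (c (b (l 15664840) (l 15835064)) (l 15747112)))) (c (c (a (l 15749584)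 (l 15579080)) (b (l 15663248) (l 15827336))) (l 15739176)))) (c (a (c (b (l 15669192) (l 15824064)) (b (c (l 15670632) (l 15664328)) (c (l 15784072) (l 15820048)))) (c (b (l 15605728) (c (l 15820792) (l 15812952))) (l 15725568))) (b (l 15649992) (l 15802712)))))), by decide +kernel⟩

def k16_pm_022_a : ∃ t, chk3 f_pm_022_a t 33 15 3 = true :=
  ⟨(c (b (a (c (b (a (b (l 15485608) (l 15501816)) (c (l 15569272) (l 15572824))) (a (l 15563904) (a (a (l 15579432) (l 15588960)) (b (l 15544376) (l 15613584))))) (b (a (c (b (l 15494312) (l 15510616)) (a (b (l 15468680) (l 15495672)) (l 15489784))) (c (l 15534144) (l 15531776))) (a (c (l 15573112) (l 15559840)) (c (a (l 15533920) (b (l 15553800) (l 15581248))) (l 15555968))))) (c (a (a (b (l 15631368) (b (l 15619136) (c (l 15639488) (l 15616320)))) (c (l 15670024) (l 15631328))) (c (l 15708248) (l 15680432))) (b (l 15645632) (b (l 15632696) (l 15631544))))) (a (c (c (b (l 15678768) (l 15812232)) (a (l 15744688) (b (l 15691184) (l 15821480)))) (c (a (b (l 15684016)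 (l 15822440)) (b (l 15673984) (c (l 15810176) (l 15791208)))) (a (b (l 15671232) (c (l 15815512) (l 15800104))) (l 15715208)))) (b (c (a (c (b (l 15590536) (l 15725800)) (a (l 15682576) (l 15662928))) (a (c (b (l 15682344) (l 15712032)) (l 15667264)) (b (l 15687512) (l 15694824)))) (a (l 15651080) (b (l 15660176) (l 15680424)))) (c (c (a (l 15820424) (c (l 15799368) (l 15775848))) (a (c (l 15804792) (l 15783128)) (l 15767264))) (l 15766896))))) (b (a (b (a (b (l 15452656) (l 15469184)) (l 15519248)) (a (l 15532640) (b (l 15524544) (l 15558352)))) (b (l 15632088) (b (l 15618936) (l 15512880)))) (b (a (l 15642648) (a (b (l 15611064) (l 15663704)) (b (l 15646784) (l 15667288)))) (c (l 15770640) (l 15762728))))), by decide +kernel⟩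

def k17_pm_022_a : ∃ t, chk3 f_pm_022_a t 34 14 2 = true :=
  ⟨(c (b (a (b (a (l 15927296) (b (c (l 16006184) (l 16034760)) (l 16000400))) (l 15882496)) (b (b (c (l 16019288) (a (l 16054144) (l 15997728))) (c (l 15977664) (a (l 16071880) (l 16045088)))) (c (a (l 15957080) (l 16011320)) (a (a (l 16059944) (l 16056136)) (b (l 16083320) (a (l 16125264) (l 16118064))))))) (a (c (l 15864352) (l 15883704)) (c (b (l 15979952) (l 16036376)) (a (l 16033248) (b (a (l 16110648) (l 16069296)) (l 16088400)))))) (b (a (c (b (a (l 15963568) (b (a (l 16051280) (l 16059760)) (l 16025680))) (l 15925400)) (a (c (l 15893352) (l 15899384)) (b (a (l 15978624) (l 15990048)) (l 15943152)))) (b (c (a (c (l 16027608) (l 16005096)) (c (l 15978048) (l 15958776))) (b (l 15958384) (l 15980224))) (c (a (c (l 16061512) (l 16018064)) (c (l 15958872) (l 16023776))) (a (l 15997440) (l 16019680))))) (a (c (a (l 15862984) (l 15901848)) (c (a (l 15860496) (l 15900632)) (l 15855336))) (c (a (c (l 16019432) (l 15975760)) (b (c (l 16061768)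 (l 16042872)) (l 16027680))) (l 15947000))))), by decide +kernel⟩

def k18_pm_022_a : ∃ t, chk3 f_pm_022_a t 35 14 2 = true :=
  ⟨(b (a (c (b (a (c (b (a (l 16011104) (l 15991232)) (a (l 16043688) (c (l 16031320) (l 16033576)))) (a (b (c (l 16000000) (l 15941560)) (l 16008504)) (c (l 15964032) (l 15813160)))) (c (l 15913080) (l 15883744))) (a (c (l 16099536) (c (l 16073128) (l 16024872))) (c (b (a (c (l 16071296) (l 16044328)) (l 16015912)) (a (l 16103280) (l 15968024))) (b (a (l 15869416) (l 15940520)) (a (l 16024008) (l 15998048)))))) (b (a (b (l 15897800) (a (l 15945240) (l 15924616))) (l 15862576)) (a (l 16001632) (b (l 15939336) (l 15993936))))) (c (c (b (c (a (l 15888624) (l 15785344)) (l 15804256)) (a (c (l 15998944) (l 15948560)) (l 15891032))) (b (l 15787808) (l 15900608))) (b (l 15776064) (l 15890456)))) (a (c (c (b (a (b (l 16162624) (a (l 16181752) (l 16201616))) (l 16131992)) (a (l 16179920) (c (b (l 16234256) (l 16248720)) (l 16116928)))) (b (a (c (l 16018944) (b (l 16088704) (l 16112096)))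 (l 16083568)) (a (c (l 16154056) (l 16106168)) (c (b (l 16148696) (l 16163280)) (l 16133656))))) (b (a (b (l 16066208) (l 16089864)) (l 16065224)) (a (l 16083840) (b (l 16124720) (l 16139528))))) (a (c (b (c (a (c (l 16139176) (l 16057920)) (b (l 15980640) (l 16056960))) (b (l 16018520) (l 16071272))) (c (c (l 16208416) (l 16159048)) (l 16139816))) (b (b (l 16010056) (l 16063552)) (l 16133064))) (b (c (a (c (c (l 15959880) (l 16019944)) (l 16015704)) (l 15995440)) (l 15952200)) (c (c (b (a (l 16119320) (l 16094880)) (l 16158624)) (b (l 16093456) (l 16143664))) (b (l 16085992) (l 16136912))))))), by decide +kernel⟩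

def k19_pm_022_a : ∃ t, chk3 f_pm_022_a t 17 14 3 = true :=
  ⟨(a (b (a (b (c (a (l 15901448) (l 15963464)) (l 15854656)) (c (l 15885248) (l 15871768))) (b (c (b (l 15949328) (l 15971440)) (b (l 15937128) (l 15959624))) (c (a (l 15988888) (l 16011408)) (a (l 15977376) (l 16000272))))) (c (b (a (l 15850448) (l 15995464)) (l 15894192)) (b (l 15889192) (l 15880632)))) (b (a (b (a (b (l 15877656) (a (l 15926432) (l 15905144))) (l 15841272)) (b (a (l 15960672) (a (l 15933456) (l 15908216))) (c (l 15997368) (l 15985864)))) (b (l 15752120) (c (l 15876736) (l 15862840)))) (a (a (b (c (l 16064360) (l 16054128)) (l 16068792)) (b (l 15986712) (c (l 16118792) (l 16109504)))) (b (a (b (a (l 16004304) (l 15983240)) (l 15963944)) (c (l 15982352) (l 15970416))) (c (b (l 15962256) (l 16137000)) (b (l 15994272) (l 16127992))))))), by decide +kernel⟩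

def k20_pm_022_a : ∃ t, chk3 f_pm_022_a t 17 15 8 = true :=
  ⟨(b (a (a (l 15734752) (l 16001944)) (a (c (l 16097816) (a (l 16149792) (l 16188696))) (b (a (c (l 16255824) (b (l 16207488) (l 16212576))) (c (l 16123008) (l 16210200))) (a (c (l 16246696) (l 16197496)) (c (l 16239232) (l 16242688)))))) (a (b (a (l 15694432) (l 15979624)) (a (a (b (c (a (b (c (a (b (l 15710776) (l 15744104)) (b (l 15743808) (l 15747720))) (l 15744880)) (l 15765744)) (b (l 15769016) (b (c (l 15774128) (l 15773208)) (a (l 15773440) (l 15782080))))) (a (l 15756784) (l 15775792))) (c (b (a (l 15798376) (a (l 15796752) (b (l 15748032) (l 15802176)))) (l 15825144)) (b (b (l 15787888) (l 15799472)) (l 15823904)))) (b (c (l 15824752) (l 15836280)) (a (b (c (b (l 15810272) (a (l 15805440) (l 15819432))) (c (b (l 15809088) (l 15768360)) (l 15815352))) (c (a (l 15821472) (l 15824776)) (a (l 15820912) (c (b (l 15819840) (l 15830920)) (l 15832232))))) (c (b (l 15848840) (l 15846816)) (c (b (l 15852088) (l 15853344)) (l 15862176))))))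 (c (b (l 15918384) (l 15924968)) (b (l 15982792) (l 15976232))))) (a (b (a (l 16119648) (l 16155408)) (c (a (l 16003488) (c (l 16134800) (b (l 16191768) (l 16188072)))) (a (c (l 16118144) (l 16118232)) (l 16149584)))) (c (b (a (l 16230320) (l 16247168)) (a (l 16132464) (b (l 16235320) (l 16129064)))) (b (l 16208032) (a (l 16147152) (l 16217320))))))), by decide +kernel⟩

def k21_pm_022_a : ∃ t, chk3 f_pm_022_a t 17 15 9 = true :=
  ⟨(a (a (b (l 15837504) (b (l 15817928) (a (b (a (l 15762208) (l 15789536)) (l 15821600)) (b (l 15860248) (a (l 15845576) (l 15884760)))))) (b (c (l 16003280) (a (l 15992200) (l 16045112))) (c (a (l 15953920) (l 16045384)) (a (l 15967336) (l 16018288))))) (a (b (c (a (l 16117920) (l 16139712)) (l 16077432)) (c (a (l 16089296) (l 16109160)) (a (l 16041056) (l 16090664)))) (b (b (a (l 16187768) (l 16207312)) (l 16208432)) (l 16189152)))), by decide +kernel⟩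

def k22_pm_022_a : ∃ t, chk3 f_pm_022_a t 17 15 5 = true :=
  ⟨(a (a (b (c (c (l 15859216) (a (l 15825984) (l 15893328))) (c (a (l 15814296) (l 15852672)) (l 15808000))) (c (b (a (l 15798144) (l 15854632)) (a (b (a (l 15790984) (l 15823112)) (l 15851704)) (b (l 15870896) (a (c (l 15872896) (l 15852640)) (l 15868880))))) (b (a (c (l 15795120) (l 15758464)) (l 15824512)) (a (c (b (a (l 15806128) (l 15809096)) (l 15849024)) (b (a (l 15764592) (l 15764184)) (l 15812592))) (b (l 15819736) (c (a (l 15826224) (l 15832496)) (l 15814136))))))) (c (b (c (a (l 15970256) (l 15998712)) (l 15955728)) (c (a (l 15945248) (l 15971728)) (a (l 15901168) (l 15952336)))) (b (l 15940088) (l 15913728)))) (b (a (l 16081368) (b (a (b (l 16182520) (l 16187688)) (l 16180480)) (l 16139704))) (c (l 16077968) (l 16115160)))), by decide +kernel⟩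

def k23_pm_022_a : ∃ t, chk3 f_pm_022_a t 17 15 3 = true :=
  ⟨(b (a (c (c (l 15862856) (l 15855816)) (l 15803224)) (a (c (l 16071272) (l 16061008)) (b (c (a (l 16173448) (l 16193576)) (a (l 16165112) (l 16185600))) (c (l 16194728) (l 16186744))))) (a (a (b (c (l 15767024) (l 15750984)) (c (a (b (a (l 15732096) (l 15748520)) (l 15786280)) (c (l 15743432) (l 15798712))) (a (b (l 15726784) (l 15770544)) (b (l 15781784) (l 15789288))))) (c (l 15903728) (l 15890248))) (c (c (l 16110384) (l 16105576)) (l 15993432)))), by decide +kernel⟩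

def k24_pm_022_a : ∃ t, chk3 f_pm_022_a t 18 6 1 = true :=
  ⟨(b (a (a (c (b (c (b (l 14968384) (l 15055280)) (l 14982328)) (c (l 15183376) (l 15156208))) (b (l 14935512) (l 15114520))) (c (b (b (l 14903112) (l 14923128)) (c (l 15074640) (l 15045112))) (b (l 14809856) (l 15000000)))) (b (a (c (b (l 14780104) (l 14875960)) (l 14758704)) (b (c (l 14781720) (l 14710440)) (a (c (l 14842592) (l 14773736)) (c (a (b (l 14807024) (l 14850664)) (b (l 14828920) (l 14850176))) (c (l 14788360) (l 14753320)))))) (c (c (b (l 14967024) (l 15065328)) (b (l 14935128) (l 15035288))) (c (l 14954768) (l 14922960))))) (c (a (b (a (c (l 15359480) (l 15335656)) (c (l 15260512) (l 15234504))) (c (a (l 15352536) (b (l 15402608) (l 15499360))) (a (l 15520880) (l 15429640)))) (b (c (b (l 15165488) (l 15267208)) (l 15190136)) (c (b (l 15370176) (l 15474088)) (l 15274040)))) (a (b (c (l 15154848) (l 15234040)) (c (a (l 15500072) (l 15406944)) (l 15263664))) (b (c (l 15162600) (l 15134680)) (c (l 15376264) (l 15352336)))))), by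 decide +kernel⟩

def k25_pm_022_a : ∃ t, chk3 f_pm_022_a t 19 6 1 = true :=
  ⟨(b (a (b (c (l 15006792) (l 14943456)) (b (a (a (c (a (b (l 14895352) (l 14932520)) (b (l 14927272) (l 14942192))) (l 14864224)) (l 14960424)) (l 15082136)) (a (c (a (c (l 15022784) (l 14991736)) (a (b (l 14990320) (l 15022832)) (l 15033568))) (a (l 14944296) (l 14962560))) (l 15101936)))) (c (l 15319528) (l 15267344))) (a (b (b (a (c (a (l 15113352) (a (l 15101784) (b (l 15070416) (l 15121488)))) (l 15047824)) (a (c (b (l 15108640) (a (l 15119312) (l 15139800))) (l 15064632)) (l 15163864))) (a (c (l 15215392) (l 15160200)) (c (a (b (c (l 15184912) (l 15156760)) (l 15223808)) (b (l 15210072) (a (c (l 15234096) (l 15206816)) (l 15242168)))) (a (l 15142552) (l 15169672))))) (c (b (a (l 15326392) (a (l 15310048) (b (c (l 15286632) (l 15260312)) (l 15328048)))) (c (l 15441480) (l 15418152))) (a (l 15334512) (b (a (l 15258192) (l 15249744)) (l 15373328))))) (b (c (l 15377896) (l 15328040)) (a (a (b (c (b (l 15313056) (a (c (l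 15338304) (l 15312904)) (l 15346288))) (l 15277360)) (c (b (c (l 15392760) (l 15368352)) (l 15437576)) (l 15361728))) (b (l 15368856) (c (b (l 15415080) (a (c (l 15446512) (l 15423064)) (l 15447384))) (b (l 15366760) (l 15396640))))) (c (l 15485568) (l 15439712)))))), by decide +kernel⟩

def k26_pm_022_a : ∃ t, chk3 f_pm_022_a t 9 14 1 = true :=
  ⟨(a (c (a (b (c (a (b (l 15679128) (l 15795896)) (b (l 15597160) (l 15718264))) (b (a (l 15661304) (l 15577488)) (a (l 15780288) (l 15700896)))) (a (b (c (l 15928664) (l 15915600)) (b (c (l 16029760) (l 16018632)) (a (c (a (l 16129080) (l 16110288)) (l 16109176)) (l 16068496)))) (c (b (l 15855032) (l 15994616)) (l 15786760)))) (b (c (b (c (l 15584064) (l 15573944)) (l 15706504)) (b (l 15558632) (l 15688568))) (c (c (l 15758608) (l 15877600)) (b (l 15833976) (l 15982128))))) (b (a (c (b (l 15600304) (l 15723808)) (b (l 15580992) (l 15706824))) (c (b (l 15538000) (l 15670408)) (b (l 15517096) (l 15652000)))) (a (a (b (l 15895448) (a (c (l 15940040) (l 15971568))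 (l 16011480))) (c (l 15899040) (l 15885320))) (c (l 15790416) (l 15818248))))) (b (b (a (c (c (l 15555680) (l 15534488)) (l 15418232)) (a (a (c (l 15528712) (l 15484776)) (c (b (c (l 15500792) (l 15478336)) (l 15550152)) (l 15476168))) (c (a (b (a (l 15488344) (l 15508896)) (c (a (l 15541712) (l 15541728)) (l 15522632))) (l 15553384)) (a (b (l 15454104) (l 15489520)) (l 15510088))))) (c (a (c (l 15691504) (l 15672888)) (a (c (l 15676848) (l 15657720)) (a (c (l 15646240) (l 15626480)) (b (a (c (l 15596192) (l 15575472)) (l 15601408)) (a (l 15652256) (c (l 15656272) (l 15636672))))))) (a (l 15581552) (a (l 15628520) (a (l 15596296) (c (l 15596832) (l 15576328))))))) (c (a (c (b (l 15841824) (l 15994664)) (b (l 15826104) (l 15981912))) (c (a (l 15745224) (l 15830016)) (a (l 15898400) (l 15856488)))) (a (c (l 15890720) (l 15876128)) (c (l 15757376) (l 15783888)))))), by decide +kernel⟩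

def k27_pm_022_a : ∃ t, chk3 f_pm_022_a t 18 30 1 = true :=
  ⟨(a (c (a (b (c (a (b (l 16174032) (l 16220960)) (b (l 16142216) (a (l 16210448) (l 16197872)))) (a (l 16126936) (b (l 16133088) (l 16195176)))) (c (a (b (l 16264472) (l 16270040)) (l 16277080)) (c (l 16205840) (l 16244464)))) (b (c (l 16136864) (l 16127552)) (c (a (b (a (l 16242264) (l 16240024)) (l 16296216)) (b (l 16244200) (l 16294680))) (a (b (l 16169776) (l 16290016)) (l 16168400))))) (a (b (c (a (l 16181720) (b (l 16123848) (l 16187128))) (a (l 16173496) (b (l 16114496) (l 16178968)))) (c (a (l 16240824) (l 16263920)) (a (l 16255064) (l 16257216)))) (b (c (l 16118128) (l 16108576)) (c (a (b (l 16225320) (l 16283744)) (l 16245624)) (a (b (l 16217856) (l 16277392)) (l 16238880)))))) (c (c (c (l 16052896) (l 16090872)) (b (l 16132872) (l 16286048))) (c (b (l 16123280) (l 16279440)) (b (l 16113552) (l 16272744))))), by decide +kernel⟩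

def k28_pm_022_a : ∃ t, chk3 f_pm_022_a t 18 31 1 = true :=
  ⟨(b (a (c (a (c (a (l 16292280) (b (l 16334680) (l 16348792))) (c (l 16223600) (l 16262576))) (c (a (b (l 16342552) (l 16362912)) (c (l 16277000) (l 16295880))) (b (a (l 16337248) (l 16330608)) (l 16317152)))) (a (a (l 16192632) (c (l 16285616) (l 16301072))) (a (c (l 16332456) (l 16348408)) (b (c (l 16367808) (l 16363000)) (l 16354416))))) (b (c (c (l 16322320) (l 16359984)) (c (l 16397592) (l 16393208))) (c (a (c (a (a (l 16438160) (l 16430552)) (l 16479832)) (a (a (l 16456000) (l 16448624)) (l 16477040))) (c (l 16489240) (l 16486552))) (a (a (c (l 16458304) (l 16455192)) (l 16451792)) (l 16482448))))) (a (c (c (c (a (c (l 16224112) (l 16312368)) (b (a (l 16407184) (l 16471240)) (a (l 16297096) (c (l 16455312) (l 16500408))))) (a (l 16310152) (a (l 16383888) (l 16461776)))) (a (l 16305696) (a (b (l 16381104) (l 16404528)) (b (l 16467648) (l 16497808))))) (a (c (l 16299696) (l 16293616)) (c (a (l 16355680) (l 16404704)) (a (l 16372448)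 (l 16404640))))) (a (c (c (b (a (l 16518624) (l 16447176)) (c (a (l 16472096) (a (l 16548152) (b (l 16533904) (l 16513088)))) (l 16553328))) (a (l 16518920) (b (l 16529704) (l 16529848)))) (c (a (l 16538352) (b (l 16549312) (l 16528168))) (a (l 16536800) (b (l 16547936) (l 16526432))))) (c (c (c (b (l 16567600) (b (l 16523568) (c (a (a (c (l 16491944) (l 16490528)) (l 16487496)) (l 16484440)) (l 16484528)))) (l 16438336)) (b (l 16566208) (l 16438928))) (c (l 16372832) (l 16371280)))))), by decide +kernel⟩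

def k29_pm_022_a : ∃ t, chk3 f_pm_022_a t 19 15 1 = true :=
  ⟨(c (b (a (c (c (l 16063912) (l 16122792)) (b (l 16140136) (l 16300592))) (c (a (b (l 16151632) (l 16314144)) (l 16032280)) (a (l 16141872) (l 16149088)))) (c (a (c (b (l 16467256) (c (l 16394352) (l 16536128))) (l 16338520)) (b (l 16275288) (a (l 16469888) (l 16499120)))) (a (a (l 16331432) (l 16342792)) (a (l 16351768) (l 16344840))))) (b (a (c (l 16024608) (l 16058240)) (c (b (l 16113080) (l 16283976)) (l 15960136))) (a (c (b (l 16459744) (l 16490472)) (b (l 16435376) (l 16467672))) (c (b (l 16435864) (l 16439184)) (b (l 16411232) (l 16437448)))))), by decide +kernel⟩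

def k30_pm_022_a : ∃ t, chk3 f_pm_022_a t 5 2 1 = true :=
  ⟨(a (b (c (a (l 15566120) (l 15949576)) (a (l 15522328) (l 15919848))) (a (b (l 15527472) (l 15555000)) (b (l 15919400) (l 15922688)))) (b (a (l 16173424) (c (l 16427416) (l 16416488))) (a (c (b (l 16293000) (l 16314136)) (l 16267432)) (c (l 16425928) (l 16414992))))), by decide +kernel⟩

def k31_pm_022_a : ∃ t, chk3 f_pm_022_a t 5 6 1 = true :=
  ⟨(a (c (a (b (l 15604960) (c (l 15712472) (l 15693592))) (b (b (l 15988400) (l 16016104)) (l 16071104))) (a (b (l 15584656) (l 15664752)) (b (l 15974448) (l 16045896)))) (a (b (l 16136256) (c (a (l 16331064) (l 16496440)) (l 16359848))) (b (l 16518064) (a (l 16627024) (l 16614008))))), by decide +kernel⟩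

def k32_pm_022_a : ∃ t, chk3 f_pm_022_a t 20 7 1 = true :=
  ⟨(a (b (b (c (b (l 15673216) (l 15682368)) (l 15660704)) (c (a (b (c (a (b (a (l 15718272) (l 15726336)) (l 15788640)) (l 15778752)) (a (b (l 15706472) (l 15771544)) (l 15761408))) (a (l 15903048) (b (c (a (l 15848808) (l 15848664)) (l 15835192)) (l 15917232)))) (b (l 15837208) (a (b (l 15867848) (a (c (l 15913264) (l 15898520)) (l 15916936))) (l 15931312)))) (a (b (a (b (l 15678488) (l 15745424)) (l 15734912)) (a (l 15873136) (b (l 15810872) (l 15887840)))) (b (l 15804424) (a (l 15841064) (l 15902216)))))) (b (c (b (a (l 15932480) (a (b (c (l 15985632) (l 15972296)) (l 16062104)) (b (l 15990048) (c (a (l 16050408) (l 16051416)) (l 16041232))))) (c (a (l 16233584) (l 16185352)) (l 16200584))) (b (a (l 16034464) (a (l 15954208) (b (l 15963368) (l 16022856)))) (c (l 16191592) (l 16182480)))) (c (c (a (l 16240576) (l 16218144)) (b (l 16334784) (l 16491464))) (c (l 16211960) (l 16208432))))) (b (c (b (l 15884272) (l 16006776)) (l 15748448)) (b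 (b (c (l 16116160) (l 16094112)) (a (c (c (a (b (l 16084400) (l 16195288)) (l 16182400)) (a (b (l 16115752) (l 16186104)) (l 16172888))) (a (b (l 16099560) (l 16172072)) (l 16158352))) (c (l 16238112) (l 16221056)))) (b (c (a (b (a (l 16277568) (c (l 16224136) (l 16258344))) (l 16356000)) (a (b (l 16281480) (c (l 16299064) (l 16334832))) (l 16343744))) (a (c (l 16179272) (l 16214384)) (c (l 16236176) (l 16250560)))) (c (a (l 16324080) (a (b (l 16393720) (l 16505704)) (b (a (l 16325592) (l 16421416)) (b (l 16403080) (l 16508160))))) (a (l 16465008) (a (l 16390608) (b (l 16407928) (l 16482376))))))))), by decide +kernel⟩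

def k33_pm_022_a : ∃ t, chk3 f_pm_022_a t 21 7 1 = true :=
  ⟨(b (c (b (l 16109248) (l 16264152)) (b (l 16129064) (l 16246680))) (b (c (l 16276104) (l 16327752)) (c (a (b (l 16442208) (c (l 16406504) (l 16488272))) (l 16511168)) (a (b (l 16433560) (l 16401136)) (l 16550192))))), by decide +kernel⟩

def k34_pm_022_a : ∃ t, chk3 f_pm_022_a t 11 7 1 = true :=
  ⟨(b (a (c (b (l 16380968) (l 16564824)) (b (l 16412576) (l 16537984))) (c (b (a (l 16717104) (l 16748360)) (l 16493064)) (b (l 16613560) (l 16551336)))) (a (c (b (l 16534000) (a (l 16436232) (l 16304392))) (b (l 16530936) (l 16273560))) (c (a (l 16119272) (l 16124752)) (a (l 16166040) (l 16232768))))), by decide +kernel⟩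

def k35_pm_022_a : ∃ t, chk3 f_pm_022_a t 3 1 1 = true :=
  ⟨(b (a (b (a (c (l 16406712) (l 16393704)) (l 16400216)) (a (c (l 16405288) (l 16392232)) (c (l 16405288) (l 16392232)))) (l 2)) (b (a (a (b (l 16496440) (c (l 16616824) (l 16611200))) (c (l 16516680) (l 16529976))) (a (l 16491872) (l 2))) (a (b (a (c (b (l 16748360) (l 16622824)) (b (l 16747344) (l 16617384))) (b (c (l 16748360) (l 16747344)) (c (l 16622824) (l 16617384)))) (a (a (b (l 16394240) (c (l 16144392) (l 16122104))) (b (l 16394240) (l 16007400))) (c (l 16124752) (l 16169856)))) (b (a (b (c (l 16748360) (l 16747344)) (l 16557192)) (l 2)) (a (c (l 16208640) (l 16232768)) (c (l 16229608) (l 16232768))))))), by decide +kernel⟩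

theorem s36_pm_022_a : ∃ t, chk3 f_pm_022_a t 10 7 1 = true := ex3_a k32_pm_022_a k33_pm_022_a

theorem s37_pm_022_a : ∃ t, chk3 f_pm_022_a t 5 7 1 = true := ex3_a s36_pm_022_a k34_pm_022_a

theorem s38_pm_022_a : ∃ t, chk3 f_pm_022_a t 5 3 1 = true := ex3_b k31_pm_022_a s37_pm_022_a

theorem s39_pm_022_a : ∃ t, chk3 f_pm_022_a t 5 1 1 = true := ex3_b k30_pm_022_a s38_pm_022_a

theorem s40_pm_022_a : ∃ t, chk3 f_pm_022_a t 18 15 1 = true := ex3_b k27_pm_022_a k28_pm_022_a

theorem s41_pm_022_a : ∃ t, chk3 f_pm_022_a t 9 15 1 = true := ex3_a s40_pm_022_a k29_pm_022_a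

theorem s42_pm_022_a : ∃ t, chk3 f_pm_022_a t 9 7 1 = true := ex3_b k26_pm_022_a s41_pm_022_a

theorem s43_pm_022_a : ∃ t, chk3 f_pm_022_a t 9 6 1 = true := ex3_a k24_pm_022_a k25_pm_022_a

theorem s44_pm_022_a : ∃ t, chk3 f_pm_022_a t 9 3 1 = true := ex3_b s43_pm_022_a s42_pm_022_a

theorem s45_pm_022_a : ∃ t, chk3 f_pm_022_a t 17 15 4 = true := ex3_c k20_pm_022_a k21_pm_022_a

theorem s46_pm_022_a : ∃ t, chk3 f_pm_022_a t 17 15 2 = true := ex3_c s45_pm_022_a k22_pm_022_a

theorem s47_pm_022_a : ∃ t, chk3 f_pm_022_a t 17 15 1 = true := ex3_c s46_pm_022_a k23_pm_022_a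

theorem s48_pm_022_a : ∃ t, chk3 f_pm_022_a t 17 14 2 = true := ex3_a k17_pm_022_a k18_pm_022_a

theorem s49_pm_022_a : ∃ t, chk3 f_pm_022_a t 17 14 1 = true := ex3_c s48_pm_022_a k19_pm_022_a

theorem s50_pm_022_a : ∃ t, chk3 f_pm_022_a t 17 7 1 = true := ex3_b s49_pm_022_a s47_pm_022_a

theorem s51_pm_022_a : ∃ t, chk3 f_pm_022_a t 16 15 3 = true := ex3_a k15_pm_022_a k16_pm_022_a

theorem s52_pm_022_a : ∃ t, chk3 f_pm_022_a t 16 15 2 = true := ex3_b k13_pm_022_a k14_pm_022_a

theorem s53_pm_022_a : ∃ t, chk3 f_pm_022_a t 16 15 1 = true := ex3_c s52_pm_022_a s51_pm_022_a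

theorem s54_pm_022_a : ∃ t, chk3 f_pm_022_a t 16 14 1 = true := ex3_c k11_pm_022_a k12_pm_022_a

theorem s55_pm_022_a : ∃ t, chk3 f_pm_022_a t 16 7 1 = true := ex3_b s54_pm_022_a s53_pm_022_a

theorem s56_pm_022_a : ∃ t, chk3 f_pm_022_a t 8 7 1 = true := ex3_a s55_pm_022_a s50_pm_022_a

theorem s57_pm_022_a : ∃ t, chk3 f_pm_022_a t 17 13 1 = true := ex3_a k9_pm_022_a k10_pm_022_a

theorem s58_pm_022_a : ∃ t, chk3 f_pm_022_a t 17 6 1 = true := ex3_b k8_pm_022_a s57_pm_022_a

theorem s59_pm_022_a : ∃ t, chk3 f_pm_022_a t 16 12 1 = true := ex3_a k5_pm_022_a k6_pm_022_a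

theorem s60_pm_022_a : ∃ t, chk3 f_pm_022_a t 16 6 1 = true := ex3_b s59_pm_022_a k7_pm_022_a

theorem s61_pm_022_a : ∃ t, chk3 f_pm_022_a t 8 6 1 = true := ex3_a s60_pm_022_a s58_pm_022_a

theorem s62_pm_022_a : ∃ t, chk3 f_pm_022_a t 8 3 1 = true := ex3_b s61_pm_022_a s56_pm_022_a

theorem s63_pm_022_a : ∃ t, chk3 f_pm_022_a t 4 3 1 = true := ex3_a s62_pm_022_a s44_pm_022_a

theorem s64_pm_022_a : ∃ t, chk3 f_pm_022_a t 8 11 1 = true := ex3_a k2_pm_022_a k3_pm_022_a

theorem s65_pm_022_a : ∃ t, chk3 f_pm_022_a t 8 5 1 = true := ex3_b k1_pm_022_a s64_pm_022_a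

theorem s66_pm_022_a : ∃ t, chk3 f_pm_022_a t 8 2 1 = true := ex3_b k0_pm_022_a s65_pm_022_a

theorem s67_pm_022_a : ∃ t, chk3 f_pm_022_a t 4 2 1 = true := ex3_a s66_pm_022_a k4_pm_022_a

theorem s68_pm_022_a : ∃ t, chk3 f_pm_022_a t 4 1 1 = true := ex3_b s67_pm_022_a s63_pm_022_a

theorem s69_pm_022_a : ∃ t, chk3 f_pm_022_a t 2 1 1 = true := ex3_a s68_pm_022_a s39_pm_022_a

theorem s70_pm_022_a : ∃ t, chk3 f_pm_022_a t 1 1 1 = true := ex3_a s69_pm_022_a k35_pm_022_a

theorem c_pm_022_a : CertNX 0 536870912 0 420477299 1046898278 26843546 3 true true false .pp 0 2 2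
    ndN0q0 ndN2q2a pcN2 Cut.none Ext.none :=
  certNX0 (fam := true) (s1 := true) (s2 := false) (a := 0) (b := 2) (c := 2) (cn := .pp) (n1 := ndN0q0) (n2 := ndN2q2a) (pc := pcN2) (cut := Cut.none) (xt := Ext.none) (P1 := 0) (W1 := 536870912) (P2 := 0) (W2 := 420477299) (P3 := 1046898278) (W3 := 26843546) (N0 := 3)
    rfl s70_pm_022_a

noncomputable def f_pm_022_b : ℕ → ℕ → ℕ → ℕ → Bool := onCell 0 536870912 1239849684 370763052 1046898278 26843546
    (rowNX 3 0 true true false .pp 0 2 2 (qsf 0 536870912 1239849684 370763052 2) ndN0q0 ndN2q2b pcN2 Cut.none Ext.none)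

def k0_pm_022_b : ∃ t, chk3 f_pm_022_b t 4 8 1 = true :=
  ⟨(a (a (c (a (b (l 15141832) (l 14621288)) (b (c (l 14833064) (a (l 14888608) (l 14746656))) (a (l 14400680) (b (l 14389400) (c (l 14219248) (b (l 14209752) (l 14162072))))))) (a (c (b (a (l 15192520) (l 15025120)) (l 14574104)) (a (c (l 14645936) (b (a (l 15019224) (l 15114216)) (a (l 14648440) (l 14561672)))) (c (b (a (l 15025664) (l 14973184)) (l 14466616)) (l 14716952)))) (a (c (c (b (l 14880920) (l 14368888)) (b (l 14721280) (l 14246184))) (l 14313544)) (b (c (c (l 14734232) (l 14695720)) (l 14669368)) (b (l 14313416) (c (c (a (l 14183296) (l 14158416)) (l 14131680)) (l 14097024))))))) (c (a (b (c (a (l 14637864) (a (l 14553832) (b (l 14623856) (l 14334264)))) (a (c (l 14641752) (l 14607096)) (a (l 14342544) (b (l 14533128) (l 14302016))))) (c (b (a (l 14308816) (a (l 14293952) (l 14330616))) (a (l 14252720) (l 14323496))) (a (b (c (a (l 14321840) (l 14290400)) (a (l 14291144) (l 14224488))) (c (l 14250904) (l 14212416))) (a (c (b (l 14267752)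 (l 14298688)) (l 14218392)) (l 14259072))))) (b (c (a (a (b (l 14555392) (c (l 14400512) (b (l 14361424) (l 14312360)))) (b (l 14351608) (c (l 14386328) (l 14300064)))) (b (c (a (b (l 14476264) (l 14384784)) (b (l 14375496) (l 14340936))) (l 14355296)) (l 14381496))) (b (a (l 14418216) (l 14323168)) (a (l 14267952) (l 14294832)))) (c (c (a (l 14428200) (l 14465376)) (l 14400488)) (l 14335704)))) (b (a (b (l 14582576) (l 14335464)) (b (a (l 14355832) (l 14257784)) (a (l 14201176) (l 14228608)))) (a (b (a (l 14185744) (l 14157472)) (l 14161000)) (l 14270864))))) (a (a (a (c (b (l 14361496) (l 14454624)) (l 14324888)) (l 14462136)) (c (l 14748840) (l 14676272))) (c (a (l 15072160) (l 15365728)) (l 14996360)))), by decide +kernel⟩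

def k1_pm_022_b : ∃ t, chk3 f_pm_022_b t 5 8 1 = true :=
  ⟨(a (c (a (l 15627856) (l 16022016)) (a (l 15629768) (l 16016312))) (a (l 16258512) (a (l 16577872) (l 16555232)))), by decide +kernel⟩

def k2_pm_022_b : ∃ t, chk3 f_pm_022_b t 2 9 1 = true :=
  ⟨(a (c (a (a (b (a (b (a (l 14329880) (l 14194304)) (a (l 14130784) (l 14087832))) (a (b (b (l 14149984) (l 14134568)) (l 14170032)) (l 14224416))) (a (l 14097960) (l 14233728))) (c (a (b (l 14360160) (l 14407632)) (c (a (l 14543712) (l 14578344)) (l 14515920))) (a (c (a (l 14346824) (l 14402160)) (l 14334072)) (l 14452936)))) (a (a (l 14605184) (l 14899408)) (b (l 15340240) (l 15378664)))) (a (a (a (b (c (a (b (l 14267192) (l 14061872)) (b (l 14137168) (l 14049008))) (a (c (b (l 14238816) (l 14030336)) (b (l 14214664) (a (l 14012856) (l 13973512)))) (a (b (l 14105144) (c (l 13998456) (l 13977208))) (b (l 14066624) (l 14017840))))) (c (l 14034680) (a (c (l 13964968) (l 13938016)) (l 14007096)))) (c (a (a (b (c (l 14109504) (b (l 14088512) (l 14100992)))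 (l 14122408)) (c (l 14069608) (l 14136792))) (l 14197312)) (b (l 14089856) (l 14127432)))) (l 14326952)) (a (l 14623088) (l 15309792)))) (a (c (l 15789152) (l 15865656)) (a (l 16442008) (l 16722400)))), by decide +kernel⟩

def k3_pm_022_b : ∃ t, chk3 f_pm_022_b t 2 5 1 = true :=
  ⟨(a (a (a (c (c (l 14184888) (a (l 14074792) (l 14221496))) (a (c (l 14034608) (a (c (l 13964856) (l 13937912)) (c (l 14031984) (l 14011808)))) (c (a (c (l 14159440) (l 14139512)) (l 14222448)) (l 14127464)))) (c (c (a (l 14302800) (b (c (l 14579520) (l 14538280)) (l 14555336))) (a (c (a (l 14370760) (l 14425568)) (l 14358000)) (l 14475664))) (l 14350976))) (a (c (a (l 14626616) (l 14919768)) (l 14582000)) (l 15354008))) (a (a (l 15794952) (l 16158184)) (a (l 16496704) (l 16754176)))), by decide +kernel⟩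

def k4_pm_022_b : ∃ t, chk3 f_pm_022_b t 2 3 1 = true :=
  ⟨(a (a (a (c (b (l 14169840) (l 14169840)) (a (c (l 14034608) (b (a (l 13843552) (l 14007128)) (a (l 13948408) (l 14007128)))) (c (b (a (l 14133304) (l 14222448)) (l 14165704)) (l 14127464)))) (c (a (c (l 14407656) (b (l 14371352) (l 14371352))) (b (l 14380088) (l 14526896))) (l 14350976))) (a (a (b (l 14589296) (l 14589296)) (l 14845096)) (b (l 15354008) (l 2)))) (b (a (l 15937712) (l 2)) (l 2))), by decide +kernel⟩

def k5_pm_022_b : ∃ t, chk3 f_pm_022_b t 3 1 1 = true :=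
  ⟨(b (a (b (b (a (c (l 16559056) (l 16551400)) (l 16492320)) (c (l 16750728) (l 16749800))) (a (l 16777216) (l 2))) (l 2)) (l 2)), by decide +kernel⟩

theorem s6_pm_022_b : ∃ t, chk3 f_pm_022_b t 2 8 1 = true := ex3_a k0_pm_022_b k1_pm_022_b

theorem s7_pm_022_b : ∃ t, chk3 f_pm_022_b t 2 4 1 = true := ex3_b s6_pm_022_b k2_pm_022_b

theorem s8_pm_022_b : ∃ t, chk3 f_pm_022_b t 2 2 1 = true := ex3_b s7_pm_022_b k3_pm_022_b

theorem s9_pm_022_b : ∃ t, chk3 f_pm_022_b t 2 1 1 = true := ex3_b s8_pm_022_b k4_pm_022_b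

theorem s10_pm_022_b : ∃ t, chk3 f_pm_022_b t 1 1 1 = true := ex3_a s9_pm_022_b k5_pm_022_b

theorem c_pm_022_b : CertNX 0 536870912 1239849684 370763052 1046898278 26843546 3 true true false .pp 0 2 2
    ndN0q0 ndN2q2b pcN2 Cut.none Ext.none :=
  certNX0 (fam := true) (s1 := true) (s2 := false) (a := 0) (b := 2) (c := 2) (cn := .pp) (n1 := ndN0q0) (n2 := ndN2q2b) (pc := pcN2) (cut := Cut.none) (xt := Ext.none) (P1 := 0) (W1 := 536870912) (P2 := 1239849684) (W2 := 370763052) (P3 := 1046898278) (W3 := 26843546) (N0 := 3)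
    rfl s10_pm_022_b

noncomputable def f_pm_023_a : ℕ → ℕ → ℕ → ℕ → Bool := onCell 0 536870912 0 420477299 1046898278 26843546
    (rowNX 3 0 true true false .up 0 2 3 (qsf 0 536870912 0 420477299 3) ndN0q0 ndN2q2a pcN3 Cut.none Ext.none)

def k0_pm_023_a : ∃ t, chk3 f_pm_023_a t 1 1 1 = true :=
  ⟨(a (l 1) (a (a (l 1) (b (a (b (l 1) (l 1)) (b (l 16400216) (l 16398760))) (b (a (l 1) (l 16554784)) (l 1)))) (a (b (b (c (l 16406712) (l 16393704)) (c (l 16405288) (l 16392232))) (b (c (l 16558624) (l 16550952)) (b (c (b (l 16748360) (l 16622824)) (b (l 16747344) (l 16617384))) (c (l 16208640) (l 16190824))))) (b (b (c (l 16406712) (l 16393704)) (c (l 16405288) (l 16392232))) (b (c (l 16558624) (l 16550952)) (b (b (l 16747840) (c (l 16622824) (l 16617384))) (c (l 16103776) (l 16148880)))))))), by decide +kernel⟩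

theorem c_pm_023_a : CertNX 0 536870912 0 420477299 1046898278 26843546 3 true true false .up 0 2 3
    ndN0q0 ndN2q2a pcN3 Cut.none Ext.none :=
  certNX0 (fam := true) (s1 := true) (s2 := false) (a := 0) (b := 2) (c := 3) (cn := .up) (n1 := ndN0q0) (n2 := ndN2q2a) (pc := pcN3) (cut := Cut.none) (xt := Ext.none) (P1 := 0) (W1 := 536870912) (P2 := 0) (W2 := 420477299) (P3 := 1046898278) (W3 := 26843546) (N0 := 3)
    rfl k0_pm_023_a

noncomputable def f_pm_023_b : ℕ → ℕ → ℕ → ℕ → Bool := onCell 0 536870912 1610612736 536870912 1046898278 26843546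
    (rowNX 3 1 true true false .up 0 2 3 (qsf 0 536870912 1239849684 370763052 3) ndN0q0 ndN2q2b pcN3 Cut.none Ext.none)

def k0_pm_023_b : ∃ t, chk3 f_pm_023_b t 1 1 1 = true :=
  ⟨(a (b (a (a (b (a (b (c (l 14169840) (a (c (l 14034608) (l 13981696)) (l 14117520))) (l 2)) (c (c (a (l 14407656) (l 14555336)) (a (l 14371352) (l 14475664))) (l 14350976))) (l 2)) (b (a (b (l 14693480) (l 14609592)) (b (l 15354008) (l 15354008))) (b (a (l 2) (l 15354008)) (l 2)))) (b (a (b (l 15979656) (l 15979656)) (a (l 16496704) (l 16754176))) (b (a (l 15937712) (a (l 16496704) (l 16754176))) (a (c (l 15993496) (l 15965880)) (c (l 16630544) (l 16625376)))))) (b (a (l 2) (a (l 2) (b (b (l 16627952) (l 2)) (l 2)))) (l 2))) (b (b (a (a (b (a (l 16777176) (l 16751144)) (l 16777216)) (b (a (b (l 16594024) (l 16737064)) (b (c (l 16445144) (l 16498608)) (l 16573056))) (a (l 16777176) (l 16730176)))) (a (b (a (b (a (l 16522168) (l 1)) (c (l 16466112) (l 16498608))) (b (l 1) (a (l 16522168) (l 1)))) (a (b (l 16573056) (l 16737064))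 (b (c (l 16466112) (l 16498608)) (l 16573056)))) (b (l 1) (a (b (a (l 16501200) (l 1)) (c (l 16466112) (l 16498608))) (b (l 1) (a (l 16501200) (l 1))))))) (a (b (a (l 16777216) (l 16777216)) (c (l 16777216) (l 16777216))) (b (a (a (l 16777176) (l 16677744)) (a (b (l 16573056) (l 16737064)) (b (c (l 16445144) (l 16498608)) (l 16552080)))) (a (l 16777216) (b (a (l 16777160) (l 16737064)) (l 16777176)))))) (b (a (b (c (l 16777208) (l 16777208)) (b (a (l 16777216) (l 16777216)) (l 4))) (b (c (l 16777208) (l 16777208)) (c (b (l 16777200) (l 16777216)) (b (l 16777200) (l 16777216))))) (l 4)))), by decide +kernel⟩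

theorem c_pm_023_b : CertNX 0 536870912 1239849684 370763052 1046898278 26843546 3 true true false .up 0 2 3
    ndN0q0 ndN2q2b pcN3 Cut.none Ext.none :=
  certNX1 (fam := true) (s1 := true) (s2 := false) (a := 0) (b := 2) (c := 3) (cn := .up) (n1 := ndN0q0) (n2 := ndN2q2b) (pc := pcN3) (cut := Cut.none) (xt := Ext.none) (P1 := 0) (W1 := 536870912) (P2 := 1239849684) (W2 := 370763052) (P3 := 1046898278) (W3 := 26843546) (N0 := 3)
    rfl (fun _ => rfl) k0_pm_023_b

noncomputable def f_pm_033 : ℕ → ℕ → ℕ → ℕ → Bool := onCell 0 536870912 1610612736 536870912 1046898278 26843546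
    (rowNX 3 1 true true false .pnn 0 3 3 (qsf 0 536870912 1610612736 469762048 3) ndN0q0 ndN2q3 pcN3 Cut.none Ext.none)

def k0_pm_033 : ∃ t, chk3 f_pm_033 t 1 1 1 = true :=
  ⟨(a (b (a (b (a (a (c (l 121360662487) (a (c (l 14034608) (b (l 13981696) (l 13981696))) (b (l 14117520) (l 14117520)))) (c (a (c (l 14407656) (l 14371352)) (l 135856891207)) (l 14350976))) (a (c (l 141226003863) (l 14707832)) (l 15123320))) (a (c (a (b (l 14169840) (l 14169840)) (c (a (l 14407656) (l 14450480)) (b (l 14422488) (l 14422488)))) (c (a (a (l 14034608) (b (l 14165704) (l 14165704))) (l 14370896)) (a (a (b (l 13981696) (l 13981696)) (l 14127464)) (l 14329072)))) (b (a (c (l 14728656) (l 14707832)) (l 15354008)) (a (c (l 14728656) (l 14707832)) (l 15354008))))) (b (a (l 303900392199) (l 1)) (b (a (l 15937712) (a (l 16496704) (l 1))) (a (c (l 15993496) (l 15965880)) (c (l 16630544) (l 16625376)))))) (b (b (b (a (a (c (a (l 14169840) (c (l 14457184) (l 14422488))) (a (a (c (l 14034608) (l 13981696)) (l 14117520)) (l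 14350976))) (a (l 14483760) (l 15354008))) (a (l 15979656) (l 16627952))) (a (l 4) (a (l 15979656) (l 16460184)))) (l 4)) (l 4))) (b (b (l 1) (a (b (l 1) (c (l 16777216) (l 16777216))) (l 1))) (b (a (b (c (l 16777208) (l 16777208)) (b (a (l 16777216) (l 16777216)) (l 4))) (a (b (l 1) (b (l 1) (l 422550962231))) (l 1))) (l 4)))), by decide +kernel⟩

theorem c_pm_033 : CertNX 0 536870912 1610612736 469762048 1046898278 26843546 3 true true false .pnn 0 3 3
    ndN0q0 ndN2q3 pcN3 Cut.none Ext.none :=
  certNX1 (fam := true) (s1 := true) (s2 := false) (a := 0) (b := 3) (c := 3) (cn := .pnn) (n1 := ndN0q0) (n2 := ndN2q3) (pc := pcN3) (cut := Cut.none) (xt := Ext.none) (P1 := 0) (W1 := 536870912) (P2 := 1610612736) (W2 := 469762048) (P3 := 1046898278) (W3 := 26843546) (N0 := 3)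
    rfl (fun _ => rfl) k0_pm_033

noncomputable def f_pm_101 : ℕ → ℕ → ℕ → ℕ → Bool := onCell 536870912 536870912 67108864 469762048 1046898278 26843546
    (rowNX 3 2 true true false .npn 1 0 1 (qsf 536870912 536870912 67108864 469762048 1) ndN0q1 ndN2q0 pcN1 Cut.none Ext.none)

def k0_pm_101 : ∃ t, chk3 f_pm_101 t 1 1 1 = true :=
  ⟨(a (l 3) (b (l 3) (l 3))), by decide +kernel⟩

theorem c_pm_101 : CertNX 536870912 536870912 67108864 469762048 1046898278 26843546 3 true true false .npn 1 0 1
    ndN0q1 ndN2q0 pcN1 Cut.none Ext.none :=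
  certNX2 (fam := true) (s1 := true) (s2 := false) (a := 1) (b := 0) (c := 1) (cn := .npn) (n1 := ndN0q1) (n2 := ndN2q0) (pc := pcN1) (cut := Cut.none) (xt := Ext.none) (P1 := 536870912) (W1 := 536870912) (P2 := 67108864) (W2 := 469762048) (P3 := 1046898278) (W3 := 26843546) (N0 := 3)
    rfl (fun _ => rfl) k0_pm_101

end Pool.Agent.Strip051.G.IE1.Tab.C.NA02

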