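import Pool.Agent.Strip051.G.IE1.Tab

/-! # Certificates N16 (generated) -/

set_option linter.all false
set_option maxRecDepth 100000

namespace Pool.Agent.Strip051.G.IE1.Tab.C.NA02

open Pool.Agent.Strip051.PB Pool.Agent.Strip051.PB.T
open Pool.Agent.Strip051.G.IE1.Tab

noncomputable def f_pm_102 : ℕ → ℕ → ℕ → ℕ → Bool := onCell 536870912 536870912 1073741824 536870912 1046898278 26843546
    (rowNX 3 1 true true false .npp 1 0 2 (qsf 536870912 536870912 67108864 469762048 2) ndN0q1 ndN2q0 pcN2 Cut.none Ext.none)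

def k0_pm_102 : ∃ t, chk3 f_pm_102 t 2 4 1 = true :=
  ⟨(b (b (l 3) (b (l 3) (a (l 3) (a (l 3) (b (l 3) (c (c (a (l 372217917351) (l 16161376)) (l 342153133191)) (c (l 304035278023) (l 269138653303)))))))) (b (b (a (l 3) (a (c (b (c (l 440937614583) (l 410872827479)) (c (l 436642934471) (l 16354328))) (b (c (l 387787364647) (l 371681220823)) (c (l 16390352) (l 16405320)))) (b (a (c (b (l 16284120) (l 16359664)) (l 275581338423)) (c (c (l 16189288) (l 16180824)) (c (l 16193208) (l 16226456)))) (c (a (b (l 16394904) (l 16442120)) (l 16261800)) (c (l 16293568) (l 16307952)))))) (a (a (l 2) (b (c (c (l 472076680727) (l 491404026039)) (c (l 514489467623) (l 540259263687))) (a (a (l 2) (c (l 16684984) (l 16681728))) (c (b (l 16649048) (l 16690960)) (b (l 16644536) (l 16687920)))))) (a (c (b (c (a (l 16562664) (l 16547128)) (l 16436640)) (c (a (l 16656536) (l 16651664)) (a (l 16654416) (l 16649464)))) (b (c (l 16474472) (l 16470304)) (c (a (l 16652272) (l 16647232)) (l 16664456)))) (a (b (c (l 16496744) (l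 16488344)) (l 16636744)) (c (l 16565192) (l 16515784)))))) (a (a (l 2) (a (b (b (b (c (l 16747832) (l 16746800)) (l 2)) (l 2)) (l 2)) (b (b (c (b (l 16734928) (l 16773752)) (b (l 16733440) (l 16773632))) (l 16744800)) (l 46808199463)))) (b (b (a (c (l 16762712) (l 16762200)) (c (l 16773080) (l 16772936))) (a (l 16719656) (l 16694912))) (a (a (l 16548376) (b (l 16641720) (l 16564288))) (b (a (l 16622424) (l 16643808)) (a (l 16575344) (l 16652768)))))))), by decide +kernel⟩

def k1_pm_102 : ∃ t, chk3 f_pm_102 t 6 16 1 = true :=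
  ⟨(a (l 3) (a (l 3) (a (l 3) (a (l 3) (b (l 3) (b (l 3) (c (c (b (l 3) (b (l 3) (l 15774360))) (l 15743064)) (l 15647408)))))))), by decide +kernel⟩

def k2_pm_102 : ∃ t, chk3 f_pm_102 t 6 34 1 = true :=
  ⟨(b (a (l 3) (a (a (l 3) (b (l 3) (c (c (l 15804680) (l 15784488)) (l 15759400)))) (c (b (b (a (l 15727896) (a (l 15739920) (l 15783840))) (a (b (l 15743032) (l 15757744)) (a (l 15734792) (c (l 15804016) (l 15790904))))) (a (c (l 15807688) (l 15786520)) (b (a (l 15786744) (l 15806408)) (c (l 15784296) (l 15827992))))) (b (a (l 15702544) (a (l 15652672) (l 15664984))) (a (l 15763160) (a (l 15751152) (l 15822816))))))) (a (a (l 3) (b (l 3) (c (a (l 15949600) (l 15928624)) (l 15918640)))) (c (b (a (a (a (l 15882856) (c (l 15889320) (l 15872816))) (b (l 15860816) (l 15889688))) (a (c (b (l 15859800) (l 15888288)) (l 15816072)) (c (l 15883848) (l 15862704)))) (a (a (a (l 15955168) (c (l 15949256) (l 15931072))) (b (l 15915632) (l 15942128))) (a (l 15909880) (c (l 15923112) (l 15902296))))) (a (a (a (l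 15875224) (b (l 15849240) (l 15908832))) (b (l 15831528) (l 15883824))) (a (b (l 15794856) (l 15878168)) (l 15806784)))))), by decide +kernel⟩

def k3_pm_102 : ∃ t, chk3 f_pm_102 t 6 35 1 = true :=
  ⟨(a (b (c (a (b (l 16033064) (l 176259866087)) (b (c (a (l 16040416) (l 15977824)) (l 16006712)) (a (l 16101208) (b (l 16061952) (l 16080368))))) (a (b (l 16005696) (l 16004632)) (b (l 15986448) (a (l 16076752) (l 16044832))))) (c (a (b (a (l 16188944) (l 16154864)) (a (l 16203776) (l 16174224))) (b (a (l 16124384) (l 16090184)) (l 16122696))) (c (a (b (l 16129728) (l 16176432)) (l 16012416)) (a (b (l 16118472) (l 16165984)) (l 16000936))))) (a (b (a (b (c (c (l 16007616) (l 15990008)) (l 15969304)) (c (l 16037424) (l 16009496))) (c (b (c (l 15981200) (l 15961728)) (a (l 16012200) (l 15997720))) (b (l 15941064) (l 15976088)))) (c (a (l 16063608) (a (l 16036832) (b (l 16012448) (l 16025504)))) (a (l 16037456) (a (l 16009592) (l 15992296))))) (b (c (b (a (l 15947192) (c (l 15953616) (l 15935576))) (a (l 15975992)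 (c (a (l 15964328) (l 15985752)) (l 15959016)))) (a (l 15933144) (b (l 15922976) (l 15946320)))) (c (a (b (l 15989560) (l 15998936)) (a (b (l 15946240) (l 15981032)) (b (l 15996480) (l 16005672)))) (a (l 15963744) (b (l 15964680) (l 15976976))))))), by decide +kernel⟩

def k4_pm_102 : ∃ t, chk3 f_pm_102 t 14 32 1 = true :=
  ⟨(a (l 3) (a (l 3) (a (l 3) (a (l 3) (b (l 3) (b (l 3) (b (l 3) (b (l 3) (c (c (l 15686288) (c (l 15651368) (c (l 15639936) (l 15612344)))) (c (l 15549248) (l 15476896))))))))))), by decide +kernel⟩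

def k5_pm_102 : ∃ t, chk3 f_pm_102 t 14 132 2 = true :=
  ⟨(a (l 3) (b (a (l 3) (a (a (l 3) (b (l 3) (c (l 15743624) (c (l 15759416) (b (l 3) (l 15740176)))))) (c (c (c (l 15749552) (l 15614000)) (c (b (l 15714136) (l 15749688)) (l 15728336))) (c (c (l 15726104) (b (l 15701072) (c (l 15746328) (b (l 15733280) (l 15750016))))) (c (b (a (l 15694800) (c (l 15690640) (l 15675392))) (b (l 15710352) (l 15722280))) (b (c (l 15660816) (l 15582840)) (c (l 15693168) (l 15686136)))))))) (a (b (l 3) (a (l 3) (a (l 3) (a (a (l 3) (c (l 15469096) (c (c (l 15473632) (l 15450984)) (l 15430336)))) (c (l 15518056) (c (c (l 15523128) (l 15500736)) (l 15480424))))))) (c (a (a (b (l 670717274551) (l 15602048)) (b (l 15710896) (l 15757432))) (c (a (b (l 15780072) (l 15810944)) (b (l 15802984) (l 15834528))) (l 15806160))) (c (c (b (a (l 15690768) (l 15788024)) (c (a (l 15576144) (l 15824504)) (b (c (l 15566256) (l 15604736)) (l 15605456)))) (b (c (b (a (l 15741712) (l 15775408)) (a (l 15721616) (l 15788872))) (l 15713064))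 (c (l 15681144) (a (b (l 15681512) (l 15657528)) (l 15628792))))) (c (a (b (a (l 15633264) (l 15700720)) (l 15534888)) (b (c (l 15643872) (l 15736888)) (l 15773472))) (l 15616448))))))), by decide +kernel⟩

def k6_pm_102 : ∃ t, chk3 f_pm_102 t 28 133 2 = true :=
  ⟨(a (l 3) (a (l 3) (b (l 3) (b (l 3) (c (c (l 15583688) (c (l 15576312) (l 15549984))) (l 15529304)))))), by decide +kernel⟩

def k7_pm_102 : ∃ t, chk3 f_pm_102 t 29 133 4 = true :=
  ⟨(a (c (b (a (l 15517880) (a (l 15461752) (a (b (l 26471854583) (l 15468992)) (b (l 15486320) (l 15450256))))) (b (a (l 15529504) (l 15463984)) (c (l 15515464) (c (l 15516896) (l 15517232))))) (b (c (a (l 15522616) (a (l 15487096) (a (l 15469456) (l 15444656)))) (b (a (l 3) (a (l 15463416) (a (l 15446376) (b (l 15500776) (l 15486008))))) (a (l 15520968) (a (b (l 15466056) (l 15464088)) (a (l 15445824) (c (b (l 15455840) (l 15446712)) (l 15464624))))))) (c (b (c (l 15510904) (b (a (l 15532936) (l 15464288)) (l 15486704))) (b (c (b (l 15514488) (l 15514392)) (l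 15503416)) (l 15504864))) (b (l 15490008) (c (l 15486152) (b (l 15474792) (l 15408968))))))) (c (a (a (b (l 15575088) (b (l 15529680) (a (c (l 15456496) (l 15456312)) (l 15530352)))) (b (l 15714328) (l 15652784))) (b (l 15820904) (l 15774800))) (a (b (c (l 15628800) (c (b (l 15667984) (b (l 15601192) (a (l 15552496) (l 15693112)))) (b (b (l 15677424) (l 15512216)) (b (l 15552848) (l 15611264))))) (a (a (b (c (c (l 15496672) (b (l 15502080) (a (l 15446600) (l 15497952)))) (l 15475432)) (c (a (l 15435544) (l 15469080)) (l 15440280))) (c (l 15539168) (l 15520712))) (c (l 15561248) (l 15522416)))) (b (b (b (l 15848440) (l 15863000)) (c (l 15883488) (l 15877848))) (c (b (l 15829448) (l 15791512)) (b (l 15855240) (l 15790752))))))), by decide +kernel⟩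

def k8_pm_102 : ∃ t, chk3 f_pm_102 t 29 133 5 = true :=
  ⟨(a (c (b (a (b (l 3) (c (l 15495928) (l 15479808))) (c (b (a (l 15469992) (a (l 15452736) (l 15479392))) (a (l 15459888) (a (l 15441808) (c (l 15449832) (b (l 15440208) (l 15427232)))))) (b (a (l 15445088) (a (c (l 15410144) (l 15401768)) (c (l 15458072) (l 15449744)))) (a (l 15443352) (a (l 15425072) (l 15426544)))))) (c (b (c (a (l 15492664) (b (l 15446704) (l 15443424))) (l 15462624)) (l 15465208)) (l 15458112))) (a (l 15472568) (b (a (l 15433832) (a (l 15415952) (l 15432760))) (l 15423256)))) (c (b (b (c (c (a (a (l 15590616) (l 15709064)) (l 15806528)) (l 15615496)) (c (b (l 15549896) (a (a (l 15550216) (l 15691776)) (l 15824376))) (a (b (l 15635768) (l 15615808)) (l 15810640)))) (a (c (c (l 15609912) (b (l 15608608) (a (l 15513360) (l 15655896)))) (l 15419968)) (c (l 15855624) (l 15840480)))) (a (a (b (c (c (b (l 15500192) (b (l 15482432) (l 15472288))) (l 15440704)) (l 15476952)) (l 15449016)) (l 15603248)) (c (l 15670904) (l 15808752))))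 (a (a (b (l 15526672) (l 15410064)) (l 15628232)) (l 15811008)))), by decide +kernel⟩

def k9_pm_102 : ∃ t, chk3 f_pm_102 t 28 134 2 = true :=
  ⟨(a (a (l 3) (c (b (l 3) (b (c (l 15671840) (l 15638280)) (c (c (l 15676464) (l 15651240)) (l 15639328)))) (l 15624800))) (c (c (b (c (b (l 15613440) (c (l 15620856) (a (l 15642576) (l 15598368)))) (b (a (l 15633192) (c (l 15592912) (l 15587064))) (a (l 15628216) (l 15583800)))) (c (b (c (a (l 15647488) (c (l 15584352) (l 15602560))) (l 15616168)) (l 15612456)) (b (l 15595784) (c (l 15592160) (b (l 15519744) (l 15581160)))))) (b (c (b (l 15589368) (c (l 15585256) (a (l 15595600) (l 15551320)))) (b (a (l 15589992) (l 15544784)) (l 15567616))) (c (b (c (a (l 15599408) (l 15555800)) (l 15573576)) (l 15576280)) (l 15569984)))) (a (l 15579224) (l 15530368)))), by decide +kernel⟩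

def k10_pm_102 : ∃ t, chk3 f_pm_102 t 29 268 2 = true :=
  ⟨(a (c (c (c (b (l 15523424) (b (l 15528984) (c (l 15532480) (b (l 15530592) (l 15530192))))) (c (b (b (l 15522520) (b (l 15524880) (l 15525304))) (b (l 15502552) (l 15519072))) (b (b (b (l 15519904) (l 15519016)) (l 15515696)) (l 15507640)))) (c (b (l 15496960) (c (l 15493496) (b (a (l 15506704) (l 15460240)) (l 15480696)))) (b (c (b (l 15478728) (l 15434248)) (l 15471448)) (l 15474360)))) (l 15456248)) (c (a (c (c (a (b (a (l 15472640) (l 15499304)) (a (l 15476496) (b (l 15459424) (l 15451168)))) (l 15584120)) (a (a (c (l 15447424) (l 15438136)) (b (b (l 15502000) (l 15483264)) (l 15462032))) (b (l 15596296) (l 15550456)))) (a (a (c (l 15420016) (l 15401968)) (b (c (l 15471384) (l 15450208)) (c (c (l 15442744) (l 15431904)) (l 15401688)))) (c (l 15551528) (l 15534008)))) (c (c (b (l 15812832) (l 15693008)) (b (a (l 15737008) (l 15875144)) (l 15741216))) (c (b (l 15787336) (l 15656600)) (b (l 15726416) (l 15726408))))) (a (a (a (l 15398976)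 (l 15415520)) (l 15509400)) (l 15723712)))), by decide +kernel⟩

def k11_pm_102 : ∃ t, chk3 f_pm_102 t 29 269 2 = true :=
  ⟨(a (c (c (b (c (c (b (l 15535120) (b (l 15535560) (l 15534368))) (l 15524888)) (l 15504336)) (c (l 15521824) (l 15497920))) (c (b (c (b (a (l 15490088) (l 15465032)) (l 15485504)) (l 15480976)) (l 15484656)) (l 15475872))) (l 15456712)) (c (a (c (a (b (a (l 15442656) (b (b (b (l 15435384) (l 15433912)) (l 15432168)) (l 15429600))) (l 15430656)) (a (b (c (b (l 15500224) (l 15480304)) (l 15467976)) (c (l 15437456) (c (l 15419120) (l 15430272)))) (c (l 15513568) (l 15513160)))) (a (b (l 15400656) (l 15420360)) (b (c (l 15378248) (l 15471800)) (l 15444136)))) (c (c (b (c (l 15676640) (l 15730968)) (l 15688184)) (b (l 15714048) (c (l 15671504) (l 15620440)))) (b (l 15480760) (l 15647808)))) (a (a (l 15390400) (l 15389552)) (l 15636816)))), by decide +kernel⟩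

def k12_pm_102 : ∃ t, chk3 f_pm_102 t 14 135 2 = true :=
  ⟨(a (c (c (b (c (b (a (a (l 15709352) (l 15665344)) (c (l 15608664) (l 15595440))) (a (a (a (l 15719600) (l 15688344)) (c (l 15661952) (l 15653552))) (c (b (l 15600856) (l 15554528)) (b (a (l 15612232) (l 15548296)) (l 15589440))))) (a (a (b (l 15692568) (l 15696616)) (l 15648936)) (b (c (b (a (l 15607856) (l 15564752)) (l 15585208)) (l 15581872)) (l 15584600)))) (b (a (a (l 15641416) (l 15653808)) (a (a (l 15622432) (a (l 15585312) (l 15595504))) (l 15567944))) (a (l 15599856) (l 15590040)))) (a (a (l 15697072) (l 15642680)) (l 15575904))) (a (a (l 15686152) (l 15627600)) (l 15556848))) (a (c (c (b (c (b (l 15512976) (l 15465216)) (l 15494856)) (l 15499648)) (l 15480544)) (l 15452048)) (b (a (c (c (a (c (b (l 15455080) (l 15428744)) (l 15415496)) (a (c (b (b (l 15440384) (l 15435504)) (c (l 15436232) (l 15427184))) (l 15398432)) (c (b (l 15465144) (c (l 15416976) (c (l 15409592) (l 15405928)))) (b (l 15446832) (l 15398496))))) (a (l 15419752)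 (a (l 15401880) (l 15418656)))) (a (l 15386848) (a (l 15367280) (l 15383336)))) (c (c (b (c (l 15619072) (l 15496784)) (c (c (l 15576752) (l 15526152)) (l 15579720))) (l 15583544)) (l 15548328))) (a (c (b (b (c (l 15408928) (l 15406360)) (l 15417184)) (l 15416360)) (l 15369136)) (a (a (c (b (b (l 15435016) (l 15416368)) (l 15398816)) (l 15364864)) (l 15448208)) (l 15450216)))))), by decide +kernel⟩

def k13_pm_102 : ∃ t, chk3 f_pm_102 t 14 33 3 = true :=
  ⟨(a (a (b (l 3) (b (c (l 15632936) (l 15620744)) (a (l 15667616) (l 15603176)))) (b (c (l 15527816) (l 15510800)) (b (a (l 15552760) (l 15498728)) (l 15484088)))) (a (b (b (a (l 3) (a (l 3) (c (b (l 3) (b (l 3) (l 15440240))) (l 131161346951)))) (b (a (l 15444232) (a (l 15405176) (a (l 15387856) (c (l 15414672) (l 15393080))))) (c (l 15428400) (l 15407104)))) (b (c (a (l 15456160) (l 15401008)) (l 15406216)) (l 15410192))) (b (a (b (c (l 15619008) (l 15691992)) (b (c (l 15559672) (l 15562096)) (a (c (a (l 15398352) (l 15456264)) (l 15407296)) (l 15554192))))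 (c (b (b (l 15636224) (l 15722848)) (l 15651072)) (b (l 15633536) (l 15810400)))) (a (b (a (b (a (l 15352992) (c (l 15380536) (l 15356840))) (l 15342048)) (b (l 15463624) (a (l 15350536) (l 15409080)))) (a (l 15336232) (b (a (l 15316640) (l 15332200)) (l 15305640)))) (b (c (c (l 15608424) (l 15638232)) (l 15625776)) (b (l 15415912) (b (l 15432040) (l 15308008)))))))), by decide +kernel⟩

def k14_pm_102 : ∃ t, chk3 f_pm_102 t 60 64 1 = true :=
  ⟨(l 3), by decide +kernel⟩

def k15_pm_102 : ∃ t, chk3 f_pm_102 t 60 130 1 = true :=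
  ⟨(a (l 3) (a (l 3) (a (l 3) (l 1)))), by decide +kernel⟩

def k16_pm_102 : ∃ t, chk3 f_pm_102 t 120 131 1 = true :=
  ⟨(b (b (l 3) (a (l 3) (a (l 3) (c (c (l 15683176) (l 15566576)) (c (c (c (l 15492328) (l 15442600)) (l 15390592)) (l 15289008)))))) (c (c (b (l 15697048) (a (l 15713344) (c (l 15783760) (l 15734888)))) (c (b (l 15626120) (l 15679392)) (c (b (l 15598576) (c (l 15659568) (b (l 15637360) (l 15662752)))) (b (c (l 15584248) (b (l 15556208) (l 15578408))) (c (l 15673648) (l 15606656)))))) (c (c (c (b (c (l 15540768) (b (l 15504440) (l 15530160))) (c (b (l 15572640) (l 15597160)) (l 15570976))) (l 15522880)) (l 15478944)) (l 15396360)))), by decide +kernel⟩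

def k17_pm_102 : ∃ t, chk3 f_pm_102 t 242 131 1 = true :=
  ⟨(c (c (b (b (a (l 3) (l 15692768)) (l 15727608)) (b (l 15771768) (c (l 15845584) (c (l 15801792) (l 15773688))))) (c (b (c (l 15614344) (l 15579448)) (b (l 15680880) (l 15737704))) (b (c (l 15547416) (l 15517672)) (b (c (l 15642800) (c (l 15623160) (b (l 15590840) (l 15615384)))) (c (c (l 15709160) (b (l 15682560) (a (l 15699856) (l 15720280)))) (b (c (l 15664520) (l 15636760)) (l 15672336))))))) (c (c (b (b (b (l 3) (c (l 15466032) (l 15409264))) (c (b (l 15495944) (l 15523488)) (b (l 15439992) (l 15471784)))) (c (c (b (l 15573968) (b (l 15610320) (l 15636984))) (b (b (l 15533280) (l 15561960)) (l 15606232))) (l 15550824))) (l 15429192)) (b (l 15243032) (l 15399328)))), by decide +kernel⟩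

def k18_pm_102 : ∃ t, chk3 f_pm_102 t 243 131 1 = true :=
  ⟨(b (b (a (b (a (l 3) (l 1)) (c (c (a (a (l 15723272) (c (l 15772696) (l 15692488))) (c (l 15790400) (l 15709856))) (a (c (l 15608656) (l 15537800)) (l 15593744))) (c (c (a (c (l 15485696) (l 15426504)) (c (l 15504552) (l 15445256))) (l 15366984)) (l 15238200)))) (l 1)) (a (c (c (a (l 15764856) (b (a (l 15766624) (l 15778184)) (l 15795576))) (c (a (l 15653568) (b (l 15655592) (l 15683600))) (b (l 15580304) (l 15612840)))) (c (c (c (c (b (a (l 15530784) (l 15544992)) (l 15565560)) (b (l 15508608) (l 15532744))) (b (a (l 15457112) (l 15470848)) (l 15495568))) (l 15418000)) (l 15295048))) (a (b (l 1) (c (c (l 756482945863) (c (l 15705352) (l 15639616))) (c (c (c (l 15659208) (l 15520592)) (l 15457272)) (l 15333304)))) (l 1)))) (b (a (c (c (l 15821816) (c (l 15720512) (c (l 15676448) (c (l 15653744) (b (l 15619144) (l 15645144)))))) (c (c (c (c (l 15602312) (b (l 15559952) (l 15589784))) (l 15544496)) (l 15485536)) (l 15371072))) (c (a (c (b (a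 (l 15833616) (l 15845368)) (l 15861840)) (b (c (l 15731080) (b (c (l 15676400) (l 15643704)) (l 15673680))) (c (l 15758776) (l 15694272)))) (c (l 754872443207) (c (l 15768832) (l 15702824)))) (c (c (a (b (b (c (l 15589960) (l 15540640)) (l 15578392)) (l 15599808)) (l 15609968)) (l 15513760)) (l 15395312)))) (c (c (a (l 15868136) (a (l 15896080) (c (b (l 15940600) (l 15960688)) (l 15882776)))) (c (l 15795152) (b (c (l 15738104) (l 15696352)) (c (l 15765920) (l 15719168))))) (c (a (l 15589888) (a (l 15605704) (l 15621128))) (l 15456232))))), by decide +kernel⟩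

def k19_pm_102 : ∃ t, chk3 f_pm_102 t 61 32 1 = true :=
  ⟨(a (a (a (a (b (l 1) (b (l 1) (b (l 1) (b (l 1) (b (l 1) (c (c (l 15950936) (c (l 15856368) (l 15786776))) (l 15582744))))))) (l 1)) (l 1)) (l 1)) (l 1)), by decide +kernel⟩

def k20_pm_102 : ∃ t, chk3 f_pm_102 t 60 66 1 = true :=
  ⟨(c (c (b (a (b (c (b (l 15796040) (a (l 15806992) (l 15859928))) (c (b (l 15766136) (l 15806360)) (l 15773056))) (b (c (c (l 15870632) (l 15857456)) (l 15842656)) (l 15891792))) (b (c (l 15941800) (l 15891184)) (c (l 16017064) (l 15979008)))) (c (b (a (l 15947248) (l 16083600)) (a (l 15997392) (a (l 16097568) (l 16180280)))) (c (b (l 15993840) (b (a (l 15976632) (a (l 16067992) (l 16144776))) (a (l 15992160) (l 16019104)))) (b (a (b (l 15912600) (l 15937816)) (b (l 16027320) (c (l 16064024) (l 16049752)))) (b (l 16010520) (a (l 15968576) (l 15991904))))))) (b (c (b (a (c (l 15760600) (b (l 15723064) (c (l 15774936) (c (l 15768848) (l 15761712))))) (b (l 15819248) (c (l 15881672) (l 15856944)))) (b (c (a (l 15827832)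 (l 15928208)) (a (c (c (l 15818592) (l 15811080)) (l 15795712)) (l 15897280))) (c (a (l 15863400) (l 15967256)) (a (l 15831552) (l 15930872))))) (b (c (a (b (c (b (l 15699256) (l 15721440)) (l 15691512)) (c (l 15746128) (l 15723248))) (b (l 15775216) (l 15818040))) (a (b (c (l 15667352) (b (l 15636352) (l 15658848))) (c (l 15705712) (l 15693856))) (b (l 15728944) (l 15776504)))) (c (b (a (c (l 15774640) (l 15758816)) (l 15856544)) (a (l 15803008) (l 15896752))) (l 15799048)))) (b (c (c (b (a (l 15889400) (l 15998344)) (a (l 15909488) (l 16024216))) (b (a (l 15858536) (c (l 15970768) (l 15955392))) (l 15935064))) (l 15888248)) (c (b (a (l 15922616) (a (l 15941568) (l 16076384))) (l 15956640)) (l 15953336))))) (c (b (a (b (l 15618920) (l 15716168)) (b (l 15669632) (l 15776720))) (a (c (l 15848152) (l 15822928)) (c (l 15934608) (l 15895464)))) (b (a (l 15589872) (b (l 15548672) (l 15678272))) (a (l 15796584) (l 15851032))))), by decide +kernel⟩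

def k21_pm_102 : ∃ t, chk3 f_pm_102 t 61 66 1 = true :=
  ⟨(b (a (a (b (a (c (c (c (b (a (l 16013248) (l 16037736)) (a (l 16052192) (l 16074912))) (b (l 15963264) (l 16008152))) (c (b (l 15906120) (c (l 15969072) (a (l 15929208) (l 16033400)))) (c (b (a (l 15843704) (l 15867968)) (b (l 15887080) (l 15907312))) (b (a (l 15795688) (l 15820360)) (l 15854792))))) (c (b (l 15710136) (l 15764856)) (l 15602888))) (b (l 1) (c (c (c (l 16112720) (l 16057040)) (c (l 16002528) (c (l 15947384) (l 15904400)))) (l 15749304)))) (a (c (c (l 16098200) (b (c (c (l 16016160) (l 15982280)) (l 15922392)) (c (c (l 16058224) (l 16020304)) (l 15968256)))) (c (l 15847864) (l 15734736))) (c (b (c (c (a (b (l 16126888) (l 16145576)) (l 16161584)) (l 16098792)) (c (c (l 16060856) (a (l 16013536) (l 16039376))) (c (c (l 15994240) (l 15974424)) (l 15948552)))) (c (a (l 16151192) (l 16174912)) (a (l 16036136) (c (l 16093528) (l 16021696))))) (c (b (l 15862872) (l 15913696)) (l 15774400))))) (b (l 1) (b (l 1) (c (c (c (l 730713979447)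 (l 16218656)) (l 16129840)) (l 15947616))))) (l 1)) (a (c (c (a (c (l 16246440) (b (l 16173656) (l 16231832))) (b (a (a (b (l 16258112) (l 16271864)) (c (l 659847121031) (l 16258640))) (c (l 16341008) (l 16299528))) (b (a (l 16315888) (c (l 16390680) (l 16348032))) (c (l 16392816) (l 16348400))))) (a (c (l 15961224) (l 16093840)) (b (a (c (b (l 16169552) (l 16203440)) (l 16125680)) (l 16215456)) (a (l 16229064) (l 16263656))))) (a (c (l 16017832) (l 15938632)) (c (b (a (b (l 16014120) (l 16061232)) (l 16099560)) (c (l 16180088) (l 16136400))) (b (l 15978016) (l 16088744))))) (b (l 1) (a (c (a (c (c (l 16519792) (l 16416696)) (l 16343224)) (l 1)) (l 429528948343)) (l 1))))), by decide +kernel⟩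

def k22_pm_102 : ∃ t, chk3 f_pm_102 t 30 67 1 = true :=
  ⟨(a (c (c (a (b (b (c (c (b (l 16026432) (l 15939120)) (b (l 15935792) (l 16009592))) (c (b (l 16000960) (l 15875032)) (b (l 15961448) (l 15977504)))) (b (a (c (c (l 15909912) (l 15911704)) (l 15868480)) (l 16021760)) (l 15837272))) (c (l 15678416) (l 15799064))) (b (c (b (l 16170688) (l 16138368)) (l 16062104)) (c (b (l 16105008) (l 16016952)) (l 16035456)))) (a (b (l 15894112) (l 15761752)) (l 15897152))) (c (a (b (c (l 15866224) (l 15898728)) (l 15725024)) (b (l 16038760) (l 15961056))) (a (l 15633224) (l 15997912)))) (c (a (b (c (c (b (l 16367440) (l 16320168)) (l 16194072)) (l 16286328)) (c (c (l 16132336) (l 16273584)) (l 16212720))) (c (b (a (c (b (a (b (c (l 16509224) (l 16491720)) (l 16501144)) (c (l 16564872) (l 16548832))) (a (l 16538128) (b (l 16590880) (l 16603216)))) (b (a (b (l 16458120) (l 16481824)) (l 16518840)) (a (l 16504760) (l 16563688)))) (b (l 1) (c (c (l 460131560039) (l 16653704)) (l 16633112)))) (a (c (l 16345592) (l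 16466400)) (a (b (l 16525968) (l 16556792)) (b (l 394633236519) (a (l 16570432) (c (l 16566480) (l 16623856))))))) (b (a (a (l 16433392) (l 16465704)) (l 16562928)) (a (l 16405816) (b (l 16529384) (l 16470808)))))) (a (b (c (l 16139720) (l 16190544)) (c (l 16134840) (l 16187440))) (b (c (a (b (a (c (l 16344104) (l 16314568)) (l 16383384)) (a (l 16400576) (l 16455552))) (l 16505856)) (a (b (l 16312280) (l 16342864)) (l 16482136))) (a (c (l 16329080) (l 16383808)) (c (b (a (l 16545440) (l 16572584)) (l 16397976)) (b (l 16510168) (l 16434440)))))))), by decide +kernel⟩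

def k23_pm_102 : ∃ t, chk3 f_pm_102 t 31 16 1 = true :=
  ⟨(a (a (a (a (a (b (l 1) (b (l 1) (b (l 1) (b (l 1) (c (c (l 396780685175) (l 16595392)) (l 16562400)))))) (l 1)) (l 1)) (l 1)) (l 1)) (l 1)), by decide +kernel⟩

def k24_pm_102 : ∃ t, chk3 f_pm_102 t 28 17 1 = true :=
  ⟨(b (b (c (a (a (b (b (l 15624544) (b (l 15717776) (l 15729056))) (l 15762992)) (b (b (c (l 15651272) (l 15628384)) (l 15621848)) (c (l 15683072) (l 15655016)))) (b (c (l 15563152) (l 15551872)) (c (l 15597616) (l 15562344)))) (b (a (a (b (l 15680944) (l 15695176)) (b (l 15602968) (l 15604096))) (l 15519424)) (a (l 15661856) (l 15531224)))) (a (c (b (c (l 15769160) (l 15743160)) (c (l 15801880) (l 15777232))) (b (l 15722720) (l 15758536))) (c (b (c (a (l 15633848) (l 15580008)) (a (l 15600264) (l 15542432))) (a (c (b (l 15643728) (l 15652312)) (l 15617944)) (l 15563632))) (b (a (l 15572552) (l 15511744)) (a (l 15591720) (l 15516184)))))) (b (a (c (b (c (a (l 15882768) (l 15778560)) (l 15810656)) (a (b (l 15897312) (l 15906912))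 (l 15791520))) (b (l 15792984) (l 15794928))) (a (c (c (l 15573120) (l 15652232)) (l 15627096)) (c (c (b (l 15577136) (l 15578968)) (l 15552336)) (l 15523504)))) (b (c (a (l 15864704) (l 15508192)) (l 15656360)) (c (a (l 15881280) (l 15650224)) (l 15716368))))), by decide +kernel⟩

def k25_pm_102 : ∃ t, chk3 f_pm_102 t 29 17 1 = true :=
  ⟨(b (c (b (a (b (c (b (l 15488304) (l 15487248)) (b (l 15446096) (l 15380296))) (c (a (l 15520088) (l 15467096)) (c (l 15459792) (l 15440552)))) (b (b (a (c (l 15414360) (l 15364584)) (a (a (l 15372568) (c (l 15400016) (l 15345584))) (l 15444880))) (a (l 15386208) (a (c (l 15373584) (l 15318112)) (c (a (l 15383528) (l 15440704)) (a (l 15326552) (l 15383632)))))) (b (a (l 15387600) (a (l 15345184) (c (a (l 15353272) (l 15368712)) (a (l 15274512) (l 15310152))))) (c (l 15385440) (l 15331128))))) (b (a (c (b (l 15497328) (l 15496176)) (c (l 15460984) (l 15445568))) (c (l 15380376) (l 15328472))) (c (a (l 15492064) (l 15368824)) (a (l 15451960) (l 15321872))))) (b (a (b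 (b (l 15404936) (l 15403392)) (l 15413032)) (b (a (b (l 15317488) (l 15315216)) (a (b (l 15292672) (l 15270248)) (l 15289296))) (a (l 15319880) (a (l 15272496) (b (l 15261072) (l 15240912)))))) (a (b (l 15418944) (l 15418984)) (l 15286776)))) (b (c (a (c (b (l 15482968) (l 15471352)) (l 15445440)) (c (b (l 15354008) (c (l 15348056) (l 15322248))) (b (l 15313824) (l 15301272)))) (a (l 15412752) (b (l 15276680) (a (l 15303272) (c (l 15241400) (l 15211912)))))) (c (a (a (b (l 15479384) (l 15477736)) (b (l 15411104) (l 15398544))) (a (c (b (l 15356576) (l 15340800)) (l 15320112)) (c (b (l 15267680) (l 15274768)) (l 15254152)))) (a (l 15398872) (c (a (l 15294536) (l 15227544)) (c (a (l 15270688) (b (l 15209288) (l 15200368))) (l 15186472))))))), by decide +kernel⟩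

def k26_pm_102 : ∃ t, chk3 f_pm_102 t 30 17 4 = true :=
  ⟨(b (a (b (a (b (l 15634984) (a (b (l 15445968) (l 15346016)) (l 15516056))) (b (l 15868840) (l 15686360))) (a (b (a (b (a (l 15308624) (l 15309896)) (l 15287360)) (b (l 15380160) (l 15297024))) (a (l 15274296) (b (a (l 15235768) (l 15235336)) (l 15211200)))) (b (l 15438488) (a (b (l 15305392) (l 15220080)) (l 15368448))))) (b (a (b (l 16019000) (l 15894880)) (a (l 16090888) (a (l 16276016) (l 16192304)))) (a (l 15399184) (a (l 15747856) (c (l 15861368) (l 15956696)))))) (b (a (a (b (c (l 15243520) (l 15210320)) (c (l 15223088) (l 15195312))) (b (a (b (a (l 15158104) (l 15158080)) (l 15133504)) (b (l 15226408) (a (l 15118480) (l 15159136)))) (a (l 15119448) (a (l 15074640) (c (l 15077488) (l 15048616)))))) (a (b (l 15174728) (a (c (l 15118744) (b (l 15129776) (l 15045352))) (l 15079512))) (c (a (l 15436448) (l 15489528)) (b (l 15583248) (l 15390232))))) (a (c (b (l 15140912) (l 15121192)) (l 15112720)) (a (a (b (c (b (a (l 15009136) (l 14986320))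 (l 14981360)) (l 14979928)) (l 14934832)) (b (c (c (l 15038664) (l 15023536)) (l 15009448)) (b (c (a (l 14922448) (l 14898648)) (l 14886352)) (l 14865048)))) (c (a (b (l 15142904) (b (l 14997080) (a (l 14857136) (l 14937336)))) (c (b (l 15305264) (l 15107856)) (l 15193368))) (b (l 15199032) (a (l 14938496) (l 15084112)))))))), by decide +kernel⟩

def k27_pm_102 : ∃ t, chk3 f_pm_102 t 30 17 5 = true :=
  ⟨(b (a (b (b (a (l 15516224) (l 15728256)) (a (a (c (l 15362192) (l 15295200)) (l 15457280)) (c (l 15639136) (l 15614520)))) (a (b (a (b (a (l 15250144) (l 15250544)) (l 15230440)) (b (l 15320688) (a (l 15215600) (l 15257248)))) (a (l 15222656) (a (l 15176504) (b (l 15178984) (l 15144624))))) (b (c (l 15390144) (l 15434112)) (a (b (l 15249992) (l 15168088)) (l 15317072))))) (b (a (b (b (l 16092656) (l 15956896)) (c (l 15870208) (l 15825992))) (b (l 16091920) (l 15899352))) (a (c (l 15440272) (l 15571128)) (c (b (l 15925416) (l 15755168)) (l 15775408))))) (a (b (a (l 15177824) (b (a (l 15107344) (l 15141056))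 (a (l 15080832) (b (l 15042952) (l 15016256))))) (c (l 15098248) (l 15083664))) (a (b (b (l 15300072) (a (l 15066360) (l 15168232))) (b (a (b (l 14965576) (l 14937096)) (l 14881240)) (a (l 14922680) (b (l 14882592) (l 14852304))))) (b (b (l 15560464) (l 15370176)) (b (l 15178128) (a (c (l 14922288) (l 14905976)) (l 15058904))))))), by decide +kernel⟩

def k28_pm_102 : ∃ t, chk3 f_pm_102 t 30 34 3 = true :=
  ⟨(a (b (b (l 15420928) (a (a (l 15305056) (l 15414096)) (c (l 15597440) (l 15576072)))) (a (b (a (l 15204832) (l 15239696)) (a (l 15181544) (c (l 15147624) (c (l 15126744) (l 15111536))))) (c (b (l 15416512) (a (l 15183456) (l 15290360))) (b (l 15328640) (a (c (l 15162936) (l 15149496)) (l 15262432)))))) (b (a (c (b (l 16014952) (l 15832864)) (b (l 16001280) (l 15816384))) (b (c (l 16190712) (l 16139952)) (c (l 16066248) (l 15992704)))) (a (c (c (l 15560640) (l 15549984)) (c (l 15412048) (l 15531792))) (c (c (l 15767208) (b (l 15916280) (l 15725208))) (b (l 15783704) (l 15510400)))))), by decide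 +kernel⟩

def k29_pm_102 : ∃ t, chk3 f_pm_102 t 30 35 3 = true :=
  ⟨(a (b (a (c (l 15149752) (c (l 15104824) (l 15116512))) (c (a (c (l 15075128) (l 14997504)) (b (l 15112560) (b (l 15012712) (l 14985520)))) (b (a (b (c (l 15064160) (l 15050576)) (l 15029488)) (b (l 15124336) (c (l 15046584) (l 15036744)))) (a (l 15023160) (c (b (c (l 14992952) (l 14991432)) (l 14967976)) (l 14965536)))))) (c (c (l 15068904) (a (l 15118728) (c (l 14992920) (l 14983808)))) (c (c (a (l 15099784) (l 14983376)) (l 15037008)) (l 15027392)))) (b (a (c (c (b (l 15280728) (l 15096552)) (b (l 15266576) (a (l 15027584) (l 15131960)))) (b (l 15128624) (a (c (c (l 15018296) (l 15019360)) (l 14998408)) (l 15102320)))) (c (c (l 15194632) (c (l 15311728) (b (l 15531688) (l 15338352)))) (b (a (l 15381656) (l 15600520)) (l 15320288)))) (a (c (c (b (a (l 14932360) (l 14962544)) (b (l 14880704) (l 14857744))) (a (b (b (l 14924416) (l 14896048)) (l 14883672)) (b (c (l 14949936) (l 14944888)) (c (l 14836448) (l 14826168))))) (b (a (c (c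 (l 14906728) (l 14896048)) (l 14883808)) (l 14922688)) (l 14833560))) (c (c (b (l 15113872) (a (b (l 14930512) (l 14822144)) (l 15041736))) (c (b (l 15148776) (l 14829248)) (l 15043824))) (b (l 15121360) (l 14925400)))))), by decide +kernel⟩

def k30_pm_102 : ∃ t, chk3 f_pm_102 t 31 68 1 = true :=
  ⟨(a (a (c (c (a (b (a (b (c (c (a (l 16611944) (l 16627568)) (l 16575936)) (l 16596464)) (l 16456688)) (c (c (b (l 16692432) (a (l 16627872) (l 16669240))) (l 16534040)) (l 16476064))) (c (l 16217320) (l 16394952))) (c (b (c (l 16610648) (l 16610600)) (a (b (a (l 16566976) (l 16590920)) (l 16558720)) (b (l 16652384) (l 16552896)))) (b (l 16560528) (a (b (l 16497040) (l 16502192)) (b (l 16623120) (l 16457504)))))) (b (a (b (l 16486544) (l 16342904)) (l 16584992)) (a (l 16297024) (c (a (l 16479360) (l 16464160)) (b (l 16493640) (l 16455928)))))) (b (a (c (b (l 16525008) (l 16448328)) (b (l 16479712) (l 16382056))) (l 16560496)) (a (c (l 16363192) (l 16360072)) (b (c (l 16408896) (a (l 16497968) (l 16544832)))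 (a (l 16380856) (c (l 16467072) (l 16505376))))))) (a (b (l 1) (c (c (c (c (l 16590184) (l 16622232)) (l 16620840)) (c (l 16523416) (l 16549688))) (l 420402866999))) (l 1))) (l 1)), by decide +kernel⟩

def k31_pm_102 : ∃ t, chk3 f_pm_102 t 31 69 1 = true :=
  ⟨(a (c (a (c (a (c (c (l 16000328) (l 16007008)) (l 16037056)) (c (a (l 16207728) (l 16347056)) (a (l 16149680) (l 16165472)))) (c (b (l 16090160) (l 15977360)) (l 15964352))) (a (c (c (b (b (a (l 16561768) (l 16587056)) (l 16395392)) (l 16386456)) (b (a (l 16360784) (l 16546912)) (l 16335152))) (b (c (a (b (l 16418600) (l 16444232)) (c (l 16470352) (l 284037437191))) (a (l 16459528) (l 16485600))) (c (c (l 16250880) (l 16334936)) (l 16322632)))) (a (c (b (l 401612390103) (b (l 16411920) (l 16435560))) (b (c (l 16560544) (l 16537360)) (c (b (l 16426008) (l 16430872)) (b (l 16386392) (l 16413088))))) (b (l 1) (c (b (l 16528240) (l 16382128)) (c (l 16439960) (b (l 16519696) (l 16375352)))))))) (a (b (c (c (l 16241456) (l 16052184)) (l 16069560)) (c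 (c (l 16066416) (l 15860792)) (l 16052264))) (b (a (c (c (b (l 16509616) (l 16428608)) (b (l 16446200) (l 16365768))) (b (l 16504472) (l 16443592))) (c (l 421476550199) (l 16516656))) (a (c (c (l 16318072) (l 16222176)) (l 16308592)) (c (c (b (l 16421152) (l 16339424)) (l 16359032)) (l 16291984)))))) (a (a (a (b (l 1) (b (l 1) (b (l 1) (c (c (l 16496664) (l 16464832)) (l 16439712))))) (l 1)) (l 1)) (l 1))), by decide +kernel⟩

def k32_pm_102 : ∃ t, chk3 f_pm_102 t 31 70 1 = true :=
  ⟨(a (c (a (c (c (a (c (l 15646576) (l 15693992)) (l 15780496)) (a (c (l 15668752) (l 15720328)) (c (b (l 16019576) (l 15798776)) (l 15682288)))) (c (l 15645848) (l 15677136))) (c (c (a (l 16083648) (l 16138216)) (a (c (l 16061296) (l 15907952)) (l 15964880))) (a (c (c (l 15936000) (l 16000360)) (l 15879400)) (c (l 16031560) (b (c (l 16269736) (l 16238784)) (c (l 16070128) (l 16082296))))))) (a (c (c (c (l 15668952) (l 15625328)) (c (l 15622024) (l 15763896))) (l 15752832)) (c (c (b (l 15998728) (l 15859768)) (l 15976232))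 (l 15904608)))) (a (c (c (c (b (a (a (l 16295720) (b (l 16483544) (l 16441872))) (c (l 16465856) (l 16467240))) (a (l 16268688) (b (a (l 16417120) (l 16436712)) (l 16253072)))) (b (a (b (l 16459392) (l 16351816)) (l 16460336)) (a (l 16256208) (b (l 16369736) (l 16324992))))) (a (b (c (b (l 16457984) (l 16395256)) (a (b (l 16443392) (l 16385168)) (l 16371768))) (c (l 16257376) (l 16118624))) (b (l 423623860199) (c (b (l 16387656) (l 16303056)) (a (l 16297448) (l 16397928)))))) (c (a (b (c (a (b (l 16411128) (l 16372064)) (b (l 16478760) (l 16395696))) (l 16303952)) (c (l 16175528) (l 16243616))) (b (c (l 16461536) (l 16460480)) (c (a (l 16299504) (l 16403304)) (a (l 16256296) (b (l 16430624) (l 16365928)))))) (b (a (l 16278416) (l 16450328)) (a (l 16236848) (l 16216688))))) (a (a (b (l 1) (c (c (c (l 16422520) (l 16414896)) (l 415570710631)) (c (l 16413176) (l 16409176)))) (l 1)) (l 1)))), by decide +kernel⟩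

def k33_pm_102 : ∃ t, chk3 f_pm_102 t 31 71 1 = true :=
  ⟨(a (c (c (a (c (a (a (c (l 15279432) (l 15207544)) (c (l 15276496) (l 15365176))) (c (l 15429064) (b (l 15642504) (l 15445048)))) (a (l 15337144) (c (l 15441544) (l 15500368)))) (c (b (l 15784672) (l 15414464)) (a (l 15595336) (l 15812544)))) (a (c (l 15191672) (b (l 15486472) (l 15247752))) (c (a (c (l 15603096) (l 15494480)) (c (l 15816720) (l 15672112))) (a (c (l 15630104) (l 15626072)) (c (b (l 15891688) (l 15707192)) (l 15775856)))))) (c (a (c (c (l 15236320) (l 15313928)) (l 15365064)) (l 15609008)) (a (l 15346464) (l 15673808)))) (c (c (a (c (b (l 15972888) (l 15765584)) (b (l 16025752) (l 15799320))) (c (b (a (b (a (l 16347680) (l 16387488)) (a (l 16284128) (l 16280584))) (c (l 16367136) (l 16369520))) (a (l 16081120) (c (b (a (l 16319200) (l 16335408)) (a (l 16234248) (l 16248616))) (b (l 16323952) (l 16257232))))) (b (a (b (l 16367136) (l 16259920)) (l 16375000)) (a (l 16163056) (b (l 16324888) (l 16254600)))))) (a (c (b (a (l 16056824)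 (l 16207824)) (l 15680336)) (a (l 15913544) (l 16105288))) (b (a (c (b (l 16367512) (l 16298288)) (l 16259376)) (l 16368272)) (a (l 16153632) (l 16149568))))) (a (c (a (c (l 15718824) (l 15930944)) (c (l 16042648) (a (l 16060840) (l 16079760)))) (l 15818016)) (c (a (b (a (l 16204064) (l 16349096)) (l 16148472)) (b (l 16362032) (l 16162656))) (a (b (c (a (l 16243904) (c (l 16350064) (l 16328120))) (l 16272200)) (c (l 16014560) (l 16136840))) (c (b (l 16359008) (l 324839029799)) (b (a (l 16351880) (l 1)) (a (l 16072832) (c (l 16288984) (l 16181536)))))))))), by decide +kernel⟩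

def k34_pm_102 : ∃ t, chk3 f_pm_102 t 6 9 1 = true :=
  ⟨(b (b (a (b (a (a (b (c (l 16234952) (l 16215856)) (l 16269040)) (l 16216824)) (c (l 16184088) (l 16163200))) (c (l 16243104) (l 16290160))) (a (b (b (c (l 16088088) (l 16063824)) (c (l 16156384) (l 16134520))) (c (l 16164960) (l 16251944))) (a (b (b (c (l 16003096) (l 16020312)) (c (l 16114280) (l 16091544))) (c (l 16160008) (l 16203640))) (c (b (l 16071360) (l 16218184)) (l 16045896))))) (a (c (b (l 16378536) (l 16589312)) (b (l 16409392) (l 16604400))) (a (b (c (l 16412944) (l 16400112)) (l 16550224)) (a (c (l 16442640) (l 16430864)) (a (b (a (l 16343344) (l 16344792)) (l 16496192)) (c (l 16220568) (l 16361568))))))) (b (a (b (a (c (l 16768888) (l 16768592)) (l 16734640)) (a (l 16717224) (l 16773960))) (b (a (c (l 16693240) (l 16690288)) (c (a (l 16660256) (l 16473816)) (l 16472344))) (a (l 16721504) (l 16569736)))) (a (a (l 16727584) (l 16741072)) (a (l 16651320) (b (l 16546224) (a (l 16543976) (a (l 16508776) (c (l 16490200) (c (l 16486184)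 (c (l 16425720) (l 16482272))))))))))), by decide +kernel⟩

def k35_pm_102 : ∃ t, chk3 f_pm_102 t 14 18 2 = true :=
  ⟨(b (a (a (b (l 15955440) (l 16087128)) (b (l 15727496) (l 15865320))) (a (b (a (l 15548960) (c (l 15454536) (l 15431688))) (c (a (l 15697432) (l 15558360)) (a (l 15678440) (l 15558416)))) (b (c (a (l 15381264) (l 15307504)) (a (l 15357112) (l 15281848))) (c (a (l 15465656) (l 15376680)) (a (l 15442536) (l 15352168)))))) (a (a (l 16220200) (b (c (l 16004432) (l 15989936)) (c (l 15988848) (l 15976720)))) (a (c (b (a (l 15836280) (l 15702296)) (l 15712400)) (b (a (l 15819616) (l 15683008)) (c (l 15869120) (l 15860928)))) (c (b (a (l 15562384) (c (l 15443984) (l 15432256))) (c (l 15592152) (l 15581680))) (c (b (l 15444792) (l 15571136)) (b (l 15454488) (l 15560528))))))), by decide +kernel⟩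

def k36_pm_102 : ∃ t, chk3 f_pm_102 t 14 18 3 = true :=
  ⟨(a (a (b (l 15917184) (l 16267544)) (b (l 15659856) (a (l 16103488) (c (b (l 15919368) (l 16058424)) (c (b (l 15749696) (c (l 16052392) (l 16042128))) (b (l 15901000) (l 16043168))))))) (b (b (a (b (l 15423376) (a (l 15544184) (c (l 15434616) (c (l 15304112) (l 15405000))))) (c (c (l 15282216) (a (l 15326736) (l 15249536))) (c (a (b (l 15285816) (l 15337784)) (b (l 15209832) (l 15257264))) (a (l 15303832) (l 15231400))))) (a (b (a (l 15617848) (c (l 15501424) (c (l 15456800) (l 15473512)))) (c (l 15506768) (c (l 15446432) (l 15585872)))) (c (c (l 15338960) (a (l 15413616) (c (l 15324208) (l 15313696)))) (c (a (b (l 15366952) (c (l 15422248) (l 15420752))) (c (c (l 15311720) (l 15320464)) (l 15317720))) (c (l 15185744) (l 15346008)))))) (a (c (b (c (l 15698736) (a (l 15798936) (l 15659192))) (c (l 15852400) (c (l 15847144) (a (l 15917760) (l 15763024))))) (b (c (a (c (l 15793040) (l 15785192)) (c (l 15523584) (l 15637504))) (a (l 15782712) (l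 15649912))) (c (c (a (l 15907688) (c (l 15760888) (l 15729344))) (l 15661752)) (l 15769312)))) (c (b (c (a (l 15524880) (l 15392528)) (a (c (l 15516728) (l 15506040)) (c (l 15383712) (b (l 15362280) (l 15400776))))) (c (a (l 15624680) (c (l 15468056) (l 15467112))) (c (a (l 15614344) (l 15469520)) (a (c (l 15615488) (l 15617048)) (b (l 15440440) (l 15478136)))))) (c (b (a (c (c (l 15504392) (l 15347064)) (l 15451240)) (b (c (a (l 15384376) (l 15330984)) (l 15349464)) (l 15386432))) (c (a (b (l 15442776) (l 15599992)) (l 15451536)) (l 15525528))) (b (b (l 15411752) (l 15447888)) (l 15517328))))))), by decide +kernel⟩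

def k37_pm_102 : ∃ t, chk3 f_pm_102 t 28 19 1 = true :=
  ⟨(b (a (b (c (b (l 16443888) (a (l 16547304) (l 16452360))) (l 16292952)) (a (l 16520792) (c (c (l 16427216) (l 16420280)) (c (l 16369792) (c (c (l 16410880) (a (l 16398464) (l 16370648))) (c (l 16402608) (l 16403640))))))) (c (b (c (a (l 16235112) (b (l 16173408) (l 16212640))) (a (l 16247376) (b (l 16162888) (l 16202472)))) (c (l 16094352) (l 16021976))) (b (c (a (b (l 16273240) (l 16331288)) (c (l 16177048) (l 16046208))) (b (c (c (l 16071408) (a (l 16252896) (l 16015088))) (a (l 16259744) (l 16147576))) (a (c (b (l 16318296) (l 16334536)) (b (l 16311000) (l 16287624))) (b (c (l 16140760) (l 16183592)) (c (c (l 16190640) (l 16177872)) (l 16199088)))))) (c (c (l 16224472) (a (l 16292440) (l 16139528))) (c (a (b (l 16242568) (l 16220888)) (c (l 16019040) (l 16137992))) (c (l 16037568) (l 16220120))))))) (a (b (c (c (l 16284080) (l 16339992)) (c (a (l 16449848) (l 16344816)) (c (c (l 16214160) (l 16367808)) (a (l 16442552) (l 16299792))))) (c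 (c (l 16296144) (l 16288536)) (c (a (l 16384528) (l 16250720)) (c (a (l 16351472) (l 16214936)) (l 16068248))))) (a (c (c (b (l 16224800) (l 16135944)) (b (l 16215152) (l 16125104))) (c (c (l 16161848) (b (l 16202968) (c (l 16112728) (l 16103200)))) (c (b (c (b (l 16222160) (l 16171728)) (l 16047544)) (c (l 15992272) (l 16124392))) (b (l 16066272) (l 16130144))))) (c (c (b (l 16078656) (l 15992152)) (b (l 16066424) (l 15978632))) (c (c (l 15876888) (c (l 15914896) (b (l 16043768) (a (l 16000536) (l 15928120))))) (c (b (c (l 15918656) (l 16066592)) (a (c (l 15817792) (l 15992440)) (l 15915632))) (l 15992600))))))), by decide +kernel⟩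

def k38_pm_102 : ∃ t, chk3 f_pm_102 t 58 19 1 = true :=
  ⟨(b (c (b (c (c (l 15766480) (l 15822296)) (c (l 15815160) (l 15724088))) (c (l 15937760) (l 15859944))) (b (c (c (b (l 15928064) (l 15965824)) (b (a (l 15997512) (l 15838952)) (a (l 16033200) (b (l 15875432) (a (l 15920376) (l 15827784)))))) (b (c (c (a (l 15986944) (c (l 15841352) (l 15841872))) (l 15821200)) (l 15916880)) (c (b (c (a (l 16024392) (l 15798576)) (l 15905456)) (c (a (l 16035152) (c (l 15880824) (l 15875976))) (a (l 16013696) (l 15873016)))) (b (l 15940424) (l 15947792))))) (c (c (c (l 15909544) (l 15899424)) (c (a (l 15979080) (l 15828296)) (a (l 15979160) (a (l 15869088) (l 15780328))))) (c (a (c (c (l 15983336) (l 16006424)) (l 15999952)) (l 15815008)) (l 15888584))))) (c (c (c (l 15807032) (l 15798520)) (c (l 15789952) (c (l 15772328) (l 15599184)))) (c (c (c (a (l 15846160) (l 15694288)) (a (l 15848072) (l 15697760))) (c (a (b (l 15893144) (l 15811952)) (b (l 15738472) (l 15635624))) (b (a (c (l 15896464) (l 15896000)) (l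 15725320)) (l 15715064)))) (c (b (c (l 15585496) (l 15799448)) (l 15708168)) (l 15746200))))), by decide +kernel⟩

def k39_pm_102 : ∃ t, chk3 f_pm_102 t 59 19 1 = true :=
  ⟨(c (b (c (b (b (l 15585456) (b (l 15675984) (l 15533104))) (c (l 15624512) (l 15614264))) (b (c (b (l 15633352) (l 15621504)) (b (l 15615272) (b (l 15640976) (a (l 15738000) (l 15566672))))) (c (l 15551856) (c (l 15586032) (l 15546448))))) (c (c (l 15479632) (b (l 15516248) (a (l 15505328) (l 15324456)))) (c (c (a (l 15535216) (l 15327216)) (a (l 15529752) (l 15309880))) (c (a (l 15532648) (l 15372048)) (a (l 15536528) (l 15359560)))))) (c (c (c (b (b (b (l 15608024) (b (l 15639720) (l 15604968))) (l 15467296)) (b (l 15497936) (l 15386296))) (b (b (b (l 15611008) (b (l 15644488) (l 15420720))) (a (l 15673048) (l 15495312))) (l 15430168))) (b (a (b (c (b (l 15688992) (b (l 15723168) (l 15728808))) (b (l 15689568) (l 15714936))) (c (l 15666312) (l 15655280))) (l 15512128)) (l 15421280))) (b (b (l 15603560) (l 15556616)) (l 15403360)))),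 by decide +kernel⟩

def k40_pm_102 : ∃ t, chk3 f_pm_102 t 30 36 1 = true :=
  ⟨(c (c (a (b (c (l 15147056) (l 15132768)) (c (l 15204488) (l 15190624))) (a (b (c (l 14950216) (l 14934072)) (c (l 14995064) (l 14979264))) (b (a (b (c (a (l 14856608) (l 14843312)) (a (l 14839616) (l 14826384))) (c (l 14874008) (l 14857144))) (b (c (a (l 14903224) (l 14972256)) (l 14922296)) (c (a (l 14858488) (c (b (l 14860920) (l 14861960)) (l 14843072))) (l 14830200)))) (c (c (l 14876320) (l 14884464)) (l 14850896))))) (a (c (b (l 15118384) (l 15176664)) (b (l 15103912) (l 15096880))) (b (a (c (l 14917824) (l 14899088)) (c (b (a (l 14831240) (l 14905904)) (a (l 14840160) (l 14834120))) (b (a (b (l 14812352) (l 14782776)) (b (l 14917008) (l 14853248))) (a (l 14820656) (c (l 14819888) (l 14815480)))))) (c (a (l 14963360) (c (l 14854824) (b (l 14839680) (l 14855608)))) (a (c (l 14946608) (l 14941968)) (c (b (l 14835104) (l 14852592)) (b (l 14830560) (l 14839720)))))))) (a (c (a (c (b (l 15156552) (l 15215680)) (b (c (l 15145384)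 (l 15135904)) (c (l 15207128) (b (l 15189672) (l 15220664))))) (b (c (l 15019000) (c (l 15009424) (b (l 14987576) (l 15022744)))) (c (c (l 15076896) (l 15074544)) (c (l 15071744) (l 15058704))))) (c (b (c (b (a (l 15116592) (l 14992504)) (a (l 15161768) (l 15011152))) (a (l 15134712) (l 14987768))) (b (c (a (l 15200264) (l 15038976)) (l 15102896)) (l 15131864))) (b (l 15049336) (l 15105440)))) (c (b (a (c (c (l 14886192) (l 14882008)) (c (l 14855984) (l 14864272))) (a (c (b (c (l 14759592) (l 14794920)) (l 14811168)) (l 14787272)) (b (c (c (l 14879544) (l 14868616)) (l 14856048)) (l 14790976)))) (a (c (c (l 14939536) (l 14931952)) (l 14915000)) (l 14812232))) (b (a (l 14843320) (b (a (l 14753144) (l 14830704)) (l 14761784))) (l 14834016))))), by decide +kernel⟩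

def k41_pm_102 : ∃ t, chk3 f_pm_102 t 30 37 1 = true :=
  ⟨(c (a (c (b (c (l 15244384) (l 15230816)) (c (a (l 15353920) (l 15190064)) (a (l 15341288) (l 15175944)))) (c (b (l 15217152) (a (l 15328568) (c (l 15162408) (l 15151840)))) (b (a (l 15278304) (c (l 15126592) (l 15122224))) (a (c (l 15313536) (l 15224136)) (c (l 15151832) (l 15151384)))))) (c (c (a (b (l 15021600) (l 15030552)) (b (c (l 14893168) (l 14901368)) (c (l 14891928) (b (l 14901976) (l 14869672))))) (b (a (l 15005992) (c (l 14869640) (a (l 14871160) (l 14843208)))) (a (c (l 15018888) (l 15003952)) (c (b (l 14888176) (l 14888080)) (b (l 14886696) (l 14886720)))))) (c (b (a (c (l 14989816) (l 14981712)) (c (b (l 14871064) (l 14880488)) (b (l 14869192) (l 14874216)))) (a (c (b (l 14998232) (l 15004304)) (b (l 14998080) (l 15001432))) (c (b (l 14883088) (l 14871704)) (l 14866496)))) (b (a (c (l 14959600) (l 14977272)) (c (l 14863384) (l 14850944))) (a (c (l 14993728) (l 14979576)) (l 14853776)))))) (a (c (b (c (c (a (l 15263000) (l 15122032))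 (a (l 15261856) (l 15116712))) (a (c (l 15261584) (b (l 15242120) (l 15257192))) (l 15099352))) (c (a (c (b (l 15293408) (l 15319560)) (l 15202712)) (c (l 15139736) (l 15129392))) (l 15205832))) (b (l 15154480) (l 15185032))) (c (b (l 14785304) (l 14894040)) (b (l 14856760) (l 14860616))))), by decide +kernel⟩

def k42_pm_102 : ∃ t, chk3 f_pm_102 t 62 36 2 = true :=
  ⟨(c (a (b (c (a (a (b (l 15059784) (c (l 14932768) (l 14904960))) (c (l 15097616) (l 15062848))) (c (l 15204488) (l 15197088))) (a (b (l 15068624) (a (l 14889216) (l 14956304))) (c (l 15073256) (l 15151496)))) (b (a (c (c (a (l 14880888) (b (l 14921272) (l 14897680))) (a (l 14852832) (l 14878616))) (a (l 14836728) (c (l 14851880) (l 14819864)))) (c (a (c (l 14953224) (l 14938664)) (l 15002392)) (a (c (l 14904552) (l 14878360)) (c (l 14990840) (l 14956208))))) (c (a (c (a (l 14890320) (l 14902952)) (l 14866832)) (a (c (l 14893960) (l 14879128)) (b (l 14874344) (l 14867936)))) (a (c (l 14845960) (l 14832672)) (b (a (l 14808544) (c (l 14883032)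 (l 14850320))) (c (l 14827840) (l 14803664))))))) (b (c (l 15159400) (a (c (l 15330944) (b (l 15403584) (l 15244624))) (b (l 15530128) (l 15372016)))) (c (b (l 14895440) (a (a (l 14904912) (l 14948168)) (c (l 15043816) (l 15040456)))) (a (b (c (l 15089448) (l 15086416)) (b (c (l 14967200) (l 14965376)) (a (c (l 14871016) (l 14861000)) (l 14918728)))) (c (b (l 15207960) (l 15043832)) (l 15126336)))))) (a (b (a (c (b (l 15052256) (b (l 14936608) (l 14826648))) (b (l 15038400) (c (l 14897760) (l 14887096)))) (c (c (l 15085832) (l 15123656)) (c (l 15119040) (l 15110800)))) (c (b (a (b (c (l 14833056) (l 14826880)) (l 14796160)) (c (a (l 14868712) (l 14936680)) (l 14897416))) (a (l 14827192) (a (l 14788000) (l 14811888)))) (b (a (b (l 14774016) (l 14799288)) (l 14882520)) (l 14802784)))) (c (b (a (c (a (l 15259024) (l 15313984)) (b (l 15367424) (l 15209728))) (c (l 15460240) (l 15223144))) (a (a (b (a (l 14993352) (l 15036080)) (l 14856432)) (l 15018760)) (l 15125296))) (b (a (l 15268104) (l 15185648)) (a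 (l 14945536) (l 14935648)))))), by decide +kernel⟩

def k43_pm_102 : ∃ t, chk3 f_pm_102 t 62 37 4 = true :=
  ⟨(a (c (b (c (a (a (l 14896480) (l 14907136)) (l 14880448)) (a (b (l 14871432) (l 14954160)) (a (b (l 14881184) (c (l 14886024) (l 14870896))) (l 14841600)))) (c (b (a (l 14939104) (c (l 14867824) (a (l 14884024) (l 14854440)))) (a (a (l 14880952) (c (l 14896616) (l 14882808))) (l 14840064))) (a (c (b (a (l 14867392) (l 14870872)) (a (l 14856960) (l 14866232))) (b (a (l 14855496) (l 14854360)) (a (l 14852376) (l 14845680)))) (c (b (a (l 14879952) (l 14859192)) (l 14858472)) (l 14836560))))) (b (c (a (b (l 14847960) (c (a (l 14856032) (l 14844104)) (l 14846280))) (b (b (l 14828520) (l 14830712)) (b (l 14832064) (a (l 14846416) (l 14849904))))) (a (l 14841688) (b (l 14806920) (l 14820880)))) (c (a (b (c (a (l 14854288) (l 14843536)) (l 14845416)) (l 14838528)) (l 14815040)) (l 14799984)))) (b (c (b (a (a (l 14812496) (c (l 14804400) (c (l 14803768) (l 14829264)))) (c (b (l 14914872) (a (l 14788872)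 (l 14864296))) (b (l 14915976) (l 14754920)))) (a (c (c (l 14812064) (b (l 14815136) (l 14813448))) (l 14800360)) (c (a (b (c (l 14779200) (l 14779184)) (l 14776056)) (b (l 14771080) (l 14755488))) (l 14755080)))) (a (c (b (c (b (l 14826568) (l 14827224)) (l 14843544)) (l 14819936)) (a (l 14827144) (l 14822368))) (b (l 14875096) (l 14773696)))) (c (c (b (c (b (l 14765280) (l 14760152)) (l 14763096)) (l 14767984)) (c (l 14772112) (l 14769656))) (c (l 14768416) (l 14757096))))), by decide +kernel⟩

def k44_pm_102 : ∃ t, chk3 f_pm_102 t 62 37 5 = true :=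
  ⟨(c (a (b (c (c (l 14825360) (l 14815368)) (l 14808840)) (l 14801232)) (b (a (a (l 14786152) (c (l 14811384) (l 14782152))) (b (l 14872064) (c (l 14774512) (l 14769088)))) (a (l 14767104) (l 14732224)))) (a (l 14792112) (b (a (l 14760432) (b (a (l 14814104) (l 14880768)) (a (l 14737384) (l 14745752)))) (l 14721008)))), by decide +kernel⟩

def k45_pm_102 : ∃ t, chk3 f_pm_102 t 63 18 2 = true :=
  ⟨(b (b (a (c (c (b (l 15726752) (a (l 15511048) (l 15658456))) (b (a (l 15668416) (l 15820832)) (c (l 15541728) (l 15581400)))) (c (b (a (l 15672096) (l 15812504)) (l 15577416)) (l 15405304))) (c (c (b (a (l 15978544) (l 16137448)) (c (l 15850000) (l 15890520))) (b (l 15848696) (l 15881080))) (b (l 16045288) (l 15869952)))) (c (c (a (b (c (l 15272280) (l 15272520)) (c (a (l 15178488) (l 15324432)) (l 15082216))) (b (c (l 15678936) (l 15711856)) (l 15534816))) (a (b (a (l 15344760) (l 15481624)) (l 15237384)) (l 15615184))) (a (c (l 15319824) (l 15144944)) (l 15453592)))) (b (c (c (a (a (b (c (l 15009328) (l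 14999856)) (b (l 14870992) (l 14787280))) (l 15048648)) (l 15236216)) (a (b (l 15059152) (l 14734216)) (l 15243800))) (a (a (c (l 14898384) (a (l 14866432) (l 14920032))) (l 15017592)) (l 15098000))) (a (c (c (b (a (a (l 14718240) (l 14695616)) (l 14776224)) (a (l 14685960) (a (l 14654680) (l 14634656)))) (b (a (l 14687032) (l 14759440)) (a (l 14671400) (l 14642032)))) (a (b (c (l 14698464) (l 14687640)) (l 14653992)) (b (l 14738768) (l 14619688)))) (c (b (l 14961208) (a (b (l 14747744) (l 14657568)) (l 14827720))) (b (l 14929104) (l 14584912)))))), by decide +kernel⟩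

def k46_pm_102 : ∃ t, chk3 f_pm_102 t 31 18 3 = true :=
  ⟨(a (b (b (c (a (b (l 15092288) (l 14940624)) (l 15262704)) (a (l 14798456) (l 15299928))) (a (b (c (a (l 14785192) (l 14857344)) (l 14692688)) (c (l 14776520) (l 14741080))) (c (b (l 15076032) (l 14908544)) (l 14941456)))) (b (a (c (l 14769336) (l 14733696)) (c (b (a (l 14740688) (l 14805920)) (l 14712840)) (b (l 14748552) (l 14675992)))) (c (l 14719432) (l 14682736)))) (b (a (c (c (a (b (l 15407816) (l 15168824)) (b (l 15724024) (l 15373096))) (a (l 15277872) (b (l 15569576) (l 15362256)))) (b (l 15616984) (l 15261696))) (c (b (a (l 15721992) (l 16025488)) (c (l 15586552) (l 15537208))) (a (c (b (a (l 15823416) (l 15896728)) (l 15324456)) (l 15585688)) (c (b (l 16017960) (l 15643720)) (b (a (l 15966104) (l 15922664)) (a (l 15592416) (l 15671064))))))) (a (c (b (a (c (a (l 14777328) (l 14907976)) (l 14845448)) (c (l 15002952) (l 14988720))) (a (a (l 14643848) (c (l 14608448) (l 14616224))) (c (b (l 14720240) (l 14599480)) (b (l 14703392) (l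 14581496))))) (b (l 14890464) (b (l 14651360) (l 14562040)))) (c (b (c (l 15204776) (l 15193864)) (c (l 14807688) (l 14583368))) (a (c (b (l 15107408) (a (l 14681664) (l 14737424))) (l 14707432)) (c (l 14984416) (b (a (l 15198000) (l 15272544)) (l 14652352)))))))), by decide +kernel⟩

def k47_pm_102 : ∃ t, chk3 f_pm_102 t 30 38 2 = true :=
  ⟨(c (a (b (b (c (l 15125408) (l 15258992)) (c (b (l 15304176) (l 15175128)) (a (l 15397568) (b (l 15178840) (c (l 15180400) (l 15167160)))))) (c (a (l 15346384) (l 15116496)) (a (l 15327256) (c (l 15101600) (l 15102256))))) (b (c (a (b (l 15026048) (b (l 15017648) (c (l 15007392) (l 14993632)))) (c (c (b (l 14880704) (b (l 14866616) (b (b (l 14861776) (l 14853864)) (l 14838152)))) (b (l 14870560) (b (l 14862232) (b (b (l 14859192) (l 14852072)) (l 14837224))))) (b (c (l 14864216) (l 14864144)) (b (l 14880728) (a (l 14881952) (l 14838624)))))) (b (a (c (l 15007776) (l 15005840)) (c (l 14885240) (l 14873704))) (a (b (c (l 15003992) (l 15005336)) (c (l 14990248) (l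 14990304))) (b (c (l 14874752) (l 14860704)) (l 14845624))))) (c (a (a (c (l 14957472) (l 14945616)) (c (b (l 14897008) (l 14815336)) (l 14770104))) (c (a (b (l 14822288) (l 14743528)) (c (l 14749336) (l 14738320))) (l 14633408))) (a (c (a (l 14946752) (l 14849272)) (l 14894144)) (l 14736944))))) (b (a (c (b (a (l 15358304) (c (l 15164000) (l 15164728))) (b (a (l 15377720) (c (l 15170800) (l 15172352))) (a (l 15378400) (c (l 15167216) (l 15165544))))) (b (a (c (l 15348176) (l 15350760)) (c (l 15162752) (l 15148584))) (a (b (l 15358080) (c (l 15380296) (l 15374976))) (l 15153464)))) (c (a (c (b (l 15005552) (b (l 14995968) (l 14975608))) (l 14984128)) (l 14848696)) (a (l 14972168) (l 14831512)))) (a (c (c (a (l 15317480) (l 15103128)) (a (l 15320272) (l 15091608))) (c (a (l 15320160) (l 15079616)) (l 15188600))) (a (l 14865784) (l 14709448))))), by decide +kernel⟩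

def k48_pm_102 : ∃ t, chk3 f_pm_102 t 30 39 2 = true :=
  ⟨(a (c (c (a (b (l 15243664) (c (l 15141872) (l 15131176))) (b (c (l 15009584) (l 15004448)) (c (l 14911648) (l 14912016)))) (c (a (b (l 15225280) (l 15132264)) (b (l 15006264) (l 14901376))) (a (b (l 15223376) (l 15132560)) (l 14720032)))) (c (a (c (b (l 15226016) (l 15119528)) (l 15169304)) (l 14928264)) (l 15031376))) (c (c (a (b (c (a (l 14839288) (l 14728504)) (a (l 14838976) (l 14712896))) (c (l 14679744) (l 14662928))) (c (b (a (l 14624368) (l 14569432)) (l 14468688)) (l 14523752))) (a (l 14704240) (l 14508504))) (a (l 14676232) (b (l 14542656) (l 14406248))))), by decide +kernel⟩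

def k49_pm_102 : ∃ t, chk3 f_pm_102 t 30 19 3 = true :=
  ⟨(b (b (c (a (b (c (c (l 15061680) (l 15236376)) (l 15226176)) (l 15244064)) (a (l 14948072) (l 14805488))) (a (l 15172784) (l 14801232))) (a (l 15009864) (c (l 14753792) (l 14717664)))) (a (c (l 15008008) (l 14976472)) (c (a (l 14638448) (l 14436272)) (l 14333264)))), by decide +kernel⟩

def k50_pm_102 : ∃ t, chk3 f_pm_102 t 31 19 2 = true :=
  ⟨(a (b (b (c (a (c (b (c (a (c (a (l 14877096) (a (l 14888224) (l 14886256))) (a (l 14861216) (l 14873376))) (l 14826488)) (c (a (a (l 14848432) (l 14850080)) (l 14839416)) (l 14815672))) (a (c (a (c (b (l 14870016) (l 14849304)) (l 14837888)) (b (l 14864056) (l 14841856))) (l 14799360)) (c (l 14795208) (l 14806944)))) (a (l 14806712) (b (l 14802112) (c (l 14786144) (l 14757688))))) (c (b (l 14742304) (l 14711544)) (b (l 14729624) (a (l 14738736) (l 14671208))))) (a (b (l 14770688) (l 14745216)) (c (a (b (l 14738784) (l 14708952)) (l 14683280)) (b (l 14689952) (l 14637288))))) (c (a (c (a (l 14719360)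 (l 14685840)) (a (l 14672512) (l 14651528))) (c (l 14585352) (l 14571144))) (a (l 14620600) (c (a (l 14581440) (l 14536352)) (l 14528408))))) (c (a (c (a (c (b (l 14555408) (l 14394336)) (l 14443552)) (c (l 14428992) (l 14417912))) (a (l 14414856) (c (l 14395264) (l 14364968)))) (c (l 14313512) (a (l 14339792) (l 14266096)))) (a (c (l 14367208) (l 14344976)) (c (a (l 14306192) (l 14257168)) (l 14248624))))) (b (b (c (a (b (l 14630592) (b (l 14585696) (l 14579752))) (b (a (c (l 14568872) (l 14570152)) (b (l 14674720) (l 14580376))) (b (a (l 14537120) (a (l 14504456) (l 14489952))) (l 14485280)))) (a (c (b (l 14610168) (l 14572384)) (b (l 14596464) (l 14558304))) (b (a (l 14540800) (l 14591248)) (b (l 14486344) (l 14444072))))) (c (c (l 14422896) (l 14403272)) (a (l 14326104) (l 14320096)))) (c (c (b (l 14233040) (l 14045440)) (l 14012280)) (a (c (l 14153928) (l 14135776)) (l 14025400))))), by decide +kernel⟩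

def k51_pm_102 : ∃ t, chk3 f_pm_102 t 31 19 3 = true :=
  ⟨(a (b (b (c (b (l 14692576) (l 14663528)) (l 14641288)) (c (l 14534280) (l 14494000))) (c (l 14217488) (l 14213896))) (b (b (a (c (c (a (l 14587624) (l 14533984)) (a (l 14556608) (l 14515360))) (l 14502944)) (c (b (a (l 14505792) (l 14552136)) (a (l 14446256) (l 14408984))) (a (c (b (l 14412144) (l 14414648)) (l 14429096)) (c (b (l 14524184) (l 14378984)) (b (a (l 14470808) (l 14528112)) (a (l 14351912) (b (l 14375496) (l 14311488)))))))) (c (a (c (a (l 14433776) (l 14375960)) (l 14378344)) (l 14279160)) (a (l 14343232) (a (l 14254312) (c (l 14218016) (l 14193720)))))) (c (a (c (a (l 14145096) (l 14083128)) (l 14084872)) (l 13978624)) (a (l 14045488) (c (a (l 13969272) (l 13910752)) (a (l 13945568) (l 13883432))))))), by decide +kernel⟩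

def k52_pm_102 : ∃ t, chk3 f_pm_102 t 2 5 1 = true :=
  ⟨(b (b (b (a (a (l 2) (a (l 2) (b (l 16546448) (l 2)))) (a (b (a (l 16511680) (l 16494968)) (a (c (l 16474528) (l 16463904)) (l 16543440))) (b (l 16640456) (l 16696360)))) (a (l 2) (b (a (l 16468728) (l 16776320)) (a (b (l 16623440) (b (l 16740720) (l 16765024))) (b (l 16695888) (b (l 16646296) (l 16594712))))))) (a (l 2) (a (l 16747632) (l 16639048)))) (a (l 2) (b (a (l 16761864) (l 16723064)) (c (l 16777160) (l 16777160))))), by decide +kernel⟩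

def k53_pm_102 : ∃ t, chk3 f_pm_102 t 6 10 1 = true :=
  ⟨(a (b (b (a (l 16731440) (l 16623496)) (b (l 16559104) (b (l 16448824) (b (l 16468536) (l 16415184))))) (l 16460952)) (a (b (b (l 16510568) (b (l 16385168) (b (l 16326648) (b (l 16326360) (l 16331408))))) (a (l 16447184) (b (l 16362816) (c (l 16463672) (c (l 16439280) (l 16448416)))))) (a (b (b (l 16422352) (b (a (l 16308664) (c (l 16274000) (c (l 16260800) (l 16239344)))) (b (a (l 16254512) (c (l 16227408) (c (l 16213000) (b (l 16188336) (l 16191112))))) (c (b (l 16248784) (l 16265328)) (b (a (l 16255320) (c (l 16229440) (l 16207224))) (c (l 16251912) (l 16234800))))))) (c (b (c (l 16321968) (l 16313232)) (l 16379272)) (b (c (c (l 16307992) (l 16296472)) (l 16298080)) (c (l 16332032) (l 16423632))))) (b (b (c (c (b (l 16426952) (l 16339840)) (l 16249624)) (c (c (l 16373616) (a (b (l 16419888) (l 16321712)) (l 16383600))) (c (c (l 16189080) (a (l 16340360) (l 16242696))) (a (l 16344624) (l 16275232))))) (b (c (c (l 16250912) (l 16243416)) (c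 (a (l 16234696) (c (l 16226112) (l 16223392))) (a (c (l 16221672) (l 16227624)) (l 16200440)))) (c (c (l 16194808) (l 16185352)) (c (c (l 16180824) (b (l 16047872) (l 16141208))) (b (b (l 16160504) (l 16166536)) (l 16190544)))))) (c (c (l 16152080) (b (l 16256592) (c (l 16378840) (l 16369160)))) (b (c (b (c (l 16225824) (l 16199056)) (l 16190944)) (l 16227312)) (c (l 16263808) (l 16400808)))))))), by decide +kernel⟩

def k54_pm_102 : ∃ t, chk3 f_pm_102 t 14 40 1 = true :=
  ⟨(a (c (c (a (b (l 16253816) (l 16162384)) (l 15738736)) (a (a (l 16271280) (l 16129184)) (c (l 15917056) (a (l 15983728) (l 15823504))))) (a (c (a (c (l 16265856) (b (l 16299192) (l 16214344))) (c (l 16121936) (c (l 16110480) (b (l 16155544) (l 16068376))))) (c (b (a (l 16276520) (l 16149952)) (c (l 16079864) (l 16151336))) (a (l 16187224) (l 16117480)))) (a (c (c (l 15965576) (c (b (l 16012456) (l 15929712)) (b (l 16017464) (a (l 15967464) (l 15885280))))) (c (c (b (l 16001384) (l 15919704)) (l 15962984)) (l 15958112))) (c (c (c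 (l 15824064) (l 15829640)) (c (b (l 15876680) (l 15777632)) (b (c (l 15871600) (l 15864880)) (l 15769840)))) (l 15807912))))) (c (a (c (c (b (l 15673064) (l 15560656)) (b (l 15663528) (a (l 15652104) (l 15484088)))) (c (a (b (l 15736248) (l 15634568)) (b (l 15563072) (c (l 15478024) (l 15481672)))) (b (a (l 15699440) (l 15569912)) (a (l 15637224) (c (l 15480056) (l 15466280)))))) (c (b (c (l 15136176) (a (l 15402440) (l 15134016))) (c (a (l 15326408) (c (l 15150736) (l 15151544))) (c (l 15130208) (l 15132040)))) (c (c (a (l 15361752) (l 15186048)) (b (l 15320592) (l 15213288))) (c (l 15262808) (l 15247576))))) (a (c (a (c (c (b (l 15724968) (l 15632624)) (l 15573272)) (l 15660984)) (l 15498496)) (l 15498192)) (l 15028488)))), by decide +kernel⟩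

def k55_pm_102 : ∃ t, chk3 f_pm_102 t 14 41 1 = true :=
  ⟨(a (a (c (c (b (l 16090744) (l 16068680)) (b (l 16082424) (l 15871640))) (b (c (c (l 16066944) (a (c (l 16140600) (l 16134624)) (c (l 16002040) (l 15969840)))) (c (l 15898616) (l 16063184))) (b (c (c (l 15911128) (b (c (l 16038776) (l 16042016)) (l 16021688))) (b (l 15819112) (l 16073648))) (c (c (l 16057152) (l 16041200)) (l 16089480))))) (c (b (c (l 15817376) (c (l 15801640) (a (l 15865688) (l 15724208)))) (c (b (l 15798568) (l 15821936)) (c (b (l 15778912) (l 15802424)) (b (b (l 15773864) (l 15782696)) (l 15806416))))) (b (c (c (c (l 15796096) (l 15798944)) (a (c (l 15866440) (l 15855728)) (l 15707912))) (l 15771280)) (c (c (a (b (b (l 15846816) (l 15853504)) (l 15873584)) (l 15712880)) (l 15775536)) (l 15763728))))) (c (b (a (c (c (l 15527480) (a (l 15593328) (l 15434616))) (c (a (l 15580136) (l 15418272)) (a (l 15585576) (l 15416896)))) (c (c (a (b (l 15284200) (l 15286824)) (c (l 15126808) (l 15123632))) (a (c (l 15285656) (l 15281592))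 (l 15104968))) (l 15170400))) (a (c (c (b (l 15431184) (l 15542336)) (b (b (l 15499936) (l 15512160)) (l 15540584))) (c (b (b (l 15461912) (l 15514800)) (l 15540528)) (l 15504216))) (c (c (b (b (a (l 15291928) (l 15137336)) (a (l 15307360) (l 15150984))) (a (l 15339080) (l 15181336))) (b (a (b (l 15284864) (l 15292368)) (l 15124832)) (l 15244048))) (l 14993584)))) (b (a (l 15468200) (c (l 15142168) (l 15113528))) (a (l 15477008) (b (l 15058000) (l 15182136)))))), by decide +kernel⟩

def k56_pm_102 : ∃ t, chk3 f_pm_102 t 30 20 1 = true :=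
  ⟨(c (c (b (a (c (a (b (c (l 15041400) (l 15043224)) (c (l 14955792) (l 14945552))) (b (c (l 14817936) (l 14800112)) (l 14702696))) (c (b (l 14838456) (l 14810448)) (l 14852464))) (a (c (l 14507320) (l 14486744)) (c (c (l 14302096) (l 14286368)) (l 14269384)))) (a (b (l 14786888) (b (l 14819312) (l 14869664))) (b (a (l 14423888) (l 14106944)) (a (l 14455992) (b (c (l 14283112) (l 14255104)) (l 14328696)))))) (b (a (l 14830888) (a (l 14455616) (l 14235136))) (b (a (l 14750944) (l 14272824)) (a (l 14809264) (b (l 14324048) (l 14384256)))))) (b (a (c (l 14796000) (l 14760608)) (c (l 14301776) (l 14257048))) (b (a (l 14696032) (c (l 14227160) (l 14180832))) (a (l 14629792) (c (l 14309632) (l 14264600)))))), by decide +kernel⟩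

def k57_pm_102 : ∃ t, chk3 f_pm_102 t 31 20 1 = true :=
  ⟨(b (c (a (c (b (a (c (a (l 14257992) (l 14189640)) (l 14143160)) (c (l 14055064) (l 14035680))) (a (c (a (l 14145264) (l 14074032)) (l 13943776)) (c (l 13917120) (l 13896336)))) (a (l 14072040) (a (b (l 13842608) (l 13901888)) (c (l 13912296) (l 13878776))))) (c (b (c (l 13860184) (l 13834944)) (a (c (a (l 13756808) (l 13686112)) (l 13719768)) (c (l 13619248) (l 13589808)))) (a (c (l 13787808) (l 13766016)) (l 13640384)))) (a (c (b (l 14010856) (l 13875800)) (l 13895312)) (c (a (c (a (l 13775656) (l 13701720)) (l 13518992)) (l 13585800)) (a (l 13662744) (c (a (l 13573432) (l 13509088)) (a (l 13545784) (l 13477744))))))) (c (a (c (b (a (c (a (l 14135656) (l 14046608)) (l 14061384)) (c (l 13915024) (l 13894104))) (a (c (b (a (l 14198296) (l 14135400)) (l 14229824)) (b (l 14127080) (l 14193856))) (b (c (l 13990848) (l 13970560)) (l 14051016)))) (b (a (l 14004712) (c (l 13872704) (l 13837808))) (a (l 14104816) (c (a (l 14025176) (l 13951384)) (l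 13951936))))) (b (c (a (c (l 13730672) (l 13705072)) (c (l 13563176) (l 13554232))) (a (l 13672400) (l 13509256))) (c (b (b (c (l 13722224) (l 13695336)) (l 13746280)) (l 13807456)) (a (c (l 13811072) (l 13789200)) (l 13632080))))) (a (b (c (l 13869872) (l 13816472)) (c (l 13978472) (l 13926880))) (b (a (c (c (l 13628336) (l 13600632)) (l 13553864)) (c (l 13451736) (a (l 13417296) (c (l 13366272) (l 13333352))))) (c (a (c (a (l 13807456) (l 13720368)) (l 13730776)) (l 13576704)) (a (l 13685680) (a (c (l 13573088) (l 13545128)) (c (l 13489896) (l 13416104))))))))), by decide +kernel⟩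

def k58_pm_102 : ∃ t, chk3 f_pm_102 t 14 21 1 = true :=
  ⟨(c (a (b (c (c (l 16020600) (a (l 16135232) (l 15861504))) (a (c (l 16127272) (l 16119464)) (c (b (l 15849656) (l 15918960)) (c (l 15885936) (l 15883872))))) (c (a (l 16242696) (c (l 16026424) (l 16027112))) (a (c (l 16237840) (b (l 16209528) (l 16273536))) (c (l 16026680) (l 16012600))))) (b (c (c (a (b (l 15596880) (l 15678776)) (b (a (l 15401296) (l 15248088)) (l 15409792))) (a (b (l 15598984) (l 15676584)) (l 15352088))) (a (c (b (l 15591640) (l 15658160)) (l 15609840)) (l 15332856))) (c (a (c (l 15660080) (l 15794912)) (l 15548704)) (l 15652176)))) (a (c (b (c (a (c (l 16123336) (l 15895360)) (b (c (l 15844624) (l 15836864)) (l 15901584))) (a (l 15977272) (l 15862264))) (a (l 16080152) (l 16002704))) (b (l 15982488) (l 16107424))) (b (c (l 15451368) (l 15427904)) (l 15453592)))), by decide +kernel⟩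

def k59_pm_102 : ∃ t, chk3 f_pm_102 t 15 21 1 = true :=
  ⟨(a (c (a (b (c (b (l 14741360) (l 14936456)) (b (l 14917680) (l 15030720))) (c (l 15234696) (l 15206112))) (b (c (a (l 14682856) (l 14391696)) (l 14549216)) (a (b (l 14801992) (l 15001416)) (c (b (l 14712600) (l 14863224)) (l 14749344))))) (b (a (b (l 14866648) (l 14982504)) (c (l 14508160) (l 14466520))) (a (l 15162440) (b (l 14683120) (l 14853416))))) (c (a (c (a (b (c (a (l 14439360) (l 14385168)) (l 14374680)) (c (l 14698816) (l 14688224))) (b (c (l 14254120) (l 14236168)) (l 14493472))) (c (a (l 14425560) (b (l 14217752) (l 14555952))) (b (l 14249888) (l 14580088)))) (b (c (b (l 13933648) (l 14109360)) (a (l 14049136) (l 13898120))) (c (b (l 14293328) (l 14485024)) (a (l 14411856) (l 14284952))))) (a (b (c (l 14207552) (l 14159992)) (l 14417232)) (c (a (b (c (l 14010088) (l 13985760)) (c (l 14377904) (l 14357008))) (b (l 13847632) (l 14241816))) (a (b (l 13944104) (l 14320544)) (b (c (l 13575408) (l 13754512)) (c (l 14205864) (l 14179016)))))))),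 by decide +kernel⟩

def k60_pm_102 : ∃ t, chk3 f_pm_102 t 6 11 1 = true :=
  ⟨(a (b (l 16681968) (c (l 16777040) (l 16777040))) (a (b (c (c (l 16644832) (b (l 16568456) (l 16701416))) (b (l 16573344) (l 16701664))) (c (l 16776992) (l 16777000))) (b (c (b (c (l 16534632) (b (l 16277400) (l 16556088))) (b (l 16537912) (l 16720904))) (b (a (l 16535136) (l 16463584)) (l 16696664))) (c (l 16570944) (l 16759080))))), by decide +kernel⟩

def k61_pm_102 : ∃ t, chk3 f_pm_102 t 7 11 1 = true :=
  ⟨(b (b (a (c (c (a (a (l 16330664) (c (l 16185344) (l 16182568))) (l 15868184)) (a (a (l 16204312) (l 16170016)) (l 15851344))) (a (l 16235360) (l 15804648))) (a (c (a (l 15427592) (c (a (l 15226624) (l 15090952)) (l 15128632))) (a (l 15420832) (l 15082904))) (c (a (c (a (b (c (l 14968472) (l 14939280)) (l 15120016)) (b (l 14846016) (l 15031208))) (a (l 14979072) (b (l 14812936) (l 15001832)))) (c (b (l 14683048) (l 14894656)) (a (l 14811912) (l 14712544)))) (a (b (l 14793528) (l 14978840)) (a (c (a (l 14798008) (l 14743576))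 (l 14736480)) (c (l 14677800) (a (l 14545632) (c (l 14626464) (l 14605392))))))))) (a (a (c (b (l 16174192) (l 16476464)) (l 16416048)) (c (l 15970296) (l 16049384))) (a (c (a (l 15739240) (c (l 15364120) (l 15442432))) (a (l 15701400) (l 15406256))) (a (c (c (a (l 15335704) (l 15314712)) (a (l 15329072) (l 15228248))) (l 15093104)) (c (a (c (b (l 15135728) (l 15340800)) (l 15138920)) (l 15175112)) (a (c (b (l 14871416) (l 15294856)) (l 15164088)) (c (l 15135296) (a (l 15112912) (l 15090440))))))))) (a (a (c (b (l 16460536) (l 16523936)) (l 16514728)) (c (l 16080792) (l 16186520))) (a (c (a (l 15903320) (b (c (l 15508264) (l 15632496)) (l 15627536))) (b (l 15589496) (l 15737344))) (a (b (c (c (a (b (l 15582288) (l 15584616)) (l 15529904)) (a (l 15539496) (l 15510944))) (l 15485768)) (c (c (l 15544984) (l 15525640)) (l 15487024))) (c (l 15446856) (a (c (l 15431424) (l 15411328)) (c (l 15391696) (a (l 15370904) (l 15355160))))))))), by decide +kernel⟩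

def k62_pm_102 : ∃ t, chk3 f_pm_102 t 1 3 1 = true :=
  ⟨(a (a (l 2) (b (c (l 16777216) (l 16777216)) (l 2))) (a (a (b (c (b (l 16777216) (l 16777216)) (l 16777216)) (l 2)) (b (c (b (l 16768376) (l 16768376)) (b (l 16768064) (l 16768064))) (c (l 16768376) (l 16768064)))) (a (b (b (c (l 16154176) (l 16202528)) (b (l 16125904) (l 16335624))) (a (l 16519464) (l 16196936))) (b (a (b (c (a (l 15903792) (l 15627536)) (l 15737344)) (a (l 15888384) (l 15607488))) (a (c (c (a (l 15584616) (l 15531080)) (b (l 15525640) (l 15525640))) (l 15487024)) (c (l 15405560) (c (a (l 15369152) (l 15392376)) (a (l 15411984) (b (l 15365632) (l 15365632))))))) (a (a (l 15888384) (l 15607488)) (a (c (l 15315360) (l 15487024)) (c (l 15447504) (a (l 15407176) (l 15376032))))))))), by decide +kernel⟩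

theorem s63_pm_102 : ∃ t, chk3 f_pm_102 t 3 11 1 = true := ex3_a k60_pm_102 k61_pm_102

theorem s64_pm_102 : ∃ t, chk3 f_pm_102 t 7 21 1 = true := ex3_a k58_pm_102 k59_pm_102

theorem s65_pm_102 : ∃ t, chk3 f_pm_102 t 15 20 1 = true := ex3_a k56_pm_102 k57_pm_102

theorem s66_pm_102 : ∃ t, chk3 f_pm_102 t 14 20 1 = true := ex3_b k54_pm_102 k55_pm_102

theorem s67_pm_102 : ∃ t, chk3 f_pm_102 t 7 20 1 = true := ex3_a s66_pm_102 s65_pm_102

theorem s68_pm_102 : ∃ t, chk3 f_pm_102 t 7 10 1 = true := ex3_b s67_pm_102 s64_pm_102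

theorem s69_pm_102 : ∃ t, chk3 f_pm_102 t 3 10 1 = true := ex3_a k53_pm_102 s68_pm_102

theorem s70_pm_102 : ∃ t, chk3 f_pm_102 t 3 5 1 = true := ex3_b s69_pm_102 s63_pm_102

theorem s71_pm_102 : ∃ t, chk3 f_pm_102 t 1 5 1 = true := ex3_a k52_pm_102 s70_pm_102

theorem s72_pm_102 : ∃ t, chk3 f_pm_102 t 31 19 1 = true := ex3_c k50_pm_102 k51_pm_102

theorem s73_pm_102 : ∃ t, chk3 f_pm_102 t 30 19 2 = true := ex3_b k47_pm_102 k48_pm_102

theorem s74_pm_102 : ∃ t, chk3 f_pm_102 t 30 19 1 = true := ex3_c s73_pm_102 k49_pm_102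

theorem s75_pm_102 : ∃ t, chk3 f_pm_102 t 15 19 1 = true := ex3_a s74_pm_102 s72_pm_102

theorem s76_pm_102 : ∃ t, chk3 f_pm_102 t 62 37 2 = true := ex3_c k43_pm_102 k44_pm_102

theorem s77_pm_102 : ∃ t, chk3 f_pm_102 t 62 18 2 = true := ex3_b k42_pm_102 s76_pm_102

theorem s78_pm_102 : ∃ t, chk3 f_pm_102 t 31 18 2 = true := ex3_a s77_pm_102 k45_pm_102

theorem s79_pm_102 : ∃ t, chk3 f_pm_102 t 31 18 1 = true := ex3_c s78_pm_102 k46_pm_102

theorem s80_pm_102 : ∃ t, chk3 f_pm_102 t 30 18 1 = true := ex3_b k40_pm_102 k41_pm_102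

theorem s81_pm_102 : ∃ t, chk3 f_pm_102 t 15 18 1 = true := ex3_a s80_pm_102 s79_pm_102

theorem s82_pm_102 : ∃ t, chk3 f_pm_102 t 15 9 1 = true := ex3_b s81_pm_102 s75_pm_102

theorem s83_pm_102 : ∃ t, chk3 f_pm_102 t 29 19 1 = true := ex3_a k38_pm_102 k39_pm_102

theorem s84_pm_102 : ∃ t, chk3 f_pm_102 t 14 19 1 = true := ex3_a k37_pm_102 s83_pm_102

theorem s85_pm_102 : ∃ t, chk3 f_pm_102 t 14 18 1 = true := ex3_c k35_pm_102 k36_pm_102

theorem s86_pm_102 : ∃ t, chk3 f_pm_102 t 14 9 1 = true := ex3_b s85_pm_102 s84_pm_102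

theorem s87_pm_102 : ∃ t, chk3 f_pm_102 t 7 9 1 = true := ex3_a s86_pm_102 s82_pm_102

theorem s88_pm_102 : ∃ t, chk3 f_pm_102 t 3 9 1 = true := ex3_a k34_pm_102 s87_pm_102

theorem s89_pm_102 : ∃ t, chk3 f_pm_102 t 31 35 1 = true := ex3_b k32_pm_102 k33_pm_102

theorem s90_pm_102 : ∃ t, chk3 f_pm_102 t 31 34 1 = true := ex3_b k30_pm_102 k31_pm_102

theorem s91_pm_102 : ∃ t, chk3 f_pm_102 t 31 17 1 = true := ex3_b s90_pm_102 s89_pm_102

theorem s92_pm_102 : ∃ t, chk3 f_pm_102 t 30 17 3 = true := ex3_b k28_pm_102 k29_pm_102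

theorem s93_pm_102 : ∃ t, chk3 f_pm_102 t 30 17 2 = true := ex3_c k26_pm_102 k27_pm_102

theorem s94_pm_102 : ∃ t, chk3 f_pm_102 t 30 17 1 = true := ex3_c s93_pm_102 s92_pm_102

theorem s95_pm_102 : ∃ t, chk3 f_pm_102 t 15 17 1 = true := ex3_a s94_pm_102 s91_pm_102

theorem s96_pm_102 : ∃ t, chk3 f_pm_102 t 14 17 1 = true := ex3_a k24_pm_102 k25_pm_102

theorem s97_pm_102 : ∃ t, chk3 f_pm_102 t 7 17 1 = true := ex3_a s96_pm_102 s95_pm_102

theorem s98_pm_102 : ∃ t, chk3 f_pm_102 t 30 66 1 = true := ex3_a k20_pm_102 k21_pm_102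

theorem s99_pm_102 : ∃ t, chk3 f_pm_102 t 30 33 1 = true := ex3_b s98_pm_102 k22_pm_102

theorem s100_pm_102 : ∃ t, chk3 f_pm_102 t 121 131 1 = true := ex3_a k17_pm_102 k18_pm_102

theorem s101_pm_102 : ∃ t, chk3 f_pm_102 t 60 131 1 = true := ex3_a k16_pm_102 s100_pm_102

theorem s102_pm_102 : ∃ t, chk3 f_pm_102 t 60 65 1 = true := ex3_b k15_pm_102 s101_pm_102

theorem s103_pm_102 : ∃ t, chk3 f_pm_102 t 60 32 1 = true := ex3_b k14_pm_102 s102_pm_102

theorem s104_pm_102 : ∃ t, chk3 f_pm_102 t 30 32 1 = true := ex3_a s103_pm_102 k19_pm_102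

theorem s105_pm_102 : ∃ t, chk3 f_pm_102 t 30 16 1 = true := ex3_b s104_pm_102 s99_pm_102

theorem s106_pm_102 : ∃ t, chk3 f_pm_102 t 15 16 1 = true := ex3_a s105_pm_102 k23_pm_102

theorem s107_pm_102 : ∃ t, chk3 f_pm_102 t 29 134 2 = true := ex3_b k10_pm_102 k11_pm_102

theorem s108_pm_102 : ∃ t, chk3 f_pm_102 t 14 134 2 = true := ex3_a k9_pm_102 s107_pm_102

theorem s109_pm_102 : ∃ t, chk3 f_pm_102 t 14 67 2 = true := ex3_b s108_pm_102 k12_pm_102

theorem s110_pm_102 : ∃ t, chk3 f_pm_102 t 29 133 2 = true := ex3_c k7_pm_102 k8_pm_102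

theorem s111_pm_102 : ∃ t, chk3 f_pm_102 t 14 133 2 = true := ex3_a k6_pm_102 s110_pm_102

theorem s112_pm_102 : ∃ t, chk3 f_pm_102 t 14 66 2 = true := ex3_b k5_pm_102 s111_pm_102

theorem s113_pm_102 : ∃ t, chk3 f_pm_102 t 14 33 2 = true := ex3_b s112_pm_102 s109_pm_102

theorem s114_pm_102 : ∃ t, chk3 f_pm_102 t 14 33 1 = true := ex3_c s113_pm_102 k13_pm_102

theorem s115_pm_102 : ∃ t, chk3 f_pm_102 t 14 16 1 = true := ex3_b k4_pm_102 s114_pm_102

theorem s116_pm_102 : ∃ t, chk3 f_pm_102 t 7 16 1 = true := ex3_a s115_pm_102 s106_pm_102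

theorem s117_pm_102 : ∃ t, chk3 f_pm_102 t 7 8 1 = true := ex3_b s116_pm_102 s97_pm_102

theorem s118_pm_102 : ∃ t, chk3 f_pm_102 t 6 17 1 = true := ex3_b k2_pm_102 k3_pm_102

theorem s119_pm_102 : ∃ t, chk3 f_pm_102 t 6 8 1 = true := ex3_b k1_pm_102 s118_pm_102

theorem s120_pm_102 : ∃ t, chk3 f_pm_102 t 3 8 1 = true := ex3_a s119_pm_102 s117_pm_102

theorem s121_pm_102 : ∃ t, chk3 f_pm_102 t 3 4 1 = true := ex3_b s120_pm_102 s88_pm_102

theorem s122_pm_102 : ∃ t, chk3 f_pm_102 t 1 4 1 = true := ex3_a k0_pm_102 s121_pm_102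

theorem s123_pm_102 : ∃ t, chk3 f_pm_102 t 1 2 1 = true := ex3_b s122_pm_102 s71_pm_102

theorem s124_pm_102 : ∃ t, chk3 f_pm_102 t 1 1 1 = true := ex3_b s123_pm_102 k62_pm_102

theorem c_pm_102 : CertNX 536870912 536870912 67108864 469762048 1046898278 26843546 3 true true false .npp 1 0 2
    ndN0q1 ndN2q0 pcN2 Cut.none Ext.none :=
  certNX1 (fam := true) (s1 := true) (s2 := false) (a := 1) (b := 0) (c := 2) (cn := .npp) (n1 := ndN0q1) (n2 := ndN2q0) (pc := pcN2) (cut := Cut.none) (xt := Ext.none) (P1 := 536870912) (W1 := 536870912) (P2 := 67108864) (W2 := 469762048) (P3 := 1046898278) (W3 := 26843546) (N0 := 3)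
    rfl (fun _ => rfl) s124_pm_102

noncomputable def f_pm_112 : ℕ → ℕ → ℕ → ℕ → Bool := onCell 536870912 536870912 1073741824 536870912 1046898278 26843546
    (rowNX 3 1 true true false .dn 1 1 2 (qsf 536870912 536870912 536870912 536870912 2) ndN0q1 ndN2q1 pcN2 Cut.none Ext.none)

def k0_pm_112 : ∃ t, chk3 f_pm_112 t 4 2 1 = true :=
  ⟨(b (b (l 3) (a (b (b (l 3) (b (l 3) (a (l 3) (b (l 3) (c (l 16724472) (l 16722616)))))) (b (a (b (c (b (l 16771864) (l 16777136)) (b (l 16771672) (l 16777128))) (c (l 16773576) (l 16773448))) (c (b (b (l 16763256) (l 16776960)) (c (l 16768376) (l 16768224))) (b (b (l 16762768) (l 16776952)) (c (l 16768064) (l 16767904))))) (b (a (c (c (l 16764600) (l 16764376)) (c (l 16764152) (l 16763928))) (b (c (l 16758904) (l 16758264)) (l 16736912))) (c (l 16712504) (l 16710232))))) (b (b (l 3) (a (a (b (l 3) (c (l 16692080) (l 16689080))) (b (c (l 16586192) (l 16579456)) (c (l 16684984) (l 16681728)))) (a (b (l 1) (c (l 16675496) (l 16671920))) (l 1)))) (c (b (b (b (a (l 16747832)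 (l 16734928)) (c (l 16774936) (l 16774896))) (c (l 16755664) (l 16755288))) (a (l 16694608) (l 16664888))) (b (b (b (a (l 16746800) (l 16733440)) (c (l 16774856) (l 16774816))) (c (l 16754904) (l 16754520))) (l 16676440)))))) (b (b (b (a (c (b (l 16645040) (l 16564016)) (b (l 16640400) (l 16556528))) (a (c (l 16524080) (l 16536904)) (b (l 16546448) (l 16463096)))) (b (a (c (l 16473096) (l 16462416)) (c (a (l 16431328) (l 16449544)) (a (l 16419184) (l 16438048)))) (b (c (a (a (l 16428480) (l 16412176)) (a (l 16441048) (l 16529864))) (a (l 16373920) (l 16329648))) (a (b (c (a (l 16439888) (l 16449232)) (a (l 16428048) (l 16459424))) (a (b (b (b (l 16449952) (b (l 16468872) (l 16487480))) (l 16497368)) (l 16500848)) (l 16540352))) (a (b (l 16540160) (l 16610488)) (l 16646936)))))) (a (c (l 16603016) (l 16596896)) (c (l 16703624) (l 16701040)))) (b (a (c (l 16719440) (l 16717408)) (l 16755160)) (c (l 16777160) (l 16777160))))), by decide +kernel⟩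

def k1_pm_112 : ∃ t, chk3 f_pm_112 t 4 3 1 = true :=
  ⟨(b (a (b (l 16696728) (a (l 16509976) (l 16682176))) (b (l 16777216) (l 16759640))) (a (b (a (l 15868304) (l 16166112)) (a (l 15036904) (l 15495384))) (b (a (l 16551920) (l 16682176)) (a (l 15952192) (l 16229024))))), by decide +kernel⟩

def k2_pm_112 : ∃ t, chk3 f_pm_112 t 5 1 1 = true :=
  ⟨(a (b (b (a (b (l 1) (b (l 1) (b (l 1) (l 16569344)))) (l 1)) (b (b (b (a (b (l 16511680) (c (l 16474528) (l 16463904))) (l 1)) (b (l 16489704) (b (l 16665384) (b (l 16740720) (l 16765024))))) (l 16747632)) (b (l 16761864) (l 16777184)))) (b (l 16777216) (b (l 16759640) (a (l 16551920) (l 16682176))))) (b (b (l 1) (b (b (l 1) (l 16639048)) (b (l 16723064) (l 16777128)))) (b (l 16777216) (l 16765952)))), by decide +kernel⟩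

def k3_pm_112 : ∃ t, chk3 f_pm_112 t 3 1 1 = true :=
  ⟨(b (b (l 1) (b (l 1) (a (a (b (l 1) (c (l 16777040) (l 16777040))) (l 1)) (l 1)))) (a (a (b (c (b (l 16777216) (l 16777216)) (l 16777216)) (l 16777216)) (b (c (b (l 16768376) (l 16768376)) (b (l 16768064) (l 16768064))) (c (l 16768376) (l 16768064)))) (a (b (b (l 1) (b (l 1) (l 16335624))) (a (l 16519464) (l 16196936))) (b (l 1) (a (a (l 15888384) (l 15607488)) (a (c (l 15357304) (l 15487024)) (c (l 15447504) (l 336111478359)))))))), by decide +kernel⟩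

theorem s4_pm_112 : ∃ t, chk3 f_pm_112 t 4 1 1 = true := ex3_b k0_pm_112 k1_pm_112

theorem s5_pm_112 : ∃ t, chk3 f_pm_112 t 2 1 1 = true := ex3_a s4_pm_112 k2_pm_112

theorem s6_pm_112 : ∃ t, chk3 f_pm_112 t 1 1 1 = true := ex3_a s5_pm_112 k3_pm_112

theorem c_pm_112 : CertNX 536870912 536870912 536870912 536870912 1046898278 26843546 3 true true false .dn 1 1 2
    ndN0q1 ndN2q1 pcN2 Cut.none Ext.none :=
  certNX1 (fam := true) (s1 := true) (s2 := false) (a := 1) (b := 1) (c := 2) (cn := .dn) (n1 := ndN0q1) (n2 := ndN2q1) (pc := pcN2) (cut := Cut.none) (xt := Ext.none) (P1 := 536870912) (W1 := 536870912) (P2 := 536870912) (W2 := 536870912) (P3 := 1046898278) (W3 := 26843546) (N0 := 3)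
    rfl (fun _ => rfl) s6_pm_112

noncomputable def f_pm_113 : ℕ → ℕ → ℕ → ℕ → Bool := onCell 536870912 536870912 536870912 536870912 1046898278 26843546
    (rowNX 3 0 true true false .nn 1 1 3 (qsf 536870912 536870912 536870912 536870912 3) ndN0q1 ndN2q1 pcN3 Cut.none Ext.none)

def k0_pm_113 : ∃ t, chk3 f_pm_113 t 2 1 1 = true :=
  ⟨(b (a (l 1) (b (l 1) (a (l 1) (l 16777216)))) (b (a (b (l 1) (a (l 1) (l 16451888))) (b (a (l 16740768) (l 16740768)) (a (l 16472856) (l 16409944)))) (a (b (a (l 15855624) (l 15855624)) (a (c (l 15094104) (l 15035024)) (c (l 15094104) (l 15035024)))) (b (a (l 15855624) (l 15792704)) (a (l 15064600) (b (l 15266032) (l 14859648))))))), by decide +kernel⟩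

def k1_pm_113 : ∃ t, chk3 f_pm_113 t 3 1 1 = true :=
  ⟨(b (a (b (a (l 1) (c (l 16768376) (l 16768064))) (a (c (l 16777216) (l 16777216)) (c (l 16768376) (l 16768064)))) (a (b (a (l 16519464) (l 16196936)) (l 16356592)) (b (a (a (l 15888384) (l 15607488)) (a (c (l 15525080) (l 15487024)) (c (l 15447504) (l 15206640)))) (a (a (l 15888384) (l 15607488)) (c (a (b (l 15525080) (l 15525080)) (l 15447504)) (a (l 15487024) (b (l 15395384) (l 15374408)))))))) (a (b (b (a (l 16740768) (l 16690352)) (a (l 16446648) (l 16464664))) (a (b (l 15855624) (l 14917792)) (b (l 15847600) (a (l 15064576) (b (l 15250816) (l 14844608)))))) (b (a (b (l 16322624) (a (l 16232160) (l 15667896))) (a (b (a (l 15854792) (l 15553064)) (a (l 15616528) (b (l 15412880) (l 15265112)))) (b (c (a (c (l 15514912) (l 15493408)) (l 15416568)) (a (l 15451520) (b (l 15395280) (l 15323736)))) (c (a (c (l 15231048) (l 15271632)) (b (l 15272464) (l 15149752))) (a (l 15196632) (b (l 15186880) (a (l 15036456) (l 15006408)))))))) (a (b (a (b (l 15817704)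 (l 15442624)) (b (l 15530376) (c (l 15255568) (l 15101144)))) (a (b (c (l 15105656) (l 15000208)) (a (l 14713344) (l 14595120))) (b (a (l 14871856) (c (l 14873560) (l 14643984))) (c (a (l 14589600) (b (l 14624264) (l 242896397159))) (a (l 14382264) (b (l 14350880) (l 14153912))))))) (b (b (a (a (l 15249728) (l 14987728)) (a (c (c (l 15053272) (l 14958744)) (l 14806096)) (a (c (l 14955920) (l 14732384)) (l 4)))) (a (a (l 14930384) (c (a (l 14889328) (l 14820952)) (l 14572520))) (a (a (b (l 174176635223) (l 4)) (l 4)) (l 4)))) (a (a (b (b (l 14691760) (c (l 14705536) (l 14362904))) (l 4)) (l 4)) (l 4))))))), by decide +kernel⟩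

theorem s2_pm_113 : ∃ t, chk3 f_pm_113 t 1 1 1 = true := ex3_a k0_pm_113 k1_pm_113

theorem c_pm_113 : CertNX 536870912 536870912 536870912 536870912 1046898278 26843546 3 true true false .nn 1 1 3
    ndN0q1 ndN2q1 pcN3 Cut.none Ext.none :=
  certNX0 (fam := true) (s1 := true) (s2 := false) (a := 1) (b := 1) (c := 3) (cn := .nn) (n1 := ndN0q1) (n2 := ndN2q1) (pc := pcN3) (cut := Cut.none) (xt := Ext.none) (P1 := 536870912) (W1 := 536870912) (P2 := 536870912) (W2 := 536870912) (P3 := 1046898278) (W3 := 26843546) (N0 := 3)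
    rfl s2_pm_113

noncomputable def f_pm_123_a : ℕ → ℕ → ℕ → ℕ → Bool := onCell 1610612736 536870912 0 420477299 1046898278 26843546
    (rowNX 3 2 true true false .npn 1 2 3 (qsf 536870912 536870912 0 420477299 3) ndN0q1 ndN2q2a pcN3 Cut.none Ext.none)

def k0_pm_123_a : ∃ t, chk3 f_pm_123_a t 1 2 1 = true :=
  ⟨(a (a (l 1) (b (a (c (l 16406712) (l 16393704)) (c (l 16406712) (l 16393704))) (c (a (l 16405288) (l 16405288)) (a (l 16392232) (l 16392232))))) (a (a (b (c (l 16406720) (l 16393712)) (c (l 16405296) (l 16392240))) (b (a (c (l 16406752) (l 16393752)) (c (l 16406752) (l 16393744))) (a (l 16398808) (b (l 16376896) (l 16419856))))) (a (a (b (c (l 16407128) (l 16394136)) (a (l 16398784) (b (l 16377872) (l 16421096)))) (b (a (c (l 16412160) (l 16399368)) (c (b (l 16430184) (l 16395168)) (l 16399328))) (a (b (l 16385616) (l 16431224)) (b (l 16388800) (l 16437184))))) (a (a (b (c (a (l 151631586215) (b (l 4) (l 16388344))) (a (l 16395648) (l 333630820215))) (c (b (l 16388920) (l 16436712)) (b (l 16375656)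 (l 16425520)))) (b (l 4) (a (c (b (l 16384648) (l 16429176)) (b (l 16370984) (l 16417736))) (b (l 4) (c (l 16447736) (l 16436528)))))) (l 4))))), by decide +kernel⟩

def k1_pm_123_a : ∃ t, chk3 f_pm_123_a t 1 6 1 = true :=
  ⟨(a (a (a (l 1) (a (l 1) (l 16491872))) (c (a (l 16558624) (l 16558624)) (a (l 16550952) (l 16550952)))) (a (a (c (l 16558632) (l 16550960)) (b (l 16496496) (l 16614056))) (a (a (a (l 16554800) (l 16451664)) (a (b (l 16511080) (l 16632632)) (b (l 16520752) (l 16603104)))) (a (a (b (c (l 16518856) (l 16511032)) (b (l 16603552) (a (l 16682832) (l 16674704)))) (a (c (l 16443440) (l 16522952)) (b (c (l 16524000) (l 16517016)) (c (l 16640816) (l 16640968))))) (a (a (c (b (l 16510832) (b (l 16633040) (l 16678968))) (b (l 16545712) (b (l 16630480) (l 16680560)))) (b (l 4) (a (c (b (l 16648576) (l 16664560)) (l 16607544)) (a (c (l 16624432) (l 16641056)) (l 4))))) (l 4)))))), by decide +kernel⟩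

def k2_pm_123_a : ∃ t, chk3 f_pm_123_a t 2 7 1 = true :=
  ⟨(a (a (b (l 1) (c (l 16187664) (l 16190824))) (b (c (b (l 16748360) (l 16622824)) (b (l 16747344) (l 16617384))) (c (l 16082808) (l 16148880)))) (b (a (c (l 16714568) (l 16712360)) (b (l 16747840) (l 16620104))) (a (c (l 16187664) (l 16190824)) (b (l 16394240) (l 16091280))))), by decide +kernel⟩

def k3_pm_123_a : ∃ t, chk3 f_pm_123_a t 6 7 1 = true :=
  ⟨(b (a (b (l 16747856) (l 16620120)) (b (l 16705952) (l 16620168))) (a (c (l 16187680) (l 16190840)) (b (l 16394296) (l 16070368)))), by decide +kernel⟩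

def k4_pm_123_a : ∃ t, chk3 f_pm_123_a t 7 7 1 = true :=
  ⟨(a (b (a (b (l 16644208) (l 16600544)) (a (b (l 16769968) (l 16617144)) (b (l 16690016) (l 16589656)))) (a (b (l 16395744) (l 15988032)) (a (b (l 16419712) (l 16161000)) (b (l 16389024) (c (l 16175960) (l 16168400)))))) (a (a (a (b (b (l 16627440) (l 16563416)) (b (l 16264048) (l 16093792))) (b (b (c (l 16725192) (l 16763680)) (l 16493216)) (b (l 16290280) (l 16156624)))) (b (b (a (c (b (l 16729456) (l 16746896)) (l 16770984)) (c (l 16684424) (l 16753952))) (c (a (b (l 16674040) (l 16608104)) (l 16656840)) (a (l 16613872) (l 16689048)))) (b (c (a (l 16480824) (l 16534728)) (l 16432272)) (c (a (l 16272048) (l 16331792)) (l 16262112))))) (a (b (a (c (b (l 16708136) (l 16757168)) (b (l 16713752) (l 16742512))) (c (b (a (l 16652560) (l 16568752)) (l 16705640)) (b (a (l 16653832) (l 16586936)) (l 16731784)))) (c (a (b (a (l 16586656) (l 16626336)) (l 16412896)) (b (l 16631048) (a (c (l 16498424) (l 16478352)) (c (l 16556016) (l 16494328))))) (a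 (b (l 16534880) (l 16375208)) (b (l 16600744) (c (a (l 16463912) (l 16523248)) (l 16478048)))))) (a (a (b (b (a (c (l 16613336) (l 16608488)) (l 4)) (c (l 16630336) (c (l 16713096) (l 16712848)))) (b (c (l 16702736) (l 16677488)) (c (l 16557016) (l 16521208)))) (a (b (b (l 4) (c (l 16692288) (l 16605544))) (c (b (l 16736216) (l 16616680)) (b (l 16650384) (l 16567048)))) (b (l 4) (c (b (l 16703584) (l 16598984)) (b (b (l 4) (l 16691272)) (c (l 16616000) (l 16611128))))))) (a (b (l 4) (b (l 4) (a (c (b (l 16660616) (l 16590344)) (c (l 16559608) (l 16535632))) (l 4)))) (l 4)))))), by decide +kernel⟩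

theorem s5_pm_123_a : ∃ t, chk3 f_pm_123_a t 3 7 1 = true := ex3_a k3_pm_123_a k4_pm_123_a

theorem s6_pm_123_a : ∃ t, chk3 f_pm_123_a t 1 7 1 = true := ex3_a k2_pm_123_a s5_pm_123_a

theorem s7_pm_123_a : ∃ t, chk3 f_pm_123_a t 1 3 1 = true := ex3_b k1_pm_123_a s6_pm_123_a

theorem s8_pm_123_a : ∃ t, chk3 f_pm_123_a t 1 1 1 = true := ex3_b k0_pm_123_a s7_pm_123_a

theorem c_pm_123_a : CertNX 536870912 536870912 0 420477299 1046898278 26843546 3 true true false .npn 1 2 3
    ndN0q1 ndN2q2a pcN3 Cut.none Ext.none :=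
  certNX2 (fam := true) (s1 := true) (s2 := false) (a := 1) (b := 2) (c := 3) (cn := .npn) (n1 := ndN0q1) (n2 := ndN2q2a) (pc := pcN3) (cut := Cut.none) (xt := Ext.none) (P1 := 536870912) (W1 := 536870912) (P2 := 0) (W2 := 420477299) (P3 := 1046898278) (W3 := 26843546) (N0 := 3)
    rfl (fun _ => rfl) s8_pm_123_a

noncomputable def f_pm_123_b : ℕ → ℕ → ℕ → ℕ → Bool := onCell 1610612736 536870912 1239849684 370763052 1046898278 26843546
    (rowNX 3 2 true true false .npn 1 2 3 (qsf 536870912 536870912 1239849684 370763052 3) ndN0q1 ndN2q2b pcN3 Cut.none Ext.none)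

def k0_pm_123_b : ∃ t, chk3 f_pm_123_b t 1 1 1 = true :=
  ⟨(a (a (l 1) (b (a (b (b (c (l 16559056) (l 16551400)) (l 1)) (l 1)) (b (b (c (l 16559056) (l 16551400)) (c (l 16750728) (l 16749800))) (c (l 16777216) (l 16777216)))) (l 1))) (a (b (a (b (c (b (a (l 16559056) (l 16559072)) (l 16708792)) (b (a (l 16551400) (l 16551416)) (l 16749808))) (c (l 16777208) (l 16777208))) (b (a (b (c (l 16559096) (l 16551440)) (c (l 16750752) (l 16749824))) (b (c (l 16559088) (l 16551432)) (c (l 16750752) (l 16749816)))) (c (a (l 16777184) (l 16777192)) (a (l 16777176) (l 16777192))))) (b (a (l 1) (a (c (l 16777200) (l 16777200)) (c (l 16777208) (l 16777208)))) (l 1))) (a (a (b (b (c (b (a (l 16559064) (l 16559456)) (l 16645992)) (b (l 16467776) (l 16666040))) (c (a (l 16777216) (l 16777168)) (a (l 16777216) (l 16777168)))) (a (c (l 16777216) (l 16777216)) (l 4))) (b (b (a (b (c (l 16561128) (l 16553552)) (c (l 16751104) (l 16750192))) (b (c (a (l 16560048) (l 16559232)) (a (l 16552424) (l 16551576))) (l 4))) (l 4))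 (l 4))) (b (b (l 4) (l 4)) (l 4))))), by decide +kernel⟩

theorem c_pm_123_b : CertNX 536870912 536870912 1239849684 370763052 1046898278 26843546 3 true true false .npn 1 2 3
    ndN0q1 ndN2q2b pcN3 Cut.none Ext.none :=
  certNX2 (fam := true) (s1 := true) (s2 := false) (a := 1) (b := 2) (c := 3) (cn := .npn) (n1 := ndN0q1) (n2 := ndN2q2b) (pc := pcN3) (cut := Cut.none) (xt := Ext.none) (P1 := 536870912) (W1 := 536870912) (P2 := 1239849684) (W2 := 370763052) (P3 := 1046898278) (W3 := 26843546) (N0 := 3)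
    rfl (fun _ => rfl) k0_pm_123_b

noncomputable def f_pm_133 : ℕ → ℕ → ℕ → ℕ → Bool := onCell 536870912 536870912 1610612736 469762048 1046898278 26843546
    (rowNX 3 0 true true false .dn 1 3 3 (qsf 536870912 536870912 1610612736 469762048 3) ndN0q1 ndN2q3 pcN3 Cut.none Ext.none)

def k0_pm_133 : ∃ t, chk3 f_pm_133 t 1 1 1 = true :=
  ⟨(l 4), by decide +kernel⟩

theorem c_pm_133 : CertNX 536870912 536870912 1610612736 469762048 1046898278 26843546 3 true true false .dn 1 3 3
    ndN0q1 ndN2q3 pcN3 Cut.none Ext.none :=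
  certNX0 (fam := true) (s1 := true) (s2 := false) (a := 1) (b := 3) (c := 3) (cn := .dn) (n1 := ndN0q1) (n2 := ndN2q3) (pc := pcN3) (cut := Cut.none) (xt := Ext.none) (P1 := 536870912) (W1 := 536870912) (P2 := 1610612736) (W2 := 469762048) (P3 := 1046898278) (W3 := 26843546) (N0 := 3)
    rfl k0_pm_133

end Pool.Agent.Strip051.G.IE1.Tab.C.NA02

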