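import Pool.Agent.Strip051.G.IE1.Tab

/-! # Certificates N18 (generated) -/

set_option linter.all false
set_option maxRecDepth 100000

namespace Pool.Agent.Strip051.G.IE1.Tab.C.NA03

open Pool.Agent.Strip051.PB Pool.Agent.Strip051.PB.T
open Pool.Agent.Strip051.G.IE1.Tab

noncomputable def cut_pm_022 : Cut := Cut.of [[⟨0, 0, 0, 67108864⟩, ⟨1, 1, 0, 67108864⟩, ⟨2, 1, 0, 67108864⟩, ⟨3, 0, 0, 1233125376⟩]]

noncomputable def f_pm_022 : ℕ → ℕ → ℕ → ℕ → Bool := onCell 0 536870912 1073741824 536870912 1046898278 26843546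
    (rowNX 3 1 true true false .pp 0 2 2 (qsf 0 536870912 1073741824 536870912 2) ndN0q0 ndN3q2 pcN2 cut_pm_022 Ext.none)

def k0_pm_022 : ∃ t, chk3 f_pm_022 t 4 16 1 = true :=
  ⟨(a (a (l 6) (a (l 6) (l 1))) (l 1)), by decide +kernel⟩

def k1_pm_022 : ∃ t, chk3 f_pm_022 t 4 34 1 = true :=
  ⟨(a (a (l 6) (a (l 6) (a (l 6) (l 1)))) (l 1)), by decide +kernel⟩

def k2_pm_022 : ∃ t, chk3 f_pm_022 t 4 70 1 = true :=
  ⟨(a (a (l 6) (a (l 6) (a (l 6) (a (l 6) (l 1))))) (l 1)), by decide +kernel⟩

def k3_pm_022 : ∃ t, chk3 f_pm_022 t 4 142 1 = true :=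
  ⟨(a (a (l 6) (a (l 6) (a (l 6) (a (l 6) (a (l 6) (l 1)))))) (l 1)), by decide +kernel⟩

def k4_pm_022 : ∃ t, chk3 f_pm_022 t 4 286 1 = true :=
  ⟨(a (a (l 6) (a (l 6) (a (l 6) (a (l 6) (a (l 6) (a (l 6) (l 1))))))) (l 1)), by decide +kernel⟩

def k5_pm_022 : ∃ t, chk3 f_pm_022 t 16 287 1 = true :=
  ⟨(b (l 6) (b (l 6) (c (a (c (l 16070232) (l 16072968)) (c (l 16195104) (a (l 16152192) (c (l 16304544) (a (l 16316688) (c (l 16375880) (l 16360520))))))) (c (a (a (l 16017256) (c (l 16114744) (a (l 16090152) (c (l 16147792) (l 16129864))))) (a (c (c (l 16232592) (a (l 16206904) (l 16273888))) (c (a (l 16215752) (a (l 16230840) (l 16258528))) (a (a (l 16176496) (l 16208208)) (l 16238856)))) (c (c (a (l 16330344) (c (l 16366976) (l 16344728))) (a (a (l 16283544) (l 16308072)) (l 16337960))) (l 16311848)))) (a (c (a (a (l 15985656) (c (l 16035488) (l 16038048))) (a (c (l 16094360) (c (a (l 16087024) (l 16109432)) (l 16091776))) (c (a (l 16078544) (l 16163152)) (l 16136648)))) (a (c (a (l 15982984) (c (a (l 16024624)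 (l 16052904)) (l 16013808))) (a (c (a (l 15964872) (c (l 15994688) (l 15994248))) (a (a (l 15959832) (l 15971200)) (l 15992432))) (l 16028056))) (c (l 16109336) (l 16104184)))) (c (l 16260152) (c (l 16257328) (l 16254304)))))))), by decide +kernel⟩

def k6_pm_022 : ∃ t, chk3 f_pm_022 t 17 287 1 = true :=
  ⟨(a (b (l 6) (c (a (c (l 16245320) (c (a (l 16396480) (c (l 16445816) (l 16443176))) (a (c (l 16415424) (l 16393576)) (c (l 16416856) (l 16411136))))) (c (c (l 16458320) (a (l 16403808) (c (l 16528840) (l 16507824)))) (c (a (c (l 16469776) (l 16418840)) (c (a (l 16462168) (l 16469448)) (l 16459504))) (l 16456680)))) (c (a (l 16405760) (l 16485824)) (c (l 16453944) (c (l 16452384) (l 16389472)))))) (a (b (l 6) (c (c (c (a (c (l 16574064) (a (l 16575184) (l 16561096))) (c (a (l 16641608) (l 16631776)) (l 16598608))) (a (c (l 16559288) (a (l 16509032) (l 16519160))) (c (a (l 16519288) (l 16579080)) (l 16557736)))) (a (l 16510320) (l 16562920))) (c (l 16541504) (c (l 16585896) (c (l 16592320) (l 16552648))))))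 (c (c (c (c (a (l 16658592) (c (a (l 16660936) (l 16587920)) (l 16605752))) (a (a (l 16597784) (l 16616904)) (l 16652800))) (l 16628648)) (l 16586696)) (c (a (c (l 16594944) (l 16578720)) (l 16630104)) (c (a (l 16610656) (l 16606008)) (c (a (l 16640768) (l 173442502455)) (a (l 16627888) (c (a (l 16675976) (l 16629344)) (a (l 16651584) (c (l 16628440) (l 16606344))))))))))), by decide +kernel⟩

def k7_pm_022 : ∃ t, chk3 f_pm_022 t 9 287 1 = true :=
  ⟨(a (a (a (a (c (c (l 578779916439) (l 16582752)) (c (l 16580720) (c (l 16600192) (c (l 16599432) (l 604549699591))))) (l 1)) (l 1)) (l 1)) (l 1)), by decide +kernel⟩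

def k8_pm_022 : ∃ t, chk3 f_pm_022 t 5 8 1 = true :=
  ⟨(l 1), by decide +kernel⟩

def k9_pm_022 : ∃ t, chk3 f_pm_022 t 3 8 1 = true :=
  ⟨(l 1), by decide +kernel⟩

def k10_pm_022 : ∃ t, chk3 f_pm_022 t 16 18 2 = true :=
  ⟨(b (a (b (a (b (a (b (a (l 15961776) (l 15991760)) (a (l 15881776) (l 15928832))) (l 15995320)) (a (l 15777808) (c (b (l 15915656) (l 15846040)) (b (l 15903328) (l 15831824))))) (c (b (l 16054616) (l 15951856)) (l 16003072))) (a (c (l 15562296) (l 15563960)) (b (a (c (b (l 15851408) (l 15782704)) (b (l 15837888) (l 15767320))) (c (l 15869736) (l 15860888))) (a (l 15652128) (c (b (l 15788112) (l 15720336)) (b (l 15774776) (l 15705144))))))) (c (b (a (l 15948192) (l 16109728)) (a (c (l 15871680) (l 15876944)) (c (l 15945248) (l 15967072)))) (a (b (a (l 16072952) (l 15999944)) (l 15697088)) (c (b (l 16030848) (l 15907816)) (a (l 15881832) (c (l 15948328) (b (a (l 16244384) (l 16215512)) (l 15984400)))))))) (a (c (b (c (l 15153208) (l 15204472)) (c (a (l 14933296) (l 15145632)) (l 14857536)))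 (b (c (l 15234696) (l 15097800)) (c (l 14989632) (l 14870712)))) (a (b (c (a (b (b (a (l 15713408) (l 15741400)) (l 15659040)) (l 15540608)) (b (l 15746592) (a (b (l 15653464) (l 15579304)) (b (l 15683376) (l 15625640))))) (a (b (b (l 15716744) (l 15648064)) (l 15527120)) (b (l 15750424) (b (l 15603896) (a (l 15572808) (l 15626120)))))) (c (c (l 15355120) (l 15345824)) (c (l 15338960) (l 15341608)))) (c (b (c (l 15756688) (l 15766920)) (a (b (c (a (l 15561904) (l 15601280)) (l 15473672)) (l 15433752)) (b (l 15641872) (a (b (l 15550280) (l 15478192)) (b (l 15582704) (l 15526728)))))) (b (c (l 15783792) (a (l 15769408) (c (l 15838912) (l 15832856)))) (a (b (c (a (l 15559304) (l 15603712)) (l 15451440)) (l 15442504)) (c (b (l 15660072) (a (l 15519832) (l 15571480))) (b (l 15654944) (c (l 15566768) (a (l 15551496) (l 15580944))))))))))), by decide +kernel⟩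

def k11_pm_022 : ∃ t, chk3 f_pm_022 t 32 18 6 = true :=
  ⟨(b (a (b (b (a (b (l 15957400) (l 15883704)) (l 15980200)) (a (l 15754120) (b (l 15827208) (a (l 15794448) (l 15842816))))) (c (l 15549312) (l 15539776))) (b (c (l 15998848) (a (l 15973392) (c (l 16031072) (a (l 16024472) (l 16057456))))) (a (b (c (b (l 15827984) (l 15756472)) (a (l 15767232) (l 15812912))) (l 15631456)) (a (b (l 15852104) (c (l 15712160) (l 15719752))) (c (l 15707616) (c (l 15758528) (b (l 15889128) (l 15668744)))))))) (c (b (a (l 15204376) (l 15431872)) (l 14732848)) (a (b (l 15191744) (l 14854744)) (c (b (l 15432912) (l 15094880)) (b (a (l 15368168) (l 15409744)) (l 15008120)))))), by decide +kernel⟩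

def k12_pm_022 : ∃ t, chk3 f_pm_022 t 64 36 7 = true :=
  ⟨(c (b (a (b (b (l 15864272) (l 15810576)) (l 15742192)) (b (c (l 15975176) (l 15977480)) (a (b (l 15868608) (l 15786232)) (c (l 15868760) (b (l 15905200) (l 15839968)))))) (c (l 15533848) (a (l 15469648) (l 15487640)))) (b (b (a (c (a (b (l 15928896) (l 15844952)) (b (l 15963544) (c (l 15896608) (l 15897616)))) (a (c (c (l 15841360) (l 15820576)) (a (c (l 15871440) (l 15786352)) (b (l 15936216) (l 15854752)))) (c (c (a (l 15858056) (l 15940576)) (b (l 15962248) (l 15895616))) (l 15925488)))) (c (c (a (l 15963896) (l 15992120)) (a (l 15963048) (l 15985080))) (l 15966248))) (a (c (c (l 15737936) (l 15737840)) (c (a (l 15699232) (c (l 15765736) (l 15765816))) (a (l 15639048) (l 15763640)))) (c (a (c (l 15721480) (b (a (l 15860536) (l 15881424)) (l 15785640))) (c (b (l 15906144) (l 15756816)) (l 15864864))) (c (c (b (l 15878792) (l 15804200)) (l 15754264)) (l 15731936))))) (c (a (c (l 15466472) (l 15297064)) (c (a (l 15560320) (l 15623104)) (c (l 15484992)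 (l 15586624)))) (a (a (c (l 15432208) (l 15428832)) (l 15319600)) (l 15427648))))), by decide +kernel⟩

def k13_pm_022 : ∃ t, chk3 f_pm_022 t 65 36 7 = true :=
  ⟨(c (b (c (a (l 15872000) (c (a (l 16029344) (l 16046368)) (l 15903656))) (a (c (a (l 15969208) (l 15991512)) (l 15868792)) (l 16018424))) (a (c (b (a (l 15771760) (c (l 15822600) (l 15825040))) (l 15629976)) (b (a (c (l 15777232) (b (l 15813272) (l 15731648))) (c (b (l 15850208) (l 15785920)) (l 15805272))) (c (l 15631280) (l 15624872)))) (c (c (b (l 15868080) (a (l 15727880) (l 15656736))) (b (l 15860336) (a (l 15591240) (l 15747440)))) (b (l 15848728) (l 15678936))))) (b (c (l 15990696) (c (l 15859248) (l 15986944))) (b (a (c (b (l 15797720) (a (l 15721864) (l 15772400))) (c (c (a (l 15757144) (l 15799272)) (l 15775104)) (l 15773632))) (c (l 15845680) (l 15835296))) (a (c (l 15617032) (l 15611296)) (c (c (l 15717728) (b (l 15755432) (l 15682960))) (b (a (l 15736576) (l 15762880)) (l 15679136))))))), by decide +kernel⟩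

def k14_pm_022 : ∃ t, chk3 f_pm_022 t 32 37 7 = true :=
  ⟨(c (a (c (l 14865848) (b (l 14969928) (l 14818392))) (c (a (b (l 15367392) (l 15026792)) (b (c (l 15474136) (l 15486544)) (l 15022536))) (a (c (b (l 15367816) (l 15026064)) (l 14957672)) (l 15175240)))) (a (c (a (c (b (l 15114952) (l 14770944)) (b (l 15109032) (l 14769440))) (c (b (a (l 15208104) (l 15270280)) (a (l 14864256) (l 14926640))) (b (c (l 15234224) (l 15232568)) (l 14889352)))) (a (a (c (l 14905472) (l 14900920)) (l 14770704)) (l 15053016))) (c (b (c (l 15411776) (l 15364992)) (c (l 15068200) (l 14796440))) (l 15230408)))), by decide +kernel⟩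

def k15_pm_022 : ∃ t, chk3 f_pm_022 t 33 18 6 = true :=
  ⟨(b (a (c (a (l 15785888) (c (l 15997680) (b (l 16010384) (l 15934696)))) (c (a (b (l 15993928) (l 15875848)) (c (a (l 15945904) (l 15906440)) (l 15785408))) (a (c (a (l 15869512) (l 15876680)) (l 15713368)) (l 15987224)))) (c (c (a (a (l 15928864) (b (l 16206408) (l 16005184))) (c (a (l 16112336) (l 15984624)) (l 15864128))) (a (c (a (l 16019824) (l 15956400)) (l 15814664)) (l 16087312))) (l 15850280))) (a (c (b (a (b (a (l 15662920) (l 15713640)) (l 15532288)) (c (b (l 15768200) (l 15646632)) (b (l 15772600) (a (l 15637032) (l 15676680))))) (c (l 15344824) (a (l 15283056) (l 15414160)))) (b (a (c (b (a (l 15680144) (l 15662088)) (l 15541240)) (b (a (c (l 15678312) (l 15659128)) (l 15697928)) (l 15527800))) (c (b (l 15692816) (a (c (l 15628544) (l 15604880)) (l 15643096))) (b (l 15733240) (l 15610056)))) (c (a (l 15287856) (c (l 15401480) (l 15381592))) (a (l 15168416) (l 15371600))))) (c (b (c (a (l 15777032) (c (l 15812976) (l 15789472))) (a (c (l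 15761232) (l 15739464)) (l 15780912))) (a (c (b (a (l 15594144) (l 15628656)) (l 15454760)) (b (a (c (l 15578600) (l 15552112)) (l 15589736)) (l 15432360))) (c (b (l 15651760) (a (c (l 15528520) (l 15500816)) (l 15537840))) (b (l 15623648) (l 15505160))))) (b (l 15751864) (b (a (l 15554432) (l 15616664)) (a (l 15402776) (l 15497400))))))), by decide +kernel⟩

def k16_pm_022 : ∃ t, chk3 f_pm_022 t 33 18 7 = true :=
  ⟨(b (c (b (b (l 16178208) (l 16084360)) (l 15684720)) (b (c (l 15970256) (b (c (l 16088896) (l 16169512)) (l 15948808))) (a (c (l 15758368) (l 15642568)) (c (l 15958264) (l 15761272))))) (b (c (a (b (a (b (l 15700832) (l 15630000)) (l 15727008)) (a (l 15505216) (c (l 15605368) (l 15600672)))) (l 15743656)) (a (b (a (c (c (l 15656944) (b (l 15693936) (l 15622152))) (l 15651368)) (c (l 15722072) (l 15708296))) (c (c (a (l 15498760) (l 15597136)) (a (l 15495320) (b (l 15633144) (l 15562112)))) (l 15455144))) (c (c (l 15738520) (l 15737416)) (l 15619624)))) (c (a (l 15075512) (b (a (c (l 15547000) (l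 15542040)) (l 15607312)) (a (l 15391504) (c (l 15489608) (l 15484384))))) (a (c (c (l 15300096) (c (l 15295816) (l 15294760))) (l 15291008)) (c (c (b (l 15525216) (l 15409104)) (b (a (l 15409224) (l 15599192)) (a (l 15379240) (l 15413376)))) (b (l 15561072) (l 15422928))))))), by decide +kernel⟩

def k17_pm_022 : ∃ t, chk3 f_pm_022 t 34 18 2 = true :=
  ⟨(c (b (b (a (a (l 16153936) (l 16124064)) (c (a (l 16221256) (l 16296432)) (c (a (l 16348016) (a (l 16379520) (c (l 16388016) (l 16344312)))) (a (l 16248056) (a (l 16272904) (l 16371880)))))) (c (a (l 16028480) (l 16119048)) (a (l 16072424) (a (l 16038688) (c (l 16105072) (l 16153104)))))) (b (c (a (l 15842656) (l 15952712)) (a (l 15797016) (a (l 15913072) (c (l 16000312) (l 16005472))))) (c (a (a (l 15635656) (l 15683504)) (l 15772504)) (a (l 15477104) (a (c (l 15781840) (l 15801584)) (c (l 15839400) (l 15821264))))))) (b (c (a (a (b (l 16271144) (l 16070624)) (a (c (l 16186952) (b (l 16300016) (l 16143648))) (c (l 16069904) (l 16053240)))) (a (c (a (c (l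 16133288) (l 16184256)) (l 16161568)) (b (a (l 16289904) (l 16290200)) (a (l 16134712) (l 16134760)))) (c (b (a (l 16250240) (c (l 16273648) (l 16353512))) (a (l 16158104) (l 16158112))) (l 16126592)))) (a (c (a (b (a (l 16226624) (l 16315584)) (a (l 16099792) (l 16108032))) (b (a (l 16287608) (l 16287944)) (c (l 16113144) (l 16098312)))) (a (b (a (l 16173200) (l 16197584)) (l 16002888)) (l 16007560))) (b (l 16350528) (l 16147648)))) (c (c (a (b (l 15808832) (l 15713208)) (a (b (l 15893632) (l 15783000)) (b (l 15886432) (c (l 15786488) (l 15771096))))) (a (a (l 15794776) (b (l 15854248) (l 15733232))) (a (b (c (l 15946240) (l 15931120)) (l 15739568)) (l 15860744)))) (a (c (a (b (l 15887032) (l 15680432)) (b (l 15899056) (l 15691784))) (a (b (l 15850728) (l 15643224)) (l 15774104))) (b (l 15943424) (l 15738576)))))), by decide +kernel⟩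

def k18_pm_022 : ∃ t, chk3 f_pm_022 t 35 36 2 = true :=
  ⟨(c (c (c (b (a (a (l 16364208) (b (a (l 16464656) (c (l 16523552) (l 16529304))) (a (l 16448952) (l 16387816)))) (a (b (l 16549288) (l 16395672)) (b (a (l 16517360) (l 16536104)) (c (l 16418680) (l 16402504))))) (a (a (l 16227096) (a (l 16173632) (c (l 16286768) (l 16293744)))) (a (l 16257400) (c (a (l 16243664) (b (l 16267360) (l 16248976))) (b (a (b (l 16372096) (l 16311088)) (l 16364128)) (l 16150688)))))) (b (a (a (a (l 16387232) (l 16329928)) (b (a (l 16484088) (l 16504456)) (l 16424440))) (a (c (b (l 16465032) (a (l 16432752) (b (l 16470936) (l 16405624)))) (a (b (l 16476144) (l 16346760)) (l 16372752))) (b (l 16555224) (l 16480544)))) (a (a (a (l 16235680) (b (l 16263264) (l 16204328))) (l 16108528)) (a (a (c (l 16256688) (l 16171240)) (l 16108976)) (b (l 16350440) (l 16230464)))))) (b (a (c (c (a (l 16322912) (a (l 16400208) (b (a (l 16459656) (l 16466944)) (l 16384344)))) (a (l 16401296) (a (l 16293440) (l 16354864)))) (a (a (c (l 16396088)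 (l 16248880)) (c (l 16290448) (l 16389344))) (l 16280936))) (b (l 16436656) (a (l 16398152) (l 16438344)))) (a (a (c (l 16095296) (a (l 16181168) (l 16139328))) (c (a (c (l 16216568) (l 16153840)) (c (l 16108448) (l 16207824))) (l 16203912))) (b (a (l 16298840) (l 16351936)) (l 16211328))))) (b (a (a (l 16250008) (b (l 16371024) (l 16381104))) (b (a (a (l 16472800) (l 16482632)) (l 16511992)) (a (l 16344088) (c (l 16417880) (l 16419704))))) (a (l 16082544) (b (a (l 16313544) (l 16275880)) (l 16229032))))), by decide +kernel⟩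

def k19_pm_022 : ∃ t, chk3 f_pm_022 t 35 37 2 = true :=
  ⟨(c (a (c (a (c (l 15943104) (c (l 15816264) (a (l 15962048) (l 15929808)))) (c (c (b (l 16023608) (l 15904856)) (a (l 15867464) (l 15912904))) (b (l 16055160) (l 15872840)))) (c (a (c (l 15784352) (l 15927480)) (c (a (l 15930688) (l 15733424)) (a (l 15784800) (l 15918112)))) (a (b (c (l 15996960) (l 15985024)) (l 15726328)) (l 15916304)))) (c (a (c (b (l 16083808) (l 15896296)) (b (a (c (l 16046368) (l 16026160)) (c (l 15914824) (l 16035624))) (c (l 15859880) (l 15847728)))) (c (b (a (c (l 16080384) (b (l 16111088) (l 16004728))) (c (l 15995600) (l 16072624))) (a (c (l 15885496) (l 15865576)) (c (l 15877392) (l 15872816)))) (b (l 16065472) (l 15870744)))) (b (l 15993712) (l 15866888)))) (b (a (c (l 16005960) (l 16019280)) (l 16036528)) (c (l 15785936) (l 15813776)))), by decide +kernel⟩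

def k20_pm_022 : ∃ t, chk3 f_pm_022 t 17 18 3 = true :=
  ⟨(b (c (b (a (c (a (l 16224776) (l 16283664)) (a (l 16288184) (l 16271936))) (a (c (l 16336304) (b (l 16446808) (l 16403576))) (b (c (a (b (l 16545944) (l 16527096)) (l 16512808)) (a (l 16486328) (a (l 16520936) (l 16550880)))) (a (l 16450848) (c (l 16404128) (l 16456984)))))) (a (c (l 15984696) (l 16108440)) (a (c (l 16232352) (l 16240208)) (c (l 16261800) (l 16168488))))) (b (a (c (l 16142896) (c (l 16140496) (b (c (l 16262520) (l 16300552)) (l 16143112)))) (c (a (b (l 16460608) (l 16410680)) (b (a (l 16520616) (b (a (l 16601464) (l 16629168)) (l 16555280))) (l 16407424))) (c (a (l 16384672) (b (a (l 16551808) (a (l 16582312) (l 16562704))) (l 16499296))) (b (a (l 16424144) (a (l 16514816) (c (l 16555208) (l 16536552)))) (l 16310696))))) (c (a (l 15977528) (a (l 16240232) (l 16220880))) (a (c (l 15994632) (c (l 15866176) (l 16008104))) (c (l 16177896) (c (l 16074832) (l 16173888))))))) (b (c (a (c (l 15896160) (l 15889192)) (c (l 15914040) (l 15980216)))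 (c (c (l 15848360) (l 15803296)) (c (a (c (l 15877760) (l 15876880)) (l 16015624)) (c (a (l 15743408) (l 15909432)) (l 15710064))))) (c (c (a (l 15686208) (l 15857024)) (l 15513960)) (c (a (l 15542720) (l 15803320)) (c (c (l 15752400) (a (a (l 15615656) (l 15707144)) (l 15839032))) (c (a (l 15564224) (l 15644088)) (l 15554512))))))), by decide +kernel⟩

def k21_pm_022 : ∃ t, chk3 f_pm_022 t 72 18 1 = true :=
  ⟨(c (b (a (b (c (l 275984506423) (b (l 16600144) (l 16483552))) (c (b (l 16329416) (c (l 16221848) (l 16285392))) (b (b (l 16444848) (l 16380512)) (l 16208336)))) (b (b (l 2660765470839) (l 16532448)) (b (c (l 16480200) (l 16434768)) (c (l 16304384) (b (l 16376208) (l 16312600)))))) (c (b (a (b (l 16167200) (l 16057232)) (b (b (l 16249840) (l 16189016)) (l 16103160))) (c (b (l 15971104) (l 15871376)) (l 15910952))) (b (b (a (l 16180504) (l 16141480)) (l 16098000)) (l 15930536)))) (b (c (b (b (a (l 16578536) (l 2726800587879)) (a (b (l 16517760) (c (l 16511632) (l 16494248))) (l 16530192))) (b (a (c (l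 16355192) (l 16428296)) (c (l 16412760) (l 16373112))) (a (l 16312232) (c (l 16327888) (l 16358336))))) (c (b (b (b (l 1515082878407) (l 237330054167)) (a (b (l 16522800) (l 16524920)) (l 16488952))) (b (a (l 16440144) (b (l 16471432) (l 16453264))) (l 16349920))) (b (c (b (a (a (l 273837303383) (l 16580176)) (l 2841154088215)) (a (l 16478856) (l 307123145719))) (a (c (b (b (l 16583728) (l 16594088)) (l 16523688)) (b (b (a (c (l 16621424) (l 16599304)) (l 16588048)) (a (l 16603336) (l 340946223527))) (l 16504912))) (b (l 2857260210663) (c (b (l 16608560) (l 16541304)) (c (b (l 16608896) (l 16542088)) (b (l 16567712) (l 16543040))))))) (c (b (a (l 16449248) (l 16448248)) (l 16356824)) (c (l 16288080) (l 16225520)))))) (c (b (c (l 16169160) (l 16116344)) (c (l 15970960) (l 15976096))) (c (b (l 16146384) (l 15973680)) (c (b (l 16188912) (l 15968928)) (b (c (l 16147608) (l 16184704)) (c (l 15821296) (l 15959960)))))))), by decide +kernel⟩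

def k22_pm_022 : ∃ t, chk3 f_pm_022 t 73 18 1 = true :=
  ⟨(b (b (a (b (l 1) (c (l 549252016375) (c (l 16519976) (c (l 16540440) (c (l 16540184) (l 709239487111)))))) (l 1)) (a (c (b (l 255583393751) (a (l 16330464) (l 16440616))) (c (b (l 16423792) (a (b (l 16421944) (l 16359128)) (l 16393664))) (c (b (l 291016844919) (a (l 16400000) (l 16396696))) (b (c (a (l 16485056) (l 16530536)) (c (a (l 16486456) (l 16510392)) (a (b (l 16519400) (l 16498656)) (b (l 16566528) (l 16476752))))) (c (l 16299904) (c (l 16386184) (a (l 16413144) (l 16406448)))))))) (c (l 367252481079) (c (l 483753442759) (c (l 545493577063) (b (c (l 16581488) (l 684543413175)) (c (l 16400768) (c (l 306049170519) (c (l 316249718583) (a (l 16415304) (l 16429432))))))))))) (c (b (a (c (b (a (l 16263544) (l 16309424)) (a (l 16140600) (b (l 16212184) (l 16151040)))) (b (a (l 16262144) (l 16284648)) (a (l 16145344) (l 16183608)))) (c (b (l 16397080) (l 16161432)) (b (l 16350208) (c (l 16221168) (l 16262912))))) (c (a (b (a (l 16027104) (l 16065032))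 (a (l 15921400) (l 15956296))) (b (c (b (l 16172048) (l 16112232)) (l 16142152)) (l 16029152))) (a (c (l 15918232) (l 16012848)) (b (l 16020944) (l 16039312))))) (c (b (a (b (a (l 16273840) (l 16226480)) (l 16183656)) (b (c (l 16348072) (l 16328592)) (c (l 16266160) (l 16274696)))) (c (l 15963136) (a (l 16039360) (l 16118736)))) (c (b (a (b (l 16306840) (l 16202000)) (b (l 16271608) (l 16284880))) (c (l 16022336) (l 16023120))) (b (c (a (l 16217344) (b (l 16339264) (l 16292696))) (c (a (l 16259312) (l 16222560)) (a (l 16175056) (b (l 16301488) (l 16293808))))) (c (l 15937992) (c (c (l 16082848) (l 16082312)) (a (l 15970144) (l 16082768))))))))), by decide +kernel⟩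

def k23_pm_022 : ∃ t, chk3 f_pm_022 t 74 18 1 = true :=
  ⟨(b (b (l 1) (c (c (l 2171675904279) (l 2129263097191)) (c (l 2218383663127) (c (l 2305893659959) (c (l 2350453943751) (c (l 2373002521095) (c (l 2353138251431) (l 2361728188871)))))))) (c (b (b (a (l 16406992) (l 16503088)) (a (c (l 16380816) (l 16333696)) (l 16389352))) (c (b (a (l 16125792) (l 16364760)) (a (c (b (l 16158640) (l 16099600)) (l 16128984)) (b (l 16268072) (l 16205520)))) (b (a (c (l 16227272) (l 16247896)) (l 16338352)) (a (l 16049448) (l 16087296))))) (c (b (b (l 16378776) (a (c (l 16352328) (l 16311704)) (l 16447032))) (c (b (a (l 16250952) (l 16356784)) (l 16066080)) (b (a (l 16259264) (l 16295024)) (l 16160272)))) (b (a (c (b (l 16401496) (a (l 16354160) (l 16361736))) (c (b (l 16361224) (l 16301040)) (b (c (a (l 16416312) (l 16472400)) (a (c (l 16416912) (l 175052637735)) (c (l 16472552) (l 331819047319)))) (c (l 16366168) (c (l 16387800) (l 16387664)))))) (c (l 292090430807) (c (b (l 16542040) (l 271689356695)) (c (b (l 16541816)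 (a (l 16398136) (l 16453680))) (b (l 16480256) (b (c (l 16458472) (l 322692224071)) (c (l 16394160) (a (l 16431392) (l 16441160))))))))) (c (b (a (l 16269208) (b (l 16348760) (l 16333504))) (l 16083632)) (c (b (a (l 16276840) (l 16242056)) (l 16215144)) (c (b (l 16176376) (l 16215008)) (b (c (l 16175960) (l 16238288)) (l 16130312))))))))), by decide +kernel⟩

def k24_pm_022 : ∃ t, chk3 f_pm_022 t 75 18 1 = true :=
  ⟨(b (l 1) (b (a (b (l 1) (c (l 16484368) (c (l 16524216) (c (l 16523144) (c (l 16522600) (c (l 16522336) (l 617971320503))))))) (l 1)) (c (b (a (l 16350928) (l 16444864)) (c (l 16258464) (l 158409321719))) (c (b (l 16362872) (a (c (l 16340488) (l 16278560)) (l 16411552))) (c (b (l 273299934967) (a (b (l 16310768) (l 16317248)) (l 16347352))) (b (c (a (a (l 16379072) (l 16455560)) (l 16503368)) (a (c (a (l 16359192) (l 16435168)) (b (c (l 16439880) (a (l 16411064) (l 16531272))) (c (l 16355224) (a (l 16413672) (l 295311742663))))) (c (l 16482080) (l 594348961991)))) (c (a (b (l 16335824) (l 16323616))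 (a (l 16340400) (l 16437304))) (a (c (l 16311184) (c (l 16353712) (l 16311336))) (a (c (l 146061513239) (c (l 149819615863) (b (c (l 16454760) (l 16434224)) (l 16396152)))) (c (l 16416856) (c (l 16395952) (b (l 16512648) (c (l 16445752) (l 16425224)))))))))))))), by decide +kernel⟩

def k25_pm_022 : ∃ t, chk3 f_pm_022 t 19 18 1 = true :=
  ⟨(a (a (a (a (b (l 1) (b (l 1) (c (l 186327072135) (c (l 16483384) (c (l 16461456) (c (l 16460976) (c (l 16460744) (b (l 1) (l 564821027159))))))))) (l 1)) (l 1)) (l 1)) (l 1)), by decide +kernel⟩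

def k26_pm_022 : ∃ t, chk3 f_pm_022 t 16 38 2 = true :=
  ⟨(a (a (b (c (b (l 14669160) (b (l 14574880) (b (c (b (l 14537264) (l 14528512)) (l 14513864)) (c (a (a (a (l 14446736) (l 14457112)) (l 14494176)) (l 14573264)) (l 14505384))))) (b (l 14654424) (b (l 14537008) (c (l 14491576) (l 14472000))))) (c (b (c (b (a (a (l 14474216) (b (l 14486256) (a (l 14480376) (l 14490704)))) (l 14558704)) (a (l 14510408) (a (b (l 14519728) (a (l 14513904) (l 14524168))) (l 14565672)))) (a (b (a (l 14454400) (b (l 14466536) (l 14467632))) (l 14490936)) (l 14513664))) (a (l 14559208) (b (a (c (l 14541216) (l 14522008)) (c (b (l 14553080) (a (l 14547312) (l 14557520))) (l 14536776))) (c (l 14577168) (l 14558304))))) (b (a (c (l 14440736) (l 14441880)) (l 14505720)) (c (l 14532008) (l 14512840))))) (b (c (b (l 14901960) (b (l 14785928) (l 14685568))) (b (l 14871072) (b (l 14752888) (l 14693384)))) (c (b (l 14696888) (b (l 14667784) (b (l 14653992) (c (b (l 14657408) (l 14633992)) (l 14638928))))) (c (l 14652944) (l 14636096)))))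 (a (b (c (b (l 15091824) (b (l 14996016) (c (l 14943104) (l 14930016)))) (b (c (l 15097400) (l 15097848)) (c (l 14949144) (b (l 14978368) (l 14918168))))) (c (c (l 14892728) (l 14879184)) (c (l 14868048) (l 14866400)))) (c (b (b (l 15311872) (b (l 15215320) (c (l 15157152) (l 15152208)))) (c (l 15106168) (l 15100760))) (b (c (b (l 15336832) (b (l 15217696) (l 15157632))) (a (b (l 15286840) (l 15136528)) (b (l 15348992) (b (l 15291536) (l 15167904))))) (c (l 15105720) (a (l 15054064) (l 15178264))))))), by decide +kernel⟩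

def k27_pm_022 : ∃ t, chk3 f_pm_022 t 16 39 2 = true :=
  ⟨(a (c (b (a (l 14670688) (a (a (l 14656512) (c (b (b (b (l 14619424) (l 14620600)) (l 14640824)) (l 14698144)) (l 14649848))) (b (c (b (l 14690512) (a (b (l 14652424) (l 14653616)) (l 14697504))) (l 14646856)) (c (b (a (l 14673784) (b (l 14685296) (l 14686512))) (l 14709264)) (l 14661192))))) (l 14813816)) (b (a (l 14634760) (b (a (l 14587936) (l 14642080)) (c (l 14666632) (l 14649944)))) (l 14781248))) (c (a (b (a (b (l 14775320) (b (l 14747160) (l 14713744))) (l 14861592)) (c (a (a (l 14796424) (a (l 14774040) (l 14777144))) (b (l 14795320) (a (l 14823280) (b (l 14819048) (l 14837464))))) (a (l 14783432) (b (l 14782424) (l 14796920))))) (b (l 14985176) (a (b (l 14913840) (l 14881992)) (l 15006384)))) (a (b (c (l 14792576) (l 14790240)) (b (a (l 14728944) (l 14793168)) (c (l 14807064) (l 14804888)))) (c (b (l 15026920) (l 14953640)) (a (l 14938496) (c (l 15069264) (l 15059760))))))), by decide +kernel⟩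

def k28_pm_022 : ∃ t, chk3 f_pm_022 t 34 19 4 = true :=
  ⟨(b (b (a (b (a (c (b (l 15517184) (l 15454800)) (a (l 15469832) (l 15518328))) (c (l 15549328) (l 15579128))) (a (b (l 15387464) (l 15327912)) (b (c (a (l 15458936) (l 15495312)) (l 15501712)) (a (l 15418672) (a (l 15442192) (l 15467016)))))) (c (b (l 15640888) (b (l 15575568) (l 15549848))) (a (b (l 15650040) (b (l 15578888) (l 15549584))) (c (b (l 15705776) (b (l 15638336) (l 15610624))) (b (l 15682736) (l 15575832)))))) (a (c (l 15331016) (l 15345376)) (c (a (b (a (l 15495040) (l 15546048)) (l 15494072)) (b (l 15602520) (b (l 15616472) (l 15612384)))) (a (b (a (l 15527840) (b (l 15576424) (l 15578856))) (l 15522912)) (b (c (l 15624960) (l 15595912)) (c (a (l 15614304) (l 15655464)) (a (l 15599872) (l 15610104)))))))) (c (a (l 15214952) (l 15464144)) (a (l 15228248) (a (l 15425056) (c (l 15546880) (l 15517496)))))), by decide +kernel⟩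

def k29_pm_022 : ∃ t, chk3 f_pm_022 t 34 19 5 = true :=
  ⟨(b (b (a (c (a (b (a (l 15495960) (l 15549432)) (l 15385720)) (b (c (l 15601888) (l 15583576)) (b (a (c (l 15505000) (l 15504048)) (l 15527624)) (a (l 15449856) (c (l 15510056) (l 15478512)))))) (a (b (c (a (l 15509104) (l 15533552)) (a (l 15466216) (l 15487384))) (c (b (l 15410304) (l 15349520)) (b (l 15371888) (l 15310824)))) (b (l 15533424) (a (b (c (l 15454984) (l 15427416)) (l 15390264)) (b (l 15462896) (l 15425368)))))) (c (c (a (b (l 15634880) (b (l 15561832) (l 15532328))) (b (l 15636488) (b (l 15563136) (l 15533480)))) (b (l 15605208) (b (l 15531672) (l 15501952)))) (l 15479464))) (a (c (a (l 15303192) (c (l 15431784) (l 15412720))) (c (a (l 15296792) (l 15369840)) (l 15305592))) (c (a (c (b (a (l 15528728) (l 15543496)) (l 15505504)) (b (a (l 15474760) (l 15494920)) (l 15459408))) (b (l 15539464) (c (a (l 15542336) (l 15562056)) (l 15531072)))) (b (a (l 15460584) (l 15518400)) (a (l 15434816) (l 15523472)))))) (c (a (a (l 15185368) (c (l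 15313504) (l 15293896))) (c (a (l 15406976) (l 15468640)) (a (l 15360432) (l 15446952)))) (a (c (a (l 15178168) (l 15250480)) (l 15186056)) (l 15387232)))), by decide +kernel⟩

def k30_pm_022 : ∃ t, chk3 f_pm_022 t 35 38 2 = true :=
  ⟨(c (b (c (a (a (c (b (l 15722432) (l 15646640)) (b (l 15738648) (b (l 15674416) (l 15650576)))) (c (b (a (l 15766136) (l 15778080)) (b (l 15704264) (a (l 15657200) (l 15668920)))) (b (l 15740648) (l 15664096)))) (c (a (b (l 15764216) (l 15687680)) (b (c (l 15750008) (l 15737648)) (b (c (l 15685296) (l 15651800)) (c (l 15640168) (l 15627576))))) (a (b (c (l 15727296) (l 15714816)) (b (l 15658880) (c (l 15617456) (l 15604744)))) (b (l 15737448) (l 15660144))))) (a (c (a (b (l 15716016) (b (l 15650896) (l 15625256))) (b (l 15700640) (b (l 15635784) (l 15611656)))) (a (b (l 15675384) (b (l 15607312) (l 15579304))) (l 15546336))) (b (l 15732864) (l 15655168)))) (c (a (a (c (l 15670680) (a (l 15675664) (l 15695624))) (c (l 15717480) (l 15687944))) (c (a (l 15712576) (c (l 15697824)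 (l 15685296))) (a (l 15671736) (l 15684840)))) (a (a (c (l 15651120) (l 15603616)) (c (l 15601520) (l 15626944))) (l 15676432)))) (b (b (c (l 15709624) (l 15710704)) (c (b (l 15640440) (l 15612696)) (l 15623008))) (c (l 15636176) (l 15632528)))), by decide +kernel⟩

def k31_pm_022 : ∃ t, chk3 f_pm_022 t 35 39 2 = true :=
  ⟨(c (a (c (b (a (b (a (l 15681760) (c (l 15723816) (l 15726608))) (l 15673808)) (b (c (l 15761392) (l 15727032)) (c (a (l 15763288) (l 15793568)) (l 15734872)))) (a (l 15616576) (l 15685672))) (b (a (a (c (l 15651104) (l 15590992)) (b (c (l 15675472) (l 15628072)) (l 15634376))) (b (l 15671032) (c (a (l 15674104) (l 15692968)) (l 15663296)))) (c (a (l 15586744) (l 15640656)) (l 15580944)))) (c (b (c (a (l 15772000) (l 15754680)) (a (l 15725944) (l 15744184))) (a (c (b (l 15797288) (l 15775656)) (b (a (l 15738312) (l 15756744)) (l 15724240))) (b (c (l 15798248) (l 15783016)) (c (a (l 15800712) (l 15817480)) (l 15791048))))) (b (l 15724896) (a (l 15711336) (l 15780120))))) (b (a (b (a (l 15590568)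 (l 15646816)) (a (l 15565744) (l 15652104))) (l 15717768)) (a (l 15557912) (b (a (l 15713064) (l 15767944)) (a (l 15689072) (l 15773472)))))), by decide +kernel⟩

def k32_pm_022 : ∃ t, chk3 f_pm_022 t 32 19 6 = true :=
  ⟨(b (b (b (c (l 14740672) (a (l 14609440) (c (l 14848680) (l 14844688)))) (a (b (l 14498872) (c (l 14452296) (l 14432776))) (c (l 14701560) (c (l 14697624) (b (l 14723488) (l 14662472)))))) (a (c (b (l 14456776) (l 14493536)) (b (l 14437304) (l 14474432))) (c (l 14622256) (a (l 14553072) (l 14670184))))) (c (a (l 14688080) (b (a (l 14597704) (l 14636848)) (l 14748864))) (a (l 14670856) (b (a (l 14586496) (b (l 14615232) (l 14630160))) (l 14742328))))), by decide +kernel⟩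

def k33_pm_022 : ∃ t, chk3 f_pm_022 t 32 19 7 = true :=
  ⟨(b (b (c (a (c (b (l 14597208) (b (l 14476224) (l 14419328))) (b (l 14551088) (b (l 14429536) (c (l 14414504) (a (l 14350952) (l 14466816)))))) (c (a (b (l 14778720) (b (l 14657168) (l 14595976))) (b (l 14899584) (b (l 14777648) (l 14716240)))) (c (b (l 14830320) (b (l 14708152) (l 14562752))) (b (l 14825232) (b (l 14703792) (l 14642208)))))) (c (c (a (b (a (l 14521328) (l 14577672)) (a (l 14376264) (l 14490232))) (b (l 14815280) (b (l 14691648) (l 14629952)))) (a (a (l 14446968) (l 14562544)) (l 14735712))) (a (a (a (c (l 14413008) (b (l 14480264) (l 14312664))) (l 14461656)) (l 14554152)) (l 14729280)))) (a (c (c (a (l 14424376) (l 14460056)) (a (c (l 14418696) (l 14408784)) (c (l 14459360) (b (l 14437952) (l 14451800))))) (a (c (l 14406336) (a (l 14390080) (l 14392120))) (c (a (c (l 14428536) (l 14424256)) (l 14457440)) (l 14434672)))) (c (a (c (l 14546976) (c (l 14545896) (l 14471152))) (c (l 14663648) (l 14645408))) (l 14575368)))) (c (a (c (l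 14599056) (c (l 14651192) (l 14651216))) (c (a (b (l 14580656) (l 14738640)) (b (b (l 14608328) (l 14623368)) (l 14737312))) (b (a (c (a (l 14575144) (l 14577952)) (l 14567320)) (c (l 14606552) (l 14597624))) (c (l 14722064) (l 14720112))))) (a (a (c (l 14647752) (l 14532680)) (c (l 14638496) (l 14631304))) (b (l 14580504) (l 14705776))))), by decide +kernel⟩

def k34_pm_022 : ∃ t, chk3 f_pm_022 t 33 19 3 = true :=
  ⟨(b (c (b (c (a (b (c (l 15099400) (l 15009120)) (c (l 14948760) (a (l 14885840) (l 15015760)))) (c (a (b (l 15291224) (l 15056000)) (b (l 15385984) (b (l 15264784) (l 15203656)))) (a (b (l 15268088) (b (l 15146712) (l 15085504))) (l 15280184)))) (a (c (a (b (l 15040616) (l 14888832)) (b (l 15147744) (b (l 15026176) (l 14964896)))) (b (l 15056160) (b (l 14955184) (l 14893736)))) (b (l 15292832) (l 15139512)))) (c (a (c (l 14866376) (l 14858920)) (c (a (l 15056856) (l 15150744)) (a (l 15032656) (l 15120376)))) (a (c (a (l 14805896) (l 14912128)) (l 14840920)) (l 15055360)))) (b (c (b (l 14937952)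 (b (l 15045400) (c (l 14987064) (l 14980144)))) (c (b (c (l 15161272) (a (l 15043128) (l 15266312))) (b (c (l 15036128) (l 14887672)) (c (l 14930672) (l 14970200)))) (l 15073800))) (c (c (l 14933752) (l 14908128)) (c (c (l 14915936) (l 14916352)) (l 14910512))))) (c (c (a (b (a (l 14726096) (l 14731440)) (a (l 14759456) (c (l 14814776) (l 14814880)))) (a (c (l 14919536) (a (l 14893440) (l 14925416))) (c (l 15031784) (l 15000872)))) (a (b (c (a (l 14729576) (l 14832112)) (a (l 14712464) (l 14805464))) (a (c (l 14763192) (l 14746256)) (c (b (l 14778912) (l 14793976)) (l 14766896)))) (l 14874120))) (c (c (b (l 14854344) (a (b (l 14722048) (l 14761736)) (l 14887200))) (b (c (l 14850864) (l 14841752)) (a (c (b (l 14714944) (l 14749888)) (l 14739040)) (c (l 14881880) (l 14873408))))) (b (a (l 14722392) (c (c (l 14946664) (l 14945928)) (l 14940192))) (a (l 14728320) (l 14867320)))))), by decide +kernel⟩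

def k35_pm_022 : ∃ t, chk3 f_pm_022 t 34 19 3 = true :=
  ⟨(b (c (b (a (b (a (c (l 15452208) (l 15441360)) (l 15506984)) (b (c (l 15366552) (l 15376080)) (c (l 15335536) (l 15323624)))) (b (l 15572496) (c (l 15487584) (l 15477032)))) (a (c (l 15285320) (l 15272960)) (c (b (l 15434480) (l 15466040)) (b (l 15423856) (l 15392424))))) (b (c (c (a (b (l 15460976) (b (l 15367456) (l 15314648))) (l 15346696)) (b (a (l 15413680) (l 15555312)) (a (b (l 15361688) (l 15308640)) (l 15463744)))) (b (a (c (c (l 15451584) (a (l 15397520) (l 15480960))) (l 15444840)) (c (c (l 15551600) (l 15549304)) (l 15545384))) (c (c (a (b (l 15358432) (l 15305608)) (l 15459728)) (a (c (b (l 15354136) (l 15300264)) (l 15324264)) (b (l 15471464) (l 15439528)))) (a (l 15320544) (l 15453016))))) (c (a (l 15260536) (c (b (l 15457776) (l 15447264)) (b (l 15452408) (l 15441856)))) (a (c (c (l 15252224) (l 15229448)) (l 15244872)) (c (c (b (l 15449904) (l 15438840)) (c (b (l 15445120) (l 15433888)) (l 15413376))) (l 15347048)))))) (c (c (l 15271120)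 (l 15195744)) (c (c (l 15249256) (c (l 15248608) (l 15137464))) (c (c (b (l 15274376) (a (l 15089704) (l 15301080))) (l 15235056)) (l 15230296))))), by decide +kernel⟩

def k36_pm_022 : ∃ t, chk3 f_pm_022 t 35 19 3 = true :=
  ⟨(b (c (b (b (l 15701000) (c (l 15614416) (l 15604944))) (c (l 15623248) (l 15613904))) (b (c (b (l 15687928) (b (l 15611000) (l 15579816))) (c (b (c (l 15682432) (l 15681760)) (b (c (l 15605088) (l 15604184)) (c (l 15573736) (a (l 15528832) (l 15615056))))) (c (b (l 15668944) (b (l 15588752) (a (l 15525912) (c (l 15610376) (l 15610824))))) (l 15628864)))) (c (l 15604488) (c (c (l 15600056) (a (l 15539768) (l 15638568))) (a (l 15549848) (l 15621040)))))) (c (b (a (c (b (l 15602176) (l 15592344)) (b (l 15592704) (l 15582800))) (l 15700760)) (a (c (l 15543112) (l 15533128)) (c (b (l 15725720) (l 15716440)) (b (l 15717392) (l 15708040))))) (b (c (a (c (b (l 15585560) (l 15575600)) (b (l 15580768) (l 15570776))) (l 15687864)) (a (c (c (b (l 15578544) (l 15566720)) (b (a (l 15545368) (l 15603120))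 (l 15564720))) (l 15560856)) (c (c (l 15684368) (l 15663928)) (l 15676992)))) (a (c (c (l 15525592) (l 15523536)) (c (c (l 15512944) (l 15514208)) (l 15510392))) (c (c (b (l 15711112) (l 15701704)) (b (l 15706904) (l 15698688))) (c (c (b (l 15703888) (l 15692160)) (b (a (l 15675616) (l 15729944)) (l 15692136))) (l 15688528))))))), by decide +kernel⟩

def k37_pm_022 : ∃ t, chk3 f_pm_022 t 18 19 2 = true :=
  ⟨(b (a (b (a (c (b (l 15785040) (b (l 15718992) (l 15694368))) (b (l 15812504) (b (l 15744336) (l 15717696)))) (c (b (a (a (l 15823456) (l 15855208)) (l 15923568)) (b (a (l 15769584) (l 15848296)) (a (l 15744248) (l 15819904)))) (b (l 15756248) (b (l 15834136) (l 15808664))))) (c (a (l 15731000) (a (l 15780576) (l 15853992))) (a (l 15747168) (c (l 15838216) (l 15848992))))) (b (a (c (b (a (l 16017576) (c (b (l 16145472) (l 16087224)) (l 16116064))) (b (c (l 15984176) (l 15986096)) (c (l 15950352) (l 15954240)))) (b (a (l 16027336) (l 16057224)) (b (l 15997808) (l 15968544)))) (b (c (a (b (l 16253456) (l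 16191720)) (l 16333264)) (a (l 16114760) (l 16327336))) (c (b (a (c (l 16132552) (l 16130848)) (l 16239072)) (a (c (l 16093840) (l 16093616)) (c (l 16198056) (l 16195088)))) (b (a (l 16132424) (l 16234024)) (a (l 16097656) (l 16194264)))))) (c (a (c (l 15911072) (l 15982944)) (b (a (l 16100512) (c (l 16197304) (l 16196920))) (a (l 16114776) (l 16205480)))) (a (l 16002136) (c (a (l 16117664) (l 16207728)) (l 16177048)))))) (a (c (a (b (l 15788664) (l 15841120)) (b (l 15876984) (l 15934160))) (a (b (l 15794760) (l 15837288)) (c (l 15897328) (l 15919704)))) (c (a (l 15996952) (b (l 16128768) (l 16241480))) (b (a (l 16058320) (l 16217160)) (l 16001440))))), by decide +kernel⟩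

def k38_pm_022 : ∃ t, chk3 f_pm_022 t 19 19 2 = true :=
  ⟨(b (a (b (a (b (a (l 194379887671) (l 393559221543)) (b (c (l 16320520) (l 16357488)) (c (a (l 16305656) (l 16351808)) (a (l 16299400) (l 16409952))))) (b (l 1) (b (l 1) (c (l 310344264167) (l 16452776))))) (a (c (b (a (l 16300904) (l 16408344)) (a (l 16301664) (l 16403576))) (b (a (l 16298960) (l 16403896)) (a (l 16307600) (l 16403536)))) (c (l 16442384) (l 199211953527)))) (a (a (b (l 1) (l 309270489255)) (l 1)) (l 1))) (a (b (a (c (b (a (l 16309416) (l 16404480)) (l 16308400)) (a (l 16336784) (l 16360592))) (a (c (b (l 16505192) (l 16485272)) (b (l 16486088) (l 16494848))) (c (l 16544888) (l 16526416)))) (c (a (l 16357424) (a (l 16482520) (l 16528112))) (a (l 16407072) (c (l 16478296) (l 16533976))))) (a (b (a (c (l 16483592) (l 16480616)) (c (l 16368784) (l 16406048))) (a (c (a (l 16513624) (l 16482864)) (c (l 16479440) (l 16469248))) (c (b (l 16423024) (l 16427208)) (b (l 16418088) (l 16416688))))) (b (c (l 325376072503) (l 16239448)) (c (l 224444376663)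 (l 16155152)))))), by decide +kernel⟩

def k39_pm_022 : ∃ t, chk3 f_pm_022 t 18 76 3 = true :=
  ⟨(b (c (a (a (l 15822888) (c (l 15923768) (l 15930568))) (a (l 15904848) (a (c (l 16221256) (l 16229104)) (c (l 16324400) (l 16262312))))) (a (c (a (l 15814672) (l 15928424)) (c (a (l 15808888) (l 15923376)) (a (c (l 15803040) (l 15797152)) (c (c (l 15921264) (l 15921192)) (l 15808832))))) (c (a (l 16087040) (a (l 16238584) (b (l 16272984) (l 16301224)))) (c (a (l 16108720) (a (l 16245848) (b (l 16297896) (l 16307416)))) (c (a (l 16106800) (a (l 16246280) (l 16273528))) (a (l 16040584) (c (a (l 16248056) (l 16337000)) (l 16142416)))))))) (b (c (a (a (l 15748448) (l 15790304)) (a (l 16019280) (a (l 16146224) (l 16216184)))) (c (a (a (l 15736848) (l 15849992)) (a (l 16032168) (l 16121920))) (a (c (a (l 15730560) (l 15844440)) (a (l 15634536) (c (c (l 15842112) (l 15841432)) (l 15833072)))) (c (a (l 16029080) (l 16212008)) (c (a (l 16026896) (l 16212048)) (a (l 16021464) (l 16106632))))))) (c (a (a (l 15717816) (c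 (l 15825432) (l 15825296))) (a (l 15992792) (c (l 16156664) (l 16165664)))) (c (a (a (l 15705160) (l 15817968)) (a (l 16000760) (c (l 16173688) (l 16179144)))) (c (a (a (l 15698664) (c (l 15813176) (l 15811248))) (a (l 15996520) (l 16075360))) (c (c (a (a (l 15696488) (l 15809800)) (l 15940488)) (a (a (b (l 15642368) (l 15686536)) (b (b (l 15808704) (l 15806032)) (l 15809440))) (a (l 15868720) (l 16178560)))) (a (a (l 15693224) (a (l 15762832) (b (l 15760168) (l 15852976)))) (b (b (a (l 15945976) (c (l 16095552) (l 16174800))) (a (l 15985112) (l 16132656))) (a (l 15988456) (l 16135792)))))))))), by decide +kernel⟩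

def k40_pm_022 : ∃ t, chk3 f_pm_022 t 19 76 3 = true :=
  ⟨(a (a (c (b (l 16326808) (b (l 209412101319) (a (c (l 16296592) (l 16298048)) (l 16405336)))) (a (c (b (l 16308736) (b (a (l 16314328) (l 16363808)) (a (l 16281576) (l 16326168)))) (c (b (a (l 138545283447) (l 16419264)) (b (l 16239208) (l 16290464))) (b (c (b (l 16403248) (a (l 16376984) (l 16427576))) (c (a (b (l 16436696) (l 16378048)) (l 272226250359)) (b (a (c (l 16436800) (l 16395296)) (l 16473256)) (a (l 16378832) (c (l 16427904) (l 16365424)))))) (b (c (l 16325280) (c (l 16347016) (l 16305032))) (c (l 16293568) (b (b (c (l 16314720) (l 16314688)) (l 16294016)) (l 16297104))))))) (c (b (l 16466376) (b (l 16448584) (a (l 16312384) (l 16430256)))) (c (b (l 16465528) (b (l 16405856) (b (a (l 16376664) (l 16430904)) (l 16361560)))) (b (c (l 16465112) (c (l 16443928) (l 16423464))) (b (c (l 16364336) (c (l 263636299319) (a (c (l 16419056) (l 278668664055)) (l 16455048)))) (b (c (a (l 16378680) (l 16430456)) (c (a (l 16379832) (l 16430640)) (c (a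 (l 16380240) (l 16388688)) (b (a (l 16381704) (l 16412464)) (l 280816090103))))) (c (l 16342032) (c (l 16384696) (a (l 16384312) (c (l 16428744) (l 16429208)))))))))))) (b (l 1) (b (l 1) (c (l 16451568) (c (l 16429368) (b (l 1) (c (l 16468032) (c (l 16467712) (c (l 404296665255) (l 406444132487)))))))))) (l 1)), by decide +kernel⟩

def k41_pm_022 : ∃ t, chk3 f_pm_022 t 18 77 3 = true :=
  ⟨(c (a (a (l 15741744) (c (l 15852664) (l 15849032))) (c (a (l 16021232) (l 16185136)) (a (l 16026440) (l 16173688)))) (c (a (a (l 15729240) (l 15841648)) (c (l 16030184) (l 16009120))) (c (a (a (c (l 15723992) (l 15723536)) (l 15836072)) (c (l 16112864) (l 16048728))) (c (a (a (l 15708768) (c (l 15834800) (a (l 15781192) (l 15869072)))) (a (c (l 16018872) (l 15950792)) (c (l 16202248) (b (l 16191888) (l 16212304))))) (a (l 15774840) (a (l 15988008) (c (l 16135640) (l 16195720)))))))), by decide +kernel⟩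

def k42_pm_022 : ∃ t, chk3 f_pm_022 t 19 77 3 = true :=
  ⟨(a (c (a (a (c (l 16312624) (l 16323600)) (b (c (l 16402064) (l 16403568)) (l 16329656))) (b (l 16443264) (a (c (l 16506880) (l 16467392)) (l 16594776)))) (c (a (b (a (l 16320000) (a (l 16384992) (l 16368320))) (a (l 16345224) (l 16427736))) (b (a (l 376916240967) (l 16580632)) (a (c (l 16470904) (l 16475360)) (l 16532976)))) (c (a (b (a (l 16327656) (b (l 16324752) (l 16418632))) (l 16350328)) (b (a (b (l 16490264) (l 238403552951)) (l 16559392)) (a (a (l 16499312) (l 16500808)) (a (l 16528296) (l 16577560))))) (a (c (a (l 16338328) (b (l 16332184) (l 16437104))) (b (a (l 16286488) (a (l 16376936) (c (l 16438984) (l 16417960)))) (l 16286488))) (c (b (a (b (l 16448960) (a (l 16486816) (l 16536312))) (l 16559248)) (a (l 16460896) (b (l 16555624) (l 264173562935)))) (c (b (a (b (l 415034088263) (a (l 16488048) (l 16536720))) (l 16559176)) (a (a (l 16503424) (l 16546664)) (b (l 421476751591) (l 278132208951)))) (b (a (b (a (c (l 16483160) (l 434898274887))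 (l 16539576)) (a (l 16488824) (c (l 16536920) (l 16495448)))) (l 413423657623)) (a (l 16461000) (b (a (c (l 16569440) (l 16548968)) (l 16554336)) (a (l 16575096) (b (l 16534848) (l 16533112)))))))))))) (a (a (c (l 16460664) (c (l 16437528) (c (l 16436424) (c (l 407517849383) (c (l 585759029943) (l 577706013591)))))) (l 1)) (l 1))), by decide +kernel⟩

def k43_pm_022 : ∃ t, chk3 f_pm_022 t 18 39 3 = true :=
  ⟨(c (a (c (l 15693472) (a (l 15798528) (l 15909056))) (c (l 15986576) (a (l 16089176) (l 16224312)))) (a (c (c (l 15764776) (a (l 15788888) (l 15900608))) (c (c (a (l 15789216) (l 15900584)) (a (b (l 15710072) (l 15786264)) (b (l 15876880) (c (l 15917504) (l 15913984))))) (b (a (l 15745488) (a (l 15752376) (l 15883640))) (l 15858280)))) (c (c (l 16113432) (l 16048328)) (c (c (l 16109600) (b (l 16089384) (a (l 16099904) (l 16283584)))) (c (b (a (l 15965936) (c (l 16243136) (l 16175264))) (a (l 16084568) (l 16187776))) (a (l 16076856) (l 16173352))))))), by decide +kernel⟩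

def k44_pm_022 : ∃ t, chk3 f_pm_022 t 19 39 6 = true :=
  ⟨(a (b (a (c (l 16398888) (l 16368184)) (a (c (l 16481512) (l 16473232)) (b (l 16529528) (l 16509976)))) (c (l 16339720) (a (l 16439768) (l 16494880)))) (a (b (a (b (l 16495840) (l 16433168)) (l 16338032)) (a (c (l 16454928) (l 16456680)) (b (a (l 16432472) (l 16384896)) (l 16330512)))) (b (l 374231270839) (b (l 16248216) (a (l 16297896) (l 16233048)))))), by decide +kernel⟩

def k45_pm_022 : ∃ t, chk3 f_pm_022 t 38 39 7 = true :=
  ⟨(c (b (a (l 16294800) (a (l 16441280) (b (a (l 16576968) (l 16533808)) (l 16550088)))) (a (l 16399672) (l 16436504))) (c (a (c (l 16400272) (l 16357928)) (b (a (l 16490872) (c (l 16492136) (l 16489648))) (l 16473408))) (b (a (c (c (l 16421568) (l 16296680)) (l 16311592)) (c (b (a (l 16544824) (l 16522496)) (l 16466120)) (b (a (l 16482088) (c (a (l 16610584) (l 16582648)) (l 16542480))) (l 16480952)))) (c (a (a (l 16368856) (l 16419176)) (b (l 16441048) (l 16416328))) (a (l 16388832) (l 16436520)))))), by decide +kernel⟩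

def k46_pm_022 : ∃ t, chk3 f_pm_022 t 39 39 7 = true :=
  ⟨(c (a (b (a (b (l 16449688) (b (l 16447568) (l 16478960))) (b (l 16393128) (l 16337640))) (a (l 16378072) (b (a (l 16414544) (l 16373368)) (l 16367544)))) (b (l 401074807895) (b (l 404832929367) (a (l 16239912) (l 16224928))))) (a (c (b (a (b (a (l 16496352) (l 16482016)) (b (l 16459984) (l 16488088))) (b (l 16391296) (a (l 16401760) (l 16371944)))) (a (l 16428976) (b (a (l 16402104) (l 16363872)) (l 16353072)))) (b (a (c (b (b (l 16467128) (l 269005166855)) (l 16448352)) (b (c (b (l 16445392) (l 16421176)) (b (a (c (l 16538744) (l 16517120)) (l 16478856)) (a (l 16530064) (l 444025076487)))) (c (l 16404976) (l 16447128)))) (c (b (l 16390376) (a (l 16377656) (l 16369480))) (b (a (l 435435003863) (l 1)) (c (a (l 16376096) (l 16368480)) (a (b (l 446172443895) (l 16414032)) (b (l 16367920) (l 448856688375))))))) (a (c (l 16380608) (l 16406784)) (c (b (l 16356968) (l 16349720)) (b (c (a (l 16392360) (l 16356600)) (l 16355520)) (l 16349200)))))) (c (b (l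 415033448583) (b (a (l 410738699591) (l 16213200)) (a (l 16271440) (l 415570364183)))) (b (b (l 1) (c (l 16206888) (l 437045137191))) (c (b (a (b (l 16304152) (l 16281360)) (l 16211672)) (a (l 16287288) (b (l 16217872) (l 16216368)))) (b (a (c (a (l 16322232) (l 16281352)) (b (a (l 16303856) (l 16280568)) (a (l 16318336) (l 16281456)))) (l 451540681319)) (a (c (l 16285840) (l 16285680)) (c (b (l 16216608) (l 16214464)) (b (l 460130638871) (l 309269905799)))))))))), by decide +kernel⟩

def k47_pm_022 : ∃ t, chk3 f_pm_022 t 5 9 1 = true :=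
  ⟨(b (l 1) (a (b (l 1) (b (l 1) (b (l 1) (a (a (a (c (l 353293045495) (c (l 16090056) (c (l 16082232) (c (l 16078280) (c (l 16076288) (l 455835268183)))))) (l 1)) (l 1)) (l 1))))) (l 1))), by decide +kernel⟩

def k48_pm_022 : ∃ t, chk3 f_pm_022 t 3 9 1 = true :=
  ⟨(l 1), by decide +kernel⟩

def k49_pm_022 : ∃ t, chk3 f_pm_022 t 16 20 2 = true :=
  ⟨(b (c (a (l 14833272) (b (a (l 14933824) (a (c (l 14934776) (l 14927264)) (b (l 14956776) (l 14929408)))) (l 14976776))) (a (c (l 15021592) (l 15007944)) (a (c (l 14993104) (l 14992768)) (c (b (a (l 14922456) (b (l 14961720) (l 14976512))) (l 15076496)) (a (l 15009928) (b (b (l 14971224) (l 14986176)) (l 15091352))))))) (b (c (a (l 15247616) (l 15212712)) (a (l 15223896) (c (l 15211336) (a (l 15203568) (l 15207496))))) (c (c (a (b (l 15322032) (l 15307968)) (l 15288336)) (a (b (l 15310672) (l 15296512)) (l 15240696))) (a (b (b (l 15292712) (l 15297360)) (a (l 15279192) (l 15285624))) (a (c (l 15276360) (l 15278944)) (c (l 15285960) (c (l 15297752) (l 15214656)))))))),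 by decide +kernel⟩

def k50_pm_022 : ∃ t, chk3 f_pm_022 t 17 40 2 = true :=
  ⟨(a (c (c (a (b (a (l 15049792) (l 15161272)) (a (l 15082208) (b (l 15113440) (l 15127920)))) (b (l 15353104) (l 15285376))) (a (b (l 15119976) (a (l 15086880) (l 15147648))) (a (a (l 15249976) (l 15310976)) (c (l 15399352) (l 15369280))))) (a (c (b (a (l 15077256) (l 15186312)) (a (l 15110344) (b (l 15137584) (c (l 15168040) (l 15147776))))) (b (a (c (l 15069312) (l 15029336)) (l 15128904)) (a (c (l 15102648) (l 15062848)) (b (l 15079728) (l 15094664))))) (c (a (c (l 15239904) (l 15087832)) (l 15311280)) (l 15238536)))) (c (c (a (a (l 15507472) (a (l 15583808) (l 15618400))) (c (a (l 15684408) (l 15733336)) (l 15529040))) (a (c (a (l 15476872) (l 15530064)) (l 15449224)) (l 15658536))) (c (l 15551208) (l 15541248)))), by decide +kernel⟩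

def k51_pm_022 : ∃ t, chk3 f_pm_022 t 17 41 2 = true :=
  ⟨(a (c (b (a (l 15220632) (a (c (l 15237280) (l 15263784)) (c (l 15302072) (b (c (l 15309480) (l 15278976)) (c (l 15310664) (l 15280176)))))) (c (b (l 15305640) (l 15307424)) (a (l 15301368) (b (b (l 15319600) (l 15327952)) (l 15325936))))) (b (a (c (l 15232792) (c (l 15215240) (l 15182720))) (c (a (c (l 15244608) (l 15197328)) (b (l 15220336) (l 15221552))) (l 15195872))) (c (a (b (b (l 15305072) (l 15313240)) (l 15310888)) (c (a (l 15316440) (l 15269624)) (b (l 15259768) (l 15261936)))) (a (c (a (l 15308688) (l 15269648)) (l 15135360)) (l 15240656))))) (b (c (a (c (a (a (l 15368856) (l 15421744)) (l 15480048)) (a (c (l 15362248) (l 15310624)) (l 15404272))) (c (c (a (l 15567760) (l 15616488)) (l 15558424)) (l 15540280))) (c (l 15433216) (l 15422152))) (b (c (a (c (a (b (l 15360272) (l 15335568)) (b (l 15421576) (l 15383584))) (a (c (l 15329776) (b (l 15276840) (l 15273088))) (b (l 15345240) (l 15306888)))) (c (c (a (l 15488112) (l 15537224)) (l 15373704))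 (l 15459848))) (a (b (l 15283592) (l 15263448)) (l 15443552))) (c (a (c (a (l 15354400) (c (l 15374616) (l 15333896))) (a (l 15307128) (l 15272400))) (c (a (c (l 15391504) (l 15338240)) (l 15428560)) (l 15360744))) (a (l 15242360) (l 15343040)))))), by decide +kernel⟩

def k52_pm_022 : ∃ t, chk3 f_pm_022 t 8 20 6 = true :=
  ⟨(a (b (a (c (l 14996320) (c (l 14990712) (a (l 14991208) (l 14985192)))) (c (a (l 14840808) (b (a (c (l 14937152) (l 14912432)) (c (a (l 14942080) (l 14946784)) (l 14925648))) (c (l 15072504) (l 15053824)))) (a (c (l 14755064) (l 14889248)) (b (b (l 14878440) (l 14914888)) (l 15025696))))) (c (a (b (l 15208408) (b (b (l 15278320) (l 15283072)) (l 15202400))) (b (a (l 15200536) (c (l 15208320) (l 15190320))) (a (b (b (l 15272192) (l 15279968)) (l 15276928)) (b (b (c (l 15280848) (l 15263216)) (l 15278208)) (l 15275536))))) (b (a (c (l 15207664) (a (l 15197904) (l 15194424))) (a (c (l 15200280) (l 15187472)) (l 15168192))) (a (b (b (c (l 15277744) (c (l 15271528) (l 15269000))) (a (l 15272832)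 (l 15231056))) (a (c (l 15252480) (l 15247592)) (c (l 15275048) (l 15268848)))) (c (a (b (b (l 15272488) (l 15280336)) (l 15279608)) (l 15244720)) (b (b (a (l 15256904) (l 15234728)) (l 15254136)) (l 15249528))))))) (b (a (c (b (l 15158000) (a (l 15060776) (l 15190304))) (b (l 15144504) (a (l 14920576) (l 15177096)))) (c (l 15531224) (l 15458208))) (b (a (c (a (l 15161704) (l 15182704)) (a (l 15151104) (b (l 15149912) (l 15171344)))) (c (l 15411008) (l 15399792))) (a (c (b (l 15233160) (l 15235192)) (b (b (l 15219720) (l 15228824)) (l 15226592))) (b (b (c (l 15358648) (l 15221112)) (c (l 15327216) (l 15315224))) (a (c (l 15223192) (l 15211768)) (l 15151344))))))), by decide +kernel⟩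

def k53_pm_022 : ∃ t, chk3 f_pm_022 t 8 20 7 = true :=
  ⟨(a (b (a (c (c (a (l 14868680) (a (c (l 14978688) (l 14972520)) (c (l 14980832) (l 14966640)))) (a (l 14977192) (l 14963520))) (a (a (c (l 14973800) (l 14965192)) (l 14953824)) (l 14949696))) (c (c (b (a (l 14873296) (b (l 14869112) (l 14905688))) (l 15019120)) (b (c (a (l 14863648) (l 14821224)) (l 14879440)) (l 15015608))) (b (l 14806624) (l 15004720)))) (a (a (c (b (l 15196384) (b (l 15267048) (l 15242232))) (b (a (l 15186368) (l 15172456)) (a (c (l 15237648) (b (l 15253360) (l 15215624))) (c (l 15253896) (l 15249792))))) (c (b (c (l 15185536) (l 15180824)) (c (l 15198768) (l 15257376))) (l 15208440))) (b (c (c (l 15153848) (l 15154496)) (l 15144648)) (l 15230560)))) (b (a (c (c (b (l 15137216) (a (b (l 15011256) (l 15045368)) (l 15170480))) (b (c (l 15128752) (l 15120752)) (c (a (l 15026968) (l 15158576)) (a (l 15026512) (l 15158776))))) (b (l 15117224) (a (l 15017400) (l 15150384)))) (c (c (l 15515944) (c (l 15470832) (l 15294320))) (c (c (c (l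 15501200) (l 15503928)) (l 15502000)) (l 15498144)))) (b (a (c (c (a (l 15134224) (b (l 15140536) (l 15159384))) (l 15148272)) (l 15138184)) (c (c (l 15205424) (c (l 15383600) (l 15384248))) (l 15377120))) (c (a (c (c (b (l 15189472) (l 15212080)) (l 15210632)) (l 15205840)) (b (c (b (a (l 15242224) (l 15432344)) (l 15221560)) (l 15320848)) (c (a (l 15197064) (l 15303088)) (l 15255256)))) (a (l 15196216) (a (l 15211784) (l 15341936))))))), by decide +kernel⟩

def k54_pm_022 : ∃ t, chk3 f_pm_022 t 16 21 1 = true :=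
  ⟨(b (c (a (c (b (a (l 15217912) (b (l 15298632) (l 15269520))) (l 15132456)) (b (a (l 15193456) (b (l 15276440) (l 15246832))) (l 15106936))) (c (b (l 15279880) (a (b (l 15267888) (l 15237928)) (l 15263608))) (a (b (l 15271536) (a (l 15226920) (l 15252664))) (c (l 15274168) (l 15272552))))) (a (c (c (b (a (l 15178936) (l 15245912)) (l 14903832)) (c (b (a (l 15161816) (l 15200112)) (l 15081880)) (a (l 15087744) (b (l 15242184) (l 15143440))))) (a (c (l 15081280) (a (l 14973624) (l 15090800))) (c (a (c (l 15168296) (l 15037592)) (b (l 15250400) (l 15166496))) (l 15159072)))) (c (c (a (b (l 15269416) (c (l 15241160) (a (l 15233632) (l 15270224)))) (c (l 15274000) (l 15253960))) (a (c (b (l 15270280) (a (l 15233304) (l 15246488))) (b (l 15252832) (l 15221816))) (c (l 15232168) (l 15219104)))) (b (l 15223808) (l 15197088))))) (c (c (a (l 14923376) (b (a (l 15152648) (a (l 15219712) (l 15243744))) (l 15074384))) (a (c (l 14900800) (l 14889888)) (a (c (l 15068584) (l 15069400)) (b (c (l 15232048) (a (l 15231904)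 (l 15266272))) (c (l 15133912) (l 15131112)))))) (a (c (c (c (l 14874200) (l 14863320)) (l 14863896)) (a (c (l 14786872) (a (l 14738088) (l 14794176))) (c (c (l 14914248) (l 14908368)) (l 14894432)))) (c (c (a (c (l 15071720) (a (l 15031968) (l 15109256))) (b (c (a (l 15236384) (l 15239792)) (a (l 15213824) (l 15211432))) (c (l 15133344) (l 15111416)))) (a (a (l 15031688) (l 15087824)) (b (b (l 15202376) (l 15175664)) (l 15086120)))) (b (a (l 15094824) (l 15168000)) (l 15007248)))))), by decide +kernel⟩

def k55_pm_022 : ∃ t, chk3 f_pm_022 t 17 21 1 = true :=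
  ⟨(c (a (a (c (b (l 15286528) (b (l 15265840) (b (l 15248864) (l 15217152)))) (c (b (l 15299952) (b (l 15279168) (a (l 15238512) (l 15265072)))) (b (c (l 15283040) (l 15250952)) (b (l 15250872) (a (c (l 15232088) (l 15193144)) (l 15208912)))))) (c (c (l 15301272) (b (l 15316224) (l 15289264))) (c (c (a (l 15295760) (l 15250240)) (l 15220088)) (l 15220704)))) (c (a (c (b (c (l 15328136) (l 15327760)) (c (l 15324528) (l 15303152))) (c (a (l 15303560) (l 15253472)) (b (l 15254240) (l 15229560)))) (b (a (c (c (l 15321816) (b (l 15274264) (l 15259968))) (l 15242784)) (b (c (c (b (l 15335784) (l 15276776)) (l 15290608)) (l 15281256)) (l 15242592))) (c (c (a (l 15295304) (l 15244328)) (l 15234568)) (l 15214280)))) (b (b (a (l 15231416) (b (l 15266704) (l 15225136))) (l 15217560)) (l 15198768)))) (b (c (c (a (l 15224968) (b (a (l 15212176) (l 15234896)) (l 15198176))) (b (a (l 15218008) (a (l 15202936) (b (l 15235904) (l 15195512)))) (c (l 15202248) (l 15189288)))) (a (l 15193288) (c (c (b (a (l 15184952) (l 15208360))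 (l 15171936)) (l 15190784)) (l 15097064)))) (c (c (b (l 15199024) (a (a (l 15109720) (l 15185072)) (l 15173416))) (b (c (l 15185792) (l 15175056)) (a (a (l 15158560) (l 15165016)) (l 15152696)))) (b (l 15163112) (a (l 15141464) (l 15137824)))))), by decide +kernel⟩

def k56_pm_022 : ∃ t, chk3 f_pm_022 t 18 20 2 = true :=
  ⟨(b (a (a (b (c (a (b (l 15846888) (l 15825016)) (b (l 15896944) (l 15905184))) (b (a (l 15833336) (l 15886856)) (a (l 15810168) (l 15892632)))) (c (l 15818368) (l 15803424))) (b (c (l 15986224) (l 15984768)) (a (b (c (l 15969872) (l 15958536)) (l 15837520)) (c (b (l 16063656) (l 16071976)) (l 15994328))))) (c (b (l 16138496) (l 16107392)) (b (l 16092744) (l 16157064)))) (a (b (c (a (l 15736928) (l 15954952)) (a (l 15720432) (l 15942432))) (c (a (b (l 15657672) (l 15556528)) (b (l 15876512) (l 15775648))) (b (a (l 15639664) (l 15799568)) (l 15585744)))) (b (a (c (b (a (l 16173808) (l 16271464)) (l 16100496)) (b (l 16152152) (l 16114624))) (c (l 16377992) (l 16404848))) (b (a (c (l 16160016)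 (l 16109384)) (c (a (l 16251928) (l 16432216)) (a (l 16226864) (l 16432432)))) (a (l 15949288) (a (l 16246600) (c (l 16353960) (l 16371576)))))))), by decide +kernel⟩

def k57_pm_022 : ∃ t, chk3 f_pm_022 t 18 40 3 = true :=
  ⟨(c (a (a (b (c (b (l 15847048) (l 15838304)) (b (l 15839848) (l 15831040))) (l 15578440)) (b (l 15909840) (c (a (l 15935488) (l 16049344)) (a (l 15908160) (l 16044024))))) (c (l 16199608) (l 16154200))) (c (a (a (c (b (b (l 15834416) (l 15825560)) (l 15778512)) (b (b (l 15831104) (l 15782560)) (l 15775760))) (b (l 15963640) (c (a (l 15924336) (l 16040008)) (b (l 15860000) (a (l 15914328) (l 16045392)))))) (c (l 16214504) (l 16088776))) (b (a (a (c (c (b (l 15826592) (l 15815800)) (l 15816712)) (l 15813928)) (c (c (l 15960024) (l 15854352)) (l 15955968))) (c (c (l 16214032) (a (l 16061640) (l 16186968))) (l 15962560))) (a (a (c (c (l 15767976) (l 15769752)) (l 15766816)) (c (c (b (l 15873616) (l 15864496)) (l 15907800)) (l 15905552))) (c (c (l 16190608) (l 16048544)) (l 16271600)))))),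 by decide +kernel⟩

def k58_pm_022 : ∃ t, chk3 f_pm_022 t 18 41 3 = true :=
  ⟨(b (a (c (c (l 15758136) (l 15645848)) (c (c (l 15766864) (c (l 15681280) (l 15590184))) (l 15798600))) (c (a (c (a (l 16142120) (l 16259928)) (b (l 16184560) (l 16146680))) (c (l 16401776) (l 16399712))) (a (c (c (l 16000784) (b (l 16077528) (a (l 16119400) (l 16255320)))) (c (c (b (l 16153832) (l 16159184)) (l 16143080)) (l 16141568))) (c (c (l 16398152) (l 16378704)) (c (c (l 16372840) (l 16395792)) (l 16395000)))))) (c (a (c (a (l 15552704) (l 15569048)) (b (b (l 15732824) (l 15708552)) (l 15625824))) (a (c (l 15925032) (b (l 16056416) (l 16035344))) (b (b (a (l 16302368) (l 16437504)) (a (l 16313808) (l 16442096))) (a (l 16257600) (c (l 16389384) (l 16366280)))))) (a (c (b (b (c (l 15728752) (a (l 15623024) (l 15750552))) (c (l 15704712) (l 15566664))) (c (l 15621184) (c (l 15612752) (l 15613088)))) (l 15619048)) (b (a (c (c (l 16095016) (b (l 16094536) (l 16110808))) (l 16131336)) (b (c (c (l 16409120) (a (l 16321040) (l 16457688)))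 (a (l 16359384) (c (c (l 16453248) (l 16454920)) (l 16454352)))) (c (a (l 16166184) (l 16442672)) (l 16381296)))) (c (a (c (l 16031248) (l 16025616)) (c (l 16254408) (a (l 16251216) (c (l 16384840) (l 16362528))))) (l 15980096)))))), by decide +kernel⟩

def k59_pm_022 : ∃ t, chk3 f_pm_022 t 38 20 1 = true :=
  ⟨(c (b (b (c (l 16318416) (l 16326016)) (c (l 16432688) (l 16363760))) (b (c (l 16395072) (l 16320760)) (c (c (l 16317984) (l 16262648)) (b (l 16271432) (l 16412880))))) (b (c (c (l 16357416) (b (l 16440144) (l 16443400))) (c (b (l 16358744) (l 16316704)) (c (c (l 16364344) (a (b (l 16460384) (l 16403296)) (b (l 16522008) (l 16379680)))) (c (b (a (l 16363656) (l 16379472)) (l 16324672)) (l 16327272))))) (b (c (l 16266144) (c (l 16264280) (c (c (l 16345032) (b (l 16264488) (l 16305872))) (l 16472408)))) (c (b (c (l 16350432) (l 16307104)) (l 16345912)) (c (b (b (l 16277960) (l 16330216)) (a (l 16430968) (l 16432544))) (c (b (b (c (l 16298920) (l 16269000)) (l 16284048)) (l 16318632)) (l 16407368))))))),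 by decide +kernel⟩

def k60_pm_022 : ∃ t, chk3 f_pm_022 t 39 20 1 = true :=
  ⟨(b (c (a (c (b (a (l 16459784) (l 16333232)) (l 16348888)) (b (c (l 16352224) (l 16373616)) (l 16344032))) (b (c (b (l 16258088) (l 16195072)) (b (l 16204944) (l 16176464))) (c (b (l 16251928) (l 16276552)) (l 16121376)))) (c (a (c (l 16239064) (b (l 16336400) (l 16310568))) (b (b (a (l 16305536) (l 16235424)) (c (l 16260600) (l 16239184))) (c (l 16217656) (l 16196472)))) (c (a (c (l 16270784) (l 16245368)) (b (b (a (l 16278432) (l 16176280)) (l 16221288)) (l 16155256))) (a (c (b (l 16290312) (c (l 16300936) (l 16299336))) (b (c (c (l 16352800) (l 16224448)) (l 16273720)) (c (l 16179336) (l 16286664)))) (c (b (b (a (l 16263344) (l 16207224)) (l 16207616)) (l 16168344)) (b (c (b (l 16168776) (l 16201368)) (b (a (l 16259168) (c (l 16200384) (l 16200048))) (l 16205568))) (c (l 16039472) (l 16172256)))))))) (c (b (c (a (l 16350104) (l 16243568)) (a (l 16296160) (l 16193536))) (c (a (l 16261992) (l 16187760)) (b (a (l 16220808) (l 16157784))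 (l 16160000)))) (b (c (c (l 16149064) (l 16114040)) (c (c (l 16191440) (l 16168352)) (c (c (l 16187728) (a (c (l 16251032) (l 16251320)) (l 16120096))) (a (l 16178512) (l 16043944))))) (c (b (c (l 16078936) (l 16028904)) (l 16114048)) (c (b (b (l 15997352) (l 16177632)) (l 16170288)) (b (b (c (c (l 16162328) (a (l 16163872) (l 16095064))) (a (l 16224048) (l 16020704))) (a (l 16080816) (c (l 16110304) (l 16117640)))) (a (l 16138016) (l 16004552)))))))), by decide +kernel⟩

def k61_pm_022 : ∃ t, chk3 f_pm_022 t 18 21 1 = true :=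
  ⟨(c (a (b (a (c (b (l 15400576) (b (a (l 15242776) (l 15293408)) (l 15233184))) (b (l 15377664) (b (l 15248968) (l 15207144)))) (c (b (l 15618064) (l 15348504)) (b (l 15599088) (l 15388472)))) (c (a (l 15192360) (b (a (l 15226760) (b (l 15327584) (l 15268424))) (l 15229512))) (a (l 15187104) (b (a (l 15200400) (l 15279064)) (l 15203256))))) (b (b (c (l 15876360) (l 15844368)) (c (l 15731608) (l 15716544))) (b (c (a (l 15490048) (l 15771536)) (a (l 15468400) (l 15755120))) (a (c (b (l 15323776) (l 15324056)) (b (l 15341688) (l 15299264))) (c (l 15569328) (l 15548976)))))) (b (a (c (b (c (l 15263624) (a (l 15348456) (l 15575008))) (a (c (l 15216552) (b (l 15219328) (l 15176856))) (c (l 15371080) (l 15361688)))) (c (a (c (b (l 15337864) (l 15189616)) (l 15188360)) (c (b (l 15568568) (l 15347688)) (c (l 15366360) (l 15452704)))) (a (b (l 15324704) (l 15177040)) (l 15445912)))) (c (c (b (l 15919904) (l 15809992)) (c (l 15723808) (l 15699496))) (c (a (c (l 15610760) (b (l 15857328) (l 15642912))) (c (l 15845896)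 (c (l 15901752) (l 15876688)))) (l 15729672)))) (a (c (c (a (l 15167120) (b (l 15228136) (l 15183344))) (b (a (l 15160792) (c (l 15218376) (l 15212496))) (l 15156512))) (a (l 15133312) (b (c (c (l 15202288) (l 15198696)) (l 15188768)) (l 15149664)))) (b (c (c (l 15598352) (l 15360832)) (c (c (l 15494584) (l 15576424)) (l 15569040))) (c (c (a (l 15309696) (l 15533552)) (a (c (l 15300424) (l 15293704)) (l 15525400))) (a (l 15278584) (c (l 15304488) (l 15502200)))))))), by decide +kernel⟩

def k62_pm_022 : ∃ t, chk3 f_pm_022 t 19 21 1 = true :=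
  ⟨(c (b (a (b (a (c (b (l 16306728) (l 16252104)) (b (l 16348544) (l 16248848))) (c (l 16476776) (l 16504224))) (a (c (l 16212232) (l 16205152)) (c (a (l 16301896) (l 16409024)) (a (l 16299568) (l 16452360))))) (c (a (l 16277296) (l 16281608)) (a (l 16255688) (l 16203008)))) (a (b (c (l 15976968) (l 15947480)) (c (l 15858168) (l 15866584))) (b (a (c (a (l 16366504) (l 16343304)) (b (l 16373008) (l 16380224))) (c (l 16407800) (l 16412464))) (a (l 16132776) (c (b (l 16350792) (l 16427752)) (c (l 16307224) (l 16327488))))))) (b (a (c (b (a (c (l 16197248) (c (l 16216880) (l 16215984))) (l 16418200)) (a (c (l 16241728) (l 16217152)) (c (l 16265216) (l 16243096)))) (b (a (c (c (l 16215080) (c (l 16195064) (c (l 16213536) (l 16211624)))) (l 16233784)) (c (c (l 16500712) (l 16477432)) (l 16369968))) (a (c (c (l 16216280) (b (l 16243048) (l 16175464))) (l 16230824)) (c (c (l 16305152) (a (l 16249520) (l 16386776))) (l 16324672))))) (c (c (l 16207416) (l 16183648)) (c (c (l 16202504) (b (l 16215944) (l 16225184)))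 (c (a (l 16193000) (l 16125560)) (l 16240168))))) (a (c (b (c (l 16024920) (l 15999608)) (c (l 15961928) (l 15873600))) (c (a (c (l 15784840) (l 15635328)) (b (b (l 16117320) (l 16091992)) (l 15930664))) (l 15841000))) (c (b (a (b (l 16287336) (l 16294624)) (l 16366536)) (a (l 16188656) (a (l 16339968) (l 16318600)))) (c (a (b (c (l 16308632) (c (l 16308024) (l 16305456))) (c (l 16312592) (l 16190840))) (b (c (l 16405952) (l 16404840)) (c (l 16324256) (b (l 16405480) (l 16464680))))) (a (b (l 16370264) (l 16371416)) (b (l 16416696) (l 16387440)))))))), by decide +kernel⟩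

def k63_pm_022 : ∃ t, chk3 f_pm_022 t 10 40 1 = true :=
  ⟨(a (b (a (a (c (c (l 244845145207) (l 255045656119)) (c (b (l 16101928) (a (l 16152768) (l 16067256))) (c (b (l 417717486855) (a (l 16113440) (l 16056824))) (c (b (a (l 16091464) (l 16042624)) (a (l 16122832) (l 16049168))) (c (b (a (l 439729374407) (l 16040512)) (a (l 16117120) (l 444561043559))) (b (a (c (l 452077402679) (b (l 466036047447) (l 16043552))) (l 470330809767)) (a (c (l 16115720) (l 16115216)) (c (l 456372200615) (b (l 15960360) (l 16021888)))))))))) (a (c (l 366177784967) (c (l 15965432) (c (l 15955864) (c (l 15951032) (c (l 15948600) (l 470867479047)))))) (l 1))) (l 1)) (a (c (a (c (b (l 16120416) (l 16058512)) (b (l 16085256) (l 16036912))) (c (b (l 15964520) (l 15976792)) (b (l 15951448) (l 15963480)))) (c (a (b (a (l 16140560) (l 16070912)) (c (l 16097808) (l 16074864))) (b (l 15937792) (a (l 15989920) (l 15904648)))) (c (a (b (a (l 16111144) (l 16051408)) (l 16055392)) (b (l 430065179703) (a (l 15969272) (l 15891912)))) (c (a (b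 (a (l 16094896) (l 16039248)) (l 16040560)) (b (a (l 15965728) (l 15875128)) (a (l 15956528) (l 15883096)))) (a (c (b (a (l 16090648) (l 16033240)) (l 16030616)) (b (c (l 15999384) (l 16062816)) (l 16038040))) (b (c (a (l 448855842071) (l 15872432)) (a (c (b (l 15962040) (l 15960904)) (b (l 15939136) (l 15959080))) (l 15805848))) (c (a (l 15950240) (l 15857848)) (a (l 15863320) (c (b (l 15878768) (l 15877984)) (b (l 15876760) (l 15876104))))))))))) (a (a (c (l 384967945879) (c (l 15802360) (c (l 15790472) (c (l 15784480) (b (l 1) (c (l 15789544) (l 15764744))))))) (l 1)) (l 1)))) (l 1)), by decide +kernel⟩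

def k64_pm_022 : ∃ t, chk3 f_pm_022 t 10 82 1 = true :=
  ⟨(a (c (a (a (c (b (l 16117680) (l 16125136)) (l 15964984)) (b (c (l 15986440) (l 15948304)) (c (l 15948112) (l 15944552)))) (b (c (l 316784853959) (l 15552920)) (c (l 168608491815) (l 152502307655)))) (c (a (a (c (l 16059040) (l 16036360)) (b (a (l 15979432) (l 15910272)) (l 15821584))) (b (l 422548266215) (a (a (l 15831480) (l 15745672)) (l 15603024)))) (a (c (a (l 16014624) (b (a (l 15947736) (l 15888480)) (l 15894944))) (c (a (l 16005608) (b (a (l 15930336) (l 15875176)) (l 15878976))) (b (a (l 15930416) (a (l 15857016) (c (l 15868592) (l 15865536)))) (c (l 15760280) (l 15933928))))) (c (a (b (l 441876002983) (a (l 15808568) (l 15730656))) (l 476772225431)) (c (a (b (l 456371499271) (a (l 15794688) (l 15720696))) (l 491267725079)) (c (a (b (a (l 15796864) (l 15707496)) (a (l 15787816) (l 15715832))) (b (l 1) (l 508984467927))) (a (b (a (c (b (l 15796328) (l 15796040)) (l 482141433927)) (l 15703600)) (a (l 15784608) (b (l 493415600615) (l 336649300551))))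 (l 503615731911)))))))) (l 1)), by decide +kernel⟩

def k65_pm_022 : ∃ t, chk3 f_pm_022 t 40 83 1 = true :=
  ⟨(c (c (b (a (l 16121304) (b (l 15992104) (l 16011376))) (a (l 16156792) (l 16047400))) (b (b (a (l 16067912) (l 15959472)) (l 16023192)) (l 16051880))) (c (b (c (l 15896552) (b (l 15953392) (l 15960176))) (c (l 16015984) (l 15991536))) (c (b (b (a (l 15985968) (l 15875080)) (l 15943008)) (l 15977392)) (b (b (c (c (l 15923576) (l 15921880)) (b (l 15881672) (b (l 15920568) (l 15858312)))) (c (l 15849152) (l 15915984))) (c (c (l 15972776) (l 15880936)) (l 15954032)))))), by decide +kernel⟩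

def k66_pm_022 : ∃ t, chk3 f_pm_022 t 41 83 1 = true :=
  ⟨(a (b (c (b (c (l 15833904) (l 15815728)) (c (l 15860160) (l 15839720))) (c (b (a (l 15829256) (l 15754656)) (l 15786912)) (c (b (a (l 15796200) (l 15734240)) (l 15777344)) (b (c (a (l 15776560) (l 15720264)) (c (b (l 15744384) (l 15739976)) (b (l 15741456) (l 15735840)))) (c (l 15761664) (l 15749064)))))) (c (c (l 15890368) (l 15885296)) (c (l 15823752) (c (l 15812072) (c (l 15795512) (l 15788216)))))) (b (c (b (l 338259733639) (l 15675208)) (c (b (l 15616176) (l 15647208)) (c (b (l 15601528) (l 15631000)) (b (c (l 15593360) (a (c (l 15636984) (b (l 15631208) (b (l 15633144) (l 15594584)))) (l 1))) (c (l 15599704) (c (l 356513213159) (a (l 15635488) (l 15570152)))))))) (c (b (b (l 15705440) (l 15705008)) (a (l 15798368) (b (b (b (l 15693016) (b (l 15696896) (b (b (l 15698360) (l 15699560)) (l 15699720)))) (l 15705296)) (l 15720184)))) (b (b (c (l 15677688) (c (l 15659928) (c (l 15649032) (c (l 15622704) (a (l 15679512) (l 15600840)))))) (c (l 15697752)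 (c (l 15615272) (c (l 308731824455) (a (l 15687352) (c (l 15625600) (l 15620488))))))) (c (a (l 15766432) (b (b (b (l 15665656) (b (l 15669648) (l 15673744))) (l 15678280)) (l 15693368))) (a (c (l 15739120) (c (l 15721952) (l 15706736))) (c (b (b (b (l 15651528) (b (l 15655488) (l 15659536))) (l 15663632)) (l 15676976)) (c (b (b (b (l 15642936) (b (l 15646648) (l 309268757527))) (l 15653624)) (l 15665376)) (b (b (a (b (l 15653176) (l 15651888)) (b (l 15611552) (b (l 15615520) (c (l 15625488) (l 15599512))))) (c (l 15647736) (l 15642192))) (c (l 15658968) (l 15653568))))))))))), by decide +kernel⟩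

def k67_pm_022 : ∃ t, chk3 f_pm_022 t 21 83 1 = true :=
  ⟨(a (a (b (l 1) (b (l 1) (b (l 1) (c (l 15581792) (c (l 15551304) (c (l 15535800) (c (l 15527976) (l 529385454167)))))))) (l 1)) (l 1)), by decide +kernel⟩

def k68_pm_022 : ∃ t, chk3 f_pm_022 t 11 20 1 = true :=
  ⟨(l 1), by decide +kernel⟩

def k69_pm_022 : ∃ t, chk3 f_pm_022 t 5 42 1 = true :=
  ⟨(a (a (c (a (c (b (l 16096616) (l 16231648)) (b (l 16026920) (l 16161760))) (b (c (a (b (l 15975064) (l 16027568)) (b (l 15820472) (l 15869792))) (a (l 15936928) (b (l 15800096) (l 15864344)))) (c (a (l 16096120) (b (l 15955040) (l 16008136))) (a (l 16043288) (l 15937808))))) (c (a (c (l 16074280) (l 16019440)) (b (a (l 15891392) (b (a (l 15808000) (l 15737304)) (l 15823424))) (c (l 15955248) (l 15935136)))) (a (c (c (l 16096872) (l 16073352)) (c (b (c (l 16043912) (l 15959072)) (l 16061296)) (l 15931344))) (c (b (a (l 15877368) (b (l 15595536) (l 15790480))) (l 15872400)) (b (c (a (l 15842184) (b (l 15727808) (l 15773784))) (a (l 15866632) (b (c (l 15701032)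 (l 15719592)) (l 15766968)))) (c (l 15733056) (l 15907560))))))) (b (a (c (c (a (l 15682320) (l 15436240)) (a (l 15663448) (l 15477016))) (c (a (b (l 15603192) (l 15639104)) (l 15454080)) (c (a (b (l 15586520) (l 295309963271)) (l 15437216)) (a (c (b (l 15492208) (a (l 15687344) (l 15612800))) (b (c (l 490193928791) (a (l 483751652663) (l 15525448))) (a (c (l 15680104) (l 15676696)) (c (l 15607560) (l 479456668071))))) (c (l 15428704) (l 524016348391)))))) (l 1)) (c (a (a (c (b (l 15799616) (l 15870488)) (b (l 15778856) (l 15843696))) (c (l 15661104) (l 15641840))) (c (l 460666010535) (l 15149888))) (c (a (a (b (l 15643216) (l 15802440)) (l 304436581991)) (l 528311142487)) (a (c (a (b (l 15699440) (l 15769208)) (b (l 15564056) (l 15553048))) (a (c (l 15646920) (c (l 15600072) (l 15724088))) (c (b (l 15553472) (l 318932226119)) (b (a (c (l 15596256) (l 15570696)) (l 15502304)) (a (l 15654840) (c (l 15584992) (l 15580472))))))) (a (c (l 15414544) (c (l 15405880) (l 505225863335))) (l 1))))))) (l 1)), by decide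 +kernel⟩

def k70_pm_022 : ∃ t, chk3 f_pm_022 t 5 43 1 = true :=
  ⟨(a (a (c (a (b (c (l 16299232) (l 16241144)) (c (l 16288640) (l 16287000))) (c (b (l 16081120) (l 16198120)) (b (l 16052696) (l 16148576)))) (c (a (c (l 16251616) (l 16227480)) (c (l 16080120) (l 16045920))) (a (c (c (l 16267032) (a (l 16222232) (l 16126456))) (l 16085488)) (b (c (l 16009592) (l 15902376)) (c (l 15954696) (l 16109984)))))) (c (a (c (b (a (b (l 15935360) (l 15989088)) (b (l 15779008) (l 15850504))) (a (l 16059672) (b (l 15916000) (l 15970416)))) (b (a (l 15918088) (b (l 15757848) (l 15823336))) (l 15758232))) (b (c (l 193840991127) (l 206188979335)) (a (c (b (l 15758624) (l 15830800)) (b (l 15737080) (l 15803248))) (c (l 15619216) (l 15599176))))) (a (c (b (a (l 15871888) (b (l 15705712) (l 15781736))) (l 15801760)) (c (b (c (l 15555208) (l 15588432)) (l 15875208)) (b (a (l 15779288) (a (l 15643720) (c (l 15678872) (l 15649584)))) (l 15822624)))) (c (b (a (l 15428560) (l 15409496)) (a (b (l 15705520) (l 15761320)) (l 15511800)))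 (c (b (a (b (l 15541760) (l 15614976)) (l 15392008)) (a (l 15576528) (l 434359211623))) (b (a (c (b (l 15531024) (l 15540176)) (b (c (l 468718974983) (l 475161424071)) (a (l 15633048) (l 457444845495)))) (b (l 1) (l 479993015447))) (a (c (l 15688032) (l 15681168)) (c (b (l 15508736) (l 15581160)) (b (a (l 15442624) (l 15457896)) (a (l 15611400) (l 15536584))))))))))) (b (l 1) (a (a (a (c (l 311415596295) (c (l 15387400) (c (l 15369608) (l 469792252919)))) (l 1)) (l 1)) (l 1)))), by decide +kernel⟩

def k71_pm_022 : ∃ t, chk3 f_pm_022 t 8 22 2 = true :=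
  ⟨(a (c (b (a (l 14638712) (l 14758984)) (a (l 14347536) (l 14450696))) (b (c (a (l 14612912) (l 14857920)) (a (l 14573280) (c (l 14859272) (a (l 14775352) (l 14929544))))) (a (c (l 14316640) (l 14294640)) (c (l 14567184) (b (l 14377368) (l 14396240)))))) (c (a (b (a (l 14809368) (c (b (l 15237104) (l 15138472)) (b (a (l 15242784) (l 15260848)) (l 15140920)))) (c (l 14852048) (a (l 14779704) (l 14928904)))) (b (a (c (b (l 15278616) (a (l 15243920) (l 15253792))) (b (c (l 15245088) (l 15201360)) (a (c (l 15211824) (l 15159736)) (l 15176344)))) (c (c (l 15244968) (l 15197976)) (l 15177544))) (a (c (a (l 15052488) (l 15034912)) (a (l 15002760) (l 15018880))) (c (b (a (c (l 15196320) (l 15142376)) (l 15159448)) (a (l 15060488) (l 15071448))) (b (l 15121640) (l 15019624)))))) (a (b (a (c (l 14819880) (c (l 14927328) (l 15019232))) (c (b (a (c (l 15223816) (l 15176680)) (l 15192856)) (a (l 15084984) (l 15106208))) (b (l 15155280) (l 15054648)))) (c (a (l 14784240) (c (l 14901056) (l 14860592))) (a (c (l 14762216)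 (l 14726392)) (l 14837784)))) (b (b (l 15171344) (a (l 15131976) (l 15145992))) (b (a (l 15031160) (l 15101976)) (l 14942776)))))), by decide +kernel⟩

def k72_pm_022 : ∃ t, chk3 f_pm_022 t 8 23 2 = true :=
  ⟨(b (a (a (b (b (b (c (l 14182048) (l 14074464)) (c (l 14164712) (l 14119784))) (a (l 14055288) (l 14176632))) (a (l 14068648) (c (l 14146336) (l 14122680)))) (c (b (b (b (l 14413256) (l 14394632)) (l 14373904)) (l 14333056)) (c (b (b (l 14223304) (l 14360576)) (l 14319080)) (a (l 14263840) (l 14402368))))) (a (c (c (b (b (l 14682776) (l 14652696)) (l 14611640)) (a (l 14459608) (b (c (l 14758544) (l 14741560)) (l 14686592)))) (c (a (b (b (b (l 14620016) (l 14601096)) (l 14579896)) (l 14538096)) (b (b (c (l 14708496) (l 14688160)) (l 14686048)) (l 14644056))) (b (a (c (a (l 14556104) (l 14582088)) (l 14537824)) (l 14648360)) (l 14553032)))) (c (c (a (b (a (l 14869696) (l 14832664)) (l 14829272)) (c (a (l 14935296) (l 14942552)) (b (l 14930760) (l 14874032)))) (a (b (c (a (l 14834840) (l 14845216)) (l 14803672))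 (l 14780384)) (l 14879712))) (b (b (l 14844168) (l 14813160)) (l 14770696))))) (a (a (l 14098064) (a (b (c (l 14226080) (l 14195600)) (l 14175720)) (c (b (l 14339608) (l 14296688)) (b (l 14319192) (a (l 14253120) (l 14303544)))))) (a (c (c (l 14531888) (a (l 14456008) (l 14605808))) (c (a (l 14456880) (l 14562440)) (l 14470776))) (c (c (a (l 14748936) (l 14831008)) (a (l 14699224) (l 14769808))) (l 14688120))))), by decide +kernel⟩

def k73_pm_022 : ∃ t, chk3 f_pm_022 t 9 11 2 = true :=
  ⟨(b (a (a (b (c (a (l 15179352) (l 15204776)) (l 15165584)) (b (c (l 15149880) (l 15130528)) (a (c (l 15097280) (l 15070016)) (l 15130992)))) (b (a (c (l 15298848) (l 15273760)) (b (c (b (l 15445912) (l 15403928)) (b (l 15423200) (l 15380440))) (l 15373696))) (c (l 15304632) (l 15279752)))) (b (a (b (c (a (l 15646400) (l 15919296)) (l 15536648)) (a (c (b (l 15523872) (l 15481536)) (b (l 15502432) (l 15459320))) (c (l 15721312) (l 15703464)))) (b (c (l 16049840) (l 16043368)) (c (l 15935824) (l 15946256)))) (a (b (a (l 15450320)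 (c (b (l 15599632) (l 15556920)) (l 15501880))) (l 15476256)) (a (b (c (l 15792816) (l 15776152)) (c (a (l 15612032) (l 15688736)) (l 15575016))) (c (l 15714400) (l 15763104)))))) (a (a (b (b (a (b (c (l 15039208) (l 15010352)) (l 14995272)) (b (b (l 15112088) (l 15116632)) (l 15116464))) (a (l 14953000) (l 15090464))) (l 14827560)) (b (b (c (l 15290880) (l 15265968)) (a (l 15259448) (l 15377712))) (b (a (l 15240624) (l 15409712)) (l 15289616)))) (b (b (a (c (l 15488896) (l 15467008)) (a (c (l 15632392) (l 15612720)) (b (b (c (l 15718208) (l 15699944)) (l 15694640)) (l 15698120)))) (a (l 15527208) (l 15701656))) (a (b (l 15575960) (a (l 15557496) (l 15672552))) (l 15774912))))), by decide +kernel⟩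

def k74_pm_022 : ∃ t, chk3 f_pm_022 t 8 11 3 = true :=
  ⟨(b (a (c (a (a (l 14254608) (b (c (l 14634080) (l 14630048)) (l 14331768))) (c (b (a (c (l 14776416) (l 14773304)) (c (l 14807416) (l 14896312))) (a (l 14475912) (l 14607696))) (a (b (l 14697736) (l 14459224)) (l 14718832)))) (a (c (a (l 14332512) (c (a (l 14436608) (l 14504352)) (l 14455776))) (a (c (a (l 14285928) (l 14347720)) (l 14093544)) (l 14438544))) (l 14549056))) (b (a (c (c (b (a (l 15068584) (l 15141976)) (l 14980448)) (b (l 15086200) (l 14968296))) (b (l 15065688) (l 14946112))) (c (b (c (l 15153216) (l 15133904)) (c (a (l 15110832) (l 15125920)) (l 15102256))) (b (l 15118272) (l 15081728)))) (a (c (c (l 14762064) (l 14746608)) (l 14721184)) (b (c (c (a (l 15006752) (l 15079432)) (l 15023952)) (l 15002360)) (l 14806992))))) (a (a (c (b (a (b (l 14017792) (l 13997768)) (b (l 14134528) (l 14086592))) (l 14034784)) (a (c (b (b (l 13985568) (l 13965224)) (l 13964856)) (b (a (c (l 13935136) (l 13921568)) (b (l 13978192) (l 13951272))) (l 13937912)))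 (b (c (a (b (l 14068816) (l 14023552)) (l 14114816)) (l 14057152)) (c (l 14032216) (l 14012040))))) (c (a (b (c (l 14251856) (l 14044144)) (c (l 14171512) (a (l 14133200) (l 14175208)))) (a (c (b (l 14362176) (l 14258568)) (l 14092152)) (b (l 14404312) (l 14293528)))) (b (l 14250192) (l 14159568)))) (c (l 14488072) (l 14555744)))), by decide +kernel⟩

def k75_pm_022 : ∃ t, chk3 f_pm_022 t 9 11 3 = true :=
  ⟨(b (a (b (c (a (c (l 15147424) (c (l 15131464) (l 15120552))) (b (c (l 15249192) (a (l 15249184) (l 15275472))) (c (l 15295664) (l 15279760)))) (a (l 15111304) (b (l 15302464) (l 15263256)))) (b (c (a (c (l 15109792) (l 15096240)) (l 15259440)) (l 15158952)) (a (a (b (l 15042864) (l 15009496)) (l 15070096)) (l 15223904)))) (c (b (a (c (b (l 15754824) (a (l 15471712) (l 15689944))) (b (l 15580344) (a (l 15460112) (l 15681400)))) (c (b (l 16101376) (l 16043136)) (b (l 16057016) (l 15955280)))) (a (b (c (l 15491280) (a (l 15409112) (l 15538096))) (l 15440224)) (b (c (l 15882296) (l 15770312)) (a (c (l 15623320)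 (l 15613032)) (l 15793264))))) (a (b (a (b (l 15405024) (l 15443904)) (b (l 15819968) (l 15667064))) (l 15300640)) (b (c (b (a (l 16045320) (l 16245776)) (l 15875136)) (l 15943896)) (b (l 15625816) (a (l 15598616) (l 15777808))))))) (a (b (a (b (a (l 14950344) (b (b (l 15055784) (l 15061024)) (l 15060912))) (l 14962840)) (b (c (l 15240616) (l 15215088)) (l 15204328))) (a (l 14877872) (a (l 15161432) (l 15349056)))) (b (b (a (c (l 15402816) (l 15422344)) (b (a (l 15570128) (b (l 15650856) (l 15657064))) (l 15628504))) (l 15575512)) (a (b (l 15536008) (l 15574392)) (l 15741304))))), by decide +kernel⟩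

def k76_pm_022 : ∃ t, chk3 f_pm_022 t 5 44 1 = true :=
  ⟨(a (a (c (a (b (a (c (b (l 16338272) (l 16415264)) (c (l 16295032) (l 16315176))) (c (l 16401704) (l 16384880))) (a (l 16233912) (c (b (l 16326584) (l 16404600)) (l 16262264)))) (c (l 16099704) (l 16072328))) (a (a (b (c (a (l 16370288) (l 16326800)) (c (b (l 16250672) (l 16342984)) (l 16395640))) (c (l 16332792) (l 16277624))) (c (b (l 16380384) (a (l 16382808) (l 16335856))) (b (b (l 16316008) (l 16408032)) (b (l 16259816) (l 16344432))))) (c (l 16094648) (b (l 16081616) (c (l 16267392) (l 16310984)))))) (c (a (c (l 15936512) (b (l 16038512) (l 16116704))) (c (b (a (b (l 15896968) (l 15952088)) (b (l 15738464) (l 15811352))) (a (l 16024928) (b (l 15878224) (l 15934104)))) (b (a (l 15879680) (b (l 15716520) (l 15783424))) (l 15826528)))) (c (a (c (l 16046168) (l 16032624)) (b (a (l 15832840) (l 15542712)) (l 15869584))) (a (c (c (l 16025696) (l 15936576)) (l 15938296)) (a (c (l 15846768) (l 15836392)) (b (c (l 15639536) (c (l 15520432) (l 15659824)))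 (l 15619080))))))) (a (a (c (c (b (l 172902941847) (a (b (l 15718504) (l 15792152)) (l 15577984))) (b (l 15378736) (a (l 15601840) (l 15557160)))) (c (b (l 313563024215) (a (l 15627200) (l 15531968))) (c (b (a (l 15342088) (l 15347320)) (a (l 15660808) (l 15446304))) (b (a (c (l 434359146007) (b (l 449928382231) (l 354365535351))) (l 451538598567)) (a (b (l 15508920) (l 15664632)) (c (l 425769167879) (b (l 15372576) (l 15528736)))))))) (b (l 1) (c (c (l 286719159799) (l 15272152)) (c (l 15224616) (c (l 15204808) (l 444559033639)))))) (l 1))), by decide +kernel⟩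

def k77_pm_022 : ∃ t, chk3 f_pm_022 t 5 45 1 = true :=
  ⟨(a (a (a (c (b (c (l 16143968) (l 16138024)) (l 15924560)) (b (c (l 16070352) (l 16098584)) (c (l 15993256) (l 16106072)))) (c (b (a (c (c (c (l 16259408) (l 16276832)) (l 16295200)) (l 16272688)) (l 16266336)) (a (l 16315104) (b (a (l 16396936) (l 16411672)) (l 16321664)))) (b (a (c (c (l 16334040) (l 16332976)) (a (l 16355392) (l 16305488))) (c (l 16355456) (l 16354280))) (a (l 16265432) (c (l 16260664) (l 16239472)))))) (c (a (c (l 16115872) (l 16108976)) (c (l 15947544) (l 15883136))) (b (c (l 15907248) (l 15868048)) (c (l 16030024) (l 16058360))))) (a (c (a (b (c (a (l 15738824) (l 15525432)) (a (l 15842560) (l 15644968))) (c (a (l 15991760) (l 15763000)) (l 15854288))) (b (c (l 15338632) (l 15441544)) (a (c (l 15569160) (l 15667328)) (l 15421528)))) (a (c (b (a (l 15795096) (l 15669952)) (l 15833984)) (b (c (l 15511896) (a (l 15745280) (l 15558464))) (l 15795808))) (c (b (l 303899262391) (a (l 15649984) (l 15489784))) (b (a (c (l 15487752) (b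 (l 424695345767) (l 351144198631))) (l 419326266823)) (a (c (l 15620088) (l 15601008)) (c (l 15466416) (b (l 15394928) (l 15489616)))))))) (a (a (a (c (l 274908047943) (c (l 15262616) (l 415568058519))) (l 1)) (l 1)) (l 1)))), by decide +kernel⟩

def k78_pm_022 : ∃ t, chk3 f_pm_022 t 5 46 1 = true :=
  ⟨(b (a (c (a (a (b (b (l 15950664) (l 15979328)) (l 15914248)) (b (l 16153520) (l 16258928))) (a (a (b (a (b (l 16404888) (l 16475008)) (l 16373200)) (l 16336456)) (c (l 16312592) (l 16315376))) (c (l 16151720) (l 16112544)))) (a (b (b (a (l 15967240) (l 16225176)) (l 15916128)) (a (l 15906728) (l 16268032))) (a (b (a (b (b (l 16400944) (l 16393776)) (l 16431768)) (l 16212400)) (a (l 16414456) (l 16316640))) (c (l 16134952) (l 16041656))))) (a (c (a (c (l 15877864) (l 15910016)) (c (a (b (l 15754120) (l 15847864)) (b (l 15653304) (l 15702656))) (a (l 15785816) (b (l 15629616) (l 15672520))))) (c (a (l 15905144) (a (l 15737288) (b (l 15595944) (l 15628216)))) (b (a (l 15826304) (b (a (l 15674328) (c (l 15558840)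 (l 15537784))) (l 15626824))) (l 15707280)))) (a (a (c (c (l 15497704) (l 15475256)) (c (l 15448496) (b (b (l 382282454327) (l 15410192)) (l 15378688)))) (b (l 1) (c (l 15334144) (l 15283480)))) (l 1)))) (a (a (a (c (a (b (l 15796480) (l 15790488)) (l 15949856)) (a (l 15766184) (l 15921720))) (c (l 16211376) (l 16237400))) (a (a (l 16378152) (a (b (c (l 16390488) (l 16380976)) (l 16433296)) (c (l 16277528) (l 16327352)))) (c (l 16183584) (l 16171280)))) (a (c (a (l 16008664) (c (a (l 15881512) (l 15756720)) (l 15762256))) (a (l 15934664) (l 15594632))) (c (a (a (c (l 15603160) (l 15573088)) (l 15419448)) (l 15235824)) (a (a (c (l 15532296) (l 15489680)) (c (l 15379432) (a (l 15382680) (l 15312328)))) (l 15181608)))))), by decide +kernel⟩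

def k79_pm_022 : ∃ t, chk3 f_pm_022 t 5 47 1 = true :=
  ⟨(a (a (b (a (c (a (l 15822464) (l 15890568)) (l 15829576)) (c (l 16095608) (l 16116528))) (a (l 15876424) (c (a (l 15979664) (l 16123576)) (a (l 15952264) (l 16101656))))) (a (c (l 16302048) (l 16336920)) (a (b (c (b (l 16243384) (l 16294024)) (l 16218872)) (l 16300920)) (c (b (l 16179280) (l 16035544)) (b (l 16153008) (l 16185992)))))) (a (c (a (l 15963968) (c (l 15869352) (l 15821208))) (a (l 15998576) (l 15764480))) (c (a (a (c (l 15620736) (l 15651776)) (b (c (l 15537648) (l 15506168)) (c (l 15620088) (l 15571408)))) (c (l 270076399399) (l 15218544))) (a (a (l 15564512) (b (c (l 15463944) (l 15377936)) (l 15445392))) (c (a (l 15193480) (l 15309696)) (b (a (l 380671763015) (l 15228184)) (a (l 15407896) (l 381208633927)))))))), by decide +kernel⟩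

def k80_pm_022 : ∃ t, chk3 f_pm_022 t 3 5 1 = true :=
  ⟨(b (l 1) (a (b (l 1) (a (b (l 1) (a (c (l 308730392055) (l 331278849607)) (l 1))) (l 1))) (l 1))), by decide +kernel⟩

def k81_pm_022 : ∃ t, chk3 f_pm_022 t 8 6 1 = true :=
  ⟨(a (c (b (a (l 14097888) (c (b (l 14245616) (l 14245512)) (c (l 14230200) (l 14215992)))) (c (l 14184888) (l 14044984))) (c (a (b (l 14034608) (l 14034608)) (b (a (c (l 14159440) (l 14139512)) (c (l 14238280) (l 14194944))) (c (a (l 14159440) (l 14238208)) (l 14166544)))) (a (c (a (l 13964856) (b (l 14031984) (l 14031984))) (a (b (l 13937912) (l 13937912)) (l 14011808))) (l 14127496)))) (b (c (a (c (b (b (a (b (l 14387544) (l 14371040)) (c (l 14512728) (b (l 14528208) (l 14486912)))) (c (l 14422784) (l 14403232))) (l 14407656)) (b (b (a (c (b (l 14387856) (l 14371088)) (b (l 14350800) (l 14333848))) (c (a (b (l 14464496) (l 14425768)) (l 14463888)) (l 14409016))) (a (l 14245544) (l 14411672))) (c (l 14394232) (l 14358000)))) (b (c (a (b (c (l 14646696) (l 14595904)) (a (c (l 14566520)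 (l 14511792)) (c (l 14597424) (l 14513344)))) (c (b (l 14728256) (a (l 14576992) (l 14625376))) (l 14619536))) (b (l 14582928) (l 14503800))) (c (c (a (l 14566096) (l 14600320)) (l 14538376)) (l 14475760)))) (b (a (b (a (l 14262832) (l 14357456)) (l 14284704)) (b (l 14525960) (l 14444288))) (l 14351056))) (c (c (a (l 14407656) (c (l 14579520) (l 14538280))) (a (c (l 14394232) (l 14358000)) (l 14475664))) (l 14350976)))), by decide +kernel⟩

def k82_pm_022 : ∃ t, chk3 f_pm_022 t 9 6 1 = true :=
  ⟨(b (a (b (c (a (a (l 14715584) (l 14853168)) (l 15160536)) (a (l 14715888) (l 15105608))) (a (c (b (a (b (l 14603976) (l 14588776)) (l 14715088)) (l 14626752)) (b (l 14439960) (l 14559208))) (b (l 14985512) (c (b (l 14953648) (l 14929384)) (l 14880736))))) (b (a (b (b (a (l 15518968) (a (l 15654920) (l 15723272))) (l 15483544)) (l 15491200)) (a (b (c (b (l 15814944) (l 15844288)) (l 15796696)) (l 15786504)) (b (l 15882672) (c (l 15912976) (l 15907544))))) (c (a (l 15370776) (l 15737280)) (l 15472376)))) (a (c (a (l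 14626616) (l 14919824)) (b (l 14707904) (l 14707832))) (b (b (a (b (l 15240512) (l 15216984)) (l 15586544)) (a (l 15207792) (a (l 15449160) (l 15586000)))) (l 15354072)))), by decide +kernel⟩

def k83_pm_022 : ∃ t, chk3 f_pm_022 t 4 7 1 = true :=
  ⟨(a (a (c (b (l 14169840) (l 14169840)) (a (c (l 14034608) (b (a (l 13948408) (l 14007128)) (l 13918784))) (c (b (a (l 14133304) (l 14222448)) (l 14165704)) (l 14127464)))) (c (a (c (l 14407656) (b (l 14371352) (l 14371352))) (c (b (l 14555336) (l 14555336)) (l 14475664))) (b (l 14350976) (l 14350976)))) (a (c (a (l 14626616) (l 14919768)) (b (l 14707832) (l 14707832))) (b (l 15354008) (l 15354008)))), by decide +kernel⟩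

def k84_pm_022 : ∃ t, chk3 f_pm_022 t 10 6 1 = true :=
  ⟨(b (a (b (b (a (l 15947408) (a (l 16011112) (c (l 16081792) (l 16058152)))) (a (c (l 15894120) (l 16017936)) (l 16122288))) (a (b (c (b (l 16062040) (l 16035520)) (l 16021248)) (l 15954968)) (b (c (l 16207864) (l 16191064)) (c (l 16126120) (l 16193696))))) (b (b (a (c (b (l 16261728) (a (l 16153280) (l 16291160))) (a (l 16064384) (l 16330776))) (c (a (l 16529120) (l 16360936)) (l 16329552))) (a (c (l 16122392) (l 16209008)) (c (a (l 16270576) (l 16502512)) (a (l 16319768) (l 16495024))))) (a (b (l 16290920) (b (l 16350584) (l 16337824))) (b (c (l 16391264) (l 16378952)) (l 16453240))))) (b (a (c (l 15948888) (l 15943256)) (b (a (a (l 16316896) (b (l 16433272) (l 16417840))) (b (l 16508824) (l 16535840))) (a (l 16295336) (l 16332672)))) (a (a (b (l 15722040) (l 15700392)) (b (l 15966616) (l 15908504))) (l 16132496)))), by decide +kernel⟩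

def k85_pm_022 : ∃ t, chk3 f_pm_022 t 11 6 1 = true :=
  ⟨(b (a (b (b (a (b (c (a (l 16049216) (l 16037256)) (l 15834392)) (a (l 16263968) (c (l 16022480) (l 16083008)))) (c (l 15907376) (l 15852056))) (a (c (l 16219000) (l 16231432)) (c (b (a (l 15997272) (l 15901392)) (a (l 16179864) (l 15973592))) (a (l 15904240) (l 15825928))))) (a (b (c (a (l 16513760) (l 16612216)) (l 16357128)) (c (l 16549000) (l 16542536))) (b (c (l 16153968) (l 16160544)) (b (l 16321328) (a (l 16635272) (l 16585032)))))) (b (a (c (b (c (l 15733704) (l 15682632)) (l 15776224)) (b (l 15621432) (l 15715160))) (c (b (c (b (l 15563304) (l 15630280)) (l 15418704)) (l 15667520)) (b (a (l 15507048) (c (l 15476736) (l 15433104))) (l 15578080)))) (a (b (c (a (b (l 15909504) (l 16053256)) (b (l 15777808) (l 15852912))) (a (l 15875208) (l 15635440))) (c (l 16118728) (l 16119848))) (b (c (l 15736560) (l 15673728)) (c (b (a (l 15843216) (l 15767872)) (l 15776376)) (b (l 15771984) (l 15869696))))))) (b (a (a (b (l 16609064) (l 16529208)) (c (l 16490800)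 (l 16613024))) (a (b (a (b (l 16525888) (l 16652560)) (l 16261760)) (a (l 16581264) (l 16557504))) (b (c (l 16166656) (l 16145160)) (c (l 16302528) (l 16333672))))) (a (a (c (l 16392512) (l 16535816)) (b (l 16381592) (a (l 16439704) (l 16357816)))) (a (b (l 16450952) (l 16284072)) (b (l 16498584) (l 16419832)))))), by decide +kernel⟩

def k86_pm_022 : ∃ t, chk3 f_pm_022 t 5 7 1 = true :=
  ⟨(a (b (a (l 15794984) (b (a (b (l 16088784) (l 16069792)) (b (l 16313648) (l 16262888))) (l 16158232))) (a (l 15794952) (l 16158184))) (b (a (b (l 16492896) (a (b (l 16430800) (l 16414472)) (b (l 16635696) (l 16592528)))) (b (a (c (l 16192016) (l 16283360)) (b (l 16296768) (l 16245784))) (l 16376440))) (a (l 16496728) (b (a (l 16529800) (b (l 16650576) (l 16743864))) (l 16754208))))), by decide +kernel⟩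

def k87_pm_022 : ∃ t, chk3 f_pm_022 t 6 12 1 = true :=
  ⟨(a (b (a (c (a (b (c (l 15416992) (l 15197568)) (a (l 15600776) (b (l 15507848) (l 15581760)))) (b (l 15177704) (a (l 15412272) (l 15350880)))) (b (a (c (a (l 15298336) (l 15309696)) (b (a (l 381208633927) (l 15228184)) (a (l 15407896) (l 15227088)))) (l 325373554199)) (a (c (a (l 15528312) (l 15476736)) (l 15374592)) (c (a (l 15319312) (l 15309696)) (b (a (l 15290000) (l 15228184)) (a (l 15407896) (l 15310976))))))) (a (c (l 306582908407) (l 330205107783)) (l 1))) (a (c (a (b (l 15667520) (l 15736560)) (b (a (l 15600776) (b (l 15507848) (l 15581760))) (l 15667520))) (b (a (l 15578080) (c (a (l 15528312) (l 15476736)) (l 15437504))) (a (l 15673728) (l 15578080)))) (c (a (b (a (l 15307416) (l 15350880)) (a (l 15600776) (b (l 15507848) (l 15581760)))) (b (l 15177704) (a (l 250749183943) (l 15350880)))) (b (a (a (c (l 15340280) (b (l 15331944) (l 15407896))) (c (l 15309696) (l 373692202135))) (l 14890760)) (a (c (a (l 15528312) (l 15476736)) (l 15458480))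 (c (a (l 15361256) (l 15309696)) (b (l 373692202135) (a (l 15407896) (l 15331944))))))))) (a (a (b (l 1) (c (l 306582908407) (l 328594495047))) (l 1)) (l 1))), by decide +kernel⟩

def k88_pm_022 : ∃ t, chk3 f_pm_022 t 6 13 1 = true :=
  ⟨(a (b (a (b (a (c (b (a (l 15843216) (l 15767872)) (l 15797352)) (b (l 15771984) (l 15890672))) (c (l 15736560) (l 15673728))) (a (l 16030072) (c (a (l 15839288) (l 15623968)) (a (l 15890672) (l 15771984))))) (c (b (a (l 15667520) (b (a (l 15581760) (l 15507848)) (l 15600776))) (a (l 15736560) (l 15667520))) (b (a (l 15578080) (c (b (l 15476736) (l 15528312)) (l 15458480))) (l 15612824)))) (a (a (b (c (l 16323496) (l 16333672)) (l 16519560)) (b (l 16051048) (c (l 16344472) (l 16354648)))) (b (a (c (a (l 15881232) (l 15728832)) (a (l 15890672) (l 15771984))) (c (l 15736560) (l 15673728))) (a (l 16072016) (c (b (l 15770768) (l 15902208)) (a (l 15890672) (l 15771984))))))) (b (b (a (c (a (b (l 15350880) (l 288867018695)) (l 308730668455)) (a (c (b (l 15309696) (l 15382224)) (b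 (l 373692202135) (a (l 15407896) (l 15331944)))) (l 345237777943))) (l 1)) (a (c (a (a (l 15600776) (b (l 15507848) (l 15581760))) (a (l 387114395591) (l 15350880))) (a (c (b (l 15476736) (l 15528312)) (l 15458480)) (c (l 383356026007) (b (l 393556425879) (l 333963976647))))) (c (l 378523610615) (l 371007297095)))) (a (c (a (b (l 15667520) (l 15736560)) (b (c (l 15338832) (l 15523568)) (l 15667520))) (a (l 15633800) (b (c (l 15395600) (l 15458480)) (l 15578080)))) (c (a (b (l 387114222247) (b (l 15433680) (l 15600776))) (b (l 15177704) (l 385503609511))) (a (b (c (l 381745413271) (b (l 15191456) (l 15239552))) (c (l 15500464) (l 15458480))) (b (l 15121448) (c (l 380671671447) (a (l 15323432) (l 15275344))))))))), by decide +kernel⟩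

def k89_pm_022 : ∃ t, chk3 f_pm_022 t 7 6 1 = true :=
  ⟨(b (l 1) (a (b (l 1) (a (c (b (l 1) (l 374228643319)) (l 377986373639)) (l 1))) (l 1))), by decide +kernel⟩

def k90_pm_022 : ∃ t, chk3 f_pm_022 t 6 7 1 = true :=
  ⟨(a (b (b (a (a (l 16149736) (c (l 16481536) (l 16471160))) (a (b (c (l 16365440) (l 16375616)) (l 16540528)) (b (l 16113960) (l 16255200)))) (a (a (l 16179840) (b (l 16296768) (l 16287728))) (a (l 16254592) (l 16392488)))) (b (a (l 16527416) (a (l 16263728) (b (l 16296768) (l 16287728)))) (a (a (l 16755272) (l 16642600)) (l 16527416)))) (b (a (b (b (a (c (b (l 15812712) (l 15923176)) (l 15633568)) (c (l 15736560) (l 15673728))) (a (l 16134928) (c (b (l 15812712) (l 15902208)) (l 15696488)))) (a (b (l 16276176) (l 16540528)) (b (l 16155904) (l 16297144)))) (b (c (a (b (l 15667520) (l 15736560)) (b (a (l 15600776) (l 15538544)) (l 15667520))) (a (l 15633800) (b (c (l 15500464) (l 15458480)) (l 15578080)))) (b (a (c (b (l 15812712) (l 15923176)) (l 15738424)) (c (l 15736560) (l 15673728)))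 (a (l 16155904) (c (a (l 15923176) (l 15812712)) (l 15780368)))))) (a (b (a (l 16338480) (l 16434432)) (a (l 16326640) (l 16182816))) (b (b (a (l 16318112) (l 16155904)) (a (l 16540528) (l 16318112))) (b (l 16434432) (l 16359456)))))), by decide +kernel⟩

def k91_pm_022 : ∃ t, chk3 f_pm_022 t 7 7 1 = true :=
  ⟨(b (a (b (a (c (a (b (l 383892996775) (a (l 15600776) (l 15538544))) (b (l 15177704) (l 15273168))) (a (b (c (l 15223248) (a (l 15365376) (l 15275344))) (c (l 15500464) (l 15458480))) (b (l 15121448) (c (l 15307136) (l 404293921431))))) (a (c (l 368859934199) (l 361880491591)) (l 1))) (a (c (b (a (l 15667520) (l 15395440)) (a (l 15736560) (l 15667520))) (a (l 15633800) (c (l 15380400) (l 15509640)))) (c (a (b (l 15357056) (l 15500296)) (l 377450320087)) (a (b (c (l 15349072) (l 401072695959)) (l 15289888)) (b (l 15121448) (c (l 15328104) (l 389261535895))))))) (a (b (l 1) (c (l 373154664487) (l 363490859015))) (l 1))) (a (a (b (b (a (c (a (l 15923176) (l 15812712)) (l 15801344)) (c (l 15736560) (l 15673728)))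 (a (l 16155904) (c (a (l 15923176) (l 15812712)) (l 15822312)))) (a (b (l 16339088) (l 16540528)) (b (l 16155904) (l 16339088)))) (b (c (a (b (l 15667520) (l 15736560)) (b (l 15563208) (l 15667520))) (a (l 15633800) (b (l 15415712) (l 15578080)))) (b (a (c (l 15650576) (l 15843288)) (l 15709632)) (a (l 16155904) (c (l 15713488) (l 15843288)))))) (b (a (c (a (b (l 15399000) (l 15563208)) (l 367249772759)) (a (b (c (l 15349072) (l 15125256)) (l 15478632)) (b (l 15121448) (c (l 15349072) (l 15188176))))) (c (l 361880375335) (l 353827182599))) (a (c (a (l 15679704) (b (l 15563208) (l 15667520))) (a (l 15633800) (b (l 15478632) (l 15578080)))) (c (a (b (l 15399000) (l 15563208)) (l 369934127319)) (a (b (l 381208438663) (l 15478632)) (b (l 15121448) (l 379597888839)))))))), by decide +kernel⟩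

theorem s92_pm_022 : ∃ t, chk3 f_pm_022 t 3 7 1 = true := ex3_a k90_pm_022 k91_pm_022

theorem s93_pm_022 : ∃ t, chk3 f_pm_022 t 6 6 1 = true := ex3_b k87_pm_022 k88_pm_022

theorem s94_pm_022 : ∃ t, chk3 f_pm_022 t 3 6 1 = true := ex3_a s93_pm_022 k89_pm_022

theorem s95_pm_022 : ∃ t, chk3 f_pm_022 t 3 3 1 = true := ex3_b s94_pm_022 s92_pm_022

theorem s96_pm_022 : ∃ t, chk3 f_pm_022 t 5 6 1 = true := ex3_a k84_pm_022 k85_pm_022

theorem s97_pm_022 : ∃ t, chk3 f_pm_022 t 5 3 1 = true := ex3_b s96_pm_022 k86_pm_022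

theorem s98_pm_022 : ∃ t, chk3 f_pm_022 t 4 6 1 = true := ex3_a k81_pm_022 k82_pm_022

theorem s99_pm_022 : ∃ t, chk3 f_pm_022 t 4 3 1 = true := ex3_b s98_pm_022 k83_pm_022

theorem s100_pm_022 : ∃ t, chk3 f_pm_022 t 2 3 1 = true := ex3_a s99_pm_022 s97_pm_022

theorem s101_pm_022 : ∃ t, chk3 f_pm_022 t 1 3 1 = true := ex3_a s100_pm_022 s95_pm_022

theorem s102_pm_022 : ∃ t, chk3 f_pm_022 t 5 23 1 = true := ex3_b k78_pm_022 k79_pm_022

theorem s103_pm_022 : ∃ t, chk3 f_pm_022 t 5 22 1 = true := ex3_b k76_pm_022 k77_pm_022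

theorem s104_pm_022 : ∃ t, chk3 f_pm_022 t 5 11 1 = true := ex3_b s103_pm_022 s102_pm_022

theorem s105_pm_022 : ∃ t, chk3 f_pm_022 t 4 11 3 = true := ex3_a k74_pm_022 k75_pm_022

theorem s106_pm_022 : ∃ t, chk3 f_pm_022 t 8 11 2 = true := ex3_b k71_pm_022 k72_pm_022

theorem s107_pm_022 : ∃ t, chk3 f_pm_022 t 4 11 2 = true := ex3_a s106_pm_022 k73_pm_022

theorem s108_pm_022 : ∃ t, chk3 f_pm_022 t 4 11 1 = true := ex3_c s107_pm_022 s105_pm_022

theorem s109_pm_022 : ∃ t, chk3 f_pm_022 t 2 11 1 = true := ex3_a s108_pm_022 s104_pm_022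

theorem s110_pm_022 : ∃ t, chk3 f_pm_022 t 5 21 1 = true := ex3_b k69_pm_022 k70_pm_022

theorem s111_pm_022 : ∃ t, chk3 f_pm_022 t 20 83 1 = true := ex3_a k65_pm_022 k66_pm_022

theorem s112_pm_022 : ∃ t, chk3 f_pm_022 t 10 83 1 = true := ex3_a s111_pm_022 k67_pm_022

theorem s113_pm_022 : ∃ t, chk3 f_pm_022 t 10 41 1 = true := ex3_b k64_pm_022 s112_pm_022

theorem s114_pm_022 : ∃ t, chk3 f_pm_022 t 10 20 1 = true := ex3_b k63_pm_022 s113_pm_022

theorem s115_pm_022 : ∃ t, chk3 f_pm_022 t 5 20 1 = true := ex3_a s114_pm_022 k68_pm_022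

theorem s116_pm_022 : ∃ t, chk3 f_pm_022 t 5 10 1 = true := ex3_b s115_pm_022 s110_pm_022

theorem s117_pm_022 : ∃ t, chk3 f_pm_022 t 9 21 1 = true := ex3_a k61_pm_022 k62_pm_022

theorem s118_pm_022 : ∃ t, chk3 f_pm_022 t 19 20 1 = true := ex3_a k59_pm_022 k60_pm_022

theorem s119_pm_022 : ∃ t, chk3 f_pm_022 t 18 20 3 = true := ex3_b k57_pm_022 k58_pm_022

theorem s120_pm_022 : ∃ t, chk3 f_pm_022 t 18 20 1 = true := ex3_c k56_pm_022 s119_pm_022

theorem s121_pm_022 : ∃ t, chk3 f_pm_022 t 9 20 1 = true := ex3_a s120_pm_022 s118_pm_022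

theorem s122_pm_022 : ∃ t, chk3 f_pm_022 t 9 10 1 = true := ex3_b s121_pm_022 s117_pm_022

theorem s123_pm_022 : ∃ t, chk3 f_pm_022 t 8 21 1 = true := ex3_a k54_pm_022 k55_pm_022

theorem s124_pm_022 : ∃ t, chk3 f_pm_022 t 8 20 3 = true := ex3_c k52_pm_022 k53_pm_022

theorem s125_pm_022 : ∃ t, chk3 f_pm_022 t 17 20 2 = true := ex3_b k50_pm_022 k51_pm_022

theorem s126_pm_022 : ∃ t, chk3 f_pm_022 t 8 20 2 = true := ex3_a k49_pm_022 s125_pm_022

theorem s127_pm_022 : ∃ t, chk3 f_pm_022 t 8 20 1 = true := ex3_c s126_pm_022 s124_pm_022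

theorem s128_pm_022 : ∃ t, chk3 f_pm_022 t 8 10 1 = true := ex3_b s127_pm_022 s123_pm_022

theorem s129_pm_022 : ∃ t, chk3 f_pm_022 t 4 10 1 = true := ex3_a s128_pm_022 s122_pm_022

theorem s130_pm_022 : ∃ t, chk3 f_pm_022 t 2 10 1 = true := ex3_a s129_pm_022 s116_pm_022

theorem s131_pm_022 : ∃ t, chk3 f_pm_022 t 2 5 1 = true := ex3_b s130_pm_022 s109_pm_022

theorem s132_pm_022 : ∃ t, chk3 f_pm_022 t 1 5 1 = true := ex3_a s131_pm_022 k80_pm_022

theorem s133_pm_022 : ∃ t, chk3 f_pm_022 t 19 39 7 = true := ex3_a k45_pm_022 k46_pm_022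

theorem s134_pm_022 : ∃ t, chk3 f_pm_022 t 19 39 3 = true := ex3_c k44_pm_022 s133_pm_022

theorem s135_pm_022 : ∃ t, chk3 f_pm_022 t 9 39 3 = true := ex3_a k43_pm_022 s134_pm_022

theorem s136_pm_022 : ∃ t, chk3 f_pm_022 t 9 77 3 = true := ex3_a k41_pm_022 k42_pm_022

theorem s137_pm_022 : ∃ t, chk3 f_pm_022 t 9 76 3 = true := ex3_a k39_pm_022 k40_pm_022

theorem s138_pm_022 : ∃ t, chk3 f_pm_022 t 9 38 3 = true := ex3_b s137_pm_022 s136_pm_022

theorem s139_pm_022 : ∃ t, chk3 f_pm_022 t 9 19 3 = true := ex3_b s138_pm_022 s135_pm_022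

theorem s140_pm_022 : ∃ t, chk3 f_pm_022 t 9 19 2 = true := ex3_a k37_pm_022 k38_pm_022

theorem s141_pm_022 : ∃ t, chk3 f_pm_022 t 9 19 1 = true := ex3_c s140_pm_022 s139_pm_022

theorem s142_pm_022 : ∃ t, chk3 f_pm_022 t 17 19 3 = true := ex3_a k35_pm_022 k36_pm_022

theorem s143_pm_022 : ∃ t, chk3 f_pm_022 t 32 19 3 = true := ex3_c k32_pm_022 k33_pm_022

theorem s144_pm_022 : ∃ t, chk3 f_pm_022 t 16 19 3 = true := ex3_a s143_pm_022 k34_pm_022

theorem s145_pm_022 : ∃ t, chk3 f_pm_022 t 8 19 3 = true := ex3_a s144_pm_022 s142_pm_022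

theorem s146_pm_022 : ∃ t, chk3 f_pm_022 t 35 19 2 = true := ex3_b k30_pm_022 k31_pm_022

theorem s147_pm_022 : ∃ t, chk3 f_pm_022 t 34 19 2 = true := ex3_c k28_pm_022 k29_pm_022

theorem s148_pm_022 : ∃ t, chk3 f_pm_022 t 17 19 2 = true := ex3_a s147_pm_022 s146_pm_022

theorem s149_pm_022 : ∃ t, chk3 f_pm_022 t 16 19 2 = true := ex3_b k26_pm_022 k27_pm_022

theorem s150_pm_022 : ∃ t, chk3 f_pm_022 t 8 19 2 = true := ex3_a s149_pm_022 s148_pm_022

theorem s151_pm_022 : ∃ t, chk3 f_pm_022 t 8 19 1 = true := ex3_c s150_pm_022 s145_pm_022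

theorem s152_pm_022 : ∃ t, chk3 f_pm_022 t 4 19 1 = true := ex3_a s151_pm_022 s141_pm_022

theorem s153_pm_022 : ∃ t, chk3 f_pm_022 t 37 18 1 = true := ex3_a k23_pm_022 k24_pm_022

theorem s154_pm_022 : ∃ t, chk3 f_pm_022 t 36 18 1 = true := ex3_a k21_pm_022 k22_pm_022

theorem s155_pm_022 : ∃ t, chk3 f_pm_022 t 18 18 1 = true := ex3_a s154_pm_022 s153_pm_022

theorem s156_pm_022 : ∃ t, chk3 f_pm_022 t 9 18 1 = true := ex3_a s155_pm_022 k25_pm_022

theorem s157_pm_022 : ∃ t, chk3 f_pm_022 t 35 18 2 = true := ex3_b k18_pm_022 k19_pm_022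

theorem s158_pm_022 : ∃ t, chk3 f_pm_022 t 17 18 2 = true := ex3_a k17_pm_022 s157_pm_022

theorem s159_pm_022 : ∃ t, chk3 f_pm_022 t 17 18 1 = true := ex3_c s158_pm_022 k20_pm_022

theorem s160_pm_022 : ∃ t, chk3 f_pm_022 t 33 18 3 = true := ex3_c k15_pm_022 k16_pm_022

theorem s161_pm_022 : ∃ t, chk3 f_pm_022 t 32 36 7 = true := ex3_a k12_pm_022 k13_pm_022

theorem s162_pm_022 : ∃ t, chk3 f_pm_022 t 32 18 7 = true := ex3_b s161_pm_022 k14_pm_022

theorem s163_pm_022 : ∃ t, chk3 f_pm_022 t 32 18 3 = true := ex3_c k11_pm_022 s162_pm_022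

theorem s164_pm_022 : ∃ t, chk3 f_pm_022 t 16 18 3 = true := ex3_a s163_pm_022 s160_pm_022

theorem s165_pm_022 : ∃ t, chk3 f_pm_022 t 16 18 1 = true := ex3_c k10_pm_022 s164_pm_022

theorem s166_pm_022 : ∃ t, chk3 f_pm_022 t 8 18 1 = true := ex3_a s165_pm_022 s159_pm_022

theorem s167_pm_022 : ∃ t, chk3 f_pm_022 t 4 18 1 = true := ex3_a s166_pm_022 s156_pm_022

theorem s168_pm_022 : ∃ t, chk3 f_pm_022 t 4 9 1 = true := ex3_b s167_pm_022 s152_pm_022

theorem s169_pm_022 : ∃ t, chk3 f_pm_022 t 2 9 1 = true := ex3_a s168_pm_022 k47_pm_022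

theorem s170_pm_022 : ∃ t, chk3 f_pm_022 t 1 9 1 = true := ex3_a s169_pm_022 k48_pm_022

theorem s171_pm_022 : ∃ t, chk3 f_pm_022 t 8 287 1 = true := ex3_a k5_pm_022 k6_pm_022

theorem s172_pm_022 : ∃ t, chk3 f_pm_022 t 4 287 1 = true := ex3_a s171_pm_022 k7_pm_022

theorem s173_pm_022 : ∃ t, chk3 f_pm_022 t 4 143 1 = true := ex3_b k4_pm_022 s172_pm_022

theorem s174_pm_022 : ∃ t, chk3 f_pm_022 t 4 71 1 = true := ex3_b k3_pm_022 s173_pm_022

theorem s175_pm_022 : ∃ t, chk3 f_pm_022 t 4 35 1 = true := ex3_b k2_pm_022 s174_pm_022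

theorem s176_pm_022 : ∃ t, chk3 f_pm_022 t 4 17 1 = true := ex3_b k1_pm_022 s175_pm_022

theorem s177_pm_022 : ∃ t, chk3 f_pm_022 t 4 8 1 = true := ex3_b k0_pm_022 s176_pm_022

theorem s178_pm_022 : ∃ t, chk3 f_pm_022 t 2 8 1 = true := ex3_a s177_pm_022 k8_pm_022

theorem s179_pm_022 : ∃ t, chk3 f_pm_022 t 1 8 1 = true := ex3_a s178_pm_022 k9_pm_022

theorem s180_pm_022 : ∃ t, chk3 f_pm_022 t 1 4 1 = true := ex3_b s179_pm_022 s170_pm_022

theorem s181_pm_022 : ∃ t, chk3 f_pm_022 t 1 2 1 = true := ex3_b s180_pm_022 s132_pm_022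

theorem s182_pm_022 : ∃ t, chk3 f_pm_022 t 1 1 1 = true := ex3_b s181_pm_022 s101_pm_022

theorem c_pm_022 : CertNX 0 536870912 1073741824 536870912 1046898278 26843546 3 true true false .pp 0 2 2
    ndN0q0 ndN3q2 pcN2 cut_pm_022 Ext.none :=
  certNX1 (fam := true) (s1 := true) (s2 := false) (a := 0) (b := 2) (c := 2) (cn := .pp) (n1 := ndN0q0) (n2 := ndN3q2) (pc := pcN2) (cut := cut_pm_022) (xt := Ext.none) (P1 := 0) (W1 := 536870912) (P2 := 1073741824) (W2 := 536870912) (P3 := 1046898278) (W3 := 26843546) (N0 := 3)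
    rfl (fun _ => rfl) s182_pm_022

end Pool.Agent.Strip051.G.IE1.Tab.C.NA03

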