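import Pool.Agent.Strip051.G.IE1.Tab

/-! # Certificates N19 (generated) -/

set_option linter.all false
set_option maxRecDepth 100000

namespace Pool.Agent.Strip051.G.IE1.Tab.C.NA03

open Pool.Agent.Strip051.PB Pool.Agent.Strip051.PB.T
open Pool.Agent.Strip051.G.IE1.Tab

noncomputable def f_pm_023 : ℕ → ℕ → ℕ → ℕ → Bool := onCell 0 536870912 1610612736 536870912 1046898278 26843546
    (rowNX 3 1 true true false .up 0 2 3 (qsf 0 536870912 1073741824 536870912 3) ndN0q0 ndN3q2 pcN3 Cut.none Ext.none)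

def k0_pm_023 : ∃ t, chk3 f_pm_023 t 2 1 1 = true :=
  ⟨(b (a (b (a (a (b (c (l 14169840) (a (c (l 14034608) (l 13981696)) (l 14117520))) (l 2)) (c (a (c (l 14407656) (l 14371352)) (l 14338152)) (l 14350976))) (a (a (l 14589296) (l 14887040)) (l 15354008))) (a (l 2) (b (a (l 2) (l 15354008)) (l 2)))) (b (a (a (l 15794952) (l 16158184)) (b (a (l 16496704) (l 16754176)) (l 16544072))) (b (a (l 15979656) (l 16627952)) (a (l 15979656) (l 16627952))))) (b (a (l 2) (b (a (l 2) (b (l 16627952) (l 2))) (l 2))) (l 2))), by decide +kernel⟩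

def k1_pm_023 : ∃ t, chk3 f_pm_023 t 3 1 1 = true :=
  ⟨(a (b (b (a (b (a (l 16777160) (b (a (l 16755272) (l 16693712)) (l 16777128))) (l 16777216)) (b (b (a (l 16527416) (a (l 16347608) (l 16224760))) (a (b (l 16693712) (l 16755272)) (l 16506440))) (b (a (l 16777128) (b (l 16693712) (l 16755272))) (l 16777160)))) (c (l 16777216) (l 16777216))) (b (b (c (l 16777208) (l 16777208)) (b (l 16777168) (l 16777192))) (b (b (b (l 16777216) (l 2)) (l 2)) (l 2)))) (b (b (b (a (a (b (a (l 16359456) (l 16455400)) (a (l 16347608) (l 16266704))) (b (a (b (l 16339088) (l 16540528)) (b (l 16155904) (l 16360056))) (a (l 16359456) (l 16476376)))) (a (b (b (a (c (l 15755432) (l 15843288)) (l 15709632)) (a (l 16155904) (c (l 15776408) (l 15843288)))) (a (b (l 16360056) (l 16540528)) (b (l 16155904) (l 16360056)))) (b (c (a (l 15700672) (b (l 15563208) (l 15667520))) (a (l 15633800) (l 15297272))) (b (a (c (l 15797376) (l 15843288)) (l 15709632)) (a (l 16155904) (c (l 15797376) (l 15843288))))))) (a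 (b (a (l 16527416) (a (l 16347608) (l 16287672))) (a (b (l 16693712) (l 16755272)) (l 16527416))) (b (a (a (l 16359456) (l 16476376)) (a (b (l 16360056) (l 16540528)) (b (l 16155904) (l 16360056)))) (a (a (l 16347608) (l 16287672)) (a (l 16359456) (l 16476376)))))) (a (b (a (l 16777160) (b (a (l 16755272) (l 16693712)) (l 16777128))) (l 16777216)) (b (a (b (l 16527416) (a (l 16755272) (l 16693712))) (b (a (l 16347608) (l 16245728)) (l 16527416))) (a (l 16777160) (b (a (l 16755272) (l 16693712)) (l 16777128)))))) (b (b (l 16777200) (b (l 16777152) (l 16777160))) (b (c (b (l 16776720) (l 16762472)) (b (l 16776696) (l 16761960))) (l 4))))), by decide +kernel⟩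

theorem s2_pm_023 : ∃ t, chk3 f_pm_023 t 1 1 1 = true := ex3_a k0_pm_023 k1_pm_023

theorem c_pm_023 : CertNX 0 536870912 1073741824 536870912 1046898278 26843546 3 true true false .up 0 2 3
    ndN0q0 ndN3q2 pcN3 Cut.none Ext.none :=
  certNX1 (fam := true) (s1 := true) (s2 := false) (a := 0) (b := 2) (c := 3) (cn := .up) (n1 := ndN0q0) (n2 := ndN3q2) (pc := pcN3) (cut := Cut.none) (xt := Ext.none) (P1 := 0) (W1 := 536870912) (P2 := 1073741824) (W2 := 536870912) (P3 := 1046898278) (W3 := 26843546) (N0 := 3)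
    rfl (fun _ => rfl) s2_pm_023

noncomputable def f_pm_033 : ℕ → ℕ → ℕ → ℕ → Bool := onCell 0 536870912 1610612736 536870912 1046898278 26843546
    (rowNX 3 1 true true false .pnn 0 3 3 (qsf 0 536870912 1610612736 536870912 3) ndN0q0 ndN3q3 pcN3 Cut.none Ext.none)

def k0_pm_033 : ∃ t, chk3 f_pm_033 t 1 1 1 = true :=
  ⟨(b (a (a (b (a (a (c (l 14169840) (a (c (l 14034608) (a (l 13948408) (l 14007128))) (c (l 179879562647) (l 14127464)))) (c (a (c (l 14407656) (l 14371352)) (l 208334464327)) (l 14350976))) (a (a (l 14589296) (l 14887040)) (l 15354008))) (a (c (a (b (l 14169840) (l 14169840)) (c (a (a (l 14370728) (l 14440848)) (l 14513400)) (b (l 14422488) (l 14422488)))) (b (a (a (c (l 14034608) (l 13981696)) (l 14117520)) (l 14350976)) (a (a (c (l 14034608) (l 13981696)) (c (l 14165704) (l 14127464))) (l 14350976)))) (b (a (l 14693480) (l 15354008)) (a (c (l 14728656) (l 14707832)) (l 15354008))))) (b (a (l 15790912) (l 1)) (b (a (l 15979656) (l 16627952)) (a (l 15979656) (l 16627952)))))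 (b (l 1) (a (l 327524810759) (l 1)))) (b (b (a (a (a (c (a (l 14169832) (c (a (l 14407656) (l 14555336)) (l 14422480))) (a (c (a (l 14034592) (l 14165704)) (b (l 13998992) (l 13915088))) (l 14350976))) (c (a (l 14728656) (l 15378680)) (l 14761664))) (a (b (l 15979656) (l 15979648)) (b (l 16627952) (l 16627936)))) (a (c (l 16777208) (l 16777208)) (l 1))) (b (a (a (a (l 4) (c (a (l 14728656) (l 15378680)) (l 15013320))) (a (l 15979648) (l 16627928))) (a (l 16777168) (l 1))) (a (a (l 4) (a (l 90964329799) (c (l 16630536) (l 16625368)))) (a (l 16777192) (l 356515839479))))) (a (a (l 4) (l 4)) (b (a (b (c (l 16776720) (l 16776696)) (l 4)) (c (b (l 16776720) (l 16762472)) (b (l 16776696) (l 16761960)))) (l 4))))), by decide +kernel⟩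

theorem c_pm_033 : CertNX 0 536870912 1610612736 536870912 1046898278 26843546 3 true true false .pnn 0 3 3
    ndN0q0 ndN3q3 pcN3 Cut.none Ext.none :=
  certNX1 (fam := true) (s1 := true) (s2 := false) (a := 0) (b := 3) (c := 3) (cn := .pnn) (n1 := ndN0q0) (n2 := ndN3q3) (pc := pcN3) (cut := Cut.none) (xt := Ext.none) (P1 := 0) (W1 := 536870912) (P2 := 1610612736) (W2 := 536870912) (P3 := 1046898278) (W3 := 26843546) (N0 := 3)
    rfl (fun _ => rfl) k0_pm_033

noncomputable def cut_pm_101 : Cut := Cut.of [[⟨0, 1, 0, 67108864⟩, ⟨1, 0, 0, 67108864⟩, ⟨2, 1, 0, 67108864⟩, ⟨3, 0, 0, 1233125376⟩]]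

noncomputable def f_pm_101 : ℕ → ℕ → ℕ → ℕ → Bool := onCell 536870912 536870912 0 536870912 1046898278 26843546
    (rowNX 3 2 true true false .npn 1 0 1 (qsf 536870912 536870912 0 536870912 1) ndN0q1 ndN3q0 pcN1 cut_pm_101 Ext.none)

def k0_pm_101 : ∃ t, chk3 f_pm_101 t 1 1 1 = true :=
  ⟨(a (l 3) (a (l 3) (a (b (l 3) (l 3)) (a (b (l 3) (l 3)) (a (b (b (l 3) (l 3)) (l 3)) (a (b (b (l 3) (l 3)) (l 3)) (a (b (b (b (l 3) (l 3)) (l 3)) (b (l 3) (l 3))) (a (b (b (b (l 3) (l 3)) (b (l 3) (l 3))) (b (l 3) (l 3))) (b (b (b (b (l 6) (b (l 6) (b (l 6) (b (l 6) (a (l 3) (a (l 3) (a (l 3) (c (l 189679972167) (l 14314952))))))))) (a (l 3) (a (b (l 3) (l 3)) (b (c (b (b (l 14871792) (l 14892616)) (l 14982408)) (b (c (l 14536112) (l 14305208)) (l 14709544))) (c (b (b (l 15117256) (l 15141640)) (l 15124136)) (b (b (l 14944600) (l 14992096)) (l 14983312))))))) (a (b (l 3) (l 3)) (b (b (c (b (l 15113248) (l 15183744)) (b (c (l 15016792) (l 14950992)) (l 15081744))) (c (l 15260488) (l 15182496)))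 (b (c (l 15356288) (l 15299000)) (c (l 15410040) (l 15361400)))))) (b (c (b (l 15412080) (l 15412088)) (b (l 15362992) (l 15363000))) (c (l 15411944) (b (l 15363008) (l 15363008))))))))))))), by decide +kernel⟩

theorem c_pm_101 : CertNX 536870912 536870912 0 536870912 1046898278 26843546 3 true true false .npn 1 0 1
    ndN0q1 ndN3q0 pcN1 cut_pm_101 Ext.none :=
  certNX2 (fam := true) (s1 := true) (s2 := false) (a := 1) (b := 0) (c := 1) (cn := .npn) (n1 := ndN0q1) (n2 := ndN3q0) (pc := pcN1) (cut := cut_pm_101) (xt := Ext.none) (P1 := 536870912) (W1 := 536870912) (P2 := 0) (W2 := 536870912) (P3 := 1046898278) (W3 := 26843546) (N0 := 3)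
    rfl (fun _ => rfl) k0_pm_101

noncomputable def cut_pm_102 : Cut := Cut.of [[⟨0, 1, 0, 67108864⟩, ⟨1, 0, 0, 67108864⟩, ⟨2, 1, 0, 67108864⟩, ⟨3, 0, 0, 1233125376⟩]]

noncomputable def f_pm_102 : ℕ → ℕ → ℕ → ℕ → Bool := onCell 536870912 536870912 1073741824 536870912 1046898278 26843546
    (rowNX 3 1 true true false .npp 1 0 2 (qsf 536870912 536870912 0 536870912 2) ndN0q1 ndN3q0 pcN2 cut_pm_102 Ext.none)

def k0_pm_102 : ∃ t, chk3 f_pm_102 t 2 8 1 = true :=
  ⟨(b (b (c (a (b (a (l 15463792) (l 15464160)) (a (l 15566192) (l 15567536))) (b (a (l 15464552) (b (l 15438144) (l 15503120))) (a (l 15569048) (c (l 15590208) (l 15554256))))) (b (a (c (b (a (l 15401072) (l 15401328)) (a (l 15456568) (l 15457712))) (b (b (c (l 15370048) (c (l 15357744) (a (l 15263648) (l 15347584)))) (a (l 15351856) (l 15394120))) (a (l 15416752) (l 15417240)))) (c (b (a (l 15401600) (l 15401904)) (a (l 15458992) (l 15460472))) (b (b (c (l 15370544) (c (l 15358264) (a (l 15347640) (l 15326736)))) (a (l 15394480)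 (l 15394896))) (a (l 15417784) (l 15418424))))) (a (c (a (l 15497928) (l 15499512)) (a (l 15446256) (l 15446984))) (c (a (l 15501288) (l 15503336)) (a (l 15447856) (l 15448912)))))) (a (c (c (l 15663792) (l 15605136)) (c (a (l 15550776) (l 15551080)) (l 15513736))) (c (a (l 15506760) (c (l 15663488) (l 15606184))) (c (a (l 15551408) (l 15551808)) (l 15514968))))) (a (c (c (b (l 15688856) (a (l 15695784) (l 15682736))) (b (a (l 15637952) (l 15633736)) (a (l 15662136) (l 15649984)))) (a (b (l 15600672) (l 125188930983)) (b (l 15598712) (l 15566736)))) (b (c (c (l 15678056) (a (l 15627968) (c (l 15621176) (l 15606144)))) (a (l 15596264) (l 15593104))) (c (c (a (l 15668232) (c (l 15659760) (l 15631560))) (a (l 15657368) (c (l 15623856) (l 15616880)))) (a (l 15639080) (l 15592256)))))), by decide +kernel⟩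

def k1_pm_102 : ∃ t, chk3 f_pm_102 t 2 9 1 = true :=
  ⟨(a (a (a (l 2) (b (b (c (c (l 15793824) (l 15777392)) (l 15750344)) (l 2)) (l 2))) (b (c (c (b (l 15763296) (c (l 15892904) (l 15904104))) (b (c (l 15749928) (l 15746504)) (c (l 15901672) (l 15894864)))) (a (l 15632848) (l 15630672))) (b (c (c (b (c (l 15830784) (l 15774848)) (c (l 15913128) (l 15892912))) (l 15922184)) (l 15752968)) (a (l 2) (c (l 15671216) (l 15632400)))))) (b (c (b (a (c (c (l 15718312) (l 15722560)) (c (l 15723032) (l 15675360))) (c (c (l 15650720) (l 15526392)) (c (l 15487256) (l 15678080)))) (a (c (c (l 15721944) (l 15722096)) (l 15834704)) (c (c (b (l 15781360) (l 15798056)) (l 15775552)) (l 15762464)))) (b (a (l 15692888) (l 15654080)) (a (l 15809976) (l 15735848)))) (c (b (a (b (c (c (a (l 15922952) (l 15864312)) (l 15880432)) (l 15868728)) (l 15786784)) (b (l 15669464) (l 15671584))) (a (l 15584960) (l 15435896))) (b (a (l 15611360) (b (l 15739120) (l 15632776))) (a (l 15543112) (l 15410520)))))),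 by decide +kernel⟩

def k2_pm_102 : ∃ t, chk3 f_pm_102 t 6 32 2 = true :=
  ⟨(a (b (a (b (l 15439072) (l 15504072)) (b (a (l 15416952) (l 15369368)) (c (l 15399352) (l 15457408)))) (a (c (l 15591672) (l 15555840)) (c (a (b (l 15566616) (l 15611792)) (l 15558656)) (a (l 15446728) (l 15519816))))) (b (a (c (b (l 15318544) (l 15401888)) (b (l 15281480) (l 15366776))) (a (b (c (l 15253192) (l 15204832)) (c (l 15346048) (l 15301048))) (b (a (l 15170064) (l 15168480)) (c (l 15306848) (l 15251848))))) (a (c (b (l 15474224) (l 15530040)) (b (l 15433408) (l 15482216))) (c (a (b (l 15424528) (l 15483640)) (b (a (l 15396464) (l 15404024)) (l 15513824))) (a (b (l 15374768) (l 15427504)) (b (l 15342520) (l 15410040))))))), by decide +kernel⟩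

def k3_pm_102 : ∃ t, chk3 f_pm_102 t 6 32 3 = true :=
  ⟨(b (a (c (b (a (l 15402808) (l 15350536)) (a (l 15461472) (c (l 15434568) (l 15413856)))) (b (c (a (l 15380728) (l 15220744)) (b (a (c (l 15358248) (l 15221832)) (c (l 15297608) (b (l 15279808) (l 15297776)))) (a (l 15378456) (l 15325568)))) (a (l 15418648) (c (l 15390440) (l 15353848))))) (c (b (a (l 15242728) (a (l 15154568) (l 15076536))) (a (l 15260504) (a (c (l 15263728) (l 15233328)) (c (l 15206976) (l 15171520))))) (b (c (a (b (l 15192960) (l 15236192)) (b (a (l 15093024) (l 14999608)) (a (l 15144168) (l 15060664)))) (b (a (b (b (l 15114888) (l 15173104)) (l 15184952)) (c (a (l 15071872) (l 14973528)) (b (a (c (l 15050432) (l 15041528)) (c (l 14946448) (b (l 14929800) (l 14944736)))) (a (l 15069792) (l 14970008))))) (a (l 15206632) (a (l 15108728) (l 15018968))))) (a (c (l 15282936) (l 15241584)) (c (a (l 15199048) (l 15131824)) (a (l 15152776) (l 15080504))))))) (a (c (a (l 15504952) (a (l 15500392) (l 15465936))) (a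 (l 15449584) (a (l 15444104) (l 15406568)))) (c (a (c (l 15414920) (l 15376440)) (a (c (l 15351776) (l 15309904)) (c (l 15321208) (l 15276504)))) (a (c (l 15340680) (l 15314264)) (a (c (l 15267984) (l 15244944)) (c (a (l 15226928) (l 15235024)) (l 15204032))))))), by decide +kernel⟩

def k4_pm_102 : ∃ t, chk3 f_pm_102 t 6 33 1 = true :=
  ⟨(a (c (c (a (l 15663376) (b (a (l 15652672) (l 15638328)) (l 15609240))) (a (l 15606592) (b (a (l 15599976) (l 15584400)) (l 15608696)))) (c (a (l 15552032) (b (a (l 15537504) (l 15394528)) (l 15495416))) (a (l 15516056) (l 15507592)))) (c (c (a (b (l 15588384) (l 15631296)) (b (a (l 15545768) (a (l 15533056) (l 15559896))) (a (l 15592344) (l 15599560)))) (a (b (l 15528792) (l 15564856)) (b (a (l 15478744) (b (l 15459032) (l 15491904))) (a (l 15519152) (l 15524064))))) (a (c (b (c (l 15471872) (l 15436792)) (l 15508944)) (l 15445816)) (c (b (a (c (l 15417248) (l 15376768)) (c (l 15410728) (a (l 15354496) (l 15383464)))) (a (l 15456984) (c (l 15301056)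 (l 15446880)))) (a (l 15387104) (l 15380120)))))), by decide +kernel⟩

def k5_pm_102 : ∃ t, chk3 f_pm_102 t 6 17 1 = true :=
  ⟨(a (c (b (c (l 15604672) (c (b (l 15626528) (l 15619304)) (b (l 15600288) (l 15607648)))) (c (c (b (l 15651832) (a (l 15628376) (l 15615224))) (b (l 15625888) (l 15612304))) (c (l 15545208) (b (l 15607120) (l 15589656))))) (b (c (l 15598784) (l 15566144)) (l 15572712))) (c (b (c (a (a (b (l 15657408) (l 15650408)) (l 15619760)) (c (a (l 15626112) (l 15636056)) (a (l 15586816) (l 15596888)))) (a (b (c (l 15595984) (l 15443608)) (c (a (l 15610872) (l 15588728)) (l 15585448))) (b (c (l 15557048) (a (l 15525952) (l 15533192))) (c (a (l 15564368) (l 15573688)) (l 15549696))))) (a (c (b (c (a (l 15640296) (l 15622944)) (a (l 15616776) (l 15603528))) (c (b (l 15609032) (l 15595960)) (l 15592776))) (c (b (l 15597720) (l 15578136)) (l 15576688))) (c (b (c (l 15544520) (a (l 15582640) (l 15550568))) (c (a (l 15498496) (b (l 15598960) (l 15580760))) (l 15568960))) (l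 15538256)))) (b (a (b (c (l 15554008) (l 15522184)) (l 15555304)) (a (l 15500280) (l 15506088))) (a (a (l 15558208) (l 15523088)) (c (l 15534152) (l 15508728)))))), by decide +kernel⟩

def k6_pm_102 : ∃ t, chk3 f_pm_102 t 14 64 2 = true :=
  ⟨(a (b (a (c (l 15219160) (l 15153768)) (a (l 15208344) (a (b (l 15181328) (l 15257024)) (b (l 15147632) (l 15245064))))) (b (a (l 15277352) (a (l 15305264) (l 15365456))) (c (l 15382312) (l 15303304)))) (a (b (b (c (l 15104376) (l 14977912)) (l 15150168)) (b (l 15251760) (a (c (l 15409808) (l 15338304)) (l 15426744)))) (b (c (a (l 15105032) (b (l 15060608) (l 15169304))) (a (l 14927704) (l 14888328))) (c (l 15311448) (b (l 15096088) (l 15212136)))))), by decide +kernel⟩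

def k7_pm_102 : ∃ t, chk3 f_pm_102 t 14 64 3 = true :=
  ⟨(b (a (a (c (l 15086320) (c (b (l 15002576) (l 15069936)) (b (c (l 14974504) (b (c (l 14944696) (b (l 14926448) (l 14943136))) (l 14971280))) (l 15025720)))) (a (c (l 15103392) (c (b (l 15014080) (l 15087048)) (b (c (l 14984496) (b (c (l 14952320) (b (l 14932608) (l 14950880))) (l 14981640))) (l 15041016)))) (c (b (l 15041032) (l 15140352)) (c (b (l 14978960) (a (l 15097256) (l 15071432))) (b (c (b (l 14921664) (l 14978576)) (b (b (b (l 14878864) (l 14896744)) (l 14916272)) (l 14952424))) (c (l 15045280) (l 15014656))))))) (a (c (b (l 14850088) (l 14982320)) (c (b (l 14752944) (l 14892872)) (b (c (l 14702200) (b (b (b (l 14603048) (l 14625256)) (l 14652104)) (l 14704056))) (c (l 14841872) (l 14801176))))) (c (b (l 14623824) (l 14780928)) (c (b (l 14460872) (l 14632456)) (b (c (b (l 14331408) (l 14424880)) (b (b (b (l 14237304) (l 14263960)) (l 14298504)) (l 14365448))) (c (l 14551480) (l 14491056))))))) (a (c (b (a (l 15183592)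 (c (l 15233616) (l 15196808))) (c (l 15275096) (l 15236456))) (c (b (a (l 15123832) (l 15152136)) (l 15188672)) (a (l 15096416) (c (b (l 15109024) (l 15164352)) (l 15121408))))) (c (a (b (l 15101856) (c (l 15233896) (l 15181784))) (c (l 15033016) (b (l 14880376) (l 15011832)))) (b (c (a (l 15013784) (l 14783944)) (a (l 14942232) (l 14675824))) (c (a (l 14993624) (l 14917080)) (a (l 15055088) (l 14821176))))))), by decide +kernel⟩

def k8_pm_102 : ∃ t, chk3 f_pm_102 t 14 65 1 = true :=
  ⟨(c (a (c (b (a (l 15434672) (l 15485080)) (l 15542480)) (b (c (l 15415488) (l 15382784)) (l 15480224))) (b (a (c (a (b (l 15484976) (a (l 15549128) (l 15552040))) (l 15495296)) (a (b (l 15418408) (l 15484448)) (l 15408864))) (c (b (l 15451064) (l 15534656)) (c (l 15398592) (l 15331784)))) (a (c (a (l 15621808) (l 15630600)) (a (l 15560656) (l 15558632))) (c (l 15642584) (l 15536248))))) (a (c (c (b (l 15346528) (l 15422544)) (b (l 15302624) (l 15376392))) (c (b (c (l 15265136) (l 15236248)) (l 15202984))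 (l 15265496))) (c (a (b (a (c (l 15392688) (l 15345992)) (l 15307008)) (a (c (l 15503880) (l 15458112)) (c (l 15493696) (l 15442312)))) (c (b (l 15261288) (l 15445352)) (b (l 15183896) (l 15376264)))) (a (c (a (b (c (l 15306280) (b (l 15246008) (l 15320808))) (b (l 15385880) (l 15444624))) (b (l 15212088) (l 15263992))) (a (l 15321320) (l 15270696))) (c (b (c (l 15119192) (l 15072304)) (l 15243320)) (l 15151832)))))), by decide +kernel⟩

def k9_pm_102 : ∃ t, chk3 f_pm_102 t 15 32 1 = true :=
  ⟨(a (a (b (b (a (b (a (c (c (a (b (l 15069440) (l 15121288)) (l 15125568)) (l 14832088)) (c (l 14550672) (c (l 14337448) (c (b (l 14180416) (l 14276584)) (b (b (b (l 14068536) (l 14095432)) (l 14130280)) (l 14200336)))))) (l 6)) (c (a (c (a (l 15200432) (l 15224544)) (l 14964200)) (c (l 15274664) (l 15012232))) (c (a (l 14713104) (l 14747032)) (c (a (l 14497808) (l 14542048)) (c (a (l 14414464) (l 14432288)) (l 14348168)))))) (l 6)) (b (a (c (a (l 15204896) (c (a (l 15351456) (l 15385536)) (l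 15134000))) (c (c (l 15047408) (l 14823096)) (c (c (l 14729576) (l 14662992)) (c (a (l 14584080) (l 14589656)) (l 14529952))))) (l 6)) (c (a (c (l 15436784) (c (l 15287320) (l 15185344))) (c (l 15573560) (l 15354344))) (c (a (c (l 15079216) (l 14968464)) (c (l 15183568) (l 15063488))) (c (a (l 14846000) (l 14931296)) (a (l 14729184) (l 14805320))))))) (a (c (c (b (l 15574512) (l 15734024)) (b (l 15403360) (l 15595352))) (c (c (l 15377016) (b (l 15168192) (l 15394112))) (c (b (c (l 15086632) (l 15028696)) (l 15315000)) (l 15115320)))) (c (b (b (a (c (l 15620184) (l 15423088)) (l 6)) (c (a (l 15704480) (l 15783160)) (l 15563632))) (c (a (l 15821704) (b (l 15858744) (l 15930368))) (a (l 15671696) (l 15741448)))) (c (b (c (a (l 15328192) (l 15402272)) (b (l 15193832) (l 15316464))) (c (l 15581048) (l 15488264))) (b (c (c (l 15170072) (b (l 15034312) (l 15180200))) (l 15041536)) (l 15366064)))))) (a (b (l 6) (b (l 6) (c (c (l 16030688) (l 15882312)) (c (c (l 15759544) (l 15668128)) (l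 15548144))))) (l 6))) (l 6)), by decide +kernel⟩

def k10_pm_102 : ∃ t, chk3 f_pm_102 t 7 66 1 = true :=
  ⟨(a (c (a (c (b (l 15609088) (l 15661800)) (c (l 15587872) (l 15549168))) (a (c (b (a (l 15697720) (l 15729960)) (l 15714408)) (b (a (l 15636256) (c (l 15686304) (l 15648304))) (l 15714360))) (c (b (l 15762448) (l 15853744)) (b (l 15673232) (l 15778752))))) (a (c (c (l 15506984) (c (l 15309304) (l 15349840))) (l 15437352)) (a (c (b (a (l 15554632) (c (l 15607240) (c (l 15574040) (l 15556208)))) (c (l 15660832) (l 15631984))) (a (l 15544088) (l 15580968))) (c (c (l 15655784) (b (l 15491320) (l 15678064))) (l 15566848))))) (a (a (c (c (b (l 15925680) (l 16032048)) (b (l 15807072) (l 15934896))) (c (c (l 15719272) (b (c (l 15650624) (l 15618928)) (l 15805608))) (l 15659568))) (a (c (c (b (a (l 16117424) (l 16213160)) (a (l 16230800) (l 16306272))) (b (a (l 15995192) (l 16098864)) (l 16183720))) (c (b (c (l 15944712) (c (l 15889752) (l 15857784))) (c (l 16103616) (l 16057632))) (b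 (l 15792408) (l 16006984)))) (b (l 6) (b (l 6) (b (l 6) (c (c (l 16501824) (l 16433688)) (l 16344704))))))) (l 6))), by decide +kernel⟩

def k11_pm_102 : ∃ t, chk3 f_pm_102 t 7 67 1 = true :=
  ⟨(a (c (a (c (a (l 15675800) (l 15750032)) (a (l 15605960) (l 15685392))) (a (c (l 15835984) (l 15780008)) (c (a (b (l 15889720) (l 15905952)) (l 15963752)) (a (b (l 15834960) (l 15863896)) (l 15888384))))) (a (c (c (b (l 15575776) (l 15614936)) (l 15577264)) (l 15556128)) (a (c (b (l 15706304) (l 15758432)) (l 15714704)) (b (c (c (a (l 15793296) (l 15827904)) (l 15788536)) (l 15772160)) (a (l 15832496) (l 15903112)))))) (a (c (a (c (l 16062064) (l 15938072)) (a (c (l 16324656) (l 16276064)) (c (b (a (l 16498056) (l 16556384)) (a (l 16433288) (l 16451000))) (b (l 16446760) (l 16324408))))) (a (b (l 15938520) (l 16052928)) (a (l 16189000) (b (a (l 16386272) (l 16498688)) (l 16312888))))) (b (l 6) (a (a (a (a (c (c (l 16556384) (l 16508224)) (l 16477368)) (l 6)) (l 6)) (l 6)) (l 6))))), by decide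 +kernel⟩

def k12_pm_102 : ∃ t, chk3 f_pm_102 t 14 17 1 = true :=
  ⟨(b (c (a (c (b (a (l 15704488) (l 15788224)) (a (l 15706872) (l 15796960))) (b (c (l 15699896) (b (l 15666688) (l 15687136))) (c (b (l 15718616) (l 15722008)) (l 15708696)))) (c (b (a (l 15869984) (a (l 15850160) (b (l 15888832) (l 15811648)))) (c (l 15779832) (l 15761552))) (b (b (a (l 15741744) (c (l 15849536) (l 15828064))) (c (l 15809624) (l 15791888))) (a (l 15763136) (l 15713264))))) (a (b (a (l 15596832) (l 15701248)) (l 15690592)) (a (l 15657184) (b (b (l 15745344) (l 15751608)) (l 15686856))))) (c (c (a (b (c (l 15665296) (b (l 15717224) (l 15728184))) (c (b (l 15730960) (l 15710176)) (l 15713056))) (b (c (l 15556392) (l 15662960)) (a (l 15598792) (l 15534864)))) (a (l 15570440) (b (l 15647448) (l 15547048)))) (a (b (l 15706280) (l 15697272)) (b (l 15622696) (l 15393168))))), by decide +kernel⟩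

def k13_pm_102 : ∃ t, chk3 f_pm_102 t 15 34 1 = true :=
  ⟨(b (a (c (a (c (b (l 16045192) (l 15836096)) (c (l 15881728) (l 15925968))) (c (a (l 16093792) (c (l 16140032) (l 16263440))) (c (a (l 16102432) (l 16241768)) (l 15986208)))) (a (l 15779416) (a (l 16065776) (l 16209312)))) (a (a (c (c (c (a (c (l 16293576) (l 16301928)) (b (l 16563048) (l 16438424))) (a (l 16254784) (b (l 16528608) (l 16322416)))) (c (b (l 16462448) (l 16359488)) (l 16261872))) (b (l 16429128) (l 16333552))) (a (c (c (c (l 16525408) (l 16481376)) (c (l 16493080) (l 16457464))) (l 16445928)) (l 6))) (l 6))) (a (c (c (a (a (c (b (l 15755800) (l 15672120)) (l 15593064)) (c (l 15759464) (l 15735624))) (a (c (l 15859272) (l 15834104)) (c (l 15791456) (l 15973720)))) (a (a (l 15588120) (l 15710544)) (a (l 15811408) (l 15950560)))) (a (a (l 15558216) (l 15680664)) (a (l 15783576) (l 15926152)))) (a (c (c (a (c (a (c (l 16184272) (l 16151256)) (l 16218240)) (l 15938528)) (c (b (l 16355272) (l 16306160)) (a (l 16295976)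 (l 16372856)))) (a (l 16108744) (c (a (b (l 16335248) (l 16250024)) (l 16309320)) (a (l 16283120) (l 16210952))))) (a (l 16131264) (c (l 16173552) (l 16228160)))) (a (a (c (b (l 6) (c (l 16359136) (l 16347424))) (c (l 16313232) (l 16360848))) (l 6)) (l 6))))), by decide +kernel⟩

def k14_pm_102 : ∃ t, chk3 f_pm_102 t 15 35 1 = true :=
  ⟨(b (a (a (c (c (c (a (l 15580568) (l 15526664)) (a (l 15562096) (l 15505888))) (a (l 15543432) (l 15486064))) (a (l 15512272) (l 15431584))) (c (a (c (l 15549960) (l 15519456)) (c (l 15452368) (l 15654232))) (a (l 15486336) (l 15624480)))) (a (c (c (a (c (a (l 15866376) (l 15974200)) (a (l 15820072) (l 15920792))) (c (l 16086488) (l 15992432))) (a (l 15852784) (c (a (l 16025000) (l 16125304)) (l 15974048)))) (a (l 15827976) (l 16030928))) (c (c (a (b (l 16174368) (l 16057256)) (l 16205528)) (a (a (l 16104576) (l 16237048)) (l 16272920))) (a (c (a (c (l 16062064) (l 16171440)) (c (l 16239040) (l 16068216))) (l 16123352)) (c (l 16268608) (a (c (l 16253584)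 (l 16251000)) (c (l 16269688) (a (l 16258040) (l 16268528))))))))) (a (a (c (c (l 15413024) (l 15387560)) (l 15351656)) (c (a (c (b (l 15347480) (l 15250496)) (l 15279288)) (c (a (l 15284128) (l 15356824)) (l 15346056))) (a (l 15176800) (l 15308032)))) (c (a (c (a (c (a (l 15403736) (l 15656880)) (l 15448880)) (c (l 15767808) (l 15761672))) (a (l 15539568) (c (l 15506360) (l 15740968)))) (c (a (l 15808432) (b (l 16091688) (l 16030040))) (a (l 15887240) (l 16031776)))) (a (c (l 15616616) (l 15596184)) (a (c (a (l 15872200) (c (l 15969896) (l 15964448))) (l 15897416)) (c (a (l 16023240) (l 16098832)) (a (c (a (l 16025768) (l 16035992)) (l 16030176)) (c (l 16092256) (a (l 16076552) (l 16099176)))))))))), by decide +kernel⟩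

def k15_pm_102 : ∃ t, chk3 f_pm_102 t 6 9 1 = true :=
  ⟨(b (c (a (b (c (b (c (l 15640168) (l 15635776)) (c (l 15564272) (l 15671120))) (l 15638872)) (c (l 15697624) (l 15678776))) (b (a (c (b (c (l 15614016) (l 15598160)) (l 15630400)) (l 15600152)) (a (c (b (l 15581168) (l 15603632)) (l 15574176)) (c (l 15559160) (l 15579752)))) (a (c (l 15625688) (l 15605584)) (c (a (l 15585200) (b (l 15596760) (l 15558680))) (a (l 15564392) (l 15562176)))))) (a (b (c (l 15619040) (l 15598920)) (l 15524136)) (b (a (l 15506336) (a (b (l 15525496) (l 15551024)) (c (l 15558104) (l 15536136)))) (a (l 15574856) (a (l 15532576) (c (l 15542696) (l 15522904))))))) (c (a (b (b (c (l 15665832) (l 15646448)) (l 15538576)) (c (l 15321992) (l 15296608))) (b (b (a (c (l 15564480) (l 15543320)) (c (a (l 15507584) (l 15492832)) (l 15479696))) (a (l 15423720) (l 15350648))) (a (l 15181592) (c (l 15113416) (l 15085480))))) (a (b (b (l 15616800) (l 15495096)) (l 15257792)) (b (b (a (l 15510976) (l 15447384)) (l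 15339664)) (a (l 15125584) (l 15042752)))))), by decide +kernel⟩

def k16_pm_102 : ∃ t, chk3 f_pm_102 t 14 18 1 = true :=
  ⟨(c (b (a (c (b (l 15711464) (l 15692480)) (l 15636448)) (c (b (a (l 15532968) (l 15444432)) (a (l 15489624) (l 15365960))) (b (l 15471048) (l 15409880)))) (a (c (b (l 15648816) (l 15582520)) (l 15546664)) (c (b (l 15144744) (l 15241048)) (b (l 15331824) (l 15237920))))) (b (a (c (l 15692896) (l 15686264)) (b (a (l 15487280) (l 15389584)) (a (l 15441208) (l 15307176)))) (a (c (l 15599896) (l 15590000)) (b (c (l 15308856) (l 15285544)) (l 15159112))))), by decide +kernel⟩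

def k17_pm_102 : ∃ t, chk3 f_pm_102 t 30 18 1 = true :=
  ⟨(b (c (a (c (b (l 15315504) (l 15223640)) (l 15163432)) (b (a (l 15097144) (c (a (l 15120328) (b (l 15196624) (l 15100088))) (l 15115312))) (c (a (l 15075120) (l 15010672)) (l 15011904)))) (b (a (l 15251600) (a (l 15102696) (b (l 15103656) (l 15021248)))) (a (l 15155408) (l 14964856)))) (c (a (c (b (l 15104536) (l 14963728)) (b (l 15075408) (l 14932136))) (c (a (b (l 14947336) (l 14792096)) (b (l 14876704) (l 14714272))) (b (l 14878664) (l 14716960)))) (b (a (l 15030896) (l 14827944)) (a (l 14883840) (l 14661800))))), by decide +kernel⟩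

def k18_pm_102 : ∃ t, chk3 f_pm_102 t 31 18 1 = true :=
  ⟨(b (c (a (c (a (b (c (a (l 15193192) (l 15357872)) (a (l 15214288) (l 15329816))) (c (a (l 15048936) (l 15091328)) (a (l 15005240) (b (l 15111712) (l 14996304))))) (b (l 15293544) (c (l 15166136) (l 15157392)))) (a (b (l 15239728) (l 14962200)) (c (a (a (l 14996248) (l 15203216)) (l 15333408)) (b (l 15433472) (l 15125680))))) (c (b (a (l 15628368) (l 15814936)) (l 15159072)) (a (b (l 15619312) (l 15304696)) (b (l 15799064) (l 15478560))))) (a (b (c (l 15308512) (l 15282552)) (a (b (l 14998432) (l 14896984)) (l 14951712))) (c (a (c (a (l 15180632) (l 15498704)) (a (l 15387880) (l 15279288))) (b (l 15785896) (l 15459512))) (a (l 15271088) (a (b (l 15504104) (l 15361496)) (c (l 15659624) (b (l 15770696) (l 15476704)))))))) (c (a (c (a (c (b (a (l 14905136) (l 14910048)) (l 14735088)) (b (l 14875232) (l 14704400))) (b (b (a (l 14916456) (l 14952312)) (l 14825232)) (l 14683424))) (a (l 14601288) (b (c (a (l 14855536) (l 14885760))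 (a (l 14817976) (l 14861648))) (c (l 14664608) (l 14637584))))) (b (c (a (l 14979352) (l 15150720)) (a (c (l 14963840) (l 14953432)) (l 15122192))) (a (c (b (l 14730640) (l 14595432)) (a (l 14628064) (l 14641984))) (c (l 14770032) (l 14734304))))) (b (a (c (l 14746704) (l 14774584)) (a (c (c (a (l 14899528) (l 14978600)) (l 14918176)) (l 14890680)) (c (l 15096520) (a (l 15014888) (c (l 15118960) (l 15103136)))))) (a (l 14589512) (a (c (a (l 14593416) (c (l 14622056) (l 14604264))) (l 14565040)) (c (l 14701344) (a (l 14615496) (l 14450816)))))))), by decide +kernel⟩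

def k19_pm_102 : ∃ t, chk3 f_pm_102 t 14 19 1 = true :=
  ⟨(b (c (b (a (a (c (l 15547504) (l 15540712)) (b (l 15435384) (l 15381088))) (c (b (l 15181288) (l 15055752)) (l 14999488))) (a (a (l 15396592) (l 15259184)) (c (l 14988160) (l 14960336)))) (a (b (c (l 15473568) (l 15462240)) (l 15328904)) (b (c (l 15099224) (l 15072744)) (l 14917760)))) (a (c (c (a (l 15145144) (l 15027312)) (l 14891704)) (a (l 15111112) (l 14983128))) (c (c (a (l 14824280) (l 14613344)) (l 14688944)) (l 14620464)))), by decide +kernel⟩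

def k20_pm_102 : ∃ t, chk3 f_pm_102 t 30 19 1 = true :=
  ⟨(b (c (a (b (c (b (l 14847616) (l 14767224)) (l 14776048)) (l 14603112)) (b (c (a (l 14609664) (b (l 14574344) (l 14471312))) (b (l 14577464) (l 14474696))) (a (l 14365968) (c (l 14288136) (l 14242888))))) (b (a (l 14534952) (b (l 14518488) (l 14412912))) (a (l 14527240) (l 14228432)))) (c (a (c (l 14332600) (l 14290480)) (c (a (l 14024792) (b (l 14047160) (b (l 13879176) (l 13789080)))) (b (l 14063960) (l 13850560)))) (a (l 14226144) (b (l 13991056) (l 13772168))))), by decide +kernel⟩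

def k21_pm_102 : ∃ t, chk3 f_pm_102 t 31 19 1 = true :=
  ⟨(b (c (a (b (c (a (c (b (l 14589448) (a (l 14487984) (l 14483512))) (b (l 14557408) (l 14449464))) (b (l 14530400) (b (l 14447896) (l 14388312)))) (a (l 14454592) (c (b (l 14509424) (l 14395768)) (l 14424608)))) (c (a (c (l 14295480) (l 14260720)) (l 14225648)) (a (l 14207528) (c (l 14200352) (l 14168976))))) (b (c (b (a (l 14481352) (l 14491024)) (b (l 14382424) (l 14315808))) (a (b (l 14450880) (l 14331704)) (b (l 14449976) (l 14290704)))) (c (l 14147544) (l 14105344)))) (a (b (c (l 14397176) (l 14354488)) (l 14118528)) (b (a (c (c (a (l 14378008) (l 14353544)) (l 14338928)) (l 14303320)) (c (b (l 14411616) (l 14249288)) (c (a (l 14289824) (l 14306808)) (b (l 14354872) (l 14167688))))) (c (a (l 13992808) (l 14032792)) (a (l 14031144) (a (l 13987760) (l 13968856))))))) (c (a (c (a (b (c (l 14043264) (l 14006176)) (c (a (l 13829720) (l 13824648)) (a (l 13774824) (l 13782376)))) (b (c (l 13974968) (l 13955064)) (c (l 13784024)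 (l 13762176)))) (a (b (l 13949448) (l 13729312)) (b (c (l 13934688) (l 13900824)) (c (l 13739848) (l 13704040))))) (b (c (b (c (l 13962944) (l 13938880)) (l 13858048)) (a (l 13870960) (l 13843992))) (l 13717408))) (a (b (l 13845160) (c (l 13668488) (l 13611992))) (c (a (b (c (l 13830000) (l 13804608)) (l 13634336)) (b (l 13793712) (l 13630208))) (a (l 13681136) (b (a (l 13732920) (l 13730472)) (l 13569800))))))), by decide +kernel⟩

def k22_pm_102 : ∃ t, chk3 f_pm_102 t 2 5 1 = true :=
  ⟨(a (a (l 2) (b (b (b (c (l 15448360) (l 15401712)) (l 2)) (l 2)) (l 2))) (b (b (b (c (a (l 15318768) (l 15005640)) (a (l 15267576) (l 15117112))) (c (b (a (l 15233592) (l 15090816)) (a (l 15327896) (l 15201664))) (b (a (l 15179408) (l 15031624)) (a (l 15277024) (l 15146360))))) (c (a (b (l 15540296) (l 15850856)) (b (l 15430544) (l 15766680))) (a (l 15529048) (l 15323392)))) (b (c (b (a (l 16189888) (l 16069976)) (a (l 2) (l 16537520))) (b (a (l 16169272) (l 16110496)) (l 16453944))) (c (b (l 16859832)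 (l 16777216)) (l 16776568))))), by decide +kernel⟩

def k23_pm_102 : ∃ t, chk3 f_pm_102 t 6 10 1 = true :=
  ⟨(b (b (a (c (c (l 15021720) (l 14991104)) (l 14944280)) (c (a (l 14799560) (c (l 14743280) (l 14751520))) (a (l 14795272) (l 14699960)))) (a (c (b (l 14927112) (c (l 15071968) (l 15042224))) (b (l 14862176) (l 14996736))) (b (c (a (l 14786944) (l 14695528)) (l 14628736)) (c (a (l 14933520) (b (l 14811360) (l 14895408))) (a (l 14868808) (l 14785184)))))) (a (b (c (l 15137408) (l 15253456)) (c (a (l 15696720) (l 15571488)) (l 15572192))) (b (c (a (b (l 15106488) (l 15294848)) (b (l 15055032) (l 15288776))) (a (l 15147680) (l 15040968))) (a (c (l 15428616) (l 15597680)) (l 15626032))))), by decide +kernel⟩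

def k24_pm_102 : ∃ t, chk3 f_pm_102 t 7 10 1 = true :=
  ⟨(b (a (b (a (c (c (l 14635160) (l 14813464)) (l 14797216)) (b (c (a (l 14553120) (l 14323352)) (l 14344240)) (c (a (b (l 14431112) (c (l 14372568) (l 14342024))) (b (l 14196248) (l 14038440))) (a (l 14332064) (l 14092984))))) (b (a (c (a (l 14730712) (c (l 14690408) (l 14674520))) (l 14727672)) (a (c (b (l 14378152) (l 14501088)) (l 14394248)) (l 14200744))) (a (c (b (a (l 14858160) (l 14821680)) (l 15021984)) (l 14701032)) (l 14525304)))) (a (b (c (a (b (c (l 14039504) (l 14013888)) (b (l 13946648) (l 13901160))) (a (b (b (l 13820704) (l 13766976)) (l 13701472)) (l 13634192))) (a (b (l 13943376) (l 13828960)) (b (l 13635680) (l 13532192)))) (a (l 14060688) (c (l 13821904) (l 13730024)))) (a (b (c (c (a (c (l 13659120) (l 13618328)) (l 13584560)) (a (l 13555984) (l 13528536))) (l 13449080)) (c (c (a (l 13787528) (l 13728760)) (l 13691280)) (l 13599672))) (c (b (c (l 13538384) (l 13483888)) (l 13626952)) (b (a (c (l 13425536)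 (l 13367088)) (c (l 13414568) (a (l 13347200) (l 13348344)))) (a (l 13258704) (c (l 13517600) (l 13202504)))))))) (a (b (a (l 15264072) (l 14846544)) (l 15329968)) (a (a (b (l 14472008) (l 14888016)) (c (a (l 14497544) (l 14392208)) (l 14359872))) (c (a (c (a (l 14399808) (l 14351992)) (l 14320024)) (l 14265488)) (a (l 14245296) (a (c (l 14211168) (l 14166704)) (c (l 14177592) (a (l 14130880) (l 14118320))))))))), by decide +kernel⟩

def k25_pm_102 : ∃ t, chk3 f_pm_102 t 3 11 1 = true :=
  ⟨(a (b (a (b (c (b (l 15988896) (l 16208248)) (l 16077520)) (a (l 16527416) (l 16527952))) (a (l 16307536) (l 16261736))) (a (l 16776560) (l 16767840))) (a (b (a (l 16138264) (l 15824416)) (a (l 16519008) (l 16196424))) (a (b (a (l 15490080) (l 14982320)) (a (l 15887832) (l 15606912))) (b (a (c (a (l 15109648) (c (l 15120848) (l 15093288))) (l 15057000)) (c (l 14902032) (a (b (l 14782040) (l 15089536)) (c (l 14985608) (a (l 14951096) (l 14944440)))))) (a (c (c (l 15544400) (l 15525040)) (l 15486408))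 (c (l 15446952) (a (l 15406544) (c (l 15391816) (l 15365064))))))))), by decide +kernel⟩

def k26_pm_102 : ∃ t, chk3 f_pm_102 t 1 3 1 = true :=
  ⟨(b (a (a (l 2) (a (l 2) (l 16777216))) (a (a (l 16777216) (l 16768224)) (a (a (l 16519464) (l 16196936)) (a (a (l 15888384) (b (l 15607488) (l 15607488))) (c (a (b (l 15357304) (l 15525080)) (l 15447504)) (a (l 15487024) (b (a (l 15407176) (l 15376032)) (a (l 15407176) (l 15376032))))))))) (a (l 2) (a (l 16772512) (a (l 16356592) (a (a (l 15888384) (l 15607488)) (c (a (l 15462160) (l 15447504)) (a (l 15487024) (b (l 15395384) (l 15395384))))))))), by decide +kernel⟩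

theorem s27_pm_102 : ∃ t, chk3 f_pm_102 t 3 10 1 = true := ex3_a k23_pm_102 k24_pm_102

theorem s28_pm_102 : ∃ t, chk3 f_pm_102 t 3 5 1 = true := ex3_b s27_pm_102 k25_pm_102

theorem s29_pm_102 : ∃ t, chk3 f_pm_102 t 1 5 1 = true := ex3_a k22_pm_102 s28_pm_102

theorem s30_pm_102 : ∃ t, chk3 f_pm_102 t 15 19 1 = true := ex3_a k20_pm_102 k21_pm_102

theorem s31_pm_102 : ∃ t, chk3 f_pm_102 t 7 19 1 = true := ex3_a k19_pm_102 s30_pm_102

theorem s32_pm_102 : ∃ t, chk3 f_pm_102 t 15 18 1 = true := ex3_a k17_pm_102 k18_pm_102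

theorem s33_pm_102 : ∃ t, chk3 f_pm_102 t 7 18 1 = true := ex3_a k16_pm_102 s32_pm_102

theorem s34_pm_102 : ∃ t, chk3 f_pm_102 t 7 9 1 = true := ex3_b s33_pm_102 s31_pm_102

theorem s35_pm_102 : ∃ t, chk3 f_pm_102 t 3 9 1 = true := ex3_a k15_pm_102 s34_pm_102

theorem s36_pm_102 : ∃ t, chk3 f_pm_102 t 15 17 1 = true := ex3_b k13_pm_102 k14_pm_102

theorem s37_pm_102 : ∃ t, chk3 f_pm_102 t 7 17 1 = true := ex3_a k12_pm_102 s36_pm_102

theorem s38_pm_102 : ∃ t, chk3 f_pm_102 t 7 33 1 = true := ex3_b k10_pm_102 k11_pm_102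

theorem s39_pm_102 : ∃ t, chk3 f_pm_102 t 14 64 1 = true := ex3_c k6_pm_102 k7_pm_102

theorem s40_pm_102 : ∃ t, chk3 f_pm_102 t 14 32 1 = true := ex3_b s39_pm_102 k8_pm_102

theorem s41_pm_102 : ∃ t, chk3 f_pm_102 t 7 32 1 = true := ex3_a s40_pm_102 k9_pm_102

theorem s42_pm_102 : ∃ t, chk3 f_pm_102 t 7 16 1 = true := ex3_b s41_pm_102 s38_pm_102

theorem s43_pm_102 : ∃ t, chk3 f_pm_102 t 7 8 1 = true := ex3_b s42_pm_102 s37_pm_102

theorem s44_pm_102 : ∃ t, chk3 f_pm_102 t 6 32 1 = true := ex3_c k2_pm_102 k3_pm_102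

theorem s45_pm_102 : ∃ t, chk3 f_pm_102 t 6 16 1 = true := ex3_b s44_pm_102 k4_pm_102

theorem s46_pm_102 : ∃ t, chk3 f_pm_102 t 6 8 1 = true := ex3_b s45_pm_102 k5_pm_102

theorem s47_pm_102 : ∃ t, chk3 f_pm_102 t 3 8 1 = true := ex3_a s46_pm_102 s43_pm_102

theorem s48_pm_102 : ∃ t, chk3 f_pm_102 t 3 4 1 = true := ex3_b s47_pm_102 s35_pm_102

theorem s49_pm_102 : ∃ t, chk3 f_pm_102 t 2 4 1 = true := ex3_b k0_pm_102 k1_pm_102

theorem s50_pm_102 : ∃ t, chk3 f_pm_102 t 1 4 1 = true := ex3_a s49_pm_102 s48_pm_102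

theorem s51_pm_102 : ∃ t, chk3 f_pm_102 t 1 2 1 = true := ex3_b s50_pm_102 s29_pm_102

theorem s52_pm_102 : ∃ t, chk3 f_pm_102 t 1 1 1 = true := ex3_b s51_pm_102 k26_pm_102

theorem c_pm_102 : CertNX 536870912 536870912 0 536870912 1046898278 26843546 3 true true false .npp 1 0 2
    ndN0q1 ndN3q0 pcN2 cut_pm_102 Ext.none :=
  certNX1 (fam := true) (s1 := true) (s2 := false) (a := 1) (b := 0) (c := 2) (cn := .npp) (n1 := ndN0q1) (n2 := ndN3q0) (pc := pcN2) (cut := cut_pm_102) (xt := Ext.none) (P1 := 536870912) (W1 := 536870912) (P2 := 0) (W2 := 536870912) (P3 := 1046898278) (W3 := 26843546) (N0 := 3)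
    rfl (fun _ => rfl) s52_pm_102

noncomputable def f_pm_112 : ℕ → ℕ → ℕ → ℕ → Bool := onCell 536870912 536870912 1073741824 536870912 1046898278 26843546
    (rowNX 3 1 true true false .dn 1 1 2 (qsf 536870912 536870912 536870912 536870912 2) ndN0q1 ndN3q1 pcN2 Cut.none Ext.none)

def k0_pm_112 : ∃ t, chk3 f_pm_112 t 1 4 1 = true :=
  ⟨(a (b (a (a (b (b (c (b (l 15463792) (l 15566192)) (b (c (b (l 15401072) (l 15456568)) (a (b (b (b (l 15292120) (l 15380176)) (l 15393480)) (l 15416440)) (l 1))) (c (l 15497928) (l 15446256)))) (c (l 15632264) (c (l 15550776) (l 15513328)))) (c (c (b (l 15691064) (l 15695784)) (b (l 15637952) (l 15662136))) (b (l 15600672) (l 15617584)))) (b (l 1) (b (l 1) (c (c (l 15682736) (l 15649984)) (l 15545768))))) (l 1)) (b (a (c (b (c (a (l 15801232) (l 15742320)) (a (c (l 15769576) (l 15775032)) (c (l 15749928) (l 15746504)))) (c (a (l 15746600) (c (l 15892904) (l 15904104))) (a (c (l 15956704) (l 15946608)) (c (l 15901672) (l 15894864))))) (b (a (c (l 15609432)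 (l 15749296)) (l 15727168)) (a (l 15934920) (l 15875616)))) (l 1)) (b (a (a (c (c (b (c (l 16048760) (l 16032832)) (l 15888192)) (b (c (l 15976408) (l 16039672)) (l 15974808))) (l 15948064)) (c (c (b (c (l 15830784) (l 15795816)) (c (l 15913128) (l 15892912))) (l 15922184)) (l 15794912))) (l 1)) (a (c (c (a (c (l 15823320) (l 15822688)) (c (l 15728488) (l 15703584))) (l 15742600)) (a (l 15768056) (l 15661056))) (a (c (l 15563992) (l 15543112)) (l 1)))))) (l 1)), by decide +kernel⟩

def k1_pm_112 : ∃ t, chk3 f_pm_112 t 1 5 1 = true :=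
  ⟨(a (b (b (a (b (c (c (a (c (l 15597704) (l 15571408)) (l 15459832)) (l 15497056)) (a (l 15523640) (l 15401712))) (c (b (a (l 15477096) (l 15361072)) (a (l 15543528) (l 15440736))) (a (b (l 15431456) (l 15500224)) (b (l 15311360) (l 15393824))))) (a (b (c (l 15213912) (l 15267576)) (c (b (l 15233592) (l 15327896)) (b (l 15179408) (l 15277024)))) (l 1))) (a (c (a (b (l 15728216) (l 15995416)) (b (l 15638568) (l 15926384))) (a (l 15680968) (l 15619408))) (c (a (b (l 15540296) (l 15850856)) (b (l 1) (l 15766680))) (a (l 15508072) (l 446707203639))))) (b (a (c (b (a (l 16283632) (l 16238832)) (a (l 16590968) (l 16573648))) (b (l 16138376) (l 16575496))) (c (b (a (l 16189888) (l 16049000)) (a (l 16554760) (l 16537520))) (a (l 16355296) (b (l 16110496) (l 16529024))))) (c (a (a (l 16776680) (l 16776632)) (b (l 16775944) (l 16777216))) (a (l 16776640) (l 16776568))))) (b (l 1) (a (b (l 1) (a (l 16776560) (l 1))) (l 1)))), by decide +kernel⟩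

def k2_pm_112 : ∃ t, chk3 f_pm_112 t 1 3 1 = true :=
  ⟨(a (b (a (b (a (b (l 16777128) (a (l 16684248) (l 16777088))) (c (l 16777216) (l 16777216))) (a (a (b (l 16383168) (a (l 15677312) (l 16102848))) (l 16491664)) (l 16732776))) (b (c (l 16777216) (l 16777216)) (l 16777216))) (a (a (b (a (b (a (l 15038408) (l 15464072)) (l 14424240)) (b (a (l 15740232) (l 16102848)) (a (l 15038408) (l 15464072)))) (a (b (l 13677480) (a (b (l 13184920) (l 12646656)) (c (l 13457224) (l 13419928)))) (b (l 14571040) (l 13845248)))) (b (a (b (l 16404136) (a (l 15782176) (l 16102848))) (l 16533608)) (a (b (l 15019472) (l 14592016)) (b (a (l 15824112) (l 16102848)) (l 15145304))))) (a (b (l 16732776) (a (b (l 16404136) (l 15938464)) (l 16533608))) (l 16748968)))) (a (b (a (l 16777216) (l 16768224)) (l 16772512)) (b (a (l 674879346039) (l 1)) (a (l 16356592) (a (l 320542817959) (b (l 1) (a (l 15477032) (l 479456052247)))))))), by decide +kernel⟩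

theorem s3_pm_112 : ∃ t, chk3 f_pm_112 t 1 2 1 = true := ex3_b k0_pm_112 k1_pm_112

theorem s4_pm_112 : ∃ t, chk3 f_pm_112 t 1 1 1 = true := ex3_b s3_pm_112 k2_pm_112

theorem c_pm_112 : CertNX 536870912 536870912 536870912 536870912 1046898278 26843546 3 true true false .dn 1 1 2
    ndN0q1 ndN3q1 pcN2 Cut.none Ext.none :=
  certNX1 (fam := true) (s1 := true) (s2 := false) (a := 1) (b := 1) (c := 2) (cn := .dn) (n1 := ndN0q1) (n2 := ndN3q1) (pc := pcN2) (cut := Cut.none) (xt := Ext.none) (P1 := 536870912) (W1 := 536870912) (P2 := 536870912) (W2 := 536870912) (P3 := 1046898278) (W3 := 26843546) (N0 := 3)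
    rfl (fun _ => rfl) s4_pm_112

noncomputable def f_pm_113 : ℕ → ℕ → ℕ → ℕ → Bool := onCell 536870912 536870912 536870912 536870912 1046898278 26843546
    (rowNX 3 0 true true false .nn 1 1 3 (qsf 536870912 536870912 536870912 536870912 3) ndN0q1 ndN3q1 pcN3 Cut.none Ext.none)

def k0_pm_113 : ∃ t, chk3 f_pm_113 t 2 1 1 = true :=
  ⟨(b (a (l 1) (b (l 1) (a (l 1) (l 16777216)))) (b (b (a (l 1) (l 16684248)) (a (b (l 1) (a (l 1) (l 15674520))) (b (l 16213288) (l 15422856)))) (a (b (b (a (l 1) (l 14817032)) (l 229271845863)) (a (b (l 13592568) (c (l 12893992) (l 219605444935))) (b (l 13634512) (c (l 12893992) (l 12620960))))) (b (a (b (l 14817032) (l 14234872)) (b (l 14817032) (l 14234872))) (a (b (l 13634512) (c (l 12893992) (l 12683880))) (b (c (l 13669032) (l 13621504)) (c (b (l 13038704) (l 12718256)) (b (l 13062960) (l 12676576))))))))), by decide +kernel⟩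

def k1_pm_113 : ∃ t, chk3 f_pm_113 t 3 1 1 = true :=
  ⟨(b (a (b (l 412887420535) (a (l 16777216) (b (l 16768224) (l 16768224)))) (a (b (a (l 16519464) (l 16196936)) (b (l 16272712) (a (l 16519464) (l 16196936)))) (b (b (a (l 15693400) (a (l 15477032) (l 15184888))) (a (l 15693400) (c (l 15295632) (l 15406064)))) (a (b (l 15693400) (c (l 15827064) (l 15737344))) (c (a (b (l 15525080) (l 15525080)) (b (l 15447504) (l 15447504))) (a (l 15487024) (b (l 15395384) (l 91499669079)))))))) (a (a (b (b (l 16684248) (b (l 16213288) (l 15590632))) (b (b (l 14817032) (l 14234872)) (b (c (l 13669032) (l 13621504)) (c (b (l 13038704) (l 12718256)) (b (l 13062960) (c (l 12677608) (l 12664944))))))) (b (b (b (l 16767968) (l 16579192)) (b (l 16205064) (a (l 15674520) (l 15658768)))) (b (c (b (l 14633640) (l 14271528)) (b (a (l 14783168) (l 14766256)) (l 31367700823))) (a (b (c (l 13669032) (l 13621504)) (l 4)) (l 4))))) (b (a (b (a (l 16431728) (b (l 16196680) (l 16020776))) (b (c (l 15855120) (l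 15790952)) (a (b (l 15645128) (l 15243528)) (l 4)))) (a (a (b (b (l 15888136) (l 4)) (l 4)) (l 4)) (l 4))) (a (a (b (l 4) (l 4)) (l 4)) (l 4))))), by decide +kernel⟩

theorem s2_pm_113 : ∃ t, chk3 f_pm_113 t 1 1 1 = true := ex3_a k0_pm_113 k1_pm_113

theorem c_pm_113 : CertNX 536870912 536870912 536870912 536870912 1046898278 26843546 3 true true false .nn 1 1 3
    ndN0q1 ndN3q1 pcN3 Cut.none Ext.none :=
  certNX0 (fam := true) (s1 := true) (s2 := false) (a := 1) (b := 1) (c := 3) (cn := .nn) (n1 := ndN0q1) (n2 := ndN3q1) (pc := pcN3) (cut := Cut.none) (xt := Ext.none) (P1 := 536870912) (W1 := 536870912) (P2 := 536870912) (W2 := 536870912) (P3 := 1046898278) (W3 := 26843546) (N0 := 3)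
    rfl s2_pm_113

noncomputable def cut_pm_123 : Cut := Cut.of [[⟨0, 1, 0, 67108864⟩, ⟨1, 1, 0, 67108864⟩, ⟨2, 2, 0, 67108864⟩]]

noncomputable def f_pm_123 : ℕ → ℕ → ℕ → ℕ → Bool := onCell 1610612736 536870912 1073741824 536870912 1046898278 26843546
    (rowNX 3 2 true true false .npn 1 2 3 (qsf 536870912 536870912 1073741824 536870912 3) ndN0q1 ndN3q2 pcN3 cut_pm_123 Ext.none)

def k0_pm_123 : ∃ t, chk3 f_pm_123 t 2 1 1 = true :=
  ⟨(b (b (b (a (c (b (a (b (l 15507848) (l 15631264)) (b (a (l 15507848) (l 15507848)) (l 15631264))) (a (l 51033942375) (c (l 15753960) (l 15714760)))) (b (c (b (a (l 15452208) (l 15452208)) (l 45128099479)) (a (l 15437504) (l 15458480))) (a (l 15673728) (l 15673728)))) (b (c (b (a (l 15507848) (l 15465904)) (a (l 15631264) (l 15631264))) (a (c (l 15458520) (l 15458480)) (b (c (l 15452208) (l 15407896)) (l 15528320)))) (c (a (l 15736560) (l 15736560)) (a (l 15673728) (l 15673728))))) (a (a (b (c (l 16082768) (l 16124192)) (l 1)) (b (c (l 16103744) (l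 16145160)) (c (l 16544584) (l 16536416)))) (b (a (c (l 16145680) (l 16145160)) (c (l 16166656) (l 16145160))) (c (a (l 16544584) (l 16544584)) (a (l 16536416) (l 16536416)))))) (b (a (b (a (l 1) (c (l 16305016) (l 16288440))) (l 1)) (b (c (a (l 16305016) (l 16305016)) (a (l 16288440) (l 16288440))) (c (l 16404944) (l 16391880)))) (a (l 1) (b (c (l 16652752) (l 16648384)) (c (l 16777040) (l 16777032)))))) (a (l 1) (b (c (l 93449093127) (l 16777216)) (l 1)))), by decide +kernel⟩

def k1_pm_123 : ∃ t, chk3 f_pm_123 t 6 4 1 = true :=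
  ⟨(b (b (a (c (b (b (l 15464392) (l 15557568)) (l 15631280)) (b (c (l 15452224) (l 15407912)) (l 15528336))) (b (a (c (l 15507904) (b (l 15401096) (l 15467632))) (c (b (a (l 15464440) (l 15448352)) (l 15556968)) (b (a (l 15401104) (c (l 15404096) (l 15360560))) (l 15466808)))) (c (l 15631320) (l 15528384)))) (a (c (l 15736568) (l 15673736)) (c (b (l 15696056) (l 15767928)) (l 15673784)))) (b (a (b (l 15974696) (l 16334264)) (b (l 15974744) (l 16334312))) (a (c (l 16544600) (l 16536432)) (b (l 16593160) (l 16489104))))), by decide +kernel⟩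

def k2_pm_123 : ∃ t, chk3 f_pm_123 t 7 32 1 = true :=
  ⟨(a (a (a (c (b (l 15373696) (l 15498072)) (b (l 15258864) (l 15415040))) (c (a (b (l 15309440) (l 15467488)) (b (l 15279320) (c (l 15478376) (l 15413568)))) (a (b (l 15185080) (l 15338776)) (b (c (l 15176728) (l 15093848)) (l 15298232))))) (a (c (b (a (l 15266960) (l 15258528)) (c (l 15477528) (l 15401376))) (b (c (l 15136304) (b (l 14986840) (l 15092648))) (l 15268840))) (c (b (a (l 15256056) (b (l 15204792) (l 15318512))) (a (l 15443048) (b (l 15417856) (l 15495928)))) (b (c (a (l 15097760) (l 15075264)) (a (l 14977384) (b (l 14868880) (l 15003592)))) (c (l 15285072) (l 15167096)))))) (a (b (a (b (a (c (c (a (c (l 15326472) (l 15251176)) (l 15304680)) (l 15132384)) (c (l 14966880) (c (l 14838968) (l 14746248)))) (l 6)) (c (c (a (c (a (l 15429040) (l 15450200)) (l 15371000)) (c (l 15498368) (l 15411352))) (a (l 15266648) (l 15276880))) (a (c (l 15118848) (l 14954576)) (c (l 15086960) (l 14879752))))) (l 6)) (a (c (c (a (c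 (b (a (l 15523232) (l 15543736)) (a (l 15601224) (l 15620496))) (l 15513432)) (c (b (l 15587464) (l 15661200)) (a (b (l 15502272) (l 15582536)) (b (l 15529352) (l 15609320))))) (a (l 15417712) (b (l 15395272) (l 15486240)))) (a (c (l 15275896) (l 15131072)) (c (l 15268920) (l 15095744)))) (b (l 6) (a (c (c (l 15706360) (l 15534784)) (l 15247184)) (l 6))))) (l 6))), by decide +kernel⟩

def k3_pm_123 : ∃ t, chk3 f_pm_123 t 7 33 1 = true :=
  ⟨(a (a (a (c (l 15623800) (l 15517712)) (a (c (l 15605192) (l 15488752)) (c (l 15591240) (l 15462336)))) (a (c (l 15449040) (l 15450640)) (c (a (l 15611928) (l 15632024)) (l 15445000)))) (a (a (c (c (a (c (a (l 15504760) (l 15752304)) (l 15690648)) (b (l 15715928) (l 15796800))) (a (l 15602384) (l 15632016))) (a (l 15448488) (l 15453216))) (c (c (b (a (l 15786328) (l 15896696)) (a (l 15859400) (l 15954240))) (a (b (c (l 15678456) (l 15595360)) (l 15726128)) (b (c (l 15769544) (l 15677544)) (c (l 15845704) (l 15771808))))) (a (b (l 15394208) (l 15547616))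 (b (l 15444696) (l 15609192))))) (a (b (l 6) (a (a (c (l 15974592) (l 15684792)) (l 6)) (l 6))) (l 6)))), by decide +kernel⟩

def k4_pm_123 : ∃ t, chk3 f_pm_123 t 7 17 1 = true :=
  ⟨(b (a (a (a (l 15663080) (a (l 15662536) (c (l 15698032) (l 15623008)))) (a (c (l 15714680) (l 15634680)) (c (l 15747272) (l 15649248)))) (a (a (c (c (a (c (l 15846560) (l 15802368)) (l 15736560)) (l 15759320)) (l 15673464)) (c (c (l 15956416) (b (a (l 15793200) (c (l 15896720) (l 15841512))) (l 15880880))) (l 15744440))) (a (a (c (b (l 16045000) (l 16070280)) (l 15877928)) (c (b (l 16215656) (c (l 16270568) (l 16165552))) (b (l 15993888) (l 16057272)))) (b (l 6) (a (a (c (l 16375400) (l 16208856)) (l 6)) (l 6)))))) (a (a (a (l 15746664) (a (l 15746640) (l 15753672))) (a (c (l 15796328) (l 15761928)) (a (l 15802144) (l 15820960)))) (a (a (c (l 15877648) (l 15819632)) (c (c (l 15995896) (l 15947080)) (l 15885408))) (a (c (a (l 16102400) (c (l 16260952) (l 16193528))) (a (l 16003384) (l 16122848))) (a (c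 (a (c (l 16383064) (l 16315064)) (b (l 16459024) (l 16407808))) (c (a (l 16265568) (l 16367288)) (l 16234224))) (a (a (c (b (l 16508504) (l 16423272)) (c (l 16428208) (l 16381536))) (b (l 6) (c (l 16437976) (c (l 16427280) (l 16419224))))) (b (l 6) (a (a (b (l 16458616) (l 16415736)) (b (l 6) (c (l 96870718119) (l 16422168)))) (l 4))))))))), by decide +kernel⟩

def k5_pm_123 : ∃ t, chk3 f_pm_123 t 7 9 1 = true :=
  ⟨(a (b (a (a (l 16155888) (a (l 16155864) (l 16162480))) (b (a (l 16007448) (l 16019296)) (l 16345344))) (a (l 16437368) (b (l 16506224) (l 16485208)))) (a (b (a (b (c (l 16061008) (l 16049512)) (l 16183120)) (b (c (l 16141272) (l 16104896)) (c (l 16355000) (l 16414960)))) (a (b (l 16506776) (l 16461744)) (b (b (c (l 16595936) (l 16574336)) (l 16571448)) (l 16473296)))) (a (b (a (c (l 16319480) (l 16317560)) (b (c (l 16353016) (l 16304840)) (c (l 16588032) (l 16553144)))) (a (b (c (l 16639240) (l 16610320)) (c (l 16469208) (l 16438704))) (c (b (b (l 16724088) (l 16650776))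 (l 16340616)) (b (l 16581168) (l 16439008))))) (a (b (c (a (b (l 16443240) (l 16616072)) (b (l 16455832) (l 16655096))) (a (b (l 16396872) (l 16541144)) (b (c (l 16447272) (l 16459504)) (a (l 16622928) (l 16650128))))) (a (b (b (l 16747984) (l 16670688)) (l 16431584)) (b (c (l 16731712) (l 16665360)) (c (l 16469320) (l 16456984))))) (a (b (a (b (c (l 16491024) (a (l 16394640) (l 16478008))) (l 16613072)) (c (l 16380856) (b (l 16480568) (l 16636336)))) (c (b (b (l 16733736) (l 16730168)) (l 16493456)) (b (b (l 62511504919) (l 16727192)) (l 16480888)))) (a (b (b (c (a (l 16499232) (l 16412656)) (l 16370544)) (l 4)) (l 4)) (l 4))))))), by decide +kernel⟩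

def k6_pm_123 : ∃ t, chk3 f_pm_123 t 3 5 1 = true :=
  ⟨(b (a (b (a (b (l 16352112) (l 16242696)) (b (l 16352160) (l 16242744))) (a (l 16398448) (l 16398504))) (a (a (b (l 16298336) (l 16399888)) (b (b (l 16372280) (l 16277208)) (l 16420880))) (a (a (b (b (l 16344800) (l 16251352)) (l 16399064)) (b (b (l 16346848) (c (l 16254688) (l 16237048))) (c (l 16340024) (l 16386208)))) (a (c (b (a (l 16221456) (l 16228064)) (l 16249888)) (b (a (l 16253000) (l 16220280)) (l 16331248))) (a (b (c (a (l 16213440) (b (l 16250376) (l 16140784))) (b (l 16066032) (a (l 16133200) (l 16074752)))) (c (l 16299432) (l 16257704))) (l 4)))))) (a (b (a (l 16650584) (l 16650640)) (c (l 16777072) (l 16777072))) (a (a (b (l 16651888) (l 16775744)) (b (l 16642160) (a (l 16754784) (l 16740280)))) (a (a (b (l 16503672) (l 16748376)) (b (l 16514800) (l 16753608))) (a (b (c (l 16589232) (l 16573592)) (c (l 16705280) (l 16694352))) (l 4)))))), by decide +kernel⟩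

def k7_pm_123 : ∃ t, chk3 f_pm_123 t 3 3 1 = true :=
  ⟨(b (a (a (c (l 16777200) (l 16777200)) (b (l 16777144) (c (l 16777144) (l 16777144)))) (a (a (c (l 16818184) (l 16776208)) (c (b (l 16756664) (l 16764016)) (b (l 16755952) (l 16763560)))) (a (c (a (l 16757880) (a (l 16763968) (l 16745768))) (a (l 16755888) (a (l 16759912) (l 16738200)))) (a (c (l 16705440) (l 16694520)) (l 4))))) (a (a (l 1) (a (l 1) (c (l 16777160) (l 16777160)))) (a (a (c (l 16776800) (l 16776784)) (c (l 16762472) (l 16761960))) (a (a (c (l 16757880) (l 16755888)) (l 4)) (l 4))))), by decide +kernel⟩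

theorem s8_pm_123 : ∃ t, chk3 f_pm_123 t 7 16 1 = true := ex3_b k2_pm_123 k3_pm_123

theorem s9_pm_123 : ∃ t, chk3 f_pm_123 t 7 8 1 = true := ex3_b s8_pm_123 k4_pm_123

theorem s10_pm_123 : ∃ t, chk3 f_pm_123 t 7 4 1 = true := ex3_b s9_pm_123 k5_pm_123

theorem s11_pm_123 : ∃ t, chk3 f_pm_123 t 3 4 1 = true := ex3_a k1_pm_123 s10_pm_123

theorem s12_pm_123 : ∃ t, chk3 f_pm_123 t 3 2 1 = true := ex3_b s11_pm_123 k6_pm_123

theorem s13_pm_123 : ∃ t, chk3 f_pm_123 t 3 1 1 = true := ex3_b s12_pm_123 k7_pm_123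

theorem s14_pm_123 : ∃ t, chk3 f_pm_123 t 1 1 1 = true := ex3_a k0_pm_123 s13_pm_123

theorem c_pm_123 : CertNX 536870912 536870912 1073741824 536870912 1046898278 26843546 3 true true false .npn 1 2 3
    ndN0q1 ndN3q2 pcN3 cut_pm_123 Ext.none :=
  certNX2 (fam := true) (s1 := true) (s2 := false) (a := 1) (b := 2) (c := 3) (cn := .npn) (n1 := ndN0q1) (n2 := ndN3q2) (pc := pcN3) (cut := cut_pm_123) (xt := Ext.none) (P1 := 536870912) (W1 := 536870912) (P2 := 1073741824) (W2 := 536870912) (P3 := 1046898278) (W3 := 26843546) (N0 := 3)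
    rfl (fun _ => rfl) s14_pm_123

noncomputable def f_pm_133 : ℕ → ℕ → ℕ → ℕ → Bool := onCell 536870912 536870912 1610612736 536870912 1046898278 26843546
    (rowNX 3 0 true true false .dn 1 3 3 (qsf 536870912 536870912 1610612736 536870912 3) ndN0q1 ndN3q3 pcN3 Cut.none Ext.none)

def k0_pm_133 : ∃ t, chk3 f_pm_133 t 1 1 1 = true :=
  ⟨(a (l 4) (l 2)), by decide +kernel⟩

theorem c_pm_133 : CertNX 536870912 536870912 1610612736 536870912 1046898278 26843546 3 true true false .dn 1 3 3
    ndN0q1 ndN3q3 pcN3 Cut.none Ext.none :=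
  certNX0 (fam := true) (s1 := true) (s2 := false) (a := 1) (b := 3) (c := 3) (cn := .dn) (n1 := ndN0q1) (n2 := ndN3q3) (pc := pcN3) (cut := Cut.none) (xt := Ext.none) (P1 := 536870912) (W1 := 536870912) (P2 := 1610612736) (W2 := 536870912) (P3 := 1046898278) (W3 := 26843546) (N0 := 3)
    rfl k0_pm_133

noncomputable def cut_pm_202 : Cut := Cut.of [[⟨0, 1, 0, 67108864⟩, ⟨1, 0, 0, 67108864⟩, ⟨2, 1, 0, 67108864⟩, ⟨3, 0, 0, 1233125376⟩]]

noncomputable def f_pm_202 : ℕ → ℕ → ℕ → ℕ → Bool := onCell 0 536870912 1073741824 536870912 1046898278 26843546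
    (rowNX 3 1 true true false .pp 2 0 2 (qsf 0 536870912 0 536870912 2) ndN0q2 ndN3q0 pcN2 cut_pm_202 Ext.none)

def k0_pm_202 : ∃ t, chk3 f_pm_202 t 4 2 1 = true :=
  ⟨(b (l 1) (b (b (b (l 1) (a (b (l 1) (a (c (l 15883040) (l 15860840)) (c (l 15899952) (l 15755008)))) (c (a (l 15861544) (b (l 16164864) (l 15953536))) (b (a (l 1) (c (l 16156248) (l 16107776))) (a (c (l 15911608) (l 15907960)) (c (l 15953664) (l 15913512))))))) (c (a (b (c (b (l 15693488) (l 15460920)) (b (l 15691504) (l 15552456))) (a (b (l 15428128) (a (l 15309280) (l 15313472))) (c (l 15397032) (l 15384736)))) (b (a (c (b (l 15731496) (l 15598400)) (l 15440712)) (b (c (l 15781520) (l 15791568)) (l 15663176))) (c (a (l 15434240) (l 15484672)) (l 15442848)))) (a (b (c (b (l 15588080) (l 15557616)) (b (l 15586040) (l 15540208))) (a (c (l 15345432) (l 15321504)) (l 15350832))) (b (c (a (l 15565192) (l 15725736)) (a (l 15662952) (l 15714832))) (c (l 15421312) (l 15398744)))))) (b (a (b (c (a (b (a (l 15218848) (l 15201224))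 (l 15128112)) (c (l 15171256) (l 15145240))) (a (l 15112912) (l 15103504))) (c (a (c (l 15055936) (l 15026200)) (b (a (l 15015264) (l 15004312)) (b (l 14956752) (l 14958128)))) (a (l 14981152) (b (l 14949520) (l 14894304))))) (b (c (c (l 15221160) (l 15195888)) (l 15155304)) (c (a (b (l 15022856) (a (l 14949952) (l 14981736))) (b (l 15073704) (l 15066432))) (a (b (l 14961424) (l 14908544)) (l 15016320))))) (a (c (b (a (l 15293048) (l 15245400)) (l 15831424)) (b (l 15219400) (l 15798872))) (b (c (a (b (b (l 15035320) (l 15169048)) (l 15384720)) (b (l 15201192) (l 15465200))) (a (b (l 15045304) (l 15335856)) (l 15201024))) (a (l 15697848) (c (b (l 15735416) (l 15993032)) (l 15685688)))))))), by decide +kernel⟩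

def k1_pm_202 : ∃ t, chk3 f_pm_202 t 5 4 1 = true :=
  ⟨(b (l 1) (a (l 1) (b (l 1) (b (l 1) (a (l 1) (c (l 16071648) (b (l 1) (a (l 16179952) (c (l 16231760) (l 16106472)))))))))), by decide +kernel⟩

def k2_pm_202 : ∃ t, chk3 f_pm_202 t 5 10 1 = true :=
  ⟨(b (b (b (a (l 1) (c (a (l 16274672) (a (l 16290384) (b (l 16313592) (l 16364576)))) (a (c (l 16271928) (a (l 16252624) (l 645888196919))) (c (c (l 16199480) (l 16204168)) (a (b (l 16246152) (l 16362984)) (l 16317792)))))) (a (c (a (l 16269320) (l 16323568)) (a (l 16263024) (b (l 16296424) (c (l 16345704) (a (l 16330648) (l 16323776)))))) (c (b (a (l 16346736) (l 16248704)) (a (c (l 16393848) (l 16305336)) (c (l 16340544) (l 16357376)))) (a (c (b (l 16314648) (l 16270376)) (b (l 16218608) (l 16301704))) (c (b (l 16416584) (l 16344160)) (l 16331864)))))) (a (c (b (a (l 16174720) (b (l 16292400) (l 16138872))) (a (c (l 15998264) (l 16008504)) (c (l 16076840) (l 16090880)))) (b (a (c (l 16132704) (b (l 16244384) (l 16126344))) (c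 (b (l 16303720) (l 16217888)) (b (l 16250064) (l 16225104)))) (a (c (l 16016328) (l 16018160)) (c (l 16104000) (l 16098416))))) (c (a (b (c (l 16221776) (l 16239400)) (l 16129112)) (c (l 16190336) (l 16179504))) (a (c (l 16046608) (l 16171880)) (l 16156792))))) (a (c (b (a (c (l 15661248) (l 15798688)) (c (l 15884200) (l 15883104))) (a (l 15536392) (l 15611840))) (b (a (c (l 15793680) (l 15779192)) (l 15865024)) (a (l 15499024) (l 15578472)))) (a (c (b (c (l 15983568) (l 15974016)) (l 15702152)) (b (l 15958432) (l 15667176))) (b (c (l 15958624) (l 16068936)) (c (b (l 15873968) (a (l 15719192) (l 15812216))) (b (l 15845312) (l 15740456))))))), by decide +kernel⟩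

def k3_pm_202 : ∃ t, chk3 f_pm_202 t 5 11 1 = true :=
  ⟨(b (a (b (c (a (l 15289504) (b (l 15424152) (l 15338320))) (a (l 15238728) (l 15336960))) (c (a (b (l 15176352) (l 15217040)) (l 15380192)) (a (l 15143808) (l 15330600)))) (b (a (c (b (a (l 15493256) (l 15570928)) (l 15529192)) (b (l 15497048) (l 15486000))) (c (l 15759264) (l 15745912))) (a (l 15380512) (c (l 15883400) (l 15852584))))) (a (b (c (b (l 15200704) (l 15712400)) (b (l 15405760) (l 15674960))) (a (b (l 15858000) (l 16045328)) (c (l 16062880) (l 16037800)))) (b (a (b (c (l 15777312) (l 15742168)) (l 15872880)) (b (c (l 15975320) (l 15968880)) (l 16103464))) (c (l 16187784) (l 16167096))))), by decide +kernel⟩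

def k4_pm_202 : ∃ t, chk3 f_pm_202 t 2 3 1 = true :=
  ⟨(b (b (a (b (a (c (b (l 16253848) (l 16407584)) (l 16066072)) (c (l 16116544) (l 16141520))) (a (c (l 16562944) (l 16555952)) (c (l 16546936) (l 16539144)))) (b (a (c (b (l 16217464) (l 16375152)) (b (l 16197856) (l 16361112))) (c (l 16397848) (l 16384528))) (a (b (l 16514528) (l 16596136)) (a (l 16554600) (l 16603192))))) (a (c (b (l 16563680) (l 16728584)) (b (l 16537464) (l 16663960))) (b (a (l 16660880) (a (l 16695544) (l 16719200))) (a (l 16755064) (l 16772416))))) (c (a (b (a (l 16777216) (l 16777216)) (l 16777216)) (b (l 16777216) (l 16777216))) (a (b (a (l 16777216) (l 16777216)) (l 16777216)) (b (l 16777216) (l 16777216))))), by decide +kernel⟩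

def k5_pm_202 : ∃ t, chk3 f_pm_202 t 6 8 1 = true :=
  ⟨(l 1), by decide +kernel⟩

def k6_pm_202 : ∃ t, chk3 f_pm_202 t 14 16 1 = true :=
  ⟨(l 1), by decide +kernel⟩

def k7_pm_202 : ∃ t, chk3 f_pm_202 t 28 17 1 = true :=
  ⟨(a (l 1) (b (l 1) (b (l 1) (c (c (c (b (c (l 15937496) (l 363493261607)) (b (l 316785614535) (l 15953224))) (l 428454625399)) (b (l 15860488) (c (l 15988264) (l 15982936)))) (c (b (l 15868216) (c (l 15938400) (l 370472552359))) (b (a (l 1) (c (l 15935024) (l 331280950567))) (a (c (l 15934768) (l 15866832)) (c (l 16016304) (l 15994960))))))))), by decide +kernel⟩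

def k8_pm_202 : ∃ t, chk3 f_pm_202 t 58 17 1 = true :=
  ⟨(b (l 1) (a (b (b (l 1) (c (c (c (l 15976656) (l 424159797015)) (l 15968144)) (c (l 15955656) (c (l 15948792) (a (l 15919304) (l 15925064)))))) (c (c (c (b (l 403221934759) (c (l 16095280) (l 16093800))) (b (l 16030696) (l 16092912))) (b (l 15981192) (c (l 16094672) (l 16100648)))) (c (b (a (l 15995880) (l 16024704)) (c (l 16108080) (l 16113096))) (b (c (l 15960168) (l 15896856)) (l 16030560))))) (b (c (c (c (l 482678789143) (b (l 15979760) (l 16070304))) (b (l 16016512) (l 16043504))) (c (b (l 16005000) (c (l 16062360) (l 16044088))) (b (c (l 15999016) (b (l 15979016) (l 15946592))) (c (l 16003584) (l 15982504))))) (c (c (b (c (l 16125296) (l 16126816)) (c (c (l 16154768) (l 16200936)) (l 16209248))) (b (l 16030248) (l 16122648))) (c (b (c (l 16143768) (l 16148936)) (l 16245448)) (b (l 16087696) (l 16242024))))))), by decide +kernel⟩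

def k9_pm_202 : ∃ t, chk3 f_pm_202 t 59 17 1 = true :=
  ⟨(b (b (l 6) (b (l 6) (a (c (c (l 237328905831) (c (l 16083288) (l 16078936))) (c (l 16071600) (c (l 16045872) (b (l 16028368) (a (l 16041968) (l 16109560)))))) (b (l 6) (c (c (l 16192728) (l 16138824)) (c (l 16127040) (c (l 16216888) (l 16217928)))))))) (c (b (c (b (c (a (l 16119152) (l 16224192)) (a (l 16124312) (b (l 16219296) (l 16249024)))) (c (a (l 16170312) (l 16271696)) (a (l 16092872) (l 16247736)))) (b (a (l 16059912) (c (l 16244784) (l 16254208))) (a (l 16061808) (l 16225872)))) (b (c (c (a (l 16136896) (l 16345024)) (l 16143600)) (a (l 16168368) (l 16385784))) (c (a (c (l 16275880) (l 16359072)) (l 16334984)) (l 16278440)))) (c (b (b (a (c (l 16122344) (l 16083824)) (a (l 16185768) (l 16306056))) (a (c (l 16197208) (l 16202632)) (l 16328352))) (b (l 16193304) (l 16325016))) (b (a (b (c (l 16022952) (l 16002288)) (l 16099976)) (c (l 16226176) (l 16306456))) (b (l 16294720) (l 16360672)))))), by decide +kernel⟩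

def k10_pm_202 : ∃ t, chk3 f_pm_202 t 15 16 1 = true :=
  ⟨(l 6), by decide +kernel⟩

def k11_pm_202 : ∃ t, chk3 f_pm_202 t 15 17 1 = true :=
  ⟨(b (b (l 6) (b (l 6) (b (l 6) (a (c (a (c (a (l 16246240) (l 16380280)) (a (l 16216312) (l 16470872))) (a (c (c (a (l 16476440) (l 16491040)) (l 16502224)) (l 16544296)) (l 6))) (a (c (a (l 16364008) (l 16481504)) (l 16316728)) (l 16479176))) (l 6))))) (a (c (a (a (b (c (b (c (l 16289992) (l 16292448)) (c (l 16423648) (l 16409000))) (b (l 16274016) (l 16426696))) (c (b (l 16387840) (l 16502472)) (l 16467520))) (c (b (c (l 16378288) (l 16381216)) (c (l 16493448) (l 16610936))) (b (l 16416480) (l 16610160)))) (a (c (b (c (a (l 16423128) (l 16449304)) (c (l 16469440) (l 16562472))) (c (a (l 16495752) (l 16464848)) (l 16549880))) (b (l 16564960) (l 16546024))) (c (c (b (l 16537856) (b (l 16560056) (l 16473264))) (b (a (l 16515432) (l 16616400)) (c (l 16471200) (l 16441328)))) (c (b (l 16589872) (a (l 16496880) (l 16438056))) (l 16435512)))))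 (b (a (a (c (a (l 16314880) (l 16388776)) (l 16347192)) (b (l 16424800) (l 16495328))) (c (l 16506176) (l 16569880))) (a (c (b (l 16456336) (l 16527328)) (l 16447032)) (b (l 16487600) (l 16419352))))) (c (c (b (a (a (l 16483944) (l 16413928)) (c (l 16389080) (l 16355384))) (a (c (l 16253776) (l 16322160)) (c (l 16182088) (l 16216896)))) (a (a (c (b (l 16506184) (l 16325616)) (b (l 16476136) (l 16356960))) (b (c (l 16496168) (l 16437696)) (l 16253328))) (b (l 16328544) (l 16212144)))) (a (a (b (c (l 16566464) (l 16564552)) (l 16337912)) (c (c (b (a (l 16480864) (l 16485840)) (l 16276280)) (l 16286344)) (l 16259536))) (c (a (c (l 16273576) (a (l 16149344) (l 16290496))) (l 16142640)) (a (b (l 16301832) (l 16220112)) (c (a (l 16053912) (l 16220160)) (a (l 16239352) (b (l 16253064) (l 16129624)))))))))), by decide +kernel⟩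

def k12_pm_202 : ∃ t, chk3 f_pm_202 t 6 18 1 = true :=
  ⟨(a (l 1) (b (a (l 1) (b (l 1) (a (a (l 1) (a (l 1) (b (l 1) (b (l 1) (b (l 1) (c (l 16040592) (l 16039688))))))) (c (c (b (c (l 15906720) (l 15984752)) (c (l 16063160) (l 16079144))) (b (l 15912984) (c (l 16074120) (l 16070304)))) (c (b (l 15922272) (a (l 16039488) (l 15993688))) (c (b (l 15957072) (l 520796525511)) (b (a (l 15923904) (l 15958520)) (a (l 16011968) (l 16101240))))))))) (c (a (a (l 816075246471) (b (l 15880352) (b (l 16047544) (l 16107056)))) (b (b (b (a (a (l 1) (c (l 16076024) (l 16066120))) (c (a (l 16091088) (l 16181736)) (a (l 16124016) (l 16183288)))) (a (l 16070088) (a (l 16163880) (c (l 16166840) (l 16222008))))) (a (l 16051232) (c (l 16197104) (l 16191672)))) (a (c (l 16113288) (l 16061296)) (c (l 16205432) (l 16243688))))) (a (b (a (l 1) (c (l 15946616) (l 15848888))) (a (a (l 1) (l 273298917463)) (c (l 15906520) (b (l 15883720) (l 16005880))))) (b (b (a (a (l 16000664) (c (l 337186850167) (b (l 16027488)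 (l 16088488)))) (c (a (b (l 16122672) (l 16170824)) (b (l 16198080) (l 16262344))) (a (c (l 16002944) (l 16066840)) (b (l 16206888) (l 16269168))))) (a (c (l 16069480) (a (l 16067864) (l 16153912))) (c (l 16225056) (l 16293840)))) (a (c (l 16049120) (l 16095112)) (c (l 16302288) (l 16362568)))))))), by decide +kernel⟩

def k13_pm_202 : ∃ t, chk3 f_pm_202 t 6 19 1 = true :=
  ⟨(a (b (a (c (l 253434841735) (c (l 16005960) (l 274909527303))) (c (b (l 16011888) (a (l 16104144) (l 16041328))) (b (a (l 1) (c (l 16009160) (l 15895264))) (a (c (l 16096856) (b (l 16056344) (l 16105336))) (c (l 16084928) (b (l 16087464) (l 16190560))))))) (a (a (c (l 16048456) (b (c (l 16148480) (l 16142160)) (c (l 16213768) (b (l 16221744) (l 16299808))))) (c (b (l 16184656) (c (l 16287104) (b (l 16281536) (l 16364584)))) (b (c (l 16184920) (b (l 16147376) (l 16202080))) (c (b (l 16295864) (l 16385216)) (l 16323904))))) (c (b (a (l 16064448) (l 16106904)) (c (l 16209120) (l 16245360))) (a (c (b (l 16179336)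 (l 16394120)) (b (l 16163992) (l 16412248))) (c (l 16191920) (l 16296848)))))) (a (b (c (b (a (l 15953728) (c (l 16192688) (l 16121312))) (a (c (l 16155752) (l 16106808)) (l 16181448))) (a (b (c (l 15931472) (a (b (l 15999184) (l 16079176)) (l 16050464))) (c (l 16116832) (l 16204936))) (c (b (l 16109944) (l 16332520)) (l 16073512)))) (c (a (b (l 16187816) (l 16384504)) (b (l 16412168) (l 16341896))) (a (a (l 16233064) (l 16379696)) (l 16261200)))) (c (b (a (b (l 16163240) (l 16434896)) (c (l 16332832) (l 16321680))) (c (l 16047984) (l 16040528))) (b (a (c (b (l 16314760) (l 16528936)) (l 16334248)) (l 16275240)) (l 15985312))))), by decide +kernel⟩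

def k14_pm_202 : ∃ t, chk3 f_pm_202 t 14 36 1 = true :=
  ⟨(a (a (b (b (a (l 1) (c (c (l 387652586871) (l 15957192)) (c (l 15944736) (c (l 15937832) (l 15891088))))) (c (c (c (l 15989512) (l 16004704)) (c (l 15998888) (l 15993752))) (c (b (l 15969296) (l 471941264199)) (a (c (l 15950608) (l 15925328)) (c (l 16024072) (l 16023912)))))) (c (c (b (b (l 16064464) (l 16002984)) (a (l 16110032) (l 16134888))) (b (a (l 16050112) (l 16075536)) (a (l 16116800) (l 16177016)))) (c (b (a (l 15925672) (l 16066248)) (a (l 16108712) (l 16259104))) (b (c (a (l 16052368) (l 16136736)) (l 15988736)) (l 16132680))))) (b (c (c (b (c (l 16037752) (l 15950328)) (a (l 16006984) (l 16019928))) (b (a (l 16015984) (l 16008216)) (a (l 16032440) (l 16102424)))) (c (b (a (c (l 16012304) (l 16014448)) (c (l 16100048) (l 16105136))) (a (l 16001448) (l 16204024))) (b (a (c (l 16015480) (l 15994208)) (l 16085560)) (l 16029088)))) (c (b (c (a (l 16078584) (l 16213784)) (a (l 16140624) (l 16305320))) (c (c (l 16264256)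 (l 16302560)) (l 16253376))) (c (b (l 16160304) (l 16321760)) (l 16150440))))) (c (b (a (b (c (a (c (l 16164824) (l 16172792)) (l 16217176)) (a (l 16017648) (l 16308632))) (c (a (l 16183864) (l 16343296)) (l 16168416))) (c (b (l 16309608) (l 16419784)) (b (l 16386928) (l 16529624)))) (a (c (a (b (l 16323448) (l 16423360)) (l 16334800)) (c (l 16283296) (l 16326000))) (c (l 16340384) (l 16379344)))) (b (a (c (c (l 16062488) (l 16083712)) (b (l 16224376) (l 16312112))) (c (l 16318096) (l 16358048))) (a (c (l 16259304) (l 16298200)) (c (l 16377424) (l 16396552)))))), by decide +kernel⟩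

def k15_pm_202 : ∃ t, chk3 f_pm_202 t 14 37 1 = true :=
  ⟨(c (a (b (a (b (c (b (l 16175344) (a (l 16285256) (l 16397000))) (a (l 16130512) (l 16344784))) (c (a (b (l 16348656) (l 16430536)) (l 16316736)) (c (l 16261056) (l 16310952)))) (b (c (l 16327064) (l 16385224)) (c (l 16397496) (l 16545992)))) (a (l 16386344) (b (c (a (l 16497224) (l 16421168)) (l 16394672)) (l 16367912)))) (b (c (a (l 16273408) (l 16158520)) (a (l 16332864) (l 16171856))) (a (c (b (l 16197104) (l 16132488)) (b (l 16190752) (l 16145048))) (b (l 15958304) (c (l 15950408) (l 15958168)))))) (a (b (a (b (c (b (l 16319656) (l 16330184)) (l 16292336)) (c (c (l 16354616) (l 16351256)) (l 16326928))) (b (l 16318896) (a (l 16408256) (l 16519336)))) (a (l 16498712) (b (c (l 16360648) (l 16378704)) (l 16356728)))) (b (a (c (l 16330712) (l 16349544)) (b (l 16285120) (l 16222880))) (a (b (a (l 16248536) (l 16241664)) (b (l 16154488) (l 16144544))) (b (l 16085080) (l 15813552)))))), by decide +kernel⟩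

def k16_pm_202 : ∃ t, chk3 f_pm_202 t 15 18 2 = true :=
  ⟨(a (b (a (c (b (a (l 16475240) (l 16430184)) (a (l 16358744) (l 16275832))) (b (a (l 16493512) (l 16426032)) (l 16143008))) (c (b (a (c (l 16292080) (l 16390728)) (c (l 16358640) (l 16245200))) (c (a (l 16203584) (l 16189560)) (a (l 16217384) (l 16158288)))) (c (a (l 16135816) (b (l 16313648) (l 16162024))) (l 16058816)))) (a (b (c (a (l 16140392) (l 16060216)) (l 16047696)) (c (a (l 15883632) (l 15763272)) (l 15829488))) (b (c (a (c (l 16035008) (l 16004832)) (c (l 15868208) (l 15730328))) (b (l 16030944) (l 15780040))) (c (a (c (b (l 15845024) (l 15672024)) (l 15722144)) (c (l 15639928) (l 15624968))) (a (l 15706536) (l 15432592)))))) (b (a (c (b (a (l 16267904) (l 16178624)) (a (l 16100872) (b (l 16056400) (l 15933944)))) (a (c (b (l 16272936) (l 16103936)) (b (l 16260968) (l 16090152))) (b (l 16180896) (l 15759376)))) (b (c (b (l 15984896) (l 15838952)) (a (l 16089512) (l 15968304))) (c (b (l 15850320) (l 15686152)) (l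 15648104)))) (a (c (b (a (b (l 15928672) (l 15760848)) (l 15675640)) (l 15230112)) (a (b (c (l 15757600) (l 15783376)) (c (l 15455784) (l 15436056))) (b (l 15668464) (l 15268008)))) (b (c (l 15416312) (l 15394688)) (c (l 15026680) (l 14997744)))))), by decide +kernel⟩

def k17_pm_202 : ∃ t, chk3 f_pm_202 t 15 18 3 = true :=
  ⟨(a (b (b (a (a (c (l 16491840) (l 16489856)) (b (l 16479328) (l 16399400))) (l 16154640)) (a (c (l 16241984) (l 16235144)) (l 16058920))) (b (a (b (l 16134536) (l 16010928)) (b (l 16002536) (l 15874032))) (a (b (l 15877688) (l 15732512)) (b (l 15712480) (l 15518248))))) (b (a (b (c (a (l 16242008) (c (l 16180256) (l 16167072))) (l 16196072)) (a (l 16000488) (c (b (l 15964168) (l 15732400)) (l 15960264)))) (b (c (a (c (l 16089920) (a (l 16115744) (l 16061672))) (l 15955776)) (a (a (l 16099256) (l 15947416)) (c (a (l 15949552) (l 15912544)) (a (l 15985792) (l 15779728))))) (c (a (c (l 15839288) (a (l 15882136) (l 15788984))) (l 15646712)) (a (l 15608600) (c (l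 15633984) (l 15475312)))))) (a (b (c (a (l 15800456) (l 15443312)) (l 15618056)) (c (a (l 15405816) (l 15224184)) (l 15297272))) (a (c (c (l 15279056) (b (l 15462936) (l 15055552))) (b (l 15446776) (l 15033736))) (c (l 14955920) (c (b (l 15260824) (l 14851968)) (a (l 15095976) (l 14787184)))))))), by decide +kernel⟩

def k18_pm_202 : ∃ t, chk3 f_pm_202 t 14 19 1 = true :=
  ⟨(b (a (c (a (l 16112240) (l 16142016)) (a (l 16204480) (l 16141768))) (a (c (l 15974816) (l 15950272)) (b (b (c (c (l 15865832) (l 15850144)) (l 15661664)) (l 15601832)) (c (l 15578208) (l 15560096))))) (b (a (c (l 15984168) (l 15982032)) (a (c (l 15528552) (l 15660856)) (l 15210504))) (a (a (l 15789904) (c (l 15671856) (l 15700832))) (a (c (l 15430904) (l 15385536)) (l 14983144))))), by decide +kernel⟩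

def k19_pm_202 : ∃ t, chk3 f_pm_202 t 15 19 1 = true :=
  ⟨(b (a (b (a (a (b (c (c (l 15673976) (l 15655720)) (l 15627944)) (l 15511504)) (c (b (c (l 15554168) (l 15533704)) (b (l 15401456) (l 15315120))) (b (l 15501912) (l 15250048)))) (c (c (b (a (l 15450520) (l 15310152)) (a (b (l 15281496) (l 15039976)) (b (l 15142624) (c (l 15041856) (l 15021232))))) (b (l 15342264) (b (l 15169616) (l 15066848)))) (b (l 15294736) (b (l 15117160) (l 15011944))))) (c (a (l 15203632) (a (l 14876728) (c (c (l 14828000) (l 14805296)) (l 14749184)))) (a (l 15156656) (b (l 14877544) (l 14702232))))) (c (b (a (c (b (l 15058920) (l 14584976)) (a (c (l 14789720) (l 14996648)) (b (l 14945232) (l 14719496)))) (b (l 14696168) (b (l 14531160) (l 14419968)))) (a (c (b (l 14384864) (l 14433720)) (a (c (l 14603336) (l 14575648)) (l 14307520))) (b (a (l 14328056) (l 14195048)) (a (c (l 14155160) (l 14110592)) (l 14038152))))) (b (a (c (a (l 14960296) (b (l 14916368) (l 14686408))) (l 14844984)) (c (a (c (l 14634656)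 (l 14466880)) (l 14440648)) (a (l 14564720) (c (l 14327200) (a (l 14436512) (l 14342336)))))) (a (c (a (l 14533960) (c (l 14365528) (l 14335632))) (l 14402056)) (c (a (c (l 14185552) (a (l 14200344) (l 14116384))) (l 14045648)) (a (b (l 14225088) (l 14021272)) (c (l 14010744) (l 13920848)))))))) (a (a (c (l 14728192) (l 14663232)) (c (c (a (l 14504600) (b (l 14487504) (l 14192688))) (a (l 14441480) (l 14288744))) (l 14296736))) (c (a (c (b (l 14217152) (l 14007088)) (a (b (l 14251072) (l 14010720)) (l 13998824))) (b (b (a (l 14019800) (l 13940880)) (l 13905096)) (l 13797424))) (a (a (l 14051344) (c (l 13952024) (l 13893984))) (c (a (l 13838832) (l 13753720)) (a (l 13787136) (c (l 13712176) (l 13682168)))))))), by decide +kernel⟩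

def k20_pm_202 : ∃ t, chk3 f_pm_202 t 6 10 1 = true :=
  ⟨(b (a (b (c (a (b (c (l 16228040) (l 16245664)) (c (l 16242144) (l 16247968))) (c (b (l 16399640) (l 16278656)) (b (l 16409696) (l 16272992)))) (a (c (b (l 16340272) (l 16305888)) (l 16223888)) (c (l 16148000) (l 16228584)))) (a (c (a (l 16270288) (l 16314384)) (l 16239760)) (c (l 16162288) (l 16261400)))) (b (a (c (a (b (l 16320288) (l 16181216)) (l 15958104)) (a (l 16089016) (l 16130000))) (b (c (l 16009872) (l 15987320)) (c (a (l 15939312) (b (l 15815224) (l 15708928))) (a (l 15913656) (l 15639632))))) (a (a (c (b (l 16248480) (l 16293744)) (l 16135816)) (c (b (l 16120488) (l 16223152)) (b (l 16101800) (l 16229896)))) (a (b (c (l 15940744) (l 15914872)) (l 15992048)) (l 15693984))))) (a (a (b (c (a (l 16173080) (l 16069744)) (l 16084064)) (c (b (a (l 15975560) (l 16094712)) (l 16032800)) (b (l 15979200) (l 16008488)))) (b (c (a (b (l 16380280) (l 16270584)) (b (l 16428136) (l 16428992))) (b (l 16274136) (a (l 16256464)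 (l 16420104)))) (c (l 16310160) (l 16299160)))) (a (a (b (c (l 16396352) (l 16435640)) (l 16560168)) (b (l 16305088) (l 16254848))) (b (a (l 16040800) (l 15756768)) (a (b (l 16079512) (l 16160888)) (l 15799464)))))), by decide +kernel⟩

def k21_pm_202 : ∃ t, chk3 f_pm_202 t 7 10 1 = true :=
  ⟨(a (b (b (a (a (b (c (l 15706792) (l 15715456)) (c (l 15497744) (l 15454944))) (c (l 15204704) (l 15260456))) (a (b (l 15102656) (l 14800336)) (b (l 14671368) (l 14367888)))) (a (a (l 15393592) (l 15070504)) (a (b (l 14692400) (l 14776232)) (b (l 14319744) (l 14488464))))) (a (b (a (b (l 15438080) (l 15513304)) (b (l 15162752) (l 15316568))) (l 15667360)) (a (l 14978904) (l 14887576)))) (b (a (b (a (a (b (l 14325232) (l 14056448)) (b (l 14131664) (l 13924912))) (c (c (a (b (l 14095080) (l 13946440)) (l 13938136)) (l 13814032)) (l 13830960))) (c (a (l 14173088) (c (l 14056416) (l 13997392))) (l 13999272))) (b (c (a (c (l 13797024) (a (l 13795144) (l 13698496))) (l 13588400)) (a (l 13656824) (c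 (l 13503112) (a (l 13492368) (l 13395016))))) (c (a (c (l 13880688) (l 13760648)) (l 13673864)) (a (l 13743288) (c (l 13590280) (a (l 13577440) (l 13483656))))))) (a (c (a (l 14702992) (c (b (l 14422336) (l 14793392)) (l 14565120))) (b (l 14382400) (l 14762880))) (c (a (c (l 14462200) (a (l 14462312) (l 14380328))) (l 14294632)) (a (a (l 14381840) (l 14102672)) (c (a (l 14262984) (l 14192584)) (a (l 14218048) (l 14040152)))))))), by decide +kernel⟩

def k22_pm_202 : ∃ t, chk3 f_pm_202 t 3 11 1 = true :=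
  ⟨(a (b (a (a (b (c (l 16092600) (l 16070352)) (c (l 15955816) (l 15997064))) (b (a (l 16348720) (b (l 16519992) (l 16509320))) (a (l 16281648) (l 16371328)))) (a (b (a (b (l 16621992) (l 16653000)) (l 16393072)) (l 16382456)) (b (l 16236320) (l 16524640)))) (a (c (b (l 16217568) (l 16361608)) (b (l 16197928) (l 16347024))) (a (b (l 16312456) (l 16516928)) (b (l 16526280) (l 16691176))))) (a (b (a (a (l 15992136) (b (l 15913928) (l 16239552))) (b (l 15349976) (l 15874688))) (a (b (l 16421056) (l 16432032)) (c (l 16126904) (l 16104800)))) (b (a (c (a (l 15456504) (c (l 15347232) (l 15333368))) (l 15308976)) (c (a (c (l 15235544) (l 15057056)) (l 15084488)) (a (l 15057608) (c (l 15041632) (a (l 15047216) (l 14974920)))))) (a (c (a (l 15792992) (c (l 15704728) (l 15676632))) (l 15662040)) (c (a (b (l 15432600) (l 15551184)) (l 15457096)) (a (b (l 15540328) (l 15510904)) (c (l 15425840) (a (l 15430440) (l 15372760))))))))), by decide +kernel⟩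

def k23_pm_202 : ∃ t, chk3 f_pm_202 t 3 3 1 = true :=
  ⟨(b (a (b (a (b (c (l 16478816) (l 16490784)) (l 16616048)) (b (a (l 16643376) (l 16615480)) (a (l 16752032) (l 16534840)))) (a (b (a (l 16746864) (l 16766328)) (l 16777216)) (b (a (l 16710248) (l 16516872)) (l 16615176)))) (a (b (a (b (l 16355864) (l 16302312)) (b (l 15818632) (l 16006360))) (a (l 16299392) (l 16006360))) (a (b (c (a (l 15728680) (l 15649840)) (l 15649120)) (c (l 15661304) (l 15647568))) (c (b (a (l 15548968) (l 15451960)) (l 15438096)) (a (l 15508592) (c (l 15420544) (b (l 15392720) (l 15392720)))))))) (b (a (a (l 16777216) (c (l 16617984) (l 16612376))) (a (a (l 16299392) (l 16006360)) (a (l 15561848) (c (l 15501008) (l 15426904))))) (a (a (l 16777216) (l 16615176)) (a (l 16155688) (a (l 15666704) (c (l 15501008) (l 15447880))))))), by decide +kernel⟩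

theorem s24_pm_202 : ∃ t, chk3 f_pm_202 t 3 10 1 = true := ex3_a k20_pm_202 k21_pm_202

theorem s25_pm_202 : ∃ t, chk3 f_pm_202 t 3 5 1 = true := ex3_b s24_pm_202 k22_pm_202

theorem s26_pm_202 : ∃ t, chk3 f_pm_202 t 7 19 1 = true := ex3_a k18_pm_202 k19_pm_202

theorem s27_pm_202 : ∃ t, chk3 f_pm_202 t 15 18 1 = true := ex3_c k16_pm_202 k17_pm_202

theorem s28_pm_202 : ∃ t, chk3 f_pm_202 t 14 18 1 = true := ex3_b k14_pm_202 k15_pm_202

theorem s29_pm_202 : ∃ t, chk3 f_pm_202 t 7 18 1 = true := ex3_a s28_pm_202 s27_pm_202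

theorem s30_pm_202 : ∃ t, chk3 f_pm_202 t 7 9 1 = true := ex3_b s29_pm_202 s26_pm_202

theorem s31_pm_202 : ∃ t, chk3 f_pm_202 t 6 9 1 = true := ex3_b k12_pm_202 k13_pm_202

theorem s32_pm_202 : ∃ t, chk3 f_pm_202 t 3 9 1 = true := ex3_a s31_pm_202 s30_pm_202

theorem s33_pm_202 : ∃ t, chk3 f_pm_202 t 15 8 1 = true := ex3_b k10_pm_202 k11_pm_202

theorem s34_pm_202 : ∃ t, chk3 f_pm_202 t 29 17 1 = true := ex3_a k8_pm_202 k9_pm_202

theorem s35_pm_202 : ∃ t, chk3 f_pm_202 t 14 17 1 = true := ex3_a k7_pm_202 s34_pm_202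

theorem s36_pm_202 : ∃ t, chk3 f_pm_202 t 14 8 1 = true := ex3_b k6_pm_202 s35_pm_202

theorem s37_pm_202 : ∃ t, chk3 f_pm_202 t 7 8 1 = true := ex3_a s36_pm_202 s33_pm_202

theorem s38_pm_202 : ∃ t, chk3 f_pm_202 t 3 8 1 = true := ex3_a k5_pm_202 s37_pm_202

theorem s39_pm_202 : ∃ t, chk3 f_pm_202 t 3 4 1 = true := ex3_b s38_pm_202 s32_pm_202

theorem s40_pm_202 : ∃ t, chk3 f_pm_202 t 3 2 1 = true := ex3_b s39_pm_202 s25_pm_202

theorem s41_pm_202 : ∃ t, chk3 f_pm_202 t 3 1 1 = true := ex3_b s40_pm_202 k23_pm_202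

theorem s42_pm_202 : ∃ t, chk3 f_pm_202 t 5 5 1 = true := ex3_b k2_pm_202 k3_pm_202

theorem s43_pm_202 : ∃ t, chk3 f_pm_202 t 5 2 1 = true := ex3_b k1_pm_202 s42_pm_202

theorem s44_pm_202 : ∃ t, chk3 f_pm_202 t 2 2 1 = true := ex3_a k0_pm_202 s43_pm_202

theorem s45_pm_202 : ∃ t, chk3 f_pm_202 t 2 1 1 = true := ex3_b s44_pm_202 k4_pm_202

theorem s46_pm_202 : ∃ t, chk3 f_pm_202 t 1 1 1 = true := ex3_a s45_pm_202 s41_pm_202

theorem c_pm_202 : CertNX 0 536870912 0 536870912 1046898278 26843546 3 true true false .pp 2 0 2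
    ndN0q2 ndN3q0 pcN2 cut_pm_202 Ext.none :=
  certNX1 (fam := true) (s1 := true) (s2 := false) (a := 2) (b := 0) (c := 2) (cn := .pp) (n1 := ndN0q2) (n2 := ndN3q0) (pc := pcN2) (cut := cut_pm_202) (xt := Ext.none) (P1 := 0) (W1 := 536870912) (P2 := 0) (W2 := 536870912) (P3 := 1046898278) (W3 := 26843546) (N0 := 3)
    rfl (fun _ => rfl) s46_pm_202

noncomputable def f_pm_203 : ℕ → ℕ → ℕ → ℕ → Bool := onCell 0 536870912 1610612736 536870912 1046898278 26843546
    (rowNX 3 1 true true false .up 2 0 3 (qsf 0 536870912 0 536870912 3) ndN0q2 ndN3q0 pcN3 Cut.none Ext.none)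

def k0_pm_203 : ∃ t, chk3 f_pm_203 t 1 1 1 = true :=
  ⟨(b (b (b (a (a (l 4) (c (l 16777216) (l 16777216))) (a (a (c (l 16777216) (l 16777216)) (l 16615176)) (a (l 16155688) (a (l 15666704) (c (l 15501008) (l 15447880)))))) (a (l 4) (a (c (l 16600616) (a (l 16777216) (l 16612376))) (a (c (l 16166464) (l 16144952)) (l 2))))) (a (l 4) (a (l 2) (l 2)))) (l 2)), by decide +kernel⟩

theorem c_pm_203 : CertNX 0 536870912 0 536870912 1046898278 26843546 3 true true false .up 2 0 3
    ndN0q2 ndN3q0 pcN3 Cut.none Ext.none :=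
  certNX1 (fam := true) (s1 := true) (s2 := false) (a := 2) (b := 0) (c := 3) (cn := .up) (n1 := ndN0q2) (n2 := ndN3q0) (pc := pcN3) (cut := Cut.none) (xt := Ext.none) (P1 := 0) (W1 := 536870912) (P2 := 0) (W2 := 536870912) (P3 := 1046898278) (W3 := 26843546) (N0 := 3)
    rfl (fun _ => rfl) k0_pm_203

noncomputable def f_pm_213 : ℕ → ℕ → ℕ → ℕ → Bool := onCell 0 536870912 536870912 536870912 1046898278 26843546
    (rowNX 3 0 true true false .pnn 2 1 3 (qsf 0 536870912 536870912 536870912 3) ndN0q2 ndN3q1 pcN3 Cut.none Ext.none)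

def k0_pm_213 : ∃ t, chk3 f_pm_213 t 1 1 1 = true :=
  ⟨(a (l 4) (b (a (a (l 4) (b (b (c (l 16617984) (l 16612376)) (l 4)) (l 4))) (b (a (c (b (l 16166464) (l 15935776)) (c (l 16003608) (l 15887848))) (b (a (l 15666704) (c (l 15501008) (l 15447880))) (a (c (l 15703248) (l 15647568)) (c (l 15501008) (l 15447880))))) (b (a (l 4) (c (a (l 15703248) (l 15501008)) (a (l 15647568) (l 15259136)))) (l 4)))) (l 4))), by decide +kernel⟩

theorem c_pm_213 : CertNX 0 536870912 536870912 536870912 1046898278 26843546 3 true true false .pnn 2 1 3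
    ndN0q2 ndN3q1 pcN3 Cut.none Ext.none :=
  certNX0 (fam := true) (s1 := true) (s2 := false) (a := 2) (b := 1) (c := 3) (cn := .pnn) (n1 := ndN0q2) (n2 := ndN3q1) (pc := pcN3) (cut := Cut.none) (xt := Ext.none) (P1 := 0) (W1 := 536870912) (P2 := 536870912) (W2 := 536870912) (P3 := 1046898278) (W3 := 26843546) (N0 := 3)
    rfl k0_pm_213

noncomputable def f_mm_001 : ℕ → ℕ → ℕ → ℕ → Bool := onCell 0 536870912 0 536870912 1046898278 26843546
    (rowNX 3 0 true false false .up 0 0 1 (qsf 0 536870912 0 536870912 1) ndN0q0 ndN3q0 pcN1 Cut.none Ext.none)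

def k0_mm_001 : ∃ t, chk3 f_mm_001 t 1 1 1 = true :=
  ⟨(l 4), by decide +kernel⟩

theorem c_mm_001 : CertNX 0 536870912 0 536870912 1046898278 26843546 3 true false false .up 0 0 1
    ndN0q0 ndN3q0 pcN1 Cut.none Ext.none :=
  certNX0 (fam := true) (s1 := false) (s2 := false) (a := 0) (b := 0) (c := 1) (cn := .up) (n1 := ndN0q0) (n2 := ndN3q0) (pc := pcN1) (cut := Cut.none) (xt := Ext.none) (P1 := 0) (W1 := 536870912) (P2 := 0) (W2 := 536870912) (P3 := 1046898278) (W3 := 26843546) (N0 := 3)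
    rfl k0_mm_001

noncomputable def f_mm_011 : ℕ → ℕ → ℕ → ℕ → Bool := onCell 0 536870912 536870912 536870912 1046898278 26843546
    (rowNX 3 0 true false false .pnn 0 1 1 (qsf 0 536870912 536870912 536870912 1) ndN0q0 ndN3q1 pcN1 Cut.none Ext.none)

def k0_mm_011 : ∃ t, chk3 f_mm_011 t 1 1 1 = true :=
  ⟨(l 4), by decide +kernel⟩

theorem c_mm_011 : CertNX 0 536870912 536870912 536870912 1046898278 26843546 3 true false false .pnn 0 1 1
    ndN0q0 ndN3q1 pcN1 Cut.none Ext.none :=
  certNX0 (fam := true) (s1 := false) (s2 := false) (a := 0) (b := 1) (c := 1) (cn := .pnn) (n1 := ndN0q0) (n2 := ndN3q1) (pc := pcN1) (cut := Cut.none) (xt := Ext.none) (P1 := 0) (W1 := 536870912) (P2 := 536870912) (W2 := 536870912) (P3 := 1046898278) (W3 := 26843546) (N0 := 3)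
    rfl k0_mm_011

noncomputable def f_mm_012 : ℕ → ℕ → ℕ → ℕ → Bool := onCell 0 536870912 536870912 536870912 1046898278 26843546
    (rowNX 3 0 true false false .pnp 0 1 2 (qsf 0 536870912 536870912 536870912 2) ndN0q0 ndN3q1 pcN2 Cut.none Ext.none)

def k0_mm_012 : ∃ t, chk3 f_mm_012 t 1 1 1 = true :=
  ⟨(l 4), by decide +kernel⟩

theorem c_mm_012 : CertNX 0 536870912 536870912 536870912 1046898278 26843546 3 true false false .pnp 0 1 2
    ndN0q0 ndN3q1 pcN2 Cut.none Ext.none :=
  certNX0 (fam := true) (s1 := false) (s2 := false) (a := 0) (b := 1) (c := 2) (cn := .pnp) (n1 := ndN0q0) (n2 := ndN3q1) (pc := pcN2) (cut := Cut.none) (xt := Ext.none) (P1 := 0) (W1 := 536870912) (P2 := 536870912) (W2 := 536870912) (P3 := 1046898278) (W3 := 26843546) (N0 := 3)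
    rfl k0_mm_012

noncomputable def f_mm_022 : ℕ → ℕ → ℕ → ℕ → Bool := onCell 0 536870912 1073741824 536870912 1046898278 26843546
    (rowNX 3 0 true false false .pp 0 2 2 (qsf 0 536870912 1073741824 536870912 2) ndN0q0 ndN3q2 pcN2 Cut.none Ext.none)

def k0_mm_022 : ∃ t, chk3 f_mm_022 t 1 1 1 = true :=
  ⟨(l 5), by decide +kernel⟩

theorem c_mm_022 : CertNX 0 536870912 1073741824 536870912 1046898278 26843546 3 true false false .pp 0 2 2
    ndN0q0 ndN3q2 pcN2 Cut.none Ext.none :=
  certNX0 (fam := true) (s1 := false) (s2 := false) (a := 0) (b := 2) (c := 2) (cn := .pp) (n1 := ndN0q0) (n2 := ndN3q2) (pc := pcN2) (cut := Cut.none) (xt := Ext.none) (P1 := 0) (W1 := 536870912) (P2 := 1073741824) (W2 := 536870912) (P3 := 1046898278) (W3 := 26843546) (N0 := 3)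
    rfl k0_mm_022

noncomputable def f_mm_023 : ℕ → ℕ → ℕ → ℕ → Bool := onCell 0 536870912 1073741824 536870912 1046898278 26843546
    (rowNX 3 0 true false false .up 0 2 3 (qsf 0 536870912 1073741824 536870912 3) ndN0q0 ndN3q2 pcN3 Cut.none Ext.none)

def k0_mm_023 : ∃ t, chk3 f_mm_023 t 1 1 1 = true :=
  ⟨(l 5), by decide +kernel⟩

theorem c_mm_023 : CertNX 0 536870912 1073741824 536870912 1046898278 26843546 3 true false false .up 0 2 3
    ndN0q0 ndN3q2 pcN3 Cut.none Ext.none :=
  certNX0 (fam := true) (s1 := false) (s2 := false) (a := 0) (b := 2) (c := 3) (cn := .up) (n1 := ndN0q0) (n2 := ndN3q2) (pc := pcN3) (cut := Cut.none) (xt := Ext.none) (P1 := 0) (W1 := 536870912) (P2 := 1073741824) (W2 := 536870912) (P3 := 1046898278) (W3 := 26843546) (N0 := 3)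
    rfl k0_mm_023

noncomputable def f_mm_033 : ℕ → ℕ → ℕ → ℕ → Bool := onCell 0 536870912 1610612736 536870912 1046898278 26843546
    (rowNX 3 0 true false false .pnn 0 3 3 (qsf 0 536870912 1610612736 536870912 3) ndN0q0 ndN3q3 pcN3 Cut.none Ext.none)

def k0_mm_033 : ∃ t, chk3 f_mm_033 t 1 1 1 = true :=
  ⟨(l 4), by decide +kernel⟩

theorem c_mm_033 : CertNX 0 536870912 1610612736 536870912 1046898278 26843546 3 true false false .pnn 0 3 3
    ndN0q0 ndN3q3 pcN3 Cut.none Ext.none :=
  certNX0 (fam := true) (s1 := false) (s2 := false) (a := 0) (b := 3) (c := 3) (cn := .pnn) (n1 := ndN0q0) (n2 := ndN3q3) (pc := pcN3) (cut := Cut.none) (xt := Ext.none) (P1 := 0) (W1 := 536870912) (P2 := 1610612736) (W2 := 536870912) (P3 := 1046898278) (W3 := 26843546) (N0 := 3)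
    rfl k0_mm_033

noncomputable def cut_mm_101 : Cut := Cut.of [[⟨0, 1, 0, 67108864⟩, ⟨1, 0, 0, 67108864⟩, ⟨2, 1, 0, 67108864⟩]]

noncomputable def f_mm_101 : ℕ → ℕ → ℕ → ℕ → Bool := onCell 536870912 536870912 0 536870912 1046898278 26843546
    (rowNX 3 0 true false false .npn 1 0 1 (qsf 536870912 536870912 0 536870912 1) ndN0q1 ndN3q0 pcN1 cut_mm_101 Ext.none)

def k0_mm_101 : ∃ t, chk3 f_mm_101 t 1 1 1 = true :=
  ⟨(a (l 4) (b (a (l 4) (b (a (l 4) (b (a (l 4) (b (l 6) (l 4))) (l 4))) (l 4))) (l 4))), by decide +kernel⟩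

theorem c_mm_101 : CertNX 536870912 536870912 0 536870912 1046898278 26843546 3 true false false .npn 1 0 1
    ndN0q1 ndN3q0 pcN1 cut_mm_101 Ext.none :=
  certNX0 (fam := true) (s1 := false) (s2 := false) (a := 1) (b := 0) (c := 1) (cn := .npn) (n1 := ndN0q1) (n2 := ndN3q0) (pc := pcN1) (cut := cut_mm_101) (xt := Ext.none) (P1 := 536870912) (W1 := 536870912) (P2 := 0) (W2 := 536870912) (P3 := 1046898278) (W3 := 26843546) (N0 := 3)
    rfl k0_mm_101

noncomputable def cut_mm_102 : Cut := Cut.of [[⟨0, 1, 0, 67108864⟩, ⟨1, 0, 0, 67108864⟩, ⟨2, 1, 0, 67108864⟩]]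

noncomputable def f_mm_102 : ℕ → ℕ → ℕ → ℕ → Bool := onCell 536870912 536870912 0 536870912 1046898278 26843546
    (rowNX 3 0 true false false .npp 1 0 2 (qsf 536870912 536870912 0 536870912 2) ndN0q1 ndN3q0 pcN2 cut_mm_102 Ext.none)

def k0_mm_102 : ∃ t, chk3 f_mm_102 t 1 1 1 = true :=
  ⟨(a (l 4) (b (a (l 4) (b (b (a (l 4) (b (a (l 4) (l 6)) (l 4))) (l 4)) (l 4))) (l 4))), by decide +kernel⟩

theorem c_mm_102 : CertNX 536870912 536870912 0 536870912 1046898278 26843546 3 true false false .npp 1 0 2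
    ndN0q1 ndN3q0 pcN2 cut_mm_102 Ext.none :=
  certNX0 (fam := true) (s1 := false) (s2 := false) (a := 1) (b := 0) (c := 2) (cn := .npp) (n1 := ndN0q1) (n2 := ndN3q0) (pc := pcN2) (cut := cut_mm_102) (xt := Ext.none) (P1 := 536870912) (W1 := 536870912) (P2 := 0) (W2 := 536870912) (P3 := 1046898278) (W3 := 26843546) (N0 := 3)
    rfl k0_mm_102

noncomputable def f_mm_112 : ℕ → ℕ → ℕ → ℕ → Bool := onCell 536870912 536870912 536870912 536870912 1046898278 26843546
    (rowNX 3 0 true false false .dn 1 1 2 (qsf 536870912 536870912 536870912 536870912 2) ndN0q1 ndN3q1 pcN2 Cut.none Ext.none)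

def k0_mm_112 : ∃ t, chk3 f_mm_112 t 1 1 1 = true :=
  ⟨(l 4), by decide +kernel⟩

theorem c_mm_112 : CertNX 536870912 536870912 536870912 536870912 1046898278 26843546 3 true false false .dn 1 1 2
    ndN0q1 ndN3q1 pcN2 Cut.none Ext.none :=
  certNX0 (fam := true) (s1 := false) (s2 := false) (a := 1) (b := 1) (c := 2) (cn := .dn) (n1 := ndN0q1) (n2 := ndN3q1) (pc := pcN2) (cut := Cut.none) (xt := Ext.none) (P1 := 536870912) (W1 := 536870912) (P2 := 536870912) (W2 := 536870912) (P3 := 1046898278) (W3 := 26843546) (N0 := 3)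
    rfl k0_mm_112

noncomputable def f_mm_113 : ℕ → ℕ → ℕ → ℕ → Bool := onCell 536870912 536870912 536870912 536870912 1046898278 26843546
    (rowNX 3 0 true false false .nn 1 1 3 (qsf 536870912 536870912 536870912 536870912 3) ndN0q1 ndN3q1 pcN3 Cut.none Ext.none)

def k0_mm_113 : ∃ t, chk3 f_mm_113 t 1 1 1 = true :=
  ⟨(l 4), by decide +kernel⟩

theorem c_mm_113 : CertNX 536870912 536870912 536870912 536870912 1046898278 26843546 3 true false false .nn 1 1 3
    ndN0q1 ndN3q1 pcN3 Cut.none Ext.none :=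
  certNX0 (fam := true) (s1 := false) (s2 := false) (a := 1) (b := 1) (c := 3) (cn := .nn) (n1 := ndN0q1) (n2 := ndN3q1) (pc := pcN3) (cut := Cut.none) (xt := Ext.none) (P1 := 536870912) (W1 := 536870912) (P2 := 536870912) (W2 := 536870912) (P3 := 1046898278) (W3 := 26843546) (N0 := 3)
    rfl k0_mm_113

noncomputable def f_mm_123 : ℕ → ℕ → ℕ → ℕ → Bool := onCell 536870912 536870912 1073741824 536870912 1046898278 26843546
    (rowNX 3 0 true false false .npn 1 2 3 (qsf 536870912 536870912 1073741824 536870912 3) ndN0q1 ndN3q2 pcN3 Cut.none Ext.none)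

def k0_mm_123 : ∃ t, chk3 f_mm_123 t 1 1 1 = true :=
  ⟨(l 4), by decide +kernel⟩

theorem c_mm_123 : CertNX 536870912 536870912 1073741824 536870912 1046898278 26843546 3 true false false .npn 1 2 3
    ndN0q1 ndN3q2 pcN3 Cut.none Ext.none :=
  certNX0 (fam := true) (s1 := false) (s2 := false) (a := 1) (b := 2) (c := 3) (cn := .npn) (n1 := ndN0q1) (n2 := ndN3q2) (pc := pcN3) (cut := Cut.none) (xt := Ext.none) (P1 := 536870912) (W1 := 536870912) (P2 := 1073741824) (W2 := 536870912) (P3 := 1046898278) (W3 := 26843546) (N0 := 3)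
    rfl k0_mm_123

noncomputable def f_mm_133 : ℕ → ℕ → ℕ → ℕ → Bool := onCell 536870912 536870912 1610612736 536870912 1046898278 26843546
    (rowNX 3 0 true false false .dn 1 3 3 (qsf 536870912 536870912 1610612736 536870912 3) ndN0q1 ndN3q3 pcN3 Cut.none Ext.none)

def k0_mm_133 : ∃ t, chk3 f_mm_133 t 1 1 1 = true :=
  ⟨(l 4), by decide +kernel⟩

theorem c_mm_133 : CertNX 536870912 536870912 1610612736 536870912 1046898278 26843546 3 true false false .dn 1 3 3
    ndN0q1 ndN3q3 pcN3 Cut.none Ext.none :=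
  certNX0 (fam := true) (s1 := false) (s2 := false) (a := 1) (b := 3) (c := 3) (cn := .dn) (n1 := ndN0q1) (n2 := ndN3q3) (pc := pcN3) (cut := Cut.none) (xt := Ext.none) (P1 := 536870912) (W1 := 536870912) (P2 := 1610612736) (W2 := 536870912) (P3 := 1046898278) (W3 := 26843546) (N0 := 3)
    rfl k0_mm_133

noncomputable def cut_mm_202 : Cut := Cut.of [[⟨0, 1, 0, 67108864⟩, ⟨1, 0, 0, 67108864⟩, ⟨2, 1, 0, 67108864⟩]]

noncomputable def f_mm_202 : ℕ → ℕ → ℕ → ℕ → Bool := onCell 0 536870912 1073741824 536870912 1046898278 26843546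
    (rowNX 3 1 true false false .pp 2 0 2 (qsf 0 536870912 0 536870912 2) ndN0q2 ndN3q0 pcN2 cut_mm_202 Ext.none)

def k0_mm_202 : ∃ t, chk3 f_mm_202 t 4 2 1 = true :=
  ⟨(b (l 1) (b (b (b (l 1) (b (a (l 1) (a (l 1) (c (l 16109744) (l 16033272)))) (a (c (a (l 15869960) (l 15824680)) (a (l 15847240) (c (l 15849704) (l 15840640)))) (c (a (l 15889792) (l 15932832)) (a (c (l 15879592) (l 15875328)) (c (l 15932376) (l 15933752))))))) (a (b (c (a (b (c (l 15672184) (l 15665256)) (c (l 15503000) (l 15535008))) (b (a (l 15675208) (l 15695096)) (c (l 15563664) (l 15578912)))) (a (b (c (l 15666912) (l 15665488)) (c (l 15541160) (l 15522856))) (b (c (l 15685576) (l 15683704)) (l 15565672)))) (c (a (b (a (l 15427216) (l 15447968)) (l 15343624)) (c (l 15459520) (l 15448496))) (a (b (l 15406192) (l 15303264)) (l 15416528)))) (c (b (a (b (c (l 15730328) (l 15736632)) (l 15633608)) (b (c (l 15799000) (l 15809440)) (l 15724392))) (c (a (l 15540024) (l 15636312)) (l 15574264))) (b (c (a (l 15602256)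 (l 15765800)) (a (l 15679376) (l 15755704))) (a (l 15497192) (l 15594568)))))) (b (a (c (b (c (l 15285584) (l 15261976)) (b (l 15196336) (a (l 15110944) (l 15228968)))) (b (l 15223712) (a (l 15069600) (l 15182624)))) (b (c (a (l 15414608) (l 15531584)) (l 15431144)) (c (a (b (l 15359976) (l 15381952)) (b (l 15499824) (l 15582304))) (a (l 15324840) (l 15505160))))) (a (c (b (a (l 15382296) (l 15513144)) (l 15959392)) (b (l 15300064) (l 15953712))) (b (c (a (l 15685728) (l 15900256)) (a (l 15649232) (l 15871744))) (a (l 15993688) (c (l 16272736) (l 16282096)))))))), by decide +kernel⟩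

def k1_mm_202 : ∃ t, chk3 f_mm_202 t 5 4 1 = true :=
  ⟨(b (l 1) (b (l 1) (a (l 1) (b (l 1) (b (l 1) (a (l 1) (c (l 16401184) (a (l 16368568) (c (l 16432000) (l 16324328)))))))))), by decide +kernel⟩

def k2_mm_202 : ∃ t, chk3 f_mm_202 t 5 5 1 = true :=
  ⟨(b (b (b (a (c (a (l 16211224) (l 16201560)) (b (l 1) (a (l 16225096) (c (l 16274824) (l 384432001591))))) (c (a (b (l 16319904) (c (l 16334776) (l 16345832))) (b (a (l 16384936) (l 16410280)) (a (l 16395896) (l 16414824)))) (a (b (a (l 16293280) (l 16214720)) (c (l 16251272) (b (l 16349528) (l 16374480)))) (b (c (l 16262256) (a (l 16383848) (l 16401960))) (c (l 16409008) (l 16399536)))))) (a (c (a (b (l 16143664) (l 15894568)) (b (l 16079112) (l 16026256))) (b (a (c (l 16142096) (l 16080072)) (c (l 16171776) (l 16220040))) (a (c (l 16007416) (l 16009096)) (l 16059912)))) (c (a (b (a (l 16264744) (l 16320512)) (l 16211904)) (l 16170520)) (a (b (l 16203160) (l 16216512)) (l 16345864))))) (a (c (b (a (b (l 15894848) (l 15822976))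 (c (l 15974296) (l 15975064))) (a (l 15738432) (l 15865176))) (b (a (l 15769152) (l 15959816)) (l 15630008))) (a (c (b (l 15972920) (l 16009136)) (b (l 16083168) (l 15986520))) (b (c (l 16192768) (l 16225344)) (c (b (l 16176664) (l 16134888)) (l 16069928)))))) (b (a (b (c (a (l 15664472) (b (l 15824952) (l 15843744))) (a (l 15628688) (l 15807344))) (c (a (l 15663416) (l 16029864)) (a (l 15734968) (l 16027752)))) (b (a (c (b (l 16013360) (l 16121280)) (l 15886016)) (c (b (l 16249192) (l 16481968)) (l 16134376))) (a (c (l 16260456) (l 16250888)) (c (l 16452712) (l 16403200))))) (a (b (a (c (l 16073088) (l 16075072)) (c (l 16267304) (l 16259512))) (a (c (l 16533832) (l 16529832)) (l 16352880))) (b (a (b (l 16419776) (l 16324600)) (b (a (l 16355064) (l 16246864)) (l 16285928))) (a (l 16412624) (l 16325544)))))), by decide +kernel⟩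

def k3_mm_202 : ∃ t, chk3 f_mm_202 t 2 3 1 = true :=
  ⟨(b (b (a (b (a (b (c (l 16289704) (l 16297896)) (l 16452648)) (c (l 16369624) (l 16365504))) (c (a (l 16612656) (l 16695552)) (a (l 16607704) (l 16693944)))) (b (a (c (l 16565424) (l 16518048)) (a (b (l 16442624) (l 4)) (l 4))) (a (c (b (l 16634160) (l 16720096)) (b (l 16629680) (l 16718824))) (l 4)))) (a (b (c (a (l 16623936) (l 16645592)) (a (l 16618624) (l 16641056))) (c (a (l 16722432) (l 16735656)) (a (l 16720504) (l 16734192)))) (l 4))) (b (a (a (c (l 16777216) (l 16777216)) (l 4)) (l 4)) (l 4))), by decide +kernel⟩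

def k4_mm_202 : ∃ t, chk3 f_mm_202 t 3 8 1 = true :=
  ⟨(a (l 1) (b (a (l 1) (l 6)) (a (b (a (l 1) (l 6)) (b (a (l 1) (l 6)) (b (a (a (l 1) (a (l 1) (l 6))) (l 6)) (a (a (l 1) (b (a (a (l 1) (l 6)) (l 6)) (c (c (c (l 16515872) (a (c (l 16568792) (l 16570688)) (l 16551152))) (c (c (a (l 16498664) (l 16531968)) (c (a (l 16465760) (l 16517728)) (l 16497704))) (l 371547621175))) (c (a (l 16489936) (a (l 16492080) (l 16485240))) (a (c (l 16484880) (a (l 16483416) (l 476237371543))) (c (l 16473600) (l 16467272))))))) (b (l 6) (b (l 6) (b (l 6) (b (l 6) (c (c (a (a (c (l 16561312) (l 16567840)) (l 16576016)) (a (l 16572256) (l 16558968))) (c (a (c (l 16499664) (a (l 16499312) (l 16486592))) (c (l 16546896) (l 16498624))) (a (l 16458136) (l 16493160)))) (a (c (l 16438848) (l 16451464)) (l 16469656))))))))))) (b (l 6) (b (l 6) (b (l 6) (b (l 6) (a (l 4) (l 4))))))))), by decide +kernel⟩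

def k5_mm_202 : ∃ t, chk3 f_mm_202 t 12 18 1 = true :=
  ⟨(l 1), by decide +kernel⟩

def k6_mm_202 : ∃ t, chk3 f_mm_202 t 26 18 1 = true :=
  ⟨(b (l 1) (b (a (l 1) (b (l 1) (c (c (c (c (l 16428664) (c (l 16386056) (l 16371312))) (l 16367688)) (l 16364656)) (c (l 16360544) (l 16336488))))) (a (a (l 1) (b (l 1) (c (c (l 16305896) (l 16299704)) (c (l 16294544) (l 16287024))))) (c (c (c (b (c (l 150356412999) (l 16342664)) (l 16279072)) (l 16328248)) (b (l 16337296) (l 16307992))) (c (b (l 16329928) (a (l 16297072) (l 16290632))) (b (a (l 16323792) (c (l 16323848) (l 16317200))) (c (l 16238512) (l 16231608)))))))), by decide +kernel⟩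

def k7_mm_202 : ∃ t, chk3 f_mm_202 t 27 36 1 = true :=
  ⟨(b (l 1) (a (b (l 1) (c (c (c (c (l 16519352) (l 16423200)) (c (c (l 16454912) (l 16387512)) (l 16417072))) (l 16414400)) (c (l 16410968) (l 16408280)))) (c (c (c (b (c (l 16527688) (b (l 16545136) (c (l 16527136) (l 16521520)))) (c (l 288332684455) (b (l 244309195031) (l 16487392)))) (c (b (l 300143688839) (b (l 16425024) (c (l 16454776) (l 16429880)))) (b (c (b (l 16471496) (l 16446832)) (b (l 16446280) (l 16435464))) (l 16427992)))) (b (l 16436456) (l 16403296))) (c (b (l 16432944) (a (l 16417992) (b (l 16422456) (l 16407000)))) (a (b (l 16426952) (c (l 16412152) (b (l 16415632) (l 16401768)))) (b (c (l 16430728) (b (l 16434320) (l 242698392631))) (c (l 16380800) (l 16374168)))))))), by decide +kernel⟩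

def k8_mm_202 : ∃ t, chk3 f_mm_202 t 27 37 1 = true :=
  ⟨(c (c (b (c (c (b (b (a (l 16473624) (l 16474088)) (a (l 16453792) (l 16496408))) (a (l 16446552) (l 16398376))) (b (b (l 212096786455) (a (l 16432168) (l 16426728))) (a (b (l 16361400) (l 16380704)) (a (l 16343032) (b (l 16418024) (l 16383552)))))) (b (b (c (a (l 16393488) (l 16384496)) (l 201896232487)) (a (l 16398752) (l 16408720))) (a (l 16379752) (l 16377616)))) (c (b (a (c (c (l 16396000) (l 16349384)) (l 16358040)) (c (a (l 16326720) (l 16350600)) (l 16343008))) (a (a (l 16333888) (l 16308216)) (l 16254208))) (a (b (l 16352872) (l 16314080)) (l 16199048)))) (b (a (b (l 16400568) (l 16374624)) (b (b (l 16389928) (l 16372552)) (a (l 16369144) (l 16349936)))) (a (b (l 16295216) (l 16250880)) (b (l 16309440) (l 16253912))))) (b (a (b (c (b (l 16401920) (l 16390840)) (a (l 16370256) (b (l 16377520) (c (l 16384864) (l 16378232))))) (c (a (l 16367016) (l 16339432)) (a (c (l 16359344) (l 16311504)) (c (l 16348032) (l 16341488)))))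 (c (b (b (a (l 16403368) (l 16388360)) (a (l 16383960) (l 16364336))) (a (l 16345616) (l 16322160))) (b (b (a (c (l 16391984) (l 16384736)) (l 16369712)) (c (l 16360760) (l 16354696))) (l 16321064)))) (a (c (b (a (l 16326240) (l 16312336)) (l 16271088)) (b (c (l 16305736) (l 16300320)) (l 16254952))) (c (l 16241936) (l 16255264))))), by decide +kernel⟩

def k9_mm_202 : ∃ t, chk3 f_mm_202 t 12 19 1 = true :=
  ⟨(b (b (a (l 1) (a (l 1) (c (l 16306128) (c (l 16298064) (b (l 16309320) (a (l 16296664) (l 16255024))))))) (a (c (l 223370889511) (c (l 16375968) (l 16249168))) (c (a (l 16254944) (c (l 16177048) (b (l 16262504) (l 16233976)))) (c (a (l 16265064) (b (l 16246688) (l 16213728))) (a (b (l 16315384) (l 16180352)) (b (a (l 16256816) (l 16209056)) (l 16197384))))))) (a (c (b (a (l 16407712) (l 16342240)) (a (l 16404792) (c (l 16366784) (l 16347192)))) (b (c (a (l 16404152) (l 16350152)) (a (l 16401160) (a (l 16358184) (l 16260584)))) (c (a (l 16388744) (l 16330064)) (a (l 16376976)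 (l 16317496))))) (c (b (a (c (l 16315680) (l 16276656)) (c (l 16242272) (l 16218376))) (a (c (l 16303536) (l 16280832)) (l 16215088))) (a (b (c (l 16238264) (l 16224000)) (l 16154648)) (c (b (l 16195128) (l 16192472)) (l 16182944)))))), by decide +kernel⟩

def k10_mm_202 : ∃ t, chk3 f_mm_202 t 13 19 1 = true :=
  ⟨(b (a (c (a (b (a (c (l 16264320) (l 16257688)) (c (l 16267720) (l 16253856))) (c (b (l 16221872) (l 16190064)) (b (l 16175632) (l 16161184)))) (b (c (b (l 16289104) (l 16249928)) (b (l 16268224) (l 16222464))) (c (b (l 16202712) (l 16160600)) (l 16153272)))) (b (a (c (a (l 16160768) (b (l 16259824) (l 16215080))) (a (b (l 16234280) (l 16210576)) (b (l 16223032) (l 16196128)))) (c (b (l 16226048) (l 16196072)) (l 16145016))) (c (a (b (l 16174032) (l 16135240)) (l 16136552)) (a (l 16140328) (l 16129200))))) (c (b (a (c (b (l 16272376) (l 16218616)) (l 16223080)) (c (l 16211952) (l 16192256))) (c (a (l 16157000) (l 16143656)) (a (l 16138720) (l 16134168)))) (b (c (a (l 16198808)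 (l 16184736)) (l 16183384)) (a (l 16125984) (l 16119608))))) (c (a (a (b (c (l 16176344) (l 16144648)) (l 16165144)) (b (l 16154552) (l 16175224))) (b (c (l 16161784) (l 16152792)) (l 16166296))) (a (a (c (l 16137056) (l 16129224)) (l 16141648)) (b (l 16137824) (l 16192528))))), by decide +kernel⟩

def k11_mm_202 : ∃ t, chk3 f_mm_202 t 28 36 2 = true :=
  ⟨(b (b (a (a (l 1) (c (c (l 16533544) (c (l 16569832) (b (c (l 16582784) (l 16552464)) (l 243772392327)))) (c (c (c (l 16503536) (b (l 16502824) (l 16459904))) (l 16456728)) (l 16475536)))) (c (c (l 16492688) (c (a (l 16582408) (l 16595192)) (b (c (l 16581752) (l 525092830007)) (a (l 16510552) (l 16499640))))) (c (c (b (a (l 16489680) (l 16500576)) (c (l 16479648) (a (l 16489800) (l 16471424)))) (a (l 16465328) (b (l 16475616) (l 16480488)))) (a (l 16483264) (l 16475752))))) (c (c (a (l 16502808) (a (l 16541896) (l 16564608))) (c (b (a (c (l 16570624) (l 219076396551)) (a (l 16590352) (l 16574992))) (a (c (l 16532448) (l 16534928))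 (a (l 16539328) (l 16531088)))) (a (b (l 16488272) (l 16437680)) (a (l 16445608) (l 16414512))))) (a (c (c (c (b (l 209949383159) (l 16461808)) (l 16462448)) (l 16461824)) (l 16439064)) (c (b (c (c (a (l 16491816) (l 16462944)) (l 16427216)) (l 16443064)) (a (l 16442056) (l 16435896))) (a (l 16455976) (l 16431808)))))) (c (c (a (b (b (l 16515048) (c (l 16554472) (c (l 16572680) (l 16545552)))) (c (a (l 16537272) (l 16563280)) (a (l 16471720) (b (l 16535400) (l 16520320))))) (b (c (l 16550128) (a (c (l 16578040) (l 16512208)) (l 16552968))) (c (l 16532016) (a (l 16471720) (l 16437672))))) (b (a (a (c (l 16460536) (c (l 16450944) (l 16452528))) (c (l 16471032) (b (l 16459592) (l 16416664)))) (a (c (l 16452576) (c (l 16385240) (l 16402616))) (c (l 16481704) (l 16341968)))) (a (c (b (a (l 16480088) (l 16460336)) (a (l 16433512) (l 16420560))) (a (l 16435848) (l 16422576))) (c (c (l 16432128) (l 16310872)) (l 16373184))))) (a (a (b (l 16445784) (l 16420168)) (b (l 16439800) (l 16399976)))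 (a (b (l 16398872) (l 16368568)) (l 16368336))))), by decide +kernel⟩

def k12_mm_202 : ∃ t, chk3 f_mm_202 t 28 37 2 = true :=
  ⟨(c (b (c (b (a (b (c (a (l 16553352) (l 16542680)) (l 16435392)) (c (l 16469560) (l 16386616))) (c (b (l 16495968) (l 16455400)) (l 16247744))) (a (c (l 16410992) (l 16215120)) (c (l 16380112) (l 16266136)))) (b (a (b (c (a (l 16407472) (l 16401304)) (l 16398080)) (l 16375824)) (b (c (l 16349488) (l 16334600)) (l 16316392))) (a (l 16331400) (l 16285080)))) (b (c (a (c (l 16264944) (l 16289528)) (c (l 16289624) (l 16254120))) (l 16223928)) (a (l 16181648) (l 16227264)))) (b (a (b (b (l 16337016) (l 16350312)) (l 16312032)) (b (l 16315896) (l 16277504))) (a (l 16247768) (l 16232240)))), by decide +kernel⟩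

def k13_mm_202 : ∃ t, chk3 f_mm_202 t 28 18 3 = true :=
  ⟨(b (a (b (c (a (l 16460144) (b (l 16473272) (a (l 16456072) (l 16409280)))) (a (b (l 1) (c (l 16449568) (b (l 16453240) (a (l 16444216) (l 16439216))))) (b (c (l 16468776) (b (l 16472536) (a (l 16463648) (l 16438280)))) (c (b (l 16451448) (l 16433456)) (c (l 16394680) (l 16434144)))))) (b (c (a (a (l 16436688) (l 16410496)) (c (l 16423192) (l 16412288))) (a (c (b (l 16431608) (l 16413360)) (b (l 16403616) (l 16406584))) (l 16359328))) (c (a (l 16355720) (l 16372448)) (l 16330600)))) (b (c (a (b (a (l 16475720) (b (l 16482064) (l 16465224))) (a (l 16401504) (l 16432800))) (b (c (l 16442016) (l 16431280)) (l 16412256))) (a (b (c (b (l 16429448) (l 16453528)) (a (b (l 16448336) (l 16451256)) (l 16452184))) (c (l 16422056) (l 16418896))) (c (l 16402760) (l 16420800)))) (c (a (l 16352648) (l 16353576)) (l 16357304)))) (b (c (a (b (b (l 16352648) (l 16329808)) (l 16297416)) (l 16248288)) (a (l 16229416) (l 16283496))) (a (l 16236328)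 (l 16219696)))), by decide +kernel⟩

def k14_mm_202 : ∃ t, chk3 f_mm_202 t 29 18 1 = true :=
  ⟨(b (c (c (b (a (c (a (b (l 16538776) (l 16548536)) (l 16533984)) (b (c (a (l 16594112) (l 16593808)) (a (b (c (l 16614728) (l 16580104)) (l 16507672)) (l 16472640))) (c (a (l 16502816) (l 16486152)) (a (l 16426656) (l 16463928))))) (c (a (l 16558616) (l 16570832)) (b (c (l 16568024) (a (b (l 16601392) (l 16545720)) (c (l 16627192) (l 16604344)))) (c (a (l 16500600) (l 16616824)) (a (l 16501832) (l 16535416)))))) (a (c (a (b (l 16453808) (c (l 16489464) (l 16434272))) (b (l 16495032) (c (l 16501448) (l 16470488)))) (b (c (l 16369712) (a (l 16269168) (l 16400040))) (c (a (l 16374176) (l 16390744)) (l 16343992)))) (a (b (c (l 16504504) (c (l 16510752) (l 16415936))) (c (l 16450896) (l 16326512))) (l 4)))) (b (a (a (c (b (c (b (l 16473312) (l 16424432)) (l 16424704)) (a (l 16340744) (l 16308112))) (b (l 16454080) (l 16401152))) (c (c (b (l 16399056) (l 16423664)) (l 16394928)) (l 16429832)))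 (c (a (c (b (l 16446728) (l 16443192)) (l 16451608)) (c (b (l 16458472) (l 16497520)) (l 16496952))) (l 16433368))) (a (a (l 16348200) (l 16363048)) (l 16446504)))) (a (c (b (a (b (l 16434720) (l 16395128)) (l 16423864)) (l 16266864)) (b (a (l 16408128) (l 16420984)) (l 16344776))) (b (a (l 16381744) (l 16470032)) (l 16354808)))) (a (c (c (b (c (b (b (c (l 16391720) (l 16400568)) (c (l 16448568) (l 16360400))) (c (l 16394048) (l 16196512))) (b (b (l 16223272) (l 16313200)) (l 16301640))) (c (b (c (l 16308112) (l 16293640)) (l 4)) (l 16287152))) (b (b (l 16315072) (l 16296688)) (l 16281736))) (b (b (a (l 16286192) (l 16319568)) (l 16285056)) (l 16267864))) (l 4))), by decide +kernel⟩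

def k15_mm_202 : ∃ t, chk3 f_mm_202 t 15 18 1 = true :=
  ⟨(l 4), by decide +kernel⟩

def k16_mm_202 : ∃ t, chk3 f_mm_202 t 7 19 1 = true :=
  ⟨(a (a (b (c (a (b (c (l 16189208) (l 16180008)) (l 16140864)) (b (l 16196320) (l 16182840))) (a (b (l 16166416) (l 16119144)) (b (l 16176120) (l 16164616)))) (a (c (b (l 16190880) (l 4)) (l 16195744)) (l 4))) (l 4)) (l 4)), by decide +kernel⟩

def k17_mm_202 : ∃ t, chk3 f_mm_202 t 3 5 1 = true :=
  ⟨(a (a (b (c (b (b (a (b (a (l 16391072) (l 16341328)) (l 16293072)) (c (b (l 16256536) (l 16275360)) (b (l 16242336) (l 16269496)))) (a (l 16293864) (l 16323896))) (b (a (a (l 16347176) (l 16427976)) (b (l 16434664) (l 16336440))) (a (b (a (l 16316064) (l 16460960)) (l 16438192)) (l 16219464)))) (b (b (a (b (c (l 16338816) (l 16332232)) (l 16314992)) (b (l 16233112) (l 16259712))) (a (l 16393760) (l 16379808))) (b (a (l 16357656) (a (l 16532968) (l 16385368))) (a (b (l 16283944) (l 16454640)) (l 16187328))))) (b (b (a (c (l 16340592) (l 16289616))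 (b (c (l 16194784) (l 16175608)) (l 4))) (a (c (b (l 16247776) (l 16186904)) (b (l 16230344) (l 16166528))) (l 4))) (l 4))) (b (b (b (a (c (b (l 16202960) (l 16232336)) (b (l 16185616) (l 16240184))) (b (c (l 16273904) (l 16260336)) (a (c (l 16321656) (l 16309600)) (l 4)))) (b (a (c (l 16242248) (l 16315264)) (c (a (l 16357912) (l 4)) (l 16297640))) (a (c (a (l 16378256) (l 16371312)) (a (l 16369328) (l 16361328))) (l 4)))) (a (b (a (b (c (l 16385416) (l 16376424)) (l 16320912)) (l 4)) (l 4)) (l 4))) (l 4))) (l 4)), by decide +kernel⟩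

def k18_mm_202 : ∃ t, chk3 f_mm_202 t 3 3 1 = true :=
  ⟨(l 4), by decide +kernel⟩

theorem s19_mm_202 : ∃ t, chk3 f_mm_202 t 28 18 2 = true := ex3_b k11_mm_202 k12_mm_202

theorem s20_mm_202 : ∃ t, chk3 f_mm_202 t 28 18 1 = true := ex3_c s19_mm_202 k13_mm_202

theorem s21_mm_202 : ∃ t, chk3 f_mm_202 t 14 18 1 = true := ex3_a s20_mm_202 k14_mm_202

theorem s22_mm_202 : ∃ t, chk3 f_mm_202 t 7 18 1 = true := ex3_a s21_mm_202 k15_mm_202

theorem s23_mm_202 : ∃ t, chk3 f_mm_202 t 7 9 1 = true := ex3_b s22_mm_202 k16_mm_202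

theorem s24_mm_202 : ∃ t, chk3 f_mm_202 t 6 19 1 = true := ex3_a k9_mm_202 k10_mm_202

theorem s25_mm_202 : ∃ t, chk3 f_mm_202 t 27 18 1 = true := ex3_b k7_mm_202 k8_mm_202

theorem s26_mm_202 : ∃ t, chk3 f_mm_202 t 13 18 1 = true := ex3_a k6_mm_202 s25_mm_202

theorem s27_mm_202 : ∃ t, chk3 f_mm_202 t 6 18 1 = true := ex3_a k5_mm_202 s26_mm_202

theorem s28_mm_202 : ∃ t, chk3 f_mm_202 t 6 9 1 = true := ex3_b s27_mm_202 s24_mm_202

theorem s29_mm_202 : ∃ t, chk3 f_mm_202 t 3 9 1 = true := ex3_a s28_mm_202 s23_mm_202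

theorem s30_mm_202 : ∃ t, chk3 f_mm_202 t 3 4 1 = true := ex3_b k4_mm_202 s29_mm_202

theorem s31_mm_202 : ∃ t, chk3 f_mm_202 t 3 2 1 = true := ex3_b s30_mm_202 k17_mm_202

theorem s32_mm_202 : ∃ t, chk3 f_mm_202 t 3 1 1 = true := ex3_b s31_mm_202 k18_mm_202

theorem s33_mm_202 : ∃ t, chk3 f_mm_202 t 5 2 1 = true := ex3_b k1_mm_202 k2_mm_202

theorem s34_mm_202 : ∃ t, chk3 f_mm_202 t 2 2 1 = true := ex3_a k0_mm_202 s33_mm_202

theorem s35_mm_202 : ∃ t, chk3 f_mm_202 t 2 1 1 = true := ex3_b s34_mm_202 k3_mm_202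

theorem s36_mm_202 : ∃ t, chk3 f_mm_202 t 1 1 1 = true := ex3_a s35_mm_202 s32_mm_202

theorem c_mm_202 : CertNX 0 536870912 0 536870912 1046898278 26843546 3 true false false .pp 2 0 2
    ndN0q2 ndN3q0 pcN2 cut_mm_202 Ext.none :=
  certNX1 (fam := true) (s1 := false) (s2 := false) (a := 2) (b := 0) (c := 2) (cn := .pp) (n1 := ndN0q2) (n2 := ndN3q0) (pc := pcN2) (cut := cut_mm_202) (xt := Ext.none) (P1 := 0) (W1 := 536870912) (P2 := 0) (W2 := 536870912) (P3 := 1046898278) (W3 := 26843546) (N0 := 3)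
    rfl (fun _ => rfl) s36_mm_202

noncomputable def f_mm_203 : ℕ → ℕ → ℕ → ℕ → Bool := onCell 0 536870912 1610612736 536870912 1046898278 26843546
    (rowNX 3 1 true false false .up 2 0 3 (qsf 0 536870912 0 536870912 3) ndN0q2 ndN3q0 pcN3 Cut.none Ext.none)

def k0_mm_203 : ∃ t, chk3 f_mm_203 t 1 1 1 = true :=
  ⟨(l 4), by decide +kernel⟩

theorem c_mm_203 : CertNX 0 536870912 0 536870912 1046898278 26843546 3 true false false .up 2 0 3
    ndN0q2 ndN3q0 pcN3 Cut.none Ext.none :=
  certNX1 (fam := true) (s1 := false) (s2 := false) (a := 2) (b := 0) (c := 3) (cn := .up) (n1 := ndN0q2) (n2 := ndN3q0) (pc := pcN3) (cut := Cut.none) (xt := Ext.none) (P1 := 0) (W1 := 536870912) (P2 := 0) (W2 := 536870912) (P3 := 1046898278) (W3 := 26843546) (N0 := 3)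
    rfl (fun _ => rfl) k0_mm_203

noncomputable def f_mm_213 : ℕ → ℕ → ℕ → ℕ → Bool := onCell 0 536870912 536870912 536870912 1046898278 26843546
    (rowNX 3 0 true false false .pnn 2 1 3 (qsf 0 536870912 536870912 536870912 3) ndN0q2 ndN3q1 pcN3 Cut.none Ext.none)

def k0_mm_213 : ∃ t, chk3 f_mm_213 t 1 1 1 = true :=
  ⟨(l 4), by decide +kernel⟩

theorem c_mm_213 : CertNX 0 536870912 536870912 536870912 1046898278 26843546 3 true false false .pnn 2 1 3
    ndN0q2 ndN3q1 pcN3 Cut.none Ext.none :=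
  certNX0 (fam := true) (s1 := false) (s2 := false) (a := 2) (b := 1) (c := 3) (cn := .pnn) (n1 := ndN0q2) (n2 := ndN3q1) (pc := pcN3) (cut := Cut.none) (xt := Ext.none) (P1 := 0) (W1 := 536870912) (P2 := 536870912) (W2 := 536870912) (P3 := 1046898278) (W3 := 26843546) (N0 := 3)
    rfl k0_mm_213

end Pool.Agent.Strip051.G.IE1.Tab.C.NA03

namespace Pool.Agent.Strip051.G.IE1.Tab.C.NA04

open Pool.Agent.Strip051.PB Pool.Agent.Strip051.PB.T
open Pool.Agent.Strip051.G.IE1.Tab

noncomputable def f_pp_001 : ℕ → ℕ → ℕ → ℕ → Bool := onCell 0 536870912 0 67108864 1046898278 26843546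
    (rowNX 3 0 true true true .up 0 0 1 (qsf 0 536870912 0 67108864 1) ndN0q0 ndN4q0 pcN1 Cut.none Ext.none)

def k0_pp_001 : ∃ t, chk3 f_pp_001 t 1 1 1 = true :=
  ⟨(l 4), by decide +kernel⟩

theorem c_pp_001 : CertNX 0 536870912 0 67108864 1046898278 26843546 3 true true true .up 0 0 1
    ndN0q0 ndN4q0 pcN1 Cut.none Ext.none :=
  certNX0 (fam := true) (s1 := true) (s2 := true) (a := 0) (b := 0) (c := 1) (cn := .up) (n1 := ndN0q0) (n2 := ndN4q0) (pc := pcN1) (cut := Cut.none) (xt := Ext.none) (P1 := 0) (W1 := 536870912) (P2 := 0) (W2 := 67108864) (P3 := 1046898278) (W3 := 26843546) (N0 := 3)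
    rfl k0_pp_001

noncomputable def f_pp_101 : ℕ → ℕ → ℕ → ℕ → Bool := onCell 536870912 536870912 0 67108864 1046898278 26843546
    (rowNX 3 0 true true true .npn 1 0 1 (qsf 536870912 536870912 0 67108864 1) ndN0q1 ndN4q0 pcN1 Cut.none Ext.none)

def k0_pp_101 : ∃ t, chk3 f_pp_101 t 1 1 1 = true :=
  ⟨(l 5), by decide +kernel⟩

theorem c_pp_101 : CertNX 536870912 536870912 0 67108864 1046898278 26843546 3 true true true .npn 1 0 1
    ndN0q1 ndN4q0 pcN1 Cut.none Ext.none :=
  certNX0 (fam := true) (s1 := true) (s2 := true) (a := 1) (b := 0) (c := 1) (cn := .npn) (n1 := ndN0q1) (n2 := ndN4q0) (pc := pcN1) (cut := Cut.none) (xt := Ext.none) (P1 := 536870912) (W1 := 536870912) (P2 := 0) (W2 := 67108864) (P3 := 1046898278) (W3 := 26843546) (N0 := 3)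
    rfl k0_pp_101

noncomputable def f_pp_102 : ℕ → ℕ → ℕ → ℕ → Bool := onCell 536870912 536870912 0 67108864 1046898278 26843546
    (rowNX 3 0 true true true .npp 1 0 2 (qsf 536870912 536870912 0 67108864 2) ndN0q1 ndN4q0 pcN2 Cut.none Ext.none)

def k0_pp_102 : ∃ t, chk3 f_pp_102 t 1 1 1 = true :=
  ⟨(l 5), by decide +kernel⟩

theorem c_pp_102 : CertNX 536870912 536870912 0 67108864 1046898278 26843546 3 true true true .npp 1 0 2
    ndN0q1 ndN4q0 pcN2 Cut.none Ext.none :=
  certNX0 (fam := true) (s1 := true) (s2 := true) (a := 1) (b := 0) (c := 2) (cn := .npp) (n1 := ndN0q1) (n2 := ndN4q0) (pc := pcN2) (cut := Cut.none) (xt := Ext.none) (P1 := 536870912) (W1 := 536870912) (P2 := 0) (W2 := 67108864) (P3 := 1046898278) (W3 := 26843546) (N0 := 3)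
    rfl k0_pp_102

noncomputable def f_pp_202 : ℕ → ℕ → ℕ → ℕ → Bool := onCell 0 536870912 0 67108864 1046898278 26843546
    (rowNX 3 0 true true true .pp 2 0 2 (qsf 0 536870912 0 67108864 2) ndN0q2 ndN4q0 pcN2 Cut.none Ext.none)

def k0_pp_202 : ∃ t, chk3 f_pp_202 t 1 1 1 = true :=
  ⟨(l 5), by decide +kernel⟩

theorem c_pp_202 : CertNX 0 536870912 0 67108864 1046898278 26843546 3 true true true .pp 2 0 2
    ndN0q2 ndN4q0 pcN2 Cut.none Ext.none :=
  certNX0 (fam := true) (s1 := true) (s2 := true) (a := 2) (b := 0) (c := 2) (cn := .pp) (n1 := ndN0q2) (n2 := ndN4q0) (pc := pcN2) (cut := Cut.none) (xt := Ext.none) (P1 := 0) (W1 := 536870912) (P2 := 0) (W2 := 67108864) (P3 := 1046898278) (W3 := 26843546) (N0 := 3)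
    rfl k0_pp_202

noncomputable def f_pp_203 : ℕ → ℕ → ℕ → ℕ → Bool := onCell 0 536870912 0 67108864 1046898278 26843546
    (rowNX 3 0 true true true .up 2 0 3 (qsf 0 536870912 0 67108864 3) ndN0q2 ndN4q0 pcN3 Cut.none Ext.none)

def k0_pp_203 : ∃ t, chk3 f_pp_203 t 1 1 1 = true :=
  ⟨(l 1), by decide +kernel⟩

theorem c_pp_203 : CertNX 0 536870912 0 67108864 1046898278 26843546 3 true true true .up 2 0 3
    ndN0q2 ndN4q0 pcN3 Cut.none Ext.none :=
  certNX0 (fam := true) (s1 := true) (s2 := true) (a := 2) (b := 0) (c := 3) (cn := .up) (n1 := ndN0q2) (n2 := ndN4q0) (pc := pcN3) (cut := Cut.none) (xt := Ext.none) (P1 := 0) (W1 := 536870912) (P2 := 0) (W2 := 67108864) (P3 := 1046898278) (W3 := 26843546) (N0 := 3)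
    rfl k0_pp_203

noncomputable def f_pm_001 : ℕ → ℕ → ℕ → ℕ → Bool := onCell 0 536870912 0 67108864 1046898278 26843546
    (rowNX 3 0 true true false .up 0 0 1 (qsf 0 536870912 0 67108864 1) ndN0q0 ndN4q0 pcN1 Cut.none Ext.none)

def k0_pm_001 : ∃ t, chk3 f_pm_001 t 1 1 1 = true :=
  ⟨(l 3), by decide +kernel⟩

theorem c_pm_001 : CertNX 0 536870912 0 67108864 1046898278 26843546 3 true true false .up 0 0 1
    ndN0q0 ndN4q0 pcN1 Cut.none Ext.none :=
  certNX0 (fam := true) (s1 := true) (s2 := false) (a := 0) (b := 0) (c := 1) (cn := .up) (n1 := ndN0q0) (n2 := ndN4q0) (pc := pcN1) (cut := Cut.none) (xt := Ext.none) (P1 := 0) (W1 := 536870912) (P2 := 0) (W2 := 67108864) (P3 := 1046898278) (W3 := 26843546) (N0 := 3)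
    rfl k0_pm_001

noncomputable def cut_pm_101 : Cut := Cut.of [[⟨0, 1, 0, 67108864⟩, ⟨1, 0, 0, 67108864⟩, ⟨2, 1, 0, 67108864⟩, ⟨3, 0, 0, 1233125376⟩]]

noncomputable def f_pm_101 : ℕ → ℕ → ℕ → ℕ → Bool := onCell 536870912 536870912 0 67108864 1046898278 26843546
    (rowNX 3 2 true true false .npn 1 0 1 (qsf 536870912 536870912 0 67108864 1) ndN0q1 ndN4q0 pcN1 cut_pm_101 Ext.none)

def k0_pm_101 : ∃ t, chk3 f_pm_101 t 1 1 1 = true :=
  ⟨(a (l 3) (a (l 3) (a (l 3) (a (l 3) (a (b (l 3) (l 3)) (b (l 6) (a (b (a (a (a (l 3) (l 6)) (l 6)) (l 6)) (c (c (b (c (a (l 14879928) (l 14992424)) (a (l 157467183623) (b (l 14858624) (l 14816568)))) (c (b (l 14880248) (l 14850504)) (l 14723408))) (a (l 3) (b (l 14591456) (l 14544952)))) (l 3))) (b (l 6) (c (b (c (l 15104600) (l 14782352)) (c (b (l 15015272) (l 14965152)) (l 14694944))) (c (a (b (c (l 14454608) (l 14280872)) (a (l 14305712) (l 14355096))) (l 14478992)) (a (l 3) (b (l 6) (c (l 14205616) (a (l 3) (a (l 14053592) (l 14091784)))))))))))))))),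 by decide +kernel⟩

theorem c_pm_101 : CertNX 536870912 536870912 0 67108864 1046898278 26843546 3 true true false .npn 1 0 1
    ndN0q1 ndN4q0 pcN1 cut_pm_101 Ext.none :=
  certNX2 (fam := true) (s1 := true) (s2 := false) (a := 1) (b := 0) (c := 1) (cn := .npn) (n1 := ndN0q1) (n2 := ndN4q0) (pc := pcN1) (cut := cut_pm_101) (xt := Ext.none) (P1 := 536870912) (W1 := 536870912) (P2 := 0) (W2 := 67108864) (P3 := 1046898278) (W3 := 26843546) (N0 := 3)
    rfl (fun _ => rfl) k0_pm_101

noncomputable def cut_pm_102 : Cut := Cut.of [[⟨0, 1, 0, 67108864⟩, ⟨1, 0, 0, 67108864⟩, ⟨2, 1, 0, 67108864⟩, ⟨3, 0, 0, 1233125376⟩]]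

noncomputable def f_pm_102 : ℕ → ℕ → ℕ → ℕ → Bool := onCell 536870912 536870912 0 67108864 1046898278 26843546
    (rowNX 3 0 true true false .npp 1 0 2 (qsf 536870912 536870912 0 67108864 2) ndN0q1 ndN4q0 pcN2 cut_pm_102 Ext.none)

def k0_pm_102 : ∃ t, chk3 f_pm_102 t 2 1 1 = true :=
  ⟨(l 1), by decide +kernel⟩

def k1_pm_102 : ∃ t, chk3 f_pm_102 t 6 1 1 = true :=
  ⟨(l 1), by decide +kernel⟩

def k2_pm_102 : ∃ t, chk3 f_pm_102 t 14 1 1 = true :=
  ⟨(b (l 1) (a (l 1) (b (l 1) (b (l 1) (b (l 1) (b (l 1) (a (l 1) (a (l 1) (a (l 1) (a (l 1) (c (l 1117258178087) (c (l 14486680) (c (l 14223200) (l 1111887651591)))))))))))))), by decide +kernel⟩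

def k3_pm_102 : ∃ t, chk3 f_pm_102 t 30 1 1 = true :=
  ⟨(b (a (l 1) (l 6)) (b (a (a (l 1) (l 6)) (l 6)) (b (a (a (a (l 1) (l 6)) (l 6)) (l 6)) (b (a (a (a (a (l 1) (l 6)) (l 6)) (l 6)) (l 6)) (b (a (a (a (a (a (l 1) (l 6)) (l 6)) (l 6)) (l 6)) (l 6)) (b (a (a (a (a (a (a (l 1) (l 6)) (l 6)) (l 6)) (l 6)) (l 6)) (l 6)) (a (c (a (c (l 15382056) (a (l 14975424) (l 15246664))) (c (a (l 15712112) (l 15924192)) (a (a (l 15447880) (l 15575368)) (l 15760728)))) (a (a (c (l 14665696) (b (a (a (a (l 14170704) (l 6)) (l 6)) (l 6)) (a (c (l 14348592) (c (l 14218576) (a (c (l 14104520) (a (c (l 14049896) (l 831104018743)) (c (l 14091336) (l 14067160)))) (l 14170424)))) (c (c (l 14568192) (l 14485832)) (c (l 14395048) (l 14313048)))))) (b (l 6) (c (c (l 15067048) (a (l 14850376) (l 15008088))) (c (l 14771512) (l 14627296))))) (c (a (c (l 15344144) (l 15223616)) (l 15573672)) (l 15203224)))) (c (a (c (a (l 16124024) (l 16311632)) (l 16118616)) (l 16318832)) (a (l 15876888) (l 16454024)))))))))),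 by decide +kernel⟩

def k4_pm_102 : ∃ t, chk3 f_pm_102 t 31 1 1 = true :=
  ⟨(b (l 6) (a (b (l 6) (a (b (l 6) (b (l 6) (c (c (c (l 16342000) (l 16393488)) (l 16378904)) (l 16408576)))) (b (c (c (c (l 16476168) (l 16377336)) (l 6)) (l 6)) (c (c (c (l 16306672) (l 16311312)) (c (a (l 16352688) (l 16298848)) (l 16159432))) (l 16168112))))) (c (b (c (a (b (l 6) (l 16444328)) (b (l 16524144) (l 16391736))) (a (l 6) (b (c (l 16529944) (l 6)) (c (l 16365640) (l 16371032))))) (c (b (a (l 16334192) (l 16117800)) (a (c (l 16152232) (l 16159920)) (c (l 15938720) (l 16013896)))) (a (b (c (l 16333856) (l 16268056)) (c (l 16182976) (l 16207224))) (b (l 16213728) (l 16047424))))) (b (a (l 6) (c (b (l 6) (a (l 16425728) (l 16374656))) (a (l 6) (c (l 16303656) (l 6))))) (a (c (a (b (l 6) (l 16249208)) (c (l 16230144) (b (l 16362744) (l 16219600)))) (b (l 16409440) (l 16275752))) (c (b (l 16134816) (l 16015440)) (a (c (a (l 16249784) (l 16024896)) (l 16275016)) (c (l 16144488) (a (l 16098712) (c (l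 16188880) (l 16138440))))))))))), by decide +kernel⟩

theorem s5_pm_102 : ∃ t, chk3 f_pm_102 t 15 1 1 = true := ex3_a k3_pm_102 k4_pm_102

theorem s6_pm_102 : ∃ t, chk3 f_pm_102 t 7 1 1 = true := ex3_a k2_pm_102 s5_pm_102

theorem s7_pm_102 : ∃ t, chk3 f_pm_102 t 3 1 1 = true := ex3_a k1_pm_102 s6_pm_102

theorem s8_pm_102 : ∃ t, chk3 f_pm_102 t 1 1 1 = true := ex3_a k0_pm_102 s7_pm_102

theorem c_pm_102 : CertNX 536870912 536870912 0 67108864 1046898278 26843546 3 true true false .npp 1 0 2
    ndN0q1 ndN4q0 pcN2 cut_pm_102 Ext.none :=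
  certNX0 (fam := true) (s1 := true) (s2 := false) (a := 1) (b := 0) (c := 2) (cn := .npp) (n1 := ndN0q1) (n2 := ndN4q0) (pc := pcN2) (cut := cut_pm_102) (xt := Ext.none) (P1 := 536870912) (W1 := 536870912) (P2 := 0) (W2 := 67108864) (P3 := 1046898278) (W3 := 26843546) (N0 := 3)
    rfl s8_pm_102

end Pool.Agent.Strip051.G.IE1.Tab.C.NA04

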