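import Pool.Agent.Strip051.G.IE1.Tab

/-! # Certificates N20 (generated) -/

set_option linter.all false
set_option maxRecDepth 100000

namespace Pool.Agent.Strip051.G.IE1.Tab.C.NA04

open Pool.Agent.Strip051.PB Pool.Agent.Strip051.PB.T
open Pool.Agent.Strip051.G.IE1.Tab

noncomputable def cut_pm_202 : Cut := Cut.of [[⟨0, 1, 0, 67108864⟩, ⟨1, 0, 0, 67108864⟩, ⟨2, 1, 0, 67108864⟩, ⟨3, 0, 0, 1233125376⟩]]

noncomputable def f_pm_202 : ℕ → ℕ → ℕ → ℕ → Bool := onCell 0 536870912 0 67108864 1046898278 26843546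
    (rowNX 3 0 true true false .pp 2 0 2 (qsf 0 536870912 0 67108864 2) ndN0q2 ndN4q0 pcN2 cut_pm_202 Ext.none)

def k0_pm_202 : ∃ t, chk3 f_pm_202 t 4 1 1 = true :=
  ⟨(b (c (b (a (a (b (c (l 15813928) (l 15791912)) (c (b (l 15756824) (l 15671096)) (b (l 15692768) (l 15582128)))) (b (l 15805208) (c (b (l 15796328) (l 15705808)) (b (l 15735944) (l 15621928))))) (b (a (l 15843936) (l 15919176)) (c (b (a (l 15873712) (l 15986576)) (l 15775848)) (b (l 15664728) (l 15568944))))) (a (c (b (a (b (l 15555600) (l 15461184)) (l 15473376)) (a (l 15384184) (l 15388480))) (a (b (l 15430352) (l 15381848)) (b (l 15502960) (l 15397568)))) (c (b (a (l 15608144) (l 15715832)) (l 15463008)) (a (l 15521936) (l 15566872))))) (b (b (a (c (b (l 15819936) (c (l 15766712) (l 15736472))) (b (c (l 15797672) (b (l 15801392) (l 15758896))) (c (l 15712968) (l 15702856)))) (c (b (l 15925744) (a (l 15832600) (l 15868472))) (b (c (l 15738296) (a (l 15868600) (l 15909736))) (c (l 15880872) (l 15872480))))) (a (c (a (l 15594024)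 (l 15637944)) (l 15597000)) (c (a (l 15717760) (l 15834304)) (l 15718672)))) (a (a (c (b (l 15469392) (l 15361872)) (l 15372504)) (c (l 15442536) (l 15406304))) (a (l 15308528) (c (l 15627016) (l 15595080)))))) (a (c (b (a (c (l 15304480) (l 15281040)) (c (b (l 15307088) (l 15244680)) (b (l 15306200) (l 15218736)))) (c (b (l 15227504) (l 15189576)) (a (l 15168160) (l 15109096)))) (b (a (b (l 15230776) (l 15140872)) (c (l 15216056) (l 15152368))) (a (l 15044752) (b (l 15030632) (l 14954384))))) (c (b (a (c (l 15315776) (l 15309424)) (c (l 15407384) (l 15406736))) (c (a (b (l 15198256) (l 15127408)) (b (l 15273776) (l 15183856))) (a (b (l 15158632) (l 15063216)) (l 15185032)))) (b (a (l 15244656) (l 15347336)) (a (b (l 15067616) (l 14966944)) (l 15100960)))))), by decide +kernel⟩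

def k1_pm_202 : ∃ t, chk3 f_pm_202 t 10 2 1 = true :=
  ⟨(b (b (a (c (b (l 16224312) (l 16114888)) (c (b (l 16209496) (l 15964816)) (b (b (a (l 16120960) (l 16214488)) (b (l 16098144) (l 16078200))) (l 16052680)))) (c (b (a (a (l 16337792) (l 16370952)) (l 16364440)) (a (l 16318576) (b (l 16385176) (l 16408144)))) (b (c (a (b (l 16344536) (l 16343192)) (l 16270296)) (a (b (c (l 16339008) (b (l 16334624) (l 16293224))) (c (l 16323080) (l 16305976))) (b (l 16344664) (c (l 16360008) (l 16364392))))) (c (b (a (l 16305088) (a (l 16387440) (l 16378544))) (l 16229504)) (a (l 16242680) (b (a (l 16349960) (l 16348128)) (l 16331336))))))) (c (c (a (b (l 16136944) (l 16040200)) (b (l 16264432) (l 16185688))) (b (a (l 16083672) (l 16173136)) (a (l 15963336) (l 16112704)))) (a (c (l 15926752) (l 15976720)) (c (a (l 16089496) (l 16156776)) (l 16114616))))) (c (c (b (a (l 15838944) (l 15917072)) (l 15595384)) (a (l 15648504) (l 15727440))) (a (c (l 15774592) (l 15745736)) (c (l 15920256) (l 15937232))))),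 by decide +kernel⟩

def k2_pm_202 : ∃ t, chk3 f_pm_202 t 11 2 1 = true :=
  ⟨(b (b (c (a (a (b (l 16373032) (b (l 16377824) (a (l 16349016) (l 16346112)))) (l 16299848)) (l 16176624)) (b (c (l 16197640) (b (c (l 16288400) (a (l 16305072) (l 16206152))) (c (l 16246896) (l 16271256)))) (a (c (a (b (l 16389768) (a (l 16311800) (l 16371896))) (l 16357720)) (a (b (l 16393240) (a (l 16396392) (l 16393640))) (l 16387928))) (c (l 16212272) (l 16261976))))) (a (c (b (b (a (c (l 16347728) (l 16220160)) (c (l 16330608) (l 16349720))) (a (l 16318680) (c (a (l 16312760) (l 16305984)) (l 16353424)))) (b (a (l 16312424) (c (l 16252136) (l 16322864))) (l 16182192))) (b (a (c (b (l 16238088) (l 16373384)) (l 16287472)) (c (b (l 16388704) (a (l 16380520) (l 16373880))) (a (l 16378544) (l 16381664)))) (c (a (l 16311896) (l 16310936)) (a (l 16315640) (l 16323168))))) (c (b (c (l 16383016) (l 16413424)) (b (c (l 16319904) (l 16391736)) (a (a (c (l 16321464) (l 16364512)) (l 16337368)) (l 16374128)))) (b (c (l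 16433320) (l 16429888)) (a (c (a (l 16364832) (l 16369776)) (a (l 16354896) (l 16359920))) (l 16309320)))))) (a (c (b (c (l 16016168) (b (l 16223440) (l 16212544))) (l 15973552)) (c (l 15983240) (l 16025928))) (b (c (a (b (c (l 16196576) (b (a (l 16405384) (l 16360616)) (l 16422944))) (l 16304368)) (b (b (l 16334952) (c (l 16344704) (l 16355800))) (c (b (a (l 16379928) (l 16342928)) (l 16403024)) (l 16226000)))) (a (c (b (l 16257024) (l 16438376)) (l 16218728)) (b (a (b (l 16335824) (l 16279880)) (l 16344992)) (a (l 16370144) (b (l 16265144) (l 16325744)))))) (c (l 16134088) (l 16194488))))), by decide +kernel⟩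

def k3_pm_202 : ∃ t, chk3 f_pm_202 t 5 3 1 = true :=
  ⟨(a (c (b (a (l 15307128) (c (l 15707224) (l 15712928))) (c (b (l 15479024) (l 15314624)) (l 15390616))) (b (a (l 15486008) (l 15663264)) (a (l 15229240) (l 15394240)))) (b (a (c (c (l 15915144) (l 15925200)) (l 15861248)) (c (b (c (l 16226600) (l 16168968)) (l 16027616)) (b (l 16140240) (l 16066312)))) (c (a (c (l 15486000) (l 15667776)) (b (l 15984872) (l 15711816))) (a (l 15599064) (l 15847384))))), by decide +kernel⟩

def k4_pm_202 : ∃ t, chk3 f_pm_202 t 12 2 1 = true :=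
  ⟨(b (c (c (b (l 16096408) (b (a (l 16403360) (l 16302416)) (l 16314400))) (b (a (l 16167424) (l 16080464)) (b (c (l 16228792) (l 16318624)) (a (l 16452056) (l 16330336))))) (b (c (b (a (l 16225120) (l 16133904)) (c (b (l 16185384) (l 16258208)) (a (l 16258208) (l 16190200)))) (b (c (a (l 16144208) (l 16071808)) (b (a (l 16131176) (l 16035608)) (l 16081024))) (a (l 16170032) (l 16078928)))) (c (c (b (l 16200680) (l 16309848)) (l 16152584)) (a (l 16360408) (l 16252792))))) (a (c (b (a (b (l 16332648) (c (b (l 16367088) (l 16267024)) (l 16302064))) (c (l 16426264) (l 16431928))) (a (b (a (l 16297104) (b (l 16296632) (l 16315992))) (l 16403528)) (b (l 16274880) (a (l 16246136) (l 16265872))))) (b (a (b (l 16387672) (a (l 16224312) (l 16329408))) (l 16371840)) (a (a (l 16227192) (b (b (l 16280840) (l 16283944)) (l 16345808))) (b (l 16282880) (a (l 16199152) (l 16217816)))))) (c (b (c (l 16383928) (l 16370048)) (l 16228360)) (c (l 16229528) (l 16320984))))), by decide +kernel⟩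

def k5_pm_202 : ∃ t, chk3 f_pm_202 t 13 2 1 = true :=
  ⟨(b (c (b (a (a (l 15990800) (l 16079968)) (b (l 16169384) (l 16118456))) (c (a (b (l 16265304) (l 16387656)) (b (l 16343720) (l 16446680))) (b (a (l 16254368) (l 16332496)) (a (l 16293832) (l 16373608))))) (a (b (c (b (l 16087648) (c (l 16195048) (l 16125064))) (b (c (b (l 16043936) (l 16091096)) (b (c (l 16032744) (l 16024384)) (l 16069312))) (c (l 16145712) (l 16137808)))) (c (b (l 16157056) (l 16319616)) (l 16232008))) (b (c (a (b (l 16128408) (l 16095536)) (b (a (l 16148928) (c (l 16161328) (b (l 16111824) (l 16137376)))) (c (l 16264720) (b (a (l 16214808) (l 16224032)) (l 16244488))))) (a (b (c (l 16085408) (c (l 16073480) (a (l 16079712) (c (l 16031792) (l 16046088))))) (l 16179696)) (b (c (a (b (l 16074064) (c (l 16160104) (l 16141912))) (b (l 16083216) (c (l 16158376) (l 16133976)))) (b (a (c (b (l 16065160) (l 16094104)) (b (l 16044848) (l 16073832))) (c (l 16041888) (l 16014328))) (a (c (l 16125984) (l 16115280)) (l 16052688))))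 (c (a (l 16207824) (c (l 16149736) (l 16162576))) (a (a (l 16196352) (l 16195712)) (a (l 16151384) (l 16183504))))))) (c (b (l 16255832) (l 16378176)) (a (l 16317664) (b (a (l 16294400) (c (l 16311760) (l 16207872))) (l 16392784))))))) (c (b (a (c (l 16290112) (b (l 16354464) (l 16483728))) (c (l 16414584) (l 16398744))) (a (l 16312208) (l 16366648))) (a (c (l 16277968) (l 16343816)) (b (l 16325376) (l 16363040))))), by decide +kernel⟩

def k6_pm_202 : ∃ t, chk3 f_pm_202 t 6 3 1 = true :=
  ⟨(a (b (a (c (b (a (l 16440672) (l 16193648)) (l 16177992)) (a (l 16249464) (b (l 16227136) (l 16459584)))) (b (a (c (b (a (b (l 16254224) (l 16254752)) (l 16259744)) (a (l 16308272) (b (l 16228416) (l 16249272)))) (b (a (l 16200736) (l 16241928)) (a (l 16304192) (l 16236656)))) (c (b (l 16308248) (a (l 16160104) (l 16247224))) (a (l 16182184) (l 16274344)))) (a (c (l 16288600) (l 16382800)) (b (c (a (l 16191984) (b (l 16192288) (l 16163128))) (a (l 16235256) (l 16194096))) (c (l 16250728) (l 16281760))))))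 (c (c (a (b (l 16217504) (l 16132224)) (b (l 16350576) (l 16312088))) (a (l 16048848) (l 16282256))) (a (l 15954728) (a (l 16293064) (l 16343352))))) (b (a (a (b (c (l 16317488) (l 16306472)) (c (b (l 16199488) (a (c (l 16176424) (l 16135376)) (l 16124216))) (b (l 16199944) (a (l 16131152) (l 16128704))))) (c (l 16104944) (l 16222160))) (c (c (l 16225760) (l 16156840)) (l 16143240))) (a (b (a (a (c (l 16267072) (l 16283448)) (c (c (l 15964048) (l 16082432)) (l 15952784))) (c (a (b (l 16004072) (l 16010312)) (c (l 15944128) (l 15996872))) (b (l 16046656) (a (l 16063848) (l 15979536))))) (c (a (l 16164376) (b (l 16000112) (l 16148680))) (a (l 16317016) (l 16019088)))) (b (c (l 15971736) (l 15978928)) (a (a (c (b (l 15750432) (l 15934136)) (b (l 15906248) (l 15945512))) (b (l 15863000) (c (b (l 15816688) (l 15819384)) (l 15832392)))) (c (l 15811360) (l 15818136))))))), by decide +kernel⟩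

def k7_pm_202 : ∃ t, chk3 f_pm_202 t 28 4 2 = true :=
  ⟨(b (a (c (b (a (l 16212384) (c (l 16228048) (l 16211816))) (l 16340088)) (b (a (c (l 16194488) (l 16136856)) (c (l 16153744) (l 16173728))) (a (l 16313512) (c (l 16327784) (b (l 16280824) (l 16298104)))))) (c (b (a (a (b (c (a (l 16200424) (l 16200664)) (l 16139304)) (l 16253912)) (b (c (l 16198816) (l 16171488)) (c (a (l 16266056) (l 16266176)) (l 16245400)))) (c (a (b (l 16191704) (l 16263136)) (l 16217840)) (l 16193952))) (a (c (l 16357760) (l 16323080)) (a (b (c (a (l 16331528) (l 16331112)) (l 16308448)) (l 16384952)) (b (l 16249920) (c (l 16290176) (l 16370160)))))) (b (a (a (b (l 16134400) (l 16209600)) (b (l 16125632) (l 16198000))) (l 16150304)) (a (c (l 16306280) (b (l 16260176) (l 16331136))) (b (a (l 16261400) (l 16253488)) (a (l 16327936) (c (l 16339824) (l 16279920)))))))) (c (a (b (l 16429512) (l 16511288)) (a (b (b (l 16382120) (l 16496832)) (l 16532840)) (b (b (c (l 16457936) (l 16443184)) (c (l 16498776) (l 16448488)))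 (c (l 16566688) (l 16519056))))) (a (b (c (l 16416672) (a (l 16371416) (l 16379520))) (l 16437536)) (b (a (c (b (l 16374576) (l 16443120)) (l 16357768)) (b (l 16206240) (l 16342592))) (c (a (l 16469872) (l 16448672)) (a (l 16306136) (b (l 16406248) (l 16425256)))))))), by decide +kernel⟩

def k8_pm_202 : ∃ t, chk3 f_pm_202 t 28 4 3 = true :=
  ⟨(b (a (c (b (a (c (l 16054784) (b (l 16090976) (l 16168544))) (c (l 16141360) (l 16096752))) (c (a (b (l 16219048) (l 16299480)) (b (l 16251160) (l 16296192))) (a (b (l 16178392) (l 16209456)) (b (l 16187856) (l 16232176))))) (b (c (b (l 16031704) (c (l 16108560) (l 16077192))) (b (c (l 15996896) (b (l 15959640) (l 15984848))) (l 15931552))) (c (a (b (l 16164544) (l 16222752)) (l 16154784)) (l 16085072)))) (c (b (a (b (a (l 16068352) (l 16062752)) (b (l 16055272) (l 16109736))) (b (l 16055880) (l 15997832))) (a (c (l 16198784) (l 16057432)) (b (a (c (l 16188336) (l 16156272)) (c (l 16203800) (l 16152416))) (c (l 16205288) (a (l 16184800) (l 16180968))))))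 (b (a (b (c (a (l 16016888) (l 16013736)) (b (a (c (l 15974664) (l 15911832)) (l 15962528)) (a (c (l 16000336) (l 15975880)) (c (l 15998816) (l 15975280))))) (c (b (a (l 16060096) (l 16057808)) (l 16080064)) (c (l 15966304) (l 16010976)))) (c (b (l 16009648) (b (l 16052824) (l 16074824))) (b (c (l 15981760) (l 15962144)) (l 15953800)))) (a (c (l 16132000) (l 16093592)) (c (b (a (l 16038272) (l 16099008)) (l 16123864)) (b (a (l 16067880) (l 16067400)) (l 16093888))))))) (c (a (b (c (a (l 16335088) (b (l 16320792) (l 16351104))) (a (l 16188616) (b (l 16281264) (l 16338944)))) (a (l 16413600) (c (l 16418624) (l 16359168)))) (b (c (c (l 16198072) (l 16150456)) (l 16176816)) (a (c (l 16312696) (l 16368912)) (l 16215168)))) (a (c (b (a (c (l 16315088) (l 16267640)) (l 16246512)) (a (l 16373576) (a (l 16375752) (l 16367312)))) (b (a (l 16132648) (l 16233296)) (a (a (l 16393536) (l 16369408)) (l 16304176)))) (c (b (l 16212952) (l 16218856)) (a (l 16215608) (l 16234736)))))), by decide +kernel⟩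

def k9_pm_202 : ∃ t, chk3 f_pm_202 t 29 4 2 = true :=
  ⟨(b (a (c (b (a (l 16113088) (l 16197048)) (a (c (a (l 16312672) (l 16348416)) (l 16323000)) (l 16308992))) (b (l 16094848) (a (b (l 16246832) (l 16163592)) (l 16193216)))) (c (c (l 16280320) (a (l 16244560) (l 16329768))) (c (a (l 16267328) (l 16252744)) (b (l 16234312) (b (l 16321352) (l 16372624)))))) (a (c (b (a (b (a (c (l 16375056) (l 16431312)) (l 16398752)) (a (c (l 16523064) (l 16486528)) (c (b (l 16509688) (l 16541952)) (l 16417032)))) (c (b (l 16465840) (l 16533560)) (l 16379376))) (a (c (l 16508848) (l 16521648)) (b (a (c (l 16473664) (l 16514864)) (l 16532176)) (a (l 16571440) (l 16493792))))) (b (a (b (a (c (l 16347408) (l 16330264)) (l 16335712)) (a (l 16387920) (l 16385232))) (c (l 16394760) (l 16357264))) (a (c (l 16463120) (l 16402008)) (b (a (l 16335432) (l 16429792)) (c (l 16435328) (l 16324176)))))) (c (b (b (c (l 16502344) (l 16462416)) (c (l 16565432) (c (l 16500416) (l 16518616)))) (a (c (l 16607856) (l 16548440))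 (l 16476832))) (b (c (l 16377352) (l 16407112)) (c (l 16501032) (l 16369648)))))), by decide +kernel⟩

def k10_pm_202 : ∃ t, chk3 f_pm_202 t 29 4 3 = true :=
  ⟨(b (c (b (a (a (l 15984104) (l 16018256)) (c (l 16214504) (b (l 16166768) (l 16178304)))) (a (b (c (l 16212056) (l 16163968)) (c (l 16187248) (a (l 16178352) (l 16204288)))) (c (b (l 16274808) (l 16326096)) (b (l 16253808) (l 16271936))))) (b (c (a (b (l 16033888) (c (l 16093512) (l 16048320))) (b (l 16125208) (c (l 16196080) (l 16091160)))) (a (b (c (b (l 15998608) (l 16021368)) (b (a (l 15960144) (l 16005576)) (l 16000888))) (c (l 16048264) (l 16033848))) (b (c (b (l 16117864) (l 16136496)) (b (c (l 16107944) (l 16058912)) (l 16119304))) (c (l 16157232) (l 16146064))))) (a (c (a (b (l 16098920) (l 16144448)) (l 16154256)) (a (l 16092800) (l 16126472))) (c (b (l 16105128) (l 16245568)) (l 16164696))))) (a (c (a (b (b (a (c (l 16263280) (l 16216296)) (l 16181016)) (a (l 16282448) (c (l 16295304) (l 16270200)))) (l 16338752)) (b (c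 (l 16300328) (l 16266584)) (b (a (l 16303128) (l 16359032)) (a (l 16399264) (l 16413688))))) (a (b (a (c (l 16158352) (l 16184040)) (b (l 16184384) (c (l 16253208) (l 16213952)))) (l 16258712)) (b (l 16085912) (a (b (l 16235032) (l 16342944)) (b (l 16315528) (l 16320248)))))) (c (b (c (l 16291672) (l 16262408)) (a (l 16407864) (l 16445768))) (c (a (l 16272128) (l 16339592)) (a (l 16302224) (l 16351880)))))), by decide +kernel⟩

def k11_pm_202 : ∃ t, chk3 f_pm_202 t 14 10 1 = true :=
  ⟨(a (c (c (l 16432224) (a (l 16547888) (a (l 16569096) (b (c (l 16526360) (l 16521880)) (l 16501432))))) (c (a (l 16566768) (c (a (b (l 16527992) (l 16574944)) (b (l 16502400) (l 16590896))) (a (b (l 16403344) (l 16576560)) (b (l 16446608) (l 16494520))))) (a (a (c (l 16554704) (b (l 16487712) (l 16579760))) (c (b (l 16472200) (l 16578488)) (b (b (l 16416296) (l 16512128)) (l 16542296)))) (b (c (a (l 16377256) (l 16458120)) (l 16263928)) (a (c (l 16514704) (l 16405824)) (c (l 16526080) (l 16524448))))))) (c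 (a (c (b (a (c (l 16605624) (l 16559360)) (c (l 16633656) (l 16582040))) (a (l 16610696) (c (l 16593384) (l 16591024)))) (b (a (c (b (l 16506896) (l 16548528)) (l 16514112)) (l 16377368)) (a (c (l 16619192) (l 16613504)) (l 16517600)))) (c (a (b (b (a (l 16565888) (l 16616120)) (a (l 16633896) (l 16534904))) (c (l 16515856) (l 16606472))) (b (l 16601480) (a (b (c (l 16597408) (l 16641128)) (l 16576104)) (c (l 16456144) (l 16613624))))) (b (a (a (c (l 16376560) (l 16524056)) (b (l 16522536) (l 16569296))) (l 16526048)) (a (l 16632448) (b (l 16642192) (l 16558528)))))) (a (c (c (a (b (l 16493168) (l 16617384)) (l 16513584)) (b (l 16409880) (l 16526968))) (a (a (l 16315736) (l 16328248)) (l 16277680))) (c (a (b (b (a (l 16461648) (l 16497672)) (a (l 16534808) (l 16529808))) (l 16513664)) (b (l 16547880) (a (b (l 16597240) (l 16626464)) (l 16498720)))) (a (b (a (a (l 16400152) (l 16347216)) (l 16319520)) (l 16436976)) (b (l 16495776) (a (b (l 16510256) (l 16594024)) (l 16488520)))))))), by decide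 +kernel⟩

def k12_pm_202 : ∃ t, chk3 f_pm_202 t 14 11 1 = true :=
  ⟨(c (a (l 16346808) (a (c (a (l 16488304) (c (l 16473328) (l 16400968))) (a (b (c (l 16512560) (l 16504256)) (l 16406864)) (b (c (l 16502232) (l 16499056)) (c (l 16394992) (l 16385744))))) (c (a (b (c (l 16502504) (l 16496728)) (l 16251920)) (b (b (c (l 16518896) (l 16532384)) (l 16467584)) (l 16236000))) (b (a (l 16506464) (l 16514512)) (a (c (l 16378944) (l 16380216)) (l 16392760)))))) (a (a (l 16446232) (c (b (a (l 16482016) (c (l 16484408) (l 16497072))) (l 16394984)) (a (b (c (l 16500728) (l 16440656)) (c (l 16410488) (l 16424952))) (c (b (l 16460448) (l 16401616)) (b (l 16498480) (a (l 16435520) (l 16408560))))))) (a (c (b (a (c (l 16479984) (l 16522904)) (l 16409608)) (a (c (l 16397712) (l 16375488)) (c (l 16349816) (l 16426944)))) (a (c (b (l 16570008) (l 16342800)) (l 16345464)) (l 16428264))) (c (b (a (l 16552224) (l 16443616)) (l 16294360)) (a (l 16461200) (b (l 16541568) (l 16531360))))))), by decide +kernel⟩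

def k13_pm_202 : ∃ t, chk3 f_pm_202 t 14 3 1 = true :=
  ⟨(a (c (b (c (l 16211536) (l 16163344)) (c (l 15656984) (l 15859768))) (b (c (l 16186184) (a (l 16206160) (b (a (l 16288160) (c (l 16283464) (b (l 16345960) (l 16250616)))) (l 16118344)))) (l 15871664))) (c (b (a (b (c (l 16285736) (c (l 16256672) (a (l 16257928) (l 16172496)))) (l 16085288)) (c (b (a (l 16240352) (c (l 16163216) (l 16044216))) (l 16029480)) (b (a (c (l 16136688) (b (l 16262880) (l 16159160))) (c (l 16034696) (b (l 16265816) (l 16145728)))) (a (l 16021680) (c (l 15991096) (l 15894288)))))) (c (b (l 15877448) (l 15704352)) (l 15786408))) (b (a (b (c (a (c (l 16260720) (l 16172848)) (c (b (l 16289072) (l 16191624)) (b (l 16313408) (l 16212216)))) (b (a (c (l 16299304) (l 16244152)) (c (l 16349912) (l 16410448))) (a (c (l 16242072) (l 16242208)) (c (l 16235256) (l 16270304))))) (c (l 16082440) (a (l 16113088) (c (b (l 16133272) (l 16036240)) (b (l 16134184) (l 16052344)))))) (c (b (a (b (l 16140864) (a (l 16151240) (l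 16192216))) (b (l 16330776) (l 16208280))) (a (c (l 16036520) (b (l 16097648) (l 15998552))) (c (b (l 16064760) (l 15962264)) (b (l 16100800) (l 15983960))))) (b (b (l 16296720) (a (l 16283112) (l 16311384))) (a (c (b (l 16125176) (l 16016888)) (b (l 16169288) (l 16042856))) (c (l 15956512) (l 16147392)))))) (a (l 15836344) (b (c (a (l 15860160) (c (l 15822224) (l 15711976))) (a (b (c (l 15916360) (l 15934232)) (a (l 15837176) (l 15821160))) (c (b (l 15901112) (l 15797104)) (b (l 15934624) (l 15816288))))) (c (l 15670496) (a (l 15697096) (b (a (l 15709776) (l 15700952)) (l 15611760))))))))), by decide +kernel⟩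

def k14_pm_202 : ∃ t, chk3 f_pm_202 t 60 2 1 = true :=
  ⟨(c (b (b (c (a (l 16364648) (l 16387808)) (b (a (l 16230056) (l 16350520)) (c (a (l 16450104) (l 16477648)) (a (l 16347664) (b (l 16445912) (l 16488296)))))) (b (c (a (b (l 16551904) (l 16536520)) (b (l 16567272) (l 16590888))) (c (a (l 16445936) (l 16488784)) (l 16451568))) (c (a (l 16552912) (l 16603096)) (c (l 16565144) (a (l 16494896) (l 16535696)))))) (b (c (c (a (l 16606008) (l 16629712)) (b (l 16581904) (l 16558832))) (b (c (l 16505704) (l 16598968)) (l 16628688))) (a (b (c (b (a (l 16527160) (l 16525552)) (a (l 16470648) (l 16469224))) (b (l 16513384) (l 16394368))) (c (a (l 16379264) (l 16381776)) (l 16331344))) (c (b (l 16475448) (a (b (l 16427864) (l 16369792)) (l 16428576))) (b (l 16528912) (a (l 16362976) (l 16430760))))))) (b (c (b (b (a (c (l 16317632) (l 16217440)) (l 6)) (c (b (a (l 16389744) (l 16430288)) (l 16367984)) (b (a (l 16352824) (l 6)) (a (l 16364808) (l 16404592))))) (c (b (a (l 16433456) (l 16464088))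 (l 16444160)) (a (l 16325552) (l 16355352)))) (a (b (b (c (b (l 6) (c (l 16305184) (l 6))) (l 6)) (c (b (l 16314136) (l 16343496)) (l 16312856))) (c (l 16355520) (l 16392120))) (b (l 6) (c (l 16409432) (l 16449224))))) (a (b (c (l 16467120) (l 16457880)) (b (c (a (b (l 16558600) (l 16488384)) (l 16505016)) (a (l 16479360) (l 16591904))) (b (c (l 16373184) (l 16511760)) (l 16300992)))) (b (c (l 16500760) (l 16497360)) (b (c (l 16547680) (l 16609744)) (b (c (l 16472904) (l 16520104)) (c (l 16278248) (l 16370432)))))))), by decide +kernel⟩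

def k15_pm_202 : ∃ t, chk3 f_pm_202 t 61 2 1 = true :=
  ⟨(c (b (b (a (c (c (a (l 16378976) (l 16317264)) (l 16366936)) (c (l 16433344) (l 6))) (l 6)) (c (c (b (a (a (l 16560024) (l 16493992)) (l 16517400)) (a (l 16502840) (l 16617136))) (b (a (b (l 16558616) (l 16572744)) (b (l 6) (a (l 16530816) (l 6)))) (a (l 16609920) (l 16542104)))) (c (a (b (l 16510152) (l 16569712)) (b (a (l 16556816) (l 6)) (l 16537480))) (b (l 16499672) (a (l 16515424) (l 16482344)))))) (c (b (c (a (a (l 16675544) (l 16654320)) (l 16624424)) (a (b (l 16630536) (l 16656784)) (b (l 16567440) (a (l 16608120) (l 16636648))))) (c (a (c (l 16433144) (l 16442840)) (l 16585752)) (a (l 16484016) (l 16405312)))) (b (c (a (l 16478240) (a (l 16494336) (c (l 16473848) (l 16574408)))) (l 16557560)) (c (a (l 16521304) (l 16470328)) (l 16541096))))) (b (b (l 6) (a (c (b (c (l 16475680) (l 6)) (l 16524360)) (c (l 16423208) (l 16466104))) (c (b (l 6) (l 16540120)) (l 6)))) (c (b (a (l 16494624) (l 16519688)) (b (l 16581920) (l 16450728)))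 (b (a (l 16496888) (l 16527960)) (l 16512200))))), by decide +kernel⟩

def k16_pm_202 : ∃ t, chk3 f_pm_202 t 31 2 1 = true :=
  ⟨(a (c (b (a (b (l 6) (b (l 6) (c (l 16579504) (l 6)))) (l 6)) (c (b (c (l 16563472) (a (l 16505400) (l 16551912))) (a (l 16516232) (l 16614608))) (a (b (b (c (c (l 16581288) (l 16519840)) (a (l 16608256) (l 6))) (c (l 16612856) (l 16572040))) (c (l 16467576) (l 16493608))) (b (c (l 16502984) (l 6)) (c (l 16619008) (l 16548464)))))) (b (l 6) (b (c (a (c (l 16661368) (l 16598472)) (l 6)) (l 6)) (c (a (l 16535528) (c (a (l 16548448) (l 16554920)) (l 16619432))) (b (l 16685112) (l 16617464)))))) (b (l 6) (b (l 6) (c (c (b (l 16630912) (l 16628608)) (a (l 16525512) (l 6))) (c (a (c (l 16567072) (l 6)) (l 6)) (l 6)))))), by decide +kernel⟩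

def k17_pm_202 : ∃ t, chk3 f_pm_202 t 30 3 2 = true :=
  ⟨(b (a (b (a (c (c (l 15995304) (l 16112736)) (c (l 16196376) (l 16225600))) (a (c (l 16127680) (l 16239496)) (b (c (l 16208080) (l 16278880)) (l 16056200)))) (c (a (c (l 15991952) (l 15934016)) (c (b (l 16054680) (l 15945920)) (l 15887216))) (a (c (b (l 16016528) (l 15911632)) (l 15795120)) (b (l 16078712) (l 15892544))))) (b (c (a (b (a (c (l 16164464) (l 16341968)) (l 16311000)) (a (l 16233072) (c (b (l 16317320) (l 16259496)) (l 16259264)))) (b (c (l 16444088) (l 16412744)) (c (l 16162504) (l 16154752)))) (a (b (a (l 16304136) (l 16371248)) (a (l 16239976) (l 16160168))) (a (b (l 16395320) (l 16289336)) (l 16194400)))) (a (c (c (a (l 16027480) (l 16101192)) (l 16053560)) (l 16094216)) (c (b (a (c (l 16208920) (l 16194296)) (b (l 16251744) (l 16194960))) (l 16009720)) (b (a (l 16187360) (c (l 16091136) (l 16220696))) (l 16053184)))))) (a (c (b (a (l 15783560) (c (l 15789200) (l 15779488))) (l 15619616)) (b (a (c (l 15770544) (l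 15786208)) (c (l 15784936) (l 15635136))) (a (l 15603152) (c (l 15597080) (l 15606592))))) (c (b (a (c (a (l 15827704) (l 15786632)) (b (l 15873528) (l 15766504))) (c (b (l 15966800) (l 15847448)) (a (l 15824304) (l 15941440)))) (a (c (l 15651016) (l 15627656)) (c (b (l 15738232) (l 15637104)) (a (l 15676280) (l 15707808))))) (b (a (b (l 15916144) (l 15800320)) (c (l 15934008) (l 15960064))) (a (c (l 15636672) (l 15546008)) (c (a (l 15667120) (l 15715544)) (l 15712752))))))), by decide +kernel⟩

def k18_pm_202 : ∃ t, chk3 f_pm_202 t 30 3 3 = true :=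
  ⟨(b (a (a (b (c (l 16239720) (l 16286880)) (c (c (l 15994344) (l 16071592)) (l 16125928))) (b (b (a (l 16318712) (c (l 16345584) (l 16377136))) (l 16134504)) (c (l 16101528) (l 16171344)))) (b (a (b (b (l 16412976) (a (l 16294496) (l 16420552))) (a (l 16272032) (b (l 16290416) (l 16330888)))) (b (l 16387992) (a (l 16183928) (l 16393296)))) (a (c (l 16167872) (l 16249408)) (b (a (c (l 16249720) (l 16320720)) (b (l 16323544) (l 16258536))) (l 16144616))))) (a (b (c (a (c (b (l 15845720) (l 15745856)) (b (l 15873336) (l 15762184))) (b (l 15917336) (l 15561040))) (a (b (l 15951392) (c (l 15788464) (l 15832936))) (l 15955248))) (c (a (b (l 15641456) (l 15564912)) (c (l 15535240) (b (l 15683120) (l 15576424)))) (a (a (b (l 15628944) (l 15525968)) (b (l 15647872) (l 15557840))) (c (b (l 15719160) (l 15595848)) (l 15593456))))) (b (c (a (l 15946496) (l 16021008)) (a (l 16039680) (l 16105072))) (c (a (c (l 15483480) (l 15704632)) (l 15748656)) (a (l 15790792) (l 15883376)))))), by decide +kernel⟩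

def k19_pm_202 : ∃ t, chk3 f_pm_202 t 62 3 1 = true :=
  ⟨(c (b (c (b (a (l 16330408) (l 16396328)) (a (b (l 16226888) (a (l 16126984) (l 16055424))) (l 16225616))) (a (b (c (l 16373704) (l 16306960)) (b (c (l 16257224) (l 16268088)) (a (c (l 16146488) (l 16153600)) (c (l 16168136) (l 16190184))))) (b (c (l 16430416) (l 16416184)) (l 16162432)))) (c (b (a (b (l 16022416) (l 15906344)) (b (a (b (l 16072032) (l 16017432)) (l 16068096)) (a (l 15937512) (l 15960920)))) (a (c (b (l 15760200) (l 15650088)) (l 15738216)) (c (l 15757552) (l 15800408)))) (a (b (c (l 16008264) (l 16014400)) (c (l 15776056) (l 15821088))) (b (b (a (l 15924688) (l 16109512)) (l 15821400)) (l 15863400))))) (c (b (a (b (l 16433408) (b (l 16300752) (a (l 16199800) (l 16218712)))) (c (a (l 16223560) (l 16219488)) (l 16248928))) (b (a (l 16076400) (b (a (c (l 16144512) (l 16164168)) (c (l 16165816) (l 16184264))) (a (l 16071304) (c (l 16076760) (l 16097216))))) (a (l 15870592) (c (l 15924688) (l 15953768))))) (b (b (l 16400360)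 (a (b (l 16363160) (a (l 16267352) (l 16282384))) (l 16352544))) (b (a (l 16129680) (b (a (l 16212440) (l 16227440)) (l 16138472))) (a (l 15956592) (l 16009584)))))), by decide +kernel⟩

def k20_pm_202 : ∃ t, chk3 f_pm_202 t 63 3 1 = true :=
  ⟨(c (b (c (b (l 16405248) (a (l 16268664) (l 16310360))) (b (c (l 16377192) (a (l 16445368) (l 16459480))) (c (l 16216272) (l 16294960)))) (c (b (a (b (l 16107296) (c (l 15849920) (l 16001744))) (l 16107000)) (a (b (a (l 15882400) (b (l 15933120) (l 15882984))) (l 15794128)) (b (c (l 15942520) (l 15955808)) (a (l 15837024) (b (l 15886040) (l 15837472)))))) (b (a (b (l 16135008) (l 16022200)) (l 16129664)) (a (b (l 15847096) (l 15859256)) (b (l 15994696) (l 15757336)))))) (a (b (c (c (l 16289064) (a (b (l 16473712) (l 16339520)) (l 16337608))) (c (b (l 16408512) (l 16343464)) (l 16362024))) (b (c (a (c (l 16133040) (b (l 16209392) (l 16118944))) (l 16159712)) (a (b (l 16244704) (l 16156208)) (l 16217552))) (c (a (c (l 15955448) (l 15992200)) (b (l 16003992)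 (l 15940400))) (a (l 16035632) (b (c (l 16074096) (l 16101448)) (l 16008336)))))) (b (b (c (l 16479552) (l 6)) (c (l 16341576) (c (a (l 16376432) (l 16380056)) (a (l 16402128) (c (l 16398432) (l 16409160)))))) (c (b (l 16181696) (b (l 16049152) (a (l 15951960) (l 15968336)))) (b (c (l 16180568) (a (l 16244920) (l 16211760))) (c (a (b (l 16084248) (l 16001056)) (l 16056680)) (a (b (l 16114136) (l 16033080)) (b (l 16127320) (c (l 16033880) (l 16047456)))))))))), by decide +kernel⟩

theorem s21_pm_202 : ∃ t, chk3 f_pm_202 t 31 3 1 = true := ex3_a k19_pm_202 k20_pm_202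

theorem s22_pm_202 : ∃ t, chk3 f_pm_202 t 30 3 1 = true := ex3_c k17_pm_202 k18_pm_202

theorem s23_pm_202 : ∃ t, chk3 f_pm_202 t 15 3 1 = true := ex3_a s22_pm_202 s21_pm_202

theorem s24_pm_202 : ∃ t, chk3 f_pm_202 t 30 2 1 = true := ex3_a k14_pm_202 k15_pm_202

theorem s25_pm_202 : ∃ t, chk3 f_pm_202 t 15 2 1 = true := ex3_a s24_pm_202 k16_pm_202

theorem s26_pm_202 : ∃ t, chk3 f_pm_202 t 15 1 1 = true := ex3_b s25_pm_202 s23_pm_202

theorem s27_pm_202 : ∃ t, chk3 f_pm_202 t 14 5 1 = true := ex3_b k11_pm_202 k12_pm_202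

theorem s28_pm_202 : ∃ t, chk3 f_pm_202 t 29 4 1 = true := ex3_c k9_pm_202 k10_pm_202

theorem s29_pm_202 : ∃ t, chk3 f_pm_202 t 28 4 1 = true := ex3_c k7_pm_202 k8_pm_202

theorem s30_pm_202 : ∃ t, chk3 f_pm_202 t 14 4 1 = true := ex3_a s29_pm_202 s28_pm_202

theorem s31_pm_202 : ∃ t, chk3 f_pm_202 t 14 2 1 = true := ex3_b s30_pm_202 s27_pm_202

theorem s32_pm_202 : ∃ t, chk3 f_pm_202 t 14 1 1 = true := ex3_b s31_pm_202 k13_pm_202

theorem s33_pm_202 : ∃ t, chk3 f_pm_202 t 7 1 1 = true := ex3_a s32_pm_202 s26_pm_202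

theorem s34_pm_202 : ∃ t, chk3 f_pm_202 t 6 2 1 = true := ex3_a k4_pm_202 k5_pm_202

theorem s35_pm_202 : ∃ t, chk3 f_pm_202 t 6 1 1 = true := ex3_b s34_pm_202 k6_pm_202

theorem s36_pm_202 : ∃ t, chk3 f_pm_202 t 3 1 1 = true := ex3_a s35_pm_202 s33_pm_202

theorem s37_pm_202 : ∃ t, chk3 f_pm_202 t 5 2 1 = true := ex3_a k1_pm_202 k2_pm_202

theorem s38_pm_202 : ∃ t, chk3 f_pm_202 t 5 1 1 = true := ex3_b s37_pm_202 k3_pm_202

theorem s39_pm_202 : ∃ t, chk3 f_pm_202 t 2 1 1 = true := ex3_a k0_pm_202 s38_pm_202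

theorem s40_pm_202 : ∃ t, chk3 f_pm_202 t 1 1 1 = true := ex3_a s39_pm_202 s36_pm_202

theorem c_pm_202 : CertNX 0 536870912 0 67108864 1046898278 26843546 3 true true false .pp 2 0 2
    ndN0q2 ndN4q0 pcN2 cut_pm_202 Ext.none :=
  certNX0 (fam := true) (s1 := true) (s2 := false) (a := 2) (b := 0) (c := 2) (cn := .pp) (n1 := ndN0q2) (n2 := ndN4q0) (pc := pcN2) (cut := cut_pm_202) (xt := Ext.none) (P1 := 0) (W1 := 536870912) (P2 := 0) (W2 := 67108864) (P3 := 1046898278) (W3 := 26843546) (N0 := 3)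
    rfl s40_pm_202

noncomputable def f_pm_203 : ℕ → ℕ → ℕ → ℕ → Bool := onCell 0 536870912 0 67108864 1046898278 26843546
    (rowNX 3 0 true true false .up 2 0 3 (qsf 0 536870912 0 67108864 3) ndN0q2 ndN4q0 pcN3 Cut.none Ext.none)

def k0_pm_203 : ∃ t, chk3 f_pm_203 t 1 1 1 = true :=
  ⟨(l 1), by decide +kernel⟩

theorem c_pm_203 : CertNX 0 536870912 0 67108864 1046898278 26843546 3 true true false .up 2 0 3
    ndN0q2 ndN4q0 pcN3 Cut.none Ext.none :=
  certNX0 (fam := true) (s1 := true) (s2 := false) (a := 2) (b := 0) (c := 3) (cn := .up) (n1 := ndN0q2) (n2 := ndN4q0) (pc := pcN3) (cut := Cut.none) (xt := Ext.none) (P1 := 0) (W1 := 536870912) (P2 := 0) (W2 := 67108864) (P3 := 1046898278) (W3 := 26843546) (N0 := 3)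
    rfl k0_pm_203

noncomputable def f_mm_001 : ℕ → ℕ → ℕ → ℕ → Bool := onCell 0 536870912 0 67108864 1046898278 26843546
    (rowNX 3 0 true false false .up 0 0 1 (qsf 0 536870912 0 67108864 1) ndN0q0 ndN4q0 pcN1 Cut.none Ext.none)

def k0_mm_001 : ∃ t, chk3 f_mm_001 t 1 1 1 = true :=
  ⟨(l 4), by decide +kernel⟩

theorem c_mm_001 : CertNX 0 536870912 0 67108864 1046898278 26843546 3 true false false .up 0 0 1
    ndN0q0 ndN4q0 pcN1 Cut.none Ext.none :=
  certNX0 (fam := true) (s1 := false) (s2 := false) (a := 0) (b := 0) (c := 1) (cn := .up) (n1 := ndN0q0) (n2 := ndN4q0) (pc := pcN1) (cut := Cut.none) (xt := Ext.none) (P1 := 0) (W1 := 536870912) (P2 := 0) (W2 := 67108864) (P3 := 1046898278) (W3 := 26843546) (N0 := 3)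
    rfl k0_mm_001

noncomputable def cut_mm_101 : Cut := Cut.of [[⟨0, 1, 0, 67108864⟩, ⟨1, 0, 0, 67108864⟩, ⟨2, 1, 0, 67108864⟩]]

noncomputable def f_mm_101 : ℕ → ℕ → ℕ → ℕ → Bool := onCell 536870912 536870912 0 67108864 1046898278 26843546
    (rowNX 3 0 true false false .npn 1 0 1 (qsf 536870912 536870912 0 67108864 1) ndN0q1 ndN4q0 pcN1 cut_mm_101 Ext.none)

def k0_mm_101 : ∃ t, chk3 f_mm_101 t 1 1 1 = true :=
  ⟨(a (l 4) (a (l 4) (a (l 4) (a (l 4) (b (l 6) (l 4)))))), by decide +kernel⟩

theorem c_mm_101 : CertNX 536870912 536870912 0 67108864 1046898278 26843546 3 true false false .npn 1 0 1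
    ndN0q1 ndN4q0 pcN1 cut_mm_101 Ext.none :=
  certNX0 (fam := true) (s1 := false) (s2 := false) (a := 1) (b := 0) (c := 1) (cn := .npn) (n1 := ndN0q1) (n2 := ndN4q0) (pc := pcN1) (cut := cut_mm_101) (xt := Ext.none) (P1 := 536870912) (W1 := 536870912) (P2 := 0) (W2 := 67108864) (P3 := 1046898278) (W3 := 26843546) (N0 := 3)
    rfl k0_mm_101

noncomputable def cut_mm_102 : Cut := Cut.of [[⟨0, 1, 0, 67108864⟩, ⟨1, 0, 0, 67108864⟩, ⟨2, 1, 0, 67108864⟩]]

noncomputable def f_mm_102 : ℕ → ℕ → ℕ → ℕ → Bool := onCell 536870912 536870912 0 67108864 1046898278 26843546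
    (rowNX 3 0 true false false .npp 1 0 2 (qsf 536870912 536870912 0 67108864 2) ndN0q1 ndN4q0 pcN2 cut_mm_102 Ext.none)

def k0_mm_102 : ∃ t, chk3 f_mm_102 t 1 1 1 = true :=
  ⟨(a (l 1) (a (l 1) (a (l 4) (b (a (l 4) (l 6)) (l 4))))), by decide +kernel⟩

theorem c_mm_102 : CertNX 536870912 536870912 0 67108864 1046898278 26843546 3 true false false .npp 1 0 2
    ndN0q1 ndN4q0 pcN2 cut_mm_102 Ext.none :=
  certNX0 (fam := true) (s1 := false) (s2 := false) (a := 1) (b := 0) (c := 2) (cn := .npp) (n1 := ndN0q1) (n2 := ndN4q0) (pc := pcN2) (cut := cut_mm_102) (xt := Ext.none) (P1 := 536870912) (W1 := 536870912) (P2 := 0) (W2 := 67108864) (P3 := 1046898278) (W3 := 26843546) (N0 := 3)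
    rfl k0_mm_102

noncomputable def cut_mm_202 : Cut := Cut.of [[⟨0, 1, 0, 67108864⟩, ⟨1, 0, 0, 67108864⟩, ⟨2, 1, 0, 67108864⟩]]

noncomputable def f_mm_202 : ℕ → ℕ → ℕ → ℕ → Bool := onCell 0 536870912 0 67108864 1046898278 26843546
    (rowNX 3 0 true false false .pp 2 0 2 (qsf 0 536870912 0 67108864 2) ndN0q2 ndN4q0 pcN2 cut_mm_202 Ext.none)

def k0_mm_202 : ∃ t, chk3 f_mm_202 t 4 1 1 = true :=
  ⟨(b (b (a (c (b (a (c (l 15816856) (l 15768472)) (l 15853632)) (c (b (a (l 15770968) (l 15829288)) (l 15726192)) (a (b (l 15698576) (l 15596000)) (b (l 15757440) (l 15658504))))) (b (c (a (b (l 15783744) (c (l 15735664) (l 15702832))) (b (l 15824872) (l 15767248))) (b (a (c (l 15758800) (l 15741400)) (c (l 15795240) (l 15711656))) (a (l 15668232) (l 15709672)))) (c (a (l 15449872) (l 15654704)) (a (l 15569152) (l 15621808))))) (c (b (c (l 16011064) (l 15858480)) (c (b (l 15911584) (l 15901624)) (b (l 15885512) (l 15809824)))) (b (c (b (l 15972984) (c (l 15936136) (l 15902168))) (b (c (l 15903392)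 (b (l 15900096) (l 15906256))) (l 15759272))) (c (l 15557152) (l 15779936))))) (c (a (c (b (a (l 15547360) (l 15613232)) (l 15472552)) (b (l 15536808) (l 15470144))) (b (c (a (l 15703368) (l 15816792)) (l 15638888)) (c (l 15664568) (l 15667736)))) (a (a (c (l 15440408) (l 15389920)) (l 15487824)) (a (l 15546256) (l 15586088))))) (c (a (b (c (l 15413136) (l 15391832)) (c (b (l 15380992) (l 15361568)) (l 15306536))) (b (c (l 15626352) (l 15610960)) (c (l 15376400) (l 15553408)))) (a (b (a (l 15251544) (l 15344096)) (l 15187584)) (b (a (l 15458856) (l 15592336)) (l 15381280))))), by decide +kernel⟩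

def k1_mm_202 : ∃ t, chk3 f_mm_202 t 5 1 1 = true :=
  ⟨(b (a (b (c (b (a (c (l 16200816) (l 16179272)) (b (l 16224872) (l 16149960))) (c (a (l 15999688) (l 16161840)) (b (a (l 16103728) (l 16270264)) (l 15968784)))) (b (a (c (b (l 16172488) (l 16055760)) (b (c (l 16148896) (l 16068400)) (l 16070624))) (b (c (l 16186376) (b (a (l 16268856) (l 16300840)) (a (l 16257512) (l 16318512)))) (c (b (l 16263664) (l 16275768)) (a (l 16198336) (l 16286920))))) (c (a (l 16012152) (l 16162464)) (l 15995672)))) (c (b (a (l 15713864) (l 15899688)) (a (l 15853744) (l 16011880))) (a (l 15753528) (l 15902928)))) (b (c (b (a (a (l 16243912) (l 16391984)) (l 16351424)) (a (b (a (l 16210112) (c (l 16346640) (l 16384288))) (c (l 16410472) (l 16279960))) (b (l 16325520) (c (l 16320648) (l 16228728))))) (b (b (c (l 16314928) (a (c (l 16355024) (l 16337040)) (b (l 16256488) (l 16291224)))) (a (c (b (l 16412088) (l 16267096)) (a (l 16348776) (l 16385064))) (c (l 16378568) (l 16414432)))) (a (c (b (a (l 16349128)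 (l 16420472)) (l 16343360)) (a (l 16309592) (l 16288616))) (c (b (l 16386216) (l 16388688)) (a (l 16407248) (l 16378256)))))) (c (a (b (c (l 16280760) (l 16276528)) (l 16197088)) (b (a (b (l 16272704) (l 16411832)) (b (l 16171088) (l 16277256))) (l 16404960))) (a (c (l 16242736) (l 16213024)) (b (a (l 16327584) (b (l 16368592) (l 16393400))) (l 16364272)))))) (a (c (b (a (l 15817144) (l 15969232)) (c (l 15669032) (l 15855000))) (b (a (l 15741416) (l 15903880)) (l 15633792))) (c (b (a (l 16033872) (l 16184784)) (a (c (l 16137072) (l 16100472)) (c (l 16304336) (l 16273904)))) (b (a (l 16063760) (l 16163976)) (a (l 16017640) (l 16200632)))))), by decide +kernel⟩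

def k2_mm_202 : ∃ t, chk3 f_mm_202 t 12 2 1 = true :=
  ⟨(b (c (b (a (c (l 16250160) (l 16273208)) (c (l 16132144) (b (l 16182000) (l 16068720)))) (a (c (l 16119976) (b (l 16259136) (l 16291864))) (c (b (l 16074944) (l 16095608)) (b (l 16128232) (l 16162888))))) (b (c (a (b (l 16315264) (c (l 16284208) (l 16310576))) (b (l 16127960) (b (l 16094624) (l 16068088)))) (b (a (c (l 16278144) (b (l 16259512) (l 16357128))) (b (c (l 16249312) (a (l 16222640) (l 16210960))) (c (l 16165568) (l 16212376)))) (a (c (l 16331976) (l 16343240)) (c (l 16176176) (l 16232232))))) (c (a (b (l 16309008) (l 16309976)) (b (l 16121544) (l 16186448))) (a (l 16321016) (l 16160784))))) (a (c (b (a (c (l 16322400) (l 16336192)) (l 16187496)) (a (l 16180488) (b (l 16304080) (l 16319440)))) (b (a (l 16310360) (l 16284016)) (a (b (l 16311880) (l 16399264)) (b (l 16288816) (a (l 16327576) (l 16289032)))))) (c (b (c (l 16144464) (l 16185568)) (l 16209728)) (c (l 16121480) (l 16204064))))), by decide +kernel⟩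

def k3_mm_202 : ∃ t, chk3 f_mm_202 t 13 4 2 = true :=
  ⟨(a (b (c (a (l 16079240) (c (l 15983016) (l 16130072))) (b (l 16169168) (l 16036096))) (b (c (a (l 15988040) (l 16027176)) (a (l 16046016) (l 16089224))) (c (l 16002232) (a (l 16060608) (l 16086792))))) (c (b (a (c (b (c (a (l 16247520) (l 16297120)) (l 16083536)) (l 16095840)) (b (l 16193688) (l 16139800))) (c (b (a (l 16164432) (l 16337544)) (a (c (l 16248208) (l 16197936)) (c (l 16286224) (l 16255816)))) (b (a (l 16152312) (c (l 16314696) (l 16272464))) (a (l 16175024) (l 16122104))))) (c (b (a (l 16050336) (c (l 15985600) (a (l 16103384) (l 16149128)))) (a (l 16033840) (l 15978808))) (b (a (l 16080672) (b (l 16132600) (l 16111760))) (l 16096344)))) (b (a (b (l 16240024) (l 16169432)) (b (l 16278048) (b (l 16226824) (l 16134008)))) (b (a (l 16136784) (l 16182240)) (l 16157920))))), by decide +kernel⟩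

def k4_mm_202 : ∃ t, chk3 f_mm_202 t 13 4 3 = true :=
  ⟨(b (a (c (b (a (l 16178568) (l 16228976)) (c (l 16052096) (b (l 16174128) (l 16168648)))) (c (b (b (l 16250904) (a (l 16196392) (l 16249520))) (l 16112608)) (b (b (c (a (l 16240744) (l 16295552)) (a (l 16231936) (l 16266768))) (a (l 16224288) (l 16279448))) (l 16213512)))) (c (b (a (b (l 16299560) (l 16262048)) (b (l 16337560) (l 16283200))) (a (c (l 16210816) (l 16246848)) (b (a (l 16210096) (l 16291704)) (c (l 16249160) (l 16296384))))) (b (a (c (b (l 16331472) (l 16262848)) (b (c (a (l 16338440) (l 16301784)) (b (a (l 16358784) (c (l 16381152) (l 16388440))) (l 16360776))) (l 16315888))) (c (b (l 16370984) (b (l 16351456) (l 16323224))) (b (c (l 16391768) (b (l 16369144) (l 16402704))) (c (l 16375504) (l 16387048))))) (a (c (l 16277600) (l 16297488)) (a (c (l 16275144) (l 16338424)) (c (l 16296616) (l 16360528))))))) (a (c (a (b (l 16107120) (l 16088640)) (l 16048760)) (a (l 16122240) (l 16161720))) (c (b (a (l 16206208) (b (l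 16202792) (l 16252144))) (l 16195360)) (a (l 16217040) (b (l 16230256) (l 16246440)))))), by decide +kernel⟩

def k5_mm_202 : ∃ t, chk3 f_mm_202 t 13 5 1 = true :=
  ⟨(c (a (b (c (a (l 16053128) (l 16044448)) (a (l 16077568) (l 16072904))) (l 16050184)) (b (c (a (l 16064288) (c (l 16083400) (l 16123664))) (l 15993664)) (a (l 16061504) (l 16054496)))) (a (b (a (l 16088008) (c (l 16073632) (l 16101976))) (c (l 16080392) (l 16113456))) (b (c (l 16125328) (l 16159664)) (a (l 16077448) (l 16094216))))), by decide +kernel⟩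

def k6_mm_202 : ∃ t, chk3 f_mm_202 t 6 3 1 = true :=
  ⟨(a (b (a (c (a (l 16494360) (l 16303344)) (a (l 16462272) (l 16361840))) (b (a (c (b (l 16221264) (l 16269208)) (b (l 16220976) (l 16301152))) (c (l 16151680) (l 16177592))) (c (a (l 16345032) (b (l 16081488) (l 16261592))) (a (l 16371072) (b (l 16182576) (l 16287360)))))) (c (a (c (l 16386096) (l 16467088)) (b (l 16323168) (l 16224088))) (a (l 16278152) (l 16256216)))) (b (b (a (c (l 16095504) (l 16130760)) (c (a (l 16079616) (c (l 16069256) (l 16043680))) (a (l 16101424) (l 16076560)))) (a (c (a (b (l 16156384) (a (l 16190768) (l 16178040))) (l 16154336)) (a (b (l 16176000) (l 16124344)) (l 16178888))) (c (c (l 16131384) (l 16114120)) (l 16001728)))) (a (b (a (c (a (l 16244928) (l 16147376)) (l 16184024)) (c (b (l 16137944) (a (l 16240760) (l 16233952))) (b (l 16228824) (a (l 16271184) (l 16263408))))) (c (a (l 16311552) (l 4)) (a (l 16348528) (l 16329192)))) (b (c (c (l 4) (l 16193496)) (l 16139456)) (a (c (l 4) (b (l 16188024)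 (l 4))) (l 4)))))), by decide +kernel⟩

def k7_mm_202 : ∃ t, chk3 f_mm_202 t 28 4 1 = true :=
  ⟨(c (c (b (c (a (a (l 16209448) (l 16323704)) (l 16315240)) (a (c (b (l 16300488) (a (l 16266112) (l 16308432))) (b (a (l 16314592) (l 16325192)) (l 16206336))) (b (c (l 16388088) (l 16321664)) (c (l 16339848) (a (l 16320424) (l 16358840)))))) (a (b (c (a (c (l 16241520) (l 16146704)) (l 16227568)) (b (c (l 16136744) (l 16179744)) (a (l 16148920) (l 16165488)))) (c (c (a (l 16188400) (l 16231920)) (a (l 16148104) (l 16211232))) (a (l 16149608) (l 16180992)))) (c (b (l 16258176) (c (l 16246432) (l 16264208))) (b (c (b (l 16296200) (l 16245464)) (a (l 16124880) (b (l 16301168) (l 16274136)))) (c (a (l 16238832) (l 16284936)) (l 16235648)))))) (b (c (a (c (b (l 16228936) (l 16231416)) (l 16272120)) (c (b (a (c (l 16389128) (l 16363200)) (l 16378736)) (a (l 16277528) (l 16210136))) (b (a (l 16343768) (b (l 6) (l 16362336))) (l 16282944)))) (b (a (l 16321384) (l 16339136)) (l 16254568))) (a (b (l 16115992)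 (c (l 16205584) (l 16223400))) (c (b (c (b (l 16134736) (l 16227816)) (l 16241048)) (l 16244696)) (b (l 16278768) (l 16282376)))))) (b (c (b (a (l 16354728) (l 16349720)) (c (b (l 16312952) (l 16303504)) (b (l 16352520) (l 16352608)))) (b (c (b (l 16382256) (c (l 16370560) (b (l 16413576) (l 16413168)))) (b (a (c (l 16384856) (c (l 16374992) (l 16382504))) (a (c (l 16434360) (c (l 16424688) (l 16432336))) (l 6))) (c (l 16408832) (l 16441792)))) (c (b (l 16330952) (l 16377624)) (l 16364752)))) (c (a (b (b (l 16306024) (l 16232528)) (l 16223528)) (b (l 16230168) (l 16304648))) (a (b (a (l 16307344) (l 16347136)) (a (l 16284840) (l 16307024))) (l 16336264))))), by decide +kernel⟩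

def k8_mm_202 : ∃ t, chk3 f_mm_202 t 29 4 1 = true :=
  ⟨(b (b (l 6) (a (a (b (l 6) (a (c (c (l 16300624) (c (c (l 16351336) (l 16298192)) (l 16302832))) (c (l 16302200) (l 16395304))) (l 6))) (l 6)) (l 6))) (a (c (c (c (b (l 16264416) (l 16286544)) (c (b (l 16320312) (l 16262472)) (b (b (l 16351736) (l 16237360)) (a (l 16318760) (l 16395584))))) (c (a (b (c (b (l 16279448) (l 16307576)) (l 16243488)) (l 16292320)) (b (a (c (l 16329320) (l 16338816)) (l 6)) (c (l 16257760) (l 16352232)))) (b (l 16296024) (l 16338688)))) (c (b (c (l 16382048) (l 16409064)) (l 16361672)) (c (l 16379800) (l 16428624)))) (a (b (l 6) (a (c (c (l 16288848) (c (c (l 16455304) (l 16420408)) (l 16408520))) (c (l 16429104) (l 16463504))) (l 6))) (l 6)))), by decide +kernel⟩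

def k9_mm_202 : ∃ t, chk3 f_mm_202 t 15 4 1 = true :=
  ⟨(l 6), by decide +kernel⟩

def k10_mm_202 : ∃ t, chk3 f_mm_202 t 7 5 1 = true :=
  ⟨(b (a (c (a (c (a (c (b (c (l 16093808) (l 16165160)) (c (l 16181208) (l 16161224))) (b (l 16172712) (l 16164632))) (c (b (a (c (l 16275264) (l 16250888)) (l 16300344)) (a (c (l 16285240) (l 16232128)) (l 4))) (b (a (c (l 16210544) (l 16211136)) (c (l 16283952) (l 16244616))) (a (l 16203280) (c (l 16134264) (l 16235240)))))) (a (l 16183968) (b (l 16161552) (l 16213208)))) (c (a (c (l 4) (b (a (c (l 16349048) (l 16309280)) (l 4)) (l 4))) (l 4)) (a (c (b (c (a (l 16282872) (l 16266096)) (l 16317432)) (l 16303112)) (l 16303272)) (c (l 4) (a (l 16404840) (l 4)))))) (a (a (c (l 16194824) (l 16235072)) (c (b (l 16257904) (l 16214216)) (b (l 16299080) (l 16263360)))) (c (a (l 16260152) (l 16350936)) (a (l 16339936) (l 16400120))))) (a (l 6) (l 4))) (a (c (a (c (c (a (c (l 15987312) (l 16135520)) (l 4)) (a (l 16125064) (l 16196288))) (a (l 16110552) (l 16172152)))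 (l 4)) (a (a (l 16139224) (c (l 16085512) (l 16211656))) (a (a (c (b (l 16222920) (l 16207816)) (l 16149104)) (c (l 16284760) (l 16314920))) (c (l 4) (l 16428512))))) (l 4))), by decide +kernel⟩

def k11_mm_202 : ∃ t, chk3 f_mm_202 t 7 3 1 = true :=
  ⟨(a (b (a (c (a (b (l 16019784) (l 4)) (l 4)) (a (b (l 16070208) (l 16112160)) (b (l 16151384) (l 16139872)))) (a (a (c (l 4) (l 16139584)) (l 4)) (l 4))) (l 4)) (l 4)), by decide +kernel⟩

theorem s12_mm_202 : ∃ t, chk3 f_mm_202 t 14 4 1 = true := ex3_a k7_mm_202 k8_mm_202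

theorem s13_mm_202 : ∃ t, chk3 f_mm_202 t 7 4 1 = true := ex3_a s12_mm_202 k9_mm_202

theorem s14_mm_202 : ∃ t, chk3 f_mm_202 t 7 2 1 = true := ex3_b s13_mm_202 k10_mm_202

theorem s15_mm_202 : ∃ t, chk3 f_mm_202 t 7 1 1 = true := ex3_b s14_mm_202 k11_mm_202

theorem s16_mm_202 : ∃ t, chk3 f_mm_202 t 13 4 1 = true := ex3_c k3_mm_202 k4_mm_202

theorem s17_mm_202 : ∃ t, chk3 f_mm_202 t 13 2 1 = true := ex3_b s16_mm_202 k5_mm_202

theorem s18_mm_202 : ∃ t, chk3 f_mm_202 t 6 2 1 = true := ex3_a k2_mm_202 s17_mm_202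

theorem s19_mm_202 : ∃ t, chk3 f_mm_202 t 6 1 1 = true := ex3_b s18_mm_202 k6_mm_202

theorem s20_mm_202 : ∃ t, chk3 f_mm_202 t 3 1 1 = true := ex3_a s19_mm_202 s15_mm_202

theorem s21_mm_202 : ∃ t, chk3 f_mm_202 t 2 1 1 = true := ex3_a k0_mm_202 k1_mm_202

theorem s22_mm_202 : ∃ t, chk3 f_mm_202 t 1 1 1 = true := ex3_a s21_mm_202 s20_mm_202

theorem c_mm_202 : CertNX 0 536870912 0 67108864 1046898278 26843546 3 true false false .pp 2 0 2
    ndN0q2 ndN4q0 pcN2 cut_mm_202 Ext.none :=
  certNX0 (fam := true) (s1 := false) (s2 := false) (a := 2) (b := 0) (c := 2) (cn := .pp) (n1 := ndN0q2) (n2 := ndN4q0) (pc := pcN2) (cut := cut_mm_202) (xt := Ext.none) (P1 := 0) (W1 := 536870912) (P2 := 0) (W2 := 67108864) (P3 := 1046898278) (W3 := 26843546) (N0 := 3)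
    rfl s22_mm_202

noncomputable def f_mm_203 : ℕ → ℕ → ℕ → ℕ → Bool := onCell 0 536870912 0 67108864 1046898278 26843546
    (rowNX 3 0 true false false .up 2 0 3 (qsf 0 536870912 0 67108864 3) ndN0q2 ndN4q0 pcN3 Cut.none Ext.none)

def k0_mm_203 : ∃ t, chk3 f_mm_203 t 1 1 1 = true :=
  ⟨(l 1), by decide +kernel⟩

theorem c_mm_203 : CertNX 0 536870912 0 67108864 1046898278 26843546 3 true false false .up 2 0 3
    ndN0q2 ndN4q0 pcN3 Cut.none Ext.none :=
  certNX0 (fam := true) (s1 := false) (s2 := false) (a := 2) (b := 0) (c := 3) (cn := .up) (n1 := ndN0q2) (n2 := ndN4q0) (pc := pcN3) (cut := Cut.none) (xt := Ext.none) (P1 := 0) (W1 := 536870912) (P2 := 0) (W2 := 67108864) (P3 := 1046898278) (W3 := 26843546) (N0 := 3)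
    rfl k0_mm_203

end Pool.Agent.Strip051.G.IE1.Tab.C.NA04

namespace Pool.Agent.Strip051.G.IE1.Tab.C.NA05

open Pool.Agent.Strip051.PB Pool.Agent.Strip051.PB.T
open Pool.Agent.Strip051.G.IE1.Tab

noncomputable def f_pp_001 : ℕ → ℕ → ℕ → ℕ → Bool := onCell 0 536870912 0 536870912 1046898278 26843546
    (rowNX 3 0 true true true .up 0 0 1 (qsf 0 536870912 0 536870912 1) ndN0q0 ndN5q0 pcN1 Cut.none Ext.none)

def k0_pp_001 : ∃ t, chk3 f_pp_001 t 1 1 1 = true :=
  ⟨(l 4), by decide +kernel⟩

theorem c_pp_001 : CertNX 0 536870912 0 536870912 1046898278 26843546 3 true true true .up 0 0 1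
    ndN0q0 ndN5q0 pcN1 Cut.none Ext.none :=
  certNX0 (fam := true) (s1 := true) (s2 := true) (a := 0) (b := 0) (c := 1) (cn := .up) (n1 := ndN0q0) (n2 := ndN5q0) (pc := pcN1) (cut := Cut.none) (xt := Ext.none) (P1 := 0) (W1 := 536870912) (P2 := 0) (W2 := 536870912) (P3 := 1046898278) (W3 := 26843546) (N0 := 3)
    rfl k0_pp_001

noncomputable def f_pp_011 : ℕ → ℕ → ℕ → ℕ → Bool := onCell 0 536870912 536870912 469762048 1046898278 26843546
    (rowNX 3 0 true true true .pnn 0 1 1 (qsf 0 536870912 536870912 469762048 1) ndN0q0 ndN5q1 pcN1 Cut.none Ext.none)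

def k0_pp_011 : ∃ t, chk3 f_pp_011 t 1 1 1 = true :=
  ⟨(l 4), by decide +kernel⟩

theorem c_pp_011 : CertNX 0 536870912 536870912 469762048 1046898278 26843546 3 true true true .pnn 0 1 1
    ndN0q0 ndN5q1 pcN1 Cut.none Ext.none :=
  certNX0 (fam := true) (s1 := true) (s2 := true) (a := 0) (b := 1) (c := 1) (cn := .pnn) (n1 := ndN0q0) (n2 := ndN5q1) (pc := pcN1) (cut := Cut.none) (xt := Ext.none) (P1 := 0) (W1 := 536870912) (P2 := 536870912) (W2 := 469762048) (P3 := 1046898278) (W3 := 26843546) (N0 := 3)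
    rfl k0_pp_011

noncomputable def f_pp_012 : ℕ → ℕ → ℕ → ℕ → Bool := onCell 0 536870912 536870912 469762048 1046898278 26843546
    (rowNX 3 0 true true true .pnp 0 1 2 (qsf 0 536870912 536870912 469762048 2) ndN0q0 ndN5q1 pcN2 Cut.none Ext.none)

def k0_pp_012 : ∃ t, chk3 f_pp_012 t 1 1 1 = true :=
  ⟨(l 4), by decide +kernel⟩

theorem c_pp_012 : CertNX 0 536870912 536870912 469762048 1046898278 26843546 3 true true true .pnp 0 1 2
    ndN0q0 ndN5q1 pcN2 Cut.none Ext.none :=
  certNX0 (fam := true) (s1 := true) (s2 := true) (a := 0) (b := 1) (c := 2) (cn := .pnp) (n1 := ndN0q0) (n2 := ndN5q1) (pc := pcN2) (cut := Cut.none) (xt := Ext.none) (P1 := 0) (W1 := 536870912) (P2 := 536870912) (W2 := 469762048) (P3 := 1046898278) (W3 := 26843546) (N0 := 3)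
    rfl k0_pp_012

noncomputable def f_pp_022 : ℕ → ℕ → ℕ → ℕ → Bool := onCell 0 536870912 1073741824 536870912 1046898278 26843546
    (rowNX 3 0 true true true .pp 0 2 2 (qsf 0 536870912 1073741824 536870912 2) ndN0q0 ndN5q2 pcN2 Cut.none Ext.none)

def k0_pp_022 : ∃ t, chk3 f_pp_022 t 1 1 1 = true :=
  ⟨(l 4), by decide +kernel⟩

theorem c_pp_022 : CertNX 0 536870912 1073741824 536870912 1046898278 26843546 3 true true true .pp 0 2 2
    ndN0q0 ndN5q2 pcN2 Cut.none Ext.none :=
  certNX0 (fam := true) (s1 := true) (s2 := true) (a := 0) (b := 2) (c := 2) (cn := .pp) (n1 := ndN0q0) (n2 := ndN5q2) (pc := pcN2) (cut := Cut.none) (xt := Ext.none) (P1 := 0) (W1 := 536870912) (P2 := 1073741824) (W2 := 536870912) (P3 := 1046898278) (W3 := 26843546) (N0 := 3)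
    rfl k0_pp_022

noncomputable def f_pp_023 : ℕ → ℕ → ℕ → ℕ → Bool := onCell 0 536870912 1073741824 536870912 1046898278 26843546
    (rowNX 3 0 true true true .up 0 2 3 (qsf 0 536870912 1073741824 536870912 3) ndN0q0 ndN5q2 pcN3 Cut.none Ext.none)

def k0_pp_023 : ∃ t, chk3 f_pp_023 t 1 1 1 = true :=
  ⟨(l 4), by decide +kernel⟩

theorem c_pp_023 : CertNX 0 536870912 1073741824 536870912 1046898278 26843546 3 true true true .up 0 2 3
    ndN0q0 ndN5q2 pcN3 Cut.none Ext.none :=
  certNX0 (fam := true) (s1 := true) (s2 := true) (a := 0) (b := 2) (c := 3) (cn := .up) (n1 := ndN0q0) (n2 := ndN5q2) (pc := pcN3) (cut := Cut.none) (xt := Ext.none) (P1 := 0) (W1 := 536870912) (P2 := 1073741824) (W2 := 536870912) (P3 := 1046898278) (W3 := 26843546) (N0 := 3)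
    rfl k0_pp_023

noncomputable def f_pp_033 : ℕ → ℕ → ℕ → ℕ → Bool := onCell 0 536870912 0 1230186008 1046898278 26843546
    (rowNX 3 0 true true true .pnn 0 3 3 (qsf 0 536870912 0 1230186008 3) ndN0q0 ndN5q3 pcN3 Cut.none Ext.none)

def k0_pp_033 : ∃ t, chk3 f_pp_033 t 1 1 1 = true :=
  ⟨(b (l 4) (l 4)), by decide +kernel⟩

theorem c_pp_033 : CertNX 0 536870912 0 1230186008 1046898278 26843546 3 true true true .pnn 0 3 3
    ndN0q0 ndN5q3 pcN3 Cut.none Ext.none :=
  certNX0 (fam := true) (s1 := true) (s2 := true) (a := 0) (b := 3) (c := 3) (cn := .pnn) (n1 := ndN0q0) (n2 := ndN5q3) (pc := pcN3) (cut := Cut.none) (xt := Ext.none) (P1 := 0) (W1 := 536870912) (P2 := 0) (W2 := 1230186008) (P3 := 1046898278) (W3 := 26843546) (N0 := 3)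
    rfl k0_pp_033

noncomputable def f_pp_101 : ℕ → ℕ → ℕ → ℕ → Bool := onCell 536870912 536870912 0 536870912 1046898278 26843546
    (rowNX 3 0 true true true .npn 1 0 1 (qsf 536870912 536870912 0 536870912 1) ndN0q1 ndN5q0 pcN1 Cut.none Ext.none)

def k0_pp_101 : ∃ t, chk3 f_pp_101 t 1 1 1 = true :=
  ⟨(l 5), by decide +kernel⟩

theorem c_pp_101 : CertNX 536870912 536870912 0 536870912 1046898278 26843546 3 true true true .npn 1 0 1
    ndN0q1 ndN5q0 pcN1 Cut.none Ext.none :=
  certNX0 (fam := true) (s1 := true) (s2 := true) (a := 1) (b := 0) (c := 1) (cn := .npn) (n1 := ndN0q1) (n2 := ndN5q0) (pc := pcN1) (cut := Cut.none) (xt := Ext.none) (P1 := 536870912) (W1 := 536870912) (P2 := 0) (W2 := 536870912) (P3 := 1046898278) (W3 := 26843546) (N0 := 3)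
    rfl k0_pp_101

noncomputable def f_pp_102 : ℕ → ℕ → ℕ → ℕ → Bool := onCell 536870912 536870912 0 536870912 1046898278 26843546
    (rowNX 3 0 true true true .npp 1 0 2 (qsf 536870912 536870912 0 536870912 2) ndN0q1 ndN5q0 pcN2 Cut.none Ext.none)

def k0_pp_102 : ∃ t, chk3 f_pp_102 t 1 1 1 = true :=
  ⟨(l 5), by decide +kernel⟩

theorem c_pp_102 : CertNX 536870912 536870912 0 536870912 1046898278 26843546 3 true true true .npp 1 0 2
    ndN0q1 ndN5q0 pcN2 Cut.none Ext.none :=
  certNX0 (fam := true) (s1 := true) (s2 := true) (a := 1) (b := 0) (c := 2) (cn := .npp) (n1 := ndN0q1) (n2 := ndN5q0) (pc := pcN2) (cut := Cut.none) (xt := Ext.none) (P1 := 536870912) (W1 := 536870912) (P2 := 0) (W2 := 536870912) (P3 := 1046898278) (W3 := 26843546) (N0 := 3)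
    rfl k0_pp_102

noncomputable def f_pp_112 : ℕ → ℕ → ℕ → ℕ → Bool := onCell 536870912 536870912 536870912 469762048 1046898278 26843546
    (rowNX 3 0 true true true .dn 1 1 2 (qsf 536870912 536870912 536870912 469762048 2) ndN0q1 ndN5q1 pcN2 Cut.none Ext.none)

def k0_pp_112 : ∃ t, chk3 f_pp_112 t 1 1 1 = true :=
  ⟨(l 4), by decide +kernel⟩

theorem c_pp_112 : CertNX 536870912 536870912 536870912 469762048 1046898278 26843546 3 true true true .dn 1 1 2
    ndN0q1 ndN5q1 pcN2 Cut.none Ext.none :=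
  certNX0 (fam := true) (s1 := true) (s2 := true) (a := 1) (b := 1) (c := 2) (cn := .dn) (n1 := ndN0q1) (n2 := ndN5q1) (pc := pcN2) (cut := Cut.none) (xt := Ext.none) (P1 := 536870912) (W1 := 536870912) (P2 := 536870912) (W2 := 469762048) (P3 := 1046898278) (W3 := 26843546) (N0 := 3)
    rfl k0_pp_112

noncomputable def f_pp_113 : ℕ → ℕ → ℕ → ℕ → Bool := onCell 536870912 536870912 536870912 469762048 1046898278 26843546
    (rowNX 3 0 true true true .nn 1 1 3 (qsf 536870912 536870912 536870912 469762048 3) ndN0q1 ndN5q1 pcN3 Cut.none Ext.none)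

def k0_pp_113 : ∃ t, chk3 f_pp_113 t 1 1 1 = true :=
  ⟨(l 4), by decide +kernel⟩

theorem c_pp_113 : CertNX 536870912 536870912 536870912 469762048 1046898278 26843546 3 true true true .nn 1 1 3
    ndN0q1 ndN5q1 pcN3 Cut.none Ext.none :=
  certNX0 (fam := true) (s1 := true) (s2 := true) (a := 1) (b := 1) (c := 3) (cn := .nn) (n1 := ndN0q1) (n2 := ndN5q1) (pc := pcN3) (cut := Cut.none) (xt := Ext.none) (P1 := 536870912) (W1 := 536870912) (P2 := 536870912) (W2 := 469762048) (P3 := 1046898278) (W3 := 26843546) (N0 := 3)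
    rfl k0_pp_113

noncomputable def f_pp_123 : ℕ → ℕ → ℕ → ℕ → Bool := onCell 536870912 536870912 1073741824 536870912 1046898278 26843546
    (rowNX 3 0 true true true .npn 1 2 3 (qsf 536870912 536870912 1073741824 536870912 3) ndN0q1 ndN5q2 pcN3 Cut.none Ext.none)

def k0_pp_123 : ∃ t, chk3 f_pp_123 t 1 1 1 = true :=
  ⟨(l 4), by decide +kernel⟩

theorem c_pp_123 : CertNX 536870912 536870912 1073741824 536870912 1046898278 26843546 3 true true true .npn 1 2 3
    ndN0q1 ndN5q2 pcN3 Cut.none Ext.none :=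
  certNX0 (fam := true) (s1 := true) (s2 := true) (a := 1) (b := 2) (c := 3) (cn := .npn) (n1 := ndN0q1) (n2 := ndN5q2) (pc := pcN3) (cut := Cut.none) (xt := Ext.none) (P1 := 536870912) (W1 := 536870912) (P2 := 1073741824) (W2 := 536870912) (P3 := 1046898278) (W3 := 26843546) (N0 := 3)
    rfl k0_pp_123

noncomputable def f_pp_133 : ℕ → ℕ → ℕ → ℕ → Bool := onCell 536870912 536870912 0 1230186008 1046898278 26843546
    (rowNX 3 0 true true true .dn 1 3 3 (qsf 536870912 536870912 0 1230186008 3) ndN0q1 ndN5q3 pcN3 Cut.none Ext.none)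

def k0_pp_133 : ∃ t, chk3 f_pp_133 t 1 1 1 = true :=
  ⟨(b (l 2) (l 4)), by decide +kernel⟩

theorem c_pp_133 : CertNX 536870912 536870912 0 1230186008 1046898278 26843546 3 true true true .dn 1 3 3
    ndN0q1 ndN5q3 pcN3 Cut.none Ext.none :=
  certNX0 (fam := true) (s1 := true) (s2 := true) (a := 1) (b := 3) (c := 3) (cn := .dn) (n1 := ndN0q1) (n2 := ndN5q3) (pc := pcN3) (cut := Cut.none) (xt := Ext.none) (P1 := 536870912) (W1 := 536870912) (P2 := 0) (W2 := 1230186008) (P3 := 1046898278) (W3 := 26843546) (N0 := 3)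
    rfl k0_pp_133

noncomputable def f_pp_202 : ℕ → ℕ → ℕ → ℕ → Bool := onCell 0 536870912 0 536870912 1046898278 26843546
    (rowNX 3 0 true true true .pp 2 0 2 (qsf 0 536870912 0 536870912 2) ndN0q2 ndN5q0 pcN2 Cut.none Ext.none)

def k0_pp_202 : ∃ t, chk3 f_pp_202 t 1 1 1 = true :=
  ⟨(l 5), by decide +kernel⟩

theorem c_pp_202 : CertNX 0 536870912 0 536870912 1046898278 26843546 3 true true true .pp 2 0 2
    ndN0q2 ndN5q0 pcN2 Cut.none Ext.none :=
  certNX0 (fam := true) (s1 := true) (s2 := true) (a := 2) (b := 0) (c := 2) (cn := .pp) (n1 := ndN0q2) (n2 := ndN5q0) (pc := pcN2) (cut := Cut.none) (xt := Ext.none) (P1 := 0) (W1 := 536870912) (P2 := 0) (W2 := 536870912) (P3 := 1046898278) (W3 := 26843546) (N0 := 3)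
    rfl k0_pp_202

noncomputable def f_pp_203 : ℕ → ℕ → ℕ → ℕ → Bool := onCell 0 536870912 0 536870912 1046898278 26843546
    (rowNX 3 0 true true true .up 2 0 3 (qsf 0 536870912 0 536870912 3) ndN0q2 ndN5q0 pcN3 Cut.none Ext.none)

def k0_pp_203 : ∃ t, chk3 f_pp_203 t 1 1 1 = true :=
  ⟨(l 5), by decide +kernel⟩

theorem c_pp_203 : CertNX 0 536870912 0 536870912 1046898278 26843546 3 true true true .up 2 0 3
    ndN0q2 ndN5q0 pcN3 Cut.none Ext.none :=
  certNX0 (fam := true) (s1 := true) (s2 := true) (a := 2) (b := 0) (c := 3) (cn := .up) (n1 := ndN0q2) (n2 := ndN5q0) (pc := pcN3) (cut := Cut.none) (xt := Ext.none) (P1 := 0) (W1 := 536870912) (P2 := 0) (W2 := 536870912) (P3 := 1046898278) (W3 := 26843546) (N0 := 3)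
    rfl k0_pp_203

noncomputable def f_pp_213 : ℕ → ℕ → ℕ → ℕ → Bool := onCell 0 536870912 536870912 469762048 1046898278 26843546
    (rowNX 3 0 true true true .pnn 2 1 3 (qsf 0 536870912 536870912 469762048 3) ndN0q2 ndN5q1 pcN3 Cut.none Ext.none)

def k0_pp_213 : ∃ t, chk3 f_pp_213 t 1 1 1 = true :=
  ⟨(l 4), by decide +kernel⟩

theorem c_pp_213 : CertNX 0 536870912 536870912 469762048 1046898278 26843546 3 true true true .pnn 2 1 3
    ndN0q2 ndN5q1 pcN3 Cut.none Ext.none :=
  certNX0 (fam := true) (s1 := true) (s2 := true) (a := 2) (b := 1) (c := 3) (cn := .pnn) (n1 := ndN0q2) (n2 := ndN5q1) (pc := pcN3) (cut := Cut.none) (xt := Ext.none) (P1 := 0) (W1 := 536870912) (P2 := 536870912) (W2 := 469762048) (P3 := 1046898278) (W3 := 26843546) (N0 := 3)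
    rfl k0_pp_213

noncomputable def f_pm_001 : ℕ → ℕ → ℕ → ℕ → Bool := onCell 0 536870912 536870912 536870912 1046898278 26843546
    (rowNX 3 1 true true false .up 0 0 1 (qsf 0 536870912 0 536870912 1) ndN0q0 ndN5q0 pcN1 Cut.none Ext.none)

def k0_pm_001 : ∃ t, chk3 f_pm_001 t 1 1 1 = true :=
  ⟨(b (l 3) (b (l 3) (a (l 2) (b (l 3) (b (l 3) (a (l 2) (a (l 2) (b (c (c (b (l 15584616) (l 15529896)) (b (l 15540440) (l 15510872))) (l 15486680)) (a (l 2) (c (l 15437400) (b (c (l 15425920) (l 15405408)) (c (l 15376928) (l 15350368))))))))))))), by decide +kernel⟩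

theorem c_pm_001 : CertNX 0 536870912 0 536870912 1046898278 26843546 3 true true false .up 0 0 1
    ndN0q0 ndN5q0 pcN1 Cut.none Ext.none :=
  certNX1 (fam := true) (s1 := true) (s2 := false) (a := 0) (b := 0) (c := 1) (cn := .up) (n1 := ndN0q0) (n2 := ndN5q0) (pc := pcN1) (cut := Cut.none) (xt := Ext.none) (P1 := 0) (W1 := 536870912) (P2 := 0) (W2 := 536870912) (P3 := 1046898278) (W3 := 26843546) (N0 := 3)
    rfl (fun _ => rfl) k0_pm_001

noncomputable def f_pm_011 : ℕ → ℕ → ℕ → ℕ → Bool := onCell 536870912 536870912 536870912 469762048 1046898278 26843546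
    (rowNX 3 2 true true false .pnn 0 1 1 (qsf 0 536870912 536870912 469762048 1) ndN0q0 ndN5q1 pcN1 Cut.none Ext.none)

def k0_pm_011 : ∃ t, chk3 f_pm_011 t 2 1 1 = true :=
  ⟨(l 3), by decide +kernel⟩

def k1_pm_011 : ∃ t, chk3 f_pm_011 t 3 2 1 = true :=
  ⟨(a (l 3) (a (l 3) (a (l 3) (b (a (a (l 3) (c (c (l 15530192) (b (l 15511064) (c (l 15523616) (l 15504648)))) (b (l 15465120) (l 15465568)))) (c (c (l 15446512) (a (l 15455368) (l 15399632))) (a (c (b (c (l 15436552) (l 15426168)) (a (l 15450880) (l 15416408))) (l 15406792)) (c (l 15378648) (b (a (l 15360208) (l 15338216)) (a (l 15362136) (l 15340688))))))) (a (a (l 3) (a (l 3) (b (c (c (l 15515264) (l 297054633799)) (l 15455192)) (b (l 3) (l 3))))) (c (c (b (l 15449016) (l 15450456)) (a (b (l 15457624) (c (l 15462136) (l 15456256))) (l 15382800))) (a (c (c (a (b (l 15460960) (l 15462096)) (l 15431624)) (b (l 15429248) (a (l 15439336) (l 15422184)))) (b (l 15409040) (l 15410264))) (c (b (l 15382000) (l 15384112)) (c (a (b (l 15376032)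 (l 15377960)) (l 15352272)) (a (l 15366448) (b (l 15337632) (l 15339960)))))))))))), by decide +kernel⟩

def k2_pm_011 : ∃ t, chk3 f_pm_011 t 6 3 1 = true :=
  ⟨(l 3), by decide +kernel⟩

def k3_pm_011 : ∃ t, chk3 f_pm_011 t 14 6 1 = true :=
  ⟨(l 3), by decide +kernel⟩

def k4_pm_011 : ∃ t, chk3 f_pm_011 t 30 6 1 = true :=
  ⟨(l 3), by decide +kernel⟩

def k5_pm_011 : ∃ t, chk3 f_pm_011 t 62 6 1 = true :=
  ⟨(l 3), by decide +kernel⟩

def k6_pm_011 : ∃ t, chk3 f_pm_011 t 126 6 1 = true :=
  ⟨(a (b (a (l 3) (b (c (l 15475952) (c (l 333024937495) (l 15416984))) (b (b (c (l 15476120) (c (l 15449768) (l 15417152))) (l 3)) (l 3)))) (l 3)) (b (c (b (l 15452368) (b (l 15430368) (l 15384584))) (c (c (b (l 15433696) (b (l 15432720) (l 15364208))) (b (l 15423440) (b (a (l 15430192) (l 15420824)) (a (l 15352376) (l 15359456))))) (b (l 15399560) (b (l 15398512) (l 15328152))))) (c (b (b (b (l 15266792) (l 15311856)) (l 15466784)) (b (l 15596368) (l 301350287799))) (b (c (c (b (b (l 15264864) (l 15289616))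 (l 15448560)) (b (b (a (l 15251328) (l 15259248)) (a (l 15276272) (l 15284344))) (a (l 15415776) (c (l 15450560) (l 15440808))))) (b (b (l 15226192) (l 15251584)) (l 15414600))) (a (l 3) (c (c (l 15781496) (c (l 15658616) (b (l 15662576) (l 15892168)))) (l 15695192))))))), by decide +kernel⟩

def k7_pm_011 : ∃ t, chk3 f_pm_011 t 127 6 1 = true :=
  ⟨(b (c (b (l 15417992) (b (l 15418704) (b (l 15388960) (l 15371520)))) (c (b (l 15385664) (b (l 15386424) (a (c (l 15361288) (l 15354216)) (l 15354200)))) (a (b (c (l 15379376) (l 15368904)) (c (b (l 15380072) (a (l 15345832) (c (l 15348456) (l 15342928)))) (l 15346504))) (c (b (l 15355168) (l 15345560)) (b (l 15341664) (b (l 15342504) (a (l 15325392) (l 15303256)))))))) (c (b (b (b (l 15308416) (l 15332616)) (l 15487680)) (b (l 15701352) (l 15922880))) (c (b (b (b (a (l 15265576) (l 15277784)) (a (l 15290536) (l 15302792))) (a (c (l 15453312) (l 15447232)) (l 15462744))) (a (c (l 15784912) (b (l 15668560) (l 15897816))) (l 15796088))) (b (a (b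 (c (b (a (l 15247616) (l 15248976)) (a (l 15272984) (l 15274344))) (l 15246160)) (c (a (l 15435376) (c (l 15443248) (l 15438208))) (l 15423096))) (c (b (b (l 15259720) (l 15285120)) (l 15447560)) (b (b (a (l 15239616) (l 15248912)) (a (l 15265264) (l 15274592))) (a (l 15429352) (c (l 15442568) (l 15436272)))))) (a (c (a (b (l 15658928) (l 15869448)) (c (l 15780744) (b (l 15662344) (l 15894440)))) (l 15764744)) (c (l 15639144) (a (c (b (l 15660608) (l 15893848)) (l 15773008)) (c (l 15783520) (b (l 15662720) (l 15897144)))))))))), by decide +kernel⟩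

def k8_pm_011 : ∃ t, chk3 f_pm_011 t 14 7 1 = true :=
  ⟨(l 3), by decide +kernel⟩

def k9_pm_011 : ∃ t, chk3 f_pm_011 t 30 7 1 = true :=
  ⟨(l 3), by decide +kernel⟩

def k10_pm_011 : ∃ t, chk3 f_pm_011 t 62 7 1 = true :=
  ⟨(l 3), by decide +kernel⟩

def k11_pm_011 : ∃ t, chk3 f_pm_011 t 126 7 1 = true :=
  ⟨(a (l 3) (b (b (b (c (l 879023847031) (c (c (l 1057264991447) (a (l 3) (c (l 16135952) (l 16066592)))) (l 16111376))) (l 3)) (l 3)) (l 3))), by decide +kernel⟩

def k12_pm_011 : ∃ t, chk3 f_pm_011 t 127 14 1 = true :=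
  ⟨(b (c (b (l 16131200) (b (l 16329184) (b (l 16397408) (l 16474368)))) (c (b (a (c (l 16134224) (l 16071984)) (l 16147200)) (b (a (c (l 16315400) (l 16317800)) (l 16329312)) (a (c (l 16393296) (a (b (l 16365496) (l 16465216)) (l 16418344))) (l 16428808)))) (b (a (c (a (l 16003944) (c (l 16136048) (l 16092456))) (l 16124264)) (c (l 16142168) (a (c (l 16051088) (l 16133496)) (c (l 16142344) (l 16013632))))) (a (b (c (a (l 16272424) (c (l 16320272) (l 16319488))) (l 16310608)) (c (a (b (b (l 16350560) (l 16422176)) (l 16423680)) (c (l 16379200) (b (b (l 16397840) (l 16427608)) (l 16450224)))) (l 16391864))) (b (c (l 16326864) (a (c (l 16299976) (l 16320344)) (c (l 16328344) (l 16263424)))) (c (b (l 16377936) (l 16478248)) (a (c (a (l 16382216) (c (l 16426904) (l 16405848))) (l 16443888)) (c (l 16409408) (b (a (l 16396624) (l 16359448)) (l 16416568)))))))))) (c (b (l 16403160) (a (c (l 248201139991) (l 261622892663)) (l 16254488))) (c (b (a (c (l 16505592) (l 284171811895)) (l 16484760)) (a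 (a (a (l 3) (l 752322919623)) (l 16280208)) (l 16309296))) (a (c (a (b (b (l 16448368) (l 307794153559)) (c (b (l 16380328) (a (l 3) (l 16326176))) (l 16341592))) (c (b (l 16489584) (l 16273176)) (b (l 16425856) (b (l 16381088) (a (l 16333400) (l 16298400)))))) (b (l 16500968) (l 16265208))) (c (a (b (l 16450576) (l 16272448)) (l 16268584)) (a (a (b (l 16474480) (l 16273504)) (c (c (l 16281088) (l 16238440)) (l 16301824))) (c (l 16245552) (a (b (l 16435480) (l 16295400)) (b (l 16403480) (l 16242136)))))))))), by decide +kernel⟩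

def k13_pm_011 : ∃ t, chk3 f_pm_011 t 254 15 1 = true :=
  ⟨(a (l 3) (b (c (b (c (l 16266168) (l 16258800)) (b (b (l 16196008) (c (l 16244080) (l 16235936))) (c (l 16366288) (l 16360880)))) (b (c (l 16248792) (c (c (l 16239896) (a (l 16245464) (l 16206296))) (l 16236888))) (c (b (b (l 16180192) (l 16224936)) (l 16352208)) (b (c (b (c (l 16170336) (l 289539854279)) (c (l 16215512) (a (l 3) (l 16202376)))) (b (l 16166512) (l 16212184))) (c (c (l 16344824) (c (l 16299952) (l 16321992))) (l 16385584)))))) (a (l 3) (b (a (l 3) (c (b (c (l 16560000) (l 16537128)) (c (l 16380264) (l 2323744112167))) (b (c (l 16575464) (c (l 16507840) (l 16570960))) (c (l 16419040) (c (l 16294624) (l 16438304)))))) (l 3))))), by decide +kernel⟩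

def k14_pm_011 : ∃ t, chk3 f_pm_011 t 255 30 1 = true :=
  ⟨(c (b (b (l 16236240) (l 16181904)) (b (b (l 16141264) (c (l 16189368) (l 16180368))) (c (l 16290000) (l 16304696)))) (b (c (l 16196696) (c (a (l 16206024) (l 16172000)) (a (c (a (l 16209504) (l 16110128)) (l 16200200)) (c (l 16167944) (a (l 16175368) (c (l 16157424) (l 16135552))))))) (b (c (b (l 16126592) (l 16170952)) (c (b (l 16117704) (l 16120672)) (b (a (c (a (l 16138784) (l 16123056)) (l 16129024)) (c (l 16095880) (a (l 16103672) (l 16084664)))) (a (c (a (l 16184120) (l 16126368)) (l 16174512)) (c (l 16140960) (a (l 16149016) (l 16087936))))))) (c (l 16339568) (c (l 16228864) (a (c (a (l 16335744) (l 16256880)) (l 16368872)) (c (l 16334136) (a (l 16280232) (l 16218968))))))))), by decide +kernel⟩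

def k15_pm_011 : ∃ t, chk3 f_pm_011 t 255 62 1 = true :=
  ⟨(c (b (c (l 16476280) (l 16452752)) (b (c (l 16505296) (l 16483104)) (c (l 16408872) (l 16342888)))) (c (b (l 16490832) (l 16402280)) (c (b (l 16446432) (l 16337928)) (c (a (c (b (l 16463800) (l 16326856)) (l 331953068167)) (l 16365048)) (a (b (l 16547600) (l 16450944)) (a (b (l 16458648) (l 16380832)) (b (l 16439080) (l 16350824)))))))), by decide +kernel⟩

def k16_pm_011 : ∃ t, chk3 f_pm_011 t 255 63 1 = true :=
  ⟨(c (b (c (b (a (l 16271992) (l 16303640)) (l 16211632)) (c (b (a (l 16225768) (l 16299592)) (l 16164512)) (b (l 16298504) (l 16208800)))) (c (c (c (b (l 282023632631) (a (c (b (a (a (l 3) (b (l 16084160) (c (l 16074640) (l 16064624)))) (c (a (b (l 16103872) (l 16068896)) (l 16073568)) (l 16091960))) (a (b (l 243368871575) (l 16079568)) (c (l 16053976) (b (a (l 16047352) (l 16043592)) (l 16034832))))) (b (l 16089976) (a (a (l 3) (c (b (l 16043416) (l 16030672)) (l 16031392))) (c (b (l 16061880) (a (l 16025768) (l 16022416)))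 (l 16050520))))) (c (b (l 16090064) (a (c (b (l 16046256) (l 16034952)) (b (l 16061952) (l 16024880))) (c (l 16033680) (l 16050664)))) (l 16067568)))) (l 16101592)) (b (l 16129216) (b (l 16071688) (l 16033144)))) (c (b (l 16067016) (c (l 16050072) (l 16037536))) (l 16094128)))) (c (b (b (l 16272032) (l 16202048)) (l 16022856)) (a (c (a (a (l 4706376601671) (b (l 16241304) (l 16083752))) (b (l 16218784) (l 16079656))) (c (a (a (l 5201371580647) (b (l 16134944) (c (l 16020392) (l 16078056)))) (b (c (l 16197704) (b (l 16280840) (l 16196032))) (c (l 16078624) (a (l 16057816) (l 16035608))))) (b (l 16236744) (l 16075112)))) (b (c (l 16181416) (c (b (l 16289048) (l 16190808)) (a (b (l 16217688) (l 16166712)) (c (l 16198760) (b (l 16289584) (l 16144320)))))) (c (l 16075432) (c (l 16009096) (a (c (a (l 16073360) (c (l 16071784) (l 16071232))) (l 16070104)) (c (l 16068456) (a (l 16045872) (c (l 16066672) (l 16065784))))))))))), by decide +kernel⟩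

theorem s17_pm_011 : ∃ t, chk3 f_pm_011 t 255 31 1 = true := ex3_b k15_pm_011 k16_pm_011

theorem s18_pm_011 : ∃ t, chk3 f_pm_011 t 255 15 1 = true := ex3_b k14_pm_011 s17_pm_011

theorem s19_pm_011 : ∃ t, chk3 f_pm_011 t 127 15 1 = true := ex3_a k13_pm_011 s18_pm_011

theorem s20_pm_011 : ∃ t, chk3 f_pm_011 t 127 7 1 = true := ex3_b k12_pm_011 s19_pm_011

theorem s21_pm_011 : ∃ t, chk3 f_pm_011 t 63 7 1 = true := ex3_a k11_pm_011 s20_pm_011

theorem s22_pm_011 : ∃ t, chk3 f_pm_011 t 31 7 1 = true := ex3_a k10_pm_011 s21_pm_011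

theorem s23_pm_011 : ∃ t, chk3 f_pm_011 t 15 7 1 = true := ex3_a k9_pm_011 s22_pm_011

theorem s24_pm_011 : ∃ t, chk3 f_pm_011 t 7 7 1 = true := ex3_a k8_pm_011 s23_pm_011

theorem s25_pm_011 : ∃ t, chk3 f_pm_011 t 63 6 1 = true := ex3_a k6_pm_011 k7_pm_011

theorem s26_pm_011 : ∃ t, chk3 f_pm_011 t 31 6 1 = true := ex3_a k5_pm_011 s25_pm_011

theorem s27_pm_011 : ∃ t, chk3 f_pm_011 t 15 6 1 = true := ex3_a k4_pm_011 s26_pm_011

theorem s28_pm_011 : ∃ t, chk3 f_pm_011 t 7 6 1 = true := ex3_a k3_pm_011 s27_pm_011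

theorem s29_pm_011 : ∃ t, chk3 f_pm_011 t 7 3 1 = true := ex3_b s28_pm_011 s24_pm_011

theorem s30_pm_011 : ∃ t, chk3 f_pm_011 t 3 3 1 = true := ex3_a k2_pm_011 s29_pm_011

theorem s31_pm_011 : ∃ t, chk3 f_pm_011 t 3 1 1 = true := ex3_b k1_pm_011 s30_pm_011

theorem s32_pm_011 : ∃ t, chk3 f_pm_011 t 1 1 1 = true := ex3_a k0_pm_011 s31_pm_011

theorem c_pm_011 : CertNX 0 536870912 536870912 469762048 1046898278 26843546 3 true true false .pnn 0 1 1
    ndN0q0 ndN5q1 pcN1 Cut.none Ext.none :=
  certNX2 (fam := true) (s1 := true) (s2 := false) (a := 0) (b := 1) (c := 1) (cn := .pnn) (n1 := ndN0q0) (n2 := ndN5q1) (pc := pcN1) (cut := Cut.none) (xt := Ext.none) (P1 := 0) (W1 := 536870912) (P2 := 536870912) (W2 := 469762048) (P3 := 1046898278) (W3 := 26843546) (N0 := 3)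
    rfl (fun _ => rfl) s32_pm_011

noncomputable def f_pm_012 : ℕ → ℕ → ℕ → ℕ → Bool := onCell 1073741824 536870912 536870912 469762048 1046898278 26843546
    (rowNX 3 2 true true false .pnp 0 1 2 (qsf 0 536870912 536870912 469762048 2) ndN0q0 ndN5q1 pcN2 Cut.none Ext.none)

def k0_pm_012 : ∃ t, chk3 f_pm_012 t 8 2 1 = true :=
  ⟨(a (c (a (b (c (a (b (l 15598720) (l 15579664)) (b (l 15647288) (l 15638648))) (c (a (l 15571632) (l 15619136)) (b (l 15587728) (a (l 15549520) (l 15594800))))) (c (a (b (l 15564872) (l 15550600)) (b (l 15628496) (l 15620352))) (a (b (c (l 15549000) (l 15537840)) (c (l 15534536) (l 15524920))) (b (c (l 15608400) (l 15585600)) (c (l 15598544) (l 15578792)))))) (b (c (b (l 15494224) (l 15620424)) (l 15551632)) (c (b (l 15663360) (l 15662568)) (b (l 15464248) (c (l 15625392) (l 15595168)))))) (b (a (c (a (l 15540512) (l 15566712)) (b (l 15522336) (l 15507504))) (c (l 15565696) (l 15535256))) (b (a (a (c (b (l 15520384) (a (l 15473232) (l 15529728))) (l 15480584))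 (l 15532944)) (l 15547224)) (a (c (c (a (a (l 15490184) (a (l 15520424) (l 15535232))) (l 15553912)) (l 15510072)) (c (l 15489608) (l 15470232))) (a (c (l 15545008) (l 15515128)) (l 15508056)))))) (c (c (b (a (b (l 15627128) (l 15636520)) (b (l 15558280) (c (l 15598440) (l 15577528)))) (a (b (l 15645696) (l 15659272)) (b (c (l 15618864) (l 15607816)) (c (l 15647352) (l 15627040))))) (b (b (l 15560648) (l 15580328)) (c (a (b (l 15609952) (l 15617728)) (b (l 15592016) (l 15618528))) (b (l 15589536) (a (l 15600400) (l 15607800)))))) (b (c (l 15540736) (l 15519256)) (c (a (l 15574288) (l 15576504)) (a (l 15553384) (l 15555640)))))), by decide +kernel⟩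

def k1_pm_012 : ∃ t, chk3 f_pm_012 t 16 12 1 = true :=
  ⟨(a (c (a (b (c (l 15540104) (l 15517920)) (c (l 15530784) (a (l 15485944) (l 15532888)))) (c (a (l 15598424) (l 15627968)) (c (l 15590272) (l 15568784)))) (c (a (c (a (l 15413472) (a (l 15510200) (l 15526184))) (c (a (l 15464656) (l 15503088)) (b (l 15480696) (l 15470816)))) (c (a (l 15542232) (l 15553512)) (l 15506432))) (a (a (c (l 15448712) (l 15429512)) (l 15463912)) (l 15481824)))) (c (c (a (l 15656112) (l 15672496)) (c (l 15623944) (l 15594000))) (c (a (c (l 15558344) (l 15525184)) (l 15561288)) (l 15523128)))), by decide +kernel⟩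

def k2_pm_012 : ∃ t, chk3 f_pm_012 t 16 13 2 = true :=
  ⟨(a (b (a (b (b (c (l 15488776) (a (l 15427936) (l 15505368))) (c (l 15514352) (l 15491648))) (c (l 15663368) (a (l 15602832) (l 15684592)))) (b (c (b (l 15604496) (l 15618536)) (b (a (l 15559088) (l 15587160)) (a (l 15605304) (l 15656712)))) (c (l 15771776) (a (l 15756008) (l 15814880))))) (a (c (l 15827920) (a (l 15837728) (c (l 16005120) (l 15893176)))) (c (c (l 15874680) (l 15886384)) (c (l 15938632) (l 15901000))))) (b (b (c (b (l 15663240) (l 15746232)) (b (l 15607632) (l 15692224))) (a (c (l 15923960) (l 15877992)) (l 15720896))) (c (b (l 16045496) (a (l 16296176) (l 16419760))) (a (l 16025528) (l 16160848))))), by decide +kernel⟩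

def k3_pm_012 : ∃ t, chk3 f_pm_012 t 16 13 3 = true :=
  ⟨(a (a (c (b (a (c (b (l 15421400) (l 15587824)) (b (b (l 15396872) (l 15420288)) (c (l 15580264) (l 15573976)))) (c (b (b (l 15485120) (l 15513128)) (l 15667144)) (b (b (c (l 15473328) (l 15461456)) (c (l 15501816) (l 15489272))) (c (l 15657040) (l 15644752))))) (a (c (l 15911472) (c (l 15906360) (b (l 15791504) (l 16016616)))) (c (l 15736960) (c (l 15938352) (l 15782464))))) (b (b (b (a (l 15372232) (l 15431392)) (a (l 15395384) (l 15460040))) (a (l 15491576) (l 15617936))) (b (a (l 15584920) (l 15835496)) (c (c (a (c (l 15991440) (l 16011056)) (l 16073952)) (l 16033456)) (l 15895680))))) (b (c (b (c (b (l 15537504) (l 15595464)) (b (l 15506216) (l 15564912))) (c (l 15754232) (l 15725656))) (b (b (l 15471872) (l 15531192)) (l 15693872))) (c (c (l 15862480) (c (l 15950552) (l 15998136))) (l 15809744)))) (b (c (b (a (b (l 15476088) (c (l 15642024) (l 15613584))) (c (l 15611152) (l 15595416))) (a (c (l 15834472) (c (l 15812536) (l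 15802968))) (c (l 15884392) (l 15871408)))) (b (l 15564856) (l 15799384))) (c (a (c (l 16153736) (c (l 16030144) (l 15958144))) (c (b (l 16127408) (l 16338784)) (l 16138792))) (l 15938016)))), by decide +kernel⟩

def k4_pm_012 : ∃ t, chk3 f_pm_012 t 17 6 1 = true :=
  ⟨(b (c (c (a (l 15670216) (c (l 15672376) (l 15654672))) (a (c (l 15628144) (l 15607600)) (c (l 15636992) (l 15633176)))) (c (a (l 15600456) (b (l 15609144) (l 15621528))) (l 15583904))) (c (c (b (a (b (l 15717512) (l 15989400)) (b (c (l 15726048) (l 15708584)) (l 15918416))) (a (a (l 16164056) (l 16158736)) (b (c (l 16293856) (l 16282408)) (a (l 16345600) (l 16287432))))) (b (a (b (b (l 15625168) (l 15709008)) (l 15923448)) (c (l 15826536) (l 15565432))) (a (b (a (l 16159320) (l 16245688)) (l 16268104)) (b (l 16270152) (l 16292376))))) (b (c (b (c (a (l 15642656) (l 15679040)) (l 15651264)) (a (l 15928568) (l 15781728))) (b (l 15636744) (l 15921584))) (a (b (a (l 16054592) (c (c (l 16249352) (l 16246360)) (l 16241384))) (c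 (l 16218792) (l 16462656))) (c (c (b (l 16270704) (l 16289536)) (l 16267640)) (l 16181568)))))), by decide +kernel⟩

def k5_pm_012 : ∃ t, chk3 f_pm_012 t 16 14 2 = true :=
  ⟨(b (a (a (b (c (l 16261648) (a (l 16258064) (l 16251680))) (b (c (l 16432584) (l 16324304)) (c (l 16470936) (a (l 16464592) (l 16408896))))) (b (c (l 16235856) (c (l 16330928) (l 16317376))) (c (b (l 16398784) (a (b (l 16461088) (l 16413784)) (l 16367944))) (b (l 16364776) (a (b (l 16464320) (l 16416136)) (l 16375824)))))) (b (c (l 16295776) (l 16339256)) (b (a (c (l 16378792) (l 16396968)) (l 16265624)) (c (a (l 16254856) (l 16169152)) (l 16116688))))) (c (a (a (a (l 16111288) (l 16069176)) (a (b (l 16252680) (l 16014536)) (l 15914600))) (a (c (l 15857280) (l 15860712)) (l 15747856))) (a (a (c (l 16085688) (a (l 16188808) (l 16040776))) (a (a (l 16003728) (l 16115008)) (l 15960496))) (a (l 15810408) (l 15915752))))), by decide +kernel⟩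

def k6_pm_012 : ∃ t, chk3 f_pm_012 t 32 14 3 = true :=
  ⟨(a (b (c (b (a (c (l 16252856) (l 16186144)) (c (l 16243912) (c (l 16321912) (l 16293992)))) (a (b (c (l 16430104) (l 16386040)) (c (l 16484464) (c (l 16483920) (l 16420288)))) (b (c (l 16461992) (l 16390448)) (c (l 16389104) (a (l 16472464) (l 16480680)))))) (c (c (a (b (c (l 16162328) (l 16244768)) (b (a (l 16406576) (l 16402312)) (a (l 16463552) (b (l 16451432) (l 16550088))))) (b (l 16242440) (b (l 16442880) (l 16399192)))) (b (l 16162280) (b (l 16363624) (a (l 16437120) (l 16531632))))) (b (l 16026136) (b (l 16312600) (c (a (l 16431984) (l 16516744)) (l 16388528)))))) (a (c (c (l 16165232) (a (l 16205640) (l 16078048))) (c (c (a (l 16203104) (b (l 16344016) (l 16227696))) (c (a (l 16203344) (l 16141160)) (l 16161960))) (a (l 16119856) (l 16188600)))) (c (a (c (l 16121808) (l 16101008)) (c (l 16146224) (l 16107672))) (c (c (b (l 16293192) (l 16174632)) (b (l 16383640) (l 16118784))) (l 16141448))))) (b (c (b (c (l 16281976) (l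 16261224)) (a (b (l 16446536) (c (l 16436576) (l 16436664))) (b (l 16500016) (l 16354712)))) (b (c (c (a (l 16346760) (l 16304016)) (l 16319424)) (l 16336592)) (b (c (c (l 16440032) (l 16539216)) (l 16536672)) (c (c (b (a (l 16493992) (l 16417816)) (l 16374344)) (l 16423384)) (l 16444664))))) (c (a (c (l 16052800) (l 16040736)) (l 15936176)) (c (b (c (l 16144376) (l 16294096)) (c (l 15980648) (c (l 16004968) (l 16088600)))) (l 16064688))))), by decide +kernel⟩

def k7_pm_012 : ∃ t, chk3 f_pm_012 t 33 14 3 = true :=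
  ⟨(b (c (b (a (c (l 16484432) (l 16297864)) (l 16268064)) (c (b (l 16344040) (l 16111904)) (a (b (l 16406656) (l 16216728)) (l 16115680)))) (b (l 16379272) (b (l 16330192) (a (l 16262144) (l 16202680))))) (c (a (c (l 16016480) (a (l 15991856) (l 15954392))) (c (l 15865320) (l 15947528))) (a (c (l 15900888) (l 16019176)) (l 15896568)))), by decide +kernel⟩

def k8_pm_012 : ∃ t, chk3 f_pm_012 t 17 14 1 = true :=
  ⟨(c (b (a (c (b (b (l 16354288) (l 16247208)) (b (l 16138104) (l 16030248))) (b (l 16128664) (b (l 16110368) (a (l 16094784) (l 15994800))))) (c (b (a (l 16174024) (l 16091000)) (b (l 15856104) (a (l 15896256) (l 15805584)))) (b (l 16109080) (b (l 15956552) (l 15842992))))) (c (a (b (l 15875176) (l 15662656)) (a (l 15460976) (c (l 15536496) (l 15530744)))) (a (c (l 15549736) (l 15571552)) (l 15379768)))) (c (b (a (b (c (l 16321464) (l 16275856)) (b (l 16044856) (c (l 16043328) (l 16037968)))) (b (c (l 16103360) (l 15917784)) (c (l 15703056) (c (l 15821552) (l 15882520))))) (a (c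 (l 15755616) (l 15538568)) (c (l 15555600) (a (l 15598608) (l 15489184))))) (b (b (a (l 16314960) (l 16113064)) (a (l 15877664) (l 15853424))) (a (b (l 15867960) (l 15620032)) (l 15530704))))), by decide +kernel⟩

def k9_pm_012 : ∃ t, chk3 f_pm_012 t 16 15 4 = true :=
  ⟨(b (a (b (a (b (a (l 16128752) (l 16032864)) (a (l 16065632) (l 15951480))) (a (b (l 15946928) (a (l 15871088) (l 15740504))) (l 15797368))) (a (b (b (l 15882176) (a (l 16068504) (l 15949528))) (c (l 16005144) (l 16065400))) (b (b (a (c (l 15794696) (l 15788728)) (l 15692728)) (a (c (l 15835600) (l 15830392)) (l 15726896))) (a (a (l 16043088) (l 15923112)) (l 15907048))))) (b (a (a (l 15747896) (l 15682616)) (l 15597672)) (b (b (a (l 15581920) (l 15460856)) (a (a (l 15635616) (l 15563608)) (l 15475976))) (a (a (l 15806720) (l 15676520)) (l 15619056))))) (a (b (a (b (b (l 16273536) (l 16356616)) (l 16368784)) (b (a (l 16071552) (l 16129592)) (a (l 16341448) (l 16313816)))) (a (b (a (b (l 16368832) (a (l 16231544) (l 16298152)))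 (b (l 16454920) (l 16378336))) (a (b (l 16163264) (c (l 16113760) (l 16078336))) (b (l 16221792) (b (l 16187728) (l 16146856))))) (b (a (l 16374272) (l 16487800)) (a (b (l 16302144) (a (l 16140872) (l 16209328))) (l 16190936))))) (b (b (a (l 15854152) (l 15765856)) (a (l 16098840) (l 16063160))) (b (a (l 16284224) (l 16224592)) (a (c (l 16369776) (l 16305392)) (l 16347672)))))), by decide +kernel⟩

def k10_pm_012 : ∃ t, chk3 f_pm_012 t 16 15 5 = true :=
  ⟨(b (a (b (a (a (l 15962376) (b (l 16022232) (l 15897384))) (a (c (l 15871728) (l 15891248)) (l 15817552))) (a (b (b (c (l 15956568) (l 15950712)) (c (l 15999800) (l 15889088))) (c (l 16080800) (l 15970528))) (b (b (a (l 15783672) (l 15690040)) (c (l 15774976) (l 15776504))) (c (l 15811216) (l 15918160))))) (b (a (l 15725624) (l 15615544)) (b (b (l 15533432) (a (l 15609504) (l 15492984))) (a (c (l 15749856) (l 15779424)) (l 15638680))))) (a (b (a (b (c (l 16248056) (l 16201304)) (c (l 16368992) (l 16372472))) (b (c (l 16016688) (l 16103424))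 (c (l 16225840) (l 16271424)))) (a (b (a (c (b (l 16366040) (a (l 16185064) (l 16294296))) (l 16187760)) (a (l 16261800) (c (l 16378976) (l 16402416)))) (a (c (b (c (l 16176176) (l 16184272)) (c (l 16097320) (l 16105952))) (l 16080088)) (c (b (l 16175744) (c (l 16159592) (l 16168432))) (a (l 16152592) (b (l 16284456) (l 16180440)))))) (b (c (l 16328240) (l 16363064)) (a (c (c (b (l 16355792) (l 16175072)) (l 16135312)) (l 16254248)) (c (l 16259464) (l 16337592)))))) (b (a (b (l 15848400) (l 16034392)) (c (l 15756552) (l 15892592))) (b (a (a (l 16373944) (l 16346080)) (l 16214896)) (a (c (l 16291072) (l 16359592)) (l 16385448)))))), by decide +kernel⟩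

def k11_pm_012 : ∃ t, chk3 f_pm_012 t 32 30 3 = true :=
  ⟨(c (a (b (a (c (l 16059416) (b (l 16023120) (l 16041096))) (c (a (l 15935448) (l 15951544)) (a (l 15891144) (l 15952600)))) (a (b (b (c (l 16004664) (l 15998904)) (c (l 16048776) (l 16043384))) (c (l 16237464) (l 16149856))) (b (b (c (l 15886880) (l 15886032)) (c (l 15930000) (l 15887648))) (c (l 16054312) (l 15992736))))) (b (c (a (l 15892392) (l 15825344)) (l 15722592)) (b (b (a (l 15786704) (l 15702280)) (c (l 15779072) (l 15787640))) (a (l 15890304) (l 15923432))))) (a (b (c (a (c (a (l 16098208) (b (l 16077112) (l 16007944))) (a (c (l 16095904) (b (l 16125712) (l 16064464))) (c (l 16021616) (l 15939736)))) (c (l 15874328) (c (l 15940368) (l 15986272)))) (a (a (b (l 16125360) (l 16063816)) (l 16047152)) (l 15966896))) (a (b (c (c (b (l 15995248) (l 15977104)) (b (a (l 16022024) (l 15943832)) (a (l 16067128) (l 15925520)))) (b (l 15995832) (l 15936312))) (c (c (l 16105824) (a (l 16217984) (l 16096592))) (c (a (c (l 16134064)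 (l 16259528)) (l 16206056)) (l 16193792)))) (c (b (b (c (l 15888136) (l 15892944)) (c (l 15932048) (l 15936952))) (c (l 16122392) (l 16128080))) (b (b (l 15896200) (l 15940760)) (l 16133464))))) (b (c (c (a (l 15908384) (l 15843912)) (a (c (l 15912512) (l 15913632)) (l 15843632))) (l 15874752)) (c (b (c (b (l 15756376) (l 15794984)) (b (a (l 15801632) (l 15712888)) (a (l 15844944) (l 15748928)))) (c (l 15983712) (a (l 15993032) (l 15937800)))) (b (b (l 15753112) (l 15792200)) (l 15983120)))))), by decide +kernel⟩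

def k12_pm_012 : ∃ t, chk3 f_pm_012 t 33 30 3 = true :=
  ⟨(b (c (c (a (l 15740448) (l 15625264)) (a (l 15746816) (l 15620968))) (a (l 15741864) (l 15607432))) (c (b (b (c (l 15543544) (l 15375784)) (a (c (l 15623528) (l 15629408)) (l 15498272))) (a (c (l 15791808) (l 15736496)) (l 15457264))) (b (b (l 15449336) (a (l 15622664) (l 15481224))) (a (l 15647976) (l 15631616))))), by decide +kernel⟩

def k13_pm_012 : ∃ t, chk3 f_pm_012 t 32 31 6 = true :=
  ⟨(a (c (b (b (a (l 16387584) (l 16265400)) (a (l 16422840) (l 16459256))) (b (a (l 16184424) (b (l 16430352) (l 16329888))) (a (l 16074968) (a (b (l 16210976) (l 16143024)) (l 16119688))))) (b (b (a (l 16344176) (l 16227160)) (a (l 16400440) (l 16444408))) (b (a (a (l 16216792) (l 16246272)) (b (l 16399672) (l 16277080))) (a (a (l 16116480) (a (l 16139712) (l 16071584))) (a (b (l 16201928) (l 16133144)) (b (l 16261352) (l 16155360))))))) (a (b (b (l 16142904) (l 16336360)) (b (l 16322344) (c (l 16156080) (l 16134032)))) (b (l 16070888) (b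 (l 16436752) (l 16258560))))), by decide +kernel⟩

def k14_pm_012 : ∃ t, chk3 f_pm_012 t 32 31 7 = true :=
  ⟨(a (b (a (c (b (a (l 16374328) (c (l 16375440) (l 16356464))) (a (l 16413480) (c (l 16467168) (l 16441752)))) (c (a (c (b (l 16374704) (l 16390808)) (l 16402456)) (b (l 16325064) (l 16407224))) (b (l 16372528) (l 16405112)))) (c (b (c (l 16337688) (l 16323688)) (l 16435888)) (c (c (b (l 16309656) (l 16489480)) (l 16275040)) (l 16296424)))) (a (b (c (a (c (l 16235032) (b (l 16352360) (l 16216088))) (c (l 16262880) (l 16194352))) (c (a (c (a (l 16239488) (l 16158072)) (l 16207960)) (c (l 16251456) (l 16328944))) (a (b (l 16343352) (l 16206000)) (l 16301304)))) (c (a (c (l 16112456) (l 16067664)) (c (a (l 16135320) (l 16148544)) (a (l 16130312) (l 16120056)))) (c (a (c (a (l 16100064) (l 16093656)) (c (a (l 16098504) (l 16112000)) (l 16103888))) (c (b (l 16169448) (l 16087952)) (c (l 16081728) (l 16120192)))) (a (l 16014432) (l 16114616))))) (b (c (c (l 16327224) (l 16336232)) (c (c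 (l 16284768) (l 16364648)) (l 16362504))) (c (c (b (l 16188008) (l 16088608)) (b (l 16175168) (l 16096264))) (c (c (a (l 16083040) (b (l 16220592) (l 16112928))) (b (l 16202488) (a (c (l 16092896) (l 16090800)) (l 16109176)))) (b (l 16199704) (l 16098872))))))) (b (b (c (c (l 16175920) (l 16032240)) (l 16139784)) (c (c (l 16330016) (l 16271440)) (l 16296872))) (b (c (c (l 16350864) (l 16301736)) (b (l 16418848) (l 16316840))) (c (a (c (l 16196248) (a (l 16101912) (l 16221864))) (c (l 16267400) (l 16304376))) (a (c (c (l 16158624) (l 16114984)) (l 16155792)) (l 16172944)))))), by decide +kernel⟩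

def k15_pm_012 : ∃ t, chk3 f_pm_012 t 33 31 3 = true :=
  ⟨(b (c (a (c (l 16033896) (c (l 16002624) (l 15984768))) (c (l 15755208) (l 15901296))) (a (c (l 15941712) (l 15980808)) (l 15745688))) (b (c (a (a (l 16448920) (l 16334352)) (l 16148648)) (a (l 16330600) (l 16231000))) (c (a (c (l 16353392) (l 16269264)) (l 16342256)) (a (a (a (l 16197640) (l 16301624)) (l 16320896)) (l 16378880))))), by decide +kernel⟩

def k16_pm_012 : ∃ t, chk3 f_pm_012 t 17 15 1 = true :=
  ⟨(b (c (c (b (a (l 15443416) (a (l 15293632) (l 15191528))) (a (b (b (l 15303008) (l 15316696)) (l 15456528)) (b (b (a (l 15149536) (l 15044736)) (a (l 15161728) (l 15055848))) (a (l 15299344) (l 15191840))))) (b (a (a (l 15506768) (l 15395248)) (l 15224720)) (a (b (b (a (l 15366088) (l 15251864)) (c (l 15323848) (l 15321256))) (c (l 15465672) (l 15463288))) (b (b (l 15076912) (l 15088704)) (l 15227520))))) (a (b (c (a (l 15499168) (l 15377264)) (l 15327824)) (c (b (b (l 15292808) (l 15306936)) (l 15450904)) (b (b (l 15265024)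 (l 15279520)) (l 15384296)))) (b (c (c (l 15206120) (l 15193992)) (a (l 15224416) (l 15116848))) (c (c (b (l 15062184) (l 15207704)) (b (b (l 15043600) (l 15055464)) (l 15196448))) (c (c (b (l 15036320) (l 15184240)) (l 15104920)) (l 15031944)))))) (c (b (a (c (a (l 15638032) (l 15687608)) (a (c (l 15760416) (l 15722176)) (c (l 15698304) (l 15690888)))) (c (a (l 15579568) (l 15468792)) (l 15258568))) (a (c (b (l 15877248) (a (l 16239288) (l 16156232))) (a (c (l 16036536) (l 16061168)) (b (l 15791624) (l 16026776)))) (c (b (a (l 15866232) (l 15752104)) (a (l 15985624) (l 15944568))) (c (b (l 15804408) (l 15923320)) (l 15766800))))) (a (a (b (c (l 15716376) (b (l 15693416) (l 15869608))) (c (l 16061800) (c (c (l 16099880) (l 16056352)) (l 16074992)))) (b (c (l 15678320) (l 15551984)) (c (b (l 15988272) (l 16204400)) (c (c (l 15956312) (l 15869448)) (l 15929368))))) (a (c (b (l 15549856) (l 15760960)) (b (l 15292224) (c (c (l 15921920) (l 15769928)) (l 15934616)))) (c (c (l 15581008) (l 15384584))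 (c (b (l 15335792) (c (l 15805696) (l 15707936))) (l 15533328))))))), by decide +kernel⟩

def k17_pm_012 : ∃ t, chk3 f_pm_012 t 9 2 1 = true :=
  ⟨(b (b (l 2) (a (a (c (l 15553248) (l 15553656)) (c (l 15538648) (l 15603696))) (c (a (a (l 15634728) (l 15536560)) (l 15332208)) (a (l 15291880) (l 15281488))))) (a (c (a (c (b (c (l 15669568) (l 15659504)) (c (l 15708008) (l 15709144))) (b (l 15639168) (c (l 15703024) (l 15686344)))) (c (b (c (l 15760400) (l 15741800)) (c (a (l 15813944) (l 15871584)) (a (l 15815416) (l 15854568)))) (l 15583368))) (c (b (l 15670728) (l 15679544)) (b (l 15651512) (l 15724488)))) (c (a (b (a (l 15740808) (l 15676000)) (c (b (l 15823648) (a (c (l 15851488) (l 15916784)) (l 15863368))) (l 15816632))) (c (l 15331952) (l 15541456))) (a (b (a (l 15726136) (l 15637352)) (a (l 15851592) (l 15774912))) (b (l 15437048) (l 15585104)))))), by decide +kernel⟩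

def k18_pm_012 : ∃ t, chk3 f_pm_012 t 18 6 1 = true :=
  ⟨(b (c (c (a (c (l 15763240) (l 15747544)) (c (l 15786848) (a (l 15877552) (l 15953848)))) (a (c (l 15538112) (b (l 15724520) (l 15756496))) (c (a (l 15883808) (l 15954056)) (l 15901712)))) (a (l 15483104) (c (l 15890304) (l 15874896)))) (c (c (c (b (a (l 15704504) (l 15905072)) (b (l 16222136) (l 15989008))) (b (a (l 15739672) (b (l 15998920) (l 16259480))) (b (l 16221064) (l 16016904)))) (b (a (c (b (l 15809304) (l 16071872)) (b (l 15663864) (l 16009032))) (c (b (l 15813312) (a (l 16210840) (l 16295432))) (b (l 15991320) (a (l 16217632) (l 16290592))))) (a (c (l 16226608) (b (l 16250696) (l 16197784))) (c (b (l 16404552) (l 16110192)) (b (l 16290056) (a (l 16174064) (l 16110008))))))) (b (a (c (l 15694608) (l 15743480)) (c (l 15902408) (l 15933592))) (a (c (c (b (l 16150160) (l 16042048)) (l 16286392)) (l 16200888)) (c (l 16113160) (l 16149744)))))), by decide +kernel⟩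

def k19_pm_012 : ∃ t, chk3 f_pm_012 t 19 6 1 = true :=
  ⟨(c (b (c (a (a (b (c (l 15875968) (l 15899904)) (a (l 16018360) (a (l 16042384) (l 15919040)))) (c (l 15949064) (l 15955544))) (c (b (l 15753672) (l 15819800)) (l 15775600))) (a (a (l 15992696) (l 15929200)) (l 15753896))) (a (c (a (b (b (c (l 16113136) (a (l 16089456) (l 16095280))) (a (l 16343928) (l 16231216))) (b (l 16290544) (l 15972264))) (b (c (l 16069912) (b (l 16055240) (l 16296656))) (b (l 16427016) (l 16102664)))) (a (b (c (c (b (l 16087360) (l 16361896)) (l 16227136)) (l 16223864)) (a (c (l 16055488) (l 16066560)) (c (b (l 16360392) (l 16040160)) (l 16241152)))) (b (b (l 16041256) (c (l 16303704) (l 16293424))) (c (b (l 16454776) (l 16093016)) (l 16276872))))) (c (b (c (b (l 15886928) (l 16120864)) (b (l 15895120) (l 16094408))) (c (l 16123976) (b (l 16408720) (l 16149888)))) (b (l 15929944) (c (b (l 16411088) (l 16114656)) (l 16344672)))))) (b (a (a (l 15972128) (l 15906968)) (l 15727072)) (b (a (b (a (l 16081320) (l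 16022240)) (a (l 16347384) (l 16284840))) (l 15721864)) (a (a (b (l 16428672) (l 16050768)) (l 16080256)) (b (l 16398656) (l 16172664)))))), by decide +kernel⟩

def k20_pm_012 : ∃ t, chk3 f_pm_012 t 18 14 1 = true :=
  ⟨(b (c (c (b (a (l 15759656) (l 15788320)) (a (b (l 15718136) (l 15593808)) (b (l 15504576) (a (l 15372624) (l 15278744))))) (a (b (a (l 15983656) (l 15884680)) (b (l 15680848) (l 15575256))) (b (c (l 15776736) (l 15664040)) (a (b (l 15524728) (l 15353064)) (c (l 15357848) (l 15180568)))))) (c (c (a (b (a (l 15973584) (l 15867088)) (b (l 15561944) (l 15455808))) (b (a (l 15791560) (l 15728424)) (c (b (l 15470632) (l 15288280)) (l 15378600)))) (b (l 15605728) (a (l 15513528) (l 15370088)))) (b (a (l 15911576) (l 15741136)) (a (b (l 15668376) (l 15537232)) (l 15206096))))) (c (b (c (a (l 15423128) (a (l 15178840) (l 15039200))) (a (l 15338624) (c (l 15090200) (l 14828720)))) (c (a (l 15189400) (l 14724440)) (a (l 15016896) (c (l 14826192) (l 14809984))))) (c (a (c (a (l 15358624)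 (l 15094224)) (c (a (l 15346320) (l 15164216)) (l 15250568))) (c (a (c (l 15012000) (l 14999408)) (c (l 14834384) (l 14844408))) (l 14915552))) (a (l 15172336) (l 14682680))))), by decide +kernel⟩

def k21_pm_012 : ∃ t, chk3 f_pm_012 t 18 15 1 = true :=
  ⟨(c (b (c (b (a (l 14843688) (c (l 14599928) (l 14581744))) (a (b (b (l 14794352) (l 14802528)) (l 14934120)) (b (b (l 14424760) (l 14428168)) (l 14552624)))) (b (a (l 14687944) (c (l 14563416) (l 14544952))) (a (b (b (l 14761752) (l 14769912)) (l 14882312)) (c (b (l 14396920) (l 14524376)) (b (l 14376848) (l 14504040)))))) (c (b (a (l 15076336) (l 14680360)) (a (b (l 15476352) (l 15641696)) (c (l 15157440) (l 15150904)))) (a (c (b (l 15182200) (l 15408016)) (b (l 15165384) (l 15536448))) (c (b (l 14780704) (l 15133280)) (b (l 14760176) (l 15111016)))))) (b (c (a (b (c (l 14897584) (c (l 14884200) (l 14873632))) (c (b (l 14740976) (l 14879128)) (c (b (l 14729936) (l 14869232)) (b (l 14507768) (l 14858032))))) (c (b (c (l 14539424) (l 14523992))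 (b (c (l 14361832) (l 14357056)) (l 14488776))) (c (b (l 14512712) (b (l 14319720) (l 14468664))) (b (l 14502880) (l 14396240))))) (b (a (l 14857336) (l 14479160)) (a (b (l 14699064) (l 14840288)) (b (l 14305992) (l 14437168))))) (a (c (c (b (l 15152464) (l 15526808)) (a (b (l 15250176) (l 15631912)) (c (l 15221584) (l 14984576)))) (c (c (a (b (l 15236704) (l 15623336)) (b (l 15021976) (l 15393624))) (l 15061008)) (b (l 15113064) (l 15497440)))) (c (c (b (l 14745008) (l 15097464)) (c (b (l 14731896) (l 15090472)) (a (l 14748680) (b (l 14621672) (l 14973592))))) (a (a (c (c (l 15044368) (l 15040456)) (l 15029912)) (l 14932112)) (l 14779664)))))), by decide +kernel⟩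

def k22_pm_012 : ∃ t, chk3 f_pm_012 t 19 14 1 = true :=
  ⟨(b (c (c (a (a (b (l 15576320) (b (l 15411688) (a (l 15229768) (l 15204608)))) (b (l 15728016) (l 15319800))) (b (l 15578064) (b (l 15538232) (l 15340896)))) (a (a (c (b (l 15609592) (b (l 15394808) (l 15197544))) (b (c (l 15680080) (l 15678288)) (a (l 15296136) (a (l 15271336) (l 15181608))))) (c (b (l 15718032) (l 15327896)) (b (l 15702280) (l 15220472)))) (c (b (l 15804016) (b (l 15516664) (l 15324296))) (b (l 15802944) (l 15153136))))) (a (a (b (l 15658336) (c (l 15265880) (l 15240840))) (b (l 15685976) (l 15280976))) (b (l 15784784) (l 15237136)))) (a (c (c (a (b (a (l 14953496) (l 14917224)) (a (l 14656672) (l 14589648))) (b (l 14954888) (l 14592384))) (a (b (c (l 14914624) (a (l 14918432) (a (l 14882968) (l 14874648)))) (c (l 14595840) (a (l 14614808) (l 14547680)))) (c (l 14753672) (b (l 14913752) (l 14548912))))) (c (a (c (c (a (l 14750232) (b (l 14865960) (l 14525168))) (l 14723792)) (l 14710872)) (c (b (l 14901144) (l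 14520824)) (l 14702424))) (a (l 14684800) (l 14676336)))) (c (c (b (l 15055856) (l 14667464)) (c (b (l 15039160) (l 14647400)) (c (l 14678008) (l 14750752)))) (c (l 14800336) (l 14767720))))), by decide +kernel⟩

def k23_pm_012 : ∃ t, chk3 f_pm_012 t 19 15 1 = true :=
  ⟨(b (b (a (c (a (c (a (l 14385800) (l 14314000)) (c (l 14318872) (l 14298112))) (c (l 14297240) (c (l 14265768) (l 14249776)))) (c (c (a (a (l 14312040) (a (l 14249536) (l 14220920))) (l 14214680)) (l 14228696)) (l 14196416))) (c (c (c (l 14322968) (l 14302400)) (c (l 14281688) (c (l 14271016) (l 14252536)))) (c (c (c (l 14241384) (l 14234528)) (l 14218624)) (l 14186512)))) (c (a (a (c (b (a (l 14191744) (b (l 14137992) (l 14137368))) (a (l 14332912) (l 14255704))) (a (b (l 14169136) (l 14290832)) (b (a (l 14106840) (l 14078640)) (l 14212184)))) (c (c (l 14189040) (l 14168096)) (c (l 14145384) (l 14122312)))) (c (c (l 14183312) (l 14162488)) (c (l 14139896) (b (l 14062624) (l 14182064))))) (c (a (c (a (b (a (l 14137936) (a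 (l 14073072) (l 14043064))) (c (l 14223424) (l 14023704))) (c (l 14107584) (l 14089120))) (a (l 14135272) (l 14077416))) (c (c (l 14095088) (l 14089112)) (l 14072280))) (a (a (l 14101816) (l 14043264)) (l 14038304))))) (c (a (b (a (c (a (l 14577368) (l 14496840)) (c (l 14507656) (l 14484576))) (c (l 14477640) (l 14437040))) (a (c (c (l 14874840) (l 14802752)) (c (l 14803440) (l 14820448))) (c (l 14807272) (l 14771928)))) (c (b (l 14471144) (l 14799808)) (c (l 14608144) (l 14568104)))) (c (a (a (c (a (l 14681080) (a (l 14612240) (l 14455240))) (a (c (l 14662512) (l 14649744)) (c (a (l 14590456) (l 14557432)) (l 14568208)))) (c (c (l 14578600) (l 14568616)) (c (l 14550640) (l 14547856)))) (c (c (l 14572440) (l 14406944)) (c (l 14543928) (l 14541536)))) (a (a (l 14588728) (l 14524624)) (l 14518440))))), by decide +kernel⟩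

def k24_pm_012 : ∃ t, chk3 f_pm_012 t 5 2 1 = true :=
  ⟨(b (l 2) (b (a (a (a (c (l 15224440) (l 15169936)) (c (a (l 15151904) (l 15258584)) (a (l 15094856) (l 15205280)))) (a (c (l 15480008) (l 15434480)) (l 2))) (l 2)) (a (a (a (c (c (l 15393264) (l 15369128)) (l 15332216)) (c (a (l 15302712) (l 15390520)) (a (l 15250952) (l 15341848)))) (c (a (l 15593368) (l 15888888)) (a (l 15551816) (l 15857712)))) (a (c (a (l 16211208) (l 16561232)) (a (l 16191344) (l 16553648))) (c (l 16777008) (l 16776992)))))), by decide +kernel⟩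

def k25_pm_012 : ∃ t, chk3 f_pm_012 t 10 6 1 = true :=
  ⟨(a (b (a (c (c (c (l 15558080) (l 15536712)) (l 15520520)) (l 15487576)) (c (a (l 15446936) (l 15327856)) (a (l 15400248) (l 15472352)))) (c (c (a (b (c (b (l 15680728) (l 15908344)) (l 15773520)) (c (b (l 16165880) (l 16288176)) (b (l 16173112) (l 16253928)))) (b (a (l 15683544) (l 15735520)) (a (c (l 16091240) (l 16183448)) (c (b (l 16090496) (l 16146984)) (l 16213472))))) (a (b (l 15761032) (l 16297592)) (b (a (l 15665280) (l 15718176)) (a (l 16179064) (l 16209592))))) (a (b (l 15525888) (l 16103016)) (b (a (l 15637336) (l 15670664)) (a (l 16170096) (l 16180688)))))) (b (c (c (l 15588472) (l 15739896)) (a (l 15663808) (l 15942424))) (c (b (a (c (l 15900216) (l 15885760)) (b (l 16044936) (l 16227344))) (a (c (l 16266024) (l 16326600)) (b (l 16437936) (l 16085080)))) (b (a (l 15758792) (l 16072176)) (a (l 16176176) (l 16169312)))))), by decide +kernel⟩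

def k26_pm_012 : ∃ t, chk3 f_pm_012 t 10 14 1 = true :=
  ⟨(a (c (a (b (c (b (c (l 15949176) (l 15850752)) (c (l 15568344) (b (l 15655216) (l 15467376)))) (b (l 15930000) (c (a (l 15511560) (l 15581824)) (l 15541448)))) (c (c (l 15003592) (b (l 15187888) (l 14797480))) (c (c (l 14979424) (l 14944408)) (b (l 15156480) (l 14754464))))) (a (b (c (b (c (l 15993936) (l 15983936)) (c (l 15626944) (l 15566680))) (l 15583752)) (c (c (l 15064520) (l 14990288)) (c (l 14945736) (l 15024432)))) (c (b (b (c (b (l 16050160) (l 15849232)) (l 15959032)) (c (a (l 15382112) (l 15579552)) (b (l 15680080) (l 15448096)))) (c (a (l 15038832) (l 15029336)) (a (a (l 15047184) (l 15033872)) (l 15006600)))) (b (b (l 15951816) (l 15574360)) (l 15006736))))) (b (a (b (l 15913536) (l 15371704)) (b (a (l 15967176) (l 15937072)) (a (l 15576952) (l 15527720)))) (a (l 14673000) (a (l 14990240) (l 14881344))))) (a (b (c (c (c (b (l 15857896) (l 15323048)) (l 15486624)) (l 15412056)) (b (l 15833224) (l 15442784))) (c (c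 (c (l 14686720) (l 14686048)) (l 14901672)) (l 14814880))) (b (c (b (l 15717504) (l 15128048)) (b (l 15686128) (l 15292400))) (c (c (c (l 14635864) (l 14776424)) (l 14752000)) (l 14702272))))), by decide +kernel⟩

def k27_pm_012 : ∃ t, chk3 f_pm_012 t 20 15 1 = true :=
  ⟨(a (b (c (c (b (l 14403112) (b (b (l 14154144) (l 14133624)) (l 14235840))) (b (c (l 14378720) (c (l 14353464) (l 14349160))) (c (b (a (l 14087152) (l 14138592)) (l 14207840)) (b (c (l 14095904) (l 14082312)) (l 14176560))))) (b (l 14304072) (c (l 14109480) (l 14065296)))) (c (c (b (l 14466224) (l 14793792)) (c (l 14603000) (c (l 14589464) (l 14574168)))) (c (c (c (l 14556432) (l 14550144)) (l 14541584)) (l 14514216)))) (c (c (b (a (b (l 14476264) (l 14228744)) (b (c (l 14459776) (a (l 14461160) (l 14427800))) (a (a (l 14232600) (l 14221088)) (l 14198992)))) (a (b (l 14443336) (l 14759920)) (b (a (l 14411224) (l 14369880)) (a (l 14707112) (l 14637872))))) (b (b (c (a (l 14438816) (c (l 14423176) (l 14417472))) (l 14414576))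 (a (c (l 14052944) (l 14168912)) (c (a (a (l 14200112) (l 14187056)) (l 14158600)) (l 14157176)))) (a (c (b (l 14419264) (l 14734552)) (b (l 14383000) (l 14708200))) (a (c (b (l 14364008) (l 14683144)) (a (b (l 14359344) (l 14666224)) (l 14486032))) (c (l 14356888) (l 14444536)))))) (b (a (b (l 14376144) (l 14016816)) (b (l 14354984) (c (l 14125032) (l 14081616)))) (a (c (l 14523104) (l 14486520)) (c (l 14456368) (l 14418600)))))), by decide +kernel⟩

def k28_pm_012 : ∃ t, chk3 f_pm_012 t 21 15 1 = true :=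
  ⟨(b (c (c (a (b (c (l 14359976) (l 14332176)) (c (l 14115464) (b (l 14066656) (l 14125304)))) (b (c (l 14204576) (l 14182600)) (c (l 13966520) (l 13937552)))) (b (l 14230744) (c (a (c (l 14070656) (l 14065360)) (l 13917760)) (l 13972496)))) (b (c (l 14188752) (l 14146104)) (c (l 13937592) (l 13890440)))) (c (c (a (b (l 14138640) (c (l 14506744) (l 14496856))) (c (l 14239312) (l 14026360))) (a (c (b (l 14240752) (a (l 14520512) (l 14411288))) (b (l 14220968) (l 14394984))) (c (l 14122512) (l 14162352)))) (a (c (l 14305992) (l 14265296)) (l 14107448)))), by decide +kernel⟩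

def k29_pm_012 : ∃ t, chk3 f_pm_012 t 11 3 1 = true :=
  ⟨(b (a (b (c (a (l 16263640) (l 16581304)) (a (l 16245616) (l 16574424))) (b (c (a (l 16209408) (l 16408392)) (a (l 16386864) (l 16553624))) (c (a (l 15913504) (l 15891744)) (a (l 16083720) (l 15948968))))) (b (c (l 16776648) (l 16776624)) (b (c (b (l 16731744) (l 16426400)) (l 16468680)) (c (l 15740136) (l 15855688))))) (b (a (b (c (a (b (l 15569608) (l 15185792)) (b (l 15413768) (l 15025304))) (a (l 15103088) (l 15104864))) (c (a (l 14506328) (l 14444744)) (a (l 14538136) (l 14364040)))) (b (c (a (b (l 15320256) (l 14928840)) (l 15125536)) (l 14837160)) (c (a (l 14344392) (l 14343824)) (l 14258712)))) (a (b (c (a (c (b (c (l 14039296) (l 14024776)) (c (l 13797944) (l 13779880))) (b (l 13989864) (l 13740840))) (b (l 13841920) (c (l 13620152) (l 13565192)))) (b (l 13642216) (a (l 13662440) (l 13481024)))) (c (c (a (c (l 14072408) (l 14047800)) (c (l 13897016) (l 13875360))) (a (l 14012032) (l 13833376))) (a (l 13935032) (l 13750600))))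 (b (c (b (l 13738120) (c (l 13494792) (l 13458456))) (b (l 13631448) (l 13370704))) (c (c (a (l 13779664) (l 13779056)) (l 13724528)) (l 13638152)))))), by decide +kernel⟩

def k30_pm_012 : ∃ t, chk3 f_pm_012 t 3 1 1 = true :=
  ⟨(b (l 2) (b (a (b (a (c (l 16777216) (l 16777216)) (l 2)) (a (b (c (a (l 16580216) (l 16580216)) (l 16573296)) (c (l 15886680) (l 15855424))) (b (l 2) (l 15871072)))) (l 2)) (b (a (a (b (c (a (l 15125536) (l 15125536)) (l 15067560)) (c (l 14343824) (l 14258408))) (a (b (l 14844920) (l 14301168)) (b (l 15096576) (l 14301168)))) (b (l 2) (a (l 14301168) (l 2)))) (a (b (a (c (b (l 13737824) (l 13465856)) (b (l 13631136) (l 13370384))) (c (a (l 13613112) (l 13613112)) (a (l 13501584) (l 13501584)))) (c (a (c (l 13779056) (l 13724208)) (a (l 13750936) (l 13750936))) (a (l 13637824) (l 13637824)))) (b (a (a (l 13557320) (l 13557320)) (l 2)) (c (l 13750936) (l 13637824))))))), by decide +kernel⟩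

theorem s31_pm_012 : ∃ t, chk3 f_pm_012 t 10 15 1 = true := ex3_a k27_pm_012 k28_pm_012

theorem s32_pm_012 : ∃ t, chk3 f_pm_012 t 10 7 1 = true := ex3_b k26_pm_012 s31_pm_012

theorem s33_pm_012 : ∃ t, chk3 f_pm_012 t 10 3 1 = true := ex3_b k25_pm_012 s32_pm_012

theorem s34_pm_012 : ∃ t, chk3 f_pm_012 t 5 3 1 = true := ex3_a s33_pm_012 k29_pm_012

theorem s35_pm_012 : ∃ t, chk3 f_pm_012 t 5 1 1 = true := ex3_b k24_pm_012 s34_pm_012

theorem s36_pm_012 : ∃ t, chk3 f_pm_012 t 19 7 1 = true := ex3_b k22_pm_012 k23_pm_012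

theorem s37_pm_012 : ∃ t, chk3 f_pm_012 t 18 7 1 = true := ex3_b k20_pm_012 k21_pm_012

theorem s38_pm_012 : ∃ t, chk3 f_pm_012 t 9 7 1 = true := ex3_a s37_pm_012 s36_pm_012

theorem s39_pm_012 : ∃ t, chk3 f_pm_012 t 9 6 1 = true := ex3_a k18_pm_012 k19_pm_012

theorem s40_pm_012 : ∃ t, chk3 f_pm_012 t 9 3 1 = true := ex3_b s39_pm_012 s38_pm_012

theorem s41_pm_012 : ∃ t, chk3 f_pm_012 t 9 1 1 = true := ex3_b k17_pm_012 s40_pm_012

theorem s42_pm_012 : ∃ t, chk3 f_pm_012 t 32 31 3 = true := ex3_c k13_pm_012 k14_pm_012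

theorem s43_pm_012 : ∃ t, chk3 f_pm_012 t 16 31 3 = true := ex3_a s42_pm_012 k15_pm_012

theorem s44_pm_012 : ∃ t, chk3 f_pm_012 t 16 30 3 = true := ex3_a k11_pm_012 k12_pm_012

theorem s45_pm_012 : ∃ t, chk3 f_pm_012 t 16 15 3 = true := ex3_b s44_pm_012 s43_pm_012

theorem s46_pm_012 : ∃ t, chk3 f_pm_012 t 16 15 2 = true := ex3_c k9_pm_012 k10_pm_012

theorem s47_pm_012 : ∃ t, chk3 f_pm_012 t 16 15 1 = true := ex3_c s46_pm_012 s45_pm_012

theorem s48_pm_012 : ∃ t, chk3 f_pm_012 t 8 15 1 = true := ex3_a s47_pm_012 k16_pm_012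

theorem s49_pm_012 : ∃ t, chk3 f_pm_012 t 16 14 3 = true := ex3_a k6_pm_012 k7_pm_012

theorem s50_pm_012 : ∃ t, chk3 f_pm_012 t 16 14 1 = true := ex3_c k5_pm_012 s49_pm_012

theorem s51_pm_012 : ∃ t, chk3 f_pm_012 t 8 14 1 = true := ex3_a s50_pm_012 k8_pm_012

theorem s52_pm_012 : ∃ t, chk3 f_pm_012 t 8 7 1 = true := ex3_b s51_pm_012 s48_pm_012

theorem s53_pm_012 : ∃ t, chk3 f_pm_012 t 16 13 1 = true := ex3_c k2_pm_012 k3_pm_012

theorem s54_pm_012 : ∃ t, chk3 f_pm_012 t 16 6 1 = true := ex3_b k1_pm_012 s53_pm_012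

theorem s55_pm_012 : ∃ t, chk3 f_pm_012 t 8 6 1 = true := ex3_a s54_pm_012 k4_pm_012

theorem s56_pm_012 : ∃ t, chk3 f_pm_012 t 8 3 1 = true := ex3_b s55_pm_012 s52_pm_012

theorem s57_pm_012 : ∃ t, chk3 f_pm_012 t 8 1 1 = true := ex3_b k0_pm_012 s56_pm_012

theorem s58_pm_012 : ∃ t, chk3 f_pm_012 t 4 1 1 = true := ex3_a s57_pm_012 s41_pm_012

theorem s59_pm_012 : ∃ t, chk3 f_pm_012 t 2 1 1 = true := ex3_a s58_pm_012 s35_pm_012

theorem s60_pm_012 : ∃ t, chk3 f_pm_012 t 1 1 1 = true := ex3_a s59_pm_012 k30_pm_012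

theorem c_pm_012 : CertNX 0 536870912 536870912 469762048 1046898278 26843546 3 true true false .pnp 0 1 2
    ndN0q0 ndN5q1 pcN2 Cut.none Ext.none :=
  certNX2 (fam := true) (s1 := true) (s2 := false) (a := 0) (b := 1) (c := 2) (cn := .pnp) (n1 := ndN0q0) (n2 := ndN5q1) (pc := pcN2) (cut := Cut.none) (xt := Ext.none) (P1 := 0) (W1 := 536870912) (P2 := 536870912) (W2 := 469762048) (P3 := 1046898278) (W3 := 26843546) (N0 := 3)
    rfl (fun _ => rfl) s60_pm_012

end Pool.Agent.Strip051.G.IE1.Tab.C.NA05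

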