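import Pool.Agent.Strip051.G.IE1.Tab

/-! # Certificates N21 (generated) -/

set_option linter.all false
set_option maxRecDepth 100000

namespace Pool.Agent.Strip051.G.IE1.Tab.C.NA05

open Pool.Agent.Strip051.PB Pool.Agent.Strip051.PB.T
open Pool.Agent.Strip051.G.IE1.Tab

noncomputable def f_pm_022 : ℕ → ℕ → ℕ → ℕ → Bool := onCell 0 536870912 1073741824 536870912 1046898278 26843546
    (rowNX 3 1 true true false .pp 0 2 2 (qsf 0 536870912 1073741824 536870912 2) ndN0q0 ndN5q2 pcN2 Cut.none Ext.none)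

def k0_pm_022 : ∃ t, chk3 f_pm_022 t 1 8 1 = true :=
  ⟨(l 3), by decide +kernel⟩

def k1_pm_022 : ∃ t, chk3 f_pm_022 t 8 36 1 = true :=
  ⟨(b (l 3) (a (a (a (c (l 16062544) (a (a (a (c (l 16073560) (l 16062952)) (l 3)) (l 3)) (l 3))) (l 3)) (l 3)) (l 3))), by decide +kernel⟩

def k2_pm_022 : ∃ t, chk3 f_pm_022 t 16 37 2 = true :=
  ⟨(c (b (a (b (l 16026824) (l 16027880)) (a (b (l 15941056) (l 15942224)) (b (c (l 15875064) (l 15897816)) (l 15899192)))) (a (b (l 16027048) (l 16025200)) (b (a (l 15941896) (l 15899184)) (a (l 15941520) (l 15899264))))) (a (b (b (l 16016456) (l 16017656)) (b (l 16016936) (l 16015184))) (b (a (c (l 15938104) (l 15946264)) (c (l 15889944) (a (l 15932984) (c (l 15931760) (a (l 15940856) (l 15919488)))))) (c (a (l 15938392) (b (l 15911072) (l 15911248))) (a (l 15946680) (a (l 15933648) (c (l 15932392) (b (l 15926544) (l 15926816))))))))), by decide +kernel⟩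

def k3_pm_022 : ∃ t, chk3 f_pm_022 t 34 37 2 = true :=
  ⟨(c (b (c (a (b (c (l 15840328) (l 15845616)) (l 15844600)) (b (l 15843336) (l 15843024))) (a (b (l 15884328) (l 15863784)) (a (c (l 15865336) (b (a (l 15901496) (l 15899392)) (l 15898952))) (c (a (l 15872248) (c (l 15871872) (b (l 15886040) (l 15885640)))) (a (b (l 15879640) (l 15879480)) (l 15842576)))))) (c (a (b (l 15844880) (l 15844888)) (b (l 15864568) (l 15864800))) (a (b (l 15864120) (l 15885160)) (a (c (l 15886440) (b (l 15899528) (l 15899792))) (c (a (l 15872440) (c (l 15872040) (l 15865480))) (c (a (l 15894072) (l 15859904)) (l 15847840))))))) (c (a (b (a (l 15891448) (c (b (l 15909984) (l 15889456)) (a (c (l 15921256) (l 15908128)) (l 15882192)))) (a (l 15912576) (c (l 15910840) (a (l 15891128) (l 15882544))))) (b (c (a (a (c (l 15887168) (l 15889488)) (l 15862616)) (b (c (l 15818416) (l 15800208)) (c (l 15818104) (l 15799912)))) (a (b (c (l 15838320) (l 15820040)) (c (l 15838440) (l 15820176))) (l 15792104))) (c (b (a (l 15856136)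 (c (l 15818864) (l 15800696))) (a (l 15877400) (c (l 15819256) (l 15801096)))) (a (c (l 15797176) (l 15820880)) (l 15792424))))) (b (a (c (a (a (l 15926672) (l 15901160)) (c (a (l 15876456) (l 15839496)) (l 15820056))) (a (c (l 15880392) (l 15861960)) (l 15832720))) (l 15798280)) (a (c (a (b (l 15910488) (l 15910616)) (c (l 15859704) (l 15841384))) (a (b (l 15874368) (l 15874528)) (l 15833128))) (l 15798584))))), by decide +kernel⟩

def k4_pm_022 : ∃ t, chk3 f_pm_022 t 70 37 4 = true :=
  ⟨(b (c (a (c (l 38283745207) (a (b (l 15862760) (l 15862104)) (c (b (l 15861368) (l 15860456)) (b (l 15870288) (l 15869392))))) (b (b (l 3) (c (a (c (l 15870208) (l 15853336)) (c (a (l 15872904) (l 15846152)) (l 15850936))) (l 15822040))) (c (a (c (l 15871472) (l 15854608)) (c (a (l 15874072) (l 15847224)) (l 15852040))) (l 15823200)))) (c (a (a (b (l 15863008) (l 15862368)) (l 15822864)) (a (c (l 15796192) (b (l 15770296) (l 15769168))) (b (c (l 15760976) (l 15750880)) (c (l 15738600) (l 15749488))))) (a (b (b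 (l 3) (a (l 15801504) (l 15773672))) (c (l 15756248) (l 15780072))) (l 15732304)))) (c (a (c (l 15848808) (c (b (l 15860000) (l 15860400)) (a (l 15866872) (b (l 15870256) (l 15870704))))) (c (a (b (l 15852608) (l 15853064)) (c (b (l 15849432) (l 15849936)) (l 15819080))) (b (l 15824160) (l 15824680)))) (a (b (c (l 15800232) (c (l 15799072) (l 15780968))) (c (l 15842616) (c (l 15799536) (l 15781456)))) (c (c (a (l 15796312) (b (l 15739632) (l 15740200))) (a (b (l 15770144) (l 15770680)) (l 15750712))) (l 15753384))))), by decide +kernel⟩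

def k5_pm_022 : ∃ t, chk3 f_pm_022 t 71 37 4 = true :=
  ⟨(c (b (c (a (b (l 15806648) (l 15804744)) (b (c (a (l 15759496) (c (c (l 15709424) (l 15703384)) (l 15698104))) (a (c (l 15715920) (l 15706944)) (l 15714792))) (c (a (l 15757176) (a (l 15706704) (c (a (l 15718744) (l 15712000)) (l 15710992)))) (c (a (l 15713600) (l 15712720)) (l 15697888))))) (a (a (c (l 15777248) (b (c (l 15733976) (l 15724968)) (l 15729104))) (b (c (c (l 15724888) (l 15715896)) (l 15732600)) (c (c (l 15722888) (l 15713904)) (l 15730616)))) (b (l 15717008) (l 15714520)))) (c (a (b (l 15805816) (l 15806400)) (c (a (l 15737592) (b (b (c (l 15705504) (a (l 15721664) (l 15712104))) (l 15702656)) (b (l 15702968) (l 15703536)))) (a (b (b (l 15711480) (l 15711768)) (l 15712296)) (b (l 15713416) (l 15714136))))) (a (c (a (l 15777224) (b (l 15720856) (l 15721496))) (a (b (l 15730192) (l 15730792)) (l 15731984))) (b (l 15715768) (l 15716488))))) (b (b (l 15721616) (l 15719376)) (b (l 15720608) (l 15721328)))), by decide +kernel⟩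

def k6_pm_022 : ∃ t, chk3 f_pm_022 t 35 37 5 = true :=
  ⟨(b (b (l 15731560) (l 15729744)) (c (b (l 15735240) (l 15735920)) (l 15727000))), by decide +kernel⟩

def k7_pm_022 : ∃ t, chk3 f_pm_022 t 8 37 3 = true :=
  ⟨(a (c (a (a (b (l 16036856) (l 16036024)) (b (c (l 15983568) (a (l 15995832) (l 15955904))) (c (l 15983552) (c (l 15988520) (b (l 15989696) (l 15988784)))))) (c (a (b (c (l 15953640) (a (l 15963744) (l 15956952))) (c (l 15954152) (a (l 15964280) (l 15957672)))) (b (c (a (l 15899832) (c (a (l 15919208) (l 15881584)) (l 15883352))) (a (c (l 15884632) (l 15905192)) (l 15875144))) (c (a (b (l 15942152) (l 15942360)) (c (a (l 15919968) (l 15882320)) (l 15884128))) (a (b (l 15901048) (l 15880328)) (l 15875968))))) (b (a (c (a (l 15971656) (c (l 15946128) (l 15927488))) (a (a (l 15971112) (l 15944480)) (l 15919376))) (l 15882720)) (a (c (a (l 15972256) (c (l 15904960) (l 15928296))) (a (c (l 15965928) (l 15950920)) (l 15920232))) (l 15883624))))) (a (a (c (b (l 16032576) (b (l 16032280)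 (l 16030312))) (b (a (c (l 16042568) (a (l 103782247527) (l 16029456))) (c (a (l 16021328) (l 16013528)) (l 16013272))) (a (c (l 16041824) (a (c (l 16046856) (l 16044952)) (l 16028944))) (c (a (c (l 16025512) (l 16024904)) (l 16013456)) (l 16013112))))) (c (b (a (c (l 15999640) (c (l 16002256) (l 15996728))) (c (c (l 15983992) (l 15976560)) (l 15965424))) (a (c (l 15999728) (c (l 15981424) (l 15996904))) (c (b (l 15979512) (l 15978944)) (l 15965936)))) (b (l 15974424) (l 15974784)))) (b (l 15898784) (b (l 15899128) (l 15899336))))) (b (c (a (b (l 15810816) (l 15810872)) (l 15672184)) (a (l 15795880) (l 15696632))) (c (a (b (l 15811592) (l 15811992)) (b (l 15713896) (l 15714736))) (b (l 15745968) (l 15746880))))), by decide +kernel⟩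

def k8_pm_022 : ∃ t, chk3 f_pm_022 t 9 18 1 = true :=
  ⟨(b (l 3) (b (a (b (a (a (b (l 3) (c (c (l 15657808) (l 15660320)) (l 15631944))) (l 3)) (l 3)) (a (c (a (c (c (l 15682752) (l 15673616)) (l 15659696)) (c (a (a (l 15650160) (l 15653040)) (l 15674640)) (l 15623256))) (a (l 15631424) (c (l 15625024) (l 15605560)))) (c (c (a (l 15696608) (l 15753144)) (l 15728384)) (c (l 15710416) (l 15692216))))) (l 1)) (a (c (a (a (c (b (c (l 15684184) (l 15675120)) (c (l 15685032) (l 15676032))) (b (l 15661304) (l 15662312))) (a (c (b (a (l 15651792) (l 15654712)) (a (l 15652784) (l 15655752))) (b (l 15613296) (l 15614440))) (c (b (l 15676328) (l 15677432)) (b (l 15657664) (l 15658896))))) (c (b (c (l 15751800) (l 15743048)) (c (l 15753088) (l 15744392))) (b (l 15729808) (l 15731240)))) (a (c (a (l 15643136) (b (l 15626920) (l 15628232))) (a (l 15624336) (b (l 15607592) (l 15609040)))) (c (b (l 15711960) (l 15713520)) (b (l 15693880) (l 15695568))))) (b (l 1) (a (c (c (l 445097690679) (l 15844016)) (c (l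 15827976) (l 15811736))) (l 1)))))), by decide +kernel⟩

def k9_pm_022 : ∃ t, chk3 f_pm_022 t 5 18 1 = true :=
  ⟨(l 1), by decide +kernel⟩

def k10_pm_022 : ∃ t, chk3 f_pm_022 t 16 38 2 = true :=
  ⟨(a (b (b (l 16010192) (c (l 16002656) (l 15992464))) (l 16023744)) (b (a (c (b (l 15933336) (l 15921864)) (b (l 15934984) (l 15923424))) (b (c (b (l 15895760) (l 15889584)) (a (l 15917536) (c (l 15900608) (b (c (l 15929408) (l 15923904)) (l 15916048))))) (c (l 15882024) (c (l 15893952) (a (l 15915472) (c (l 15915728) (l 15910200))))))) (c (a (l 15949256) (l 15910504)) (a (l 15951536) (c (l 15922984) (c (l 15939128) (l 15858944))))))), by decide +kernel⟩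

def k11_pm_022 : ∃ t, chk3 f_pm_022 t 34 38 2 = true :=
  ⟨(a (c (b (b (b (c (l 15864184) (l 15883520)) (l 15870832)) (b (l 15863840) (l 15863352))) (l 15872328)) (b (c (b (c (b (l 15905600) (l 15899968)) (a (l 15916736) (b (l 15893096) (l 15887512)))) (a (l 15897760) (c (l 15897360) (l 15838560)))) (b (c (a (b (l 15908728) (l 15902824)) (b (l 15852464) (l 15846872))) (a (b (l 15872656) (l 15866744)) (l 15829248))) (a (c (l 15895576) (l 15859488)) (c (l 15797912) (l 15819688))))) (c (a (l 15927608) (c (l 15927656) (l 15911000))) (a (c (l 15925712) (l 15889808)) (c (l 15870536) (l 15850560)))))) (c (b (c (b (b (l 15864544) (l 15859656)) (l 15853032)) (c (b (b (a (l 15886224) (a (l 15893792) (l 15887864))) (l 15880984)) (b (l 15874280) (l 15853152))) (b (b (a (l 15899360) (l 15839456)) (a (l 15894144) (l 15855624))) (a (l 15887384) (a (l 15869088) (l 15832368)))))) (c (l 15883464) (a (l 15910424) (c (l 15886944) (l 15880280))))) (b (c (b (c (a (b (l 15876992) (l 15871768)) (b (c (l 15819504) (l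 15801360)) (l 15808344))) (a (b (c (l 15839008) (l 15820784)) (l 15827400)) (l 15790360))) (a (c (a (l 15884040) (l 15851144)) (b (l 15820576) (l 15820384))) (c (b (l 15801680) (l 15801640)) (l 15781680)))) (b (l 15775040) (l 15787192))) (c (a (c (l 15895848) (l 15851664)) (c (a (l 15844088) (l 15816904)) (l 15813256))) (l 15818784))))), by decide +kernel⟩

def k12_pm_022 : ∃ t, chk3 f_pm_022 t 35 76 2 = true :=
  ⟨(c (b (c (a (b (a (c (l 15870792) (a (l 15863928) (c (l 15862632) (l 15871616)))) (c (a (l 15854152) (c (l 15851176) (l 15854792))) (l 15825840))) (a (c (l 15866520) (l 15872280)) (c (a (l 15850296) (l 15857376)) (l 15822200)))) (c (a (b (l 15807792) (l 15804960)) (b (c (a (l 15760432) (c (l 15707816) (l 15698888))) (a (l 15713744) (l 15715616))) (c (a (l 15758232) (l 15702928)) (a (l 15711536) (l 15713880))))) (a (b (c (a (l 15779024) (l 15722944)) (a (l 15753168) (l 15733888))) (c (l 15759928) (l 15742008))) (b (l 15717968) (l 15715984))))) (a (c (a (b (l 15822408) (l 15839096)) (b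 (c (a (l 15797816) (l 15762472)) (a (l 15771824) (l 15752440))) (a (l 15782304) (l 15755296)))) (b (a (c (l 15800320) (l 15782248)) (l 15755008)) (a (l 15789696) (l 15751368)))) (b (l 15722824) (l 15720312)))) (c (a (a (c (l 15860232) (a (l 15853112) (b (l 15864168) (l 15864272)))) (c (a (b (l 15843944) (l 15844112)) (b (l 15851096) (l 15851344))) (l 15774192))) (c (a (l 15799120) (b (c (l 15736456) (l 15718600)) (c (a (l 15752760) (l 15697640)) (a (l 15706080) (l 15708600))))) (a (b (a (l 15758136) (l 15731480)) (c (l 15733152) (l 15736208))) (l 15689544)))) (a (c (a (b (l 15832608) (l 15832696)) (b (a (l 15775928) (l 15748992)) (a (l 15776136) (l 15749272)))) (a (b (l 15783192) (a (l 15794192) (l 15767056))) (l 15745296))) (l 15714752)))) (b (b (c (l 15737072) (l 15728704)) (l 15729576)) (b (l 15723512) (l 15723888)))), by decide +kernel⟩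

def k13_pm_022 : ∃ t, chk3 f_pm_022 t 35 77 2 = true :=
  ⟨(c (c (a (a (c (l 15891360) (a (l 15905280) (l 15853880))) (c (a (l 15896672) (c (l 15894384) (l 15877128))) (l 15847984))) (c (a (l 15831288) (a (c (l 15785192) (b (l 15747832) (l 15769744))) (c (b (l 15739472) (l 15761480)) (l 15741344)))) (a (c (a (l 15802248) (l 15767984)) (a (l 15776488) (l 15758056))) (l 15743408)))) (a (c (a (l 15864320) (c (l 15740792) (l 15785800))) (a (a (l 15825896) (l 15798984)) (l 15777536))) (l 15747680))) (l 15756824)), by decide +kernel⟩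

def k14_pm_022 : ∃ t, chk3 f_pm_022 t 8 38 3 = true :=
  ⟨(a (a (c (b (a (l 16017328) (c (l 15967088) (a (l 15978744) (b (l 15966912) (l 15954744))))) (a (l 16036880) (c (l 15987984) (l 15993112)))) (a (c (b (l 15950240) (l 16033176)) (b (a (c (l 16022424) (a (l 15941536) (l 16009768))) (c (a (l 15918544) (l 15995440)) (l 15994800))) (a (c (l 16042296) (l 16017608)) (c (l 16016376) (l 16015616))))) (b (c (a (c (l 15982624) (b (l 15987040) (l 15974480))) (b (l 15965552) (l 15890424))) (l 15958248)) (c (a (c (l 16003712) (l 16002504)) (l 15981864)) (l 15980136))))) (c (a (c (b (c (l 15940064) (a (l 15949584) (b (l 15949488) (l 15938008)))) (c (l 15962344) (l 15876192))) (b (c (a (l 15957552) (b (l 15933584) (l 15901120))) (a (b (l 15951600) (l 15939760)) (l 15906792))) (c (a (l 15979808) (l 15951304)) (l 15868632)))) (b (b (c (a (c (l 15935488) (l 15915392)) (c (a (l 15907352) (l 15872728)) (l 15869664))) (l 15876608)) (c (c (a (l 15924352) (c (l 15890720) (l 15867472))) (a (c (l 15909192) (l 15887848))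 (l 15859312))) (l 15866136))) (c (c (a (l 15953760) (l 15832288)) (a (l 15912856) (l 15889464))) (l 15896280)))) (b (b (b (l 15895000) (l 15888584)) (l 15880632)) (l 15910768)))) (b (b (c (b (a (l 15811008) (l 15716032)) (a (l 15805888) (l 15712776))) (b (l 15746720) (l 15742824))) (c (a (l 15798952) (l 15707032)) (l 15736400))) (c (a (l 15830560) (l 15740808)) (l 15769864)))), by decide +kernel⟩

def k15_pm_022 : ∃ t, chk3 f_pm_022 t 16 39 1 = true :=
  ⟨(c (a (b (l 16046824) (l 16050168)) (c (b (a (l 15974032) (l 15936608)) (l 15962152)) (a (b (l 15977056) (l 15982400)) (c (b (l 15949664) (l 15956080)) (a (l 15975896) (b (l 15965632) (l 15972544))))))) (a (c (a (l 16063296) (a (l 16028320) (b (l 16008064) (l 16012872)))) (a (c (l 16018328) (a (c (l 16069224) (b (l 16062632) (l 16066016))) (b (l 15991328) (l 16037264)))) (c (a (c (l 16032296) (b (l 16027664) (l 16032160))) (b (l 16007656) (l 16012736))) (l 16009816)))) (c (a (c (b (l 15963600) (l 15990192)) (a (c (l 16009976) (b (l 15994808) (l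 16000368))) (b (l 15911720) (l 15980760)))) (c (b (c (a (l 15980784) (l 15943872)) (a (l 15961048) (l 15917352))) (c (a (l 15987256) (l 15950928)) (l 15910808))) (l 15929048))) (b (l 15938504) (l 15945216))))), by decide +kernel⟩

def k16_pm_022 : ∃ t, chk3 f_pm_022 t 17 39 1 = true :=
  ⟨(c (c (a (a (b (l 15920704) (l 15927944)) (c (b (l 15911952) (l 15920184)) (b (a (l 15939000) (c (l 15937024) (l 15909592))) (a (l 15947168) (c (l 15945688) (l 15918368)))))) (a (c (b (a (c (l 15920704) (a (l 15934664) (l 15925520))) (c (a (l 15926480) (l 15871328)) (l 15878160))) (a (c (l 15929688) (l 15935944)) (c (a (l 15914896) (l 15922928)) (l 15887792)))) (b (c (a (l 15894064) (a (l 15838328) (l 15812008))) (a (a (l 15855696) (l 15829104)) (l 15808128))) (c (a (l 15903272) (l 15795616)) (a (l 15854384) (l 15818000))))) (c (c (a (b (l 15861880) (l 15871936)) (b (c (a (l 15816200) (l 15782584)) (a (l 15790688) (l 15772768))) (a (l 15815216) (l 15789704)))) (b (a (a (l 15821352) (l 15753360)) (l 15774840))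 (a (a (l 15831392) (l 15805608)) (l 15785544)))) (b (l 15779104) (l 15789720))))) (a (c (c (a (b (l 15950768) (l 15958264)) (a (b (l 15924720) (l 15933048)) (b (l 15862704) (l 15871592)))) (a (b (a (l 15964520) (l 15939416)) (l 15870328)) (a (b (l 15880736) (l 15889184)) (l 15785992)))) (a (b (a (c (l 15953672) (l 15917968)) (l 15829136)) (a (c (l 15961104) (l 15925504)) (l 15900096))) (b (l 15848488) (l 15857368)))) (b (l 15788248) (l 15798664)))) (c (b (a (l 15860216) (l 15773080)) (l 15804912)) (b (l 15801664) (l 15811888)))), by decide +kernel⟩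

def k17_pm_022 : ∃ t, chk3 f_pm_022 t 9 38 1 = true :=
  ⟨(a (c (b (a (b (a (c (b (l 15661048) (l 15660312)) (b (l 15664008) (l 15663312))) (b (c (c (c (l 15653520) (l 15648920)) (l 15641984)) (l 15648984)) (c (c (l 15652008) (l 15642808)) (l 15649856)))) (a (c (c (l 15659976) (l 15651048)) (l 15658416)) (c (b (l 15642696) (l 15643776)) (b (l 15645120) (l 15646280))))) (b (b (c (c (l 15754904) (l 15746264)) (l 15733200)) (c (l 15752832) (l 15735544))) (b (c (l 15749912) (l 15732624)) (c (l 15751592) (l 15734384))))) (a (a (c (l 15668208) (l 15692984)) (c (a (l 15665696) (l 15711592)) (l 15681448))) (c (b (l 15774296) (l 15798592)) (l 15770816)))) (b (b (a (b (a (l 15636312) (c (l 15630152) (l 15611080))) (c (a (l 15644992) (l 15631104)) (a (l 15626424) (l 15612096)))) (b (c (l 15715592) (l 15697752)) (c (l 15718024) (l 15700280)))) (a (a (l 15630784) (c (l 15627112) (l 15608112))) (b (c (l 15715112) (l 15697368)) (l 15708112)))) (a (a (l 15666576) (l 15654424)) (l 15724776)))) (a (b (c (b (c (b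 (l 144986783159) (l 15865864)) (b (l 15846136) (l 15850256))) (b (c (l 15865304) (l 15849728)) (c (l 15867960) (l 15852480)))) (b (c (b (l 15830208) (l 15834440)) (b (l 15814072) (l 15818424))) (b (c (l 15833952) (l 15817976)) (l 15828848)))) (c (c (b (l 15891680) (l 15917232)) (l 15890584)) (c (l 15875720) (l 15860656)))) (a (a (b (l 1) (c (l 15970392) (l 15942832))) (l 1)) (l 1)))), by decide +kernel⟩

def k18_pm_022 : ∃ t, chk3 f_pm_022 t 9 39 1 = true :=
  ⟨(a (c (a (a (b (c (l 15742616) (l 15726312)) (c (l 15733192) (l 15738336))) (b (c (b (l 15705816) (l 15716920)) (l 15716016)) (b (l 15741136) (l 15738064)))) (b (c (b (l 15816248) (l 15828176)) (l 15807184)) (c (b (l 15835168) (l 15837944)) (l 15821784)))) (a (b (a (l 15701200) (l 15690312)) (a (l 15713968) (l 15704144))) (b (l 15783464) (l 15798856)))) (c (a (b (c (b (l 15936048) (l 15949032)) (l 15929280)) (b (l 15950304) (l 15954056))) (b (a (c (l 16029632) (l 16017128)) (l 190621227607)) (a (c (l 16047064) (l 16035112)) (l 16041960))))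 (b (a (l 15866312) (a (l 15998048) (l 16019392))) (a (l 15925632) (a (l 16016872) (l 16039152)))))), by decide +kernel⟩

def k19_pm_022 : ∃ t, chk3 f_pm_022 t 5 19 1 = true :=
  ⟨(b (l 1) (b (l 1) (b (l 1) (a (a (c (a (l 16052808) (l 1)) (l 353293125463)) (l 1)) (l 1))))), by decide +kernel⟩

def k20_pm_022 : ∃ t, chk3 f_pm_022 t 3 9 1 = true :=
  ⟨(l 1), by decide +kernel⟩

def k21_pm_022 : ∃ t, chk3 f_pm_022 t 16 40 1 = true :=
  ⟨(c (a (b (l 16039528) (b (l 16027160) (l 16052184))) (b (c (l 15953496) (a (l 15973368) (c (l 15948016) (a (l 15969416) (l 15964800))))) (c (b (l 15941056) (l 15950504)) (a (l 15970024) (c (l 15941392) (a (l 15962848) (l 15935840))))))) (a (c (b (a (l 16052504) (l 16010112)) (a (l 16057784) (b (l 15996608) (l 16018360)))) (a (b (c (l 16049640) (a (c (l 16058216) (l 16054784)) (l 16026576))) (c (l 16034248) (a (b (l 16000072) (l 15951288)) (c (l 15996376) (l 16037936))))) (b (c (a (c (l 16022912) (l 16022000)) (l 16003104)) (l 16001024)) (c (a (c (l 16024344) (l 16023504))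 (l 15981336)) (l 16002352))))) (c (a (c (b (l 15981248) (b (l 15968416) (l 15980712))) (b (c (l 15902776) (l 15976072)) (c (a (l 15999160) (l 15970664)) (l 15889152)))) (b (c (a (l 15905440) (l 15899296)) (l 15923280)) (c (b (c (l 15946984) (l 15932656)) (c (l 15889104) (l 15937760))) (l 15916904)))) (b (l 15936928) (l 15933920))))), by decide +kernel⟩

def k22_pm_022 : ∃ t, chk3 f_pm_022 t 17 40 1 = true :=
  ⟨(c (a (a (c (b (l 15920744) (l 15890496)) (b (c (a (l 15955232) (l 15943104)) (a (c (l 15953840) (l 15918272)) (l 15893328))) (c (b (l 15931880) (l 15931392)) (a (c (l 15944576) (l 15909040)) (l 15841032))))) (c (b (c (l 15913872) (a (l 15940712) (c (l 15939672) (l 15912392)))) (c (l 15902600) (b (l 15912672) (a (l 15925368) (l 15903808))))) (b (c (a (c (l 15926656) (l 15882832)) (l 15858600)) (l 15851312)) (c (a (c (l 15915288) (l 15871480)) (b (l 15847808) (l 15842064))) (l 15840144))))) (c (b (c (a (a (l 15925000) (c (l 15920520) (l 15882624))) (c (a (l 15867168) (b (l 15803208) (l 15798224)))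 (a (l 15816408) (l 15781264)))) (a (c (a (l 15897712) (l 15832448)) (a (l 15848864) (l 15812928))) (l 15785296))) (a (c (b (a (l 15914480) (l 15886480)) (a (l 15907512) (l 15878584))) (a (c (l 15884784) (l 15835952)) (c (l 15818920) (l 15799408)))) (c (a (c (l 15853136) (l 15802384)) (b (l 15783944) (l 15775120))) (l 15771472)))) (b (l 15793936) (l 15781608)))) (b (c (l 15820408) (l 15806584)) (a (b (l 15845184) (l 15844408)) (l 15759760)))), by decide +kernel⟩

def k23_pm_022 : ∃ t, chk3 f_pm_022 t 16 41 2 = true :=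
  ⟨(b (a (a (b (l 16057264) (l 16030632)) (l 16118192)) (c (l 16040016) (a (l 16089176) (c (l 16051832) (l 15932128))))) (b (a (a (l 16077904) (a (b (l 16243720) (l 16258392)) (l 16270672))) (c (l 16124040) (c (l 16179936) (b (l 16128880) (l 16215696))))) (a (b (a (l 16064232) (a (l 16262672) (l 16301240))) (a (l 15928248) (b (b (b (l 16286840) (l 16174408)) (l 16322584)) (l 16301248)))) (a (b (l 16325688) (b (c (l 16298608) (l 16285760)) (l 16256600))) (b (c (l 16293248) (c (l 16312712) (l 16258672))) (c (l 16310272) (c (l 16334880) (a (l 16305016) (l 16263768))))))))), by decide +kernel⟩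

def k24_pm_022 : ∃ t, chk3 f_pm_022 t 16 41 3 = true :=
  ⟨(b (a (c (a (b (l 16110088) (l 16104488)) (l 15972008)) (a (c (a (l 16072928) (l 16014920)) (a (c (l 16029968) (b (l 15972120) (l 16045360))) (b (l 16121072) (l 16007264)))) (c (a (c (l 16157224) (l 16115160)) (l 16111720)) (l 16134584)))) (c (a (c (l 16078224) (a (l 16013176) (l 16046640))) (c (c (l 15918448) (l 15988680)) (l 16031032))) (l 16052632))) (a (b (c (a (l 16067000) (a (l 16247544) (l 16239696))) (a (c (l 16064944) (a (l 15840168) (l 16063024))) (c (a (c (l 16254968) (l 16234408)) (l 16286264)) (l 16252928)))) (c (b (a (l 16053080) (a (l 16263632) (l 16202712))) (a (l 16021752) (a (l 16232728) (c (l 16260520) (l 16125240))))) (c (a (b (l 16050896) (l 15956552)) (b (a (l 16200384) (l 16300680)) (a (c (l 16261312) (l 16219856)) (a (l 16315944) (l 16234312))))) (a (b (a (l 15909728) (l 16091040)) (a (c (l 15965304) (l 15877768)) (l 15933856))) (b (l 16311896) (l 16259096)))))) (b (c (a (c (l 16251264) (a (l 16208584) (l 16242472)))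 (c (b (l 16068408) (a (l 16260968) (l 16228648))) (l 16185536))) (l 16209152)) (c (a (c (b (l 16349048) (b (l 16230224) (l 16238144))) (b (a (l 16324720) (l 16356152)) (a (c (l 16195664) (l 16242640)) (l 16190320)))) (b (c (a (l 16322536) (l 16290728)) (l 16300224)) (c (c (a (l 16294040) (l 16254704)) (a (l 16263696) (l 16355360))) (l 16337320)))) (b (l 16324936) (l 16301160)))))), by decide +kernel⟩

def k25_pm_022 : ∃ t, chk3 f_pm_022 t 17 82 1 = true :=
  ⟨(c (a (c (c (l 15997880) (a (l 16019624) (a (l 16023528) (l 15934608)))) (a (c (l 15952000) (a (l 15890136) (l 15984096))) (c (a (c (l 16010288) (l 15967016)) (l 15936808)) (l 15933472)))) (c (b (a (c (l 15884232) (a (l 15846824) (l 15845800))) (c (a (c (l 15881280) (l 15830720)) (l 15802368)) (l 15797208))) (c (a (l 15948320) (c (l 15795144) (l 15898488))) (a (c (l 15878344) (l 15943168)) (l 15883304)))) (b (l 15812192) (l 15899624)))) (b (a (l 15899928) (l 15791552)) (l 15789256))), by decide +kernel⟩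

def k26_pm_022 : ∃ t, chk3 f_pm_022 t 17 83 1 = true :=
  ⟨(c (a (a (b (c (l 16159600) (c (l 16081536) (a (c (l 16180568) (l 16167392)) (l 16115440)))) (c (b (l 16270336) (b (l 16232760) (l 16366392))) (c (b (l 16256928) (a (l 16357368) (c (l 16376168) (l 16284616)))) (c (b (l 16121824) (a (l 16312640) (l 16267848))) (b (l 16262632) (l 16190304)))))) (c (b (c (l 16140976) (a (l 16173048) (l 16042592))) (b (c (l 16252408) (b (l 16197528) (l 16252800))) (c (l 16304312) (a (l 16274856) (c (l 16247520) (l 16201576)))))) (c (a (b (c (l 16161008) (l 16118536)) (b (c (l 16274160) (l 16211312)) (c (l 16264272) (a (l 16297344) (l 16289592))))) (b (l 16046384) (b (l 16160488) (a (c (l 16252576) (l 16271856)) (l 16200464))))) (b (l 16086376) (b (l 16201336) (l 16255568)))))) (b (c (a (c (b (l 16042272) (l 16066440)) (c (a (l 16118880) (l 16048360)) (l 15969480))) (c (c (a (l 16075336) (l 15961736)) (l 15819464)) (l 15993888))) (l 16011600)) (c (b (a (c (a (l 16235664) (l 16118912)) (a (c (l 16232144) (l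 16185200)) (l 16114184))) (c (c (a (l 16188704) (l 16117704)) (l 16038616)) (l 16109064))) (a (c (b (a (b (b (l 16308160) (l 16330992)) (l 16346768)) (b (b (l 16254632) (c (l 16279304) (l 16264632))) (l 16314448))) (l 16259824)) (a (c (l 16201416) (a (l 16187248) (l 16180048))) (b (c (a (l 16159040) (l 16131112)) (l 16214296)) (l 16255392)))) (c (a (c (l 16179064) (b (b (b (l 16192072) (l 16173304)) (l 16231256)) (l 16238864))) (b (c (b (b (l 16170032) (l 16109336)) (l 16209248)) (l 16169816)) (l 16210920))) (l 16184520)))) (b (l 16127904) (b (l 16114816) (l 16229024)))))) (b (a (l 16082792) (l 15997224)) (b (c (l 16108608) (l 16144464)) (a (a (l 16302320) (l 16250672)) (l 16132808))))), by decide +kernel⟩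

def k27_pm_022 : ∃ t, chk3 f_pm_022 t 9 40 1 = true :=
  ⟨(a (a (c (b (a (c (l 15750568) (l 15734944)) (b (l 15736712) (l 15732456))) (a (c (l 15736800) (l 15721200)) (l 15721432))) (b (a (l 15710888) (l 15701952)) (a (l 15697176) (l 15688840)))) (b (c (c (l 15835304) (l 15820520)) (l 15797952)) (c (b (l 15819944) (l 15812024)) (l 15785840)))) (b (c (a (c (l 15959160) (l 15946184)) (a (c (l 16048280) (l 16036600)) (l 16044056))) (a (l 15926368) (a (l 16018776) (l 16041808)))) (c (a (b (l 15945672) (l 15938280)) (a (b (l 16036120) (l 16029088)) (l 16055480))) (a (l 15915528) (c (l 16026536) (l 16014752)))))), by decide +kernel⟩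

def k28_pm_022 : ∃ t, chk3 f_pm_022 t 9 41 1 = true :=
  ⟨(b (a (a (c (b (a (l 15745088) (l 15729552)) (a (l 15829808) (l 15810392))) (b (a (l 15714504) (l 15697696)) (l 15792328))) (b (c (b (l 15806496) (l 15820528)) (l 15786984)) (c (l 15886416) (l 15859968)))) (b (c (a (b (l 15931984) (l 15933704)) (a (l 16021200) (l 16044096))) (a (l 15908720) (l 16009712))) (a (c (l 15987928) (l 15964216)) (a (c (l 16060152) (l 16038392)) (c (l 16072704) (l 16050960)))))) (a (b (a (c (a (l 15941632) (l 15922864)) (a (l 15919264) (l 15899048))) (c (l 15978856) (l 15978032))) (b (a (c (a (l 16058688) (l 16041184)) (l 16031664)) (c (l 16120008) (l 16103136))) (a (a (c (c (a (l 16108904) (l 16085752)) (l 16132104)) (l 16121112)) (b (b (b (l 16087080) (c (l 16119640) (l 16103896))) (l 16128648)) (l 16136800))) (b (b (b (l 16167872) (c (a (l 16172392) (l 16226936)) (l 16186152))) (l 16210136)) (l 16218440))))) (b (a (c (b (l 16063936) (l 16135280)) (l 16083512)) (c (b (l 16142024) (l 16214616)) (b (l 16123344)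 (l 16198856)))) (b (a (c (l 16162288) (l 16211152)) (c (a (l 16300088) (l 16312728)) (l 16252424))) (a (c (b (b (b (l 16281688) (a (l 16280400) (l 16280376))) (l 16324024)) (l 16332320)) (c (a (l 16250080) (l 16282568)) (l 16271504))) (c (b (b (b (l 16364120) (b (l 16382176) (a (l 16390552) (l 16404160)))) (l 16407368)) (l 16415832)) (b (b (b (l 16354392) (a (l 16374200) (l 16387704))) (l 16399392)) (l 16408256)))))))), by decide +kernel⟩

def k29_pm_022 : ∃ t, chk3 f_pm_022 t 16 21 1 = true :=
  ⟨(c (a (b (a (l 15717176) (l 15814632)) (a (l 15329328) (l 15552016))) (b (a (b (b (a (l 16177304) (l 16234352)) (c (l 16083800) (l 16071352))) (l 16009224)) (b (c (l 16256624) (a (l 16218104) (l 16186064))) (a (c (l 16082760) (l 16057904)) (c (b (l 16180936) (l 16133768)) (c (l 16079872) (b (l 16137160) (l 16069512))))))) (a (l 15613976) (a (c (l 15912152) (l 15894000)) (c (l 16027352) (c (l 16073152) (l 16054096))))))) (a (a (c (l 15286672) (c (b (l 15713720) (l 15284248)) (b (a (l 15486032) (l 15709504))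 (a (l 15177864) (l 15338104))))) (c (b (a (l 15930544) (l 15887784)) (l 15411976)) (a (c (c (l 15499024) (a (l 15506448) (l 15555784))) (l 15590768)) (b (l 15906760) (l 15642016))))) (b (b (c (a (a (c (l 16221384) (a (l 16207880) (l 16075504))) (c (a (l 16213752) (l 16190984)) (c (b (l 16207472) (l 16201488)) (l 16225536)))) (c (a (l 16171512) (l 16239624)) (l 16238064))) (a (l 16079720) (l 16235112))) (a (c (c (l 16065424) (a (l 16065928) (l 16265096))) (l 16218888)) (c (c (a (c (l 16058296) (l 16048160)) (c (b (l 16147464) (l 16079688)) (l 16169336))) (l 16023872)) (l 16041736)))) (c (a (c (b (a (l 15920016) (l 15997216)) (l 15752312)) (a (l 15679712) (c (l 15860976) (l 15924080)))) (c (a (c (l 15978688) (l 15939160)) (l 15971288)) (l 16004360))) (a (l 15848328) (l 16021056)))))), by decide +kernel⟩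

def k30_pm_022 : ∃ t, chk3 f_pm_022 t 17 21 1 = true :=
  ⟨(c (a (c (b (a (l 16167424) (c (l 16284800) (a (l 16228976) (l 16157368)))) (a (b (a (b (l 16076536) (l 16215984)) (b (l 16102232) (l 16035432))) (l 16129872)) (a (b (l 16092304) (b (a (l 16068952) (l 16024728)) (l 16075328))) (b (l 16044672) (c (l 15904208) (b (l 16014464) (a (l 16016472) (l 15987936)))))))) (b (a (c (a (l 16176880) (l 16161064)) (a (c (l 16162632) (l 16195584)) (l 16211984))) (c (c (l 16072600) (l 16221704)) (l 16312696))) (a (b (a (c (l 16021664) (b (c (l 16078240) (l 16099664)) (l 16143800))) (c (b (l 16073744) (l 15965328)) (b (l 16101528) (l 16034712)))) (c (l 16087416) (a (l 16148536) (l 16189048)))) (a (b (c (l 15998864) (l 16111064)) (b (c (c (l 16042312) (l 16048032)) (l 16078048)) (c (l 16045856) (l 16157728)))) (b (l 16139400) (b (l 16051112) (c (l 15984016) (l 16051096)))))))) (a (c (c (b (a (l 16241384) (l 16197456)) (a (l 16022288) (l 16017376))) (a (b (b (l 16215512) (l 16119928)) (c (l 16077824) (l 16066816)))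 (c (l 16032096) (l 16168936)))) (l 16045528)) (c (a (c (c (l 16052824) (l 16045224)) (l 16181928)) (b (l 16122168) (b (l 16212432) (l 16112240)))) (l 16176208)))) (a (b (l 16169848) (a (b (a (l 16045440) (l 16108872)) (l 16236888)) (b (l 16119880) (a (b (l 16069984) (l 16151760)) (l 16052976))))) (b (l 16289528) (l 16133640)))), by decide +kernel⟩

def k31_pm_022 : ∃ t, chk3 f_pm_022 t 9 21 1 = true :=
  ⟨(a (a (c (a (l 16093808) (b (l 16211088) (l 16291576))) (b (l 16146032) (l 16200000))) (c (b (l 16209440) (l 16216288)) (b (l 16222232) (l 16251408)))) (a (b (c (l 16298088) (l 16334848)) (c (l 16195864) (l 16228664))) (b (c (b (l 16382064) (l 16367968)) (l 16380632)) (c (a (l 16243784) (l 16285408)) (l 16201440))))), by decide +kernel⟩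

def k32_pm_022 : ∃ t, chk3 f_pm_022 t 16 11 1 = true :=
  ⟨(c (b (a (b (l 14793376) (l 14430696)) (a (b (l 15279832) (l 14937152)) (c (b (l 15630904) (l 15229400)) (a (l 15180600) (b (l 15500416) (l 15173752)))))) (a (b (b (a (b (l 14160816) (l 14097968)) (l 14363416)) (a (l 14069592) (a (l 14141120) (l 14231584)))) (l 14098520)) (b (c (a (l 14538384) (l 14804144)) (a (l 14514560) (a (l 14731920) (l 14613576)))) (a (b (a (l 14202328) (l 14300872)) (l 14197600)) (c (b (l 14503552) (l 14343552)) (b (l 14486656) (a (l 14273832) (l 14367272)))))))) (b (a (c (a (l 14593168) (a (l 14802840) (l 14696472))) (a (c (l 14569840) (a (c (l 14484552) (l 14473784)) (l 14595440))) (c (a (c (l 14792960) (l 14786408)) (l 14933640)) (l 14839552)))) (c (a (c (b (l 15400024) (l 14941176)) (a (b (l 15329720) (l 14866408)) (l 15001640))) (c (b (c (l 15524184) (l 15613864)) (l 15034496)) (l 15336584))) (b (l 15504824) (l 15034240)))) (a (c (b (a (l 13855872) (a (l 14163720) (l 14283416))) (l 14035256)) (a (c (b (l 14012816)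 (l 13964856)) (b (b (a (l 13952856) (l 14048160)) (l 13939280)) (l 13937912))) (b (c (a (b (l 14210032) (l 14045968)) (l 14258736)) (l 14178456)) (c (l 14032864) (l 14012696))))) (c (a (b (c (l 14501688) (l 14401464)) (c (b (l 14227384) (l 14160720)) (a (l 14146136) (l 14215040)))) (a (b (l 14452248) (b (l 14390960) (l 14089344))) (b (l 14840952) (l 14429904)))) (b (l 14582808) (a (l 14139152) (l 14320136))))))), by decide +kernel⟩

def k33_pm_022 : ∃ t, chk3 f_pm_022 t 17 22 1 = true :=
  ⟨(a (c (c (b (a (l 15726256) (c (l 15989088) (a (l 16031136) (l 16000416)))) (a (l 15471384) (c (l 15715544) (l 15557480)))) (a (b (c (a (l 15876408) (l 15846544)) (c (a (l 15875496) (l 15889352)) (l 15774536))) (c (l 15447488) (a (l 15449344) (l 15553768)))) (a (b (c (c (l 16061824) (l 16019888)) (l 16064408)) (c (l 15597872) (l 15672384))) (b (l 16032376) (l 15705576))))) (b (a (l 15795104) (l 16039776)) (l 15441392))) (c (b (c (a (b (c (a (b (a (l 15988728) (l 15949072)) (l 16056416)) (b (l 15959144) (a (l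 15960888) (l 15935848)))) (a (a (l 15931152) (b (l 15987608) (l 16057560))) (b (l 16000224) (l 15893552)))) (c (l 15907568) (c (l 15943224) (l 16072288)))) (a (c (b (c (l 15970256) (l 16001376)) (c (l 15902752) (b (l 15930368) (l 16052056)))) (b (l 16009696) (l 15962400))) (b (l 16037344) (a (b (l 15945952) (l 15921344)) (l 15887056))))) (a (b (a (l 16008552) (l 16009888)) (l 16161272)) (b (l 16019544) (a (l 15978088) (l 15958048))))) (c (a (c (a (l 15858072) (l 15908816)) (b (a (l 15979032) (l 16161312)) (l 15678568))) (c (a (b (l 16021760) (l 16004080)) (l 15963144)) (l 16076936))) (a (l 15825880) (l 16095992)))) (b (a (b (b (l 16011992) (l 15985704)) (l 16176896)) (b (l 16008320) (b (l 15958544) (l 15954336)))) (a (l 15855840) (l 16091976))))), by decide +kernel⟩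

def k34_pm_022 : ∃ t, chk3 f_pm_022 t 17 23 1 = true :=
  ⟨(c (a (c (a (b (l 15087008) (l 14686640)) (c (b (l 15374472) (l 14974144)) (b (l 15170072) (l 14975248)))) (a (c (b (l 15098464) (l 14691776)) (b (a (l 15012240) (l 15116160)) (l 14657960))) (c (b (c (l 15187896) (l 15317712)) (l 14831000)) (l 15089216)))) (a (c (c (b (a (l 15600440) (l 15629968)) (l 15205664)) (b (a (l 15347104) (l 15641832)) (a (l 15150840) (l 15234944)))) (l 15179960)) (c (a (c (c (l 15410984) (b (l 15774192) (l 15369680))) (l 15421120)) (b (l 15673904) (l 15477256))) (l 15343832)))) (a (b (l 15139088) (l 14716272)) (b (l 15534192) (l 15233136)))), by decide +kernel⟩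

def k35_pm_022 : ∃ t, chk3 f_pm_022 t 9 11 1 = true :=
  ⟨(a (b (a (b (c (a (l 16007296) (l 16069624)) (l 15950936)) (a (b (c (a (b (l 15928200) (l 16009928)) (b (l 15903192) (l 15903440))) (b (l 15906448) (l 15924320))) (c (l 15982528) (l 16076944))) (b (l 15889928) (a (c (l 15752888) (l 15881888)) (b (l 15806352) (c (l 15819176) (l 15797184))))))) (c (b (l 16055520) (l 15828528)) (b (l 16040288) (l 15805504)))) (b (a (a (c (l 15800960) (l 15913928)) (b (l 15825344) (l 16043536))) (a (b (c (b (a (l 15760784) (l 15699472)) (l 15632344)) (b (l 15713552) (l 15755352))) (l 15815448)) (b (c (l 15663448) (l 15634328)) (c (b (a (l 15645696) (l 15584336)) (l 15539496)) (a (l 15666104) (l 15563992)))))) (a (a (c (l 15640824) (l 15610192)) (l 15686976)) (a (b (l 15978000) (l 16005088)) (l 15669224))))) (b (a (c (b (l 16032984) (l 15803264)) (l 15705576)) (c (b (a (l 16016400) (l 16034728)) (a (l 15784840) (l 15800688))) (b (l 16006168) (l 15765288)))) (a (b (c (b (l 15643096) (l 15542208)) (l 15559656))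 (a (b (c (b (a (l 15533064) (l 15471664)) (l 15428136)) (a (l 15549344) (l 15447208))) (l 15694288)) (b (l 15417632) (c (a (l 15388176) (b (l 15361456) (l 15368728))) (a (l 15435128) (l 15332976)))))) (c (b (a (l 15572912) (l 15586880)) (a (l 15375928) (l 15388624))) (b (l 15545064) (l 15340720)))))), by decide +kernel⟩

def k36_pm_022 : ∃ t, chk3 f_pm_022 t 5 10 1 = true :=
  ⟨(a (a (b (b (a (b (c (c (l 16059368) (l 16068776)) (l 16051112)) (c (c (l 16071568) (l 16060080)) (l 16042544))) (b (l 1) (c (l 239476559559) (l 16056368)))) (b (b (c (c (l 16067824) (l 16056272)) (l 16038616)) (c (a (b (l 16054160) (l 16085928)) (b (l 16063448) (l 16078256))) (a (b (l 16031024) (l 16064112)) (l 16051320)))) (b (c (a (b (l 16139656) (l 16213520)) (l 16107032)) (b (l 16114096) (l 16191504))) (b (c (a (l 16307256) (l 16300048)) (a (l 16294200) (l 16285744))) (b (b (b (c (l 16363120) (l 16351792)) (b (c (a (l 16384608) (l 16379032)) (l 16371152)) (c (a (l 16400136) (l 16394896)) (l 16387464)))) (c (l 16407760)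 (l 16398200))) (c (l 16416496) (l 16407328))))))) (c (b (a (l 16409848) (l 16427976)) (a (l 16212424) (c (l 16328952) (l 16346248)))) (b (b (l 16440536) (l 16428904)) (a (l 16287008) (l 16340568))))) (b (b (l 1) (b (l 1) (b (l 1) (b (l 1) (b (l 1) (c (l 16407296) (l 16395760))))))) (b (c (a (l 16425360) (l 16486008)) (l 16396192)) (b (c (l 16447808) (l 16466464)) (c (l 16351432) (l 16386208)))))) (a (a (b (l 1) (c (l 16368416) (l 16405840))) (l 1)) (l 1))), by decide +kernel⟩

def k37_pm_022 : ∃ t, chk3 f_pm_022 t 5 11 1 = true :=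
  ⟨(a (b (a (c (a (b (l 16083256) (l 15844688)) (b (l 16129336) (l 15905728))) (a (b (l 16065048) (l 15818144)) (l 15795264))) (c (b (a (l 16199048) (l 16271320)) (a (l 15969504) (l 16035952))) (a (l 15863520) (l 15934440)))) (a (a (c (b (l 15627256) (l 15426808)) (l 15362656)) (c (b (l 15683528) (l 15480232)) (l 15418536))) (c (b (a (l 15742608) (l 15804432)) (a (l 15536560) (l 15595704))) (b (l 15679168) (l 15527480))))) (b (a (c (a (b (l 16346000) (l 16104968)) (l 51571657863)) (a (l 16028888) (l 16104768))) (a (b (l 1) (c (l 16211992) (l 16236104))) (l 1))) (a (c (a (b (l 15868944) (l 15657608)) (b (l 15936040) (l 15722216))) (b (l 15705808) (l 15653568))) (a (c (b (l 15988240) (l 15792888)) (l 15722864)) (c (l 15885568) (l 15986728)))))), by decide +kernel⟩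

def k38_pm_022 : ∃ t, chk3 f_pm_022 t 3 5 1 = true :=
  ⟨(b (l 1) (a (a (b (l 1) (a (a (c (l 16112312) (l 16158512)) (l 1)) (l 1))) (l 1)) (l 1))), by decide +kernel⟩

def k39_pm_022 : ∃ t, chk3 f_pm_022 t 8 6 1 = true :=
  ⟨(a (c (b (a (l 14097888) (c (l 14245736) (c (l 14230368) (l 14216168)))) (c (l 14184888) (l 14149840))) (a (c (b (l 14034608) (l 14034608)) (c (a (l 13964856) (b (l 14031984) (l 14031984))) (a (b (l 13937912) (l 13937912)) (l 14011808)))) (c (c (a (l 14159440) (b (l 14238472) (l 14238208))) (b (a (l 14139512) (l 14195136)) (l 14166544))) (l 14127592)))) (b (c (a (c (b (b (a (b (l 14349496) (l 14371904)) (a (b (l 14610920) (l 14468912)) (b (l 14755728) (l 14388480)))) (a (l 14370728) (c (l 14475408) (l 14471144)))) (l 14407656)) (c (b (b (a (b (l 14371528) (l 14371960)) (a (b (l 14589784) (l 14445472)) (l 14590920))) (a (l 14370760) (l 14426344))) (l 14205488)) (b (b (a (a (l 14342312) (l 14383112)) (l 14516232)) (l 14358584)) (l 14358000)))) (b (b (c (a (c (l 14866456) (l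 14692240)) (c (a (l 15026384) (l 15102704)) (l 15018920))) (l 14875480)) (c (a (c (b (a (l 14588152) (l 14663976)) (l 14567208)) (b (a (l 14533664) (l 14580632)) (l 14515560))) (c (a (b (l 14753152) (l 14618272)) (l 14744008)) (l 14673464))) (a (l 14484472) (l 14646408)))) (c (a (c (l 14566096) (l 14514432)) (c (l 14600632) (l 14536984))) (l 14476032)))) (b (a (b (a (l 14294840) (l 14467568)) (l 14285144)) (b (l 14828088) (b (l 14560664) (l 14456560)))) (l 14351264))) (c (a (c (l 14407656) (c (l 14394232) (l 14358000))) (c (c (l 14579520) (l 14538280)) (l 14475664))) (l 14350976)))), by decide +kernel⟩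

def k40_pm_022 : ∃ t, chk3 f_pm_022 t 9 6 1 = true :=
  ⟨(b (a (b (a (c (a (l 15020208) (l 15157776)) (b (l 15340344) (l 14953040))) (b (a (l 15705184) (l 15932240)) (c (l 15506304) (l 15598992)))) (a (b (c (a (b (l 14646184) (l 14589568)) (b (l 14877024) (l 14736184))) (a (l 14551576) (l 14743080))) (c (l 14627136) (l 14559608))) (b (l 15170112) (c (a (l 14875744) (l 15124048)) (l 14721856))))) (b (a (b (a (c (l 15814736) (l 15884520)) (l 15492792)) (a (l 15915432) (c (l 15974360) (l 16069216)))) (a (b (b (c (a (l 15302088) (b (l 15255472) (l 15263984))) (a (l 15323464) (l 15223128))) (l 15479112)) (l 15642480)) (b (b (l 15223200) (c (a (l 15256072) (b (l 15183288) (l 15192608))) (l 15120536))) (l 15393384)))) (a (b (c (l 15680448) (l 15720600)) (l 15472064)) (b (a (l 16029120) (l 15816344)) (a (l 15936440) (l 16222072)))))) (a (c (a (l 14626616) (l 14919960)) (l 14708000)) (b (a (b (c (a (l 15191424) (l 15430120)) (l 15168784)) (l 15208144)) (b (l 15680792) (a (b (l 15490592) (l 15441168)) (l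 15606528)))) (a (l 15207664) (l 15498328))))), by decide +kernel⟩

def k41_pm_022 : ∃ t, chk3 f_pm_022 t 4 7 1 = true :=
  ⟨(a (c (a (b (l 13960128) (l 14169840)) (c (a (l 14407656) (b (l 14555336) (l 14555336))) (a (b (l 14371352) (l 14371352)) (l 14475664)))) (a (a (c (l 14034608) (b (a (l 13948408) (l 14007128)) (l 13855872))) (c (b (a (l 14133304) (l 14222448)) (l 14165704)) (l 14127464))) (b (l 14350976) (l 14350976)))) (a (c (a (b (l 14626616) (l 14626616)) (l 14919768)) (b (l 14707832) (l 14707832))) (b (l 15354008) (l 15312064)))), by decide +kernel⟩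

def k42_pm_022 : ∃ t, chk3 f_pm_022 t 10 6 1 = true :=
  ⟨(b (a (b (a (b (c (l 15235712) (l 15188056)) (a (b (c (a (l 15209656) (b (l 15115496) (l 15125592))) (l 15113272)) (l 15332256)) (b (l 15084056) (c (a (l 15143808) (l 15021600)) (l 15065648))))) (c (b (l 15285936) (l 15100944)) (l 15142504))) (a (b (c (l 15368728) (l 15501016)) (b (l 15743224) (l 15885784))) (b (a (b (c (b (l 15015160) (l 15063664)) (l 14998632)) (l 15202536)) (b (l 14951160) (c (b (l 14951992) (l 15001272)) (l 14933192)))) (c (l 15330368) (l 15394344))))) (b (c (b (l 15367424) (l 15177832)) (l 15223040)) (a (b (c (l 14972352) (l 14913680)) (a (b (c (b (l 14890368) (l 14940424)) (l 14869328)) (l 15079040)) (b (l 14824504) (c (b (l 14830288) (l 14881120)) (l 14807040))))) (c (l 14935432) (l 14874464))))) (a (b (a (b (l 16067232) (l 15906224)) (b (c (l 15708672) (l 15768824)) (c (l 16148088) (l 16246456)))) (a (b (c (l 15546472) (l 15764640)) (l 15700704)) (b (l 16075184) (c (l 15872896) (l 15950608))))) (b (a (b (l 15044456)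 (l 15584608)) (b (a (b (c (b (l 14771736) (l 14823344)) (l 14746336)) (l 14961768)) (b (l 14704088) (c (a (l 14781024) (l 14700728)) (l 14687208)))) (l 15015792))) (a (b (b (l 15969760) (l 16233320)) (l 16300728)) (b (l 15541392) (l 15897976)))))), by decide +kernel⟩

def k43_pm_022 : ∃ t, chk3 f_pm_022 t 11 6 1 = true :=
  ⟨(b (a (c (b (a (l 15357216) (l 15417880)) (a (l 14987416) (l 15042560))) (b (l 15089024) (l 14955088))) (a (c (b (b (l 15585096) (l 15385888)) (l 15103552)) (b (l 15439536) (l 15045176))) (c (b (l 15645592) (l 15250936)) (b (l 15605872) (l 15197360))))) (a (b (b (c (l 14758784) (l 14690032)) (a (a (b (c (a (l 14725944) (l 14645648)) (l 14629664)) (l 14850712)) (b (l 14589912) (c (l 14562224) (l 14573696)))) (l 14586624))) (a (b (l 14972360) (l 15504312)) (b (a (b (c (l 14573136) (l 14519304)) (l 14745880)) (b (l 14481984) (c (l 14543648) (l 14466496)))) (l 14893184)))) (b (c (a (l 14757792) (l 14891176)) (l 14755464)) (a (b (c (l 14522056) (l 14443272)) (a (b (c (l 14494728)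 (l 14415256)) (l 14647264)) (b (l 14385048) (c (l 14451848) (l 14370320))))) (c (l 14567168) (l 14489592)))))), by decide +kernel⟩

def k44_pm_022 : ∃ t, chk3 f_pm_022 t 5 7 1 = true :=
  ⟨(a (b (a (l 15648272) (b (a (b (c (l 16067400) (l 16130288)) (l 16070064)) (b (l 16373016) (a (l 16227480) (l 16375288)))) (l 16158352))) (a (l 15794952) (l 16158184))) (b (a (b (a (b (a (l 16150088) (l 15897424)) (l 16312768)) (a (l 15622288) (l 15383232))) (a (b (l 16265640) (l 16414712)) (b (l 16211160) (l 16423488)))) (b (b (a (l 14780440) (c (a (b (l 14444536) (l 14635016)) (b (l 14418616) (l 14444536))) (b (l 14365896) (l 14473888)))) (a (l 15366704) (l 14857912))) (a (b (l 15805272) (a (l 16453904) (l 16197560))) (c (l 15500552) (l 15585984))))) (a (l 16496792) (b (a (b (a (l 16715448) (l 16552696)) (l 16730936)) (b (l 16221048) (c (l 16655080) (l 16650792)))) (l 16754296))))), by decide +kernel⟩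

def k45_pm_022 : ∃ t, chk3 f_pm_022 t 3 3 1 = true :=
  ⟨(b (a (a (b (a (c (b (l 99889330567) (l 15292192)) (b (l 15830664) (l 15500560))) (b (a (l 266320054327) (l 1)) (c (l 15817264) (l 15935520)))) (b (c (a (l 15074016) (l 15522880)) (a (l 15101064) (l 15500560))) (c (a (l 14807016) (l 15157904)) (l 14747760)))) (b (a (b (l 1) (a (l 16145840) (l 1))) (l 1)) (a (c (b (l 15922120) (l 15543856)) (l 179345725527)) (b (a (l 16208760) (l 1)) (l 15740104))))) (a (b (l 1) (a (b (l 1) (a (l 16271672) (l 1))) (l 1))) (l 1))) (a (a (b (b (a (a (b (l 14451608) (c (a (l 14384224) (l 14342808)) (l 14281120))) (l 14528464)) (c (l 14807016) (l 14737856))) (a (a (c (l 15078648) (l 15084152)) (b (c (a (l 14552000) (l 14447664)) (l 14448888)) (l 14857912))) (a (b (l 14451608) (c (a (l 14552000) (l 14447664)) (l 14448888))) (l 14528464)))) (b (a (a (c (l 15879904) (l 15939656)) (l 15396512)) (a (l 14945152) (b (a (l 14303320) (l 14239104)) (l 14857912)))) (a (b (a (c (l 16655080) (l 16650792)) (l 16242016)) (c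 (l 16592008) (l 16694048))) (b (l 15417488) (l 15825920))))) (b (a (c (l 14789920) (l 14915536)) (b (l 15417392) (l 15129544))) (b (a (a (b (l 14451608) (a (l 14513032) (l 14406872))) (l 14528464)) (l 14772512)) (a (a (l 15070984) (b (c (l 14443960) (l 14448888)) (l 14857912))) (a (b (l 14451608) (c (l 14527840) (l 14448888))) (l 14528464)))))) (a (b (a (c (l 132101157367) (l 15609200)) (b (a (l 16292640) (l 1)) (l 15886904))) (a (c (l 14978664) (l 14915536)) (c (l 15326096) (l 15296864)))) (b (a (b (l 1) (a (l 16292640) (l 1))) (l 1)) (a (c (l 15561360) (l 15693088)) (b (c (l 16417440) (l 16404808)) (l 15949816))))))), by decide +kernel⟩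

theorem s46_pm_022 : ∃ t, chk3 f_pm_022 t 5 6 1 = true := ex3_a k42_pm_022 k43_pm_022

theorem s47_pm_022 : ∃ t, chk3 f_pm_022 t 5 3 1 = true := ex3_b s46_pm_022 k44_pm_022

theorem s48_pm_022 : ∃ t, chk3 f_pm_022 t 4 6 1 = true := ex3_a k39_pm_022 k40_pm_022

theorem s49_pm_022 : ∃ t, chk3 f_pm_022 t 4 3 1 = true := ex3_b s48_pm_022 k41_pm_022

theorem s50_pm_022 : ∃ t, chk3 f_pm_022 t 2 3 1 = true := ex3_a s49_pm_022 s47_pm_022

theorem s51_pm_022 : ∃ t, chk3 f_pm_022 t 1 3 1 = true := ex3_a s50_pm_022 k45_pm_022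

theorem s52_pm_022 : ∃ t, chk3 f_pm_022 t 5 5 1 = true := ex3_b k36_pm_022 k37_pm_022

theorem s53_pm_022 : ∃ t, chk3 f_pm_022 t 17 11 1 = true := ex3_b k33_pm_022 k34_pm_022

theorem s54_pm_022 : ∃ t, chk3 f_pm_022 t 8 11 1 = true := ex3_a k32_pm_022 s53_pm_022

theorem s55_pm_022 : ∃ t, chk3 f_pm_022 t 4 11 1 = true := ex3_a s54_pm_022 k35_pm_022

theorem s56_pm_022 : ∃ t, chk3 f_pm_022 t 8 21 1 = true := ex3_a k29_pm_022 k30_pm_022

theorem s57_pm_022 : ∃ t, chk3 f_pm_022 t 4 21 1 = true := ex3_a s56_pm_022 k31_pm_022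

theorem s58_pm_022 : ∃ t, chk3 f_pm_022 t 9 20 1 = true := ex3_b k27_pm_022 k28_pm_022

theorem s59_pm_022 : ∃ t, chk3 f_pm_022 t 17 41 1 = true := ex3_b k25_pm_022 k26_pm_022

theorem s60_pm_022 : ∃ t, chk3 f_pm_022 t 16 41 1 = true := ex3_c k23_pm_022 k24_pm_022

theorem s61_pm_022 : ∃ t, chk3 f_pm_022 t 8 41 1 = true := ex3_a s60_pm_022 s59_pm_022

theorem s62_pm_022 : ∃ t, chk3 f_pm_022 t 8 40 1 = true := ex3_a k21_pm_022 k22_pm_022

theorem s63_pm_022 : ∃ t, chk3 f_pm_022 t 8 20 1 = true := ex3_b s62_pm_022 s61_pm_022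

theorem s64_pm_022 : ∃ t, chk3 f_pm_022 t 4 20 1 = true := ex3_a s63_pm_022 s58_pm_022

theorem s65_pm_022 : ∃ t, chk3 f_pm_022 t 4 10 1 = true := ex3_b s64_pm_022 s57_pm_022

theorem s66_pm_022 : ∃ t, chk3 f_pm_022 t 4 5 1 = true := ex3_b s65_pm_022 s55_pm_022

theorem s67_pm_022 : ∃ t, chk3 f_pm_022 t 2 5 1 = true := ex3_a s66_pm_022 s52_pm_022

theorem s68_pm_022 : ∃ t, chk3 f_pm_022 t 1 5 1 = true := ex3_a s67_pm_022 k38_pm_022

theorem s69_pm_022 : ∃ t, chk3 f_pm_022 t 9 19 1 = true := ex3_b k17_pm_022 k18_pm_022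

theorem s70_pm_022 : ∃ t, chk3 f_pm_022 t 8 39 1 = true := ex3_a k15_pm_022 k16_pm_022

theorem s71_pm_022 : ∃ t, chk3 f_pm_022 t 35 38 2 = true := ex3_b k12_pm_022 k13_pm_022

theorem s72_pm_022 : ∃ t, chk3 f_pm_022 t 17 38 2 = true := ex3_a k11_pm_022 s71_pm_022

theorem s73_pm_022 : ∃ t, chk3 f_pm_022 t 8 38 2 = true := ex3_a k10_pm_022 s72_pm_022

theorem s74_pm_022 : ∃ t, chk3 f_pm_022 t 8 38 1 = true := ex3_c s73_pm_022 k14_pm_022

theorem s75_pm_022 : ∃ t, chk3 f_pm_022 t 8 19 1 = true := ex3_b s74_pm_022 s70_pm_022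

theorem s76_pm_022 : ∃ t, chk3 f_pm_022 t 4 19 1 = true := ex3_a s75_pm_022 s69_pm_022

theorem s77_pm_022 : ∃ t, chk3 f_pm_022 t 2 19 1 = true := ex3_a s76_pm_022 k19_pm_022

theorem s78_pm_022 : ∃ t, chk3 f_pm_022 t 35 37 4 = true := ex3_a k4_pm_022 k5_pm_022

theorem s79_pm_022 : ∃ t, chk3 f_pm_022 t 35 37 2 = true := ex3_c s78_pm_022 k6_pm_022

theorem s80_pm_022 : ∃ t, chk3 f_pm_022 t 17 37 2 = true := ex3_a k3_pm_022 s79_pm_022

theorem s81_pm_022 : ∃ t, chk3 f_pm_022 t 8 37 2 = true := ex3_a k2_pm_022 s80_pm_022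

theorem s82_pm_022 : ∃ t, chk3 f_pm_022 t 8 37 1 = true := ex3_c s81_pm_022 k7_pm_022

theorem s83_pm_022 : ∃ t, chk3 f_pm_022 t 8 18 1 = true := ex3_b k1_pm_022 s82_pm_022

theorem s84_pm_022 : ∃ t, chk3 f_pm_022 t 4 18 1 = true := ex3_a s83_pm_022 k8_pm_022

theorem s85_pm_022 : ∃ t, chk3 f_pm_022 t 2 18 1 = true := ex3_a s84_pm_022 k9_pm_022

theorem s86_pm_022 : ∃ t, chk3 f_pm_022 t 2 9 1 = true := ex3_b s85_pm_022 s77_pm_022

theorem s87_pm_022 : ∃ t, chk3 f_pm_022 t 1 9 1 = true := ex3_a s86_pm_022 k20_pm_022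

theorem s88_pm_022 : ∃ t, chk3 f_pm_022 t 1 4 1 = true := ex3_b k0_pm_022 s87_pm_022

theorem s89_pm_022 : ∃ t, chk3 f_pm_022 t 1 2 1 = true := ex3_b s88_pm_022 s68_pm_022

theorem s90_pm_022 : ∃ t, chk3 f_pm_022 t 1 1 1 = true := ex3_b s89_pm_022 s51_pm_022

theorem c_pm_022 : CertNX 0 536870912 1073741824 536870912 1046898278 26843546 3 true true false .pp 0 2 2
    ndN0q0 ndN5q2 pcN2 Cut.none Ext.none :=
  certNX1 (fam := true) (s1 := true) (s2 := false) (a := 0) (b := 2) (c := 2) (cn := .pp) (n1 := ndN0q0) (n2 := ndN5q2) (pc := pcN2) (cut := Cut.none) (xt := Ext.none) (P1 := 0) (W1 := 536870912) (P2 := 1073741824) (W2 := 536870912) (P3 := 1046898278) (W3 := 26843546) (N0 := 3)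
    rfl (fun _ => rfl) s90_pm_022

noncomputable def f_pm_023 : ℕ → ℕ → ℕ → ℕ → Bool := onCell 0 536870912 1073741824 536870912 1046898278 26843546
    (rowNX 3 0 true true false .up 0 2 3 (qsf 0 536870912 1073741824 536870912 3) ndN0q0 ndN5q2 pcN3 Cut.none Ext.none)

def k0_pm_023 : ∃ t, chk3 f_pm_023 t 2 1 1 = true :=
  ⟨(a (b (l 1) (a (b (l 1) (a (b (l 1) (c (l 14169840) (a (c (l 14034608) (l 13939752)) (c (l 14165704) (l 14127464))))) (c (a (c (l 14407656) (b (l 1) (l 14371352))) (b (l 242157331783) (l 14526896))) (l 14350976)))) (b (a (l 1) (b (l 1) (l 216926053159))) (a (c (a (l 14626616) (l 14919768)) (b (l 14707832) (l 14707832))) (b (l 15354008) (l 15354008)))))) (b (b (l 1) (b (l 1) (a (l 1) (b (l 1) (l 263099416151))))) (b (a (b (l 270614395655) (a (l 15794952) (l 16158184))) (a (b (l 16454760) (l 16496704)) (b (l 16754176) (l 16754176)))) (a (c (a (l 15811992) (l 16168920)) (a (l 15777984) (l 16147496))) (a (l 16370872) (l 16754176)))))), by decide +kernel⟩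

def k1_pm_023 : ∃ t, chk3 f_pm_023 t 3 1 1 = true :=
  ⟨(b (b (a (b (l 1) (a (l 1) (c (l 246989730231) (l 14737856)))) (b (a (c (l 15355112) (l 15500560)) (c (l 15543856) (l 15500560))) (a (c (l 14807016) (l 14737856)) (c (l 14807016) (l 14737856))))) (b (a (a (b (l 1) (l 339869508343)) (b (b (l 14377320) (l 14597512)) (l 15152464))) (b (b (c (l 14418616) (l 14335832)) (c (l 14635016) (l 14559832))) (a (l 15341208) (l 15362176)))) (a (b (a (b (l 16077472) (l 16484848)) (b (l 16077472) (l 16526792))) (c (l 16776560) (l 16776544))) (b (a (b (l 16077472) (l 16526792)) (l 16116184)) (c (l 16776560) (l 16776544)))))) (a (b (c (a (l 16777216) (l 16777216)) (a (l 16777216) (l 16777216))) (a (l 16777208) (b (l 16777208) (b (l 16777184) (l 16777160))))) (b (b (a (l 16777216) (l 16777208)) (a (l 16777208) (l 16777168))) (a (b (l 16777168) (a (b (l 16777144) (l 16775376)) (b (l 16775168) (b (l 16771904) (l 16764920))))) (b (b (l 16774760) (a (l 16775016) (b (l 16769608) (a (l 16766272) (l 16754256))))) (a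 (b (b (l 16770200) (a (l 16768680) (l 16758696))) (a (c (l 16761744) (l 16760480)) (b (l 16766320) (c (l 16751328) (l 16746448))))) (b (a (b (l 16756088) (l 16763184)) (b (l 16759528) (c (l 16751328) (l 16746448)))) (a (b (c (l 16751328) (l 16746448)) (l 4)) (l 4))))))))), by decide +kernel⟩

theorem s2_pm_023 : ∃ t, chk3 f_pm_023 t 1 1 1 = true := ex3_a k0_pm_023 k1_pm_023

theorem c_pm_023 : CertNX 0 536870912 1073741824 536870912 1046898278 26843546 3 true true false .up 0 2 3
    ndN0q0 ndN5q2 pcN3 Cut.none Ext.none :=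
  certNX0 (fam := true) (s1 := true) (s2 := false) (a := 0) (b := 2) (c := 3) (cn := .up) (n1 := ndN0q0) (n2 := ndN5q2) (pc := pcN3) (cut := Cut.none) (xt := Ext.none) (P1 := 0) (W1 := 536870912) (P2 := 1073741824) (W2 := 536870912) (P3 := 1046898278) (W3 := 26843546) (N0 := 3)
    rfl s2_pm_023

noncomputable def f_pm_033 : ℕ → ℕ → ℕ → ℕ → Bool := onCell 0 536870912 0 1230186008 1046898278 26843546
    (rowNX 3 0 true true false .pnn 0 3 3 (qsf 0 536870912 0 1230186008 3) ndN0q0 ndN5q3 pcN3 Cut.none Ext.none)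

def k0_pm_033 : ∃ t, chk3 f_pm_033 t 1 2 1 = true :=
  ⟨(l 4), by decide +kernel⟩

def k1_pm_033 : ∃ t, chk3 f_pm_033 t 1 6 1 = true :=
  ⟨(a (a (b (a (b (l 4) (l 4)) (l 4)) (a (c (a (b (a (l 14097856) (l 14233728)) (l 14169840)) (c (a (b (l 14407640) (l 14407648)) (b (l 14555304) (l 14555328))) (b (a (l 14371328) (l 14475624)) (l 14401504)))) (a (c (a (l 14034576) (b (l 14165680) (l 14165696))) (a (b (l 13981656) (l 13981696)) (l 14127424))) (b (l 14350928) (l 14350968)))) (b (l 4) (b (a (a (l 14589288) (l 14887040)) (l 4)) (a (a (l 14589272) (l 14887024)) (a (l 15207656) (l 15498032))))))) (a (b (l 4) (b (l 4) (b (l 4) (l 4)))) (l 4))) (l 4)), by decide +kernel⟩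

def k2_pm_033 : ∃ t, chk3 f_pm_033 t 2 7 1 = true :=
  ⟨(b (a (a (b (a (c (l 14169840) (a (c (l 14034608) (l 13981696)) (c (l 14165704) (l 14127464)))) (c (a (c (l 14407656) (l 14371352)) (l 14526888)) (l 14350976))) (a (c (l 14169840) (a (c (l 14034608) (l 13981696)) (l 14054600))) (c (a (c (l 14407656) (l 14371352)) (l 14526896)) (l 14350976)))) (b (a (a (l 14589288) (l 14887024)) (b (l 15353992) (l 15353984))) (a (a (l 14589296) (l 14887040)) (b (l 15354000) (l 15354008))))) (a (b (a (c (l 15665160) (b (l 15777984) (l 15777960))) (c (b (l 16165776) (l 16168920)) (b (l 16143624) (l 16147488)))) (a (b (l 15794920) (l 15794936)) (b (l 16158152) (l 16158144)))) (b (a (b (l 4) (c (l 16475576) (l 16464776))) (l 4)) (a (b (c (l 16500832) (l 16490992)) (l 16496664)) (b (c (l 58753351879) (a (l 16729528) (l 4))) (c (l 16753016) (l 16751992))))))) (a (a (c (a (b (l 14169840) (l 14127904)) (a (c (l 14365712) (b (l 14371352) (l 14371352))) (b (l 14526896) (l 14484952)))) (a (a (c (l 14034608) (b (l 13981696)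 (a (l 13948408) (l 14007128)))) (c (b (l 14165704) (l 13914048)) (l 14127464))) (l 14246120))) (a (b (l 14567648) (a (l 14589296) (l 14887040))) (b (l 15354008) (l 15354008)))) (b (a (a (l 15794952) (l 16158176)) (a (b (l 16496656) (l 16496680)) (b (l 16754136) (l 16754128)))) (a (l 15979656) (l 16565032))))), by decide +kernel⟩

def k3_pm_033 : ∃ t, chk3 f_pm_033 t 3 7 1 = true :=
  ⟨(b (a (a (b (l 4) (b (l 4) (a (c (a (l 16771832) (l 16764968)) (a (l 16771640) (l 16764408))) (l 4)))) (l 4)) (l 2)) (a (b (a (b (a (c (l 16776192) (l 16776152)) (c (a (l 16770912) (l 16764552)) (a (l 16770688) (l 16763864)))) (a (l 16777160) (b (l 16776144) (l 16777184)))) (a (b (l 4) (c (b (l 16764504) (l 16773856)) (b (l 16763768) (l 16773744)))) (b (l 4) (b (l 4) (c (l 37279125847) (a (l 16775568) (l 4))))))) (a (b (a (l 16777160) (l 16777152)) (l 16777176)) (b (a (b (l 16775776) (l 16777168)) (b (c (l 16764840) (l 16764144)) (l 16772208))) (a (l 16777152) (b (l 16775904) (l 16777160)))))) (b (l 4) (a (b (a (b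 (a (c (l 16758296) (l 16756184)) (l 4)) (c (l 16760824) (l 16759136))) (l 4)) (a (b (a (l 16770608) (l 16770136)) (l 16771304)) (b (a (l 37279004039) (l 4)) (c (l 16761768) (l 16760344))))) (b (l 4) (a (b (l 4) (a (c (l 16747824) (l 16742608)) (l 4))) (l 4))))))), by decide +kernel⟩

theorem s4_pm_033 : ∃ t, chk3 f_pm_033 t 1 7 1 = true := ex3_a k2_pm_033 k3_pm_033

theorem s5_pm_033 : ∃ t, chk3 f_pm_033 t 1 3 1 = true := ex3_b k1_pm_033 s4_pm_033

theorem s6_pm_033 : ∃ t, chk3 f_pm_033 t 1 1 1 = true := ex3_b k0_pm_033 s5_pm_033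

theorem c_pm_033 : CertNX 0 536870912 0 1230186008 1046898278 26843546 3 true true false .pnn 0 3 3
    ndN0q0 ndN5q3 pcN3 Cut.none Ext.none :=
  certNX0 (fam := true) (s1 := true) (s2 := false) (a := 0) (b := 3) (c := 3) (cn := .pnn) (n1 := ndN0q0) (n2 := ndN5q3) (pc := pcN3) (cut := Cut.none) (xt := Ext.none) (P1 := 0) (W1 := 536870912) (P2 := 0) (W2 := 1230186008) (P3 := 1046898278) (W3 := 26843546) (N0 := 3)
    rfl s6_pm_033

noncomputable def f_pm_101 : ℕ → ℕ → ℕ → ℕ → Bool := onCell 536870912 536870912 0 536870912 1046898278 26843546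
    (rowNX 3 2 true true false .npn 1 0 1 (qsf 536870912 536870912 0 536870912 1) ndN0q1 ndN5q0 pcN1 Cut.none Ext.none)

def k0_pm_101 : ∃ t, chk3 f_pm_101 t 2 1 1 = true :=
  ⟨(l 3), by decide +kernel⟩

def k1_pm_101 : ∃ t, chk3 f_pm_101 t 6 2 1 = true :=
  ⟨(l 3), by decide +kernel⟩

def k2_pm_101 : ∃ t, chk3 f_pm_101 t 14 4 1 = true :=
  ⟨(l 3), by decide +kernel⟩

def k3_pm_101 : ∃ t, chk3 f_pm_101 t 60 8 1 = true :=
  ⟨(l 3), by decide +kernel⟩

def k4_pm_101 : ∃ t, chk3 f_pm_101 t 122 8 1 = true :=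
  ⟨(a (l 3) (b (b (c (b (c (l 14491168) (b (l 13841944) (c (l 14052616) (b (l 13742784) (l 13781672))))) (c (b (b (l 14477032) (c (l 14599072) (l 14345960))) (l 131696977031)) (b (c (b (l 14081456) (l 14079256)) (l 13803696)) (c (l 14069152) (l 13828704))))) (b (c (b (l 13169056) (c (b (l 13440016) (l 13483416)) (b (l 13122640) (l 13177760)))) (b (c (b (l 12596544) (l 12710376)) (c (l 137060709927) (l 12219736))) (c (l 12851072) (l 12558992)))) (c (b (c (l 13528360) (l 13271064)) (l 13501336)) (l 12982824)))) (c (b (c (b (l 14397696) (c (l 14463504) (l 14297176))) (b (c (l 14073504) (l 13880440)) (l 14024104))) (c (l 119348826039) (l 14094224))) (c (b (l 13645624) (l 13792568)) (l 13366904)))) (b (l 3) (l 3)))), by decide +kernel⟩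

def k5_pm_101 : ∃ t, chk3 f_pm_101 t 123 8 1 = true :=
  ⟨(b (b (c (c (b (a (b (a (l 14685032) (l 14822848)) (l 14665616)) (a (l 14920992) (c (b (c (c (a (l 15487248) (l 15587128)) (l 15427504)) (l 15260976)) (l 15160320)) (l 14847832)))) (b (c (c (a (l 14829456) (l 15039968)) (b (l 14799288) (l 14766968))) (b (l 14570464) (b (l 14553416) (l 14536056)))) (c (c (a (l 14757280) (b (l 14960392) (l 14898976))) (l 14699664)) (l 14488496)))) (b (b (a (l 13985536) (l 14194072)) (b (l 14085904) (c (l 14262240) (b (l 13922928) (l 13928960))))) (b (c (b (b (l 14260888) (l 14253912)) (l 14235992)) (l 13924960)) (c (l 14205192) (l 13929248))))) (b (c (b (b (l 13228960) (a (l 13247864) (l 13347704))) (b (c (a (l 13492064) (l 13598512)) (l 13162408)) (c (l 13572392) (l 13212568)))) (b (c (b (l 12580416) (a (l 12675656) (l 12703776))) (b (c (l 12250768) (l 12029624)) (l 12279744))) (c (l 12830800) (l 12480312)))) (c (b (c (l 13605088) (l 13302312)) (l 13546840)) (l 12951144)))) (c (b (c (c (c (a (l 14637488)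 (l 14773744)) (b (l 14617256) (l 14554304))) (b (l 14428488) (l 14398736))) (c (b (b (l 14185888) (l 14186312)) (l 14202984)) (l 13988568))) (c (b (c (a (l 14522072) (l 14631232)) (l 14400128)) (a (l 14445288) (l 14534696))) (l 14159920))) (c (b (l 13681536) (l 13820224)) (l 13355424)))) (c (b (c (a (l 14477312) (l 14543320)) (b (l 14223928) (l 14277984))) (c (c (b (l 14606208) (l 14629024)) (l 14507040)) (l 14340528))) (b (l 13820800) (l 13993232)))), by decide +kernel⟩

def k6_pm_101 : ∃ t, chk3 f_pm_101 t 124 32 2 = true :=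
  ⟨(b (c (a (c (a (b (c (b (a (l 15717088) (l 15829256)) (l 15610944)) (l 15461712)) (l 15318600)) (c (b (b (a (l 15945008) (l 16074288)) (a (l 15767416) (l 15879320))) (l 15593272)) (b (a (l 15626000) (l 15740296)) (l 15389616)))) (a (l 15004808) (l 15181000))) (c (a (b (c (b (l 16301120) (l 16064840)) (b (a (l 15964592) (l 16106664)) (l 15826392))) (c (l 15790984) (l 15576352))) (b (b (l 16511464) (l 16286856)) (c (l 16013480) (l 15785856)))) (a (c (a (l 15446664) (l 15553248)) (l 15257816)) (c (b (b (a (l 15984960) (l 16141592)) (l 15828856)) (l 15555848)) (b (l 15664024) (l 15322560)))))) (c (a (l 14643600) (l 14982776)) (b (l 14370896) (b (l 14307208) (l 14277744))))) (c (b (a (b (c (a (l 15182128) (l 15327568)) (l 14893400)) (c (c (l 15258176) (a (l 15028040) (l 15154048))) (c (l 14918448) (l 14744896)))) (c (c (l 15602720) (a (l 15338552) (l 15495952))) (c (b (l 15274792) (a (l 15107368) (l 15250320))) (b (l 15074272) (l 14984912))))) (c (a (c (a (l 15082064) (l 15197696)) (l 14978088))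 (c (l 15379336) (l 15212128))) (a (l 14737408) (a (l 14893488) (l 15012704))))) (b (c (b (a (l 14526456) (l 14766592)) (l 14580688)) (l 14224104)) (c (l 14505256) (l 14367544))))), by decide +kernel⟩

def k7_pm_101 : ∃ t, chk3 f_pm_101 t 125 32 2 = true :=
  ⟨(c (b (a (c (b (a (l 16721800) (l 16674960)) (a (c (l 16269336) (l 16022664)) (l 16430192))) (a (b (c (l 16257000) (b (l 16092368) (l 15829448))) (c (l 15778064) (l 15531136))) (b (c (l 16644784) (l 16301456)) (c (l 16030568) (l 15767096))))) (c (l 16533216) (b (l 16593464) (a (l 16180272) (l 16506432))))) (b (c (a (c (a (l 15871000) (l 16072760)) (b (l 15846256) (l 15684528))) (c (l 16421600) (b (l 16311672) (a (l 15969696) (l 16186144))))) (a (b (c (l 15627912) (l 15408056)) (c (l 15483408) (l 15278240))) (b (c (l 16064520) (l 15817808)) (c (l 15851520) (l 15626016))))) (c (a (b (l 15634000) (l 15502264)) (c (b (l 16080832) (l 15897224)) (l 15789208))) (a (l 15203760) (l 15494888))))) (b (c (a (a (c (l 15442128) (l 15161744)) (c (b (b (l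 16124232) (l 15827736)) (l 15501440)) (l 15404880))) (b (a (c (l 16350728) (b (l 16159256) (l 15823120))) (l 16581936)) (a (l 15608928) (l 15886520)))) (a (b (l 14979968) (l 14730488)) (b (a (c (a (l 15523992) (l 15694584)) (l 15228880)) (c (l 15990200) (l 15574536))) (c (a (l 15175400) (l 15422336)) (b (l 15070960) (l 14922392)))))) (c (c (a (b (a (l 15041864) (l 15205816)) (l 14925120)) (l 15324048)) (a (b (l 14899944) (l 14732984)) (l 15106072))) (b (a (l 14564104) (l 14868952)) (a (l 14454032) (c (l 14797320) (l 14596368))))))), by decide +kernel⟩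

def k8_pm_101 : ∃ t, chk3 f_pm_101 t 62 33 2 = true :=
  ⟨(c (a (b (c (a (c (l 14943832) (b (l 14854768) (l 14762472))) (c (l 15128496) (b (l 15053048) (l 14936056)))) (a (b (l 14640864) (l 14582928)) (b (c (l 14900760) (l 14744304)) (c (a (l 14759472) (l 14851648)) (l 14674408))))) (c (a (c (a (l 14764800) (l 14840712)) (l 14698936)) (c (l 14942472) (l 14842656))) (a (l 14554688) (l 14686448)))) (b (a (c (l 15255856) (b (l 15030968) (l 15022632))) (b (l 15428936) (c (l 15386696) (l 15105240)))) (c (l 15108240) (l 14890952)))) (a (b (c (b (c (l 14510544) (l 14373856)) (l 14423704)) (l 14187672)) (l 14327824)) (c (a (b (b (c (a (l 14738288) (l 14848608)) (l 14632912)) (l 14655384)) (l 14611104)) (b (b (c (l 15014688) (l 14851688)) (l 14835088)) (l 14752768))) (a (l 14391016) (b (a (l 14533808) (l 14631712)) (l 14530776)))))), by decide +kernel⟩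

def k9_pm_101 : ∃ t, chk3 f_pm_101 t 63 16 2 = true :=
  ⟨(b (b (a (c (a (l 16448240) (l 16475000)) (c (a (b (l 16540504) (a (l 16211008) (l 16492264))) (l 16458792)) (b (a (a (c (l 16469496) (l 16001712)) (l 16410904)) (l 16470200)) (a (c (b (l 16035960) (l 15722696)) (b (l 15656288) (l 15395240))) (b (l 16332336) (c (l 16411984) (l 16029080))))))) (c (l 16399632) (b (l 16393096) (c (l 16356736) (b (l 16354896) (l 16299360)))))) (c (a (b (c (a (l 16399192) (l 16424296)) (a (b (l 16477984) (c (l 16306864) (l 16056392))) (b (l 16427792) (l 16422656)))) (c (a (c (l 16377872) (l 16166648)) (l 16433064)) (a (l 15846648) (l 16263776)))) (b (l 16323880) (l 16233888))) (a (c (b (a (b (c (l 16053800) (l 15769240)) (l 15677352)) (b (c (l 16430984) (l 16351696)) (l 16168296))) (a (l 15415384) (l 15799808))) (b (a (l 15246232) (l 15725544)) (c (l 15262768) (l 15036560)))) (a (b (c (l 16375776) (a (l 16163976) (l 16374136))) (c (l 16246832) (b (l 15862848) (l 15648736)))) (b (l 16244304) (c (l 16362168) (b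 (l 16351936) (l 16075800)))))))) (a (c (b (b (c (a (l 15892584) (l 16231640)) (a (l 15534056) (l 15854952))) (c (a (l 15624504) (c (l 15979272) (l 15815688))) (l 15447288))) (b (a (l 15309400) (l 15518880)) (l 15280168))) (b (c (b (l 15322504) (l 15145120)) (l 14900136)) (a (l 14786744) (l 14956288)))) (b (c (b (c (l 16396496) (a (l 16210680) (l 16390080))) (c (a (l 16194264) (l 16417104)) (a (l 15859960) (l 16147432)))) (c (b (a (b (l 15904688) (l 15727952)) (b (l 16282968) (l 16066848))) (l 15667480)) (l 15445328))) (c (c (b (a (l 15897992) (l 16139808)) (l 15778432)) (l 15623248)) (l 15249664))))), by decide +kernel⟩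

def k10_pm_101 : ∃ t, chk3 f_pm_101 t 62 16 3 = true :=
  ⟨(b (b (c (b (c (l 14139016) (l 13520688)) (c (b (a (l 13847608) (l 14388664)) (l 14050632)) (b (l 13544008) (l 13558920)))) (b (c (b (l 12834640) (l 12923584)) (b (c (l 12332400) (l 11995896)) (l 12324200))) (c (l 13047608) (l 12550960)))) (c (b (a (c (l 13838600) (l 13468408)) (c (l 14237768) (l 13782192))) (a (l 13717528) (l 14013008))) (a (l 13018872) (l 13197584)))) (c (b (a (l 13825408) (c (l 14201920) (l 13920160))) (l 14023856)) (b (l 13386376) (l 13587128)))), by decide +kernel⟩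

def k11_pm_101 : ∃ t, chk3 f_pm_101 t 63 32 6 = true :=
  ⟨(a (b (c (a (b (c (a (l 15534240) (l 16011912)) (a (l 15063072) (l 15480688))) (c (b (l 15275608) (l 15062800)) (b (l 14889640) (l 14725352)))) (a (b (c (l 16476104) (l 16020176)) (c (l 15631432) (l 15226872))) (b (l 16420920) (b (l 16024080) (l 15620104))))) (b (a (l 14503736) (c (a (l 15408544) (l 16025472)) (b (l 15260696) (l 14859736)))) (a (l 14255688) (c (a (l 14817056) (l 15135016)) (l 14540920))))) (c (a (b (c (l 14836512) (l 14561592)) (c (l 14665424) (l 14454048))) (b (l 15116320) (l 14868888))) (a (l 14142760) (a (l 14369504) (l 14754488))))) (b (c (b (l 16371792) (a (b (c (l 16372672) (a (l 16281888) (l 16357440))) (c (l 16368992) (l 15990304))) (l 16321224))) (b (a (c (l 16303360) (a (b (l 16406304) (l 15654776)) (l 16261632))) (l 16330488)) (c (a (b (l 15997296) (l 15537208)) (l 16197552)) (a (b (l 15416240) (l 15081312)) (b (l 16320144) (l 15926352)))))) (a (c (b (b (l 15804792) (l 15525192)) (l 15247384)) (l 14850144))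 (b (c (b (l 16340744) (c (l 16260624) (l 15942552))) (l 15575456)) (l 15441160))))), by decide +kernel⟩

def k12_pm_101 : ∃ t, chk3 f_pm_101 t 63 32 7 = true :=
  ⟨(a (b (b (c (b (l 13758064) (l 13700432)) (b (l 12452264) (l 12654840))) (c (l 13699296) (l 12924488))) (l 13543728)) (b (c (a (a (b (b (l 14992040) (l 14557384)) (l 14297488)) (b (c (b (l 16370144) (l 15569480)) (b (l 15356656) (l 14705920))) (c (l 14912312) (l 14380776)))) (b (b (a (c (l 16341824) (l 16333960)) (l 16311064)) (c (l 16252096) (a (l 15451368) (l 16302128)))) (c (b (l 15922536) (l 15421344)) (l 14706152)))) (a (b (b (l 13108752) (l 13232128)) (l 13444560)) (b (c (a (b (c (l 15739104) (l 14916440)) (l 14420896)) (b (b (l 16304456) (l 16299592)) (l 15044328))) (a (l 13502592) (b (c (a (l 14754528) (l 15820232)) (a (l 13482592) (l 13831568))) (l 13589464)))) (a (l 13942776) (c (l 14721400) (l 14137072)))))) (a (c (c (l 14430288) (l 14151048)) (l 13726680)) (c (l 14753656) (a (l 14071856) (l 14365456)))))), by decide +kernel⟩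

def k13_pm_101 : ∃ t, chk3 f_pm_101 t 63 33 3 = true :=
  ⟨(a (c (a (c (b (l 14476472) (c (l 14511056) (l 14392760))) (l 14183352)) (c (b (l 14697232) (l 14612816)) (b (c (l 14457072) (l 14291592)) (l 14377672)))) (l 13854432)) (c (a (c (l 14859544) (l 14586864)) (l 14968760)) (a (c (a (l 14250624) (l 14371008)) (l 14026072)) (c (l 14568136) (a (l 14235544) (l 14396248)))))), by decide +kernel⟩

def k14_pm_101 : ∃ t, chk3 f_pm_101 t 31 17 1 = true :=
  ⟨(a (c (a (c (b (a (c (a (l 14675760) (l 14729896)) (l 14550288)) (c (l 14799928) (a (l 14616624) (l 14670528)))) (c (a (c (l 14736816) (l 14666808)) (b (l 14770768) (l 14765656))) (a (l 14572992) (b (l 14643408) (l 14643520))))) (b (b (l 14356576) (l 14383752)) (l 14418048))) (c (b (a (c (l 14885504) (l 14740160)) (l 14905424)) (c (l 14835944) (a (l 14699856) (l 14746224)))) (b (c (a (b (l 14585704) (c (l 14616672) (l 14532576))) (l 14675376)) (a (l 14406104) (b (l 14514232) (l 14500920)))) (c (a (l 14569704) (l 14629592)) (l 14672184))))) (b (a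 (l 13898688) (l 14025048)) (l 14084008))) (a (c (b (c (l 15075384) (c (l 14828480) (a (l 14607360) (l 14721776)))) (c (b (l 14937952) (l 14879264)) (a (l 14617656) (l 14689176)))) (c (a (c (b (l 14435272) (l 14422840)) (l 14270792)) (c (b (l 14553296) (l 14494744)) (b (l 14379104) (l 14361656)))) (b (l 14044632) (l 14117120)))) (c (b (b (c (a (l 15361272) (l 15510784)) (l 15072016)) (l 15105672)) (c (l 15077760) (l 14826752))) (c (b (a (l 14609088) (l 14775384)) (l 14571088)) (c (a (b (a (l 14315632) (l 14398288)) (l 14318248)) (b (l 14537288) (l 14439384))) (a (l 14198088) (b (a (l 14328360) (l 14438296)) (a (l 14274768) (l 14347992))))))))), by decide +kernel⟩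

def k15_pm_101 : ∃ t, chk3 f_pm_101 t 30 9 1 = true :=
  ⟨(a (l 3) (a (l 3) (b (c (b (c (l 14678480) (l 14498368)) (a (l 14798944) (l 14806968))) (b (l 14225584) (l 14529472))) (c (b (b (a (l 14963824) (l 15003168)) (a (l 15023528) (l 15010360))) (c (l 15112320) (l 15028840))) (b (b (l 14745568) (l 14822896)) (l 14902648)))))), by decide +kernel⟩

def k16_pm_101 : ∃ t, chk3 f_pm_101 t 31 9 1 = true :=
  ⟨(b (a (c (a (a (c (c (b (l 14786480) (l 14944464)) (l 14761224)) (l 14639776)) (c (c (b (l 14824832) (l 14965184)) (b (l 14719256) (l 14884152))) (l 14658656))) (c (b (l 14805864) (l 14928608)) (a (b (l 14600216) (l 14996496)) (c (l 14762752) (b (l 14584664) (l 14767552)))))) (b (l 14281632) (l 14555504))) (c (a (c (l 14908016) (b (l 14685048) (l 14823856))) (b (l 14879104) (l 14941496))) (a (c (a (b (l 14469296) (l 14677280)) (c (l 14646696) (b (l 14463392) (l 14667144)))) (l 14417032)) (c (b (l 14591936) (l 14746832)) (a (b (l 14360608) (l 14589016)) (c (l 14573744) (a (l 14478056) (l 14509920))))))))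 (a (c (a (c (b (a (a (b (l 15024160) (l 15059160)) (c (b (l 15075168) (l 15103704)) (l 15176584))) (c (b (l 15080680) (l 15105176)) (b (l 15014232) (l 15043352)))) (a (c (l 15135840) (l 15068192)) (c (l 15128376) (l 15135008)))) (b (b (l 14910200) (l 14951128)) (l 14994624))) (c (b (b (a (l 15140960) (l 15034600)) (l 15056360)) (a (c (l 15095000) (l 15062536)) (l 15051512))) (b (a (c (b (l 14960608) (l 14990512)) (l 14907704)) (c (l 14981664) (b (l 14909720) (l 14940312)))) (a (c (l 15197872) (l 14948104)) (c (l 14998992) (l 14948664)))))) (b (a (l 14773856) (l 14780112)) (a (l 14862656) (l 14831640)))) (c (a (c (b (l 15044248) (l 15035072)) (b (a (l 14949360) (l 14954064)) (a (l 14955232) (l 14948360)))) (b (l 15022224) (l 14998536))) (a (c (a (b (c (l 14878528) (l 14819568)) (l 14867936)) (c (l 14887512) (b (l 14837256) (l 14843840)))) (l 14763400)) (c (b (l 14884464) (l 14872904)) (a (c (b (l 14801432) (l 14801824)) (l 14757472)) (c (l 14821512) (a (l 14769408) (l 14782440))))))))), by decide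 +kernel⟩

def k17_pm_101 : ∃ t, chk3 f_pm_101 t 7 5 1 = true :=
  ⟨(a (l 3) (a (a (l 3) (a (l 3) (b (c (b (c (a (l 15230744) (l 15213432)) (l 15160208)) (c (l 15369888) (l 15328216))) (b (l 15066816) (l 15265528))) (b (c (l 15464216) (l 15451744)) (c (l 15592072) (l 15550232)))))) (a (c (b (a (c (c (a (b (c (l 15250608) (l 15214936)) (l 15377512)) (b (l 15225824) (l 15365240))) (a (l 15211208) (b (l 15180824) (l 15330568)))) (b (l 15121536) (l 15287384))) (c (b (c (l 15166784) (l 15138560)) (l 15293488)) (c (a (b (l 15122616) (l 15281864)) (l 15178128)) (b (l 15070400) (l 15240056))))) (a (b (c (c (a (l 15523416) (l 15510776)) (l 15468336)) (l 15450992)) (c (c (l 15532816) (l 15573744)) (l 15539920))) (c (b (l 15441520) (l 15524352)) (b (c (l 15323320) (l 15407120)) (c (l 15516000) (l 15498064)))))) (b (b (l 15002016) (l 15199776)) (b (l 15385840) (l 15484592)))) (c (b (a (c (b (l 15092016) (l 15229944)) (b (a (l 15045072) (l 15014440)) (l 15192832))) (b (b (l 14988208) (l 15047248)) (l 15156320)))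 (b (c (l 15352152) (a (l 15355472) (l 15295136))) (c (l 15435008) (l 15394816)))) (b (a (c (a (b (l 14979544) (l 15165280)) (c (l 15056464) (b (l 14934280) (l 15124616)))) (l 14995544)) (c (b (b (l 14873888) (l 14953520)) (l 15088032)) (b (a (c (l 14869176) (l 14834400)) (c (l 14848992) (b (l 14764368) (l 14856208)))) (a (l 15050264) (c (l 15037344) (l 15012256)))))) (a (c (b (c (l 15206608) (l 15318416)) (c (l 15426888) (l 15416232))) (l 15345432)) (c (b (l 15266472) (l 15363056)) (b (a (l 15244792) (l 15197832)) (a (l 15347920) (l 15322376)))))))))), by decide +kernel⟩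

def k18_pm_101 : ∃ t, chk3 f_pm_101 t 3 3 1 = true :=
  ⟨(a (l 3) (a (l 3) (a (b (a (l 3) (a (l 3) (b (c (l 15592144) (l 15550320)) (l 3)))) (l 3)) (b (a (c (c (a (b (c (l 15596544) (l 15574336)) (l 15583960)) (b (l 15525504) (l 15526832))) (a (l 15540208) (b (c (l 15517376) (l 15499272)) (l 15507560)))) (b (l 15485176) (l 15485704))) (c (c (l 15438144) (a (l 15447832) (l 15388960))) (a (c (b (c (l 15428728) (l 15418128)) (l 15421224)) (l 15399264)) (c (l 15367376) (b (a (l 15350272) (l 15325392)) (l 15174832)))))) (a (c (c (a (b (l 15584352) (l 15584568)) (l 15528576)) (a (l 15540384) (b (l 15508904) (l 15510144)))) (b (l 15486136) (l 15486480))) (c (c (l 15442696) (b (l 15423120) (l 15425448))) (c (a (b (l 15423120) (l 15341032)) (l 15373520)) (a (l 15403344) (b (a (l 15355624) (l 15332312)) (a (l 15358056) (l 15335440))))))))))), by decide +kernel⟩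

theorem s19_pm_101 : ∃ t, chk3 f_pm_101 t 15 9 1 = true := ex3_a k15_pm_101 k16_pm_101

theorem s20_pm_101 : ∃ t, chk3 f_pm_101 t 63 32 3 = true := ex3_c k11_pm_101 k12_pm_101

theorem s21_pm_101 : ∃ t, chk3 f_pm_101 t 63 16 3 = true := ex3_b s20_pm_101 k13_pm_101

theorem s22_pm_101 : ∃ t, chk3 f_pm_101 t 31 16 3 = true := ex3_a k10_pm_101 s21_pm_101

theorem s23_pm_101 : ∃ t, chk3 f_pm_101 t 62 32 2 = true := ex3_a k6_pm_101 k7_pm_101

theorem s24_pm_101 : ∃ t, chk3 f_pm_101 t 62 16 2 = true := ex3_b s23_pm_101 k8_pm_101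

theorem s25_pm_101 : ∃ t, chk3 f_pm_101 t 31 16 2 = true := ex3_a s24_pm_101 k9_pm_101

theorem s26_pm_101 : ∃ t, chk3 f_pm_101 t 31 16 1 = true := ex3_c s25_pm_101 s22_pm_101

theorem s27_pm_101 : ∃ t, chk3 f_pm_101 t 31 8 1 = true := ex3_b s26_pm_101 k14_pm_101

theorem s28_pm_101 : ∃ t, chk3 f_pm_101 t 61 8 1 = true := ex3_a k4_pm_101 k5_pm_101

theorem s29_pm_101 : ∃ t, chk3 f_pm_101 t 30 8 1 = true := ex3_a k3_pm_101 s28_pm_101

theorem s30_pm_101 : ∃ t, chk3 f_pm_101 t 15 8 1 = true := ex3_a s29_pm_101 s27_pm_101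

theorem s31_pm_101 : ∃ t, chk3 f_pm_101 t 15 4 1 = true := ex3_b s30_pm_101 s19_pm_101

theorem s32_pm_101 : ∃ t, chk3 f_pm_101 t 7 4 1 = true := ex3_a k2_pm_101 s31_pm_101

theorem s33_pm_101 : ∃ t, chk3 f_pm_101 t 7 2 1 = true := ex3_b s32_pm_101 k17_pm_101

theorem s34_pm_101 : ∃ t, chk3 f_pm_101 t 3 2 1 = true := ex3_a k1_pm_101 s33_pm_101

theorem s35_pm_101 : ∃ t, chk3 f_pm_101 t 3 1 1 = true := ex3_b s34_pm_101 k18_pm_101

theorem s36_pm_101 : ∃ t, chk3 f_pm_101 t 1 1 1 = true := ex3_a k0_pm_101 s35_pm_101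

theorem c_pm_101 : CertNX 536870912 536870912 0 536870912 1046898278 26843546 3 true true false .npn 1 0 1
    ndN0q1 ndN5q0 pcN1 Cut.none Ext.none :=
  certNX2 (fam := true) (s1 := true) (s2 := false) (a := 1) (b := 0) (c := 1) (cn := .npn) (n1 := ndN0q1) (n2 := ndN5q0) (pc := pcN1) (cut := Cut.none) (xt := Ext.none) (P1 := 536870912) (W1 := 536870912) (P2 := 0) (W2 := 536870912) (P3 := 1046898278) (W3 := 26843546) (N0 := 3)
    rfl (fun _ => rfl) s36_pm_101

noncomputable def f_pm_102 : ℕ → ℕ → ℕ → ℕ → Bool := onCell 536870912 536870912 1073741824 536870912 1046898278 26843546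
    (rowNX 3 1 true true false .npp 1 0 2 (qsf 536870912 536870912 0 536870912 2) ndN0q1 ndN5q0 pcN2 Cut.none Ext.none)

def k0_pm_102 : ∃ t, chk3 f_pm_102 t 2 4 1 = true :=
  ⟨(b (c (b (b (a (b (c (a (l 15612024) (l 15625864)) (a (l 15408816) (l 15609800))) (c (b (a (l 15646832) (l 15656904)) (l 15642368)) (l 15628968))) (c (a (b (l 15645656) (l 15676432)) (b (l 15673464) (l 15689312))) (a (l 15639216) (l 15615976)))) (a (c (a (b (l 15666968) (l 15658688)) (c (l 15672216) (l 15651384))) (l 15615192)) (a (l 15637824) (c (l 15659608) (l 15619984))))) (a (c (a (b (l 15623200) (l 15557088)) (l 15524144)) (b (l 15566752) (l 15511720))) (b (c (l 15574904) (l 15536592)) (c (a (l 15485416) (l 15444688)) (l 15437416))))) (a (b (b (c (a (l 15571560) (l 15588928)) (a (l 15536024) (l 15554664))) (a (l 15555696) (l 15559776))) (a (l 15518080) (l 15494240))) (b (b (c (b (l 15618888) (l 15618040)) (a (l 15574624) (l 15596200))) (c (l 15579176) (l 15551504))) (a (l 15468528) (b (l 15490056) (l 15381304))))))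 (a (a (b (b (c (l 15552584) (l 15509560)) (l 2)) (l 2)) (b (c (c (l 15480160) (l 15478856)) (c (l 15456256) (l 15433320))) (c (b (b (l 15399888) (l 15346760)) (l 15164752)) (b (l 15158232) (l 15108152))))) (c (b (a (b (l 15411392) (l 15186416)) (b (l 15226152) (c (l 15229176) (l 15202168)))) (a (b (b (l 15272400) (l 15162200)) (l 14968320)) (b (b (l 14939664) (l 14959656)) (a (l 14809008) (l 14697632))))) (b (a (b (l 15363416) (l 15304224)) (b (l 15280224) (l 15160864))) (b (b (a (l 15219584) (l 15027120)) (l 14769096)) (a (l 14904832) (l 14673488))))))), by decide +kernel⟩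

def k1_pm_102 : ∃ t, chk3 f_pm_102 t 6 8 1 = true :=
  ⟨(b (a (c (b (b (a (l 15681824) (c (l 15642304) (l 15618016))) (a (c (l 15699784) (l 15673320)) (c (a (l 15697912) (l 15655152)) (l 15645728)))) (a (c (l 15659136) (l 15621656)) (c (b (l 15668072) (l 15631136)) (l 15610680)))) (b (c (a (l 15643984) (b (l 15590688) (l 15609776))) (a (l 15613776) (b (l 15557456) (l 15573064)))) (c (a (l 15585120) (l 15574536)) (l 15551600)))) (c (b (b (a (c (l 15522064) (l 15482960)) (c (l 15406704) (l 15283864))) (a (c (l 15569680) (l 15529008)) (c (a (l 15497272) (l 15481168)) (a (l 15443552) (l 15419136))))) (a (c (l 15574720) (l 15530848)) (c (a (l 15509424) (l 15460520)) (l 15448272)))) (b (b (a (c (l 15440848) (l 15393032)) (c (a (l 15329344) (l 15281480)) (a (l 15266048) (l 15207248)))) (a (l 15460144) (c (l 15365832) (l 15300632)))) (a (l 15428936) (c (l 15392192) (l 15343096)))))) (c (a (b (c (l 15544496) (l 15510056)) (c (b (l 15436648) (l 15358160)) (l 15371936))) (b (a (c (l 15454864) (l 15376848))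 (c (l 15439504) (l 15247688))) (a (c (b (l 15396432) (l 15312464)) (l 15326888)) (c (b (l 15346256) (l 15267136)) (l 15275000))))) (a (b (l 15472384) (l 15335072)) (a (b (l 15417672) (l 15287632)) (b (l 15335720) (l 15225504)))))), by decide +kernel⟩

def k2_pm_102 : ∃ t, chk3 f_pm_102 t 6 9 1 = true :=
  ⟨(b (a (c (b (c (l 15254536) (l 15227968)) (c (l 15012792) (l 15046024))) (b (l 15187336) (l 14854064))) (a (b (c (c (l 15179840) (l 15151968)) (l 15109344)) (c (b (l 14992888) (c (l 14891992) (l 14859008))) (b (l 14930544) (l 14809296)))) (b (c (b (a (l 15169344) (l 15158848)) (a (l 15064240) (l 14990064))) (b (l 15100576) (a (l 15002968) (l 14989472)))) (b (c (a (l 14946856) (a (l 14940296) (l 14980272))) (a (l 14882392) (l 14900288))) (l 14830560))))) (a (b (c (b (a (l 14933848) (b (l 14854736) (l 14788080))) (a (l 14793968) (l 14708552))) (b (a (l 14869144) (l 14753784)) (l 14658856))) (c (a (c (l 14624344) (l 14586632)) (b (l 14617376) (l 14532872))) (a (l 14530160) (l 14504952)))) (b (a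 (b (c (b (l 14797832) (l 14689496)) (l 14708360)) (l 14650144)) (l 14708072)) (l 14544512)))), by decide +kernel⟩

def k3_pm_102 : ∃ t, chk3 f_pm_102 t 14 8 1 = true :=
  ⟨(b (b (a (c (b (a (l 15435800) (c (l 15529768) (l 15458104))) (c (l 15541872) (l 15522544))) (b (c (b (l 15322792) (l 15391456)) (b (l 15223136) (l 15315672))) (c (l 15455376) (l 15387200)))) (a (c (b (c (l 15538080) (l 15443736)) (c (b (l 15662928) (l 15717064)) (l 15372376))) (b (c (l 15346448) (l 15244040)) (c (l 15553400) (l 15481752)))) (c (b (c (l 15555888) (l 15415232)) (c (l 15743248) (l 15653216))) (b (c (l 15271400) (l 15122240)) (l 15448712))))) (a (c (c (b (l 15620784) (l 15621424)) (l 15570560)) (c (l 15517680) (l 15470712))) (c (a (b (c (l 15760192) (l 15711808)) (l 15753216)) (b (l 15824032) (l 15805080))) (a (b (l 15617288) (l 15687352)) (b (l 15713880) (l 15821192)))))) (b (c (a (c (l 15571856) (l 15535424)) (c (a (l 15723512) (l 15744440)) (b (l 15785248) (l 15686832)))) (a (l 15487416) (b (l 15770120) (l 15671584))))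 (c (a (c (b (l 15477496) (l 15391512)) (l 15403720)) (c (b (l 15557000) (c (l 15420440) (l 15411880))) (b (l 15542520) (l 15399200)))) (a (l 15347856) (b (l 15521120) (l 15373280)))))), by decide +kernel⟩

def k4_pm_102 : ∃ t, chk3 f_pm_102 t 30 16 1 = true :=
  ⟨(b (c (a (b (a (b (a (l 15464600) (l 15515304)) (c (l 15700816) (l 15544048))) (c (l 15766536) (l 15581544))) (b (a (l 15738888) (a (l 15903528) (l 15887848))) (c (l 15941064) (l 15845768)))) (b (c (a (l 15911240) (l 16085832)) (b (l 15702728) (l 15871160))) (c (a (l 16105800) (l 16258296)) (a (l 16004360) (l 16167024))))) (a (a (b (b (c (l 15185304) (l 14977056)) (c (l 15382984) (l 15215744))) (l 15564472)) (b (c (l 15390832) (l 15194608)) (c (l 15734200) (l 15615992)))) (b (c (b (l 15466048) (l 15702416)) (b (l 15220360) (l 15526608))) (c (l 15983208) (l 15882248))))) (c (a (b (l 15995888) (l 16047528)) (b (a (c (b (l 16210064) (l 16241888)) (l 16187976)) (c (l 16311520) (l 16338008))) (a (l 16129768) (a (l 16069304) (a (l 16149216)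 (l 15999192)))))) (a (b (l 15874968) (l 16024992)) (b (a (c (l 16145008) (l 16106712)) (l 16325312)) (a (l 16102608) (b (l 16205928) (l 16087840))))))), by decide +kernel⟩

def k5_pm_102 : ∃ t, chk3 f_pm_102 t 31 32 2 = true :=
  ⟨(a (c (a (b (c (l 16420944) (l 16267176)) (c (l 16463384) (l 16408552))) (b (b (a (l 16624064) (l 16781384)) (l 16593592)) (b (l 16622560) (l 16607664)))) (b (a (l 16061136) (c (a (l 16349416) (l 16543264)) (l 16282920))) (a (l 16342160) (c (l 16509472) (b (l 16485624) (l 16511824)))))) (b (a (a (c (b (l 16743592) (l 16731224)) (b (c (l 16775016) (l 16638264)) (l 16640280))) (c (b (l 16728968) (l 16704160)) (b (c (l 16743560) (l 16753128)) (l 16722808)))) (b (c (l 16647336) (a (b (l 16752528) (l 16731816)) (l 16772440))) (c (a (l 16696464) (l 16715040)) (a (c (l 16707648) (l 16710248)) (b (l 16720624) (l 16696056)))))) (a (c (b (c (l 16692328) (l 16688672)) (l 16631480)) (c (l 16639824) (l 16616080))) (c (b (a (l 16664312) (b (l 16662816) (l 16638864))) (c (l 16597280)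 (l 16628600))) (b (a (l 16674056) (c (l 16664632) (l 16665232))) (c (l 16603080) (l 16608904))))))), by decide +kernel⟩

def k6_pm_102 : ∃ t, chk3 f_pm_102 t 31 32 3 = true :=
  ⟨(a (b (c (b (a (l 15658632) (l 15898464)) (l 16048624)) (b (l 15275080) (l 15845264))) (c (l 16382264) (l 16325144))) (c (a (b (a (c (b (l 16348472) (l 16492360)) (l 16247552)) (c (b (l 16692408) (l 16683960)) (b (l 16374072) (l 16632800)))) (c (a (l 16560616) (l 16576528)) (a (l 16553008) (l 16576368)))) (b (b (a (c (b (l 16756576) (l 16739920)) (a (l 16666408) (b (l 16759568) (l 16748448)))) (b (l 16773824) (c (l 16743672) (l 16639152)))) (a (c (l 16716184) (l 16704264)) (c (b (l 16721808) (l 16700048)) (b (l 16719488) (l 16699888))))) (a (c (l 16612552) (l 16569496)) (b (l 16655056) (l 16566848))))) (a (b (b (c (l 15960840) (l 15690200)) (l 16413656)) (l 16550024)) (b (c (a (b (a (l 16339016) (c (l 16654016) (l 16522072))) (l 16656992)) (b (b (a (l 16760728) (l 16767704)) (a (l 16741352) (l 16741312))) (l 16697240)))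 (a (b (l 16729312) (l 16668152)) (b (c (a (l 16616768) (b (l 16763256) (l 16736784))) (a (l 16737400) (b (c (l 16759576) (l 16756456)) (l 16728776)))) (a (l 16674304) (l 16684936))))) (a (c (c (l 16533128) (l 16572104)) (l 16569008)) (c (l 16547104) (l 16495272))))))), by decide +kernel⟩

def k7_pm_102 : ∃ t, chk3 f_pm_102 t 31 33 1 = true :=
  ⟨(c (a (c (a (b (c (l 16421184) (l 16358392)) (c (l 16258960) (l 16248688))) (b (l 16457784) (l 16288672))) (a (l 16154496) (c (b (l 16314456) (l 16260416)) (l 16182448)))) (b (c (a (l 16447296) (b (l 16510568) (l 16441880))) (a (l 16351408) (l 16346032))) (c (l 16212040) (a (l 16270120) (l 16298864))))) (a (c (b (l 16370976) (l 16210960)) (l 16285800)) (c (a (c (a (l 16191048) (l 16282456)) (a (l 16320392) (l 16233208))) (b (c (l 16450960) (l 16434696)) (l 16221248))) (a (l 16319848) (a (c (l 16274040) (l 16334952)) (c (l 16343040) (l 16107400))))))), by decide +kernel⟩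

def k8_pm_102 : ∃ t, chk3 f_pm_102 t 15 17 1 = true :=
  ⟨(a (b (c (a (b (l 15822848) (c (l 15586368) (l 15565680))) (c (a (l 15727464) (l 15618736)) (b (l 15881840) (l 15596800)))) (a (b (l 15789944) (l 15535640)) (b (l 15857728) (l 15565992)))) (a (b (c (c (l 15256736) (l 15359264)) (l 15324064)) (l 15182520)) (a (l 15163024) (l 15167592)))) (b (a (c (c (a (b (a (l 15843672) (c (l 16096504) (l 16069152))) (l 15681840)) (b (l 16090032) (a (l 15853056) (l 15886712)))) (a (b (l 15965544) (l 15746008)) (b (l 15856072) (a (l 15838248) (l 15881320))))) (b (a (l 15986152) (l 16033640)) (a (l 15718584) (l 15813480)))) (c (b (c (l 16130512) (a (l 16075320) (l 16095016))) (a (l 15851736) (l 15916392))) (a (c (b (a (l 16061744) (l 16059496)) (l 15860656)) (l 15949168)) (c (l 15890016) (b (a (l 16049576) (l 15957768)) (a (l 15849952) (l 15862408))))))) (a (c (a (c (l 15366968) (l 15318792)) (c (l 15469088) (l 15449032))) (l 15340608)) (c (a (b (a (l 15664224) (l 15699120)) (l 15422872)) (b (l 15722032)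 (l 15491976))) (a (c (a (l 15496560) (b (l 15629848) (l 15417328))) (l 15463128)) (c (b (l 15688760) (l 15481304)) (b (a (l 15658984) (l 15670984)) (a (l 15435112) (c (l 15490032) (l 15477608)))))))))), by decide +kernel⟩

def k9_pm_102 : ∃ t, chk3 f_pm_102 t 7 9 1 = true :=
  ⟨(a (a (b (b (c (b (c (l 15301112) (l 15282576)) (a (l 15149104) (l 15258072))) (b (l 15254544) (l 15174816))) (l 15069320)) (c (l 14846352) (l 14821640))) (b (a (l 15117824) (l 15006400)) (l 14603640))) (a (a (b (l 14837752) (l 14344472)) (b (a (l 14670752) (c (l 14495384) (l 14565968))) (c (l 14147816) (l 14069880)))) (b (a (c (a (b (b (l 14944704) (l 14707192)) (l 14508408)) (c (b (l 14937184) (l 14523368)) (b (l 14907256) (l 14485712)))) (b (l 14807496) (l 14413832))) (c (b (a (l 15021368) (l 15132968)) (l 14455336)) (c (a (b (l 14973984) (l 14345024)) (b (l 15093456) (l 14557976))) (a (l 14688976) (a (l 14562232) (a (l 14693152) (l 14683848))))))) (a (c (c (a (l 14149008) (l 14119024)) (l 14075320)) (l 13995992)) (c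 (l 14023024) (a (l 13742840) (c (l 13984096) (a (l 13923440) (l 13928176))))))))), by decide +kernel⟩

def k10_pm_102 : ∃ t, chk3 f_pm_102 t 2 5 1 = true :=
  ⟨(a (a (l 2) (b (b (b (c (l 14926272) (l 14861304)) (l 2)) (l 2)) (l 2))) (b (a (b (b (c (l 14714056) (l 14641640)) (c (b (l 14697120) (c (l 14895680) (l 14863224))) (b (l 14624112) (l 14811256)))) (c (b (a (l 15225976) (l 15165584)) (c (l 15654488) (l 15634768))) (b (l 15139664) (l 15605624)))) (b (b (c (a (l 14534736) (c (l 14474320) (l 14433992))) (a (l 14456896) (l 14373512))) (b (c (a (l 14542200) (l 14515160)) (l 14460296)) (a (c (l 14778640) (l 14708008)) (l 14733272)))) (b (a (c (l 15151048) (l 15092944)) (l 15119216)) (l 15611768)))) (b (a (a (l 2) (l 16286040)) (l 16245792)) (l 16776560)))), by decide +kernel⟩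

def k11_pm_102 : ∃ t, chk3 f_pm_102 t 3 5 1 = true :=
  ⟨(a (b (b (b (a (a (c (b (l 14465448) (l 14389008)) (l 14350624)) (l 14386144)) (l 14401808)) (a (l 14608576) (l 14627040))) (a (l 15374144) (l 15347864))) (b (a (l 16311192) (l 16217432)) (a (l 16776568) (l 16767840)))) (b (a (b (b (a (l 14615224) (l 14307592)) (a (l 14841240) (l 14454656))) (a (l 15477352) (l 15072328))) (a (b (b (a (l 14019096) (l 13759472)) (a (l 14127408) (l 13871976))) (a (l 14711488) (a (l 14491936) (l 14397648)))) (b (b (a (c (a (l 13768784) (l 13489880)) (l 13627104)) (c (l 13687840) (a (l 13569024) (c (l 13590880) (l 13529360))))) (a (c (a (l 13883288) (l 13835456)) (l 13744512)) (c (l 13799088) (a (l 13684928) (c (l 13702792) (l 13642952)))))) (a (c (a (l 14436440) (l 14230984)) (l 14322808)) (c (l 14376376) (a (l 14216976) (c (l 14301312) (l 14252680)))))))) (a (b (a (l 16184968) (l 15829936)) (l 16314168)) (a (b (a (l 15496248) (l 15198704)) (a (l 15887848) (l 15606920))) (b (a (c (c (l 14919136) (l 15122168))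 (l 15070856)) (c (l 15080144) (a (c (l 15036328) (l 15008032)) (c (l 15023056) (l 14967688))))) (a (c (l 15377696) (l 15486416)) (c (l 15447000) (c (l 15347984) (l 15381136))))))))), by decide +kernel⟩

def k12_pm_102 : ∃ t, chk3 f_pm_102 t 1 3 1 = true :=
  ⟨(a (b (a (l 2) (l 16777216)) (l 2)) (a (b (a (l 16777216) (l 16768224)) (l 16772512)) (b (a (a (l 16519464) (l 16196936)) (a (a (l 15888384) (b (l 15607488) (l 15607488))) (c (a (b (l 15525080) (l 15525080)) (l 15447504)) (a (l 15487024) (b (a (l 15407176) (l 15376032)) (l 15395384)))))) (a (l 16356592) (a (b (l 15693400) (l 15693400)) (c (a (l 15504104) (l 15447504)) (a (l 15487024) (b (l 15395384) (l 15395384))))))))), by decide +kernel⟩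

theorem s13_pm_102 : ∃ t, chk3 f_pm_102 t 1 5 1 = true := ex3_a k10_pm_102 k11_pm_102

theorem s14_pm_102 : ∃ t, chk3 f_pm_102 t 31 32 1 = true := ex3_c k5_pm_102 k6_pm_102

theorem s15_pm_102 : ∃ t, chk3 f_pm_102 t 31 16 1 = true := ex3_b s14_pm_102 k7_pm_102

theorem s16_pm_102 : ∃ t, chk3 f_pm_102 t 15 16 1 = true := ex3_a k4_pm_102 s15_pm_102

theorem s17_pm_102 : ∃ t, chk3 f_pm_102 t 15 8 1 = true := ex3_b s16_pm_102 k8_pm_102

theorem s18_pm_102 : ∃ t, chk3 f_pm_102 t 7 8 1 = true := ex3_a k3_pm_102 s17_pm_102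

theorem s19_pm_102 : ∃ t, chk3 f_pm_102 t 7 4 1 = true := ex3_b s18_pm_102 k9_pm_102

theorem s20_pm_102 : ∃ t, chk3 f_pm_102 t 6 4 1 = true := ex3_b k1_pm_102 k2_pm_102

theorem s21_pm_102 : ∃ t, chk3 f_pm_102 t 3 4 1 = true := ex3_a s20_pm_102 s19_pm_102

theorem s22_pm_102 : ∃ t, chk3 f_pm_102 t 1 4 1 = true := ex3_a k0_pm_102 s21_pm_102

theorem s23_pm_102 : ∃ t, chk3 f_pm_102 t 1 2 1 = true := ex3_b s22_pm_102 s13_pm_102

theorem s24_pm_102 : ∃ t, chk3 f_pm_102 t 1 1 1 = true := ex3_b s23_pm_102 k12_pm_102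

theorem c_pm_102 : CertNX 536870912 536870912 0 536870912 1046898278 26843546 3 true true false .npp 1 0 2
    ndN0q1 ndN5q0 pcN2 Cut.none Ext.none :=
  certNX1 (fam := true) (s1 := true) (s2 := false) (a := 1) (b := 0) (c := 2) (cn := .npp) (n1 := ndN0q1) (n2 := ndN5q0) (pc := pcN2) (cut := Cut.none) (xt := Ext.none) (P1 := 536870912) (W1 := 536870912) (P2 := 0) (W2 := 536870912) (P3 := 1046898278) (W3 := 26843546) (N0 := 3)
    rfl (fun _ => rfl) s24_pm_102

noncomputable def f_pm_112 : ℕ → ℕ → ℕ → ℕ → Bool := onCell 1073741824 536870912 536870912 469762048 1046898278 26843546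
    (rowNX 3 2 true true false .dn 1 1 2 (qsf 536870912 536870912 536870912 469762048 2) ndN0q1 ndN5q1 pcN2 Cut.none Ext.none)

def k0_pm_112 : ∃ t, chk3 f_pm_112 t 4 1 1 = true :=
  ⟨(b (b (b (a (a (c (a (a (c (l 15598720) (l 226590156871)) (c (l 15647288) (l 15575952))) (c (l 15494224) (l 15613464))) (a (c (l 15558808) (l 15522336)) (l 15553640))) (c (a (c (l 15627128) (l 15577360)) (l 15461360)) (l 15499928))) (a (c (c (l 15559408) (l 15538144)) (c (l 15516576) (l 15494688))) (c (a (a (l 15500480) (l 15389080)) (l 15172968)) (a (l 15146056) (l 15116656))))) (a (a (l 1) (c (c (a (l 1) (c (l 15598440) (l 15577528))) (l 15580328)) (l 557839601911))) (a (a (c (l 15553248) (l 15553656)) (c (l 15538648) (l 15603696))) (c (a (a (l 15634728) (l 15536560)) (l 15332208)) (a (l 15291880) (l 15281488)))))) (b (a (l 1) (a (l 1) (c (a (a (l 1) (l 15676000)) (l 15482496)) (a (l 447244329319) (l 15437048))))) (l 1))) (l 1)), by decide +kernel⟩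

def k1_pm_112 : ∃ t, chk3 f_pm_112 t 5 1 1 = true :=
  ⟨(b (a (a (b (a (b (c (l 14884184) (l 14817744)) (c (l 15059424) (l 14999128))) (c (a (b (l 14823920) (l 14992968)) (b (l 14971216) (l 15119408))) (a (l 14610352) (b (l 14907824) (l 15061216))))) (b (a (c (l 15224440) (l 15169936)) (c (a (l 15151904) (l 15258584)) (a (l 15094856) (l 15205280)))) (l 1))) (b (c (a (b (a (l 15143688) (l 15323536)) (l 15360240)) (b (a (l 15532736) (l 15756160)) (l 15713576))) (b (a (l 15174096) (l 15608816)) (a (l 15310504) (l 15675696)))) (c (a (b (l 15480008) (l 15593368)) (b (l 15803008) (l 15888888))) (b (a (l 15434480) (l 15768816)) (l 271687536135))))) (a (b (a (c (b (l 15949712) (l 16024136)) (b (l 16071864) (l 16084296))) (b (l 16528384) (c (l 16534200) (l 16525472)))) (a (c (b (l 16156112) (l 16211208)) (l 15994496)) (c (b (l 16540872) (l 16561232)) (b (l 16532520) (l 16553648))))) (b (l 16776560) (c (a (l 16796920) (l 16777216)) (a (l 16775904) (l 16777216)))))) (a (l 1) (b (b (a (c (l 1140346266871)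 (l 1185980316423)) (c (l 16776648) (l 16776624))) (l 1)) (l 1)))), by decide +kernel⟩

def k2_pm_112 : ∃ t, chk3 f_pm_112 t 3 1 1 = true :=
  ⟨(b (a (b (a (l 16777216) (l 16773640)) (a (c (l 16777216) (l 16777216)) (l 16777216))) (b (a (b (a (l 16674152) (l 16432512)) (l 16762304)) (b (b (a (l 15691128) (a (l 15426320) (b (l 15294856) (l 15493072)))) (c (l 16122664) (l 15946776))) (a (l 16631880) (l 16374832)))) (a (l 16777216) (b (l 16747024) (l 16777216))))) (b (a (b (a (c (l 16777216) (l 16777216)) (l 16777216)) (a (b (c (l 391411751191) (l 16573296)) (c (l 15886680) (l 15855424))) (b (l 16576760) (l 15871072)))) (b (l 16777216) (a (b (l 16576760) (l 15871072)) (l 16125160)))) (b (a (a (l 1) (a (b (l 14844920) (l 1)) (b (l 15096576) (l 14301168)))) (b (a (l 15096576) (l 15096576)) (a (l 14301168) (l 14301168)))) (a (l 1) (b (b (l 228197087287) (a (l 13428464) (l 13428464))) (c (l 13750936) (l 13637824))))))), by decide +kernel⟩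

theorem s3_pm_112 : ∃ t, chk3 f_pm_112 t 2 1 1 = true := ex3_a k0_pm_112 k1_pm_112

theorem s4_pm_112 : ∃ t, chk3 f_pm_112 t 1 1 1 = true := ex3_a s3_pm_112 k2_pm_112

theorem c_pm_112 : CertNX 536870912 536870912 536870912 469762048 1046898278 26843546 3 true true false .dn 1 1 2
    ndN0q1 ndN5q1 pcN2 Cut.none Ext.none :=
  certNX2 (fam := true) (s1 := true) (s2 := false) (a := 1) (b := 1) (c := 2) (cn := .dn) (n1 := ndN0q1) (n2 := ndN5q1) (pc := pcN2) (cut := Cut.none) (xt := Ext.none) (P1 := 536870912) (W1 := 536870912) (P2 := 536870912) (W2 := 469762048) (P3 := 1046898278) (W3 := 26843546) (N0 := 3)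
    rfl (fun _ => rfl) s4_pm_112

noncomputable def f_pm_113 : ℕ → ℕ → ℕ → ℕ → Bool := onCell 536870912 536870912 536870912 469762048 1046898278 26843546
    (rowNX 3 0 true true false .nn 1 1 3 (qsf 536870912 536870912 536870912 469762048 3) ndN0q1 ndN5q1 pcN3 Cut.none Ext.none)

def k0_pm_113 : ∃ t, chk3 f_pm_113 t 1 1 1 = true :=
  ⟨(a (b (l 1) (b (a (l 1) (b (l 16777216) (b (l 16576760) (l 15871072)))) (b (a (b (l 1) (l 226587623895)) (b (l 15033664) (l 14301168))) (a (b (a (l 1) (l 13557320)) (c (l 13750936) (l 13637824))) (b (a (l 13557320) (l 13557320)) (a (l 13693848) (l 13693848))))))) (b (a (b (l 1) (a (l 16777216) (l 16768224))) (a (b (l 189010770903) (b (l 16356592) (l 16335624))) (c (a (b (l 15827064) (l 15680264)) (b (a (l 15525080) (l 15447504)) (b (l 15274656) (a (l 15525080) (l 15447504))))) (b (a (l 15737344) (a (l 15487024) (l 15395384))) (a (l 15737344) (b (l 15385096) (a (l 15487024) (l 15395384)))))))) (a (b (b (a (l 16777216) (l 16768224)) (a (b (l 16576760) (l 15871072))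 (b (l 16568424) (l 15862824)))) (b (a (b (l 15096576) (l 14301168)) (b (a (l 15096576) (l 15080744)) (a (l 14301168) (l 14285488)))) (b (a (b (l 13684552) (l 13428464)) (a (l 13557320) (b (l 13668992) (l 13412984)))) (a (c (l 13750936) (l 13637824)) (c (a (l 13750936) (l 13737000)) (l 13629184)))))) (b (a (b (a (l 16519464) (l 16196936)) (c (b (l 16184624) (l 15527288)) (a (l 15967568) (l 173641420743)))) (a (b (c (l 15806096) (l 15737344)) (l 4)) (l 4))) (b (a (a (b (l 14868912) (a (l 14145216) (l 4))) (l 4)) (l 4)) (l 4)))))), by decide +kernel⟩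

theorem c_pm_113 : CertNX 536870912 536870912 536870912 469762048 1046898278 26843546 3 true true false .nn 1 1 3
    ndN0q1 ndN5q1 pcN3 Cut.none Ext.none :=
  certNX0 (fam := true) (s1 := true) (s2 := false) (a := 1) (b := 1) (c := 3) (cn := .nn) (n1 := ndN0q1) (n2 := ndN5q1) (pc := pcN3) (cut := Cut.none) (xt := Ext.none) (P1 := 536870912) (W1 := 536870912) (P2 := 536870912) (W2 := 469762048) (P3 := 1046898278) (W3 := 26843546) (N0 := 3)
    rfl k0_pm_113

noncomputable def f_pm_123 : ℕ → ℕ → ℕ → ℕ → Bool := onCell 1610612736 536870912 1073741824 536870912 1046898278 26843546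
    (rowNX 3 2 true true false .npn 1 2 3 (qsf 536870912 536870912 1073741824 536870912 3) ndN0q1 ndN5q2 pcN3 Cut.none Ext.none)

def k0_pm_123 : ∃ t, chk3 f_pm_123 t 2 1 1 = true :=
  ⟨(b (b (a (b (c (a (l 62844418183) (l 15418024)) (a (l 15500560) (l 15500560))) (c (a (l 14807016) (l 14807016)) (a (l 14737856) (l 14737856)))) (b (a (c (l 15522880) (l 15500560)) (c (l 15543856) (l 15500560))) (c (a (l 14807016) (l 14807016)) (a (l 14737856) (l 14737856))))) (b (a (b (b (c (l 14418616) (l 14335832)) (l 1)) (l 1)) (b (b (c (l 14418616) (l 14335832)) (c (l 14635016) (l 14559832))) (c (l 15134872) (l 15337712)))) (a (l 1) (b (a (l 16158128) (l 16116184)) (c (l 16776560) (l 16776544)))))) (a (l 1) (b (c (l 113850187783) (l 123513864199)) (l 1)))), by decide +kernel⟩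

def k1_pm_123 : ∃ t, chk3 f_pm_123 t 6 1 1 = true :=
  ⟨(b (b (b (a (b (l 15731496) (l 15321120)) (b (a (l 15731456) (l 15725544)) (l 15321008))) (a (c (l 14806984) (l 14737824)) (b (l 14945936) (l 14606968)))) (b (b (b (l 14377272) (a (l 14597504) (l 14597528))) (a (l 15131496) (l 15362216))) (b (c (l 16082408) (l 16233896)) (c (l 16776608) (l 16776592))))) (b (c (a (l 16777200) (l 16777152)) (l 16777168)) (b (l 97744060823) (l 1)))), by decide +kernel⟩

def k2_pm_123 : ∃ t, chk3 f_pm_123 t 14 1 1 = true :=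
  ⟨(b (b (b (a (b (a (l 15688256) (l 15630952)) (l 15319320)) (b (a (l 15567464) (b (l 15494992) (l 15489520))) (a (l 15314976) (l 15317952)))) (a (l 14773848) (a (l 14798792) (b (l 14966560) (l 14651024))))) (b (a (b (b (l 14379472) (l 14599856)) (l 15364608)) (b (b (l 14431088) (l 14654144)) (a (l 15404768) (l 15430960)))) (a (b (l 16055384) (l 16774392)) (b (a (l 16342184) (l 16299680)) (l 16718248))))) (b (a (c (l 16775448) (l 16775392)) (b (l 16727368) (l 16744536))) (a (c (l 16776128) (l 16776096)) (b (l 16750824) (l 16759976))))), by decide +kernel⟩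

def k3_pm_123 : ∃ t, chk3 f_pm_123 t 30 1 1 = true :=
  ⟨(b (b (b (a (b (c (a (b (l 15632536) (l 15579952)) (b (l 15671360) (l 15633376))) (b (l 15315704) (l 15388072))) (b (a (l 15404312) (l 15422768)) (l 15268592))) (b (c (a (b (l 15753456) (l 15706440)) (b (c (l 16031992) (l 15744912)) (l 15823248))) (b (l 15304672) (l 15461512))) (c (a (l 15502432) (l 15592656)) (l 15374016)))) (b (a (b (l 15073400) (l 14884200)) (c (l 15087504) (l 14993648))) (a (l 14645632) (c (l 14659536) (l 14612568))))) (b (b (a (b (c (l 14460032) (l 14419560)) (l 14637528)) (b (l 14319456) (l 14626368))) (c (a (l 15425048) (l 15398056)) (l 15293000))) (b (b (l 16081584) (l 16490400)) (l 16715296)))) (a (b (b (l 16720768) (l 16737656)) (a (l 16755328) (l 16758816))) (b (c (l 16747504) (l 16735384)) (c (l 16754056) (l 16747872))))), by decide +kernel⟩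

def k4_pm_123 : ∃ t, chk3 f_pm_123 t 62 2 1 = true :=
  ⟨(b (b (b (c (b (a (b (c (l 16308056) (l 15983384)) (l 16034808)) (b (c (a (c (l 16397200) (l 16399688)) (l 16246712)) (a (l 16233760) (l 16213976))) (c (l 16316480) (l 16112264)))) (a (l 15980080) (b (l 16187200) (l 16147432)))) (b (a (l 15415808) (l 15605712)) (a (l 15622176) (l 15808536)))) (c (a (l 15723440) (b (l 15842640) (l 15748352))) (b (a (l 15573128) (l 15741536)) (l 15482504)))) (c (b (a (l 15203176) (b (l 15459432) (l 15157832))) (b (l 14817952) (l 14582144))) (b (b (l 15258264) (l 14999056)) (b (l 14732888) (l 14523320))))) (b (b (c (b (l 14417904) (l 14632384)) (b (l 14359800) (l 14587904))) (c (l 15299064) (l 15354760))) (b (b (l 16072440) (l 16497640)) (a (l 16735152) (l 16713400))))), by decide +kernel⟩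

def k5_pm_123 : ∃ t, chk3 f_pm_123 t 126 4 1 = true :=
  ⟨(b (b (c (b (a (b (c (l 16305144) (b (c (l 16264952) (l 16254352)) (l 16345768))) (c (b (l 16394272) (l 16516528)) (l 16294104))) (b (c (l 16251064) (b (l 16206440) (l 16178072))) (c (c (l 16422632) (l 16247304)) (c (l 16335880) (l 16334880))))) (a (b (l 16339640) (l 16307400)) (b (c (l 16504336) (l 16354056)) (l 16411048)))) (b (c (a (l 16000448) (b (b (c (l 16199448) (l 16193480)) (l 16198760)) (l 16149336))) (a (l 15587488) (l 15873744))) (a (l 16005072) (c (l 16224848) (l 16083976))))) (c (b (l 16243928) (l 15691864)) (b (l 15986280) (c (l 15783296) (l 15660808))))) (c (b (a (l 15386272) (l 15447072)) (l 14577952)) (b (c (l 15341240) (l 15262280)) (c (l 14726056) (l 14677440))))), by decide +kernel⟩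

def k6_pm_123 : ∃ t, chk3 f_pm_123 t 127 4 1 = true :=
  ⟨(a (b (b (b (c (b (a (l 16201872) (l 16212464)) (c (l 16373192) (a (l 16189576) (b (l 16297352) (l 16387896))))) (a (b (c (c (l 16108016) (l 16141128)) (l 15758648)) (l 16156904)) (a (b (c (b (l 4) (l 16204712)) (l 15983280)) (l 16226384)) (b (l 4) (l 16281576))))) (c (b (c (b (a (l 16511008) (l 16461208)) (l 16481120)) (l 16440480)) (a (l 16484160) (l 16527296))) (c (l 16400168) (l 16313176)))) (b (c (l 16425760) (c (l 16279528) (l 16161904))) (c (l 16102320) (a (l 15862528) (l 15920920))))) (c (b (l 15492888) (l 14840360)) (c (b (l 15457112) (l 14789600)) (b (l 15377872) (l 14743832))))) (b (a (b (a (b (l 4) (c (b (l 4) (l 16562328)) (l 16485528))) (l 4)) (b (c (l 16537232) (l 16366184)) (c (l 16066696) (l 15999336)))) (b (l 4) (b (l 4) (a (c (l 16158672) (l 16091016)) (l 4))))) (a (b (c (b (l 15738464) (l 15368664)) (b (l 15656624) (l 15320608))) (c (l 14869168) (l 14802224))) (a (b (c (l 15573616) (l 15531680)) (c (l 14883424) (l 14816984)))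 (a (b (c (l 15569808) (l 15527656)) (l 14857576)) (a (b (l 15544688) (l 14861216)) (a (b (l 15545872) (l 14863040)) (c (l 6162972461591) (b (l 15345488) (l 14831192)))))))))), by decide +kernel⟩

def k7_pm_123 : ∃ t, chk3 f_pm_123 t 63 5 1 = true :=
  ⟨(a (b (b (c (b (l 14419856) (l 14623872)) (b (l 14340064) (l 14562784))) (c (l 15365272) (l 15321912))) (b (c (b (l 16037944) (l 16461920)) (b (l 16002936) (l 16442776))) (c (l 16707768) (l 16694440)))) (a (b (b (b (c (l 14414848) (l 14336240)) (l 14569768)) (c (l 15333536) (l 15215040))) (b (b (l 15908184) (l 16425288)) (l 16669768))) (b (a (b (b (l 14373576) (l 14553480)) (c (l 15339656) (l 15282856))) (b (a (b (l 14366072) (l 14559624)) (a (b (l 14381384) (l 14559392)) (a (b (l 14391104) (l 14572048)) (b (a (l 14392784) (l 14320384)) (l 4))))) (a (l 15221360) (a (l 15321992) (l 4))))) (a (b (b (l 15997776) (l 16441776)) (l 4)) (l 4))))), by decide +kernel⟩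

def k8_pm_123 : ∃ t, chk3 f_pm_123 t 31 3 1 = true :=
  ⟨(b (a (c (l 16725072) (l 16705928)) (b (a (l 16674488) (l 4)) (l 4))) (a (c (l 16705440) (l 16694520)) (l 4))), by decide +kernel⟩

theorem s9_pm_123 : ∃ t, chk3 f_pm_123 t 63 4 1 = true := ex3_a k5_pm_123 k6_pm_123

theorem s10_pm_123 : ∃ t, chk3 f_pm_123 t 63 2 1 = true := ex3_b s9_pm_123 k7_pm_123

theorem s11_pm_123 : ∃ t, chk3 f_pm_123 t 31 2 1 = true := ex3_a k4_pm_123 s10_pm_123

theorem s12_pm_123 : ∃ t, chk3 f_pm_123 t 31 1 1 = true := ex3_b s11_pm_123 k8_pm_123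

theorem s13_pm_123 : ∃ t, chk3 f_pm_123 t 15 1 1 = true := ex3_a k3_pm_123 s12_pm_123

theorem s14_pm_123 : ∃ t, chk3 f_pm_123 t 7 1 1 = true := ex3_a k2_pm_123 s13_pm_123

theorem s15_pm_123 : ∃ t, chk3 f_pm_123 t 3 1 1 = true := ex3_a k1_pm_123 s14_pm_123

theorem s16_pm_123 : ∃ t, chk3 f_pm_123 t 1 1 1 = true := ex3_a k0_pm_123 s15_pm_123

theorem c_pm_123 : CertNX 536870912 536870912 1073741824 536870912 1046898278 26843546 3 true true false .npn 1 2 3
    ndN0q1 ndN5q2 pcN3 Cut.none Ext.none :=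
  certNX2 (fam := true) (s1 := true) (s2 := false) (a := 1) (b := 2) (c := 3) (cn := .npn) (n1 := ndN0q1) (n2 := ndN5q2) (pc := pcN3) (cut := Cut.none) (xt := Ext.none) (P1 := 536870912) (W1 := 536870912) (P2 := 1073741824) (W2 := 536870912) (P3 := 1046898278) (W3 := 26843546) (N0 := 3)
    rfl (fun _ => rfl) s16_pm_123

noncomputable def f_pm_133 : ℕ → ℕ → ℕ → ℕ → Bool := onCell 536870912 536870912 0 1230186008 1046898278 26843546
    (rowNX 3 0 true true false .dn 1 3 3 (qsf 536870912 536870912 0 1230186008 3) ndN0q1 ndN5q3 pcN3 Cut.none Ext.none)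

def k0_pm_133 : ∃ t, chk3 f_pm_133 t 1 1 1 = true :=
  ⟨(b (l 2) (b (l 2) (a (l 4) (l 2)))), by decide +kernel⟩

theorem c_pm_133 : CertNX 536870912 536870912 0 1230186008 1046898278 26843546 3 true true false .dn 1 3 3
    ndN0q1 ndN5q3 pcN3 Cut.none Ext.none :=
  certNX0 (fam := true) (s1 := true) (s2 := false) (a := 1) (b := 3) (c := 3) (cn := .dn) (n1 := ndN0q1) (n2 := ndN5q3) (pc := pcN3) (cut := Cut.none) (xt := Ext.none) (P1 := 536870912) (W1 := 536870912) (P2 := 0) (W2 := 1230186008) (P3 := 1046898278) (W3 := 26843546) (N0 := 3)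
    rfl k0_pm_133

end Pool.Agent.Strip051.G.IE1.Tab.C.NA05

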