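import Pool.Agent.Strip051.G.IE1.Tab

/-! # Certificates N22 (generated) -/

set_option linter.all false
set_option maxRecDepth 100000

namespace Pool.Agent.Strip051.G.IE1.Tab.C.NA05

open Pool.Agent.Strip051.PB Pool.Agent.Strip051.PB.T
open Pool.Agent.Strip051.G.IE1.Tab

noncomputable def f_pm_202 : ℕ → ℕ → ℕ → ℕ → Bool := onCell 0 536870912 0 536870912 1046898278 26843546
    (rowNX 3 0 true true false .pp 2 0 2 (qsf 0 536870912 0 536870912 2) ndN0q2 ndN5q0 pcN2 Cut.none Ext.none)

def k0_pm_202 : ∃ t, chk3 f_pm_202 t 4 8 1 = true :=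
  ⟨(b (b (c (a (b (c (l 16131296) (l 16147616)) (c (b (l 16077840) (l 15999672)) (b (l 16057200) (l 15958312)))) (b (a (c (l 16189296) (l 16164720)) (l 16226104)) (a (c (b (l 16120064) (l 16032304)) (b (l 16100168) (l 15991504))) (b (c (l 16224800) (l 16206888)) (c (l 16129960) (l 16091008)))))) (a (b (c (b (l 16185840) (l 16122272)) (c (l 15988128) (l 16033352))) (c (l 16005328) (l 16021584))) (b (c (b (l 16270296) (a (l 16092384) (l 16290656))) (c (b (l 16236992) (l 16231472)) (a (l 16105328) (l 16213472)))) (c (a (l 16044864) (l 16107248)) (l 15929864))))) (a (c (c (b (l 15857392) (l 15741808)) (l 15823416)) (c (l 15850504) (l 15852480))) (c (a (b (c (l 15874984) (l 15880208)) (l 15759144)) (b (c (l 15937240) (l 15965016)) (l 15672392))) (a (l 15815864) (c (l 15914240) (l 15938712)))))) (a (c (b (c (l 15663800) (l 15692312)) (c (l 15591280) (l 15586112))) (b (l 15684112) (l 15556904))) (c (b (a (l 15646904) (c (l 15662904) (l 15691264))) (c (l 15527072) (l 15520560))) (b (a (l 15653568)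 (l 15682848)) (l 15489296))))), by decide +kernel⟩

def k1_pm_202 : ∃ t, chk3 f_pm_202 t 10 16 1 = true :=
  ⟨(b (b (a (c (l 16268576) (c (b (l 16327016) (l 16376936)) (b (c (l 16316296) (l 16289016)) (l 16415368)))) (c (b (a (l 16128904) (l 16234240)) (a (l 16310824) (b (l 16211456) (l 16236888)))) (b (c (a (l 16093920) (l 16198264)) (a (b (c (l 16189264) (l 16076400)) (l 16145024)) (b (l 16188872) (c (l 16171080) (l 16166800))))) (c (b (a (l 16267864) (l 16122992)) (l 16272200)) (a (l 16289928) (b (l 16096640) (l 16220376))))))) (c (c (a (l 16131056) (l 16152144)) (b (l 16203936) (l 16125640))) (c (a (l 16259920) (l 16280344)) (l 16277032)))) (c (b (a (c (l 16056688) (l 16108104)) (c (l 16174208) (l 16270992))) (a (l 15950248) (l 16063552))) (a (l 15948944) (l 16051088)))), by decide +kernel⟩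

def k2_pm_202 : ∃ t, chk3 f_pm_202 t 11 16 1 = true :=
  ⟨(b (b (b (c (a (l 16281176) (l 16367928)) (c (l 16248288) (a (c (l 16233368) (l 16204936)) (c (l 16301488) (l 16315608))))) (c (a (a (b (l 16201272) (a (l 16156008) (l 16172600))) (l 16220352)) (l 16264576)) (a (c (a (b (l 16175096) (a (l 16163544) (l 16158944))) (l 16202120)) (a (b (l 16169424) (l 16138080)) (l 16193888))) (c (l 16226792) (l 16261552))))) (a (c (b (a (b (c (l 16189952) (l 16141792)) (l 16232536)) (b (l 16127232) (c (a (l 16155904) (l 16147736)) (l 16167872)))) (a (l 16101032) (c (l 16105064) (l 16058616)))) (b (a (c (l 16027936) (l 16169600)) (c (b (l 16173152) (l 16084544)) (l 16125080))) (a (l 16262608) (c (l 16163400) (l 16173280))))) (c (a (b (l 16157792) (b (l 16163600) (a (l 16085400) (l 16163136)))) (c (l 16178872) (l 16118376))) (b (c (l 16223424) (l 16196584)) (a (c (l 16074912) (l 16125448)) (l 16181960)))))) (a (c (b (b (l 16128768) (l 16230656)) (l 16175784)) (b (l 16233448) (l 16390376))) (b (c (a (b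 (c (l 16120040) (b (l 16093768) (l 16237136))) (l 16232472)) (b (c (l 16120760) (a (l 16106056) (l 16177976))) (a (l 16181768) (c (b (l 16179960) (l 16209048)) (l 16160488))))) (c (a (b (l 16133456) (l 16257736)) (b (l 16131872) (l 16016024))) (a (l 16135184) (b (l 16106288) (l 16124288))))) (c (l 16180664) (l 16201256))))), by decide +kernel⟩

def k3_pm_202 : ∃ t, chk3 f_pm_202 t 5 17 1 = true :=
  ⟨(a (c (b (a (c (l 15764760) (l 15795056)) (l 15773488)) (a (b (l 15617264) (l 15520848)) (c (l 15703976) (l 15700792)))) (b (a (l 15789608) (l 15959160)) (a (l 15536368) (l 15674632)))) (c (c (b (a (l 16131400) (l 16316080)) (a (l 15894552) (l 16001112))) (b (a (b (l 16240136) (l 16103560)) (l 16274184)) (l 15783736))) (b (a (b (l 16251760) (l 16094080)) (l 16328616)) (a (l 15874416) (l 16118016))))), by decide +kernel⟩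

def k4_pm_202 : ∃ t, chk3 f_pm_202 t 2 9 1 = true :=
  ⟨(a (b (a (b (c (b (l 15612024) (l 15778688)) (l 15492832)) (l 15928056)) (b (c (b (l 15371104) (l 15618624)) (a (l 15542576) (l 15489752))) (c (l 15900120) (l 15870288)))) (a (c (l 16380912) (l 16368576)) (c (l 16285064) (l 16268800)))) (b (a (b (a (c (l 15516648) (l 15472720)) (c (l 15479896) (l 15543408))) (a (l 15764264) (b (a (l 15606848) (b (l 15585512) (l 15613328))) (l 15778032)))) (b (c (a (l 15749744) (l 15969120)) (l 15724664)) (a (b (l 15710256) (a (b (l 15687656) (l 15766752)) (b (l 15749808) (l 15776768)))) (a (l 15855800) (l 15969888))))) (a (c (l 16113656) (l 16134992)) (a (b (c (l 15985584) (l 15957856)) (l 16145296)) (b (b (a (l 15805608) (b (l 15952408) (l 15967960))) (l 15997800)) (l 16099808)))))), by decide +kernel⟩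

def k5_pm_202 : ∃ t, chk3 f_pm_202 t 2 5 1 = true :=
  ⟨(b (a (b (c (l 16431408) (l 16379592)) (a (c (l 16520232) (l 16511320)) (c (l 16530856) (l 16522352)))) (a (b (l 16387640) (l 16500144)) (b (a (l 16358904) (l 16155584)) (l 16480648)))) (a (c (b (l 16677376) (l 16777072)) (b (l 16673872) (l 16777064))) (a (b (l 16676848) (l 16777072)) (b (l 16585200) (l 16777072))))), by decide +kernel⟩

def k6_pm_202 : ∃ t, chk3 f_pm_202 t 6 16 1 = true :=
  ⟨(c (a (b (b (a (l 16265864) (l 16280744)) (c (b (a (l 16318472) (l 16442968)) (l 16248440)) (b (a (l 16323016) (l 16449800)) (a (l 16289752) (l 16413920))))) (b (b (c (l 16286784) (a (l 16242472) (l 16342632))) (a (a (c (b (l 16200840) (l 16165296)) (l 16156328)) (l 16199296)) (l 16122280))) (a (a (b (a (l 16167776) (b (l 16144056) (l 16145168))) (l 16235584)) (b (l 16161984) (a (l 16140296) (l 16116520)))) (l 16173024)))) (b (b (a (b (l 16402336) (l 16403064)) (l 16273120)) (b (a (c (l 16528392) (l 16536760)) (c (l 16521880) (l 16530040))) (c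 (l 16409040) (a (l 16498000) (l 16488472))))) (b (c (a (l 16424536) (l 16389288)) (a (l 16385600) (l 16370184))) (a (l 16223000) (l 16262864))))) (a (b (b (c (b (l 16365912) (a (l 16302760) (l 16382512))) (b (c (l 16293200) (b (l 16303728) (l 16461024))) (c (l 16377952) (l 16429848)))) (c (a (l 16211560) (l 16317944)) (a (l 16270136) (l 16399000)))) (a (b (a (c (l 16099192) (l 16118088)) (l 16181496)) (a (b (a (l 16112992) (l 15967936)) (l 16170352)) (b (l 16083808) (a (l 16070664) (l 16045480))))) (l 15957624))) (b (b (c (a (b (l 16413928) (b (l 16503496) (l 16536984))) (b (l 16506520) (b (l 16570824) (l 16576256)))) (b (a (c (l 16443816) (b (l 16366304) (l 16466048))) (c (l 16432232) (b (l 16439672) (l 16536544)))) (a (l 16454904) (l 16481176)))) (c (a (l 16404512) (l 16416472)) (a (l 16486192) (l 16475920)))) (a (c (l 16208016) (l 16273384)) (l 16073472))))), by decide +kernel⟩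

def k7_pm_202 : ∃ t, chk3 f_pm_202 t 6 17 1 = true :=
  ⟨(a (b (a (c (a (l 16193144) (b (l 16072064) (l 16344136))) (b (l 16051176) (l 16387600))) (b (a (c (b (a (l 15926280) (l 16091184)) (a (l 16146064) (l 15912888))) (b (a (l 16031944) (l 16028512)) (l 16045080))) (c (c (l 16130728) (l 15973504)) (l 16004328))) (a (c (l 16193904) (l 16200872)) (c (b (a (l 16074304) (c (l 16056264) (l 16009480))) (l 16115224)) (b (a (l 16030376) (l 15987592)) (l 16079824)))))) (c (a (c (l 16152568) (l 16351472)) (b (l 16116256) (l 16306880))) (a (l 16303800) (l 16146680)))) (a (b (a (b (c (l 16141760) (l 16083400)) (c (b (l 16034464) (a (c (l 16028776) (l 15989072)) (l 15964440))) (b (l 15988256) (a (l 15969904) (l 15922752))))) (c (l 16055296) (l 15998720))) (b (a (a (c (l 16114648) (l 16085744)) (c (c (l 15863424) (l 15982312)) (l 15964256))) (c (b (a (l 15889680) (l 15870056)) (a (l 15900736) (l 15796672))) (b (l 15842320) (a (l 15867024) (l 15780728))))) (a (c (l 16185560) (l 16209432)) (c (l 15750664)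 (l 15932024))))) (b (c (l 15881312) (l 15969296)) (b (c (l 15807096) (l 15765848)) (a (a (b (c (l 15747160) (l 15710920)) (l 15771024)) (b (l 15687856) (c (l 15677864) (l 15640536)))) (c (l 15656712) (l 15616784))))))), by decide +kernel⟩

def k8_pm_202 : ∃ t, chk3 f_pm_202 t 6 9 1 = true :=
  ⟨(b (b (a (a (c (l 16231944) (l 16215352)) (c (l 16458944) (l 16517240))) (a (c (a (l 16363360) (l 16142392)) (l 16050192)) (b (a (l 15791312) (b (a (c (l 15586424) (l 15546312)) (l 15506528)) (a (l 15584720) (l 15449720)))) (l 15734440)))) (a (a (l 16163424) (l 16377104)) (a (a (l 16549088) (l 16308496)) (l 15766736)))) (a (b (a (b (l 16131016) (a (l 16003520) (l 16101880))) (b (l 16414224) (l 16306320))) (a (a (l 16088992) (l 16092800)) (b (a (l 16056072) (l 16236080)) (a (l 16119320) (l 16151904))))) (a (b (a (l 16596744) (l 16394032)) (a (l 16192792) (l 16569872))) (b (l 15821232) (l 16152808))))), by decide +kernel⟩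

def k9_pm_202 : ∃ t, chk3 f_pm_202 t 14 8 2 = true :=
  ⟨(b (b (b (a (l 16379856) (c (l 16587384) (l 16418000))) (a (c (b (l 16503904) (l 16451128)) (b (l 16511656) (l 16453520))) (c (b (l 16450064) (l 16388944)) (b (l 16414840) (l 16411800))))) (a (b (c (l 16335768) (l 16294536)) (l 16226680)) (b (c (l 16227288) (l 16204800)) (l 15926288)))) (a (b (l 15788720) (c (l 15705960) (l 15675832))) (b (c (l 15950432) (l 15707008)) (c (l 15617848) (l 15585512))))), by decide +kernel⟩

def k10_pm_202 : ∃ t, chk3 f_pm_202 t 15 8 2 = true :=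
  ⟨(b (a (b (a (b (c (l 16580896) (l 16495816)) (c (b (l 16365504) (l 16337576)) (b (l 16394360) (l 16341008)))) (b (a (c (l 16602680) (l 16598456)) (c (b (l 16421632) (l 16597328)) (b (l 16708976) (l 16355256)))) (c (b (a (c (l 16467368) (l 16438648)) (l 16464728)) (l 16199392)) (c (l 16346912) (l 16439736))))) (b (a (c (l 16205816) (l 16225288)) (c (c (l 16299216) (l 16145304)) (l 16151728))) (a (l 16050384) (c (c (l 16160016) (l 16160776)) (l 16102720))))) (b (a (b (b (c (a (l 16670600) (l 16683576)) (a (l 16503096) (l 16699928))) (c (l 16579288) (a (c (l 16662448) (l 16645208)) (l 16636520)))) (c (b (a (l 16555432) (l 16581432)) (a (l 16475600) (l 16509560))) (a (c (l 16498208) (b (l 16571424) (l 16508864))) (b (l 16600304) (l 16483760))))) (b (c (a (b (l 16692984) (l 16715904)) (l 16541736)) (a (b (l 16653976) (l 16630816)) (b (l 16737224) (b (l 16730056) (l 16686512))))) (c (b (a (l 16615096) (b (l 16659672) (l 16619048))) (c (l 16498000) (l 16577928))) (b (a (l 16624456) (c (l 16641504)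 (l 16653712))) (c (l 16595144) (l 16601360)))))) (a (a (c (l 16072568) (c (l 16122632) (l 16253152))) (b (c (l 16323192) (b (l 16385728) (l 16364576))) (l 16213312))) (b (c (b (l 16424768) (a (l 16450048) (l 16501872))) (a (l 16308376) (l 16395704))) (c (b (l 16328008) (l 16284440)) (a (l 16244952) (l 16297032))))))) (a (a (b (c (l 15862944) (l 15786216)) (c (l 15482704) (l 15471120))) (b (c (a (l 15885560) (l 15915928)) (l 15786072)) (c (a (l 15417656) (l 15461728)) (l 15505152)))) (b (a (c (l 15943968) (a (l 15731984) (l 15901744))) (b (l 16088136) (l 15883680))) (a (c (l 15577424) (a (l 15542808) (l 15552864))) (l 15606144))))), by decide +kernel⟩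

def k11_pm_202 : ∃ t, chk3 f_pm_202 t 14 8 3 = true :=
  ⟨(b (b (b (c (a (b (l 16595552) (l 16468016)) (b (l 16617152) (b (l 16543880) (l 16506600)))) (a (b (c (l 16564080) (b (l 16572496) (l 16617352))) (l 16548232)) (b (c (l 16501008) (b (l 16495080) (l 16579656))) (l 16355072)))) (a (c (b (l 16520016) (l 16453376)) (l 16456424)) (c (b (l 16432656) (l 16388424)) (l 16352320)))) (a (c (l 16105192) (l 16231256)) (a (l 16021520) (l 16068280)))) (a (b (l 15936768) (l 15648104)) (b (l 15774704) (l 15555168)))), by decide +kernel⟩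

def k12_pm_202 : ∃ t, chk3 f_pm_202 t 30 16 3 = true :=
  ⟨(b (b (a (c (b (l 16572448) (l 16389504)) (b (c (l 16559968) (b (l 16576696) (l 16530584))) (l 16424992))) (c (b (a (l 16636392) (l 16689568)) (b (a (l 16551664) (l 16608032)) (l 16534168))) (b (c (l 16504976) (b (l 16543880) (l 16623304))) (c (l 16559704) (l 16525464))))) (c (b (l 16334576) (l 16351080)) (l 16298256))) (a (l 15968624) (l 16046424))), by decide +kernel⟩

def k13_pm_202 : ∃ t, chk3 f_pm_202 t 31 16 3 = true :=
  ⟨(b (a (c (b (b (c (a (l 16729192) (l 16715472)) (l 16674336)) (c (a (l 16632192) (l 16635496)) (c (l 16653656) (l 16653048)))) (c (a (b (l 16548656) (l 16480704)) (b (l 16622272) (l 16500912))) (a (l 16464352) (l 16469632)))) (b (b (c (b (l 16728168) (l 16707144)) (b (l 16734968) (l 16705528))) (c (l 16649904) (l 16637008))) (b (l 16489952) (l 16455672)))) (c (b (a (c (b (l 16729728) (l 16694968)) (b (a (l 16735496) (l 16748080)) (c (l 16697648) (l 16694896)))) (a (b (l 16588672) (c (l 16699512) (l 16702680)))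 (b (l 16769576) (c (l 16705776) (l 16708048))))) (a (c (l 16608912) (a (l 16505472) (l 16596856))) (b (l 16592576) (l 16584368)))) (b (c (a (b (c (l 16626192) (l 16754520)) (l 16606856)) (b (a (b (l 16754584) (l 16659400)) (b (l 16770680) (l 16742896))) (a (l 16700752) (l 16703904)))) (a (b (b (l 16748888) (l 16733128)) (l 16676792)) (b (c (a (b (l 16762624) (l 16740584)) (b (l 16768184) (l 16741352))) (b (a (l 16765512) (c (l 16764112) (l 16761208))) (l 16731352))) (a (l 16686896) (l 16688352))))) (a (c (l 16515416) (l 16558696)) (c (a (l 16563912) (l 16592552)) (a (l 16576824) (l 16541416))))))) (a (a (l 16133280) (b (c (c (l 16254936) (l 16348320)) (l 16333992)) (l 15893488))) (c (b (a (c (l 16421352) (a (l 16392824) (l 16407720))) (l 16361960)) (a (c (l 16210944) (l 16197168)) (l 16250368))) (a (b (l 16341848) (l 16191144)) (c (b (l 16423688) (l 16241040)) (a (l 16277048) (l 16105448))))))), by decide +kernel⟩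

def k14_pm_202 : ∃ t, chk3 f_pm_202 t 15 17 3 = true :=
  ⟨(a (b (l 15739176) (l 15447888)) (a (b (c (l 15746248) (l 15835752)) (l 15361816)) (c (b (a (l 15909144) (l 15935480)) (l 15423080)) (a (l 15567992) (b (a (l 15921096) (l 15951504)) (l 15480984)))))), by decide +kernel⟩

def k15_pm_202 : ∃ t, chk3 f_pm_202 t 7 9 1 = true :=
  ⟨(a (b (a (b (b (c (l 15436456) (l 15390640)) (a (a (b (l 15329432) (l 15355984)) (b (l 15254928) (l 15205312))) (l 15170848))) (a (l 15390112) (b (a (l 15094768) (b (l 14993456) (l 14944400))) (l 15086072)))) (b (c (l 15212344) (l 15158168)) (a (b (l 14887160) (a (l 14821072) (b (l 14691056) (l 14635104)))) (l 14660336)))) (a (b (a (l 15602768) (l 15259320)) (l 15701152)) (b (a (l 14874576) (b (a (l 14469992) (l 14125544)) (l 14497752))) (l 14853848)))) (a (b (c (a (b (l 15073792) (l 14592464)) (c (b (l 14965200) (l 14640976)) (l 14674768))) (b (l 15031680) (l 14523888))) (b (a (b (l 14198360) (a (l 14166688) (l 14053720))) (c (c (l 14205816) (l 14150096))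 (l 14068784))) (a (a (l 14436904) (l 14225816)) (c (b (a (b (l 14031368) (l 14059704)) (l 13779912)) (a (l 14201016) (c (l 14056312) (l 13996896)))) (b (a (l 13939280) (l 13871136)) (l 13999760)))))) (b (c (a (c (l 14900640) (a (b (l 15129200) (l 14616368)) (l 14874040))) (b (l 15168816) (l 14650920))) (a (b (l 14892520) (l 14551960)) (c (b (l 14899592) (l 14597272)) (a (l 14800056) (b (l 15069904) (l 14566168)))))) (a (c (a (b (c (l 14202272) (l 14161816)) (c (l 13969056) (b (l 13958264) (l 13775424)))) (l 14039552)) (b (l 14080400) (a (l 13829496) (l 13805464)))) (c (l 14042856) (c (a (l 13969528) (l 13972952)) (a (l 13920280) (b (l 14070136) (l 13778320))))))))), by decide +kernel⟩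

def k16_pm_202 : ∃ t, chk3 f_pm_202 t 6 5 1 = true :=
  ⟨(b (a (b (a (b (l 16212496) (l 16338616)) (l 16269136)) (a (l 16502552) (l 16489608))) (b (a (b (b (a (l 16212784) (l 16319592)) (l 16145080)) (l 16373320)) (b (a (b (l 16591808) (l 16467024)) (l 16588808)) (a (l 16470792) (b (l 16580960) (l 16565256))))) (l 16393056))) (a (b (a (l 16695976) (l 16681704)) (l 16774872)) (b (a (l 16717424) (l 16597928)) (a (l 16707184) (l 16514720))))), by decide +kernel⟩

def k17_pm_202 : ∃ t, chk3 f_pm_202 t 7 5 1 = true :=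
  ⟨(a (b (b (a (b (l 15963352) (a (b (l 16529968) (l 16583832)) (l 16298880))) (a (l 15635304) (l 15330568))) (a (b (a (l 16643976) (b (l 16413080) (l 16513944))) (l 16506560)) (b (a (b (l 16197544) (a (l 16400512) (l 16251216))) (l 15866384)) (a (l 16316752) (b (l 16011312) (l 16102224)))))) (a (b (l 16384240) (l 16299520)) (b (l 16095320) (l 16006488)))) (b (a (b (c (a (l 14931680) (c (l 14442968) (l 14561744))) (l 14430888)) (a (b (l 15432712) (b (l 15684928) (l 15567592))) (c (c (l 15300440) (l 15285736)) (l 15235080)))) (b (a (c (a (c (l 14323392) (l 14284320)) (b (b (l 13833040) (l 13996144)) (l 14286304))) (a (l 14199232) (b (b (b (l 13691208) (l 13742912)) (l 13895784)) (l 14196552)))) (b (c (b (l 13735240) (l 13551928)) (a (b (c (l 13659960) (l 13604360)) (c (l 13715776) (l 13661000))) (b (l 13608992) (c (l 13572896) (a (l 13521640) (l 13477936)))))) (c (l 13980184) (c (l 13905352) (l 13806096))))) (c (a (c (l 14959808) (l 14775968)) (l 14555880)) (a (l 14831264) (c (l 14497376)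 (a (l 14560488) (l 14351480))))))) (a (b (a (a (l 15843144) (l 15770024)) (b (c (b (l 15441320) (l 15664392)) (l 15488720)) (l 15671296))) (c (l 15703376) (l 15647704))) (b (a (c (b (a (l 15395328) (l 15356184)) (a (l 15618856) (l 15549712))) (b (l 15246072) (a (l 15579520) (l 15488456)))) (c (b (l 15081904) (l 15363944)) (b (c (l 15039016) (l 15003408)) (a (c (l 15391520) (l 15390176)) (c (l 15268072) (l 15241848)))))) (c (a (l 15549104) (l 15451648)) (a (l 15508736) (c (l 15420216) (l 15392392)))))))), by decide +kernel⟩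

def k18_pm_202 : ∃ t, chk3 f_pm_202 t 1 3 1 = true :=
  ⟨(a (a (b (a (l 4) (b (b (l 16777216) (l 4)) (l 4))) (l 2)) (b (c (b (a (l 16777216) (l 16777216)) (a (l 16777216) (l 16777216))) (b (a (l 16777216) (l 16777216)) (a (l 16777216) (l 16777216)))) (a (l 2) (c (l 16777216) (l 16777216))))) (b (a (a (b (c (l 16777216) (l 16777216)) (c (l 16777216) (l 16777216))) (b (a (l 16709592) (l 16518504)) (c (l 16617984) (l 16612376)))) (a (b (a (l 16152904) (l 16005640)) (a (l 16299392) (l 16006360))) (a (b (c (l 15682272) (l 15647568)) (c (l 15703248) (l 15647568))) (c (b (l 15354208) (l 15500984)) (a (b (l 15508592) (l 15508600)) (c (l 15420544) (l 15392720))))))) (b (a (a (a (l 16777216) (l 16777216)) (c (l 16617984) (l 16612376))) (a (a (l 16299392) (l 16006360)) (a (l 15666704) (c (l 15501008) (l 15426904))))) (a (l 2) (a (l 15966944) (a (l 15666704) (c (l 15501008) (l 15447880)))))))), by decide +kernel⟩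

theorem s19_pm_202 : ∃ t, chk3 f_pm_202 t 3 5 1 = true := ex3_a k16_pm_202 k17_pm_202

theorem s20_pm_202 : ∃ t, chk3 f_pm_202 t 15 16 3 = true := ex3_a k12_pm_202 k13_pm_202

theorem s21_pm_202 : ∃ t, chk3 f_pm_202 t 15 8 3 = true := ex3_b s20_pm_202 k14_pm_202

theorem s22_pm_202 : ∃ t, chk3 f_pm_202 t 7 8 3 = true := ex3_a k11_pm_202 s21_pm_202

theorem s23_pm_202 : ∃ t, chk3 f_pm_202 t 7 8 2 = true := ex3_a k9_pm_202 k10_pm_202

theorem s24_pm_202 : ∃ t, chk3 f_pm_202 t 7 8 1 = true := ex3_c s23_pm_202 s22_pm_202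

theorem s25_pm_202 : ∃ t, chk3 f_pm_202 t 7 4 1 = true := ex3_b s24_pm_202 k15_pm_202

theorem s26_pm_202 : ∃ t, chk3 f_pm_202 t 6 8 1 = true := ex3_b k6_pm_202 k7_pm_202

theorem s27_pm_202 : ∃ t, chk3 f_pm_202 t 6 4 1 = true := ex3_b s26_pm_202 k8_pm_202

theorem s28_pm_202 : ∃ t, chk3 f_pm_202 t 3 4 1 = true := ex3_a s27_pm_202 s25_pm_202

theorem s29_pm_202 : ∃ t, chk3 f_pm_202 t 3 2 1 = true := ex3_b s28_pm_202 s19_pm_202

theorem s30_pm_202 : ∃ t, chk3 f_pm_202 t 5 16 1 = true := ex3_a k1_pm_202 k2_pm_202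

theorem s31_pm_202 : ∃ t, chk3 f_pm_202 t 5 8 1 = true := ex3_b s30_pm_202 k3_pm_202

theorem s32_pm_202 : ∃ t, chk3 f_pm_202 t 2 8 1 = true := ex3_a k0_pm_202 s31_pm_202

theorem s33_pm_202 : ∃ t, chk3 f_pm_202 t 2 4 1 = true := ex3_b s32_pm_202 k4_pm_202

theorem s34_pm_202 : ∃ t, chk3 f_pm_202 t 2 2 1 = true := ex3_b s33_pm_202 k5_pm_202

theorem s35_pm_202 : ∃ t, chk3 f_pm_202 t 1 2 1 = true := ex3_a s34_pm_202 s29_pm_202

theorem s36_pm_202 : ∃ t, chk3 f_pm_202 t 1 1 1 = true := ex3_b s35_pm_202 k18_pm_202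

theorem c_pm_202 : CertNX 0 536870912 0 536870912 1046898278 26843546 3 true true false .pp 2 0 2
    ndN0q2 ndN5q0 pcN2 Cut.none Ext.none :=
  certNX0 (fam := true) (s1 := true) (s2 := false) (a := 2) (b := 0) (c := 2) (cn := .pp) (n1 := ndN0q2) (n2 := ndN5q0) (pc := pcN2) (cut := Cut.none) (xt := Ext.none) (P1 := 0) (W1 := 536870912) (P2 := 0) (W2 := 536870912) (P3 := 1046898278) (W3 := 26843546) (N0 := 3)
    rfl s36_pm_202

noncomputable def f_pm_203 : ℕ → ℕ → ℕ → ℕ → Bool := onCell 0 536870912 1610612736 536870912 1046898278 26843546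
    (rowNX 3 1 true true false .up 2 0 3 (qsf 0 536870912 0 536870912 3) ndN0q2 ndN5q0 pcN3 Cut.none Ext.none)

def k0_pm_203 : ∃ t, chk3 f_pm_203 t 1 1 1 = true :=
  ⟨(b (a (a (l 4) (b (c (l 50700746759) (l 37815844871)) (l 4))) (a (b (c (b (l 16700232) (l 16700232)) (b (l 16634600) (a (l 4) (l 16612376)))) (l 2)) (b (b (a (l 16155688) (a (l 15666704) (c (l 15501008) (l 15447880)))) (a (c (l 16166464) (l 16144952)) (l 2))) (l 2)))) (l 2)), by decide +kernel⟩

theorem c_pm_203 : CertNX 0 536870912 0 536870912 1046898278 26843546 3 true true false .up 2 0 3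
    ndN0q2 ndN5q0 pcN3 Cut.none Ext.none :=
  certNX1 (fam := true) (s1 := true) (s2 := false) (a := 2) (b := 0) (c := 3) (cn := .up) (n1 := ndN0q2) (n2 := ndN5q0) (pc := pcN3) (cut := Cut.none) (xt := Ext.none) (P1 := 0) (W1 := 536870912) (P2 := 0) (W2 := 536870912) (P3 := 1046898278) (W3 := 26843546) (N0 := 3)
    rfl (fun _ => rfl) k0_pm_203

noncomputable def f_pm_213 : ℕ → ℕ → ℕ → ℕ → Bool := onCell 0 536870912 1610612736 536870912 1046898278 26843546
    (rowNX 3 1 true true false .pnn 2 1 3 (qsf 0 536870912 536870912 469762048 3) ndN0q2 ndN5q1 pcN3 Cut.none Ext.none)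

def k0_pm_213 : ∃ t, chk3 f_pm_213 t 1 1 1 = true :=
  ⟨(b (a (b (b (l 1) (l 4)) (l 4)) (a (b (b (l 1) (c (l 16700232) (l 536367231655))) (l 4)) (b (a (b (l 16155688) (c (l 16166464) (l 16144952))) (c (a (l 15451592) (l 15501008)) (a (l 15647568) (b (l 15447880) (l 15447880))))) (b (a (l 4) (b (c (l 15586648) (l 15480672)) (l 4))) (l 4))))) (l 4)), by decide +kernel⟩

theorem c_pm_213 : CertNX 0 536870912 536870912 469762048 1046898278 26843546 3 true true false .pnn 2 1 3
    ndN0q2 ndN5q1 pcN3 Cut.none Ext.none :=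
  certNX1 (fam := true) (s1 := true) (s2 := false) (a := 2) (b := 1) (c := 3) (cn := .pnn) (n1 := ndN0q2) (n2 := ndN5q1) (pc := pcN3) (cut := Cut.none) (xt := Ext.none) (P1 := 0) (W1 := 536870912) (P2 := 536870912) (W2 := 469762048) (P3 := 1046898278) (W3 := 26843546) (N0 := 3)
    rfl (fun _ => rfl) k0_pm_213

noncomputable def f_mm_001 : ℕ → ℕ → ℕ → ℕ → Bool := onCell 0 536870912 0 536870912 1046898278 26843546
    (rowNX 3 0 true false false .up 0 0 1 (qsf 0 536870912 0 536870912 1) ndN0q0 ndN5q0 pcN1 Cut.none Ext.none)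

def k0_mm_001 : ∃ t, chk3 f_mm_001 t 1 1 1 = true :=
  ⟨(l 4), by decide +kernel⟩

theorem c_mm_001 : CertNX 0 536870912 0 536870912 1046898278 26843546 3 true false false .up 0 0 1
    ndN0q0 ndN5q0 pcN1 Cut.none Ext.none :=
  certNX0 (fam := true) (s1 := false) (s2 := false) (a := 0) (b := 0) (c := 1) (cn := .up) (n1 := ndN0q0) (n2 := ndN5q0) (pc := pcN1) (cut := Cut.none) (xt := Ext.none) (P1 := 0) (W1 := 536870912) (P2 := 0) (W2 := 536870912) (P3 := 1046898278) (W3 := 26843546) (N0 := 3)
    rfl k0_mm_001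

noncomputable def f_mm_011 : ℕ → ℕ → ℕ → ℕ → Bool := onCell 0 536870912 536870912 469762048 1046898278 26843546
    (rowNX 3 0 true false false .pnn 0 1 1 (qsf 0 536870912 536870912 469762048 1) ndN0q0 ndN5q1 pcN1 Cut.none Ext.none)

def k0_mm_011 : ∃ t, chk3 f_mm_011 t 1 1 1 = true :=
  ⟨(l 4), by decide +kernel⟩

theorem c_mm_011 : CertNX 0 536870912 536870912 469762048 1046898278 26843546 3 true false false .pnn 0 1 1
    ndN0q0 ndN5q1 pcN1 Cut.none Ext.none :=
  certNX0 (fam := true) (s1 := false) (s2 := false) (a := 0) (b := 1) (c := 1) (cn := .pnn) (n1 := ndN0q0) (n2 := ndN5q1) (pc := pcN1) (cut := Cut.none) (xt := Ext.none) (P1 := 0) (W1 := 536870912) (P2 := 536870912) (W2 := 469762048) (P3 := 1046898278) (W3 := 26843546) (N0 := 3)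
    rfl k0_mm_011

noncomputable def f_mm_012 : ℕ → ℕ → ℕ → ℕ → Bool := onCell 0 536870912 536870912 469762048 1046898278 26843546
    (rowNX 3 0 true false false .pnp 0 1 2 (qsf 0 536870912 536870912 469762048 2) ndN0q0 ndN5q1 pcN2 Cut.none Ext.none)

def k0_mm_012 : ∃ t, chk3 f_mm_012 t 1 1 1 = true :=
  ⟨(l 4), by decide +kernel⟩

theorem c_mm_012 : CertNX 0 536870912 536870912 469762048 1046898278 26843546 3 true false false .pnp 0 1 2
    ndN0q0 ndN5q1 pcN2 Cut.none Ext.none :=
  certNX0 (fam := true) (s1 := false) (s2 := false) (a := 0) (b := 1) (c := 2) (cn := .pnp) (n1 := ndN0q0) (n2 := ndN5q1) (pc := pcN2) (cut := Cut.none) (xt := Ext.none) (P1 := 0) (W1 := 536870912) (P2 := 536870912) (W2 := 469762048) (P3 := 1046898278) (W3 := 26843546) (N0 := 3)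
    rfl k0_mm_012

noncomputable def f_mm_022 : ℕ → ℕ → ℕ → ℕ → Bool := onCell 0 536870912 1073741824 536870912 1046898278 26843546
    (rowNX 3 0 true false false .pp 0 2 2 (qsf 0 536870912 1073741824 536870912 2) ndN0q0 ndN5q2 pcN2 Cut.none Ext.none)

def k0_mm_022 : ∃ t, chk3 f_mm_022 t 1 1 1 = true :=
  ⟨(l 4), by decide +kernel⟩

theorem c_mm_022 : CertNX 0 536870912 1073741824 536870912 1046898278 26843546 3 true false false .pp 0 2 2
    ndN0q0 ndN5q2 pcN2 Cut.none Ext.none :=
  certNX0 (fam := true) (s1 := false) (s2 := false) (a := 0) (b := 2) (c := 2) (cn := .pp) (n1 := ndN0q0) (n2 := ndN5q2) (pc := pcN2) (cut := Cut.none) (xt := Ext.none) (P1 := 0) (W1 := 536870912) (P2 := 1073741824) (W2 := 536870912) (P3 := 1046898278) (W3 := 26843546) (N0 := 3)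
    rfl k0_mm_022

noncomputable def f_mm_023 : ℕ → ℕ → ℕ → ℕ → Bool := onCell 0 536870912 1073741824 536870912 1046898278 26843546
    (rowNX 3 0 true false false .up 0 2 3 (qsf 0 536870912 1073741824 536870912 3) ndN0q0 ndN5q2 pcN3 Cut.none Ext.none)

def k0_mm_023 : ∃ t, chk3 f_mm_023 t 1 1 1 = true :=
  ⟨(l 4), by decide +kernel⟩

theorem c_mm_023 : CertNX 0 536870912 1073741824 536870912 1046898278 26843546 3 true false false .up 0 2 3
    ndN0q0 ndN5q2 pcN3 Cut.none Ext.none :=
  certNX0 (fam := true) (s1 := false) (s2 := false) (a := 0) (b := 2) (c := 3) (cn := .up) (n1 := ndN0q0) (n2 := ndN5q2) (pc := pcN3) (cut := Cut.none) (xt := Ext.none) (P1 := 0) (W1 := 536870912) (P2 := 1073741824) (W2 := 536870912) (P3 := 1046898278) (W3 := 26843546) (N0 := 3)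
    rfl k0_mm_023

noncomputable def f_mm_033 : ℕ → ℕ → ℕ → ℕ → Bool := onCell 0 536870912 0 1230186008 1046898278 26843546
    (rowNX 3 0 true false false .pnn 0 3 3 (qsf 0 536870912 0 1230186008 3) ndN0q0 ndN5q3 pcN3 Cut.none Ext.none)

def k0_mm_033 : ∃ t, chk3 f_mm_033 t 1 1 1 = true :=
  ⟨(l 5), by decide +kernel⟩

theorem c_mm_033 : CertNX 0 536870912 0 1230186008 1046898278 26843546 3 true false false .pnn 0 3 3
    ndN0q0 ndN5q3 pcN3 Cut.none Ext.none :=
  certNX0 (fam := true) (s1 := false) (s2 := false) (a := 0) (b := 3) (c := 3) (cn := .pnn) (n1 := ndN0q0) (n2 := ndN5q3) (pc := pcN3) (cut := Cut.none) (xt := Ext.none) (P1 := 0) (W1 := 536870912) (P2 := 0) (W2 := 1230186008) (P3 := 1046898278) (W3 := 26843546) (N0 := 3)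
    rfl k0_mm_033

noncomputable def f_mm_101 : ℕ → ℕ → ℕ → ℕ → Bool := onCell 536870912 536870912 0 536870912 1046898278 26843546
    (rowNX 3 0 true false false .npn 1 0 1 (qsf 536870912 536870912 0 536870912 1) ndN0q1 ndN5q0 pcN1 Cut.none Ext.none)

def k0_mm_101 : ∃ t, chk3 f_mm_101 t 1 1 1 = true :=
  ⟨(a (l 4) (l 4)), by decide +kernel⟩

theorem c_mm_101 : CertNX 536870912 536870912 0 536870912 1046898278 26843546 3 true false false .npn 1 0 1
    ndN0q1 ndN5q0 pcN1 Cut.none Ext.none :=
  certNX0 (fam := true) (s1 := false) (s2 := false) (a := 1) (b := 0) (c := 1) (cn := .npn) (n1 := ndN0q1) (n2 := ndN5q0) (pc := pcN1) (cut := Cut.none) (xt := Ext.none) (P1 := 536870912) (W1 := 536870912) (P2 := 0) (W2 := 536870912) (P3 := 1046898278) (W3 := 26843546) (N0 := 3)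
    rfl k0_mm_101

noncomputable def f_mm_102 : ℕ → ℕ → ℕ → ℕ → Bool := onCell 536870912 536870912 0 536870912 1046898278 26843546
    (rowNX 3 0 true false false .npp 1 0 2 (qsf 536870912 536870912 0 536870912 2) ndN0q1 ndN5q0 pcN2 Cut.none Ext.none)

def k0_mm_102 : ∃ t, chk3 f_mm_102 t 1 1 1 = true :=
  ⟨(a (l 4) (l 4)), by decide +kernel⟩

theorem c_mm_102 : CertNX 536870912 536870912 0 536870912 1046898278 26843546 3 true false false .npp 1 0 2
    ndN0q1 ndN5q0 pcN2 Cut.none Ext.none :=
  certNX0 (fam := true) (s1 := false) (s2 := false) (a := 1) (b := 0) (c := 2) (cn := .npp) (n1 := ndN0q1) (n2 := ndN5q0) (pc := pcN2) (cut := Cut.none) (xt := Ext.none) (P1 := 536870912) (W1 := 536870912) (P2 := 0) (W2 := 536870912) (P3 := 1046898278) (W3 := 26843546) (N0 := 3)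
    rfl k0_mm_102

noncomputable def f_mm_112 : ℕ → ℕ → ℕ → ℕ → Bool := onCell 536870912 536870912 536870912 469762048 1046898278 26843546
    (rowNX 3 0 true false false .dn 1 1 2 (qsf 536870912 536870912 536870912 469762048 2) ndN0q1 ndN5q1 pcN2 Cut.none Ext.none)

def k0_mm_112 : ∃ t, chk3 f_mm_112 t 1 1 1 = true :=
  ⟨(l 4), by decide +kernel⟩

theorem c_mm_112 : CertNX 536870912 536870912 536870912 469762048 1046898278 26843546 3 true false false .dn 1 1 2
    ndN0q1 ndN5q1 pcN2 Cut.none Ext.none :=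
  certNX0 (fam := true) (s1 := false) (s2 := false) (a := 1) (b := 1) (c := 2) (cn := .dn) (n1 := ndN0q1) (n2 := ndN5q1) (pc := pcN2) (cut := Cut.none) (xt := Ext.none) (P1 := 536870912) (W1 := 536870912) (P2 := 536870912) (W2 := 469762048) (P3 := 1046898278) (W3 := 26843546) (N0 := 3)
    rfl k0_mm_112

noncomputable def f_mm_113 : ℕ → ℕ → ℕ → ℕ → Bool := onCell 536870912 536870912 536870912 469762048 1046898278 26843546
    (rowNX 3 0 true false false .nn 1 1 3 (qsf 536870912 536870912 536870912 469762048 3) ndN0q1 ndN5q1 pcN3 Cut.none Ext.none)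

def k0_mm_113 : ∃ t, chk3 f_mm_113 t 1 1 1 = true :=
  ⟨(l 4), by decide +kernel⟩

theorem c_mm_113 : CertNX 536870912 536870912 536870912 469762048 1046898278 26843546 3 true false false .nn 1 1 3
    ndN0q1 ndN5q1 pcN3 Cut.none Ext.none :=
  certNX0 (fam := true) (s1 := false) (s2 := false) (a := 1) (b := 1) (c := 3) (cn := .nn) (n1 := ndN0q1) (n2 := ndN5q1) (pc := pcN3) (cut := Cut.none) (xt := Ext.none) (P1 := 536870912) (W1 := 536870912) (P2 := 536870912) (W2 := 469762048) (P3 := 1046898278) (W3 := 26843546) (N0 := 3)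
    rfl k0_mm_113

noncomputable def f_mm_123 : ℕ → ℕ → ℕ → ℕ → Bool := onCell 536870912 536870912 1073741824 536870912 1046898278 26843546
    (rowNX 3 0 true false false .npn 1 2 3 (qsf 536870912 536870912 1073741824 536870912 3) ndN0q1 ndN5q2 pcN3 Cut.none Ext.none)

def k0_mm_123 : ∃ t, chk3 f_mm_123 t 1 1 1 = true :=
  ⟨(l 4), by decide +kernel⟩

theorem c_mm_123 : CertNX 536870912 536870912 1073741824 536870912 1046898278 26843546 3 true false false .npn 1 2 3
    ndN0q1 ndN5q2 pcN3 Cut.none Ext.none :=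
  certNX0 (fam := true) (s1 := false) (s2 := false) (a := 1) (b := 2) (c := 3) (cn := .npn) (n1 := ndN0q1) (n2 := ndN5q2) (pc := pcN3) (cut := Cut.none) (xt := Ext.none) (P1 := 536870912) (W1 := 536870912) (P2 := 1073741824) (W2 := 536870912) (P3 := 1046898278) (W3 := 26843546) (N0 := 3)
    rfl k0_mm_123

noncomputable def f_mm_133 : ℕ → ℕ → ℕ → ℕ → Bool := onCell 1610612736 536870912 0 1230186008 1046898278 26843546
    (rowNX 3 2 true false false .dn 1 3 3 (qsf 536870912 536870912 0 1230186008 3) ndN0q1 ndN5q3 pcN3 Cut.none Ext.none)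

def k0_mm_133 : ∃ t, chk3 f_mm_133 t 1 1 1 = true :=
  ⟨(l 5), by decide +kernel⟩

theorem c_mm_133 : CertNX 536870912 536870912 0 1230186008 1046898278 26843546 3 true false false .dn 1 3 3
    ndN0q1 ndN5q3 pcN3 Cut.none Ext.none :=
  certNX2 (fam := true) (s1 := false) (s2 := false) (a := 1) (b := 3) (c := 3) (cn := .dn) (n1 := ndN0q1) (n2 := ndN5q3) (pc := pcN3) (cut := Cut.none) (xt := Ext.none) (P1 := 536870912) (W1 := 536870912) (P2 := 0) (W2 := 1230186008) (P3 := 1046898278) (W3 := 26843546) (N0 := 3)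
    rfl (fun _ => rfl) k0_mm_133

noncomputable def f_mm_202 : ℕ → ℕ → ℕ → ℕ → Bool := onCell 0 536870912 0 536870912 1046898278 26843546
    (rowNX 3 0 true false false .pp 2 0 2 (qsf 0 536870912 0 536870912 2) ndN0q2 ndN5q0 pcN2 Cut.none Ext.none)

def k0_mm_202 : ∃ t, chk3 f_mm_202 t 4 8 1 = true :=
  ⟨(b (b (c (a (b (l 16079512) (c (l 15945096) (l 15862224))) (b (l 16175952) (c (l 16068184) (b (l 16279672) (l 16169464))))) (b (c (a (b (l 16229608) (l 16130584)) (b (l 16391440) (l 16317576))) (a (b (c (l 16237152) (l 16240880)) (l 16168536)) (c (l 16139168) (l 16207392)))) (a (c (l 16065544) (l 16083016)) (c (l 16195072) (l 16257752))))) (c (a (c (b (l 15932560) (l 15837176)) (l 15910472)) (b (c (l 16017824) (l 16069576)) (l 16016696))) (a (l 15792216) (a (l 16063576) (l 16132840))))) (a (c (b (l 15676448) (l 15541208)) (b (l 15815368) (l 15727832))) (c (b (l 15816208) (c (l 15982800) (l 15985456))) (b (l 16026096) (l 15968192))))), by decide +kernel⟩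

def k1_mm_202 : ∃ t, chk3 f_mm_202 t 5 8 1 = true :=
  ⟨(b (b (a (c (b (a (l 16334736) (b (l 16212400) (l 16233056))) (c (l 16233808) (l 16155472))) (b (a (c (l 16313688) (b (l 16266424) (l 16337104))) (b (c (l 16175872) (b (l 16083728) (l 16055584))) (c (l 16215712) (l 16208016)))) (c (l 16319096) (l 16360648)))) (c (b (a (l 16028208) (l 16029600)) (a (b (a (l 16164592) (l 16106056)) (c (l 16213160) (l 16229496))) (b (l 16046720) (a (l 16005792) (l 16050176))))) (b (a (b (c (l 16095624) (l 16077304)) (c (l 16025752) (l 16078712))) (c (l 15997784) (b (l 15967448) (l 15991640)))) (a (c (b (l 16032096) (l 16208560)) (a (l 16188472) (l 16120736))) (c (l 15867192) (l 16026832)))))) (b (a (c (a (l 16292288) (l 16424888)) (l 16277992)) (c (a (l 16303552) (a (b (l 16162824) (l 16246488)) (b (l 16113840) (l 16125480)))) (a (l 16272656) (a (l 16153960) (l 15929648))))) (a (c (l 16098160) (l 16290280)) (c (l 16164704) (l 16121616))))) (a (c (b (a (l 16186920) (l 16321704)) (a (l 16180168) (l 16322064)))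 (b (l 16267096) (l 16250312))) (b (c (a (l 16472416) (l 16342288)) (a (l 16490664) (l 16344960))) (c (a (l 16465984) (l 16452904)) (a (l 16471024) (l 16462056)))))), by decide +kernel⟩

def k2_mm_202 : ∃ t, chk3 f_mm_202 t 2 9 1 = true :=
  ⟨(a (b (b (a (c (b (l 15797600) (l 15954288)) (l 15617344)) (b (c (l 15889400) (l 15929752)) (a (l 16093912) (l 16194392)))) (a (l 16084408) (l 16149768))) (a (c (l 16490456) (l 16482672)) (c (l 16547744) (l 16504016)))) (b (a (a (b (c (l 16238640) (l 16289136)) (l 16475744)) (b (c (l 16448856) (l 16442304)) (c (l 16417552) (l 16391664)))) (a (b (a (l 16298880) (l 16405816)) (l 4)) (l 4))) (a (b (a (l 16522336) (l 4)) (l 4)) (l 4)))), by decide +kernel⟩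

def k3_mm_202 : ∃ t, chk3 f_mm_202 t 2 5 1 = true :=
  ⟨(a (a (b (b (c (l 16539152) (l 16532008)) (c (l 16525352) (l 16516648))) (l 4)) (b (b (c (l 16611728) (l 16607600)) (l 4)) (l 4))) (l 4)), by decide +kernel⟩

def k4_mm_202 : ∃ t, chk3 f_mm_202 t 3 2 1 = true :=
  ⟨(b (b (a (b (a (b (c (b (a (l 15879336) (l 15699848)) (a (c (l 15923624) (l 15920288)) (b (l 15698624) (l 15737648)))) (b (c (a (l 15821520) (b (l 15651440) (l 15650040))) (b (a (l 15765128) (c (l 15629464) (l 15615712))) (a (l 15834760) (l 15630728)))) (c (a (l 15906320) (l 15699680)) (l 15626224)))) (a (c (b (b (l 16003256) (l 15883976)) (a (l 16071584) (l 15881672))) (b (l 15830280) (a (l 16081312) (l 15866112)))) (c (b (l 15581248) (l 15932488)) (b (l 15757240) (l 15847096))))) (b (a (b (c (c (a (l 15625152) (l 15667744)) (l 15604752)) (c (b (l 15583600) (l 15564240)) (b (c (l 15560224) (l 15545568)) (l 15543056)))) (a (c (b (l 15568664) (l 15591928)) (c (l 15563208) (l 15522824))) (l 4))) (a (a (b (a (b (b (c (l 15696336)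 (l 15601792)) (l 4)) (l 4)) (l 4)) (l 4)) (l 4)) (l 4))) (l 4))) (a (b (a (c (b (l 16184624) (l 16260832)) (l 16116016)) (l 4)) (l 4)) (l 4))) (l 4)) (l 4)) (l 4)), by decide +kernel⟩

def k5_mm_202 : ∃ t, chk3 f_mm_202 t 1 3 1 = true :=
  ⟨(l 4), by decide +kernel⟩

theorem s6_mm_202 : ∃ t, chk3 f_mm_202 t 2 8 1 = true := ex3_a k0_mm_202 k1_mm_202

theorem s7_mm_202 : ∃ t, chk3 f_mm_202 t 2 4 1 = true := ex3_b s6_mm_202 k2_mm_202

theorem s8_mm_202 : ∃ t, chk3 f_mm_202 t 2 2 1 = true := ex3_b s7_mm_202 k3_mm_202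

theorem s9_mm_202 : ∃ t, chk3 f_mm_202 t 1 2 1 = true := ex3_a s8_mm_202 k4_mm_202

theorem s10_mm_202 : ∃ t, chk3 f_mm_202 t 1 1 1 = true := ex3_b s9_mm_202 k5_mm_202

theorem c_mm_202 : CertNX 0 536870912 0 536870912 1046898278 26843546 3 true false false .pp 2 0 2
    ndN0q2 ndN5q0 pcN2 Cut.none Ext.none :=
  certNX0 (fam := true) (s1 := false) (s2 := false) (a := 2) (b := 0) (c := 2) (cn := .pp) (n1 := ndN0q2) (n2 := ndN5q0) (pc := pcN2) (cut := Cut.none) (xt := Ext.none) (P1 := 0) (W1 := 536870912) (P2 := 0) (W2 := 536870912) (P3 := 1046898278) (W3 := 26843546) (N0 := 3)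
    rfl s10_mm_202

noncomputable def f_mm_203 : ℕ → ℕ → ℕ → ℕ → Bool := onCell 0 536870912 1610612736 536870912 1046898278 26843546
    (rowNX 3 1 true false false .up 2 0 3 (qsf 0 536870912 0 536870912 3) ndN0q2 ndN5q0 pcN3 Cut.none Ext.none)

def k0_mm_203 : ∃ t, chk3 f_mm_203 t 1 1 1 = true :=
  ⟨(l 4), by decide +kernel⟩

theorem c_mm_203 : CertNX 0 536870912 0 536870912 1046898278 26843546 3 true false false .up 2 0 3
    ndN0q2 ndN5q0 pcN3 Cut.none Ext.none :=
  certNX1 (fam := true) (s1 := false) (s2 := false) (a := 2) (b := 0) (c := 3) (cn := .up) (n1 := ndN0q2) (n2 := ndN5q0) (pc := pcN3) (cut := Cut.none) (xt := Ext.none) (P1 := 0) (W1 := 536870912) (P2 := 0) (W2 := 536870912) (P3 := 1046898278) (W3 := 26843546) (N0 := 3)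
    rfl (fun _ => rfl) k0_mm_203

noncomputable def f_mm_213 : ℕ → ℕ → ℕ → ℕ → Bool := onCell 0 536870912 536870912 469762048 1046898278 26843546
    (rowNX 3 0 true false false .pnn 2 1 3 (qsf 0 536870912 536870912 469762048 3) ndN0q2 ndN5q1 pcN3 Cut.none Ext.none)

def k0_mm_213 : ∃ t, chk3 f_mm_213 t 1 1 1 = true :=
  ⟨(l 4), by decide +kernel⟩

theorem c_mm_213 : CertNX 0 536870912 536870912 469762048 1046898278 26843546 3 true false false .pnn 2 1 3
    ndN0q2 ndN5q1 pcN3 Cut.none Ext.none :=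
  certNX0 (fam := true) (s1 := false) (s2 := false) (a := 2) (b := 1) (c := 3) (cn := .pnn) (n1 := ndN0q2) (n2 := ndN5q1) (pc := pcN3) (cut := Cut.none) (xt := Ext.none) (P1 := 0) (W1 := 536870912) (P2 := 536870912) (W2 := 469762048) (P3 := 1046898278) (W3 := 26843546) (N0 := 3)
    rfl k0_mm_213

end Pool.Agent.Strip051.G.IE1.Tab.C.NA05

namespace Pool.Agent.Strip051.G.IE1.Tab.C.NA06

open Pool.Agent.Strip051.PB Pool.Agent.Strip051.PB.T
open Pool.Agent.Strip051.G.IE1.Tab

noncomputable def f_pp_001 : ℕ → ℕ → ℕ → ℕ → Bool := onCell 0 536870912 0 536870912 1046898278 26843546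
    (rowNX 3 0 true true true .up 0 0 1 (qsf 0 536870912 0 536870912 1) ndN0q0 ndN6q0 pcN1 Cut.none Ext.none)

def k0_pp_001 : ∃ t, chk3 f_pp_001 t 1 1 1 = true :=
  ⟨(l 4), by decide +kernel⟩

theorem c_pp_001 : CertNX 0 536870912 0 536870912 1046898278 26843546 3 true true true .up 0 0 1
    ndN0q0 ndN6q0 pcN1 Cut.none Ext.none :=
  certNX0 (fam := true) (s1 := true) (s2 := true) (a := 0) (b := 0) (c := 1) (cn := .up) (n1 := ndN0q0) (n2 := ndN6q0) (pc := pcN1) (cut := Cut.none) (xt := Ext.none) (P1 := 0) (W1 := 536870912) (P2 := 0) (W2 := 536870912) (P3 := 1046898278) (W3 := 26843546) (N0 := 3)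
    rfl k0_pp_001

noncomputable def f_pp_011 : ℕ → ℕ → ℕ → ℕ → Bool := onCell 0 536870912 536870912 469762048 1046898278 26843546
    (rowNX 3 0 true true true .pnn 0 1 1 (qsf 0 536870912 536870912 469762048 1) ndN0q0 ndN6q1 pcN1 Cut.none Ext.none)

def k0_pp_011 : ∃ t, chk3 f_pp_011 t 1 1 1 = true :=
  ⟨(l 4), by decide +kernel⟩

theorem c_pp_011 : CertNX 0 536870912 536870912 469762048 1046898278 26843546 3 true true true .pnn 0 1 1
    ndN0q0 ndN6q1 pcN1 Cut.none Ext.none :=
  certNX0 (fam := true) (s1 := true) (s2 := true) (a := 0) (b := 1) (c := 1) (cn := .pnn) (n1 := ndN0q0) (n2 := ndN6q1) (pc := pcN1) (cut := Cut.none) (xt := Ext.none) (P1 := 0) (W1 := 536870912) (P2 := 536870912) (W2 := 469762048) (P3 := 1046898278) (W3 := 26843546) (N0 := 3)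
    rfl k0_pp_011

noncomputable def f_pp_012 : ℕ → ℕ → ℕ → ℕ → Bool := onCell 0 536870912 536870912 469762048 1046898278 26843546
    (rowNX 3 0 true true true .pnp 0 1 2 (qsf 0 536870912 536870912 469762048 2) ndN0q0 ndN6q1 pcN2 Cut.none Ext.none)

def k0_pp_012 : ∃ t, chk3 f_pp_012 t 1 1 1 = true :=
  ⟨(l 4), by decide +kernel⟩

theorem c_pp_012 : CertNX 0 536870912 536870912 469762048 1046898278 26843546 3 true true true .pnp 0 1 2
    ndN0q0 ndN6q1 pcN2 Cut.none Ext.none :=
  certNX0 (fam := true) (s1 := true) (s2 := true) (a := 0) (b := 1) (c := 2) (cn := .pnp) (n1 := ndN0q0) (n2 := ndN6q1) (pc := pcN2) (cut := Cut.none) (xt := Ext.none) (P1 := 0) (W1 := 536870912) (P2 := 536870912) (W2 := 469762048) (P3 := 1046898278) (W3 := 26843546) (N0 := 3)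
    rfl k0_pp_012

noncomputable def f_pp_022 : ℕ → ℕ → ℕ → ℕ → Bool := onCell 0 536870912 1073741824 536870912 1046898278 26843546
    (rowNX 3 0 true true true .pp 0 2 2 (qsf 0 536870912 1073741824 536870912 2) ndN0q0 ndN6q2 pcN2 Cut.none Ext.none)

def k0_pp_022 : ∃ t, chk3 f_pp_022 t 1 1 1 = true :=
  ⟨(l 4), by decide +kernel⟩

theorem c_pp_022 : CertNX 0 536870912 1073741824 536870912 1046898278 26843546 3 true true true .pp 0 2 2
    ndN0q0 ndN6q2 pcN2 Cut.none Ext.none :=
  certNX0 (fam := true) (s1 := true) (s2 := true) (a := 0) (b := 2) (c := 2) (cn := .pp) (n1 := ndN0q0) (n2 := ndN6q2) (pc := pcN2) (cut := Cut.none) (xt := Ext.none) (P1 := 0) (W1 := 536870912) (P2 := 1073741824) (W2 := 536870912) (P3 := 1046898278) (W3 := 26843546) (N0 := 3)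
    rfl k0_pp_022

noncomputable def f_pp_023 : ℕ → ℕ → ℕ → ℕ → Bool := onCell 0 536870912 1073741824 536870912 1046898278 26843546
    (rowNX 3 0 true true true .up 0 2 3 (qsf 0 536870912 1073741824 536870912 3) ndN0q0 ndN6q2 pcN3 Cut.none Ext.none)

def k0_pp_023 : ∃ t, chk3 f_pp_023 t 1 1 1 = true :=
  ⟨(l 4), by decide +kernel⟩

theorem c_pp_023 : CertNX 0 536870912 1073741824 536870912 1046898278 26843546 3 true true true .up 0 2 3
    ndN0q0 ndN6q2 pcN3 Cut.none Ext.none :=
  certNX0 (fam := true) (s1 := true) (s2 := true) (a := 0) (b := 2) (c := 3) (cn := .up) (n1 := ndN0q0) (n2 := ndN6q2) (pc := pcN3) (cut := Cut.none) (xt := Ext.none) (P1 := 0) (W1 := 536870912) (P2 := 1073741824) (W2 := 536870912) (P3 := 1046898278) (W3 := 26843546) (N0 := 3)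
    rfl k0_pp_023

noncomputable def f_pp_033 : ℕ → ℕ → ℕ → ℕ → Bool := onCell 0 536870912 0 1230186008 1046898278 26843546
    (rowNX 3 0 true true true .pnn 0 3 3 (qsf 0 536870912 0 1230186008 3) ndN0q0 ndN6q3 pcN3 Cut.none Ext.none)

def k0_pp_033 : ∃ t, chk3 f_pp_033 t 1 1 1 = true :=
  ⟨(b (l 4) (l 4)), by decide +kernel⟩

theorem c_pp_033 : CertNX 0 536870912 0 1230186008 1046898278 26843546 3 true true true .pnn 0 3 3
    ndN0q0 ndN6q3 pcN3 Cut.none Ext.none :=
  certNX0 (fam := true) (s1 := true) (s2 := true) (a := 0) (b := 3) (c := 3) (cn := .pnn) (n1 := ndN0q0) (n2 := ndN6q3) (pc := pcN3) (cut := Cut.none) (xt := Ext.none) (P1 := 0) (W1 := 536870912) (P2 := 0) (W2 := 1230186008) (P3 := 1046898278) (W3 := 26843546) (N0 := 3)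
    rfl k0_pp_033

noncomputable def f_pp_101 : ℕ → ℕ → ℕ → ℕ → Bool := onCell 536870912 536870912 0 536870912 1046898278 26843546
    (rowNX 3 0 true true true .npn 1 0 1 (qsf 536870912 536870912 0 536870912 1) ndN0q1 ndN6q0 pcN1 Cut.none Ext.none)

def k0_pp_101 : ∃ t, chk3 f_pp_101 t 1 1 1 = true :=
  ⟨(l 4), by decide +kernel⟩

theorem c_pp_101 : CertNX 536870912 536870912 0 536870912 1046898278 26843546 3 true true true .npn 1 0 1
    ndN0q1 ndN6q0 pcN1 Cut.none Ext.none :=
  certNX0 (fam := true) (s1 := true) (s2 := true) (a := 1) (b := 0) (c := 1) (cn := .npn) (n1 := ndN0q1) (n2 := ndN6q0) (pc := pcN1) (cut := Cut.none) (xt := Ext.none) (P1 := 536870912) (W1 := 536870912) (P2 := 0) (W2 := 536870912) (P3 := 1046898278) (W3 := 26843546) (N0 := 3)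
    rfl k0_pp_101

noncomputable def f_pp_102 : ℕ → ℕ → ℕ → ℕ → Bool := onCell 536870912 536870912 0 536870912 1046898278 26843546
    (rowNX 3 0 true true true .npp 1 0 2 (qsf 536870912 536870912 0 536870912 2) ndN0q1 ndN6q0 pcN2 Cut.none Ext.none)

def k0_pp_102 : ∃ t, chk3 f_pp_102 t 1 1 1 = true :=
  ⟨(l 4), by decide +kernel⟩

theorem c_pp_102 : CertNX 536870912 536870912 0 536870912 1046898278 26843546 3 true true true .npp 1 0 2
    ndN0q1 ndN6q0 pcN2 Cut.none Ext.none :=
  certNX0 (fam := true) (s1 := true) (s2 := true) (a := 1) (b := 0) (c := 2) (cn := .npp) (n1 := ndN0q1) (n2 := ndN6q0) (pc := pcN2) (cut := Cut.none) (xt := Ext.none) (P1 := 536870912) (W1 := 536870912) (P2 := 0) (W2 := 536870912) (P3 := 1046898278) (W3 := 26843546) (N0 := 3)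
    rfl k0_pp_102

noncomputable def f_pp_112 : ℕ → ℕ → ℕ → ℕ → Bool := onCell 536870912 536870912 536870912 469762048 1046898278 26843546
    (rowNX 3 0 true true true .dn 1 1 2 (qsf 536870912 536870912 536870912 469762048 2) ndN0q1 ndN6q1 pcN2 Cut.none Ext.none)

def k0_pp_112 : ∃ t, chk3 f_pp_112 t 1 1 1 = true :=
  ⟨(l 4), by decide +kernel⟩

theorem c_pp_112 : CertNX 536870912 536870912 536870912 469762048 1046898278 26843546 3 true true true .dn 1 1 2
    ndN0q1 ndN6q1 pcN2 Cut.none Ext.none :=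
  certNX0 (fam := true) (s1 := true) (s2 := true) (a := 1) (b := 1) (c := 2) (cn := .dn) (n1 := ndN0q1) (n2 := ndN6q1) (pc := pcN2) (cut := Cut.none) (xt := Ext.none) (P1 := 536870912) (W1 := 536870912) (P2 := 536870912) (W2 := 469762048) (P3 := 1046898278) (W3 := 26843546) (N0 := 3)
    rfl k0_pp_112

noncomputable def f_pp_113 : ℕ → ℕ → ℕ → ℕ → Bool := onCell 536870912 536870912 536870912 469762048 1046898278 26843546
    (rowNX 3 0 true true true .nn 1 1 3 (qsf 536870912 536870912 536870912 469762048 3) ndN0q1 ndN6q1 pcN3 Cut.none Ext.none)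

def k0_pp_113 : ∃ t, chk3 f_pp_113 t 1 1 1 = true :=
  ⟨(l 4), by decide +kernel⟩

theorem c_pp_113 : CertNX 536870912 536870912 536870912 469762048 1046898278 26843546 3 true true true .nn 1 1 3
    ndN0q1 ndN6q1 pcN3 Cut.none Ext.none :=
  certNX0 (fam := true) (s1 := true) (s2 := true) (a := 1) (b := 1) (c := 3) (cn := .nn) (n1 := ndN0q1) (n2 := ndN6q1) (pc := pcN3) (cut := Cut.none) (xt := Ext.none) (P1 := 536870912) (W1 := 536870912) (P2 := 536870912) (W2 := 469762048) (P3 := 1046898278) (W3 := 26843546) (N0 := 3)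
    rfl k0_pp_113

noncomputable def f_pp_123 : ℕ → ℕ → ℕ → ℕ → Bool := onCell 536870912 536870912 1073741824 536870912 1046898278 26843546
    (rowNX 3 0 true true true .npn 1 2 3 (qsf 536870912 536870912 1073741824 536870912 3) ndN0q1 ndN6q2 pcN3 Cut.none Ext.none)

def k0_pp_123 : ∃ t, chk3 f_pp_123 t 1 1 1 = true :=
  ⟨(l 4), by decide +kernel⟩

theorem c_pp_123 : CertNX 536870912 536870912 1073741824 536870912 1046898278 26843546 3 true true true .npn 1 2 3
    ndN0q1 ndN6q2 pcN3 Cut.none Ext.none :=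
  certNX0 (fam := true) (s1 := true) (s2 := true) (a := 1) (b := 2) (c := 3) (cn := .npn) (n1 := ndN0q1) (n2 := ndN6q2) (pc := pcN3) (cut := Cut.none) (xt := Ext.none) (P1 := 536870912) (W1 := 536870912) (P2 := 1073741824) (W2 := 536870912) (P3 := 1046898278) (W3 := 26843546) (N0 := 3)
    rfl k0_pp_123

noncomputable def f_pp_133 : ℕ → ℕ → ℕ → ℕ → Bool := onCell 536870912 536870912 0 1230186008 1046898278 26843546
    (rowNX 3 0 true true true .dn 1 3 3 (qsf 536870912 536870912 0 1230186008 3) ndN0q1 ndN6q3 pcN3 Cut.none Ext.none)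

def k0_pp_133 : ∃ t, chk3 f_pp_133 t 1 1 1 = true :=
  ⟨(l 4), by decide +kernel⟩

theorem c_pp_133 : CertNX 536870912 536870912 0 1230186008 1046898278 26843546 3 true true true .dn 1 3 3
    ndN0q1 ndN6q3 pcN3 Cut.none Ext.none :=
  certNX0 (fam := true) (s1 := true) (s2 := true) (a := 1) (b := 3) (c := 3) (cn := .dn) (n1 := ndN0q1) (n2 := ndN6q3) (pc := pcN3) (cut := Cut.none) (xt := Ext.none) (P1 := 536870912) (W1 := 536870912) (P2 := 0) (W2 := 1230186008) (P3 := 1046898278) (W3 := 26843546) (N0 := 3)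
    rfl k0_pp_133

noncomputable def f_pp_202 : ℕ → ℕ → ℕ → ℕ → Bool := onCell 0 536870912 0 536870912 1046898278 26843546
    (rowNX 3 0 true true true .pp 2 0 2 (qsf 0 536870912 0 536870912 2) ndN0q2 ndN6q0 pcN2 Cut.none Ext.none)

def k0_pp_202 : ∃ t, chk3 f_pp_202 t 1 1 1 = true :=
  ⟨(l 5), by decide +kernel⟩

theorem c_pp_202 : CertNX 0 536870912 0 536870912 1046898278 26843546 3 true true true .pp 2 0 2
    ndN0q2 ndN6q0 pcN2 Cut.none Ext.none :=
  certNX0 (fam := true) (s1 := true) (s2 := true) (a := 2) (b := 0) (c := 2) (cn := .pp) (n1 := ndN0q2) (n2 := ndN6q0) (pc := pcN2) (cut := Cut.none) (xt := Ext.none) (P1 := 0) (W1 := 536870912) (P2 := 0) (W2 := 536870912) (P3 := 1046898278) (W3 := 26843546) (N0 := 3)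
    rfl k0_pp_202

noncomputable def f_pp_203 : ℕ → ℕ → ℕ → ℕ → Bool := onCell 0 536870912 0 536870912 1046898278 26843546
    (rowNX 3 0 true true true .up 2 0 3 (qsf 0 536870912 0 536870912 3) ndN0q2 ndN6q0 pcN3 Cut.none Ext.none)

def k0_pp_203 : ∃ t, chk3 f_pp_203 t 1 1 1 = true :=
  ⟨(l 5), by decide +kernel⟩

theorem c_pp_203 : CertNX 0 536870912 0 536870912 1046898278 26843546 3 true true true .up 2 0 3
    ndN0q2 ndN6q0 pcN3 Cut.none Ext.none :=
  certNX0 (fam := true) (s1 := true) (s2 := true) (a := 2) (b := 0) (c := 3) (cn := .up) (n1 := ndN0q2) (n2 := ndN6q0) (pc := pcN3) (cut := Cut.none) (xt := Ext.none) (P1 := 0) (W1 := 536870912) (P2 := 0) (W2 := 536870912) (P3 := 1046898278) (W3 := 26843546) (N0 := 3)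
    rfl k0_pp_203

noncomputable def f_pp_213 : ℕ → ℕ → ℕ → ℕ → Bool := onCell 0 536870912 536870912 469762048 1046898278 26843546
    (rowNX 3 0 true true true .pnn 2 1 3 (qsf 0 536870912 536870912 469762048 3) ndN0q2 ndN6q1 pcN3 Cut.none Ext.none)

def k0_pp_213 : ∃ t, chk3 f_pp_213 t 1 1 1 = true :=
  ⟨(l 4), by decide +kernel⟩

theorem c_pp_213 : CertNX 0 536870912 536870912 469762048 1046898278 26843546 3 true true true .pnn 2 1 3
    ndN0q2 ndN6q1 pcN3 Cut.none Ext.none :=
  certNX0 (fam := true) (s1 := true) (s2 := true) (a := 2) (b := 1) (c := 3) (cn := .pnn) (n1 := ndN0q2) (n2 := ndN6q1) (pc := pcN3) (cut := Cut.none) (xt := Ext.none) (P1 := 0) (W1 := 536870912) (P2 := 536870912) (W2 := 469762048) (P3 := 1046898278) (W3 := 26843546) (N0 := 3)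
    rfl k0_pp_213

noncomputable def f_pm_001 : ℕ → ℕ → ℕ → ℕ → Bool := onCell 0 536870912 536870912 536870912 1046898278 26843546
    (rowNX 3 1 true true false .up 0 0 1 (qsf 0 536870912 0 536870912 1) ndN0q0 ndN6q0 pcN1 Cut.none Ext.none)

def k0_pm_001 : ∃ t, chk3 f_pm_001 t 1 1 1 = true :=
  ⟨(b (l 3) (b (a (l 3) (b (l 3) (a (l 3) (a (l 3) (b (l 3) (c (l 260013145815) (l 186461828983))))))) (a (l 2) (a (b (b (b (l 3) (l 2)) (l 2)) (l 2)) (a (b (b (c (l 179481763719) (l 165523101847)) (c (l 128948063991) (l 16114800))) (b (b (c (l 15871856) (l 15840008)) (l 2)) (l 2))) (b (b (c (l 212767716919) (l 16435864)) (c (l 16158280) (l 16136504))) (b (b (c (l 15860408) (l 15828176)) (c (b (l 15692288) (l 15605416)) (l 15608704))) (b (c (c (b (l 141294831767) (l 15501544)) (b (l 15536608) (l 15480288))) (l 15473216)) (a (l 2) (c (l 15389920) (b (l 70427435911) (c (l 15320144) (l 15294232))))))))))))), by decide +kernel⟩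

theorem c_pm_001 : CertNX 0 536870912 0 536870912 1046898278 26843546 3 true true false .up 0 0 1
    ndN0q0 ndN6q0 pcN1 Cut.none Ext.none :=
  certNX1 (fam := true) (s1 := true) (s2 := false) (a := 0) (b := 0) (c := 1) (cn := .up) (n1 := ndN0q0) (n2 := ndN6q0) (pc := pcN1) (cut := Cut.none) (xt := Ext.none) (P1 := 0) (W1 := 536870912) (P2 := 0) (W2 := 536870912) (P3 := 1046898278) (W3 := 26843546) (N0 := 3)
    rfl (fun _ => rfl) k0_pm_001

noncomputable def f_pm_011 : ℕ → ℕ → ℕ → ℕ → Bool := onCell 536870912 536870912 536870912 469762048 1046898278 26843546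
    (rowNX 3 2 true true false .pnn 0 1 1 (qsf 0 536870912 536870912 469762048 1) ndN0q0 ndN6q1 pcN1 Cut.none Ext.none)

def k0_pm_011 : ∃ t, chk3 f_pm_011 t 2 1 1 = true :=
  ⟨(l 3), by decide +kernel⟩

def k1_pm_011 : ∃ t, chk3 f_pm_011 t 6 2 1 = true :=
  ⟨(l 3), by decide +kernel⟩

def k2_pm_011 : ∃ t, chk3 f_pm_011 t 14 2 1 = true :=
  ⟨(a (b (b (c (a (l 3) (l 16403456)) (l 588577407895)) (l 3)) (l 3)) (b (c (b (a (l 16273512) (l 16089992)) (a (l 297593052023) (l 16106008))) (b (a (l 16255776) (l 16065808)) (a (l 287929364503) (l 16082376)))) (b (c (a (l 810841708711) (b (l 16116984) (l 325510050839))) (a (l 709909937607) (b (l 16093736) (l 309403866823)))) (a (l 3) (a (l 3) (b (c (l 670181339159) (l 661054343543)) (l 3))))))), by decide +kernel⟩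

def k3_pm_011 : ∃ t, chk3 f_pm_011 t 30 2 1 = true :=
  ⟨(a (b (c (b (l 15869640) (l 15879312)) (b (l 15837720) (l 15847720))) (b (c (b (l 15886376) (l 15890952)) (b (l 15855024) (l 15859760))) (b (c (a (l 15966248) (l 15827064)) (c (l 15872288) (l 15856552))) (c (b (a (l 15970168) (l 15829392)) (a (b (a (l 707225257895) (l 15935992)) (l 332489049063)) (b (l 15830552) (l 15867928)))) (a (b (l 15941752) (b (l 327657180583) (l 343763255927))) (c (l 15803016) (l 15786072))))))) (b (c (a (b (l 15692680) (l 15693208)) (b (l 15604040) (l 15601688))) (b (l 15608080) (l 15607120))) (c (a (b (l 15693720) (b (l 15694088) (l 15694328))) (b (l 15599424) (c (b (l 15608312) (l 15607264)) (l 15586904)))) (b (a (l 15655608) (l 15557920)) (a (b (l 15655992) (l 15656232)) (l 15555632)))))), by decide +kernel⟩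

def k4_pm_011 : ∃ t, chk3 f_pm_011 t 31 2 1 = true :=
  ⟨(b (c (a (c (a (b (c (l 15577424) (l 15561400)) (c (l 15581072) (l 15563864))) (b (l 15502848) (l 15507352))) (a (l 15537192) (b (l 15460720) (c (l 15495296) (l 15480232))))) (c (l 15406880) (a (l 15417760) (l 15351200)))) (a (b (l 15474000) (l 15476176)) (a (c (b (l 15242120) (c (l 15403112) (l 15391792))) (l 15369200)) (c (l 15327464) (b (l 15045240) (a (l 15320848) (l 15289832))))))) (c (a (c (a (b (c (a (l 15596440) (l 15576616)) (l 15566240)) (c (a (b (l 15598336) (l 15599568)) (l 15581504)) (a (l 15567536) (l 15560008)))) (b (l 15511696) (l 15515888))) (a (b (l 15538120) (l 15538704)) (b (c (l 15500568) (l 15484784)) (c (a (l 15519928) (l 15494568)) (a (l 15495000) (l 15478664)))))) (c (b (l 15417424) (l 15424088)) (a (b (l 15427640) (l 15433896)) (l 15368264)))) (a (b (l 15478280) (c (l 15491152) (l 15468776))) (a (c (b (c (l 15346672) (l 15398448)) (a (l 15428504) (c (l 15403528) (l 15392472)))) (l 15382176)) (c (b (l 15341192)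 (l 15349880)) (b (a (l 15328616) (l 15236576)) (a (l 15252224) (c (l 15316272) (l 15302944))))))))), by decide +kernel⟩

def k5_pm_011 : ∃ t, chk3 f_pm_011 t 6 3 1 = true :=
  ⟨(l 3), by decide +kernel⟩

def k6_pm_011 : ∃ t, chk3 f_pm_011 t 14 6 1 = true :=
  ⟨(l 3), by decide +kernel⟩

def k7_pm_011 : ∃ t, chk3 f_pm_011 t 60 6 1 = true :=
  ⟨(b (a (b (b (c (l 577838835959) (l 716888324215)) (l 3)) (l 3)) (b (c (b (a (l 15791464) (b (l 15776680) (l 15724528))) (c (l 299202464455) (l 313697928279))) (b (c (l 15742728) (l 15724464)) (c (l 15625528) (l 15604816)))) (c (b (c (l 309939646647) (l 324971972583)) (a (l 3) (c (l 622935280615) (l 536498858471)))) (c (b (l 337319947303) (l 660516180391)) (l 672327066231))))) (l 3)), by decide +kernel⟩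

def k8_pm_011 : ∃ t, chk3 f_pm_011 t 61 12 1 = true :=
  ⟨(c (a (b (b (b (l 15691192) (l 15664416)) (c (l 15592576) (l 15571368))) (b (c (l 15472144) (l 15448416)) (c (a (l 272358368183) (l 15329016)) (a (l 15297352) (l 15302504))))) (a (b (b (l 15605936) (l 15543104)) (b (l 15421280) (c (l 15307440) (l 15280632)))) (b (b (l 15584624) (c (b (l 15583832) (l 15536256)) (l 15536232))) (c (a (l 15378896) (b (l 15448520) (l 15323088))) (l 15356736))))) (b (a (b (b (l 15652952) (l 15624984)) (l 15538960)) (b (l 15553016) (b (l 15527520) (l 15473952)))) (a (c (b (l 15424376) (l 15273008)) (b (l 15400008) (l 15267040))) (c (b (l 15390336) (l 15259376)) (l 15299392))))), by decide +kernel⟩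

def k9_pm_011 : ∃ t, chk3 f_pm_011 t 61 13 1 = true :=
  ⟨(b (a (b (b (c (c (a (b (l 245514833015) (b (l 248199153271) (b (l 250346618727) (b (l 250883481159) (a (l 3) (l 233703589751)))))) (b (l 15247992) (b (l 15223312) (b (l 15210904) (b (l 15204688) (l 15203424)))))) (a (b (l 15257032) (c (l 287927449207) (l 294369893191))) (l 15203344))) (c (a (l 315307800919) (l 15174568)) (l 15164272))) (c (a (c (a (l 3) (l 258936657671)) (l 277190195575)) (c (l 15287624) (l 15260336))) (c (a (l 285780223239) (l 15232688)) (l 15223704)))) (a (l 3) (c (b (c (l 15470800) (l 15467640)) (c (l 255716026663) (l 264305956535))) (c (b (l 15401248) (l 15572448)) (l 15400472))))) (c (b (b (c (a (a (a (l 15209808) (l 15206640)) (l 15211632)) (c (a (l 15225248) (l 15213096)) (l 15214296))) (a (l 15160232) (l 15192904))) (a (c (l 15265584) (l 15237968)) (c (c (a (l 15280712) (l 15289632)) (l 15270352)) (l 15249800)))) (c (a (b (l 15427464) (l 15591904)) (a (l 15517744) (a (l 15522792) (b (l 15445552) (l 15589128)))))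 (a (b (l 15403016) (l 15570656)) (l 15498480)))) (b (b (c (l 15158136) (l 15128752)) (c (l 15216096) (l 15187872))) (c (a (b (l 15378256) (l 15549144)) (l 15475656)) (l 15299488))))) (a (a (l 3) (a (l 3) (b (b (c (l 266453731943) (l 519319671639)) (l 3)) (l 3)))) (c (b (a (b (c (l 15758880) (l 15740864)) (a (l 290076190199) (l 15922720))) (c (a (l 15851768) (c (b (l 15780848) (l 15949624)) (l 15854392))) (l 15797104))) (a (b (c (l 287929025767) (l 295982082215)) (c (l 417315260887) (l 423220823287))) (c (a (l 16090904) (c (b (l 16078936) (l 16231656)) (l 16179144))) (l 16021928)))) (b (c (a (b (l 15722624) (l 15835808)) (l 15822824)) (a (l 295444428983) (l 15806400))) (c (a (b (l 302961375623) (l 442548170119)) (l 16012416)) (a (l 471538795543) (l 16086688))))))), by decide +kernel⟩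

def k10_pm_011 : ∃ t, chk3 f_pm_011 t 31 6 4 = true :=
  ⟨(b (a (a (b (a (c (b (l 15600488) (a (l 15576264) (l 15589160))) (b (l 15567520) (l 15550592))) (c (l 15582456) (a (l 15556016) (l 15559864)))) (a (c (c (a (l 15419920) (l 15446544)) (a (l 15396880) (l 15417416))) (l 15388744)) (a (c (l 15446024) (l 15385680)) (c (l 15447424) (l 15259064))))) (b (l 15456016) (a (c (l 15434064) (b (l 15493752) (l 15372472))) (b (l 15477088) (l 15366960))))) (b (l 15428976) (a (b (l 15447600) (l 15371728)) (l 15386728)))) (a (c (b (a (b (b (a (a (c (l 15261544) (l 15216208)) (a (l 15270176) (l 15279944))) (l 15265760)) (a (a (c (l 15317256) (l 15292952)) (c (l 15345160) (l 15314480))) (l 15342928))) (a (a (c (l 15559768) (l 15494408)) (c (l 15588120) (l 15558216))) (b (l 15504632) (l 15668904)))) (b (b (l 15275920) (l 15331976)) (l 15575136))) (b (a (a (a (c (l 15871024) (l 15743968)) (c (l 15879008) (l 15892096))) (b (l 15793760) (l 15942104))) (l 15908296)) (a (a (a (c (l 16129312) (l 16045432))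 (c (l 16137896) (l 16131104))) (b (l 16092928) (l 16246192))) (l 16167616)))) (b (a (b (b (a (l 15227904) (a (l 15246504) (l 15267440))) (a (l 15284112) (a (l 15302944) (l 15324136)))) (a (a (l 15525056) (l 15532776)) (a (c (l 15556840) (l 15536320)) (c (l 15582112) (l 15555616))))) (b (b (a (l 15276240) (l 15268208)) (a (l 15333056) (l 15324912))) (a (l 15390248) (l 15570608)))) (a (b (a (a (l 15860864) (l 15784824)) (a (c (l 15892400) (l 15873168)) (c (l 15918240) (l 15892880)))) (a (a (l 16206688) (l 16067864)) (a (c (l 16133120) (l 16157144)) (c (l 16159536) (l 16156312))))) (c (b (l 15910976) (l 16131064)) (a (b (l 15833008) (l 16096976)) (l 15829208)))))) (b (b (b (l 15288232) (l 15344792)) (l 15484416)) (b (l 15819464) (l 16059832))))), by decide +kernel⟩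

def k11_pm_011 : ∃ t, chk3 f_pm_011 t 31 6 5 = true :=
  ⟨(b (a (a (b (b (l 15539056) (l 15525088)) (c (l 15381448) (l 15368592))) (b (c (a (l 15523208) (l 15499056)) (a (l 15496944) (l 15482712))) (a (c (a (l 15403104) (c (l 15429072) (l 15406968))) (l 15384104)) (c (b (l 15474192) (l 15362712)) (b (b (l 15479448) (l 15440024)) (l 15344504)))))) (a (b (l 15438488) (a (b (l 15445048) (l 15351968)) (l 15385168))) (b (l 15378432) (l 15362528)))) (a (a (b (b (b (l 15212032) (l 15269160)) (a (l 15511512) (l 15524344))) (b (a (l 15852296) (l 15739520)) (a (l 16161232) (l 16027728)))) (c (b (b (b (a (a (l 15242112) (l 15260000)) (l 15265640)) (a (a (l 15299232) (l 15317360)) (l 15323072))) (a (a (l 15547264) (c (l 15576072) (l 15553584))) (l 15571488))) (a (b (a (l 15761144) (c (l 15915568) (l 15894320))) (a (l 16048040) (c (l 16202248) (l 16182264)))) (b (l 15911728) (l 16136264)))) (b (b (b (a (l 15222688) (c (l 15253576) (l 15240152))) (a (l 15280320) (a (l 15301024) (l 15310424)))) (a (l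 15530712) (c (l 15393904) (l 15486664)))) (a (b (l 15873608) (l 16184720)) (a (c (b (l 15898112) (l 16145984)) (l 15804776)) (b (l 15758152) (l 16028064))))))) (b (b (a (b (a (l 15254376) (l 15258376)) (a (l 15312040) (l 15316088))) (b (l 15272560) (l 15330456))) (a (a (l 15477664) (l 15565608)) (l 15580192))) (a (b (a (l 15714552) (l 15907400)) (a (c (l 16255424) (l 16111424)) (l 16259400))) (l 15866496))))), by decide +kernel⟩

def k12_pm_011 : ∃ t, chk3 f_pm_011 t 31 12 3 = true :=
  ⟨(a (b (a (b (l 15506272) (l 15491832)) (l 15455936)) (a (l 15232168) (b (c (l 15425120) (l 15401344)) (l 15294408)))) (a (c (b (a (l 15433072) (c (l 15408824) (l 15397912))) (a (c (b (l 15432648) (l 15338224)) (l 15363144)) (c (l 15352072) (b (l 15399000) (l 15331184))))) (b (l 15389912) (l 15337736))) (c (b (l 15356248) (b (l 15359376) (l 15327968))) (a (c (b (l 15351912) (b (l 15354816) (l 15189448))) (l 15330416)) (c (l 15319856) (b (l 15309856) (a (l 15308600) (l 15300528)))))))), by decide +kernel⟩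

def k13_pm_011 : ∃ t, chk3 f_pm_011 t 31 13 3 = true :=
  ⟨(c (a (b (b (b (l 15174480) (l 15253880)) (a (l 15495488) (l 15520056))) (b (a (l 15843056) (l 15868152)) (a (l 16095968) (l 16100648)))) (b (a (b (a (b (c (l 15239216) (l 15216784)) (c (l 15297848) (l 15275888))) (c (b (l 15244488) (l 15303192)) (b (l 15231936) (l 15291264)))) (a (c (a (l 15549176) (l 15556832)) (l 15531704)) (c (l 15556688) (a (l 15546288) (l 15552136))))) (b (b (l 15248352) (l 15307504)) (l 15499560))) (c (a (a (b (c (l 15756624) (l 15873872)) (a (l 16064592) (l 16093608))) (b (l 15903816) (l 16198280))) (l 15860184)) (a (a (l 15851160) (b (c (l 15839424) (l 15895640)) (c (l 16073696) (l 16152544)))) (b (l 15908752) (l 16102168)))))) (a (b (b (b (l 15166912) (l 15226520)) (l 15485640)) (b (l 15714472) (a (l 16108008) (l 16218312)))) (a (b (b (b (l 15201408) (l 15261504)) (l 15521312)) (b (l 15876904) (l 16221840))) (c (b (a (b (b (l 15222600) (l 15282600)) (a (l 15543136) (l 15544240))) (b (l 15263312) (l 15552520)))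 (a (b (a (l 15897424) (l 15814664)) (a (l 16199112) (l 16053464))) (l 15878472))) (b (b (a (l 15240320) (b (l 15218928) (l 15279704))) (a (l 15532208) (a (l 15537088) (l 15544232)))) (a (l 15967928) (b (a (l 15895032) (l 15860440)) (a (l 16158448) (c (l 16272432) (l 16186528)))))))))), by decide +kernel⟩

def k14_pm_011 : ∃ t, chk3 f_pm_011 t 14 7 1 = true :=
  ⟨(l 3), by decide +kernel⟩

def k15_pm_011 : ∃ t, chk3 f_pm_011 t 30 14 1 = true :=
  ⟨(b (a (l 3) (a (l 3) (a (l 3) (b (b (c (c (c (a (l 16461352) (l 16386768)) (l 16462480)) (l 16438224)) (l 285782240951)) (c (c (c (l 270750175159) (l 16558760)) (l 16558032)) (l 300814994503))) (a (l 3) (b (c (c (c (l 629379690279) (l 16479120)) (l 16455504)) (l 417852577271)) (l 3))))))) (l 3)), by decide +kernel⟩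

def k16_pm_011 : ∃ t, chk3 f_pm_011 t 124 28 1 = true :=
  ⟨(c (b (c (a (c (a (c (l 16376280) (l 16356608)) (c (l 16406448) (l 16379824))) (b (l 16393056) (l 16502232))) (c (b (l 16401880) (c (l 16497784) (l 16455656))) (a (a (l 16349472) (l 16360064)) (c (l 16431568) (l 16408584))))) (c (b (l 16375904) (l 16461112)) (l 16381288))) (c (b (a (c (c (a (l 16402176) (l 16364168)) (a (l 16415448) (l 16403472))) (l 250348744631)) (c (a (c (l 16405416) (l 16366720)) (l 16392376)) (a (c (l 16383664) (l 16415448)) (c (l 16369248) (l 16363720))))) (a (c (a (b (c (b (l 16365600) (l 16354976)) (b (l 16378656) (l 16368072))) (c (l 446306566935) (l 420536807975))) (c (b (b (l 16306048) (l 16316168)) (l 16320960)) (b (b (l 16345272) (l 16334520)) (l 16339552)))) (b (b (a (l 16378936) (l 16356928)) (l 249811823367)) (a (l 16376592) (l 16351400)))) (c (a (c (b (l 16278704) (l 16298824)) (b (b (l 16307992) (l 16297032)) (l 16301728))) (b (l 16286352) (l 16285472))) (a (c (b (b (l 16324824) (l 16313960))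 (l 16318872)) (b (b (l 16335392) (l 16324560)) (l 16329632))) (c (b (b (l 16288944) (l 16277880)) (l 16282512)) (b (b (l 16304240) (l 16293256)) (l 16298096))))))) (b (a (l 16424072) (l 16319584)) (a (b (l 260549224423) (l 16360720)) (b (b (a (l 16332744) (l 16311768)) (l 16311104)) (l 16316160)))))) (b (c (l 16358848) (l 16356920)) (b (c (l 16357040) (l 16373512)) (b (b (c (l 16336784) (l 16330248)) (l 271286587639)) (c (l 268602217495) (l 280413361879)))))), by decide +kernel⟩

def k17_pm_011 : ∃ t, chk3 f_pm_011 t 124 29 1 = true :=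
  ⟨(b (c (a (a (l 3) (c (c (c (b (a (l 16359600) (c (l 16333688) (l 16338264))) (l 496772481975)) (b (l 275581581463) (l 16365592))) (c (b (a (l 16390888) (l 235853185175)) (l 339469381959)) (l 16349016))) (l 355575406311))) (c (c (a (c (b (b (l 16306856) (l 16327800)) (l 16372280)) (b (b (l 16309856) (l 16330944)) (a (l 16386048) (l 16362824)))) (b (l 16298648) (l 16345544))) (a (c (b (b (l 16327304) (l 16348768)) (l 16373144)) (b (a (l 16357968) (l 16299768)) (l 16405800))) (c (b (a (l 16302600) (l 16285000)) (l 16300968)) (b (a (l 16301672) (l 16300872)) (l 16359648))))) (b (a (l 16347528) (c (a (l 16327552) (l 16314056)) (l 16318480))) (a (l 16403872) (c (l 16369712) (l 16367400)))))) (b (a (c (l 287929672311) (l 307257012183)) (c (b (l 16317888) (l 16336024)) (l 16300792))) (c (l 276655357655) (l 297593311143)))) (a (l 3) (c (c (c (a (c (l 495698820615) (a (l 3) (l 513952407671))) (b (l 16405560) (l 280413654519))) (c (a (l 341616860599) (a (l 16360192) (b (l 16390536) (l 16451712))))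 (a (l 340543169975) (a (l 319605146247) (l 16438752))))) (a (l 343764421095) (c (b (l 16389640) (l 252496401079)) (l 16461424)))) (c (l 276118609111) (l 296519693655))))), by decide +kernel⟩

def k18_pm_011 : ∃ t, chk3 f_pm_011 t 250 14 1 = true :=
  ⟨(b (c (b (c (c (l 16460216) (b (l 16424648) (l 16423960))) (c (a (l 16344800) (a (l 16357136) (l 16386528))) (l 16421872))) (c (b (c (l 16379168) (a (l 16309968) (l 16357712))) (c (l 16272832) (a (b (b (l 16250280) (l 16260112)) (l 16264680)) (l 16249888)))) (b (c (a (l 16283720) (c (l 16353336) (l 16365448))) (l 16382800)) (c (a (c (b (l 16215080) (l 16277192)) (b (l 16286416) (l 16285760))) (c (b (l 16203264) (l 16244072)) (b (l 16236152) (l 16256184)))) (b (l 16274024) (l 16273280)))))) (b (l 16399008) (b (l 16376424) (b (l 16264984) (l 16264152))))) (c (c (c (b (b (l 16282288) (l 16315000)) (b (l 16372504) (l 16433296))) (b (a (b (c (l 16272272) (l 16273096)) (c (l 16309272) (a (l 16319464) (l 16298216)))) (b (l 16258488) (l 16285304)))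 (a (c (l 16399240) (a (l 16368416) (l 16304424))) (l 16372488)))) (b (c (a (b (c (l 16287392) (l 16296224)) (c (l 16262320) (l 16334528))) (c (b (l 16253192) (a (l 16287416) (l 16268728))) (b (l 16265656) (a (l 16305040) (l 16281600))))) (b (l 16283576) (a (l 16332808) (l 16300600)))) (c (a (c (a (c (l 16427800) (l 16435616)) (l 16404240)) (l 16322096)) (c (c (l 16280072) (l 16305560)) (a (l 16311720) (l 16369528)))) (a (l 16425824) (l 16327296))))) (b (b (l 16274592) (c (l 16312512) (l 16305512))) (c (l 16341208) (l 16356664))))), by decide +kernel⟩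

def k19_pm_011 : ∃ t, chk3 f_pm_011 t 251 14 1 = true :=
  ⟨(c (b (c (b (l 16420312) (b (l 16347640) (b (l 16241008) (l 16240040)))) (b (c (l 16366296) (a (a (l 16432776) (l 16354088)) (b (l 16404824) (l 16381064)))) (b (c (l 16268376) (a (c (l 16301064) (l 16352136)) (c (l 16316512) (l 16302080)))) (c (b (b (l 16228456) (l 16217112)) (l 16221568)) (a (c (a (l 16224136) (l 16226632)) (l 16242296)) (a (c (l 16210848) (l 16223776)) (c (l 16199288) (l 16205936)))))))) (c (b (b (l 16249280) (c (l 16274352) (l 16261896))) (c (l 16329016) (l 16337736))) (c (b (a (c (l 16245248) (b (l 16233864) (a (l 16258680) (l 16242608)))) (l 16229416)) (a (c (l 16335688) (a (l 16343112) (l 16322984))) (l 16308976))) (b (a (c (b (l 16242064) (a (l 16274512) (l 16252064))) (l 16219640)) (c (b (l 16214576) (l 16228504)) (a (l 16239920) (l 16220720)))) (a (c (c (l 16300352) (l 16288344)) (l 16354448)) (c (a (l 16309472) (l 16290368)) (a (l 16324416) (l 16277336)))))))) (b (b (l 16378784) (b (l 16251920) (c (b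 (l 16228040) (l 16226968)) (l 16219448)))) (b (c (a (l 16257112) (l 16233680)) (l 16238408)) (c (c (l 16292880) (l 16331672)) (l 16326696))))), by decide +kernel⟩

def k20_pm_011 : ∃ t, chk3 f_pm_011 t 63 14 2 = true :=
  ⟨(b (a (b (c (l 16371792) (a (c (l 16424936) (l 16314872)) (l 16390808))) (c (b (l 16298288) (b (l 16191256) (l 16190024))) (b (a (c (l 16305880) (l 16214096)) (l 16269920)) (a (c (l 16196680) (a (c (l 16191288) (l 16187296)) (l 16177584))) (l 16159784))))) (b (l 16316616) (b (l 16217992) (l 16108184)))) (a (c (b (l 16204872) (a (b (l 16258704) (l 16314096)) (b (l 16207576) (l 16248440)))) (a (b (c (l 16211040) (a (l 16204328) (l 16191544))) (a (c (l 16286296) (c (l 16272776) (a (l 16275968) (l 16258504)))) (b (l 16226072) (l 16280896)))) (b (l 16173568) (b (l 16194712) (l 16236088))))) (b (l 16120816) (b (l 16137536) (a (l 16181888) (l 16129760)))))), by decide +kernel⟩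

def k21_pm_011 : ∃ t, chk3 f_pm_011 t 63 28 3 = true :=
  ⟨(a (c (b (a (c (a (l 16322536) (l 16301880)) (l 16424272)) (c (l 16342576) (a (l 16328040) (l 16266896)))) (a (b (c (a (l 16177480) (l 16156336)) (l 16297864)) (c (a (c (b (l 16150736) (l 16191296)) (l 16198512)) (c (l 16168272) (b (l 16172168) (l 16170656)))) (l 16185456))) (c (b (l 16259664) (b (l 16148544) (l 16146912))) (b (a (l 16242728) (l 16181168)) (a (c (l 16108976) (l 16154776)) (c (l 16130440) (l 16130512))))))) (b (l 16361888) (b (l 16273224) (l 16158904)))) (c (b (a (l 16266456) (l 16377128)) (b (a (l 16181704) (l 16186784)) (a (c (l 16114896) (l 16106872)) (l 16073440)))) (a (b (c (a (l 16312776) (c (l 16379376) (l 16315408))) (l 16409312)) (c (b (a (l 16224296) (c (l 16207312) (l 16204976))) (a (l 16088824) (c (l 16092880) (l 16089968)))) (b (l 16213368) (l 16097712)))) (b (c (l 16310992) (a (l 16257696) (c (l 16363440) (l 16258096)))) (c (b (l 16179768) (l 16064728)) (c (a (b (l 16186344) (l 16070600)) (l 15983592))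 (b (l 16112696) (a (l 16067536) (l 16048928))))))))), by decide +kernel⟩

def k22_pm_011 : ∃ t, chk3 f_pm_011 t 63 29 3 = true :=
  ⟨(a (b (c (a (c (a (c (a (l 16217056) (l 16199472)) (l 16213272)) (c (l 16181984) (l 16185408))) (l 16200056)) (c (l 16161336) (a (c (l 16164608) (l 16168776)) (c (l 16143688) (l 16143904))))) (l 16173176)) (c (a (c (a (c (a (l 16288760) (c (l 16260816) (l 16270128))) (l 16282376)) (c (b (l 16210296) (l 16265352)) (a (l 16233496) (b (l 16204424) (l 16259040))))) (l 16201440)) (a (c (c (l 16215224) (b (l 16184456) (l 16232136))) (c (b (a (l 16196104) (l 16177952)) (l 16234528)) (l 16215968))) (c (l 16191112) (c (b (l 16161736) (l 16199176)) (b (l 16162120) (l 16199784)))))) (a (l 16237680) (b (l 16174528) (l 16217128))))) (c (a (c (b (l 16128008) (l 16158592)) (b (l 16119872) (a (b (l 16146416) (l 16173288)) (l 16138768)))) (l 16097304)) (a (c (a (b (l 16122936) (c (b (l 16140640) (l 16167584)) (l 16156416))) (c (l 16098120) (a (l 16078640) (l 16036120)))) (l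 16126656)) (c (a (l 16098648) (l 16078776)) (a (c (a (l 16098080) (l 16089528)) (l 16091904)) (c (l 16074352) (a (l 16077784) (l 16067088)))))))), by decide +kernel⟩

def k23_pm_011 : ∃ t, chk3 f_pm_011 t 30 15 1 = true :=
  ⟨(l 3), by decide +kernel⟩

def k24_pm_011 : ∃ t, chk3 f_pm_011 t 31 60 2 = true :=
  ⟨(a (a (a (l 3) (a (l 3) (a (l 3) (c (c (l 465634241399) (c (l 494088365127) (l 16502096))) (c (l 381882413479) (l 16539376)))))) (c (a (c (b (l 16453184) (l 278266327351)) (a (c (l 510194453751) (a (l 377587340471) (c (l 16510208) (l 16428480)))) (l 16433072))) (c (a (l 16425464) (l 16457264)) (b (l 16429592) (l 16492104)))) (a (c (a (c (a (c (l 16512208) (l 368997481319)) (l 16466872)) (l 356649411047)) (c (a (c (l 16432560) (l 16505744)) (c (l 16477880) (l 16436752))) (c (l 16419536) (a (l 16463312) (l 16480048))))) (b (l 248201418727) (l 262697060359))) (c (a (c (l 16458928) (a (l 16383240) (l 16404392))) (l 16431984)) (a (c (a (b (l 16453888) (l 16496744)) (l 16352976)) (l 16438632))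 (c (a (l 16370232) (l 16413440)) (a (l 16386664) (c (l 16418384) (l 16429656))))))))) (a (c (a (b (l 16374752) (l 16436416)) (l 16338280)) (a (c (l 16372560) (a (c (l 16394904) (a (l 16378216) (l 16380608))) (l 16367224))) (l 16264280))) (a (l 16222288) (l 16194848)))), by decide +kernel⟩

def k25_pm_011 : ∃ t, chk3 f_pm_011 t 62 61 2 = true :=
  ⟨(a (l 3) (a (a (l 3) (b (b (c (c (l 16594448) (l 16575336)) (c (c (a (l 16581128) (l 16558632)) (a (l 16581664) (l 16574800))) (l 16577568))) (a (l 3) (c (l 437180263879) (c (c (c (l 16613928) (l 16571936)) (l 16566584)) (l 16602256))))) (l 3))) (b (c (b (c (l 16551152) (l 16539656)) (c (l 16521584) (l 16532968))) (c (b (a (c (l 16538008) (a (l 16546704) (l 16525496))) (l 16510928)) (c (l 16541120) (a (c (a (l 16574728) (l 16579216)) (l 16529504)) (l 16559960)))) (b (a (c (a (l 16566272) (l 16537752)) (l 16561504)) (c (l 16462120) (a (l 16529896) (l 16502136)))) (a (c (a (l 16557952) (l 16529176)) (l 16574392)) (c (a (l 16545656) (l 16546384))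 (c (l 16502784) (l 16512536))))))) (a (c (b (l 16623296) (c (b (l 16660528) (l 275582252679)) (l 278803470119))) (c (c (b (l 16635560) (l 253570560631)) (a (b (l 253570501239) (b (l 368460988375) (l 3))) (c (l 16614472) (l 242833058119)))) (a (c (b (l 16637568) (c (l 352354783943) (l 342154235543))) (l 16616904)) (c (a (l 16615088) (l 16621264)) (l 16625344))))) (c (b (l 16605240) (l 16636648)) (c (c (l 16592296) (l 16595104)) (c (a (l 16580608) (l 16581120)) (c (l 16559184) (l 16569392))))))))), by decide +kernel⟩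

def k26_pm_011 : ∃ t, chk3 f_pm_011 t 63 61 2 = true :=
  ⟨(b (a (b (c (a (l 16483336) (l 16415008)) (a (c (l 16472064) (a (c (l 16473712) (l 16470408)) (l 16445864))) (l 16405000))) (c (a (l 16475328) (l 16469456)) (c (a (c (l 16510480) (l 16502776)) (l 16443016)) (a (a (c (l 16527600) (l 16461576)) (l 16499744)) (l 16455256))))) (b (l 16304504) (c (l 16361664) (c (l 16356984) (l 16352312))))) (c (a (a (a (l 16572856) (l 16560312)) (l 16486336)) (l 16377416)) (a (a (c (c (l 16530560) (l 16516768)) (a (c (l 16583200) (c (l 16556720) (l 16538408))) (l 16555416))) (c (c (l 16506480) (l 16496168)) (l 16510576))) (c (b (l 16395560) (l 16434736)) (l 16406616))))), by decide +kernel⟩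

def k27_pm_011 : ∃ t, chk3 f_pm_011 t 62 31 2 = true :=
  ⟨(a (l 3) (a (l 3) (b (a (b (a (l 3) (c (c (l 16589256) (l 16588512)) (c (c (l 16586944) (c (l 16631464) (l 16635256))) (c (l 332490470391) (l 16598344))))) (l 3)) (c (b (b (c (l 292225162759) (b (l 16627248) (l 16605008))) (c (l 16590360) (l 16581840))) (c (c (b (l 276655811447) (b (a (l 3) (a (l 3) (a (a (l 3) (l 374903162743)) (l 16544168)))) (l 3))) (l 16544984)) (l 478519168711))) (c (b (b (c (l 16590336) (c (l 16611896) (l 16641888))) (c (l 16597408) (l 16606808))) (c (l 358260078215) (c (l 16562056) (l 16594496)))) (b (b (c (a (c (l 16623928) (l 16634560)) (b (l 16653032) (l 16651768))) (a (c (l 16597560) (l 16610288)) (c (l 16614032) (l 16598512)))) (c (a (l 16611624) (l 16632672)) (a (l 16567368) (l 16576848)))) (c (a (l 326584820663) (l 16552464)) (a (l 305646806759) (c (l 16586168) (l 16570312)))))))) (l 3)))), by decide +kernel⟩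

def k28_pm_011 : ∃ t, chk3 f_pm_011 t 63 62 2 = true :=
  ⟨(b (c (a (a (b (a (l 16560392) (l 16616536)) (a (l 16555280) (b (l 16585888) (l 16561544)))) (c (l 16532032) (l 16518768))) (l 16498280)) (a (c (a (c (b (l 16570712) (a (l 16578584) (l 16553576))) (b (a (l 16608200) (l 16614408)) (a (l 16584936) (c (l 16572080) (l 16599416))))) (c (l 16522816) (l 16541296))) (a (a (a (c (l 16581248) (b (c (l 16625584) (l 16617240)) (l 16623296))) (b (l 16623784) (l 16596584))) (b (l 16648440) (l 16588752))) (l 16548624))) (c (c (l 16522240) (l 16483696)) (l 16522944)))) (c (a (a (c (b (l 16550960) (a (c (c (b (l 16541568) (a (c (b (a (c (l 16541832) (l 16537064)) (l 16535272)) (a (l 16542360) (l 16534728))) (b (l 16532608) (a (c (l 16531696) (l 16506384)) (l 16525744)))) (c (b (l 16530928) (a (l 16528656) (l 16524168))) (l 16525096)))) (l 16530080)) (l 16522688)) (l 16519520))) (l 16498112)) (b (a (l 16512432) (l 16517120)) (l 16500792))) (a (b (l 16542432) (l 16440224)) (l 16485064))) (a (c (a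 (c (a (l 297056762823) (l 16521568)) (c (l 234242920535) (l 16563192))) (c (b (a (l 16529424) (l 16510688)) (l 16494096)) (b (a (l 16533744) (l 16514032)) (l 16523136)))) (a (a (c (l 16580288) (a (l 239074847959) (l 16583568))) (l 16563744)) (a (l 16527120) (l 16522336)))) (c (c (a (b (l 16556872) (l 16474008)) (l 16499248)) (a (b (l 16559256) (c (l 16498472) (l 16525616))) (l 16503944))) (a (b (l 16582664) (l 16525072)) (l 16527208)))))), by decide +kernel⟩

def k29_pm_011 : ∃ t, chk3 f_pm_011 t 126 252 8 = true :=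
  ⟨(a (c (a (c (b (a (c (l 16547224) (b (a (l 16531584) (c (l 16526672) (l 16520760))) (l 16532664))) (c (b (a (l 16530208) (l 16522928)) (l 16531408)) (b (b (l 16517448) (l 16515936)) (a (l 16519432) (l 16512544))))) (l 16542152)) (b (b (a (c (a (l 384029939319) (l 16495080)) (l 16513864)) (l 16511088)) (a (a (l 3) (c (c (l 16515904) (l 16510424)) (l 16506200))) (c (l 16507216) (l 16502864)))) (a (c (l 16524504) (b (a (l 3) (c (l 16504992) (l 16478976))) (l 16509720))) (c (b (a (l 16508496) (l 16501992)) (l 16508784)) (b (l 16497032) (a (c (l 16500096) (l 16493464)) (c (l 16492920) (l 16467344)))))))) (c (b (a (c (b (l 16515760) (a (l 16518088) (l 16511192))) (l 16508832)) (l 16506752)) (a (c (l 16522328) (b (a (l 16507272) (l 16500760)) (l 16507680))) (c (b (l 16504664) (l 16507720)) (b (l 16495312) (a (l 16495384) (l 16490296)))))) (b (l 16501576) (a (c (b (l 16495816) (a (l 16496296) (l 16490176))) (l 16488864)) (l 16486408))))) (a (b (l 16501304) (c (a (c (b (l 265918296919) (a (l 3)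 (c (l 16493928) (l 16468344)))) (l 418926481639)) (l 16488384)) (l 16483872))) (l 16485768))) (a (c (b (l 16499848) (c (a (c (b (l 16497008) (l 16495432)) (l 16489656)) (l 16489608)) (l 16482920))) (l 16479448)) (l 16482688))), by decide +kernel⟩

def k30_pm_011 : ∃ t, chk3 f_pm_011 t 252 253 8 = true :=
  ⟨(a (a (l 3) (c (b (c (l 16545976) (a (l 16513872) (l 16483664))) (l 278266318679)) (c (b (c (b (a (c (l 16488544) (l 16461376)) (c (l 16460912) (l 16456744))) (a (l 16489280) (l 16480792))) (b (l 16476128) (a (c (l 16476840) (l 253033351591)) (a (l 16470120) (l 16446976))))) (b (c (l 16490720) (a (l 16476992) (c (l 16472072) (l 16454224)))) (l 16487624))) (b (l 16467312) (a (a (l 3) (b (b (l 16438136) (l 3)) (l 3))) (c (b (c (l 16438424) (l 16456120)) (c (l 16459728) (b (l 16431272) (l 16431248)))) (l 283634934327))))))) (c (c (a (l 16533400) (l 16494280)) (b (a (c (l 16499368) (b (a (l 16474672) (l 16479432)) (l 16484592))) (c (b (a (l 16484192) (l 16479152)) (l 16484136)) (b (l 16474360)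 (a (l 16472992) (l 16467968))))) (a (l 16502688) (c (l 16493016) (b (l 16451232) (l 16477208)))))) (c (b (a (c (b (l 16475168) (a (c (l 16476040) (l 16449312)) (l 16468528))) (l 16468112)) (l 16465544)) (a (c (b (a (l 16476352) (l 16468200)) (l 16477648)) (b (a (c (l 16443376) (l 16438064)) (l 16457456)) (a (l 16464064) (c (l 16459136) (l 16431248))))) (c (b (a (l 16461648) (l 16456784)) (a (l 16463440) (l 16455752))) (b (l 16453064) (a (c (l 16430936) (l 16426064)) (l 16424624)))))) (a (b (l 16463024) (c (b (l 16453808) (a (c (l 16442040) (l 16426680)) (l 16425256))) (l 16446568))) (l 16451456))))), by decide +kernel⟩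

def k31_pm_011 : ∃ t, chk3 f_pm_011 t 253 253 8 = true :=
  ⟨(c (a (c (b (a (c (l 16501176) (b (l 16484208) (l 16485992))) (c (b (l 16486248) (l 16488152)) (l 16477336))) (a (l 16504728) (l 16488656))) (b (a (b (l 16473824) (c (l 16472808) (l 16464928))) (l 16468520)) (a (c (l 16476856) (b (l 16461224) (l 16461608))) (c (b (l 16463528) (l 16464040)) (l 16454744))))) (c (b (a (l 16455832) (l 16472560)) (a (c (l 16481504) (b (l 16465768) (l 16466400))) (c (l 16469472) (l 16459296)))) (a (l 16429552) (l 16458016)))) (a (a (c (b (l 16462496) (c (b (l 16453872) (l 16449464)) (l 16446280))) (l 16447784)) (l 16449696)) (l 16447072))), by decide +kernel⟩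

def k32_pm_011 : ∃ t, chk3 f_pm_011 t 126 126 9 = true :=
  ⟨(a (a (a (b (l 16478464) (l 3)) (l 289003582983)) (l 16452128)) (l 16399904)), by decide +kernel⟩

def k33_pm_011 : ∃ t, chk3 f_pm_011 t 127 126 4 = true :=
  ⟨(a (c (b (l 16476952) (a (b (l 16458200) (l 16403000)) (l 16447320))) (l 16433232)) (b (l 16447880) (l 16425504))), by decide +kernel⟩

def k34_pm_011 : ∃ t, chk3 f_pm_011 t 504 127 8 = true :=
  ⟨(a (l 3) (a (l 3) (b (a (l 3) (b (c (c (b (l 16561712) (c (l 16568704) (l 16558672))) (l 16527960)) (c (l 16489856) (c (l 16461176) (b (c (l 16424000) (l 16417992)) (l 16445064))))) (l 3))) (l 3)))), by decide +kernel⟩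

def k35_pm_011 : ∃ t, chk3 f_pm_011 t 505 127 16 = true :=
  ⟨(b (b (a (c (c (b (l 16559688) (a (b (l 16567296) (l 16565984)) (l 16560208))) (l 16544216)) (l 16515832)) (l 16516160)) (c (a (b (c (a (l 16558968) (l 16537048)) (a (b (l 16555120) (l 16553760)) (l 16547992))) (c (l 16546960) (a (l 16546656) (b (l 16548288) (l 16523864))))) (c (b (a (l 16534032) (l 16550128)) (a (l 16549432) (l 16549064))) (b (l 16535784) (a (c (l 16546096) (l 16540384)) (l 16537224))))) (a (b (l 16525600) (c (a (b (l 16542656) (l 16530768)) (l 16535504)) (l 16522488))) (l 16509888)))) (b (c (a (l 16527184) (b (c (l 16538512) (a (l 16536672) (l 16515104))) (l 16525312))) (a (b (c (a (l 16534064) (c (l 16514448) (l 16511600))) (a (b (l 16508928) (l 3)) (l 16522736))) (c (l 16521816) (a (l 3) (b (l 278266376487) (l 16498392))))) (b (c (a (c (l 16533336) (l 16527616)) (l 16524056)) (l 16509880)) (c (a (l 16523808) (b (l 16525160) (l 16501392))) (a (b (l 16517944) (l 16496256)) (l 16510752)))))) (a (l 16500672)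 (c (l 16504928) (c (l 16505504) (b (a (l 16510816) (b (l 16511792) (l 16487984))) (l 16499072))))))), by decide +kernel⟩

def k36_pm_011 : ∃ t, chk3 f_pm_011 t 505 127 17 = true :=
  ⟨(b (c (a (l 16484016) (b (c (l 16467736) (b (a (l 16451112) (l 16443728)) (l 16451720))) (l 16470872))) (b (a (c (b (a (l 16451608) (c (l 16446800) (l 16419344))) (l 16452096)) (b (a (c (b (l 16419320) (l 16418696)) (l 16415160)) (l 16413856)) (a (b (c (l 16441088) (l 16412512)) (l 16439360)) (c (l 16413344) (a (l 16408192) (l 16405648)))))) (c (b (a (c (l 16419096) (l 16414664)) (l 16413360)) (a (l 16438608) (c (l 16412968) (l 16406928)))) (b (l 16431200) (b (l 16404952) (a (l 16404224) (l 16421080)))))) (a (l 16451688) (c (l 16441824) (b (a (b (l 16424840) (l 16426016)) (c (l 16400472) (l 16394880))) (l 16425640)))))) (b (c (a (b (l 16499800) (c (a (l 3) (l 275045116535)) (l 16496288))) (l 16483624)) (l 16454008)) (a (a (l 3) (a (l 3) (c (b (c (c (l 16488912) (l 16485312)) (l 16494976)) (c (l 16497128) (b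 (l 405504724423) (l 3)))) (l 16447544)))) (c (b (c (a (b (l 16504824) (c (l 16486288) (l 16481656))) (l 16497328)) (l 16483256)) (c (a (l 16497576) (b (c (l 16480800) (l 16475592)) (l 16474464))) (a (b (l 16491416) (c (l 16472896) (l 16468160))) (l 16483792)))) (l 16456544))))), by decide +kernel⟩

def k37_pm_011 : ∃ t, chk3 f_pm_011 t 253 127 16 = true :=
  ⟨(b (a (b (a (l 16498800) (c (l 16501392) (c (l 16471960) (b (l 16451704) (l 16455608))))) (a (c (b (l 16528624) (c (l 16542560) (l 16525544))) (l 16492376)) (l 16495240))) (c (b (a (l 16484336) (l 16468800)) (l 16489472)) (b (a (c (l 16456904) (b (l 16442600) (l 16441816))) (c (b (l 16445048) (l 16444384)) (l 16436448))) (a (l 16458336) (c (l 16451144) (l 16413288)))))) (a (b (c (a (b (c (a (l 16541696) (l 16540720)) (l 16529536)) (c (l 16531288) (a (l 16528600) (l 16527592)))) (b (l 16523840) (c (a (l 16533808) (l 16532152)) (l 16520176)))) (a (b (l 16502304) (c (a (l 16519856) (l 16514288)) (l 16498840))) (l 16488608))) (c (a (l 16511160)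 (b (c (l 16523904) (a (l 16520568) (l 16518888))) (l 16510552))) (a (b (c (a (l 16515224) (l 16514200)) (a (l 16485328) (l 16500696))) (c (l 16504568) (a (l 16501576) (b (l 16502568) (l 16500432))))) (b (l 16476096) (c (a (l 16507056) (l 16505352)) (l 16493032)))))) (b (l 16419664) (c (a (b (c (l 16523392) (l 16510624)) (c (l 16516336) (a (l 16512320) (l 16509960)))) (b (l 16504368) (c (l 16514712) (l 16500872)))) (l 16454592))))), by decide +kernel⟩

def k38_pm_011 : ∃ t, chk3 f_pm_011 t 253 127 17 = true :=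
  ⟨(b (a (c (b (a (c (b (a (l 16451528) (l 16445440)) (l 16452912)) (b (c (l 16439024) (l 16413928)) (a (l 16438688) (l 16432928)))) (c (b (l 16440096) (l 16439184)) (l 16431344))) (a (l 16452664) (c (l 16445560) (b (a (l 16428392) (l 16423072)) (l 16428968))))) (b (a (c (b (l 16431376) (a (l 16426416) (l 16423664))) (l 16423608)) (l 16423696)) (a (c (b (a (l 16425848) (l 16420240)) (l 16426184)) (b (l 16413480) (a (c (l 16395000) (l 16387768)) (c (l 16388448) (l 16383064))))) (c (b (l 16415920) (a (l 16415280) (l 16410360))) (l 16407136))))) (c (b (l 16430480) (a (c (b (l 16429248) (l 16431872)) (b (l 16418704) (l 16416496))) (c (b (l 16421424) (l 16419344)) (l 16412792)))) (l 16413960))) (a (c (a (b (l 16465320) (c (b (l 16485072) (a (b (l 16493328) (l 16493280)) (l 16486824))) (l 16467904))) (l 16454616)) (b (a (a (l 16429600) (l 16400008)) (c (l 16418320) (b (a (l 16401992) (l 16397480)) (l 16401576)))) (l 16428752))) (c (b (a (l 16431456) (c (l 16424456) (b (l 16406536) (l 16407872))))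 (l 16435264)) (b (a (c (b (a (l 16405064) (l 16400520)) (l 16404760)) (a (b (l 16394584) (l 16391744)) (l 16390864))) (b (l 16394592) (c (l 16393552) (l 16384616)))) (a (b (c (l 16409936) (l 16390920)) (l 16405848)) (c (l 16396936) (b (l 16380376) (l 16380272)))))))), by decide +kernel⟩

def k39_pm_011 : ∃ t, chk3 f_pm_011 t 127 127 8 = true :=
  ⟨(c (a (b (a (c (b (a (c (l 16461824) (l 16448320)) (c (l 16450688) (l 16441280))) (a (l 16463776) (l 16448896))) (b (l 16435400) (a (c (l 16436960) (l 16424184)) (c (l 16426832) (l 16418168))))) (c (b (l 16440056) (a (c (l 16442160) (l 16429408)) (l 16428688))) (l 16424136))) (a (c (l 16475536) (b (a (l 16437448) (c (l 16430320) (l 16414184))) (l 16441696))) (c (b (a (l 16443160) (l 16428952)) (l 16447864)) (b (a (c (l 16417024) (l 16405016)) (l 16404736)) (a (l 16416496) (c (l 16409496) (l 16394120))))))) (b (l 16422176) (a (c (b (a (l 16396960) (l 16410120)) (a (l 16422496) (l 16408960))) (b (l 16399184) (a (c (l 16397104) (l 16385864)) (l 16385856))))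 (c (b (l 16404416) (a (l 16398640) (l 16391536))) (l 16387928))))) (a (b (l 16412712) (a (c (b (a (c (b (l 16409456) (l 16410912)) (l 16399240)) (b (l 16400392) (l 16396072))) (a (l 16410232) (c (l 16403352) (b (l 16386688) (l 16386848))))) (b (l 16387936) (a (c (b (l 16383568) (l 16383600)) (l 16373464)) (l 16373704)))) (c (b (l 16393696) (a (c (l 16370096) (l 16379800)) (l 16379912))) (l 16376608)))) (l 16389912))), by decide +kernel⟩

def k40_pm_011 : ∃ t, chk3 f_pm_011 t 504 127 9 = true :=
  ⟨(a (l 3) (a (l 3) (a (l 3) (b (b (c (c (c (b (l 16434368) (c (l 419463252375) (l 16405944))) (l 16426696)) (l 16420968)) (l 16409456)) (l 3)) (l 3))))), by decide +kernel⟩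

def k41_pm_011 : ∃ t, chk3 f_pm_011 t 505 254 9 = true :=
  ⟨(c (c (b (a (b (l 16429816) (c (c (b (l 16406392) (a (l 16406296) (l 16422480))) (l 16402384)) (l 16420248))) (l 16421768)) (a (c (b (a (c (l 16408472) (b (l 16410544) (l 16400496))) (c (b (l 16399936) (l 16400424)) (a (l 16395904) (l 16393656)))) (l 269139369543)) (b (a (c (a (l 470465957111) (l 16393776)) (l 16412648)) (l 16411544)) (a (c (l 16395168) (b (l 253570095271) (l 16397744))) (c (b (l 16387456) (l 16387296)) (b (l 16404704) (l 16381184)))))) (c (b (a (c (l 16395008) (l 16412440)) (l 16411304)) (a (c (l 16395120) (b (l 16387384) (l 16387256))) (c (l 16387840) (l 16382688)))) (a (b (l 16409376) (l 16381504)) (l 16403400))))) (a (b (l 16418368) (a (a (b (l 16408096) (l 3)) (l 16403232)) (l 16401544))) (l 16406256))) (l 16396472)), by decide +kernel⟩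

def k42_pm_011 : ∃ t, chk3 f_pm_011 t 505 255 18 = true :=
  ⟨(c (b (a (a (l 16429208) (b (c (l 16426408) (c (l 16411624) (b (l 16380688) (l 16403232)))) (l 16422432))) (c (a (l 16419544) (b (l 16407520) (l 16412664))) (b (a (c (l 16381832) (b (l 16374872) (l 16374080))) (c (b (l 16374856) (l 16374096)) (l 16370360))) (a (l 16402728) (b (c (l 16396384) (l 16367504)) (l 16394400)))))) (l 16426296)) (b (b (a (b (c (a (c (l 429126872343) (l 496772590391)) (l 279339870375)) (l 16390544)) (c (a (l 3) (c (a (l 16375448) (l 16371952)) (l 16368536))) (l 262696861111))) (l 16386776)) (a (a (l 3) (c (b (c (l 16396264) (a (l 16368648) (l 16365376))) (l 16394200)) (c (b (l 16362176) (a (l 16372312) (l 16358784))) (l 16357712)))) (c (a (c (a (l 16369928) (b (l 16365432) (l 16386952))) (b (l 16362248) (a (l 16361976) (l 16358872)))) (c (b (l 16362296) (l 16360888)) (l 16357880))) (l 16355568)))) (a (b (c (l 16403168) (a (l 3) (c (l 16362576) (b (a (l 3) (l 16363960)) (l 229410839639))))) (l 16398768))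 (c (b (a (l 16388712) (c (l 16362912) (b (l 16364728) (l 16354584)))) (l 16389296)) (b (a (c (b (a (l 16355200) (l 16352296)) (l 16354432)) (b (l 16349528) (a (c (l 16349656) (l 16346440)) (l 16345704)))) (c (a (b (l 16371184) (l 16348552)) (l 16347600)) (l 16366240))) (a (b (c (l 16377696) (a (l 16370192) (l 16345088))) (l 16375456)) (c (l 16364544) (b (a (l 16341768) (l 16339272)) (a (l 16342232) (l 16338296)))))))))), by decide +kernel⟩

def k43_pm_011 : ∃ t, chk3 f_pm_011 t 505 255 19 = true :=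
  ⟨(b (a (a (l 635285260407) (l 16372704)) (l 16369544)) (c (a (a (l 3) (a (l 3) (c (b (b (l 16368520) (c (l 261086196903) (l 16363296))) (b (c (l 448454146775) (l 16349328)) (l 3))) (l 562270766055)))) (c (b (l 16363896) (a (c (b (a (c (l 16342712) (l 16339744)) (l 16339096)) (a (l 16342000) (c (l 16339656) (l 16335888)))) (b (l 16357672) (a (c (l 16346248) (l 16333032)) (l 16332464)))) (c (b (l 16357856) (a (l 16345456) (l 16332680))) (l 16353480)))) (l 16355200))) (b (l 16354568) (b (l 16348208) (b (l 16345016) (l 273434187879)))))), by decide +kernel⟩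

def k44_pm_011 : ∃ t, chk3 f_pm_011 t 253 127 9 = true :=
  ⟨(b (a (c (a (c (a (l 16390304) (l 16409024)) (l 16401992)) (l 16403032)) (l 16388072)) (l 16391328)) (c (a (c (b (a (c (b (a (c (l 16381824) (l 16375056)) (c (l 16375368) (l 16370512))) (a (l 16402848) (l 16373488))) (b (l 16368056) (a (c (l 16368528) (b (l 16362344) (l 16360968))) (b (l 16361224) (l 16359208))))) (b (l 16388520) (c (a (c (l 16370152) (l 16363560)) (l 16363464)) (l 16378272)))) (a (c (l 16406976) (b (a (l 16388960) (b (a (l 16360048) (l 16356624)) (l 16380768))) (l 16389704))) (c (b (a (l 16390584) (l 16383608)) (l 16392064)) (b (a (c (l 16356304) (l 16350152)) (l 16350240)) (a (l 16376112) (c (l 16351832) (l 16344056))))))) (b (l 16376736) (a (c (b (a (c (b (l 16354352) (l 16354720)) (a (l 16349984) (l 16347720))) (c (l 16349320) (l 16366488))) (a (l 16374904) (c (l 16349184) (b (l 16341216) (l 16340960))))) (b (l 16364152) (a (c (b (l 16341056) (l 16340760)) (b (l 16358032) (l 16334360))) (l 16345360)))) (c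 (b (l 16365408) (a (c (b (l 16341864) (l 16341640)) (l 16336720)) (l 16336848))) (l 16356464))))) (c (b (l 16381912) (a (c (b (a (l 16378256) (l 16353560)) (a (l 16379592) (l 16372992))) (b (l 16368696) (a (c (l 16345792) (l 16340096)) (l 16340312)))) (c (b (l 16371976) (l 16367008)) (l 16363032)))) (l 16364208))) (b (l 16360600) (b (l 16348152) (b (l 16341912) (a (b (l 16341448) (l 16339352)) (l 16334680))))))), by decide +kernel⟩

def k45_pm_011 : ∃ t, chk3 f_pm_011 t 127 127 9 = true :=
  ⟨(b (l 16381736) (b (l 16357800) (b (l 16345768) (b (l 16339736) (a (l 16339616) (l 16331632)))))), by decide +kernel⟩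

def k46_pm_011 : ∃ t, chk3 f_pm_011 t 63 63 5 = true :=
  ⟨(a (a (b (c (c (a (b (l 16434464) (l 279876761751)) (l 16397328)) (c (a (l 285245572743) (l 16471304)) (l 290614301303))) (a (c (l 16528440) (a (c (l 628843058295) (l 16508864)) (l 292224979287))) (l 16511984))) (a (b (a (l 3) (c (c (l 527911061207) (c (l 559586554695) (l 16475600))) (c (l 16483320) (l 636896053415)))) (l 3)) (c (c (b (l 16392544) (b (l 16368920) (l 285782201191))) (c (b (l 16430480) (b (l 291687926215) (b (l 287929816583) (c (l 16406256) (c (l 284171737575) (l 283634882151)))))) (l 292761686391))) (a (l 16443032) (l 16411864))))) (c (c (b (b (l 16463472) (l 16432576)) (b (l 16359472) (b (l 16356888) (a (l 16365584) (l 16358328))))) (c (b (l 16479352) (b (l 16438608) (b (l 16418024) (b (l 16407688) (c (l 16393720) (b (l 16409440) (c (l 16402816) (l 16409128)))))))) (l 16398848))) (a (b (l 16495440) (l 16400744)) (l 16458448)))) (c (b (c (a (l 16438072) (b (l 16459504) (l 16414720))) (a (l 16430200) (b (c (l 16487880)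 (l 16495048)) (l 16451008)))) (c (b (l 16387568) (b (l 16364120) (l 16348408))) (c (b (l 16423720) (b (l 16403240) (b (l 16392944) (c (l 16379272) (l 16392624))))) (l 16419696)))) (a (l 16427936) (b (l 16434328) (l 16413896))))), by decide +kernel⟩

def k47_pm_011 : ∃ t, chk3 f_pm_011 t 62 15 3 = true :=
  ⟨(a (b (b (b (a (l 3) (l 371681890119)) (l 3)) (l 3)) (l 3)) (b (b (c (a (l 267528785879) (a (l 16478336) (l 16379192))) (b (l 16375768) (l 273434340679))) (b (b (c (a (l 16615976) (l 16520616)) (l 16492208)) (a (l 297057010919) (c (l 247127852759) (l 16573720)))) (a (l 3) (c (a (l 265381695879) (l 16594584)) (b (l 16613872) (l 267529180919)))))) (b (a (l 3) (b (a (l 291688294135) (c (b (a (l 16629392) (c (l 16590024) (l 16630776))) (l 16600744)) (b (l 16629504) (l 16598024)))) (c (l 278266393959) (l 16560312)))) (l 3)))), by decide +kernel⟩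

def k48_pm_011 : ∃ t, chk3 f_pm_011 t 126 30 3 = true :=
  ⟨(b (c (a (c (a (c (a (l 16392376) (l 16303280)) (l 16406896)) (c (l 16294984) (a (l 16377000) (l 16289048)))) (l 16387104)) (c (a (c (l 16330480) (l 16324472)) (l 16300200)) (a (c (a (l 16340544) (l 16295880)) (l 16333048)) (c (l 16291088) (a (l 16303984) (l 16281840)))))) (a (l 16382904) (l 16311128))) (c (b (c (a (b (a (c (a (l 16493392) (l 16466600)) (l 16487248)) (c (l 16436768) (a (l 16456768) (l 16431160)))) (a (c (a (l 16527000) (l 16479000)) (l 16542048)) (c (l 16469912) (a (l 16511344) (l 16464536))))) (b (a (c (l 16409016) (l 16403168)) (l 16378488)) (a (c (l 16463000) (l 16457312)) (l 16432424)))) (a (b (l 16467632) (l 16522664)) (b (a (c (l 16343704) (l 16412824)) (c (l 16369616) (l 16371152))) (a (c (a (l 16474600) (l 16450176)) (l 16467600)) (c (l 16423800) (l 16362688)))))) (a (c (a (c (a (l 16563016) (l 16535616)) (l 16578576)) (c (l 16505224) (a (l 16547520) (l 16500368)))) (l 16538816)) (c (a (c (l 16561032) (l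 16492848)) (l 16530472)) (a (c (a (l 16531912) (l 16486200)) (l 16546384)) (c (l 16501504) (l 16420008)))))) (b (b (l 16427696) (l 16399296)) (b (l 16480624) (l 16541576))))), by decide +kernel⟩

def k49_pm_011 : ∃ t, chk3 f_pm_011 t 127 30 3 = true :=
  ⟨(c (b (a (c (l 16253240) (a (l 16262272) (l 16230336))) (l 16181864)) (b (a (b (c (l 16330816) (l 16302704)) (c (l 16384464) (a (l 16394768) (l 16362144)))) (b (l 16257920) (l 16311304))) (a (c (l 16482088) (a (l 16451560) (l 16481544))) (l 16429672)))) (b (a (c (a (c (l 16173120) (l 16259064)) (c (l 16224400) (l 16179928))) (l 16238536)) (c (l 16111128) (a (c (a (l 16194376) (l 16178904)) (l 16184944)) (c (l 16153320) (a (l 16160352) (l 16142672)))))) (a (b (c (a (c (b (l 16335744) (l 16348264)) (l 16281712)) (c (b (l 16302616) (l 16356872)) (b (l 16300392) (l 16333904)))) (b (l 16317920) (l 16372912))) (c (a (c (l 16405776) (l 16514064)) (c (l 16476992) (l 16370648))) (l 16494552))) (c (b (b (l 16250992) (l 16305040)) (l 16382984)) (c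 (a (b (b (l 16266056) (l 16236680)) (a (l 16448240) (l 16390368))) (b (l 16194544) (l 16405128))) (a (b (l 16290904) (l 16439688)) (b (b (l 16165904) (a (l 16293048) (l 16274304))) (a (l 16414176) (l 16374264))))))))), by decide +kernel⟩

def k50_pm_011 : ∃ t, chk3 f_pm_011 t 126 62 3 = true :=
  ⟨(c (a (b (c (a (c (b (a (c (l 16602320) (l 16615944)) (c (l 16623224) (l 16609008))) (a (l 16602624) (a (l 16606656) (l 16591376)))) (b (l 16619840) (l 16596168))) (c (b (l 16615304) (a (b (l 16604896) (l 16607224)) (l 16599152))) (a (b (l 16615792) (c (l 16580872) (l 16595144))) (c (l 16565992) (l 16553368))))) (b (l 16586632) (a (l 16595040) (l 16576064)))) (c (a (c (a (l 241222286951) (c (l 16577792) (l 16563168))) (l 16556920)) (c (a (l 16554208) (l 16572152)) (a (l 16536096) (c (l 16568848) (l 16555880))))) (l 16552808))) (c (b (a (c (l 16590904) (a (l 16572832) (l 16601384))) (l 16602896)) (a (a (l 16520616) (l 16534064)) (b (l 16566880) (l 16529744)))) (a (b (c (a (l 16558488) (l 16554824))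 (l 16580208)) (c (a (l 16550056) (c (l 16560448) (l 16549576))) (l 16544776))) (c (b (l 16590128) (b (a (l 16552840) (l 16575024)) (l 16537064))) (b (a (l 16577176) (l 16572288)) (a (b (l 16541456) (l 16529840)) (b (l 16510168) (l 16532992)))))))) (b (a (b (l 16606464) (l 16574832)) (l 16568520)) (a (l 16550216) (b (l 16518688) (l 16525624))))), by decide +kernel⟩

def k51_pm_011 : ∃ t, chk3 f_pm_011 t 126 63 3 = true :=
  ⟨(c (a (c (a (c (b (a (c (l 661592119511) (l 16506512)) (c (l 16525696) (l 16468856))) (a (l 3) (c (l 661592035959) (l 677698131831)))) (b (l 16483176) (l 701320459671))) (a (c (c (b (l 16528008) (a (l 672866352535) (l 16474096))) (b (l 16521240) (a (l 16465832) (l 699709878551)))) (c (b (l 16507120) (a (l 704541675319) (l 16434248))) (b (l 16500064) (l 725479646407)))) (c (b (l 16520144) (a (c (l 16468416) (l 16429752)) (l 16465232))) (c (b (l 16516608) (a (l 16461880) (l 16445200))) (a (c (l 303499104231) (l 16429416)) (l 16415216)))))) (b (l 288466821255) (a (l 743196394871)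 (a (l 16444408) (l 16420912))))) (c (a (c (l 16435720) (a (a (c (l 16450664) (l 16463432)) (c (l 16488048) (l 16424896))) (l 16439688))) (l 16401112)) (a (c (a (c (b (l 16499648) (a (l 16422544) (l 16447336))) (l 16445528)) (c (b (l 16507024) (l 16432648)) (b (l 16495904) (l 16421280)))) (l 16422128)) (c (a (c (l 16477864) (l 16412488)) (l 16469064)) (a (c (l 16402480) (l 16459472)) (c (l 16428304) (b (l 16490184) (l 16394408)))))))) (a (b (l 16496328) (l 279339907783)) (b (l 16485328) (a (l 16433496) (l 16427856))))), by decide +kernel⟩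

def k52_pm_011 : ∃ t, chk3 f_pm_011 t 127 31 3 = true :=
  ⟨(c (b (a (a (c (b (l 16616408) (l 16507112)) (b (l 16571232) (b (l 16536344) (a (l 16503984) (l 16524088))))) (a (l 16458440) (l 16486808))) (l 16492080)) (a (c (l 16406440) (a (c (l 16455152) (a (l 16422160) (l 16456400))) (l 16445232))) (b (b (l 16491048) (l 16450240)) (l 16409920)))) (b (a (c (a (c (b (l 16547408) (b (a (l 16554984) (l 16566240)) (a (l 16525664) (l 16485288)))) (l 16470096)) (c (c (l 16488608) (l 16467952)) (a (c (l 16464248) (l 16501528)) (l 16451880)))) (b (l 16595896) (l 16514576))) (c (l 16451272) (a (a (l 16479120) (c (l 16466720) (l 16571992))) (c (l 16503264) (c (l 16440312) (l 16461752)))))) (a (c (a (c (a (c (b (l 16485976) (l 16411072)) (l 16452312)) (c (l 16459504) (l 16412792))) (l 16449872)) (c (l 16363464) (a (c (l 16429240) (l 16445000)) (c (l 16448144) (l 16424592))))) (l 16445008)) (c (a (b (a (l 16467968) (l 16465936)) (l 16389408)) (b (l 16470096) (l 16403624))) (a (c (a (b (l 16467968) (l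 16412512)) (c (l 16375216) (b (l 16445704) (l 16408488)))) (l 16415928)) (c (b (l 16427384) (l 16402376)) (a (b (b (l 16462544) (l 16441992)) (l 16379920)) (b (c (l 16468584) (b (l 16492320) (l 16440472))) (c (l 16399816) (l 16398816)))))))))), by decide +kernel⟩

theorem s53_pm_011 : ∃ t, chk3 f_pm_011 t 126 31 3 = true := ex3_b k50_pm_011 k51_pm_011

theorem s54_pm_011 : ∃ t, chk3 f_pm_011 t 63 31 3 = true := ex3_a s53_pm_011 k52_pm_011

theorem s55_pm_011 : ∃ t, chk3 f_pm_011 t 63 30 3 = true := ex3_a k48_pm_011 k49_pm_011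

theorem s56_pm_011 : ∃ t, chk3 f_pm_011 t 63 15 3 = true := ex3_b s55_pm_011 s54_pm_011

theorem s57_pm_011 : ∃ t, chk3 f_pm_011 t 31 15 3 = true := ex3_a k47_pm_011 s56_pm_011

theorem s58_pm_011 : ∃ t, chk3 f_pm_011 t 505 255 9 = true := ex3_c k42_pm_011 k43_pm_011

theorem s59_pm_011 : ∃ t, chk3 f_pm_011 t 505 127 9 = true := ex3_b k41_pm_011 s58_pm_011

theorem s60_pm_011 : ∃ t, chk3 f_pm_011 t 252 127 9 = true := ex3_a k40_pm_011 s59_pm_011

theorem s61_pm_011 : ∃ t, chk3 f_pm_011 t 126 127 9 = true := ex3_a s60_pm_011 k44_pm_011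

theorem s62_pm_011 : ∃ t, chk3 f_pm_011 t 63 127 9 = true := ex3_a s61_pm_011 k45_pm_011

theorem s63_pm_011 : ∃ t, chk3 f_pm_011 t 253 127 8 = true := ex3_c k37_pm_011 k38_pm_011

theorem s64_pm_011 : ∃ t, chk3 f_pm_011 t 505 127 8 = true := ex3_c k35_pm_011 k36_pm_011

theorem s65_pm_011 : ∃ t, chk3 f_pm_011 t 252 127 8 = true := ex3_a k34_pm_011 s64_pm_011

theorem s66_pm_011 : ∃ t, chk3 f_pm_011 t 126 127 8 = true := ex3_a s65_pm_011 s63_pm_011

theorem s67_pm_011 : ∃ t, chk3 f_pm_011 t 63 127 8 = true := ex3_a s66_pm_011 k39_pm_011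

theorem s68_pm_011 : ∃ t, chk3 f_pm_011 t 63 127 4 = true := ex3_c s67_pm_011 s62_pm_011

theorem s69_pm_011 : ∃ t, chk3 f_pm_011 t 126 253 8 = true := ex3_a k30_pm_011 k31_pm_011

theorem s70_pm_011 : ∃ t, chk3 f_pm_011 t 126 126 8 = true := ex3_b k29_pm_011 s69_pm_011

theorem s71_pm_011 : ∃ t, chk3 f_pm_011 t 126 126 4 = true := ex3_c s70_pm_011 k32_pm_011

theorem s72_pm_011 : ∃ t, chk3 f_pm_011 t 63 126 4 = true := ex3_a s71_pm_011 k33_pm_011

theorem s73_pm_011 : ∃ t, chk3 f_pm_011 t 63 63 4 = true := ex3_b s72_pm_011 s68_pm_011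

theorem s74_pm_011 : ∃ t, chk3 f_pm_011 t 63 63 2 = true := ex3_c s73_pm_011 k46_pm_011

theorem s75_pm_011 : ∃ t, chk3 f_pm_011 t 63 31 2 = true := ex3_b k28_pm_011 s74_pm_011

theorem s76_pm_011 : ∃ t, chk3 f_pm_011 t 31 31 2 = true := ex3_a k27_pm_011 s75_pm_011

theorem s77_pm_011 : ∃ t, chk3 f_pm_011 t 31 61 2 = true := ex3_a k25_pm_011 k26_pm_011

theorem s78_pm_011 : ∃ t, chk3 f_pm_011 t 31 30 2 = true := ex3_b k24_pm_011 s77_pm_011

theorem s79_pm_011 : ∃ t, chk3 f_pm_011 t 31 15 2 = true := ex3_b s78_pm_011 s76_pm_011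

theorem s80_pm_011 : ∃ t, chk3 f_pm_011 t 31 15 1 = true := ex3_c s79_pm_011 s57_pm_011

theorem s81_pm_011 : ∃ t, chk3 f_pm_011 t 15 15 1 = true := ex3_a k23_pm_011 s80_pm_011

theorem s82_pm_011 : ∃ t, chk3 f_pm_011 t 63 14 3 = true := ex3_b k21_pm_011 k22_pm_011

theorem s83_pm_011 : ∃ t, chk3 f_pm_011 t 63 14 1 = true := ex3_c k20_pm_011 s82_pm_011

theorem s84_pm_011 : ∃ t, chk3 f_pm_011 t 125 14 1 = true := ex3_a k18_pm_011 k19_pm_011

theorem s85_pm_011 : ∃ t, chk3 f_pm_011 t 124 14 1 = true := ex3_b k16_pm_011 k17_pm_011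

theorem s86_pm_011 : ∃ t, chk3 f_pm_011 t 62 14 1 = true := ex3_a s85_pm_011 s84_pm_011

theorem s87_pm_011 : ∃ t, chk3 f_pm_011 t 31 14 1 = true := ex3_a s86_pm_011 s83_pm_011

theorem s88_pm_011 : ∃ t, chk3 f_pm_011 t 15 14 1 = true := ex3_a k15_pm_011 s87_pm_011

theorem s89_pm_011 : ∃ t, chk3 f_pm_011 t 15 7 1 = true := ex3_b s88_pm_011 s81_pm_011

theorem s90_pm_011 : ∃ t, chk3 f_pm_011 t 7 7 1 = true := ex3_a k14_pm_011 s89_pm_011

theorem s91_pm_011 : ∃ t, chk3 f_pm_011 t 31 6 3 = true := ex3_b k12_pm_011 k13_pm_011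

theorem s92_pm_011 : ∃ t, chk3 f_pm_011 t 31 6 2 = true := ex3_c k10_pm_011 k11_pm_011

theorem s93_pm_011 : ∃ t, chk3 f_pm_011 t 31 6 1 = true := ex3_c s92_pm_011 s91_pm_011

theorem s94_pm_011 : ∃ t, chk3 f_pm_011 t 61 6 1 = true := ex3_b k8_pm_011 k9_pm_011

theorem s95_pm_011 : ∃ t, chk3 f_pm_011 t 30 6 1 = true := ex3_a k7_pm_011 s94_pm_011

theorem s96_pm_011 : ∃ t, chk3 f_pm_011 t 15 6 1 = true := ex3_a s95_pm_011 s93_pm_011

theorem s97_pm_011 : ∃ t, chk3 f_pm_011 t 7 6 1 = true := ex3_a k6_pm_011 s96_pm_011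

theorem s98_pm_011 : ∃ t, chk3 f_pm_011 t 7 3 1 = true := ex3_b s97_pm_011 s90_pm_011

theorem s99_pm_011 : ∃ t, chk3 f_pm_011 t 3 3 1 = true := ex3_a k5_pm_011 s98_pm_011

theorem s100_pm_011 : ∃ t, chk3 f_pm_011 t 15 2 1 = true := ex3_a k3_pm_011 k4_pm_011

theorem s101_pm_011 : ∃ t, chk3 f_pm_011 t 7 2 1 = true := ex3_a k2_pm_011 s100_pm_011

theorem s102_pm_011 : ∃ t, chk3 f_pm_011 t 3 2 1 = true := ex3_a k1_pm_011 s101_pm_011

theorem s103_pm_011 : ∃ t, chk3 f_pm_011 t 3 1 1 = true := ex3_b s102_pm_011 s99_pm_011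

theorem s104_pm_011 : ∃ t, chk3 f_pm_011 t 1 1 1 = true := ex3_a k0_pm_011 s103_pm_011

theorem c_pm_011 : CertNX 0 536870912 536870912 469762048 1046898278 26843546 3 true true false .pnn 0 1 1
    ndN0q0 ndN6q1 pcN1 Cut.none Ext.none :=
  certNX2 (fam := true) (s1 := true) (s2 := false) (a := 0) (b := 1) (c := 1) (cn := .pnn) (n1 := ndN0q0) (n2 := ndN6q1) (pc := pcN1) (cut := Cut.none) (xt := Ext.none) (P1 := 0) (W1 := 536870912) (P2 := 536870912) (W2 := 469762048) (P3 := 1046898278) (W3 := 26843546) (N0 := 3)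
    rfl (fun _ => rfl) s104_pm_011

end Pool.Agent.Strip051.G.IE1.Tab.C.NA06

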