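import Pool.Agent.Strip051.G.IE1.Tab

/-! # Certificates N6 (generated) -/

set_option linter.all false
set_option maxRecDepth 100000

namespace Pool.Agent.Strip051.G.IE1.Tab.C.NA00

open Pool.Agent.Strip051.PB Pool.Agent.Strip051.PB.T
open Pool.Agent.Strip051.G.IE1.Tab

noncomputable def cut_pm_102 : Cut := Cut.of [[⟨0, 1, 0, 67108864⟩, ⟨1, 0, 0, 67108864⟩, ⟨2, 1, 0, 67108864⟩, ⟨3, 0, 0, 1233125376⟩]]

noncomputable def f_pm_102 : ℕ → ℕ → ℕ → ℕ → Bool := onCell 536870912 536870912 1073741824 536870912 1046898278 26843546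
    (rowNX 3 1 true true false .npp 1 0 2 (qsf 536870912 536870912 0 536870912 2) ndN0q1 ndN0q0 pcN2 cut_pm_102 Ext.none)

def k0_pm_102 : ∃ t, chk3 f_pm_102 t 2 4 1 = true :=
  ⟨(b (l 3) (l 3)), by decide +kernel⟩

def k1_pm_102 : ∃ t, chk3 f_pm_102 t 6 8 1 = true :=
  ⟨(l 3), by decide +kernel⟩

def k2_pm_102 : ∃ t, chk3 f_pm_102 t 14 16 1 = true :=
  ⟨(l 3), by decide +kernel⟩

def k3_pm_102 : ∃ t, chk3 f_pm_102 t 15 32 2 = true :=
  ⟨(a (l 3) (l 6)), by decide +kernel⟩

def k4_pm_102 : ∃ t, chk3 f_pm_102 t 30 66 4 = true :=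
  ⟨(l 3), by decide +kernel⟩

def k5_pm_102 : ∃ t, chk3 f_pm_102 t 60 67 4 = true :=
  ⟨(l 3), by decide +kernel⟩

def k6_pm_102 : ∃ t, chk3 f_pm_102 t 61 134 8 = true :=
  ⟨(l 3), by decide +kernel⟩

def k7_pm_102 : ∃ t, chk3 f_pm_102 t 122 135 8 = true :=
  ⟨(l 3), by decide +kernel⟩

def k8_pm_102 : ∃ t, chk3 f_pm_102 t 246 135 16 = true :=
  ⟨(l 3), by decide +kernel⟩

def k9_pm_102 : ∃ t, chk3 f_pm_102 t 247 270 16 = true :=
  ⟨(a (l 3) (a (l 3) (l 6))), by decide +kernel⟩

def k10_pm_102 : ∃ t, chk3 f_pm_102 t 494 271 16 = true :=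
  ⟨(b (b (l 3) (a (l 3) (a (l 3) (b (l 3) (l 254107699831))))) (a (a (l 3) (b (l 3) (a (l 257865793543) (b (l 262697636199) (l 16769840))))) (b (a (b (l 3) (l 240685932055)) (b (a (b (l 94120158087) (l 16769728)) (l 16771504)) (l 16770912))) (a (b (b (l 87677712807) (l 16771328)) (l 16765344)) (l 16769424))))), by decide +kernel⟩

def k11_pm_102 : ∃ t, chk3 f_pm_102 t 495 1084 16 = true :=
  ⟨(a (b (a (l 3) (l 6)) (b (a (l 3) (l 6)) (b (a (l 3) (l 6)) (a (b (l 3) (b (l 3) (b (l 3) (b (l 3) (c (l 266992603831) (l 266455732663)))))) (b (l 6) (b (l 6) (b (l 6) (a (a (a (a (a (a (a (a (c (l 124721823031) (l 16777184)) (l 6)) (l 6)) (l 6)) (l 6)) (l 6)) (l 6)) (l 6)) (l 6))))))))) (l 6)), by decide +kernel⟩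

def k12_pm_102 : ∃ t, chk3 f_pm_102 t 1980 1085 16 = true :=
  ⟨(a (b (l 257328928647) (l 87140847191)) (c (a (l 91435810903) (l 16773712)) (l 91435810711))), by decide +kernel⟩

def k13_pm_102 : ∃ t, chk3 f_pm_102 t 3962 1085 64 = true :=
  ⟨(c (a (c (a (c (c (b (b (b (a (c (a (l 16775680) (l 16775832)) (l 16776976)) (c (b (l 16775408) (l 16773712)) (b (l 16775408) (l 16776496)))) (l 16775056)) (l 16773328)) (l 16769888)) (a (l 16765552) (l 16773208))) (l 16765496)) (c (b (b (b (a (b (l 6) (c (c (l 16773384) (l 16773392)) (l 16776296))) (l 6)) (c (b (a (l 16774416) (c (l 16775304) (l 16775304))) (l 16773984)) (l 16775808))) (l 16764656)) (l 16774328)) (c (a (l 16773112) (l 16770088)) (l 16773096)))) (l 16765392)) (c (b (b (b (l 6) (a (a (c (c (b (l 6) (c (l 16774592) (l 16774600))) (l 16773696)) (l 16765208)) (l 6)) (l 6))) (c (b (b (a (c (a (l 16771696) (c (l 16773888) (l 16773888))) (l 16774464)) (l 6)) (a (l 16772808) (c (a (c (l 16773184) (l 16773184)) (l 6)) (l 16770624)))) (a (l 16773872) (c (c (b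 (a (l 16772800) (l 16772480)) (l 16772360)) (l 16770040)) (l 16772992)))) (l 16769192))) (l 16762640)) (c (a (c (a (l 16770296) (l 16769928)) (l 16770264)) (l 16769336)) (a (l 16775536) (c (a (l 16770096) (l 16769768)) (l 16770056)))))) (l 16765176)), by decide +kernel⟩

def k14_pm_102 : ∃ t, chk3 f_pm_102 t 3963 1085 64 = true :=
  ⟨(b (a (b (l 6) (a (a (a (c (b (l 6) (b (l 6) (b (l 6) (c (l 16769832) (l 16769152))))) (l 16775448)) (l 6)) (l 6)) (l 6))) (l 6)) (c (c (a (b (c (b (b (a (c (a (l 16771496) (c (l 16771072) (l 16771072))) (l 16771648)) (l 6)) (a (l 16768680) (c (a (l 16769760) (l 6)) (l 16770432)))) (a (l 16771064) (c (a (l 16770016) (c (l 16768208) (l 16769584))) (l 16770184)))) (l 16771632)) (l 16770600)) (b (a (a (c (b (l 6) (c (c (l 16769256) (l 16767888)) (l 16769376))) (l 16767616)) (l 6)) (l 6)) (c (b (b (a (c (a (l 16768696) (l 16768312)) (l 16768848)) (l 6)) (a (l 16768504) (c (a (l 16767616) (l 6)) (l 16767632)))) (a (l 16768272) (c (a (l 16767216) (b (l 16766912) (l 16766600))) (l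 16767384)))) (l 16768832)))) (l 16766472)) (c (a (c (a (l 16769224) (l 16768504)) (l 16771784)) (l 16769936)) (a (l 16774464) (c (a (l 16774072) (l 16768192)) (l 16774000)))))), by decide +kernel⟩

def k15_pm_102 : ∃ t, chk3 f_pm_102 t 1981 1085 65 = true :=
  ⟨(l 16770000), by decide +kernel⟩

def k16_pm_102 : ∃ t, chk3 f_pm_102 t 1981 1085 33 = true :=
  ⟨(l 16770072), by decide +kernel⟩

def k17_pm_102 : ∃ t, chk3 f_pm_102 t 991 1085 16 = true :=
  ⟨(a (a (a (a (a (b (l 6) (b (l 6) (c (c (c (a (a (b (l 6) (b (l 6) (l 16765336))) (l 6)) (l 6)) (l 16769248)) (l 16773528)) (l 16773664)))) (l 6)) (l 6)) (l 6)) (l 6)) (l 6)), by decide +kernel⟩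

def k18_pm_102 : ∃ t, chk3 f_pm_102 t 990 543 16 = true :=
  ⟨(a (b (l 16772344) (l 16762520)) (c (c (a (c (a (c (c (a (b (l 16771656) (l 16761104)) (l 16761232)) (a (l 16772824) (b (l 16770824) (l 16771424)))) (l 16772736)) (c (l 16760040) (b (c (a (l 16770648) (l 16761984)) (l 16770616)) (a (l 16766080) (l 16768104))))) (l 16762072)) (c (b (l 16763920) (l 16756696)) (c (a (c (a (l 16769280) (l 16765944)) (l 16769232)) (a (l 16765328) (l 16748520))) (a (l 16771920) (c (a (l 16766296) (l 16765672)) (l 16760992)))))) (l 16761728)) (l 16761912))), by decide +kernel⟩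

def k19_pm_102 : ∃ t, chk3 f_pm_102 t 1982 543 16 = true :=
  ⟨(c (c (c (b (a (c (b (b (a (c (b (b (a (c (a (l 16765904) (l 16765520)) (l 16766056)) (l 6)) (a (l 16765712) (c (l 16764736) (l 16764848)))) (a (l 16765488) (c (c (l 16762864) (l 16764280)) (l 16764608)))) (l 16766048)) (a (a (c (b (l 6) (c (l 16763696) (l 16763808))) (l 16764664)) (l 6)) (l 6))) (a (l 16765040) (c (b (b (a (c (l 16762976) (l 16763288)) (l 6)) (a (l 16762944) (c (l 16761968) (l 16762080)))) (a (l 16762720) (c (b (l 16761592) (l 16761320)) (l 16761840)))) (l 16763280)))) (l 16763160)) (l 16765664)) (b (a (a (a (a (b (l 6) (b (l 6) (b (l 6) (l 16759736)))) (l 6)) (l 6)) (l 6)) (l 6)) (c (b (a (c (b (a (c (l 16760120) (l 16760456)) (c (l 16759480) (l 16759496))) (a (l 16759960) (c (l 16758744) (l 16759080)))) (l 16760528)) (a (b (l 6) (c (c (l 16758104) (l 16758120)) (l 16758712))) (l 6))) (a (l 16759528) (c (b (a (c (l 16757368) (l 16757712)) (c (l 16756728) (l 16756744))) (a (l 16757216) (l 16756208))) (l 16757784)))) (l 16760664))))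 (l 16739488)) (a (a (b (c (l 16768800) (l 16768128)) (l 16757328)) (l 16756080)) (l 16752712))) (a (c (a (c (c (a (l 16771176) (l 16765376)) (l 16771096)) (l 16771128)) (c (b (a (l 16765768) (l 16770000)) (l 16758072)) (c (a (l 16770792) (l 16765080)) (l 16770712)))) (l 16770968)) (c (a (a (c (l 16767912) (c (l 16769424) (l 16764928))) (l 16746824)) (l 16745144)) (c (a (a (l 16770416) (l 16764848)) (a (c (l 16769192) (l 16759376)) (l 16758096))) (l 16766168))))) (l 16770752)), by decide +kernel⟩

def k20_pm_102 : ∃ t, chk3 f_pm_102 t 1983 543 16 = true :=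
  ⟨(b (a (a (a (a (a (b (l 6) (c (c (b (l 6) (b (l 6) (b (l 6) (l 16753632)))) (c (l 16765328) (l 16766536))) (l 16770352))) (l 6)) (l 6)) (l 6)) (l 6)) (l 6)) (c (c (c (b (a (c (b (a (c (b (a (l 16754840) (c (l 16753992) (l 16754008))) (a (l 16754480) (l 16753480))) (l 16755048)) (a (a (b (l 6) (b (l 6) (l 16753056))) (l 6)) (l 6))) (a (l 16754072) (c (b (a (l 16752120) (c (l 16751272) (l 16751288))) (l 16751296)) (l 16752328)))) (l 16755208)) (a (a (a (b (l 6) (b (l 6) (b (l 6) (l 16748696)))) (l 6)) (l 6)) (l 6))) (a (l 16753264) (c (b (b (a (c (a (l 16749408) (c (l 16738072) (l 16748576))) (l 16749736)) (l 6)) (a (l 16749072) (c (a (c (l 16736720) (l 16736744)) (l 6)) (l 16747360)))) (a (l 16748664) (c (b (a (l 16746704) (c (l 16735376) (l 16735392))) (l 16745896)) (l 16746928)))) (l 16749800)))) (l 16734568)) (c (l 16738624) (c (l 16741672) (a (a (l 16762552) (l 16765792)) (l 16762448))))) (c (a (c (c (a (l 16768616) (l 16762288)) (l 16768488)) (l 16768576)) (c (a (c (l 16765600) (l 16756784)) (l 16764384))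 (c (a (l 16767928) (l 16756520)) (l 16767792)))) (l 16768344)))), by decide +kernel⟩

def k21_pm_102 : ∃ t, chk3 f_pm_102 t 123 135 17 = true :=
  ⟨(a (l 3) (b (a (l 3) (a (l 3) (l 6))) (a (b (a (l 3) (b (l 3) (a (l 3) (b (l 3) (l 251960215607))))) (a (a (l 3) (b (l 3) (a (l 255718309223) (l 229411646455)))) (b (a (b (l 3) (l 239612189863)) (b (a (l 92509544711) (l 16776800)) (l 16771024))) (a (b (l 87140841511) (l 16765488)) (l 16764432))))) (b (a (b (a (l 265381975751) (b (l 6) (a (l 91972678807) (l 6)))) (a (b (a (l 255718315463) (l 91972682023)) (l 87140846807)) (l 16770216))) (b (l 6) (l 16767840))) (a (b (a (l 16769944) (l 16763160)) (l 16762192)) (l 16760008)))))), by decide +kernel⟩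

def k22_pm_102 : ∃ t, chk3 f_pm_102 t 61 67 9 = true :=
  ⟨(b (l 3) (a (l 3) (a (l 3) (b (a (l 3) (a (l 3) (l 6))) (a (b (a (l 3) (b (l 3) (a (l 3) (a (l 3) (c (l 250886471815) (l 249275858439)))))) (a (b (l 3) (a (l 3) (a (c (l 253570824903) (l 251960211495)) (b (l 257328925847) (c (l 16769248) (l 87140845191)))))) (b (a (b (l 3) (a (l 3) (c (l 91972676919) (l 91972676599)))) (b (a (c (l 92509544471) (b (l 93583286359) (l 16769584))) (c (l 16776856) (l 16771664))) (c (l 16771128) (l 16771240)))) (b (a (a (c (l 91972679927) (l 91972679879)) (l 16773992)) (l 16773056)) (c (l 16770208) (l 16770440)))))) (b (b (a (a (b (l 3) (l 261087015959)) (b (l 6) (b (l 6) (l 87140849463)))) (l 6)) (a (a (c (b (l 228337904839) (l 16770744)) (b (a (l 251423347255) (l 91972681815)) (l 87140846487))) (c (l 16770408) (l 16770608))) (c (l 16763056) (l 16763512)))) (c (a (a (l 16772000) (l 16762784)) (l 16760760)) (a (b (l 16772424) (l 16763224)) (l 16761520))))))))), by decide +kernel⟩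

def k23_pm_102 : ∃ t, chk3 f_pm_102 t 30 66 5 = true :=
  ⟨(l 3), by decide +kernel⟩

def k24_pm_102 : ∃ t, chk3 f_pm_102 t 60 67 5 = true :=
  ⟨(l 3), by decide +kernel⟩

def k25_pm_102 : ∃ t, chk3 f_pm_102 t 122 67 5 = true :=
  ⟨(l 3), by decide +kernel⟩

def k26_pm_102 : ∃ t, chk3 f_pm_102 t 123 67 5 = true :=
  ⟨(b (l 3) (a (l 3) (b (a (l 3) (a (l 3) (l 6))) (b (b (a (l 3) (a (a (a (l 3) (b (l 3) (c (l 257865794535) (l 259476406135)))) (a (a (c (c (l 243370282167) (l 245517766615)) (c (l 247128377543) (l 248202118855))) (l 6)) (l 6))) (l 6))) (a (b (l 3) (b (l 3) (a (l 3) (a (l 3) (a (l 3) (a (l 3) (c (l 90362074279) (l 90362073959)))))))) (a (c (a (c (b (a (l 248738992247) (l 90898939799)) (l 87677717559)) (b (a (b (l 3) (l 97341384487)) (l 89825197927)) (l 82309008279))) (c (l 16770808) (l 16776248))) (c (a (b (a (l 100025728711) (l 89825197527)) (l 79624653527)) (l 16776448)) (a (b (a (l 103246953735) (l 89825197479)) (l 76940298807)) (l 16776448)))) (b (l 6) (c (l 16769192) (l 16770184)))))) (a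 (a (b (l 3) (a (l 3) (c (a (c (l 252497081735) (l 253570822887)) (b (l 256792053959) (c (l 90362070503) (l 89288328615)))) (b (l 259476400263) (c (a (l 101636343815) (l 16769224)) (a (l 104320697991) (l 16766568))))))) (b (a (a (l 3) (b (l 3) (c (c (l 90898934551) (l 89825192503)) (c (l 90362063095) (l 90898933687))))) (a (c (b (c (b (l 95193898727) (l 16769536)) (b (l 97878252903) (l 16768176))) (c (l 16776848) (l 16776912))) (c (b (l 90362059527) (l 16776984)) (b (l 90898930183) (l 16776936)))) (c (c (l 87677720839) (l 88751462551)) (c (l 16771616) (l 16771544))))) (b (a (a (c (c (l 90362067079) (l 89288325191)) (c (l 89825195719) (l 16766328))) (c (l 16774160) (l 16774280))) (c (l 16773480) (l 16771176))) (c (a (l 16775160) (l 16775584)) (c (l 16765888) (l 16776224)))))) (b (c (a (c (l 16772744) (l 16770440)) (l 16768416)) (a (c (l 16770768) (l 16765432)) (l 16769560))) (c (a (b (l 16769504) (l 16763760)) (l 16762208)) (c (l 16764168) (l 16763752))))))))), by decide +kernel⟩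

def k27_pm_102 : ∃ t, chk3 f_pm_102 t 31 33 2 = true :=
  ⟨(b (l 6) (b (l 6) (b (l 6) (b (l 6) (b (l 6) (b (l 6) (b (l 6) (b (l 6) (b (l 6) (a (a (a (a (a (a (a (a (c (c (c (c (a (a (l 16742824) (l 6)) (l 6)) (c (c (l 16761352) (l 16759864)) (l 16766560))) (l 16767264)) (l 16768960)) (l 16751456)) (l 6)) (l 6)) (l 6)) (l 6)) (l 6)) (l 6)) (l 6)) (l 6))))))))))), by decide +kernel⟩

def k28_pm_102 : ∃ t, chk3 f_pm_102 t 15 16 3 = true :=
  ⟨(b (a (l 3) (l 6)) (b (a (l 3) (l 6)) (b (a (l 3) (l 6)) (a (a (l 3) (a (l 3) (a (l 3) (a (b (l 3) (a (a (l 3) (b (l 3) (b (l 3) (c (c (b (l 222969155799) (c (l 91972666119) (l 16753600))) (l 96267611911)) (c (l 16748048) (l 16768568)))))) (c (b (a (l 3) (b (l 3) (c (c (l 255181427399) (l 257328910135)) (l 116131819431)))) (c (c (b (a (l 249812725127) (c (l 87677703783) (l 86067091031))) (a (l 86603969271) (l 16754976))) (b (a (l 110763119591) (l 16761072)) (l 16765816))) (b (a (l 95730733031) (l 79624639431)) (l 16765808)))) (b (c (l 182166876615) (l 183240656279)) (c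 (c (l 76403376583) (l 16734512)) (l 16734512)))))) (b (a (l 3) (l 6)) (b (b (a (b (a (l 3) (l 6)) (c (c (a (a (l 3) (l 108078787815)) (c (l 87677709447) (l 16755952))) (a (l 115058090791) (l 16766440))) (c (l 16747968) (l 16771240)))) (l 6)) (c (a (c (a (c (b (a (l 16759728) (l 16766568)) (l 16766336)) (l 93046404871)) (l 16773672)) (c (l 80698372871) (l 16755560))) (c (c (l 16754096) (l 16775032)) (l 16754056))) (c (a (l 16755560) (l 16775016)) (l 16754776)))) (c (c (a (b (l 16773080) (l 16753720)) (l 16768296)) (l 16769104)) (c (l 16774336) (l 16774320))))))))) (b (l 6) (b (l 6) (a (a (a (c (a (c (l 16765776) (l 16750000)) (l 6)) (c (l 16748256) (l 16748224))) (l 6)) (l 6)) (l 6)))))))), by decide +kernel⟩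

def k29_pm_102 : ∃ t, chk3 f_pm_102 t 14 34 1 = true :=
  ⟨(l 3), by decide +kernel⟩

def k30_pm_102 : ∃ t, chk3 f_pm_102 t 14 140 1 = true :=
  ⟨(l 3), by decide +kernel⟩

def k31_pm_102 : ∃ t, chk3 f_pm_102 t 28 141 1 = true :=
  ⟨(l 3), by decide +kernel⟩

def k32_pm_102 : ∃ t, chk3 f_pm_102 t 58 141 1 = true :=
  ⟨(l 3), by decide +kernel⟩

def k33_pm_102 : ∃ t, chk3 f_pm_102 t 118 141 1 = true :=
  ⟨(l 3), by decide +kernel⟩

def k34_pm_102 : ∃ t, chk3 f_pm_102 t 238 141 1 = true :=
  ⟨(l 3), by decide +kernel⟩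

def k35_pm_102 : ∃ t, chk3 f_pm_102 t 478 141 1 = true :=
  ⟨(b (l 3) (b (l 3) (c (b (a (l 3) (a (l 3) (c (c (b (l 122574313287) (c (b (l 105394455911) (l 16771408)) (l 104320713799))) (b (l 16760816) (l 104320713751))) (c (l 16763168) (l 16773536))))) (c (b (a (l 3) (c (a (c (a (l 16762536) (l 16771208)) (l 104857580087)) (l 16770424)) (a (l 104857579943) (l 16754632)))) (c (a (c (l 262697631847) (l 105931301335)) (c (a (l 16770944) (l 16774144)) (l 16769824))) (a (l 106468171783) (l 16769776)))) (c (a (l 135459188055) (b (l 16765648) (l 16754032))) (a (l 16744112) (l 16754448))))) (c (c (a (l 16737456) (l 16753224)) (l 16723680)) (l 99488804023))))), by decide +kernel⟩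

def k36_pm_102 : ∃ t, chk3 f_pm_102 t 479 141 1 = true :=
  ⟨(b (a (l 3) (a (l 3) (b (l 3) (b (l 3) (b (l 3) (c (c (c (a (c (b (l 3) (l 118279357271)) (l 120426832535)) (c (b (l 16764224) (l 16776840)) (l 16768376))) (a (l 125258670775) (l 104320713319))) (c (a (l 16750656) (l 16776176)) (l 16763232))) (c (c (l 16773600) (l 16773480)) (l 16773296)))))))) (c (a (b (b (l 3) (c (b (a (l 3) (c (c (a (l 16768672) (l 16771536)) (l 104857581975)) (c (l 16764968) (l 16775424)))) (c (a (c (a (l 3) (l 16770200)) (l 105394448455)) (c (l 16770736) (l 16765448))) (a (l 105394448247) (l 16765408)))) (c (a (l 16759864) (l 16765744)) (l 16757952)))) (c (c (b (a (b (c (b (l 16771496) (l 16765736)) (l 16771144)) (l 16764584)) (l 16768408)) (c (l 16750688) (l 16750480))) (b (c (l 69424105879) (l 16753528)) (l 16750336))) (c (c (l 16751880) (l 16751864)) (l 16751840)))) (c (b (c (b (a (b (c (l 105931316871) (l 105931316695)) (c (b (l 104857587127) (l 16771216)) (l 69960977319))) (c (b (a (l 16771456) (l 16770128)) (l 16769160))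 (a (l 16770712) (l 16769144)))) (a (l 16771992) (a (l 16762464) (l 16760520)))) (b (a (b (l 105931316263) (c (l 16766064) (l 16776552))) (a (l 71571594295) (c (l 16763824) (l 16753320)))) (a (l 16753504) (l 16766480)))) (c (a (c (l 16759472) (l 16748712)) (c (b (l 16758448) (l 16755272)) (l 16761744))) (c (b (l 16759304) (l 16745488)) (l 16747112)))) (b (c (a (b (l 104857573687) (l 16774448)) (a (l 16763792) (l 16762008))) (b (a (l 16774536) (l 16764600)) (l 16752056))) (c (l 16757544) (l 16746984))))) (c (b (c (a (l 16746472) (a (l 16775384) (l 16752376))) (a (l 16767120) (l 16753224))) (c (l 16749328) (l 16749272))) (b (c (l 68887177783) (l 16753416)) (l 16749192))))), by decide +kernel⟩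

def k37_pm_102 : ∃ t, chk3 f_pm_102 t 28 71 2 = true :=
  ⟨(l 3), by decide +kernel⟩

def k38_pm_102 : ∃ t, chk3 f_pm_102 t 58 71 2 = true :=
  ⟨(l 3), by decide +kernel⟩

def k39_pm_102 : ∃ t, chk3 f_pm_102 t 118 284 2 = true :=
  ⟨(l 3), by decide +kernel⟩

def k40_pm_102 : ∃ t, chk3 f_pm_102 t 119 568 2 = true :=
  ⟨(a (b (l 3) (a (l 3) (a (l 3) (c (c (a (c (l 126332399831) (l 128479883207)) (b (c (l 105394450039) (l 16763440)) (a (l 68350368615) (l 16765496)))) (a (l 132774850087) (c (l 104320707655) (l 16755016)))) (c (c (l 105931303319) (l 16751240)) (l 16751120)))))) (c (a (c (a (b (a (b (l 3) (a (l 105931325351) (l 68887240151))) (b (c (l 68887236455) (l 16766056)) (l 16764832))) (c (l 16768800) (l 16763440))) (c (l 16766040) (l 16760584))) (a (b (a (b (l 3) (l 16767832)) (a (l 16771072) (l 16754496))) (l 16763384)) (l 16760464))) (c (a (c (l 16756400) (l 16756024)) (c (a (l 16763568) (l 16755688)) (a (l 16763072) (l 16749872)))) (a (l 16755824) (c (l 16750968) (l 16740424))))) (a (c (a (b (c (l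 65665993303) (l 16754936)) (l 16752872)) (l 16749928)) (a (c (l 16753792) (l 16753784)) (l 16749880))) (c (c (l 16742808) (l 16742760)) (l 16742672))))), by decide +kernel⟩

def k41_pm_102 : ∃ t, chk3 f_pm_102 t 119 569 2 = true :=
  ⟨(c (a (b (a (l 3) (a (a (l 3) (b (l 3) (c (c (l 104857582215) (l 16764672)) (l 16764616)))) (c (a (b (c (l 68350364439) (l 16766160)) (l 16765032)) (l 16763632)) (a (l 66739750951) (l 16753048))))) (a (a (l 3) (c (l 295446750007) (l 255718280711))) (c (a (b (a (l 105394448903) (l 16773408)) (c (l 68887236871) (l 16764920))) (l 16766736)) (a (a (c (l 16765000) (l 16754496)) (l 16754224)) (l 16750856))))) (a (c (c (b (l 16758184) (l 16744456)) (c (l 16745808) (l 16745680))) (c (l 16745632) (l 16745592))) (c (c (a (l 16760392) (a (l 16757040) (l 16754376))) (a (l 16759840) (c (l 16744648) (l 16733888)))) (c (a (l 16759648) (l 16754760)) (l 16736152))))) (a (a (c (l 257328844983) (l 214916062183)) (c (a (b (l 107005036903) (l 64592257959)) (c (l 16752328) (l 16752312))) (a (c (l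 105931293527) (l 16751936)) (l 16752288)))) (c (a (l 16745528) (c (l 16736072) (l 16735992))) (a (l 16745440) (l 16735864))))), by decide +kernel⟩

def k42_pm_102 : ∃ t, chk3 f_pm_102 t 59 285 2 = true :=
  ⟨(a (b (l 3) (a (l 3) (a (l 3) (a (l 3) (c (c (b (a (l 3) (b (l 3) (l 104857580775))) (a (b (l 16762344) (l 16771320)) (l 66739755799))) (b (l 107005038039) (a (l 16764392) (l 16754440)))) (c (b (l 16746896) (l 16754888)) (l 106468164231))))))) (a (a (b (a (b (l 3) (c (c (a (l 133848591799) (b (l 105931319063) (l 67276624439))) (a (l 16747376) (l 105394447687))) (c (l 107005044535) (l 16771240)))) (c (c (c (b (a (l 105394440951) (a (l 103783843431) (l 16765384))) (l 16769080)) (b (a (l 105394440439) (l 67813491703)) (l 16763752))) (b (a (l 106468182327) (l 65666008039)) (l 16763728))) (c (b (l 105931310263) (l 16753224)) (l 62981636263)))) (c (c (b (a (a (b (c (l 16765576) (l 16755064)) (l 16765280)) (l 16753432)) (l 16760576)) (c (l 16749088) (l 16748944))) (a (c (l 65666004375) (l 16763080)) (l 16748304)))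 (c (b (l 16762480) (l 16748840)) (l 16750304)))) (c (c (b (c (b (l 16760536) (l 16746800)) (l 16758696)) (c (l 16752344) (l 16741536))) (b (l 16761248) (l 16751928))) (c (b (l 16748072) (l 16741320)) (l 16744608)))) (c (a (c (b (c (l 16752648) (l 16749560)) (c (l 16743360) (l 16753328))) (b (l 16749400) (l 16732192))) (c (c (b (a (l 16753776) (a (l 16750384) (l 16747696))) (a (l 16747040) (l 16731768))) (b (a (l 16753120) (l 16737768)) (a (l 16746368) (l 16741480)))) (b (c (l 16740008) (l 16729416)) (c (l 16722792) (l 16743624))))) (c (a (c (l 16735432) (l 16735344)) (b (l 16739736) (l 16722448))) (c (a (l 16735264) (l 16725672)) (l 16730352)))))), by decide +kernel⟩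

def k43_pm_102 : ∃ t, chk3 f_pm_102 t 118 143 2 = true :=
  ⟨(a (b (l 3) (a (b (l 3) (c (c (a (l 271824401111) (b (l 106468171191) (a (l 16764928) (l 16775352)))) (a (l 16739984) (b (l 16748000) (l 16775816)))) (c (a (l 16739488) (l 107541910631)) (l 110226235479)))) (c (b (a (b (l 3) (c (a (l 16748136) (l 103783836279)) (l 16758720))) (c (b (a (l 105931312887) (l 16768328)) (l 16763888)) (b (l 105394440807) (l 16753376)))) (c (b (a (l 16769288) (l 16771128)) (l 16749016)) (b (l 16762592) (l 16748960)))) (b (c (a (l 109152508087) (l 59760412327)) (b (l 16746576) (l 16754272))) (c (l 16750424) (l 16750376)))))) (b (b (b (a (l 3) (c (c (a (a (l 105394440487) (b (l 16769320) (l 16754848))) (l 16752400)) (a (a (l 16750688) (l 16765704)) (l 16752344))) (c (a (l 16753440) (l 16773280)) (l 16753648)))) (c (a (a (l 3) (c (a (l 3) (c (l 103783835191) (l 16764368))) (l 106468174295))) (c (a (c (l 16763936) (l 16753416)) (l 16749088)) (l 16761664))) (a (c (l 108615627319) (l 16742768)) (c (l 16751136) (l 16751096)))))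 (c (a (c (a (b (c (l 139754165239) (l 141901648599)) (a (l 103783835591) (l 16764992))) (b (c (l 66739748247) (l 16764760)) (l 16751328))) (a (b (l 107541909815) (l 62444774679)) (b (l 16764744) (l 16772240)))) (c (c (l 16746384) (l 16746280)) (l 16746216))) (a (c (a (b (l 16747024) (l 16775888)) (l 16752664)) (a (l 16751312) (l 16752632))) (c (l 16746136) (l 16767024))))) (c (c (b (c (a (l 16748568) (l 16739712)) (l 16744048)) (a (l 16752368) (l 16746072))) (b (a (l 16748472) (l 16739496)) (l 16745112))) (c (b (l 16743872) (l 16737096)) (l 16740368))))), by decide +kernel⟩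

def k44_pm_102 : ∃ t, chk3 f_pm_102 t 119 143 2 = true :=
  ⟨(c (a (b (b (c (a (c (l 16754624) (l 16743952)) (c (l 16745664) (l 16755824))) (c (l 16739320) (l 16739248))) (c (c (a (l 16737472) (l 16728440)) (l 16743184)) (c (l 16732608) (l 16732504)))) (c (b (c (c (l 16731528) (l 16726088)) (l 16725992)) (c (a (l 16744984) (l 16735864)) (l 16719264))) (b (c (l 16725864) (l 16725744)) (a (l 16744632) (l 16735408))))) (b (c (c (a (b (l 16736600) (l 16740272)) (b (a (l 16740208) (l 16724896)) (a (l 16733352) (l 16728488)))) (a (b (l 16746608) (l 16739880)) (b (l 16726688) (l 16730424)))) (b (a (l 16746416) (a (l 16739392) (l 16734464))) (a (l 16739656) (a (l 16732616) (l 16727672))))) (c (c (b (a (l 16733448) (a (l 16726480) (l 16721592))) (a (l 16726632) (a (l 16719632) (l 16714728)))) (a (l 16719296) (b (l 16723664) (l 16716888)))) (b (a (l 16732872) (c (l 16723448) (l 16723224))) (c (l 16705672) (l 16700200)))))) (a (b (c (b (l 16739144) (l 16732360)) (c (l 16735632) (l 16735552))) (c (b (l 16725552) (l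 16718736)) (c (l 16721952) (l 16721808)))) (b (c (b (c (l 16720472) (l 16720328)) (c (l 16713656) (l 16713488))) (c (l 16716752) (l 16716592))) (c (b (a (l 16732512) (l 16722896)) (a (l 16725656) (l 16716024))) (c (l 16702984) (l 16702768)))))), by decide +kernel⟩

def k45_pm_102 : ∃ t, chk3 f_pm_102 t 14 71 3 = true :=
  ⟨(a (l 3) (a (l 3) (a (a (b (l 3) (b (l 3) (c (c (a (l 111836799751) (b (l 16750696) (l 16771296))) (a (l 16712256) (l 59223506775))) (c (b (l 16714520) (l 16752160)) (l 16723504))))) (b (b (l 3) (a (l 3) (b (l 3) (c (c (l 107541872903) (l 16743216)) (l 16742648))))) (c (b (c (a (b (l 16736600) (l 16753520)) (b (l 16752104) (l 16766936))) (a (l 105931242999) (l 16748824))) (c (l 16740232) (l 16740104))) (b (c (a (l 16724576) (l 16748760)) (l 16719104)) (l 16739904))))) (b (c (a (b (a (c (l 215452886055) (l 16694080)) (c (b (l 106468112615) (b (l 16753528) (l 16752624))) (b (l 16736032) (l 16753264)))) (b (a (c (b (l 16745992) (l 16754184)) (l 16750568)) (l 16747904)) (c (l 16745632) (l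 16745544)))) (b (c (a (b (l 16751624) (l 16766320)) (l 16739136)) (a (l 16756168) (l 16739000))) (c (c (l 16730248) (l 16730144)) (l 16729984)))) (a (b (a (l 169818807031) (c (l 100562526823) (l 16724976))) (c (a (l 16730816) (l 16744320)) (l 16747520))) (b (c (a (l 16748240) (l 16738856)) (l 16743344)) (c (l 16729768) (l 16729552))))) (c (c (b (a (l 16735424) (c (l 16716432) (l 16716272))) (a (l 16721600) (l 16702440))) (b (a (l 16735256) (l 16716024)) (c (l 16711712) (l 16711528)))) (c (b (l 16704384) (l 16711256)) (b (l 16725104) (l 16710888)))))))), by decide +kernel⟩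

def k46_pm_102 : ∃ t, chk3 f_pm_102 t 60 68 1 = true :=
  ⟨(l 3), by decide +kernel⟩

def k47_pm_102 : ∃ t, chk3 f_pm_102 t 120 138 2 = true :=
  ⟨(l 3), by decide +kernel⟩

def k48_pm_102 : ∃ t, chk3 f_pm_102 t 242 138 2 = true :=
  ⟨(l 3), by decide +kernel⟩

def k49_pm_102 : ∃ t, chk3 f_pm_102 t 243 276 2 = true :=
  ⟨(l 3), by decide +kernel⟩

def k50_pm_102 : ∃ t, chk3 f_pm_102 t 243 554 2 = true :=
  ⟨(a (l 3) (a (a (l 3) (a (l 3) (b (l 3) (b (l 3) (c (a (c (l 93583290679) (l 94657032183)) (c (l 16770488) (l 16771768))) (c (l 94120160647) (l 16775592))))))) (c (a (b (b (l 3) (c (l 306184174951) (c (l 102710071095) (l 105931296119)))) (b (a (b (l 3) (c (l 16769448) (l 16770680))) (c (l 16771624) (l 16771560))) (c (l 16771192) (l 16771048)))) (c (b (b (a (l 98951986023) (c (l 90898936791) (l 16767104))) (c (l 86603973671) (l 16769504))) (l 16770440)) (b (b (a (l 104857565287) (c (l 16765760) (l 16765720))) (c (l 16768800) (l 16766136))) (l 16770144)))) (c (b (a (l 319605936519) (c (b (l 94120145783)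 (l 16766088)) (a (l 94120145351) (l 16766096)))) (a (b (c (l 82845866199) (l 16755792)) (l 16765664)) (l 16764624))) (b (a (l 117742433591) (c (l 94657015511) (l 16755680))) (c (l 80698380935) (l 16754672))))))), by decide +kernel⟩

def k51_pm_102 : ∃ t, chk3 f_pm_102 t 243 555 2 = true :=
  ⟨(a (a (l 3) (b (l 3) (a (a (l 3) (c (c (l 316921590247) (l 319069072887)) (c (l 112373741591) (l 16744728)))) (b (a (l 3) (c (a (c (l 95193902839) (l 16766024)) (c (l 94120168311) (l 16769144))) (c (l 16767472) (l 16775248)))) (c (c (c (l 83382747143) (l 82845875991)) (c (l 16768776) (l 16766120))) (c (c (l 16766072) (l 16776536)) (l 16776536))))))) (c (a (b (a (b (c (l 309405399847) (c (l 103783812999) (l 107005038023))) (a (b (l 3) (c (l 16769104) (l 16770328))) (c (l 83919623239) (l 16771560)))) (b (c (c (l 84993360247) (l 83919618343)) (c (l 16768792) (l 16766128))) (c (l 16776024) (l 16775808)))) (c (c (l 16772800) (l 16772640)) (c (l 16769856) (l 16764456)))) (c (b (a (l 16769976) (l 16763504)) (l 16767536)) (b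 (c (l 16763768) (l 16753040)) (l 16761544)))) (c (a (b (a (b (l 111300004631) (c (l 16763960) (l 16755408))) (c (l 16768216) (l 16765544))) (c (l 16764296) (l 16753712))) (c (l 16762152) (l 16751472))) (a (b (a (b (l 16746064) (l 16755384)) (l 16765536)) (l 16753704)) (l 16751440))))), by decide +kernel⟩

def k52_pm_102 : ∃ t, chk3 f_pm_102 t 120 139 2 = true :=
  ⟨(l 3), by decide +kernel⟩

def k53_pm_102 : ∃ t, chk3 f_pm_102 t 484 139 2 = true :=
  ⟨(b (l 3) (b (a (l 3) (b (l 3) (c (a (c (b (l 3) (l 314774110071)) (l 321753422775)) (a (b (l 3) (c (c (l 16769048) (l 16766408)) (l 76940297463))) (c (b (c (l 101099484375) (l 16767712)) (l 16776328)) (b (l 100025741991) (l 16776216))))) (c (a (l 115594956711) (b (l 100562598503) (l 16765952))) (a (l 16742272) (l 99488855831)))))) (b (a (b (l 3) (a (l 3) (a (l 3) (c (c (c (l 102173227047) (l 16768024)) (l 101099484791)) (c (l 16754784) (l 16775696)))))) (c (c (a (b (a (c (l 102173222567) (l 102173222407)) (b (l 16771728) (l 16776568))) (l 16773488)) (l 16769808))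 (a (b (a (l 101636351271) (l 16771440)) (l 16765496)) (l 16764304))) (c (a (c (l 76940287703) (l 16755264)) (l 16753648)) (l 74792803239)))) (c (a (a (a (b (l 3) (c (c (l 102710094647) (l 103783836327)) (l 102710093975))) (c (b (c (l 103246961207) (l 16764400)) (b (l 16771696) (l 16776480))) (b (l 103246960327) (l 16771376)))) (c (b (c (a (l 16770320) (l 16776264)) (l 75866556855)) (l 16765008)) (c (l 76403426839) (l 16770552)))) (c (c (l 16763152) (l 16762944)) (l 16767864))) (c (a (a (b (l 16758232) (l 100562609767)) (l 16769192)) (l 16751888)) (a (c (l 73719044391) (l 16755120)) (l 16772832))))))), by decide +kernel⟩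

def k54_pm_102 : ∃ t, chk3 f_pm_102 t 485 139 2 = true :=
  ⟨(b (b (l 3) (a (a (l 3) (a (l 3) (b (l 3) (b (l 3) (c (c (a (l 100025741607) (l 98952006807)) (l 98951999431)) (c (l 16764720) (l 16775120))))))) (c (b (a (c (b (l 3) (l 314774108871)) (l 322290292215)) (a (b (l 3) (c (a (l 98415133255) (l 16771664)) (l 97341390903))) (c (b (c (l 97878257703) (l 16767432)) (l 16776448)) (b (c (l 16764760) (l 16764704)) (l 16776336))))) (c (a (b (a (c (l 99488866023) (l 99488866167)) (b (l 16771776) (l 16776672))) (l 16773640)) (l 16770056)) (a (b (a (l 99488865895) (l 16771520)) (l 16770888)) (l 16764552)))) (c (b (b (c (l 298131104439) (l 99488825831)) (a (l 113984360519) (l 79087779271))) (a (c (b (l 16765576) (l 16776040)) (l 16765840)) (l 16753864))) (b (a (l 120963661671) (l 98415112119)) (a (l 16763216) (l 16753840))))))) (c (b (c (a (b (a (b (l 315310980263) (a (c (l 101099479639) (l 101099479303)) (b (l 16771760) (l 16776632)))) (b (c (a (l 16769072) (l 16776424)) (l 78550909335)) (l 16765240))) (c (l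 77477173031) (l 16769544))) (b (c (l 16763544) (l 16763328)) (l 16766408))) (a (b (a (a (b (l 3) (l 100562608135)) (b (l 101099474135) (l 16771488))) (b (c (l 16768696) (l 16766032)) (l 16754560))) (c (l 16769392) (l 16764000))) (c (l 16767144) (l 16761616)))) (b (c (c (l 16765840) (l 16765464)) (c (l 16759840) (l 16748968))) (c (c (l 16758168) (l 16757664)) (c (l 16746664) (l 16746144))))) (b (c (a (b (a (b (l 115058103559) (l 98415123767)) (b (l 16768616) (l 16754424))) (l 16769120)) (c (l 16750904) (l 16750856))) (a (a (b (l 100025716679) (l 16775312)) (l 75866553127)) (l 16750824))) (c (c (l 16757776) (l 16747248)) (l 16747208))))), by decide +kernel⟩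

def k55_pm_102 : ∃ t, chk3 f_pm_102 t 243 139 4 = true :=
  ⟨(b (a (b (a (b (a (l 3) (a (l 3) (b (l 3) (a (c (l 97341386855) (l 16765872)) (c (l 95730780727) (l 16771600)))))) (b (a (c (l 313700366807) (c (l 105394426407) (l 108615651447))) (c (c (l 81772134359) (l 81235263207)) (c (l 16768760) (l 16766096)))) (c (a (a (c (l 97878252807) (l 97878252615)) (l 81235268311)) (l 16775896)) (a (a (l 98415123239) (l 16771544)) (l 16775696))))) (c (b (a (b (a (c (l 96267640183) (l 96804510903)) (l 82309010167)) (l 16773744)) (l 16770264)) (c (l 16763896) (l 16763680))) (b (a (b (a (l 96804510599) (l 16771552)) (l 16770992)) (l 16764744)) (l 16769896)))) (c (a (b (c (l 80698399351) (l 16772416)) (l 16769104)) (b (l 16766976) (l 16759528))) (a (b (c (l 16769648) (l 16764248)) (l 16767224)) (c (l 16760008) (l 16759576))))) (c (b (a (b (l 16770864) (l 16760984)) (b (l 16760304) (l 16747680))) (a (c (l 16757984) (l 16746864)) (l 16754672))) (b (a (c (l 16766704) (l 16761096)) (c (l 16747896) (l 16747312))) (c (a (l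 16746224) (l 16763880)) (l 16754296))))) (c (c (a (b (a (l 16759384) (l 16745808)) (l 16755432)) (b (l 16751616) (l 16735664))) (a (b (a (l 16758904) (l 16745120)) (l 16751968)) (b (l 16750616) (l 16734416)))) (a (b (c (a (l 16758416) (l 16744424)) (b (l 16746936) (l 16744168))) (c (l 16751120) (l 16739776))) (b (c (l 16739128) (l 16738112)) (c (l 16733160) (l 16752856)))))), by decide +kernel⟩

def k56_pm_102 : ∃ t, chk3 f_pm_102 t 243 139 5 = true :=
  ⟨(b (a (b (c (a (b (b (l 3) (c (l 297594233255) (l 98415082903))) (a (b (l 113447489319) (c (l 16765560) (l 16755048))) (b (l 80161520647) (l 16775528)))) (b (a (c (b (l 16763056) (l 16776128)) (l 16763272)) (l 16764504)) (l 16762968))) (a (b (l 297594222375) (a (l 98415101991) (l 16755000))) (b (a (l 77477155927) (l 16753976)) (l 16752416)))) (c (c (b (a (l 16764104) (l 16770968)) (l 16749208)) (b (l 16751720) (l 16749120))) (b (l 16762184) (l 16749088)))) (c (b (c (a (l 16760728) (l 16746728)) (l 16748272)) (c (l 16756232) (l 16742920))) (b (c (l 16748240)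 (l 16748216)) (l 16742848)))) (c (b (a (c (l 16758208) (l 16745008)) (c (l 16737304) (l 16758112))) (a (c (l 16739232) (l 16760128)) (l 16731024))) (b (a (l 16744944) (l 16737040)) (a (l 16739064) (l 16751808))))), by decide +kernel⟩

def k57_pm_102 : ∃ t, chk3 f_pm_102 t 60 69 3 = true :=
  ⟨(a (l 3) (b (a (l 3) (b (l 3) (a (b (l 3) (b (l 3) (a (l 3) (c (c (l 98415079207) (l 16747248)) (l 97341333751))))) (c (b (a (c (l 325511492967) (l 133311620727)) (c (b (a (l 16740744) (l 16755680)) (l 16754664)) (c (l 74792755639) (l 16734016)))) (c (a (b (c (l 16755312) (l 16755304)) (l 16774656)) (l 16751408)) (a (l 74255906375) (l 16751376)))) (b (c (a (l 16725184) (l 16734000)) (l 16698568)) (c (l 16752728) (l 16773672))))))) (a (a (b (l 3) (b (a (l 3) (b (l 3) (c (c (l 100025697319) (l 16747944)) (l 16747472)))) (c (c (a (b (l 16739752) (l 16755112)) (l 16763536)) (a (l 98415064535) (l 16753024))) (c (l 74792740455) (l 16753760))))) (b (b (l 3) (c (a (c (l 128479793351) (l 16706824)) (c (b (l 98951952327) (l 16754504))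 (l 97878207895))) (c (l 96804401319) (l 16719632)))) (c (b (c (a (b (l 73719040311) (l 16774320)) (l 16750792)) (a (l 16754104) (l 16750752))) (c (l 16747144) (l 16747080))) (c (b (l 16752272) (l 16767984)) (l 16749560))))) (c (b (b (a (c (a (b (l 99488801719) (l 74792780135)) (a (l 75329671079) (l 16752736))) (a (l 98415056871) (l 16753440))) (c (l 16748176) (l 16748128))) (c (a (l 16750368) (l 16742760)) (a (l 16750328) (l 16763640)))) (b (c (c (l 16740896) (l 16740840)) (l 16740760)) (c (l 16740024) (l 16734632)))) (b (c (b (a (b (l 16730416) (l 16753688)) (l 16748072)) (l 16746408)) (b (a (l 16733088) (l 16768992)) (l 16746344))) (c (b (l 16740656) (l 16734480)) (l 16737504))))))), by decide +kernel⟩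

def k58_pm_102 : ∃ t, chk3 f_pm_102 t 122 136 2 = true :=
  ⟨(b (l 3) (a (l 3) (b (l 3) (b (l 3) (b (l 3) (a (l 3) (a (l 3) (a (l 3) (c (a (c (l 321216561671) (l 319069076967)) (c (c (l 91972676183) (l 91972675959)) (c (l 90898933975) (l 89288321015)))) (c (a (c (l 101099462631) (l 104320687575)) (c (l 89825191687) (l 16766032))) (c (l 91435784583) (l 92509526103)))))))))))), by decide +kernel⟩

def k59_pm_102 : ∃ t, chk3 f_pm_102 t 244 274 2 = true :=
  ⟨(l 3), by decide +kernel⟩

def k60_pm_102 : ∃ t, chk3 f_pm_102 t 490 274 2 = true :=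
  ⟨(a (l 3) (a (b (l 3) (b (l 3) (a (c (c (l 317458457927) (l 317995327415)) (c (l 319605938711) (l 111836860407))) (b (l 3) (c (c (c (l 91972678599) (l 90898936583)) (c (l 89825194551) (l 16766584))) (c (c (l 16766560) (l 16766544)) (l 16766528))))))) (b (l 3) (b (a (l 3) (b (l 3) (b (l 3) (c (c (l 92509551223) (l 89288325207)) (c (l 90898937559) (l 16764872)))))) (c (c (a (b (a (l 93046415911) (l 91972682295)) (l 16776608)) (l 86067109847)) (b (a (b (l 89825190103) (l 88751458679)) (l 16771624)) (l 16771272))) (c (b (c (b (l 87140834487) (l 16766432)) (l 86603963495)) (l 16766024)) (c (b (l 16763776) (l 16776376)) (l 16755600)))))))), by decide +kernel⟩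

def k61_pm_102 : ∃ t, chk3 f_pm_102 t 982 274 2 = true :=
  ⟨(b (b (l 3) (b (a (l 3) (a (l 3) (c (c (c (l 92509543447) (l 92509543111)) (c (l 90898930215) (l 89288317319))) (c (c (l 90362058807) (l 16764088)) (l 91972670631))))) (c (c (a (l 320142813223) (c (l 86603967495) (c (l 86603967447) (l 86603967255)))) (a (l 319605940871) (a (b (l 90362064151) (l 16771864)) (l 16776680)))) (a (c (l 320679681255) (l 110763121095)) (c (c (l 87677708663) (l 87140837335)) (c (l 16766376) (l 16755880))))))) (b (a (a (b (b (l 3) (c (c (l 93046417543) (l 89825191623)) (c (l 91435803831) (l 16762648)))) (c (c (l 86603976967) (l 88214589543)) (c (l 87140847271) (l 16766416)))) (c (c (c (l 86067101079) (l 86603971959)) (c (l 89825197239) (l 88751455223))) (c (c (l 87677713351) (l 16768904)) (b (l 16769120) (l 16776440))))) (c (c (l 16773680) (l 16774008)) (c (l 16773624) (l 16765512)))) (c (c (a (l 16770200) (l 16763720)) (c (l 16764736) (l 16765008))) (c (c (l 16765088) (l 16754344)) (l 16769824))))), by decide +kernel⟩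

def k62_pm_102 : ∃ t, chk3 f_pm_102 t 983 274 2 = true :=
  ⟨(c (b (a (b (b (b (l 3) (c (l 309405402663) (l 303499821655))) (a (b (l 3) (c (l 91972679031) (l 90362065863))) (c (l 86603975927) (c (l 16766480) (l 16766520))))) (c (c (l 16770592) (l 16770728)) (c (l 16770856) (l 16770984)))) (c (b (a (c (l 86603971015) (l 86603970983)) (l 16773184)) (l 16769208)) (b (b (c (l 87140841687) (l 88214583319)) (l 16770768)) (l 16769752)))) (c (b (c (l 16762968) (l 16763336)) (l 16761864)) (b (c (l 16763712) (l 16764088)) (l 16762952)))) (b (b (c (b (a (c (l 313163492167) (l 313700362423)) (c (l 88214583431) (l 16766424))) (a (c (a (l 90362053991) (l 16766552)) (b (l 90898924215) (l 16766520))) (l 16765808))) (c (a (b (l 107541898471) (l 90898923655)) (l 87140840647)) (a (b (l 110763123303) (l 16755456)) (l 16755584)))) (c (c (l 77477173303) (l 16770824)) (c (l 16770632) (l 16754840)))) (c (b (l 16772376) (l 16763128)) (b (l 16769192) (l 16762352))))), by decide +kernel⟩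

def k63_pm_102 : ∃ t, chk3 f_pm_102 t 122 550 2 = true :=
  ⟨(a (b (l 3) (b (l 3) (a (l 3) (a (l 3) (a (l 3) (c (c (l 313700365191) (l 315310976759)) (c (l 317458459239) (l 113447481207)))))))) (a (a (a (b (l 3) (b (a (l 3) (c (c (c (l 92509546775) (l 90898933767)) (a (l 99488868391) (l 89288329543))) (c (a (l 105394448039) (l 16769192)) (l 16765104)))) (c (c (c (l 86067099895) (l 87140841671)) (c (l 88214583399) (l 87677712391))) (c (c (l 16766312) (l 16766264)) (l 16767536))))) (b (c (a (b (l 3) (c (c (l 92509542199) (l 91435800007)) (c (l 89825187063) (l 90362057767)))) (b (a (l 3) (c (l 93046416807) (l 98951996423))) (c (l 16771704) (l 88214590919)))) (c (b (l 311552884263) (c (b (l 87140831863) (l 16766448)) (l 86067089319))) (c (b (l 109689386791) (l 16761168)) (l 93583258567)))) (c (c (c (l 16770896) (l 16771032)) (c (l 16765920) (l 16765864))) (c (c (l 16765736) (l 16776096)) (l 16775992))))) (c (c (b (a (a (b (l 86067102759) (l 16776360)) (l 16770888)) (l 16770040)) (l 16772024)) (b (a (b (c (l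 16769040) (l 16768992)) (l 16765872)) (l 16770504)) (l 16772560))) (c (b (a (c (l 87140843431) (l 16768552)) (l 16765032)) (l 16769312)) (b (c (l 69960973079) (l 16775744)) (l 16753168))))) (a (b (c (c (l 16768336) (l 16769208)) (c (l 16768784) (l 16752472))) (c (c (l 16772568) (l 16763048)) (c (l 16772400) (l 16750680)))) (c (c (l 16766928) (l 16769824)) (c (a (l 16761192) (l 16749664)) (l 16764896)))))), by decide +kernel⟩

def k64_pm_102 : ∃ t, chk3 f_pm_102 t 122 551 2 = true :=
  ⟨(a (a (l 3) (b (a (l 3) (a (a (l 3) (b (l 3) (c (c (c (l 92509544567) (l 90362060759)) (c (l 89288318615) (l 90362060119))) (c (a (l 16764736) (l 16768496)) (l 16763816))))) (c (b (a (b (l 3) (c (l 91435808487) (l 89825195479))) (c (l 86603975863) (l 88214588151))) (c (l 16772776) (l 78014045111))) (c (b (a (l 91972667687) (l 86603975287)) (l 16771272)) (c (l 84456473671) (l 16755632)))))) (a (a (l 3) (c (b (c (l 319605943335) (l 321216554839)) (a (a (l 3) (c (l 91435804215) (l 101099480199))) (c (c (l 16766568) (l 16766536))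 (c (l 16766512) (l 16766488))))) (c (b (l 322827166327) (c (l 90898923527) (l 91435794295))) (b (l 114521221735) (l 93583277751))))) (c (c (a (b (c (l 86067097767) (l 87677710423)) (l 16766016)) (l 16770664)) (a (b (c (l 88214581095) (l 87140839191)) (l 16776360)) (l 16770472))) (c (b (c (a (l 86603967863) (l 16754856)) (l 71034710519)) (l 16765040)) (c (l 67276613511) (l 16754736))))))) (a (b (c (c (a (c (l 16770208) (l 16765192)) (l 16763192)) (a (c (l 16765256) (l 16765040)) (l 16763344))) (c (c (l 16770280) (l 16768624)) (c (l 16763144) (l 16752640)))) (c (c (a (l 16769392) (l 16751960)) (c (l 16768264) (l 16762528))) (c (a (l 16763016) (l 16750064)) (l 16761224)))) (c (c (a (l 16766232) (l 16748696)) (a (l 16765952) (l 16748328))) (c (a (l 16764352) (l 16746224)) (c (l 16746376) (l 16746328)))))), by decide +kernel⟩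

def k65_pm_102 : ∃ t, chk3 f_pm_102 t 246 272 4 = true :=
  ⟨(a (l 3) (b (a (l 3) (b (l 3) (b (a (l 3) (a (l 3) (c (l 91972679271) (c (l 91972679127) (l 91435807799))))) (a (b (l 3) (c (l 256792055223) (l 253033957863))) (c (c (l 87140843927) (l 87140843895)) (c (l 87140843687) (l 87140843639))))))) (a (a (b (l 3) (a (a (l 3) (c (l 258939536247) (l 255718309639))) (b (l 3) (c (l 91972681943) (c (l 16769256) (l 90362068759)))))) (b (a (l 3) (c (l 246054637463) (c (l 244444024023) (l 244444023543)))) (b (c (c (l 87140840183) (l 87140839943)) (c (l 87140839703) (l 87677710503))) (c (l 16770928) (l 16773784))))) (a (b (a (b (b (l 3) (c (l 92509551719) (l 92509551367))) (c (l 16776840) (l 86603979591))) (c (l 86603976215) (c (l 87140847031) (l 87677718119)))) (c (l 16769944) (c (l 16765040) (l 16765272)))) (c (b (l 16772848) (l 16763296)) (c (l 16772424) (l 16772712))))))), by decide +kernel⟩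

def k66_pm_102 : ∃ t, chk3 f_pm_102 t 492 546 4 = true :=
  ⟨(a (b (l 3) (a (l 3) (b (l 3) (b (l 3) (b (l 3) (c (l 315847851959) (l 311016012615))))))) (b (a (l 3) (a (c (l 247128378791) (c (l 244980894439) (l 246591506711))) (c (b (l 93046413575) (l 16776904)) (b (c (l 92509542199) (l 95193896439)) (l 87140849959))))) (a (a (b (l 3) (a (b (l 3) (a (b (c (l 16772928) (c (l 16770216) (l 16775400))) (c (l 16774568) (c (l 16777200) (l 16777200)))) (b (c (l 16777072) (l 16777056)) (c (l 16771552) (l 16774216))))) (c (b (l 16776568) (l 16771488)) (b (l 16771272) (c (l 16771544) (l 16771584)))))) (c (b (l 92509549335) (b (l 16776792) (l 16771000))) (b (c (l 91972678215) (l 90362065351)) (b (l 16776896) (c (l 16771136) (l 16771232)))))) (c (b (l 16771168) (b (l 16765312) (l 16770008))) (b (l 87140852775) (b (l 16776120) (a (l 16773296) (l 16770168)))))))), by decide +kernel⟩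

def k67_pm_102 : ∃ t, chk3 f_pm_102 t 492 547 4 = true :=
  ⟨(a (b (b (a (l 3) (a (a (l 3) (b (l 3) (c (l 16775320) (l 91435811671)))) (c (l 91972680119) (c (l 16767928) (l 16767960))))) (c (a (c (l 305110434439) (l 303499821159)) (c (l 16771120) (l 16771200))) (a (c (l 300815466055) (l 297057369111)) (c (l 16771272) (l 16768728))))) (b (c (a (a (c (l 92509542375) (l 92509542199)) (l 16772712)) (l 16770120)) (a (a (c (l 91435800199) (l 89825187271)) (l 16772816)) (l 16770440))) (c (c (l 16769888) (l 16770064)) (c (l 16770240) (l 16770424))))) (b (a (c (a (b (a (a (l 16776456) (l 16770480)) (b (c (l 16773128) (l 16772552)) (l 16774032))) (l 16771504)) (b (a (b (l 16774560) (l 16770064)) (l 16762696)) (b (a (l 16771608) (l 16768304)) (l 16759672)))) (a (b (a (a (l 16771336) (l 16773256)) (b (c (l 16773288) (l 16772712)) (l 16769032))) (c (l 16769144) (l 16764072))) (b (b (l 16764184) (a (c (l 16767680) (l 16767832)) (l 16772504))) (b (a (l 16772000) (c (l 16770616) (l 16770848))) (l 16760184))))) (b (c (l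 16761896) (l 16762424)) (c (a (b (l 16769560) (a (l 16765264) (l 16767336))) (l 16767912)) (a (b (l 16770128) (a (l 16765880) (l 16768024))) (l 16768672))))) (a (c (a (c (l 16767264) (l 16767576)) (l 16758488)) (c (b (l 16766480) (l 16760464)) (l 16766432))) (c (b (a (b (a (l 16766856) (l 16765536)) (l 16765464)) (b (l 16764848) (l 16760376))) (a (l 16764816) (b (a (l 16762240) (l 16760936)) (l 16760904)))) (b (a (b (a (l 16767560) (l 16766304)) (l 16766280)) (b (l 16765720) (l 16761320))) (a (l 16765760) (b (a (l 16763232) (l 16761992)) (l 16762016)))))))), by decide +kernel⟩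

def k68_pm_102 : ∃ t, chk3 f_pm_102 t 493 273 4 = true :=
  ⟨(a (b (c (b (c (l 86603974135) (l 86603974183)) (b (l 16769152) (b (l 16763312) (l 16770648)))) (b (a (c (l 86603975047) (l 87677717095)) (l 16772816)) (b (l 16772416) (b (l 16764096) (c (l 16763432) (l 16763872)))))) (b (c (c (l 16757664) (l 16758192)) (c (l 16758720) (l 16759256))) (c (b (l 16762384) (a (a (l 16755792) (l 16758720)) (l 16757896))) (b (l 16763664) (a (a (l 16757984) (l 16760072)) (l 16759464)))))) (b (c (b (l 16762376) (b (l 16750728) (l 16765632))) (b (l 16771224) (b (l 16762464) (b (l 16751552) (l 16761616))))) (b (c (l 16755424) (l 16757088)) (c (l 16747648) (l 16739112))))), by decide +kernel⟩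

def k69_pm_102 : ∃ t, chk3 f_pm_102 t 247 272 4 = true :=
  ⟨(c (a (b (a (b (a (b (l 249275862535) (a (b (l 93583289143) (l 16771544)) (l 16771496))) (c (l 87140847639) (l 16770880))) (a (l 86603981495) (l 16769024))) (a (b (l 16769280) (l 16762288)) (l 16768184))) (a (b (l 16768048) (l 16761168)) (l 16764344))) (c (c (a (a (l 16763056) (c (c (c (a (a (b (c (l 16763016) (l 16758264)) (l 16754472)) (l 16754448)) (l 16751144)) (a (b (a (l 16768912) (c (l 16762752) (l 16768432))) (l 16759784)) (l 16755784))) (a (l 16756544) (c (a (b (c (l 16757240) (l 16768104)) (l 16764464)) (l 16759320)) (b (a (l 16768192) (l 16762304)) (l 16753992))))) (l 16756344))) (c (a (c (l 16745528) (b (l 16752600) (l 16737512))) (l 16736112)) (c (a (a (a (b (l 16762096) (l 16764056)) (b (c (l 16755376) (l 16756464)) (l 16758440))) (b (l 16757032) (l 16739384))) (l 16734400)) (a (a (l 16765712) (c (a (l 16759752) (b (l 16754936) (l 16762232))) (l 16759680))) (a (a (b (l 16759016) (l 16740128)) (l 16739608)) (l 16736312)))))) (a (b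 (l 16759152) (l 16766416)) (a (l 16744728) (c (a (c (a (l 16753992) (c (b (l 16754488) (l 16761864)) (l 16764136))) (l 16764472)) (c (b (c (l 16761952) (l 16758512)) (l 16749248)) (c (a (l 16763848) (b (l 16754024) (l 16761488))) (l 16763752)))) (l 16764344))))) (b (b (l 16759088) (l 16747080)) (l 16744952)))) (a (b (a (c (b (a (b (l 247128378119) (a (l 92509546663) (l 16776824))) (l 87140847831)) (l 16772752)) (b (a (b (l 245517764871) (c (l 87140836855) (l 87677707735))) (l 87140847751)) (l 87140852119))) (b (c (l 16763832) (l 16769448)) (l 16770536))) (a (c (l 16768008) (l 16768544)) (c (l 16749888) (l 16750736)))) (b (a (c (l 16760552) (l 16761360)) (l 16758576)) (c (l 16746280) (l 16747624))))), by decide +kernel⟩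

def k70_pm_102 : ∃ t, chk3 f_pm_102 t 247 273 4 = true :=
  ⟨(c (a (b (b (l 16758240) (a (l 16763360) (l 16755424))) (a (l 16749104) (l 16736216))) (b (c (c (a (c (a (l 16763328) (c (a (b (c (l 16761656) (l 16762672)) (c (a (l 16750584) (l 16759408)) (l 16755936))) (l 16736944)) (a (l 16762304) (b (l 16757000) (c (a (l 16760672) (l 16759176)) (l 16750248)))))) (l 16741984)) (c (b (l 16728856) (b (l 16727816) (l 16727080))) (a (c (a (a (l 16755840) (c (l 16749144) (l 16750272))) (b (l 16758152) (l 16735776))) (a (l 16761224) (b (l 16750264) (c (l 16753904) (l 16759832))))) (b (l 16732736) (b (l 16731736) (l 16741512)))))) (a (l 16753024) (c (a (l 16761184) (b (a (l 16750080) (c (l 16757648) (l 16759928))) (c (a (c (l 16748320) (l 16759384)) (l 16745840)) (a (l 16759576) (l 16748128))))) (l 16760920)))) (b (l 16763976) (l 16741760))) (c (c (a (a (l 16754104) (c (c (a (c (l 16730584) (l 16731616)) (l 16748672)) (a (l 16753000) (c (l 16730344) (l 16731272)))) (l 16753016))) (c (l 16719136) (a (c (a (l 16740864)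 (l 16727464)) (a (l 16752168) (l 16730096))) (l 16723192)))) (a (l 16754336) (c (a (l 16752216) (c (a (l 16729824) (l 16727232)) (l 16729944))) (l 16752112)))) (l 16733576)))) (b (b (a (l 16766712) (l 16745384)) (a (b (l 16748848) (a (l 16759768) (l 16747224))) (b (l 16744656) (l 16754616)))) (a (a (l 16751512) (l 16739224)) (l 16736520)))), by decide +kernel⟩

def k71_pm_102 : ∃ t, chk3 f_pm_102 t 123 272 5 = true :=
  ⟨(a (a (l 3) (b (a (l 3) (b (l 3) (b (a (l 3) (a (l 3) (c (c (l 89825194631) (l 89825194535)) (b (l 91435807479) (l 87677720199))))) (a (c (b (l 3) (l 246054635031)) (l 257865789783)) (c (c (l 88214585255) (l 88751456055)) (c (l 88214584855) (l 16769048))))))) (a (b (b (l 3) (a (l 3) (c (c (l 237464702727) (l 236390960487)) (c (l 91435787927) (l 91972658423))))) (b (a (l 3) (c (c (c (l 88751452103) (l 89288322967)) (l 88214580759)) (c (l 87677709767) (l 87140838615)))) (c (a (c (a (l 98415118567) (l 89288326887)) (a (l 101636343623) (l 16766560))) (l 16774024)) (a (c (l 90898924343) (l 91435794695))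 (l 16774056))))) (b (b (c (a (c (a (l 97341380423) (l 16771888)) (a (l 100025734679) (l 16766608))) (l 16773864)) (a (c (a (l 102710088599) (l 16766576)) (l 90898927543)) (l 16771344))) (c (c (l 81772140519) (l 16771920)) (c (l 16771312) (l 16765920)))) (c (c (l 16775560) (l 16765384)) (c (l 16775952) (l 16775688))))))) (a (a (b (b (c (b (a (c (l 242296538887) (l 248202118407)) (c (l 88214589943) (l 16770992))) (a (c (c (l 88214578615) (l 88751449159)) (c (l 89288320023) (l 88751449079))) (l 16773688))) (c (a (b (l 249812730631) (c (l 88214577799) (l 87677706855))) (l 78014041991)) (a (b (l 91972654471) (l 87677706471)) (l 75329687191)))) (c (c (l 16773896) (l 16773488)) (c (l 16771064) (l 16770832)))) (c (b (b (l 16770024) (l 16764328)) (l 16763672)) (c (l 16764592) (l 16774608)))) (c (b (b (a (l 16773736) (l 16764344)) (l 16769072)) (l 16769072)) (b (c (l 16770248) (l 16772416)) (b (l 16763392) (l 16772920))))) (c (b (c (l 16766488) (l 16767480)) (b (l 16760512) (l 16749288))) (b (c (l 16763184) (a (l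 16773512) (l 16771976))) (a (l 16768368) (l 16760040)))))), by decide +kernel⟩

def k72_pm_102 : ∃ t, chk3 f_pm_102 t 123 546 5 = true :=
  ⟨(a (a (a (b (l 3) (a (l 3) (b (l 3) (a (l 3) (b (l 3) (b (l 3) (c (l 101636350631) (l 16763968)))))))) (a (b (l 3) (b (a (l 3) (c (c (l 89288323063) (l 16767392)) (c (l 16764696) (l 16754144)))) (b (a (a (l 3) (c (l 16771216) (l 16776400))) (c (l 16776992) (l 16776976))) (c (a (a (a (b (l 101099494647) (a (l 16776984) (l 16774528))) (b (l 16777040) (l 16774256))) (l 16775904)) (l 16775312)) (a (a (a (b (l 16769952) (l 16774560)) (b (l 16777016) (l 16776920))) (l 16771712)) (l 16771560)))))) (b (c (b (c (l 252497084759) (l 253570826071)) (c (c (l 88751448391) (l 88751448359)) (l 88214577063))) (b (c (l 104320686455) (l 107541911399)) (c (l 87140834823) (l 16764640)))) (c (b (a (l 16774352) (l 16776600)) (c (l 16773552) (l 16771120))) (b (c (l 16776792) (l 16776720)) (c (l 16765952) (l 16776304))))))) (a (c (b (a (c (l 88751458823) (l 88214587479)) (l 16770720)) (b (l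 16770448) (c (l 16772368) (l 16770168)))) (b (c (c (l 16768584) (l 16765872)) (l 72645329927)) (b (l 16773032) (c (l 16764904) (l 16775096))))) (c (b (l 16769600) (c (l 16771032) (l 16769104))) (b (c (l 16775080) (l 16753712)) (c (l 16763712) (l 16773704)))))) (c (a (b (l 16767352) (b (l 16751072) (a (l 16761848) (l 16749928)))) (a (b (l 16770328) (l 16748672)) (l 16758008))) (a (c (b (l 16773048) (l 16766856)) (b (l 16751296) (b (l 16750512) (l 16771032)))) (b (l 16759200) (c (l 16769288) (l 16747024)))))), by decide +kernel⟩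

def k73_pm_102 : ∃ t, chk3 f_pm_102 t 123 547 5 = true :=
  ⟨(a (a (a (a (b (b (l 3) (a (l 3) (b (l 3) (c (l 90362064919) (l 16767000))))) (b (c (a (c (l 89825186935) (l 90898928407)) (l 88214592503)) (c (l 86603960343) (l 16755984))) (c (l 16773840) (l 16771376)))) (c (b (b (c (a (l 100025724791) (l 16766632)) (a (l 102710078919) (l 16766608))) (c (l 16768800) (l 16766256))) (l 16773728)) (b (c (b (a (l 105931303799) (l 16766576)) (l 16766336)) (a (l 91435787975) (l 16766352))) (l 16773448)))) (b (b (a (c (a (a (c (l 16773712) (l 16771160)) (b (c (l 16772792) (l 16770248)) (l 16764040))) (b (l 16764456) (c (l 16770432) (l 16767992)))) (a (a (c (l 16765992) (l 16776528)) (b (c (l 16765088) (l 16754664)) (l 16764272))) (c (l 16771704) (l 16763944)))) (c (l 16762968) (l 16763472))) (a (c (a (c (l 16764256) (l 16764432)) (b (a (l 16772408) (l 16768584)) (l 16760712))) (a (l 16769912) (c (a (l 16772584) (l 16766000)) (l 16766912)))) (c (a (c (l 16767104) (l 16764792)) (l 16769448)) (c (l 16764968) (l 16759952)))))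 (c (a (c (l 16766776) (l 16761880)) (b (a (b (a (l 16768264) (l 16767080)) (l 16767112)) (b (l 16766608) (l 16759664))) (a (l 16766728) (b (l 16761128) (l 16763144))))) (a (c (l 16762232) (l 16751936)) (b (a (c (l 16762880) (l 16768352)) (c (l 16766504) (l 16766760))) (c (l 16760720) (l 16755736))))))) (c (a (b (c (l 16749312) (l 16749856)) (b (l 16764968) (c (l 16755768) (l 16751256)))) (b (l 16748288) (l 16741096))) (b (c (l 16760480) (l 16750456)) (a (c (l 16758984) (l 16754112)) (l 16753344))))) (c (a (a (l 16753960) (l 16742288)) (l 16740504)) (c (a (l 16744984) (l 16743544)) (a (l 16745816) (l 16744760))))), by decide +kernel⟩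

def k74_pm_102 : ∃ t, chk3 f_pm_102 t 246 548 2 = true :=
  ⟨(a (c (b (a (a (c (l 16772016) (l 16772488)) (c (l 16767832) (l 16763352))) (a (c (c (l 16758400) (l 16758912)) (c (l 16759432) (l 16759952))) (c (l 16751320) (l 16752592)))) (a (c (l 16769656) (l 16768000)) (a (c (l 16757240) (l 16758616)) (c (l 16760512) (l 16762120))))) (a (c (b (c (l 16764464) (l 16764784)) (l 16768992)) (c (a (l 16764680) (l 16763776)) (l 16753584))) (c (b (a (l 16765984) (l 16743392)) (c (l 16745776) (l 16746544))) (c (b (l 16758200) (l 16747296)) (l 16747728))))) (c (a (b (a (c (b (a (b (l 16751944) (l 16756464)) (l 16754968)) (a (l 16755952) (l 16748640))) (b (a (b (l 16758504) (l 16757864)) (l 16756464)) (a (l 16757488) (l 16748976)))) (c (b (l 16754056) (l 16745120)) (b (l 16755768) (l 16752216)))) (a (c (l 16753256) (l 16755096)) (c (b (a (l 16748352) (l 16746456)) (a (l 16747576) (l 16744248))) (b (a (l 16750288) (l 16748520)) (l 16742872))))) (c (b (l 16750624) (a (l 16738640) (l 16742904))) (b (l 16752848) (a (l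 16735752) (l 16745544))))) (a (c (b (a (a (c (l 16755088) (l 16754520)) (b (l 16757984) (l 16750656))) (b (l 16757512) (l 16754104))) (a (l 16756968) (b (a (l 16752256) (l 16750632)) (l 16739824)))) (b (a (a (c (l 16750024) (l 16760808)) (b (l 16754056) (l 16754048))) (c (l 16757200) (l 16757576))) (a (l 16758504) (c (b (l 16747936) (l 16751952)) (b (l 16753496) (l 16752240)))))) (c (b (l 16755112) (l 16743200)) (c (b (l 16756832) (l 16750344)) (l 16733032)))))), by decide +kernel⟩

def k75_pm_102 : ∃ t, chk3 f_pm_102 t 246 549 2 = true :=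
  ⟨(a (c (a (c (b (l 16760464) (l 16748896)) (a (l 16767112) (l 16760856))) (c (a (l 16759512) (l 16748528)) (b (l 16754352) (l 16743320)))) (a (c (c (l 16751960) (l 16751256)) (c (l 16750616) (l 16750448))) (c (b (l 16756208) (l 16745520)) (c (l 16757512) (l 16747248))))) (c (a (c (c (l 16726808) (l 16728024)) (l 16740344)) (b (a (c (b (a (l 16740256) (l 16738416)) (l 16738064)) (b (a (l 16742744) (l 16741040)) (l 16740776))) (c (l 16736008) (l 16738912))) (b (a (l 16731192) (c (l 16726664) (l 16724528))) (c (l 16723560) (l 16726696))))) (a (c (l 16742840) (c (l 16734120) (l 16755312))) (c (b (a (b (a (l 16745288) (l 16743712)) (l 16743536)) (l 16741872)) (a (l 16743472) (b (l 16738176) (l 16737168)))) (b (a (c (b (l 16746624) (l 16745536)) (l 16746568)) (l 16744152)) (a (l 16745648) (c (l 16734944) (l 16740360)))))))), by decide +kernel⟩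

def k76_pm_102 : ∃ t, chk3 f_pm_102 t 246 275 2 = true :=
  ⟨(b (a (c (a (c (l 16758192) (l 16760320)) (c (l 16750768) (l 16753408))) (a (c (l 16758576) (l 16746720)) (c (l 16756088) (l 16747384)))) (c (c (b (l 16719768) (l 16719656)) (b (l 16722904) (l 16723104))) (c (c (l 16725488) (l 16727184)) (c (l 16728488) (l 16728576))))) (c (a (a (c (l 16767856) (l 16746424)) (c (l 16739864) (l 16743112))) (c (l 16719872) (l 16723760))) (a (a (c (l 16743808) (l 16763272)) (c (l 16746424) (l 16745424))) (c (b (l 16727312) (l 16728192)) (l 16729888))))), by decide +kernel⟩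

def k77_pm_102 : ∃ t, chk3 f_pm_102 t 494 137 4 = true :=
  ⟨(b (c (b (a (l 16734528) (l 16722096)) (b (l 16733920) (l 16719608))) (b (a (l 16726992) (l 16725632)) (b (l 16737544) (l 16720864)))) (b (a (a (b (c (b (l 16724720) (l 16723576)) (b (l 16728352) (l 16727352))) (l 16715016)) (b (c (l 16721560) (l 16725528)) (c (l 16712440) (l 16721904)))) (c (b (l 16720712) (a (l 16715032) (l 16714288))) (b (l 16725152) (a (l 16719544) (l 16719024))))) (a (c (b (l 16720648) (l 16700080)) (b (l 16725088) (l 16704760))) (b (a (a (c (l 16712176) (l 16716824)) (l 16701920)) (l 16711224)) (c (l 16697952) (l 16692584)))))), by decide +kernel⟩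

def k78_pm_102 : ∃ t, chk3 f_pm_102 t 495 137 4 = true :=
  ⟨(b (c (c (c (a (a (b (l 16740136) (l 16727248)) (c (a (a (b (l 16718064) (l 16715672)) (c (b (l 16737664) (l 16703824)) (l 16716968))) (b (c (l 16734952) (l 16727448)) (c (l 16722128) (b (l 16728296) (l 16722096))))) (b (l 16739312) (l 16726536)))) (c (b (b (l 16709048) (l 16702520)) (l 16693160)) (a (b (a (c (l 16727408) (l 16738744)) (c (l 16735088) (l 16727264))) (a (c (l 16714648) (l 16726008)) (c (l 16722480) (l 16725168)))) (b (l 16715224) (l 16718592))))) (a (b (l 16740608) (l 16727864)) (a (b (l 16739216) (l 16726592)) (a (b (b (l 16741456) (l 16735008)) (l 16725872)) (c (b (c (l 16714088) (l 16716424)) (c (l 16722816) (l 16725184))) (l 16710952)))))) (b (a (l 16742144) (l 16719416)) (a (l 16708616) (l 16728024)))) (b (a (l 16745248) (a (l 16723424) (l 16722568))) (a (b (l 16736112) (l 16730024)) (l 16710920)))) (c (c (a (a (b (l 16715488) (l 16704240)) (c (c (c (a (a (l 16687024) (l 16686032)) (l 16704496)) (b (l 16703136) (l 16702416)))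 (l 16708888)) (l 16709896))) (c (c (l 16676016) (a (a (b (l 16713720) (l 16702696)) (c (l 16705216) (l 16686960))) (l 16680616))) (a (l 16709400) (c (a (l 16687464) (b (l 16700544) (l 16680696))) (l 16709272))))) (b (l 16706592) (l 16706432))) (b (b (l 16713344) (l 16718576)) (l 16710784)))), by decide +kernel⟩

def k79_pm_102 : ∃ t, chk3 f_pm_102 t 247 137 5 = true :=
  ⟨(b (c (a (b (a (l 16730000) (l 16729232)) (b (l 16741240) (l 16724808))) (b (a (l 16749448) (b (l 16751808) (l 16724760))) (a (a (l 16717048) (l 16727096)) (l 16726648)))) (a (b (c (l 16732088) (l 16753688)) (c (b (l 16743928) (l 16738056)) (l 16741288))) (b (a (l 16731976) (c (a (l 16731632) (l 16731208)) (l 16732368))) (a (b (l 16733848) (c (l 16738208) (l 16738520))) (b (l 16722960) (l 16738568)))))) (a (b (a (c (b (a (b (l 16732064) (l 16731200)) (l 16729576)) (a (l 16731584) (l 16726216))) (b (a (b (l 16734616) (l 16733752)) (l 16732304)) (a (l 16734120) (l 16728880)))) (c (b (l 16729672) (a (l 16724144) (l 16723856))) (b (l 16732728)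 (a (l 16726992) (l 16726856))))) (a (c (b (l 16708632) (l 16709520)) (b (l 16732160) (l 16732904))) (c (b (a (b (l 16720864) (l 16720392)) (l 16718808)) (l 16718768)) (b (a (b (l 16723600) (l 16723072)) (l 16721664)) (l 16721376))))) (c (b (b (l 16718632) (l 16724144)) (l 16716680)) (b (b (a (l 16732608) (l 16733152)) (l 16727624)) (l 16719816))))), by decide +kernel⟩

def k80_pm_102 : ∃ t, chk3 f_pm_102 t 488 276 2 = true :=
  ⟨(a (b (l 3) (a (b (l 3) (a (b (l 3) (c (c (c (l 90898932167) (l 91972673671)) (a (l 103783833767) (l 92509552007))) (c (l 93583285495) (l 16752912)))) (c (b (a (l 3) (c (l 91435805799) (l 93046418183))) (c (l 16771624) (l 16771552))) (c (b (l 94657022663) (l 16776720)) (l 94657021591))))) (b (b (l 3) (c (a (c (c (l 96267632007) (l 98951986199)) (l 103783824183)) (c (c (l 16767720) (l 16766384)) (c (l 16766360) (l 16766336)))) (c (c (l 93046404471) (l 93046404263)) (l 95193887607)))) (c (a (c (c (l 87677716359) (l 86603974743)) (c (l 85530232807) (l 16768664))) (c (l 16776232) (l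 16776008))) (c (c (l 16768264) (l 16765560)) (l 16765544)))))) (b (b (l 3) (a (a (l 3) (b (l 3) (b (l 3) (c (c (l 89288325751) (l 91435809159)) (c (l 16764472) (l 16774840)))))) (c (a (b (a (l 3) (c (l 96804511831) (l 102173220439))) (c (l 88751459703) (l 86603975927))) (c (b (c (l 16766560) (l 16766544)) (l 16776592)) (c (a (l 89288325927) (l 16776664)) (l 86603971191)))) (c (b (c (l 91972664151) (l 92509534871)) (a (l 16771608) (l 16776272))) (c (l 92509533799) (l 16755664)))))) (c (c (b (a (b (a (c (l 89288320471) (l 90362062167)) (l 16771624)) (l 16771256)) (l 16770624)) (a (l 16775456) (l 16774432))) (b (a (b (a (a (l 102710092855) (l 91435811495)) (l 16771544)) (l 16776328)) (l 16770296)) (c (l 16764080) (l 16753336)))) (c (b (a (a (b (l 92509544999) (l 16776512)) (l 85530238039)) (l 16764728)) (c (l 16753080) (l 16752848))) (b (c (l 82845866615) (l 16754712)) (l 16752792)))))), by decide +kernel⟩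

def k81_pm_102 : ∃ t, chk3 f_pm_102 t 488 277 2 = true :=
  ⟨(c (c (b (a (b (c (l 16770392) (l 16770224)) (l 16768696)) (b (l 16768120) (l 16761128))) (a (b (l 16761664) (l 16749224)) (l 16763424))) (a (b (b (c (l 16770056) (l 16764640)) (l 16768064)) (b (l 16760752) (l 16748032))) (b (b (l 16767328) (l 16760040)) (c (l 16746576) (l 16745816))))) (c (b (c (b (a (l 16764464) (l 16750992)) (l 16760776)) (b (l 69960972871) (l 16749952))) (c (b (l 16747936) (l 16745432)) (l 16756784))) (b (b (l 61371038503) (l 16749896)) (l 16759344)))), by decide +kernel⟩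

def k82_pm_102 : ∃ t, chk3 f_pm_102 t 489 138 2 = true :=
  ⟨(c (a (b (b (a (b (a (b (l 3) (c (c (l 90898934727) (l 89288321735)) (c (l 89825192375) (l 16765136)))) (b (c (c (l 91972671767) (l 89825187927)) (a (l 102173218871) (l 89825195607))) (c (l 16776872) (l 16776776)))) (c (l 16773608) (l 16773344))) (c (b (c (l 86067106615) (l 81235268231)) (l 16764856)) (b (c (l 16771128) (l 16771024)) (l 16774848)))) (c (b (l 16771808) (l 16762400)) (b (l 16771128) (l 16761432)))) (c (b (b (l 16750192) (l 16748296)) (l 16755640)) (b (c (l 16748224) (l 16747520)) (l 16753696)))) (b (c (b (b (c (l 16764816) (l 16764704)) (l 16768768)) (a (l 16766944) (l 16760696))) (b (b (a (l 16775304) (l 16774248)) (l 16767912)) (b (l 16760872) (l 16748408)))) (b (c (l 16757472) (l 16755616)) (c (l 16742600) (l 16740200))))) (b (c (b (a (b (a (b (c (l 92509525255) (l 93046395783)) (c (l 86067095175) (l 16766296))) (c (l 16765680) (l 16776064))) (c (l 16764632) (l 16753952))) (c (l 16769520) (l 16767856))) (c (a (l 16761744) (l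 16748440)) (b (l 16760928) (l 16748208)))) (b (a (b (a (b (l 94657007927) (l 16766280)) (l 16765528)) (l 16753880)) (l 16767696)) (c (l 16749216) (l 16749192)))) (c (b (c (l 16755744) (l 16755088)) (c (l 16740048) (l 16739352))) (b (l 16754960) (l 16739248))))), by decide +kernel⟩

def k83_pm_102 : ∃ t, chk3 f_pm_102 t 245 138 2 = true :=
  ⟨(a (c (b (b (c (b (a (l 16763216) (l 16751096)) (l 16766080)) (a (b (l 16762184) (l 16749928)) (l 16764376))) (b (c (l 16759104) (l 16757256)) (c (l 16746712) (l 16744576)))) (b (c (b (l 16744632) (l 16742392)) (b (l 16742224) (l 16739712))) (c (l 16738736) (l 16746144)))) (c (b (b (a (c (l 16749936) (l 16749344)) (c (l 16747376) (l 16746544))) (c (l 16754664) (l 16753736))) (b (c (l 16739048) (l 16738024)) (c (l 16754280) (l 16753304)))) (b (b (b (l 16748688) (l 16746496)) (l 16742968)) (b (l 16737808) (l 16753152))))) (c (b (c (b (b (l 16748624) (l 16746760)) (l 16754128)) (b (b (l 16746376) (l 16744232)) (l 16751184))) (c (b (l 16738904) (l 16733552)) (b (l 16735424)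 (l 16729552)))) (b (c (b (c (l 16743504) (l 16742304)) (c (l 16738448) (l 16737080))) (b (l 16741768) (l 16757640))) (c (b (a (l 16733720) (l 16730472)) (c (l 16747472) (l 16746208))) (b (l 16752048) (l 16746008)))))), by decide +kernel⟩

def k84_pm_102 : ∃ t, chk3 f_pm_102 t 244 139 2 = true :=
  ⟨(c (b (c (a (b (a (l 16761728) (l 16753696)) (a (l 16741168) (l 16738136))) (b (l 16752104) (l 16733552))) (b (a (c (l 16753728) (l 16752808)) (c (l 16736984) (l 16735616))) (a (c (l 16737896) (l 16736712)) (l 16730344)))) (b (c (a (l 16744624) (l 16727568)) (a (l 16741768) (l 16723864))) (c (a (l 16728104) (l 16731432)) (a (l 16724752) (l 16727224))))) (b (c (c (b (a (l 16751904) (l 16734272)) (a (l 16735624) (l 16749024))) (b (a (l 16741016) (l 16754648)) (l 16741912))) (b (a (l 16740936) (l 16754536)) (c (l 16731344) (l 16731264)))) (b (c (a (l 16739792) (l 16721296)) (c (l 16725032) (l 16724928))) (c (a (l 16743736) (l 16714240)) (a (l 16743488) (l 16734896)))))), by decide +kernel⟩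

def k85_pm_102 : ∃ t, chk3 f_pm_102 t 245 139 2 = true :=
  ⟨(c (b (c (a (b (l 16733344) (l 16727400)) (b (a (l 16750040) (a (l 16726640) (l 16725568))) (a (b (l 16745096) (l 16742208)) (l 16740656)))) (a (b (l 16729752) (l 16744280)) (b (a (l 16745776) (b (l 16743856) (l 16740856))) (a (b (l 16740432) (l 16737352)) (l 16735472))))) (a (b (a (c (l 16743584) (l 16739224)) (c (b (l 16741688) (l 16738720)) (b (l 16736992) (l 16733832)))) (a (c (b (l 16738272) (l 16735216)) (b (l 16733536) (l 16730304))) (b (l 16721984) (l 16728672)))) (b (c (l 16714352) (a (l 16731688) (l 16727848))) (l 16703880)))) (b (a (c (b (c (l 16748024) (l 16747232)) (l 16720128)) (b (l 16747088) (l 16740616))) (b (c (a (l 16742144) (c (b (l 16740336) (l 16737240)) (l 16727200))) (a (l 16741456) (b (l 16739024) (l 16736112)))) (c (a (c (a (l 16736200) (l 16724264)) (l 16724288)) (l 16720976)) (a (b (l 16736112) (l 16733136)) (l 16730848))))) (a (b (a (c (l 16736216) (l 16735816)) (c (b (l 16728360) (l 16720064)) (b (l 16733176) (l 16730152))))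 (a (c (b (l 16730592) (l 16727504)) (b (l 16730240) (l 16727152))) (c (l 16724768) (l 16724384)))) (b (c (b (l 16727944) (l 16724080)) (l 16725640)) (l 16718160))))), by decide +kernel⟩

def k86_pm_102 : ∃ t, chk3 f_pm_102 t 246 69 4 = true :=
  ⟨(b (a (c (b (a (b (l 16745136) (l 16740592)) (b (l 16740232) (l 16741344))) (a (b (l 16756384) (a (l 16730024) (l 16729040))) (b (b (l 16739976) (l 16737360)) (l 16732808)))) (b (a (b (l 16742008) (l 16736928)) (b (l 16744072) (l 16740136))) (a (b (l 16752192) (b (l 16747272) (l 16744352))) (b (b (l 16735448) (l 16732624)) (l 16727720))))) (b (b (a (c (l 16727304) (l 16731560)) (c (b (l 16714160) (l 16714696)) (b (l 16718736) (l 16719504)))) (c (a (b (l 16728552) (l 16729208)) (l 16716080)) (a (b (l 16733272) (l 16734160)) (l 16721264)))) (a (b (c (l 16730808) (l 16736128)) (l 16736600)) (l 16723120)))) (b (a (a (b (c (l 16723408) (l 16718248)) (l 16734632)) (l 16719728)) (l 16725864)) (a (a (l 16702184) (l 16704152)) (l 16696456)))), by decide +kernel⟩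

def k87_pm_102 : ∃ t, chk3 f_pm_102 t 247 69 4 = true :=
  ⟨(b (b (a (b (a (a (c (l 16725440) (l 16730400)) (l 16721624)) (l 16691032)) (l 16700120)) (a (c (a (b (l 16689672) (l 16702336)) (c (b (c (c (a (b (l 16694392) (l 16692240)) (c (l 16689184) (b (l 16694184) (l 16690160)))) (l 16694488)) (l 16695608)) (c (c (c (l 16690648) (l 16692872)) (l 16693952)) (l 16695160))) (b (l 16697872) (l 16697600)))) (b (b (l 16704840) (l 16703640)) (l 16705608))) (c (c (c (a (b (c (l 16685176) (a (l 16692448) (l 16690792))) (c (l 16680600) (a (l 16688872) (c (l 16683728) (l 16686496))))) (b (l 16681992) (b (l 16674928) (l 16651608)))) (a (b (l 16693912) (l 16689456)) (a (b (l 16693576) (b (l 16686552) (l 16684960))) (c (b (l 16691688) (c (l 16681984) (l 16684432))) (l 16689624))))) (b (l 16696200) (b (l 16690664) (l 16689776)))) (b (l 16701064) (b (l 16695760) (l 16695032)))))) (a (c (l 16701952) (l 16708544)) (c (c (c (a (a (l 16705096) (c (a (l 16699464) (l 16694712)) (l 16699376))) (c (l 16678936) (a (a (l 16694384)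 (l 16689840)) (l 16680904)))) (a (l 16703784) (a (l 16694600) (c (a (l 16689312) (l 16684976)) (l 16688944))))) (l 16700416)) (l 16685000)))) (a (b (l 16703464) (l 16703584)) (c (c (a (a (l 16698904) (c (b (c (l 16684792) (l 16708456)) (l 16696744)) (l 16694304))) (c (c (l 16651912) (a (b (l 16680264) (l 16712456)) (l 16675224))) (b (a (l 16704176) (l 16676664)) (l 16691264)))) (l 16684248)) (b (l 16695440) (l 16707632))))), by decide +kernel⟩

def k88_pm_102 : ∃ t, chk3 f_pm_102 t 123 69 5 = true :=
  ⟨(a (b (b (a (c (a (b (l 16738840) (l 16733288)) (b (l 16741904) (l 16736064))) (a (b (l 16758320) (l 16752880)) (b (l 16740224) (l 16734552)))) (c (b (a (l 16735864) (b (l 16723392) (c (l 16723168) (l 16725568)))) (a (b (l 16738000) (c (l 16737920) (l 16740176))) (c (l 16725208) (l 16727592)))) (b (a (l 16737776) (b (l 16746480) (l 16726312))) (a (b (l 16739712) (l 16740592)) (l 16728080))))) (a (a (b (c (l 16748176) (l 16746960)) (c (c (b (l 16743760) (l 16740688)) (b (l 16742160) (l 16739264))) (b (l 16741928)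 (l 16739064)))) (b (c (b (a (l 16749920) (l 16733528)) (c (l 16729008) (l 16727168))) (b (l 16729696) (l 16726896))) (c (c (l 16723848) (l 16722256)) (l 16722048)))) (b (c (c (l 16734264) (l 16736448)) (l 16736688)) (c (l 16736792) (l 16735728))))) (b (a (a (b (c (c (l 16735352) (l 16734232)) (l 16734024)) (l 16727064)) (c (l 16717384) (l 16732264))) (c (c (l 16725960) (l 16724824)) (l 16724712))) (a (a (c (l 16715944) (l 16715376)) (c (l 16696512) (l 16716928))) (c (l 16709272) (l 16708832))))) (b (b (a (c (b (a (b (l 16710648) (l 16733312)) (l 16720360)) (l 16708824)) (b (b (l 16706768) (l 16729400)) (l 16731640))) (c (b (a (b (l 16700288) (l 16709776)) (l 16707608)) (a (l 16711984) (b (l 16692048) (l 16701936)))) (b (a (b (l 16713368) (l 16712096)) (l 16710304)) (a (l 16713952) (l 16704784))))) (c (b (c (l 16699816) (l 16702456)) (c (l 16704592) (l 16706760))) (b (l 16702560) (l 16706624)))) (b (c (a (l 16723664) (l 16701912)) (l 16713424)) (a (l 16724864) (l 16713144))))), by decide +kernel⟩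

def k89_pm_102 : ∃ t, chk3 f_pm_102 t 122 136 3 = true :=
  ⟨(b (l 3) (b (l 3) (b (l 3) (b (l 3) (a (l 3) (a (l 3) (a (l 3) (a (l 3) (c (c (l 95193880071) (l 16750496)) (l 100025715335)))))))))), by decide +kernel⟩

def k90_pm_102 : ∃ t, chk3 f_pm_102 t 123 272 3 = true :=
  ⟨(a (a (l 3) (b (a (l 3) (b (l 3) (c (c (a (l 261623875687) (c (l 91972661495) (l 16758240))) (c (l 96267595223) (l 16742376))) (c (l 16736768) (l 16746776))))) (c (c (a (b (a (l 3) (l 256792044567)) (c (a (l 93583259127) (l 16755776)) (l 81772097655))) (b (c (l 84456475735) (l 16760768)) (l 16754656))) (a (b (l 263771349575) (c (l 79624613287) (l 16754840))) (b (l 78014023799) (l 16754648)))) (c (a (l 99488793959) (l 16755048)) (l 73182113287))))) (c (c (a (b (a (b (a (c (b (l 93046395767) (l 16766496)) (l 94120136935)) (l 83919621991)) (l 16775992)) (l 16764360)) (l 16768416)) (b (l 16751376) (l 16749368))) (a (b (a (c (b (l 80161491799) (l 16775992)) (l 76940265143)) (l 16753864)) (l 16752672)) (c (l 16750352) (l 16750344)))) (c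 (a (b (a (l 74792780503) (l 16753856)) (l 16752656)) (l 16750328)) (a (b (l 16754520) (l 16752640)) (l 16750296))))), by decide +kernel⟩

def k91_pm_102 : ∃ t, chk3 f_pm_102 t 123 273 3 = true :=
  ⟨(a (a (a (b (a (l 3) (b (l 3) (b (l 3) (b (l 3) (b (l 3) (c (c (l 16756208) (l 16745136)) (l 98951971767))))))) (c (c (b (a (l 315310965127) (c (l 82845852919) (l 16755896))) (c (l 16760624) (l 16755384))) (b (c (l 96804453831) (l 16727920)) (l 16755376))) (c (l 74255872183) (l 16734536)))) (b (a (b (l 3) (c (a (b (l 3) (a (b (l 3) (c (b (l 16776032) (l 16774512)) (l 16766656))) (c (l 16771896) (l 16777136)))) (c (b (l 16754048) (l 16776896)) (l 16766480))) (c (b (l 16770824) (l 74255936487)) (l 16754520)))) (c (c (b (c (l 93046395623) (l 16751320)) (b (l 16776712) (l 16776296))) (b (l 16751112) (l 16776496))) (c (l 74792780007) (l 16755696)))) (c (c (b (a (a (a (l 16765776) (b (l 16770056) (l 16774408))) (b (l 16763936) (l 16766888))) (b (l 16753080) (l 16759920))) (a (l 16751920) (b (a (l 16768304) (l 16766712))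 (l 16755680)))) (b (a (a (c (l 16754672) (l 16754664)) (b (l 16753432) (l 16751120))) (l 16751232)) (a (l 16751896) (b (a (l 16768240) (l 16766632)) (l 16766080))))) (c (b (a (a (l 16754656) (l 16752448)) (l 16751200)) (a (l 16751872) (l 16746064))) (b (a (l 16753792) (l 16772136)) (l 16749096)))))) (b (c (c (a (b (l 64055395607) (l 16773648)) (b (l 16774624) (l 16773648))) (b (l 16754440) (l 16763968))) (c (c (l 16753952) (l 16753944)) (l 16753936))) (c (c (b (l 16750456) (a (l 16754048) (l 16764064))) (b (l 16750416) (l 16743248))) (c (l 16746752) (l 16746688))))) (b (c (c (a (b (l 16772152) (l 16760696)) (l 16764744)) (a (b (l 16772128) (l 16750184)) (l 16757824))) (c (a (l 16750648) (l 16747304)) (l 16748936))) (c (c (a (l 16745816) (l 16744776)) (a (l 16745760) (l 16744720))) (c (l 16745200) (l 16745144))))), by decide +kernel⟩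

def k92_pm_102 : ∃ t, chk3 f_pm_102 t 122 274 3 = true :=
  ⟨(a (l 3) (a (a (l 3) (b (l 3) (c (b (c (l 320142787799) (l 125795450999)) (c (a (l 95730730935) (l 16766088)) (l 76403375575))) (c (l 215452943463) (l 217063555863))))) (c (a (b (b (l 3) (c (a (l 213842313351) (c (l 94120134359) (l 16754280))) (l 97878190087))) (c (b (c (l 81235242023) (l 16755336)) (l 16754064)) (b (l 16755328) (l 16754056)))) (b (b (c (a (c (l 94120123863) (l 16749560)) (l 16766064)) (l 76940252471)) (c (l 16754832) (l 16775800))) (c (c (l 16752632) (l 16752624)) (l 16752616)))) (c (b (a (l 99488747623) (l 73719024023)) (l 38822433863)) (b (l 73182065943) (l 16753576)))))), by decide +kernel⟩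

def k93_pm_102 : ∃ t, chk3 f_pm_102 t 123 274 3 = true :=
  ⟨(a (a (c (a (c (b (l 16764064) (l 16750424)) (b (l 16753568) (l 16750400))) (c (b (l 16758176) (l 16747216)) (b (l 16747632) (l 16747168)))) (a (c (l 16752064) (l 16752048)) (c (l 16759048) (l 16747200)))) (a (c (b (c (b (a (b (a (l 16760928) (l 16759376)) (l 16758952)) (l 16757464)) (a (l 16758552) (b (l 16753360) (l 16752096)))) (b (a (b (l 16760224) (l 16758816)) (l 16757320)) (a (l 16758416) (l 16747552)))) (c (l 16755200) (l 16755048))) (b (c (b (a (l 16738664) (l 16757168)) (l 16745136)) (b (l 16737664) (l 16734496))) (c (l 16754888) (l 16754736)))) (c (b (c (l 16743392) (l 16732728)) (a (b (c (b (l 16746720) (l 16745584)) (l 16746168)) (l 16745456)) (c (b (l 16744128) (l 16740152)) (b (l 16743872) (l 16739872))))) (b (c (l 16753528) (l 16753352)) (c (b (a (l 16745928) (l 16743624)) (l 16742528)) (b (l 16744904) (l 16742272))))))) (a (c (c (b (l 16753568) (l 16741088)) (b (l 16753408) (l 16740824))) (c (b (l 16753240) (l 16740560)) (l 16725616)))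 (c (b (c (a (l 16753288) (l 16742744)) (a (l 16753136) (l 16732112))) (c (a (b (l 16744432) (l 16738320)) (l 16741176)) (a (l 16730680) (l 16740928)))) (b (c (a (l 16752984) (l 16731968)) (a (l 16752824) (l 16731816))) (c (a (l 16719944) (l 16740680)) (a (l 16740656) (l 16740432))))))), by decide +kernel⟩

def k94_pm_102 : ∃ t, chk3 f_pm_102 t 61 275 3 = true :=
  ⟨(a (a (a (l 3) (b (a (l 3) (b (l 3) (c (c (l 271287467303) (l 214916060919)) (l 140827830583)))) (c (a (b (l 3) (c (a (l 3) (l 96804479623)) (l 98951926183))) (c (b (a (l 121500531143) (l 16755632)) (l 16754736)) (c (l 75866500231) (l 16734088)))) (c (a (l 16705504) (l 16734080)) (l 100562480119))))) (b (c (c (b (a (a (a (l 3) (l 95730741495)) (l 16754768)) (l 16751224)) (a (a (c (l 80161494599) (l 16755320)) (l 16753144)) (l 16749360))) (a (a (b (l 98415057175) (l 16755320)) (l 16753960)) (l 16750288))) (c (a (b (l 73182118935) (l 16754160)) (l 16750256)) (a (l 16733504) (l 16750224)))) (c (c (a (l 16767416) (l 16746288)) (a (l 16751664) (l 16746232)))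 (c (l 16748880) (l 16748840))))) (a (c (a (a (c (b (l 16767592) (l 16763184)) (l 16744440)) (c (b (l 16747432) (l 16745368)) (l 16747760))) (c (b (l 16728432) (l 16729752)) (b (l 16728240) (l 16729592)))) (a (a (c (l 16744376) (l 16744320)) (c (l 16747744) (l 16747720))) (c (l 16728648) (l 16728464)))) (a (c (b (a (c (b (a (l 16734224) (l 16732104)) (l 16710448)) (b (a (l 16733904) (l 16731760)) (l 16731080))) (c (b (l 16732552) (l 16726616)) (b (l 16732224) (l 16726240)))) (a (c (b (l 16731872) (l 16732600)) (b (l 16731544) (l 16732280))) (b (a (c (l 16723096) (l 16722696)) (l 16721088)) (a (l 16723168) (l 16718008))))) (b (a (c (b (l 16732872) (l 16730736)) (b (l 16732536) (l 16730392))) (c (b (l 16731896) (l 16725864)) (l 16707608))) (a (c (l 16710720) (l 16731360)) (b (c (a (l 16722288) (l 16720456)) (l 16721176)) (l 16719928))))) (c (b (c (l 16708832) (l 16729464)) (l 16719232)) (b (c (l 16729120) (l 16728776)) (l 16718384)))))), by decide +kernel⟩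

def k95_pm_102 : ∃ t, chk3 f_pm_102 t 122 138 3 = true :=
  ⟨(a (b (b (a (b (l 3) (c (a (l 3) (c (a (l 123648012599) (l 16755664)) (l 98951948231))) (c (l 100025616759) (l 16709208)))) (c (c (a (b (c (l 79087749175) (l 16755320)) (l 16753864)) (l 16751944)) (a (b (l 16755320) (l 16753848)) (l 16751920))) (c (a (l 16754480) (l 16751896)) (l 16753096)))) (c (a (a (b (c (c (l 97341315271) (l 16727880)) (l 16737768)) (c (c (l 77477134631) (l 16755320)) (l 16755312))) (c (b (l 16765192) (l 16752768)) (l 16753704))) (c (l 16759648) (l 16749120))) (c (a (b (l 73182116903) (l 16753936)) (l 16749080)) (a (l 16733288) (l 16749032))))) (c (c (b (a (c (l 16751032) (l 16751016)) (l 16744400)) (c (l 16753136) (l 16742608))) (b (a (l 16750992) (l 16744328)) (l 16753032))) (c (b (l 16747576) (l 16742456)) (b (l 16747528) (l 16742368))))) (c (b (c (b (a (l 16747568) (l 16741688)) (a (l 16742888) (l 16757520))) (b (c (l 16744544) (l 16744512)) (c (l 16739616) (l 16739568)))) (c (b (c (l 16734320) (l 16734248)) (l 16738896))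 (b (l 16734152) (l 16728232)))) (b (c (b (l 16744464) (l 16739496)) (b (l 16744400) (l 16739400))) (c (b (l 16734016) (l 16728056)) (c (l 16730984) (l 16730904)))))), by decide +kernel⟩

def k96_pm_102 : ∃ t, chk3 f_pm_102 t 122 139 3 = true :=
  ⟨(a (c (b (c (b (a (l 16740840) (l 16754392)) (c (l 16731184) (l 16731096))) (b (l 16736976) (l 16730976))) (c (b (l 16724768) (a (l 16743248) (l 16734608))) (b (l 16724552) (l 16717520)))) (b (c (b (l 16736856) (l 16730808)) (l 16733744)) (c (b (l 16745312) (l 16738224)) (b (l 16745096) (l 16737960))))) (c (b (a (c (b (l 16746888) (l 16740368)) (l 16722496)) (b (b (c (l 16719496) (l 16740232)) (a (l 16739432) (c (l 16735840) (l 16735576)))) (c (a (b (l 16735840) (l 16732848)) (l 16730544)) (a (l 16727448) (l 16730232))))) (a (b (a (c (l 16735544) (l 16735256)) (c (b (l 16732880) (l 16729840)) (l 16720528))) (a (c (b (l 16729912) (l 16726808)) (l 16707032)) (c (l 16724016) (l 16723656)))) (b (c (l 16725288) (l 16724944)) (l 16717328)))) (b (a (c (l 16722280) (l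 16743024)) (a (b (l 16740632) (c (l 16733712) (l 16733424))) (b (c (l 16736720) (l 16736456)) (c (l 16729928) (l 16729608))))) (a (a (b (l 16734832) (c (l 16727672) (l 16727328))) (b (c (l 16730696) (l 16730384)) (c (l 16723288) (l 16722912)))) (b (c (l 16724584) (l 16724232)) (l 16716504)))))), by decide +kernel⟩

def k97_pm_102 : ∃ t, chk3 f_pm_102 t 123 69 3 = true :=
  ⟨(b (a (c (b (a (a (c (l 16745064) (l 16734448)) (c (l 16746216) (l 16737280))) (b (b (c (l 16731528) (l 16731392)) (a (l 16738176) (c (l 16726136) (l 16725952)))) (c (a (b (l 16739656) (l 16740552)) (l 16727928)) (a (b (l 16739600) (l 16740512)) (l 16727776))))) (a (a (b (c (l 16746776) (l 16746592)) (c (b (l 16741712) (l 16738824)) (b (l 16741488) (l 16738584)))) (b (c (b (l 16729552) (l 16726736)) (b (l 16729408) (l 16726568))) (c (l 16721856) (l 16721656)))) (b (c (l 16736624) (l 16736552)) (l 16735632)))) (b (a (a (c (l 16734328) (l 16755168)) (c (l 16737192) (l 16737104))) (c (b (a (l 16737520) (l 16725456)) (a (l 16740112) (l 16727616)))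 (b (b (l 16731104) (l 16732224)) (a (l 16740056) (l 16748432))))) (a (a (b (l 16725344) (c (l 16739720) (l 16739480))) (b (c (l 16727736) (l 16727584)) (c (l 16742424) (l 16742216)))) (b (c (l 16736488) (l 16736424)) (l 16735504))))) (b (a (c (b (c (b (l 16706416) (l 16729064)) (l 16711952)) (l 16710216)) (b (c (l 16706368) (l 16706016)) (l 16730576))) (c (b (a (b (a (l 16713216) (l 16711368)) (l 16711376)) (l 16709568)) (a (l 16713272) (b (l 16703920) (l 16703008)))) (b (a (c (l 16711824) (l 16711344)) (l 16708576)) (a (l 16712360) (c (l 16703184) (l 16702648)))))) (c (b (l 16702024) (l 16706168)) (c (l 16703528) (l 16703192))))) (a (b (c (a (a (b (c (l 16733744) (l 16733464)) (l 16726216)) (l 16710872)) (l 16724496)) (a (a (c (l 16719032) (l 16729208)) (l 16731272)) (l 16724200))) (c (a (a (l 16714744) (l 16716336)) (l 16708424)) (a (a (l 16713896) (l 16715528)) (l 16707880)))) (c (b (b (l 16710696) (l 16715576)) (l 16702544)) (b (c (l 16712736) (l 16712504)) (l 16702320))))), by decide +kernel⟩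

def k98_pm_102 : ∃ t, chk3 f_pm_102 t 60 560 2 = true :=
  ⟨(a (a (l 3) (a (l 3) (a (b (l 3) (b (l 3) (a (l 3) (c (c (a (c (l 104857572151) (l 16760872)) (c (l 103783842615) (l 16768920))) (c (a (l 16760744) (l 16766280)) (l 103783829223))) (c (l 103246957767) (l 16773632)))))) (c (c (b (a (a (l 3) (c (l 313163497495) (l 312626626215))) (b (a (l 105394441335) (c (l 102710099175) (l 16768432))) (c (a (l 16771584) (l 16776160)) (l 16771168)))) (a (b (a (b (l 105931321687) (l 104320717367)) (l 74255949927)) (l 16770640)) (l 16769480))) (b (c (a (l 313700361767) (b (l 103246956631) (l 16765880))) (a (l 104857543079) (a (l 102173214311) (l 16765920)))) (a (b (c (l 73719066103) (l 16766200)) (l 16765256)) (l 16763976)))) (c (b (a (l 117205573319) (c (l 101099472055) (l 16755528))) (c (l 74792806455) (l 16764664))) (b (a (l 16743632) (l 16755528)) (l 16764648))))))) (c (a (c (a (a (b (c (l 16770688) (l 16769224)) (c (l 16761696) (l 16750936))) (c (l 16764728) (l 16764328))) (c (b (l 16755600) (l 16742424)) (b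 (l 16744480) (l 16741664)))) (a (a (b (c (l 16763832) (l 16753200)) (l 16766248)) (c (l 16758672) (l 16747784))) (c (a (l 16744336) (l 16761424)) (l 16754800)))) (c (a (c (l 16747264) (l 16735688)) (l 16739432)) (a (c (l 16734584) (l 16733504)) (c (l 16747672) (l 16746184))))) (a (c (a (b (c (l 16751080) (l 16751064)) (l 16748176)) (l 16751840)) (a (c (l 16749600) (l 16749576)) (l 16741248))) (c (a (l 16732968) (l 16745456)) (c (l 16728552) (l 16728456)))))), by decide +kernel⟩

def k99_pm_102 : ∃ t, chk3 f_pm_102 t 60 561 2 = true :=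
  ⟨(a (a (l 3) (a (b (l 3) (a (l 3) (a (a (l 3) (b (l 3) (c (c (a (l 106468191351) (b (l 3) (l 16771784))) (l 104857578167)) (c (l 16773952) (l 16773824))))) (c (c (b (c (a (l 105931315783) (l 72645331159)) (a (l 16764248) (l 16768992))) (c (l 72108464727) (l 16770952))) (a (b (l 105394444327) (l 16771360)) (c (l 73182201815) (l 16765720)))) (c (c (l 72645317703) (l 16755392)) (l 16755384)))))) (c (c (a (b (a (a (b (l 3) (c (b (l 16763264) (l 16776976)) (l 105394452023))) (b (c (l 104320705831) (l 105931318231)) (l 72645338711))) (b (c (a (l 16771512) (l 16755056)) (l 16771072)) (l 16769936))) (c (l 16768984) (l 16763592))) (b (c (l 16762696) (l 16762480)) (c (l 16760096) (l 16749264)))) (a (b (a (b (c (l 105394434487) (l 16759840)) (c (l 73182197031) (l 16766128))) (c (l 16770384) (l 16765064))) (c (l 16763432) (l 16752808))) (c (l 16766096) (l 16760600)))) (c (a (b (a (b (l 16759632) (l 16766120)) (l 16765040)) (l 16752768)) (l 16760512)) (a (b (c (l 71571564551) (l 16754968)) (l 16752744)) (l 16749976))))))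 (c (a (a (c (c (b (l 16762560) (l 16754568)) (b (l 16756816) (l 16753944))) (c (b (l 16745832) (l 16742832)) (b (l 16745352) (l 16742264)))) (c (c (l 16751256) (l 16747688)) (c (l 16746736) (l 16745864)))) (c (a (c (l 16730736) (l 16750376)) (l 16732864)) (a (c (l 16749032) (l 16726824)) (c (l 16740744) (l 16739152))))) (a (c (a (c (l 16743664) (l 16743624)) (l 16745552)) (a (l 16743552) (l 16734912))) (c (c (l 16722032) (l 16721912)) (c (l 16721792) (l 16721672)))))), by decide +kernel⟩

def k100_pm_102 : ∃ t, chk3 f_pm_102 t 60 562 2 = true :=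
  ⟨(a (a (a (l 3) (a (l 3) (a (l 3) (c (b (l 3) (c (c (l 325511521287) (l 327122133543)) (l 328732745543))) (c (l 333027695351) (l 279340581543)))))) (a (a (a (b (l 3) (c (c (a (b (l 3) (b (a (l 16768792) (l 16771408)) (l 16774168))) (b (c (b (l 16762816) (l 16771608)) (l 105394451399)) (l 16770976))) (b (c (l 104857567959) (l 16761576)) (c (l 16768576) (l 16776416)))) (c (c (l 103246954359) (l 16754512)) (l 16754464)))) (c (c (b (b (l 325511526679) (c (a (l 106468188823) (l 71571591479)) (a (l 105931317735) (l 16771528)))) (c (a (l 72108466215) (l 16764536)) (l 16772752))) (b (b (l 276656251943) (a (l 105394446391) (l 72645332871))) (c (l 16764800) (l 16754248)))) (c (b (b (l 16746400) (l 16764808)) (l 16754232)) (b (l 16750056) (l 16775192))))) (a (c (c (b (b (a (b (l 106468196119) (l 72108466023)) (l 16773760)) (l 16770312)) (l 16770888)) (b (b (c (l 72645327911) (l 16766040)) (l 16764912)) (l 16762696))) (c (b (l 72108456279) (l 16773080)) (l 16766568))) (c (c (c (b (l 16763904) (l 16771696)) (l 16767616))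 (c (l 16762168) (l 16751520))) (c (l 16751472) (l 16751440))))) (c (a (c (c (b (l 16761104) (l 16768832)) (b (l 16760832) (l 16768432))) (c (l 16759064) (l 16758784))) (c (c (l 16761200) (l 16755432)) (c (l 16754896) (l 16743992)))) (c (c (l 16746064) (l 16746024)) (l 16745968))))) (c (a (c (a (c (b (l 16751704) (l 16738224)) (a (l 16740944) (l 16757896))) (c (l 16742512) (l 16730848))) (a (c (l 16751224) (l 16747952)) (c (l 16729648) (l 16728696)))) (c (a (b (l 16746120) (l 16742696)) (l 16715368)) (c (a (l 16742056) (l 16733392)) (a (l 16740792) (l 16731808))))) (a (c (a (l 16750400) (l 16728432)) (c (l 16732712) (l 16732624))) (c (c (l 16714992) (l 16714840)) (l 16719864))))), by decide +kernel⟩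

def k101_pm_102 : ∃ t, chk3 f_pm_102 t 120 563 2 = true :=
  ⟨(a (a (l 3) (b (a (l 3) (a (b (l 3) (a (l 3) (c (c (c (a (l 106468195991) (l 16771696)) (l 104857582759)) (l 103783840663)) (c (l 16775776) (l 16775728))))) (c (c (b (c (a (b (l 3) (l 16770536)) (l 16771440)) (b (l 105394449015) (l 16770160))) (c (l 16770688) (l 16765384))) (b (a (l 104857577703) (l 16771384)) (l 16770552))) (c (a (l 103246964375) (l 16754944)) (l 16755168))))) (a (a (l 3) (c (b (a (l 3) (c (c (l 106468188871) (l 16764944)) (l 105394446439))) (c (b (a (l 107005064743) (l 71034724615)) (c (l 71034721175) (l 16771344))) (c (l 71571583671) (l 16766160)))) (c (b (l 16748640) (l 16766160)) (l 16752152)))) (c (c (a (b (a (c (l 71034720247) (l 16771536)) (l 16765536)) (l 16769864)) (c (l 16763400) (l 16752760))) (c (a (l 72108460983) (l 16752608)) (l 16769256))) (c (l 70497846999) (l 16753488)))))) (c (a (c (c (a (b (l 16768496) (l 16760432)) (b (l 16759376) (l 16766952))) (b (a (l 16763088) (l 16748544)) (l 16762008))) (c (a (l 16766656)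 (l 16757128)) (b (l 16750136) (l 16746984)))) (c (c (b (l 16753504) (l 16750472)) (b (l 16752888) (l 16739248))) (c (c (l 16750816) (l 16739984)) (l 16750208)))) (c (a (c (l 16748544) (l 16748512)) (c (l 16739648) (l 16739584))) (a (l 16748472) (l 16739496))))), by decide +kernel⟩

def k102_pm_102 : ∃ t, chk3 f_pm_102 t 121 563 2 = true :=
  ⟨(c (a (c (a (c (c (l 16744280) (l 16733272)) (l 16742976)) (a (l 16737320) (l 16743656))) (c (a (l 16741920) (l 16743584)) (a (l 16730760) (l 16742672)))) (c (a (l 16726880) (b (l 16730808) (a (l 16729152) (l 16724496)))) (a (c (l 16734656) (l 16733496)) (b (l 16726880) (a (l 16725304) (a (l 16721824) (l 16719272))))))) (a (c (a (l 16730600) (l 16742448)) (c (l 16725848) (l 16725736))) (c (a (l 16733216) (b (l 16725784) (a (l 16724328) (l 16719208)))) (a (l 16732896) (b (l 16725408) (l 16710496)))))), by decide +kernel⟩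

def k103_pm_102 : ∃ t, chk3 f_pm_102 t 960 141 2 = true :=
  ⟨(b (b (l 3) (b (c (a (a (l 3) (c (c (l 329269624023) (l 118816202583)) (l 123111169383))) (a (b (l 3) (c (c (l 104857586167) (l 16766344)) (l 16768952))) (b (c (c (l 105931323527) (l 16767192)) (l 104857581143)) (c (l 16770872) (l 16776040))))) (c (a (l 129016736935) (c (l 16759832) (l 16754560))) (l 104320673207))) (c (b (c (a (c (a (l 105931321607) (l 16771368)) (b (l 104857579687) (l 16766152))) (l 16764656)) (a (c (l 103783837559) (l 16755424)) (l 16754040))) (c (c (l 16769464) (l 16764120)) (l 16769264))) (c (a (l 68350356663) (l 16753200)) (l 16754032))))) (c (b (b (c (a (b (l 16762800) (c (a (l 16760640) (l 16769632)) (l 16759776))) (l 16764272)) (c (b (l 16751008) (l 16758360)) (l 16749456))) (c (a (c (b (l 16762848) (l 16766264)) (l 16761720)) (c (b (l 16764824) (l 16756656)) (l 16757824))) (a (b (l 16757120) (l 16765680)) (c (l 16752280) (l 16762688))))) (c (a (c (l 16751824) (l 16740880)) (b (c (a (l 16759824) (l 16752120)) (l 16747672))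 (l 16754960))) (b (c (l 16750056) (l 16739488)) (l 16736056)))) (b (c (b (l 16759904) (c (l 16754352) (l 16743816))) (b (l 16749360) (l 16743744))) (c (c (l 16737712) (l 16737632)) (l 16737520))))), by decide +kernel⟩

def k104_pm_102 : ∃ t, chk3 f_pm_102 t 961 141 2 = true :=
  ⟨(b (b (b (a (l 3) (a (l 3) (b (l 3) (c (c (c (l 105931320599) (l 16766040)) (l 104857578119)) (c (l 16773672) (l 16773544)))))) (c (c (a (a (c (l 322290303799) (l 117205591191)) (b (l 116131861495) (c (l 70497849767) (l 16766264)))) (b (a (c (a (l 16769568) (l 16771680)) (l 16768056)) (l 71034726887)) (l 16770192))) (a (b (l 121500558439) (c (l 104320705255) (l 16764760))) (b (c (l 16768664) (l 16776520)) (l 16754344)))) (c (a (b (l 16746616) (l 16754224)) (l 16767960)) (c (l 16755040) (l 16755040))))) (c (c (b (a (c (a (l 16773176) (l 16764328)) (l 16769968)) (l 16770560)) (c (l 16760792) (l 16760552))) (b (c (l 16768784) (l 16753016)) (l 16765544))) (c (c (l 16751384) (l 16751368)) (l 16751344)))) (c (b (c (c (c (l 16752848) (l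 16752632)) (l 16752304)) (c (l 16741464) (l 16741368))) (c (a (b (c (b (l 16756224) (l 16753272)) (l 16743752)) (b (c (l 16750864) (l 16750184)) (l 16748624))) (b (l 16752104) (b (l 16747168) (c (l 16744576) (l 16743744))))) (b (c (l 16742096) (l 16752464)) (a (l 16743536) (l 16739520))))) (b (c (l 16741280) (l 16741160)) (c (b (l 16752312) (a (l 16748536) (l 16744488))) (b (l 16752112) (l 16746472)))))), by decide +kernel⟩

def k105_pm_102 : ∃ t, chk3 f_pm_102 t 481 141 2 = true :=
  ⟨(b (c (c (b (b (a (a (b (c (a (l 106468186727) (a (l 16770480) (l 16771584))) (a (l 16761320) (l 16768928))) (c (c (l 16770976) (l 16770960)) (l 16770920))) (c (l 16769776) (l 16764440))) (c (l 16761528) (l 16761304))) (a (c (l 16762656) (l 16762480)) (c (l 16758568) (l 16768712)))) (b (c (a (l 16759672) (l 16765984)) (l 16762440)) (c (a (l 16756568) (l 16762808)) (l 16753944)))) (b (b (a (a (b (c (l 104320702391) (l 16763640)) (a (l 16771368) (l 16754704))) (l 16769560)) (l 16766264)) (a (l 16767520) (l 16763056))) (c (b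 (l 16756840) (l 16753488)) (l 16755048)))) (b (c (b (a (a (c (l 16760640) (l 16755392)) (l 16753792)) (l 16771416)) (l 16749464)) (b (a (l 16762312) (l 16771368)) (l 16749408))) (c (c (l 16744520) (l 16744472)) (l 16744408)))) (c (c (b (c (b (l 16749520) (l 16743024)) (b (l 16748896) (l 16731784))) (c (b (l 16736496) (l 16729928)) (c (l 16732512) (l 16721544)))) (b (c (c (l 16734608) (l 16734464)) (l 16734400)) (c (l 16731640) (l 16741968)))) (c (b (l 16744760) (l 16720776)) (c (l 16727360) (l 16727240))))), by decide +kernel⟩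

def k106_pm_102 : ∃ t, chk3 f_pm_102 t 241 141 2 = true :=
  ⟨(b (c (a (b (c (c (b (c (l 16755600) (l 16755352)) (l 16752392)) (b (l 16754976) (l 16751776))) (c (b (l 16754480) (l 16740688)) (l 16742104))) (c (c (b (l 16749200) (l 16745904)) (b (l 16737976) (l 16734568))) (c (c (l 16735688) (l 16735416)) (l 16735328)))) (c (b (c (c (l 16745944) (l 16745488)) (c (l 16745032) (l 16734088))) (c (c (l 16739288) (l 16738712)) (c (l 16727656) (l 16727088)))) (b (c (c (l 16733624) (l 16733200)) (l 16753960)) (c (b (l 16749080) (l 16745456)) (l 16746944))))) (b (c (a (c (l 16742048) (l 16742000)) (l 16743352)) (c (l 16737320) (l 16737248))) (c (a (l 16745696) (l 16736296)) (c (l 16730344) (l 16730248))))) (c (c (b (a (c (a (l 16739776) (l 16724920)) (c (l 16726328) (l 16725808))) (c (l 16728792) (l 16716920))) (a (c (c (l 16724704) (l 16713576)) (l 16723096)) (c (l 16715440) (l 16703328)))) (b (c (a (l 16735720) (l 16715808)) (a (l 16725016) (l 16736496))) (c (a (l 16711760) (l 16723224)) (a (l 16732528) (l 16722976)))))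 (c (b (a (l 16724840) (l 16715296)) (c (l 16706560) (l 16706368))) (b (c (l 16719832) (l 16719696)) (l 16708688))))), by decide +kernel⟩

def k107_pm_102 : ∃ t, chk3 f_pm_102 t 121 282 2 = true :=
  ⟨(c (a (c (b (a (c (l 16737384) (l 16725624)) (c (l 16739440) (l 16737800))) (a (c (l 16730336) (l 16718352)) (c (l 16732056) (l 16730192)))) (b (c (a (l 16724360) (l 16736176)) (a (l 16744744) (l 16735416))) (c (a (l 16727456) (l 16728480)) (a (l 16737488) (l 16727912))))) (a (b (c (l 16719424) (c (l 16726912) (l 16725976))) (c (b (l 16724064) (a (l 16722360) (a (l 16718856) (l 16716592)))) (b (l 16720560) (a (l 16718992) (a (l 16715280) (l 16707632)))))) (b (c (a (b (l 16725288) (a (l 16722448) (l 16720080))) (b (a (l 16721824) (l 16720024)) (l 16717096))) (a (b (l 16721368) (a (l 16718576) (l 16716040))) (b (c (l 16717360) (l 16716136)) (l 16712848)))) (c (a (b (a (l 16718336) (l 16716288)) (l 16713232)) (l 16710616)) (a (b (a (l 16714448) (l 16712272)) (l 16709304)) (l 16706408)))))) (a (c (b (c (l 16718952)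 (l 16718816)) (c (l 16711544) (l 16711376))) (b (a (l 16744328) (l 16734880)) (a (l 16736968) (l 16727272)))) (a (b (c (l 16725696) (l 16725320)) (b (c (l 16719872) (l 16719448)) (a (l 16720784) (a (l 16714392) (c (l 16712192) (l 16711712)))))) (b (b (a (l 16720264) (c (l 16715800) (l 16715352))) (a (c (l 16716168) (l 16715720)) (c (l 16711952) (l 16711472)))) (a (c (b (l 16712792) (l 16708584)) (b (l 16712312) (l 16708080))) (l 16705312)))))), by decide +kernel⟩

def k108_pm_102 : ∃ t, chk3 f_pm_102 t 121 283 2 = true :=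
  ⟨(c (a (b (c (a (c (l 16709408) (l 16728640)) (c (l 16721368) (l 16719280))) (c (a (l 16727240) (l 16717592)) (l 16701040))) (c (a (c (l 16716880) (l 16714904)) (a (l 16708920) (b (a (l 16708856) (l 16706256)) (a (b (l 16703672) (l 16700040)) (b (l 16701392) (l 16697944)))))) (a (c (l 16713608) (l 16713312)) (a (l 16706168) (b (l 16704336) (a (l 16698792) (l 16696832))))))) (a (c (b (a (b (l 16716664) (a (l 16710872) (l 16708856))) (b (a (l 16713392) (l 16711008)) (l 16705224))) (a (b (a (b (l 16705904) (l 16702592)) (l 16701808)) (l 16696024)) (l 16694760))) (b (a (b (l 16713304) (a (l 16707608) (l 16705488))) (b (a (l 16709840) (l 16707328)) (l 16701664))) (b (a (a (l 16701152) (l 16698504)) (l 16694784)) (l 16690392)))) (c (l 16673648) (c (l 16670096) (l 16690512))))) (a (b (c (c (l 16700832) (l 16700616)) (l 16700304)) (a (c (l 16712936) (l 16712440)) (c (a (l 16705584) (b (l 16703744) (a (l 16698168) (l 16696192)))) (a (l 16705032) (b (l 16703176) (l 16696520)))))) (a (a (b (c (b (l 16712704) (a (l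 16707008) (l 16704872))) (b (l 16712216) (l 16705248))) (b (c (l 16699504) (l 16698912)) (l 16691896))) (b (b (c (l 16708248) (l 16707736)) (l 16700728)) (l 16690328))) (c (l 16690024) (l 16689360))))), by decide +kernel⟩

def k109_pm_102 : ∃ t, chk3 f_pm_102 t 122 140 2 = true :=
  ⟨(a (c (b (a (b (c (l 16742552) (l 16717776)) (c (b (l 16737360) (l 16722952)) (b (l 16733248) (a (l 16731656) (l 16727008))))) (b (a (c (l 16736672) (l 16721752)) (c (b (l 16734848) (l 16731688)) (b (l 16724840) (a (l 16727600) (l 16725400))))) (a (c (b (l 16731408) (l 16728128)) (b (a (l 16727688) (l 16725888)) (a (l 16724184) (l 16721832)))) (l 16702192)))) (a (b (c (a (b (l 16732096) (l 16728008)) (b (l 16717472) (l 16724520))) (c (a (l 16726336) (b (l 16724344) (l 16720768))) (a (l 16714032) (b (l 16722288) (l 16718816))))) (a (c (b (l 16719256) (l 16720856)) (b (c (l 16720848) (l 16719160)) (c (l 16717064) (l 16715544)))) (c (l 16718224) (l 16713392)))) (c (l 16694896) (c (l 16711552) (l 16709536))))) (b (a (b (c (l 16736872)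 (l 16736592)) (c (b (l 16731520) (l 16727488)) (b (l 16731192) (l 16727136)))) (b (a (c (l 16730064) (l 16729736)) (c (b (l 16727632) (l 16724488)) (b (l 16727288) (l 16724120)))) (a (c (b (l 16724696) (l 16721448)) (b (l 16724320) (l 16721048))) (l 16718248)))) (a (b (c (a (l 16713536) (b (l 16721744) (l 16718352))) (a (l 16723640) (b (l 16721352) (l 16717928)))) (a (c (b (l 16718784) (l 16715192)) (b (l 16718360) (l 16714744))) (l 16711824))) (c (l 16708944) (l 16708456))))) (c (b (c (a (l 16702752) (l 16715888)) (b (l 16696880) (a (l 16713968) (l 16705112)))) (c (c (l 16683712) (l 16680248)) (c (l 16676760) (b (l 16699512) (l 16690840))))) (b (c (l 16690048) (l 16689584)) (c (l 16673600) (l 16693984))))), by decide +kernel⟩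

def k110_pm_102 : ∃ t, chk3 f_pm_102 t 122 141 2 = true :=
  ⟨(b (c (c (a (b (l 16686680) (l 16677968)) (a (l 16689464) (l 16680048))) (a (c (a (l 16682864) (l 16694080)) (l 16676728)) (c (b (l 16683808) (l 16674360)) (l 16677656)))) (a (c (l 16676296) (l 16675704)) (c (l 16677112) (l 16676376)))) (c (c (a (a (l 16664064) (l 16675336)) (l 16639568)) (a (a (l 16659776) (l 16649600)) (c (l 16634416) (l 16654608)))) (a (c (l 16653736) (l 16673936)) (c (l 16653920) (l 16653000))))), by decide +kernel⟩

def k111_pm_102 : ∃ t, chk3 f_pm_102 t 123 70 2 = true :=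
  ⟨(c (b (b (a (a (a (c (l 16709960) (l 16702928)) (c (l 16711672) (l 16683296))) (c (l 16703536) (l 16695664))) (c (c (a (l 16722832) (c (a (l 16712112) (l 16673936)) (l 16688784))) (l 16703216)) (l 16699432))) (a (a (c (a (l 16692104) (l 16693400)) (a (l 16684832) (l 16664824))) (c (l 16705600) (l 16676616))) (c (a (l 16700912) (c (c (a (l 16717744) (l 16688200)) (l 16697896)) (l 16714680))) (c (l 16701704) (l 16698360))))) (a (b (c (a (a (l 16672928) (l 16673840)) (l 16685456)) (a (a (l 16665944) (l 16666576)) (l 16656904))) (c (a (l 16627440) (l 16659960)) (a (a (l 16641960) (l 16642408)) (l 16653416)))) (b (c (c (a (l 16703472) (c (a (l 16696480) (l 16690776)) (l 16697224))) (l 16685096)) (c (l 16680256) (l 16699312))) (c (a (l 16674928) (c (c (a (l 16670320) (l 16664344)) (l 16670752)) (l 16687016))) (l 16654432))))) (b (a (a (b (a (l 16699416) (l 16700624)) (a (l 16682144) (l 16683048))) (b (l 16691952) (l 16694880))) (b (l 16695592) (l 16697576))) (b (a (a (a (l 16663912) (l 16664528)) (l 16675936))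 (l 16677760)) (a (a (a (l 16640224) (l 16640680)) (l 16651840)) (l 16653168))))), by decide +kernel⟩

def k112_pm_102 : ∃ t, chk3 f_pm_102 t 120 284 2 = true :=
  ⟨(a (c (a (a (c (b (c (l 16742640) (l 16731440)) (c (l 16725560) (l 16724696))) (b (l 16741520) (l 16724312))) (c (b (a (c (l 16744912) (l 16744056)) (b (c (l 16741256) (l 16740344)) (l 16737272))) (c (l 16735520) (l 16734480))) (b (c (l 16730408) (l 16719776)) (l 16733992)))) (c (b (a (a (b (c (l 16737384) (l 16736376)) (c (l 16732456) (l 16731352))) (b (l 16734400) (c (l 16728552) (l 16727368)))) (c (l 16728296) (l 16727040))) (a (a (b (l 16728336) (l 16724944)) (b (c (l 16723584) (l 16722320)) (l 16719360))) (b (a (c (l 16719656) (l 16718312)) (l 16716464)) (c (a (l 16714640) (l 16710696)) (a (l 16713248) (l 16709224)))))) (b (a (b (a (l 16735744) (l 16733176)) (a (l 16730744) (l 16726704))) (l 16726296)) (a (b (l 16724472) (l 16720968)) (b (l 16716384) (a (l 16712632) (l 16708560))))))) (a (c (b (c (l 16725264) (l 16725136)) (l 16718352)) (b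 (l 16724944) (l 16718040))) (c (b (a (b (l 16734144) (l 16718048)) (l 16725880)) (a (l 16711816) (b (l 16715880) (l 16710248)))) (b (a (b (l 16733784) (l 16728128)) (l 16725456)) (a (l 16721848) (l 16702296)))))) (c (c (b (c (a (b (l 16724888) (l 16718192)) (l 16701976)) (a (b (l 16723424) (l 16716640)) (l 16700144))) (c (a (b (l 16711480) (l 16704736)) (b (l 16702296) (l 16695488))) (a (c (l 16706784) (l 16706144)) (c (l 16697320) (l 16696560))))) (b (a (c (l 16719288) (l 16719056)) (l 16699096)) (c (a (l 16705864) (l 16696240)) (a (l 16705568) (l 16695912))))) (c (b (c (l 16693000) (l 16713720)) (c (l 16679432) (l 16700088))) (b (l 16692360) (l 16678648))))), by decide +kernel⟩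

def k113_pm_102 : ∃ t, chk3 f_pm_102 t 121 284 2 = true :=
  ⟨(a (b (c (a (c (c (l 16703280) (l 16701112)) (l 16699880)) (c (a (b (a (l 16699744) (b (l 16699072) (l 16695528))) (a (c (l 16693848) (l 16691408)) (b (l 16692368) (l 16688720)))) (b (a (b (l 16696880) (l 16693272)) (l 16692632)) (l 16686872))) (a (b (a (l 16697168) (l 16694456)) (a (l 16690160) (l 16688176))) (b (a (l 16692504) (l 16689776)) (l 16684192))))) (a (c (l 16699264) (l 16698648)) (b (c (a (l 16694896) (l 16690728)) (a (l 16694240) (l 16690048))) (a (c (a (l 16689464) (l 16687464)) (l 16687832)) (l 16683088))))) (c (a (c (a (c (l 16691920) (l 16689760)) (b (a (l 16690704) (b (l 16689848) (a (l 16687072) (l 16686120)))) (a (c (b (l 16686496) (l 16683344)) (b (l 16684168) (l 16681032))) (c (l 16682760) (l 16680384))))) (a (l 16688776) (b (a (l 16688496) (l 16685888)) (a (b (l 16662240) (l 16659152)) (l 16679408))))) (a (b (c (c (l 16686248) (l 16683752)) (l 16682624)) (c (l 16677808) (l 16675528))) (c (l 16676472) (l 16673968)))) (a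 (a (c (l 16688064) (l 16687336)) (c (b (a (l 16687776) (l 16685152)) (a (l 16680864) (l 16678624))) (b (l 16685424) (l 16679160)))) (b (c (l 16679408) (l 16678624)) (l 16671784))))) (c (c (c (b (l 16658824) (l 16644768)) (a (b (l 16681720) (l 16667720)) (l 16642592))) (a (l 16673296) (l 16663224))) (c (a (l 16672480) (l 16662328)) (l 16645544)))), by decide +kernel⟩

def k114_pm_102 : ∃ t, chk3 f_pm_102 t 120 570 2 = true :=
  ⟨(a (b (c (c (a (c (l 16715008) (l 16713984)) (c (a (l 16719368) (l 16708360)) (a (l 16718088) (l 16706920)))) (a (l 16713600) (a (l 16717584) (l 16706320)))) (c (c (l 16696712) (l 16701728)) (l 16701392))) (c (c (a (c (l 16711608) (l 16710576)) (c (l 16710344) (l 16709008))) (c (l 16698976) (l 16698744))) (c (l 16693144) (l 16697904)))) (c (c (a (a (c (b (l 16700432) (a (l 16696568) (l 16692568))) (b (l 16698840) (a (l 16695032) (l 16690968)))) (c (l 16692256) (l 16690560))) (c (b (l 16688648) (a (l 16684160) (l 16679192))) (b (l 16686704) (a (l 16682328) (l 16677232))))) (a (a (b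 (l 16698176) (a (l 16694424) (l 16690328))) (l 16689848)) (b (l 16685936) (a (l 16681624) (l 16676480))))) (c (a (a (b (l 16697520) (l 16691880)) (l 16689128)) (b (l 16685184) (l 16678072))) (a (a (l 16694264) (l 16688400)) (l 16680648))))), by decide +kernel⟩

def k115_pm_102 : ∃ t, chk3 f_pm_102 t 120 571 2 = true :=
  ⟨(a (c (c (a (c (l 16711696) (l 16705488)) (c (c (l 16684600) (l 16704656)) (l 16682920))) (c (b (l 16695592) (l 16692200)) (l 16683160))) (c (c (l 16693384) (l 16693128)) (l 16692736))) (c (a (c (a (c (b (l 16690184) (l 16686512)) (b (l 16688688) (l 16685136))) (c (b (l 16682160) (a (l 16678240) (l 16674200))) (b (l 16680544) (a (l 16676768) (l 16672672))))) (a (b (l 16688088) (l 16684544)) (b (l 16679888) (a (l 16676128) (l 16672008))))) (c (a (b (c (l 16677296) (l 16675560)) (a (b (l 16672528) (l 16669120)) (b (l 16670120) (c (l 16662104) (l 16655264))))) (a (b (c (b (l 16675456) (l 16661336)) (l 16671648)) (c (b (l 16663416) (l 16665144)) (b (l 16656448) (l 16663512)))) (b (c (b (l 16662608)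 (l 16648816)) (b (l 16660688) (l 16646960))) (l 16663592)))) (a (b (l 16674872) (b (l 16669808) (a (l 16667656) (l 16654568)))) (b (a (l 16670936) (c (l 16669152) (l 16668712))) (a (b (l 16655752) (l 16662800)) (l 16661976)))))) (a (c (a (l 16685592) (b (l 16679080) (l 16673416))) (a (l 16684832) (l 16675656))) (c (a (b (l 16674024) (b (l 16668912) (l 16665184))) (b (a (l 16670056) (l 16668040)) (a (l 16663752) (l 16661024)))) (a (b (l 16673168) (l 16665904)) (b (l 16668080) (l 16661720))))))), by decide +kernel⟩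

def k116_pm_102 : ∃ t, chk3 f_pm_102 t 121 285 2 = true :=
  ⟨(c (a (a (b (c (a (a (b (c (l 16682656) (l 16680536)) (c (b (l 16667056) (l 16653376)) (b (l 16664960) (l 16651336)))) (b (c (b (l 16682000) (l 16678864)) (b (l 16679776) (l 16666184))) (l 16672464))) (c (l 16673424) (l 16671208))) (a (b (a (l 16679712) (c (l 16677600) (l 16677200))) (a (b (l 16653712) (l 16650592)) (l 16670600))) (l 16670336))) (c (c (l 16661872) (l 16659952)) (l 16659176))) (c (c (b (l 16666200) (l 16652176)) (b (l 16663768) (l 16650040))) (l 16635040))) (c (c (a (l 16628480) (l 16639584)) (c (a (l 16626256) (l 16637144)) (l 16620536))) (a (l 16645936) (l 16635752)))) (a (b (a (c (a (b (a (l 16678920) (l 16676584)) (a (l 16672312) (l 16669728))) (l 16669464)) (a (b (l 16676712) (l 16670464)) (l 16668592))) (c (l 16661896) (l 16660968))) (c (l 16653160) (l 16652144))) (c (a (l 16644880) (l 16634624)) (l 16617656)))), by decide +kernel⟩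

def k117_pm_102 : ∃ t, chk3 f_pm_102 t 240 286 2 = true :=
  ⟨(a (c (c (c (b (c (l 16699896) (l 16699128)) (l 16697808)) (c (l 16695392) (l 16695272))) (b (l 16698352) (l 16691544))) (c (c (l 16694576) (l 16715296)) (l 16693944))) (c (c (c (b (a (l 16703712) (l 16692480)) (c (l 16691440) (l 16690640))) (b (l 16697080) (l 16690296))) (b (l 16680856) (l 16668784))) (c (c (l 16671680) (l 16692304)) (l 16670800)))), by decide +kernel⟩

def k118_pm_102 : ∃ t, chk3 f_pm_102 t 241 286 4 = true :=
  ⟨(a (a (b (c (c (l 16681192) (l 16680032)) (l 16679424)) (c (b (c (l 16675856) (l 16674928)) (a (c (l 16674984) (l 16674200)) (c (b (c (l 16660192) (l 16648784)) (c (l 16648192) (l 16647368))) (l 16668712)))) (b (l 16674288) (a (l 16673560) (c (l 16668264) (l 16667808)))))) (b (c (b (c (l 16671768) (l 16670432)) (a (c (l 16670904) (l 16669760)) (c (b (l 16665928) (a (l 16655144) (l 16652544))) (b (l 16643728) (l 16642240))))) (b (l 16669760) (a (l 16669088) (b (l 16643024) (l 16652016))))) (c (b (a (c (b (a (l 16669640)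 (l 16656240)) (c (l 16656592) (l 16655552))) (b (l 16646048) (l 16644656))) (c (l 16661824) (l 16660792))) (c (l 16660960) (l 16660088))) (b (a (c (l 16665840) (l 16665376)) (l 16660064)) (l 16659352))))) (b (a (c (b (c (a (b (l 16666320) (a (l 16658656) (l 16651984))) (b (l 16662896) (l 16660584))) (a (a (l 16653552) (l 16652112)) (l 16661128))) (a (b (c (a (l 16651480) (l 16659384)) (l 16654360)) (l 16658048)) (c (l 16655648) (l 16654368)))) (b (a (b (l 16664168) (a (l 16640856) (l 16639400))) (b (l 16651512) (l 16658448))) (a (a (l 16648720) (l 16656368)) (l 16653600)))) (c (c (l 16655264) (l 16653824)) (l 16653056))) (c (a (c (c (l 16651936) (l 16650888)) (l 16650400)) (c (b (c (l 16645640) (l 16644416)) (a (l 16641144) (l 16637024))) (b (l 16643880) (l 16638272)))) (a (l 16649608) (b (l 16643048) (l 16637408)))))), by decide +kernel⟩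

def k119_pm_102 : ∃ t, chk3 f_pm_102 t 241 286 5 = true :=
  ⟨(a (b (c (b (l 16674608) (a (l 16676888) (a (l 16668192) (l 16662224)))) (b (l 16673760) (a (l 16676048) (l 16663968)))) (c (a (b (l 16673432) (a (l 16672696) (l 16667128))) (b (a (l 16664680) (l 16659088)) (l 16658376))) (a (b (l 16672568) (l 16668832)) (b (l 16661128) (l 16657384))))) (b (a (a (c (b (b (l 16663224) (l 16660160)) (l 16657008)) (b (l 16660672) (l 16656008))) (b (c (l 16659432) (l 16658456)) (l 16652056))) (l 16651512)) (c (a (l 16648544) (l 16639336)) (a (l 16647472) (l 16638192))))), by decide +kernel⟩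

def k120_pm_102 : ∃ t, chk3 f_pm_102 t 121 286 2 = true :=
  ⟨(c (c (a (c (b (a (c (l 16648672) (l 16647232)) (l 16638144)) (a (c (l 16634672) (l 16633480)) (c (l 16624800) (l 16623488)))) (a (b (l 16646408) (l 16632920)) (l 16629664))) (c (a (b (l 16628208) (l 16614152)) (c (l 16611904) (l 16589280))) (a (l 16619544) (l 16609304)))) (a (a (b (l 16645600) (l 16632024)) (b (l 16635568) (l 16621936))) (a (l 16618576) (l 16608288)))) (a (c (a (l 16637672) (l 16627536)) (l 16610424)) (c (a (l 16617288) (l 16606920)) (l 16610744)))), by decide +kernel⟩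

def k121_pm_102 : ∃ t, chk3 f_pm_102 t 120 287 2 = true :=
  ⟨(c (b (a (a (c (c (l 16685624) (l 16706128)) (l 16684720)) (c (b (a (l 16691168) (c (c (l 16680120) (l 16679504)) (l 16679200))) (a (l 16687720) (a (b (l 16680072) (c (l 16678448) (l 16656968))) (b (c (l 16669512) (l 16653216)) (l 16672760))))) (a (l 16688624) (b (l 16677936) (a (l 16678072) (b (l 16673544) (l 16671848))))))) (a (c (b (a (a (c (b (c (l 16651832) (l 16651144)) (l 16670936)) (l 16671112)) (l 16665616)) (l 16657048)) (c (l 16659600) (l 16658968))) (a (b (a (b (l 16650160) (l 16669632)) (l 16664552)) (l 16663992)) (l 16654192))) (c (c (a (l 16644264) (c (b (l 16635032) (l 16631272)) (l 16632472))) (l 16637752)) (a (l 16642624) (l 16631112))))) (a (a (c (c (l 16678736) (l 16699336)) (l 16698856)) (a (c (b (a (l 16687120) (b (l 16682208) (c (l 16670248) (l 16659328)))) (a (b (l 16684352) (l 16672392)) (b (l 16679072) (l 16677168)))) (b (c (l 16683288) (l 16682896)) (a (b (l 16683576) (l 16682096)) (l 16677440)))) (a (b (a (b (c (l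 16667592) (l 16677224)) (l 16675912)) (l 16671296)) (l 16671912)) (c (l 16668400) (l 16667464))))) (a (c (b (l 16655832) (l 16652392)) (l 16653072)) (c (c (a (l 16637256) (l 16625760)) (l 16630832)) (l 16629920))))) (a (a (c (c (l 16680864) (l 16701520)) (l 16680088)) (b (c (a (l 16687896) (b (l 16677776) (a (l 16677248) (l 16671968)))) (a (l 16687160) (b (l 16676952) (l 16673728)))) (c (a (b (l 16682312) (a (l 16681992) (l 16676616))) (b (l 16671544) (l 16667704))) (a (b (l 16681528) (l 16678616)) (l 16668992))))) (b (a (a (a (b (c (l 16669568) (l 16668672)) (l 16665496)) (l 16661408)) (l 16652656)) (c (l 16635712) (l 16634536))) (c (l 16619384) (l 16639216))))), by decide +kernel⟩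

def k122_pm_102 : ∃ t, chk3 f_pm_102 t 121 287 2 = true :=
  ⟨(c (a (c (a (b (b (c (c (l 16628016) (l 16623368)) (l 16622888)) (a (c (a (l 16617296) (l 16613136)) (l 16619840)) (l 16613992))) (a (b (c (l 16616072) (l 16615320)) (l 16612104)) (b (b (l 16587920) (c (l 16595576) (l 16605296))) (c (a (l 16593480) (l 16589296)) (l 16601328))))) (c (b (c (l 16610736) (l 16609872)) (b (l 16600024) (l 16593216))) (b (l 16609352) (l 16595824)))) (a (b (a (b (l 16624512) (l 16618856)) (l 16615936)) (a (l 16612552) (b (l 16605896) (l 16600232)))) (b (l 16608312) (l 16594696)))) (c (c (c (b (a (l 16600632) (l 16590416)) (b (l 16584936) (l 16583280))) (a (l 16592952) (l 16582640))) (a (l 16592384) (l 16582048))) (a (b (l 16598064) (l 16584392)) (l 16580848)))) (a (a (c (b (a (l 16620640) (l 16614592)) (a (l 16611176) (l 16601864))) (b (l 16616448) (l 16584512))) (c (l 16600072) (l 16598608))) (c (b (l 16591344) (l 16577536)) (l 16582880)))), by decide +kernel⟩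

def k123_pm_102 : ∃ t, chk3 f_pm_102 t 122 71 2 = true :=
  ⟨(b (c (a (c (b (c (l 16632416) (b (l 16656808) (l 16642520))) (a (c (l 16629608) (l 16626648)) (b (l 16625064) (l 16608184)))) (b (l 16626880) (a (l 16625448) (l 16615024)))) (c (b (a (l 16615568) (l 16626336)) (c (l 16604120) (l 16571696))) (b (l 16626976) (l 16599120)))) (a (b (c (l 16646840) (l 16645824)) (c (l 16618968) (l 16617720))) (b (c (l 16625824) (l 16624656)) (c (l 16597728) (l 16596320))))) (c (c (b (a (c (a (b (l 16607984) (l 16593720)) (l 16569632)) (l 16593696)) (c (b (l 16582008) (l 16567472)) (l 16572504))) (a (a (c (b (l 16579616) (l 16565696)) (l 16571592)) (b (l 16568520) (l 16549400))) (c (b (l 16553144) (l 16539048)) (l 16544888)))) (a (b (a (l 16597872) (l 16587344)) (a (l 16570336) (l 16559704))) (b (l 16571288) (l 16543488)))) (b (a (c (l 16591104) (l 16589616)) (c (l 16569648) (l 16568000))) (a (c (a (l 16568656) (l 16557944)) (l 16561544)) (c (l 16541608) (l 16539720)))))), by decide +kernel⟩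

def k124_pm_102 : ∃ t, chk3 f_pm_102 t 123 71 2 = true :=
  ⟨(a (b (c (c (a (b (a (l 16618608) (l 16619112)) (a (l 16589376) (l 16589760))) (b (l 16630120) (l 16579624))) (a (a (l 16599744) (l 16600096)) (l 16589992))) (a (a (b (l 16611856) (l 16583496)) (b (l 16612248) (l 16583840))) (b (l 16623328) (l 16594832)))) (b (c (a (c (a (l 16560488) (l 16560784)) (l 16557904)) (c (l 16550504) (l 16568792))) (a (a (l 16555160) (l 16555448)) (l 16566360))) (c (b (a (a (l 16537912) (l 16538144)) (l 16548784)) (a (a (l 16523896) (l 16524096)) (l 16534704))) (a (a (l 16526872) (l 16527112)) (l 16537944))))) (b (c (c (c (a (l 16632240) (c (a (l 16603744) (l 16597528)) (l 16593312))) (b (l 16649336) (l 16619856))) (l 16590736)) (c (l 16589704) (l 16588664))) (c (c (c (a (b (l 16586848) (l 16557576)) (c (a (b (l 16599616) (c (l 16570184) (l 16568152))) (b (l 16614168) (c (l 16587240) (l 16579744)))) (b (l 16579104) (l 16571336)))) (l 16556376)) (l 16534272)) (b (l 16588152) (l 16559584))))), by decide +kernel⟩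

def k125_pm_102 : ∃ t, chk3 f_pm_102 t 60 140 3 = true :=
  ⟨(b (a (a (l 3) (a (a (l 3) (b (l 3) (b (l 3) (c (c (l 16750912) (l 16771696)) (l 16750432))))) (c (b (a (c (l 131701030743) (l 16731328)) (c (a (l 100025700967) (l 16754344)) (l 16733648))) (c (a (b (l 16754960) (l 16773688)) (l 16749936)) (l 33990596391))) (c (b (l 94656930295) (l 16751632)) (b (l 16722144) (l 16772568)))))) (c (a (c (b (a (l 16749544) (l 16762112)) (l 16746952)) (b (l 16745240) (l 16738968))) (c (b (l 16728312) (l 16721488)) (b (l 16728112) (l 16742208)))) (c (a (b (l 16745160) (l 16738840)) (c (l 16724560) (l 16724448))) (a (l 16741960) (l 16724280))))) (a (a (a (l 3) (c (b (c (l 221895312679) (l 224042835287)) (c (a (l 137069754199) (c (l 16754192) (l 16754184))) (a (l 16736600) (l 16754168)))) (b (l 155323283271) (c (l 16726768) (l 16747472))))) (c (b (a (c (a (b (l 16743480) (l 16754744)) (l 16752376)) (b (l 16738800) (l 16752728))) (c (l 16745896) (l 16745824))) (c (l 16749112) (l 16743776))) (c (b (a (l 16732344) (l 16766720))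 (l 16743688)) (b (l 16728304) (l 16743600))))) (c (a (c (b (l 16732496) (l 16725576)) (b (l 16732328) (l 16725352))) (b (c (l 16714320) (l 16734992)) (c (a (l 16732576) (b (l 16725032) (l 16720576))) (a (l 16732256) (l 16701080))))) (a (c (l 16728688) (l 16728488)) (c (b (l 16734688) (a (l 16731928) (l 16721648))) (b (l 16734384) (l 16725904))))))), by decide +kernel⟩

def k126_pm_102 : ∃ t, chk3 f_pm_102 t 60 141 3 = true :=
  ⟨(a (b (c (a (a (b (c (a (l 3) (b (l 16739008) (l 16755032))) (l 101636242647)) (c (a (b (l 16748696) (l 16774992)) (l 16751304)) (l 69424058791))) (c (b (b (l 16752328) (l 16749360)) (l 16744320)) (b (l 16750728) (l 16765208)))) (c (b (l 16737144) (l 16730096)) (b (l 16737000) (l 16729904)))) (a (c (a (b (l 16712496) (l 16752576)) (l 16747408)) (a (l 92509428583) (l 16747344))) (c (l 16733336) (l 16733160)))) (c (a (a (c (b (b (l 16746888) (l 16740752)) (a (l 16758336) (l 16728336))) (b (l 16743944) (l 16733048))) (c (l 16727064) (l 16726832))) (c (c (l 16712664) (l 16712496)) (l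 16712240))) (a (c (a (b (l 16743840) (l 16732856)) (l 16726600)) (b (l 16738616) (l 16726328))) (c (l 16711896) (l 16711552))))) (b (c (a (c (b (l 16718328) (l 16710792)) (c (l 16714376) (l 16714224))) (a (b (c (l 16724936) (l 16724560)) (b (l 16718808) (a (l 16717280) (c (l 16712176) (l 16711696))))) (b (c (a (l 16706576) (b (l 16714904) (l 16710992))) (a (l 16716616) (l 16712696))) (a (c (b (l 16711840) (l 16707568)) (l 16709528)) (l 16704240))))) (a (c (l 16713992) (l 16713680)) (a (b (l 16723976) (c (l 16715296) (l 16714832))) (b (c (a (l 16716168) (l 16712224)) (l 16713648)) (c (l 16685848) (l 16706296)))))) (c (a (b (c (l 16720848) (l 16720424)) (b (c (l 16688952) (l 16709400)) (a (l 16708184) (c (a (l 16700976) (l 16695888)) (l 16697224))))) (a (b (c (a (b (l 16711728) (l 16704696)) (l 16693424)) (a (l 16707368) (l 16703360))) (c (b (l 16695992) (l 16688352)) (l 16691912))) (l 16667384))) (a (b (c (l 16719992) (l 16719560)) (c (a (l 16710904) (l 16678960)) (l 16682968))) (a (b (c (a (l 16706840) (l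 16702800)) (l 16704352)) (c (l 16691256) (l 16690592))) (l 16687000)))))), by decide +kernel⟩

def k127_pm_102 : ∃ t, chk3 f_pm_102 t 61 70 3 = true :=
  ⟨(b (a (a (b (c (a (b (c (l 16736304) (l 16736024)) (c (l 16728600) (l 16728256))) (b (c (a (l 16729400) (b (l 16726936) (l 16723752))) (a (l 16729064) (l 16704016))) (a (c (b (l 16723952) (l 16720656)) (b (l 16723576) (l 16720256))) (l 16717416)))) (a (c (b (l 16735736) (l 16727904)) (l 16709952)) (b (c (a (l 16728728) (l 16724624)) (l 16715456)) (a (c (l 16721568) (l 16721168)) (l 16716568))))) (c (a (b (c (a (l 16723256) (b (l 16720952) (l 16717504))) (a (l 16722872) (l 16708416))) (a (c (b (l 16717936) (l 16714296)) (l 16694848)) (l 16710880))) (l 16686744)) (a (b (c (a (l 16722480) (l 16718480)) (l 16698856)) (a (c (l 16715368) (l 16714920)) (l 16709912))) (l 16706712)))) (c (b (c (l 16689112) (l 16709616)) (c (l 16693384) (l 16692784))) (b (c (l 16709144) (l 16708664)) (l 16670896)))) (a (c (a (b (a (l 16698320) (l 16699576)) (a (l 16680776) (l 16681712)))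 (b (l 16691144) (l 16693792))) (a (b (a (l 16697216) (l 16698504)) (a (l 16679392) (l 16680360))) (b (l 16690328) (l 16692680)))) (c (b (l 16695280) (l 16696960)) (b (l 16694960) (l 16696328))))) (a (c (b (a (c (l 16696088) (l 16695496)) (c (l 16675640) (l 16674896))) (a (c (l 16673152) (l 16672368)) (c (l 16652064) (l 16651128)))) (b (a (l 16673616) (l 16652800)) (c (l 16639800) (l 16638928)))) (b (c (a (a (a (l 16662256) (l 16662896)) (l 16674536)) (l 16676816)) (a (a (a (l 16660568) (l 16661248)) (l 16673112)) (l 16675856))) (c (a (a (a (l 16638168) (l 16638648)) (l 16650032)) (l 16651808)) (a (a (l 16615360) (l 16648200)) (l 16650432)))))), by decide +kernel⟩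

def k128_pm_102 : ∃ t, chk3 f_pm_102 t 60 71 6 = true :=
  ⟨(b (b (a (a (a (c (l 16721232) (l 16720936)) (c (b (l 16707112) (a (l 16721384) (l 16712248))) (b (l 16727680) (l 16716704)))) (c (c (l 16685080) (l 16705760)) (l 16684352))) (a (c (a (b (l 16698016) (a (l 16686616) (b (l 16684688) (l 16678368)))) (b (a (b (l 16693592) (l 16687120)) (l 16685944)) (l 16674368))) (a (b (l 16697392) (a (l 16685880) (l 16680704))) (b (a (l 16689536) (l 16685224)) (l 16673544)))) (c (l 16665648) (l 16664768)))) (a (a (c (b (l 16699200) (l 16692208)) (l 16674256)) (a (c (b (l 16690776) (l 16658856)) (b (l 16690064) (l 16679016))) (b (c (l 16679856) (l 16679056)) (c (a (l 16668344) (b (l 16667176) (l 16660768))) (a (l 16667448) (l 16663144)))))) (a (b (a (c (a (b (l 16675896) (l 16669600)) (l 16667712)) (a (l 16671912) (l 16666824))) (l 16659560)) (l 16629640)) (c (l 16637520) (l 16636400))))) (a (a (b (c (l 16660784) (l 16681136)) (a (c (l 16700432) (l 16699800)) (c (b (a (l 16686416) (l 16663784)) (a (l 16679176) (l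 16668096))) (b (l 16657960) (a (l 16678368) (l 16667200)))))) (b (a (b (c (b (l 16672896) (l 16668672)) (l 16648528)) (c (a (l 16669408) (b (l 16660160) (l 16656392))) (a (l 16668512) (l 16657680)))) (b (a (c (b (l 16658672) (l 16653136)) (b (l 16657688) (l 16652112))) (l 16649416)) (c (l 16642104) (l 16640984)))) (b (a (c (a (l 16663456) (l 16651104)) (l 16656736)) (l 16632760)) (l 16616520)))) (b (c (a (l 16630192) (l 16609392)) (a (l 16628984) (l 16608032))) (a (a (c (b (l 16615120) (l 16604056)) (l 16608776)) (l 16596392)) (c (l 16581288) (l 16579688)))))), by decide +kernel⟩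

def k129_pm_102 : ∃ t, chk3 f_pm_102 t 60 71 7 = true :=
  ⟨(a (b (a (b (c (a (l 16720648) (l 16701336)) (a (l 16741328) (l 16700880))) (c (l 16694720) (l 16694216))) (b (c (l 16704744) (l 16704152)) (a (c (l 16663368) (l 16683576)) (b (l 16677848) (c (l 16664088) (l 16663160)))))) (a (b (c (l 16701488) (l 16700864)) (a (l 16677880) (c (b (l 16678120) (l 16672240)) (b (l 16677296) (l 16671376))))) (b (a (b (c (l 16668600) (l 16667704)) (c (l 16662160) (l 16661208))) (b (a (c (l 16654360) (l 16653344)) (l 16647296)) (l 16639280))) (a (c (l 16631296) (l 16651232)) (l 16626744))))) (b (a (a (b (b (l 16696432) (c (l 16660920) (l 16681120))) (b (c (l 16669104) (l 16668224)) (l 16653760))) (b (b (c (a (l 16688840) (l 16684496)) (l 16686256)) (c (l 16672720) (l 16671880))) (l 16650512))) (c (l 16628616) (l 16648576))) (b (c (l 16617120) (l 16615816)) (a (a (l 16585704) (l 16593392)) (l 16577256))))), by decide +kernel⟩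

def k130_pm_102 : ∃ t, chk3 f_pm_102 t 61 71 3 = true :=
  ⟨(a (c (b (b (a (c (l 16644808) (l 16643776)) (l 16601920)) (a (c (l 16616456) (l 16615184)) (l 16573216))) (b (c (a (l 16588104) (l 16566336)) (l 16554552)) (c (a (l 16559800) (l 16537816)) (l 16525896)))) (b (c (b (l 16610848) (l 16602864)) (b (l 16630696) (l 16601488))) (c (b (l 16573920) (l 16545008)) (b (l 16572296) (l 16543144))))) (b (c (a (a (c (a (l 16595600) (l 16595984)) (a (l 16594192) (l 16594592))) (b (l 16621032) (l 16592048))) (b (l 16622632) (l 16614440))) (a (a (c (l 16572008) (l 16591560)) (l 16562024)) (c (l 16606464) (l 16626360)))) (c (a (c (a (b (l 16552680) (l 16524000)) (l 16549584)) (b (l 16535608) (l 16506632))) (b (l 16585320) (l 16556256))) (a (a (a (l 16512528) (l 16512832)) (l 16503176)) (b (l 16582440) (l 16552872)))))), by decide +kernel⟩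

def k131_pm_102 : ∃ t, chk3 f_pm_102 t 992 136 32 = true :=
  ⟨(b (c (b (a (b (c (b (a (c (b (b (a (c (a (l 16744016) (l 16740648)) (l 16744352)) (l 6)) (a (l 16743696) (c (a (l 16739304) (l 6)) (l 16741992)))) (a (l 16743304) (c (a (l 16741208) (b (l 16735344) (l 16729520))) (l 16741576)))) (l 16744440)) (a (a (c (b (l 6) (c (b (l 6) (l 16734016)) (l 16739992))) (l 16741696)) (l 6)) (l 6))) (a (l 16742568) (c (b (b (a (c (a (l 16728192) (l 16732688)) (l 16739024)) (l 6)) (a (l 16738368) (c (a (l 16731360) (l 6)) (l 16736672)))) (a (l 16737984) (c (a (l 16725416) (l 16735072)) (l 16736264)))) (l 16739128)))) (l 16744848)) (l 16741160)) (b (a (a (a (c (b (l 6) (c (b (l 6) (c (l 16734448) (l 16724208))) (l 16736392))) (l 16739856)) (l 6)) (l 6)) (l 6)) (c (b (a (c (b (b (a (c (l 16733096) (l 16733736)) (l 6)) (a (l 16733088) (c (l 16725912) (l 16720912)))) (a (l 16732720) (c (b (l 16725224) (l 16709008)) (l 16731008)))) (l 16733864)) (a (b (l 6) (c (c (l 16729384) (l 16729512)) (l 16730328))) (l 6))) (a (l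 16732048) (c (b (a (c (l 16727688) (l 16728392)) (c (l 16726440) (l 16726496))) (a (l 16727496) (c (l 16725080) (l 16725792)))) (l 16728640)))) (l 16734336)))) (l 16713488)) (b (l 16724768) (l 16721776))) (b (b (l 16715576) (l 16714272)) (l 16706320))), by decide +kernel⟩

def k132_pm_102 : ∃ t, chk3 f_pm_102 t 992 136 33 = true :=
  ⟨(c (b (a (a (c (l 16736032) (a (c (l 16761192) (l 16757496)) (l 16739056))) (l 16733704)) (l 16727104)) (b (a (a (b (l 16734440) (c (l 16752192) (l 16745632))) (l 16729624)) (l 16723136)) (a (b (l 16726416) (l 16719736)) (l 16714720)))) (a (b (b (c (a (l 16759216) (c (l 16761336) (l 16757688))) (l 16759096)) (a (l 16751200) (c (l 16748640) (l 16761064)))) (b (a (b (l 16759704) (l 16747960)) (c (b (l 16757160) (l 16750672)) (l 16748016))) (a (l 16729576) (c (l 16727080) (l 16750056))))) (b (a (c (l 16756496) (c (l 16738600) (a (l 16740904) (l 16760504)))) (l 16733216)) (b (a (b (l 16734016) (c (l 16751960) (l 16750472))) (l 16750352)) (b (l 16736728) (l 16719648)))))), by decide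 +kernel⟩

def k133_pm_102 : ∃ t, chk3 f_pm_102 t 992 136 17 = true :=
  ⟨(a (b (l 16763808) (b (l 16760104) (l 16751824))) (c (b (c (c (a (l 16751472) (c (l 16738336) (a (l 16761424) (l 16739248)))) (l 16740872)) (l 16762184)) (b (c (a (l 16737312) (c (c (l 16734552) (l 16751704)) (l 16757752))) (l 16758536)) (c (a (l 16749936) (c (l 16726824) (l 16749480))) (l 16750296)))) (b (l 16762832) (b (l 16759360) (l 16751216))))), by decide +kernel⟩

def k134_pm_102 : ∃ t, chk3 f_pm_102 t 993 136 16 = true :=
  ⟨(b (c (b (a (a (a (a (c (b (l 6) (a (b (l 6) (b (l 6) (b (l 6) (l 16721720)))) (l 6))) (l 16728456)) (l 6)) (l 6)) (l 6)) (l 6)) (c (b (a (c (b (a (c (b (a (c (l 16722488) (l 16723200)) (c (l 16716000) (l 16721304))) (a (l 16722312) (l 16720344))) (l 16723464)) (a (b (l 6) (c (c (l 16708176) (l 16708240)) (l 16719960))) (l 6))) (a (l 16721712) (c (a (b (l 16717768) (l 16717176)) (b (c (l 16705608) (l 16705672)) (l 16715208))) (l 16718328)))) (l 16724008)) (a (a (b (l 6) (c (c (b (l 6) (c (l 16703048) (l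 16703112))) (l 16715208)) (l 16718136))) (l 6)) (l 6))) (a (l 16720560) (c (b (a (c (b (a (l 16712656) (c (l 16700504) (l 16700568))) (l 16711176)) (l 16713232)) (a (a (b (l 6) (b (l 6) (l 16709384))) (l 6)) (l 6))) (a (l 16711536) (c (b (a (l 16697104) (c (l 16684952) (l 16685016))) (l 16706120)) (l 16708184)))) (l 16713848)))) (l 16725168))) (c (l 16713896) (l 16722248))) (b (c (b (l 16698104) (b (l 16718192) (l 16696584))) (b (l 16714952) (l 16713784))) (c (l 16689240) (l 16706192)))), by decide +kernel⟩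

def k135_pm_102 : ∃ t, chk3 f_pm_102 t 993 136 17 = true :=
  ⟨(a (b (c (c (a (c (l 16756064) (c (l 16748560) (b (l 16751216) (l 16759056)))) (l 16732808)) (c (a (l 16760992) (c (l 16748304) (l 16749488))) (l 16760872))) (l 16761464)) (b (c (c (a (a (c (l 16753440) (l 16746256)) (l 16742832)) (l 16729224)) (a (l 16757576) (c (a (l 16746032) (l 16744720)) (l 16757064)))) (l 16758152)) (c (c (a (c (l 16744176) (l 16726752)) (l 16742056)) (a (l 16749424) (l 16727160))) (l 16750152)))) (b (b (l 6) (c (a (c (l 16748168) (c (l 16754480) (l 16736728))) (l 16727056)) (c (a (l 16759008) (l 16752592)) (l 16759224)))) (b (c (c (l 16722744) (a (c (l 16752240) (b (l 16756040) (l 16749712))) (l 16729080))) (a (l 16757160) (b (l 16751496) (l 16745248)))) (c (a (c (l 16737840) (l 16724752)) (l 16716928)) (c (l 16727304) (l 16749352)))))), by decide +kernel⟩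

def k136_pm_102 : ∃ t, chk3 f_pm_102 t 497 272 8 = true :=
  ⟨(b (l 6) (b (l 6) (a (a (a (a (a (a (b (l 6) (b (l 6) (b (l 6) (c (l 16698200) (c (l 16744528) (l 16746304)))))) (l 6)) (l 6)) (l 6)) (l 6)) (l 6)) (l 6)))), by decide +kernel⟩

def k137_pm_102 : ∃ t, chk3 f_pm_102 t 497 546 8 = true :=
  ⟨(a (c (b (a (c (c (c (b (b (a (c (a (l 16692072) (l 16699784)) (l 16703320)) (l 6)) (a (l 16702104) (c (a (l 16693352) (l 6)) (l 16698824)))) (a (l 16701528) (c (a (l 16676408) (b (l 16690864) (l 16674120))) (l 16698200)))) (l 16703848)) (l 16710184)) (l 16722888)) (b (l 6) (a (a (a (b (l 6) (b (l 6) (l 16688088))) (l 6)) (l 6)) (l 6)))) (c (c (a (l 16700576) (c (b (a (c (a (l 16671464) (c (a (l 16680216) (l 16685320)) (l 16669864))) (l 16693264)) (a (a (b (l 6) (c (l 16684760) (l 16690408))) (l 6)) (l 6))) (a (l 16691728) (c (a (c (l 16668320) (l 16688936)) (b (l 16690648) (l 16668576))) (l 16668568)))) (l 16694072))) (l 16704704)) (l 16717472))) (c (l 16714064) (a (a (c (b (l 16743440) (l 16742448)) (l 16756216))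 (c (l 16749992) (l 16734296))) (c (l 16743600) (c (l 16749976) (l 16745312)))))) (b (l 6) (a (a (b (l 6) (a (c (c (c (c (c (b (l 6) (l 16690840)) (l 16668784)) (l 16668584)) (l 16694632)) (l 16707464)) (l 16712264)) (l 6))) (l 6)) (l 6)))), by decide +kernel⟩

def k138_pm_102 : ∃ t, chk3 f_pm_102 t 497 547 8 = true :=
  ⟨(c (c (a (a (l 16697408) (c (a (l 16686808) (c (l 16682640) (l 16684736))) (l 16693128))) (c (a (c (b (b (a (c (b (l 16689584) (l 16666480)) (l 16687552)) (c (l 16683912) (l 16684112))) (a (l 16684720) (c (l 16686784) (l 16685664)))) (l 16680832)) (l 16683224)) (b (a (b (l 6) (c (c (l 16689904) (l 16687488)) (l 16686144))) (l 6)) (c (b (a (c (l 16684992) (l 16683888)) (c (l 16688152) (l 16685744))) (a (l 16681216) (l 16682936))) (l 16682360)))) (a (a (l 16686856) (c (l 16682992) (l 16684848))) (l 16684080)))) (a (l 16689248) (a (l 16697464) (c (a (l 16686992) (c (l 16683448) (l 16685064))) (l 16693272))))) (c (l 16697952) (a (c (a (c (l 16742296) (l 16724736)) (l 16736072)) (a (l 16727040)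 (c (l 16742488) (l 16724744)))) (l 16706840)))), by decide +kernel⟩

def k139_pm_102 : ∃ t, chk3 f_pm_102 t 249 136 8 = true :=
  ⟨(a (a (a (a (a (b (l 6) (b (l 6) (c (c (a (b (l 6) (b (l 6) (b (l 6) (l 16681304)))) (l 6)) (c (l 16683808) (l 16687960))) (l 16688688)))) (l 6)) (l 6)) (l 6)) (l 6)) (l 6)), by decide +kernel⟩

def k140_pm_102 : ∃ t, chk3 f_pm_102 t 124 136 9 = true :=
  ⟨(a (b (b (a (l 16754992) (l 6)) (a (l 16742448) (a (a (l 16760656) (l 6)) (l 6)))) (b (a (b (l 16741168) (a (l 16741256) (l 16739136))) (a (a (l 16737952) (l 16747360)) (a (c (c (c (c (l 16749984) (l 16742504)) (l 16754832)) (l 16756048)) (l 16758312)) (l 6)))) (a (a (l 16739096) (l 16731920)) (c (c (a (l 16727808) (c (a (a (l 16724736) (l 16721792)) (l 16736688)) (a (l 16747640) (c (l 16722016) (l 16724872))))) (l 16728448)) (l 16751832))))) (b (l 6) (b (l 6) (a (a (a (a (c (c (l 16734800) (l 16725752)) (l 16749944)) (l 6)) (l 6)) (l 6)) (l 6))))), by decide +kernel⟩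

def k141_pm_102 : ∃ t, chk3 f_pm_102 t 496 137 8 = true :=
  ⟨(a (c (b (c (b (l 16693376) (l 16702384)) (c (b (b (l 16711720) (l 16702960)) (l 16694072)) (a (a (b (l 16737504) (l 16725432)) (c (l 16708064) (l 16710104))) (b (l 16710264) (l 16698472))))) (c (l 16664872) (a (c (l 16681408) (c (a (l 16708544) (l 16706664)) (l 16708912))) (b (l 16683256) (l 16672960))))) (b (a (b (l 16738984) (l 16727096)) (c (c (c (a (l 16731032) (l 16708296)) (l 16731216)) (l 16731768)) (l 16732832))) (a (l 16710736) (c (c (b (l 16703152) (l 16703400)) (l 16709936)) (l 16711160))))) (c (b (c (l 16660496) (l 16688064)) (l 16637080)) (c (c (b (a (b (l 16710480) (l 16698952)) (l 16717856)) (b (l 16684448) (l 16674520))) (a (b (c (a (l 16730960) (l 16708536)) (l 16731136)) (c (l 16687632) (l 16709736))) (b (b (l 16715976) (l 16699480)) (c (l 16703288) (l 16685992))))) (b (a (l 16732064) (b (l 16715784) (l 16704600))) (b (l 16694464) (l 16705616)))))), by decide +kernel⟩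

def k142_pm_102 : ∃ t, chk3 f_pm_102 t 497 137 8 = true :=
  ⟨(c (c (a (b (a (l 16658720) (c (a (l 16648368) (c (b (l 16670904) (l 16659984)) (l 16667472))) (l 16675808))) (a (l 16658832) (c (a (l 16648776) (c (l 16644968) (l 16647144))) (l 16655424)))) (a (c (b (b (l 16672056) (l 16661304)) (l 16653088)) (b (a (l 16648840) (c (b (l 16671544) (l 16660888)) (l 16668008))) (a (l 16649760) (c (l 16646256) (l 16648192))))) (b (b (l 16673640) (l 16663136)) (l 16648704)))) (a (b (l 16671824) (l 16672288)) (b (a (l 16680600) (c (a (l 16649400) (c (l 16666984) (l 16668640))) (l 16676792))) (a (l 16660752) (c (a (l 16650824) (c (l 16647640) (l 16649336))) (l 16657424)))))) (c (b (l 16660040) (l 16661072)) (a (c (b (a (b (l 16716272) (l 16700040)) (l 16719040)) (a (c (l 16704376) (l 16686880)) (l 16698984))) (a (b (l 16709720) (l 16710288)) (b (b (l 16716616) (l 16700656)) (c (l 16705488) (l 16687808))))) (b (l 16690376) (l 16691984))))), by decide +kernel⟩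

def k143_pm_102 : ∃ t, chk3 f_pm_102 t 248 137 9 = true :=
  ⟨(b (a (b (b (l 16723688) (l 16738952)) (l 16730608)) (c (c (a (l 16710784) (c (a (c (l 16705176) (l 16708240)) (l 16720488)) (a (l 16731160) (c (l 16705856) (l 16708744))))) (l 16711920)) (l 16735560))) (a (l 16694208) (c (a (l 16691704) (c (c (a (a (l 16688496) (l 16706912)) (l 16701432)) (a (l 16711760) (l 16688016))) (l 16713216))) (l 16716416)))), by decide +kernel⟩

def k144_pm_102 : ∃ t, chk3 f_pm_102 t 498 137 4 = true :=
  ⟨(a (c (c (c (b (b (c (b (a (c (a (l 16669416) (b (c (l 16684968) (l 16682584)) (l 16679920))) (l 16679272)) (a (a (b (l 6) (b (l 6) (l 16679696))) (l 6)) (l 6))) (a (l 16674360) (c (b (a (l 16678568) (c (l 16682216) (l 16679840))) (l 16676552)) (l 16676608)))) (l 16676608)) (l 16667272)) (l 16653288)) (a (c (b (l 16668472) (l 16649448)) (b (a (l 16650040) (c (l 16667968) (l 16669368))) (a (l 16651976) (c (l 16649128) (l 16650568))))) (b (l 16670368) (l 16651800)))) (a (b (l 16669544) (l 16650776)) (c (c (b (a (l 16650776)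 (c (l 16669056) (l 16670200))) (a (l 16653208) (l 16651616))) (b (l 16678048) (l 16659688))) (b (l 16691248) (l 16672976))))) (c (c (b (l 16691936) (l 16694536)) (c (a (b (c (l 16706584) (l 16709288)) (l 16689136)) (l 16691840)) (a (l 16701296) (b (a (l 16709688) (l 16707512)) (l 16690296))))) (l 16698480))) (c (c (b (c (b (a (a (a (b (l 6) (b (l 6) (b (l 6) (l 16676208)))) (l 6)) (l 6)) (l 6)) (c (b (b (a (c (c (l 16657560) (l 16676664)) (l 16675568)) (l 6)) (a (l 16673824) (c (a (l 16677992) (l 6)) (l 16676352)))) (a (l 16669976) (c (b (a (l 16674176) (l 16677064)) (l 16672496)) (l 16672480)))) (l 16672192))) (l 16674560)) (l 16658072)) (c (a (c (b (l 16670744) (l 16652728)) (b (a (l 16651592) (l 16655248)) (a (l 16654536) (l 16653152)))) (b (l 16672816) (l 16655248))) (a (b (l 16683192) (l 16665360)) (c (b (a (l 16673480) (l 16672112)) (a (l 16655952) (l 16654792))) (l 16649560))))) (c (b (l 16684832) (l 16667392)) (c (c (a (b (l 16709008) (l 16691512)) (l 16694320)) (a (l 16702712) (b (l 16709776) (l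 16692776)))) (l 16704232))))), by decide +kernel⟩

def k145_pm_102 : ∃ t, chk3 f_pm_102 t 499 137 4 = true :=
  ⟨(b (a (a (a (b (l 6) (b (l 6) (c (c (c (c (c (l 16657952) (l 16675040)) (l 16673528)) (l 16671264)) (c (l 16668232) (l 16656752))) (c (l 16689216) (c (l 16716168) (l 16726848)))))) (l 6)) (l 6)) (l 6)) (c (c (c (a (b (c (b (a (c (c (l 16652488) (l 16671920)) (l 16670976)) (c (l 16664184) (l 16664800))) (a (l 16667096) (c (l 16650864) (l 16669832)))) (l 16669280)) (l 16661920)) (b (a (b (l 6) (c (c (l 16657864) (l 16674240)) (l 16671912))) (l 6)) (c (b (a (l 16657240) (c (l 16678096) (l 16673536))) (c (l 16647568) (l 16666920))) (l 16667776)))) (l 16666288)) (a (c (l 16660208) (a (c (l 16656376) (a (l 16657456) (l 16656520))) (l 16659048))) (l 16665504))) (c (a (c (a (l 16668056) (c (l 16659144) (l 16665008))) (l 16682304)) (c (a (c (l 16660384) (l 16660952)) (l 16663176)) (a (l 16671056) (c (l 16662840) (l 16668160))))) (c (l 16671952) (a (a (l 16695120) (c (l 16710248) (l 16716424))) (l 16682704)))))),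 by decide +kernel⟩

def k146_pm_102 : ∃ t, chk3 f_pm_102 t 124 68 5 = true :=
  ⟨(b (b (a (b (a (c (l 16758312) (a (l 16750168) (l 16748784))) (l 6)) (a (c (l 16746456) (l 16763096)) (a (a (c (l 16744560) (l 16755888)) (l 6)) (l 6)))) (l 6)) (b (a (b (a (c (l 16745744) (a (l 16767432) (l 16744808))) (c (l 16742456) (c (l 16764896) (l 16741608)))) (a (c (a (l 16745752) (l 16754736)) (a (l 16745392) (c (l 16765792) (l 16763928)))) (c (l 16763056) (l 16741536)))) (l 6)) (a (a (c (a (b (l 16741920) (l 16735656)) (l 16737408)) (a (c (l 16742544) (l 16744056)) (c (l 16741592) (l 16743272)))) (c (l 16735720) (l 16741552))) (a (c (l 16733304) (l 16740272)) (l 6))))) (a (b (c (b (a (b (l 16729224) (l 16744776)) (l 16745992)) (l 16715456)) (b (a (c (a (l 16730808) (l 16751648)) (l 16731752)) (l 16730808)) (c (l 16720248) (l 16741912)))) (c (a (l 16701024) (l 16722400)) (b (l 16710520) (l 16721912)))) (c (a (b (l 16718824) (l 16722808)) (a (l 16709728) (b (l 6) (c (c (c (a (l 16717848) (l 16713592)) (l 16719544)) (l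 16721992)) (l 16725992))))) (b (c (a (l 16724816) (l 16724552)) (l 16726176)) (b (l 16712176) (l 16724752)))))), by decide +kernel⟩

def k147_pm_102 : ∃ t, chk3 f_pm_102 t 248 69 16 = true :=
  ⟨(a (b (b (a (c (l 16645328) (a (c (l 16661760) (a (l 16689136) (l 16672248))) (l 16656144))) (l 16639344)) (a (a (c (l 16642824) (a (c (l 16679592) (l 16684304)) (c (l 16673528) (c (l 16669216) (l 16681880))))) (b (b (l 16639456) (a (l 16640080) (l 16655664))) (l 16640208))) (b (l 16647904) (b (l 16622656) (l 16622552))))) (a (c (l 16630856) (c (b (l 16680056) (l 16692160)) (a (b (l 16692208) (l 16704232)) (l 16667224)))) (l 16603672))) (b (a (b (a (l 16628400) (c (c (a (l 16630896) (c (l 16627264) (l 16629472))) (l 16637696)) (l 16650800))) (a (l 16633608) (c (c (a (l 16615312) (l 16613280)) (l 16622248)) (l 16635424)))) (a (c (b (c (l 16629120) (a (l 16632336) (c (l 16629008) (l 16630976)))) (c (l 16613960) (a (l 16617160) (l 16615328)))) (b (l 16643504) (l 16628496))) (c (b (l 16631696) (l 16616896)) (a (b (l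 16638168) (l 16623424)) (c (b (l 16632040) (l 16617456)) (l 16631240)))))) (a (b (a (l 16610000) (b (c (c (a (l 16606776) (l 16603664)) (l 16613504)) (l 16626728)) (l 16600368))) (a (l 16643800) (l 16589704))) (b (c (a (b (c (l 16582968) (l 16606640)) (c (l 16581864) (a (l 16607048) (l 16602936)))) (b (l 16607080) (l 16581624))) (a (b (l 16618576) (l 16617544)) (b (l 16612864) (c (a (l 16605136) (l 16602480)) (l 16611872))))) (c (a (c (l 16612616) (l 16615424)) (l 16609880)) (l 16590448)))))), by decide +kernel⟩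

def k148_pm_102 : ∃ t, chk3 f_pm_102 t 248 69 17 = true :=
  ⟨(a (b (b (a (a (l 16691408) (c (b (l 16684040) (l 16685608)) (l 16692264))) (c (c (a (l 16664336) (l 16678424)) (a (l 16669352) (l 16665696))) (c (l 16670560) (l 16692752)))) (a (b (a (l 16683624) (c (c (a (l 16678984) (l 16676984)) (l 16679744)) (l 16681216))) (l 16663552)) (c (a (b (c (l 16672872) (l 16677936)) (c (l 16649320) (l 16675400))) (b (l 16670280) (b (l 16664696) (l 16642328)))) (b (l 16679904) (a (l 16677504) (l 16663568)))))) (a (b (l 16671752) (l 16684176)) (c (b (c (l 16650768) (a (l 16683240) (l 16673888))) (a (l 16671992) (l 16682728))) (b (l 16682416) (l 16695520))))) (b (c (b (l 16643736) (l 16649632)) (a (b (c (a (l 16667096) (l 16681528)) (a (l 16692520) (l 16668528))) (a (c (l 16651560) (l 16677056)) (l 16649232))) (l 16625600))) (b (a (c (b (l 16650056) (l 16653888)) (a (c (a (l 16672800) (l 16667592)) (l 16674736)) (b (c (l 16657744) (l 16644824)) (l 16664744)))) (b (l 16641888) (l 16618768))) (c (l 16630656) (a (c (l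 16656208) (l 16662288)) (l 16657000)))))), by decide +kernel⟩

def k149_pm_102 : ∃ t, chk3 f_pm_102 t 248 69 9 = true :=
  ⟨(b (a (b (l 16696968) (b (a (l 16688296) (l 16685272)) (a (l 16690928) (l 16681840)))) (a (b (l 16676464) (l 16661536)) (c (c (a (c (b (l 16670008) (l 16676232)) (l 16666304)) (b (c (l 16684880) (l 16692496)) (l 16653144))) (l 16668224)) (l 16671704)))) (a (b (l 16694016) (l 16707352)) (b (a (b (a (l 16677384) (l 16674432)) (l 16680552)) (c (c (a (b (l 16647104) (c (l 16665576) (l 16669648))) (c (l 16658872) (b (l 16668632) (l 16664336)))) (b (l 16672752) (l 16670744))) (l 16676160))) (c (c (a (l 16687336) (a (l 16656424) (l 16646952))) (l 16684656)) (l 16688688))))), by decide +kernel⟩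

def k150_pm_102 : ∃ t, chk3 f_pm_102 t 249 69 8 = true :=
  ⟨(c (b (c (b (l 16626392) (l 16634000)) (a (a (a (c (b (l 16632944) (l 16618600)) (b (a (l 16635456) (l 16633848)) (l 16620800))) (b (l 16635696) (l 16621712))) (l 16634000)) (l 16624288))) (a (b (a (c (l 16610064) (a (c (l 16606160) (l 16608416)) (l 16609568))) (l 16617024)) (a (a (c (l 16608192) (c (l 16606464) (a (l 16610208) (l 16606280)))) (l 16606704)) (l 16609336))) (l 16624568))) (b (a (a (c (a (l 16618240) (c (b (a (l 16637144) (l 16635744)) (l 16623008)) (l 16636592))) (l 16611560)) (c (a (c (l 16630080) (b (l 16623040) (l 16625304))) (l 16633184)) (a (l 16621984) (c (b (l 16640744) (l 16627680)) (l 16640416))))) (a (c (l 16638920) (a (c (l 16635040) (b (l 16642800) (l 16630144))) (l 16638280))) (l 16645368))) (a (b (a (a (l 16629032) (c (l 16593840) (l 16631448))) (c (a (c (l 16611848) (l 16613632)) (l 16615440)) (c (l 16597816) (l 16626168)))) (a (a (l 16629528) (b (c (c (l 16604528) (l 16611552)) (l 16625072)) (l 16600328))) (c (a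 (b (l 16605552) (a (l 16606224) (l 16604224))) (l 16606464)) (a (l 16617936) (a (l 16611648) (l 16588464)))))) (a (c (l 16616880) (b (l 16610232) (l 16611368))) (l 16624600))))), by decide +kernel⟩

def k151_pm_102 : ∃ t, chk3 f_pm_102 t 249 69 9 = true :=
  ⟨(a (b (c (a (c (l 16650440) (b (c (a (l 16694056) (l 16688480)) (a (l 16697464) (l 16695664))) (c (l 16656256) (l 16661544)))) (l 16624520)) (a (l 16693480) (c (b (c (a (l 16697320) (l 16692320)) (l 16678408)) (c (l 16660512) (l 16686472))) (l 16695576)))) (c (a (b (c (l 16652752) (c (l 16644312) (l 16649656))) (c (l 16630688) (b (a (l 16645576) (l 16639184)) (l 16647656)))) (b (l 16648840) (l 16620616))) (a (b (l 16675272) (l 16674488)) (a (b (l 16654888) (b (l 16668424) (l 16648024))) (c (b (l 16671448) (c (l 16659728) (l 16666568))) (l 16674352)))))) (c (b (a (c (a (l 16646952) (b (c (l 16644952) (l 16650872)) (l 16615232))) (l 16640648)) (c (a (b (l 16647208) (l 16635296)) (l 16643696)) (a (l 16630264) (c (b (l 16649528) (l 16638048)) (l 16648952)))))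 (a (a (l 16613288) (c (c (l 16617328) (l 16623368)) (l 16637088))) (b (c (l 16626896) (a (l 16635400) (l 16631496))) (c (l 16618168) (l 16625432))))) (b (a (c (l 16658880) (b (c (l 16677168) (l 16702768)) (c (l 16664976) (l 16690632)))) (b (l 16660224) (l 16669680))) (a (c (l 16658616) (b (c (l 16675408) (l 16680144)) (a (l 16669664) (l 16667720)))) (l 16634328))))), by decide +kernel⟩

def k152_pm_102 : ∃ t, chk3 f_pm_102 t 124 69 5 = true :=
  ⟨(b (a (b (c (b (l 16709376) (c (l 16699544) (l 16703304))) (l 16687296)) (a (c (b (a (c (l 16694224) (l 16686768)) (l 16693120)) (a (l 16698296) (c (l 16688416) (l 16690952)))) (b (a (l 16697256) (l 16694808)) (l 16684920))) (c (c (l 16690032) (l 16693088)) (l 16693064)))) (c (c (a (l 16677976) (a (l 16700560) (c (b (c (l 16681056) (l 16706384)) (c (l 16690616) (l 16695032))) (l 16703088)))) (b (l 16690216) (l 16697760))) (b (l 16712704) (l 16697856)))) (a (b (a (c (l 16680072) (l 16701520)) (c (b (a (c (l 16683520) (l 16685264)) (l 16682240)) (a (l 16687912) (l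 16669200))) (b (l 16684424) (l 16684288)))) (c (l 16660816) (l 16681600))) (a (b (c (l 16660776) (l 16682272)) (b (c (a (l 16675712) (l 16674120)) (l 16675200)) (a (l 16679792) (l 16671952)))) (c (c (c (a (l 16677848) (b (l 16661448) (c (l 16672024) (l 16675696)))) (l 16659400)) (l 16680672)) (l 16680192))))), by decide +kernel⟩

def k153_pm_102 : ∃ t, chk3 f_pm_102 t 125 68 2 = true :=
  ⟨(a (a (a (a (a (b (l 6) (b (l 6) (c (c (a (b (l 6) (b (l 6) (b (l 6) (l 16644816)))) (l 6)) (c (l 16644160) (l 16685264))) (c (c (c (l 16712640) (l 16722072)) (l 16726216)) (l 16729992))))) (l 6)) (l 6)) (l 6)) (l 6)) (l 6)), by decide +kernel⟩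

def k154_pm_102 : ∃ t, chk3 f_pm_102 t 125 138 2 = true :=
  ⟨(a (a (c (c (b (c (c (b (b (a (c (a (l 16669688) (c (l 16677600) (l 16673096))) (l 16669200)) (l 6)) (a (l 16646112) (c (c (l 16662160) (a (l 16673336) (l 6))) (l 16673736)))) (a (l 16661816) (c (b (a (l 16670248) (l 16655768)) (l 16668936)) (l 16668520)))) (l 16666184)) (l 16662776)) (l 16653816)) (c (b (a (l 16633800) (l 16662056)) (l 16626824)) (a (c (a (l 16634856) (b (l 16636552) (l 16646848))) (l 16670736)) (c (b (l 16659176) (l 16648976)) (a (l 16639768) (b (l 16662576) (l 16652664))))))) (c (c (a (c (l 16647224) (a (l 16682632) (c (l 16678520) (l 16704888)))) (b (l 16669088) (l 16659120))) (c (a (l 16685784) (b (l 16690944) (c (l 16679376) (l 16703408)))) (l 16687928))) (l 16709184))) (b (a (a (b (l 6) (c (a (b (l 6) (b (l 6) (c (l 16647736) (l 16660408)))) (l 6)) (c (c (l 16677608) (c (l 16705048) (l 16714016))) (l 16714176)))) (l 6)) (l 6)) (c (c (c (c (a (b (c (a (l 16670440) (b (l 16657600) (l 16673144))) (l 16670584)) (l 16666192))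 (a (b (c (c (l 16684632) (l 16659104)) (l 16676848)) (l 16671776)) (b (l 6) (c (l 16654560) (l 16673592))))) (l 16670448)) (l 16667920)) (l 16662488)) (c (c (a (c (l 16640000) (l 16676448)) (c (l 16662304) (l 16646280))) (c (l 16645728) (a (l 16703864) (l 16697216)))) (c (a (l 16705208) (l 16685040)) (l 16705816)))))) (b (l 6) (a (a (a (b (l 6) (c (c (a (b (l 6) (b (l 6) (l 16657744))) (l 6)) (l 16671168)) (c (c (l 16666248) (l 16677992)) (c (l 16680944) (l 16705072))))) (l 6)) (l 6)) (l 6)))), by decide +kernel⟩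

def k155_pm_102 : ∃ t, chk3 f_pm_102 t 125 139 4 = true :=
  ⟨(a (a (c (l 16639856) (c (b (l 16638568) (l 16630656)) (a (c (b (l 16619104) (l 16632080)) (l 16652176)) (c (l 16636336) (a (l 16643144) (l 16619448)))))) (c (b (a (l 16656944) (l 16664896)) (a (l 16649864) (l 16657144))) (b (a (l 16649960) (l 16659424)) (a (l 16643440) (l 16652040))))) (a (b (c (c (c (a (b (c (a (l 16670224) (l 16652352)) (l 16671048)) (l 16666640)) (b (c (l 16661424) (l 16654952)) (c (l 16650264) (l 16670008)))) (l 16671800)) (l 16673552)) (l 16650928)) (c (l 16665888) (l 16666784))) (c (c (b (a (a (b (l 6) (b (l 6) (l 16652448))) (l 6)) (l 6)) (c (b (a (l 16649968) (c (l 16660416) (l 16675096))) (l 16648536)) (l 16672144))) (l 16679096)) (l 16684768)))), by decide +kernel⟩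

def k156_pm_102 : ∃ t, chk3 f_pm_102 t 125 139 5 = true :=
  ⟨(a (a (c (c (c (b (l 16668552) (l 16660064)) (a (b (c (l 16686088) (l 16689440)) (l 16676600)) (b (l 16680024) (l 16670024)))) (a (l 16684008) (b (l 16669712) (l 16658760)))) (l 16684696)) (c (b (c (a (c (l 16653032) (l 16667664)) (c (l 16655440) (a (l 16659048) (c (l 16656256) (l 16658352))))) (a (c (l 16683560) (l 16692352)) (l 16637216))) (c (a (c (a (l 16645560) (c (l 16642096) (l 16644888))) (l 16658696)) (c (l 16647352) (a (l 16649848) (l 16648120)))) (a (c (l 16673608) (l 16661368)) (a (l 16650520) (l 16665640))))) (a (l 16668264) (a (b (l 16695072) (l 16684704)) (c (b (l 16674752) (l 16663936)) (l 16669864)))))) (c (a (c (b (a (l 16641576) (l 16672488)) (l 16660256)) (a (b (c (a (l 16663040) (l 16661704)) (l 16673664)) (l 16633712)) (c (l 16662360) (l 16641208)))) (l 16636584)) (a (a (c (b (c (l 16667416) (l 16675360)) (c (l 16679024) (l 16686920))) (l 16671016)) (c (c (l 16672032) (l 16665560)) (l 16694288))) (c (a (c (l 16665952) (l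 16675016)) (c (l 16671504) (l 16669808))) (a (c (l 16668296) (l 16696424)) (c (l 16678064) (l 16671000))))))), by decide +kernel⟩

def k157_pm_102 : ∃ t, chk3 f_pm_102 t 124 140 2 = true :=
  ⟨(c (c (a (a (c (a (c (l 16678808) (b (l 16677288) (l 16681744))) (b (l 16655912) (l 16671368))) (c (a (l 16683056) (b (c (l 16678000) (l 16684504)) (l 16675368))) (l 16680936))) (c (a (b (l 16610728) (l 16647728)) (c (b (a (l 16629824) (l 16625336)) (l 16623760)) (b (l 16616400) (l 16654016)))) (a (c (l 16666128) (b (c (l 16671264) (l 16677416)) (l 16669080))) (l 16629936)))) (a (c (a (b (c (l 16622648) (l 16601272)) (l 16618864)) (l 16626776)) (b (a (l 16597768) (c (l 16616472) (l 16603792))) (a (l 16636096) (c (l 16634288) (l 16642728))))) (b (a (a (c (l 16616024) (c (l 16612936) (l 16591544))) (l 16613984)) (l 16617120)) (c (l 16631336) (l 16607376))))) (a (c (a (l 16685208) (a (l 16691152) (c (b (l 16656416) (l 16683856)) (l 16682672)))) (b (l 16693312) (l 16708440))) (c (a (a (c (l 16653960) (c (l 16645704) (l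 16651208))) (l 16617896)) (b (b (a (a (l 16628720) (c (l 16612040) (l 16628328))) (c (l 16612480) (l 16619808))) (a (l 16611016) (c (l 16612840) (a (l 16622552) (l 16615632))))) (a (l 16604120) (c (l 16624664) (l 16632144))))) (a (c (a (l 16675256) (b (l 16653504) (l 16660440))) (l 16671792)) (b (a (c (l 16634768) (b (a (l 16668464) (l 16642120)) (l 16650496))) (b (l 16645472) (l 16624424))) (c (l 16638968) (a (l 16662400) (l 16663856)))))))) (a (b (l 16694824) (l 16687752)) (a (b (l 16685352) (l 16700376)) (a (b (l 16650848) (l 16685656)) (c (b (c (c (a (l 16667600) (l 16643080)) (l 16668136)) (l 16667864)) (c (l 16653688) (l 16675984))) (b (l 16667320) (l 16675512))))))), by decide +kernel⟩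

def k158_pm_102 : ∃ t, chk3 f_pm_102 t 125 140 2 = true :=
  ⟨(c (a (a (c (b (l 16629424) (a (l 16627720) (b (l 16628912) (l 16629752)))) (c (b (a (l 16619096) (l 16629168)) (a (a (l 16621928) (l 16622288)) (l 16625184))) (c (b (a (l 16625272) (l 16627136)) (a (b (a (l 16626336) (l 16620016)) (l 16610488)) (b (l 16621944) (l 16622088)))) (b (a (l 16640720) (a (l 16632264) (c (l 16628184) (l 16631640)))) (a (l 16642296) (a (l 16606072) (b (l 16623768) (l 16621248)))))))) (b (a (c (l 16642584) (b (l 16638168) (l 16634840))) (l 16648928)) (c (l 16641712) (l 16614624)))) (c (a (l 16658352) (l 16667488)) (c (l 16647056) (b (l 16648824) (l 16643160))))) (a (c (a (c (b (a (c (l 16656632) (l 16666208)) (l 16632208)) (b (a (c (l 16653272) (l 16641848)) (l 16645456)) (a (c (l 16659400) (l 16647968)) (l 16623640)))) (b (a (l 16668056) (c (l 16648856) (l 16671432))) (a (l 16668624) (a (b (l 16663192) (l 16663304)) (a (l 16640992) (l 16661480)))))) (c (a (b (c (a (l 16636816) (l 16634720)) (l 16648136)) (l 16613472))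 (c (l 16635216) (l 16636480))) (a (b (c (l 16641984) (a (l 16672680) (l 16671984))) (c (l 16654456) (l 16663072))) (l 16654864)))) (a (b (l 16669688) (a (l 16668104) (b (l 16663152) (l 16662264)))) (a (b (l 16672704) (l 16664104)) (l 16650048)))) (c (a (c (l 16648144) (a (c (l 16640768) (l 16651256)) (c (l 16645344) (l 16645136)))) (l 16663888)) (c (a (a (c (l 16665768) (l 16673584)) (c (l 16654872) (l 16669208))) (a (c (l 16649584) (l 16658544)) (l 16634664))) (a (l 16675472) (a (c (l 16672632) (l 16679704)) (c (l 16662280) (l 16676040)))))))), by decide +kernel⟩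

def k159_pm_102 : ∃ t, chk3 f_pm_102 t 124 141 2 = true :=
  ⟨(c (a (c (a (c (b (a (l 16689368) (l 16666952)) (l 16657192)) (b (a (l 16704512) (c (l 16692080) (l 16710664))) (c (a (l 16679000) (l 16671584)) (l 16679440)))) (c (b (c (a (l 16676952) (l 16662264)) (l 16641248)) (a (l 16665584) (c (l 16684288) (l 16672872)))) (b (a (l 16672888) (l 16677264)) (a (l 16663224) (l 16678592))))) (b (c (a (l 16702824) (c (a (l 16736136) (l 16680840)) (l 16713320))) (l 16708280)) (c (c (a (l 16697968) (a (l 16688008) (l 16679232))) (l 16683424)) (l 16683280)))) (c (a (c (b (l 16635376) (l 16657920)) (b (a (l 16654424) (c (l 16653048) (l 16661616))) (a (l 16656112) (c (l 16675992) (l 16663720))))) (b (a (l 16650544) (l 16648384)) (a (l 16653384) (l 16670608)))) (a (c (b (c (l 16669584) (a (l 16674512) (l 16675488))) (c (l 16670712) (l 16684312))) (b (a (l 16721088) (l 16667584)) (a (l 16722504) (l 16687272)))) (c (b (a (c (l 16656840) (l 16672960)) (c (l 16645384) (a (l 16655360) (l 16625656)))) (a (c (l 16638200)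 (l 16673512)) (c (l 16646072) (l 16650968)))) (b (a (c (l 16688888) (l 16678472)) (l 16652568)) (a (a (l 16676672) (l 16667944)) (l 16650536))))))) (b (a (l 16687104) (a (l 16695128) (c (a (l 16702088) (c (c (l 16649152) (l 16693448)) (l 16693280))) (l 16676864)))) (a (l 16682808) (a (l 16704984) (a (l 16701760) (c (c (a (l 16693776) (l 16687368)) (l 16691336)) (l 16691152))))))), by decide +kernel⟩

def k160_pm_102 : ∃ t, chk3 f_pm_102 t 125 141 2 = true :=
  ⟨(c (c (a (b (a (l 16643200) (l 16623304)) (l 16665272)) (b (l 16657528) (a (l 16659088) (l 16663024)))) (a (a (a (b (b (c (l 16635768) (l 16604440)) (c (l 16645368) (l 16633736))) (c (l 16662872) (l 16650232))) (c (l 16648912) (c (l 16643448) (l 16604168)))) (b (c (l 16640672) (l 16611944)) (l 16652832))) (b (c (l 16641608) (l 16657640)) (a (l 16633648) (l 16665896))))) (c (c (a (a (a (b (c (l 16650248) (a (l 16685168) (l 16677800))) (l 16654016)) (l 16623712)) (b (a (c (a (l 16631120) (l 16624856)) (l 16640968)) (c (l 16625824) (a (l 16627224) (l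 16624032)))) (a (l 16633904) (l 16619936)))) (b (l 16647728) (l 16616648))) (a (a (b (a (l 16682640) (l 16651416)) (l 16656056)) (b (a (c (l 16634672) (l 16643256)) (l 16624328)) (a (l 16636232) (l 16637664)))) (a (b (a (l 16614240) (l 16634976)) (a (c (l 16613184) (l 16644512)) (c (l 16632416) (l 16611216)))) (l 16645888)))) (a (b (a (l 16655944) (a (l 16665272) (a (l 16661424) (l 16639448)))) (l 16647008)) (a (c (a (b (c (l 16653976) (l 16661728)) (c (l 16637880) (l 16645608))) (a (b (l 16653216) (l 16630864)) (l 16646600))) (b (l 16663800) (a (l 16667336) (l 16663472)))) (c (a (c (l 16636688) (l 16645544)) (l 16622248)) (a (c (l 16659480) (l 16666472)) (c (l 16649776) (l 16663392)))))))), by decide +kernel⟩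

def k161_pm_102 : ∃ t, chk3 f_pm_102 t 248 71 2 = true :=
  ⟨(a (c (c (c (b (b (l 16636832) (l 16605808)) (c (l 16568952) (b (a (l 16596696) (l 16638608)) (l 16557616)))) (c (b (a (l 16611936) (c (l 16628032) (l 16600120))) (a (l 16595560) (l 16545824))) (b (l 16613560) (l 16577536)))) (b (l 16654344) (l 16597560))) (b (l 16611184) (b (l 16609912) (l 16581184)))) (c (c (b (c (a (l 16654384) (a (l 16668656) (l 16661968))) (c (l 16636392) (a (b (l 16644360) (l 16636144)) (l 16650064)))) (c (b (a (l 16628872) (c (l 16671408) (l 16640608))) (c (a (l 16607208) (a (l 16641184) (l 16664296))) (a (l 16631760) (l 16633696)))) (a (b (l 16594520) (a (l 16560536) (l 16591256))) (l 16580456)))) (b (c (c (a (l 16665496) (l 16635640)) (l 16647864)) (l 16668576)) (a (b (l 16622400) (l 16593416)) (c (c (b (l 16592312) (l 16565104)) (l 16573544)) (l 16573112))))) (b (l 16646768) (b (l 16602448) (b (l 16602480) (l 16588840)))))), by decide +kernel⟩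

def k162_pm_102 : ∃ t, chk3 f_pm_102 t 249 71 2 = true :=
  ⟨(a (c (c (b (c (a (a (l 16678328) (l 16676856)) (l 16674576)) (a (b (l 16681912) (l 16655408)) (c (b (l 16682256) (l 16685760)) (b (l 16669192) (l 16680184))))) (c (b (b (l 16681712) (l 16686592)) (l 16643440)) (a (b (l 16638104) (l 16630152)) (l 16617592)))) (b (c (a (c (l 16654248) (b (l 16677288) (l 16627048))) (l 16648576)) (a (l 16657360) (c (b (l 16662176) (l 16634624)) (l 16665376)))) (c (a (c (l 16599176) (b (l 16599680) (l 16612536))) (l 16633536)) (a (l 16601992) (l 16568752))))) (b (b (l 16674984) (l 16646768)) (b (l 16618704) (l 16609848)))) (c (c (b (a (b (b (l 16672304) (l 16685280)) (l 16704456)) (l 16667936)) (c (l 16657592) (l 16666048))) (a (b (c (b (l 16668080) (l 16677200)) (c (l 16646992) (b (l 16669936) (l 16661544)))) (c (l 16634304) (c (l 16630608) (l 16618408)))) (c (b (l 16664728) (l 16627640)) (l 16611104)))) (a (b (b (l 16687352) (l 16678672)) (l 16635120)) (c (c (b (l 16660648) (l 16602784)) (l 16629784)) (l 16608376))))),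 by decide +kernel⟩

def k163_pm_102 : ∃ t, chk3 f_pm_102 t 125 71 2 = true :=
  ⟨(c (c (b (a (a (l 16665016) (l 16660360)) (a (l 16651200) (b (l 16650928) (l 16671656)))) (a (b (l 16673936) (l 16644160)) (b (l 16660360) (l 16630264)))) (a (a (c (l 16636704) (a (c (l 16638872) (l 16625568)) (c (l 16649368) (l 16641672)))) (l 16627864)) (b (a (l 16663672) (b (l 16650424) (l 16689216))) (l 16656344)))) (a (a (c (c (a (b (l 16653768) (l 16595800)) (l 16602200)) (b (l 16649520) (l 16612216))) (l 16619216)) (c (c (a (b (l 16648448) (l 16635376)) (c (l 16635320) (l 16626240))) (a (c (l 16620864) (l 16613560)) (l 16612976))) (b (l 16673288) (l 16625456)))) (c (a (c (l 16629960) (a (b (l 16632328) (l 16646464)) (b (l 16640416) (l 16667160)))) (b (l 16643352) (l 16687128))) (a (c (a (c (l 16632704) (l 16624600)) (c (l 16630872) (l 16624016))) (b (l 16654584) (l 16639640))) (c (b (a (c (l 16611672) (l 16641456)) (b (l 16620968) (l 16658272))) (c (l 16656280) (l 16639376))) (a (b (c (l 16634344) (l 16641312)) (l 16634720))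 (b (c (l 16615480) (b (l 16641000) (l 16657352))) (l 16643048)))))))), by decide +kernel⟩

def k164_pm_102 : ∃ t, chk3 f_pm_102 t 252 17 2 = true :=
  ⟨(b (a (a (a (b (l 6) (b (l 6) (c (b (l 6) (b (l 6) (b (l 6) (c (l 16655920) (l 16689000))))) (c (l 16669888) (c (l 16676328) (l 16657536)))))) (l 6)) (l 6)) (l 6)) (b (c (c (b (c (a (b (c (b (c (a (l 16672408) (l 16662504)) (l 16654072)) (l 16651328)) (l 16674816)) (l 16670456)) (a (b (b (l 6) (c (l 16641888) (l 16679544))) (l 16656472)) (b (l 6) (c (b (l 16664696) (l 16679144)) (l 16681776))))) (l 16682416)) (l 16655384)) (b (c (l 16689576) (l 16673384)) (b (l 16665632) (l 16684128)))) (c (b (l 16647456) (l 16636200)) (a (c (l 16621192) (b (a (c (l 16658784) (l 16666096)) (l 16665464)) (a (c (l 16646872) (l 16654096)) (l 16654056)))) (b (l 16663728) (l 16653016))))) (c (b (c (b (l 16679024) (a (l 16661720) (l 16685096))) (l 16664176)) (b (c (a (l 16702704) (l 16671600)) (l 16675656)) (l 16647344))) (a (c (b (b (l 16667504) (l 16651720)) (l 16681680)) (b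 (c (l 16636560) (a (b (l 16647896) (a (l 16635984) (l 16630232))) (l 16629968))) (c (l 16668312) (c (l 16641536) (l 16623520))))) (b (l 16653704) (c (l 16654016) (l 16641848))))))), by decide +kernel⟩

def k165_pm_102 : ∃ t, chk3 f_pm_102 t 253 17 2 = true :=
  ⟨(b (l 6) (b (b (a (a (a (c (c (a (b (l 6) (b (l 6) (l 16665592))) (l 6)) (l 16701176)) (l 16678984)) (l 6)) (l 6)) (l 6)) (c (c (c (b (a (c (a (l 16680056) (l 16655240)) (l 16684360)) (a (c (l 16654544) (l 16689024)) (l 6))) (c (a (l 16680856) (c (l 16648328) (l 16667184))) (l 16688152))) (l 16694736)) (b (l 16682584) (l 16701776))) (a (l 16672936) (l 16704440)))) (c (c (b (l 16672576) (b (l 16695552) (a (l 16678488) (l 16697936)))) (b (l 16699336) (l 16678016))) (b (l 16651392) (a (b (l 16686424) (l 16670704)) (l 16696112)))))), by decide +kernel⟩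

def k166_pm_102 : ∃ t, chk3 f_pm_102 t 127 17 2 = true :=
  ⟨(b (l 6) (b (a (a (b (l 6) (b (l 6) (c (c (c (c (l 16655472) (l 16658448)) (l 16703256)) (l 16707664)) (l 16707480)))) (l 6)) (l 6)) (c (c (b (a (c (a (b (c (l 16656512) (l 16698640)) (l 16699448)) (b (c (l 16647664) (l 16678680)) (l 16652576))) (l 16699528)) (a (b (l 6) (c (c (l 16628712) (l 16659480)) (l 16680720))) (l 6))) (c (a (l 16692264) (b (c (a (l 16655880) (l 16609040)) (a (l 16677632) (l 16620096))) (c (a (l 16674032) (b (l 16637920) (l 16639272))) (l 16667104)))) (l 16678256))) (a (l 16692928) (l 16650616))) (a (a (l 16677288) (l 16666488)) (c (l 16650040) (l 16649504)))))), by decide +kernel⟩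

def k167_pm_102 : ∃ t, chk3 f_pm_102 t 62 68 3 = true :=
  ⟨(a (a (a (b (b (c (c (l 16747024) (l 16746984)) (c (l 16746944) (l 16746904))) (a (b (c (c (l 16744872) (l 16765792)) (c (l 16765744) (l 16765696))) (c (c (l 16744088) (l 16744040)) (c (l 16744000) (l 16743952)))) (b (c (c (b (l 16764488) (l 16742760)) (b (l 16764432) (l 16742704))) (c (b (l 16764384) (l 16742648)) (l 16763920))) (c (c (l 16743312) (l 16743272)) (c (l 16743224) (l 16743184)))))) (c (b (b (c (l 16731648) (l 16731512)) (l 16741488)) (l 16704688)) (b (b (c (l 16731368) (l 16731224)) (l 16741024)) (l 16703976)))) (b (b (a (b (l 6) (c (c (l 16764400) (l 16764344)) (c (l 16764296) (l 16764240)))) (l 6)) (b (c (b (c (l 16762224) (l 16762160)) (l 16761104)) (b (c (l 16762096) (l 16762032)) (l 16760968))) (c (l 16742664) (l 16742592)))) (b (c (l 16726032) (l 16725688)) (c (l 16726840) (l 16726176))))) (b (b (l 6) (b (l 6) (c (l 16738568) (l 16738472)))) (c (b (c (l 16726064) (l 16725920)) (l 16707664)) (b (c (l 16725776) (l 16725632)) (l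 16707088))))) (a (b (l 6) (b (l 6) (c (l 16710080) (l 16709608)))) (l 6))), by decide +kernel⟩

def k168_pm_102 : ∃ t, chk3 f_pm_102 t 62 69 3 = true :=
  ⟨(a (b (b (c (a (b (l 16712048) (l 16703152)) (l 16691112)) (a (c (l 16706808) (l 16706312)) (l 16695520))) (a (c (a (b (a (b (l 16696152) (l 16695576)) (l 16693920)) (c (l 16684344) (l 16673272))) (l 16692176)) (a (b (a (c (l 16695512) (l 16694920)) (l 16692720)) (a (l 16697376) (l 16688424))) (l 16690976))) (c (l 16697064) (l 16696000)))) (a (b (c (a (l 16700760) (b (a (l 16683800) (l 16681784)) (a (l 16687056) (l 16678680)))) (a (l 16699728) (b (a (l 16682464) (l 16680432)) (a (l 16685808) (l 16677296))))) (c (l 16680896) (l 16679944))) (c (b (l 16683384) (a (b (a (l 16674288) (l 16672696)) (l 16654032)) (l 16673312))) (b (l 16661136) (a (b (a (l 16672856) (l 16671256)) (l 16673608)) (l 16671912)))))) (b (a (c (b (l 16716704) (l 16703656)) (b (l 16695040) (l 16702768))) (a (a (a (c (l 16692216) (l 16691520)) (l 6)) (l 6)) (l 6))) (a (c (b (b (l 16694624)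 (l 16689704)) (a (l 16678280) (a (l 16682600) (l 16684144)))) (b (b (l 16693608) (l 16688616)) (a (l 16677000) (c (l 16682688) (l 16682112))))) (a (b (a (c (l 16696608) (l 16695672)) (l 16698688)) (l 16687832)) (c (c (l 16676840) (l 16697560)) (l 16696920)))))), by decide +kernel⟩

def k169_pm_102 : ∃ t, chk3 f_pm_102 t 63 34 3 = true :=
  ⟨(a (a (b (l 6) (b (l 6) (c (c (a (c (a (c (l 16673680) (l 16701136)) (l 6)) (l 16702424)) (l 6)) (l 16683680)) (l 16704200)))) (l 6)) (l 6)), by decide +kernel⟩

def k170_pm_102 : ∃ t, chk3 f_pm_102 t 31 140 3 = true :=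
  ⟨(a (a (c (b (a (l 16694176) (a (l 16684184) (b (l 16667520) (l 16669208)))) (a (l 16687400) (l 16668600))) (b (a (l 16693512) (a (l 16682992) (b (l 16666040) (l 16667784)))) (a (l 16687040) (l 16667568)))) (a (b (a (c (l 16647672) (l 16646256)) (a (c (l 16671720) (l 16670384)) (l 16674400))) (a (c (b (a (l 16662992) (l 16662040)) (a (l 16669288) (l 16661160))) (b (a (l 16661496) (l 16660544)) (a (l 16667928) (l 16659664)))) (l 16663928))) (c (a (l 16675128) (c (l 16681376) (l 16681024))) (l 16677080)))) (a (c (a (c (c (a (a (c (l 16679432) (l 16685832)) (c (l 16669984) (l 16682808))) (a (c (l 16668408) (l 16673960)) (l 16675688))) (a (l 16687448) (a (c (l 16686176) (l 16691984)) (c (l 16678032) (l 16689536))))) (l 16669384)) (a (a (a (c (c (l 16683032) (l 16659432)) (l 16675672)) (l 6)) (l 6)) (l 6))) (a (l 16689768) (l 16681560))) (l 6))), by decide +kernel⟩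

def k171_pm_102 : ∃ t, chk3 f_pm_102 t 31 141 3 = true :=
  ⟨(a (a (b (c (a (l 16686776) (b (l 16680856) (l 16690216))) (a (l 16686448) (b (l 16680072) (l 16689624)))) (c (a (l 16682056) (a (l 16704680) (a (l 16701424) (l 16690760)))) (a (l 16681288) (a (l 16704368) (a (l 16701080) (l 16690232)))))) (a (b (a (a (c (l 16660440) (l 16659336)) (l 16671520)) (c (l 16663584) (l 16662184))) (l 16646176)) (a (b (l 16662672) (c (l 16665968) (l 16664680))) (c (c (l 16647384) (l 16667920)) (l 16666992))))) (a (c (a (c (c (a (a (c (l 16667296) (l 16673624)) (c (l 16658504) (l 16671200))) (a (c (l 16657520) (l 16663000)) (l 16665296))) (a (l 16675488) (a (c (l 16675096) (l 16680832)) (c (l 16667592) (l 16658016))))) (l 16657912)) (c (a (c (l 16681432) (b (l 16656592) (l 16653184))) (l 16674344)) (a (c (a (c (l 16661904) (l 16688112)) (c (l 16677112) (l 16665792))) (l 16689912)) (c (a (l 16661448) (l 16689200)) (a (l 16671312) (c (l 16666168) (l 16671920))))))) (a (l 16678200) (l 16672240))) (a (a (a (a (c (c (l 16705152)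 (c (l 16697776) (l 16670288))) (c (l 16701392) (l 16701760))) (l 6)) (l 6)) (l 6)) (l 6)))), by decide +kernel⟩

def k172_pm_102 : ∃ t, chk3 f_pm_102 t 62 71 3 = true :=
  ⟨(b (a (a (c (b (l 16652640) (l 16644224)) (c (l 16636808) (l 16636040))) (a (c (b (l 16674160) (c (l 16645792) (l 16645128))) (b (l 16673328) (l 16644136))) (b (c (l 16669952) (l 16669456)) (l 16659800)))) (a (c (l 16676360) (l 16676040)) (a (l 16654240) (c (b (a (l 16671912) (l 16647480)) (l 16668720)) (l 16638720))))) (a (a (a (c (b (l 16607520) (l 16578296)) (l 16569312)) (c (b (l 16600336) (c (l 16593760) (l 16592456))) (b (l 16619152) (l 16569504)))) (b (a (c (l 16616920) (l 16636072)) (l 16650896)) (l 16571776))) (c (a (l 16637808) (c (l 16625216) (l 16645664))) (l 16609264)))), by decide +kernel⟩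

def k173_pm_102 : ∃ t, chk3 f_pm_102 t 63 71 3 = true :=
  ⟨(a (c (a (c (a (c (b (a (b (l 16665568) (c (l 16650064) (l 16677304))) (a (l 16621688) (l 16637352))) (a (l 16644952) (c (l 16642160) (l 16654696)))) (b (b (l 16671512) (l 16655856)) (l 16686464))) (c (b (a (l 16656960) (l 16660728)) (a (c (l 16650328) (l 16634784)) (l 16627752))) (b (a (l 16651320) (c (l 16663000) (l 16674288))) (a (a (l 16652384) (l 16645680)) (c (l 16630048) (l 16641256)))))) (b (a (l 16654176) (l 16677768)) (a (l 16686496) (l 16650576)))) (c (a (c (b (l 16676896) (l 16657032)) (b (l 16650376) (b (l 16647648) (a (l 16651488) (l 16670688))))) (l 16667952)) (a (c (a (b (l 16659056) (b (l 16677232) (l 16643144))) (c (b (l 16672672) (l 16649640)) (b (l 16682240) (l 16659120)))) (b (l 16685288) (l 16665416))) (c (b (l 16661640) (l 16678944)) (a (c (l 16684240) (l 16689000)) (c (l 16659952) (l 16665616))))))) (b (a (b (l 16674296) (l 16656328)) (l 16688680)) (a (b (l 16668320) (l 16680152)) (a (l 16665048) (l 16688824))))) (c (a (c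 (l 16673888) (a (a (c (l 16693760) (l 16687328)) (l 16698296)) (l 16669840))) (c (l 16648880) (l 16627256))) (a (c (a (c (c (a (l 16670024) (l 16691704)) (a (l 16696680) (l 16674560))) (l 16698568)) (c (c (l 16695256) (l 16653784)) (c (a (l 16679224) (l 16695104)) (a (l 16695464) (l 16692928))))) (l 16677608)) (c (a (b (l 16640472) (l 16632904)) (l 16642672)) (a (c (a (c (l 16685248) (l 16682336)) (c (l 16656144) (l 16677376))) (l 16678936)) (b (l 6) (c (a (l 16665040) (l 16657472)) (a (c (l 16643816) (l 16665104)) (c (l 16634632) (c (l 16635856) (l 16636096))))))))))), by decide +kernel⟩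

def k174_pm_102 : ∃ t, chk3 f_pm_102 t 6 18 1 = true :=
  ⟨(a (l 3) (a (l 3) (a (l 3) (a (l 3) (b (l 3) (b (l 3) (b (l 3) (c (b (c (a (l 3) (l 121500527799)) (l 262697587303)) (c (a (l 16731464) (l 16773688)) (l 16732672))) (c (c (l 16708384) (l 16729264)) (l 135995966935)))))))))), by decide +kernel⟩

def k175_pm_102 : ∃ t, chk3 f_pm_102 t 12 38 1 = true :=
  ⟨(l 3), by decide +kernel⟩

def k176_pm_102 : ∃ t, chk3 f_pm_102 t 13 76 1 = true :=
  ⟨(a (l 3) (b (b (a (l 3) (a (a (l 3) (c (a (b (l 3) (c (l 136532956151) (l 16775792))) (c (l 16775528) (l 16775504))) (c (a (l 16768984) (l 16775480)) (l 16774248)))) (c (c (c (l 16771240) (l 16771216)) (l 16750208)) (c (l 16771128) (l 16771072))))) (a (c (c (l 322827188631) (l 348060121495)) (c (l 374366796183) (l 16777208))) (c (a (a (c (l 16776144) (l 16776128)) (c (a (l 16773360) (l 16742296)) (a (l 16773296) (l 16763024)))) (c (l 16736744) (l 16757408))) (a (c (a (l 16776104) (l 16748120)) (a (l 16776088) (l 16768944))) (c (l 16757104) (l 16756784)))))) (a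 (c (c (a (l 338396449015) (b (l 16771752) (l 16776512))) (a (l 359334414583) (b (l 16776992) (l 16776504)))) (c (a (l 16777216) (l 142975416663)) (a (l 16777216) (l 16777176)))) (b (c (a (c (a (l 16776096) (l 16745192)) (a (l 16776080) (l 16745000))) (c (c (l 16723960) (l 16723696)) (a (l 16745120) (l 16743136)))) (a (c (l 16729160) (l 16770992)) (c (l 16722736) (l 16743152)))) (c (a (c (a (l 16775312) (l 16748456)) (l 16731968)) (c (a (c (l 16718952) (l 16739600)) (l 16731312)) (a (l 16718144) (l 16730552)))) (a (c (l 16752880) (l 16773800)) (c (l 16693120) (l 16713384)))))))), by decide +kernel⟩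

def k177_pm_102 : ∃ t, chk3 f_pm_102 t 13 77 1 = true :=
  ⟨(a (a (l 3) (c (b (c (l 302426094247) (l 308331674279)) (c (c (l 16776728) (l 16776720)) (c (l 16776720) (l 16776712)))) (b (c (l 312089770663) (l 413558373031)) (c (l 16776704) (l 16776696))))) (c (a (c (b (c (l 16775872) (l 16775856)) (l 16774616)) (b (c (l 16775848) (l 16775832)) (l 16774568))) (b (a (c (a (l 16774016) (l 16749312)) (a (l 16773960) (l 16770176))) (c (a (l 16715032) (c (l 16680288) (l 16690208))) (c (l 16682952) (l 16682512)))) (c (a (a (l 16772856) (l 16750016)) (b (l 16697768) (c (l 16699024) (l 16698528)))) (a (a (l 16772784) (l 16770888)) (b (l 16696752) (l 16697784)))))) (a (c (b (l 16775816) (l 16774520)) (b (l 16775792) (l 16774480))) (b (c (a (l 16753792) (a (l 16734560) (l 16688216))) (a (l 16774728) (l 16680920))) (c (a (l 16754560) (b (l 16716696) (l 16696776))) (a (l 16775520) (b (l 16715656) (l 16716728)))))))), by decide +kernel⟩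

def k178_pm_102 : ∃ t, chk3 f_pm_102 t 12 39 1 = true :=
  ⟨(a (l 3) (a (b (l 3) (b (l 3) (c (c (l 381882988711) (l 16777088)) (b (l 418390211927) (l 277730032727))))) (b (a (l 3) (b (l 3) (c (l 511268880055) (l 499994590567)))) (c (c (b (l 272361322983) (l 16776360)) (b (l 16776920) (l 16776344))) (c (b (l 16776912) (l 16776328)) (l 149417880311)))))), by decide +kernel⟩

def k179_pm_102 : ∃ t, chk3 f_pm_102 t 26 39 1 = true :=
  ⟨(c (b (a (c (b (a (l 3) (l 273435064903)) (c (l 16776568) (l 16776568))) (b (l 319605962599) (l 16776552))) (c (b (l 16775872) (l 16774880)) (b (l 16775848) (l 16774840)))) (b (c (c (l 16775008) (l 16774984)) (l 16764472)) (c (a (l 16775128) (a (l 16774176) (b (l 16772120) (l 16768440)))) (a (l 16775088) (a (l 16774128) (b (l 16772032) (l 16768288))))))) (b (a (c (b (l 313163511655) (l 16776544)) (b (l 16777088) (l 16776536))) (c (b (l 16775824) (l 16774800)) (b (l 16775800) (l 16774760)))) (b (c (l 16774920) (l 16774880)) (b (c (l 16772600) (l 16772520)) (a (l 16774920) (c (l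 16769184) (l 16769048))))))), by decide +kernel⟩

def k180_pm_102 : ∃ t, chk3 f_pm_102 t 27 39 1 = true :=
  ⟨(c (b (a (b (c (l 16773584) (l 16773528)) (c (b (l 16772520) (a (l 16773296) (l 16769840))) (b (l 16772440) (l 16770184)))) (a (a (b (c (l 16771688) (l 16771592)) (b (c (l 16769096) (l 16768952)) (l 16761080))) (b (c (b (l 16771576) (l 16752112)) (b (l 16771496) (l 16773040))) (l 16764016))) (b (b (c (a (l 16738296) (l 16706272)) (l 16700152)) (l 16706072)) (l 16695280)))) (a (a (b (c (b (l 16772288) (l 16769568)) (b (l 16772200) (l 16769432))) (b (c (l 16762920) (l 16762672)) (l 16749656))) (b (b (c (l 16764976) (l 16764760)) (l 16753864)) (l 16734704))) (a (c (a (l 16711280) (l 16707824)) (l 16687792)) (b (l 16711832) (l 16715160))))) (b (a (b (c (l 16773464) (l 16773392)) (c (b (l 16772352) (l 16770056)) (b (l 16772272) (l 16769936)))) (b (b (a (c (l 16775080) (l 16775064)) (c (l 16699200) (l 16719200))) (a (c (l 16752120) (l 16773040)) (l 16725360))) (a (a (c (l 16764928) (l 16764712)) (l 16763608))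 (l 16715032)))) (a (b (c (a (b (l 16772120) (l 16769296)) (l 16727448)) (a (l 16769344) (l 16758592))) (a (c (l 16734736) (l 16755336)) (l 16733208))) (a (b (l 16721024) (l 16714392)) (l 16687488))))), by decide +kernel⟩

def k181_pm_102 : ∃ t, chk3 f_pm_102 t 28 36 1 = true :=
  ⟨(a (l 3) (b (l 3) (b (b (l 3) (a (l 3) (a (l 3) (c (c (a (l 184851256455) (c (l 98415080919) (l 16741072))) (c (l 203641778727) (l 208473616535))) (c (l 214379196135) (l 16718416)))))) (b (a (l 3) (a (a (l 3) (c (c (c (l 108615618519) (l 16746240)) (l 125258614967)) (c (l 16766376) (l 16765896)))) (c (c (c (l 16751872) (l 16772816)) (b (l 16753240) (l 16750696))) (c (l 16772712) (l 16772648))))) (c (a (a (l 3) (c (c (l 182703756199) (l 133848501607)) (l 142438434183))) (c (a (c (l 16752992) (l 16752976)) (l 16746784)) (c (l 16749672) (l 16770600)))) (c (a (l 159081345063) (a (l 16773864) (l 16767528))) (a (l 16686648) (l 16770448)))))))), by decide +kernel⟩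

def k182_pm_102 : ∃ t, chk3 f_pm_102 t 58 72 2 = true :=
  ⟨(b (a (l 3) (a (a (l 3) (b (l 3) (b (l 3) (c (c (a (l 16744112) (l 99488856279)) (l 108615635287)) (c (l 16748760) (l 16748560)))))) (c (a (c (b (l 318532162935) (b (a (l 107005033831) (l 69960966007)) (l 16751040))) (b (l 321753386615) (b (b (l 109152516903) (l 16754272)) (l 16751000)))) (b (a (b (l 3) (c (b (l 16749440) (l 16775776)) (l 105931302231))) (b (c (b (l 3) (l 105931308935)) (l 109689383447)) (c (l 16752728) (l 16752696)))) (c (l 16746560) (l 16746480)))) (b (b (c (l 266455685895) (l 116668619159)) (a (l 168745144759) (c (l 59223530775) (l 16753552)))) (a (b (c (l 108078773191) (l 16753152)) (l 16750936)) (c (l 16746400) (l 16746320))))))) (a (a (l 3) (a (b (l 3) (c (b (l 173576992471) (c (l 16753792) (l 16753744))) (c (l 116131800855) (l 16723264)))) (c (b (c (l 321216528311) (l 326585236055)) (b (c (l 16757040) (l 16754400)) (l 16751128))) (b (c (l 176261310519) (l 16729568)) (c (l 16752480) (l 16773424)))))) (c (b (a (a (b (c (l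 109689369143) (l 113447464567)) (c (l 16764096) (l 16774560))) (c (b (l 16752504) (l 16769072)) (l 16760632))) (c (l 16751288) (l 16740680))) (a (c (l 16744872) (l 16744784)) (c (l 16754488) (l 16754320)))) (b (a (c (a (b (l 16744336) (l 16774536)) (l 16750096)) (a (l 111836848055) (l 16750048))) (c (l 16740560) (l 16740440))) (c (l 16738896) (l 16738760)))))), by decide +kernel⟩

def k183_pm_102 : ∃ t, chk3 f_pm_102 t 59 144 2 = true :=
  ⟨(a (c (a (b (b (a (c (a (b (l 103783831047) (l 16774296)) (l 16750736)) (a (l 61907897847) (l 16750688))) (c (l 16744368) (l 16765240))) (c (l 16750776) (l 16742808))) (c (a (l 16739288) (l 16731928)) (c (l 16735472) (l 16735392)))) (b (c (b (c (l 16731496) (l 16731392)) (l 16737184)) (b (l 16731240) (l 16726456))) (c (c (l 16731248) (l 16720624)) (b (l 16743256) (l 16739632))))) (b (a (a (b (c (l 61371025063) (l 16752136)) (l 16746736)) (c (l 16741320) (l 16741192))) (c (c (l 16728600) (l 16728488)) (l 16728312))) (c (a (l 16735264) (l 16720120)) (a (l 16735096) (l 16740808)))))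 (b (c (a (c (b (a (l 16739288) (l 16730392)) (l 16720568)) (b (l 16713512) (l 16730680))) (b (c (a (l 16721376) (a (l 16714552) (l 16709752))) (a (l 16720920) (l 16711616))) (a (c (l 16718336) (l 16717864)) (b (c (l 16710200) (l 16709656)) (a (l 16711032) (c (l 16706464) (l 16705888))))))) (a (c (b (l 16734136) (l 16730296)) (l 16710792)) (b (c (l 16705280) (l 16715264)) (c (a (l 16717384) (a (l 16710832) (l 16705800))) (a (l 16716896) (l 16707384)))))) (c (a (c (b (l 16727816) (l 16725088)) (b (l 16727424) (l 16724672))) (a (a (c (l 16716688) (l 16716208)) (b (l 16714680) (c (l 16711504) (l 16710984)))) (b (a (a (l 16709144) (c (l 16708392) (l 16707848))) (a (c (l 16706816) (l 16706256)) (c (l 16704448) (l 16703872)))) (a (c (l 16708408) (l 16707864)) (l 16703472))))) (a (c (l 16725584) (l 16725168)) (a (b (c (l 16714824) (l 16714328)) (c (a (l 16714680) (l 16710464)) (l 16711560))) (b (c (a (l 16708192) (b (l 16704816) (l 16703944))) (a (l 16707648) (l 16704072))) (a (c (l 16707320) (l 16706776)) (l 16702312)))))))),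 by decide +kernel⟩

def k184_pm_102 : ∃ t, chk3 f_pm_102 t 59 145 2 = true :=
  ⟨(a (c (b (c (a (l 16727800) (l 16735456)) (a (l 16727576) (l 16735136))) (c (a (l 16742864) (l 16730968)) (a (l 16742608) (l 16730624)))) (b (c (a (l 16748328) (l 16734808)) (a (l 16748104) (l 16734480))) (c (l 16720536) (l 16714992)))) (c (a (a (b (c (l 16725280) (l 16724880)) (c (b (l 16722104) (l 16721264)) (b (l 16721688) (l 16720856)))) (b (b (l 16719048) (a (l 16718832) (b (l 16715832) (l 16715568)))) (a (c (l 16707352) (l 16706912)) (l 16713768)))) (b (a (b (c (a (l 16713752) (l 16710608)) (a (l 16713264) (l 16710096))) (l 16710472)) (l 16703664)) (l 16705616))) (b (a (b (c (l 16721960) (l 16721528)) (a (l 16723280) (c (l 16716288) (l 16715824)))) (a (b (c (a (l 16712768) (l 16709576)) (l 16710840)) (l 16709448)) (l 16702528))) (a (a (b (c (l 16721264) (l 16720848)) (c (l 16720440) (l 16720024))) (a (c (l 16716952) (l 16716504)) (l 16712824))) (l 16704552))))), by decide +kernel⟩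

def k185_pm_102 : ∃ t, chk3 f_pm_102 t 29 73 2 = true :=
  ⟨(a (a (b (c (b (a (c (a (l 166060785207) (b (l 16750496) (l 16774256))) (a (l 175724460375) (l 98415092759))) (c (l 16748008) (l 16747944))) (c (a (l 16750272) (l 16762688)) (b (l 16747392) (l 16744472)))) (b (a (c (b (l 16728648) (l 16733128)) (l 118279266823)) (b (l 16749696) (l 16767088))) (c (l 16745776) (l 16745704)))) (c (c (b (l 16740608) (l 16736272)) (b (l 16740504) (l 16757120))) (c (b (l 16740400) (l 16757000)) (l 16737992)))) (b (c (c (b (b (l 16734360) (l 16731640)) (l 16728200)) (b (l 16732792) (l 16728000))) (c (b (l 16732624) (l 16748784)) (b (l 16732448) (l 16748584)))) (c (b (c (l 16745536) (l 16745328)) (a (l 16746408) (c (a (l 16740984) (l 16737264)) (l 16730520)))) (a (c (l 16747632) (l 16747448)) (b (l 16740912) (b (l 16738552) (l 16737848))))))) (a (c (b (a (b (c (l 16738496) (l 16738216)) (c (b (l 16736032) (l 16734088)) (l 16713304))) (b (c (a (l 16730416) (b (l 16725336) (l 16725008))) (b (l 16727376) (l 16716120))) (a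 (c (b (l 16728648) (l 16728192)) (l 16728304)) (l 16723232)))) (a (b (c (a (b (l 16735632) (l 16734664)) (l 16721232)) (a (l 16734608) (l 16731424))) (c (l 16732464) (l 16732200))) (l 16724608))) (b (a (b (c (l 16737936) (l 16737656)) (c (l 16733976) (l 16733680))) (b (a (c (l 16729744) (l 16729400)) (c (l 16713952) (l 16724064))) (a (c (l 16727976) (l 16727640)) (l 16722496)))) (a (b (c (l 16722208) (l 16711440)) (b (l 16731944) (l 16731216))) (l 16723952)))) (b (c (b (a (a (b (l 16720232) (l 16719048)) (l 16713792)) (l 16705152)) (a (l 16715864) (l 16705816))) (a (b (c (l 16716376) (l 16715944)) (l 16715024)) (a (l 16707136) (l 16701560)))) (c (a (l 16716760) (l 16708712)) (a (l 16716024) (l 16686904)))))), by decide +kernel⟩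

def k186_pm_102 : ∃ t, chk3 f_pm_102 t 29 72 3 = true :=
  ⟨(a (b (a (l 3) (a (b (l 3) (c (c (l 121500435831) (l 16703200)) (l 123647913079))) (c (b (a (l 178945643959) (c (l 110763091319) (l 16726752))) (c (a (l 16752264) (l 16746248)) (l 16748864))) (b (c (l 16691520) (l 16711912)) (a (l 16752176) (l 16746040)))))) (a (a (l 3) (c (b (l 195588607671) (c (l 113984310887) (l 16753152))) (b (l 16713816) (l 16732152)))) (c (b (a (c (b (l 16732520) (l 16771552)) (l 16730520)) (l 16740256)) (c (l 16738632) (l 16738496))) (b (a (l 50633556839) (l 16760976)) (l 16738296))))) (c (a (b (b (a (c (b (l 16747936) (l 16742472)) (l 16744912)) (c (l 16728088) (l 16748832))) (c (l 16727200) (l 16726968))) (c (b (l 16720000) (l 16735648)) (b (l 16719720) (l 16735344)))) (b (b (a (c (l 16731400) (l 16731024)) (c (b (l 16714760) (l 16695472)) (a (l 16717408) (l 16707696)))) (a (c (l 16724760) (l 16724344)) (a (c (b (l 16713824) (l 16711040)) (l 16711448)) (c (b (a (l 16707088) (l 16703496)) (l 16704192)) (b (l 16704624) (l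 16703624)))))) (b (a (b (l 16720880) (a (l 16722448) (c (l 16715352) (l 16714880)))) (a (b (c (l 16710328) (l 16709808)) (l 16708416)) (l 16701376))) (a (c (a (l 16711944) (l 16714664)) (a (l 16719376) (l 16714200))) (l 16703464))))) (a (b (b (c (l 16730888) (l 16735968)) (c (l 16726736) (l 16726496))) (c (b (l 16740408) (l 16735024)) (l 16716232))) (b (b (a (l 16709488) (c (l 16690336) (l 16710776))) (a (l 16723712) (c (a (l 16710928) (b (l 16704048) (l 16703048))) (a (l 16710408) (l 16703296))))) (b (a (c (l 16696928) (l 16717440)) (a (c (l 16709104) (l 16708584)) (l 16700208))) (a (c (a (l 16718944) (l 16713736)) (l 16715984)) (l 16702368))))))), by decide +kernel⟩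

def k187_pm_102 : ∃ t, chk3 f_pm_102 t 29 73 3 = true :=
  ⟨(a (a (b (c (b (a (c (l 16725648) (l 16746408)) (l 16747736)) (a (l 16750080) (l 16762232))) (b (a (l 16725104) (l 16768576)) (l 16745448))) (c (c (l 16737880) (l 16737760)) (c (l 16737648) (l 16737528)))) (b (c (c (b (l 16732280) (l 16748392)) (l 16729504)) (c (l 16729312) (l 16729128))) (c (b (l 16723632) (a (l 16745656) (c (l 16737664) (l 16737424)))) (b (l 16744176) (a (l 16745272) (l 16716088)))))) (c (a (b (b (a (l 16737224) (a (l 16728880) (c (l 16723680) (l 16723296)))) (a (c (l 16733384) (l 16733080)) (c (l 16714760) (l 16724888)))) (a (b (c (l 16732120) (l 16731832)) (c (l 16731392) (l 16731120))) (l 16723296))) (b (b (a (c (l 16715504) (l 16715064)) (l 16703072)) (l 16687992)) (a (l 16715264) (l 16707024)))) (a (b (a (b (l 16736648) (l 16711648)) (b (c (l 16724928) (l 16724552)) (a (l 16726448) (l 16720992)))) (a (b (c (l 16731536) (l 16731240)) (l 16730704)) (l 16722624))) (b (b (c (l 16687704) (l 16708184)) (l 16708040)) (l 16689304))))),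 by decide +kernel⟩

def k188_pm_102 : ∃ t, chk3 f_pm_102 t 56 37 1 = true :=
  ⟨(b (a (l 3) (c (a (b (l 3) (c (b (l 226727162055) (l 100562562615)) (b (l 16723112) (l 16754600)))) (b (c (l 377051059719) (l 349670576183)) (c (b (c (l 16754656) (l 16775616)) (l 16772592)) (b (l 16754624) (l 16772552))))) (b (c (l 372219196679) (l 288467151751)) (c (c (l 124721672167) (l 16711240)) (b (l 16738080) (l 16773840)))))) (c (b (b (a (a (l 3) (c (l 105394399639) (l 16732144))) (c (l 16749912) (l 16770832))) (c (a (c (l 16732568) (l 16753520)) (l 16746200)) (a (a (l 16752248) (l 16773424)) (l 16767096)))) (c (c (a (l 16748760) (l 16740704)) (b (l 16746368) (l 16742552))) (c (a (l 16769680) (l 16761568)) (l 16744416)))) (b (c (a (b (l 254644503015) (l 16753456)) (l 16747936)) (a (b (l 16740648) (l 16774392)) (l 16768840))) (c (c (l 16744376) (l 16744328)) (b (l 16746168) (l 16742280)))))), by decide +kernel⟩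

def k189_pm_102 : ∃ t, chk3 f_pm_102 t 57 37 1 = true :=
  ⟨(c (b (b (c (a (b (a (l 201494233543) (c (l 16753768) (l 16753752))) (a (c (l 16733328) (l 16775256)) (l 16749864))) (c (b (l 16745408) (l 16741424)) (l 16743280))) (a (b (a (l 226190291703) (l 52244191847)) (a (l 16733288) (l 16749800))) (b (l 16745256) (l 16741224)))) (c (c (a (l 16746392) (l 16736408)) (a (l 16767320) (l 16736320))) (c (a (l 16767280) (l 16736232)) (a (l 16767232) (l 16736136))))) (b (c (a (c (l 16739376) (l 16760288)) (b (c (l 16731712) (l 16752592)) (a (l 16752072) (c (l 16748224) (l 16748120))))) (a (b (l 16740912) (l 16737504)) (b (l 16731472) (c (l 16749600) (l 16749504))))) (c (a (b (l 16734160) (c (l 16751208) (l 16751120))) (b (c (a (l 16748936) (l 16747544)) (a (l 16748840) (l 16747472))) (c (l 16746968) (l 16746896)))) (a (b (l 16734008) (l 16750976)) (c (b (l 16748376) (l 16746824)) (b (l 16748296) (l 16746760))))))) (b (b (c (a (b (c (l 16702552) (l 16723288)) (l 16730776)) (b (l 16745128) (l 16741072))) (a (c (l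 16710280) (l 16731216)) (l 16742888))) (c (c (l 16740928) (l 16740856)) (c (l 16740784) (l 16761680)))) (b (c (a (c (l 16760096) (l 16760024)) (b (l 16731272) (a (l 16751696) (l 16747760)))) (a (l 16759928) (b (l 16752040) (l 16749136)))) (c (a (b (l 16754816) (l 16750784)) (b (c (l 16748208) (l 16748120)) (l 16725672))) (a (c (l 16752456) (l 16752360)) (c (l 16727272) (l 16748168))))))), by decide +kernel⟩

def k190_pm_102 : ∃ t, chk3 f_pm_102 t 58 37 1 = true :=
  ⟨(c (b (b (c (a (c (b (l 16753736) (l 16750816)) (l 16731120)) (b (a (c (l 16743464) (l 16743280)) (a (c (l 16739464) (l 16739256)) (l 16736128))) (a (c (a (l 16743288) (l 16741344)) (l 16742168)) (l 16737240)))) (a (c (l 16730984) (l 16730848)) (b (a (l 16722016) (a (l 16738944) (l 16735672))) (a (c (l 16741992) (l 16741808)) (l 16736848))))) (c (a (b (a (l 16750960) (c (a (l 16746792) (l 16744544)) (l 16745320))) (c (a (l 16748096) (l 16745008)) (a (l 16747968) (l 16744888)))) (b (c (l 16718936) (l 16739752)) (l 16740392))) (a (b (a (l 16750712)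 (l 16739848)) (c (l 16746344) (l 16746216))) (b (a (l 16741368) (l 16737464)) (l 16740144))))) (b (c (a (b (a (c (l 16747008) (l 16746896)) (l 16744608)) (l 16745896)) (l 16737072)) (a (b (a (l 16746728) (l 16744408)) (l 16745744)) (l 16715880))) (c (a (l 16733768) (l 16694616)) (a (l 16733464) (l 16694080))))) (b (b (c (a (c (l 16730704) (l 16751544)) (b (a (l 16742600) (a (l 16738520) (l 16735216))) (a (l 16731056) (l 16736448)))) (a (l 16730360) (c (b (l 16718416) (l 16739432)) (b (l 16718200) (l 16739248))))) (c (c (a (b (l 16747072) (l 16746088)) (l 16718704)) (a (b (l 16746920) (l 16745952)) (l 16739536))) (a (a (l 16727544) (b (l 16744480) (l 16744176))) (b (l 16717896) (l 16739632))))) (b (c (b (a (a (l 16746504) (l 16744200)) (l 16741656)) (l 16718480)) (a (c (l 16725072) (l 16724984)) (l 16736384))) (c (l 16682120) (l 16702664))))), by decide +kernel⟩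

def k191_pm_102 : ∃ t, chk3 f_pm_102 t 59 37 1 = true :=
  ⟨(c (b (c (a (b (c (l 16708424) (l 16729160)) (l 16733528)) (b (l 16697392) (l 16706080))) (b (a (l 16707824) (c (l 16696968) (l 16717656))) (a (l 16712272) (l 16705800)))) (c (b (a (l 16701520) (l 16686680)) (a (l 16676096) (l 16657248))) (b (a (l 16701136) (l 16686136)) (a (l 16675328) (l 16656248))))) (b (c (b (a (l 16707336) (l 16696248)) (a (l 16732960) (l 16705512))) (b (a (l 16727808) (l 16695656)) (a (l 16732664) (l 16726192)))) (c (b (a (l 16721720) (l 16685584)) (a (l 16695512) (l 16676192))) (b (a (l 16721320) (l 16705992)) (l 16643256))))), by decide +kernel⟩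

def k192_pm_102 : ∃ t, chk3 f_pm_102 t 60 72 4 = true :=
  ⟨(a (b (a (b (a (b (a (c (b (l 16701080) (l 16699640)) (l 16699648)) (a (c (b (l 16692648) (l 16691664)) (b (l 16691952) (l 16690960))) (b (c (b (l 16666208) (l 16665968)) (l 16686304)) (l 16685640)))) (a (c (b (a (l 16701296) (l 16696248)) (l 16698152)) (b (l 16698056) (l 16697520))) (l 16687000))) (a (b (a (c (l 16681136) (l 16680344)) (l 16674896)) (l 16675984)) (c (l 16666064) (l 16665152)))) (c (l 16658824) (l 16658048))) (b (a (c (b (l 16649936) (l 16648784)) (l 16648240)) (c (b (l 16627208) (l 16626528)) (l 16625560))) (c (a (l 16647744) (l 16626160)) (l 16612208)))) (a (b (c (l 16678344) (l 16677568)) (l 16656840)) (b (c (l 16616216) (l 16636072)) (c (l 16638664) (l 16637584))))) (b (a (b (a (b (c (a (l 16610064) (l 16597360)) (l 16602944)) (c (l 16604104) (l 16602672))) (b (c (a (b (l 16579960) (l 16585632)) (l 16583648)) (a (c (l 16588408) (l 16587624)) (l 16582048))) (c (a (l 16566312) (b (l 16579112) (l 16556240))) (a (l 16585712) (l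 16566264))))) (c (a (l 16604432) (b (l 16582184) (l 16583048))) (a (l 16603016) (l 16581000)))) (b (c (b (c (l 16571448) (l 16570608)) (l 16565400)) (b (l 16569336) (l 16563664))) (a (b (c (a (l 16557496) (l 16562448)) (l 16566248)) (c (a (l 16566808) (l 16537336)) (a (l 16565088) (l 16535552)))) (c (l 16553096) (l 16551272))))) (a (b (c (l 16574504) (l 16594016)) (c (l 16598624) (l 16597216))) (b (a (c (l 16563904) (l 16562184)) (c (b (l 16525960) (l 16545504)) (b (l 16545064) (l 16543640)))) (c (a (l 16568288) (l 16547928)) (l 16556360)))))), by decide +kernel⟩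

def k193_pm_102 : ∃ t, chk3 f_pm_102 t 60 72 5 = true :=
  ⟨(a (b (a (b (b (a (c (a (l 16699016) (b (l 16677640) (l 16687672))) (a (l 16698376) (b (l 16687392) (l 16686936)))) (c (l 16670936) (l 16670064))) (a (a (c (b (l 16697416) (l 16696872)) (l 16696624)) (l 16685528)) (l 16668696))) (c (l 16657256) (l 16677432))) (b (c (a (l 16647176) (l 16624304)) (l 16613584)) (c (l 16634648) (l 16633488)))) (a (b (c (l 16676784) (l 16676000)) (l 16655320)) (c (b (l 16634944) (l 16636496)) (l 16613472)))) (b (a (b (a (c (l 16601312) (l 16599864)) (c (b (a (l 16586448) (l 16580432)) (a (l 16584136) (l 16575096))) (b (l 16581992) (l 16578368)))) (c (a (l 16601600) (l 16579392)) (l 16588960))) (b (c (b (l 16567624) (l 16561912)) (l 16562968)) (a (c (b (l 16561880) (l 16559416)) (b (l 16560120) (l 16557640))) (l 16551136)))) (a (c (b (l 16592544) (l 16595792)) (b (l 16591056) (l 16594360))) (b (a (c (l 16560448) (l 16558696)) (c (b (l 16543184) (l 16541760)) (l 16541088))) (c (l 16554600) (l 16552832)))))), by decide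 +kernel⟩

def k194_pm_102 : ∃ t, chk3 f_pm_102 t 60 72 3 = true :=
  ⟨(a (b (b (c (a (a (c (b (a (l 16697736) (l 16686448)) (a (l 16695976) (l 16684408))) (b (l 16669920) (l 16690048))) (b (c (l 16669184) (l 16668296)) (l 16666920))) (c (l 16633384) (l 16632200))) (a (a (c (b (l 16690192) (l 16689344)) (l 16689144)) (c (l 16666960) (l 16666056))) (l 16630408))) (c (c (l 16612472) (l 16632456)) (l 16609984))) (c (c (b (l 16611928) (l 16633672)) (b (l 16631920) (l 16632720))) (c (l 16610216) (l 16630208)))) (b (c (a (b (a (l 16597656) (c (l 16558064) (l 16577408))) (c (l 16587424) (l 16585880))) (b (c (l 16561208) (l 16559440)) (a (c (l 16557608) (l 16555816)) (l 16544784)))) (a (b (a (l 16594680) (l 16574928)) (l 16583536)) (b (l 16556760) (l 16547472)))) (c (a (c (l 16591088) (l 16589608)) (b (a (l 16556048) (c (l 16539184) (l 16537264))) (l 16550152))) (a (l 16587360) (b (l 16544096) (l 16546528)))))), by decide +kernel⟩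

def k195_pm_102 : ∃ t, chk3 f_pm_102 t 60 73 1 = true :=
  ⟨(c (a (b (c (a (b (l 16657888) (l 16680976)) (c (l 16621936) (l 16620928))) (c (a (l 16657752) (l 16619912)) (b (l 16636536) (l 16639520)))) (c (a (l 16664952) (b (l 16648840) (l 16654160))) (c (b (l 16644240) (l 16648984)) (l 16624792)))) (c (b (a (b (c (l 16602800) (l 16601448)) (l 16586288)) (c (b (l 16563880) (l 16570544)) (b (l 16562216) (l 16568968)))) (a (b (l 16613232) (l 16619952)) (c (l 16581936) (l 16580504)))) (b (c (a (l 16581624) (l 16542880)) (a (l 16601264) (l 16562200))) (c (a (l 16614760) (l 16579064)) (a (l 16613592) (l 16577608)))))) (a (c (b (c (b (l 16635632) (l 16638672)) (l 16615168)) (c (l 16645016) (l 16644256))) (b (c (l 16635248) (l 16655328)) (l 16622144))) (c (b (c (a (l 16599920) (l 16560536)) (l 16557664)) (c (l 16573216) (l 16592856))) (b (c (l 16577104) (l 16575560)) (l 16569856))))), by decide +kernel⟩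

def k196_pm_102 : ∃ t, chk3 f_pm_102 t 122 36 2 = true :=
  ⟨(b (b (c (b (a (c (a (l 16553216) (l 16543096)) (a (l 16551392) (l 16541200))) (c (l 16527664) (l 16525656))) (a (c (l 16539384) (l 16537464)) (c (l 16520800) (l 16518752)))) (b (a (c (l 16544400) (l 16542512)) (c (l 16523640) (l 16521600))) (a (c (l 16535536) (l 16533584)) (c (l 16516696) (l 16514616))))) (c (a (b (c (l 16531760) (l 16529792)) (a (c (b (l 16510256) (l 16530720)) (b (l 16508288) (l 16528768))) (l 16499472))) (b (c (l 16514968) (l 16512888)) (l 16509016))) (a (b (c (l 16527816) (l 16525816)) (a (c (l 16527552) (l 16525560)) (l 16516360))) (c (l 16508208) (l 16506088))))) (b (c (a (b (a (l 16533512) (c (l 16518728) (l 16516704))) (c (l 16532792) (l 16530904))) (b (l 16504952) (a (c (l 16508288) (l 16506216)) (l 16498648)))) (a (b (a (l 16529672) (c (l 16514656) (l 16512600))) (l 16507080)) (b (l 16500696) (c (l 16500184) (l 16498056))))) (c (a (c (l 16546432) (l 16544712)) (b (a (l 16513352) (c (l 16500008) (l 16497904))) (l 16515216)))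 (a (c (l 16542984) (l 16541240)) (b (a (l 16509336) (l 16494720)) (l 16511320)))))), by decide +kernel⟩

def k197_pm_102 : ∃ t, chk3 f_pm_102 t 123 36 2 = true :=
  ⟨(b (a (b (c (a (b (a (l 16513640) (l 16514080)) (a (l 16507968) (l 16508904))) (b (l 16525056) (l 16520616))) (a (b (a (l 16509408) (l 16509880)) (a (l 16503680) (l 16504656))) (b (l 16521072) (l 16516608)))) (c (a (a (l 16490752) (l 16502864)) (l 16515616)) (a (a (l 16496904) (l 16498576)) (l 16511592)))) (c (b (c (a (l 16538712) (c (c (a (l 16551576) (l 16545520)) (l 16533424)) (l 16553344))) (l 16544472)) (a (b (l 16533664) (l 16531464)) (c (c (a (b (l 16548000) (l 16525624)) (c (b (l 16542936) (l 16562320)) (b (l 16555776) (l 16554192)))) (b (l 16549896) (l 16549488))) (b (l 16548640) (l 16548248))))) (b (b (l 16543440) (l 16540512)) (a (b (l 16529976) (l 16527776)) (b (l 16546104) (l 16545744)))))) (a (b (c (a (a (l 16474184) (l 16476648)) (b (l 16512384) (l 16510376))) (a (a (l 16469832) (l 16493336)) (b (l 16508368) (l 16506376)))) (c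 (a (b (c (l 16474000) (l 16471880)) (a (l 16494696) (c (l 16495816) (l 16493736)))) (b (c (l 16510536) (l 16508568)) (l 16507776))) (a (b (l 16489632) (a (l 16490472) (l 16490576))) (b (l 16505592) (l 16503832))))) (a (b (c (b (l 16530032) (l 16529192)) (b (l 16526368) (l 16525576))) (c (l 16524968) (l 16521352))) (c (c (c (a (l 16520232) (c (l 16557024) (l 16548896))) (l 16543720)) (l 16542488)) (l 16540000))))), by decide +kernel⟩

def k198_pm_102 : ∃ t, chk3 f_pm_102 t 61 36 3 = true :=
  ⟨(b (a (b (c (b (c (a (l 16540608) (l 16519552)) (l 16527984)) (a (l 16530632) (l 16511472))) (b (c (l 16525976) (l 16523952)) (l 16516824))) (c (a (b (l 16522792) (a (l 16522552) (l 16512208))) (c (l 16503952) (l 16501800))) (a (b (l 16518712) (l 16513664)) (l 16498536)))) (b (c (a (a (b (a (l 16505120) (l 16505616)) (l 16499832)) (b (l 16517040) (l 16512536))) (b (l 16539856) (l 16536920))) (a (b (a (l 16501024) (l 16512936)) (l 16501904)) (l 16513600))) (a (c (a (c (l 16494464) (l 16492256)) (l 16507496)) (a (l 16488912)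 (l 16503344))) (c (a (l 16525400) (b (l 16542680) (l 16542368))) (b (l 16529736) (l 16528824)))))) (a (c (b (a (b (a (l 16525776) (l 16509480)) (l 16524192)) (b (l 16496384) (l 16494824))) (a (l 16538592) (b (l 16498504) (l 16507352)))) (b (a (b (l 16514216) (l 16520280)) (l 16491576)) (a (l 16535024) (l 16499424)))) (a (b (c (a (l 16487688) (l 16503136)) (a (l 16483232) (l 16499000))) (c (a (a (l 16485216) (l 16465144)) (b (l 16501568) (l 16499832))) (a (b (l 16480864) (l 16481904)) (l 16496840)))) (a (b (c (b (l 16522656) (l 16521896)) (l 16518560)) (l 16515800)) (c (l 16536640) (l 16533224)))))), by decide +kernel⟩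

def k199_pm_102 : ∃ t, chk3 f_pm_102 t 60 37 1 = true :=
  ⟨(c (b (a (c (b (c (l 16637704) (l 16637128)) (c (l 16650992) (l 16650600))) (b (c (l 16636544) (l 16656936)) (c (l 16650216) (l 16649824)))) (a (c (b (l 16610296) (l 16627376)) (b (l 16608368) (l 16646864))) (c (b (c (l 16599360) (l 16598152)) (l 16597408)) (b (l 16575336) (l 16616424))))) (c (b (a (l 16666296) (c (l 16611728) (l 16632096))) (a (l 16639152) (c (l 16631864) (l 16631520)))) (b (a (l 16665952) (l 16610216)) (a (l 16659352) (c (l 16631184) (l 16630832)))))) (b (c (a (b (c (l 16656344) (l 16655752)) (l 16649224)) (b (c (l 16611072) (l 16609952)) (l 16587856))) (a (b (l 16654848) (l 16648416)) (b (l 16608248) (l 16628016)))) (c (b (a (l 16665592) (l 16629960)) (a (l 16658568) (l 16630304))) (b (c (l 16615312) (l 16614896)) (a (l 16678744) (l 16650560)))))), by decide +kernel⟩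

def k200_pm_102 : ∃ t, chk3 f_pm_102 t 61 37 1 = true :=
  ⟨(c (a (b (c (b (a (c (l 16566672) (l 16565200)) (b (l 16526528) (a (l 16547080) (l 16529880)))) (a (l 16556720) (a (b (l 16558576) (l 16570280)) (b (l 16541224) (l 16550384))))) (b (a (l 16542000) (b (l 16522896) (l 16513368))) (a (l 16585752) (a (l 16535120) (l 16522160))))) (c (b (a (c (l 16568488) (l 16588528)) (b (l 16569856) (l 16578840))) (a (a (l 16618952) (l 16621096)) (l 16592240))) (b (a (c (l 16587584) (l 16607608)) (l 16550968)) (a (l 16587424) (l 16590232))))) (b (a (b (a (c (b (a (l 16504936) (l 16479712)) (l 16512952)) (b (a (l 16500960) (l 16496648)) (l 16509192))) (c (l 16510896) (l 16507088))) (c (a (l 16527720) (l 16528576)) (l 16524768))) (c (a (b (l 16521608) (l 16532888)) (c (a (b (l 16533680) (l 16517216)) (c (b (c (l 16550616) (l 16542496)) (c (l 16530160) (l 16543024))) (l 16541824))) (b (l 16535880) (l 16539072)))) (b (l 16526144) (l 16533864)))) (c (a (b (l 16547856) (l 16567160)) (c (a (l 16564416) (c (a (l 16548312)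 (c (l 16558816) (l 16571776))) (l 16569400))) (l 16565840))) (a (b (l 16544968) (l 16564760)) (l 16564008))))) (b (a (c (b (a (l 16559960) (b (l 16519200) (l 16530920))) (a (l 16583280) (c (l 16549760) (l 16548240)))) (b (a (l 16556888) (l 16520656)) (a (l 16580768) (l 16545944)))) (a (a (b (b (c (l 16494888) (l 16490744)) (l 16503432)) (l 16519112)) (c (l 16512808) (l 16509104))) (c (b (l 16522672) (l 16530640)) (l 16504008)))) (a (c (b (a (l 16585192) (l 16569432)) (a (l 16607000) (l 16588184))) (b (l 16522888) (l 16585784))) (c (a (l 16552168) (l 16561520)) (l 16554176))))), by decide +kernel⟩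

def k201_pm_102 : ∃ t, chk3 f_pm_102 t 124 36 2 = true :=
  ⟨(b (c (a (a (b (c (c (a (b (l 16560720) (c (l 16587232) (l 16550680))) (l 16581856)) (a (b (l 16565880) (l 16563920)) (a (b (l 16551696) (l 16571888)) (c (l 16562256) (l 16553584))))) (b (l 16567216) (l 16566832))) (c (c (b (l 16547872) (l 16566752)) (a (l 16562040) (c (l 16575504) (l 16568816)))) (l 16564512))) (c (a (b (c (l 16583696) (b (c (l 16600768) (l 16565192)) (l 16591840))) (c (l 16621848) (l 16589544))) (c (c (l 16644400) (l 16637040)) (l 16612032))) (a (b (l 16558024) (l 16575232)) (c (b (l 16562784) (l 16586336)) (l 16583496))))) (c (a (c (l 16626248) (a (l 16613368) (c (l 16654296) (l 16648144)))) (l 16630472)) (a (c (a (c (l 16609160) (l 16574720)) (l 16623664)) (a (l 16590864) (c (l 16581168) (l 16598080)))) (c (a (l 16624704) (c (l 16664128) (l 16638344))) (a (c (l 16620936) (l 16587704)) (l 16635616)))))) (a (b (b (a (a (l 16562080) (l 16569120)) (l 16581136)) (a (l 16564528) (l 16579040))) (b (l 16570416) (l 16568464))) (a (l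 16593000) (a (l 16604176) (c (b (l 16593112) (l 16612744)) (l 16611096)))))) (c (a (c (a (c (b (l 16564016) (l 16560264)) (c (a (l 16556176) (l 16570224)) (l 16559512))) (c (a (l 16617016) (c (l 16638896) (l 16631544))) (a (l 16542792) (l 16606560)))) (a (l 16558448) (c (c (a (l 16571016) (l 16583888)) (l 16574584)) (l 16574080)))) (c (a (c (l 16642656) (a (l 16608512) (l 16624576))) (l 16648144)) (a (c (a (l 16556288) (l 16619472)) (a (l 16586072) (l 16575576))) (c (a (l 16621152) (l 16636384)) (c (l 16629368) (l 16573544)))))) (a (l 16564296) (c (a (l 16589192) (c (l 16585960) (l 16605048))) (l 16596136))))), by decide +kernel⟩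

def k202_pm_102 : ∃ t, chk3 f_pm_102 t 125 36 2 = true :=
  ⟨(a (c (c (b (l 16649656) (l 16648280)) (b (a (c (l 16666144) (a (l 16636160) (c (l 16673856) (l 16649520)))) (l 16669992)) (c (l 16642992) (a (a (l 16633920) (l 16648232)) (l 16674912))))) (c (a (b (c (a (c (l 16633120) (l 16622016)) (l 16626960)) (a (l 16619304) (l 16607048))) (c (a (l 16605344) (l 16625416)) (l 16622168))) (c (b (a (l 16626728) (l 16660320)) (a (l 16646808) (l 16681064))) (b (a (b (l 16621056) (l 16620728)) (l 16639632)) (a (l 16619888) (l 16639448))))) (b (b (l 16609520) (l 16609048)) (l 16587048)))) (c (b (c (l 16636992) (l 16648896)) (l 16624584)) (c (b (a (c (l 16684808) (a (l 16638312) (l 16670760))) (l 16688304)) (a (c (l 16685584) (a (l 16659768) (l 16690656))) (l 16688368))) (b (c (a (c (l 16629792) (a (l 16649600) (l 16644288))) (a (l 16649904) (l 16681104))) (a (l 16631440) (c (b (l 16642400) (l 16643648)) (a (l 16663792) (l 16657744))))) (c (a (c (l 16630664) (l 16638408)) (l 16640472)) (a (l 16653344) (a (l 16649912)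 (l 16643880)))))))), by decide +kernel⟩

def k203_pm_102 : ∃ t, chk3 f_pm_102 t 124 37 2 = true :=
  ⟨(c (a (c (a (b (c (b (l 16556392) (b (l 16553400) (l 16532920))) (c (a (l 16528288) (l 16542024)) (l 16531832))) (c (a (l 16547232) (l 16585272)) (c (a (l 16573872) (l 16561680)) (l 16574672)))) (a (b (c (l 16610176) (l 16556944)) (c (l 16582624) (c (l 16578280) (l 16542792)))) (b (c (l 16585632) (l 16600360)) (c (c (l 16600448) (l 16593160)) (l 16568280))))) (b (a (l 16551768) (a (l 16563656) (b (l 16554848) (l 16551624)))) (a (l 16573832) (c (b (a (l 16567896) (l 16554912)) (l 16572160)) (l 16580488))))) (c (b (a (c (l 16637352) (a (l 16602928) (l 16619616))) (l 16623144)) (a (c (b (l 16613736) (l 16647952)) (b (a (l 16600424) (l 16615912)) (l 16599352))) (b (l 16640728) (l 16625000)))) (a (b (c (a (l 16571704) (l 16614544)) (l 16544800)) (c (b (a (l 16569224) (l 16610872)) (l 16573168)) (b (l 16563216) (l 16597704)))) (b (c (a (l 16616856) (l 16632728)) (l 16556408)) (c (b (l 16598680) (c (l 16610240)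 (l 16622240))) (b (l 16595024) (l 16579424))))))) (b (a (b (l 16559104) (l 16556744)) (c (a (l 16584024) (l 16581344)) (l 16591664))) (a (b (l 16565536) (l 16586112)) (c (b (a (l 16581512) (l 16599032)) (l 16558784)) (l 16574944))))), by decide +kernel⟩

def k204_pm_102 : ∃ t, chk3 f_pm_102 t 125 37 2 = true :=
  ⟨(c (a (c (b (l 16625200) (l 16602352)) (b (a (c (l 16661496) (a (l 16630944) (l 16666880))) (l 16667992)) (a (c (l 16659208) (a (l 16607520) (l 16643168))) (l 16666000)))) (b (l 16625160) (a (l 16619216) (l 16630184)))) (a (c (a (b (c (l 16592800) (l 16619600)) (c (b (l 16590456) (l 16590400)) (l 16596464))) (c (b (l 16629208) (l 16621336)) (b (l 16608568) (l 16606680)))) (b (l 16606176) (l 16583592))) (a (c (c (l 16637000) (b (l 16629688) (l 16624008))) (c (b (c (l 16651760) (l 16638560)) (l 16593864)) (l 16611344))) (c (l 16604344) (b (c (l 16633144) (a (l 16672096) (l 16636096))) (c (l 16584552) (l 16573648))))))), by decide +kernel⟩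

def k205_pm_102 : ∃ t, chk3 f_pm_102 t 63 18 2 = true :=
  ⟨(a (b (a (c (b (l 16639800) (l 16662936)) (b (a (c (l 16688192) (c (l 16698360) (a (l 16657536) (l 16688768)))) (l 16641208)) (c (l 16653568) (a (c (l 16668360) (l 16623816)) (l 16636472))))) (b (c (b (l 16637512) (l 16670864)) (b (a (l 16689768) (l 16657136)) (l 16622440))) (c (l 16625904) (l 16577232)))) (c (b (b (l 16579024) (l 16563904)) (a (l 16583184) (l 16563728))) (a (c (b (l 16644704) (l 16594584)) (a (b (l 16597120) (l 16568512)) (l 16570344))) (b (l 16566456) (l 16556384))))) (b (a (b (b (c (l 16632944) (a (l 16630272) (l 16652280))) (a (l 16639488) (l 16601648))) (c (l 16604784) (l 16602616))) (a (b (b (l 16657856) (l 16592960)) (l 16571208)) (b (c (l 16566240) (l 16586600)) (c (l 16533040) (b (l 16562120) (l 16540336)))))) (a (b (c (l 16571704) (l 16569072)) (c (l 16539328) (l 16536248))) (c (b (l 16508216) (a (l 16504440) (l 16482472))) (a (l 16476128) (b (l 16513960) (l 16479288))))))), by decide +kernel⟩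

def k206_pm_102 : ∃ t, chk3 f_pm_102 t 62 18 3 = true :=
  ⟨(b (b (a (a (a (b (c (b (l 16540760) (l 16561424)) (b (l 16558536) (l 16558272))) (c (l 16559168) (l 16556048))) (b (b (c (l 16578312) (l 16575448)) (l 16574800)) (l 16572720))) (c (b (l 16599152) (l 16597416)) (l 16574736))) (c (a (b (l 16628808) (l 16628408)) (b (l 16637480) (l 16638464))) (b (l 16621024) (l 16642392)))) (c (a (b (l 16579248) (l 16576552)) (a (l 16627480) (l 16618632))) (a (l 16554336) (l 16621672)))) (a (b (c (b (l 16573712) (l 16571616)) (l 16549432)) (c (b (l 16556088) (l 16591352)) (b (l 16574816) (l 16589480)))) (c (b (c (l 16580984) (l 16622304)) (b (l 16601056) (l 16580288))) (b (l 16621504) (l 16600384))))), by decide +kernel⟩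

def k207_pm_102 : ∃ t, chk3 f_pm_102 t 126 18 3 = true :=
  ⟨(b (c (a (c (b (c (a (a (l 16640976) (c (l 16672264) (l 16671512))) (a (l 16641304) (l 16652784))) (a (l 16681544) (a (l 16655200) (c (l 16655080) (l 16666152))))) (c (a (a (l 16665352) (l 16625368)) (l 16607064)) (a (l 16685368) (c (l 16611832) (l 16641336))))) (b (l 16646776) (l 16675752))) (c (b (a (c (l 16669712) (c (l 16641696) (l 16621256))) (b (l 16627096) (l 16648376))) (c (l 16631904) (a (l 16611224) (l 16621208)))) (b (a (c (c (a (l 16656768) (l 16637952)) (l 16632808)) (l 16677952)) (c (a (b (l 16639104) (l 16642424)) (l 16604760)) (b (a (l 16627680) (b (c (l 16641568) (l 16647144)) (l 16628072))) (a (l 16651824) (l 16615424))))) (a (c (a (l 16647288) (l 16588120)) (l 16645376)) (c (l 16615360) (a (l 16627072) (l 16590408))))))) (b (b (a (l 16687088) (a (l 16685760) (l 16628432))) (l 16637088)) (l 16591960))) (c (a (c (a (c (b (b (l 16610400) (l 16595784)) (l 16574216)) (l 16620408)) (c (b (l 16597720) (l 16589072)) (b (a (l 16636736)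 (l 16597016)) (l 16553624)))) (l 16567488)) (c (b (b (l 16565912) (l 16571088)) (l 16526776)) (c (a (b (l 16563728) (l 16553848)) (l 16504128)) (a (l 16576984) (b (l 16564832) (l 16532952)))))) (b (l 16581296) (l 16529392)))), by decide +kernel⟩

def k208_pm_102 : ∃ t, chk3 f_pm_102 t 127 18 6 = true :=
  ⟨(a (b (b (a (b (a (c (l 16646336) (c (l 16639864) (l 16612424))) (l 16599648)) (c (l 16634688) (l 16607712))) (b (l 16627864) (l 16596592))) (c (l 16599360) (a (l 16582128) (l 16586040)))) (c (l 16485952) (b (l 16496832) (l 16484528)))) (a (b (b (b (l 16656856) (l 16611256)) (l 16567512)) (l 16493840)) (c (b (b (l 16585568) (l 16549344)) (l 16493624)) (b (b (l 16585304) (l 16527368)) (l 16492360))))), by decide +kernel⟩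

def k209_pm_102 : ∃ t, chk3 f_pm_102 t 127 18 7 = true :=
  ⟨(b (a (c (b (a (b (c (a (b (l 16628136) (l 16602504)) (c (l 16633216) (l 16615952))) (l 16664160)) (c (c (l 16602496) (l 16625952)) (l 16629656))) (c (b (l 16622880) (l 16591096)) (b (a (l 16619256) (l 16622624)) (a (l 16591184) (c (l 16604520) (l 16585144)))))) (a (c (a (l 16583288) (l 16592696)) (l 16603832)) (c (l 16581632) (c (l 16558216) (l 16580688))))) (b (b (l 16645392) (l 16622136)) (l 16592760))) (c (a (b (b (l 16633096) (a (l 16585032) (l 16606600))) (l 16563408)) (b (b (l 16642704) (l 16590920)) (a (l 16549328) (l 16541336)))) (a (a (b (b (l 16629152) (l 16562360)) (l 16565712)) (b (c (c (l 16576568) (b (l 16653712) (l 16582312))) (l 16608728)) (c (l 16536280) (l 16556032)))) (c (b (a (l 16601608) (l 16606432)) (a (l 16547160) (l 16540240))) (b (a (b (l 16618728) (l 16587032)) (a (c (l 16624976) (l 16604616)) (a (l 16584704) (c (l 16627528) (l 16576056))))) (a (l 16506000) (c (a (l 16539592) (l 16536400)) (a (l 16539968) (c (l 16516776)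 (l 16494184)))))))))) (a (c (a (c (b (l 16544848) (l 16511928)) (l 16553352)) (c (l 16488048) (b (l 16503816) (c (l 16510584) (l 16511896))))) (l 16478400)) (c (a (b (l 16527752) (l 16492832)) (a (l 16494440) (l 16463248))) (a (c (a (b (l 16529688) (l 16494856)) (c (l 16502032) (l 16438408))) (l 16507592)) (a (c (l 16471032) (b (l 16510624) (l 16432728))) (c (l 16461856) (c (a (l 16482800) (l 16478224)) (a (l 16441112) (c (a (l 16478168) (l 16475888)) (c (l 16415384) (l 16435616))))))))))), by decide +kernel⟩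

def k210_pm_102 : ∃ t, chk3 f_pm_102 t 28 76 1 = true :=
  ⟨(a (c (a (b (c (b (c (l 16763504) (l 16763456)) (l 16732072)) (b (l 16742408) (l 16752752))) (c (b (l 16722352) (c (l 16733096) (l 16732784))) (b (l 16742872) (l 16732304)))) (b (c (b (c (l 16734544) (l 16755432)) (c (l 16727400) (l 16748240))) (b (l 16734344) (l 16727064))) (c (b (c (a (l 16743264) (l 16743568)) (l 16743296)) (c (b (l 16740304) (l 16731968)) (l 16714984))) (b (c (l 16743136) (l 16742976)) (b (l 16739872) (l 16731328)))))) (b (c (b (c (l 16759048) (l 16758976)) (c (l 16749968) (l 16749824))) (b (c (l 16758904) (l 16758832)) (l 16749608))) (c (b (a (l 16742408) (l 16742736)) (a (l 16731656) (l 16714232))) (b (a (l 16741944) (l 16742408)) (a (l 16731008) (l 16734760)))))) (b (c (a (a (b (c (c (l 16728320) (l 16749192)) (l 16749040)) (c (c (l 16745848) (l 16745736)) (l 16745568))) (b (b (c (l 16747272) (l 16747080)) (c (b (l 16746712) (l 16746528)) (l 16746544))) (c (l 16746104) (l 16745960)))) (c (l 16734504) (l 16734192))) (a (b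 (c (b (l 16748264) (l 16726152)) (b (l 16748056) (l 16746920))) (c (a (l 16745344) (l 16745816)) (l 16724952))) (c (l 16733888) (l 16733568)))) (c (b (c (a (c (l 16722240) (l 16743128)) (l 16719792)) (a (a (l 16744920) (l 16737056)) (l 16719280))) (c (a (l 16720584) (l 16716464)) (l 16686928))) (b (a (c (l 16721840) (l 16742632)) (l 16697520)) (c (l 16686584) (l 16707208)))))), by decide +kernel⟩

def k211_pm_102 : ∃ t, chk3 f_pm_102 t 29 76 1 = true :=
  ⟨(c (a (b (c (a (l 16692184) (l 16691424)) (l 16659824)) (b (c (l 16663168) (l 16662152)) (c (a (l 16690936) (l 16664968)) (a (l 16690040) (l 16663696))))) (b (c (a (l 16669304) (l 16646800)) (a (l 16668112) (l 16645304))) (b (c (a (l 16647216) (l 16622168)) (l 16591272)) (c (a (l 16638544) (b (l 16611352) (l 16611904))) (a (l 16636888) (l 16609616)))))) (b (a (c (l 16659072) (l 16679272)) (c (a (l 16666896) (l 16643776)) (l 16633224))) (a (b (c (l 16682096) (l 16681040)) (c (l 16655016) (l 16653896))) (b (c (l 16631472) (l 16629704)) (c (a (l 16635200)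 (l 16607536)) (l 16619704)))))), by decide +kernel⟩

def k212_pm_102 : ∃ t, chk3 f_pm_102 t 14 77 1 = true :=
  ⟨(a (c (a (b (b (c (a (c (l 16715352) (l 16714864)) (a (l 16717560) (l 16721064))) (a (l 16714128) (l 16718352))) (a (c (c (l 16697656) (l 16697000)) (l 16696000)) (l 16703288))) (a (a (b (c (b (l 16683232) (l 16677168)) (l 16679144)) (l 16652240)) (l 16675184)) (c (l 16683000) (l 16681552)))) (c (b (l 16691720) (l 16677240)) (b (l 16701776) (l 16676352)))) (a (a (b (c (b (l 16713136) (l 16694664)) (b (l 16712120) (l 16693304))) (b (c (l 16657632) (l 16676952)) (l 16647128))) (b (a (c (l 16686928) (l 16706896)) (l 16711216)) (l 16679352))) (c (b (l 16701336) (l 16696424)) (l 16666200)))) (c (a (b (c (l 16646776) (l 16645960)) (c (l 16657016) (l 16656488))) (c (b (a (l 16644336) (l 16614208)) (l 16590280)) (a (l 16624736) (l 16592144)))) (a (c (b (l 16666104) (l 16676920)) (l 16629440)) (c (a (l 16644304) (l 16611208)) (l 16563400))))), by decide +kernel⟩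

def k213_pm_102 : ∃ t, chk3 f_pm_102 t 14 39 1 = true :=
  ⟨(a (c (a (b (a (b (c (a (l 16677920) (l 16657968)) (l 16646976)) (c (l 16677288) (l 16675664))) (b (l 16637288) (c (l 16623184) (l 16642040)))) (b (a (l 16674024) (c (l 16623704) (l 16642624))) (c (l 16646376) (l 16645184)))) (b (c (b (l 16656432) (l 16660176)) (b (l 16676152) (l 16658640))) (b (c (l 16646024) (l 16644280)) (a (c (l 16630784) (l 16628704)) (l 16642832))))) (a (b (a (c (b (l 16666120) (l 16674016)) (l 16627968)) (b (l 16654472) (c (l 16639896) (l 16637720)))) (b (c (l 16604576) (l 16623880)) (l 16622392))) (b (c (b (l 16674880) (l 16657088)) (l 16643232)) (b (l 16620632) (a (l 16625536) (l 16639560)))))) (a (c (b (b (a (l 16698064) (l 16665368)) (a (l 16683560) (l 16687240))) (c (a (l 16667304) (l 16662360)) (l 16613232))) (b (c (a (l 16689520) (l 16686264)) (l 16655464)) (c (l 16633512) (l 16632808)))) (b (c (a (b (l 16649464) (l 16647608)) (b (c (l 16614032) (l 16612272)) (a (l 16618200) (c (l 16609856) (l 16608136))))) (a (c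 (l 16647040) (l 16645832)) (b (l 16609568) (a (l 16614936) (l 16584520))))) (c (a (b (l 16623088) (a (l 16648512) (c (l 16618640) (l 16617560)))) (b (a (c (l 16603016) (l 16622568)) (l 16633256)) (l 16617336))) (a (b (l 16641792) (a (l 16646544) (c (l 16616456) (l 16615320)))) (b (a (b (l 16615152) (l 16622504)) (l 16630856)) (l 16637040))))))), by decide +kernel⟩

def k214_pm_102 : ∃ t, chk3 f_pm_102 t 30 19 2 = true :=
  ⟨(b (a (b (b (c (a (l 16624752) (a (l 16638664) (l 16631064))) (a (l 16623408) (a (l 16637760) (l 16651496)))) (b (c (a (l 16618336) (a (l 16631024) (l 16648504))) (a (l 16616544) (l 16596712))) (a (c (b (l 16606128) (l 16605488)) (l 16582888)) (a (b (c (l 16597840) (l 16617240)) (l 16618352)) (b (l 16617568) (l 16641120)))))) (a (b (c (a (l 16602472) (l 16609568)) (l 16605128)) (a (l 16601024) (b (l 16611424) (l 16619248)))) (b (c (b (l 16613960) (l 16622568)) (l 16595888)) (l 16595936)))) (b (a (b (c (l 16586248) (l 16585016)) (b (c (l 16598624) (l 16618696)) (c (l 16588816) (l 16598472))))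 (c (b (a (l 16586056) (c (c (a (l 16594560) (c (l 16585648) (l 16601192))) (l 16597296)) (l 16596672))) (b (a (l 16599968) (c (c (a (l 16609112) (l 16599160)) (l 16612200)) (l 16611720))) (a (b (l 16604368) (l 16596160)) (c (a (l 16609072) (c (b (b (l 16584248) (l 16602432)) (l 16594432)) (l 16615664))) (l 16611816))))) (b (l 16589744) (b (l 16604544) (b (l 16588232) (l 16600344)))))) (a (b (c (l 16575200) (l 16573944)) (c (l 16538104) (l 16557160))) (c (a (b (l 16571624) (l 16528912)) (a (l 16534352) (c (c (b (l 16545792) (l 16519520)) (l 16559760)) (l 16558952)))) (b (l 16574032) (l 16528584)))))) (a (b (b (a (a (b (l 16602688) (l 16609912)) (l 16636312)) (l 16565888)) (a (l 16605120) (l 16546448))) (a (a (l 16582480) (l 16532744)) (b (l 16522568) (l 16494576)))) (a (b (c (l 16411072) (l 16449920)) (b (l 16441096) (l 16387712))) (b (c (a (l 16415584) (c (b (l 16444696) (l 16433712)) (l 16456328))) (l 16390440)) (c (a (l 16350856) (b (l 16333880) (l 16317192))) (l 16341960)))))), by decide +kernel⟩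

def k215_pm_102 : ∃ t, chk3 f_pm_102 t 30 19 3 = true :=
  ⟨(b (b (a (b (c (a (l 16643016) (l 16624216)) (a (l 16641632) (l 16623488))) (b (c (a (l 16614736) (l 16616512)) (a (l 16612888) (l 16615328))) (c (a (l 16601856) (a (l 16616136) (l 16638216))) (a (l 16599816) (l 16583656))))) (a (b (l 16562128) (b (l 16596320) (l 16576200))) (b (c (l 16587904) (l 16586016)) (b (l 16602328) (c (l 16582424) (l 16580968)))))) (b (a (a (c (l 16603208) (l 16601264)) (c (l 16615792) (l 16614704))) (a (l 16572008) (l 16550112))) (a (a (c (l 16586304) (l 16584512)) (l 16615744)) (a (l 16554208) (l 16524400))))) (a (b (a (b (a (l 16582488) (l 16634112)) (l 16624360)) (l 16501200)) (a (l 16512968) (l 16429072))) (a (b (l 16403232) (l 16320656)) (b (b (l 16473832) (l 16419768)) (b (l 16362504) (l 16302304)))))), by decide +kernel⟩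

def k216_pm_102 : ∃ t, chk3 f_pm_102 t 124 76 2 = true :=
  ⟨(c (a (c (b (c (a (l 16588016) (l 16619320)) (a (l 16589104) (l 16591896))) (b (c (a (l 16624600) (l 16592224)) (a (l 16604808) (l 16629120))) (c (a (b (l 16608424) (l 16619496)) (a (l 16590256) (c (l 16596416) (l 16601864)))) (a (c (a (l 16600200) (l 16609704)) (l 16601504)) (b (l 16603168) (l 16623616)))))) (b (l 16568736) (b (l 16584864) (a (l 16622024) (b (l 16593752) (l 16625160)))))) (c (b (a (c (l 16650968) (l 16613968)) (l 16629976)) (b (a (c (l 16623520) (l 16586360)) (l 16623000)) (a (c (l 16591280) (a (l 16584200) (b (l 16590440) (l 16620048)))) (b (l 16591688) (l 16621664))))) (b (c (a (l 16596040) (l 16608520)) (a (l 16620704) (l 16600432))) (b (c (a (l 16627520) (l 16601368)) (a (l 16637712) (l 16620312))) (c (a (l 16579376) (b (l 16575248) (l 16600056))) (a (l 16616392) (l 16572376))))))) (b (c (l 16573632) (l 16614464)) (b (l 16590144) (c (a (l 16624920) (l 16597344)) (l 16631296))))), by decide +kernel⟩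

def k217_pm_102 : ∃ t, chk3 f_pm_102 t 125 76 2 = true :=
  ⟨(c (b (a (c (l 16633584) (a (c (l 16642112) (l 16602976)) (l 16639616))) (c (l 16620872) (l 16631520))) (b (a (c (l 16628968) (c (l 16615856) (l 16572512))) (c (l 16625560) (l 16615192))) (c (a (l 16602376) (l 16581080)) (a (c (l 16589312) (a (a (l 16592712) (l 16583608)) (l 16603280))) (l 16591728))))) (a (c (b (a (c (l 16626072) (l 16632048)) (c (l 16594640) (l 16610760))) (b (c (a (l 16612840) (l 16589232)) (l 16592184)) (c (a (l 16586080) (l 16562776)) (a (l 16639456) (l 16578560))))) (b (l 16636336) (b (l 16641296) (l 16635520)))) (c (b (a (c (l 16623480) (l 16602736)) (l 16612232)) (b (a (l 16584640) (l 16599688)) (a (c (l 16598640) (l 16556832)) (l 16598752)))) (b (a (c (l 16593312) (l 16648080)) (c (l 16606232) (l 16595112))) (b (a (c (l 16594424) (l 16628048)) (c (l 16593664) (l 16592912))) (c (a (l 16547168) (l 16571792)) (a (l 16622656) (l 16539536)))))))), by decide +kernel⟩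

def k218_pm_102 : ∃ t, chk3 f_pm_102 t 62 77 2 = true :=
  ⟨(a (c (a (c (c (a (c (l 16531960) (l 16495008)) (a (l 16549392) (l 16560312))) (a (b (l 16549568) (l 16542064)) (l 16483792))) (b (l 16549496) (l 16519672))) (a (c (c (l 16560328) (b (l 16601056) (l 16547568))) (c (l 16506440) (b (l 16578592) (l 16545584)))) (c (l 16554040) (c (b (l 16602520) (l 16546712)) (l 16508312))))) (a (l 16542624) (c (l 16489088) (l 16550376)))) (c (c (a (l 16515368) (l 16523328)) (a (a (c (l 16579160) (l 16533176)) (l 16551320)) (l 16514064))) (c (c (a (a (l 16510368) (l 16554304)) (l 16569704)) (a (c (l 16487056) (l 16500408)) (l 16530968))) (a (l 16516824) (a (c (l 16518320) (l 16564584)) (c (l 16554280) (l 16520296))))))), by decide +kernel⟩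

def k219_pm_102 : ∃ t, chk3 f_pm_102 t 62 39 2 = true :=
  ⟨(a (c (b (a (c (a (c (l 16440608) (l 16399112)) (c (l 16424168) (l 16417048))) (a (l 16457256) (l 16396480))) (c (a (c (l 16490480) (l 16420352)) (l 16459296)) (c (a (l 16435552) (l 16437400)) (a (l 16459520) (l 16433200))))) (c (a (c (a (l 16367208) (l 16368976)) (a (l 16346136) (l 16361296))) (a (c (l 16390544) (l 16361792)) (l 16377192))) (a (l 16298704) (c (a (l 16355448) (l 16375400)) (a (l 16336896) (l 16349640)))))) (b (a (l 16454480) (l 16392824)) (c (l 16313320) (l 16330672)))) (a (c (b (c (l 16435984) (a (c (l 16500840) (l 16454304)) (l 16489888))) (c (l 16349536) (b (l 16373008) (l 16327656)))) (c (c (b (a (l 16430936) (l 16450080)) (a (l 16343864) (l 16360040))) (b (l 16361072) (l 16292888))) (b (l 16455040) (l 16323016)))) (c (b (b (l 16496848) (l 16430640)) (l 16224056)) (c (b (a (l 16423320) (l 16477424)) (a (l 16329960) (l 16339072))) (b (c (a (l 16409024) (l 16482968)) (a (l 16454696) (l 16427392))) (c (a (l 16335696) (l 16343656))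 (l 16244576))))))), by decide +kernel⟩

def k220_pm_102 : ∃ t, chk3 f_pm_102 t 63 19 2 = true :=
  ⟨(a (b (b (c (b (a (l 16603800) (l 16562112)) (b (l 16529776) (a (b (l 16550088) (l 16588064)) (b (l 16529096) (l 16569944))))) (b (c (l 16532384) (a (a (l 16589456) (l 16575736)) (l 16551728))) (a (b (c (l 16583616) (l 16534656)) (c (l 16548584) (a (l 16532744) (l 16573944)))) (b (l 16543312) (l 16489648))))) (c (a (b (l 16561232) (l 16554472)) (b (l 16560704) (l 16517368))) (a (c (l 16515520) (c (l 16546832) (l 16509736))) (b (l 16554576) (l 16522104))))) (a (c (b (l 16409016) (l 16309928)) (c (b (l 16458688) (l 16315680)) (a (b (l 16454576) (l 16332800)) (l 16245040)))) (c (b (l 16405928) (l 16300584)) (b (l 16429584) (l 16300528))))) (b (b (b (c (a (l 16515528) (l 16449664)) (c (l 16471936) (l 16428800))) (a (b (l 16501912) (c (l 16471472) (l 16510064))) (c (b (l 16458360) (c (l 16447056) (l 16466336))) (b (l 16434616) (c (l 16464712) (l 16463216)))))) (a (c (l 16501992) (l 16500904)) (a (l 16471128) (c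 (l 16473680) (l 16472696))))) (a (c (b (l 16388392) (l 16296232)) (b (l 16426880) (l 16289896))) (b (c (a (l 16394912) (l 16359240)) (c (l 16374144) (l 16392824))) (c (a (l 16293296) (l 16289192)) (l 16175456)))))), by decide +kernel⟩

def k221_pm_102 : ∃ t, chk3 f_pm_102 t 62 19 3 = true :=
  ⟨(a (b (b (b (l 16591848) (b (l 16609448) (c (l 16630656) (l 16608808)))) (c (l 16523736) (l 16500720))) (b (b (l 16478832) (l 16418208)) (l 16322672))) (b (b (b (c (l 16588008) (l 16587304)) (b (c (l 16609528) (l 16608728)) (c (l 16584656) (l 16583824)))) (c (l 16498296) (l 16517456))) (b (c (l 16409864) (l 16447608)) (c (l 16314880) (l 16308144))))), by decide +kernel⟩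

def k222_pm_102 : ∃ t, chk3 f_pm_102 t 126 19 3 = true :=
  ⟨(b (b (c (a (c (b (a (c (l 16573992) (l 16605376)) (c (l 16567328) (l 16573648))) (b (a (l 16543584) (l 16518528)) (a (c (l 16527704) (l 16600896)) (c (l 16544688) (a (l 16583328) (l 16543224)))))) (b (l 16593704) (b (l 16582960) (l 16569144)))) (c (b (l 16545792) (b (l 16534496) (l 16481024))) (b (c (a (l 16552160) (l 16527944)) (l 16501784)) (b (c (a (l 16541000) (l 16516464)) (l 16511368)) (a (c (l 16487480) (l 16557736)) (c (l 16526176) (a (l 16537776) (l 16500224)))))))) (b (l 16548624) (b (l 16537440) (a (l 16547032) (l 16502896))))) (c (a (c (a (c (l 16522160) (l 16571288)) (a (l 16485056) (l 16489896))) (l 16532024)) (c (b (l 16546968) (l 16529424)) (a (b (c (l 16552512) (l 16623024)) (l 16507616)) (c (l 16523424) (b (l 16534888) (l 16512240)))))) (a (l 16509944) (b (l 16549464) (l 16543192))))) (c (b (a (c (a (l 16338704) (c (l 16472896) (l 16421504))) (l 16450328)) (c (l 16393400) (a (l 16332264) (c (l 16461504) (l 16414568))))) (a (c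 (a (l 16236576) (l 16194176)) (l 16303320)) (c (l 16304200) (a (l 16222336) (c (l 16306696) (l 16300992)))))) (b (l 16363080) (l 16273672)))), by decide +kernel⟩

def k223_pm_102 : ∃ t, chk3 f_pm_102 t 254 38 3 = true :=
  ⟨(b (c (b (c (l 16508016) (l 16502008)) (b (c (l 16496008) (l 16489952)) (c (l 16506024) (a (l 16489784) (l 16490976))))) (c (a (b (c (l 16508704) (l 16512504)) (b (l 16455528) (c (c (l 16463472) (l 16486544)) (l 16510624)))) (b (c (l 16488216) (l 16465808)) (b (c (l 16475936) (l 16453480)) (c (l 16486320) (c (a (l 16489560) (l 16477056)) (l 16443064)))))) (b (l 16499696) (b (l 16487464) (l 16476856))))) (c (a (b (l 16520264) (l 16494600)) (l 16530152)) (c (c (a (b (l 16515368) (l 16498536)) (l 16504504)) (a (l 16545608) (c (l 16481448) (l 16482960)))) (l 16493944)))), by decide +kernel⟩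

def k224_pm_102 : ∃ t, chk3 f_pm_102 t 255 38 3 = true :=
  ⟨(c (b (a (b (l 16472168) (b (l 16459616) (l 16470144))) (b (l 16409240) (b (l 16396512) (c (l 16448016) (l 16446616))))) (a (l 16511008) (a (l 16515928) (l 16465336)))) (c (c (b (b (l 16459704) (b (l 16446960) (l 16415928))) (l 16439368)) (b (a (b (l 16465632) (b (l 16452952) (l 16442728))) (b (l 16445832) (b (l 16432856) (l 16443960)))) (a (l 16485744) (l 16469544)))) (b (a (b (c (a (l 16469248) (l 16417904)) (l 16464176)) (b (c (a (l 16456624) (l 16426048)) (l 16451400)) (c (a (b (l 16455720) (l 16478984)) (c (l 16456616) (b (l 16444032) (l 16467648)))) (l 16462264)))) (a (b (c (l 16447864) (l 16448216)) (b (c (l 16434872) (l 16435168)) (c (l 16445904) (c (b (b (l 16429032) (l 16437344)) (l 16457192)) (l 16444328))))) (c (b (l 16438216) (b (l 16425120) (c (l 16435416) (l 16435184)))) (a (b (c (l 16438104) (l 16438264)) (b (c (l 16424944) (l 16425072)) (c (l 16436144) (b (l 16424136) (l 16448440))))) (c (b (l 16433272) (b (l 16420056) (l 16431352)))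 (b (a (l 16433504) (c (l 16430784) (l 16431392))) (b (a (l 16420248) (c (l 16417504) (l 16418144))) (a (b (l 16419312) (l 16443736)) (c (l 16428832) (b (b (c (l 16413648) (l 16412136)) (l 16421480)) (l 16441760))))))))))) (a (c (a (l 16468232) (a (l 16463184) (l 16457272))) (l 16506496)) (a (c (l 16471040) (a (l 16472384) (l 16448080))) (c (l 16463336) (a (c (l 16483976) (l 16463464)) (a (l 16438440) (c (l 16478208) (c (l 16478032) (l 16436896))))))))))), by decide +kernel⟩

def k225_pm_102 : ∃ t, chk3 f_pm_102 t 127 39 3 = true :=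
  ⟨(a (c (b (a (l 16345272) (l 16426640)) (c (l 16286968) (l 16268048))) (c (b (a (c (l 16368712) (l 16445936)) (c (l 16408384) (a (l 16408216) (l 16367632)))) (a (l 16206872) (c (l 16285608) (l 16242640)))) (b (l 16403560) (l 16280920)))) (c (b (a (l 16429464) (c (l 16436784) (l 16392304))) (a (l 16279744) (l 16188984))) (c (a (b (l 16345360) (l 16277176)) (b (a (l 16431816) (l 16371608)) (c (l 16270960) (l 16268560)))) (a (b (c (a (l 16365768) (c (l 16409448) (l 16367376))) (l 16406536)) (c (a (l 16278504) (l 16231480)) (l 16273464))) (c (a (b (l 16389800) (l 16271456)) (b (l 16370232) (l 16266520))) (b (a (b (l 16459888) (l 16376336)) (a (c (l 16412720) (l 16369440)) (a (l 16329640) (a (l 16393576) (c (l 16436320) (c (l 16435976) (l 16350616))))))) (a (l 16246968) (a (l 16225064) (c (l 16266016) (c (l 16262304) (l 16243600))))))))))), by decide +kernel⟩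

def k226_pm_102 : ∃ t, chk3 f_pm_102 t 4 5 1 = true :=
  ⟨(b (b (b (l 3) (l 2)) (l 2)) (l 2)), by decide +kernel⟩

def k227_pm_102 : ∃ t, chk3 f_pm_102 t 20 5 1 = true :=
  ⟨(b (b (b (l 3) (b (l 3) (a (l 2) (b (b (l 3) (c (a (l 2) (b (l 1260740673495) (l 16777208))) (c (l 16777208) (l 16777208)))) (a (l 2) (b (c (b (a (l 16777200) (l 16777200)) (c (l 16777208) (l 16777208))) (b (l 16777200) (c (l 16777208) (l 16777208)))) (a (l 2) (b (c (b (b (l 16777216) (b (l 16777216) (b (b (l 16777216) (c (l 16777216) (l 16777216))) (l 16777216)))) (l 16777216)) (b (b (l 16777216) (b (l 16777216) (b (b (l 16777216) (l 16777216)) (l 16777216)))) (l 16777216))) (c (l 16777216) (l 16777216)))))))))) (c (c (l 16777216) (l 16777216)) (c (l 16777216) (l 16777216)))) (l 2)), by decide +kernel⟩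

def k228_pm_102 : ∃ t, chk3 f_pm_102 t 21 5 1 = true :=
  ⟨(b (b (b (l 3) (b (a (l 3) (b (l 3) (c (b (l 3) (c (l 866677423943) (l 16777208))) (c (l 890836614823) (l 832317685415))))) (c (b (b (c (a (l 991768346455) (l 16777168)) (c (l 16777184) (l 16777184))) (c (c (l 16777168) (l 16777168)) (c (l 16777168) (l 16777168)))) (b (b (c (l 16777184) (l 16777184)) (b (c (l 16777200) (l 16777200)) (c (l 16777216) (l 16777216)))) (b (b (b (c (l 16777216) (l 16777216)) (b (c (a (l 16777216) (a (l 16777216) (l 16774376))) (c (l 16774352) (l 16774328))) (a (b (b (c (l 16777216) (l 16777216)) (c (l 16777216) (l 16777216))) (l 16777216)) (b (b (c (l 16772672) (l 16772592)) (a (c (c (l 16775216) (l 16775200)) (a (l 16776848) (l 16774440))) (l 16764360))) (l 16769040))))) (a (l 16777216) (l 16769200))) (a (l 16777216) (l 16769632))))) (c (b (b (c (l 16777184) (l 16777184)) (l 16777168)) (b (b (l 16777184) (a (l 16777208) (l 16777208))) (b (b (b (l 16777216) (b (a (l 16777216) (l 16774432)) (b (b (a (l 16777216) (l 16772512))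 (a (l 16777216) (a (l 16775136) (l 16764016)))) (l 16771968)))) (l 16772008)) (l 16772160)))) (b (b (l 16777184) (l 16777168)) (b (b (l 16777184) (a (l 16777208) (l 16777208))) (b (b (b (l 16777216) (b (l 16774240) (b (b (l 16772992) (a (l 16777216) (a (l 16775104) (l 16763792)))) (l 16771872)))) (l 16771912)) (l 16772072)))))))) (c (a (c (l 16777216) (l 16777216)) (c (b (l 16772440) (l 16775720)) (l 16773488))) (a (l 16777216) (c (l 16773424) (l 16773352))))) (a (l 2) (b (c (l 16777112) (l 16777104)) (l 2)))), by decide +kernel⟩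

def k229_pm_102 : ∃ t, chk3 f_pm_102 t 22 5 1 = true :=
  ⟨(b (b (b (l 3) (c (b (b (a (l 3) (c (l 626696125895) (l 581598969287))) (c (b (a (l 16777192) (l 16777096)) (l 16777088)) (b (l 16777136) (l 16777088)))) (b (b (c (l 16777072) (l 16777072)) (c (c (l 16777104) (l 16777104)) (c (l 16777104) (l 16777104)))) (b (b (c (a (l 16777168) (b (l 16776888) (l 16774112))) (c (l 16773632) (l 16773600))) (a (b (c (l 16777192) (l 16777192)) (b (a (l 16777216) (l 16776152)) (c (l 16773768) (l 16773712)))) (b (c (a (l 16774456) (l 16765320)) (l 16769248)) (a (c (l 16764888) (l 16764672)) (l 16748408))))) (b (b (b (a (c (a (l 16773688) (l 16763328)) (l 16757856)) (l 16740544)) (b (a (c (l 16737064) (l 16757704)) (l 16728656)) (c (l 16711976) (l 16732168)))) (l 16728080)) (l 16729104))))) (b (b (c (l 673403895095) (l 620790545719)) (c (b (l 16777136) (l 16777088)) (b (l 16777128) (l 16777088)))) (b (b (c (l 16777072) (l 16777064)) (c (l 16777104) (l 16777096))) (b (b (c (a (l 16777160) (l 16773816)) (a (l 16777160)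 (l 16773752))) (a (b (l 16777192) (c (l 16773576) (l 16773512))) (b (c (l 16769104) (l 16768968)) (c (l 16756424) (l 16756064))))) (b (b (b (a (c (l 16768192) (l 16768032)) (l 16739256)) (b (a (b (l 16760552) (l 16754376)) (l 16726952)) (l 16710016))) (l 16726352)) (l 16727416))))))) (c (c (l 16707384) (l 16706896)) (c (l 16748344) (l 16747848)))) (a (b (c (a (l 16775992) (l 16756920)) (l 16775120)) (l 2)) (c (b (l 16748056) (l 16777208)) (b (l 16768736) (l 16777208))))), by decide +kernel⟩

def k230_pm_102 : ∃ t, chk3 f_pm_102 t 23 5 1 = true :=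
  ⟨(b (b (b (b (l 3) (c (c (b (l 711521730535) (a (l 663203347943) (l 16777008))) (b (l 673940766039) (a (l 618643062247) (l 16777008)))) (b (c (l 625085513047) (l 573009034583)) (c (a (l 16777184) (l 16777000)) (l 16777064))))) (c (b (b (c (c (l 16776920) (l 16776912)) (l 109152566935)) (c (b (l 16776856) (l 16776872)) (b (l 16776848) (l 16776872)))) (b (a (b (c (l 16776968) (l 16776968)) (b (c (l 16775840) (l 16775816)) (c (a (l 16775488) (l 16769768)) (b (l 16773776) (l 16770552))))) (b (c (b (l 16774944) (a (l 16775720) (l 16769072))) (b (l 16774904) (l 16770680))) (b (a (c (l 16770144) (l 16770016)) (l 16752608)) (l 16743608)))) (b (b (a (b (c (l 16764600) (l 16764376)) (l 16752912)) (l 16723264)) (c (l 16694416) (l 16714304))) (b (b (b (l 16695144) (b (l 16684800) (c (l 16676904) (l 16675152)))) (l 16672584)) (l 16674248))))) (b (b (c (l 16776904) (l 16776904)) (c (b (l 16776848) (l 16776864)) (b (l 16776840) (l 16776856)))) (b (b (b (c (l 16774672) (l 16774624)) (a (l 16776976) (c (l 16770568) (l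 16770456)))) (b (c (a (l 16775792) (l 16761552)) (a (l 16775768) (l 16761280))) (a (c (l 16770816) (l 16770712)) (l 16742432)))) (b (b (a (b (c (l 16764152) (l 16763928)) (l 16752056)) (l 16721376)) (l 16691688)) (b (b (b (l 16692256) (b (l 16681552) (l 16630536))) (l 16668912)) (l 16670632))))))) (c (c (l 16666816) (l 16665624)) (c (l 16685384) (l 16684152)))) (c (b (c (l 16758528) (l 16758200)) (c (l 16777200) (l 16777192))) (b (c (l 16757872) (l 16757536)) (l 16777192)))), by decide +kernel⟩

def k231_pm_102 : ∃ t, chk3 f_pm_102 t 6 40 2 = true :=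
  ⟨(a (b (a (b (a (l 3) (c (l 489794043143) (l 459192400839))) (c (a (l 585357065703) (l 16776872)) (a (l 544554876215) (l 16776864)))) (b (c (c (l 16776224) (l 16776208)) (l 16776200)) (c (l 16775824) (l 16775800)))) (a (b (c (a (l 16776960) (l 16776480)) (c (l 16776704) (l 16776704))) (c (l 16776480) (l 16776472))) (a (b (c (l 16775936) (l 16775912)) (b (b (l 16775880) (l 16775696)) (a (l 16776008) (c (l 16770560) (l 16770440))))) (b (c (b (l 16773344) (a (l 16774552) (l 16767424))) (b (l 16773272) (a (l 16774504) (l 16767248)))) (a (b (c (l 16769448) (l 16769312)) (l 16753232)) (l 16739808)))))) (a (a (b (b (c (l 16773320) (l 16773248)) (a (b (l 16774872) (c (l 16771792) (l 16771696))) (c (b (l 16769464) (l 16758368)) (b (l 16769328) (l 16758040))))) (b (b (c (a (l 16764008) (l 16740808)) (l 16710840)) (l 16733960)) (l 16683112))) (b (b (a (c (b (l 16771416) (l 16765480)) (b (l 16771312) (l 16765272))) (c (l 16708888) (l 16729392))) (l 16709872)) (b (l 16695352) (l 16655728)))) (b (a (c (l 16637896) (l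 16657528)) (a (c (b (l 16686336) (l 16651944)) (l 16646312)) (c (l 16643928) (l 16663496)))) (a (c (l 16585544) (l 16603904)) (a (b (l 16612888) (l 16572056)) (b (l 16627864) (l 16586184))))))), by decide +kernel⟩

def k232_pm_102 : ∃ t, chk3 f_pm_102 t 6 40 3 = true :=
  ⟨(a (b (c (a (b (l 495162751959) (a (l 16777184) (l 16776856))) (b (l 16776184) (l 16775776))) (a (b (l 451139336855) (l 278266902119)) (b (l 16776160) (l 16775752)))) (b (a (c (l 16776696) (l 16776688)) (b (c (l 16773232) (l 16773168)) (a (l 16775848) (c (l 16768832) (l 16768688))))) (a (c (l 16776456) (l 16776440)) (a (c (b (l 16775504) (l 16770856)) (b (l 16775472) (l 16770744))) (a (b (c (l 16769168) (l 16769032)) (l 16752392)) (l 16738496)))))) (a (b (b (a (c (l 16773176) (l 16773112)) (c (b (a (l 16771208) (l 16757808)) (l 16733632)) (a (l 16766696) (l 16749424)))) (a (c (b (l 16769960) (a (l 16771600) (l 16757712))) (b (l 16769840) (l 16764040))) (l 16708248))) (b (a (b (c (l 16752360) (l 16751928)) (l 16732440)) (l 16692480)) (c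 (l 16656336) (l 16675576)))) (b (a (c (l 16677152) (l 16675776)) (a (c (l 16665384) (l 16663448)) (l 16640376))) (a (b (l 16642104) (l 16600400)) (a (b (l 16607144) (l 16564880)) (l 16559088)))))), by decide +kernel⟩

def k233_pm_102 : ∃ t, chk3 f_pm_102 t 6 82 1 = true :=
  ⟨(a (c (b (a (a (c (l 16776560) (l 16776552)) (a (c (l 16775728) (l 16775704)) (b (l 16776216) (c (l 16770648) (l 16770528))))) (a (b (c (a (l 16770976) (l 16755336)) (a (l 16770864) (l 16754952))) (c (l 16743632) (l 16743048))) (l 16686784))) (a (b (a (c (l 16775184) (l 16775152)) (c (a (l 16769328) (l 16752112)) (a (l 16769192) (l 16751672)))) (a (c (b (l 16772328) (a (l 16773840) (l 16761280))) (b (l 16772240) (l 16767024))) (l 16734968))) (c (l 16639576) (l 16658880)))) (b (a (b (c (l 16776408) (l 16776392)) (a (l 16776544) (c (l 16770960) (l 16770848)))) (a (b (c (a (l 16770752) (l 16754568)) (l 16762288)) (c (l 16742448) (l 16741848))) (l 16705320))) (a (b (c (a (l 16775120) (a (l 16769056) (l 16751224))) (a (l 16775080) (l 16760080)))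 (a (c (b (l 16772160) (l 16766848)) (b (l 16772072) (l 16766672))) (l 16733488))) (c (l 16657184) (l 16676432))))) (a (c (b (c (l 16616456) (l 16634992)) (c (l 16568608) (l 16586312))) (b (c (l 16632520) (l 16630008)) (c (l 16582984) (l 16579616)))) (c (a (b (l 16562936) (c (l 16518536) (l 16514024))) (b (a (l 16507672) (l 16542328)) (a (c (l 16485312) (l 16480232)) (l 16475536)))) (a (b (l 16555416) (l 16507120)) (b (a (l 16519944) (l 16534416)) (a (l 16472464) (l 16486968))))))), by decide +kernel⟩

def k234_pm_102 : ∃ t, chk3 f_pm_102 t 6 166 1 = true :=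
  ⟨(a (b (a (a (c (b (c (l 16756576) (l 16756216)) (l 16739008)) (b (c (l 16755856) (l 16755480)) (l 16737664))) (c (l 16704304) (l 16701744))) (c (c (l 16640032) (l 16637640)) (l 16633976))) (c (a (c (l 16694392) (l 16692944)) (c (l 16615024) (l 16612192))) (a (l 16669760) (l 16607864)))) (a (c (b (c (l 16551176) (l 16547232)) (c (l 16533120) (l 16528856))) (b (l 16541200) (l 16522344))) (c (a (b (l 16479952) (l 16467160)) (b (a (c (l 16450496) (l 16444808)) (l 16461832)) (a (c (l 16440552) (l 16434688)) (l 16453424)))) (a (b (l 16469520) (l 16456280)) (b (a (l 16436112) (l 16451080)) (a (l 16425720) (l 16442368))))))), by decide +kernel⟩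

def k235_pm_102 : ∃ t, chk3 f_pm_102 t 12 167 1 = true :=
  ⟨(b (b (c (a (l 16627600) (c (l 16597904) (l 16594776))) (a (l 16665768) (l 16589992))) (c (a (c (l 16650144) (l 16647928)) (c (l 16583192) (l 16579808))) (a (l 16623568) (c (l 16576376) (l 16572888))))) (c (a (b (b (b (l 16612552) (b (c (l 16626600) (l 16623968)) (c (l 16598704) (l 16616928)))) (l 16615912)) (l 16618224)) (b (b (b (c (l 16572080) (l 16568504)) (b (c (l 16566048) (l 16562368)) (c (a (l 16575872) (l 16546080)) (l 16536200)))) (l 16557760)) (l 16560744))) (a (b (b (b (l 16628480) (b (l 16619952) (c (l 16614136) (l 16611304)))) (l 16610256)) (l 16612648)) (b (b (b (l 16563032) (b (l 16556728) (c (l 16553344) (l 16549456)))) (l 16550056)) (l 16553144))))), by decide +kernel⟩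

def k236_pm_102 : ∃ t, chk3 f_pm_102 t 13 167 1 = true :=
  ⟨(b (a (c (b (c (l 16523016) (l 16518584)) (c (l 16514112) (l 16509520))) (b (l 16511800) (l 16481528))) (a (c (b (l 16462448) (l 16457984)) (b (l 16451400) (l 16446776))) (b (c (a (l 16414720) (c (l 16460640) (l 16455272))) (a (l 16423728) (l 16447064))) (c (a (b (l 16434520) (a (l 16434696) (l 16436032))) (b (a (l 16449688) (l 16482720)) (a (l 16465576) (l 16511048)))) (a (b (l 16422512) (l 16424824)) (b (l 16457184) (l 16478440))))))) (a (c (b (b (b (l 16505048) (b (l 16501184) (c (a (l 16515800) (l 16484976)) (a (l 16511240) (l 16479872))))) (l 16497752)) (l 16501432)) (b (b (b (l 16495496) (b (l 16491496) (c (l 16490616) (l 16485640)))) (l 16487944)) (l 16491752))) (b (b (a (b (c (l 16454656) (l 16443328)) (b (c (l 16453280) (l 16441912)) (b (b (c (l 16453488) (l 16442120)) (c (a (l 16457968) (c (l 16450920) (l 16445232))) (l 16442856))) (c (l 16453952) (l 16442600))))) (a (b (c (a (l 16435904) (l 16448672)) (l 16432368)) (b (c (a (l 16444368)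 (l 16469368)) (l 16445592)) (c (l 16474432) (l 16463824)))) (c (b (l 16515048) (l 16544368)) (l 16462528)))) (a (c (l 16455496) (l 16444208)) (c (l 16502472) (l 16514704)))) (a (c (l 16459560) (l 16448408)) (c (l 16505328) (l 16517664)))))), by decide +kernel⟩

def k237_pm_102 : ∃ t, chk3 f_pm_102 t 6 21 1 = true :=
  ⟨(a (c (a (c (l 16583488) (l 16623520)) (c (b (l 16595408) (l 16652952)) (l 16559368))) (a (c (l 16642544) (l 16640568)) (c (l 16577648) (l 16616848)))) (a (c (c (b (l 16544384) (l 16616432)) (l 16493880)) (c (l 16532360) (l 16570776))) (a (c (b (c (l 16508096) (l 16503400)) (l 16587296)) (b (l 16496224) (l 16580624))) (c (b (a (l 16523376) (l 16594536)) (a (l 16592520) (l 16651664))) (b (l 16446632) (l 16532744)))))), by decide +kernel⟩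

def k238_pm_102 : ∃ t, chk3 f_pm_102 t 6 11 1 = true :=
  ⟨(c (a (b (a (c (l 16744184) (l 16743608)) (a (l 16690872) (l 16683368))) (c (l 16777168) (l 16777160))) (b (a (a (l 16675744) (l 16667992)) (a (l 16639128) (a (b (l 16664864) (l 16738008)) (l 16698856)))) (a (l 16777128) (a (l 16777112) (c (l 16743192) (l 16742592)))))) (a (b (a (c (l 16743024) (l 16742424)) (c (l 16727816) (l 16726960))) (c (l 16777160) (l 16777160))) (b (a (a (l 16673656) (l 16665632)) (a (l 16657464) (a (l 16636536) (l 16719152)))) (a (l 16777128) (a (l 16777112) (l 16678768)))))), by decide +kernel⟩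

def k239_pm_102 : ∃ t, chk3 f_pm_102 t 14 40 1 = true :=
  ⟨(a (b (c (a (c (b (l 16670624) (l 16687120)) (l 16641512)) (a (b (a (l 16643184) (l 16626880)) (l 16637000)) (b (l 16633992) (c (l 16632496) (l 16630832))))) (a (c (l 16641256) (l 16641000)) (a (b (l 16612128) (l 16634336)) (b (l 16630528) (l 16628296))))) (c (a (c (b (l 16646376) (l 16624640)) (l 16560072)) (b (a (l 16645896) (c (l 16622560) (l 16621232))) (c (a (l 16663104) (l 16602864)) (l 16602224)))) (c (a (l 16579296) (b (l 16601592) (l 16614800))) (a (l 16577520) (b (l 16600632) (l 16614240)))))) (b (a (c (a (c (l 16630872) (l 16650736)) (b (c (l 16654360) (l 16674856)) (a (c (l 16662904) (l 16662224)) (b (c (l 16667320) (l 16666832)) (l 16631432))))) (a (b (l 16652192) (l 16645856)) (b (l 16653152) (a (l 16661176) (b (l 16666072) (l 16650752)))))) (a (c (b (a (b (c (l 16628776) (l 16648872)) (l 16638632)) (l 16663888)) (l 16585984)) (b (a (b (l 16626552) (l 16658312)) (l 16662752)) (l 16604344))) (c (b (l 16585528) (l 16556016)) (l 16514864))))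 (a (c (b (b (a (l 16643520) (a (c (l 16648816) (l 16647896)) (l 16626760))) (a (a (l 16636136) (c (l 16620048) (l 16639904))) (l 16612200))) (a (a (b (c (l 16611752) (l 16631392)) (a (c (l 16634664) (l 16633392)) (l 16613048))) (b (l 16600312) (l 16592096))) (l 16548128))) (a (b (c (l 16615200) (l 16634896)) (a (b (l 16608384) (a (l 16631448) (l 16609608))) (l 16581936))) (b (c (l 16559880) (l 16579424)) (l 16563936)))) (c (b (a (l 16554096) (l 16521728)) (a (l 16516760) (l 16461496))) (b (a (l 16570296) (l 16514920)) (a (l 16509584) (l 16452248))))))), by decide +kernel⟩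

def k240_pm_102 : ∃ t, chk3 f_pm_102 t 14 82 1 = true :=
  ⟨(a (a (c (b (c (l 16580368) (l 16577472)) (c (b (l 16546608) (a (l 16511408) (l 16538040))) (b (l 16543104) (l 16521872)))) (b (l 16552056) (c (l 16467088) (l 16526208)))) (b (c (a (c (l 16598072) (l 16617264)) (b (a (l 16628784) (c (l 16644992) (l 16665336))) (a (c (l 16619376) (l 16639176)) (l 16655360)))) (a (l 16593552) (b (a (l 16647728) (l 16643400)) (a (l 16616400) (l 16653624))))) (c (a (b (a (l 16577400) (c (l 16583656) (l 16602656))) (a (c (b (l 16568096) (l 16572240)) (l 16569328)) (l 16619816))) (l 16574496)) (a (b (a (l 16572120) (l 16578648)) (a (l 16544192) (l 16616424))) (l 16614728))))) (a (a (b (c (a (l 16580912) (b (l 16562992) (l 16537912))) (l 16489928)) (c (l 16474440) (l 16509640))) (c (b (l 16506080) (a (l 16434264) (l 16421512))) (b (l 16498272) (l 16408008)))) (c (b (a (l 16452360) (l 16395712)) (a (l 16380272) (l 16322888))) (b (a (l 16442520) (l 16383784)) (a (l 16367472) (l 16308000)))))), by decide +kernel⟩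

def k241_pm_102 : ∃ t, chk3 f_pm_102 t 28 83 1 = true :=
  ⟨(b (b (a (c (a (l 16486296) (c (a (b (l 16512672) (l 16508984)) (b (l 16537600) (l 16550704))) (a (l 16509120) (l 16520768)))) (a (l 16476840) (c (a (l 16505016) (l 16538352)) (l 16500224)))) (c (b (l 16543720) (l 16551376)) (l 16551632))) (a (c (a (b (c (l 16485296) (l 16480584)) (a (l 16477088) (l 16488048))) (b (c (l 16552952) (l 16549704)) (l 16584920))) (a (b (l 16473368) (l 16444288)) (b (l 16544720) (l 16579552)))) (c (l 16498464) (l 16537744)))) (b (a (b (c (a (a (l 16456032) (l 16546440)) (l 16600264)) (a (l 16513992) (l 16617224))) (c (l 16512968) (l 16529512))) (c (b (l 16526272) (l 16496208)) (l 16460688))) (b (b (b (c (c (l 16433240) (l 16452952)) (l 16430056)) (c (a (a (l 16592560) (l 16635768)) (b (l 16502488) (l 16428968))) (a (l 16552368) (l 16405744)))) (c (c (l 16446152) (l 16444184)) (l 16441184))) (c (c (l 16445056) (l 16443072)) (l 16419064))))), by decide +kernel⟩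

def k242_pm_102 : ∃ t, chk3 f_pm_102 t 29 83 1 = true :=
  ⟨(b (a (c (b (a (l 16504512) (a (l 16411312) (l 16363032))) (a (l 16469120) (l 16349200))) (b (a (l 16496304) (l 16375920)) (l 16313488))) (c (b (a (l 16319976) (l 16262616)) (l 16222288)) (b (l 16274920) (l 16224976)))) (a (b (c (b (l 16356536) (l 16267232)) (l 16200296)) (c (b (b (b (l 16309520) (b (l 16298576) (c (l 16272144) (l 16306032)))) (l 16305632)) (l 16305664)) (b (b (b (l 16315032) (a (l 16358584) (l 16238736))) (l 16289128)) (l 16289160)))) (b (c (b (l 16204312) (c (l 16136888) (l 16168408))) (b (l 16184440) (l 16152496))) (c (b (b (b (c (l 16156160) (l 16145280)) (b (c (l 16145312) (l 16134216)) (c (a (l 16139616) (l 16112112)) (a (l 16149720) (l 16100416))))) (a (l 16149632) (l 16100048))) (a (l 16146248) (l 16094064))) (b (b (b (l 16128664) (b (l 16117264) (a (l 16133120) (l 16082560)))) (l 16101664)) (l 16096944)))))), by decide +kernel⟩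

def k243_pm_102 : ∃ t, chk3 f_pm_102 t 14 21 1 = true :=
  ⟨(a (c (a (b (l 16591304) (l 16625400)) (b (c (l 16500216) (l 16517000)) (l 16459184))) (a (c (l 16598696) (l 16619032)) (c (l 16461856) (l 16478344)))) (c (a (b (c (l 16288824) (l 16301656)) (l 16199040)) (b (a (b (c (l 16146088) (l 16134936)) (l 16141224)) (b (c (l 16068200) (l 16055656)) (c (l 16040216) (l 16027136)))) (c (l 16102672) (l 16090736)))) (a (c (l 16292856) (l 16284488)) (b (a (l 16119376) (b (l 16036504) (l 16007152))) (l 16072520))))), by decide +kernel⟩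

def k244_pm_102 : ∃ t, chk3 f_pm_102 t 30 40 1 = true :=
  ⟨(a (b (c (a (c (l 16439704) (l 16457456)) (b (l 16441728) (l 16385136))) (b (l 16361776) (l 16304592))) (c (b (a (l 16437432) (l 16324816)) (a (l 16375232) (l 16260600))) (b (l 16264200) (l 16219456)))) (c (a (b (b (l 16331048) (l 16271216)) (b (l 16208232) (l 16141952))) (b (c (a (l 16232616) (b (l 16256096) (l 16192648))) (l 16219424)) (c (a (l 16103496) (b (l 16126848) (l 16058584))) (l 16086416)))) (b (a (l 16244808) (l 16143616)) (a (l 16113592) (l 16027728))))), by decide +kernel⟩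

def k245_pm_102 : ∃ t, chk3 f_pm_102 t 30 82 1 = true :=
  ⟨(a (c (b (a (l 16308040) (l 16192008)) (a (l 16234536) (l 16117856))) (b (l 16169824) (a (l 16216496) (l 16095712)))) (c (a (b (l 16071960) (l 15997216)) (a (b (l 15993320) (l 15918152)) (c (b (l 15987520) (l 15912840)) (l 15934136)))) (a (b (l 16048568) (l 15970856)) (b (l 15960144) (l 15881880))))), by decide +kernel⟩

def k246_pm_102 : ∃ t, chk3 f_pm_102 t 30 83 1 = true :=
  ⟨(b (a (c (b (a (l 16174352) (l 16057856)) (a (l 16130344) (l 16016776))) (b (l 16051480) (l 16049152))) (c (a (b (l 15937480) (l 15899568)) (b (c (a (l 15866424) (l 15854144)) (l 15844008)) (c (a (l 15831392) (l 15820856)) (l 15809176)))) (b (a (l 15908744) (l 15820144)) (a (l 15869320) (l 15784272))))) (a (b (c (b (c (l 16046656) (l 16034056)) (c (l 15957656) (l 16007448))) (c (l 16005408) (l 15992144))) (c (b (b (b (c (l 16001296) (l 15987784)) (b (c (l 15992112) (l 15978408)) (c (a (l 16036176) (l 15912168)) (l 15949600)))) (c (l 15979000) (l 15965040))) (c (l 15973608)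 (l 15959544))) (b (b (b (l 15967136) (b (l 15957480) (l 15928432))) (l 15943712)) (l 15938056)))) (c (b (a (b (l 15871648) (l 15849464)) (c (b (a (l 15806480) (l 15776880)) (a (l 15786744) (c (l 15763704) (l 15774056)))) (l 15773496))) (a (b (b (b (l 15833128) (b (l 15825400) (c (a (l 15854112) (l 15800400)) (l 15810688)))) (l 15814280)) (l 15809432)) (b (b (c (b (a (l 15772248) (l 15745368)) (b (a (l 15765432) (l 15739128)) (c (c (a (l 15745320) (b (b (l 15743176) (l 15740896)) (l 15760704))) (c (l 15738960) (l 15736776))) (l 15731288)))) (b (l 15751208) (b (l 15744536) (l 15738984)))) (c (a (l 15755560) (l 15730048)) (l 15734880))) (c (a (l 15751080) (l 15725792)) (l 15730424))))) (b (a (l 15826832) (l 15747544)) (b (b (b (a (l 15800224) (l 15724584)) (a (c (l 15797320) (l 15780408)) (b (l 15717720) (l 15712000)))) (l 15744064)) (l 15739264)))))), by decide +kernel⟩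

def k247_pm_102 : ∃ t, chk3 f_pm_102 t 31 40 2 = true :=
  ⟨(b (a (c (a (c (b (a (c (l 16265176) (l 16262184)) (l 16239136)) (a (c (l 16221424) (l 16197152)) (l 16214440))) (a (l 16213664) (c (a (l 16225608) (l 16243424)) (l 16129936)))) (a (a (c (l 16225400) (l 16191520)) (l 16212448)) (l 16147640))) (a (c (l 16203976) (l 16199128)) (c (a (c (a (l 16208456) (l 16222432)) (l 16197680)) (l 16159768)) (a (l 16184904) (c (a (l 16194536) (l 16200216)) (l 16143560)))))) (a (c (b (l 16196552) (l 16123064)) (a (c (l 16169800) (l 16109984)) (l 16149256))) (c (a (l 16143032) (l 16067368)) (a (l 16133808) (l 16056176))))) (a (c (a (c (b (a (c (l 16154704) (l 16130104)) (l 16146120)) (a (c (l 16085864) (l 16060936)) (l 16076032))) (a (l 16078360) (c (a (l 16088496) (l 16104880)) (l 16012416)))) (a (a (b (l 16103440) (l 16053160)) (l 16071312)) (l 16025248))) (a (b (l 16098744) (l 16027504)) (c (a (c (a (l 16067112) (l 16079608)) (l 16054912)) (l 16014352)) (a (l 16041120) (c (l 15944728) (l 15996408)))))) (a (c (b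 (l 16049160) (l 15974800)) (a (c (l 16021328) (l 15981072)) (l 15996952))) (c (a (l 15990456) (a (l 15981512) (l 15973064))) (a (l 15978320) (l 15960072)))))), by decide +kernel⟩

def k248_pm_102 : ∃ t, chk3 f_pm_102 t 31 82 2 = true :=
  ⟨(a (c (c (a (a (c (b (l 16014632) (l 15940256)) (b (l 15989352) (l 15914608))) (b (l 16003920) (l 15929136))) (b (l 15951016) (l 15875912))) (a (a (b (l 15971608) (l 15896320)) (c (b (l 15989832) (l 15914496)) (b (l 15967056) (l 15891352)))) (a (b (l 15974968) (l 15899224)) (l 15899128)))) (a (b (l 15953992) (l 15877480)) (c (a (c (b (l 15964056) (l 15887768)) (b (l 15944296) (l 15867632))) (b (l 15944640) (l 15867952))) (a (l 15890464) (b (l 15888608) (c (l 15859888) (l 15847736))))))) (a (c (b (l 15899840) (l 15823984)) (a (b (l 15906744) (l 15829496)) (l 15843048))) (c (a (l 15838176) (b (l 15859536) (l 15783312))) (a (l 15823096) (b (l 15843208) (l 15765608)))))), by decide +kernel⟩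

def k249_pm_102 : ∃ t, chk3 f_pm_102 t 31 166 2 = true :=
  ⟨(a (a (c (c (a (b (c (a (l 15872200) (l 15890856)) (l 15856272)) (c (l 15850960) (l 15824872))) (b (a (l 15879488) (l 15868576)) (l 15841728))) (b (a (l 15837552) (c (l 15782712) (l 15832680))) (a (l 15805928) (c (l 15826448) (l 15802864))))) (b (l 15817960) (l 15786824))) (c (b (c (l 15818352) (a (l 15840968) (l 15803712))) (c (l 15791824) (a (l 15813176) (l 15777936)))) (c (a (b (c (l 15829080) (l 15808664)) (c (l 15801080) (l 15780528))) (b (l 15809416) (l 15783392))) (b (a (l 15793072) (c (l 15800920) (l 15788488))) (a (l 15764744) (l 15767736)))))) (a (c (b (l 15766768) (l 15744264)) (b (c (l 15762544) (l 15759736)) (a (l 15746960) (l 15724672)))) (a (b (l 15735328) (l 15715936)) (c (b (l 15706584) (l 15710512)) (b (l 15708840) (l 15691512)))))), by decide +kernel⟩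

def k250_pm_102 : ∃ t, chk3 f_pm_102 t 31 167 4 = true :=
  ⟨(a (c (b (a (a (c (b (l 15830080) (a (l 15802264) (l 15802672))) (b (l 15803888) (l 15787352))) (b (l 15822816) (b (l 15791424) (l 15783368)))) (b (l 15776072) (l 15763824))) (a (b (b (b (a (c (l 15801600) (l 15775264)) (l 15776192)) (a (b (c (l 15775016) (l 15769632)) (b (b (c (l 15792400) (l 15766024)) (c (c (l 15776272) (l 15784632)) (c (l 15768032) (l 15735592)))) (c (l 15789296) (l 15762904)))) (b (l 15771184) (a (c (l 15781368) (a (l 15769000) (l 15775816))) (l 15766440))))) (a (c (l 15787800) (l 15761400)) (l 15763808))) (a (c (l 15783800) (l 15757384)) (l 15760040))) (b (b (b (l 15754952) (b (l 15750904) (a (l 15738616) (l 15711960)))) (l 15744856)) (l 15741456)))) (b (a (a (b (l 15784784) (l 15747160)) (c (b (l 15807392) (a (l 15782248) (l 15800856))) (b (l 15783720) (l 15768696)))) (a (b (l 15796184) (l 15782928)) (l 15756560))) (a (b (b (b (a (l 15755952) (c (l 15781552) (l 15757752))) (a (b (l 15750272) (b (b (l 15746640) (l 15723592))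 (l 15743496))) (b (c (l 15776504) (l 15752680)) (c (a (l 15761520) (l 15781344)) (a (l 15719128) (l 15752712)))))) (a (l 15741976) (c (l 15769080) (l 15745216)))) (a (l 15737936) (c (l 15765288) (l 15741408)))) (b (b (b (a (l 15752336) (l 15743368)) (a (b (l 15747912) (c (l 15769224) (a (l 15770808) (l 15745688)))) (b (l 15739608) (l 15736520)))) (a (l 15741352) (l 15733952))) (a (l 15737792) (l 15730656)))))) (b (a (b (l 15732920) (l 15703304)) (b (l 15686224) (l 15680864))) (a (b (b (b (l 15718112) (b (l 15715400) (a (l 15696144) (l 15687024)))) (l 15711192)) (l 15708312)) (b (b (b (l 15678456) (b (l 15677080) (b (b (l 15676576) (l 15675528)) (l 15676336)))) (l 15675480)) (l 15673216))))), by decide +kernel⟩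

def k251_pm_102 : ∃ t, chk3 f_pm_102 t 31 167 5 = true :=
  ⟨(a (b (a (b (l 15766400) (l 15750344)) (c (a (c (a (l 15768264) (l 15782760)) (l 15713672)) (b (l 15768440) (l 15756856))) (a (l 15739648) (b (l 15752640) (c (l 15747976) (l 15735288)))))) (a (b (b (b (l 15738616) (b (l 15733168) (a (l 15730984) (l 15726152)))) (l 15725176)) (l 15721200)) (c (a (b (b (b (c (l 15760920) (l 15740176)) (b (c (l 15756472) (l 15735696)) (c (a (l 15743960) (l 15760072)) (l 15732000)))) (c (l 15749856) (l 15729056))) (c (l 15746280) (l 15725456))) (b (b (b (l 15748488) (b (l 15744696) (c (l 15744096) (l 15743200)))) (l 15738984)) (l 15735656))) (b (b (b (a (l 15724088) (l 15732496)) (a (b (l 15719584) (l 15715856)) (b (l 15728664) (c (a (l 15729936) (l 15737912)) (l 15719816))))) (a (l 15712888) (l 15722896))) (a (l 15709264) (l 15719536)))))) (a (b (a (b (l 15734224) (l 15724440)) (l 15709896)) (b (b (b (c (l 15713184) (l 15709904)) (b (c (l 15710432) (l 15707128)) (c (l 15708200) (a (l 15713048) (l 15694800))))) (c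 (l 15706160) (l 15702808))) (c (l 15703240) (l 15699864)))) (b (a (l 15696008) (a (l 15669232) (l 15684720))) (b (b (b (a (l 15689320) (l 15680232)) (b (a (l 15687656) (l 15679224)) (a (l 15665360) (l 15678216)))) (a (l 15684864) (l 15678008))) (a (l 15682360) (l 15675832)))))), by decide +kernel⟩

def k252_pm_102 : ∃ t, chk3 f_pm_102 t 31 40 3 = true :=
  ⟨(a (b (a (l 16188016) (c (l 16172536) (l 16163128))) (a (l 16045312) (c (l 16025168) (l 16012968)))) (a (c (a (b (c (a (l 16131064) (l 16086312)) (l 16153304)) (c (a (l 15980544) (l 15934224)) (l 16000568))) (c (b (l 16150808) (l 15996336)) (b (a (l 16131640) (c (l 16151016) (l 16144584))) (a (l 15997488) (c (l 15994648) (l 15987480)))))) (b (l 16140096) (l 15983584))) (a (c (b (c (l 16128688) (l 16129272)) (c (l 15970992) (l 15970088))) (c (b (a (l 16088832) (c (l 16123496) (l 16121720))) (a (l 15970928) (c (l 15962368) (l 15959840)))) (b (l 16118200) (l 15956008)))) (c (a (b (l 16116984) (l 15956072)) (b (l 16086448) (l 15944656))) (c (a (b (l 16112152)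 (l 15948968)) (b (l 16036920) (l 15934776))) (a (b (c (a (l 16112976) (l 16106608)) (l 16106520)) (c (a (l 15949072) (l 15941864)) (l 15941432))) (c (a (b (l 16103352) (l 15937752)) (b (l 16097024) (l 15930520))) (a (b (l 16099064) (l 15932688)) (a (b (l 16097152) (l 15930136)) (c (b (l 16095672) (l 15928488)) (b (c (l 16091664) (l 16093744)) (c (l 15924192) (l 15926088))))))))))))), by decide +kernel⟩

def k253_pm_102 : ∃ t, chk3 f_pm_102 t 31 82 3 = true :=
  ⟨(a (a (b (l 15933176) (l 15854416)) (b (l 15904536) (l 15825328))) (a (c (a (c (b (c (l 15908880) (l 15899072)) (c (l 15830696) (l 15820512))) (l 15844312)) (c (l 15777304) (b (c (l 15879112) (l 15871296)) (c (l 15799992) (l 15791800))))) (l 15803432)) (c (a (b (l 15852320) (l 15773224)) (a (l 15796848) (l 15785200))) (a (c (a (b (l 15851168) (l 15770968)) (c (l 15801928) (l 15693776))) (l 15794008)) (c (a (l 15787464) (l 15773040)) (a (b (l 15795648) (l 15714528)) (c (a (l 15774632) (l 15767640)) (a (l 15726856) (c (a (l 15768760) (l 15765096))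 (a (l 15765832) (b (l 15801288) (l 15720056)))))))))))), by decide +kernel⟩

def k254_pm_102 : ∃ t, chk3 f_pm_102 t 62 83 3 = true :=
  ⟨(b (b (c (l 15787064) (l 15770296)) (c (l 15757320) (l 15739976))) (b (c (l 15730256) (l 15712392)) (b (b (b (l 15704848) (b (l 15699896) (a (l 15701184) (l 15689952)))) (l 15692584)) (l 15688752)))), by decide +kernel⟩

def k255_pm_102 : ∃ t, chk3 f_pm_102 t 63 166 3 = true :=
  ⟨(a (c (c (a (b (c (l 15771480) (l 15761008)) (l 15740832)) (b (l 15742272) (l 15720120))) (c (a (l 15734688) (b (l 15740552) (l 15718240))) (b (l 15738368) (l 15714816)))) (b (l 15723984) (l 15700152))) (c (a (b (l 15714304) (l 15694352)) (a (b (l 15698792) (l 15680624)) (b (l 15687960) (l 15670968)))) (a (c (b (a (l 15711096) (c (l 15702576) (l 15698816))) (c (l 15664088) (l 15681240))) (b (l 15693408) (l 15672976))) (a (c (b (l 15687992) (l 15669560)) (b (c (l 15681040) (l 15677344)) (l 15656856))) (c (b (l 15674400) (l 15657168)) (a (b (c (l 15674488) (l 15668184)) (l 15652368)) (c (b (l 15667520)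 (l 15650512)) (b (a (l 15665416) (c (l 15664104) (a (l 15663088) (c (l 15662440) (l 15660520))))) (c (l 15642392) (l 15644176)))))))))), by decide +kernel⟩

def k256_pm_102 : ∃ t, chk3 f_pm_102 t 126 167 3 = true :=
  ⟨(b (c (a (c (b (l 15727912) (l 15718000)) (l 15701920)) (c (l 15705128) (b (l 15702048) (c (l 15699624) (l 15690944))))) (l 15682968)) (c (a (b (b (b (c (l 15710896) (l 15690416)) (c (b (l 15707728) (c (l 15711544) (l 15700792))) (l 15685928))) (l 15695320)) (l 15692184)) (c (b (b (b (l 15696000) (b (l 15693560) (l 15691592))) (l 15689704)) (l 15686872)) (b (b (b (l 15688328) (b (l 15685864) (c (a (l 15691560) (l 15689832)) (l 15680784)))) (l 15681968)) (l 15679112)))) (b (b (b (l 15672456) (b (l 15669584) (l 15667248))) (l 15665128)) (l 15662080)))), by decide +kernel⟩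

def k257_pm_102 : ∃ t, chk3 f_pm_102 t 127 167 3 = true :=
  ⟨(c (b (a (b (l 15686264) (l 15680296)) (a (l 15672104) (l 15664984))) (a (b (b (b (l 15676160) (b (l 15674464) (l 15673120))) (l 15671624)) (l 15669072)) (b (b (b (l 15659176) (b (l 15658152) (a (l 15665120) (l 15660056)))) (l 15656936)) (l 15654752)))) (b (a (c (a (l 15677784) (c (l 15672432) (l 15668528))) (l 15661344)) (c (a (l 15660928) (l 15651096)) (a (b (l 15650536) (l 15646032)) (c (a (l 15650488) (l 15645464)) (c (a (l 15646896) (b (l 15637976) (l 15635024))) (b (l 15639528) (l 15614968))))))) (a (b (b (b (c (a (l 15670272) (l 15660024)) (l 15654360)) (c (b (a (l 15668352) (l 15658496)) (a (l 15666824) (c (l 15663416) (l 15659472)))) (b (l 15652624) (l 15651240)))) (c (a (l 15665208) (l 15655880)) (l 15649712))) (c (a (l 15662544) (l 15653368)) (l 15647104))) (c (a (b (b (b (l 15655840) (b (l 15654704) (l 15653840))) (l 15652640)) (l 15650280)) (b (b (b (l 15646992) (b (l 15646192) (l 15646112))) (l 15645088)) (l 15642920))) (a (b (b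 (b (l 15643008) (b (l 15641864) (c (a (l 15650696) (l 15645792)) (l 15642800)))) (l 15639776)) (l 15637392)) (a (b (b (b (l 15640952) (b (l 15640112) (c (l 15644792) (l 15638344)))) (l 15638440)) (l 15636176)) (b (b (b (c (l 15640912) (c (l 15633008) (l 15634560))) (c (b (l 15640264) (l 15640840)) (b (c (l 15632368) (l 15633904)) (c (l 15632960) (a (l 15637720) (a (l 15638144) (l 15634640))))))) (c (l 15639128) (c (l 15631272) (l 15632768)))) (c (l 15636968) (c (l 15629160) (l 15630608)))))))))), by decide +kernel⟩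

def k258_pm_102 : ∃ t, chk3 f_pm_102 t 30 21 1 = true :=
  ⟨(a (c (b (a (c (b (l 15991592) (l 15936440)) (l 15887280)) (c (l 15864224) (l 15848176))) (a (b (c (l 15912808) (l 15897432)) (l 15914280)) (b (c (l 15786320) (l 15768736)) (c (l 15767160) (l 15749208))))) (b (c (a (l 15935640) (l 15831904)) (l 15826608)) (a (l 15879832) (b (l 15741888) (l 15721784))))) (c (a (b (c (l 15763760) (l 15746032)) (c (b (l 15688536) (l 15642696)) (l 15646536))) (c (a (b (l 15700648) (l 15607296)) (c (b (c (l 15707320) (l 15699840)) (l 15615944)) (l 15648056))) (b (l 15680328) (l 15587488)))) (a (b (l 15718952) (l 15616536)) (b (l 15651656) (l 15556104))))), by decide +kernel⟩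

def k259_pm_102 : ∃ t, chk3 f_pm_102 t 31 21 1 = true :=
  ⟨(c (a (c (a (c (a (c (b (a (l 15726064) (l 15750192)) (a (l 15641520) (l 15668064))) (b (a (l 15701872) (l 15718424)) (l 15628424))) (b (a (l 15744064) (l 15738824)) (c (l 15665456) (l 15660200)))) (a (b (l 15692408) (l 15608048)) (c (a (l 15670520) (l 15630360)) (b (l 15698480) (l 15618912))))) (c (b (l 15703256) (l 15632360)) (a (b (l 15718744) (l 15644512)) (l 15658944)))) (a (b (l 15676408) (l 15593336)) (c (a (c (a (l 15658064) (l 15677240)) (l 15563368)) (b (l 15698176) (l 15628608))) (a (l 15630504) (b (c (l 15688880) (l 15675904)) (l 15611472)))))) (a (c (b (l 15675872) (l 15594632)) (a (c (l 15642472) (c (l 15646048) (l 15646368))) (l 15631056))) (c (a (l 15646544) (c (l 15653560) (l 15643960))) (a (l 15627768) (c (l 15634240) (l 15624360)))))) (a (c (b (l 15654792) (l 15575392)) (b (l 15635488) (l 15554576))) (a (c (c (a (b (l 15664648) (l 15599424)) (l 15625184)) (a (l 15610720) (a (l 15618936) (l 15556712)))) (l 15595840)) (c (a (c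 (l 15615408) (l 15611120)) (c (l 15614256) (l 15582880))) (a (c (a (l 15604504) (c (l 15604872) (l 15600656))) (l 15590208)) (a (c (l 15598864) (c (l 15591296) (l 15587192))) (c (a (l 15597528) (l 15596856)) (a (c (l 15591480) (l 15584784)) (a (l 15588016) (c (l 15590328) (b (c (l 15609528) (l 15605976)) (l 15560680)))))))))))), by decide +kernel⟩

def k260_pm_102 : ∃ t, chk3 f_pm_102 t 14 11 1 = true :=
  ⟨(b (a (c (b (a (l 16655320) (l 16481504)) (l 16414808)) (a (l 16576336) (l 16418632))) (c (a (b (l 16299816) (l 16293536)) (b (c (l 16116112) (l 16104456)) (l 16121016))) (a (l 16238184) (c (l 16098584) (l 16086744))))) (a (c (a (l 16601168) (l 16447360)) (a (l 16594960) (l 16435736))) (c (a (l 16288920) (b (l 16125936) (l 16125960))) (a (l 16271720) (l 16103008))))), by decide +kernel⟩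

def k261_pm_102 : ∃ t, chk3 f_pm_102 t 30 22 1 = true :=
  ⟨(a (c (c (b (l 15782208) (l 15895752)) (b (l 15849960) (l 15880248))) (c (l 15849544) (l 15833296))) (c (a (b (c (b (l 15628176) (l 15646160)) (l 15618048)) (l 15670224)) (a (b (b (c (l 15522424) (l 15521536)) (l 15532952)) (l 15573296)) (b (c (b (l 15544840) (c (a (l 15529736) (l 15504072)) (l 15516616))) (l 15513016)) (c (l 15560176) (l 15537376))))) (b (a (l 15587216) (c (l 15500440) (l 15478024))) (a (l 15631064) (l 15517656))))), by decide +kernel⟩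

def k262_pm_102 : ∃ t, chk3 f_pm_102 t 31 22 1 = true :=
  ⟨(c (a (a (c (b (a (c (a (c (l 15561968) (l 15536968)) (c (l 15588296) (l 15555728))) (l 15528368)) (c (c (l 15588688) (l 15583048)) (c (l 15565832) (l 15540984)))) (a (c (c (l 15579672) (l 15552256)) (l 15531312)) (c (b (c (l 15532552) (l 15526736)) (l 15574696)) (c (a (l 15535512) (l 15549760)) (l 15519832))))) (b (a (l 15510616) (l 15516136)) (l 15505776))) (c (c (b (l 15562880) (b (l 15494248) (l 15515528))) (b (a (l 15571776) (l 15557056)) (a (b (l 15501960) (l 15533376)) (l 15503816)))) (b (c (a (c (l 15557928) (l 15536200)) (l 15560376)) (a (l 15518640) (l 15542568))) (c (a (b (a (l 15488264) (l 15504712)) (l 15510992)) (l 15506600)) (a (l 15476984) (b (l 15491728) (l 15480296))))))) (a (c (b (l 15556432) (a (l 15474024) (l 15503256))) (a (b (l 15544400) (c (l 15488944) (l 15485480))) (l 15515984))) (c (b (l 15574464) (l 15528568)) (b (l 15553432) (l 15507080))))) (a (b (c (l 15499424) (l 15477120)) (c (a (l 15483136) (l 15461216)) (l 15455024)))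 (a (c (a (c (b (l 15535360) (l 15475360)) (l 15482984)) (c (l 15508432) (c (l 15505032) (l 15495432)))) (l 15408968)) (c (a (l 15508008) (b (l 15539240) (l 15494792))) (a (c (c (l 15475544) (l 15491808)) (l 15482208)) (c (a (l 15501192) (l 15505672)) (a (l 15486904) (a (l 15451088) (c (l 15500104) (b (l 15516096) (l 15472240))))))))))), by decide +kernel⟩

def k263_pm_102 : ∃ t, chk3 f_pm_102 t 15 23 1 = true :=
  ⟨(a (c (c (a (l 15785512) (a (l 15704368) (b (c (a (l 15618024) (l 15577544)) (l 15597008)) (l 15602816)))) (a (l 15896168) (a (l 15685584) (l 15581632)))) (a (l 15831056) (c (l 15613560) (l 15593328)))) (c (a (c (a (c (a (b (c (l 15615144) (l 15587920)) (l 15606032)) (c (l 15581400) (l 15575848))) (a (l 15546384) (b (c (l 15579584) (l 15554816)) (l 15571064)))) (b (c (l 15534816) (a (l 15557496) (l 15514616))) (l 15531080))) (a (l 15540344) (a (c (a (l 15530384) (l 15535448)) (l 15504224)) (c (l 15517648) (l 15499424))))) (a (c (b (b (b (c (l 15461584) (l 15453056)) (l 15472424)) (l 15472336))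 (l 15472336)) (b (a (c (l 15476416) (l 15472824)) (l 15448520)) (l 15460560))) (b (b (c (b (l 15494216) (l 15463280)) (l 15457648)) (l 15409088)) (l 15424288)))) (a (c (l 15497568) (l 15475280)) (a (c (a (c (l 15462704) (l 15439832)) (c (l 15437944) (c (l 15413048) (l 15424056)))) (l 15414232)) (c (b (a (b (l 15430392) (l 15402472)) (l 15417368)) (l 15392376)) (c (a (b (b (a (l 15415192) (l 15413552)) (l 15384296)) (l 15384200)) (b (a (l 15398472) (l 15399848)) (l 15364136))) (a (l 15383360) (b (b (a (l 15406880) (b (b (c (l 15450496) (l 15444232)) (l 15429576)) (l 15399704))) (a (l 15356576) (l 15355504))) (a (l 15353568) (l 15345680)))))))))), by decide +kernel⟩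

def k264_pm_102 : ∃ t, chk3 f_pm_102 t 2 3 1 = true :=
  ⟨(b (b (b (a (l 2) (a (l 2) (a (l 2) (c (l 16777216) (l 16777216))))) (l 2)) (l 2)) (l 2)), by decide +kernel⟩

def k265_pm_102 : ∃ t, chk3 f_pm_102 t 6 3 1 = true :=
  ⟨(b (b (c (a (c (a (l 16777216) (l 16777216)) (l 16777216)) (a (c (l 16777216) (l 16777216)) (a (l 16777216) (l 16700880)))) (a (c (l 16777216) (l 16777216)) (a (c (l 16777216) (l 16777216)) (a (l 16777216) (l 16678696))))) (a (a (l 2) (a (l 2) (c (l 16777216) (l 16777216)))) (c (a (l 16777216) (a (l 16777216) (l 16742824))) (a (l 16777216) (a (l 16777216) (l 16741616)))))) (b (a (l 2) (a (l 2) (c (l 16675976) (l 16759256)))) (l 2))), by decide +kernel⟩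

def k266_pm_102 : ∃ t, chk3 f_pm_102 t 14 3 1 = true :=
  ⟨(b (b (c (a (b (l 16502968) (l 16523936)) (a (l 16288904) (l 16125960))) (a (a (l 16594904) (l 16435696)) (a (l 16271704) (l 16103016)))) (c (a (a (l 16601104) (l 16447320)) (b (l 16207000) (l 16207000))) (a (a (l 16594904) (l 16435696)) (b (l 16186912) (l 16186912))))) (b (c (a (l 16440056) (l 16207000)) (a (l 16515016) (l 16186912))) (a (l 2) (c (l 16207000) (l 16186912))))), by decide +kernel⟩

def k267_pm_102 : ∃ t, chk3 f_pm_102 t 15 6 1 = true :=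
  ⟨(a (c (a (b (b (l 15903792) (l 15903792)) (l 15903792)) (b (a (l 15695040) (c (l 15602816) (l 15581712))) (a (l 15695040) (c (l 15602816) (l 15581712))))) (b (a (l 15873040) (a (l 15656952) (l 15550288))) (a (l 15873040) (b (l 15603512) (l 15603512))))) (c (a (c (a (b (c (b (l 15598112) (l 15598112)) (l 15575392)) (c (a (l 15606032) (l 15596848)) (l 15575392))) (b (b (l 15531080) (l 15531080)) (l 15510112))) (b (a (l 15540440) (c (a (l 15535600) (l 15517776)) (l 15505120))) (a (l 15540440) (c (a (l 15535600) (l 15517776)) (l 15505120))))) (b (c (l 15454616) (a (l 15460560) (l 15412616))) (a (c (l 15472336) (l 15460560)) (c (l 15435800) (l 15412616))))) (a (b (c (l 15497680) (l 15475392)) (c (l 15497680) (l 15475392))) (c (a (b (c (a (l 15462816) (l 15435496)) (l 15432272)) (c (a (l 15462816) (l 15435496)) (l 15432272))) (b (a (l 15402376) (l 15380480)) (b (l 15392376) (l 15392376)))) (a (b (l 15411984) (l 15411984)) (a (c (b (l 15384200) (l 15384200)) (l 15373864)) (b (c (l 15364136) (c (l 15354712) (l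 15347072))) (c (l 15364136) (b (l 15350584) (l 15350584)))))))))), by decide +kernel⟩

def k268_pm_102 : ∃ t, chk3 f_pm_102 t 15 7 1 = true :=
  ⟨(a (c (c (a (l 15911384) (a (l 15704432) (l 15602816))) (b (l 15575240) (l 15763984))) (b (a (l 15873040) (l 15603512)) (a (l 15873040) (l 15603512)))) (c (a (c (a (b (c (l 15598112) (l 15575392)) (l 15584616)) (b (l 15531080) (l 15531080))) (a (l 15540440) (b (c (l 15524160) (l 15505120)) (l 15512144)))) (b (c (l 15454616) (a (l 15460560) (l 15412616))) (c (l 15454616) (l 15437296)))) (a (b (l 15487024) (l 15487024)) (c (a (b (c (l 15442488) (l 15432272)) (c (l 15442488) (l 15432272))) (b (l 15392376) (l 15392376))) (a (l 15411984) (b (a (l 15371568) (c (l 15364136) (l 15350584))) (c (l 15373808) (l 15358656)))))))), by decide +kernel⟩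

theorem s269_pm_102 : ∃ t, chk3 f_pm_102 t 15 3 1 = true := ex3_b k267_pm_102 k268_pm_102

theorem s270_pm_102 : ∃ t, chk3 f_pm_102 t 7 3 1 = true := ex3_a k266_pm_102 s269_pm_102

theorem s271_pm_102 : ∃ t, chk3 f_pm_102 t 3 3 1 = true := ex3_a k265_pm_102 s270_pm_102

theorem s272_pm_102 : ∃ t, chk3 f_pm_102 t 1 3 1 = true := ex3_a k264_pm_102 s271_pm_102

theorem s273_pm_102 : ∃ t, chk3 f_pm_102 t 15 22 1 = true := ex3_a k261_pm_102 k262_pm_102

theorem s274_pm_102 : ∃ t, chk3 f_pm_102 t 15 11 1 = true := ex3_b s273_pm_102 k263_pm_102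

theorem s275_pm_102 : ∃ t, chk3 f_pm_102 t 7 11 1 = true := ex3_a k260_pm_102 s274_pm_102

theorem s276_pm_102 : ∃ t, chk3 f_pm_102 t 15 21 1 = true := ex3_a k258_pm_102 k259_pm_102

theorem s277_pm_102 : ∃ t, chk3 f_pm_102 t 63 167 3 = true := ex3_a k256_pm_102 k257_pm_102

theorem s278_pm_102 : ∃ t, chk3 f_pm_102 t 63 83 3 = true := ex3_b k255_pm_102 s277_pm_102

theorem s279_pm_102 : ∃ t, chk3 f_pm_102 t 31 83 3 = true := ex3_a k254_pm_102 s278_pm_102

theorem s280_pm_102 : ∃ t, chk3 f_pm_102 t 31 41 3 = true := ex3_b k253_pm_102 s279_pm_102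

theorem s281_pm_102 : ∃ t, chk3 f_pm_102 t 31 20 3 = true := ex3_b k252_pm_102 s280_pm_102

theorem s282_pm_102 : ∃ t, chk3 f_pm_102 t 31 167 2 = true := ex3_c k250_pm_102 k251_pm_102

theorem s283_pm_102 : ∃ t, chk3 f_pm_102 t 31 83 2 = true := ex3_b k249_pm_102 s282_pm_102

theorem s284_pm_102 : ∃ t, chk3 f_pm_102 t 31 41 2 = true := ex3_b k248_pm_102 s283_pm_102

theorem s285_pm_102 : ∃ t, chk3 f_pm_102 t 31 20 2 = true := ex3_b k247_pm_102 s284_pm_102

theorem s286_pm_102 : ∃ t, chk3 f_pm_102 t 31 20 1 = true := ex3_c s285_pm_102 s281_pm_102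

theorem s287_pm_102 : ∃ t, chk3 f_pm_102 t 30 41 1 = true := ex3_b k245_pm_102 k246_pm_102

theorem s288_pm_102 : ∃ t, chk3 f_pm_102 t 30 20 1 = true := ex3_b k244_pm_102 s287_pm_102

theorem s289_pm_102 : ∃ t, chk3 f_pm_102 t 15 20 1 = true := ex3_a s288_pm_102 s286_pm_102

theorem s290_pm_102 : ∃ t, chk3 f_pm_102 t 15 10 1 = true := ex3_b s289_pm_102 s276_pm_102

theorem s291_pm_102 : ∃ t, chk3 f_pm_102 t 14 83 1 = true := ex3_a k241_pm_102 k242_pm_102

theorem s292_pm_102 : ∃ t, chk3 f_pm_102 t 14 41 1 = true := ex3_b k240_pm_102 s291_pm_102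

theorem s293_pm_102 : ∃ t, chk3 f_pm_102 t 14 20 1 = true := ex3_b k239_pm_102 s292_pm_102

theorem s294_pm_102 : ∃ t, chk3 f_pm_102 t 14 10 1 = true := ex3_b s293_pm_102 k243_pm_102

theorem s295_pm_102 : ∃ t, chk3 f_pm_102 t 7 10 1 = true := ex3_a s294_pm_102 s290_pm_102

theorem s296_pm_102 : ∃ t, chk3 f_pm_102 t 7 5 1 = true := ex3_b s295_pm_102 s275_pm_102

theorem s297_pm_102 : ∃ t, chk3 f_pm_102 t 6 167 1 = true := ex3_a k235_pm_102 k236_pm_102

theorem s298_pm_102 : ∃ t, chk3 f_pm_102 t 6 83 1 = true := ex3_b k234_pm_102 s297_pm_102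

theorem s299_pm_102 : ∃ t, chk3 f_pm_102 t 6 41 1 = true := ex3_b k233_pm_102 s298_pm_102

theorem s300_pm_102 : ∃ t, chk3 f_pm_102 t 6 40 1 = true := ex3_c k231_pm_102 k232_pm_102

theorem s301_pm_102 : ∃ t, chk3 f_pm_102 t 6 20 1 = true := ex3_b s300_pm_102 s299_pm_102

theorem s302_pm_102 : ∃ t, chk3 f_pm_102 t 6 10 1 = true := ex3_b s301_pm_102 k237_pm_102

theorem s303_pm_102 : ∃ t, chk3 f_pm_102 t 6 5 1 = true := ex3_b s302_pm_102 k238_pm_102

theorem s304_pm_102 : ∃ t, chk3 f_pm_102 t 3 5 1 = true := ex3_a s303_pm_102 s296_pm_102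

theorem s305_pm_102 : ∃ t, chk3 f_pm_102 t 11 5 1 = true := ex3_a k229_pm_102 k230_pm_102

theorem s306_pm_102 : ∃ t, chk3 f_pm_102 t 10 5 1 = true := ex3_a k227_pm_102 k228_pm_102

theorem s307_pm_102 : ∃ t, chk3 f_pm_102 t 5 5 1 = true := ex3_a s306_pm_102 s305_pm_102

theorem s308_pm_102 : ∃ t, chk3 f_pm_102 t 2 5 1 = true := ex3_a k226_pm_102 s307_pm_102

theorem s309_pm_102 : ∃ t, chk3 f_pm_102 t 1 5 1 = true := ex3_a s308_pm_102 s304_pm_102

theorem s310_pm_102 : ∃ t, chk3 f_pm_102 t 127 38 3 = true := ex3_a k223_pm_102 k224_pm_102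

theorem s311_pm_102 : ∃ t, chk3 f_pm_102 t 127 19 3 = true := ex3_b s310_pm_102 k225_pm_102

theorem s312_pm_102 : ∃ t, chk3 f_pm_102 t 63 19 3 = true := ex3_a k222_pm_102 s311_pm_102

theorem s313_pm_102 : ∃ t, chk3 f_pm_102 t 31 19 3 = true := ex3_a k221_pm_102 s312_pm_102

theorem s314_pm_102 : ∃ t, chk3 f_pm_102 t 62 76 2 = true := ex3_a k216_pm_102 k217_pm_102

theorem s315_pm_102 : ∃ t, chk3 f_pm_102 t 62 38 2 = true := ex3_b s314_pm_102 k218_pm_102

theorem s316_pm_102 : ∃ t, chk3 f_pm_102 t 62 19 2 = true := ex3_b s315_pm_102 k219_pm_102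

theorem s317_pm_102 : ∃ t, chk3 f_pm_102 t 31 19 2 = true := ex3_a s316_pm_102 k220_pm_102

theorem s318_pm_102 : ∃ t, chk3 f_pm_102 t 31 19 1 = true := ex3_c s317_pm_102 s313_pm_102

theorem s319_pm_102 : ∃ t, chk3 f_pm_102 t 30 19 1 = true := ex3_c k214_pm_102 k215_pm_102

theorem s320_pm_102 : ∃ t, chk3 f_pm_102 t 15 19 1 = true := ex3_a s319_pm_102 s318_pm_102

theorem s321_pm_102 : ∃ t, chk3 f_pm_102 t 14 76 1 = true := ex3_a k210_pm_102 k211_pm_102

theorem s322_pm_102 : ∃ t, chk3 f_pm_102 t 14 38 1 = true := ex3_b s321_pm_102 k212_pm_102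

theorem s323_pm_102 : ∃ t, chk3 f_pm_102 t 14 19 1 = true := ex3_b s322_pm_102 k213_pm_102

theorem s324_pm_102 : ∃ t, chk3 f_pm_102 t 7 19 1 = true := ex3_a s323_pm_102 s320_pm_102

theorem s325_pm_102 : ∃ t, chk3 f_pm_102 t 127 18 3 = true := ex3_c k208_pm_102 k209_pm_102

theorem s326_pm_102 : ∃ t, chk3 f_pm_102 t 63 18 3 = true := ex3_a k207_pm_102 s325_pm_102

theorem s327_pm_102 : ∃ t, chk3 f_pm_102 t 31 18 3 = true := ex3_a k206_pm_102 s326_pm_102

theorem s328_pm_102 : ∃ t, chk3 f_pm_102 t 62 37 2 = true := ex3_a k203_pm_102 k204_pm_102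

theorem s329_pm_102 : ∃ t, chk3 f_pm_102 t 62 36 2 = true := ex3_a k201_pm_102 k202_pm_102

theorem s330_pm_102 : ∃ t, chk3 f_pm_102 t 62 18 2 = true := ex3_b s329_pm_102 s328_pm_102

theorem s331_pm_102 : ∃ t, chk3 f_pm_102 t 31 18 2 = true := ex3_a s330_pm_102 k205_pm_102

theorem s332_pm_102 : ∃ t, chk3 f_pm_102 t 31 18 1 = true := ex3_c s331_pm_102 s327_pm_102

theorem s333_pm_102 : ∃ t, chk3 f_pm_102 t 30 37 1 = true := ex3_a k199_pm_102 k200_pm_102

theorem s334_pm_102 : ∃ t, chk3 f_pm_102 t 61 36 2 = true := ex3_a k196_pm_102 k197_pm_102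

theorem s335_pm_102 : ∃ t, chk3 f_pm_102 t 61 36 1 = true := ex3_c s334_pm_102 k198_pm_102

theorem s336_pm_102 : ∃ t, chk3 f_pm_102 t 60 72 2 = true := ex3_c k192_pm_102 k193_pm_102

theorem s337_pm_102 : ∃ t, chk3 f_pm_102 t 60 72 1 = true := ex3_c s336_pm_102 k194_pm_102

theorem s338_pm_102 : ∃ t, chk3 f_pm_102 t 60 36 1 = true := ex3_b s337_pm_102 k195_pm_102

theorem s339_pm_102 : ∃ t, chk3 f_pm_102 t 30 36 1 = true := ex3_a s338_pm_102 s335_pm_102

theorem s340_pm_102 : ∃ t, chk3 f_pm_102 t 30 18 1 = true := ex3_b s339_pm_102 s333_pm_102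

theorem s341_pm_102 : ∃ t, chk3 f_pm_102 t 15 18 1 = true := ex3_a s340_pm_102 s332_pm_102

theorem s342_pm_102 : ∃ t, chk3 f_pm_102 t 29 37 1 = true := ex3_a k190_pm_102 k191_pm_102

theorem s343_pm_102 : ∃ t, chk3 f_pm_102 t 28 37 1 = true := ex3_a k188_pm_102 k189_pm_102

theorem s344_pm_102 : ∃ t, chk3 f_pm_102 t 14 37 1 = true := ex3_a s343_pm_102 s342_pm_102

theorem s345_pm_102 : ∃ t, chk3 f_pm_102 t 29 36 3 = true := ex3_b k186_pm_102 k187_pm_102

theorem s346_pm_102 : ∃ t, chk3 f_pm_102 t 59 72 2 = true := ex3_b k183_pm_102 k184_pm_102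

theorem s347_pm_102 : ∃ t, chk3 f_pm_102 t 29 72 2 = true := ex3_a k182_pm_102 s346_pm_102

theorem s348_pm_102 : ∃ t, chk3 f_pm_102 t 29 36 2 = true := ex3_b s347_pm_102 k185_pm_102

theorem s349_pm_102 : ∃ t, chk3 f_pm_102 t 29 36 1 = true := ex3_c s348_pm_102 s345_pm_102

theorem s350_pm_102 : ∃ t, chk3 f_pm_102 t 14 36 1 = true := ex3_a k181_pm_102 s349_pm_102

theorem s351_pm_102 : ∃ t, chk3 f_pm_102 t 14 18 1 = true := ex3_b s350_pm_102 s344_pm_102

theorem s352_pm_102 : ∃ t, chk3 f_pm_102 t 7 18 1 = true := ex3_a s351_pm_102 s341_pm_102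

theorem s353_pm_102 : ∃ t, chk3 f_pm_102 t 7 9 1 = true := ex3_b s352_pm_102 s324_pm_102

theorem s354_pm_102 : ∃ t, chk3 f_pm_102 t 13 39 1 = true := ex3_a k179_pm_102 k180_pm_102

theorem s355_pm_102 : ∃ t, chk3 f_pm_102 t 6 39 1 = true := ex3_a k178_pm_102 s354_pm_102

theorem s356_pm_102 : ∃ t, chk3 f_pm_102 t 13 38 1 = true := ex3_b k176_pm_102 k177_pm_102

theorem s357_pm_102 : ∃ t, chk3 f_pm_102 t 6 38 1 = true := ex3_a k175_pm_102 s356_pm_102

theorem s358_pm_102 : ∃ t, chk3 f_pm_102 t 6 19 1 = true := ex3_b s357_pm_102 s355_pm_102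

theorem s359_pm_102 : ∃ t, chk3 f_pm_102 t 6 9 1 = true := ex3_b k174_pm_102 s358_pm_102

theorem s360_pm_102 : ∃ t, chk3 f_pm_102 t 3 9 1 = true := ex3_a s359_pm_102 s353_pm_102

theorem s361_pm_102 : ∃ t, chk3 f_pm_102 t 31 71 3 = true := ex3_a k172_pm_102 k173_pm_102

theorem s362_pm_102 : ∃ t, chk3 f_pm_102 t 31 70 3 = true := ex3_b k170_pm_102 k171_pm_102

theorem s363_pm_102 : ∃ t, chk3 f_pm_102 t 31 35 3 = true := ex3_b s362_pm_102 s361_pm_102

theorem s364_pm_102 : ∃ t, chk3 f_pm_102 t 62 34 3 = true := ex3_b k167_pm_102 k168_pm_102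

theorem s365_pm_102 : ∃ t, chk3 f_pm_102 t 31 34 3 = true := ex3_a s364_pm_102 k169_pm_102

theorem s366_pm_102 : ∃ t, chk3 f_pm_102 t 31 17 3 = true := ex3_b s365_pm_102 s363_pm_102

theorem s367_pm_102 : ∃ t, chk3 f_pm_102 t 126 17 2 = true := ex3_a k164_pm_102 k165_pm_102

theorem s368_pm_102 : ∃ t, chk3 f_pm_102 t 63 17 2 = true := ex3_a s367_pm_102 k166_pm_102

theorem s369_pm_102 : ∃ t, chk3 f_pm_102 t 124 71 2 = true := ex3_a k161_pm_102 k162_pm_102

theorem s370_pm_102 : ∃ t, chk3 f_pm_102 t 62 71 2 = true := ex3_a s369_pm_102 k163_pm_102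

theorem s371_pm_102 : ∃ t, chk3 f_pm_102 t 62 141 2 = true := ex3_a k159_pm_102 k160_pm_102

theorem s372_pm_102 : ∃ t, chk3 f_pm_102 t 62 140 2 = true := ex3_a k157_pm_102 k158_pm_102

theorem s373_pm_102 : ∃ t, chk3 f_pm_102 t 62 70 2 = true := ex3_b s372_pm_102 s371_pm_102

theorem s374_pm_102 : ∃ t, chk3 f_pm_102 t 62 35 2 = true := ex3_b s373_pm_102 s370_pm_102

theorem s375_pm_102 : ∃ t, chk3 f_pm_102 t 125 139 2 = true := ex3_c k155_pm_102 k156_pm_102

theorem s376_pm_102 : ∃ t, chk3 f_pm_102 t 125 69 2 = true := ex3_b k154_pm_102 s375_pm_102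

theorem s377_pm_102 : ∃ t, chk3 f_pm_102 t 125 34 2 = true := ex3_b k153_pm_102 s376_pm_102

theorem s378_pm_102 : ∃ t, chk3 f_pm_102 t 249 69 4 = true := ex3_c k150_pm_102 k151_pm_102

theorem s379_pm_102 : ∃ t, chk3 f_pm_102 t 248 69 8 = true := ex3_c k147_pm_102 k148_pm_102

theorem s380_pm_102 : ∃ t, chk3 f_pm_102 t 248 69 4 = true := ex3_c s379_pm_102 k149_pm_102

theorem s381_pm_102 : ∃ t, chk3 f_pm_102 t 124 69 4 = true := ex3_a s380_pm_102 s378_pm_102

theorem s382_pm_102 : ∃ t, chk3 f_pm_102 t 124 69 2 = true := ex3_c s381_pm_102 k152_pm_102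

theorem s383_pm_102 : ∃ t, chk3 f_pm_102 t 249 137 4 = true := ex3_a k144_pm_102 k145_pm_102

theorem s384_pm_102 : ∃ t, chk3 f_pm_102 t 248 137 8 = true := ex3_a k141_pm_102 k142_pm_102

theorem s385_pm_102 : ∃ t, chk3 f_pm_102 t 248 137 4 = true := ex3_c s384_pm_102 k143_pm_102

theorem s386_pm_102 : ∃ t, chk3 f_pm_102 t 124 137 4 = true := ex3_a s385_pm_102 s383_pm_102

theorem s387_pm_102 : ∃ t, chk3 f_pm_102 t 497 273 8 = true := ex3_b k137_pm_102 k138_pm_102

theorem s388_pm_102 : ∃ t, chk3 f_pm_102 t 497 136 8 = true := ex3_b k136_pm_102 s387_pm_102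

theorem s389_pm_102 : ∃ t, chk3 f_pm_102 t 993 136 8 = true := ex3_c k134_pm_102 k135_pm_102

theorem s390_pm_102 : ∃ t, chk3 f_pm_102 t 992 136 16 = true := ex3_c k131_pm_102 k132_pm_102

theorem s391_pm_102 : ∃ t, chk3 f_pm_102 t 992 136 8 = true := ex3_c s390_pm_102 k133_pm_102

theorem s392_pm_102 : ∃ t, chk3 f_pm_102 t 496 136 8 = true := ex3_a s391_pm_102 s389_pm_102

theorem s393_pm_102 : ∃ t, chk3 f_pm_102 t 248 136 8 = true := ex3_a s392_pm_102 s388_pm_102

theorem s394_pm_102 : ∃ t, chk3 f_pm_102 t 124 136 8 = true := ex3_a s393_pm_102 k139_pm_102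

theorem s395_pm_102 : ∃ t, chk3 f_pm_102 t 124 136 4 = true := ex3_c s394_pm_102 k140_pm_102

theorem s396_pm_102 : ∃ t, chk3 f_pm_102 t 124 68 4 = true := ex3_b s395_pm_102 s386_pm_102

theorem s397_pm_102 : ∃ t, chk3 f_pm_102 t 124 68 2 = true := ex3_c s396_pm_102 k146_pm_102

theorem s398_pm_102 : ∃ t, chk3 f_pm_102 t 124 34 2 = true := ex3_b s397_pm_102 s382_pm_102

theorem s399_pm_102 : ∃ t, chk3 f_pm_102 t 62 34 2 = true := ex3_a s398_pm_102 s377_pm_102

theorem s400_pm_102 : ∃ t, chk3 f_pm_102 t 62 17 2 = true := ex3_b s399_pm_102 s374_pm_102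

theorem s401_pm_102 : ∃ t, chk3 f_pm_102 t 31 17 2 = true := ex3_a s400_pm_102 s368_pm_102

theorem s402_pm_102 : ∃ t, chk3 f_pm_102 t 31 17 1 = true := ex3_c s401_pm_102 s366_pm_102

theorem s403_pm_102 : ∃ t, chk3 f_pm_102 t 60 71 3 = true := ex3_c k128_pm_102 k129_pm_102

theorem s404_pm_102 : ∃ t, chk3 f_pm_102 t 30 71 3 = true := ex3_a s403_pm_102 k130_pm_102

theorem s405_pm_102 : ∃ t, chk3 f_pm_102 t 60 70 3 = true := ex3_b k125_pm_102 k126_pm_102

theorem s406_pm_102 : ∃ t, chk3 f_pm_102 t 30 70 3 = true := ex3_a s405_pm_102 k127_pm_102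

theorem s407_pm_102 : ∃ t, chk3 f_pm_102 t 30 35 3 = true := ex3_b s406_pm_102 s404_pm_102

theorem s408_pm_102 : ∃ t, chk3 f_pm_102 t 61 71 2 = true := ex3_a k123_pm_102 k124_pm_102

theorem s409_pm_102 : ∃ t, chk3 f_pm_102 t 60 287 2 = true := ex3_a k121_pm_102 k122_pm_102

theorem s410_pm_102 : ∃ t, chk3 f_pm_102 t 241 286 2 = true := ex3_c k118_pm_102 k119_pm_102

theorem s411_pm_102 : ∃ t, chk3 f_pm_102 t 120 286 2 = true := ex3_a k117_pm_102 s410_pm_102

theorem s412_pm_102 : ∃ t, chk3 f_pm_102 t 60 286 2 = true := ex3_a s411_pm_102 k120_pm_102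

theorem s413_pm_102 : ∃ t, chk3 f_pm_102 t 60 143 2 = true := ex3_b s412_pm_102 s409_pm_102

theorem s414_pm_102 : ∃ t, chk3 f_pm_102 t 120 285 2 = true := ex3_b k114_pm_102 k115_pm_102

theorem s415_pm_102 : ∃ t, chk3 f_pm_102 t 60 285 2 = true := ex3_a s414_pm_102 k116_pm_102

theorem s416_pm_102 : ∃ t, chk3 f_pm_102 t 60 284 2 = true := ex3_a k112_pm_102 k113_pm_102

theorem s417_pm_102 : ∃ t, chk3 f_pm_102 t 60 142 2 = true := ex3_b s416_pm_102 s415_pm_102

theorem s418_pm_102 : ∃ t, chk3 f_pm_102 t 60 71 2 = true := ex3_b s417_pm_102 s413_pm_102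

theorem s419_pm_102 : ∃ t, chk3 f_pm_102 t 30 71 2 = true := ex3_a s418_pm_102 s408_pm_102

theorem s420_pm_102 : ∃ t, chk3 f_pm_102 t 122 70 2 = true := ex3_b k109_pm_102 k110_pm_102

theorem s421_pm_102 : ∃ t, chk3 f_pm_102 t 61 70 2 = true := ex3_a s420_pm_102 k111_pm_102

theorem s422_pm_102 : ∃ t, chk3 f_pm_102 t 121 141 2 = true := ex3_b k107_pm_102 k108_pm_102

theorem s423_pm_102 : ∃ t, chk3 f_pm_102 t 480 141 2 = true := ex3_a k103_pm_102 k104_pm_102

theorem s424_pm_102 : ∃ t, chk3 f_pm_102 t 240 141 2 = true := ex3_a s423_pm_102 k105_pm_102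

theorem s425_pm_102 : ∃ t, chk3 f_pm_102 t 120 141 2 = true := ex3_a s424_pm_102 k106_pm_102

theorem s426_pm_102 : ∃ t, chk3 f_pm_102 t 60 141 2 = true := ex3_a s425_pm_102 s422_pm_102

theorem s427_pm_102 : ∃ t, chk3 f_pm_102 t 60 563 2 = true := ex3_a k101_pm_102 k102_pm_102

theorem s428_pm_102 : ∃ t, chk3 f_pm_102 t 60 281 2 = true := ex3_b k100_pm_102 s427_pm_102

theorem s429_pm_102 : ∃ t, chk3 f_pm_102 t 60 280 2 = true := ex3_b k98_pm_102 k99_pm_102

theorem s430_pm_102 : ∃ t, chk3 f_pm_102 t 60 140 2 = true := ex3_b s429_pm_102 s428_pm_102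

theorem s431_pm_102 : ∃ t, chk3 f_pm_102 t 60 70 2 = true := ex3_b s430_pm_102 s426_pm_102

theorem s432_pm_102 : ∃ t, chk3 f_pm_102 t 30 70 2 = true := ex3_a s431_pm_102 s421_pm_102

theorem s433_pm_102 : ∃ t, chk3 f_pm_102 t 30 35 2 = true := ex3_b s432_pm_102 s419_pm_102

theorem s434_pm_102 : ∃ t, chk3 f_pm_102 t 30 35 1 = true := ex3_c s433_pm_102 s407_pm_102

theorem s435_pm_102 : ∃ t, chk3 f_pm_102 t 122 69 3 = true := ex3_b k95_pm_102 k96_pm_102

theorem s436_pm_102 : ∃ t, chk3 f_pm_102 t 61 69 3 = true := ex3_a s435_pm_102 k97_pm_102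

theorem s437_pm_102 : ∃ t, chk3 f_pm_102 t 61 274 3 = true := ex3_a k92_pm_102 k93_pm_102

theorem s438_pm_102 : ∃ t, chk3 f_pm_102 t 61 137 3 = true := ex3_b s437_pm_102 k94_pm_102

theorem s439_pm_102 : ∃ t, chk3 f_pm_102 t 123 136 3 = true := ex3_b k90_pm_102 k91_pm_102

theorem s440_pm_102 : ∃ t, chk3 f_pm_102 t 61 136 3 = true := ex3_a k89_pm_102 s439_pm_102

theorem s441_pm_102 : ∃ t, chk3 f_pm_102 t 61 68 3 = true := ex3_b s440_pm_102 s438_pm_102

theorem s442_pm_102 : ∃ t, chk3 f_pm_102 t 61 34 3 = true := ex3_b s441_pm_102 s436_pm_102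

theorem s443_pm_102 : ∃ t, chk3 f_pm_102 t 123 69 4 = true := ex3_a k86_pm_102 k87_pm_102

theorem s444_pm_102 : ∃ t, chk3 f_pm_102 t 123 69 2 = true := ex3_c s443_pm_102 k88_pm_102

theorem s445_pm_102 : ∃ t, chk3 f_pm_102 t 122 139 2 = true := ex3_a k84_pm_102 k85_pm_102

theorem s446_pm_102 : ∃ t, chk3 f_pm_102 t 488 138 2 = true := ex3_b k80_pm_102 k81_pm_102

theorem s447_pm_102 : ∃ t, chk3 f_pm_102 t 244 138 2 = true := ex3_a s446_pm_102 k82_pm_102

theorem s448_pm_102 : ∃ t, chk3 f_pm_102 t 122 138 2 = true := ex3_a s447_pm_102 k83_pm_102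

theorem s449_pm_102 : ∃ t, chk3 f_pm_102 t 122 69 2 = true := ex3_b s448_pm_102 s445_pm_102

theorem s450_pm_102 : ∃ t, chk3 f_pm_102 t 61 69 2 = true := ex3_a s449_pm_102 s444_pm_102

theorem s451_pm_102 : ∃ t, chk3 f_pm_102 t 247 137 4 = true := ex3_a k77_pm_102 k78_pm_102

theorem s452_pm_102 : ∃ t, chk3 f_pm_102 t 247 137 2 = true := ex3_c s451_pm_102 k79_pm_102

theorem s453_pm_102 : ∃ t, chk3 f_pm_102 t 246 274 2 = true := ex3_b k74_pm_102 k75_pm_102

theorem s454_pm_102 : ∃ t, chk3 f_pm_102 t 246 137 2 = true := ex3_b s453_pm_102 k76_pm_102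

theorem s455_pm_102 : ∃ t, chk3 f_pm_102 t 123 137 2 = true := ex3_a s454_pm_102 s452_pm_102

theorem s456_pm_102 : ∃ t, chk3 f_pm_102 t 123 273 5 = true := ex3_b k72_pm_102 k73_pm_102

theorem s457_pm_102 : ∃ t, chk3 f_pm_102 t 123 136 5 = true := ex3_b k71_pm_102 s456_pm_102

theorem s458_pm_102 : ∃ t, chk3 f_pm_102 t 247 136 4 = true := ex3_b k69_pm_102 k70_pm_102

theorem s459_pm_102 : ∃ t, chk3 f_pm_102 t 492 273 4 = true := ex3_b k66_pm_102 k67_pm_102

theorem s460_pm_102 : ∃ t, chk3 f_pm_102 t 246 273 4 = true := ex3_a s459_pm_102 k68_pm_102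

theorem s461_pm_102 : ∃ t, chk3 f_pm_102 t 246 136 4 = true := ex3_b k65_pm_102 s460_pm_102

theorem s462_pm_102 : ∃ t, chk3 f_pm_102 t 123 136 4 = true := ex3_a s461_pm_102 s458_pm_102

theorem s463_pm_102 : ∃ t, chk3 f_pm_102 t 123 136 2 = true := ex3_c s462_pm_102 s457_pm_102

theorem s464_pm_102 : ∃ t, chk3 f_pm_102 t 123 68 2 = true := ex3_b s463_pm_102 s455_pm_102

theorem s465_pm_102 : ∃ t, chk3 f_pm_102 t 122 275 2 = true := ex3_b k63_pm_102 k64_pm_102

theorem s466_pm_102 : ∃ t, chk3 f_pm_102 t 491 274 2 = true := ex3_a k61_pm_102 k62_pm_102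

theorem s467_pm_102 : ∃ t, chk3 f_pm_102 t 245 274 2 = true := ex3_a k60_pm_102 s466_pm_102

theorem s468_pm_102 : ∃ t, chk3 f_pm_102 t 122 274 2 = true := ex3_a k59_pm_102 s467_pm_102

theorem s469_pm_102 : ∃ t, chk3 f_pm_102 t 122 137 2 = true := ex3_b s468_pm_102 s465_pm_102

theorem s470_pm_102 : ∃ t, chk3 f_pm_102 t 122 68 2 = true := ex3_b k58_pm_102 s469_pm_102

theorem s471_pm_102 : ∃ t, chk3 f_pm_102 t 61 68 2 = true := ex3_a s470_pm_102 s464_pm_102

theorem s472_pm_102 : ∃ t, chk3 f_pm_102 t 61 34 2 = true := ex3_b s471_pm_102 s450_pm_102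

theorem s473_pm_102 : ∃ t, chk3 f_pm_102 t 61 34 1 = true := ex3_c s472_pm_102 s442_pm_102

theorem s474_pm_102 : ∃ t, chk3 f_pm_102 t 243 139 2 = true := ex3_c k55_pm_102 k56_pm_102

theorem s475_pm_102 : ∃ t, chk3 f_pm_102 t 242 139 2 = true := ex3_a k53_pm_102 k54_pm_102

theorem s476_pm_102 : ∃ t, chk3 f_pm_102 t 121 139 2 = true := ex3_a s475_pm_102 s474_pm_102

theorem s477_pm_102 : ∃ t, chk3 f_pm_102 t 60 139 2 = true := ex3_a k52_pm_102 s476_pm_102

theorem s478_pm_102 : ∃ t, chk3 f_pm_102 t 243 277 2 = true := ex3_b k50_pm_102 k51_pm_102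

theorem s479_pm_102 : ∃ t, chk3 f_pm_102 t 243 138 2 = true := ex3_b k49_pm_102 s478_pm_102

theorem s480_pm_102 : ∃ t, chk3 f_pm_102 t 121 138 2 = true := ex3_a k48_pm_102 s479_pm_102

theorem s481_pm_102 : ∃ t, chk3 f_pm_102 t 60 138 2 = true := ex3_a k47_pm_102 s480_pm_102

theorem s482_pm_102 : ∃ t, chk3 f_pm_102 t 60 69 2 = true := ex3_b s481_pm_102 s477_pm_102

theorem s483_pm_102 : ∃ t, chk3 f_pm_102 t 60 69 1 = true := ex3_c s482_pm_102 k57_pm_102

theorem s484_pm_102 : ∃ t, chk3 f_pm_102 t 60 34 1 = true := ex3_b k46_pm_102 s483_pm_102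

theorem s485_pm_102 : ∃ t, chk3 f_pm_102 t 30 34 1 = true := ex3_a s484_pm_102 s473_pm_102

theorem s486_pm_102 : ∃ t, chk3 f_pm_102 t 30 17 1 = true := ex3_b s485_pm_102 s434_pm_102

theorem s487_pm_102 : ∃ t, chk3 f_pm_102 t 15 17 1 = true := ex3_a s486_pm_102 s402_pm_102

theorem s488_pm_102 : ∃ t, chk3 f_pm_102 t 59 143 2 = true := ex3_a k43_pm_102 k44_pm_102

theorem s489_pm_102 : ∃ t, chk3 f_pm_102 t 119 284 2 = true := ex3_b k40_pm_102 k41_pm_102

theorem s490_pm_102 : ∃ t, chk3 f_pm_102 t 59 284 2 = true := ex3_a k39_pm_102 s489_pm_102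

theorem s491_pm_102 : ∃ t, chk3 f_pm_102 t 59 142 2 = true := ex3_b s490_pm_102 k42_pm_102

theorem s492_pm_102 : ∃ t, chk3 f_pm_102 t 59 71 2 = true := ex3_b s491_pm_102 s488_pm_102

theorem s493_pm_102 : ∃ t, chk3 f_pm_102 t 29 71 2 = true := ex3_a k38_pm_102 s492_pm_102

theorem s494_pm_102 : ∃ t, chk3 f_pm_102 t 14 71 2 = true := ex3_a k37_pm_102 s493_pm_102

theorem s495_pm_102 : ∃ t, chk3 f_pm_102 t 14 71 1 = true := ex3_c s494_pm_102 k45_pm_102

theorem s496_pm_102 : ∃ t, chk3 f_pm_102 t 239 141 1 = true := ex3_a k35_pm_102 k36_pm_102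

theorem s497_pm_102 : ∃ t, chk3 f_pm_102 t 119 141 1 = true := ex3_a k34_pm_102 s496_pm_102

theorem s498_pm_102 : ∃ t, chk3 f_pm_102 t 59 141 1 = true := ex3_a k33_pm_102 s497_pm_102

theorem s499_pm_102 : ∃ t, chk3 f_pm_102 t 29 141 1 = true := ex3_a k32_pm_102 s498_pm_102

theorem s500_pm_102 : ∃ t, chk3 f_pm_102 t 14 141 1 = true := ex3_a k31_pm_102 s499_pm_102

theorem s501_pm_102 : ∃ t, chk3 f_pm_102 t 14 70 1 = true := ex3_b k30_pm_102 s500_pm_102

theorem s502_pm_102 : ∃ t, chk3 f_pm_102 t 14 35 1 = true := ex3_b s501_pm_102 s495_pm_102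

theorem s503_pm_102 : ∃ t, chk3 f_pm_102 t 14 17 1 = true := ex3_b k29_pm_102 s502_pm_102

theorem s504_pm_102 : ∃ t, chk3 f_pm_102 t 7 17 1 = true := ex3_a s503_pm_102 s487_pm_102

theorem s505_pm_102 : ∃ t, chk3 f_pm_102 t 61 67 5 = true := ex3_a k25_pm_102 k26_pm_102

theorem s506_pm_102 : ∃ t, chk3 f_pm_102 t 30 67 5 = true := ex3_a k24_pm_102 s505_pm_102

theorem s507_pm_102 : ∃ t, chk3 f_pm_102 t 30 33 5 = true := ex3_b k23_pm_102 s506_pm_102

theorem s508_pm_102 : ∃ t, chk3 f_pm_102 t 991 543 16 = true := ex3_a k19_pm_102 k20_pm_102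

theorem s509_pm_102 : ∃ t, chk3 f_pm_102 t 495 543 16 = true := ex3_a k18_pm_102 s508_pm_102

theorem s510_pm_102 : ∃ t, chk3 f_pm_102 t 1981 1085 64 = true := ex3_a k13_pm_102 k14_pm_102

theorem s511_pm_102 : ∃ t, chk3 f_pm_102 t 1981 1085 32 = true := ex3_c s510_pm_102 k15_pm_102

theorem s512_pm_102 : ∃ t, chk3 f_pm_102 t 1981 1085 16 = true := ex3_c s511_pm_102 k16_pm_102

theorem s513_pm_102 : ∃ t, chk3 f_pm_102 t 990 1085 16 = true := ex3_a k12_pm_102 s512_pm_102

theorem s514_pm_102 : ∃ t, chk3 f_pm_102 t 495 1085 16 = true := ex3_a s513_pm_102 k17_pm_102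

theorem s515_pm_102 : ∃ t, chk3 f_pm_102 t 495 542 16 = true := ex3_b k11_pm_102 s514_pm_102

theorem s516_pm_102 : ∃ t, chk3 f_pm_102 t 495 271 16 = true := ex3_b s515_pm_102 s509_pm_102

theorem s517_pm_102 : ∃ t, chk3 f_pm_102 t 247 271 16 = true := ex3_a k10_pm_102 s516_pm_102

theorem s518_pm_102 : ∃ t, chk3 f_pm_102 t 247 135 16 = true := ex3_b k9_pm_102 s517_pm_102

theorem s519_pm_102 : ∃ t, chk3 f_pm_102 t 123 135 16 = true := ex3_a k8_pm_102 s518_pm_102

theorem s520_pm_102 : ∃ t, chk3 f_pm_102 t 123 135 8 = true := ex3_c s519_pm_102 k21_pm_102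

theorem s521_pm_102 : ∃ t, chk3 f_pm_102 t 61 135 8 = true := ex3_a k7_pm_102 s520_pm_102

theorem s522_pm_102 : ∃ t, chk3 f_pm_102 t 61 67 8 = true := ex3_b k6_pm_102 s521_pm_102

theorem s523_pm_102 : ∃ t, chk3 f_pm_102 t 61 67 4 = true := ex3_c s522_pm_102 k22_pm_102

theorem s524_pm_102 : ∃ t, chk3 f_pm_102 t 30 67 4 = true := ex3_a k5_pm_102 s523_pm_102

theorem s525_pm_102 : ∃ t, chk3 f_pm_102 t 30 33 4 = true := ex3_b k4_pm_102 s524_pm_102

theorem s526_pm_102 : ∃ t, chk3 f_pm_102 t 30 33 2 = true := ex3_c s525_pm_102 s507_pm_102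

theorem s527_pm_102 : ∃ t, chk3 f_pm_102 t 15 33 2 = true := ex3_a s526_pm_102 k27_pm_102

theorem s528_pm_102 : ∃ t, chk3 f_pm_102 t 15 16 2 = true := ex3_b k3_pm_102 s527_pm_102

theorem s529_pm_102 : ∃ t, chk3 f_pm_102 t 15 16 1 = true := ex3_c s528_pm_102 k28_pm_102

theorem s530_pm_102 : ∃ t, chk3 f_pm_102 t 7 16 1 = true := ex3_a k2_pm_102 s529_pm_102

theorem s531_pm_102 : ∃ t, chk3 f_pm_102 t 7 8 1 = true := ex3_b s530_pm_102 s504_pm_102

theorem s532_pm_102 : ∃ t, chk3 f_pm_102 t 3 8 1 = true := ex3_a k1_pm_102 s531_pm_102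

theorem s533_pm_102 : ∃ t, chk3 f_pm_102 t 3 4 1 = true := ex3_b s532_pm_102 s360_pm_102

theorem s534_pm_102 : ∃ t, chk3 f_pm_102 t 1 4 1 = true := ex3_a k0_pm_102 s533_pm_102

theorem s535_pm_102 : ∃ t, chk3 f_pm_102 t 1 2 1 = true := ex3_b s534_pm_102 s309_pm_102

theorem s536_pm_102 : ∃ t, chk3 f_pm_102 t 1 1 1 = true := ex3_b s535_pm_102 s272_pm_102

theorem c_pm_102 : CertNX 536870912 536870912 0 536870912 1046898278 26843546 3 true true false .npp 1 0 2
    ndN0q1 ndN0q0 pcN2 cut_pm_102 Ext.none :=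
  certNX1 (fam := true) (s1 := true) (s2 := false) (a := 1) (b := 0) (c := 2) (cn := .npp) (n1 := ndN0q1) (n2 := ndN0q0) (pc := pcN2) (cut := cut_pm_102) (xt := Ext.none) (P1 := 536870912) (W1 := 536870912) (P2 := 0) (W2 := 536870912) (P3 := 1046898278) (W3 := 26843546) (N0 := 3)
    rfl (fun _ => rfl) s536_pm_102

end Pool.Agent.Strip051.G.IE1.Tab.C.NA00

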