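import Pool.Agent.Strip051.G.IE1.Tab

/-! # Certificates N8 (generated) -/

set_option linter.all false
set_option maxRecDepth 100000

namespace Pool.Agent.Strip051.G.IE1.Tab.C.NA00

open Pool.Agent.Strip051.PB Pool.Agent.Strip051.PB.T
open Pool.Agent.Strip051.G.IE1.Tab

noncomputable def cut_pm_202 : Cut := Cut.of [[⟨0, 1, 0, 67108864⟩, ⟨1, 0, 0, 67108864⟩, ⟨2, 1, 0, 67108864⟩, ⟨3, 0, 0, 1233125376⟩]]

noncomputable def f_pm_202 : ℕ → ℕ → ℕ → ℕ → Bool := onCell 0 536870912 1073741824 536870912 1046898278 26843546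
    (rowNX 3 1 true true false .pp 2 0 2 (qsf 0 536870912 0 536870912 2) ndN0q2 ndN0q0 pcN2 cut_pm_202 Ext.none)

def k0_pm_202 : ∃ t, chk3 f_pm_202 t 2 4 1 = true :=
  ⟨(b (l 1) (a (l 1) (b (l 1) (b (l 1) (a (l 1) (a (l 1) (c (l 16153584) (c (l 16143256) (b (l 1) (c (l 16207728) (a (b (l 1) (c (l 16214792) (l 16086552))) (b (c (l 16189840) (a (l 16176440) (b (l 16180000) (l 16171624)))) (c (a (l 16246568) (l 16164304)) (a (b (l 16205096) (l 16238208)) (l 16222728))))))))))))))), by decide +kernel⟩

def k1_pm_202 : ∃ t, chk3 f_pm_202 t 6 8 1 = true :=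
  ⟨(l 1), by decide +kernel⟩

def k2_pm_202 : ∃ t, chk3 f_pm_202 t 7 16 1 = true :=
  ⟨(a (l 1) (l 6)), by decide +kernel⟩

def k3_pm_202 : ∃ t, chk3 f_pm_202 t 14 34 1 = true :=
  ⟨(a (l 1) (a (l 1) (a (b (l 1) (b (a (l 1) (l 6)) (c (c (l 16077008) (c (l 16083288) (l 16078944))) (c (l 16070784) (c (l 16062712) (b (a (l 16019336) (a (a (l 16054088) (l 6)) (l 6))) (c (l 16069472) (a (c (l 16038968) (a (l 16022816) (b (l 16045360) (l 16055176)))) (a (c (l 16018256) (b (l 16073208) (l 16082736))) (b (l 6) (l 16110552))))))))))) (l 6)))), by decide +kernel⟩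

def k4_pm_202 : ∃ t, chk3 f_pm_202 t 28 35 1 = true :=
  ⟨(a (l 1) (b (l 1) (c (c (c (b (c (l 15942632) (l 15942112)) (c (b (l 15983680) (l 16010288)) (l 15994736))) (l 15859328)) (c (l 15957896) (l 15951568))) (c (c (l 15945200) (l 15938888)) (c (a (l 15905224) (l 15941792)) (a (b (l 1) (c (l 15930544) (c (a (l 15913824) (b (l 15925680) (l 15954672))) (a (l 15890136) (b (l 15923184) (l 15930896)))))) (b (c (l 15930280) (a (b (l 1) (c (l 15925568) (l 15923024))) (b (c (l 15928112) (l 15925496)) (c (l 15933744) (a (l 15944792) (l 15959008)))))) (c (a (b (l 15956400) (c (l 15986648) (l 15984296))) (c (b (l 15986856) (l 16015056)) (b (l 15984472) (l 16010504)))) (a (b (c (l 15953376) (l 15887640)) (c (l 15980072) (l 15980744))) (c (b (l 15980200) (l 16012576)) (l 15994952))))))))))), by decide +kernel⟩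

def k5_pm_202 : ∃ t, chk3 f_pm_202 t 29 35 2 = true :=
  ⟨(c (b (a (c (a (l 15973240) (l 16040712)) (a (b (l 1) (l 15977224)) (b (l 16021800) (l 16065240)))) (c (a (l 16136312) (l 16233288)) (b (c (l 16171144) (l 16173672)) (l 16103912)))) (c (a (b (a (c (l 16026024) (l 16026592)) (l 16108336)) (c (a (l 16074272) (l 16151888)) (l 16111808))) (b (c (l 16241832) (l 16244560)) (c (l 16195576) (l 16279664)))) (a (a (l 16046040) (l 16127016)) (a (l 16215184) (l 16307128))))) (a (b (a (b (l 1) (l 15968624)) (l 16037232)) (a (l 15995632) (c (l 16122072) (l 16117992)))) (b (c (l 16104848) (a (l 16133792) (l 16236016))) (c (a (l 16212512) (l 16307696)) (a (l 16211648) (b (l 16289600) (l 16334832))))))), by decide +kernel⟩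

def k6_pm_202 : ∃ t, chk3 f_pm_202 t 29 35 6 = true :=
  ⟨(a (b (a (l 15932504) (l 16025896)) (c (a (l 16029448) (l 16116272)) (a (l 16027440) (b (l 16091600) (c (l 16143568) (l 16082464)))))) (b (c (a (l 16129528) (l 16215488)) (a (l 16129320) (b (l 16218136) (c (l 16261864) (a (l 16234384) (c (l 16293552) (b (l 16285168) (l 16309792)))))))) (c (a (l 16135808) (c (l 16244888) (b (l 16303888) (a (l 16325544) (b (l 16376544) (l 16354072)))))) (a (b (c (l 16196704) (a (l 16174936) (c (l 16227880) (l 16182688)))) (c (a (l 16222816) (b (l 16263696) (l 16293376))) (a (b (l 16184824) (c (l 16243944) (l 16237776))) (c (b (l 16270416) (l 16286816)) (l 16228592))))) (b (c (a (l 16280120) (b (l 16324256) (l 16310808))) (a (c (b (l 16273624) (l 16299648)) (b (l 16276272) (l 16292472))) (c (b (l 16331624) (l 16344256)) (b (l 16324008) (l 16329528))))) (c (a (b (l 16321672) (c (l 16345248) (l 16335504))) (c (b (l 16374192) (l 16383856)) (b (l 16364208) (l 16366280)))) (a (c (l 16257528) (l 16308024)) (l 16355216)))))))),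 by decide +kernel⟩

def k7_pm_202 : ∃ t, chk3 f_pm_202 t 58 70 7 = true :=
  ⟨(c (a (l 15922616) (b (l 15995744) (c (l 16041408) (l 16041272)))) (a (b (l 1) (c (l 15943152) (a (b (l 1) (c (l 15933328) (a (l 15923032) (l 15938608)))) (b (c (l 15946960) (a (l 15932080) (l 15956536))) (c (a (l 15958848) (l 15983336)) (a (l 15956296) (l 15980000))))))) (b (c (l 15992472) (a (b (l 1) (c (l 15974584) (a (l 15958992) (b (l 15979208) (l 15990304))))) (b (c (l 16005264) (a (l 15989440) (b (l 16010808) (l 16021296)))) (c (a (l 16013840) (l 15977528)) (a (l 15969288) (l 16037488)))))) (c (a (b (l 15999952) (c (l 16025944) (a (l 16011352) (l 16036776)))) (c (b (l 16054264) (a (l 16065696) (l 16090048))) (b (a (l 16039320) (l 16065480)) (l 16072656)))) (a (b (c (a (l 15984576) (l 16010448)) (a (l 15961032) (l 16007128))) (c (l 16019928) (l 16020936))) (c (b (l 16048304) (l 16074216)) (l 16061232))))))), by decide +kernel⟩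

def k8_pm_202 : ∃ t, chk3 f_pm_202 t 58 71 7 = true :=
  ⟨(c (a (b (l 15934496) (c (l 16052664) (a (b (l 16018744) (c (l 16049360) (l 16046016))) (c (b (l 16058120) (l 16060688)) (b (l 16012680) (l 16083912)))))) (b (c (l 16050336) (a (b (l 16052472) (c (l 16080696) (l 15993152))) (b (c (l 16106416) (a (l 16091864) (l 16121448))) (c (l 16134880) (l 16129704))))) (b (c (a (l 16105976) (c (l 16158872) (l 16161816))) (a (c (l 16110376) (l 16105224)) (l 16155848))) (c (a (c (l 16136120) (l 16138696)) (l 16143224)) (l 16151912))))) (a (b (c (a (b (l 15961584) (c (l 15989688) (l 15966288))) (c (b (l 16000816) (l 16005648)) (b (a (l 15986880) (l 16010936)) (l 16021928)))) (a (b (c (a (l 15950904) (l 15966648)) (a (l 15948384) (l 15963312))) (c (l 15982920) (l 15983952))) (b (c (l 15994768) (l 15995352)) (l 16022416)))) (c (a (b (c (l 16016712) (l 16012096)) (l 16045440)) (l 16063872)) (l 16043384))) (c (b (a (b (c (l 15987536) (l 16045704)) (l 16077112)) (l 16111416)) (l 16133448)) (l 16107232)))), by decide +kernel⟩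

def k9_pm_202 : ∃ t, chk3 f_pm_202 t 59 35 7 = true :=
  ⟨(b (c (a (b (c (l 16103864) (a (l 16075168) (b (l 16119872) (l 16142384)))) (c (a (l 16122640) (l 16093960)) (a (b (l 16109456) (c (l 16135184) (a (l 16119896) (l 16150432)))) (b (c (l 16166888) (a (l 16150696) (l 16182280))) (c (l 16192456) (l 16187376)))))) (b (b (a (a (l 16164272) (l 6)) (l 6)) (c (a (l 16203520) (a (l 16245264) (l 6))) (a (c (l 16201432) (a (l 16163272) (l 16216992))) (c (l 16219488) (l 16256864))))) (c (a (b (c (l 16226616) (l 16223296)) (c (l 16252512) (l 16248152))) (b (c (l 16287592) (l 16282600)) (c (l 16303456) (l 16292336)))) (a (c (b (l 16204544) (l 16242560)) (l 16229464)) (l 16284288))))) (a (b (c (a (b (l 16061768) (c (l 16085608) (a (l 16070176) (l 16097048)))) (c (b (l 16119928) (a (l 16127736) (l 16158384))) (b (a (l 16103896) (l 16089528)) (l 16139936)))) (a (b (c (a (l 16046040) (c (l 16074496) (l 16072288))) (a (b (l 16037872) (l 16047680)) (l 16070712))) (c (l 16079592) (l 16081032))) (c (b (l 16113824) (l 16137408))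 (l 16125816)))) (c (a (c (b (a (l 16095296) (l 16120024)) (l 16132128)) (l 16116768)) (l 16171064)) (l 16141248))) (b (c (a (c (b (a (l 16121056) (l 6)) (l 16198432)) (l 16184856)) (l 16242696)) (l 16210856)) (l 16249320)))) (c (a (b (b (c (a (l 16157576) (c (l 16213080) (l 16216552))) (c (a (l 16162240) (l 16210680)) (l 16181296))) (c (a (c (l 16184568) (l 16187768)) (l 16195584)) (l 16203272))) (c (a (c (l 16157576) (l 16215872)) (l 16258984)) (l 16230264))) (a (b (c (c (l 16214128) (l 16273184)) (l 16263824)) (l 16302888)) (l 16334464))) (l 16255672))), by decide +kernel⟩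

def k10_pm_202 : ∃ t, chk3 f_pm_202 t 15 34 1 = true :=
  ⟨(l 6), by decide +kernel⟩

def k11_pm_202 : ∃ t, chk3 f_pm_202 t 60 35 1 = true :=
  ⟨(b (a (a (b (l 6) (b (l 6) (c (c (l 16313960) (l 16338528)) (c (c (l 16349624) (c (l 16358400) (c (l 16366328) (l 16358376)))) (l 16341136))))) (l 6)) (l 6)) (a (c (c (c (b (l 16339024) (c (l 16413032) (l 16416168))) (l 16361824)) (c (b (l 16389320) (l 16429064)) (b (l 16400672) (a (l 16419568) (l 16412448))))) (c (c (b (c (l 16393392) (a (l 16325312) (b (l 16444912) (c (l 16467320) (l 16457616))))) (c (a (l 16436944) (b (l 16484168) (c (l 16504744) (l 16492024)))) (a (b (c (l 16433992) (l 16425032)) (c (l 16443912) (l 16431888))) (c (b (l 16474984) (l 16471952)) (l 16461096))))) (c (b (a (b (c (l 16391864) (l 16386240)) (c (l 16405808) (l 16395704))) (c (b (l 16439928) (l 16446664)) (b (l 16429848) (l 16429648)))) (a (c (b (l 16413936) (l 16413480)) (l 16404208)) (l 16451968))) (b (a (c (b (l 16377184) (l 16379560)) (l 16370136)) (l 16420704)) (l 16425864)))) (l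 16406992))) (b (l 6) (c (c (c (c (c (a (l 16443256) (l 16485464)) (a (l 16468568) (l 16489632))) (l 16479560)) (l 16489656)) (c (l 16490392) (c (a (l 16517640) (l 16526824)) (a (l 16460952) (c (l 16524360) (b (l 6) (l 16536384))))))) (c (c (c (b (a (c (l 16518520) (l 16505424)) (l 6)) (a (c (l 16520776) (l 16499024)) (l 16511704))) (l 16474216)) (l 16488912)) (l 16486192)))))), by decide +kernel⟩

def k12_pm_202 : ∃ t, chk3 f_pm_202 t 61 35 1 = true :=
  ⟨(b (l 6) (b (l 6) (b (l 6) (b (l 6) (c (c (a (c (a (c (l 16504760) (l 16523120)) (c (l 16499056) (l 16523944))) (a (l 16496256) (c (l 16560000) (l 16583776)))) (c (c (l 16531384) (l 16522168)) (a (c (l 16571808) (l 16591528)) (c (l 16600384) (a (l 16620456) (l 16605632)))))) (c (a (c (l 16586944) (a (l 16588656) (l 16584192))) (c (a (a (l 16608080) (l 16597872)) (a (l 16583616) (l 16597024))) (a (c (l 16615960) (l 16588416)) (c (l 16557592) (l 16582304))))) (a (c (a (l 16553376) (l 16567936)) (l 16521408)) (a (l 16542288) (l 16572856))))) (c (l 16549336)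 (l 16546688))))))), by decide +kernel⟩

def k13_pm_202 : ∃ t, chk3 f_pm_202 t 31 70 1 = true :=
  ⟨(l 6), by decide +kernel⟩

def k14_pm_202 : ∃ t, chk3 f_pm_202 t 31 142 1 = true :=
  ⟨(l 6), by decide +kernel⟩

def k15_pm_202 : ∃ t, chk3 f_pm_202 t 31 143 1 = true :=
  ⟨(b (l 6) (b (l 6) (b (l 6) (b (l 6) (c (c (a (c (a (l 16619952) (c (l 16583840) (a (l 16629128) (l 16600376)))) (a (c (a (l 16659144) (l 16616008)) (a (l 16601104) (l 16631952))) (c (a (l 16656200) (l 16653336)) (a (l 16606936) (l 16654544))))) (c (a (c (a (l 16575816) (l 16609936)) (a (l 16641616) (l 16621208))) (c (a (l 16595488) (c (l 16626856) (l 16659816))) (l 16664784))) (a (a (c (l 16659288) (l 16671256)) (l 16682424)) (l 16666744)))) (a (a (c (c (a (c (l 16601296) (l 16535968)) (l 16579496)) (a (a (l 16580704) (l 16574360)) (l 16586080))) (a (c (l 16592224) (l 16592104)) (c (l 16590616) (l 16584040)))) (c (l 16635464) (a (l 16590264) (l 16639648)))) (a (c (l 16677448) (l 16674968)) (l 16624752)))) (a (c (c (a (c (l 16577904) (l 16601384))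 (a (c (a (l 16619304) (l 16615832)) (l 16604288)) (c (l 16629280) (a (l 16628656) (l 16633016))))) (a (l 16600712) (a (l 16626320) (c (a (l 16638256) (l 16623688)) (l 16641624))))) (l 16616776)) (c (a (c (l 16625584) (a (c (a (l 16645112) (l 16654488)) (a (l 16633968) (l 16616216))) (c (l 16677776) (l 16675048)))) (c (l 16665976) (a (l 16671976) (l 16659304)))) (a (c (c (a (l 16647784) (a (c (l 16668416) (l 16673056)) (l 16676656))) (a (l 16660472) (c (l 16676040) (l 16676928)))) (l 16669088)) (c (a (c (l 16676224) (a (c (l 16683936) (l 16681128)) (l 16671872))) (c (l 16658896) (l 16659304))) (a (c (c (a (l 16679328) (l 16651712)) (a (l 16678040) (a (l 16672536) (l 16670280)))) (l 16674256)) (c (a (c (l 16664080) (a (l 16666864) (l 16661816))) (l 16655432)) (a (c (a (l 16669312) (l 16664336)) (l 16663000)) (c (a (l 16614616) (l 16653448)) (a (l 16659376) (a (l 16632424) (l 16630912)))))))))))))))), by decide +kernel⟩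

def k16_pm_202 : ∃ t, chk3 f_pm_202 t 12 18 1 = true :=
  ⟨(l 1), by decide +kernel⟩

def k17_pm_202 : ∃ t, chk3 f_pm_202 t 13 36 1 = true :=
  ⟨(b (l 1) (a (l 1) (a (b (l 1) (a (l 1) (a (l 1) (c (a (l 1) (c (l 16047360) (l 16036816))) (c (l 16017856) (l 15922768)))))) (c (c (c (b (l 16002304) (l 16067160)) (b (l 15996568) (l 16062008))) (b (l 15987880) (l 16054208))) (c (b (l 15976184) (l 16043888)) (c (b (l 15967368) (l 15997024)) (b (a (l 15949144) (c (l 15976456) (c (b (l 15957336) (a (l 15983960) (l 15996352))) (b (l 15912464) (a (l 15981544) (l 15993416)))))) (a (c (l 16025192) (b (a (l 15998160) (c (l 16008504) (l 16006184))) (c (a (l 16037616) (l 16045304)) (a (l 16035392) (l 16042360))))) (c (b (a (l 16020656) (l 15947616)) (c (l 16041384) (a (l 16055616) (l 16067432)))) (b (c (a (l 16018560) (l 16028192)) (l 16020360)) (l 16054872))))))))))), by decide +kernel⟩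

def k18_pm_202 : ∃ t, chk3 f_pm_202 t 26 37 1 = true :=
  ⟨(c (a (l 15877000) (l 15950664)) (c (a (l 15857312) (l 15997832)) (b (a (l 1) (a (l 1) (c (l 15952568) (b (l 1) (l 15940784))))) (a (a (l 1) (c (l 15952856) (b (l 1) (c (l 15986128) (b (l 15963648) (c (l 16002096) (l 15999736))))))) (c (b (l 16026800) (a (l 16063976) (c (l 16141856) (l 16077840)))) (b (c (a (l 15984656) (l 16018816)) (a (b (l 15963208) (l 15978872)) (b (c (l 16039376) (l 16037008)) (l 16012920)))) (c (a (b (l 16041336) (l 16037704)) (b (c (l 16119832) (l 16115552)) (l 16155728))) (a (b (c (l 16038912) (l 16036368)) (l 16075120)) (l 16131672))))))))), by decide +kernel⟩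

def k19_pm_202 : ∃ t, chk3 f_pm_202 t 27 37 2 = true :=
  ⟨(a (a (l 16058440) (a (l 16092544) (a (l 16120448) (b (c (b (l 16119304) (l 16189936)) (l 16124576)) (c (l 16209608) (l 16246856)))))) (b (c (c (b (l 16132304) (l 16197680)) (l 16118704)) (c (l 16156360) (l 16152760))) (c (a (c (b (l 16268592) (l 16338736)) (l 16238040)) (c (l 16290544) (l 16289184))) (a (b (l 16261816) (l 16295696)) (c (l 16289704) (l 16296672)))))), by decide +kernel⟩

def k20_pm_202 : ∃ t, chk3 f_pm_202 t 27 37 6 = true :=
  ⟨(a (a (l 16050592) (b (a (l 16092224) (l 16043808)) (b (l 16161160) (c (l 16298480) (l 16179280))))) (b (c (l 16130200) (b (l 16113832) (a (l 16184376) (l 16151152)))) (c (a (l 16183560) (c (l 16308624) (l 16220504))) (b (c (a (l 16269176) (l 16269976)) (a (l 16269280) (b (c (l 16253176) (l 16258344)) (l 16271432)))) (a (c (l 16269720) (a (b (l 16330944) (l 16384344)) (l 16311752))) (c (b (l 16335256) (l 16347088)) (l 16340184))))))), by decide +kernel⟩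

def k21_pm_202 : ∃ t, chk3 f_pm_202 t 27 37 7 = true :=
  ⟨(a (b (c (a (l 16028192) (b (l 16065056) (c (l 16143144) (l 16038544)))) (a (b (l 15984848) (c (l 16062456) (b (c (l 16041056) (l 15933864)) (a (l 16015256) (l 16094688))))) (b (c (l 15999800) (a (b (l 16022904) (c (l 16062120) (l 16059912))) (b (c (l 16061376) (l 16017264)) (c (l 16099840) (l 16097328))))) (c (a (b (l 16102456) (l 16097472)) (c (b (l 16144184) (l 16181904)) (l 16116640))) (a (l 16053456) (l 16158136)))))) (c (a (b (c (l 16142688) (l 16121496)) (c (l 16202304) (b (l 16138320) (l 16236800)))) (b (c (l 16141712) (b (a (l 16183296) (l 16116104)) (l 16094488))) (a (c (l 16157608) (l 16283456)) (l 16222368)))) (b (a (c (b (c (l 16121760) (l 16118600)) (l 16115944)) (l 16132840)) (c (l 16088544) (l 16218272))) (l 16219504)))) (b (c (b (a (l 16104408) (c (l 16120280) (b (c (l 16102472) (l 16099616)) (a (l 16088776) (l 16144168))))) (c (a (l 16186344) (b (c (l 16177752) (l 16173712)) (c (l 16209680) (l 16214792)))) (a (b (c (l 16166568)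 (l 16163696)) (c (l 16204792) (l 16206600))) (l 16147360)))) (b (a (c (b (c (l 16083560) (a (l 16078824) (l 16084224))) (c (l 16079992) (l 16118840))) (b (c (l 15994488) (l 16076256)) (l 16117400))) (c (b (c (l 16095576) (l 16096792)) (l 16132872)) (l 16111896))) (a (c (b (l 16115152) (l 16202168)) (l 16178736)) (l 16183272)))) (c (b (a (c (b (a (l 16247632) (l 16255328)) (l 16230232)) (l 16223120)) (l 16139792)) (a (c (l 16307384) (l 16340904)) (l 16327248))) (l 16296080)))), by decide +kernel⟩

def k22_pm_202 : ∃ t, chk3 f_pm_202 t 12 19 2 = true :=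
  ⟨(a (b (l 15971712) (l 16068232)) (b (l 15997280) (c (l 16226696) (a (l 16222808) (l 16137384))))), by decide +kernel⟩

def k23_pm_202 : ∃ t, chk3 f_pm_202 t 12 38 3 = true :=
  ⟨(c (a (l 15955744) (b (l 15975936) (l 16120528))) (c (a (l 15947648) (b (l 15967944) (a (l 16088272) (b (l 16038848) (c (l 16157608) (a (l 16120216) (b (l 16172816) (l 16215456)))))))) (a (a (l 1) (l 15774504)) (b (a (l 1) (b (l 15949576) (c (l 16024496) (a (l 16007744) (b (l 15951960) (l 15989080)))))) (a (b (a (l 16033344) (c (l 16058800) (b (l 16037672) (l 16031512)))) (c (a (l 16106192) (b (l 16113408) (l 16150248))) (a (b (l 16084760) (l 16057944)) (b (l 16088912) (l 16147440))))) (b (c (a (l 16063552) (b (l 16072368) (l 16130328))) (a (b (c (l 16063880) (l 16061544)) (l 16099128)) (l 16105816))) (c (a (b (l 16097440) (l 16176536)) (l 16188568)) (l 16170344)))))))), by decide +kernel⟩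

def k24_pm_202 : ∃ t, chk3 f_pm_202 t 12 39 6 = true :=
  ⟨(a (b (l 16160528) (a (l 16274424) (b (l 16290256) (c (l 16356672) (c (l 16366496) (a (l 16351720) (l 16379552))))))) (b (a (l 16172544) (c (l 16294688) (b (a (l 16240664) (l 16246848)) (c (l 16269960) (a (l 16254624) (l 16311496)))))) (c (a (l 16258136) (c (b (l 16411944) (l 16336584)) (b (a (l 16399256) (l 16403912)) (a (l 16481512) (l 16505992))))) (a (b (c (l 16351224) (a (l 16334112) (b (l 16345936) (l 16370144)))) (c (a (l 16410288) (l 16426568)) (a (l 16393016) (l 16438184)))) (c (b (a (b (l 16378992) (l 16425472)) (l 16430688)) (l 16440584)) (l 16272360)))))), by decide +kernel⟩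

def k25_pm_202 : ∃ t, chk3 f_pm_202 t 12 39 7 = true :=
  ⟨(a (b (c (a (l 16132560) (b (l 16143224) (a (l 16202504) (l 16143232)))) (a (b (l 16094480) (c (l 16164992) (a (l 16150504) (b (l 16154816) (l 16147296))))) (b (c (l 16120104) (a (l 16020872) (b (l 16090112) (l 16167688)))) (c (a (l 16074080) (b (l 16185968) (l 16242784))) (a (l 16090680) (l 16222760)))))) (c (a (b (l 16236464) (c (l 16309632) (a (l 16253896) (l 16214824)))) (b (c (l 16184728) (a (l 16169256) (l 16193120))) (c (a (b (l 16333616) (l 16324928)) (l 16381096)) (l 16356592)))) (a (b (c (a (l 16222608) (b (l 16228240) (l 16239960))) (a (b (l 16159368) (l 16234344)) (l 16241000))) (c (a (l 16184952) (l 16319312)) (l 16304456))) (b (c (l 16154048) (l 16284848)) (l 16357200))))) (b (c (a (b (c (l 16197624) (a (l 16181264) (b (l 16191128) (l 16228128)))) (c (a (l 16258152) (l 16159528)) (a (b (l 16237904) (l 16272272)) (l 16285080)))) (b (c (a (l 16219120) (b (l 16229104) (l 16295400))) (a (l 16107192) (l 16268352))) (c (l 16225280) (l 16324144))))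 (a (b (c (a (b (l 16160752) (l 16196880)) (l 16160304)) (l 16143160)) (l 16268896)) (l 16284712))) (c (a (c (b (a (b (l 16293112) (l 16357504)) (l 16362568)) (l 16419008)) (l 16357016)) (l 16432608)) (l 16402944)))), by decide +kernel⟩

def k26_pm_202 : ∃ t, chk3 f_pm_202 t 26 38 1 = true :=
  ⟨(c (a (l 16030320) (b (l 16222488) (c (l 16339992) (l 16286520)))) (c (b (a (l 16074680) (c (l 16219896) (b (l 16183096) (a (l 16222032) (c (l 16303688) (l 16217344)))))) (a (c (l 16225104) (a (l 16148944) (b (l 16222560) (c (l 16304208) (b (l 16282744) (l 16329072)))))) (c (a (l 16298248) (b (l 16379704) (c (l 16464592) (l 16427664)))) (b (a (c (l 16303552) (b (l 16283304) (l 16329456))) (c (l 16274200) (l 16319600))) (a (c (b (l 16361624) (l 16388896)) (l 16337864)) (l 16332528)))))) (b (a (c (b (l 16033232) (a (l 16072728) (c (l 16144240) (b (l 16122560) (l 16118752))))) (b (a (c (l 15994776) (b (l 15971904) (a (l 15996928) (l 16019560)))) (c (b (l 16042240) (l 16017264)) (b (l 15933392) (l 16076784)))) (a (c (a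 (l 16036808) (b (l 16062144) (l 16096968))) (l 15937568)) (c (l 16050032) (l 16136520))))) (c (b (c (a (l 16142768) (l 16157968)) (a (b (l 16121408) (l 16160328)) (b (l 16135760) (l 16242808)))) (a (c (l 16115288) (b (l 16175752) (l 16242072))) (c (l 16239344) (l 16297448)))) (c (b (a (b (l 16011312) (l 16154760)) (l 16216288)) (l 16255184)) (l 16211288)))) (a (c (b (c (a (l 16152504) (b (l 16203448) (l 16196840))) (a (a (l 16137280) (l 16097440)) (l 16219384))) (c (a (b (l 16190048) (l 16255472)) (l 16299696)) (l 16217248))) (a (b (l 16051568) (l 16221016)) (l 16251288))) (c (b (c (l 16188880) (l 16329872)) (l 16404424)) (l 16364848)))))), by decide +kernel⟩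

def k27_pm_202 : ∃ t, chk3 f_pm_202 t 27 38 2 = true :=
  ⟨(a (c (a (l 16276120) (l 16290448)) (c (l 16201864) (b (l 16292104) (a (l 16454720) (b (l 16543488) (c (l 16491480) (l 16485696))))))) (b (c (b (a (a (l 16348920) (l 16402928)) (l 16389720)) (b (a (a (l 16445680) (l 16458032)) (l 16442240)) (a (a (a (l 16501296) (l 16485200)) (l 16476136)) (l 16459432)))) (b (a (c (l 16412752) (l 16401536)) (l 16389528)) (a (b (a (l 16467224) (l 16479048)) (c (l 16431944) (l 16477832))) (b (l 16405184) (c (l 16503616) (l 16484720)))))) (c (a (a (a (l 16441808) (l 16390144)) (l 16447440)) (l 16408528)) (c (a (a (l 16415976) (l 16441960)) (b (l 16574064) (l 16400480))) (a (c (a (b (l 16527360) (l 16414952)) (l 16408688)) (a (b (l 16514152) (a (l 16446216) (l 16419272))) (c (l 16367280) (l 16372472)))) (c (b (l 16539720) (l 16364912)) (b (l 16443688) (l 16512848)))))))), by decide +kernel⟩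

def k28_pm_202 : ∃ t, chk3 f_pm_202 t 27 38 3 = true :=
  ⟨(c (c (a (b (b (l 16343728) (a (l 16381976) (c (l 16469824) (a (l 16429792) (l 16499800))))) (c (b (a (l 16466864) (l 16535280)) (a (l 16550296) (l 16451864))) (b (a (b (l 16426592) (l 16495096)) (l 16485792)) (l 16384840)))) (a (a (b (b (l 16374176) (b (l 16489208) (c (l 16560520) (l 16507192)))) (b (c (l 16436840) (l 16511608)) (l 16448624))) (b (b (c (l 16435656) (l 16443096)) (b (l 16443224) (c (l 16550280) (l 16533824)))) (c (l 16359392) (l 16522320)))) (b (b (c (l 16376704) (b (l 16391008) (l 16400816))) (b (c (l 16487640) (l 16472144)) (c (l 16434000) (l 16492456)))) (l 16470032)))) (a (a (b (b (l 16193744) (c (l 16299064) (l 16302240))) (c (l 16308136) (l 16486176))) (b (b (c (l 16324424) (l 16264800)) (c (b (l 16456288) (l 16490424)) (l 16461936))) (l 16458112))) (b (b (a (c (a (a (l 16384448) (l 16404352)) (l 16393168)) (l 16327056)) (c (l 16372560) (l 16399176))) (a (b (c (l 16453168) (l 16479184)) (l 16519384)) (l 16470360))) (l 16407136))))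 (a (b (b (c (a (c (b (l 16217584) (l 16326816)) (l 16299256)) (l 16343744)) (l 16333240)) (l 16254960)) (l 16500056)) (b (b (l 16326976) (b (l 16425224) (a (l 16516632) (l 16486664)))) (a (l 16409320) (l 16557784))))), by decide +kernel⟩

def k29_pm_202 : ∃ t, chk3 f_pm_202 t 13 39 2 = true :=
  ⟨(a (c (a (l 16228360) (l 16238472)) (b (a (l 16270184) (a (l 16320848) (c (l 16523944) (b (l 16535448) (l 16385576))))) (c (a (l 16461344) (b (l 16378448) (a (l 16388864) (l 16286824)))) (a (a (l 16349784) (b (l 16465768) (c (l 16441720) (l 16449360)))) (c (b (l 16303352) (a (l 16368608) (l 16342368))) (b (a (l 16458208) (l 16388224)) (l 16292080))))))) (b (c (a (l 16269704) (a (a (c (l 16291488) (l 16306792)) (c (l 16368768) (l 16241680))) (c (l 16347024) (b (l 16406816) (c (l 16317808) (l 16323328)))))) (a (c (c (l 16278528) (b (l 16392904) (l 16271448))) (a (c (l 16319040) (b (l 16476512) (l 16374048))) (b (c (l 16391328) (l 16359624)) (c (l 16332112) (l 16375336))))) (c (a (b (a (l 16325136) (l 16328256)) (a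 (c (l 16286848) (l 16281576)) (c (l 16290968) (l 16309352)))) (c (b (l 16379568) (c (l 16333832) (l 16322976))) (b (l 16287928) (l 16365256)))) (a (b (c (a (l 16331104) (l 16363456)) (l 16336888)) (a (l 16331408) (l 16334712))) (l 16320296))))) (c (c (a (l 16254360) (a (a (l 16121584) (b (l 16226104) (c (l 16138416) (l 16127504)))) (c (l 16084640) (b (l 16239808) (l 16153544))))) (a (b (l 16215368) (c (l 16234688) (l 16089808))) (a (c (a (l 16081816) (b (l 16202912) (l 16142736))) (a (b (l 16215432) (l 16168240)) (b (l 16214960) (l 16173504)))) (c (b (l 16247992) (c (l 16189088) (l 16209400))) (b (c (l 16260544) (l 16279360)) (l 16223176)))))) (a (c (a (b (l 16273504) (c (l 16266744) (l 16281464))) (c (b (l 16271336) (l 16219504)) (b (l 16264440) (l 16245456)))) (a (b (l 16223536) (l 16305584)) (l 16277952))) (c (a (a (b (c (l 16233904) (l 16262760)) (l 16199928)) (b (l 16206520) (l 16191040))) (l 16197080)) (a (l 16233136) (l 16261720))))))), by decide +kernel⟩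

def k30_pm_202 : ∃ t, chk3 f_pm_202 t 13 39 3 = true :=
  ⟨(a (c (b (a (c (b (l 16261240) (a (l 16320080) (c (l 16460568) (l 16403048)))) (b (a (c (l 16311176) (a (l 16304392) (l 16327496))) (c (l 16303648) (l 16357152))) (a (c (b (l 16358296) (l 16391944)) (l 16362888)) (l 16350488)))) (c (b (c (a (l 16462736) (l 16518480)) (a (l 16404712) (l 16516264))) (a (c (l 16486768) (l 16511824)) (l 16353144))) (a (l 16317856) (l 16529768)))) (c (a (a (b (c (l 16476848) (l 16407632)) (c (l 16480704) (l 16518264))) (b (c (l 16497240) (l 16528160)) (l 16374584))) (a (l 16294768) (l 16396200))) (a (l 16334352) (l 16424344)))) (a (c (a (l 16220592) (l 16432080)) (l 16355616)) (l 16385296))) (a (c (b (c (a (b (l 16362416) (l 16436608)) (l 16388936)) (l 16441672)) (l 16306896)) (l 16286008)) (a (c (a (l 16217664) (l 16230632)) (a (l 16190712) (l 16182576))) (c (l 16268320) (l 16241856))))), by decide +kernel⟩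

def k31_pm_202 : ∃ t, chk3 f_pm_202 t 28 18 2 = true :=
  ⟨(b (c (b (a (c (b (l 15953648) (l 16002064)) (b (l 15947352) (l 15996208))) (c (b (l 16038072) (l 16070544)) (l 15985832))) (a (c (b (l 16050832) (l 16099936)) (l 16070120)) (c (b (l 16103408) (l 16136768)) (a (l 16103336) (l 16128456))))) (a (b (b (l 15937832) (l 15987344)) (c (l 16064888) (l 16060176))) (b (c (l 16043224) (l 16017232)) (c (b (l 16094408) (l 16132224)) (b (l 16092288) (l 16136536)))))) (c (b (a (c (b (l 16149368) (l 16199248)) (b (l 16144856) (l 16196768))) (c (a (l 16185784) (l 16198240)) (b (l 16172000) (l 16214528)))) (a (c (b (l 16251584) (l 16307056)) (b (l 16251880) (l 16311096))) (c (a (l 16275128) (l 16279696)) (a (l 16284400) (l 16276536))))) (b (a (c (l 16106744) (b (l 16139904) (l 16201304))) (c (b (l 16175552) (l 16224616)) (a (l 16184464) (c (l 16224592) (b (l 16205328) (l 16258376)))))) (a (c (b (l 16256408) (l 16322416)) (b (l 16274256) (c (l 16337160) (a (l 16341976) (l 16348560))))) (c (a (l 16262072) (b (l 16290440)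 (c (l 16347896) (l 16348792)))) (b (a (c (l 16287656) (l 16294648)) (c (l 16303888) (b (l 16247248) (c (l 16307056) (l 16294760))))) (a (c (l 16348440) (b (l 16310792) (l 16305544))) (c (b (l 16289640) (a (l 16350312) (l 16323992))) (a (l 16301360) (l 16298240)))))))))), by decide +kernel⟩

def k32_pm_202 : ∃ t, chk3 f_pm_202 t 29 36 2 = true :=
  ⟨(c (a (b (c (a (l 16116672) (l 16184176)) (a (l 16111696) (l 16181512))) (c (a (b (l 16148000) (l 16172376)) (l 16196024)) (a (l 16139120) (l 16220552)))) (b (c (a (l 16219160) (l 16300664)) (a (l 16261480) (b (l 16343264) (l 16349768)))) (c (a (l 16283648) (b (l 16349832) (l 16362448))) (a (l 16230992) (b (l 16364328) (l 16387280)))))) (a (b (c (a (l 16107864) (l 16180648)) (a (l 16105856) (l 16102280))) (c (a (l 16100832) (l 16210080)) (a (b (l 16153816) (l 16194488)) (c (l 16244376) (b (l 16235016) (l 16205216)))))) (b (b (c (a (l 16256736) (l 16350880)) (a (l 16268136) (l 16327352))) (c (l 16175416) (a (l 16290632) (c (l 16383080) (a (l 16372648) (b (l 16419344)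 (l 16392936))))))) (c (c (a (l 16306968) (b (l 16382496) (l 16410640))) (a (l 16211648) (b (l 16398856) (a (l 16397016) (b (l 16431896) (l 16421056)))))) (a (c (b (l 16313680) (a (l 16327064) (l 16314184))) (b (a (l 16304904) (l 16299224)) (a (b (l 16318576) (l 16296048)) (c (l 16301280) (l 16322768))))) (c (b (a (l 16384992) (b (l 16425824) (l 16417632))) (a (b (l 16386216) (l 16293608)) (c (b (l 16411816) (l 16386312)) (l 16382080)))) (b (a (b (l 16377504) (c (l 16377152) (l 16354080))) (c (b (l 16410304) (l 16386552)) (l 16382408))) (l 16299752)))))))), by decide +kernel⟩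

def k33_pm_202 : ∃ t, chk3 f_pm_202 t 29 37 4 = true :=
  ⟨(a (c (b (a (l 16217032) (l 16181464)) (a (b (l 16269848) (l 16315064)) (l 16235064))) (b (a (l 16142168) (l 16199728)) (a (c (l 16311464) (a (l 16317656) (l 16335792))) (b (c (l 16338560) (l 16355648)) (c (l 16385640) (a (l 16379760) (l 16384264))))))) (c (b (a (b (l 16311128) (l 16340064)) (b (l 16383344) (l 16412456))) (a (c (l 16388824) (b (l 16386984) (a (l 16414296) (l 16434056)))) (b (c (l 16436792) (a (l 16437360) (l 16417744))) (c (a (l 16452296) (b (l 16472864) (l 16470920))) (a (b (l 16450536) (l 16442608)) (b (l 16452488) (l 16431992))))))) (b (a (b (l 16334528) (c (l 16363824) (l 16379672))) (b (c (l 16408248) (l 16380272)) (c (a (l 16422064) (l 16451432)) (a (l 16399176) (b (l 16442912) (l 16427056)))))) (a (b (c (l 16379528) (a (l 16391008) (l 16357168))) (c (a (l 16411496) (l 16370880)) (a (b (l 16389632) (l 16373016)) (l 16373696)))) (c (b (a (l 16389328) (b (l 16447880) (l 16429656))) (a (c (l 16418736) (l 16392008)) (l 16334424)))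 (b (a (c (l 16411432) (l 16386432)) (l 16354024)) (a (l 16370040) (l 16374224)))))))), by decide +kernel⟩

def k34_pm_202 : ∃ t, chk3 f_pm_202 t 29 37 5 = true :=
  ⟨(a (b (c (a (b (l 16218904) (l 16266400)) (b (l 16283200) (c (l 16325224) (a (l 16319056) (l 16337280))))) (a (b (c (l 16236976) (l 16200528)) (c (a (l 16278216) (l 16289328)) (a (b (l 16267872) (l 16275616)) (c (l 16277904) (l 16265600))))) (c (b (a (l 16287896) (l 16313128)) (a (b (l 16306632) (l 16307472)) (c (l 16322232) (l 16299744)))) (b (a (b (l 16278576) (l 16281808)) (b (l 16297120) (l 16286136))) (l 16282800))))) (c (a (b (c (l 16316112) (a (l 16318360) (l 16322696))) (c (a (l 16357848) (l 16355504)) (a (l 16277456) (c (l 16337600) (l 16313248))))) (c (b (a (l 16349672) (l 16360992)) (a (c (l 16366784) (l 16350208)) (c (l 16362920) (l 16336736)))) (b (a (c (l 16340096) (l 16325344)) (c (l 16342776) (l 16318120))) (l 16324304)))) (a (b (c (a (l 16241912) (c (l 16308016) (l 16286016))) (a (l 16221448) (l 16269688))) (c (l 16305224) (l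 16290224))) (c (b (l 16303440) (l 16310416)) (l 16298992))))) (c (b (a (b (c (l 16358536) (a (l 16348800) (l 16307848))) (c (a (l 16370112) (l 16343152)) (a (c (l 16358832) (l 16344240)) (c (l 16366024) (l 16341088))))) (c (b (a (l 16408728) (b (l 16437592) (l 16424192))) (a (b (l 16402552) (l 16382512)) (l 16353096))) (b (a (c (l 16395824) (l 16339192)) (c (l 16365320) (l 16382216))) (l 16304952)))) (a (c (b (a (c (l 16376280) (l 16360008)) (c (l 16377024) (l 16350784))) (l 16328288)) (b (l 16316048) (l 16336992))) (c (b (l 16308184) (l 16364512)) (l 16361864)))) (b (a (c (b (a (b (l 16337104) (l 16333368)) (b (l 16311192) (l 16334056))) (l 16304120)) (b (l 16292520) (l 16312528))) (b (c (l 16302136) (l 16354528)) (l 16356720))) (l 16344480)))), by decide +kernel⟩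

def k35_pm_202 : ∃ t, chk3 f_pm_202 t 28 36 6 = true :=
  ⟨(c (a (b (l 15953264) (l 16057104)) (b (l 15971912) (a (l 16102592) (b (l 16116752) (c (l 16159992) (l 16161472)))))) (a (b (l 15947128) (b (l 16027232) (a (l 16070736) (l 16077776)))) (b (a (l 16009752) (b (l 16036592) (c (l 16075672) (l 16078928)))) (a (b (l 16015640) (c (l 16129896) (a (b (l 16109984) (l 16143496)) (b (l 16133552) (l 16152960))))) (b (c (l 16119120) (a (b (l 16099000) (l 16128168)) (b (l 16127360) (l 16142344)))) (c (a (l 16077032) (c (l 16178056) (l 16170304))) (c (l 16158168) (l 16153656)))))))), by decide +kernel⟩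

def k36_pm_202 : ∃ t, chk3 f_pm_202 t 56 36 7 = true :=
  ⟨(b (c (b (l 15915304) (l 15969760)) (b (a (l 1) (c (l 15933864) (b (a (l 1) (l 15864904)) (a (l 15887440) (c (l 15953344) (l 15950512)))))) (a (c (l 15946040) (b (a (l 1) (l 15872656)) (a (l 15862488) (c (l 15965640) (l 15962760))))) (c (c (b (l 15971792) (l 15934408)) (b (a (l 15959544) (l 15980008)) (a (l 15986016) (l 16003032)))) (b (a (c (l 15957176) (l 15954328)) (l 15972336)) (l 15988864)))))) (c (b (a (l 16008320) (c (l 16042528) (b (a (l 16017896) (l 15991768)) (c (l 16054800) (a (l 16045640) (l 16064120)))))) (a (c (l 16072352) (b (a (l 16048112) (l 16038040)) (a (l 16057472) (l 16096200)))) (c (b (c (l 16087016) (l 16062656)) (c (l 16090904) (l 16115752))) (b (c (l 16035272) (l 16081480)) (l 16108560))))) (b (a (c (a (b (l 15981216) (l 15917384)) (c (l 15971152) (a (l 15964456) (l 16013512)))) (b (a (c (l 15978704) (l 15975792)) (l 15989256)) (l 16012616))) (c (b (a (c (l 16015920) (l 16011184)) (l 16034664)) (l 16049424)) (l 16033192)))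 (a (a (c (c (l 15996552) (l 16060008)) (l 16057832)) (l 16073128)) (l 16087336))))), by decide +kernel⟩

def k37_pm_202 : ∃ t, chk3 f_pm_202 t 57 36 7 = true :=
  ⟨(b (c (a (b (l 15984776) (c (l 16030952) (a (b (l 16006024) (c (l 16032800) (l 16029552))) (c (l 15977384) (b (l 16028352) (l 16052712)))))) (b (c (l 16037744) (a (b (l 16012640) (c (l 16034952) (l 16031744))) (c (b (l 16042992) (l 16057800)) (b (l 16039744) (l 16059680))))) (c (a (c (l 16067104) (b (l 16057552) (l 16081904))) (c (b (l 16083456) (l 16106024)) (l 16090744))) (a (c (b (l 16052088) (l 16075776)) (l 16061528)) (l 16083392))))) (a (b (c (a (b (l 15957112) (c (l 15980960) (l 15978608))) (b (c (l 15984176) (l 15981832)) (c (l 16005024) (l 16000488)))) (a (b (c (l 15954160) (l 15951344)) (l 15950008)) (c (l 15923320) (l 15988512)))) (c (b (a (c (l 16004040) (l 15999456)) (l 16027504)) (l 16035376)) (l 16021496))) (b (c (a (b (c (l 16010648) (l 16006128)) (l 16030912)) (l 16043976)) (l 16028168)) (l 16064768)))) (c (a (b (c (a (c (l 16071544)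 (l 16005376)) (c (b (l 16081008) (l 16107920)) (l 16090416))) (b (c (a (l 16054272) (l 16076800)) (l 16063192)) (l 16085872))) (c (c (l 16085304) (l 16123336)) (l 16114720))) (b (c (c (a (l 16110600) (l 16124848)) (l 16112488)) (l 16103848)) (l 16140576))) (l 16103312))), by decide +kernel⟩

def k38_pm_202 : ∃ t, chk3 f_pm_202 t 28 37 3 = true :=
  ⟨(c (b (a (c (a (l 16169232) (c (l 16188096) (l 16101312))) (b (a (l 16116000) (c (l 16158744) (b (a (l 16138840) (l 16157968)) (a (l 16176960) (l 16181544))))) (a (c (l 16205512) (b (c (l 16191208) (l 16195560)) (l 16183800))) (c (b (l 16210976) (l 16194568)) (l 16190896))))) (c (a (c (b (l 16178936) (l 16189040)) (b (l 16180880) (a (l 16216584) (l 16175736)))) (c (b (a (l 16204536) (l 16223192)) (a (l 16211152) (c (l 16258728) (l 16247760)))) (b (a (l 16144416) (c (l 16218728) (l 16209296))) (a (l 16216440) (l 16226712))))) (a (c (b (b (l 16154616) (c (l 16202240) (l 16194528))) (b (l 16215392) (l 16225952))) (b (c (l 16177632) (l 16173152)) (l 16207784))) (c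 (b (b (l 16189520) (l 16195896)) (l 16217616)) (l 16197520))))) (a (c (b (a (l 16162448) (c (l 16255416) (b (l 16272032) (l 16274528)))) (c (a (l 16318064) (a (l 16326792) (l 16317168))) (a (b (l 16333304) (l 16339552)) (l 16264952)))) (c (b (a (b (l 16264272) (l 16272584)) (l 16228192)) (a (l 16312592) (l 16308552))) (a (b (l 16267168) (l 16317640)) (l 16280312)))) (c (a (c (b (a (l 16270712) (l 16244768)) (b (l 16292760) (l 16318336))) (b (b (l 16264824) (l 16272184)) (l 16300600))) (c (b (b (l 16229160) (l 16271552)) (l 16293656)) (l 16273712))) (l 16273344)))) (a (b (c (b (a (c (b (c (l 16123424) (l 16119768)) (c (l 16152000) (l 16156320))) (b (l 16118752) (l 16149536))) (c (c (l 16156184) (l 16152448)) (l 16143792))) (a (c (l 16158184) (l 16191024)) (l 16197888))) (l 16162192)) (l 16174976)) (b (c (l 16188336) (l 16184032)) (l 16226112)))), by decide +kernel⟩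

def k39_pm_202 : ∃ t, chk3 f_pm_202 t 58 36 6 = true :=
  ⟨(b (c (a (b (l 16090824) (l 16127536)) (b (l 16181504) (c (l 16207168) (a (l 16190952) (b (l 16229280) (l 16247712)))))) (a (b (a (l 16079488) (l 16110312)) (c (l 16108248) (a (b (l 16106024) (l 16131136)) (b (l 16144944) (l 16155256))))) (b (c (l 16077408) (a (b (l 16152976) (l 16132336)) (b (c (l 16212704) (l 16206936)) (l 16214128)))) (c (a (b (l 16190448) (l 16201920)) (c (l 16214960) (l 16228024))) (a (b (l 16182136) (l 16180824)) (l 16212976)))))) (c (a (c (b (l 16162152) (a (l 16192384) (l 16220904))) (b (a (l 16154568) (l 16155360)) (a (b (l 16191296) (l 16204624)) (c (l 16216040) (l 16206560))))) (c (b (a (l 16219400) (l 16263480)) (a (b (l 16249872) (l 16255672)) (c (l 16279920) (l 16269096)))) (b (a (b (l 16220496) (l 16229048)) (c (l 16258136) (l 16248704))) (a (c (l 16237720) (l 16219608)) (l 16248224))))) (a (c (b (a (b (l 16151832) (l 16168192)) (c (l 16184288) (l 16176440))) (a (l 16139864) (l 16188240))) (b (a (l 16105040) (l 16161440))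 (l 16172232))) (c (b (a (c (l 16212464) (l 16197352)) (l 16230456)) (l 16227520)) (l 16216376))))), by decide +kernel⟩

def k40_pm_202 : ∃ t, chk3 f_pm_202 t 59 36 6 = true :=
  ⟨(b (c (a (c (b (l 16277576) (a (l 16276272) (l 16283928))) (b (a (l 16257704) (l 16289264)) (a (b (l 16279936) (l 16262312)) (c (b (l 16323808) (l 16317048)) (l 16268096))))) (c (b (a (l 16330920) (b (l 16412464) (l 16388896))) (a (b (l 16368400) (c (l 16370112) (l 16355856))) (b (c (l 16408320) (l 16387800)) (l 16382968)))) (b (a (b (l 16358896) (c (l 16362504) (l 16350392))) (c (b (l 16405856) (l 16394016)) (b (l 16393728) (l 16374280)))) (a (c (l 16266992) (l 16332648)) (l 16371576))))) (a (c (b (a (b (l 16259792) (l 16202952)) (c (b (l 16310456) (l 16306456)) (l 16236120))) (a (c (l 16248120) (l 16253720)) (l 16291968))) (b (a (b (l 16209008) (l 16244272)) (l 16283976)) (l 16267592))) (c (b (a (c (b (l 16347528) (l 16331416)) (l 16329256)) (l 16372760)) (l 16348432)) (l 16347056)))) (c (a (c (b (a (b (l 16299528) (l 16279360))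 (c (l 16268488) (l 16278944))) (a (c (l 16300384) (l 16279856)) (l 16309088))) (b (a (c (l 16263872) (l 16266624)) (l 16300336)) (l 16289368))) (b (c (l 16297816) (l 16350024)) (l 16351328))) (l 16315032))), by decide +kernel⟩

def k41_pm_202 : ∃ t, chk3 f_pm_202 t 29 36 7 = true :=
  ⟨(a (b (c (a (b (b (c (a (l 16071072) (c (l 16109640) (l 16111944))) (a (c (l 16068072) (l 16070104)) (l 16105392))) (c (a (c (l 16091520) (l 16093640)) (l 16124376)) (l 16098568))) (c (a (c (l 16115632) (l 16110256)) (l 16137912)) (l 16114112))) (b (c (a (c (l 16139936) (l 16155816)) (l 16199752)) (l 16167928)) (l 16186504))) (l 16072280)) (a (l 16132264) (l 16211208))) (b (c (l 16302680) (l 16299304)) (c (l 16311784) (l 16308520)))), by decide +kernel⟩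

def k42_pm_202 : ∃ t, chk3 f_pm_202 t 29 37 3 = true :=
  ⟨(c (b (a (c (a (c (b (a (b (l 16229976) (l 16240424)) (c (l 16247240) (l 16236280))) (a (l 16166616) (l 16242376))) (b (a (l 16142912) (l 16215224)) (l 16230960))) (c (b (a (c (l 16262632) (l 16242080)) (l 16266256)) (l 16268512)) (l 16257216))) (l 16213328)) (c (l 16328992) (l 16325880))) (a (a (l 16229896) (l 16294768)) (c (l 16341528) (l 16338552)))) (a (b (a (l 16207928) (l 16248760)) (a (l 16264576) (l 16288024))) (b (c (l 16322752) (l 16319608)) (c (l 16335560) (l 16332552))))), by decide +kernel⟩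

def k43_pm_202 : ∃ t, chk3 f_pm_202 t 60 36 4 = true :=
  ⟨(c (a (b (l 16346976) (b (l 16411648) (l 16424616))) (c (c (b (a (l 16473616) (l 16492584)) (a (l 16453584) (l 16476560))) (a (l 16440912) (b (l 16496424) (l 16506096)))) (b (a (l 16483024) (b (l 16500736) (l 16499880))) (a (l 16498712) (b (l 16510968) (l 16482800)))))) (b (a (b (l 16437824) (l 16423416)) (b (l 16510312) (l 16517576))) (a (b (l 16459296) (c (l 16471896) (a (l 16467120) (l 16463632)))) (b (c (l 16522040) (a (l 16528232) (b (l 16547152) (l 16516584)))) (c (a (l 16524304) (b (l 16537984) (l 16504704))) (a (c (l 16503464) (l 16489880)) (c (l 16490456) (b (l 16506168) (l 16469832))))))))), by decide +kernel⟩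

def k44_pm_202 : ∃ t, chk3 f_pm_202 t 61 36 8 = true :=
  ⟨(c (a (a (b (a (l 16481024) (l 16499600)) (l 16508784)) (b (b (l 16478040) (l 16497328)) (c (l 16497064) (b (l 16510432) (a (l 16517424) (l 16487880)))))) (b (l 16534448) (b (a (l 16532120) (b (l 16576296) (l 16501984))) (a (b (l 16505184) (c (l 16520264) (l 16502376))) (b (c (l 16534464) (l 16534720)) (l 16506368)))))) (a (b (a (a (l 16501392) (l 16531536)) (c (l 16523784) (l 16545688))) (a (c (a (l 16533936) (l 16539032)) (b (l 16545288) (a (l 16521920) (l 16522704)))) (b (c (l 16532024) (l 16530864)) (c (b (l 16531648) (l 16493304)) (a (b (l 16550328) (l 16522776)) (l 16508304)))))) (b (a (l 16525984) (b (l 16592120) (b (l 16590304) (l 16539656)))) (b (a (c (b (l 16541936) (l 16492944)) (a (l 16474256) (b (l 16549536) (l 16522816)))) (b (c (l 16552432) (l 16555832)) (l 16507160))) (a (c (c (l 16435080) (l 16444272)) (a (l 16476872) (l 16456312))) (c (l 16458992) (b (l 16468080) (l 16431952)))))))), by decide +kernel⟩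

def k45_pm_202 : ∃ t, chk3 f_pm_202 t 122 36 9 = true :=
  ⟨(b (c (a (c (l 16539336) (l 16547712)) (c (l 16564608) (a (l 16573824) (l 16586224)))) (a (b (l 16560040) (l 16543784)) (b (l 16571872) (a (c (l 16581896) (l 16557704)) (c (l 16547984) (l 16497960)))))) (c (a (b (c (l 16552176) (b (l 16559760) (l 16531688))) (c (a (l 16494096) (l 16467376)) (b (l 16508808) (l 16491696)))) (b (c (a (l 16565688) (b (l 16572288) (l 16553672))) (a (b (l 16575272) (l 16552000)) (l 16510160))) (c (a (l 16517680) (l 16493480)) (a (l 16448872) (l 16412776))))) (b (a (c (l 16505184) (l 16488880)) (c (b (l 16513232) (l 16514224)) (c (l 16450480) (l 16439184)))) (a (c (l 16466192) (l 16425232)) (c (a (b (l 16479112) (l 16449744)) (l 16399424)) (a (l 16455752) (l 16452408))))))), by decide +kernel⟩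

def k46_pm_202 : ∃ t, chk3 f_pm_202 t 123 36 9 = true :=
  ⟨(b (c (a (b (l 16579056) (a (l 16512088) (c (l 16544200) (l 16528704)))) (a (b (l 16592176) (c (l 16551456) (b (l 16558584) (l 16544256)))) (b (l 16591480) (b (l 16546616) (l 16552576))))) (c (a (b (l 16589056) (a (b (l 16582952) (l 16576840)) (l 16527512))) (a (b (l 16562232) (l 16501600)) (b (a (l 16561600) (l 16566200)) (l 16484952)))) (a (a (b (l 16599056) (l 16550560)) (b (b (l 16634384) (l 16574240)) (l 16475032))) (b (b (a (l 16606520) (l 16571936)) (l 16541152)) (a (l 16488016) (b (l 16523192) (l 16488576))))))) (c (b (a (c (a (l 16518096) (l 16474624)) (a (l 16531016) (l 16498904))) (c (b (l 16526072) (l 16479904)) (a (b (l 16495872) (l 16455232)) (l 16432752)))) (a (c (a (l 16461512) (b (l 16450472) (l 16416088))) (b (l 16392112) (l 16428552))) (c (b (l 16443552) (l 16417288)) (l 16422336)))) (a (b (c (a (l 16449880) (l 16468960)) (a (l 16434224) (l 16444664))) (c (l 16404848) (l 16453376))) (b (c (a (b (l 16477832) (l 16449432)) (l 16458392))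 (l 16464616)) (l 16428048))))), by decide +kernel⟩

def k47_pm_202 : ∃ t, chk3 f_pm_202 t 60 36 5 = true :=
  ⟨(b (c (a (c (l 16437664) (b (l 16462680) (l 16416560))) (b (c (l 16531880) (a (l 16535672) (l 16517720))) (c (a (l 16532032) (b (l 16556096) (l 16549256))) (a (b (l 16540456) (l 16528056)) (b (l 16523192) (c (l 16531056) (l 16505264))))))) (a (b (c (a (l 16448800) (l 16508584)) (a (l 16459280) (b (l 16511848) (c (l 16509936) (l 16494304))))) (c (a (l 16440544) (b (l 16486976) (c (l 16504264) (l 16485880)))) (a (b (l 16392024) (c (l 16448008) (l 16424320))) (c (b (l 16490128) (l 16461336)) (l 16460728))))) (c (b (a (b (l 16546840) (l 16537224)) (b (l 16537248) (c (l 16547248) (l 16523968)))) (a (b (c (l 16529960) (l 16511728)) (l 16492936)) (b (l 16487320) (l 16485184)))) (b (a (c (b (l 16540776) (l 16518416)) (b (l 16525048) (l 16494776))) (c (b (l 16517688) (l 16505792)) (l 16508528))) (l 16441480))))) (c (a (b (a (c (l 16460992) (l 16421608)) (c (l 16485776) (b (l 16503768) (l 16403552)))) (c (a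 (l 16402480) (c (l 16476480) (l 16418624))) (a (b (l 16431096) (l 16428264)) (b (l 16460280) (l 16439480))))) (c (b (a (b (l 16533808) (l 16518672)) (b (l 16508976) (c (l 16514536) (l 16487224)))) (a (c (l 16410168) (l 16468872)) (b (l 16451296) (l 16449968)))) (b (a (b (c (l 16518752) (l 16493040)) (l 16478960)) (b (l 16468984) (l 16467248))) (l 16409928)))) (a (c (b (a (c (l 16410400) (b (l 16446304) (l 16419128))) (c (b (l 16481560) (l 16451672)) (l 16450936))) (a (l 16409544) (l 16432800))) (b (a (l 16414320) (l 16441992)) (l 16415360))) (b (c (l 16425392) (l 16461536)) (l 16445528))))), by decide +kernel⟩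

def k48_pm_202 : ∃ t, chk3 f_pm_202 t 61 36 5 = true :=
  ⟨(a (b (c (b (c (a (l 16578160) (b (l 16586608) (l 16549880))) (b (a (l 16564112) (c (l 16580720) (l 16561112))) (a (l 16522920) (c (l 16569024) (l 16542872))))) (c (b (a (l 16547648) (l 16487200)) (a (l 16503864) (l 16488400))) (a (c (b (l 16547928) (l 16510560)) (l 16468952)) (b (l 16483064) (l 16500776))))) (c (b (a (c (b (l 16569080) (l 16533320)) (l 16491872)) (b (l 16510232) (l 16527544))) (l 16480808)) (b (l 16505760) (l 16498152)))) (c (c (b (a (c (b (l 16526560) (l 16488512)) (l 16446744)) (b (l 16456640) (l 16474760))) (l 16433072)) (b (l 16477552) (l 16450272))) (l 16460936))) (c (b (c (c (a (b (a (b (l 16608704) (l 16585880)) (l 16551256)) (a (l 16482000) (l 16474104))) (b (a (l 16539296) (l 16534104)) (a (b (l 16516160) (l 16508176)) (l 16506456)))) (b (a (b (c (l 16580640) (l 16589952)) (l 16553128)) (a (l 16499768) (b (l 16562896) (l 16548656)))) (a (a (l 16482784) (l 16481288)) (l 16498128)))) (b (a (c (b (l 16551144) (l 16509560))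 (l 16515088)) (c (a (b (l 16559032) (l 16550592)) (l 16544176)) (l 16540400))) (a (c (l 16515376) (l 16514568)) (l 16461768)))) (c (a (c (a (l 16406160) (l 16471088)) (l 16467224)) (a (l 16466728) (l 16454736))) (a (l 16466400) (c (l 16430912) (l 16471312))))) (c (b (a (l 16509840) (l 16476816)) (b (l 16440224) (l 16407144))) (l 16459488)))), by decide +kernel⟩

def k49_pm_202 : ∃ t, chk3 f_pm_202 t 60 37 8 = true :=
  ⟨(a (b (b (l 16466552) (c (l 16481920) (a (l 16478632) (b (l 16510472) (l 16482640))))) (b (c (a (l 16484032) (b (l 16510376) (l 16479840))) (a (b (l 16481744) (l 16466520)) (b (l 16484520) (l 16454944)))) (c (a (b (l 16483848) (l 16466000)) (c (l 16477360) (l 16449472))) (a (c (l 16442688) (l 16414752)) (c (l 16405112) (l 16410248)))))) (a (b (c (b (l 16503976) (c (l 16517224) (l 16519056))) (b (l 16520240) (b (l 16491504) (l 16489440)))) (c (b (c (b (l 16494768) (l 16494120)) (l 16481512)) (c (l 16400600) (l 16378776))) (b (b (l 16457128) (l 16387104)) (l 16383432)))) (b (c (b (c (l 16519704)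 (l 16484016)) (c (a (b (l 16526704) (l 16522936)) (l 16473528)) (a (b (l 16524640) (l 16503816)) (l 16439088)))) (b (c (a (l 16528776) (b (l 16535600) (l 16523808))) (l 16474008)) (c (l 16374880) (l 16455984)))) (c (b (c (a (l 16459416) (l 16456232)) (a (l 16447280) (b (l 16446576) (l 16411952)))) (c (a (b (l 16423088) (l 16373752)) (b (l 16401872) (l 16379928))) (a (l 16351656) (l 16384712)))) (b (c (a (l 16424816) (b (l 16416744) (l 16394280))) (l 16405728)) (l 16380912)))))), by decide +kernel⟩

def k50_pm_202 : ∃ t, chk3 f_pm_202 t 60 37 9 = true :=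
  ⟨(b (a (b (c (a (l 16473000) (b (l 16510264) (l 16485176))) (a (b (l 16476544) (l 16466712)) (b (l 16494616) (l 16431960)))) (c (a (b (l 16479312) (l 16466768)) (b (l 16489680) (l 16445984))) (a (c (l 16447104) (l 16421096)) (b (l 16442968) (l 16422952))))) (b (c (a (b (l 16498832) (l 16499352)) (b (l 16501136) (l 16468216))) (a (c (l 16419680) (l 16434976)) (b (l 16434264) (l 16433320)))) (c (a (c (l 16466096) (l 16422648)) (c (l 16392888) (l 16421264))) (a (l 16427120) (l 16414968))))) (a (c (b (a (c (l 16444984) (l 16417680)) (c (l 16433256) (l 16417304))) (a (l 16395472) (l 16401512))) (b (a (l 16398256) (l 16408528)) (l 16392760))) (c (b (a (l 16415472) (l 16399432)) (l 16390336)) (l 16396120)))), by decide +kernel⟩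

def k51_pm_202 : ∃ t, chk3 f_pm_202 t 61 37 8 = true :=
  ⟨(c (a (b (a (b (c (l 16469656) (a (l 16508152) (l 16472488))) (c (b (l 16455192) (l 16465888)) (l 16381480))) (a (b (c (b (l 16499504) (l 16484960)) (l 16467264)) (c (l 16429584) (l 16412232))) (b (c (b (l 16496408) (l 16469384)) (l 16440368)) (c (l 16404984) (b (l 16397216) (l 16363208)))))) (a (b (c (b (l 16424504) (l 16326480)) (a (b (l 16421936) (l 16393632)) (l 16364064))) (c (b (l 16343392) (l 16349344)) (l 16363120))) (b (b (c (a (l 16368304) (l 16349376)) (l 16312296)) (a (l 16324368) (l 16329600))) (l 16319896)))) (b (b (a (c (l 16451512) (l 16440824)) (c (l 16435752) (b (l 16444832) (l 16409160)))) (a (c (b (l 16408960) (l 16373608)) (b (l 16382568) (l 16357000))) (c (b (l 16397968) (l 16372448)) (l 16375064)))) (b (l 16299712) (l 16312856)))) (a (b (a (b (c (a (l 16460216) (l 16465432)) (a (l 16479872) (l 16484416))) (c (a (l 16455080) (l 16348512)) (a (b (l 16441464) (l 16412480)) (l 16356600)))) (b (c (l 16419912) (a (l 16439224) (l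 16409152))) (c (b (l 16402304) (l 16376632)) (a (l 16403368) (l 16382032))))) (a (c (a (c (l 16346240) (l 16385456)) (l 16374536)) (l 16359504)) (l 16324800))) (b (c (b (a (a (l 16352464) (l 16386984)) (b (l 16420488) (l 16394592))) (a (l 16339256) (l 16369016))) (a (b (a (b (l 16413440) (l 16385288)) (l 16389736)) (l 16359864)) (l 16380576))) (a (l 16318672) (l 16319728))))), by decide +kernel⟩

def k52_pm_202 : ∃ t, chk3 f_pm_202 t 61 37 9 = true :=
  ⟨(a (a (a (b (c (b (l 16400528) (l 16414904)) (l 16401696)) (l 16381184)) (c (b (b (c (b (l 16473120) (l 16437752)) (l 16396072)) (c (l 16408928) (l 16406912))) (l 16351688)) (l 16396120))) (c (c (b (b (a (l 16402192) (l 16384816)) (l 16398512)) (l 16363344)) (a (b (b (l 16411904) (l 16405152)) (l 16369144)) (l 16345560))) (b (c (l 16414168) (l 16411576)) (c (l 16363624) (l 16361768))))) (a (c (b (a (l 16353184) (l 16377024)) (l 16328552)) (c (l 16329784) (a (l 16363952) (l 16374032)))) (c (b (l 16373784) (l 16268736)) (b (l 16377768) (a (l 16318064) (l 16305672)))))),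 by decide +kernel⟩

def k53_pm_202 : ∃ t, chk3 f_pm_202 t 30 37 5 = true :=
  ⟨(a (c (b (a (c (b (a (c (l 16449040) (l 16425000)) (b (l 16451352) (l 16430944))) (a (l 16401520) (l 16416072))) (b (a (l 16405280) (l 16424160)) (l 16403024))) (c (b (l 16374128) (l 16416976)) (l 16423416))) (a (l 16393848) (l 16394216))) (a (l 16376736) (l 16385408))) (a (c (b (l 16415016) (l 16369136)) (b (l 16412592) (l 16366336))) (c (c (a (b (c (l 16410192) (l 16406328)) (c (l 16330768) (l 16347584))) (a (c (l 16366688) (l 16311448)) (b (l 16384944) (l 16319208)))) (a (b (l 16406680) (l 16349816)) (b (c (a (l 16405288) (l 16400632)) (l 16402096)) (a (c (l 16340552) (l 16339248)) (c (l 16335120) (l 16336472)))))) (c (a (l 16377200) (c (b (l 16400176) (l 16335424)) (l 16369504))) (l 16309568))))), by decide +kernel⟩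

def k54_pm_202 : ∃ t, chk3 f_pm_202 t 62 36 8 = true :=
  ⟨(b (a (b (a (l 16595304) (c (l 16672160) (b (l 16661296) (c (l 16668928) (l 16631256))))) (a (c (l 16581056) (c (b (l 16635656) (l 16575272)) (b (l 16587272) (l 16576120)))) (c (c (l 16609176) (a (l 16605392) (l 16588264))) (c (a (l 16573824) (l 16570160)) (l 16526608))))) (b (b (c (a (l 16642536) (c (l 16615336) (l 16575536))) (a (c (l 16614680) (l 16603048)) (l 16561952))) (c (a (l 16610920) (a (l 16578832) (l 16582280))) (a (l 16611936) (l 16579128)))) (c (a (b (c (l 16643784) (l 16628040)) (l 16571304)) (c (l 16568768) (l 16541472))) (a (b (l 16549464) (c (l 16570328) (l 16547192))) (b (c (l 16580512) (l 16560416)) (c (l 16535584) (l 16567040))))))) (a (c (b (a (b (c (l 16591592) (l 16562432)) (c (l 16548776) (l 16568960))) (b (l 16542048) (l 16520064))) (a (c (l 16507728) (l 16414760)) (c (b (l 16524144) (l 16458032)) (b (l 16477608) (l 16463080))))) (b (a (b (l 16523864) (l 16457968)) (c (l 16459160) (b (l 16517104) (l 16502096)))) (a (c (b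 (l 16489560) (l 16453672)) (l 16414656)) (c (l 16450008) (l 16465536))))) (b (c (a (b (l 16543168) (c (l 16546976) (l 16502960))) (c (b (l 16530672) (l 16486280)) (b (l 16510872) (l 16517960)))) (a (b (c (l 16524960) (l 16532464)) (l 16509144)) (l 16528720))) (c (a (b (c (l 16481184) (l 16488704)) (l 16465800)) (l 16480160)) (l 16474936))))), by decide +kernel⟩

def k55_pm_202 : ∃ t, chk3 f_pm_202 t 62 36 9 = true :=
  ⟨(b (a (c (b (a (c (l 16582360) (b (l 16631048) (l 16581320))) (b (a (l 16611512) (l 16607720)) (c (l 16632872) (l 16601384)))) (a (b (l 16551064) (l 16507816)) (b (c (l 16582512) (l 16533888)) (c (l 16515288) (l 16539392))))) (b (a (c (l 16528560) (b (l 16608136) (l 16561320))) (b (c (l 16619680) (l 16569344)) (c (l 16551912) (l 16553416)))) (a (b (c (l 16546752) (l 16524296)) (l 16463616)) (c (l 16503224) (l 16536736))))) (c (b (a (c (b (l 16644976) (l 16615568)) (b (l 16638528) (l 16571360))) (c (a (l 16568392) (l 16565136)) (b (l 16610432) (l 16616592)))) (a (b (c (l 16548680) (l 16577136))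 (l 16553400)) (l 16577824))) (b (a (c (b (l 16594280) (l 16599808)) (l 16567808)) (l 16585528)) (l 16567576)))) (a (c (b (a (c (b (l 16518080) (l 16481744)) (l 16442408)) (c (l 16467240) (l 16502272))) (l 16451896)) (l 16421128)) (l 16431696))), by decide +kernel⟩

def k56_pm_202 : ∃ t, chk3 f_pm_202 t 62 36 5 = true :=
  ⟨(c (c (b (a (b (a (c (a (b (l 16577048) (l 16515232)) (l 16498384)) (a (l 16486856) (l 16547088))) (l 16491848)) (a (l 16485952) (l 16528928))) (l 16546728)) (a (a (l 16448520) (l 16464384)) (l 16489656))) (a (a (c (b (l 16490704) (l 16454200)) (l 16397744)) (b (l 16521352) (l 16455752))) (b (l 16520400) (l 16483968)))) (c (a (a (c (a (l 16451008) (l 16467784)) (b (l 16512600) (l 16433280))) (b (a (l 16524576) (l 16544432)) (a (l 16460552) (l 16455432)))) (b (l 16513568) (l 16455848))) (a (a (a (l 16511672) (b (l 16513584) (l 16452264))) (a (c (l 16434904) (l 16415256)) (b (l 16538360) (l 16469672)))) (a (b (l 16476104) (l 16422304)) (l 16405712))))), by decide +kernel⟩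

def k57_pm_202 : ∃ t, chk3 f_pm_202 t 63 36 2 = true :=
  ⟨(c (b (c (a (c (b (a (b (c (l 16565312) (l 16583784)) (l 16599784)) (b (l 16552152) (a (l 16613032) (l 16582968)))) (a (b (l 16557008) (c (l 16557000) (l 16561240))) (c (b (l 16566848) (l 16565584)) (l 16558152)))) (b (a (c (l 16572808) (a (l 16578592) (l 16573992))) (c (b (l 16613976) (l 16603560)) (l 16596464))) (a (b (l 16544880) (l 16574776)) (l 16596520)))) (c (b (a (b (c (l 16610448) (l 16609496)) (c (l 16602560) (l 16654576))) (b (c (l 16604128) (l 16674736)) (l 16664112))) (a (l 16564400) (l 16613048))) (a (l 16553504) (l 16583352)))) (a (a (b (c (b (l 16600448) (l 16629896)) (l 16643128)) (l 16587368)) (l 16583816)) (l 16534976))) (a (c (b (a (c (b (c (l 16534120) (l 16547848)) (l 16520688)) (l 16533384)) (l 16537800)) (l 16479904)) (a (l 16504496) (l 16507224))) (a (b (l 16541208) (c (l 16490888) (l 16489016))) (b (a (l 16545064) (l 16551320)) (l 16513272))))) (a (b (c (l 16534864) (c (l 16554160) (l 16552216))) (c (a (l 16501160) (l 16505504))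 (a (l 16495856) (l 16461136)))) (a (b (a (l 16569584) (l 16574816)) (b (l 16538320) (c (l 16487136) (l 16485240)))) (b (a (l 16580072) (l 16563816)) (b (a (l 16542240) (l 16548536)) (a (l 16502336) (l 16518608))))))), by decide +kernel⟩

def k58_pm_202 : ∃ t, chk3 f_pm_202 t 62 37 2 = true :=
  ⟨(c (b (a (c (c (b (a (c (b (l 16438056) (l 16402624)) (b (l 16438920) (l 16413168))) (c (l 16411304) (l 16427096))) (l 16386584)) (l 16316064)) (c (l 16392336) (l 16383280))) (c (b (l 16428208) (a (l 16384160) (l 16392400))) (b (l 16422288) (a (l 16377632) (l 16387264))))) (a (c (b (a (l 16345592) (l 16351168)) (c (l 16319872) (l 16313720))) (b (a (l 16326368) (l 16339256)) (a (l 16306984) (l 16335160)))) (c (a (l 16366256) (l 16387312)) (a (l 16338680) (l 16382200))))) (a (c (b (a (c (l 16372792) (c (l 16378104) (l 16387104))) (c (l 16380280) (l 16371424))) (a (c (b (l 16317464) (l 16298024)) (a (l 16303088) (l 16290040))) (c (l 16325128) (b (l 16316392) (l 16312448))))) (c (a (b (a (l 16357088) (l 16352872)) (a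 (b (l 16343824) (l 16275912)) (b (l 16337552) (l 16300008)))) (b (l 16290936) (b (a (l 16319472) (l 16313480)) (l 16315488)))) (c (a (b (l 16394568) (a (l 16331352) (l 16329464))) (b (l 16386088) (a (l 16333496) (l 16324152)))) (a (l 16301952) (b (a (l 16393360) (l 16388000)) (a (l 16331680) (l 16334368))))))) (b (c (b (l 16413240) (a (l 16365944) (l 16380856))) (a (c (l 16374576) (a (l 16370344) (l 16368392))) (b (l 16406304) (l 16348328)))) (c (c (l 16344240) (l 16338208)) (a (c (l 16334216) (l 16310104)) (l 16364376)))))), by decide +kernel⟩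

def k59_pm_202 : ∃ t, chk3 f_pm_202 t 63 37 2 = true :=
  ⟨(c (a (b (c (b (a (l 16430440) (l 16443976)) (l 16422080)) (b (a (l 16427784) (l 16441712)) (l 16419472))) (c (l 16415360) (l 16391760))) (a (c (l 16453392) (l 16451248)) (a (l 16427496) (b (l 16496720) (l 16463936))))) (a (c (b (b (a (l 16423808) (l 16439432)) (l 16416056)) (a (l 16399368) (l 16419576))) (b (b (a (l 16417888) (l 16436456)) (l 16369512)) (c (l 16406384) (l 16403648)))) (a (c (l 16449088) (l 16404968)) (c (b (l 16486808) (l 16455832)) (b (l 16484832) (l 16453608)))))), by decide +kernel⟩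

def k60_pm_202 : ∃ t, chk3 f_pm_202 t 30 18 3 = true :=
  ⟨(b (c (a (b (c (a (b (c (a (b (l 16393120) (c (l 16451136) (l 16430040))) (b (c (l 16498408) (l 16476904)) (l 16468456))) (a (l 16425424) (l 16462080))) (c (a (l 16419608) (l 16451752)) (l 16429832))) (b (c (l 16437232) (l 16494400)) (l 16477184))) (a (l 16432664) (l 16484128))) (a (l 16416400) (l 16450592))) (b (c (l 16480072) (l 16478528)) (c (l 16462840) (l 16460808)))) (a (b (a (l 16429272) (l 16481384)) (a (l 16411640) (l 16446400))) (b (c (l 16497952) (l 16496384)) (c (l 16458760) (l 16456696))))) (c (a (a (c (l 16395208) (l 16392688)) (b (l 16418192) (l 16387824))) (a (b (l 16408928) (l 16320152)) (b (l 16337192) (b (l 16352400) (l 16302304))))) (a (a (b (l 16396000) (l 16340400)) (b (l 16413480) (c (l 16383944) (l 16381336)))) (b (c (l 16400784) (l 16398240)) (c (a (l 16357816) (l 16333488)) (a (l 16354944) (l 16309392))))))), by decide +kernel⟩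

def k61_pm_202 : ∃ t, chk3 f_pm_202 t 62 18 6 = true :=
  ⟨(a (c (c (b (a (l 16491960) (b (c (l 16523296) (l 16542856)) (c (l 16455672) (l 16475168)))) (a (b (l 16395728) (l 16330992)) (b (c (l 16390168) (l 16389008)) (a (l 16331448) (c (l 16336288) (l 16333608)))))) (b (l 16432440) (b (l 16392376) (l 16334704)))) (b (b (l 16557824) (l 16472960)) (b (l 16390376) (b (l 16334944) (l 16322520))))) (a (c (b (c (c (a (l 16458408) (l 16449288)) (a (b (l 16554480) (l 16481184)) (l 16459096))) (b (c (a (l 16573840) (l 16559352)) (l 16534096)) (c (a (l 16478632) (l 16481880)) (l 16457376)))) (c (b (a (c (l 16382616) (l 16389056)) (l 16351720)) (a (c (l 16336576) (l 16342664)) (l 16336768))) (b (c (a (l 16385728) (l 16386544)) (l 16341824)) (c (a (l 16338960) (l 16350448)) (a (l 16340536) (l 16347384)))))) (b (b (l 16576984) (l 16479464)) (b (l 16385056) (l 16343648)))) (c (b (c (b (l 16513424) (l 16471736)) (a (c (l 16438440) (a (l 16450552) (l 16468456))) (b (l 16536840) (l 16471640)))) (c (b (b (l 16394840) (l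 16357696)) (l 16352896)) (b (a (c (l 16374688) (l 16364200)) (b (l 16392840) (l 16357720))) (c (l 16352064) (a (l 16358528) (l 16356296)))))) (b (c (c (a (b (l 16566040) (l 16483176)) (l 16407672)) (b (b (l 16573760) (l 16540960)) (l 16387928))) (c (b (l 16525344) (l 16481832)) (l 16494176))) (c (b (c (a (l 16364624) (l 16384744)) (a (l 16385720) (b (l 16405616) (l 16370024)))) (c (a (l 16357808) (l 16365240)) (a (l 16358432) (l 16368224)))) (c (b (b (l 16403832) (l 16366120)) (l 16360984)) (b (l 16387744) (l 16362248)))))))), by decide +kernel⟩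

def k62_pm_202 : ∃ t, chk3 f_pm_202 t 62 18 7 = true :=
  ⟨(b (b (c (b (l 16572480) (l 16545824)) (l 16484496)) (c (l 16454472) (l 16452504))) (b (b (c (l 16406424) (l 16403872)) (a (l 16365816) (c (l 16364736) (l 16361816)))) (a (b (c (l 16331800) (l 16328624)) (c (l 16319280) (l 16316008))) (c (l 16350944) (b (l 16346040) (l 16349344)))))), by decide +kernel⟩

def k63_pm_202 : ∃ t, chk3 f_pm_202 t 63 36 6 = true :=
  ⟨(a (c (b (a (c (l 16561296) (l 16554352)) (l 16536616)) (a (c (l 16490000) (l 16482688)) (c (l 16500520) (l 16497720)))) (a (a (c (c (l 16445104) (l 16387096)) (b (c (l 16535896) (l 16556248)) (c (l 16486512) (l 16485032)))) (c (b (l 16553728) (l 16479528)) (c (l 16411560) (a (a (l 16440960) (l 16441792)) (l 16459640))))) (b (c (l 16552688) (b (l 16580888) (l 16539680))) (c (l 16493344) (a (l 16483376) (l 16491840)))))) (c (b (a (l 16571184) (l 16559968)) (a (b (l 16536056) (l 16483256)) (b (l 16501984) (l 16507376)))) (b (c (c (l 16553896) (l 16532536)) (a (l 16568696) (l 16559360))) (a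 (b (l 16533232) (c (l 16481280) (l 16479192))) (b (a (l 16538648) (l 16545072)) (l 16505496)))))), by decide +kernel⟩

def k64_pm_202 : ∃ t, chk3 f_pm_202 t 63 36 7 = true :=
  ⟨(a (c (c (a (c (b (b (l 16587936) (l 16571416)) (l 16421872)) (l 16481368)) (b (a (c (l 16523312) (l 16548320)) (c (l 16569464) (l 16550240))) (a (c (l 16465264) (l 16468192)) (c (l 16486272) (l 16446144))))) (a (l 16459872) (a (l 16466632) (b (c (c (l 16554448) (l 16575984)) (a (l 16616776) (l 16556192))) (c (l 16407296) (l 16448992)))))) (b (l 16545000) (l 16466536))) (c (c (b (a (l 16543792) (l 16579928)) (a (b (l 16528232) (l 16474688)) (b (l 16541424) (l 16504344)))) (a (a (b (c (l 16557472) (b (l 16613824) (l 16547856))) (c (l 16451224) (a (l 16452336) (l 16411504)))) (b (b (l 16644336) (l 16576216)) (b (l 16529672) (l 16477792)))) (b (b (l 16636064) (l 16585536)) (b (l 16477176) (l 16502848))))) (a (c (a (a (l 16432904) (c (b (l 16562552) (l 16412440)) (l 16456984))) (b (c (c (l 16566400) (l 16546192)) (c (l 16546520) (l 16588840)))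 (c (a (b (l 16526544) (l 16450240)) (l 16440592)) (a (l 16501312) (c (l 16463072) (l 16483928)))))) (b (l 16606992) (l 16480552))) (b (c (a (c (l 16595968) (a (a (l 16550216) (l 16572912)) (l 16597760))) (l 16540384)) (a (c (c (a (l 16593888) (l 16586864)) (l 16577344)) (l 16617152)) (c (a (c (l 16622136) (l 16580888)) (l 16604832)) (a (l 16577888) (c (a (l 16583496) (l 16626576)) (l 16583128)))))) (c (a (c (l 16493600) (a (b (l 16530960) (l 16465592)) (l 16495296))) (b (l 16521432) (l 16511448))) (c (c (a (a (l 16467576) (b (l 16533976) (l 16496040))) (l 16505728)) (a (b (l 16529368) (l 16487368)) (a (b (l 16538880) (l 16506648)) (l 16529784)))) (a (l 16513984) (a (b (l 16514000) (l 16502200)) (b (c (l 16501312) (l 16521440)) (c (l 16515344) (l 16514352))))))))))), by decide +kernel⟩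

def k65_pm_202 : ∃ t, chk3 f_pm_202 t 63 37 6 = true :=
  ⟨(a (c (c (b (a (l 16361248) (l 16428832)) (l 16399088)) (b (a (l 16332720) (l 16425776)) (l 16392912))) (c (a (b (b (a (l 16395304) (l 16400200)) (l 16358216)) (c (l 16374640) (l 16375160))) (b (l 16421160) (l 16405816))) (a (c (a (b (b (l 16404880) (l 16379936)) (l 16378152)) (b (l 16392984) (l 16379800))) (b (a (b (l 16402920) (l 16377752)) (b (l 16407288) (l 16392072))) (a (l 16375728) (l 16387312)))) (a (b (l 16405256) (l 16391992)) (l 16415976))))) (c (a (b (l 16455952) (l 16433584)) (b (l 16482800) (l 16451328))) (a (c (l 16442480) (l 16440280)) (a (l 16460344) (l 16450240))))), by decide +kernel⟩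

def k66_pm_202 : ∃ t, chk3 f_pm_202 t 63 37 7 = true :=
  ⟨(a (c (a (a (b (l 16392192) (l 16376424)) (c (c (b (b (l 16406728) (l 16391104)) (l 16385760)) (l 16394352)) (b (l 16399944) (l 16386496)))) (c (c (a (b (a (l 16407768) (l 16407424)) (l 16353336)) (l 16410320)) (b (a (c (l 16411256) (l 16410056)) (l 16420360)) (a (c (l 16397528) (l 16396288)) (l 16405032)))) (a (l 16404040) (c (b (a (l 16419008) (l 16426848)) (c (l 16407536) (l 16406680))) (b (l 16401224) (l 16385192)))))) (b (b (l 16415344) (l 16396784)) (l 16390000))) (c (a (c (c (l 16437504) (l 16434464)) (c (a (l 16403768) (l 16442336)) (a (b (c (l 16437064) (l 16437640)) (c (l 16416992) (l 16417056))) (l 16440576)))) (c (a (l 16458760) (l 16469832)) (a (l 16415120) (l 16426808)))) (a (c (c (c (a (a (l 16425160) (l 16430624)) (a (l 16436552) (l 16441432))) (a (l 16428176) (a (l 16416192) (l 16442784)))) (a (l 16427744) (a (l 16437752) (c (l 16380616) (a (l 16442632) (l 16444992)))))) (l 16433552)) (c (a (c (l 16454384) (a (c (l 16449064) (a (l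 16448472) (l 16451384))) (l 16457456))) (c (l 16468088) (b (l 16484832) (l 16450480)))) (a (c (c (a (b (l 16463816) (l 16435080)) (b (l 16472536) (l 16420856))) (a (l 16450480) (a (l 16455536) (b (l 16473448) (l 16441784))))) (l 16453448)) (c (c (l 16424488) (a (a (a (l 16397640) (l 16462568)) (l 16465456)) (l 16470288))) (c (a (c (a (l 16461256) (l 16465248)) (l 16418776)) (a (b (l 16487176) (b (l 16461000) (l 16422824))) (l 16471936))) (a (l 16463464) (a (l 16445336) (b (l 16489552) (l 16432352))))))))))), by decide +kernel⟩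

def k67_pm_202 : ∃ t, chk3 f_pm_202 t 28 38 4 = true :=
  ⟨(b (a (b (c (l 16365640) (l 16376064)) (b (c (l 16412120) (l 16428552)) (c (l 16427296) (l 16448744)))) (b (c (l 16313872) (a (l 16374672) (l 16314424))) (c (b (l 16399376) (l 16415792)) (b (a (l 16427832) (l 16407808)) (a (l 16469448) (c (l 16464784) (l 16390544))))))) (a (c (l 16419240) (c (l 16411736) (b (l 16504104) (a (l 16517320) (l 16493848))))) (c (a (b (l 16487264) (l 16531256)) (c (l 16423872) (b (l 16477856) (l 16502384)))) (a (b (b (l 16471320) (l 16444768)) (c (l 16529864) (a (l 16553568) (l 16510352)))) (c (b (a (l 16526056) (l 16463256)) (a (l 16533416) (l 16538608))) (b (a (b (l 16493928) (l 16491456)) (l 16392192)) (l 16482768))))))), by decide +kernel⟩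

def k68_pm_202 : ∃ t, chk3 f_pm_202 t 28 38 5 = true :=
  ⟨(b (a (c (b (l 16375832) (a (b (l 16453936) (l 16477176)) (b (l 16454456) (c (l 16494736) (l 16450080))))) (b (a (c (l 16413320) (l 16419936)) (c (l 16410360) (b (l 16370624) (l 16369312)))) (b (a (c (l 16478104) (l 16426552)) (c (l 16408168) (l 16388056))) (a (c (l 16511832) (a (l 16506952) (l 16474600))) (c (a (l 16442280) (l 16449760)) (l 16439848)))))) (c (b (a (c (l 16400048) (l 16380528)) (c (l 16351136) (a (l 16365552) (l 16284728)))) (b (a (c (l 16448936) (l 16390280)) (c (l 16351640) (l 16378304))) (a (c (l 16430728) (c (l 16413320) (l 16431336))) (c (a (l 16418392) (l 16401032)) (l 16390776))))) (b (a (c (b (l 16361384) (l 16333448)) (b (l 16320168) (l 16364392))) (l 16237880)) (b (c (l 16320696) (l 16370544)) (l 16336544))))) (a (c (a (c (l 16417768) (b (l 16550376) (b (l 16504224) (l 16454896)))) (c (b (l 16508696) (b (l 16543712) (l 16496008))) (b (a (l 16526008) (l 16471048)) (l 16578888)))) (a (c (b (l 16410992) (l 16557320)) (l 16503208))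 (l 16389472))) (c (a (c (b (c (l 16434272) (l 16421544)) (l 16530544)) (l 16406792)) (c (l 16380656) (l 16474576))) (l 16444952)))), by decide +kernel⟩

def k69_pm_202 : ∃ t, chk3 f_pm_202 t 28 39 2 = true :=
  ⟨(c (a (c (b (b (a (l 16461456) (l 16439456)) (a (l 16345064) (c (l 16395144) (l 16362600)))) (c (a (b (l 16280552) (l 16175864)) (b (l 16268264) (c (l 16278296) (l 16300648)))) (a (b (l 16269392) (c (l 16234376) (l 16255720))) (b (a (l 16336904) (l 16379912)) (l 16316344))))) (b (a (b (c (l 16436480) (l 16399040)) (c (l 16343776) (b (l 16374216) (l 16377760)))) (c (b (a (l 16461632) (l 16468656)) (b (l 16394896) (l 16421424))) (b (c (l 16429264) (l 16419728)) (l 16434552)))) (c (a (b (c (l 16304880) (l 16324960)) (l 16270632)) (l 16289832)) (l 16142456)))) (c (b (a (c (b (l 16465400) (l 16358944)) (b (l 16433008) (a (l 16428328) (l 16470480)))) (c (b (l 16447808) (a (l 16447056) (l 16511024))) (b (a (l 16518072) (l 16601496)) (l 16476072)))) (a (c (b (a (l 16378904) (l 16422520)) (l 16339400)) (l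 16291776)) (c (b (l 16407280) (l 16412944)) (l 16446352)))) (b (a (b (c (a (l 16490040) (l 16561696)) (l 16527000)) (l 16395832)) (b (l 16465160) (l 16549952))) (l 16403512)))) (a (b (c (c (b (a (a (l 16419568) (l 16409272)) (l 16506144)) (l 16352144)) (l 16326392)) (l 16457336)) (l 16291912)) (c (l 16325584) (l 16387216)))), by decide +kernel⟩

def k70_pm_202 : ∃ t, chk3 f_pm_202 t 29 76 4 = true :=
  ⟨(a (c (b (a (l 16368592) (c (l 16402520) (l 16394240))) (a (b (l 16413240) (c (l 16440200) (l 16411120))) (b (c (l 16439880) (l 16413688)) (c (a (l 16463280) (l 16448728)) (a (l 16452576) (l 16435472)))))) (b (a (c (l 16394296) (a (l 16396680) (l 16387752))) (c (a (l 16409320) (l 16407104)) (a (c (l 16392872) (l 16374608)) (l 16369000)))) (a (b (c (l 16403264) (a (l 16411864) (l 16389024))) (c (a (l 16451976) (l 16429312)) (a (l 16416688) (l 16381912)))) (b (c (a (l 16412536) (l 16390928)) (l 16364032)) (c (a (l 16406008) (l 16387400)) (l 16371400)))))) (a (c (c (b (a (l 16438496) (l 16430416)) (b (a (l 16457664)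 (l 16450544)) (a (l 16441040) (l 16441240)))) (b (a (l 16410608) (l 16384296)) (b (a (l 16422200) (l 16398736)) (a (l 16410656) (l 16372552))))) (b (c (a (c (l 16409760) (l 16383832)) (l 16362968)) (l 16298888)) (b (c (l 16373800) (l 16359768)) (l 16335448)))) (c (b (c (a (b (l 16462224) (l 16451592)) (b (l 16456760) (l 16431048))) (a (c (l 16425728) (l 16397968)) (c (l 16405096) (l 16387208)))) (c (b (a (l 16431080) (l 16406688)) (a (l 16394416) (c (l 16404160) (l 16391032)))) (b (l 16342152) (l 16387352)))) (b (c (a (l 16376192) (l 16376216)) (l 16368656)) (l 16356472))))), by decide +kernel⟩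

def k71_pm_202 : ∃ t, chk3 f_pm_202 t 29 77 4 = true :=
  ⟨(a (c (a (c (b (l 16443872) (c (l 16494584) (l 16521224))) (b (a (l 16465656) (l 16467784)) (a (l 16508776) (l 16474504)))) (c (b (a (l 16465848) (l 16474400)) (a (c (l 16552904) (l 16524896)) (l 16476144))) (b (a (l 16412464) (l 16430200)) (l 16435768)))) (a (c (b (a (l 16416344) (l 16447640)) (a (l 16486608) (l 16488120))) (b (l 16368256) (l 16487144))) (c (b (l 16388952) (l 16486024)) (l 16451568)))) (c (a (c (b (a (l 16418032) (l 16413224)) (l 16418288)) (b (l 16352424) (l 16491000))) (c (b (a (l 16400408) (l 16437160)) (l 16496920)) (l 16464448))) (l 16460072))), by decide +kernel⟩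

def k72_pm_202 : ∃ t, chk3 f_pm_202 t 29 38 5 = true :=
  ⟨(b (a (c (b (a (c (a (l 16333456) (c (l 16366648) (l 16340616))) (l 16313800)) (c (l 16345376) (l 16331688))) (a (b (c (l 16359960) (l 16342832)) (l 16325808)) (l 16356296))) (b (l 16324344) (l 16289360))) (b (c (l 16357800) (l 16354976)) (b (l 16361968) (l 16375232)))) (a (c (l 16408768) (l 16448736)) (l 16415344))), by decide +kernel⟩

def k73_pm_202 : ∃ t, chk3 f_pm_202 t 29 39 2 = true :=
  ⟨(c (a (c (b (a (c (b (a (l 16555496) (l 16562968)) (l 16491608)) (b (l 16485200) (l 16586392))) (b (c (l 16502256) (l 16552936)) (l 16596072))) (a (b (l 16517712) (l 16447264)) (l 16414040))) (a (l 16334168) (l 16341056))) (b (a (b (l 16555152) (l 16550688)) (b (l 16481104) (l 16478400))) (c (l 16273776) (l 16313592)))) (a (a (l 16360416) (c (l 16361160) (l 16360272))) (a (b (l 16526272) (l 16357128)) (b (l 16458976) (l 16347760))))), by decide +kernel⟩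

def k74_pm_202 : ∃ t, chk3 f_pm_202 t 14 19 3 = true :=
  ⟨(a (a (b (b (c (c (b (a (c (a (l 16379200) (l 16364808)) (l 16336392)) (c (l 16301168) (l 16363112))) (b (c (a (l 16408720) (l 16404192)) (l 16415384)) (l 16407872))) (b (l 16370592) (l 16387864))) (b (l 16366816) (b (l 16410744) (l 16443176)))) (c (l 16436832) (l 16455936))) (c (b (l 16413280) (l 16328232)) (l 16187960))) (b (b (c (b (l 16315440) (b (l 16367160) (l 16393064))) (b (l 16330464) (b (l 16361960) (l 16388352)))) (c (l 16421656) (l 16397696))) (c (l 16280304) (c (l 16341120) (l 16339696))))) (b (b (c (a (b (l 16319608) (b (l 16338128) (l 16357976))) (b (l 16350696) (b (l 16356408) (l 16369928)))) (a (b (l 16271424) (b (l 16332240) (a (l 16352016) (l 16352848)))) (b (l 16323976) (b (l 16350776) (l 16322616))))) (c (a (l 16382944) (l 16411608)) (a (l 16337136) (l 16365888)))) (a (c (a (l 16337680) (b (l 16562032) (l 16364904))) (b (l 16458120) (a (l 16388112) (c (l 16404352) (l 16381696))))) (c (b (c (l 16458216) (l 16436808)) (c (l 16328040)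 (l 16304848))) (b (a (l 16481968) (b (l 16497008) (l 16473520))) (a (l 16328288) (l 16295936))))))), by decide +kernel⟩

def k75_pm_202 : ∃ t, chk3 f_pm_202 t 60 19 1 = true :=
  ⟨(c (c (c (b (b (b (c (a (a (l 16342776) (c (l 16377488) (l 16403712))) (a (l 16330992) (c (a (l 16374816) (l 16365528)) (l 16367576)))) (a (a (l 16372192) (l 16395024)) (l 16331944))) (a (c (b (a (l 16394016) (l 16391000)) (l 16396520)) (l 16389912)) (a (l 16340320) (b (c (c (l 16360936) (l 16355712)) (l 16354608)) (c (c (a (l 16326256) (l 16358752)) (a (l 16368696) (l 16336504))) (c (l 16360560) (l 16361664))))))) (a (l 16393664) (a (l 16418024) (c (a (c (l 16369904) (l 16455264)) (c (l 16394936) (l 16391920))) (l 16390776))))) (a (l 16198840) (c (a (l 16278072) (c (a (l 16218912) (l 16193264)) (a (l 16299200) (l 16217816)))) (l 16277328)))) (b (b (b (a (l 16387736) (l 16375904)) (a (l 16346064) (l 16305680))) (a (l 16412944) (l 16396048))) (a (l 16217960) (l 16254768)))) (b (b (b (a (l 16383872) (l 16371848)) (a (b (l 16379920)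 (l 16388464)) (b (l 16361720) (l 16367248)))) (a (l 16368432) (c (l 16415336) (l 16413648)))) (a (c (l 16237064) (l 16256144)) (l 16188640)))) (a (b (b (c (b (l 16378672) (b (l 16374672) (l 16383392))) (b (l 16373408) (b (l 16369360) (l 16378256)))) (c (l 16344024) (b (l 16427248) (l 16418184)))) (b (c (l 16412504) (l 16389832)) (c (l 16283872) (l 16256792)))) (b (b (c (b (l 16366392) (b (l 16356104) (l 16361752))) (b (l 16360872) (b (l 16350424) (l 16356192)))) (c (c (l 16411952) (l 16389272)) (c (l 16387552) (l 16364848)))) (c (l 16184280) (b (l 16424760) (l 16250424)))))), by decide +kernel⟩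

def k76_pm_202 : ∃ t, chk3 f_pm_202 t 61 38 4 = true :=
  ⟨(b (c (a (a (b (c (l 16338304) (a (l 16354344) (l 16346864))) (b (c (l 16324320) (a (l 16340224) (l 16332272))) (c (b (b (l 16320248) (l 16327184)) (l 16345000)) (a (b (b (l 16334608) (l 16339152)) (l 16354560)) (c (l 16342344) (b (l 16334544) (l 16358912))))))) (b (c (l 16297416) (l 16311184)) (b (c (l 16291040) (l 16304672)) (a (c (l 16314472) (l 16336600)) (c (l 16269296) (l 16325040)))))) (b (a (c (l 16291944) (a (l 16285440) (l 16284088))) (l 16307696)) (b (c (l 16313424) (l 16307056)) (c (l 16338304) (a (b (l 16287688) (l 16334456)) (l 16340808)))))) (a (a (c (b (l 16344184) (b (l 16329960) (a (l 16346552) (c (l 16278920) (l 16343424))))) (b (l 16347568) (l 16340544))) (a (b (c (l 16336656) (l 16332952)) (c (b (l 16303808) (c (l 16348784) (l 16323528))) (l 16334136))) (b (c (l 16322456) (l 16323112)) (b (c (l 16319552) (l 16319296)) (c (b (l 16333384) (l 16359616)) (c (l 16348872) (l 16347264))))))) (b (a (c (a (l 16304056) (l 16288176)) (a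 (c (l 16318064) (l 16321480)) (l 16308456))) (c (l 16293384) (l 16296856))) (b (c (a (l 16305272) (l 16307712)) (a (c (l 16319640) (l 16328992)) (l 16311208))) (c (a (b (l 16318224) (l 16344120)) (l 16332072)) (a (c (l 16345560) (a (l 16353384) (l 16351680))) (l 16267504))))))) (c (a (c (a (l 16364240) (l 16367056)) (a (c (a (l 16416032) (l 16436368)) (l 16352192)) (l 16381160))) (c (l 16409912) (l 16341456))) (a (a (c (l 16369128) (l 16478064)) (c (a (l 16358008) (l 16379880)) (l 16332312))) (a (c (l 16383648) (a (l 16343744) (l 16419928))) (a (l 16342928) (l 16386736)))))), by decide +kernel⟩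

def k77_pm_202 : ∃ t, chk3 f_pm_202 t 61 38 5 = true :=
  ⟨(a (b (b (l 16335032) (b (l 16325904) (l 16301112))) (b (l 16423168) (l 16514152))) (a (c (b (c (b (a (l 16315248) (c (l 16319784) (l 16314912))) (a (b (l 16321440) (l 16306032)) (b (l 16329144) (c (l 16357488) (l 16352456))))) (b (l 16318000) (l 16338776))) (c (a (l 16422712) (l 16365056)) (l 16489808))) (b (b (l 16315552) (l 16336488)) (l 16467616))) (b (c (a (b (c (l 16317376) (l 16314544)) (b (c (l 16332552) (l 16329192)) (c (c (l 16352504) (l 16360520)) (c (l 16356536) (l 16357592))))) (c (b (l 16307008) (b (l 16321208) (l 16345336))) (b (l 16324432) (b (l 16338432) (c (l 16362096) (l 16361168)))))) (c (b (l 16316904) (b (l 16331816) (l 16335816))) (l 16310456))) (c (c (c (l 16417880) (l 16390016)) (c (l 16370760) (l 16408928))) (c (l 16431512) (l 16495296)))))), by decide +kernel⟩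

def k78_pm_202 : ∃ t, chk3 f_pm_202 t 61 39 2 = true :=
  ⟨(c (c (a (a (c (c (l 16257024) (a (l 16214296) (l 16292400))) (c (a (l 16216008) (l 16236616)) (a (l 16278744) (l 16234720)))) (c (l 16236936) (c (l 16284768) (l 16248328)))) (b (c (l 16456384) (l 16440584)) (c (l 16340960) (l 16282184)))) (a (c (a (l 16175616) (a (c (l 16211736) (l 16236192)) (c (l 16284456) (l 16210448)))) (c (a (l 16317248) (l 16194800)) (l 16295256))) (a (c (l 16219136) (a (c (l 16231200) (l 16231568)) (l 16218184))) (c (l 16267168) (l 16239040))))) (c (a (l 16272920) (c (a (b (l 16367936) (l 16164616)) (c (l 16246736) (a (l 16226232) (l 16300416)))) (a (l 16311712) (c (a (l 16250104) (l 16224640)) (l 16208320))))) (l 16247992))), by decide +kernel⟩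

def k79_pm_202 : ∃ t, chk3 f_pm_202 t 61 19 3 = true :=
  ⟨(c (b (b (b (a (l 16328848) (c (l 16316024) (l 16312760))) (b (a (l 16319576) (l 16323552)) (c (l 16345344) (l 16342376)))) (c (l 16420896) (l 16398256))) (c (l 16224784) (l 16201544))) (b (b (b (a (l 16280640) (c (l 16309464) (l 16306152))) (b (a (c (l 16314784) (l 16311560)) (l 16317160)) (a (c (l 16332512) (l 16329456)) (l 16301592)))) (c (l 16396576) (l 16373912))) (c (l 16178280) (b (l 16420400) (l 16267928))))), by decide +kernel⟩

def k80_pm_202 : ∃ t, chk3 f_pm_202 t 62 19 4 = true :=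
  ⟨(b (b (c (b (a (l 16304192) (l 16382696)) (b (a (l 16356008) (l 16386128)) (a (c (l 16360304) (l 16354456)) (a (l 16399176) (l 16410168))))) (b (a (l 16331272) (l 16376584)) (b (a (l 16341336) (l 16380080)) (a (c (l 16368136) (l 16359360)) (c (l 16400816) (l 16397768)))))) (c (a (l 16384136) (l 16429616)) (a (l 16371152) (l 16425056)))) (b (c (a (l 16399176) (l 16397352)) (a (l 16412080) (l 16400016))) (c (a (l 16221544) (l 16241936)) (a (l 16232384) (l 16263520))))), by decide +kernel⟩

def k81_pm_202 : ∃ t, chk3 f_pm_202 t 62 19 5 = true :=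
  ⟨(a (a (b (b (c (b (c (l 16308136) (l 16315880)) (b (c (l 16319992) (l 16327720)) (c (l 16321992) (c (l 16347920) (l 16356432))))) (c (b (a (l 16327088) (l 16334184)) (b (a (l 16339296) (l 16345288)) (a (c (l 16365920) (l 16362224)) (c (l 16362928) (l 16370008))))) (b (l 16325624) (b (l 16337424) (c (l 16341168) (l 16365304)))))) (c (c (l 16415464) (l 16362824)) (c (c (l 16376872) (l 16395984)) (l 16392640)))) (c (c (l 16255048) (c (l 16267896) (l 16210544))) (c (c (a (l 16243728) (l 16267472)) (l 16160688)) (l 16161072)))) (b (b (c (b (l 16328672) (b (l 16337264) (c (l 16362504) (l 16353952)))) (c (b (l 16326904) (b (l 16335560) (l 16294176))) (b (a (l 16340224) (l 16340176)) (b (a (l 16349392) (l 16348264)) (a (c (l 16373016) (l 16369808)) (l 16348712)))))) (c (l 16388280) (c (l 16408640) (a (l 16380984) (l 16422168))))) (c (c (l 16279424) (l 16266008)) (c (l 16217416) (c (l 16158096) (a (l 16239496) (l 16235824))))))) (b (b (c (b (l 16367448) (b (l 16371048) (c (l 16393464) (l 16387712)))) (b (c (l 16357856)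 (a (l 16340432) (l 16364912))) (b (c (l 16361544) (l 16340632)) (c (l 16380592) (a (l 16365848) (l 16385272)))))) (c (l 16396600) (c (l 16430256) (l 16368104)))) (c (c (l 16228736) (l 16232984)) (c (l 16217912) (a (l 16251432) (l 16274592)))))), by decide +kernel⟩

def k82_pm_202 : ∃ t, chk3 f_pm_202 t 63 19 2 = true :=
  ⟨(b (b (b (c (a (c (l 16409144) (l 16406488)) (c (l 16410176) (l 16428688))) (a (c (l 16403056) (l 16398472)) (c (l 16426144) (l 16402544)))) (c (a (b (c (l 16406168) (l 16403512)) (c (l 16379496) (l 16376992))) (b (c (l 16421792) (l 16419248)) (c (a (l 16431848) (l 16438192)) (a (l 16429608) (l 16435912))))) (a (c (b (l 16400072) (c (l 16416744) (l 16414920))) (b (l 16395496) (c (l 16412856) (l 16410232)))) (c (b (l 16416632) (a (l 16427352) (l 16433592))) (b (l 16413912) (a (l 16425080) (l 16431208))))))) (c (a (c (l 16444176) (l 16442904)) (c (a (l 16473864) (l 16457808)) (l 16431640))) (a (c (l 16440880) (l 16416768)) (c (l 16430368) (l 16429000))))) (c (b (a (c (l 16426144) (l 16403808))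 (a (l 16374504) (c (l 16391448) (l 16410840)))) (a (c (b (l 16325920) (l 16225376)) (l 16147720)) (a (c (l 16279472) (l 16275960)) (a (l 16282400) (l 16288528))))) (a (c (c (l 16169672) (l 16169176)) (a (l 16192904) (l 16164288))) (b (c (b (l 16489384) (l 16400568)) (l 16307864)) (c (a (l 16272416) (l 16281504)) (a (l 16268840) (l 16278200))))))), by decide +kernel⟩

def k83_pm_202 : ∃ t, chk3 f_pm_202 t 62 38 3 = true :=
  ⟨(c (b (c (a (c (a (l 16340832) (a (l 16349496) (b (l 16342912) (b (l 16350368) (c (l 16374680) (l 16374256)))))) (l 16261280)) (b (c (a (c (l 16343440) (l 16353720)) (l 16356872)) (a (c (l 16332280) (l 16350904)) (c (l 16356056) (a (l 16364272) (l 16358640))))) (c (a (b (c (l 16348848) (l 16359152)) (c (l 16369248) (a (l 16337408) (l 16374744)))) (b (l 16358984) (l 16377416))) (b (a (c (l 16358328) (l 16356176)) (c (l 16358184) (l 16343480))) (a (c (a (l 16376320) (b (l 16370640) (l 16395992))) (a (l 16377976) (l 16337848))) (c (l 16376680) (a (b (l 16373520) (l 16398832)) (l 16378072))))))))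 (a (b (l 16332064) (l 16332832)) (c (a (l 16340424) (a (c (b (l 16362856) (b (l 16365496) (b (l 16371632) (l 16396952)))) (l 16370120)) (b (c (l 16367832) (l 16370032)) (b (c (l 16369256) (l 16371048)) (c (l 16366560) (a (l 16366232) (l 16349864))))))) (c (b (l 16357504) (b (l 16361576) (l 16382936))) (l 16302832))))) (c (a (c (c (a (l 16481096) (l 16400760)) (l 16484544)) (l 16463016)) (c (a (c (l 16421904) (l 16367816)) (l 16448824)) (a (c (l 16366848) (l 16428408)) (c (l 16448560) (a (l 16437576) (l 16470952)))))) (a (l 16440912) (c (a (l 16473904) (c (a (l 16435696) (l 16439040)) (a (l 16479752) (l 16419192)))) (l 16477288))))) (b (b (c (l 16343296) (l 16340256)) (b (c (l 16350440) (l 16347488)) (c (l 16371720) (l 16347992)))) (c (l 16405600) (l 16404144)))), by decide +kernel⟩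

def k84_pm_202 : ∃ t, chk3 f_pm_202 t 63 76 6 = true :=
  ⟨(a (c (b (c (l 16392880) (l 16386776)) (b (c (l 16389928) (l 16383848)) (c (l 16405816) (a (l 16392384) (l 16411296))))) (c (b (a (l 16352248) (l 16396240)) (b (a (l 16372440) (l 16391608)) (a (a (c (l 16382080) (l 16386728)) (l 16390312)) (l 16406832)))) (b (a (c (a (l 16376816) (l 16375400)) (a (l 16374472) (l 16382848))) (l 16392560)) (a (b (c (a (l 16376256) (l 16373336)) (a (l 16374024) (l 16380736))) (c (a (b (b (l 16376328) (l 16385600)) (l 16406104)) (l 16389912)) (a (c (l 16371216) (l 16393776)) (b (a (l 16363448) (l 16384168)) (l 16409824))))) (b (l 16387928) (c (l 16402184) (a (l 16394712) (l 16404704)))))))) (a (c (b (l 16417288) (b (l 16409304) (l 16422728))) (b (l 16371688) (b (l 16405600) (c (l 16420504) (l 16418296))))) (c (b (l 16428360) (b (l 16417024) (l 16428752))) (b (l 16404840) (b (l 16414376) (c (l 16427488) (l 16426192))))))), by decide +kernel⟩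

def k85_pm_202 : ∃ t, chk3 f_pm_202 t 126 76 7 = true :=
  ⟨(c (a (c (a (l 16359112) (c (b (l 16380880) (b (l 16378600) (c (a (l 16397048) (l 16398936)) (l 16397944)))) (l 16386032))) (b (l 16378272) (l 16385552))) (c (b (c (a (l 16387640) (l 16391328)) (a (l 16387856) (l 16394048))) (b (c (a (l 16383960) (l 16385872)) (a (l 16383840) (l 16388712))) (c (a (a (c (l 16399320) (l 16380584)) (l 16397008)) (l 16400840)) (a (a (b (l 16365840) (l 16411952)) (c (l 16361856) (l 16381032))) (c (l 16400592) (a (l 16384504) (l 16401456))))))) (a (b (l 16389368) (l 16393480)) (b (c (c (l 16396136) (l 16395056)) (l 16394976)) (c (b (c (l 16390568) (l 16389392)) (b (b (c (l 16388568) (l 16387360)) (c (l 16397552) (l 16396352))) (c (l 16417984) (l 16416816)))) (l 16398512)))))) (b (l 16383744) (b (l 16380768) (l 16397184)))), by decide +kernel⟩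

def k86_pm_202 : ∃ t, chk3 f_pm_202 t 127 76 14 = true :=
  ⟨(c (b (a (l 16408160) (l 16424328)) (b (a (l 16400120) (l 16412848)) (a (c (l 16415552) (l 16391608)) (a (l 16424384) (l 16427496))))) (a (c (b (l 16386512) (b (l 16399520) (a (b (b (l 16390440) (l 16399344)) (l 16419784)) (l 16416232)))) (b (a (c (l 16402368) (l 16402080)) (l 16410056)) (b (a (c (l 16395208) (l 16394744)) (l 16401120)) (a (c (a (b (l 16375976) (l 16421808)) (l 16407656)) (b (b (l 16371040) (l 16400888)) (l 16421312))) (b (l 16381144) (l 16426832)))))) (b (a (l 16420784) (l 16426984)) (b (c (l 16412216) (l 16411104)) (a (c (l 16423280) (l 16422176)) (l 16405256)))))), by decide +kernel⟩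

def k87_pm_202 : ∃ t, chk3 f_pm_202 t 127 76 30 = true :=
  ⟨(c (a (a (c (b (l 16401480) (b (l 16394176) (b (b (l 16391472) (l 16400376)) (l 16420832)))) (l 16403192)) (b (c (l 16410000) (a (l 16407704) (l 16410904))) (b (c (l 16401168) (a (l 16399080) (l 16401600))) (b (b (a (c (l 16395928) (l 16395816)) (l 16398216)) (c (l 16406608) (l 16363920))) (c (l 16426992) (l 16384304)))))) (b (l 16399824) (b (l 16388288) (a (b (l 16407616) (l 16432232)) (l 16425520))))) (a (a (b (l 16402808) (l 16402688)) (c (a (l 16407792) (b (l 16411288) (b (l 16401824) (b (b (l 16398216) (l 16406968)) (l 16427352))))) (b (l 16409120) (l 16408016)))) (a (b (c (l 16417744) (a (l 16414824) (l 16419072))) (b (c (l 16407104) (a (l 16404544) (l 16407952))) (c (b (b (l 16403008) (l 16411688)) (l 16432048)) (a (b (b (c (l 16401016) (l 16400752)) (l 16409296)) (l 16429664)) (l 16378376))))) (b (l 16425328) (b (l 16412904) (a (l 16403456) (l 16426256))))))), by decide +kernel⟩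

def k88_pm_202 : ∃ t, chk3 f_pm_202 t 127 76 31 = true :=
  ⟨(b (a (l 16405704) (a (c (c (a (l 16414096) (l 16419296)) (a (l 16415424) (a (l 16418320) (l 16418576)))) (l 16416912)) (c (a (c (l 16423128) (c (l 16422976) (l 16423824))) (l 16426952)) (a (c (c (a (l 16421144) (l 16423760)) (l 16419184)) (l 16422576)) (c (a (c (l 16425688) (l 16426256)) (l 16427608)) (a (l 16422720) (c (l 16427360) (l 16426552)))))))) (a (l 16383544) (c (c (a (b (a (l 16403776) (l 16408192)) (a (c (a (l 16417688) (b (l 16384872) (l 16430568))) (l 16418184)) (b (b (c (l 16403712) (l 16403344)) (l 16412560)) (l 16432912)))) (b (l 16412072) (a (l 16402112) (l 16425904)))) (a (c (a (l 16411632) (b (l 16406896) (b (b (l 16402576) (l 16411224)) (l 16431592)))) (l 16412880)) (b (a (c (l 16411000) (l 16411848)) (l 16413920)) (a (c (b (l 16410656) (l 16435288)) (b (b (a (l 16405136) (l 16406688)) (l 16415800)) (l 16436136))) (b (l 16413168) (l 16437712)))))) (a (l 16412504) (c (b (a (c (a (l 16409328) (l 16411552)) (l 16406976)) (a (c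 (l 16413032) (l 16413592)) (l 16414512))) (a (b (b (c (a (l 16404760) (l 16406808)) (b (l 16402432) (l 16381072))) (c (a (l 16413376) (l 16415392)) (l 16410832))) (c (a (l 16433736) (l 16435728)) (l 16431192))) (a (c (l 16424688) (b (b (c (l 16408040) (l 16408464)) (l 16417216)) (l 16437544))) (b (l 16392696) (l 16438224))))) (a (l 16416552) (b (a (l 16409896) (c (l 16414248) (l 16413400))) (b (b (a (c (l 16406248) (l 16407808)) (c (a (l 16409480) (l 16409576)) (l 16387296))) (a (l 16413456) (c (l 16417664) (l 16416800)))) (a (l 16433792) (c (l 16437976) (l 16437128))))))))))), by decide +kernel⟩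

def k89_pm_202 : ∃ t, chk3 f_pm_202 t 63 77 3 = true :=
  ⟨(c (a (c (c (l 16433296) (l 16428008)) (a (c (c (l 16458920) (l 16419144)) (c (a (l 16423432) (l 16461528)) (a (l 16442840) (l 16406064)))) (c (l 16455976) (l 16411104)))) (c (c (l 16450000) (l 16449232)) (c (l 16427208) (a (l 16466824) (l 16452248))))) (a (c (c (a (c (a (l 16487000) (l 16425184)) (l 16467824)) (c (a (a (l 16430624) (l 16468480)) (l 16471848)) (a (l 16387328) (l 16412440)))) (c (a (l 16467504) (a (l 16473888) (c (l 16434920) (l 16433904)))) (l 16471512))) (l 16449768)) (c (a (c (l 16421072) (a (c (l 16436936) (c (l 16417688) (l 16417184))) (l 16423144))) (c (l 16451488) (a (l 16450536) (l 16453352)))) (a (c (c (a (c (l 16437856) (l 16481936)) (c (l 16422744) (a (l 16441792) (l 16464936)))) (c (a (l 16481792) (a (l 16485120) (l 16443992))) (l 16483880))) (l 16462560)) (c (a (c (l 16469320) (c (l 16448664) (a (l 16446216) (l 16469960)))) (c (l 16453112) (l 16452512))) (a (c (a (c (l 16445600) (l 16489192)) (c (l 16407424) (a (l 16490888)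 (l 16427208)))) (l 16469152)) (c (a (c (l 16472568) (a (l 16429752) (l 16473120))) (l 16453752)) (a (c (c (a (l 16471176) (l 16452112)) (l 16447712)) (l 16493472)) (c (a (c (l 16474208) (l 16432912)) (l 16475264)) (a (l 16450224) (a (l 16433288) (l 16434072)))))))))))), by decide +kernel⟩

def k90_pm_202 : ∃ t, chk3 f_pm_202 t 62 39 3 = true :=
  ⟨(c (c (a (c (c (a (l 16323104) (l 16176376)) (l 16299360)) (l 16298472)) (c (a (a (c (l 16235448) (l 16210664)) (l 16201352)) (l 16239440)) (a (c (a (l 16273408) (l 16206936)) (l 16210520)) (c (l 16238208) (a (l 16182952) (l 16278152)))))) (c (a (l 16276312) (a (l 16289448) (c (a (l 16204192) (l 16202080)) (a (l 16305424) (l 16178752))))) (l 16227920))) (c (l 16142200) (b (l 16403768) (l 16254000)))), by decide +kernel⟩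

def k91_pm_202 : ∃ t, chk3 f_pm_202 t 63 39 6 = true :=
  ⟨(a (c (c (b (l 16407584) (l 16250832)) (a (l 16223240) (l 16206608))) (a (a (c (c (l 16274088) (l 16181200)) (c (a (l 16217000) (l 16193392)) (l 16215720))) (c (l 16223976) (c (l 16222072) (a (l 16170328) (l 16191672))))) (c (l 16167392) (a (l 16133192) (l 16187256))))) (c (b (a (l 16431648) (l 16385256)) (a (l 16265320) (l 16274928))) (b (a (c (l 16451952) (l 16431440)) (b (l 16460544) (l 16348304))) (a (c (l 16263216) (l 16262712)) (l 16187792))))), by decide +kernel⟩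

def k92_pm_202 : ∃ t, chk3 f_pm_202 t 126 39 7 = true :=
  ⟨(c (c (a (c (b (l 16371968) (l 16164848)) (l 16273592)) (a (c (a (b (l 16405944) (l 16243088)) (l 16192528)) (b (l 16364160) (a (l 16261208) (l 16221000)))) (c (l 16212904) (b (l 16360768) (a (l 16223128) (l 16269088)))))) (c (a (l 16272936) (b (c (a (l 16486408) (l 16400104)) (l 16382944)) (a (l 16260464) (c (l 16220632) (l 16262216))))) (l 16207928))) (b (l 16424120) (l 16239728))), by decide +kernel⟩

def k93_pm_202 : ∃ t, chk3 f_pm_202 t 127 39 7 = true :=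
  ⟨(a (c (c (b (l 16392760) (l 16202096)) (a (c (b (l 16397584) (l 16222696)) (b (c (l 16374560) (l 16374168)) (c (l 16178808) (l 16199176)))) (b (l 16367880) (l 16178728)))) (c (c (b (a (c (l 16415536) (l 16476040)) (a (c (l 16411928) (l 16411040)) (l 16367128))) (a (c (l 16260968) (l 16258416)) (c (l 16199064) (a (l 16260848) (l 16262464))))) (a (b (l 16475720) (l 16257728)) (c (b (l 16347952) (l 16157792)) (l 16218304)))) (b (l 16451608) (l 16258008)))) (b (c (c (l 16361248) (a (l 16402152) (l 16399664))) (c (c (a (l 16424728) (l 16419832)) (a (a (c (l 16427144) (l 16384496)) (l 16401680)) (l 16377848))) (c (a (a (c (l 16384248) (l 16466176)) (c (l 16338544) (a (l 16464152) (l 16360016)))) (a (a (c (l 16441616) (l 16357536)) (l 16376704)) (l 16354760))) (a (l 16443592) (a (c (a (l 16342264) (b (l 16438344) (l 16323128))) (l 16460720)) (a (c (b (l 16431688) (l 16317168)) (l 16378176)) (c (l 16416528) (b (l 16452864) (l 16339128))))))))) (c (c (l 16268752) (a (l 16262848) (l 16268656))) (c (c (l 16204576)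 (a (a (c (l 16263368) (l 16262704)) (l 16263328)) (l 16266712))) (a (c (c (a (l 16262048) (l 16262832)) (a (l 16259912) (a (l 16261176) (l 16264264)))) (l 16260256)) (c (a (a (c (l 16264392) (l 16264024)) (l 16264440)) (l 16266456)) (a (c (l 16162024) (l 16262824)) (c (a (l 16221888) (l 16266120)) (a (l 16267464) (l 16245424)))))))))), by decide +kernel⟩

def k94_pm_202 : ∃ t, chk3 f_pm_202 t 4 20 1 = true :=
  ⟨(b (l 1) (b (a (l 1) (c (l 16026392) (a (l 1) (b (l 1) (c (l 16093520) (c (l 16088224) (c (l 16086208) (l 15936064)))))))) (c (a (l 15864296) (l 15840984)) (c (a (l 15868664) (l 15932656)) (a (c (l 15860280) (b (l 1) (a (l 15794560) (c (l 15820984) (l 15816272))))) (c (a (l 15905632) (b (l 15994424) (c (l 15905008) (l 15795912)))) (a (b (c (l 15947024) (l 15901368)) (c (l 15832584) (l 15847960))) (b (c (a (l 15977776) (l 16002096)) (a (l 15973808) (l 15996704))) (c (l 15725368) (l 15893208)))))))))), by decide +kernel⟩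

def k95_pm_202 : ∃ t, chk3 f_pm_202 t 4 21 1 = true :=
  ⟨(c (b (a (c (l 15629872) (l 15616144)) (c (l 15603664) (a (l 15658120) (l 15704472)))) (a (c (a (l 15307136) (l 15327952)) (b (l 15389128) (c (l 15256040) (a (b (l 15273984) (l 15215720)) (b (l 15303632) (l 15229272)))))) (c (a (l 15362424) (b (l 15469240) (l 15339160))) (c (b (l 15454408) (a (l 15292272) (a (l 15334384) (b (l 15402016) (l 15323472))))) (b (a (l 15428664) (b (l 15508776) (c (l 15456384) (l 15444712)))) (a (c (l 15213552) (l 15281208)) (c (b (l 15374768) (l 15283456)) (l 15310928)))))))) (b (c (a (b (l 15690216) (c (l 15530440) (b (l 15565376) (c (l 15491496) (l 15407280))))) (b (a (l 15733936) (c (l 15778432) (b (l 15819816) (c (l 15739584) (l 15691192))))) (c (a (l 15576520) (c (l 15622160) (b (l 15662560) (l 15589184)))) (a (b (c (l 15614528) (l 15605432)) (l 15491808)) (c (b (l 15588656) (l 15575880)) (l 15606712)))))) (a (b (b (c (l 15724592) (c (a (l 15708072) (l 15729600)) (l 15670256))) (c (a (l 15626768) (c (l 15654824) (l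 15647320))) (l 15621416))) (c (b (a (l 15493232) (l 15468648)) (l 15479512)) (l 15502200))) (b (c (a (c (b (l 15772648) (l 15685800)) (b (l 15767432) (l 15682912))) (b (c (l 15794480) (l 15785784)) (l 15729680))) (a (l 15562280) (l 15760024))) (a (l 15553640) (l 15588552))))) (c (a (c (b (b (l 15394448) (a (l 15346112) (l 15363296))) (a (l 15219144) (l 15234448))) (b (a (l 15357304) (l 15374808)) (l 15197160))) (c (b (a (c (b (l 15467752) (l 15397640)) (l 15379336)) (c (b (l 15516176) (l 15426312)) (l 15455240))) (a (l 15259912) (l 15280776))) (a (l 15298320) (l 15349888)))) (a (l 15258480) (l 15314288))))), by decide +kernel⟩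

def k96_pm_202 : ∃ t, chk3 f_pm_202 t 5 80 1 = true :=
  ⟨(a (l 1) (c (a (l 16267432) (l 16342392)) (c (a (l 16260792) (b (l 16307696) (l 16229800))) (a (c (l 16259600) (a (a (l 16227744) (l 397316941927)) (b (c (l 16241592) (l 16176560)) (c (a (l 16298024) (l 16318416)) (b (a (l 16257624) (l 16255768)) (l 16321472)))))) (c (a (b (l 16284640) (c (l 16354752) (a (l 16341792) (l 16322104)))) (b (c (l 16331672) (a (l 16318200) (b (l 16324328) (l 16355632)))) (c (a (l 16390200) (l 16350816)) (a (l 16343736) (l 16414760))))) (a (b (c (a (l 16271752) (l 16209352)) (a (b (l 16251840) (l 16242736)) (l 16226400))) (c (a (b (l 16279920) (l 16352792)) (l 16359152)) (l 16346288))) (b (c (b (a (l 16255032) (l 16316296)) (l 16341568)) (l 16323160)) (l 16405016)))))))), by decide +kernel⟩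

def k97_pm_202 : ∃ t, chk3 f_pm_202 t 5 81 1 = true :=
  ⟨(c (a (a (l 16240792) (l 16320208)) (a (l 16324584) (b (l 16435872) (l 16294968)))) (a (c (l 16223392) (a (l 16251776) (c (l 16315944) (b (a (l 1) (c (l 16298104) (l 16296272))) (a (c (l 16326600) (b (l 16310880) (b (l 16334328) (l 16341888)))) (c (b (l 16346696) (l 16291440)) (b (l 16344760) (l 16372616)))))))) (c (a (b (l 16355424) (l 16334392)) (a (c (l 16407240) (b (l 16423360) (c (l 16369944) (b (l 16382328) (a (l 16361176) (l 16343816)))))) (c (l 16239112) (b (c (l 16413240) (a (l 16416576) (l 16369840))) (c (b (l 16365520) (l 16268264)) (b (l 16361616) (l 16337144))))))) (a (c (b (a (l 16336184) (c (l 16378368) (l 16272440))) (a (c (l 16401856) (b (l 16386648) (l 16347064))) (c (b (l 16398896) (l 16310000)) (b (l 16401368) (l 16371736))))) (b (a (c (l 16272024) (a (l 16260080) (l 16341248))) (c (a (l 16321952) (l 16383480)) (l 16371176))) (a (c (b (l 16383496) (l 16391688)) (l 16395568)) (l 16383016)))) (c (a (b (c (l 16254760) (a (l 16388120)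 (l 16425360))) (c (b (l 16387376) (l 16354464)) (l 16369600))) (b (l 16307584) (l 16356648))) (b (l 16425776) (l 16363944))))))), by decide +kernel⟩

def k98_pm_202 : ∃ t, chk3 f_pm_202 t 5 41 2 = true :=
  ⟨(a (a (l 16001112) (l 15958288)) (c (a (l 16110064) (l 16079272)) (a (a (l 16076448) (b (l 16348456) (l 16096600))) (b (a (l 16399936) (l 16242904)) (c (b (l 16298840) (l 16086176)) (b (a (l 16274808) (b (l 16362584) (l 16212512))) (a (l 16075176) (c (l 16208128) (l 16213088))))))))), by decide +kernel⟩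

def k99_pm_202 : ∃ t, chk3 f_pm_202 t 5 41 3 = true :=
  ⟨(a (c (b (a (l 16192552) (b (l 16302960) (l 16190008))) (a (c (l 16004992) (l 15943800)) (c (l 16057264) (a (c (l 16060320) (b (l 16103192) (l 15989112))) (c (b (l 16143968) (l 16007040)) (b (l 16096896) (l 16052712))))))) (b (a (c (b (l 16238456) (l 16142216)) (b (c (l 16237960) (a (l 16220840) (b (l 16274688) (l 16182872)))) (c (a (l 16124488) (l 16069832)) (a (l 16016096) (l 16148696))))) (c (b (a (l 16286400) (c (l 16324352) (l 16238216))) (a (c (l 16193176) (l 16105448)) (c (l 16166352) (l 16158816)))) (b (a (c (b (l 16309072) (l 16217896)) (l 16217400)) (c (l 16210960) (l 16319656))) (l 16034560)))) (a (c (b (c (l 16050512) (a (l 16033032) (l 16041160))) (c (a (l 15945560) (l 15972888)) (l 15845136))) (c (b (a (l 16005704) (l 16060544)) (l 15954272)) (l 15994096))) (c (a (b (c (l 16057456) (l 16098704)) (l 16011216)) (l 15980328)) (l 16063080))))) (c (a (b (c (l 16213096) (a (a (l 16263752) (c (l 16331368) (l 16159216))) (c (a (l 16350048) (l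 16162552)) (b (l 16303288) (l 16297616))))) (a (c (c (l 16140840) (b (l 16187584) (l 16106616))) (c (b (l 16096072) (l 16095904)) (l 16048800))) (c (b (c (l 16233800) (l 16196320)) (c (l 16153192) (l 16140792))) (l 15983968)))) (b (c (a (c (l 16409808) (b (l 16412264) (l 16332992))) (b (c (l 16394056) (l 16304584)) (c (l 16342144) (l 16372824)))) (a (c (b (l 16269136) (l 16345120)) (l 16196112)) (l 16220696))) (c (b (c (a (l 16224384) (b (l 16328920) (l 16287304))) (l 16146640)) (a (l 16080256) (l 16207528))) (l 16229896)))) (a (b (c (a (b (c (l 16321544) (l 16252896)) (a (l 16198624) (l 16261816))) (b (c (l 16273384) (l 16406648)) (l 16306720))) (l 16267112)) (l 16140616)) (a (l 16131688) (l 16280720))))), by decide +kernel⟩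

def k100_pm_202 : ∃ t, chk3 f_pm_202 t 10 21 2 = true :=
  ⟨(b (c (a (l 15755776) (l 15784248)) (a (b (l 15835120) (c (l 15681408) (l 15635408))) (b (c (l 15903720) (l 15912424)) (c (l 15751280) (a (b (l 15768728) (l 15704376)) (b (l 15821400) (l 15732216))))))) (c (a (c (l 15463520) (b (l 15532432) (b (l 15437768) (l 15376856)))) (c (b (l 15601696) (a (l 15455816) (l 15503184))) (c (b (l 15613096) (a (l 15465912) (l 15468768))) (b (l 15456120) (a (l 15428144) (l 15342024)))))) (a (a (b (c (l 15521216) (b (l 15564624) (l 15481000))) (c (b (l 15425768) (l 15339832)) (l 15346664))) (b (c (l 15481352) (c (l 15531208) (l 15535376))) (c (c (l 15409824) (l 15389224)) (l 15352608)))) (c (b (a (b (l 15638256) (l 15557304)) (b (l 15670880) (l 15538416))) (a (c (l 15406784) (l 15393424)) (l 15427128))) (b (c (b (l 15611576) (l 15526400)) (l 15561272)) (l 15391712)))))), by decide +kernel⟩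

def k101_pm_202 : ∃ t, chk3 f_pm_202 t 11 21 2 = true :=
  ⟨(b (c (a (a (l 15891680) (c (l 15925904) (l 15721032))) (b (c (l 16081152) (a (l 16067176) (b (l 16163536) (l 16094272)))) (c (a (l 15912872) (l 15972592)) (a (b (l 15965760) (l 15795896)) (b (c (l 16019648) (l 15998536)) (c (l 15917952) (l 15879648))))))) (b (a (c (l 15970512) (a (b (l 16013608) (l 15921896)) (b (l 16006416) (l 15853008)))) (c (b (a (l 16101560) (c (l 16178976) (l 16164584))) (a (l 15932208) (c (l 16080744) (l 16060520)))) (a (b (c (l 16116904) (l 16100040)) (l 15887648)) (c (l 15971928) (l 16071848))))) (a (c (a (b (l 15850248) (l 15788408)) (c (l 15743920) (b (l 15907520) (l 15806144)))) (a (c (l 15664136) (l 15796392)) (l 15603448))) (c (a (c (b (l 15952968) (l 15849776)) (l 15800336)) (l 15910784)) (l 15873232))))) (c (a (b (c (a (l 15674296) (l 15727832)) (a (b (l 15723584) (l 15640400)) (c (l 15635104) (b (l 15751584) (l 15636264))))) (c (a (b (l 15584864) (l 15498688)) (c (l 15490720) (b (l 15601776) (l 15483272)))) (a (c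 (b (l 15559456) (l 15442832)) (l 15472328)) (l 15506760)))) (c (b (a (b (l 15817704) (l 15666104)) (c (b (l 15866280) (l 15761552)) (b (l 15838960) (l 15717424)))) (a (c (b (l 15643984) (l 15523320)) (l 15553232)) (l 15588840))) (b (a (b (c (l 15795368) (l 15756752)) (l 15669424)) (l 15745800)) (l 15549824)))) (a (c (b (b (a (l 15592592) (c (l 15726760) (l 15691072))) (l 15602448)) (l 15466992)) (l 15539120)) (l 15576032)))), by decide +kernel⟩

def k102_pm_202 : ∃ t, chk3 f_pm_202 t 5 21 3 = true :=
  ⟨(c (a (b (a (b (c (l 15774424) (b (c (l 15878544) (a (l 15861608) (l 15898224))) (c (a (l 15778416) (l 15817104)) (l 15790664)))) (c (b (c (l 15718328) (l 15701728)) (c (l 15646368) (l 15631824))) (l 15595496))) (b (c (a (c (l 15891816) (b (l 15935560) (l 15856960))) (c (b (l 15976592) (l 15898800)) (l 15719136))) (a (c (l 15782728) (l 15878824)) (l 15913600))) (c (a (c (l 15706400) (l 15715656)) (l 15749680)) (l 15710496)))) (a (c (b (l 15420712) (l 15325576)) (l 15396288)) (l 15458192))) (b (a (b (c (a (c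 (b (l 16023792) (l 15926128)) (l 15960840)) (l 15873776)) (l 15960912)) (l 15784200)) (l 15827376)) (l 15562096))) (a (a (b (a (b (l 15743072) (l 15624256)) (l 15676832)) (l 15380008)) (l 15400512)) (b (l 15838088) (l 15542880)))), by decide +kernel⟩

def k103_pm_202 : ∃ t, chk3 f_pm_202 t 4 22 1 = true :=
  ⟨(c (b (c (a (b (a (l 15120752) (l 15135912)) (c (a (l 15020416) (l 15038616)) (a (c (l 15022792) (l 14999584)) (c (l 15030448) (l 14860536))))) (b (c (a (l 15169000) (l 15218728)) (a (b (l 15209720) (l 15154848)) (b (l 15259384) (c (l 15199872) (l 15173952))))) (c (a (l 15064224) (b (l 15139296) (c (l 15079656) (l 15047392)))) (a (c (b (l 15096328) (l 15003608)) (b (l 15065704) (l 14957096))) (c (b (l 15109952) (l 15001336)) (l 15025544)))))) (a (c (c (b (l 15054592) (a (l 14972416) (l 14982376))) (b (a (l 15119856) (l 15130600)) (l 14940952))) (b (a (l 15024936) (l 15017224)) (l 14924464))) (c (b (a (c (b (l 15217544) (l 15129216)) (l 15063872)) (b (c (l 15239408) (l 15214488)) (l 15126160))) (a (l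 14976144) (l 15000896))) (a (l 15032664) (l 15060640))))) (a (c (b (c (b (a (l 14942608) (l 14947408)) (c (l 14878904) (l 14830912))) (a (l 14830704) (l 14837648))) (c (c (a (l 14725928) (l 14729400)) (l 14700544)) (l 14682264))) (l 14722528)) (c (c (b (a (c (b (l 14980144) (l 14883552)) (b (l 14942896) (l 14833168))) (c (b (l 14986248) (l 14875872)) (l 14897968))) (a (l 14730752) (l 14751704))) (a (l 14715688) (l 14806576))) (l 14762728)))) (a (c (l 14723696) (l 14795560)) (a (l 14588480) (b (l 15024184) (l 14724728))))), by decide +kernel⟩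

def k104_pm_202 : ∃ t, chk3 f_pm_202 t 4 23 1 = true :=
  ⟨(b (b (b (a (c (c (b (a (l 14608224) (l 14617128)) (l 14618792)) (l 14557216)) (c (l 14539848) (l 14500968))) (c (a (b (l 14616096) (l 14622536)) (c (l 14683088) (l 14646440))) (a (l 14543632) (l 14590440)))) (a (c (a (l 14618008) (l 14631136)) (l 14550960)) (c (a (l 14666336) (l 14733200)) (a (l 14592056) (l 14661272))))) (a (c (a (l 14713976) (l 14737368)) (l 14655416)) (c (c (l 14838032) (l 14804080)) (l 14752208)))) (c (a (c (l 14984432) (l 14953040)) (c (l 15075472) (l 15045664))) (a (l 14905072) (c (l 15015456) (l 14984824))))), by decide +kernel⟩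

def k105_pm_202 : ∃ t, chk3 f_pm_202 t 5 11 1 = true :=
  ⟨(b (c (a (a (b (c (b (c (a (l 15271384) (l 15296144)) (c (b (l 15312312) (l 15222056)) (b (l 15288856) (l 15180992)))) (c (c (b (l 15185560) (l 15093000)) (b (l 15156776) (l 15046480))) (l 15065984))) (c (l 14872192) (l 15102328))) (b (c (c (l 14936488) (l 14910384)) (l 14886360)) (l 14779648))) (b (c (c (b (a (b (l 15369048) (l 15282136)) (c (l 15290536) (b (l 15375448) (l 15258368)))) (a (c (b (l 15198496) (l 15083352)) (l 15110136)) (l 15141896))) (b (a (c (l 15204160) (l 15247912)) (l 15280656)) (l 15105040))) (l 15160376)) (a (l 14893888) (l 14943360)))) (a (b (c (b (c (a (c (b (l 15416784) (l 15298304)) (l 15325560)) (l 15358992)) (l 15318568)) (a (l 15155056) (l 15195808))) (l 15225912)) (a (l 15004696) (l 15079416))) (b (b (a (l 15363288) (l 15413976)) (l 15290128)) (l 15208760)))) (a (b (a (l 15067248) (l 15119704)) (a (l 14775520) (b (l 14896712) (l 14810544)))) (b (a (l 15186736) (b (l 15345584) (l 15239368))) (a (l 14983616) (l 15154152)))))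 (a (c (b (a (c (l 14885664) (l 14852544)) (b (l 14823560) (l 15063928))) (a (l 15184544) (l 15297800))) (b (a (l 14655144) (l 14713224)) (a (l 15128464) (l 15245704)))) (c (b (a (b (l 14984912) (l 15202120)) (b (l 15210248) (l 15361808))) (a (l 15423760) (l 15550864))) (b (a (b (l 14986960) (l 15146664)) (b (l 15155088) (l 15311960))) (a (l 15376088) (l 15507664)))))), by decide +kernel⟩

def k106_pm_202 : ∃ t, chk3 f_pm_202 t 12 20 2 = true :=
  ⟨(b (b (a (l 16249912) (c (l 16400672) (c (l 16278752) (a (l 16394504) (b (a (l 16468496) (l 16447496)) (c (l 16364440) (a (l 16390272) (l 16387648)))))))) (c (a (l 16297688) (b (l 16336360) (a (l 16314328) (l 16177224)))) (a (a (l 16310408) (c (l 16356352) (b (l 16376800) (c (l 16309888) (b (l 16314056) (l 16287312)))))) (c (a (b (l 16357424) (c (l 16287488) (l 16279000))) (b (l 16281272) (c (l 16193472) (b (l 16274240) (l 16191168))))) (a (b (c (l 16332240) (l 16260680)) (c (b (l 16292176) (l 16227160)) (a (l 16250000) (l 16298296)))) (b (c (l 16262976) (l 16313848))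 (c (b (l 16286448) (l 16276472)) (l 16293008)))))))) (a (c (b (l 16324784) (c (l 16295384) (a (l 16305312) (c (l 16389168) (l 16217952))))) (b (c (a (l 16430752) (b (l 16356368) (l 16340088))) (a (b (l 16257736) (c (l 16463584) (l 16385064))) (c (a (l 16234088) (l 16207624)) (a (l 16220712) (l 16237120))))) (c (a (b (l 16393064) (c (l 16313304) (l 16235832))) (c (a (l 16222496) (l 16218960)) (b (l 16331696) (l 16314936)))) (a (b (c (l 16313744) (l 16330408)) (c (l 16240144) (l 16255080))) (l 16251696))))) (c (b (c (a (l 16397984) (l 16261456)) (a (b (l 16334512) (l 16421128)) (b (l 16238032) (c (l 16396400) (l 16304304))))) (c (a (l 16359040) (a (l 16280144) (b (l 16485536) (l 16356600)))) (a (a (c (l 16392728) (l 16252616)) (c (l 16307632) (l 16247256))) (c (b (l 16423560) (l 16425512)) (l 16384368))))) (b (c (a (c (b (l 16319336) (l 16340512)) (a (l 16194248) (l 16191080))) (c (b (l 16225080) (l 16432808)) (l 16278896))) (a (c (b (l 16251752) (l 16457936)) (l 16364960)) (l 16391496))) (c (a (b (c (l 16380776)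 (l 16454240)) (l 16359264)) (l 16455888)) (l 16427864)))))), by decide +kernel⟩

def k107_pm_202 : ∃ t, chk3 f_pm_202 t 12 20 3 = true :=
  ⟨(b (c (a (b (c (a (l 16415704) (b (l 16439632) (c (l 16438296) (l 16336008)))) (a (b (l 16359584) (c (l 16455432) (a (l 16442472) (l 16449240)))) (b (c (l 16333120) (a (l 16337872) (l 16456416))) (c (a (l 16436840) (l 16430848)) (l 16440488))))) (b (c (a (l 16400024) (c (a (l 16375520) (l 16357960)) (a (l 16370752) (l 16366176)))) (a (c (a (l 16400328) (l 16383600)) (l 16393976)) (c (l 16375752) (l 16385280)))) (c (a (c (l 16270960) (b (l 16337488) (l 16271032))) (c (b (l 16318456) (l 16254144)) (l 16251872))) (a (c (l 16269640) (l 16342104)) (l 16325912))))) (b (c (a (b (c (l 16483680) (a (l 16483896) (l 16470952))) (c (l 16305712) (l 16364304))) (c (a (b (l 16457400) (l 16380048)) (l 16341600)) (l 16329704))) (a (b (c (l 16378272) (l 16487080)) (l 16428376)) (l 16444680))) (c (a (b (c (l 16310096) (l 16365864)) (l 16307552)) (l 16321104)) (l 16328520)))) (a (b (c (a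 (b (c (a (l 16369496) (b (l 16373224) (l 16420600))) (a (l 16341864) (l 16394640))) (l 16391744)) (l 16339632)) (l 16417000)) (l 16277192)) (l 16262600))) (a (c (c (b (a (b (a (l 16249216) (l 16263864)) (l 16298128)) (l 16225240)) (l 16282624)) (l 16230232)) (l 16269976)) (l 16291896))), by decide +kernel⟩

def k108_pm_202 : ∃ t, chk3 f_pm_202 t 12 21 1 = true :=
  ⟨(c (b (a (c (b (c (a (l 16170944) (b (l 16289192) (l 16116048))) (a (b (l 16227096) (c (l 16147680) (l 16106080))) (c (b (l 16259288) (l 16151848)) (b (l 16196080) (l 16135040))))) (c (a (b (l 16067616) (c (l 15988184) (l 15962032))) (c (b (l 16114272) (l 16005584)) (b (l 16088360) (l 15963448)))) (a (b (c (l 16043712) (l 16005464)) (l 15915912)) (l 15999176)))) (b (c (a (b (c (l 16170112) (l 16180584)) (l 16087272)) (l 16173672)) (l 16140736)) (l 15962264))) (c (b (c (b (a (l 16146528) (c (l 16290176) (l 16334216))) (a (c (l 16221832) (l 16204256)) (l 16240776))) (a (a (l 16163952) (l 16239256)) (l 16271640))) (a (c (l 15999544) (l 16040720))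 (l 16094960))) (l 16066968))) (a (c (b (c (a (c (b (l 15881984) (l 15758144)) (l 15792752)) (l 15832848)) (l 15798216)) (a (l 15613944) (l 15681640))) (l 15651152)) (b (l 15862720) (l 15831016)))) (b (a (l 15994528) (a (l 16109616) (l 16080296))) (a (b (l 15763200) (l 15544304)) (a (l 15711944) (l 15900920))))), by decide +kernel⟩

def k109_pm_202 : ∃ t, chk3 f_pm_202 t 26 20 1 = true :=
  ⟨(c (b (c (b (c (l 16111104) (a (l 16304896) (a (l 16220792) (b (l 16258560) (l 16174288))))) (a (c (l 16154792) (b (l 16253416) (a (l 16232272) (c (l 16177408) (l 16194232))))) (c (b (l 16161264) (a (l 16122048) (b (l 16078344) (l 15974720)))) (b (c (l 16119616) (l 16089528)) (a (c (l 16135488) (l 16164048)) (l 16109048)))))) (b (c (b (a (l 16271968) (c (l 16228896) (l 16175216))) (a (a (l 16361656) (l 16229656)) (a (l 16138048) (l 16226720)))) (a (c (a (b (l 16425080) (l 16348112)) (l 16231184)) (a (b (l 16434480) (l 16390944)) (l 16373704))) (a (l 16161872) (l 16268328)))) (a (c (b (a (c (l 16291824) (l 16305472)) (c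 (l 16253760) (l 16279232))) (a (c (l 16203768) (l 16271328)) (l 16223264))) (l 16173112)) (c (l 16022624) (l 16172616))))) (c (b (a (c (a (l 16222392) (b (l 16222024) (l 16247240))) (b (a (l 16135720) (l 16054600)) (a (b (l 16304648) (l 16439648)) (l 16373696)))) (c (a (c (l 16078208) (l 16050560)) (c (b (l 16121136) (l 16255968)) (l 16187528))) (l 16135664))) (a (c (b (a (l 16374952) (l 16296544)) (l 16381880)) (l 16409128)) (l 16235064))) (a (b (l 16201248) (l 16509256)) (l 16219512)))) (b (a (b (c (l 16274720) (l 16399456)) (l 16252720)) (l 16121392)) (a (l 16217952) (l 16170064)))), by decide +kernel⟩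

def k110_pm_202 : ∃ t, chk3 f_pm_202 t 27 40 1 = true :=
  ⟨(c (a (c (b (c (a (l 16150872) (b (l 16134120) (c (l 16060088) (l 16074056)))) (a (c (l 16042544) (b (l 16200592) (l 16153912))) (c (b (l 16137960) (l 16071944)) (b (l 16155352) (l 16121168))))) (c (b (a (c (l 16057808) (l 16073800)) (c (l 16011976) (l 16041208))) (a (c (l 16015200) (l 16045648)) (c (l 15943136) (l 16004488)))) (b (l 15933640) (l 16033128)))) (b (c (a (c (b (l 16216832) (l 16180344)) (l 16211016)) (l 16151640)) (l 16180616)) (l 16057000))) (c (b (a (c (a (b (l 16020656) (c (l 16017128) (l 16043168))) (b (c (a (l 16051760) (l 16057280)) (l 16073840)) (c (a (l 16002904) (l 16010928)) (a (l 16040456) (l 16047216))))) (a (c (b (l 16104800) (l 16075040)) (l 16106520)) (b (c (l 16106784) (l 16124264)) (l 16058872)))) (c (c (b (l 16060928) (c (l 16051584) (l 16073520))) (b (c (l 16119440) (l 16140792)) (l 16086528))) (c (l 16121160) (l 16125080)))) (a (c (b (a (l 15935488) (c (a (l 15979688) (l 15981080)) (l 15997192))) (a (c (l 15959104)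 (l 15963808)) (b (l 15950936) (l 15925208)))) (a (l 15989000) (l 15901576))) (b (c (c (l 16020224) (l 16025656)) (l 16021424)) (l 15957608)))) (a (a (l 16042800) (b (l 16087136) (l 15871504))) (b (l 16119216) (l 15978848))))) (a (l 16021520) (a (a (l 16026408) (c (b (l 16077048) (l 15942744)) (b (l 16066760) (a (l 15931032) (l 15923472))))) (c (l 15933008) (b (l 16099968) (l 15954160)))))), by decide +kernel⟩

def k111_pm_202 : ∃ t, chk3 f_pm_202 t 27 41 1 = true :=
  ⟨(a (c (b (c (c (a (l 15984568) (l 16103928)) (l 16131824)) (l 16124936)) (l 16254248)) (b (l 16110864) (l 16200680))) (a (a (c (l 15966696) (l 15989792)) (b (c (c (b (l 15979816) (l 16075968)) (l 15974976)) (a (l 16006088) (c (l 15996640) (l 15942744)))) (l 16097288))) (b (c (c (b (l 15989664) (l 16056808)) (l 15882368)) (c (b (l 15965208) (l 16035088)) (b (l 15952664) (l 16023896)))) (c (b (b (c (l 16095144) (l 16085008)) (c (l 16120056) (l 16110320))) (c (l 16158152) (l 16149040))) (b (b (c (l 16074672) (l 16064136)) (c (l 16100392) (l 16090280)))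 (c (l 16139752) (l 16130288))))))), by decide +kernel⟩

def k112_pm_202 : ∃ t, chk3 f_pm_202 t 13 21 1 = true :=
  ⟨(a (b (a (c (b (a (l 16168152) (l 16372240)) (l 16196904)) (b (l 16291008) (l 16138504))) (c (l 16237096) (b (l 16324312) (l 16361432)))) (c (l 15940616) (a (l 16048488) (l 16214240)))) (a (b (c (l 16365648) (l 16319280)) (c (l 16396456) (l 16326800))) (a (c (c (l 16226920) (l 16244704)) (c (l 16241440) (l 16217120))) (b (c (c (b (l 16109632) (l 16254816)) (b (l 16227656) (l 16332712))) (c (a (l 16140256) (l 16263120)) (b (l 16064800) (l 16173584)))) (c (c (b (l 16357688) (l 16439112)) (c (l 16344600) (l 16343008))) (c (b (l 16391288) (l 16455568)) (b (l 16324072) (l 16411272)))))))), by decide +kernel⟩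

def k113_pm_202 : ∃ t, chk3 f_pm_202 t 14 40 1 = true :=
  ⟨(c (a (c (b (a (c (c (a (b (c (l 16165664) (l 16187816)) (l 16135360)) (b (l 16248744) (l 16190952))) (a (l 16086200) (l 16223192))) (l 16197536)) (a (c (l 16267704) (l 16263640)) (l 16189448))) (a (b (a (l 16072864) (l 16117760)) (b (l 16037992) (a (l 15988632) (l 16009488)))) (b (c (l 16146320) (l 16141640)) (c (l 16040616) (l 16034912))))) (a (b (l 16191336) (a (l 16026960) (l 15956560))) (b (a (l 16258368) (l 16287752)) (b (l 16134552) (l 16026256))))) (c (a (b (a (l 16197912) (l 16248344)) (c (a (l 16087184) (l 16052368)) (l 15938728))) (c (b (l 16179016) (b (l 16036248) (l 15887600))) (b (l 16195736) (l 15934528)))) (a (b (a (l 16296288) (l 16262144)) (c (l 16059016) (l 16053432))) (c (b (l 16191448) (l 15970080)) (l 15844264))))) (a (c (a (b (l 16183032) (b (l 16074616) (a (l 15980448) (l 16008808)))) (b (a (l 16251208) (l 16260096)) (b (l 16124952) (l 16014552)))) (a (b (l 16174560) (b (l 16064072) (a (l 15968152) (l 15996944)))) (b (a (l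 16243912) (l 16190368)) (b (l 16073232) (c (l 16005640) (l 15999632)))))) (b (c (a (a (l 16247744) (l 16254832)) (l 16075712)) (a (a (l 16199064) (l 16226416)) (l 15961968))) (c (a (a (l 16020936) (l 16005496)) (c (l 15957136) (l 15950584))) (a (c (l 15952488) (l 15904760)) (c (l 15923000) (l 15895360))))))), by decide +kernel⟩

def k114_pm_202 : ∃ t, chk3 f_pm_202 t 14 41 1 = true :=
  ⟨(c (a (b (c (a (c (l 15971600) (l 16028800)) (c (l 16020952) (l 16015008))) (a (c (l 16023040) (l 16017232)) (l 16006000))) (c (b (b (a (l 16076880) (l 16039544)) (a (l 16097056) (l 16053392))) (a (l 16129088) (l 16077768))) (b (b (a (l 16066120) (l 16027880)) (l 16064928)) (l 16030712)))) (b (c (a (c (a (l 15998648) (l 15953952)) (l 15970136)) (c (a (l 15899016) (l 15839440)) (l 15862088))) (a (c (l 15963648) (l 15957112)) (c (l 15854576) (l 15847000)))) (c (a (b (b (c (l 15975888) (l 15969408)) (l 15980160)) (c (l 15999992) (l 15993704))) (b (b (c (l 15846608) (l 15838904)) (l 15801952)) (c (l 15858144) (l 15850528))))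 (a (b (b (l 15959592) (l 15967216)) (l 15984184)) (b (b (l 15827240) (l 15828376)) (l 15838984)))))) (a (b (c (a (a (l 16010208) (l 16007376)) (c (l 15996872) (l 15990728))) (a (a (l 15956424) (l 15995376)) (c (l 15984528) (l 15978272)))) (c (b (b (a (l 16055176) (l 16016016)) (l 16011872)) (a (l 16109184) (l 16055544))) (b (b (a (l 16044032) (l 16003952)) (a (l 16065248) (l 16018504))) (a (l 16098968) (l 16044136))))) (b (c (a (c (l 15950520) (l 15943872)) (c (l 15839368) (l 15831672))) (a (c (l 15937160) (l 15867480)) (c (l 15823912) (l 15816080)))) (c (a (b (b (l 15946320) (l 15954064)) (l 15971312)) (b (b (l 15811472) (l 15812608)) (l 15823384))) (a (b (b (a (l 15962264) (l 15902896)) (l 15940688)) (l 15958216)) (b (b (l 15711552) (l 15796576)) (l 15765592))))))), by decide +kernel⟩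

def k115_pm_202 : ∃ t, chk3 f_pm_202 t 60 20 2 = true :=
  ⟨(a (b (c (c (b (l 16118896) (l 15903312)) (l 15794872)) (c (l 15893632) (l 15929424))) (b (c (c (l 15775184) (l 15766848)) (l 15754232)) (c (b (b (c (l 15736048) (l 15727320)) (l 15731824)) (l 15748216)) (b (b (l 15714104) (l 15714232)) (l 15730904))))) (b (c (c (c (a (l 15945448) (c (a (l 15907472) (b (l 16097208) (l 15864264))) (b (l 16099192) (l 15883864)))) (l 15922240)) (l 15833632)) (c (l 15932152) (l 15946736))) (c (b (c (a (l 15743912) (c (c (b (l 15769632) (l 15732448)) (l 15745440)) (l 15742216))) (l 15736568)) (c (c (b (a (l 15687392) (b (b (l 15695832) (b (l 15692224) (l 15691456))) (l 15698088))) (c (l 15714392) (l 15729080))) (b (l 15685184) (l 15725784))) (b (l 15699408) (l 15719168)))) (b (c (l 15727888) (l 15719136)) (b (b (l 15683200) (l 15688144)) (l 15705824)))))), by decide +kernel⟩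

def k116_pm_202 : ∃ t, chk3 f_pm_202 t 61 40 2 = true :=
  ⟨(c (c (a (a (c (c (l 15821248) (a (b (l 16096216) (l 15862760)) (l 15982880))) (c (a (l 15759776) (b (l 16096264) (l 15882936))) (b (l 16097784) (l 15883520)))) (b (c (l 16140464) (l 16032840)) (c (l 15906976) (c (l 15910928) (l 15828712))))) (a (c (l 15821320) (b (l 16136360) (l 15820928))) (b (l 16117320) (l 15808888)))) (a (a (l 15940112) (c (c (a (b (l 16093032) (l 15879672)) (l 15887040)) (a (l 15964264) (b (l 16091000) (l 15877440)))) (c (l 15796712) (l 15979792)))) (c (a (b (l 16120464) (l 15887904)) (b (l 16127472) (l 15922448))) (a (a (c (b (l 16089760) (l 15876472)) (l 15814880)) (c (l 15999752) (b (l 16089776) (l 15877488)))) (b (l 16118768) (l 15912760)))))) (c (a (l 15933920) (a (c (b (l 15986232) (c (l 15835016) (l 15870656))) (l 15974880)) (b (c (a (l 16045384) (l 16104656)) (c (l 16084936) (l 16084080))) (c (a (c (l 15881032) (l 15874968)) (l 15897832)) (c (a (l 15872592) (l 15876216)) (l 15875328)))))) (b (l 16078808) (l 15864928)))),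 by decide +kernel⟩

def k117_pm_202 : ∃ t, chk3 f_pm_202 t 61 82 2 = true :=
  ⟨(c (c (a (a (c (a (c (l 15757280) (b (l 15764680) (l 15710808))) (l 15771664)) (a (l 15745776) (c (b (l 15764120) (l 15713080)) (l 15747064)))) (c (l 15798848) (c (l 15781360) (a (l 15751720) (l 15775304))))) (c (l 15797816) (a (l 15802448) (l 15798136)))) (a (a (l 15738752) (c (a (c (l 15747928) (l 15743200)) (c (l 15756344) (l 15749496))) (l 15744088))) (c (a (l 15783248) (l 15802720)) (a (c (l 15739016) (l 15712600)) (l 15792456))))) (c (a (l 15734200) (c (a (c (l 15751544) (l 15745384)) (a (l 15716608) (l 15777336))) (a (l 15742160) (a (l 15749016) (l 15758136))))) (l 15734160))), by decide +kernel⟩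

def k118_pm_202 : ∃ t, chk3 f_pm_202 t 61 83 2 = true :=
  ⟨(c (c (a (b (b (a (c (a (c (l 15703088) (a (l 15693072) (l 15694976))) (l 15738024)) (a (l 15709696) (c (a (l 15693416) (l 15696816)) (l 15691760)))) (c (a (l 15760192) (l 15749840)) (c (l 15745800) (b (l 15708640) (l 15723680))))) (a (c (a (l 15702920) (l 15740120)) (l 15719648)) (c (l 15764680) (l 15738248)))) (a (c (a (l 15718144) (l 15753400)) (l 15713056)) (c (l 15777080) (l 15750792)))) (b (b (c (l 15755072) (b (l 15739256) (l 15731616))) (l 15753112)) (c (l 15763432) (l 15743832)))) (a (c (a (l 15715800) (b (b (a (c (l 15713424) (l 15708656)) (c (l 15720520) (l 15713600))) (l 15719144)) (c (l 15711248) (l 15706592)))) (l 15712520)) (b (b (a (b (c (l 15746608) (l 15722176)) (c (l 15739344) (a (l 15710496) (l 15717248)))) (c (l 15756744) (l 15746256))) (a (c (l 15742272) (l 15718536)) (l 15746512))) (a (c (l 15752376) (l 15729480)) (l 15755144))))) (c (a (b (l 15698448) (l 15713144)) (b (b (c (a (c (l 15709976) (l 15704624)) (a (c (l 15716112)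 (l 15710048)) (l 15729616))) (a (l 15701256) (a (l 15703816) (l 15668088)))) (c (a (l 15708904) (l 15722848)) (l 15709136))) (c (a (l 15719264) (l 15689936)) (l 15718536)))) (b (l 15692632) (l 15704640)))), by decide +kernel⟩

def k119_pm_202 : ∃ t, chk3 f_pm_202 t 31 40 2 = true :=
  ⟨(c (a (c (a (b (a (l 16095872) (l 16083504)) (b (l 15923792) (l 15862952))) (b (a (l 16080200) (l 16081656)) (l 15915032))) (a (b (c (l 16096312) (l 16102600)) (c (l 15908040) (l 15913432))) (b (c (l 16080960) (l 16080456)) (l 15912152)))) (a (c (b (l 16096824) (l 15938312)) (b (l 16091776) (l 15931760))) (a (b (l 16112456) (l 15954184)) (a (l 15978936) (b (l 16128040) (l 15970840)))))) (c (a (a (c (b (l 16063152) (l 15810168)) (a (c (l 15859216) (b (l 16087416) (l 15889472))) (b (l 16104120) (l 15919304)))) (b (c (l 16081456) (l 16084224)) (l 15912832))) (b (a (l 16087640) (l 16114056)) (a (l 15926096) (l 15954312)))) (a (a (c (a (b (c (l 16079792) (l 16079000)) (a (l 15878344) (l 15778352))) (b (l 16094784) (l 15907776)))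 (a (b (l 16075136) (l 15873120)) (b (a (l 16011520) (l 16035456)) (a (l 15843640) (l 15895008))))) (c (l 15814512) (a (b (l 16092912) (l 15917768)) (l 16000776)))) (a (c (l 16003248) (l 16001968)) (b (l 16109368) (l 15948112)))))), by decide +kernel⟩

def k120_pm_202 : ∃ t, chk3 f_pm_202 t 62 41 2 = true :=
  ⟨(c (b (c (a (c (l 15782576) (l 15783896)) (l 15786600)) (a (l 15727008) (l 15782480))) (b (b (c (a (c (l 15707624) (l 15729656)) (l 15700232)) (a (l 15693344) (l 15716448))) (c (c (l 15700536) (l 15700752)) (c (l 15723128) (l 15720848)))) (c (c (l 15704216) (l 15725416)) (c (l 15726848) (l 15724576))))) (a (a (b (c (c (l 15796432) (c (l 15786008) (l 15769128))) (c (c (l 15762080) (l 15759008)) (l 15751264))) (c (b (b (c (l 15744280) (c (l 15733672) (l 15717296))) (c (l 15740664) (l 15721048))) (c (l 15747376) (l 15727976))) (c (b (b (c (l 15667920) (l 15705680)) (l 15706336)) (l 15713160)) (l 15699008)))) (b (c (l 15792944) (c (l 15782888) (c (l 15768096) (l 15763544)))) (c (b (b (l 15734920) (l 15729656))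 (l 15734400)) (b (b (b (c (l 15730088) (l 15714392)) (c (l 15719448) (a (l 15699656) (l 15704616)))) (c (l 15719352) (l 15703896))) (c (l 15723968) (l 15708888)))))) (b (c (l 15781920) (c (l 15784744) (l 15757840))) (c (b (b (l 15715240) (l 15707512)) (l 15709280)) (b (b (c (l 15717584) (a (l 15723328) (l 15711744))) (l 15704480)) (l 15706264)))))), by decide +kernel⟩

def k121_pm_202 : ∃ t, chk3 f_pm_202 t 63 41 2 = true :=
  ⟨(a (b (c (c (l 15799872) (l 15791976)) (c (l 15784976) (l 15779288))) (c (b (b (c (l 15702176) (l 15714520)) (l 15687072)) (l 15684880)) (b (b (c (l 15706760) (l 15700320)) (c (l 15695752) (l 15689200))) (c (l 15693528) (l 15686960))))) (a (b (c (l 15807512) (l 15791472)) (b (c (b (l 15700928) (l 15708608)) (c (l 15701896) (l 15692912))) (c (l 15703456) (l 15685392)))) (b (b (c (l 15853632) (l 15838792)) (c (l 15779768) (l 15763472))) (b (c (b (l 15724856) (l 15710200)) (b (l 15707472) (l 15692520))) (a (c (l 15701824) (l 15683744)) (b (b (l 15675400) (l 15673552)) (b (b (b (l 15671248)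 (b (l 15670912) (b (b (l 15670536) (l 15671200)) (l 15669992)))) (l 15669272)) (l 15667352)))))))), by decide +kernel⟩

def k122_pm_202 : ∃ t, chk3 f_pm_202 t 30 20 3 = true :=
  ⟨(b (c (a (a (b (l 16095992) (l 15829040)) (b (l 16070424) (l 15846576))) (b (c (l 16073392) (l 16067928)) (c (l 15836512) (l 15766088)))) (a (a (c (l 15847744) (l 15820408)) (b (l 16059456) (l 15789408))) (a (b (l 16060568) (l 15728848)) (b (l 16058376) (b (l 15889072) (l 15766616)))))) (b (c (a (a (l 15695232) (c (l 15710312) (l 15701424))) (c (l 15725464) (a (l 15707872) (l 15722952)))) (a (a (c (l 15724208) (l 15715464)) (c (l 15692456) (l 15683416))) (c (a (l 15698952) (l 15714176)) (a (l 15689960) (l 15705320))))) (c (a (b (a (b (l 15696248) (l 15696360)) (b (l 15664760) (l 15669784))) (a (l 15713336) (l 15687792))) (b (b (l 15678704) (l 15679160)) (l 15691120))) (a (b (a (b (l 15678096) (l 15678192)) (b (l 15646024) (l 15651136))) (a (l 15695472) (l 15669472))) (b (b (l 15660200) (l 15660664)) (l 15672848)))))), by decide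 +kernel⟩

def k123_pm_202 : ∃ t, chk3 f_pm_202 t 31 40 6 = true :=
  ⟨(a (c (a (c (c (b (l 15992336) (l 15777320)) (l 15952840)) (l 15908504)) (c (a (b (a (c (l 16072808) (l 16069104)) (l 16083832)) (c (l 15906128) (l 15855960))) (l 15942784)) (a (a (l 15975464) (c (b (l 16068824) (l 15896192)) (l 15938704))) (c (l 15897480) (a (b (l 16070208) (l 15900856)) (l 16003552)))))) (a (b (l 16062472) (l 15866480)) (c (a (l 15974912) (c (a (l 15858112) (l 15822016)) (a (l 15979120) (b (l 16070992) (l 15903288))))) (l 15956080)))) (a (c (c (l 16002872) (l 15921800)) (a (c (c (l 16005920) (a (l 15891824) (l 16008688))) (c (a (l 15801536) (l 16002424)) (a (l 15986840) (l 15847656)))) (c (l 16003464) (l 15877520)))) (a (c (l 16012440) (c (l 16008576) (l 16006880))) (a (c (l 16021576) (l 16015680)) (b (l 16087296) (l 15945040)))))), by decide +kernel⟩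

def k124_pm_202 : ∃ t, chk3 f_pm_202 t 31 82 6 = true :=
  ⟨(a (c (a (c (c (l 15756520) (l 15750008)) (l 15746808)) (c (a (c (l 15776016) (l 15767936)) (l 15786008)) (a (c (l 15764488) (l 15757192)) (a (c (l 15778520) (l 15766248)) (l 15783800))))) (c (a (l 15742536) (a (l 15754032) (c (a (l 15762728) (l 15768880)) (l 15764360)))) (l 15745952))) (a (c (c (l 15777600) (l 15779344)) (a (c (c (l 15781256) (l 15774288)) (c (a (l 15766168) (l 15775424)) (a (l 15760440) (l 15767608)))) (c (l 15773680) (l 15772480)))) (a (c (l 15779376) (l 15772728)) (a (l 15696880) (l 15745152))))), by decide +kernel⟩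

def k125_pm_202 : ∃ t, chk3 f_pm_202 t 31 83 6 = true :=
  ⟨(a (a (c (c (a (l 15694496) (b (b (c (l 15699552) (l 15694888)) (l 15693664)) (l 15698224))) (l 15689984)) (l 15683152)) (c (b (b (c (a (a (c (l 15704208) (l 15699024)) (l 15712616)) (l 15715296)) (a (c (a (l 15693880) (l 15697944)) (l 15691952)) (a (c (l 15709080) (l 15696912)) (l 15711288)))) (c (a (a (l 15696824) (l 15705216)) (l 15706600)) (a (l 15691920) (a (l 15696448) (l 15702136))))) (c (a (a (l 15700288) (l 15707528)) (l 15707384)) (a (l 15694544) (a (l 15697952) (l 15702408))))) (c (a (l 15684656) (b (b (c (a (l 15692184) (l 15696504)) (a (l 15688208) (l 15691448))) (c (l 15688096) (l 15683200))) (c (l 15688944) (l 15683824)))) (l 15679480)))) (b (a (c (b (c (l 15698056) (l 15699424)) (l 15688160)) (a (c (b (a (c (l 15707896) (l 15697536)) (l 15702144)) (l 15686920)) (b (c (a (l 15690024) (l 15696528)) (a (l 15684160) (l 15688520))) (c (l 15683264) (l 15679320)))) (b (c (l 15690432) (l 15688832)) (l 15676992)))) (c (b (a (l 15690816) (l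 15693840)) (l 15680296)) (b (a (l 15683328) (l 15685072)) (a (l 15669456) (l 15669760))))) (a (c (l 15685904) (a (c (l 15685696) (c (l 15682176) (l 15677992))) (l 15673688))) (a (c (l 15671768) (l 15664096)) (a (l 15665400) (b (l 15669968) (b (b (b (l 15664824) (b (l 15664480) (l 15665904))) (l 15662800)) (l 15660824)))))))), by decide +kernel⟩

def k126_pm_202 : ∃ t, chk3 f_pm_202 t 31 20 14 = true :=
  ⟨(b (a (b (l 15977304) (l 15871632)) (a (c (a (c (b (l 16074624) (l 15906824)) (l 15985096)) (c (a (a (l 15974816) (l 16003160)) (l 16008472)) (a (a (l 15991736) (l 15955224)) (a (l 15938968) (l 16008256))))) (c (a (l 15983536) (a (l 15991528) (b (l 16042720) (l 15917576)))) (l 15987416))) (a (c (l 15966048) (a (c (l 15921352) (a (l 15834520) (l 15837232))) (l 15881024))) (a (c (l 16011272) (l 16009096)) (b (l 16058704) (l 15935120)))))) (a (b (l 15739544) (b (l 15673056) (l 15673792))) (a (c (a (b (c (l 15762712) (l 15757776)) (c (b (b (c (l 15683848) (l 15681336)) (l 15673184)) (l 15671776)) (l 15671064)))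 (b (c (a (l 15769792) (l 15775560)) (a (l 15765568) (l 15769392))) (b (b (b (c (l 15693104) (l 15692584)) (c (a (l 15680064) (l 15682216)) (a (l 15674824) (l 15676200)))) (c (l 15673248) (l 15672560))) (c (l 15670088) (l 15669288))))) (b (c (a (l 15755680) (a (l 15760016) (l 15766816))) (l 15756496)) (c (a (l 15668760) (a (l 15666864) (b (b (a (l 15678368) (l 15680024)) (l 15667992)) (l 15664096)))) (l 15665200)))) (a (b (c (l 15771048) (a (c (l 15768864) (c (l 15767200) (l 15765704))) (l 15767544))) (c (b (b (l 15681000) (l 15667024)) (l 15661632)) (a (b (b (c (l 15680256) (b (l 15686648) (b (l 15673280) (l 15666968)))) (c (l 15666696) (l 15664768))) (c (l 15661824) (l 15659888))) (b (b (l 15675568) (l 15661104)) (l 15655168))))) (b (a (c (l 15770592) (l 15767272)) (l 15753944)) (b (b (c (l 15678048) (l 15653312)) (c (l 15662632) (l 15658784))) (a (l 15652144) (b (l 15656104) (b (b (b (l 15650888) (b (l 15650544) (l 15651992))) (l 15648840)) (l 15646832)))))))))), by decide +kernel⟩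

def k127_pm_202 : ∃ t, chk3 f_pm_202 t 62 20 15 = true :=
  ⟨(b (b (a (l 16051280) (l 16054736)) (l 15822328)) (b (l 15730936) (b (l 15642840) (l 15664552)))), by decide +kernel⟩

def k128_pm_202 : ∃ t, chk3 f_pm_202 t 126 20 15 = true :=
  ⟨(b (l 15962552) (b (l 15751240) (b (l 15663432) (l 15655344)))), by decide +kernel⟩

def k129_pm_202 : ∃ t, chk3 f_pm_202 t 127 20 30 = true :=
  ⟨(a (c (a (b (b (l 16023248) (l 15897240)) (b (l 15742656) (b (b (c (l 15673360) (l 15671240)) (l 15659984)) (l 15654968)))) (b (c (l 15900552) (l 15817120)) (b (c (l 15765680) (l 15765728)) (b (b (c (l 15673680) (b (l 15681976) (l 15664816))) (l 15658704)) (l 15652824))))) (c (a (b (l 15997576) (b (l 15759528) (l 15657360))) (b (l 15838016) (b (l 15764896) (b (b (a (l 15669624) (l 15671224)) (l 15657488)) (l 15651448))))) (b (l 15999312) (b (l 15759704) (l 15655312))))) (a (b (c (l 16009128) (a (c (l 16007768) (l 15965472)) (l 16008504))) (b (c (l 15766448) (c (l 15763624) (l 15762000))) (b (b (c (l 15671112) (a (c (l 15670824)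 (b (l 15678696) (l 15661056))) (l 15668320))) (c (l 15655736) (a (l 15655096) (l 15652688)))) (c (l 15648736) (a (l 15648384) (l 15645408)))))) (b (b (c (l 16097336) (l 16096472)) (l 15888408)) (b (l 15685128) (b (b (c (l 15669592) (l 15667704)) (l 15652792)) (a (l 15643800) (b (l 15648224) (b (b (b (l 15643104) (b (l 15642720) (l 15644024))) (l 15641024)) (l 15638944))))))))), by decide +kernel⟩

def k130_pm_202 : ∃ t, chk3 f_pm_202 t 127 20 31 = true :=
  ⟨(a (b (l 15997408) (b (l 15757096) (l 15652392))) (a (b (c (c (a (l 15964448) (l 15902864)) (b (b (l 16097904) (l 16055040)) (l 15908376))) (l 16003856)) (b (c (c (a (l 15762816) (l 15763536)) (l 15768280)) (l 15759472)) (c (b (b (b (c (l 15682256) (l 15680608)) (c (a (l 15658664) (l 15658152)) (l 15599704))) (c (l 15657624) (l 15655920))) (l 15649008)) (l 15648304)))) (a (b (a (c (c (l 16009336) (l 15966888)) (l 15887824)) (c (l 16009360) (b (l 16055368) (l 15929328)))) (b (c (c (l 15764008) (l 15699272)) (l 15766912)) (b (b (b (c (l 15672960) (l 15677216))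 (c (c (l 15656872) (a (l 15656504) (l 15655408))) (l 15616848))) (c (l 15647800) (l 15651680))) (c (l 15640056) (l 15643632))))) (b (c (b (l 16095872) (l 15928632)) (c (a (l 15903600) (b (l 16095272) (l 15927736))) (b (l 16053920) (l 15928160)))) (b (c (l 15765976) (a (l 15761408) (b (l 15802408) (l 15721464)))) (b (b (c (l 15664920) (b (l 15672976) (b (l 15657912) (l 15650672)))) (c (l 15648608) (l 15647496))) (a (c (l 15639576) (l 15637184)) (a (l 15631272) (a (l 15630016) (b (b (l 15638112) (l 15635872)) (b (b (b (l 15633592) (b (l 15633184) (l 15592448))) (l 15631608)) (l 15629512)))))))))))), by decide +kernel⟩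

def k131_pm_202 : ∃ t, chk3 f_pm_202 t 14 21 1 = true :=
  ⟨(c (a (b (c (a (b (l 16193104) (l 16278272)) (b (l 16084608) (l 16128960))) (a (l 16080976) (b (l 16116368) (l 16182824)))) (a (b (c (l 16342512) (l 16357744)) (c (l 16379136) (l 16438168))) (c (b (c (l 16273752) (l 16269984)) (l 16373512)) (b (l 16264264) (l 16367832))))) (b (c (a (b (a (l 16065456) (l 15995408)) (a (l 16122424) (l 16056832))) (b (c (a (l 15925904) (l 15857976)) (l 15886800)) (c (l 15958048) (l 15951328)))) (a (b (l 15976824) (l 15975904)) (b (c (l 15879440) (l 15872024)) (l 15941152)))) (c (a (c (b (l 16176920) (l 16266384)) (l 16112680)) (c (b (l 16028376) (l 16098008)) (l 15994688))) (a (b (l 16165088) (l 16256696)) (b (l 16013136) (l 16084448)))))) (a (b (c (a (b (l 16175440) (l 16263616)) (b (l 16106008) (l 16173608))) (a (b (l 16166368) (l 16256080)) (b (l 16074488) (l 16101312)))) (a (b (c (l 16351896) (l 16303984)) (c (l 16392264) (l 16346264))) (c (b (l 16235552) (l 16362048)) (b (a (l 16269160) (l 16223864)) (l 16335176)))))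 (b (c (a (b (a (l 16042392) (l 15969648)) (a (l 16101360) (l 16033296))) (b (a (l 15893912) (l 15823160)) (l 15927400))) (a (b (a (l 16030568) (l 15956456)) (a (l 16090552) (l 16021224))) (b (a (l 15879312) (l 15807280)) (l 15871480)))) (c (a (b (l 16155456) (l 16248800)) (b (l 16000736) (l 16073400))) (a (b (l 16040792) (l 16156888)) (b (l 15967160) (l 16062184))))))), by decide +kernel⟩

def k132_pm_202 : ∃ t, chk3 f_pm_202 t 30 21 2 = true :=
  ⟨(c (a (c (a (b (l 15800832) (l 15932256)) (b (a (l 15787440) (c (b (l 15766896) (l 15808512)) (l 15780920))) (l 15875736))) (b (a (l 15813848) (l 15776984)) (a (l 15925352) (l 15868104)))) (c (c (a (a (b (a (c (l 15791960) (l 15784208)) (l 15798520)) (b (l 15852000) (l 15889712))) (b (l 15818208) (l 15883024))) (b (l 15794952) (l 15844568))) (a (a (a (l 15816352) (b (c (l 15780648) (l 15774296)) (l 15852032))) (b (a (c (l 15790232) (l 15777240)) (l 15799784)) (c (l 15863848) (l 15849608)))) (b (a (l 15807376) (l 15787416)) (l 15846328)))) (a (c (a (l 15788808)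 (b (c (a (l 15770912) (l 15774296)) (l 15768896)) (a (l 15835888) (l 15835736)))) (b (l 15764768) (l 15835632))) (b (a (a (c (l 15780216) (l 15720352)) (c (l 15796736) (l 15765240))) (c (l 15791936) (l 15780504))) (a (c (a (l 15839088) (l 15849408)) (c (l 15823936) (l 15815808))) (c (l 15836928) (l 15824872))))))) (a (b (a (l 15696952) (l 15701528)) (a (l 15914888) (l 15856856))) (c (a (b (l 15758432) (l 15829800)) (b (c (a (l 15754088) (c (l 15763896) (l 15751824))) (a (l 15747136) (c (l 15745992) (l 15739192)))) (a (l 15805240) (c (c (l 15810568) (l 15798032)) (l 15789752))))) (b (l 15743784) (l 15805376))))), by decide +kernel⟩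

def k133_pm_202 : ∃ t, chk3 f_pm_202 t 31 21 2 = true :=
  ⟨(a (c (b (c (a (b (l 15742440) (l 15757280)) (l 15700160)) (a (c (l 15752552) (l 15757200)) (l 15716376))) (c (a (l 15779312) (l 15730128)) (a (l 15785128) (l 15725472)))) (c (a (c (b (l 15758040) (l 15787936)) (a (b (a (l 15745400) (l 15756936)) (l 15724888)) (l 15723440))) (b (l 15715176) (l 15724368))) (c (a (b (a (c (l 15736248) (l 15730656)) (l 15697616)) (a (l 15770560) (l 15765456))) (b (l 15717528) (l 15726792))) (a (a (l 15742024) (b (c (l 15726704) (l 15720288)) (l 15750712))) (b (a (l 15727232) (l 15706488)) (l 15697648)))))) (c (a (b (c (l 15682016) (l 15673192)) (c (l 15670568) (l 15682616))) (b (a (l 15665472) (l 15678688)) (c (l 15655624) (l 15646272)))) (a (c (b (l 15686232) (l 15674576)) (b (l 15679600) (l 15667848))) (b (c (l 15669880) (l 15660824)) (c (l 15636872) (l 15627448)))))), by decide +kernel⟩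

def k134_pm_202 : ∃ t, chk3 f_pm_202 t 30 21 3 = true :=
  ⟨(c (b (a (a (b (l 15756392) (l 15814488)) (l 15705552)) (c (l 15735152) (l 15726456))) (a (a (l 15900752) (l 15841664)) (b (l 15777712) (l 15808672)))) (b (a (a (b (l 15739320) (l 15798496)) (c (l 15734616) (l 15725936))) (c (l 15717688) (l 15708856))) (a (a (b (l 15857200) (l 15915384)) (l 15805264)) (b (l 15761080) (l 15792648))))), by decide +kernel⟩

def k135_pm_202 : ∃ t, chk3 f_pm_202 t 31 21 6 = true :=
  ⟨(a (a (b (c (c (c (l 15718856) (l 15714552)) (l 15711224)) (l 15704552)) (l 15739768)) (c (c (a (b (c (l 15717672) (l 15709344)) (c (l 15733400) (l 15724392))) (l 15670192)) (b (a (c (l 15703664) (l 15697096)) (a (c (l 15705800) (l 15694912)) (l 15702384))) (a (l 15716736) (a (l 15710496) (l 15703568))))) (c (a (l 15701224) (b (c (l 15691744) (l 15686136)) (a (l 15693464) (l 15689840)))) (l 15689360)))) (a (c (b (c (l 15677200) (l 15678472)) (l 15666632)) (c (a (b (c (l 15688232) (l 15681792)) (l 15655104)) (l 15655496)) (a (b (c (a (l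 15676816) (l 15677816)) (a (l 15670888) (l 15670376))) (c (l 15672496) (l 15666384))) (b (l 15661376) (l 15643800))))) (c (b (l 15651832) (l 15618064)) (b (a (l 15646384) (l 15636872)) (a (l 15618320) (l 15597672)))))), by decide +kernel⟩

def k136_pm_202 : ∃ t, chk3 f_pm_202 t 31 21 7 = true :=
  ⟨(a (b (c (l 15686808) (l 15677696)) (c (l 15707160) (l 15698264))) (a (a (b (c (c (c (l 15667520) (l 15663648)) (l 15660168)) (l 15653176)) (l 15651280)) (c (c (b (c (a (l 15664400) (l 15660920)) (a (l 15658136) (l 15655416))) (c (l 15643104) (l 15641008))) (a (l 15644648) (c (b (l 15651248) (l 15630600)) (l 15635080)))) (l 15612408))) (c (a (c (b (l 15643800) (l 15615552)) (a (b (c (l 15645696) (l 15643760)) (c (l 15620544) (l 15617976))) (b (l 15634880) (l 15603744)))) (c (l 15568112) (b (l 15625528) (l 15585880)))) (a (c (b (c (a (l 15638640) (b (l 15641112) (l 15625552))) (a (l 15634616) (c (l 15631536) (l 15628000)))) (a (l 15610048) (c (l 15602400) (l 15604384)))) (l 15613752)) (c (c (a (l 15607208) (l 15597208))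 (a (b (a (l 15626224) (l 15620968)) (a (l 15590936) (l 15582832))) (l 15595048))) (a (b (c (b (l 15634496) (l 15615288)) (l 15617592)) (l 15587992)) (b (c (a (l 15614368) (l 15612024)) (a (l 15616976) (l 15610632))) (c (l 15571824) (l 15570072))))))))), by decide +kernel⟩

def k137_pm_202 : ∃ t, chk3 f_pm_202 t 6 11 1 = true :=
  ⟨(c (b (a (a (b (a (l 15459848) (l 15562616)) (l 15398840)) (b (l 15731808) (l 15499992))) (a (b (a (l 15928360) (l 16118472)) (a (l 15773320) (l 15926184))) (a (b (l 16221400) (l 16075472)) (b (a (l 16379088) (c (a (l 16487696) (l 16378944)) (l 16334504))) (b (a (l 16252072) (l 16203304)) (l 16164736)))))) (a (a (b (b (a (l 15344976) (l 15439696)) (l 15520472)) (l 15673576)) (b (b (l 15436664) (l 15659776)) (l 15800184))) (a (b (a (l 15735592) (l 15870240)) (l 15941056)) (b (c (l 16069096) (l 16078464)) (l 16252336))))) (b (a (a (b (a (l 15415272) (l 15521536)) (l 15350832)) (b (l 15696496) (a (l 15511472) (l 15619336)))) (a (b (a (l 15899904) (l 16034128)) (a (b (l 15791080) (l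 15692304)) (l 15855008))) (a (b (l 16081192) (l 16051864)) (b (a (l 16328064) (a (l 16416672) (c (l 16395040) (b (l 16568392) (l 16470160))))) (b (c (l 16278920) (l 16187336)) (l 16144520)))))) (a (a (b (b (a (l 15294544) (l 15392584)) (l 15476200)) (l 15634696)) (b (a (l 15448848) (l 15607656)) (l 15765760))) (a (b (a (b (l 15651792) (l 15745768)) (l 15733768)) (l 15808424)) (b (c (l 16024768) (l 15866048)) (l 16171936)))))), by decide +kernel⟩

def k138_pm_202 : ∃ t, chk3 f_pm_202 t 14 22 1 = true :=
  ⟨(b (c (a (a (c (b (l 16520792) (l 16511192)) (l 16465200)) (c (c (l 16368664) (l 16409376)) (l 16365568))) (a (b (c (l 16290480) (l 16347360)) (c (l 16357424) (l 16395080))) (c (c (l 16096240) (l 16154768)) (l 16085200)))) (a (a (c (l 16422200) (a (l 16394048) (l 16429224))) (c (l 16342056) (c (l 16361080) (l 16359760)))) (a (b (c (l 16320256) (l 16251096)) (c (l 16369752) (l 16323368))) (c (l 16034272) (b (l 16135520) (l 16208104)))))) (a (c (c (a (b (l 16413640) (l 16316496)) (l 16342280)) (b (l 16306856)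 (l 16257144))) (b (c (l 16240408) (a (l 16357168) (l 16450048))) (c (l 16167512) (a (l 16273912) (l 16404536))))) (a (c (c (l 16319472) (l 16380768)) (c (l 16337176) (a (l 16444432) (l 16381752)))) (c (c (c (l 16230776) (l 16248712)) (l 16223144)) (c (l 16195968) (b (l 16258920) (l 16287912))))))), by decide +kernel⟩

def k139_pm_202 : ∃ t, chk3 f_pm_202 t 15 22 2 = true :=
  ⟨(a (a (c (b (c (a (l 16040488) (l 15964168)) (l 15870408)) (a (l 16122784) (l 15984592))) (b (a (l 16025760) (l 15947464)) (l 15938440))) (a (c (c (b (a (c (b (l 15926776) (l 15963152)) (l 15927640)) (c (l 15945544) (l 15924520))) (a (c (l 16016432) (l 15998832)) (c (l 16007832) (l 15987168)))) (c (b (a (l 15921464) (l 15902032)) (l 15979584)) (l 15939184))) (b (l 15896168) (l 15964760))) (c (a (c (b (l 15914872) (l 15966944)) (b (c (l 15897936) (l 15875848)) (c (l 15951584) (l 15928000)))) (c (b (l 15872560) (l 15915088)) (b (c (l 15880960) (l 15869592)) (l 15915224)))) (c (a (l 15886872) (b (c (l 15853520) (l 15832992)) (c (l 15896664)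 (l 15875496)))) (l 15863256))))) (a (c (b (c (a (l 15808024) (l 15738832)) (a (l 15814136) (l 15734264))) (c (a (l 15835872) (l 15747064)) (a (l 15842272) (l 15742592)))) (a (c (b (a (c (l 15838520) (l 15823376)) (l 15799160)) (c (l 15845032) (l 15817456))) (b (c (a (l 15804216) (l 15790960)) (l 15703944)) (c (l 15808448) (l 15814960)))) (c (b (l 15733256) (l 15741680)) (b (c (l 15735752) (l 15727952)) (l 15738144))))) (c (b (a (c (l 15680160) (l 15671136)) (c (l 15623760) (l 15614056))) (a (l 15664216) (l 15587320))) (b (a (c (l 15662992) (l 15656160)) (l 15599728)) (a (l 15648408) (l 15567104)))))), by decide +kernel⟩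

def k140_pm_202 : ∃ t, chk3 f_pm_202 t 15 22 3 = true :=
  ⟨(a (b (c (a (a (l 16013776) (l 15934040)) (l 15854536)) (a (a (l 15980640) (l 15920416)) (b (l 15823888) (l 15854784)))) (c (a (l 15906760) (l 15914320)) (a (a (l 16114352) (l 16012520)) (l 15879448)))) (a (c (a (b (l 15769808) (l 15798992)) (c (b (c (a (l 15745592) (l 15717976)) (a (l 15729744) (l 15709568))) (c (l 15654200) (a (l 15742480) (l 15713712)))) (c (a (l 15729984) (b (l 15697632) (l 15700016))) (l 15707680)))) (b (b (l 15717712) (l 15727560)) (l 15721024))) (c (a (c (b (l 15654840) (l 15642976)) (a (c (b (l 15670496) (l 15664696)) (b (l 15601216) (l 15656616))) (b (l 15627192) (l 15610696)))) (b (c (l 15584736) (l 15575912)) (l 15547472))) (a (c (a (l 15645880) (b (c (c (l 15626576) (l 15623480)) (c (l 15618120) (l 15613152))) (c (l 15607264) (l 15600720)))) (l 15596472)) (c (a (c (l 15573760) (b (a (l 15594128) (l 15573160)) (a (l 15568784) (l 15542992)))) (b (l 15549184) (l 15510560))) (a (c (a (l 15571888) (b (l 15574296) (l 15540680)))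 (l 15557048)) (c (b (a (l 15487240) (l 15533096)) (l 15503560)) (b (a (l 15549352) (l 15486920)) (l 15476664))))))))), by decide +kernel⟩

def k141_pm_202 : ∃ t, chk3 f_pm_202 t 14 46 1 = true :=
  ⟨(b (a (c (b (b (a (l 16158352) (l 16354192)) (l 16288152)) (l 16297312)) (c (b (b (l 16225304) (l 16319888)) (l 16350864)) (b (b (a (l 16220720) (l 16382456)) (l 16291976)) (l 16302560)))) (c (b (b (a (l 16437432) (l 16278192)) (a (l 16573736) (l 16392320))) (c (l 16266496) (l 16326456))) (c (a (l 16394376) (l 16247512)) (b (a (b (l 16453856) (l 16548776)) (l 16260296)) (l 16257488))))) (a (c (l 16314952) (c (l 16370200) (l 16323040))) (c (c (l 16232096) (l 16248944)) (c (l 16223784) (l 16198552))))), by decide +kernel⟩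

def k142_pm_202 : ∃ t, chk3 f_pm_202 t 30 46 1 = true :=
  ⟨(b (c (c (c (a (a (l 16179112) (l 16072544)) (a (b (b (b (l 16041800) (a (l 16047688) (l 16029072))) (l 16028832)) (l 16000936)) (b (b (l 15964464) (l 15950776)) (l 15922888)))) (a (l 15974168) (a (l 15988040) (b (b (b (l 15952624) (l 15931368)) (l 15938656)) (l 15910472))))) (a (l 15987640) (b (b (b (l 15843640) (c (l 15869264) (l 15955360))) (l 15954832)) (l 15926216)))) (c (a (l 15956552) (l 15920248)) (a (a (l 16128640) (l 16036144)) (l 15906488)))) (c (a (a (l 16099176) (l 15990728)) (c (a (c (l 15945800) (l 15914952)) (c (l 15867760) (l 15854776))) (l 15827696))) (a (l 16021856) (l 15836760)))), by decide +kernel⟩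

def k143_pm_202 : ∃ t, chk3 f_pm_202 t 31 46 1 = true :=
  ⟨(c (a (c (b (b (b (a (l 15854312) (l 15748328)) (l 15791264)) (l 15763240)) (l 15707856)) (a (b (b (b (c (a (l 15879840) (l 15833976)) (b (l 15838672) (l 15837368))) (c (l 15839456) (l 15823352))) (c (l 15810992) (l 15794592))) (c (l 15754720) (l 15737736))) (b (b (b (c (l 15744856) (l 15742192)) (l 15727648)) (l 15699048)) (l 15642504)))) (b (b (b (c (l 15612680) (l 15594920)) (l 15588800)) (l 15560504)) (c (l 15516880) (l 15497080)))) (a (c (a (l 15749464) (b (b (b (c (b (l 15737376) (l 15735200)) (l 15719448)) (l 15650592)) (l 15579448)) (c (l 15634504) (l 15616384)))) (l 15601632)) (c (a (c (b (l 15608640) (l 15532800)) (b (b (b (a (b (l 15656536) (l 15653632)) (l 15600336)) (l 15607520)) (l 15578168)) (l 15499176))) (b (b (l 15519680) (l 15482296)) (l 15429008))) (a (b (b (b (b (l 15611712) (l 15566208)) (l 15593512)) (l 15563712)) (l 15504776)) (b (c (b (b (a (c (l 15543304) (l 15537072)) (l 15488000)) (l 15497064)) (l 15467416)) (b (b (a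 (l 15529736) (c (l 15480688) (l 15432208))) (a (l 15512944) (l 15460336))) (a (l 15482992) (l 15430384)))) (c (a (l 15434840) (l 15388568)) (a (l 15424096) (c (l 15380472) (l 15373392))))))))), by decide +kernel⟩

def k144_pm_202 : ∃ t, chk3 f_pm_202 t 7 47 1 = true :=
  ⟨(a (a (c (l 16326528) (c (l 16385184) (l 16319360))) (c (a (l 16376312) (l 16198648)) (a (l 16305304) (l 16117696)))) (a (c (a (a (l 15989776) (l 15881336)) (c (a (c (l 15838152) (l 15806152)) (c (l 15760144) (l 15746016))) (l 15633304))) (a (l 15823944) (l 15722744))) (c (a (c (a (l 15651848) (l 15559344)) (a (c (l 15648256) (l 15630152)) (l 15549704))) (c (l 15470008) (l 15449200))) (a (c (a (l 15602360) (c (a (l 15557696) (l 15523032)) (l 15521120))) (l 15546552)) (c (a (c (l 15464872) (a (l 15472528) (l 15434552))) (l 15395536)) (a (c (l 15376760) (l 15427600)) (c (l 15358320) (a (l 15381208) (l 15353448))))))))), by decide +kernel⟩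

def k145_pm_202 : ∃ t, chk3 f_pm_202 t 2 6 1 = true :=
  ⟨(a (b (a (b (c (b (c (l 15296136) (l 15270184)) (a (l 15548176) (l 15560736))) (a (b (l 15217448) (l 15504888)) (l 15316016))) (c (a (l 15627264) (l 15846016)) (a (l 15803872) (l 15813208)))) (c (b (c (b (l 15380480) (l 15622456)) (b (l 15355992) (l 15602208))) (c (l 15900824) (l 15885456))) (b (c (l 15222408) (l 15325208)) (l 15736160)))) (a (c (b (a (l 16189312) (l 16200776)) (a (l 16519592) (l 16531096))) (b (a (l 16168608) (l 16180472)) (l 16370416))) (b (c (c (l 16249320) (l 16240064)) (l 16163016)) (c (l 16446128) (l 16480840))))) (b (a (c (b (b (a (l 15476128) (l 15561840)) (l 15723768)) (c (l 16004840) (l 15991296))) (b (a (l 15434720) (l 15578424)) (l 15844784))) (c (b (a (l 15725048) (l 15737040)) (c (l 15969808) (l 16084784))) (b (a (l 15709696) (l 15808952)) (a (l 16083672) (l 16176416))))) (b (c (a (c (l 16304376) (l 16338768)) (c (a (l 16426160) (l 16445816)) (l 16316584))) (a (l 16117512) (c (l 16353408) (l 16390176)))) (a (c (b (l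 16563984) (a (l 16707672) (l 16744752))) (b (l 16578184) (l 16657288))) (c (a (b (l 16659440) (l 16770024)) (b (l 16675488) (l 16777216))) (a (l 16550096) (b (l 16737040) (l 16777216)))))))), by decide +kernel⟩

def k146_pm_202 : ∃ t, chk3 f_pm_202 t 2 7 1 = true :=
  ⟨(a (c (b (a (b (a (l 16759936) (l 16720304)) (l 16777216)) (b (c (l 16767504) (l 16767336)) (c (l 16777216) (l 16777216)))) (a (c (l 16777216) (l 16777216)) (c (l 16777216) (l 16777216)))) (b (a (b (b (l 16680520) (l 16777216)) (l 16777216)) (b (c (l 16767168) (l 16766992)) (l 16777216))) (a (c (l 16777216) (l 16777216)) (c (l 16777216) (l 16777216))))) (c (a (b (c (l 16776928) (l 16776928)) (l 16777216)) (c (b (l 16777216) (l 16777216)) (b (l 16777216) (l 16777216)))) (a (b (c (l 16776920) (l 16776912)) (l 16777216)) (c (b (l 16777216) (l 16777216)) (b (l 16777216) (l 16777216)))))), by decide +kernel⟩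

def k147_pm_202 : ∃ t, chk3 f_pm_202 t 6 3 2 = true :=
  ⟨(b (b (a (b (a (c (l 15957496) (l 15943128)) (l 15923944)) (a (c (l 16302192) (l 16293856)) (c (l 16329536) (l 16365104)))) (a (b (c (l 16100976) (l 16133744)) (c (c (l 16361688) (l 16359960)) (l 16336368))) (b (c (l 16308192) (l 16303944)) (b (l 16503432) (a (l 16544408) (l 16409216)))))) (a (b (a (b (l 16438008) (a (l 16652984) (l 16654440))) (b (c (l 16587096) (l 16605840)) (a (l 16687152) (l 16770520)))) (a (c (l 16773960) (l 16773904)) (l 16777216))) (a (b (b (a (a (l 16634968) (l 16674952)) (b (l 16625712) (l 16667320))) (l 16626880)) (a (l 16753856) (l 16666800))) (b (c (l 16440416) (l 16477928)) (l 16521384))))) (a (c (b (l 16777216) (l 16777216)) (b (l 16777216) (l 16777216))) (a (b (c (l 16648424) (l 16668240)) (c (l 16711344) (l 16710184))) (b (c (l 16523608) (l 16519160)) (l 16458472))))), by decide +kernel⟩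

def k148_pm_202 : ∃ t, chk3 f_pm_202 t 14 3 2 = true :=
  ⟨(b (b (a (b (a (b (l 16595536) (l 16475512)) (l 16242864)) (b (a (l 16370064) (b (l 16291952) (l 16256696))) (a (a (l 16394944) (l 16336128)) (l 16250656)))) (b (a (b (l 16298904) (l 16103752)) (b (l 16058216) (l 15760048))) (a (b (l 16034928) (l 16114816)) (c (l 15930144) (l 15915304))))) (a (b (c (b (a (l 16367184) (l 16255240)) (l 16311768)) (b (l 16303608) (l 16303608))) (a (l 16363584) (l 16250656))) (b (c (a (l 16120576) (l 15930144)) (a (l 16109064) (l 15915304))) (a (l 16114816) (l 15922720))))) (a (b (c (a (l 16367184) (l 16255240)) (l 16240696)) (a (l 16363584) (l 16250656))) (b (c (a (l 16120576) (l 15930144)) (a (l 16109064) (l 15915304))) (a (l 16114816) (l 15922720))))), by decide +kernel⟩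

def k149_pm_202 : ∃ t, chk3 f_pm_202 t 15 3 2 = true :=
  ⟨(a (a (b (b (b (b (a (l 15849480) (l 15747080)) (a (l 15772016) (l 15699432))) (a (l 15769200) (l 15699432))) (b (c (a (l 15777952) (l 15708888)) (l 15725464)) (a (l 15769200) (l 15699432)))) (a (b (l 15769200) (l 15769200)) (b (l 15699432) (l 15699432)))) (b (b (c (b (a (c (b (l 15721200) (l 15698568)) (l 15677832)) (c (l 15665184) (a (l 15659368) (l 15643416)))) (c (a (l 15698568) (l 15661344)) (a (l 15665056) (l 15646144)))) (b (c (a (l 15665856) (l 15606824)) (l 15633224)) (c (l 15643824) (l 15621576)))) (c (c (a (b (b (l 15698568) (l 15698568)) (l 15698568)) (b (l 15661344) (l 15661344))) (a (l 15665056) (b (c (l 15653992) (l 15641184)) (l 15646144)))) (c (a (l 15652944) (l 15623872)) (l 15621576)))) (c (b (a (c (l 15698568) (l 15665056)) (c (l 15661344) (l 15646144))) (a (l 15689752) (l 15650936))) (b (l 15636680) (l 15636680))))) (a (b (c (b (b (l 15564880) (l 15564784)) (b (c (l 15563056) (l 15563864)) (l 15564784))) (b (a (c (b (l 15587128)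 (l 15587016)) (a (l 15569440) (l 15561784))) (c (l 15522144) (l 15517160))) (a (c (b (l 15587016) (l 15587016)) (b (l 15568248) (l 15568248))) (b (l 15518816) (l 15518816))))) (c (b (l 15564784) (l 15564784)) (b (a (c (l 15587016) (l 15568248)) (l 15518816)) (a (l 15576816) (l 15518816))))) (b (b (c (l 15461792) (b (l 15440800) (l 15440800))) (b (c (l 15461792) (l 15440800)) (l 15451960))) (b (c (l 15461792) (l 15440800)) (l 15451960))))), by decide +kernel⟩

def k150_pm_202 : ∃ t, chk3 f_pm_202 t 6 3 3 = true :=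
  ⟨(b (b (a (b (a (l 15816320) (l 15961968)) (a (l 16218224) (l 16187592))) (b (a (c (l 16124448) (l 16094056)) (c (l 16299632) (l 16274288))) (a (c (l 16353808) (l 16350224)) (b (l 16501520) (a (l 16539824) (l 16441392)))))) (a (b (a (a (l 16506152) (l 16470456)) (b (l 16581464) (a (l 16749112) (l 16770280)))) (a (l 16752848) (l 16777216))) (a (b (b (a (l 16630480) (l 16593704)) (l 16645504)) (l 16624536)) (b (c (l 16494408) (l 16510832)) (l 16512376))))) (a (c (b (l 16777216) (l 16777216)) (b (l 16777216) (l 16777216))) (a (b (c (l 16688040) (l 16686856)) (c (l 16709016) (l 16707832))) (b (l 16491400) (l 16512376))))), by decide +kernel⟩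

def k151_pm_202 : ∃ t, chk3 f_pm_202 t 7 3 3 = true :=
  ⟨(a (b (b (a (b (a (c (l 16455896) (l 16454608)) (c (l 16340656) (l 16335856))) (b (a (l 16358648) (l 16155888)) (a (l 16352608) (l 16232112)))) (b (a (c (l 16093600) (l 16042952)) (b (l 16034112) (b (l 15933048) (l 15897920)))) (a (b (l 16074696) (l 16091488)) (l 15892640)))) (a (b (c (a (l 16352712) (l 16236816)) (l 16286960)) (a (l 16349016) (l 16232112))) (b (c (l 15873976) (l 15986288)) (a (l 16091488) (l 15892640))))) (a (b (c (l 16295336) (l 16286960)) (c (l 16295336) (l 16286960))) (b (c (l 15978840) (l 15986288)) (c (l 15999808) (l 15986288))))) (b (a (b (b (a (b (a (l 15817544) (l 15711280)) (l 15700272)) (b (c (l 15625936) (l 15606008)) (l 15596320))) (a (l 15697816) (l 15596320))) (b (c (l 15657304) (l 15637840)) (l 15626592))) (a (c (b (a (l 15539520) (c (b (l 15508840) (l 15508840)) (l 15489392))) (a (l 15539464) (c (b (l 15487872) (l 15508840)) (l 15489392)))) (b (l 15494520) (l 15494456))) (c (b (a (c (l 15454352) (a (l 15460464) (l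 15429768))) (l 15394848)) (c (l 15428544) (a (a (l 15460464) (l 15429768)) (l 15389056)))) (b (a (c (l 15428928) (l 15416736)) (c (a (l 15391608) (l 15365432)) (a (l 15380408) (b (l 15353448) (l 15353448))))) (a (c (l 15428928) (l 15416736)) (c (a (l 15391608) (l 15365432)) (a (l 15380408) (l 15353448)))))))) (a (b (c (l 15657304) (l 15637840)) (c (l 15657304) (l 15637840))) (a (a (b (l 15528864) (l 15528864)) (c (b (c (l 15508840) (l 15489392)) (l 15500240)) (l 15470848))) (c (b (a (c (l 15454352) (l 15440872)) (l 15394848)) (a (l 15445872) (l 15394848))) (b (a (l 15424240) (c (l 15378584) (l 15364344))) (a (l 15424240) (c (l 15378584) (l 15364344))))))))), by decide +kernel⟩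

theorem s152_pm_202 : ∃ t, chk3 f_pm_202 t 3 3 3 = true := ex3_a k150_pm_202 k151_pm_202

theorem s153_pm_202 : ∃ t, chk3 f_pm_202 t 7 3 2 = true := ex3_a k148_pm_202 k149_pm_202

theorem s154_pm_202 : ∃ t, chk3 f_pm_202 t 3 3 2 = true := ex3_a k147_pm_202 s153_pm_202

theorem s155_pm_202 : ∃ t, chk3 f_pm_202 t 3 3 1 = true := ex3_c s154_pm_202 s152_pm_202

theorem s156_pm_202 : ∃ t, chk3 f_pm_202 t 2 3 1 = true := ex3_b k145_pm_202 k146_pm_202

theorem s157_pm_202 : ∃ t, chk3 f_pm_202 t 1 3 1 = true := ex3_a s156_pm_202 s155_pm_202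

theorem s158_pm_202 : ∃ t, chk3 f_pm_202 t 15 46 1 = true := ex3_a k142_pm_202 k143_pm_202

theorem s159_pm_202 : ∃ t, chk3 f_pm_202 t 7 46 1 = true := ex3_a k141_pm_202 s158_pm_202

theorem s160_pm_202 : ∃ t, chk3 f_pm_202 t 7 23 1 = true := ex3_b s159_pm_202 k144_pm_202

theorem s161_pm_202 : ∃ t, chk3 f_pm_202 t 15 22 1 = true := ex3_c k139_pm_202 k140_pm_202

theorem s162_pm_202 : ∃ t, chk3 f_pm_202 t 7 22 1 = true := ex3_a k138_pm_202 s161_pm_202

theorem s163_pm_202 : ∃ t, chk3 f_pm_202 t 7 11 1 = true := ex3_b s162_pm_202 s160_pm_202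

theorem s164_pm_202 : ∃ t, chk3 f_pm_202 t 3 11 1 = true := ex3_a k137_pm_202 s163_pm_202

theorem s165_pm_202 : ∃ t, chk3 f_pm_202 t 31 21 3 = true := ex3_c k135_pm_202 k136_pm_202

theorem s166_pm_202 : ∃ t, chk3 f_pm_202 t 15 21 3 = true := ex3_a k134_pm_202 s165_pm_202

theorem s167_pm_202 : ∃ t, chk3 f_pm_202 t 15 21 2 = true := ex3_a k132_pm_202 k133_pm_202

theorem s168_pm_202 : ∃ t, chk3 f_pm_202 t 15 21 1 = true := ex3_c s167_pm_202 s166_pm_202

theorem s169_pm_202 : ∃ t, chk3 f_pm_202 t 7 21 1 = true := ex3_a k131_pm_202 s168_pm_202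

theorem s170_pm_202 : ∃ t, chk3 f_pm_202 t 127 20 15 = true := ex3_c k129_pm_202 k130_pm_202

theorem s171_pm_202 : ∃ t, chk3 f_pm_202 t 63 20 15 = true := ex3_a k128_pm_202 s170_pm_202

theorem s172_pm_202 : ∃ t, chk3 f_pm_202 t 31 20 15 = true := ex3_a k127_pm_202 s171_pm_202

theorem s173_pm_202 : ∃ t, chk3 f_pm_202 t 31 20 7 = true := ex3_c k126_pm_202 s172_pm_202

theorem s174_pm_202 : ∃ t, chk3 f_pm_202 t 31 41 6 = true := ex3_b k124_pm_202 k125_pm_202

theorem s175_pm_202 : ∃ t, chk3 f_pm_202 t 31 20 6 = true := ex3_b k123_pm_202 s174_pm_202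

theorem s176_pm_202 : ∃ t, chk3 f_pm_202 t 31 20 3 = true := ex3_c s175_pm_202 s173_pm_202

theorem s177_pm_202 : ∃ t, chk3 f_pm_202 t 15 20 3 = true := ex3_a k122_pm_202 s176_pm_202

theorem s178_pm_202 : ∃ t, chk3 f_pm_202 t 31 41 2 = true := ex3_a k120_pm_202 k121_pm_202

theorem s179_pm_202 : ∃ t, chk3 f_pm_202 t 31 20 2 = true := ex3_b k119_pm_202 s178_pm_202

theorem s180_pm_202 : ∃ t, chk3 f_pm_202 t 61 41 2 = true := ex3_b k117_pm_202 k118_pm_202

theorem s181_pm_202 : ∃ t, chk3 f_pm_202 t 61 20 2 = true := ex3_b k116_pm_202 s180_pm_202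

theorem s182_pm_202 : ∃ t, chk3 f_pm_202 t 30 20 2 = true := ex3_a k115_pm_202 s181_pm_202

theorem s183_pm_202 : ∃ t, chk3 f_pm_202 t 15 20 2 = true := ex3_a s182_pm_202 s179_pm_202

theorem s184_pm_202 : ∃ t, chk3 f_pm_202 t 15 20 1 = true := ex3_c s183_pm_202 s177_pm_202

theorem s185_pm_202 : ∃ t, chk3 f_pm_202 t 14 20 1 = true := ex3_b k113_pm_202 k114_pm_202

theorem s186_pm_202 : ∃ t, chk3 f_pm_202 t 7 20 1 = true := ex3_a s185_pm_202 s184_pm_202

theorem s187_pm_202 : ∃ t, chk3 f_pm_202 t 7 10 1 = true := ex3_b s186_pm_202 s169_pm_202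

theorem s188_pm_202 : ∃ t, chk3 f_pm_202 t 27 20 1 = true := ex3_b k110_pm_202 k111_pm_202

theorem s189_pm_202 : ∃ t, chk3 f_pm_202 t 13 20 1 = true := ex3_a k109_pm_202 s188_pm_202

theorem s190_pm_202 : ∃ t, chk3 f_pm_202 t 13 10 1 = true := ex3_b s189_pm_202 k112_pm_202

theorem s191_pm_202 : ∃ t, chk3 f_pm_202 t 12 20 1 = true := ex3_c k106_pm_202 k107_pm_202

theorem s192_pm_202 : ∃ t, chk3 f_pm_202 t 12 10 1 = true := ex3_b s191_pm_202 k108_pm_202

theorem s193_pm_202 : ∃ t, chk3 f_pm_202 t 6 10 1 = true := ex3_a s192_pm_202 s190_pm_202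

theorem s194_pm_202 : ∃ t, chk3 f_pm_202 t 3 10 1 = true := ex3_a s193_pm_202 s187_pm_202

theorem s195_pm_202 : ∃ t, chk3 f_pm_202 t 3 5 1 = true := ex3_b s194_pm_202 s164_pm_202

theorem s196_pm_202 : ∃ t, chk3 f_pm_202 t 4 11 1 = true := ex3_b k103_pm_202 k104_pm_202

theorem s197_pm_202 : ∃ t, chk3 f_pm_202 t 2 11 1 = true := ex3_a s196_pm_202 k105_pm_202

theorem s198_pm_202 : ∃ t, chk3 f_pm_202 t 5 21 2 = true := ex3_a k100_pm_202 k101_pm_202

theorem s199_pm_202 : ∃ t, chk3 f_pm_202 t 5 21 1 = true := ex3_c s198_pm_202 k102_pm_202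

theorem s200_pm_202 : ∃ t, chk3 f_pm_202 t 5 41 1 = true := ex3_c k98_pm_202 k99_pm_202

theorem s201_pm_202 : ∃ t, chk3 f_pm_202 t 5 40 1 = true := ex3_b k96_pm_202 k97_pm_202

theorem s202_pm_202 : ∃ t, chk3 f_pm_202 t 5 20 1 = true := ex3_b s201_pm_202 s200_pm_202

theorem s203_pm_202 : ∃ t, chk3 f_pm_202 t 5 10 1 = true := ex3_b s202_pm_202 s199_pm_202

theorem s204_pm_202 : ∃ t, chk3 f_pm_202 t 4 10 1 = true := ex3_b k94_pm_202 k95_pm_202

theorem s205_pm_202 : ∃ t, chk3 f_pm_202 t 2 10 1 = true := ex3_a s204_pm_202 s203_pm_202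

theorem s206_pm_202 : ∃ t, chk3 f_pm_202 t 2 5 1 = true := ex3_b s205_pm_202 s197_pm_202

theorem s207_pm_202 : ∃ t, chk3 f_pm_202 t 1 5 1 = true := ex3_a s206_pm_202 s195_pm_202

theorem s208_pm_202 : ∃ t, chk3 f_pm_202 t 63 39 7 = true := ex3_a k92_pm_202 k93_pm_202

theorem s209_pm_202 : ∃ t, chk3 f_pm_202 t 63 39 3 = true := ex3_c k91_pm_202 s208_pm_202

theorem s210_pm_202 : ∃ t, chk3 f_pm_202 t 31 39 3 = true := ex3_a k90_pm_202 s209_pm_202

theorem s211_pm_202 : ∃ t, chk3 f_pm_202 t 127 76 15 = true := ex3_c k87_pm_202 k88_pm_202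

theorem s212_pm_202 : ∃ t, chk3 f_pm_202 t 127 76 7 = true := ex3_c k86_pm_202 s211_pm_202

theorem s213_pm_202 : ∃ t, chk3 f_pm_202 t 63 76 7 = true := ex3_a k85_pm_202 s212_pm_202

theorem s214_pm_202 : ∃ t, chk3 f_pm_202 t 63 76 3 = true := ex3_c k84_pm_202 s213_pm_202

theorem s215_pm_202 : ∃ t, chk3 f_pm_202 t 63 38 3 = true := ex3_b s214_pm_202 k89_pm_202

theorem s216_pm_202 : ∃ t, chk3 f_pm_202 t 31 38 3 = true := ex3_a k83_pm_202 s215_pm_202

theorem s217_pm_202 : ∃ t, chk3 f_pm_202 t 31 19 3 = true := ex3_b s216_pm_202 s210_pm_202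

theorem s218_pm_202 : ∃ t, chk3 f_pm_202 t 62 19 2 = true := ex3_c k80_pm_202 k81_pm_202

theorem s219_pm_202 : ∃ t, chk3 f_pm_202 t 31 19 2 = true := ex3_a s218_pm_202 k82_pm_202

theorem s220_pm_202 : ∃ t, chk3 f_pm_202 t 31 19 1 = true := ex3_c s219_pm_202 s217_pm_202

theorem s221_pm_202 : ∃ t, chk3 f_pm_202 t 61 38 2 = true := ex3_c k76_pm_202 k77_pm_202

theorem s222_pm_202 : ∃ t, chk3 f_pm_202 t 61 19 2 = true := ex3_b s221_pm_202 k78_pm_202

theorem s223_pm_202 : ∃ t, chk3 f_pm_202 t 61 19 1 = true := ex3_c s222_pm_202 k79_pm_202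

theorem s224_pm_202 : ∃ t, chk3 f_pm_202 t 30 19 1 = true := ex3_a k75_pm_202 s223_pm_202

theorem s225_pm_202 : ∃ t, chk3 f_pm_202 t 15 19 1 = true := ex3_a s224_pm_202 s220_pm_202

theorem s226_pm_202 : ∃ t, chk3 f_pm_202 t 29 38 4 = true := ex3_b k70_pm_202 k71_pm_202

theorem s227_pm_202 : ∃ t, chk3 f_pm_202 t 29 38 2 = true := ex3_c s226_pm_202 k72_pm_202

theorem s228_pm_202 : ∃ t, chk3 f_pm_202 t 29 19 2 = true := ex3_b s227_pm_202 k73_pm_202

theorem s229_pm_202 : ∃ t, chk3 f_pm_202 t 28 38 2 = true := ex3_c k67_pm_202 k68_pm_202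

theorem s230_pm_202 : ∃ t, chk3 f_pm_202 t 28 19 2 = true := ex3_b s229_pm_202 k69_pm_202

theorem s231_pm_202 : ∃ t, chk3 f_pm_202 t 14 19 2 = true := ex3_a s230_pm_202 s228_pm_202

theorem s232_pm_202 : ∃ t, chk3 f_pm_202 t 14 19 1 = true := ex3_c s231_pm_202 k74_pm_202

theorem s233_pm_202 : ∃ t, chk3 f_pm_202 t 7 19 1 = true := ex3_a s232_pm_202 s225_pm_202

theorem s234_pm_202 : ∃ t, chk3 f_pm_202 t 63 37 3 = true := ex3_c k65_pm_202 k66_pm_202

theorem s235_pm_202 : ∃ t, chk3 f_pm_202 t 63 36 3 = true := ex3_c k63_pm_202 k64_pm_202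

theorem s236_pm_202 : ∃ t, chk3 f_pm_202 t 63 18 3 = true := ex3_b s235_pm_202 s234_pm_202

theorem s237_pm_202 : ∃ t, chk3 f_pm_202 t 62 18 3 = true := ex3_c k61_pm_202 k62_pm_202

theorem s238_pm_202 : ∃ t, chk3 f_pm_202 t 31 18 3 = true := ex3_a s237_pm_202 s236_pm_202

theorem s239_pm_202 : ∃ t, chk3 f_pm_202 t 15 18 3 = true := ex3_a k60_pm_202 s238_pm_202

theorem s240_pm_202 : ∃ t, chk3 f_pm_202 t 31 37 2 = true := ex3_a k58_pm_202 k59_pm_202

theorem s241_pm_202 : ∃ t, chk3 f_pm_202 t 62 36 4 = true := ex3_c k54_pm_202 k55_pm_202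

theorem s242_pm_202 : ∃ t, chk3 f_pm_202 t 62 36 2 = true := ex3_c s241_pm_202 k56_pm_202

theorem s243_pm_202 : ∃ t, chk3 f_pm_202 t 31 36 2 = true := ex3_a s242_pm_202 k57_pm_202

theorem s244_pm_202 : ∃ t, chk3 f_pm_202 t 31 18 2 = true := ex3_b s243_pm_202 s240_pm_202

theorem s245_pm_202 : ∃ t, chk3 f_pm_202 t 61 37 4 = true := ex3_c k51_pm_202 k52_pm_202

theorem s246_pm_202 : ∃ t, chk3 f_pm_202 t 60 37 4 = true := ex3_c k49_pm_202 k50_pm_202

theorem s247_pm_202 : ∃ t, chk3 f_pm_202 t 30 37 4 = true := ex3_a s246_pm_202 s245_pm_202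

theorem s248_pm_202 : ∃ t, chk3 f_pm_202 t 30 37 2 = true := ex3_c s247_pm_202 k53_pm_202

theorem s249_pm_202 : ∃ t, chk3 f_pm_202 t 30 36 5 = true := ex3_a k47_pm_202 k48_pm_202

theorem s250_pm_202 : ∃ t, chk3 f_pm_202 t 61 36 9 = true := ex3_a k45_pm_202 k46_pm_202

theorem s251_pm_202 : ∃ t, chk3 f_pm_202 t 61 36 4 = true := ex3_c k44_pm_202 s250_pm_202

theorem s252_pm_202 : ∃ t, chk3 f_pm_202 t 30 36 4 = true := ex3_a k43_pm_202 s251_pm_202

theorem s253_pm_202 : ∃ t, chk3 f_pm_202 t 30 36 2 = true := ex3_c s252_pm_202 s249_pm_202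

theorem s254_pm_202 : ∃ t, chk3 f_pm_202 t 30 18 2 = true := ex3_b s253_pm_202 s248_pm_202

theorem s255_pm_202 : ∃ t, chk3 f_pm_202 t 15 18 2 = true := ex3_a s254_pm_202 s244_pm_202

theorem s256_pm_202 : ∃ t, chk3 f_pm_202 t 15 18 1 = true := ex3_c s255_pm_202 s239_pm_202

theorem s257_pm_202 : ∃ t, chk3 f_pm_202 t 29 36 6 = true := ex3_a k39_pm_202 k40_pm_202

theorem s258_pm_202 : ∃ t, chk3 f_pm_202 t 29 36 3 = true := ex3_c s257_pm_202 k41_pm_202

theorem s259_pm_202 : ∃ t, chk3 f_pm_202 t 29 18 3 = true := ex3_b s258_pm_202 k42_pm_202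

theorem s260_pm_202 : ∃ t, chk3 f_pm_202 t 28 36 7 = true := ex3_a k36_pm_202 k37_pm_202

theorem s261_pm_202 : ∃ t, chk3 f_pm_202 t 28 36 3 = true := ex3_c k35_pm_202 s260_pm_202

theorem s262_pm_202 : ∃ t, chk3 f_pm_202 t 28 18 3 = true := ex3_b s261_pm_202 k38_pm_202

theorem s263_pm_202 : ∃ t, chk3 f_pm_202 t 14 18 3 = true := ex3_a s262_pm_202 s259_pm_202

theorem s264_pm_202 : ∃ t, chk3 f_pm_202 t 29 37 2 = true := ex3_c k33_pm_202 k34_pm_202

theorem s265_pm_202 : ∃ t, chk3 f_pm_202 t 29 18 2 = true := ex3_b k32_pm_202 s264_pm_202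

theorem s266_pm_202 : ∃ t, chk3 f_pm_202 t 14 18 2 = true := ex3_a k31_pm_202 s265_pm_202

theorem s267_pm_202 : ∃ t, chk3 f_pm_202 t 14 18 1 = true := ex3_c s266_pm_202 s263_pm_202

theorem s268_pm_202 : ∃ t, chk3 f_pm_202 t 7 18 1 = true := ex3_a s267_pm_202 s256_pm_202

theorem s269_pm_202 : ∃ t, chk3 f_pm_202 t 7 9 1 = true := ex3_b s268_pm_202 s233_pm_202

theorem s270_pm_202 : ∃ t, chk3 f_pm_202 t 13 39 1 = true := ex3_c k29_pm_202 k30_pm_202

theorem s271_pm_202 : ∃ t, chk3 f_pm_202 t 27 38 1 = true := ex3_c k27_pm_202 k28_pm_202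

theorem s272_pm_202 : ∃ t, chk3 f_pm_202 t 13 38 1 = true := ex3_a k26_pm_202 s271_pm_202

theorem s273_pm_202 : ∃ t, chk3 f_pm_202 t 13 19 1 = true := ex3_b s272_pm_202 s270_pm_202

theorem s274_pm_202 : ∃ t, chk3 f_pm_202 t 12 39 3 = true := ex3_c k24_pm_202 k25_pm_202

theorem s275_pm_202 : ∃ t, chk3 f_pm_202 t 12 19 3 = true := ex3_b k23_pm_202 s274_pm_202

theorem s276_pm_202 : ∃ t, chk3 f_pm_202 t 12 19 1 = true := ex3_c k22_pm_202 s275_pm_202

theorem s277_pm_202 : ∃ t, chk3 f_pm_202 t 6 19 1 = true := ex3_a s276_pm_202 s273_pm_202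

theorem s278_pm_202 : ∃ t, chk3 f_pm_202 t 27 37 3 = true := ex3_c k20_pm_202 k21_pm_202

theorem s279_pm_202 : ∃ t, chk3 f_pm_202 t 27 37 1 = true := ex3_c k19_pm_202 s278_pm_202

theorem s280_pm_202 : ∃ t, chk3 f_pm_202 t 13 37 1 = true := ex3_a k18_pm_202 s279_pm_202

theorem s281_pm_202 : ∃ t, chk3 f_pm_202 t 13 18 1 = true := ex3_b k17_pm_202 s280_pm_202

theorem s282_pm_202 : ∃ t, chk3 f_pm_202 t 6 18 1 = true := ex3_a k16_pm_202 s281_pm_202

theorem s283_pm_202 : ∃ t, chk3 f_pm_202 t 6 9 1 = true := ex3_b s282_pm_202 s277_pm_202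

theorem s284_pm_202 : ∃ t, chk3 f_pm_202 t 3 9 1 = true := ex3_a s283_pm_202 s269_pm_202

theorem s285_pm_202 : ∃ t, chk3 f_pm_202 t 31 71 1 = true := ex3_b k14_pm_202 k15_pm_202

theorem s286_pm_202 : ∃ t, chk3 f_pm_202 t 31 35 1 = true := ex3_b k13_pm_202 s285_pm_202

theorem s287_pm_202 : ∃ t, chk3 f_pm_202 t 30 35 1 = true := ex3_a k11_pm_202 k12_pm_202

theorem s288_pm_202 : ∃ t, chk3 f_pm_202 t 15 35 1 = true := ex3_a s287_pm_202 s286_pm_202

theorem s289_pm_202 : ∃ t, chk3 f_pm_202 t 15 17 1 = true := ex3_b k10_pm_202 s288_pm_202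

theorem s290_pm_202 : ∃ t, chk3 f_pm_202 t 58 35 7 = true := ex3_b k7_pm_202 k8_pm_202

theorem s291_pm_202 : ∃ t, chk3 f_pm_202 t 29 35 7 = true := ex3_a s290_pm_202 k9_pm_202

theorem s292_pm_202 : ∃ t, chk3 f_pm_202 t 29 35 3 = true := ex3_c k6_pm_202 s291_pm_202

theorem s293_pm_202 : ∃ t, chk3 f_pm_202 t 29 35 1 = true := ex3_c k5_pm_202 s292_pm_202

theorem s294_pm_202 : ∃ t, chk3 f_pm_202 t 14 35 1 = true := ex3_a k4_pm_202 s293_pm_202

theorem s295_pm_202 : ∃ t, chk3 f_pm_202 t 14 17 1 = true := ex3_b k3_pm_202 s294_pm_202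

theorem s296_pm_202 : ∃ t, chk3 f_pm_202 t 7 17 1 = true := ex3_a s295_pm_202 s289_pm_202

theorem s297_pm_202 : ∃ t, chk3 f_pm_202 t 7 8 1 = true := ex3_b k2_pm_202 s296_pm_202

theorem s298_pm_202 : ∃ t, chk3 f_pm_202 t 3 8 1 = true := ex3_a k1_pm_202 s297_pm_202

theorem s299_pm_202 : ∃ t, chk3 f_pm_202 t 3 4 1 = true := ex3_b s298_pm_202 s284_pm_202

theorem s300_pm_202 : ∃ t, chk3 f_pm_202 t 1 4 1 = true := ex3_a k0_pm_202 s299_pm_202

theorem s301_pm_202 : ∃ t, chk3 f_pm_202 t 1 2 1 = true := ex3_b s300_pm_202 s207_pm_202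

theorem s302_pm_202 : ∃ t, chk3 f_pm_202 t 1 1 1 = true := ex3_b s301_pm_202 s157_pm_202

theorem c_pm_202 : CertNX 0 536870912 0 536870912 1046898278 26843546 3 true true false .pp 2 0 2
    ndN0q2 ndN0q0 pcN2 cut_pm_202 Ext.none :=
  certNX1 (fam := true) (s1 := true) (s2 := false) (a := 2) (b := 0) (c := 2) (cn := .pp) (n1 := ndN0q2) (n2 := ndN0q0) (pc := pcN2) (cut := cut_pm_202) (xt := Ext.none) (P1 := 0) (W1 := 536870912) (P2 := 0) (W2 := 536870912) (P3 := 1046898278) (W3 := 26843546) (N0 := 3)
    rfl (fun _ => rfl) s302_pm_202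

end Pool.Agent.Strip051.G.IE1.Tab.C.NA00

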