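import Pool.Agent.Strip051.G.IE1.StNdD

/-! # Strips StNd17 (generated) -/

set_option linter.all false
set_option maxRecDepth 100000

namespace Pool.Agent.Strip051.G.IE1.Tab.StN.C

open Pool.Agent.Strip051.PB Pool.Agent.Strip051.PB.T
open Pool.Agent.StripNear Pool.Agent.Strip051.LC
open Pool.Agent.Strip051.G.IE1.Tab Pool.Agent.Strip051.G.IE1.Tab.St Pool.Agent.Strip051.G.IE1.Tab.StN

def k1274_A07pm_011_s1 : ∃ t, chk3 f_A07pm_011_s1 t 127 29 3 = true :=
  ⟨(c (b (a (a (c (l 16393816) (b (l 16413960) (a (c (l 16538904) (l 16533352)) (l 16523200)))) (l 16357728)) (l 16388032)) (a (a (a (c (l 16687416) (c (l 16681752) (l 16592192))) (l 16594800)) (b (b (l 16658160) (l 16670352)) (l 16597464))) (b (a (l 16562256) (l 16537528)) (l 16666040)))) (a (b (c (a (c (b (a (l 16418896) (l 16483800)) (a (c (l 16536120) (l 16540600)) (l 16498136))) (l 16471896)) (c (l 16436072) (a (l 16359208) (l 16340856)))) (l 16368832)) (c (a (c (a (c (l 16595312) (l 16684088)) (c (l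 16587528) (l 16590760))) (l 16681408)) (c (b (b (l 16569936) (l 16666024)) (l 16593072)) (a (b (l 16578568) (l 16594064)) (b (c (l 16569984) (l 16571400)) (c (l 16671624) (l 16589240)))))) (a (l 16681136) (l 16585416)))) (c (b (a (l 16318000) (l 16450336)) (b (a (b (l 16548408) (l 16574424)) (l 16536408)) (a (l 16669240) (l 16659648)))) (b (c (a (a (l 16407560) (c (l 16474304) (l 16389688))) (l 16364232)) (a (l 16482936) (a (l 16373368) (c (l 16438264) (l 16354032))))) (a (a (b (b (l 16554768) (l 16575040)) (l 16585984)) (c (b (c (l 16554064) (b (l 16540000) (l 16653792))) (c (l 16665048) (l 16580792))) (l 16567776))) (c (b (l 16535224) (l 16658656)) (b (a (b (l 16525024) (l 16565816)) (c (l 16529664) (b (l 16505424) (l 16555352)))) (a (l 16662272) (c (l 16655944) (l 16572184)))))))))), by decide +kernel⟩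

def k1275_A07pm_011_s1 : ∃ t, chk3 f_A07pm_011_s1 t 30 15 1 = true :=
  ⟨(l 3), by decide +kernel⟩

def k1276_A07pm_011_s1 : ∃ t, chk3 f_A07pm_011_s1 t 124 60 4 = true :=
  ⟨(l 3), by decide +kernel⟩

def k1277_A07pm_011_s1 : ∃ t, chk3 f_A07pm_011_s1 t 500 120 4 = true :=
  ⟨(l 3), by decide +kernel⟩

def k1278_A07pm_011_s1 : ∃ t, chk3 f_A07pm_011_s1 t 501 240 8 = true :=
  ⟨(a (b (a (b (c (c (b (b (b (a (a (l 3) (a (l 3) (c (l 769503783255) (l 767893170471)))) (a (l 247128385687) (l 16770792))) (l 14)) (l 14)) (l 14)) (b (b (b (a (a (l 3) (a (l 3) (c (l 765745686759) (l 763598203063)))) (a (l 246591514775) (l 16770800))) (l 14)) (l 14)) (l 14))) (b (a (a (l 3) (a (l 3) (b (b (c (c (l 761450719351) (l 759840106567)) (c (l 758229493783) (l 756082010071))) (l 3)) (l 3)))) (b (b (b (c (l 16776384) (l 16776392)) (l 14)) (l 14)) (l 14))) (l 14))) (l 3)) (b (b (b (c (a (a (l 16770136) (l 16774584)) (a (l 16773784) (l 16762488))) (c (l 16763744) (l 16763768)))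 (l 14)) (l 14)) (l 14))) (l 14)) (b (b (b (b (c (a (c (a (c (l 16760664) (l 16771776)) (l 16758520)) (l 16771016)) (c (l 16722744) (l 16746400))) (l 16748544)) (l 14)) (l 14)) (l 14)) (l 14))), by decide +kernel⟩

def k1279_A07pm_011_s1 : ∃ t, chk3 f_A07pm_011_s1 t 501 240 18 = true :=
  ⟨(a (b (b (b (b (b (c (a (a (c (c (l 511567119) (l 511623439)) (c (l 511679759) (l 511736079))) (l 241222804903)) (l 16763656)) (a (a (c (c (l 511792399) (l 511848975)) (c (l 511905295) (l 511962127))) (l 240149063095)) (l 16763688))) (l 14)) (l 14)) (l 14)) (l 14)) (l 14)) (b (a (b (l 16761512) (l 14)) (l 16759480)) (l 14))), by decide +kernel⟩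

def k1280_A07pm_011_s1 : ∃ t, chk3 f_A07pm_011_s1 t 501 240 38 = true :=
  ⟨(b (b (b (b (b (a (a (a (c (c (l 512018703) (l 512075279)) (c (l 512132111) (l 512188943))) (l 239075321287)) (l 16763712)) (l 16748648)) (l 14)) (l 14)) (l 14)) (l 14)) (l 14)), by decide +kernel⟩

def k1281_A07pm_011_s1 : ∃ t, chk3 f_A07pm_011_s1 t 1002 240 39 = true :=
  ⟨(b (b (c (c (a (c (l 512128271) (l 512156687)) (a (b (l 16764880) (l 14)) (l 16763888))) (a (c (l 512185103) (l 512213775)) (a (b (l 16764880) (l 14)) (l 16763896)))) (c (a (c (l 512242191) (l 512270863)) (b (a (a (l 16765264) (b (b (c (l 16774608) (a (l 16774800) (c (l 16774416) (b (c (l 16774368) (a (l 16774576) (l 16769424))) (l 14))))) (l 14)) (l 14))) (b (b (b (b (c (a (l 16773752) (c (l 16773000) (a (l 16773272) (l 16762928)))) (c (a (a (l 16773976) (c (l 16773640) (l 16763680))) (l 16762592)) (a (a (c (l 16763960) (l 16753152)) (l 16752152)) (l 16728688)))) (l 14)) (l 14)) (l 14)) (l 14))) (l 14))) (a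 (c (l 463947471) (l 449843407)) (b (b (a (c (b (b (b (b (a (c (c (l 16775248) (l 470072271)) (a (l 470064335) (l 16763896))) (c (a (c (l 16769800) (l 16753696)) (l 16752696)) (l 16750944))) (l 14)) (l 14)) (l 14)) (l 14)) (b (b (a (c (a (l 470048463) (l 16751432)) (l 16760160)) (l 16747640)) (l 14)) (l 14))) (b (b (c (a (l 16749488) (l 16725184)) (l 16742640)) (l 14)) (l 14))) (l 14)) (l 14))))) (l 14)) (l 14)), by decide +kernel⟩

def k1282_A07pm_011_s1 : ∃ t, chk3 f_A07pm_011_s1 t 1003 240 39 = true :=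
  ⟨(b (b (c (a (b (b (b (b (c (l 16771120) (a (a (l 16772272) (c (l 16771504) (c (l 16771528) (a (l 16771944) (l 16751240))))) (c (a (l 16770784) (c (l 16770088) (l 16760560))) (a (c (l 16761136) (l 16729384)) (l 16727400))))) (l 14)) (l 14)) (l 14)) (l 14)) (b (b (b (b (c (a (c (l 16768832) (a (l 16769344) (l 16759056))) (c (a (l 16767952) (l 16747408)) (l 16746952))) (b (b (l 16742040) (l 14)) (l 14))) (l 14)) (l 14)) (l 14)) (l 14))) (b (a (b (b (b (c (c (a (a (c (a (l 16772608) (l 16762296)) (l 16762168)) (l 16749768)) (l 16723904)) (a (l 16725376) (l 16760664))) (c (l 16737832) (l 16732648))) (l 14)) (l 14)) (l 14)) (b (b (c (l 16712104) (l 16701720)) (l 14)) (l 14))) (l 14))) (l 14)) (l 14)), by decide +kernel⟩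

def k1283_A07pm_011_s1 : ∃ t, chk3 f_A07pm_011_s1 t 501 241 4 = true :=
  ⟨(l 14), by decide +kernel⟩

def k1284_A07pm_011_s1 : ∃ t, chk3 f_A07pm_011_s1 t 250 121 4 = true :=
  ⟨(l 3), by decide +kernel⟩

def k1285_A07pm_011_s1 : ∃ t, chk3 f_A07pm_011_s1 t 251 60 4 = true :=
  ⟨(b (c (b (b (b (b (a (a (c (l 16736664) (a (l 16722992) (l 16739976))) (a (l 16731256) (l 16662488))) (l 16647064)) (l 14)) (l 14)) (l 14)) (l 14)) (b (c (a (b (a (l 16744312) (a (l 16760560) (a (l 16758152) (c (l 16756016) (b (l 16734888) (l 14)))))) (l 14)) (b (b (b (b (c (a (l 16747184) (a (l 16738080) (c (l 16730872) (l 16692760)))) (a (c (a (l 16752216) (l 16727360)) (a (c (l 16753392) (l 16737168)) (c (l 16734224) (l 16665288)))) (c (a (c (l 16700584) (l 16665472)) (l 16665032)) (l 16655240)))) (l 14)) (l 14)) (l 14)) (l 14))) (b (c (a (a (b (b (b (b (c (a (l 16764976) (l 16720048)) (a (c (l 16765056) (a (c (l 16765824) (a (l 16766616) (l 16746096))) (c (l 16755400) (l 16723864))))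 (c (a (c (l 16762856) (l 16743712)) (l 16743800)) (l 16674712)))) (l 14)) (l 14)) (l 14)) (l 14)) (b (b (b (a (c (c (l 16759200) (a (c (l 16760056) (l 16741056)) (l 16742160))) (l 16710080)) (c (c (a (l 16737952) (l 16718808)) (l 16670576)) (l 16655040))) (l 14)) (l 14)) (l 14))) (b (b (b (a (c (l 16656048) (l 16635216)) (l 16621424)) (l 14)) (l 14)) (l 14))) (b (b (b (b (a (a (c (a (c (l 16740376) (l 16667256)) (l 16659184)) (c (l 16692160) (l 16681752))) (c (l 16639296) (l 16618432))) (l 16631208)) (l 14)) (l 14)) (l 14)) (l 14))) (l 14))) (l 14))) (l 14)), by decide +kernel⟩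

def k1286_A07pm_011_s1 : ∃ t, chk3 f_A07pm_011_s1 t 124 60 5 = true :=
  ⟨(l 3), by decide +kernel⟩

def k1287_A07pm_011_s1 : ∃ t, chk3 f_A07pm_011_s1 t 500 240 20 = true :=
  ⟨(l 3), by decide +kernel⟩

def k1288_A07pm_011_s1 : ∃ t, chk3 f_A07pm_011_s1 t 501 240 40 = true :=
  ⟨(a (b (b (c (b (c (a (b (b (c (l 463155535) (l 466721935)) (l 14)) (l 14)) (b (b (b (c (c (c (b (b (a (a (l 471228239) (l 16765392)) (l 16760392)) (l 14)) (l 14)) (l 16753864)) (l 16754936)) (a (c (l 16759696) (l 16761120)) (l 16764224))) (l 14)) (l 14)) (l 14))) (c (b (a (l 468697999) (a (a (a (c (l 470718863) (l 470699151)) (l 16764160)) (l 16751184)) (l 16746176))) (l 14)) (b (a (l 521696015) (a (a (c (c (l 470684047) (l 16776184)) (l 16776160)) (a (c (l 16764632) (a (l 16775928) (l 16765464))) (l 16753200))) (l 16749024))) (l 14)))) (l 14)) (a (c (c (l 456506511) (l 464532367)) (c (l 521355023) (l 521258255))) (b (b (b (a (a (l 16776064) (a (l 16775720) (c (c (c (l 16765320)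 (l 16775504)) (l 16775496)) (l 16775480)))) (c (a (c (a (a (l 16764944) (l 16753848)) (l 16731696)) (a (l 16775272) (l 16764824))) (a (l 16762792) (l 16729776))) (a (l 16775136) (c (l 16769696) (l 16774672))))) (l 14)) (l 14)) (l 14)))) (l 14)) (l 14)) (b (c (b (a (b (b (b (b (b (b (c (l 16742304) (l 16716520)) (l 14)) (l 14)) (l 14)) (l 14)) (l 14)) (l 14)) (b (b (b (b (b (l 16721328) (l 14)) (l 14)) (l 14)) (l 14)) (l 14))) (l 14)) (b (b (b (a (c (c (l 16741848) (l 16723728)) (a (a (c (l 16752472) (l 16769368)) (l 16750608)) (l 16724656))) (l 16711776)) (l 14)) (l 14)) (l 14))) (l 14))), by decide +kernel⟩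

def k1289_A07pm_011_s1 : ∃ t, chk3 f_A07pm_011_s1 t 501 240 41 = true :=
  ⟨(c (a (b (b (b (a (a (c (l 521090063) (l 520896527)) (b (b (l 236390967271) (l 14)) (l 14))) (l 16775576)) (l 14)) (l 14)) (l 14)) (b (b (b (a (a (a (l 16774424) (c (c (a (l 16774160) (l 16753416)) (l 16773976)) (l 16773944))) (c (a (c (l 16730672) (l 16763488)) (l 16728776)) (a (l 16773488) (l 16762912)))) (a (a (c (l 16767376) (l 16762056)) (l 16682992)) (l 16677960))) (l 14)) (l 14)) (l 14))) (b (b (b (a (a (a (c (l 520702735) (l 520508943)) (b (b (l 235854096327) (l 14)) (l 14))) (l 16775536)) (a (l 16773648) (a (a (l 16772504) (c (l 16751592) (l 16772024))) (c (l 16749128) (l 16761328))))) (l 14)) (l 14)) (l 14))), by decide +kernel⟩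

def k1290_A07pm_011_s1 : ∃ t, chk3 f_A07pm_011_s1 t 250 241 20 = true :=
  ⟨(l 14), by decide +kernel⟩

def k1291_A07pm_011_s1 : ∃ t, chk3 f_A07pm_011_s1 t 251 120 20 = true :=
  ⟨(b (a (c (b (a (b (b (b (b (b (a (l 16713672) (l 16679352)) (l 14)) (l 14)) (l 14)) (l 14)) (l 14)) (b (b (b (b (a (l 16687064) (l 16652760)) (l 14)) (l 14)) (l 14)) (l 14))) (l 14)) (a (c (b (c (l 16721872) (l 16706576)) (l 14)) (b (a (c (l 16718976) (b (b (b (b (b (a (c (l 16767784) (a (l 16760640) (l 16728120))) (c (l 16740960) (l 16683496))) (l 14)) (l 14)) (l 14)) (l 14)) (l 14))) (b (b (b (b (c (a (c (l 16748696) (l 16731344)) (c (l 16742776) (l 16747952))) (l 16717440)) (l 14)) (l 14)) (l 14)) (l 14))) (l 14))) (b (b (b (b (b (c (a (c (l 16722048) (a (l 16710632) (c (l 16723720) (l 16728888)))) (c (a (l 16712576) (l 16686592)) (l 16721256))) (c (l 16695520) (l 16666984))) (l 14)) (l 14)) (l 14)) (l 14)) (l 14)))) (b (c (c (b (b (b (b (a (l 16669208) (c (a (l 16646608) (c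 (l 16632712) (l 16636656))) (a (a (l 16655768) (l 16650792)) (l 16645528)))) (l 14)) (l 14)) (l 14)) (l 14)) (b (b (b (a (a (c (l 16684144) (a (l 16693576) (c (l 16685664) (l 16690416)))) (c (a (l 16674632) (l 16648464)) (l 16682656))) (l 16625576)) (l 14)) (l 14)) (l 14))) (b (b (b (b (c (l 16616704) (l 16643536)) (l 14)) (l 14)) (l 14)) (l 14))) (l 14))) (l 14)), by decide +kernel⟩

def k1292_A07pm_011_s1 : ∃ t, chk3 f_A07pm_011_s1 t 500 240 42 = true :=
  ⟨(l 3), by decide +kernel⟩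

def k1293_A07pm_011_s1 : ∃ t, chk3 f_A07pm_011_s1 t 501 240 84 = true :=
  ⟨(a (b (b (b (a (a (c (l 520314895) (l 520120847)) (b (b (l 235317225399) (l 14)) (l 14))) (l 16775496)) (l 14)) (l 14)) (l 14)) (b (b (a (b (b (b (b (c (l 16773288) (a (c (l 16773728) (a (c (l 16773960) (a (l 16773944) (l 16762832))) (c (a (l 16773464) (l 16751872)) (l 16750856)))) (c (a (c (l 16773024) (l 16762120)) (c (l 16772144) (l 16728960))) (l 16748152)))) (l 14)) (l 14)) (l 14)) (l 14)) (b (b (b (b (c (a (c (l 16771912) (a (l 16750848) (l 16760000))) (c (a (l 16770936) (l 16748648)) (l 16725400))) (l 16742712)) (l 14)) (l 14)) (l 14)) (l 14))) (l 14)) (l 14))), by decide +kernel⟩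

def k1294_A07pm_011_s1 : ∃ t, chk3 f_A07pm_011_s1 t 501 240 85 = true :=
  ⟨(a (b (b (c (a (c (l 519996943) (l 486385871)) (b (a (b (b (b (b (c (l 16775640) (a (c (l 16775888) (c (l 486623439) (l 486601679))) (c (a (c (l 16775512) (a (l 16775504) (l 16764704))) (c (l 16769808) (l 16763952))) (l 16763072)))) (l 14)) (l 14)) (l 14)) (l 14)) (b (b (b (b (c (a (c (l 16774896) (a (l 16769624) (c (l 16774560) (l 16752976)))) (c (a (l 16774384) (l 16763208)) (l 16751608))) (a (a (l 16762192) (l 16771432)) (l 16769528))) (l 14)) (l 14)) (l 14)) (l 14))) (l 14))) (a (c (l 482271951) (l 479204175)) (b (a (b (b (b (b (c (a (a (a (l 486524111) (l 16752408)) (l 16751456)) (l 16749536)) (c (c (c (l 16764272) (l 16758928)) (l 16769768)) (l 16770496))) (l 14)) (l 14)) (l 14)) (l 14)) (b (b (b (b (b (b (c (l 16766488) (l 16759672)) (l 14)) (l 14)) (l 14)) (l 14)) (l 14)) (l 14))) (l 14)))) (l 14)) (l 14)) (b (b (b (a (b (b (b (b (c (l 16744280) (c (l 16759088) (a (l 16754656)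 (l 16754832)))) (l 14)) (l 14)) (l 14)) (l 14)) (b (b (b (c (l 16755472) (c (l 16749280) (l 16736896))) (l 14)) (l 14)) (l 14))) (l 14)) (l 14)) (l 14))), by decide +kernel⟩

def k1295_A07pm_011_s1 : ∃ t, chk3 f_A07pm_011_s1 t 250 241 42 = true :=
  ⟨(l 14), by decide +kernel⟩

def k1296_A07pm_011_s1 : ∃ t, chk3 f_A07pm_011_s1 t 251 120 42 = true :=
  ⟨(b (a (b (c (b (b (b (b (b (a (a (a (a (l 16719656) (l 16738624)) (c (l 16679480) (l 16731016))) (l 16673552)) (l 16675192)) (l 14)) (l 14)) (l 14)) (l 14)) (l 14)) (b (b (b (b (a (c (a (l 16746032) (a (l 16718488) (l 16738168))) (c (a (l 16739824) (a (l 16732368) (l 16728784))) (a (l 16727152) (c (a (l 16729920) (l 16725296)) (l 16727832))))) (c (l 16739544) (c (l 16729488) (l 16724736)))) (l 14)) (l 14)) (l 14)) (l 14))) (l 14)) (b (b (b (c (l 16667688) (c (l 16662216) (c (l 16736072) (l 16688552)))) (l 14)) (l 14)) (l 14))) (l 14)), by decide +kernel⟩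

def k1297_A07pm_011_s1 : ∃ t, chk3 f_A07pm_011_s1 t 125 120 43 = true :=
  ⟨(a (b (a (l 3) (a (b (b (c (c (b (b (c (a (l 483101839) (a (l 16761696) (l 16767072))) (a (l 483072143) (a (a (c (a (l 483140239) (l 16774296)) (c (l 483138191) (l 483130255))) (l 16751896)) (l 16769032)))) (l 14)) (l 14)) (a (c (l 482970511) (l 482947215)) (b (b (b (a (a (l 16775448) (c (a (c (l 16769400) (l 16774912)) (c (l 16773568) (l 16763832))) (l 16774736))) (a (c (l 16772144) (a (l 16768816) (c (l 16772968) (l 16752680)))) (l 16728624))) (l 14)) (l 14)) (l 14)))) (b (b (b (a (a (c (l 513422607) (l 513416463)) (l 16776520)) (a (l 16775088) (a (l 16774016) (c (c (a (l 16762896) (l 16762136)) (l 16773304)) (l 16773304))))) (l 14)) (l 14)) (l 14))) (l 14)) (l 14)) (b (b (b (b (c (a (l 16720424) (l 16752240)) (a (a (c (a (c (l 16771056) (a (l 16772816) (l 16751128))) (l 16727536)) (a (l 16772720) (c (l 16761232) (l 16772008)))) (a (c (l 16766944) (c (l 16769840) (l 16750080)))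 (l 16724384))) (l 16676112))) (l 14)) (l 14)) (l 14)) (l 14)))) (l 14)) (b (b (b (b (b (a (a (l 16657144) (a (c (a (l 16725600) (l 16723400)) (l 16729920)) (c (l 16723408) (a (l 16723600) (l 16721696))))) (l 16724888)) (l 14)) (l 14)) (l 14)) (l 14)) (l 14))), by decide +kernel⟩

def k1298_A07pm_011_s1 : ∃ t, chk3 f_A07pm_011_s1 t 125 121 10 = true :=
  ⟨(l 14), by decide +kernel⟩

def k1299_A07pm_011_s1 : ∃ t, chk3 f_A07pm_011_s1 t 125 120 22 = true :=
  ⟨(a (b (a (l 3) (c (c (b (b (b (b (b (a (a (a (c (l 513410319) (l 513404431)) (l 16776520)) (l 16753400)) (a (a (l 16772240) (l 16760264)) (a (c (c (l 16725288) (l 16758112)) (l 16727384)) (c (l 16763160) (l 16756024))))) (l 14)) (l 14)) (l 14)) (l 14)) (l 14)) (b (b (b (a (a (a (c (l 513378063) (l 513371919)) (b (b (l 16776520) (l 14)) (l 14))) (l 16764256)) (a (l 16771896) (l 16727096))) (l 14)) (l 14)) (l 14))) (b (b (b (b (b (a (a (a (a (l 3) (l 695952461303)) (l 16776512)) (l 16753400)) (l 16770104))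 (l 14)) (l 14)) (l 14)) (l 14)) (l 14)))) (l 14)) (b (a (b (b (b (a (c (a (c (l 16673976) (a (c (l 16755104) (l 16766912)) (c (l 16761128) (l 16743328)))) (l 16667744)) (a (l 16766224) (c (a (c (l 16721064) (l 16764112)) (l 16739104)) (l 16763408)))) (a (c (l 16741600) (c (l 16753096) (a (l 16718760) (l 16715592)))) (l 16655296))) (l 14)) (l 14)) (l 14)) (b (a (c (a (c (a (l 16723200) (l 16721584)) (l 16726992)) (c (l 16722040) (l 16710536))) (l 16691480)) (c (l 16722424) (a (c (l 16719264) (l 16722592)) (l 16718504)))) (l 14))) (l 14))), by decide +kernel⟩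

def k1300_A07pm_011_s1 : ∃ t, chk3 f_A07pm_011_s1 t 125 120 23 = true :=
  ⟨(a (b (b (b (b (b (b (a (l 3) (a (a (a (a (l 3) (c (l 693804977431) (l 691120622647))) (l 16771272)) (l 16753392)) (l 16770088))) (l 14)) (l 14)) (l 14)) (l 14)) (l 14)) (l 14)) (b (b (a (a (l 16724328) (a (l 16762048) (c (c (a (l 16717536) (l 16714496)) (l 16759248)) (l 16759240)))) (a (c (a (c (l 16749728) (a (l 16672896) (l 16669984))) (l 16659624)) (a (l 16756448) (c (l 16710456) (l 16753664)))) (c (l 16645000) (a (c (l 16744872) (l 16665880)) (l 16654800))))) (l 14)) (l 14))), by decide +kernel⟩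

def k1301_A07pm_011_s1 : ∃ t, chk3 f_A07pm_011_s1 t 125 121 11 = true :=
  ⟨(l 14), by decide +kernel⟩

def k1302_A07pm_011_s1 : ∃ t, chk3 f_A07pm_011_s1 t 62 61 2 = true :=
  ⟨(l 14), by decide +kernel⟩

def k1303_A07pm_011_s1 : ∃ t, chk3 f_A07pm_011_s1 t 126 60 4 = true :=
  ⟨(c (b (a (b (b (b (b (c (l 16605872) (a (a (l 16716680) (c (l 16702344) (c (l 16705472) (a (l 16710944) (l 16665912))))) (c (a (l 16690128) (c (l 16676904) (l 16641728))) (a (c (l 16675880) (l 16668472)) (l 16625696))))) (l 14)) (l 14)) (l 14)) (l 14)) (b (b (b (b (c (a (c (l 16647464) (a (l 16659784) (c (l 16644624) (l 16653904)))) (c (a (l 16626880) (l 16577728)) (l 16611016))) (a (c (a (c (l 16669336) (l 16685408)) (l 16598904)) (l 16641128)) (l 16637080))) (l 14)) (l 14)) (l 14)) (l 14))) (l 14)) (b (c (a (b (b (b (b (b (a (c (a (c (a (l 16724808) (l 16679336)) (a (l 16692064) (l 16653160))) (l 16693336)) (l 16637112)) (c (l 16643560) (l 16597416))) (l 14)) (l 14)) (l 14)) (l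 14)) (l 14)) (b (b (b (a (c (l 16613992) (a (c (l 16672176) (l 16609656)) (c (l 16571864) (l 16598048)))) (c (a (l 16589104) (c (l 16583952) (l 16651968))) (l 16597880))) (l 14)) (l 14)) (l 14))) (b (b (a (c (b (b (a (l 16593976) (a (c (l 16659592) (a (l 16642352) (l 16593352))) (c (a (l 16645600) (l 16638536)) (l 16628888)))) (l 14)) (l 14)) (b (b (b (a (a (c (l 16649960) (a (a (l 16635000) (l 16609552)) (c (l 16629112) (l 16622160)))) (c (a (l 16636136) (l 16629504)) (l 16620648))) (l 16617832)) (l 14)) (l 14)) (l 14))) (b (a (b (l 16534248) (l 14)) (l 16613928)) (l 14))) (l 14)) (l 14))) (l 14))), by decide +kernel⟩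

def k1304_A07pm_011_s1 : ∃ t, chk3 f_A07pm_011_s1 t 127 60 4 = true :=
  ⟨(b (c (b (b (b (b (a (c (l 16572936) (a (c (l 16631272) (a (l 16595200) (l 16584152))) (c (l 16602672) (l 16660152)))) (c (a (l 16596896) (l 16602376)) (l 16577128))) (l 14)) (l 14)) (l 14)) (l 14)) (b (b (b (b (l 16533336) (l 14)) (l 14)) (l 14)) (l 14))) (l 14)), by decide +kernel⟩

def k1305_A07pm_011_s1 : ∃ t, chk3 f_A07pm_011_s1 t 63 61 4 = true :=
  ⟨(l 14), by decide +kernel⟩

def k1306_A07pm_011_s1 : ∃ t, chk3 f_A07pm_011_s1 t 63 30 5 = true :=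
  ⟨(b (c (b (a (c (b (a (b (b (b (b (b (a (a (b (c (l 16561496) (l 16697920)) (l 14)) (l 16579968)) (l 16572848)) (l 14)) (l 14)) (l 14)) (l 14)) (l 14)) (b (b (b (a (l 16561728) (l 16554144)) (l 14)) (l 14)) (l 14))) (l 14)) (b (b (b (b (c (a (a (l 16690384) (l 16643752)) (l 16630560)) (a (a (l 16729312) (l 16646032)) (l 16635016))) (l 14)) (l 14)) (l 14)) (l 14))) (b (b (b (c (a (l 16565992) (l 16535960)) (c (l 16610744) (l 16687632))) (l 14)) (l 14)) (l 14))) (l 14)) (b (b (b (b (a (a (a (c (l 16722208) (a (c (a (l 16674904) (l 16714416)) (l 16639608)) (c (l 16715704) (l 16670944)))) (l 16720608)) (l 16714504)) (l 16602464)) (l 14)) (l 14)) (l 14)) (l 14))) (l 14)), by decide +kernel⟩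

def k1307_A07pm_011_s1 : ∃ t, chk3 f_A07pm_011_s1 t 31 31 2 = true :=
  ⟨(l 14), by decide +kernel⟩

def k1308_A07pm_011_s1 : ∃ t, chk3 f_A07pm_011_s1 t 62 30 3 = true :=
  ⟨(b (a (l 3) (b (a (b (a (l 3) (a (c (b (c (b (a (c (b (b (b (a (a (l 3) (c (l 688436267863) (l 685215042167))) (l 229948510615)) (l 14)) (l 14)) (l 14)) (b (b (b (a (a (l 3) (b (l 676088238647) (l 3))) (l 16771272)) (l 14)) (l 14)) (l 14))) (b (a (c (l 16764968) (l 16764960)) (l 16753040)) (l 14))) (l 14)) (b (b (b (c (a (a (a (l 3) (l 682530681975)) (l 242296531351)) (l 16753504)) (a (a (a (l 3) (l 681456939543)) (l 16766152)) (l 16732528))) (l 14)) (l 14)) (l 14))) (l 14)) (b (b (b (b (c (a (a (a (l 3) (l 680383196791)) (l 250349595015)) (l 16732512)) (l 246591434279)) (l 14)) (l 14)) (l 14)) (l 14))) (b (b (c (c (a (l 16751392) (l 16769512)) (l 16749936)) (c (l 16728936) (l 16686968))) (l 14)) (l 14)))) (l 14)) (b (b (b (c (c (a (l 16678544) (a (l 16754024) (a (l 16749864) (l 16725904))))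 (l 16735768)) (a (l 16741304) (l 16750984))) (l 14)) (l 14)) (l 14))) (l 14))) (l 14)), by decide +kernel⟩

def k1309_A07pm_011_s1 : ∃ t, chk3 f_A07pm_011_s1 t 63 30 3 = true :=
  ⟨(c (a (b (a (c (a (b (b (b (c (a (c (c (l 16651176) (l 16719568)) (l 16659688)) (c (l 16636104) (a (l 16652768) (l 16728944)))) (l 16657136)) (l 14)) (l 14)) (l 14)) (b (b (c (a (c (l 16670216) (l 16633584)) (l 16710952)) (a (c (a (l 16649528) (l 16642016)) (l 16734688)) (c (l 16629320) (l 16640176)))) (l 14)) (l 14))) (b (a (l 16662968) (a (l 16738632) (l 16649248))) (l 14))) (b (b (c (a (c (l 16713160) (a (c (l 16705592) (l 16625128)) (l 16704776))) (l 16708776)) (a (c (a (c (l 16635104) (l 16723944)) (c (l 16621032) (l 16630024))) (l 16721264)) (c (a (l 16617360) (l 16698904)) (a (l 16626448) (c (l 16697008) (l 16618352)))))) (l 14)) (l 14))) (l 14)) (b (b (a (a (c (l 16707568) (a (c (l 16703824) (l 16613960)) (l 16699240))) (l 16612176)) (l 16680536)) (l 14)) (l 14))) (a (b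 (b (b (a (l 16653400) (l 16631728)) (l 14)) (l 14)) (l 14)) (a (b (b (c (a (c (a (c (l 16659264) (l 16706432)) (c (l 16693136) (l 16612712))) (l 16703728)) (c (l 16607696) (a (c (l 16608216) (l 16695928)) (c (l 16686120) (l 16603816))))) (l 16698288)) (l 14)) (l 14)) (b (b (b (c (a (l 16680184) (l 16670504)) (a (c (a (l 16596344) (c (l 16675952) (l 16591696))) (l 16679184)) (c (l 16669520) (a (l 16673224) (c (l 16666800) (l 16666944)))))) (l 14)) (l 14)) (l 14))))), by decide +kernel⟩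

def k1310_A07pm_011_s1 : ∃ t, chk3 f_A07pm_011_s1 t 31 31 3 = true :=
  ⟨(l 14), by decide +kernel⟩

end Pool.Agent.Strip051.G.IE1.Tab.StN.C
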