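import Pool.Agent.Strip051.G.IE1.StNd0
import Pool.Agent.Strip051.G.IE1.StNd1
import Pool.Agent.Strip051.G.IE1.StNd2
import Pool.Agent.Strip051.G.IE1.StNd3
import Pool.Agent.Strip051.G.IE1.StNd4
import Pool.Agent.Strip051.G.IE1.StNd5
import Pool.Agent.Strip051.G.IE1.StNd6
import Pool.Agent.Strip051.G.IE1.StNd7
import Pool.Agent.Strip051.G.IE1.StNd8
import Pool.Agent.Strip051.G.IE1.StNd9
import Pool.Agent.Strip051.G.IE1.StNd10
import Pool.Agent.Strip051.G.IE1.StNd11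
import Pool.Agent.Strip051.G.IE1.StNd12
import Pool.Agent.Strip051.G.IE1.StNd13
import Pool.Agent.Strip051.G.IE1.StNd14
import Pool.Agent.Strip051.G.IE1.StNd15
import Pool.Agent.Strip051.G.IE1.StNd16
import Pool.Agent.Strip051.G.IE1.StNd17

/-! # Strips StNdZ (generated) -/

set_option linter.all false
set_option maxRecDepth 100000

namespace Pool.Agent.Strip051.G.IE1.Tab.StN.C

open Pool.Agent.Strip051.PB Pool.Agent.Strip051.PB.T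
open Pool.Agent.StripNear Pool.Agent.Strip051.LC
open Pool.Agent.Strip051.G.IE1.Tab Pool.Agent.Strip051.G.IE1.Tab.St Pool.Agent.Strip051.G.IE1.Tab.StN

theorem t1311_A07pm_011_s1 : ∃ t, chk3 f_A07pm_011_s1 t 31 30 3 = true := ex3_a k1308_A07pm_011_s1 k1309_A07pm_011_s1

theorem t1312_A07pm_011_s1 : ∃ t, chk3 f_A07pm_011_s1 t 31 15 3 = true := ex3_b t1311_A07pm_011_s1 k1310_A07pm_011_s1

theorem t1313_A07pm_011_s1 : ∃ t, chk3 f_A07pm_011_s1 t 63 60 4 = true := ex3_a k1303_A07pm_011_s1 k1304_A07pm_011_s1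

theorem t1314_A07pm_011_s1 : ∃ t, chk3 f_A07pm_011_s1 t 63 30 4 = true := ex3_b t1313_A07pm_011_s1 k1305_A07pm_011_s1

theorem t1315_A07pm_011_s1 : ∃ t, chk3 f_A07pm_011_s1 t 63 30 2 = true := ex3_c t1314_A07pm_011_s1 k1306_A07pm_011_s1

theorem t1316_A07pm_011_s1 : ∃ t, chk3 f_A07pm_011_s1 t 125 120 11 = true := ex3_c k1299_A07pm_011_s1 k1300_A07pm_011_s1

theorem t1317_A07pm_011_s1 : ∃ t, chk3 f_A07pm_011_s1 t 125 60 11 = true := ex3_b t1316_A07pm_011_s1 k1301_A07pm_011_s1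

theorem t1318_A07pm_011_s1 : ∃ t, chk3 f_A07pm_011_s1 t 501 240 42 = true := ex3_c k1293_A07pm_011_s1 k1294_A07pm_011_s1

theorem t1319_A07pm_011_s1 : ∃ t, chk3 f_A07pm_011_s1 t 250 240 42 = true := ex3_a k1292_A07pm_011_s1 t1318_A07pm_011_s1

theorem t1320_A07pm_011_s1 : ∃ t, chk3 f_A07pm_011_s1 t 250 120 42 = true := ex3_b t1319_A07pm_011_s1 k1295_A07pm_011_s1

theorem t1321_A07pm_011_s1 : ∃ t, chk3 f_A07pm_011_s1 t 125 120 42 = true := ex3_a t1320_A07pm_011_s1 k1296_A07pm_011_s1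

theorem t1322_A07pm_011_s1 : ∃ t, chk3 f_A07pm_011_s1 t 125 120 21 = true := ex3_c t1321_A07pm_011_s1 k1297_A07pm_011_s1

theorem t1323_A07pm_011_s1 : ∃ t, chk3 f_A07pm_011_s1 t 501 240 20 = true := ex3_c k1288_A07pm_011_s1 k1289_A07pm_011_s1

theorem t1324_A07pm_011_s1 : ∃ t, chk3 f_A07pm_011_s1 t 250 240 20 = true := ex3_a k1287_A07pm_011_s1 t1323_A07pm_011_s1

theorem t1325_A07pm_011_s1 : ∃ t, chk3 f_A07pm_011_s1 t 250 120 20 = true := ex3_b t1324_A07pm_011_s1 k1290_A07pm_011_s1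

theorem t1326_A07pm_011_s1 : ∃ t, chk3 f_A07pm_011_s1 t 125 120 20 = true := ex3_a t1325_A07pm_011_s1 k1291_A07pm_011_s1

theorem t1327_A07pm_011_s1 : ∃ t, chk3 f_A07pm_011_s1 t 125 120 10 = true := ex3_c t1326_A07pm_011_s1 t1322_A07pm_011_s1

theorem t1328_A07pm_011_s1 : ∃ t, chk3 f_A07pm_011_s1 t 125 60 10 = true := ex3_b t1327_A07pm_011_s1 k1298_A07pm_011_s1

theorem t1329_A07pm_011_s1 : ∃ t, chk3 f_A07pm_011_s1 t 125 60 5 = true := ex3_c t1328_A07pm_011_s1 t1317_A07pm_011_s1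

theorem t1330_A07pm_011_s1 : ∃ t, chk3 f_A07pm_011_s1 t 62 60 5 = true := ex3_a k1286_A07pm_011_s1 t1329_A07pm_011_s1

theorem t1331_A07pm_011_s1 : ∃ t, chk3 f_A07pm_011_s1 t 501 240 39 = true := ex3_a k1281_A07pm_011_s1 k1282_A07pm_011_s1

theorem t1332_A07pm_011_s1 : ∃ t, chk3 f_A07pm_011_s1 t 501 240 19 = true := ex3_c k1280_A07pm_011_s1 t1331_A07pm_011_s1

theorem t1333_A07pm_011_s1 : ∃ t, chk3 f_A07pm_011_s1 t 501 240 9 = true := ex3_c k1279_A07pm_011_s1 t1332_A07pm_011_s1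

theorem t1334_A07pm_011_s1 : ∃ t, chk3 f_A07pm_011_s1 t 501 240 4 = true := ex3_c k1278_A07pm_011_s1 t1333_A07pm_011_s1

theorem t1335_A07pm_011_s1 : ∃ t, chk3 f_A07pm_011_s1 t 501 120 4 = true := ex3_b t1334_A07pm_011_s1 k1283_A07pm_011_s1

theorem t1336_A07pm_011_s1 : ∃ t, chk3 f_A07pm_011_s1 t 250 120 4 = true := ex3_a k1277_A07pm_011_s1 t1335_A07pm_011_s1

theorem t1337_A07pm_011_s1 : ∃ t, chk3 f_A07pm_011_s1 t 250 60 4 = true := ex3_b t1336_A07pm_011_s1 k1284_A07pm_011_s1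

theorem t1338_A07pm_011_s1 : ∃ t, chk3 f_A07pm_011_s1 t 125 60 4 = true := ex3_a t1337_A07pm_011_s1 k1285_A07pm_011_s1

theorem t1339_A07pm_011_s1 : ∃ t, chk3 f_A07pm_011_s1 t 62 60 4 = true := ex3_a k1276_A07pm_011_s1 t1338_A07pm_011_s1

theorem t1340_A07pm_011_s1 : ∃ t, chk3 f_A07pm_011_s1 t 62 60 2 = true := ex3_c t1339_A07pm_011_s1 t1330_A07pm_011_s1

theorem t1341_A07pm_011_s1 : ∃ t, chk3 f_A07pm_011_s1 t 62 30 2 = true := ex3_b t1340_A07pm_011_s1 k1302_A07pm_011_s1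

theorem t1342_A07pm_011_s1 : ∃ t, chk3 f_A07pm_011_s1 t 31 30 2 = true := ex3_a t1341_A07pm_011_s1 t1315_A07pm_011_s1

theorem t1343_A07pm_011_s1 : ∃ t, chk3 f_A07pm_011_s1 t 31 15 2 = true := ex3_b t1342_A07pm_011_s1 k1307_A07pm_011_s1

theorem t1344_A07pm_011_s1 : ∃ t, chk3 f_A07pm_011_s1 t 31 15 1 = true := ex3_c t1343_A07pm_011_s1 t1312_A07pm_011_s1

theorem t1345_A07pm_011_s1 : ∃ t, chk3 f_A07pm_011_s1 t 15 15 1 = true := ex3_a k1275_A07pm_011_s1 t1344_A07pm_011_s1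

theorem t1346_A07pm_011_s1 : ∃ t, chk3 f_A07pm_011_s1 t 126 29 6 = true := ex3_b k1271_A07pm_011_s1 k1272_A07pm_011_s1

theorem t1347_A07pm_011_s1 : ∃ t, chk3 f_A07pm_011_s1 t 126 29 3 = true := ex3_c t1346_A07pm_011_s1 k1273_A07pm_011_s1

theorem t1348_A07pm_011_s1 : ∃ t, chk3 f_A07pm_011_s1 t 63 29 3 = true := ex3_a t1347_A07pm_011_s1 k1274_A07pm_011_s1

theorem t1349_A07pm_011_s1 : ∃ t, chk3 f_A07pm_011_s1 t 63 14 3 = true := ex3_b k1270_A07pm_011_s1 t1348_A07pm_011_s1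

theorem t1350_A07pm_011_s1 : ∃ t, chk3 f_A07pm_011_s1 t 500 239 12 = true := ex3_b k1264_A07pm_011_s1 k1265_A07pm_011_s1

theorem t1351_A07pm_011_s1 : ∃ t, chk3 f_A07pm_011_s1 t 500 239 6 = true := ex3_c t1350_A07pm_011_s1 k1266_A07pm_011_s1

theorem t1352_A07pm_011_s1 : ∃ t, chk3 f_A07pm_011_s1 t 500 239 3 = true := ex3_c t1351_A07pm_011_s1 k1267_A07pm_011_s1

theorem t1353_A07pm_011_s1 : ∃ t, chk3 f_A07pm_011_s1 t 1000 238 6 = true := ex3_b k1260_A07pm_011_s1 k1261_A07pm_011_s1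

theorem t1354_A07pm_011_s1 : ∃ t, chk3 f_A07pm_011_s1 t 1000 238 3 = true := ex3_c t1353_A07pm_011_s1 k1262_A07pm_011_s1

theorem t1355_A07pm_011_s1 : ∃ t, chk3 f_A07pm_011_s1 t 500 238 3 = true := ex3_a t1354_A07pm_011_s1 k1263_A07pm_011_s1

theorem t1356_A07pm_011_s1 : ∃ t, chk3 f_A07pm_011_s1 t 500 119 3 = true := ex3_b t1355_A07pm_011_s1 t1352_A07pm_011_s1

theorem t1357_A07pm_011_s1 : ∃ t, chk3 f_A07pm_011_s1 t 250 119 3 = true := ex3_a t1356_A07pm_011_s1 k1268_A07pm_011_s1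

theorem t1358_A07pm_011_s1 : ∃ t, chk3 f_A07pm_011_s1 t 250 59 3 = true := ex3_b k1259_A07pm_011_s1 t1357_A07pm_011_s1

theorem t1359_A07pm_011_s1 : ∃ t, chk3 f_A07pm_011_s1 t 125 59 3 = true := ex3_a t1358_A07pm_011_s1 k1269_A07pm_011_s1

theorem t1360_A07pm_011_s1 : ∃ t, chk3 f_A07pm_011_s1 t 249 119 3 = true := ex3_b k1257_A07pm_011_s1 k1258_A07pm_011_s1

theorem t1361_A07pm_011_s1 : ∃ t, chk3 f_A07pm_011_s1 t 124 119 3 = true := ex3_a k1256_A07pm_011_s1 t1360_A07pm_011_s1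

theorem t1362_A07pm_011_s1 : ∃ t, chk3 f_A07pm_011_s1 t 998 237 3 = true := ex3_b k1253_A07pm_011_s1 k1254_A07pm_011_s1

theorem t1363_A07pm_011_s1 : ∃ t, chk3 f_A07pm_011_s1 t 499 237 3 = true := ex3_a t1362_A07pm_011_s1 k1255_A07pm_011_s1

theorem t1364_A07pm_011_s1 : ∃ t, chk3 f_A07pm_011_s1 t 249 237 3 = true := ex3_a k1252_A07pm_011_s1 t1363_A07pm_011_s1

theorem t1365_A07pm_011_s1 : ∃ t, chk3 f_A07pm_011_s1 t 498 236 3 = true := ex3_a k1249_A07pm_011_s1 k1250_A07pm_011_s1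

theorem t1366_A07pm_011_s1 : ∃ t, chk3 f_A07pm_011_s1 t 249 236 3 = true := ex3_a t1365_A07pm_011_s1 k1251_A07pm_011_s1

theorem t1367_A07pm_011_s1 : ∃ t, chk3 f_A07pm_011_s1 t 249 118 3 = true := ex3_b t1366_A07pm_011_s1 t1364_A07pm_011_s1

theorem t1368_A07pm_011_s1 : ∃ t, chk3 f_A07pm_011_s1 t 124 118 3 = true := ex3_a k1248_A07pm_011_s1 t1367_A07pm_011_s1

theorem t1369_A07pm_011_s1 : ∃ t, chk3 f_A07pm_011_s1 t 124 59 3 = true := ex3_b t1368_A07pm_011_s1 t1361_A07pm_011_s1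

theorem t1370_A07pm_011_s1 : ∃ t, chk3 f_A07pm_011_s1 t 62 59 3 = true := ex3_a t1369_A07pm_011_s1 t1359_A07pm_011_s1

theorem t1371_A07pm_011_s1 : ∃ t, chk3 f_A07pm_011_s1 t 248 117 3 = true := ex3_b k1244_A07pm_011_s1 k1245_A07pm_011_s1

theorem t1372_A07pm_011_s1 : ∃ t, chk3 f_A07pm_011_s1 t 496 116 3 = true := ex3_b k1241_A07pm_011_s1 k1242_A07pm_011_s1

theorem t1373_A07pm_011_s1 : ∃ t, chk3 f_A07pm_011_s1 t 248 116 3 = true := ex3_a t1372_A07pm_011_s1 k1243_A07pm_011_s1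

theorem t1374_A07pm_011_s1 : ∃ t, chk3 f_A07pm_011_s1 t 248 58 3 = true := ex3_b t1373_A07pm_011_s1 t1371_A07pm_011_s1

theorem t1375_A07pm_011_s1 : ∃ t, chk3 f_A07pm_011_s1 t 124 58 3 = true := ex3_a t1374_A07pm_011_s1 k1246_A07pm_011_s1

theorem t1376_A07pm_011_s1 : ∃ t, chk3 f_A07pm_011_s1 t 62 58 3 = true := ex3_a t1375_A07pm_011_s1 k1247_A07pm_011_s1

theorem t1377_A07pm_011_s1 : ∃ t, chk3 f_A07pm_011_s1 t 62 29 3 = true := ex3_b t1376_A07pm_011_s1 t1370_A07pm_011_s1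

theorem t1378_A07pm_011_s1 : ∃ t, chk3 f_A07pm_011_s1 t 62 14 3 = true := ex3_b k1240_A07pm_011_s1 t1377_A07pm_011_s1

theorem t1379_A07pm_011_s1 : ∃ t, chk3 f_A07pm_011_s1 t 31 14 3 = true := ex3_a t1378_A07pm_011_s1 t1349_A07pm_011_s1

theorem t1380_A07pm_011_s1 : ∃ t, chk3 f_A07pm_011_s1 t 63 59 5 = true := ex3_c k1238_A07pm_011_s1 k1239_A07pm_011_s1

theorem t1381_A07pm_011_s1 : ∃ t, chk3 f_A07pm_011_s1 t 63 29 5 = true := ex3_b k1237_A07pm_011_s1 t1380_A07pm_011_s1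

theorem t1382_A07pm_011_s1 : ∃ t, chk3 f_A07pm_011_s1 t 252 239 19 = true := ex3_c k1233_A07pm_011_s1 k1234_A07pm_011_s1

theorem t1383_A07pm_011_s1 : ∃ t, chk3 f_A07pm_011_s1 t 126 239 19 = true := ex3_a t1382_A07pm_011_s1 k1235_A07pm_011_s1

theorem t1384_A07pm_011_s1 : ∃ t, chk3 f_A07pm_011_s1 t 126 119 19 = true := ex3_b k1232_A07pm_011_s1 t1383_A07pm_011_s1

theorem t1385_A07pm_011_s1 : ∃ t, chk3 f_A07pm_011_s1 t 252 119 18 = true := ex3_b k1229_A07pm_011_s1 k1230_A07pm_011_s1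

theorem t1386_A07pm_011_s1 : ∃ t, chk3 f_A07pm_011_s1 t 126 119 18 = true := ex3_a t1385_A07pm_011_s1 k1231_A07pm_011_s1

theorem t1387_A07pm_011_s1 : ∃ t, chk3 f_A07pm_011_s1 t 126 119 9 = true := ex3_c t1386_A07pm_011_s1 t1384_A07pm_011_s1

theorem t1388_A07pm_011_s1 : ∃ t, chk3 f_A07pm_011_s1 t 63 119 9 = true := ex3_a t1387_A07pm_011_s1 k1236_A07pm_011_s1

theorem t1389_A07pm_011_s1 : ∃ t, chk3 f_A07pm_011_s1 t 63 59 9 = true := ex3_b k1228_A07pm_011_s1 t1388_A07pm_011_s1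

theorem t1390_A07pm_011_s1 : ∃ t, chk3 f_A07pm_011_s1 t 252 119 17 = true := ex3_b k1224_A07pm_011_s1 k1225_A07pm_011_s1

theorem t1391_A07pm_011_s1 : ∃ t, chk3 f_A07pm_011_s1 t 252 119 8 = true := ex3_c k1223_A07pm_011_s1 t1390_A07pm_011_s1

theorem t1392_A07pm_011_s1 : ∃ t, chk3 f_A07pm_011_s1 t 126 119 8 = true := ex3_a t1391_A07pm_011_s1 k1226_A07pm_011_s1

theorem t1393_A07pm_011_s1 : ∃ t, chk3 f_A07pm_011_s1 t 63 119 8 = true := ex3_a t1392_A07pm_011_s1 k1227_A07pm_011_s1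

theorem t1394_A07pm_011_s1 : ∃ t, chk3 f_A07pm_011_s1 t 126 118 8 = true := ex3_c k1220_A07pm_011_s1 k1221_A07pm_011_s1

theorem t1395_A07pm_011_s1 : ∃ t, chk3 f_A07pm_011_s1 t 63 118 8 = true := ex3_a t1394_A07pm_011_s1 k1222_A07pm_011_s1

theorem t1396_A07pm_011_s1 : ∃ t, chk3 f_A07pm_011_s1 t 63 59 8 = true := ex3_b t1395_A07pm_011_s1 t1393_A07pm_011_s1

theorem t1397_A07pm_011_s1 : ∃ t, chk3 f_A07pm_011_s1 t 63 59 4 = true := ex3_c t1396_A07pm_011_s1 t1389_A07pm_011_s1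

theorem t1398_A07pm_011_s1 : ∃ t, chk3 f_A07pm_011_s1 t 63 58 4 = true := ex3_c k1218_A07pm_011_s1 k1219_A07pm_011_s1

theorem t1399_A07pm_011_s1 : ∃ t, chk3 f_A07pm_011_s1 t 63 29 4 = true := ex3_b t1398_A07pm_011_s1 t1397_A07pm_011_s1

theorem t1400_A07pm_011_s1 : ∃ t, chk3 f_A07pm_011_s1 t 63 29 2 = true := ex3_c t1399_A07pm_011_s1 t1381_A07pm_011_s1

theorem t1401_A07pm_011_s1 : ∃ t, chk3 f_A07pm_011_s1 t 500 478 11 = true := ex3_a k1213_A07pm_011_s1 k1214_A07pm_011_s1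

theorem t1402_A07pm_011_s1 : ∃ t, chk3 f_A07pm_011_s1 t 500 239 11 = true := ex3_b t1401_A07pm_011_s1 k1215_A07pm_011_s1

theorem t1403_A07pm_011_s1 : ∃ t, chk3 f_A07pm_011_s1 t 1000 477 11 = true := ex3_a k1210_A07pm_011_s1 k1211_A07pm_011_s1

theorem t1404_A07pm_011_s1 : ∃ t, chk3 f_A07pm_011_s1 t 1000 238 11 = true := ex3_b k1209_A07pm_011_s1 t1403_A07pm_011_s1

theorem t1405_A07pm_011_s1 : ∃ t, chk3 f_A07pm_011_s1 t 500 238 11 = true := ex3_a t1404_A07pm_011_s1 k1212_A07pm_011_s1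

theorem t1406_A07pm_011_s1 : ∃ t, chk3 f_A07pm_011_s1 t 500 119 11 = true := ex3_b t1405_A07pm_011_s1 t1402_A07pm_011_s1

theorem t1407_A07pm_011_s1 : ∃ t, chk3 f_A07pm_011_s1 t 250 119 11 = true := ex3_a t1406_A07pm_011_s1 k1216_A07pm_011_s1

theorem t1408_A07pm_011_s1 : ∃ t, chk3 f_A07pm_011_s1 t 250 59 11 = true := ex3_b k1208_A07pm_011_s1 t1407_A07pm_011_s1

theorem t1409_A07pm_011_s1 : ∃ t, chk3 f_A07pm_011_s1 t 125 59 11 = true := ex3_a t1408_A07pm_011_s1 k1217_A07pm_011_s1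

theorem t1410_A07pm_011_s1 : ∃ t, chk3 f_A07pm_011_s1 t 499 237 11 = true := ex3_a k1205_A07pm_011_s1 k1206_A07pm_011_s1

theorem t1411_A07pm_011_s1 : ∃ t, chk3 f_A07pm_011_s1 t 249 237 11 = true := ex3_a k1204_A07pm_011_s1 t1410_A07pm_011_s1

theorem t1412_A07pm_011_s1 : ∃ t, chk3 f_A07pm_011_s1 t 498 236 11 = true := ex3_a k1201_A07pm_011_s1 k1202_A07pm_011_s1

theorem t1413_A07pm_011_s1 : ∃ t, chk3 f_A07pm_011_s1 t 249 236 11 = true := ex3_a t1412_A07pm_011_s1 k1203_A07pm_011_s1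

theorem t1414_A07pm_011_s1 : ∃ t, chk3 f_A07pm_011_s1 t 249 118 11 = true := ex3_b t1413_A07pm_011_s1 t1411_A07pm_011_s1

theorem t1415_A07pm_011_s1 : ∃ t, chk3 f_A07pm_011_s1 t 124 118 11 = true := ex3_a k1200_A07pm_011_s1 t1414_A07pm_011_s1

theorem t1416_A07pm_011_s1 : ∃ t, chk3 f_A07pm_011_s1 t 124 59 11 = true := ex3_b t1415_A07pm_011_s1 k1207_A07pm_011_s1

theorem t1417_A07pm_011_s1 : ∃ t, chk3 f_A07pm_011_s1 t 62 59 11 = true := ex3_a t1416_A07pm_011_s1 t1409_A07pm_011_s1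

theorem t1418_A07pm_011_s1 : ∃ t, chk3 f_A07pm_011_s1 t 502 239 42 = true := ex3_b k1196_A07pm_011_s1 k1197_A07pm_011_s1

theorem t1419_A07pm_011_s1 : ∃ t, chk3 f_A07pm_011_s1 t 502 119 42 = true := ex3_b k1195_A07pm_011_s1 t1418_A07pm_011_s1

theorem t1420_A07pm_011_s1 : ∃ t, chk3 f_A07pm_011_s1 t 502 119 21 = true := ex3_c t1419_A07pm_011_s1 k1198_A07pm_011_s1

theorem t1421_A07pm_011_s1 : ∃ t, chk3 f_A07pm_011_s1 t 251 119 21 = true := ex3_a t1420_A07pm_011_s1 k1199_A07pm_011_s1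

theorem t1422_A07pm_011_s1 : ∃ t, chk3 f_A07pm_011_s1 t 251 59 21 = true := ex3_b k1194_A07pm_011_s1 t1421_A07pm_011_s1

theorem t1423_A07pm_011_s1 : ∃ t, chk3 f_A07pm_011_s1 t 250 479 43 = true := ex3_a k1192_A07pm_011_s1 k1193_A07pm_011_s1

theorem t1424_A07pm_011_s1 : ∃ t, chk3 f_A07pm_011_s1 t 250 239 43 = true := ex3_b k1191_A07pm_011_s1 t1423_A07pm_011_s1

theorem t1425_A07pm_011_s1 : ∃ t, chk3 f_A07pm_011_s1 t 2005 1919 340 = true := ex3_a k1186_A07pm_011_s1 k1187_A07pm_011_s1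

theorem t1426_A07pm_011_s1 : ∃ t, chk3 f_A07pm_011_s1 t 2005 1919 170 = true := ex3_c t1425_A07pm_011_s1 k1188_A07pm_011_s1

theorem t1427_A07pm_011_s1 : ∃ t, chk3 f_A07pm_011_s1 t 2005 1919 85 = true := ex3_c t1426_A07pm_011_s1 k1189_A07pm_011_s1

theorem t1428_A07pm_011_s1 : ∃ t, chk3 f_A07pm_011_s1 t 2005 959 85 = true := ex3_b k1185_A07pm_011_s1 t1427_A07pm_011_s1

theorem t1429_A07pm_011_s1 : ∃ t, chk3 f_A07pm_011_s1 t 2004 959 85 = true := ex3_c k1183_A07pm_011_s1 k1184_A07pm_011_s1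

theorem t1430_A07pm_011_s1 : ∃ t, chk3 f_A07pm_011_s1 t 1002 959 85 = true := ex3_a t1429_A07pm_011_s1 t1428_A07pm_011_s1

theorem t1431_A07pm_011_s1 : ∃ t, chk3 f_A07pm_011_s1 t 1002 479 85 = true := ex3_b k1182_A07pm_011_s1 t1430_A07pm_011_s1

theorem t1432_A07pm_011_s1 : ∃ t, chk3 f_A07pm_011_s1 t 501 479 85 = true := ex3_a t1431_A07pm_011_s1 k1190_A07pm_011_s1

theorem t1433_A07pm_011_s1 : ∃ t, chk3 f_A07pm_011_s1 t 1003 959 84 = true := ex3_c k1180_A07pm_011_s1 k1181_A07pm_011_s1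

theorem t1434_A07pm_011_s1 : ∃ t, chk3 f_A07pm_011_s1 t 2005 959 339 = true := ex3_b k1178_A07pm_011_s1 k1179_A07pm_011_s1

theorem t1435_A07pm_011_s1 : ∃ t, chk3 f_A07pm_011_s1 t 1002 959 339 = true := ex3_a k1177_A07pm_011_s1 t1434_A07pm_011_s1

theorem t1436_A07pm_011_s1 : ∃ t, chk3 f_A07pm_011_s1 t 1002 959 338 = true := ex3_a k1175_A07pm_011_s1 k1176_A07pm_011_s1

theorem t1437_A07pm_011_s1 : ∃ t, chk3 f_A07pm_011_s1 t 1002 959 169 = true := ex3_c t1436_A07pm_011_s1 t1435_A07pm_011_s1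

theorem t1438_A07pm_011_s1 : ∃ t, chk3 f_A07pm_011_s1 t 1002 959 84 = true := ex3_c k1174_A07pm_011_s1 t1437_A07pm_011_s1

theorem t1439_A07pm_011_s1 : ∃ t, chk3 f_A07pm_011_s1 t 501 959 84 = true := ex3_a t1438_A07pm_011_s1 t1433_A07pm_011_s1

theorem t1440_A07pm_011_s1 : ∃ t, chk3 f_A07pm_011_s1 t 2005 958 84 = true := ex3_b k1171_A07pm_011_s1 k1172_A07pm_011_s1

theorem t1441_A07pm_011_s1 : ∃ t, chk3 f_A07pm_011_s1 t 2004 1917 169 = true := ex3_a k1169_A07pm_011_s1 k1170_A07pm_011_s1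

theorem t1442_A07pm_011_s1 : ∃ t, chk3 f_A07pm_011_s1 t 2004 958 169 = true := ex3_b k1168_A07pm_011_s1 t1441_A07pm_011_s1

theorem t1443_A07pm_011_s1 : ∃ t, chk3 f_A07pm_011_s1 t 2004 1917 168 = true := ex3_a k1166_A07pm_011_s1 k1167_A07pm_011_s1

theorem t1444_A07pm_011_s1 : ∃ t, chk3 f_A07pm_011_s1 t 2004 1916 336 = true := ex3_a k1163_A07pm_011_s1 k1164_A07pm_011_s1

theorem t1445_A07pm_011_s1 : ∃ t, chk3 f_A07pm_011_s1 t 2004 1916 168 = true := ex3_c t1444_A07pm_011_s1 k1165_A07pm_011_s1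

theorem t1446_A07pm_011_s1 : ∃ t, chk3 f_A07pm_011_s1 t 2004 958 168 = true := ex3_b t1445_A07pm_011_s1 t1443_A07pm_011_s1

theorem t1447_A07pm_011_s1 : ∃ t, chk3 f_A07pm_011_s1 t 2004 958 84 = true := ex3_c t1446_A07pm_011_s1 t1442_A07pm_011_s1

theorem t1448_A07pm_011_s1 : ∃ t, chk3 f_A07pm_011_s1 t 1002 958 84 = true := ex3_a t1447_A07pm_011_s1 t1440_A07pm_011_s1

theorem t1449_A07pm_011_s1 : ∃ t, chk3 f_A07pm_011_s1 t 501 958 84 = true := ex3_a t1448_A07pm_011_s1 k1173_A07pm_011_s1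

theorem t1450_A07pm_011_s1 : ∃ t, chk3 f_A07pm_011_s1 t 501 479 84 = true := ex3_b t1449_A07pm_011_s1 t1439_A07pm_011_s1

theorem t1451_A07pm_011_s1 : ∃ t, chk3 f_A07pm_011_s1 t 501 479 42 = true := ex3_c t1450_A07pm_011_s1 t1432_A07pm_011_s1

theorem t1452_A07pm_011_s1 : ∃ t, chk3 f_A07pm_011_s1 t 250 479 42 = true := ex3_a k1162_A07pm_011_s1 t1451_A07pm_011_s1

theorem t1453_A07pm_011_s1 : ∃ t, chk3 f_A07pm_011_s1 t 1001 957 84 = true := ex3_c k1158_A07pm_011_s1 k1159_A07pm_011_s1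

theorem t1454_A07pm_011_s1 : ∃ t, chk3 f_A07pm_011_s1 t 500 957 84 = true := ex3_a k1157_A07pm_011_s1 t1453_A07pm_011_s1

theorem t1455_A07pm_011_s1 : ∃ t, chk3 f_A07pm_011_s1 t 250 957 84 = true := ex3_a t1454_A07pm_011_s1 k1160_A07pm_011_s1

theorem t1456_A07pm_011_s1 : ∃ t, chk3 f_A07pm_011_s1 t 250 478 84 = true := ex3_b k1156_A07pm_011_s1 t1455_A07pm_011_s1

theorem t1457_A07pm_011_s1 : ∃ t, chk3 f_A07pm_011_s1 t 250 478 42 = true := ex3_c t1456_A07pm_011_s1 k1161_A07pm_011_s1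

theorem t1458_A07pm_011_s1 : ∃ t, chk3 f_A07pm_011_s1 t 250 239 42 = true := ex3_b t1457_A07pm_011_s1 t1452_A07pm_011_s1

theorem t1459_A07pm_011_s1 : ∃ t, chk3 f_A07pm_011_s1 t 250 239 21 = true := ex3_c t1458_A07pm_011_s1 t1424_A07pm_011_s1

theorem t1460_A07pm_011_s1 : ∃ t, chk3 f_A07pm_011_s1 t 500 238 21 = true := ex3_a k1153_A07pm_011_s1 k1154_A07pm_011_s1

theorem t1461_A07pm_011_s1 : ∃ t, chk3 f_A07pm_011_s1 t 250 238 21 = true := ex3_a t1460_A07pm_011_s1 k1155_A07pm_011_s1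

theorem t1462_A07pm_011_s1 : ∃ t, chk3 f_A07pm_011_s1 t 250 119 21 = true := ex3_b t1461_A07pm_011_s1 t1459_A07pm_011_s1

theorem t1463_A07pm_011_s1 : ∃ t, chk3 f_A07pm_011_s1 t 250 59 21 = true := ex3_b k1152_A07pm_011_s1 t1462_A07pm_011_s1

theorem t1464_A07pm_011_s1 : ∃ t, chk3 f_A07pm_011_s1 t 125 59 21 = true := ex3_a t1463_A07pm_011_s1 t1422_A07pm_011_s1

theorem t1465_A07pm_011_s1 : ∃ t, chk3 f_A07pm_011_s1 t 124 118 21 = true := ex3_b k1149_A07pm_011_s1 k1150_A07pm_011_s1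

theorem t1466_A07pm_011_s1 : ∃ t, chk3 f_A07pm_011_s1 t 124 59 21 = true := ex3_b t1465_A07pm_011_s1 k1151_A07pm_011_s1

theorem t1467_A07pm_011_s1 : ∃ t, chk3 f_A07pm_011_s1 t 62 59 21 = true := ex3_a t1466_A07pm_011_s1 t1464_A07pm_011_s1

theorem t1468_A07pm_011_s1 : ∃ t, chk3 f_A07pm_011_s1 t 502 479 41 = true := ex3_c k1146_A07pm_011_s1 k1147_A07pm_011_s1

theorem t1469_A07pm_011_s1 : ∃ t, chk3 f_A07pm_011_s1 t 251 479 41 = true := ex3_a t1468_A07pm_011_s1 k1148_A07pm_011_s1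

theorem t1470_A07pm_011_s1 : ∃ t, chk3 f_A07pm_011_s1 t 251 239 41 = true := ex3_b k1145_A07pm_011_s1 t1469_A07pm_011_s1

theorem t1471_A07pm_011_s1 : ∃ t, chk3 f_A07pm_011_s1 t 502 239 40 = true := ex3_b k1142_A07pm_011_s1 k1143_A07pm_011_s1

theorem t1472_A07pm_011_s1 : ∃ t, chk3 f_A07pm_011_s1 t 251 239 40 = true := ex3_a t1471_A07pm_011_s1 k1144_A07pm_011_s1

theorem t1473_A07pm_011_s1 : ∃ t, chk3 f_A07pm_011_s1 t 251 239 20 = true := ex3_c t1472_A07pm_011_s1 t1470_A07pm_011_s1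

theorem t1474_A07pm_011_s1 : ∃ t, chk3 f_A07pm_011_s1 t 251 119 20 = true := ex3_b k1141_A07pm_011_s1 t1473_A07pm_011_s1

theorem t1475_A07pm_011_s1 : ∃ t, chk3 f_A07pm_011_s1 t 1003 479 83 = true := ex3_a k1139_A07pm_011_s1 k1140_A07pm_011_s1

theorem t1476_A07pm_011_s1 : ∃ t, chk3 f_A07pm_011_s1 t 1003 479 41 = true := ex3_c k1138_A07pm_011_s1 t1475_A07pm_011_s1

theorem t1477_A07pm_011_s1 : ∃ t, chk3 f_A07pm_011_s1 t 1002 958 167 = true := ex3_a k1135_A07pm_011_s1 k1136_A07pm_011_s1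

theorem t1478_A07pm_011_s1 : ∃ t, chk3 f_A07pm_011_s1 t 1002 958 83 = true := ex3_c k1134_A07pm_011_s1 t1477_A07pm_011_s1

theorem t1479_A07pm_011_s1 : ∃ t, chk3 f_A07pm_011_s1 t 1002 479 83 = true := ex3_b t1478_A07pm_011_s1 k1137_A07pm_011_s1

theorem t1480_A07pm_011_s1 : ∃ t, chk3 f_A07pm_011_s1 t 1002 479 41 = true := ex3_c k1133_A07pm_011_s1 t1479_A07pm_011_s1

theorem t1481_A07pm_011_s1 : ∃ t, chk3 f_A07pm_011_s1 t 501 479 41 = true := ex3_a t1480_A07pm_011_s1 t1476_A07pm_011_s1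

theorem t1482_A07pm_011_s1 : ∃ t, chk3 f_A07pm_011_s1 t 250 479 41 = true := ex3_a k1132_A07pm_011_s1 t1481_A07pm_011_s1

theorem t1483_A07pm_011_s1 : ∃ t, chk3 f_A07pm_011_s1 t 1002 1915 83 = true := ex3_c k1129_A07pm_011_s1 k1130_A07pm_011_s1

theorem t1484_A07pm_011_s1 : ∃ t, chk3 f_A07pm_011_s1 t 1002 957 83 = true := ex3_b k1128_A07pm_011_s1 t1483_A07pm_011_s1

theorem t1485_A07pm_011_s1 : ∃ t, chk3 f_A07pm_011_s1 t 1002 478 83 = true := ex3_b k1127_A07pm_011_s1 t1484_A07pm_011_s1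

theorem t1486_A07pm_011_s1 : ∃ t, chk3 f_A07pm_011_s1 t 501 478 83 = true := ex3_a t1485_A07pm_011_s1 k1131_A07pm_011_s1

theorem t1487_A07pm_011_s1 : ∃ t, chk3 f_A07pm_011_s1 t 1002 957 82 = true := ex3_a k1124_A07pm_011_s1 k1125_A07pm_011_s1

theorem t1488_A07pm_011_s1 : ∃ t, chk3 f_A07pm_011_s1 t 501 957 82 = true := ex3_a t1487_A07pm_011_s1 k1126_A07pm_011_s1

theorem t1489_A07pm_011_s1 : ∃ t, chk3 f_A07pm_011_s1 t 501 956 82 = true := ex3_c k1122_A07pm_011_s1 k1123_A07pm_011_s1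

theorem t1490_A07pm_011_s1 : ∃ t, chk3 f_A07pm_011_s1 t 501 478 82 = true := ex3_b t1489_A07pm_011_s1 t1488_A07pm_011_s1

theorem t1491_A07pm_011_s1 : ∃ t, chk3 f_A07pm_011_s1 t 501 478 41 = true := ex3_c t1490_A07pm_011_s1 t1486_A07pm_011_s1

theorem t1492_A07pm_011_s1 : ∃ t, chk3 f_A07pm_011_s1 t 4007 1915 167 = true := ex3_b k1120_A07pm_011_s1 k1121_A07pm_011_s1

theorem t1493_A07pm_011_s1 : ∃ t, chk3 f_A07pm_011_s1 t 2003 1915 167 = true := ex3_a k1119_A07pm_011_s1 t1492_A07pm_011_s1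

theorem t1494_A07pm_011_s1 : ∃ t, chk3 f_A07pm_011_s1 t 2003 1914 167 = true := ex3_a k1117_A07pm_011_s1 k1118_A07pm_011_s1

theorem t1495_A07pm_011_s1 : ∃ t, chk3 f_A07pm_011_s1 t 2003 957 167 = true := ex3_b t1494_A07pm_011_s1 t1493_A07pm_011_s1

theorem t1496_A07pm_011_s1 : ∃ t, chk3 f_A07pm_011_s1 t 1001 957 167 = true := ex3_a k1116_A07pm_011_s1 t1495_A07pm_011_s1

theorem t1497_A07pm_011_s1 : ∃ t, chk3 f_A07pm_011_s1 t 2003 1914 166 = true := ex3_a k1113_A07pm_011_s1 k1114_A07pm_011_s1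

theorem t1498_A07pm_011_s1 : ∃ t, chk3 f_A07pm_011_s1 t 2003 957 166 = true := ex3_b t1497_A07pm_011_s1 k1115_A07pm_011_s1

theorem t1499_A07pm_011_s1 : ∃ t, chk3 f_A07pm_011_s1 t 1001 957 166 = true := ex3_a k1112_A07pm_011_s1 t1498_A07pm_011_s1

theorem t1500_A07pm_011_s1 : ∃ t, chk3 f_A07pm_011_s1 t 1001 957 83 = true := ex3_c t1499_A07pm_011_s1 t1496_A07pm_011_s1

theorem t1501_A07pm_011_s1 : ∃ t, chk3 f_A07pm_011_s1 t 2003 1913 166 = true := ex3_c k1109_A07pm_011_s1 k1110_A07pm_011_s1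

theorem t1502_A07pm_011_s1 : ∃ t, chk3 f_A07pm_011_s1 t 2003 956 166 = true := ex3_b k1108_A07pm_011_s1 t1501_A07pm_011_s1

theorem t1503_A07pm_011_s1 : ∃ t, chk3 f_A07pm_011_s1 t 1001 956 166 = true := ex3_a k1107_A07pm_011_s1 t1502_A07pm_011_s1

theorem t1504_A07pm_011_s1 : ∃ t, chk3 f_A07pm_011_s1 t 1001 956 83 = true := ex3_c t1503_A07pm_011_s1 k1111_A07pm_011_s1

theorem t1505_A07pm_011_s1 : ∃ t, chk3 f_A07pm_011_s1 t 1001 478 83 = true := ex3_b t1504_A07pm_011_s1 t1500_A07pm_011_s1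

theorem t1506_A07pm_011_s1 : ∃ t, chk3 f_A07pm_011_s1 t 2003 956 165 = true := ex3_a k1104_A07pm_011_s1 k1105_A07pm_011_s1

theorem t1507_A07pm_011_s1 : ∃ t, chk3 f_A07pm_011_s1 t 4005 1912 165 = true := ex3_b k1101_A07pm_011_s1 k1102_A07pm_011_s1

theorem t1508_A07pm_011_s1 : ∃ t, chk3 f_A07pm_011_s1 t 2002 1912 165 = true := ex3_a k1100_A07pm_011_s1 t1507_A07pm_011_s1

theorem t1509_A07pm_011_s1 : ∃ t, chk3 f_A07pm_011_s1 t 2002 956 165 = true := ex3_b t1508_A07pm_011_s1 k1103_A07pm_011_s1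

theorem t1510_A07pm_011_s1 : ∃ t, chk3 f_A07pm_011_s1 t 1001 956 165 = true := ex3_a t1509_A07pm_011_s1 t1506_A07pm_011_s1

theorem t1511_A07pm_011_s1 : ∃ t, chk3 f_A07pm_011_s1 t 1001 956 82 = true := ex3_c k1099_A07pm_011_s1 t1510_A07pm_011_s1

theorem t1512_A07pm_011_s1 : ∃ t, chk3 f_A07pm_011_s1 t 1001 478 82 = true := ex3_b t1511_A07pm_011_s1 k1106_A07pm_011_s1

theorem t1513_A07pm_011_s1 : ∃ t, chk3 f_A07pm_011_s1 t 1001 478 41 = true := ex3_c t1512_A07pm_011_s1 t1505_A07pm_011_s1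

theorem t1514_A07pm_011_s1 : ∃ t, chk3 f_A07pm_011_s1 t 500 478 41 = true := ex3_a k1098_A07pm_011_s1 t1513_A07pm_011_s1

theorem t1515_A07pm_011_s1 : ∃ t, chk3 f_A07pm_011_s1 t 250 478 41 = true := ex3_a t1514_A07pm_011_s1 t1491_A07pm_011_s1

theorem t1516_A07pm_011_s1 : ∃ t, chk3 f_A07pm_011_s1 t 250 239 41 = true := ex3_b t1515_A07pm_011_s1 t1482_A07pm_011_s1

theorem t1517_A07pm_011_s1 : ∃ t, chk3 f_A07pm_011_s1 t 1002 479 40 = true := ex3_a k1095_A07pm_011_s1 k1096_A07pm_011_s1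

theorem t1518_A07pm_011_s1 : ∃ t, chk3 f_A07pm_011_s1 t 501 479 40 = true := ex3_a t1517_A07pm_011_s1 k1097_A07pm_011_s1

theorem t1519_A07pm_011_s1 : ∃ t, chk3 f_A07pm_011_s1 t 250 479 40 = true := ex3_a k1094_A07pm_011_s1 t1518_A07pm_011_s1

theorem t1520_A07pm_011_s1 : ∃ t, chk3 f_A07pm_011_s1 t 1003 478 40 = true := ex3_c k1092_A07pm_011_s1 k1093_A07pm_011_s1

theorem t1521_A07pm_011_s1 : ∃ t, chk3 f_A07pm_011_s1 t 501 478 40 = true := ex3_a k1091_A07pm_011_s1 t1520_A07pm_011_s1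

theorem t1522_A07pm_011_s1 : ∃ t, chk3 f_A07pm_011_s1 t 250 478 40 = true := ex3_a k1090_A07pm_011_s1 t1521_A07pm_011_s1

theorem t1523_A07pm_011_s1 : ∃ t, chk3 f_A07pm_011_s1 t 250 239 40 = true := ex3_b t1522_A07pm_011_s1 t1519_A07pm_011_s1

theorem t1524_A07pm_011_s1 : ∃ t, chk3 f_A07pm_011_s1 t 250 239 20 = true := ex3_c t1523_A07pm_011_s1 t1516_A07pm_011_s1

theorem t1525_A07pm_011_s1 : ∃ t, chk3 f_A07pm_011_s1 t 501 238 41 = true := ex3_a k1088_A07pm_011_s1 k1089_A07pm_011_s1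

theorem t1526_A07pm_011_s1 : ∃ t, chk3 f_A07pm_011_s1 t 1002 477 80 = true := ex3_b k1084_A07pm_011_s1 k1085_A07pm_011_s1

theorem t1527_A07pm_011_s1 : ∃ t, chk3 f_A07pm_011_s1 t 501 477 80 = true := ex3_a t1526_A07pm_011_s1 k1086_A07pm_011_s1

theorem t1528_A07pm_011_s1 : ∃ t, chk3 f_A07pm_011_s1 t 501 477 40 = true := ex3_c t1527_A07pm_011_s1 k1087_A07pm_011_s1

theorem t1529_A07pm_011_s1 : ∃ t, chk3 f_A07pm_011_s1 t 501 238 40 = true := ex3_b k1083_A07pm_011_s1 t1528_A07pm_011_s1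

theorem t1530_A07pm_011_s1 : ∃ t, chk3 f_A07pm_011_s1 t 501 238 20 = true := ex3_c t1529_A07pm_011_s1 t1525_A07pm_011_s1

theorem t1531_A07pm_011_s1 : ∃ t, chk3 f_A07pm_011_s1 t 2002 1911 165 = true := ex3_a k1079_A07pm_011_s1 k1080_A07pm_011_s1

theorem t1532_A07pm_011_s1 : ∃ t, chk3 f_A07pm_011_s1 t 2002 1911 82 = true := ex3_c k1078_A07pm_011_s1 t1531_A07pm_011_s1

theorem t1533_A07pm_011_s1 : ∃ t, chk3 f_A07pm_011_s1 t 2002 1910 164 = true := ex3_c k1075_A07pm_011_s1 k1076_A07pm_011_s1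

theorem t1534_A07pm_011_s1 : ∃ t, chk3 f_A07pm_011_s1 t 2002 1910 82 = true := ex3_c t1533_A07pm_011_s1 k1077_A07pm_011_s1

theorem t1535_A07pm_011_s1 : ∃ t, chk3 f_A07pm_011_s1 t 2002 955 82 = true := ex3_b t1534_A07pm_011_s1 t1532_A07pm_011_s1

theorem t1536_A07pm_011_s1 : ∃ t, chk3 f_A07pm_011_s1 t 1001 955 82 = true := ex3_a t1535_A07pm_011_s1 k1081_A07pm_011_s1

theorem t1537_A07pm_011_s1 : ∃ t, chk3 f_A07pm_011_s1 t 1001 477 82 = true := ex3_b k1074_A07pm_011_s1 t1536_A07pm_011_s1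

theorem t1538_A07pm_011_s1 : ∃ t, chk3 f_A07pm_011_s1 t 1001 477 41 = true := ex3_c t1537_A07pm_011_s1 k1082_A07pm_011_s1

theorem t1539_A07pm_011_s1 : ∃ t, chk3 f_A07pm_011_s1 t 2001 954 82 = true := ex3_c k1070_A07pm_011_s1 k1071_A07pm_011_s1

theorem t1540_A07pm_011_s1 : ∃ t, chk3 f_A07pm_011_s1 t 2001 477 82 = true := ex3_b t1539_A07pm_011_s1 k1072_A07pm_011_s1

theorem t1541_A07pm_011_s1 : ∃ t, chk3 f_A07pm_011_s1 t 1000 477 82 = true := ex3_a k1069_A07pm_011_s1 t1540_A07pm_011_s1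

theorem t1542_A07pm_011_s1 : ∃ t, chk3 f_A07pm_011_s1 t 1000 477 41 = true := ex3_c t1541_A07pm_011_s1 k1073_A07pm_011_s1

theorem t1543_A07pm_011_s1 : ∃ t, chk3 f_A07pm_011_s1 t 500 477 41 = true := ex3_a t1542_A07pm_011_s1 t1538_A07pm_011_s1

theorem t1544_A07pm_011_s1 : ∃ t, chk3 f_A07pm_011_s1 t 500 238 41 = true := ex3_b k1068_A07pm_011_s1 t1543_A07pm_011_s1

theorem t1545_A07pm_011_s1 : ∃ t, chk3 f_A07pm_011_s1 t 2003 955 81 = true := ex3_b k1066_A07pm_011_s1 k1067_A07pm_011_s1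

theorem t1546_A07pm_011_s1 : ∃ t, chk3 f_A07pm_011_s1 t 1001 955 81 = true := ex3_a k1065_A07pm_011_s1 t1545_A07pm_011_s1

theorem t1547_A07pm_011_s1 : ∃ t, chk3 f_A07pm_011_s1 t 1001 1909 81 = true := ex3_c k1063_A07pm_011_s1 k1064_A07pm_011_s1

theorem t1548_A07pm_011_s1 : ∃ t, chk3 f_A07pm_011_s1 t 1001 954 81 = true := ex3_b k1062_A07pm_011_s1 t1547_A07pm_011_s1

theorem t1549_A07pm_011_s1 : ∃ t, chk3 f_A07pm_011_s1 t 1001 477 81 = true := ex3_b t1548_A07pm_011_s1 t1546_A07pm_011_s1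

theorem t1550_A07pm_011_s1 : ∃ t, chk3 f_A07pm_011_s1 t 1001 477 40 = true := ex3_c k1061_A07pm_011_s1 t1549_A07pm_011_s1

theorem t1551_A07pm_011_s1 : ∃ t, chk3 f_A07pm_011_s1 t 2001 954 163 = true := ex3_b k1058_A07pm_011_s1 k1059_A07pm_011_s1

theorem t1552_A07pm_011_s1 : ∃ t, chk3 f_A07pm_011_s1 t 2001 954 81 = true := ex3_c k1057_A07pm_011_s1 t1551_A07pm_011_s1

theorem t1553_A07pm_011_s1 : ∃ t, chk3 f_A07pm_011_s1 t 2001 477 81 = true := ex3_b t1552_A07pm_011_s1 k1060_A07pm_011_s1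

theorem t1554_A07pm_011_s1 : ∃ t, chk3 f_A07pm_011_s1 t 1000 477 81 = true := ex3_a k1056_A07pm_011_s1 t1553_A07pm_011_s1

theorem t1555_A07pm_011_s1 : ∃ t, chk3 f_A07pm_011_s1 t 1000 477 40 = true := ex3_c k1055_A07pm_011_s1 t1554_A07pm_011_s1

theorem t1556_A07pm_011_s1 : ∃ t, chk3 f_A07pm_011_s1 t 500 477 40 = true := ex3_a t1555_A07pm_011_s1 t1550_A07pm_011_s1

theorem t1557_A07pm_011_s1 : ∃ t, chk3 f_A07pm_011_s1 t 2001 1907 162 = true := ex3_c k1051_A07pm_011_s1 k1052_A07pm_011_s1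

theorem t1558_A07pm_011_s1 : ∃ t, chk3 f_A07pm_011_s1 t 2001 953 162 = true := ex3_b k1050_A07pm_011_s1 t1557_A07pm_011_s1

theorem t1559_A07pm_011_s1 : ∃ t, chk3 f_A07pm_011_s1 t 1000 953 162 = true := ex3_a k1049_A07pm_011_s1 t1558_A07pm_011_s1

theorem t1560_A07pm_011_s1 : ∃ t, chk3 f_A07pm_011_s1 t 1000 953 81 = true := ex3_c t1559_A07pm_011_s1 k1053_A07pm_011_s1

theorem t1561_A07pm_011_s1 : ∃ t, chk3 f_A07pm_011_s1 t 1000 476 81 = true := ex3_b k1048_A07pm_011_s1 t1560_A07pm_011_s1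

theorem t1562_A07pm_011_s1 : ∃ t, chk3 f_A07pm_011_s1 t 500 476 81 = true := ex3_a t1561_A07pm_011_s1 k1054_A07pm_011_s1

theorem t1563_A07pm_011_s1 : ∃ t, chk3 f_A07pm_011_s1 t 1001 953 80 = true := ex3_c k1046_A07pm_011_s1 k1047_A07pm_011_s1

theorem t1564_A07pm_011_s1 : ∃ t, chk3 f_A07pm_011_s1 t 2001 953 161 = true := ex3_a k1044_A07pm_011_s1 k1045_A07pm_011_s1

theorem t1565_A07pm_011_s1 : ∃ t, chk3 f_A07pm_011_s1 t 1000 953 161 = true := ex3_a k1043_A07pm_011_s1 t1564_A07pm_011_s1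

theorem t1566_A07pm_011_s1 : ∃ t, chk3 f_A07pm_011_s1 t 1000 953 80 = true := ex3_c k1042_A07pm_011_s1 t1565_A07pm_011_s1

theorem t1567_A07pm_011_s1 : ∃ t, chk3 f_A07pm_011_s1 t 500 953 80 = true := ex3_a t1566_A07pm_011_s1 t1563_A07pm_011_s1

theorem t1568_A07pm_011_s1 : ∃ t, chk3 f_A07pm_011_s1 t 4001 1905 80 = true := ex3_c k1038_A07pm_011_s1 k1039_A07pm_011_s1

theorem t1569_A07pm_011_s1 : ∃ t, chk3 f_A07pm_011_s1 t 2000 1905 80 = true := ex3_a k1037_A07pm_011_s1 t1568_A07pm_011_s1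

theorem t1570_A07pm_011_s1 : ∃ t, chk3 f_A07pm_011_s1 t 2000 1904 160 = true := ex3_c k1034_A07pm_011_s1 k1035_A07pm_011_s1

theorem t1571_A07pm_011_s1 : ∃ t, chk3 f_A07pm_011_s1 t 2000 1904 80 = true := ex3_c t1570_A07pm_011_s1 k1036_A07pm_011_s1

theorem t1572_A07pm_011_s1 : ∃ t, chk3 f_A07pm_011_s1 t 2000 952 80 = true := ex3_b t1571_A07pm_011_s1 t1569_A07pm_011_s1

theorem t1573_A07pm_011_s1 : ∃ t, chk3 f_A07pm_011_s1 t 1000 952 80 = true := ex3_a t1572_A07pm_011_s1 k1040_A07pm_011_s1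

theorem t1574_A07pm_011_s1 : ∃ t, chk3 f_A07pm_011_s1 t 500 952 80 = true := ex3_a t1573_A07pm_011_s1 k1041_A07pm_011_s1

theorem t1575_A07pm_011_s1 : ∃ t, chk3 f_A07pm_011_s1 t 500 476 80 = true := ex3_b t1574_A07pm_011_s1 t1567_A07pm_011_s1

theorem t1576_A07pm_011_s1 : ∃ t, chk3 f_A07pm_011_s1 t 500 476 40 = true := ex3_c t1575_A07pm_011_s1 t1562_A07pm_011_s1

theorem t1577_A07pm_011_s1 : ∃ t, chk3 f_A07pm_011_s1 t 500 238 40 = true := ex3_b t1576_A07pm_011_s1 t1556_A07pm_011_s1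

theorem t1578_A07pm_011_s1 : ∃ t, chk3 f_A07pm_011_s1 t 500 238 20 = true := ex3_c t1577_A07pm_011_s1 t1544_A07pm_011_s1

theorem t1579_A07pm_011_s1 : ∃ t, chk3 f_A07pm_011_s1 t 250 238 20 = true := ex3_a t1578_A07pm_011_s1 t1530_A07pm_011_s1

theorem t1580_A07pm_011_s1 : ∃ t, chk3 f_A07pm_011_s1 t 250 119 20 = true := ex3_b t1579_A07pm_011_s1 t1524_A07pm_011_s1

theorem t1581_A07pm_011_s1 : ∃ t, chk3 f_A07pm_011_s1 t 125 119 20 = true := ex3_a t1580_A07pm_011_s1 t1474_A07pm_011_s1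

theorem t1582_A07pm_011_s1 : ∃ t, chk3 f_A07pm_011_s1 t 1000 237 20 = true := ex3_b k1029_A07pm_011_s1 k1030_A07pm_011_s1

theorem t1583_A07pm_011_s1 : ∃ t, chk3 f_A07pm_011_s1 t 500 237 20 = true := ex3_a t1582_A07pm_011_s1 k1031_A07pm_011_s1

theorem t1584_A07pm_011_s1 : ∃ t, chk3 f_A07pm_011_s1 t 500 118 20 = true := ex3_b k1028_A07pm_011_s1 t1583_A07pm_011_s1

theorem t1585_A07pm_011_s1 : ∃ t, chk3 f_A07pm_011_s1 t 250 118 20 = true := ex3_a t1584_A07pm_011_s1 k1032_A07pm_011_s1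

theorem t1586_A07pm_011_s1 : ∃ t, chk3 f_A07pm_011_s1 t 125 118 20 = true := ex3_a t1585_A07pm_011_s1 k1033_A07pm_011_s1

theorem t1587_A07pm_011_s1 : ∃ t, chk3 f_A07pm_011_s1 t 125 59 20 = true := ex3_b t1586_A07pm_011_s1 t1581_A07pm_011_s1

theorem t1588_A07pm_011_s1 : ∃ t, chk3 f_A07pm_011_s1 t 999 476 20 = true := ex3_c k1024_A07pm_011_s1 k1025_A07pm_011_s1

theorem t1589_A07pm_011_s1 : ∃ t, chk3 f_A07pm_011_s1 t 999 238 20 = true := ex3_b t1588_A07pm_011_s1 k1026_A07pm_011_s1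

theorem t1590_A07pm_011_s1 : ∃ t, chk3 f_A07pm_011_s1 t 499 238 20 = true := ex3_a k1023_A07pm_011_s1 t1589_A07pm_011_s1

theorem t1591_A07pm_011_s1 : ∃ t, chk3 f_A07pm_011_s1 t 249 238 20 = true := ex3_a k1022_A07pm_011_s1 t1590_A07pm_011_s1

theorem t1592_A07pm_011_s1 : ∃ t, chk3 f_A07pm_011_s1 t 249 119 20 = true := ex3_b t1591_A07pm_011_s1 k1027_A07pm_011_s1

theorem t1593_A07pm_011_s1 : ∃ t, chk3 f_A07pm_011_s1 t 124 119 20 = true := ex3_a k1021_A07pm_011_s1 t1592_A07pm_011_s1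

theorem t1594_A07pm_011_s1 : ∃ t, chk3 f_A07pm_011_s1 t 999 951 80 = true := ex3_c k1017_A07pm_011_s1 k1018_A07pm_011_s1

theorem t1595_A07pm_011_s1 : ∃ t, chk3 f_A07pm_011_s1 t 999 475 80 = true := ex3_b k1016_A07pm_011_s1 t1594_A07pm_011_s1

theorem t1596_A07pm_011_s1 : ∃ t, chk3 f_A07pm_011_s1 t 999 237 80 = true := ex3_b k1015_A07pm_011_s1 t1595_A07pm_011_s1

theorem t1597_A07pm_011_s1 : ∃ t, chk3 f_A07pm_011_s1 t 499 237 80 = true := ex3_a k1014_A07pm_011_s1 t1596_A07pm_011_s1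

theorem t1598_A07pm_011_s1 : ∃ t, chk3 f_A07pm_011_s1 t 499 237 40 = true := ex3_c t1597_A07pm_011_s1 k1019_A07pm_011_s1

theorem t1599_A07pm_011_s1 : ∃ t, chk3 f_A07pm_011_s1 t 499 237 20 = true := ex3_c t1598_A07pm_011_s1 k1020_A07pm_011_s1

theorem t1600_A07pm_011_s1 : ∃ t, chk3 f_A07pm_011_s1 t 249 237 20 = true := ex3_a k1013_A07pm_011_s1 t1599_A07pm_011_s1

theorem t1601_A07pm_011_s1 : ∃ t, chk3 f_A07pm_011_s1 t 124 237 20 = true := ex3_a k1012_A07pm_011_s1 t1600_A07pm_011_s1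

theorem t1602_A07pm_011_s1 : ∃ t, chk3 f_A07pm_011_s1 t 124 236 20 = true := ex3_a k1010_A07pm_011_s1 k1011_A07pm_011_s1

theorem t1603_A07pm_011_s1 : ∃ t, chk3 f_A07pm_011_s1 t 124 118 20 = true := ex3_b t1602_A07pm_011_s1 t1601_A07pm_011_s1

theorem t1604_A07pm_011_s1 : ∃ t, chk3 f_A07pm_011_s1 t 124 59 20 = true := ex3_b t1603_A07pm_011_s1 t1593_A07pm_011_s1

theorem t1605_A07pm_011_s1 : ∃ t, chk3 f_A07pm_011_s1 t 62 59 20 = true := ex3_a t1604_A07pm_011_s1 t1587_A07pm_011_s1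

theorem t1606_A07pm_011_s1 : ∃ t, chk3 f_A07pm_011_s1 t 62 59 10 = true := ex3_c t1605_A07pm_011_s1 t1467_A07pm_011_s1

theorem t1607_A07pm_011_s1 : ∃ t, chk3 f_A07pm_011_s1 t 62 59 5 = true := ex3_c t1606_A07pm_011_s1 t1417_A07pm_011_s1

theorem t1608_A07pm_011_s1 : ∃ t, chk3 f_A07pm_011_s1 t 125 58 5 = true := ex3_a k1008_A07pm_011_s1 k1009_A07pm_011_s1

theorem t1609_A07pm_011_s1 : ∃ t, chk3 f_A07pm_011_s1 t 498 117 5 = true := ex3_b k1005_A07pm_011_s1 k1006_A07pm_011_s1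

theorem t1610_A07pm_011_s1 : ∃ t, chk3 f_A07pm_011_s1 t 249 117 5 = true := ex3_a t1609_A07pm_011_s1 k1007_A07pm_011_s1

theorem t1611_A07pm_011_s1 : ∃ t, chk3 f_A07pm_011_s1 t 249 58 5 = true := ex3_b k1004_A07pm_011_s1 t1610_A07pm_011_s1

theorem t1612_A07pm_011_s1 : ∃ t, chk3 f_A07pm_011_s1 t 248 235 5 = true := ex3_c k1002_A07pm_011_s1 k1003_A07pm_011_s1

theorem t1613_A07pm_011_s1 : ∃ t, chk3 f_A07pm_011_s1 t 994 234 5 = true := ex3_c k999_A07pm_011_s1 k1000_A07pm_011_s1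

theorem t1614_A07pm_011_s1 : ∃ t, chk3 f_A07pm_011_s1 t 497 234 5 = true := ex3_a t1613_A07pm_011_s1 k1001_A07pm_011_s1

theorem t1615_A07pm_011_s1 : ∃ t, chk3 f_A07pm_011_s1 t 248 234 5 = true := ex3_a k998_A07pm_011_s1 t1614_A07pm_011_s1

theorem t1616_A07pm_011_s1 : ∃ t, chk3 f_A07pm_011_s1 t 248 117 5 = true := ex3_b t1615_A07pm_011_s1 t1612_A07pm_011_s1

theorem t1617_A07pm_011_s1 : ∃ t, chk3 f_A07pm_011_s1 t 496 467 5 = true := ex3_c k995_A07pm_011_s1 k996_A07pm_011_s1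

theorem t1618_A07pm_011_s1 : ∃ t, chk3 f_A07pm_011_s1 t 496 233 5 = true := ex3_b k994_A07pm_011_s1 t1617_A07pm_011_s1

theorem t1619_A07pm_011_s1 : ∃ t, chk3 f_A07pm_011_s1 t 496 116 5 = true := ex3_b k993_A07pm_011_s1 t1618_A07pm_011_s1

theorem t1620_A07pm_011_s1 : ∃ t, chk3 f_A07pm_011_s1 t 248 116 5 = true := ex3_a t1619_A07pm_011_s1 k997_A07pm_011_s1

theorem t1621_A07pm_011_s1 : ∃ t, chk3 f_A07pm_011_s1 t 248 58 5 = true := ex3_b t1620_A07pm_011_s1 t1616_A07pm_011_s1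

theorem t1622_A07pm_011_s1 : ∃ t, chk3 f_A07pm_011_s1 t 124 58 5 = true := ex3_a t1621_A07pm_011_s1 t1611_A07pm_011_s1

theorem t1623_A07pm_011_s1 : ∃ t, chk3 f_A07pm_011_s1 t 62 58 5 = true := ex3_a t1622_A07pm_011_s1 t1608_A07pm_011_s1

theorem t1624_A07pm_011_s1 : ∃ t, chk3 f_A07pm_011_s1 t 62 29 5 = true := ex3_b t1623_A07pm_011_s1 t1607_A07pm_011_s1

theorem t1625_A07pm_011_s1 : ∃ t, chk3 f_A07pm_011_s1 t 1007 239 19 = true := ex3_b k991_A07pm_011_s1 k992_A07pm_011_s1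

theorem t1626_A07pm_011_s1 : ∃ t, chk3 f_A07pm_011_s1 t 1006 239 19 = true := ex3_c k989_A07pm_011_s1 k990_A07pm_011_s1

theorem t1627_A07pm_011_s1 : ∃ t, chk3 f_A07pm_011_s1 t 503 239 19 = true := ex3_a t1626_A07pm_011_s1 t1625_A07pm_011_s1

theorem t1628_A07pm_011_s1 : ∃ t, chk3 f_A07pm_011_s1 t 502 479 38 = true := ex3_b k986_A07pm_011_s1 k987_A07pm_011_s1

theorem t1629_A07pm_011_s1 : ∃ t, chk3 f_A07pm_011_s1 t 502 479 19 = true := ex3_c t1628_A07pm_011_s1 k988_A07pm_011_s1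

theorem t1630_A07pm_011_s1 : ∃ t, chk3 f_A07pm_011_s1 t 502 478 19 = true := ex3_c k984_A07pm_011_s1 k985_A07pm_011_s1

theorem t1631_A07pm_011_s1 : ∃ t, chk3 f_A07pm_011_s1 t 502 239 19 = true := ex3_b t1630_A07pm_011_s1 t1629_A07pm_011_s1

theorem t1632_A07pm_011_s1 : ∃ t, chk3 f_A07pm_011_s1 t 251 239 19 = true := ex3_a t1631_A07pm_011_s1 t1627_A07pm_011_s1

theorem t1633_A07pm_011_s1 : ∃ t, chk3 f_A07pm_011_s1 t 502 238 38 = true := ex3_b k980_A07pm_011_s1 k981_A07pm_011_s1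

theorem t1634_A07pm_011_s1 : ∃ t, chk3 f_A07pm_011_s1 t 251 238 38 = true := ex3_a t1633_A07pm_011_s1 k982_A07pm_011_s1

theorem t1635_A07pm_011_s1 : ∃ t, chk3 f_A07pm_011_s1 t 251 238 19 = true := ex3_c t1634_A07pm_011_s1 k983_A07pm_011_s1

theorem t1636_A07pm_011_s1 : ∃ t, chk3 f_A07pm_011_s1 t 251 119 19 = true := ex3_b t1635_A07pm_011_s1 t1632_A07pm_011_s1

theorem t1637_A07pm_011_s1 : ∃ t, chk3 f_A07pm_011_s1 t 251 479 18 = true := ex3_a k978_A07pm_011_s1 k979_A07pm_011_s1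

theorem t1638_A07pm_011_s1 : ∃ t, chk3 f_A07pm_011_s1 t 251 478 18 = true := ex3_c k976_A07pm_011_s1 k977_A07pm_011_s1

theorem t1639_A07pm_011_s1 : ∃ t, chk3 f_A07pm_011_s1 t 251 239 18 = true := ex3_b t1638_A07pm_011_s1 t1637_A07pm_011_s1

theorem t1640_A07pm_011_s1 : ∃ t, chk3 f_A07pm_011_s1 t 503 238 18 = true := ex3_a k974_A07pm_011_s1 k975_A07pm_011_s1

theorem t1641_A07pm_011_s1 : ∃ t, chk3 f_A07pm_011_s1 t 502 238 18 = true := ex3_b k972_A07pm_011_s1 k973_A07pm_011_s1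

theorem t1642_A07pm_011_s1 : ∃ t, chk3 f_A07pm_011_s1 t 251 238 18 = true := ex3_a t1641_A07pm_011_s1 t1640_A07pm_011_s1

theorem t1643_A07pm_011_s1 : ∃ t, chk3 f_A07pm_011_s1 t 251 119 18 = true := ex3_b t1642_A07pm_011_s1 t1639_A07pm_011_s1

theorem t1644_A07pm_011_s1 : ∃ t, chk3 f_A07pm_011_s1 t 251 119 9 = true := ex3_c t1643_A07pm_011_s1 t1636_A07pm_011_s1

theorem t1645_A07pm_011_s1 : ∃ t, chk3 f_A07pm_011_s1 t 1003 1919 78 = true := ex3_a k969_A07pm_011_s1 k970_A07pm_011_s1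

theorem t1646_A07pm_011_s1 : ∃ t, chk3 f_A07pm_011_s1 t 1003 959 78 = true := ex3_b k968_A07pm_011_s1 t1645_A07pm_011_s1

theorem t1647_A07pm_011_s1 : ∃ t, chk3 f_A07pm_011_s1 t 1003 959 39 = true := ex3_c t1646_A07pm_011_s1 k971_A07pm_011_s1

theorem t1648_A07pm_011_s1 : ∃ t, chk3 f_A07pm_011_s1 t 1003 479 39 = true := ex3_b k967_A07pm_011_s1 t1647_A07pm_011_s1

theorem t1649_A07pm_011_s1 : ∃ t, chk3 f_A07pm_011_s1 t 2005 1919 159 = true := ex3_a k965_A07pm_011_s1 k966_A07pm_011_s1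

theorem t1650_A07pm_011_s1 : ∃ t, chk3 f_A07pm_011_s1 t 2005 3839 158 = true := ex3_a k963_A07pm_011_s1 k964_A07pm_011_s1

theorem t1651_A07pm_011_s1 : ∃ t, chk3 f_A07pm_011_s1 t 2005 1919 158 = true := ex3_b k962_A07pm_011_s1 t1650_A07pm_011_s1

theorem t1652_A07pm_011_s1 : ∃ t, chk3 f_A07pm_011_s1 t 2005 1919 79 = true := ex3_c t1651_A07pm_011_s1 t1649_A07pm_011_s1

theorem t1653_A07pm_011_s1 : ∃ t, chk3 f_A07pm_011_s1 t 2005 959 79 = true := ex3_b k961_A07pm_011_s1 t1652_A07pm_011_s1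

theorem t1654_A07pm_011_s1 : ∃ t, chk3 f_A07pm_011_s1 t 4009 1918 158 = true := ex3_b k957_A07pm_011_s1 k958_A07pm_011_s1

theorem t1655_A07pm_011_s1 : ∃ t, chk3 f_A07pm_011_s1 t 2004 1918 158 = true := ex3_a k956_A07pm_011_s1 t1654_A07pm_011_s1

theorem t1656_A07pm_011_s1 : ∃ t, chk3 f_A07pm_011_s1 t 2004 1918 79 = true := ex3_c t1655_A07pm_011_s1 k959_A07pm_011_s1

theorem t1657_A07pm_011_s1 : ∃ t, chk3 f_A07pm_011_s1 t 2004 959 79 = true := ex3_b t1656_A07pm_011_s1 k960_A07pm_011_s1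

theorem t1658_A07pm_011_s1 : ∃ t, chk3 f_A07pm_011_s1 t 1002 959 79 = true := ex3_a t1657_A07pm_011_s1 t1653_A07pm_011_s1

theorem t1659_A07pm_011_s1 : ∃ t, chk3 f_A07pm_011_s1 t 1002 958 79 = true := ex3_a k954_A07pm_011_s1 k955_A07pm_011_s1

theorem t1660_A07pm_011_s1 : ∃ t, chk3 f_A07pm_011_s1 t 1002 479 79 = true := ex3_b t1659_A07pm_011_s1 t1658_A07pm_011_s1

theorem t1661_A07pm_011_s1 : ∃ t, chk3 f_A07pm_011_s1 t 2005 1918 157 = true := ex3_b k951_A07pm_011_s1 k952_A07pm_011_s1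

theorem t1662_A07pm_011_s1 : ∃ t, chk3 f_A07pm_011_s1 t 2005 1918 78 = true := ex3_c k950_A07pm_011_s1 t1661_A07pm_011_s1

theorem t1663_A07pm_011_s1 : ∃ t, chk3 f_A07pm_011_s1 t 2004 1918 78 = true := ex3_c k948_A07pm_011_s1 k949_A07pm_011_s1

theorem t1664_A07pm_011_s1 : ∃ t, chk3 f_A07pm_011_s1 t 1002 1918 78 = true := ex3_a t1663_A07pm_011_s1 t1662_A07pm_011_s1

theorem t1665_A07pm_011_s1 : ∃ t, chk3 f_A07pm_011_s1 t 1002 959 78 = true := ex3_b t1664_A07pm_011_s1 k953_A07pm_011_s1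

theorem t1666_A07pm_011_s1 : ∃ t, chk3 f_A07pm_011_s1 t 2005 958 78 = true := ex3_b k946_A07pm_011_s1 k947_A07pm_011_s1

theorem t1667_A07pm_011_s1 : ∃ t, chk3 f_A07pm_011_s1 t 2004 1917 157 = true := ex3_a k944_A07pm_011_s1 k945_A07pm_011_s1

theorem t1668_A07pm_011_s1 : ∃ t, chk3 f_A07pm_011_s1 t 2004 1917 156 = true := ex3_a k942_A07pm_011_s1 k943_A07pm_011_s1

theorem t1669_A07pm_011_s1 : ∃ t, chk3 f_A07pm_011_s1 t 2004 1917 78 = true := ex3_c t1668_A07pm_011_s1 t1667_A07pm_011_s1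

theorem t1670_A07pm_011_s1 : ∃ t, chk3 f_A07pm_011_s1 t 2004 1916 157 = true := ex3_a k940_A07pm_011_s1 k941_A07pm_011_s1

theorem t1671_A07pm_011_s1 : ∃ t, chk3 f_A07pm_011_s1 t 2004 3833 156 = true := ex3_a k938_A07pm_011_s1 k939_A07pm_011_s1

theorem t1672_A07pm_011_s1 : ∃ t, chk3 f_A07pm_011_s1 t 2004 1916 156 = true := ex3_b k937_A07pm_011_s1 t1671_A07pm_011_s1

theorem t1673_A07pm_011_s1 : ∃ t, chk3 f_A07pm_011_s1 t 2004 1916 78 = true := ex3_c t1672_A07pm_011_s1 t1670_A07pm_011_s1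

theorem t1674_A07pm_011_s1 : ∃ t, chk3 f_A07pm_011_s1 t 2004 958 78 = true := ex3_b t1673_A07pm_011_s1 t1669_A07pm_011_s1

theorem t1675_A07pm_011_s1 : ∃ t, chk3 f_A07pm_011_s1 t 1002 958 78 = true := ex3_a t1674_A07pm_011_s1 t1666_A07pm_011_s1

theorem t1676_A07pm_011_s1 : ∃ t, chk3 f_A07pm_011_s1 t 1002 479 78 = true := ex3_b t1675_A07pm_011_s1 t1665_A07pm_011_s1

theorem t1677_A07pm_011_s1 : ∃ t, chk3 f_A07pm_011_s1 t 1002 479 39 = true := ex3_c t1676_A07pm_011_s1 t1660_A07pm_011_s1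

theorem t1678_A07pm_011_s1 : ∃ t, chk3 f_A07pm_011_s1 t 501 479 39 = true := ex3_a t1677_A07pm_011_s1 t1648_A07pm_011_s1

theorem t1679_A07pm_011_s1 : ∃ t, chk3 f_A07pm_011_s1 t 250 479 39 = true := ex3_a k936_A07pm_011_s1 t1678_A07pm_011_s1

theorem t1680_A07pm_011_s1 : ∃ t, chk3 f_A07pm_011_s1 t 501 957 156 = true := ex3_a k932_A07pm_011_s1 k933_A07pm_011_s1

theorem t1681_A07pm_011_s1 : ∃ t, chk3 f_A07pm_011_s1 t 1001 957 156 = true := ex3_b k930_A07pm_011_s1 k931_A07pm_011_s1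

theorem t1682_A07pm_011_s1 : ∃ t, chk3 f_A07pm_011_s1 t 500 957 156 = true := ex3_a k929_A07pm_011_s1 t1681_A07pm_011_s1

theorem t1683_A07pm_011_s1 : ∃ t, chk3 f_A07pm_011_s1 t 250 957 156 = true := ex3_a t1682_A07pm_011_s1 t1680_A07pm_011_s1

theorem t1684_A07pm_011_s1 : ∃ t, chk3 f_A07pm_011_s1 t 250 957 78 = true := ex3_c t1683_A07pm_011_s1 k934_A07pm_011_s1

theorem t1685_A07pm_011_s1 : ∃ t, chk3 f_A07pm_011_s1 t 250 478 78 = true := ex3_b k928_A07pm_011_s1 t1684_A07pm_011_s1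

theorem t1686_A07pm_011_s1 : ∃ t, chk3 f_A07pm_011_s1 t 250 478 39 = true := ex3_c t1685_A07pm_011_s1 k935_A07pm_011_s1

theorem t1687_A07pm_011_s1 : ∃ t, chk3 f_A07pm_011_s1 t 250 239 39 = true := ex3_b t1686_A07pm_011_s1 t1679_A07pm_011_s1

theorem t1688_A07pm_011_s1 : ∃ t, chk3 f_A07pm_011_s1 t 501 959 38 = true := ex3_a k926_A07pm_011_s1 k927_A07pm_011_s1

theorem t1689_A07pm_011_s1 : ∃ t, chk3 f_A07pm_011_s1 t 1003 958 38 = true := ex3_c k924_A07pm_011_s1 k925_A07pm_011_s1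

theorem t1690_A07pm_011_s1 : ∃ t, chk3 f_A07pm_011_s1 t 2005 958 77 = true := ex3_b k922_A07pm_011_s1 k923_A07pm_011_s1

theorem t1691_A07pm_011_s1 : ∃ t, chk3 f_A07pm_011_s1 t 1002 958 77 = true := ex3_a k921_A07pm_011_s1 t1690_A07pm_011_s1

theorem t1692_A07pm_011_s1 : ∃ t, chk3 f_A07pm_011_s1 t 1002 958 38 = true := ex3_c k920_A07pm_011_s1 t1691_A07pm_011_s1

theorem t1693_A07pm_011_s1 : ∃ t, chk3 f_A07pm_011_s1 t 501 958 38 = true := ex3_a t1692_A07pm_011_s1 t1689_A07pm_011_s1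

theorem t1694_A07pm_011_s1 : ∃ t, chk3 f_A07pm_011_s1 t 501 479 38 = true := ex3_b t1693_A07pm_011_s1 t1688_A07pm_011_s1

theorem t1695_A07pm_011_s1 : ∃ t, chk3 f_A07pm_011_s1 t 2004 1915 155 = true := ex3_b k916_A07pm_011_s1 k917_A07pm_011_s1

theorem t1696_A07pm_011_s1 : ∃ t, chk3 f_A07pm_011_s1 t 2004 1915 77 = true := ex3_c k915_A07pm_011_s1 t1695_A07pm_011_s1

theorem t1697_A07pm_011_s1 : ∃ t, chk3 f_A07pm_011_s1 t 1002 1915 77 = true := ex3_a t1696_A07pm_011_s1 k918_A07pm_011_s1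

theorem t1698_A07pm_011_s1 : ∃ t, chk3 f_A07pm_011_s1 t 1002 957 77 = true := ex3_b k914_A07pm_011_s1 t1697_A07pm_011_s1

theorem t1699_A07pm_011_s1 : ∃ t, chk3 f_A07pm_011_s1 t 1002 957 76 = true := ex3_a k912_A07pm_011_s1 k913_A07pm_011_s1

theorem t1700_A07pm_011_s1 : ∃ t, chk3 f_A07pm_011_s1 t 1002 957 38 = true := ex3_c t1699_A07pm_011_s1 t1698_A07pm_011_s1

theorem t1701_A07pm_011_s1 : ∃ t, chk3 f_A07pm_011_s1 t 1002 956 76 = true := ex3_b k909_A07pm_011_s1 k910_A07pm_011_s1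

theorem t1702_A07pm_011_s1 : ∃ t, chk3 f_A07pm_011_s1 t 1002 956 38 = true := ex3_c t1701_A07pm_011_s1 k911_A07pm_011_s1

theorem t1703_A07pm_011_s1 : ∃ t, chk3 f_A07pm_011_s1 t 1002 478 38 = true := ex3_b t1702_A07pm_011_s1 t1700_A07pm_011_s1

theorem t1704_A07pm_011_s1 : ∃ t, chk3 f_A07pm_011_s1 t 501 478 38 = true := ex3_a t1703_A07pm_011_s1 k919_A07pm_011_s1

theorem t1705_A07pm_011_s1 : ∃ t, chk3 f_A07pm_011_s1 t 501 239 38 = true := ex3_b t1704_A07pm_011_s1 t1694_A07pm_011_s1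

theorem t1706_A07pm_011_s1 : ∃ t, chk3 f_A07pm_011_s1 t 4007 1915 155 = true := ex3_b k906_A07pm_011_s1 k907_A07pm_011_s1

theorem t1707_A07pm_011_s1 : ∃ t, chk3 f_A07pm_011_s1 t 2003 1915 155 = true := ex3_a k905_A07pm_011_s1 t1706_A07pm_011_s1

theorem t1708_A07pm_011_s1 : ∃ t, chk3 f_A07pm_011_s1 t 1001 1915 155 = true := ex3_a k904_A07pm_011_s1 t1707_A07pm_011_s1

theorem t1709_A07pm_011_s1 : ∃ t, chk3 f_A07pm_011_s1 t 2003 1914 155 = true := ex3_a k902_A07pm_011_s1 k903_A07pm_011_s1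

theorem t1710_A07pm_011_s1 : ∃ t, chk3 f_A07pm_011_s1 t 1001 1914 155 = true := ex3_a k901_A07pm_011_s1 t1709_A07pm_011_s1

theorem t1711_A07pm_011_s1 : ∃ t, chk3 f_A07pm_011_s1 t 1001 957 155 = true := ex3_b t1710_A07pm_011_s1 t1708_A07pm_011_s1

theorem t1712_A07pm_011_s1 : ∃ t, chk3 f_A07pm_011_s1 t 2003 3828 154 = true := ex3_a k897_A07pm_011_s1 k898_A07pm_011_s1

theorem t1713_A07pm_011_s1 : ∃ t, chk3 f_A07pm_011_s1 t 2003 1914 154 = true := ex3_b t1712_A07pm_011_s1 k899_A07pm_011_s1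

theorem t1714_A07pm_011_s1 : ∃ t, chk3 f_A07pm_011_s1 t 2003 957 154 = true := ex3_b t1713_A07pm_011_s1 k900_A07pm_011_s1

theorem t1715_A07pm_011_s1 : ∃ t, chk3 f_A07pm_011_s1 t 1001 957 154 = true := ex3_a k896_A07pm_011_s1 t1714_A07pm_011_s1

theorem t1716_A07pm_011_s1 : ∃ t, chk3 f_A07pm_011_s1 t 1001 957 77 = true := ex3_c t1715_A07pm_011_s1 t1711_A07pm_011_s1

theorem t1717_A07pm_011_s1 : ∃ t, chk3 f_A07pm_011_s1 t 1001 956 155 = true := ex3_a k894_A07pm_011_s1 k895_A07pm_011_s1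

theorem t1718_A07pm_011_s1 : ∃ t, chk3 f_A07pm_011_s1 t 2003 1913 154 = true := ex3_b k892_A07pm_011_s1 k893_A07pm_011_s1

theorem t1719_A07pm_011_s1 : ∃ t, chk3 f_A07pm_011_s1 t 2003 956 154 = true := ex3_b k891_A07pm_011_s1 t1718_A07pm_011_s1

theorem t1720_A07pm_011_s1 : ∃ t, chk3 f_A07pm_011_s1 t 2002 956 154 = true := ex3_b k889_A07pm_011_s1 k890_A07pm_011_s1

theorem t1721_A07pm_011_s1 : ∃ t, chk3 f_A07pm_011_s1 t 1001 956 154 = true := ex3_a t1720_A07pm_011_s1 t1719_A07pm_011_s1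

theorem t1722_A07pm_011_s1 : ∃ t, chk3 f_A07pm_011_s1 t 1001 956 77 = true := ex3_c t1721_A07pm_011_s1 t1717_A07pm_011_s1

theorem t1723_A07pm_011_s1 : ∃ t, chk3 f_A07pm_011_s1 t 1001 478 77 = true := ex3_b t1722_A07pm_011_s1 t1716_A07pm_011_s1

theorem t1724_A07pm_011_s1 : ∃ t, chk3 f_A07pm_011_s1 t 2003 1913 153 = true := ex3_a k886_A07pm_011_s1 k887_A07pm_011_s1

theorem t1725_A07pm_011_s1 : ∃ t, chk3 f_A07pm_011_s1 t 1001 1913 153 = true := ex3_a k885_A07pm_011_s1 t1724_A07pm_011_s1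

theorem t1726_A07pm_011_s1 : ∃ t, chk3 f_A07pm_011_s1 t 1001 1913 76 = true := ex3_c k884_A07pm_011_s1 t1725_A07pm_011_s1

theorem t1727_A07pm_011_s1 : ∃ t, chk3 f_A07pm_011_s1 t 2003 1912 76 = true := ex3_c k882_A07pm_011_s1 k883_A07pm_011_s1

theorem t1728_A07pm_011_s1 : ∃ t, chk3 f_A07pm_011_s1 t 2002 1912 153 = true := ex3_b k880_A07pm_011_s1 k881_A07pm_011_s1

theorem t1729_A07pm_011_s1 : ∃ t, chk3 f_A07pm_011_s1 t 2002 1912 76 = true := ex3_c k879_A07pm_011_s1 t1728_A07pm_011_s1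

theorem t1730_A07pm_011_s1 : ∃ t, chk3 f_A07pm_011_s1 t 1001 1912 76 = true := ex3_a t1729_A07pm_011_s1 t1727_A07pm_011_s1

theorem t1731_A07pm_011_s1 : ∃ t, chk3 f_A07pm_011_s1 t 1001 956 76 = true := ex3_b t1730_A07pm_011_s1 t1726_A07pm_011_s1

theorem t1732_A07pm_011_s1 : ∃ t, chk3 f_A07pm_011_s1 t 1001 478 76 = true := ex3_b t1731_A07pm_011_s1 k888_A07pm_011_s1

theorem t1733_A07pm_011_s1 : ∃ t, chk3 f_A07pm_011_s1 t 1001 478 38 = true := ex3_c t1732_A07pm_011_s1 t1723_A07pm_011_s1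

theorem t1734_A07pm_011_s1 : ∃ t, chk3 f_A07pm_011_s1 t 500 478 38 = true := ex3_a k878_A07pm_011_s1 t1733_A07pm_011_s1

theorem t1735_A07pm_011_s1 : ∃ t, chk3 f_A07pm_011_s1 t 500 239 38 = true := ex3_b t1734_A07pm_011_s1 k908_A07pm_011_s1

theorem t1736_A07pm_011_s1 : ∃ t, chk3 f_A07pm_011_s1 t 250 239 38 = true := ex3_a t1735_A07pm_011_s1 t1705_A07pm_011_s1

theorem t1737_A07pm_011_s1 : ∃ t, chk3 f_A07pm_011_s1 t 250 239 19 = true := ex3_c t1736_A07pm_011_s1 t1687_A07pm_011_s1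

theorem t1738_A07pm_011_s1 : ∃ t, chk3 f_A07pm_011_s1 t 1003 478 37 = true := ex3_b k875_A07pm_011_s1 k876_A07pm_011_s1

theorem t1739_A07pm_011_s1 : ∃ t, chk3 f_A07pm_011_s1 t 1002 956 75 = true := ex3_a k872_A07pm_011_s1 k873_A07pm_011_s1

theorem t1740_A07pm_011_s1 : ∃ t, chk3 f_A07pm_011_s1 t 1002 956 37 = true := ex3_c k871_A07pm_011_s1 t1739_A07pm_011_s1

theorem t1741_A07pm_011_s1 : ∃ t, chk3 f_A07pm_011_s1 t 1002 478 37 = true := ex3_b t1740_A07pm_011_s1 k874_A07pm_011_s1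

theorem t1742_A07pm_011_s1 : ∃ t, chk3 f_A07pm_011_s1 t 501 478 37 = true := ex3_a t1741_A07pm_011_s1 t1738_A07pm_011_s1

theorem t1743_A07pm_011_s1 : ∃ t, chk3 f_A07pm_011_s1 t 501 478 18 = true := ex3_c k870_A07pm_011_s1 t1742_A07pm_011_s1

theorem t1744_A07pm_011_s1 : ∃ t, chk3 f_A07pm_011_s1 t 501 239 18 = true := ex3_b t1743_A07pm_011_s1 k877_A07pm_011_s1

theorem t1745_A07pm_011_s1 : ∃ t, chk3 f_A07pm_011_s1 t 1001 478 18 = true := ex3_a k867_A07pm_011_s1 k868_A07pm_011_s1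

theorem t1746_A07pm_011_s1 : ∃ t, chk3 f_A07pm_011_s1 t 500 478 18 = true := ex3_a k866_A07pm_011_s1 t1745_A07pm_011_s1

theorem t1747_A07pm_011_s1 : ∃ t, chk3 f_A07pm_011_s1 t 500 239 18 = true := ex3_b t1746_A07pm_011_s1 k869_A07pm_011_s1

theorem t1748_A07pm_011_s1 : ∃ t, chk3 f_A07pm_011_s1 t 250 239 18 = true := ex3_a t1747_A07pm_011_s1 t1744_A07pm_011_s1

theorem t1749_A07pm_011_s1 : ∃ t, chk3 f_A07pm_011_s1 t 250 239 9 = true := ex3_c t1748_A07pm_011_s1 t1737_A07pm_011_s1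

theorem t1750_A07pm_011_s1 : ∃ t, chk3 f_A07pm_011_s1 t 501 477 39 = true := ex3_c k864_A07pm_011_s1 k865_A07pm_011_s1

theorem t1751_A07pm_011_s1 : ∃ t, chk3 f_A07pm_011_s1 t 501 476 39 = true := ex3_c k862_A07pm_011_s1 k863_A07pm_011_s1

theorem t1752_A07pm_011_s1 : ∃ t, chk3 f_A07pm_011_s1 t 501 238 39 = true := ex3_b t1751_A07pm_011_s1 t1750_A07pm_011_s1

theorem t1753_A07pm_011_s1 : ∃ t, chk3 f_A07pm_011_s1 t 501 238 38 = true := ex3_a k860_A07pm_011_s1 k861_A07pm_011_s1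

theorem t1754_A07pm_011_s1 : ∃ t, chk3 f_A07pm_011_s1 t 501 238 19 = true := ex3_c t1753_A07pm_011_s1 t1752_A07pm_011_s1

theorem t1755_A07pm_011_s1 : ∃ t, chk3 f_A07pm_011_s1 t 2002 955 153 = true := ex3_a k855_A07pm_011_s1 k856_A07pm_011_s1

theorem t1756_A07pm_011_s1 : ∃ t, chk3 f_A07pm_011_s1 t 2002 1911 152 = true := ex3_b k853_A07pm_011_s1 k854_A07pm_011_s1

theorem t1757_A07pm_011_s1 : ∃ t, chk3 f_A07pm_011_s1 t 2002 955 152 = true := ex3_b k852_A07pm_011_s1 t1756_A07pm_011_s1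

theorem t1758_A07pm_011_s1 : ∃ t, chk3 f_A07pm_011_s1 t 2002 955 76 = true := ex3_c t1757_A07pm_011_s1 t1755_A07pm_011_s1

theorem t1759_A07pm_011_s1 : ∃ t, chk3 f_A07pm_011_s1 t 2002 477 76 = true := ex3_b k851_A07pm_011_s1 t1758_A07pm_011_s1

theorem t1760_A07pm_011_s1 : ∃ t, chk3 f_A07pm_011_s1 t 1001 477 76 = true := ex3_a t1759_A07pm_011_s1 k857_A07pm_011_s1

theorem t1761_A07pm_011_s1 : ∃ t, chk3 f_A07pm_011_s1 t 1001 477 38 = true := ex3_c t1760_A07pm_011_s1 k858_A07pm_011_s1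

theorem t1762_A07pm_011_s1 : ∃ t, chk3 f_A07pm_011_s1 t 2001 477 76 = true := ex3_b k848_A07pm_011_s1 k849_A07pm_011_s1

theorem t1763_A07pm_011_s1 : ∃ t, chk3 f_A07pm_011_s1 t 1000 477 76 = true := ex3_a k847_A07pm_011_s1 t1762_A07pm_011_s1

theorem t1764_A07pm_011_s1 : ∃ t, chk3 f_A07pm_011_s1 t 1000 477 38 = true := ex3_c t1763_A07pm_011_s1 k850_A07pm_011_s1

theorem t1765_A07pm_011_s1 : ∃ t, chk3 f_A07pm_011_s1 t 500 477 38 = true := ex3_a t1764_A07pm_011_s1 t1761_A07pm_011_s1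

theorem t1766_A07pm_011_s1 : ∃ t, chk3 f_A07pm_011_s1 t 500 477 19 = true := ex3_c t1765_A07pm_011_s1 k859_A07pm_011_s1

theorem t1767_A07pm_011_s1 : ∃ t, chk3 f_A07pm_011_s1 t 1001 476 79 = true := ex3_b k845_A07pm_011_s1 k846_A07pm_011_s1

theorem t1768_A07pm_011_s1 : ∃ t, chk3 f_A07pm_011_s1 t 1001 476 39 = true := ex3_c k844_A07pm_011_s1 t1767_A07pm_011_s1

theorem t1769_A07pm_011_s1 : ∃ t, chk3 f_A07pm_011_s1 t 1000 952 79 = true := ex3_a k841_A07pm_011_s1 k842_A07pm_011_s1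

theorem t1770_A07pm_011_s1 : ∃ t, chk3 f_A07pm_011_s1 t 1000 476 79 = true := ex3_b t1769_A07pm_011_s1 k843_A07pm_011_s1

theorem t1771_A07pm_011_s1 : ∃ t, chk3 f_A07pm_011_s1 t 1000 476 39 = true := ex3_c k840_A07pm_011_s1 t1770_A07pm_011_s1

theorem t1772_A07pm_011_s1 : ∃ t, chk3 f_A07pm_011_s1 t 500 476 39 = true := ex3_a t1771_A07pm_011_s1 t1768_A07pm_011_s1

theorem t1773_A07pm_011_s1 : ∃ t, chk3 f_A07pm_011_s1 t 500 476 19 = true := ex3_c k839_A07pm_011_s1 t1772_A07pm_011_s1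

theorem t1774_A07pm_011_s1 : ∃ t, chk3 f_A07pm_011_s1 t 500 238 19 = true := ex3_b t1773_A07pm_011_s1 t1766_A07pm_011_s1

theorem t1775_A07pm_011_s1 : ∃ t, chk3 f_A07pm_011_s1 t 250 238 19 = true := ex3_a t1774_A07pm_011_s1 t1754_A07pm_011_s1

theorem t1776_A07pm_011_s1 : ∃ t, chk3 f_A07pm_011_s1 t 1002 955 37 = true := ex3_c k836_A07pm_011_s1 k837_A07pm_011_s1

theorem t1777_A07pm_011_s1 : ∃ t, chk3 f_A07pm_011_s1 t 501 955 37 = true := ex3_a t1776_A07pm_011_s1 k838_A07pm_011_s1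

theorem t1778_A07pm_011_s1 : ∃ t, chk3 f_A07pm_011_s1 t 501 477 37 = true := ex3_b k835_A07pm_011_s1 t1777_A07pm_011_s1

theorem t1779_A07pm_011_s1 : ∃ t, chk3 f_A07pm_011_s1 t 501 238 37 = true := ex3_b k834_A07pm_011_s1 t1778_A07pm_011_s1

theorem t1780_A07pm_011_s1 : ∃ t, chk3 f_A07pm_011_s1 t 2003 955 75 = true := ex3_b k832_A07pm_011_s1 k833_A07pm_011_s1

theorem t1781_A07pm_011_s1 : ∃ t, chk3 f_A07pm_011_s1 t 2002 1910 151 = true := ex3_a k829_A07pm_011_s1 k830_A07pm_011_s1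

theorem t1782_A07pm_011_s1 : ∃ t, chk3 f_A07pm_011_s1 t 2002 1910 75 = true := ex3_c k828_A07pm_011_s1 t1781_A07pm_011_s1

theorem t1783_A07pm_011_s1 : ∃ t, chk3 f_A07pm_011_s1 t 2002 955 75 = true := ex3_b t1782_A07pm_011_s1 k831_A07pm_011_s1

theorem t1784_A07pm_011_s1 : ∃ t, chk3 f_A07pm_011_s1 t 1001 955 75 = true := ex3_a t1783_A07pm_011_s1 t1780_A07pm_011_s1

theorem t1785_A07pm_011_s1 : ∃ t, chk3 f_A07pm_011_s1 t 2002 1909 75 = true := ex3_c k825_A07pm_011_s1 k826_A07pm_011_s1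

theorem t1786_A07pm_011_s1 : ∃ t, chk3 f_A07pm_011_s1 t 2002 954 75 = true := ex3_b k824_A07pm_011_s1 t1785_A07pm_011_s1

theorem t1787_A07pm_011_s1 : ∃ t, chk3 f_A07pm_011_s1 t 1001 954 75 = true := ex3_a t1786_A07pm_011_s1 k827_A07pm_011_s1

theorem t1788_A07pm_011_s1 : ∃ t, chk3 f_A07pm_011_s1 t 1001 477 75 = true := ex3_b t1787_A07pm_011_s1 t1784_A07pm_011_s1

theorem t1789_A07pm_011_s1 : ∃ t, chk3 f_A07pm_011_s1 t 2001 954 151 = true := ex3_b k821_A07pm_011_s1 k822_A07pm_011_s1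

theorem t1790_A07pm_011_s1 : ∃ t, chk3 f_A07pm_011_s1 t 2001 477 151 = true := ex3_b t1789_A07pm_011_s1 k823_A07pm_011_s1

theorem t1791_A07pm_011_s1 : ∃ t, chk3 f_A07pm_011_s1 t 1000 477 151 = true := ex3_a k820_A07pm_011_s1 t1790_A07pm_011_s1

theorem t1792_A07pm_011_s1 : ∃ t, chk3 f_A07pm_011_s1 t 2001 1908 150 = true := ex3_b k816_A07pm_011_s1 k817_A07pm_011_s1

theorem t1793_A07pm_011_s1 : ∃ t, chk3 f_A07pm_011_s1 t 2001 954 150 = true := ex3_b t1792_A07pm_011_s1 k818_A07pm_011_s1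

theorem t1794_A07pm_011_s1 : ∃ t, chk3 f_A07pm_011_s1 t 2001 477 150 = true := ex3_b t1793_A07pm_011_s1 k819_A07pm_011_s1

theorem t1795_A07pm_011_s1 : ∃ t, chk3 f_A07pm_011_s1 t 1000 477 150 = true := ex3_a k815_A07pm_011_s1 t1794_A07pm_011_s1

theorem t1796_A07pm_011_s1 : ∃ t, chk3 f_A07pm_011_s1 t 1000 477 75 = true := ex3_c t1795_A07pm_011_s1 t1791_A07pm_011_s1

theorem t1797_A07pm_011_s1 : ∃ t, chk3 f_A07pm_011_s1 t 500 477 75 = true := ex3_a t1796_A07pm_011_s1 t1788_A07pm_011_s1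

theorem t1798_A07pm_011_s1 : ∃ t, chk3 f_A07pm_011_s1 t 2002 954 74 = true := ex3_b k811_A07pm_011_s1 k812_A07pm_011_s1

theorem t1799_A07pm_011_s1 : ∃ t, chk3 f_A07pm_011_s1 t 1001 954 74 = true := ex3_a t1798_A07pm_011_s1 k813_A07pm_011_s1

theorem t1800_A07pm_011_s1 : ∃ t, chk3 f_A07pm_011_s1 t 1001 477 74 = true := ex3_b t1799_A07pm_011_s1 k814_A07pm_011_s1

theorem t1801_A07pm_011_s1 : ∃ t, chk3 f_A07pm_011_s1 t 500 477 74 = true := ex3_a k810_A07pm_011_s1 t1800_A07pm_011_s1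

theorem t1802_A07pm_011_s1 : ∃ t, chk3 f_A07pm_011_s1 t 500 477 37 = true := ex3_c t1801_A07pm_011_s1 t1797_A07pm_011_s1

theorem t1803_A07pm_011_s1 : ∃ t, chk3 f_A07pm_011_s1 t 2002 476 37 = true := ex3_b k807_A07pm_011_s1 k808_A07pm_011_s1

theorem t1804_A07pm_011_s1 : ∃ t, chk3 f_A07pm_011_s1 t 1001 476 37 = true := ex3_a t1803_A07pm_011_s1 k809_A07pm_011_s1

theorem t1805_A07pm_011_s1 : ∃ t, chk3 f_A07pm_011_s1 t 1000 953 150 = true := ex3_a k804_A07pm_011_s1 k805_A07pm_011_s1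

theorem t1806_A07pm_011_s1 : ∃ t, chk3 f_A07pm_011_s1 t 1000 953 75 = true := ex3_c t1805_A07pm_011_s1 k806_A07pm_011_s1

theorem t1807_A07pm_011_s1 : ∃ t, chk3 f_A07pm_011_s1 t 1000 476 75 = true := ex3_b k803_A07pm_011_s1 t1806_A07pm_011_s1

theorem t1808_A07pm_011_s1 : ∃ t, chk3 f_A07pm_011_s1 t 2001 1907 149 = true := ex3_b k801_A07pm_011_s1 k802_A07pm_011_s1

theorem t1809_A07pm_011_s1 : ∃ t, chk3 f_A07pm_011_s1 t 1000 1907 149 = true := ex3_a k800_A07pm_011_s1 t1808_A07pm_011_s1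

theorem t1810_A07pm_011_s1 : ∃ t, chk3 f_A07pm_011_s1 t 1000 1907 74 = true := ex3_c k799_A07pm_011_s1 t1809_A07pm_011_s1

theorem t1811_A07pm_011_s1 : ∃ t, chk3 f_A07pm_011_s1 t 2001 1906 74 = true := ex3_c k797_A07pm_011_s1 k798_A07pm_011_s1

theorem t1812_A07pm_011_s1 : ∃ t, chk3 f_A07pm_011_s1 t 2000 1906 74 = true := ex3_c k795_A07pm_011_s1 k796_A07pm_011_s1

theorem t1813_A07pm_011_s1 : ∃ t, chk3 f_A07pm_011_s1 t 1000 1906 74 = true := ex3_a t1812_A07pm_011_s1 t1811_A07pm_011_s1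

theorem t1814_A07pm_011_s1 : ∃ t, chk3 f_A07pm_011_s1 t 1000 953 74 = true := ex3_b t1813_A07pm_011_s1 t1810_A07pm_011_s1

theorem t1815_A07pm_011_s1 : ∃ t, chk3 f_A07pm_011_s1 t 2000 1905 74 = true := ex3_a k792_A07pm_011_s1 k793_A07pm_011_s1

theorem t1816_A07pm_011_s1 : ∃ t, chk3 f_A07pm_011_s1 t 2000 952 74 = true := ex3_b k791_A07pm_011_s1 t1815_A07pm_011_s1

theorem t1817_A07pm_011_s1 : ∃ t, chk3 f_A07pm_011_s1 t 1000 952 74 = true := ex3_a t1816_A07pm_011_s1 k794_A07pm_011_s1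

theorem t1818_A07pm_011_s1 : ∃ t, chk3 f_A07pm_011_s1 t 1000 476 74 = true := ex3_b t1817_A07pm_011_s1 t1814_A07pm_011_s1

theorem t1819_A07pm_011_s1 : ∃ t, chk3 f_A07pm_011_s1 t 1000 476 37 = true := ex3_c t1818_A07pm_011_s1 t1807_A07pm_011_s1

theorem t1820_A07pm_011_s1 : ∃ t, chk3 f_A07pm_011_s1 t 500 476 37 = true := ex3_a t1819_A07pm_011_s1 t1804_A07pm_011_s1

theorem t1821_A07pm_011_s1 : ∃ t, chk3 f_A07pm_011_s1 t 500 238 37 = true := ex3_b t1820_A07pm_011_s1 t1802_A07pm_011_s1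

theorem t1822_A07pm_011_s1 : ∃ t, chk3 f_A07pm_011_s1 t 250 238 37 = true := ex3_a t1821_A07pm_011_s1 t1779_A07pm_011_s1

theorem t1823_A07pm_011_s1 : ∃ t, chk3 f_A07pm_011_s1 t 501 477 36 = true := ex3_a k789_A07pm_011_s1 k790_A07pm_011_s1

theorem t1824_A07pm_011_s1 : ∃ t, chk3 f_A07pm_011_s1 t 250 477 36 = true := ex3_a k788_A07pm_011_s1 t1823_A07pm_011_s1

theorem t1825_A07pm_011_s1 : ∃ t, chk3 f_A07pm_011_s1 t 1001 953 73 = true := ex3_a k785_A07pm_011_s1 k786_A07pm_011_s1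

theorem t1826_A07pm_011_s1 : ∃ t, chk3 f_A07pm_011_s1 t 1001 953 36 = true := ex3_c k784_A07pm_011_s1 t1825_A07pm_011_s1

theorem t1827_A07pm_011_s1 : ∃ t, chk3 f_A07pm_011_s1 t 500 953 36 = true := ex3_a k783_A07pm_011_s1 t1826_A07pm_011_s1

theorem t1828_A07pm_011_s1 : ∃ t, chk3 f_A07pm_011_s1 t 1001 952 36 = true := ex3_c k781_A07pm_011_s1 k782_A07pm_011_s1

theorem t1829_A07pm_011_s1 : ∃ t, chk3 f_A07pm_011_s1 t 1000 1905 73 = true := ex3_a k779_A07pm_011_s1 k780_A07pm_011_s1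

theorem t1830_A07pm_011_s1 : ∃ t, chk3 f_A07pm_011_s1 t 2000 1904 147 = true := ex3_b k776_A07pm_011_s1 k777_A07pm_011_s1

theorem t1831_A07pm_011_s1 : ∃ t, chk3 f_A07pm_011_s1 t 2000 1904 73 = true := ex3_c k775_A07pm_011_s1 t1830_A07pm_011_s1

theorem t1832_A07pm_011_s1 : ∃ t, chk3 f_A07pm_011_s1 t 1000 1904 73 = true := ex3_a t1831_A07pm_011_s1 k778_A07pm_011_s1

theorem t1833_A07pm_011_s1 : ∃ t, chk3 f_A07pm_011_s1 t 1000 952 73 = true := ex3_b t1832_A07pm_011_s1 t1829_A07pm_011_s1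

theorem t1834_A07pm_011_s1 : ∃ t, chk3 f_A07pm_011_s1 t 1000 952 36 = true := ex3_c k774_A07pm_011_s1 t1833_A07pm_011_s1

theorem t1835_A07pm_011_s1 : ∃ t, chk3 f_A07pm_011_s1 t 500 952 36 = true := ex3_a t1834_A07pm_011_s1 t1828_A07pm_011_s1

theorem t1836_A07pm_011_s1 : ∃ t, chk3 f_A07pm_011_s1 t 500 476 36 = true := ex3_b t1835_A07pm_011_s1 t1827_A07pm_011_s1

theorem t1837_A07pm_011_s1 : ∃ t, chk3 f_A07pm_011_s1 t 250 476 36 = true := ex3_a t1836_A07pm_011_s1 k787_A07pm_011_s1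

theorem t1838_A07pm_011_s1 : ∃ t, chk3 f_A07pm_011_s1 t 250 238 36 = true := ex3_b t1837_A07pm_011_s1 t1824_A07pm_011_s1

theorem t1839_A07pm_011_s1 : ∃ t, chk3 f_A07pm_011_s1 t 250 238 18 = true := ex3_c t1838_A07pm_011_s1 t1822_A07pm_011_s1

theorem t1840_A07pm_011_s1 : ∃ t, chk3 f_A07pm_011_s1 t 250 238 9 = true := ex3_c t1839_A07pm_011_s1 t1775_A07pm_011_s1

theorem t1841_A07pm_011_s1 : ∃ t, chk3 f_A07pm_011_s1 t 250 119 9 = true := ex3_b t1840_A07pm_011_s1 t1749_A07pm_011_s1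

theorem t1842_A07pm_011_s1 : ∃ t, chk3 f_A07pm_011_s1 t 125 119 9 = true := ex3_a t1841_A07pm_011_s1 t1644_A07pm_011_s1

theorem t1843_A07pm_011_s1 : ∃ t, chk3 f_A07pm_011_s1 t 1000 951 158 = true := ex3_b k768_A07pm_011_s1 k769_A07pm_011_s1

theorem t1844_A07pm_011_s1 : ∃ t, chk3 f_A07pm_011_s1 t 1000 951 79 = true := ex3_c t1843_A07pm_011_s1 k770_A07pm_011_s1

theorem t1845_A07pm_011_s1 : ∃ t, chk3 f_A07pm_011_s1 t 1000 475 79 = true := ex3_b k767_A07pm_011_s1 t1844_A07pm_011_s1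

theorem t1846_A07pm_011_s1 : ∃ t, chk3 f_A07pm_011_s1 t 500 475 79 = true := ex3_a t1845_A07pm_011_s1 k771_A07pm_011_s1

theorem t1847_A07pm_011_s1 : ∃ t, chk3 f_A07pm_011_s1 t 1000 475 78 = true := ex3_b k764_A07pm_011_s1 k765_A07pm_011_s1

theorem t1848_A07pm_011_s1 : ∃ t, chk3 f_A07pm_011_s1 t 500 475 78 = true := ex3_a t1847_A07pm_011_s1 k766_A07pm_011_s1

theorem t1849_A07pm_011_s1 : ∃ t, chk3 f_A07pm_011_s1 t 500 475 39 = true := ex3_c t1848_A07pm_011_s1 t1846_A07pm_011_s1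

theorem t1850_A07pm_011_s1 : ∃ t, chk3 f_A07pm_011_s1 t 500 474 39 = true := ex3_a k762_A07pm_011_s1 k763_A07pm_011_s1

theorem t1851_A07pm_011_s1 : ∃ t, chk3 f_A07pm_011_s1 t 500 237 39 = true := ex3_b t1850_A07pm_011_s1 t1849_A07pm_011_s1

theorem t1852_A07pm_011_s1 : ∃ t, chk3 f_A07pm_011_s1 t 250 237 39 = true := ex3_a t1851_A07pm_011_s1 k772_A07pm_011_s1

theorem t1853_A07pm_011_s1 : ∃ t, chk3 f_A07pm_011_s1 t 500 475 38 = true := ex3_a k759_A07pm_011_s1 k760_A07pm_011_s1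

theorem t1854_A07pm_011_s1 : ∃ t, chk3 f_A07pm_011_s1 t 500 474 76 = true := ex3_a k756_A07pm_011_s1 k757_A07pm_011_s1

theorem t1855_A07pm_011_s1 : ∃ t, chk3 f_A07pm_011_s1 t 500 474 38 = true := ex3_c t1854_A07pm_011_s1 k758_A07pm_011_s1

theorem t1856_A07pm_011_s1 : ∃ t, chk3 f_A07pm_011_s1 t 500 237 38 = true := ex3_b t1855_A07pm_011_s1 t1853_A07pm_011_s1

theorem t1857_A07pm_011_s1 : ∃ t, chk3 f_A07pm_011_s1 t 250 237 38 = true := ex3_a t1856_A07pm_011_s1 k761_A07pm_011_s1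

theorem t1858_A07pm_011_s1 : ∃ t, chk3 f_A07pm_011_s1 t 250 237 19 = true := ex3_c t1857_A07pm_011_s1 t1852_A07pm_011_s1

theorem t1859_A07pm_011_s1 : ∃ t, chk3 f_A07pm_011_s1 t 500 236 38 = true := ex3_a k752_A07pm_011_s1 k753_A07pm_011_s1

theorem t1860_A07pm_011_s1 : ∃ t, chk3 f_A07pm_011_s1 t 500 236 19 = true := ex3_c t1859_A07pm_011_s1 k754_A07pm_011_s1

theorem t1861_A07pm_011_s1 : ∃ t, chk3 f_A07pm_011_s1 t 250 236 19 = true := ex3_a t1860_A07pm_011_s1 k755_A07pm_011_s1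

theorem t1862_A07pm_011_s1 : ∃ t, chk3 f_A07pm_011_s1 t 250 118 19 = true := ex3_b t1861_A07pm_011_s1 t1858_A07pm_011_s1

theorem t1863_A07pm_011_s1 : ∃ t, chk3 f_A07pm_011_s1 t 125 118 19 = true := ex3_a t1862_A07pm_011_s1 k773_A07pm_011_s1

theorem t1864_A07pm_011_s1 : ∃ t, chk3 f_A07pm_011_s1 t 251 475 36 = true := ex3_a k749_A07pm_011_s1 k750_A07pm_011_s1

theorem t1865_A07pm_011_s1 : ∃ t, chk3 f_A07pm_011_s1 t 251 475 18 = true := ex3_c t1864_A07pm_011_s1 k751_A07pm_011_s1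

theorem t1866_A07pm_011_s1 : ∃ t, chk3 f_A07pm_011_s1 t 251 237 18 = true := ex3_b k748_A07pm_011_s1 t1865_A07pm_011_s1

theorem t1867_A07pm_011_s1 : ∃ t, chk3 f_A07pm_011_s1 t 251 118 18 = true := ex3_b k747_A07pm_011_s1 t1866_A07pm_011_s1

theorem t1868_A07pm_011_s1 : ∃ t, chk3 f_A07pm_011_s1 t 501 475 18 = true := ex3_c k745_A07pm_011_s1 k746_A07pm_011_s1

theorem t1869_A07pm_011_s1 : ∃ t, chk3 f_A07pm_011_s1 t 501 474 18 = true := ex3_c k743_A07pm_011_s1 k744_A07pm_011_s1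

theorem t1870_A07pm_011_s1 : ∃ t, chk3 f_A07pm_011_s1 t 501 237 18 = true := ex3_b t1869_A07pm_011_s1 t1868_A07pm_011_s1

theorem t1871_A07pm_011_s1 : ∃ t, chk3 f_A07pm_011_s1 t 500 237 37 = true := ex3_a k741_A07pm_011_s1 k742_A07pm_011_s1

theorem t1872_A07pm_011_s1 : ∃ t, chk3 f_A07pm_011_s1 t 2000 1903 73 = true := ex3_c k737_A07pm_011_s1 k738_A07pm_011_s1

theorem t1873_A07pm_011_s1 : ∃ t, chk3 f_A07pm_011_s1 t 2000 951 73 = true := ex3_b k736_A07pm_011_s1 t1872_A07pm_011_s1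

theorem t1874_A07pm_011_s1 : ∃ t, chk3 f_A07pm_011_s1 t 1000 951 73 = true := ex3_a t1873_A07pm_011_s1 k739_A07pm_011_s1

theorem t1875_A07pm_011_s1 : ∃ t, chk3 f_A07pm_011_s1 t 1000 1903 72 = true := ex3_a k734_A07pm_011_s1 k735_A07pm_011_s1

theorem t1876_A07pm_011_s1 : ∃ t, chk3 f_A07pm_011_s1 t 1000 951 72 = true := ex3_b k733_A07pm_011_s1 t1875_A07pm_011_s1

theorem t1877_A07pm_011_s1 : ∃ t, chk3 f_A07pm_011_s1 t 1000 951 36 = true := ex3_c t1876_A07pm_011_s1 t1874_A07pm_011_s1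

theorem t1878_A07pm_011_s1 : ∃ t, chk3 f_A07pm_011_s1 t 1000 475 36 = true := ex3_b k732_A07pm_011_s1 t1877_A07pm_011_s1

theorem t1879_A07pm_011_s1 : ∃ t, chk3 f_A07pm_011_s1 t 1000 237 36 = true := ex3_b k731_A07pm_011_s1 t1878_A07pm_011_s1

theorem t1880_A07pm_011_s1 : ∃ t, chk3 f_A07pm_011_s1 t 500 237 36 = true := ex3_a t1879_A07pm_011_s1 k740_A07pm_011_s1

theorem t1881_A07pm_011_s1 : ∃ t, chk3 f_A07pm_011_s1 t 500 237 18 = true := ex3_c t1880_A07pm_011_s1 t1871_A07pm_011_s1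

theorem t1882_A07pm_011_s1 : ∃ t, chk3 f_A07pm_011_s1 t 250 237 18 = true := ex3_a t1881_A07pm_011_s1 t1870_A07pm_011_s1

theorem t1883_A07pm_011_s1 : ∃ t, chk3 f_A07pm_011_s1 t 500 473 37 = true := ex3_c k728_A07pm_011_s1 k729_A07pm_011_s1

theorem t1884_A07pm_011_s1 : ∃ t, chk3 f_A07pm_011_s1 t 250 473 37 = true := ex3_a t1883_A07pm_011_s1 k730_A07pm_011_s1

theorem t1885_A07pm_011_s1 : ∃ t, chk3 f_A07pm_011_s1 t 250 236 37 = true := ex3_b k727_A07pm_011_s1 t1884_A07pm_011_s1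

theorem t1886_A07pm_011_s1 : ∃ t, chk3 f_A07pm_011_s1 t 500 236 36 = true := ex3_b k724_A07pm_011_s1 k725_A07pm_011_s1

theorem t1887_A07pm_011_s1 : ∃ t, chk3 f_A07pm_011_s1 t 250 236 36 = true := ex3_a t1886_A07pm_011_s1 k726_A07pm_011_s1

theorem t1888_A07pm_011_s1 : ∃ t, chk3 f_A07pm_011_s1 t 250 236 18 = true := ex3_c t1887_A07pm_011_s1 t1885_A07pm_011_s1

theorem t1889_A07pm_011_s1 : ∃ t, chk3 f_A07pm_011_s1 t 250 118 18 = true := ex3_b t1888_A07pm_011_s1 t1882_A07pm_011_s1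

theorem t1890_A07pm_011_s1 : ∃ t, chk3 f_A07pm_011_s1 t 125 118 18 = true := ex3_a t1889_A07pm_011_s1 t1867_A07pm_011_s1

theorem t1891_A07pm_011_s1 : ∃ t, chk3 f_A07pm_011_s1 t 125 118 9 = true := ex3_c t1890_A07pm_011_s1 t1863_A07pm_011_s1

theorem t1892_A07pm_011_s1 : ∃ t, chk3 f_A07pm_011_s1 t 125 59 9 = true := ex3_b t1891_A07pm_011_s1 t1842_A07pm_011_s1

theorem t1893_A07pm_011_s1 : ∃ t, chk3 f_A07pm_011_s1 t 251 238 17 = true := ex3_c k721_A07pm_011_s1 k722_A07pm_011_s1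

theorem t1894_A07pm_011_s1 : ∃ t, chk3 f_A07pm_011_s1 t 251 119 17 = true := ex3_b t1893_A07pm_011_s1 k723_A07pm_011_s1

theorem t1895_A07pm_011_s1 : ∃ t, chk3 f_A07pm_011_s1 t 251 119 8 = true := ex3_c k720_A07pm_011_s1 t1894_A07pm_011_s1

theorem t1896_A07pm_011_s1 : ∃ t, chk3 f_A07pm_011_s1 t 4008 959 8 = true := ex3_a k715_A07pm_011_s1 k716_A07pm_011_s1

theorem t1897_A07pm_011_s1 : ∃ t, chk3 f_A07pm_011_s1 t 2004 959 8 = true := ex3_a t1896_A07pm_011_s1 k717_A07pm_011_s1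

theorem t1898_A07pm_011_s1 : ∃ t, chk3 f_A07pm_011_s1 t 2004 479 8 = true := ex3_b k714_A07pm_011_s1 t1897_A07pm_011_s1

theorem t1899_A07pm_011_s1 : ∃ t, chk3 f_A07pm_011_s1 t 1002 479 8 = true := ex3_a t1898_A07pm_011_s1 k718_A07pm_011_s1

theorem t1900_A07pm_011_s1 : ∃ t, chk3 f_A07pm_011_s1 t 1002 239 8 = true := ex3_b k713_A07pm_011_s1 t1899_A07pm_011_s1

theorem t1901_A07pm_011_s1 : ∃ t, chk3 f_A07pm_011_s1 t 501 239 8 = true := ex3_a t1900_A07pm_011_s1 k719_A07pm_011_s1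

theorem t1902_A07pm_011_s1 : ∃ t, chk3 f_A07pm_011_s1 t 501 476 35 = true := ex3_a k710_A07pm_011_s1 k711_A07pm_011_s1

theorem t1903_A07pm_011_s1 : ∃ t, chk3 f_A07pm_011_s1 t 501 476 17 = true := ex3_c k709_A07pm_011_s1 t1902_A07pm_011_s1

theorem t1904_A07pm_011_s1 : ∃ t, chk3 f_A07pm_011_s1 t 501 238 17 = true := ex3_b t1903_A07pm_011_s1 k712_A07pm_011_s1

theorem t1905_A07pm_011_s1 : ∃ t, chk3 f_A07pm_011_s1 t 501 238 8 = true := ex3_c k708_A07pm_011_s1 t1904_A07pm_011_s1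

theorem t1906_A07pm_011_s1 : ∃ t, chk3 f_A07pm_011_s1 t 501 119 8 = true := ex3_b t1905_A07pm_011_s1 t1901_A07pm_011_s1

theorem t1907_A07pm_011_s1 : ∃ t, chk3 f_A07pm_011_s1 t 2003 958 8 = true := ex3_a k705_A07pm_011_s1 k706_A07pm_011_s1

theorem t1908_A07pm_011_s1 : ∃ t, chk3 f_A07pm_011_s1 t 1001 958 8 = true := ex3_a k704_A07pm_011_s1 t1907_A07pm_011_s1

theorem t1909_A07pm_011_s1 : ∃ t, chk3 f_A07pm_011_s1 t 1001 479 8 = true := ex3_b t1908_A07pm_011_s1 k707_A07pm_011_s1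

theorem t1910_A07pm_011_s1 : ∃ t, chk3 f_A07pm_011_s1 t 2002 478 8 = true := ex3_b k701_A07pm_011_s1 k702_A07pm_011_s1

theorem t1911_A07pm_011_s1 : ∃ t, chk3 f_A07pm_011_s1 t 1001 478 8 = true := ex3_a t1910_A07pm_011_s1 k703_A07pm_011_s1

theorem t1912_A07pm_011_s1 : ∃ t, chk3 f_A07pm_011_s1 t 1001 239 8 = true := ex3_b t1911_A07pm_011_s1 t1909_A07pm_011_s1

theorem t1913_A07pm_011_s1 : ∃ t, chk3 f_A07pm_011_s1 t 500 239 8 = true := ex3_a k700_A07pm_011_s1 t1912_A07pm_011_s1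

theorem t1914_A07pm_011_s1 : ∃ t, chk3 f_A07pm_011_s1 t 2001 955 8 = true := ex3_a k697_A07pm_011_s1 k698_A07pm_011_s1

theorem t1915_A07pm_011_s1 : ∃ t, chk3 f_A07pm_011_s1 t 2001 477 8 = true := ex3_b k696_A07pm_011_s1 t1914_A07pm_011_s1

theorem t1916_A07pm_011_s1 : ∃ t, chk3 f_A07pm_011_s1 t 1000 477 8 = true := ex3_a k695_A07pm_011_s1 t1915_A07pm_011_s1

theorem t1917_A07pm_011_s1 : ∃ t, chk3 f_A07pm_011_s1 t 1000 238 8 = true := ex3_b k694_A07pm_011_s1 t1916_A07pm_011_s1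

theorem t1918_A07pm_011_s1 : ∃ t, chk3 f_A07pm_011_s1 t 500 238 8 = true := ex3_a t1917_A07pm_011_s1 k699_A07pm_011_s1

theorem t1919_A07pm_011_s1 : ∃ t, chk3 f_A07pm_011_s1 t 500 119 8 = true := ex3_b t1918_A07pm_011_s1 t1913_A07pm_011_s1

theorem t1920_A07pm_011_s1 : ∃ t, chk3 f_A07pm_011_s1 t 250 119 8 = true := ex3_a t1919_A07pm_011_s1 t1906_A07pm_011_s1

theorem t1921_A07pm_011_s1 : ∃ t, chk3 f_A07pm_011_s1 t 125 119 8 = true := ex3_a t1920_A07pm_011_s1 t1895_A07pm_011_s1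

theorem t1922_A07pm_011_s1 : ∃ t, chk3 f_A07pm_011_s1 t 251 237 17 = true := ex3_b k692_A07pm_011_s1 k693_A07pm_011_s1

theorem t1923_A07pm_011_s1 : ∃ t, chk3 f_A07pm_011_s1 t 251 236 34 = true := ex3_a k689_A07pm_011_s1 k690_A07pm_011_s1

theorem t1924_A07pm_011_s1 : ∃ t, chk3 f_A07pm_011_s1 t 251 236 17 = true := ex3_c t1923_A07pm_011_s1 k691_A07pm_011_s1

theorem t1925_A07pm_011_s1 : ∃ t, chk3 f_A07pm_011_s1 t 251 118 17 = true := ex3_b t1924_A07pm_011_s1 t1922_A07pm_011_s1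

theorem t1926_A07pm_011_s1 : ∃ t, chk3 f_A07pm_011_s1 t 251 118 16 = true := ex3_b k687_A07pm_011_s1 k688_A07pm_011_s1

theorem t1927_A07pm_011_s1 : ∃ t, chk3 f_A07pm_011_s1 t 251 118 8 = true := ex3_c t1926_A07pm_011_s1 t1925_A07pm_011_s1

theorem t1928_A07pm_011_s1 : ∃ t, chk3 f_A07pm_011_s1 t 501 475 17 = true := ex3_c k685_A07pm_011_s1 k686_A07pm_011_s1

theorem t1929_A07pm_011_s1 : ∃ t, chk3 f_A07pm_011_s1 t 501 237 17 = true := ex3_b k684_A07pm_011_s1 t1928_A07pm_011_s1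

theorem t1930_A07pm_011_s1 : ∃ t, chk3 f_A07pm_011_s1 t 1001 475 35 = true := ex3_b k682_A07pm_011_s1 k683_A07pm_011_s1

theorem t1931_A07pm_011_s1 : ∃ t, chk3 f_A07pm_011_s1 t 1000 950 71 = true := ex3_b k679_A07pm_011_s1 k680_A07pm_011_s1

theorem t1932_A07pm_011_s1 : ∃ t, chk3 f_A07pm_011_s1 t 1000 950 35 = true := ex3_c k678_A07pm_011_s1 t1931_A07pm_011_s1

theorem t1933_A07pm_011_s1 : ∃ t, chk3 f_A07pm_011_s1 t 1000 475 35 = true := ex3_b t1932_A07pm_011_s1 k681_A07pm_011_s1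

theorem t1934_A07pm_011_s1 : ∃ t, chk3 f_A07pm_011_s1 t 500 475 35 = true := ex3_a t1933_A07pm_011_s1 t1930_A07pm_011_s1

theorem t1935_A07pm_011_s1 : ∃ t, chk3 f_A07pm_011_s1 t 500 475 17 = true := ex3_c k677_A07pm_011_s1 t1934_A07pm_011_s1

theorem t1936_A07pm_011_s1 : ∃ t, chk3 f_A07pm_011_s1 t 1000 474 35 = true := ex3_b k674_A07pm_011_s1 k675_A07pm_011_s1

theorem t1937_A07pm_011_s1 : ∃ t, chk3 f_A07pm_011_s1 t 500 474 35 = true := ex3_a t1936_A07pm_011_s1 k676_A07pm_011_s1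

theorem t1938_A07pm_011_s1 : ∃ t, chk3 f_A07pm_011_s1 t 500 474 34 = true := ex3_b k672_A07pm_011_s1 k673_A07pm_011_s1

theorem t1939_A07pm_011_s1 : ∃ t, chk3 f_A07pm_011_s1 t 500 474 17 = true := ex3_c t1938_A07pm_011_s1 t1937_A07pm_011_s1

theorem t1940_A07pm_011_s1 : ∃ t, chk3 f_A07pm_011_s1 t 500 237 17 = true := ex3_b t1939_A07pm_011_s1 t1935_A07pm_011_s1

theorem t1941_A07pm_011_s1 : ∃ t, chk3 f_A07pm_011_s1 t 250 237 17 = true := ex3_a t1940_A07pm_011_s1 t1929_A07pm_011_s1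

theorem t1942_A07pm_011_s1 : ∃ t, chk3 f_A07pm_011_s1 t 250 237 16 = true := ex3_a k670_A07pm_011_s1 k671_A07pm_011_s1

theorem t1943_A07pm_011_s1 : ∃ t, chk3 f_A07pm_011_s1 t 250 237 8 = true := ex3_c t1942_A07pm_011_s1 t1941_A07pm_011_s1

theorem t1944_A07pm_011_s1 : ∃ t, chk3 f_A07pm_011_s1 t 501 236 17 = true := ex3_a k668_A07pm_011_s1 k669_A07pm_011_s1

theorem t1945_A07pm_011_s1 : ∃ t, chk3 f_A07pm_011_s1 t 500 473 17 = true := ex3_a k666_A07pm_011_s1 k667_A07pm_011_s1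

theorem t1946_A07pm_011_s1 : ∃ t, chk3 f_A07pm_011_s1 t 500 472 17 = true := ex3_c k664_A07pm_011_s1 k665_A07pm_011_s1

theorem t1947_A07pm_011_s1 : ∃ t, chk3 f_A07pm_011_s1 t 500 236 17 = true := ex3_b t1946_A07pm_011_s1 t1945_A07pm_011_s1

theorem t1948_A07pm_011_s1 : ∃ t, chk3 f_A07pm_011_s1 t 250 236 17 = true := ex3_a t1947_A07pm_011_s1 t1944_A07pm_011_s1

theorem t1949_A07pm_011_s1 : ∃ t, chk3 f_A07pm_011_s1 t 500 473 33 = true := ex3_b k661_A07pm_011_s1 k662_A07pm_011_s1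

theorem t1950_A07pm_011_s1 : ∃ t, chk3 f_A07pm_011_s1 t 250 473 33 = true := ex3_a t1949_A07pm_011_s1 k663_A07pm_011_s1

theorem t1951_A07pm_011_s1 : ∃ t, chk3 f_A07pm_011_s1 t 250 473 16 = true := ex3_c k660_A07pm_011_s1 t1950_A07pm_011_s1

theorem t1952_A07pm_011_s1 : ∃ t, chk3 f_A07pm_011_s1 t 250 472 16 = true := ex3_c k658_A07pm_011_s1 k659_A07pm_011_s1

theorem t1953_A07pm_011_s1 : ∃ t, chk3 f_A07pm_011_s1 t 250 236 16 = true := ex3_b t1952_A07pm_011_s1 t1951_A07pm_011_s1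

theorem t1954_A07pm_011_s1 : ∃ t, chk3 f_A07pm_011_s1 t 250 236 8 = true := ex3_c t1953_A07pm_011_s1 t1948_A07pm_011_s1

theorem t1955_A07pm_011_s1 : ∃ t, chk3 f_A07pm_011_s1 t 250 118 8 = true := ex3_b t1954_A07pm_011_s1 t1943_A07pm_011_s1

theorem t1956_A07pm_011_s1 : ∃ t, chk3 f_A07pm_011_s1 t 125 118 8 = true := ex3_a t1955_A07pm_011_s1 t1927_A07pm_011_s1

theorem t1957_A07pm_011_s1 : ∃ t, chk3 f_A07pm_011_s1 t 125 59 8 = true := ex3_b t1956_A07pm_011_s1 t1921_A07pm_011_s1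

theorem t1958_A07pm_011_s1 : ∃ t, chk3 f_A07pm_011_s1 t 125 59 4 = true := ex3_c t1957_A07pm_011_s1 t1892_A07pm_011_s1

theorem t1959_A07pm_011_s1 : ∃ t, chk3 f_A07pm_011_s1 t 999 476 18 = true := ex3_c k653_A07pm_011_s1 k654_A07pm_011_s1

theorem t1960_A07pm_011_s1 : ∃ t, chk3 f_A07pm_011_s1 t 499 476 18 = true := ex3_a k652_A07pm_011_s1 t1959_A07pm_011_s1

theorem t1961_A07pm_011_s1 : ∃ t, chk3 f_A07pm_011_s1 t 499 238 18 = true := ex3_b t1960_A07pm_011_s1 k655_A07pm_011_s1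

theorem t1962_A07pm_011_s1 : ∃ t, chk3 f_A07pm_011_s1 t 499 238 9 = true := ex3_c t1961_A07pm_011_s1 k656_A07pm_011_s1

theorem t1963_A07pm_011_s1 : ∃ t, chk3 f_A07pm_011_s1 t 999 476 8 = true := ex3_c k649_A07pm_011_s1 k650_A07pm_011_s1

theorem t1964_A07pm_011_s1 : ∃ t, chk3 f_A07pm_011_s1 t 499 476 8 = true := ex3_a k648_A07pm_011_s1 t1963_A07pm_011_s1

theorem t1965_A07pm_011_s1 : ∃ t, chk3 f_A07pm_011_s1 t 499 238 8 = true := ex3_b t1964_A07pm_011_s1 k651_A07pm_011_s1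

theorem t1966_A07pm_011_s1 : ∃ t, chk3 f_A07pm_011_s1 t 499 238 4 = true := ex3_c t1965_A07pm_011_s1 t1962_A07pm_011_s1

theorem t1967_A07pm_011_s1 : ∃ t, chk3 f_A07pm_011_s1 t 249 238 4 = true := ex3_a k647_A07pm_011_s1 t1966_A07pm_011_s1

theorem t1968_A07pm_011_s1 : ∃ t, chk3 f_A07pm_011_s1 t 249 119 4 = true := ex3_b t1967_A07pm_011_s1 k657_A07pm_011_s1

theorem t1969_A07pm_011_s1 : ∃ t, chk3 f_A07pm_011_s1 t 124 119 4 = true := ex3_a k646_A07pm_011_s1 t1968_A07pm_011_s1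

theorem t1970_A07pm_011_s1 : ∃ t, chk3 f_A07pm_011_s1 t 999 951 159 = true := ex3_b k644_A07pm_011_s1 k645_A07pm_011_s1

theorem t1971_A07pm_011_s1 : ∃ t, chk3 f_A07pm_011_s1 t 999 951 79 = true := ex3_c k643_A07pm_011_s1 t1970_A07pm_011_s1

theorem t1972_A07pm_011_s1 : ∃ t, chk3 f_A07pm_011_s1 t 1999 950 158 = true := ex3_b k640_A07pm_011_s1 k641_A07pm_011_s1

theorem t1973_A07pm_011_s1 : ∃ t, chk3 f_A07pm_011_s1 t 999 950 158 = true := ex3_a k639_A07pm_011_s1 t1972_A07pm_011_s1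

theorem t1974_A07pm_011_s1 : ∃ t, chk3 f_A07pm_011_s1 t 999 950 79 = true := ex3_c t1973_A07pm_011_s1 k642_A07pm_011_s1

theorem t1975_A07pm_011_s1 : ∃ t, chk3 f_A07pm_011_s1 t 999 475 79 = true := ex3_b t1974_A07pm_011_s1 t1971_A07pm_011_s1

theorem t1976_A07pm_011_s1 : ∃ t, chk3 f_A07pm_011_s1 t 999 237 79 = true := ex3_b k638_A07pm_011_s1 t1975_A07pm_011_s1

theorem t1977_A07pm_011_s1 : ∃ t, chk3 f_A07pm_011_s1 t 499 237 79 = true := ex3_a k637_A07pm_011_s1 t1976_A07pm_011_s1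

theorem t1978_A07pm_011_s1 : ∃ t, chk3 f_A07pm_011_s1 t 1999 1900 78 = true := ex3_a k633_A07pm_011_s1 k634_A07pm_011_s1

theorem t1979_A07pm_011_s1 : ∃ t, chk3 f_A07pm_011_s1 t 1999 950 78 = true := ex3_b t1978_A07pm_011_s1 k635_A07pm_011_s1

theorem t1980_A07pm_011_s1 : ∃ t, chk3 f_A07pm_011_s1 t 999 950 78 = true := ex3_a k632_A07pm_011_s1 t1979_A07pm_011_s1

theorem t1981_A07pm_011_s1 : ∃ t, chk3 f_A07pm_011_s1 t 999 475 78 = true := ex3_b t1980_A07pm_011_s1 k636_A07pm_011_s1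

theorem t1982_A07pm_011_s1 : ∃ t, chk3 f_A07pm_011_s1 t 1998 1899 78 = true := ex3_b k629_A07pm_011_s1 k630_A07pm_011_s1

theorem t1983_A07pm_011_s1 : ∃ t, chk3 f_A07pm_011_s1 t 1998 1898 78 = true := ex3_c k627_A07pm_011_s1 k628_A07pm_011_s1

theorem t1984_A07pm_011_s1 : ∃ t, chk3 f_A07pm_011_s1 t 1998 949 78 = true := ex3_b t1983_A07pm_011_s1 t1982_A07pm_011_s1

theorem t1985_A07pm_011_s1 : ∃ t, chk3 f_A07pm_011_s1 t 999 949 78 = true := ex3_a t1984_A07pm_011_s1 k631_A07pm_011_s1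

theorem t1986_A07pm_011_s1 : ∃ t, chk3 f_A07pm_011_s1 t 999 474 78 = true := ex3_b k626_A07pm_011_s1 t1985_A07pm_011_s1

theorem t1987_A07pm_011_s1 : ∃ t, chk3 f_A07pm_011_s1 t 999 237 78 = true := ex3_b t1986_A07pm_011_s1 t1981_A07pm_011_s1

theorem t1988_A07pm_011_s1 : ∃ t, chk3 f_A07pm_011_s1 t 1997 474 78 = true := ex3_b k623_A07pm_011_s1 k624_A07pm_011_s1

theorem t1989_A07pm_011_s1 : ∃ t, chk3 f_A07pm_011_s1 t 998 474 78 = true := ex3_a k622_A07pm_011_s1 t1988_A07pm_011_s1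

theorem t1990_A07pm_011_s1 : ∃ t, chk3 f_A07pm_011_s1 t 998 237 78 = true := ex3_b t1989_A07pm_011_s1 k625_A07pm_011_s1

theorem t1991_A07pm_011_s1 : ∃ t, chk3 f_A07pm_011_s1 t 499 237 78 = true := ex3_a t1990_A07pm_011_s1 t1987_A07pm_011_s1

theorem t1992_A07pm_011_s1 : ∃ t, chk3 f_A07pm_011_s1 t 499 237 39 = true := ex3_c t1991_A07pm_011_s1 t1977_A07pm_011_s1

theorem t1993_A07pm_011_s1 : ∃ t, chk3 f_A07pm_011_s1 t 999 949 77 = true := ex3_a k619_A07pm_011_s1 k620_A07pm_011_s1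

theorem t1994_A07pm_011_s1 : ∃ t, chk3 f_A07pm_011_s1 t 999 948 154 = true := ex3_a k616_A07pm_011_s1 k617_A07pm_011_s1

theorem t1995_A07pm_011_s1 : ∃ t, chk3 f_A07pm_011_s1 t 999 948 77 = true := ex3_c t1994_A07pm_011_s1 k618_A07pm_011_s1

theorem t1996_A07pm_011_s1 : ∃ t, chk3 f_A07pm_011_s1 t 999 474 77 = true := ex3_b t1995_A07pm_011_s1 t1993_A07pm_011_s1

theorem t1997_A07pm_011_s1 : ∃ t, chk3 f_A07pm_011_s1 t 999 474 38 = true := ex3_c k615_A07pm_011_s1 t1996_A07pm_011_s1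

theorem t1998_A07pm_011_s1 : ∃ t, chk3 f_A07pm_011_s1 t 999 237 38 = true := ex3_b t1997_A07pm_011_s1 k621_A07pm_011_s1

theorem t1999_A07pm_011_s1 : ∃ t, chk3 f_A07pm_011_s1 t 1997 1896 77 = true := ex3_b k610_A07pm_011_s1 k611_A07pm_011_s1

theorem t2000_A07pm_011_s1 : ∃ t, chk3 f_A07pm_011_s1 t 1997 948 77 = true := ex3_b t1999_A07pm_011_s1 k612_A07pm_011_s1

theorem t2001_A07pm_011_s1 : ∃ t, chk3 f_A07pm_011_s1 t 1997 474 77 = true := ex3_b t2000_A07pm_011_s1 k613_A07pm_011_s1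

theorem t2002_A07pm_011_s1 : ∃ t, chk3 f_A07pm_011_s1 t 998 474 77 = true := ex3_a k609_A07pm_011_s1 t2001_A07pm_011_s1

theorem t2003_A07pm_011_s1 : ∃ t, chk3 f_A07pm_011_s1 t 998 474 38 = true := ex3_c k608_A07pm_011_s1 t2002_A07pm_011_s1

theorem t2004_A07pm_011_s1 : ∃ t, chk3 f_A07pm_011_s1 t 998 237 38 = true := ex3_b t2003_A07pm_011_s1 k614_A07pm_011_s1

theorem t2005_A07pm_011_s1 : ∃ t, chk3 f_A07pm_011_s1 t 499 237 38 = true := ex3_a t2004_A07pm_011_s1 t1998_A07pm_011_s1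

theorem t2006_A07pm_011_s1 : ∃ t, chk3 f_A07pm_011_s1 t 499 237 19 = true := ex3_c t2005_A07pm_011_s1 t1992_A07pm_011_s1

theorem t2007_A07pm_011_s1 : ∃ t, chk3 f_A07pm_011_s1 t 999 237 37 = true := ex3_b k606_A07pm_011_s1 k607_A07pm_011_s1

theorem t2008_A07pm_011_s1 : ∃ t, chk3 f_A07pm_011_s1 t 499 237 37 = true := ex3_a k605_A07pm_011_s1 t2007_A07pm_011_s1

theorem t2009_A07pm_011_s1 : ∃ t, chk3 f_A07pm_011_s1 t 999 951 146 = true := ex3_b k602_A07pm_011_s1 k603_A07pm_011_s1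

theorem t2010_A07pm_011_s1 : ∃ t, chk3 f_A07pm_011_s1 t 999 951 73 = true := ex3_c t2009_A07pm_011_s1 k604_A07pm_011_s1

theorem t2011_A07pm_011_s1 : ∃ t, chk3 f_A07pm_011_s1 t 999 475 73 = true := ex3_b k601_A07pm_011_s1 t2010_A07pm_011_s1

theorem t2012_A07pm_011_s1 : ∃ t, chk3 f_A07pm_011_s1 t 1999 1902 145 = true := ex3_a k598_A07pm_011_s1 k599_A07pm_011_s1

theorem t2013_A07pm_011_s1 : ∃ t, chk3 f_A07pm_011_s1 t 1999 1902 72 = true := ex3_c k597_A07pm_011_s1 t2012_A07pm_011_s1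

theorem t2014_A07pm_011_s1 : ∃ t, chk3 f_A07pm_011_s1 t 999 1902 72 = true := ex3_a k596_A07pm_011_s1 t2013_A07pm_011_s1

theorem t2015_A07pm_011_s1 : ∃ t, chk3 f_A07pm_011_s1 t 999 951 72 = true := ex3_b t2014_A07pm_011_s1 k600_A07pm_011_s1

theorem t2016_A07pm_011_s1 : ∃ t, chk3 f_A07pm_011_s1 t 1999 1901 144 = true := ex3_a k593_A07pm_011_s1 k594_A07pm_011_s1

theorem t2017_A07pm_011_s1 : ∃ t, chk3 f_A07pm_011_s1 t 1999 1901 72 = true := ex3_c t2016_A07pm_011_s1 k595_A07pm_011_s1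

theorem t2018_A07pm_011_s1 : ∃ t, chk3 f_A07pm_011_s1 t 1999 950 72 = true := ex3_b k592_A07pm_011_s1 t2017_A07pm_011_s1

theorem t2019_A07pm_011_s1 : ∃ t, chk3 f_A07pm_011_s1 t 1998 1900 72 = true := ex3_c k589_A07pm_011_s1 k590_A07pm_011_s1

theorem t2020_A07pm_011_s1 : ∃ t, chk3 f_A07pm_011_s1 t 1998 950 72 = true := ex3_b t2019_A07pm_011_s1 k591_A07pm_011_s1

theorem t2021_A07pm_011_s1 : ∃ t, chk3 f_A07pm_011_s1 t 999 950 72 = true := ex3_a t2020_A07pm_011_s1 t2018_A07pm_011_s1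

theorem t2022_A07pm_011_s1 : ∃ t, chk3 f_A07pm_011_s1 t 999 475 72 = true := ex3_b t2021_A07pm_011_s1 t2015_A07pm_011_s1

theorem t2023_A07pm_011_s1 : ∃ t, chk3 f_A07pm_011_s1 t 999 475 36 = true := ex3_c t2022_A07pm_011_s1 t2011_A07pm_011_s1

theorem t2024_A07pm_011_s1 : ∃ t, chk3 f_A07pm_011_s1 t 1998 949 72 = true := ex3_a k585_A07pm_011_s1 k586_A07pm_011_s1

theorem t2025_A07pm_011_s1 : ∃ t, chk3 f_A07pm_011_s1 t 1998 474 72 = true := ex3_b k584_A07pm_011_s1 t2024_A07pm_011_s1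

theorem t2026_A07pm_011_s1 : ∃ t, chk3 f_A07pm_011_s1 t 999 474 72 = true := ex3_a t2025_A07pm_011_s1 k587_A07pm_011_s1

theorem t2027_A07pm_011_s1 : ∃ t, chk3 f_A07pm_011_s1 t 999 474 36 = true := ex3_c t2026_A07pm_011_s1 k588_A07pm_011_s1

theorem t2028_A07pm_011_s1 : ∃ t, chk3 f_A07pm_011_s1 t 999 237 36 = true := ex3_b t2027_A07pm_011_s1 t2023_A07pm_011_s1

theorem t2029_A07pm_011_s1 : ∃ t, chk3 f_A07pm_011_s1 t 499 237 36 = true := ex3_a k583_A07pm_011_s1 t2028_A07pm_011_s1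

theorem t2030_A07pm_011_s1 : ∃ t, chk3 f_A07pm_011_s1 t 499 237 18 = true := ex3_c t2029_A07pm_011_s1 t2008_A07pm_011_s1

theorem t2031_A07pm_011_s1 : ∃ t, chk3 f_A07pm_011_s1 t 499 237 9 = true := ex3_c t2030_A07pm_011_s1 t2006_A07pm_011_s1

theorem t2032_A07pm_011_s1 : ∃ t, chk3 f_A07pm_011_s1 t 1999 950 71 = true := ex3_b k580_A07pm_011_s1 k581_A07pm_011_s1

theorem t2033_A07pm_011_s1 : ∃ t, chk3 f_A07pm_011_s1 t 1999 475 71 = true := ex3_b t2032_A07pm_011_s1 k582_A07pm_011_s1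

theorem t2034_A07pm_011_s1 : ∃ t, chk3 f_A07pm_011_s1 t 999 475 71 = true := ex3_a k579_A07pm_011_s1 t2033_A07pm_011_s1

theorem t2035_A07pm_011_s1 : ∃ t, chk3 f_A07pm_011_s1 t 1998 1899 143 = true := ex3_a k576_A07pm_011_s1 k577_A07pm_011_s1

theorem t2036_A07pm_011_s1 : ∃ t, chk3 f_A07pm_011_s1 t 1998 1899 71 = true := ex3_c k575_A07pm_011_s1 t2035_A07pm_011_s1

theorem t2037_A07pm_011_s1 : ∃ t, chk3 f_A07pm_011_s1 t 999 1899 71 = true := ex3_a t2036_A07pm_011_s1 k578_A07pm_011_s1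

theorem t2038_A07pm_011_s1 : ∃ t, chk3 f_A07pm_011_s1 t 1998 1898 142 = true := ex3_a k571_A07pm_011_s1 k572_A07pm_011_s1

theorem t2039_A07pm_011_s1 : ∃ t, chk3 f_A07pm_011_s1 t 1998 1898 71 = true := ex3_c t2038_A07pm_011_s1 k573_A07pm_011_s1

theorem t2040_A07pm_011_s1 : ∃ t, chk3 f_A07pm_011_s1 t 999 1898 71 = true := ex3_a t2039_A07pm_011_s1 k574_A07pm_011_s1

theorem t2041_A07pm_011_s1 : ∃ t, chk3 f_A07pm_011_s1 t 999 949 71 = true := ex3_b t2040_A07pm_011_s1 t2037_A07pm_011_s1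

theorem t2042_A07pm_011_s1 : ∃ t, chk3 f_A07pm_011_s1 t 999 948 71 = true := ex3_a k569_A07pm_011_s1 k570_A07pm_011_s1

theorem t2043_A07pm_011_s1 : ∃ t, chk3 f_A07pm_011_s1 t 999 474 71 = true := ex3_b t2042_A07pm_011_s1 t2041_A07pm_011_s1

theorem t2044_A07pm_011_s1 : ∃ t, chk3 f_A07pm_011_s1 t 999 237 71 = true := ex3_b t2043_A07pm_011_s1 t2034_A07pm_011_s1

theorem t2045_A07pm_011_s1 : ∃ t, chk3 f_A07pm_011_s1 t 1997 948 71 = true := ex3_b k565_A07pm_011_s1 k566_A07pm_011_s1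

theorem t2046_A07pm_011_s1 : ∃ t, chk3 f_A07pm_011_s1 t 1997 474 71 = true := ex3_b t2045_A07pm_011_s1 k567_A07pm_011_s1

theorem t2047_A07pm_011_s1 : ∃ t, chk3 f_A07pm_011_s1 t 998 474 71 = true := ex3_a k564_A07pm_011_s1 t2046_A07pm_011_s1

theorem t2048_A07pm_011_s1 : ∃ t, chk3 f_A07pm_011_s1 t 998 237 71 = true := ex3_b t2047_A07pm_011_s1 k568_A07pm_011_s1

theorem t2049_A07pm_011_s1 : ∃ t, chk3 f_A07pm_011_s1 t 499 237 71 = true := ex3_a t2048_A07pm_011_s1 t2044_A07pm_011_s1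

theorem t2050_A07pm_011_s1 : ∃ t, chk3 f_A07pm_011_s1 t 999 949 70 = true := ex3_a k561_A07pm_011_s1 k562_A07pm_011_s1

theorem t2051_A07pm_011_s1 : ∃ t, chk3 f_A07pm_011_s1 t 1998 1897 70 = true := ex3_c k558_A07pm_011_s1 k559_A07pm_011_s1

theorem t2052_A07pm_011_s1 : ∃ t, chk3 f_A07pm_011_s1 t 999 1897 70 = true := ex3_a t2051_A07pm_011_s1 k560_A07pm_011_s1

theorem t2053_A07pm_011_s1 : ∃ t, chk3 f_A07pm_011_s1 t 999 948 70 = true := ex3_b k557_A07pm_011_s1 t2052_A07pm_011_s1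

theorem t2054_A07pm_011_s1 : ∃ t, chk3 f_A07pm_011_s1 t 999 474 70 = true := ex3_b t2053_A07pm_011_s1 t2050_A07pm_011_s1

theorem t2055_A07pm_011_s1 : ∃ t, chk3 f_A07pm_011_s1 t 999 237 70 = true := ex3_b t2054_A07pm_011_s1 k563_A07pm_011_s1

theorem t2056_A07pm_011_s1 : ∃ t, chk3 f_A07pm_011_s1 t 1997 1896 70 = true := ex3_c k552_A07pm_011_s1 k553_A07pm_011_s1

theorem t2057_A07pm_011_s1 : ∃ t, chk3 f_A07pm_011_s1 t 1997 948 70 = true := ex3_b t2056_A07pm_011_s1 k554_A07pm_011_s1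

theorem t2058_A07pm_011_s1 : ∃ t, chk3 f_A07pm_011_s1 t 1997 474 70 = true := ex3_b t2057_A07pm_011_s1 k555_A07pm_011_s1

theorem t2059_A07pm_011_s1 : ∃ t, chk3 f_A07pm_011_s1 t 998 474 70 = true := ex3_a k551_A07pm_011_s1 t2058_A07pm_011_s1

theorem t2060_A07pm_011_s1 : ∃ t, chk3 f_A07pm_011_s1 t 998 237 70 = true := ex3_b t2059_A07pm_011_s1 k556_A07pm_011_s1

theorem t2061_A07pm_011_s1 : ∃ t, chk3 f_A07pm_011_s1 t 499 237 70 = true := ex3_a t2060_A07pm_011_s1 t2055_A07pm_011_s1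

theorem t2062_A07pm_011_s1 : ∃ t, chk3 f_A07pm_011_s1 t 499 237 35 = true := ex3_c t2061_A07pm_011_s1 t2049_A07pm_011_s1

theorem t2063_A07pm_011_s1 : ∃ t, chk3 f_A07pm_011_s1 t 999 237 34 = true := ex3_b k549_A07pm_011_s1 k550_A07pm_011_s1

theorem t2064_A07pm_011_s1 : ∃ t, chk3 f_A07pm_011_s1 t 499 237 34 = true := ex3_a k548_A07pm_011_s1 t2063_A07pm_011_s1

theorem t2065_A07pm_011_s1 : ∃ t, chk3 f_A07pm_011_s1 t 499 237 17 = true := ex3_c t2064_A07pm_011_s1 t2062_A07pm_011_s1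

theorem t2066_A07pm_011_s1 : ∃ t, chk3 f_A07pm_011_s1 t 499 237 16 = true := ex3_a k546_A07pm_011_s1 k547_A07pm_011_s1

theorem t2067_A07pm_011_s1 : ∃ t, chk3 f_A07pm_011_s1 t 499 237 8 = true := ex3_c t2066_A07pm_011_s1 t2065_A07pm_011_s1

theorem t2068_A07pm_011_s1 : ∃ t, chk3 f_A07pm_011_s1 t 499 237 4 = true := ex3_c t2067_A07pm_011_s1 t2031_A07pm_011_s1

theorem t2069_A07pm_011_s1 : ∃ t, chk3 f_A07pm_011_s1 t 249 237 4 = true := ex3_a k545_A07pm_011_s1 t2068_A07pm_011_s1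

theorem t2070_A07pm_011_s1 : ∃ t, chk3 f_A07pm_011_s1 t 249 236 39 = true := ex3_b k543_A07pm_011_s1 k544_A07pm_011_s1

theorem t2071_A07pm_011_s1 : ∃ t, chk3 f_A07pm_011_s1 t 998 1895 154 = true := ex3_a k539_A07pm_011_s1 k540_A07pm_011_s1

theorem t2072_A07pm_011_s1 : ∃ t, chk3 f_A07pm_011_s1 t 998 947 154 = true := ex3_b k538_A07pm_011_s1 t2071_A07pm_011_s1

theorem t2073_A07pm_011_s1 : ∃ t, chk3 f_A07pm_011_s1 t 998 947 77 = true := ex3_c t2072_A07pm_011_s1 k541_A07pm_011_s1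

theorem t2074_A07pm_011_s1 : ∃ t, chk3 f_A07pm_011_s1 t 998 473 77 = true := ex3_b k537_A07pm_011_s1 t2073_A07pm_011_s1

theorem t2075_A07pm_011_s1 : ∃ t, chk3 f_A07pm_011_s1 t 499 473 77 = true := ex3_a t2074_A07pm_011_s1 k542_A07pm_011_s1

theorem t2076_A07pm_011_s1 : ∃ t, chk3 f_A07pm_011_s1 t 1997 947 76 = true := ex3_b k534_A07pm_011_s1 k535_A07pm_011_s1

theorem t2077_A07pm_011_s1 : ∃ t, chk3 f_A07pm_011_s1 t 998 947 76 = true := ex3_a k533_A07pm_011_s1 t2076_A07pm_011_s1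

theorem t2078_A07pm_011_s1 : ∃ t, chk3 f_A07pm_011_s1 t 499 947 76 = true := ex3_a t2077_A07pm_011_s1 k536_A07pm_011_s1

theorem t2079_A07pm_011_s1 : ∃ t, chk3 f_A07pm_011_s1 t 1996 1893 76 = true := ex3_a k529_A07pm_011_s1 k530_A07pm_011_s1

theorem t2080_A07pm_011_s1 : ∃ t, chk3 f_A07pm_011_s1 t 1996 1892 76 = true := ex3_c k527_A07pm_011_s1 k528_A07pm_011_s1

theorem t2081_A07pm_011_s1 : ∃ t, chk3 f_A07pm_011_s1 t 1996 946 76 = true := ex3_b t2080_A07pm_011_s1 t2079_A07pm_011_s1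

theorem t2082_A07pm_011_s1 : ∃ t, chk3 f_A07pm_011_s1 t 998 946 76 = true := ex3_a t2081_A07pm_011_s1 k531_A07pm_011_s1

theorem t2083_A07pm_011_s1 : ∃ t, chk3 f_A07pm_011_s1 t 499 946 76 = true := ex3_a t2082_A07pm_011_s1 k532_A07pm_011_s1

theorem t2084_A07pm_011_s1 : ∃ t, chk3 f_A07pm_011_s1 t 499 473 76 = true := ex3_b t2083_A07pm_011_s1 t2078_A07pm_011_s1

theorem t2085_A07pm_011_s1 : ∃ t, chk3 f_A07pm_011_s1 t 499 473 38 = true := ex3_c t2084_A07pm_011_s1 t2075_A07pm_011_s1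

theorem t2086_A07pm_011_s1 : ∃ t, chk3 f_A07pm_011_s1 t 249 473 38 = true := ex3_a k526_A07pm_011_s1 t2085_A07pm_011_s1

theorem t2087_A07pm_011_s1 : ∃ t, chk3 f_A07pm_011_s1 t 997 472 76 = true := ex3_b k522_A07pm_011_s1 k523_A07pm_011_s1

theorem t2088_A07pm_011_s1 : ∃ t, chk3 f_A07pm_011_s1 t 498 472 76 = true := ex3_a k521_A07pm_011_s1 t2087_A07pm_011_s1

theorem t2089_A07pm_011_s1 : ∃ t, chk3 f_A07pm_011_s1 t 249 472 76 = true := ex3_a t2088_A07pm_011_s1 k524_A07pm_011_s1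

theorem t2090_A07pm_011_s1 : ∃ t, chk3 f_A07pm_011_s1 t 249 472 38 = true := ex3_c t2089_A07pm_011_s1 k525_A07pm_011_s1

theorem t2091_A07pm_011_s1 : ∃ t, chk3 f_A07pm_011_s1 t 249 236 38 = true := ex3_b t2090_A07pm_011_s1 t2086_A07pm_011_s1

theorem t2092_A07pm_011_s1 : ∃ t, chk3 f_A07pm_011_s1 t 249 236 19 = true := ex3_c t2091_A07pm_011_s1 t2070_A07pm_011_s1

theorem t2093_A07pm_011_s1 : ∃ t, chk3 f_A07pm_011_s1 t 999 473 75 = true := ex3_b k519_A07pm_011_s1 k520_A07pm_011_s1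

theorem t2094_A07pm_011_s1 : ∃ t, chk3 f_A07pm_011_s1 t 998 946 75 = true := ex3_a k516_A07pm_011_s1 k517_A07pm_011_s1

theorem t2095_A07pm_011_s1 : ∃ t, chk3 f_A07pm_011_s1 t 998 473 75 = true := ex3_b t2094_A07pm_011_s1 k518_A07pm_011_s1

theorem t2096_A07pm_011_s1 : ∃ t, chk3 f_A07pm_011_s1 t 499 473 75 = true := ex3_a t2095_A07pm_011_s1 t2093_A07pm_011_s1

theorem t2097_A07pm_011_s1 : ∃ t, chk3 f_A07pm_011_s1 t 499 473 37 = true := ex3_c k515_A07pm_011_s1 t2096_A07pm_011_s1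

theorem t2098_A07pm_011_s1 : ∃ t, chk3 f_A07pm_011_s1 t 998 945 75 = true := ex3_c k512_A07pm_011_s1 k513_A07pm_011_s1

theorem t2099_A07pm_011_s1 : ∃ t, chk3 f_A07pm_011_s1 t 998 472 75 = true := ex3_b k511_A07pm_011_s1 t2098_A07pm_011_s1

theorem t2100_A07pm_011_s1 : ∃ t, chk3 f_A07pm_011_s1 t 499 472 75 = true := ex3_a t2099_A07pm_011_s1 k514_A07pm_011_s1

theorem t2101_A07pm_011_s1 : ∃ t, chk3 f_A07pm_011_s1 t 998 472 74 = true := ex3_b k508_A07pm_011_s1 k509_A07pm_011_s1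

theorem t2102_A07pm_011_s1 : ∃ t, chk3 f_A07pm_011_s1 t 499 472 74 = true := ex3_a t2101_A07pm_011_s1 k510_A07pm_011_s1

theorem t2103_A07pm_011_s1 : ∃ t, chk3 f_A07pm_011_s1 t 499 472 37 = true := ex3_c t2102_A07pm_011_s1 t2100_A07pm_011_s1

theorem t2104_A07pm_011_s1 : ∃ t, chk3 f_A07pm_011_s1 t 499 236 37 = true := ex3_b t2103_A07pm_011_s1 t2097_A07pm_011_s1

theorem t2105_A07pm_011_s1 : ∃ t, chk3 f_A07pm_011_s1 t 1995 1890 75 = true := ex3_a k504_A07pm_011_s1 k505_A07pm_011_s1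

theorem t2106_A07pm_011_s1 : ∃ t, chk3 f_A07pm_011_s1 t 997 1890 75 = true := ex3_a k503_A07pm_011_s1 t2105_A07pm_011_s1

theorem t2107_A07pm_011_s1 : ∃ t, chk3 f_A07pm_011_s1 t 997 945 75 = true := ex3_b t2106_A07pm_011_s1 k506_A07pm_011_s1

theorem t2108_A07pm_011_s1 : ∃ t, chk3 f_A07pm_011_s1 t 997 1889 75 = true := ex3_a k501_A07pm_011_s1 k502_A07pm_011_s1

theorem t2109_A07pm_011_s1 : ∃ t, chk3 f_A07pm_011_s1 t 997 944 75 = true := ex3_b k500_A07pm_011_s1 t2108_A07pm_011_s1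

theorem t2110_A07pm_011_s1 : ∃ t, chk3 f_A07pm_011_s1 t 997 472 75 = true := ex3_b t2109_A07pm_011_s1 t2107_A07pm_011_s1

theorem t2111_A07pm_011_s1 : ∃ t, chk3 f_A07pm_011_s1 t 997 236 75 = true := ex3_b t2110_A07pm_011_s1 k507_A07pm_011_s1

theorem t2112_A07pm_011_s1 : ∃ t, chk3 f_A07pm_011_s1 t 1995 944 74 = true := ex3_b k496_A07pm_011_s1 k497_A07pm_011_s1

theorem t2113_A07pm_011_s1 : ∃ t, chk3 f_A07pm_011_s1 t 997 944 74 = true := ex3_a k495_A07pm_011_s1 t2112_A07pm_011_s1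

theorem t2114_A07pm_011_s1 : ∃ t, chk3 f_A07pm_011_s1 t 997 472 74 = true := ex3_b t2113_A07pm_011_s1 k498_A07pm_011_s1

theorem t2115_A07pm_011_s1 : ∃ t, chk3 f_A07pm_011_s1 t 997 236 74 = true := ex3_b t2114_A07pm_011_s1 k499_A07pm_011_s1

theorem t2116_A07pm_011_s1 : ∃ t, chk3 f_A07pm_011_s1 t 997 236 37 = true := ex3_c t2115_A07pm_011_s1 t2111_A07pm_011_s1

theorem t2117_A07pm_011_s1 : ∃ t, chk3 f_A07pm_011_s1 t 498 236 37 = true := ex3_a k494_A07pm_011_s1 t2116_A07pm_011_s1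

theorem t2118_A07pm_011_s1 : ∃ t, chk3 f_A07pm_011_s1 t 249 236 37 = true := ex3_a t2117_A07pm_011_s1 t2104_A07pm_011_s1

theorem t2119_A07pm_011_s1 : ∃ t, chk3 f_A07pm_011_s1 t 499 472 36 = true := ex3_a k491_A07pm_011_s1 k492_A07pm_011_s1

theorem t2120_A07pm_011_s1 : ∃ t, chk3 f_A07pm_011_s1 t 249 472 36 = true := ex3_a k490_A07pm_011_s1 t2119_A07pm_011_s1

theorem t2121_A07pm_011_s1 : ∃ t, chk3 f_A07pm_011_s1 t 249 236 36 = true := ex3_b t2120_A07pm_011_s1 k493_A07pm_011_s1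

theorem t2122_A07pm_011_s1 : ∃ t, chk3 f_A07pm_011_s1 t 249 236 18 = true := ex3_c t2121_A07pm_011_s1 t2118_A07pm_011_s1

theorem t2123_A07pm_011_s1 : ∃ t, chk3 f_A07pm_011_s1 t 249 236 9 = true := ex3_c t2122_A07pm_011_s1 t2092_A07pm_011_s1

theorem t2124_A07pm_011_s1 : ∃ t, chk3 f_A07pm_011_s1 t 999 473 35 = true := ex3_a k488_A07pm_011_s1 k489_A07pm_011_s1

theorem t2125_A07pm_011_s1 : ∃ t, chk3 f_A07pm_011_s1 t 1997 1895 140 = true := ex3_b k484_A07pm_011_s1 k485_A07pm_011_s1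

theorem t2126_A07pm_011_s1 : ∃ t, chk3 f_A07pm_011_s1 t 1997 1895 70 = true := ex3_c t2125_A07pm_011_s1 k486_A07pm_011_s1

theorem t2127_A07pm_011_s1 : ∃ t, chk3 f_A07pm_011_s1 t 1997 947 70 = true := ex3_b k483_A07pm_011_s1 t2126_A07pm_011_s1

theorem t2128_A07pm_011_s1 : ∃ t, chk3 f_A07pm_011_s1 t 1996 947 70 = true := ex3_c k481_A07pm_011_s1 k482_A07pm_011_s1

theorem t2129_A07pm_011_s1 : ∃ t, chk3 f_A07pm_011_s1 t 998 947 70 = true := ex3_a t2128_A07pm_011_s1 t2127_A07pm_011_s1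

theorem t2130_A07pm_011_s1 : ∃ t, chk3 f_A07pm_011_s1 t 998 473 70 = true := ex3_b k480_A07pm_011_s1 t2129_A07pm_011_s1

theorem t2131_A07pm_011_s1 : ∃ t, chk3 f_A07pm_011_s1 t 998 473 35 = true := ex3_c t2130_A07pm_011_s1 k487_A07pm_011_s1

theorem t2132_A07pm_011_s1 : ∃ t, chk3 f_A07pm_011_s1 t 499 473 35 = true := ex3_a t2131_A07pm_011_s1 t2124_A07pm_011_s1

theorem t2133_A07pm_011_s1 : ∃ t, chk3 f_A07pm_011_s1 t 999 947 69 = true := ex3_b k478_A07pm_011_s1 k479_A07pm_011_s1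

theorem t2134_A07pm_011_s1 : ∃ t, chk3 f_A07pm_011_s1 t 999 947 34 = true := ex3_c k477_A07pm_011_s1 t2133_A07pm_011_s1

theorem t2135_A07pm_011_s1 : ∃ t, chk3 f_A07pm_011_s1 t 1997 1894 69 = true := ex3_a k474_A07pm_011_s1 k475_A07pm_011_s1

theorem t2136_A07pm_011_s1 : ∃ t, chk3 f_A07pm_011_s1 t 1997 947 69 = true := ex3_b t2135_A07pm_011_s1 k476_A07pm_011_s1

theorem t2137_A07pm_011_s1 : ∃ t, chk3 f_A07pm_011_s1 t 998 947 69 = true := ex3_a k473_A07pm_011_s1 t2136_A07pm_011_s1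

theorem t2138_A07pm_011_s1 : ∃ t, chk3 f_A07pm_011_s1 t 998 947 34 = true := ex3_c k472_A07pm_011_s1 t2137_A07pm_011_s1

theorem t2139_A07pm_011_s1 : ∃ t, chk3 f_A07pm_011_s1 t 499 947 34 = true := ex3_a t2138_A07pm_011_s1 t2134_A07pm_011_s1

theorem t2140_A07pm_011_s1 : ∃ t, chk3 f_A07pm_011_s1 t 1996 1893 69 = true := ex3_c k468_A07pm_011_s1 k469_A07pm_011_s1

theorem t2141_A07pm_011_s1 : ∃ t, chk3 f_A07pm_011_s1 t 1996 1892 69 = true := ex3_c k466_A07pm_011_s1 k467_A07pm_011_s1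

theorem t2142_A07pm_011_s1 : ∃ t, chk3 f_A07pm_011_s1 t 1996 946 69 = true := ex3_b t2141_A07pm_011_s1 t2140_A07pm_011_s1

theorem t2143_A07pm_011_s1 : ∃ t, chk3 f_A07pm_011_s1 t 998 946 69 = true := ex3_a t2142_A07pm_011_s1 k470_A07pm_011_s1

theorem t2144_A07pm_011_s1 : ∃ t, chk3 f_A07pm_011_s1 t 1997 946 68 = true := ex3_b k464_A07pm_011_s1 k465_A07pm_011_s1

theorem t2145_A07pm_011_s1 : ∃ t, chk3 f_A07pm_011_s1 t 998 946 68 = true := ex3_a k463_A07pm_011_s1 t2144_A07pm_011_s1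

theorem t2146_A07pm_011_s1 : ∃ t, chk3 f_A07pm_011_s1 t 998 946 34 = true := ex3_c t2145_A07pm_011_s1 t2143_A07pm_011_s1

theorem t2147_A07pm_011_s1 : ∃ t, chk3 f_A07pm_011_s1 t 499 946 34 = true := ex3_a t2146_A07pm_011_s1 k471_A07pm_011_s1

theorem t2148_A07pm_011_s1 : ∃ t, chk3 f_A07pm_011_s1 t 499 473 34 = true := ex3_b t2147_A07pm_011_s1 t2139_A07pm_011_s1

theorem t2149_A07pm_011_s1 : ∃ t, chk3 f_A07pm_011_s1 t 499 473 17 = true := ex3_c t2148_A07pm_011_s1 t2132_A07pm_011_s1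

theorem t2150_A07pm_011_s1 : ∃ t, chk3 f_A07pm_011_s1 t 498 473 17 = true := ex3_c k461_A07pm_011_s1 k462_A07pm_011_s1

theorem t2151_A07pm_011_s1 : ∃ t, chk3 f_A07pm_011_s1 t 249 473 17 = true := ex3_a t2150_A07pm_011_s1 t2149_A07pm_011_s1

theorem t2152_A07pm_011_s1 : ∃ t, chk3 f_A07pm_011_s1 t 1996 1891 68 = true := ex3_c k455_A07pm_011_s1 k456_A07pm_011_s1

theorem t2153_A07pm_011_s1 : ∃ t, chk3 f_A07pm_011_s1 t 1996 945 68 = true := ex3_b k454_A07pm_011_s1 t2152_A07pm_011_s1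

theorem t2154_A07pm_011_s1 : ∃ t, chk3 f_A07pm_011_s1 t 1996 945 34 = true := ex3_c t2153_A07pm_011_s1 k457_A07pm_011_s1

theorem t2155_A07pm_011_s1 : ∃ t, chk3 f_A07pm_011_s1 t 1996 472 34 = true := ex3_b k453_A07pm_011_s1 t2154_A07pm_011_s1

theorem t2156_A07pm_011_s1 : ∃ t, chk3 f_A07pm_011_s1 t 998 472 34 = true := ex3_a t2155_A07pm_011_s1 k458_A07pm_011_s1

theorem t2157_A07pm_011_s1 : ∃ t, chk3 f_A07pm_011_s1 t 499 472 34 = true := ex3_a t2156_A07pm_011_s1 k459_A07pm_011_s1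

theorem t2158_A07pm_011_s1 : ∃ t, chk3 f_A07pm_011_s1 t 997 945 69 = true := ex3_a k451_A07pm_011_s1 k452_A07pm_011_s1

theorem t2159_A07pm_011_s1 : ∃ t, chk3 f_A07pm_011_s1 t 997 945 137 = true := ex3_b k449_A07pm_011_s1 k450_A07pm_011_s1

theorem t2160_A07pm_011_s1 : ∃ t, chk3 f_A07pm_011_s1 t 1995 945 136 = true := ex3_b k447_A07pm_011_s1 k448_A07pm_011_s1

theorem t2161_A07pm_011_s1 : ∃ t, chk3 f_A07pm_011_s1 t 997 945 136 = true := ex3_a k446_A07pm_011_s1 t2160_A07pm_011_s1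

theorem t2162_A07pm_011_s1 : ∃ t, chk3 f_A07pm_011_s1 t 997 945 68 = true := ex3_c t2161_A07pm_011_s1 t2159_A07pm_011_s1

theorem t2163_A07pm_011_s1 : ∃ t, chk3 f_A07pm_011_s1 t 997 945 34 = true := ex3_c t2162_A07pm_011_s1 t2158_A07pm_011_s1

theorem t2164_A07pm_011_s1 : ∃ t, chk3 f_A07pm_011_s1 t 1995 944 68 = true := ex3_b k443_A07pm_011_s1 k444_A07pm_011_s1

theorem t2165_A07pm_011_s1 : ∃ t, chk3 f_A07pm_011_s1 t 1995 944 34 = true := ex3_c t2164_A07pm_011_s1 k445_A07pm_011_s1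

theorem t2166_A07pm_011_s1 : ∃ t, chk3 f_A07pm_011_s1 t 997 944 34 = true := ex3_a k442_A07pm_011_s1 t2165_A07pm_011_s1

theorem t2167_A07pm_011_s1 : ∃ t, chk3 f_A07pm_011_s1 t 997 472 34 = true := ex3_b t2166_A07pm_011_s1 t2163_A07pm_011_s1

theorem t2168_A07pm_011_s1 : ∃ t, chk3 f_A07pm_011_s1 t 498 472 34 = true := ex3_a k441_A07pm_011_s1 t2167_A07pm_011_s1

theorem t2169_A07pm_011_s1 : ∃ t, chk3 f_A07pm_011_s1 t 249 472 34 = true := ex3_a t2168_A07pm_011_s1 t2157_A07pm_011_s1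

theorem t2170_A07pm_011_s1 : ∃ t, chk3 f_A07pm_011_s1 t 249 472 17 = true := ex3_c t2169_A07pm_011_s1 k460_A07pm_011_s1

theorem t2171_A07pm_011_s1 : ∃ t, chk3 f_A07pm_011_s1 t 249 236 17 = true := ex3_b t2170_A07pm_011_s1 t2151_A07pm_011_s1

theorem t2172_A07pm_011_s1 : ∃ t, chk3 f_A07pm_011_s1 t 249 473 33 = true := ex3_a k439_A07pm_011_s1 k440_A07pm_011_s1

theorem t2173_A07pm_011_s1 : ∃ t, chk3 f_A07pm_011_s1 t 998 945 67 = true := ex3_a k436_A07pm_011_s1 k437_A07pm_011_s1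

theorem t2174_A07pm_011_s1 : ∃ t, chk3 f_A07pm_011_s1 t 499 945 67 = true := ex3_a t2173_A07pm_011_s1 k438_A07pm_011_s1

theorem t2175_A07pm_011_s1 : ∃ t, chk3 f_A07pm_011_s1 t 249 945 67 = true := ex3_a k435_A07pm_011_s1 t2174_A07pm_011_s1

theorem t2176_A07pm_011_s1 : ∃ t, chk3 f_A07pm_011_s1 t 1995 944 67 = true := ex3_b k432_A07pm_011_s1 k433_A07pm_011_s1

theorem t2177_A07pm_011_s1 : ∃ t, chk3 f_A07pm_011_s1 t 997 944 67 = true := ex3_a k431_A07pm_011_s1 t2176_A07pm_011_s1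

theorem t2178_A07pm_011_s1 : ∃ t, chk3 f_A07pm_011_s1 t 498 944 67 = true := ex3_a k430_A07pm_011_s1 t2177_A07pm_011_s1

theorem t2179_A07pm_011_s1 : ∃ t, chk3 f_A07pm_011_s1 t 249 944 67 = true := ex3_a t2178_A07pm_011_s1 k434_A07pm_011_s1

theorem t2180_A07pm_011_s1 : ∃ t, chk3 f_A07pm_011_s1 t 249 472 67 = true := ex3_b t2179_A07pm_011_s1 t2175_A07pm_011_s1

theorem t2181_A07pm_011_s1 : ∃ t, chk3 f_A07pm_011_s1 t 249 944 66 = true := ex3_a k427_A07pm_011_s1 k428_A07pm_011_s1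

theorem t2182_A07pm_011_s1 : ∃ t, chk3 f_A07pm_011_s1 t 249 472 66 = true := ex3_b t2181_A07pm_011_s1 k429_A07pm_011_s1

theorem t2183_A07pm_011_s1 : ∃ t, chk3 f_A07pm_011_s1 t 249 472 33 = true := ex3_c t2182_A07pm_011_s1 t2180_A07pm_011_s1

theorem t2184_A07pm_011_s1 : ∃ t, chk3 f_A07pm_011_s1 t 249 236 33 = true := ex3_b t2183_A07pm_011_s1 t2172_A07pm_011_s1

theorem t2185_A07pm_011_s1 : ∃ t, chk3 f_A07pm_011_s1 t 249 236 32 = true := ex3_a k425_A07pm_011_s1 k426_A07pm_011_s1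

theorem t2186_A07pm_011_s1 : ∃ t, chk3 f_A07pm_011_s1 t 249 236 16 = true := ex3_c t2185_A07pm_011_s1 t2184_A07pm_011_s1

theorem t2187_A07pm_011_s1 : ∃ t, chk3 f_A07pm_011_s1 t 249 236 8 = true := ex3_c t2186_A07pm_011_s1 t2171_A07pm_011_s1

theorem t2188_A07pm_011_s1 : ∃ t, chk3 f_A07pm_011_s1 t 249 236 4 = true := ex3_c t2187_A07pm_011_s1 t2123_A07pm_011_s1

theorem t2189_A07pm_011_s1 : ∃ t, chk3 f_A07pm_011_s1 t 249 118 4 = true := ex3_b t2188_A07pm_011_s1 t2069_A07pm_011_s1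

theorem t2190_A07pm_011_s1 : ∃ t, chk3 f_A07pm_011_s1 t 124 118 4 = true := ex3_a k424_A07pm_011_s1 t2189_A07pm_011_s1

theorem t2191_A07pm_011_s1 : ∃ t, chk3 f_A07pm_011_s1 t 124 59 4 = true := ex3_b t2190_A07pm_011_s1 t1969_A07pm_011_s1

theorem t2192_A07pm_011_s1 : ∃ t, chk3 f_A07pm_011_s1 t 62 59 4 = true := ex3_a t2191_A07pm_011_s1 t1958_A07pm_011_s1

theorem t2193_A07pm_011_s1 : ∃ t, chk3 f_A07pm_011_s1 t 500 235 34 = true := ex3_b k418_A07pm_011_s1 k419_A07pm_011_s1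

theorem t2194_A07pm_011_s1 : ∃ t, chk3 f_A07pm_011_s1 t 250 235 34 = true := ex3_a t2193_A07pm_011_s1 k420_A07pm_011_s1

theorem t2195_A07pm_011_s1 : ∃ t, chk3 f_A07pm_011_s1 t 125 235 34 = true := ex3_a t2194_A07pm_011_s1 k421_A07pm_011_s1

theorem t2196_A07pm_011_s1 : ∃ t, chk3 f_A07pm_011_s1 t 125 235 17 = true := ex3_c t2195_A07pm_011_s1 k422_A07pm_011_s1

theorem t2197_A07pm_011_s1 : ∃ t, chk3 f_A07pm_011_s1 t 125 117 17 = true := ex3_b k417_A07pm_011_s1 t2196_A07pm_011_s1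

theorem t2198_A07pm_011_s1 : ∃ t, chk3 f_A07pm_011_s1 t 501 235 33 = true := ex3_b k414_A07pm_011_s1 k415_A07pm_011_s1

theorem t2199_A07pm_011_s1 : ∃ t, chk3 f_A07pm_011_s1 t 501 235 16 = true := ex3_c k413_A07pm_011_s1 t2198_A07pm_011_s1

theorem t2200_A07pm_011_s1 : ∃ t, chk3 f_A07pm_011_s1 t 500 235 16 = true := ex3_b k411_A07pm_011_s1 k412_A07pm_011_s1

theorem t2201_A07pm_011_s1 : ∃ t, chk3 f_A07pm_011_s1 t 250 235 16 = true := ex3_a t2200_A07pm_011_s1 t2199_A07pm_011_s1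

theorem t2202_A07pm_011_s1 : ∃ t, chk3 f_A07pm_011_s1 t 250 469 32 = true := ex3_a k408_A07pm_011_s1 k409_A07pm_011_s1

theorem t2203_A07pm_011_s1 : ∃ t, chk3 f_A07pm_011_s1 t 250 234 32 = true := ex3_b k407_A07pm_011_s1 t2202_A07pm_011_s1

theorem t2204_A07pm_011_s1 : ∃ t, chk3 f_A07pm_011_s1 t 250 234 16 = true := ex3_c t2203_A07pm_011_s1 k410_A07pm_011_s1

theorem t2205_A07pm_011_s1 : ∃ t, chk3 f_A07pm_011_s1 t 250 117 16 = true := ex3_b t2204_A07pm_011_s1 t2201_A07pm_011_s1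

theorem t2206_A07pm_011_s1 : ∃ t, chk3 f_A07pm_011_s1 t 125 117 16 = true := ex3_a t2205_A07pm_011_s1 k416_A07pm_011_s1

theorem t2207_A07pm_011_s1 : ∃ t, chk3 f_A07pm_011_s1 t 125 117 8 = true := ex3_c t2206_A07pm_011_s1 t2197_A07pm_011_s1

theorem t2208_A07pm_011_s1 : ∃ t, chk3 f_A07pm_011_s1 t 125 58 8 = true := ex3_b k406_A07pm_011_s1 t2207_A07pm_011_s1

theorem t2209_A07pm_011_s1 : ∃ t, chk3 f_A07pm_011_s1 t 125 58 4 = true := ex3_c t2208_A07pm_011_s1 k423_A07pm_011_s1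

theorem t2210_A07pm_011_s1 : ∃ t, chk3 f_A07pm_011_s1 t 124 235 19 = true := ex3_a k404_A07pm_011_s1 k405_A07pm_011_s1

theorem t2211_A07pm_011_s1 : ∃ t, chk3 f_A07pm_011_s1 t 124 117 19 = true := ex3_b k403_A07pm_011_s1 t2210_A07pm_011_s1

theorem t2212_A07pm_011_s1 : ∃ t, chk3 f_A07pm_011_s1 t 1994 1887 74 = true := ex3_a k398_A07pm_011_s1 k399_A07pm_011_s1

theorem t2213_A07pm_011_s1 : ∃ t, chk3 f_A07pm_011_s1 t 1994 943 74 = true := ex3_b k397_A07pm_011_s1 t2212_A07pm_011_s1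

theorem t2214_A07pm_011_s1 : ∃ t, chk3 f_A07pm_011_s1 t 997 943 74 = true := ex3_a t2213_A07pm_011_s1 k400_A07pm_011_s1

theorem t2215_A07pm_011_s1 : ∃ t, chk3 f_A07pm_011_s1 t 997 471 74 = true := ex3_b k396_A07pm_011_s1 t2214_A07pm_011_s1

theorem t2216_A07pm_011_s1 : ∃ t, chk3 f_A07pm_011_s1 t 996 471 74 = true := ex3_b k394_A07pm_011_s1 k395_A07pm_011_s1

theorem t2217_A07pm_011_s1 : ∃ t, chk3 f_A07pm_011_s1 t 498 471 74 = true := ex3_a t2216_A07pm_011_s1 t2215_A07pm_011_s1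

theorem t2218_A07pm_011_s1 : ∃ t, chk3 f_A07pm_011_s1 t 498 471 37 = true := ex3_c t2217_A07pm_011_s1 k401_A07pm_011_s1

theorem t2219_A07pm_011_s1 : ∃ t, chk3 f_A07pm_011_s1 t 498 235 37 = true := ex3_b k393_A07pm_011_s1 t2218_A07pm_011_s1

theorem t2220_A07pm_011_s1 : ∃ t, chk3 f_A07pm_011_s1 t 249 235 37 = true := ex3_a t2219_A07pm_011_s1 k402_A07pm_011_s1

theorem t2221_A07pm_011_s1 : ∃ t, chk3 f_A07pm_011_s1 t 499 471 72 = true := ex3_b k390_A07pm_011_s1 k391_A07pm_011_s1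

theorem t2222_A07pm_011_s1 : ∃ t, chk3 f_A07pm_011_s1 t 499 471 36 = true := ex3_c t2221_A07pm_011_s1 k392_A07pm_011_s1

theorem t2223_A07pm_011_s1 : ∃ t, chk3 f_A07pm_011_s1 t 499 235 36 = true := ex3_b k389_A07pm_011_s1 t2222_A07pm_011_s1

theorem t2224_A07pm_011_s1 : ∃ t, chk3 f_A07pm_011_s1 t 997 943 73 = true := ex3_a k387_A07pm_011_s1 k388_A07pm_011_s1

theorem t2225_A07pm_011_s1 : ∃ t, chk3 f_A07pm_011_s1 t 997 942 73 = true := ex3_c k385_A07pm_011_s1 k386_A07pm_011_s1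

theorem t2226_A07pm_011_s1 : ∃ t, chk3 f_A07pm_011_s1 t 997 471 73 = true := ex3_b t2225_A07pm_011_s1 t2224_A07pm_011_s1

theorem t2227_A07pm_011_s1 : ∃ t, chk3 f_A07pm_011_s1 t 997 471 36 = true := ex3_c k384_A07pm_011_s1 t2226_A07pm_011_s1

theorem t2228_A07pm_011_s1 : ∃ t, chk3 f_A07pm_011_s1 t 996 942 73 = true := ex3_c k381_A07pm_011_s1 k382_A07pm_011_s1

theorem t2229_A07pm_011_s1 : ∃ t, chk3 f_A07pm_011_s1 t 996 942 36 = true := ex3_c k380_A07pm_011_s1 t2228_A07pm_011_s1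

theorem t2230_A07pm_011_s1 : ∃ t, chk3 f_A07pm_011_s1 t 996 471 36 = true := ex3_b t2229_A07pm_011_s1 k383_A07pm_011_s1

theorem t2231_A07pm_011_s1 : ∃ t, chk3 f_A07pm_011_s1 t 498 471 36 = true := ex3_a t2230_A07pm_011_s1 t2227_A07pm_011_s1

theorem t2232_A07pm_011_s1 : ∃ t, chk3 f_A07pm_011_s1 t 996 1883 73 = true := ex3_a k377_A07pm_011_s1 k378_A07pm_011_s1

theorem t2233_A07pm_011_s1 : ∃ t, chk3 f_A07pm_011_s1 t 996 941 73 = true := ex3_b k376_A07pm_011_s1 t2232_A07pm_011_s1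

theorem t2234_A07pm_011_s1 : ∃ t, chk3 f_A07pm_011_s1 t 996 470 73 = true := ex3_b k375_A07pm_011_s1 t2233_A07pm_011_s1

theorem t2235_A07pm_011_s1 : ∃ t, chk3 f_A07pm_011_s1 t 498 470 73 = true := ex3_a t2234_A07pm_011_s1 k379_A07pm_011_s1

theorem t2236_A07pm_011_s1 : ∃ t, chk3 f_A07pm_011_s1 t 1993 941 72 = true := ex3_b k372_A07pm_011_s1 k373_A07pm_011_s1

theorem t2237_A07pm_011_s1 : ∃ t, chk3 f_A07pm_011_s1 t 996 941 72 = true := ex3_a k371_A07pm_011_s1 t2236_A07pm_011_s1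

theorem t2238_A07pm_011_s1 : ∃ t, chk3 f_A07pm_011_s1 t 498 941 72 = true := ex3_a t2237_A07pm_011_s1 k374_A07pm_011_s1

theorem t2239_A07pm_011_s1 : ∃ t, chk3 f_A07pm_011_s1 t 1992 940 72 = true := ex3_b k367_A07pm_011_s1 k368_A07pm_011_s1

theorem t2240_A07pm_011_s1 : ∃ t, chk3 f_A07pm_011_s1 t 996 940 72 = true := ex3_a t2239_A07pm_011_s1 k369_A07pm_011_s1

theorem t2241_A07pm_011_s1 : ∃ t, chk3 f_A07pm_011_s1 t 498 940 72 = true := ex3_a t2240_A07pm_011_s1 k370_A07pm_011_s1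

theorem t2242_A07pm_011_s1 : ∃ t, chk3 f_A07pm_011_s1 t 498 470 72 = true := ex3_b t2241_A07pm_011_s1 t2238_A07pm_011_s1

theorem t2243_A07pm_011_s1 : ∃ t, chk3 f_A07pm_011_s1 t 498 470 36 = true := ex3_c t2242_A07pm_011_s1 t2235_A07pm_011_s1

theorem t2244_A07pm_011_s1 : ∃ t, chk3 f_A07pm_011_s1 t 498 235 36 = true := ex3_b t2243_A07pm_011_s1 t2231_A07pm_011_s1

theorem t2245_A07pm_011_s1 : ∃ t, chk3 f_A07pm_011_s1 t 249 235 36 = true := ex3_a t2244_A07pm_011_s1 t2223_A07pm_011_s1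

theorem t2246_A07pm_011_s1 : ∃ t, chk3 f_A07pm_011_s1 t 249 235 18 = true := ex3_c t2245_A07pm_011_s1 t2220_A07pm_011_s1

theorem t2247_A07pm_011_s1 : ∃ t, chk3 f_A07pm_011_s1 t 497 235 18 = true := ex3_b k365_A07pm_011_s1 k366_A07pm_011_s1

theorem t2248_A07pm_011_s1 : ∃ t, chk3 f_A07pm_011_s1 t 248 235 18 = true := ex3_a k364_A07pm_011_s1 t2247_A07pm_011_s1

theorem t2249_A07pm_011_s1 : ∃ t, chk3 f_A07pm_011_s1 t 124 235 18 = true := ex3_a t2248_A07pm_011_s1 t2246_A07pm_011_s1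

theorem t2250_A07pm_011_s1 : ∃ t, chk3 f_A07pm_011_s1 t 498 234 18 = true := ex3_a k361_A07pm_011_s1 k362_A07pm_011_s1

theorem t2251_A07pm_011_s1 : ∃ t, chk3 f_A07pm_011_s1 t 249 234 18 = true := ex3_a t2250_A07pm_011_s1 k363_A07pm_011_s1

theorem t2252_A07pm_011_s1 : ∃ t, chk3 f_A07pm_011_s1 t 497 469 72 = true := ex3_a k357_A07pm_011_s1 k358_A07pm_011_s1

theorem t2253_A07pm_011_s1 : ∃ t, chk3 f_A07pm_011_s1 t 497 469 36 = true := ex3_c t2252_A07pm_011_s1 k359_A07pm_011_s1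

theorem t2254_A07pm_011_s1 : ∃ t, chk3 f_A07pm_011_s1 t 497 469 18 = true := ex3_c t2253_A07pm_011_s1 k360_A07pm_011_s1

theorem t2255_A07pm_011_s1 : ∃ t, chk3 f_A07pm_011_s1 t 497 234 18 = true := ex3_b k356_A07pm_011_s1 t2254_A07pm_011_s1

theorem t2256_A07pm_011_s1 : ∃ t, chk3 f_A07pm_011_s1 t 248 234 18 = true := ex3_a k355_A07pm_011_s1 t2255_A07pm_011_s1

theorem t2257_A07pm_011_s1 : ∃ t, chk3 f_A07pm_011_s1 t 124 234 18 = true := ex3_a t2256_A07pm_011_s1 t2251_A07pm_011_s1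

theorem t2258_A07pm_011_s1 : ∃ t, chk3 f_A07pm_011_s1 t 124 117 18 = true := ex3_b t2257_A07pm_011_s1 t2249_A07pm_011_s1

theorem t2259_A07pm_011_s1 : ∃ t, chk3 f_A07pm_011_s1 t 124 117 9 = true := ex3_c t2258_A07pm_011_s1 t2211_A07pm_011_s1

theorem t2260_A07pm_011_s1 : ∃ t, chk3 f_A07pm_011_s1 t 248 116 9 = true := ex3_a k352_A07pm_011_s1 k353_A07pm_011_s1

theorem t2261_A07pm_011_s1 : ∃ t, chk3 f_A07pm_011_s1 t 124 116 9 = true := ex3_a t2260_A07pm_011_s1 k354_A07pm_011_s1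

theorem t2262_A07pm_011_s1 : ∃ t, chk3 f_A07pm_011_s1 t 124 58 9 = true := ex3_b t2261_A07pm_011_s1 t2259_A07pm_011_s1

theorem t2263_A07pm_011_s1 : ∃ t, chk3 f_A07pm_011_s1 t 499 470 35 = true := ex3_c k349_A07pm_011_s1 k350_A07pm_011_s1

theorem t2264_A07pm_011_s1 : ∃ t, chk3 f_A07pm_011_s1 t 499 235 35 = true := ex3_b t2263_A07pm_011_s1 k351_A07pm_011_s1

theorem t2265_A07pm_011_s1 : ∃ t, chk3 f_A07pm_011_s1 t 499 235 17 = true := ex3_c k348_A07pm_011_s1 t2264_A07pm_011_s1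

theorem t2266_A07pm_011_s1 : ∃ t, chk3 f_A07pm_011_s1 t 997 470 35 = true := ex3_c k345_A07pm_011_s1 k346_A07pm_011_s1

theorem t2267_A07pm_011_s1 : ∃ t, chk3 f_A07pm_011_s1 t 997 235 35 = true := ex3_b t2266_A07pm_011_s1 k347_A07pm_011_s1

theorem t2268_A07pm_011_s1 : ∃ t, chk3 f_A07pm_011_s1 t 996 235 35 = true := ex3_b k343_A07pm_011_s1 k344_A07pm_011_s1

theorem t2269_A07pm_011_s1 : ∃ t, chk3 f_A07pm_011_s1 t 498 235 35 = true := ex3_a t2268_A07pm_011_s1 t2267_A07pm_011_s1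

theorem t2270_A07pm_011_s1 : ∃ t, chk3 f_A07pm_011_s1 t 498 471 34 = true := ex3_a k341_A07pm_011_s1 k342_A07pm_011_s1

theorem t2271_A07pm_011_s1 : ∃ t, chk3 f_A07pm_011_s1 t 498 235 34 = true := ex3_b k340_A07pm_011_s1 t2270_A07pm_011_s1

theorem t2272_A07pm_011_s1 : ∃ t, chk3 f_A07pm_011_s1 t 498 235 17 = true := ex3_c t2271_A07pm_011_s1 t2269_A07pm_011_s1

theorem t2273_A07pm_011_s1 : ∃ t, chk3 f_A07pm_011_s1 t 249 235 17 = true := ex3_a t2272_A07pm_011_s1 t2265_A07pm_011_s1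

theorem t2274_A07pm_011_s1 : ∃ t, chk3 f_A07pm_011_s1 t 124 235 17 = true := ex3_a k339_A07pm_011_s1 t2273_A07pm_011_s1

theorem t2275_A07pm_011_s1 : ∃ t, chk3 f_A07pm_011_s1 t 996 939 71 = true := ex3_c k335_A07pm_011_s1 k336_A07pm_011_s1

theorem t2276_A07pm_011_s1 : ∃ t, chk3 f_A07pm_011_s1 t 996 469 71 = true := ex3_b k334_A07pm_011_s1 t2275_A07pm_011_s1

theorem t2277_A07pm_011_s1 : ∃ t, chk3 f_A07pm_011_s1 t 498 469 71 = true := ex3_a t2276_A07pm_011_s1 k337_A07pm_011_s1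

theorem t2278_A07pm_011_s1 : ∃ t, chk3 f_A07pm_011_s1 t 996 469 70 = true := ex3_b k331_A07pm_011_s1 k332_A07pm_011_s1

theorem t2279_A07pm_011_s1 : ∃ t, chk3 f_A07pm_011_s1 t 498 469 70 = true := ex3_a t2278_A07pm_011_s1 k333_A07pm_011_s1

theorem t2280_A07pm_011_s1 : ∃ t, chk3 f_A07pm_011_s1 t 498 469 35 = true := ex3_c t2279_A07pm_011_s1 t2277_A07pm_011_s1

theorem t2281_A07pm_011_s1 : ∃ t, chk3 f_A07pm_011_s1 t 498 234 35 = true := ex3_b k330_A07pm_011_s1 t2280_A07pm_011_s1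

theorem t2282_A07pm_011_s1 : ∃ t, chk3 f_A07pm_011_s1 t 249 234 35 = true := ex3_a t2281_A07pm_011_s1 k338_A07pm_011_s1

theorem t2283_A07pm_011_s1 : ∃ t, chk3 f_A07pm_011_s1 t 995 939 71 = true := ex3_c k328_A07pm_011_s1 k329_A07pm_011_s1

theorem t2284_A07pm_011_s1 : ∃ t, chk3 f_A07pm_011_s1 t 995 1877 71 = true := ex3_a k326_A07pm_011_s1 k327_A07pm_011_s1

theorem t2285_A07pm_011_s1 : ∃ t, chk3 f_A07pm_011_s1 t 995 938 71 = true := ex3_b k325_A07pm_011_s1 t2284_A07pm_011_s1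

theorem t2286_A07pm_011_s1 : ∃ t, chk3 f_A07pm_011_s1 t 995 469 71 = true := ex3_b t2285_A07pm_011_s1 t2283_A07pm_011_s1

theorem t2287_A07pm_011_s1 : ∃ t, chk3 f_A07pm_011_s1 t 497 469 71 = true := ex3_a k324_A07pm_011_s1 t2286_A07pm_011_s1

theorem t2288_A07pm_011_s1 : ∃ t, chk3 f_A07pm_011_s1 t 995 938 70 = true := ex3_a k321_A07pm_011_s1 k322_A07pm_011_s1

theorem t2289_A07pm_011_s1 : ∃ t, chk3 f_A07pm_011_s1 t 995 469 70 = true := ex3_b t2288_A07pm_011_s1 k323_A07pm_011_s1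

theorem t2290_A07pm_011_s1 : ∃ t, chk3 f_A07pm_011_s1 t 497 469 70 = true := ex3_a k320_A07pm_011_s1 t2289_A07pm_011_s1

theorem t2291_A07pm_011_s1 : ∃ t, chk3 f_A07pm_011_s1 t 497 469 35 = true := ex3_c t2290_A07pm_011_s1 t2287_A07pm_011_s1

theorem t2292_A07pm_011_s1 : ∃ t, chk3 f_A07pm_011_s1 t 1990 937 70 = true := ex3_b k316_A07pm_011_s1 k317_A07pm_011_s1

theorem t2293_A07pm_011_s1 : ∃ t, chk3 f_A07pm_011_s1 t 995 937 70 = true := ex3_a t2292_A07pm_011_s1 k318_A07pm_011_s1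

theorem t2294_A07pm_011_s1 : ∃ t, chk3 f_A07pm_011_s1 t 995 468 70 = true := ex3_b k315_A07pm_011_s1 t2293_A07pm_011_s1

theorem t2295_A07pm_011_s1 : ∃ t, chk3 f_A07pm_011_s1 t 994 468 70 = true := ex3_b k313_A07pm_011_s1 k314_A07pm_011_s1

theorem t2296_A07pm_011_s1 : ∃ t, chk3 f_A07pm_011_s1 t 497 468 70 = true := ex3_a t2295_A07pm_011_s1 t2294_A07pm_011_s1

theorem t2297_A07pm_011_s1 : ∃ t, chk3 f_A07pm_011_s1 t 497 468 35 = true := ex3_c t2296_A07pm_011_s1 k319_A07pm_011_s1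

theorem t2298_A07pm_011_s1 : ∃ t, chk3 f_A07pm_011_s1 t 497 234 35 = true := ex3_b t2297_A07pm_011_s1 t2291_A07pm_011_s1

theorem t2299_A07pm_011_s1 : ∃ t, chk3 f_A07pm_011_s1 t 248 234 35 = true := ex3_a k312_A07pm_011_s1 t2298_A07pm_011_s1

theorem t2300_A07pm_011_s1 : ∃ t, chk3 f_A07pm_011_s1 t 124 234 35 = true := ex3_a t2299_A07pm_011_s1 t2282_A07pm_011_s1

theorem t2301_A07pm_011_s1 : ∃ t, chk3 f_A07pm_011_s1 t 498 469 34 = true := ex3_a k309_A07pm_011_s1 k310_A07pm_011_s1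

theorem t2302_A07pm_011_s1 : ∃ t, chk3 f_A07pm_011_s1 t 498 468 34 = true := ex3_c k307_A07pm_011_s1 k308_A07pm_011_s1

theorem t2303_A07pm_011_s1 : ∃ t, chk3 f_A07pm_011_s1 t 498 234 34 = true := ex3_b t2302_A07pm_011_s1 t2301_A07pm_011_s1

theorem t2304_A07pm_011_s1 : ∃ t, chk3 f_A07pm_011_s1 t 249 234 34 = true := ex3_a t2303_A07pm_011_s1 k311_A07pm_011_s1

theorem t2305_A07pm_011_s1 : ∃ t, chk3 f_A07pm_011_s1 t 995 936 69 = true := ex3_c k303_A07pm_011_s1 k304_A07pm_011_s1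

theorem t2306_A07pm_011_s1 : ∃ t, chk3 f_A07pm_011_s1 t 994 936 69 = true := ex3_c k301_A07pm_011_s1 k302_A07pm_011_s1

theorem t2307_A07pm_011_s1 : ∃ t, chk3 f_A07pm_011_s1 t 497 936 69 = true := ex3_a t2306_A07pm_011_s1 t2305_A07pm_011_s1

theorem t2308_A07pm_011_s1 : ∃ t, chk3 f_A07pm_011_s1 t 497 468 69 = true := ex3_b t2307_A07pm_011_s1 k305_A07pm_011_s1

theorem t2309_A07pm_011_s1 : ∃ t, chk3 f_A07pm_011_s1 t 497 468 34 = true := ex3_c k300_A07pm_011_s1 t2308_A07pm_011_s1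

theorem t2310_A07pm_011_s1 : ∃ t, chk3 f_A07pm_011_s1 t 497 234 34 = true := ex3_b t2309_A07pm_011_s1 k306_A07pm_011_s1

theorem t2311_A07pm_011_s1 : ∃ t, chk3 f_A07pm_011_s1 t 248 234 34 = true := ex3_a k299_A07pm_011_s1 t2310_A07pm_011_s1

theorem t2312_A07pm_011_s1 : ∃ t, chk3 f_A07pm_011_s1 t 124 234 34 = true := ex3_a t2311_A07pm_011_s1 t2304_A07pm_011_s1

theorem t2313_A07pm_011_s1 : ∃ t, chk3 f_A07pm_011_s1 t 124 234 17 = true := ex3_c t2312_A07pm_011_s1 t2300_A07pm_011_s1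

theorem t2314_A07pm_011_s1 : ∃ t, chk3 f_A07pm_011_s1 t 124 117 17 = true := ex3_b t2313_A07pm_011_s1 t2274_A07pm_011_s1

theorem t2315_A07pm_011_s1 : ∃ t, chk3 f_A07pm_011_s1 t 499 471 33 = true := ex3_a k297_A07pm_011_s1 k298_A07pm_011_s1

theorem t2316_A07pm_011_s1 : ∃ t, chk3 f_A07pm_011_s1 t 499 943 32 = true := ex3_a k295_A07pm_011_s1 k296_A07pm_011_s1

theorem t2317_A07pm_011_s1 : ∃ t, chk3 f_A07pm_011_s1 t 499 471 32 = true := ex3_b k294_A07pm_011_s1 t2316_A07pm_011_s1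

theorem t2318_A07pm_011_s1 : ∃ t, chk3 f_A07pm_011_s1 t 499 471 16 = true := ex3_c t2317_A07pm_011_s1 t2315_A07pm_011_s1

theorem t2319_A07pm_011_s1 : ∃ t, chk3 f_A07pm_011_s1 t 499 235 16 = true := ex3_b k293_A07pm_011_s1 t2318_A07pm_011_s1

theorem t2320_A07pm_011_s1 : ∃ t, chk3 f_A07pm_011_s1 t 1994 1887 67 = true := ex3_c k290_A07pm_011_s1 k291_A07pm_011_s1

theorem t2321_A07pm_011_s1 : ∃ t, chk3 f_A07pm_011_s1 t 1994 943 67 = true := ex3_b k289_A07pm_011_s1 t2320_A07pm_011_s1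

theorem t2322_A07pm_011_s1 : ∃ t, chk3 f_A07pm_011_s1 t 1994 471 67 = true := ex3_b k288_A07pm_011_s1 t2321_A07pm_011_s1

theorem t2323_A07pm_011_s1 : ∃ t, chk3 f_A07pm_011_s1 t 997 471 67 = true := ex3_a t2322_A07pm_011_s1 k292_A07pm_011_s1

theorem t2324_A07pm_011_s1 : ∃ t, chk3 f_A07pm_011_s1 t 498 471 67 = true := ex3_a k287_A07pm_011_s1 t2323_A07pm_011_s1

theorem t2325_A07pm_011_s1 : ∃ t, chk3 f_A07pm_011_s1 t 1995 943 66 = true := ex3_b k285_A07pm_011_s1 k286_A07pm_011_s1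

theorem t2326_A07pm_011_s1 : ∃ t, chk3 f_A07pm_011_s1 t 1994 1886 66 = true := ex3_c k282_A07pm_011_s1 k283_A07pm_011_s1

theorem t2327_A07pm_011_s1 : ∃ t, chk3 f_A07pm_011_s1 t 1994 943 66 = true := ex3_b t2326_A07pm_011_s1 k284_A07pm_011_s1

theorem t2328_A07pm_011_s1 : ∃ t, chk3 f_A07pm_011_s1 t 997 943 66 = true := ex3_a t2327_A07pm_011_s1 t2325_A07pm_011_s1

theorem t2329_A07pm_011_s1 : ∃ t, chk3 f_A07pm_011_s1 t 498 943 66 = true := ex3_a k281_A07pm_011_s1 t2328_A07pm_011_s1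

theorem t2330_A07pm_011_s1 : ∃ t, chk3 f_A07pm_011_s1 t 997 942 66 = true := ex3_a k279_A07pm_011_s1 k280_A07pm_011_s1

theorem t2331_A07pm_011_s1 : ∃ t, chk3 f_A07pm_011_s1 t 996 942 132 = true := ex3_b k276_A07pm_011_s1 k277_A07pm_011_s1

theorem t2332_A07pm_011_s1 : ∃ t, chk3 f_A07pm_011_s1 t 996 942 66 = true := ex3_c t2331_A07pm_011_s1 k278_A07pm_011_s1

theorem t2333_A07pm_011_s1 : ∃ t, chk3 f_A07pm_011_s1 t 498 942 66 = true := ex3_a t2332_A07pm_011_s1 t2330_A07pm_011_s1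

theorem t2334_A07pm_011_s1 : ∃ t, chk3 f_A07pm_011_s1 t 498 471 66 = true := ex3_b t2333_A07pm_011_s1 t2329_A07pm_011_s1

theorem t2335_A07pm_011_s1 : ∃ t, chk3 f_A07pm_011_s1 t 498 471 33 = true := ex3_c t2334_A07pm_011_s1 t2324_A07pm_011_s1

theorem t2336_A07pm_011_s1 : ∃ t, chk3 f_A07pm_011_s1 t 996 941 33 = true := ex3_a k273_A07pm_011_s1 k274_A07pm_011_s1

theorem t2337_A07pm_011_s1 : ∃ t, chk3 f_A07pm_011_s1 t 996 470 33 = true := ex3_b k272_A07pm_011_s1 t2336_A07pm_011_s1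

theorem t2338_A07pm_011_s1 : ∃ t, chk3 f_A07pm_011_s1 t 498 470 33 = true := ex3_a t2337_A07pm_011_s1 k275_A07pm_011_s1

theorem t2339_A07pm_011_s1 : ∃ t, chk3 f_A07pm_011_s1 t 498 235 33 = true := ex3_b t2338_A07pm_011_s1 t2335_A07pm_011_s1

theorem t2340_A07pm_011_s1 : ∃ t, chk3 f_A07pm_011_s1 t 997 942 65 = true := ex3_a k269_A07pm_011_s1 k270_A07pm_011_s1

theorem t2341_A07pm_011_s1 : ∃ t, chk3 f_A07pm_011_s1 t 997 942 32 = true := ex3_c k268_A07pm_011_s1 t2340_A07pm_011_s1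

theorem t2342_A07pm_011_s1 : ∃ t, chk3 f_A07pm_011_s1 t 997 471 32 = true := ex3_b t2341_A07pm_011_s1 k271_A07pm_011_s1

theorem t2343_A07pm_011_s1 : ∃ t, chk3 f_A07pm_011_s1 t 498 471 32 = true := ex3_a k267_A07pm_011_s1 t2342_A07pm_011_s1

theorem t2344_A07pm_011_s1 : ∃ t, chk3 f_A07pm_011_s1 t 997 941 32 = true := ex3_c k265_A07pm_011_s1 k266_A07pm_011_s1

theorem t2345_A07pm_011_s1 : ∃ t, chk3 f_A07pm_011_s1 t 997 470 32 = true := ex3_b k264_A07pm_011_s1 t2344_A07pm_011_s1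

theorem t2346_A07pm_011_s1 : ∃ t, chk3 f_A07pm_011_s1 t 1993 1883 65 = true := ex3_c k262_A07pm_011_s1 k263_A07pm_011_s1

theorem t2347_A07pm_011_s1 : ∃ t, chk3 f_A07pm_011_s1 t 1993 941 65 = true := ex3_b k261_A07pm_011_s1 t2346_A07pm_011_s1

theorem t2348_A07pm_011_s1 : ∃ t, chk3 f_A07pm_011_s1 t 1992 941 65 = true := ex3_b k259_A07pm_011_s1 k260_A07pm_011_s1

theorem t2349_A07pm_011_s1 : ∃ t, chk3 f_A07pm_011_s1 t 996 941 65 = true := ex3_a t2348_A07pm_011_s1 t2347_A07pm_011_s1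

theorem t2350_A07pm_011_s1 : ∃ t, chk3 f_A07pm_011_s1 t 996 941 32 = true := ex3_c k258_A07pm_011_s1 t2349_A07pm_011_s1

theorem t2351_A07pm_011_s1 : ∃ t, chk3 f_A07pm_011_s1 t 1992 940 65 = true := ex3_b k255_A07pm_011_s1 k256_A07pm_011_s1

theorem t2352_A07pm_011_s1 : ∃ t, chk3 f_A07pm_011_s1 t 996 940 65 = true := ex3_a t2351_A07pm_011_s1 k257_A07pm_011_s1

theorem t2353_A07pm_011_s1 : ∃ t, chk3 f_A07pm_011_s1 t 996 1881 64 = true := ex3_a k253_A07pm_011_s1 k254_A07pm_011_s1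

theorem t2354_A07pm_011_s1 : ∃ t, chk3 f_A07pm_011_s1 t 1992 1880 64 = true := ex3_c k250_A07pm_011_s1 k251_A07pm_011_s1

theorem t2355_A07pm_011_s1 : ∃ t, chk3 f_A07pm_011_s1 t 996 1880 64 = true := ex3_a t2354_A07pm_011_s1 k252_A07pm_011_s1

theorem t2356_A07pm_011_s1 : ∃ t, chk3 f_A07pm_011_s1 t 996 940 64 = true := ex3_b t2355_A07pm_011_s1 t2353_A07pm_011_s1

theorem t2357_A07pm_011_s1 : ∃ t, chk3 f_A07pm_011_s1 t 996 940 32 = true := ex3_c t2356_A07pm_011_s1 t2352_A07pm_011_s1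

theorem t2358_A07pm_011_s1 : ∃ t, chk3 f_A07pm_011_s1 t 996 470 32 = true := ex3_b t2357_A07pm_011_s1 t2350_A07pm_011_s1

theorem t2359_A07pm_011_s1 : ∃ t, chk3 f_A07pm_011_s1 t 498 470 32 = true := ex3_a t2358_A07pm_011_s1 t2345_A07pm_011_s1

theorem t2360_A07pm_011_s1 : ∃ t, chk3 f_A07pm_011_s1 t 498 235 32 = true := ex3_b t2359_A07pm_011_s1 t2343_A07pm_011_s1

theorem t2361_A07pm_011_s1 : ∃ t, chk3 f_A07pm_011_s1 t 498 235 16 = true := ex3_c t2360_A07pm_011_s1 t2339_A07pm_011_s1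

theorem t2362_A07pm_011_s1 : ∃ t, chk3 f_A07pm_011_s1 t 249 235 16 = true := ex3_a t2361_A07pm_011_s1 t2319_A07pm_011_s1

theorem t2363_A07pm_011_s1 : ∃ t, chk3 f_A07pm_011_s1 t 497 470 16 = true := ex3_c k247_A07pm_011_s1 k248_A07pm_011_s1

theorem t2364_A07pm_011_s1 : ∃ t, chk3 f_A07pm_011_s1 t 497 235 16 = true := ex3_b t2363_A07pm_011_s1 k249_A07pm_011_s1

theorem t2365_A07pm_011_s1 : ∃ t, chk3 f_A07pm_011_s1 t 248 235 16 = true := ex3_a k246_A07pm_011_s1 t2364_A07pm_011_s1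

theorem t2366_A07pm_011_s1 : ∃ t, chk3 f_A07pm_011_s1 t 124 235 16 = true := ex3_a t2365_A07pm_011_s1 t2362_A07pm_011_s1

theorem t2367_A07pm_011_s1 : ∃ t, chk3 f_A07pm_011_s1 t 499 234 33 = true := ex3_b k244_A07pm_011_s1 k245_A07pm_011_s1

theorem t2368_A07pm_011_s1 : ∃ t, chk3 f_A07pm_011_s1 t 498 234 33 = true := ex3_a k242_A07pm_011_s1 k243_A07pm_011_s1

theorem t2369_A07pm_011_s1 : ∃ t, chk3 f_A07pm_011_s1 t 249 234 33 = true := ex3_a t2368_A07pm_011_s1 t2367_A07pm_011_s1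

theorem t2370_A07pm_011_s1 : ∃ t, chk3 f_A07pm_011_s1 t 124 234 33 = true := ex3_a k241_A07pm_011_s1 t2369_A07pm_011_s1

theorem t2371_A07pm_011_s1 : ∃ t, chk3 f_A07pm_011_s1 t 1992 469 32 = true := ex3_b k236_A07pm_011_s1 k237_A07pm_011_s1

theorem t2372_A07pm_011_s1 : ∃ t, chk3 f_A07pm_011_s1 t 996 469 32 = true := ex3_a t2371_A07pm_011_s1 k238_A07pm_011_s1

theorem t2373_A07pm_011_s1 : ∃ t, chk3 f_A07pm_011_s1 t 498 469 32 = true := ex3_a t2372_A07pm_011_s1 k239_A07pm_011_s1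

theorem t2374_A07pm_011_s1 : ∃ t, chk3 f_A07pm_011_s1 t 249 469 32 = true := ex3_a t2373_A07pm_011_s1 k240_A07pm_011_s1

theorem t2375_A07pm_011_s1 : ∃ t, chk3 f_A07pm_011_s1 t 1991 939 64 = true := ex3_c k233_A07pm_011_s1 k234_A07pm_011_s1

theorem t2376_A07pm_011_s1 : ∃ t, chk3 f_A07pm_011_s1 t 995 939 64 = true := ex3_a k232_A07pm_011_s1 t2375_A07pm_011_s1

theorem t2377_A07pm_011_s1 : ∃ t, chk3 f_A07pm_011_s1 t 995 469 64 = true := ex3_b k231_A07pm_011_s1 t2376_A07pm_011_s1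

theorem t2378_A07pm_011_s1 : ∃ t, chk3 f_A07pm_011_s1 t 995 469 32 = true := ex3_c t2377_A07pm_011_s1 k235_A07pm_011_s1

theorem t2379_A07pm_011_s1 : ∃ t, chk3 f_A07pm_011_s1 t 497 469 32 = true := ex3_a k230_A07pm_011_s1 t2378_A07pm_011_s1

theorem t2380_A07pm_011_s1 : ∃ t, chk3 f_A07pm_011_s1 t 248 469 32 = true := ex3_a k229_A07pm_011_s1 t2379_A07pm_011_s1

theorem t2381_A07pm_011_s1 : ∃ t, chk3 f_A07pm_011_s1 t 124 469 32 = true := ex3_a t2380_A07pm_011_s1 t2374_A07pm_011_s1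

theorem t2382_A07pm_011_s1 : ∃ t, chk3 f_A07pm_011_s1 t 124 468 32 = true := ex3_a k227_A07pm_011_s1 k228_A07pm_011_s1

theorem t2383_A07pm_011_s1 : ∃ t, chk3 f_A07pm_011_s1 t 124 234 32 = true := ex3_b t2382_A07pm_011_s1 t2381_A07pm_011_s1

theorem t2384_A07pm_011_s1 : ∃ t, chk3 f_A07pm_011_s1 t 124 234 16 = true := ex3_c t2383_A07pm_011_s1 t2370_A07pm_011_s1

theorem t2385_A07pm_011_s1 : ∃ t, chk3 f_A07pm_011_s1 t 124 117 16 = true := ex3_b t2384_A07pm_011_s1 t2366_A07pm_011_s1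

theorem t2386_A07pm_011_s1 : ∃ t, chk3 f_A07pm_011_s1 t 124 117 8 = true := ex3_c t2385_A07pm_011_s1 t2314_A07pm_011_s1

theorem t2387_A07pm_011_s1 : ∃ t, chk3 f_A07pm_011_s1 t 498 233 34 = true := ex3_c k223_A07pm_011_s1 k224_A07pm_011_s1

theorem t2388_A07pm_011_s1 : ∃ t, chk3 f_A07pm_011_s1 t 498 233 17 = true := ex3_c t2387_A07pm_011_s1 k225_A07pm_011_s1

theorem t2389_A07pm_011_s1 : ∃ t, chk3 f_A07pm_011_s1 t 498 116 17 = true := ex3_b k222_A07pm_011_s1 t2388_A07pm_011_s1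

theorem t2390_A07pm_011_s1 : ∃ t, chk3 f_A07pm_011_s1 t 249 116 17 = true := ex3_a t2389_A07pm_011_s1 k226_A07pm_011_s1

theorem t2391_A07pm_011_s1 : ∃ t, chk3 f_A07pm_011_s1 t 498 233 33 = true := ex3_b k219_A07pm_011_s1 k220_A07pm_011_s1

theorem t2392_A07pm_011_s1 : ∃ t, chk3 f_A07pm_011_s1 t 249 233 33 = true := ex3_a t2391_A07pm_011_s1 k221_A07pm_011_s1

theorem t2393_A07pm_011_s1 : ∃ t, chk3 f_A07pm_011_s1 t 498 233 32 = true := ex3_b k216_A07pm_011_s1 k217_A07pm_011_s1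

theorem t2394_A07pm_011_s1 : ∃ t, chk3 f_A07pm_011_s1 t 249 233 32 = true := ex3_a t2393_A07pm_011_s1 k218_A07pm_011_s1

theorem t2395_A07pm_011_s1 : ∃ t, chk3 f_A07pm_011_s1 t 249 233 16 = true := ex3_c t2394_A07pm_011_s1 t2392_A07pm_011_s1

theorem t2396_A07pm_011_s1 : ∃ t, chk3 f_A07pm_011_s1 t 249 116 16 = true := ex3_b k215_A07pm_011_s1 t2395_A07pm_011_s1

theorem t2397_A07pm_011_s1 : ∃ t, chk3 f_A07pm_011_s1 t 249 116 8 = true := ex3_c t2396_A07pm_011_s1 t2390_A07pm_011_s1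

theorem t2398_A07pm_011_s1 : ∃ t, chk3 f_A07pm_011_s1 t 248 233 35 = true := ex3_b k213_A07pm_011_s1 k214_A07pm_011_s1

theorem t2399_A07pm_011_s1 : ∃ t, chk3 f_A07pm_011_s1 t 994 935 69 = true := ex3_c k210_A07pm_011_s1 k211_A07pm_011_s1

theorem t2400_A07pm_011_s1 : ∃ t, chk3 f_A07pm_011_s1 t 994 467 69 = true := ex3_b k209_A07pm_011_s1 t2399_A07pm_011_s1

theorem t2401_A07pm_011_s1 : ∃ t, chk3 f_A07pm_011_s1 t 497 467 69 = true := ex3_a t2400_A07pm_011_s1 k212_A07pm_011_s1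

theorem t2402_A07pm_011_s1 : ∃ t, chk3 f_A07pm_011_s1 t 994 935 68 = true := ex3_a k206_A07pm_011_s1 k207_A07pm_011_s1

theorem t2403_A07pm_011_s1 : ∃ t, chk3 f_A07pm_011_s1 t 497 935 68 = true := ex3_a t2402_A07pm_011_s1 k208_A07pm_011_s1

theorem t2404_A07pm_011_s1 : ∃ t, chk3 f_A07pm_011_s1 t 994 934 136 = true := ex3_a k202_A07pm_011_s1 k203_A07pm_011_s1

theorem t2405_A07pm_011_s1 : ∃ t, chk3 f_A07pm_011_s1 t 994 934 68 = true := ex3_c t2404_A07pm_011_s1 k204_A07pm_011_s1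

theorem t2406_A07pm_011_s1 : ∃ t, chk3 f_A07pm_011_s1 t 497 934 68 = true := ex3_a t2405_A07pm_011_s1 k205_A07pm_011_s1

theorem t2407_A07pm_011_s1 : ∃ t, chk3 f_A07pm_011_s1 t 497 467 68 = true := ex3_b t2406_A07pm_011_s1 t2403_A07pm_011_s1

theorem t2408_A07pm_011_s1 : ∃ t, chk3 f_A07pm_011_s1 t 497 467 34 = true := ex3_c t2407_A07pm_011_s1 t2401_A07pm_011_s1

theorem t2409_A07pm_011_s1 : ∃ t, chk3 f_A07pm_011_s1 t 248 467 34 = true := ex3_a k201_A07pm_011_s1 t2408_A07pm_011_s1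

theorem t2410_A07pm_011_s1 : ∃ t, chk3 f_A07pm_011_s1 t 496 466 34 = true := ex3_c k198_A07pm_011_s1 k199_A07pm_011_s1

theorem t2411_A07pm_011_s1 : ∃ t, chk3 f_A07pm_011_s1 t 248 466 34 = true := ex3_a t2410_A07pm_011_s1 k200_A07pm_011_s1

theorem t2412_A07pm_011_s1 : ∃ t, chk3 f_A07pm_011_s1 t 248 233 34 = true := ex3_b t2411_A07pm_011_s1 t2409_A07pm_011_s1

theorem t2413_A07pm_011_s1 : ∃ t, chk3 f_A07pm_011_s1 t 248 233 17 = true := ex3_c t2412_A07pm_011_s1 t2398_A07pm_011_s1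

theorem t2414_A07pm_011_s1 : ∃ t, chk3 f_A07pm_011_s1 t 248 116 17 = true := ex3_b k197_A07pm_011_s1 t2413_A07pm_011_s1

theorem t2415_A07pm_011_s1 : ∃ t, chk3 f_A07pm_011_s1 t 497 467 67 = true := ex3_a k195_A07pm_011_s1 k196_A07pm_011_s1

theorem t2416_A07pm_011_s1 : ∃ t, chk3 f_A07pm_011_s1 t 248 467 67 = true := ex3_a k194_A07pm_011_s1 t2415_A07pm_011_s1

theorem t2417_A07pm_011_s1 : ∃ t, chk3 f_A07pm_011_s1 t 497 466 67 = true := ex3_b k192_A07pm_011_s1 k193_A07pm_011_s1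

theorem t2418_A07pm_011_s1 : ∃ t, chk3 f_A07pm_011_s1 t 993 933 67 = true := ex3_c k190_A07pm_011_s1 k191_A07pm_011_s1

theorem t2419_A07pm_011_s1 : ∃ t, chk3 f_A07pm_011_s1 t 993 932 67 = true := ex3_a k188_A07pm_011_s1 k189_A07pm_011_s1

theorem t2420_A07pm_011_s1 : ∃ t, chk3 f_A07pm_011_s1 t 993 466 67 = true := ex3_b t2419_A07pm_011_s1 t2418_A07pm_011_s1

theorem t2421_A07pm_011_s1 : ∃ t, chk3 f_A07pm_011_s1 t 496 466 67 = true := ex3_a k187_A07pm_011_s1 t2420_A07pm_011_s1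

theorem t2422_A07pm_011_s1 : ∃ t, chk3 f_A07pm_011_s1 t 248 466 67 = true := ex3_a t2421_A07pm_011_s1 t2417_A07pm_011_s1

theorem t2423_A07pm_011_s1 : ∃ t, chk3 f_A07pm_011_s1 t 248 233 67 = true := ex3_b t2422_A07pm_011_s1 t2416_A07pm_011_s1

theorem t2424_A07pm_011_s1 : ∃ t, chk3 f_A07pm_011_s1 t 994 466 66 = true := ex3_b k183_A07pm_011_s1 k184_A07pm_011_s1

theorem t2425_A07pm_011_s1 : ∃ t, chk3 f_A07pm_011_s1 t 994 233 66 = true := ex3_b t2424_A07pm_011_s1 k185_A07pm_011_s1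

theorem t2426_A07pm_011_s1 : ∃ t, chk3 f_A07pm_011_s1 t 497 233 66 = true := ex3_a t2425_A07pm_011_s1 k186_A07pm_011_s1

theorem t2427_A07pm_011_s1 : ∃ t, chk3 f_A07pm_011_s1 t 993 932 66 = true := ex3_a k179_A07pm_011_s1 k180_A07pm_011_s1

theorem t2428_A07pm_011_s1 : ∃ t, chk3 f_A07pm_011_s1 t 993 466 66 = true := ex3_b t2427_A07pm_011_s1 k181_A07pm_011_s1

theorem t2429_A07pm_011_s1 : ∃ t, chk3 f_A07pm_011_s1 t 496 466 66 = true := ex3_a k178_A07pm_011_s1 t2428_A07pm_011_s1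

theorem t2430_A07pm_011_s1 : ∃ t, chk3 f_A07pm_011_s1 t 496 233 66 = true := ex3_b t2429_A07pm_011_s1 k182_A07pm_011_s1

theorem t2431_A07pm_011_s1 : ∃ t, chk3 f_A07pm_011_s1 t 248 233 66 = true := ex3_a t2430_A07pm_011_s1 t2426_A07pm_011_s1

theorem t2432_A07pm_011_s1 : ∃ t, chk3 f_A07pm_011_s1 t 248 233 33 = true := ex3_c t2431_A07pm_011_s1 t2423_A07pm_011_s1

theorem t2433_A07pm_011_s1 : ∃ t, chk3 f_A07pm_011_s1 t 497 466 32 = true := ex3_a k175_A07pm_011_s1 k176_A07pm_011_s1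

theorem t2434_A07pm_011_s1 : ∃ t, chk3 f_A07pm_011_s1 t 248 466 32 = true := ex3_a k174_A07pm_011_s1 t2433_A07pm_011_s1

theorem t2435_A07pm_011_s1 : ∃ t, chk3 f_A07pm_011_s1 t 248 233 32 = true := ex3_b t2434_A07pm_011_s1 k177_A07pm_011_s1

theorem t2436_A07pm_011_s1 : ∃ t, chk3 f_A07pm_011_s1 t 248 233 16 = true := ex3_c t2435_A07pm_011_s1 t2432_A07pm_011_s1

theorem t2437_A07pm_011_s1 : ∃ t, chk3 f_A07pm_011_s1 t 993 931 66 = true := ex3_c k170_A07pm_011_s1 k171_A07pm_011_s1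

theorem t2438_A07pm_011_s1 : ∃ t, chk3 f_A07pm_011_s1 t 993 931 33 = true := ex3_c t2437_A07pm_011_s1 k172_A07pm_011_s1

theorem t2439_A07pm_011_s1 : ∃ t, chk3 f_A07pm_011_s1 t 993 465 33 = true := ex3_b k169_A07pm_011_s1 t2438_A07pm_011_s1

theorem t2440_A07pm_011_s1 : ∃ t, chk3 f_A07pm_011_s1 t 992 465 33 = true := ex3_c k167_A07pm_011_s1 k168_A07pm_011_s1

theorem t2441_A07pm_011_s1 : ∃ t, chk3 f_A07pm_011_s1 t 496 465 33 = true := ex3_a t2440_A07pm_011_s1 t2439_A07pm_011_s1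

theorem t2442_A07pm_011_s1 : ∃ t, chk3 f_A07pm_011_s1 t 496 232 33 = true := ex3_b k166_A07pm_011_s1 t2441_A07pm_011_s1

theorem t2443_A07pm_011_s1 : ∃ t, chk3 f_A07pm_011_s1 t 248 232 33 = true := ex3_a t2442_A07pm_011_s1 k173_A07pm_011_s1

theorem t2444_A07pm_011_s1 : ∃ t, chk3 f_A07pm_011_s1 t 497 465 32 = true := ex3_c k164_A07pm_011_s1 k165_A07pm_011_s1

theorem t2445_A07pm_011_s1 : ∃ t, chk3 f_A07pm_011_s1 t 993 930 32 = true := ex3_a k161_A07pm_011_s1 k162_A07pm_011_s1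

theorem t2446_A07pm_011_s1 : ∃ t, chk3 f_A07pm_011_s1 t 993 465 32 = true := ex3_b t2445_A07pm_011_s1 k163_A07pm_011_s1

theorem t2447_A07pm_011_s1 : ∃ t, chk3 f_A07pm_011_s1 t 992 465 32 = true := ex3_a k159_A07pm_011_s1 k160_A07pm_011_s1

theorem t2448_A07pm_011_s1 : ∃ t, chk3 f_A07pm_011_s1 t 496 465 32 = true := ex3_a t2447_A07pm_011_s1 t2446_A07pm_011_s1

theorem t2449_A07pm_011_s1 : ∃ t, chk3 f_A07pm_011_s1 t 248 465 32 = true := ex3_a t2448_A07pm_011_s1 t2444_A07pm_011_s1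

theorem t2450_A07pm_011_s1 : ∃ t, chk3 f_A07pm_011_s1 t 992 929 65 = true := ex3_a k155_A07pm_011_s1 k156_A07pm_011_s1

theorem t2451_A07pm_011_s1 : ∃ t, chk3 f_A07pm_011_s1 t 992 929 32 = true := ex3_c k154_A07pm_011_s1 t2450_A07pm_011_s1

theorem t2452_A07pm_011_s1 : ∃ t, chk3 f_A07pm_011_s1 t 992 928 64 = true := ex3_c k151_A07pm_011_s1 k152_A07pm_011_s1

theorem t2453_A07pm_011_s1 : ∃ t, chk3 f_A07pm_011_s1 t 992 928 32 = true := ex3_c t2452_A07pm_011_s1 k153_A07pm_011_s1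

theorem t2454_A07pm_011_s1 : ∃ t, chk3 f_A07pm_011_s1 t 992 464 32 = true := ex3_b t2453_A07pm_011_s1 t2451_A07pm_011_s1

theorem t2455_A07pm_011_s1 : ∃ t, chk3 f_A07pm_011_s1 t 496 464 32 = true := ex3_a t2454_A07pm_011_s1 k157_A07pm_011_s1

theorem t2456_A07pm_011_s1 : ∃ t, chk3 f_A07pm_011_s1 t 248 464 32 = true := ex3_a t2455_A07pm_011_s1 k158_A07pm_011_s1

theorem t2457_A07pm_011_s1 : ∃ t, chk3 f_A07pm_011_s1 t 248 232 32 = true := ex3_b t2456_A07pm_011_s1 t2449_A07pm_011_s1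

theorem t2458_A07pm_011_s1 : ∃ t, chk3 f_A07pm_011_s1 t 248 232 16 = true := ex3_c t2457_A07pm_011_s1 t2443_A07pm_011_s1

theorem t2459_A07pm_011_s1 : ∃ t, chk3 f_A07pm_011_s1 t 248 116 16 = true := ex3_b t2458_A07pm_011_s1 t2436_A07pm_011_s1

theorem t2460_A07pm_011_s1 : ∃ t, chk3 f_A07pm_011_s1 t 248 116 8 = true := ex3_c t2459_A07pm_011_s1 t2414_A07pm_011_s1

theorem t2461_A07pm_011_s1 : ∃ t, chk3 f_A07pm_011_s1 t 124 116 8 = true := ex3_a t2460_A07pm_011_s1 t2397_A07pm_011_s1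

theorem t2462_A07pm_011_s1 : ∃ t, chk3 f_A07pm_011_s1 t 124 58 8 = true := ex3_b t2461_A07pm_011_s1 t2386_A07pm_011_s1

theorem t2463_A07pm_011_s1 : ∃ t, chk3 f_A07pm_011_s1 t 124 58 4 = true := ex3_c t2462_A07pm_011_s1 t2262_A07pm_011_s1

theorem t2464_A07pm_011_s1 : ∃ t, chk3 f_A07pm_011_s1 t 62 58 4 = true := ex3_a t2463_A07pm_011_s1 t2209_A07pm_011_s1

theorem t2465_A07pm_011_s1 : ∃ t, chk3 f_A07pm_011_s1 t 62 29 4 = true := ex3_b t2464_A07pm_011_s1 t2192_A07pm_011_s1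

theorem t2466_A07pm_011_s1 : ∃ t, chk3 f_A07pm_011_s1 t 62 29 2 = true := ex3_c t2465_A07pm_011_s1 t1624_A07pm_011_s1

theorem t2467_A07pm_011_s1 : ∃ t, chk3 f_A07pm_011_s1 t 31 29 2 = true := ex3_a t2466_A07pm_011_s1 t1400_A07pm_011_s1

theorem t2468_A07pm_011_s1 : ∃ t, chk3 f_A07pm_011_s1 t 249 115 4 = true := ex3_c k146_A07pm_011_s1 k147_A07pm_011_s1

theorem t2469_A07pm_011_s1 : ∃ t, chk3 f_A07pm_011_s1 t 496 115 16 = true := ex3_c k141_A07pm_011_s1 k142_A07pm_011_s1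

theorem t2470_A07pm_011_s1 : ∃ t, chk3 f_A07pm_011_s1 t 496 115 8 = true := ex3_c t2469_A07pm_011_s1 k143_A07pm_011_s1

theorem t2471_A07pm_011_s1 : ∃ t, chk3 f_A07pm_011_s1 t 248 115 8 = true := ex3_a t2470_A07pm_011_s1 k144_A07pm_011_s1

theorem t2472_A07pm_011_s1 : ∃ t, chk3 f_A07pm_011_s1 t 248 115 4 = true := ex3_c t2471_A07pm_011_s1 k145_A07pm_011_s1

theorem t2473_A07pm_011_s1 : ∃ t, chk3 f_A07pm_011_s1 t 124 115 4 = true := ex3_a t2472_A07pm_011_s1 t2468_A07pm_011_s1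

theorem t2474_A07pm_011_s1 : ∃ t, chk3 f_A07pm_011_s1 t 124 114 4 = true := ex3_a k139_A07pm_011_s1 k140_A07pm_011_s1

theorem t2475_A07pm_011_s1 : ∃ t, chk3 f_A07pm_011_s1 t 124 57 4 = true := ex3_b t2474_A07pm_011_s1 t2473_A07pm_011_s1

theorem t2476_A07pm_011_s1 : ∃ t, chk3 f_A07pm_011_s1 t 124 57 2 = true := ex3_c t2475_A07pm_011_s1 k148_A07pm_011_s1

theorem t2477_A07pm_011_s1 : ∃ t, chk3 f_A07pm_011_s1 t 62 57 2 = true := ex3_a t2476_A07pm_011_s1 k149_A07pm_011_s1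

theorem t2478_A07pm_011_s1 : ∃ t, chk3 f_A07pm_011_s1 t 124 56 4 = true := ex3_a k135_A07pm_011_s1 k136_A07pm_011_s1

theorem t2479_A07pm_011_s1 : ∃ t, chk3 f_A07pm_011_s1 t 124 56 2 = true := ex3_c t2478_A07pm_011_s1 k137_A07pm_011_s1

theorem t2480_A07pm_011_s1 : ∃ t, chk3 f_A07pm_011_s1 t 62 56 2 = true := ex3_a t2479_A07pm_011_s1 k138_A07pm_011_s1

theorem t2481_A07pm_011_s1 : ∃ t, chk3 f_A07pm_011_s1 t 62 28 2 = true := ex3_b t2480_A07pm_011_s1 t2477_A07pm_011_s1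

theorem t2482_A07pm_011_s1 : ∃ t, chk3 f_A07pm_011_s1 t 31 28 2 = true := ex3_a t2481_A07pm_011_s1 k150_A07pm_011_s1

theorem t2483_A07pm_011_s1 : ∃ t, chk3 f_A07pm_011_s1 t 31 14 2 = true := ex3_b t2482_A07pm_011_s1 t2467_A07pm_011_s1

theorem t2484_A07pm_011_s1 : ∃ t, chk3 f_A07pm_011_s1 t 31 14 1 = true := ex3_c t2483_A07pm_011_s1 t1379_A07pm_011_s1

theorem t2485_A07pm_011_s1 : ∃ t, chk3 f_A07pm_011_s1 t 991 232 8 = true := ex3_b k127_A07pm_011_s1 k128_A07pm_011_s1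

theorem t2486_A07pm_011_s1 : ∃ t, chk3 f_A07pm_011_s1 t 495 232 8 = true := ex3_a k126_A07pm_011_s1 t2485_A07pm_011_s1

theorem t2487_A07pm_011_s1 : ∃ t, chk3 f_A07pm_011_s1 t 247 232 8 = true := ex3_a k125_A07pm_011_s1 t2486_A07pm_011_s1

theorem t2488_A07pm_011_s1 : ∃ t, chk3 f_A07pm_011_s1 t 247 116 8 = true := ex3_b t2487_A07pm_011_s1 k129_A07pm_011_s1

theorem t2489_A07pm_011_s1 : ∃ t, chk3 f_A07pm_011_s1 t 247 116 4 = true := ex3_c t2488_A07pm_011_s1 k130_A07pm_011_s1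

theorem t2490_A07pm_011_s1 : ∃ t, chk3 f_A07pm_011_s1 t 247 58 4 = true := ex3_b t2489_A07pm_011_s1 k131_A07pm_011_s1

theorem t2491_A07pm_011_s1 : ∃ t, chk3 f_A07pm_011_s1 t 247 58 2 = true := ex3_c t2490_A07pm_011_s1 k132_A07pm_011_s1

theorem t2492_A07pm_011_s1 : ∃ t, chk3 f_A07pm_011_s1 t 123 58 2 = true := ex3_a k124_A07pm_011_s1 t2491_A07pm_011_s1

theorem t2493_A07pm_011_s1 : ∃ t, chk3 f_A07pm_011_s1 t 61 58 2 = true := ex3_a k123_A07pm_011_s1 t2492_A07pm_011_s1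

theorem t2494_A07pm_011_s1 : ∃ t, chk3 f_A07pm_011_s1 t 61 29 2 = true := ex3_b t2493_A07pm_011_s1 k133_A07pm_011_s1

theorem t2495_A07pm_011_s1 : ∃ t, chk3 f_A07pm_011_s1 t 30 29 2 = true := ex3_a k122_A07pm_011_s1 t2494_A07pm_011_s1

theorem t2496_A07pm_011_s1 : ∃ t, chk3 f_A07pm_011_s1 t 30 29 1 = true := ex3_c t2495_A07pm_011_s1 k134_A07pm_011_s1

theorem t2497_A07pm_011_s1 : ∃ t, chk3 f_A07pm_011_s1 t 123 114 3 = true := ex3_b k119_A07pm_011_s1 k120_A07pm_011_s1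

theorem t2498_A07pm_011_s1 : ∃ t, chk3 f_A07pm_011_s1 t 61 114 3 = true := ex3_a k118_A07pm_011_s1 t2497_A07pm_011_s1

theorem t2499_A07pm_011_s1 : ∃ t, chk3 f_A07pm_011_s1 t 61 57 3 = true := ex3_b t2498_A07pm_011_s1 k121_A07pm_011_s1

theorem t2500_A07pm_011_s1 : ∃ t, chk3 f_A07pm_011_s1 t 494 115 5 = true := ex3_b k115_A07pm_011_s1 k116_A07pm_011_s1

theorem t2501_A07pm_011_s1 : ∃ t, chk3 f_A07pm_011_s1 t 247 115 5 = true := ex3_a t2500_A07pm_011_s1 k117_A07pm_011_s1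

theorem t2502_A07pm_011_s1 : ∃ t, chk3 f_A07pm_011_s1 t 247 115 9 = true := ex3_a k113_A07pm_011_s1 k114_A07pm_011_s1

theorem t2503_A07pm_011_s1 : ∃ t, chk3 f_A07pm_011_s1 t 495 463 32 = true := ex3_c k109_A07pm_011_s1 k110_A07pm_011_s1

theorem t2504_A07pm_011_s1 : ∃ t, chk3 f_A07pm_011_s1 t 495 231 32 = true := ex3_b k108_A07pm_011_s1 t2503_A07pm_011_s1

theorem t2505_A07pm_011_s1 : ∃ t, chk3 f_A07pm_011_s1 t 495 115 32 = true := ex3_b k107_A07pm_011_s1 t2504_A07pm_011_s1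

theorem t2506_A07pm_011_s1 : ∃ t, chk3 f_A07pm_011_s1 t 247 115 32 = true := ex3_a k106_A07pm_011_s1 t2505_A07pm_011_s1

theorem t2507_A07pm_011_s1 : ∃ t, chk3 f_A07pm_011_s1 t 247 115 16 = true := ex3_c t2506_A07pm_011_s1 k111_A07pm_011_s1

theorem t2508_A07pm_011_s1 : ∃ t, chk3 f_A07pm_011_s1 t 247 115 8 = true := ex3_c t2507_A07pm_011_s1 k112_A07pm_011_s1

theorem t2509_A07pm_011_s1 : ∃ t, chk3 f_A07pm_011_s1 t 247 115 4 = true := ex3_c t2508_A07pm_011_s1 t2502_A07pm_011_s1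

theorem t2510_A07pm_011_s1 : ∃ t, chk3 f_A07pm_011_s1 t 247 115 2 = true := ex3_c t2509_A07pm_011_s1 t2501_A07pm_011_s1

theorem t2511_A07pm_011_s1 : ∃ t, chk3 f_A07pm_011_s1 t 123 115 2 = true := ex3_a k105_A07pm_011_s1 t2510_A07pm_011_s1

theorem t2512_A07pm_011_s1 : ∃ t, chk3 f_A07pm_011_s1 t 246 229 2 = true := ex3_c k102_A07pm_011_s1 k103_A07pm_011_s1

theorem t2513_A07pm_011_s1 : ∃ t, chk3 f_A07pm_011_s1 t 123 229 2 = true := ex3_a t2512_A07pm_011_s1 k104_A07pm_011_s1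

theorem t2514_A07pm_011_s1 : ∃ t, chk3 f_A07pm_011_s1 t 123 228 5 = true := ex3_b k100_A07pm_011_s1 k101_A07pm_011_s1

theorem t2515_A07pm_011_s1 : ∃ t, chk3 f_A07pm_011_s1 t 123 228 4 = true := ex3_c k98_A07pm_011_s1 k99_A07pm_011_s1

theorem t2516_A07pm_011_s1 : ∃ t, chk3 f_A07pm_011_s1 t 123 228 2 = true := ex3_c t2515_A07pm_011_s1 t2514_A07pm_011_s1

theorem t2517_A07pm_011_s1 : ∃ t, chk3 f_A07pm_011_s1 t 123 114 2 = true := ex3_b t2516_A07pm_011_s1 t2513_A07pm_011_s1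

theorem t2518_A07pm_011_s1 : ∃ t, chk3 f_A07pm_011_s1 t 123 57 2 = true := ex3_b t2517_A07pm_011_s1 t2511_A07pm_011_s1

theorem t2519_A07pm_011_s1 : ∃ t, chk3 f_A07pm_011_s1 t 61 57 2 = true := ex3_a k97_A07pm_011_s1 t2518_A07pm_011_s1

theorem t2520_A07pm_011_s1 : ∃ t, chk3 f_A07pm_011_s1 t 61 57 1 = true := ex3_c t2519_A07pm_011_s1 t2499_A07pm_011_s1

theorem t2521_A07pm_011_s1 : ∃ t, chk3 f_A07pm_011_s1 t 246 113 3 = true := ex3_b k94_A07pm_011_s1 k95_A07pm_011_s1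

theorem t2522_A07pm_011_s1 : ∃ t, chk3 f_A07pm_011_s1 t 123 113 3 = true := ex3_a t2521_A07pm_011_s1 k96_A07pm_011_s1

theorem t2523_A07pm_011_s1 : ∃ t, chk3 f_A07pm_011_s1 t 61 113 3 = true := ex3_a k93_A07pm_011_s1 t2522_A07pm_011_s1

theorem t2524_A07pm_011_s1 : ∃ t, chk3 f_A07pm_011_s1 t 61 56 3 = true := ex3_b k92_A07pm_011_s1 t2523_A07pm_011_s1

theorem t2525_A07pm_011_s1 : ∃ t, chk3 f_A07pm_011_s1 t 1970 911 2 = true := ex3_b k87_A07pm_011_s1 k88_A07pm_011_s1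

theorem t2526_A07pm_011_s1 : ∃ t, chk3 f_A07pm_011_s1 t 985 911 2 = true := ex3_a t2525_A07pm_011_s1 k89_A07pm_011_s1

theorem t2527_A07pm_011_s1 : ∃ t, chk3 f_A07pm_011_s1 t 985 455 2 = true := ex3_b k86_A07pm_011_s1 t2526_A07pm_011_s1

theorem t2528_A07pm_011_s1 : ∃ t, chk3 f_A07pm_011_s1 t 492 455 2 = true := ex3_a k85_A07pm_011_s1 t2527_A07pm_011_s1

theorem t2529_A07pm_011_s1 : ∃ t, chk3 f_A07pm_011_s1 t 492 227 2 = true := ex3_b k84_A07pm_011_s1 t2528_A07pm_011_s1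

theorem t2530_A07pm_011_s1 : ∃ t, chk3 f_A07pm_011_s1 t 492 113 2 = true := ex3_b k83_A07pm_011_s1 t2529_A07pm_011_s1

theorem t2531_A07pm_011_s1 : ∃ t, chk3 f_A07pm_011_s1 t 246 113 2 = true := ex3_a t2530_A07pm_011_s1 k90_A07pm_011_s1

theorem t2532_A07pm_011_s1 : ∃ t, chk3 f_A07pm_011_s1 t 123 113 2 = true := ex3_a t2531_A07pm_011_s1 k91_A07pm_011_s1

theorem t2533_A07pm_011_s1 : ∃ t, chk3 f_A07pm_011_s1 t 245 113 4 = true := ex3_c k80_A07pm_011_s1 k81_A07pm_011_s1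

theorem t2534_A07pm_011_s1 : ∃ t, chk3 f_A07pm_011_s1 t 122 113 4 = true := ex3_a k79_A07pm_011_s1 t2533_A07pm_011_s1

theorem t2535_A07pm_011_s1 : ∃ t, chk3 f_A07pm_011_s1 t 122 113 2 = true := ex3_c t2534_A07pm_011_s1 k82_A07pm_011_s1

theorem t2536_A07pm_011_s1 : ∃ t, chk3 f_A07pm_011_s1 t 61 113 2 = true := ex3_a t2535_A07pm_011_s1 t2532_A07pm_011_s1

theorem t2537_A07pm_011_s1 : ∃ t, chk3 f_A07pm_011_s1 t 122 112 5 = true := ex3_a k76_A07pm_011_s1 k77_A07pm_011_s1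

theorem t2538_A07pm_011_s1 : ∃ t, chk3 f_A07pm_011_s1 t 61 112 5 = true := ex3_a t2537_A07pm_011_s1 k78_A07pm_011_s1

theorem t2539_A07pm_011_s1 : ∃ t, chk3 f_A07pm_011_s1 t 61 112 8 = true := ex3_c k73_A07pm_011_s1 k74_A07pm_011_s1

theorem t2540_A07pm_011_s1 : ∃ t, chk3 f_A07pm_011_s1 t 61 112 4 = true := ex3_c t2539_A07pm_011_s1 k75_A07pm_011_s1

theorem t2541_A07pm_011_s1 : ∃ t, chk3 f_A07pm_011_s1 t 61 112 2 = true := ex3_c t2540_A07pm_011_s1 t2538_A07pm_011_s1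

theorem t2542_A07pm_011_s1 : ∃ t, chk3 f_A07pm_011_s1 t 61 56 2 = true := ex3_b t2541_A07pm_011_s1 t2536_A07pm_011_s1

theorem t2543_A07pm_011_s1 : ∃ t, chk3 f_A07pm_011_s1 t 61 56 1 = true := ex3_c t2542_A07pm_011_s1 t2524_A07pm_011_s1

theorem t2544_A07pm_011_s1 : ∃ t, chk3 f_A07pm_011_s1 t 61 28 1 = true := ex3_b t2543_A07pm_011_s1 t2520_A07pm_011_s1

theorem t2545_A07pm_011_s1 : ∃ t, chk3 f_A07pm_011_s1 t 30 28 1 = true := ex3_a k72_A07pm_011_s1 t2544_A07pm_011_s1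

theorem t2546_A07pm_011_s1 : ∃ t, chk3 f_A07pm_011_s1 t 30 14 1 = true := ex3_b t2545_A07pm_011_s1 t2496_A07pm_011_s1

theorem t2547_A07pm_011_s1 : ∃ t, chk3 f_A07pm_011_s1 t 15 14 1 = true := ex3_a t2546_A07pm_011_s1 t2484_A07pm_011_s1

theorem t2548_A07pm_011_s1 : ∃ t, chk3 f_A07pm_011_s1 t 15 7 1 = true := ex3_b t2547_A07pm_011_s1 t1345_A07pm_011_s1

theorem t2549_A07pm_011_s1 : ∃ t, chk3 f_A07pm_011_s1 t 7 7 1 = true := ex3_a k71_A07pm_011_s1 t2548_A07pm_011_s1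

theorem t2550_A07pm_011_s1 : ∃ t, chk3 f_A07pm_011_s1 t 62 27 2 = true := ex3_a k67_A07pm_011_s1 k68_A07pm_011_s1

theorem t2551_A07pm_011_s1 : ∃ t, chk3 f_A07pm_011_s1 t 62 13 2 = true := ex3_b k66_A07pm_011_s1 t2550_A07pm_011_s1

theorem t2552_A07pm_011_s1 : ∃ t, chk3 f_A07pm_011_s1 t 62 13 1 = true := ex3_c t2551_A07pm_011_s1 k69_A07pm_011_s1

theorem t2553_A07pm_011_s1 : ∃ t, chk3 f_A07pm_011_s1 t 31 13 1 = true := ex3_a t2552_A07pm_011_s1 k70_A07pm_011_s1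

theorem t2554_A07pm_011_s1 : ∃ t, chk3 f_A07pm_011_s1 t 31 6 1 = true := ex3_b k65_A07pm_011_s1 t2553_A07pm_011_s1

theorem t2555_A07pm_011_s1 : ∃ t, chk3 f_A07pm_011_s1 t 489 111 2 = true := ex3_b k60_A07pm_011_s1 k61_A07pm_011_s1

theorem t2556_A07pm_011_s1 : ∃ t, chk3 f_A07pm_011_s1 t 489 55 2 = true := ex3_b k59_A07pm_011_s1 t2555_A07pm_011_s1

theorem t2557_A07pm_011_s1 : ∃ t, chk3 f_A07pm_011_s1 t 488 55 2 = true := ex3_b k57_A07pm_011_s1 k58_A07pm_011_s1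

theorem t2558_A07pm_011_s1 : ∃ t, chk3 f_A07pm_011_s1 t 244 55 2 = true := ex3_a t2557_A07pm_011_s1 t2556_A07pm_011_s1

theorem t2559_A07pm_011_s1 : ∃ t, chk3 f_A07pm_011_s1 t 122 55 2 = true := ex3_a t2558_A07pm_011_s1 k62_A07pm_011_s1

theorem t2560_A07pm_011_s1 : ∃ t, chk3 f_A07pm_011_s1 t 122 55 1 = true := ex3_c t2559_A07pm_011_s1 k63_A07pm_011_s1

theorem t2561_A07pm_011_s1 : ∃ t, chk3 f_A07pm_011_s1 t 122 27 1 = true := ex3_b k56_A07pm_011_s1 t2560_A07pm_011_s1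

theorem t2562_A07pm_011_s1 : ∃ t, chk3 f_A07pm_011_s1 t 61 27 1 = true := ex3_a t2561_A07pm_011_s1 k64_A07pm_011_s1

theorem t2563_A07pm_011_s1 : ∃ t, chk3 f_A07pm_011_s1 t 61 13 1 = true := ex3_b k55_A07pm_011_s1 t2562_A07pm_011_s1

theorem t2564_A07pm_011_s1 : ∃ t, chk3 f_A07pm_011_s1 t 60 26 3 = true := ex3_c k52_A07pm_011_s1 k53_A07pm_011_s1

theorem t2565_A07pm_011_s1 : ∃ t, chk3 f_A07pm_011_s1 t 60 13 3 = true := ex3_b t2564_A07pm_011_s1 k54_A07pm_011_s1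

theorem t2566_A07pm_011_s1 : ∃ t, chk3 f_A07pm_011_s1 t 121 54 5 = true := ex3_a k49_A07pm_011_s1 k50_A07pm_011_s1

theorem t2567_A07pm_011_s1 : ∃ t, chk3 f_A07pm_011_s1 t 60 54 5 = true := ex3_a k48_A07pm_011_s1 t2566_A07pm_011_s1

theorem t2568_A07pm_011_s1 : ∃ t, chk3 f_A07pm_011_s1 t 60 27 5 = true := ex3_b t2567_A07pm_011_s1 k51_A07pm_011_s1

theorem t2569_A07pm_011_s1 : ∃ t, chk3 f_A07pm_011_s1 t 60 26 5 = true := ex3_b k46_A07pm_011_s1 k47_A07pm_011_s1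

theorem t2570_A07pm_011_s1 : ∃ t, chk3 f_A07pm_011_s1 t 60 13 5 = true := ex3_b t2569_A07pm_011_s1 t2568_A07pm_011_s1

theorem t2571_A07pm_011_s1 : ∃ t, chk3 f_A07pm_011_s1 t 242 54 4 = true := ex3_b k42_A07pm_011_s1 k43_A07pm_011_s1

theorem t2572_A07pm_011_s1 : ∃ t, chk3 f_A07pm_011_s1 t 121 54 4 = true := ex3_a t2571_A07pm_011_s1 k44_A07pm_011_s1

theorem t2573_A07pm_011_s1 : ∃ t, chk3 f_A07pm_011_s1 t 60 54 4 = true := ex3_a k41_A07pm_011_s1 t2572_A07pm_011_s1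

theorem t2574_A07pm_011_s1 : ∃ t, chk3 f_A07pm_011_s1 t 60 27 4 = true := ex3_b t2573_A07pm_011_s1 k45_A07pm_011_s1

theorem t2575_A07pm_011_s1 : ∃ t, chk3 f_A07pm_011_s1 t 241 107 4 = true := ex3_b k38_A07pm_011_s1 k39_A07pm_011_s1

theorem t2576_A07pm_011_s1 : ∃ t, chk3 f_A07pm_011_s1 t 120 107 4 = true := ex3_a k37_A07pm_011_s1 t2575_A07pm_011_s1

theorem t2577_A07pm_011_s1 : ∃ t, chk3 f_A07pm_011_s1 t 120 106 4 = true := ex3_a k35_A07pm_011_s1 k36_A07pm_011_s1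

theorem t2578_A07pm_011_s1 : ∃ t, chk3 f_A07pm_011_s1 t 120 53 4 = true := ex3_b t2577_A07pm_011_s1 t2576_A07pm_011_s1

theorem t2579_A07pm_011_s1 : ∃ t, chk3 f_A07pm_011_s1 t 60 53 4 = true := ex3_a t2578_A07pm_011_s1 k40_A07pm_011_s1

theorem t2580_A07pm_011_s1 : ∃ t, chk3 f_A07pm_011_s1 t 120 105 4 = true := ex3_a k32_A07pm_011_s1 k33_A07pm_011_s1

theorem t2581_A07pm_011_s1 : ∃ t, chk3 f_A07pm_011_s1 t 60 105 4 = true := ex3_a t2580_A07pm_011_s1 k34_A07pm_011_s1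

theorem t2582_A07pm_011_s1 : ∃ t, chk3 f_A07pm_011_s1 t 60 52 4 = true := ex3_b k31_A07pm_011_s1 t2581_A07pm_011_s1

theorem t2583_A07pm_011_s1 : ∃ t, chk3 f_A07pm_011_s1 t 60 26 4 = true := ex3_b t2582_A07pm_011_s1 t2579_A07pm_011_s1

theorem t2584_A07pm_011_s1 : ∃ t, chk3 f_A07pm_011_s1 t 60 13 4 = true := ex3_b t2583_A07pm_011_s1 t2574_A07pm_011_s1

theorem t2585_A07pm_011_s1 : ∃ t, chk3 f_A07pm_011_s1 t 60 13 2 = true := ex3_c t2584_A07pm_011_s1 t2570_A07pm_011_s1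

theorem t2586_A07pm_011_s1 : ∃ t, chk3 f_A07pm_011_s1 t 60 13 1 = true := ex3_c t2585_A07pm_011_s1 t2565_A07pm_011_s1

theorem t2587_A07pm_011_s1 : ∃ t, chk3 f_A07pm_011_s1 t 30 13 1 = true := ex3_a t2586_A07pm_011_s1 t2563_A07pm_011_s1

theorem t2588_A07pm_011_s1 : ∃ t, chk3 f_A07pm_011_s1 t 30 6 1 = true := ex3_b k30_A07pm_011_s1 t2587_A07pm_011_s1

theorem t2589_A07pm_011_s1 : ∃ t, chk3 f_A07pm_011_s1 t 15 6 1 = true := ex3_a t2588_A07pm_011_s1 t2554_A07pm_011_s1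

theorem t2590_A07pm_011_s1 : ∃ t, chk3 f_A07pm_011_s1 t 119 52 2 = true := ex3_b k25_A07pm_011_s1 k26_A07pm_011_s1

theorem t2591_A07pm_011_s1 : ∃ t, chk3 f_A07pm_011_s1 t 59 52 2 = true := ex3_a k24_A07pm_011_s1 t2590_A07pm_011_s1

theorem t2592_A07pm_011_s1 : ∃ t, chk3 f_A07pm_011_s1 t 59 26 2 = true := ex3_b t2591_A07pm_011_s1 k27_A07pm_011_s1

theorem t2593_A07pm_011_s1 : ∃ t, chk3 f_A07pm_011_s1 t 59 13 2 = true := ex3_b t2592_A07pm_011_s1 k28_A07pm_011_s1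

theorem t2594_A07pm_011_s1 : ∃ t, chk3 f_A07pm_011_s1 t 29 13 2 = true := ex3_a k23_A07pm_011_s1 t2593_A07pm_011_s1

theorem t2595_A07pm_011_s1 : ∃ t, chk3 f_A07pm_011_s1 t 29 13 1 = true := ex3_c t2594_A07pm_011_s1 k29_A07pm_011_s1

theorem t2596_A07pm_011_s1 : ∃ t, chk3 f_A07pm_011_s1 t 29 12 3 = true := ex3_a k21_A07pm_011_s1 k22_A07pm_011_s1

theorem t2597_A07pm_011_s1 : ∃ t, chk3 f_A07pm_011_s1 t 119 51 2 = true := ex3_b k19_A07pm_011_s1 k20_A07pm_011_s1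

theorem t2598_A07pm_011_s1 : ∃ t, chk3 f_A07pm_011_s1 t 119 25 2 = true := ex3_b k18_A07pm_011_s1 t2597_A07pm_011_s1

theorem t2599_A07pm_011_s1 : ∃ t, chk3 f_A07pm_011_s1 t 118 25 2 = true := ex3_b k16_A07pm_011_s1 k17_A07pm_011_s1

theorem t2600_A07pm_011_s1 : ∃ t, chk3 f_A07pm_011_s1 t 59 25 2 = true := ex3_a t2599_A07pm_011_s1 t2598_A07pm_011_s1

theorem t2601_A07pm_011_s1 : ∃ t, chk3 f_A07pm_011_s1 t 59 12 2 = true := ex3_b k15_A07pm_011_s1 t2600_A07pm_011_s1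

theorem t2602_A07pm_011_s1 : ∃ t, chk3 f_A07pm_011_s1 t 29 12 2 = true := ex3_a k14_A07pm_011_s1 t2601_A07pm_011_s1

theorem t2603_A07pm_011_s1 : ∃ t, chk3 f_A07pm_011_s1 t 29 12 1 = true := ex3_c t2602_A07pm_011_s1 t2596_A07pm_011_s1

theorem t2604_A07pm_011_s1 : ∃ t, chk3 f_A07pm_011_s1 t 29 6 1 = true := ex3_b t2603_A07pm_011_s1 t2595_A07pm_011_s1

theorem t2605_A07pm_011_s1 : ∃ t, chk3 f_A07pm_011_s1 t 14 6 1 = true := ex3_a k13_A07pm_011_s1 t2604_A07pm_011_s1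

theorem t2606_A07pm_011_s1 : ∃ t, chk3 f_A07pm_011_s1 t 7 6 1 = true := ex3_a t2605_A07pm_011_s1 t2589_A07pm_011_s1

theorem t2607_A07pm_011_s1 : ∃ t, chk3 f_A07pm_011_s1 t 7 3 1 = true := ex3_b t2606_A07pm_011_s1 t2549_A07pm_011_s1

theorem t2608_A07pm_011_s1 : ∃ t, chk3 f_A07pm_011_s1 t 3 3 1 = true := ex3_a k12_A07pm_011_s1 t2607_A07pm_011_s1

theorem t2609_A07pm_011_s1 : ∃ t, chk3 f_A07pm_011_s1 t 14 23 1 = true := ex3_b k9_A07pm_011_s1 k10_A07pm_011_s1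

theorem t2610_A07pm_011_s1 : ∃ t, chk3 f_A07pm_011_s1 t 14 11 1 = true := ex3_b k8_A07pm_011_s1 t2609_A07pm_011_s1

theorem t2611_A07pm_011_s1 : ∃ t, chk3 f_A07pm_011_s1 t 28 10 1 = true := ex3_b k5_A07pm_011_s1 k6_A07pm_011_s1

theorem t2612_A07pm_011_s1 : ∃ t, chk3 f_A07pm_011_s1 t 14 10 1 = true := ex3_a t2611_A07pm_011_s1 k7_A07pm_011_s1

theorem t2613_A07pm_011_s1 : ∃ t, chk3 f_A07pm_011_s1 t 14 5 1 = true := ex3_b t2612_A07pm_011_s1 t2610_A07pm_011_s1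

theorem t2614_A07pm_011_s1 : ∃ t, chk3 f_A07pm_011_s1 t 14 2 1 = true := ex3_b k4_A07pm_011_s1 t2613_A07pm_011_s1

theorem t2615_A07pm_011_s1 : ∃ t, chk3 f_A07pm_011_s1 t 7 2 1 = true := ex3_a t2614_A07pm_011_s1 k11_A07pm_011_s1

theorem t2616_A07pm_011_s1 : ∃ t, chk3 f_A07pm_011_s1 t 13 2 1 = true := ex3_b k2_A07pm_011_s1 k3_A07pm_011_s1

theorem t2617_A07pm_011_s1 : ∃ t, chk3 f_A07pm_011_s1 t 6 2 1 = true := ex3_a k1_A07pm_011_s1 t2616_A07pm_011_s1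

theorem t2618_A07pm_011_s1 : ∃ t, chk3 f_A07pm_011_s1 t 3 2 1 = true := ex3_a t2617_A07pm_011_s1 t2615_A07pm_011_s1

theorem t2619_A07pm_011_s1 : ∃ t, chk3 f_A07pm_011_s1 t 3 1 1 = true := ex3_b t2618_A07pm_011_s1 t2608_A07pm_011_s1

theorem t2620_A07pm_011_s1 : ∃ t, chk3 f_A07pm_011_s1 t 1 1 1 = true := ex3_a k0_A07pm_011_s1 t2619_A07pm_011_s1

theorem c_A07pm_011_s1 : CertNX 0 536870912 536870912 536870912 1046898278 26843546 3 true true false .pnn 0 1 1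
    ndN0q0 ndN7q1 pcN1 cut_A07pm_011_s1 xt_A07pm_011_s1 :=
  certNX2 (N0 := 3) (fam := true) (s1 := true) (s2 := false) (a := 0) (b := 1) (c := 1) (cn := .pnn) (n1 := ndN0q0) (n2 := ndN7q1) (pc := pcN1) (cut := cut_A07pm_011_s1) (xt := xt_A07pm_011_s1) (P1 := 0) (W1 := 536870912) (P2 := 536870912) (W2 := 536870912) (P3 := 1046898278) (W3 := 26843546)
    rfl (fun _ => rfl) t2620_A07pm_011_s1

theorem s_A07pm_011_s1 {κ x : ℝ} (hκ : κ * h0 = kenE x) (hx : 39 / 40 ≤ x) (hx' : x < 1)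
    (H : CutVA (VND 3 κ) (DD x) tKN tL pcN (Cut.of [[⟨0, 0, 0, 67108864⟩, ⟨1, 1, 0, 67108864⟩, ⟨2, 1, 0, 67108864⟩]]) 0 1 1 0 7 (sgb true) (sgb false) x) :
    AltVA (VND 3 κ) (DD x) tKN tL pcN [⟨3, 0, 0, 1140850688⟩] 0 1 1 0 7 (sgb true) (sgb false) x :=
  strip_altVAN (d := 1140850688) true rfl hκ (κ0 hκ hx) (x0 hx) hx' (covN00 hx hx') (covN71 hx hx') (x1 hx) (x2 hx') c_A07pm_011_s1 H ((ok hx hx').extAN (T := tt) (sideN hx hx') hκ (κ0 hκ hx) rfl rfl (.O 0 true) (.N 1 false) (Or.inr rfl))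

end Pool.Agent.Strip051.G.IE1.Tab.StN.C
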