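import Pool.Agent.Strip051.G.IE1.Tab

/-! # Certificates N23 (generated) -/

set_option linter.all false
set_option maxRecDepth 100000

namespace Pool.Agent.Strip051.G.IE1.Tab.C.NA06

open Pool.Agent.Strip051.PB Pool.Agent.Strip051.PB.T
open Pool.Agent.Strip051.G.IE1.Tab

noncomputable def f_pm_012 : ℕ → ℕ → ℕ → ℕ → Bool := onCell 1073741824 536870912 536870912 469762048 1046898278 26843546
    (rowNX 3 2 true true false .pnp 0 1 2 (qsf 0 536870912 536870912 469762048 2) ndN0q0 ndN6q1 pcN2 Cut.none Ext.none)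

def k0_pm_012 : ∃ t, chk3 f_pm_012 t 8 2 1 = true :=
  ⟨(a (b (a (c (b (b (l 15814384) (a (l 15897456) (l 15744760))) (a (l 15869560) (c (l 15794392) (l 15776192)))) (c (a (a (l 15875168) (l 15783664)) (l 15705776)) (b (l 15616352) (l 15720216)))) (b (l 15587608) (c (c (l 15629800) (l 15629424)) (c (l 15607912) (l 15587072))))) (c (a (c (a (b (l 15820256) (l 15764792)) (b (l 15763968) (l 15733968))) (a (b (l 15803408) (l 15746888)) (b (l 15743056) (l 15710464)))) (c (b (l 15656784) (l 15658024)) (b (l 15630016) (l 15625624)))) (a (c (a (b (l 15785080) (l 15726784)) (l 15700296)) (b (l 15666760) (a (l 15702424) (l 15651944)))) (c (b (l 15603456) (l 15593824)) (l 15575040))))) (c (b (b (l 15309504) (a (c (l 15453368) (l 15429416)) (b (l 15235960) (c (l 15264184) (l 15237608))))) (a (c (b (l 15489424) (l 15526680)) (b (l 15462008) (l 15494512))) (b (c (a (l 15353384) (l 15255688)) (l 15276960)) (c (a (l 15418264) (l 15343488)) (l 15354424))))) (b (b (l 15257984) (a (l 15394000) (l 15172992)))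 (b (a (l 15425824) (l 15237328)) (a (l 15457328) (l 15317096)))))), by decide +kernel⟩

def k1_pm_012 : ∃ t, chk3 f_pm_012 t 9 2 1 = true :=
  ⟨(b (b (l 2) (c (a (l 14975616) (l 14656224)) (l 14741216))) (b (a (c (a (b (c (l 15094448) (l 15065016)) (l 15049096)) (b (a (l 14941208) (l 14850040)) (c (l 14945960) (l 14913920)))) (a (b (l 15020640) (l 15074984)) (b (l 14834080) (l 14760824)))) (a (b (l 14692432) (b (l 14690248) (a (c (l 14782632) (l 14712344)) (c (l 14691944) (l 14618016))))) (l 14534816))) (a (c (a (c (l 15250152) (l 15223504)) (c (l 15106144) (l 15076992))) (a (c (l 15196472) (l 15169024)) (c (l 15047416) (l 15017384)))) (c (a (a (c (l 14820064) (l 14935160)) (b (l 14749336) (l 14908080))) (b (c (l 14618120) (l 14580256)) (l 14716920))) (a (a (c (l 14903040) (l 14870448)) (l 14752936)) (b (l 14523856) (l 14643944))))))), by decide +kernel⟩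

def k2_pm_012 : ∃ t, chk3 f_pm_012 t 16 6 1 = true :=
  ⟨(b (c (a (a (c (l 15646728) (b (l 15705512) (l 15675944))) (c (a (l 15709192) (l 15701240)) (l 15678872))) (c (a (l 15680040) (l 15639528)) (l 15621360))) (a (c (a (a (l 15671376) (l 15668736)) (l 15645424)) (a (c (l 15649112) (l 15634352)) (l 15611240))) (c (l 15584488) (l 15557896)))) (c (b (a (a (b (b (c (l 15641032) (l 15620672)) (c (l 15693456) (l 15674232))) (c (l 15924392) (l 15910064))) (b (b (c (l 15685280) (l 15657792)) (c (l 15769736) (l 15743824))) (c (l 15964528) (l 15985248)))) (b (b (c (l 15660056) (l 15619168)) (c (l 15773216) (l 15734112))) (c (a (l 16038160) (l 16066976)) (l 15875792)))) (a (c (a (b (l 16220488) (a (l 16310960) (l 16330680))) (b (a (l 16264136) (l 16319608)) (a (c (l 16339720) (l 16422576)) (l 16208624)))) (a (b (l 16170768) (l 16375584)) (b (b (l 16226160) (l 16390008)) (l 16298048)))) (b (c (l 16188424) (l 16265248)) (a (c (l 16229152) (l 16301568)) (l 16141800))))) (b (a (a (b (c (b (l 15597024)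 (l 15651648)) (b (l 15566880) (l 15622432))) (c (l 15850368) (a (l 15852496) (l 15886256)))) (b (b (c (l 15621776) (l 15584952)) (c (l 15709184) (l 15673752))) (c (l 15955016) (l 15924032)))) (b (b (l 15566808) (l 15558952)) (c (l 15843216) (l 15970560)))) (a (a (c (b (l 16054648) (l 16293024)) (b (a (l 16105512) (l 16222240)) (a (l 16347992) (l 16421016)))) (c (b (l 16241344) (l 16370344)) (b (l 16258136) (l 16401184)))) (b (c (l 16238816) (l 16331224)) (a (l 16169304) (l 16175544))))))), by decide +kernel⟩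

def k3_pm_012 : ∃ t, chk3 f_pm_012 t 17 6 1 = true :=
  ⟨(b (c (a (c (l 15562760) (l 15526000)) (c (a (l 15481120) (l 15426104)) (l 15426888))) (a (l 15424928) (c (l 15403376) (l 15379512)))) (c (b (a (b (c (b (l 15582960) (l 15696640)) (b (l 15543656) (l 15659152))) (c (l 16012736) (l 15981184))) (c (b (b (l 15495336) (l 15608552)) (l 15812696)) (b (l 15524712) (l 15898208)))) (a (b (c (l 16226224) (l 16139272)) (c (l 16103056) (b (l 16236224) (l 16108032)))) (b (c (l 16132184) (l 16331544)) (c (a (l 16031056) (l 16015592)) (l 16003000))))) (b (b (a (b (l 15504960) (l 15623984)) (b (l 15432904) (l 15552104))) (a (l 15956152) (l 15877920))) (a (b (a (l 16322936) (l 16320056)) (c (l 16149352) (l 16142280))) (b (l 16178808) (b (l 16157552) (l 15958352))))))), by decide +kernel⟩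

def k4_pm_012 : ∃ t, chk3 f_pm_012 t 16 14 2 = true :=
  ⟨(a (b (c (a (b (c (l 16105304) (l 16227584)) (b (c (l 15988816) (l 15985128)) (c (l 15882288) (l 15875992)))) (b (c (a (l 16083040) (l 16073704)) (l 16096784)) (a (c (b (l 15899192) (l 15789312)) (b (l 15810912) (c (l 15784096) (l 15780992)))) (b (l 15739704) (c (l 15733280) (l 15729728)))))) (b (a (l 16096448) (l 16012016)) (a (b (l 15975080) (l 15781168)) (b (l 15864424) (l 15687920))))) (a (c (c (l 15908888) (b (l 15888656) (l 15915000))) (c (b (l 15884328) (a (l 15944368) (l 15873264))) (a (l 15923384) (l 15854344)))) (c (a (c (l 15808272) (a (l 15816160) (b (l 15776768) (l 15795000)))) (c (l 15747936) (l 15743496))) (c (a (a (c (l 15812912) (l 15810776)) (l 15783352)) (l 15741440)) (l 15767600))))) (b (c (b (c (a (l 16005088) (l 15945912)) (l 15967400)) (a (b (c (l 15773848) (l 15772208)) (c (l 15659112) (a (l 15679328) (l 15633592)))) (b (l 15628168) (c (l 15573152) (l 15574736))))) (b (l 15931264) (b (l 15735888) (l 15618328))))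 (c (a (c (l 15667632) (a (l 15689624) (l 15640768))) (c (l 15574656) (l 15577808))) (c (a (b (l 15661048) (l 15672904)) (l 15581344)) (l 15627680))))), by decide +kernel⟩

def k5_pm_012 : ∃ t, chk3 f_pm_012 t 16 14 3 = true :=
  ⟨(b (a (b (a (c (a (l 16223824) (l 16146936)) (a (l 16073648) (l 16170200))) (c (l 16121048) (l 16125600))) (c (a (b (a (l 15994432) (l 15935768)) (a (l 15883368) (l 15822840))) (b (l 15864792) (l 15749728))) (a (b (a (l 15965600) (l 15933992)) (a (c (l 15874472) (l 15871784)) (l 15819424))) (b (l 15865480) (l 15748904))))) (b (c (l 15915120) (l 15993504)) (c (b (l 15737064) (l 15618112)) (b (l 15727096) (l 15606232))))) (a (c (a (a (l 15871544) (c (l 15849120) (l 15846232))) (c (l 15767040) (l 15770688))) (a (a (c (l 15905072) (l 15840120)) (c (l 15847520) (l 15848880))) (l 15770584))) (c (a (l 15675968) (l 15582912)) (l 15616800)))), by decide +kernel⟩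

def k6_pm_012 : ∃ t, chk3 f_pm_012 t 17 14 1 = true :=
  ⟨(c (b (c (c (a (b (l 15822976) (b (l 15583320) (l 15463304))) (b (l 15699688) (c (b (l 15454552) (a (l 15360104) (l 15293912))) (l 15156912)))) (a (b (l 15848448) (l 15420568)) (b (l 15716800) (b (l 15445176) (l 15319000))))) (a (b (l 15806536) (b (l 15583032) (l 15460576))) (b (l 15707440) (l 15200880)))) (a (c (c (b (l 15458256) (l 15454744)) (a (l 15497312) (l 15419144))) (c (c (a (l 15499040) (l 15419904)) (l 15458896)) (l 15454808))) (c (c (a (l 15346232) (c (l 15274856) (l 15269416))) (a (c (l 15343200) (l 15339896)) (l 15258920))) (l 15285824)))) (b (a (b (l 15749376) (b (l 15560832) (l 15435272))) (b (l 15452872) (c (l 15346608) (l 15324192)))) (a (c (l 15441376) (l 15420264)) (c (l 15262240) (l 15238264))))), by decide +kernel⟩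

def k7_pm_012 : ∃ t, chk3 f_pm_012 t 16 30 2 = true :=
  ⟨(a (c (b (a (a (b (l 15983712) (l 16035512)) (b (l 15902264) (l 15935192))) (a (a (l 15856560) (c (l 15821272) (l 15815976))) (l 15770712))) (a (b (b (l 16030168) (c (l 16086480) (l 16082784))) (c (l 16163376) (l 16186784))) (b (a (b (c (l 15878360) (l 15872808)) (c (l 15929800) (l 15926312))) (b (l 15788120) (l 15833192))) (a (c (l 16045616) (l 15922456)) (l 15950240))))) (a (b (c (b (a (l 15973208) (l 15891000)) (l 15976448)) (a (c (l 15893000) (l 15994080)) (c (b (l 15887456) (l 15920744)) (l 15902928)))) (c (b (b (l 16021464) (l 16076272)) (c (l 16181952) (l 16171224))) (c (b (b (l 15911736) (l 16007696)) (l 16042344)) (b (a (b (l 16068536) (l 16122984)) (b (l 15899112) (a (l 16041528) (l 15989160)))) (a (l 16241792) (a (l 16159000) (l 16105800))))))) (b (a (c (c (l 15748000) (l 15808616)) (l 15829400)) (c (l 15765648) (l 15766520))) (b (c (b (a (l 15868760) (l 15784208)) (c (l 15771912) (l 15873560))) (a (b (l 15866768)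 (l 15918184)) (b (l 15784648) (l 15828792)))) (a (c (c (l 16044384) (l 16035104)) (l 16033264)) (c (l 15947264) (l 15942328))))))) (c (b (a (c (l 15684216) (l 15683432)) (l 15584696)) (a (b (b (c (l 15691968) (l 15691616)) (a (l 15752160) (l 15689616))) (a (l 15859736) (c (l 15775240) (l 15784440)))) (b (b (l 15588960) (l 15614152)) (l 15692832)))) (b (c (a (l 15685392) (l 15592664)) (l 15644344)) (c (b (b (l 15645864) (a (l 15724448) (l 15623720))) (a (a (l 15859536) (l 15787056)) (l 15702920))) (b (b (l 15652344) (l 15679400)) (a (l 15826496) (l 15704728))))))), by decide +kernel⟩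

def k8_pm_012 : ∃ t, chk3 f_pm_012 t 32 31 2 = true :=
  ⟨(c (b (a (b (c (l 16261056) (l 16271768)) (c (l 16361144) (l 16380240))) (a (c (l 16092552) (a (l 16238488) (l 16144032))) (c (l 16053512) (l 16197592)))) (b (a (a (b (l 16516616) (l 16425168)) (l 16503296)) (a (c (l 16417416) (l 16382392)) (l 16306216))) (c (a (a (l 16438144) (l 16435088)) (a (l 16490752) (l 16472656))) (a (b (a (l 16483216) (l 16507784)) (b (l 16438352) (c (l 16470752) (l 16388160)))) (b (a (l 16533032) (l 16553776)) (a (b (l 16495504) (b (l 16488432) (a (l 16516424) (l 16532192)))) (l 16515312))))))) (c (b (a (b (c (l 16287320) (l 16247544)) (c (l 16374224) (l 16347248))) (c (a (a (l 16169832) (l 16245640)) (l 16173624)) (a (l 16039680) (l 16152584)))) (a (b (c (a (l 16453416) (l 16551880)) (c (l 16446688) (l 16496656))) (c (b (a (l 16489784) (l 16493824)) (b (l 16445544) (l 16468448))) (b (a (l 16488888) (l 16513880)) (b (a (l 16506800) (l 16535024)) (l 16451224))))) (b (c (a (l 16397808) (l 16443936)) (l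 16250944)) (c (b (l 16454032) (b (l 16477232) (a (l 16486704) (l 16624824)))) (a (b (l 16549376) (c (b (l 16600872) (l 16504520)) (l 16573200))) (l 16447680)))))) (a (b (a (l 16318464) (a (l 16337256) (c (l 16281944) (l 16239368)))) (a (b (l 16491560) (l 16519056)) (b (l 16449792) (a (l 16539184) (b (l 16556872) (l 16521008)))))) (b (a (l 16247648) (l 16048296)) (a (l 16401560) (l 16324792)))))), by decide +kernel⟩

def k9_pm_012 : ∃ t, chk3 f_pm_012 t 33 31 2 = true :=
  ⟨(b (c (a (c (l 15871736) (a (l 16103296) (l 16015640))) (a (l 15734768) (l 15810208))) (c (a (c (l 15850576) (l 15896336)) (b (l 15826456) (l 15973624))) (a (l 16048808) (l 15895768)))) (c (b (a (a (l 16313504) (l 16179256)) (l 16074976)) (a (b (l 16242536) (c (l 16405792) (a (l 16433688) (l 16340112)))) (c (l 16250032) (b (l 16258664) (l 16256576))))) (c (c (b (a (l 16241856) (l 16140552)) (b (l 16177368) (a (a (l 16493832) (l 16468752)) (l 16343968)))) (b (l 15941728) (b (l 16142368) (b (l 16222200) (l 16220472)))))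 (a (l 16256408) (l 16195224))))), by decide +kernel⟩

def k10_pm_012 : ∃ t, chk3 f_pm_012 t 32 15 3 = true :=
  ⟨(b (a (b (c (a (b (l 15958768) (l 16012360)) (c (l 15899920) (l 15897936))) (a (c (a (l 16000600) (l 15954368)) (a (l 15997144) (l 15955144))) (c (l 15900640) (l 15903424)))) (b (c (a (b (l 16061120) (l 16116288)) (b (l 15959088) (l 15992008))) (a (b (c (l 16054808) (l 16054800)) (c (l 16110728) (l 16111304))) (b (l 15961176) (l 16016272)))) (c (a (c (l 16156832) (l 16235480)) (l 15964432)) (a (c (l 16233520) (l 16172408)) (l 16096056))))) (b (c (a (l 15829912) (l 15774000)) (c (l 15809744) (l 15806224))) (c (b (b (l 15833040) (l 15881184)) (l 15956104)) (b (b (l 15838000) (l 15887336)) (l 16006808))))) (c (c (a (b (a (c (l 16296144) (l 16296800)) (a (c (l 16272856) (b (l 16316800) (l 16397480))) (c (l 16261400) (l 16326528)))) (a (b (c (l 16511960) (l 16490656)) (l 16455408)) (c (b (l 16450784) (a (l 16517128) (l 16526512))) (a (b (l 16521016) (b (l 16514448) (l 16535256)))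 (l 16467496))))) (b (a (c (l 16208528) (l 16128104)) (l 16059640)) (a (a (b (l 16477152) (l 16535648)) (l 16342264)) (l 16316736)))) (b (a (a (l 16315320) (l 16249808)) (l 16156704)) (b (a (a (l 16489752) (l 16520120)) (l 16401424)) (a (c (a (l 16452016) (c (b (l 16488168) (l 16480000)) (l 16506440))) (a (l 16493904) (l 16479952))) (c (a (l 16477312) (l 16560792)) (l 16538760)))))) (b (a (c (a (l 16294664) (l 16300048)) (a (a (l 16344232) (l 16356440)) (l 16308496))) (l 15998336)) (b (a (a (c (a (l 16528264) (l 16547144)) (a (a (l 16513936) (l 16510056)) (l 16536288))) (l 16471304)) (l 16330960)) (a (a (c (a (l 16500944) (l 16500664)) (a (l 16474312) (l 16509560))) (c (l 16446520) (l 16431240))) (c (l 16463824) (l 16499384))))))), by decide +kernel⟩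

def k11_pm_012 : ∃ t, chk3 f_pm_012 t 33 15 3 = true :=
  ⟨(b (b (c (a (l 15699080) (l 15597416)) (l 15636592)) (c (b (a (b (l 15709680) (l 15739488)) (l 15616840)) (a (l 15838440) (l 15706312))) (b (b (l 15645768) (l 15674128)) (l 15640744)))) (c (b (c (a (l 16020552) (c (a (l 15939272) (l 15863584)) (l 15903808))) (a (l 16070320) (l 15900328))) (a (c (l 16209808) (c (a (l 16349960) (l 16199048)) (l 16245832))) (c (c (l 16079016) (l 16018888)) (l 16122608)))) (a (b (l 16067032) (l 16223472)) (b (l 15890312) (l 16137368))))), by decide +kernel⟩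

def k12_pm_012 : ∃ t, chk3 f_pm_012 t 17 15 2 = true :=
  ⟨(b (c (a (b (c (l 15452592) (l 15456848)) (b (b (l 15453848) (l 15477032)) (l 15551584))) (b (c (a (l 15329792) (l 15248376)) (a (l 15330152) (l 15241184))) (c (a (l 15373136) (b (l 15248448) (l 15324200))) (a (b (l 15334440) (l 15420032)) (l 15281880))))) (a (b (c (a (l 15503672) (l 15413488)) (l 15455112)) (c (b (a (l 15518448) (b (l 15413376) (l 15436440))) (a (l 15606304) (l 15510160))) (a (b (c (l 15520040) (l 15519408)) (l 15602640)) (b (l 15415952) (l 15496296))))) (b (c (l 15271256) (l 15261888)) (c (b (b (l 15265776) (l 15287120)) (l 15358496)) (b (l 15264064) (l 15337312)))))) (c (b (a (a (b (l 15699936) (l 15818208)) (l 15655984)) (a (c (l 15551816) (l 15571568)) (c (l 15459152) (l 15469952)))) (a (b (a (l 15960000) (l 15820408)) (b (l 15955240) (c (l 16049008) (l 15910056)))) (b (a (l 15709408) (l 15607568)) (c (a (l 15799200) (l 15690464)) (a (b (l 15807144) (l 15827184)) (l 15721392)))))) (a (c (c (b (a (l 15777320)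 (l 15669040)) (b (l 15723240) (b (l 16020480) (l 16057576)))) (b (a (l 15760192) (l 15647120)) (a (l 15967152) (b (l 15804600) (l 15939480))))) (a (b (a (l 15790776) (l 15727536)) (l 15923240)) (b (l 15639696) (l 15865592)))) (c (b (c (l 15510864) (l 15485368)) (c (b (l 15661640) (b (l 15739512) (l 15796712))) (l 15444784))) (b (l 15263184) (a (l 15722808) (l 15602880))))))), by decide +kernel⟩

def k13_pm_012 : ∃ t, chk3 f_pm_012 t 17 15 3 = true :=
  ⟨(b (b (a (c (l 15441936) (l 15420776)) (c (l 15243904) (l 15219560))) (a (c (b (l 15454056) (l 15537416)) (b (l 15433096) (l 15517912))) (c (b (l 15246104) (l 15322688)) (l 15134816)))) (a (c (c (a (b (l 15756176) (l 16027128)) (b (l 15629320) (l 15752496))) (b (l 15687472) (l 15728592))) (b (l 15444152) (a (l 16013584) (l 15840960)))) (c (b (l 15458800) (c (a (l 15690360) (l 15588496)) (l 15645008))) (b (l 15438216) (l 15506224))))), by decide +kernel⟩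

def k14_pm_012 : ∃ t, chk3 f_pm_012 t 9 6 1 = true :=
  ⟨(a (b (c (a (c (l 15384944) (l 15360640)) (c (b (l 15273544) (l 15382472)) (l 15302144))) (a (c (l 15335984) (l 15310960)) (c (l 15276480) (l 15250424)))) (c (b (a (b (c (l 15412608) (l 15495712)) (c (l 15882008) (l 15868296))) (b (c (l 15510616) (l 15488760)) (c (l 15879712) (l 15866032)))) (a (b (c (l 16239584) (l 16298280)) (c (l 15987440) (l 15999760))) (b (c (l 16281176) (l 16298184)) (c (l 15965016) (l 15997616))))) (b (a (b (b (l 15401736) (l 15523832)) (l 15784400)) (b (b (l 15391776) (l 15519648)) (l 15803144))) (a (b (l 16040144) (c (l 16011920) (l 16023920))) (b (l 16082360) (l 15794544)))))) (b (c (a (a (c (l 15002616) (l 15227712)) (c (l 15153192) (l 15124864))) (c (l 14970832) (l 14939328))) (a (a (c (l 15200760) (l 15173384)) (l 15081552)) (l 14891144))) (c (b (a (a (b (b (l 15401584) (l 15528552)) (l 15611096)) (b (l 15373792) (l 15747520))) (b (b (l 15133768) (l 15258368)) (l 15560040))) (a (a (b (c (l 16273176)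 (l 16268864)) (c (l 15949504) (l 15982040))) (b (l 16109456) (l 15900424))) (b (c (l 15978776) (l 15969296)) (l 15885008)))) (b (a (a (b (l 15419152) (l 15812976)) (b (l 15325016) (l 15715408))) (b (l 15140624) (l 15521328))) (a (a (b (l 16199312) (c (l 15993432) (l 15983688))) (b (l 16160128) (l 16030696))) (b (l 15954752) (l 16042184))))))), by decide +kernel⟩

def k15_pm_012 : ∃ t, chk3 f_pm_012 t 9 14 1 = true :=
  ⟨(a (b (c (a (b (c (a (l 15624632) (l 15568128)) (l 15456872)) (c (b (l 15268344) (l 15128632)) (b (l 15244544) (l 15102296)))) (b (c (l 15526376) (l 15507400)) (c (b (l 15138640) (l 14819248)) (b (l 15112488) (l 14915368))))) (a (b (a (l 15560024) (l 15521856)) (c (b (l 15220376) (l 15075544)) (b (l 15195800) (l 15048360)))) (b (l 15226688) (c (b (l 15085928) (l 14885208)) (l 14877176))))) (c (c (a (a (c (l 15037960) (l 15104992)) (c (b (l 15042816) (l 15012936)) (l 14969904))) (c (b (a (l 14923112) (l 14826200)) (a (l 14878112) (l 14751136))) (l 14834496))) (a (l 15020304)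 (a (l 14865584) (l 14752656)))) (a (c (l 15034752) (l 15006808)) (c (a (l 14834472) (l 14719480)) (l 14745976))))) (b (c (a (a (b (c (l 15501416) (l 15482128)) (c (b (l 15105504) (l 14892544)) (l 14970936))) (b (l 15531576) (c (l 15038632) (l 15011072)))) (b (l 15458512) (c (l 15136720) (l 15111752)))) (a (a (b (l 15452584) (c (l 14941880) (l 14912368))) (b (l 15494720) (l 14968888))) (b (l 15594896) (l 15052552)))) (a (a (c (c (c (b (l 14762384) (c (a (l 14670000) (l 14620520)) (l 14640568))) (l 14608904)) (b (l 14720920) (l 14600736))) (c (l 14590400) (l 14597064))) (c (c (l 14705328) (l 14671440)) (l 14535680))) (c (c (l 14792016) (l 14760344)) (c (l 14728184) (l 14695512)))))), by decide +kernel⟩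

def k16_pm_012 : ∃ t, chk3 f_pm_012 t 18 15 1 = true :=
  ⟨(a (c (b (c (b (c (l 15053856) (a (l 15115768) (l 14960152))) (c (b (l 15039928) (l 15107768)) (b (b (l 15021224) (l 15037512)) (l 15101128)))) (c (b (a (l 15099248) (l 14947232)) (b (c (l 14846536) (l 15008024)) (c (l 15090720) (l 15071584)))) (b (l 15009664) (l 15030056)))) (c (b (c (l 15230560) (l 15235352)) (b (l 15321944) (c (l 15440632) (b (l 15441624) (l 15488328))))) (c (b (c (l 15223912) (l 14965144)) (c (b (l 15357096) (l 15449728)) (l 15359960))) (a (b (l 15270480) (l 15445568)) (b (l 15085832) (l 15247512)))))) (b (b (c (l 14988376) (l 14959584)) (c (b (l 14975824) (l 15042328)) (b (l 14946808) (l 15014480)))) (c (c (c (a (l 15262496) (l 15155864)) (l 15247880)) (l 15238832)) (a (l 15319200) (l 15123664))))) (c (b (b (c (c (a (l 14837400) (l 14701440)) (a (l 14811976) (l 14673376))) (l 14722880)) (c (c (b (l 14734072) (l 14789144)) (b (a (l 14793744) (b (l 14638792) (l 14650304))) (a (l 14860392) (l 14708192))))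 (c (c (b (l 14712952) (l 14765456)) (l 14722400)) (l 14709256)))) (c (b (c (l 14892288) (l 14897944)) (b (l 14940680) (c (l 15068040) (b (l 15069168) (l 15108768))))) (c (b (c (l 14650912) (a (l 14929904) (l 14762984))) (c (b (l 14992696) (l 15071176)) (b (l 14953568) (l 15020616)))) (c (b (l 14833848) (l 14867848)) (a (l 14852048) (l 14806096)))))) (b (b (c (l 14689184) (l 14654936)) (c (l 14558016) (l 14649504))) (c (a (l 14966416) (l 14792336)) (l 14700808))))), by decide +kernel⟩

def k17_pm_012 : ∃ t, chk3 f_pm_012 t 19 15 1 = true :=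
  ⟨(c (b (c (a (a (b (c (a (l 14603160) (a (l 14555392) (l 14533296))) (a (l 14579368) (l 14527208))) (c (a (l 14586968) (b (a (l 14494104) (l 14472672)) (l 14544248))) (a (b (l 14537816) (l 14597544)) (a (b (l 14487112) (l 14543584)) (b (l 14464464) (l 14518656)))))) (b (c (l 14527264) (l 14514224)) (c (b (l 14490528) (l 14533744)) (b (l 14461240) (l 14512240))))) (b (c (c (l 14547168) (l 14545168)) (l 14531568)) (c (b (c (l 14487992) (l 14472224)) (l 14528976)) (c (l 14485424) (l 14485168))))) (b (a (a (l 14527832) (l 14486200)) (l 14504136)) (a (a (b (l 14483200) (l 14530408)) (l 14460864)) (c (l 14467464) (l 14445088))))) (c (a (a (b (c (a (l 14698528) (l 14630752)) (a (l 14704424) (a (l 14649080) (l 14623936)))) (b (a (l 14796368) (l 14723632)) (c (l 14815136) (c (l 14831528) (l 14733680))))) (b (c (l 14614808) (l 14619048)) (b (l 14706352) (c (l 14759424) (l 14777632))))) (b (c (l 14618464) (c (l 14611624) (l 14602872))) (c (l 14729256) (b (l 14713152) (l 14775776))))) (a (b (c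 (a (a (b (l 14630192) (l 14698040)) (c (a (l 14622280) (l 14595808)) (l 14579568))) (c (l 14590376) (l 14565640))) (l 14511712)) (a (c (c (b (l 14749192) (a (l 14852808) (l 14776024))) (a (l 14775472) (a (l 14712616) (l 14683568)))) (a (l 14742976) (a (l 14680648) (l 14652624)))) (c (c (b (l 14695208) (l 14757736)) (l 14676272)) (l 14648328)))) (c (b (c (l 14586752) (l 14561152)) (c (b (l 14682440) (l 14755016)) (l 14664840))) (l 14599112))))) (b (a (a (b (l 14408728) (c (l 14466320) (l 14428016))) (b (l 14429144) (l 14400232))) (b (l 14448288) (c (l 14416512) (l 14377912)))) (a (a (c (l 14630824) (l 14595376)) (l 14558888)) (c (l 14572496) (l 14536568))))), by decide +kernel⟩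

def k18_pm_012 : ∃ t, chk3 f_pm_012 t 5 2 1 = true :=
  ⟨(b (l 2) (b (a (a (a (l 14390400) (l 14614728)) (l 15294472)) (l 2)) (a (a (a (c (b (a (l 14467696) (l 14388872)) (c (l 14495376) (l 14455424))) (b (l 14351824) (l 14395448))) (b (l 14605744) (b (l 14601352) (a (c (l 14523640) (l 14444256)) (c (l 14771064) (l 14700024)))))) (c (l 15394200) (l 15345656))) (a (a (l 16083696) (l 16529648)) (l 16776560))))), by decide +kernel⟩

def k19_pm_012 : ∃ t, chk3 f_pm_012 t 10 6 1 = true :=
  ⟨(a (b (a (c (c (l 14729192) (l 14693472)) (l 14617872)) (a (c (c (l 14718144) (l 14682104)) (l 14628168)) (c (b (c (l 14835560) (l 14801696)) (l 14952592)) (b (l 14749960) (l 14888552))))) (a (b (c (b (c (l 14974568) (l 14943368)) (l 15310888)) (b (l 14895656) (l 15263416))) (c (b (l 15542624) (l 15871184)) (b (l 15681752) (l 16093576)))) (b (a (c (b (l 14931232) (l 15265432)) (l 14851024)) (c (b (l 14857680) (l 15403528)) (b (l 15029576) (l 15359432)))) (c (a (b (l 15645632) (l 16038760)) (b (l 15679568)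 (l 16010312))) (a (l 15630520) (b (l 15737168) (l 16129424))))))) (b (a (c (b (c (l 15177848) (l 15149816)) (l 15243728)) (b (l 15107944) (l 15189472))) (c (b (l 15508992) (l 15507344)) (b (l 15593888) (l 15614456)))) (c (b (a (b (l 15339688) (l 15652624)) (b (l 15739720) (l 16000216))) (a (b (l 15882416) (l 15938984)) (b (l 16237224) (l 15806464)))) (b (a (b (l 15311432) (l 15617464)) (b (l 15703800) (l 15977704))) (a (b (l 15969656) (l 16031544)) (b (l 16295288) (l 15825184))))))), by decide +kernel⟩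

def k20_pm_012 : ∃ t, chk3 f_pm_012 t 10 14 1 = true :=
  ⟨(a (a (b (c (b (l 15496832) (c (l 15263768) (l 15242416))) (b (l 15619936) (l 15146776))) (c (c (l 14925832) (l 14897656)) (l 14833528))) (b (c (a (b (c (l 15772976) (l 15762376)) (l 15110744)) (b (l 15545968) (c (l 15217808) (l 15196000)))) (b (a (l 15746080) (l 15646656)) (a (l 15237296) (l 15162576)))) (c (a (l 14737024) (c (l 14895648) (l 14867360))) (a (l 14891904) (l 14824040))))) (b (c (b (a (l 15484744) (l 15349176)) (a (c (l 15073704) (l 15048584)) (l 14840128))) (a (b (l 15515296) (l 15010096)) (b (l 15306864) (l 14800672)))) (c (a (c (l 14752200) (l 14720800)) (l 14536296)) (a (l 14672728) (l 14463616))))), by decide +kernel⟩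

def k21_pm_012 : ∃ t, chk3 f_pm_012 t 10 15 1 = true :=
  ⟨(a (c (b (b (a (c (l 14632776) (l 14598784)) (a (l 14660200) (l 14602832))) (a (c (c (b (a (l 14482672) (l 14534920)) (l 14523408)) (l 14515104)) (b (l 14470720) (l 14486488))) (c (a (l 14532344) (l 14481408)) (a (l 14495112) (l 14443248))))) (b (c (a (c (l 14588760) (l 14552584)) (a (c (l 14558776) (l 14564344)) (c (c (a (l 14504656) (l 14453456)) (l 14485344)) (l 14484392)))) (a (l 14564376) (a (l 14521872) (l 14440808)))) (a (c (c (l 14732128) (b (l 14698592) (c (l 14771192) (l 14772584)))) (c (c (b (l 14683208) (l 14741080)) (l 14669216)) (l 14649440))) (c (a (c (l 14681824) (b (l 14643920) (l 14712944))) (c (a (a (l 14622792) (l 14586592)) (l 14524104)) (b (l 14536888) (c (l 14599144) (l 14609512))))) (a (l 14510504) (c (l 14536400) (l 14482920))))))) (a (b (b (l 14546752) (c (l 14444752) (l 14407328))) (c (l 14570024) (l 14534632))) (b (a (b (l 14593808) (l 14437688)) (b (l 14534264) (l 14384408))) (a (c (l 14524008) (l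 14488096)) (c (l 14428496) (l 14390824)))))) (c (b (c (b (l 14381608) (a (l 14342224) (l 14148400))) (b (l 14342864) (c (l 14214952) (l 14190568)))) (c (c (b (a (l 14337712) (l 14151664)) (a (b (l 14338032) (l 14364224)) (l 14152504))) (b (l 14244344) (b (l 14256768) (a (l 14381984) (l 14164320))))) (c (b (l 14211040) (a (l 14335712) (l 14122152))) (l 14180304)))) (b (b (a (l 14385448) (l 14178728)) (a (l 14238064) (l 14034000))) (a (c (l 14249328) (l 14208136)) (l 14013320))))), by decide +kernel⟩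

def k22_pm_012 : ∃ t, chk3 f_pm_012 t 11 3 1 = true :=
  ⟨(b (a (b (a (b (l 16080440) (c (l 16054872) (l 16072600))) (l 16528024)) (b (a (c (b (l 16035712) (l 16364688)) (b (l 16118632) (l 16355944))) (b (a (l 16406192) (l 16663576)) (c (l 16412184) (l 16402016)))) (a (c (b (l 16134992) (l 15648768)) (l 15659392)) (c (l 15504072) (l 15614800))))) (b (l 16776560) (b (b (l 16714352) (c (l 16154992) (l 16285112))) (c (a (l 15407160) (l 15574272)) (l 15427440))))) (a (b (b (c (a (b (l 15145872) (l 14655528)) (b (l 14937648) (l 14444264))) (a (l 14652632) (l 14621224))) (c (a (l 14329472) (l 14115680)) (a (l 14247400) (l 14023736)))) (c (b (b (a (l 14055880) (l 13841872)) (c (a (l 13946472) (l 13735816)) (a (l 13897088) (l 13681776)))) (c (b (l 13847024) (b (l 13855856) (c (l 13857224) (l 13867040)))) (c (a (l 13921680) (l 13710872)) (l 13761880)))) (b (a (b (l 13963832) (l 13821096)) (l 13606952)) (a (l 13805096) (l 13586296))))) (b (b (c (a (b (l 14815328) (l 14319808)) (l 14568552)) (a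 (l 14491760) (l 14491032))) (c (a (l 13989136) (l 13988424)) (l 13890912))) (c (b (b (l 13714240) (c (l 13609816) (l 13552936))) (c (b (l 13616032) (b (l 13626816) (l 13634576))) (c (l 13584128) (l 13525656)))) (b (b (l 13606736) (l 13465512)) (l 13454632)))))), by decide +kernel⟩

def k23_pm_012 : ∃ t, chk3 f_pm_012 t 3 1 1 = true :=
  ⟨(b (l 2) (b (a (b (a (l 16777216) (l 2)) (a (b (b (l 16714072) (l 16293168)) (l 15511256)) (b (l 2) (l 15553200)))) (l 2)) (b (a (a (b (a (c (l 14568552) (l 14491032)) (l 14529856)) (c (l 13988424) (l 13890536))) (b (l 14508888) (l 13939560))) (b (l 2) (l 13876648))) (a (c (c (b (a (l 13675184) (l 13675184)) (a (b (l 13615672) (l 13632768)) (b (l 13615672) (l 13632768)))) (b (a (b (l 13687368) (l 13552568)) (l 13620264)) (a (l 13563424) (l 13563424)))) (b (a (l 13536064) (l 13515088)) (a (l 13454256) (l 13454256)))) (c (b (b (l 13713880) (l 13581040)) (c (l 13628152) (l 13563424))) (b (l 13536064) (l 13454256))))))), by decide +kernel⟩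

theorem s24_pm_012 : ∃ t, chk3 f_pm_012 t 10 7 1 = true := ex3_b k20_pm_012 k21_pm_012

theorem s25_pm_012 : ∃ t, chk3 f_pm_012 t 10 3 1 = true := ex3_b k19_pm_012 s24_pm_012

theorem s26_pm_012 : ∃ t, chk3 f_pm_012 t 5 3 1 = true := ex3_a s25_pm_012 k22_pm_012

theorem s27_pm_012 : ∃ t, chk3 f_pm_012 t 5 1 1 = true := ex3_b k18_pm_012 s26_pm_012

theorem s28_pm_012 : ∃ t, chk3 f_pm_012 t 9 15 1 = true := ex3_a k16_pm_012 k17_pm_012

theorem s29_pm_012 : ∃ t, chk3 f_pm_012 t 9 7 1 = true := ex3_b k15_pm_012 s28_pm_012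

theorem s30_pm_012 : ∃ t, chk3 f_pm_012 t 9 3 1 = true := ex3_b k14_pm_012 s29_pm_012

theorem s31_pm_012 : ∃ t, chk3 f_pm_012 t 17 15 1 = true := ex3_c k12_pm_012 k13_pm_012

theorem s32_pm_012 : ∃ t, chk3 f_pm_012 t 16 15 3 = true := ex3_a k10_pm_012 k11_pm_012

theorem s33_pm_012 : ∃ t, chk3 f_pm_012 t 16 31 2 = true := ex3_a k8_pm_012 k9_pm_012

theorem s34_pm_012 : ∃ t, chk3 f_pm_012 t 16 15 2 = true := ex3_b k7_pm_012 s33_pm_012

theorem s35_pm_012 : ∃ t, chk3 f_pm_012 t 16 15 1 = true := ex3_c s34_pm_012 s32_pm_012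

theorem s36_pm_012 : ∃ t, chk3 f_pm_012 t 8 15 1 = true := ex3_a s35_pm_012 s31_pm_012

theorem s37_pm_012 : ∃ t, chk3 f_pm_012 t 16 14 1 = true := ex3_c k4_pm_012 k5_pm_012

theorem s38_pm_012 : ∃ t, chk3 f_pm_012 t 8 14 1 = true := ex3_a s37_pm_012 k6_pm_012

theorem s39_pm_012 : ∃ t, chk3 f_pm_012 t 8 7 1 = true := ex3_b s38_pm_012 s36_pm_012

theorem s40_pm_012 : ∃ t, chk3 f_pm_012 t 8 6 1 = true := ex3_a k2_pm_012 k3_pm_012

theorem s41_pm_012 : ∃ t, chk3 f_pm_012 t 8 3 1 = true := ex3_b s40_pm_012 s39_pm_012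

theorem s42_pm_012 : ∃ t, chk3 f_pm_012 t 4 3 1 = true := ex3_a s41_pm_012 s30_pm_012

theorem s43_pm_012 : ∃ t, chk3 f_pm_012 t 4 2 1 = true := ex3_a k0_pm_012 k1_pm_012

theorem s44_pm_012 : ∃ t, chk3 f_pm_012 t 4 1 1 = true := ex3_b s43_pm_012 s42_pm_012

theorem s45_pm_012 : ∃ t, chk3 f_pm_012 t 2 1 1 = true := ex3_a s44_pm_012 s27_pm_012

theorem s46_pm_012 : ∃ t, chk3 f_pm_012 t 1 1 1 = true := ex3_a s45_pm_012 k23_pm_012

theorem c_pm_012 : CertNX 0 536870912 536870912 469762048 1046898278 26843546 3 true true false .pnp 0 1 2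
    ndN0q0 ndN6q1 pcN2 Cut.none Ext.none :=
  certNX2 (fam := true) (s1 := true) (s2 := false) (a := 0) (b := 1) (c := 2) (cn := .pnp) (n1 := ndN0q0) (n2 := ndN6q1) (pc := pcN2) (cut := Cut.none) (xt := Ext.none) (P1 := 0) (W1 := 536870912) (P2 := 536870912) (W2 := 469762048) (P3 := 1046898278) (W3 := 26843546) (N0 := 3)
    rfl (fun _ => rfl) s46_pm_012

noncomputable def f_pm_022 : ℕ → ℕ → ℕ → ℕ → Bool := onCell 0 536870912 1073741824 536870912 1046898278 26843546
    (rowNX 3 1 true true false .pp 0 2 2 (qsf 0 536870912 1073741824 536870912 2) ndN0q0 ndN6q2 pcN2 Cut.none Ext.none)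

def k0_pm_022 : ∃ t, chk3 f_pm_022 t 1 4 1 = true :=
  ⟨(a (l 3) (l 1)), by decide +kernel⟩

def k1_pm_022 : ∃ t, chk3 f_pm_022 t 4 40 1 = true :=
  ⟨(l 3), by decide +kernel⟩

def k2_pm_022 : ∃ t, chk3 f_pm_022 t 4 82 1 = true :=
  ⟨(l 3), by decide +kernel⟩

def k3_pm_022 : ∃ t, chk3 f_pm_022 t 8 166 1 = true :=
  ⟨(b (l 3) (a (l 3) (c (a (a (l 3) (a (l 3) (c (l 16253712) (l 16195888)))) (c (c (a (l 16253792) (c (l 16193336) (l 16172240))) (a (l 16093208) (l 16159104))) (l 16164000))) (l 16155088)))), by decide +kernel⟩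

def k4_pm_022 : ∃ t, chk3 f_pm_022 t 16 167 2 = true :=
  ⟨(b (a (a (b (l 3) (l 15949272)) (b (l 16148872) (a (l 16140480) (l 16227160)))) (c (b (l 16243000) (l 16248712)) (c (l 16260416) (b (l 16242416) (l 16227360))))) (a (b (b (b (l 15910352) (b (l 15905528) (c (l 15905656) (l 15877424)))) (l 15956232)) (l 15956000)) (c (b (b (b (l 16252272) (b (l 16253336) (l 16254040))) (l 16255816)) (l 16259640)) (b (b (a (b (l 16267944) (b (l 16269032) (l 16269752))) (b (l 16240616) (b (l 16241720) (c (l 16264496) (l 16209968))))) (l 16272064)) (a (l 16275096) (l 16248656)))))), by decide +kernel⟩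

def k5_pm_022 : ∃ t, chk3 f_pm_022 t 17 167 2 = true :=
  ⟨(b (c (a (c (l 16245648) (a (l 16254008) (b (l 16266864) (l 16272776)))) (c (a (b (l 16262688) (l 16247600)) (c (a (l 16243048) (l 16186232)) (l 16184232))) (a (c (a (l 16258032) (l 16202696)) (l 16200848)) (l 16171224)))) (a (c (a (b (l 16269736) (l 16275664)) (b (l 16156104) (l 16120144))) (a (c (a (l 16280544) (l 16237656)) (l 16236088)) (l 16205208))) (l 16176296))) (c (a (b (b (a (b (l 16251136) (b (l 16252224) (l 16252944))) (b (c (l 16262848) (l 16276448)) (b (c (l 16263936) (l 16277552)) (c (l 16264656) (l 16215368))))) (c (l 16255752) (l 16170664))) (c (l 16260056) (l 16175032))) (b (b (a (b (c (l 16272232) (l 16153840)) (b (c (l 16273328) (l 16133984)) (c (c (l 16289456) (l 16252056)) (c (a (l 16266520) (l 16211232)) (l 16209424))))) (b (c (l 16120416) (l 16177976)) (b (c (l 16100552) (l 16179104)) (c (c (a (l 16251504) (l 16194728)) (l 16192776)) (l 16179848))))) (a (c (l 16275888) (l 16157544)) (c (l 16145072) (l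 16181720)))) (a (c (l 16280256) (l 16161976)) (c (l 16149488) (l 16186192))))) (a (b (b (a (b (c (l 16279352) (l 16261104)) (b (c (l 16280456) (l 16262224)) (c (l 16260224) (a (l 16192736) (l 16240168))))) (b (c (a (l 16242736) (l 16220488)) (l 16212008)) (b (c (a (l 16243848) (l 16221608)) (l 16213144)) (c (c (l 16155608) (l 16226744)) (l 16213896))))) (c (a (l 16283032) (l 16253416)) (a (l 16264832) (l 16215776)))) (c (a (l 16287424) (l 16257864)) (a (l 16269296) (l 16220280)))) (b (b (b (l 16183160) (b (l 16184296) (l 16185056))) (l 16186952)) (l 16191496))))), by decide +kernel⟩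

def k6_pm_022 : ∃ t, chk3 f_pm_022 t 16 334 3 = true :=
  ⟨(a (c (a (l 15949712) (a (l 16131872) (b (l 16268072) (c (l 16250944) (l 16260400))))) (a (b (l 3) (c (l 15930760) (c (l 15716736) (l 15837016)))) (a (c (c (l 16159144) (l 16117168)) (l 16150704)) (b (l 16268200) (l 16200872))))) (c (c (a (l 16232232) (b (l 16262096) (c (l 16276280) (l 16242760)))) (a (b (l 16272080) (c (l 16285064) (l 16276144))) (l 16241792))) (l 16249536))), by decide +kernel⟩

def k7_pm_022 : ∃ t, chk3 f_pm_022 t 16 335 3 = true :=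
  ⟨(a (c (b (a (b (b (l 15915936) (b (l 15910320) (l 15906576))) (l 15897224)) (b (b (a (l 16118936) (l 16251968)) (b (a (l 16113296) (l 16248776)) (a (l 16109536) (a (l 16218512) (c (l 16268880) (l 16259720)))))) (a (l 16100144) (l 16238024)))) (a (l 15874808) (a (l 16077648) (l 16217968)))) (a (c (b (b (b (l 15911744) (b (l 15906048) (l 15902256))) (l 15892768)) (l 15870040)) (b (b (b (a (l 15813840) (l 15968872)) (a (b (l 15808104) (c (l 15828912) (l 15803616))) (b (l 15963120) (c (l 15967000) (l 15966424))))) (a (l 15815688) (l 15949696))) (a (l 15792776) (l 15926728)))) (b (c (b (b (a (l 16053552) (l 16256240)) (a (b (l 16047840) (c (l 16115336) (l 16115104))) (b (l 16253008) (c (l 16232320) (l 16241368))))) (a (l 16055472) (l 16242112))) (b (b (l 16180944) (b (l 16176512) (l 16173256))) (l 16164240))) (c (a (l 16032656) (l 16221768)) (l 16142528))))) (c (a (c (b (b (b (l 16280856) (b (l 16281968) (l 16261736))) (l 16284552)) (l 16288160)) (b (b (b (l 16281872) (b (l 16283000) (a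 (c (l 16300472) (l 16291256)) (l 16282616)))) (l 16285616)) (l 16289280))) (b (b (b (c (l 16271864) (l 16248632)) (b (c (l 16272984) (l 16249768)) (c (c (a (l 16296280) (l 16271408)) (l 16227424)) (l 16250528)))) (l 16269904)) (l 16274408))) (b (b (b (l 16256488) (b (l 16257640) (l 16258408))) (l 16260328)) (l 16264480)))), by decide +kernel⟩

def k8_pm_022 : ∃ t, chk3 f_pm_022 t 17 167 3 = true :=
  ⟨(b (b (l 16185576) (c (l 16193760) (l 16188040))) (b (b (b (l 16195792) (b (l 16196968) (c (l 16199568) (l 16194000)))) (l 16199704)) (l 16204384))), by decide +kernel⟩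

def k9_pm_022 : ∃ t, chk3 f_pm_022 t 9 83 1 = true :=
  ⟨(b (b (a (l 3) (c (l 15782168) (l 15824352))) (a (a (c (a (l 16137480) (l 16183792)) (a (l 16122752) (l 16170296))) (c (l 16352032) (l 16369032))) (c (a (l 16171240) (l 15863384)) (l 15746752)))) (b (a (c (a (b (a (l 16146728) (l 16179520)) (a (l 16152840) (l 16157848))) (b (l 16386168) (l 16297072))) (b (a (l 16149968) (l 16402936)) (a (a (l 16138928) (l 16165280)) (l 16313688)))) (c (b (l 15792672) (a (l 16177816) (l 15871824))) (b (l 15856312) (a (l 16163704) (l 15845680))))) (b (b (b (a (a (c (a (l 16156648) (l 16177960)) (l 16153824)) (c (l 16398688) (l 16415200))) (c (l 15839488) (l 15861416))) (b (a (a (c (a (l 16157792) (l 16177952)) (l 16154376)) (c (l 16376744) (l 16393224))) (c (l 15840048) (l 15862000))) (a (a (c (a (l 16158552) (c (l 16181448) (l 16174776))) (a (l 16144944) (c (l 16168024) (l 16161192)))) (c (l 16250264) (l 16245760))) (c (a (l 16117352) (c (l 15881328) (l 15868560))) (a (l 16040448) (c (l 15855560)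 (l 15737456))))))) (a (a (c (l 16162192) (l 16156440)) (l 16372088)) (l 15768568))) (a (a (c (l 16165576) (l 16160016)) (l 16368144)) (l 15770848))))), by decide +kernel⟩

def k10_pm_022 : ∃ t, chk3 f_pm_022 t 4 21 1 = true :=
  ⟨(a (a (c (b (a (l 15522920) (a (b (a (b (l 16240208) (l 16149048)) (l 16200480)) (l 15964312)) (a (b (l 16299224) (l 16028552)) (c (l 16277832) (c (l 16303456) (l 16263960)))))) (a (l 15309904) (a (l 15672736) (a (l 15814592) (b (l 15939000) (l 15803120)))))) (a (a (c (l 15330728) (c (l 15193320) (a (c (l 15305784) (l 15089296)) (c (l 15232736) (l 15439424))))) (c (b (a (l 15825920) (l 15819264)) (l 15437440)) (c (a (c (l 15489432) (l 15381896)) (a (l 15467448) (l 15557232))) (l 15521768)))) (c (a (b (c (b (a (l 16207192) (l 16216208)) (a (l 15989776) (l 16103280))) (b (a (c (l 16221944) (l 16170440)) (l 16262568)) (a (l 15954848) (l 16127264)))) (c (l 15674552) (l 15460608))) (b (b (c (l 16285112) (l 16283320)) (c (a (l 16088688) (l 16275936)) (l 16248184)))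 (c (a (l 15804128) (l 15905616)) (l 15919040)))) (b (a (b (l 16175824) (l 16039288)) (l 16123480)) (l 15696672))))) (c (a (c (b (a (l 16306456) (c (l 16318664) (l 16333040))) (b (a (l 16105368) (c (l 16278816) (l 16266168))) (a (l 16068352) (a (l 16191960) (l 16095032))))) (c (a (b (l 16335824) (b (a (l 16303720) (l 16272664)) (l 16095568))) (b (l 16202224) (b (l 16261192) (a (l 16164736) (l 16251888))))) (b (a (l 16213504) (l 16270176)) (a (b (a (l 16167416) (l 16302176)) (l 15992760)) (l 16223016))))) (c (a (c (l 16172384) (a (l 16157832) (l 16305064))) (c (b (l 16093504) (l 16204352)) (l 16280480))) (l 16287080))) (a (b (l 16275992) (a (b (l 16190368) (l 16103512)) (l 16178184))) (l 16282208)))) (a (a (c (a (l 16260888) (l 16273144)) (l 16217200)) (b (a (l 16262840) (l 16420896)) (l 16322040))) (a (b (l 16198512) (a (l 16235800) (l 16151592))) (l 15920744)))), by decide +kernel⟩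

def k11_pm_022 : ∃ t, chk3 f_pm_022 t 8 11 1 = true :=
  ⟨(a (c (b (a (b (l 14908504) (l 14507368)) (a (l 14915536) (a (l 15138600) (b (l 15420368) (l 15200968))))) (a (b (a (l 14109760) (l 14269936)) (l 14098464)) (b (c (l 14634240) (l 14492672)) (a (l 14236120) (c (l 14414960) (l 14396168)))))) (b (a (c (a (l 14526400) (l 14686208)) (a (c (l 14502032) (a (l 14371656) (l 14543520))) (c (a (l 14595792) (l 14844424)) (l 14753664)))) (c (a (c (l 15027528) (c (l 14921936) (l 15054024))) (b (l 15328808) (l 15118632))) (l 15157640))) (a (c (b (a (l 14040200) (l 14215304)) (l 14035200)) (a (c (l 13990584) (a (l 13930496) (l 13979616))) (b (c (a (l 14121648) (l 14240600)) (l 14163128)) (l 14007936)))) (c (a (c (b (l 14470448) (l 14200280)) (b (l 14453784) (l 14180784))) (b (l 14719960) (l 14133104))) (b (l 14541376) (l 14236112)))))) (c (c (a (b (a (l 15356192) (b (a (l 15870752) (l 16011352)) (c (l 15679360) (l 15687776)))) (a (l 14837592) (c (l 15108880) (l 15111392)))) (b (b (a (b (c (a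 (l 16215368) (l 16160456)) (a (l 16111968) (l 16203144))) (c (l 16223840) (l 16106056))) (c (b (l 16156696) (a (l 16082896) (l 16155920))) (l 16198136))) (a (a (l 15638720) (c (l 15980704) (l 15932616))) (c (l 15911424) (l 16095016)))) (a (c (l 15241536) (b (l 15512464) (l 15141328))) (c (b (l 15668920) (l 15383520)) (l 15512416))))) (a (c (b (a (b (l 15751968) (l 15423976)) (b (b (l 16050760) (l 15859528)) (l 15592856))) (a (l 14845104) (l 14926616))) (b (a (a (l 15319120) (l 15500128)) (l 15609512)) (a (l 14812896) (l 15024432)))) (b (b (a (l 16028024) (l 16216496)) (l 15826696)) (l 15341328)))) (b (a (b (l 15665712) (l 15468752)) (b (a (l 16044104) (l 16190176)) (l 15834880))) (a (l 14867016) (l 15352040))))), by decide +kernel⟩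

def k12_pm_022 : ∃ t, chk3 f_pm_022 t 9 11 1 = true :=
  ⟨(a (b (a (b (c (l 16214384) (l 16200816)) (a (c (b (l 16153656) (l 16220640)) (l 16060832)) (b (l 16080088) (a (l 16114000) (l 16019344))))) (l 15988248)) (c (a (a (l 15565656) (l 15733736)) (b (a (l 15821976) (l 15825856)) (l 16049344))) (a (b (l 15870344) (l 15643800)) (b (b (l 15822592) (l 15728480)) (l 16065608))))) (b (a (l 15933968) (b (a (l 15998696) (l 15924512)) (l 15850728))) (a (b (l 15746392) (a (l 15607944) (l 15544696))) (l 15609152)))), by decide +kernel⟩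

def k13_pm_022 : ∃ t, chk3 f_pm_022 t 5 5 1 = true :=
  ⟨(a (a (b (b (b (l 3) (b (b (l 3) (c (c (l 15484072) (l 15463800)) (l 15432728))) (b (c (b (l 15402704) (c (l 15504896) (l 15485016))) (b (l 15445848) (l 15454560))) (b (c (b (l 15501280) (c (l 15515296) (l 15495624))) (b (l 15461104) (c (l 15475624) (l 15455272)))) (b (b (b (c (l 15508096) (l 15468184)) (b (c (a (l 15630384) (l 15382944)) (l 15466744)) (b (b (c (l 15421320) (l 15465176)) (a (c (l 15628592) (l 15593216)) (l 15351568))) (l 15334616)))) (l 15335984)) (l 15318616)))))) (c (l 15389144) (l 15540688))) (b (a (b (l 15770536) (l 15783600)) (l 15575768)) (a (l 15608960) (b (l 15627400) (l 15538120))))) (b (b (b (l 1) (b (l 1) (b (l 1) (b (l 1) (b (l 1) (c (l 14978304) (l 14918408))))))) (c (l 257727687767) (l 15020392))) (b (c (l 15248248) (l 15198296)) (a (b (l 15451872) (l 15477464)) (l 15263664))))) (b (b (l 1) (a (c (l 296381317351) (l 14293928)) (l 1))) (a (b (c (l 14566024) (l 14685672)) (c (l 14944424) (l 14882088)))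 (a (c (b (l 278127362167) (l 14585440)) (l 178806306551)) (c (l 278127277975) (l 14154392)))))), by decide +kernel⟩

def k14_pm_022 : ∃ t, chk3 f_pm_022 t 3 5 1 = true :=
  ⟨(b (l 1) (a (a (b (l 1) (c (l 290474994951) (l 292085424471))) (l 1)) (l 1))), by decide +kernel⟩

def k15_pm_022 : ∃ t, chk3 f_pm_022 t 4 3 1 = true :=
  ⟨(a (b (a (c (b (a (l 14097888) (c (l 14245712) (l 14221704))) (l 14169840)) (a (c (l 14034608) (a (c (l 13964856) (l 13937912)) (a (l 13993848) (l 14046016)))) (c (b (a (c (l 14159440) (l 14139512)) (l 14222680)) (l 14165704)) (l 14127576)))) (b (c (b (a (c (b (a (l 14408376) (c (l 14603528) (l 14600656))) (l 14408176)) (b (a (c (l 14409024) (l 14372200)) (c (l 14557256) (l 14502808))) (a (l 14350408) (l 14412168)))) (a (c (b (l 14813088) (c (l 14601856) (l 14550584))) (l 14610152)) (c (c (b (l 15034160) (l 14723216)) (l 14817624)) (l 14792928)))) (a (c (l 14407656) (l 14371352)) (c (a (l 14538600) (l 14590008)) (l 14476000)))) (b (a (b (l 14387456) (l 14285088))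 (b (l 14790576) (l 14513552))) (l 14351240))) (c (a (c (l 14407656) (l 14371352)) (c (l 14555336) (l 14475664))) (l 14350976)))) (a (c (l 13939160) (a (c (l 14034608) (b (l 13981696) (l 13981696))) (c (b (l 14165704) (l 14165704)) (l 14127464)))) (c (a (c (l 14407656) (l 14371352)) (b (l 14526896) (l 14526896))) (l 14350976)))) (b (b (a (a (b (c (l 15010336) (l 15091128)) (b (a (l 14585776) (l 14764720)) (l 14589784))) (b (b (l 15710808) (l 15550168)) (b (l 15220680) (l 14974240)))) (b (a (b (a (l 16173976) (l 15880456)) (l 16065616)) (b (a (l 15474208) (l 15436448)) (l 15654840))) (a (l 15510784) (b (l 16111608) (l 16094760))))) (a (a (l 14589296) (l 14887216)) (b (a (l 15031128) (b (l 15797704) (l 15576176))) (l 15354216)))) (a (a (l 14589296) (l 14887040)) (l 15354008)))), by decide +kernel⟩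

def k16_pm_022 : ∃ t, chk3 f_pm_022 t 5 3 1 = true :=
  ⟨(b (a (b (a (b (a (b (l 15382336) (a (l 15451512) (l 15298936))) (l 15315648)) (a (b (l 15707264) (l 16066144)) (b (a (l 15320272) (l 15167648)) (l 15582392)))) (b (a (l 15321520) (l 15283800)) (a (b (l 15113536) (a (l 15195248) (l 15042592))) (l 15053120)))) (a (b (a (l 16120952) (b (l 15989800) (l 16416928))) (a (l 15748424) (l 15978216))) (b (a (l 15453256) (b (a (l 15076440) (l 14923768)) (l 15351200))) (a (l 16334688) (l 15753528))))) (b (a (b (a (l 15170232) (l 14976456)) (a (l 15059064) (l 15021432))) (a (b (l 14748392) (l 14910976)) (l 14707224))) (a (b (a (b (l 14869688) (l 14723920)) (l 14815544)) (a (l 15408600) (b (l 14680464) (l 15144760)))) (b (a (l 14824288) (l 14866632)) (a (b (l 14653248) (l 14561672)) (l 14676576)))))) (a (b (a (l 15795064) (b (a (l 16111816) (l 16375336)) (l 16158336))) (l 15979656)) (b (a (b (a (l 16198096) (l 15713008)) (a (l 16450464) (l 16333328))) (b (a (l 15285800) (b (l 14679208) (l 15025616)))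 (a (l 16006152) (l 15710688)))) (a (l 16496784) (b (a (l 16721712) (l 16389512)) (l 16754288)))))), by decide +kernel⟩

def k17_pm_022 : ∃ t, chk3 f_pm_022 t 3 3 1 = true :=
  ⟨(a (b (a (b (c (a (l 14592952) (l 14154048)) (l 225514100439)) (a (b (l 14790512) (a (l 14790320) (l 14866632))) (b (l 14656704) (l 14832456)))) (b (c (a (l 291548736823) (l 1)) (l 282958388695)) (c (l 292086254055) (l 14410352)))) (a (b (b (a (a (b (l 14622104) (l 14679208)) (l 14676576)) (l 14816816)) (a (a (l 15259360) (b (l 14679208) (l 15025616))) (a (b (l 14622104) (l 14679208)) (l 14676576)))) (a (b (a (l 16035920) (l 15710688)) (a (l 16703000) (l 16494368))) (b (a (l 15259360) (b (l 14679208) (l 15025616))) (a (l 16056888) (l 15710688))))) (b (a (b (l 14832456) (l 14816816)) (b (l 14656704) (l 14832456))) (b (a (a (l 14656832) (l 14676576)) (l 14816816)) (a (a (l 15259360) (l 14688160)) (a (l 14677800) (l 14676576))))))) (b (a (b (l 1) (c (l 321076414455) (l 260409810391))) (l 1)) (a (b (c (l 14469648)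 (l 14410352)) (a (b (l 14832456) (l 14816816)) (l 14742176))) (b (c (l 318928930807) (l 13918744)) (a (l 14554688) (l 14342824)))))), by decide +kernel⟩

theorem s18_pm_022 : ∃ t, chk3 f_pm_022 t 2 3 1 = true := ex3_a k15_pm_022 k16_pm_022

theorem s19_pm_022 : ∃ t, chk3 f_pm_022 t 1 3 1 = true := ex3_a s18_pm_022 k17_pm_022

theorem s20_pm_022 : ∃ t, chk3 f_pm_022 t 4 11 1 = true := ex3_a k11_pm_022 k12_pm_022

theorem s21_pm_022 : ∃ t, chk3 f_pm_022 t 16 167 3 = true := ex3_b k6_pm_022 k7_pm_022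

theorem s22_pm_022 : ∃ t, chk3 f_pm_022 t 8 167 3 = true := ex3_a s21_pm_022 k8_pm_022

theorem s23_pm_022 : ∃ t, chk3 f_pm_022 t 8 167 2 = true := ex3_a k4_pm_022 k5_pm_022

theorem s24_pm_022 : ∃ t, chk3 f_pm_022 t 8 167 1 = true := ex3_c s23_pm_022 s22_pm_022

theorem s25_pm_022 : ∃ t, chk3 f_pm_022 t 8 83 1 = true := ex3_b k3_pm_022 s24_pm_022

theorem s26_pm_022 : ∃ t, chk3 f_pm_022 t 4 83 1 = true := ex3_a s25_pm_022 k9_pm_022

theorem s27_pm_022 : ∃ t, chk3 f_pm_022 t 4 41 1 = true := ex3_b k2_pm_022 s26_pm_022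

theorem s28_pm_022 : ∃ t, chk3 f_pm_022 t 4 20 1 = true := ex3_b k1_pm_022 s27_pm_022

theorem s29_pm_022 : ∃ t, chk3 f_pm_022 t 4 10 1 = true := ex3_b s28_pm_022 k10_pm_022

theorem s30_pm_022 : ∃ t, chk3 f_pm_022 t 4 5 1 = true := ex3_b s29_pm_022 s20_pm_022

theorem s31_pm_022 : ∃ t, chk3 f_pm_022 t 2 5 1 = true := ex3_a s30_pm_022 k13_pm_022

theorem s32_pm_022 : ∃ t, chk3 f_pm_022 t 1 5 1 = true := ex3_a s31_pm_022 k14_pm_022

theorem s33_pm_022 : ∃ t, chk3 f_pm_022 t 1 2 1 = true := ex3_b k0_pm_022 s32_pm_022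

theorem s34_pm_022 : ∃ t, chk3 f_pm_022 t 1 1 1 = true := ex3_b s33_pm_022 s19_pm_022

theorem c_pm_022 : CertNX 0 536870912 1073741824 536870912 1046898278 26843546 3 true true false .pp 0 2 2
    ndN0q0 ndN6q2 pcN2 Cut.none Ext.none :=
  certNX1 (fam := true) (s1 := true) (s2 := false) (a := 0) (b := 2) (c := 2) (cn := .pp) (n1 := ndN0q0) (n2 := ndN6q2) (pc := pcN2) (cut := Cut.none) (xt := Ext.none) (P1 := 0) (W1 := 536870912) (P2 := 1073741824) (W2 := 536870912) (P3 := 1046898278) (W3 := 26843546) (N0 := 3)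
    rfl (fun _ => rfl) s34_pm_022

noncomputable def f_pm_023 : ℕ → ℕ → ℕ → ℕ → Bool := onCell 0 536870912 1073741824 536870912 1046898278 26843546
    (rowNX 3 0 true true false .up 0 2 3 (qsf 0 536870912 1073741824 536870912 3) ndN0q0 ndN6q2 pcN3 Cut.none Ext.none)

def k0_pm_023 : ∃ t, chk3 f_pm_023 t 1 1 1 = true :=
  ⟨(a (b (a (l 1) (b (l 1) (b (l 1) (a (l 1) (b (l 1) (l 16628208)))))) (b (a (a (l 1) (a (l 1) (l 15354008))) (a (l 15853824) (l 271689580871))) (a (a (a (b (l 1) (c (l 14169840) (a (c (l 14034608) (l 13981696)) (l 14117520)))) (c (a (c (l 14407656) (l 14371352)) (l 14526896)) (l 14350976))) (a (a (l 14589296) (l 14887040)) (l 15354008))) (a (l 15979656) (l 16627952))))) (b (b (a (b (l 1) (a (l 1) (l 352216511511))) (b (a (l 14656704) (l 14656704)) (a (l 243768566311) (b (l 14906456) (l 14732584))))) (b (a (b (a (l 1) (l 307655887687)) (a (l 15487608) (l 15487608))) (b (a (l 14658240) (l 14679208)) (a (l 15487608) (l 15487608)))) (a (b (a (l 16347856) (l 16347856)) (l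 16776616)) (b (a (l 16347856) (l 16326880)) (l 16776616))))) (a (b (l 16777216) (l 16777160)) (b (l 16777216) (b (a (l 16777168) (a (l 16775944) (l 16773224))) (a (b (l 16775640) (a (l 16771912) (l 16744512))) (b (a (l 16760328) (l 16749064)) (a (b (l 16725520) (l 16698544)) (b (a (l 16727552) (l 16766984)) (a (l 16757144) (b (l 16750320) (a (l 16741024) (b (l 16738712) (a (l 16731872) (a (l 16705552) (a (l 16713280) (a (l 16724008) (b (l 16708744) (b (l 16727368) (l 16741056)))))))))))))))))))), by decide +kernel⟩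

theorem c_pm_023 : CertNX 0 536870912 1073741824 536870912 1046898278 26843546 3 true true false .up 0 2 3
    ndN0q0 ndN6q2 pcN3 Cut.none Ext.none :=
  certNX0 (fam := true) (s1 := true) (s2 := false) (a := 0) (b := 2) (c := 3) (cn := .up) (n1 := ndN0q0) (n2 := ndN6q2) (pc := pcN3) (cut := Cut.none) (xt := Ext.none) (P1 := 0) (W1 := 536870912) (P2 := 1073741824) (W2 := 536870912) (P3 := 1046898278) (W3 := 26843546) (N0 := 3)
    rfl k0_pm_023

noncomputable def f_pm_033 : ℕ → ℕ → ℕ → ℕ → Bool := onCell 1610612736 536870912 0 1230186008 1046898278 26843546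
    (rowNX 3 2 true true false .pnn 0 3 3 (qsf 0 536870912 0 1230186008 3) ndN0q0 ndN6q3 pcN3 Cut.none Ext.none)

def k0_pm_033 : ∃ t, chk3 f_pm_033 t 2 2 1 = true :=
  ⟨(l 1), by decide +kernel⟩

def k1_pm_033 : ∃ t, chk3 f_pm_033 t 2 6 1 = true :=
  ⟨(a (l 1) (b (l 1) (a (l 1) (b (l 1) (a (l 1) (c (l 13849840) (b (l 1) (a (l 1) (c (l 13928016) (b (l 13825368) (l 13914576))))))))))), by decide +kernel⟩

def k2_pm_033 : ∃ t, chk3 f_pm_033 t 2 14 1 = true :=
  ⟨(a (l 1) (a (b (c (l 13606488) (l 182025725031)) (b (a (l 1) (c (l 14043048) (a (b (l 1) (c (l 13953672) (l 13896856))) (c (b (l 13971872) (l 14080576)) (b (l 13913816) (l 14022976)))))) (a (c (l 14013656) (a (l 181489483767) (b (l 13800480) (c (l 14055120) (l 13998880))))) (c (a (b (l 14138576) (l 14251696)) (b (l 14157824) (c (l 14416624) (l 14354304)))) (a (b (c (l 14066304) (l 14009520)) (l 13941696)) (c (l 14231544) (l 14216928))))))) (b (a (c (l 13814240) (b (l 13562096) (a (c (l 13939352) (b (l 13832888) (l 13891968))) (c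 (b (l 14012048) (l 14117144)) (b (l 13873080) (l 14057920)))))) (c (b (a (l 14059752) (l 14167128)) (a (c (l 14292232) (b (l 14193112) (l 14297656))) (c (b (l 14375336) (l 14473216)) (l 14254416)))) (b (a (c (l 13988408) (b (l 13883880) (l 13961616))) (c (b (l 14067104) (l 14160152)) (b (l 14010272) (l 14112776)))) (a (c (b (l 14138272) (l 14236928)) (l 14134024)) (l 14331888))))) (a (b (c (a (b (l 14167520) (c (l 14311760) (l 14260704))) (c (l 14190984) (b (l 14275624) (l 14374152)))) (a (c (b (l 14097680) (l 14201336)) (l 14091352)) (l 14260664))) (c (a (b (c (l 14427928) (l 14363120)) (l 14539248)) (l 14457928)) (l 14457976))) (c (b (a (c (b (l 14456920) (l 14590416)) (l 14480720)) (l 14571608)) (a (l 14776816) (l 15139864))) (l 14708712)))))), by decide +kernel⟩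

def k3_pm_033 : ∃ t, chk3 f_pm_033 t 4 15 1 = true :=
  ⟨(b (a (l 1) (b (a (l 1) (c (l 13997360) (b (l 13639264) (a (l 13883784) (c (l 14042560) (l 13986752)))))) (a (c (l 13996216) (b (l 13675776) (a (l 13884568) (c (l 14043656) (l 13966776))))) (c (b (l 13967448) (a (l 14240112) (c (l 14402360) (l 14344616)))) (b (a (c (l 14041360) (l 13964576)) (c (l 14162952) (l 14113880))) (a (c (l 14164840) (l 14116320)) (l 14313880))))))) (a (b (a (l 1) (c (l 14011240) (b (l 215849263239) (a (l 13751584) (c (l 14059144) (l 14002640)))))) (a (c (l 14032616) (c (b (l 13887472) (a (l 13963328) (l 14089624))) (b (l 226049696359) (a (l 13906040) (l 14031872))))) (c (b (a (l 14145072) (c (l 14302576) (l 14252480))) (a (c (l 14319360) (l 14267856)) (c (l 14447200) (l 14382072)))) (b (a (c (l 14072512) (l 14015440)) (l 14145096)) (l 14111320))))) (b (a (c (b (a (l 14122080) (l 14245832)) (a (l 14087336) (c (l 14418752) (l 14357176)))) (b (a (c (l 14049552) (l 13993416)) (c (l 14169632) (l 14123152)))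 (c (l 14084376) (l 14208552)))) (c (b (a (c (l 14406984) (l 14349384)) (l 14532104)) (a (l 14542336) (l 14676424))) (l 14548848))) (a (c (b (a (c (l 14431496) (l 14368040)) (l 14557200)) (l 14503560)) (l 14601880)) (b (l 14658936) (l 15177752)))))), by decide +kernel⟩

def k4_pm_033 : ∃ t, chk3 f_pm_033 t 5 15 1 = true :=
  ⟨(b (a (b (a (c (a (l 13929112) (b (l 14243808) (c (l 14401968) (l 14343968)))) (a (b (c (l 14047168) (l 13991240)) (c (l 14163920) (l 14115992))) (b (c (l 14167592) (l 14121976)) (l 14313392)))) (c (a (b (c (l 14408208) (l 14347848)) (l 14525400)) (b (l 14530552) (l 14654568))) (l 14460960))) (a (c (b (a (c (l 14400680) (l 14342840)) (l 14450808)) (a (l 14452560) (l 14657200))) (l 14517400)) (b (l 14613392) (l 15064520)))) (b (a (a (l 14659040) (l 15068632)) (l 15477592)) (l 15618280))) (a (a (b (b (l 14625576) (l 15106208)) (l 15541752)) (l 15554200)) (b (l 16096656) (l 16455120)))), by decide +kernel⟩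

def k5_pm_033 : ∃ t, chk3 f_pm_033 t 6 2 1 = true :=
  ⟨(l 1), by decide +kernel⟩

def k6_pm_033 : ∃ t, chk3 f_pm_033 t 6 6 1 = true :=
  ⟨(b (a (l 1) (b (a (l 1) (c (l 13942744) (b (l 13779192) (a (l 13839704) (c (l 13993456) (l 13937600)))))) (a (c (l 13962112) (b (l 13785016) (a (l 13860584) (c (l 14017392) (b (l 13925304) (l 13999376)))))) (c (b (l 14137616) (a (l 14213728) (c (l 14377296) (l 14320800)))) (b (a (c (l 14000976) (l 13945192)) (c (l 14127344) (l 14068968))) (a (c (l 14142256) (l 14084928)) (l 14226568))))))) (c (a (b (l 13684624) (a (b (l 14006864) (a (l 14125400) (c (l 14279400) (l 13978632)))) (b (a (l 14195424) (b (l 14130024) (l 14352784))) (a (c (l 14236672) (l 14264104)) (l 14499880))))) (b (a (b (a (l 14117696) (c (l 14273392) (l 14224024))) (a (c (l 14307136) (l 14257192)) (c (l 14434968) (l 14372656)))) (b (a (c (l 14400120) (l 14343112)) (l 14452376)) (a (l 14562992) (l 14705736)))) (a (b (a (c (l 14473864) (l 14443224)) (l 14618456)) (b (l 14746504) (l 14925360)))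 (l 15069752)))) (a (b (a (l 13657952) (c (b (l 13855184) (a (l 13952792) (b (l 14036616) (l 14120904)))) (b (l 170752042023) (a (b (l 13855912) (l 13937640)) (b (l 13981552) (l 14061056)))))) (a (b (a (l 13841536) (c (l 13995720) (b (l 13896312) (l 13984880)))) (a (c (b (l 14003584) (l 14098592)) (b (l 13948560) (l 14039696))) (c (b (l 14130840) (l 14218736)) (l 14117720)))) (b (a (c (b (l 14080120) (l 14161840)) (l 14063808)) (l 14228360)) (l 14360704)))) (b (a (b (a (c (l 13980256) (b (l 13948880) (l 14025968))) (c (l 14164512) (l 14113384))) (c (a (l 14088408) (l 14356320)) (l 14230752))) (b (l 14349296) (l 14584960))) (a (l 14754984) (l 15117000)))))), by decide +kernel⟩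

def k7_pm_033 : ∃ t, chk3 f_pm_033 t 6 7 1 = true :=
  ⟨(b (a (b (a (c (b (a (c (l 14345712) (b (l 14248888) (l 14341104))) (c (l 14256528) (l 14404040))) (a (c (l 14377768) (l 14552544)) (l 14631440))) (b (a (l 14113056) (l 14369328)) (l 14570360))) (b (c (a (l 14607888) (l 14760896)) (l 14657320)) (l 15103912))) (a (b (l 15021872) (l 15508624)) (l 15721016))) (b (a (l 15425432) (l 15873368)) (l 16039880))) (b (a (b (l 16083392) (l 16415696)) (l 16429192)) (a (b (l 16649736) (l 16764176)) (l 16777128)))), by decide +kernel⟩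

def k8_pm_033 : ∃ t, chk3 f_pm_033 t 7 1 1 = true :=
  ⟨(b (a (b (l 1) (a (a (a (l 1) (l 4)) (l 4)) (l 4))) (l 4)) (a (b (b (a (a (b (c (l 14131040) (b (c (l 13994352) (l 13938624)) (c (l 14120344) (l 14061648)))) (c (b (c (l 14361360) (l 14299320)) (c (l 14492472) (l 14469464))) (l 14289192))) (b (b (l 4) (c (c (l 14353768) (l 14293760)) (l 14198944))) (c (b (c (l 14480256) (l 14452216)) (l 14649800)) (l 14476824)))) (b (l 4) (c (a (b (l 14627624) (l 14880664)) (l 4)) (l 14827288)))) (a (b (a (b (l 14649344) (l 14997264)) (l 15097240)) (l 15660328)) (b (a (l 15384184) (l 15626976)) (l 15874136)))) (b (a (b (l 16233320) (l 16671656)) (b (a (l 16466544) (l 16586664)) (a (l 16736696) (l 16726112)))) (a (l 16774856) (l 16712720)))) (a (b (b (l 4) (a (b (l 15819736) (l 16310784)) (b (l 4) (l 16212200)))) (b (a (b (l 16688200) (l 16734456)) (b (l 16736344) (l 16742608))) (a (l 16692512) (b (l 16741576) (l 16723408))))) (b (l 4) (a (b (l 16827680) (c (l 16747800) (l 16719496))) (b (a (l 16674488)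 (l 4)) (a (l 16762568) (a (l 16698256) (a (l 16711712) (a (l 16709360) (a (l 16728112) (l 649849145751)))))))))))), by decide +kernel⟩

theorem s9_pm_033 : ∃ t, chk3 f_pm_033 t 6 3 1 = true := ex3_b k6_pm_033 k7_pm_033

theorem s10_pm_033 : ∃ t, chk3 f_pm_033 t 6 1 1 = true := ex3_b k5_pm_033 s9_pm_033

theorem s11_pm_033 : ∃ t, chk3 f_pm_033 t 3 1 1 = true := ex3_a s10_pm_033 k8_pm_033

theorem s12_pm_033 : ∃ t, chk3 f_pm_033 t 2 15 1 = true := ex3_a k3_pm_033 k4_pm_033

theorem s13_pm_033 : ∃ t, chk3 f_pm_033 t 2 7 1 = true := ex3_b k2_pm_033 s12_pm_033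

theorem s14_pm_033 : ∃ t, chk3 f_pm_033 t 2 3 1 = true := ex3_b k1_pm_033 s13_pm_033

theorem s15_pm_033 : ∃ t, chk3 f_pm_033 t 2 1 1 = true := ex3_b k0_pm_033 s14_pm_033

theorem s16_pm_033 : ∃ t, chk3 f_pm_033 t 1 1 1 = true := ex3_a s15_pm_033 s11_pm_033

theorem c_pm_033 : CertNX 0 536870912 0 1230186008 1046898278 26843546 3 true true false .pnn 0 3 3
    ndN0q0 ndN6q3 pcN3 Cut.none Ext.none :=
  certNX2 (fam := true) (s1 := true) (s2 := false) (a := 0) (b := 3) (c := 3) (cn := .pnn) (n1 := ndN0q0) (n2 := ndN6q3) (pc := pcN3) (cut := Cut.none) (xt := Ext.none) (P1 := 0) (W1 := 536870912) (P2 := 0) (W2 := 1230186008) (P3 := 1046898278) (W3 := 26843546) (N0 := 3)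
    rfl (fun _ => rfl) s16_pm_033

noncomputable def f_pm_101 : ℕ → ℕ → ℕ → ℕ → Bool := onCell 536870912 536870912 0 536870912 1046898278 26843546
    (rowNX 3 2 true true false .npn 1 0 1 (qsf 536870912 536870912 0 536870912 1) ndN0q1 ndN6q0 pcN1 Cut.none Ext.none)

def k0_pm_101 : ∃ t, chk3 f_pm_101 t 2 1 1 = true :=
  ⟨(l 3), by decide +kernel⟩

def k1_pm_101 : ∃ t, chk3 f_pm_101 t 12 4 1 = true :=
  ⟨(a (l 3) (a (l 3) (b (b (b (c (b (c (l 15682712) (l 15674512)) (c (b (l 185385925911) (l 15740720)) (b (l 15706440) (l 15707808)))) (b (c (b (l 15650504) (c (l 15678824) (l 15666688))) (b (c (l 15641112) (b (l 15629576) (l 15638040))) (l 15653968))) (c (l 202565668087) (l 15685288)))) (c (b (c (b (l 15736824) (l 162300521687)) (l 15730064)) (l 156394959991)) (l 190754630871))) (c (b (c (l 15843360) (l 15848624)) (c (l 102708183527) (l 15932624))) (l 159079444215))) (b (c (b (l 15997936) (l 3)) (l 15989144)) (l 3))))), by decide +kernel⟩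

def k2_pm_101 : ∃ t, chk3 f_pm_101 t 13 4 1 = true :=
  ⟨(b (b (b (c (a (b (c (l 15665504) (l 15655544)) (c (b (l 15671832) (l 15724248)) (b (l 15687968) (l 15689688)))) (b (a (l 15626832) (l 15543712)) (a (c (l 15685880) (l 15656264)) (c (l 15622648) (l 15583408))))) (c (a (b (b (l 15629544) (c (l 15658696) (l 15645672))) (l 15588112)) (b (a (l 15578312) (b (l 15483400) (l 15520984))) (a (l 15632784) (l 15550208)))) (a (b (b (c (l 15618792) (b (l 15606216) (l 15614904))) (l 15631624)) (l 15663640)) (b (a (b (l 15528024) (l 15587616)) (c (l 15474232) (l 15458280))) (l 15575712))))) (c (a (c (b (b (l 15720664) (l 15661200)) (l 15752296)) (c (l 15672456) (l 15737888))) (a (b (c (l 15693160) (l 15677920)) (l 15723152)) (b (c (l 15630752) (l 15606384)) (l 15656264)))) (a (c (l 15737064) (l 15724872)) (a (l 15689888) (l 15604888))))) (a (c (c (b (l 15829200) (b (l 15906080) (l 15952176))) (b (l 15833168) (l 15918984))) (b (l 15814952) (l 15895200))) (c (a (b (l 15798824) (l 15891920)) (b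 (l 15732072) (l 15636704))) (a (l 15816072) (l 15733424))))) (b (a (c (c (l 214377525431) (l 15998376)) (b (l 15957216) (l 15998944))) (c (a (l 15976744) (l 15848040)) (a (l 15942360) (l 15862944)))) (a (c (l 200419062135) (l 16084232)) (a (l 16068008) (c (l 16017920) (l 15977376)))))), by decide +kernel⟩

def k3_pm_101 : ∃ t, chk3 f_pm_101 t 6 5 1 = true :=
  ⟨(a (l 3) (a (b (c (b (a (l 16260016) (l 16252008)) (l 159080656647)) (b (l 217599188791) (l 16442696))) (b (c (l 140290802087) (l 16663568)) (c (l 16776936) (l 16776920)))) (b (a (b (l 16222304) (l 16428848)) (b (c (l 16170296) (l 16138128)) (c (l 16373800) (l 16351744)))) (a (b (l 16651240) (l 16767888)) (b (c (l 16591560) (l 16580864)) (l 16703984)))))), by decide +kernel⟩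

def k4_pm_101 : ∃ t, chk3 f_pm_101 t 14 4 1 = true :=
  ⟨(b (b (b (a (c (b (l 15241456) (c (a (l 15470992) (l 15305640)) (b (l 15278952) (l 15305656)))) (b (c (b (l 15076808) (l 15140736)) (c (l 14893272) (l 14994432))) (c (l 15212664) (l 15141472)))) (c (b (l 14959176) (c (l 15135232) (l 14944744))) (b (c (l 14629184) (b (l 14354864) (l 14449840))) (l 14666712)))) (a (c (b (a (l 15439336) (l 15311448)) (a (l 15524144) (l 15374128))) (a (l 15423648) (l 15203232))) (c (b (l 15092800) (l 15153024)) (l 14858088)))) (a (c (b (a (l 15597232) (l 15459984)) (l 15489368)) (b (l 15426688) (l 15514920))) (b (c (l 15248736) (l 15041088)) (c (a (l 15412416) (l 15273960)) (l 15160104))))) (b (a (c (l 15691896) (l 15600288)) (a (c (l 15470784) (l 15334496)) (b (l 15229536) (l 15257008)))) (a (c (l 15789104) (l 15712816)) (a (l 15493976) (l 15328016))))), by decide +kernel⟩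

def k5_pm_101 : ∃ t, chk3 f_pm_101 t 15 4 1 = true :=
  ⟨(b (b (a (b (c (b (a (l 14976576) (l 15250328)) (b (l 14985144) (l 14961848))) (b (c (b (l 14292104) (l 14339928)) (b (c (l 13868040) (l 13583184)) (l 13872576))) (c (l 14433808) (l 14085688)))) (c (b (l 15072008) (l 14964912)) (l 14496600))) (b (c (a (b (c (a (l 15221360) (l 15071192)) (l 14934704)) (c (b (l 15011400) (l 15206608)) (b (l 15007096) (l 14845000)))) (b (c (l 14860168) (a (b (l 14888944) (l 14881496)) (l 14740176))) (c (a (b (l 14926512) (l 14936688)) (l 14784968)) (a (b (l 14901272) (l 14912336)) (b (l 14747144) (l 14769560)))))) (b (a (c (l 14650464) (b (l 13584632) (l 13706456))) (c (b (a (l 14836096) (l 14696304)) (a (l 14850024) (c (l 14706912) (l 14685912)))) (b (a (l 13973928) (c (l 14472248) (l 14285584))) (l 14230320)))) (a (c (l 14421440) (l 13939128)) (c (a (l 14571888) (b (l 14688448) (l 14685728))) (l 14095800))))) (c (a (b (c (l 15091216) (l 14773040)) (l 14890632)) (b (c (a (l 14988528) (b (l 14825112)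 (l 14841552))) (a (l 14778128) (l 14786336))) (a (l 14839736) (l 14857288)))) (a (l 14414944) (b (l 14570928) (l 14705872)))))) (a (c (b (l 15019272) (l 15084808)) (l 14776824)) (a (b (l 14768160) (l 14840360)) (b (a (l 14813672) (c (l 14935528) (l 14915176))) (l 14881712))))) (b (a (b (l 15008320) (l 15019752)) (b (l 14847224) (l 14815632))) (a (a (l 15153464) (l 14979520)) (l 14588784)))), by decide +kernel⟩

def k6_pm_101 : ∃ t, chk3 f_pm_101 t 7 5 1 = true :=
  ⟨(a (b (a (c (b (l 15932336) (l 16125680)) (l 15894680)) (a (c (l 15771712) (l 15700776)) (c (l 15597504) (l 15514904)))) (a (b (c (l 16332600) (l 16309704)) (c (l 16443328) (l 16431576))) (b (l 15889656) (c (l 16079864) (l 16055352))))) (a (a (b (b (l 15285584) (l 15475440)) (b (l 15680920) (l 15793984))) (b (l 15196496) (a (b (l 15546984) (l 15663800)) (l 15514256)))) (b (b (l 14824664) (l 15005104)) (b (l 15217072) (l 15339616))))), by decide +kernel⟩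

def k7_pm_101 : ∃ t, chk3 f_pm_101 t 3 3 1 = true :=
  ⟨(a (a (l 3) (a (b (l 3) (l 1)) (b (b (a (c (l 16774048) (l 16773936)) (c (l 16721064) (l 16719088))) (a (l 3) (c (l 16736336) (l 16734896)))) (b (c (a (l 1) (l 16742616)) (l 258805184359)) (l 1))))) (a (b (a (c (b (l 16398208) (l 16378912)) (b (l 16408064) (l 16389560))) (b (c (l 16097952) (l 16074088)) (c (l 16120856) (l 16097784)))) (b (a (c (l 442951109783) (l 451004133191)) (c (l 16121416) (l 16120056))) (a (l 1) (c (l 418254325527) (l 422549228615))))) (a (c (a (b (l 15826760) (b (l 15846664) (l 15858808))) (b (a (l 15688688) (b (l 15610528) (l 15612784))) (a (l 15691752) (b (l 15609640) (l 15606680))))) (b (a (l 15793368) (b (l 15607872) (l 15611632))) (b (a (l 15813960) (l 15610360)) (a (l 15826512) (l 15609152))))) (b (a (c (a (c (b (b (l 15533184) (l 15381672)) (l 15367968)) (l 15523880)) (b (l 15441288) (c (l 15481464) (c (l 15464872) (l 15453208))))) (b (l 15441600) (l 15460832))) (b (l 15278464) (a (c (l 15306768) (b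 (l 15332072) (c (l 15194624) (l 15337896)))) (l 15275760)))) (a (c (c (a (b (l 15519720) (l 15481368)) (l 15494904)) (a (l 15535776) (b (l 15470104) (l 15476240)))) (l 79487552151)) (c (c (l 15384856) (a (l 15400728) (l 15325608))) (a (c (b (c (l 15379016) (l 15367032)) (l 15277000)) (l 15352120)) (c (l 15300648) (b (a (l 15290456) (l 15251304)) (l 71433900999)))))))))), by decide +kernel⟩

theorem s8_pm_101 : ∃ t, chk3 f_pm_101 t 7 4 1 = true := ex3_a k4_pm_101 k5_pm_101

theorem s9_pm_101 : ∃ t, chk3 f_pm_101 t 7 2 1 = true := ex3_b s8_pm_101 k6_pm_101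

theorem s10_pm_101 : ∃ t, chk3 f_pm_101 t 6 4 1 = true := ex3_a k1_pm_101 k2_pm_101

theorem s11_pm_101 : ∃ t, chk3 f_pm_101 t 6 2 1 = true := ex3_b s10_pm_101 k3_pm_101

theorem s12_pm_101 : ∃ t, chk3 f_pm_101 t 3 2 1 = true := ex3_a s11_pm_101 s9_pm_101

theorem s13_pm_101 : ∃ t, chk3 f_pm_101 t 3 1 1 = true := ex3_b s12_pm_101 k7_pm_101

theorem s14_pm_101 : ∃ t, chk3 f_pm_101 t 1 1 1 = true := ex3_a k0_pm_101 s13_pm_101

theorem c_pm_101 : CertNX 536870912 536870912 0 536870912 1046898278 26843546 3 true true false .npn 1 0 1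
    ndN0q1 ndN6q0 pcN1 Cut.none Ext.none :=
  certNX2 (fam := true) (s1 := true) (s2 := false) (a := 1) (b := 0) (c := 1) (cn := .npn) (n1 := ndN0q1) (n2 := ndN6q0) (pc := pcN1) (cut := Cut.none) (xt := Ext.none) (P1 := 536870912) (W1 := 536870912) (P2 := 0) (W2 := 536870912) (P3 := 1046898278) (W3 := 26843546) (N0 := 3)
    rfl (fun _ => rfl) s14_pm_101

noncomputable def f_pm_102 : ℕ → ℕ → ℕ → ℕ → Bool := onCell 536870912 536870912 1073741824 536870912 1046898278 26843546
    (rowNX 3 1 true true false .npp 1 0 2 (qsf 536870912 536870912 0 536870912 2) ndN0q1 ndN6q0 pcN2 Cut.none Ext.none)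

def k0_pm_102 : ∃ t, chk3 f_pm_102 t 2 2 1 = true :=
  ⟨(a (b (c (b (a (l 15483624) (l 15432144)) (a (l 14811040) (l 14814040))) (b (a (l 15438216) (l 15384936)) (l 188000911863))) (b (b (b (l 198201418135) (l 2)) (l 2)) (l 2))) (b (b (a (l 15352696) (l 15292472)) (a (l 14782912) (l 14786408))) (b (b (b (l 14435736) (l 14657152)) (l 15341048)) (b (l 16320304) (l 16776576))))), by decide +kernel⟩

def k1_pm_102 : ∃ t, chk3 f_pm_102 t 6 4 1 = true :=
  ⟨(b (a (b (l 15317672) (l 15119864)) (a (l 15088744) (b (l 14957528) (l 14987664)))) (a (l 14790232) (b (l 14926192) (l 14679672)))), by decide +kernel⟩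

def k2_pm_102 : ∃ t, chk3 f_pm_102 t 14 4 1 = true :=
  ⟨(b (b (a (l 15037256) (b (a (l 15102168) (l 15191432)) (l 15272808))) (a (l 15127872) (l 15283096))) (b (a (l 15123896) (l 15067736)) (l 14654216))), by decide +kernel⟩

def k3_pm_102 : ∃ t, chk3 f_pm_102 t 15 8 1 = true :=
  ⟨(a (b (a (b (c (b (l 15122600) (l 15189024)) (l 14927888)) (l 15107592)) (b (c (a (l 15016976) (l 14919632)) (l 14898944)) (a (b (l 14892400) (l 14848040)) (c (b (l 14818664) (l 14763808)) (l 14724688))))) (a (l 14988784) (a (l 14765568) (b (l 14673544) (l 14621440))))) (b (a (a (c (c (b (l 14931176) (l 14794736)) (l 14793640)) (l 14733336)) (c (b (c (b (l 14907288) (l 14849568)) (c (l 14848312) (l 14814976))) (c (l 14747736) (l 14698056))) (l 14684800))) (a (c (b (b (c (b (l 14832152) (l 14810352)) (a (l 14819288) (b (l 14788208) (l 14770944)))) (c (l 14782712) (l 14743432))) (c (l 14695776) (l 14647736))) (c (b (a (l 14742088) (c (l 14724936) (l 14702872))) (l 14593736)) (l 14615192))) (c (b (a (b (b (l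 14774848) (c (l 14758400) (l 14729112))) (c (l 14731272) (l 14697800))) (b (l 14742528) (c (l 14702360) (l 14623056)))) (c (l 14655152) (l 14601952))) (b (c (b (a (b (l 14597392) (l 14698088)) (b (l 14694848) (l 14663560))) (l 14638120)) (b (a (l 14658768) (a (c (l 14655424) (l 14630680)) (c (l 14641672) (l 14368192)))) (l 14587664))) (c (l 14550496) (l 14502800)))))) (a (c (b (a (b (c (l 14711496) (l 14650696)) (l 14652304)) (c (l 14639008) (l 14599320))) (a (l 14617720) (l 14540064))) (b (a (l 14574256) (l 14528904)) (l 14495768))) (c (b (a (l 14562152) (l 14523504)) (a (b (l 14497920) (l 14475464)) (l 14442712))) (b (a (l 14461104) (c (l 14450760) (l 14408144))) (a (b (l 14171232) (l 14379616)) (c (l 14380552) (a (l 14340064) (l 14323968))))))))), by decide +kernel⟩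

def k4_pm_102 : ∃ t, chk3 f_pm_102 t 15 9 1 = true :=
  ⟨(a (a (b (l 14811752) (l 14440248)) (b (l 14543368) (l 14191592))) (b (a (c (a (l 14525952) (c (l 14496808) (l 14458832))) (l 14404096)) (b (c (l 14432368) (a (l 14360664) (l 14315912))) (c (l 14356200) (a (l 14279808) (l 14241016))))) (a (c (a (l 14193624) (l 14136792)) (l 14063320)) (c (l 14082320) (a (l 13989040) (l 13939184)))))), by decide +kernel⟩

def k5_pm_102 : ∃ t, chk3 f_pm_102 t 3 5 1 = true :=
  ⟨(a (b (b (b (l 14476096) (l 14614000)) (a (l 15422096) (l 15444088))) (b (a (l 16326840) (l 16340064)) (l 16772192))) (b (a (b (b (l 14590416) (l 14747472)) (l 15262000)) (a (b (b (a (l 14131208) (l 13889040)) (l 14030680)) (a (l 14769944) (l 14499192))) (b (b (a (c (l 13643784) (l 13773200)) (c (l 13815936) (a (l 13711472) (l 13682488)))) (a (c (l 13977408) (l 13879024)) (c (l 13942464) (a (l 13834128) (l 13822320))))) (a (c (l 14462640) (l 14403528)) (c (l 14468760) (a (l 14371984) (l 14374240))))))) (a (b (a (l 16199224)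 (l 15846488)) (l 16356136)) (b (a (a (l 15514752) (l 15218608)) (a (c (l 14938416) (l 15094152)) (c (l 15101424) (a (l 15032528) (l 15026976))))) (a (l 15588016) (a (c (l 15517120) (l 15478712)) (c (l 15418776) (a (l 15386848) (l 15329160))))))))), by decide +kernel⟩

def k6_pm_102 : ∃ t, chk3 f_pm_102 t 1 3 1 = true :=
  ⟨(a (a (l 2) (b (l 16777216) (l 2))) (a (b (l 16772512) (l 16772512)) (b (a (b (l 16355240) (l 16356280)) (a (b (a (l 15884272) (l 15598200)) (l 15691928)) (a (b (c (l 15508552) (l 15469720)) (l 15453424)) (c (l 15238920) (b (l 15337768) (l 15391736)))))) (a (l 16356592) (a (c (l 15827064) (l 15737344)) (c (a (l 15525080) (l 15447504)) (a (l 15487024) (l 15395384)))))))), by decide +kernel⟩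

theorem s7_pm_102 : ∃ t, chk3 f_pm_102 t 15 4 1 = true := ex3_b k3_pm_102 k4_pm_102

theorem s8_pm_102 : ∃ t, chk3 f_pm_102 t 7 4 1 = true := ex3_a k2_pm_102 s7_pm_102

theorem s9_pm_102 : ∃ t, chk3 f_pm_102 t 3 4 1 = true := ex3_a k1_pm_102 s8_pm_102

theorem s10_pm_102 : ∃ t, chk3 f_pm_102 t 3 2 1 = true := ex3_b s9_pm_102 k5_pm_102

theorem s11_pm_102 : ∃ t, chk3 f_pm_102 t 1 2 1 = true := ex3_a k0_pm_102 s10_pm_102

theorem s12_pm_102 : ∃ t, chk3 f_pm_102 t 1 1 1 = true := ex3_b s11_pm_102 k6_pm_102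

theorem c_pm_102 : CertNX 536870912 536870912 0 536870912 1046898278 26843546 3 true true false .npp 1 0 2
    ndN0q1 ndN6q0 pcN2 Cut.none Ext.none :=
  certNX1 (fam := true) (s1 := true) (s2 := false) (a := 1) (b := 0) (c := 2) (cn := .npp) (n1 := ndN0q1) (n2 := ndN6q0) (pc := pcN2) (cut := Cut.none) (xt := Ext.none) (P1 := 536870912) (W1 := 536870912) (P2 := 0) (W2 := 536870912) (P3 := 1046898278) (W3 := 26843546) (N0 := 3)
    rfl (fun _ => rfl) s12_pm_102

noncomputable def f_pm_112 : ℕ → ℕ → ℕ → ℕ → Bool := onCell 1073741824 536870912 536870912 469762048 1046898278 26843546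
    (rowNX 3 2 true true false .dn 1 1 2 (qsf 536870912 536870912 536870912 469762048 2) ndN0q1 ndN6q1 pcN2 Cut.none Ext.none)

def k0_pm_112 : ∃ t, chk3 f_pm_112 t 1 1 1 = true :=
  ⟨(a (a (b (b (a (b (b (a (l 15683824) (l 15276536)) (a (a (l 1) (l 15600280)) (l 15291400))) (a (l 1) (a (l 1) (b (l 15208968) (l 1))))) (c (a (b (l 14973416) (l 14975616)) (l 14660128)) (b (l 14743880) (l 14741216)))) (b (a (l 1) (a (l 1) (b (l 14613456) (l 1)))) (l 1))) (l 1)) (b (a (b (a (a (c (l 14449688) (l 14367992)) (b (l 14640152) (l 14627120))) (b (l 15396352) (l 15387120))) (a (b (a (l 14390400) (l 14614728)) (l 1)) (b (l 15294472) (l 422547644391)))) (a (b (a (l 16095416) (l 16534072)) (c (a (l 16097872) (l 16534752)) (l 266857267623))) (b (l 16776576) (c (l 16776576) (l 16776552))))) (a (l 1) (b (b (a (a (l 1) (l 16528024)) (l 16776560)) (l 1)) (l 1))))) (b (a (b (a (l 16777216) (l 16773640)) (a (l 16777216) (l 16777216))) (b (a (b (a (l 16674152) (l 16432512)) (l 16762304)) (b (b (a (l 15775016)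 (a (l 15531176) (c (l 15471552) (l 15467824)))) (c (l 16122664) (l 15988720))) (a (l 16631880) (l 16374832)))) (a (l 16777216) (b (l 16747024) (l 16777216))))) (b (a (b (a (l 16777216) (l 16777216)) (a (b (l 368326057751) (l 15511256)) (b (b (l 16714072) (l 16293168)) (l 15553200)))) (b (l 16777216) (b (a (l 16505280) (l 16505280)) (a (l 15553200) (l 15553200))))) (b (a (a (l 1) (b (l 14508888) (l 13939560))) (b (a (l 14529856) (l 14529856)) (l 195448387783))) (a (l 1) (c (b (b (l 13713880) (l 13581040)) (c (l 13628152) (l 13563424))) (b (l 13536064) (l 13454256)))))))), by decide +kernel⟩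

theorem c_pm_112 : CertNX 536870912 536870912 536870912 469762048 1046898278 26843546 3 true true false .dn 1 1 2
    ndN0q1 ndN6q1 pcN2 Cut.none Ext.none :=
  certNX2 (fam := true) (s1 := true) (s2 := false) (a := 1) (b := 1) (c := 2) (cn := .dn) (n1 := ndN0q1) (n2 := ndN6q1) (pc := pcN2) (cut := Cut.none) (xt := Ext.none) (P1 := 536870912) (W1 := 536870912) (P2 := 536870912) (W2 := 469762048) (P3 := 1046898278) (W3 := 26843546) (N0 := 3)
    rfl (fun _ => rfl) k0_pm_112

noncomputable def f_pm_113 : ℕ → ℕ → ℕ → ℕ → Bool := onCell 536870912 536870912 536870912 469762048 1046898278 26843546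
    (rowNX 3 0 true true false .nn 1 1 3 (qsf 536870912 536870912 536870912 469762048 3) ndN0q1 ndN6q1 pcN3 Cut.none Ext.none)

def k0_pm_113 : ∃ t, chk3 f_pm_113 t 1 1 1 = true :=
  ⟨(a (b (l 1) (a (b (l 1) (b (b (l 1) (l 13939560)) (c (b (l 253429862663) (c (l 13628152) (l 13563424))) (b (l 13536064) (l 13454256))))) (b (b (l 16777216) (b (l 16505280) (l 15553200))) (b (a (l 14238360) (l 14028648)) (b (c (b (l 13713880) (l 13581040)) (l 13536064)) (c (a (l 13592992) (l 13592992)) (l 13454256))))))) (b (a (b (l 1) (a (l 16777216) (l 16768224))) (a (b (l 274373245911) (b (l 16356592) (l 16314648))) (b (a (l 309268486871) (c (a (l 15525080) (l 15447504)) (a (l 15487024) (l 15290528)))) (b (a (l 15693400) (c (l 15232720) (l 15343152))) (a (c (l 15827064) (l 15737344)) (l 4)))))) (a (b (b (a (l 16777216) (l 16768224)) (a (b (l 16505280) (l 15553200)) (b (l 16413072) (l 15544952)))) (b (a (b (l 14529856) (l 13939560)) (b (a (l 14529856) (l 14514024)) (a (l 13939560) (l 13923880)))) (c (b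 (a (l 13647752) (b (l 13706440) (l 13573656))) (a (l 13592992) (c (l 38882771303) (l 13555792)))) (a (b (l 13536064) (l 13454256)) (b (a (l 13536064) (l 13519168)) (l 13445616)))))) (b (a (a (b (l 16519464) (b (l 16259384) (l 15320872))) (b (l 16196936) (b (l 15837552) (l 4)))) (b (a (l 4) (l 4)) (l 4))) (b (a (b (a (l 14240656) (l 4)) (l 4)) (l 4)) (l 4)))))), by decide +kernel⟩

theorem c_pm_113 : CertNX 536870912 536870912 536870912 469762048 1046898278 26843546 3 true true false .nn 1 1 3
    ndN0q1 ndN6q1 pcN3 Cut.none Ext.none :=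
  certNX0 (fam := true) (s1 := true) (s2 := false) (a := 1) (b := 1) (c := 3) (cn := .nn) (n1 := ndN0q1) (n2 := ndN6q1) (pc := pcN3) (cut := Cut.none) (xt := Ext.none) (P1 := 536870912) (W1 := 536870912) (P2 := 536870912) (W2 := 469762048) (P3 := 1046898278) (W3 := 26843546) (N0 := 3)
    rfl k0_pm_113

noncomputable def f_pm_123 : ℕ → ℕ → ℕ → ℕ → Bool := onCell 1610612736 536870912 1073741824 536870912 1046898278 26843546
    (rowNX 3 2 true true false .npn 1 2 3 (qsf 536870912 536870912 1073741824 536870912 3) ndN0q1 ndN6q2 pcN3 Cut.none Ext.none)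

def k0_pm_123 : ∃ t, chk3 f_pm_123 t 2 1 1 = true :=
  ⟨(b (b (a (b (a (c (l 14693208) (l 14620056)) (c (l 14693208) (l 14620056))) (a (b (l 14906456) (l 1)) (b (l 14906456) (l 14732584)))) (b (a (b (l 14553992) (l 14756544)) (l 14656704)) (a (b (l 14906456) (l 14732584)) (b (l 14906456) (l 14732584))))) (b (a (b (a (l 1) (l 110087392071)) (l 1)) (b (a (b (l 14569680) (l 14786560)) (b (l 14569680) (l 14786560))) (a (l 15487608) (l 15487608)))) (a (l 1) (b (a (l 16305912) (l 16326880)) (l 16776616))))) (a (l 1) (b (c (l 16777216) (l 16777216)) (l 1)))), by decide +kernel⟩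

def k1_pm_123 : ∃ t, chk3 f_pm_123 t 6 1 1 = true :=
  ⟨(b (b (a (b (l 14488912) (b (l 14906424) (l 14732568))) (b (a (l 14656640) (b (l 14547992) (l 14756488))) (b (l 14906392) (l 14732520)))) (b (a (b (l 14595304) (l 15487592)) (b (b (l 14569616) (l 14786496)) (l 15487616))) (b (a (l 16347864) (l 16347864)) (l 16776640)))) (b (c (l 16777200) (l 16777200)) (c (l 16777216) (l 16777216)))), by decide +kernel⟩

def k2_pm_123 : ∃ t, chk3 f_pm_123 t 7 1 1 = true :=
  ⟨(a (b (b (b (a (b (a (l 14510768) (l 14453360)) (a (l 14756520) (l 14753192))) (a (b (l 14391840) (l 14739624)) (b (a (l 14369296) (l 4)) (l 14686664)))) (a (b (l 14905968) (l 14731368)) (a (b (l 14896112) (l 14717000)) (b (l 14898032) (l 14713496))))) (b (a (b (l 14677768) (l 15485936)) (a (b (l 14660640) (l 15462096)) (b (l 14630496) (l 15452712)))) (a (b (l 16346760) (l 16776088)) (b (l 16306944) (l 16725104))))) (b (a (b (l 16774744) (l 16776272)) (b (l 16712904) (l 16727808))) (a (l 16777064) (l 16777216)))) (b (b (a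 (b (a (b (l 4) (a (l 14783656) (l 4))) (l 4)) (a (b (c (l 47475909319) (l 14890312)) (l 14726032)) (b (l 4) (a (l 14732552) (l 4))))) (l 4)) (b (a (a (b (b (l 14557488) (l 14769920)) (l 15441096)) (b (b (a (l 14567920) (l 4)) (a (l 14782728) (l 14770248))) (a (l 15479216) (l 15469240)))) (a (b (l 4) (l 464625066935)) (l 4))) (a (b (a (l 16313032) (b (l 16123448) (l 16524248))) (a (l 16721040) (l 16741280))) (a (b (c (l 16316648) (l 16269432)) (l 16701376)) (l 4))))) (a (b (a (c (l 16696376) (l 16687520)) (b (l 16742608) (l 16723256))) (c (l 16777216) (l 16777216))) (a (c (b (l 16747800) (l 16777216)) (b (l 16719496) (l 16777216))) (a (b (c (l 16708824) (l 16699680)) (c (l 16777216) (l 16777216))) (b (a (l 16698256) (b (l 4) (a (l 16688704) (l 4)))) (a (c (l 16776768) (l 16776784)) (a (l 16777216) (a (l 16777216) (a (l 16777216) (c (l 16777216) (l 16777216)))))))))))), by decide +kernel⟩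

theorem s3_pm_123 : ∃ t, chk3 f_pm_123 t 3 1 1 = true := ex3_a k1_pm_123 k2_pm_123

theorem s4_pm_123 : ∃ t, chk3 f_pm_123 t 1 1 1 = true := ex3_a k0_pm_123 s3_pm_123

theorem c_pm_123 : CertNX 536870912 536870912 1073741824 536870912 1046898278 26843546 3 true true false .npn 1 2 3
    ndN0q1 ndN6q2 pcN3 Cut.none Ext.none :=
  certNX2 (fam := true) (s1 := true) (s2 := false) (a := 1) (b := 2) (c := 3) (cn := .npn) (n1 := ndN0q1) (n2 := ndN6q2) (pc := pcN3) (cut := Cut.none) (xt := Ext.none) (P1 := 536870912) (W1 := 536870912) (P2 := 1073741824) (W2 := 536870912) (P3 := 1046898278) (W3 := 26843546) (N0 := 3)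
    rfl (fun _ => rfl) s4_pm_123

noncomputable def f_pm_133 : ℕ → ℕ → ℕ → ℕ → Bool := onCell 536870912 536870912 0 1230186008 1046898278 26843546
    (rowNX 3 0 true true false .dn 1 3 3 (qsf 536870912 536870912 0 1230186008 3) ndN0q1 ndN6q3 pcN3 Cut.none Ext.none)

def k0_pm_133 : ∃ t, chk3 f_pm_133 t 1 1 1 = true :=
  ⟨(b (l 2) (b (l 2) (a (b (l 2) (a (b (l 2) (a (b (l 2) (l 16749624)) (l 2))) (l 2))) (l 2)))), by decide +kernel⟩

theorem c_pm_133 : CertNX 536870912 536870912 0 1230186008 1046898278 26843546 3 true true false .dn 1 3 3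
    ndN0q1 ndN6q3 pcN3 Cut.none Ext.none :=
  certNX0 (fam := true) (s1 := true) (s2 := false) (a := 1) (b := 3) (c := 3) (cn := .dn) (n1 := ndN0q1) (n2 := ndN6q3) (pc := pcN3) (cut := Cut.none) (xt := Ext.none) (P1 := 536870912) (W1 := 536870912) (P2 := 0) (W2 := 1230186008) (P3 := 1046898278) (W3 := 26843546) (N0 := 3)
    rfl k0_pm_133

noncomputable def f_pm_202 : ℕ → ℕ → ℕ → ℕ → Bool := onCell 0 536870912 0 536870912 1046898278 26843546
    (rowNX 3 0 true true false .pp 2 0 2 (qsf 0 536870912 0 536870912 2) ndN0q2 ndN6q0 pcN2 Cut.none Ext.none)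

def k0_pm_202 : ∃ t, chk3 f_pm_202 t 2 2 1 = true :=
  ⟨(b (b (a (b (b (c (a (b (l 15592376) (l 15712968)) (b (l 15544808) (l 15676832))) (b (a (c (l 15555584) (l 15531256)) (c (l 15506608) (l 15481328))) (a (l 15676064) (l 15638552)))) (c (a (l 15853096) (l 15847584)) (a (l 15804296) (l 15798280)))) (a (c (l 15901888) (l 16015656)) (c (b (l 15987200) (l 16100408)) (l 16018456)))) (b (b (a (c (b (l 15272784) (l 15454752)) (b (c (a (l 15402904) (l 15304520)) (b (a (l 15335152) (l 15239576)) (l 15360328))) (l 15495224))) (c (b (a (l 15283864) (l 15284648)) (a (b (l 15321712) (l 15387552)) (b (l 15276968) (l 15288392)))) (b (b (c (l 15229280) (l 15198416)) (c (l 15235472) (l 15208552))) (a (c (l 15326112) (l 15292576)) (l 15233400))))) (a (c (l 15574552) (l 15710304)) (c (b (a (l 15523656) (l 15247296)) (l 15603800)) (a (l 15542600) (l 15384048))))) (a (c (l 15827760) (l 16025224)) (c (b (l 15813256) (l 16047832)) (b (l 15765728) (l 16019944)))))) (a (a (l 4) (a (l 4) (b (b (l 16102592)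 (l 16336400)) (l 4)))) (b (a (b (a (l 16247888) (l 16273208)) (l 16375120)) (b (l 16158456) (a (l 16432216) (l 16425576)))) (a (l 16512168) (a (l 16542632) (l 16574664)))))) (a (l 4) (b (a (b (l 16597184) (a (l 4) (l 16608024))) (b (l 16654944) (l 16671824))) (a (l 4) (b (a (l 16683024) (l 16712824)) (l 16777056)))))), by decide +kernel⟩

def k1_pm_202 : ∃ t, chk3 f_pm_202 t 6 4 1 = true :=
  ⟨(b (b (a (b (c (b (l 15381496) (c (l 15341552) (l 15321376))) (b (c (b (l 15350368) (l 15321120)) (c (l 15106072) (l 15301048))) (c (l 15295816) (l 15261056)))) (c (a (b (l 15302808) (l 15355864)) (l 15201160)) (a (b (l 15230608) (l 15279352)) (l 15255816)))) (b (c (b (a (l 15559968) (a (l 15597624) (l 15580432))) (a (c (l 15467016) (l 15450120)) (c (b (l 15529336) (l 15480336)) (l 15446296)))) (b (a (c (l 15519536) (b (l 15519544) (l 15469120))) (c (b (l 15567944) (l 15532384)) (b (c (l 15548144) (l 15493384)) (l 15510336)))) (a (c (l 15426728) (l 15393768)) (c (l 15465432) (l 15432760))))) (b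 (c (a (l 15393936) (l 15401728)) (l 15197456)) (c (l 15249112) (l 15231584))))) (a (b (a (c (l 15558296) (l 15500848)) (c (b (l 15316416) (l 15406792)) (l 15312608))) (c (l 15547328) (l 15718176))) (a (b (c (l 15224800) (l 15176032)) (c (b (l 15264528) (l 15393256)) (l 15287752))) (b (c (l 15160192) (l 15086832)) (c (b (l 15044360) (l 15018632)) (l 14975280)))))) (b (a (b (c (l 16052256) (l 16027448)) (l 16246104)) (a (b (l 15627904) (l 15994640)) (b (b (l 14917888) (l 15236744)) (l 15530288)))) (a (a (b (l 16561336) (l 16634992)) (b (l 16494672) (l 16650248))) (a (b (l 16286096) (l 16519840)) (l 15874032))))), by decide +kernel⟩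

def k2_pm_202 : ∃ t, chk3 f_pm_202 t 14 8 1 = true :=
  ⟨(b (b (c (b (a (l 15413680) (l 15121960)) (a (c (l 15411328) (l 15203864)) (c (l 15116056) (l 15092320)))) (b (c (a (l 15369400) (b (l 15073264) (l 15063472))) (a (b (l 15297408) (l 15342648)) (c (l 14917360) (l 15025528)))) (a (c (l 15368000) (l 15333184)) (c (l 15062336) (l 15021688))))) (c (a (b (c (l 15393432) (l 15361960)) (l 15302696)) (b (l 15051840) (l 15103424))) (a (a (l 15288880) (l 15238888)) (l 15019624)))) (a (b (c (a (l 15148048) (l 15131808)) (l 15063496)) (c (l 14941192) (l 14872568))) (c (b (l 15003024) (l 14818344)) (b (l 14922696) (l 14745216))))), by decide +kernel⟩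

def k3_pm_202 : ∃ t, chk3 f_pm_202 t 15 8 1 = true :=
  ⟨(b (b (c (a (b (a (l 14857520) (c (l 14843824) (l 14790256))) (c (a (l 14866888) (b (l 14798648) (l 14790616))) (c (l 14820624) (l 14775424)))) (c (b (l 14776024) (b (l 14719848) (l 14705184))) (b (a (a (l 14767096) (l 14738560)) (l 14712720)) (a (c (l 14715248) (l 14694464)) (l 14661344))))) (a (b (c (b (l 14780208) (l 14761272)) (b (c (l 14749368) (l 14729168)) (l 14725360))) (c (l 14746984) (l 14700312))) (c (b (a (b (l 14715568) (l 14689400)) (c (l 14686112) (b (l 14678216) (l 14650424)))) (a (l 14664704) (a (l 14635488) (l 14618168)))) (b (a (b (l 14672632) (l 14651056)) (c (b (a (l 14663592) (l 14653576)) (l 14629048)) (b (c (l 14636720) (l 14626472)) (l 14601944)))) (a (l 14615096) (a (l 14587728) (l 14568848))))))) (c (a (c (a (l 14867416) (b (l 14795968) (l 14779496))) (a (l 14800600) (l 14725352))) (a (c (l 14711408) (a (l 14685000) (l 14644792))) (b (l 14648352) (l 14608528)))) (a (l 14683072) (a (l 14580696) (c (l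 14547160) (l 14496960)))))) (a (c (a (b (l 14771352) (l 14645456)) (b (c (l 14730312) (l 14664504)) (c (l 14649144) (l 14595856)))) (b (l 14637344) (l 14542232))) (c (a (c (l 14604416) (b (l 14577080) (l 14522960))) (b (l 14533432) (l 14455968))) (a (b (l 14512432) (l 14464424)) (c (l 14424240) (a (l 14404752) (l 14363592))))))), by decide +kernel⟩

def k4_pm_202 : ∃ t, chk3 f_pm_202 t 7 9 1 = true :=
  ⟨(a (b (a (b (b (l 14779992) (l 14781104)) (l 14889240)) (b (c (l 14646536) (l 14571056)) (a (l 14591992) (l 14408440)))) (a (l 15329144) (b (a (l 14852800) (b (a (l 14451656) (l 14301800)) (l 14529656))) (l 15027048)))) (b (a (c (a (l 14397392) (l 14147592)) (l 14310704)) (c (a (c (l 14405608) (l 14359536)) (l 14346352)) (a (l 14296088) (c (l 14242720) (a (l 14259176) (l 14235952)))))) (a (b (a (b (l 14177112) (a (l 14216744) (l 14103064))) (l 14118168)) (a (l 14386280) (b (a (c (l 13894288) (l 14010416)) (c (l 14054672) (l 13938576))) (a (l 14232264) (c (l 14108400) (l 13993928))))))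 (a (c (a (b (l 14150864) (b (l 14022976) (c (l 14012728) (l 13968264)))) (l 14058136)) (b (l 14057040) (a (l 13903584) (l 13872160)))) (c (l 14046200) (c (l 13974800) (l 13919808))))))), by decide +kernel⟩

def k5_pm_202 : ∃ t, chk3 f_pm_202 t 3 5 1 = true :=
  ⟨(a (b (a (b (l 16675016) (l 16694656)) (b (a (b (l 16647768) (l 16658432)) (b (l 16393232) (l 16500528))) (l 16528120))) (b (a (l 16734768) (l 16487448)) (a (l 16768864) (a (l 16670120) (l 16433488))))) (a (b (b (a (b (l 15973456) (l 16172888)) (l 15384280)) (a (l 16257392) (b (l 15907216) (l 15979648)))) (a (l 16156400) (l 15862184))) (b (a (b (a (l 14939824) (c (l 14571104) (l 14585208))) (a (l 15519160) (l 15100032))) (b (b (a (c (a (l 14202672) (b (l 13940496) (l 14115088))) (a (l 14108976) (b (l 13838440) (l 14019304)))) (c (b (l 13836760) (a (l 13918360) (l 13787536))) (b (a (c (l 13768704) (l 13715160)) (l 13710680)) (a (l 13696800) (a (l 13625736) (l 13641560)))))) (c (a (l 14506000) (l 14120072)) (a (l 14425000) (l 14021720))))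 (c (a (l 14868816) (l 14644488)) (a (l 14932144) (c (l 14588664) (l 14544272)))))) (a (b (a (l 15626312) (c (l 15571208) (l 15514504))) (l 15518720)) (c (b (a (b (l 15398592) (l 15483424)) (b (l 15108104) (l 15311136))) (l 15402552)) (b (a (l 15380760) (b (l 15048104) (a (l 15331408) (l 15192240)))) (a (l 15389856) (l 15323016)))))))), by decide +kernel⟩

def k6_pm_202 : ∃ t, chk3 f_pm_202 t 1 3 1 = true :=
  ⟨(a (l 4) (a (a (b (b (c (l 16777216) (l 16777216)) (l 4)) (l 4)) (b (b (a (l 16709592) (l 16515376)) (c (l 16617984) (l 16612376))) (b (a (l 4) (l 16516872)) (l 2)))) (b (a (b (a (l 16284168) (l 15967752)) (c (l 16166464) (l 16144952))) (b (a (c (l 15557984) (l 15583400)) (c (l 15428040) (a (l 15434584) (l 15331080)))) (a (l 15666704) (c (l 15497336) (l 15297224))))) (a (b (c (l 16166464) (l 16144952)) (c (l 16166464) (l 16144952))) (a (b (l 15666704) (l 15666704)) (c (l 15501008) (b (l 15447880) (l 15447880)))))))), by decide +kernel⟩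

theorem s7_pm_202 : ∃ t, chk3 f_pm_202 t 7 8 1 = true := ex3_a k2_pm_202 k3_pm_202

theorem s8_pm_202 : ∃ t, chk3 f_pm_202 t 7 4 1 = true := ex3_b s7_pm_202 k4_pm_202

theorem s9_pm_202 : ∃ t, chk3 f_pm_202 t 3 4 1 = true := ex3_a k1_pm_202 s8_pm_202

theorem s10_pm_202 : ∃ t, chk3 f_pm_202 t 3 2 1 = true := ex3_b s9_pm_202 k5_pm_202

theorem s11_pm_202 : ∃ t, chk3 f_pm_202 t 1 2 1 = true := ex3_a k0_pm_202 s10_pm_202

theorem s12_pm_202 : ∃ t, chk3 f_pm_202 t 1 1 1 = true := ex3_b s11_pm_202 k6_pm_202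

theorem c_pm_202 : CertNX 0 536870912 0 536870912 1046898278 26843546 3 true true false .pp 2 0 2
    ndN0q2 ndN6q0 pcN2 Cut.none Ext.none :=
  certNX0 (fam := true) (s1 := true) (s2 := false) (a := 2) (b := 0) (c := 2) (cn := .pp) (n1 := ndN0q2) (n2 := ndN6q0) (pc := pcN2) (cut := Cut.none) (xt := Ext.none) (P1 := 0) (W1 := 536870912) (P2 := 0) (W2 := 536870912) (P3 := 1046898278) (W3 := 26843546) (N0 := 3)
    rfl s12_pm_202

noncomputable def f_pm_203 : ℕ → ℕ → ℕ → ℕ → Bool := onCell 0 536870912 1610612736 536870912 1046898278 26843546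
    (rowNX 3 1 true true false .up 2 0 3 (qsf 0 536870912 0 536870912 3) ndN0q2 ndN6q0 pcN3 Cut.none Ext.none)

def k0_pm_203 : ∃ t, chk3 f_pm_203 t 1 1 1 = true :=
  ⟨(a (l 4) (b (a (l 4) (b (b (a (l 16155688) (a (l 15666704) (a (l 15494608) (l 15422360)))) (a (l 4) (l 2))) (l 2))) (l 2))), by decide +kernel⟩

theorem c_pm_203 : CertNX 0 536870912 0 536870912 1046898278 26843546 3 true true false .up 2 0 3
    ndN0q2 ndN6q0 pcN3 Cut.none Ext.none :=
  certNX1 (fam := true) (s1 := true) (s2 := false) (a := 2) (b := 0) (c := 3) (cn := .up) (n1 := ndN0q2) (n2 := ndN6q0) (pc := pcN3) (cut := Cut.none) (xt := Ext.none) (P1 := 0) (W1 := 536870912) (P2 := 0) (W2 := 536870912) (P3 := 1046898278) (W3 := 26843546) (N0 := 3)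
    rfl (fun _ => rfl) k0_pm_203

noncomputable def f_pm_213 : ℕ → ℕ → ℕ → ℕ → Bool := onCell 0 536870912 536870912 469762048 1046898278 26843546
    (rowNX 3 0 true true false .pnn 2 1 3 (qsf 0 536870912 536870912 469762048 3) ndN0q2 ndN6q1 pcN3 Cut.none Ext.none)

def k0_pm_213 : ∃ t, chk3 f_pm_213 t 1 1 1 = true :=
  ⟨(a (l 4) (b (b (a (l 4) (a (l 4) (a (b (l 15666704) (l 4)) (c (b (l 15501008) (l 15501008)) (b (l 15447880) (l 15447880)))))) (l 4)) (l 4))), by decide +kernel⟩

theorem c_pm_213 : CertNX 0 536870912 536870912 469762048 1046898278 26843546 3 true true false .pnn 2 1 3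
    ndN0q2 ndN6q1 pcN3 Cut.none Ext.none :=
  certNX0 (fam := true) (s1 := true) (s2 := false) (a := 2) (b := 1) (c := 3) (cn := .pnn) (n1 := ndN0q2) (n2 := ndN6q1) (pc := pcN3) (cut := Cut.none) (xt := Ext.none) (P1 := 0) (W1 := 536870912) (P2 := 536870912) (W2 := 469762048) (P3 := 1046898278) (W3 := 26843546) (N0 := 3)
    rfl k0_pm_213

noncomputable def f_mm_001 : ℕ → ℕ → ℕ → ℕ → Bool := onCell 0 536870912 0 536870912 1046898278 26843546
    (rowNX 3 0 true false false .up 0 0 1 (qsf 0 536870912 0 536870912 1) ndN0q0 ndN6q0 pcN1 Cut.none Ext.none)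

def k0_mm_001 : ∃ t, chk3 f_mm_001 t 1 1 1 = true :=
  ⟨(l 4), by decide +kernel⟩

theorem c_mm_001 : CertNX 0 536870912 0 536870912 1046898278 26843546 3 true false false .up 0 0 1
    ndN0q0 ndN6q0 pcN1 Cut.none Ext.none :=
  certNX0 (fam := true) (s1 := false) (s2 := false) (a := 0) (b := 0) (c := 1) (cn := .up) (n1 := ndN0q0) (n2 := ndN6q0) (pc := pcN1) (cut := Cut.none) (xt := Ext.none) (P1 := 0) (W1 := 536870912) (P2 := 0) (W2 := 536870912) (P3 := 1046898278) (W3 := 26843546) (N0 := 3)
    rfl k0_mm_001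

noncomputable def f_mm_011 : ℕ → ℕ → ℕ → ℕ → Bool := onCell 0 536870912 536870912 469762048 1046898278 26843546
    (rowNX 3 0 true false false .pnn 0 1 1 (qsf 0 536870912 536870912 469762048 1) ndN0q0 ndN6q1 pcN1 Cut.none Ext.none)

def k0_mm_011 : ∃ t, chk3 f_mm_011 t 1 1 1 = true :=
  ⟨(l 4), by decide +kernel⟩

theorem c_mm_011 : CertNX 0 536870912 536870912 469762048 1046898278 26843546 3 true false false .pnn 0 1 1
    ndN0q0 ndN6q1 pcN1 Cut.none Ext.none :=
  certNX0 (fam := true) (s1 := false) (s2 := false) (a := 0) (b := 1) (c := 1) (cn := .pnn) (n1 := ndN0q0) (n2 := ndN6q1) (pc := pcN1) (cut := Cut.none) (xt := Ext.none) (P1 := 0) (W1 := 536870912) (P2 := 536870912) (W2 := 469762048) (P3 := 1046898278) (W3 := 26843546) (N0 := 3)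
    rfl k0_mm_011

noncomputable def f_mm_012 : ℕ → ℕ → ℕ → ℕ → Bool := onCell 0 536870912 536870912 469762048 1046898278 26843546
    (rowNX 3 0 true false false .pnp 0 1 2 (qsf 0 536870912 536870912 469762048 2) ndN0q0 ndN6q1 pcN2 Cut.none Ext.none)

def k0_mm_012 : ∃ t, chk3 f_mm_012 t 1 1 1 = true :=
  ⟨(l 4), by decide +kernel⟩

theorem c_mm_012 : CertNX 0 536870912 536870912 469762048 1046898278 26843546 3 true false false .pnp 0 1 2
    ndN0q0 ndN6q1 pcN2 Cut.none Ext.none :=
  certNX0 (fam := true) (s1 := false) (s2 := false) (a := 0) (b := 1) (c := 2) (cn := .pnp) (n1 := ndN0q0) (n2 := ndN6q1) (pc := pcN2) (cut := Cut.none) (xt := Ext.none) (P1 := 0) (W1 := 536870912) (P2 := 536870912) (W2 := 469762048) (P3 := 1046898278) (W3 := 26843546) (N0 := 3)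
    rfl k0_mm_012

noncomputable def f_mm_022 : ℕ → ℕ → ℕ → ℕ → Bool := onCell 0 536870912 1073741824 536870912 1046898278 26843546
    (rowNX 3 0 true false false .pp 0 2 2 (qsf 0 536870912 1073741824 536870912 2) ndN0q0 ndN6q2 pcN2 Cut.none Ext.none)

def k0_mm_022 : ∃ t, chk3 f_mm_022 t 1 1 1 = true :=
  ⟨(l 4), by decide +kernel⟩

theorem c_mm_022 : CertNX 0 536870912 1073741824 536870912 1046898278 26843546 3 true false false .pp 0 2 2
    ndN0q0 ndN6q2 pcN2 Cut.none Ext.none :=
  certNX0 (fam := true) (s1 := false) (s2 := false) (a := 0) (b := 2) (c := 2) (cn := .pp) (n1 := ndN0q0) (n2 := ndN6q2) (pc := pcN2) (cut := Cut.none) (xt := Ext.none) (P1 := 0) (W1 := 536870912) (P2 := 1073741824) (W2 := 536870912) (P3 := 1046898278) (W3 := 26843546) (N0 := 3)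
    rfl k0_mm_022

noncomputable def f_mm_023 : ℕ → ℕ → ℕ → ℕ → Bool := onCell 0 536870912 1073741824 536870912 1046898278 26843546
    (rowNX 3 0 true false false .up 0 2 3 (qsf 0 536870912 1073741824 536870912 3) ndN0q0 ndN6q2 pcN3 Cut.none Ext.none)

def k0_mm_023 : ∃ t, chk3 f_mm_023 t 1 1 1 = true :=
  ⟨(l 4), by decide +kernel⟩

theorem c_mm_023 : CertNX 0 536870912 1073741824 536870912 1046898278 26843546 3 true false false .up 0 2 3
    ndN0q0 ndN6q2 pcN3 Cut.none Ext.none :=
  certNX0 (fam := true) (s1 := false) (s2 := false) (a := 0) (b := 2) (c := 3) (cn := .up) (n1 := ndN0q0) (n2 := ndN6q2) (pc := pcN3) (cut := Cut.none) (xt := Ext.none) (P1 := 0) (W1 := 536870912) (P2 := 1073741824) (W2 := 536870912) (P3 := 1046898278) (W3 := 26843546) (N0 := 3)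
    rfl k0_mm_023

noncomputable def f_mm_033 : ℕ → ℕ → ℕ → ℕ → Bool := onCell 0 536870912 0 1230186008 1046898278 26843546
    (rowNX 3 0 true false false .pnn 0 3 3 (qsf 0 536870912 0 1230186008 3) ndN0q0 ndN6q3 pcN3 Cut.none Ext.none)

def k0_mm_033 : ∃ t, chk3 f_mm_033 t 1 1 1 = true :=
  ⟨(l 5), by decide +kernel⟩

theorem c_mm_033 : CertNX 0 536870912 0 1230186008 1046898278 26843546 3 true false false .pnn 0 3 3
    ndN0q0 ndN6q3 pcN3 Cut.none Ext.none :=
  certNX0 (fam := true) (s1 := false) (s2 := false) (a := 0) (b := 3) (c := 3) (cn := .pnn) (n1 := ndN0q0) (n2 := ndN6q3) (pc := pcN3) (cut := Cut.none) (xt := Ext.none) (P1 := 0) (W1 := 536870912) (P2 := 0) (W2 := 1230186008) (P3 := 1046898278) (W3 := 26843546) (N0 := 3)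
    rfl k0_mm_033

noncomputable def f_mm_101 : ℕ → ℕ → ℕ → ℕ → Bool := onCell 536870912 536870912 0 536870912 1046898278 26843546
    (rowNX 3 0 true false false .npn 1 0 1 (qsf 536870912 536870912 0 536870912 1) ndN0q1 ndN6q0 pcN1 Cut.none Ext.none)

def k0_mm_101 : ∃ t, chk3 f_mm_101 t 1 1 1 = true :=
  ⟨(l 4), by decide +kernel⟩

theorem c_mm_101 : CertNX 536870912 536870912 0 536870912 1046898278 26843546 3 true false false .npn 1 0 1
    ndN0q1 ndN6q0 pcN1 Cut.none Ext.none :=
  certNX0 (fam := true) (s1 := false) (s2 := false) (a := 1) (b := 0) (c := 1) (cn := .npn) (n1 := ndN0q1) (n2 := ndN6q0) (pc := pcN1) (cut := Cut.none) (xt := Ext.none) (P1 := 536870912) (W1 := 536870912) (P2 := 0) (W2 := 536870912) (P3 := 1046898278) (W3 := 26843546) (N0 := 3)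
    rfl k0_mm_101

noncomputable def f_mm_102 : ℕ → ℕ → ℕ → ℕ → Bool := onCell 536870912 536870912 0 536870912 1046898278 26843546
    (rowNX 3 0 true false false .npp 1 0 2 (qsf 536870912 536870912 0 536870912 2) ndN0q1 ndN6q0 pcN2 Cut.none Ext.none)

def k0_mm_102 : ∃ t, chk3 f_mm_102 t 1 1 1 = true :=
  ⟨(l 4), by decide +kernel⟩

theorem c_mm_102 : CertNX 536870912 536870912 0 536870912 1046898278 26843546 3 true false false .npp 1 0 2
    ndN0q1 ndN6q0 pcN2 Cut.none Ext.none :=
  certNX0 (fam := true) (s1 := false) (s2 := false) (a := 1) (b := 0) (c := 2) (cn := .npp) (n1 := ndN0q1) (n2 := ndN6q0) (pc := pcN2) (cut := Cut.none) (xt := Ext.none) (P1 := 536870912) (W1 := 536870912) (P2 := 0) (W2 := 536870912) (P3 := 1046898278) (W3 := 26843546) (N0 := 3)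
    rfl k0_mm_102

noncomputable def f_mm_112 : ℕ → ℕ → ℕ → ℕ → Bool := onCell 536870912 536870912 536870912 469762048 1046898278 26843546
    (rowNX 3 0 true false false .dn 1 1 2 (qsf 536870912 536870912 536870912 469762048 2) ndN0q1 ndN6q1 pcN2 Cut.none Ext.none)

def k0_mm_112 : ∃ t, chk3 f_mm_112 t 1 1 1 = true :=
  ⟨(l 4), by decide +kernel⟩

theorem c_mm_112 : CertNX 536870912 536870912 536870912 469762048 1046898278 26843546 3 true false false .dn 1 1 2
    ndN0q1 ndN6q1 pcN2 Cut.none Ext.none :=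
  certNX0 (fam := true) (s1 := false) (s2 := false) (a := 1) (b := 1) (c := 2) (cn := .dn) (n1 := ndN0q1) (n2 := ndN6q1) (pc := pcN2) (cut := Cut.none) (xt := Ext.none) (P1 := 536870912) (W1 := 536870912) (P2 := 536870912) (W2 := 469762048) (P3 := 1046898278) (W3 := 26843546) (N0 := 3)
    rfl k0_mm_112

noncomputable def f_mm_113 : ℕ → ℕ → ℕ → ℕ → Bool := onCell 536870912 536870912 536870912 469762048 1046898278 26843546
    (rowNX 3 0 true false false .nn 1 1 3 (qsf 536870912 536870912 536870912 469762048 3) ndN0q1 ndN6q1 pcN3 Cut.none Ext.none)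

def k0_mm_113 : ∃ t, chk3 f_mm_113 t 1 1 1 = true :=
  ⟨(l 4), by decide +kernel⟩

theorem c_mm_113 : CertNX 536870912 536870912 536870912 469762048 1046898278 26843546 3 true false false .nn 1 1 3
    ndN0q1 ndN6q1 pcN3 Cut.none Ext.none :=
  certNX0 (fam := true) (s1 := false) (s2 := false) (a := 1) (b := 1) (c := 3) (cn := .nn) (n1 := ndN0q1) (n2 := ndN6q1) (pc := pcN3) (cut := Cut.none) (xt := Ext.none) (P1 := 536870912) (W1 := 536870912) (P2 := 536870912) (W2 := 469762048) (P3 := 1046898278) (W3 := 26843546) (N0 := 3)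
    rfl k0_mm_113

noncomputable def f_mm_123 : ℕ → ℕ → ℕ → ℕ → Bool := onCell 536870912 536870912 1073741824 536870912 1046898278 26843546
    (rowNX 3 0 true false false .npn 1 2 3 (qsf 536870912 536870912 1073741824 536870912 3) ndN0q1 ndN6q2 pcN3 Cut.none Ext.none)

def k0_mm_123 : ∃ t, chk3 f_mm_123 t 1 1 1 = true :=
  ⟨(l 4), by decide +kernel⟩

theorem c_mm_123 : CertNX 536870912 536870912 1073741824 536870912 1046898278 26843546 3 true false false .npn 1 2 3
    ndN0q1 ndN6q2 pcN3 Cut.none Ext.none :=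
  certNX0 (fam := true) (s1 := false) (s2 := false) (a := 1) (b := 2) (c := 3) (cn := .npn) (n1 := ndN0q1) (n2 := ndN6q2) (pc := pcN3) (cut := Cut.none) (xt := Ext.none) (P1 := 536870912) (W1 := 536870912) (P2 := 1073741824) (W2 := 536870912) (P3 := 1046898278) (W3 := 26843546) (N0 := 3)
    rfl k0_mm_123

noncomputable def f_mm_133 : ℕ → ℕ → ℕ → ℕ → Bool := onCell 536870912 536870912 0 1230186008 1046898278 26843546
    (rowNX 3 0 true false false .dn 1 3 3 (qsf 536870912 536870912 0 1230186008 3) ndN0q1 ndN6q3 pcN3 Cut.none Ext.none)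

def k0_mm_133 : ∃ t, chk3 f_mm_133 t 1 1 1 = true :=
  ⟨(l 4), by decide +kernel⟩

theorem c_mm_133 : CertNX 536870912 536870912 0 1230186008 1046898278 26843546 3 true false false .dn 1 3 3
    ndN0q1 ndN6q3 pcN3 Cut.none Ext.none :=
  certNX0 (fam := true) (s1 := false) (s2 := false) (a := 1) (b := 3) (c := 3) (cn := .dn) (n1 := ndN0q1) (n2 := ndN6q3) (pc := pcN3) (cut := Cut.none) (xt := Ext.none) (P1 := 536870912) (W1 := 536870912) (P2 := 0) (W2 := 1230186008) (P3 := 1046898278) (W3 := 26843546) (N0 := 3)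
    rfl k0_mm_133

noncomputable def f_mm_202 : ℕ → ℕ → ℕ → ℕ → Bool := onCell 0 536870912 0 536870912 1046898278 26843546
    (rowNX 3 0 true false false .pp 2 0 2 (qsf 0 536870912 0 536870912 2) ndN0q2 ndN6q0 pcN2 Cut.none Ext.none)

def k0_mm_202 : ∃ t, chk3 f_mm_202 t 1 1 1 = true :=
  ⟨(a (b (l 4) (l 4)) (l 4)), by decide +kernel⟩

theorem c_mm_202 : CertNX 0 536870912 0 536870912 1046898278 26843546 3 true false false .pp 2 0 2
    ndN0q2 ndN6q0 pcN2 Cut.none Ext.none :=
  certNX0 (fam := true) (s1 := false) (s2 := false) (a := 2) (b := 0) (c := 2) (cn := .pp) (n1 := ndN0q2) (n2 := ndN6q0) (pc := pcN2) (cut := Cut.none) (xt := Ext.none) (P1 := 0) (W1 := 536870912) (P2 := 0) (W2 := 536870912) (P3 := 1046898278) (W3 := 26843546) (N0 := 3)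
    rfl k0_mm_202

noncomputable def f_mm_203 : ℕ → ℕ → ℕ → ℕ → Bool := onCell 0 536870912 1610612736 536870912 1046898278 26843546
    (rowNX 3 1 true false false .up 2 0 3 (qsf 0 536870912 0 536870912 3) ndN0q2 ndN6q0 pcN3 Cut.none Ext.none)

def k0_mm_203 : ∃ t, chk3 f_mm_203 t 1 1 1 = true :=
  ⟨(l 4), by decide +kernel⟩

theorem c_mm_203 : CertNX 0 536870912 0 536870912 1046898278 26843546 3 true false false .up 2 0 3
    ndN0q2 ndN6q0 pcN3 Cut.none Ext.none :=
  certNX1 (fam := true) (s1 := false) (s2 := false) (a := 2) (b := 0) (c := 3) (cn := .up) (n1 := ndN0q2) (n2 := ndN6q0) (pc := pcN3) (cut := Cut.none) (xt := Ext.none) (P1 := 0) (W1 := 536870912) (P2 := 0) (W2 := 536870912) (P3 := 1046898278) (W3 := 26843546) (N0 := 3)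
    rfl (fun _ => rfl) k0_mm_203

noncomputable def f_mm_213 : ℕ → ℕ → ℕ → ℕ → Bool := onCell 0 536870912 536870912 469762048 1046898278 26843546
    (rowNX 3 0 true false false .pnn 2 1 3 (qsf 0 536870912 536870912 469762048 3) ndN0q2 ndN6q1 pcN3 Cut.none Ext.none)

def k0_mm_213 : ∃ t, chk3 f_mm_213 t 1 1 1 = true :=
  ⟨(l 4), by decide +kernel⟩

theorem c_mm_213 : CertNX 0 536870912 536870912 469762048 1046898278 26843546 3 true false false .pnn 2 1 3
    ndN0q2 ndN6q1 pcN3 Cut.none Ext.none :=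
  certNX0 (fam := true) (s1 := false) (s2 := false) (a := 2) (b := 1) (c := 3) (cn := .pnn) (n1 := ndN0q2) (n2 := ndN6q1) (pc := pcN3) (cut := Cut.none) (xt := Ext.none) (P1 := 0) (W1 := 536870912) (P2 := 536870912) (W2 := 469762048) (P3 := 1046898278) (W3 := 26843546) (N0 := 3)
    rfl k0_mm_213

end Pool.Agent.Strip051.G.IE1.Tab.C.NA06

namespace Pool.Agent.Strip051.G.IE1.Tab.C.NA07

open Pool.Agent.Strip051.PB Pool.Agent.Strip051.PB.T
open Pool.Agent.Strip051.G.IE1.Tab

noncomputable def f_pp_001 : ℕ → ℕ → ℕ → ℕ → Bool := onCell 0 536870912 0 536870912 1046898278 26843546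
    (rowNX 3 0 true true true .up 0 0 1 (qsf 0 536870912 0 536870912 1) ndN0q0 ndN7q0 pcN1 Cut.none Ext.none)

def k0_pp_001 : ∃ t, chk3 f_pp_001 t 1 1 1 = true :=
  ⟨(l 4), by decide +kernel⟩

theorem c_pp_001 : CertNX 0 536870912 0 536870912 1046898278 26843546 3 true true true .up 0 0 1
    ndN0q0 ndN7q0 pcN1 Cut.none Ext.none :=
  certNX0 (fam := true) (s1 := true) (s2 := true) (a := 0) (b := 0) (c := 1) (cn := .up) (n1 := ndN0q0) (n2 := ndN7q0) (pc := pcN1) (cut := Cut.none) (xt := Ext.none) (P1 := 0) (W1 := 536870912) (P2 := 0) (W2 := 536870912) (P3 := 1046898278) (W3 := 26843546) (N0 := 3)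
    rfl k0_pp_001

noncomputable def f_pp_011 : ℕ → ℕ → ℕ → ℕ → Bool := onCell 0 536870912 536870912 536870912 1046898278 26843546
    (rowNX 3 0 true true true .pnn 0 1 1 (qsf 0 536870912 536870912 536870912 1) ndN0q0 ndN7q1 pcN1 Cut.none Ext.none)

def k0_pp_011 : ∃ t, chk3 f_pp_011 t 1 1 1 = true :=
  ⟨(l 4), by decide +kernel⟩

theorem c_pp_011 : CertNX 0 536870912 536870912 536870912 1046898278 26843546 3 true true true .pnn 0 1 1
    ndN0q0 ndN7q1 pcN1 Cut.none Ext.none :=
  certNX0 (fam := true) (s1 := true) (s2 := true) (a := 0) (b := 1) (c := 1) (cn := .pnn) (n1 := ndN0q0) (n2 := ndN7q1) (pc := pcN1) (cut := Cut.none) (xt := Ext.none) (P1 := 0) (W1 := 536870912) (P2 := 536870912) (W2 := 536870912) (P3 := 1046898278) (W3 := 26843546) (N0 := 3)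
    rfl k0_pp_011

noncomputable def f_pp_012 : ℕ → ℕ → ℕ → ℕ → Bool := onCell 0 536870912 536870912 536870912 1046898278 26843546
    (rowNX 3 0 true true true .pnp 0 1 2 (qsf 0 536870912 536870912 536870912 2) ndN0q0 ndN7q1 pcN2 Cut.none Ext.none)

def k0_pp_012 : ∃ t, chk3 f_pp_012 t 1 1 1 = true :=
  ⟨(l 4), by decide +kernel⟩

theorem c_pp_012 : CertNX 0 536870912 536870912 536870912 1046898278 26843546 3 true true true .pnp 0 1 2
    ndN0q0 ndN7q1 pcN2 Cut.none Ext.none :=
  certNX0 (fam := true) (s1 := true) (s2 := true) (a := 0) (b := 1) (c := 2) (cn := .pnp) (n1 := ndN0q0) (n2 := ndN7q1) (pc := pcN2) (cut := Cut.none) (xt := Ext.none) (P1 := 0) (W1 := 536870912) (P2 := 536870912) (W2 := 536870912) (P3 := 1046898278) (W3 := 26843546) (N0 := 3)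
    rfl k0_pp_012

noncomputable def f_pp_022 : ℕ → ℕ → ℕ → ℕ → Bool := onCell 0 536870912 1073741824 536870912 1046898278 26843546
    (rowNX 3 0 true true true .pp 0 2 2 (qsf 0 536870912 1073741824 536870912 2) ndN0q0 ndN7q2 pcN2 Cut.none Ext.none)

def k0_pp_022 : ∃ t, chk3 f_pp_022 t 1 1 1 = true :=
  ⟨(l 4), by decide +kernel⟩

theorem c_pp_022 : CertNX 0 536870912 1073741824 536870912 1046898278 26843546 3 true true true .pp 0 2 2
    ndN0q0 ndN7q2 pcN2 Cut.none Ext.none :=
  certNX0 (fam := true) (s1 := true) (s2 := true) (a := 0) (b := 2) (c := 2) (cn := .pp) (n1 := ndN0q0) (n2 := ndN7q2) (pc := pcN2) (cut := Cut.none) (xt := Ext.none) (P1 := 0) (W1 := 536870912) (P2 := 1073741824) (W2 := 536870912) (P3 := 1046898278) (W3 := 26843546) (N0 := 3)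
    rfl k0_pp_022

noncomputable def f_pp_023 : ℕ → ℕ → ℕ → ℕ → Bool := onCell 0 536870912 1073741824 536870912 1046898278 26843546
    (rowNX 3 0 true true true .up 0 2 3 (qsf 0 536870912 1073741824 536870912 3) ndN0q0 ndN7q2 pcN3 Cut.none Ext.none)

def k0_pp_023 : ∃ t, chk3 f_pp_023 t 1 1 1 = true :=
  ⟨(l 4), by decide +kernel⟩

theorem c_pp_023 : CertNX 0 536870912 1073741824 536870912 1046898278 26843546 3 true true true .up 0 2 3
    ndN0q0 ndN7q2 pcN3 Cut.none Ext.none :=
  certNX0 (fam := true) (s1 := true) (s2 := true) (a := 0) (b := 2) (c := 3) (cn := .up) (n1 := ndN0q0) (n2 := ndN7q2) (pc := pcN3) (cut := Cut.none) (xt := Ext.none) (P1 := 0) (W1 := 536870912) (P2 := 1073741824) (W2 := 536870912) (P3 := 1046898278) (W3 := 26843546) (N0 := 3)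
    rfl k0_pp_023

noncomputable def f_pp_033 : ℕ → ℕ → ℕ → ℕ → Bool := onCell 0 536870912 0 1230186008 1046898278 26843546
    (rowNX 3 0 true true true .pnn 0 3 3 (qsf 0 536870912 0 1230186008 3) ndN0q0 ndN7q3 pcN3 Cut.none Ext.none)

def k0_pp_033 : ∃ t, chk3 f_pp_033 t 1 1 1 = true :=
  ⟨(l 4), by decide +kernel⟩

theorem c_pp_033 : CertNX 0 536870912 0 1230186008 1046898278 26843546 3 true true true .pnn 0 3 3
    ndN0q0 ndN7q3 pcN3 Cut.none Ext.none :=
  certNX0 (fam := true) (s1 := true) (s2 := true) (a := 0) (b := 3) (c := 3) (cn := .pnn) (n1 := ndN0q0) (n2 := ndN7q3) (pc := pcN3) (cut := Cut.none) (xt := Ext.none) (P1 := 0) (W1 := 536870912) (P2 := 0) (W2 := 1230186008) (P3 := 1046898278) (W3 := 26843546) (N0 := 3)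
    rfl k0_pp_033

noncomputable def f_pp_101 : ℕ → ℕ → ℕ → ℕ → Bool := onCell 536870912 536870912 0 536870912 1046898278 26843546
    (rowNX 3 0 true true true .npn 1 0 1 (qsf 536870912 536870912 0 536870912 1) ndN0q1 ndN7q0 pcN1 Cut.none Ext.none)

def k0_pp_101 : ∃ t, chk3 f_pp_101 t 1 1 1 = true :=
  ⟨(l 4), by decide +kernel⟩

theorem c_pp_101 : CertNX 536870912 536870912 0 536870912 1046898278 26843546 3 true true true .npn 1 0 1
    ndN0q1 ndN7q0 pcN1 Cut.none Ext.none :=
  certNX0 (fam := true) (s1 := true) (s2 := true) (a := 1) (b := 0) (c := 1) (cn := .npn) (n1 := ndN0q1) (n2 := ndN7q0) (pc := pcN1) (cut := Cut.none) (xt := Ext.none) (P1 := 536870912) (W1 := 536870912) (P2 := 0) (W2 := 536870912) (P3 := 1046898278) (W3 := 26843546) (N0 := 3)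
    rfl k0_pp_101

noncomputable def f_pp_102 : ℕ → ℕ → ℕ → ℕ → Bool := onCell 536870912 536870912 0 536870912 1046898278 26843546
    (rowNX 3 0 true true true .npp 1 0 2 (qsf 536870912 536870912 0 536870912 2) ndN0q1 ndN7q0 pcN2 Cut.none Ext.none)

def k0_pp_102 : ∃ t, chk3 f_pp_102 t 1 1 1 = true :=
  ⟨(l 4), by decide +kernel⟩

theorem c_pp_102 : CertNX 536870912 536870912 0 536870912 1046898278 26843546 3 true true true .npp 1 0 2
    ndN0q1 ndN7q0 pcN2 Cut.none Ext.none :=
  certNX0 (fam := true) (s1 := true) (s2 := true) (a := 1) (b := 0) (c := 2) (cn := .npp) (n1 := ndN0q1) (n2 := ndN7q0) (pc := pcN2) (cut := Cut.none) (xt := Ext.none) (P1 := 536870912) (W1 := 536870912) (P2 := 0) (W2 := 536870912) (P3 := 1046898278) (W3 := 26843546) (N0 := 3)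
    rfl k0_pp_102

noncomputable def f_pp_112 : ℕ → ℕ → ℕ → ℕ → Bool := onCell 536870912 536870912 536870912 536870912 1046898278 26843546
    (rowNX 3 0 true true true .dn 1 1 2 (qsf 536870912 536870912 536870912 536870912 2) ndN0q1 ndN7q1 pcN2 Cut.none Ext.none)

def k0_pp_112 : ∃ t, chk3 f_pp_112 t 1 1 1 = true :=
  ⟨(l 4), by decide +kernel⟩

theorem c_pp_112 : CertNX 536870912 536870912 536870912 536870912 1046898278 26843546 3 true true true .dn 1 1 2
    ndN0q1 ndN7q1 pcN2 Cut.none Ext.none :=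
  certNX0 (fam := true) (s1 := true) (s2 := true) (a := 1) (b := 1) (c := 2) (cn := .dn) (n1 := ndN0q1) (n2 := ndN7q1) (pc := pcN2) (cut := Cut.none) (xt := Ext.none) (P1 := 536870912) (W1 := 536870912) (P2 := 536870912) (W2 := 536870912) (P3 := 1046898278) (W3 := 26843546) (N0 := 3)
    rfl k0_pp_112

noncomputable def f_pp_113 : ℕ → ℕ → ℕ → ℕ → Bool := onCell 536870912 536870912 536870912 536870912 1046898278 26843546
    (rowNX 3 0 true true true .nn 1 1 3 (qsf 536870912 536870912 536870912 536870912 3) ndN0q1 ndN7q1 pcN3 Cut.none Ext.none)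

def k0_pp_113 : ∃ t, chk3 f_pp_113 t 1 1 1 = true :=
  ⟨(l 4), by decide +kernel⟩

theorem c_pp_113 : CertNX 536870912 536870912 536870912 536870912 1046898278 26843546 3 true true true .nn 1 1 3
    ndN0q1 ndN7q1 pcN3 Cut.none Ext.none :=
  certNX0 (fam := true) (s1 := true) (s2 := true) (a := 1) (b := 1) (c := 3) (cn := .nn) (n1 := ndN0q1) (n2 := ndN7q1) (pc := pcN3) (cut := Cut.none) (xt := Ext.none) (P1 := 536870912) (W1 := 536870912) (P2 := 536870912) (W2 := 536870912) (P3 := 1046898278) (W3 := 26843546) (N0 := 3)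
    rfl k0_pp_113

noncomputable def f_pp_123 : ℕ → ℕ → ℕ → ℕ → Bool := onCell 536870912 536870912 1073741824 536870912 1046898278 26843546
    (rowNX 3 0 true true true .npn 1 2 3 (qsf 536870912 536870912 1073741824 536870912 3) ndN0q1 ndN7q2 pcN3 Cut.none Ext.none)

def k0_pp_123 : ∃ t, chk3 f_pp_123 t 1 1 1 = true :=
  ⟨(l 4), by decide +kernel⟩

theorem c_pp_123 : CertNX 536870912 536870912 1073741824 536870912 1046898278 26843546 3 true true true .npn 1 2 3
    ndN0q1 ndN7q2 pcN3 Cut.none Ext.none :=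
  certNX0 (fam := true) (s1 := true) (s2 := true) (a := 1) (b := 2) (c := 3) (cn := .npn) (n1 := ndN0q1) (n2 := ndN7q2) (pc := pcN3) (cut := Cut.none) (xt := Ext.none) (P1 := 536870912) (W1 := 536870912) (P2 := 1073741824) (W2 := 536870912) (P3 := 1046898278) (W3 := 26843546) (N0 := 3)
    rfl k0_pp_123

noncomputable def f_pp_133 : ℕ → ℕ → ℕ → ℕ → Bool := onCell 536870912 536870912 0 1230186008 1046898278 26843546
    (rowNX 3 0 true true true .dn 1 3 3 (qsf 536870912 536870912 0 1230186008 3) ndN0q1 ndN7q3 pcN3 Cut.none Ext.none)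

def k0_pp_133 : ∃ t, chk3 f_pp_133 t 1 1 1 = true :=
  ⟨(l 4), by decide +kernel⟩

theorem c_pp_133 : CertNX 536870912 536870912 0 1230186008 1046898278 26843546 3 true true true .dn 1 3 3
    ndN0q1 ndN7q3 pcN3 Cut.none Ext.none :=
  certNX0 (fam := true) (s1 := true) (s2 := true) (a := 1) (b := 3) (c := 3) (cn := .dn) (n1 := ndN0q1) (n2 := ndN7q3) (pc := pcN3) (cut := Cut.none) (xt := Ext.none) (P1 := 536870912) (W1 := 536870912) (P2 := 0) (W2 := 1230186008) (P3 := 1046898278) (W3 := 26843546) (N0 := 3)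
    rfl k0_pp_133

noncomputable def f_pp_202 : ℕ → ℕ → ℕ → ℕ → Bool := onCell 0 536870912 0 536870912 1046898278 26843546
    (rowNX 3 0 true true true .pp 2 0 2 (qsf 0 536870912 0 536870912 2) ndN0q2 ndN7q0 pcN2 Cut.none Ext.none)

def k0_pp_202 : ∃ t, chk3 f_pp_202 t 1 1 1 = true :=
  ⟨(l 4), by decide +kernel⟩

theorem c_pp_202 : CertNX 0 536870912 0 536870912 1046898278 26843546 3 true true true .pp 2 0 2
    ndN0q2 ndN7q0 pcN2 Cut.none Ext.none :=
  certNX0 (fam := true) (s1 := true) (s2 := true) (a := 2) (b := 0) (c := 2) (cn := .pp) (n1 := ndN0q2) (n2 := ndN7q0) (pc := pcN2) (cut := Cut.none) (xt := Ext.none) (P1 := 0) (W1 := 536870912) (P2 := 0) (W2 := 536870912) (P3 := 1046898278) (W3 := 26843546) (N0 := 3)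
    rfl k0_pp_202

noncomputable def f_pp_203 : ℕ → ℕ → ℕ → ℕ → Bool := onCell 0 536870912 0 536870912 1046898278 26843546
    (rowNX 3 0 true true true .up 2 0 3 (qsf 0 536870912 0 536870912 3) ndN0q2 ndN7q0 pcN3 Cut.none Ext.none)

def k0_pp_203 : ∃ t, chk3 f_pp_203 t 1 1 1 = true :=
  ⟨(l 4), by decide +kernel⟩

theorem c_pp_203 : CertNX 0 536870912 0 536870912 1046898278 26843546 3 true true true .up 2 0 3
    ndN0q2 ndN7q0 pcN3 Cut.none Ext.none :=
  certNX0 (fam := true) (s1 := true) (s2 := true) (a := 2) (b := 0) (c := 3) (cn := .up) (n1 := ndN0q2) (n2 := ndN7q0) (pc := pcN3) (cut := Cut.none) (xt := Ext.none) (P1 := 0) (W1 := 536870912) (P2 := 0) (W2 := 536870912) (P3 := 1046898278) (W3 := 26843546) (N0 := 3)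
    rfl k0_pp_203

noncomputable def f_pp_213 : ℕ → ℕ → ℕ → ℕ → Bool := onCell 0 536870912 536870912 536870912 1046898278 26843546
    (rowNX 3 0 true true true .pnn 2 1 3 (qsf 0 536870912 536870912 536870912 3) ndN0q2 ndN7q1 pcN3 Cut.none Ext.none)

def k0_pp_213 : ∃ t, chk3 f_pp_213 t 1 1 1 = true :=
  ⟨(l 4), by decide +kernel⟩

theorem c_pp_213 : CertNX 0 536870912 536870912 536870912 1046898278 26843546 3 true true true .pnn 2 1 3
    ndN0q2 ndN7q1 pcN3 Cut.none Ext.none :=
  certNX0 (fam := true) (s1 := true) (s2 := true) (a := 2) (b := 1) (c := 3) (cn := .pnn) (n1 := ndN0q2) (n2 := ndN7q1) (pc := pcN3) (cut := Cut.none) (xt := Ext.none) (P1 := 0) (W1 := 536870912) (P2 := 536870912) (W2 := 536870912) (P3 := 1046898278) (W3 := 26843546) (N0 := 3)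
    rfl k0_pp_213

noncomputable def f_pm_001 : ℕ → ℕ → ℕ → ℕ → Bool := onCell 0 536870912 536870912 536870912 1046898278 26843546
    (rowNX 3 1 true true false .up 0 0 1 (qsf 0 536870912 0 536870912 1) ndN0q0 ndN7q0 pcN1 Cut.none Ext.none)

def k0_pm_001 : ∃ t, chk3 f_pm_001 t 1 2 1 = true :=
  ⟨(a (l 3) (b (l 3) (a (l 3) (b (a (l 3) (a (b (l 3) (a (l 3) (c (c (l 450065596423) (l 447918112775)) (c (l 444696887303) (l 440938790919))))) (c (c (b (b (l 3) (l 461876756487)) (b (a (l 445233758215) (l 16777216)) (l 213842395143))) (b (l 467245465607) (b (l 403894697991) (l 16777216)))) (b (c (l 466708594695) (l 465097981959)) (c (c (l 209010556935) (l 16777216)) (l 363629379591)))))) (a (a (b (l 3) (c (c (b (l 513416364039) (l 408726536199)) (l 424295792647)) (c (l 414095245319) (l 402284085255)))) (c (c (b (b (l 3) (l 436643823623)) (a (l 219747975175) (l 16777216))) (b (l 446307500039) (l 240685940743))) (b (c (l 437180694535) (l 426443276295)) (c (l 16777216) (l 16777216))))) (c (c (a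 (b (a (l 384030474247) (l 16777216)) (l 16777216)) (b (l 16777216) (l 16777216))) (a (b (a (l 378661765127) (l 16777216)) (l 16777216)) (b (l 16777216) (l 16777216)))) (c (a (b (l 231022264327) (l 16777216)) (l 16777216)) (a (b (l 246054649863) (l 16777216)) (l 16777216))))))))), by decide +kernel⟩

def k1_pm_001 : ∃ t, chk3 f_pm_001 t 1 6 1 = true :=
  ⟨(b (a (l 3) (b (a (a (l 3) (a (l 3) (c (a (c (l 441475661831) (l 431275114503)) (c (b (l 435033210887) (l 16777216)) (l 374366797959))) (c (a (l 420000825351) (l 364703121543)) (l 375440539863))))) (c (a (c (a (b (l 16777216) (l 16777208)) (l 16777208)) (a (l 265918873847) (l 16777208))) (c (l 16777200) (l 16777200))) (a (c (a (l 16777216) (l 16777208)) (a (l 16777216) (l 16777208))) (c (l 16777200) (l 16777200))))) (a (a (a (l 3) (a (l 3) (c (c (l 442549403527) (l 436643823495)) (c (l 430201372551) (l 423222050679))))) (c (c (a (b (l 402284084919) (l 312626628247)) (b (l 16776056) (l 16771368))) (a (b (l 396378504887) (l 309405402711))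 (l 16774072))) (a (c (b (l 389936050007) (l 16775200)) (l 341617654743)) (c (l 16774024) (l 16773968))))) (c (a (a (c (l 16771248) (l 16771144)) (l 16768192)) (c (l 16763640) (l 16763400))) (a (c (l 16769504) (l 16769368)) (c (l 16763160) (l 16762920))))))) (a (l 2) (a (a (a (l 2) (a (l 2) (b (c (c (l 229344528215) (l 237934439991)) (c (l 16771400) (l 16771296))) (l 2)))) (a (b (c (c (l 16765824) (l 16765624)) (c (l 16765424) (l 16765216))) (b (c (l 16747960) (l 16746936)) (l 2))) (b (c (c (l 16757760) (l 16757416)) (c (l 16757072) (l 16756720))) (c (b (l 16735848) (l 16631512)) (b (l 16734400) (l 16627872)))))) (c (b (a (a (l 16749240) (l 16740664)) (l 16706336)) (a (b (l 16717064) (a (l 16635152) (l 16638336))) (b (l 16690856) (l 16568720)))) (b (a (c (l 16744120) (l 16743544)) (l 16704584)) (a (b (l 16714952) (a (l 16651864) (l 16633456))) (b (l 16687824) (l 16562872)))))))), by decide +kernel⟩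

def k2_pm_001 : ∃ t, chk3 f_pm_001 t 1 7 1 = true :=
  ⟨(a (l 2) (a (a (l 2) (a (l 2) (b (b (c (l 16368976) (l 16398784)) (l 2)) (l 2)))) (b (b (c (a (a (l 16413608) (l 16394864)) (l 16323824)) (a (a (l 16400832) (l 16381432)) (l 16330344))) (a (c (l 225584593383) (l 15899328)) (c (b (l 16115184) (l 15952496)) (l 15902408)))) (b (b (a (c (l 15815736) (l 15781976)) (c (l 15790640) (l 15756008))) (a (l 2) (c (b (l 15668352) (l 15585752)) (l 15587136)))) (a (l 2) (c (l 15381224) (l 15332224))))))), by decide +kernel⟩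

theorem s3_pm_001 : ∃ t, chk3 f_pm_001 t 1 3 1 = true := ex3_b k1_pm_001 k2_pm_001

theorem s4_pm_001 : ∃ t, chk3 f_pm_001 t 1 1 1 = true := ex3_b k0_pm_001 s3_pm_001

theorem c_pm_001 : CertNX 0 536870912 0 536870912 1046898278 26843546 3 true true false .up 0 0 1
    ndN0q0 ndN7q0 pcN1 Cut.none Ext.none :=
  certNX1 (fam := true) (s1 := true) (s2 := false) (a := 0) (b := 0) (c := 1) (cn := .up) (n1 := ndN0q0) (n2 := ndN7q0) (pc := pcN1) (cut := Cut.none) (xt := Ext.none) (P1 := 0) (W1 := 536870912) (P2 := 0) (W2 := 536870912) (P3 := 1046898278) (W3 := 26843546) (N0 := 3)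
    rfl (fun _ => rfl) s4_pm_001

noncomputable def cut_pm_011 : Cut := Cut.of [[⟨3, 0, 0, 1140850688⟩], [⟨0, 0, 0, 67108864⟩, ⟨1, 1, 0, 67108864⟩, ⟨2, 1, 0, 67108864⟩]]

noncomputable def f_pm_011 : ℕ → ℕ → ℕ → ℕ → Bool := onCell 0 536870912 536870912 536870912 1046898278 26843546
    (rowNX 3 1 true true false .pnn 0 1 1 (qsf 0 536870912 536870912 536870912 1) ndN0q0 ndN7q1 pcN1 cut_pm_011 Ext.none)

def k0_pm_011 : ∃ t, chk3 f_pm_011 t 1 2 1 = true :=
  ⟨(a (l 3) (a (l 6) (l 1))), by decide +kernel⟩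

def k1_pm_011 : ∃ t, chk3 f_pm_011 t 1 6 1 = true :=
  ⟨(a (l 6) (b (a (l 6) (l 1)) (b (a (a (l 6) (a (l 6) (c (l 262563349703) (l 275985120471)))) (l 1)) (b (a (a (l 6) (a (c (l 16747960) (l 16746936)) (c (l 16735848) (l 16734400)))) (l 1)) (a (a (a (l 6) (b (l 6) (c (l 16672840) (l 16669168)))) (c (a (b (l 16725128) (l 16655488)) (l 16631512)) (a (b (l 16723304) (l 16651208)) (l 16627872)))) (a (c (l 265247268087) (l 252899222743)) (l 1))))))), by decide +kernel⟩

def k2_pm_011 : ∃ t, chk3 f_pm_011 t 4 7 1 = true :=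
  ⟨(b (l 6) (a (l 6) (a (l 6) (a (l 6) (b (l 6) (b (l 6) (b (l 6) (b (a (l 6) (b (l 6) (c (l 16194360) (c (l 16179720) (c (c (l 16171408) (l 16168800)) (l 16167168)))))) (c (a (l 16124504) (l 16149160)) (c (l 16122312) (c (a (l 16100920) (l 16126920)) (b (a (l 6) (l 16139216)) (c (l 16094920) (b (l 16100784) (c (l 16085320) (l 16084208)))))))))))))))), by decide +kernel⟩

def k3_pm_011 : ∃ t, chk3 f_pm_011 t 5 14 1 = true :=
  ⟨(a (l 6) (b (l 6) (a (l 6) (a (b (l 6) (c (c (l 16597336) (l 16596384)) (c (l 16595408) (l 16594416)))) (c (b (c (l 16525216) (l 16522560)) (a (l 16540136) (l 16468984))) (b (l 16497520) (l 16498896))))))), by decide +kernel⟩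

def k4_pm_011 : ∃ t, chk3 f_pm_011 t 5 30 1 = true :=
  ⟨(a (a (l 6) (b (l 6) (b (a (l 6) (c (l 16536176) (l 16532088))) (c (c (b (l 16519640) (a (l 16519784) (l 16524112))) (l 16502680)) (a (l 16528296) (l 16512152)))))) (b (a (c (a (b (l 6) (l 16546352)) (l 16570600)) (a (l 16570328) (l 16568376))) (c (a (l 16533792) (l 16392888)) (a (l 16541848) (l 16407088)))) (c (a (b (l 16446120) (c (b (l 16486728) (l 16498600)) (l 16490392))) (b (a (l 16456616) (l 16369320)) (c (a (l 16463240) (l 16355272)) (l 16342792)))) (a (b (l 16463184) (l 16487424)) (a (b (l 16452696) (l 16458144)) (l 16268712)))))), by decide +kernel⟩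

def k5_pm_011 : ∃ t, chk3 f_pm_011 t 10 62 1 = true :=
  ⟨(a (a (l 6) (b (l 6) (c (c (b (c (l 16545472) (l 16453496)) (l 16499344)) (b (c (b (l 16518392) (l 16442792)) (l 16551232)) (c (l 16446192) (c (l 16404312) (l 16407648))))) (a (l 16441688) (l 16496760))))) (c (b (c (c (b (c (l 16486640) (l 16512840)) (l 16564560)) (b (l 16545296) (b (l 16562768) (l 16477848)))) (l 16487352)) (b (c (c (l 16547792) (l 16499152)) (c (b (l 16556656) (a (l 16551888) (l 16521440))) (l 16553176))) (c (l 16523744) (a (c (l 16527416) (b (l 16539840) (l 16520216))) (c (l 16503032) (l 16504896)))))) (b (l 16527040) (a (c (l 16550448) (l 16549136)) (l 16522256))))), by decide +kernel⟩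

def k6_pm_011 : ∃ t, chk3 f_pm_011 t 10 63 1 = true :=
  ⟨(c (a (b (c (a (l 16313464) (l 16426088)) (b (a (a (l 6) (l 16305504)) (c (l 16444760) (l 16397312))) (a (l 16319136) (l 16392816)))) (a (c (l 16242328) (l 16234664)) (l 16314472))) (b (c (a (l 16481920) (l 16477744)) (b (a (c (l 16498896) (l 16473512)) (l 16483712)) (l 16373648))) (a (l 16386528) (l 16417456)))) (b (c (a (b (c (a (c (b (l 16376960) (l 16345208)) (l 16279848)) (c (l 16351464) (l 16395432))) (l 16382744)) (c (a (l 16309968) (l 16385360)) (c (b (l 16273504) (l 16328400)) (b (l 16360984) (l 16266000))))) (b (c (a (a (l 16405216) (l 16500664)) (l 16479440)) (l 16488560)) (c (a (l 16452392) (l 16455392)) (a (c (l 16365376) (l 16450224)) (l 16453544))))) (a (l 16245888) (a (l 16470328) (l 16467432)))) (c (a (b (c (l 16296336) (a (l 16251232) (l 16329448))) (l 16237248)) (b (a (l 16363664) (l 16429368)) (l 16352664))) (a (b (c (b (c (l 16237296) (l 16301392)) (c (l 16273296) (l 16229336))) (l 16284608)) (c (l 16188952)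 (b (c (l 16137904) (l 16240552)) (c (l 16213624) (a (l 16170424) (l 16253200)))))) (b (c (a (b (l 16413856) (l 16326720)) (b (l 16432760) (l 16420208))) (l 16410104)) (c (a (l 16348736) (l 16394008)) (a (b (l 16361496) (l 16270136)) (b (l 16403504) (c (l 16385016) (l 16384320)))))))))), by decide +kernel⟩

def k7_pm_011 : ∃ t, chk3 f_pm_011 t 11 31 1 = true :=
  ⟨(b (c (c (b (b (a (c (c (l 16526144) (l 16518560)) (l 16510184)) (c (a (l 16482688) (l 16384520)) (l 16360696))) (a (c (l 16501080) (c (l 16503624) (l 16509856))) (c (a (l 16457728) (l 16398600)) (a (l 16461032) (l 16389608))))) (a (a (l 16490800) (l 16459536)) (a (l 16432080) (l 16396648)))) (b (a (l 16514768) (a (l 16477984) (l 16370296))) (a (b (c (c (l 16480592) (l 16485552)) (l 16488040)) (c (l 16457160) (a (l 16473920) (l 16443152)))) (c (b (a (l 16438888) (l 16395096)) (l 16347040)) (a (b (l 16443352) (l 16416256)) (l 16310200)))))) (a (c (l 16499144) (l 16497648)) (a (c (l 16453432) (l 16451592)) (l 16333584)))) (c (a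 (b (c (l 16432512) (b (l 16438168) (l 16416096))) (l 16380824)) (b (c (l 16343480) (a (l 16386024) (l 16409696))) (a (l 16343192) (l 16416984)))) (b (c (a (b (c (c (l 16433104) (l 16434416)) (l 16436400)) (c (l 16411272) (b (l 16394048) (l 16381248)))) (b (c (a (l 16393144) (l 16407184)) (l 16432464)) (c (l 16346552) (a (l 16369560) (l 16413792))))) (a (l 16421696) (l 16398400))) (c (a (b (l 16366392) (l 16362416)) (a (l 16336800) (l 16413680))) (a (b (c (b (l 16389544) (l 16315584)) (l 16382744)) (c (l 16359088) (c (l 16273864) (l 16315296)))) (b (c (a (l 16304192) (l 16398728)) (l 16383760)) (c (l 16361768) (b (l 16220208) (a (l 16314080) (l 16394200)))))))))), by decide +kernel⟩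

def k8_pm_011 : ∃ t, chk3 f_pm_011 t 3 14 1 = true :=
  ⟨(a (a (b (a (a (l 6) (b (l 6) (c (b (l 16439328) (l 16363536)) (l 16306392)))) (c (c (l 16323120) (l 16359688)) (b (l 16521624) (l 16370576)))) (a (c (b (a (l 16410616) (b (l 16306480) (l 16268992))) (a (l 16364960) (l 16231112))) (b (a (l 16399328) (l 16273776)) (l 16157096))) (c (b (a (l 16225736) (l 16211256)) (a (l 16111328) (l 16047272))) (b (l 16157968) (a (l 16088560) (l 16021672)))))) (b (c (c (b (l 16526248) (l 16361648)) (l 16270176)) (c (l 16285240) (l 16321184))) (c (a (b (l 16198536) (l 16029256)) (l 16096712)) (c (l 16087464) (l 16075480))))) (a (b (c (a (l 16413608) (l 16394864)) (a (l 16400832) (l 16381432))) (c (a (l 16079648) (l 16062168)) (l 15899328))) (b (l 1) (c (l 410737853079) (l 15902408))))), by decide +kernel⟩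

def k9_pm_011 : ∃ t, chk3 f_pm_011 t 3 30 1 = true :=
  ⟨(a (c (a (c (b (a (l 16227760) (l 15974928)) (b (l 15841872) (a (l 16101848) (l 15882144)))) (b (a (l 16219976) (l 15961568)) (b (l 15872552) (l 15852248)))) (b (a (l 15843880) (l 15830376)) (a (b (l 15712504) (a (l 15691992) (l 15618024))) (b (l 15690808) (l 15611552))))) (a (a (b (l 16082232) (b (l 16141024) (l 16122344))) (b (a (l 16001008) (l 15879264)) (b (l 15868168) (l 15846272)))) (b (a (l 15811128) (l 15797112)) (a (b (l 15675376) (l 15620080)) (l 15611288))))) (b (a (c (l 15815736) (l 15781976)) (c (l 15790640) (l 15756008))) (c (a (b (l 15689128) (c (l 15622496) (l 15602320))) (b (l 15668352) (l 15585752))) (a (l 15526152) (l 15587136))))), by decide +kernel⟩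

def k10_pm_011 : ∃ t, chk3 f_pm_011 t 6 31 1 = true :=
  ⟨(a (b (c (c (b (b (c (a (l 16041720) (l 15898528)) (l 15909008)) (c (a (l 16177768) (l 15903608)) (a (l 16062648) (l 15891736)))) (a (l 16025136) (l 15871704))) (c (b (l 15884520) (b (a (l 16062968) (l 15885264)) (l 15840104))) (b (l 16004760) (a (l 15932864) (l 15792800))))) (a (c (l 16146816) (l 16139024)) (l 15770056))) (c (b (c (l 15822088) (a (l 16006832) (l 15839712))) (a (l 16188536) (l 15891032))) (b (c (b (a (l 15936008) (l 15785288)) (c (l 15874536) (a (l 16045136) (l 15867864)))) (l 15900264)) (b (c (a (l 16134840) (l 15871752)) (c (a (b (l 16172080) (l 16168520)) (l 15841176)) (l 16010160))) (c (l 15963592) (c (l 15894208) (a (b (l 16110408) (l 16157024)) (l 15733104)))))))) (b (c (c (b (a (c (b (l 15555384) (l 15654984)) (b (l 15643112) (l 15641632))) (c (l 15546024) (l 15554344))) (a (l 15636976) (l 15496192))) (b (a (l 15626704) (l 15535088)) (a (c (b (l 15626360) (l 15624488)) (l 15613560)) (c (b (l 15494264)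 (l 15464680)) (l 15468432))))) (a (c (l 15604312) (l 15584704)) (l 15472336))) (c (a (c (l 15627808) (b (l 15612392) (l 15608048))) (b (c (l 15442864) (l 15357952)) (l 15391592))) (b (c (a (c (b (l 15600848) (l 15597832)) (l 15588816)) (c (b (l 15413160) (l 15388560)) (l 15391568))) (l 15307336)) (c (a (l 15590056) (l 15356096)) (b (a (l 15465624) (c (l 15343240) (l 15331128))) (c (l 15448968) (a (l 15565824) (l 15313584))))))))), by decide +kernel⟩

def k11_pm_011 : ∃ t, chk3 f_pm_011 t 7 31 1 = true :=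
  ⟨(a (b (c (c (b (c (b (l 15575928) (l 15540184)) (b (l 15564192) (l 15528872))) (a (l 15485920) (l 15472592))) (b (l 15529536) (c (b (l 15480968) (l 15443856)) (l 15387400)))) (c (l 15469400) (l 15446696))) (a (c (c (l 15377016) (b (l 15390320) (l 15316224))) (b (c (c (b (l 15391392) (l 15354208)) (l 15360120)) (l 15341648)) (c (l 15290832) (a (b (l 15289760) (l 15251880)) (l 15258024))))) (l 15315864))) (c (l 15381224) (l 15332224))), by decide +kernel⟩

theorem s12_pm_011 : ∃ t, chk3 f_pm_011 t 3 31 1 = true := ex3_a k10_pm_011 k11_pm_011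

theorem s13_pm_011 : ∃ t, chk3 f_pm_011 t 3 15 1 = true := ex3_b k9_pm_011 s12_pm_011

theorem s14_pm_011 : ∃ t, chk3 f_pm_011 t 3 7 1 = true := ex3_b k8_pm_011 s13_pm_011

theorem s15_pm_011 : ∃ t, chk3 f_pm_011 t 10 31 1 = true := ex3_b k5_pm_011 k6_pm_011

theorem s16_pm_011 : ∃ t, chk3 f_pm_011 t 5 31 1 = true := ex3_a s15_pm_011 k7_pm_011

theorem s17_pm_011 : ∃ t, chk3 f_pm_011 t 5 15 1 = true := ex3_b k4_pm_011 s16_pm_011

theorem s18_pm_011 : ∃ t, chk3 f_pm_011 t 5 7 1 = true := ex3_b k3_pm_011 s17_pm_011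

theorem s19_pm_011 : ∃ t, chk3 f_pm_011 t 2 7 1 = true := ex3_a k2_pm_011 s18_pm_011

theorem s20_pm_011 : ∃ t, chk3 f_pm_011 t 1 7 1 = true := ex3_a s19_pm_011 s14_pm_011

theorem s21_pm_011 : ∃ t, chk3 f_pm_011 t 1 3 1 = true := ex3_b k1_pm_011 s20_pm_011

theorem s22_pm_011 : ∃ t, chk3 f_pm_011 t 1 1 1 = true := ex3_b k0_pm_011 s21_pm_011

theorem c_pm_011 : CertNX 0 536870912 536870912 536870912 1046898278 26843546 3 true true false .pnn 0 1 1
    ndN0q0 ndN7q1 pcN1 cut_pm_011 Ext.none :=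
  certNX1 (fam := true) (s1 := true) (s2 := false) (a := 0) (b := 1) (c := 1) (cn := .pnn) (n1 := ndN0q0) (n2 := ndN7q1) (pc := pcN1) (cut := cut_pm_011) (xt := Ext.none) (P1 := 0) (W1 := 536870912) (P2 := 536870912) (W2 := 536870912) (P3 := 1046898278) (W3 := 26843546) (N0 := 3)
    rfl (fun _ => rfl) s22_pm_011

end Pool.Agent.Strip051.G.IE1.Tab.C.NA07

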