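import Pool.Agent.Strip051.G.IE1.Tab

/-! # Certificates N24 (generated) -/

set_option linter.all false
set_option maxRecDepth 100000

namespace Pool.Agent.Strip051.G.IE1.Tab.C.NA07

open Pool.Agent.Strip051.PB Pool.Agent.Strip051.PB.T
open Pool.Agent.Strip051.G.IE1.Tab

noncomputable def cut_pm_012 : Cut := Cut.of [[⟨0, 0, 0, 67108864⟩, ⟨1, 1, 0, 67108864⟩, ⟨2, 1, 0, 67108864⟩]]

noncomputable def f_pm_012 : ℕ → ℕ → ℕ → ℕ → Bool := onCell 1073741824 536870912 536870912 536870912 1046898278 26843546
    (rowNX 3 2 true true false .pnp 0 1 2 (qsf 0 536870912 536870912 536870912 2) ndN0q0 ndN7q1 pcN2 cut_pm_012 Ext.none)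

def k0_pm_012 : ∃ t, chk3 f_pm_012 t 4 2 1 = true :=
  ⟨(b (a (b (c (a (l 15454528) (l 15182200)) (a (l 15408104) (l 15126216))) (c (a (l 15555656) (l 15233896)) (a (l 15512776) (l 15179728)))) (b (c (l 14823048) (l 14754456)) (c (a (l 14968208) (l 14679920)) (a (l 14904712) (l 14606304))))) (a (b (b (c (a (l 15687792) (l 15323944)) (a (l 15650528) (l 15273920))) (a (c (l 15814080) (l 15915424)) (c (l 15551560) (l 15512792)))) (b (a (a (b (l 16176192) (b (l 16384624) (c (a (l 16455992) (c (l 16448520) (l 16446688))) (a (c (l 16452208) (l 16449688)) (l 16359768))))) (c (l 16124464) (l 16130328))) (c (l 15704424) (l 15782576))) (a (c (c (a (a (l 16298912) (a (l 16303392) (l 16363344))) (a (l 16328144) (l 16368208))) (a (a (l 16251464) (l 16182864)) (l 16219744))) (a (a (c (l 16183168) (a (l 16252184) (l 16313624))) (c (l 16326184) (l 16343664))) (c (l 16176416) (l 16363360)))) (c (c (a (b (l 16097504) (l 16288096)) (a (l 15893304) (l 15696552))) (a (a (l 16224776) (l 16127624)) (l 15765624))) (a (b (l 15996896)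 (l 16215104)) (b (l 15883472) (l 15867112))))))) (a (b (c (b (l 15017424) (l 15200440)) (b (l 14956640) (l 15149400))) (a (b (l 15489992) (a (c (b (l 15742640) (l 15877472)) (l 15557672)) (l 15688168))) (c (l 15431536) (l 15393216)))) (b (c (l 14784728) (l 14717496)) (c (l 14956800) (l 15097296)))))), by decide +kernel⟩

def k1_pm_012 : ∃ t, chk3 f_pm_012 t 16 12 1 = true :=
  ⟨(c (a (b (a (c (b (l 16148304) (l 16058248)) (b (l 16139344) (l 16047528))) (c (a (l 16049432) (l 16125360)) (a (l 16103760) (l 16118072)))) (a (c (l 16072856) (c (l 16064920) (l 16059712))) (c (a (l 16028640) (l 16003704)) (a (l 16019032) (l 15995416))))) (b (c (a (l 16150416) (l 16186008)) (l 16080112)) (b (a (c (l 15985256) (l 15978736)) (l 15927304)) (c (a (l 15973168) (l 15930520)) (l 15947808))))) (a (b (a (c (b (l 16130720) (a (l 16036240) (l 16030536))) (a (b (l 16113704) (l 16026112)) (l 16057256))) (c (l 16105624) (l 16099176))) (c (a (a (l 16067320) (l 16037784)) (l 16002000)) (a (c (l 16046608) (l 16043064)) (l 15995904))))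 (b (c (l 16033576) (l 16152832)) (c (b (a (l 15973640) (l 15981608)) (l 15942504)) (b (l 15973440) (l 15932752)))))), by decide +kernel⟩

def k2_pm_012 : ∃ t, chk3 f_pm_012 t 16 13 1 = true :=
  ⟨(c (a (b (a (c (b (l 16109536) (l 16061216)) (b (l 16099664) (l 16050400))) (c (b (a (l 16055192) (l 16022736)) (a (l 15999472) (l 15962672))) (b (c (l 16032712) (l 16030224)) (l 15973560)))) (a (c (b (l 15994200) (l 15925304)) (b (l 15982112) (a (l 15938912) (l 15885088)))) (c (a (b (l 15924528) (l 15847192)) (l 15779104)) (c (l 15751488) (l 15832872))))) (b (c (b (a (l 15979232) (l 15928256)) (a (l 15913512) (l 15856104))) (b (l 15951048) (l 15882928))) (c (a (b (l 15827840) (l 15739032)) (l 15715584)) (a (l 15676112) (l 15716832))))) (a (c (b (a (b (a (l 16108760) (l 16072744)) (a (l 16061096) (l 16020352))) (b (l 16028032) (l 15970216))) (a (a (l 15875984) (c (l 15912992) (l 15909232))) (b (l 15892504) (l 15812336)))) (b (a (a (b (l 16100912) (l 16052704)) (b (l 16068000) (l 16015736))) (b (l 16024456) (l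 15967056))) (a (a (c (l 15951424) (l 15864384)) (c (l 15908352) (l 15907528))) (b (l 15889528) (l 15809616))))) (b (c (b (l 15884552) (l 15879904)) (b (l 15938336) (l 15870112))) (c (a (l 15719160) (l 15712608)) (l 15651048))))), by decide +kernel⟩

def k3_pm_012 : ∃ t, chk3 f_pm_012 t 17 6 1 = true :=
  ⟨(b (c (a (b (c (l 16157696) (l 16050200)) (c (b (l 16042656) (l 15923416)) (b (l 16037696) (a (l 15908864) (l 15915952))))) (c (b (a (l 16297128) (l 16117032)) (a (l 16026312) (l 15977848))) (b (l 16193120) (l 15994712)))) (a (b (l 16001560) (c (b (l 16029760) (l 15907600)) (l 15815568))) (b (c (l 16253800) (l 16293416)) (c (l 16007032) (l 16019232))))) (c (b (a (c (b (l 15863304) (l 15781072)) (b (a (l 15879936) (l 15836064)) (l 15775904))) (c (b (a (l 15824552) (l 15831104)) (a (l 15710472) (l 15666824))) (b (l 15800992) (l 15675368)))) (a (c (b (l 15679472) (l 15573552)) (a (l 15654296) (l 15591520))) (c (a (l 15542528) (l 15339944)) (l 15393376)))) (b (a (b (c (l 15847256) (l 15833840)) (c (l 15764304)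 (l 15749248))) (b (c (l 15808680) (l 15795216)) (c (l 15659152) (l 15642720)))) (a (c (l 15587416) (l 15590344)) (c (l 15457648) (l 15458728)))))), by decide +kernel⟩

def k4_pm_012 : ∃ t, chk3 f_pm_012 t 16 28 2 = true :=
  ⟨(a (b (a (c (b (l 15872480) (a (l 15878544) (l 15808208))) (a (b (l 15887360) (l 15863904)) (c (l 15814512) (l 15807296)))) (c (a (c (l 15770992) (l 15763944)) (l 15716048)) (a (l 15755712) (l 15707728)))) (c (a (c (b (a (l 15951064) (l 15861128)) (c (b (l 15991336) (l 15988584)) (l 16017744))) (b (l 15897792) (c (l 16015608) (l 16011712)))) (a (c (b (c (l 15781120) (l 15776840)) (c (l 15881488) (l 15877648))) (a (b (l 15788600) (l 15895672)) (l 15801832))) (c (c (b (l 15714192) (a (l 15814632) (l 15775344))) (l 15754608)) (l 15751088)))) (a (a (l 15992336) (a (l 15921408) (l 15791872))) (a (c (l 15671320) (l 15814248)) (b (l 15702928) (l 15786376)))))) (b (c (a (a (l 15668840) (l 15625016)) (l 15567640)) (a (l 15645456) (l 15570696))) (c (c (a (b (l 15635800) (c (b (l 15674856) (l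 15710624)) (l 15692248))) (c (b (l 15547040) (l 15593184)) (l 15570320))) (a (l 15600520) (l 15572952))) (a (a (l 15687992) (l 15639624)) (l 15577952))))), by decide +kernel⟩

def k5_pm_012 : ∃ t, chk3 f_pm_012 t 32 58 4 = true :=
  ⟨(a (c (b (c (b (c (l 16077976) (l 15967024)) (l 16150096)) (b (l 16105632) (c (b (l 16153320) (l 16196848)) (l 16164464)))) (c (b (c (l 16247056) (l 16330112)) (c (l 16402272) (b (l 16376920) (l 16397944)))) (b (c (l 16282552) (b (l 16195752) (l 16266152))) (l 16275216)))) (b (a (l 16098072) (l 16082976)) (c (b (l 16160784) (c (l 16123696) (b (l 16267672) (l 16241704)))) (l 16145376)))) (c (b (a (c (b (c (l 15996816) (l 15969440)) (l 16086880)) (b (l 15960784) (c (l 16029800) (l 16016792)))) (c (b (c (l 15906512) (l 15879952)) (l 15995264)) (b (l 15872528) (l 15935648)))) (c (a (b (l 16200544) (l 16178416)) (b (l 16023256) (c (l 16195688) (l 16188704)))) (a (c (l 16191152) (b (a (l 16117648) (l 16068216)) (l 16202720))) (b (l 16022576) (l 16133176))))) (a (a (c (b (l 16010112)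 (b (l 16097432) (l 16090696))) (l 16065392)) (c (b (l 15963040) (b (l 16048864) (c (l 16133864) (l 16109320)))) (l 16018760))) (b (l 15898976) (c (b (l 15982832) (l 16015984)) (l 16009368)))))), by decide +kernel⟩

def k6_pm_012 : ∃ t, chk3 f_pm_012 t 32 59 4 = true :=
  ⟨(c (a (b (b (c (l 16462528) (b (c (l 16399616) (l 16427080)) (c (l 16492224) (l 16399040)))) (b (l 16373192) (l 16429344))) (a (b (l 16544464) (l 16570576)) (l 16417544))) (c (a (l 16346136) (l 16268368)) (a (b (b (c (l 16318216) (l 16234392)) (l 16341104)) (l 16361440)) (b (b (l 16166048) (l 16285952)) (l 16326416))))) (c (a (b (b (l 16219104) (b (l 16372888) (a (a (a (l 16552912) (l 16531632)) (l 16513568)) (l 16411520)))) (c (a (l 16574824) (l 16518976)) (b (a (b (l 16543912) (l 16638784)) (b (l 16513720) (l 16561808))) (l 16529600)))) (b (a (b (a (l 16276608) (l 16205160)) (a (l 16324272) (c (l 16292448) (l 16321656)))) (b (l 16157744) (l 16245120))) (a (b (c (l 16435544) (a (l 16465536) (l 16392344))) (l 16384856)) (l 16269592))))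 (a (b (b (c (b (l 16329432) (l 16267528)) (l 16342536)) (c (l 16331016) (b (l 16310768) (a (l 16431496) (l 16389456))))) (b (a (b (l 16504072) (l 16543080)) (b (l 16473584) (l 16423928))) (c (a (l 16616984) (l 16532048)) (b (l 16462608) (a (l 16631416) (l 16580936)))))) (b (b (a (a (c (l 16221432) (l 16210712)) (l 16106248)) (l 16101232)) (a (c (l 16257568) (a (l 16245136) (l 16237792))) (l 16147120))) (a (b (a (l 16357432) (l 16348640)) (a (b (l 16412824) (l 16482584)) (c (l 16466352) (l 16457936)))) (b (l 16299176) (l 16302064))))))), by decide +kernel⟩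

def k7_pm_012 : ∃ t, chk3 f_pm_012 t 32 29 5 = true :=
  ⟨(a (c (b (c (b (l 16127712) (l 16103232)) (l 16059912)) (b (a (b (l 16352904) (c (l 16392800) (l 16433472))) (c (l 16276408) (l 16317912))) (c (b (b (a (c (a (l 16521728) (l 16464192)) (l 16489288)) (l 16319608)) (c (l 16370392) (a (l 16505056) (l 16406472)))) (b (a (l 16488872) (l 16402848)) (l 16494360))) (b (a (l 16492024) (l 16406440)) (c (b (l 16368616) (l 16408920)) (l 16454568)))))) (b (a (l 16233800) (l 16068968)) (b (a (l 16400288) (l 16315264)) (c (a (b (l 16492792) (l 16507872)) (a (l 16404112) (b (l 16381856) (l 16364400)))) (a (l 16498280) (a (l 16444184) (l 16402432))))))) (c (b (a (c (a (b (l 16004888) (l 16121920)) (l 16018392)) (l 16039296)) (l 15953000)) (b (a (c (a (a (l 16251904) (l 16226752)) (l 16191920)) (l 16132632)) (l 16123848)) (c (b (a (a (c (l 16271888) (l 16291144)) (l 16215056)) (l 16123432)) (a (a (b (l 16357688) (l 16454280)) (l 16343160)) (l 16271232))) (b (l 16132160) (a (b (l 16351768) (c (c (l 16330808) (l 16359704))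 (l 16378048))) (l 16275352)))))) (b (l 15829696) (a (b (l 16216544) (l 16232312)) (c (l 16036944) (l 16186008)))))), by decide +kernel⟩

def k8_pm_012 : ∃ t, chk3 f_pm_012 t 33 29 2 = true :=
  ⟨(c (b (c (b (a (c (b (c (l 15784712) (l 15758040)) (l 15870128)) (b (l 15750848) (c (l 15814192) (l 15802104)))) (c (b (c (l 15658696) (l 15633736)) (l 15726200)) (b (l 15629224) (l 15670040)))) (a (c (b (l 15979608) (l 15995176)) (b (c (l 15912352) (l 15853120)) (l 16003280))) (c (b (l 15824568) (l 15773448)) (b (l 15743448) (l 15847984))))) (a (b (a (l 15815208) (l 15737792)) (c (b (l 15772176) (c (l 15874048) (l 15829464))) (l 15841144))) (b (l 15650776) (c (b (l 15707640) (l 15776472)) (l 15735008))))) (c (a (b (c (l 16109416) (b (c (l 16111000) (l 16091096)) (l 16151152))) (l 16171688)) (b (c (l 15946152) (b (l 15938496) (l 15990136))) (l 16004320))) (b (c (a (b (l 15921296) (c (l 16004264) (l 16118352))) (b (l 15871224) (l 15974376))) (a (a (b (l 16011864) (l 16056088)) (b (l 15929928) (l 16014712))) (b (l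 15818792) (l 15901480)))) (a (a (c (l 16239160) (b (l 16206472) (l 16207664))) (c (b (l 16157120) (l 16188496)) (b (l 16121656) (l 16205224)))) (c (l 16053832) (b (l 16006464) (l 16088056))))))) (b (a (c (a (b (l 15815272) (l 15924848)) (l 15795664)) (l 15839216)) (l 15641416)) (c (b (a (a (c (l 16034480) (l 16037448)) (l 15957680)) (l 15844448)) (c (b (a (c (a (l 16143688) (l 16061896)) (l 16040448)) (l 15939896)) (a (a (l 16136152) (l 16158256)) (l 16040712))) (a (c (b (l 16081080) (l 16062064)) (l 16112048)) (l 15957936)))) (a (l 15958264) (l 15907360))))), by decide +kernel⟩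

def k9_pm_012 : ∃ t, chk3 f_pm_012 t 16 14 3 = true :=
  ⟨(a (b (a (b (c (a (b (l 15873088) (l 15849168)) (c (l 15801200) (l 15797088))) (b (c (l 15839816) (l 15837072)) (a (c (l 15839440) (l 15836112)) (l 15776280)))) (c (a (l 15874992) (c (l 15890440) (l 15887592))) (a (c (l 15971960) (l 15781440)) (c (l 15888792) (l 15890080))))) (b (c (l 15730016) (l 15727616)) (b (c (l 15651584) (l 15734592)) (c (l 15808552) (l 15831320))))) (a (c (b (a (c (l 16229624) (l 16183656)) (c (l 16066160) (l 16107864))) (a (b (a (l 16423760) (l 16392000)) (a (l 16513728) (c (l 16481080) (l 16479376)))) (b (c (l 16314248) (l 16316040)) (a (b (l 16389080) (l 16460912)) (c (l 16404008) (l 16408192)))))) (b (a (c (l 16055456) (a (l 16162368) (l 16200376))) (c (l 16133184) (l 16137648))) (a (b (c (a (l 16441280) (l 16390864)) (a (a (l 16432944) (l 16430744)) (l 16395744))) (c (a (l 16511144) (l 16459472)) (a (l 16512272) (l 16486496)))) (c (b (l 16322832) (l 16327736)) (b (l 16329760) (l 16357144)))))) (c (a (b (l 15979616)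 (c (l 16153360) (l 16203984))) (b (l 15963104) (l 16179456))) (b (c (l 16011512) (l 16009568)) (c (a (l 16195064) (l 16214456)) (l 16151720)))))) (b (b (c (a (l 15648160) (l 15566872)) (l 15593480)) (c (a (c (l 15671624) (l 15673024)) (l 15576432)) (a (l 15663248) (l 15559536)))) (c (a (b (c (l 15847088) (l 15851344)) (c (l 16074192) (l 16081832))) (b (c (l 15710320) (l 15705712)) (l 15848584))) (b (a (l 15844352) (l 15693064)) (a (l 16078352) (l 15901096)))))), by decide +kernel⟩

def k10_pm_012 : ∃ t, chk3 f_pm_012 t 17 28 2 = true :=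
  ⟨(c (b (a (l 15463600) (a (l 15363864) (l 15297080))) (c (a (a (l 15492568) (l 15417704)) (a (l 15345992) (a (l 15294240) (l 15258744)))) (a (l 15457464) (l 15304032)))) (a (b (a (l 15497384) (l 15423152)) (a (l 15496880) (l 15414376))) (b (l 15311536) (l 15289504)))), by decide +kernel⟩

def k11_pm_012 : ∃ t, chk3 f_pm_012 t 17 29 2 = true :=
  ⟨(c (c (b (a (b (c (b (l 15443368) (l 15591112)) (b (l 15505528) (l 15534752))) (c (b (l 15669120) (a (l 15767536) (l 15672136))) (b (l 15525104) (l 15668736)))) (b (a (c (l 15446360) (l 15403688)) (c (c (l 15384776) (l 15349200)) (c (l 15327088) (l 15319000)))) (c (a (l 15562488) (b (l 15469688) (l 15509936))) (a (l 15511432) (c (l 15440080) (l 15396224)))))) (a (b (c (l 15743832) (b (a (l 15795696) (l 15680840)) (l 15777664))) (l 15781096)) (a (b (l 15587776) (l 15585176)) (c (l 15488232) (b (l 15510160) (l 15502040)))))) (b (a (b (l 15517552) (c (b (l 15550600) (a (l 15644168) (l 15547808))) (l 15566576))) (c (b (l 15355104) (a (b (l 15425536) (l 15463152))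 (l 15359072))) (l 15368424))) (a (b (c (b (l 15671800) (a (l 15827424) (l 15693224))) (b (a (l 15674640) (l 15558224)) (a (l 15753840) (l 15619392)))) (c (b (l 15818448) (l 15843336)) (b (l 15782880) (l 15797088)))) (b (c (a (b (l 15525448) (l 15594144)) (l 15468248)) (a (b (l 15465784) (l 15515864)) (l 15397568))) (a (c (l 15630560) (b (l 15588048) (l 15644016))) (c (l 15524920) (l 15503072))))))) (b (a (a (l 15508048) (l 15495216)) (l 15356256)) (a (c (b (a (l 15696960) (c (l 15569752) (l 15569336))) (c (b (a (l 15789104) (c (l 15649216) (l 15626800))) (a (l 15887008) (l 15735840))) (a (l 15804600) (c (l 15526200) (l 15645608))))) (a (a (c (l 15791000) (l 15793568)) (l 15713568)) (l 15605216))) (c (b (a (l 15461200) (l 15364056)) (c (b (l 15270456) (l 15384216)) (a (l 15508088) (l 15395976)))) (l 15423464))))), by decide +kernel⟩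

def k12_pm_012 : ∃ t, chk3 f_pm_012 t 17 14 3 = true :=
  ⟨(b (a (b (c (l 15443664) (l 15422552)) (c (l 15439576) (l 15418336))) (b (c (l 15288432) (l 15265000)) (c (l 15265960) (l 15242064)))) (a (b (a (c (l 15582992) (l 15564144)) (l 15467120)) (a (c (l 15744408) (l 15728408)) (c (l 15591512) (l 15573016)))) (c (a (l 15421144) (l 15319832)) (a (l 15399840) (l 15296936))))), by decide +kernel⟩

def k13_pm_012 : ∃ t, chk3 f_pm_012 t 64 60 1 = true :=
  ⟨(b (c (c (c (a (b (c (b (a (l 16509952) (l 16525144)) (c (a (l 16479080) (l 16505664)) (l 16471496))) (l 16566512)) (a (l 6) (b (c (c (l 16489960) (l 16490144)) (l 16535968)) (l 6)))) (c (b (l 16475848) (b (c (l 16460056) (l 16469344)) (a (c (l 16461216) (l 16479472)) (l 16447904)))) (l 16495384))) (c (l 16514480) (l 16524968))) (c (c (b (c (c (l 16551056) (b (l 16563408) (l 16598176))) (a (l 16554576) (l 16513096))) (a (l 16576200) (l 16554072))) (c (b (l 16477712) (b (l 16533240) (a (l 6) (l 16585096)))) (b (b (l 16428032) (l 16429576)) (l 16504200))))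 (c (b (a (l 16519952) (a (l 16472832) (l 16442064))) (c (b (a (l 16498752) (l 16392792)) (l 16432408)) (a (l 16493608) (a (l 16487016) (b (l 16450072) (l 16438120)))))) (a (l 16526240) (a (l 16478272) (a (l 16454792) (l 16441296))))))) (c (a (c (c (l 16525464) (l 16524176)) (l 16523112)) (c (l 16463840) (l 16467472))) (a (c (a (l 16537688) (l 16508408)) (c (l 16505424) (l 16508392))) (c (l 16476664) (l 16486024))))) (a (l 6) (a (l 6) (a (l 6) (b (b (c (c (c (c (l 16435928) (l 16452792)) (l 16489792)) (c (c (l 16537000) (l 16556456)) (c (l 16433056) (l 16453840)))) (c (c (l 16458176) (l 16462600)) (l 16481304))) (l 6)) (l 6)))))), by decide +kernel⟩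

def k14_pm_012 : ∃ t, chk3 f_pm_012 t 65 60 1 = true :=
  ⟨(c (c (b (a (c (a (l 16440024) (c (l 16393744) (l 16394840))) (a (l 16494160) (l 16379448))) (c (b (l 16263680) (a (l 16373256) (l 16345008))) (l 16410720))) (c (b (a (c (a (b (l 16418232) (c (l 16401744) (l 16419904))) (l 16388008)) (l 16413528)) (l 16354792)) (a (a (l 6) (a (l 6) (b (c (l 16374944) (l 16390560)) (l 6)))) (c (a (c (a (l 16308824) (l 16345432)) (l 16361792)) (l 16335976)) (l 16359240)))) (a (a (l 16393872) (c (l 16412992) (l 16436976))) (l 16389584)))) (c (b (c (a (b (a (c (b (l 16532392) (l 16538264)) (l 16467832)) (b (l 16459464) (l 16504240))) (a (l 16465504) (l 16502816))) (b (c (l 16379736) (l 16378944)) (l 16463728))) (c (b (a (l 16344664) (l 16376512)) (a (b (l 16506824) (l 16484856)) (l 16399392))) (b (a (b (l 16337448) (l 16426464)) (l 16257760)) (l 16368120)))) (c (a (l 16399480) (l 16432880)) (c (l 16420848) (b (b (l 16436592) (l 16505704)) (l 16489176))))) (b (c (b (a (l 16400624) (l 16286608)) (a (c (l 16437336) (l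 16417056)) (a (l 16310800) (b (l 16311160) (l 16357448))))) (a (l 16408992) (a (l 16344624) (l 16333496)))) (b (c (c (l 16372824) (a (l 16458936) (l 16410824))) (c (a (l 16432008) (l 16343216)) (l 16382280))) (c (a (c (l 16528296) (l 16476760)) (c (l 16478128) (l 16385384))) (c (l 16354096) (a (l 16407376) (b (l 16390616) (l 16410560))))))))) (c (b (a (c (l 16412840) (l 16423680)) (b (l 16350056) (l 16386128))) (c (a (c (l 16411952) (a (l 16447648) (l 16425160))) (c (l 16391024) (l 16399008))) (l 16429448))) (b (a (c (l 16438184) (l 16442368)) (b (l 16366672) (l 16403944))) (c (l 16441728) (l 16444552))))), by decide +kernel⟩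

def k15_pm_012 : ∃ t, chk3 f_pm_012 t 32 61 1 = true :=
  ⟨(b (b (a (l 6) (a (l 6) (a (l 6) (b (a (l 6) (c (c (c (l 16289344) (l 16354464)) (c (l 16400224) (c (l 16454744) (l 16445856)))) (c (c (l 16396208) (l 16410760)) (l 16418640)))) (l 6))))) (l 6)) (l 6)), by decide +kernel⟩

def k16_pm_012 : ∃ t, chk3 f_pm_012 t 32 31 1 = true :=
  ⟨(l 6), by decide +kernel⟩

def k17_pm_012 : ∃ t, chk3 f_pm_012 t 33 60 1 = true :=
  ⟨(c (c (a (b (c (a (l 16271640) (l 16179048)) (a (l 16330568) (l 16242376))) (a (c (l 16305832) (l 16275896)) (c (b (l 16231224) (l 16255312)) (b (l 16276464) (l 16284920))))) (c (b (l 16010872) (l 16000760)) (b (l 16121192) (l 16129352)))) (c (b (c (a (b (c (a (l 16349912) (l 16265264)) (l 16203768)) (a (l 16329552) (l 16309752))) (b (l 16131568) (l 16188184))) (b (c (l 16017624) (a (l 16149872) (l 16051864))) (a (b (l 16292040) (c (l 16272104) (l 16349520))) (l 16171416)))) (a (c (a (l 16383696) (l 16330112)) (b (a (c (l 16423544) (l 16366656)) (l 16343512)) (l 16392120))) (b (l 16163784)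 (l 16253728)))) (b (c (b (l 16080024) (a (c (l 16176184) (l 16263480)) (l 16071616))) (a (l 16237912) (l 16075552))) (a (c (b (b (l 16233136) (l 16298128)) (c (l 16418864) (l 16307496))) (a (b (l 16262240) (l 16344416)) (b (l 16287192) (l 16223664)))) (c (b (l 16087608) (c (l 16300872) (l 16252128))) (b (l 16164840) (c (l 16261144) (l 16188352)))))))) (c (a (c (b (l 16248624) (a (l 16338704) (l 16266400))) (b (l 16216944) (a (l 16374184) (l 16317744)))) (c (c (a (l 16179184) (l 16032136)) (l 16117584)) (l 16136672))) (a (b (l 16258096) (a (l 16376768) (l 16314672))) (l 16066792)))), by decide +kernel⟩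

def k18_pm_012 : ∃ t, chk3 f_pm_012 t 33 61 1 = true :=
  ⟨(b (c (c (a (b (c (a (c (a (b (l 16311224) (l 16299704)) (l 16287240)) (l 16310616)) (l 16257832)) (l 16281280)) (c (b (a (c (a (l 6) (l 16274560)) (l 16307680)) (l 16233776)) (a (l 6) (c (l 16155384) (l 16260528)))) (l 16301536))) (a (c (l 16214664) (l 16241544)) (l 16155688))) (c (a (a (l 16278480) (l 16325088)) (b (l 16261536) (l 16260600))) (c (a (l 16395824) (l 16312352)) (b (a (c (l 16426184) (l 16406224)) (b (l 16252984) (l 16261272))) (a (l 16422000) (l 16349952)))))) (c (c (c (a (b (c (l 16371792) (l 16355752)) (c (l 16424752) (l 16394640))) (b (a (l 16228480) (c (l 16255808) (l 16237184))) (b (c (l 16344792) (l 16240152)) (l 16244440)))) (a (b (l 16360680) (l 16309376)) (a (b (l 16302888) (l 16274984)) (b (l 16234464) (l 16270808))))) (a (c (a (l 16391184) (l 16353056)) (l 16375288)) (l 16271832))) (a (l 16373632) (l 16224680)))) (a (a (l 6) (b (a (l 6) (b (c (c (c (c (l 16222752) (l 16247600)) (l 16267312)) (l 16328600)) (c (c (c (l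 16407376) (l 16365608)) (l 16352536)) (l 16348288))) (l 6))) (l 6))) (c (c (c (b (a (c (a (b (l 16211232) (l 16179320)) (l 16194088)) (l 16218880)) (l 16178432)) (a (a (l 6) (c (l 16173760) (l 16208256))) (c (l 16144336) (l 16184992)))) (l 16222720)) (c (l 16252512) (l 16300832))) (c (c (c (b (c (l 16358080) (l 16321040)) (l 16339000)) (b (c (l 16237480) (l 16267872)) (c (l 16364128) (l 16332408)))) (c (b (l 16296704) (l 16212264)) (l 16297872))) (l 16293752))))), by decide +kernel⟩

def k19_pm_012 : ∃ t, chk3 f_pm_012 t 33 31 1 = true :=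
  ⟨(a (l 6) (a (l 6) (a (l 6) (b (b (b (c (c (c (c (l 16145552) (l 16179136)) (l 16196520)) (l 16239352)) (c (c (l 16298488) (c (l 16247584) (l 16273488))) (l 16265320))) (l 6)) (l 6)) (l 6))))), by decide +kernel⟩

def k20_pm_012 : ∃ t, chk3 f_pm_012 t 17 30 2 = true :=
  ⟨(c (a (b (c (b (l 15737320) (l 15888288)) (b (l 15887704) (l 15847192))) (a (b (l 16006088) (a (l 16136952) (l 16105088))) (b (l 15907272) (l 15974928)))) (b (a (c (l 15630984) (b (l 15658904) (l 15693216))) (c (b (a (l 15497760) (l 15439744)) (l 15504400)) (l 15529608))) (a (c (l 15778712) (l 15651200)) (c (a (l 15658648) (l 15576288)) (l 15624808))))) (b (a (c (b (c (a (l 15828088) (b (l 15820992) (l 15872160))) (b (a (l 15913680) (l 15691816)) (a (l 16011544) (l 15849408)))) (a (l 15991864) (c (l 15899864) (l 15885112)))) (b (c (a (b (l 15882104) (c (l 15958312) (l 15938632))) (l 15668704)) (a (l 15909168) (l 15736776))) (c (a (b (c (l 16065752) (l 16024016)) (l 16001064)) (b (l 15877080) (l 15951872))) (a (b (l 15868544) (c (l 16092008)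 (l 16057584))) (b (l 15816688) (l 15897032)))))) (c (b (c (a (l 15679328) (l 15536848)) (b (a (l 15590296) (l 15453176)) (l 15353168))) (c (l 15647400) (l 15627032))) (b (c (a (l 15478888) (l 15333568)) (l 15498168)) (c (b (c (l 15639936) (l 15592440)) (l 15647328)) (b (l 15430664) (l 15421720)))))) (a (c (a (b (l 16128384) (l 16167344)) (b (l 15938440) (l 15987256))) (b (c (a (l 16178800) (l 16000504)) (a (b (l 15977488) (l 16159360)) (l 15898344))) (a (a (l 16201456) (l 16101528)) (l 16059888)))) (c (a (l 15818608) (l 15639120)) (b (c (l 15729424) (b (l 15546032) (l 15762376))) (l 15779504)))))), by decide +kernel⟩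

def k21_pm_012 : ∃ t, chk3 f_pm_012 t 17 30 3 = true :=
  ⟨(c (b (a (c (a (l 15812048) (l 15591152)) (l 15842328)) (a (c (b (l 15561320) (l 15653696)) (l 15599224)) (l 15447280))) (a (c (b (c (b (a (l 16070656) (l 15926136)) (c (l 15977168) (l 15920688))) (a (l 15955504) (l 15935576))) (c (a (b (l 16147520) (l 16250040)) (l 16047400)) (b (c (a (l 16169680) (l 16058584)) (a (l 16135504) (l 16023400))) (a (l 16195792) (l 16051064))))) (b (l 16001208) (b (a (l 16098592) (l 16006152)) (c (a (c (l 16227336) (l 16206512)) (l 15927448)) (l 16041712))))) (c (b (c (b (c (l 15662632) (l 15640136)) (c (l 15756288) (l 15718464))) (b (l 15635632) (l 15559384))) (c (b (l 15756600) (l 15821328)) (b (c (l 15755408) (l 15740032)) (a (l 15923720) (l 15735552))))) (b (l 15652664) (c (a (l 15663904) (l 15560416)) (l 15745656)))))) (a (b (l 15601328) (a (b (l 16110056) (l 16183832)) (l 15971560))) (b (a (l 15585640) (l 15426464)) (l 15499080)))), by decide +kernel⟩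

def k22_pm_012 : ∃ t, chk3 f_pm_012 t 34 62 1 = true :=
  ⟨(b (c (c (a (c (a (c (b (l 16136672) (a (l 6) (l 16115792))) (b (l 16155440) (l 16151248))) (b (l 16115936) (l 16071328))) (l 16154304)) (b (l 16052696) (l 16074528))) (a (c (l 16176984) (l 16201416)) (c (a (l 16118360) (l 16059688)) (l 16096984)))) (c (c (a (l 16231648) (l 16016080)) (c (b (a (c (l 16262320) (l 16243536)) (c (l 16147320) (b (l 16108112) (l 16146408)))) (l 16116824)) (b (a (l 16212672) (l 15949816)) (c (b (l 16087824) (l 16208608)) (a (l 16223568) (l 16123144)))))) (a (l 16139344) (l 16051344)))) (a (b (b (a (l 6) (b (c (c (c (l 16067288) (l 16141664)) (l 16166704)) (c (c (l 16186136) (l 16119192)) (l 16180392))) (l 6))) (l 6)) (l 6)) (c (c (c (a (c (b (l 16074720) (a (l 6) (l 16051512))) (l 16087904)) (l 15985344)) (l 16090232)) (c (l 16102088) (l 16105392))) (c (c (l 16108984) (c (l 16120312) (b (l 16144168) (l 16124584)))) (c (c (b (c (l 16134128) (l 16113264)) (c (l 16140160) (l 16133576))) (c (l 16113872) (l 16110128))) (l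 16107216)))))), by decide +kernel⟩

def k23_pm_012 : ∃ t, chk3 f_pm_012 t 35 62 1 = true :=
  ⟨(c (c (a (b (c (l 15918328) (l 15928704)) (a (l 16024152) (l 15965984))) (c (a (l 15841768) (l 15754272)) (l 15795336))) (a (b (l 15916688) (l 15952992)) (b (l 15748552) (l 15835728)))) (c (c (b (a (l 15962272) (l 15771368)) (a (l 15995584) (l 15834472))) (b (c (b (c (l 15852808) (l 15642952)) (l 15759808)) (b (a (l 15917832) (l 15725816)) (c (a (l 15999256) (l 15803952)) (l 15644528)))) (b (c (l 15874504) (a (l 15900384) (l 15844888))) (a (l 16016568) (l 15866352))))) (b (l 15581264) (c (c (b (c (a (b (l 15998296) (l 16029896)) (l 15833224)) (l 15859512)) (a (c (l 16037464) (l 15924968)) (c (l 15885352) (l 15814224)))) (a (b (l 15991416) (c (l 16012848) (l 16006712))) (l 15833992))) (a (l 15991280) (l 15826280)))))), by decide +kernel⟩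

def k24_pm_012 : ∃ t, chk3 f_pm_012 t 17 63 1 = true :=
  ⟨(a (a (l 6) (b (b (b (a (l 6) (c (c (c (l 15975240) (l 16076096)) (l 16084840)) (c (l 16081752) (c (c (l 16100480) (l 16077136)) (l 16081440))))) (l 6)) (l 6)) (l 6))) (c (c (a (b (c (a (b (l 16013288) (a (l 6) (l 15993192))) (l 15977848)) (l 16014904)) (a (l 6) (a (l 6) (c (b (l 15955344) (l 6)) (l 15982840))))) (b (a (l 15943744) (l 15880048)) (c (a (b (l 15936512) (a (l 6) (l 15913408))) (l 15830080)) (l 15920616)))) (a (l 16014784) (b (l 15897800) (l 15911376)))) (c (b (a (l 16005672) (c (l 15888680) (l 15887048))) (c (l 15954960) (l 15949144))) (c (b (c (a (l 16014256) (b (l 15898224) (l 15895616))) (b (c (a (l 16024960) (b (l 15902672) (l 15913128))) (a (l 16016040) (l 15895008))) (a (l 16008208) (c (l 15901816) (l 15903112))))) (c (l 15944808) (b (l 15944760) (l 15942016)))) (b (b (l 15939680) (c (c (b (l 15958976) (l 15791144)) (l 15948760)) (l 15945272))) (c (b (c (l 15925752) (b (a (l 16001536) (l 15899648)) (l 15940992))) (l 15940872))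 (b (l 15943976) (a (l 6) (b (c (l 15881560) (l 15884960)) (c (l 15879064) (l 15880768))))))))))), by decide +kernel⟩

def k25_pm_012 : ∃ t, chk3 f_pm_012 t 9 12 1 = true :=
  ⟨(b (a (c (a (b (c (l 15788472) (l 15843424)) (c (l 16168544) (l 16164576))) (a (b (l 15650576) (l 15926752)) (b (l 15538888) (l 15731056)))) (a (b (c (l 15856264) (l 15889896)) (l 16011592)) (b (b (l 15674344) (l 15521816)) (a (l 15975344) (l 15817176))))) (b (l 15213736) (a (a (c (a (l 15758904) (l 15444800)) (a (l 15736504) (l 15671792))) (c (l 15588904) (l 15582016))) (c (a (l 15498288) (l 15387656)) (l 15415512))))) (a (c (a (a (l 15877200) (l 15881496)) (c (l 15950592) (l 15988656))) (a (a (l 15947224) (l 15932664)) (c (l 16026656) (l 16064608)))) (a (c (a (b (a (l 16007440) (l 15941944)) (l 15935672)) (b (l 15831096) (l 16096312))) (a (b (l 15961656) (l 16095360)) (l 15824480))) (c (b (c (l 15577112) (l 15606296)) (l 15766056)) (b (l 15398648) (l 15855592)))))), by decide +kernel⟩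

def k26_pm_012 : ∃ t, chk3 f_pm_012 t 9 13 1 = true :=
  ⟨(a (c (b (a (b (c (l 15854432) (l 15842416)) (c (l 15393400) (l 15565400))) (c (b (l 15890336) (l 15619744)) (b (l 15879824) (l 15603488)))) (a (c (a (l 15411600) (l 15280864)) (a (l 15390608) (l 15300296))) (c (b (a (l 15344440) (l 15322768)) (l 15094416)) (b (l 15295632) (l 15089168))))) (b (a (b (c (l 15830248) (l 15817912)) (c (l 15590392) (l 15573200))) (c (b (l 15869168) (l 15587016)) (l 15506560))) (a (c (a (l 15369328) (l 15277472)) (a (l 15347752) (l 15254336))) (c (b (l 15294416) (l 15062600)) (b (l 15271920) (l 15035656)))))) (c (b (a (a (b (c (l 15888752) (l 15921752)) (c (l 15648000) (l 15632848))) (b (l 15977744) (l 15692080))) (b (l 15941352) (l 15661840))) (a (a (c (b (l 15330320) (l 14898872)) (b (l 15308656) (l 14997024))) (c (l 15216896) (l 15193376))) (c (l 15233240) (l 15296384)))) (b (a (a (b (c (l 15912696) (l 15903512)) (l 15567736)) (l 15564488)) (b (l 16059160) (l 15724336))) (b (a (a (l 15233592) (l 15329584)) (l 15436584))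 (a (a (a (l 14958976) (l 14943040)) (l 14979936)) (l 15087832)))))), by decide +kernel⟩

def k27_pm_012 : ∃ t, chk3 f_pm_012 t 18 14 1 = true :=
  ⟨(c (b (b (a (c (l 15146520) (l 15120624)) (c (l 14934008) (l 14904384))) (c (a (c (l 15106112) (l 15092200)) (c (l 14860656) (l 14844576))) (a (l 15072040) (l 14821120)))) (c (c (b (a (b (c (a (l 15255912) (l 15110880)) (l 15136344)) (c (b (l 15275808) (l 15311864)) (c (l 15237928) (l 15108096)))) (a (b (l 14959544) (c (l 15064200) (l 15000616))) (b (l 14831576) (c (l 14924072) (l 14866264))))) (a (c (l 15273128) (b (b (l 15258168) (l 15308424)) (l 15276560))) (b (c (l 14990104) (a (l 15061984) (l 14911384))) (l 14938136)))) (b (a (c (b (l 15123936) (b (l 15139088) (l 15081784))) (l 15126928)) (c (l 14859056) (l 14842152))) (a (b (c (b (l 15218512) (l 15219328)) (b (l 15157400) (l 15027120))) (c (l 15299008) (b (l 15258712) (l 15236440)))) (b (c (b (l 14912872) (l 14855024)) (l 14868312)) (a (c (l 15047072) (l 15015632)) (c (l 14886928) (l 14855248))))))) (c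 (b (a (l 15117096) (l 14830416)) (c (b (l 14799384) (a (b (l 15011760) (l 15089264)) (b (l 14851024) (l 14897616)))) (a (l 15154720) (l 14828088)))) (a (l 15123280) (l 14814656))))) (b (a (b (c (l 15094376) (l 15067744)) (c (l 15044848) (l 15017256))) (b (c (l 14874352) (l 14843904)) (c (l 14789496) (l 14757416)))) (a (c (a (l 15186792) (l 15021904)) (a (l 15161648) (l 14993840))) (c (a (l 14865440) (l 14717744)) (a (l 14834600) (l 14684272)))))), by decide +kernel⟩

def k28_pm_012 : ∃ t, chk3 f_pm_012 t 18 15 2 = true :=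
  ⟨(b (c (a (b (a (c (l 15323536) (l 15354440)) (c (l 15129312) (l 15159736))) (a (b (l 15365760) (l 15433944)) (b (l 15125584) (l 15163288)))) (b (c (a (l 14948712) (l 14776816)) (b (c (l 14904408) (l 14933328)) (l 14857488))) (c (a (l 14923744) (l 14725064)) (a (l 14921120) (l 14720656))))) (b (b (c (a (c (a (l 15380464) (l 15193544)) (b (c (l 15229008) (l 15189312)) (l 15056096))) (c (a (l 15013008) (l 14840264)) (b (l 14858760) (l 14857504)))) (a (a (c (l 15280048) (l 15263496)) (l 15086168)) (l 14819480))) (c (a (c (l 15269336) (b (l 15064704) (l 15285976))) (c (l 14891360) (a (l 14997776) (l 14813664)))) (a (c (a (b (l 15348680) (l 15397976)) (b (l 15149592) (l 15183816))) (b (l 15188256) (a (l 15337120) (l 15124232)))) (c (b (l 14788744) (a (l 14987952) (l 14802840))) (l 14828944))))) (c (a (a (l 15413856) (l 15095104)) (a (l 14929224) (l 14731552))) (a (b (c (l 15154976) (a (b (l 15405056) (l 15448904)) (b (l 15166456) (l 15189656)))) (a (l 15455400) (l 15179608))) (b (c (l 14870488) (a (b (l 14964040)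 (l 14971128)) (l 14722448))) (a (l 14934760) (l 14723768))))))) (c (a (b (a (l 15473784) (l 15120816)) (a (b (l 15690776) (a (l 15814896) (l 15683632))) (b (l 15382696) (l 15459496)))) (a (b (c (l 14994136) (l 14980496)) (l 15115192)) (b (b (l 14710792) (l 14742136)) (l 14818688)))) (b (a (c (a (l 15547360) (l 15253448)) (a (l 15545584) (l 15249088))) (c (a (l 14969592) (l 14708216)) (a (l 14962704) (l 14698992)))) (a (a (b (l 15674704) (l 15729528)) (b (l 15361216) (l 15439472))) (c (a (l 15095600) (l 14795128)) (a (l 15082424) (l 14779272))))))), by decide +kernel⟩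

def k29_pm_012 : ∃ t, chk3 f_pm_012 t 18 30 3 = true :=
  ⟨(b (a (c (a (l 15266792) (l 15064696)) (a (l 15242872) (l 15037208))) (c (l 14744448) (l 14753952))) (c (c (a (b (c (a (b (l 15345536) (l 15357752)) (b (l 15108864) (l 15054096))) (l 15142376)) (c (a (l 15483240) (l 15204216)) (b (c (l 15126384) (l 15277168)) (a (l 15497048) (l 15211424))))) (c (a (b (l 14932840) (l 14742216)) (b (l 14738544) (l 14734520))) (b (l 14788952) (b (l 14821784) (a (l 14945576) (l 14728696)))))) (a (b (l 15214040) (c (l 15058984) (l 15273272))) (a (l 14885032) (l 14677312)))) (a (a (l 15361120) (l 15094944)) (l 14500432)))), by decide +kernel⟩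

def k30_pm_012 : ∃ t, chk3 f_pm_012 t 18 31 6 = true :=
  ⟨(b (c (a (b (a (l 15528800) (l 15090912)) (l 15217856)) (b (c (a (l 14943384) (l 14694352)) (a (l 14958848) (l 14701992))) (a (l 14979792) (l 14697288)))) (a (b (c (b (c (l 15239560) (a (l 15512776) (l 15222248))) (a (l 15561776) (l 15262368))) (b (l 15334000) (c (a (l 15553856) (l 15256512)) (l 15379080)))) (c (l 15185792) (b (c (l 15439536) (l 15206096)) (l 15247280)))) (b (c (b (l 14828144) (a (l 14971664) (l 14701872))) (b (l 14785008) (l 14802336))) (c (a (l 14987688) (l 14698984)) (c (l 14634992) (a (l 14981944) (l 14693976))))))) (a (c (a (b (l 15662776) (l 15718088)) (l 15384424)) (a (b (l 15659256) (l 15710376)) (b (l 15339936) (l 15414032)))) (c (a (l 15069312) (l 14763464)) (b (c (l 14875832) (a (l 15028368) (l 14726672))) (l 14930888))))), by decide +kernel⟩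

def k31_pm_012 : ∃ t, chk3 f_pm_012 t 18 31 7 = true :=
  ⟨(b (c (b (a (l 15341192) (l 14779312)) (a (c (b (l 15168624) (c (l 15299136) (a (l 15618128) (l 15304952)))) (l 15398208)) (c (b (l 14826568) (l 14854944)) (l 14816072)))) (a (l 15285464) (l 14785816))) (a (c (b (c (a (b (l 15650984) (l 15677720)) (l 15261528)) (b (c (a (l 15654408) (l 15334384)) (l 15463800)) (c (l 15307176) (a (l 15682320) (l 15355040))))) (a (c (l 15704640) (b (l 15702016) (l 15711088))) (c (l 15406400) (b (l 15384944) (l 15422088))))) (b (b (l 15468568) (c (a (l 15512920) (l 15352472)) (l 15505032))) (c (b (c (a (l 15703256) (l 15376040)) (b (l 15373112) (l 15548680))) (a (l 15663424) (l 15367536))) (b (a (l 15698728) (l 15379728)) (a (c (b (l 15708824) (l 15699976)) (b (l 15707480) (l 15703992))) (c (l 15414496) (l 15368352))))))) (c (b (c (a (l 14903096) (c (l 14721368) (l 14722888))) (b (l 14864896) (c (l 14877392) (l 14882000)))) (c (l 14694152) (c (l 14750176) (b (l 14894432) (l 14927872))))) (b (c (l 14606608) (l 14849856))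 (c (b (l 14750176) (a (l 15070352) (l 14739000))) (b (l 14890752) (c (l 14917472) (l 14912192)))))))), by decide +kernel⟩

def k32_pm_012 : ∃ t, chk3 f_pm_012 t 19 14 1 = true :=
  ⟨(c (b (a (b (a (c (l 14796984) (l 14764984)) (l 14628816)) (a (c (c (l 14699816) (l 14682312)) (l 14656704)) (c (l 14656832) (l 14622176)))) (b (c (l 14821264) (l 14790640)) (c (l 14656544) (l 14622416)))) (b (a (c (a (c (b (c (l 14733096) (l 14682624)) (c (a (l 14827296) (a (l 14783608) (l 14763400))) (l 14739840))) (c (l 14670752) (l 14653000))) (c (b (l 14675824) (l 14725736)) (l 14624080))) (a (l 14631280) (l 14590512))) (c (c (b (l 14672896) (l 14722264)) (l 14621184)) (l 14587944))) (b (c (c (a (a (a (c (l 14811584) (l 14804384)) (c (l 14747872) (b (l 14757072) (l 14744984)))) (b (l 14736856) (l 14717952))) (b (l 14739528) (l 14710248))) (a (a (c (l 14729544) (l 14658104)) (l 14663224)) (l 14659320))) (a (a (l 14609464) (l 14563640)) (l 14560032))) (c (a (a (c (a (l 14750656) (a (l 14696928) (l 14672400))) (c (a (l 14771280)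 (a (l 14715504) (l 14690224))) (a (l 14745440) (l 14680200)))) (c (l 14667064) (c (l 14685688) (l 14664512)))) (c (l 14653560) (l 14664368))) (a (c (a (c (l 14662104) (l 14601968)) (l 14605496)) (l 14559496)) (c (l 14601032) (l 14530680))))))) (b (a (a (b (c (l 14732544) (l 14699656)) (c (l 14622184) (l 14587176))) (b (l 14689352) (l 14569552))) (b (c (l 14759608) (l 14728136)) (l 14570592))) (a (a (c (l 14581704) (l 14545808)) (l 14518760)) (c (l 14534376) (l 14498312))))), by decide +kernel⟩

def k33_pm_012 : ∃ t, chk3 f_pm_012 t 19 15 2 = true :=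
  ⟨(b (c (a (a (b (c (a (l 14653712) (a (l 14594112) (l 14567072))) (a (b (l 14717648) (l 14640888)) (b (a (l 14658216) (l 14630720)) (l 14567296)))) (a (l 14584248) (c (l 14503008) (l 14496592)))) (b (c (l 14565680) (b (l 14623368) (l 14553704))) (l 14480504))) (b (c (c (l 14555976) (l 14567912)) (c (l 14573544) (l 14581672))) (c (l 14474672) (l 14476048)))) (a (b (c (a (b (c (b (l 14696496) (a (l 14722848) (l 14650416))) (l 14644856)) (a (c (l 14672256) (l 14681240)) (a (l 14609728) (c (l 14579128) (l 14589064))))) (b (l 14607472) (c (l 14571584) (l 14584720)))) (a (b (l 14575760) (c (l 14621504) (l 14568856))) (b (l 14522512) (l 14545216)))) (a (c (a (l 14592936) (a (l 14525392) (c (l 14479296) (l 14494032)))) (b (c (a (l 14632336) (a (l 14563472) (l 14531912))) (a (l 14626944) (l 14547904))) (a (l 14575904) (a (l 14503456) (l 14428016))))) (c (c (l 14478672) (l 14489272)) (b (c (l 14525208) (l 14527912)) (l 14461304))))) (c (b (b (l 14602168) (c (l 14559344) (l 14583992))) (c (l 14476176) (l 14412072)))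 (b (b (l 14517376) (l 14539136)) (c (b (l 14518696) (l 14442672)) (b (l 14520832) (l 14449344))))))) (c (a (a (b (a (l 14551304) (a (l 14469488) (l 14412760))) (a (l 14603056) (a (l 14497512) (l 14445584)))) (b (l 14406624) (l 14417384))) (b (l 14417368) (a (l 14364552) (l 14372472)))) (b (a (a (c (a (l 14527496) (a (l 14444560) (l 14408328))) (a (l 14516640) (a (l 14432952) (l 14396408)))) (c (l 14402224) (l 14398480))) (c (l 14392120) (c (l 14389176) (l 14386232)))) (a (a (a (l 14567664) (a (l 14460192) (l 14407336))) (c (l 14388472) (l 14369024))) (c (l 14351320) (l 14331688)))))), by decide +kernel⟩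

def k34_pm_012 : ∃ t, chk3 f_pm_012 t 19 30 3 = true :=
  ⟨(c (a (b (a (l 14531408) (l 14475640)) (c (c (a (b (l 14557136) (b (l 14565064) (a (l 14572168) (l 14481768)))) (b (l 14495704) (l 14476672))) (a (b (l 14510104) (l 14527352)) (l 14461008))) (a (l 14488288) (l 14424192)))) (b (l 14470360) (c (b (l 14478312) (l 14458512)) (l 14416856)))) (a (a (l 14475280) (l 14414656)) (l 14408800))), by decide +kernel⟩

def k35_pm_012 : ∃ t, chk3 f_pm_012 t 19 31 3 = true :=
  ⟨(a (c (b (b (c (a (a (c (l 14529176) (l 14533104)) (a (l 14453512) (c (l 14416488) (l 14419584)))) (c (l 14407640) (l 14412696))) (a (c (l 14488760) (l 14466008)) (l 14384584))) (a (a (c (l 14501104) (c (l 14496144) (l 14490392))) (c (a (l 14411664) (l 14373592)) (c (a (l 14403408) (l 14363280)) (a (l 14400968) (l 14365968))))) (c (l 14367240) (c (l 14354176) (l 14359520))))) (a (a (c (l 14540968) (c (l 14528472) (l 14529848))) (b (c (l 14387392) (c (l 14377656) (a (l 14396376) (l 14342784)))) (c (l 14423256) (l 14404160)))) (c (l 14349592)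 (b (c (l 14332320) (l 14317200)) (l 14338064))))) (c (b (b (l 14396072) (a (c (b (l 14439048) (l 14440272)) (l 14415112)) (l 14344136))) (b (c (b (l 14382544) (a (a (l 14498696) (c (l 14364536) (l 14365968))) (l 14299704))) (a (b (l 14429616) (l 14434600)) (l 14309328))) (a (a (c (l 14536528) (c (l 14524080) (l 14498608))) (c (a (l 14422960) (l 14366184)) (a (c (l 14408848) (l 14382192)) (c (l 14351328) (l 14303792))))) (c (l 14321048) (b (l 14303136) (l 14200592)))))) (b (a (l 14406968) (l 14327360)) (a (b (l 14412704) (c (l 14361656) (b (l 14430080) (l 14443520)))) (b (l 14295480) (c (l 14303304) (l 14290048))))))) (c (b (c (c (b (l 14390776) (l 14357448)) (b (l 14406424) (l 14343952))) (b (l 14312408) (c (l 14340976) (l 14348944)))) (c (c (l 14316880) (l 14316320)) (c (b (l 14306848) (l 14289784)) (b (l 14290184) (l 14282744))))) (b (c (b (l 14351600) (l 14333624)) (l 14317712)) (c (b (c (l 14302032) (l 14288920)) (b (c (l 14257640) (l 14260296)) (c (l 14258880) (c (l 14249616) (l 14249712))))) (b (l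 14275064) (c (l 14250824) (b (l 14245856) (l 14232960)))))))), by decide +kernel⟩

def k36_pm_012 : ∃ t, chk3 f_pm_012 t 5 2 1 = true :=
  ⟨(a (b (a (a (c (l 14490648) (l 14410392)) (l 2)) (l 2)) (a (a (b (c (l 14564288) (l 14489328)) (c (l 14883624) (l 14826272))) (b (c (l 14775688) (l 14708160)) (c (l 15071616) (l 15021144)))) (b (c (l 15461736) (l 15461800)) (a (c (l 15542856) (l 15509616)) (l 15751512))))) (b (l 2) (a (b (b (l 2) (l 16434872)) (b (l 16301272) (l 16038520))) (b (l 2) (l 15999920))))), by decide +kernel⟩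

def k37_pm_012 : ∃ t, chk3 f_pm_012 t 10 6 1 = true :=
  ⟨(a (b (b (a (l 15165152) (l 15338504)) (a (c (b (c (l 15299888) (l 15366816)) (a (l 15646864) (l 15432472))) (b (c (l 15349584) (l 15332056)) (l 15373816))) (b (l 15504560) (a (c (l 15320920) (l 15504208)) (b (l 15707904) (c (l 15727904) (l 15774336))))))) (a (c (b (b (c (l 15849400) (l 15842320)) (l 15721672)) (b (l 15455648) (l 15085984))) (b (b (l 15810360) (l 15855608)) (c (l 15352768) (l 15377408)))) (c (b (a (b (l 15796744) (l 15902520)) (b (l 15771216) (l 15703552))) (a (c (l 15433264) (l 15438072)) (c (l 15223424) (l 15288784)))) (b (a (b (l 15781008) (l 15890600)) (b (l 15950872) (l 15769640))) (a (l 15224592) (c (l 15311936) (l 15292880))))))) (b (b (a (l 15802792) (l 16047800)) (a (b (l 15960904) (c (a (l 15973816) (l 15931944)) (l 15902488))) (l 15793688))) (b (c (a (b (a (l 15923104) (l 15792176)) (l 15580880)) (b (l 15360216) (l 15310248))) (a (b (l 15714504) (l 15574464)) (b (l 15560400) (l 15311968)))) (c (a (c (l 15168176) (l 15145456))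 (c (l 14922776) (l 14894296))) (a (l 14880008) (l 14850776)))))), by decide +kernel⟩

def k38_pm_012 : ∃ t, chk3 f_pm_012 t 20 14 1 = true :=
  ⟨(c (a (b (b (c (l 14941608) (l 14914296)) (c (l 14708968) (l 14676656))) (c (c (b (b (l 14674320) (l 14720760)) (c (l 14675376) (l 14693968))) (b (l 14622128) (b (l 14657464) (l 14661704)))) (c (b (l 14597984) (c (l 14608128) (l 14555320))) (l 14561528)))) (b (a (b (l 14947392) (c (l 14715920) (l 14684192))) (b (l 14727480) (c (l 14632344) (l 14598968)))) (c (b (a (c (b (l 14636264) (l 14654112)) (l 14573440)) (c (b (l 14555336) (l 14545560)) (l 14474192))) (a (c (l 14620008) (b (l 14590112) (l 14597840))) (c (l 14486488) (b (l 14391224) (l 14463096))))) (a (b (l 14540328) (c (l 14532440) (l 14472920))) (b (l 14439648) (c (b (l 14362400) (l 14398344)) (l 14335544))))))) (a (b (b (l 14872536) (c (l 14644128) (l 14611136))) (c (l 14535296) (l 14499912))) (b (a (b (l 14893776) (l 14636032)) (b (l 14795808) (l 14548296))) (a (c (l 14479072) (l 14442992)) (c (l 14361848)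 (l 14323544)))))), by decide +kernel⟩

def k39_pm_012 : ∃ t, chk3 f_pm_012 t 20 30 1 = true :=
  ⟨(c (a (c (b (c (b (l 14574128) (l 14531208)) (c (l 14558000) (l 14574168))) (c (l 14468040) (c (l 14470184) (l 14467464)))) (b (c (b (l 14598848) (l 14569608)) (b (l 14514336) (l 14534992))) (c (c (l 14460136) (l 14436776)) (c (l 14468728) (l 14464928))))) (c (a (b (c (b (l 14508184) (l 14468272)) (l 14509552)) (c (l 14423728) (b (l 14423952) (l 14399040)))) (b (c (a (a (l 14423168) (l 14384376)) (l 14317944)) (l 14391880)) (c (a (l 14352184) (l 14270240)) (a (a (l 14356408) (l 14318248)) (l 14251216))))) (b (c (a (l 14474776) (b (l 14407376) (l 14387416))) (a (l 14473672) (b (l 14321232) (l 14351280)))) (b (a (l 14431144) (l 14059352)) (c (a (l 14377776) (c (l 14163152) (l 14270328))) (l 14340872)))))) (a (c (b (l 14467176) (c (b (l 14473184) (l 14452032)) (l 14411296))) (l 14404936)) (c (c (b (l 14247264) (a (b (l 14419664) (l 14402680)) (b (l 14297880) (l 14287112)))) (a (l 14380168) (l 14254208))) (a (l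 14348256) (l 14220568))))), by decide +kernel⟩

def k40_pm_012 : ∃ t, chk3 f_pm_012 t 20 31 1 = true :=
  ⟨(c (a (c (c (l 14396280) (l 14377512)) (b (c (l 14394368) (c (l 14381400) (l 14366992))) (c (l 14334896) (l 14315336)))) (c (a (c (l 14358480) (l 14339520)) (a (a (l 14309096) (l 14275784)) (l 14213800))) (a (b (c (l 14351896) (c (l 14330192) (l 14316712))) (c (l 14301488) (l 14287592))) (b (c (a (a (l 14303120) (l 14267160)) (l 14201544)) (a (a (b (l 14287792) (l 14265608)) (l 14238192)) (l 14172792))) (c (l 14211608) (a (l 14238472) (l 14160504))))))) (b (b (a (c (c (a (l 14390904) (l 14396952)) (l 14388528)) (l 14334472)) (c (c (l 14299648) (a (l 14343232) (l 14233216))) (l 14149984))) (c (a (c (c (l 14337120) (l 14329008)) (l 14338648)) (a (c (l 14287552) (l 14297856)) (l 14198936))) (a (c (l 14324384) (l 14293784)) (a (l 14266344) (c (l 14179360) (l 14147640)))))) (c (c (a (c (l 14310696) (l 14299560)) (a (c (l 14275584) (l 14257120)) (a (a (c (l 14237328) (l 14218408)) (l 14192768)) (l 14127520))))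 (b (a (c (l 14285208) (l 14288536)) (l 14209088)) (a (c (l 14274648) (l 14252680)) (a (c (l 14234512) (l 14219440)) (c (a (l 14182992) (l 14103392)) (l 14138560)))))) (a (c (b (c (l 14291000) (l 14277944)) (c (c (l 14243432) (l 14246096)) (l 14240152))) (b (l 14264192) (c (l 14232368) (l 14218976)))) (c (b (a (l 14245464) (l 14043864)) (l 14169696)) (b (a (l 14227704) (l 14130120)) (a (c (l 14200792) (l 14187336)) (c (l 14111056) (l 14097224))))))))), by decide +kernel⟩

def k41_pm_012 : ∃ t, chk3 f_pm_012 t 21 7 1 = true :=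
  ⟨(b (c (b (b (a (l 14675640) (l 14433312)) (c (a (l 14461816) (l 14228168)) (l 14306872))) (c (b (c (b (l 14278296) (c (l 14304440) (l 14239936))) (l 14193416)) (c (a (l 14272488) (l 14035064)) (b (c (l 14165680) (l 14091896)) (a (l 14221200) (l 13976432))))) (b (l 14154592) (c (b (l 14048688) (a (l 14154056) (l 13906808))) (l 13997936))))) (b (a (b (l 14610472) (l 14368816)) (b (l 14357488) (l 14122608))) (a (c (l 14160344) (l 14118056)) (l 13890840)))) (c (c (b (b (a (c (b (l 14128208) (l 14075216)) (l 14129760)) (l 13822392)) (a (c (a (l 14140120) (l 13963416)) (c (l 14033176) (l 14025400))) (c (a (l 13786352) (l 13612896)) (l 13642200)))) (c (a (l 14017872) (l 13567624)) (b (a (l 14011088) (l 13663312)) (l 13824320)))) (b (b (b (c (a (l 14142016) (l 13852256)) (a (l 14053272) (l 13760616))) (c (l 13834024) (a (l 14083488) (l 13748432)))) (c (a (c (l 14029736) (l 14038184)) (l 13687624)) (b (l 13896128) (l 13845232)))) (a (c (b (a (l 14069536) (l 13893544)) (l 13970240)) (b (b (l 13977752) (l 13945792))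 (c (l 13956280) (l 13940520)))) (b (c (l 13610984) (l 13620544)) (c (l 13638472) (l 13603256)))))) (b (c (b (a (l 14005080) (l 13691680)) (c (b (a (l 14030440) (l 13671808)) (c (l 13860432) (l 13838864))) (l 13792216))) (a (l 13946496) (l 13612064))) (c (b (c (l 13794896) (b (c (l 13807072) (l 13781488)) (l 13760912))) (b (a (c (l 13786624) (l 13905328)) (l 13571408)) (a (c (l 13912032) (c (l 13894112) (l 13887520))) (c (l 13570736) (l 13552856))))) (b (b (l 13730832) (a (l 13899024) (l 13542560))) (c (b (c (l 13728232) (l 13712672)) (l 13700800)) (b (l 13695128) (c (l 13684632) (l 13501048))))))))), by decide +kernel⟩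

def k42_pm_012 : ∃ t, chk3 f_pm_012 t 11 6 1 = true :=
  ⟨(a (b (c (l 15387616) (l 15476920)) (a (b (b (l 15313536) (c (l 15090720) (l 15037184))) (c (c (l 14674736) (l 14640320)) (l 14588272))) (b (l 14936192) (c (b (l 14549144) (l 14246552)) (l 14317208))))) (b (c (l 15417536) (l 15369648)) (b (l 14734712) (a (c (a (l 14250912) (l 14249272)) (l 14161136)) (l 14204720))))), by decide +kernel⟩

def k43_pm_012 : ∃ t, chk3 f_pm_012 t 22 7 1 = true :=
  ⟨(b (c (b (b (a (l 14185544) (l 13931912)) (c (l 13865912) (l 13816088))) (c (b (c (b (l 13810568) (l 13808536)) (l 13724352)) (c (l 13697136) (b (l 13559168) (l 13638536)))) (c (b (l 13691144) (b (l 13585312) (l 13565368))) (l 13593920)))) (b (a (l 13880296) (l 13721928)) (a (l 13649592) (l 13399168)))) (c (b (c (a (b (l 13586088) (c (l 13361256) (l 13390952))) (l 13277264)) (b (c (b (l 13514704) (l 13434896)) (b (l 13419560) (l 13389240))) (a (c (l 13385176) (l 13374136)) (l 13137320)))) (b (a (c (c (l 13349592) (l 13315464)) (c (l 13289848) (l 13271000)))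 (c (a (l 13093640) (l 12966256)) (l 12981984))) (a (c (l 13342584) (c (l 13293664) (l 13259280))) (c (l 13000992) (c (l 12949464) (l 12918272)))))) (b (c (b (l 13330392) (c (b (l 13204576) (a (l 13330936) (l 13082776))) (l 13181144))) (a (l 13323528) (l 13075320))) (c (b (c (a (l 13265520) (l 12959224)) (b (a (l 13255792) (l 12962312)) (l 13064112))) (l 13048576)) (b (b (l 13044504) (a (l 13181200) (l 12840368))) (c (b (c (l 13021624) (l 13002592)) (l 13001856)) (b (l 12979824) (c (l 12980568) (l 12961320))))))))), by decide +kernel⟩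

def k44_pm_012 : ∃ t, chk3 f_pm_012 t 23 7 1 = true :=
  ⟨(b (c (c (b (b (l 13808016) (l 13595480)) (b (b (l 13351104) (c (l 13546952) (l 13427920))) (b (c (l 13500952) (l 13424352)) (l 13337728)))) (b (l 13606680) (c (b (l 13421944) (l 13329296)) (l 13325336)))) (b (a (l 13566816) (l 13565944)) (l 13249880))) (c (b (c (a (l 12894552) (l 13145464)) (b (c (b (l 13260464) (l 13186024)) (l 13158104)) (c (l 13016288) (l 13001368)))) (a (a (a (b (l 12869584) (l 12772112)) (l 12811392)) (l 12804544)) (l 12802264))) (b (c (b (l 13071928) (c (b (l 13016952) (l 12951432)) (l 12918152))) (l 12935224)) (c (b (c (l 12810488) (b (l 12829328) (l 12736272))) (l 12645912)) (b (l 12720208) (c (b (l 12623512) (l 12560952)) (b (l 12589952) (c (l 12536272) (l 12514760))))))))), by decide +kernel⟩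

def k45_pm_012 : ∃ t, chk3 f_pm_012 t 3 1 1 = true :=
  ⟨(b (a (b (l 2) (b (l 2) (a (l 16041696) (l 2)))) (l 2)) (b (a (b (a (c (l 15417272) (l 15369360)) (l 15204520)) (a (c (l 14355312) (l 14444456)) (c (l 14544056) (l 14465424)))) (b (l 2) (c (l 14313368) (a (l 14465424) (l 2))))) (b (a (c (b (a (b (l 13782000) (l 13566904)) (l 13652976)) (c (a (b (c (l 13557696) (l 13457672)) (c (l 13440936) (l 13395480))) (b (l 13531400) (l 13388848))) (a (c (l 13391376) (l 13324920)) (l 13370024)))) (a (b (l 13565944) (l 13249456)) (b (l 13565944) (l 13249456)))) (c (b (l 13652976) (c (b (l 13531400) (l 13409824)) (l 13370024))) (a (l 13409280) (l 13409280)))) (c (a (b (c (a (l 13145464) (l 13145464)) (b (a (c (l 13213904) (l 13157704)) (c (l 13213904) (l 13157704))) (a (l 13005936) (l 13005936)))) (a (l 12802264) (l 12802264))) (b (c (l 13145464) (b (l 13183368) (l 13005936))) (l 12802264))) (a (b (b (a (l 13039808) (l 13039808)) (c (a (c (l 12976048) (l 12917760)) (l 12950272)) (l 12862192))) (c (b (c (l 12810128)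 (a (l 12706784) (l 12769704))) (l 12630320)) (b (a (l 12719832) (l 12719832)) (a (c (l 12581536) (b (l 12587184) (l 12505976))) (c (l 12581536) (l 12538824)))))) (b (c (b (l 13071528) (l 12950272)) (l 12934816)) (c (b (a (l 12784696) (l 12784696)) (l 12630320)) (b (l 12698864) (a (c (l 12581536) (l 12538824)) (l 12559560)))))))))), by decide +kernel⟩

theorem s46_pm_012 : ∃ t, chk3 f_pm_012 t 11 7 1 = true := ex3_a k43_pm_012 k44_pm_012

theorem s47_pm_012 : ∃ t, chk3 f_pm_012 t 11 3 1 = true := ex3_b k42_pm_012 s46_pm_012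

theorem s48_pm_012 : ∃ t, chk3 f_pm_012 t 20 15 1 = true := ex3_b k39_pm_012 k40_pm_012

theorem s49_pm_012 : ∃ t, chk3 f_pm_012 t 20 7 1 = true := ex3_b k38_pm_012 s48_pm_012

theorem s50_pm_012 : ∃ t, chk3 f_pm_012 t 10 7 1 = true := ex3_a s49_pm_012 k41_pm_012

theorem s51_pm_012 : ∃ t, chk3 f_pm_012 t 10 3 1 = true := ex3_b k37_pm_012 s50_pm_012

theorem s52_pm_012 : ∃ t, chk3 f_pm_012 t 5 3 1 = true := ex3_a s51_pm_012 s47_pm_012

theorem s53_pm_012 : ∃ t, chk3 f_pm_012 t 5 1 1 = true := ex3_b k36_pm_012 s52_pm_012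

theorem s54_pm_012 : ∃ t, chk3 f_pm_012 t 19 15 3 = true := ex3_b k34_pm_012 k35_pm_012

theorem s55_pm_012 : ∃ t, chk3 f_pm_012 t 19 15 1 = true := ex3_c k33_pm_012 s54_pm_012

theorem s56_pm_012 : ∃ t, chk3 f_pm_012 t 19 7 1 = true := ex3_b k32_pm_012 s55_pm_012

theorem s57_pm_012 : ∃ t, chk3 f_pm_012 t 18 31 3 = true := ex3_c k30_pm_012 k31_pm_012

theorem s58_pm_012 : ∃ t, chk3 f_pm_012 t 18 15 3 = true := ex3_b k29_pm_012 s57_pm_012

theorem s59_pm_012 : ∃ t, chk3 f_pm_012 t 18 15 1 = true := ex3_c k28_pm_012 s58_pm_012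

theorem s60_pm_012 : ∃ t, chk3 f_pm_012 t 18 7 1 = true := ex3_b k27_pm_012 s59_pm_012

theorem s61_pm_012 : ∃ t, chk3 f_pm_012 t 9 7 1 = true := ex3_a s60_pm_012 s56_pm_012

theorem s62_pm_012 : ∃ t, chk3 f_pm_012 t 9 6 1 = true := ex3_b k25_pm_012 k26_pm_012

theorem s63_pm_012 : ∃ t, chk3 f_pm_012 t 9 3 1 = true := ex3_b s62_pm_012 s61_pm_012

theorem s64_pm_012 : ∃ t, chk3 f_pm_012 t 17 62 1 = true := ex3_a k22_pm_012 k23_pm_012

theorem s65_pm_012 : ∃ t, chk3 f_pm_012 t 17 31 1 = true := ex3_b s64_pm_012 k24_pm_012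

theorem s66_pm_012 : ∃ t, chk3 f_pm_012 t 17 30 1 = true := ex3_c k20_pm_012 k21_pm_012

theorem s67_pm_012 : ∃ t, chk3 f_pm_012 t 17 15 1 = true := ex3_b s66_pm_012 s65_pm_012

theorem s68_pm_012 : ∃ t, chk3 f_pm_012 t 33 30 1 = true := ex3_b k17_pm_012 k18_pm_012

theorem s69_pm_012 : ∃ t, chk3 f_pm_012 t 33 15 1 = true := ex3_b s68_pm_012 k19_pm_012

theorem s70_pm_012 : ∃ t, chk3 f_pm_012 t 32 60 1 = true := ex3_a k13_pm_012 k14_pm_012

theorem s71_pm_012 : ∃ t, chk3 f_pm_012 t 32 30 1 = true := ex3_b s70_pm_012 k15_pm_012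

theorem s72_pm_012 : ∃ t, chk3 f_pm_012 t 32 15 1 = true := ex3_b s71_pm_012 k16_pm_012

theorem s73_pm_012 : ∃ t, chk3 f_pm_012 t 16 15 1 = true := ex3_a s72_pm_012 s69_pm_012

theorem s74_pm_012 : ∃ t, chk3 f_pm_012 t 8 15 1 = true := ex3_a s73_pm_012 s67_pm_012

theorem s75_pm_012 : ∃ t, chk3 f_pm_012 t 17 14 2 = true := ex3_b k10_pm_012 k11_pm_012

theorem s76_pm_012 : ∃ t, chk3 f_pm_012 t 17 14 1 = true := ex3_c s75_pm_012 k12_pm_012

theorem s77_pm_012 : ∃ t, chk3 f_pm_012 t 32 29 4 = true := ex3_b k5_pm_012 k6_pm_012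

theorem s78_pm_012 : ∃ t, chk3 f_pm_012 t 32 29 2 = true := ex3_c s77_pm_012 k7_pm_012

theorem s79_pm_012 : ∃ t, chk3 f_pm_012 t 16 29 2 = true := ex3_a s78_pm_012 k8_pm_012

theorem s80_pm_012 : ∃ t, chk3 f_pm_012 t 16 14 2 = true := ex3_b k4_pm_012 s79_pm_012

theorem s81_pm_012 : ∃ t, chk3 f_pm_012 t 16 14 1 = true := ex3_c s80_pm_012 k9_pm_012

theorem s82_pm_012 : ∃ t, chk3 f_pm_012 t 8 14 1 = true := ex3_a s81_pm_012 s76_pm_012

theorem s83_pm_012 : ∃ t, chk3 f_pm_012 t 8 7 1 = true := ex3_b s82_pm_012 s74_pm_012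

theorem s84_pm_012 : ∃ t, chk3 f_pm_012 t 16 6 1 = true := ex3_b k1_pm_012 k2_pm_012

theorem s85_pm_012 : ∃ t, chk3 f_pm_012 t 8 6 1 = true := ex3_a s84_pm_012 k3_pm_012

theorem s86_pm_012 : ∃ t, chk3 f_pm_012 t 8 3 1 = true := ex3_b s85_pm_012 s83_pm_012

theorem s87_pm_012 : ∃ t, chk3 f_pm_012 t 4 3 1 = true := ex3_a s86_pm_012 s63_pm_012

theorem s88_pm_012 : ∃ t, chk3 f_pm_012 t 4 1 1 = true := ex3_b k0_pm_012 s87_pm_012

theorem s89_pm_012 : ∃ t, chk3 f_pm_012 t 2 1 1 = true := ex3_a s88_pm_012 s53_pm_012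

theorem s90_pm_012 : ∃ t, chk3 f_pm_012 t 1 1 1 = true := ex3_a s89_pm_012 k45_pm_012

theorem c_pm_012 : CertNX 0 536870912 536870912 536870912 1046898278 26843546 3 true true false .pnp 0 1 2
    ndN0q0 ndN7q1 pcN2 cut_pm_012 Ext.none :=
  certNX2 (fam := true) (s1 := true) (s2 := false) (a := 0) (b := 1) (c := 2) (cn := .pnp) (n1 := ndN0q0) (n2 := ndN7q1) (pc := pcN2) (cut := cut_pm_012) (xt := Ext.none) (P1 := 0) (W1 := 536870912) (P2 := 536870912) (W2 := 536870912) (P3 := 1046898278) (W3 := 26843546) (N0 := 3)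
    rfl (fun _ => rfl) s90_pm_012

end Pool.Agent.Strip051.G.IE1.Tab.C.NA07

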