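import Pool.Agent.Strip051.G.IE1.Tab

/-! # Certificates N25 (generated) -/

set_option linter.all false
set_option maxRecDepth 100000

namespace Pool.Agent.Strip051.G.IE1.Tab.C.NA07

open Pool.Agent.Strip051.PB Pool.Agent.Strip051.PB.T
open Pool.Agent.Strip051.G.IE1.Tab

noncomputable def cut_pm_022 : Cut := Cut.of [[⟨0, 0, 0, 67108864⟩, ⟨1, 1, 0, 67108864⟩, ⟨2, 1, 0, 67108864⟩]]

noncomputable def f_pm_022 : ℕ → ℕ → ℕ → ℕ → Bool := onCell 1073741824 536870912 1073741824 536870912 1046898278 26843546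
    (rowNX 3 2 true true false .pp 0 2 2 (qsf 0 536870912 1073741824 536870912 2) ndN0q0 ndN7q2 pcN2 cut_pm_022 Ext.none)

def k0_pm_022 : ∃ t, chk3 f_pm_022 t 16 8 1 = true :=
  ⟨(b (l 6) (b (l 6) (l 1))), by decide +kernel⟩

def k1_pm_022 : ∃ t, chk3 f_pm_022 t 34 8 1 = true :=
  ⟨(b (l 6) (b (l 6) (b (l 6) (l 1)))), by decide +kernel⟩

def k2_pm_022 : ∃ t, chk3 f_pm_022 t 70 8 1 = true :=
  ⟨(b (l 6) (b (l 6) (b (l 6) (b (l 6) (l 1))))), by decide +kernel⟩

def k3_pm_022 : ∃ t, chk3 f_pm_022 t 142 8 1 = true :=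
  ⟨(b (l 6) (b (l 6) (b (l 6) (b (l 6) (b (l 6) (l 1)))))), by decide +kernel⟩

def k4_pm_022 : ∃ t, chk3 f_pm_022 t 286 8 1 = true :=
  ⟨(b (l 6) (b (l 6) (b (l 6) (b (l 6) (b (l 6) (b (l 6) (l 1))))))), by decide +kernel⟩

def k5_pm_022 : ∃ t, chk3 f_pm_022 t 574 8 1 = true :=
  ⟨(b (l 6) (b (l 6) (b (l 6) (b (l 6) (b (l 6) (b (l 6) (b (l 6) (l 1)))))))), by decide +kernel⟩

def k6_pm_022 : ∃ t, chk3 f_pm_022 t 575 16 1 = true :=
  ⟨(a (l 6) (a (l 6) (c (b (c (b (c (b (l 15883800) (c (l 15873064) (l 15916728))) (l 15908432)) (c (l 15881952) (b (l 15956856) (l 15854232)))) (l 15942312)) (c (c (l 16086888) (b (l 16009072) (l 16120648))) (b (c (b (l 16029400) (c (l 16025976) (l 16061224))) (l 16057840)) (c (l 15997496) (b (l 16113952) (c (l 16126192) (l 16160592))))))) (c (b (l 15934288) (c (l 16062448) (b (l 16074024) (c (b (l 16172336) (l 16215952)) (b (l 16159400) (l 16179048)))))) (b (c (b (l 15879160) (c (l 15979808) (b (l 15952736) (l 16007920)))) (b (c (b (l 15855936) (c (l 15904600) (l 15901504)))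 (b (c (l 15853184) (b (l 15838032) (l 15861408))) (l 15901184))) (b (l 15926472) (l 15990952)))) (b (c (c (b (l 16063624) (l 16104576)) (l 16064552)) (l 16058496)) (l 16149256))))))), by decide +kernel⟩

def k7_pm_022 : ∃ t, chk3 f_pm_022 t 575 17 1 = true :=
  ⟨(b (a (l 6) (c (c (l 16207568) (c (l 16132264) (b (b (l 16197176) (l 16278816)) (c (l 16402288) (b (l 16380272) (l 16423448)))))) (c (c (b (c (b (l 16246400) (c (l 16296408) (l 16298656))) (b (l 16273776) (c (b (l 16298536) (l 16269280)) (l 16267768)))) (b (c (l 16276136) (l 16283520)) (l 16309992))) (b (l 16186008) (b (c (l 16289480) (l 16305168)) (c (l 16328744) (l 16333344))))) (l 16280136)))) (b (a (l 6) (a (l 6) (c (c (l 16437216) (c (b (l 16471704) (l 16529248)) (c (b (l 16486808) (l 16453288)) (l 16356472)))) (c (c (l 16417136) (l 16343072)) (c (b (c (l 16375848) (l 16384456)) (c (l 16422848) (l 16357488))) (l 16403544)))))) (c (c (l 16424968) (c (c (l 16488112) (b (l 16553120) (l 16541576))) (l 16442048))) (c (l 16498008) (c (l 16451160)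 (b (a (l 6) (c (c (l 16383648) (l 16448880)) (l 16466752))) (c (l 16511968) (b (c (l 16481144) (l 16503016)) (c (l 16521432) (l 169684123463)))))))))), by decide +kernel⟩

def k8_pm_022 : ∃ t, chk3 f_pm_022 t 8 9 1 = true :=
  ⟨(a (l 1) (a (l 1) (a (l 1) (b (b (b (b (b (c (c (c (l 16519736) (l 992170454919)) (c (c (l 16543640) (l 16590304)) (l 16588160))) (l 478384982295)) (l 1)) (l 1)) (l 1)) (l 1)) (l 1))))), by decide +kernel⟩

def k9_pm_022 : ∃ t, chk3 f_pm_022 t 8 5 1 = true :=
  ⟨(l 1), by decide +kernel⟩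

def k10_pm_022 : ∃ t, chk3 f_pm_022 t 8 3 1 = true :=
  ⟨(l 1), by decide +kernel⟩

def k11_pm_022 : ∃ t, chk3 f_pm_022 t 18 32 2 = true :=
  ⟨(b (a (c (a (c (b (l 15770680) (a (c (l 15762440) (l 15861976)) (l 15747920))) (l 15787776)) (b (l 15524312) (l 15575952))) (a (l 15777112) (l 15442352))) (c (a (l 15259616) (l 14946472)) (a (l 15236576) (l 14917584)))) (a (c (a (c (a (b (c (l 15840744) (l 15820992)) (l 15798392)) (c (b (l 15746888) (l 15762816)) (b (l 15782816) (l 15784440)))) (a (c (b (l 15898008) (a (l 15925448) (l 15889928))) (l 15917200)) (l 15801464))) (c (a (c (b (l 15669504) (l 15670120)) (l 15687992)) (l 15576728)) (l 15632608))) (l 15551680)) (a (b (l 15314168) (l 15413184)) (b (l 15047088) (l 15131840))))), by decide +kernel⟩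

def k12_pm_022 : ∃ t, chk3 f_pm_022 t 18 33 2 = true :=
  ⟨(a (c (a (b (c (a (l 15799992) (b (l 15762320) (l 15845704))) (a (b (c (l 15921952) (a (l 15963784) (l 15925936))) (l 15904096)) (c (b (l 15759392) (l 15843488)) (b (l 15854824) (a (l 15884520) (l 15847176)))))) (c (l 16006072) (b (a (l 16013856) (l 15888424)) (l 15886928)))) (c (b (a (b (c (l 15686368) (l 15707440)) (l 15727728)) (c (b (l 15594808) (l 15611392)) (b (l 15629376) (l 15631904)))) (a (l 15750144) (b (l 15652656) (l 15694296)))) (b (a (c (b (l 15741168) (l 15724096)) (l 15759760)) (l 15647072)) (b (a (c (l 15766528) (l 15720096)) (c (l 15669312) (l 15700528))) (a (l 15729168) (c (l 15691232) (b (l 15713472) (l 15715040)))))))) (a (c (b (a (c (b (l 15970368) (a (l 16002560) (l 15954136))) (l 15989656)) (l 15873704)) (a (b (c (l 16005416) (a (l 16045344) (l 15995504))) (l 16000104)) (b (c (a (l 15923672) (l 15875840)) (l 15930208)) (c (l 15932696) (a (l 15975288) (l 15926064)))))) (b (l 15935920) (a (b (l 16056080) (c (a (l 16101208)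 (l 16049896)) (l 16105816))) (l 15942896)))) (c (b (l 15703296) (a (b (l 15816048) (c (a (l 15851944) (l 15804704)) (l 15861592))) (l 15725408))) (l 15747744)))) (c (a (c (b (a (c (b (l 15519432) (l 15520968)) (l 15537328)) (l 15427832)) (a (b (c (l 15537864) (l 15557840)) (l 15579056)) (c (b (l 15448576) (l 15465800)) (b (l 15481800) (l 15485232))))) (b (l 15480720) (a (c (b (l 15590248) (l 15595216)) (l 15609704)) (l 15499744)))) (b (l 15231608) (c (a (c (b (l 15375168) (l 15377632)) (l 15392504)) (l 15285960)) (l 15337320)))) (a (l 15516880) (l 15089456)))), by decide +kernel⟩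

def k13_pm_022 : ∃ t, chk3 f_pm_022 t 18 16 3 = true :=
  ⟨(b (c (a (b (a (l 15763016) (b (l 15486624) (l 15538680))) (a (l 15848048) (l 15609216))) (b (c (l 15055872) (l 14833408)) (b (a (l 15323896) (l 15006648)) (l 15069008)))) (a (c (b (a (l 15753456) (b (l 15472096) (l 15526880))) (c (l 15565648) (b (l 15599448) (c (l 15595848) (l 15628912))))) (b (c (b (a (l 15732824) (l 15321624)) (c (l 15546736) (b (l 15596880) (l 15562256)))) (b (c (a (b (l 15711144) (l 15738280)) (b (l 15440736) (l 15353864))) (b (a (l 15712624) (l 15445712)) (a (l 15733752) (l 15475984)))) (b (a (l 15654912) (l 15469552)) (l 15596856)))) (b (c (c (a (l 15828536) (l 15582056)) (l 15451416)) (l 15611040)) (l 15740048)))) (c (b (c (l 15032384) (b (l 14985496) (l 15068736))) (b (a (c (l 15314216) (l 15317816)) (l 14996664)) (c (l 15241672) (a (l 15390936) (l 15099232))))) (b (c (b (a (l 15142856) (l 14805280)) (c (l 14887472) (b (l 14865248) (a (l 15260232) (l 14926720))))) (a (b (c (l 15134920) (l 15136360)) (l 15164992))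 (b (l 14807432) (l 14887768)))) (b (c (c (a (l 15318344) (l 14995240)) (a (l 15315880) (l 14989072))) (a (l 15305824) (l 14979056))) (l 15218256)))))) (c (a (c (b (l 15776376) (a (l 16054176) (l 15816064))) (c (b (l 15786216) (b (l 15824304) (a (l 15946648) (l 15854272)))) (b (b (l 15808400) (l 15683632)) (b (c (l 15713296) (l 15814136)) (l 15831040))))) (c (b (l 15230536) (l 15465776)) (b (a (l 15469520) (l 15114944)) (c (b (l 15455944) (l 15418616)) (b (l 15356120) (l 15462608)))))) (a (b (c (c (b (a (l 15791800) (l 15694512)) (c (l 15609800) (l 15840696))) (l 15669992)) (l 15809192)) (l 15861128)) (b (c (c (b (a (l 15454080) (l 15197240)) (l 15168064)) (l 15177808)) (l 15313888)) (l 15423808))))), by decide +kernel⟩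

def k14_pm_022 : ∃ t, chk3 f_pm_022 t 36 34 2 = true :=
  ⟨(c (a (b (a (l 16170976) (l 16045312)) (l 16111416)) (b (c (l 15857288) (a (l 15908136) (b (l 15743960) (l 15801256)))) (l 15799408))) (b (a (c (a (l 16160080) (b (l 15994528) (l 16060136))) (b (c (a (l 16121000) (c (l 16001208) (l 15972064))) (a (a (l 16088064) (l 16035192)) (l 16048696))) (a (c (l 16195896) (l 16218712)) (c (l 16065128) (a (l 16127840) (l 16075616)))))) (c (a (b (c (l 15865832) (a (l 15907768) (l 15859152))) (l 15886600)) (c (b (l 15720632) (l 15800472)) (b (l 15795504) (b (l 15809896) (l 15827392))))) (b (l 15724104) (a (c (b (l 15938688) (l 15966488)) (l 16006112)) (l 15879008))))) (c (a (l 16024464) (b (a (l 16002200) (l 15767272)) (l 16019352))) (c (a (l 16027088) (b (a (l 16023368) (l 15808816)) (a (l 16111624) (l 15983904)))) (a (b (a (l 16302880) (c (l 16164936) (l 16111576))) (c (l 16201760) (l 16228368))) (b (a (c (l 16050312) (b (l 16066296) (l 16076744))) (l 15961480)) (a (c (l 16102192) (l 16073848)) (c (b (l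 15988792) (l 15992640)) (b (l 15982392) (l 15955320)))))))))), by decide +kernel⟩

def k15_pm_022 : ∃ t, chk3 f_pm_022 t 37 34 2 = true :=
  ⟨(c (a (c (b (b (a (l 15621808) (l 15486960)) (a (l 15690928) (l 15555296))) (l 15727048)) (b (a (b (c (l 15622184) (l 15643616)) (l 15680160)) (c (b (l 15527352) (l 15559840)) (b (l 15563256) (l 15581208)))) (a (l 15780296) (b (l 15618048) (l 15677080))))) (b (c (b (c (a (l 15395192) (l 15308144)) (a (l 15415480) (l 15341448))) (a (l 15442792) (c (l 15329696) (l 15353400)))) (a (c (b (l 15450352) (l 15466200)) (l 15479088)) (l 15369392))) (c (a (l 15542928) (b (l 15383384) (l 15435848))) (b (a (c (l 15499296) (l 15520184)) (c (l 15406840) (l 15441928))) (a (l 15558832) (c (l 15440136) (l 15462800))))))) (c (a (b (a (c (b (l 15678440) (l 15698472)) (l 15709360)) (l 15596008)) (b (c (a (l 15738376) (l 15553744)) (a (b (l 15754280) (l 15781392)) (l 15682712))) (a (l 15826576) (c (l 15690112) (l 15731648))))) (b (l 15433544) (b (l 15513232) (c (a (l 15569640) (l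 15509736)) (l 15593728))))) (b (l 15568520) (b (c (l 15427760) (l 15686408)) (a (c (a (b (l 15860416) (l 15889720)) (l 15786096)) (b (l 15832752) (l 15788984))) (l 15612448)))))), by decide +kernel⟩

def k16_pm_022 : ∃ t, chk3 f_pm_022 t 18 35 4 = true :=
  ⟨(a (a (c (l 16132888) (b (l 16231664) (l 16321088))) (b (l 15909200) (c (l 16197752) (l 16165512)))) (b (a (c (l 15851352) (l 15864568)) (c (l 15607848) (b (a (l 15626352) (l 15488560)) (l 15656960)))) (a (c (l 15980616) (l 16005264)) (c (l 15753256) (l 15788944))))), by decide +kernel⟩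

def k17_pm_022 : ∃ t, chk3 f_pm_022 t 18 35 5 = true :=
  ⟨(a (c (c (a (b (l 16291160) (a (b (l 16507208) (l 16506576)) (l 16295616))) (b (l 16138144) (b (l 16229664) (l 16233320)))) (b (a (b (l 16347288) (a (c (l 16489160) (l 16460976)) (l 16346952))) (b (l 16121176) (l 16083848))) (a (c (b (l 16393976) (l 16371952)) (l 16267096)) (b (l 16168560) (l 16141720))))) (b (b (a (c (l 16175424) (c (l 16251320) (l 16175832))) (c (l 15940280) (a (l 16105920) (c (l 15984584) (l 15956856))))) (c (a (c (l 16370520) (l 16286368)) (c (l 16149592) (l 16107072))) (a (l 16282968) (l 16074272)))) (a (a (l 16337984) (l 16205000)) (b (c (l 16082016) (l 16126104)) (l 16176032))))) (c (b (a (b (a (l 15917264) (l 15790216)) (c (l 15935776) (l 15810040))) (b (a (c (l 15654936) (l 15697368)) (c (l 15556688) (l 15613528))) (c (l 15684840) (a (c (l 15749560) (l 15746688)) (c (l 15649984) (l 15609040)))))) (b (c (a (l 16017840) (l 15724408)) (a (l 15969400) (a (l 15776984) (l 15613768)))) (c (a (l 16052064) (l 15810640)) (a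 (l 15932984) (l 15665160))))) (a (b (c (b (a (c (l 15924936) (l 15908840)) (c (l 15713800) (l 15723416))) (b (l 15769432) (a (l 15937328) (l 15802352)))) (b (a (c (l 15809784) (b (l 15854696) (l 15849512))) (l 15709792)) (a (l 15882904) (b (l 15743352) (l 15777080))))) (c (b (l 15873968) (l 15939048)) (a (l 15964992) (l 15787328)))) (b (c (b (a (l 15720392) (l 15619528)) (a (b (l 15710648) (l 15591464)) (c (l 15636112) (l 15601864)))) (b (l 15614904) (l 15627640))) (b (c (a (l 15560320) (c (l 15581936) (l 15596096))) (a (l 15702344) (l 15611544))) (a (c (l 15752800) (l 15743152)) (c (l 15631032) (l 15635520)))))))), by decide +kernel⟩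

def k18_pm_022 : ∃ t, chk3 f_pm_022 t 36 34 3 = true :=
  ⟨(c (c (c (b (a (b (a (l 16061816) (l 16087328)) (a (c (b (l 16225560) (l 16257152)) (b (l 16183320) (l 16168144))) (c (l 16051656) (l 16148656)))) (l 15939368)) (a (a (b (c (l 16203768) (l 16111024)) (l 16246896)) (b (c (b (l 16122544) (l 16157136)) (b (l 16133784) (l 16038816))) (c (l 16081672) (l 16143104)))) (b (b (l 15996336) (c (l 15935872) (l 15973184))) (a (c (b (l 16036608) (l 16034792)) (l 15946448)) (c (b (l 15946976) (l 15932824)) (l 15935376)))))) (b (b (a (l 16108864) (l 15913584)) (a (c (a (b (l 16242280) (l 16133824)) (l 16126344)) (l 16045376)) (l 15859048))) (a (b (b (a (c (a (l 16237640) (l 16187288)) (l 16215768)) (l 16116224)) (a (l 16104776) (l 16120136))) (a (l 16212768) (a (l 16152352) (l 16117800)))) (b (l 15953288) (a (l 16036128) (l 15935616)))))) (b (a (c (l 16024200) (l 16118096)) (l 15887144)) (a (a (c (b (l 16125768) (a (b (l 16282720) (l 16304456)) (l 16153848))) (b (l 16241888) (l 16190256))) (c (b (l 16124584)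 (l 16112072)) (l 16143696))) (l 15967920)))) (a (l 16113328) (l 15915568))), by decide +kernel⟩

def k19_pm_022 : ∃ t, chk3 f_pm_022 t 36 35 6 = true :=
  ⟨(a (b (c (a (l 16349080) (a (l 16254256) (l 16155800))) (a (b (c (l 16298640) (a (c (l 16346760) (l 16319512)) (b (l 16270552) (l 16289264)))) (a (l 16394688) (l 16337176))) (b (c (a (l 16156016) (l 16140672)) (l 16155336)) (c (l 16243136) (a (b (l 16250928) (l 16282840)) (c (l 16202776) (l 16206680))))))) (a (l 16410672) (c (l 16320312) (b (l 16184568) (l 16334616))))) (c (b (a (c (l 16002440) (b (a (l 16098312) (l 16043464)) (l 16124768))) (c (b (a (l 15980152) (l 15927624)) (l 16009312)) (b (l 15962776) (a (l 16024792) (l 15970608))))) (a (l 16198552) (b (l 16037456) (l 16101544)))) (b (a (c (b (l 16078928) (a (l 16143648) (l 16087048))) (l 16018992)) (c (l 15965056) (l 15994080))) (a (b (c (l 16168184) (a (b (l 16175384) (l 16207240)) (l 16089064))) (l 16151448)) (b (c (a (l 16069864) (l 16013952)) (l 16048120)) (c (l 16094744) (a (b (l 16101344)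 (l 16133152)) (l 16057664)))))))), by decide +kernel⟩

def k20_pm_022 : ∃ t, chk3 f_pm_022 t 36 35 7 = true :=
  ⟨(a (b (c (a (c (b (a (l 16283320) (l 16286880)) (a (c (l 16390384) (b (l 16373640) (l 16399528))) (c (b (l 16312456) (l 16339168)) (l 16327048)))) (b (l 16322712) (a (c (l 16346224) (l 16390000)) (l 16330216)))) (b (l 16204088) (c (l 16135896) (l 16245216)))) (l 16281472)) (c (a (b (c (l 16363504) (a (b (c (l 16421536) (l 16381768)) (l 16444728)) (b (l 16337776) (c (l 16382568) (l 16363680))))) (l 16363896)) (b (c (a (c (l 16313104) (b (l 16296232) (l 16322112))) (c (b (l 16235936) (l 16262648)) (l 16250360))) (c (l 16177968) (l 16283296))) (c (l 16328464) (a (b (c (l 16344000) (l 16345992)) (l 16367128)) (b (l 16281880) (c (l 16305800) (l 16307704))))))) (a (b (c (a (b (l 16420312) (c (l 16381288) (l 16443056))) (l 16373784)) (l 16403328)) (c (a (b (c (l 16464584) (a (l 16479464) (l 16449936))) (l 16485792)) (c (b (l 16363144) (l 16425496)) (b (l 16403864) (l 16363360)))) (a (b (l 16427080)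 (c (a (l 16478920) (l 16449640)) (l 16423384))) (l 16376752)))) (c (b (l 16285328) (a (b (l 16342376) (c (l 16366368) (l 16365064))) (l 16296568))) (l 16304712))))) (c (b (l 16048304) (a (c (b (l 16123240) (a (c (l 16237336) (b (l 16220344) (l 16246224))) (c (l 16139392) (l 16175176)))) (b (l 16169280) (a (l 16194528) (l 16177800)))) (b (l 16053832) (l 16004968)))) (l 16086312))), by decide +kernel⟩

def k21_pm_022 : ∃ t, chk3 f_pm_022 t 37 17 3 = true :=
  ⟨(c (b (c (b (c (l 15508872) (b (l 15564768) (c (l 15602808) (l 15568224)))) (c (b (l 15447920) (l 15664488)) (l 15628928))) (b (l 15369088) (l 15620696))) (a (b (c (a (c (b (l 15848784) (l 15778960)) (l 15871272)) (l 15675144)) (l 15822808)) (c (a (c (l 15962864) (b (a (l 15952752) (l 15899240)) (l 15979848))) (c (b (l 15792856) (l 15867824)) (b (l 15820528) (l 15710520)))) (c (a (b (l 15933248) (a (l 15997568) (l 15942352))) (l 15843200)) (l 15775104)))) (c (b (l 15604688) (a (c (b (l 15709944) (l 15745304)) (l 15731864)) (l 15622672))) (l 15640080))))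 (a (l 15768576) (l 15537688))), by decide +kernel⟩

def k22_pm_022 : ∃ t, chk3 f_pm_022 t 19 16 2 = true :=
  ⟨(a (b (a (c (b (l 14437640) (a (l 14866328) (l 14719512))) (b (a (l 14684392) (l 14541824)) (a (l 14836048) (l 14686600)))) (c (b (l 14507272) (l 14644232)) (b (l 14470360) (l 14609984)))) (a (b (a (l 15028040) (l 14816192)) (a (l 15129992) (a (l 15079680) (l 15030080)))) (b (l 14794144) (l 14979296)))) (b (c (b (l 14425056) (l 14544712)) (b (l 14386912) (l 14508272))) (b (c (l 14697512) (l 14666784)) (l 14811760)))), by decide +kernel⟩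

def k23_pm_022 : ∃ t, chk3 f_pm_022 t 19 16 6 = true :=
  ⟨(a (b (a (b (c (l 14586712) (l 14443272)) (c (l 14737512) (a (l 14802304) (l 14649496)))) (c (l 14510224) (l 14348552))) (a (c (b (l 14926624) (a (l 15177392) (l 15056664))) (b (a (l 15006880) (l 14853256)) (c (b (l 15095584) (a (l 15215192) (l 15107424))) (a (l 15164416) (b (l 15015952) (l 15065840)))))) (c (l 14879688) (b (l 14765784) (c (l 14987768) (l 14966976)))))) (b (c (b (l 14357976) (l 14481552)) (b (l 14338496) (l 14467560))) (b (c (l 14650008) (b (l 14600296) (l 14700128))) (c (l 14853872) (c (l 14858824) (l 14837520)))))), by decide +kernel⟩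

def k24_pm_022 : ∃ t, chk3 f_pm_022 t 19 16 7 = true :=
  ⟨(a (b (a (c (b (c (l 14555904) (b (a (l 14585320) (a (l 14468568) (l 14410384))) (l 14586856))) (c (a (l 14803584) (l 14649744)) (b (l 14545856) (a (l 14849896) (l 14693176))))) (b (c (c (a (l 14622088) (a (l 14499072) (l 14437408))) (a (b (l 14558568) (l 14654864)) (b (l 14425424) (a (l 14530800) (b (l 14441288) (l 14502896)))))) (b (l 14471104) (a (l 14637640) (a (l 14515552) (l 14455072))))) (a (c (c (b (l 14746552) (l 14830872)) (l 14785648)) (l 14778456)) (c (b (c (l 14596536) (l 14483344)) (l 14672792)) (a (l 14652248) (l 14588792)))))) (c (b (c (l 14409384) (b (l 14363872) (l 14440336))) (c (l 14571128) (b (l 14523256) (l 14611488)))) (b (c (b (l 14327040) (c (l 14434584) (l 14420280))) (b (l 14344608) (l 14408064))) (c (b (l 14316040) (l 14597456)) (l 14536968))))) (a (b (c (c (b (l 14633640) (a (l 15057352) (l 14903816))) (l 14907760)) (l 14894312)) (l 15063648)) (b (c (l 14649992) (l 14727824)) (l 14929664)))) (b (c (b (c (a (l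 14347264) (l 14305048)) (a (c (l 14340776) (l 14319664)) (c (l 14291480) (l 14265016)))) (c (l 14467432) (b (c (l 14423920) (l 14427784)) (l 14505064)))) (b (c (b (l 14271128) (c (l 14327240) (l 14322936))) (b (l 14261376) (l 14330760))) (c (b (c (a (l 14456680) (l 14381256)) (l 14402512)) (l 14479024)) (l 14423984)))) (b (c (c (b (l 14605112) (l 14695368)) (b (l 14578896) (l 14670224))) (c (l 14622656) (l 14610312))) (l 14798888)))), by decide +kernel⟩

def k25_pm_022 : ∃ t, chk3 f_pm_022 t 19 34 2 = true :=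
  ⟨(a (c (a (c (a (b (c (b (l 15236696) (l 15243768)) (l 15259048)) (b (c (l 15271536) (l 15295688)) (l 15326040))) (b (a (l 15180656) (l 15148384)) (a (c (l 15223616) (b (l 15248536) (l 15261344))) (c (b (l 15196752) (l 15207864)) (l 15229608))))) (b (l 15215056) (a (c (b (l 15331880) (l 15348848)) (l 15361928)) (a (l 15280864) (l 15248000))))) (b (l 15139192) (c (a (c (b (l 15208480) (l 15221256)) (l 15235728)) (l 15233544)) (l 15242528)))) (a (c (a (l 15332064) (l 15230888)) (b (l 15236008) (a (l 15413832) (c (l 15321880) (l 15273696))))) (b (l 15142424) (c (l 15263456) (l 15285840))))) (b (c (l 15033792) (l 15042560)) (c (a (l 15232176) (l 15171496)) (c (l 15213912) (a (l 15206416) (l 15214576)))))), by decide +kernel⟩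

def k26_pm_022 : ∃ t, chk3 f_pm_022 t 19 35 4 = true :=
  ⟨(a (a (c (b (a (l 15344216) (a (l 15326936) (b (l 15256728) (l 15306976)))) (a (l 15580152) (l 15462808))) (b (b (a (c (l 15385040) (l 15419488)) (a (c (l 15316728) (l 15368200)) (l 15317376))) (a (l 15470912) (a (l 15389928) (c (l 15333240) (l 15392184))))) (a (l 15607784) (a (l 15511312) (b (l 15425432) (l 15504464)))))) (c (b (a (b (c (l 15248480) (l 15272016)) (l 15303024)) (c (b (l 15264504) (l 15289944)) (b (l 15301032) (l 15316608)))) (b (a (l 15364440) (l 15353464)) (l 15449352))) (b (b (l 15319808) (c (a (l 15341320) (l 15366896)) (l 15398368))) (b (a (c (l 15399320) (l 15444456)) (c (l 15406992) (l 15466240))) (c (l 15473672) (a (l 15503184) (l 15506520))))))) (a (c (b (a (c (b (l 15297048) (l 15306744)) (l 15324808)) (l 15323416)) (a (b (c (l 15334320) (l 15373432)) (l 15412432)) (c (b (l 15352000) (l 15391352)) (l 15368608)))) (b (l 15352560) (b (l 15448344) (c (l 15392000) (l 15529024))))) (b (l 15337672) (c (a (c (l 15303136)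 (l 15439088)) (l 15432064)) (l 15484240))))), by decide +kernel⟩

def k27_pm_022 : ∃ t, chk3 f_pm_022 t 19 35 5 = true :=
  ⟨(a (a (a (c (b (b (l 15492928) (c (l 15525256) (l 15563552))) (c (b (l 15582584) (l 15615800)) (b (c (l 15572440) (l 15536936)) (c (l 15548480) (l 15525680))))) (b (c (l 15513736) (l 15463944)) (c (b (l 15516712) (l 15527936)) (l 15526568)))) (c (c (b (l 15396960) (b (a (l 15508552) (c (l 15477840) (l 15502416))) (a (l 15524544) (l 15490848)))) (b (l 15439584) (b (a (l 15498952) (l 15469024)) (a (c (l 15471440) (l 15455024)) (c (l 15444296) (l 15436584)))))) (b (c (b (l 15408592) (l 15424976)) (l 15362576)) (b (l 15419696) (l 15450256))))) (c (b (l 15399160) (c (b (l 15491488) (a (c (l 15508768) (l 15483216)) (l 15510480))) (b (l 15457296) (l 15444832)))) (b (c (l 15382176) (l 15331856)) (l 15405336)))) (b (c (a (l 15390696) (l 15377376)) (c (a (l 15373800) (l 15360480)) (a (l 15323512) (l 15310192)))) (c (c (l 15488208) (b (l 15442584) (l 15433344))) (l 15388736)))), by decide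 +kernel⟩

def k28_pm_022 : ∃ t, chk3 f_pm_022 t 19 17 3 = true :=
  ⟨(a (c (b (a (c (b (c (l 15048392) (a (l 15292664) (b (l 15176312) (l 15208648)))) (c (b (a (l 15376416) (l 15273856)) (l 15333256)) (l 15295584))) (a (l 15295440) (l 15191632))) (c (b (b (l 15133072) (l 15133472)) (c (l 15260064) (l 15217832))) (l 15157880))) (a (l 15384488) (l 15342448))) (a (l 15104744) (l 15227544))) (b (c (c (b (c (l 15069856) (b (l 15018512) (l 15092312))) (c (a (l 15201584) (l 15188472)) (l 15167648))) (b (l 15008536) (l 15156632))) (l 15054472)) (l 15228144))), by decide +kernel⟩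

def k29_pm_022 : ∃ t, chk3 f_pm_022 t 36 36 2 = true :=
  ⟨(b (c (c (l 371546997687) (a (c (b (l 16512784) (l 16433304)) (c (l 444561878519) (l 274373809623))) (c (l 16211024) (b (l 16269640) (l 16324152))))) (b (c (a (c (a (l 16471480) (l 16404096)) (l 16375656)) (c (l 16241848) (l 16220640))) (l 16137320)) (a (c (a (l 182569023335) (l 16359984)) (l 16450032)) (l 16110416)))) (c (b (c (b (l 68752051431) (c (l 16369096) (l 267394315591))) (c (a (l 16455880) (l 16345664)) (a (l 297459279255) (l 16229944)))) (a (l 1) (c (a (l 649646513671) (l 382284590391)) (c (l 16262504) (l 16329240))))) (a (l 16460656) (l 16307552)))), by decide +kernel⟩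

def k30_pm_022 : ∃ t, chk3 f_pm_022 t 36 36 6 = true :=
  ⟨(a (a (l 16499968) (l 16409688)) (b (a (l 16280800) (c (l 16172864) (b (l 16140808) (l 16186112)))) (l 16301720))), by decide +kernel⟩

def k31_pm_022 : ∃ t, chk3 f_pm_022 t 36 36 7 = true :=
  ⟨(a (b (c (a (l 16504848) (l 16284424)) (a (b (c (l 16463784) (a (b (c (l 16504400) (a (l 16498376) (l 16427360))) (l 16522936)) (b (c (a (l 16460576) (l 16431480)) (l 16405040)) (c (l 16465200) (a (l 16479984) (l 16409152)))))) (l 16521656)) (b (c (a (b (c (l 16386800) (l 16345544)) (l 16407968)) (c (b (l 16328024) (l 16348480)) (b (l 16326648) (l 16328120)))) (a (c (b (l 16388560) (l 16323368)) (l 16335904)) (l 16341216))) (c (l 16407336) (a (b (c (l 16426392) (a (l 16441008) (l 16391320))) (l 16444920)) (b (c (l 16326856) (l 16369520)) (c (l 16387968) (l 16304400)))))))) (l 16414488)) (b (c (a (b (c (l 16253040) (a (b (c (l 16267984) (l 16269800)) (l 16291064)) (c (l 16159008) (l 16182648)))) (l 16295216)) (c (b (a (c (l 16163088) (l 16143368))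 (b (l 16089136) (l 16058632))) (l 16179128)) (b (l 16071408) (a (b (l 16113280) (l 16216512)) (b (l 16132688) (l 16118480)))))) (a (b (c (a (c (b (l 16266928) (l 16290064)) (l 16279248)) (l 16220880)) (l 16249032)) (c (a (b (c (l 16310544) (l 16311072)) (l 16331672)) (c (b (l 16252480) (l 16272992)) (b (l 16250960) (l 16273432)))) (a (b (l 16314096) (c (l 16309760) (l 16331368))) (l 16265272)))) (a (b (l 16162448) (c (c (l 16165176) (l 16204288)) (l 16203144))) (l 16127600)))) (c (l 521870718583) (b (a (c (l 16331488) (a (b (c (l 16349928) (l 16308224)) (l 16368440)) (b (c (l 16293040) (l 16293600)) (c (l 16312272) (l 16291456))))) (c (a (b (c (l 16235816) (l 16236176)) (l 16256912)) (b (l 16119600) (l 16116392))) (a (b (l 16238944) (c (l 16255736) (l 16256208))) (l 16190864)))) (a (l 16368328) (c (l 16257168) (a (c (l 16284232) (l 579852933911)) (b (c (l 16218808) (l 16219208)) (l 545493119991))))))))), by decide +kernel⟩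

def k32_pm_022 : ∃ t, chk3 f_pm_022 t 36 37 1 = true :=
  ⟨(a (l 1) (b (c (c (b (b (c (l 16278088) (l 16254728)) (l 1)) (l 1)) (l 16377280)) (l 599717193383)) (l 1))), by decide +kernel⟩

def k33_pm_022 : ∃ t, chk3 f_pm_022 t 36 19 1 = true :=
  ⟨(l 1), by decide +kernel⟩

def k34_pm_022 : ∃ t, chk3 f_pm_022 t 37 18 2 = true :=
  ⟨(c (c (b (b (l 15822968) (c (l 15924928) (b (l 15889928) (l 15968912)))) (b (c (b (l 309269530519) (l 16096872)) (b (l 15990536) (l 340407872823))) (c (b (l 354366622439) (l 381747050951)) (l 16018256)))) (b (b (c (a (l 15999248) (l 15825952)) (b (a (l 16118112) (l 15895304)) (l 15878344))) (c (b (l 15948192) (l 15846008)) (a (l 16010472) (l 15760336)))) (a (l 412885710903) (l 15859792)))) (b (c (b (c (a (b (l 16045904) (l 16051936)) (b (l 15818744) (l 15834208))) (a (l 16020160) (l 15786128))) (l 15927672)) (a (l 16005840) (b (a (l 15827304) (l 15677568)) (l 15872216)))) (l 406979845495))), by decide +kernel⟩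

def k35_pm_022 : ∃ t, chk3 f_pm_022 t 37 36 3 = true :=
  ⟨(c (a (b (c (a (l 16054016) (l 15853592)) (a (b (c (l 16022784) (a (c (l 16047688) (l 16041000)) (l 15985816))) (l 16068752)) (b (c (a (l 15926776) (l 15872232)) (l 15904968)) (c (l 15952328) (a (l 15895440) (l 15915472)))))) (c (l 16085248) (a (l 16133384) (l 15957280)))) (c (b (a (c (l 15824352) (b (l 15746632) (l 15840880))) (c (b (l 15678264) (l 15732248)) (b (l 15684216) (l 15721312)))) (a (l 15915424) (l 15801752))) (b (a (c (b (l 15793528) (l 15727288)) (l 15816304)) (l 15706856)) (a (b (c (l 15883360) (a (l 15909704) (l 15846632))) (l 15929128)) (b (c (l 15743688) (l 15767808)) (c (l 15815888) (a (l 15841584) (l 15779280)))))))) (a (b (c (a (b (l 15995184) (c (a (c (l 16090344) (l 16091424)) (c (l 16035712) (l 16029344))) (l 16061536))) (l 15803640)) (l 15981784)) (c (a (b (c (l 16106720) (a (b (l 16124072) (l 16143480)) (b (l 16060360) (l 16088088)))) (l 16148752)) (c (b (a (l 15978352) (c (l 15965152) (l 15958688))) (l 16035824))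 (b (l 15990256) (a (l 15999000) (b (l 15989552) (l 16017264)))))) (a (b (c (a (b (l 16117736) (l 16125048)) (l 16074064)) (l 16100888)) (c (a (b (l 16121880) (l 16183664)) (c (l 16117024) (l 16076432))) (a (b (l 16165312) (c (l 16182264) (l 16182584))) (l 16117976)))) (c (b (l 15989848) (a (l 16021032) (l 16002936))) (l 16008216))))) (c (b (l 15762480) (a (c (b (l 15877960) (a (l 15950472) (l 15856192))) (l 15901264)) (l 15791408))) (l 15798520)))), by decide +kernel⟩

def k36_pm_022 : ∃ t, chk3 f_pm_022 t 37 37 3 = true :=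
  ⟨(c (a (l 16194744) (b (c (l 15948336) (a (l 15994008) (l 15883648))) (l 16021760))) (a (b (c (l 16045736) (a (b (c (l 16184368) (a (l 564283525911) (b (c (l 16146104) (l 16146344)) (l 16145240)))) (l 16221168)) (b (c (a (b (l 16092048) (l 16111944)) (c (l 16046064) (l 16047248))) (a (c (l 16059264) (l 16101112)) (l 16046624))) (c (l 16113096) (a (l 16097552) (b (l 16013240) (l 16095016))))))) (l 16223480)) (b (c (a (b (c (l 15966432) (a (l 15991880) (l 15832424))) (l 16008344)) (c (b (a (l 15882160) (l 15830496)) (l 15898560)) (b (l 15852248) (a (l 15923368) (l 15869464))))) (a (b (c (l 15840384) (l 15958856)) (c (a (l 15989464) (c (l 15976624) (l 15977648))) (a (b (l 16022632) (l 16020128)) (l 15976792)))) (c (b (l 15851224) (l 15876752)) (l 15869136)))) (c (l 16011968) (a (b (c (l 16043352) (a (l 16069096) (b (l 16006424) (l 16025352)))) (l 16080128)) (b (c (a (l 15962712) (c (l 15908712) (l 15909568))) (c (l 15830896) (l 15934720))) (c (l 15975136) (a (l 16000240) (b (l 15938224) (l 15957216)))))))))),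 by decide +kernel⟩

def k37_pm_022 : ∃ t, chk3 f_pm_022 t 37 19 1 = true :=
  ⟨(a (l 1) (b (b (c (l 16107240) (l 518112262887)) (l 1)) (l 1))), by decide +kernel⟩

def k38_pm_022 : ∃ t, chk3 f_pm_022 t 38 18 2 = true :=
  ⟨(c (c (b (a (b (a (l 15745968) (l 15640536)) (a (c (l 15880616) (l 15865712)) (c (l 15762632) (b (l 15761968) (l 15786520))))) (b (l 15576496) (b (l 15701528) (l 15746920)))) (a (b (c (a (l 15934376) (a (l 15860360) (l 15823520))) (a (l 15865136) (a (l 15790792) (l 15753544)))) (c (a (l 15921456) (a (l 15848144) (l 15811032))) (l 15848744))) (b (c (l 15795944) (l 15724368)) (c (l 15783296) (l 15756112))))) (b (a (b (a (c (l 15764680) (l 15680792)) (c (b (l 15625752) (l 15672672)) (b (l 15600608) (l 15620736)))) (c (b (l 15698648) (a (l 15800232) (l 15701632))) (a (l 15749304) (a (l 15668672) (l 15626816))))) (b (b (c (l 15552432) (a (l 15543616) (l 15530504))) (c (l 15624736) (l 15553320))) (c (b (l 15651464) (l 15648488)) (l 15583040)))) (a (a (l 15856184) (a (l 15781336) (l 15743176)))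 (b (l 15674272) (l 15749160))))) (b (b (a (c (a (c (l 15651952) (l 15608256)) (c (b (l 15426904) (l 15545352)) (a (l 15524208) (l 15472328)))) (a (b (c (l 15566032) (l 15570168)) (l 15507608)) (a (b (l 15491112) (l 15530384)) (c (b (l 15454904) (l 15486280)) (l 15479120))))) (c (c (b (a (l 15474616) (c (l 15487256) (l 15456736))) (a (l 15487088) (l 15468792))) (b (a (l 15442904) (l 15456088)) (a (l 15475080) (l 15469416)))) (a (c (l 15424728) (l 15480288)) (l 15471096)))) (a (a (l 15707064) (a (l 15627936) (c (l 15592872) (l 15574872)))) (c (a (l 15564848) (l 15421528)) (a (c (l 15558720) (b (l 15521488) (l 15560688))) (c (b (l 15507376) (l 15541760)) (l 15531648)))))) (a (a (l 15841720) (a (l 15763472) (l 15722032))) (b (a (l 15653528) (c (l 15640408) (l 15623424))) (l 15730240))))), by decide +kernel⟩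

def k39_pm_022 : ∃ t, chk3 f_pm_022 t 39 18 2 = true :=
  ⟨(c (b (c (b (a (a (l 15542640) (l 15519296)) (a (b (l 15481632) (l 15541824)) (c (l 15501480) (l 15543952)))) (a (c (l 15685824) (l 15659408)) (c (l 15563192) (b (l 15613304) (l 15630808))))) (b (b (a (c (a (l 15527288) (l 15537488)) (a (b (l 15550752) (l 15537880)) (l 15559352))) (l 15495736)) (a (c (a (l 15572960) (l 15568200)) (a (l 15516064) (l 15522384))) (c (a (l 15579800) (l 15609432)) (l 15548800)))) (a (b (c (l 15587096) (a (l 15509608) (l 15500144))) (c (l 15590640) (l 15541832))) (c (b (a (l 15567264) (l 15580352)) (l 15550520)) (b (a (l 15508064) (l 15534752)) (a (l 15510656) (l 15520256))))))) (b (c (b (a (l 15724216) (l 15677368)) (a (l 15723512) (l 15685416))) (a (l 15625144) (a (l 15592384) (l 15510960)))) (c (b (a (l 15727816) (l 15697560)) (l 15709608)) (l 15684624)))) (c (b (b (a (c (b (l 15491504) (a (c (l 15468984) (l 15465600)) (l 15489744))) (l 15466080)) (l 15485872)) (a (a (b (l 15494480) (l 15533880)) (c (l 15506592)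 (l 15513352))) (a (l 15469856) (l 15528480)))) (a (a (l 15653632) (l 15517328)) (b (a (b (l 15551264) (l 15587624)) (c (l 15565800) (l 15572648))) (l 15659192)))) (b (a (b (l 15463368) (a (c (l 15520672) (l 15534224)) (l 15528744))) (l 15491032)) (a (b (a (b (l 15506856) (l 15627016)) (c (l 15557744) (l 15582968))) (l 15655352)) (b (a (l 15578784) (l 15588072)) (a (c (l 15654184) (l 15640336)) (c (l 15633000) (l 15637376)))))))), by decide +kernel⟩

def k40_pm_022 : ∃ t, chk3 f_pm_022 t 38 18 3 = true :=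
  ⟨(b (a (c (b (c (a (c (b (l 15576992) (l 15612696)) (l 15598376)) (a (l 15518672) (l 15491640))) (l 15554016)) (c (b (a (c (l 15666672) (l 15655528)) (a (l 15575496) (l 15537744))) (a (l 15715168) (c (l 15504320) (a (l 15614848) (l 15577976))))) (a (c (b (l 15659768) (l 15698664)) (l 15681992)) (a (l 15601952) (l 15568528))))) (l 15583792)) (c (c (b (l 15473120) (a (c (l 15420848) (l 15548096)) (l 15533592))) (l 15504696)) (l 15490312))) (a (c (b (c (a (l 15782776) (a (l 15696832) (l 15658464))) (a (c (l 15773880) (b (a (l 15774968) (l 15713432)) (l 15790648))) (b (a (l 15597856) (l 15620896)) (c (l 15691696) (a (l 15709856) (l 15661760)))))) (a (l 15864328) (a (l 15784088) (c (l 15752552) (l 15738160))))) (b (c (a (c (b (l 15743384) (a (l 15815352) (l 15764360))) (l 15766136)) (c (l 15560464) (l 15665176))) (l 15709792)) (c (a (b (c (l 15832192) (a (l 15856368) (l 15803168))) (l 15873992)) (c (b (a (l 15750056) (l 15712080)) (l 15773264)) (b (l 15726448) (a (l 15790888) (l 15750392))))) (a (b (c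 (l 15830768) (l 15822936)) (c (a (l 15895544) (l 15821848)) (a (l 15873512) (l 15841728)))) (c (a (l 15772072) (l 15725504)) (l 15742264)))))) (c (b (c (a (c (l 15637832) (b (l 15602560) (l 15652808))) (c (b (l 15584088) (l 15633856)) (l 15503304))) (a (c (b (l 15606448) (l 15643528)) (l 15627440)) (l 15609280))) (c (a (l 15724808) (l 15697184)) (a (c (l 15715664) (b (a (l 15696864) (l 15677032)) (l 15731288))) (b (c (l 15661848) (l 15664368)) (c (l 15708920) (l 15646904)))))) (c (b (l 15617656) (a (c (b (l 15685744) (a (l 15735568) (l 15725144))) (l 15707232)) (l 15685200))) (l 15649760))))), by decide +kernel⟩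

def k41_pm_022 : ∃ t, chk3 f_pm_022 t 39 18 3 = true :=
  ⟨(c (b (l 15480832) (a (b (c (a (c (l 15593520) (l 15595080)) (l 15585160)) (l 15595104)) (c (a (c (l 15676872) (b (l 15643952) (l 15690176))) (c (b (l 15630592) (l 15676728)) (l 15653040))) (a (c (l 15562024) (l 15667120)) (l 15654392)))) (c (b (l 15587272) (a (c (l 15643328) (l 15645048)) (l 15639840))) (l 15613536)))) (l 15452688)), by decide +kernel⟩

def k42_pm_022 : ∃ t, chk3 f_pm_022 t 19 38 2 = true :=
  ⟨(a (a (b (l 15786128) (l 489657864279)) (l 15851592)) (a (b (l 15771576) (l 15848240)) (c (l 15795064) (b (a (l 15734672) (l 15728912)) (l 15811752))))), by decide +kernel⟩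

def k43_pm_022 : ∃ t, chk3 f_pm_022 t 19 38 3 = true :=
  ⟨(a (c (a (a (l 15981576) (l 15886696)) (b (c (l 15794496) (l 15783232)) (l 15870048))) (a (b (c (a (l 15932488) (l 15833832)) (a (b (c (l 15908440) (a (l 15932912) (b (l 15871552) (l 15890624)))) (l 15945208)) (b (c (a (l 15829896) (l 15726624)) (a (l 15828560) (l 15788208))) (c (l 15848856) (a (l 15867128) (b (l 15817832) (l 15836776))))))) (l 484289069319)) (b (c (a (b (c (l 15770640) (a (l 15774888) (l 15761344))) (l 15810384)) (c (b (l 15682168) (l 15782920)) (b (l 15740104) (a (l 15786312) (l 15774600))))) (a (b (l 15771488) (c (a (l 15812392) (l 15798360)) (l 15804296))) (l 15700464))) (c (l 15858632) (b (a (c (l 15842608) (a (l 15848112) (l 15833528))) (c (a (l 15821768) (l 15809688)) (l 15814728))) (a (l 15893856) (c (l 15867376) (b (l 15823848) (l 15886224))))))))) (c (a (b (c (l 15724944) (a (c (l 15747376) (b (l 15727352) (l 15761272))) (b (l 15703184) (c (l 15745272) (l 15746296))))) (b (l 15799224) (l 15849504))) (b (c (a (c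 (l 15720384) (b (l 15689456) (l 15732424))) (c (b (l 15681264) (l 15724472)) (l 15702464))) (a (c (l 15710936) (l 15711344)) (l 15704080))) (c (b (l 15767216) (l 15820176)) (b (a (c (l 15765728) (l 15766832)) (l 15748848)) (a (l 15818456) (c (l 15804088) (l 15805344))))))) (a (b (c (a (c (b (l 15719824) (l 15760880)) (l 15739472)) (l 15723736)) (l 15725464)) (c (b (a (c (l 15796888) (a (l 15799440) (l 15789520))) (c (l 15778288) (l 15773544))) (a (l 15849112) (c (l 15828936) (b (l 15806296) (l 15846800))))) (b (l 15723816) (a (c (b (l 15823832) (l 15864704)) (l 15843568)) (l 15830368))))) (b (l 15703928) (c (b (l 15756768) (a (c (l 15813752) (l 15809208)) (l 15795728))) (l 15775752)))))), by decide +kernel⟩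

def k44_pm_022 : ∃ t, chk3 f_pm_022 t 19 39 1 = true :=
  ⟨(a (a (l 1) (c (l 16116976) (l 409127332807))) (c (a (l 16068640) (l 16040432)) (c (a (l 16055392) (a (l 16029328) (l 15807912))) (a (b (c (l 15964632) (a (b (c (l 15929272) (a (l 15933144) (l 15922608))) (l 16012720)) (b (c (a (l 15914312) (l 15905976)) (l 15909624)) (c (l 15994112) (a (l 15997304) (l 15988728)))))) (l 16127960)) (b (c (a (b (c (l 15897632) (l 15875928)) (l 15982472)) (c (b (l 15885864) (l 15969168)) (b (l 15881696) (l 15968776)))) (a (b (l 15899832) (c (l 15894888) (l 15978568))) (l 15928808))) (c (l 16097184) (b (a (c (l 16060816) (l 15955328)) (c (l 16007304) (l 16049368))) (a (l 16140584) (c (l 16129528) (l 16066328)))))))))), by decide +kernel⟩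

def k45_pm_022 : ∃ t, chk3 f_pm_022 t 9 5 1 = true :=
  ⟨(a (l 1) (b (a (l 1) (a (l 1) (b (b (c (l 16317856) (l 16143464)) (l 1)) (l 1)))) (l 1))), by decide +kernel⟩

def k46_pm_022 : ∃ t, chk3 f_pm_022 t 9 3 1 = true :=
  ⟨(l 1), by decide +kernel⟩

def k47_pm_022 : ∃ t, chk3 f_pm_022 t 20 8 2 = true :=
  ⟨(b (b (a (c (l 14427328) (c (l 14399032) (l 14380008))) (a (c (l 14399760) (l 14361760)) (c (l 14327040) (a (l 14324568) (l 14250816))))) (b (a (a (c (l 14589592) (l 14556752)) (c (l 14543832) (l 14509944))) (a (l 14472800) (c (l 14467928) (l 14432888)))) (a (c (l 14632696) (l 14615200)) (a (c (l 14628744) (l 14609080)) (a (l 14586816) (a (l 14535400) (b (l 14472760) (c (l 14403144) (l 14511368))))))))) (c (a (b (l 14760256) (a (b (l 15280952) (l 15369544)) (l 15307984))) (a (b (l 14864728) (l 15239712)) (a (b (l 14809576) (l 15183480)) (a (b (l 14750584) (l 15127520)) (b (b (l 14621672) (l 14782928)) (b (l 14980464) (l 15185432))))))) (a (b (b (l 14885216) (c (l 15074600) (l 14906840))) (c (b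 (l 15246904) (a (b (l 15443136) (l 15478064)) (c (l 15432624) (l 15392240)))) (b (c (a (l 15309728) (l 15233608)) (l 15220800)) (a (l 15378400) (l 15332856))))) (a (b (b (l 14778944) (c (l 14967208) (l 14987296))) (c (b (l 15181352) (l 15298480)) (b (l 15126360) (l 15263512)))) (a (b (b (l 14725248) (c (l 14907616) (l 14927200))) (c (b (l 15123536) (c (l 15308080) (l 15267176))) (b (c (l 15105088) (l 15053752)) (l 15206992)))) (b (a (b (l 14667984) (l 14708720)) (b (l 14623424) (b (l 14606640) (c (l 14853288) (l 14871720))))) (a (c (b (l 15064952) (l 15229536)) (b (l 15029896) (l 15151656))) (c (b (l 15022536) (c (l 15213664) (l 15109408))) (b (c (l 15003392) (l 14951600)) (l 15111496)))))))))), by decide +kernel⟩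

def k48_pm_022 : ∃ t, chk3 f_pm_022 t 40 16 3 = true :=
  ⟨(b (c (c (l 14361048) (b (l 14302552) (l 14390064))) (c (b (c (b (l 14251104) (l 14303912)) (c (l 14201280) (l 14241208))) (c (b (l 14353760) (l 14417448)) (b (c (l 14355160) (l 14314256)) (a (l 14420400) (l 14405824))))) (b (c (l 14263752) (l 14250480)) (c (c (b (l 14327992) (l 14389960)) (l 14350800)) (l 14348072))))) (b (b (c (l 14387472) (c (c (l 14488048) (l 14478272)) (l 14446832))) (c (a (l 14580696) (l 14519992)) (c (a (l 14571336) (l 14509912)) (c (l 14516616) (l 14501856))))) (c (c (l 14706208) (a (l 14665448) (c (l 14671896) (l 14650176)))) (a (l 14678776) (b (c (l 14574680) (l 14564488)) (l 14648440)))))), by decide +kernel⟩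

def k49_pm_022 : ∃ t, chk3 f_pm_022 t 41 16 3 = true :=
  ⟨(c (b (a (c (l 14333112) (b (l 14272624) (l 14363288))) (c (l 14258256) (b (a (a (l 14243600) (l 14210904)) (l 14147104)) (a (l 14329176) (l 14259280))))) (a (c (b (l 14475792) (l 14615880)) (b (l 14475616) (b (l 14571376) (l 14636168)))) (a (c (b (l 14449160) (l 14580272)) (b (l 14448192) (c (l 14583312) (l 14561008)))) (b (l 14276536) (b (c (l 14473064) (l 14479880)) (a (c (l 14565936) (l 14549792)) (c (l 14523688) (c (b (l 14512744) (l 14452320)) (l 14478728))))))))) (c (b (b (c (a (c (l 14250848) (l 14244776)) (c (a (l 14209384) (l 14134848)) (l 14170208))) (l 14205376)) (a (c (l 14368520) (b (l 14293480) (c (l 14395688) (l 14379048)))) (c (a (a (l 14346360) (l 14315576)) (l 14253968)) (a (a (b (l 14273104) (l 14364048)) (b (l 14274840) (l 14314648))) (b (l 14214472) (l 14253448)))))) (a (b (c (l 14470920) (l 14478912)) (a (l 14575336) (l 14555000))) (a (b (c (l 14443968) (b (l 14378048) (l 14445336))) (l 14530032)) (b (c (l 14372792)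 (l 14356464)) (a (l 14476512) (l 14433912)))))) (a (b (c (b (l 14237216) (l 14279960)) (l 14123104)) (b (l 14427472) (l 14553536))) (b (b (c (l 14156040) (l 14142392)) (l 14264336)) (a (a (b (l 14407384) (l 14530760)) (l 14437120)) (a (l 14394984) (b (l 14296912) (l 14414600)))))))), by decide +kernel⟩

def k50_pm_022 : ∃ t, chk3 f_pm_022 t 20 17 3 = true :=
  ⟨(a (b (c (c (b (c (l 14910896) (l 14829344)) (c (l 14921944) (l 15025800))) (l 14932752)) (l 14906840)) (a (l 15276280) (l 15219352))) (a (b (c (c (b (l 14748072) (l 14952336)) (l 14823528)) (l 14796256)) (l 15148200)) (a (b (c (c (b (c (l 14749272) (l 14729968)) (l 14849792)) (l 14766248)) (l 14738256)) (l 15089536)) (a (b (c (c (b (l 14677600) (l 14828256)) (l 14704808)) (l 14675984)) (l 15030992)) (b (c (b (c (c (l 14646288) (b (l 14603632) (l 14574328))) (l 14433696)) (b (c (c (l 14755696) (l 14701720)) (l 14687016)) (l 14787864))) (l 14627304)) (l 14988552)))))), by decide +kernel⟩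

def k51_pm_022 : ∃ t, chk3 f_pm_022 t 21 8 1 = true :=
  ⟨(c (b (b (c (a (l 14097696) (l 13785720)) (a (l 14054208) (l 13742320))) (c (a (l 14298600) (l 14013248)) (a (b (l 14212416) (l 14324648)) (l 13977624)))) (b (c (a (l 14550120) (l 14260856)) (b (a (l 14471632) (l 14180456)) (c (l 14479240) (a (l 14640536) (l 14350256))))) (c (a (l 14887784) (l 14571464)) (c (b (l 14670616) (a (l 14981120) (l 14649152))) (b (a (l 14679632) (l 14475472)) (l 14736360)))))) (b (c (b (a (c (l 14030856) (b (c (l 13948280) (b (l 13911328) (l 13957424))) (c (l 14065424) (l 14055648)))) (b (c (l 13636856) (l 13555984)) (c (l 13762520) (l 13589368)))) (c (a (l 14263528) (l 13968752)) (b (a (l 14187424) (c (l 13886224) (l 13882456))) (a (c (l 14329968) (l 14306360)) (l 13877152))))) (b (c (b (l 13757056) (c (a (l 13929224) (l 13715232)) (b (l 13850784) (a (l 13989024) (l 13761312))))) (b (c (l 13741240) (b (l 13696392) (l 13762528))) (l 13863936))) (c (b (c (a (b (l 14159112) (l 14209248)) (c (l 13879304) (l 13853656)))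 (a (l 14152192) (l 13833600))) (a (a (l 14347240) (l 14216352)) (l 13977704))) (a (l 14182328) (l 13884584))))) (b (b (a (c (c (l 14247272) (l 14425272)) (c (l 14414400) (l 14384008))) (c (c (l 14162160) (l 14127320)) (l 14091088))) (b (a (c (l 14550648) (l 14486512)) (c (l 14028624) (l 14194456))) (l 14323344))) (l 14493920)))), by decide +kernel⟩

def k52_pm_022 : ∃ t, chk3 f_pm_022 t 40 18 1 = true :=
  ⟨(c (c (b (c (b (a (a (l 15449704) (l 15565128)) (l 15571984)) (a (c (b (l 15601848) (l 15652976)) (b (a (l 15626432) (l 15661056)) (a (l 15621800) (l 15641240)))) (c (b (l 15655040) (l 15641744)) (l 15671104)))) (b (a (l 15567832) (l 15522328)) (a (c (b (l 15614360) (a (l 15558616) (l 15590960))) (l 15549584)) (c (l 15626016) (l 15562688))))) (c (b (a (c (b (l 15677976) (l 15681864)) (b (l 15602888) (l 15595504))) (c (a (l 15670224) (l 15538184)) (b (l 15629416) (a (l 15592456) (l 15615656))))) (a (l 15678496) (c (b (l 15645376) (l 15667512)) (l 15635984)))) (a (b (b (c (a (l 15545088) (l 15561512))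 (l 15558048)) (a (l 15575968) (l 15579448))) (a (l 15646880) (l 15633080))) (b (b (l 15597432) (l 15601032)) (a (l 15590064) (l 15642680)))))) (b (b (a (l 15474552) (l 15345376)) (l 15533760)) (a (c (b (a (l 15574824) (l 15594952)) (a (b (l 15611024) (l 15645000)) (c (l 15628696) (l 15635648)))) (b (l 15591568) (a (l 15637616) (l 15651128)))) (c (b (l 15606344) (a (l 15642104) (l 15666504))) (l 15630088))))) (a (l 15535512) (l 15539120))), by decide +kernel⟩

def k53_pm_022 : ∃ t, chk3 f_pm_022 t 41 18 1 = true :=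
  ⟨(a (c (c (b (b (c (l 15528568) (l 15527016)) (c (b (l 15668032) (l 15714328)) (c (l 15630712) (l 15567464)))) (c (b (c (b (l 15754800) (l 15707312)) (l 15674864)) (c (b (a (l 15653848) (l 15684984)) (l 15664600)) (a (l 15646152) (l 15670104)))) (b (l 15634856) (a (l 15658648) (l 15693872))))) (b (b (l 15433568) (l 15542344)) (l 15651600))) (b (l 15448784) (l 15628256))) (c (b (a (c (c (b (l 15476416) (l 15659192)) (b (l 15474424) (c (l 15609912) (l 15546608)))) (b (l 15380296) (l 15521336))) (c (a (c (l 15514584) (b (l 15423792) (l 15490216))) (c (b (l 15389744) (l 15433568)) (b (b (l 15361656) (l 15427712)) (c (l 15530544) (l 15466872))))) (a (l 15406504) (b (c (l 15262928) (l 15273000)) (l 15440696))))) (a (c (c (b (c (l 15754880) (l 15691584)) (c (a (l 15662440) (l 15723288)) (l 15708512))) (l 15671528)) (l 15665240)) (a (c (c (b (l 15592840) (l 15719544)) (l 15665176)) (l 15651648)) (c (b (c (c (l 15721768) (l 15631032)) (l 15606680)) (b (b (l 15494976) (l 15694320)) (l 15672760))) (l 15636176)))))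 (a (b (l 15415792) (l 15642656)) (a (l 15392336) (b (l 15328992) (l 15612984)))))), by decide +kernel⟩

def k54_pm_022 : ∃ t, chk3 f_pm_022 t 40 19 1 = true :=
  ⟨(c (a (b (c (l 15772272) (b (c (l 15715224) (a (b (l 15676384) (l 15727416)) (c (l 15692280) (l 15696800)))) (b (l 15769360) (l 15812896)))) (l 15982360)) (b (c (b (c (l 15726976) (l 15677024)) (l 15801824)) (b (c (a (l 15611792) (l 15661040)) (l 15623312)) (c (l 15744456) (b (a (l 15738344) (l 15746392)) (a (l 15803104) (l 15788632)))))) (b (c (l 15958384) (a (l 15930576) (l 15937056))) (l 16101760)))) (b (c (a (b (c (a (l 15700512) (l 15699576)) (l 15705424)) (c (b (a (c (l 15750696) (l 15740680)) (l 15740152)) (a (l 15803720) (c (l 15794840) (l 15785120)))) (b (l 15745768) (a (l 15790472) (l 15786264))))) (b (l 15712656) (c (b (l 15749832) (l 15711488)) (l 15778664)))) (l 15711088)) (c (a (b (c (l 15926344) (a (b (c (l 15878816) (l 15880400)) (l 15964472)) (b (l 15868680) (c (l 15956512) (l 15958432))))) (l 16004328)) (b (c (a (c (l 15919048)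 (b (l 15866088) (l 15955496))) (b (l 15871784) (c (l 15959328) (l 15950568)))) (a (l 15809608) (l 15917896))) (c (l 16064248) (a (b (c (l 16036368) (l 16038648)) (l 16119592)) (c (l 15935624) (l 15960712)))))) (b (a (c (a (b (l 15871392) (c (l 15960864) (l 15957088))) (l 15914096)) (l 15911536)) (l 15914760)) (a (c (b (a (c (l 16042568) (l 16042528)) (c (l 16037840) (l 16034464))) (a (l 16124368) (c (l 16118104) (l 16118424)))) (a (b (l 16046416) (c (l 16079816) (l 16122232))) (l 16060032))) (c (a (b (l 16030928) (c (l 16117168) (l 16114200))) (l 16079648)) (l 16075240))))))), by decide +kernel⟩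

def k55_pm_022 : ∃ t, chk3 f_pm_022 t 41 19 1 = true :=
  ⟨(a (c (b (c (b (c (a (l 15720264) (l 15716824)) (a (l 15706536) (l 15723992))) (c (l 15810352) (a (l 15789880) (l 15789608)))) (b (c (a (l 15717040) (l 15748008)) (l 15741000)) (c (a (b (l 15749568) (l 15796384)) (b (l 15768416) (l 15807592))) (a (l 15783416) (l 15809568))))) (c (l 15997824) (b (c (l 15923000) (a (b (l 15875960) (l 15973736)) (l 15766544))) (a (l 16098352) (l 16093240))))) (b (l 15758192) (c (a (b (l 15818736) (c (c (l 16089056) (l 15944216)) (l 15981712))) (b (l 15930840) (c (c (l 15959056) (l 16095520)) (l 16099680)))) (l 16014440)))) (c (a (b (c (b (c (a (l 15725344) (l 15727672)) (a (l 15741792) (l 15757808))) (c (l 15812760) (b (l 15774872) (l 15817880)))) (b (l 15762016) (c (b (l 15805232) (l 15744376)) (l 15828720)))) (c (b (l 15968808) (l 16141544)) (b (c (b (l 15859528) (l 15982672)) (a (l 15949744) (l 15954752))) (c (l 16119472) (b (l 15959528) (l 16119088)))))) (b (a (c (b (c (l 15730008) (l 15762064)) (c (l 15793744)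 (l 15676192))) (l 15791856)) (c (b (a (b (l 15701432) (c (l 15701136) (l 15782784))) (l 15689680)) (b (c (l 15761264) (l 15796736)) (c (l 15808376) (b (l 15699256) (l 15836208))))) (l 15664024))) (c (c (a (l 16061520) (b (l 15961168) (l 16131864))) (a (l 15943616) (b (l 15775608) (l 16090256)))) (a (b (c (l 15843880) (l 15969912)) (c (l 16121528) (l 15925496))) (b (c (a (a (a (l 15953480) (l 15833648)) (l 15961088)) (l 15954520)) (l 15973792)) (c (b (l 16044392) (l 16138264)) (a (a (b (l 15916224) (l 16033208)) (l 16107536)) (l 16121736)))))))) (a (b (l 15778056) (b (l 15959920) (c (a (l 16005528) (l 16071376)) (l 16119568)))) (a (b (l 15775848) (c (l 15896744) (l 16043720))) (b (l 15771568) (b (l 15963664) (l 15964080))))))), by decide +kernel⟩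

def k56_pm_022 : ∃ t, chk3 f_pm_022 t 21 9 1 = true :=
  ⟨(a (b (c (c (c (b (l 15216512) (b (l 15279168) (a (l 15658272) (l 15508576)))) (b (b (l 15183376) (l 15151024)) (l 15480240))) (b (l 15019040) (l 15464208))) (b (l 15118640) (l 15436280))) (c (b (c (b (a (c (l 15688400) (l 15711032)) (l 15617808)) (c (a (b (l 15729504) (l 15771520)) (l 15656568)) (a (l 15721192) (l 15699488)))) (l 15691512)) (c (b (c (a (l 15857120) (b (l 15775624) (l 15851832))) (a (b (l 15861480) (l 15939672)) (l 15826632))) (c (a (l 16088568) (l 15937256)) (a (l 16000472) (b (l 15942976) (l 16020800))))) (b (c (l 15704120) (l 15883920)) (c (a (c (l 15962968) (l 15967216)) (l 15973104)) (l 15872768))))) (b (l 15666912) (l 15935728)))) (b (c (c (b (c (l 14785728) (b (l 14833584) (l 14921200))) (c (b (l 15162880) (l 15253496)) (l 15147376))) (b (b (l 14730456) (l 14877096)) (l 15126656))) (l 14924608)) (b (c (b (l 15378072) (a (l 15601696) (l 15458240))) (l 15408344)) (c (c (b (a (c (l 15743480) (l 15765448)) (l 15678072))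 (c (a (l 15731888) (l 15829712)) (l 15746240))) (l 15796968)) (l 15775912))))), by decide +kernel⟩

def k57_pm_022 : ∃ t, chk3 f_pm_022 t 22 4 1 = true :=
  ⟨(b (c (b (a (c (l 13595632) (b (c (l 13428744) (l 13402824)) (l 13677800))) (c (l 13284176) (b (l 13078344) (l 13373136)))) (c (b (a (l 13981416) (l 13705208)) (a (l 14300464) (l 14033640))) (c (b (l 13835744) (b (l 14102944) (l 14239128))) (b (b (l 13756376) (l 13880416)) (b (c (l 14077328) (l 14021224)) (l 14151976)))))) (b (c (b (a (c (l 13272632) (l 13330320)) (l 13013584)) (c (a (b (l 13579040) (l 13740224)) (l 13354136)) (b (a (l 13555008) (l 13240392)) (a (c (l 13738696) (l 13713568)) (l 13307120))))) (b (c (b (l 13076136) (c (l 13240224) (l 13222184))) (b (c (l 13055376) (l 13036496)) (l 13201160))) (b (a (b (l 13490392) (l 13553520)) (l 13201256)) (l 13496104)))) (a (b (c (c (b (l 13897776) (l 14023080)) (l 13903376)) (l 13861128)) (a (l 14232488) (l 14104000))) (c (b (c (b (l 13605328) (l 13741576)) (l 13620448)) (l 13913248)) (l 13716736)))))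 (b (c (c (b (c (b (l 14427368) (l 14592344)) (b (l 14415552) (c (l 14535480) (l 14467064)))) (c (b (c (l 14727480) (l 14652904)) (a (l 14919504) (l 14626512))) (l 14446312))) (b (b (l 14306472) (l 14429136)) (l 14649560))) (a (l 14598040) (l 14307648))) (b (c (a (l 15129488) (l 14813312)) (l 14748120)) (a (c (b (l 15451896) (l 15517024)) (l 15532384)) (l 15117784))))), by decide +kernel⟩

def k58_pm_022 : ∃ t, chk3 f_pm_022 t 23 4 1 = true :=
  ⟨(b (c (b (a (a (c (l 13075696) (l 12829472)) (l 12974568)) (b (l 12766264) (l 13010912))) (c (b (l 13404864) (a (l 13817096) (l 13671208))) (b (b (l 13238136) (c (l 13477248) (l 13483280))) (c (b (l 13672296) (l 13814128)) (b (a (l 13700120) (l 13550560)) (l 13722832)))))) (b (c (b (l 12721048) (c (a (l 13106288) (l 12957056)) (b (l 12917968) (c (l 13106608) (l 13076736))))) (b (c (b (l 12598128) (c (l 12746776) (l 12726240))) (b (c (l 12573712) (l 12552384)) (l 12701464))) (b (l 12614672) (l 13019016)))) (c (b (c (a (b (c (l 13384240) (l 13358496)) (l 13510456))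 (l 13280016)) (l 13300488)) (l 13606984)) (l 13320008)))) (b (c (c (b (c (l 14093688) (b (l 13999856) (l 14108424))) (c (b (l 14286112) (l 14347136)) (l 14247032))) (a (l 13951496) (l 14012272))) (a (l 14088408) (l 13935072))) (b (c (l 14500600) (l 14426152)) (c (l 14742376) (l 14851232))))), by decide +kernel⟩

def k59_pm_022 : ∃ t, chk3 f_pm_022 t 40 10 1 = true :=
  ⟨(b (c (b (a (l 16322872) (l 16325224)) (l 1219803016023)) (b (c (a (l 16317816) (a (l 16314976) (l 16151232))) (a (b (c (l 16238208) (a (b (c (l 16200456) (l 16137608)) (l 16277256)) (b (c (l 16133680) (l 16197432)) (c (l 16273864) (l 16253328))))) (l 16388976)) (b (c (a (b (c (l 16196144) (l 16175872)) (l 16275560)) (c (b (l 16178408) (l 16277232)) (b (l 16196848) (l 16278336)))) (b (l 16139352) (a (c (l 16274136) (l 16275344)) (l 16283816)))) (c (l 16379336) (a (b (c (l 16350136) (l 16350952)) (l 16347880)) (b (c (l 16354928) (l 16356536)) (c (l 16326624) (l 16323912)))))))) (a (l 1) (l 15972112)))) (l 1)), by decide +kernel⟩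

def k60_pm_022 : ∃ t, chk3 f_pm_022 t 82 20 1 = true :=
  ⟨(c (b (l 16216744) (l 16079384)) (b (c (b (c (l 16194648) (a (a (l 16202800) (l 16082208)) (c (l 16113624) (l 16118520)))) (l 16137840)) (b (a (c (c (l 16082392) (l 16245864)) (l 16244600)) (l 16254512)) (c (a (b (c (l 16362264) (l 16363784)) (l 16301552)) (c (l 16082224) (b (l 16355888) (l 16270568)))) (a (b (l 16369872) (c (l 16300240) (l 16296416))) (l 16260472))))) (c (l 16089968) (b (c (l 16144808) (b (a (c (l 16220080) (l 16216896)) (c (l 16103816) (l 16141424))) (a (l 16139008) (c (l 16107368) (l 16040752))))) (l 16003056))))), by decide +kernel⟩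

def k61_pm_022 : ∃ t, chk3 f_pm_022 t 83 20 1 = true :=
  ⟨(c (a (b (l 16105552) (l 16045000)) (a (b (b (l 16173104) (l 16244696)) (l 16011760)) (b (b (c (l 16316336) (a (l 16114384) (l 16302224))) (l 16085368)) (l 15803184)))) (c (b (b (a (c (a (l 16210472) (b (l 16227296) (l 16318808))) (a (l 16186632) (l 16277752))) (a (c (b (l 16236632) (l 16290328)) (l 16286768)) (a (c (c (b (l 16243816) (l 16320136)) (l 16123440)) (l 16302808)) (l 16166632)))) (a (c (l 16279312) (a (l 16184240) (l 16062848))) (a (c (l 16260200) (b (l 16307072) (l 16190544))) (c (a (l 16135728) (l 16237280)) (c (b (l 16232728) (l 16204880)) (b (l 16278448) (b (l 16229744) (l 16148760)))))))) (a (l 15994856) (a (l 16006496) (b (a (l 15897024) (l 16059544)) (l 15898240))))) (c (a (b (b (l 16280896) (a (b (l 16333672) (l 16160304)) (l 16155608))) (b (a (l 16038048) (b (l 16059144) (l 16061856))) (l 15948064))) (b (a (l 16183192) (l 16109896)) (b (a (b (c (l 16128648) (l 16127776)) (l 15997112)) (b (b (l 16073592) (c (l 15980792)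 (l 16093312))) (c (l 16026496) (b (l 16050072) (l 15915344))))) (a (l 15913912) (l 15872432))))) (a (b (l 16354744) (b (c (a (l 15887024) (l 15991904)) (l 15870848)) (a (l 15954800) (a (l 15917896) (l 15760704))))) (b (a (l 16328576) (l 16271520)) (a (b (l 15986544) (b (c (l 15951712) (l 15946800)) (l 15864896))) (b (l 15995672) (b (c (b (l 15887024) (l 15847000)) (l 15925872)) (c (l 15846304) (a (a (l 15690856) (l 15828408)) (l 15832848))))))))))), by decide +kernel⟩

def k62_pm_022 : ∃ t, chk3 f_pm_022 t 41 21 1 = true :=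
  ⟨(b (b (a (l 1) (a (l 1) (a (l 1) (c (l 15755376) (l 583072931511))))) (l 1)) (l 1)), by decide +kernel⟩

def k63_pm_022 : ∃ t, chk3 f_pm_022 t 20 11 1 = true :=
  ⟨(l 1), by decide +kernel⟩

def k64_pm_022 : ∃ t, chk3 f_pm_022 t 21 20 2 = true :=
  ⟨(b (a (c (b (a (l 16257768) (l 16027408)) (l 16287648)) (b (a (c (l 16228792) (c (b (l 16192408) (l 16286400)) (l 16093440))) (c (b (l 16047648) (l 16190080)) (l 16140576))) (a (l 16053096) (c (l 16303328) (b (l 16236440) (a (l 16267392) (l 16315760))))))) (c (a (c (l 15938848) (b (b (l 16026544) (l 16062048)) (l 16225200))) (b (c (l 15838392) (l 15975784)) (c (l 16145440) (b (l 16070128) (l 16189128))))) (c (b (l 15893640) (a (b (l 16193896) (l 16272976)) (l 16163832))) (b (l 16053440) (l 16103872))))) (a (b (c (l 16114640) (a (l 16090920) (b (l 16188784) (l 16110816)))) (l 15956344)) (c (b (a (l 16207896) (l 16111584)) (l 16042864)) (b (a (c (l 16191136) (c (b (l 16272088) (l 16173112)) (l 16093600))) (c (b (l 16279208) (l 16245360)) (l 16263512)))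 (a (l 15887696) (c (l 16076928) (b (l 16149448) (a (l 16037416) (l 16086272))))))))), by decide +kernel⟩

def k65_pm_022 : ∃ t, chk3 f_pm_022 t 21 20 3 = true :=
  ⟨(c (b (a (a (b (l 16035216) (c (a (a (l 16184656) (l 16028536)) (c (l 16130040) (l 16287568))) (l 16051328))) (b (l 16172680) (l 16112120))) (l 16133112)) (c (a (b (a (l 16053152) (b (c (l 16128440) (l 16201696)) (a (l 16094968) (l 15964872)))) (l 15824688)) (a (b (l 16142808) (b (a (l 15927448) (l 16104176)) (c (l 15996144) (l 15926072)))) (l 15916440))) (a (b (a (b (a (l 15970504) (l 16116720)) (a (l 16036000) (l 15932952))) (b (l 16190856) (l 16022664))) (a (l 15919376) (a (b (l 15894832) (l 15917096)) (b (l 16041192) (l 15835168))))) (b (l 16214840) (a (l 15901768) (l 16072784)))))) (b (l 16127360) (a (b (c (a (b (l 16129976) (a (l 15874472) (l 16064656))) (l 16137344)) (l 16108400)) (c (a (a (b (l 15753248) (l 15856888)) (c (l 15781656) (l 15689568))) (b (l 16011384) (a (l 15796456) (l 15944840)))) (a (b (l 15943936) (a (c (l 15852536)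 (l 15846672)) (l 15868048))) (l 15962472)))) (l 16128144)))), by decide +kernel⟩

def k66_pm_022 : ∃ t, chk3 f_pm_022 t 21 21 1 = true :=
  ⟨(c (b (a (l 15713008) (c (l 15808424) (b (a (l 15857568) (l 15812376)) (l 15720528)))) (l 15437016)) (b (a (c (b (l 15672392) (l 15611344)) (b (a (c (l 15742504) (a (b (l 15615736) (l 15679760)) (b (c (l 15791152) (l 15785024)) (l 15595504)))) (c (a (b (l 15715880) (l 15734336)) (c (l 15702104) (l 15651424))) (b (l 15821680) (a (c (l 15729176) (l 15722768)) (l 15744544))))) (a (l 15573112) (c (l 15624072) (b (a (l 15553712) (c (l 15666624) (l 15659936))) (l 248065093047)))))) (c (b (a (c (l 15858608) (a (b (l 15795928) (l 15795936)) (b (l 15921528) (l 15756152)))) (c (a (c (l 15906896) (l 15836416)) (b (l 15986072) (l 15812056))) (l 15823752))) (a (l 15682824) (c (l 15742824) (b (a (l 15715856) (l 15799760)) (c (l 15701936) (l 15672728)))))) (b (a (c (c (l 15587336) (l 15843144)) (l 15839888)) (l 15895088)) (a (c (b (c (l 15672440) (l 15621344)) (a (l 15621328)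 (l 15604360))) (b (l 15697120) (c (l 15500168) (l 15619712)))) (c (b (l 15767536) (l 15534576)) (l 15720928)))))) (a (l 571261029735) (c (l 245380545191) (b (a (c (l 15543216) (a (l 15394048) (b (c (l 15578312) (l 15571248)) (l 15511496)))) (c (a (b (l 15609304) (l 15546848)) (c (l 15607864) (l 15577272))) (a (b (l 15593288) (l 15366248)) (l 15589440)))) (a (l 15416232) (c (l 15466704) (a (l 15379936) (b (l 15390448) (l 15433536)))))))))), by decide +kernel⟩

def k67_pm_022 : ∃ t, chk3 f_pm_022 t 21 11 1 = true :=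
  ⟨(b (c (l 536900699927) (c (l 15045840) (l 14936880))) (l 1)), by decide +kernel⟩

def k68_pm_022 : ∃ t, chk3 f_pm_022 t 22 20 1 = true :=
  ⟨(c (b (a (c (b (a (c (l 15917792) (l 15940216)) (l 15857792)) (b (a (l 15910480) (l 15986952)) (a (c (l 16087032) (l 16123976)) (l 15959896)))) (b (l 15885728) (l 16064144))) (b (l 15645872) (l 15747344))) (a (c (b (c (a (l 16252280) (l 16098720)) (a (l 16093400) (l 16174328))) (c (l 15991952) (a (l 16136240) (l 16037824)))) (b (l 16051968) (c (a (b (l 16209256) (l 16131120)) (l 16206040)) (l 16085008)))) (c (a (c (a (l 15941536) (l 16014688)) (l 16059944)) (a (l 15875264) (l 16066712))) (l 16142056)))) (b (a (b (l 15870664) (l 16054272)) (l 15669032)) (a (l 16168256) (l 16132960)))), by decide +kernel⟩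

def k69_pm_022 : ∃ t, chk3 f_pm_022 t 22 21 1 = true :=
  ⟨(c (b (a (c (b (a (l 15980720) (c (l 16045304) (l 15979952))) (l 15837640)) (a (b (c (l 15981768) (b (l 15969952) (l 15700560))) (l 15698632)) (b (c (b (l 16031536) (l 15994088)) (l 15990384)) (c (l 15869128) (b (l 15893464) (l 15675488)))))) (c (b (a (c (l 16100288) (b (l 16153528) (l 16037176))) (c (l 16130552) (l 16148464))) (a (l 15817304) (c (l 15928320) (l 15835144)))) (b (l 15942200) (a (c (b (l 15977920) (l 15907680)) (l 15919296)) (l 15814248))))) (a (c (l 15637824) (b (a (l 15664176) (l 15703152)) (l 15566632))) (c (b (l 15589168) (l 15685648)) (b (a (c (l 15790032) (b (l 15828592) (l 15643688))) (c (l 15713384) (l 15839488))) (a (l 15648864) (c (l 15714984) (b (l 15753496) (l 15609272)))))))) (b (c (a (a (b (l 15845576) (c (b (a (l 15772592) (l 15866008)) (l 15614160)) (l 15707368))) (b (l 16006152) (l 15730272))) (l 15999920)) (l 15877072)) (c (a (b (a (c (l 15662608) (a (l 15452192) (b (l 15712360) (l 15632840)))) (c (a (l 15600736)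 (c (l 15732472) (l 15740736))) (l 15710112))) (a (l 15526568) (c (l 15586584) (a (l 15438488) (b (l 15636232) (l 15555424)))))) (b (l 15536448) (c (a (a (l 15566464) (l 15438336)) (l 15699400)) (l 15570808)))) (a (b (c (a (c (l 15556032) (l 15643184)) (l 15698088)) (l 15664696)) (a (c (a (b (l 15533064) (l 15469312)) (b (l 15552664) (l 15493816))) (a (b (l 15516392) (l 15371928)) (l 15511672))) (c (c (l 15520784) (l 15565656)) (l 15560552)))) (l 15708880))))), by decide +kernel⟩

def k70_pm_022 : ∃ t, chk3 f_pm_022 t 23 10 1 = true :=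
  ⟨(b (b (c (l 15203768) (l 15268448)) (a (b (l 15838464) (c (l 15984328) (l 16081328))) (l 15691448))) (c (b (a (c (a (c (b (l 16195728) (b (l 16090584) (l 16029840))) (l 15876376)) (b (l 16189720) (l 15968872))) (l 16007608)) (b (l 16119512) (l 16031680))) (a (c (b (a (c (l 15886600) (l 15771664)) (l 15741736)) (a (l 15722832) (c (l 15819376) (l 15808448)))) (c (a (b (l 15894960) (a (l 15776144) (l 15790432))) (l 15862024)) (l 15705080))) (c (b (a (l 15896712) (l 15973528)) (c (l 15733328) (l 15861752))) (l 15888160)))) (b (a (l 16003512) (l 16109608)) (l 15631608)))), by decide +kernel⟩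

def k71_pm_022 : ∃ t, chk3 f_pm_022 t 22 11 1 = true :=
  ⟨(b (c (b (a (l 15388584) (c (l 15485120) (b (l 15354208) (l 15408640)))) (l 15184384)) (b (c (a (l 15237968) (b (a (c (l 15507768) (a (l 15421936) (b (l 15557304) (l 15475208)))) (c (a (l 15529464) (l 15443240)) (l 15553488))) (a (l 15365920) (c (l 15426256) (a (l 15381648) (l 15258896)))))) (a (b (a (c (l 15387112) (a (l 15341704) (b (l 15373624) (l 15352488)))) (c (a (l 15275456) (b (l 15473272) (l 15413120))) (a (b (l 15436464) (l 15353600)) (l 15430928)))) (a (l 15254232) (c (l 15304544) (b (a (l 15310832) (l 15332840)) (l 15258200))))) (b (c (a (l 15309896) (l 15540056)) (l 15505472)) (a (c (a (l 15276560) (c (l 15368360) (l 15357680))) (c (l 15129056) (l 15332656))) (c (l 15289808) (l 15395848)))))) (a (l 15095256) (c (l 15195272) (b (a (c (l 15219104) (a (l 15193304) (b (l 15247232) (l 15181512)))) (c (a (l 15232928) (c (l 15282920) (l 15271856))) (a (l 15070176) (l 15260872)))) (a (l 15080224) (c (l 15130896) (a (l 15104312) (b (l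 15158832) (l 15091800)))))))))) (c (l 14569872) (c (l 14754184) (l 14722648)))), by decide +kernel⟩

def k72_pm_022 : ∃ t, chk3 f_pm_022 t 23 22 1 = true :=
  ⟨(c (a (b (c (a (l 15565896) (l 15488392)) (a (b (c (l 15632864) (a (l 15485896) (l 15648272))) (l 15486840)) (b (c (l 15647800) (l 15667440)) (c (l 15542872) (b (l 15580184) (l 15498032)))))) (c (l 15316608) (a (l 15280896) (l 15285656)))) (c (b (b (a (c (l 15732592) (l 15741800)) (l 15673880)) (c (l 15620720) (a (l 15597112) (l 15655816)))) (b (l 15484032) (l 15346960))) (b (c (b (l 15729992) (a (l 15601256) (l 15629768))) (l 15652360)) (b (a (c (l 15454368) (b (l 15490824) (l 15408672))) (c (l 15514408) (l 15490400))) (a (l 15307440) (c (l 15367512) (a (l 15342720) (l 15381440)))))))) (a (c (b (a (c (b (l 15615752) (a (l 15404752) (l 15418264))) (l 15404040)) (l 15469808)) (a (b (c (l 15339304) (a (l 15274872) (l 15273992))) (l 15192456)) (b (c (b (l 15412432) (l 15352816)) (l 15374760)) (c (l 15247504) (a (l 15223816) (l 15244544)))))) (b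 (l 15536736) (a (b (c (l 15138312) (l 15306448)) (c (a (l 15123048) (l 14975616)) (c (l 14972936) (l 15154744)))) (c (l 15045840) (l 15280912))))) (c (b (l 15628160) (b (l 15439368) (c (a (a (l 15284976) (l 15299888)) (l 15345256)) (l 15301296)))) (l 15483232)))), by decide +kernel⟩

def k73_pm_022 : ∃ t, chk3 f_pm_022 t 23 23 1 = true :=
  ⟨(c (a (l 14919864) (b (c (l 15142176) (l 60159232183)) (l 14872664))) (a (b (c (l 15014424) (a (b (c (l 15038936) (a (l 15012240) (b (l 15065472) (l 14997896)))) (l 14894888)) (b (c (b (l 15031360) (l 15047784)) (l 14853008)) (c (l 14945288) (a (l 14917304) (l 14750040)))))) (l 14726272)) (b (c (b (a (c (l 15157264) (a (l 15132288) (l 15153848))) (c (a (l 15195984) (l 15211736)) (l 15194232))) (a (l 15009496) (c (l 15068688) (a (l 15042424) (l 15064832))))) (b (c (l 15097288) (l 15142296)) (a (c (a (l 14978616) (l 15000496)) (l 14906920)) (l 15012264)))) (c (l 14833064) (b (a (c (l 14853272) (a (l 14823976) (l 14804360))) (c (a (l 14887864) (l 14910592)) (l 14878624)))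 (a (l 14708272) (c (l 14762936) (a (l 14732320) (l 14755496))))))))), by decide +kernel⟩

def k74_pm_022 : ∃ t, chk3 f_pm_022 t 5 3 1 = true :=
  ⟨(a (l 1) (b (b (a (l 1) (a (l 1) (b (c (l 14479648) (l 14404496)) (l 1)))) (l 1)) (l 1))), by decide +kernel⟩

def k75_pm_022 : ∃ t, chk3 f_pm_022 t 3 4 1 = true :=
  ⟨(a (b (c (b (a (a (l 12834416) (l 12823936)) (l 12823936)) (a (c (a (b (l 13159216) (l 13465680)) (l 13216152)) (b (a (c (l 13141016) (l 13123960)) (l 13058136)) (a (c (l 13452976) (l 13397880)) (c (l 13296688) (l 13239904))))) (c (l 13206704) (b (l 13058136) (c (l 13284024) (l 13227096)))))) (b (c (b (l 12641376) (a (c (l 12850632) (b (l 12764224) (l 12875456))) (c (l 12842304) (l 12801800)))) (b (a (c (l 12592632) (b (l 12511576) (l 12603872))) (c (l 12592632) (l 12549992))) (a (b (l 12710160) (l 12799416)) (l 12752808)))) (a (b (c (a (c (b (l 13043376) (l 13159456)) (l 13043056)) (l 13002800)) (l 12959520)) (a (l 13287928) (l 13125672))) (c (b (l 13002800) (l 13144088)) (l 12998944)))))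 (b (c (a (c (b (a (c (l 13816056) (l 13767856)) (c (l 13593008) (l 13542400))) (c (b (l 13879376) (l 13939536)) (l 13835960))) (a (l 13801104) (b (l 13437752) (l 13669648)))) (c (b (c (l 13530048) (l 13478728)) (c (l 13639000) (l 13566656))) (b (l 13373008) (l 13522288)))) (a (a (l 13717456) (l 13472776)) (l 13357712))) (a (c (b (l 14084560) (l 14471128)) (b (l 13993280) (l 14394400))) (a (c (b (l 13753720) (l 14113824)) (b (l 13647976) (l 14021600))) (c (l 13845648) (l 13742584)))))) (b (c (b (l 12823936) (c (l 13206704) (b (l 13058136) (a (l 13253488) (l 13253488))))) (b (c (b (l 12641376) (a (l 12816816) (l 12816816))) (b (a (c (l 12592632) (l 12549992)) (l 12570688)) (a (l 12752808) (l 12752808)))) (c (a (l 12877520) (l 13066264)) (l 12998944)))) (c (b (c (a (b (l 13497456) (l 13634312)) (b (l 13497456) (l 13634312))) (a (l 13447000) (l 13447000))) (a (l 13837936) (l 13837936))) (a (b (l 13351848) (l 13734504)) (l 13546168))))), by decide +kernel⟩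

def k76_pm_022 : ∃ t, chk3 f_pm_022 t 6 10 1 = true :=
  ⟨(a (b (a (b (l 15013000) (a (l 15542552) (l 15372848))) (c (l 14993288) (l 14935688))) (a (b (b (l 15733928) (l 15915256)) (a (b (l 16131008) (c (l 15877472) (l 15929944))) (l 16166976))) (b (l 15584512) (a (l 15996384) (l 15843096))))) (b (a (l 14684776) (c (l 14570432) (l 14493912))) (c (l 15272816) (l 15166744)))), by decide +kernel⟩

def k77_pm_022 : ∃ t, chk3 f_pm_022 t 12 11 1 = true :=
  ⟨(b (a (c (b (a (c (b (l 15600520) (c (l 15671232) (l 15693128))) (l 15717040)) (b (l 15972792) (l 15756624))) (a (c (b (c (a (l 15563928) (l 15625880)) (l 15453544)) (c (l 15453672) (a (l 15426744) (l 15488768)))) (c (b (l 15559640) (a (l 15429216) (l 15461048))) (l 15480312))) (c (a (c (l 15571224) (l 15570920)) (l 15504856)) (l 15552496)))) (b (a (l 15701752) (l 15844576)) (l 15488840))) (b (a (l 16040656) (l 16145048)) (a (c (l 15469400) (l 15702744)) (l 15929912)))) (a (c (b (a (c (b (l 15316136) (l 15179064)) (b (a (c (l 15282304) (l 15092408))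 (l 15164944)) (a (l 15134520) (c (l 15198752) (l 15112880))))) (c (b (c (a (l 15401800) (l 15467056)) (l 15417256)) (c (l 15293168) (a (l 15262960) (l 15328280)))) (c (a (l 15169616) (l 15355920)) (l 15314872)))) (a (c (l 14974304) (l 14893952)) (c (l 14979840) (b (a (c (l 15116848) (l 15093056)) (l 15169744)) (a (l 14968232) (c (l 15036600) (l 15011976))))))) (b (c (a (c (b (l 15276048) (a (l 14968856) (l 15173120))) (l 15189152)) (l 15285616)) (l 15218832)) (a (c (b (a (c (l 14981776) (a (l 14954232) (l 14977472))) (c (l 14988472) (l 15020368))) (a (l 14833136) (c (l 14896528) (l 14729720)))) (b (l 14784240) (a (c (a (l 14798784) (l 14822360)) (l 14789088)) (l 14835784)))) (c (c (a (b (l 15089544) (l 14946840)) (l 15068120)) (l 15020320)) (l 15002544))))) (c (b (a (c (a (l 15253304) (l 15456664)) (l 15394544)) (l 15424576)) (a (c (b (c (a (l 15246216) (l 15314760)) (l 15261704)) (c (l 15139216) (a (l 15105744) (l 15174360)))) (c (b (l 15238696) (l 15118936)) (l 15156048))) (c (a (l 15229304) (l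 15331104)) (l 15243168)))) (b (l 15471864) (l 15162976))))), by decide +kernel⟩

def k78_pm_022 : ∃ t, chk3 f_pm_022 t 13 11 1 = true :=
  ⟨(b (a (b (l 15942464) (l 16095144)) (l 15841472)) (a (b (a (l 15825744) (l 16088264)) (a (c (l 15365312) (l 15397136)) (l 15686192))) (b (l 16242656) (l 15928944)))), by decide +kernel⟩

def k79_pm_022 : ∃ t, chk3 f_pm_022 t 7 5 1 = true :=
  ⟨(b (b (a (c (l 14482592) (l 14401888)) (l 14311872)) (a (c (a (l 15150912) (l 15076352)) (a (l 15094824) (l 15016544))) (c (l 15070496) (l 15010376)))) (a (b (a (l 15675240) (l 15525952)) (c (l 16100760) (l 16083200))) (b (c (l 15481552) (l 15435976)) (a (l 15887760) (l 15833440))))), by decide +kernel⟩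

def k80_pm_022 : ∃ t, chk3 f_pm_022 t 12 12 2 = true :=
  ⟨(b (a (b (a (l 14703152) (c (l 14813032) (l 14792248))) (l 14492240)) (a (b (c (l 14929960) (b (a (c (l 14958008) (l 14932560)) (l 15013384)) (a (l 14808568) (c (l 14881064) (l 14854800))))) (c (l 14658360) (l 14634256))) (b (c (b (c (a (l 15097168) (l 15168984)) (l 15112704)) (c (l 14991816) (a (l 14955112) (l 15027008)))) (c (l 14875864) (l 15003848))) (c (l 14781792) (b (a (c (l 14805768) (l 14778696)) (l 14863632)) (a (l 14655528) (c (l 14732136) (l 14704248)))))))) (a (l 14093008) (b (c (l 14459216) (l 14323016)) (l 14179888)))), by decide +kernel⟩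

def k81_pm_022 : ∃ t, chk3 f_pm_022 t 12 12 3 = true :=
  ⟨(b (a (a (b (c (l 14658368) (a (b (c (l 14674264) (l 324835601031)) (l 14528344)) (b (c (l 14534592) (l 14701232)) (c (l 14587280) (l 14502936))))) (l 14366584)) (b (c (b (c (a (l 14812952) (l 14864920)) (a (l 14771120) (l 14853184))) (a (l 14663448) (c (l 14731032) (l 14709320)))) (b (l 14780576) (a (c (l 14617056) (l 14615056)) (l 14666008)))) (c (l 14490344) (a (b (c (l 14501960) (l 14479656)) (l 14355136)) (b (c (l 14554400) (l 14530560)) (c (l 14418320) (l 14395144))))))) (b (c (a (c (a (b (l 14927384) (l 14784672)) (l 14909288)) (l 14858152)) (l 14969680)) (l 14889528)) (b (a (c (c (a (l 14650784) (l 14706088)) (a (l 14628232) (l 14692672))) (l 14615848)) (l 14776400)) (a (c (a (l 14500432) (c (l 14572200) (l 14548808))) (a (c (l 14472448) (l 14447744)) (l 14502944))) (c (c (l 14438216) (l 14639264)) (l 14612560)))))) (a (l 425229262327) (b (a (c (l 14329008) (c (a (l 14269072) (b (l 14392168) (l 14256064))) (a (l 13991520) (b (l 14366608)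 (l 14231152))))) (a (c (b (c (l 14495280) (l 14471048)) (l 14344096)) (b (l 14423920) (c (l 14313560) (l 14287144)))) (c (c (l 14253192) (b (l 14538848) (l 14394968))) (l 14419320)))) (c (l 14117816) (a (l 14010576) (b (a (l 14034832) (c (l 14236632) (l 14209368))) (a (l 14028832) (l 14083296)))))))), by decide +kernel⟩

def k82_pm_022 : ∃ t, chk3 f_pm_022 t 13 12 1 = true :=
  ⟨(b (c (a (a (b (c (b (l 15225520) (l 15093184)) (l 15098384)) (b (c (c (l 14774168) (l 14970272)) (l 14931192)) (c (c (l 14850960) (l 14636896)) (l 14806216)))) (b (l 15249664) (a (l 14744696) (l 14917744)))) (b (l 15705864) (a (l 15119584) (l 15447320)))) (a (b (l 15172840) (l 14863832)) (l 15233992))) (c (a (a (b (c (l 14640208) (b (c (l 14576192) (l 14648440)) (c (l 14553792) (l 14337352)))) (l 14144560)) (b (c (a (c (l 14749584) (l 14639208)) (b (l 14879744) (l 14543168))) (l 14535632)) (c (l 14505216) (b (a (l 14430608) (l 14583984)) (c (l 14416456) (l 14387168)))))) (b (a (a (l 14738792) (l 14894144)) (l 14996040)) (a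 (c (b (c (l 14700784) (l 14705096)) (c (l 14588920) (l 14560528))) (l 14592792)) (c (l 14666704) (l 14703576))))) (a (b (c (a (c (a (l 14494928) (l 14611584)) (l 14553856)) (l 14680368)) (l 14587048)) (a (c (a (b (l 14160648) (l 14194440)) (c (l 14338368) (l 14264664))) (a (c (l 14057920) (l 14199368)) (l 14269688))) (c (c (a (l 14394680) (l 14472720)) (l 14411720)) (l 14384048)))) (b (l 14900512) (l 14591408))))), by decide +kernel⟩

def k83_pm_022 : ∃ t, chk3 f_pm_022 t 6 13 1 = true :=
  ⟨(b (a (c (l 489653181751) (b (l 13505048) (l 1))) (a (c (b (c (l 14177464) (l 14139576)) (l 13980336)) (b (a (c (l 14027456) (b (c (l 14055472) (l 13922904)) (l 13738360))) (c (b (c (l 14233656) (l 14200680)) (a (l 14053568) (l 14118496))) (b (l 14161912) (a (l 13997536) (l 14056104))))) (c (l 13911248) (a (l 13794592) (a (l 13885144) (c (l 13964512) (l 13935736))))))) (c (b (c (a (l 14377744) (b (c (l 14579536) (l 14582360)) (c (l 14469520) (l 14439648)))) (a (b (a (l 14360352) (l 14454088)) (c (l 14287672) (l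 14256832))) (l 14468744))) (a (l 14168120) (c (l 14330136) (a (l 14251552) (b (l 14376008) (l 14280224)))))) (b (c (a (c (l 14222192) (l 14277256)) (l 14418640)) (l 14312400)) (c (a (a (l 13984432) (c (l 14148944) (l 14114960))) (l 14177024)) (a (a (l 13864584) (l 14074664)) (l 14196016))))))) (a (l 1) (c (a (l 13799776) (c (l 14067544) (l 14026208))) (a (l 13695008) (b (c (a (l 13972352) (a (l 14068312) (l 13921528))) (a (a (l 13885144) (c (l 13964512) (l 13935736))) (c (l 14055720) (l 14030128)))) (c (l 13911248) (a (l 13794592) (b (l 13738912) (l 13885144))))))))), by decide +kernel⟩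

def k84_pm_022 : ∃ t, chk3 f_pm_022 t 7 6 1 = true :=
  ⟨(b (a (b (a (b (l 16128840) (l 15815728)) (l 16315976)) (a (b (l 15451296) (c (a (l 14879032) (l 15219960)) (l 15021336))) (b (l 15916416) (l 15602744)))) (b (a (l 16326616) (l 16223544)) (c (l 16302768) (l 16290160)))) (a (c (b (a (b (a (c (l 14656888) (l 14586032)) (l 14769376)) (a (c (b (l 14295896) (l 14434592)) (l 14422472)) (l 14464056))) (b (l 15265096) (a (l 14728656) (l 15078552)))) (a (b (c (a (l 14330136) (a (l 14434592) (l 14484640))) (a (b (l 14251144) (l 14251552)) (l 14422472))) (a (l 14168120) (c (l 14330136) (b (l 14314056) (l 14251552))))) (b (a (l 14589888) (l 14728656)) (a (c (a (l 14434592) (l 14484640)) (l 14422472)) (l 14589888))))) (b (a (b (l 14655768) (l 14419424)) (l 15033136)) (a (a (b (c (l 14218968) (l 14196016)) (c (b (l 14110272) (l 14068312)) (l 14020016))) (c (l 14024872) (l 14262496))) (l 14507720)))) (b (a (l 15343144) (l 15993880)) (a (c (a (l 14772784) (l 15228120)) (l 15013328)) (l 15578032))))), by decide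 +kernel⟩

def k85_pm_022 : ∃ t, chk3 f_pm_022 t 3 7 1 = true :=
  ⟨(a (a (l 1) (b (c (l 13551192) (l 415564457959)) (l 1))) (b (b (a (c (a (l 13902432) (b (c (a (l 14330136) (b (l 14484640) (l 14434592))) (a (a (l 14251552) (l 14314056)) (l 14422472))) (a (l 14168120) (c (l 14330136) (l 14045952))))) (a (b (c (a (l 13972352) (a (l 14068312) (l 14131240))) (a (a (l 13885144) (l 13948632)) (l 14040984))) (c (l 13911248) (a (l 13794592) (l 325371079719)))) (c (b (l 14276528) (a (a (l 14068312) (l 14131240)) (l 14218968))) (a (l 13975400) (l 14262496))))) (a (c (b (a (l 14589888) (l 14728656)) (a (c (l 14457192) (l 14422472)) (l 14589888))) (l 14507720)) (c (b (l 15228120) (l 14835704)) (l 15013328)))) (a (c (l 317318064919) (a (l 13695008) (a (c (l 13911248) (b (l 13831784) (l 13794592))) (c (b (l 14057376) (l 13972352)) (b (l 14040984) (l 13915664)))))) (a (c (a (c (l 14261728) (b (l 14276640) (l 14149848))) (c (b (l 14457192) (l 14330136)) (b (l 14422472) (l 14276640)))) (c (a (b (l 14218968) (l 14099312))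 (l 14276528)) (l 13974288))) (c (c (a (a (l 14311448) (l 14545728)) (l 14753896)) (l 14424520)) (l 14507720))))) (a (c (l 13551192) (l 13269920)) (a (c (l 13929624) (b (b (c (a (l 13972352) (l 14099312)) (a (l 13915664) (l 14040984))) (a (l 13820136) (c (l 13972352) (l 13915664)))) (l 13695008))) (c (b (a (c (l 14261728) (b (l 14276640) (l 14149848))) (c (b (l 14457192) (l 14330136)) (b (l 14422472) (l 14276640)))) (l 14049232)) (c (b (a (b (l 14218968) (l 14099312)) (l 14276528)) (a (l 13911248) (l 13782280))) (b (l 14163032) (a (l 322686575127) (b (l 14040984) (l 13915664)))))))))), by decide +kernel⟩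

theorem s86_pm_022 : ∃ t, chk3 f_pm_022 t 12 12 1 = true := ex3_c k80_pm_022 k81_pm_022

theorem s87_pm_022 : ∃ t, chk3 f_pm_022 t 6 12 1 = true := ex3_a s86_pm_022 k82_pm_022

theorem s88_pm_022 : ∃ t, chk3 f_pm_022 t 6 6 1 = true := ex3_b s87_pm_022 k83_pm_022

theorem s89_pm_022 : ∃ t, chk3 f_pm_022 t 3 6 1 = true := ex3_a s88_pm_022 k84_pm_022

theorem s90_pm_022 : ∃ t, chk3 f_pm_022 t 3 3 1 = true := ex3_b s89_pm_022 k85_pm_022

theorem s91_pm_022 : ∃ t, chk3 f_pm_022 t 6 11 1 = true := ex3_a k77_pm_022 k78_pm_022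

theorem s92_pm_022 : ∃ t, chk3 f_pm_022 t 6 5 1 = true := ex3_b k76_pm_022 s91_pm_022

theorem s93_pm_022 : ∃ t, chk3 f_pm_022 t 3 5 1 = true := ex3_a s92_pm_022 k79_pm_022

theorem s94_pm_022 : ∃ t, chk3 f_pm_022 t 3 2 1 = true := ex3_b k75_pm_022 s93_pm_022

theorem s95_pm_022 : ∃ t, chk3 f_pm_022 t 3 1 1 = true := ex3_b s94_pm_022 s90_pm_022

theorem s96_pm_022 : ∃ t, chk3 f_pm_022 t 23 11 1 = true := ex3_b k72_pm_022 k73_pm_022

theorem s97_pm_022 : ∃ t, chk3 f_pm_022 t 11 11 1 = true := ex3_a k71_pm_022 s96_pm_022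

theorem s98_pm_022 : ∃ t, chk3 f_pm_022 t 22 10 1 = true := ex3_b k68_pm_022 k69_pm_022

theorem s99_pm_022 : ∃ t, chk3 f_pm_022 t 11 10 1 = true := ex3_a s98_pm_022 k70_pm_022

theorem s100_pm_022 : ∃ t, chk3 f_pm_022 t 11 5 1 = true := ex3_b s99_pm_022 s97_pm_022

theorem s101_pm_022 : ∃ t, chk3 f_pm_022 t 21 20 1 = true := ex3_c k64_pm_022 k65_pm_022

theorem s102_pm_022 : ∃ t, chk3 f_pm_022 t 21 10 1 = true := ex3_b s101_pm_022 k66_pm_022

theorem s103_pm_022 : ∃ t, chk3 f_pm_022 t 21 5 1 = true := ex3_b s102_pm_022 k67_pm_022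

theorem s104_pm_022 : ∃ t, chk3 f_pm_022 t 41 20 1 = true := ex3_a k60_pm_022 k61_pm_022

theorem s105_pm_022 : ∃ t, chk3 f_pm_022 t 41 10 1 = true := ex3_b s104_pm_022 k62_pm_022

theorem s106_pm_022 : ∃ t, chk3 f_pm_022 t 20 10 1 = true := ex3_a k59_pm_022 s105_pm_022

theorem s107_pm_022 : ∃ t, chk3 f_pm_022 t 20 5 1 = true := ex3_b s106_pm_022 k63_pm_022

theorem s108_pm_022 : ∃ t, chk3 f_pm_022 t 10 5 1 = true := ex3_a s107_pm_022 s103_pm_022

theorem s109_pm_022 : ∃ t, chk3 f_pm_022 t 5 5 1 = true := ex3_a s108_pm_022 s100_pm_022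

theorem s110_pm_022 : ∃ t, chk3 f_pm_022 t 11 4 1 = true := ex3_a k57_pm_022 k58_pm_022

theorem s111_pm_022 : ∃ t, chk3 f_pm_022 t 20 19 1 = true := ex3_a k54_pm_022 k55_pm_022

theorem s112_pm_022 : ∃ t, chk3 f_pm_022 t 20 18 1 = true := ex3_a k52_pm_022 k53_pm_022

theorem s113_pm_022 : ∃ t, chk3 f_pm_022 t 20 9 1 = true := ex3_b s112_pm_022 s111_pm_022

theorem s114_pm_022 : ∃ t, chk3 f_pm_022 t 10 9 1 = true := ex3_a s113_pm_022 k56_pm_022

theorem s115_pm_022 : ∃ t, chk3 f_pm_022 t 20 16 3 = true := ex3_a k48_pm_022 k49_pm_022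

theorem s116_pm_022 : ∃ t, chk3 f_pm_022 t 20 8 3 = true := ex3_b s115_pm_022 k50_pm_022

theorem s117_pm_022 : ∃ t, chk3 f_pm_022 t 20 8 1 = true := ex3_c k47_pm_022 s116_pm_022

theorem s118_pm_022 : ∃ t, chk3 f_pm_022 t 10 8 1 = true := ex3_a s117_pm_022 k51_pm_022

theorem s119_pm_022 : ∃ t, chk3 f_pm_022 t 10 4 1 = true := ex3_b s118_pm_022 s114_pm_022

theorem s120_pm_022 : ∃ t, chk3 f_pm_022 t 5 4 1 = true := ex3_a s119_pm_022 s110_pm_022

theorem s121_pm_022 : ∃ t, chk3 f_pm_022 t 5 2 1 = true := ex3_b s120_pm_022 s109_pm_022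

theorem s122_pm_022 : ∃ t, chk3 f_pm_022 t 5 1 1 = true := ex3_b s121_pm_022 k74_pm_022

theorem s123_pm_022 : ∃ t, chk3 f_pm_022 t 19 38 1 = true := ex3_c k42_pm_022 k43_pm_022

theorem s124_pm_022 : ∃ t, chk3 f_pm_022 t 19 19 1 = true := ex3_b s123_pm_022 k44_pm_022

theorem s125_pm_022 : ∃ t, chk3 f_pm_022 t 19 18 3 = true := ex3_a k40_pm_022 k41_pm_022

theorem s126_pm_022 : ∃ t, chk3 f_pm_022 t 19 18 2 = true := ex3_a k38_pm_022 k39_pm_022

theorem s127_pm_022 : ∃ t, chk3 f_pm_022 t 19 18 1 = true := ex3_c s126_pm_022 s125_pm_022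

theorem s128_pm_022 : ∃ t, chk3 f_pm_022 t 19 9 1 = true := ex3_b s127_pm_022 s124_pm_022

theorem s129_pm_022 : ∃ t, chk3 f_pm_022 t 37 18 3 = true := ex3_b k35_pm_022 k36_pm_022

theorem s130_pm_022 : ∃ t, chk3 f_pm_022 t 37 18 1 = true := ex3_c k34_pm_022 s129_pm_022

theorem s131_pm_022 : ∃ t, chk3 f_pm_022 t 37 9 1 = true := ex3_b s130_pm_022 k37_pm_022

theorem s132_pm_022 : ∃ t, chk3 f_pm_022 t 36 36 3 = true := ex3_c k30_pm_022 k31_pm_022

theorem s133_pm_022 : ∃ t, chk3 f_pm_022 t 36 36 1 = true := ex3_c k29_pm_022 s132_pm_022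

theorem s134_pm_022 : ∃ t, chk3 f_pm_022 t 36 18 1 = true := ex3_b s133_pm_022 k32_pm_022

theorem s135_pm_022 : ∃ t, chk3 f_pm_022 t 36 9 1 = true := ex3_b s134_pm_022 k33_pm_022

theorem s136_pm_022 : ∃ t, chk3 f_pm_022 t 18 9 1 = true := ex3_a s135_pm_022 s131_pm_022

theorem s137_pm_022 : ∃ t, chk3 f_pm_022 t 9 9 1 = true := ex3_a s136_pm_022 s128_pm_022

theorem s138_pm_022 : ∃ t, chk3 f_pm_022 t 19 35 2 = true := ex3_c k26_pm_022 k27_pm_022

theorem s139_pm_022 : ∃ t, chk3 f_pm_022 t 19 17 2 = true := ex3_b k25_pm_022 s138_pm_022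

theorem s140_pm_022 : ∃ t, chk3 f_pm_022 t 19 17 1 = true := ex3_c s139_pm_022 k28_pm_022

theorem s141_pm_022 : ∃ t, chk3 f_pm_022 t 19 16 3 = true := ex3_c k23_pm_022 k24_pm_022

theorem s142_pm_022 : ∃ t, chk3 f_pm_022 t 19 16 1 = true := ex3_c k22_pm_022 s141_pm_022

theorem s143_pm_022 : ∃ t, chk3 f_pm_022 t 19 8 1 = true := ex3_b s142_pm_022 s140_pm_022

theorem s144_pm_022 : ∃ t, chk3 f_pm_022 t 36 35 3 = true := ex3_c k19_pm_022 k20_pm_022

theorem s145_pm_022 : ∃ t, chk3 f_pm_022 t 36 17 3 = true := ex3_b k18_pm_022 s144_pm_022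

theorem s146_pm_022 : ∃ t, chk3 f_pm_022 t 18 17 3 = true := ex3_a s145_pm_022 k21_pm_022

theorem s147_pm_022 : ∃ t, chk3 f_pm_022 t 18 35 2 = true := ex3_c k16_pm_022 k17_pm_022

theorem s148_pm_022 : ∃ t, chk3 f_pm_022 t 18 34 2 = true := ex3_a k14_pm_022 k15_pm_022

theorem s149_pm_022 : ∃ t, chk3 f_pm_022 t 18 17 2 = true := ex3_b s148_pm_022 s147_pm_022

theorem s150_pm_022 : ∃ t, chk3 f_pm_022 t 18 17 1 = true := ex3_c s149_pm_022 s146_pm_022

theorem s151_pm_022 : ∃ t, chk3 f_pm_022 t 18 16 2 = true := ex3_b k11_pm_022 k12_pm_022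

theorem s152_pm_022 : ∃ t, chk3 f_pm_022 t 18 16 1 = true := ex3_c s151_pm_022 k13_pm_022

theorem s153_pm_022 : ∃ t, chk3 f_pm_022 t 18 8 1 = true := ex3_b s152_pm_022 s150_pm_022

theorem s154_pm_022 : ∃ t, chk3 f_pm_022 t 9 8 1 = true := ex3_a s153_pm_022 s143_pm_022

theorem s155_pm_022 : ∃ t, chk3 f_pm_022 t 9 4 1 = true := ex3_b s154_pm_022 s137_pm_022

theorem s156_pm_022 : ∃ t, chk3 f_pm_022 t 9 2 1 = true := ex3_b s155_pm_022 k45_pm_022

theorem s157_pm_022 : ∃ t, chk3 f_pm_022 t 9 1 1 = true := ex3_b s156_pm_022 k46_pm_022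

theorem s158_pm_022 : ∃ t, chk3 f_pm_022 t 575 8 1 = true := ex3_b k6_pm_022 k7_pm_022

theorem s159_pm_022 : ∃ t, chk3 f_pm_022 t 287 8 1 = true := ex3_a k5_pm_022 s158_pm_022

theorem s160_pm_022 : ∃ t, chk3 f_pm_022 t 143 8 1 = true := ex3_a k4_pm_022 s159_pm_022

theorem s161_pm_022 : ∃ t, chk3 f_pm_022 t 71 8 1 = true := ex3_a k3_pm_022 s160_pm_022

theorem s162_pm_022 : ∃ t, chk3 f_pm_022 t 35 8 1 = true := ex3_a k2_pm_022 s161_pm_022

theorem s163_pm_022 : ∃ t, chk3 f_pm_022 t 17 8 1 = true := ex3_a k1_pm_022 s162_pm_022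

theorem s164_pm_022 : ∃ t, chk3 f_pm_022 t 8 8 1 = true := ex3_a k0_pm_022 s163_pm_022

theorem s165_pm_022 : ∃ t, chk3 f_pm_022 t 8 4 1 = true := ex3_b s164_pm_022 k8_pm_022

theorem s166_pm_022 : ∃ t, chk3 f_pm_022 t 8 2 1 = true := ex3_b s165_pm_022 k9_pm_022

theorem s167_pm_022 : ∃ t, chk3 f_pm_022 t 8 1 1 = true := ex3_b s166_pm_022 k10_pm_022

theorem s168_pm_022 : ∃ t, chk3 f_pm_022 t 4 1 1 = true := ex3_a s167_pm_022 s157_pm_022

theorem s169_pm_022 : ∃ t, chk3 f_pm_022 t 2 1 1 = true := ex3_a s168_pm_022 s122_pm_022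

theorem s170_pm_022 : ∃ t, chk3 f_pm_022 t 1 1 1 = true := ex3_a s169_pm_022 s95_pm_022

theorem c_pm_022 : CertNX 0 536870912 1073741824 536870912 1046898278 26843546 3 true true false .pp 0 2 2
    ndN0q0 ndN7q2 pcN2 cut_pm_022 Ext.none :=
  certNX2 (fam := true) (s1 := true) (s2 := false) (a := 0) (b := 2) (c := 2) (cn := .pp) (n1 := ndN0q0) (n2 := ndN7q2) (pc := pcN2) (cut := cut_pm_022) (xt := Ext.none) (P1 := 0) (W1 := 536870912) (P2 := 1073741824) (W2 := 536870912) (P3 := 1046898278) (W3 := 26843546) (N0 := 3)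
    rfl (fun _ => rfl) s170_pm_022

noncomputable def f_pm_023 : ℕ → ℕ → ℕ → ℕ → Bool := onCell 0 536870912 1073741824 536870912 1046898278 26843546
    (rowNX 3 0 true true false .up 0 2 3 (qsf 0 536870912 1073741824 536870912 3) ndN0q0 ndN7q2 pcN3 Cut.none Ext.none)

def k0_pm_023 : ∃ t, chk3 f_pm_023 t 2 1 1 = true :=
  ⟨(b (b (l 1) (a (l 1) (b (l 1) (a (l 1) (c (l 15519056) (l 15504360)))))) (a (b (a (l 1) (a (l 1) (b (l 1) (l 410736469991)))) (a (c (a (l 419860889559) (c (a (l 14407656) (l 14555336)) (l 419324523943))) (a (b (l 1) (a (l 295306502887) (l 14117520))) (l 14350976))) (a (c (b (l 14728656) (l 14728656)) (l 14707832)) (b (l 15354008) (l 15354008))))) (b (b (a (l 693132283399) (b (l 16223544) (l 16470160))) (a (c (l 16000152) (l 15972968)) (a (l 16501648) (l 16757760)))) (a (b (l 15958688) (l 15979656)) (b (l 16627952) (l 16627952)))))), by decide +kernel⟩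

def k1_pm_023 : ∃ t, chk3 f_pm_023 t 3 1 1 = true :=
  ⟨(a (b (b (b (l 1) (c (b (l 1) (l 310875430615)) (a (l 1) (l 13546168)))) (b (c (a (l 331815280743) (l 14654392)) (a (l 14458240) (l 14709896))) (c (a (l 15666048) (l 15666048)) (a (l 15626904) (l 15626904))))) (b (b (a (c (l 16349672) (l 16334608)) (b (l 16177152) (l 16499024))) (c (l 16763976) (l 16763512))) (c (l 16777200) (l 16777200)))) (b (b (b (c (b (l 12823936) (c (l 13206704) (b (l 13058136) (a (l 13253488) (l 13253488))))) (a (b (l 1) (l 354360381591)) (b (c (l 12729864) (b (l 12570688) (l 12752808))) (l 13041488)))) (b (c (c (a (l 186320804439) (l 13550640)) (l 13447000)) (l 13351848)) (a (l 143371602519) (l 13786160)))) (b (a (b (l 14437696) (l 15040368)) (b (l 14437696) (l 15040368))) (a (c (l 15666048) (l 15626904)) (l 15646432)))) (b (b (a (l 16279208) (l 16321144)) (a (l 16763736) (l 16763696))) (a (b (l 16777168) (a (l 16773264) (b (l 16772232) (l 16743112)))) (b (a (l 16774256) (b (l 16773720) (a (l 16765512) (l 16754160))))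 (b (a (l 16747928) (a (l 16742576) (b (l 16738352) (l 16736944)))) (a (b (l 16731504) (a (l 16720312) (l 16730024))) (b (a (l 16733560) (c (l 16721728) (l 16712824))) (a (c (l 16715496) (l 16698328)) (b (a (l 16701928) (l 16676960)) (a (l 16676960) (l 4)))))))))))), by decide +kernel⟩

theorem s2_pm_023 : ∃ t, chk3 f_pm_023 t 1 1 1 = true := ex3_a k0_pm_023 k1_pm_023

theorem c_pm_023 : CertNX 0 536870912 1073741824 536870912 1046898278 26843546 3 true true false .up 0 2 3
    ndN0q0 ndN7q2 pcN3 Cut.none Ext.none :=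
  certNX0 (fam := true) (s1 := true) (s2 := false) (a := 0) (b := 2) (c := 3) (cn := .up) (n1 := ndN0q0) (n2 := ndN7q2) (pc := pcN3) (cut := Cut.none) (xt := Ext.none) (P1 := 0) (W1 := 536870912) (P2 := 1073741824) (W2 := 536870912) (P3 := 1046898278) (W3 := 26843546) (N0 := 3)
    rfl s2_pm_023

noncomputable def f_pm_033 : ℕ → ℕ → ℕ → ℕ → Bool := onCell 1610612736 536870912 0 1230186008 1046898278 26843546
    (rowNX 3 2 true true false .pnn 0 3 3 (qsf 0 536870912 0 1230186008 3) ndN0q0 ndN7q3 pcN3 Cut.none Ext.none)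

def k0_pm_033 : ∃ t, chk3 f_pm_033 t 1 2 1 = true :=
  ⟨(a (l 1) (a (l 1) (b (l 4) (b (a (a (l 1) (l 4)) (l 4)) (b (a (a (l 1) (c (l 14004952) (a (b (l 1) (l 13887744)) (l 4)))) (l 4)) (a (a (c (l 13959656) (a (l 13797104) (c (l 13949528) (b (l 13840184) (l 13946960))))) (c (a (l 14145728) (c (l 14303080) (b (l 14202056) (l 14307592)))) (a (c (b (l 14018376) (l 14124176)) (b (l 13962776) (l 14064360))) (b (c (l 14145440) (l 14091152)) (l 14254760))))) (b (l 4) (a (a (a (b (l 4) (l 14431544)) (l 4)) (l 4)) (l 4))))))))), by decide +kernel⟩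

def k1_pm_033 : ∃ t, chk3 f_pm_033 t 2 6 1 = true :=
  ⟨(b (l 1) (a (l 1) (b (l 1) (a (l 1) (b (l 1) (c (l 13814632) (a (l 1) (a (l 1) (c (l 13928016) (l 13741488)))))))))), by decide +kernel⟩

def k2_pm_033 : ∃ t, chk3 f_pm_033 t 6 6 1 = true :=
  ⟨(b (a (l 1) (b (a (l 1) (c (l 13942744) (b (l 13779176) (a (l 13839728) (c (l 13993480) (l 13937624)))))) (c (a (l 13962168) (b (l 14137656) (c (l 14308832) (a (l 14198216) (l 14320824))))) (a (b (l 13785088) (a (l 13860648) (c (l 14017456) (b (l 13925376) (l 13999432))))) (b (a (c (l 14001024) (l 13945248)) (c (l 14127392) (l 14069016))) (a (c (l 14142296) (l 14084968)) (l 14226608))))))) (a (b (c (l 317317994439) (a (l 13657984) (b (c (l 13855224) (l 219070424199)) (a (c (l 13952816) (l 234639874983)) (c (l 207796675271) (l 13769456)))))) (a (c (b (l 14006872) (a (l 14125400) (c (l 14279400) (l 14167376)))) (b (a (l 13841536) (c (l 13995720) (b (l 13896312) (l 13984880)))) (a (c (l 13903400) (b (l 13948560) (l 14039696))) (c (l 14002848) (l 14117720)))))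 (c (b (a (l 14195440) (c (l 14354016) (l 14106120))) (a (c (l 14362544) (l 14348032)) (l 14499976))) (b (a (c (b (l 14080136) (l 14161864)) (l 14063832)) (l 14228400)) (l 14360792))))) (b (a (c (c (b (l 14210976) (a (l 14307152) (l 14434976))) (b (l 235714305719) (a (l 14257200) (l 14372664)))) (b (a (c (l 14022240) (b (l 13948928) (l 14026000))) (c (l 14164552) (l 14113424))) (c (l 14248024) (l 14230768)))) (c (b (c (a (l 14400136) (l 14513560)) (l 14397048)) (a (l 14563000) (l 14705752))) (b (l 14349320) (l 14584976)))) (c (a (b (a (c (l 14473888) (l 14443256)) (l 14618480)) (l 14827576)) (l 15216640)) (a (l 14755056) (l 15117112)))))), by decide +kernel⟩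

def k3_pm_033 : ∃ t, chk3 f_pm_033 t 7 6 1 = true :=
  ⟨(a (b (a (b (c (b (l 14130544) (a (l 14189712) (c (l 14352584) (l 14292352)))) (a (b (c (l 13994360) (l 13938632)) (c (l 14120368) (l 14061680))) (b (c (l 14120040) (l 14061064)) (l 14197184)))) (c (b (a (c (l 14361376) (l 14299352)) (c (l 14478840) (l 14450544))) (a (l 14432816) (l 14648096))) (b (l 14280464) (l 14484312)))) (b (c (a (b (c (l 14348712) (l 14286400)) (c (l 14465328) (l 14433056))) (b (c (l 14470400) (l 14438872)) (l 14605520))) (a (l 14261352) (l 14435128))) (a (b (l 14568784) (l 14827184)) (l 14962944)))) (a (b (b (a (l 14649368) (l 14906864)) (l 15149008)) (l 15512328)) (b (l 15463528) (l 15998024)))) (a (b (b (a (c (b (l 14618216) (l 14821064)) (l 14636216)) (l 210684100183)) (a (b (l 15109592) (l 15424816)) (c (l 15555040) (l 15496544)))) (b (a (l 15799576) (l 15827904)) (a (l 16253176) (l 16449112)))) (a (b (b (l 4) (l 15724608)) (b (c (l 16188640) (l 16127512)) (c (l 16584816) (l 16550888)))) (b (l 4) (a (b (l 16257424)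 (c (l 16644640) (l 16627200))) (b (l 4) (a (l 16632064) (b (l 4) (l 4))))))))), by decide +kernel⟩

def k4_pm_033 : ∃ t, chk3 f_pm_033 t 2 14 1 = true :=
  ⟨(a (l 1) (c (b (a (l 13606488) (a (l 13982016) (b (l 13936856) (a (c (l 14292232) (l 14096152)) (c (l 14351784) (l 14359272)))))) (a (a (l 13908328) (b (l 14043048) (a (l 14049456) (b (l 14262680) (l 14278912))))) (b (a (a (b (l 14167520) (l 14276496)) (c (l 14379720) (l 14148624))) (a (b (l 14355872) (l 14567792)) (l 14655488))) (a (a (b (l 14288568) (l 14539248)) (l 14625696)) (l 14775792))))) (b (a (l 308727260263) (a (b (l 13771808) (a (c (l 13939352) (b (l 13832888) (l 13933912))) (c (b (l 14012048) (l 14117144)) (b (l 13956968) (l 14057920))))) (b (a (c (l 13988408) (b (l 13883880) (l 13982592))) (c (b (l 14067104) (l 14160152)) (l 14056656))) (a (c (l 14056576) (l 14134024)) (l 14331888))))) (a (b (a (l 1) (a (b (l 1) (l 13897544)) (b (l 283495207783) (c (l 14080576) (l 14022976))))) (a (b (l 13593952) (a (l 13895168) (c (l 14055120) (l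 13998880)))) (a (b (c (l 14066304) (l 14009520)) (l 14130440)) (l 13954744)))) (a (b (a (c (b (l 14097680) (l 14201336)) (l 14091352)) (l 14260664)) (l 14457976)) (l 14750656)))))), by decide +kernel⟩

def k5_pm_033 : ∃ t, chk3 f_pm_033 t 2 15 1 = true :=
  ⟨(a (b (a (l 1) (b (c (l 13877776) (a (l 1) (b (l 13828008) (a (l 13883784) (c (l 14042560) (l 13986752)))))) (a (c (l 13996216) (b (l 13822576) (a (l 13884568) (c (l 14043656) (l 13987744))))) (c (b (l 14177168) (a (l 14240112) (l 14098552))) (b (a (c (l 14041360) (l 13985552)) (l 14119488)) (a (l 14121376) (l 14313880))))))) (a (b (c (l 13891856) (a (l 1) (b (l 13704136) (a (l 13898384) (c (l 14059144) (l 14002640)))))) (a (c (l 14032616) (b (a (l 1) (l 13805792)) (a (l 202964429271) (c (l 14089624) (l 14031872))))) (c (b (c (l 14237080) (l 14145000)) (c (l 14273464) (l 14065536))) (b (a (c (l 14072512) (l 14015440)) (l 14145096)) (l 14237152))))) (b (c (a (b (l 14080400) (a (l 14255104) (l 14301424))) (b (a (l 14123168) (l 14532104)) (l 14623624)))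 (a (b (a (c (l 14049552) (l 13993416)) (l 14126200)) (c (l 14231176) (l 14208552))) (l 14548848))) (a (c (b (a (l 14312496) (l 14557200)) (l 14671336)) (l 14622856)) (c (l 15041040) (l 14978904)))))) (b (a (b (a (a (c (l 14180768) (b (c (l 14047168) (l 13991240)) (l 14120440))) (c (b (l 14243808) (l 14118960)) (c (l 14219248) (l 14185208)))) (c (b (a (l 14271720) (l 14530552)) (l 14578072)) (l 14460960))) (a (c (b (a (l 14118128) (l 14450808)) (l 14345336)) (l 14517400)) (b (l 14718248) (l 15064520)))) (b (a (b (l 14725016) (l 15062640)) (l 15477592)) (l 15639248))) (a (b (a (b (l 14730432) (l 15106208)) (l 15492912)) (l 15661256)) (b (l 16096656) (l 16455120))))), by decide +kernel⟩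

def k6_pm_033 : ∃ t, chk3 f_pm_033 t 3 7 1 = true :=
  ⟨(a (b (b (a (a (a (c (b (c (l 14345712) (l 14099840)) (l 14286000)) (b (l 14217920) (l 14453080))) (c (b (b (l 14206736) (l 14522368)) (l 14715328)) (l 14607032))) (b (c (a (l 14607936) (l 14761024)) (l 14657416)) (l 15103976))) (b (l 15469976) (l 15829304))) (a (b (a (l 15021872) (l 15562152)) (l 15693384)) (b (l 16143856) (l 16437696)))) (b (a (b (l 16083400) (l 16415704)) (b (l 16647664) (l 16758280))) (a (b (l 16649696) (l 16764120)) (l 16777128)))) (a (b (b (a (b (l 16091424) (l 16368152)) (b (l 16378088) (l 16613384))) (a (l 16673280) (l 16769512))) (a (b (l 16776272) (l 16774800)) (b (l 16727808) (l 16714592)))) (a (b (b (c (l 16680136) (l 16661160)) (c (l 16776400) (l 16776248))) (b (l 16829592) (a (l 16703616) (l 16742608)))) (a (b (c (l 16776736) (l 16776888)) (c (l 16770776) (l 16736856))) (b (a (c (l 16776768) (l 16776808)) (a (c (l 16776768) (l 16776784)) (a (c (l 16777216) (l 16777216)) (a (l 16777216) (a (l 16777216) (b (l 16756152)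 (l 16777216))))))) (a (c (l 16742112) (l 16730976)) (b (a (l 16698256) (a (l 16711712) (a (l 16709360) (a (l 16728112) (l 16756152))))) (a (l 16670416) (l 4))))))))), by decide +kernel⟩

theorem s7_pm_033 : ∃ t, chk3 f_pm_033 t 2 7 1 = true := ex3_b k4_pm_033 k5_pm_033

theorem s8_pm_033 : ∃ t, chk3 f_pm_033 t 1 7 1 = true := ex3_a s7_pm_033 k6_pm_033

theorem s9_pm_033 : ∃ t, chk3 f_pm_033 t 3 6 1 = true := ex3_a k2_pm_033 k3_pm_033

theorem s10_pm_033 : ∃ t, chk3 f_pm_033 t 1 6 1 = true := ex3_a k1_pm_033 s9_pm_033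

theorem s11_pm_033 : ∃ t, chk3 f_pm_033 t 1 3 1 = true := ex3_b s10_pm_033 s8_pm_033

theorem s12_pm_033 : ∃ t, chk3 f_pm_033 t 1 1 1 = true := ex3_b k0_pm_033 s11_pm_033

theorem c_pm_033 : CertNX 0 536870912 0 1230186008 1046898278 26843546 3 true true false .pnn 0 3 3
    ndN0q0 ndN7q3 pcN3 Cut.none Ext.none :=
  certNX2 (fam := true) (s1 := true) (s2 := false) (a := 0) (b := 3) (c := 3) (cn := .pnn) (n1 := ndN0q0) (n2 := ndN7q3) (pc := pcN3) (cut := Cut.none) (xt := Ext.none) (P1 := 0) (W1 := 536870912) (P2 := 0) (W2 := 1230186008) (P3 := 1046898278) (W3 := 26843546) (N0 := 3)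
    rfl (fun _ => rfl) s12_pm_033

noncomputable def f_pm_101 : ℕ → ℕ → ℕ → ℕ → Bool := onCell 536870912 536870912 536870912 536870912 1046898278 26843546
    (rowNX 3 1 true true false .npn 1 0 1 (qsf 536870912 536870912 0 536870912 1) ndN0q1 ndN7q0 pcN1 Cut.none Ext.none)

def k0_pm_101 : ∃ t, chk3 f_pm_101 t 4 2 1 = true :=
  ⟨(a (b (b (l 3) (a (b (l 3) (c (c (l 472614174727) (l 474224787463)) (c (l 492478398471) (l 497310236679)))) (c (c (b (b (l 3) (l 473687916551)) (b (a (l 466708594695) (l 397452247047)) (a (l 16777216) (l 16777216)))) (b (l 486035947527) (a (l 421074567175) (l 200420622343)))) (b (c (l 490867785735) (l 493015269383)) (c (c (l 394767892487) (l 392083537927)) (l 387788570631)))))) (c (b (c (b (a (b (a (l 458655531015) (l 16777216)) (l 201494364167)) (l 16777216)) (a (l 16777216) (l 16777216))) (b (a (c (l 391546667015) (l 389399183367)) (l 16777216)) (a (l 16777216) (l 16777216)))) (c (b (l 16777216) (l 16777216)) (b (l 16777216) (l 16777216)))) (b (c (b (a (c (l 386714828807)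 (l 16777216)) (l 16777216)) (a (l 16777216) (l 16777216))) (b (a (l 377588023303) (l 16777216)) (a (l 16777216) (l 16777216)))) (c (a (l 16777216) (l 16777216)) (a (l 16777216) (l 16777216)))))) (b (a (b (a (l 3) (l 1)) (c (b (c (b (a (l 471003561991) (l 355442098183)) (a (l 399062859783) (l 16777216))) (b (l 416242728967) (l 211158040583))) (c (l 16777216) (l 16777216))) (b (c (b (l 413558374407) (l 16777216)) (l 388325441543)) (c (l 16777216) (l 16777216))))) (b (l 1) (c (c (b (l 297996910599) (l 16777216)) (b (l 16777216) (l 16777216))) (c (a (l 209413210119) (l 16777216)) (l 230351175687))))) (c (b (c (c (l 16777216) (l 16777216)) (c (l 16777216) (l 16777216))) (c (l 16777216) (l 16777216))) (b (c (c (l 16777216) (l 16777216)) (b (l 16777216) (l 16777216))) (c (l 16777216) (l 16777216)))))), by decide +kernel⟩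

def k1_pm_101 : ∃ t, chk3 f_pm_101 t 5 2 1 = true :=
  ⟨(a (b (a (b (l 1) (b (l 1) (c (l 284575137799) (l 16777216)))) (l 1)) (b (c (c (l 16777216) (l 16777216)) (c (l 16777216) (l 16777216))) (c (c (l 16777216) (l 16777216)) (c (l 16777216) (l 16777216))))) (b (l 1) (a (b (c (l 301755006983) (l 16777216)) (c (l 16777216) (l 16777216))) (b (l 1) (l 16777216))))), by decide +kernel⟩

def k2_pm_101 : ∃ t, chk3 f_pm_101 t 3 2 1 = true :=
  ⟨(a (b (l 1) (a (c (l 229277433863) (l 16777216)) (l 1))) (l 1)), by decide +kernel⟩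

def k3_pm_101 : ∃ t, chk3 f_pm_101 t 2 3 1 = true :=
  ⟨(b (b (b (a (c (a (c (l 16777192) (l 16777192)) (l 16777184)) (a (c (l 16777192) (l 16777192)) (l 16777176))) (a (c (l 16777168) (l 16777168)) (l 16777160))) (a (c (a (l 16756936) (l 16749648)) (a (l 16756224) (l 16748680))) (a (c (l 16743808) (l 16742632)) (l 16736864)))) (a (a (b (c (l 16708544) (l 16706136)) (b (c (l 16661608) (l 16657552)) (c (l 16571504) (l 16501368)))) (b (c (l 16690776) (l 16687744)) (b (c (l 16638048) (l 16633160)) (l 16516928)))) (c (b (l 16663824) (a (l 16562776) (l 16533336))) (b (l 16659840) (a (l 16555248) (l 16524776)))))) (b (a (a (b (c (l 16246600) (l 16272864)) (c (l 15999352) (l 15972048))) (c (l 16024000) (l 16043184))) (a (c (l 16028456) (l 16025352)) (c (l 16050752) (l 16025256)))) (a (a (c (b (l 15663840) (l 15325896)) (l 15282912)) (c (l 15421784) (l 15395912))) (a (b (l 15543904) (l 15177032)) (b (l 15487792) (l 15108248)))))), by decide +kernel⟩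

def k4_pm_101 : ∃ t, chk3 f_pm_101 t 3 3 1 = true :=
  ⟨(a (a (b (b (c (l 16754776) (l 16753992)) (b (l 16632632) (b (l 16551168) (l 16440160)))) (b (c (l 16006216) (l 15979152)) (b (l 15426424) (l 15033152)))) (b (b (b (l 1) (l 16651128)) (b (l 16559624) (b (l 16508392) (l 16393056)))) (b (a (l 15955640) (l 15752456)) (b (l 15360640) (l 14955800))))) (b (a (b (l 1) (b (l 1) (a (l 15956584) (l 1)))) (l 1)) (a (b (a (l 39222362407) (b (l 15248600) (l 15082000))) (a (b (l 15212576) (l 14936936)) (b (l 14661664) (b (l 14503920) (l 14338776))))) (a (b (a (b (l 1) (l 14649472)) (l 1)) (b (a (l 14258488) (c (l 13895744) (l 13813512))) (a (l 13889888) (c (l 13487984) (l 13415664))))) (b (l 1) (a (c (a (b (l 13729408) (l 13302944)) (b (l 1) (b (l 13251576) (l 13052936)))) (b (l 13547472) (l 13126040))) (b (l 1) (c (l 343085930455) (c (a (l 12948016) (l 12813320)) (a (l 12897488) (l 223900176055))))))))))), by decide +kernel⟩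

theorem s5_pm_101 : ∃ t, chk3 f_pm_101 t 1 3 1 = true := ex3_a k3_pm_101 k4_pm_101

theorem s6_pm_101 : ∃ t, chk3 f_pm_101 t 2 2 1 = true := ex3_a k0_pm_101 k1_pm_101

theorem s7_pm_101 : ∃ t, chk3 f_pm_101 t 1 2 1 = true := ex3_a s6_pm_101 k2_pm_101

theorem s8_pm_101 : ∃ t, chk3 f_pm_101 t 1 1 1 = true := ex3_b s7_pm_101 s5_pm_101

theorem c_pm_101 : CertNX 536870912 536870912 0 536870912 1046898278 26843546 3 true true false .npn 1 0 1
    ndN0q1 ndN7q0 pcN1 Cut.none Ext.none :=
  certNX1 (fam := true) (s1 := true) (s2 := false) (a := 1) (b := 0) (c := 1) (cn := .npn) (n1 := ndN0q1) (n2 := ndN7q0) (pc := pcN1) (cut := Cut.none) (xt := Ext.none) (P1 := 536870912) (W1 := 536870912) (P2 := 0) (W2 := 536870912) (P3 := 1046898278) (W3 := 26843546) (N0 := 3)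
    rfl (fun _ => rfl) s8_pm_101

noncomputable def f_pm_102 : ℕ → ℕ → ℕ → ℕ → Bool := onCell 536870912 536870912 1073741824 536870912 1046898278 26843546
    (rowNX 3 1 true true false .npp 1 0 2 (qsf 536870912 536870912 0 536870912 2) ndN0q1 ndN7q0 pcN2 Cut.none Ext.none)

def k0_pm_102 : ∃ t, chk3 f_pm_102 t 2 2 1 = true :=
  ⟨(a (b (b (a (c (l 15271464) (l 15218608)) (c (l 15188312) (l 15132536))) (a (c (l 14820664) (l 14751992)) (c (l 14825256) (l 14756736)))) (b (b (b (a (l 2) (l 14458288)) (l 2)) (l 2)) (l 2))) (b (b (a (c (l 15099696) (l 15040808)) (l 14973288)) (a (b (l 14925176) (l 14674040)) (b (l 14920496) (l 14689344)))) (b (b (b (a (l 14480776) (l 14504832)) (l 14711920)) (a (l 15430664) (l 15447032))) (b (c (l 16339288) (l 16323912)) (l 16776592))))), by decide +kernel⟩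

def k1_pm_102 : ∃ t, chk3 f_pm_102 t 3 2 1 = true :=
  ⟨(b (a (b (a (c (l 14900520) (l 14834648)) (c (l 14792856) (l 14724416))) (a (b (l 14915408) (l 14705928)) (b (l 14916720) (l 14727048)))) (a (b (a (c (b (l 14749888) (l 14909344)) (b (l 14729480) (l 14887944))) (c (b (l 14219360) (l 14380624)) (b (l 14147928) (l 14312032)))) (b (a (c (l 15026960) (l 15003968)) (c (l 14507280) (l 14435024))) (a (l 14887384) (l 14375848)))) (b (a (c (c (l 13646064) (b (l 13470640) (l 13647160))) (b (c (l 13417816) (l 13360680)) (l 13569096))) (c (a (c (l 13142008) (b (l 12983400) (l 13172184))) (b (l 12748024) (c (l 12978408) (l 12912376)))) (c (a (b (l 12914568) (l 13102824)) (b (a (l 12712176) (l 12577496)) (a (l 12906656) (l 12776280)))) (b (b (c (l 12538688) (l 12631720)) (l 12515848)) (l 12889336))))) (a (a (b (l 13839808) (l 13896800)) (b (b (l 13297672) (l 13563464)) (l 13492984))) (c (b (a (c (a (l 13473104) (l 13344664)) (l 13324040)) (c (l 13151144) (l 13073944))) (a (l 13320800) (l 13109496))) (a (l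 13207464) (b (a (l 13018904) (l 12900968)) (l 12716696)))))))) (a (b (b (b (a (l 14530888) (l 14565376)) (a (l 14749856) (l 14784312))) (a (l 15464728) (l 15483648))) (b (a (l 16340752) (l 16164704)) (a (l 16776608) (l 16746632)))) (a (b (b (b (l 14570232) (l 14763712)) (l 15064816)) (b (l 15686952) (l 16174216))) (b (a (b (b (l 13649648) (l 13875312)) (a (l 14656648) (l 14300512))) (b (a (c (b (l 13377680) (l 13619328)) (l 13383648)) (c (l 13332160) (b (l 13064104) (l 13328264)))) (c (a (l 14166176) (l 14008032)) (a (l 14073664) (l 13897432))))) (a (b (a (l 15265776) (l 14909096)) (l 15363504)) (a (b (c (l 14760352) (l 14690216)) (l 14935560)) (b (c (l 14595312) (l 14507296)) (c (l 14940968) (l 14866712))))))))), by decide +kernel⟩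

def k2_pm_102 : ∃ t, chk3 f_pm_102 t 1 3 1 = true :=
  ⟨(b (a (a (l 2) (c (l 16777216) (l 16777216))) (a (b (a (l 16777216) (l 16751424)) (a (l 16777040) (l 16767352))) (a (b (l 16225688) (l 16353192)) (a (b (l 15269472) (l 15582272)) (b (c (a (l 15305104) (l 15188312)) (a (l 15256808) (l 15124216))) (c (a (l 15517184) (l 15438256)) (a (l 15478728) (l 15385672)))))))) (a (l 2) (a (a (l 2) (l 16768224)) (a (c (l 16363888) (l 16349328)) (a (c (l 15827064) (l 15737344)) (c (a (l 15525080) (l 15447504)) (a (l 15487024) (l 15248584)))))))), by decide +kernel⟩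

theorem s3_pm_102 : ∃ t, chk3 f_pm_102 t 1 2 1 = true := ex3_a k0_pm_102 k1_pm_102

theorem s4_pm_102 : ∃ t, chk3 f_pm_102 t 1 1 1 = true := ex3_b s3_pm_102 k2_pm_102

theorem c_pm_102 : CertNX 536870912 536870912 0 536870912 1046898278 26843546 3 true true false .npp 1 0 2
    ndN0q1 ndN7q0 pcN2 Cut.none Ext.none :=
  certNX1 (fam := true) (s1 := true) (s2 := false) (a := 1) (b := 0) (c := 2) (cn := .npp) (n1 := ndN0q1) (n2 := ndN7q0) (pc := pcN2) (cut := Cut.none) (xt := Ext.none) (P1 := 536870912) (W1 := 536870912) (P2 := 0) (W2 := 536870912) (P3 := 1046898278) (W3 := 26843546) (N0 := 3)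
    rfl (fun _ => rfl) s4_pm_102

noncomputable def f_pm_112 : ℕ → ℕ → ℕ → ℕ → Bool := onCell 1073741824 536870912 536870912 536870912 1046898278 26843546
    (rowNX 3 2 true true false .dn 1 1 2 (qsf 536870912 536870912 536870912 536870912 2) ndN0q1 ndN7q1 pcN2 Cut.none Ext.none)

def k0_pm_112 : ∃ t, chk3 f_pm_112 t 1 1 1 = true :=
  ⟨(a (a (b (b (a (b (c (a (l 15454528) (l 15182200)) (l 409125646839)) (c (l 444022512839) (l 472476573511))) (b (c (l 14823048) (l 14754456)) (c (l 369396321303) (l 347921347335)))) (a (l 1) (b (c (l 450463967415) (l 457443270583)) (l 1)))) (l 1)) (b (a (b (a (a (b (l 14461136) (l 14439768)) (b (l 14685672) (l 14663984))) (b (l 15426912) (l 15390824))) (b (a (a (l 469253790487) (l 352216298983)) (c (l 15461736) (l 15461800))) (a (l 1) (l 1098468855543)))) (b (a (b (l 16330176) (l 16303680)) (l 16776592)) (a (b (b (l 16343208) (l 16434872)) (l 459593342167)) (b (l 16487592) (l 15999920))))) (a (l 1) (b (a (l 1) (b (l 399999113207) (l 1))) (l 1))))) (a (a (b (b (l 16777216)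 (b (l 16498016) (l 16041696))) (b (b (l 364565632455) (c (l 14355312) (l 14444456))) (l 1))) (b (b (b (l 16773016) (l 16777216)) (b (l 16592392) (l 16041696))) (b (b (l 15162576) (c (l 14544056) (l 14465424))) (b (c (b (l 13652976) (l 1)) (l 529917905383)) (l 1))))) (b (b (a (b (a (l 16682288) (l 16445056)) (l 16772512)) (b (a (b (l 15686480) (l 16356592)) (b (a (l 15420192) (c (l 15358640) (l 15489520))) (l 15707456))) (a (l 16682288) (l 16445056)))) (b (a (l 16592392) (l 16587848)) (a (l 16041696) (l 16041696)))) (b (b (a (l 15393264) (l 15393264)) (c (l 14292400) (a (l 14465424) (l 14465424)))) (b (c (b (l 13652976) (c (b (l 13531400) (l 13409824)) (l 13370024))) (a (l 13409280) (l 13409280))) (c (b (c (l 13145464) (b (l 13183368) (l 13005936))) (l 12802264)) (a (b (l 486430497287) (l 1)) (b (l 12977160) (c (l 12708024) (b (l 12719832) (l 12559560))))))))))), by decide +kernel⟩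

theorem c_pm_112 : CertNX 536870912 536870912 536870912 536870912 1046898278 26843546 3 true true false .dn 1 1 2
    ndN0q1 ndN7q1 pcN2 Cut.none Ext.none :=
  certNX2 (fam := true) (s1 := true) (s2 := false) (a := 1) (b := 1) (c := 2) (cn := .dn) (n1 := ndN0q1) (n2 := ndN7q1) (pc := pcN2) (cut := Cut.none) (xt := Ext.none) (P1 := 536870912) (W1 := 536870912) (P2 := 536870912) (W2 := 536870912) (P3 := 1046898278) (W3 := 26843546) (N0 := 3)
    rfl (fun _ => rfl) k0_pm_112

end Pool.Agent.Strip051.G.IE1.Tab.C.NA07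

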