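import Pool.Agent.Strip051.G.IE1.Tab

/-! # Certificates N26 (generated) -/

set_option linter.all false
set_option maxRecDepth 100000

namespace Pool.Agent.Strip051.G.IE1.Tab.C.NA07

open Pool.Agent.Strip051.PB Pool.Agent.Strip051.PB.T
open Pool.Agent.Strip051.G.IE1.Tab

noncomputable def f_pm_113 : ℕ → ℕ → ℕ → ℕ → Bool := onCell 536870912 536870912 536870912 536870912 1046898278 26843546
    (rowNX 3 0 true true false .nn 1 1 3 (qsf 536870912 536870912 536870912 536870912 3) ndN0q1 ndN7q1 pcN3 Cut.none Ext.none)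

def k0_pm_113 : ∃ t, chk3 f_pm_113 t 2 1 1 = true :=
  ⟨(b (b (l 1) (a (l 1) (b (l 1) (l 16041696)))) (b (a (b (l 1) (a (l 1) (l 14504672))) (b (l 196525036999) (a (l 14504672) (l 14504672)))) (a (b (c (b (l 13652976) (c (l 265777511047) (l 13370024))) (l 13409280)) (c (b (c (l 13145464) (b (l 13183368) (l 13005936))) (l 12802264)) (b (c (l 12919744) (l 12934816)) (c (b (l 12784696) (l 12630320)) (b (l 12719832) (a (l 12559560) (l 12559560))))))) (b (c (b (l 13652976) (c (a (l 13456464) (l 13456464)) (l 13370024))) (a (l 13409280) (l 13409280))) (c (b (c (l 13145464) (b (l 13183368) (l 13005936))) (a (l 12802264) (l 12802264))) (b (a (l 12977160) (l 12977160)) (c (a (l 12708024) (l 12708024)) (b (l 12719832) (a (l 12559560) (l 12559560)))))))))), by decide +kernel⟩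

def k1_pm_113 : ∃ t, chk3 f_pm_113 t 3 1 1 = true :=
  ⟨(b (b (a (a (l 1) (l 311418755847)) (b (a (l 16356592) (a (l 15693400) (c (l 15442432) (l 15427032)))) (a (l 16356592) (a (l 15546600) (l 4))))) (b (a (a (l 16592392) (l 16583800)) (a (a (l 16339440) (l 16018480)) (a (a (l 15710816) (l 4)) (l 4)))) (a (a (l 16041696) (l 15949360)) (a (c (l 15672496) (l 15443888)) (l 4))))) (a (a (b (b (l 15393264) (c (l 14544056) (l 14465424))) (b (c (b (l 13652976) (c (l 13456464) (l 13370024))) (l 13409280)) (c (b (c (l 13145464) (b (l 13183368) (l 13005936))) (l 12802264)) (b (c (l 13003624) (l 12934816)) (c (b (l 12784696) (l 12630320)) (b (l 12719832) (l 12412752))))))) (a (b (b (l 15393264) (l 14504672)) (b (c (b (l 13652976) (c (l 13456464) (l 13370024))) (l 13409280)) (b (c (c (l 13145464) (l 12986688)) (l 12977160)) (l 4)))) (b (b (l 15377112) (b (l 14781360) (l 14188984))) (b (b (c (l 13638760) (l 13549040)) (l 4)) (l 4))))) (b (a (a (b (c (l 15198456) (l 15118752)) (b (l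 14568960) (l 4))) (l 4)) (l 4)) (l 4)))), by decide +kernel⟩

theorem s2_pm_113 : ∃ t, chk3 f_pm_113 t 1 1 1 = true := ex3_a k0_pm_113 k1_pm_113

theorem c_pm_113 : CertNX 536870912 536870912 536870912 536870912 1046898278 26843546 3 true true false .nn 1 1 3
    ndN0q1 ndN7q1 pcN3 Cut.none Ext.none :=
  certNX0 (fam := true) (s1 := true) (s2 := false) (a := 1) (b := 1) (c := 3) (cn := .nn) (n1 := ndN0q1) (n2 := ndN7q1) (pc := pcN3) (cut := Cut.none) (xt := Ext.none) (P1 := 536870912) (W1 := 536870912) (P2 := 536870912) (W2 := 536870912) (P3 := 1046898278) (W3 := 26843546) (N0 := 3)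
    rfl s2_pm_113

noncomputable def f_pm_123 : ℕ → ℕ → ℕ → ℕ → Bool := onCell 1610612736 536870912 1073741824 536870912 1046898278 26843546
    (rowNX 3 2 true true false .npn 1 2 3 (qsf 536870912 536870912 1073741824 536870912 3) ndN0q1 ndN7q2 pcN3 Cut.none Ext.none)

def k0_pm_123 : ∃ t, chk3 f_pm_123 t 2 1 1 = true :=
  ⟨(b (b (a (b (c (b (l 12823936) (c (l 13206704) (b (l 13058136) (l 13253488)))) (b (c (b (l 12641376) (l 12628072)) (b (a (l 12570688) (l 12570688)) (l 12752808))) (c (l 220679574055) (l 12998944)))) (c (b (c (a (l 13466752) (l 13550640)) (l 13447000)) (l 184173895383)) (a (l 13546168) (l 13546168)))) (b (c (c (a (l 13038680) (l 13038680)) (b (l 12706792) (a (l 13026664) (l 12900832)))) (b (a (c (l 12729864) (b (l 12570688) (l 12752808))) (c (l 12729864) (b (l 12570688) (l 12752808)))) (a (l 13041488) (l 13041488)))) (a (b (c (c (l 13550640) (l 13447000)) (l 13351848)) (l 13786160)) (b (c (c (l 13550640) (l 13447000)) (l 13351848)) (l 13786160))))) (a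 (b (a (l 1) (c (l 14780216) (l 14709896))) (l 1)) (b (a (b (l 14437696) (l 15040368)) (b (l 14437696) (l 15040368))) (c (l 15666048) (l 15563992))))) (b (a (l 1) (b (a (l 1) (l 16216288)) (l 1))) (l 1))), by decide +kernel⟩

def k1_pm_123 : ∃ t, chk3 f_pm_123 t 3 1 1 = true :=
  ⟨(a (a (b (b (b (c (b (l 12823936) (c (l 13206696) (b (l 13058128) (l 13253488)))) (b (c (l 12583064) (b (l 12570688) (l 12752808))) (l 12978568))) (b (c (c (l 13550632) (l 13446992)) (l 13351840)) (l 13786160))) (b (c (l 14780208) (l 14709888)) (l 15478648))) (b (b (l 16321136) (l 16763728)) (l 1))) (b (a (b (b (b (l 4) (c (c (l 13206704) (l 13068600)) (l 13041488))) (c (b (c (l 13550632) (l 13446992)) (l 13837920)) (l 13546152))) (b (l 14744960) (l 15646376))) (b (b (l 4) (b (l 4) (l 13786160))) (b (c (l 14780208) (l 14709888)) (l 15646392)))) (b (b (a (l 16342056) (l 16342056)) (a (l 16763672) (l 16763672))) (b (l 16777144) (l 1))))) (a (b (b (l 4) (b (a (c (l 14779824) (l 14709416)) (l 4)) (a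 (c (l 15665640) (l 15626416)) (l 4)))) (c (b (b (a (l 16349240) (l 16337912)) (a (l 16763104) (l 16749832))) (a (l 16775440) (l 16746432))) (b (b (a (l 16334112) (l 16320360)) (a (l 16762536) (l 16748456))) (a (l 16775344) (l 16745360))))) (b (l 4) (b (a (a (b (l 4) (l 16660144)) (l 4)) (l 4)) (b (a (c (l 16751328) (l 16746448)) (l 4)) (a (c (l 16721000) (l 16714984)) (a (l 16701928) (l 4)))))))), by decide +kernel⟩

theorem s2_pm_123 : ∃ t, chk3 f_pm_123 t 1 1 1 = true := ex3_a k0_pm_123 k1_pm_123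

theorem c_pm_123 : CertNX 536870912 536870912 1073741824 536870912 1046898278 26843546 3 true true false .npn 1 2 3
    ndN0q1 ndN7q2 pcN3 Cut.none Ext.none :=
  certNX2 (fam := true) (s1 := true) (s2 := false) (a := 1) (b := 2) (c := 3) (cn := .npn) (n1 := ndN0q1) (n2 := ndN7q2) (pc := pcN3) (cut := Cut.none) (xt := Ext.none) (P1 := 536870912) (W1 := 536870912) (P2 := 1073741824) (W2 := 536870912) (P3 := 1046898278) (W3 := 26843546) (N0 := 3)
    rfl (fun _ => rfl) s2_pm_123

noncomputable def f_pm_133 : ℕ → ℕ → ℕ → ℕ → Bool := onCell 536870912 536870912 0 1230186008 1046898278 26843546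
    (rowNX 3 0 true true false .dn 1 3 3 (qsf 536870912 536870912 0 1230186008 3) ndN0q1 ndN7q3 pcN3 Cut.none Ext.none)

def k0_pm_133 : ∃ t, chk3 f_pm_133 t 1 1 1 = true :=
  ⟨(b (l 2) (b (l 2) (a (b (l 2) (l 4)) (l 2)))), by decide +kernel⟩

theorem c_pm_133 : CertNX 536870912 536870912 0 1230186008 1046898278 26843546 3 true true false .dn 1 3 3
    ndN0q1 ndN7q3 pcN3 Cut.none Ext.none :=
  certNX0 (fam := true) (s1 := true) (s2 := false) (a := 1) (b := 3) (c := 3) (cn := .dn) (n1 := ndN0q1) (n2 := ndN7q3) (pc := pcN3) (cut := Cut.none) (xt := Ext.none) (P1 := 536870912) (W1 := 536870912) (P2 := 0) (W2 := 1230186008) (P3 := 1046898278) (W3 := 26843546) (N0 := 3)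
    rfl k0_pm_133

noncomputable def f_pm_202 : ℕ → ℕ → ℕ → ℕ → Bool := onCell 0 536870912 1073741824 536870912 1046898278 26843546
    (rowNX 3 1 true true false .pp 2 0 2 (qsf 0 536870912 0 536870912 2) ndN0q2 ndN7q0 pcN2 Cut.none Ext.none)

def k0_pm_202 : ∃ t, chk3 f_pm_202 t 1 4 1 = true :=
  ⟨(a (b (l 1) (l 4)) (a (b (l 1) (a (b (l 1) (b (l 13661120) (l 13934328))) (b (c (b (c (l 13619544) (l 13510872)) (c (l 13704864) (l 13598608))) (b (l 13417368) (l 13515416))) (a (l 13811912) (l 13697840))))) (b (b (a (l 1) (a (b (l 1) (c (l 12702728) (c (l 12631984) (l 12563352)))) (c (a (l 12648728) (l 12623432)) (c (a (b (l 12492232) (l 12598472)) (b (l 12468512) (l 12572568))) (a (b (l 12417928) (l 12526912)) (b (c (l 12412176) (l 12369400)) (l 12496680))))))) (a (b (a (l 1) (c (l 13035840) (l 12912968))) (c (c (l 13271792) (a (l 13304200) (l 13140632))) (l 13100560))) (c (a (b (a (l 12847640) (l 12837272)) (c (l 13007944) (l 12962880))) (c (l 12885128) (b (l 12761024) (l 12874648))))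 (a (b (l 12705856) (l 12805424)) (a (l 12721872) (c (l 12723384) (l 12646464))))))) (a (b (c (b (c (l 13409344) (l 13307272)) (c (l 13475368) (l 13375224))) (b (l 13209232) (l 13285656))) (a (l 13559456) (l 13346272))) (b (c (a (c (b (l 13129952) (l 13182816)) (l 13072168)) (c (l 13070272) (a (l 12996640) (l 12960848)))) (a (l 12937328) (a (l 12893128) (c (l 12891984) (l 12818080))))) (a (c (l 13170112) (l 13022680)) (c (l 13050784) (a (l 12945624) (l 12885120))))))))), by decide +kernel⟩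

def k1_pm_202 : ∃ t, chk3 f_pm_202 t 1 5 1 = true :=
  ⟨(a (l 4) (a (a (b (b (b (l 14271064) (l 14602088)) (l 4)) (l 4)) (b (b (b (l 14140016) (l 14455576)) (l 14715112)) (b (l 15255256) (l 15675768)))) (b (a (b (b (l 13732368) (l 14028984)) (c (l 14559856) (l 14479632))) (b (a (b (l 13284280) (l 13566592)) (c (b (l 13191648) (l 13459568)) (b (l 13050200) (l 13327144)))) (a (c (l 14158216) (l 14043480)) (c (l 13998320) (a (l 13935552) (l 13854144)))))) (a (b (l 14991912) (l 15328640)) (b (a (l 14583352) (c (l 14561472) (l 14469584))) (a (l 14971944) (c (l 14907968) (l 14829480)))))))), by decide +kernel⟩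

def k2_pm_202 : ∃ t, chk3 f_pm_202 t 1 3 1 = true :=
  ⟨(a (l 4) (b (a (b (a (l 4) (b (l 16016280) (l 4))) (l 4)) (a (b (b (l 15604728) (l 15827600)) (a (l 4) (l 15909376))) (b (a (c (l 15360280) (l 15289672)) (c (l 15199824) (l 14944344))) (a (c (l 15691272) (l 15635024)) (c (l 15490352) (l 15415728)))))) (a (l 4) (a (l 4) (a (b (l 15519904) (l 4)) (c (l 15270328) (a (l 15508592) (l 15406232)))))))), by decide +kernel⟩

theorem s3_pm_202 : ∃ t, chk3 f_pm_202 t 1 2 1 = true := ex3_b k0_pm_202 k1_pm_202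

theorem s4_pm_202 : ∃ t, chk3 f_pm_202 t 1 1 1 = true := ex3_b s3_pm_202 k2_pm_202

theorem c_pm_202 : CertNX 0 536870912 0 536870912 1046898278 26843546 3 true true false .pp 2 0 2
    ndN0q2 ndN7q0 pcN2 Cut.none Ext.none :=
  certNX1 (fam := true) (s1 := true) (s2 := false) (a := 2) (b := 0) (c := 2) (cn := .pp) (n1 := ndN0q2) (n2 := ndN7q0) (pc := pcN2) (cut := Cut.none) (xt := Ext.none) (P1 := 0) (W1 := 536870912) (P2 := 0) (W2 := 536870912) (P3 := 1046898278) (W3 := 26843546) (N0 := 3)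
    rfl (fun _ => rfl) s4_pm_202

noncomputable def f_pm_203 : ℕ → ℕ → ℕ → ℕ → Bool := onCell 0 536870912 1610612736 536870912 1046898278 26843546
    (rowNX 3 1 true true false .up 2 0 3 (qsf 0 536870912 0 536870912 3) ndN0q2 ndN7q0 pcN3 Cut.none Ext.none)

def k0_pm_203 : ∃ t, chk3 f_pm_203 t 1 1 1 = true :=
  ⟨(a (l 4) (b (l 4) (l 2))), by decide +kernel⟩

theorem c_pm_203 : CertNX 0 536870912 0 536870912 1046898278 26843546 3 true true false .up 2 0 3
    ndN0q2 ndN7q0 pcN3 Cut.none Ext.none :=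
  certNX1 (fam := true) (s1 := true) (s2 := false) (a := 2) (b := 0) (c := 3) (cn := .up) (n1 := ndN0q2) (n2 := ndN7q0) (pc := pcN3) (cut := Cut.none) (xt := Ext.none) (P1 := 0) (W1 := 536870912) (P2 := 0) (W2 := 536870912) (P3 := 1046898278) (W3 := 26843546) (N0 := 3)
    rfl (fun _ => rfl) k0_pm_203

noncomputable def f_pm_213 : ℕ → ℕ → ℕ → ℕ → Bool := onCell 0 536870912 536870912 536870912 1046898278 26843546
    (rowNX 3 0 true true false .pnn 2 1 3 (qsf 0 536870912 536870912 536870912 3) ndN0q2 ndN7q1 pcN3 Cut.none Ext.none)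

def k0_pm_213 : ∃ t, chk3 f_pm_213 t 1 1 1 = true :=
  ⟨(a (l 4) (b (l 4) (l 4))), by decide +kernel⟩

theorem c_pm_213 : CertNX 0 536870912 536870912 536870912 1046898278 26843546 3 true true false .pnn 2 1 3
    ndN0q2 ndN7q1 pcN3 Cut.none Ext.none :=
  certNX0 (fam := true) (s1 := true) (s2 := false) (a := 2) (b := 1) (c := 3) (cn := .pnn) (n1 := ndN0q2) (n2 := ndN7q1) (pc := pcN3) (cut := Cut.none) (xt := Ext.none) (P1 := 0) (W1 := 536870912) (P2 := 536870912) (W2 := 536870912) (P3 := 1046898278) (W3 := 26843546) (N0 := 3)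
    rfl k0_pm_213

noncomputable def f_mm_001 : ℕ → ℕ → ℕ → ℕ → Bool := onCell 0 536870912 0 536870912 1046898278 26843546
    (rowNX 3 0 true false false .up 0 0 1 (qsf 0 536870912 0 536870912 1) ndN0q0 ndN7q0 pcN1 Cut.none Ext.none)

def k0_mm_001 : ∃ t, chk3 f_mm_001 t 1 1 1 = true :=
  ⟨(l 4), by decide +kernel⟩

theorem c_mm_001 : CertNX 0 536870912 0 536870912 1046898278 26843546 3 true false false .up 0 0 1
    ndN0q0 ndN7q0 pcN1 Cut.none Ext.none :=
  certNX0 (fam := true) (s1 := false) (s2 := false) (a := 0) (b := 0) (c := 1) (cn := .up) (n1 := ndN0q0) (n2 := ndN7q0) (pc := pcN1) (cut := Cut.none) (xt := Ext.none) (P1 := 0) (W1 := 536870912) (P2 := 0) (W2 := 536870912) (P3 := 1046898278) (W3 := 26843546) (N0 := 3)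
    rfl k0_mm_001

noncomputable def f_mm_011 : ℕ → ℕ → ℕ → ℕ → Bool := onCell 0 536870912 536870912 536870912 1046898278 26843546
    (rowNX 3 0 true false false .pnn 0 1 1 (qsf 0 536870912 536870912 536870912 1) ndN0q0 ndN7q1 pcN1 Cut.none Ext.none)

def k0_mm_011 : ∃ t, chk3 f_mm_011 t 1 1 1 = true :=
  ⟨(l 4), by decide +kernel⟩

theorem c_mm_011 : CertNX 0 536870912 536870912 536870912 1046898278 26843546 3 true false false .pnn 0 1 1
    ndN0q0 ndN7q1 pcN1 Cut.none Ext.none :=
  certNX0 (fam := true) (s1 := false) (s2 := false) (a := 0) (b := 1) (c := 1) (cn := .pnn) (n1 := ndN0q0) (n2 := ndN7q1) (pc := pcN1) (cut := Cut.none) (xt := Ext.none) (P1 := 0) (W1 := 536870912) (P2 := 536870912) (W2 := 536870912) (P3 := 1046898278) (W3 := 26843546) (N0 := 3)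
    rfl k0_mm_011

noncomputable def f_mm_012 : ℕ → ℕ → ℕ → ℕ → Bool := onCell 0 536870912 536870912 536870912 1046898278 26843546
    (rowNX 3 0 true false false .pnp 0 1 2 (qsf 0 536870912 536870912 536870912 2) ndN0q0 ndN7q1 pcN2 Cut.none Ext.none)

def k0_mm_012 : ∃ t, chk3 f_mm_012 t 1 1 1 = true :=
  ⟨(l 4), by decide +kernel⟩

theorem c_mm_012 : CertNX 0 536870912 536870912 536870912 1046898278 26843546 3 true false false .pnp 0 1 2
    ndN0q0 ndN7q1 pcN2 Cut.none Ext.none :=
  certNX0 (fam := true) (s1 := false) (s2 := false) (a := 0) (b := 1) (c := 2) (cn := .pnp) (n1 := ndN0q0) (n2 := ndN7q1) (pc := pcN2) (cut := Cut.none) (xt := Ext.none) (P1 := 0) (W1 := 536870912) (P2 := 536870912) (W2 := 536870912) (P3 := 1046898278) (W3 := 26843546) (N0 := 3)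
    rfl k0_mm_012

noncomputable def f_mm_022 : ℕ → ℕ → ℕ → ℕ → Bool := onCell 0 536870912 1073741824 536870912 1046898278 26843546
    (rowNX 3 0 true false false .pp 0 2 2 (qsf 0 536870912 1073741824 536870912 2) ndN0q0 ndN7q2 pcN2 Cut.none Ext.none)

def k0_mm_022 : ∃ t, chk3 f_mm_022 t 1 1 1 = true :=
  ⟨(l 4), by decide +kernel⟩

theorem c_mm_022 : CertNX 0 536870912 1073741824 536870912 1046898278 26843546 3 true false false .pp 0 2 2
    ndN0q0 ndN7q2 pcN2 Cut.none Ext.none :=
  certNX0 (fam := true) (s1 := false) (s2 := false) (a := 0) (b := 2) (c := 2) (cn := .pp) (n1 := ndN0q0) (n2 := ndN7q2) (pc := pcN2) (cut := Cut.none) (xt := Ext.none) (P1 := 0) (W1 := 536870912) (P2 := 1073741824) (W2 := 536870912) (P3 := 1046898278) (W3 := 26843546) (N0 := 3)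
    rfl k0_mm_022

noncomputable def f_mm_023 : ℕ → ℕ → ℕ → ℕ → Bool := onCell 0 536870912 1073741824 536870912 1046898278 26843546
    (rowNX 3 0 true false false .up 0 2 3 (qsf 0 536870912 1073741824 536870912 3) ndN0q0 ndN7q2 pcN3 Cut.none Ext.none)

def k0_mm_023 : ∃ t, chk3 f_mm_023 t 1 1 1 = true :=
  ⟨(l 4), by decide +kernel⟩

theorem c_mm_023 : CertNX 0 536870912 1073741824 536870912 1046898278 26843546 3 true false false .up 0 2 3
    ndN0q0 ndN7q2 pcN3 Cut.none Ext.none :=
  certNX0 (fam := true) (s1 := false) (s2 := false) (a := 0) (b := 2) (c := 3) (cn := .up) (n1 := ndN0q0) (n2 := ndN7q2) (pc := pcN3) (cut := Cut.none) (xt := Ext.none) (P1 := 0) (W1 := 536870912) (P2 := 1073741824) (W2 := 536870912) (P3 := 1046898278) (W3 := 26843546) (N0 := 3)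
    rfl k0_mm_023

noncomputable def f_mm_033 : ℕ → ℕ → ℕ → ℕ → Bool := onCell 0 536870912 0 1230186008 1046898278 26843546
    (rowNX 3 0 true false false .pnn 0 3 3 (qsf 0 536870912 0 1230186008 3) ndN0q0 ndN7q3 pcN3 Cut.none Ext.none)

def k0_mm_033 : ∃ t, chk3 f_mm_033 t 1 1 1 = true :=
  ⟨(l 4), by decide +kernel⟩

theorem c_mm_033 : CertNX 0 536870912 0 1230186008 1046898278 26843546 3 true false false .pnn 0 3 3
    ndN0q0 ndN7q3 pcN3 Cut.none Ext.none :=
  certNX0 (fam := true) (s1 := false) (s2 := false) (a := 0) (b := 3) (c := 3) (cn := .pnn) (n1 := ndN0q0) (n2 := ndN7q3) (pc := pcN3) (cut := Cut.none) (xt := Ext.none) (P1 := 0) (W1 := 536870912) (P2 := 0) (W2 := 1230186008) (P3 := 1046898278) (W3 := 26843546) (N0 := 3)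
    rfl k0_mm_033

noncomputable def f_mm_101 : ℕ → ℕ → ℕ → ℕ → Bool := onCell 536870912 536870912 0 536870912 1046898278 26843546
    (rowNX 3 0 true false false .npn 1 0 1 (qsf 536870912 536870912 0 536870912 1) ndN0q1 ndN7q0 pcN1 Cut.none Ext.none)

def k0_mm_101 : ∃ t, chk3 f_mm_101 t 1 1 1 = true :=
  ⟨(l 4), by decide +kernel⟩

theorem c_mm_101 : CertNX 536870912 536870912 0 536870912 1046898278 26843546 3 true false false .npn 1 0 1
    ndN0q1 ndN7q0 pcN1 Cut.none Ext.none :=
  certNX0 (fam := true) (s1 := false) (s2 := false) (a := 1) (b := 0) (c := 1) (cn := .npn) (n1 := ndN0q1) (n2 := ndN7q0) (pc := pcN1) (cut := Cut.none) (xt := Ext.none) (P1 := 536870912) (W1 := 536870912) (P2 := 0) (W2 := 536870912) (P3 := 1046898278) (W3 := 26843546) (N0 := 3)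
    rfl k0_mm_101

noncomputable def f_mm_102 : ℕ → ℕ → ℕ → ℕ → Bool := onCell 536870912 536870912 0 536870912 1046898278 26843546
    (rowNX 3 0 true false false .npp 1 0 2 (qsf 536870912 536870912 0 536870912 2) ndN0q1 ndN7q0 pcN2 Cut.none Ext.none)

def k0_mm_102 : ∃ t, chk3 f_mm_102 t 1 1 1 = true :=
  ⟨(l 4), by decide +kernel⟩

theorem c_mm_102 : CertNX 536870912 536870912 0 536870912 1046898278 26843546 3 true false false .npp 1 0 2
    ndN0q1 ndN7q0 pcN2 Cut.none Ext.none :=
  certNX0 (fam := true) (s1 := false) (s2 := false) (a := 1) (b := 0) (c := 2) (cn := .npp) (n1 := ndN0q1) (n2 := ndN7q0) (pc := pcN2) (cut := Cut.none) (xt := Ext.none) (P1 := 536870912) (W1 := 536870912) (P2 := 0) (W2 := 536870912) (P3 := 1046898278) (W3 := 26843546) (N0 := 3)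
    rfl k0_mm_102

noncomputable def f_mm_112 : ℕ → ℕ → ℕ → ℕ → Bool := onCell 536870912 536870912 536870912 536870912 1046898278 26843546
    (rowNX 3 0 true false false .dn 1 1 2 (qsf 536870912 536870912 536870912 536870912 2) ndN0q1 ndN7q1 pcN2 Cut.none Ext.none)

def k0_mm_112 : ∃ t, chk3 f_mm_112 t 1 1 1 = true :=
  ⟨(l 4), by decide +kernel⟩

theorem c_mm_112 : CertNX 536870912 536870912 536870912 536870912 1046898278 26843546 3 true false false .dn 1 1 2
    ndN0q1 ndN7q1 pcN2 Cut.none Ext.none :=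
  certNX0 (fam := true) (s1 := false) (s2 := false) (a := 1) (b := 1) (c := 2) (cn := .dn) (n1 := ndN0q1) (n2 := ndN7q1) (pc := pcN2) (cut := Cut.none) (xt := Ext.none) (P1 := 536870912) (W1 := 536870912) (P2 := 536870912) (W2 := 536870912) (P3 := 1046898278) (W3 := 26843546) (N0 := 3)
    rfl k0_mm_112

noncomputable def f_mm_113 : ℕ → ℕ → ℕ → ℕ → Bool := onCell 536870912 536870912 536870912 536870912 1046898278 26843546
    (rowNX 3 0 true false false .nn 1 1 3 (qsf 536870912 536870912 536870912 536870912 3) ndN0q1 ndN7q1 pcN3 Cut.none Ext.none)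

def k0_mm_113 : ∃ t, chk3 f_mm_113 t 1 1 1 = true :=
  ⟨(l 4), by decide +kernel⟩

theorem c_mm_113 : CertNX 536870912 536870912 536870912 536870912 1046898278 26843546 3 true false false .nn 1 1 3
    ndN0q1 ndN7q1 pcN3 Cut.none Ext.none :=
  certNX0 (fam := true) (s1 := false) (s2 := false) (a := 1) (b := 1) (c := 3) (cn := .nn) (n1 := ndN0q1) (n2 := ndN7q1) (pc := pcN3) (cut := Cut.none) (xt := Ext.none) (P1 := 536870912) (W1 := 536870912) (P2 := 536870912) (W2 := 536870912) (P3 := 1046898278) (W3 := 26843546) (N0 := 3)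
    rfl k0_mm_113

noncomputable def f_mm_123 : ℕ → ℕ → ℕ → ℕ → Bool := onCell 536870912 536870912 1073741824 536870912 1046898278 26843546
    (rowNX 3 0 true false false .npn 1 2 3 (qsf 536870912 536870912 1073741824 536870912 3) ndN0q1 ndN7q2 pcN3 Cut.none Ext.none)

def k0_mm_123 : ∃ t, chk3 f_mm_123 t 1 1 1 = true :=
  ⟨(l 4), by decide +kernel⟩

theorem c_mm_123 : CertNX 536870912 536870912 1073741824 536870912 1046898278 26843546 3 true false false .npn 1 2 3
    ndN0q1 ndN7q2 pcN3 Cut.none Ext.none :=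
  certNX0 (fam := true) (s1 := false) (s2 := false) (a := 1) (b := 2) (c := 3) (cn := .npn) (n1 := ndN0q1) (n2 := ndN7q2) (pc := pcN3) (cut := Cut.none) (xt := Ext.none) (P1 := 536870912) (W1 := 536870912) (P2 := 1073741824) (W2 := 536870912) (P3 := 1046898278) (W3 := 26843546) (N0 := 3)
    rfl k0_mm_123

noncomputable def f_mm_133 : ℕ → ℕ → ℕ → ℕ → Bool := onCell 536870912 536870912 0 1230186008 1046898278 26843546
    (rowNX 3 0 true false false .dn 1 3 3 (qsf 536870912 536870912 0 1230186008 3) ndN0q1 ndN7q3 pcN3 Cut.none Ext.none)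

def k0_mm_133 : ∃ t, chk3 f_mm_133 t 1 1 1 = true :=
  ⟨(l 4), by decide +kernel⟩

theorem c_mm_133 : CertNX 536870912 536870912 0 1230186008 1046898278 26843546 3 true false false .dn 1 3 3
    ndN0q1 ndN7q3 pcN3 Cut.none Ext.none :=
  certNX0 (fam := true) (s1 := false) (s2 := false) (a := 1) (b := 3) (c := 3) (cn := .dn) (n1 := ndN0q1) (n2 := ndN7q3) (pc := pcN3) (cut := Cut.none) (xt := Ext.none) (P1 := 536870912) (W1 := 536870912) (P2 := 0) (W2 := 1230186008) (P3 := 1046898278) (W3 := 26843546) (N0 := 3)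
    rfl k0_mm_133

noncomputable def f_mm_202 : ℕ → ℕ → ℕ → ℕ → Bool := onCell 0 536870912 0 536870912 1046898278 26843546
    (rowNX 3 0 true false false .pp 2 0 2 (qsf 0 536870912 0 536870912 2) ndN0q2 ndN7q0 pcN2 Cut.none Ext.none)

def k0_mm_202 : ∃ t, chk3 f_mm_202 t 1 1 1 = true :=
  ⟨(l 4), by decide +kernel⟩

theorem c_mm_202 : CertNX 0 536870912 0 536870912 1046898278 26843546 3 true false false .pp 2 0 2
    ndN0q2 ndN7q0 pcN2 Cut.none Ext.none :=
  certNX0 (fam := true) (s1 := false) (s2 := false) (a := 2) (b := 0) (c := 2) (cn := .pp) (n1 := ndN0q2) (n2 := ndN7q0) (pc := pcN2) (cut := Cut.none) (xt := Ext.none) (P1 := 0) (W1 := 536870912) (P2 := 0) (W2 := 536870912) (P3 := 1046898278) (W3 := 26843546) (N0 := 3)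
    rfl k0_mm_202

noncomputable def f_mm_203 : ℕ → ℕ → ℕ → ℕ → Bool := onCell 0 536870912 0 536870912 1046898278 26843546
    (rowNX 3 0 true false false .up 2 0 3 (qsf 0 536870912 0 536870912 3) ndN0q2 ndN7q0 pcN3 Cut.none Ext.none)

def k0_mm_203 : ∃ t, chk3 f_mm_203 t 1 1 1 = true :=
  ⟨(l 4), by decide +kernel⟩

theorem c_mm_203 : CertNX 0 536870912 0 536870912 1046898278 26843546 3 true false false .up 2 0 3
    ndN0q2 ndN7q0 pcN3 Cut.none Ext.none :=
  certNX0 (fam := true) (s1 := false) (s2 := false) (a := 2) (b := 0) (c := 3) (cn := .up) (n1 := ndN0q2) (n2 := ndN7q0) (pc := pcN3) (cut := Cut.none) (xt := Ext.none) (P1 := 0) (W1 := 536870912) (P2 := 0) (W2 := 536870912) (P3 := 1046898278) (W3 := 26843546) (N0 := 3)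
    rfl k0_mm_203

noncomputable def f_mm_213 : ℕ → ℕ → ℕ → ℕ → Bool := onCell 0 536870912 536870912 536870912 1046898278 26843546
    (rowNX 3 0 true false false .pnn 2 1 3 (qsf 0 536870912 536870912 536870912 3) ndN0q2 ndN7q1 pcN3 Cut.none Ext.none)

def k0_mm_213 : ∃ t, chk3 f_mm_213 t 1 1 1 = true :=
  ⟨(l 4), by decide +kernel⟩

theorem c_mm_213 : CertNX 0 536870912 536870912 536870912 1046898278 26843546 3 true false false .pnn 2 1 3
    ndN0q2 ndN7q1 pcN3 Cut.none Ext.none :=
  certNX0 (fam := true) (s1 := false) (s2 := false) (a := 2) (b := 1) (c := 3) (cn := .pnn) (n1 := ndN0q2) (n2 := ndN7q1) (pc := pcN3) (cut := Cut.none) (xt := Ext.none) (P1 := 0) (W1 := 536870912) (P2 := 536870912) (W2 := 536870912) (P3 := 1046898278) (W3 := 26843546) (N0 := 3)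
    rfl k0_mm_213

end Pool.Agent.Strip051.G.IE1.Tab.C.NA07

namespace Pool.Agent.Strip051.G.IE1.Tab.C.NA11

open Pool.Agent.Strip051.PB Pool.Agent.Strip051.PB.T
open Pool.Agent.Strip051.G.IE1.Tab

noncomputable def f_pp_001 : ℕ → ℕ → ℕ → ℕ → Bool := onCell 67108864 469762048 67108864 469762048 1046898278 26843546
    (rowNX 3 0 true true true .up 0 0 1 (qsf 67108864 469762048 67108864 469762048 1) ndN1q0 ndN1q0 pcN1 Cut.none Ext.none)

def k0_pp_001 : ∃ t, chk3 f_pp_001 t 1 1 1 = true :=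
  ⟨(l 4), by decide +kernel⟩

theorem c_pp_001 : CertNX 67108864 469762048 67108864 469762048 1046898278 26843546 3 true true true .up 0 0 1
    ndN1q0 ndN1q0 pcN1 Cut.none Ext.none :=
  certNX0 (fam := true) (s1 := true) (s2 := true) (a := 0) (b := 0) (c := 1) (cn := .up) (n1 := ndN1q0) (n2 := ndN1q0) (pc := pcN1) (cut := Cut.none) (xt := Ext.none) (P1 := 67108864) (W1 := 469762048) (P2 := 67108864) (W2 := 469762048) (P3 := 1046898278) (W3 := 26843546) (N0 := 3)
    rfl k0_pp_001

noncomputable def f_pp_011 : ℕ → ℕ → ℕ → ℕ → Bool := onCell 67108864 469762048 536870912 536870912 1046898278 26843546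
    (rowNX 3 0 true true true .pnn 0 1 1 (qsf 67108864 469762048 536870912 536870912 1) ndN1q0 ndN1q1 pcN1 Cut.none Ext.none)

def k0_pp_011 : ∃ t, chk3 f_pp_011 t 1 1 1 = true :=
  ⟨(l 4), by decide +kernel⟩

theorem c_pp_011 : CertNX 67108864 469762048 536870912 536870912 1046898278 26843546 3 true true true .pnn 0 1 1
    ndN1q0 ndN1q1 pcN1 Cut.none Ext.none :=
  certNX0 (fam := true) (s1 := true) (s2 := true) (a := 0) (b := 1) (c := 1) (cn := .pnn) (n1 := ndN1q0) (n2 := ndN1q1) (pc := pcN1) (cut := Cut.none) (xt := Ext.none) (P1 := 67108864) (W1 := 469762048) (P2 := 536870912) (W2 := 536870912) (P3 := 1046898278) (W3 := 26843546) (N0 := 3)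
    rfl k0_pp_011

noncomputable def f_pp_012 : ℕ → ℕ → ℕ → ℕ → Bool := onCell 67108864 469762048 536870912 536870912 1046898278 26843546
    (rowNX 3 0 true true true .pnp 0 1 2 (qsf 67108864 469762048 536870912 536870912 2) ndN1q0 ndN1q1 pcN2 Cut.none Ext.none)

def k0_pp_012 : ∃ t, chk3 f_pp_012 t 1 1 1 = true :=
  ⟨(l 4), by decide +kernel⟩

theorem c_pp_012 : CertNX 67108864 469762048 536870912 536870912 1046898278 26843546 3 true true true .pnp 0 1 2
    ndN1q0 ndN1q1 pcN2 Cut.none Ext.none :=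
  certNX0 (fam := true) (s1 := true) (s2 := true) (a := 0) (b := 1) (c := 2) (cn := .pnp) (n1 := ndN1q0) (n2 := ndN1q1) (pc := pcN2) (cut := Cut.none) (xt := Ext.none) (P1 := 67108864) (W1 := 469762048) (P2 := 536870912) (W2 := 536870912) (P3 := 1046898278) (W3 := 26843546) (N0 := 3)
    rfl k0_pp_012

noncomputable def f_pp_022_a : ℕ → ℕ → ℕ → ℕ → Bool := onCell 67108864 469762048 0 420477299 1046898278 26843546
    (rowNX 3 0 true true true .pp 0 2 2 (qsf 67108864 469762048 0 420477299 2) ndN1q0 ndN1q2a pcN2 Cut.none Ext.none)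

def k0_pp_022_a : ∃ t, chk3 f_pp_022_a t 4 2 1 = true :=
  ⟨(a (a (b (a (b (c (a (l 15062032) (l 15196672)) (l 15003472)) (c (a (l 15217064) (l 15319824)) (a (l 15164384) (l 15270560)))) (c (l 15471976) (l 15427672))) (a (b (c (a (l 15417728) (b (l 15434200) (l 15533936))) (a (l 15372896) (l 15445320))) (c (l 15660824) (l 15642968))) (b (c (l 15659040) (l 15622032)) (c (b (a (l 15727440) (l 15837048)) (a (l 15845744) (l 15931688))) (b (l 15689152) (a (l 15816232) (l 15904904))))))) (c (b (a (l 15740256) (l 15870216)) (a (l 15746432) (l 16078696))) (b (l 15626816) (a (l 15909352) (l 16056112))))) (b (a (c (l 15973304) (l 15945864)) (c (l 16120368) (l 16097584))) (a (c (l 16140120) (l 16119136)) (c (b (l 16190120) (l 16278416)) (b (l 16170008) (l 16261696)))))), by decide +kernel⟩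

def k1_pp_022_a : ∃ t, chk3 f_pp_022_a t 4 6 1 = true :=
  ⟨(a (a (b (a (c (a (l 15917208) (l 15982136)) (l 15790944)) (c (b (l 15931360) (l 16153488)) (b (l 15991968) (l 16135520)))) (a (c (a (b (l 16125640) (l 16272328)) (l 16140664)) (b (l 16133680) (l 16201888))) (c (b (l 16296624) (a (l 16407592) (l 16479888))) (b (l 16284112) (l 16436424))))) (b (a (c (a (b (l 16120792) (l 16160664)) (b (l 16237384) (a (l 16288384) (l 16356320)))) (b (a (l 16122536) (l 16221384)) (a (l 16251072) (l 16269280)))) (l 16315776)) (a (c (b (a (l 16407800) (a (l 16465552) (l 16482288))) (l 16482328)) (b (b (l 16248264) (l 16469672)) (l 16543088))) (b (b (l 16451944) (c (l 16496328) (l 16469832))) (a (b (l 16519408) (l 16590312)) (b (l 16581552) (c (l 16610416) (l 16587128)))))))) (a (b (c (l 16354152) (l 16341464)) (c (b (l 16503168) (l 16618440)) (b (l 16496320) (l 16595240)))) (b (c (a (l 16380464) (l 16435808)) (a (l 16368000) (l 16424848))) (c (b (l 16491568) (l 27614843831)) (b (l 16463792)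 (a (l 16606064) (l 4))))))), by decide +kernel⟩

def k2_pp_022_a : ∃ t, chk3 f_pp_022_a t 8 7 1 = true :=
  ⟨(b (a (a (c (b (a (b (l 16392960) (l 16457736)) (b (l 16449304) (l 16498464))) (a (l 16534816) (l 16542168))) (b (a (l 16357368) (l 16448936)) (a (l 16531376) (l 16560416)))) (c (b (b (l 16512640) (l 16588880)) (c (l 16593824) (l 16592552))) (b (l 16491864) (a (l 16606584) (l 16575168))))) (c (b (a (c (l 16458648) (l 16476784)) (b (l 16519136) (l 16514840))) (a (c (l 16454736) (l 16472368)) (l 89354786343))) (b (a (b (l 16527392) (l 16502168)) (b (l 16513792) (l 16508120))) (a (a (l 16528192) (l 16489216)) (b (l 16513120) (l 16530528)))))) (b (a (a (c (a (b (l 16602024) (a (b (l 16595536) (a (l 16595232) (l 16594800))) (l 16596712))) (l 16601912)) (a (b (l 16600336) (a (b (l 16593288) (a (l 16592744) (l 16592112))) (l 16594064))) (l 16599384))) (c (a (l 16603408) (b (l 16596248) (l 16600128))) (b (l 16597744) (l 16597040)))) (a (c (a (b (l 16558984) (l 16542448)) (a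 (l 16462456) (l 4))) (a (b (l 16553504) (l 16579400)) (l 71101211447))) (l 4))) (a (b (a (a (c (a (l 16598752) (b (a (l 16595784) (l 16595832)) (l 16597952))) (a (l 16595896) (b (a (l 16592728) (l 16571680)) (l 16594616)))) (c (a (b (l 16596784) (c (l 16619424) (l 16596688))) (l 16597848)) (a (b (l 16593456) (c (l 16647360) (l 16593160))) (l 16594176)))) (c (c (l 16601416) (l 16599344)) (l 16596224))) (a (a (c (l 16602920) (l 16599496)) (a (c (b (b (l 16557248) (l 16600600)) (l 16603472)) (b (b (l 16574472) (l 16596752)) (l 16599512))) (b (c (c (l 104924239719) (l 96334306423)) (c (l 91502464279) (l 16532776))) (l 4)))) (l 4))) (l 4)))), by decide +kernel⟩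

def k3_pp_022_a : ∃ t, chk3 f_pp_022_a t 9 7 1 = true :=
  ⟨(b (a (b (a (a (a (b (c (l 16561408) (l 16556664)) (c (l 16538080) (l 16532032))) (b (l 16565680) (c (l 16528528) (l 16501864)))) (c (b (l 16581000) (l 16570448)) (b (l 16576808) (l 16565456)))) (c (l 16616952) (l 16613776))) (l 4)) (l 4)) (l 4)), by decide +kernel⟩

def k4_pp_022_a : ∃ t, chk3 f_pp_022_a t 5 1 1 = true :=
  ⟨(b (a (a (b (c (l 16379112) (l 16365144)) (a (b (l 16289712) (a (l 16352920) (l 16383864))) (c (l 16362944) (l 16394048)))) (c (b (l 16688464) (l 16542192)) (b (l 16685352) (l 16539096)))) (b (c (l 16777120) (l 16777112)) (c (a (l 16776064) (l 65196256455)) (c (l 16776032) (l 16776016))))) (b (a (b (a (c (a (l 16486088) (l 16387664)) (a (l 16476456) (l 16421296))) (a (c (l 16545968) (l 16561808)) (l 4))) (l 4)) (l 4)) (l 4))), by decide +kernel⟩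

def k5_pp_022_a : ∃ t, chk3 f_pp_022_a t 3 1 1 = true :=
  ⟨(b (a (a (b (c (l 16777120) (l 16777112)) (a (c (l 87744834759) (l 141431925879)) (l 4))) (b (a (c (l 16777120) (l 16777112)) (l 2)) (l 4))) (l 2)) (l 4)), by decide +kernel⟩

theorem s6_pp_022_a : ∃ t, chk3 f_pp_022_a t 4 7 1 = true := ex3_a k2_pp_022_a k3_pp_022_a

theorem s7_pp_022_a : ∃ t, chk3 f_pp_022_a t 4 3 1 = true := ex3_b k1_pp_022_a s6_pp_022_a

theorem s8_pp_022_a : ∃ t, chk3 f_pp_022_a t 4 1 1 = true := ex3_b k0_pp_022_a s7_pp_022_a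

theorem s9_pp_022_a : ∃ t, chk3 f_pp_022_a t 2 1 1 = true := ex3_a s8_pp_022_a k4_pp_022_a

theorem s10_pp_022_a : ∃ t, chk3 f_pp_022_a t 1 1 1 = true := ex3_a s9_pp_022_a k5_pp_022_a

theorem c_pp_022_a : CertNX 67108864 469762048 0 420477299 1046898278 26843546 3 true true true .pp 0 2 2
    ndN1q0 ndN1q2a pcN2 Cut.none Ext.none :=
  certNX0 (fam := true) (s1 := true) (s2 := true) (a := 0) (b := 2) (c := 2) (cn := .pp) (n1 := ndN1q0) (n2 := ndN1q2a) (pc := pcN2) (cut := Cut.none) (xt := Ext.none) (P1 := 67108864) (W1 := 469762048) (P2 := 0) (W2 := 420477299) (P3 := 1046898278) (W3 := 26843546) (N0 := 3)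
    rfl s10_pp_022_a

noncomputable def f_pp_022_b : ℕ → ℕ → ℕ → ℕ → Bool := onCell 67108864 469762048 1073741824 536870912 1046898278 26843546
    (rowNX 3 1 true true true .pp 0 2 2 (qsf 67108864 469762048 1239849684 370763052 2) ndN1q0 ndN1q2b pcN2 Cut.none Ext.none)

def k0_pp_022_b : ∃ t, chk3 f_pp_022_b t 1 1 1 = true :=
  ⟨(b (b (l 1) (a (a (b (l 1) (a (b (a (a (c (b (l 1) (l 15014024)) (l 319468401015)) (l 1)) (l 1)) (a (c (a (l 194376846071) (l 15374088)) (a (l 14975848) (l 15325912))) (c (a (l 393020386775) (l 1)) (l 400536697111)))) (l 1))) (l 1)) (l 1))) (a (b (a (a (b (a (c (a (b (l 14965072) (l 14870200)) (l 15250464)) (a (l 14851896) (l 15197752))) (b (c (l 227664169111) (l 15666040)) (c (l 15601800) (l 15561136)))) (a (c (a (l 14769016) (l 15095704)) (b (l 14859392) (l 14846768))) (c (b (l 15501088) (l 15488520)) (l 15219480)))) (b (b (a (l 15887744) (l 1)) (a (l 15864336) (l 376915174023))) (b (a (l 15758168) (l 265245847975)) (a (l 15744944) (l 16025840)))))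 (b (l 1) (a (b (a (l 346314044679) (l 1)) (a (l 16369824) (c (l 16688656) (l 16685552)))) (l 1)))) (a (a (c (a (b (a (l 14762712) (l 15089272)) (l 14920576)) (b (l 15488520) (l 15488520))) (b (a (l 14846768) (l 15443280)) (a (l 14846768) (l 15443280)))) (b (c (l 15860656) (l 15871904)) (c (l 15902600) (l 15871904)))) (b (a (c (a (l 16376816) (l 16688416)) (a (l 16362768) (l 16685304))) (c (l 347925856279) (l 351683952647))) (a (c (l 16535128) (l 16526632)) (c (l 16777216) (l 16777216)))))) (b (l 1) (a (b (a (b (l 1) (l 447246891447)) (l 1)) (a (c (l 16776736) (l 16776720)) (b (l 1) (l 420940255735)))) (l 1))))), by decide +kernel⟩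

theorem c_pp_022_b : CertNX 67108864 469762048 1239849684 370763052 1046898278 26843546 3 true true true .pp 0 2 2
    ndN1q0 ndN1q2b pcN2 Cut.none Ext.none :=
  certNX1 (fam := true) (s1 := true) (s2 := true) (a := 0) (b := 2) (c := 2) (cn := .pp) (n1 := ndN1q0) (n2 := ndN1q2b) (pc := pcN2) (cut := Cut.none) (xt := Ext.none) (P1 := 67108864) (W1 := 469762048) (P2 := 1239849684) (W2 := 370763052) (P3 := 1046898278) (W3 := 26843546) (N0 := 3)
    rfl (fun _ => rfl) k0_pp_022_b

noncomputable def f_pp_023_a : ℕ → ℕ → ℕ → ℕ → Bool := onCell 1610612736 536870912 0 420477299 1046898278 26843546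
    (rowNX 3 2 true true true .up 0 2 3 (qsf 67108864 469762048 0 420477299 3) ndN1q0 ndN1q2a pcN3 Cut.none Ext.none)

def k0_pp_023_a : ∃ t, chk3 f_pp_023_a t 1 1 1 = true :=
  ⟨(a (b (a (a (b (a (c (l 16777120) (l 16777112)) (l 4)) (l 4)) (l 4)) (l 4)) (l 4)) (l 2)), by decide +kernel⟩

theorem c_pp_023_a : CertNX 67108864 469762048 0 420477299 1046898278 26843546 3 true true true .up 0 2 3
    ndN1q0 ndN1q2a pcN3 Cut.none Ext.none :=
  certNX2 (fam := true) (s1 := true) (s2 := true) (a := 0) (b := 2) (c := 3) (cn := .up) (n1 := ndN1q0) (n2 := ndN1q2a) (pc := pcN3) (cut := Cut.none) (xt := Ext.none) (P1 := 67108864) (W1 := 469762048) (P2 := 0) (W2 := 420477299) (P3 := 1046898278) (W3 := 26843546) (N0 := 3)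
    rfl (fun _ => rfl) k0_pp_023_a

noncomputable def f_pp_023_b : ℕ → ℕ → ℕ → ℕ → Bool := onCell 67108864 469762048 1610612736 536870912 1046898278 26843546
    (rowNX 3 1 true true true .up 0 2 3 (qsf 67108864 469762048 1239849684 370763052 3) ndN1q0 ndN1q2b pcN3 Cut.none Ext.none)

def k0_pp_023_b : ∃ t, chk3 f_pp_023_b t 1 1 1 = true :=
  ⟨(b (b (b (a (b (a (a (a (l 14888424) (l 15465952)) (l 15887280)) (a (l 16530888) (l 16777216))) (a (a (a (l 14888424) (l 15465952)) (l 15887280)) (l 4))) (a (c (l 339335966439) (l 349536513751)) (a (b (l 1) (c (l 427382693895) (l 431140788775))) (l 1)))) (l 4)) (l 4)) (l 4)), by decide +kernel⟩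

theorem c_pp_023_b : CertNX 67108864 469762048 1239849684 370763052 1046898278 26843546 3 true true true .up 0 2 3
    ndN1q0 ndN1q2b pcN3 Cut.none Ext.none :=
  certNX1 (fam := true) (s1 := true) (s2 := true) (a := 0) (b := 2) (c := 3) (cn := .up) (n1 := ndN1q0) (n2 := ndN1q2b) (pc := pcN3) (cut := Cut.none) (xt := Ext.none) (P1 := 67108864) (W1 := 469762048) (P2 := 1239849684) (W2 := 370763052) (P3 := 1046898278) (W3 := 26843546) (N0 := 3)
    rfl (fun _ => rfl) k0_pp_023_b

noncomputable def f_pp_033 : ℕ → ℕ → ℕ → ℕ → Bool := onCell 67108864 469762048 1610612736 469762048 1046898278 26843546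
    (rowNX 3 0 true true true .pnn 0 3 3 (qsf 67108864 469762048 1610612736 469762048 3) ndN1q0 ndN1q3 pcN3 Cut.none Ext.none)

def k0_pp_033 : ∃ t, chk3 f_pp_033 t 1 1 1 = true :=
  ⟨(a (b (a (l 4) (l 4)) (l 4)) (l 4)), by decide +kernel⟩

theorem c_pp_033 : CertNX 67108864 469762048 1610612736 469762048 1046898278 26843546 3 true true true .pnn 0 3 3
    ndN1q0 ndN1q3 pcN3 Cut.none Ext.none :=
  certNX0 (fam := true) (s1 := true) (s2 := true) (a := 0) (b := 3) (c := 3) (cn := .pnn) (n1 := ndN1q0) (n2 := ndN1q3) (pc := pcN3) (cut := Cut.none) (xt := Ext.none) (P1 := 67108864) (W1 := 469762048) (P2 := 1610612736) (W2 := 469762048) (P3 := 1046898278) (W3 := 26843546) (N0 := 3)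
    rfl k0_pp_033

noncomputable def f_pp_101 : ℕ → ℕ → ℕ → ℕ → Bool := onCell 536870912 536870912 67108864 469762048 1046898278 26843546
    (rowNX 3 0 true true true .npn 1 0 1 (qsf 536870912 536870912 67108864 469762048 1) ndN1q1 ndN1q0 pcN1 Cut.none Ext.none)

def k0_pp_101 : ∃ t, chk3 f_pp_101 t 1 1 1 = true :=
  ⟨(l 4), by decide +kernel⟩

theorem c_pp_101 : CertNX 536870912 536870912 67108864 469762048 1046898278 26843546 3 true true true .npn 1 0 1
    ndN1q1 ndN1q0 pcN1 Cut.none Ext.none :=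
  certNX0 (fam := true) (s1 := true) (s2 := true) (a := 1) (b := 0) (c := 1) (cn := .npn) (n1 := ndN1q1) (n2 := ndN1q0) (pc := pcN1) (cut := Cut.none) (xt := Ext.none) (P1 := 536870912) (W1 := 536870912) (P2 := 67108864) (W2 := 469762048) (P3 := 1046898278) (W3 := 26843546) (N0 := 3)
    rfl k0_pp_101

noncomputable def f_pp_102 : ℕ → ℕ → ℕ → ℕ → Bool := onCell 536870912 536870912 67108864 469762048 1046898278 26843546
    (rowNX 3 0 true true true .npp 1 0 2 (qsf 536870912 536870912 67108864 469762048 2) ndN1q1 ndN1q0 pcN2 Cut.none Ext.none)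

def k0_pp_102 : ∃ t, chk3 f_pp_102 t 1 1 1 = true :=
  ⟨(l 4), by decide +kernel⟩

theorem c_pp_102 : CertNX 536870912 536870912 67108864 469762048 1046898278 26843546 3 true true true .npp 1 0 2
    ndN1q1 ndN1q0 pcN2 Cut.none Ext.none :=
  certNX0 (fam := true) (s1 := true) (s2 := true) (a := 1) (b := 0) (c := 2) (cn := .npp) (n1 := ndN1q1) (n2 := ndN1q0) (pc := pcN2) (cut := Cut.none) (xt := Ext.none) (P1 := 536870912) (W1 := 536870912) (P2 := 67108864) (W2 := 469762048) (P3 := 1046898278) (W3 := 26843546) (N0 := 3)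
    rfl k0_pp_102

noncomputable def f_pp_112 : ℕ → ℕ → ℕ → ℕ → Bool := onCell 536870912 536870912 536870912 536870912 1046898278 26843546
    (rowNX 3 0 true true true .dn 1 1 2 (qsf 536870912 536870912 536870912 536870912 2) ndN1q1 ndN1q1 pcN2 Cut.none Ext.none)

def k0_pp_112 : ∃ t, chk3 f_pp_112 t 1 1 1 = true :=
  ⟨(l 4), by decide +kernel⟩

theorem c_pp_112 : CertNX 536870912 536870912 536870912 536870912 1046898278 26843546 3 true true true .dn 1 1 2
    ndN1q1 ndN1q1 pcN2 Cut.none Ext.none :=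
  certNX0 (fam := true) (s1 := true) (s2 := true) (a := 1) (b := 1) (c := 2) (cn := .dn) (n1 := ndN1q1) (n2 := ndN1q1) (pc := pcN2) (cut := Cut.none) (xt := Ext.none) (P1 := 536870912) (W1 := 536870912) (P2 := 536870912) (W2 := 536870912) (P3 := 1046898278) (W3 := 26843546) (N0 := 3)
    rfl k0_pp_112

noncomputable def f_pp_113 : ℕ → ℕ → ℕ → ℕ → Bool := onCell 536870912 536870912 536870912 536870912 1046898278 26843546
    (rowNX 3 0 true true true .nn 1 1 3 (qsf 536870912 536870912 536870912 536870912 3) ndN1q1 ndN1q1 pcN3 Cut.none Ext.none)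

def k0_pp_113 : ∃ t, chk3 f_pp_113 t 1 1 1 = true :=
  ⟨(l 4), by decide +kernel⟩

theorem c_pp_113 : CertNX 536870912 536870912 536870912 536870912 1046898278 26843546 3 true true true .nn 1 1 3
    ndN1q1 ndN1q1 pcN3 Cut.none Ext.none :=
  certNX0 (fam := true) (s1 := true) (s2 := true) (a := 1) (b := 1) (c := 3) (cn := .nn) (n1 := ndN1q1) (n2 := ndN1q1) (pc := pcN3) (cut := Cut.none) (xt := Ext.none) (P1 := 536870912) (W1 := 536870912) (P2 := 536870912) (W2 := 536870912) (P3 := 1046898278) (W3 := 26843546) (N0 := 3)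
    rfl k0_pp_113

noncomputable def f_pp_123_a : ℕ → ℕ → ℕ → ℕ → Bool := onCell 536870912 536870912 0 420477299 1046898278 26843546
    (rowNX 3 0 true true true .npn 1 2 3 (qsf 536870912 536870912 0 420477299 3) ndN1q1 ndN1q2a pcN3 Cut.none Ext.none)

def k0_pp_123_a : ∃ t, chk3 f_pp_123_a t 1 1 1 = true :=
  ⟨(l 4), by decide +kernel⟩

theorem c_pp_123_a : CertNX 536870912 536870912 0 420477299 1046898278 26843546 3 true true true .npn 1 2 3
    ndN1q1 ndN1q2a pcN3 Cut.none Ext.none :=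
  certNX0 (fam := true) (s1 := true) (s2 := true) (a := 1) (b := 2) (c := 3) (cn := .npn) (n1 := ndN1q1) (n2 := ndN1q2a) (pc := pcN3) (cut := Cut.none) (xt := Ext.none) (P1 := 536870912) (W1 := 536870912) (P2 := 0) (W2 := 420477299) (P3 := 1046898278) (W3 := 26843546) (N0 := 3)
    rfl k0_pp_123_a

noncomputable def f_pp_123_b : ℕ → ℕ → ℕ → ℕ → Bool := onCell 536870912 536870912 1239849684 370763052 1046898278 26843546
    (rowNX 3 0 true true true .npn 1 2 3 (qsf 536870912 536870912 1239849684 370763052 3) ndN1q1 ndN1q2b pcN3 Cut.none Ext.none)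

def k0_pp_123_b : ∃ t, chk3 f_pp_123_b t 1 1 1 = true :=
  ⟨(a (l 4) (l 4)), by decide +kernel⟩

theorem c_pp_123_b : CertNX 536870912 536870912 1239849684 370763052 1046898278 26843546 3 true true true .npn 1 2 3
    ndN1q1 ndN1q2b pcN3 Cut.none Ext.none :=
  certNX0 (fam := true) (s1 := true) (s2 := true) (a := 1) (b := 2) (c := 3) (cn := .npn) (n1 := ndN1q1) (n2 := ndN1q2b) (pc := pcN3) (cut := Cut.none) (xt := Ext.none) (P1 := 536870912) (W1 := 536870912) (P2 := 1239849684) (W2 := 370763052) (P3 := 1046898278) (W3 := 26843546) (N0 := 3)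
    rfl k0_pp_123_b

noncomputable def f_pp_133 : ℕ → ℕ → ℕ → ℕ → Bool := onCell 536870912 536870912 1610612736 469762048 1046898278 26843546
    (rowNX 3 0 true true true .dn 1 3 3 (qsf 536870912 536870912 1610612736 469762048 3) ndN1q1 ndN1q3 pcN3 Cut.none Ext.none)

def k0_pp_133 : ∃ t, chk3 f_pp_133 t 1 1 1 = true :=
  ⟨(l 4), by decide +kernel⟩

theorem c_pp_133 : CertNX 536870912 536870912 1610612736 469762048 1046898278 26843546 3 true true true .dn 1 3 3
    ndN1q1 ndN1q3 pcN3 Cut.none Ext.none :=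
  certNX0 (fam := true) (s1 := true) (s2 := true) (a := 1) (b := 3) (c := 3) (cn := .dn) (n1 := ndN1q1) (n2 := ndN1q3) (pc := pcN3) (cut := Cut.none) (xt := Ext.none) (P1 := 536870912) (W1 := 536870912) (P2 := 1610612736) (W2 := 469762048) (P3 := 1046898278) (W3 := 26843546) (N0 := 3)
    rfl k0_pp_133

noncomputable def f_pp_202_a : ℕ → ℕ → ℕ → ℕ → Bool := onCell 0 420477299 67108864 469762048 1046898278 26843546
    (rowNX 3 0 true true true .pp 2 0 2 (qsf 0 420477299 67108864 469762048 2) ndN1q2a ndN1q0 pcN2 Cut.none Ext.none)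

def k0_pp_202_a : ∃ t, chk3 f_pp_202_a t 1 1 1 = true :=
  ⟨(l 5), by decide +kernel⟩

theorem c_pp_202_a : CertNX 0 420477299 67108864 469762048 1046898278 26843546 3 true true true .pp 2 0 2
    ndN1q2a ndN1q0 pcN2 Cut.none Ext.none :=
  certNX0 (fam := true) (s1 := true) (s2 := true) (a := 2) (b := 0) (c := 2) (cn := .pp) (n1 := ndN1q2a) (n2 := ndN1q0) (pc := pcN2) (cut := Cut.none) (xt := Ext.none) (P1 := 0) (W1 := 420477299) (P2 := 67108864) (W2 := 469762048) (P3 := 1046898278) (W3 := 26843546) (N0 := 3)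
    rfl k0_pp_202_a

noncomputable def f_pp_202_b : ℕ → ℕ → ℕ → ℕ → Bool := onCell 1239849684 370763052 67108864 469762048 1046898278 26843546
    (rowNX 3 0 true true true .pp 2 0 2 (qsf 1239849684 370763052 67108864 469762048 2) ndN1q2b ndN1q0 pcN2 Cut.none Ext.none)

def k0_pp_202_b : ∃ t, chk3 f_pp_202_b t 1 1 1 = true :=
  ⟨(l 5), by decide +kernel⟩

theorem c_pp_202_b : CertNX 1239849684 370763052 67108864 469762048 1046898278 26843546 3 true true true .pp 2 0 2
    ndN1q2b ndN1q0 pcN2 Cut.none Ext.none :=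
  certNX0 (fam := true) (s1 := true) (s2 := true) (a := 2) (b := 0) (c := 2) (cn := .pp) (n1 := ndN1q2b) (n2 := ndN1q0) (pc := pcN2) (cut := Cut.none) (xt := Ext.none) (P1 := 1239849684) (W1 := 370763052) (P2 := 67108864) (W2 := 469762048) (P3 := 1046898278) (W3 := 26843546) (N0 := 3)
    rfl k0_pp_202_b

noncomputable def f_pp_203_a : ℕ → ℕ → ℕ → ℕ → Bool := onCell 0 420477299 67108864 469762048 1046898278 26843546
    (rowNX 3 0 true true true .up 2 0 3 (qsf 0 420477299 67108864 469762048 3) ndN1q2a ndN1q0 pcN3 Cut.none Ext.none)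

def k0_pp_203_a : ∃ t, chk3 f_pp_203_a t 1 1 1 = true :=
  ⟨(l 5), by decide +kernel⟩

theorem c_pp_203_a : CertNX 0 420477299 67108864 469762048 1046898278 26843546 3 true true true .up 2 0 3
    ndN1q2a ndN1q0 pcN3 Cut.none Ext.none :=
  certNX0 (fam := true) (s1 := true) (s2 := true) (a := 2) (b := 0) (c := 3) (cn := .up) (n1 := ndN1q2a) (n2 := ndN1q0) (pc := pcN3) (cut := Cut.none) (xt := Ext.none) (P1 := 0) (W1 := 420477299) (P2 := 67108864) (W2 := 469762048) (P3 := 1046898278) (W3 := 26843546) (N0 := 3)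
    rfl k0_pp_203_a

noncomputable def f_pp_203_b : ℕ → ℕ → ℕ → ℕ → Bool := onCell 1239849684 370763052 67108864 469762048 1046898278 26843546
    (rowNX 3 0 true true true .up 2 0 3 (qsf 1239849684 370763052 67108864 469762048 3) ndN1q2b ndN1q0 pcN3 Cut.none Ext.none)

def k0_pp_203_b : ∃ t, chk3 f_pp_203_b t 1 1 1 = true :=
  ⟨(l 5), by decide +kernel⟩

theorem c_pp_203_b : CertNX 1239849684 370763052 67108864 469762048 1046898278 26843546 3 true true true .up 2 0 3
    ndN1q2b ndN1q0 pcN3 Cut.none Ext.none :=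
  certNX0 (fam := true) (s1 := true) (s2 := true) (a := 2) (b := 0) (c := 3) (cn := .up) (n1 := ndN1q2b) (n2 := ndN1q0) (pc := pcN3) (cut := Cut.none) (xt := Ext.none) (P1 := 1239849684) (W1 := 370763052) (P2 := 67108864) (W2 := 469762048) (P3 := 1046898278) (W3 := 26843546) (N0 := 3)
    rfl k0_pp_203_b

noncomputable def f_pp_213_a : ℕ → ℕ → ℕ → ℕ → Bool := onCell 0 420477299 536870912 536870912 1046898278 26843546
    (rowNX 3 0 true true true .pnn 2 1 3 (qsf 0 420477299 536870912 536870912 3) ndN1q2a ndN1q1 pcN3 Cut.none Ext.none)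

def k0_pp_213_a : ∃ t, chk3 f_pp_213_a t 1 1 1 = true :=
  ⟨(l 4), by decide +kernel⟩

theorem c_pp_213_a : CertNX 0 420477299 536870912 536870912 1046898278 26843546 3 true true true .pnn 2 1 3
    ndN1q2a ndN1q1 pcN3 Cut.none Ext.none :=
  certNX0 (fam := true) (s1 := true) (s2 := true) (a := 2) (b := 1) (c := 3) (cn := .pnn) (n1 := ndN1q2a) (n2 := ndN1q1) (pc := pcN3) (cut := Cut.none) (xt := Ext.none) (P1 := 0) (W1 := 420477299) (P2 := 536870912) (W2 := 536870912) (P3 := 1046898278) (W3 := 26843546) (N0 := 3)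
    rfl k0_pp_213_a

noncomputable def f_pp_213_b : ℕ → ℕ → ℕ → ℕ → Bool := onCell 1239849684 370763052 536870912 536870912 1046898278 26843546
    (rowNX 3 0 true true true .pnn 2 1 3 (qsf 1239849684 370763052 536870912 536870912 3) ndN1q2b ndN1q1 pcN3 Cut.none Ext.none)

def k0_pp_213_b : ∃ t, chk3 f_pp_213_b t 1 1 1 = true :=
  ⟨(l 5), by decide +kernel⟩

theorem c_pp_213_b : CertNX 1239849684 370763052 536870912 536870912 1046898278 26843546 3 true true true .pnn 2 1 3
    ndN1q2b ndN1q1 pcN3 Cut.none Ext.none :=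
  certNX0 (fam := true) (s1 := true) (s2 := true) (a := 2) (b := 1) (c := 3) (cn := .pnn) (n1 := ndN1q2b) (n2 := ndN1q1) (pc := pcN3) (cut := Cut.none) (xt := Ext.none) (P1 := 1239849684) (W1 := 370763052) (P2 := 536870912) (W2 := 536870912) (P3 := 1046898278) (W3 := 26843546) (N0 := 3)
    rfl k0_pp_213_b

noncomputable def f_pp_303 : ℕ → ℕ → ℕ → ℕ → Bool := onCell 1610612736 469762048 67108864 469762048 1046898278 26843546
    (rowNX 3 0 true true true .npn 3 0 3 (qsf 1610612736 469762048 67108864 469762048 3) ndN1q3 ndN1q0 pcN3 Cut.none Ext.none)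

def k0_pp_303 : ∃ t, chk3 f_pp_303 t 1 1 1 = true :=
  ⟨(l 5), by decide +kernel⟩

theorem c_pp_303 : CertNX 1610612736 469762048 67108864 469762048 1046898278 26843546 3 true true true .npn 3 0 3
    ndN1q3 ndN1q0 pcN3 Cut.none Ext.none :=
  certNX0 (fam := true) (s1 := true) (s2 := true) (a := 3) (b := 0) (c := 3) (cn := .npn) (n1 := ndN1q3) (n2 := ndN1q0) (pc := pcN3) (cut := Cut.none) (xt := Ext.none) (P1 := 1610612736) (W1 := 469762048) (P2 := 67108864) (W2 := 469762048) (P3 := 1046898278) (W3 := 26843546) (N0 := 3)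
    rfl k0_pp_303

noncomputable def f_pp_313 : ℕ → ℕ → ℕ → ℕ → Bool := onCell 1610612736 469762048 536870912 536870912 1046898278 26843546
    (rowNX 3 0 true true true .dn 3 1 3 (qsf 1610612736 469762048 536870912 536870912 3) ndN1q3 ndN1q1 pcN3 Cut.none Ext.none)

def k0_pp_313 : ∃ t, chk3 f_pp_313 t 1 1 1 = true :=
  ⟨(l 4), by decide +kernel⟩

theorem c_pp_313 : CertNX 1610612736 469762048 536870912 536870912 1046898278 26843546 3 true true true .dn 3 1 3
    ndN1q3 ndN1q1 pcN3 Cut.none Ext.none :=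
  certNX0 (fam := true) (s1 := true) (s2 := true) (a := 3) (b := 1) (c := 3) (cn := .dn) (n1 := ndN1q3) (n2 := ndN1q1) (pc := pcN3) (cut := Cut.none) (xt := Ext.none) (P1 := 1610612736) (W1 := 469762048) (P2 := 536870912) (W2 := 536870912) (P3 := 1046898278) (W3 := 26843546) (N0 := 3)
    rfl k0_pp_313

noncomputable def f_pm_001 : ℕ → ℕ → ℕ → ℕ → Bool := onCell 67108864 469762048 67108864 469762048 1046898278 26843546
    (rowNX 3 0 true true false .up 0 0 1 (qsf 67108864 469762048 67108864 469762048 1) ndN1q0 ndN1q0 pcN1 Cut.none Ext.none)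

def k0_pm_001 : ∃ t, chk3 f_pm_001 t 1 1 1 = true :=
  ⟨(l 3), by decide +kernel⟩

theorem c_pm_001 : CertNX 67108864 469762048 67108864 469762048 1046898278 26843546 3 true true false .up 0 0 1
    ndN1q0 ndN1q0 pcN1 Cut.none Ext.none :=
  certNX0 (fam := true) (s1 := true) (s2 := false) (a := 0) (b := 0) (c := 1) (cn := .up) (n1 := ndN1q0) (n2 := ndN1q0) (pc := pcN1) (cut := Cut.none) (xt := Ext.none) (P1 := 67108864) (W1 := 469762048) (P2 := 67108864) (W2 := 469762048) (P3 := 1046898278) (W3 := 26843546) (N0 := 3)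
    rfl k0_pm_001

noncomputable def f_pm_011 : ℕ → ℕ → ℕ → ℕ → Bool := onCell 67108864 469762048 536870912 536870912 1046898278 26843546
    (rowNX 3 1 true true false .pnn 0 1 1 (qsf 67108864 469762048 536870912 536870912 1) ndN1q0 ndN1q1 pcN1 Cut.none Ext.none)

def k0_pm_011 : ∃ t, chk3 f_pm_011 t 1 1 1 = true :=
  ⟨(l 3), by decide +kernel⟩

theorem c_pm_011 : CertNX 67108864 469762048 536870912 536870912 1046898278 26843546 3 true true false .pnn 0 1 1
    ndN1q0 ndN1q1 pcN1 Cut.none Ext.none :=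
  certNX1 (fam := true) (s1 := true) (s2 := false) (a := 0) (b := 1) (c := 1) (cn := .pnn) (n1 := ndN1q0) (n2 := ndN1q1) (pc := pcN1) (cut := Cut.none) (xt := Ext.none) (P1 := 67108864) (W1 := 469762048) (P2 := 536870912) (W2 := 536870912) (P3 := 1046898278) (W3 := 26843546) (N0 := 3)
    rfl (fun _ => rfl) k0_pm_011

noncomputable def f_pm_012 : ℕ → ℕ → ℕ → ℕ → Bool := onCell 1073741824 536870912 536870912 536870912 1046898278 26843546
    (rowNX 3 2 true true false .pnp 0 1 2 (qsf 67108864 469762048 536870912 536870912 2) ndN1q0 ndN1q1 pcN2 Cut.none Ext.none)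

def k0_pm_012 : ∃ t, chk3 f_pm_012 t 1 2 1 = true :=
  ⟨(a (a (l 3) (b (a (a (a (l 3) (l 2)) (l 2)) (l 2)) (a (a (a (l 3) (a (a (l 3) (b (l 3) (a (l 3) (l 16777200)))) (a (a (b (l 3) (c (l 16777184) (l 16777176))) (b (l 1499111358391) (c (l 16777168) (l 16777168)))) (a (a (b (l 16777208) (a (l 16777176) (l 16777192))) (c (b (l 16777216) (l 16777208)) (b (l 16777216) (l 16777208)))) (a (a (a (b (l 16777216) (c (l 16774360) (l 16774256))) (a (b (l 16777216) (c (l 16771888) (l 16771696))) (a (a (c (l 16769992) (l 16769736)) (b (l 16777216) (c (l 16769408) (l 16769136)))) (l 16769256)))) (l 16769288)) (l 16769400)))))) (b (l 16777216) (l 16771528))) (b (l 16777216) (l 16776464))))) (a (b (l 2) (a (b (l 2) (l 16777216)) (l 2))) (l 2))), by decide +kernel⟩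

def k1_pm_012 : ∃ t, chk3 f_pm_012 t 1 6 1 = true :=
  ⟨(a (a (l 3) (a (a (a (a (b (l 3) (b (l 3) (a (l 635285447639) (b (l 16647816) (l 16560600))))) (a (b (l 3) (b (l 16690944) (c (l 16607512) (l 16580584)))) (b (b (l 3) (l 16747408)) (b (c (l 16692552) (l 16689584)) (c (l 16586720) (l 16580776)))))) (a (a (b (b (l 16777176) (c (l 16747992) (l 16746968))) (b (c (l 16692672) (l 16689704)) (c (b (l 16650496) (l 16568176)) (b (l 16646056) (l 16560864))))) (a (b (c (l 16762752) (l 16762248)) (b (l 16691200) (b (c (l 16652720) (l 16648368)) (c (l 16576632) (l 16569680))))) (b (c (l 16762768) (l 16762264)) (b (c (l 16694776) (l 16691896)) (b (c (l 16660312) (l 16656296)) (l 16593448)))))) (a (b (a (c (l 16762768) (l 16762256)) (c (b (l 16777128) (l 16751832)) (b (l 16777128) (l 16750992)))) (b (a (c (l 16700136) (l 16697504)) (a (c (l 16708464) (l 16706232)) (l 16719072))) (l 16638352))) (a (a (b (c (a (l 16767312) (l 16769056)) (a (l 16767056) (l 16768920))) (l 16623208)) (b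 (b (c (b (l 16772864) (l 16764672)) (b (l 16772704) (l 16764232))) (l 16749688)) (l 16595112))) (b (a (a (a (c (l 16742088) (l 16741000)) (l 16723488)) (l 16714136)) (l 16715112)) (b (l 16711656) (b (l 16706704) (l 16678472)))))))) (b (l 16735848) (b (l 16732312) (l 16686288)))) (b (l 16765344) (a (l 16543696) (l 16647792))))) (b (a (b (l 16777176) (l 16747392)) (l 2)) (a (b (l 16690904) (l 16604192)) (l 16647760)))), by decide +kernel⟩

def k2_pm_012 : ∃ t, chk3 f_pm_012 t 4 7 1 = true :=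
  ⟨(a (l 3) (a (b (l 3) (a (l 3) (b (l 3) (a (l 3) (b (l 3) (b (l 3) (c (l 16485768) (l 16566488)))))))) (b (a (l 3) (a (a (l 3) (b (l 3) (b (l 3) (l 16342952)))) (b (a (l 3) (c (l 16337960) (l 16322552))) (c (a (l 16287088) (l 16242016)) (a (l 16270640) (l 16223864)))))) (b (a (a (l 3) (c (b (l 429126935559) (l 16539776)) (b (l 436106242295) (l 16534320)))) (b (a (c (l 16415568) (l 16404896)) (c (l 16320032) (l 16305768))) (a (c (a (l 16482376) (l 16439400)) (a (l 16474848) (l 16430296))) (c (a (l 16394680) (c (l 16355168) (l 16349104))) (a (l 16383920) (l 16339816)))))) (b (a (a (a (l 3) (c (l 16589056) (l 16585768))) (c (l 16538304) (l 16533264))) (a (c (a (l 16487856) (l 16457184)) (a (l 16481056) (l 16449328))) (a (c (c (l 16433264) (l 16428968)) (l 16401400)) (l 16413304)))) (a (a (c (a (b (l 16622256) (c (l 16580176) (l 16600304))) (c (l 16594904) (l 16593592))) (a (b (l 16620376) (l 16515104)) (l 16507664))) (c (a (l 16560152) (l 16526584)) (a (l 16556312) (l 16521608))))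 (a (c (a (c (l 16497056) (l 16494104)) (l 16473040)) (a (l 16468592) (l 16466304))) (l 16457184)))))))), by decide +kernel⟩

def k3_pm_012 : ∃ t, chk3 f_pm_012 t 10 7 1 = true :=
  ⟨(a (a (b (a (b (a (c (l 16334352) (l 16318816)) (c (l 16334464) (l 16318928))) (c (a (l 16198424) (b (l 16152736) (l 16172712))) (a (l 16178624) (b (l 16130968) (l 16152232))))) (a (b (c (l 16334688) (l 16319160)) (c (b (b (l 16146408) (l 16112880)) (l 16146952)) (b (l 16112032) (l 16125560)))) (b (c (b (l 16412688) (l 16265800)) (b (l 16399904) (l 16247904))) (b (c (b (l 16163688) (l 16115616)) (l 16118328)) (l 16126776))))) (a (b (b (c (a (l 16255384) (l 16227336)) (a (l 16238696) (l 16209656))) (a (c (l 16324624) (l 16311344)) (l 16300696))) (b (l 16396400) (l 16456360))) (b (b (l 16200776) (l 16283176)) (b (l 16380376) (l 16424464))))) (a (b (b (a (b (c (l 16423288) (l 16410952)) (l 16285080)) (l 16389392)) (b (l 16183016) (a (l 16123096) (l 16132280)))) (b (a (l 16229880) (l 16227832)) (b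 (l 16307112) (a (l 16474784) (l 16477848))))) (b (a (b (l 16434048) (b (l 16247128) (l 16151832))) (a (b (l 16464408) (b (l 16273544) (l 16159720))) (a (a (a (b (l 16477264) (l 16223816)) (b (l 16462984) (a (l 16227344) (l 16230408)))) (l 16148544)) (l 16146024)))) (a (b (c (l 16232936) (l 16216616)) (b (l 16360312) (a (l 16478456) (b (l 16431368) (l 16474424))))) (a (b (a (l 16208488) (l 16202744)) (a (b (l 16336880) (l 16409000)) (b (l 16318328) (l 16314472)))) (b (a (a (a (l 16199792) (a (l 16200128) (b (l 16167216) (l 16235792)))) (l 16195784)) (l 16183712)) (b (a (a (a (l 16302992) (a (l 16289424) (b (l 16273232) (l 16272376)))) (l 16260040)) (l 16247048)) (l 16278040)))))))) (b (b (l 16441824) (l 16170040)) (b (b (a (l 16058792) (l 15942104)) (a (l 16078824) (b (l 15864488) (l 15845736)))) (b (l 15885824) (a (l 16103296) (l 15849248)))))), by decide +kernel⟩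

def k4_pm_012 : ∃ t, chk3 f_pm_012 t 11 7 1 = true :=
  ⟨(b (a (b (l 16364248) (l 16066080)) (l 16107080)) (a (b (b (l 15847704) (l 15703984)) (b (a (l 15630648) (l 15519280)) (a (l 15609512) (l 15420896)))) (b (l 15708272) (l 15416304)))), by decide +kernel⟩

def k5_pm_012 : ∃ t, chk3 f_pm_012 t 3 7 1 = true :=
  ⟨(b (a (b (l 16325936) (l 16013888)) (l 16127992)) (a (a (a (l 15435424) (l 15561248)) (l 15393480)) (b (l 15708176) (l 15416104)))), by decide +kernel⟩

theorem s6_pm_012 : ∃ t, chk3 f_pm_012 t 5 7 1 = true := ex3_a k3_pm_012 k4_pm_012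

theorem s7_pm_012 : ∃ t, chk3 f_pm_012 t 2 7 1 = true := ex3_a k2_pm_012 s6_pm_012

theorem s8_pm_012 : ∃ t, chk3 f_pm_012 t 1 7 1 = true := ex3_a s7_pm_012 k5_pm_012

theorem s9_pm_012 : ∃ t, chk3 f_pm_012 t 1 3 1 = true := ex3_b k1_pm_012 s8_pm_012

theorem s10_pm_012 : ∃ t, chk3 f_pm_012 t 1 1 1 = true := ex3_b k0_pm_012 s9_pm_012

theorem c_pm_012 : CertNX 67108864 469762048 536870912 536870912 1046898278 26843546 3 true true false .pnp 0 1 2
    ndN1q0 ndN1q1 pcN2 Cut.none Ext.none :=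
  certNX2 (fam := true) (s1 := true) (s2 := false) (a := 0) (b := 1) (c := 2) (cn := .pnp) (n1 := ndN1q0) (n2 := ndN1q1) (pc := pcN2) (cut := Cut.none) (xt := Ext.none) (P1 := 67108864) (W1 := 469762048) (P2 := 536870912) (W2 := 536870912) (P3 := 1046898278) (W3 := 26843546) (N0 := 3)
    rfl (fun _ => rfl) s10_pm_012

noncomputable def f_pm_022_a : ℕ → ℕ → ℕ → ℕ → Bool := onCell 1073741824 536870912 0 420477299 1046898278 26843546
    (rowNX 3 2 true true false .pp 0 2 2 (qsf 67108864 469762048 0 420477299 2) ndN1q0 ndN1q2a pcN2 Cut.none Ext.none)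

def k0_pm_022_a : ∃ t, chk3 f_pm_022_a t 2 2 1 = true :=
  ⟨(a (l 1) (a (l 1) (a (a (b (l 1) (b (l 1) (c (c (a (a (l 1) (a (l 1) (b (l 1) (l 15265784)))) (c (b (a (l 1) (l 15127128)) (a (l 15249592) (l 15211008))) (l 36537130135))) (a (l 15285920) (l 15161896))) (a (l 15245152) (l 15120856))))) (b (a (l 1) (c (c (a (b (l 1) (b (l 14788936) (l 14815616))) (b (l 14715672) (l 14773952))) (l 14738656)) (l 14580584))) (b (c (a (c (c (b (a (l 1) (l 14914992)) (a (l 15016352) (l 14972544))) (l 14955256)) (l 14930488)) (b (l 14848104) (l 14930448))) (a (l 14882856) (l 14818488))) (c (a (b (l 15053544) (l 15168712)) (l 15089520)) (l 14864464))))) (b (c (a (a (b (l 14748304) (l 14814304)) (l 14968144)) (b (l 15205584) (l 15269336))) (a (a (l 14715536) (l 14904600)) (l 15187520))) (c (a (b (l 14847680) (a (l 15141864) (l 15318544))) (b (l 15379128) (l 15506576))) (a (b (l 14975288) (l 15175888)) (b (l 15330040) (l 15461968)))))))), by decide +kernel⟩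

def k1_pm_022_a : ∃ t, chk3 f_pm_022_a t 4 3 1 = true :=
  ⟨(a (l 1) (b (l 1) (a (l 1) (a (l 1) (a (l 1) (a (l 1) (b (l 1) (b (l 1) (b (l 1) (c (c (c (b (l 1) (l 16208304)) (l 16283896)) (l 16282808)) (l 16272952))))))))))), by decide +kernel⟩

def k2_pm_022_a : ∃ t, chk3 f_pm_022_a t 20 3 1 = true :=
  ⟨(b (l 1) (b (b (l 1) (a (l 1) (c (c (a (a (l 1) (a (l 1) (b (l 1) (l 16139768)))) (b (a (l 1) (l 16369128)) (l 16122688))) (b (l 16166520) (l 16142248))) (a (l 16182176) (l 16170344))))) (b (b (a (l 1) (a (a (b (l 1) (c (a (a (l 1) (l 15966680)) (l 15997096)) (l 15827664))) (c (c (l 16060312) (l 16073496)) (l 16057888))) (c (l 16161032) (l 16143032)))) (a (a (l 1) (c (c (c (a (b (l 1) (l 16014872)) (b (a (l 1) (l 15872736)) (a (l 15958312) (l 15906008)))) (a (l 16019000) (l 15926952))) (l 15900704)) (c (l 15930200) (l 15854608)))) (a (c (c (b (a (l 15825560) (l 15973160)) (l 15917032)) (b (l 15940128) (l 15903464))) (b (c (l 15927120) (l 15829992)) (l 15882720))) (c (a (c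 (a (l 15956592) (l 15998072)) (a (l 15964984) (l 15985816))) (c (l 16031400) (l 16019672))) (a (a (b (l 15975592) (l 15919088)) (l 15925560)) (c (l 16007784) (l 15995704))))))) (a (c (c (a (b (a (l 1) (a (l 1) (b (l 1) (l 16092104)))) (c (a (b (c (l 16191112) (l 16202160)) (l 16143712)) (l 16077392)) (l 16129408))) (b (a (a (b (l 16007552) (l 16035616)) (l 15982672)) (l 15889168)) (l 15838896))) (a (b (l 16152696) (l 16122296)) (b (l 15913504) (l 15866456)))) (a (b (l 45129078647) (c (l 16112664) (l 16060912))) (b (a (l 15981664) (l 15853568)) (c (l 15851872) (l 15837040))))) (c (a (c (c (l 15823552) (l 15815792)) (l 15804056)) (c (a (a (l 15839512) (l 15850808)) (l 15870000)) (a (l 15766912) (l 15855048)))) (a (c (l 15788192) (l 15751104)) (a (c (l 15751376) (l 15672680)) (l 15748296)))))))), by decide +kernel⟩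

def k3_pm_022_a : ∃ t, chk3 f_pm_022_a t 21 3 1 = true :=
  ⟨(a (b (a (l 1) (b (l 1) (c (b (l 1) (c (c (b (a (l 1) (l 16023720)) (l 96668541847)) (l 16059656)) (l 16068688))) (l 15904016)))) (b (b (c (a (c (b (a (l 1) (l 16142888)) (a (l 829498164215) (l 16373848))) (b (l 16295800) (l 16399072))) (b (l 16164968) (l 16322272))) (b (l 16085224) (a (l 16330096) (l 16310712)))) (c (b (a (l 16530992) (l 16489608)) (l 16447000)) (b (l 16338264) (l 16419712)))) (c (b (b (l 16308176) (a (c (l 16016224) (l 16089464)) (c (l 16189712) (l 16180488)))) (c (a (b (l 15967384) (l 15855072)) (b (l 15910168) (l 15942320))) (a (l 15897080) (b (l 16023880) (l 15928368))))) (b (b (l 16295144) (b (l 16162032) (a (l 15964128) (l 16119992)))) (a (c (l 15882488) (l 15846720)) (b (b (l 16013152) (l 15975640)) (l 15823160))))))) (b (b (a (l 1) (c (c (b (l 1) (c (b (a (l 1) (l 15560280)) (l 92372672087)) (l 15607608))) (l 15555896)) (l 15526304))) (c (a (c (b (a (b (l 1) (l 15873344)) (b (l 15776456)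 (l 15828768))) (l 15837136)) (l 55329003783)) (b (l 15569240) (l 15923480))) (b (l 15587248) (l 15852608)))) (b (c (b (l 16171224) (l 16319152)) (b (l 16153056) (l 16291760))) (b (c (a (l 16224536) (l 16335728)) (c (l 16206960) (l 16181608))) (c (a (b (c (l 16075328) (l 16149280)) (l 16072032)) (b (l 16152464) (l 16219232))) (b (a (b (l 16096304) (l 16104888)) (l 16180456)) (c (l 16130048) (l 16119680)))))))), by decide +kernel⟩

def k4_pm_022_a : ∃ t, chk3 f_pm_022_a t 11 3 1 = true :=
  ⟨(b (a (c (b (a (a (b (a (b (l 1) (l 87003628551)) (a (l 15331608) (l 15355176))) (l 15520136)) (l 15409544)) (l 15366240)) (a (l 15767056) (b (l 15591152) (l 15721680)))) (b (a (a (l 15334648) (l 15363200)) (l 15317336)) (a (l 15733352) (l 15441440)))) (a (c (b (a (b (l 15327296) (l 15450248)) (l 15506504)) (l 15613432)) (b (a (l 15336744) (l 15461888)) (l 15572568))) (l 15673432))) (a (a (b (c (b (l 15825752) (l 16127168)) (b (l 15885968) (l 16133368))) (b (l 16305920) (b (a (c (l 16339728)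 (l 16353232)) (l 16608192)) (c (c (l 16217096) (l 16275696)) (c (l 16250352) (l 16203984)))))) (b (b (c (l 15838904) (l 15806456)) (l 15998232)) (b (l 16161104) (b (l 16327968) (c (a (l 16546280) (l 16378520)) (a (l 16479792) (l 16368920))))))) (b (b (a (l 15679736) (l 15863184)) (a (l 15889760) (l 16042432))) (b (a (l 15927056) (l 16266424)) (c (l 16206632) (a (l 16251080) (l 16476448))))))), by decide +kernel⟩

def k5_pm_022_a : ∃ t, chk3 f_pm_022_a t 3 1 1 = true :=
  ⟨(b (a (a (a (b (c (b (l 15581872) (l 15609824)) (l 15511416)) (b (l 15643144) (l 15719472))) (b (l 15707720) (c (l 15911528) (l 15989672)))) (a (b (l 16244864) (l 16131216)) (b (a (l 16532072) (l 16706480)) (a (l 16570680) (l 16755792))))) (b (a (b (l 16777208) (l 16777040)) (l 16777120)) (a (l 16776040) (l 16776040)))) (a (b (a (a (b (l 15785264) (l 15833312)) (b (l 16161624) (l 16275832))) (a (b (l 16333440) (a (l 16553792) (l 16749416))) (b (l 16765536) (l 16771280)))) (a (b (a (b (l 15989640) (l 16244128))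 (b (l 16354464) (a (l 16587160) (l 16618336)))) (a (b (l 16357920) (l 16285632)) (b (a (l 16543976) (l 16500664)) (a (l 16327000) (l 16298680))))) (b (a (b (a (l 16648456) (l 16766040)) (l 16627256)) (l 16686552)) (c (l 16336824) (l 16365472))))) (b (l 16772600) (b (a (l 16665576) (l 16707520)) (b (l 16489856) (l 16298680)))))), by decide +kernel⟩

theorem s6_pm_022_a : ∃ t, chk3 f_pm_022_a t 10 3 1 = true := ex3_a k2_pm_022_a k3_pm_022_a

theorem s7_pm_022_a : ∃ t, chk3 f_pm_022_a t 5 3 1 = true := ex3_a s6_pm_022_a k4_pm_022_a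

theorem s8_pm_022_a : ∃ t, chk3 f_pm_022_a t 2 3 1 = true := ex3_a k1_pm_022_a s7_pm_022_a

theorem s9_pm_022_a : ∃ t, chk3 f_pm_022_a t 2 1 1 = true := ex3_b k0_pm_022_a s8_pm_022_a

theorem s10_pm_022_a : ∃ t, chk3 f_pm_022_a t 1 1 1 = true := ex3_a s9_pm_022_a k5_pm_022_a

theorem c_pm_022_a : CertNX 67108864 469762048 0 420477299 1046898278 26843546 3 true true false .pp 0 2 2
    ndN1q0 ndN1q2a pcN2 Cut.none Ext.none :=
  certNX2 (fam := true) (s1 := true) (s2 := false) (a := 0) (b := 2) (c := 2) (cn := .pp) (n1 := ndN1q0) (n2 := ndN1q2a) (pc := pcN2) (cut := Cut.none) (xt := Ext.none) (P1 := 67108864) (W1 := 469762048) (P2 := 0) (W2 := 420477299) (P3 := 1046898278) (W3 := 26843546) (N0 := 3)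
    rfl (fun _ => rfl) s10_pm_022_a

noncomputable def f_pm_022_b : ℕ → ℕ → ℕ → ℕ → Bool := onCell 67108864 469762048 1073741824 536870912 1046898278 26843546
    (rowNX 3 1 true true false .pp 0 2 2 (qsf 67108864 469762048 1239849684 370763052 2) ndN1q0 ndN1q2b pcN2 Cut.none Ext.none)

def k0_pm_022_b : ∃ t, chk3 f_pm_022_b t 1 1 1 = true :=
  ⟨(b (b (l 1) (a (b (l 1) (a (a (b (a (a (c (b (l 1) (l 240010775287)) (l 241621676551)) (l 1)) (l 1)) (b (a (a (c (a (l 14685888) (l 14848864)) (l 14689176)) (c (l 301214342471) (l 15030880))) (l 1)) (a (c (a (l 14762712) (l 15089216)) (l 14846728)) (c (l 316247439895) (l 15442760))))) (l 1)) (l 1))) (l 1))) (a (b (a (a (a (c (b (a (l 14762712) (l 15089272)) (a (l 14762712) (l 15089272))) (b (a (l 14687984) (l 15029984)) (l 14846768))) (c (b (a (l 293162001575) (l 15576768)) (l 15488520)) (b (l 326447897591) (l 15443280)))) (b (a (l 416106674007) (b (l 1) (l 16025384))) (b (a (l 15744944) (l 16025800)) (l 15887280)))) (b (l 1) (a (a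 (l 409128028151) (b (l 1) (l 16686616))) (l 1)))) (a (a (a (b (c (l 14920576) (l 14846768)) (l 14888424)) (c (l 15488520) (l 15443280))) (b (l 15761456) (l 15887280))) (a (b (a (l 16369808) (l 16686856)) (l 16530888)) (b (l 394096754711) (l 16777216))))) (b (l 1) (a (b (a (b (l 1) (l 349536411671)) (l 1)) (a (l 383359380695) (b (l 1) (l 351683830103)))) (l 1))))), by decide +kernel⟩

theorem c_pm_022_b : CertNX 67108864 469762048 1239849684 370763052 1046898278 26843546 3 true true false .pp 0 2 2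
    ndN1q0 ndN1q2b pcN2 Cut.none Ext.none :=
  certNX1 (fam := true) (s1 := true) (s2 := false) (a := 0) (b := 2) (c := 2) (cn := .pp) (n1 := ndN1q0) (n2 := ndN1q2b) (pc := pcN2) (cut := Cut.none) (xt := Ext.none) (P1 := 67108864) (W1 := 469762048) (P2 := 1239849684) (W2 := 370763052) (P3 := 1046898278) (W3 := 26843546) (N0 := 3)
    rfl (fun _ => rfl) k0_pm_022_b

noncomputable def f_pm_023_a : ℕ → ℕ → ℕ → ℕ → Bool := onCell 1610612736 536870912 0 420477299 1046898278 26843546
    (rowNX 3 2 true true false .up 0 2 3 (qsf 67108864 469762048 0 420477299 3) ndN1q0 ndN1q2a pcN3 Cut.none Ext.none)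

def k0_pm_023_a : ∃ t, chk3 f_pm_023_a t 1 1 1 = true :=
  ⟨(a (a (b (a (b (l 16777120) (l 16776040)) (c (l 16776592) (l 16776568))) (b (a (l 16772600) (l 16772600)) (b (a (l 16707520) (l 16707520)) (b (l 16489856) (l 16298680))))) (a (b (c (l 16776592) (l 16776568)) (b (l 170825598199) (l 2))) (l 2))) (l 2)), by decide +kernel⟩

theorem c_pm_023_a : CertNX 67108864 469762048 0 420477299 1046898278 26843546 3 true true false .up 0 2 3
    ndN1q0 ndN1q2a pcN3 Cut.none Ext.none :=
  certNX2 (fam := true) (s1 := true) (s2 := false) (a := 0) (b := 2) (c := 3) (cn := .up) (n1 := ndN1q0) (n2 := ndN1q2a) (pc := pcN3) (cut := Cut.none) (xt := Ext.none) (P1 := 67108864) (W1 := 469762048) (P2 := 0) (W2 := 420477299) (P3 := 1046898278) (W3 := 26843546) (N0 := 3)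
    rfl (fun _ => rfl) k0_pm_023_a

noncomputable def f_pm_023_b : ℕ → ℕ → ℕ → ℕ → Bool := onCell 67108864 469762048 1610612736 536870912 1046898278 26843546
    (rowNX 3 1 true true false .up 0 2 3 (qsf 67108864 469762048 1239849684 370763052 3) ndN1q0 ndN1q2b pcN3 Cut.none Ext.none)

def k0_pm_023_b : ∃ t, chk3 f_pm_023_b t 1 1 1 = true :=
  ⟨(b (b (b (a (a (a (a (l 14888424) (l 15465952)) (l 15887280)) (a (l 16530888) (l 16777216))) (a (l 384969993959) (a (b (l 1) (l 359736957575)) (l 1)))) (a (a (a (a (l 14699680) (l 15277208)) (l 15887280)) (a (l 16530888) (l 16777216))) (a (c (l 16777216) (l 16777216)) (b (a (l 16776888) (l 1)) (l 391949269703))))) (b (a (a (a (l 2) (l 15740480)) (a (b (l 16530888) (l 16530888)) (l 16777216))) (c (a (l 16777216) (l 389264962839)) (a (l 16777216) (l 16777120)))) (a (l 4) (b (c (l 16777216) (l 16777216)) (l 4))))) (l 4)), by decide +kernel⟩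

theorem c_pm_023_b : CertNX 67108864 469762048 1239849684 370763052 1046898278 26843546 3 true true false .up 0 2 3
    ndN1q0 ndN1q2b pcN3 Cut.none Ext.none :=
  certNX1 (fam := true) (s1 := true) (s2 := false) (a := 0) (b := 2) (c := 3) (cn := .up) (n1 := ndN1q0) (n2 := ndN1q2b) (pc := pcN3) (cut := Cut.none) (xt := Ext.none) (P1 := 67108864) (W1 := 469762048) (P2 := 1239849684) (W2 := 370763052) (P3 := 1046898278) (W3 := 26843546) (N0 := 3)
    rfl (fun _ => rfl) k0_pm_023_b

noncomputable def f_pm_033 : ℕ → ℕ → ℕ → ℕ → Bool := onCell 67108864 469762048 1610612736 536870912 1046898278 26843546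
    (rowNX 3 1 true true false .pnn 0 3 3 (qsf 67108864 469762048 1610612736 469762048 3) ndN1q0 ndN1q3 pcN3 Cut.none Ext.none)

def k0_pm_033 : ∃ t, chk3 f_pm_033 t 1 1 1 = true :=
  ⟨(b (a (b (a (a (c (a (l 217998928103) (l 15488520)) (b (l 15039888) (l 15039888))) (b (l 1) (l 15887280))) (l 1)) (b (a (a (c (a (l 14920576) (l 15488520)) (l 14851144)) (l 15740480)) (c (l 16513472) (l 131566329271))) (l 4))) (l 1)) (l 4)), by decide +kernel⟩

theorem c_pm_033 : CertNX 67108864 469762048 1610612736 469762048 1046898278 26843546 3 true true false .pnn 0 3 3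
    ndN1q0 ndN1q3 pcN3 Cut.none Ext.none :=
  certNX1 (fam := true) (s1 := true) (s2 := false) (a := 0) (b := 3) (c := 3) (cn := .pnn) (n1 := ndN1q0) (n2 := ndN1q3) (pc := pcN3) (cut := Cut.none) (xt := Ext.none) (P1 := 67108864) (W1 := 469762048) (P2 := 1610612736) (W2 := 469762048) (P3 := 1046898278) (W3 := 26843546) (N0 := 3)
    rfl (fun _ => rfl) k0_pm_033

noncomputable def f_pm_101 : ℕ → ℕ → ℕ → ℕ → Bool := onCell 536870912 536870912 67108864 469762048 1046898278 26843546
    (rowNX 3 2 true true false .npn 1 0 1 (qsf 536870912 536870912 67108864 469762048 1) ndN1q1 ndN1q0 pcN1 Cut.none Ext.none)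

def k0_pm_101 : ∃ t, chk3 f_pm_101 t 1 1 1 = true :=
  ⟨(l 3), by decide +kernel⟩

theorem c_pm_101 : CertNX 536870912 536870912 67108864 469762048 1046898278 26843546 3 true true false .npn 1 0 1
    ndN1q1 ndN1q0 pcN1 Cut.none Ext.none :=
  certNX2 (fam := true) (s1 := true) (s2 := false) (a := 1) (b := 0) (c := 1) (cn := .npn) (n1 := ndN1q1) (n2 := ndN1q0) (pc := pcN1) (cut := Cut.none) (xt := Ext.none) (P1 := 536870912) (W1 := 536870912) (P2 := 67108864) (W2 := 469762048) (P3 := 1046898278) (W3 := 26843546) (N0 := 3)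
    rfl (fun _ => rfl) k0_pm_101

noncomputable def f_pm_102 : ℕ → ℕ → ℕ → ℕ → Bool := onCell 536870912 536870912 1073741824 536870912 1046898278 26843546
    (rowNX 3 1 true true false .npp 1 0 2 (qsf 536870912 536870912 67108864 469762048 2) ndN1q1 ndN1q0 pcN2 Cut.none Ext.none)

def k0_pm_102 : ∃ t, chk3 f_pm_102 t 2 1 1 = true :=
  ⟨(b (b (l 3) (a (b (b (b (l 3) (l 2)) (l 2)) (l 2)) (b (b (b (l 3) (b (a (l 3) (b (l 3) (b (l 3) (l 16777200)))) (b (a (b (l 3) (l 1499111358391)) (b (c (l 16777184) (l 16777176)) (c (l 16777168) (l 16777168)))) (b (b (a (l 16777208) (a (l 16777192) (l 16777176))) (c (a (l 16777216) (l 16777208)) (a (l 16777216) (l 16777208)))) (b (b (b (a (l 16777216) (c (l 16774360) (l 16774256))) (b (a (l 16777216) (c (l 16771888) (l 16771696))) (b (b (c (l 16769992) (l 16769736)) (a (l 16777216) (c (l 16769408) (l 16769136)))) (l 16769256)))) (l 16769288)) (l 16769400)))))) (a (l 16777216) (l 16771528))) (a (l 16777216) (l 16776464))))) (b (a (l 2) (b (a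 (l 2) (l 16777216)) (l 2))) (l 2))), by decide +kernel⟩

def k1_pm_102 : ∃ t, chk3 f_pm_102 t 6 1 1 = true :=
  ⟨(b (b (l 3) (b (b (b (b (a (l 3) (a (l 3) (a (l 596094252727) (b (l 16560424) (l 16560600))))) (b (a (l 3) (a (l 16690944) (c (l 16607512) (l 16580584)))) (a (a (l 3) (l 16747408)) (a (c (l 16692552) (l 16689584)) (c (l 16586720) (l 16580776)))))) (b (b (a (a (l 16777176) (c (l 16747992) (l 16746968))) (a (c (l 16692672) (l 16689704)) (c (a (l 16650496) (l 16568176)) (a (l 16646056) (l 16560864))))) (b (a (c (l 16762752) (l 16762248)) (a (l 16691200) (a (c (l 16652720) (l 16648368)) (c (l 16576632) (l 16569680))))) (a (c (l 16762768) (l 16762264)) (a (c (l 16694776) (l 16691896)) (a (c (l 16660312) (l 16656296)) (l 16593448)))))) (b (a (b (c (l 16762768) (l 16762256)) (c (a (l 16777128) (l 16751832)) (a (l 16777128) (l 16750992)))) (a (b (c (l 16700136) (l 16697504)) (b (c (l 16708464) (l 16706232)) (l 16719072))) (l 16638352))) (b (b (a (c (a (l 16775608) (l 16757120))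 (a (l 16775552) (l 16756576))) (l 16623208)) (a (a (c (a (l 16772864) (l 16764672)) (a (l 16772704) (l 16764232))) (l 16749688)) (l 16595112))) (a (b (b (b (c (l 16742088) (l 16741000)) (l 16723488)) (l 16714136)) (l 16715112)) (a (l 16711656) (a (l 16706704) (l 16678472)))))))) (a (l 16735848) (a (l 16732312) (l 16686288)))) (a (l 16765344) (b (l 16543696) (l 16647792))))) (a (b (a (l 16777176) (l 16747392)) (l 2)) (b (a (l 16690904) (l 16604192)) (l 16647760)))), by decide +kernel⟩

def k2_pm_102 : ∃ t, chk3 f_pm_102 t 7 4 1 = true :=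
  ⟨(b (l 3) (b (a (l 3) (b (l 3) (a (l 3) (a (l 3) (a (l 3) (b (l 3) (c (l 16485768) (l 16566488)))))))) (a (b (l 3) (b (a (l 3) (a (l 3) (b (l 3) (l 16342952)))) (a (b (l 3) (c (l 16337960) (l 16322552))) (c (b (l 16287088) (l 16242016)) (b (l 16270640) (l 16223864)))))) (a (b (b (l 3) (c (a (l 429126935559) (l 16539776)) (a (l 436106242295) (l 16534320)))) (a (b (c (l 16415568) (l 16404896)) (c (l 16320032) (l 16305768))) (b (c (b (l 16482376) (l 16439400)) (b (l 16474848) (l 16430296))) (c (b (l 16394680) (c (l 16355168) (l 16349104))) (b (l 16383920) (l 16339816)))))) (a (b (b (b (l 3) (c (l 16589056) (l 16585768))) (c (l 16538304) (l 16533264))) (b (c (b (l 16487856) (l 16457184)) (b (l 16481056) (l 16449328))) (b (c (c (l 16433264) (l 16428968)) (l 16401400)) (l 16413304)))) (b (b (c (b (a (l 16622256) (c (l 16580176) (l 16600304))) (c (l 16594904) (l 16593592))) (b (a (l 16620376) (l 16515104)) (l 16528632))) (c (b (l 16560152) (l 16526584)) (b (l 16556312) (l 16521608))))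 (b (c (b (c (l 16497056) (l 16494104)) (l 16473040)) (b (l 16468592) (l 16466304))) (l 16457184)))))))), by decide +kernel⟩

def k3_pm_102 : ∃ t, chk3 f_pm_102 t 7 10 1 = true :=
  ⟨(b (b (a (b (a (b (c (l 16334352) (l 16318816)) (c (l 16334464) (l 16318928))) (c (b (l 16198424) (a (l 16152736) (l 16172712))) (b (l 16178624) (a (l 16130968) (l 16152232))))) (b (a (c (l 16334688) (l 16319160)) (c (a (a (l 16146408) (l 16112880)) (l 16146952)) (a (l 16112032) (l 16125560)))) (a (c (a (l 16412688) (l 16265800)) (a (l 16399904) (l 16247904))) (a (c (a (l 16163688) (l 16115616)) (l 16118328)) (l 16126776))))) (b (a (a (c (b (l 16255384) (l 16227336)) (b (l 16238696) (l 16209656))) (b (c (l 16324624) (l 16311344)) (l 16300696))) (a (l 16396400) (l 16456360))) (a (a (l 16200776) (l 16283176)) (a (l 16380376) (l 16424464))))) (b (a (a (b (a (c (l 16423288) (l 16410952)) (l 16285080)) (l 16389392)) (a (l 16183016) (b (l 16123096) (l 16132280)))) (a (b (l 16229880) (l 16227832)) (a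 (l 16307112) (a (l 16453416) (l 16460776))))) (a (b (a (l 16434048) (a (l 16247128) (l 16151832))) (b (a (l 16464408) (a (l 16273544) (l 16159720))) (b (b (b (a (l 16477264) (l 16223816)) (a (l 16462984) (b (l 16227344) (l 16230408)))) (l 16148544)) (l 16146024)))) (b (a (c (l 16232936) (l 16216616)) (a (l 16360312) (b (l 16478456) (a (l 16431368) (l 16474424))))) (b (a (b (l 16208488) (l 16202744)) (b (a (l 16336880) (l 16409000)) (a (l 16318328) (l 16314472)))) (a (b (b (b (l 16199792) (b (l 16200128) (a (l 16167216) (l 16235792)))) (l 16195784)) (l 16183712)) (a (b (b (b (l 16302992) (b (l 16289424) (a (l 16273232) (l 16272376)))) (l 16260040)) (l 16247048)) (l 16278040)))))))) (a (a (l 16441824) (l 16170040)) (a (a (b (l 16058792) (l 15942104)) (b (l 16078824) (a (l 15864488) (l 15845736)))) (a (l 15885824) (b (l 16103296) (l 15849248)))))), by decide +kernel⟩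

def k4_pm_102 : ∃ t, chk3 f_pm_102 t 7 11 1 = true :=
  ⟨(a (b (a (l 16364248) (l 16066080)) (l 16107080)) (b (a (a (l 15847704) (l 15703984)) (a (b (l 15630648) (l 15519280)) (b (l 15609512) (l 15420896)))) (a (l 15708272) (l 15416304)))), by decide +kernel⟩

def k5_pm_102 : ∃ t, chk3 f_pm_102 t 7 3 1 = true :=
  ⟨(a (b (a (l 16325936) (l 16013888)) (l 16127992)) (b (b (a (l 15708176) (l 15416104)) (l 15393480)) (a (l 15708176) (l 15416104)))), by decide +kernel⟩

theorem s6_pm_102 : ∃ t, chk3 f_pm_102 t 7 5 1 = true := ex3_b k3_pm_102 k4_pm_102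

theorem s7_pm_102 : ∃ t, chk3 f_pm_102 t 7 2 1 = true := ex3_b k2_pm_102 s6_pm_102

theorem s8_pm_102 : ∃ t, chk3 f_pm_102 t 7 1 1 = true := ex3_b s7_pm_102 k5_pm_102

theorem s9_pm_102 : ∃ t, chk3 f_pm_102 t 3 1 1 = true := ex3_a k1_pm_102 s8_pm_102

theorem s10_pm_102 : ∃ t, chk3 f_pm_102 t 1 1 1 = true := ex3_a k0_pm_102 s9_pm_102

theorem c_pm_102 : CertNX 536870912 536870912 67108864 469762048 1046898278 26843546 3 true true false .npp 1 0 2
    ndN1q1 ndN1q0 pcN2 Cut.none Ext.none :=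
  certNX1 (fam := true) (s1 := true) (s2 := false) (a := 1) (b := 0) (c := 2) (cn := .npp) (n1 := ndN1q1) (n2 := ndN1q0) (pc := pcN2) (cut := Cut.none) (xt := Ext.none) (P1 := 536870912) (W1 := 536870912) (P2 := 67108864) (W2 := 469762048) (P3 := 1046898278) (W3 := 26843546) (N0 := 3)
    rfl (fun _ => rfl) s10_pm_102

noncomputable def f_pm_112 : ℕ → ℕ → ℕ → ℕ → Bool := onCell 536870912 536870912 1073741824 536870912 1046898278 26843546
    (rowNX 3 1 true true false .dn 1 1 2 (qsf 536870912 536870912 536870912 536870912 2) ndN1q1 ndN1q1 pcN2 Cut.none Ext.none)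

def k0_pm_112 : ∃ t, chk3 f_pm_112 t 1 1 1 = true :=
  ⟨(a (b (b (l 3) (b (b (b (l 3) (a (b (l 3) (b (l 3) (b (b (a (l 16777216) (l 3)) (a (a (l 16777216) (l 16777216)) (c (l 16777216) (l 16777216)))) (b (b (b (a (l 16777216) (l 16777216)) (b (a (l 16777216) (l 16777216)) (a (c (l 16777216) (l 16777216)) (c (l 16777216) (l 16777216))))) (l 16777216)) (l 16777216))))) (a (b (l 3) (b (b (l 3) (l 1508238163895)) (b (a (b (l 16777216) (l 16777216)) (l 1)) (b (b (b (l 16777216) (a (b (l 16777216) (l 16777216)) (l 1))) (l 16777216)) (l 16777216))))) (l 1)))) (a (a (l 16777216) (l 16777216)) (a (l 16777216) (l 16771528)))) (a (a (l 16777016) (l 16777216)) (a (l 16777216) (l 16776464))))) (b (a (b (a (l 16769976) (l 16777216)) (a (b (l 16738952) (l 16681392)) (l 16769976))) (b (a (l 16777216) (l 16777216)) (l 16777216))) (a (a (b (a (l 16147472) (l 16541240)) (a (l 15711088) (l 16015512))) (b (a (l 16681392) (l 16738952)) (a (l 16210392) (l 16541240)))) (a (b (l 16769976) (l 16698584))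 (l 16772520))))) (b (b (l 1) (b (l 1) (a (a (l 16765344) (l 1)) (l 1)))) (a (a (b (l 230351025511) (l 16762416)) (b (l 187401049831) (l 16647760))) (a (b (l 15918272) (l 16127992)) (b (l 1) (l 15498336)))))), by decide +kernel⟩

theorem c_pm_112 : CertNX 536870912 536870912 536870912 536870912 1046898278 26843546 3 true true false .dn 1 1 2
    ndN1q1 ndN1q1 pcN2 Cut.none Ext.none :=
  certNX1 (fam := true) (s1 := true) (s2 := false) (a := 1) (b := 1) (c := 2) (cn := .dn) (n1 := ndN1q1) (n2 := ndN1q1) (pc := pcN2) (cut := Cut.none) (xt := Ext.none) (P1 := 536870912) (W1 := 536870912) (P2 := 536870912) (W2 := 536870912) (P3 := 1046898278) (W3 := 26843546) (N0 := 3)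
    rfl (fun _ => rfl) k0_pm_112

noncomputable def f_pm_113 : ℕ → ℕ → ℕ → ℕ → Bool := onCell 536870912 536870912 536870912 536870912 1046898278 26843546
    (rowNX 3 0 true true false .nn 1 1 3 (qsf 536870912 536870912 536870912 536870912 3) ndN1q1 ndN1q1 pcN3 Cut.none Ext.none)

def k0_pm_113 : ∃ t, chk3 f_pm_113 t 1 1 1 = true :=
  ⟨(a (b (a (l 1) (b (l 1) (l 16777216))) (b (b (l 214244897815) (a (l 16647760) (l 16647760))) (b (a (l 16169936) (l 16169936)) (a (l 15519312) (l 15393480))))) (b (a (a (l 214244897815) (b (l 16647760) (l 16647760))) (a (b (l 16169936) (l 16169936)) (b (l 15519312) (l 15393480)))) (a (b (a (b (l 16747976) (l 16633760)) (b (l 16633760) (l 16524256))) (b (a (l 16156176) (l 16052928)) (a (l 15547696) (l 15447976)))) (b (a (b (l 16156176) (l 16052928)) (b (l 15547696) (l 15447976))) (a (b (l 15623144) (b (l 15204616) (a (l 15054240) (b (l 14912032) (l 14818480))))) (b (a (l 15204616) (b (l 15054240) (a (l 14912032) (l 14818480)))) (a (b (l 14891072)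 (b (l 14789560) (a (l 14770344) (l 14824568)))) (b (a (l 14789560) (b (l 14770344) (l 14824568))) (a (b (l 14853320) (c (l 15657312) (l 14531120))) (b (c (l 15657312) (l 14531120)) (a (l 15747608) (b (l 16184976) (a (l 16777168) (b (l 16759296) (a (l 16776672) (b (l 16768024) (a (l 16776888) (a (l 16778512) (a (l 16775328) (b (l 16768976) (b (l 16773424) (b (l 16776064) (a (l 16777192) (b (l 16776640) (l 16777392))))))))))))))))))))))))), by decide +kernel⟩

theorem c_pm_113 : CertNX 536870912 536870912 536870912 536870912 1046898278 26843546 3 true true false .nn 1 1 3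
    ndN1q1 ndN1q1 pcN3 Cut.none Ext.none :=
  certNX0 (fam := true) (s1 := true) (s2 := false) (a := 1) (b := 1) (c := 3) (cn := .nn) (n1 := ndN1q1) (n2 := ndN1q1) (pc := pcN3) (cut := Cut.none) (xt := Ext.none) (P1 := 536870912) (W1 := 536870912) (P2 := 536870912) (W2 := 536870912) (P3 := 1046898278) (W3 := 26843546) (N0 := 3)
    rfl k0_pm_113

noncomputable def f_pm_123_a : ℕ → ℕ → ℕ → ℕ → Bool := onCell 1610612736 536870912 0 420477299 1046898278 26843546
    (rowNX 3 2 true true false .npn 1 2 3 (qsf 536870912 536870912 0 420477299 3) ndN1q1 ndN1q2a pcN3 Cut.none Ext.none)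

def k0_pm_123_a : ∃ t, chk3 f_pm_123_a t 1 1 1 = true :=
  ⟨(b (a (a (l 1) (a (c (l 16776592) (l 16776568)) (a (c (l 16776592) (l 16776568)) (c (l 16776592) (l 16776568))))) (a (c (a (a (l 16776592) (b (l 168275475799) (l 16776064))) (a (b (l 4) (l 16776064)) (l 203172084567))) (a (a (l 16776568) (b (l 16777112) (l 16776024))) (a (l 193508402199) (l 203172078615)))) (l 4))) (a (a (b (l 16772600) (b (l 84858890039) (l 16246272))) (b (a (c (l 16772680) (l 16772528)) (c (l 16772680) (l 16772528))) (b (a (l 16707520) (l 16707520)) (a (l 16393072) (l 16393072))))) (a (b (a (c (l 16772688) (l 16772528)) (a (l 16772624) (c (l 16772696) (l 16772536)))) (a (b (c (l 16708736) (l 16706328)) (l 16372112)) (b (a (l 16707568) (l 16707352)) (a (l 16393128) (l 16389360))))) (a (b (a (b (l 4) (a (l 16770000) (l 123178184487))) (l 4)) (a (b (a (l 16707136) (l 16688312)) (c (l 16397992) (l 16377504))) (b (c (a (l 16718200) (l 16641488)) (a (l 16712616) (l 16638120))) (a (l 16402616) (c (l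 16372688) (l 16362936)))))) (a (b (l 4) (a (b (l 4) (b (l 4) (a (l 16353736) (l 16387816)))) (l 4))) (l 4)))))), by decide +kernel⟩

theorem c_pm_123_a : CertNX 536870912 536870912 0 420477299 1046898278 26843546 3 true true false .npn 1 2 3
    ndN1q1 ndN1q2a pcN3 Cut.none Ext.none :=
  certNX2 (fam := true) (s1 := true) (s2 := false) (a := 1) (b := 2) (c := 3) (cn := .npn) (n1 := ndN1q1) (n2 := ndN1q2a) (pc := pcN3) (cut := Cut.none) (xt := Ext.none) (P1 := 536870912) (W1 := 536870912) (P2 := 0) (W2 := 420477299) (P3 := 1046898278) (W3 := 26843546) (N0 := 3)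
    rfl (fun _ => rfl) k0_pm_123_a

noncomputable def f_pm_123_b : ℕ → ℕ → ℕ → ℕ → Bool := onCell 1610612736 536870912 1239849684 370763052 1046898278 26843546
    (rowNX 3 2 true true false .npn 1 2 3 (qsf 536870912 536870912 1239849684 370763052 3) ndN1q1 ndN1q2b pcN3 Cut.none Ext.none)

def k0_pm_123_b : ∃ t, chk3 f_pm_123_b t 1 1 1 = true :=
  ⟨(a (b (a (l 1) (a (c (l 16777216) (l 16777216)) (c (a (l 16777216) (l 16777216)) (a (l 16777216) (l 16777216))))) (l 1)) (a (l 4) (l 4))), by decide +kernel⟩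

theorem c_pm_123_b : CertNX 536870912 536870912 1239849684 370763052 1046898278 26843546 3 true true false .npn 1 2 3
    ndN1q1 ndN1q2b pcN3 Cut.none Ext.none :=
  certNX2 (fam := true) (s1 := true) (s2 := false) (a := 1) (b := 2) (c := 3) (cn := .npn) (n1 := ndN1q1) (n2 := ndN1q2b) (pc := pcN3) (cut := Cut.none) (xt := Ext.none) (P1 := 536870912) (W1 := 536870912) (P2 := 1239849684) (W2 := 370763052) (P3 := 1046898278) (W3 := 26843546) (N0 := 3)
    rfl (fun _ => rfl) k0_pm_123_b

noncomputable def f_pm_133 : ℕ → ℕ → ℕ → ℕ → Bool := onCell 536870912 536870912 1610612736 469762048 1046898278 26843546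
    (rowNX 3 0 true true false .dn 1 3 3 (qsf 536870912 536870912 1610612736 469762048 3) ndN1q1 ndN1q3 pcN3 Cut.none Ext.none)

def k0_pm_133 : ∃ t, chk3 f_pm_133 t 1 1 1 = true :=
  ⟨(l 4), by decide +kernel⟩

theorem c_pm_133 : CertNX 536870912 536870912 1610612736 469762048 1046898278 26843546 3 true true false .dn 1 3 3
    ndN1q1 ndN1q3 pcN3 Cut.none Ext.none :=
  certNX0 (fam := true) (s1 := true) (s2 := false) (a := 1) (b := 3) (c := 3) (cn := .dn) (n1 := ndN1q1) (n2 := ndN1q3) (pc := pcN3) (cut := Cut.none) (xt := Ext.none) (P1 := 536870912) (W1 := 536870912) (P2 := 1610612736) (W2 := 469762048) (P3 := 1046898278) (W3 := 26843546) (N0 := 3)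
    rfl k0_pm_133

noncomputable def f_pm_202_a : ℕ → ℕ → ℕ → ℕ → Bool := onCell 0 420477299 1073741824 536870912 1046898278 26843546
    (rowNX 3 1 true true false .pp 2 0 2 (qsf 0 420477299 67108864 469762048 2) ndN1q2a ndN1q0 pcN2 Cut.none Ext.none)

def k0_pm_202_a : ∃ t, chk3 f_pm_202_a t 2 2 1 = true :=
  ⟨(b (l 1) (b (l 1) (b (b (a (l 1) (a (l 1) (c (c (b (a (l 1) (a (l 1) (b (l 1) (l 15315416)))) (a (b (l 1) (c (l 15127128) (l 15101864))) (b (c (l 15249592) (l 15227840)) (l 15203848)))) (b (l 15285920) (l 15161896))) (b (l 15245152) (l 15120856))))) (a (b (l 1) (c (c (b (a (l 1) (a (l 14788936) (l 14815616))) (a (l 14715672) (l 14773952))) (l 14738656)) (l 77338514823))) (a (c (b (c (c (a (b (l 1) (l 14914992)) (b (l 15016352) (l 14972544))) (l 14955256)) (l 14930488)) (a (l 14848104) (l 14930448))) (b (l 14882856) (l 14818488))) (c (b (a (l 15053544) (l 15168712)) (l 15089520)) (l 14864464))))) (a (c (b (b (a (l 14748304) (l 14814304)) (l 14968144)) (a (l 15205584)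 (l 15269336))) (b (b (l 14715536) (l 14904600)) (l 15187520))) (c (b (a (l 14847680) (b (l 15141864) (l 15318544))) (a (l 15379128) (l 15506576))) (b (a (l 14975288) (l 15175888)) (a (l 15330040) (l 15461968)))))))), by decide +kernel⟩

def k1_pm_202_a : ∃ t, chk3 f_pm_202_a t 3 4 1 = true :=
  ⟨(b (l 1) (a (l 1) (b (l 1) (b (l 1) (b (l 1) (b (l 1) (a (l 1) (a (l 1) (a (l 1) (c (c (c (a (l 1) (l 16208304)) (l 16283896)) (l 16282808)) (l 16272952))))))))))), by decide +kernel⟩

def k2_pm_202_a : ∃ t, chk3 f_pm_202_a t 3 20 1 = true :=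
  ⟨(a (l 1) (a (a (l 1) (b (l 1) (c (c (b (a (l 1) (a (l 1) (b (l 1) (l 16135232)))) (a (b (l 1) (l 16369128)) (l 16122688))) (a (l 16166520) (l 16142248))) (b (l 16182176) (l 16170344))))) (a (a (b (l 1) (b (b (a (l 1) (c (b (b (l 1) (l 15966680)) (l 15997096)) (l 15827664))) (c (c (l 16060312) (l 16073496)) (l 16057888))) (c (l 16161032) (l 16143032)))) (b (b (l 1) (c (c (c (b (a (l 1) (l 16014872)) (a (b (l 1) (l 15872736)) (b (l 15958312) (l 15906008)))) (b (l 16019000) (l 15926952))) (l 15900704)) (c (l 15930200) (l 15854608)))) (b (c (c (a (b (l 15825560) (l 15973160)) (l 15917032)) (a (l 15940128) (l 15903464))) (a (c (l 15927120) (l 15829992)) (l 15882720))) (c (b (c (b (l 15956592) (l 15998072)) (b (l 15964984) (l 15985816))) (c (l 16031400) (l 16019672))) (b (b (a (l 15975592) (l 15919088)) (l 15925560)) (c (l 16007784) (l 15995704))))))) (b (c (c (b (a (a (l 1) (b (l 1) (b (l 1) (l 16092104)))) (c (b (a (c (l 16191112) (l 16202160)) (l 16143712)) (l 16077392))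 (l 16129408))) (a (b (a (b (l 16007552) (l 15998512)) (l 16002120)) (l 15889168)) (l 15838896))) (b (a (l 16152696) (l 16122296)) (a (l 15913504) (l 15866456)))) (b (a (l 45129078647) (c (l 16112664) (l 16060912))) (a (b (l 15981664) (l 15853568)) (c (l 15851872) (l 15837040))))) (c (b (c (c (l 15823552) (l 15815792)) (l 15804056)) (c (b (b (l 15839512) (l 15850808)) (l 15870000)) (b (l 15766912) (l 15855048)))) (b (c (l 15788192) (l 15751104)) (b (c (l 15751376) (l 15672680)) (l 15748296)))))))), by decide +kernel⟩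

def k3_pm_202_a : ∃ t, chk3 f_pm_202_a t 3 21 1 = true :=
  ⟨(b (a (b (l 1) (a (l 1) (c (a (l 1) (c (c (a (b (l 1) (l 16023720)) (l 96668541847)) (l 16059656)) (l 16068688))) (l 15904016)))) (a (a (c (b (c (a (b (l 1) (l 16142888)) (b (l 829498164215) (l 16373848))) (a (l 16295800) (l 16399072))) (a (l 16164968) (l 16322272))) (a (l 16085224) (b (l 16330096) (l 16310712)))) (c (a (b (l 16530992) (l 16489608)) (l 16447000)) (a (l 16338264) (l 16419712)))) (c (a (a (l 16308176) (a (l 16180288) (c (b (l 16055640) (l 16144616)) (l 16050712)))) (c (b (a (l 15967384) (l 15855072)) (a (l 15910168) (l 15942320))) (b (l 15897080) (a (l 16023880) (l 15928368))))) (a (a (l 16295144) (a (l 16162032) (b (l 15964128) (l 16119992)))) (b (c (l 15882488) (l 15846720)) (a (a (l 16013152) (l 15975640)) (l 15823160))))))) (a (a (a (l 1) (c (c (b (l 1) (c (a (b (l 1) (l 15560280)) (l 92372672087)) (l 15607608))) (l 15584040)) (l 15639544))) (c (b (c (a (a (b (l 1) (l 15776456)) (b (l 15873344)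 (l 15828768))) (l 15837136)) (l 55329003783)) (a (l 15548272) (l 15923480))) (a (l 15587248) (l 15852608)))) (a (c (a (l 16171224) (l 16319152)) (a (l 16153056) (l 16291760))) (a (c (b (l 16224536) (l 16335728)) (c (l 16206960) (l 16181608))) (c (b (a (c (l 16075328) (l 16149280)) (l 16072032)) (a (l 16152464) (l 16219232))) (a (b (a (l 16096304) (l 16104888)) (l 16180456)) (c (l 16130048) (l 16119680)))))))), by decide +kernel⟩

def k4_pm_202_a : ∃ t, chk3 f_pm_202_a t 3 11 1 = true :=
  ⟨(a (b (c (a (b (b (a (a (b (l 1) (l 15333432)) (b (l 87003628551) (l 15392672))) (l 15520136)) (l 15409544)) (l 15366240)) (b (l 15767056) (a (l 15591152) (l 15721680)))) (a (b (b (l 15334648) (l 15363200)) (l 15317336)) (b (l 15733352) (l 15441440)))) (b (c (a (b (a (l 15327296) (l 15450248)) (l 15506504)) (l 15613432)) (a (b (l 15336744) (l 15461888)) (l 15572568))) (l 15673432))) (b (b (a (c (a (l 15825752) (l 16127168)) (a (l 15885968) (l 16133368))) (a (l 16305920) (a (b (c (l 16339728)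 (l 16353232)) (l 16608192)) (c (c (l 16217096) (l 16275696)) (c (l 16250352) (l 16203984)))))) (a (a (c (l 15838904) (l 15806456)) (l 15998232)) (a (l 16161104) (a (l 16327968) (c (b (l 16546280) (l 16378520)) (b (l 16479792) (l 16368920))))))) (a (a (b (l 15679736) (l 15863184)) (b (l 15889760) (l 16042432))) (a (b (l 15927056) (l 16266424)) (c (l 16206632) (b (l 16251080) (l 16476448))))))), by decide +kernel⟩

def k5_pm_202_a : ∃ t, chk3 f_pm_202_a t 1 3 1 = true :=
  ⟨(a (b (b (b (a (c (a (l 15581872) (l 15609824)) (l 15511416)) (a (l 15643144) (l 15719472))) (a (l 15707720) (c (l 15911528) (l 15989672)))) (b (a (l 16244864) (l 16131216)) (a (b (l 16532072) (l 16706480)) (b (l 16570680) (l 16755792))))) (a (b (a (l 16777208) (l 16777040)) (l 16777120)) (b (l 16776040) (l 16776040)))) (b (a (b (b (a (l 15785264) (l 15833312)) (a (l 16161624) (l 16275832))) (b (a (l 16333440) (b (l 16553792) (l 16749416))) (a (l 16765536) (l 16771280)))) (b (a (b (a (l 15989640) (l 16244128))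 (a (l 16354464) (b (l 16587160) (l 16618336)))) (b (a (l 16357920) (l 16285632)) (a (b (l 16543976) (l 16500664)) (b (l 16327000) (l 16298680))))) (a (b (a (b (l 16648456) (l 16766040)) (l 16627256)) (l 16686552)) (c (l 16336824) (l 16365472))))) (a (l 16772600) (a (b (l 16665576) (l 16707520)) (a (l 16489856) (l 16298680)))))), by decide +kernel⟩

theorem s6_pm_202_a : ∃ t, chk3 f_pm_202_a t 3 10 1 = true := ex3_b k2_pm_202_a k3_pm_202_a

theorem s7_pm_202_a : ∃ t, chk3 f_pm_202_a t 3 5 1 = true := ex3_b s6_pm_202_a k4_pm_202_a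

theorem s8_pm_202_a : ∃ t, chk3 f_pm_202_a t 3 2 1 = true := ex3_b k1_pm_202_a s7_pm_202_a

theorem s9_pm_202_a : ∃ t, chk3 f_pm_202_a t 1 2 1 = true := ex3_a k0_pm_202_a s8_pm_202_a

theorem s10_pm_202_a : ∃ t, chk3 f_pm_202_a t 1 1 1 = true := ex3_b s9_pm_202_a k5_pm_202_a

theorem c_pm_202_a : CertNX 0 420477299 67108864 469762048 1046898278 26843546 3 true true false .pp 2 0 2
    ndN1q2a ndN1q0 pcN2 Cut.none Ext.none :=
  certNX1 (fam := true) (s1 := true) (s2 := false) (a := 2) (b := 0) (c := 2) (cn := .pp) (n1 := ndN1q2a) (n2 := ndN1q0) (pc := pcN2) (cut := Cut.none) (xt := Ext.none) (P1 := 0) (W1 := 420477299) (P2 := 67108864) (W2 := 469762048) (P3 := 1046898278) (W3 := 26843546) (N0 := 3)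
    rfl (fun _ => rfl) s10_pm_202_a

noncomputable def f_pm_202_b : ℕ → ℕ → ℕ → ℕ → Bool := onCell 1073741824 536870912 67108864 469762048 1046898278 26843546
    (rowNX 3 2 true true false .pp 2 0 2 (qsf 1239849684 370763052 67108864 469762048 2) ndN1q2b ndN1q0 pcN2 Cut.none Ext.none)

def k0_pm_202_b : ∃ t, chk3 f_pm_202_b t 1 1 1 = true :=
  ⟨(a (a (l 1) (b (a (l 1) (b (b (a (b (b (c (a (l 1) (l 240010775287)) (l 241621676551)) (l 1)) (l 1)) (a (b (b (c (b (l 14685888) (l 14848864)) (l 14689176)) (c (l 301214342471) (l 15030880))) (l 1)) (b (c (b (l 14762712) (l 15089216)) (l 14846728)) (c (l 316247439895) (l 15442760))))) (l 1)) (l 1))) (l 1))) (b (a (b (b (b (c (a (b (l 14762712) (l 15089272)) (b (l 14762712) (l 15089272))) (a (b (l 14687984) (l 15029984)) (l 14846768))) (c (a (b (l 293162001575) (l 15576768)) (l 15488520)) (a (l 326447897591) (l 15443280)))) (a (b (l 416106674007) (a (l 1) (l 16025384))) (a (b (l 15744944) (l 16025800)) (l 15887280)))) (a (l 1) (b (b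 (l 409128028151) (a (l 1) (l 16686616))) (l 1)))) (b (b (b (a (c (l 14920576) (l 14846768)) (l 14888424)) (c (l 15488520) (l 15443280))) (a (l 15761456) (l 15887280))) (b (a (b (l 16369808) (l 16686856)) (l 16530888)) (a (l 394096754711) (l 16777216))))) (a (l 1) (b (a (b (a (l 1) (l 349536411671)) (l 1)) (b (l 383359380695) (a (l 1) (l 351683830103)))) (l 1))))), by decide +kernel⟩

theorem c_pm_202_b : CertNX 1239849684 370763052 67108864 469762048 1046898278 26843546 3 true true false .pp 2 0 2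
    ndN1q2b ndN1q0 pcN2 Cut.none Ext.none :=
  certNX2 (fam := true) (s1 := true) (s2 := false) (a := 2) (b := 0) (c := 2) (cn := .pp) (n1 := ndN1q2b) (n2 := ndN1q0) (pc := pcN2) (cut := Cut.none) (xt := Ext.none) (P1 := 1239849684) (W1 := 370763052) (P2 := 67108864) (W2 := 469762048) (P3 := 1046898278) (W3 := 26843546) (N0 := 3)
    rfl (fun _ => rfl) k0_pm_202_b

noncomputable def f_pm_203_a : ℕ → ℕ → ℕ → ℕ → Bool := onCell 0 420477299 1610612736 536870912 1046898278 26843546
    (rowNX 3 1 true true false .up 2 0 3 (qsf 0 420477299 67108864 469762048 3) ndN1q2a ndN1q0 pcN3 Cut.none Ext.none)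

def k0_pm_203_a : ∃ t, chk3 f_pm_203_a t 1 1 1 = true :=
  ⟨(b (b (a (b (a (l 16777120) (l 16776040)) (c (l 16776592) (l 16776568))) (a (b (l 16772600) (l 16772600)) (a (b (l 16707520) (l 16707520)) (a (l 16489856) (l 16298680))))) (b (a (c (l 16776592) (l 16776568)) (a (l 170825598199) (l 2))) (l 2))) (l 2)), by decide +kernel⟩

theorem c_pm_203_a : CertNX 0 420477299 67108864 469762048 1046898278 26843546 3 true true false .up 2 0 3
    ndN1q2a ndN1q0 pcN3 Cut.none Ext.none :=
  certNX1 (fam := true) (s1 := true) (s2 := false) (a := 2) (b := 0) (c := 3) (cn := .up) (n1 := ndN1q2a) (n2 := ndN1q0) (pc := pcN3) (cut := Cut.none) (xt := Ext.none) (P1 := 0) (W1 := 420477299) (P2 := 67108864) (W2 := 469762048) (P3 := 1046898278) (W3 := 26843546) (N0 := 3)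
    rfl (fun _ => rfl) k0_pm_203_a

noncomputable def f_pm_203_b : ℕ → ℕ → ℕ → ℕ → Bool := onCell 1610612736 536870912 67108864 469762048 1046898278 26843546
    (rowNX 3 2 true true false .up 2 0 3 (qsf 1239849684 370763052 67108864 469762048 3) ndN1q2b ndN1q0 pcN3 Cut.none Ext.none)

def k0_pm_203_b : ∃ t, chk3 f_pm_203_b t 1 1 1 = true :=
  ⟨(a (a (a (b (b (b (b (l 14888424) (l 15465952)) (l 15887280)) (b (l 16530888) (l 16777216))) (b (l 384969993959) (b (a (l 1) (l 359736957575)) (l 1)))) (b (b (b (b (l 14699680) (l 15277208)) (l 15887280)) (b (l 16530888) (l 16777216))) (a (b (l 16777216) (b (l 16776888) (l 1))) (b (l 16777216) (l 391949269703))))) (a (b (b (b (l 2) (l 15740480)) (b (a (l 16530888) (l 16530888)) (l 16777216))) (c (b (l 16777216) (l 389264962839)) (b (l 16777216) (l 16777120)))) (b (l 4) (a (c (l 16777216) (l 16777216)) (l 4))))) (l 4)), by decide +kernel⟩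

theorem c_pm_203_b : CertNX 1239849684 370763052 67108864 469762048 1046898278 26843546 3 true true false .up 2 0 3
    ndN1q2b ndN1q0 pcN3 Cut.none Ext.none :=
  certNX2 (fam := true) (s1 := true) (s2 := false) (a := 2) (b := 0) (c := 3) (cn := .up) (n1 := ndN1q2b) (n2 := ndN1q0) (pc := pcN3) (cut := Cut.none) (xt := Ext.none) (P1 := 1239849684) (W1 := 370763052) (P2 := 67108864) (W2 := 469762048) (P3 := 1046898278) (W3 := 26843546) (N0 := 3)
    rfl (fun _ => rfl) k0_pm_203_b

noncomputable def f_pm_213_a : ℕ → ℕ → ℕ → ℕ → Bool := onCell 0 420477299 1610612736 536870912 1046898278 26843546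
    (rowNX 3 1 true true false .pnn 2 1 3 (qsf 0 420477299 536870912 536870912 3) ndN1q2a ndN1q1 pcN3 Cut.none Ext.none)

def k0_pm_213_a : ∃ t, chk3 f_pm_213_a t 1 1 1 = true :=
  ⟨(a (b (b (l 1) (b (c (l 16776592) (l 16776568)) (b (c (l 16776592) (l 16776568)) (c (l 16776592) (l 16776568))))) (b (c (b (b (l 16776592) (a (l 168275475799) (l 16776064))) (b (a (l 4) (l 16776064)) (l 203172084567))) (b (b (l 16776568) (a (l 16777112) (l 16776024))) (b (l 193508402199) (l 203172078615)))) (l 4))) (b (b (a (l 16772600) (a (l 84858890039) (l 16246272))) (a (b (c (l 16772680) (l 16772528)) (c (l 16772680) (l 16772528))) (a (b (l 16707520) (l 16707520)) (b (l 16393072) (l 16393072))))) (b (a (b (c (l 16772688) (l 16772528)) (b (l 16772624) (c (l 16772696) (l 16772536)))) (b (a (c (l 16708736) (l 16706328)) (l 16372112)) (a (b (l 16707568) (l 16707352)) (b (l 16393128) (l 16389360))))) (b (a (a (l 4) (b (b (l 16770000) (l 123178184487)) (l 4))) (b (a (b (l 16707136) (l 16688312))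 (c (l 16397992) (l 16377504))) (a (c (b (l 16718200) (l 16641488)) (b (l 16712616) (l 16638120))) (b (l 16402616) (c (l 16393656) (l 16362936)))))) (b (a (l 4) (a (l 4) (a (l 4) (b (b (l 16353736) (l 16387816)) (l 4))))) (l 4)))))), by decide +kernel⟩

theorem c_pm_213_a : CertNX 0 420477299 536870912 536870912 1046898278 26843546 3 true true false .pnn 2 1 3
    ndN1q2a ndN1q1 pcN3 Cut.none Ext.none :=
  certNX1 (fam := true) (s1 := true) (s2 := false) (a := 2) (b := 1) (c := 3) (cn := .pnn) (n1 := ndN1q2a) (n2 := ndN1q1) (pc := pcN3) (cut := Cut.none) (xt := Ext.none) (P1 := 0) (W1 := 420477299) (P2 := 536870912) (W2 := 536870912) (P3 := 1046898278) (W3 := 26843546) (N0 := 3)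
    rfl (fun _ => rfl) k0_pm_213_a

noncomputable def f_pm_213_b : ℕ → ℕ → ℕ → ℕ → Bool := onCell 1239849684 370763052 1610612736 536870912 1046898278 26843546
    (rowNX 3 1 true true false .pnn 2 1 3 (qsf 1239849684 370763052 536870912 536870912 3) ndN1q2b ndN1q1 pcN3 Cut.none Ext.none)

def k0_pm_213_b : ∃ t, chk3 f_pm_213_b t 1 1 1 = true :=
  ⟨(b (a (b (l 1) (b (c (l 16777216) (l 16777216)) (c (b (l 16777216) (l 16777216)) (b (l 16777216) (l 16777216))))) (l 1)) (b (l 4) (l 4))), by decide +kernel⟩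

theorem c_pm_213_b : CertNX 1239849684 370763052 536870912 536870912 1046898278 26843546 3 true true false .pnn 2 1 3
    ndN1q2b ndN1q1 pcN3 Cut.none Ext.none :=
  certNX1 (fam := true) (s1 := true) (s2 := false) (a := 2) (b := 1) (c := 3) (cn := .pnn) (n1 := ndN1q2b) (n2 := ndN1q1) (pc := pcN3) (cut := Cut.none) (xt := Ext.none) (P1 := 1239849684) (W1 := 370763052) (P2 := 536870912) (W2 := 536870912) (P3 := 1046898278) (W3 := 26843546) (N0 := 3)
    rfl (fun _ => rfl) k0_pm_213_b

noncomputable def f_pm_303 : ℕ → ℕ → ℕ → ℕ → Bool := onCell 1610612736 536870912 67108864 469762048 1046898278 26843546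
    (rowNX 3 2 true true false .npn 3 0 3 (qsf 1610612736 469762048 67108864 469762048 3) ndN1q3 ndN1q0 pcN3 Cut.none Ext.none)

def k0_pm_303 : ∃ t, chk3 f_pm_303 t 1 1 1 = true :=
  ⟨(a (b (a (b (b (c (b (l 217998928103) (l 15488520)) (a (l 15039888) (l 15039888))) (a (l 1) (l 15887280))) (l 1)) (a (b (b (c (b (l 14920576) (l 15488520)) (l 14851144)) (l 15740480)) (c (l 16513472) (l 131566329271))) (l 4))) (l 1)) (l 4)), by decide +kernel⟩

theorem c_pm_303 : CertNX 1610612736 469762048 67108864 469762048 1046898278 26843546 3 true true false .npn 3 0 3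
    ndN1q3 ndN1q0 pcN3 Cut.none Ext.none :=
  certNX2 (fam := true) (s1 := true) (s2 := false) (a := 3) (b := 0) (c := 3) (cn := .npn) (n1 := ndN1q3) (n2 := ndN1q0) (pc := pcN3) (cut := Cut.none) (xt := Ext.none) (P1 := 1610612736) (W1 := 469762048) (P2 := 67108864) (W2 := 469762048) (P3 := 1046898278) (W3 := 26843546) (N0 := 3)
    rfl (fun _ => rfl) k0_pm_303

noncomputable def f_pm_313 : ℕ → ℕ → ℕ → ℕ → Bool := onCell 1610612736 469762048 536870912 536870912 1046898278 26843546
    (rowNX 3 0 true true false .dn 3 1 3 (qsf 1610612736 469762048 536870912 536870912 3) ndN1q3 ndN1q1 pcN3 Cut.none Ext.none)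

def k0_pm_313 : ∃ t, chk3 f_pm_313 t 1 1 1 = true :=
  ⟨(l 4), by decide +kernel⟩

theorem c_pm_313 : CertNX 1610612736 469762048 536870912 536870912 1046898278 26843546 3 true true false .dn 3 1 3
    ndN1q3 ndN1q1 pcN3 Cut.none Ext.none :=
  certNX0 (fam := true) (s1 := true) (s2 := false) (a := 3) (b := 1) (c := 3) (cn := .dn) (n1 := ndN1q3) (n2 := ndN1q1) (pc := pcN3) (cut := Cut.none) (xt := Ext.none) (P1 := 1610612736) (W1 := 469762048) (P2 := 536870912) (W2 := 536870912) (P3 := 1046898278) (W3 := 26843546) (N0 := 3)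
    rfl k0_pm_313

noncomputable def f_mm_001 : ℕ → ℕ → ℕ → ℕ → Bool := onCell 67108864 469762048 67108864 469762048 1046898278 26843546
    (rowNX 3 0 true false false .up 0 0 1 (qsf 67108864 469762048 67108864 469762048 1) ndN1q0 ndN1q0 pcN1 Cut.none Ext.none)

def k0_mm_001 : ∃ t, chk3 f_mm_001 t 1 1 1 = true :=
  ⟨(l 4), by decide +kernel⟩

theorem c_mm_001 : CertNX 67108864 469762048 67108864 469762048 1046898278 26843546 3 true false false .up 0 0 1
    ndN1q0 ndN1q0 pcN1 Cut.none Ext.none :=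
  certNX0 (fam := true) (s1 := false) (s2 := false) (a := 0) (b := 0) (c := 1) (cn := .up) (n1 := ndN1q0) (n2 := ndN1q0) (pc := pcN1) (cut := Cut.none) (xt := Ext.none) (P1 := 67108864) (W1 := 469762048) (P2 := 67108864) (W2 := 469762048) (P3 := 1046898278) (W3 := 26843546) (N0 := 3)
    rfl k0_mm_001

noncomputable def f_mm_011 : ℕ → ℕ → ℕ → ℕ → Bool := onCell 67108864 469762048 536870912 536870912 1046898278 26843546
    (rowNX 3 0 true false false .pnn 0 1 1 (qsf 67108864 469762048 536870912 536870912 1) ndN1q0 ndN1q1 pcN1 Cut.none Ext.none)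

def k0_mm_011 : ∃ t, chk3 f_mm_011 t 1 1 1 = true :=
  ⟨(l 4), by decide +kernel⟩

theorem c_mm_011 : CertNX 67108864 469762048 536870912 536870912 1046898278 26843546 3 true false false .pnn 0 1 1
    ndN1q0 ndN1q1 pcN1 Cut.none Ext.none :=
  certNX0 (fam := true) (s1 := false) (s2 := false) (a := 0) (b := 1) (c := 1) (cn := .pnn) (n1 := ndN1q0) (n2 := ndN1q1) (pc := pcN1) (cut := Cut.none) (xt := Ext.none) (P1 := 67108864) (W1 := 469762048) (P2 := 536870912) (W2 := 536870912) (P3 := 1046898278) (W3 := 26843546) (N0 := 3)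
    rfl k0_mm_011

noncomputable def f_mm_012 : ℕ → ℕ → ℕ → ℕ → Bool := onCell 67108864 469762048 536870912 536870912 1046898278 26843546
    (rowNX 3 0 true false false .pnp 0 1 2 (qsf 67108864 469762048 536870912 536870912 2) ndN1q0 ndN1q1 pcN2 Cut.none Ext.none)

def k0_mm_012 : ∃ t, chk3 f_mm_012 t 1 1 1 = true :=
  ⟨(l 4), by decide +kernel⟩

theorem c_mm_012 : CertNX 67108864 469762048 536870912 536870912 1046898278 26843546 3 true false false .pnp 0 1 2
    ndN1q0 ndN1q1 pcN2 Cut.none Ext.none :=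
  certNX0 (fam := true) (s1 := false) (s2 := false) (a := 0) (b := 1) (c := 2) (cn := .pnp) (n1 := ndN1q0) (n2 := ndN1q1) (pc := pcN2) (cut := Cut.none) (xt := Ext.none) (P1 := 67108864) (W1 := 469762048) (P2 := 536870912) (W2 := 536870912) (P3 := 1046898278) (W3 := 26843546) (N0 := 3)
    rfl k0_mm_012

noncomputable def f_mm_022_a : ℕ → ℕ → ℕ → ℕ → Bool := onCell 67108864 469762048 0 420477299 1046898278 26843546
    (rowNX 3 0 true false false .pp 0 2 2 (qsf 67108864 469762048 0 420477299 2) ndN1q0 ndN1q2a pcN2 Cut.none Ext.none)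

def k0_mm_022_a : ∃ t, chk3 f_mm_022_a t 1 1 1 = true :=
  ⟨(l 5), by decide +kernel⟩

theorem c_mm_022_a : CertNX 67108864 469762048 0 420477299 1046898278 26843546 3 true false false .pp 0 2 2
    ndN1q0 ndN1q2a pcN2 Cut.none Ext.none :=
  certNX0 (fam := true) (s1 := false) (s2 := false) (a := 0) (b := 2) (c := 2) (cn := .pp) (n1 := ndN1q0) (n2 := ndN1q2a) (pc := pcN2) (cut := Cut.none) (xt := Ext.none) (P1 := 67108864) (W1 := 469762048) (P2 := 0) (W2 := 420477299) (P3 := 1046898278) (W3 := 26843546) (N0 := 3)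
    rfl k0_mm_022_a

noncomputable def f_mm_022_b : ℕ → ℕ → ℕ → ℕ → Bool := onCell 67108864 469762048 1239849684 370763052 1046898278 26843546
    (rowNX 3 0 true false false .pp 0 2 2 (qsf 67108864 469762048 1239849684 370763052 2) ndN1q0 ndN1q2b pcN2 Cut.none Ext.none)

def k0_mm_022_b : ∃ t, chk3 f_mm_022_b t 1 1 1 = true :=
  ⟨(l 5), by decide +kernel⟩

theorem c_mm_022_b : CertNX 67108864 469762048 1239849684 370763052 1046898278 26843546 3 true false false .pp 0 2 2
    ndN1q0 ndN1q2b pcN2 Cut.none Ext.none :=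
  certNX0 (fam := true) (s1 := false) (s2 := false) (a := 0) (b := 2) (c := 2) (cn := .pp) (n1 := ndN1q0) (n2 := ndN1q2b) (pc := pcN2) (cut := Cut.none) (xt := Ext.none) (P1 := 67108864) (W1 := 469762048) (P2 := 1239849684) (W2 := 370763052) (P3 := 1046898278) (W3 := 26843546) (N0 := 3)
    rfl k0_mm_022_b

noncomputable def f_mm_023_a : ℕ → ℕ → ℕ → ℕ → Bool := onCell 67108864 469762048 0 420477299 1046898278 26843546
    (rowNX 3 0 true false false .up 0 2 3 (qsf 67108864 469762048 0 420477299 3) ndN1q0 ndN1q2a pcN3 Cut.none Ext.none)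

def k0_mm_023_a : ∃ t, chk3 f_mm_023_a t 1 1 1 = true :=
  ⟨(l 5), by decide +kernel⟩

theorem c_mm_023_a : CertNX 67108864 469762048 0 420477299 1046898278 26843546 3 true false false .up 0 2 3
    ndN1q0 ndN1q2a pcN3 Cut.none Ext.none :=
  certNX0 (fam := true) (s1 := false) (s2 := false) (a := 0) (b := 2) (c := 3) (cn := .up) (n1 := ndN1q0) (n2 := ndN1q2a) (pc := pcN3) (cut := Cut.none) (xt := Ext.none) (P1 := 67108864) (W1 := 469762048) (P2 := 0) (W2 := 420477299) (P3 := 1046898278) (W3 := 26843546) (N0 := 3)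
    rfl k0_mm_023_a

noncomputable def f_mm_023_b : ℕ → ℕ → ℕ → ℕ → Bool := onCell 67108864 469762048 1239849684 370763052 1046898278 26843546
    (rowNX 3 0 true false false .up 0 2 3 (qsf 67108864 469762048 1239849684 370763052 3) ndN1q0 ndN1q2b pcN3 Cut.none Ext.none)

def k0_mm_023_b : ∃ t, chk3 f_mm_023_b t 1 1 1 = true :=
  ⟨(l 5), by decide +kernel⟩

theorem c_mm_023_b : CertNX 67108864 469762048 1239849684 370763052 1046898278 26843546 3 true false false .up 0 2 3
    ndN1q0 ndN1q2b pcN3 Cut.none Ext.none :=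
  certNX0 (fam := true) (s1 := false) (s2 := false) (a := 0) (b := 2) (c := 3) (cn := .up) (n1 := ndN1q0) (n2 := ndN1q2b) (pc := pcN3) (cut := Cut.none) (xt := Ext.none) (P1 := 67108864) (W1 := 469762048) (P2 := 1239849684) (W2 := 370763052) (P3 := 1046898278) (W3 := 26843546) (N0 := 3)
    rfl k0_mm_023_b

noncomputable def f_mm_033 : ℕ → ℕ → ℕ → ℕ → Bool := onCell 67108864 469762048 1610612736 469762048 1046898278 26843546
    (rowNX 3 0 true false false .pnn 0 3 3 (qsf 67108864 469762048 1610612736 469762048 3) ndN1q0 ndN1q3 pcN3 Cut.none Ext.none)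

def k0_mm_033 : ∃ t, chk3 f_mm_033 t 1 1 1 = true :=
  ⟨(l 5), by decide +kernel⟩

theorem c_mm_033 : CertNX 67108864 469762048 1610612736 469762048 1046898278 26843546 3 true false false .pnn 0 3 3
    ndN1q0 ndN1q3 pcN3 Cut.none Ext.none :=
  certNX0 (fam := true) (s1 := false) (s2 := false) (a := 0) (b := 3) (c := 3) (cn := .pnn) (n1 := ndN1q0) (n2 := ndN1q3) (pc := pcN3) (cut := Cut.none) (xt := Ext.none) (P1 := 67108864) (W1 := 469762048) (P2 := 1610612736) (W2 := 469762048) (P3 := 1046898278) (W3 := 26843546) (N0 := 3)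
    rfl k0_mm_033

noncomputable def f_mm_101 : ℕ → ℕ → ℕ → ℕ → Bool := onCell 536870912 536870912 67108864 469762048 1046898278 26843546
    (rowNX 3 0 true false false .npn 1 0 1 (qsf 536870912 536870912 67108864 469762048 1) ndN1q1 ndN1q0 pcN1 Cut.none Ext.none)

def k0_mm_101 : ∃ t, chk3 f_mm_101 t 1 1 1 = true :=
  ⟨(l 4), by decide +kernel⟩

theorem c_mm_101 : CertNX 536870912 536870912 67108864 469762048 1046898278 26843546 3 true false false .npn 1 0 1
    ndN1q1 ndN1q0 pcN1 Cut.none Ext.none :=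
  certNX0 (fam := true) (s1 := false) (s2 := false) (a := 1) (b := 0) (c := 1) (cn := .npn) (n1 := ndN1q1) (n2 := ndN1q0) (pc := pcN1) (cut := Cut.none) (xt := Ext.none) (P1 := 536870912) (W1 := 536870912) (P2 := 67108864) (W2 := 469762048) (P3 := 1046898278) (W3 := 26843546) (N0 := 3)
    rfl k0_mm_101

noncomputable def f_mm_102 : ℕ → ℕ → ℕ → ℕ → Bool := onCell 536870912 536870912 67108864 469762048 1046898278 26843546
    (rowNX 3 0 true false false .npp 1 0 2 (qsf 536870912 536870912 67108864 469762048 2) ndN1q1 ndN1q0 pcN2 Cut.none Ext.none)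

def k0_mm_102 : ∃ t, chk3 f_mm_102 t 1 1 1 = true :=
  ⟨(l 4), by decide +kernel⟩

theorem c_mm_102 : CertNX 536870912 536870912 67108864 469762048 1046898278 26843546 3 true false false .npp 1 0 2
    ndN1q1 ndN1q0 pcN2 Cut.none Ext.none :=
  certNX0 (fam := true) (s1 := false) (s2 := false) (a := 1) (b := 0) (c := 2) (cn := .npp) (n1 := ndN1q1) (n2 := ndN1q0) (pc := pcN2) (cut := Cut.none) (xt := Ext.none) (P1 := 536870912) (W1 := 536870912) (P2 := 67108864) (W2 := 469762048) (P3 := 1046898278) (W3 := 26843546) (N0 := 3)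
    rfl k0_mm_102

noncomputable def f_mm_112 : ℕ → ℕ → ℕ → ℕ → Bool := onCell 536870912 536870912 536870912 536870912 1046898278 26843546
    (rowNX 3 0 true false false .dn 1 1 2 (qsf 536870912 536870912 536870912 536870912 2) ndN1q1 ndN1q1 pcN2 Cut.none Ext.none)

def k0_mm_112 : ∃ t, chk3 f_mm_112 t 1 1 1 = true :=
  ⟨(l 4), by decide +kernel⟩

theorem c_mm_112 : CertNX 536870912 536870912 536870912 536870912 1046898278 26843546 3 true false false .dn 1 1 2
    ndN1q1 ndN1q1 pcN2 Cut.none Ext.none :=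
  certNX0 (fam := true) (s1 := false) (s2 := false) (a := 1) (b := 1) (c := 2) (cn := .dn) (n1 := ndN1q1) (n2 := ndN1q1) (pc := pcN2) (cut := Cut.none) (xt := Ext.none) (P1 := 536870912) (W1 := 536870912) (P2 := 536870912) (W2 := 536870912) (P3 := 1046898278) (W3 := 26843546) (N0 := 3)
    rfl k0_mm_112

noncomputable def f_mm_113 : ℕ → ℕ → ℕ → ℕ → Bool := onCell 536870912 536870912 536870912 536870912 1046898278 26843546
    (rowNX 3 0 true false false .nn 1 1 3 (qsf 536870912 536870912 536870912 536870912 3) ndN1q1 ndN1q1 pcN3 Cut.none Ext.none)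

def k0_mm_113 : ∃ t, chk3 f_mm_113 t 1 1 1 = true :=
  ⟨(l 4), by decide +kernel⟩

theorem c_mm_113 : CertNX 536870912 536870912 536870912 536870912 1046898278 26843546 3 true false false .nn 1 1 3
    ndN1q1 ndN1q1 pcN3 Cut.none Ext.none :=
  certNX0 (fam := true) (s1 := false) (s2 := false) (a := 1) (b := 1) (c := 3) (cn := .nn) (n1 := ndN1q1) (n2 := ndN1q1) (pc := pcN3) (cut := Cut.none) (xt := Ext.none) (P1 := 536870912) (W1 := 536870912) (P2 := 536870912) (W2 := 536870912) (P3 := 1046898278) (W3 := 26843546) (N0 := 3)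
    rfl k0_mm_113

noncomputable def f_mm_123_a : ℕ → ℕ → ℕ → ℕ → Bool := onCell 536870912 536870912 0 420477299 1046898278 26843546
    (rowNX 3 0 true false false .npn 1 2 3 (qsf 536870912 536870912 0 420477299 3) ndN1q1 ndN1q2a pcN3 Cut.none Ext.none)

def k0_mm_123_a : ∃ t, chk3 f_mm_123_a t 1 1 1 = true :=
  ⟨(l 4), by decide +kernel⟩

theorem c_mm_123_a : CertNX 536870912 536870912 0 420477299 1046898278 26843546 3 true false false .npn 1 2 3
    ndN1q1 ndN1q2a pcN3 Cut.none Ext.none :=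
  certNX0 (fam := true) (s1 := false) (s2 := false) (a := 1) (b := 2) (c := 3) (cn := .npn) (n1 := ndN1q1) (n2 := ndN1q2a) (pc := pcN3) (cut := Cut.none) (xt := Ext.none) (P1 := 536870912) (W1 := 536870912) (P2 := 0) (W2 := 420477299) (P3 := 1046898278) (W3 := 26843546) (N0 := 3)
    rfl k0_mm_123_a

noncomputable def f_mm_123_b : ℕ → ℕ → ℕ → ℕ → Bool := onCell 536870912 536870912 1239849684 370763052 1046898278 26843546
    (rowNX 3 0 true false false .npn 1 2 3 (qsf 536870912 536870912 1239849684 370763052 3) ndN1q1 ndN1q2b pcN3 Cut.none Ext.none)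

def k0_mm_123_b : ∃ t, chk3 f_mm_123_b t 1 1 1 = true :=
  ⟨(l 5), by decide +kernel⟩

theorem c_mm_123_b : CertNX 536870912 536870912 1239849684 370763052 1046898278 26843546 3 true false false .npn 1 2 3
    ndN1q1 ndN1q2b pcN3 Cut.none Ext.none :=
  certNX0 (fam := true) (s1 := false) (s2 := false) (a := 1) (b := 2) (c := 3) (cn := .npn) (n1 := ndN1q1) (n2 := ndN1q2b) (pc := pcN3) (cut := Cut.none) (xt := Ext.none) (P1 := 536870912) (W1 := 536870912) (P2 := 1239849684) (W2 := 370763052) (P3 := 1046898278) (W3 := 26843546) (N0 := 3)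
    rfl k0_mm_123_b

noncomputable def f_mm_133 : ℕ → ℕ → ℕ → ℕ → Bool := onCell 536870912 536870912 1610612736 469762048 1046898278 26843546
    (rowNX 3 0 true false false .dn 1 3 3 (qsf 536870912 536870912 1610612736 469762048 3) ndN1q1 ndN1q3 pcN3 Cut.none Ext.none)

def k0_mm_133 : ∃ t, chk3 f_mm_133 t 1 1 1 = true :=
  ⟨(l 4), by decide +kernel⟩

theorem c_mm_133 : CertNX 536870912 536870912 1610612736 469762048 1046898278 26843546 3 true false false .dn 1 3 3
    ndN1q1 ndN1q3 pcN3 Cut.none Ext.none :=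
  certNX0 (fam := true) (s1 := false) (s2 := false) (a := 1) (b := 3) (c := 3) (cn := .dn) (n1 := ndN1q1) (n2 := ndN1q3) (pc := pcN3) (cut := Cut.none) (xt := Ext.none) (P1 := 536870912) (W1 := 536870912) (P2 := 1610612736) (W2 := 469762048) (P3 := 1046898278) (W3 := 26843546) (N0 := 3)
    rfl k0_mm_133

noncomputable def f_mm_202_a : ℕ → ℕ → ℕ → ℕ → Bool := onCell 0 420477299 67108864 469762048 1046898278 26843546
    (rowNX 3 0 true false false .pp 2 0 2 (qsf 0 420477299 67108864 469762048 2) ndN1q2a ndN1q0 pcN2 Cut.none Ext.none)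

def k0_mm_202_a : ∃ t, chk3 f_mm_202_a t 2 4 1 = true :=
  ⟨(c (b (b (a (b (a (b (l 15062032) (l 15196672)) (b (l 15217064) (l 15319824))) (l 15471976)) (b (a (b (l 15417728) (a (l 15434200) (l 15533936))) (l 15660824)) (a (l 15659040) (a (b (l 15727440) (l 15837048)) (b (l 15845744) (l 15931688)))))) (a (b (l 15740256) (l 15870216)) (b (l 15746432) (l 16078696)))) (a (b (l 15973304) (l 16120368)) (b (l 16140120) (a (l 16190120) (l 16278416))))) (b (b (a (b (a (l 15003472) (b (l 15164384) (l 15270560))) (l 15427672)) (b (a (b (l 15372896) (l 15445320)) (l 15642968)) (a (l 15622032) (a (l 15689152) (b (l 15816232) (l 15904904)))))) (a (l 15626816) (b (l 15909352) (l 16056112)))) (a (b (l 15945864) (l 16097584)) (b (l 16119136) (a (l 16170008) (l 16261696)))))), by decide +kernel⟩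

def k1_mm_202_a : ∃ t, chk3 f_mm_202_a t 6 4 1 = true :=
  ⟨(b (b (a (b (c (b (l 15917208) (l 15982136)) (l 15790944)) (c (a (l 15931360) (l 16153488)) (a (l 15991968) (l 16135520)))) (b (c (b (a (l 16125640) (l 16272328)) (l 16140664)) (a (l 16133680) (l 16201888))) (c (a (l 16296624) (b (l 16407592) (l 16479888))) (a (l 16284112) (l 16436424))))) (a (b (c (b (a (l 16120792) (l 16160664)) (a (l 16237384) (b (l 16288384) (l 16356320)))) (a (b (l 16122536) (l 16221384)) (b (l 16251072) (l 16269280)))) (l 16315776)) (b (c (a (b (l 16407800) (b (l 16465552) (l 16482288))) (l 16482328)) (a (a (l 16248264) (l 16469672)) (l 16543088))) (a (a (l 16451944) (c (l 16496328) (l 16469832))) (b (a (l 16519408) (l 16590312)) (a (l 16581552) (c (l 16610416) (l 16587128)))))))) (b (a (c (l 16354152) (l 16341464)) (c (a (l 16503168) (l 16618440)) (a (l 16496320) (l 16595240)))) (a (c (b (l 16380464) (l 16435808)) (b (l 16368000) (l 16424848))) (c (a (l 16491568) (l 27614843831)) (a (l 16463792)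 (b (l 16606064) (l 4))))))), by decide +kernel⟩

def k2_mm_202_a : ∃ t, chk3 f_mm_202_a t 7 8 1 = true :=
  ⟨(a (b (b (c (a (b (a (l 16392960) (l 16457736)) (a (l 16449304) (l 16498464))) (b (l 16534816) (l 16542168))) (a (b (l 16357368) (l 16448936)) (b (l 16531376) (l 16560416)))) (c (a (a (l 16512640) (l 16588880)) (c (l 16593824) (l 16592552))) (a (l 16491864) (b (l 16606584) (l 16575168))))) (c (a (b (c (l 16458648) (l 16476784)) (a (l 16519136) (l 16514840))) (b (c (l 16454736) (l 16472368)) (l 89354786343))) (a (b (a (l 16527392) (l 16502168)) (a (l 16513792) (l 16508120))) (b (b (l 16528192) (l 16489216)) (a (l 16513120) (l 16530528)))))) (a (b (b (c (b (a (l 16602024) (b (a (l 16595536) (b (l 16595232) (l 16594800))) (l 16596712))) (l 16601912)) (b (a (l 16600336) (b (a (l 16593288) (b (l 16592744) (l 16592112))) (l 16594064))) (l 16599384))) (c (b (l 16603408) (a (l 16596248) (l 16600128))) (a (l 16597744) (l 16597040)))) (b (c (b (a (l 16558984) (l 16542448)) (b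 (l 81301761847) (l 4))) (b (a (l 16553504) (l 16579400)) (l 71101211447))) (l 4))) (b (a (b (b (c (b (l 16598752) (a (b (l 16595784) (l 16595832)) (l 16597952))) (b (l 16595896) (a (b (l 16592728) (l 16571680)) (l 16594616)))) (c (a (l 16597344) (b (c (l 16619424) (l 16596688)) (l 16598288))) (a (l 16593920) (b (c (l 16647360) (l 16593160)) (l 16594488))))) (c (c (l 16601416) (l 16599344)) (l 16596224))) (b (b (c (l 16602920) (l 16599496)) (a (c (b (a (l 16557248) (l 16600600)) (c (l 104924239719) (l 96334306423))) (b (a (l 16574472) (l 16596752)) (c (l 91502464279) (l 16532776)))) (b (c (l 16603472) (l 16599512)) (l 4)))) (l 4))) (l 4)))), by decide +kernel⟩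

def k3_mm_202_a : ∃ t, chk3 f_mm_202_a t 7 9 1 = true :=
  ⟨(a (b (a (b (b (b (a (c (l 16561408) (l 16556664)) (c (l 16538080) (l 16532032))) (a (l 16565680) (c (l 16528528) (l 16501864)))) (c (a (l 16581000) (l 16570448)) (a (l 16576808) (l 16565456)))) (c (l 16616952) (l 16613776))) (l 4)) (l 4)) (l 4)), by decide +kernel⟩

def k4_mm_202_a : ∃ t, chk3 f_mm_202_a t 1 5 1 = true :=
  ⟨(a (b (b (a (c (l 16379112) (l 16365144)) (b (a (l 16289712) (a (l 16346248) (l 16391280))) (c (l 16362944) (l 16394048)))) (c (a (l 16688464) (l 16542192)) (a (l 16685352) (l 16539096)))) (a (c (l 16777120) (l 16777112)) (c (b (l 16776064) (l 65196256455)) (c (l 16776032) (l 16776016))))) (a (b (a (b (c (b (l 16486088) (l 16398152)) (b (l 16476456) (l 16421296))) (b (c (l 16545968) (l 16561808)) (l 4))) (l 4)) (l 4)) (l 4))), by decide +kernel⟩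

def k5_mm_202_a : ∃ t, chk3 f_mm_202_a t 1 3 1 = true :=
  ⟨(a (b (b (a (c (l 16777120) (l 16777112)) (a (c (l 95261030119) (l 16776512)) (l 4))) (a (a (c (l 16777208) (l 16777208)) (l 4)) (l 4))) (l 2)) (l 4)), by decide +kernel⟩

theorem s6_mm_202_a : ∃ t, chk3 f_mm_202_a t 7 4 1 = true := ex3_b k2_mm_202_a k3_mm_202_a

theorem s7_mm_202_a : ∃ t, chk3 f_mm_202_a t 3 4 1 = true := ex3_a k1_mm_202_a s6_mm_202_a

theorem s8_mm_202_a : ∃ t, chk3 f_mm_202_a t 1 4 1 = true := ex3_a k0_mm_202_a s7_mm_202_a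

theorem s9_mm_202_a : ∃ t, chk3 f_mm_202_a t 1 2 1 = true := ex3_b s8_mm_202_a k4_mm_202_a

theorem s10_mm_202_a : ∃ t, chk3 f_mm_202_a t 1 1 1 = true := ex3_b s9_mm_202_a k5_mm_202_a

theorem c_mm_202_a : CertNX 0 420477299 67108864 469762048 1046898278 26843546 3 true false false .pp 2 0 2
    ndN1q2a ndN1q0 pcN2 Cut.none Ext.none :=
  certNX0 (fam := true) (s1 := false) (s2 := false) (a := 2) (b := 0) (c := 2) (cn := .pp) (n1 := ndN1q2a) (n2 := ndN1q0) (pc := pcN2) (cut := Cut.none) (xt := Ext.none) (P1 := 0) (W1 := 420477299) (P2 := 67108864) (W2 := 469762048) (P3 := 1046898278) (W3 := 26843546) (N0 := 3)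
    rfl s10_mm_202_a

noncomputable def f_mm_202_b : ℕ → ℕ → ℕ → ℕ → Bool := onCell 1073741824 536870912 67108864 469762048 1046898278 26843546
    (rowNX 3 2 true false false .pp 2 0 2 (qsf 1239849684 370763052 67108864 469762048 2) ndN1q2b ndN1q0 pcN2 Cut.none Ext.none)

def k0_mm_202_b : ∃ t, chk3 f_mm_202_b t 1 1 1 = true :=
  ⟨(a (a (l 1) (b (b (a (l 1) (b (a (b (b (c (a (l 1) (l 15014024)) (l 319468401015)) (l 1)) (l 1)) (b (c (b (l 194376846071) (l 15374088)) (b (l 14975848) (l 15325912))) (c (b (l 393020386775) (l 1)) (l 400536697111)))) (l 1))) (l 1)) (l 1))) (b (a (b (b (a (b (c (b (a (l 14965072) (l 14870200)) (l 15250464)) (b (l 14851896) (l 15197752))) (a (c (l 227664169111) (l 15666040)) (c (l 15601800) (l 15561136)))) (b (c (b (l 14769016) (l 15095704)) (a (l 14859392) (l 14846768))) (c (a (l 15501088) (l 15488520)) (l 15219480)))) (a (a (b (l 15887744) (l 1)) (b (l 15864336) (l 376915174023))) (a (b (l 15758168) (l 265245847975)) (b (l 15744944) (l 16025840)))))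 (a (l 1) (b (a (b (l 346314044679) (l 1)) (b (l 16369824) (c (l 16688656) (l 16685552)))) (l 1)))) (b (b (c (b (a (b (l 14762712) (l 15089272)) (l 14920576)) (a (l 15488520) (l 15488520))) (a (b (l 14846768) (l 15443280)) (b (l 14846768) (l 15443280)))) (a (c (l 15860656) (l 15871904)) (c (l 15902600) (l 15871904)))) (a (b (c (b (l 16376816) (l 16688416)) (b (l 16362768) (l 16685304))) (c (l 347925856279) (l 351683952647))) (b (c (l 16535128) (l 16526632)) (c (l 16777216) (l 16777216)))))) (a (l 1) (b (a (b (a (l 1) (l 447246891447)) (l 1)) (b (c (l 16776736) (l 16776720)) (a (l 1) (l 420940255735)))) (l 1))))), by decide +kernel⟩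

theorem c_mm_202_b : CertNX 1239849684 370763052 67108864 469762048 1046898278 26843546 3 true false false .pp 2 0 2
    ndN1q2b ndN1q0 pcN2 Cut.none Ext.none :=
  certNX2 (fam := true) (s1 := false) (s2 := false) (a := 2) (b := 0) (c := 2) (cn := .pp) (n1 := ndN1q2b) (n2 := ndN1q0) (pc := pcN2) (cut := Cut.none) (xt := Ext.none) (P1 := 1239849684) (W1 := 370763052) (P2 := 67108864) (W2 := 469762048) (P3 := 1046898278) (W3 := 26843546) (N0 := 3)
    rfl (fun _ => rfl) k0_mm_202_b

noncomputable def f_mm_203_a : ℕ → ℕ → ℕ → ℕ → Bool := onCell 0 420477299 1610612736 536870912 1046898278 26843546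
    (rowNX 3 1 true false false .up 2 0 3 (qsf 0 420477299 67108864 469762048 3) ndN1q2a ndN1q0 pcN3 Cut.none Ext.none)

def k0_mm_203_a : ∃ t, chk3 f_mm_203_a t 1 1 1 = true :=
  ⟨(b (a (b (b (a (b (c (l 16777120) (l 16777112)) (l 4)) (l 4)) (l 4)) (l 4)) (l 4)) (l 2)), by decide +kernel⟩

theorem c_mm_203_a : CertNX 0 420477299 67108864 469762048 1046898278 26843546 3 true false false .up 2 0 3
    ndN1q2a ndN1q0 pcN3 Cut.none Ext.none :=
  certNX1 (fam := true) (s1 := false) (s2 := false) (a := 2) (b := 0) (c := 3) (cn := .up) (n1 := ndN1q2a) (n2 := ndN1q0) (pc := pcN3) (cut := Cut.none) (xt := Ext.none) (P1 := 0) (W1 := 420477299) (P2 := 67108864) (W2 := 469762048) (P3 := 1046898278) (W3 := 26843546) (N0 := 3)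
    rfl (fun _ => rfl) k0_mm_203_a

noncomputable def f_mm_203_b : ℕ → ℕ → ℕ → ℕ → Bool := onCell 1610612736 536870912 67108864 469762048 1046898278 26843546
    (rowNX 3 2 true false false .up 2 0 3 (qsf 1239849684 370763052 67108864 469762048 3) ndN1q2b ndN1q0 pcN3 Cut.none Ext.none)

def k0_mm_203_b : ∃ t, chk3 f_mm_203_b t 1 1 1 = true :=
  ⟨(a (a (a (b (a (b (b (b (l 14888424) (l 15465952)) (l 15887280)) (b (l 16530888) (l 16777216))) (b (b (b (l 14888424) (l 15465952)) (l 15887280)) (l 4))) (b (c (l 339335966439) (l 349536513751)) (b (a (l 1) (c (l 427382693895) (l 431140788775))) (l 1)))) (l 4)) (l 4)) (l 4)), by decide +kernel⟩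

theorem c_mm_203_b : CertNX 1239849684 370763052 67108864 469762048 1046898278 26843546 3 true false false .up 2 0 3
    ndN1q2b ndN1q0 pcN3 Cut.none Ext.none :=
  certNX2 (fam := true) (s1 := false) (s2 := false) (a := 2) (b := 0) (c := 3) (cn := .up) (n1 := ndN1q2b) (n2 := ndN1q0) (pc := pcN3) (cut := Cut.none) (xt := Ext.none) (P1 := 1239849684) (W1 := 370763052) (P2 := 67108864) (W2 := 469762048) (P3 := 1046898278) (W3 := 26843546) (N0 := 3)
    rfl (fun _ => rfl) k0_mm_203_b

noncomputable def f_mm_213_a : ℕ → ℕ → ℕ → ℕ → Bool := onCell 0 420477299 536870912 536870912 1046898278 26843546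
    (rowNX 3 0 true false false .pnn 2 1 3 (qsf 0 420477299 536870912 536870912 3) ndN1q2a ndN1q1 pcN3 Cut.none Ext.none)

def k0_mm_213_a : ∃ t, chk3 f_mm_213_a t 1 1 1 = true :=
  ⟨(l 4), by decide +kernel⟩

theorem c_mm_213_a : CertNX 0 420477299 536870912 536870912 1046898278 26843546 3 true false false .pnn 2 1 3
    ndN1q2a ndN1q1 pcN3 Cut.none Ext.none :=
  certNX0 (fam := true) (s1 := false) (s2 := false) (a := 2) (b := 1) (c := 3) (cn := .pnn) (n1 := ndN1q2a) (n2 := ndN1q1) (pc := pcN3) (cut := Cut.none) (xt := Ext.none) (P1 := 0) (W1 := 420477299) (P2 := 536870912) (W2 := 536870912) (P3 := 1046898278) (W3 := 26843546) (N0 := 3)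
    rfl k0_mm_213_a

noncomputable def f_mm_213_b : ℕ → ℕ → ℕ → ℕ → Bool := onCell 1239849684 370763052 536870912 536870912 1046898278 26843546
    (rowNX 3 0 true false false .pnn 2 1 3 (qsf 1239849684 370763052 536870912 536870912 3) ndN1q2b ndN1q1 pcN3 Cut.none Ext.none)

def k0_mm_213_b : ∃ t, chk3 f_mm_213_b t 1 1 1 = true :=
  ⟨(b (l 4) (l 4)), by decide +kernel⟩

theorem c_mm_213_b : CertNX 1239849684 370763052 536870912 536870912 1046898278 26843546 3 true false false .pnn 2 1 3
    ndN1q2b ndN1q1 pcN3 Cut.none Ext.none :=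
  certNX0 (fam := true) (s1 := false) (s2 := false) (a := 2) (b := 1) (c := 3) (cn := .pnn) (n1 := ndN1q2b) (n2 := ndN1q1) (pc := pcN3) (cut := Cut.none) (xt := Ext.none) (P1 := 1239849684) (W1 := 370763052) (P2 := 536870912) (W2 := 536870912) (P3 := 1046898278) (W3 := 26843546) (N0 := 3)
    rfl k0_mm_213_b

noncomputable def f_mm_303 : ℕ → ℕ → ℕ → ℕ → Bool := onCell 1610612736 469762048 67108864 469762048 1046898278 26843546
    (rowNX 3 0 true false false .npn 3 0 3 (qsf 1610612736 469762048 67108864 469762048 3) ndN1q3 ndN1q0 pcN3 Cut.none Ext.none)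

def k0_mm_303 : ∃ t, chk3 f_mm_303 t 1 1 1 = true :=
  ⟨(a (b (a (l 4) (l 4)) (l 4)) (l 4)), by decide +kernel⟩

theorem c_mm_303 : CertNX 1610612736 469762048 67108864 469762048 1046898278 26843546 3 true false false .npn 3 0 3
    ndN1q3 ndN1q0 pcN3 Cut.none Ext.none :=
  certNX0 (fam := true) (s1 := false) (s2 := false) (a := 3) (b := 0) (c := 3) (cn := .npn) (n1 := ndN1q3) (n2 := ndN1q0) (pc := pcN3) (cut := Cut.none) (xt := Ext.none) (P1 := 1610612736) (W1 := 469762048) (P2 := 67108864) (W2 := 469762048) (P3 := 1046898278) (W3 := 26843546) (N0 := 3)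
    rfl k0_mm_303

noncomputable def f_mm_313 : ℕ → ℕ → ℕ → ℕ → Bool := onCell 1610612736 469762048 536870912 536870912 1046898278 26843546
    (rowNX 3 0 true false false .dn 3 1 3 (qsf 1610612736 469762048 536870912 536870912 3) ndN1q3 ndN1q1 pcN3 Cut.none Ext.none)

def k0_mm_313 : ∃ t, chk3 f_mm_313 t 1 1 1 = true :=
  ⟨(l 4), by decide +kernel⟩

theorem c_mm_313 : CertNX 1610612736 469762048 536870912 536870912 1046898278 26843546 3 true false false .dn 3 1 3
    ndN1q3 ndN1q1 pcN3 Cut.none Ext.none :=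
  certNX0 (fam := true) (s1 := false) (s2 := false) (a := 3) (b := 1) (c := 3) (cn := .dn) (n1 := ndN1q3) (n2 := ndN1q1) (pc := pcN3) (cut := Cut.none) (xt := Ext.none) (P1 := 1610612736) (W1 := 469762048) (P2 := 536870912) (W2 := 536870912) (P3 := 1046898278) (W3 := 26843546) (N0 := 3)
    rfl k0_mm_313

end Pool.Agent.Strip051.G.IE1.Tab.C.NA11

namespace Pool.Agent.Strip051.G.IE1.Tab.C.NA12

open Pool.Agent.Strip051.PB Pool.Agent.Strip051.PB.T
open Pool.Agent.Strip051.G.IE1.Tab

noncomputable def f_pp_001 : ℕ → ℕ → ℕ → ℕ → Bool := onCell 67108864 469762048 67108864 469762048 1046898278 26843546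
    (rowNX 3 0 true true true .up 0 0 1 (qsf 67108864 469762048 67108864 469762048 1) ndN1q0 ndN2q0 pcN1 Cut.none Ext.none)

def k0_pp_001 : ∃ t, chk3 f_pp_001 t 1 1 1 = true :=
  ⟨(l 4), by decide +kernel⟩

theorem c_pp_001 : CertNX 67108864 469762048 67108864 469762048 1046898278 26843546 3 true true true .up 0 0 1
    ndN1q0 ndN2q0 pcN1 Cut.none Ext.none :=
  certNX0 (fam := true) (s1 := true) (s2 := true) (a := 0) (b := 0) (c := 1) (cn := .up) (n1 := ndN1q0) (n2 := ndN2q0) (pc := pcN1) (cut := Cut.none) (xt := Ext.none) (P1 := 67108864) (W1 := 469762048) (P2 := 67108864) (W2 := 469762048) (P3 := 1046898278) (W3 := 26843546) (N0 := 3)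
    rfl k0_pp_001

noncomputable def f_pp_011 : ℕ → ℕ → ℕ → ℕ → Bool := onCell 67108864 469762048 536870912 536870912 1046898278 26843546
    (rowNX 3 0 true true true .pnn 0 1 1 (qsf 67108864 469762048 536870912 536870912 1) ndN1q0 ndN2q1 pcN1 Cut.none Ext.none)

def k0_pp_011 : ∃ t, chk3 f_pp_011 t 1 1 1 = true :=
  ⟨(l 4), by decide +kernel⟩

theorem c_pp_011 : CertNX 67108864 469762048 536870912 536870912 1046898278 26843546 3 true true true .pnn 0 1 1
    ndN1q0 ndN2q1 pcN1 Cut.none Ext.none :=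
  certNX0 (fam := true) (s1 := true) (s2 := true) (a := 0) (b := 1) (c := 1) (cn := .pnn) (n1 := ndN1q0) (n2 := ndN2q1) (pc := pcN1) (cut := Cut.none) (xt := Ext.none) (P1 := 67108864) (W1 := 469762048) (P2 := 536870912) (W2 := 536870912) (P3 := 1046898278) (W3 := 26843546) (N0 := 3)
    rfl k0_pp_011

noncomputable def f_pp_012 : ℕ → ℕ → ℕ → ℕ → Bool := onCell 67108864 469762048 536870912 536870912 1046898278 26843546
    (rowNX 3 0 true true true .pnp 0 1 2 (qsf 67108864 469762048 536870912 536870912 2) ndN1q0 ndN2q1 pcN2 Cut.none Ext.none)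

def k0_pp_012 : ∃ t, chk3 f_pp_012 t 1 1 1 = true :=
  ⟨(l 4), by decide +kernel⟩

theorem c_pp_012 : CertNX 67108864 469762048 536870912 536870912 1046898278 26843546 3 true true true .pnp 0 1 2
    ndN1q0 ndN2q1 pcN2 Cut.none Ext.none :=
  certNX0 (fam := true) (s1 := true) (s2 := true) (a := 0) (b := 1) (c := 2) (cn := .pnp) (n1 := ndN1q0) (n2 := ndN2q1) (pc := pcN2) (cut := Cut.none) (xt := Ext.none) (P1 := 67108864) (W1 := 469762048) (P2 := 536870912) (W2 := 536870912) (P3 := 1046898278) (W3 := 26843546) (N0 := 3)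
    rfl k0_pp_012

noncomputable def f_pp_022_a : ℕ → ℕ → ℕ → ℕ → Bool := onCell 67108864 469762048 0 420477299 1046898278 26843546
    (rowNX 3 0 true true true .pp 0 2 2 (qsf 67108864 469762048 0 420477299 2) ndN1q0 ndN2q2a pcN2 Cut.none Ext.none)

def k0_pp_022_a : ∃ t, chk3 f_pp_022_a t 1 1 1 = true :=
  ⟨(a (a (b (a (a (b (a (b (c (a (l 15911608) (l 16014000)) (a (l 15888000) (l 15993920))) (a (c (l 15926944) (l 15971192)) (c (l 16126472) (l 16111056)))) (c (b (l 16167184) (l 16251848)) (b (l 16152320) (l 16262424)))) (a (b (a (c (l 16152416) (l 16138440)) (c (b (l 16215336) (l 16268392)) (b (l 16203464) (l 16258488)))) (c (a (l 16256632) (l 16296672)) (a (l 16246328) (l 16331128)))) (b (c (b (l 16355776) (l 16377472)) (l 16180584)) (a (b (c (l 16335880) (l 16372392)) (l 4)) (l 4))))) (b (c (a (l 16172352) (l 16443824)) (a (l 16207960) (l 16417488))) (a (b (c (l 16468008) (l 16464056)) (l 4)) (l 4)))) (b (a (b (c (l 16383696) (l 16374832)) (l 4)) (l 4)) (l 4))) (b (a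 (l 4) (l 4)) (l 4))) (l 4)) (l 4)), by decide +kernel⟩

theorem c_pp_022_a : CertNX 67108864 469762048 0 420477299 1046898278 26843546 3 true true true .pp 0 2 2
    ndN1q0 ndN2q2a pcN2 Cut.none Ext.none :=
  certNX0 (fam := true) (s1 := true) (s2 := true) (a := 0) (b := 2) (c := 2) (cn := .pp) (n1 := ndN1q0) (n2 := ndN2q2a) (pc := pcN2) (cut := Cut.none) (xt := Ext.none) (P1 := 67108864) (W1 := 469762048) (P2 := 0) (W2 := 420477299) (P3 := 1046898278) (W3 := 26843546) (N0 := 3)
    rfl k0_pp_022_a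

noncomputable def f_pp_022_b : ℕ → ℕ → ℕ → ℕ → Bool := onCell 67108864 469762048 1239849684 370763052 1046898278 26843546
    (rowNX 3 0 true true true .pp 0 2 2 (qsf 67108864 469762048 1239849684 370763052 2) ndN1q0 ndN2q2b pcN2 Cut.none Ext.none)

def k0_pp_022_b : ∃ t, chk3 f_pp_022_b t 1 1 1 = true :=
  ⟨(a (b (a (b (a (a (b (a (c (b (a (l 15725424) (l 15832728)) (l 15501880)) (b (a (l 15694488) (l 15805440)) (l 15457856))) (c (l 15598968) (l 15676168))) (a (c (b (l 15230288) (l 14999032)) (b (l 15175184) (l 14934328))) (c (b (l 15440656) (l 15207752)) (b (l 15396120) (l 15153472))))) (b (a (c (b (l 16158912) (l 15903712)) (b (l 16164136) (l 15876520))) (b (l 16227128) (c (l 15955200) (l 15929064)))) (b (a (c (l 15627640) (l 15588872)) (b (l 15730216) (l 4))) (l 4)))) (b (a (b (c (a (l 16229576) (l 16215920)) (a (l 16214328) (l 16199440))) (a (c (l 15949552) (l 15922448)) (l 4))) (l 4)) (l 4))) (a (a (a (b (b (c (a (l 14764768) (l 14886752)) (l 14755112)) (l 4)) (l 4))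 (l 4)) (l 4)) (l 4))) (l 4)) (l 4)) (l 4)), by decide +kernel⟩

theorem c_pp_022_b : CertNX 67108864 469762048 1239849684 370763052 1046898278 26843546 3 true true true .pp 0 2 2
    ndN1q0 ndN2q2b pcN2 Cut.none Ext.none :=
  certNX0 (fam := true) (s1 := true) (s2 := true) (a := 0) (b := 2) (c := 2) (cn := .pp) (n1 := ndN1q0) (n2 := ndN2q2b) (pc := pcN2) (cut := Cut.none) (xt := Ext.none) (P1 := 67108864) (W1 := 469762048) (P2 := 1239849684) (W2 := 370763052) (P3 := 1046898278) (W3 := 26843546) (N0 := 3)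
    rfl k0_pp_022_b

noncomputable def f_pp_023_a : ℕ → ℕ → ℕ → ℕ → Bool := onCell 1610612736 536870912 0 420477299 1046898278 26843546
    (rowNX 3 2 true true true .up 0 2 3 (qsf 67108864 469762048 0 420477299 3) ndN1q0 ndN2q2a pcN3 Cut.none Ext.none)

def k0_pp_023_a : ∃ t, chk3 f_pp_023_a t 1 1 1 = true :=
  ⟨(l 4), by decide +kernel⟩

theorem c_pp_023_a : CertNX 67108864 469762048 0 420477299 1046898278 26843546 3 true true true .up 0 2 3
    ndN1q0 ndN2q2a pcN3 Cut.none Ext.none :=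
  certNX2 (fam := true) (s1 := true) (s2 := true) (a := 0) (b := 2) (c := 3) (cn := .up) (n1 := ndN1q0) (n2 := ndN2q2a) (pc := pcN3) (cut := Cut.none) (xt := Ext.none) (P1 := 67108864) (W1 := 469762048) (P2 := 0) (W2 := 420477299) (P3 := 1046898278) (W3 := 26843546) (N0 := 3)
    rfl (fun _ => rfl) k0_pp_023_a

noncomputable def f_pp_023_b : ℕ → ℕ → ℕ → ℕ → Bool := onCell 1610612736 536870912 1239849684 370763052 1046898278 26843546
    (rowNX 3 2 true true true .up 0 2 3 (qsf 67108864 469762048 1239849684 370763052 3) ndN1q0 ndN2q2b pcN3 Cut.none Ext.none)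

def k0_pp_023_b : ∃ t, chk3 f_pp_023_b t 1 1 1 = true :=
  ⟨(l 4), by decide +kernel⟩

theorem c_pp_023_b : CertNX 67108864 469762048 1239849684 370763052 1046898278 26843546 3 true true true .up 0 2 3
    ndN1q0 ndN2q2b pcN3 Cut.none Ext.none :=
  certNX2 (fam := true) (s1 := true) (s2 := true) (a := 0) (b := 2) (c := 3) (cn := .up) (n1 := ndN1q0) (n2 := ndN2q2b) (pc := pcN3) (cut := Cut.none) (xt := Ext.none) (P1 := 67108864) (W1 := 469762048) (P2 := 1239849684) (W2 := 370763052) (P3 := 1046898278) (W3 := 26843546) (N0 := 3)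
    rfl (fun _ => rfl) k0_pp_023_b

noncomputable def f_pp_033 : ℕ → ℕ → ℕ → ℕ → Bool := onCell 67108864 469762048 1610612736 469762048 1046898278 26843546
    (rowNX 3 0 true true true .pnn 0 3 3 (qsf 67108864 469762048 1610612736 469762048 3) ndN1q0 ndN2q3 pcN3 Cut.none Ext.none)

def k0_pp_033 : ∃ t, chk3 f_pp_033 t 1 1 1 = true :=
  ⟨(l 4), by decide +kernel⟩

theorem c_pp_033 : CertNX 67108864 469762048 1610612736 469762048 1046898278 26843546 3 true true true .pnn 0 3 3
    ndN1q0 ndN2q3 pcN3 Cut.none Ext.none :=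
  certNX0 (fam := true) (s1 := true) (s2 := true) (a := 0) (b := 3) (c := 3) (cn := .pnn) (n1 := ndN1q0) (n2 := ndN2q3) (pc := pcN3) (cut := Cut.none) (xt := Ext.none) (P1 := 67108864) (W1 := 469762048) (P2 := 1610612736) (W2 := 469762048) (P3 := 1046898278) (W3 := 26843546) (N0 := 3)
    rfl k0_pp_033

noncomputable def f_pp_101 : ℕ → ℕ → ℕ → ℕ → Bool := onCell 536870912 536870912 67108864 469762048 1046898278 26843546
    (rowNX 3 0 true true true .npn 1 0 1 (qsf 536870912 536870912 67108864 469762048 1) ndN1q1 ndN2q0 pcN1 Cut.none Ext.none)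

def k0_pp_101 : ∃ t, chk3 f_pp_101 t 1 1 1 = true :=
  ⟨(l 4), by decide +kernel⟩

theorem c_pp_101 : CertNX 536870912 536870912 67108864 469762048 1046898278 26843546 3 true true true .npn 1 0 1
    ndN1q1 ndN2q0 pcN1 Cut.none Ext.none :=
  certNX0 (fam := true) (s1 := true) (s2 := true) (a := 1) (b := 0) (c := 1) (cn := .npn) (n1 := ndN1q1) (n2 := ndN2q0) (pc := pcN1) (cut := Cut.none) (xt := Ext.none) (P1 := 536870912) (W1 := 536870912) (P2 := 67108864) (W2 := 469762048) (P3 := 1046898278) (W3 := 26843546) (N0 := 3)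
    rfl k0_pp_101

noncomputable def f_pp_102 : ℕ → ℕ → ℕ → ℕ → Bool := onCell 536870912 536870912 67108864 469762048 1046898278 26843546
    (rowNX 3 0 true true true .npp 1 0 2 (qsf 536870912 536870912 67108864 469762048 2) ndN1q1 ndN2q0 pcN2 Cut.none Ext.none)

def k0_pp_102 : ∃ t, chk3 f_pp_102 t 1 1 1 = true :=
  ⟨(l 4), by decide +kernel⟩

theorem c_pp_102 : CertNX 536870912 536870912 67108864 469762048 1046898278 26843546 3 true true true .npp 1 0 2
    ndN1q1 ndN2q0 pcN2 Cut.none Ext.none :=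
  certNX0 (fam := true) (s1 := true) (s2 := true) (a := 1) (b := 0) (c := 2) (cn := .npp) (n1 := ndN1q1) (n2 := ndN2q0) (pc := pcN2) (cut := Cut.none) (xt := Ext.none) (P1 := 536870912) (W1 := 536870912) (P2 := 67108864) (W2 := 469762048) (P3 := 1046898278) (W3 := 26843546) (N0 := 3)
    rfl k0_pp_102

noncomputable def f_pp_112 : ℕ → ℕ → ℕ → ℕ → Bool := onCell 536870912 536870912 536870912 536870912 1046898278 26843546
    (rowNX 3 0 true true true .dn 1 1 2 (qsf 536870912 536870912 536870912 536870912 2) ndN1q1 ndN2q1 pcN2 Cut.none Ext.none)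

def k0_pp_112 : ∃ t, chk3 f_pp_112 t 1 1 1 = true :=
  ⟨(l 4), by decide +kernel⟩

theorem c_pp_112 : CertNX 536870912 536870912 536870912 536870912 1046898278 26843546 3 true true true .dn 1 1 2
    ndN1q1 ndN2q1 pcN2 Cut.none Ext.none :=
  certNX0 (fam := true) (s1 := true) (s2 := true) (a := 1) (b := 1) (c := 2) (cn := .dn) (n1 := ndN1q1) (n2 := ndN2q1) (pc := pcN2) (cut := Cut.none) (xt := Ext.none) (P1 := 536870912) (W1 := 536870912) (P2 := 536870912) (W2 := 536870912) (P3 := 1046898278) (W3 := 26843546) (N0 := 3)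
    rfl k0_pp_112

noncomputable def f_pp_113 : ℕ → ℕ → ℕ → ℕ → Bool := onCell 536870912 536870912 536870912 536870912 1046898278 26843546
    (rowNX 3 0 true true true .nn 1 1 3 (qsf 536870912 536870912 536870912 536870912 3) ndN1q1 ndN2q1 pcN3 Cut.none Ext.none)

def k0_pp_113 : ∃ t, chk3 f_pp_113 t 1 1 1 = true :=
  ⟨(l 4), by decide +kernel⟩

theorem c_pp_113 : CertNX 536870912 536870912 536870912 536870912 1046898278 26843546 3 true true true .nn 1 1 3
    ndN1q1 ndN2q1 pcN3 Cut.none Ext.none :=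
  certNX0 (fam := true) (s1 := true) (s2 := true) (a := 1) (b := 1) (c := 3) (cn := .nn) (n1 := ndN1q1) (n2 := ndN2q1) (pc := pcN3) (cut := Cut.none) (xt := Ext.none) (P1 := 536870912) (W1 := 536870912) (P2 := 536870912) (W2 := 536870912) (P3 := 1046898278) (W3 := 26843546) (N0 := 3)
    rfl k0_pp_113

noncomputable def f_pp_123_a : ℕ → ℕ → ℕ → ℕ → Bool := onCell 536870912 536870912 0 420477299 1046898278 26843546
    (rowNX 3 0 true true true .npn 1 2 3 (qsf 536870912 536870912 0 420477299 3) ndN1q1 ndN2q2a pcN3 Cut.none Ext.none)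

def k0_pp_123_a : ∃ t, chk3 f_pp_123_a t 1 1 1 = true :=
  ⟨(l 4), by decide +kernel⟩

theorem c_pp_123_a : CertNX 536870912 536870912 0 420477299 1046898278 26843546 3 true true true .npn 1 2 3
    ndN1q1 ndN2q2a pcN3 Cut.none Ext.none :=
  certNX0 (fam := true) (s1 := true) (s2 := true) (a := 1) (b := 2) (c := 3) (cn := .npn) (n1 := ndN1q1) (n2 := ndN2q2a) (pc := pcN3) (cut := Cut.none) (xt := Ext.none) (P1 := 536870912) (W1 := 536870912) (P2 := 0) (W2 := 420477299) (P3 := 1046898278) (W3 := 26843546) (N0 := 3)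
    rfl k0_pp_123_a

noncomputable def f_pp_123_b : ℕ → ℕ → ℕ → ℕ → Bool := onCell 536870912 536870912 1239849684 370763052 1046898278 26843546
    (rowNX 3 0 true true true .npn 1 2 3 (qsf 536870912 536870912 1239849684 370763052 3) ndN1q1 ndN2q2b pcN3 Cut.none Ext.none)

def k0_pp_123_b : ∃ t, chk3 f_pp_123_b t 1 1 1 = true :=
  ⟨(l 4), by decide +kernel⟩

theorem c_pp_123_b : CertNX 536870912 536870912 1239849684 370763052 1046898278 26843546 3 true true true .npn 1 2 3
    ndN1q1 ndN2q2b pcN3 Cut.none Ext.none :=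
  certNX0 (fam := true) (s1 := true) (s2 := true) (a := 1) (b := 2) (c := 3) (cn := .npn) (n1 := ndN1q1) (n2 := ndN2q2b) (pc := pcN3) (cut := Cut.none) (xt := Ext.none) (P1 := 536870912) (W1 := 536870912) (P2 := 1239849684) (W2 := 370763052) (P3 := 1046898278) (W3 := 26843546) (N0 := 3)
    rfl k0_pp_123_b

noncomputable def f_pp_133 : ℕ → ℕ → ℕ → ℕ → Bool := onCell 536870912 536870912 1610612736 469762048 1046898278 26843546
    (rowNX 3 0 true true true .dn 1 3 3 (qsf 536870912 536870912 1610612736 469762048 3) ndN1q1 ndN2q3 pcN3 Cut.none Ext.none)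

def k0_pp_133 : ∃ t, chk3 f_pp_133 t 1 1 1 = true :=
  ⟨(l 4), by decide +kernel⟩

theorem c_pp_133 : CertNX 536870912 536870912 1610612736 469762048 1046898278 26843546 3 true true true .dn 1 3 3
    ndN1q1 ndN2q3 pcN3 Cut.none Ext.none :=
  certNX0 (fam := true) (s1 := true) (s2 := true) (a := 1) (b := 3) (c := 3) (cn := .dn) (n1 := ndN1q1) (n2 := ndN2q3) (pc := pcN3) (cut := Cut.none) (xt := Ext.none) (P1 := 536870912) (W1 := 536870912) (P2 := 1610612736) (W2 := 469762048) (P3 := 1046898278) (W3 := 26843546) (N0 := 3)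
    rfl k0_pp_133

noncomputable def f_pp_202_a : ℕ → ℕ → ℕ → ℕ → Bool := onCell 0 420477299 67108864 469762048 1046898278 26843546
    (rowNX 3 0 true true true .pp 2 0 2 (qsf 0 420477299 67108864 469762048 2) ndN1q2a ndN2q0 pcN2 Cut.none Ext.none)

def k0_pp_202_a : ∃ t, chk3 f_pp_202_a t 1 1 1 = true :=
  ⟨(l 5), by decide +kernel⟩

theorem c_pp_202_a : CertNX 0 420477299 67108864 469762048 1046898278 26843546 3 true true true .pp 2 0 2
    ndN1q2a ndN2q0 pcN2 Cut.none Ext.none :=
  certNX0 (fam := true) (s1 := true) (s2 := true) (a := 2) (b := 0) (c := 2) (cn := .pp) (n1 := ndN1q2a) (n2 := ndN2q0) (pc := pcN2) (cut := Cut.none) (xt := Ext.none) (P1 := 0) (W1 := 420477299) (P2 := 67108864) (W2 := 469762048) (P3 := 1046898278) (W3 := 26843546) (N0 := 3)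
    rfl k0_pp_202_a

noncomputable def f_pp_202_b : ℕ → ℕ → ℕ → ℕ → Bool := onCell 1239849684 370763052 67108864 469762048 1046898278 26843546
    (rowNX 3 0 true true true .pp 2 0 2 (qsf 1239849684 370763052 67108864 469762048 2) ndN1q2b ndN2q0 pcN2 Cut.none Ext.none)

def k0_pp_202_b : ∃ t, chk3 f_pp_202_b t 1 1 1 = true :=
  ⟨(l 5), by decide +kernel⟩

theorem c_pp_202_b : CertNX 1239849684 370763052 67108864 469762048 1046898278 26843546 3 true true true .pp 2 0 2
    ndN1q2b ndN2q0 pcN2 Cut.none Ext.none :=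
  certNX0 (fam := true) (s1 := true) (s2 := true) (a := 2) (b := 0) (c := 2) (cn := .pp) (n1 := ndN1q2b) (n2 := ndN2q0) (pc := pcN2) (cut := Cut.none) (xt := Ext.none) (P1 := 1239849684) (W1 := 370763052) (P2 := 67108864) (W2 := 469762048) (P3 := 1046898278) (W3 := 26843546) (N0 := 3)
    rfl k0_pp_202_b

noncomputable def f_pp_203_a : ℕ → ℕ → ℕ → ℕ → Bool := onCell 0 420477299 67108864 469762048 1046898278 26843546
    (rowNX 3 0 true true true .up 2 0 3 (qsf 0 420477299 67108864 469762048 3) ndN1q2a ndN2q0 pcN3 Cut.none Ext.none)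

def k0_pp_203_a : ∃ t, chk3 f_pp_203_a t 1 1 1 = true :=
  ⟨(l 5), by decide +kernel⟩

theorem c_pp_203_a : CertNX 0 420477299 67108864 469762048 1046898278 26843546 3 true true true .up 2 0 3
    ndN1q2a ndN2q0 pcN3 Cut.none Ext.none :=
  certNX0 (fam := true) (s1 := true) (s2 := true) (a := 2) (b := 0) (c := 3) (cn := .up) (n1 := ndN1q2a) (n2 := ndN2q0) (pc := pcN3) (cut := Cut.none) (xt := Ext.none) (P1 := 0) (W1 := 420477299) (P2 := 67108864) (W2 := 469762048) (P3 := 1046898278) (W3 := 26843546) (N0 := 3)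
    rfl k0_pp_203_a

noncomputable def f_pp_203_b : ℕ → ℕ → ℕ → ℕ → Bool := onCell 1239849684 370763052 67108864 469762048 1046898278 26843546
    (rowNX 3 0 true true true .up 2 0 3 (qsf 1239849684 370763052 67108864 469762048 3) ndN1q2b ndN2q0 pcN3 Cut.none Ext.none)

def k0_pp_203_b : ∃ t, chk3 f_pp_203_b t 1 1 1 = true :=
  ⟨(l 5), by decide +kernel⟩

theorem c_pp_203_b : CertNX 1239849684 370763052 67108864 469762048 1046898278 26843546 3 true true true .up 2 0 3
    ndN1q2b ndN2q0 pcN3 Cut.none Ext.none :=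
  certNX0 (fam := true) (s1 := true) (s2 := true) (a := 2) (b := 0) (c := 3) (cn := .up) (n1 := ndN1q2b) (n2 := ndN2q0) (pc := pcN3) (cut := Cut.none) (xt := Ext.none) (P1 := 1239849684) (W1 := 370763052) (P2 := 67108864) (W2 := 469762048) (P3 := 1046898278) (W3 := 26843546) (N0 := 3)
    rfl k0_pp_203_b

noncomputable def f_pp_213_a : ℕ → ℕ → ℕ → ℕ → Bool := onCell 0 420477299 536870912 536870912 1046898278 26843546
    (rowNX 3 0 true true true .pnn 2 1 3 (qsf 0 420477299 536870912 536870912 3) ndN1q2a ndN2q1 pcN3 Cut.none Ext.none)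

def k0_pp_213_a : ∃ t, chk3 f_pp_213_a t 1 1 1 = true :=
  ⟨(l 4), by decide +kernel⟩

theorem c_pp_213_a : CertNX 0 420477299 536870912 536870912 1046898278 26843546 3 true true true .pnn 2 1 3
    ndN1q2a ndN2q1 pcN3 Cut.none Ext.none :=
  certNX0 (fam := true) (s1 := true) (s2 := true) (a := 2) (b := 1) (c := 3) (cn := .pnn) (n1 := ndN1q2a) (n2 := ndN2q1) (pc := pcN3) (cut := Cut.none) (xt := Ext.none) (P1 := 0) (W1 := 420477299) (P2 := 536870912) (W2 := 536870912) (P3 := 1046898278) (W3 := 26843546) (N0 := 3)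
    rfl k0_pp_213_a

noncomputable def f_pp_213_b : ℕ → ℕ → ℕ → ℕ → Bool := onCell 1239849684 370763052 536870912 536870912 1046898278 26843546
    (rowNX 3 0 true true true .pnn 2 1 3 (qsf 1239849684 370763052 536870912 536870912 3) ndN1q2b ndN2q1 pcN3 Cut.none Ext.none)

def k0_pp_213_b : ∃ t, chk3 f_pp_213_b t 1 1 1 = true :=
  ⟨(l 4), by decide +kernel⟩

theorem c_pp_213_b : CertNX 1239849684 370763052 536870912 536870912 1046898278 26843546 3 true true true .pnn 2 1 3
    ndN1q2b ndN2q1 pcN3 Cut.none Ext.none :=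
  certNX0 (fam := true) (s1 := true) (s2 := true) (a := 2) (b := 1) (c := 3) (cn := .pnn) (n1 := ndN1q2b) (n2 := ndN2q1) (pc := pcN3) (cut := Cut.none) (xt := Ext.none) (P1 := 1239849684) (W1 := 370763052) (P2 := 536870912) (W2 := 536870912) (P3 := 1046898278) (W3 := 26843546) (N0 := 3)
    rfl k0_pp_213_b

noncomputable def f_pp_303 : ℕ → ℕ → ℕ → ℕ → Bool := onCell 1610612736 469762048 67108864 469762048 1046898278 26843546
    (rowNX 3 0 true true true .npn 3 0 3 (qsf 1610612736 469762048 67108864 469762048 3) ndN1q3 ndN2q0 pcN3 Cut.none Ext.none)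

def k0_pp_303 : ∃ t, chk3 f_pp_303 t 1 1 1 = true :=
  ⟨(l 5), by decide +kernel⟩

theorem c_pp_303 : CertNX 1610612736 469762048 67108864 469762048 1046898278 26843546 3 true true true .npn 3 0 3
    ndN1q3 ndN2q0 pcN3 Cut.none Ext.none :=
  certNX0 (fam := true) (s1 := true) (s2 := true) (a := 3) (b := 0) (c := 3) (cn := .npn) (n1 := ndN1q3) (n2 := ndN2q0) (pc := pcN3) (cut := Cut.none) (xt := Ext.none) (P1 := 1610612736) (W1 := 469762048) (P2 := 67108864) (W2 := 469762048) (P3 := 1046898278) (W3 := 26843546) (N0 := 3)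
    rfl k0_pp_303

noncomputable def f_pp_313 : ℕ → ℕ → ℕ → ℕ → Bool := onCell 1610612736 469762048 536870912 536870912 1046898278 26843546
    (rowNX 3 0 true true true .dn 3 1 3 (qsf 1610612736 469762048 536870912 536870912 3) ndN1q3 ndN2q1 pcN3 Cut.none Ext.none)

def k0_pp_313 : ∃ t, chk3 f_pp_313 t 1 1 1 = true :=
  ⟨(l 4), by decide +kernel⟩

theorem c_pp_313 : CertNX 1610612736 469762048 536870912 536870912 1046898278 26843546 3 true true true .dn 3 1 3
    ndN1q3 ndN2q1 pcN3 Cut.none Ext.none :=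
  certNX0 (fam := true) (s1 := true) (s2 := true) (a := 3) (b := 1) (c := 3) (cn := .dn) (n1 := ndN1q3) (n2 := ndN2q1) (pc := pcN3) (cut := Cut.none) (xt := Ext.none) (P1 := 1610612736) (W1 := 469762048) (P2 := 536870912) (W2 := 536870912) (P3 := 1046898278) (W3 := 26843546) (N0 := 3)
    rfl k0_pp_313

noncomputable def f_pm_001 : ℕ → ℕ → ℕ → ℕ → Bool := onCell 67108864 469762048 67108864 469762048 1046898278 26843546
    (rowNX 3 0 true true false .up 0 0 1 (qsf 67108864 469762048 67108864 469762048 1) ndN1q0 ndN2q0 pcN1 Cut.none Ext.none)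

def k0_pm_001 : ∃ t, chk3 f_pm_001 t 1 1 1 = true :=
  ⟨(l 3), by decide +kernel⟩

theorem c_pm_001 : CertNX 67108864 469762048 67108864 469762048 1046898278 26843546 3 true true false .up 0 0 1
    ndN1q0 ndN2q0 pcN1 Cut.none Ext.none :=
  certNX0 (fam := true) (s1 := true) (s2 := false) (a := 0) (b := 0) (c := 1) (cn := .up) (n1 := ndN1q0) (n2 := ndN2q0) (pc := pcN1) (cut := Cut.none) (xt := Ext.none) (P1 := 67108864) (W1 := 469762048) (P2 := 67108864) (W2 := 469762048) (P3 := 1046898278) (W3 := 26843546) (N0 := 3)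
    rfl k0_pm_001

noncomputable def f_pm_011 : ℕ → ℕ → ℕ → ℕ → Bool := onCell 67108864 469762048 536870912 536870912 1046898278 26843546
    (rowNX 3 1 true true false .pnn 0 1 1 (qsf 67108864 469762048 536870912 536870912 1) ndN1q0 ndN2q1 pcN1 Cut.none Ext.none)

def k0_pm_011 : ∃ t, chk3 f_pm_011 t 1 1 1 = true :=
  ⟨(l 3), by decide +kernel⟩

theorem c_pm_011 : CertNX 67108864 469762048 536870912 536870912 1046898278 26843546 3 true true false .pnn 0 1 1
    ndN1q0 ndN2q1 pcN1 Cut.none Ext.none :=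
  certNX1 (fam := true) (s1 := true) (s2 := false) (a := 0) (b := 1) (c := 1) (cn := .pnn) (n1 := ndN1q0) (n2 := ndN2q1) (pc := pcN1) (cut := Cut.none) (xt := Ext.none) (P1 := 67108864) (W1 := 469762048) (P2 := 536870912) (W2 := 536870912) (P3 := 1046898278) (W3 := 26843546) (N0 := 3)
    rfl (fun _ => rfl) k0_pm_011

noncomputable def f_pm_012 : ℕ → ℕ → ℕ → ℕ → Bool := onCell 1073741824 536870912 536870912 536870912 1046898278 26843546
    (rowNX 3 2 true true false .pnp 0 1 2 (qsf 67108864 469762048 536870912 536870912 2) ndN1q0 ndN2q1 pcN2 Cut.none Ext.none)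

def k0_pm_012 : ∃ t, chk3 f_pm_012 t 4 1 1 = true :=
  ⟨(a (l 3) (b (a (l 3) (b (b (l 2) (l 3)) (l 3))) (l 3))), by decide +kernel⟩

def k1_pm_012 : ∃ t, chk3 f_pm_012 t 5 2 1 = true :=
  ⟨(b (a (a (a (a (c (l 16775768) (l 16775720)) (l 2)) (l 2)) (l 2)) (l 2)) (a (a (a (c (a (l 867214287239) (l 823190874887)) (a (l 906942734631) (l 16776304))) (a (c (a (l 16772008) (b (l 16755616) (l 16771376))) (a (l 16771824) (b (l 16754856) (l 16771176)))) (a (a (c (l 16738952) (l 16737616)) (b (l 16679512) (l 16728032))) (a (l 16662216) (l 16630512))))) (l 16655752)) (l 16754112))), by decide +kernel⟩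

def k2_pm_012 : ∃ t, chk3 f_pm_012 t 10 3 1 = true :=
  ⟨(a (a (a (l 3) (b (b (b (l 765745679303) (l 16682208)) (l 3)) (l 3))) (a (b (c (b (a (l 16741296) (l 16741240)) (a (l 16415160) (l 16394120))) (b (a (l 16740032) (l 16739976)) (a (l 16446608) (l 16425560)))) (a (l 3) (b (b (l 781849977687) (a (l 3) (l 15682624))) (l 3)))) (b (a (b (a (c (l 16740480) (l 16739184)) (c (l 16630680) (l 16734040))) (c (a (l 16457024) (l 16436080)) (a (l 16467488) (l 16446552)))) (b (a (b (l 16716024) (a (l 16651000) (l 16677416))) (l 16696360)) (a (a (c (l 16369824) (l 16401120)) (c (b (l 16548184) (l 16384424)) (b (l 16540032) (l 16370584)))) (l 16294640)))) (a (b (c (b (l 16057360) (l 15652144)) (b (l 16032096) (l 15614176))) (b (c (a (l 15562536) (l 15539640)) (l 15509088)) (a (l 3647129357655) (c (l 15517744) (l 15476464))))) (b (a (b (a (l 16044784) (c (l 16055184) (l 16029824))) (a (l 15666688) (c (l 15684288) (l 15645936)))) (a (a (a (c (l 15783640) (l 15793616)) (a (c (l 15779704)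 (l 15789528)) (b (l 16022040) (b (l 15747592) (c (l 15584344) (l 15542456)))))) (l 15836936)) (l 15836936))) (a (c (b (a (l 15522552) (l 15511216)) (a (l 15499424) (l 15487248))) (b (a (l 15479480) (l 15467696)) (a (l 15457440) (l 15444808)))) (b (a (a (a (c (l 15504136) (l 15460344)) (a (c (l 15502008) (l 15458136)) (c (b (l 15508552) (l 15492696)) (l 15455792)))) (l 15474368)) (l 15465736)) (a (a (a (c (l 15479656) (l 15436928)) (a (c (l 15477384) (l 15434560)) (c (b (l 15480240) (l 15472312)) (b (l 15436992) (l 15429856))))) (l 15450568)) (l 15441296))))))))) (b (b (l 16702432) (l 16399584)) (b (l 15819896) (b (b (l 15399496) (l 15293728)) (b (l 15248928) (l 15234112)))))), by decide +kernel⟩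

def k3_pm_012 : ∃ t, chk3 f_pm_012 t 11 3 1 = true :=
  ⟨(b (b (l 16734144) (b (l 16553144) (l 16378696))) (b (l 15789688) (b (l 15265840) (a (b (l 14995752) (l 14738288)) (l 14859784))))), by decide +kernel⟩

def k4_pm_012 : ∃ t, chk3 f_pm_012 t 3 1 1 = true :=
  ⟨(b (a (b (l 2) (l 16777216)) (l 2)) (b (a (b (l 16740768) (l 16472856)) (b (l 2) (l 16472856))) (b (a (l 15792704) (l 15855624)) (a (b (l 15266032) (l 14859648)) (b (l 15266032) (l 14859648)))))), by decide +kernel⟩

theorem s5_pm_012 : ∃ t, chk3 f_pm_012 t 5 3 1 = true := ex3_a k2_pm_012 k3_pm_012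

theorem s6_pm_012 : ∃ t, chk3 f_pm_012 t 5 1 1 = true := ex3_b k1_pm_012 s5_pm_012

theorem s7_pm_012 : ∃ t, chk3 f_pm_012 t 2 1 1 = true := ex3_a k0_pm_012 s6_pm_012

theorem s8_pm_012 : ∃ t, chk3 f_pm_012 t 1 1 1 = true := ex3_a s7_pm_012 k4_pm_012

theorem c_pm_012 : CertNX 67108864 469762048 536870912 536870912 1046898278 26843546 3 true true false .pnp 0 1 2
    ndN1q0 ndN2q1 pcN2 Cut.none Ext.none :=
  certNX2 (fam := true) (s1 := true) (s2 := false) (a := 0) (b := 1) (c := 2) (cn := .pnp) (n1 := ndN1q0) (n2 := ndN2q1) (pc := pcN2) (cut := Cut.none) (xt := Ext.none) (P1 := 67108864) (W1 := 469762048) (P2 := 536870912) (W2 := 536870912) (P3 := 1046898278) (W3 := 26843546) (N0 := 3)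
    rfl (fun _ => rfl) s8_pm_012

noncomputable def f_pm_022_a : ℕ → ℕ → ℕ → ℕ → Bool := onCell 1073741824 536870912 0 420477299 1046898278 26843546
    (rowNX 3 2 true true false .pp 0 2 2 (qsf 67108864 469762048 0 420477299 2) ndN1q0 ndN2q2a pcN2 Cut.none Ext.none)

def k0_pm_022_a : ∃ t, chk3 f_pm_022_a t 2 2 1 = true :=
  ⟨(a (l 1) (a (l 1) (a (a (b (l 1) (b (l 1) (c (c (a (b (l 1) (c (b (l 1) (l 14893672)) (l 15071184))) (b (a (l 1) (l 14824960)) (l 14964736))) (l 240547554695)) (l 14894472)))) (b (a (l 1) (c (b (a (l 1) (l 14404136)) (b (l 14438496) (l 14458864))) (l 14364976))) (b (c (a (a (b (l 1) (l 14671640)) (b (l 14555992) (l 14632648))) (l 14566840)) (l 14521896)) (c (b (l 14744976) (l 14889952)) (l 14740200))))) (b (c (b (l 14742304) (l 14547464)) (b (l 14669304) (l 14706320))) (c (b (a (l 14720184) (l 15077040)) (a (l 14954744) (l 15243592))) (b (l 14641856) (a (l 14889472) (l 15188568)))))))), by decide +kernel⟩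

def k1_pm_022_a : ∃ t, chk3 f_pm_022_a t 4 3 1 = true :=
  ⟨(a (l 1) (a (l 1) (a (l 1) (a (l 1) (a (l 1) (b (l 1) (b (l 1) (b (l 1) (b (l 1) (c (c (c (b (l 1) (l 16420880)) (l 16405752)) (l 16419456)) (l 16371616))))))))))), by decide +kernel⟩

def k2_pm_022_a : ∃ t, chk3 f_pm_022_a t 20 3 1 = true :=
  ⟨(b (l 1) (a (b (l 1) (a (b (l 1) (a (b (l 1) (c (c (b (a (l 1) (l 16402208)) (l 16363344)) (l 16492632)) (l 16342664))) (c (c (b (c (b (l 1) (l 16391144)) (l 16478736)) (l 16324560)) (l 16329576)) (b (l 16388664) (l 16363320))))) (c (b (c (b (l 1) (c (a (c (l 16352344) (l 16479232)) (a (l 16411920) (l 16439704))) (l 16322024))) (l 16205536)) (a (b (c (c (l 16357296) (l 16550608)) (l 16549720)) (l 16174824)) (c (l 16175896) (l 16212448)))) (b (c (l 16223488) (l 16220448)) (b (b (l 16314296) (l 16256160)) (l 16118256)))))) (b (b (l 1) (a (a (l 1) (c (c (c (b (l 1) (b (l 1) (l 16357000))) (l 16165536)) (l 16316632)) (l 16245240))) (a (b (l 1) (c (c (a (c (l 16279680) (l 16354688))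 (l 16355560)) (l 16331632)) (l 16177240))) (c (b (c (c (l 16100720) (l 16213920)) (l 16208144)) (l 16333656)) (l 16170392))))) (c (a (b (c (b (a (b (l 1) (l 154651531847)) (l 16322096)) (l 16292600)) (b (l 16482880) (l 16503352))) (c (l 16103888) (l 16159504))) (b (c (a (l 16373952) (l 16518448)) (l 16350168)) (c (a (l 16032512) (l 16192608)) (l 15999072)))) (c (a (b (l 147135251591) (l 16173080)) (b (l 16369576) (l 16053360))) (a (b (b (l 16456832) (l 16498976)) (l 16165544)) (b (l 16346992) (l 16044584)))))))), by decide +kernel⟩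

def k3_pm_022_a : ∃ t, chk3 f_pm_022_a t 21 3 1 = true :=
  ⟨(a (b (a (l 1) (b (l 1) (b (l 1) (c (c (c (b (a (l 1) (l 15785320)) (a (l 15837912) (l 15837880))) (l 15742192)) (l 15810336)) (l 15787336))))) (b (a (c (b (c (b (a (l 1) (b (l 1) (l 15889368))) (a (b (l 15912640) (l 16103960)) (l 16062128))) (b (l 15970128) (l 16062816))) (b (c (l 16209104) (l 16197928)) (l 16305600))) (b (b (l 15951688) (l 16046840)) (b (l 16185664) (l 16358552)))) (c (b (b (c (l 15830864) (l 15919368)) (l 16058624)) (l 16069168)) (b (b (l 15899128) (l 16036664)) (l 16244904)))) (c (b (c (l 16377432) (l 16438600)) (c (a (l 16125104) (l 16063328)) (a (l 16179168) (l 16138664)))) (b (c (l 16457784) (l 16414016)) (a (l 15997880) (b (l 16270656) (l 16096784))))))) (b (a (b (l 1) (c (b (c (c (b (a (l 1) (l 15590888)) (a (l 15689104) (l 15637736))) (l 15629960)) (l 15612024)) (c (b (l 15729536) (l 15822608)) (l 15756016))) (b (l 15583424) (l 15731080)))) (b (b (l 1) (c (c (c (b (a (l 1) (l 15362656))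 (a (l 15489392) (l 15432864))) (l 15414432)) (l 15395176)) (l 15276120))) (c (b (c (b (l 15526672) (l 15612040)) (l 15545648)) (l 15756056)) (b (l 15514648) (l 15722144))))) (b (c (b (c (b (l 15930584) (l 16069320)) (l 15988088)) (c (l 16163680) (l 16219952))) (b (c (l 15975480) (l 15962704)) (a (l 16273160) (l 16251216)))) (c (b (c (b (l 16465704) (l 16362032)) (a (l 16507864) (l 16598536))) (a (c (l 16229640) (l 16264144)) (b (l 16410768) (l 16288160)))) (b (a (l 16358760) (l 16450144)) (a (l 16147920) (l 16285352))))))), by decide +kernel⟩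

def k4_pm_022_a : ∃ t, chk3 f_pm_022_a t 11 3 1 = true :=
  ⟨(a (b (a (a (b (b (c (a (b (l 1) (l 15210624)) (l 15135728)) (l 15105864)) (c (b (l 15280016) (l 15380360)) (l 15274648))) (c (c (l 15589592) (l 15633472)) (l 15457768))) (b (c (l 15198352) (l 15143368)) (c (c (l 15587400) (l 15609672)) (l 15495528)))) (c (b (l 15154184) (a (b (l 15476128) (l 15577680)) (b (l 15342112) (l 15585456)))) (b (l 15096760) (a (b (l 15430624) (l 15644440)) (l 15203568))))) (b (c (a (c (b (b (l 15910288) (l 16035376)) (l 15990408)) (b (b (l 15895720) (l 16023112)) (l 16128488))) (b (c (l 15676984) (l 15785976)) (l 15898376))) (a (b (a (l 15959608) (l 15897360)) (a (l 16207936) (l 16155392))) (b (l 15655360) (l 15977032)))) (a (c (b (a (l 16443728) (l 16338448)) (a (l 16288624) (l 16430136))) (b (l 16257456) (c (l 16417800) (l 16373008)))) (c (b (l 16070128) (c (l 16349696) (l 16430672))) (b (l 16158104) (l 16258416)))))) (a (b (b (c (a (l 15174568) (l 15300224)) (l 15174224)) (a (a (c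 (b (l 15382880) (l 15510672)) (l 15400104)) (l 15456848)) (l 15513456))) (b (c (a (b (b (l 15630008) (l 15723776)) (l 15849520)) (l 15809760)) (b (l 15506112) (l 15894096))) (c (a (b (l 16026504) (l 16179664)) (l 16121752)) (b (l 16023472) (l 16193544))))) (b (b (l 15403512) (l 15625160)) (b (c (b (l 15851864) (l 16072736)) (l 15687232)) (b (l 16285704) (l 16422896)))))), by decide +kernel⟩

def k5_pm_022_a : ∃ t, chk3 f_pm_022_a t 3 1 1 = true :=
  ⟨(b (a (a (a (b (c (a (l 15094984) (l 15409488)) (l 15272872)) (b (l 15356792) (l 15470472))) (b (l 15544072) (b (l 15690728) (l 15821584)))) (b (a (l 16024448) (l 16380848)) (a (b (l 16099888) (l 16232696)) (b (l 16467624) (l 16464776))))) (b (l 16379288) (l 16398760))) (a (b (a (a (b (l 15639056) (l 15877664)) (b (l 16013984) (l 16268160))) (a (b (l 16330080) (a (l 16532720) (l 16637104))) (l 16500528))) (a (b (a (b (a (l 16010032) (l 16209952)) (l 16156064)) (b (l 16415688) (a (l 16623408) (l 16674656)))) (a (b (l 16351008)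 (l 16120272)) (b (a (l 16469368) (l 16405040)) (a (l 16161544) (l 16133224))))) (b (b (a (l 16702696) (l 16747840)) (l 16620400)) (a (c (l 16229608) (l 16253744)) (l 16262632))))) (b (l 16533816) (b (l 16608608) (l 16178744))))), by decide +kernel⟩

theorem s6_pm_022_a : ∃ t, chk3 f_pm_022_a t 10 3 1 = true := ex3_a k2_pm_022_a k3_pm_022_a

theorem s7_pm_022_a : ∃ t, chk3 f_pm_022_a t 5 3 1 = true := ex3_a s6_pm_022_a k4_pm_022_a

theorem s8_pm_022_a : ∃ t, chk3 f_pm_022_a t 2 3 1 = true := ex3_a k1_pm_022_a s7_pm_022_a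

theorem s9_pm_022_a : ∃ t, chk3 f_pm_022_a t 2 1 1 = true := ex3_b k0_pm_022_a s8_pm_022_a

theorem s10_pm_022_a : ∃ t, chk3 f_pm_022_a t 1 1 1 = true := ex3_a s9_pm_022_a k5_pm_022_a

theorem c_pm_022_a : CertNX 67108864 469762048 0 420477299 1046898278 26843546 3 true true false .pp 0 2 2
    ndN1q0 ndN2q2a pcN2 Cut.none Ext.none :=
  certNX2 (fam := true) (s1 := true) (s2 := false) (a := 0) (b := 2) (c := 2) (cn := .pp) (n1 := ndN1q0) (n2 := ndN2q2a) (pc := pcN2) (cut := Cut.none) (xt := Ext.none) (P1 := 67108864) (W1 := 469762048) (P2 := 0) (W2 := 420477299) (P3 := 1046898278) (W3 := 26843546) (N0 := 3)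
    rfl (fun _ => rfl) s10_pm_022_a

noncomputable def f_pm_022_b : ℕ → ℕ → ℕ → ℕ → Bool := onCell 67108864 469762048 1239849684 370763052 1046898278 26843546
    (rowNX 3 0 true true false .pp 0 2 2 (qsf 67108864 469762048 1239849684 370763052 2) ndN1q0 ndN2q2b pcN2 Cut.none Ext.none)

def k0_pm_022_b : ∃ t, chk3 f_pm_022_b t 1 1 1 = true :=
  ⟨(a (b (a (a (a (b (b (a (c (b (a (l 14457472) (l 14621520)) (l 14630008)) (b (l 14453024) (l 14549640))) (c (l 14916776) (l 14850256))) (c (a (l 14741224) (l 15068704)) (l 14824800))) (c (a (l 14762712) (l 15089272)) (l 14846768))) (b (c (b (a (l 15233800) (l 15418744)) (a (l 15379464) (l 15558144))) (b (l 15274768) (l 15423232))) (c (l 15488520) (l 15443280)))) (b (b (a (l 15531592) (l 15680296)) (a (l 15727224) (l 16010000))) (l 15887280))) (b (a (b (a (l 16248360) (l 16535448)) (l 16287184)) (b (l 16555232) (l 16750264))) (a (l 16530888) (l 16777216)))) (a (a (a (b (a (l 14727736) (l 15059712)) (l 14888424)) (b (c (l 15488520)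 (l 15443280)) (l 2))) (b (l 15887280) (l 2))) (b (a (a (l 16369808) (l 2)) (l 2)) (l 2)))) (a (b (b (b (l 16555232) (l 16750264)) (l 2)) (l 2)) (l 2))), by decide +kernel⟩

theorem c_pm_022_b : CertNX 67108864 469762048 1239849684 370763052 1046898278 26843546 3 true true false .pp 0 2 2
    ndN1q0 ndN2q2b pcN2 Cut.none Ext.none :=
  certNX0 (fam := true) (s1 := true) (s2 := false) (a := 0) (b := 2) (c := 2) (cn := .pp) (n1 := ndN1q0) (n2 := ndN2q2b) (pc := pcN2) (cut := Cut.none) (xt := Ext.none) (P1 := 67108864) (W1 := 469762048) (P2 := 1239849684) (W2 := 370763052) (P3 := 1046898278) (W3 := 26843546) (N0 := 3)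
    rfl k0_pm_022_b

noncomputable def f_pm_023_a : ℕ → ℕ → ℕ → ℕ → Bool := onCell 67108864 469762048 0 420477299 1046898278 26843546
    (rowNX 3 0 true true false .up 0 2 3 (qsf 67108864 469762048 0 420477299 3) ndN1q0 ndN2q2a pcN3 Cut.none Ext.none)

def k0_pm_023_a : ∃ t, chk3 f_pm_023_a t 1 1 1 = true :=
  ⟨(a (l 1) (a (b (b (l 16400216) (l 16398760)) (b (l 16554784) (l 1))) (b (b (l 16400216) (l 16398760)) (b (l 16554784) (b (l 16713464) (l 16262632)))))), by decide +kernel⟩

theorem c_pm_023_a : CertNX 67108864 469762048 0 420477299 1046898278 26843546 3 true true false .up 0 2 3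
    ndN1q0 ndN2q2a pcN3 Cut.none Ext.none :=
  certNX0 (fam := true) (s1 := true) (s2 := false) (a := 0) (b := 2) (c := 3) (cn := .up) (n1 := ndN1q0) (n2 := ndN2q2a) (pc := pcN3) (cut := Cut.none) (xt := Ext.none) (P1 := 67108864) (W1 := 469762048) (P2 := 0) (W2 := 420477299) (P3 := 1046898278) (W3 := 26843546) (N0 := 3)
    rfl k0_pm_023_a

noncomputable def f_pm_023_b : ℕ → ℕ → ℕ → ℕ → Bool := onCell 67108864 469762048 1610612736 536870912 1046898278 26843546
    (rowNX 3 1 true true false .up 0 2 3 (qsf 67108864 469762048 1239849684 370763052 3) ndN1q0 ndN2q2b pcN3 Cut.none Ext.none)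

def k0_pm_023_b : ∃ t, chk3 f_pm_023_b t 1 1 1 = true :=
  ⟨(b (a (a (b (a (a (b (l 14888424) (l 14888424)) (c (l 15488520) (l 15443280))) (l 15698536)) (a (l 2) (b (l 15887280) (l 2)))) (b (a (b (l 16530888) (l 16530888)) (l 16777200)) (b (a (l 16530888) (l 16777216)) (a (l 16530888) (l 16777216))))) (b (a (b (a (l 16714248) (b (l 16452392) (l 16593048))) (a (l 16777216) (l 16731208))) (b (a (b (l 1) (a (l 16503848) (l 1))) (l 1)) (a (b (l 16477248) (l 16615384)) (b (l 1) (l 171832025911))))) (b (a (l 16777216) (a (b (l 16732592) (l 16775080)) (b (l 16447464) (l 16661344)))) (a (l 16777216) (b (l 16760544) (l 16777192)))))) (b (a (a (l 2) (b (b (l 16511424) (l 4)) (l 2))) (b (b (l 16777216) (l 16777216)) (c (l 34594619607) (l 16777176)))) (l 4))), by decide +kernel⟩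

theorem c_pm_023_b : CertNX 67108864 469762048 1239849684 370763052 1046898278 26843546 3 true true false .up 0 2 3
    ndN1q0 ndN2q2b pcN3 Cut.none Ext.none :=
  certNX1 (fam := true) (s1 := true) (s2 := false) (a := 0) (b := 2) (c := 3) (cn := .up) (n1 := ndN1q0) (n2 := ndN2q2b) (pc := pcN3) (cut := Cut.none) (xt := Ext.none) (P1 := 67108864) (W1 := 469762048) (P2 := 1239849684) (W2 := 370763052) (P3 := 1046898278) (W3 := 26843546) (N0 := 3)
    rfl (fun _ => rfl) k0_pm_023_b

noncomputable def f_pm_033 : ℕ → ℕ → ℕ → ℕ → Bool := onCell 67108864 469762048 1610612736 536870912 1046898278 26843546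
    (rowNX 3 1 true true false .pnn 0 3 3 (qsf 67108864 469762048 1610612736 469762048 3) ndN1q0 ndN2q3 pcN3 Cut.none Ext.none)

def k0_pm_033 : ∃ t, chk3 f_pm_033 t 1 1 1 = true :=
  ⟨(b (a (a (b (a (a (b (l 14888424) (l 14888424)) (c (l 15488520) (l 15443280))) (l 15761456)) (b (a (a (l 14762592) (l 15403040)) (l 15887280)) (a (c (a (l 14920576) (l 15488520)) (l 14935032)) (l 15887280)))) (b (l 1) (b (a (l 16530888) (l 1)) (a (l 16530888) (l 16777216))))) (l 1)) (b (b (b (a (a (a (a (l 14888424) (l 15465952)) (l 15887280)) (l 16511424)) (l 16777216)) (a (a (l 4) (l 4)) (l 16777216))) (a (l 4) (c (l 16777176) (l 16777176)))) (l 4))), by decide +kernel⟩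

theorem c_pm_033 : CertNX 67108864 469762048 1610612736 469762048 1046898278 26843546 3 true true false .pnn 0 3 3
    ndN1q0 ndN2q3 pcN3 Cut.none Ext.none :=
  certNX1 (fam := true) (s1 := true) (s2 := false) (a := 0) (b := 3) (c := 3) (cn := .pnn) (n1 := ndN1q0) (n2 := ndN2q3) (pc := pcN3) (cut := Cut.none) (xt := Ext.none) (P1 := 67108864) (W1 := 469762048) (P2 := 1610612736) (W2 := 469762048) (P3 := 1046898278) (W3 := 26843546) (N0 := 3)
    rfl (fun _ => rfl) k0_pm_033

noncomputable def f_pm_101 : ℕ → ℕ → ℕ → ℕ → Bool := onCell 536870912 536870912 67108864 469762048 1046898278 26843546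
    (rowNX 3 2 true true false .npn 1 0 1 (qsf 536870912 536870912 67108864 469762048 1) ndN1q1 ndN2q0 pcN1 Cut.none Ext.none)

def k0_pm_101 : ∃ t, chk3 f_pm_101 t 1 1 1 = true :=
  ⟨(l 3), by decide +kernel⟩

theorem c_pm_101 : CertNX 536870912 536870912 67108864 469762048 1046898278 26843546 3 true true false .npn 1 0 1
    ndN1q1 ndN2q0 pcN1 Cut.none Ext.none :=
  certNX2 (fam := true) (s1 := true) (s2 := false) (a := 1) (b := 0) (c := 1) (cn := .npn) (n1 := ndN1q1) (n2 := ndN2q0) (pc := pcN1) (cut := Cut.none) (xt := Ext.none) (P1 := 536870912) (W1 := 536870912) (P2 := 67108864) (W2 := 469762048) (P3 := 1046898278) (W3 := 26843546) (N0 := 3)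
    rfl (fun _ => rfl) k0_pm_101

noncomputable def f_pm_102 : ℕ → ℕ → ℕ → ℕ → Bool := onCell 536870912 536870912 1073741824 536870912 1046898278 26843546
    (rowNX 3 1 true true false .npp 1 0 2 (qsf 536870912 536870912 67108864 469762048 2) ndN1q1 ndN2q0 pcN2 Cut.none Ext.none)

def k0_pm_102 : ∃ t, chk3 f_pm_102 t 1 8 1 = true :=
  ⟨(a (l 3) (l 3)), by decide +kernel⟩

def k1_pm_102 : ∃ t, chk3 f_pm_102 t 2 9 1 = true :=
  ⟨(b (l 3) (a (b (l 3) (b (l 3) (c (l 16775136) (l 16775064)))) (b (a (l 3) (l 3)) (b (c (l 16774432) (l 16774328)) (c (l 16770960) (l 16770744)))))), by decide +kernel⟩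

def k2_pm_102 : ∃ t, chk3 f_pm_102 t 3 18 1 = true :=
  ⟨(a (l 3) (b (b (l 3) (a (l 3) (a (l 3) (a (l 3) (b (l 3) (c (l 15986656) (l 16006056))))))) (b (a (l 3) (b (a (l 3) (a (a (l 15465128) (c (l 15447816) (l 15487968))) (c (l 15858968) (l 15914832)))) (a (l 15543888) (a (c (l 15498520) (l 15453488)) (c (a (l 15636712) (l 15943304)) (l 15714400)))))) (a (c (a (l 417851736807) (l 350205260087)) (a (l 616493935111) (b (l 15825824) (l 15872848)))) (a (c (a (l 15651656) (l 15577864)) (b (l 15563640) (l 15581040))) (a (c (l 15513456) (l 15469016)) (c (a (b (a (l 15483776) (l 15562232)) (l 15491672)) (b (l 15788920) (l 15649200))) (a (b (l 15489944) (l 15446720)) (b (l 15755392) (l 15610432)))))))))), by decide +kernel⟩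

def k3_pm_102 : ∃ t, chk3 f_pm_102 t 3 19 1 = true :=
  ⟨(a (b (b (a (l 3) (b (a (l 3) (a (l 3) (l 16556696))) (a (l 16690896) (a (l 16647760) (l 16560336))))) (a (a (l 16777008) (l 16726944)) (a (l 16692280) (c (l 16609936) (l 16604080))))) (b (a (c (l 16764072) (l 16763616)) (c (a (l 16697840) (a (l 16658696) (l 16577968))) (a (l 16695096) (a (l 16654584) (l 16571048))))) (a (c (b (l 16767080) (l 16767424)) (b (l 16766792) (l 16767240))) (a (b (l 16685608) (l 16724920)) (l 16650640))))) (b (a (a (b (b (c (l 16303504) (l 16286816)) (c (l 16295928) (l 16279744))) (c (a (l 16413480) (l 16245856)) (a (l 16400736) (l 16227200)))) (c (b (b (l 15938352) (l 15965096)) (l 15989016)) (b (b (l 15908728) (l 15936480)) (l 15898392)))) (b (b (a (c (a (l 15682448) (l 15598488)) (a (l 15643760) (l 15556960))) (a (c (l 15545392) (l 15502208)) (a (l 15488032) (c (l 15562024) (l 15520000))))) (a (a (c (l 15709608) (l 15671952)) (l 15598120)) (c (a (l 15571656) (l 15538120)) (l 15512080))))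 (a (l 15537464) (l 15533656)))) (a (a (b (a (c (l 16433664) (l 16421728)) (l 16271448)) (l 16314424)) (l 15992264)) (a (b (l 15705592) (l 15778840)) (b (l 15551184) (a (l 15604160) (l 15576104))))))), by decide +kernel⟩

def k4_pm_102 : ∃ t, chk3 f_pm_102 t 1 5 1 = true :=
  ⟨(a (a (b (b (b (b (c (l 16775768) (l 16775720)) (l 2)) (l 2)) (l 2)) (l 2)) (b (b (b (b (b (c (l 16765888) (l 16765488)) (c (l 16755848) (l 16755096))) (a (b (a (l 16767608) (l 16751824)) (l 16721840)) (l 16686168))) (b (l 16616104) (b (l 16536640) (b (l 16509408) (a (l 16518280) (l 16481040)))))) (l 16567560)) (b (l 16706384) (l 16777120)))) (b (a (b (b (a (b (b (a (l 16742400) (l 16734608)) (l 16700544)) (l 16634880)) (a (l 16677552) (l 16536184))) (b (a (l 16535328) (a (l 16532344) (l 16555488))) (b (a (l 16462072) (a (l 16466216) (a (l 16481192) (l 16545464)))) (a (b (l 16454168) (b (b (b (l 16454224) (a (l 16446816) (l 16478512))) (l 16468976)) (l 16473344))) (b (a (l 16492976) (l 16597520)) (l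 16596024)))))) (a (l 16547128) (a (l 16666672) (l 16679488)))) (b (a (b (a (l 16306088) (b (l 16150944) (a (l 16330424) (l 16183448)))) (b (a (l 16500016) (a (l 16346192) (b (l 16216656) (l 16175240)))) (b (a (l 16567552) (l 16139992)) (a (l 16440976) (b (l 16125328) (l 16074816)))))) (b (a (b (l 15871640) (a (l 16020432) (l 15841808))) (b (a (l 15613648) (l 15567056)) (a (l 15637784) (l 15468200)))) (b (a (l 15880784) (l 15265648)) (b (a (l 15794992) (l 15358976)) (b (a (l 15725088) (l 15296856)) (a (l 15680648) (l 15258488))))))) (a (a (l 16375288) (l 16026704)) (a (b (a (l 15762952) (l 15563248)) (a (l 15755808) (l 15575296))) (l 15247808))))) (a (a (b (l 16718432) (l 16762456)) (b (l 16668456) (l 16647776))) (b (a (l 16169528) (a (l 15681456) (b (a (l 15421024) (l 15242200)) (a (l 15461296) (l 15306152))))) (a (l 16169920) (l 15330480)))))), by decide +kernel⟩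

def k5_pm_102 : ∃ t, chk3 f_pm_102 t 1 3 1 = true :=
  ⟨(a (b (l 16777216) (l 2)) (a (b (a (l 16762416) (l 16647760)) (l 16698584)) (b (a (l 16127992) (b (b (l 15561248) (l 15561248)) (b (l 15561248) (l 15561248)))) (a (l 16169936) (l 15561248))))), by decide +kernel⟩

theorem s6_pm_102 : ∃ t, chk3 f_pm_102 t 3 9 1 = true := ex3_b k2_pm_102 k3_pm_102

theorem s7_pm_102 : ∃ t, chk3 f_pm_102 t 1 9 1 = true := ex3_a k1_pm_102 s6_pm_102

theorem s8_pm_102 : ∃ t, chk3 f_pm_102 t 1 4 1 = true := ex3_b k0_pm_102 s7_pm_102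

theorem s9_pm_102 : ∃ t, chk3 f_pm_102 t 1 2 1 = true := ex3_b s8_pm_102 k4_pm_102

theorem s10_pm_102 : ∃ t, chk3 f_pm_102 t 1 1 1 = true := ex3_b s9_pm_102 k5_pm_102

theorem c_pm_102 : CertNX 536870912 536870912 67108864 469762048 1046898278 26843546 3 true true false .npp 1 0 2
    ndN1q1 ndN2q0 pcN2 Cut.none Ext.none :=
  certNX1 (fam := true) (s1 := true) (s2 := false) (a := 1) (b := 0) (c := 2) (cn := .npp) (n1 := ndN1q1) (n2 := ndN2q0) (pc := pcN2) (cut := Cut.none) (xt := Ext.none) (P1 := 536870912) (W1 := 536870912) (P2 := 67108864) (W2 := 469762048) (P3 := 1046898278) (W3 := 26843546) (N0 := 3)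
    rfl (fun _ => rfl) s10_pm_102

noncomputable def f_pm_112 : ℕ → ℕ → ℕ → ℕ → Bool := onCell 1073741824 536870912 536870912 536870912 1046898278 26843546
    (rowNX 3 2 true true false .dn 1 1 2 (qsf 536870912 536870912 536870912 536870912 2) ndN1q1 ndN2q1 pcN2 Cut.none Ext.none)

def k0_pm_112 : ∃ t, chk3 f_pm_112 t 1 1 1 = true :=
  ⟨(a (a (a (l 3) (b (b (a (l 3) (a (l 3) (a (l 3) (c (l 651929061559) (l 16775064))))) (l 3)) (l 1))) (b (a (a (b (a (a (c (l 16775768) (l 16775720)) (c (a (l 16770560) (l 16759888)) (a (l 16770328) (l 16759280)))) (a (a (b (l 16713456) (c (l 16758680) (l 16758024))) (l 16682640)) (a (l 16619048) (a (l 16577240) (l 16556392))))) (b (a (c (a (l 779167457671) (l 16776336)) (a (l 16775720) (l 16776304))) (a (a (a (l 16776416) (l 16773864)) (c (l 16755616) (l 16754856))) (a (l 16694352) (a (l 16640928) (l 16611952))))) (l 1))) (b (l 16601176) (l 16655752))) (b (a (l 16712264) (l 16777120)) (l 16754112))) (a (l 1) (b (b (l 16734144) (l 1)) (l 1)))))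 (b (a (b (a (l 16772520) (b (l 16698584) (l 16769976))) (l 16777216)) (b (a (b (a (l 16541240) (l 16315248)) (l 16698584)) (b (l 15759320) (a (l 16541240) (l 16315248)))) (a (l 16772520) (l 16716080)))) (b (a (b (l 16740768) (l 16472856)) (b (l 16740768) (l 16472856))) (b (a (l 15834648) (l 15855624)) (a (l 1) (l 14812936)))))), by decide +kernel⟩

theorem c_pm_112 : CertNX 536870912 536870912 536870912 536870912 1046898278 26843546 3 true true false .dn 1 1 2
    ndN1q1 ndN2q1 pcN2 Cut.none Ext.none :=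
  certNX2 (fam := true) (s1 := true) (s2 := false) (a := 1) (b := 1) (c := 2) (cn := .dn) (n1 := ndN1q1) (n2 := ndN2q1) (pc := pcN2) (cut := Cut.none) (xt := Ext.none) (P1 := 536870912) (W1 := 536870912) (P2 := 536870912) (W2 := 536870912) (P3 := 1046898278) (W3 := 26843546) (N0 := 3)
    rfl (fun _ => rfl) k0_pm_112

noncomputable def f_pm_113 : ℕ → ℕ → ℕ → ℕ → Bool := onCell 536870912 536870912 536870912 536870912 1046898278 26843546
    (rowNX 3 0 true true false .nn 1 1 3 (qsf 536870912 536870912 536870912 536870912 3) ndN1q1 ndN2q1 pcN3 Cut.none Ext.none)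

def k0_pm_113 : ∃ t, chk3 f_pm_113 t 1 1 1 = true :=
  ⟨(a (b (a (l 1) (l 342557196295)) (b (a (l 310880939863) (b (l 16740768) (l 16472856))) (a (b (l 15855624) (l 15064600)) (b (l 15855624) (l 15064600))))) (b (a (a (l 16762416) (b (l 16647760) (l 16647760))) (b (a (l 16107016) (b (l 15561248) (l 15561248))) (a (l 16086048) (l 15561248)))) (a (b (a (l 16536552) (b (l 16613072) (l 16351752))) (a (b (l 15841864) (l 15051040)) (b (l 15739152) (l 14951456)))) (b (a (b (l 16135992) (l 15890744)) (b (l 15527872) (b (l 15367376) (a (l 15363456) (l 15080216))))) (a (b (l 15321272) (a (l 14693168) (b (l 14660600) (a (l 14337336) (b (l 14350176) (l 14167744)))))) (b (a (b (l 15080232) (l 14778072)) (b (a (l 14882552) (l 14757992)) (a (l 14625128) (b (l 14586640) (l 14505816))))) (a (b (a (l 14525824) (b (l 14526752) (l 14410624))) (b (a (l 14299856) (l 14312696)) (a (l 14156624) (a (l 14210608) (c (l 14708608) (l 13871368)))))) (b (a (c (l 14726816) (l 14167576)) (b (l 88814552615)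 (b (l 14519080) (l 4)))) (a (b (a (b (l 14390632) (l 14396776)) (b (l 14476040) (l 4))) (l 4)) (l 4)))))))))), by decide +kernel⟩

theorem c_pm_113 : CertNX 536870912 536870912 536870912 536870912 1046898278 26843546 3 true true false .nn 1 1 3
    ndN1q1 ndN2q1 pcN3 Cut.none Ext.none :=
  certNX0 (fam := true) (s1 := true) (s2 := false) (a := 1) (b := 1) (c := 3) (cn := .nn) (n1 := ndN1q1) (n2 := ndN2q1) (pc := pcN3) (cut := Cut.none) (xt := Ext.none) (P1 := 536870912) (W1 := 536870912) (P2 := 536870912) (W2 := 536870912) (P3 := 1046898278) (W3 := 26843546) (N0 := 3)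
    rfl k0_pm_113

noncomputable def f_pm_123_a : ℕ → ℕ → ℕ → ℕ → Bool := onCell 1610612736 536870912 0 420477299 1046898278 26843546
    (rowNX 3 2 true true false .npn 1 2 3 (qsf 536870912 536870912 0 420477299 3) ndN1q1 ndN2q2a pcN3 Cut.none Ext.none)

def k0_pm_123_a : ∃ t, chk3 f_pm_123_a t 1 1 1 = true :=
  ⟨(b (a (a (l 1) (a (b (l 16400216) (l 16398760)) (b (l 16400216) (l 16398760)))) (a (a (b (l 16400216) (l 16398768)) (a (b (l 16400232) (l 16398792)) (b (l 16400224) (l 16398784)))) (a (a (b (a (l 16400216) (l 4)) (a (l 16398768) (l 16398848))) (b (l 4) (a (l 189749328727) (l 4)))) (l 4)))) (a (b (a (l 16554784) (l 16554784)) (b (a (l 16713464) (l 16713464)) (a (l 16262632) (l 16241664)))) (a (b (a (l 16554792) (a (l 16554832) (l 16554824))) (a (b (l 16713480) (l 16262648)) (b (a (l 16713528) (l 16713328)) (a (l 16262688) (l 16258936))))) (a (b (a (l 16380152) (a (l 16529112) (c (l 16505960) (l 16496400)))) (a (b (l 16525400) (a (l 16256320) (l 16260232))) (b (a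 (l 16728080) (l 16610784)) (a (l 16278120) (l 16216976))))) (a (b (l 4) (a (b (c (b (l 16631624) (l 16672688)) (l 16453520)) (c (l 16363320) (l 16317688))) (b (l 4) (a (c (l 16426768) (l 16375616)) (l 4))))) (l 4)))))), by decide +kernel⟩

theorem c_pm_123_a : CertNX 536870912 536870912 0 420477299 1046898278 26843546 3 true true false .npn 1 2 3
    ndN1q1 ndN2q2a pcN3 Cut.none Ext.none :=
  certNX2 (fam := true) (s1 := true) (s2 := false) (a := 1) (b := 2) (c := 3) (cn := .npn) (n1 := ndN1q1) (n2 := ndN2q2a) (pc := pcN3) (cut := Cut.none) (xt := Ext.none) (P1 := 536870912) (W1 := 536870912) (P2 := 0) (W2 := 420477299) (P3 := 1046898278) (W3 := 26843546) (N0 := 3)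
    rfl (fun _ => rfl) k0_pm_123_a

noncomputable def f_pm_123_b : ℕ → ℕ → ℕ → ℕ → Bool := onCell 1610612736 536870912 1239849684 370763052 1046898278 26843546
    (rowNX 3 2 true true false .npn 1 2 3 (qsf 536870912 536870912 1239849684 370763052 3) ndN1q1 ndN2q2b pcN3 Cut.none Ext.none)

def k0_pm_123_b : ∃ t, chk3 f_pm_123_b t 1 1 1 = true :=
  ⟨(a (b (a (l 1) (a (b (b (l 16555232) (l 1)) (l 1)) (b (b (l 16555232) (l 16750264)) (l 16777216)))) (l 1)) (a (a (b (b (c (l 16574144) (l 16611904)) (l 16777208)) (l 1)) (a (b (b (b (l 16555240) (l 16750272)) (l 16777216)) (l 16777216)) (b (b (b (l 16555240) (l 16750264)) (l 4)) (l 4)))) (a (b (l 4) (l 4)) (l 4)))), by decide +kernel⟩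

theorem c_pm_123_b : CertNX 536870912 536870912 1239849684 370763052 1046898278 26843546 3 true true false .npn 1 2 3
    ndN1q1 ndN2q2b pcN3 Cut.none Ext.none :=
  certNX2 (fam := true) (s1 := true) (s2 := false) (a := 1) (b := 2) (c := 3) (cn := .npn) (n1 := ndN1q1) (n2 := ndN2q2b) (pc := pcN3) (cut := Cut.none) (xt := Ext.none) (P1 := 536870912) (W1 := 536870912) (P2 := 1239849684) (W2 := 370763052) (P3 := 1046898278) (W3 := 26843546) (N0 := 3)
    rfl (fun _ => rfl) k0_pm_123_b

noncomputable def f_pm_133 : ℕ → ℕ → ℕ → ℕ → Bool := onCell 536870912 536870912 1610612736 469762048 1046898278 26843546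
    (rowNX 3 0 true true false .dn 1 3 3 (qsf 536870912 536870912 1610612736 469762048 3) ndN1q1 ndN2q3 pcN3 Cut.none Ext.none)

def k0_pm_133 : ∃ t, chk3 f_pm_133 t 1 1 1 = true :=
  ⟨(l 4), by decide +kernel⟩

theorem c_pm_133 : CertNX 536870912 536870912 1610612736 469762048 1046898278 26843546 3 true true false .dn 1 3 3
    ndN1q1 ndN2q3 pcN3 Cut.none Ext.none :=
  certNX0 (fam := true) (s1 := true) (s2 := false) (a := 1) (b := 3) (c := 3) (cn := .dn) (n1 := ndN1q1) (n2 := ndN2q3) (pc := pcN3) (cut := Cut.none) (xt := Ext.none) (P1 := 536870912) (W1 := 536870912) (P2 := 1610612736) (W2 := 469762048) (P3 := 1046898278) (W3 := 26843546) (N0 := 3)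
    rfl k0_pm_133

noncomputable def f_pm_202_a : ℕ → ℕ → ℕ → ℕ → Bool := onCell 0 420477299 67108864 469762048 1046898278 26843546
    (rowNX 3 0 true true false .pp 2 0 2 (qsf 0 420477299 67108864 469762048 2) ndN1q2a ndN2q0 pcN2 Cut.none Ext.none)

def k0_pm_202_a : ∃ t, chk3 f_pm_202_a t 2 2 1 = true :=
  ⟨(b (b (b (a (b (a (b (c (b (l 14821592) (l 14955136)) (b (l 14752736) (l 14891048))) (l 15187184)) (b (a (c (l 14770416) (l 14851736)) (c (l 14960288) (l 14896472))) (c (l 15196016) (l 15162112)))) (c (l 15733296) (l 15696584))) (b (a (b (c (l 15076560) (l 15017248)) (a (c (l 15052320) (l 15187128)) (c (l 15298560) (l 15246832)))) (c (l 15381664) (l 15331496))) (a (c (b (l 15562760) (l 15904728)) (l 15529984)) (b (a (c (l 15497352) (l 15561008)) (l 15595136)) (a (l 15888872) (c (l 15905064) (l 15896160))))))) (b (c (a (l 16272176) (l 16229416)) (a (l 16300792) (l 16258000))) (a (l 16643720) (l 16642920)))) (a (b (l 16649336) (b (l 16680152) (l 16693688))) (b (l 16768880)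 (l 16686296)))) (b (a (b (l 16725824) (l 16765640)) (b (l 16724848) (l 16764648))) (a (l 16777120) (l 16776040)))), by decide +kernel⟩

def k1_pm_202_a : ∃ t, chk3 f_pm_202_a t 3 4 1 = true :=
  ⟨(b (a (b (a (b (c (l 15629472) (l 15654088)) (a (c (l 15805320) (l 15839056)) (l 15981496))) (b (c (l 15876264) (l 15895680)) (c (l 16175200) (l 16164224)))) (a (b (b (a (c (l 16238584) (l 16241384)) (a (l 16069696) (l 16377536))) (b (a (l 16495552) (c (l 16516976) (l 16507864))) (l 16587976))) (l 16641280)) (b (b (b (l 16364160) (l 16443000)) (a (b (l 16645600) (l 16659704)) (l 16471664))) (a (l 16630816) (b (a (l 16704472) (l 16710944)) (l 16668696)))))) (a (b (a (a (b (b (l 16223488) (l 16362760)) (l 16421360)) (b (c (l 16516128) (l 16495000)) (l 16256432))) (b (c (l 16130704) (l 16118488)) (c (l 16147536) (l 16126608)))) (b (a (c (a (l 16490224) (l 16327960)) (l 16249448)) (c (l 15983064) (l 15935336))) (a (a (b (l 16593960) (l 16745608)) (l 16468064)) (l 16124496)))) (b (b (a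 (b (a (l 15896832) (c (l 15706088) (l 15609536))) (l 15520480)) (a (b (c (l 15605976) (l 15504072)) (c (l 15411192) (l 15364112))) (b (l 15450024) (c (b (l 15289312) (l 15155768)) (l 14926720))))) (a (c (l 15690304) (l 15652472)) (c (a (l 15303624) (l 15023096)) (a (l 15251704) (l 14961008))))) (b (c (a (l 15525336) (l 14871056)) (a (l 15461168) (l 14787888))) (a (l 15752072) (l 15224392)))))) (a (b (l 16766456) (l 16683296)) (a (b (a (b (b (a (l 16715752) (l 16683824)) (l 16758224)) (l 16739896)) (b (a (b (l 16547608) (l 16620856)) (l 16354912)) (a (l 16656592) (l 16508728)))) (a (l 16695472) (l 16577248))) (b (a (b (l 16036432) (a (b (l 16420656) (l 16480824)) (l 16070704))) (c (l 15600856) (l 15500632))) (a (l 16269864) (b (b (a (l 16219904) (l 15989672)) (a (l 16268720) (l 16123872))) (l 16229536))))))), by decide +kernel⟩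

def k2_pm_202_a : ∃ t, chk3 f_pm_202_a t 3 5 1 = true :=
  ⟨(a (b (b (l 16721808) (l 16761432)) (l 16772600)) (b (a (b (l 16647344) (b (l 16692088) (l 16705512))) (b (l 16351376) (l 16216056))) (a (a (l 16766040) (l 16647688)) (l 16309192)))), by decide +kernel⟩

def k3_pm_202_a : ∃ t, chk3 f_pm_202_a t 1 3 1 = true :=
  ⟨(a (b (b (a (l 16777120) (l 16776040)) (c (l 16776592) (l 16776568))) (l 2)) (b (a (b (l 16772600) (l 16772600)) (a (l 16686552) (l 16372104))) (b (a (l 16772600) (a (l 16707520) (l 16393072))) (l 2)))), by decide +kernel⟩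

theorem s4_pm_202_a : ∃ t, chk3 f_pm_202_a t 3 2 1 = true := ex3_b k1_pm_202_a k2_pm_202_a

theorem s5_pm_202_a : ∃ t, chk3 f_pm_202_a t 1 2 1 = true := ex3_a k0_pm_202_a s4_pm_202_a

theorem s6_pm_202_a : ∃ t, chk3 f_pm_202_a t 1 1 1 = true := ex3_b s5_pm_202_a k3_pm_202_a

theorem c_pm_202_a : CertNX 0 420477299 67108864 469762048 1046898278 26843546 3 true true false .pp 2 0 2
    ndN1q2a ndN2q0 pcN2 Cut.none Ext.none :=
  certNX0 (fam := true) (s1 := true) (s2 := false) (a := 2) (b := 0) (c := 2) (cn := .pp) (n1 := ndN1q2a) (n2 := ndN2q0) (pc := pcN2) (cut := Cut.none) (xt := Ext.none) (P1 := 0) (W1 := 420477299) (P2 := 67108864) (W2 := 469762048) (P3 := 1046898278) (W3 := 26843546) (N0 := 3)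
    rfl s6_pm_202_a

noncomputable def f_pm_202_b : ℕ → ℕ → ℕ → ℕ → Bool := onCell 1073741824 536870912 67108864 469762048 1046898278 26843546
    (rowNX 3 2 true true false .pp 2 0 2 (qsf 1239849684 370763052 67108864 469762048 2) ndN1q2b ndN2q0 pcN2 Cut.none Ext.none)

def k0_pm_202_b : ∃ t, chk3 f_pm_202_b t 1 1 1 = true :=
  ⟨(a (a (l 1) (b (a (l 1) (b (b (a (a (l 1) (b (b (b (l 276518144951) (l 1)) (l 1)) (l 1))) (b (b (c (a (a (l 14853264) (l 15039656)) (l 15039672)) (l 14746216)) (c (l 403757889991) (l 15571216))) (b (b (c (l 16184712) (l 16229008)) (l 1)) (l 1)))) (l 1)) (l 1))) (l 1))) (b (b (a (b (b (a (b (c (l 15039672) (l 14976328)) (c (l 15734312) (l 15697640))) (a (b (l 15009960) (l 15714928)) (l 15152744))) (a (b (b (c (l 16249216) (l 16230664)) (c (l 16466800) (l 16521768))) (l 551399556407)) (b (b (l 16239144) (l 16545280)) (l 16645144)))) (a (a (b (l 16774976) (l 1)) (l 227129479655)) (b (l 16771496) (l 16687384)))) (b (b (a (b (l 15009920) (l 15715048))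 (l 15236632)) (a (b (l 16391448) (l 16643792)) (l 16413232))) (a (l 16735584) (l 16735584)))) (a (a (l 1) (b (a (l 373695292215) (l 16745760)) (l 1))) (a (b (c (l 16746600) (l 16745528)) (l 16776896)) (b (l 16746064) (l 16777216))))) (a (l 1) (b (a (b (a (l 1) (l 16760352)) (l 1)) (b (l 16776728) (a (l 1) (l 16768696)))) (l 1))))), by decide +kernel⟩

theorem c_pm_202_b : CertNX 1239849684 370763052 67108864 469762048 1046898278 26843546 3 true true false .pp 2 0 2
    ndN1q2b ndN2q0 pcN2 Cut.none Ext.none :=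
  certNX2 (fam := true) (s1 := true) (s2 := false) (a := 2) (b := 0) (c := 2) (cn := .pp) (n1 := ndN1q2b) (n2 := ndN2q0) (pc := pcN2) (cut := Cut.none) (xt := Ext.none) (P1 := 1239849684) (W1 := 370763052) (P2 := 67108864) (W2 := 469762048) (P3 := 1046898278) (W3 := 26843546) (N0 := 3)
    rfl (fun _ => rfl) k0_pm_202_b

noncomputable def f_pm_203_a : ℕ → ℕ → ℕ → ℕ → Bool := onCell 0 420477299 1610612736 536870912 1046898278 26843546
    (rowNX 3 1 true true false .up 2 0 3 (qsf 0 420477299 67108864 469762048 3) ndN1q2a ndN2q0 pcN3 Cut.none Ext.none)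

def k0_pm_203_a : ∃ t, chk3 f_pm_203_a t 1 1 1 = true :=
  ⟨(b (b (a (b (c (l 16776592) (l 16776568)) (c (l 16776592) (l 16776568))) (a (b (l 16772600) (l 16772600)) (a (b (l 16707520) (l 16707520)) (b (l 16393072) (l 16393072))))) (b (a (c (l 16776592) (l 16776568)) (a (l 16772600) (l 2))) (l 2))) (l 2)), by decide +kernel⟩

theorem c_pm_203_a : CertNX 0 420477299 67108864 469762048 1046898278 26843546 3 true true false .up 2 0 3
    ndN1q2a ndN2q0 pcN3 Cut.none Ext.none :=
  certNX1 (fam := true) (s1 := true) (s2 := false) (a := 2) (b := 0) (c := 3) (cn := .up) (n1 := ndN1q2a) (n2 := ndN2q0) (pc := pcN3) (cut := Cut.none) (xt := Ext.none) (P1 := 0) (W1 := 420477299) (P2 := 67108864) (W2 := 469762048) (P3 := 1046898278) (W3 := 26843546) (N0 := 3)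
    rfl (fun _ => rfl) k0_pm_203_a

noncomputable def f_pm_203_b : ℕ → ℕ → ℕ → ℕ → Bool := onCell 1610612736 536870912 67108864 469762048 1046898278 26843546
    (rowNX 3 2 true true false .up 2 0 3 (qsf 1239849684 370763052 67108864 469762048 3) ndN1q2b ndN2q0 pcN3 Cut.none Ext.none)

def k0_pm_203_b : ∃ t, chk3 f_pm_203_b t 1 1 1 = true :=
  ⟨(a (b (b (b (a (b (a (l 15236632) (l 15131776)) (a (l 16518088) (c (l 16522528) (l 16513584)))) (l 2)) (a (a (l 16735584) (l 16735584)) (a (a (l 16735584) (l 4)) (l 2)))) (a (a (b (l 16746064) (l 16777216)) (b (l 16746064) (l 16777216))) (l 4))) (a (a (b (l 305513098983) (a (l 1) (b (l 16774376) (l 1)))) (b (a (l 16777216) (l 4)) (l 4))) (l 4))) (l 4)), by decide +kernel⟩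

theorem c_pm_203_b : CertNX 1239849684 370763052 67108864 469762048 1046898278 26843546 3 true true false .up 2 0 3
    ndN1q2b ndN2q0 pcN3 Cut.none Ext.none :=
  certNX2 (fam := true) (s1 := true) (s2 := false) (a := 2) (b := 0) (c := 3) (cn := .up) (n1 := ndN1q2b) (n2 := ndN2q0) (pc := pcN3) (cut := Cut.none) (xt := Ext.none) (P1 := 1239849684) (W1 := 370763052) (P2 := 67108864) (W2 := 469762048) (P3 := 1046898278) (W3 := 26843546) (N0 := 3)
    rfl (fun _ => rfl) k0_pm_203_b

noncomputable def f_pm_213_a : ℕ → ℕ → ℕ → ℕ → Bool := onCell 0 420477299 1610612736 536870912 1046898278 26843546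
    (rowNX 3 1 true true false .pnn 2 1 3 (qsf 0 420477299 536870912 536870912 3) ndN1q2a ndN2q1 pcN3 Cut.none Ext.none)

def k0_pm_213_a : ∃ t, chk3 f_pm_213_a t 1 1 1 = true :=
  ⟨(b (a (b (l 1) (b (c (l 16776592) (l 16776568)) (l 4))) (b (a (b (l 1) (l 16772600)) (a (b (l 1) (l 16707520)) (b (l 16393072) (l 16393072)))) (a (b (l 71437370615) (c (l 16772680) (l 16772528))) (b (a (l 16707520) (l 16393072)) (a (c (l 16708728) (l 16706320)) (l 16393072)))))) (b (a (l 4) (a (l 4) (b (c (a (l 16708728) (l 16399736)) (a (l 16706320) (l 16386440))) (l 4)))) (l 4))), by decide +kernel⟩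

theorem c_pm_213_a : CertNX 0 420477299 536870912 536870912 1046898278 26843546 3 true true false .pnn 2 1 3
    ndN1q2a ndN2q1 pcN3 Cut.none Ext.none :=
  certNX1 (fam := true) (s1 := true) (s2 := false) (a := 2) (b := 1) (c := 3) (cn := .pnn) (n1 := ndN1q2a) (n2 := ndN2q1) (pc := pcN3) (cut := Cut.none) (xt := Ext.none) (P1 := 0) (W1 := 420477299) (P2 := 536870912) (W2 := 536870912) (P3 := 1046898278) (W3 := 26843546) (N0 := 3)
    rfl (fun _ => rfl) k0_pm_213_a

noncomputable def f_pm_213_b : ℕ → ℕ → ℕ → ℕ → Bool := onCell 1239849684 370763052 536870912 536870912 1046898278 26843546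
    (rowNX 3 0 true true false .pnn 2 1 3 (qsf 1239849684 370763052 536870912 536870912 3) ndN1q2b ndN2q1 pcN3 Cut.none Ext.none)

def k0_pm_213_b : ∃ t, chk3 f_pm_213_b t 1 1 1 = true :=
  ⟨(l 4), by decide +kernel⟩

theorem c_pm_213_b : CertNX 1239849684 370763052 536870912 536870912 1046898278 26843546 3 true true false .pnn 2 1 3
    ndN1q2b ndN2q1 pcN3 Cut.none Ext.none :=
  certNX0 (fam := true) (s1 := true) (s2 := false) (a := 2) (b := 1) (c := 3) (cn := .pnn) (n1 := ndN1q2b) (n2 := ndN2q1) (pc := pcN3) (cut := Cut.none) (xt := Ext.none) (P1 := 1239849684) (W1 := 370763052) (P2 := 536870912) (W2 := 536870912) (P3 := 1046898278) (W3 := 26843546) (N0 := 3)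
    rfl k0_pm_213_b

noncomputable def f_pm_303 : ℕ → ℕ → ℕ → ℕ → Bool := onCell 1610612736 536870912 67108864 469762048 1046898278 26843546
    (rowNX 3 2 true true false .npn 3 0 3 (qsf 1610612736 469762048 67108864 469762048 3) ndN1q3 ndN2q0 pcN3 Cut.none Ext.none)

def k0_pm_303 : ∃ t, chk3 f_pm_303 t 1 1 1 = true :=
  ⟨(a (b (a (b (b (b (a (l 15257600) (l 15131776)) (a (l 1) (l 205117326103))) (a (l 1) (l 16735584))) (l 1)) (a (a (b (b (b (l 15362456) (l 16518088)) (l 16735584)) (l 1)) (l 4)) (l 4))) (l 1)) (l 4)), by decide +kernel⟩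

theorem c_pm_303 : CertNX 1610612736 469762048 67108864 469762048 1046898278 26843546 3 true true false .npn 3 0 3
    ndN1q3 ndN2q0 pcN3 Cut.none Ext.none :=
  certNX2 (fam := true) (s1 := true) (s2 := false) (a := 3) (b := 0) (c := 3) (cn := .npn) (n1 := ndN1q3) (n2 := ndN2q0) (pc := pcN3) (cut := Cut.none) (xt := Ext.none) (P1 := 1610612736) (W1 := 469762048) (P2 := 67108864) (W2 := 469762048) (P3 := 1046898278) (W3 := 26843546) (N0 := 3)
    rfl (fun _ => rfl) k0_pm_303

noncomputable def f_pm_313 : ℕ → ℕ → ℕ → ℕ → Bool := onCell 1610612736 469762048 536870912 536870912 1046898278 26843546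
    (rowNX 3 0 true true false .dn 3 1 3 (qsf 1610612736 469762048 536870912 536870912 3) ndN1q3 ndN2q1 pcN3 Cut.none Ext.none)

def k0_pm_313 : ∃ t, chk3 f_pm_313 t 1 1 1 = true :=
  ⟨(l 4), by decide +kernel⟩

theorem c_pm_313 : CertNX 1610612736 469762048 536870912 536870912 1046898278 26843546 3 true true false .dn 3 1 3
    ndN1q3 ndN2q1 pcN3 Cut.none Ext.none :=
  certNX0 (fam := true) (s1 := true) (s2 := false) (a := 3) (b := 1) (c := 3) (cn := .dn) (n1 := ndN1q3) (n2 := ndN2q1) (pc := pcN3) (cut := Cut.none) (xt := Ext.none) (P1 := 1610612736) (W1 := 469762048) (P2 := 536870912) (W2 := 536870912) (P3 := 1046898278) (W3 := 26843546) (N0 := 3)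
    rfl k0_pm_313

noncomputable def f_mm_001 : ℕ → ℕ → ℕ → ℕ → Bool := onCell 67108864 469762048 67108864 469762048 1046898278 26843546
    (rowNX 3 0 true false false .up 0 0 1 (qsf 67108864 469762048 67108864 469762048 1) ndN1q0 ndN2q0 pcN1 Cut.none Ext.none)

def k0_mm_001 : ∃ t, chk3 f_mm_001 t 1 1 1 = true :=
  ⟨(l 4), by decide +kernel⟩

theorem c_mm_001 : CertNX 67108864 469762048 67108864 469762048 1046898278 26843546 3 true false false .up 0 0 1
    ndN1q0 ndN2q0 pcN1 Cut.none Ext.none :=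
  certNX0 (fam := true) (s1 := false) (s2 := false) (a := 0) (b := 0) (c := 1) (cn := .up) (n1 := ndN1q0) (n2 := ndN2q0) (pc := pcN1) (cut := Cut.none) (xt := Ext.none) (P1 := 67108864) (W1 := 469762048) (P2 := 67108864) (W2 := 469762048) (P3 := 1046898278) (W3 := 26843546) (N0 := 3)
    rfl k0_mm_001

noncomputable def f_mm_011 : ℕ → ℕ → ℕ → ℕ → Bool := onCell 67108864 469762048 536870912 536870912 1046898278 26843546
    (rowNX 3 0 true false false .pnn 0 1 1 (qsf 67108864 469762048 536870912 536870912 1) ndN1q0 ndN2q1 pcN1 Cut.none Ext.none)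

def k0_mm_011 : ∃ t, chk3 f_mm_011 t 1 1 1 = true :=
  ⟨(l 4), by decide +kernel⟩

theorem c_mm_011 : CertNX 67108864 469762048 536870912 536870912 1046898278 26843546 3 true false false .pnn 0 1 1
    ndN1q0 ndN2q1 pcN1 Cut.none Ext.none :=
  certNX0 (fam := true) (s1 := false) (s2 := false) (a := 0) (b := 1) (c := 1) (cn := .pnn) (n1 := ndN1q0) (n2 := ndN2q1) (pc := pcN1) (cut := Cut.none) (xt := Ext.none) (P1 := 67108864) (W1 := 469762048) (P2 := 536870912) (W2 := 536870912) (P3 := 1046898278) (W3 := 26843546) (N0 := 3)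
    rfl k0_mm_011

noncomputable def f_mm_012 : ℕ → ℕ → ℕ → ℕ → Bool := onCell 67108864 469762048 536870912 536870912 1046898278 26843546
    (rowNX 3 0 true false false .pnp 0 1 2 (qsf 67108864 469762048 536870912 536870912 2) ndN1q0 ndN2q1 pcN2 Cut.none Ext.none)

def k0_mm_012 : ∃ t, chk3 f_mm_012 t 1 1 1 = true :=
  ⟨(l 4), by decide +kernel⟩

theorem c_mm_012 : CertNX 67108864 469762048 536870912 536870912 1046898278 26843546 3 true false false .pnp 0 1 2
    ndN1q0 ndN2q1 pcN2 Cut.none Ext.none :=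
  certNX0 (fam := true) (s1 := false) (s2 := false) (a := 0) (b := 1) (c := 2) (cn := .pnp) (n1 := ndN1q0) (n2 := ndN2q1) (pc := pcN2) (cut := Cut.none) (xt := Ext.none) (P1 := 67108864) (W1 := 469762048) (P2 := 536870912) (W2 := 536870912) (P3 := 1046898278) (W3 := 26843546) (N0 := 3)
    rfl k0_mm_012

noncomputable def f_mm_022_a : ℕ → ℕ → ℕ → ℕ → Bool := onCell 67108864 469762048 0 420477299 1046898278 26843546
    (rowNX 3 0 true false false .pp 0 2 2 (qsf 67108864 469762048 0 420477299 2) ndN1q0 ndN2q2a pcN2 Cut.none Ext.none)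

def k0_mm_022_a : ∃ t, chk3 f_mm_022_a t 1 1 1 = true :=
  ⟨(l 5), by decide +kernel⟩

theorem c_mm_022_a : CertNX 67108864 469762048 0 420477299 1046898278 26843546 3 true false false .pp 0 2 2
    ndN1q0 ndN2q2a pcN2 Cut.none Ext.none :=
  certNX0 (fam := true) (s1 := false) (s2 := false) (a := 0) (b := 2) (c := 2) (cn := .pp) (n1 := ndN1q0) (n2 := ndN2q2a) (pc := pcN2) (cut := Cut.none) (xt := Ext.none) (P1 := 67108864) (W1 := 469762048) (P2 := 0) (W2 := 420477299) (P3 := 1046898278) (W3 := 26843546) (N0 := 3)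
    rfl k0_mm_022_a

noncomputable def f_mm_022_b : ℕ → ℕ → ℕ → ℕ → Bool := onCell 67108864 469762048 1239849684 370763052 1046898278 26843546
    (rowNX 3 0 true false false .pp 0 2 2 (qsf 67108864 469762048 1239849684 370763052 2) ndN1q0 ndN2q2b pcN2 Cut.none Ext.none)

def k0_mm_022_b : ∃ t, chk3 f_mm_022_b t 1 1 1 = true :=
  ⟨(l 5), by decide +kernel⟩

theorem c_mm_022_b : CertNX 67108864 469762048 1239849684 370763052 1046898278 26843546 3 true false false .pp 0 2 2
    ndN1q0 ndN2q2b pcN2 Cut.none Ext.none :=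
  certNX0 (fam := true) (s1 := false) (s2 := false) (a := 0) (b := 2) (c := 2) (cn := .pp) (n1 := ndN1q0) (n2 := ndN2q2b) (pc := pcN2) (cut := Cut.none) (xt := Ext.none) (P1 := 67108864) (W1 := 469762048) (P2 := 1239849684) (W2 := 370763052) (P3 := 1046898278) (W3 := 26843546) (N0 := 3)
    rfl k0_mm_022_b

noncomputable def f_mm_023_a : ℕ → ℕ → ℕ → ℕ → Bool := onCell 67108864 469762048 0 420477299 1046898278 26843546
    (rowNX 3 0 true false false .up 0 2 3 (qsf 67108864 469762048 0 420477299 3) ndN1q0 ndN2q2a pcN3 Cut.none Ext.none)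

def k0_mm_023_a : ∃ t, chk3 f_mm_023_a t 1 1 1 = true :=
  ⟨(l 5), by decide +kernel⟩

theorem c_mm_023_a : CertNX 67108864 469762048 0 420477299 1046898278 26843546 3 true false false .up 0 2 3
    ndN1q0 ndN2q2a pcN3 Cut.none Ext.none :=
  certNX0 (fam := true) (s1 := false) (s2 := false) (a := 0) (b := 2) (c := 3) (cn := .up) (n1 := ndN1q0) (n2 := ndN2q2a) (pc := pcN3) (cut := Cut.none) (xt := Ext.none) (P1 := 67108864) (W1 := 469762048) (P2 := 0) (W2 := 420477299) (P3 := 1046898278) (W3 := 26843546) (N0 := 3)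
    rfl k0_mm_023_a

noncomputable def f_mm_023_b : ℕ → ℕ → ℕ → ℕ → Bool := onCell 67108864 469762048 1239849684 370763052 1046898278 26843546
    (rowNX 3 0 true false false .up 0 2 3 (qsf 67108864 469762048 1239849684 370763052 3) ndN1q0 ndN2q2b pcN3 Cut.none Ext.none)

def k0_mm_023_b : ∃ t, chk3 f_mm_023_b t 1 1 1 = true :=
  ⟨(l 5), by decide +kernel⟩

theorem c_mm_023_b : CertNX 67108864 469762048 1239849684 370763052 1046898278 26843546 3 true false false .up 0 2 3
    ndN1q0 ndN2q2b pcN3 Cut.none Ext.none :=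
  certNX0 (fam := true) (s1 := false) (s2 := false) (a := 0) (b := 2) (c := 3) (cn := .up) (n1 := ndN1q0) (n2 := ndN2q2b) (pc := pcN3) (cut := Cut.none) (xt := Ext.none) (P1 := 67108864) (W1 := 469762048) (P2 := 1239849684) (W2 := 370763052) (P3 := 1046898278) (W3 := 26843546) (N0 := 3)
    rfl k0_mm_023_b

noncomputable def f_mm_033 : ℕ → ℕ → ℕ → ℕ → Bool := onCell 67108864 469762048 1610612736 469762048 1046898278 26843546
    (rowNX 3 0 true false false .pnn 0 3 3 (qsf 67108864 469762048 1610612736 469762048 3) ndN1q0 ndN2q3 pcN3 Cut.none Ext.none)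

def k0_mm_033 : ∃ t, chk3 f_mm_033 t 1 1 1 = true :=
  ⟨(l 4), by decide +kernel⟩

theorem c_mm_033 : CertNX 67108864 469762048 1610612736 469762048 1046898278 26843546 3 true false false .pnn 0 3 3
    ndN1q0 ndN2q3 pcN3 Cut.none Ext.none :=
  certNX0 (fam := true) (s1 := false) (s2 := false) (a := 0) (b := 3) (c := 3) (cn := .pnn) (n1 := ndN1q0) (n2 := ndN2q3) (pc := pcN3) (cut := Cut.none) (xt := Ext.none) (P1 := 67108864) (W1 := 469762048) (P2 := 1610612736) (W2 := 469762048) (P3 := 1046898278) (W3 := 26843546) (N0 := 3)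
    rfl k0_mm_033

noncomputable def f_mm_101 : ℕ → ℕ → ℕ → ℕ → Bool := onCell 536870912 536870912 67108864 469762048 1046898278 26843546
    (rowNX 3 0 true false false .npn 1 0 1 (qsf 536870912 536870912 67108864 469762048 1) ndN1q1 ndN2q0 pcN1 Cut.none Ext.none)

def k0_mm_101 : ∃ t, chk3 f_mm_101 t 1 1 1 = true :=
  ⟨(l 4), by decide +kernel⟩

theorem c_mm_101 : CertNX 536870912 536870912 67108864 469762048 1046898278 26843546 3 true false false .npn 1 0 1
    ndN1q1 ndN2q0 pcN1 Cut.none Ext.none :=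
  certNX0 (fam := true) (s1 := false) (s2 := false) (a := 1) (b := 0) (c := 1) (cn := .npn) (n1 := ndN1q1) (n2 := ndN2q0) (pc := pcN1) (cut := Cut.none) (xt := Ext.none) (P1 := 536870912) (W1 := 536870912) (P2 := 67108864) (W2 := 469762048) (P3 := 1046898278) (W3 := 26843546) (N0 := 3)
    rfl k0_mm_101

noncomputable def f_mm_102 : ℕ → ℕ → ℕ → ℕ → Bool := onCell 536870912 536870912 67108864 469762048 1046898278 26843546
    (rowNX 3 0 true false false .npp 1 0 2 (qsf 536870912 536870912 67108864 469762048 2) ndN1q1 ndN2q0 pcN2 Cut.none Ext.none)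

def k0_mm_102 : ∃ t, chk3 f_mm_102 t 1 1 1 = true :=
  ⟨(l 4), by decide +kernel⟩

theorem c_mm_102 : CertNX 536870912 536870912 67108864 469762048 1046898278 26843546 3 true false false .npp 1 0 2
    ndN1q1 ndN2q0 pcN2 Cut.none Ext.none :=
  certNX0 (fam := true) (s1 := false) (s2 := false) (a := 1) (b := 0) (c := 2) (cn := .npp) (n1 := ndN1q1) (n2 := ndN2q0) (pc := pcN2) (cut := Cut.none) (xt := Ext.none) (P1 := 536870912) (W1 := 536870912) (P2 := 67108864) (W2 := 469762048) (P3 := 1046898278) (W3 := 26843546) (N0 := 3)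
    rfl k0_mm_102

noncomputable def f_mm_112 : ℕ → ℕ → ℕ → ℕ → Bool := onCell 536870912 536870912 536870912 536870912 1046898278 26843546
    (rowNX 3 0 true false false .dn 1 1 2 (qsf 536870912 536870912 536870912 536870912 2) ndN1q1 ndN2q1 pcN2 Cut.none Ext.none)

def k0_mm_112 : ∃ t, chk3 f_mm_112 t 1 1 1 = true :=
  ⟨(l 4), by decide +kernel⟩

theorem c_mm_112 : CertNX 536870912 536870912 536870912 536870912 1046898278 26843546 3 true false false .dn 1 1 2
    ndN1q1 ndN2q1 pcN2 Cut.none Ext.none :=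
  certNX0 (fam := true) (s1 := false) (s2 := false) (a := 1) (b := 1) (c := 2) (cn := .dn) (n1 := ndN1q1) (n2 := ndN2q1) (pc := pcN2) (cut := Cut.none) (xt := Ext.none) (P1 := 536870912) (W1 := 536870912) (P2 := 536870912) (W2 := 536870912) (P3 := 1046898278) (W3 := 26843546) (N0 := 3)
    rfl k0_mm_112

noncomputable def f_mm_113 : ℕ → ℕ → ℕ → ℕ → Bool := onCell 536870912 536870912 536870912 536870912 1046898278 26843546
    (rowNX 3 0 true false false .nn 1 1 3 (qsf 536870912 536870912 536870912 536870912 3) ndN1q1 ndN2q1 pcN3 Cut.none Ext.none)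

def k0_mm_113 : ∃ t, chk3 f_mm_113 t 1 1 1 = true :=
  ⟨(l 4), by decide +kernel⟩

theorem c_mm_113 : CertNX 536870912 536870912 536870912 536870912 1046898278 26843546 3 true false false .nn 1 1 3
    ndN1q1 ndN2q1 pcN3 Cut.none Ext.none :=
  certNX0 (fam := true) (s1 := false) (s2 := false) (a := 1) (b := 1) (c := 3) (cn := .nn) (n1 := ndN1q1) (n2 := ndN2q1) (pc := pcN3) (cut := Cut.none) (xt := Ext.none) (P1 := 536870912) (W1 := 536870912) (P2 := 536870912) (W2 := 536870912) (P3 := 1046898278) (W3 := 26843546) (N0 := 3)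
    rfl k0_mm_113

noncomputable def f_mm_123_a : ℕ → ℕ → ℕ → ℕ → Bool := onCell 536870912 536870912 0 420477299 1046898278 26843546
    (rowNX 3 0 true false false .npn 1 2 3 (qsf 536870912 536870912 0 420477299 3) ndN1q1 ndN2q2a pcN3 Cut.none Ext.none)

def k0_mm_123_a : ∃ t, chk3 f_mm_123_a t 1 1 1 = true :=
  ⟨(l 4), by decide +kernel⟩

theorem c_mm_123_a : CertNX 536870912 536870912 0 420477299 1046898278 26843546 3 true false false .npn 1 2 3
    ndN1q1 ndN2q2a pcN3 Cut.none Ext.none :=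
  certNX0 (fam := true) (s1 := false) (s2 := false) (a := 1) (b := 2) (c := 3) (cn := .npn) (n1 := ndN1q1) (n2 := ndN2q2a) (pc := pcN3) (cut := Cut.none) (xt := Ext.none) (P1 := 536870912) (W1 := 536870912) (P2 := 0) (W2 := 420477299) (P3 := 1046898278) (W3 := 26843546) (N0 := 3)
    rfl k0_mm_123_a

noncomputable def f_mm_123_b : ℕ → ℕ → ℕ → ℕ → Bool := onCell 536870912 536870912 1239849684 370763052 1046898278 26843546
    (rowNX 3 0 true false false .npn 1 2 3 (qsf 536870912 536870912 1239849684 370763052 3) ndN1q1 ndN2q2b pcN3 Cut.none Ext.none)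

def k0_mm_123_b : ∃ t, chk3 f_mm_123_b t 1 1 1 = true :=
  ⟨(l 4), by decide +kernel⟩

theorem c_mm_123_b : CertNX 536870912 536870912 1239849684 370763052 1046898278 26843546 3 true false false .npn 1 2 3
    ndN1q1 ndN2q2b pcN3 Cut.none Ext.none :=
  certNX0 (fam := true) (s1 := false) (s2 := false) (a := 1) (b := 2) (c := 3) (cn := .npn) (n1 := ndN1q1) (n2 := ndN2q2b) (pc := pcN3) (cut := Cut.none) (xt := Ext.none) (P1 := 536870912) (W1 := 536870912) (P2 := 1239849684) (W2 := 370763052) (P3 := 1046898278) (W3 := 26843546) (N0 := 3)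
    rfl k0_mm_123_b

noncomputable def f_mm_133 : ℕ → ℕ → ℕ → ℕ → Bool := onCell 536870912 536870912 1610612736 469762048 1046898278 26843546
    (rowNX 3 0 true false false .dn 1 3 3 (qsf 536870912 536870912 1610612736 469762048 3) ndN1q1 ndN2q3 pcN3 Cut.none Ext.none)

def k0_mm_133 : ∃ t, chk3 f_mm_133 t 1 1 1 = true :=
  ⟨(l 4), by decide +kernel⟩

theorem c_mm_133 : CertNX 536870912 536870912 1610612736 469762048 1046898278 26843546 3 true false false .dn 1 3 3
    ndN1q1 ndN2q3 pcN3 Cut.none Ext.none :=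
  certNX0 (fam := true) (s1 := false) (s2 := false) (a := 1) (b := 3) (c := 3) (cn := .dn) (n1 := ndN1q1) (n2 := ndN2q3) (pc := pcN3) (cut := Cut.none) (xt := Ext.none) (P1 := 536870912) (W1 := 536870912) (P2 := 1610612736) (W2 := 469762048) (P3 := 1046898278) (W3 := 26843546) (N0 := 3)
    rfl k0_mm_133

noncomputable def f_mm_202_a : ℕ → ℕ → ℕ → ℕ → Bool := onCell 0 420477299 67108864 469762048 1046898278 26843546
    (rowNX 3 0 true false false .pp 2 0 2 (qsf 0 420477299 67108864 469762048 2) ndN1q2a ndN2q0 pcN2 Cut.none Ext.none)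

def k0_mm_202_a : ∃ t, chk3 f_mm_202_a t 1 2 1 = true :=
  ⟨(b (a (b (b (a (b (a (c (b (l 15351248) (l 15675032)) (l 15363416)) (b (c (l 15504320) (l 15462016)) (l 15596584))) (b (l 15887816) (c (l 16391144) (l 16379848)))) (b (a (b (l 15577128) (c (l 15843720) (l 15881456))) (c (l 15886800) (l 15905312))) (a (c (b (l 16226264) (l 16580856)) (l 16164496)) (b (a (b (l 16262088) (l 16387736)) (l 16347968)) (c (l 16339664) (l 16333664)))))) (b (a (c (l 16447728) (l 16462376)) (c (b (l 16370312) (l 16245736)) (b (l 16358240) (l 16226768)))) (a (l 16462104) (l 16169960)))) (a (b (l 16445568) (b (l 16550192) (l 16656800))) (b (c (l 16098408) (l 16039912)) (a (b (l 16452824) (l 16582224)) (b (l 16309952) (l 4)))))) (b (a (b (a (b (b (c (l 16149336) (l 16153800)) (c (l 16415824) (l 16408928))) (a (c (l 16321056) (l 16334120)) (c (l 16333776) (l 16321168)))) (b (b (c (l 16285968) (l 16279312)) (c (l 16400384) (l 16372768))) (c (a (l 16240200) (l 16130144)) (a (l 16222960) (l 16108528)))))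 (a (b (b (a (c (l 16190784) (l 16170288)) (c (l 16076064) (l 16051304))) (b (c (l 15904976) (l 15939728)) (l 15933688))) (l 15865840)) (b (b (c (l 15905744) (l 15874728)) (a (b (c (l 15816360) (l 15782032)) (a (l 15790128) (l 4))) (l 4))) (l 4)))) (b (a (b (a (c (b (l 16470888) (l 16323456)) (b (l 16466080) (l 16310616))) (c (b (l 16453872) (l 16307704)) (l 16142424))) (a (c (l 15963736) (l 15980736)) (l 4))) (l 4)) (l 4))) (a (b (a (b (l 16043856) (l 4)) (l 4)) (l 4)) (l 4)))) (a (b (a (b (c (l 16726352) (l 16724752)) (c (l 16766024) (l 16765632))) (b (a (b (l 16703480) (l 4)) (l 4)) (l 4))) (a (c (l 16777120) (l 16777112)) (l 4))) (l 4))), by decide +kernel⟩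

def k1_mm_202_a : ∃ t, chk3 f_mm_202_a t 1 3 1 = true :=
  ⟨(l 4), by decide +kernel⟩

theorem s2_mm_202_a : ∃ t, chk3 f_mm_202_a t 1 1 1 = true := ex3_b k0_mm_202_a k1_mm_202_a

theorem c_mm_202_a : CertNX 0 420477299 67108864 469762048 1046898278 26843546 3 true false false .pp 2 0 2
    ndN1q2a ndN2q0 pcN2 Cut.none Ext.none :=
  certNX0 (fam := true) (s1 := false) (s2 := false) (a := 2) (b := 0) (c := 2) (cn := .pp) (n1 := ndN1q2a) (n2 := ndN2q0) (pc := pcN2) (cut := Cut.none) (xt := Ext.none) (P1 := 0) (W1 := 420477299) (P2 := 67108864) (W2 := 469762048) (P3 := 1046898278) (W3 := 26843546) (N0 := 3)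
    rfl s2_mm_202_a

noncomputable def f_mm_202_b : ℕ → ℕ → ℕ → ℕ → Bool := onCell 1073741824 536870912 67108864 469762048 1046898278 26843546
    (rowNX 3 2 true false false .pp 2 0 2 (qsf 1239849684 370763052 67108864 469762048 2) ndN1q2b ndN2q0 pcN2 Cut.none Ext.none)

def k0_mm_202_b : ∃ t, chk3 f_mm_202_b t 1 1 1 = true :=
  ⟨(a (a (l 1) (b (b (a (l 1) (b (b (a (b (c (a (l 1) (l 15539816)) (l 301215471607)) (l 1)) (b (c (l 15309752) (l 15366176)) (c (l 15965752) (l 16007728)))) (a (l 1) (b (c (l 619044883543) (l 610454939143)) (l 1)))) (l 1))) (l 1)) (l 1))) (b (a (b (b (b (a (b (c (a (l 15305144) (l 15176912)) (l 15146384)) (c (l 15718200) (l 15774216))) (c (b (l 15047456) (l 15741552)) (a (l 15222632) (l 15332472)))) (a (b (c (a (l 16485072) (l 16529408)) (b (l 16462072) (l 16553024))) (l 315712865927)) (a (b (c (l 16414552) (l 16401920)) (l 16661328)) (c (l 16354760) (l 16450672))))) (a (a (b (l 16440984) (l 1)) (b (l 16608264) (l 16508648))) (a (b (l 16762680) (l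 16686936)) (l 16672664)))) (a (l 1) (b (a (a (l 430066665303) (l 286722329959)) (c (l 16746888) (l 16745848))) (l 1)))) (b (b (b (a (c (b (l 15039672) (l 15733376)) (l 15332472)) (c (l 15365040) (l 15332472))) (a (b (c (l 16377104) (l 16384752)) (l 16643792)) (c (l 16522528) (l 16513584)))) (a (c (l 16736320) (l 16734880)) (c (l 16736320) (l 16734880)))) (a (b (c (l 16746608) (l 16745536)) (a (l 514892711991) (l 4))) (l 4)))) (a (l 1) (a (a (l 1) (l 4)) (l 4))))), by decide +kernel⟩

theorem c_mm_202_b : CertNX 1239849684 370763052 67108864 469762048 1046898278 26843546 3 true false false .pp 2 0 2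
    ndN1q2b ndN2q0 pcN2 Cut.none Ext.none :=
  certNX2 (fam := true) (s1 := false) (s2 := false) (a := 2) (b := 0) (c := 2) (cn := .pp) (n1 := ndN1q2b) (n2 := ndN2q0) (pc := pcN2) (cut := Cut.none) (xt := Ext.none) (P1 := 1239849684) (W1 := 370763052) (P2 := 67108864) (W2 := 469762048) (P3 := 1046898278) (W3 := 26843546) (N0 := 3)
    rfl (fun _ => rfl) k0_mm_202_b

noncomputable def f_mm_203_a : ℕ → ℕ → ℕ → ℕ → Bool := onCell 0 420477299 1610612736 536870912 1046898278 26843546
    (rowNX 3 1 true false false .up 2 0 3 (qsf 0 420477299 67108864 469762048 3) ndN1q2a ndN2q0 pcN3 Cut.none Ext.none)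

def k0_mm_203_a : ∃ t, chk3 f_mm_203_a t 1 1 1 = true :=
  ⟨(l 4), by decide +kernel⟩

theorem c_mm_203_a : CertNX 0 420477299 67108864 469762048 1046898278 26843546 3 true false false .up 2 0 3
    ndN1q2a ndN2q0 pcN3 Cut.none Ext.none :=
  certNX1 (fam := true) (s1 := false) (s2 := false) (a := 2) (b := 0) (c := 3) (cn := .up) (n1 := ndN1q2a) (n2 := ndN2q0) (pc := pcN3) (cut := Cut.none) (xt := Ext.none) (P1 := 0) (W1 := 420477299) (P2 := 67108864) (W2 := 469762048) (P3 := 1046898278) (W3 := 26843546) (N0 := 3)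
    rfl (fun _ => rfl) k0_mm_203_a

noncomputable def f_mm_203_b : ℕ → ℕ → ℕ → ℕ → Bool := onCell 1610612736 536870912 67108864 469762048 1046898278 26843546
    (rowNX 3 2 true false false .up 2 0 3 (qsf 1239849684 370763052 67108864 469762048 3) ndN1q2b ndN2q0 pcN3 Cut.none Ext.none)

def k0_mm_203_b : ∃ t, chk3 f_mm_203_b t 1 1 1 = true :=
  ⟨(a (b (b (b (a (a (b (c (l 15386008) (l 15332472)) (l 4)) (l 4)) (l 2)) (l 4)) (l 4)) (l 4)) (l 4)), by decide +kernel⟩

theorem c_mm_203_b : CertNX 1239849684 370763052 67108864 469762048 1046898278 26843546 3 true false false .up 2 0 3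
    ndN1q2b ndN2q0 pcN3 Cut.none Ext.none :=
  certNX2 (fam := true) (s1 := false) (s2 := false) (a := 2) (b := 0) (c := 3) (cn := .up) (n1 := ndN1q2b) (n2 := ndN2q0) (pc := pcN3) (cut := Cut.none) (xt := Ext.none) (P1 := 1239849684) (W1 := 370763052) (P2 := 67108864) (W2 := 469762048) (P3 := 1046898278) (W3 := 26843546) (N0 := 3)
    rfl (fun _ => rfl) k0_mm_203_b

noncomputable def f_mm_213_a : ℕ → ℕ → ℕ → ℕ → Bool := onCell 0 420477299 536870912 536870912 1046898278 26843546
    (rowNX 3 0 true false false .pnn 2 1 3 (qsf 0 420477299 536870912 536870912 3) ndN1q2a ndN2q1 pcN3 Cut.none Ext.none)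

def k0_mm_213_a : ∃ t, chk3 f_mm_213_a t 1 1 1 = true :=
  ⟨(l 4), by decide +kernel⟩

theorem c_mm_213_a : CertNX 0 420477299 536870912 536870912 1046898278 26843546 3 true false false .pnn 2 1 3
    ndN1q2a ndN2q1 pcN3 Cut.none Ext.none :=
  certNX0 (fam := true) (s1 := false) (s2 := false) (a := 2) (b := 1) (c := 3) (cn := .pnn) (n1 := ndN1q2a) (n2 := ndN2q1) (pc := pcN3) (cut := Cut.none) (xt := Ext.none) (P1 := 0) (W1 := 420477299) (P2 := 536870912) (W2 := 536870912) (P3 := 1046898278) (W3 := 26843546) (N0 := 3)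
    rfl k0_mm_213_a

noncomputable def f_mm_213_b : ℕ → ℕ → ℕ → ℕ → Bool := onCell 1239849684 370763052 536870912 536870912 1046898278 26843546
    (rowNX 3 0 true false false .pnn 2 1 3 (qsf 1239849684 370763052 536870912 536870912 3) ndN1q2b ndN2q1 pcN3 Cut.none Ext.none)

def k0_mm_213_b : ∃ t, chk3 f_mm_213_b t 1 1 1 = true :=
  ⟨(l 4), by decide +kernel⟩

theorem c_mm_213_b : CertNX 1239849684 370763052 536870912 536870912 1046898278 26843546 3 true false false .pnn 2 1 3
    ndN1q2b ndN2q1 pcN3 Cut.none Ext.none :=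
  certNX0 (fam := true) (s1 := false) (s2 := false) (a := 2) (b := 1) (c := 3) (cn := .pnn) (n1 := ndN1q2b) (n2 := ndN2q1) (pc := pcN3) (cut := Cut.none) (xt := Ext.none) (P1 := 1239849684) (W1 := 370763052) (P2 := 536870912) (W2 := 536870912) (P3 := 1046898278) (W3 := 26843546) (N0 := 3)
    rfl k0_mm_213_b

noncomputable def f_mm_303 : ℕ → ℕ → ℕ → ℕ → Bool := onCell 1610612736 469762048 67108864 469762048 1046898278 26843546
    (rowNX 3 0 true false false .npn 3 0 3 (qsf 1610612736 469762048 67108864 469762048 3) ndN1q3 ndN2q0 pcN3 Cut.none Ext.none)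

def k0_mm_303 : ∃ t, chk3 f_mm_303 t 1 1 1 = true :=
  ⟨(a (b (l 4) (l 4)) (l 4)), by decide +kernel⟩

theorem c_mm_303 : CertNX 1610612736 469762048 67108864 469762048 1046898278 26843546 3 true false false .npn 3 0 3
    ndN1q3 ndN2q0 pcN3 Cut.none Ext.none :=
  certNX0 (fam := true) (s1 := false) (s2 := false) (a := 3) (b := 0) (c := 3) (cn := .npn) (n1 := ndN1q3) (n2 := ndN2q0) (pc := pcN3) (cut := Cut.none) (xt := Ext.none) (P1 := 1610612736) (W1 := 469762048) (P2 := 67108864) (W2 := 469762048) (P3 := 1046898278) (W3 := 26843546) (N0 := 3)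
    rfl k0_mm_303

noncomputable def f_mm_313 : ℕ → ℕ → ℕ → ℕ → Bool := onCell 1610612736 469762048 536870912 536870912 1046898278 26843546
    (rowNX 3 0 true false false .dn 3 1 3 (qsf 1610612736 469762048 536870912 536870912 3) ndN1q3 ndN2q1 pcN3 Cut.none Ext.none)

def k0_mm_313 : ∃ t, chk3 f_mm_313 t 1 1 1 = true :=
  ⟨(l 4), by decide +kernel⟩

theorem c_mm_313 : CertNX 1610612736 469762048 536870912 536870912 1046898278 26843546 3 true false false .dn 3 1 3
    ndN1q3 ndN2q1 pcN3 Cut.none Ext.none :=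
  certNX0 (fam := true) (s1 := false) (s2 := false) (a := 3) (b := 1) (c := 3) (cn := .dn) (n1 := ndN1q3) (n2 := ndN2q1) (pc := pcN3) (cut := Cut.none) (xt := Ext.none) (P1 := 1610612736) (W1 := 469762048) (P2 := 536870912) (W2 := 536870912) (P3 := 1046898278) (W3 := 26843546) (N0 := 3)
    rfl k0_mm_313

end Pool.Agent.Strip051.G.IE1.Tab.C.NA12

namespace Pool.Agent.Strip051.G.IE1.Tab.C.NA13

open Pool.Agent.Strip051.PB Pool.Agent.Strip051.PB.T
open Pool.Agent.Strip051.G.IE1.Tab

noncomputable def f_pp_001 : ℕ → ℕ → ℕ → ℕ → Bool := onCell 67108864 469762048 0 536870912 1046898278 26843546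
    (rowNX 3 0 true true true .up 0 0 1 (qsf 67108864 469762048 0 536870912 1) ndN1q0 ndN3q0 pcN1 Cut.none Ext.none)

def k0_pp_001 : ∃ t, chk3 f_pp_001 t 1 1 1 = true :=
  ⟨(l 4), by decide +kernel⟩

theorem c_pp_001 : CertNX 67108864 469762048 0 536870912 1046898278 26843546 3 true true true .up 0 0 1
    ndN1q0 ndN3q0 pcN1 Cut.none Ext.none :=
  certNX0 (fam := true) (s1 := true) (s2 := true) (a := 0) (b := 0) (c := 1) (cn := .up) (n1 := ndN1q0) (n2 := ndN3q0) (pc := pcN1) (cut := Cut.none) (xt := Ext.none) (P1 := 67108864) (W1 := 469762048) (P2 := 0) (W2 := 536870912) (P3 := 1046898278) (W3 := 26843546) (N0 := 3)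
    rfl k0_pp_001

noncomputable def f_pp_011 : ℕ → ℕ → ℕ → ℕ → Bool := onCell 67108864 469762048 536870912 536870912 1046898278 26843546
    (rowNX 3 0 true true true .pnn 0 1 1 (qsf 67108864 469762048 536870912 536870912 1) ndN1q0 ndN3q1 pcN1 Cut.none Ext.none)

def k0_pp_011 : ∃ t, chk3 f_pp_011 t 1 1 1 = true :=
  ⟨(l 4), by decide +kernel⟩

theorem c_pp_011 : CertNX 67108864 469762048 536870912 536870912 1046898278 26843546 3 true true true .pnn 0 1 1
    ndN1q0 ndN3q1 pcN1 Cut.none Ext.none :=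
  certNX0 (fam := true) (s1 := true) (s2 := true) (a := 0) (b := 1) (c := 1) (cn := .pnn) (n1 := ndN1q0) (n2 := ndN3q1) (pc := pcN1) (cut := Cut.none) (xt := Ext.none) (P1 := 67108864) (W1 := 469762048) (P2 := 536870912) (W2 := 536870912) (P3 := 1046898278) (W3 := 26843546) (N0 := 3)
    rfl k0_pp_011

noncomputable def f_pp_012 : ℕ → ℕ → ℕ → ℕ → Bool := onCell 67108864 469762048 536870912 536870912 1046898278 26843546
    (rowNX 3 0 true true true .pnp 0 1 2 (qsf 67108864 469762048 536870912 536870912 2) ndN1q0 ndN3q1 pcN2 Cut.none Ext.none)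

def k0_pp_012 : ∃ t, chk3 f_pp_012 t 1 1 1 = true :=
  ⟨(l 4), by decide +kernel⟩

theorem c_pp_012 : CertNX 67108864 469762048 536870912 536870912 1046898278 26843546 3 true true true .pnp 0 1 2
    ndN1q0 ndN3q1 pcN2 Cut.none Ext.none :=
  certNX0 (fam := true) (s1 := true) (s2 := true) (a := 0) (b := 1) (c := 2) (cn := .pnp) (n1 := ndN1q0) (n2 := ndN3q1) (pc := pcN2) (cut := Cut.none) (xt := Ext.none) (P1 := 67108864) (W1 := 469762048) (P2 := 536870912) (W2 := 536870912) (P3 := 1046898278) (W3 := 26843546) (N0 := 3)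
    rfl k0_pp_012

noncomputable def f_pp_022 : ℕ → ℕ → ℕ → ℕ → Bool := onCell 67108864 469762048 1073741824 536870912 1046898278 26843546
    (rowNX 3 0 true true true .pp 0 2 2 (qsf 67108864 469762048 1073741824 536870912 2) ndN1q0 ndN3q2 pcN2 Cut.none Ext.none)

def k0_pp_022 : ∃ t, chk3 f_pp_022 t 1 1 1 = true :=
  ⟨(b (l 4) (l 4)), by decide +kernel⟩

theorem c_pp_022 : CertNX 67108864 469762048 1073741824 536870912 1046898278 26843546 3 true true true .pp 0 2 2
    ndN1q0 ndN3q2 pcN2 Cut.none Ext.none :=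
  certNX0 (fam := true) (s1 := true) (s2 := true) (a := 0) (b := 2) (c := 2) (cn := .pp) (n1 := ndN1q0) (n2 := ndN3q2) (pc := pcN2) (cut := Cut.none) (xt := Ext.none) (P1 := 67108864) (W1 := 469762048) (P2 := 1073741824) (W2 := 536870912) (P3 := 1046898278) (W3 := 26843546) (N0 := 3)
    rfl k0_pp_022

noncomputable def f_pp_023 : ℕ → ℕ → ℕ → ℕ → Bool := onCell 67108864 469762048 1610612736 536870912 1046898278 26843546
    (rowNX 3 1 true true true .up 0 2 3 (qsf 67108864 469762048 1073741824 536870912 3) ndN1q0 ndN3q2 pcN3 Cut.none Ext.none)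

def k0_pp_023 : ∃ t, chk3 f_pp_023 t 1 1 1 = true :=
  ⟨(l 4), by decide +kernel⟩

theorem c_pp_023 : CertNX 67108864 469762048 1073741824 536870912 1046898278 26843546 3 true true true .up 0 2 3
    ndN1q0 ndN3q2 pcN3 Cut.none Ext.none :=
  certNX1 (fam := true) (s1 := true) (s2 := true) (a := 0) (b := 2) (c := 3) (cn := .up) (n1 := ndN1q0) (n2 := ndN3q2) (pc := pcN3) (cut := Cut.none) (xt := Ext.none) (P1 := 67108864) (W1 := 469762048) (P2 := 1073741824) (W2 := 536870912) (P3 := 1046898278) (W3 := 26843546) (N0 := 3)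
    rfl (fun _ => rfl) k0_pp_023

noncomputable def f_pp_033 : ℕ → ℕ → ℕ → ℕ → Bool := onCell 67108864 469762048 1610612736 536870912 1046898278 26843546
    (rowNX 3 0 true true true .pnn 0 3 3 (qsf 67108864 469762048 1610612736 536870912 3) ndN1q0 ndN3q3 pcN3 Cut.none Ext.none)

def k0_pp_033 : ∃ t, chk3 f_pp_033 t 1 1 1 = true :=
  ⟨(l 4), by decide +kernel⟩

theorem c_pp_033 : CertNX 67108864 469762048 1610612736 536870912 1046898278 26843546 3 true true true .pnn 0 3 3
    ndN1q0 ndN3q3 pcN3 Cut.none Ext.none :=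
  certNX0 (fam := true) (s1 := true) (s2 := true) (a := 0) (b := 3) (c := 3) (cn := .pnn) (n1 := ndN1q0) (n2 := ndN3q3) (pc := pcN3) (cut := Cut.none) (xt := Ext.none) (P1 := 67108864) (W1 := 469762048) (P2 := 1610612736) (W2 := 536870912) (P3 := 1046898278) (W3 := 26843546) (N0 := 3)
    rfl k0_pp_033

noncomputable def f_pp_101 : ℕ → ℕ → ℕ → ℕ → Bool := onCell 536870912 536870912 0 536870912 1046898278 26843546
    (rowNX 3 0 true true true .npn 1 0 1 (qsf 536870912 536870912 0 536870912 1) ndN1q1 ndN3q0 pcN1 Cut.none Ext.none)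

def k0_pp_101 : ∃ t, chk3 f_pp_101 t 1 1 1 = true :=
  ⟨(l 4), by decide +kernel⟩

theorem c_pp_101 : CertNX 536870912 536870912 0 536870912 1046898278 26843546 3 true true true .npn 1 0 1
    ndN1q1 ndN3q0 pcN1 Cut.none Ext.none :=
  certNX0 (fam := true) (s1 := true) (s2 := true) (a := 1) (b := 0) (c := 1) (cn := .npn) (n1 := ndN1q1) (n2 := ndN3q0) (pc := pcN1) (cut := Cut.none) (xt := Ext.none) (P1 := 536870912) (W1 := 536870912) (P2 := 0) (W2 := 536870912) (P3 := 1046898278) (W3 := 26843546) (N0 := 3)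
    rfl k0_pp_101

noncomputable def f_pp_102 : ℕ → ℕ → ℕ → ℕ → Bool := onCell 536870912 536870912 0 536870912 1046898278 26843546
    (rowNX 3 0 true true true .npp 1 0 2 (qsf 536870912 536870912 0 536870912 2) ndN1q1 ndN3q0 pcN2 Cut.none Ext.none)

def k0_pp_102 : ∃ t, chk3 f_pp_102 t 1 1 1 = true :=
  ⟨(l 4), by decide +kernel⟩

theorem c_pp_102 : CertNX 536870912 536870912 0 536870912 1046898278 26843546 3 true true true .npp 1 0 2
    ndN1q1 ndN3q0 pcN2 Cut.none Ext.none :=
  certNX0 (fam := true) (s1 := true) (s2 := true) (a := 1) (b := 0) (c := 2) (cn := .npp) (n1 := ndN1q1) (n2 := ndN3q0) (pc := pcN2) (cut := Cut.none) (xt := Ext.none) (P1 := 536870912) (W1 := 536870912) (P2 := 0) (W2 := 536870912) (P3 := 1046898278) (W3 := 26843546) (N0 := 3)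
    rfl k0_pp_102

noncomputable def f_pp_112 : ℕ → ℕ → ℕ → ℕ → Bool := onCell 536870912 536870912 536870912 536870912 1046898278 26843546
    (rowNX 3 0 true true true .dn 1 1 2 (qsf 536870912 536870912 536870912 536870912 2) ndN1q1 ndN3q1 pcN2 Cut.none Ext.none)

def k0_pp_112 : ∃ t, chk3 f_pp_112 t 1 1 1 = true :=
  ⟨(l 4), by decide +kernel⟩

theorem c_pp_112 : CertNX 536870912 536870912 536870912 536870912 1046898278 26843546 3 true true true .dn 1 1 2
    ndN1q1 ndN3q1 pcN2 Cut.none Ext.none :=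
  certNX0 (fam := true) (s1 := true) (s2 := true) (a := 1) (b := 1) (c := 2) (cn := .dn) (n1 := ndN1q1) (n2 := ndN3q1) (pc := pcN2) (cut := Cut.none) (xt := Ext.none) (P1 := 536870912) (W1 := 536870912) (P2 := 536870912) (W2 := 536870912) (P3 := 1046898278) (W3 := 26843546) (N0 := 3)
    rfl k0_pp_112

noncomputable def f_pp_113 : ℕ → ℕ → ℕ → ℕ → Bool := onCell 536870912 536870912 536870912 536870912 1046898278 26843546
    (rowNX 3 0 true true true .nn 1 1 3 (qsf 536870912 536870912 536870912 536870912 3) ndN1q1 ndN3q1 pcN3 Cut.none Ext.none)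

def k0_pp_113 : ∃ t, chk3 f_pp_113 t 1 1 1 = true :=
  ⟨(l 4), by decide +kernel⟩

theorem c_pp_113 : CertNX 536870912 536870912 536870912 536870912 1046898278 26843546 3 true true true .nn 1 1 3
    ndN1q1 ndN3q1 pcN3 Cut.none Ext.none :=
  certNX0 (fam := true) (s1 := true) (s2 := true) (a := 1) (b := 1) (c := 3) (cn := .nn) (n1 := ndN1q1) (n2 := ndN3q1) (pc := pcN3) (cut := Cut.none) (xt := Ext.none) (P1 := 536870912) (W1 := 536870912) (P2 := 536870912) (W2 := 536870912) (P3 := 1046898278) (W3 := 26843546) (N0 := 3)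
    rfl k0_pp_113

noncomputable def f_pp_123 : ℕ → ℕ → ℕ → ℕ → Bool := onCell 536870912 536870912 1073741824 536870912 1046898278 26843546
    (rowNX 3 0 true true true .npn 1 2 3 (qsf 536870912 536870912 1073741824 536870912 3) ndN1q1 ndN3q2 pcN3 Cut.none Ext.none)

def k0_pp_123 : ∃ t, chk3 f_pp_123 t 1 1 1 = true :=
  ⟨(l 4), by decide +kernel⟩

theorem c_pp_123 : CertNX 536870912 536870912 1073741824 536870912 1046898278 26843546 3 true true true .npn 1 2 3
    ndN1q1 ndN3q2 pcN3 Cut.none Ext.none :=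
  certNX0 (fam := true) (s1 := true) (s2 := true) (a := 1) (b := 2) (c := 3) (cn := .npn) (n1 := ndN1q1) (n2 := ndN3q2) (pc := pcN3) (cut := Cut.none) (xt := Ext.none) (P1 := 536870912) (W1 := 536870912) (P2 := 1073741824) (W2 := 536870912) (P3 := 1046898278) (W3 := 26843546) (N0 := 3)
    rfl k0_pp_123

noncomputable def f_pp_133 : ℕ → ℕ → ℕ → ℕ → Bool := onCell 536870912 536870912 1610612736 536870912 1046898278 26843546
    (rowNX 3 0 true true true .dn 1 3 3 (qsf 536870912 536870912 1610612736 536870912 3) ndN1q1 ndN3q3 pcN3 Cut.none Ext.none)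

def k0_pp_133 : ∃ t, chk3 f_pp_133 t 1 1 1 = true :=
  ⟨(l 4), by decide +kernel⟩

theorem c_pp_133 : CertNX 536870912 536870912 1610612736 536870912 1046898278 26843546 3 true true true .dn 1 3 3
    ndN1q1 ndN3q3 pcN3 Cut.none Ext.none :=
  certNX0 (fam := true) (s1 := true) (s2 := true) (a := 1) (b := 3) (c := 3) (cn := .dn) (n1 := ndN1q1) (n2 := ndN3q3) (pc := pcN3) (cut := Cut.none) (xt := Ext.none) (P1 := 536870912) (W1 := 536870912) (P2 := 1610612736) (W2 := 536870912) (P3 := 1046898278) (W3 := 26843546) (N0 := 3)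
    rfl k0_pp_133

noncomputable def f_pp_202_a : ℕ → ℕ → ℕ → ℕ → Bool := onCell 0 420477299 0 536870912 1046898278 26843546
    (rowNX 3 0 true true true .pp 2 0 2 (qsf 0 420477299 0 536870912 2) ndN1q2a ndN3q0 pcN2 Cut.none Ext.none)

def k0_pp_202_a : ∃ t, chk3 f_pp_202_a t 1 1 1 = true :=
  ⟨(l 5), by decide +kernel⟩

theorem c_pp_202_a : CertNX 0 420477299 0 536870912 1046898278 26843546 3 true true true .pp 2 0 2
    ndN1q2a ndN3q0 pcN2 Cut.none Ext.none :=
  certNX0 (fam := true) (s1 := true) (s2 := true) (a := 2) (b := 0) (c := 2) (cn := .pp) (n1 := ndN1q2a) (n2 := ndN3q0) (pc := pcN2) (cut := Cut.none) (xt := Ext.none) (P1 := 0) (W1 := 420477299) (P2 := 0) (W2 := 536870912) (P3 := 1046898278) (W3 := 26843546) (N0 := 3)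
    rfl k0_pp_202_a

noncomputable def f_pp_202_b : ℕ → ℕ → ℕ → ℕ → Bool := onCell 1239849684 370763052 0 536870912 1046898278 26843546
    (rowNX 3 0 true true true .pp 2 0 2 (qsf 1239849684 370763052 0 536870912 2) ndN1q2b ndN3q0 pcN2 Cut.none Ext.none)

def k0_pp_202_b : ∃ t, chk3 f_pp_202_b t 1 1 1 = true :=
  ⟨(l 5), by decide +kernel⟩

theorem c_pp_202_b : CertNX 1239849684 370763052 0 536870912 1046898278 26843546 3 true true true .pp 2 0 2
    ndN1q2b ndN3q0 pcN2 Cut.none Ext.none :=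
  certNX0 (fam := true) (s1 := true) (s2 := true) (a := 2) (b := 0) (c := 2) (cn := .pp) (n1 := ndN1q2b) (n2 := ndN3q0) (pc := pcN2) (cut := Cut.none) (xt := Ext.none) (P1 := 1239849684) (W1 := 370763052) (P2 := 0) (W2 := 536870912) (P3 := 1046898278) (W3 := 26843546) (N0 := 3)
    rfl k0_pp_202_b

noncomputable def f_pp_203_a : ℕ → ℕ → ℕ → ℕ → Bool := onCell 0 420477299 0 536870912 1046898278 26843546
    (rowNX 3 0 true true true .up 2 0 3 (qsf 0 420477299 0 536870912 3) ndN1q2a ndN3q0 pcN3 Cut.none Ext.none)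

def k0_pp_203_a : ∃ t, chk3 f_pp_203_a t 1 1 1 = true :=
  ⟨(l 5), by decide +kernel⟩

theorem c_pp_203_a : CertNX 0 420477299 0 536870912 1046898278 26843546 3 true true true .up 2 0 3
    ndN1q2a ndN3q0 pcN3 Cut.none Ext.none :=
  certNX0 (fam := true) (s1 := true) (s2 := true) (a := 2) (b := 0) (c := 3) (cn := .up) (n1 := ndN1q2a) (n2 := ndN3q0) (pc := pcN3) (cut := Cut.none) (xt := Ext.none) (P1 := 0) (W1 := 420477299) (P2 := 0) (W2 := 536870912) (P3 := 1046898278) (W3 := 26843546) (N0 := 3)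
    rfl k0_pp_203_a

noncomputable def f_pp_203_b : ℕ → ℕ → ℕ → ℕ → Bool := onCell 1239849684 370763052 0 536870912 1046898278 26843546
    (rowNX 3 0 true true true .up 2 0 3 (qsf 1239849684 370763052 0 536870912 3) ndN1q2b ndN3q0 pcN3 Cut.none Ext.none)

def k0_pp_203_b : ∃ t, chk3 f_pp_203_b t 1 1 1 = true :=
  ⟨(l 5), by decide +kernel⟩

theorem c_pp_203_b : CertNX 1239849684 370763052 0 536870912 1046898278 26843546 3 true true true .up 2 0 3
    ndN1q2b ndN3q0 pcN3 Cut.none Ext.none :=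
  certNX0 (fam := true) (s1 := true) (s2 := true) (a := 2) (b := 0) (c := 3) (cn := .up) (n1 := ndN1q2b) (n2 := ndN3q0) (pc := pcN3) (cut := Cut.none) (xt := Ext.none) (P1 := 1239849684) (W1 := 370763052) (P2 := 0) (W2 := 536870912) (P3 := 1046898278) (W3 := 26843546) (N0 := 3)
    rfl k0_pp_203_b

noncomputable def f_pp_213_a : ℕ → ℕ → ℕ → ℕ → Bool := onCell 0 420477299 536870912 536870912 1046898278 26843546
    (rowNX 3 0 true true true .pnn 2 1 3 (qsf 0 420477299 536870912 536870912 3) ndN1q2a ndN3q1 pcN3 Cut.none Ext.none)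

def k0_pp_213_a : ∃ t, chk3 f_pp_213_a t 1 1 1 = true :=
  ⟨(l 4), by decide +kernel⟩

theorem c_pp_213_a : CertNX 0 420477299 536870912 536870912 1046898278 26843546 3 true true true .pnn 2 1 3
    ndN1q2a ndN3q1 pcN3 Cut.none Ext.none :=
  certNX0 (fam := true) (s1 := true) (s2 := true) (a := 2) (b := 1) (c := 3) (cn := .pnn) (n1 := ndN1q2a) (n2 := ndN3q1) (pc := pcN3) (cut := Cut.none) (xt := Ext.none) (P1 := 0) (W1 := 420477299) (P2 := 536870912) (W2 := 536870912) (P3 := 1046898278) (W3 := 26843546) (N0 := 3)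
    rfl k0_pp_213_a

noncomputable def f_pp_213_b : ℕ → ℕ → ℕ → ℕ → Bool := onCell 1239849684 370763052 536870912 536870912 1046898278 26843546
    (rowNX 3 0 true true true .pnn 2 1 3 (qsf 1239849684 370763052 536870912 536870912 3) ndN1q2b ndN3q1 pcN3 Cut.none Ext.none)

def k0_pp_213_b : ∃ t, chk3 f_pp_213_b t 1 1 1 = true :=
  ⟨(l 4), by decide +kernel⟩

theorem c_pp_213_b : CertNX 1239849684 370763052 536870912 536870912 1046898278 26843546 3 true true true .pnn 2 1 3
    ndN1q2b ndN3q1 pcN3 Cut.none Ext.none :=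
  certNX0 (fam := true) (s1 := true) (s2 := true) (a := 2) (b := 1) (c := 3) (cn := .pnn) (n1 := ndN1q2b) (n2 := ndN3q1) (pc := pcN3) (cut := Cut.none) (xt := Ext.none) (P1 := 1239849684) (W1 := 370763052) (P2 := 536870912) (W2 := 536870912) (P3 := 1046898278) (W3 := 26843546) (N0 := 3)
    rfl k0_pp_213_b

noncomputable def f_pp_303 : ℕ → ℕ → ℕ → ℕ → Bool := onCell 1610612736 469762048 0 536870912 1046898278 26843546
    (rowNX 3 0 true true true .npn 3 0 3 (qsf 1610612736 469762048 0 536870912 3) ndN1q3 ndN3q0 pcN3 Cut.none Ext.none)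

def k0_pp_303 : ∃ t, chk3 f_pp_303 t 1 1 1 = true :=
  ⟨(l 5), by decide +kernel⟩

theorem c_pp_303 : CertNX 1610612736 469762048 0 536870912 1046898278 26843546 3 true true true .npn 3 0 3
    ndN1q3 ndN3q0 pcN3 Cut.none Ext.none :=
  certNX0 (fam := true) (s1 := true) (s2 := true) (a := 3) (b := 0) (c := 3) (cn := .npn) (n1 := ndN1q3) (n2 := ndN3q0) (pc := pcN3) (cut := Cut.none) (xt := Ext.none) (P1 := 1610612736) (W1 := 469762048) (P2 := 0) (W2 := 536870912) (P3 := 1046898278) (W3 := 26843546) (N0 := 3)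
    rfl k0_pp_303

noncomputable def f_pp_313 : ℕ → ℕ → ℕ → ℕ → Bool := onCell 1610612736 469762048 536870912 536870912 1046898278 26843546
    (rowNX 3 0 true true true .dn 3 1 3 (qsf 1610612736 469762048 536870912 536870912 3) ndN1q3 ndN3q1 pcN3 Cut.none Ext.none)

def k0_pp_313 : ∃ t, chk3 f_pp_313 t 1 1 1 = true :=
  ⟨(l 4), by decide +kernel⟩

theorem c_pp_313 : CertNX 1610612736 469762048 536870912 536870912 1046898278 26843546 3 true true true .dn 3 1 3
    ndN1q3 ndN3q1 pcN3 Cut.none Ext.none :=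
  certNX0 (fam := true) (s1 := true) (s2 := true) (a := 3) (b := 1) (c := 3) (cn := .dn) (n1 := ndN1q3) (n2 := ndN3q1) (pc := pcN3) (cut := Cut.none) (xt := Ext.none) (P1 := 1610612736) (W1 := 469762048) (P2 := 536870912) (W2 := 536870912) (P3 := 1046898278) (W3 := 26843546) (N0 := 3)
    rfl k0_pp_313

noncomputable def f_pm_001 : ℕ → ℕ → ℕ → ℕ → Bool := onCell 67108864 469762048 0 536870912 1046898278 26843546
    (rowNX 3 0 true true false .up 0 0 1 (qsf 67108864 469762048 0 536870912 1) ndN1q0 ndN3q0 pcN1 Cut.none Ext.none)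

def k0_pm_001 : ∃ t, chk3 f_pm_001 t 1 1 1 = true :=
  ⟨(b (l 3) (l 3)), by decide +kernel⟩

theorem c_pm_001 : CertNX 67108864 469762048 0 536870912 1046898278 26843546 3 true true false .up 0 0 1
    ndN1q0 ndN3q0 pcN1 Cut.none Ext.none :=
  certNX0 (fam := true) (s1 := true) (s2 := false) (a := 0) (b := 0) (c := 1) (cn := .up) (n1 := ndN1q0) (n2 := ndN3q0) (pc := pcN1) (cut := Cut.none) (xt := Ext.none) (P1 := 67108864) (W1 := 469762048) (P2 := 0) (W2 := 536870912) (P3 := 1046898278) (W3 := 26843546) (N0 := 3)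
    rfl k0_pm_001

noncomputable def f_pm_011 : ℕ → ℕ → ℕ → ℕ → Bool := onCell 67108864 469762048 536870912 536870912 1046898278 26843546
    (rowNX 3 1 true true false .pnn 0 1 1 (qsf 67108864 469762048 536870912 536870912 1) ndN1q0 ndN3q1 pcN1 Cut.none Ext.none)

def k0_pm_011 : ∃ t, chk3 f_pm_011 t 1 1 1 = true :=
  ⟨(b (l 3) (b (l 3) (a (l 3) (l 3)))), by decide +kernel⟩

theorem c_pm_011 : CertNX 67108864 469762048 536870912 536870912 1046898278 26843546 3 true true false .pnn 0 1 1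
    ndN1q0 ndN3q1 pcN1 Cut.none Ext.none :=
  certNX1 (fam := true) (s1 := true) (s2 := false) (a := 0) (b := 1) (c := 1) (cn := .pnn) (n1 := ndN1q0) (n2 := ndN3q1) (pc := pcN1) (cut := Cut.none) (xt := Ext.none) (P1 := 67108864) (W1 := 469762048) (P2 := 536870912) (W2 := 536870912) (P3 := 1046898278) (W3 := 26843546) (N0 := 3)
    rfl (fun _ => rfl) k0_pm_011

end Pool.Agent.Strip051.G.IE1.Tab.C.NA13

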