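import Pool.Agent.Strip051.G.IE1.Tab

/-! # Certificates N27 (generated) -/

set_option linter.all false
set_option maxRecDepth 100000

namespace Pool.Agent.Strip051.G.IE1.Tab.C.NA13

open Pool.Agent.Strip051.PB Pool.Agent.Strip051.PB.T
open Pool.Agent.Strip051.G.IE1.Tab

noncomputable def f_pm_012 : ℕ → ℕ → ℕ → ℕ → Bool := onCell 1073741824 536870912 536870912 536870912 1046898278 26843546
    (rowNX 3 2 true true false .pnp 0 1 2 (qsf 67108864 469762048 536870912 536870912 2) ndN1q0 ndN3q1 pcN2 Cut.none Ext.none)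

def k0_pm_012 : ∃ t, chk3 f_pm_012 t 8 2 1 = true :=
  ⟨(b (a (l 3) (a (a (l 3) (c (l 15908144) (l 15875184))) (a (a (c (l 16033064) (l 16005696)) (c (l 16086000) (l 16060568))) (c (l 16144664) (l 16122104))))) (a (l 3) (a (a (b (l 3) (c (l 15746816) (l 15706312))) (c (b (l 15908144) (l 15886248)) (b (l 15875184) (l 15851144)))) (a (b (c (l 16015968) (l 16009216)) (c (l 16009024) (l 15980192))) (c (l 16067664) (l 16041680)))))), by decide +kernel⟩

def k1_pm_012 : ∃ t, chk3 f_pm_012 t 8 6 1 = true :=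
  ⟨(a (a (l 3) (b (b (l 3) (a (l 3) (a (l 3) (c (a (a (l 3) (l 15843080)) (l 15855288)) (l 15805424))))) (b (c (a (l 3) (c (a (a (l 3) (a (l 15940800) (l 15947800))) (c (a (l 15977288) (l 16005152)) (l 15977848))) (l 15927400))) (l 437178351527)) (b (a (l 3) (c (c (a (a (b (l 15809224) (c (l 15993584) (l 15958368))) (c (b (l 15957752) (l 16020856)) (l 15890064))) (a (b (l 15967008) (l 16030088)) (l 15861264))) (l 15764464)) (b (l 15894848) (l 15960944)))) (c (a (a (l 3) (a (l 3) (c (c (l 16098104) (l 16065120)) (l 16049008)))) (c (c (a (a (l 16138408) (l 15954912)) (a (l 16013776) (l 16208488))) (a (a (l 16104856) (l 16130584)) (l 16181008))) (l 16132264))) (a (l 15933616) (l 16111280))))))) (b (a (a (b (c (l 15654464) (l 15695792)) (c (a (l 15879936) (l 15937528)) (a (l 15844960) (l 15902352)))) (b (c (l 15880384) (l 15844528)) (c (l 16025936) (l 15995952)))) (a (b (l 15954280) (l 16077520)) (b (l 16009600) (l 16150040)))) (a (b (a (c (a (l 16043560) (l 16129576)) (a (l 16012024) (l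 16100088))) (c (l 16123816) (l 16225000))) (a (b (b (a (a (l 15982088) (l 16038768)) (l 16114120)) (l 15983816)) (c (l 16222616) (l 16256888))) (b (c (l 16105872) (l 16207736)) (c (l 16456000) (l 16437992))))) (b (a (a (l 16173800) (b (l 16341936) (l 16452296))) (c (l 16375856) (l 16429272))) (a (b (c (b (l 16425112) (l 16479272)) (l 16376232)) (c (l 16497672) (l 16540688))) (b (c (l 16347152) (l 16511408)) (a (l 16412112) (l 16368832)))))))), by decide +kernel⟩

def k2_pm_012 : ∃ t, chk3 f_pm_012 t 64 7 1 = true :=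
  ⟨(b (l 3) (b (b (l 3) (l 1)) (l 1))), by decide +kernel⟩

def k3_pm_012 : ∃ t, chk3 f_pm_012 t 65 14 1 = true :=
  ⟨(a (l 3) (b (l 3) (b (b (l 3) (a (l 3) (a (l 3) (a (l 3) (c (c (l 16549280) (l 16570104)) (l 16547704)))))) (c (c (l 321752290695) (c (l 16298000) (a (l 16316336) (c (l 16380976) (a (l 16345328) (l 16323528)))))) (c (c (a (b (l 3) (a (l 16324400) (a (l 16342928) (l 16270824)))) (c (a (l 16305952) (l 16409832)) (l 16414192))) (l 16383976)) (l 16378008)))))), by decide +kernel⟩

def k4_pm_012 : ∃ t, chk3 f_pm_012 t 65 15 1 = true :=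
  ⟨(b (a (b (a (l 3) (a (b (l 3) (b (b (l 3) (b (l 3) (b (l 3) (l 1)))) (l 1))) (b (b (l 3) (c (c (l 16239792) (l 16229840)) (c (c (l 16239944) (l 16220992)) (l 16213280)))) (c (c (c (b (l 16264856) (c (l 16309424) (l 16306232))) (l 195990161175)) (l 16171816)) (c (c (c (l 16245984) (b (l 16229752) (l 16254024))) (b (l 16210872) (l 16235080))) (l 16214840)))))) (l 1)) (b (c (b (c (c (c (l 16290512) (l 16319960)) (l 16312224)) (c (l 16294664) (a (l 16289200) (c (l 16354600) (a (l 16339120) (a (l 16355248) (l 16362464))))))) (c (c (b (l 16339184) (a (c (b (l 16286296) (l 16328072)) (l 16333896)) (l 16312672))) (b (l 16279088) (a (l 16294512) (l 16277352)))) (a (a (l 16197816) (c (l 16283784) (l 16292960))) (c (l 16328640) (a (c (l 16320224) (c (l 16323440) (a (l 16314536) (l 16321696)))) (l 16342024)))))) (c (c (a (c (b (a (l 16280384) (l 16303320)) (a (b (l 16262592) (l 16274624)) (c (b (l 16291560) (l 16292976)) (l 16281928)))) (a (b (l 16204952) (c (l 16260424) (l 16206696))) (b (l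 16285008) (b (l 16267256) (l 16227008))))) (c (a (b (l 16320448) (c (l 16305384) (a (l 16289592) (l 16298968)))) (b (l 16340864) (l 16318920))) (l 16243640))) (b (l 16290344) (l 16276976))) (b (l 16281984) (b (l 16263336) (l 16266072))))) (a (l 1) (b (a (l 1) (c (c (b (c (l 478921489655) (l 16401688)) (l 1)) (c (l 16402480) (l 16385264))) (l 539050854711))) (l 1))))) (l 1)), by decide +kernel⟩

def k5_pm_012 : ∃ t, chk3 f_pm_012 t 33 28 1 = true :=
  ⟨(b (c (a (a (l 3) (c (c (l 16323264) (a (l 16143936) (b (l 16264496) (l 16319400)))) (a (a (l 16070680) (l 16219920)) (l 16257528)))) (c (a (c (a (b (l 16307176) (l 16401984)) (c (a (l 16401808) (l 16404624)) (b (l 16311648) (l 16447088)))) (c (a (l 16330120) (l 16300656)) (l 16262696))) (l 16345168)) (l 16299488))) (a (l 16179192) (a (l 16320128) (l 16368800)))) (c (a (c (a (c (l 16322112) (l 16395744)) (c (l 16439304) (a (b (l 16523576) (l 16581120)) (b (l 16398144) (c (l 16545584) (l 16557912)))))) (a (b (a (l 3) (c (l 16466048) (l 16462016)))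 (a (c (l 16568736) (l 16559744)) (c (l 16512032) (l 16571864)))) (c (a (c (b (l 16510896) (l 16590248)) (l 16419528)) (b (l 16516376) (l 16573712))) (l 16529528)))) (c (a (c (a (c (l 16346536) (b (l 16582128) (l 16512872))) (l 16410856)) (c (a (b (l 16561248) (l 16528144)) (l 16556768)) (l 16365208))) (l 16289968)) (l 16468904))) (a (a (l 16325416) (l 16353240)) (l 16347248)))), by decide +kernel⟩

def k6_pm_012 : ∃ t, chk3 f_pm_012 t 33 29 1 = true :=
  ⟨(c (a (c (a (b (c (l 16473216) (l 16524704)) (c (l 16365112) (l 16394280))) (b (c (l 16548128) (a (c (l 16559160) (a (l 16564896) (l 16548624))) (a (c (l 16527136) (l 16539584)) (l 16522832)))) (a (l 16505104) (c (l 16587936) (l 16491656))))) (a (c (a (b (b (l 16600128) (l 16603240)) (c (l 16497624) (l 16376752))) (b (a (l 16527424) (c (l 16586632) (l 16602520))) (c (l 16391568) (a (l 16413928) (l 16449608))))) (a (b (b (l 16465384) (c (l 16515192) (l 16581880))) (c (c (l 16393848) (l 16342992)) (a (l 16380720) (l 16443304)))) (b (a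 (l 16604848) (l 16615400)) (c (l 16361560) (l 16522568))))) (b (c (c (a (a (l 16573880) (l 16566304)) (l 16423080)) (c (l 16526440) (l 16571360))) (l 16573744)) (c (a (l 16449032) (l 16598056)) (l 16575960))))) (c (a (b (c (a (l 16487824) (l 16463336)) (l 16495496)) (c (a (l 16447112) (c (l 16438000) (l 16495720))) (a (l 16489928) (l 16508944)))) (b (l 16415136) (c (a (l 16346104) (l 16412592)) (l 16445296)))) (b (l 16480352) (l 16403256)))) (a (b (a (b (l 16581776) (l 16544256)) (l 16577984)) (a (c (l 16425784) (l 16418720)) (l 16414568))) (b (l 16487464) (a (b (l 16520728) (l 16598192)) (l 16361856))))), by decide +kernel⟩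

def k7_pm_012 : ∃ t, chk3 f_pm_012 t 33 60 1 = true :=
  ⟨(c (a (c (a (a (b (c (l 16392200) (l 16402856)) (l 16357552)) (b (l 16411328) (l 16439816))) (c (b (l 16526480) (l 16588720)) (c (b (l 16533360) (l 16424392)) (a (l 16438616) (b (l 16565544) (l 16526088)))))) (a (a (a (c (l 16353992) (b (c (l 16332968) (b (l 16381248) (l 16369560))) (l 16363456))) (c (l 16416576) (l 16334344))) (c (c (l 16459808) (l 16447336)) (l 16425704))) (c (a (c (l 16501168) (l 16483448)) (l 16511984)) (l 16495488)))) (c (a (c (a (b (l 16511680) (l 16563976)) (c (l 16521048) (l 16500520))) (b (l 16585384) (a (l 16537416) (l 16621368)))) (c (a (c (l 16434624) (l 16524208)) (l 16395128)) (l 16500464))) (l 16547632))) (a (a (b (l 16328720) (a (l 16338416) (l 16387584))) (l 16369264)) (a (l 16486176) (l 16525408)))), by decide +kernel⟩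

def k8_pm_012 : ∃ t, chk3 f_pm_012 t 33 61 1 = true :=
  ⟨(a (b (c (c (a (c (c (b (b (l 16430152) (a (l 16528328) (l 16511568))) (c (l 16511048) (l 16481928))) (b (l 16476176) (l 479995437943))) (l 16343896)) (a (b (l 16452352) (c (c (l 16519008) (l 16610192)) (l 16461800))) (c (l 16466720) (c (l 16567528) (l 16523952))))) (a (c (a (c (l 16433256) (l 483216411223)) (b (c (l 16443384) (l 16423520)) (c (l 16492944) (l 16458720)))) (a (c (l 16320544) (l 16387528)) (l 145524638887))) (c (a (c (b (l 16479216) (l 16466744)) (b (l 16454624) (l 16448952))) (c (l 16462456) (l 16502040))) (l 16469768)))) (a (c (l 16341848) (l 16369024)) (c (l 16428280) (l 16438824)))) (b (a (l 1) (a (l 1) (a (l 1) (c (c (c (l 479995375031) (l 16579632)) (l 16515032)) (l 16486720))))) (l 1))) (a (b (c (c (c (a (l 16495872) (c (l 16504888) (l 16549912))) (a (l 16556816) (l 16609776))) (l 16456744)) (a (l 16504360) (l 16552128))) (c (a (b (c (c (c (c (l 16416632) (l 16439584)) (l 16536536)) (l 16476216)) (l 16498912))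 (l 1)) (c (c (b (c (b (l 16487432) (l 16469896)) (l 16502592)) (c (l 16360968) (l 16465304))) (l 16430312)) (l 16472480))) (b (l 16439832) (l 16535672)))) (c (c (c (b (a (l 16415376) (l 16425744)) (b (l 16429456) (c (a (l 212096509623) (l 16361704)) (l 16420192)))) (l 16342120)) (b (l 16596000) (l 16421696))) (b (l 16622544) (l 16565904))))), by decide +kernel⟩

def k9_pm_012 : ∃ t, chk3 f_pm_012 t 33 31 1 = true :=
  ⟨(a (l 1) (a (l 1) (b (b (c (c (c (b (a (l 1) (l 480531735783)) (l 1)) (l 482142377095)) (l 16430312)) (l 577169101607)) (l 1)) (l 1)))), by decide +kernel⟩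

def k10_pm_012 : ∃ t, chk3 f_pm_012 t 34 7 1 = true :=
  ⟨(a (b (b (b (c (l 16298400) (l 16338696)) (c (a (l 16379064) (l 16309440)) (l 16288080))) (c (b (l 16269200) (b (l 16247800) (a (l 16308856) (l 16283680)))) (a (b (l 16398392) (l 16340528)) (l 16268568)))) (b (c (b (c (a (b (l 16332168) (l 16334032)) (b (l 16276560) (l 16276424))) (a (l 16421808) (l 16320288))) (a (b (c (l 16378368) (l 16483736)) (c (l 16351288) (c (l 16464880) (l 16503176)))) (c (l 16243328) (l 16230688)))) (a (b (l 16406304) (b (l 16501912) (l 16542360))) (b (l 16317880) (l 16387232)))) (b (b (c (c (c (b (a (a (l 211559387735) (l 16253584)) (l 16169240)) (a (b (l 480531575735) (l 1)) (a (b (l 16178752) (l 16039560)) (l 16032832)))) (l 212632951175)) (a (b (l 16398712) (l 16402296)) (l 16271440))) (a (b (l 16505464) (l 941167686455)) (c (l 16336432) (l 16426760)))) (a (l 1) (b (c (c (c (c (a (l 1) (l 16044232)) (l 482141966695)) (l 16156280)) (l 16263440)) (l 16325728)) (l 1)))) (l 1)))) (b (b (b (c (l 16432760)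 (l 16500160)) (c (b (l 16331360) (l 16240120)) (l 16200472))) (c (c (l 16172424) (l 16097744)) (b (l 16210048) (l 16177912)))) (b (c (b (c (b (l 15943816) (l 16097592)) (l 16114728)) (c (l 16062816) (c (l 16114840) (l 16187184)))) (b (l 16020056) (l 16187216))) (b (c (c (b (b (l 16025096) (l 15949928)) (c (b (a (b (l 15960008) (l 455298256391)) (l 15915760)) (a (a (l 1) (l 15916536)) (a (l 15870944) (l 15893160)))) (b (l 15939592) (l 15999784)))) (b (l 16037680) (b (l 16078728) (c (l 457445682935) (l 16109424))))) (b (b (l 16228016) (l 16097720)) (c (b (l 16144104) (l 16131120)) (l 16196384)))) (b (b (b (c (c (c (a (l 1) (l 15860776)) (l 15972040)) (l 16001168)) (l 16073912)) (l 1)) (l 1)) (l 1)))))), by decide +kernel⟩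

def k11_pm_012 : ∃ t, chk3 f_pm_012 t 35 7 1 = true :=
  ⟨(a (b (b (b (a (l 16270536) (l 16190848)) (c (a (l 16116432) (l 16108816)) (l 15918248))) (c (l 16067536) (l 16052536))) (b (c (b (c (b (l 15989704) (l 15714648)) (l 15972608)) (c (l 15809808) (l 15835248))) (b (l 15954376) (l 15930840))) (b (c (b (c (l 15741208) (l 15902768)) (c (b (c (l 15742632) (l 15795880)) (l 15716464)) (b (l 15879184) (l 15829856)))) (b (l 15971512) (c (l 15815728) (l 16014824)))) (b (c (c (c (b (a (b (l 15817744) (l 456371600727)) (l 15716392)) (a (c (l 483215188023) (l 15822768)) (a (l 212095289303) (l 15740464)))) (b (l 15804344) (l 15708272))) (b (l 425769885239) (l 15845176))) (c (b (l 15949464) (a (l 15957184) (l 15852808))) (b (l 16014704) (l 15908288)))) (b (c (c (c (a (l 1) (c (l 488583874615) (l 15811560))) (l 514890584151)) (l 15856320)) (c (l 15877424) (l 609379913735))) (l 1)))))) (b (b (b (l 16192584) (l 15891616)) (c (l 15951552) (l 15928208))) (b (c (b (c (c (l 15811840) (l 15833104)) (l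 15837160)) (c (b (l 15662608) (l 15592456)) (b (l 15728744) (l 15688760)))) (b (l 15815464) (l 15715856))) (b (c (c (b (l 15557384) (c (l 15527040) (l 15565024))) (l 15606480)) (c (l 15723472) (l 15739456))) (c (b (b (c (l 15563088) (l 15623048)) (a (l 15647464) (l 15571624))) (c (c (a (b (c (l 15701288) (l 15755520)) (c (l 15754888) (l 15803880))) (a (b (l 15683344) (l 15762048)) (l 15670664))) (l 15730216)) (l 15616224))) (b (c (b (l 15711872) (l 15707928)) (l 15720312)) (c (b (l 404294748519) (l 15748912)) (b (c (l 15753352) (l 15785952)) (c (l 15749448) (b (l 15769328) (l 15762848))))))))))), by decide +kernel⟩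

def k12_pm_012 : ∃ t, chk3 f_pm_012 t 9 2 1 = true :=
  ⟨(a (a (b (a (l 16191664) (l 16317976)) (a (l 16140144) (l 16260736))) (b (c (l 16538208) (l 16529792)) (a (l 16418464) (l 16586856)))) (a (a (b (l 16750720) (l 16726472)) (l 16768000)) (b (l 16771272) (l 16735744)))), by decide +kernel⟩

def k13_pm_012 : ∃ t, chk3 f_pm_012 t 9 6 1 = true :=
  ⟨(a (a (b (a (b (l 16105048) (l 16245480)) (b (l 16264256) (l 16400792))) (b (a (l 16375776) (l 16552472)) (b (b (l 16385944) (l 16254312)) (l 16104112)))) (b (b (l 16489816) (l 16625880)) (b (l 16405200) (b (l 15943192) (l 15750880))))) (b (a (b (l 16732464) (l 16427992)) (l 16595320)) (b (a (a (l 16264864) (l 16240952)) (l 16270048)) (a (a (b (l 15914880) (l 15536560)) (l 15524048)) (b (l 15944280) (l 15547208)))))), by decide +kernel⟩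

def k14_pm_012 : ∃ t, chk3 f_pm_012 t 18 7 1 = true :=
  ⟨(b (b (a (b (l 15903864) (a (l 15810360) (l 15579744))) (b (l 15472216) (l 15243456))) (a (a (a (l 15826264) (l 15713696)) (l 15541464)) (b (l 15198504) (l 15194248)))) (b (c (b (a (b (l 15535232) (l 15310720)) (c (l 14987640) (l 15115656))) (a (a (c (l 15416264) (l 15380752)) (l 15183776)) (c (l 14845656) (l 14904656)))) (a (b (l 15524944) (l 15154240)) (l 14981880))) (b (c (a (a (c (b (l 15276184) (l 15259960)) (l 15209440)) (b (c (l 14974096) (l 15066904)) (c (l 14916704) (l 14987192)))) (b (l 14658256) (b (c (l 14511408) (l 14585208)) (c (l 14467376) (l 14500080))))) (a (a (c (l 15426152) (l 15436920)) (c (l 14887840) (l 15102456))) (c (b (l 14750944) (l 14633640)) (l 14687712)))) (c (a (b (c (a (l 15300488) (l 14949992)) (b (l 15041176) (l 15157160))) (a (a (l 15548600) (l 15364752)) (l 15095600))) (b (c (a (l 14607424) (l 14306528)) (b (l 14248656) (l 14464360))) (c (l 14585624) (l 14552224)))) (a (b (c (a (l 15404056)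 (l 15040952)) (l 15277096)) (a (b (c (l 15408440) (l 15457664)) (c (l 15481680) (b (l 15343544) (l 15494104)))) (c (l 15078864) (c (l 15008376) (l 14940768))))) (b (c (a (l 14685928) (l 14374016)) (l 14577904)) (c (b (l 14502952) (l 14562848)) (b (l 14536088) (c (l 14547824) (l 14555528)))))))))), by decide +kernel⟩

def k15_pm_012 : ∃ t, chk3 f_pm_012 t 19 7 1 = true :=
  ⟨(b (b (a (a (b (l 15174096) (l 14920400)) (b (l 15098960) (l 14802312))) (b (l 15119072) (l 14747824))) (a (a (c (l 14887208) (l 14822136)) (l 14731408)) (l 14637456))) (b (a (c (a (b (c (l 14708568) (l 14788648)) (c (l 14527400) (l 14580520))) (b (l 14667840) (l 14451384))) (a (l 14645664) (l 14533520))) (c (b (l 14574280) (l 14378840)) (l 14449400))) (c (a (b (a (b (l 14327384) (c (a (l 14201352) (l 14097872)) (l 14206056))) (b (l 14232872) (l 14085728))) (a (b (c (l 14065456) (b (l 14098504) (l 14047432))) (a (l 14158432) (l 14031008))) (b (l 13981232) (l 13985784)))) (b (b (l 14187472) (l 13961104)) (b (b (l 13954136)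 (l 13919712)) (l 13947360)))) (a (b (a (l 14265568) (l 14230352)) (a (b (c (l 14124088) (l 14159328)) (c (a (l 14116288) (l 13985376)) (b (l 14058488) (c (l 14034488) (l 14037584))))) (b (l 14025280) (c (l 13939064) (l 13942960))))) (b (l 14185216) (b (c (l 13985552) (l 14018600)) (c (l 13899936) (b (l 13915056) (l 13875824))))))))), by decide +kernel⟩

def k16_pm_012 : ∃ t, chk3 f_pm_012 t 5 2 1 = true :=
  ⟨(a (a (a (b (l 16655592) (l 16624968)) (a (l 16517704) (b (l 2) (a (l 16445648) (l 16385208))))) (l 16492496)) (a (b (l 2) (l 16670232)) (c (l 16881816) (l 16777016)))), by decide +kernel⟩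

def k17_pm_012 : ∃ t, chk3 f_pm_012 t 10 3 1 = true :=
  ⟨(b (a (b (a (l 16654344) (a (l 16542000) (a (l 16481440) (a (l 16469248) (l 16464328))))) (a (b (l 16334320) (b (l 16014616) (l 15621632))) (a (b (l 16396080) (l 15762888)) (b (a (l 16428264) (l 16328280)) (a (l 15777336) (a (l 15865400) (l 15677360))))))) (b (l 16543248) (b (l 16380080) (l 15677240)))) (a (b (a (b (b (l 15197336) (l 14779176)) (b (l 14589520) (l 14532488))) (a (b (l 15065152) (l 14560984)) (a (b (l 15103360) (l 14573560)) (b (a (l 15106616) (l 15106512)) (a (l 14566832) (l 14562864)))))) (a (b (c (b (l 14477104) (l 14285680)) (l 14352184)) (b (c (b (l 14114288) (l 13742528)) (l 14120432)) (c (a (l 13928504) (l 13914344)) (b (c (l 13949368) (l 13982080)) (c (l 13868016) (b (l 13882736) (l 13843768))))))) (a (b (c (l 14127504) (l 14294528)) (b (c (l 14003368) (l 14065920)) (c (l 13874696) (b (l 13914312) (c (l 13852928) (l 13856064)))))) (b (b (a (l 14363048) (a (l 14329352) (l 14304400))) (a (l 14189456) (a (l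 14153400) (l 14021904)))) (a (b (c (l 13973352) (l 14034968)) (c (l 13871768) (b (l 13882376) (c (l 13832160) (l 13835024))))) (b (a (c (l 13935504) (l 13995712)) (c (b (l 13961824) (l 13845608)) (l 13966792))) (a (c (l 13831600) (c (l 13824256) (l 13834216))) (c (b (l 13772728) (l 13809576)) (b (l 13810824) (c (l 13759408) (l 13698032))))))))))) (b (b (l 15033928) (l 14478392)) (c (b (b (l 14169280) (l 13876320)) (b (l 13523320) (l 13236504))) (b (l 13974736) (b (l 13654680) (b (l 13488360) (c (l 13433128) (l 13428480))))))))), by decide +kernel⟩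

def k18_pm_012 : ∃ t, chk3 f_pm_012 t 11 3 1 = true :=
  ⟨(b (b (a (l 16715472) (l 16684320)) (b (a (l 16272168) (l 16213376)) (a (l 15657960) (l 15674616)))) (b (a (b (l 14892944) (l 14319600)) (b (l 14817144) (l 14235000))) (b (a (c (l 13656168) (l 13717472)) (c (l 13669168) (l 13621648))) (a (b (c (b (l 13254496) (l 13063672)) (l 13200552)) (c (b (l 12932360) (l 12927480)) (b (l 12937112) (c (l 12851240) (l 12835072))))) (b (c (l 13038848) (l 13063112)) (c (l 12718584) (b (l 12740376) (l 12581808)))))))), by decide +kernel⟩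

def k19_pm_012 : ∃ t, chk3 f_pm_012 t 3 1 1 = true :=
  ⟨(b (a (a (l 16777216) (l 2)) (l 2)) (b (a (b (a (a (l 16684248) (l 16684248)) (a (l 16684248) (l 2))) (b (c (l 16097176) (l 16203552)) (a (a (l 15674520) (l 15674520)) (a (l 15674520) (l 15674520))))) (b (l 2) (b (l 2) (l 15611600)))) (a (c (b (a (b (l 14850792) (l 14278840)) (b (l 14850792) (l 14278840))) (b (a (l 13669032) (l 13669032)) (a (b (l 13038704) (l 12718256)) (b (l 13038704) (l 12718256))))) (b (b (l 14720256) (l 14190960)) (b (l 13621504) (b (l 13062960) (a (c (l 12677608) (l 12664944)) (c (l 12677608) (l 12664944))))))) (b (b (l 14817032) (l 14234872)) (b (c (l 13669032) (l 13621504)) (b (c (l 13038704) (l 13062960)) (c (l 12718256) (l 12487832)))))))), by decide +kernel⟩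

theorem s20_pm_012 : ∃ t, chk3 f_pm_012 t 5 3 1 = true := ex3_a k17_pm_012 k18_pm_012

theorem s21_pm_012 : ∃ t, chk3 f_pm_012 t 5 1 1 = true := ex3_b k16_pm_012 s20_pm_012

theorem s22_pm_012 : ∃ t, chk3 f_pm_012 t 9 7 1 = true := ex3_a k14_pm_012 k15_pm_012

theorem s23_pm_012 : ∃ t, chk3 f_pm_012 t 9 3 1 = true := ex3_b k13_pm_012 s22_pm_012

theorem s24_pm_012 : ∃ t, chk3 f_pm_012 t 9 1 1 = true := ex3_b k12_pm_012 s23_pm_012

theorem s25_pm_012 : ∃ t, chk3 f_pm_012 t 17 7 1 = true := ex3_a k10_pm_012 k11_pm_012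

theorem s26_pm_012 : ∃ t, chk3 f_pm_012 t 33 30 1 = true := ex3_b k7_pm_012 k8_pm_012

theorem s27_pm_012 : ∃ t, chk3 f_pm_012 t 33 15 1 = true := ex3_b s26_pm_012 k9_pm_012

theorem s28_pm_012 : ∃ t, chk3 f_pm_012 t 33 14 1 = true := ex3_b k5_pm_012 k6_pm_012

theorem s29_pm_012 : ∃ t, chk3 f_pm_012 t 33 7 1 = true := ex3_b s28_pm_012 s27_pm_012

theorem s30_pm_012 : ∃ t, chk3 f_pm_012 t 65 7 1 = true := ex3_b k3_pm_012 k4_pm_012

theorem s31_pm_012 : ∃ t, chk3 f_pm_012 t 32 7 1 = true := ex3_a k2_pm_012 s30_pm_012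

theorem s32_pm_012 : ∃ t, chk3 f_pm_012 t 16 7 1 = true := ex3_a s31_pm_012 s29_pm_012

theorem s33_pm_012 : ∃ t, chk3 f_pm_012 t 8 7 1 = true := ex3_a s32_pm_012 s25_pm_012

theorem s34_pm_012 : ∃ t, chk3 f_pm_012 t 8 3 1 = true := ex3_b k1_pm_012 s33_pm_012

theorem s35_pm_012 : ∃ t, chk3 f_pm_012 t 8 1 1 = true := ex3_b k0_pm_012 s34_pm_012

theorem s36_pm_012 : ∃ t, chk3 f_pm_012 t 4 1 1 = true := ex3_a s35_pm_012 s24_pm_012

theorem s37_pm_012 : ∃ t, chk3 f_pm_012 t 2 1 1 = true := ex3_a s36_pm_012 s21_pm_012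

theorem s38_pm_012 : ∃ t, chk3 f_pm_012 t 1 1 1 = true := ex3_a s37_pm_012 k19_pm_012

theorem c_pm_012 : CertNX 67108864 469762048 536870912 536870912 1046898278 26843546 3 true true false .pnp 0 1 2
    ndN1q0 ndN3q1 pcN2 Cut.none Ext.none :=
  certNX2 (fam := true) (s1 := true) (s2 := false) (a := 0) (b := 1) (c := 2) (cn := .pnp) (n1 := ndN1q0) (n2 := ndN3q1) (pc := pcN2) (cut := Cut.none) (xt := Ext.none) (P1 := 67108864) (W1 := 469762048) (P2 := 536870912) (W2 := 536870912) (P3 := 1046898278) (W3 := 26843546) (N0 := 3)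
    rfl (fun _ => rfl) s38_pm_012

noncomputable def f_pm_022 : ℕ → ℕ → ℕ → ℕ → Bool := onCell 67108864 469762048 1073741824 536870912 1046898278 26843546
    (rowNX 3 1 true true false .pp 0 2 2 (qsf 67108864 469762048 1073741824 536870912 2) ndN1q0 ndN3q2 pcN2 Cut.none Ext.none)

def k0_pm_022 : ∃ t, chk3 f_pm_022 t 2 8 1 = true :=
  ⟨(a (b (l 1) (b (l 1) (b (l 1) (b (l 1) (b (l 1) (a (a (a (a (c (c (l 600254162215) (l 16334936)) (c (c (l 16393552) (l 615823365335)) (l 16386288))) (l 1)) (l 1)) (l 1)) (l 1))))))) (l 1)), by decide +kernel⟩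

def k1_pm_022 : ∃ t, chk3 f_pm_022 t 4 36 1 = true :=
  ⟨(a (a (a (b (b (a (c (c (a (l 16489920) (l 16392144)) (a (l 16465680) (l 16344728))) (c (c (l 16360096) (c (a (l 16482160) (l 16380488)) (l 16378144))) (c (l 16332600) (a (l 16387040) (l 16394616))))) (l 1)) (c (a (c (l 16436176) (l 16370512)) (c (l 16176592) (l 520797040599))) (c (a (c (l 16409008) (c (l 16385544) (l 16423920))) (c (l 16226840) (c (l 16227064) (l 16328416)))) (a (c (l 16373384) (b (l 16384408) (l 16452400))) (l 16176296))))) (c (a (c (c (l 16350280) (b (l 16511656) (l 16399384))) (b (a (l 16455936) (l 16483456)) (c (l 16402288) (l 16409280)))) (c (a (l 16421024) (l 16280456)) (c (a (l 16418984) (l 16381816)) (l 16250920)))) (c (c (a (b (l 16458184) (l 16420288)) (b (l 16318400) (c (l 16429320) (l 16404520)))) (a (c (b (l 16462152) (l 16469048)) (l 16444912)) (c (b (l 16320368) (l 16363712)) (l 148208850775)))) (a (c (l 16410608) (l 16461192)) (c (b (l 16311088) (l 16367992)) (b (l 248603629383) (l 16357760)))))))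 (a (a (b (l 1) (c (c (l 405906666423) (l 473015474711)) (c (c (l 524555045303) (l 16291136)) (l 352756336727)))) (l 1)) (l 1))) (l 1)) (l 1)), by decide +kernel⟩

def k2_pm_022 : ∃ t, chk3 f_pm_022 t 8 37 1 = true :=
  ⟨(a (c (a (c (c (a (b (l 16180824) (l 16189168)) (b (l 16358984) (l 16222664))) (a (b (l 16209264) (l 16222288)) (b (l 16361160) (l 16273488)))) (a (b (c (l 16262072) (l 16313080)) (c (l 16237376) (l 16255336))) (b (c (a (l 16412056) (l 16486800)) (a (l 16420248) (l 16460792))) (c (l 16343968) (a (l 16392800) (l 16424880)))))) (b (a (c (a (l 16373920) (l 16253472)) (c (l 16289248) (l 16222872))) (b (l 1) (c (l 16082224) (l 431139450023)))) (c (a (c (l 16375688) (l 16399432)) (c (l 16302816) (l 16279320))) (a (c (l 16383336) (b (l 16455600) (l 16490112))) (c (l 16254984) (l 16208792)))))) (c (a (a (c (b (a (l 16386416) (l 16397000)) (l 16085456)) (c (b (a (l 16356816) (l 16427600)) (l 16148136)) (l 16217312))) (c (b (b (a (l 16560688) (l 16449368)) (l 16399176)) (c (l 16411456)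 (l 16337664))) (b (c (b (l 16454992) (l 16506352)) (l 16480056)) (l 16389336)))) (c (b (a (c (l 16283056) (b (l 16314048) (l 16354960))) (c (l 16118584) (l 15995112))) (a (c (l 16460936) (a (l 16496424) (l 16392320))) (c (l 117607093303) (b (l 16262864) (l 16339432))))) (b (a (b (l 16352808) (l 16366936)) (l 16156824)) (a (l 16442280) (b (l 16317928) (l 16368536)))))) (a (a (c (l 16177456) (l 16197920)) (b (b (l 16405160) (l 16488072)) (l 16334272))) (c (b (a (b (l 16281992) (l 16354688)) (l 16110232)) (a (l 16449064) (b (l 16245424) (l 16333632)))) (b (a (b (a (l 16395992) (l 16323392)) (l 16343176)) (l 297995267063)) (b (a (l 16485104) (a (l 16398752) (l 16265864))) (l 16293880))))))) (b (l 1) (a (a (c (c (c (l 16059736) (l 16076256)) (c (l 16092752) (l 16088240))) (c (c (c (l 16021216) (l 16187424)) (l 16120976)) (b (l 16121816) (c (l 16211040) (l 16013536))))) (l 1)) (l 1)))), by decide +kernel⟩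

def k3_pm_022 : ∃ t, chk3 f_pm_022 t 9 37 1 = true :=
  ⟨(l 1), by decide +kernel⟩

def k4_pm_022 : ∃ t, chk3 f_pm_022 t 16 19 1 = true :=
  ⟨(a (c (b (b (c (a (b (l 16099464) (b (l 16045744) (l 16026728))) (b (l 16202632) (b (l 16227824) (l 16186552)))) (c (b (l 16082792) (b (l 16112352) (l 16030232))) (b (l 16057944) (b (l 16064912) (l 15918056))))) (c (a (l 16064760) (l 16244968)) (c (l 16023728) (l 16011512)))) (c (a (c (l 16147256) (l 16153216)) (l 16188520)) (c (a (l 16156544) (l 16332472)) (l 15995184)))) (c (b (b (a (c (b (l 16112376) (b (l 16093456) (l 15922048))) (b (c (l 16146232) (l 16147296)) (l 16071088))) (c (b (c (l 16339792) (l 16346952)) (b (l 16142368) (c (l 16262976) (l 16264136)))) (l 16250960))) (c (c (l 16060104) (a (l 16087424) (l 16288704))) (l 16158664))) (c (a (c (l 16157632) (l 16145688)) (c (l 16317344) (l 16308616))) (l 16159552))) (b (b (a (l 16018136) (l 16164424)) (l 16089160)) (l 16070136)))) (c (b (b (c (b (a (c (l 16417856) (l 16425928)) (b (l 16405728)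 (l 16431056))) (a (b (l 16357248) (l 16291144)) (b (l 16459600) (c (l 16510608) (l 16557488))))) (c (b (a (l 16433768) (l 16442672)) (b (l 16330264) (l 16345152))) (b (a (l 16447280) (l 16434392)) (b (l 16386264) (l 16338736))))) (c (c (l 16291936) (l 16341560)) (c (l 16377696) (l 16394104)))) (c (a (l 16347384) (l 16317240)) (c (l 16384280) (b (l 16443344) (l 16299408))))) (c (c (b (b (b (a (c (l 16523808) (l 16465568)) (c (l 16423792) (l 16441344))) (b (c (l 16396232) (l 16397040)) (c (l 16332936) (l 16312784)))) (c (l 16343416) (l 16368144))) (c (b (l 16392880) (l 16386624)) (l 16436176))) (b (b (b (l 16410144) (l 16357640)) (l 16462920)) (l 16433136))) (b (b (b (a (l 16471040) (l 16381424)) (l 16327480)) (l 16426088)) (l 16389200))))), by decide +kernel⟩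

def k5_pm_022 : ∃ t, chk3 f_pm_022 t 34 19 1 = true :=
  ⟨(c (b (b (c (a (b (l 16211896) (b (l 16329448) (c (l 16406472) (l 16403216)))) (b (c (l 16022464) (l 16080224)) (b (c (l 16203440) (l 16199008)) (c (l 16175320) (l 16213160))))) (c (b (l 175051886055) (b (l 141766042583) (a (l 16377640) (l 16230000)))) (b (a (l 16308648) (l 16046568)) (a (b (l 16383288) (l 16371656)) (b (l 16186992) (l 16054296)))))) (c (a (c (l 16355296) (l 16368696)) (c (l 16201344) (l 16174952))) (a (c (l 16336144) (l 16297168)) (c (l 16147672) (a (l 16204960) (l 16090136)))))) (b (c (a (l 16289072) (c (a (l 16278752) (l 16194192)) (l 16118928))) (c (a (l 16386624) (l 16124792)) (c (l 16088544) (a (l 16352440) (l 16121432))))) (c (c (l 16110376) (l 16129712)) (c (l 16146472) (c (l 16210136) (l 16073600)))))) (a (c (c (b (b (c (b (l 16243400) (b (l 16339168) (a (l 16486720) (l 16377768)))) (b (l 16344912) (l 16345048))) (c (l 16311744) (l 16401856))) (c (l 16244440) (l 16292344))) (b (b (b (l 16275648) (l 16270592))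 (l 16389048)) (l 16282352))) (b (b (b (c (l 16222456) (l 176662701431)) (c (l 16233856) (l 16282728))) (l 16303304)) (l 16270824))) (b (b (c (c (c (b (l 16027448) (b (l 16190304) (l 16142368))) (l 15986224)) (b (l 16101232) (l 16093656))) (b (l 284573348327) (a (b (l 16180032) (l 16125912)) (b (l 1) (l 16157016))))) (a (c (c (c (l 16268328) (l 16258160)) (l 16244384)) (c (l 16226448) (l 16210640))) (c (l 16164216) (b (l 16046480) (l 16133360))))) (c (b (l 16092984) (l 16088320)) (l 15882320))))), by decide +kernel⟩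

def k6_pm_022 : ∃ t, chk3 f_pm_022 t 35 19 1 = true :=
  ⟨(b (a (b (l 1) (c (c (l 369399106103) (c (l 16067576) (l 350071623991))) (c (l 16052176) (b (l 16036920) (c (l 16040304) (l 15965512)))))) (l 1)) (c (c (b (c (l 175588421495) (l 157871655831)) (c (a (l 16077608) (l 15942912)) (a (l 16063248) (l 15933648)))) (c (b (l 139618007463) (a (l 16045144) (l 15923464))) (b (c (a (l 16064904) (l 15911992)) (a (l 16040712) (l 15915800))) (c (a (l 16026496) (l 15912904)) (a (l 16021568) (l 15910024)))))) (c (b (a (b (l 16048624) (l 16032272)) (l 15900160)) (a (l 15988904) (l 15798344))) (c (b (a (l 16013504) (l 15883232)) (l 15863904)) (b (a (l 15997704) (b (l 15877648) (l 15870552))) (l 15889744)))))), by decide +kernel⟩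

def k7_pm_022 : ∃ t, chk3 f_pm_022 t 9 19 1 = true :=
  ⟨(a (a (b (l 1) (c (c (c (l 400536717271) (l 394094248263)) (c (l 388725472951) (c (b (l 15527952) (l 15629704)) (l 15677896)))) (c (b (l 15659072) (l 413421481431)) (b (l 15598352) (a (b (l 15644272) (c (l 15730720) (l 15714312))) (l 15572440)))))) (l 1)) (l 1)), by decide +kernel⟩

def k8_pm_022 : ∃ t, chk3 f_pm_022 t 5 9 1 = true :=
  ⟨(l 1), by decide +kernel⟩

def k9_pm_022 : ∃ t, chk3 f_pm_022 t 3 4 1 = true :=
  ⟨(l 1), by decide +kernel⟩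

def k10_pm_022 : ∃ t, chk3 f_pm_022 t 8 20 4 = true :=
  ⟨(a (b (a (a (b (b (l 16038416) (l 16113576)) (l 16150840)) (b (l 16292344) (a (l 16305864) (l 16349688)))) (b (l 16290936) (c (l 16218008) (l 16226552)))) (a (b (a (l 16046872) (l 16236120)) (b (a (l 15834208) (l 16084504)) (l 15758496))) (b (a (c (l 16331960) (l 16370744)) (b (l 16304520) (l 16205528))) (b (a (l 16330368) (b (l 16202792) (a (l 16435184) (l 16302792)))) (l 16336328))))) (b (a (c (l 15979648) (l 15974576)) (b (c (a (l 16039224) (l 15932072)) (l 15875312)) (c (l 15931720) (l 15904496)))) (b (a (c (l 16089072) (l 16065304)) (l 15890512)) (b (a (b (l 15931552) (l 16054824)) (b (l 15891288) (l 15908584))) (a (a (l 16115096) (l 16062960)) (l 15947496)))))), by decide +kernel⟩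

def k11_pm_022 : ∃ t, chk3 f_pm_022 t 8 20 5 = true :=
  ⟨(b (a (a (a (b (c (l 16108960) (l 16104936)) (l 15918728)) (b (l 16239528) (c (a (l 16365864) (l 16496456)) (c (l 16342056) (l 16239288))))) (c (b (l 16389624) (l 16238264)) (c (l 16181880) (b (l 16356656) (l 16193200))))) (c (a (l 15926056) (b (l 15935352) (l 15870656))) (a (c (a (l 16169496) (l 16013488)) (b (l 16020072) (l 16037456))) (c (b (l 15914672) (l 15855128)) (l 15834336))))) (c (a (b (a (a (l 16038784) (l 16316080)) (a (l 16369792) (l 16298376))) (a (a (l 15704184) (l 15958152)) (b (b (a (l 16543840) (l 16302304)) (l 16336776)) (l 16419200)))) (b (a (l 16046192) (l 15837248)) (a (b (b (l 16051984) (l 16072904)) (a (l 16208448) (l 16039168))) (b (b (l 15841704) (l 15862040)) (l 15906528))))) (a (b (a (a (l 15996592) (c (l 16335048) (l 16269416))) (a (b (l 16233024) (l 16390872)) (b (l 16289864) (l 16156232)))) (a (b (b (a (l 15951864) (l 16185808)) (l 15851256)) (l 15738056)) (b (b (a (l 16435992) (c (l 16257632) (l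 16319672))) (a (l 16466160) (l 16242816))) (a (l 16331600) (l 16375320))))) (b (c (a (l 16039680) (l 15826688)) (l 15778816)) (a (b (b (l 15845648) (l 16077304)) (a (l 16128840) (l 16040600))) (l 15866832)))))), by decide +kernel⟩

def k12_pm_022 : ∃ t, chk3 f_pm_022 t 8 20 3 = true :=
  ⟨(c (a (b (c (a (a (c (b (l 15954976) (l 16132096)) (l 15924592)) (b (c (l 16395336) (l 16418992)) (b (c (l 16369304) (l 16435168)) (l 16420112)))) (a (b (l 16434544) (l 16487368)) (l 16341000))) (a (a (b (l 16180680) (l 16130760)) (b (l 16417528) (l 16337928))) (l 16261472))) (b (a (a (c (l 15874696) (l 16022304)) (l 16309368)) (a (l 16325424) (l 16269480))) (a (a (l 15854248) (l 16115120)) (a (l 16329744) (c (l 16169288) (l 16167152)))))) (b (a (l 15908568) (b (l 15878904) (l 15811856))) (b (a (l 16028296) (l 15794920)) (a (b (l 16051584) (l 15991088)) (l 15852216))))) (a (b (a (a (b (l 16132552) (l 16123904)) (b (l 16414576) (l 16303680))) (l 16174672)) (a (b (a (l 16013920) (l 16303920)) (l 15735112))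 (b (a (l 16344408) (l 16284008)) (a (l 16347592) (l 16142936))))) (b (a (l 15998928) (l 15813672)) (b (a (l 16016632) (l 15775888)) (a (b (l 16040416) (l 16023136)) (l 15837136)))))), by decide +kernel⟩

def k13_pm_022 : ∃ t, chk3 f_pm_022 t 18 20 1 = true :=
  ⟨(c (b (c (a (a (b (c (l 15800944) (l 15789824)) (c (l 15788272) (l 15768056))) (b (l 198136421191) (c (l 15661288) (l 15648296)))) (c (b (l 466034417063) (l 15376632)) (l 417715966391))) (c (a (b (a (l 15775152) (l 15627976)) (c (l 15649632) (a (l 15739832) (l 15629120)))) (c (l 414494696343) (b (l 15268696) (l 212094379975)))) (a (b (c (a (l 15770744) (l 15629400)) (l 15685816)) (a (l 15707376) (l 15615184))) (l 408052219415)))) (c (b (a (c (l 15609336) (l 15709592)) (c (a (l 15570400) (l 15428744)) (a (l 15556016) (l 15416632)))) (b (a (b (l 15705272) (l 15768848)) (b (c (a (l 15619920) (l 15492064)) (l 15496840)) (c (l 15589992) (l 15571464)))) (a (l 15810464) (c (l 15647392) (l 15625360))))) (b (c (a (c (l 15696216) (l 15682696))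 (c (a (l 15542032) (l 15404392)) (a (l 15538992) (l 15403328)))) (a (l 15657760) (l 15323632))) (c (b (b (a (l 15700504) (c (l 15418672) (l 15516216))) (a (l 15720424) (c (l 15555192) (l 15544584)))) (a (l 15761784) (l 15436520))) (a (l 15704744) (l 15306968)))))) (b (a (c (b (a (l 15729520) (l 15601568)) (a (l 15678728) (l 15579112))) (b (a (l 15668256) (c (l 15578528) (l 291551714871))) (l 15479648))) (c (b (l 15367848) (a (l 15371720) (l 15306544))) (b (l 499320169335) (a (b (l 15364088) (l 15417032)) (l 508446982903))))) (b (c (a (l 15620504) (a (l 15479280) (l 223368602855))) (a (l 15579016) (a (l 15431320) (b (l 289403671143) (l 15340520))))) (c (b (a (l 15642072) (l 15236848)) (l 15622568)) (c (l 15350544) (l 15522776)))))), by decide +kernel⟩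

def k14_pm_022 : ∃ t, chk3 f_pm_022 t 19 20 1 = true :=
  ⟨(a (b (l 1) (c (c (b (c (l 490193021495) (l 483213671495)) (b (b (c (l 242158838535) (l 15203912)) (c (l 15302416) (l 15288568))) (c (l 15378024) (l 15278272)))) (b (c (c (l 478381812055) (l 15159280)) (l 15148576)) (c (c (b (b (l 15132536) (l 15281760)) (l 15357800)) (l 155185682759)) (b (l 15240512) (l 15336552))))) (b (c (l 536900662519) (c (l 14893848) (l 575555284935))) (c (b (a (l 15303040) (l 15131712)) (l 262559985639)) (b (a (b (l 15247168) (l 15282944)) (l 15101592)) (a (l 15341360) (l 15198344))))))) (l 1)), by decide +kernel⟩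

def k15_pm_022 : ∃ t, chk3 f_pm_022 t 16 21 1 = true :=
  ⟨(c (c (a (b (a (b (l 15652736) (b (l 15512288) (l 15465696))) (b (l 15940776) (l 15712976))) (a (l 15421696) (b (l 15567864) (l 15515536)))) (b (b (a (l 16163880) (l 16382528)) (l 15944000)) (b (a (l 15727672) (l 16038280)) (a (l 15635896) (l 15719720))))) (b (a (c (b (l 15610624) (a (l 15482272) (l 15703456))) (b (a (l 15626760) (l 15919640)) (a (l 15401088) (l 15686320)))) (c (b (a (l 16202776) (l 16405816)) (l 15918880)) (b (a (l 16106608) (l 16353400)) (l 15928440)))) (a (c (a (l 15406144) (b (l 15554600) (l 15498592))) (a (l 15390464) (l 15518896))) (c (b (a (l 15757760) (l 16028800)) (a (l 15619408) (l 15808016))) (b (l 15867872) (l 15698256)))))) (b (a (b (c (l 15632520) (l 15637216)) (a (l 15378896) (l 15668904))) (b (a (l 16123552) (l 16355992)) (l 15898784))) (a (b (a (l 15382648) (l 15516928)) (l 15396560)) (b (c (l 15815240) (l 15842768)) (a (l 15587728) (l 15782904)))))), by decide +kernel⟩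

def k16_pm_022 : ∃ t, chk3 f_pm_022 t 17 21 1 = true :=
  ⟨(c (b (c (a (b (a (l 16121632) (a (l 16025040) (l 16118880))) (a (l 16443392) (c (l 16211896) (l 16229288)))) (b (l 16028760) (a (b (l 16148168) (l 16189496)) (l 16100952)))) (a (b (c (a (l 16134024) (b (l 16101816) (l 16099016))) (a (l 16138896) (l 16123616))) (c (a (l 16443304) (l 16143256)) (a (l 16546376) (l 16244840)))) (c (b (l 15998992) (a (l 15977736) (l 16083568))) (b (l 15989752) (l 16048032))))) (c (a (b (a (l 16229304) (l 16466720)) (c (l 16064456) (l 16020848))) (b (a (l 16233552) (c (l 16142840) (l 16132448))) (a (l 16443920) (l 16292656)))) (c (a (b (a (l 16201504) (l 16462744)) (l 15989688)) (b (a (l 16278184) (l 16071944)) (l 16394768))) (a (a (l 16101744) (l 16324152)) (a (l 16360328) (b (l 16232144) (l 16460800))))))) (b (a (b (a (c (l 16194504) (l 16231328)) (b (l 16087288) (l 16064888))) (a (l 16418592) (b (l 16193496) (l 16364784)))) (b (l 15974104) (a (l 15960336) (l 16061272)))) (a (b (a (l 16213408)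 (l 16463824)) (l 15978048)) (b (b (l 16000648) (l 16154384)) (l 16369120))))), by decide +kernel⟩

def k17_pm_022 : ∃ t, chk3 f_pm_022 t 9 21 1 = true :=
  ⟨(a (c (b (c (c (a (l 15958432) (b (l 15747200) (l 15878648))) (b (l 15691664) (l 15769408))) (c (b (c (l 15738936) (l 15770440)) (l 15687064)) (l 15690584))) (c (b (c (l 16055656) (l 15886200)) (a (a (c (l 16175720) (l 16146736)) (l 15997024)) (l 15895848))) (b (c (l 15895456) (l 16001736)) (a (l 16006736) (l 16050472))))) (b (c (b (l 15701872) (l 15848408)) (l 15674536)) (b (l 15935608) (a (a (l 16133264) (l 16158192)) (l 16027232))))) (b (b (a (c (c (c (a (l 15598512) (l 15445408)) (a (l 15516296) (l 15344680))) (c (a (c (l 15572000) (l 15558744)) (l 15399992)) (l 15382832))) (c (a (l 15497800) (l 15371248)) (a (l 15450488) (l 15160488)))) (a (c (c (c (l 15269464) (l 15231736)) (l 15235904)) (c (l 15207448) (l 516499655671))) (l 1))) (c (c (a (c (a (l 15758968) (l 15631760)) (a (l 15732008) (l 15507920))) (c (l 15302400) (c (l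 15332512) (l 15287912)))) (a (l 15525256) (l 15160480))) (a (c (l 15579696) (l 15538312)) (c (a (l 15396128) (l 15237072)) (a (l 15352128) (l 484287458615)))))) (c (c (a (c (l 15792832) (b (l 15811128) (l 15934864))) (c (b (l 15411400) (l 15619984)) (b (c (l 15420072) (l 15497384)) (l 15558928)))) (a (l 15684968) (b (l 15299408) (l 15682488)))) (a (c (l 15784888) (l 15756760)) (b (c (l 15359112) (l 15378480)) (l 15468352)))))), by decide +kernel⟩

def k18_pm_022 : ∃ t, chk3 f_pm_022 t 5 10 1 = true :=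
  ⟨(b (l 1) (a (a (a (b (b (l 1) (c (c (c (l 14885592) (l 638905919079)) (l 14993040)) (l 608304129735))) (c (c (c (b (l 15244712) (l 15199008)) (b (l 15087472) (l 84319113831))) (b (l 15210240) (l 15329864))) (b (c (l 15157680) (a (l 15021824) (l 15059520))) (c (l 15164224) (a (l 15409064) (l 15161496)))))) (b (l 1) (b (l 1) (c (c (c (l 14893320) (l 15092040)) (l 15067784)) (l 530994868119))))) (l 1)) (l 1))), by decide +kernel⟩

def k19_pm_022 : ∃ t, chk3 f_pm_022 t 8 11 1 = true :=
  ⟨(b (a (c (b (c (a (c (l 15404712) (l 15388728)) (b (l 15542664) (l 15599208))) (c (a (l 15372264) (l 15604536)) (a (l 15363656) (l 15597504)))) (a (c (b (l 15329264) (a (l 15208688) (l 15336280))) (a (l 15214976) (l 15338568))) (c (l 15524328) (l 15503536)))) (b (a (l 15334400) (l 15489000)) (a (b (l 15263752) (l 15072648)) (l 15471696)))) (c (b (c (a (b (a (b (l 15911720) (l 15826392)) (l 16045240)) (a (l 15761744) (c (l 15910128) (l 15902168)))) (b (l 16127712) (l 16039952))) (a (b (l 15729016) (l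 15596208)) (l 16021752))) (c (a (c (l 15736520) (l 15726128)) (b (a (l 15764928) (l 15997040)) (a (l 15775920) (l 15820272)))) (a (l 15713928) (b (l 15927920) (l 15787728))))) (b (a (b (a (l 15834408) (l 16077808)) (a (l 15716640) (l 15869832))) (b (l 16279240) (l 16118720))) (a (l 15687088) (b (l 15885656) (l 15762464)))))) (b (a (c (a (b (b (a (c (l 15133216) (l 15105896)) (b (l 15290288) (l 15290976))) (l 15056624)) (l 15144984)) (b (c (b (l 15469856) (l 15492040)) (l 15459568)) (a (l 15433456) (l 15571672)))) (a (b (a (l 15047840) (l 15233128)) (l 15086352)) (b (l 15426800) (l 15455496)))) (c (b (b (a (b (l 15599520) (l 15670400)) (l 15745304)) (l 15729104)) (l 15766688)) (l 15707640))) (a (a (c (l 15062648) (l 15000680)) (c (b (l 15487864) (l 15442888)) (l 15419744))) (a (c (b (l 15773768) (l 15728848)) (l 15723200)) (l 15864512))))), by decide +kernel⟩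

def k20_pm_022 : ∃ t, chk3 f_pm_022 t 9 11 1 = true :=
  ⟨(b (a (a (b (c (c (b (b (a (l 16441576) (l 16129048)) (c (l 16418888) (l 16376144))) (l 16269952)) (b (c (l 16193088) (l 16212264)) (l 16455624))) (b (b (l 16183976) (l 16390032)) (l 16409048))) (c (c (b (l 16120600) (l 15995768)) (l 15954704)) (l 15855184))) (b (c (c (b (c (l 16213608) (l 16138632)) (b (c (l 16170008) (l 16184480)) (a (l 16454304) (l 16268384)))) (b (l 16185472) (a (l 16332712) (l 16284336)))) (b (l 16170576) (a (l 16263672) (l 16274360)))) (c (c (b (a (l 16447040) (b (l 16323040) (l 16549184))) (l 16190536)) (b (l 16375672) (l 16332216))) (b (l 16332120) (l 16323088))))) (b (c (c (c (b (l 15815584) (l 16025296)) (b (l 15794208) (l 16020056))) (a (l 16064800) (l 15870312))) (c (l 15790384) (l 15833152))) (c (a (c (b (a (b (l 16317248) (a (l 16418248) (l 16362696))) (l 16264096)) (a (l 16375144) (b (l 16359368) (l 16423312)))) (b (a (l 16347016) (l 16238824)) (a (l 16540072) (l 16397176)))) (c (c (l 16138896)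 (l 16178496)) (l 16156592))) (a (b (a (l 16318008) (l 16227312)) (a (l 16517496) (l 16369720))) (l 16112688))))) (a (c (b (b (a (b (b (c (l 15861600) (l 15867464)) (l 15851288)) (l 15839720)) (b (b (l 16190504) (l 16155040)) (l 16109600))) (a (l 15844992) (l 16026080))) (a (l 15909184) (l 15871608))) (b (a (b (l 15809224) (l 15813056)) (l 15894288)) (l 15900888))) (b (a (b (b (b (b (l 16333440) (l 16330872)) (l 16412408)) (l 16366024)) (l 16253584)) (b (c (a (b (b (l 16351472) (l 16388456)) (l 16424424)) (l 16288952)) (a (l 16355872) (l 16266968))) (a (l 16466152) (c (l 16284800) (l 16334680))))) (a (c (l 16033048) (l 16160440)) (l 16353632))))), by decide +kernel⟩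

def k21_pm_022 : ∃ t, chk3 f_pm_022 t 5 11 1 = true :=
  ⟨(b (a (a (b (c (c (a (c (b (a (l 15719880) (l 15573008)) (l 15747088)) (b (l 15627232) (l 15785344))) (c (b (l 15320440) (l 15342648)) (l 99888203639))) (a (b (l 15572304) (l 15748160)) (b (l 15287712) (l 15469000)))) (a (c (b (l 15546688) (l 15698816)) (l 15454952)) (b (c (l 15254312) (a (l 15282992) (l 15139560))) (c (l 15365384) (l 282424414119))))) (c (c (b (a (l 15924112) (c (l 15576248) (l 15703192))) (c (l 15831712) (l 15960504))) (a (l 15960288) (l 15529984))) (c (a (l 15916872) (l 15612736)) (l 15590096)))) (a (b (a (b (l 1) (c (c (l 253969985751) (l 15243920)) (l 15009920))) (l 1)) (c (c (c (b (l 15410640) (l 15578232)) (l 76803034295)) (b (l 15376232) (l 15576856))) (b (c (l 15341128) (a (l 15387088) (l 15230592))) (c (l 15535312) (l 15473616))))) (b (l 1) (b (l 1) (c (l 15072992) (a (l 15147976) (l 1))))))) (l 1)) (a (a (b (c (b (c (l 15927576) (l 16026632)) (l 16081608)) (l 15804120)) (a (b (c (l 16018296) (l 16185680))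 (a (l 16425496) (l 16159816))) (c (l 16025776) (l 15981560)))) (c (b (a (b (c (b (l 15660808) (l 15776704)) (l 15711448)) (l 15780656)) (b (c (b (l 15451368) (l 15507736)) (l 15388096)) (a (l 15610736) (l 15503448)))) (a (l 15834488) (a (l 15679472) (l 15598624)))) (b (a (b (l 15432888) (l 15689064)) (a (c (l 15380336) (l 15254168)) (b (b (l 15317000) (l 15370264)) (l 15427984)))) (l 15547712)))) (a (b (b (b (l 1) (l 15149568)) (c (l 15264712) (l 346311637223))) (c (c (l 11304608599) (l 228737296791)) (a (b (l 15289000) (l 15462432)) (l 346311776663)))) (l 1)))), by decide +kernel⟩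

def k22_pm_022 : ∃ t, chk3 f_pm_022 t 3 5 1 = true :=
  ⟨(l 1), by decide +kernel⟩

def k23_pm_022 : ∃ t, chk3 f_pm_022 t 4 6 1 = true :=
  ⟨(a (b (a (b (c (a (l 14907224) (l 15313336)) (l 14934560)) (a (b (c (l 14742912) (l 14711112)) (l 14727736)) (c (b (l 15169232) (l 15105208)) (l 14957792)))) (a (c (b (l 15593168) (l 15509280)) (b (l 15662704) (l 15465832))) (b (b (b (l 15930232) (l 15938632)) (l 15886544)) (l 15741928)))) (a (c (a (l 14762712) (l 15089272)) (l 14846768)) (b (a (c (l 15406112) (l 15358056)) (b (l 15610936) (l 15563008))) (l 15235264)))) (b (b (a (b (l 16005208) (a (l 15996048) (l 16110512))) (b (a (b (l 16051368) (l 16087024)) (a (l 16145040) (l 16384520))) (a (l 16154120) (l 16255032)))) (a (b (a (l 15986792) (l 16144352)) (l 15989992)) (b (l 16282200) (a (l 16257344) (l 16402600))))) (b (a (l 15672864) (b (l 16152504) (l 16226144))) (a (b (l 15769024) (l 15746376)) (l 15946776))))), by decide +kernel⟩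

def k24_pm_022 : ∃ t, chk3 f_pm_022 t 5 6 1 = true :=
  ⟨(b (a (b (a (b (a (l 16362360) (b (c (l 15984592) (l 16085112)) (l 16098944))) (a (l 16251416) (l 16353896))) (b (c (a (l 15898120) (l 15720296)) (l 15539720)) (a (b (l 15799784) (l 16130304)) (c (l 15690000) (l 15746464))))) (a (b (a (l 16424984) (l 16481696)) (l 16545552)) (b (a (l 16330984) (b (l 15819608) (l 16059912))) (a (l 16579224) (l 16286496))))) (b (a (a (c (l 15667488) (l 15586432)) (b (c (l 15521440) (l 260949641495)) (l 15504264))) (b (c (l 15263256) (a (l 347922438775) (l 1))) (c (a (l 15540048) (l 15388672)) (a (l 15457184) (l 349533099095))))) (b (a (a (b (l 15732224) (l 15800520)) (l 15683472)) (c (a (l 15652352) (l 15557448)) (l 15452712))) (a (a (l 15946184) (b (l 15744184) (l 15825904))) (l 15657856))))) (a (b (a (b (l 16611872) (l 16511304)) (b (a (l 16628456) (l 16509376)) (l 16498392))) (a (l 16542352) (a (l 16404792) (l 16314768)))) (b (a (b (a (l 16355000) (l 16048488)) (a (l 16545072) (l 16393568)))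 (b (a (b (l 15759592) (l 15854480)) (l 15703632)) (a (l 16089952) (l 15614024)))) (a (l 16381968) (b (a (l 16406872) (l 16133432)) (a (l 16551168) (l 16436888))))))), by decide +kernel⟩

def k25_pm_022 : ∃ t, chk3 f_pm_022 t 2 7 1 = true :=
  ⟨(a (a (a (b (c (l 14920576) (l 14846768)) (l 14888424)) (c (l 15446576) (l 15443280))) (b (a (l 15744944) (b (l 15931064) (l 16025840))) (l 15887280))) (b (a (a (b (l 16246544) (l 16333024)) (b (l 16496632) (a (l 16643312) (l 16651208)))) (b (a (b (l 16309360) (l 16315704)) (l 16242368)) (a (l 16479736) (l 16169488)))) (a (a (l 16369808) (l 16688176)) (b (a (l 16693664) (l 16511600)) (a (l 16775624) (l 16711048)))))), by decide +kernel⟩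

def k26_pm_022 : ∃ t, chk3 f_pm_022 t 3 3 1 = true :=
  ⟨(b (a (b (a (b (a (l 325373149319) (l 1)) (a (b (a (c (l 15412904) (l 350606886615)) (l 15192328)) (c (a (l 15573552) (l 15436408)) (a (l 15486576) (l 15112392)))) (c (l 14989176) (l 356511712951)))) (l 1)) (a (b (a (b (c (l 15480056) (l 15541800)) (c (l 15712656) (l 15643192))) (a (b (c (l 15459088) (l 15196120)) (l 15440424)) (b (l 343627374327) (c (l 15480880) (l 15404608))))) (a (b (a (l 15747264) (l 15725088)) (a (l 16178592) (l 15861824))) (c (b (l 15651392) (l 15736592)) (l 15394440)))) (b (b (l 1) (a (l 418252277255) (l 1))) (a (a (c (l 223368867191) (l 15288336)) (b (l 15194616) (l 245917334503))) (b (l 1) (l 419862994823)))))) (l 1)) (a (b (a (b (a (b (a (l 16462680) (l 16223328)) (l 16434208)) (b (a (l 15936688) (l 15755008)) (l 15894840))) (a (l 16309832) (b (a (l 16522648) (l 16312192)) (l 16506600)))) (b (a (b (l 15632448) (l 15546792)) (b (c (l 15432048) (l 270076324327)) (c (l 15598752) (l 15515624)))) (a (b (a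 (l 16009096) (l 15795008)) (l 16068224)) (b (l 15657856) (l 15562152))))) (a (b (a (l 16240312) (l 16363440)) (a (l 16543112) (l 16336416))) (b (a (b (l 16444512) (l 16505072)) (b (l 15731672) (l 16114712))) (a (l 16364928) (l 16325720))))) (b (a (b (a (b (l 15060232) (l 420399966567)) (l 1)) (a (b (a (l 15534160) (l 15396184)) (l 15583712)) (b (l 15115888) (l 261486272999)))) (l 1)) (a (a (b (b (l 15679472) (l 15605328)) (b (l 15883808) (l 16262048))) (b (b (l 264170961911) (l 15609560)) (b (l 15705128) (l 15697056)))) (b (a (b (l 15170064) (l 15157152)) (l 1)) (a (b (l 15502064) (l 15632448)) (b (l 15222480) (l 15326192)))))))), by decide +kernel⟩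

theorem s27_pm_022 : ∃ t, chk3 f_pm_022 t 2 6 1 = true := ex3_a k23_pm_022 k24_pm_022

theorem s28_pm_022 : ∃ t, chk3 f_pm_022 t 2 3 1 = true := ex3_b s27_pm_022 k25_pm_022

theorem s29_pm_022 : ∃ t, chk3 f_pm_022 t 1 3 1 = true := ex3_a s28_pm_022 k26_pm_022

theorem s30_pm_022 : ∃ t, chk3 f_pm_022 t 4 11 1 = true := ex3_a k19_pm_022 k20_pm_022

theorem s31_pm_022 : ∃ t, chk3 f_pm_022 t 2 11 1 = true := ex3_a s30_pm_022 k21_pm_022

theorem s32_pm_022 : ∃ t, chk3 f_pm_022 t 8 21 1 = true := ex3_a k15_pm_022 k16_pm_022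

theorem s33_pm_022 : ∃ t, chk3 f_pm_022 t 4 21 1 = true := ex3_a s32_pm_022 k17_pm_022

theorem s34_pm_022 : ∃ t, chk3 f_pm_022 t 9 20 1 = true := ex3_a k13_pm_022 k14_pm_022

theorem s35_pm_022 : ∃ t, chk3 f_pm_022 t 8 20 2 = true := ex3_c k10_pm_022 k11_pm_022

theorem s36_pm_022 : ∃ t, chk3 f_pm_022 t 8 20 1 = true := ex3_c s35_pm_022 k12_pm_022

theorem s37_pm_022 : ∃ t, chk3 f_pm_022 t 4 20 1 = true := ex3_a s36_pm_022 s34_pm_022

theorem s38_pm_022 : ∃ t, chk3 f_pm_022 t 4 10 1 = true := ex3_b s37_pm_022 s33_pm_022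

theorem s39_pm_022 : ∃ t, chk3 f_pm_022 t 2 10 1 = true := ex3_a s38_pm_022 k18_pm_022

theorem s40_pm_022 : ∃ t, chk3 f_pm_022 t 2 5 1 = true := ex3_b s39_pm_022 s31_pm_022

theorem s41_pm_022 : ∃ t, chk3 f_pm_022 t 1 5 1 = true := ex3_a s40_pm_022 k22_pm_022

theorem s42_pm_022 : ∃ t, chk3 f_pm_022 t 17 19 1 = true := ex3_a k5_pm_022 k6_pm_022

theorem s43_pm_022 : ∃ t, chk3 f_pm_022 t 8 19 1 = true := ex3_a k4_pm_022 s42_pm_022

theorem s44_pm_022 : ∃ t, chk3 f_pm_022 t 4 19 1 = true := ex3_a s43_pm_022 k7_pm_022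

theorem s45_pm_022 : ∃ t, chk3 f_pm_022 t 4 37 1 = true := ex3_a k2_pm_022 k3_pm_022

theorem s46_pm_022 : ∃ t, chk3 f_pm_022 t 4 18 1 = true := ex3_b k1_pm_022 s45_pm_022

theorem s47_pm_022 : ∃ t, chk3 f_pm_022 t 4 9 1 = true := ex3_b s46_pm_022 s44_pm_022

theorem s48_pm_022 : ∃ t, chk3 f_pm_022 t 2 9 1 = true := ex3_a s47_pm_022 k8_pm_022

theorem s49_pm_022 : ∃ t, chk3 f_pm_022 t 2 4 1 = true := ex3_b k0_pm_022 s48_pm_022

theorem s50_pm_022 : ∃ t, chk3 f_pm_022 t 1 4 1 = true := ex3_a s49_pm_022 k9_pm_022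

theorem s51_pm_022 : ∃ t, chk3 f_pm_022 t 1 2 1 = true := ex3_b s50_pm_022 s41_pm_022

theorem s52_pm_022 : ∃ t, chk3 f_pm_022 t 1 1 1 = true := ex3_b s51_pm_022 s29_pm_022

theorem c_pm_022 : CertNX 67108864 469762048 1073741824 536870912 1046898278 26843546 3 true true false .pp 0 2 2
    ndN1q0 ndN3q2 pcN2 Cut.none Ext.none :=
  certNX1 (fam := true) (s1 := true) (s2 := false) (a := 0) (b := 2) (c := 2) (cn := .pp) (n1 := ndN1q0) (n2 := ndN3q2) (pc := pcN2) (cut := Cut.none) (xt := Ext.none) (P1 := 67108864) (W1 := 469762048) (P2 := 1073741824) (W2 := 536870912) (P3 := 1046898278) (W3 := 26843546) (N0 := 3)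
    rfl (fun _ => rfl) s52_pm_022

noncomputable def f_pm_023 : ℕ → ℕ → ℕ → ℕ → Bool := onCell 67108864 469762048 1610612736 536870912 1046898278 26843546
    (rowNX 3 1 true true false .up 0 2 3 (qsf 67108864 469762048 1073741824 536870912 3) ndN1q0 ndN3q2 pcN3 Cut.none Ext.none)

def k0_pm_023 : ∃ t, chk3 f_pm_023 t 1 1 1 = true :=
  ⟨(b (a (a (b (a (a (c (l 14920576) (l 14846768)) (c (l 15488520) (l 15443280))) (l 15887280)) (b (a (l 2) (l 15887280)) (l 2))) (b (a (l 16530888) (l 16777192)) (b (l 16658224) (a (l 16530888) (l 16777216))))) (b (a (b (a (b (a (l 16726328) (l 16573816)) (l 16752104)) (b (a (l 16373840) (l 16350192)) (a (l 16602288) (l 16394456)))) (a (l 16777216) (b (l 16678024) (l 16765640)))) (b (a (b (a (l 16457288) (a (l 16382016) (l 16042704))) (a (l 16340128) (l 16455032))) (a (b (b (l 15735536) (l 15816144)) (a (l 16427504) (l 16075504))) (b (l 15393304) (b (l 15771872) (l 15878472))))) (a (b (a (l 16419152) (l 16334672)) (l 16318280)) (b (a (l 16444888) (b (l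 16177624) (l 16476480))) (a (l 16333736) (l 16389168)))))) (b (a (l 16777216) (a (b (l 16708496) (l 16773920)) (b (l 16425992) (l 16598792)))) (a (l 16777216) (a (l 16777216) (b (l 16733128) (l 16777152))))))) (b (a (a (l 2) (b (a (l 2) (l 16777208)) (l 2))) (b (a (l 16777208) (l 16777208)) (b (l 16777176) (l 16777176)))) (b (a (l 2) (b (l 16776704) (l 4))) (l 4)))), by decide +kernel⟩

theorem c_pm_023 : CertNX 67108864 469762048 1073741824 536870912 1046898278 26843546 3 true true false .up 0 2 3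
    ndN1q0 ndN3q2 pcN3 Cut.none Ext.none :=
  certNX1 (fam := true) (s1 := true) (s2 := false) (a := 0) (b := 2) (c := 3) (cn := .up) (n1 := ndN1q0) (n2 := ndN3q2) (pc := pcN3) (cut := Cut.none) (xt := Ext.none) (P1 := 67108864) (W1 := 469762048) (P2 := 1073741824) (W2 := 536870912) (P3 := 1046898278) (W3 := 26843546) (N0 := 3)
    rfl (fun _ => rfl) k0_pm_023

noncomputable def f_pm_033 : ℕ → ℕ → ℕ → ℕ → Bool := onCell 67108864 469762048 1610612736 536870912 1046898278 26843546
    (rowNX 3 1 true true false .pnn 0 3 3 (qsf 67108864 469762048 1610612736 536870912 3) ndN1q0 ndN3q3 pcN3 Cut.none Ext.none)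

def k0_pm_033 : ∃ t, chk3 f_pm_033 t 1 1 1 = true :=
  ⟨(b (a (b (a (a (a (l 186860350919) (l 179345313207)) (l 15887280)) (l 1)) (a (b (a (a (l 14888424) (l 15465952)) (l 15887280)) (a (a (c (l 14920576) (l 14846768)) (l 15256240)) (l 15887280))) (b (l 16658224) (a (l 16530888) (l 16777216))))) (l 1)) (b (b (a (a (a (c (a (l 14920568) (l 15488512)) (a (l 14846760) (l 15443280))) (l 15887280)) (a (l 16530880) (l 16777208))) (b (l 16777216) (l 16777192))) (b (a (a (a (a (l 4) (l 45865782711)) (l 15887280)) (a (l 16530880) (l 16777200))) (l 16777176)) (a (a (l 4) (a (l 4) (l 16777216))) (l 16777176)))) (b (a (l 4) (b (l 16776704) (l 4))) (l 4)))), by decide +kernel⟩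

theorem c_pm_033 : CertNX 67108864 469762048 1610612736 536870912 1046898278 26843546 3 true true false .pnn 0 3 3
    ndN1q0 ndN3q3 pcN3 Cut.none Ext.none :=
  certNX1 (fam := true) (s1 := true) (s2 := false) (a := 0) (b := 3) (c := 3) (cn := .pnn) (n1 := ndN1q0) (n2 := ndN3q3) (pc := pcN3) (cut := Cut.none) (xt := Ext.none) (P1 := 67108864) (W1 := 469762048) (P2 := 1610612736) (W2 := 536870912) (P3 := 1046898278) (W3 := 26843546) (N0 := 3)
    rfl (fun _ => rfl) k0_pm_033

noncomputable def f_pm_101 : ℕ → ℕ → ℕ → ℕ → Bool := onCell 536870912 536870912 0 536870912 1046898278 26843546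
    (rowNX 3 2 true true false .npn 1 0 1 (qsf 536870912 536870912 0 536870912 1) ndN1q1 ndN3q0 pcN1 Cut.none Ext.none)

def k0_pm_101 : ∃ t, chk3 f_pm_101 t 1 1 1 = true :=
  ⟨(a (l 3) (b (l 3) (l 3))), by decide +kernel⟩

theorem c_pm_101 : CertNX 536870912 536870912 0 536870912 1046898278 26843546 3 true true false .npn 1 0 1
    ndN1q1 ndN3q0 pcN1 Cut.none Ext.none :=
  certNX2 (fam := true) (s1 := true) (s2 := false) (a := 1) (b := 0) (c := 1) (cn := .npn) (n1 := ndN1q1) (n2 := ndN3q0) (pc := pcN1) (cut := Cut.none) (xt := Ext.none) (P1 := 536870912) (W1 := 536870912) (P2 := 0) (W2 := 536870912) (P3 := 1046898278) (W3 := 26843546) (N0 := 3)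
    rfl (fun _ => rfl) k0_pm_101

noncomputable def f_pm_102 : ℕ → ℕ → ℕ → ℕ → Bool := onCell 536870912 536870912 1073741824 536870912 1046898278 26843546
    (rowNX 3 1 true true false .npp 1 0 2 (qsf 536870912 536870912 0 536870912 2) ndN1q1 ndN3q0 pcN2 Cut.none Ext.none)

def k0_pm_102 : ∃ t, chk3 f_pm_102 t 1 8 1 = true :=
  ⟨(a (b (l 3) (b (a (l 3) (l 3)) (b (a (c (l 16073248) (l 16047416)) (c (l 643337349799) (l 809767307063))) (a (c (l 16136200) (l 16135048)) (a (c (l 16198120) (l 16177464)) (b (l 16201104) (l 16234200))))))) (b (l 3) (b (l 3) (b (a (l 3) (l 3)) (a (a (c (l 16210912) (l 16191928)) (b (l 3) (a (l 16337288) (l 16310024)))) (a (l 3) (l 3))))))), by decide +kernel⟩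

def k1_pm_102 : ∃ t, chk3 f_pm_102 t 1 9 1 = true :=
  ⟨(a (a (b (a (b (l 16258656) (l 2)) (b (c (l 16303680) (l 16287736)) (l 16544288))) (b (b (l 16756544) (l 16747336)) (l 16775960))) (b (b (b (c (l 16196600) (l 16137160)) (l 16355696)) (b (l 16480552) (l 16626008))) (b (b (c (l 16769544) (l 16769264)) (l 16726008)) (l 16754616)))) (b (a (b (a (b (c (l 16304440) (l 16288984)) (a (l 16369960) (l 16402392))) (b (a (b (l 16368224) (l 16391664)) (b (l 16281680) (a (l 16349664) (l 16307992)))) (a (c (l 16439664) (l 16434880)) (b (a (l 16369624) (l 16321064)) (l 16368832))))) (a (c (l 16572224) (l 16566152)) (a (l 16551744) (b (l 16189304) (l 16358344))))) (a (b (b (b (a (l 16144992) (l 15979656)) (a (l 16148720) (l 15971040))) (b (c (l 15911280) (l 15865640)) (l 15955736))) (a (l 16171096) (c (l 16069320) (l 16044248)))) (b (a (c (b (b (l 15962616) (l 15937184)) (l 15929080)) (b (b (l 15933864) (l 15907544)) (l 15899216))) (b (a (b (l 16213256) (l 16084208)) (b (a (l 16495400) (l 16534160))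 (l 16334016))) (b (a (c (l 16030160) (l 16004616)) (c (l 16382112) (l 16370336))) (a (l 15960776) (l 16284048))))) (a (c (l 15965792) (l 15937504)) (a (b (l 15810872) (l 15967728)) (b (l 16059216) (c (l 16084392) (l 16061912)))))))) (a (b (a (b (l 16656656) (l 16726136)) (b (c (l 16544592) (l 16393304)) (l 16689360))) (a (l 16756488) (l 16666608))) (a (b (b (a (l 16146600) (l 16121728)) (a (l 16403072) (l 16203776))) (a (l 16291296) (l 16120104))) (b (b (a (c (l 16057904) (l 16033440)) (b (a (l 16019824) (l 15923872)) (a (l 16045352) (l 16053576)))) (a (l 16041504) (l 16005952))) (a (l 15932080) (l 15669344))))))), by decide +kernel⟩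

def k2_pm_102 : ∃ t, chk3 f_pm_102 t 1 5 1 = true :=
  ⟨(a (b (b (b (a (l 16657536) (l 16673944)) (b (l 16532544) (a (l 2) (b (l 16462288) (l 16436216))))) (l 16496944)) (b (b (l 16619120) (c (l 16641984) (l 16708768))) (c (l 45198123479) (l 16777016)))) (b (a (b (b (a (l 16686792) (l 16553240)) (b (a (l 16542568) (l 16477448)) (b (a (l 16464312) (l 16426064)) (a (l 16438360) (b (l 16413208) (l 16407832)))))) (a (l 16492720) (l 16449824))) (b (a (b (a (l 16228512) (l 15894832)) (b (a (l 16112448) (l 15776712)) (b (l 15814400) (b (l 15862664) (l 15857576))))) (b (a (l 15713936) (b (l 15614648) (l 15457216))) (b (a (l 15520688) (l 15298816)) (b (a (l 15425544) (l 15191192)) (b (l 15285032) (a (l 15392336) (l 15163168))))))) (b (a (l 15880432) (a (l 15394760) (c (b (l 15176368) (l 15177896)) (c (c (b (l 15148544) (l 15145040)) (l 15113840)) (l 15010936))))) (c (a (a (l 16119000) (l 15777168)) (a (a (l 15523080) (l 15221648)) (c (l 15201080) (b (l 15163864) (l 15159352))))) (a (c (l 15729416)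 (l 15802672)) (a (c (a (l 15483864) (l 15199464)) (l 15390584)) (c (b (l 15135296) (l 15131240)) (l 15133008)))))))) (b (b (a (a (l 16618592) (c (l 16535736) (l 16410728))) (a (c (a (l 16190856) (l 15824744)) (a (l 16169848) (l 15810144))) (a (c (c (l 15519952) (l 15490096)) (l 15471112)) (c (c (a (l 15284800) (l 15175400)) (a (l 15264520) (l 15155104))) (c (l 15200248) (l 15141864)))))) (a (a (l 16723872) (c (l 16613792) (l 16605824))) (a (c (l 15935976) (l 16090120)) (c (a (l 15634240) (b (l 15074192) (l 15383056))) (a (l 15601616) (l 15284048)))))) (b (a (a (l 16762200) (l 16647440)) (a (l 16022704) (c (l 15476784) (l 15539592)))) (a (l 16509840) (a (l 16169936) (l 15561248))))))), by decide +kernel⟩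

def k3_pm_102 : ∃ t, chk3 f_pm_102 t 1 3 1 = true :=
  ⟨(a (b (c (l 47345303559) (l 16777216)) (l 2)) (a (b (b (c (l 16699936) (l 16697224)) (b (l 16698584) (l 16698584))) (l 16698584)) (b (a (b (l 16169936) (l 16169936)) (b (l 15519312) (l 15561248))) (a (l 16169936) (l 15561248))))), by decide +kernel⟩

theorem s4_pm_102 : ∃ t, chk3 f_pm_102 t 1 4 1 = true := ex3_b k0_pm_102 k1_pm_102

theorem s5_pm_102 : ∃ t, chk3 f_pm_102 t 1 2 1 = true := ex3_b s4_pm_102 k2_pm_102

theorem s6_pm_102 : ∃ t, chk3 f_pm_102 t 1 1 1 = true := ex3_b s5_pm_102 k3_pm_102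

theorem c_pm_102 : CertNX 536870912 536870912 0 536870912 1046898278 26843546 3 true true false .npp 1 0 2
    ndN1q1 ndN3q0 pcN2 Cut.none Ext.none :=
  certNX1 (fam := true) (s1 := true) (s2 := false) (a := 1) (b := 0) (c := 2) (cn := .npp) (n1 := ndN1q1) (n2 := ndN3q0) (pc := pcN2) (cut := Cut.none) (xt := Ext.none) (P1 := 536870912) (W1 := 536870912) (P2 := 0) (W2 := 536870912) (P3 := 1046898278) (W3 := 26843546) (N0 := 3)
    rfl (fun _ => rfl) s6_pm_102

noncomputable def f_pm_112 : ℕ → ℕ → ℕ → ℕ → Bool := onCell 1073741824 536870912 536870912 536870912 1046898278 26843546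
    (rowNX 3 2 true true false .dn 1 1 2 (qsf 536870912 536870912 536870912 536870912 2) ndN1q1 ndN3q1 pcN2 Cut.none Ext.none)

def k0_pm_112 : ∃ t, chk3 f_pm_112 t 1 1 1 = true :=
  ⟨(a (a (b (b (a (a (l 3) (a (b (l 3) (l 1)) (a (b (c (l 16073248) (l 16047416)) (l 1)) (c (l 16144664) (l 16122104))))) (a (a (a (l 16191664) (l 16317976)) (c (l 16538208) (l 16529792))) (a (b (l 16769280) (l 16773000)) (l 16771272)))) (a (l 1) (a (l 1) (a (l 1) (l 16735744))))) (l 1)) (b (a (a (a (b (l 16655592) (l 16624968)) (a (l 16496736) (a (l 16430424) (a (l 16434136) (l 16384032))))) (b (l 16494912) (l 16495992))) (a (a (l 16620520) (c (l 16705224) (l 16709456))) (c (l 60700271063) (l 16777016)))) (a (l 1) (b (b (a (l 1) (l 16684320)) (l 1)) (l 1))))) (b (a (a (b (l 16772520) (l 16777216)) (b (a (l 16754720) (l 16708952)) (l 16777216))) (b (a (b (l 16410152) (l 16698584)) (b (l 15864176) (l 16410152))) (a (l 16772520) (l 16716080)))) (b (a (b (a (l 302828195879) (a (l 16684248) (l 16684248))) (b (c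 (l 16139120) (l 16203552)) (a (l 1) (l 193304374039)))) (b (l 16684248) (b (l 16213288) (l 15611600)))) (a (b (b (a (l 1) (l 551395557383)) (l 1)) (l 1)) (b (b (l 14817032) (l 14234872)) (b (c (l 13669032) (l 13621504)) (b (l 190077727287) (c (l 12718256) (l 12424912))))))))), by decide +kernel⟩

theorem c_pm_112 : CertNX 536870912 536870912 536870912 536870912 1046898278 26843546 3 true true false .dn 1 1 2
    ndN1q1 ndN3q1 pcN2 Cut.none Ext.none :=
  certNX2 (fam := true) (s1 := true) (s2 := false) (a := 1) (b := 1) (c := 2) (cn := .dn) (n1 := ndN1q1) (n2 := ndN3q1) (pc := pcN2) (cut := Cut.none) (xt := Ext.none) (P1 := 536870912) (W1 := 536870912) (P2 := 536870912) (W2 := 536870912) (P3 := 1046898278) (W3 := 26843546) (N0 := 3)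
    rfl (fun _ => rfl) k0_pm_112

noncomputable def f_pm_113 : ℕ → ℕ → ℕ → ℕ → Bool := onCell 1610612736 536870912 536870912 536870912 1046898278 26843546
    (rowNX 3 2 true true false .nn 1 1 3 (qsf 536870912 536870912 536870912 536870912 3) ndN1q1 ndN3q1 pcN3 Cut.none Ext.none)

def k0_pm_113 : ∃ t, chk3 f_pm_113 t 1 1 1 = true :=
  ⟨(b (a (a (b (a (b (l 15292208) (l 15864176)) (b (a (l 14934008) (l 2)) (l 15292208))) (a (b (l 16410152) (l 16698584)) (b (l 15864176) (l 16410152)))) (b (a (b (l 2) (a (l 14934008) (l 2))) (l 2)) (a (b (l 15292208) (l 15864176)) (b (a (l 14934008) (l 2)) (l 15061520))))) (a (b (l 2) (a (b (l 2) (a (l 14934008) (l 2))) (l 2))) (l 2))) (a (b (a (b (b (l 16708696) (l 16565928)) (b (l 16207808) (l 15674512))) (b (a (l 16322360) (l 15778168)) (a (b (l 16123816) (l 15638792)) (b (l 15779912) (l 15459840))))) (a (b (b (l 14817032) (l 14234872)) (b (a (l 13634512) (l 13634512)) (c (b (l 13038704) (l 12718256)) (b (l 13062960) (l 12676576))))) (b (a (l 14438400)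 (b (l 14729840) (l 14199712))) (b (a (l 13634512) (l 13625472)) (b (a (l 13016312) (l 13016296)) (l 12560632)))))) (a (b (b (a (a (l 15336376) (l 15072536)) (l 4)) (a (b (l 15200336) (l 14989472)) (b (l 4) (a (l 14589304) (l 4))))) (b (a (b (l 14415128) (l 14027848)) (a (b (l 14055192) (l 13732112)) (l 4))) (a (b (l 13549120) (c (l 12861904) (l 12835544))) (b (a (l 13370904) (l 4)) (a (b (l 12888064) (l 12619696)) (c (l 12667312) (l 12582264))))))) (a (b (l 4) (l 4)) (l 4))))), by decide +kernel⟩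

theorem c_pm_113 : CertNX 536870912 536870912 536870912 536870912 1046898278 26843546 3 true true false .nn 1 1 3
    ndN1q1 ndN3q1 pcN3 Cut.none Ext.none :=
  certNX2 (fam := true) (s1 := true) (s2 := false) (a := 1) (b := 1) (c := 3) (cn := .nn) (n1 := ndN1q1) (n2 := ndN3q1) (pc := pcN3) (cut := Cut.none) (xt := Ext.none) (P1 := 536870912) (W1 := 536870912) (P2 := 536870912) (W2 := 536870912) (P3 := 1046898278) (W3 := 26843546) (N0 := 3)
    rfl (fun _ => rfl) k0_pm_113

noncomputable def f_pm_123 : ℕ → ℕ → ℕ → ℕ → Bool := onCell 1610612736 536870912 1073741824 536870912 1046898278 26843546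
    (rowNX 3 2 true true false .npn 1 2 3 (qsf 536870912 536870912 1073741824 536870912 3) ndN1q1 ndN3q2 pcN3 Cut.none Ext.none)

def k0_pm_123 : ∃ t, chk3 f_pm_123 t 1 4 1 = true :=
  ⟨(a (b (a (b (a (c (l 15563208) (l 15478632)) (l 15517432)) (a (l 15709632) (l 15709632))) (b (c (l 15563208) (l 15478632)) (l 15709632))) (b (a (l 39760255991) (l 16155904)) (a (l 16540528) (l 16540528)))) (a (b (b (a (b (l 15391704) (l 15591424)) (b (a (l 15407264) (b (l 15300328) (l 15415176))) (l 15548880))) (a (l 15709632) (l 15692896))) (b (a (l 16155912) (l 16153528)) (l 16540576))) (a (b (a (b (b (c (l 15297392) (l 15137224)) (a (l 15504712) (l 15461760))) (a (l 15679264) (l 15677624))) (b (b (a (l 15123856) (l 14853624)) (a (l 15441672) (l 15451568))) (a (l 15693688) (l 15725704)))) (a (b (l 16152888) (l 16479616)) (b (a (l 16178984) (l 16206536)) (l 16594008)))) (a (b (a (b (b (c (a (l 15302832) (l 15361400)) (l 14929680)) (c (l 15626040) (l 15345544))) (l 15783264)) (b (b (c (a (l 15458912)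 (l 15618136)) (a (l 14944160) (l 15015320))) (c (l 15784680) (l 15448160))) (a (l 15862592) (l 15962960)))) (b (a (l 16162064) (a (l 16300104) (l 16381640))) (a (l 16595096) (a (l 16610248) (b (l 16721424) (l 4)))))) (a (b (b (c (a (l 16116048) (b (l 16211848) (l 16229488))) (b (a (l 15152184) (b (l 15175712) (l 15544456))) (a (l 15656240) (l 15876752)))) (c (a (l 16181440) (l 16334544)) (l 15888720))) (b (c (l 16308856) (l 16342120)) (l 4))) (b (b (l 4) (l 4)) (l 4))))))), by decide +kernel⟩

def k1_pm_123 : ∃ t, chk3 f_pm_123 t 1 5 1 = true :=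
  ⟨(a (b (a (b (l 16296768) (l 1)) (b (l 16296768) (l 16398440))) (a (l 1) (l 42445729511))) (a (a (b (b (l 16296776) (l 16398448)) (l 16715400)) (b (b (l 16296832) (l 16398504)) (b (l 16650640) (l 16777040)))) (a (b (a (b (l 16297288) (l 16399120)) (b (a (l 16309344) (l 16318808)) (l 16408408))) (a (b (l 16651168) (l 16776528)) (b (l 16657320) (l 16771608)))) (a (b (a (b (l 16325800) (l 16403824)) (a (b (l 16338712) (l 4)) (l 4))) (b (a (l 16651072) (l 4)) (l 4))) (l 4))))), by decide +kernel⟩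

def k2_pm_123 : ∃ t, chk3 f_pm_123 t 1 3 1 = true :=
  ⟨(a (a (l 1) (b (l 16777216) (l 1))) (a (a (b (l 16777200) (l 1)) (a (l 16777168) (l 16777176))) (a (a (c (l 16776720) (l 16776696)) (c (l 16762472) (l 16761960))) (l 4)))), by decide +kernel⟩

theorem s3_pm_123 : ∃ t, chk3 f_pm_123 t 1 2 1 = true := ex3_b k0_pm_123 k1_pm_123

theorem s4_pm_123 : ∃ t, chk3 f_pm_123 t 1 1 1 = true := ex3_b s3_pm_123 k2_pm_123

theorem c_pm_123 : CertNX 536870912 536870912 1073741824 536870912 1046898278 26843546 3 true true false .npn 1 2 3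
    ndN1q1 ndN3q2 pcN3 Cut.none Ext.none :=
  certNX2 (fam := true) (s1 := true) (s2 := false) (a := 1) (b := 2) (c := 3) (cn := .npn) (n1 := ndN1q1) (n2 := ndN3q2) (pc := pcN3) (cut := Cut.none) (xt := Ext.none) (P1 := 536870912) (W1 := 536870912) (P2 := 1073741824) (W2 := 536870912) (P3 := 1046898278) (W3 := 26843546) (N0 := 3)
    rfl (fun _ => rfl) s4_pm_123

noncomputable def f_pm_133 : ℕ → ℕ → ℕ → ℕ → Bool := onCell 536870912 536870912 1610612736 536870912 1046898278 26843546
    (rowNX 3 0 true true false .dn 1 3 3 (qsf 536870912 536870912 1610612736 536870912 3) ndN1q1 ndN3q3 pcN3 Cut.none Ext.none)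

def k0_pm_133 : ∃ t, chk3 f_pm_133 t 1 1 1 = true :=
  ⟨(a (l 4) (l 2)), by decide +kernel⟩

theorem c_pm_133 : CertNX 536870912 536870912 1610612736 536870912 1046898278 26843546 3 true true false .dn 1 3 3
    ndN1q1 ndN3q3 pcN3 Cut.none Ext.none :=
  certNX0 (fam := true) (s1 := true) (s2 := false) (a := 1) (b := 3) (c := 3) (cn := .dn) (n1 := ndN1q1) (n2 := ndN3q3) (pc := pcN3) (cut := Cut.none) (xt := Ext.none) (P1 := 536870912) (W1 := 536870912) (P2 := 1610612736) (W2 := 536870912) (P3 := 1046898278) (W3 := 26843546) (N0 := 3)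
    rfl k0_pm_133

noncomputable def f_pm_202_a : ℕ → ℕ → ℕ → ℕ → Bool := onCell 0 420477299 1073741824 536870912 1046898278 26843546
    (rowNX 3 1 true true false .pp 2 0 2 (qsf 0 420477299 0 536870912 2) ndN1q2a ndN3q0 pcN2 Cut.none Ext.none)

def k0_pm_202_a : ∃ t, chk3 f_pm_202_a t 2 2 1 = true :=
  ⟨(b (l 1) (b (b (b (a (l 1) (a (l 1) (c (b (l 16264344) (l 16332456)) (b (l 16193368) (a (l 16250504) (b (l 16337280) (c (l 16388848) (l 16336800)))))))) (a (b (l 1) (a (c (l 15926848) (l 15907184)) (c (l 15952928) (c (l 15944864) (l 15878376))))) (a (b (c (l 16210984) (b (l 16239136) (a (l 16129048) (l 16119320)))) (c (l 15842504) (c (l 15949064) (l 15888584)))) (c (b (a (l 16252240) (l 16199888)) (a (l 16075040) (l 16142880))) (b (c (a (l 16239528) (l 16300784)) (a (l 16162912) (l 16328944))) (c (l 16059728) (l 16124944))))))) (a (b (c (a (b (l 15723456) (l 15572048)) (b (l 15746960) (l 15621032))) (a (c (l 15501928) (l 15642856)) (c (b (l 15769280) (l 15628984)) (l 15687816)))) (c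 (a (l 15394752) (l 15418600)) (l 15278632))) (a (c (b (b (l 15718328) (l 15713336)) (l 15434424)) (b (c (l 15778216) (l 15767536)) (l 15479912))) (c (b (c (l 15880544) (l 15839280)) (l 15626360)) (b (l 15886744) (l 15593544)))))) (b (c (a (b (a (l 15154072) (l 15193264)) (b (l 15008856) (a (l 14895864) (l 14965104)))) (b (a (l 15266216) (b (l 15433000) (l 15270928))) (a (b (l 15123480) (l 15130352)) (l 15383904)))) (a (b (l 15121112) (a (l 14876736) (l 14936376))) (b (a (l 15214480) (l 15270272)) (a (l 15076576) (l 15334360))))) (a (b (b (a (l 14952232) (l 15046712)) (l 15269728)) (a (l 15503056) (l 15711392))) (b (a (b (l 15236368) (l 15500928)) (b (l 15522712) (l 15784544))) (a (l 15701128) (l 15955472))))))), by decide +kernel⟩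

def k1_pm_202_a : ∃ t, chk3 f_pm_202_a t 3 8 1 = true :=
  ⟨(b (l 1) (a (l 1) (b (l 1) (b (l 1) (b (l 1) (a (l 1) (a (l 1) (c (a (l 1) (b (l 1) (c (l 268467078247) (l 15893456)))) (c (l 396778881655) (l 453150275911)))))))))), by decide +kernel⟩

def k2_pm_202_a : ∃ t, chk3 f_pm_202_a t 6 18 1 = true :=
  ⟨(l 1), by decide +kernel⟩

def k3_pm_202_a : ∃ t, chk3 f_pm_202_a t 14 18 1 = true :=
  ⟨(a (l 1) (b (l 1) (a (b (l 1) (b (l 1) (c (c (b (l 15985088) (l 16086976)) (b (l 16037944) (l 16077720))) (c (b (l 16027768) (l 16068808)) (b (l 15954896) (l 371009626647)))))) (b (b (l 1) (c (c (l 15911160) (l 15898376)) (c (l 15885424) (l 15871576)))) (c (b (c (l 16020800) (l 16010040)) (c (b (l 16110160) (l 16167512)) (b (l 16101472) (l 16102000)))) (b (c (l 16001552) (c (l 15997360) (l 15911296))) (c (b (l 16103384) (l 16048776)) (b (l 16043712) (l 16013752))))))))), by decide +kernel⟩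

def k4_pm_202_a : ∃ t, chk3 f_pm_202_a t 30 18 1 = true :=
  ⟨(b (a (l 1) (b (l 1) (c (b (c (l 15783288) (l 15810552)) (c (l 15874672) (l 15882248))) (c (b (l 15795672) (l 15869224)) (b (l 15780624) (c (l 15861600) (l 376914746727))))))) (b (c (c (b (a (l 15869616) (l 15977328)) (a (l 15986176) (l 15968632))) (b (a (l 15877256) (l 15925232)) (a (l 15974616) (l 15973808)))) (c (a (b (l 15863752) (l 15844648)) (b (b (l 15937400) (l 15992448)) (l 15898816))) (a (b (l 553545286199) (c (l 15966288) (l 15839128))) (b (c (l 15923192) (l 15859456)) (l 15901792))))) (c (b (c (a (l 16093088) (l 16070704)) (a (l 16030080) (l 16089120))) (a (c (l 16076072) (l 16071536)) (a (c (l 16287144) (l 16341344)) (l 16208136)))) (c (b (a (l 15932816) (l 16209816)) (a (l 16147656) (a (l 16353656) (l 16417656)))) (b (c (l 15936784) (l 16082176)) (a (l 16195136) (l 16379984))))))), by decide +kernel⟩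

def k5_pm_202_a : ∃ t, chk3 f_pm_202_a t 31 18 1 = true :=
  ⟨(a (b (b (b (l 1) (c (c (l 321617213047) (l 15855280)) (c (l 15841072) (l 541734119495)))) (c (c (b (l 15904928) (l 15993928)) (b (l 15912904) (c (l 15987520) (l 15987424)))) (c (b (l 15820392) (c (l 15990624) (l 15971744))) (b (c (l 15856792) (a (l 15858824) (l 15929856))) (c (l 15951704) (l 15992544)))))) (c (b (c (b (c (l 16080032) (l 16082080)) (l 16074216)) (b (c (l 16087704) (l 16095816)) (l 16114824))) (c (c (l 16178104) (l 16217760)) (l 16187504))) (b (c (b (l 15977864) (l 16214560)) (b (l 16043400) (l 16231776))) (c (l 16233776) (l 16270256))))) (b (c (b (c (b (l 212632560807) (l 15960128)) (b (l 15925208) (l 394631809495))) (c (b (c (l 16038680) (l 16036288)) (c (l 16096248) (l 16102536))) (b (c (l 16037192) (l 16041656)) (c (l 16133512) (l 16141888))))) (b (c (b (l 15912504) (a (l 15928896) (l 15918832))) (b (c (l 15904944) (a (l 15863312) (l 15850128))) (c (l 469256753479) (a (l 15902040) (l 16003968))))) (c (b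 (c (l 16004680) (l 16029080)) (l 16064384)) (c (b (l 16051000) (l 16154296)) (l 16055312))))) (c (b (b (c (l 16045520) (l 16196272)) (c (l 16263944) (l 16324984))) (c (b (l 16383336) (l 16531704)) (l 16377920))) (b (b (c (l 16224904) (l 16260848)) (l 16259712)) (b (l 16389896) (l 16460848)))))), by decide +kernel⟩

def k6_pm_202_a : ∃ t, chk3 f_pm_202_a t 3 19 1 = true :=
  ⟨(a (b (a (l 1) (b (l 1) (a (l 1) (c (l 16097392) (c (l 16087032) (l 15911336)))))) (a (b (l 1) (a (l 1) (c (l 16235960) (c (l 16230272) (l 16142552))))) (c (b (a (l 16167752) (l 16094008)) (a (l 16200992) (b (l 16259056) (l 16361016)))) (a (b (c (l 16159048) (l 16089880)) (b (c (l 16249464) (l 16191696)) (c (l 16324560) (l 16311976)))) (b (c (l 16138632) (a (l 16138328) (l 16226728))) (c (l 16278104) (l 16389584))))))) (b (a (b (a (c (a (l 16016600) (l 16072072)) (a (l 812317413575) (c (l 16064048) (l 321617356391)))) (a (c (l 15997832) (c (l 16065288) (l 502543060791))) (b (c (a (l 16201368) (c (l 16186248) (l 16205120)))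 (c (l 16040632) (l 16152056))) (c (l 16213128) (l 16282000))))) (a (c (a (l 16129792) (l 16060896)) (a (c (l 16130848) (l 16028824)) (c (l 16197392) (l 16202096)))) (c (c (l 16149464) (l 16165176)) (c (l 16242976) (l 16327008))))) (b (b (c (a (b (a (c (l 16220096) (l 16267720)) (l 16277592)) (c (a (l 16380544) (l 16483928)) (l 16232048))) (c (a (l 16412272) (l 16384448)) (l 16284488))) (a (c (b (a (l 16330224) (l 16504312)) (l 16282616)) (b (l 16286456) (l 16362536))) (a (l 16316608) (l 16330952)))) (a (c (l 16333288) (l 16470296)) (b (c (a (l 16340944) (l 16273736)) (a (l 16371816) (l 16259336))) (a (l 16351232) (l 16213768))))) (a (c (l 16302336) (l 16348504)) (c (l 16190048) (l 16171816))))) (a (a (c (b (a (l 16193848) (l 16255768)) (l 16313344)) (a (c (l 16170304) (l 16280776)) (l 16228128))) (c (c (l 16284056) (l 16250704)) (l 16223384))) (a (c (a (l 16181704) (l 16150584)) (l 16107648)) (c (l 15809232) (l 15931384)))))), by decide +kernel⟩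

def k7_pm_202_a : ∃ t, chk3 f_pm_202_a t 3 10 1 = true :=
  ⟨(a (b (b (a (c (b (a (l 16301904) (l 16266728)) (a (l 16222016) (l 16240344))) (b (a (c (l 16280088) (l 397853784823)) (c (l 16275880) (l 16179400))) (a (c (l 16269584) (l 16238064)) (c (l 16361448) (l 16354656))))) (a (c (b (l 16278944) (l 16301296)) (b (c (l 16362688) (l 16454952)) (l 16321240))) (c (a (l 16214408) (l 16187296)) (l 16225488)))) (a (c (a (b (l 16291704) (l 16232408)) (l 16204200)) (b (l 16198104) (a (l 16233144) (l 16315176)))) (c (b (l 16216192) (l 16378696)) (l 16217008)))) (a (a (b (c (l 16012104) (l 15992016)) (l 15652448)) (b (l 15854280) (b (l 15866816) (l 15582896)))) (b (a (l 16009280) (b (l 16333856) (l 16034952))) (a (b (l 15808040) (l 15938792)) (l 16026120))))) (b (a (b (a (c (b (l 16248176) (l 16186520)) (l 16033752)) (c (l 15981712) (l 16023480))) (a (c (l 16156672) (l 16211632)) (b (c (l 16103608) (l 16084584)) (c (l 16096040) (l 16165880))))) (b (b (a (l 15781424) (c (a (l 15793576) (l 15614264))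 (l 15598976))) (a (c (a (l 15898440) (l 15768168)) (l 15802200)) (c (l 15254288) (l 15336320)))) (a (b (c (l 15753712) (l 15786120)) (l 15864688)) (l 15368080)))) (a (b (a (b (c (l 16302512) (l 16381688)) (a (l 16333064) (l 16554816))) (a (b (l 16363176) (l 16443400)) (l 16234696))) (a (l 16352744) (a (l 16484200) (l 16291272)))) (a (b (l 15914536) (b (l 15968424) (l 16066304))) (b (b (l 15415968) (l 15422552)) (l 15701144)))))), by decide +kernel⟩

def k8_pm_202_a : ∃ t, chk3 f_pm_202_a t 3 11 1 = true :=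
  ⟨(a (b (a (b (b (a (l 15424272) (l 15729248)) (l 15661160)) (l 15741904)) (b (l 16064584) (a (l 16069400) (l 16247728)))) (b (a (b (a (l 15797248) (l 15973784)) (l 16043512)) (l 16163696)) (l 16246856))) (b (a (b (a (a (l 16471864) (l 16580456)) (l 16295544)) (a (l 16386320) (l 16563632))) (b (a (l 16302400) (l 16034808)) (a (l 16614720) (l 16306960)))) (a (b (l 16215448) (l 16425624)) (a (l 16526952) (l 16453376))))), by decide +kernel⟩

def k9_pm_202_a : ∃ t, chk3 f_pm_202_a t 1 3 1 = true :=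
  ⟨(b (a (b (b (a (b (a (l 15969128) (l 16083640)) (l 16259664)) (l 16068048)) (a (l 16375320) (b (l 16466776) (l 16559944)))) (b (a (l 16612528) (l 16650376)) (a (l 16724832) (l 16749040)))) (a (b (b (l 16226408) (l 16611440)) (b (b (l 16703088) (l 16747376)) (l 16771984))) (b (a (b (l 16566176) (l 16724520)) (b (l 16481232) (a (l 16509784) (l 16304664)))) (a (b (l 16711288) (l 16707520)) (l 16393072))))) (a (b (b (l 16838968) (l 16776576)) (c (l 16776592) (l 16776568))) (a (b (l 16772600) (l 16772600)) (b (a (l 16707520) (l 16393072)) (a (l 16707520) (l 16393072)))))), by decide +kernel⟩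

theorem s10_pm_202_a : ∃ t, chk3 f_pm_202_a t 3 5 1 = true := ex3_b k7_pm_202_a k8_pm_202_a

theorem s11_pm_202_a : ∃ t, chk3 f_pm_202_a t 15 18 1 = true := ex3_a k4_pm_202_a k5_pm_202_a

theorem s12_pm_202_a : ∃ t, chk3 f_pm_202_a t 7 18 1 = true := ex3_a k3_pm_202_a s11_pm_202_a

theorem s13_pm_202_a : ∃ t, chk3 f_pm_202_a t 3 18 1 = true := ex3_a k2_pm_202_a s12_pm_202_a

theorem s14_pm_202_a : ∃ t, chk3 f_pm_202_a t 3 9 1 = true := ex3_b s13_pm_202_a k6_pm_202_a

theorem s15_pm_202_a : ∃ t, chk3 f_pm_202_a t 3 4 1 = true := ex3_b k1_pm_202_a s14_pm_202_a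

theorem s16_pm_202_a : ∃ t, chk3 f_pm_202_a t 3 2 1 = true := ex3_b s15_pm_202_a s10_pm_202_a

theorem s17_pm_202_a : ∃ t, chk3 f_pm_202_a t 1 2 1 = true := ex3_a k0_pm_202_a s16_pm_202_a

theorem s18_pm_202_a : ∃ t, chk3 f_pm_202_a t 1 1 1 = true := ex3_b s17_pm_202_a k9_pm_202_a

theorem c_pm_202_a : CertNX 0 420477299 0 536870912 1046898278 26843546 3 true true false .pp 2 0 2
    ndN1q2a ndN3q0 pcN2 Cut.none Ext.none :=
  certNX1 (fam := true) (s1 := true) (s2 := false) (a := 2) (b := 0) (c := 2) (cn := .pp) (n1 := ndN1q2a) (n2 := ndN3q0) (pc := pcN2) (cut := Cut.none) (xt := Ext.none) (P1 := 0) (W1 := 420477299) (P2 := 0) (W2 := 536870912) (P3 := 1046898278) (W3 := 26843546) (N0 := 3)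
    rfl (fun _ => rfl) s18_pm_202_a

noncomputable def f_pm_202_b : ℕ → ℕ → ℕ → ℕ → Bool := onCell 1073741824 536870912 0 536870912 1046898278 26843546
    (rowNX 3 2 true true false .pp 2 0 2 (qsf 1239849684 370763052 0 536870912 2) ndN1q2b ndN3q0 pcN2 Cut.none Ext.none)

def k0_pm_202_b : ∃ t, chk3 f_pm_202_b t 2 1 1 = true :=
  ⟨(b (a (l 1) (b (a (b (a (a (l 1) (a (l 1) (b (b (c (l 15790128) (b (l 15855984) (l 1))) (l 1)) (l 1)))) (b (b (b (c (l 159480861703) (c (l 15164928) (l 107404285399))) (c (a (l 15570624) (l 15199696)) (a (l 15660344) (l 15187936)))) (c (a (l 15585024) (l 15320616)) (a (l 15800232) (l 15329672)))) (a (l 1) (c (b (l 15555088) (l 1)) (l 15421192))))) (l 1)) (b (a (b (c (a (b (l 14734624) (l 14931720)) (b (l 14324712) (l 14523440))) (b (b (l 14282208) (l 14522512)) (l 14666664))) (c (b (a (l 15126208) (l 14719576)) (a (l 15313768) (l 14908896))) (b (l 14859040) (l 15050712)))) (b (c (b (a (l 14098632) (l 14097408)) (a (l 14298232) (l 14297024))) (b (c (l 14047368)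 (l 14011208)) (l 14222176))) (c (a (b (l 14495216) (l 14685448)) (l 14586696)) (l 14279760)))) (a (a (l 1) (b (b (l 281887214599) (l 1)) (l 1))) (b (b (c (a (l 15045848) (l 15046304)) (l 14985208)) (a (l 466571430615) (l 15563872))) (b (l 15981216) (l 1)))))) (l 1))) (l 1)), by decide +kernel⟩

def k1_pm_202_b : ∃ t, chk3 f_pm_202_b t 3 1 1 = true :=
  ⟨(b (b (a (b (c (a (b (b (l 14097408) (l 14297024)) (a (l 14587736) (l 14590272))) (b (b (l 14097408) (l 14296928)) (l 14584992))) (a (b (b (l 14029928) (l 14221552)) (l 14515672)) (b (b (l 14029928) (l 14221448)) (l 14508040)))) (b (a (a (b (l 14941848) (l 15580032)) (l 15162344)) (c (l 15311600) (l 15258712))) (a (b (l 111163911079) (l 16267704)) (a (l 16107752) (l 16101312))))) (b (b (a (c (l 14194240) (l 14127872)) (l 14163584)) (a (l 14549544) (l 14549544))) (b (a (l 15286440) (l 15286440)) (a (l 16101312) (l 16101312))))) (a (a (b (b (a (l 16539712) (l 16485064)) (a (l 1) (l 16687680))) (l 1)) (b (b (l 16415264) (l 16574768)) (b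 (l 393559698199) (a (l 1) (l 16777048))))) (b (a (b (l 16410416) (l 16589864)) (l 16500672)) (a (b (l 16712584) (l 16777040)) (l 16745168))))) (a (l 1) (b (a (b (a (l 460131540119) (l 16776936)) (l 1)) (b (l 16777080) (a (l 4) (l 4)))) (l 1)))), by decide +kernel⟩

theorem s2_pm_202_b : ∃ t, chk3 f_pm_202_b t 1 1 1 = true := ex3_a k0_pm_202_b k1_pm_202_b

theorem c_pm_202_b : CertNX 1239849684 370763052 0 536870912 1046898278 26843546 3 true true false .pp 2 0 2
    ndN1q2b ndN3q0 pcN2 Cut.none Ext.none :=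
  certNX2 (fam := true) (s1 := true) (s2 := false) (a := 2) (b := 0) (c := 2) (cn := .pp) (n1 := ndN1q2b) (n2 := ndN3q0) (pc := pcN2) (cut := Cut.none) (xt := Ext.none) (P1 := 1239849684) (W1 := 370763052) (P2 := 0) (W2 := 536870912) (P3 := 1046898278) (W3 := 26843546) (N0 := 3)
    rfl (fun _ => rfl) s2_pm_202_b

noncomputable def f_pm_203_a : ℕ → ℕ → ℕ → ℕ → Bool := onCell 0 420477299 1610612736 536870912 1046898278 26843546
    (rowNX 3 1 true true false .up 2 0 3 (qsf 0 420477299 0 536870912 3) ndN1q2a ndN3q0 pcN3 Cut.none Ext.none)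

def k0_pm_203_a : ∃ t, chk3 f_pm_203_a t 1 1 1 = true :=
  ⟨(b (a (b (b (c (l 16776592) (l 16776568)) (l 4)) (l 4)) (b (c (a (l 16772680) (b (l 16556120) (l 16556120))) (a (l 16772528) (b (l 16548336) (l 16548336)))) (a (l 4) (l 2)))) (l 2)), by decide +kernel⟩

theorem c_pm_203_a : CertNX 0 420477299 0 536870912 1046898278 26843546 3 true true false .up 2 0 3
    ndN1q2a ndN3q0 pcN3 Cut.none Ext.none :=
  certNX1 (fam := true) (s1 := true) (s2 := false) (a := 2) (b := 0) (c := 3) (cn := .up) (n1 := ndN1q2a) (n2 := ndN3q0) (pc := pcN3) (cut := Cut.none) (xt := Ext.none) (P1 := 0) (W1 := 420477299) (P2 := 0) (W2 := 536870912) (P3 := 1046898278) (W3 := 26843546) (N0 := 3)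
    rfl (fun _ => rfl) k0_pm_203_a

noncomputable def f_pm_203_b : ℕ → ℕ → ℕ → ℕ → Bool := onCell 1610612736 536870912 0 536870912 1046898278 26843546
    (rowNX 3 2 true true false .up 2 0 3 (qsf 1239849684 370763052 0 536870912 3) ndN1q2b ndN3q0 pcN3 Cut.none Ext.none)

def k0_pm_203_b : ∃ t, chk3 f_pm_203_b t 1 1 1 = true :=
  ⟨(a (b (a (a (b (b (b (l 14121640) (l 14549544)) (b (l 15286440) (l 16101312))) (b (l 16500672) (l 16745168))) (b (b (b (l 2) (l 14549544)) (b (l 15286440) (l 16101312))) (b (l 16458728) (l 4)))) (b (b (l 2) (b (l 2) (l 4))) (l 4))) (l 4)) (l 4)), by decide +kernel⟩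

theorem c_pm_203_b : CertNX 1239849684 370763052 0 536870912 1046898278 26843546 3 true true false .up 2 0 3
    ndN1q2b ndN3q0 pcN3 Cut.none Ext.none :=
  certNX2 (fam := true) (s1 := true) (s2 := false) (a := 2) (b := 0) (c := 3) (cn := .up) (n1 := ndN1q2b) (n2 := ndN3q0) (pc := pcN3) (cut := Cut.none) (xt := Ext.none) (P1 := 1239849684) (W1 := 370763052) (P2 := 0) (W2 := 536870912) (P3 := 1046898278) (W3 := 26843546) (N0 := 3)
    rfl (fun _ => rfl) k0_pm_203_b

noncomputable def f_pm_213_a : ℕ → ℕ → ℕ → ℕ → Bool := onCell 0 420477299 536870912 536870912 1046898278 26843546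
    (rowNX 3 0 true true false .pnn 2 1 3 (qsf 0 420477299 536870912 536870912 3) ndN1q2a ndN3q1 pcN3 Cut.none Ext.none)

def k0_pm_213_a : ∃ t, chk3 f_pm_213_a t 1 1 1 = true :=
  ⟨(b (a (l 4) (b (a (l 4) (b (a (b (l 16707520) (l 4)) (c (l 16399736) (l 16386440))) (c (l 54995181431) (l 74322403351)))) (l 4))) (l 4)), by decide +kernel⟩

theorem c_pm_213_a : CertNX 0 420477299 536870912 536870912 1046898278 26843546 3 true true false .pnn 2 1 3
    ndN1q2a ndN3q1 pcN3 Cut.none Ext.none :=
  certNX0 (fam := true) (s1 := true) (s2 := false) (a := 2) (b := 1) (c := 3) (cn := .pnn) (n1 := ndN1q2a) (n2 := ndN3q1) (pc := pcN3) (cut := Cut.none) (xt := Ext.none) (P1 := 0) (W1 := 420477299) (P2 := 536870912) (W2 := 536870912) (P3 := 1046898278) (W3 := 26843546) (N0 := 3)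
    rfl k0_pm_213_a

noncomputable def f_pm_213_b : ℕ → ℕ → ℕ → ℕ → Bool := onCell 1239849684 370763052 536870912 536870912 1046898278 26843546
    (rowNX 3 0 true true false .pnn 2 1 3 (qsf 1239849684 370763052 536870912 536870912 3) ndN1q2b ndN3q1 pcN3 Cut.none Ext.none)

def k0_pm_213_b : ∃ t, chk3 f_pm_213_b t 1 1 1 = true :=
  ⟨(l 4), by decide +kernel⟩

theorem c_pm_213_b : CertNX 1239849684 370763052 536870912 536870912 1046898278 26843546 3 true true false .pnn 2 1 3
    ndN1q2b ndN3q1 pcN3 Cut.none Ext.none :=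
  certNX0 (fam := true) (s1 := true) (s2 := false) (a := 2) (b := 1) (c := 3) (cn := .pnn) (n1 := ndN1q2b) (n2 := ndN3q1) (pc := pcN3) (cut := Cut.none) (xt := Ext.none) (P1 := 1239849684) (W1 := 370763052) (P2 := 536870912) (W2 := 536870912) (P3 := 1046898278) (W3 := 26843546) (N0 := 3)
    rfl k0_pm_213_b

noncomputable def f_pm_303 : ℕ → ℕ → ℕ → ℕ → Bool := onCell 1610612736 536870912 0 536870912 1046898278 26843546
    (rowNX 3 2 true true false .npn 3 0 3 (qsf 1610612736 469762048 0 536870912 3) ndN1q3 ndN3q0 pcN3 Cut.none Ext.none)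

def k0_pm_303 : ∃ t, chk3 f_pm_303 t 1 1 1 = true :=
  ⟨(a (b (b (a (b (a (b (l 14121640) (l 14549544)) (b (c (l 14194240) (l 14127872)) (l 14549544))) (a (b (l 15286440) (l 1)) (b (l 15286440) (l 16101312)))) (a (b (c (b (l 14194240) (l 14586696)) (b (l 14127872) (l 14509832))) (b (a (l 15286440) (l 4)) (l 4))) (l 4))) (a (a (l 1) (a (l 1) (l 4))) (l 4))) (l 4)) (l 4)), by decide +kernel⟩

theorem c_pm_303 : CertNX 1610612736 469762048 0 536870912 1046898278 26843546 3 true true false .npn 3 0 3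
    ndN1q3 ndN3q0 pcN3 Cut.none Ext.none :=
  certNX2 (fam := true) (s1 := true) (s2 := false) (a := 3) (b := 0) (c := 3) (cn := .npn) (n1 := ndN1q3) (n2 := ndN3q0) (pc := pcN3) (cut := Cut.none) (xt := Ext.none) (P1 := 1610612736) (W1 := 469762048) (P2 := 0) (W2 := 536870912) (P3 := 1046898278) (W3 := 26843546) (N0 := 3)
    rfl (fun _ => rfl) k0_pm_303

noncomputable def f_pm_313 : ℕ → ℕ → ℕ → ℕ → Bool := onCell 1610612736 469762048 536870912 536870912 1046898278 26843546
    (rowNX 3 0 true true false .dn 3 1 3 (qsf 1610612736 469762048 536870912 536870912 3) ndN1q3 ndN3q1 pcN3 Cut.none Ext.none)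

def k0_pm_313 : ∃ t, chk3 f_pm_313 t 1 1 1 = true :=
  ⟨(l 4), by decide +kernel⟩

theorem c_pm_313 : CertNX 1610612736 469762048 536870912 536870912 1046898278 26843546 3 true true false .dn 3 1 3
    ndN1q3 ndN3q1 pcN3 Cut.none Ext.none :=
  certNX0 (fam := true) (s1 := true) (s2 := false) (a := 3) (b := 1) (c := 3) (cn := .dn) (n1 := ndN1q3) (n2 := ndN3q1) (pc := pcN3) (cut := Cut.none) (xt := Ext.none) (P1 := 1610612736) (W1 := 469762048) (P2 := 536870912) (W2 := 536870912) (P3 := 1046898278) (W3 := 26843546) (N0 := 3)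
    rfl k0_pm_313

noncomputable def f_mm_001 : ℕ → ℕ → ℕ → ℕ → Bool := onCell 67108864 469762048 0 536870912 1046898278 26843546
    (rowNX 3 0 true false false .up 0 0 1 (qsf 67108864 469762048 0 536870912 1) ndN1q0 ndN3q0 pcN1 Cut.none Ext.none)

def k0_mm_001 : ∃ t, chk3 f_mm_001 t 1 1 1 = true :=
  ⟨(l 4), by decide +kernel⟩

theorem c_mm_001 : CertNX 67108864 469762048 0 536870912 1046898278 26843546 3 true false false .up 0 0 1
    ndN1q0 ndN3q0 pcN1 Cut.none Ext.none :=
  certNX0 (fam := true) (s1 := false) (s2 := false) (a := 0) (b := 0) (c := 1) (cn := .up) (n1 := ndN1q0) (n2 := ndN3q0) (pc := pcN1) (cut := Cut.none) (xt := Ext.none) (P1 := 67108864) (W1 := 469762048) (P2 := 0) (W2 := 536870912) (P3 := 1046898278) (W3 := 26843546) (N0 := 3)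
    rfl k0_mm_001

noncomputable def f_mm_011 : ℕ → ℕ → ℕ → ℕ → Bool := onCell 67108864 469762048 536870912 536870912 1046898278 26843546
    (rowNX 3 0 true false false .pnn 0 1 1 (qsf 67108864 469762048 536870912 536870912 1) ndN1q0 ndN3q1 pcN1 Cut.none Ext.none)

def k0_mm_011 : ∃ t, chk3 f_mm_011 t 1 1 1 = true :=
  ⟨(l 4), by decide +kernel⟩

theorem c_mm_011 : CertNX 67108864 469762048 536870912 536870912 1046898278 26843546 3 true false false .pnn 0 1 1
    ndN1q0 ndN3q1 pcN1 Cut.none Ext.none :=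
  certNX0 (fam := true) (s1 := false) (s2 := false) (a := 0) (b := 1) (c := 1) (cn := .pnn) (n1 := ndN1q0) (n2 := ndN3q1) (pc := pcN1) (cut := Cut.none) (xt := Ext.none) (P1 := 67108864) (W1 := 469762048) (P2 := 536870912) (W2 := 536870912) (P3 := 1046898278) (W3 := 26843546) (N0 := 3)
    rfl k0_mm_011

noncomputable def f_mm_012 : ℕ → ℕ → ℕ → ℕ → Bool := onCell 67108864 469762048 536870912 536870912 1046898278 26843546
    (rowNX 3 0 true false false .pnp 0 1 2 (qsf 67108864 469762048 536870912 536870912 2) ndN1q0 ndN3q1 pcN2 Cut.none Ext.none)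

def k0_mm_012 : ∃ t, chk3 f_mm_012 t 1 1 1 = true :=
  ⟨(l 4), by decide +kernel⟩

theorem c_mm_012 : CertNX 67108864 469762048 536870912 536870912 1046898278 26843546 3 true false false .pnp 0 1 2
    ndN1q0 ndN3q1 pcN2 Cut.none Ext.none :=
  certNX0 (fam := true) (s1 := false) (s2 := false) (a := 0) (b := 1) (c := 2) (cn := .pnp) (n1 := ndN1q0) (n2 := ndN3q1) (pc := pcN2) (cut := Cut.none) (xt := Ext.none) (P1 := 67108864) (W1 := 469762048) (P2 := 536870912) (W2 := 536870912) (P3 := 1046898278) (W3 := 26843546) (N0 := 3)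
    rfl k0_mm_012

noncomputable def f_mm_022 : ℕ → ℕ → ℕ → ℕ → Bool := onCell 67108864 469762048 1073741824 536870912 1046898278 26843546
    (rowNX 3 0 true false false .pp 0 2 2 (qsf 67108864 469762048 1073741824 536870912 2) ndN1q0 ndN3q2 pcN2 Cut.none Ext.none)

def k0_mm_022 : ∃ t, chk3 f_mm_022 t 1 1 1 = true :=
  ⟨(l 5), by decide +kernel⟩

theorem c_mm_022 : CertNX 67108864 469762048 1073741824 536870912 1046898278 26843546 3 true false false .pp 0 2 2
    ndN1q0 ndN3q2 pcN2 Cut.none Ext.none :=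
  certNX0 (fam := true) (s1 := false) (s2 := false) (a := 0) (b := 2) (c := 2) (cn := .pp) (n1 := ndN1q0) (n2 := ndN3q2) (pc := pcN2) (cut := Cut.none) (xt := Ext.none) (P1 := 67108864) (W1 := 469762048) (P2 := 1073741824) (W2 := 536870912) (P3 := 1046898278) (W3 := 26843546) (N0 := 3)
    rfl k0_mm_022

noncomputable def f_mm_023 : ℕ → ℕ → ℕ → ℕ → Bool := onCell 67108864 469762048 1073741824 536870912 1046898278 26843546
    (rowNX 3 0 true false false .up 0 2 3 (qsf 67108864 469762048 1073741824 536870912 3) ndN1q0 ndN3q2 pcN3 Cut.none Ext.none)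

def k0_mm_023 : ∃ t, chk3 f_mm_023 t 1 1 1 = true :=
  ⟨(l 5), by decide +kernel⟩

theorem c_mm_023 : CertNX 67108864 469762048 1073741824 536870912 1046898278 26843546 3 true false false .up 0 2 3
    ndN1q0 ndN3q2 pcN3 Cut.none Ext.none :=
  certNX0 (fam := true) (s1 := false) (s2 := false) (a := 0) (b := 2) (c := 3) (cn := .up) (n1 := ndN1q0) (n2 := ndN3q2) (pc := pcN3) (cut := Cut.none) (xt := Ext.none) (P1 := 67108864) (W1 := 469762048) (P2 := 1073741824) (W2 := 536870912) (P3 := 1046898278) (W3 := 26843546) (N0 := 3)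
    rfl k0_mm_023

noncomputable def f_mm_033 : ℕ → ℕ → ℕ → ℕ → Bool := onCell 67108864 469762048 1610612736 536870912 1046898278 26843546
    (rowNX 3 0 true false false .pnn 0 3 3 (qsf 67108864 469762048 1610612736 536870912 3) ndN1q0 ndN3q3 pcN3 Cut.none Ext.none)

def k0_mm_033 : ∃ t, chk3 f_mm_033 t 1 1 1 = true :=
  ⟨(l 4), by decide +kernel⟩

theorem c_mm_033 : CertNX 67108864 469762048 1610612736 536870912 1046898278 26843546 3 true false false .pnn 0 3 3
    ndN1q0 ndN3q3 pcN3 Cut.none Ext.none :=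
  certNX0 (fam := true) (s1 := false) (s2 := false) (a := 0) (b := 3) (c := 3) (cn := .pnn) (n1 := ndN1q0) (n2 := ndN3q3) (pc := pcN3) (cut := Cut.none) (xt := Ext.none) (P1 := 67108864) (W1 := 469762048) (P2 := 1610612736) (W2 := 536870912) (P3 := 1046898278) (W3 := 26843546) (N0 := 3)
    rfl k0_mm_033

noncomputable def f_mm_101 : ℕ → ℕ → ℕ → ℕ → Bool := onCell 536870912 536870912 0 536870912 1046898278 26843546
    (rowNX 3 0 true false false .npn 1 0 1 (qsf 536870912 536870912 0 536870912 1) ndN1q1 ndN3q0 pcN1 Cut.none Ext.none)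

def k0_mm_101 : ∃ t, chk3 f_mm_101 t 1 1 1 = true :=
  ⟨(l 4), by decide +kernel⟩

theorem c_mm_101 : CertNX 536870912 536870912 0 536870912 1046898278 26843546 3 true false false .npn 1 0 1
    ndN1q1 ndN3q0 pcN1 Cut.none Ext.none :=
  certNX0 (fam := true) (s1 := false) (s2 := false) (a := 1) (b := 0) (c := 1) (cn := .npn) (n1 := ndN1q1) (n2 := ndN3q0) (pc := pcN1) (cut := Cut.none) (xt := Ext.none) (P1 := 536870912) (W1 := 536870912) (P2 := 0) (W2 := 536870912) (P3 := 1046898278) (W3 := 26843546) (N0 := 3)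
    rfl k0_mm_101

noncomputable def f_mm_102 : ℕ → ℕ → ℕ → ℕ → Bool := onCell 536870912 536870912 0 536870912 1046898278 26843546
    (rowNX 3 0 true false false .npp 1 0 2 (qsf 536870912 536870912 0 536870912 2) ndN1q1 ndN3q0 pcN2 Cut.none Ext.none)

def k0_mm_102 : ∃ t, chk3 f_mm_102 t 1 1 1 = true :=
  ⟨(l 4), by decide +kernel⟩

theorem c_mm_102 : CertNX 536870912 536870912 0 536870912 1046898278 26843546 3 true false false .npp 1 0 2
    ndN1q1 ndN3q0 pcN2 Cut.none Ext.none :=
  certNX0 (fam := true) (s1 := false) (s2 := false) (a := 1) (b := 0) (c := 2) (cn := .npp) (n1 := ndN1q1) (n2 := ndN3q0) (pc := pcN2) (cut := Cut.none) (xt := Ext.none) (P1 := 536870912) (W1 := 536870912) (P2 := 0) (W2 := 536870912) (P3 := 1046898278) (W3 := 26843546) (N0 := 3)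
    rfl k0_mm_102

noncomputable def f_mm_112 : ℕ → ℕ → ℕ → ℕ → Bool := onCell 536870912 536870912 536870912 536870912 1046898278 26843546
    (rowNX 3 0 true false false .dn 1 1 2 (qsf 536870912 536870912 536870912 536870912 2) ndN1q1 ndN3q1 pcN2 Cut.none Ext.none)

def k0_mm_112 : ∃ t, chk3 f_mm_112 t 1 1 1 = true :=
  ⟨(l 4), by decide +kernel⟩

theorem c_mm_112 : CertNX 536870912 536870912 536870912 536870912 1046898278 26843546 3 true false false .dn 1 1 2
    ndN1q1 ndN3q1 pcN2 Cut.none Ext.none :=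
  certNX0 (fam := true) (s1 := false) (s2 := false) (a := 1) (b := 1) (c := 2) (cn := .dn) (n1 := ndN1q1) (n2 := ndN3q1) (pc := pcN2) (cut := Cut.none) (xt := Ext.none) (P1 := 536870912) (W1 := 536870912) (P2 := 536870912) (W2 := 536870912) (P3 := 1046898278) (W3 := 26843546) (N0 := 3)
    rfl k0_mm_112

noncomputable def f_mm_113 : ℕ → ℕ → ℕ → ℕ → Bool := onCell 536870912 536870912 536870912 536870912 1046898278 26843546
    (rowNX 3 0 true false false .nn 1 1 3 (qsf 536870912 536870912 536870912 536870912 3) ndN1q1 ndN3q1 pcN3 Cut.none Ext.none)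

def k0_mm_113 : ∃ t, chk3 f_mm_113 t 1 1 1 = true :=
  ⟨(l 4), by decide +kernel⟩

theorem c_mm_113 : CertNX 536870912 536870912 536870912 536870912 1046898278 26843546 3 true false false .nn 1 1 3
    ndN1q1 ndN3q1 pcN3 Cut.none Ext.none :=
  certNX0 (fam := true) (s1 := false) (s2 := false) (a := 1) (b := 1) (c := 3) (cn := .nn) (n1 := ndN1q1) (n2 := ndN3q1) (pc := pcN3) (cut := Cut.none) (xt := Ext.none) (P1 := 536870912) (W1 := 536870912) (P2 := 536870912) (W2 := 536870912) (P3 := 1046898278) (W3 := 26843546) (N0 := 3)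
    rfl k0_mm_113

noncomputable def f_mm_123 : ℕ → ℕ → ℕ → ℕ → Bool := onCell 536870912 536870912 1073741824 536870912 1046898278 26843546
    (rowNX 3 0 true false false .npn 1 2 3 (qsf 536870912 536870912 1073741824 536870912 3) ndN1q1 ndN3q2 pcN3 Cut.none Ext.none)

def k0_mm_123 : ∃ t, chk3 f_mm_123 t 1 1 1 = true :=
  ⟨(l 4), by decide +kernel⟩

theorem c_mm_123 : CertNX 536870912 536870912 1073741824 536870912 1046898278 26843546 3 true false false .npn 1 2 3
    ndN1q1 ndN3q2 pcN3 Cut.none Ext.none :=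
  certNX0 (fam := true) (s1 := false) (s2 := false) (a := 1) (b := 2) (c := 3) (cn := .npn) (n1 := ndN1q1) (n2 := ndN3q2) (pc := pcN3) (cut := Cut.none) (xt := Ext.none) (P1 := 536870912) (W1 := 536870912) (P2 := 1073741824) (W2 := 536870912) (P3 := 1046898278) (W3 := 26843546) (N0 := 3)
    rfl k0_mm_123

noncomputable def f_mm_133 : ℕ → ℕ → ℕ → ℕ → Bool := onCell 536870912 536870912 1610612736 536870912 1046898278 26843546
    (rowNX 3 0 true false false .dn 1 3 3 (qsf 536870912 536870912 1610612736 536870912 3) ndN1q1 ndN3q3 pcN3 Cut.none Ext.none)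

def k0_mm_133 : ∃ t, chk3 f_mm_133 t 1 1 1 = true :=
  ⟨(l 4), by decide +kernel⟩

theorem c_mm_133 : CertNX 536870912 536870912 1610612736 536870912 1046898278 26843546 3 true false false .dn 1 3 3
    ndN1q1 ndN3q3 pcN3 Cut.none Ext.none :=
  certNX0 (fam := true) (s1 := false) (s2 := false) (a := 1) (b := 3) (c := 3) (cn := .dn) (n1 := ndN1q1) (n2 := ndN3q3) (pc := pcN3) (cut := Cut.none) (xt := Ext.none) (P1 := 536870912) (W1 := 536870912) (P2 := 1610612736) (W2 := 536870912) (P3 := 1046898278) (W3 := 26843546) (N0 := 3)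
    rfl k0_mm_133

noncomputable def f_mm_202_a : ℕ → ℕ → ℕ → ℕ → Bool := onCell 0 420477299 0 536870912 1046898278 26843546
    (rowNX 3 0 true false false .pp 2 0 2 (qsf 0 420477299 0 536870912 2) ndN1q2a ndN3q0 pcN2 Cut.none Ext.none)

def k0_mm_202_a : ∃ t, chk3 f_mm_202_a t 2 4 1 = true :=
  ⟨(b (a (b (b (b (c (l 15616848) (a (l 15764336) (l 15849056))) (c (a (l 15648736) (l 15754944)) (a (l 15654504) (l 15764840)))) (c (a (l 15557048) (l 15670344)) (a (l 15531976) (l 15649728)))) (b (c (a (l 15462272) (l 15592960)) (l 15495304)) (c (a (l 15409464) (l 15557656)) (l 15444936)))) (b (b (a (c (b (l 16041248) (l 15926008)) (b (l 15877704) (l 15942432))) (b (a (c (l 16181480) (b (a (l 16209728) (l 16265520)) (l 16179520))) (c (b (l 16323304) (l 16263960)) (b (a (l 16307816) (l 16337968)) (a (l 16278352) (l 16292280))))) (c (a (l 16091464) (l 16222768)) (l 16110272)))) (a (c (l 15795336) (l 15823088)) (c (l 15892000) (l 15949144)))) (b (a (c (l 15764456) (l 15736896)) (c (l 15970216)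 (l 15950520))) (c (a (l 15740680) (l 15950448)) (a (l 15708120) (l 15925992)))))) (b (a (b (a (b (l 15400040) (l 15726592)) (b (c (l 15652280) (l 15615016)) (l 15856072))) (l 16033352)) (b (a (b (l 15825912) (a (l 15973360) (l 16068416))) (b (l 16023296) (l 16129240))) (a (l 16279368) (b (a (l 16365016) (l 16453104)) (l 16451680))))) (a (b (l 16392112) (l 16654192)) (b (a (l 16558624) (b (l 16433408) (l 16411328))) (a (l 16555488) (l 4)))))), by decide +kernel⟩

def k1_mm_202_a : ∃ t, chk3 f_mm_202_a t 6 8 1 = true :=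
  ⟨(a (b (b (b (c (a (l 16381456) (l 16391600)) (b (l 16255640) (a (l 16393744) (l 16378104)))) (a (c (b (a (l 16338992) (l 16390168)) (l 16322600)) (b (a (l 16379048) (l 16409656)) (l 16377384))) (c (b (l 16408704) (l 16305216)) (b (l 16370152) (l 16271168))))) (b (b (a (l 16185376) (c (a (l 16438696) (l 16391704)) (l 16212776))) (c (l 16266952) (l 16266408))) (c (l 16312792) (l 16308328)))) (b (c (a (l 16149192) (l 16292240)) (a (l 16136224) (l 16284592))) (c (l 16117672) (l 16164816)))) (a (b (b (c (b (l 16303024) (l 16339024)) (b (c (l 16308488) (l 16252400)) (l 16281672))) (b (c (a (b (l 16353960) (l 16364528)) (l 16319304)) (a (l 16269168) (l 16299112))) (b (c (a (l 16400480) (l 16340344)) (l 16196944)) (l 16304688)))) (b (c (l 16456528) (l 16454968)) (c (l 16371752) (l 16363080)))) (b (c (b (b (b (l 16226552) (l 16243664)) (l 16143384)) (b (l 16248408) (b (l 16264096) (l 16141312)))) (b (b (b (c (l 16217048) (l 16202640)) (l 16148976)) (l 16165192)) (b (l 16224840) (a (l 16208624)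 (l 16234656))))) (b (b (a (l 16298512) (b (c (l 16287016) (l 16275296)) (l 16277448))) (l 16315624)) (c (l 16420416) (l 16522272)))))), by decide +kernel⟩

def k2_mm_202_a : ∃ t, chk3 f_mm_202_a t 14 16 1 = true :=
  ⟨(b (c (a (b (a (b (l 16166672) (l 16164272)) (l 16151544)) (b (a (l 16166648) (l 16146344)) (l 16067984))) (b (c (c (a (l 16136208) (b (c (a (l 16210416) (l 16208016)) (l 16272320)) (l 16216008))) (l 16237448)) (l 16231248)) (b (l 16131392) (c (l 16176968) (l 16133336))))) (a (b (c (a (l 16082664) (l 16151144)) (b (a (l 16139184) (l 16154904)) (l 16073136))) (c (l 16048336) (l 16100000))) (b (c (b (l 16235000) (l 16198376)) (b (l 16156960) (l 16175416))) (c (l 16111048) (l 16120752))))) (c (a (b (l 16022616) (l 16176328)) (b (a (l 16122040) (l 16124184)) (l 16142208))) (a (b (l 16120184) (l 16157592)) (b (l 16096440) (l 16121400))))), by decide +kernel⟩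

def k3_mm_202_a : ∃ t, chk3 f_mm_202_a t 30 32 2 = true :=
  ⟨(c (b (c (a (b (c (a (l 16340200) (l 16353000)) (a (l 16253936) (b (l 16305184) (l 16343680)))) (c (c (l 16303400) (l 16237896)) (l 16305544))) (b (a (c (b (a (l 16406488) (l 16465488)) (l 16373272)) (b (l 16379056) (l 16329240))) (c (a (b (l 16498768) (l 16450056)) (l 16483216)) (a (l 16406792) (l 16432600)))) (c (a (l 16394560) (b (a (l 16452992) (b (l 16482240) (l 16474296))) (l 16459336))) (a (l 16295688) (b (l 16356200) (l 16392112)))))) (a (l 16224496) (b (a (b (c (a (l 16338640) (l 16377440)) (l 16358440)) (l 16332280)) (c (b (l 16369312) (c (l 16397616) (l 16379576))) (l 16378352))) (a (l 16337976) (b (c (l 16333272) (l 16368488)) (l 16361512)))))) (c (a (b (c (l 16255864) (l 16284664)) (l 16249776)) (b (c (l 16262016) (l 16220888)) (c (l 16178576) (l 16295984)))) (l 16277136))) (b (a (l 16302480) (b (a (l 16351304) (l 16374944)) (l 16345464))) (l 16167944))), by decide +kernel⟩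

def k4_mm_202_a : ∃ t, chk3 f_mm_202_a t 31 32 2 = true :=
  ⟨(c (b (c (a (b (c (l 16497408) (a (c (a (l 16491232) (l 16506776)) (b (l 16512760) (l 16491088))) (c (l 16540592) (l 16475944)))) (a (c (b (l 16497416) (a (l 16501688) (l 16522280))) (b (l 16458040) (l 16407352))) (c (l 16515744) (c (l 16531712) (l 16507600))))) (c (l 16544600) (b (l 16560104) (a (l 16471560) (l 16581960))))) (a (b (b (c (c (l 16401912) (l 16395088)) (a (l 16371456) (l 16374504))) (c (a (l 16416880) (l 16454344)) (a (l 16400840) (l 16396696)))) (a (c (b (l 16395008) (l 16335264)) (l 16390200)) (c (l 16374400) (l 16420392)))) (a (c (b (c (l 16525576) (l 16464480)) (l 16391872)) (b (c (l 16499096) (l 16423320)) (c (l 16425632) (l 16448640)))) (b (c (c (l 16584400) (l 16545296)) (b (c (l 16545208) (l 16543992)) (l 16510176))) (c (b (l 16537592) (l 16543416)) (c (l 16528672) (l 16434168))))))) (a (c (b (c (a (b (l 16468696) (l 16461304)) (b (l 16514208) (l 16478552))) (a (b (l 16378872) (l 16395016)) (b (l 16483472)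 (l 16388496)))) (c (a (l 16354760) (l 16419272)) (l 16224352))) (b (a (l 16351488) (c (b (l 16382160) (l 16381888)) (l 16397584))) (l 16334760))) (c (c (b (l 16518208) (a (b (l 16459296) (l 16480712)) (b (l 16579456) (l 16551888)))) (b (b (l 16442432) (l 16415288)) (a (b (l 16408784) (l 16398608)) (l 16417592)))) (b (b (c (a (l 16454672) (l 16540744)) (l 16357168)) (c (c (l 16409408) (l 16378048)) (l 16415864))) (a (b (l 16316336) (l 16365184)) (b (l 16317632) (l 16299304))))))) (b (a (b (l 16410904) (l 16376976)) (c (c (b (a (c (l 16379440) (l 16452168)) (b (a (l 16435608) (l 16485976)) (l 16410784))) (l 16397432)) (l 16439680)) (l 16457120))) (a (b (l 16276640) (l 16302336)) (b (l 16417280) (l 16298504))))), by decide +kernel⟩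

def k5_mm_202_a : ∃ t, chk3 f_mm_202_a t 15 32 3 = true :=
  ⟨(a (b (b (a (c (l 16307584) (l 16230448)) (c (a (l 16345976) (l 16369944)) (b (l 16313496) (a (l 16326832) (l 16351936))))) (c (a (l 16270008) (l 16260384)) (a (l 16247800) (l 16280696)))) (c (l 16222720) (l 16212688))) (b (b (c (l 16412960) (c (l 16383608) (b (l 16406832) (l 16408648)))) (c (a (b (l 16388992) (l 16367248)) (l 16431288)) (a (l 16292304) (l 16410768)))) (a (c (b (l 16284088) (l 16282512)) (l 16191392)) (c (b (l 16383192) (l 16342264)) (b (l 16374016) (l 16338408)))))), by decide +kernel⟩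

def k6_mm_202_a : ∃ t, chk3 f_mm_202_a t 15 33 1 = true :=
  ⟨(c (a (b (c (b (l 16060632) (l 16159744)) (l 16158008)) (a (l 16124776) (l 16138440))) (c (b (c (a (c (b (l 16231608) (l 16256992)) (l 16267016)) (b (c (a (l 16384592) (b (l 16471792) (l 16466376))) (a (l 16354152) (l 16284192))) (c (l 16273656) (l 16305376)))) (a (l 16251736) (b (a (l 16318576) (l 16289592)) (l 16285000)))) (a (l 16182424) (c (b (l 16167392) (l 16235320)) (l 16240240)))) (b (a (l 16236160) (l 16295472)) (l 16205856)))) (a (b (l 16145032) (l 16114848)) (b (a (l 16224896) (l 16201648)) (l 16151984)))), by decide +kernel⟩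

def k7_mm_202_a : ∃ t, chk3 f_mm_202_a t 7 17 1 = true :=
  ⟨(a (b (a (a (b (c (l 16093280) (l 16162872)) (c (l 16292992) (l 16303952))) (b (l 16115728) (c (b (l 16256328) (l 16294168)) (b (l 16243848) (l 16282856))))) (c (b (l 16189048) (a (l 16260744) (l 16247880))) (b (l 16171880) (a (l 16247960) (l 16234216))))) (a (c (l 16244304) (l 16331648)) (b (a (c (b (l 16276824) (l 4)) (l 16203056)) (l 4)) (l 4)))) (b (b (a (c (l 16159752) (l 16140664)) (a (c (l 16163120) (l 16143512)) (l 4))) (a (c (l 16234320) (l 16219528)) (l 4))) (l 4))), by decide +kernel⟩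

def k8_mm_202_a : ∃ t, chk3 f_mm_202_a t 3 9 1 = true :=
  ⟨(a (b (a (b (c (l 16123392) (l 16134624)) (a (b (l 16550640) (l 35667450967)) (l 16378520))) (b (b (c (l 16408688) (l 16383512)) (l 16279112)) (l 4))) (l 4)) (l 4)), by decide +kernel⟩

def k9_mm_202_a : ∃ t, chk3 f_mm_202_a t 1 5 1 = true :=
  ⟨(a (b (b (a (b (l 16694616) (l 16685768)) (b (a (l 16603384) (l 4)) (l 4))) (a (a (b (l 16630512) (l 16621120)) (l 4)) (l 4))) (l 4)) (l 4)), by decide +kernel⟩

def k10_mm_202_a : ∃ t, chk3 f_mm_202_a t 1 3 1 = true :=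
  ⟨(l 4), by decide +kernel⟩

theorem s11_mm_202_a : ∃ t, chk3 f_mm_202_a t 15 32 2 = true := ex3_a k3_mm_202_a k4_mm_202_a

theorem s12_mm_202_a : ∃ t, chk3 f_mm_202_a t 15 32 1 = true := ex3_c s11_mm_202_a k5_mm_202_a

theorem s13_mm_202_a : ∃ t, chk3 f_mm_202_a t 15 16 1 = true := ex3_b s12_mm_202_a k6_mm_202_a

theorem s14_mm_202_a : ∃ t, chk3 f_mm_202_a t 7 16 1 = true := ex3_a k2_mm_202_a s13_mm_202_a

theorem s15_mm_202_a : ∃ t, chk3 f_mm_202_a t 7 8 1 = true := ex3_b s14_mm_202_a k7_mm_202_a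

theorem s16_mm_202_a : ∃ t, chk3 f_mm_202_a t 3 8 1 = true := ex3_a k1_mm_202_a s15_mm_202_a

theorem s17_mm_202_a : ∃ t, chk3 f_mm_202_a t 3 4 1 = true := ex3_b s16_mm_202_a k8_mm_202_a

theorem s18_mm_202_a : ∃ t, chk3 f_mm_202_a t 1 4 1 = true := ex3_a k0_mm_202_a s17_mm_202_a

theorem s19_mm_202_a : ∃ t, chk3 f_mm_202_a t 1 2 1 = true := ex3_b s18_mm_202_a k9_mm_202_a

theorem s20_mm_202_a : ∃ t, chk3 f_mm_202_a t 1 1 1 = true := ex3_b s19_mm_202_a k10_mm_202_a

theorem c_mm_202_a : CertNX 0 420477299 0 536870912 1046898278 26843546 3 true false false .pp 2 0 2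
    ndN1q2a ndN3q0 pcN2 Cut.none Ext.none :=
  certNX0 (fam := true) (s1 := false) (s2 := false) (a := 2) (b := 0) (c := 2) (cn := .pp) (n1 := ndN1q2a) (n2 := ndN3q0) (pc := pcN2) (cut := Cut.none) (xt := Ext.none) (P1 := 0) (W1 := 420477299) (P2 := 0) (W2 := 536870912) (P3 := 1046898278) (W3 := 26843546) (N0 := 3)
    rfl s20_mm_202_a

noncomputable def f_mm_202_b : ℕ → ℕ → ℕ → ℕ → Bool := onCell 1073741824 536870912 0 536870912 1046898278 26843546
    (rowNX 3 2 true false false .pp 2 0 2 (qsf 1239849684 370763052 0 536870912 2) ndN1q2b ndN3q0 pcN2 Cut.none Ext.none)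

def k0_mm_202_b : ∃ t, chk3 f_mm_202_b t 2 1 1 = true :=
  ⟨(a (l 1) (b (b (a (b (b (a (a (l 1) (b (b (b (l 343091984951) (l 1)) (l 1)) (l 1))) (b (c (a (b (l 15593376) (l 15679448)) (l 15143184)) (b (a (l 15517624) (l 15169776)) (l 226589878503))) (c (a (l 15694168) (l 15482200)) (l 259339380039)))) (a (l 1) (a (l 1) (c (l 332354106199) (l 15644984))))) (l 1)) (b (a (b (b (c (b (l 14664472) (l 14725776)) (b (l 14468336) (l 14739072))) (c (a (l 15137240) (l 14818984)) (l 14927040))) (c (b (l 15140240) (l 15212544)) (b (l 15175432) (l 15420608)))) (b (c (b (l 14353832) (l 14612752)) (b (b (l 14232928) (l 14359216)) (l 14550592))) (c (b (l 14865904) (l 15109480)) (l 14924432)))) (b (a (b (c (l 324301271911) (l 15611672)) (l 1)) (b (c (l 15520784) (l 15477720)) (l 15913480))) (a (l 1) (b (l 308196586279) (l 1)))))) (l 1)) (l 1))), by decide +kernel⟩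

def k1_mm_202_b : ∃ t, chk3 f_mm_202_b t 3 1 1 = true :=
  ⟨(b (b (a (b (a (b (c (b (l 14160496) (l 14472104)) (b (a (l 14226840) (l 14135192)) (l 14404400))) (c (a (l 14866992) (l 14730792)) (l 14481608))) (b (c (b (l 14103344) (l 14303864)) (a (l 14140600) (l 14127872))) (c (l 14468976) (l 14518312)))) (a (b (a (b (l 15354112) (l 15915568)) (c (l 15421784) (l 15439048))) (a (b (l 16389776) (l 16619624)) (b (l 16212272) (l 16405880)))) (b (a (c (l 15328120) (l 15275944)) (l 15265472)) (a (b (l 16032624) (l 16213848)) (l 16101312))))) (b (a (b (c (l 14194240) (l 14127872)) (c (l 14586696) (l 14509832))) (b (c (l 14194240) (l 14127872)) (l 14549544))) (b (a (c (l 15309384) (l 15256400)) (c (l 15309384) (l 15256400))) (a (c (l 16112936) (l 16089616)) (l 4))))) (a (a (b (a (b (l 16355800) (l 1)) (a (l 202970011223) (l 16473104))) (l 1)) (b (a (b (l 16393184) (l 16553736)) (l 16311928)) (l 4))) (a (a (b (l 16395808) (l 4)) (l 4)) (l 4)))) (a (l 1) (l 4))), by decide +kernel⟩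

theorem s2_mm_202_b : ∃ t, chk3 f_mm_202_b t 1 1 1 = true := ex3_a k0_mm_202_b k1_mm_202_b

theorem c_mm_202_b : CertNX 1239849684 370763052 0 536870912 1046898278 26843546 3 true false false .pp 2 0 2
    ndN1q2b ndN3q0 pcN2 Cut.none Ext.none :=
  certNX2 (fam := true) (s1 := false) (s2 := false) (a := 2) (b := 0) (c := 2) (cn := .pp) (n1 := ndN1q2b) (n2 := ndN3q0) (pc := pcN2) (cut := Cut.none) (xt := Ext.none) (P1 := 1239849684) (W1 := 370763052) (P2 := 0) (W2 := 536870912) (P3 := 1046898278) (W3 := 26843546) (N0 := 3)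
    rfl (fun _ => rfl) s2_mm_202_b

noncomputable def f_mm_203_a : ℕ → ℕ → ℕ → ℕ → Bool := onCell 0 420477299 1610612736 536870912 1046898278 26843546
    (rowNX 3 1 true false false .up 2 0 3 (qsf 0 420477299 0 536870912 3) ndN1q2a ndN3q0 pcN3 Cut.none Ext.none)

def k0_mm_203_a : ∃ t, chk3 f_mm_203_a t 1 1 1 = true :=
  ⟨(l 4), by decide +kernel⟩

theorem c_mm_203_a : CertNX 0 420477299 0 536870912 1046898278 26843546 3 true false false .up 2 0 3
    ndN1q2a ndN3q0 pcN3 Cut.none Ext.none :=
  certNX1 (fam := true) (s1 := false) (s2 := false) (a := 2) (b := 0) (c := 3) (cn := .up) (n1 := ndN1q2a) (n2 := ndN3q0) (pc := pcN3) (cut := Cut.none) (xt := Ext.none) (P1 := 0) (W1 := 420477299) (P2 := 0) (W2 := 536870912) (P3 := 1046898278) (W3 := 26843546) (N0 := 3)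
    rfl (fun _ => rfl) k0_mm_203_a

noncomputable def f_mm_203_b : ℕ → ℕ → ℕ → ℕ → Bool := onCell 1610612736 536870912 0 536870912 1046898278 26843546
    (rowNX 3 2 true false false .up 2 0 3 (qsf 1239849684 370763052 0 536870912 3) ndN1q2b ndN3q0 pcN3 Cut.none Ext.none)

def k0_mm_203_b : ∃ t, chk3 f_mm_203_b t 1 1 1 = true :=
  ⟨(a (b (b (a (b (a (b (a (l 14163584) (l 14163584)) (l 14528568)) (b (l 2) (l 4))) (l 4)) (l 4)) (l 4)) (l 4)) (l 4)), by decide +kernel⟩

theorem c_mm_203_b : CertNX 1239849684 370763052 0 536870912 1046898278 26843546 3 true false false .up 2 0 3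
    ndN1q2b ndN3q0 pcN3 Cut.none Ext.none :=
  certNX2 (fam := true) (s1 := false) (s2 := false) (a := 2) (b := 0) (c := 3) (cn := .up) (n1 := ndN1q2b) (n2 := ndN3q0) (pc := pcN3) (cut := Cut.none) (xt := Ext.none) (P1 := 1239849684) (W1 := 370763052) (P2 := 0) (W2 := 536870912) (P3 := 1046898278) (W3 := 26843546) (N0 := 3)
    rfl (fun _ => rfl) k0_mm_203_b

noncomputable def f_mm_213_a : ℕ → ℕ → ℕ → ℕ → Bool := onCell 0 420477299 536870912 536870912 1046898278 26843546
    (rowNX 3 0 true false false .pnn 2 1 3 (qsf 0 420477299 536870912 536870912 3) ndN1q2a ndN3q1 pcN3 Cut.none Ext.none)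

def k0_mm_213_a : ∃ t, chk3 f_mm_213_a t 1 1 1 = true :=
  ⟨(l 4), by decide +kernel⟩

theorem c_mm_213_a : CertNX 0 420477299 536870912 536870912 1046898278 26843546 3 true false false .pnn 2 1 3
    ndN1q2a ndN3q1 pcN3 Cut.none Ext.none :=
  certNX0 (fam := true) (s1 := false) (s2 := false) (a := 2) (b := 1) (c := 3) (cn := .pnn) (n1 := ndN1q2a) (n2 := ndN3q1) (pc := pcN3) (cut := Cut.none) (xt := Ext.none) (P1 := 0) (W1 := 420477299) (P2 := 536870912) (W2 := 536870912) (P3 := 1046898278) (W3 := 26843546) (N0 := 3)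
    rfl k0_mm_213_a

noncomputable def f_mm_213_b : ℕ → ℕ → ℕ → ℕ → Bool := onCell 1239849684 370763052 536870912 536870912 1046898278 26843546
    (rowNX 3 0 true false false .pnn 2 1 3 (qsf 1239849684 370763052 536870912 536870912 3) ndN1q2b ndN3q1 pcN3 Cut.none Ext.none)

def k0_mm_213_b : ∃ t, chk3 f_mm_213_b t 1 1 1 = true :=
  ⟨(l 4), by decide +kernel⟩

theorem c_mm_213_b : CertNX 1239849684 370763052 536870912 536870912 1046898278 26843546 3 true false false .pnn 2 1 3
    ndN1q2b ndN3q1 pcN3 Cut.none Ext.none :=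
  certNX0 (fam := true) (s1 := false) (s2 := false) (a := 2) (b := 1) (c := 3) (cn := .pnn) (n1 := ndN1q2b) (n2 := ndN3q1) (pc := pcN3) (cut := Cut.none) (xt := Ext.none) (P1 := 1239849684) (W1 := 370763052) (P2 := 536870912) (W2 := 536870912) (P3 := 1046898278) (W3 := 26843546) (N0 := 3)
    rfl k0_mm_213_b

noncomputable def f_mm_303 : ℕ → ℕ → ℕ → ℕ → Bool := onCell 1610612736 536870912 0 536870912 1046898278 26843546
    (rowNX 3 2 true false false .npn 3 0 3 (qsf 1610612736 469762048 0 536870912 3) ndN1q3 ndN3q0 pcN3 Cut.none Ext.none)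

def k0_mm_303 : ∃ t, chk3 f_mm_303 t 1 1 1 = true :=
  ⟨(a (b (b (a (b (b (a (c (l 14194240) (l 14127872)) (c (l 14194240) (l 14127872))) (a (l 14528568) (l 4))) (l 4)) (l 4)) (l 4)) (l 4)) (l 4)), by decide +kernel⟩

theorem c_mm_303 : CertNX 1610612736 469762048 0 536870912 1046898278 26843546 3 true false false .npn 3 0 3
    ndN1q3 ndN3q0 pcN3 Cut.none Ext.none :=
  certNX2 (fam := true) (s1 := false) (s2 := false) (a := 3) (b := 0) (c := 3) (cn := .npn) (n1 := ndN1q3) (n2 := ndN3q0) (pc := pcN3) (cut := Cut.none) (xt := Ext.none) (P1 := 1610612736) (W1 := 469762048) (P2 := 0) (W2 := 536870912) (P3 := 1046898278) (W3 := 26843546) (N0 := 3)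
    rfl (fun _ => rfl) k0_mm_303

noncomputable def f_mm_313 : ℕ → ℕ → ℕ → ℕ → Bool := onCell 1610612736 469762048 536870912 536870912 1046898278 26843546
    (rowNX 3 0 true false false .dn 3 1 3 (qsf 1610612736 469762048 536870912 536870912 3) ndN1q3 ndN3q1 pcN3 Cut.none Ext.none)

def k0_mm_313 : ∃ t, chk3 f_mm_313 t 1 1 1 = true :=
  ⟨(l 4), by decide +kernel⟩

theorem c_mm_313 : CertNX 1610612736 469762048 536870912 536870912 1046898278 26843546 3 true false false .dn 3 1 3
    ndN1q3 ndN3q1 pcN3 Cut.none Ext.none :=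
  certNX0 (fam := true) (s1 := false) (s2 := false) (a := 3) (b := 1) (c := 3) (cn := .dn) (n1 := ndN1q3) (n2 := ndN3q1) (pc := pcN3) (cut := Cut.none) (xt := Ext.none) (P1 := 1610612736) (W1 := 469762048) (P2 := 536870912) (W2 := 536870912) (P3 := 1046898278) (W3 := 26843546) (N0 := 3)
    rfl k0_mm_313

end Pool.Agent.Strip051.G.IE1.Tab.C.NA13

namespace Pool.Agent.Strip051.G.IE1.Tab.C.NA14

open Pool.Agent.Strip051.PB Pool.Agent.Strip051.PB.T
open Pool.Agent.Strip051.G.IE1.Tab

noncomputable def f_pp_001 : ℕ → ℕ → ℕ → ℕ → Bool := onCell 67108864 469762048 0 67108864 1046898278 26843546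
    (rowNX 3 0 true true true .up 0 0 1 (qsf 67108864 469762048 0 67108864 1) ndN1q0 ndN4q0 pcN1 Cut.none Ext.none)

def k0_pp_001 : ∃ t, chk3 f_pp_001 t 1 1 1 = true :=
  ⟨(l 4), by decide +kernel⟩

theorem c_pp_001 : CertNX 67108864 469762048 0 67108864 1046898278 26843546 3 true true true .up 0 0 1
    ndN1q0 ndN4q0 pcN1 Cut.none Ext.none :=
  certNX0 (fam := true) (s1 := true) (s2 := true) (a := 0) (b := 0) (c := 1) (cn := .up) (n1 := ndN1q0) (n2 := ndN4q0) (pc := pcN1) (cut := Cut.none) (xt := Ext.none) (P1 := 67108864) (W1 := 469762048) (P2 := 0) (W2 := 67108864) (P3 := 1046898278) (W3 := 26843546) (N0 := 3)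
    rfl k0_pp_001

noncomputable def f_pp_101 : ℕ → ℕ → ℕ → ℕ → Bool := onCell 536870912 536870912 0 67108864 1046898278 26843546
    (rowNX 3 0 true true true .npn 1 0 1 (qsf 536870912 536870912 0 67108864 1) ndN1q1 ndN4q0 pcN1 Cut.none Ext.none)

def k0_pp_101 : ∃ t, chk3 f_pp_101 t 1 1 1 = true :=
  ⟨(l 4), by decide +kernel⟩

theorem c_pp_101 : CertNX 536870912 536870912 0 67108864 1046898278 26843546 3 true true true .npn 1 0 1
    ndN1q1 ndN4q0 pcN1 Cut.none Ext.none :=
  certNX0 (fam := true) (s1 := true) (s2 := true) (a := 1) (b := 0) (c := 1) (cn := .npn) (n1 := ndN1q1) (n2 := ndN4q0) (pc := pcN1) (cut := Cut.none) (xt := Ext.none) (P1 := 536870912) (W1 := 536870912) (P2 := 0) (W2 := 67108864) (P3 := 1046898278) (W3 := 26843546) (N0 := 3)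
    rfl k0_pp_101

noncomputable def f_pp_102 : ℕ → ℕ → ℕ → ℕ → Bool := onCell 536870912 536870912 0 67108864 1046898278 26843546
    (rowNX 3 0 true true true .npp 1 0 2 (qsf 536870912 536870912 0 67108864 2) ndN1q1 ndN4q0 pcN2 Cut.none Ext.none)

def k0_pp_102 : ∃ t, chk3 f_pp_102 t 1 1 1 = true :=
  ⟨(l 4), by decide +kernel⟩

theorem c_pp_102 : CertNX 536870912 536870912 0 67108864 1046898278 26843546 3 true true true .npp 1 0 2
    ndN1q1 ndN4q0 pcN2 Cut.none Ext.none :=
  certNX0 (fam := true) (s1 := true) (s2 := true) (a := 1) (b := 0) (c := 2) (cn := .npp) (n1 := ndN1q1) (n2 := ndN4q0) (pc := pcN2) (cut := Cut.none) (xt := Ext.none) (P1 := 536870912) (W1 := 536870912) (P2 := 0) (W2 := 67108864) (P3 := 1046898278) (W3 := 26843546) (N0 := 3)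
    rfl k0_pp_102

noncomputable def f_pp_202_a : ℕ → ℕ → ℕ → ℕ → Bool := onCell 0 420477299 0 67108864 1046898278 26843546
    (rowNX 3 0 true true true .pp 2 0 2 (qsf 0 420477299 0 67108864 2) ndN1q2a ndN4q0 pcN2 Cut.none Ext.none)

def k0_pp_202_a : ∃ t, chk3 f_pp_202_a t 1 1 1 = true :=
  ⟨(l 5), by decide +kernel⟩

theorem c_pp_202_a : CertNX 0 420477299 0 67108864 1046898278 26843546 3 true true true .pp 2 0 2
    ndN1q2a ndN4q0 pcN2 Cut.none Ext.none :=
  certNX0 (fam := true) (s1 := true) (s2 := true) (a := 2) (b := 0) (c := 2) (cn := .pp) (n1 := ndN1q2a) (n2 := ndN4q0) (pc := pcN2) (cut := Cut.none) (xt := Ext.none) (P1 := 0) (W1 := 420477299) (P2 := 0) (W2 := 67108864) (P3 := 1046898278) (W3 := 26843546) (N0 := 3)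
    rfl k0_pp_202_a

noncomputable def f_pp_202_b : ℕ → ℕ → ℕ → ℕ → Bool := onCell 1239849684 370763052 0 67108864 1046898278 26843546
    (rowNX 3 0 true true true .pp 2 0 2 (qsf 1239849684 370763052 0 67108864 2) ndN1q2b ndN4q0 pcN2 Cut.none Ext.none)

def k0_pp_202_b : ∃ t, chk3 f_pp_202_b t 1 1 1 = true :=
  ⟨(l 5), by decide +kernel⟩

theorem c_pp_202_b : CertNX 1239849684 370763052 0 67108864 1046898278 26843546 3 true true true .pp 2 0 2
    ndN1q2b ndN4q0 pcN2 Cut.none Ext.none :=
  certNX0 (fam := true) (s1 := true) (s2 := true) (a := 2) (b := 0) (c := 2) (cn := .pp) (n1 := ndN1q2b) (n2 := ndN4q0) (pc := pcN2) (cut := Cut.none) (xt := Ext.none) (P1 := 1239849684) (W1 := 370763052) (P2 := 0) (W2 := 67108864) (P3 := 1046898278) (W3 := 26843546) (N0 := 3)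
    rfl k0_pp_202_b

noncomputable def f_pp_203_a : ℕ → ℕ → ℕ → ℕ → Bool := onCell 0 420477299 0 67108864 1046898278 26843546
    (rowNX 3 0 true true true .up 2 0 3 (qsf 0 420477299 0 67108864 3) ndN1q2a ndN4q0 pcN3 Cut.none Ext.none)

def k0_pp_203_a : ∃ t, chk3 f_pp_203_a t 1 1 1 = true :=
  ⟨(l 1), by decide +kernel⟩

theorem c_pp_203_a : CertNX 0 420477299 0 67108864 1046898278 26843546 3 true true true .up 2 0 3
    ndN1q2a ndN4q0 pcN3 Cut.none Ext.none :=
  certNX0 (fam := true) (s1 := true) (s2 := true) (a := 2) (b := 0) (c := 3) (cn := .up) (n1 := ndN1q2a) (n2 := ndN4q0) (pc := pcN3) (cut := Cut.none) (xt := Ext.none) (P1 := 0) (W1 := 420477299) (P2 := 0) (W2 := 67108864) (P3 := 1046898278) (W3 := 26843546) (N0 := 3)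
    rfl k0_pp_203_a

noncomputable def f_pp_203_b : ℕ → ℕ → ℕ → ℕ → Bool := onCell 1239849684 370763052 0 67108864 1046898278 26843546
    (rowNX 3 0 true true true .up 2 0 3 (qsf 1239849684 370763052 0 67108864 3) ndN1q2b ndN4q0 pcN3 Cut.none Ext.none)

def k0_pp_203_b : ∃ t, chk3 f_pp_203_b t 1 1 1 = true :=
  ⟨(l 5), by decide +kernel⟩

theorem c_pp_203_b : CertNX 1239849684 370763052 0 67108864 1046898278 26843546 3 true true true .up 2 0 3
    ndN1q2b ndN4q0 pcN3 Cut.none Ext.none :=
  certNX0 (fam := true) (s1 := true) (s2 := true) (a := 2) (b := 0) (c := 3) (cn := .up) (n1 := ndN1q2b) (n2 := ndN4q0) (pc := pcN3) (cut := Cut.none) (xt := Ext.none) (P1 := 1239849684) (W1 := 370763052) (P2 := 0) (W2 := 67108864) (P3 := 1046898278) (W3 := 26843546) (N0 := 3)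
    rfl k0_pp_203_b

noncomputable def f_pp_303 : ℕ → ℕ → ℕ → ℕ → Bool := onCell 1610612736 469762048 0 67108864 1046898278 26843546
    (rowNX 3 0 true true true .npn 3 0 3 (qsf 1610612736 469762048 0 67108864 3) ndN1q3 ndN4q0 pcN3 Cut.none Ext.none)

def k0_pp_303 : ∃ t, chk3 f_pp_303 t 1 1 1 = true :=
  ⟨(l 5), by decide +kernel⟩

theorem c_pp_303 : CertNX 1610612736 469762048 0 67108864 1046898278 26843546 3 true true true .npn 3 0 3
    ndN1q3 ndN4q0 pcN3 Cut.none Ext.none :=
  certNX0 (fam := true) (s1 := true) (s2 := true) (a := 3) (b := 0) (c := 3) (cn := .npn) (n1 := ndN1q3) (n2 := ndN4q0) (pc := pcN3) (cut := Cut.none) (xt := Ext.none) (P1 := 1610612736) (W1 := 469762048) (P2 := 0) (W2 := 67108864) (P3 := 1046898278) (W3 := 26843546) (N0 := 3)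
    rfl k0_pp_303

noncomputable def f_pm_001 : ℕ → ℕ → ℕ → ℕ → Bool := onCell 67108864 469762048 0 67108864 1046898278 26843546
    (rowNX 3 0 true true false .up 0 0 1 (qsf 67108864 469762048 0 67108864 1) ndN1q0 ndN4q0 pcN1 Cut.none Ext.none)

def k0_pm_001 : ∃ t, chk3 f_pm_001 t 1 1 1 = true :=
  ⟨(l 3), by decide +kernel⟩

theorem c_pm_001 : CertNX 67108864 469762048 0 67108864 1046898278 26843546 3 true true false .up 0 0 1
    ndN1q0 ndN4q0 pcN1 Cut.none Ext.none :=
  certNX0 (fam := true) (s1 := true) (s2 := false) (a := 0) (b := 0) (c := 1) (cn := .up) (n1 := ndN1q0) (n2 := ndN4q0) (pc := pcN1) (cut := Cut.none) (xt := Ext.none) (P1 := 67108864) (W1 := 469762048) (P2 := 0) (W2 := 67108864) (P3 := 1046898278) (W3 := 26843546) (N0 := 3)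
    rfl k0_pm_001

noncomputable def f_pm_101 : ℕ → ℕ → ℕ → ℕ → Bool := onCell 536870912 536870912 0 67108864 1046898278 26843546
    (rowNX 3 2 true true false .npn 1 0 1 (qsf 536870912 536870912 0 67108864 1) ndN1q1 ndN4q0 pcN1 Cut.none Ext.none)

def k0_pm_101 : ∃ t, chk3 f_pm_101 t 1 1 1 = true :=
  ⟨(l 3), by decide +kernel⟩

theorem c_pm_101 : CertNX 536870912 536870912 0 67108864 1046898278 26843546 3 true true false .npn 1 0 1
    ndN1q1 ndN4q0 pcN1 Cut.none Ext.none :=
  certNX2 (fam := true) (s1 := true) (s2 := false) (a := 1) (b := 0) (c := 1) (cn := .npn) (n1 := ndN1q1) (n2 := ndN4q0) (pc := pcN1) (cut := Cut.none) (xt := Ext.none) (P1 := 536870912) (W1 := 536870912) (P2 := 0) (W2 := 67108864) (P3 := 1046898278) (W3 := 26843546) (N0 := 3)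
    rfl (fun _ => rfl) k0_pm_101

noncomputable def f_pm_102 : ℕ → ℕ → ℕ → ℕ → Bool := onCell 536870912 536870912 0 67108864 1046898278 26843546
    (rowNX 3 0 true true false .npp 1 0 2 (qsf 536870912 536870912 0 67108864 2) ndN1q1 ndN4q0 pcN2 Cut.none Ext.none)

def k0_pm_102 : ∃ t, chk3 f_pm_102 t 1 1 1 = true :=
  ⟨(a (l 1) (a (l 1) (a (l 3) (b (l 3) (a (l 3) (b (l 3) (a (l 3) (c (b (a (l 3) (c (b (l 3) (a (l 3) (l 581061534615))) (l 3))) (a (c (b (l 3) (a (l 3) (l 503215273607))) (l 3)) (b (a (c (l 16485808) (l 3)) (c (l 16660472) (l 16680872))) (c (a (l 16564688) (l 240148512999)) (l 284708847351))))) (b (l 3) (a (l 3) (b (l 3) (a (l 3) (l 467244950247))))))))))))), by decide +kernel⟩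

theorem c_pm_102 : CertNX 536870912 536870912 0 67108864 1046898278 26843546 3 true true false .npp 1 0 2
    ndN1q1 ndN4q0 pcN2 Cut.none Ext.none :=
  certNX0 (fam := true) (s1 := true) (s2 := false) (a := 1) (b := 0) (c := 2) (cn := .npp) (n1 := ndN1q1) (n2 := ndN4q0) (pc := pcN2) (cut := Cut.none) (xt := Ext.none) (P1 := 536870912) (W1 := 536870912) (P2 := 0) (W2 := 67108864) (P3 := 1046898278) (W3 := 26843546) (N0 := 3)
    rfl k0_pm_102

noncomputable def f_pm_202_a : ℕ → ℕ → ℕ → ℕ → Bool := onCell 0 420477299 0 67108864 1046898278 26843546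
    (rowNX 3 0 true true false .pp 2 0 2 (qsf 0 420477299 0 67108864 2) ndN1q2a ndN4q0 pcN2 Cut.none Ext.none)

def k0_pm_202_a : ∃ t, chk3 f_pm_202_a t 2 2 1 = true :=
  ⟨(a (b (c (b (a (l 15849688) (l 15949816)) (b (a (l 15635504) (l 15669664)) (c (l 15547032) (a (l 15620952) (l 15716984))))) (b (b (c (l 15671728) (a (c (l 15823088) (l 15806712)) (c (l 15928992) (l 15829808)))) (c (a (l 15773080) (l 15833352)) (a (l 15727688) (l 15832016)))) (c (a (l 15637640) (l 15736720)) (l 15526336)))) (c (b (a (c (l 15531816) (l 15499856)) (c (l 15622840) (l 15592816))) (a (l 15378200) (l 15466136))) (a (l 15417016) (l 15510816)))) (b (b (a (c (b (l 16163408) (l 16053704)) (c (b (l 16146680) (l 15880728)) (b (b (b (l 16092040) (l 16032888)) (l 15918968)) (l 15967280)))) (c (a (b (l 16206288) (l 16316488)) (b (l 16374288) (b (l 16273304) (a (l 16393808) (l 16331224))))) (b (a (c (a (l 16315008) (l 16356440)) (a (c (l 16300280) (l 16225824)) (b (b (l 16375008) (l 16254440)) (l 16234496)))) (c (l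 16291104) (b (l 16347112) (c (l 16280240) (l 16389624))))) (a (c (l 16149688) (l 16198488)) (c (b (a (l 16372952) (l 16351464)) (a (l 16380752) (l 16293496))) (a (l 16240112) (b (l 16373264) (l 16377736)))))))) (c (a (b (c (l 16055152) (l 16021560)) (c (l 15979096) (l 15900936))) (b (c (l 16207264) (l 16137472)) (c (l 16127016) (l 16033560)))) (a (c (l 15821240) (l 15911816)) (c (b (l 16086264) (l 16122680)) (l 16079224))))) (c (a (b (c (l 15756432) (l 15772048)) (l 15637288)) (b (b (c (l 16077912) (l 16037280)) (l 15841232)) (l 15857184))) (a (l 15482768) (c (l 15816704) (l 15897032)))))), by decide +kernel⟩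

def k1_pm_202_a : ∃ t, chk3 f_pm_202_a t 2 3 1 = true :=
  ⟨(a (c (b (a (l 15230384) (l 15312256)) (c (a (l 15041312) (l 15132472)) (l 15017536))) (b (a (l 15165336) (l 15250736)) (l 14845512))) (b (c (a (l 15411200) (l 15492672)) (a (l 15419544) (l 15679400))) (c (a (c (l 15280448) (l 15243696)) (c (l 15384760) (l 15478736))) (a (l 15161488) (l 15404016))))), by decide +kernel⟩

def k2_pm_202_a : ∃ t, chk3 f_pm_202_a t 6 2 1 = true :=
  ⟨(b (a (b (c (a (l 16265992) (l 16302720)) (b (c (l 16341872) (b (l 16113600) (c (l 16349832) (l 16332416)))) (c (a (l 16262744) (l 16339720)) (a (l 16345072) (l 16368952))))) (c (a (b (a (b (a (l 16310624) (l 16303312)) (l 16250936)) (c (l 16303176) (l 16331336))) (c (l 16154904) (a (l 16402424) (l 16243536)))) (b (l 16313232) (b (l 16334480) (a (l 16254496) (l 16342584))))) (a (b (c (a (b (l 16355920) (l 16381376)) (l 16361384)) (a (l 16327144) (l 16358304))) (c (l 16245144) (l 16236432))) (c (b (l 16418984) (l 16271600)) (b (l 16417208) (l 16290496))))))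 (c (b (l 16109488) (c (l 16224400) (b (l 16398760) (l 16434416)))) (b (c (b (l 16223472) (b (l 16265824) (l 16269496))) (b (c (l 16121456) (b (l 16086952) (l 16210216))) (c (l 16281200) (l 16275704)))) (c (l 16222040) (l 16320808))))) (b (a (c (a (c (l 16181752) (l 16271272)) (b (b (a (l 16175928) (l 16325400)) (c (l 16192792) (l 16183216))) (a (l 16428560) (l 16207168)))) (a (l 16240704) (b (a (l 16253760) (c (l 16275736) (l 16295208))) (l 16229744)))) (c (a (b (l 16376544) (a (c (b (l 16328816) (l 16334520)) (l 16299408)) (l 16346536))) (l 16235480)) (a (b (l 16367896) (a (b (l 16292232) (l 16223872)) (l 16317936))) (l 16394760)))) (a (c (a (l 16135896) (l 16302776)) (l 16024600)) (b (a (c (a (l 16366304) (b (l 16306608) (l 16299528))) (a (l 16334168) (a (l 16230720) (l 16264320)))) (c (l 16355904) (l 16322696))) (a (c (l 16372712) (l 16287848)) (a (c (l 16238896) (a (l 16250848) (l 16242560))) (l 16184968))))))), by decide +kernel⟩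

def k3_pm_202_a : ∃ t, chk3 f_pm_202_a t 6 3 1 = true :=
  ⟨(b (a (c (a (l 15948672) (b (l 16237816) (l 16108512))) (l 15831312)) (a (c (l 16188704) (l 16214952)) (b (a (c (l 16287648) (l 16319776)) (c (b (l 16186872) (l 16273760)) (b (l 16210616) (l 16268224)))) (c (l 16371384) (l 16426368))))) (a (c (b (l 15885000) (l 15696744)) (l 15743744)) (c (a (b (l 16199080) (l 16064480)) (c (l 16172888) (l 16306056))) (c (l 15960120) (l 15925816))))), by decide +kernel⟩

def k4_pm_202_a : ∃ t, chk3 f_pm_202_a t 14 2 1 = true :=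
  ⟨(b (c (b (a (l 16079152) (l 16145048)) (c (b (a (l 16380944) (l 16386168)) (l 16453008)) (b (l 16195184) (a (l 16347320) (l 16395352))))) (a (b (c (b (l 16123936) (c (l 16230192) (l 16202936))) (b (c (l 16082408) (b (l 16024480) (l 16107408))) (l 16112256))) (c (b (l 16275728) (l 16353648)) (l 16288952))) (b (c (b (a (l 16136856) (c (l 16161496) (b (l 16047648) (l 16157296)))) (l 16154968)) (b (c (a (l 16115920) (b (a (l 16097040) (l 16085800)) (a (l 16151840) (c (l 16164576) (l 16140384))))) (a (b (c (l 16078280) (c (l 16069544) (l 15957400))) (l 16074056)) (a (b (c (l 16075096) (l 16005352)) (c (l 16128616) (l 16114432))) (b (l 15891368) (l 16094808))))) (a (l 16188680) (c (c (l 16212680) (l 16161832)) (a (l 16194512) (b (l 16164528) (l 16223512))))))) (c (l 16282120) (a (l 16325072) (b (a (l 16296648) (c (l 16313832) (l 16297264))) (l 16392632))))))) (c (c (b (a (l 16466880) (l 16517296)) (l 16323856)) (a (l 16260560) (l 16336360))) (a (c (l 16308776) (l 16379792)) (l 16286616)))),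 by decide +kernel⟩

def k5_pm_202_a : ∃ t, chk3 f_pm_202_a t 15 4 2 = true :=
  ⟨(a (b (c (a (l 16272072) (b (c (l 16218552) (a (l 16225640) (l 16232104))) (l 16359968))) (a (b (c (l 16200144) (a (l 16186288) (l 16188008))) (l 16315448)) (b (c (a (l 16209512) (l 16210128)) (a (l 16165776) (l 16172144))) (c (a (l 16343136) (l 16348656)) (b (l 16228392) (a (l 16355960) (l 16317480))))))) (c (l 16324744) (b (c (l 16424456) (a (l 16373560) (l 16329896))) (l 16424592)))) (b (c (a (b (c (a (l 16255808) (l 16260256)) (a (l 16234632) (l 16226560))) (c (a (l 16386608) (l 16373544)) (a (l 16371000) (l 16354768)))) (b (a (l 16231536) (l 16230312)) (c (l 16273224) (l 16367288)))) (a (a (b (l 16170960) (c (l 16309648) (l 16227824))) (c (l 16140872) (l 15957848))) (b (l 16135456) (c (l 16319304) (l 16231320))))) (c (a (b (c (l 16513568) (b (l 16470560) (l 16517160))) (l 16564624)) (b (c (c (l 16519432) (l 16362800)) (b (l 16478624) (l 16385200))) (c (a (l 16580840) (l 16582440)) (l 16418064)))) (b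 (a (c (b (a (l 16423824) (l 16404632)) (l 16470592)) (a (l 16383624) (l 16396056))) (c (b (l 16421048) (l 16446848)) (l 16364272))) (a (c (l 16496264) (a (l 16460680) (b (l 16425712) (l 16485688)))) (c (l 16382344) (b (l 16417248) (l 16473640)))))))), by decide +kernel⟩

def k6_pm_202_a : ∃ t, chk3 f_pm_202_a t 30 4 3 = true :=
  ⟨(b (c (b (a (c (a (l 16146520) (l 16101568)) (a (b (l 16106688) (l 16161848)) (l 16058744))) (c (l 16114992) (l 16074024))) (a (c (a (l 16282152) (b (l 16271528) (l 16311472))) (b (a (l 16231232) (l 16225512)) (a (l 16260712) (l 16261016)))) (c (b (a (l 16246240) (l 16239056)) (a (l 16313360) (l 16301416))) (b (l 16178576) (l 16191200))))) (b (c (b (a (l 16029936) (l 15980728)) (a (c (l 16131384) (l 16085768)) (l 16046792))) (b (c (a (l 15980680) (l 15936104)) (a (l 15946640) (l 15905200))) (a (l 16030672) (l 15978152)))) (a (c (a (b (l 16141408) (l 16237792)) (l 16023184)) (a (l 16127608) (l 16124176))) (c (l 16114320) (l 16077376))))) (c (a (b (c (l 16338280)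 (b (l 16252672) (l 16348704))) (l 16416360)) (b (c (a (l 16288216) (b (l 16336272) (l 16371832))) (a (b (l 16299592) (l 16356976)) (l 16250456))) (c (b (l 16387152) (l 16463888)) (a (l 16417896) (l 16441104))))) (a (b (c (a (l 16318816) (l 16233840)) (a (l 16231832) (l 16236976))) (c (b (l 16398464) (l 16449088)) (a (l 16377128) (l 16313400)))) (b (c (l 16098936) (l 16217136)) (c (b (l 16245400) (a (l 16439048) (l 16453592))) (a (b (l 16352392) (l 16399688)) (l 16344224))))))), by decide +kernel⟩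

def k7_pm_202_a : ∃ t, chk3 f_pm_202_a t 31 4 3 = true :=
  ⟨(b (c (b (a (c (l 16095568) (l 16048328)) (c (l 16099560) (l 16038536))) (c (a (l 16147176) (l 16131928)) (a (b (l 16138656) (l 16178096)) (b (l 16135168) (l 16164904))))) (b (c (b (a (l 15966520) (l 15989984)) (a (l 16022920) (l 15994480))) (b (a (c (l 15927008) (l 15857608)) (c (l 15956104) (b (l 15923000) (l 15941144)))) (a (l 15960984) (l 15981864)))) (c (a (l 16097032) (l 16095720)) (a (l 16045616) (l 16051472))))) (c (a (b (c (b (l 16298144) (l 16289248)) (l 16265816)) (c (b (l 16345384) (l 16470520)) (a (l 16431808) (l 16398160)))) (b (c (l 16289800) (l 16238192)) (l 16276640))) (a (c (l 16144688) (l 16166488)) (c (l 16156096) (l 16184640))))), by decide +kernel⟩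

def k8_pm_202_a : ∃ t, chk3 f_pm_202_a t 15 5 1 = true :=
  ⟨(c (c (b (a (l 16554424) (c (l 16532024) (b (a (l 16572040) (l 16584272)) (l 16524776)))) (l 16388600)) (a (l 16328840) (b (a (b (c (l 16551776) (l 16549440)) (l 16512320)) (b (c (a (l 16573024) (l 16518680)) (l 16413968)) (c (l 16514584) (l 16487544)))) (a (l 16372992) (c (l 16366056) (b (l 16400984) (l 16301352))))))) (a (b (c (a (l 16547408) (b (c (l 16538440) (l 16545096)) (l 16496528))) (a (b (a (l 16498520) (b (l 16486704) (l 16532976))) (l 16515544)) (a (b (c (l 16532024) (l 16458760)) (l 16511752)) (b (c (l 16534184) (l 16408368)) (c (l 16501784) (l 16508448)))))) (l 16360928)) (b (c (a (c (b (l 16428488) (l 16494272)) (b (a (l 16557536) (l 16530296)) (a (l 16489528) (l 16497040)))) (b (c (l 16485208) (l 16506608)) (c (l 16378016) (l 16384872)))) (a (b (c (l 16323416) (l 16401496)) (c (a (l 16512584) (l 16529848)) (a (l 16505536) (l 16570968)))) (b (l 16312208) (l 16352472)))) (a (c (l 16357320) (b (a (c (l 16414272)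 (b (l 16460056) (l 16410024))) (c (l 16400960) (l 16433208))) (a (l 16337064) (c (l 16324712) (b (l 16368024) (l 16317880)))))) (c (b (c (l 16272088) (a (l 16403488) (l 16374888))) (c (l 16295608) (l 16252760))) (b (c (a (l 16436136) (l 16472352)) (l 16472328)) (c (a (l 16329408) (l 16340736)) (a (l 16317376) (l 16392888))))))))), by decide +kernel⟩

def k9_pm_202_a : ∃ t, chk3 f_pm_202_a t 7 3 1 = true :=
  ⟨(a (b (a (b (c (a (b (l 16276392) (l 16092824)) (l 16256888)) (a (b (l 16259392) (l 16210808)) (l 16243280))) (a (c (l 16066808) (l 16177024)) (c (b (l 16089320) (l 16031352)) (b (l 16150536) (l 16162712))))) (c (b (l 16250552) (a (l 16016232) (l 16086360))) (b (l 16237440) (l 16031008)))) (a (c (b (l 16147440) (l 16273576)) (b (l 16230512) (l 16401944))) (b (b (a (c (a (l 16082192) (l 16009920)) (l 16039176)) (c (l 15970664) (l 15975472))) (a (l 16035344) (c (a (l 15965656) (l 15905064)) (l 15951208)))) (c (a (l 16203768) (l 15969760)) (l 16031624))))) (b (c (a (l 16109392) (l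 16053416)) (c (l 16074336) (a (l 16151152) (b (a (l 16209408) (b (a (c (l 16233024) (b (l 16274096) (l 16223728))) (c (l 16234864) (l 16136936))) (c (l 16144400) (a (l 16158416) (l 16010416))))) (l 16034424))))) (b (c (l 15716480) (l 15889000)) (a (c (a (b (l 15810456) (l 15854144)) (b (l 15783176) (l 15719752))) (a (b (l 15838176) (l 15862640)) (l 15758600))) (c (l 15705896) (l 15710144)))))), by decide +kernel⟩

theorem s10_pm_202_a : ∃ t, chk3 f_pm_202_a t 15 4 3 = true := ex3_a k6_pm_202_a k7_pm_202_a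

theorem s11_pm_202_a : ∃ t, chk3 f_pm_202_a t 15 4 1 = true := ex3_c k5_pm_202_a s10_pm_202_a

theorem s12_pm_202_a : ∃ t, chk3 f_pm_202_a t 15 2 1 = true := ex3_b s11_pm_202_a k8_pm_202_a

theorem s13_pm_202_a : ∃ t, chk3 f_pm_202_a t 7 2 1 = true := ex3_a k4_pm_202_a s12_pm_202_a

theorem s14_pm_202_a : ∃ t, chk3 f_pm_202_a t 7 1 1 = true := ex3_b s13_pm_202_a k9_pm_202_a

theorem s15_pm_202_a : ∃ t, chk3 f_pm_202_a t 6 1 1 = true := ex3_b k2_pm_202_a k3_pm_202_a

theorem s16_pm_202_a : ∃ t, chk3 f_pm_202_a t 3 1 1 = true := ex3_a s15_pm_202_a s14_pm_202_a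

theorem s17_pm_202_a : ∃ t, chk3 f_pm_202_a t 2 1 1 = true := ex3_b k0_pm_202_a k1_pm_202_a

theorem s18_pm_202_a : ∃ t, chk3 f_pm_202_a t 1 1 1 = true := ex3_a s17_pm_202_a s16_pm_202_a

theorem c_pm_202_a : CertNX 0 420477299 0 67108864 1046898278 26843546 3 true true false .pp 2 0 2
    ndN1q2a ndN4q0 pcN2 Cut.none Ext.none :=
  certNX0 (fam := true) (s1 := true) (s2 := false) (a := 2) (b := 0) (c := 2) (cn := .pp) (n1 := ndN1q2a) (n2 := ndN4q0) (pc := pcN2) (cut := Cut.none) (xt := Ext.none) (P1 := 0) (W1 := 420477299) (P2 := 0) (W2 := 67108864) (P3 := 1046898278) (W3 := 26843546) (N0 := 3)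
    rfl s18_pm_202_a

noncomputable def f_pm_202_b : ℕ → ℕ → ℕ → ℕ → Bool := onCell 1073741824 536870912 0 67108864 1046898278 26843546
    (rowNX 3 2 true true false .pp 2 0 2 (qsf 1239849684 370763052 0 67108864 2) ndN1q2b ndN4q0 pcN2 Cut.none Ext.none)

def k0_pm_202_b : ∃ t, chk3 f_pm_202_b t 2 1 1 = true :=
  ⟨(a (l 1) (a (b (a (a (l 1) (a (l 1) (b (b (b (b (c (l 15958888) (l 15720672)) (l 1)) (l 1)) (l 1)) (l 1)))) (b (c (b (a (l 15579032) (l 15209936)) (b (a (l 319469170375) (l 15151992)) (c (l 15372912) (l 314636843335)))) (b (c (b (l 15332888) (a (l 15578600) (l 15174144))) (b (c (l 15135472) (a (l 15524864) (l 15065376))) (l 15100072))) (c (a (l 15686800) (l 15220328)) (l 15363480)))) (c (b (c (a (l 15762336) (l 15358176)) (l 291551433751)) (a (l 1) (l 15424880))) (a (l 15673472) (l 15350688))))) (a (l 1) (a (l 1) (b (c (l 15472208) (l 15548832)) (l 1))))) (b (a (b (c (b (l 14384368) (c (b (l 14710240) (l 14733760)) (b (l 14626048) (l 14628568)))) (b (c (b (l 14464248) (l 14516304))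 (c (l 14190032) (l 14369040))) (c (l 14563592) (l 14520040)))) (c (b (c (l 14583944) (l 14681272)) (l 14582160)) (l 14521360))) (b (c (b (l 14146992) (c (a (l 14297184) (l 14295992)) (l 14182344))) (b (c (l 14045896) (b (l 13951496) (l 13992752))) (c (l 14123576) (l 14069992)))) (c (c (b (l 14311008) (l 14376552)) (l 14310512)) (l 14245672)))) (a (c (b (a (l 15171880) (l 14767952)) (c (a (l 15320608) (l 14841704)) (l 15164280))) (b (l 14890504) (l 15079544))) (c (b (a (l 14545128) (l 14545704)) (c (a (b (l 14738848) (l 14852432)) (l 14799096)) (l 14745808))) (b (l 14449112) (l 14642496))))))), by decide +kernel⟩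

def k1_pm_202_b : ∃ t, chk3 f_pm_202_b t 3 1 1 = true :=
  ⟨(a (b (a (b (c (b (l 14146400) (c (l 14295992) (l 14202712))) (b (c (l 14045272) (l 13973568)) (l 14087688))) (c (a (l 14338264) (l 14340960)) (l 14245640))) (b (c (b (l 14146160) (l 14246168)) (c (l 13878624) (l 13872552))) (c (l 14335888) (l 14244504)))) (a (c (b (a (l 14551536) (l 14553200)) (a (c (l 14810480) (l 14752672)) (l 14782016))) (a (l 14548912) (l 14548936))) (c (b (l 14538792) (l 14761904)) (l 14537224)))) (b (c (b (a (l 14189640) (l 14189640)) (l 14337520)) (b (a (b (l 14007072) (l 14087688)) (l 13821432)) (l 14245048))) (c (a (l 14644168) (l 14644168)) (l 14540928)))), by decide +kernel⟩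

theorem s2_pm_202_b : ∃ t, chk3 f_pm_202_b t 1 1 1 = true := ex3_a k0_pm_202_b k1_pm_202_b

theorem c_pm_202_b : CertNX 1239849684 370763052 0 67108864 1046898278 26843546 3 true true false .pp 2 0 2
    ndN1q2b ndN4q0 pcN2 Cut.none Ext.none :=
  certNX2 (fam := true) (s1 := true) (s2 := false) (a := 2) (b := 0) (c := 2) (cn := .pp) (n1 := ndN1q2b) (n2 := ndN4q0) (pc := pcN2) (cut := Cut.none) (xt := Ext.none) (P1 := 1239849684) (W1 := 370763052) (P2 := 0) (W2 := 67108864) (P3 := 1046898278) (W3 := 26843546) (N0 := 3)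
    rfl (fun _ => rfl) s2_pm_202_b

noncomputable def f_pm_203_a : ℕ → ℕ → ℕ → ℕ → Bool := onCell 0 420477299 0 67108864 1046898278 26843546
    (rowNX 3 0 true true false .up 2 0 3 (qsf 0 420477299 0 67108864 3) ndN1q2a ndN4q0 pcN3 Cut.none Ext.none)

def k0_pm_203_a : ∃ t, chk3 f_pm_203_a t 1 1 1 = true :=
  ⟨(l 1), by decide +kernel⟩

theorem c_pm_203_a : CertNX 0 420477299 0 67108864 1046898278 26843546 3 true true false .up 2 0 3
    ndN1q2a ndN4q0 pcN3 Cut.none Ext.none :=
  certNX0 (fam := true) (s1 := true) (s2 := false) (a := 2) (b := 0) (c := 3) (cn := .up) (n1 := ndN1q2a) (n2 := ndN4q0) (pc := pcN3) (cut := Cut.none) (xt := Ext.none) (P1 := 0) (W1 := 420477299) (P2 := 0) (W2 := 67108864) (P3 := 1046898278) (W3 := 26843546) (N0 := 3)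
    rfl k0_pm_203_a

noncomputable def f_pm_203_b : ℕ → ℕ → ℕ → ℕ → Bool := onCell 1239849684 370763052 0 67108864 1046898278 26843546
    (rowNX 3 0 true true false .up 2 0 3 (qsf 1239849684 370763052 0 67108864 3) ndN1q2b ndN4q0 pcN3 Cut.none Ext.none)

def k0_pm_203_b : ∃ t, chk3 f_pm_203_b t 1 1 1 = true :=
  ⟨(a (l 1) (a (l 1) (b (a (l 1) (b (c (l 14189640) (l 14052120)) (l 14270512))) (c (l 14644168) (l 14540928))))), by decide +kernel⟩

theorem c_pm_203_b : CertNX 1239849684 370763052 0 67108864 1046898278 26843546 3 true true false .up 2 0 3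
    ndN1q2b ndN4q0 pcN3 Cut.none Ext.none :=
  certNX0 (fam := true) (s1 := true) (s2 := false) (a := 2) (b := 0) (c := 3) (cn := .up) (n1 := ndN1q2b) (n2 := ndN4q0) (pc := pcN3) (cut := Cut.none) (xt := Ext.none) (P1 := 1239849684) (W1 := 370763052) (P2 := 0) (W2 := 67108864) (P3 := 1046898278) (W3 := 26843546) (N0 := 3)
    rfl k0_pm_203_b

end Pool.Agent.Strip051.G.IE1.Tab.C.NA14

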