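import Pool.Agent.Strip051.G.IE1.Tab

/-! # Certificates N28 (generated) -/

set_option linter.all false
set_option maxRecDepth 100000

namespace Pool.Agent.Strip051.G.IE1.Tab.C.NA14

open Pool.Agent.Strip051.PB Pool.Agent.Strip051.PB.T
open Pool.Agent.Strip051.G.IE1.Tab

noncomputable def f_pm_303 : ℕ → ℕ → ℕ → ℕ → Bool := onCell 1610612736 536870912 0 67108864 1046898278 26843546
    (rowNX 3 2 true true false .npn 3 0 3 (qsf 1610612736 469762048 0 67108864 3) ndN1q3 ndN4q0 pcN3 Cut.none Ext.none)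

def k0_pm_303 : ∃ t, chk3 f_pm_303 t 1 1 1 = true :=
  ⟨(a (a (b (c (b (a (l 14189640) (l 14189640)) (l 14337520)) (b (a (l 14031144) (l 13800456)) (l 14245048))) (c (a (l 14644168) (l 14644168)) (l 179343463143))) (a (b (c (b (l 14189640) (l 14337520)) (c (l 14033248) (l 14114080))) (a (l 14420664) (l 4))) (l 4))) (l 4)), by decide +kernel⟩

theorem c_pm_303 : CertNX 1610612736 469762048 0 67108864 1046898278 26843546 3 true true false .npn 3 0 3
    ndN1q3 ndN4q0 pcN3 Cut.none Ext.none :=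
  certNX2 (fam := true) (s1 := true) (s2 := false) (a := 3) (b := 0) (c := 3) (cn := .npn) (n1 := ndN1q3) (n2 := ndN4q0) (pc := pcN3) (cut := Cut.none) (xt := Ext.none) (P1 := 1610612736) (W1 := 469762048) (P2 := 0) (W2 := 67108864) (P3 := 1046898278) (W3 := 26843546) (N0 := 3)
    rfl (fun _ => rfl) k0_pm_303

noncomputable def f_mm_001 : ℕ → ℕ → ℕ → ℕ → Bool := onCell 67108864 469762048 0 67108864 1046898278 26843546
    (rowNX 3 0 true false false .up 0 0 1 (qsf 67108864 469762048 0 67108864 1) ndN1q0 ndN4q0 pcN1 Cut.none Ext.none)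

def k0_mm_001 : ∃ t, chk3 f_mm_001 t 1 1 1 = true :=
  ⟨(l 4), by decide +kernel⟩

theorem c_mm_001 : CertNX 67108864 469762048 0 67108864 1046898278 26843546 3 true false false .up 0 0 1
    ndN1q0 ndN4q0 pcN1 Cut.none Ext.none :=
  certNX0 (fam := true) (s1 := false) (s2 := false) (a := 0) (b := 0) (c := 1) (cn := .up) (n1 := ndN1q0) (n2 := ndN4q0) (pc := pcN1) (cut := Cut.none) (xt := Ext.none) (P1 := 67108864) (W1 := 469762048) (P2 := 0) (W2 := 67108864) (P3 := 1046898278) (W3 := 26843546) (N0 := 3)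
    rfl k0_mm_001

noncomputable def f_mm_101 : ℕ → ℕ → ℕ → ℕ → Bool := onCell 536870912 536870912 0 67108864 1046898278 26843546
    (rowNX 3 0 true false false .npn 1 0 1 (qsf 536870912 536870912 0 67108864 1) ndN1q1 ndN4q0 pcN1 Cut.none Ext.none)

def k0_mm_101 : ∃ t, chk3 f_mm_101 t 1 1 1 = true :=
  ⟨(l 4), by decide +kernel⟩

theorem c_mm_101 : CertNX 536870912 536870912 0 67108864 1046898278 26843546 3 true false false .npn 1 0 1
    ndN1q1 ndN4q0 pcN1 Cut.none Ext.none :=
  certNX0 (fam := true) (s1 := false) (s2 := false) (a := 1) (b := 0) (c := 1) (cn := .npn) (n1 := ndN1q1) (n2 := ndN4q0) (pc := pcN1) (cut := Cut.none) (xt := Ext.none) (P1 := 536870912) (W1 := 536870912) (P2 := 0) (W2 := 67108864) (P3 := 1046898278) (W3 := 26843546) (N0 := 3)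
    rfl k0_mm_101

noncomputable def f_mm_102 : ℕ → ℕ → ℕ → ℕ → Bool := onCell 536870912 536870912 0 67108864 1046898278 26843546
    (rowNX 3 0 true false false .npp 1 0 2 (qsf 536870912 536870912 0 67108864 2) ndN1q1 ndN4q0 pcN2 Cut.none Ext.none)

def k0_mm_102 : ∃ t, chk3 f_mm_102 t 1 1 1 = true :=
  ⟨(l 4), by decide +kernel⟩

theorem c_mm_102 : CertNX 536870912 536870912 0 67108864 1046898278 26843546 3 true false false .npp 1 0 2
    ndN1q1 ndN4q0 pcN2 Cut.none Ext.none :=
  certNX0 (fam := true) (s1 := false) (s2 := false) (a := 1) (b := 0) (c := 2) (cn := .npp) (n1 := ndN1q1) (n2 := ndN4q0) (pc := pcN2) (cut := Cut.none) (xt := Ext.none) (P1 := 536870912) (W1 := 536870912) (P2 := 0) (W2 := 67108864) (P3 := 1046898278) (W3 := 26843546) (N0 := 3)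
    rfl k0_mm_102

noncomputable def f_mm_202_a : ℕ → ℕ → ℕ → ℕ → Bool := onCell 0 420477299 0 67108864 1046898278 26843546
    (rowNX 3 0 true false false .pp 2 0 2 (qsf 0 420477299 0 67108864 2) ndN1q2a ndN4q0 pcN2 Cut.none Ext.none)

def k0_mm_202_a : ∃ t, chk3 f_mm_202_a t 2 1 1 = true :=
  ⟨(b (a (b (c (b (a (l 15882872) (l 15982488)) (b (a (l 15828704) (l 15932056)) (c (l 15860016) (l 15745608)))) (b (c (a (l 15696560) (l 15758200)) (b (a (l 15682728) (l 15745776)) (l 15740416))) (c (a (l 15700560) (l 15808704)) (l 15729720)))) (c (b (a (l 15665296) (l 15708320)) (l 15655792)) (a (l 15569400) (l 15686040)))) (b (b (a (c (l 16105224) (c (b (l 16124448) (l 16015136)) (b (c (l 16099672) (l 15997400)) (l 16028576)))) (c (a (l 16220432) (b (l 16398288) (l 16321096))) (b (a (c (l 16286000) (b (c (l 16276320) (l 16239856)) (l 16255064))) (c (l 16373440) (b (l 16343632) (c (l 16358392) (l 16336776))))) (c (a (l 16245688) (b (l 16383160) (l 16363728))) (a (l 16200920) (a (l 16300168)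 (l 16356656))))))) (c (a (c (l 15993256) (l 15886648)) (c (l 16174208) (l 16011008))) (a (c (l 15982464) (l 15957848)) (c (l 16155248) (l 16200160))))) (c (a (b (l 15765384) (l 15865080)) (b (c (l 16121288) (l 16133776)) (l 16073688))) (a (l 15773520) (a (l 16017776) (l 16106560)))))) (a (c (a (b (l 15568928) (l 15556488)) (b (l 15696504) (l 15680800))) (b (l 15504904) (l 15499008))) (b (a (c (l 15861672) (l 15785776)) (c (l 16015976) (l 15996104))) (c (a (l 15753096) (c (l 16101760) (l 16062096))) (a (l 15759728) (l 15974464)))))), by decide +kernel⟩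

def k1_mm_202_a : ∃ t, chk3 f_mm_202_a t 6 1 1 = true :=
  ⟨(b (b (a (b (c (a (l 16350144) (l 16287976)) (b (c (l 16354304) (c (l 16331040) (a (l 16403728) (l 16274904)))) (c (a (l 16376584) (l 16320352)) (a (l 16406872) (l 16354656))))) (c (a (b (a (l 16287792) (l 16333360)) (c (l 16385272) (l 16417224))) (b (l 16284488) (c (l 16293208) (l 16347032)))) (a (c (b (l 16220824) (l 16398000)) (b (l 16353664) (l 16394944))) (c (b (l 16343328) (l 16359176)) (l 16273232))))) (c (b (a (l 16182088) (l 15989544)) (a (b (l 16137456) (l 16202688)) (c (l 16039504) (l 15960648)))) (b (c (b (l 16070080) (a (l 16199544) (l 16074056))) (b (a (c (l 16267560) (b (l 16243600) (l 16285376))) (c (l 16105816) (c (l 16098944) (l 16108552)))) (a (l 16259096) (l 16138120)))) (c (a (l 16247992) (l 16165176)) (l 16150048))))) (b (a (c (a (l 16295728) (b (a (l 16398032) (l 16262424)) (l 16429176))) (a (l 16337288) (b (a (l 16406400) (l 16353472)) (l 16421632)))) (c (a (b (l 16278816) (a (l 16257704) (l 16290896)))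 (l 16036240)) (a (a (b (l 16311512) (l 16329816)) (l 16275136)) (l 16196128)))) (a (c (l 16348104) (l 16261584)) (a (c (b (a (l 16382864) (l 16321936)) (l 16384528)) (b (a (l 16367536) (l 16304264)) (l 16379056))) (b (c (l 16234912) (l 16220536)) (a (c (l 16286600) (l 16234328)) (l 16134944))))))) (b (a (c (a (l 16228456) (l 16365864)) (a (l 16178872) (l 16325288))) (a (c (l 16448824) (l 16470504)) (b (c (a (l 16332944) (b (l 16247008) (l 16277312))) (a (l 16339096) (b (l 16245456) (l 16287584)))) (c (l 16363848) (l 16389744))))) (a (c (b (l 16293112) (c (l 16327432) (l 16287952))) (l 16146056)) (c (b (a (l 16476328) (l 16431512)) (a (l 16465232) (l 16494464))) (a (l 16401400) (l 16357072)))))), by decide +kernel⟩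

def k2_mm_202_a : ∃ t, chk3 f_mm_202_a t 14 2 1 = true :=
  ⟨(b (c (b (a (a (l 15907704) (l 16010528)) (c (c (a (l 16022104) (l 16029856)) (l 16052848)) (l 16078000))) (a (b (c (l 15944496) (l 15997928)) (c (l 15971640) (l 16039456))) (b (c (l 15959352) (l 16018888)) (c (l 15954576) (l 16029192))))) (b (c (a (b (l 16080360) (b (l 16045880) (l 15956088))) (b (l 16144512) (c (l 16082104) (l 16114688)))) (b (a (c (b (l 16119696) (l 16096832)) (b (c (l 16135048) (l 16062200)) (l 16122464))) (c (b (l 16189192) (l 16164640)) (b (c (l 16206664) (l 16177208)) (l 16193240)))) (a (c (l 16085608) (l 16099552)) (c (l 16142064) (l 16158784))))) (c (a (b (l 15991424) (l 16063184)) (b (l 16081624) (l 16058784))) (a (l 16014552) (l 16074128))))) (c (b (a (c (l 16059352) (l 16079872)) (c (l 15888704) (l 16040344))) (a (l 16127312) (l 15974488))) (a (b (l 15979712) (l 16120728)) (b (c (l 16039072) (l 16065200)) (l 16076904))))), by decide +kernel⟩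

def k3_mm_202_a : ∃ t, chk3 f_mm_202_a t 15 4 2 = true :=
  ⟨(c (a (b (c (a (c (b (l 16203656) (l 16096496)) (l 16075696)) (b (a (c (l 16270936) (l 16219792)) (l 16259176)) (c (l 16173400) (l 16145240)))) (a (l 16111632) (b (c (l 16079608) (l 16192880)) (l 16124512)))) (c (b (a (l 16009352) (l 15976632)) (a (l 15980488) (l 16037144))) (l 16046112))) (b (c (a (b (l 16317424) (a (l 16131848) (l 16272384))) (l 16239520)) (a (b (c (l 16197688) (l 16259864)) (c (l 16136912) (l 16176304))) (b (c (l 16381496) (a (l 16318544) (l 16387360))) (c (l 16260248) (l 16262056))))) (b (a (c (c (l 16129424) (a (l 16114944) (l 16157520))) (b (l 16107504) (l 16106192))) (c (c (l 16266944) (l 16147280)) (c (b (l 16236856) (l 16188504)) (l 16078120)))) (c (a (c (l 16062112) (l 16103200)) (a (c (l 16235760) (l 16184368)) (l 4))) (a (l 16114152) (a (l 16163112) (l 16169624))))))) (b (a (b (l 16110168) (l 15982400)) (a (a (l 16093664) (l 16118088)) (c (c (l 16096488) (l 16276584)) (l 16294216)))) (a (b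 (l 16101584) (l 16104296)) (b (a (l 16173456) (l 16226200)) (a (l 16176296) (c (l 16216880) (l 16252200))))))), by decide +kernel⟩

def k4_mm_202_a : ∃ t, chk3 f_mm_202_a t 15 4 3 = true :=
  ⟨(b (a (c (b (a (l 16211256) (l 16174136)) (b (a (l 16170000) (l 16198200)) (l 16158584))) (b (c (a (b (l 16259760) (l 16234648)) (b (l 16307464) (b (l 16287664) (l 16280056)))) (b (a (c (l 16279056) (l 16250840)) (b (l 16276256) (c (l 16321576) (l 16338312)))) (a (l 16265776) (c (l 16310768) (l 16321904))))) (c (b (l 16206528) (l 16229872)) (l 16215144)))) (c (b (l 16290352) (b (l 16190312) (c (l 16264328) (l 16270568)))) (b (b (c (l 16382488) (c (l 16340624) (c (l 16351624) (l 16359064)))) (c (l 16277384) (l 16332432))) (c (a (l 16294352) (l 16370120)) (a (l 16337120) (l 16392640)))))) (a (c (b (l 16171112) (l 16139872)) (l 16184400)) (c (b (a (c (l 16239248) (l 16263768)) (l 16303520)) (a (l 16216752) (l 16273456))) (a (b (l 16244304) (l 16244488)) (b (l 16343472) (l 16303960)))))), by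 decide +kernel⟩

def k5_mm_202_a : ∃ t, chk3 f_mm_202_a t 15 5 1 = true :=
  ⟨(c (a (b (c (b (l 16046776) (l 16063000)) (b (l 16091248) (l 16062736))) (c (l 15980120) (l 16054864))) (c (b (b (a (c (l 16136336) (l 16142912)) (c (l 4) (l 16217592))) (l 4)) (l 4)) (b (b (a (l 16166232) (l 16168024)) (l 16180576)) (l 16152008)))) (a (b (c (l 16078232) (l 16110800)) (c (a (l 16035104) (l 16049824)) (l 16084008))) (b (c (a (l 16153032) (l 16131864)) (l 16156976)) (c (l 16139464) (l 16169344))))), by decide +kernel⟩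

def k6_mm_202_a : ∃ t, chk3 f_mm_202_a t 7 3 1 = true :=
  ⟨(a (b (a (b (c (a (b (l 16177432) (l 16122120)) (l 16154840)) (a (l 16089672) (l 16158016))) (c (a (l 16173848) (b (l 16159328) (l 4))) (a (l 16275496) (b (l 16214480) (l 16255720))))) (c (b (l 16131712) (a (l 28687519319) (l 4))) (b (l 16134752) (a (l 16199064) (l 16206840))))) (a (c (b (l 4) (l 4)) (l 16234072)) (b (c (l 4) (a (l 16136576) (l 4))) (l 4)))) (b (b (c (a (l 16025992) (l 4)) (a (a (l 16111248) (l 16100040)) (a (l 16114208) (l 4)))) (c (l 4) (a (l 16192792) (l 4)))) (l 4))), by decide +kernel⟩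

theorem s7_mm_202_a : ∃ t, chk3 f_mm_202_a t 15 4 1 = true := ex3_c k3_mm_202_a k4_mm_202_a

theorem s8_mm_202_a : ∃ t, chk3 f_mm_202_a t 15 2 1 = true := ex3_b s7_mm_202_a k5_mm_202_a

theorem s9_mm_202_a : ∃ t, chk3 f_mm_202_a t 7 2 1 = true := ex3_a k2_mm_202_a s8_mm_202_a

theorem s10_mm_202_a : ∃ t, chk3 f_mm_202_a t 7 1 1 = true := ex3_b s9_mm_202_a k6_mm_202_a

theorem s11_mm_202_a : ∃ t, chk3 f_mm_202_a t 3 1 1 = true := ex3_a k1_mm_202_a s10_mm_202_a

theorem s12_mm_202_a : ∃ t, chk3 f_mm_202_a t 1 1 1 = true := ex3_a k0_mm_202_a s11_mm_202_a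

theorem c_mm_202_a : CertNX 0 420477299 0 67108864 1046898278 26843546 3 true false false .pp 2 0 2
    ndN1q2a ndN4q0 pcN2 Cut.none Ext.none :=
  certNX0 (fam := true) (s1 := false) (s2 := false) (a := 2) (b := 0) (c := 2) (cn := .pp) (n1 := ndN1q2a) (n2 := ndN4q0) (pc := pcN2) (cut := Cut.none) (xt := Ext.none) (P1 := 0) (W1 := 420477299) (P2 := 0) (W2 := 67108864) (P3 := 1046898278) (W3 := 26843546) (N0 := 3)
    rfl s12_mm_202_a

noncomputable def f_mm_202_b : ℕ → ℕ → ℕ → ℕ → Bool := onCell 1073741824 536870912 0 67108864 1046898278 26843546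
    (rowNX 3 2 true false false .pp 2 0 2 (qsf 1239849684 370763052 0 67108864 2) ndN1q2b ndN4q0 pcN2 Cut.none Ext.none)

def k0_mm_202_b : ∃ t, chk3 f_mm_202_b t 2 1 1 = true :=
  ⟨(a (l 1) (a (b (a (a (l 1) (a (l 1) (b (b (b (b (c (l 15961464) (l 15828168)) (l 1)) (l 1)) (l 1)) (l 1)))) (b (c (b (a (l 15710624) (l 15332472)) (c (a (l 15734008) (l 15494240)) (b (l 15459416) (l 15490296)))) (b (c (b (l 15413800) (a (l 15675168) (l 15278928))) (b (c (l 15289472) (a (l 15556328) (l 15139496))) (l 15238520))) (c (l 227126894279) (l 15473440)))) (c (b (c (l 259876421591) (l 15407112)) (l 286720124215)) (a (l 15775984) (l 15492480))))) (a (l 1) (a (l 1) (a (l 1) (b (l 347923100279) (l 1)))))) (b (a (b (c (b (l 14785200) (c (l 14861736) (b (l 14891576) (l 14908184)))) (b (c (b (l 14679896) (l 14746936)) (b (c (l 14619112) (l 14576328)) (l 14652688))) (c (l 14816240) (l 14751808)))) (c (b (c (l 15049128) (l 14981592)) (l 15127920)) (l 14848880))) (b (c (b (l 14465640) (c (l 14653528)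 (l 14542024))) (b (c (l 14334600) (b (l 14210896) (l 14268280))) (c (l 14443040) (l 14369208)))) (c (b (l 14665544) (l 14772312)) (l 14600192)))) (a (c (b (l 15110936) (c (l 289404186103) (l 15581080))) (b (l 15231344) (l 15473160))) (c (b (l 14988752) (c (l 15288552) (l 15227416))) (l 14749792)))))), by decide +kernel⟩

def k1_mm_202_b : ∃ t, chk3 f_mm_202_b t 3 1 1 = true :=
  ⟨(a (b (a (b (c (b (l 14322872) (c (l 14490192) (l 14389120))) (b (c (l 14208816) (b (l 14101328) (l 14150240))) (c (l 14301080) (l 14238704)))) (c (a (l 14612712) (l 14479064)) (l 14440200))) (c (b (b (l 14153272) (a (l 14260680) (l 14246648))) (a (l 14352856) (l 14337520))) (b (b (a (l 13830456) (l 14007072)) (l 14094568)) (l 14252616)))) (a (c (b (l 14779960) (a (l 15102984) (l 14933528))) (a (l 14849120) (l 14698888))) (c (b (l 14552736) (l 14559560)) (l 14549784)))) (b (c (b (a (l 14189640) (l 14189640)) (a (l 14337520) (l 14337520))) (b (a (c (l 14088448) (l 14019360)) (l 13884344)) (l 14245048)))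 (c (a (l 14644168) (l 14644168)) (a (l 14540928) (l 14540928))))), by decide +kernel⟩

theorem s2_mm_202_b : ∃ t, chk3 f_mm_202_b t 1 1 1 = true := ex3_a k0_mm_202_b k1_mm_202_b

theorem c_mm_202_b : CertNX 1239849684 370763052 0 67108864 1046898278 26843546 3 true false false .pp 2 0 2
    ndN1q2b ndN4q0 pcN2 Cut.none Ext.none :=
  certNX2 (fam := true) (s1 := false) (s2 := false) (a := 2) (b := 0) (c := 2) (cn := .pp) (n1 := ndN1q2b) (n2 := ndN4q0) (pc := pcN2) (cut := Cut.none) (xt := Ext.none) (P1 := 1239849684) (W1 := 370763052) (P2 := 0) (W2 := 67108864) (P3 := 1046898278) (W3 := 26843546) (N0 := 3)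
    rfl (fun _ => rfl) s2_mm_202_b

noncomputable def f_mm_203_a : ℕ → ℕ → ℕ → ℕ → Bool := onCell 0 420477299 0 67108864 1046898278 26843546
    (rowNX 3 0 true false false .up 2 0 3 (qsf 0 420477299 0 67108864 3) ndN1q2a ndN4q0 pcN3 Cut.none Ext.none)

def k0_mm_203_a : ∃ t, chk3 f_mm_203_a t 1 1 1 = true :=
  ⟨(l 1), by decide +kernel⟩

theorem c_mm_203_a : CertNX 0 420477299 0 67108864 1046898278 26843546 3 true false false .up 2 0 3
    ndN1q2a ndN4q0 pcN3 Cut.none Ext.none :=
  certNX0 (fam := true) (s1 := false) (s2 := false) (a := 2) (b := 0) (c := 3) (cn := .up) (n1 := ndN1q2a) (n2 := ndN4q0) (pc := pcN3) (cut := Cut.none) (xt := Ext.none) (P1 := 0) (W1 := 420477299) (P2 := 0) (W2 := 67108864) (P3 := 1046898278) (W3 := 26843546) (N0 := 3)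
    rfl k0_mm_203_a

noncomputable def f_mm_203_b : ℕ → ℕ → ℕ → ℕ → Bool := onCell 1239849684 370763052 0 67108864 1046898278 26843546
    (rowNX 3 0 true false false .up 2 0 3 (qsf 1239849684 370763052 0 67108864 3) ndN1q2b ndN4q0 pcN3 Cut.none Ext.none)

def k0_mm_203_b : ∃ t, chk3 f_mm_203_b t 1 1 1 = true :=
  ⟨(a (l 1) (a (l 1) (b (c (b (l 389796158087) (l 14337520)) (b (c (l 14088448) (l 14019360)) (l 14245048))) (c (a (l 14644168) (l 14644168)) (l 14457040))))), by decide +kernel⟩

theorem c_mm_203_b : CertNX 1239849684 370763052 0 67108864 1046898278 26843546 3 true false false .up 2 0 3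
    ndN1q2b ndN4q0 pcN3 Cut.none Ext.none :=
  certNX0 (fam := true) (s1 := false) (s2 := false) (a := 2) (b := 0) (c := 3) (cn := .up) (n1 := ndN1q2b) (n2 := ndN4q0) (pc := pcN3) (cut := Cut.none) (xt := Ext.none) (P1 := 1239849684) (W1 := 370763052) (P2 := 0) (W2 := 67108864) (P3 := 1046898278) (W3 := 26843546) (N0 := 3)
    rfl k0_mm_203_b

noncomputable def f_mm_303 : ℕ → ℕ → ℕ → ℕ → Bool := onCell 1610612736 469762048 0 67108864 1046898278 26843546
    (rowNX 3 0 true false false .npn 3 0 3 (qsf 1610612736 469762048 0 67108864 3) ndN1q3 ndN4q0 pcN3 Cut.none Ext.none)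

def k0_mm_303 : ∃ t, chk3 f_mm_303 t 1 1 1 = true :=
  ⟨(a (a (b (c (a (b (l 14189640) (l 14337520)) (l 4)) (a (c (l 14033248) (l 14114080)) (b (b (l 14007072) (l 4)) (l 4)))) (l 4)) (l 4)) (l 4)), by decide +kernel⟩

theorem c_mm_303 : CertNX 1610612736 469762048 0 67108864 1046898278 26843546 3 true false false .npn 3 0 3
    ndN1q3 ndN4q0 pcN3 Cut.none Ext.none :=
  certNX0 (fam := true) (s1 := false) (s2 := false) (a := 3) (b := 0) (c := 3) (cn := .npn) (n1 := ndN1q3) (n2 := ndN4q0) (pc := pcN3) (cut := Cut.none) (xt := Ext.none) (P1 := 1610612736) (W1 := 469762048) (P2 := 0) (W2 := 67108864) (P3 := 1046898278) (W3 := 26843546) (N0 := 3)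
    rfl k0_mm_303

end Pool.Agent.Strip051.G.IE1.Tab.C.NA14

namespace Pool.Agent.Strip051.G.IE1.Tab.C.NA15

open Pool.Agent.Strip051.PB Pool.Agent.Strip051.PB.T
open Pool.Agent.Strip051.G.IE1.Tab

noncomputable def f_pp_001 : ℕ → ℕ → ℕ → ℕ → Bool := onCell 67108864 469762048 0 536870912 1046898278 26843546
    (rowNX 3 0 true true true .up 0 0 1 (qsf 67108864 469762048 0 536870912 1) ndN1q0 ndN5q0 pcN1 Cut.none Ext.none)

def k0_pp_001 : ∃ t, chk3 f_pp_001 t 1 1 1 = true :=
  ⟨(l 4), by decide +kernel⟩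

theorem c_pp_001 : CertNX 67108864 469762048 0 536870912 1046898278 26843546 3 true true true .up 0 0 1
    ndN1q0 ndN5q0 pcN1 Cut.none Ext.none :=
  certNX0 (fam := true) (s1 := true) (s2 := true) (a := 0) (b := 0) (c := 1) (cn := .up) (n1 := ndN1q0) (n2 := ndN5q0) (pc := pcN1) (cut := Cut.none) (xt := Ext.none) (P1 := 67108864) (W1 := 469762048) (P2 := 0) (W2 := 536870912) (P3 := 1046898278) (W3 := 26843546) (N0 := 3)
    rfl k0_pp_001

noncomputable def f_pp_011 : ℕ → ℕ → ℕ → ℕ → Bool := onCell 67108864 469762048 536870912 469762048 1046898278 26843546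
    (rowNX 3 0 true true true .pnn 0 1 1 (qsf 67108864 469762048 536870912 469762048 1) ndN1q0 ndN5q1 pcN1 Cut.none Ext.none)

def k0_pp_011 : ∃ t, chk3 f_pp_011 t 1 1 1 = true :=
  ⟨(l 4), by decide +kernel⟩

theorem c_pp_011 : CertNX 67108864 469762048 536870912 469762048 1046898278 26843546 3 true true true .pnn 0 1 1
    ndN1q0 ndN5q1 pcN1 Cut.none Ext.none :=
  certNX0 (fam := true) (s1 := true) (s2 := true) (a := 0) (b := 1) (c := 1) (cn := .pnn) (n1 := ndN1q0) (n2 := ndN5q1) (pc := pcN1) (cut := Cut.none) (xt := Ext.none) (P1 := 67108864) (W1 := 469762048) (P2 := 536870912) (W2 := 469762048) (P3 := 1046898278) (W3 := 26843546) (N0 := 3)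
    rfl k0_pp_011

noncomputable def f_pp_012 : ℕ → ℕ → ℕ → ℕ → Bool := onCell 67108864 469762048 536870912 469762048 1046898278 26843546
    (rowNX 3 0 true true true .pnp 0 1 2 (qsf 67108864 469762048 536870912 469762048 2) ndN1q0 ndN5q1 pcN2 Cut.none Ext.none)

def k0_pp_012 : ∃ t, chk3 f_pp_012 t 1 1 1 = true :=
  ⟨(l 4), by decide +kernel⟩

theorem c_pp_012 : CertNX 67108864 469762048 536870912 469762048 1046898278 26843546 3 true true true .pnp 0 1 2
    ndN1q0 ndN5q1 pcN2 Cut.none Ext.none :=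
  certNX0 (fam := true) (s1 := true) (s2 := true) (a := 0) (b := 1) (c := 2) (cn := .pnp) (n1 := ndN1q0) (n2 := ndN5q1) (pc := pcN2) (cut := Cut.none) (xt := Ext.none) (P1 := 67108864) (W1 := 469762048) (P2 := 536870912) (W2 := 469762048) (P3 := 1046898278) (W3 := 26843546) (N0 := 3)
    rfl k0_pp_012

noncomputable def f_pp_022 : ℕ → ℕ → ℕ → ℕ → Bool := onCell 67108864 469762048 1073741824 536870912 1046898278 26843546
    (rowNX 3 0 true true true .pp 0 2 2 (qsf 67108864 469762048 1073741824 536870912 2) ndN1q0 ndN5q2 pcN2 Cut.none Ext.none)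

def k0_pp_022 : ∃ t, chk3 f_pp_022 t 1 1 1 = true :=
  ⟨(l 4), by decide +kernel⟩

theorem c_pp_022 : CertNX 67108864 469762048 1073741824 536870912 1046898278 26843546 3 true true true .pp 0 2 2
    ndN1q0 ndN5q2 pcN2 Cut.none Ext.none :=
  certNX0 (fam := true) (s1 := true) (s2 := true) (a := 0) (b := 2) (c := 2) (cn := .pp) (n1 := ndN1q0) (n2 := ndN5q2) (pc := pcN2) (cut := Cut.none) (xt := Ext.none) (P1 := 67108864) (W1 := 469762048) (P2 := 1073741824) (W2 := 536870912) (P3 := 1046898278) (W3 := 26843546) (N0 := 3)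
    rfl k0_pp_022

noncomputable def f_pp_023 : ℕ → ℕ → ℕ → ℕ → Bool := onCell 67108864 469762048 1073741824 536870912 1046898278 26843546
    (rowNX 3 0 true true true .up 0 2 3 (qsf 67108864 469762048 1073741824 536870912 3) ndN1q0 ndN5q2 pcN3 Cut.none Ext.none)

def k0_pp_023 : ∃ t, chk3 f_pp_023 t 1 1 1 = true :=
  ⟨(l 4), by decide +kernel⟩

theorem c_pp_023 : CertNX 67108864 469762048 1073741824 536870912 1046898278 26843546 3 true true true .up 0 2 3
    ndN1q0 ndN5q2 pcN3 Cut.none Ext.none :=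
  certNX0 (fam := true) (s1 := true) (s2 := true) (a := 0) (b := 2) (c := 3) (cn := .up) (n1 := ndN1q0) (n2 := ndN5q2) (pc := pcN3) (cut := Cut.none) (xt := Ext.none) (P1 := 67108864) (W1 := 469762048) (P2 := 1073741824) (W2 := 536870912) (P3 := 1046898278) (W3 := 26843546) (N0 := 3)
    rfl k0_pp_023

noncomputable def f_pp_033 : ℕ → ℕ → ℕ → ℕ → Bool := onCell 67108864 469762048 0 1230186008 1046898278 26843546
    (rowNX 3 0 true true true .pnn 0 3 3 (qsf 67108864 469762048 0 1230186008 3) ndN1q0 ndN5q3 pcN3 Cut.none Ext.none)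

def k0_pp_033 : ∃ t, chk3 f_pp_033 t 1 1 1 = true :=
  ⟨(b (l 4) (l 4)), by decide +kernel⟩

theorem c_pp_033 : CertNX 67108864 469762048 0 1230186008 1046898278 26843546 3 true true true .pnn 0 3 3
    ndN1q0 ndN5q3 pcN3 Cut.none Ext.none :=
  certNX0 (fam := true) (s1 := true) (s2 := true) (a := 0) (b := 3) (c := 3) (cn := .pnn) (n1 := ndN1q0) (n2 := ndN5q3) (pc := pcN3) (cut := Cut.none) (xt := Ext.none) (P1 := 67108864) (W1 := 469762048) (P2 := 0) (W2 := 1230186008) (P3 := 1046898278) (W3 := 26843546) (N0 := 3)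
    rfl k0_pp_033

noncomputable def f_pp_101 : ℕ → ℕ → ℕ → ℕ → Bool := onCell 536870912 536870912 0 536870912 1046898278 26843546
    (rowNX 3 0 true true true .npn 1 0 1 (qsf 536870912 536870912 0 536870912 1) ndN1q1 ndN5q0 pcN1 Cut.none Ext.none)

def k0_pp_101 : ∃ t, chk3 f_pp_101 t 1 1 1 = true :=
  ⟨(l 4), by decide +kernel⟩

theorem c_pp_101 : CertNX 536870912 536870912 0 536870912 1046898278 26843546 3 true true true .npn 1 0 1
    ndN1q1 ndN5q0 pcN1 Cut.none Ext.none :=
  certNX0 (fam := true) (s1 := true) (s2 := true) (a := 1) (b := 0) (c := 1) (cn := .npn) (n1 := ndN1q1) (n2 := ndN5q0) (pc := pcN1) (cut := Cut.none) (xt := Ext.none) (P1 := 536870912) (W1 := 536870912) (P2 := 0) (W2 := 536870912) (P3 := 1046898278) (W3 := 26843546) (N0 := 3)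
    rfl k0_pp_101

noncomputable def f_pp_102 : ℕ → ℕ → ℕ → ℕ → Bool := onCell 536870912 536870912 0 536870912 1046898278 26843546
    (rowNX 3 0 true true true .npp 1 0 2 (qsf 536870912 536870912 0 536870912 2) ndN1q1 ndN5q0 pcN2 Cut.none Ext.none)

def k0_pp_102 : ∃ t, chk3 f_pp_102 t 1 1 1 = true :=
  ⟨(l 4), by decide +kernel⟩

theorem c_pp_102 : CertNX 536870912 536870912 0 536870912 1046898278 26843546 3 true true true .npp 1 0 2
    ndN1q1 ndN5q0 pcN2 Cut.none Ext.none :=
  certNX0 (fam := true) (s1 := true) (s2 := true) (a := 1) (b := 0) (c := 2) (cn := .npp) (n1 := ndN1q1) (n2 := ndN5q0) (pc := pcN2) (cut := Cut.none) (xt := Ext.none) (P1 := 536870912) (W1 := 536870912) (P2 := 0) (W2 := 536870912) (P3 := 1046898278) (W3 := 26843546) (N0 := 3)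
    rfl k0_pp_102

noncomputable def f_pp_112 : ℕ → ℕ → ℕ → ℕ → Bool := onCell 536870912 536870912 536870912 469762048 1046898278 26843546
    (rowNX 3 0 true true true .dn 1 1 2 (qsf 536870912 536870912 536870912 469762048 2) ndN1q1 ndN5q1 pcN2 Cut.none Ext.none)

def k0_pp_112 : ∃ t, chk3 f_pp_112 t 1 1 1 = true :=
  ⟨(l 4), by decide +kernel⟩

theorem c_pp_112 : CertNX 536870912 536870912 536870912 469762048 1046898278 26843546 3 true true true .dn 1 1 2
    ndN1q1 ndN5q1 pcN2 Cut.none Ext.none :=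
  certNX0 (fam := true) (s1 := true) (s2 := true) (a := 1) (b := 1) (c := 2) (cn := .dn) (n1 := ndN1q1) (n2 := ndN5q1) (pc := pcN2) (cut := Cut.none) (xt := Ext.none) (P1 := 536870912) (W1 := 536870912) (P2 := 536870912) (W2 := 469762048) (P3 := 1046898278) (W3 := 26843546) (N0 := 3)
    rfl k0_pp_112

noncomputable def f_pp_113 : ℕ → ℕ → ℕ → ℕ → Bool := onCell 536870912 536870912 536870912 469762048 1046898278 26843546
    (rowNX 3 0 true true true .nn 1 1 3 (qsf 536870912 536870912 536870912 469762048 3) ndN1q1 ndN5q1 pcN3 Cut.none Ext.none)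

def k0_pp_113 : ∃ t, chk3 f_pp_113 t 1 1 1 = true :=
  ⟨(l 4), by decide +kernel⟩

theorem c_pp_113 : CertNX 536870912 536870912 536870912 469762048 1046898278 26843546 3 true true true .nn 1 1 3
    ndN1q1 ndN5q1 pcN3 Cut.none Ext.none :=
  certNX0 (fam := true) (s1 := true) (s2 := true) (a := 1) (b := 1) (c := 3) (cn := .nn) (n1 := ndN1q1) (n2 := ndN5q1) (pc := pcN3) (cut := Cut.none) (xt := Ext.none) (P1 := 536870912) (W1 := 536870912) (P2 := 536870912) (W2 := 469762048) (P3 := 1046898278) (W3 := 26843546) (N0 := 3)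
    rfl k0_pp_113

noncomputable def f_pp_123 : ℕ → ℕ → ℕ → ℕ → Bool := onCell 536870912 536870912 1073741824 536870912 1046898278 26843546
    (rowNX 3 0 true true true .npn 1 2 3 (qsf 536870912 536870912 1073741824 536870912 3) ndN1q1 ndN5q2 pcN3 Cut.none Ext.none)

def k0_pp_123 : ∃ t, chk3 f_pp_123 t 1 1 1 = true :=
  ⟨(l 4), by decide +kernel⟩

theorem c_pp_123 : CertNX 536870912 536870912 1073741824 536870912 1046898278 26843546 3 true true true .npn 1 2 3
    ndN1q1 ndN5q2 pcN3 Cut.none Ext.none :=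
  certNX0 (fam := true) (s1 := true) (s2 := true) (a := 1) (b := 2) (c := 3) (cn := .npn) (n1 := ndN1q1) (n2 := ndN5q2) (pc := pcN3) (cut := Cut.none) (xt := Ext.none) (P1 := 536870912) (W1 := 536870912) (P2 := 1073741824) (W2 := 536870912) (P3 := 1046898278) (W3 := 26843546) (N0 := 3)
    rfl k0_pp_123

noncomputable def f_pp_133 : ℕ → ℕ → ℕ → ℕ → Bool := onCell 536870912 536870912 0 1230186008 1046898278 26843546
    (rowNX 3 0 true true true .dn 1 3 3 (qsf 536870912 536870912 0 1230186008 3) ndN1q1 ndN5q3 pcN3 Cut.none Ext.none)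

def k0_pp_133 : ∃ t, chk3 f_pp_133 t 1 1 1 = true :=
  ⟨(l 4), by decide +kernel⟩

theorem c_pp_133 : CertNX 536870912 536870912 0 1230186008 1046898278 26843546 3 true true true .dn 1 3 3
    ndN1q1 ndN5q3 pcN3 Cut.none Ext.none :=
  certNX0 (fam := true) (s1 := true) (s2 := true) (a := 1) (b := 3) (c := 3) (cn := .dn) (n1 := ndN1q1) (n2 := ndN5q3) (pc := pcN3) (cut := Cut.none) (xt := Ext.none) (P1 := 536870912) (W1 := 536870912) (P2 := 0) (W2 := 1230186008) (P3 := 1046898278) (W3 := 26843546) (N0 := 3)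
    rfl k0_pp_133

noncomputable def f_pp_202_a : ℕ → ℕ → ℕ → ℕ → Bool := onCell 0 420477299 0 536870912 1046898278 26843546
    (rowNX 3 0 true true true .pp 2 0 2 (qsf 0 420477299 0 536870912 2) ndN1q2a ndN5q0 pcN2 Cut.none Ext.none)

def k0_pp_202_a : ∃ t, chk3 f_pp_202_a t 1 1 1 = true :=
  ⟨(l 5), by decide +kernel⟩

theorem c_pp_202_a : CertNX 0 420477299 0 536870912 1046898278 26843546 3 true true true .pp 2 0 2
    ndN1q2a ndN5q0 pcN2 Cut.none Ext.none :=
  certNX0 (fam := true) (s1 := true) (s2 := true) (a := 2) (b := 0) (c := 2) (cn := .pp) (n1 := ndN1q2a) (n2 := ndN5q0) (pc := pcN2) (cut := Cut.none) (xt := Ext.none) (P1 := 0) (W1 := 420477299) (P2 := 0) (W2 := 536870912) (P3 := 1046898278) (W3 := 26843546) (N0 := 3)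
    rfl k0_pp_202_a

noncomputable def f_pp_202_b : ℕ → ℕ → ℕ → ℕ → Bool := onCell 1239849684 370763052 0 536870912 1046898278 26843546
    (rowNX 3 0 true true true .pp 2 0 2 (qsf 1239849684 370763052 0 536870912 2) ndN1q2b ndN5q0 pcN2 Cut.none Ext.none)

def k0_pp_202_b : ∃ t, chk3 f_pp_202_b t 1 1 1 = true :=
  ⟨(l 5), by decide +kernel⟩

theorem c_pp_202_b : CertNX 1239849684 370763052 0 536870912 1046898278 26843546 3 true true true .pp 2 0 2
    ndN1q2b ndN5q0 pcN2 Cut.none Ext.none :=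
  certNX0 (fam := true) (s1 := true) (s2 := true) (a := 2) (b := 0) (c := 2) (cn := .pp) (n1 := ndN1q2b) (n2 := ndN5q0) (pc := pcN2) (cut := Cut.none) (xt := Ext.none) (P1 := 1239849684) (W1 := 370763052) (P2 := 0) (W2 := 536870912) (P3 := 1046898278) (W3 := 26843546) (N0 := 3)
    rfl k0_pp_202_b

noncomputable def f_pp_203_a : ℕ → ℕ → ℕ → ℕ → Bool := onCell 0 420477299 0 536870912 1046898278 26843546
    (rowNX 3 0 true true true .up 2 0 3 (qsf 0 420477299 0 536870912 3) ndN1q2a ndN5q0 pcN3 Cut.none Ext.none)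

def k0_pp_203_a : ∃ t, chk3 f_pp_203_a t 1 1 1 = true :=
  ⟨(l 5), by decide +kernel⟩

theorem c_pp_203_a : CertNX 0 420477299 0 536870912 1046898278 26843546 3 true true true .up 2 0 3
    ndN1q2a ndN5q0 pcN3 Cut.none Ext.none :=
  certNX0 (fam := true) (s1 := true) (s2 := true) (a := 2) (b := 0) (c := 3) (cn := .up) (n1 := ndN1q2a) (n2 := ndN5q0) (pc := pcN3) (cut := Cut.none) (xt := Ext.none) (P1 := 0) (W1 := 420477299) (P2 := 0) (W2 := 536870912) (P3 := 1046898278) (W3 := 26843546) (N0 := 3)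
    rfl k0_pp_203_a

noncomputable def f_pp_203_b : ℕ → ℕ → ℕ → ℕ → Bool := onCell 1239849684 370763052 0 536870912 1046898278 26843546
    (rowNX 3 0 true true true .up 2 0 3 (qsf 1239849684 370763052 0 536870912 3) ndN1q2b ndN5q0 pcN3 Cut.none Ext.none)

def k0_pp_203_b : ∃ t, chk3 f_pp_203_b t 1 1 1 = true :=
  ⟨(l 5), by decide +kernel⟩

theorem c_pp_203_b : CertNX 1239849684 370763052 0 536870912 1046898278 26843546 3 true true true .up 2 0 3
    ndN1q2b ndN5q0 pcN3 Cut.none Ext.none :=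
  certNX0 (fam := true) (s1 := true) (s2 := true) (a := 2) (b := 0) (c := 3) (cn := .up) (n1 := ndN1q2b) (n2 := ndN5q0) (pc := pcN3) (cut := Cut.none) (xt := Ext.none) (P1 := 1239849684) (W1 := 370763052) (P2 := 0) (W2 := 536870912) (P3 := 1046898278) (W3 := 26843546) (N0 := 3)
    rfl k0_pp_203_b

noncomputable def f_pp_213_a : ℕ → ℕ → ℕ → ℕ → Bool := onCell 0 420477299 536870912 469762048 1046898278 26843546
    (rowNX 3 0 true true true .pnn 2 1 3 (qsf 0 420477299 536870912 469762048 3) ndN1q2a ndN5q1 pcN3 Cut.none Ext.none)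

def k0_pp_213_a : ∃ t, chk3 f_pp_213_a t 1 1 1 = true :=
  ⟨(l 4), by decide +kernel⟩

theorem c_pp_213_a : CertNX 0 420477299 536870912 469762048 1046898278 26843546 3 true true true .pnn 2 1 3
    ndN1q2a ndN5q1 pcN3 Cut.none Ext.none :=
  certNX0 (fam := true) (s1 := true) (s2 := true) (a := 2) (b := 1) (c := 3) (cn := .pnn) (n1 := ndN1q2a) (n2 := ndN5q1) (pc := pcN3) (cut := Cut.none) (xt := Ext.none) (P1 := 0) (W1 := 420477299) (P2 := 536870912) (W2 := 469762048) (P3 := 1046898278) (W3 := 26843546) (N0 := 3)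
    rfl k0_pp_213_a

noncomputable def f_pp_213_b : ℕ → ℕ → ℕ → ℕ → Bool := onCell 1239849684 370763052 536870912 469762048 1046898278 26843546
    (rowNX 3 0 true true true .pnn 2 1 3 (qsf 1239849684 370763052 536870912 469762048 3) ndN1q2b ndN5q1 pcN3 Cut.none Ext.none)

def k0_pp_213_b : ∃ t, chk3 f_pp_213_b t 1 1 1 = true :=
  ⟨(l 4), by decide +kernel⟩

theorem c_pp_213_b : CertNX 1239849684 370763052 536870912 469762048 1046898278 26843546 3 true true true .pnn 2 1 3
    ndN1q2b ndN5q1 pcN3 Cut.none Ext.none :=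
  certNX0 (fam := true) (s1 := true) (s2 := true) (a := 2) (b := 1) (c := 3) (cn := .pnn) (n1 := ndN1q2b) (n2 := ndN5q1) (pc := pcN3) (cut := Cut.none) (xt := Ext.none) (P1 := 1239849684) (W1 := 370763052) (P2 := 536870912) (W2 := 469762048) (P3 := 1046898278) (W3 := 26843546) (N0 := 3)
    rfl k0_pp_213_b

noncomputable def f_pp_303 : ℕ → ℕ → ℕ → ℕ → Bool := onCell 1610612736 469762048 0 536870912 1046898278 26843546
    (rowNX 3 0 true true true .npn 3 0 3 (qsf 1610612736 469762048 0 536870912 3) ndN1q3 ndN5q0 pcN3 Cut.none Ext.none)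

def k0_pp_303 : ∃ t, chk3 f_pp_303 t 1 1 1 = true :=
  ⟨(l 5), by decide +kernel⟩

theorem c_pp_303 : CertNX 1610612736 469762048 0 536870912 1046898278 26843546 3 true true true .npn 3 0 3
    ndN1q3 ndN5q0 pcN3 Cut.none Ext.none :=
  certNX0 (fam := true) (s1 := true) (s2 := true) (a := 3) (b := 0) (c := 3) (cn := .npn) (n1 := ndN1q3) (n2 := ndN5q0) (pc := pcN3) (cut := Cut.none) (xt := Ext.none) (P1 := 1610612736) (W1 := 469762048) (P2 := 0) (W2 := 536870912) (P3 := 1046898278) (W3 := 26843546) (N0 := 3)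
    rfl k0_pp_303

noncomputable def f_pp_313 : ℕ → ℕ → ℕ → ℕ → Bool := onCell 1610612736 469762048 536870912 469762048 1046898278 26843546
    (rowNX 3 0 true true true .dn 3 1 3 (qsf 1610612736 469762048 536870912 469762048 3) ndN1q3 ndN5q1 pcN3 Cut.none Ext.none)

def k0_pp_313 : ∃ t, chk3 f_pp_313 t 1 1 1 = true :=
  ⟨(l 4), by decide +kernel⟩

theorem c_pp_313 : CertNX 1610612736 469762048 536870912 469762048 1046898278 26843546 3 true true true .dn 3 1 3
    ndN1q3 ndN5q1 pcN3 Cut.none Ext.none :=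
  certNX0 (fam := true) (s1 := true) (s2 := true) (a := 3) (b := 1) (c := 3) (cn := .dn) (n1 := ndN1q3) (n2 := ndN5q1) (pc := pcN3) (cut := Cut.none) (xt := Ext.none) (P1 := 1610612736) (W1 := 469762048) (P2 := 536870912) (W2 := 469762048) (P3 := 1046898278) (W3 := 26843546) (N0 := 3)
    rfl k0_pp_313

noncomputable def f_pm_001 : ℕ → ℕ → ℕ → ℕ → Bool := onCell 67108864 469762048 0 536870912 1046898278 26843546
    (rowNX 3 0 true true false .up 0 0 1 (qsf 67108864 469762048 0 536870912 1) ndN1q0 ndN5q0 pcN1 Cut.none Ext.none)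

def k0_pm_001 : ∃ t, chk3 f_pm_001 t 1 1 1 = true :=
  ⟨(b (l 3) (l 3)), by decide +kernel⟩

theorem c_pm_001 : CertNX 67108864 469762048 0 536870912 1046898278 26843546 3 true true false .up 0 0 1
    ndN1q0 ndN5q0 pcN1 Cut.none Ext.none :=
  certNX0 (fam := true) (s1 := true) (s2 := false) (a := 0) (b := 0) (c := 1) (cn := .up) (n1 := ndN1q0) (n2 := ndN5q0) (pc := pcN1) (cut := Cut.none) (xt := Ext.none) (P1 := 67108864) (W1 := 469762048) (P2 := 0) (W2 := 536870912) (P3 := 1046898278) (W3 := 26843546) (N0 := 3)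
    rfl k0_pm_001

noncomputable def f_pm_011 : ℕ → ℕ → ℕ → ℕ → Bool := onCell 67108864 469762048 536870912 536870912 1046898278 26843546
    (rowNX 3 1 true true false .pnn 0 1 1 (qsf 67108864 469762048 536870912 469762048 1) ndN1q0 ndN5q1 pcN1 Cut.none Ext.none)

def k0_pm_011 : ∃ t, chk3 f_pm_011 t 1 1 1 = true :=
  ⟨(b (l 3) (b (l 3) (a (b (l 3) (l 3)) (l 3)))), by decide +kernel⟩

theorem c_pm_011 : CertNX 67108864 469762048 536870912 469762048 1046898278 26843546 3 true true false .pnn 0 1 1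
    ndN1q0 ndN5q1 pcN1 Cut.none Ext.none :=
  certNX1 (fam := true) (s1 := true) (s2 := false) (a := 0) (b := 1) (c := 1) (cn := .pnn) (n1 := ndN1q0) (n2 := ndN5q1) (pc := pcN1) (cut := Cut.none) (xt := Ext.none) (P1 := 67108864) (W1 := 469762048) (P2 := 536870912) (W2 := 469762048) (P3 := 1046898278) (W3 := 26843546) (N0 := 3)
    rfl (fun _ => rfl) k0_pm_011

noncomputable def f_pm_012 : ℕ → ℕ → ℕ → ℕ → Bool := onCell 1073741824 536870912 536870912 469762048 1046898278 26843546
    (rowNX 3 2 true true false .pnp 0 1 2 (qsf 67108864 469762048 536870912 469762048 2) ndN1q0 ndN5q1 pcN2 Cut.none Ext.none)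

def k0_pm_012 : ∃ t, chk3 f_pm_012 t 8 2 1 = true :=
  ⟨(a (a (l 3) (a (b (l 3) (l 3)) (c (c (b (a (l 3) (l 15692608)) (c (a (a (l 15690096) (l 15697576)) (l 15701384)) (a (l 15657448) (l 15681824)))) (l 15642184)) (b (l 15613968) (l 15600024))))) (a (a (c (b (l 15707464) (a (l 15706992) (l 15755568))) (b (l 15682208) (l 15680848))) (b (l 15829136) (c (l 15835472) (l 15792160)))) (a (b (l 15910544) (c (l 15906416) (l 15870288))) (b (c (l 15969768) (l 15939824)) (c (l 15960184) (l 15929872)))))), by decide +kernel⟩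

def k1_pm_012 : ∃ t, chk3 f_pm_012 t 8 6 1 = true :=
  ⟨(a (a (l 3) (b (c (a (a (l 3) (a (l 3) (b (l 3) (c (l 15656368) (l 15606984))))) (c (a (c (a (l 15690096) (l 15697656)) (l 15657944)) (l 15629480)) (l 15639352))) (l 409797521607)) (b (a (a (l 3) (c (a (b (l 3) (c (l 15959448) (l 15935752))) (c (b (c (l 15709312) (l 15693136)) (l 15855176)) (b (l 15649872) (l 15937640)))) (l 15521632))) (c (c (a (c (a (b (l 15731792) (l 16010872)) (b (a (l 15738696) (l 15736600)) (l 15870160))) (a (b (l 15694224) (l 15976440)) (l 15588352))) (b (b (a (l 15686112) (l 15696696)) (l 15775632)) (l 16010688))) (l 15762920)) (l 15543312))) (c (a (a (a (l 3) (b (l 3) (c (l 16356104) (l 4728925771639)))) (c (c (l 16224544) (a (l 16209824) (b (l 16207328) (l 16441576)))) (c (a (b (l 16200624) (l 16351488)) (l 16209376)) (l 16289456)))) (c (a (c (c (a (l 16271880) (l 16191272)) (a (l 16179928) (l 16147552))) (c (a (l 16200040) (l 16195384)) (l 16132568))) (l 16173904)) (l 16143280))) (a (b (l 16141872)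 (l 16343840)) (b (l 16210576) (l 16476088))))))) (b (a (a (c (l 15727232) (l 15675136)) (l 15799832)) (a (c (l 15894152) (l 15857000)) (l 15928328))) (a (a (b (c (b (l 15765024) (l 16038664)) (l 15727864)) (b (c (l 16335920) (l 16328656)) (c (l 16432592) (l 16438696)))) (b (c (l 15839856) (l 15947800)) (b (l 16235488) (c (l 16283136) (l 16322744))))) (a (b (c (b (l 15927712) (l 16187560)) (l 15921184)) (c (b (l 16491872) (l 16256392)) (l 16255392))) (b (l 16024848) (l 16264960)))))), by decide +kernel⟩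

def k2_pm_012 : ∃ t, chk3 f_pm_012 t 64 7 1 = true :=
  ⟨(l 3), by decide +kernel⟩

def k3_pm_012 : ∃ t, chk3 f_pm_012 t 130 7 1 = true :=
  ⟨(b (l 3) (b (l 3) (b (a (l 3) (a (l 3) (c (c (l 15951656) (b (l 15991712) (l 16260280))) (c (c (a (l 16045096) (l 15883128)) (l 15878288)) (l 16083432))))) (c (c (b (l 16401040) (c (l 16350160) (l 16256664))) (b (a (l 3) (l 16339032)) (c (l 16240384) (l 16314928)))) (c (c (a (l 721184422183) (c (l 16397920) (b (a (l 16501856) (l 16408592)) (a (l 16425232) (l 16366544))))) (b (a (l 3) (a (l 16341424) (l 16441936))) (a (a (l 3) (a (l 16382456) (l 16290144))) (c (a (l 16291080) (l 16414048)) (l 16438928))))) (l 651928105703)))))), by decide +kernel⟩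

def k4_pm_012 : ∃ t, chk3 f_pm_012 t 131 7 1 = true :=
  ⟨(b (a (l 3) (b (l 3) (a (l 3) (b (l 3) (c (c (l 16008040) (c (l 15986232) (l 15974256))) (l 15975952)))))) (c (b (c (b (l 15781200) (b (b (l 15622360) (l 15628424)) (l 15753872))) (a (b (l 15774224) (b (b (l 15614896) (l 15620760)) (l 15622600))) (c (b (l 15743056) (b (l 15584688) (l 15716040))) (b (a (l 15735744) (l 15719744)) (b (b (l 15523816) (c (l 15569880) (l 15568984))) (c (l 15698712) (l 15635336))))))) (c (b (a (l 15867704) (b (l 15916992) (l 16158848))) (b (c (l 16354560) (l 16336768)) (c (l 16419816) (l 16349120)))) (b (c (b (l 15738416) (l 16093672)) (a (b (l 15935264) (l 16196024)) (b (c (l 15880544) (a (l 15887264) (l 15870600))) (c (l 16126312) (a (l 16140088) (l 16072712)))))) (a (c (b (l 16359832) (l 16349552)) (c (l 16379600) (l 16351712))) (c (b (l 16330536) (l 16475936)) (a (b (b (l 16263096) (l 16484328)) (l 16539112)) (l 16271656))))))) (b (c (b (a (a (l 3) (l 15750384)) (a (l 15739256) (l 15725024)))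 (c (a (a (b (l 3) (l 15738592)) (b (b (l 15587416) (l 15593104)) (l 15723624))) (b (b (l 15569712) (l 15575312)) (l 15705736))) (b (l 15584160) (l 15720232)))) (b (l 15735960) (b (l 15571192) (l 15709712)))) (b (c (c (a (c (a (l 15942736) (b (l 15913448) (l 16174632))) (a (c (l 16010672) (l 16018512)) (l 15949904))) (c (c (a (l 15980536) (l 15836168)) (l 15808360)) (l 16018440))) (l 15940936)) (l 15893128)) (c (c (a (a (c (b (l 16394048) (l 16399680)) (c (l 16372648) (l 16381560))) (c (c (b (l 16382824) (l 16427400)) (l 16384032)) (b (c (l 16399176) (l 16464304)) (l 16405288)))) (b (b (a (c (l 16357776) (l 16364192)) (l 16333184)) (l 16484840)) (l 16467384))) (l 16361528)) (l 16342488)))))), by decide +kernel⟩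

def k5_pm_012 : ∃ t, chk3 f_pm_012 t 33 14 1 = true :=
  ⟨(c (a (c (b (a (b (l 16536568) (b (l 16399104) (l 16306688))) (c (b (l 16457040) (l 16164000)) (b (a (l 16470760) (l 16249376)) (a (b (l 16328096) (l 16233912)) (b (l 16147952) (a (l 16206696) (l 16192272))))))) (a (b (l 16173320) (l 15955144)) (c (l 15838584) (a (c (l 15994976) (b (l 16097064) (l 15782216))) (l 15879352))))) (a (b (b (a (l 3) (a (l 16504200) (l 16382296))) (a (b (l 16410256) (c (l 16313424) (l 16316328))) (b (c (l 16368976) (l 16382680)) (c (l 16253624) (l 16287752))))) (b (a (c (l 16177888) (c (l 16177288) (l 16187368))) (c (l 16034736) (l 16152024))) (c (a (l 15953736) (c (l 15917880) (l 15817992))) (a (c (l 15952024) (l 15961408)) (l 15891056))))) (a (b (c (b (l 16396224) (b (l 16273640) (c (l 16239528) (l 16250664)))) (l 16145592)) (c (c (a (l 15963064) (l 15891744)) (b (l 16115144) (l 15882896))) (l 16010592))) (b (b (l 16455936) (b (l 16311248) (l 16194792))) (l 15977144))))) (b (c (a (b (a (c (l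 16291768) (l 16286880)) (l 16372656)) (b (l 16244608) (l 16044656))) (b (l 16331784) (l 16012880))) (b (l 16373640) (l 16178816))) (c (a (c (b (l 16009768) (l 15728992)) (l 15796776)) (l 15669400)) (l 15893472)))) (b (b (a (l 16328032) (l 16372944)) (a (b (l 16311312) (a (l 16304544) (l 16231112))) (l 16092048))) (a (a (l 15864504) (l 15816640)) (l 15779608)))), by decide +kernel⟩

def k6_pm_012 : ∃ t, chk3 f_pm_012 t 33 30 2 = true :=
  ⟨(b (a (c (a (l 15621272) (c (l 15631376) (l 15520736))) (a (c (c (l 15496296) (a (l 15695560) (a (l 15672672) (l 15665384)))) (c (a (a (l 15701528) (l 15691768)) (l 15551896)) (l 15523808))) (c (l 15608456) (l 15634952)))) (c (a (c (a (l 15578880) (l 15555384)) (l 15577544)) (l 15525208)) (l 15553008))) (a (c (a (b (a (b (l 15564792) (l 15569904)) (l 15525440)) (l 15572096)) (c (b (l 15472072) (l 15599264)) (b (b (l 15463104) (l 15468232)) (a (l 15608048) (l 15580224))))) (a (b (c (a (b (l 15537504) (l 15542864)) (l 15465576)) (a (c (a (l 15540856)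 (b (l 15528264) (l 15533400))) (b (l 15541960) (l 15547232))) (l 15516088))) (a (a (c (l 15681304) (c (l 15671968) (l 15683152))) (l 15663352)) (c (l 15638520) (l 15647216)))) (c (b (b (l 15466024) (l 15471128)) (a (l 15612040) (l 15591160))) (l 15538416)))) (c (a (c (b (b (a (l 15416936) (l 15393096)) (a (l 15421288) (l 15397320))) (a (l 15546056) (l 15521904))) (b (b (l 15414408) (l 15419288)) (l 15546560))) (b (b (l 15361984) (l 15366344)) (l 15491976))) (b (l 15390848) (l 15521536))))), by decide +kernel⟩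

def k7_pm_012 : ∃ t, chk3 f_pm_012 t 33 31 2 = true :=
  ⟨(a (c (a (b (b (l 15846232) (l 16059736)) (b (l 16280648) (l 16404080))) (b (c (l 15839256) (a (l 15749816) (c (l 15835936) (l 15846840)))) (c (l 16092672) (c (b (l 16149544) (c (l 16333400) (l 16317424))) (a (l 16108424) (l 16058864)))))) (a (c (b (a (l 15709736) (b (l 15811952) (l 15933760))) (c (b (l 16252256) (l 16401288)) (a (l 16220864) (l 16166096)))) (a (b (b (l 15845160) (l 16072088)) (b (l 16239456) (l 16431616))) (b (l 15862632) (l 16200664)))) (b (c (a (c (l 15859472) (l 15885448)) (l 15853824)) (l 15872440)) (c (c (a (a (l 16189744) (l 16168248)) (l 16109912)) (l 16090504)) (l 16200672))))) (c (b (a (c (a (l 15799912) (l 15754344)) (l 15700640)) (c (l 15700792) (l 15753568))) (a (b (c (a (l 16098232) (l 15887216)) (l 15871488)) (c (a (l 16279184) (l 16164992)) (c (l 16234392) (l 16289096)))) (c (b (a (l 16022216) (l 15990928)) (l 16008888)) (l 15914968)))) (b (l 15783464) (b (l 15989632) (b (l 16252888) (l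 16327776)))))), by decide +kernel⟩

def k8_pm_012 : ∃ t, chk3 f_pm_012 t 33 15 3 = true :=
  ⟨(b (b (a (a (l 15680200) (l 15622184)) (l 15536800)) (a (b (b (l 15483152) (l 15488880)) (l 15621248)) (b (l 15371264) (l 15505096)))) (b (a (a (b (l 15832688) (l 16056496)) (l 15785096)) (l 15773144)) (b (a (l 16084672) (l 15839784)) (a (c (l 16386728) (l 16433800)) (a (l 16319968) (l 16267024)))))), by decide +kernel⟩

def k9_pm_012 : ∃ t, chk3 f_pm_012 t 17 7 1 = true :=
  ⟨(b (a (b (a (b (c (l 16235760) (l 16235184)) (c (b (l 16087496) (l 15989696)) (l 15927112))) (c (b (l 16089288) (b (l 15937400) (l 15837304))) (b (l 16078528) (l 15870040)))) (a (c (a (l 15795400) (l 15717232)) (l 15595008)) (c (a (l 15637096) (l 15561096)) (l 15570840)))) (b (b (a (l 15952328) (l 15870416)) (a (l 15669072) (l 15581912))) (a (l 15368848) (l 15295792)))) (a (b (a (b (c (a (l 15473408) (l 15405856)) (l 15413648)) (c (b (a (b (l 15309472) (l 15314056)) (l 15247512)) (a (l 15440544) (l 15375920))) (a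 (l 15351296) (l 15280352)))) (b (c (l 15293560) (l 15256792)) (c (b (l 15128544) (l 15277320)) (l 15173424)))) (c (a (b (a (c (l 15694928) (l 15701224)) (l 15633072)) (c (b (l 15922928) (l 15991520)) (b (l 15932944) (l 15943288)))) (c (b (l 15535840) (l 15884472)) (b (l 15533552) (l 15889024)))) (a (b (l 15521016) (l 15833424)) (l 15681976)))) (b (b (a (l 15121856) (l 14979280)) (c (a (b (b (l 15013672) (l 15025520)) (l 15154680)) (b (l 14883080) (l 15033280))) (b (l 14893136) (l 15039352)))) (c (c (b (a (l 15417400) (l 15309392)) (a (l 15764280) (l 15654072))) (b (l 15345656) (l 15613536))) (a (l 15545112) (l 15423240)))))), by decide +kernel⟩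

def k10_pm_012 : ∃ t, chk3 f_pm_012 t 9 1 1 = true :=
  ⟨(b (a (b (a (l 16126072) (l 16434264)) (a (l 16120208) (l 16435304))) (a (a (l 16660680) (l 16681960)) (l 16595264))) (b (a (b (a (l 16111264) (l 16432392)) (b (a (b (l 16143888) (l 16394632)) (b (l 16465976) (l 16608808))) (a (l 16065080) (l 16015016)))) (b (a (l 16677472) (l 16615576)) (a (b (a (l 16469080) (l 16622656)) (a (l 15939272) (l 15923280))) (b (l 16658440) (l 15963408))))) (a (b (b (a (b (l 15731624) (b (l 15459096) (l 15303776))) (b (l 15518552) (l 15132128))) (a (a (l 15121592) (l 14907192)) (b (l 14772648) (l 14478264)))) (b (b (a (l 14681016) (l 14234056)) (a (c (b (l 14582896) (l 14732296)) (l 14584984)) (c (b (l 14131784) (l 14272928)) (l 14112600)))) (a (c (b (c (l 15027816) (l 14997080)) (c (l 15343504) (l 15360464))) (b (l 14949560) (l 15318368))) (c (b (l 14550240) (c (l 14941960) (l 14908696))) (l 14659336))))) (b (b (a (a (b (l 15368536) (l 14974512)) (l 15155464)) (l 15136720)) (a (a (c (l 14440384)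 (l 14358760)) (l 14367624)) (l 14415672))) (b (a (b (a (l 13914744) (l 13815680)) (a (c (b (l 13809408) (l 13944536)) (l 13774856)) (c (l 13764624) (l 13658664)))) (b (l 13817776) (b (l 13580240) (l 13696152)))) (a (c (a (b (l 14212816) (l 14497680)) (l 14237192)) (a (l 14307448) (l 14185920))) (c (b (l 14013392) (l 14376704)) (l 14098208)))))))), by decide +kernel⟩

def k11_pm_012 : ∃ t, chk3 f_pm_012 t 5 1 1 = true :=
  ⟨(b (b (l 2) (a (a (a (l 16466488) (a (l 16346264) (a (l 16292424) (b (l 16289256) (l 16257864))))) (b (c (l 16380192) (l 16379840)) (c (l 16418808) (l 16381320)))) (a (a (c (l 16560224) (l 16565864)) (l 16680496)) (l 16860760)))) (a (b (a (b (a (l 16484280) (a (l 16370048) (a (l 16317280) (l 16204352)))) (a (b (l 16620632) (l 16032600)) (a (b (l 16503456) (l 16091816)) (a (b (l 16448472) (l 16119008)) (b (a (l 16449152) (l 16453208)) (a (l 16117232) (l 16114112))))))) (b (l 16431648) (b (l 16550472) (l 16052472)))) (b (a (a (b (l 15212656) (l 14498040)) (a (b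 (l 15341024) (l 14569336)) (a (b (l 15371416) (l 14602688)) (b (a (l 15369712) (l 15366448)) (a (l 14600976) (l 14597544)))))) (b (l 15297960) (l 14522136))) (a (b (a (b (l 13895168) (b (l 13620464) (l 13683624))) (a (b (l 13970696) (l 13726872)) (a (b (l 14006184) (l 13763688)) (a (b (l 14004416) (l 13761832)) (b (l 14000824) (l 13758104)))))) (a (c (b (l 13946832) (l 14286368)) (l 14021328)) (a (c (l 14064808) (l 14008184)) (a (c (l 14114176) (l 14016104)) (a (c (l 14102624) (l 14004144)) (c (l 14095648) (l 13996920))))))) (b (b (l 13919984) (l 13673632)) (c (l 14005648) (l 13903360)))))) (b (a (b (c (l 16652000) (l 16649056)) (a (b (l 16658192) (l 15963720)) (b (c (l 16609480) (l 16604072)) (l 15712144)))) (b (l 16776960) (b (c (l 16580104) (l 16573112)) (l 15744936)))) (a (b (b (l 15166936) (l 14378304)) (b (b (l 13766616) (l 13513800)) (c (l 13839256) (l 13730024)))) (b (b (c (l 15125568) (l 15067480)) (a (l 14301400) (l 14301168))) (b (c (b (l 13737872) (l 13486856)) (a (l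 13501840) (l 13501584))) (c (l 13751064) (l 13637960)))))))), by decide +kernel⟩

def k12_pm_012 : ∃ t, chk3 f_pm_012 t 3 1 1 = true :=
  ⟨(b (l 2) (b (a (b (a (l 16777216) (l 2)) (a (b (l 16513848) (l 15871072)) (a (l 16083216) (l 2)))) (l 2)) (b (a (b (a (a (l 15096576) (l 15096576)) (l 14865888)) (a (l 14301168) (l 14301168))) (b (l 2) (l 14301168))) (a (b (c (a (b (l 13737824) (l 13486824)) (l 13613112)) (a (l 13501584) (l 13501584))) (c (a (l 13750936) (l 13750936)) (l 13637824))) (b (b (l 13684552) (l 13428464)) (c (l 13750936) (l 13637824))))))), by decide +kernel⟩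

theorem s13_pm_012 : ∃ t, chk3 f_pm_012 t 33 15 2 = true := ex3_b k6_pm_012 k7_pm_012

theorem s14_pm_012 : ∃ t, chk3 f_pm_012 t 33 15 1 = true := ex3_c s13_pm_012 k8_pm_012

theorem s15_pm_012 : ∃ t, chk3 f_pm_012 t 33 7 1 = true := ex3_b k5_pm_012 s14_pm_012

theorem s16_pm_012 : ∃ t, chk3 f_pm_012 t 65 7 1 = true := ex3_a k3_pm_012 k4_pm_012

theorem s17_pm_012 : ∃ t, chk3 f_pm_012 t 32 7 1 = true := ex3_a k2_pm_012 s16_pm_012

theorem s18_pm_012 : ∃ t, chk3 f_pm_012 t 16 7 1 = true := ex3_a s17_pm_012 s15_pm_012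

theorem s19_pm_012 : ∃ t, chk3 f_pm_012 t 8 7 1 = true := ex3_a s18_pm_012 k9_pm_012

theorem s20_pm_012 : ∃ t, chk3 f_pm_012 t 8 3 1 = true := ex3_b k1_pm_012 s19_pm_012

theorem s21_pm_012 : ∃ t, chk3 f_pm_012 t 8 1 1 = true := ex3_b k0_pm_012 s20_pm_012

theorem s22_pm_012 : ∃ t, chk3 f_pm_012 t 4 1 1 = true := ex3_a s21_pm_012 k10_pm_012

theorem s23_pm_012 : ∃ t, chk3 f_pm_012 t 2 1 1 = true := ex3_a s22_pm_012 k11_pm_012

theorem s24_pm_012 : ∃ t, chk3 f_pm_012 t 1 1 1 = true := ex3_a s23_pm_012 k12_pm_012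

theorem c_pm_012 : CertNX 67108864 469762048 536870912 469762048 1046898278 26843546 3 true true false .pnp 0 1 2
    ndN1q0 ndN5q1 pcN2 Cut.none Ext.none :=
  certNX2 (fam := true) (s1 := true) (s2 := false) (a := 0) (b := 1) (c := 2) (cn := .pnp) (n1 := ndN1q0) (n2 := ndN5q1) (pc := pcN2) (cut := Cut.none) (xt := Ext.none) (P1 := 67108864) (W1 := 469762048) (P2 := 536870912) (W2 := 469762048) (P3 := 1046898278) (W3 := 26843546) (N0 := 3)
    rfl (fun _ => rfl) s24_pm_012

noncomputable def f_pm_022 : ℕ → ℕ → ℕ → ℕ → Bool := onCell 67108864 469762048 1073741824 536870912 1046898278 26843546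
    (rowNX 3 1 true true false .pp 0 2 2 (qsf 67108864 469762048 1073741824 536870912 2) ndN1q0 ndN5q2 pcN2 Cut.none Ext.none)

def k0_pm_022 : ∃ t, chk3 f_pm_022 t 4 4 1 = true :=
  ⟨(b (l 3) (b (a (b (b (l 3) (a (c (a (a (c (l 15806536) (l 15790080)) (c (l 15877832) (l 15862520))) (c (l 160556211175) (l 15970576))) (a (a (l 15764912) (l 15839080)) (b (l 1) (l 15949880)))) (l 1))) (b (a (c (a (c (a (l 15809200) (l 15881080)) (a (l 15793008) (l 15866032))) (c (l 15987856) (l 15974504))) (a (a (l 15768232) (l 15842992)) (l 21506583399))) (l 1)) (a (c (a (b (c (a (l 15806536) (l 15877800)) (l 15798088)) (a (l 15789048) (l 15860592))) (b (c (l 15983568) (l 15970296)) (l 15967000))) (b (a (c (l 15803184) (l 15787088)) (l 15949976)) (a (l 15785568) (l 15939952)))) (a (a (c (c (l 16082080) (l 16070408)) (b (l 16058896) (l 16048384))) (l 1)) (l 1))))) (l 1)) (a (b (a (c (b (a (a (c (l 15776112) (l 15759776)) (c (l 15846952) (l 15831736))) (c (l 15889312) (l 15938664))) (a (a (l 15783344)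 (l 15854504)) (l 15960328))) (b (a (a (l 15734784) (l 15808440)) (l 15896928)) (a (l 15780288) (l 15933840)))) (a (c (b (c (b (l 16091496) (l 16076880)) (b (l 16080088) (l 16065312))) (c (l 16098872) (l 16087872))) (b (b (l 16062632) (l 16047624)) (l 16071040))) (b (l 1) (l 16088000)))) (a (c (a (b (a (l 15804312) (l 15875424)) (a (l 15807704) (l 15878944))) (b (l 15981176) (l 15984864))) (a (b (l 15802520) (l 15806632)) (b (l 15955952) (l 15960304)))) (a (c (b (c (l 16119304) (l 16108920)) (c (l 16123040) (l 16112976))) (b (l 16093024) (l 16097576))) (b (l 16109256) (l 16113672))))) (b (l 1) (a (b (l 348461216455) (c (l 16061840) (l 16037760))) (l 1)))))), by decide +kernel⟩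

def k1_pm_022 : ∃ t, chk3 f_pm_022 t 4 10 1 = true :=
  ⟨(b (b (a (a (c (b (a (a (l 15799000) (l 15870600)) (l 15978008)) (a (b (l 15851648) (l 15917952)) (l 15977632))) (b (a (l 15798424) (l 15953720)) (a (l 15834560) (l 16019176)))) (a (b (c (c (l 16117680) (l 16107784)) (l 16092624)) (c (l 16139032) (l 16164000))) (b (l 16110160) (l 16185856)))) (a (b (c (l 16061216) (l 16037536)) (l 16131704)) (l 1))) (a (b (a (a (c (l 15911592) (l 16013680)) (c (l 16170984) (l 16177008))) (a (c (l 16207560) (l 16301912)) (l 16341552))) (a (b (a (c (l 16056816) (l 16144104)) (c (b (l 16304168) (l 16364928)) (l 16307232))) (c (a (b (l 16201184) (a (l 16254600) (l 16351184))) (b (l 16438864) (l 16324824))) (b (a (l 16250856) (l 16434408)) (a (a (l 16309944) (l 16387992)) (l 16446936))))) (a (b (c (l 16352336) (l 16473848)) (c (b (l 16423280) (c (b (l 16291976) (l 16364864)) (l 16343568))) (b (l 16460672) (l 16337936)))) (b (l 16489248) (b (l 16508280) (b (l 16332104) (l 16404128))))))) (b (a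 (l 16266464) (l 16196624)) (b (a (l 16371984) (l 16322864)) (b (a (l 16537608) (l 16488056)) (c (a (l 16403464) (a (l 16566216) (l 1))) (a (l 16464024) (l 16573568)))))))) (a (a (c (a (b (l 16237776) (l 16067704)) (b (l 16234704) (l 16068072))) (a (l 16029384) (b (l 16288600) (l 16051256)))) (c (a (c (l 15957440) (l 16012176)) (l 16060208)) (a (l 15999632) (l 16128296)))) (a (b (b (l 16391136) (l 16332320)) (l 16114448)) (b (a (l 16485720) (l 16573176)) (l 16204424))))), by decide +kernel⟩

def k2_pm_022 : ∃ t, chk3 f_pm_022 t 4 11 1 = true :=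
  ⟨(a (a (b (a (b (c (l 15851432) (l 15897064)) (a (b (c (b (l 15838664) (l 15868480)) (l 15793256)) (l 15794168)) (c (b (l 15750440) (b (l 15714104) (l 15803176))) (b (l 15724272) (l 15755408))))) (c (b (l 15854512) (b (l 15705160) (l 15575640))) (b (l 15830448) (l 15631936)))) (a (b (c (a (l 15927816) (l 15832072)) (a (l 16043608) (l 15945520))) (a (c (l 15725880) (l 15698008)) (c (l 15936776) (l 16026872)))) (b (c (b (a (b (l 15575736) (l 15718696)) (b (l 15528016) (l 15504128))) (a (l 15889024) (l 15509208))) (b (a (l 15658328) (l 15486224)) (l 15571256))) (c (a (l 16073760) (l 15794832)) (l 15827208))))) (a (b (c (c (l 15707376) (l 15692120)) (l 15668752)) (b (c (a (b (l 15475448) (b (l 15403416) (l 15395560))) (l 15406856)) (b (l 15426520) (l 15347856))) (c (a (l 15408656) (b (a (l 15320920) (l 15274072)) (l 15428704))) (b (a (l 15467488) (l 15264128)) (l 15545880))))) (b (l 15683200) (b (l 15433928) (b (l 15287000) (a (b (l 15211440) (l 15236184)) (l 15209480))))))) (b (a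 (b (l 15955864) (l 15749824)) (a (l 15743320) (l 15953376))) (a (b (l 15550432) (l 15349488)) (b (l 15516728) (l 15476928))))), by decide +kernel⟩

def k3_pm_022 : ∃ t, chk3 f_pm_022 t 5 2 1 = true :=
  ⟨(b (l 1) (b (b (l 1) (a (a (b (l 16572968) (l 16414344)) (l 1)) (l 1))) (a (b (a (b (l 16184832) (l 15969088)) (a (l 16136136) (l 16028728))) (a (c (l 15587040) (l 15634792)) (a (l 15688032) (b (l 15873552) (l 15658376))))) (b (l 1) (a (l 15782064) (l 1)))))), by decide +kernel⟩

def k4_pm_022 : ∃ t, chk3 f_pm_022 t 3 2 1 = true :=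
  ⟨(l 1), by decide +kernel⟩

def k5_pm_022 : ∃ t, chk3 f_pm_022 t 4 6 1 = true :=
  ⟨(a (b (a (b (a (c (a (l 15147456) (l 15440336)) (l 15082576)) (c (b (l 15861112) (l 15655816)) (b (l 15974128) (l 15709856)))) (a (b (c (a (l 14716408) (l 14954912)) (l 14753192)) (l 14727736)) (b (c (l 15387112) (l 15341264)) (c (l 15001840) (l 15092048))))) (b (a (c (a (b (l 15940688) (l 16190432)) (b (l 15775072) (l 16136608))) (b (l 15669976) (l 16201760))) (b (b (a (l 15382512) (l 15093928)) (l 15494688)) (l 15742144))) (a (c (a (l 15500648) (l 15779728)) (b (l 15956024) (l 15608040))) (l 15996688)))) (a (c (a (l 14762712) (l 15089272)) (l 14846768)) (b (a (c (b (l 15439824) (l 15399104)) (l 15378032)) (b (l 15761056) (l 15582568))) (c (l 15488520) (l 15443280))))) (b (b (a (b (a (b (l 15169008) (a (l 15164360) (l 15097200))) (l 15193776)) (a (b (a (l 15352192) (l 15133728)) (l 15465768)) (b (l 15061136) (a (l 15106880) (l 15000248))))) (l 15161736)) (a (a (b (l 15756128) (l 16186280)) (b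 (b (l 15208280) (l 15440544)) (l 15794792))) (b (a (b (l 14957792) (a (l 15064152) (l 14904648))) (l 14924344)) (a (l 15271384) (b (l 14837192) (l 14685816)))))) (b (a (a (b (l 16140496) (l 15847408)) (l 16103648)) (a (b (l 15767816) (l 16201120)) (l 15230448))) (a (b (a (l 15698136) (l 15936584)) (l 15750264)) (a (b (l 16279248) (l 16039064)) (b (l 16177208) (l 16399896))))))), by decide +kernel⟩

def k6_pm_022 : ∃ t, chk3 f_pm_022 t 5 6 1 = true :=
  ⟨(b (a (a (b (l 15248872) (l 14881056)) (b (c (l 15350680) (l 15301272)) (l 14950576))) (b (a (l 15599752) (l 15977648)) (a (l 15200424) (l 15547920)))) (a (b (a (b (a (b (l 14685776) (l 14840584)) (l 14647304)) (a (l 15190376) (b (l 14632704) (l 14778864)))) (a (b (l 14670904) (l 14527136)) (l 14632320))) (a (a (b (l 15674248) (l 16135944)) (l 15310824)) (b (a (b (l 14552168) (l 14731352)) (l 14431384)) (a (l 15112264) (a (l 14705152) (l 14498552)))))) (b (l 14907992) (a (b (l 14587288) (a (l 14421080) (l 14499008))) (l 14793696))))),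 by decide +kernel⟩

def k7_pm_022 : ∃ t, chk3 f_pm_022 t 2 7 1 = true :=
  ⟨(a (a (a (c (a (l 14762712) (l 15089272)) (b (l 14846768) (l 14846768))) (c (l 15236864) (l 15443280))) (b (a (l 15744944) (b (a (l 15940384) (l 15992400)) (l 16025840))) (l 15887280))) (b (a (b (a (b (l 16110336) (a (l 16340264) (l 16543480))) (a (l 15693952) (l 15322080))) (a (b (l 16354672) (l 16369808)) (b (a (l 16515912) (l 16059056)) (a (l 16642040) (l 16498856))))) (b (a (b (a (l 14650512) (l 14430232)) (l 14906592)) (b (l 14547768) (a (l 14445064) (l 14460776)))) (a (l 15414808) (b (a (l 14762208) (l 14465520)) (l 15049680))))) (a (a (l 16369808) (b (l 16506040) (l 16686864))) (b (a (b (a (l 16533872) (l 16163440)) (l 16534440)) (b (l 15545728) (l 16019848))) (a (l 16771296) (b (l 16216328) (l 16687728))))))), by decide +kernel⟩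

def k8_pm_022 : ∃ t, chk3 f_pm_022 t 3 3 1 = true :=
  ⟨(b (a (b (a (b (a (b (l 1) (l 16263336)) (l 1)) (a (l 15922064) (l 16238216))) (l 1)) (a (b (l 15553008) (l 15273056)) (b (a (l 16263400) (l 1)) (l 15859048)))) (l 1)) (a (b (a (b (l 14902640) (a (b (l 14509024) (a (l 14491552) (l 14428152))) (l 14709528))) (b (l 15574120) (l 15177104))) (a (b (a (b (a (l 14890048) (l 14523120)) (l 15175736)) (b (l 14481104) (a (l 14560168) (l 14417648)))) (a (b (l 15666320) (l 16072016)) (b (l 14819096) (l 15300440)))) (b (l 14815656) (a (b (l 14469384) (a (l 14650512) (l 14430232))) (l 14627632))))) (b (a (b (l 16157776) (l 15852776)) (l 1)) (a (l 15022096) (b (l 16213416) (l 15785712)))))), by decide +kernel⟩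

theorem s9_pm_022 : ∃ t, chk3 f_pm_022 t 2 6 1 = true := ex3_a k5_pm_022 k6_pm_022

theorem s10_pm_022 : ∃ t, chk3 f_pm_022 t 2 3 1 = true := ex3_b s9_pm_022 k7_pm_022

theorem s11_pm_022 : ∃ t, chk3 f_pm_022 t 1 3 1 = true := ex3_a s10_pm_022 k8_pm_022

theorem s12_pm_022 : ∃ t, chk3 f_pm_022 t 4 5 1 = true := ex3_b k1_pm_022 k2_pm_022

theorem s13_pm_022 : ∃ t, chk3 f_pm_022 t 4 2 1 = true := ex3_b k0_pm_022 s12_pm_022

theorem s14_pm_022 : ∃ t, chk3 f_pm_022 t 2 2 1 = true := ex3_a s13_pm_022 k3_pm_022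

theorem s15_pm_022 : ∃ t, chk3 f_pm_022 t 1 2 1 = true := ex3_a s14_pm_022 k4_pm_022

theorem s16_pm_022 : ∃ t, chk3 f_pm_022 t 1 1 1 = true := ex3_b s15_pm_022 s11_pm_022

theorem c_pm_022 : CertNX 67108864 469762048 1073741824 536870912 1046898278 26843546 3 true true false .pp 0 2 2
    ndN1q0 ndN5q2 pcN2 Cut.none Ext.none :=
  certNX1 (fam := true) (s1 := true) (s2 := false) (a := 0) (b := 2) (c := 2) (cn := .pp) (n1 := ndN1q0) (n2 := ndN5q2) (pc := pcN2) (cut := Cut.none) (xt := Ext.none) (P1 := 67108864) (W1 := 469762048) (P2 := 1073741824) (W2 := 536870912) (P3 := 1046898278) (W3 := 26843546) (N0 := 3)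
    rfl (fun _ => rfl) s16_pm_022

noncomputable def f_pm_023 : ℕ → ℕ → ℕ → ℕ → Bool := onCell 67108864 469762048 1073741824 536870912 1046898278 26843546
    (rowNX 3 0 true true false .up 0 2 3 (qsf 67108864 469762048 1073741824 536870912 3) ndN1q0 ndN5q2 pcN3 Cut.none Ext.none)

def k0_pm_023 : ∃ t, chk3 f_pm_023 t 1 1 1 = true :=
  ⟨(b (a (b (l 1) (a (l 1) (a (l 1) (b (l 1) (b (l 1374958929319) (l 16776552)))))) (b (a (b (l 1) (l 266853884983)) (b (l 15375448) (a (l 14583768) (l 14772512)))) (b (b (a (b (l 197060461271) (l 182027930887)) (b (l 14377320) (l 14597512))) (a (a (l 15362176) (l 15362176)) (a (l 15362176) (l 15362176)))) (b (a (b (l 16077472) (l 16526792)) (b (l 16077472) (l 16526792))) (a (l 16776552) (l 16776552)))))) (a (a (a (b (l 1) (a (c (a (l 14762712) (l 15089272)) (l 14616080)) (c (l 15488520) (l 15443280)))) (b (b (l 1) (l 15887280)) (b (l 15887280) (l 15887280)))) (b (a (b (l 543883054471) (a (l 16369808) (l 16686864))) (l 16777216)) (a (b (l 16530888)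 (l 16530888)) (l 16777216)))) (b (a (b (l 16777216) (l 16777216)) (b (l 16777208) (a (l 16777208) (b (l 16777176) (l 16777152))))) (b (a (l 16777208) (a (b (l 16777168) (l 16777160)) (b (a (l 16777144) (l 16775560)) (a (l 16777128) (c (l 16767656) (l 16767328)))))) (b (a (a (l 16777208) (l 16777160)) (a (a (l 16777160) (l 16775688)) (a (c (l 16767096) (l 16766584)) (b (l 16760192) (l 4))))) (a (a (l 16777192) (a (l 16777152) (l 16777168))) (a (a (l 16774992) (c (l 16766368) (l 16765656))) (a (b (l 16759312) (l 4)) (l 4))))))))), by decide +kernel⟩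

theorem c_pm_023 : CertNX 67108864 469762048 1073741824 536870912 1046898278 26843546 3 true true false .up 0 2 3
    ndN1q0 ndN5q2 pcN3 Cut.none Ext.none :=
  certNX0 (fam := true) (s1 := true) (s2 := false) (a := 0) (b := 2) (c := 3) (cn := .up) (n1 := ndN1q0) (n2 := ndN5q2) (pc := pcN3) (cut := Cut.none) (xt := Ext.none) (P1 := 67108864) (W1 := 469762048) (P2 := 1073741824) (W2 := 536870912) (P3 := 1046898278) (W3 := 26843546) (N0 := 3)
    rfl k0_pm_023

noncomputable def f_pm_033 : ℕ → ℕ → ℕ → ℕ → Bool := onCell 67108864 469762048 0 1230186008 1046898278 26843546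
    (rowNX 3 0 true true false .pnn 0 3 3 (qsf 67108864 469762048 0 1230186008 3) ndN1q0 ndN5q3 pcN3 Cut.none Ext.none)

def k0_pm_033 : ∃ t, chk3 f_pm_033 t 1 1 1 = true :=
  ⟨(b (l 4) (b (a (b (l 4) (a (a (b (l 4) (c (a (c (l 14949824) (l 14896152)) (l 15425584)) (a (l 14846736) (l 15443256)))) (l 4)) (l 4))) (l 2)) (a (b (a (a (b (a (c (l 14920560) (l 14846752)) (c (l 15488496) (l 15443256))) (a (c (l 14920576) (l 14846768)) (c (l 15488512) (l 15443280)))) (b (a (c (l 15762688) (l 15727072)) (b (l 4) (a (l 15938592) (l 16111840)))) (b (a (l 15744928) (l 16025816)) (l 15845328)))) (a (b (a (b (l 4) (l 50162770823)) (l 4)) (c (a (l 16376792) (b (l 16687328) (l 16688400))) (a (l 16362736) (b (l 16684016) (l 16685288))))) (b (l 4) (b (l 4) (a (l 16775856) (l 4)))))) (a (a (a (b (l 14888424) (l 14888424)) (c (l 15488520) (l 15443280))) (b (b (l 15887280) (l 15887280)) (l 15887280))) (b (a (b (a (l 16369784) (l 16686824)) (l 16530872)) (c (b (l 16775592) (l 16777184)) (b (l 16775536)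 (l 16777184)))) (a (a (l 16369808) (l 16686856)) (b (l 16777176) (l 16777208)))))) (b (l 4) (a (b (a (a (b (c (l 16767256) (l 16766816)) (l 16776552)) (b (l 4) (c (l 16768848) (l 16768552)))) (l 4)) (a (b (a (l 16777168) (l 16776448)) (l 16777168)) (b (a (c (l 16770776) (l 16770544)) (b (l 4) (l 16764072))) (a (l 16777184) (c (l 16773000) (l 16772848)))))) (b (l 4) (a (b (l 4) (a (b (l 4) (l 16766952)) (l 4))) (l 4)))))))), by decide +kernel⟩

theorem c_pm_033 : CertNX 67108864 469762048 0 1230186008 1046898278 26843546 3 true true false .pnn 0 3 3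
    ndN1q0 ndN5q3 pcN3 Cut.none Ext.none :=
  certNX0 (fam := true) (s1 := true) (s2 := false) (a := 0) (b := 3) (c := 3) (cn := .pnn) (n1 := ndN1q0) (n2 := ndN5q3) (pc := pcN3) (cut := Cut.none) (xt := Ext.none) (P1 := 67108864) (W1 := 469762048) (P2 := 0) (W2 := 1230186008) (P3 := 1046898278) (W3 := 26843546) (N0 := 3)
    rfl k0_pm_033

noncomputable def f_pm_101 : ℕ → ℕ → ℕ → ℕ → Bool := onCell 536870912 536870912 0 536870912 1046898278 26843546
    (rowNX 3 2 true true false .npn 1 0 1 (qsf 536870912 536870912 0 536870912 1) ndN1q1 ndN5q0 pcN1 Cut.none Ext.none)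

def k0_pm_101 : ∃ t, chk3 f_pm_101 t 1 1 1 = true :=
  ⟨(a (l 3) (a (l 3) (b (l 3) (l 3)))), by decide +kernel⟩

theorem c_pm_101 : CertNX 536870912 536870912 0 536870912 1046898278 26843546 3 true true false .npn 1 0 1
    ndN1q1 ndN5q0 pcN1 Cut.none Ext.none :=
  certNX2 (fam := true) (s1 := true) (s2 := false) (a := 1) (b := 0) (c := 1) (cn := .npn) (n1 := ndN1q1) (n2 := ndN5q0) (pc := pcN1) (cut := Cut.none) (xt := Ext.none) (P1 := 536870912) (W1 := 536870912) (P2 := 0) (W2 := 536870912) (P3 := 1046898278) (W3 := 26843546) (N0 := 3)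
    rfl (fun _ => rfl) k0_pm_101

noncomputable def f_pm_102 : ℕ → ℕ → ℕ → ℕ → Bool := onCell 536870912 536870912 1073741824 536870912 1046898278 26843546
    (rowNX 3 1 true true false .npp 1 0 2 (qsf 536870912 536870912 0 536870912 2) ndN1q1 ndN5q0 pcN2 Cut.none Ext.none)

def k0_pm_102 : ∃ t, chk3 f_pm_102 t 1 8 1 = true :=
  ⟨(a (b (b (l 3) (a (c (b (l 3) (c (b (l 3) (l 15692608)) (l 15647408))) (l 15579096)) (l 3))) (b (a (c (b (l 15580552) (l 15858240)) (b (l 15681288) (l 15820696))) (b (c (b (l 15711184) (l 15772064)) (l 15617216)) (c (l 15866968) (l 15829928)))) (a (b (l 15917400) (c (l 15972920) (l 15943112))) (b (c (l 15938232) (l 15903776)) (c (l 15972240) (l 15942416)))))) (a (b (l 3) (b (a (b (b (l 223503526135) (l 15770736)) (c (l 15880728) (l 15845336))) (b (a (b (l 15714624) (l 15795496)) (c (l 15760608) (l 15710616))) (c (a (l 15914944) (l 15917720)) (a (l 15884864) (l 15881160))))) (a (b (l 15930824) (l 16006792)) (b (a (l 15978864) (l 15993280)) (a (l 16019176)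 (b (l 16035688) (l 16054720))))))) (b (a (l 3) (l 3)) (a (b (b (b (a (l 15866168) (b (l 15843560) (l 15840792))) (c (l 15875144) (l 15892344))) (a (l 16011880) (l 15877720))) (b (a (l 16011528) (c (l 15883192) (l 15848304))) (a (l 15990072) (l 15831616)))) (b (a (b (b (c (l 15852176) (l 16012160)) (c (l 16005776) (l 15973608))) (c (l 15741272) (l 15913696))) (b (a (c (b (a (l 16064856) (l 16260168)) (a (l 16232912) (l 16271112))) (b (l 16192016) (l 16016376))) (c (b (l 16214592) (l 16263416)) (b (l 16216024) (l 16232536)))) (a (c (a (l 16171520) (b (l 16268616) (l 16225200))) (l 15914440)) (c (c (l 16299640) (l 16256664)) (l 16236152))))) (a (b (b (a (l 15793528) (l 15910664)) (a (l 15768176) (l 15836984))) (a (l 15730672) (l 15734128))) (b (a (c (b (l 16116464) (l 16042576)) (l 16051848)) (b (c (a (l 16214024) (l 16243392)) (l 16214256)) (a (l 16098520) (l 16198872)))) (a (l 15894784) (c (a (l 16053656) (l 15875760)) (l 16052056)))))))))), by decide +kernel⟩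

def k1_pm_102 : ∃ t, chk3 f_pm_102 t 2 9 1 = true :=
  ⟨(b (b (a (l 16128136) (a (l 16124112) (l 16117728))) (a (l 16434248) (l 16422536))) (a (b (l 16670088) (l 16590056)) (b (b (l 16645496) (l 16657032)) (l 16552272)))), by decide +kernel⟩

def k2_pm_102 : ∃ t, chk3 f_pm_102 t 3 18 1 = true :=
  ⟨(a (a (b (l 16121336) (l 16420080)) (b (a (l 16173728) (l 16179488)) (a (l 16445800) (l 16348392)))) (a (a (b (l 16034832) (l 16168720)) (b (l 15873904) (c (l 15845232) (b (l 15963784) (a (l 16077784) (c (l 16000776) (l 15976040))))))) (b (a (b (l 15714224) (l 15775912)) (a (l 15774264) (b (l 15971856) (l 15926416)))) (b (a (l 15849320) (c (a (l 15789440) (l 15886608)) (c (a (l 15763704) (l 15864072)) (a (l 15737056) (l 15759712))))) (c (a (l 15923024) (a (l 15830912) (c (l 15833000) (l 15816784)))) (a (c (a (l 15933992) (l 15874208)) (l 15733304)) (c (c (l 15813520) (a (l 15807752) (b (l 15806824) (l 15766472)))) (a (l 15802296) (c (l 15735096) (l 15784224)))))))))), by decide +kernel⟩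

def k3_pm_102 : ∃ t, chk3 f_pm_102 t 3 38 1 = true :=
  ⟨(a (a (b (l 16643240) (l 16646280)) (a (l 16592288) (b (l 16488776) (c (l 16477928) (c (l 16470264) (c (l 16454320) (l 16464192))))))) (c (a (b (a (l 16269320) (l 15969336)) (a (l 16195480) (l 16005952))) (b (a (c (l 15956832) (l 15940928)) (c (l 15617776) (b (l 15797200) (l 15774328)))) (c (a (l 15824288) (l 15641448)) (a (l 15807568) (c (l 15626744) (l 15600632)))))) (a (a (b (b (l 16246552) (c (l 16273320) (a (l 16313584) (l 16065416)))) (c (a (l 16258960) (l 16143040)) (c (a (l 16246176) (l 16134736)) (l 16198576)))) (b (c (b (l 16094064) (l 16110792)) (b (l 16072136) (b (l 16079408) (l 16074824)))) (c (c (l 15995560) (l 15957864)) (l 15985592)))) (b (a (c (c (l 15931808) (b (l 15925272) (b (l 15929400) (l 15905312)))) (b (l 15908960) (b (l 15931848) (l 15885416)))) (c (b (c (l 15784728) (a (l 15802624) (l 15640488))) (c (l 15601912) (c (l 15666216) (a (l 15791992) (l 15719200))))) (b (c (l 15702872) (l 15770504)) (a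 (c (l 15814176) (l 15778264)) (l 15697736))))) (a (c (c (l 15784568) (l 15616632)) (l 15673112)) (c (c (a (l 15644224) (l 15565928)) (a (l 15668136) (l 15564976))) (l 15581624))))))), by decide +kernel⟩

def k4_pm_102 : ∃ t, chk3 f_pm_102 t 3 39 1 = true :=
  ⟨(a (c (a (l 16496944) (a (l 16490912) (c (l 16362408) (l 16355992)))) (a (c (c (l 16500248) (l 16460768)) (a (l 16478104) (l 16492208))) (c (a (b (l 16524704) (l 16452640)) (a (l 16407656) (l 16045784))) (a (l 16485232) (a (l 16309640) (l 16277928)))))) (a (c (a (c (l 16030672) (l 16016312)) (c (l 15760208) (c (l 15746608) (l 15727304)))) (a (a (c (c (l 16089760) (l 16048568)) (l 16092808)) (c (c (l 15909272) (l 15768040)) (l 15762592))) (c (c (c (l 15716192) (l 15467784)) (b (l 15822744) (l 15669920))) (b (l 15838760) (l 15613456))))) (c (a (c (l 15534152) (c (l 15500296) (b (l 15591568) (l 15402656)))) (c (c (l 15317856) (b (l 15413968) (l 15177656))) (c (b (l 15385472) (l 15183160)) (b (l 15390944) (a (l 15238088) (l 15114744))))))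 (c (a (c (a (b (l 15639368) (l 15468040)) (c (l 15444112) (l 15241912))) (b (l 15480920) (l 15382440))) (c (b (c (l 15395600) (a (l 15438000) (l 15322336))) (l 15151216)) (l 15252472))) (a (l 15466504) (l 15232368)))))), by decide +kernel⟩

def k5_pm_102 : ∃ t, chk3 f_pm_102 t 2 10 1 = true :=
  ⟨(b (b (a (l 16440128) (a (l 16400896) (c (l 16348200) (c (l 16297664) (l 16324352))))) (a (l 2) (b (c (l 16231856) (a (l 16083984) (c (l 16192000) (l 16200936)))) (a (b (c (l 16217800) (l 16104160)) (c (l 16251360) (b (l 16186112) (l 16206776)))) (c (l 16149568) (c (l 16093384) (l 16137976))))))) (a (l 2) (c (b (a (l 16289304) (l 16153784)) (c (l 16365280) (l 16307512))) (b (a (l 16273048) (l 16205408)) (l 16359424))))), by decide +kernel⟩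

def k6_pm_102 : ∃ t, chk3 f_pm_102 t 6 20 1 = true :=
  ⟨(c (b (a (a (l 16314296) (l 16272960)) (c (l 16241824) (a (l 16267048) (l 16153032)))) (a (b (l 16118728) (c (l 16084680) (l 16073072))) (c (b (l 16093136) (l 16062064)) (b (a (l 16089624) (l 16018536)) (a (l 16041688) (c (l 16005920) (l 16014608))))))) (b (a (c (a (l 16285928) (l 16204192)) (a (l 16301192) (l 16269832))) (a (c (l 16042776) (l 16296672)) (c (a (l 16027592) (c (l 15974128) (l 16101792))) (b (l 16142048) (l 16089752))))) (a (b (c (l 16083024) (l 16133912)) (c (b (l 16059120) (l 16091320)) (l 16099552))) (b (c (a (l 16122568) (c (l 16034096) (l 16077632))) (l 16079688)) (c (a (l 15921336) (a (l 16010816) (l 15936280))) (l 16046480)))))), by decide +kernel⟩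

def k7_pm_102 : ∃ t, chk3 f_pm_102 t 7 20 1 = true :=
  ⟨(b (a (c (c (a (l 15794432) (l 15420512)) (a (c (l 15782048) (l 15759776)) (c (l 15398840) (a (l 15470472) (l 15331400))))) (a (c (c (c (l 15763744) (l 15632016)) (l 15651056)) (l 15744040)) (c (c (a (b (l 15542416) (l 15393688)) (l 15190120)) (l 15192808)) (l 15359048)))) (c (a (c (c (l 15143912) (l 15092272)) (c (l 14910184) (b (l 15229904) (l 15022120)))) (c (c (a (l 14942816) (l 14824456)) (b (l 14982936) (l 14784120))) (a (c (l 14943312) (l 14906040)) (l 14775472)))) (a (l 15080928) (l 14793960)))) (a (b (c (c (a (l 15664312) (c (l 15247256) (l 15232584))) (c (a (l 15642224) (l 15236320)) (a (l 15648888) (l 15222856)))) (a (c (a (l 15809376) (l 15515840)) (l 15609056)) (l 15178192))) (c (c (a (l 15641136) (b (c (l 15213872) (l 15212760)) (l 15240568))) (a (c (l 15642728) (l 15638400)) (c (a (l 15318832) (l 15097296)) (l 15191928)))) (l 15361768))) (c (a (c (b (c (l 14938704) (l 14938768)) (c (b (l 14905784) (l 14911952))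 (l 14881744))) (l 14875320)) (b (c (c (l 14666352) (l 14629832)) (l 14600392)) (l 14588296))) (b (l 14504384) (l 14528184))))), by decide +kernel⟩

def k8_pm_102 : ∃ t, chk3 f_pm_102 t 3 21 1 = true :=
  ⟨(a (a (c (b (c (l 16157368) (l 16082424)) (c (l 16279176) (l 16316848))) (b (l 15992320) (l 16323480))) (c (b (c (a (l 16134192) (l 16077144)) (a (l 16165176) (c (l 16089848) (l 16016256)))) (a (l 16339584) (c (l 16210816) (l 16197272)))) (b (a (l 16199656) (l 16069784)) (l 16267288)))) (a (c (b (a (c (l 15691480) (c (l 15735080) (l 15707320))) (c (c (l 15333976) (l 15326672)) (l 15285264))) (a (c (l 15875848) (l 15847608)) (l 15457704))) (b (l 15466352) (l 15617248))) (b (a (c (l 14925632) (l 14857144)) (c (l 14647376) (l 14568376))) (c (a (l 15066312) (l 14778048)) (a (l 15002736) (l 14703888)))))), by decide +kernel⟩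

def k9_pm_102 : ∃ t, chk3 f_pm_102 t 1 11 1 = true :=
  ⟨(a (a (l 2) (b (c (b (l 16487144) (l 16669952)) (l 16592904)) (l 45734873639))) (b (a (a (c (b (l 16483384) (l 16674824)) (l 16546368)) (b (c (c (l 16331624) (l 16406096)) (l 16399296)) (l 16554520))) (a (b (c (l 15838168) (l 15803448)) (c (l 16047456) (l 16020752))) (b (c (a (l 15281616) (l 14975152)) (l 14968576)) (c (a (l 15553128) (l 15250304)) (l 15353016))))) (a (a (l 16762272) (l 16647488)) (a (c (l 16180000) (l 16159032)) (b (c (l 15581136) (l 15539144)) (l 15561248)))))), by decide +kernel⟩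

def k10_pm_102 : ∃ t, chk3 f_pm_102 t 1 3 1 = true :=
  ⟨(a (b (c (l 58619592711) (l 16777216)) (l 2)) (a (b (b (a (l 16762416) (l 16647760)) (c (l 16699936) (l 16697224))) (l 16698584)) (b (b (a (l 16169936) (l 15561248)) (l 15738344)) (l 15864176)))), by decide +kernel⟩

theorem s11_pm_102 : ∃ t, chk3 f_pm_102 t 3 20 1 = true := ex3_a k6_pm_102 k7_pm_102

theorem s12_pm_102 : ∃ t, chk3 f_pm_102 t 3 10 1 = true := ex3_b s11_pm_102 k8_pm_102

theorem s13_pm_102 : ∃ t, chk3 f_pm_102 t 1 10 1 = true := ex3_a k5_pm_102 s12_pm_102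

theorem s14_pm_102 : ∃ t, chk3 f_pm_102 t 1 5 1 = true := ex3_b s13_pm_102 k9_pm_102

theorem s15_pm_102 : ∃ t, chk3 f_pm_102 t 3 19 1 = true := ex3_b k3_pm_102 k4_pm_102

theorem s16_pm_102 : ∃ t, chk3 f_pm_102 t 3 9 1 = true := ex3_b k2_pm_102 s15_pm_102

theorem s17_pm_102 : ∃ t, chk3 f_pm_102 t 1 9 1 = true := ex3_a k1_pm_102 s16_pm_102

theorem s18_pm_102 : ∃ t, chk3 f_pm_102 t 1 4 1 = true := ex3_b k0_pm_102 s17_pm_102

theorem s19_pm_102 : ∃ t, chk3 f_pm_102 t 1 2 1 = true := ex3_b s18_pm_102 s14_pm_102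

theorem s20_pm_102 : ∃ t, chk3 f_pm_102 t 1 1 1 = true := ex3_b s19_pm_102 k10_pm_102

theorem c_pm_102 : CertNX 536870912 536870912 0 536870912 1046898278 26843546 3 true true false .npp 1 0 2
    ndN1q1 ndN5q0 pcN2 Cut.none Ext.none :=
  certNX1 (fam := true) (s1 := true) (s2 := false) (a := 1) (b := 0) (c := 2) (cn := .npp) (n1 := ndN1q1) (n2 := ndN5q0) (pc := pcN2) (cut := Cut.none) (xt := Ext.none) (P1 := 536870912) (W1 := 536870912) (P2 := 0) (W2 := 536870912) (P3 := 1046898278) (W3 := 26843546) (N0 := 3)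
    rfl (fun _ => rfl) s20_pm_102

noncomputable def f_pm_112 : ℕ → ℕ → ℕ → ℕ → Bool := onCell 1073741824 536870912 536870912 469762048 1046898278 26843546
    (rowNX 3 2 true true false .dn 1 1 2 (qsf 536870912 536870912 536870912 469762048 2) ndN1q1 ndN5q1 pcN2 Cut.none Ext.none)

def k0_pm_112 : ∃ t, chk3 f_pm_112 t 1 1 1 = true :=
  ⟨(a (a (b (a (b (a (a (l 3) (a (l 3) (a (l 3) (c (l 15531992) (l 15631552))))) (a (a (c (l 15728432) (l 15682208)) (l 15829136)) (a (l 15910544) (l 15954864)))) (l 1)) (a (b (a (l 16126072) (l 16434264)) (l 1)) (a (a (l 16618736) (l 16681960)) (l 16595264)))) (l 1)) (b (a (a (a (b (l 16431456) (l 16466488)) (b (a (l 16303120) (b (a (c (l 16234232) (l 16181832)) (c (l 16183600) (l 16218376))) (a (l 16261008) (l 16277952)))) (a (l 16346264) (a (l 16292424) (l 165388353063))))) (c (b (a (l 16310600) (l 16391632)) (a (l 16351976) (l 16460240))) (b (a (l 16284528) (l 16413376)) (c (l 156261879767) (l 16396488))))) (a (c (b (l 16350056) (b (l 16606040)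 (l 16648112))) (b (l 16599768) (l 16527432))) (c (l 16776952) (l 16776944)))) (a (l 1) (b (b (a (c (l 16652000) (l 16649056)) (l 16776960)) (l 1)) (l 1))))) (b (a (a (b (l 16772056) (l 16777216)) (b (a (l 16752088) (l 16704304)) (l 16777216))) (b (a (b (l 16389688) (l 16675248)) (l 16073344)) (a (l 16765760) (l 16683256)))) (b (a (b (a (l 16777216) (l 16777216)) (a (b (l 16513848) (l 15871072)) (a (l 16104192) (l 16230016)))) (b (l 16777208) (b (l 16576760) (l 15871072)))) (b (a (a (l 1) (b (l 14886864) (l 14301168))) (b (l 15096576) (l 14301168))) (a (l 1) (b (b (l 13684552) (l 13428464)) (c (l 13750936) (l 13637824)))))))), by decide +kernel⟩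

theorem c_pm_112 : CertNX 536870912 536870912 536870912 469762048 1046898278 26843546 3 true true false .dn 1 1 2
    ndN1q1 ndN5q1 pcN2 Cut.none Ext.none :=
  certNX2 (fam := true) (s1 := true) (s2 := false) (a := 1) (b := 1) (c := 2) (cn := .dn) (n1 := ndN1q1) (n2 := ndN5q1) (pc := pcN2) (cut := Cut.none) (xt := Ext.none) (P1 := 536870912) (W1 := 536870912) (P2 := 536870912) (W2 := 469762048) (P3 := 1046898278) (W3 := 26843546) (N0 := 3)
    rfl (fun _ => rfl) k0_pm_112

noncomputable def f_pm_113 : ℕ → ℕ → ℕ → ℕ → Bool := onCell 1610612736 536870912 536870912 469762048 1046898278 26843546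
    (rowNX 3 2 true true false .nn 1 1 3 (qsf 536870912 536870912 536870912 469762048 3) ndN1q1 ndN5q1 pcN3 Cut.none Ext.none)

def k0_pm_113 : ∃ t, chk3 f_pm_113 t 1 1 1 = true :=
  ⟨(b (a (a (b (a (l 15297816) (b (l 2) (l 15194416))) (a (l 16416200) (l 15812568))) (b (l 2) (a (b (l 15133864) (l 15602792)) (b (l 2) (l 14929568))))) (l 2)) (a (b (a (b (l 16643592) (b (l 16548696) (l 15860568))) (a (b (l 16130176) (l 15901696)) (b (l 15530632) (l 15541472)))) (b (a (b (l 15095080) (l 14301168)) (a (b (l 15038544) (l 14276440)) (b (l 14781456) (l 14139408)))) (a (b (l 13557320) (l 13693848)) (a (b (l 13551816) (l 13693848)) (b (l 13485472) (l 13661536)))))) (a (b (b (a (l 306113070247) (l 2)) (a (a (l 15099216) (l 14825208)) (l 4))) (b (a (b (l 14273824) (l 13730176)) (b (l 4) (l 57672985063))) (a (b (a (l 13325824) (l 13093216)) (l 13416320)) (a (b (l 12868880) (l 13209416)) (l 4))))) (a (b (l 2) (l 4)) (l 4))))), by decide +kernel⟩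

theorem c_pm_113 : CertNX 536870912 536870912 536870912 469762048 1046898278 26843546 3 true true false .nn 1 1 3
    ndN1q1 ndN5q1 pcN3 Cut.none Ext.none :=
  certNX2 (fam := true) (s1 := true) (s2 := false) (a := 1) (b := 1) (c := 3) (cn := .nn) (n1 := ndN1q1) (n2 := ndN5q1) (pc := pcN3) (cut := Cut.none) (xt := Ext.none) (P1 := 536870912) (W1 := 536870912) (P2 := 536870912) (W2 := 469762048) (P3 := 1046898278) (W3 := 26843546) (N0 := 3)
    rfl (fun _ => rfl) k0_pm_113

noncomputable def f_pm_123 : ℕ → ℕ → ℕ → ℕ → Bool := onCell 1610612736 536870912 1073741824 536870912 1046898278 26843546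
    (rowNX 3 2 true true false .npn 1 2 3 (qsf 536870912 536870912 1073741824 536870912 3) ndN1q1 ndN5q2 pcN3 Cut.none Ext.none)

def k0_pm_123 : ∃ t, chk3 f_pm_123 t 2 1 1 = true :=
  ⟨(a (b (b (b (l 15438360) (a (l 14772512) (l 14772512))) (b (b (b (l 14377320) (l 1)) (l 1)) (l 1))) (l 1)) (b (b (b (a (l 15522248) (l 15522248)) (l 14541824)) (b (b (b (l 14377320) (l 14597512)) (l 15362176)) (b (l 16304928) (l 16776552)))) (l 16777216))), by decide +kernel⟩

def k1_pm_123 : ∃ t, chk3 f_pm_123 t 3 1 1 = true :=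
  ⟨(a (b (b (b (a (l 15517424) (b (l 15665584) (l 15304432))) (a (l 14772528) (l 14771320))) (b (b (b (l 14377368) (l 14597560)) (l 15341256)) (b (l 16304976) (l 16776600)))) (a (l 16777200) (c (l 16777160) (l 16777160)))) (a (b (b (a (b (b (a (l 15587464) (l 15530984)) (l 15288736)) (b (l 14944608) (l 14610128))) (b (a (l 15448048) (l 15489640)) (l 14833568))) (b (b (a (l 14490016) (b (l 14420584) (l 14634144))) (a (l 15363624) (l 15394120))) (a (b (l 16306264) (l 16775360)) (b (l 16330376) (l 16746960))))) (a (b (l 16776168) (l 16776656)) (c (l 16767400) (l 16745360)))) (a (a (b (b (b (a (l 15467608) (l 15462016)) (l 14885656)) (b (b (l 14546080) (l 15394120)) (b (l 16323504) (l 16749048)))) (l 16777992)) (b (b (b (b (l 15675920) (l 15551952)) (b (l 15156984) (l 14719704))) (b (b (b (l 14453776) (l 14656176)) (l 15269248)) (b (l 16315288) (l 16754040)))) (b (l 16751528) (l 4)))) (b (a (b (b (b (l 16081184) (l 15800784)) (a (b (l 15287832) (l 14777336)) (b (l 15407248) (l 14831264))))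 (b (b (b (l 14482904) (l 14679632)) (l 15310728)) (b (c (l 16274184) (l 16247992)) (l 16701312)))) (a (b (b (c (a (l 15867400) (l 16014344)) (b (l 15988872) (l 15988688))) (a (c (l 15216128) (l 15163888)) (l 15065128))) (b (b (b (l 14471184) (l 14652944)) (l 4)) (l 4))) (b (a (b (c (l 16046152) (b (l 16039208) (l 16227728))) (l 15091808)) (b (a (b (l 16095696) (l 16219312)) (b (a (l 16328784) (a (l 16342368) (l 4))) (l 4))) (l 4))) (l 4)))) (a (b (l 4) (l 4)) (l 4)))))), by decide +kernel⟩

theorem s2_pm_123 : ∃ t, chk3 f_pm_123 t 1 1 1 = true := ex3_a k0_pm_123 k1_pm_123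

theorem c_pm_123 : CertNX 536870912 536870912 1073741824 536870912 1046898278 26843546 3 true true false .npn 1 2 3
    ndN1q1 ndN5q2 pcN3 Cut.none Ext.none :=
  certNX2 (fam := true) (s1 := true) (s2 := false) (a := 1) (b := 2) (c := 3) (cn := .npn) (n1 := ndN1q1) (n2 := ndN5q2) (pc := pcN3) (cut := Cut.none) (xt := Ext.none) (P1 := 536870912) (W1 := 536870912) (P2 := 1073741824) (W2 := 536870912) (P3 := 1046898278) (W3 := 26843546) (N0 := 3)
    rfl (fun _ => rfl) s2_pm_123

noncomputable def f_pm_133 : ℕ → ℕ → ℕ → ℕ → Bool := onCell 536870912 536870912 0 1230186008 1046898278 26843546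
    (rowNX 3 0 true true false .dn 1 3 3 (qsf 536870912 536870912 0 1230186008 3) ndN1q1 ndN5q3 pcN3 Cut.none Ext.none)

def k0_pm_133 : ∃ t, chk3 f_pm_133 t 1 1 1 = true :=
  ⟨(b (l 2) (b (l 2) (l 4))), by decide +kernel⟩

theorem c_pm_133 : CertNX 536870912 536870912 0 1230186008 1046898278 26843546 3 true true false .dn 1 3 3
    ndN1q1 ndN5q3 pcN3 Cut.none Ext.none :=
  certNX0 (fam := true) (s1 := true) (s2 := false) (a := 1) (b := 3) (c := 3) (cn := .dn) (n1 := ndN1q1) (n2 := ndN5q3) (pc := pcN3) (cut := Cut.none) (xt := Ext.none) (P1 := 536870912) (W1 := 536870912) (P2 := 0) (W2 := 1230186008) (P3 := 1046898278) (W3 := 26843546) (N0 := 3)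
    rfl k0_pm_133

noncomputable def f_pm_202_a : ℕ → ℕ → ℕ → ℕ → Bool := onCell 0 420477299 0 536870912 1046898278 26843546
    (rowNX 3 0 true true false .pp 2 0 2 (qsf 0 420477299 0 536870912 2) ndN1q2a ndN5q0 pcN2 Cut.none Ext.none)

def k0_pm_202_a : ∃ t, chk3 f_pm_202_a t 2 8 1 = true :=
  ⟨(a (b (b (c (b (a (l 16117856) (l 16195648)) (b (a (l 16001432) (l 16013272)) (c (l 15912680) (l 15829256)))) (b (c (a (l 15940544) (b (l 16273160) (l 16194840))) (c (b (l 16071936) (l 16143856)) (a (l 16032272) (l 16115296)))) (c (a (l 15956368) (l 16053800)) (l 15984448)))) (c (a (b (c (l 15776840) (l 15780160)) (l 15640304)) (b (c (l 15865240) (l 15870272)) (l 15720216))) (a (l 15684088) (l 15833024)))) (b (a (c (b (l 15544960) (l 15458528)) (l 15500688)) (c (l 15553544) (l 15556448))) (a (c (l 15351584) (l 15312480)) (c (b (l 15398368) (l 15299712)) (l 15309176))))) (b (b (b (a (c (l 16277944) (c (b (l 16375096) (l 16322784)) (b (c (l 16365208) (l 16275560)) (l 16385624)))) (c (a (b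 (a (l 16267088) (l 16218288)) (l 16308104)) (b (l 16214912) (a (l 16165544) (b (l 16165496) (l 16159256))))) (b (a (c (l 16064688) (b (a (l 16190472) (l 16063048)) (c (l 16209248) (l 16205408)))) (c (l 16157288) (b (l 16169008) (a (l 16049104) (l 16150336))))) (a (c (l 16293248) (l 16287176)) (c (b (a (l 16161976) (l 16138408)) (l 16032928)) (a (l 16139296) (b (l 16132072) (l 16138800)))))))) (c (b (a (l 16111856) (c (l 16258800) (l 16263568))) (a (c (l 16215864) (l 16157608)) (c (l 16427288) (l 16426704)))) (a (c (l 16156000) (l 16260544)) (c (l 16169488) (l 16336608))))) (c (a (b (c (l 15996344) (l 16046640)) (l 15888736)) (b (c (l 16113264) (l 16189528)) (c (l 16103080) (l 16175592)))) (a (l 15885424) (c (l 16112704) (l 16269552))))) (b (c (a (l 15690464) (l 15747064)) (a (l 15720472) (l 15975296))) (c (a (l 15458920) (l 15499000)) (a (l 15445704) (l 15683376)))))), by decide +kernel⟩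

def k1_pm_202_a : ∃ t, chk3 f_pm_202_a t 2 9 1 = true :=
  ⟨(b (a (b (a (b (l 15325096) (l 15513592)) (b (a (l 15255288) (b (l 15234408) (l 15245072))) (l 15397144))) (l 15767832)) (b (a (b (l 15341280) (a (b (l 15311288) (l 15385992)) (l 15330608))) (b (l 15561976) (l 15545072))) (a (l 15636248) (b (a (l 15540056) (l 15608160)) (l 15712024))))) (a (l 16102928) (a (b (l 15988456) (l 16161760)) (b (l 15950952) (l 16102312))))), by decide +kernel⟩

def k2_pm_202_a : ∃ t, chk3 f_pm_202_a t 6 8 1 = true :=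
  ⟨(b (b (b (c (a (a (l 16167472) (l 16303112)) (l 16292984)) (b (c (l 16111456) (a (b (l 16208768) (l 16174352)) (c (l 16441328) (l 16288488)))) (a (a (c (l 16170864) (l 16162072)) (c (l 16243912) (l 16236272))) (c (l 16276656) (l 16376072))))) (a (c (a (b (b (c (l 16150376) (l 16059424)) (a (l 16164456) (l 16133624))) (b (a (l 16217136) (l 16039864)) (l 16239176))) (b (l 16197136) (b (l 16158984) (a (l 16123048) (l 16165832))))) (c (a (b (a (l 16012744) (l 16146264)) (l 16097656)) (b (l 16197352) (l 16127032))) (a (b (a (l 16132216) (l 16118432)) (l 16128528)) (l 16019024)))) (c (c (b (l 16280160) (l 16273656)) (b (l 16305736) (l 16291936))) (c (b (l 16331832) (l 16270904)) (l 16273024))))) (a (b (c (a (c (l 16343480) (l 16369424)) (a (b (c (l 16201128) (l 16173896)) (l 16296912)) (b (c (l 16160672) (l 16111600)) (l 16076496)))) (a (l 16322592) (b (a (l 16139040) (l 16033040)) (l 16117976)))) (c (l 16223080) (l 16247864))) (b (c (a (b (l 16196328) (a (c (l 16024832) (l 16134656))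 (l 16168616))) (l 16133208)) (a (b (l 16138976) (a (l 16014496) (l 16094528))) (l 16200624))) (a (c (b (a (l 16195192) (l 15990432)) (l 16225736)) (b (a (l 16119880) (l 16037880)) (l 16160168))) (b (c (l 16177176) (l 16098976)) (a (c (l 16110824) (l 16039688)) (l 16093552))))))) (a (b (c (c (l 16133576) (l 16089824)) (l 16162384)) (c (c (l 15883312) (l 16033160)) (l 16016536))) (b (a (c (l 16206352) (l 16315184)) (b (a (c (l 16186936) (l 16132816)) (c (b (l 16082624) (l 16111360)) (b (l 16019936) (l 16060944)))) (c (l 16256008) (l 16265648)))) (c (b (l 16301896) (l 16197840)) (l 16270416))))), by decide +kernel⟩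

def k3_pm_202_a : ∃ t, chk3 f_pm_202_a t 7 8 1 = true :=
  ⟨(b (b (a (c (b (b (l 16445360) (l 16360120)) (c (b (l 16405048) (l 16393888)) (b (l 16475224) (l 16436400)))) (b (c (b (l 16479344) (a (l 16529872) (l 16543704))) (b (c (l 16363144) (b (l 16349032) (l 16511688))) (l 16366552))) (c (a (l 16441264) (l 16451040)) (l 16422816)))) (c (b (a (l 16485128) (l 16501544)) (c (b (l 16404152) (l 16390624)) (b (l 16452840) (l 16412480)))) (b (c (b (l 16467120) (a (l 16536152) (l 16502176))) (a (b (c (l 16561464) (l 16462176)) (l 16532408)) (b (c (l 16568280) (l 16520216)) (l 16497408)))) (c (a (l 16439552) (l 16387344)) (a (l 16414160) (l 16381448)))))) (a (c (b (c (l 16196320) (a (l 16321200) (l 16347000))) (l 16057720)) (a (l 16116488) (l 16200848))) (c (b (c (l 16209080) (l 16188352)) (l 16057392)) (a (l 16179152) (l 16101112))))) (a (b (a (b (c (a (b (l 16105272) (l 15991232)) (l 16084464)) (a (l 16003592) (l 16024440))) (a (c (l 15950608) (l 16078496)) (c (b (l 15990136) (l 15916216))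 (b (l 15942608) (l 15960136))))) (c (b (l 16070496) (a (l 15936632) (l 15917928))) (l 15733848))) (a (c (c (b (l 16194472) (l 16341104)) (l 16138032)) (l 16086056)) (b (b (a (c (l 15688384) (l 15859896)) (l 15643616)) (a (l 15946040) (c (l 15602216) (l 15753160)))) (c (l 15887840) (l 15965688))))) (b (c (a (l 15967368) (l 15920632)) (l 15880344)) (a (b (l 15660024) (a (b (c (l 15680824) (l 15642192)) (c (l 15707984) (l 15671888))) (c (l 15602296) (l 15560496)))) (c (l 15619320) (l 15572320)))))), by decide +kernel⟩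

def k4_pm_202_a : ∃ t, chk3 f_pm_202_a t 3 9 1 = true :=
  ⟨(a (b (a (b (c (l 15873128) (l 15842808)) (a (b (l 15740048) (l 15721056)) (l 15899128))) (b (a (l 16151128) (l 16362808)) (l 16199872))) (a (b (b (a (l 15894112) (l 15868544)) (l 15995136)) (l 16086528)) (b (a (b (l 16059400) (l 16026944)) (l 16172432)) (a (l 16085200) (b (l 16090256) (l 16114416)))))) (b (a (b (a (b (l 16339200) (l 16597216)) (c (l 16176232) (l 16158072))) (a (l 16573208) (l 16281160))) (b (a (a (l 15828752) (b (c (l 15570168) (l 15529464)) (l 15632016))) (b (a (b (l 15417792) (l 15349848)) (l 15321016)) (a (l 15370448) (b (l 15168688) (l 15132888))))) (a (l 15893328) (l 15371552)))) (a (a (b (l 16461800) (b (l 16259848) (a (l 16126344) (l 16208584)))) (b (l 16409472) (l 16525352))) (a (b (l 16053376) (l 16363800)) (b (l 15584864) (l 15932432)))))), by decide +kernel⟩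

def k5_pm_202_a : ∃ t, chk3 f_pm_202_a t 1 5 1 = true :=
  ⟨(a (b (b (a (l 16392608) (a (l 16349080) (l 16302872))) (a (l 16508312) (l 16516344))) (b (a (l 16675576) (l 16676488)) (l 16776712))) (a (b (b (a (l 16276848) (l 16265096)) (a (l 16495336) (l 16483096))) (b (a (l 16680928) (l 16677360)) (l 16772672))) (b (a (b (a (l 16276816) (b (b (a (l 16273488) (l 16401800)) (l 16334056)) (l 16414784))) (l 16524312)) (b (a (b (b (l 16671392) (l 16391632)) (l 16387888)) (b (l 16188728) (b (l 16381512) (a (l 16649568) (l 16523192))))) (a (l 16659544) (l 16543264)))) (a (b (l 16715760) (l 16706536)) (b (l 16475096) (l 16393192)))))), by decide +kernel⟩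

def k6_pm_202_a : ∃ t, chk3 f_pm_202_a t 1 3 1 = true :=
  ⟨(a (b (b (a (c (l 16777120) (l 16777112)) (l 16776040)) (c (l 16776592) (l 16776568))) (l 2)) (b (a (b (l 16772600) (l 16772600)) (a (b (l 16707520) (l 16707520)) (b (b (l 16392936) (l 16393072)) (l 16393072)))) (b (a (c (l 16772680) (l 16772528)) (a (l 16707520) (l 16393072))) (a (l 2) (a (l 2) (l 16393072)))))), by decide +kernel⟩

theorem s7_pm_202_a : ∃ t, chk3 f_pm_202_a t 3 8 1 = true := ex3_a k2_pm_202_a k3_pm_202_a

theorem s8_pm_202_a : ∃ t, chk3 f_pm_202_a t 3 4 1 = true := ex3_b s7_pm_202_a k4_pm_202_a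

theorem s9_pm_202_a : ∃ t, chk3 f_pm_202_a t 2 4 1 = true := ex3_b k0_pm_202_a k1_pm_202_a

theorem s10_pm_202_a : ∃ t, chk3 f_pm_202_a t 1 4 1 = true := ex3_a s9_pm_202_a s8_pm_202_a

theorem s11_pm_202_a : ∃ t, chk3 f_pm_202_a t 1 2 1 = true := ex3_b s10_pm_202_a k5_pm_202_a

theorem s12_pm_202_a : ∃ t, chk3 f_pm_202_a t 1 1 1 = true := ex3_b s11_pm_202_a k6_pm_202_a

theorem c_pm_202_a : CertNX 0 420477299 0 536870912 1046898278 26843546 3 true true false .pp 2 0 2
    ndN1q2a ndN5q0 pcN2 Cut.none Ext.none :=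
  certNX0 (fam := true) (s1 := true) (s2 := false) (a := 2) (b := 0) (c := 2) (cn := .pp) (n1 := ndN1q2a) (n2 := ndN5q0) (pc := pcN2) (cut := Cut.none) (xt := Ext.none) (P1 := 0) (W1 := 420477299) (P2 := 0) (W2 := 536870912) (P3 := 1046898278) (W3 := 26843546) (N0 := 3)
    rfl s12_pm_202_a

noncomputable def f_pm_202_b : ℕ → ℕ → ℕ → ℕ → Bool := onCell 1073741824 536870912 0 536870912 1046898278 26843546
    (rowNX 3 2 true true false .pp 2 0 2 (qsf 1239849684 370763052 0 536870912 2) ndN1q2b ndN5q0 pcN2 Cut.none Ext.none)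

def k0_pm_202_b : ∃ t, chk3 f_pm_202_b t 2 1 1 = true :=
  ⟨(a (l 1) (b (b (b (a (b (a (a (l 1) (a (l 1) (b (b (b (b (c (l 16230872) (l 16190432)) (l 1)) (l 1)) (l 1)) (l 1)))) (b (c (b (a (l 15871112) (l 15488736)) (c (b (l 344702231607) (l 15657856)) (b (l 15611000) (l 15592112)))) (b (c (b (l 15688904) (l 386041085895)) (b (c (l 15583872) (l 15456584)) (l 15553008))) (c (l 371008823735) (l 15722816)))) (a (b (c (l 336649584455) (l 16032536)) (l 1)) (c (b (c (l 15609048) (l 15609128)) (l 15697216)) (l 15687272))))) (a (l 1) (a (l 1) (b (b (l 348997180839) (l 1)) (l 1))))) (b (a (b (c (b (l 14825472) (c (b (l 14976992) (l 15005880)) (b (l 14934664) (l 14944928)))) (b (c (b (l 14819584) (l 14867288)) (b (l 14800456) (l 14837848))) (c (l 14917808) (l 14912888)))) (c (b (c (l 15018464) (l 15006904)) (l 15111224)) (l 15073032))) (b (c (b (l 14466904) (c (l 14610728) (l 14561224))) (b (c (l 14428952) (b (l 14376256) (l 14426656))) (l 14511112))) (c (b (l 14644304) (l 14737544)) (l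 14683512)))) (a (c (b (l 102035526087) (l 369397639783)) (l 102035687911)) (c (b (l 14927416) (l 15161472)) (l 15005760))))) (a (l 1) (b (a (b (c (l 15658016) (l 15773648)) (l 1)) (b (l 15459608) (l 15874832))) (a (l 1) (l 16143088))))) (l 1)) (l 1))), by decide +kernel⟩

def k1_pm_202_b : ∃ t, chk3 f_pm_202_b t 3 1 1 = true :=
  ⟨(b (b (a (b (b (a (b (c (b (l 14487608) (l 14587944)) (b (c (l 14450400) (l 14422840)) (l 14515968))) (c (l 14685064) (l 14668824))) (b (c (l 14486192) (b (l 14392776) (l 14462640))) (c (l 14618008) (l 14598808)))) (a (c (b (l 14889192) (l 15100464)) (l 14954432)) (c (l 14891040) (l 14853112)))) (b (a (c (l 15446208) (l 15551600)) (c (l 15458728) (l 15411824))) (a (a (l 16247440) (l 16140344)) (l 16025440)))) (b (b (c (b (a (l 14483176) (l 14483176)) (l 14614280)) (b (c (l 14443648) (l 14416816)) (l 14594904))) (c (l 14886328) (l 14848176))) (b (a (l 15430744) (l 15430744)) (a (l 16018240) (l 16018240))))) (a (a (b (a (b (l 16543096) (l 1)) (l 16486712))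 (l 1)) (b (a (l 16371728) (l 16376120)) (a (b (l 16694992) (l 1)) (l 16726816)))) (a (b (l 16376120) (c (l 16727752) (l 16726016))) (b (l 16376120) (l 16726952))))) (a (l 1) (b (a (b (a (l 586833075351) (l 16776936)) (l 1)) (l 4)) (l 1)))), by decide +kernel⟩

theorem s2_pm_202_b : ∃ t, chk3 f_pm_202_b t 1 1 1 = true := ex3_a k0_pm_202_b k1_pm_202_b

theorem c_pm_202_b : CertNX 1239849684 370763052 0 536870912 1046898278 26843546 3 true true false .pp 2 0 2
    ndN1q2b ndN5q0 pcN2 Cut.none Ext.none :=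
  certNX2 (fam := true) (s1 := true) (s2 := false) (a := 2) (b := 0) (c := 2) (cn := .pp) (n1 := ndN1q2b) (n2 := ndN5q0) (pc := pcN2) (cut := Cut.none) (xt := Ext.none) (P1 := 1239849684) (W1 := 370763052) (P2 := 0) (W2 := 536870912) (P3 := 1046898278) (W3 := 26843546) (N0 := 3)
    rfl (fun _ => rfl) s2_pm_202_b

noncomputable def f_pm_203_a : ℕ → ℕ → ℕ → ℕ → Bool := onCell 0 420477299 1610612736 536870912 1046898278 26843546
    (rowNX 3 1 true true false .up 2 0 3 (qsf 0 420477299 0 536870912 3) ndN1q2a ndN5q0 pcN3 Cut.none Ext.none)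

def k0_pm_203_a : ∃ t, chk3 f_pm_203_a t 1 1 1 = true :=
  ⟨(b (b (c (a (l 16776592) (a (l 16772680) (b (l 16556120) (l 16556120)))) (a (l 16776568) (a (l 16772528) (b (l 16548336) (l 16548336))))) (l 4)) (l 2)), by decide +kernel⟩

theorem c_pm_203_a : CertNX 0 420477299 0 536870912 1046898278 26843546 3 true true false .up 2 0 3
    ndN1q2a ndN5q0 pcN3 Cut.none Ext.none :=
  certNX1 (fam := true) (s1 := true) (s2 := false) (a := 2) (b := 0) (c := 3) (cn := .up) (n1 := ndN1q2a) (n2 := ndN5q0) (pc := pcN3) (cut := Cut.none) (xt := Ext.none) (P1 := 0) (W1 := 420477299) (P2 := 0) (W2 := 536870912) (P3 := 1046898278) (W3 := 26843546) (N0 := 3)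
    rfl (fun _ => rfl) k0_pm_203_a

noncomputable def f_pm_203_b : ℕ → ℕ → ℕ → ℕ → Bool := onCell 1610612736 536870912 0 536870912 1046898278 26843546
    (rowNX 3 2 true true false .up 2 0 3 (qsf 1239849684 370763052 0 536870912 3) ndN1q2b ndN5q0 pcN3 Cut.none Ext.none)

def k0_pm_203_b : ∃ t, chk3 f_pm_203_b t 1 1 1 = true :=
  ⟨(b (a (a (b (a (b (b (c (l 14493744) (l 14507952)) (l 14863840)) (b (l 15430744) (l 16018240))) (b (b (l 2) (l 14863840)) (l 4))) (l 4)) (l 4)) (l 4)) (l 4)), by decide +kernel⟩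

theorem c_pm_203_b : CertNX 1239849684 370763052 0 536870912 1046898278 26843546 3 true true false .up 2 0 3
    ndN1q2b ndN5q0 pcN3 Cut.none Ext.none :=
  certNX2 (fam := true) (s1 := true) (s2 := false) (a := 2) (b := 0) (c := 3) (cn := .up) (n1 := ndN1q2b) (n2 := ndN5q0) (pc := pcN3) (cut := Cut.none) (xt := Ext.none) (P1 := 1239849684) (W1 := 370763052) (P2 := 0) (W2 := 536870912) (P3 := 1046898278) (W3 := 26843546) (N0 := 3)
    rfl (fun _ => rfl) k0_pm_203_b

noncomputable def f_pm_213_a : ℕ → ℕ → ℕ → ℕ → Bool := onCell 0 420477299 536870912 469762048 1046898278 26843546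
    (rowNX 3 0 true true false .pnn 2 1 3 (qsf 0 420477299 536870912 469762048 3) ndN1q2a ndN5q1 pcN3 Cut.none Ext.none)

def k0_pm_213_a : ∃ t, chk3 f_pm_213_a t 1 1 1 = true :=
  ⟨(b (a (l 4) (a (l 4) (a (l 4) (b (c (l 16399736) (l 16386440)) (l 4))))) (l 4)), by decide +kernel⟩

theorem c_pm_213_a : CertNX 0 420477299 536870912 469762048 1046898278 26843546 3 true true false .pnn 2 1 3
    ndN1q2a ndN5q1 pcN3 Cut.none Ext.none :=
  certNX0 (fam := true) (s1 := true) (s2 := false) (a := 2) (b := 1) (c := 3) (cn := .pnn) (n1 := ndN1q2a) (n2 := ndN5q1) (pc := pcN3) (cut := Cut.none) (xt := Ext.none) (P1 := 0) (W1 := 420477299) (P2 := 536870912) (W2 := 469762048) (P3 := 1046898278) (W3 := 26843546) (N0 := 3)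
    rfl k0_pm_213_a

noncomputable def f_pm_213_b : ℕ → ℕ → ℕ → ℕ → Bool := onCell 1239849684 370763052 536870912 469762048 1046898278 26843546
    (rowNX 3 0 true true false .pnn 2 1 3 (qsf 1239849684 370763052 536870912 469762048 3) ndN1q2b ndN5q1 pcN3 Cut.none Ext.none)

def k0_pm_213_b : ∃ t, chk3 f_pm_213_b t 1 1 1 = true :=
  ⟨(l 4), by decide +kernel⟩

theorem c_pm_213_b : CertNX 1239849684 370763052 536870912 469762048 1046898278 26843546 3 true true false .pnn 2 1 3
    ndN1q2b ndN5q1 pcN3 Cut.none Ext.none :=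
  certNX0 (fam := true) (s1 := true) (s2 := false) (a := 2) (b := 1) (c := 3) (cn := .pnn) (n1 := ndN1q2b) (n2 := ndN5q1) (pc := pcN3) (cut := Cut.none) (xt := Ext.none) (P1 := 1239849684) (W1 := 370763052) (P2 := 536870912) (W2 := 469762048) (P3 := 1046898278) (W3 := 26843546) (N0 := 3)
    rfl k0_pm_213_b

noncomputable def f_pm_303 : ℕ → ℕ → ℕ → ℕ → Bool := onCell 1610612736 469762048 0 536870912 1046898278 26843546
    (rowNX 3 0 true true false .npn 3 0 3 (qsf 1610612736 469762048 0 536870912 3) ndN1q3 ndN5q0 pcN3 Cut.none Ext.none)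

def k0_pm_303 : ∃ t, chk3 f_pm_303 t 1 1 1 = true :=
  ⟨(b (b (a (a (b (b (c (b (a (l 14483176) (l 14483176)) (l 14614280)) (a (l 14361144) (b (l 14428624) (l 14594904)))) (a (c (l 14886328) (l 14848176)) (l 4))) (l 4)) (l 4)) (l 4)) (l 4)) (l 4)), by decide +kernel⟩

theorem c_pm_303 : CertNX 1610612736 469762048 0 536870912 1046898278 26843546 3 true true false .npn 3 0 3
    ndN1q3 ndN5q0 pcN3 Cut.none Ext.none :=
  certNX0 (fam := true) (s1 := true) (s2 := false) (a := 3) (b := 0) (c := 3) (cn := .npn) (n1 := ndN1q3) (n2 := ndN5q0) (pc := pcN3) (cut := Cut.none) (xt := Ext.none) (P1 := 1610612736) (W1 := 469762048) (P2 := 0) (W2 := 536870912) (P3 := 1046898278) (W3 := 26843546) (N0 := 3)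
    rfl k0_pm_303

noncomputable def f_pm_313 : ℕ → ℕ → ℕ → ℕ → Bool := onCell 1610612736 469762048 536870912 469762048 1046898278 26843546
    (rowNX 3 0 true true false .dn 3 1 3 (qsf 1610612736 469762048 536870912 469762048 3) ndN1q3 ndN5q1 pcN3 Cut.none Ext.none)

def k0_pm_313 : ∃ t, chk3 f_pm_313 t 1 1 1 = true :=
  ⟨(l 4), by decide +kernel⟩

theorem c_pm_313 : CertNX 1610612736 469762048 536870912 469762048 1046898278 26843546 3 true true false .dn 3 1 3
    ndN1q3 ndN5q1 pcN3 Cut.none Ext.none :=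
  certNX0 (fam := true) (s1 := true) (s2 := false) (a := 3) (b := 1) (c := 3) (cn := .dn) (n1 := ndN1q3) (n2 := ndN5q1) (pc := pcN3) (cut := Cut.none) (xt := Ext.none) (P1 := 1610612736) (W1 := 469762048) (P2 := 536870912) (W2 := 469762048) (P3 := 1046898278) (W3 := 26843546) (N0 := 3)
    rfl k0_pm_313

noncomputable def f_mm_001 : ℕ → ℕ → ℕ → ℕ → Bool := onCell 67108864 469762048 0 536870912 1046898278 26843546
    (rowNX 3 0 true false false .up 0 0 1 (qsf 67108864 469762048 0 536870912 1) ndN1q0 ndN5q0 pcN1 Cut.none Ext.none)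

def k0_mm_001 : ∃ t, chk3 f_mm_001 t 1 1 1 = true :=
  ⟨(l 4), by decide +kernel⟩

theorem c_mm_001 : CertNX 67108864 469762048 0 536870912 1046898278 26843546 3 true false false .up 0 0 1
    ndN1q0 ndN5q0 pcN1 Cut.none Ext.none :=
  certNX0 (fam := true) (s1 := false) (s2 := false) (a := 0) (b := 0) (c := 1) (cn := .up) (n1 := ndN1q0) (n2 := ndN5q0) (pc := pcN1) (cut := Cut.none) (xt := Ext.none) (P1 := 67108864) (W1 := 469762048) (P2 := 0) (W2 := 536870912) (P3 := 1046898278) (W3 := 26843546) (N0 := 3)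
    rfl k0_mm_001

noncomputable def f_mm_011 : ℕ → ℕ → ℕ → ℕ → Bool := onCell 67108864 469762048 536870912 469762048 1046898278 26843546
    (rowNX 3 0 true false false .pnn 0 1 1 (qsf 67108864 469762048 536870912 469762048 1) ndN1q0 ndN5q1 pcN1 Cut.none Ext.none)

def k0_mm_011 : ∃ t, chk3 f_mm_011 t 1 1 1 = true :=
  ⟨(l 4), by decide +kernel⟩

theorem c_mm_011 : CertNX 67108864 469762048 536870912 469762048 1046898278 26843546 3 true false false .pnn 0 1 1
    ndN1q0 ndN5q1 pcN1 Cut.none Ext.none :=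
  certNX0 (fam := true) (s1 := false) (s2 := false) (a := 0) (b := 1) (c := 1) (cn := .pnn) (n1 := ndN1q0) (n2 := ndN5q1) (pc := pcN1) (cut := Cut.none) (xt := Ext.none) (P1 := 67108864) (W1 := 469762048) (P2 := 536870912) (W2 := 469762048) (P3 := 1046898278) (W3 := 26843546) (N0 := 3)
    rfl k0_mm_011

noncomputable def f_mm_012 : ℕ → ℕ → ℕ → ℕ → Bool := onCell 67108864 469762048 536870912 469762048 1046898278 26843546
    (rowNX 3 0 true false false .pnp 0 1 2 (qsf 67108864 469762048 536870912 469762048 2) ndN1q0 ndN5q1 pcN2 Cut.none Ext.none)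

def k0_mm_012 : ∃ t, chk3 f_mm_012 t 1 1 1 = true :=
  ⟨(l 4), by decide +kernel⟩

theorem c_mm_012 : CertNX 67108864 469762048 536870912 469762048 1046898278 26843546 3 true false false .pnp 0 1 2
    ndN1q0 ndN5q1 pcN2 Cut.none Ext.none :=
  certNX0 (fam := true) (s1 := false) (s2 := false) (a := 0) (b := 1) (c := 2) (cn := .pnp) (n1 := ndN1q0) (n2 := ndN5q1) (pc := pcN2) (cut := Cut.none) (xt := Ext.none) (P1 := 67108864) (W1 := 469762048) (P2 := 536870912) (W2 := 469762048) (P3 := 1046898278) (W3 := 26843546) (N0 := 3)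
    rfl k0_mm_012

noncomputable def f_mm_022 : ℕ → ℕ → ℕ → ℕ → Bool := onCell 67108864 469762048 1073741824 536870912 1046898278 26843546
    (rowNX 3 0 true false false .pp 0 2 2 (qsf 67108864 469762048 1073741824 536870912 2) ndN1q0 ndN5q2 pcN2 Cut.none Ext.none)

def k0_mm_022 : ∃ t, chk3 f_mm_022 t 1 1 1 = true :=
  ⟨(l 4), by decide +kernel⟩

theorem c_mm_022 : CertNX 67108864 469762048 1073741824 536870912 1046898278 26843546 3 true false false .pp 0 2 2
    ndN1q0 ndN5q2 pcN2 Cut.none Ext.none :=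
  certNX0 (fam := true) (s1 := false) (s2 := false) (a := 0) (b := 2) (c := 2) (cn := .pp) (n1 := ndN1q0) (n2 := ndN5q2) (pc := pcN2) (cut := Cut.none) (xt := Ext.none) (P1 := 67108864) (W1 := 469762048) (P2 := 1073741824) (W2 := 536870912) (P3 := 1046898278) (W3 := 26843546) (N0 := 3)
    rfl k0_mm_022

noncomputable def f_mm_023 : ℕ → ℕ → ℕ → ℕ → Bool := onCell 67108864 469762048 1073741824 536870912 1046898278 26843546
    (rowNX 3 0 true false false .up 0 2 3 (qsf 67108864 469762048 1073741824 536870912 3) ndN1q0 ndN5q2 pcN3 Cut.none Ext.none)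

def k0_mm_023 : ∃ t, chk3 f_mm_023 t 1 1 1 = true :=
  ⟨(l 4), by decide +kernel⟩

theorem c_mm_023 : CertNX 67108864 469762048 1073741824 536870912 1046898278 26843546 3 true false false .up 0 2 3
    ndN1q0 ndN5q2 pcN3 Cut.none Ext.none :=
  certNX0 (fam := true) (s1 := false) (s2 := false) (a := 0) (b := 2) (c := 3) (cn := .up) (n1 := ndN1q0) (n2 := ndN5q2) (pc := pcN3) (cut := Cut.none) (xt := Ext.none) (P1 := 67108864) (W1 := 469762048) (P2 := 1073741824) (W2 := 536870912) (P3 := 1046898278) (W3 := 26843546) (N0 := 3)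
    rfl k0_mm_023

noncomputable def f_mm_033 : ℕ → ℕ → ℕ → ℕ → Bool := onCell 67108864 469762048 0 1230186008 1046898278 26843546
    (rowNX 3 0 true false false .pnn 0 3 3 (qsf 67108864 469762048 0 1230186008 3) ndN1q0 ndN5q3 pcN3 Cut.none Ext.none)

def k0_mm_033 : ∃ t, chk3 f_mm_033 t 1 1 1 = true :=
  ⟨(l 5), by decide +kernel⟩

theorem c_mm_033 : CertNX 67108864 469762048 0 1230186008 1046898278 26843546 3 true false false .pnn 0 3 3
    ndN1q0 ndN5q3 pcN3 Cut.none Ext.none :=
  certNX0 (fam := true) (s1 := false) (s2 := false) (a := 0) (b := 3) (c := 3) (cn := .pnn) (n1 := ndN1q0) (n2 := ndN5q3) (pc := pcN3) (cut := Cut.none) (xt := Ext.none) (P1 := 67108864) (W1 := 469762048) (P2 := 0) (W2 := 1230186008) (P3 := 1046898278) (W3 := 26843546) (N0 := 3)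
    rfl k0_mm_033

noncomputable def f_mm_101 : ℕ → ℕ → ℕ → ℕ → Bool := onCell 536870912 536870912 0 536870912 1046898278 26843546
    (rowNX 3 0 true false false .npn 1 0 1 (qsf 536870912 536870912 0 536870912 1) ndN1q1 ndN5q0 pcN1 Cut.none Ext.none)

def k0_mm_101 : ∃ t, chk3 f_mm_101 t 1 1 1 = true :=
  ⟨(l 4), by decide +kernel⟩

theorem c_mm_101 : CertNX 536870912 536870912 0 536870912 1046898278 26843546 3 true false false .npn 1 0 1
    ndN1q1 ndN5q0 pcN1 Cut.none Ext.none :=
  certNX0 (fam := true) (s1 := false) (s2 := false) (a := 1) (b := 0) (c := 1) (cn := .npn) (n1 := ndN1q1) (n2 := ndN5q0) (pc := pcN1) (cut := Cut.none) (xt := Ext.none) (P1 := 536870912) (W1 := 536870912) (P2 := 0) (W2 := 536870912) (P3 := 1046898278) (W3 := 26843546) (N0 := 3)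
    rfl k0_mm_101

noncomputable def f_mm_102 : ℕ → ℕ → ℕ → ℕ → Bool := onCell 536870912 536870912 0 536870912 1046898278 26843546
    (rowNX 3 0 true false false .npp 1 0 2 (qsf 536870912 536870912 0 536870912 2) ndN1q1 ndN5q0 pcN2 Cut.none Ext.none)

def k0_mm_102 : ∃ t, chk3 f_mm_102 t 1 1 1 = true :=
  ⟨(l 4), by decide +kernel⟩

theorem c_mm_102 : CertNX 536870912 536870912 0 536870912 1046898278 26843546 3 true false false .npp 1 0 2
    ndN1q1 ndN5q0 pcN2 Cut.none Ext.none :=
  certNX0 (fam := true) (s1 := false) (s2 := false) (a := 1) (b := 0) (c := 2) (cn := .npp) (n1 := ndN1q1) (n2 := ndN5q0) (pc := pcN2) (cut := Cut.none) (xt := Ext.none) (P1 := 536870912) (W1 := 536870912) (P2 := 0) (W2 := 536870912) (P3 := 1046898278) (W3 := 26843546) (N0 := 3)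
    rfl k0_mm_102

noncomputable def f_mm_112 : ℕ → ℕ → ℕ → ℕ → Bool := onCell 536870912 536870912 536870912 469762048 1046898278 26843546
    (rowNX 3 0 true false false .dn 1 1 2 (qsf 536870912 536870912 536870912 469762048 2) ndN1q1 ndN5q1 pcN2 Cut.none Ext.none)

def k0_mm_112 : ∃ t, chk3 f_mm_112 t 1 1 1 = true :=
  ⟨(l 4), by decide +kernel⟩

theorem c_mm_112 : CertNX 536870912 536870912 536870912 469762048 1046898278 26843546 3 true false false .dn 1 1 2
    ndN1q1 ndN5q1 pcN2 Cut.none Ext.none :=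
  certNX0 (fam := true) (s1 := false) (s2 := false) (a := 1) (b := 1) (c := 2) (cn := .dn) (n1 := ndN1q1) (n2 := ndN5q1) (pc := pcN2) (cut := Cut.none) (xt := Ext.none) (P1 := 536870912) (W1 := 536870912) (P2 := 536870912) (W2 := 469762048) (P3 := 1046898278) (W3 := 26843546) (N0 := 3)
    rfl k0_mm_112

noncomputable def f_mm_113 : ℕ → ℕ → ℕ → ℕ → Bool := onCell 536870912 536870912 536870912 469762048 1046898278 26843546
    (rowNX 3 0 true false false .nn 1 1 3 (qsf 536870912 536870912 536870912 469762048 3) ndN1q1 ndN5q1 pcN3 Cut.none Ext.none)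

def k0_mm_113 : ∃ t, chk3 f_mm_113 t 1 1 1 = true :=
  ⟨(l 4), by decide +kernel⟩

theorem c_mm_113 : CertNX 536870912 536870912 536870912 469762048 1046898278 26843546 3 true false false .nn 1 1 3
    ndN1q1 ndN5q1 pcN3 Cut.none Ext.none :=
  certNX0 (fam := true) (s1 := false) (s2 := false) (a := 1) (b := 1) (c := 3) (cn := .nn) (n1 := ndN1q1) (n2 := ndN5q1) (pc := pcN3) (cut := Cut.none) (xt := Ext.none) (P1 := 536870912) (W1 := 536870912) (P2 := 536870912) (W2 := 469762048) (P3 := 1046898278) (W3 := 26843546) (N0 := 3)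
    rfl k0_mm_113

noncomputable def f_mm_123 : ℕ → ℕ → ℕ → ℕ → Bool := onCell 536870912 536870912 1073741824 536870912 1046898278 26843546
    (rowNX 3 0 true false false .npn 1 2 3 (qsf 536870912 536870912 1073741824 536870912 3) ndN1q1 ndN5q2 pcN3 Cut.none Ext.none)

def k0_mm_123 : ∃ t, chk3 f_mm_123 t 1 1 1 = true :=
  ⟨(l 4), by decide +kernel⟩

theorem c_mm_123 : CertNX 536870912 536870912 1073741824 536870912 1046898278 26843546 3 true false false .npn 1 2 3
    ndN1q1 ndN5q2 pcN3 Cut.none Ext.none :=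
  certNX0 (fam := true) (s1 := false) (s2 := false) (a := 1) (b := 2) (c := 3) (cn := .npn) (n1 := ndN1q1) (n2 := ndN5q2) (pc := pcN3) (cut := Cut.none) (xt := Ext.none) (P1 := 536870912) (W1 := 536870912) (P2 := 1073741824) (W2 := 536870912) (P3 := 1046898278) (W3 := 26843546) (N0 := 3)
    rfl k0_mm_123

noncomputable def f_mm_133 : ℕ → ℕ → ℕ → ℕ → Bool := onCell 536870912 536870912 0 1230186008 1046898278 26843546
    (rowNX 3 0 true false false .dn 1 3 3 (qsf 536870912 536870912 0 1230186008 3) ndN1q1 ndN5q3 pcN3 Cut.none Ext.none)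

def k0_mm_133 : ∃ t, chk3 f_mm_133 t 1 1 1 = true :=
  ⟨(l 4), by decide +kernel⟩

theorem c_mm_133 : CertNX 536870912 536870912 0 1230186008 1046898278 26843546 3 true false false .dn 1 3 3
    ndN1q1 ndN5q3 pcN3 Cut.none Ext.none :=
  certNX0 (fam := true) (s1 := false) (s2 := false) (a := 1) (b := 3) (c := 3) (cn := .dn) (n1 := ndN1q1) (n2 := ndN5q3) (pc := pcN3) (cut := Cut.none) (xt := Ext.none) (P1 := 536870912) (W1 := 536870912) (P2 := 0) (W2 := 1230186008) (P3 := 1046898278) (W3 := 26843546) (N0 := 3)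
    rfl k0_mm_133

noncomputable def f_mm_202_a : ℕ → ℕ → ℕ → ℕ → Bool := onCell 0 420477299 0 536870912 1046898278 26843546
    (rowNX 3 0 true false false .pp 2 0 2 (qsf 0 420477299 0 536870912 2) ndN1q2a ndN5q0 pcN2 Cut.none Ext.none)

def k0_mm_202_a : ∃ t, chk3 f_mm_202_a t 2 4 1 = true :=
  ⟨(b (b (a (b (c (b (l 16270368) (b (l 16134824) (a (l 16132064) (l 16230784)))) (b (b (a (l 16100680) (l 16154904)) (c (l 16287896) (l 16286168))) (c (l 16134336) (l 16217320)))) (c (a (l 15831328) (b (l 16076224) (l 16089936))) (a (l 16057136) (l 16162784)))) (a (b (c (b (l 16358136) (b (l 16425952) (l 16387072))) (b (c (l 16338016) (b (l 16295016) (l 16358416))) (l 16280936))) (c (b (l 16287056) (l 16229480)) (l 16314440))) (b (b (c (a (l 16240256) (l 15990976)) (b (a (b (l 16082344) (l 16186864)) (c (l 16109896) (l 15945296))) (c (a (l 16238720) (l 16062336)) (a (l 16231552) (l 16095160))))) (c (b (l 16256696) (l 16314792)) (l 16068304))) (c (b (l 16419072) (l 16416488)) (l 16373568)))))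 (a (b (c (l 15909176) (l 16057560)) (c (l 15878088) (l 16034760))) (b (a (c (l 16218560) (l 16270104)) (c (l 16363496) (l 16442296))) (a (c (l 16268872) (l 16266648)) (c (l 16412136) (l 16415368)))))) (b (a (b (a (b (l 16040848) (l 16186368)) (b (l 16042096) (l 16322808))) (l 16305576)) (b (a (b (l 16339576) (a (l 16421920) (l 4))) (l 4)) (l 4))) (a (b (l 16575576) (l 16638616)) (l 4)))), by decide +kernel⟩

def k1_mm_202_a : ∃ t, chk3 f_mm_202_a t 3 4 1 = true :=
  ⟨(b (a (b (b (a (b (c (l 15938992) (b (c (l 15974352) (l 15869624)) (c (l 15920608) (l 15971440)))) (c (a (b (l 15966464) (b (l 16152736) (l 16194792))) (b (l 16009096) (l 15910704))) (a (b (c (l 16090064) (l 16082600)) (l 16090688)) (c (l 15981824) (l 15994096))))) (c (b (l 15618288) (b (l 15726392) (l 15676232))) (b (c (b (l 15703688) (l 15738232)) (b (c (l 15682800) (l 15564896)) (l 15720784))) (c (l 15760688) (l 15789336))))) (a (c (b (a (l 16270232) (b (l 15903672) (l 16193168))) (l 16315128)) (b (a (l 16215976)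 (b (l 16012736) (l 16121744))) (l 16249456))) (b (b (c (l 15946864) (l 15879120)) (l 4)) (l 4)))) (a (b (c (l 16180648) (l 16331760)) (l 4)) (l 4))) (b (a (b (b (a (b (b (c (l 15595920) (l 15515792)) (l 4)) (l 4)) (l 4)) (l 4)) (l 4)) (l 4)) (l 4))) (l 4)), by decide +kernel⟩

def k2_mm_202_a : ∃ t, chk3 f_mm_202_a t 1 5 1 = true :=
  ⟨(a (a (l 4) (l 4)) (l 4)), by decide +kernel⟩

def k3_mm_202_a : ∃ t, chk3 f_mm_202_a t 1 3 1 = true :=
  ⟨(l 4), by decide +kernel⟩

theorem s4_mm_202_a : ∃ t, chk3 f_mm_202_a t 1 4 1 = true := ex3_a k0_mm_202_a k1_mm_202_a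

theorem s5_mm_202_a : ∃ t, chk3 f_mm_202_a t 1 2 1 = true := ex3_b s4_mm_202_a k2_mm_202_a

theorem s6_mm_202_a : ∃ t, chk3 f_mm_202_a t 1 1 1 = true := ex3_b s5_mm_202_a k3_mm_202_a

theorem c_mm_202_a : CertNX 0 420477299 0 536870912 1046898278 26843546 3 true false false .pp 2 0 2
    ndN1q2a ndN5q0 pcN2 Cut.none Ext.none :=
  certNX0 (fam := true) (s1 := false) (s2 := false) (a := 2) (b := 0) (c := 2) (cn := .pp) (n1 := ndN1q2a) (n2 := ndN5q0) (pc := pcN2) (cut := Cut.none) (xt := Ext.none) (P1 := 0) (W1 := 420477299) (P2 := 0) (W2 := 536870912) (P3 := 1046898278) (W3 := 26843546) (N0 := 3)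
    rfl s6_mm_202_a

noncomputable def f_mm_202_b : ℕ → ℕ → ℕ → ℕ → Bool := onCell 1073741824 536870912 0 536870912 1046898278 26843546
    (rowNX 3 2 true false false .pp 2 0 2 (qsf 1239849684 370763052 0 536870912 2) ndN1q2b ndN5q0 pcN2 Cut.none Ext.none)

def k0_mm_202_b : ∃ t, chk3 f_mm_202_b t 2 1 1 = true :=
  ⟨(a (l 1) (b (b (b (a (b (a (a (l 1) (b (a (l 1) (b (b (c (l 16332752) (l 16123048)) (l 1)) (l 1))) (l 1))) (b (c (b (a (l 16038048) (l 15747608)) (a (c (l 16190072) (l 16172064)) (c (l 15866296) (l 15842200)))) (b (c (a (b (l 16068320) (l 16118776)) (l 15748840)) (a (c (l 16032088) (l 16076824)) (l 15516688))) (a (c (l 16167648) (l 16187112)) (l 15788936)))) (c (a (b (l 16141192) (l 1)) (l 15702592)) (a (l 16319624) (l 15988752))))) (a (l 1) (a (l 1) (a (l 1) (b (l 15937648) (l 1)))))) (b (b (a (c (b (l 15316248) (c (l 15448144) (l 15415984))) (b (c (l 15304912) (b (l 15269088) (l 15317208))) (l 15224576))) (c (b (l 14969672) (c (l 15106744) (l 15067880))) (b (c (l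 14948016) (l 14910040)) (l 15033992)))) (a (c (b (l 15490288) (l 15583384)) (l 15564024)) (c (l 15056288) (l 15208616)))) (a (c (b (l 15731072) (l 15818064)) (l 15675304)) (c (b (l 15434256) (l 15671096)) (l 15534904))))) (a (l 1) (a (b (b (c (l 16241968) (l 16272024)) (l 1)) (l 1)) (b (b (l 15772488) (l 16399856)) (l 517039139447))))) (l 1)) (l 1))), by decide +kernel⟩

def k1_mm_202_b : ∃ t, chk3 f_mm_202_b t 3 1 1 = true :=
  ⟨(b (b (a (b (b (a (b (c (b (l 14718016) (c (l 14843984) (l 14799800))) (b (c (l 14688680) (l 14603552)) (l 14757824))) (c (a (l 15016888) (l 14815864)) (l 14911960))) (c (b (b (l 14454808) (l 14460200)) (l 14583296)) (b (c (b (l 14416512) (l 14484344)) (l 14427616)) (l 14606384)))) (a (c (a (l 15334832) (l 15109712)) (l 15178944)) (c (a (l 14909832) (l 14886328)) (l 14860712)))) (a (b (b (c (l 15635952) (l 15597784)) (a (l 16146176) (l 15879320))) (a (l 16458176) (b (l 16218616) (l 16365216)))) (b (a (c (l 15478576) (l 15432520)) (l 15430744)) (l 4))))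 (b (b (b (c (a (l 14483176) (l 14483176)) (a (c (l 14443648) (l 14416816)) (l 14428624))) (a (c (l 14614280) (l 14594904)) (l 4))) (a (c (l 14886328) (l 14848176)) (l 4))) (l 4))) (a (a (b (a (b (l 16414592) (l 1)) (l 4)) (l 1)) (l 4)) (l 4))) (l 4)), by decide +kernel⟩

theorem s2_mm_202_b : ∃ t, chk3 f_mm_202_b t 1 1 1 = true := ex3_a k0_mm_202_b k1_mm_202_b

theorem c_mm_202_b : CertNX 1239849684 370763052 0 536870912 1046898278 26843546 3 true false false .pp 2 0 2
    ndN1q2b ndN5q0 pcN2 Cut.none Ext.none :=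
  certNX2 (fam := true) (s1 := false) (s2 := false) (a := 2) (b := 0) (c := 2) (cn := .pp) (n1 := ndN1q2b) (n2 := ndN5q0) (pc := pcN2) (cut := Cut.none) (xt := Ext.none) (P1 := 1239849684) (W1 := 370763052) (P2 := 0) (W2 := 536870912) (P3 := 1046898278) (W3 := 26843546) (N0 := 3)
    rfl (fun _ => rfl) s2_mm_202_b

noncomputable def f_mm_203_a : ℕ → ℕ → ℕ → ℕ → Bool := onCell 0 420477299 1610612736 536870912 1046898278 26843546
    (rowNX 3 1 true false false .up 2 0 3 (qsf 0 420477299 0 536870912 3) ndN1q2a ndN5q0 pcN3 Cut.none Ext.none)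

def k0_mm_203_a : ∃ t, chk3 f_mm_203_a t 1 1 1 = true :=
  ⟨(l 4), by decide +kernel⟩

theorem c_mm_203_a : CertNX 0 420477299 0 536870912 1046898278 26843546 3 true false false .up 2 0 3
    ndN1q2a ndN5q0 pcN3 Cut.none Ext.none :=
  certNX1 (fam := true) (s1 := false) (s2 := false) (a := 2) (b := 0) (c := 3) (cn := .up) (n1 := ndN1q2a) (n2 := ndN5q0) (pc := pcN3) (cut := Cut.none) (xt := Ext.none) (P1 := 0) (W1 := 420477299) (P2 := 0) (W2 := 536870912) (P3 := 1046898278) (W3 := 26843546) (N0 := 3)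
    rfl (fun _ => rfl) k0_mm_203_a

noncomputable def f_mm_203_b : ℕ → ℕ → ℕ → ℕ → Bool := onCell 1239849684 370763052 1610612736 536870912 1046898278 26843546
    (rowNX 3 1 true false false .up 2 0 3 (qsf 1239849684 370763052 0 536870912 3) ndN1q2b ndN5q0 pcN3 Cut.none Ext.none)

def k0_mm_203_b : ∃ t, chk3 f_mm_203_b t 1 1 1 = true :=
  ⟨(b (a (l 4) (l 4)) (l 4)), by decide +kernel⟩

theorem c_mm_203_b : CertNX 1239849684 370763052 0 536870912 1046898278 26843546 3 true false false .up 2 0 3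
    ndN1q2b ndN5q0 pcN3 Cut.none Ext.none :=
  certNX1 (fam := true) (s1 := false) (s2 := false) (a := 2) (b := 0) (c := 3) (cn := .up) (n1 := ndN1q2b) (n2 := ndN5q0) (pc := pcN3) (cut := Cut.none) (xt := Ext.none) (P1 := 1239849684) (W1 := 370763052) (P2 := 0) (W2 := 536870912) (P3 := 1046898278) (W3 := 26843546) (N0 := 3)
    rfl (fun _ => rfl) k0_mm_203_b

noncomputable def f_mm_213_a : ℕ → ℕ → ℕ → ℕ → Bool := onCell 0 420477299 536870912 469762048 1046898278 26843546
    (rowNX 3 0 true false false .pnn 2 1 3 (qsf 0 420477299 536870912 469762048 3) ndN1q2a ndN5q1 pcN3 Cut.none Ext.none)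

def k0_mm_213_a : ∃ t, chk3 f_mm_213_a t 1 1 1 = true :=
  ⟨(l 4), by decide +kernel⟩

theorem c_mm_213_a : CertNX 0 420477299 536870912 469762048 1046898278 26843546 3 true false false .pnn 2 1 3
    ndN1q2a ndN5q1 pcN3 Cut.none Ext.none :=
  certNX0 (fam := true) (s1 := false) (s2 := false) (a := 2) (b := 1) (c := 3) (cn := .pnn) (n1 := ndN1q2a) (n2 := ndN5q1) (pc := pcN3) (cut := Cut.none) (xt := Ext.none) (P1 := 0) (W1 := 420477299) (P2 := 536870912) (W2 := 469762048) (P3 := 1046898278) (W3 := 26843546) (N0 := 3)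
    rfl k0_mm_213_a

noncomputable def f_mm_213_b : ℕ → ℕ → ℕ → ℕ → Bool := onCell 1239849684 370763052 536870912 469762048 1046898278 26843546
    (rowNX 3 0 true false false .pnn 2 1 3 (qsf 1239849684 370763052 536870912 469762048 3) ndN1q2b ndN5q1 pcN3 Cut.none Ext.none)

def k0_mm_213_b : ∃ t, chk3 f_mm_213_b t 1 1 1 = true :=
  ⟨(l 4), by decide +kernel⟩

theorem c_mm_213_b : CertNX 1239849684 370763052 536870912 469762048 1046898278 26843546 3 true false false .pnn 2 1 3
    ndN1q2b ndN5q1 pcN3 Cut.none Ext.none :=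
  certNX0 (fam := true) (s1 := false) (s2 := false) (a := 2) (b := 1) (c := 3) (cn := .pnn) (n1 := ndN1q2b) (n2 := ndN5q1) (pc := pcN3) (cut := Cut.none) (xt := Ext.none) (P1 := 1239849684) (W1 := 370763052) (P2 := 536870912) (W2 := 469762048) (P3 := 1046898278) (W3 := 26843546) (N0 := 3)
    rfl k0_mm_213_b

noncomputable def f_mm_303 : ℕ → ℕ → ℕ → ℕ → Bool := onCell 1610612736 469762048 0 536870912 1046898278 26843546
    (rowNX 3 0 true false false .npn 3 0 3 (qsf 1610612736 469762048 0 536870912 3) ndN1q3 ndN5q0 pcN3 Cut.none Ext.none)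

def k0_mm_303 : ∃ t, chk3 f_mm_303 t 1 1 1 = true :=
  ⟨(b (a (l 4) (l 4)) (l 4)), by decide +kernel⟩

theorem c_mm_303 : CertNX 1610612736 469762048 0 536870912 1046898278 26843546 3 true false false .npn 3 0 3
    ndN1q3 ndN5q0 pcN3 Cut.none Ext.none :=
  certNX0 (fam := true) (s1 := false) (s2 := false) (a := 3) (b := 0) (c := 3) (cn := .npn) (n1 := ndN1q3) (n2 := ndN5q0) (pc := pcN3) (cut := Cut.none) (xt := Ext.none) (P1 := 1610612736) (W1 := 469762048) (P2 := 0) (W2 := 536870912) (P3 := 1046898278) (W3 := 26843546) (N0 := 3)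
    rfl k0_mm_303

noncomputable def f_mm_313 : ℕ → ℕ → ℕ → ℕ → Bool := onCell 1610612736 469762048 536870912 469762048 1046898278 26843546
    (rowNX 3 0 true false false .dn 3 1 3 (qsf 1610612736 469762048 536870912 469762048 3) ndN1q3 ndN5q1 pcN3 Cut.none Ext.none)

def k0_mm_313 : ∃ t, chk3 f_mm_313 t 1 1 1 = true :=
  ⟨(l 4), by decide +kernel⟩

theorem c_mm_313 : CertNX 1610612736 469762048 536870912 469762048 1046898278 26843546 3 true false false .dn 3 1 3
    ndN1q3 ndN5q1 pcN3 Cut.none Ext.none :=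
  certNX0 (fam := true) (s1 := false) (s2 := false) (a := 3) (b := 1) (c := 3) (cn := .dn) (n1 := ndN1q3) (n2 := ndN5q1) (pc := pcN3) (cut := Cut.none) (xt := Ext.none) (P1 := 1610612736) (W1 := 469762048) (P2 := 536870912) (W2 := 469762048) (P3 := 1046898278) (W3 := 26843546) (N0 := 3)
    rfl k0_mm_313

end Pool.Agent.Strip051.G.IE1.Tab.C.NA15

namespace Pool.Agent.Strip051.G.IE1.Tab.C.NA16

open Pool.Agent.Strip051.PB Pool.Agent.Strip051.PB.T
open Pool.Agent.Strip051.G.IE1.Tab

noncomputable def f_pp_001 : ℕ → ℕ → ℕ → ℕ → Bool := onCell 67108864 469762048 0 536870912 1046898278 26843546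
    (rowNX 3 0 true true true .up 0 0 1 (qsf 67108864 469762048 0 536870912 1) ndN1q0 ndN6q0 pcN1 Cut.none Ext.none)

def k0_pp_001 : ∃ t, chk3 f_pp_001 t 1 1 1 = true :=
  ⟨(l 4), by decide +kernel⟩

theorem c_pp_001 : CertNX 67108864 469762048 0 536870912 1046898278 26843546 3 true true true .up 0 0 1
    ndN1q0 ndN6q0 pcN1 Cut.none Ext.none :=
  certNX0 (fam := true) (s1 := true) (s2 := true) (a := 0) (b := 0) (c := 1) (cn := .up) (n1 := ndN1q0) (n2 := ndN6q0) (pc := pcN1) (cut := Cut.none) (xt := Ext.none) (P1 := 67108864) (W1 := 469762048) (P2 := 0) (W2 := 536870912) (P3 := 1046898278) (W3 := 26843546) (N0 := 3)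
    rfl k0_pp_001

noncomputable def f_pp_011 : ℕ → ℕ → ℕ → ℕ → Bool := onCell 67108864 469762048 536870912 469762048 1046898278 26843546
    (rowNX 3 0 true true true .pnn 0 1 1 (qsf 67108864 469762048 536870912 469762048 1) ndN1q0 ndN6q1 pcN1 Cut.none Ext.none)

def k0_pp_011 : ∃ t, chk3 f_pp_011 t 1 1 1 = true :=
  ⟨(l 4), by decide +kernel⟩

theorem c_pp_011 : CertNX 67108864 469762048 536870912 469762048 1046898278 26843546 3 true true true .pnn 0 1 1
    ndN1q0 ndN6q1 pcN1 Cut.none Ext.none :=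
  certNX0 (fam := true) (s1 := true) (s2 := true) (a := 0) (b := 1) (c := 1) (cn := .pnn) (n1 := ndN1q0) (n2 := ndN6q1) (pc := pcN1) (cut := Cut.none) (xt := Ext.none) (P1 := 67108864) (W1 := 469762048) (P2 := 536870912) (W2 := 469762048) (P3 := 1046898278) (W3 := 26843546) (N0 := 3)
    rfl k0_pp_011

noncomputable def f_pp_012 : ℕ → ℕ → ℕ → ℕ → Bool := onCell 67108864 469762048 536870912 469762048 1046898278 26843546
    (rowNX 3 0 true true true .pnp 0 1 2 (qsf 67108864 469762048 536870912 469762048 2) ndN1q0 ndN6q1 pcN2 Cut.none Ext.none)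

def k0_pp_012 : ∃ t, chk3 f_pp_012 t 1 1 1 = true :=
  ⟨(l 4), by decide +kernel⟩

theorem c_pp_012 : CertNX 67108864 469762048 536870912 469762048 1046898278 26843546 3 true true true .pnp 0 1 2
    ndN1q0 ndN6q1 pcN2 Cut.none Ext.none :=
  certNX0 (fam := true) (s1 := true) (s2 := true) (a := 0) (b := 1) (c := 2) (cn := .pnp) (n1 := ndN1q0) (n2 := ndN6q1) (pc := pcN2) (cut := Cut.none) (xt := Ext.none) (P1 := 67108864) (W1 := 469762048) (P2 := 536870912) (W2 := 469762048) (P3 := 1046898278) (W3 := 26843546) (N0 := 3)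
    rfl k0_pp_012

noncomputable def f_pp_022 : ℕ → ℕ → ℕ → ℕ → Bool := onCell 67108864 469762048 1073741824 536870912 1046898278 26843546
    (rowNX 3 0 true true true .pp 0 2 2 (qsf 67108864 469762048 1073741824 536870912 2) ndN1q0 ndN6q2 pcN2 Cut.none Ext.none)

def k0_pp_022 : ∃ t, chk3 f_pp_022 t 1 1 1 = true :=
  ⟨(l 4), by decide +kernel⟩

theorem c_pp_022 : CertNX 67108864 469762048 1073741824 536870912 1046898278 26843546 3 true true true .pp 0 2 2
    ndN1q0 ndN6q2 pcN2 Cut.none Ext.none :=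
  certNX0 (fam := true) (s1 := true) (s2 := true) (a := 0) (b := 2) (c := 2) (cn := .pp) (n1 := ndN1q0) (n2 := ndN6q2) (pc := pcN2) (cut := Cut.none) (xt := Ext.none) (P1 := 67108864) (W1 := 469762048) (P2 := 1073741824) (W2 := 536870912) (P3 := 1046898278) (W3 := 26843546) (N0 := 3)
    rfl k0_pp_022

noncomputable def f_pp_023 : ℕ → ℕ → ℕ → ℕ → Bool := onCell 67108864 469762048 1073741824 536870912 1046898278 26843546
    (rowNX 3 0 true true true .up 0 2 3 (qsf 67108864 469762048 1073741824 536870912 3) ndN1q0 ndN6q2 pcN3 Cut.none Ext.none)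

def k0_pp_023 : ∃ t, chk3 f_pp_023 t 1 1 1 = true :=
  ⟨(l 4), by decide +kernel⟩

theorem c_pp_023 : CertNX 67108864 469762048 1073741824 536870912 1046898278 26843546 3 true true true .up 0 2 3
    ndN1q0 ndN6q2 pcN3 Cut.none Ext.none :=
  certNX0 (fam := true) (s1 := true) (s2 := true) (a := 0) (b := 2) (c := 3) (cn := .up) (n1 := ndN1q0) (n2 := ndN6q2) (pc := pcN3) (cut := Cut.none) (xt := Ext.none) (P1 := 67108864) (W1 := 469762048) (P2 := 1073741824) (W2 := 536870912) (P3 := 1046898278) (W3 := 26843546) (N0 := 3)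
    rfl k0_pp_023

noncomputable def f_pp_033 : ℕ → ℕ → ℕ → ℕ → Bool := onCell 67108864 469762048 0 1230186008 1046898278 26843546
    (rowNX 3 0 true true true .pnn 0 3 3 (qsf 67108864 469762048 0 1230186008 3) ndN1q0 ndN6q3 pcN3 Cut.none Ext.none)

def k0_pp_033 : ∃ t, chk3 f_pp_033 t 1 1 1 = true :=
  ⟨(l 4), by decide +kernel⟩

theorem c_pp_033 : CertNX 67108864 469762048 0 1230186008 1046898278 26843546 3 true true true .pnn 0 3 3
    ndN1q0 ndN6q3 pcN3 Cut.none Ext.none :=
  certNX0 (fam := true) (s1 := true) (s2 := true) (a := 0) (b := 3) (c := 3) (cn := .pnn) (n1 := ndN1q0) (n2 := ndN6q3) (pc := pcN3) (cut := Cut.none) (xt := Ext.none) (P1 := 67108864) (W1 := 469762048) (P2 := 0) (W2 := 1230186008) (P3 := 1046898278) (W3 := 26843546) (N0 := 3)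
    rfl k0_pp_033

noncomputable def f_pp_101 : ℕ → ℕ → ℕ → ℕ → Bool := onCell 536870912 536870912 0 536870912 1046898278 26843546
    (rowNX 3 0 true true true .npn 1 0 1 (qsf 536870912 536870912 0 536870912 1) ndN1q1 ndN6q0 pcN1 Cut.none Ext.none)

def k0_pp_101 : ∃ t, chk3 f_pp_101 t 1 1 1 = true :=
  ⟨(l 4), by decide +kernel⟩

theorem c_pp_101 : CertNX 536870912 536870912 0 536870912 1046898278 26843546 3 true true true .npn 1 0 1
    ndN1q1 ndN6q0 pcN1 Cut.none Ext.none :=
  certNX0 (fam := true) (s1 := true) (s2 := true) (a := 1) (b := 0) (c := 1) (cn := .npn) (n1 := ndN1q1) (n2 := ndN6q0) (pc := pcN1) (cut := Cut.none) (xt := Ext.none) (P1 := 536870912) (W1 := 536870912) (P2 := 0) (W2 := 536870912) (P3 := 1046898278) (W3 := 26843546) (N0 := 3)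
    rfl k0_pp_101

noncomputable def f_pp_102 : ℕ → ℕ → ℕ → ℕ → Bool := onCell 536870912 536870912 0 536870912 1046898278 26843546
    (rowNX 3 0 true true true .npp 1 0 2 (qsf 536870912 536870912 0 536870912 2) ndN1q1 ndN6q0 pcN2 Cut.none Ext.none)

def k0_pp_102 : ∃ t, chk3 f_pp_102 t 1 1 1 = true :=
  ⟨(l 4), by decide +kernel⟩

theorem c_pp_102 : CertNX 536870912 536870912 0 536870912 1046898278 26843546 3 true true true .npp 1 0 2
    ndN1q1 ndN6q0 pcN2 Cut.none Ext.none :=
  certNX0 (fam := true) (s1 := true) (s2 := true) (a := 1) (b := 0) (c := 2) (cn := .npp) (n1 := ndN1q1) (n2 := ndN6q0) (pc := pcN2) (cut := Cut.none) (xt := Ext.none) (P1 := 536870912) (W1 := 536870912) (P2 := 0) (W2 := 536870912) (P3 := 1046898278) (W3 := 26843546) (N0 := 3)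
    rfl k0_pp_102

noncomputable def f_pp_112 : ℕ → ℕ → ℕ → ℕ → Bool := onCell 536870912 536870912 536870912 469762048 1046898278 26843546
    (rowNX 3 0 true true true .dn 1 1 2 (qsf 536870912 536870912 536870912 469762048 2) ndN1q1 ndN6q1 pcN2 Cut.none Ext.none)

def k0_pp_112 : ∃ t, chk3 f_pp_112 t 1 1 1 = true :=
  ⟨(l 4), by decide +kernel⟩

theorem c_pp_112 : CertNX 536870912 536870912 536870912 469762048 1046898278 26843546 3 true true true .dn 1 1 2
    ndN1q1 ndN6q1 pcN2 Cut.none Ext.none :=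
  certNX0 (fam := true) (s1 := true) (s2 := true) (a := 1) (b := 1) (c := 2) (cn := .dn) (n1 := ndN1q1) (n2 := ndN6q1) (pc := pcN2) (cut := Cut.none) (xt := Ext.none) (P1 := 536870912) (W1 := 536870912) (P2 := 536870912) (W2 := 469762048) (P3 := 1046898278) (W3 := 26843546) (N0 := 3)
    rfl k0_pp_112

noncomputable def f_pp_113 : ℕ → ℕ → ℕ → ℕ → Bool := onCell 536870912 536870912 536870912 469762048 1046898278 26843546
    (rowNX 3 0 true true true .nn 1 1 3 (qsf 536870912 536870912 536870912 469762048 3) ndN1q1 ndN6q1 pcN3 Cut.none Ext.none)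

def k0_pp_113 : ∃ t, chk3 f_pp_113 t 1 1 1 = true :=
  ⟨(l 4), by decide +kernel⟩

theorem c_pp_113 : CertNX 536870912 536870912 536870912 469762048 1046898278 26843546 3 true true true .nn 1 1 3
    ndN1q1 ndN6q1 pcN3 Cut.none Ext.none :=
  certNX0 (fam := true) (s1 := true) (s2 := true) (a := 1) (b := 1) (c := 3) (cn := .nn) (n1 := ndN1q1) (n2 := ndN6q1) (pc := pcN3) (cut := Cut.none) (xt := Ext.none) (P1 := 536870912) (W1 := 536870912) (P2 := 536870912) (W2 := 469762048) (P3 := 1046898278) (W3 := 26843546) (N0 := 3)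
    rfl k0_pp_113

noncomputable def f_pp_123 : ℕ → ℕ → ℕ → ℕ → Bool := onCell 536870912 536870912 1073741824 536870912 1046898278 26843546
    (rowNX 3 0 true true true .npn 1 2 3 (qsf 536870912 536870912 1073741824 536870912 3) ndN1q1 ndN6q2 pcN3 Cut.none Ext.none)

def k0_pp_123 : ∃ t, chk3 f_pp_123 t 1 1 1 = true :=
  ⟨(l 4), by decide +kernel⟩

theorem c_pp_123 : CertNX 536870912 536870912 1073741824 536870912 1046898278 26843546 3 true true true .npn 1 2 3
    ndN1q1 ndN6q2 pcN3 Cut.none Ext.none :=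
  certNX0 (fam := true) (s1 := true) (s2 := true) (a := 1) (b := 2) (c := 3) (cn := .npn) (n1 := ndN1q1) (n2 := ndN6q2) (pc := pcN3) (cut := Cut.none) (xt := Ext.none) (P1 := 536870912) (W1 := 536870912) (P2 := 1073741824) (W2 := 536870912) (P3 := 1046898278) (W3 := 26843546) (N0 := 3)
    rfl k0_pp_123

noncomputable def f_pp_133 : ℕ → ℕ → ℕ → ℕ → Bool := onCell 536870912 536870912 0 1230186008 1046898278 26843546
    (rowNX 3 0 true true true .dn 1 3 3 (qsf 536870912 536870912 0 1230186008 3) ndN1q1 ndN6q3 pcN3 Cut.none Ext.none)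

def k0_pp_133 : ∃ t, chk3 f_pp_133 t 1 1 1 = true :=
  ⟨(l 4), by decide +kernel⟩

theorem c_pp_133 : CertNX 536870912 536870912 0 1230186008 1046898278 26843546 3 true true true .dn 1 3 3
    ndN1q1 ndN6q3 pcN3 Cut.none Ext.none :=
  certNX0 (fam := true) (s1 := true) (s2 := true) (a := 1) (b := 3) (c := 3) (cn := .dn) (n1 := ndN1q1) (n2 := ndN6q3) (pc := pcN3) (cut := Cut.none) (xt := Ext.none) (P1 := 536870912) (W1 := 536870912) (P2 := 0) (W2 := 1230186008) (P3 := 1046898278) (W3 := 26843546) (N0 := 3)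
    rfl k0_pp_133

noncomputable def f_pp_202_a : ℕ → ℕ → ℕ → ℕ → Bool := onCell 0 420477299 0 536870912 1046898278 26843546
    (rowNX 3 0 true true true .pp 2 0 2 (qsf 0 420477299 0 536870912 2) ndN1q2a ndN6q0 pcN2 Cut.none Ext.none)

def k0_pp_202_a : ∃ t, chk3 f_pp_202_a t 1 1 1 = true :=
  ⟨(l 4), by decide +kernel⟩

theorem c_pp_202_a : CertNX 0 420477299 0 536870912 1046898278 26843546 3 true true true .pp 2 0 2
    ndN1q2a ndN6q0 pcN2 Cut.none Ext.none :=
  certNX0 (fam := true) (s1 := true) (s2 := true) (a := 2) (b := 0) (c := 2) (cn := .pp) (n1 := ndN1q2a) (n2 := ndN6q0) (pc := pcN2) (cut := Cut.none) (xt := Ext.none) (P1 := 0) (W1 := 420477299) (P2 := 0) (W2 := 536870912) (P3 := 1046898278) (W3 := 26843546) (N0 := 3)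
    rfl k0_pp_202_a

noncomputable def f_pp_202_b : ℕ → ℕ → ℕ → ℕ → Bool := onCell 1239849684 370763052 0 536870912 1046898278 26843546
    (rowNX 3 0 true true true .pp 2 0 2 (qsf 1239849684 370763052 0 536870912 2) ndN1q2b ndN6q0 pcN2 Cut.none Ext.none)

def k0_pp_202_b : ∃ t, chk3 f_pp_202_b t 1 1 1 = true :=
  ⟨(l 4), by decide +kernel⟩

theorem c_pp_202_b : CertNX 1239849684 370763052 0 536870912 1046898278 26843546 3 true true true .pp 2 0 2
    ndN1q2b ndN6q0 pcN2 Cut.none Ext.none :=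
  certNX0 (fam := true) (s1 := true) (s2 := true) (a := 2) (b := 0) (c := 2) (cn := .pp) (n1 := ndN1q2b) (n2 := ndN6q0) (pc := pcN2) (cut := Cut.none) (xt := Ext.none) (P1 := 1239849684) (W1 := 370763052) (P2 := 0) (W2 := 536870912) (P3 := 1046898278) (W3 := 26843546) (N0 := 3)
    rfl k0_pp_202_b

noncomputable def f_pp_203_a : ℕ → ℕ → ℕ → ℕ → Bool := onCell 0 420477299 0 536870912 1046898278 26843546
    (rowNX 3 0 true true true .up 2 0 3 (qsf 0 420477299 0 536870912 3) ndN1q2a ndN6q0 pcN3 Cut.none Ext.none)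

def k0_pp_203_a : ∃ t, chk3 f_pp_203_a t 1 1 1 = true :=
  ⟨(l 4), by decide +kernel⟩

theorem c_pp_203_a : CertNX 0 420477299 0 536870912 1046898278 26843546 3 true true true .up 2 0 3
    ndN1q2a ndN6q0 pcN3 Cut.none Ext.none :=
  certNX0 (fam := true) (s1 := true) (s2 := true) (a := 2) (b := 0) (c := 3) (cn := .up) (n1 := ndN1q2a) (n2 := ndN6q0) (pc := pcN3) (cut := Cut.none) (xt := Ext.none) (P1 := 0) (W1 := 420477299) (P2 := 0) (W2 := 536870912) (P3 := 1046898278) (W3 := 26843546) (N0 := 3)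
    rfl k0_pp_203_a

noncomputable def f_pp_203_b : ℕ → ℕ → ℕ → ℕ → Bool := onCell 1239849684 370763052 0 536870912 1046898278 26843546
    (rowNX 3 0 true true true .up 2 0 3 (qsf 1239849684 370763052 0 536870912 3) ndN1q2b ndN6q0 pcN3 Cut.none Ext.none)

def k0_pp_203_b : ∃ t, chk3 f_pp_203_b t 1 1 1 = true :=
  ⟨(l 4), by decide +kernel⟩

theorem c_pp_203_b : CertNX 1239849684 370763052 0 536870912 1046898278 26843546 3 true true true .up 2 0 3
    ndN1q2b ndN6q0 pcN3 Cut.none Ext.none :=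
  certNX0 (fam := true) (s1 := true) (s2 := true) (a := 2) (b := 0) (c := 3) (cn := .up) (n1 := ndN1q2b) (n2 := ndN6q0) (pc := pcN3) (cut := Cut.none) (xt := Ext.none) (P1 := 1239849684) (W1 := 370763052) (P2 := 0) (W2 := 536870912) (P3 := 1046898278) (W3 := 26843546) (N0 := 3)
    rfl k0_pp_203_b

noncomputable def f_pp_213_a : ℕ → ℕ → ℕ → ℕ → Bool := onCell 0 420477299 536870912 469762048 1046898278 26843546
    (rowNX 3 0 true true true .pnn 2 1 3 (qsf 0 420477299 536870912 469762048 3) ndN1q2a ndN6q1 pcN3 Cut.none Ext.none)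

def k0_pp_213_a : ∃ t, chk3 f_pp_213_a t 1 1 1 = true :=
  ⟨(l 4), by decide +kernel⟩

theorem c_pp_213_a : CertNX 0 420477299 536870912 469762048 1046898278 26843546 3 true true true .pnn 2 1 3
    ndN1q2a ndN6q1 pcN3 Cut.none Ext.none :=
  certNX0 (fam := true) (s1 := true) (s2 := true) (a := 2) (b := 1) (c := 3) (cn := .pnn) (n1 := ndN1q2a) (n2 := ndN6q1) (pc := pcN3) (cut := Cut.none) (xt := Ext.none) (P1 := 0) (W1 := 420477299) (P2 := 536870912) (W2 := 469762048) (P3 := 1046898278) (W3 := 26843546) (N0 := 3)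
    rfl k0_pp_213_a

noncomputable def f_pp_213_b : ℕ → ℕ → ℕ → ℕ → Bool := onCell 1239849684 370763052 536870912 469762048 1046898278 26843546
    (rowNX 3 0 true true true .pnn 2 1 3 (qsf 1239849684 370763052 536870912 469762048 3) ndN1q2b ndN6q1 pcN3 Cut.none Ext.none)

def k0_pp_213_b : ∃ t, chk3 f_pp_213_b t 1 1 1 = true :=
  ⟨(l 4), by decide +kernel⟩

theorem c_pp_213_b : CertNX 1239849684 370763052 536870912 469762048 1046898278 26843546 3 true true true .pnn 2 1 3
    ndN1q2b ndN6q1 pcN3 Cut.none Ext.none :=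
  certNX0 (fam := true) (s1 := true) (s2 := true) (a := 2) (b := 1) (c := 3) (cn := .pnn) (n1 := ndN1q2b) (n2 := ndN6q1) (pc := pcN3) (cut := Cut.none) (xt := Ext.none) (P1 := 1239849684) (W1 := 370763052) (P2 := 536870912) (W2 := 469762048) (P3 := 1046898278) (W3 := 26843546) (N0 := 3)
    rfl k0_pp_213_b

noncomputable def f_pp_303 : ℕ → ℕ → ℕ → ℕ → Bool := onCell 1610612736 469762048 0 536870912 1046898278 26843546
    (rowNX 3 0 true true true .npn 3 0 3 (qsf 1610612736 469762048 0 536870912 3) ndN1q3 ndN6q0 pcN3 Cut.none Ext.none)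

def k0_pp_303 : ∃ t, chk3 f_pp_303 t 1 1 1 = true :=
  ⟨(l 4), by decide +kernel⟩

theorem c_pp_303 : CertNX 1610612736 469762048 0 536870912 1046898278 26843546 3 true true true .npn 3 0 3
    ndN1q3 ndN6q0 pcN3 Cut.none Ext.none :=
  certNX0 (fam := true) (s1 := true) (s2 := true) (a := 3) (b := 0) (c := 3) (cn := .npn) (n1 := ndN1q3) (n2 := ndN6q0) (pc := pcN3) (cut := Cut.none) (xt := Ext.none) (P1 := 1610612736) (W1 := 469762048) (P2 := 0) (W2 := 536870912) (P3 := 1046898278) (W3 := 26843546) (N0 := 3)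
    rfl k0_pp_303

noncomputable def f_pp_313 : ℕ → ℕ → ℕ → ℕ → Bool := onCell 1610612736 469762048 536870912 469762048 1046898278 26843546
    (rowNX 3 0 true true true .dn 3 1 3 (qsf 1610612736 469762048 536870912 469762048 3) ndN1q3 ndN6q1 pcN3 Cut.none Ext.none)

def k0_pp_313 : ∃ t, chk3 f_pp_313 t 1 1 1 = true :=
  ⟨(l 4), by decide +kernel⟩

theorem c_pp_313 : CertNX 1610612736 469762048 536870912 469762048 1046898278 26843546 3 true true true .dn 3 1 3
    ndN1q3 ndN6q1 pcN3 Cut.none Ext.none :=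
  certNX0 (fam := true) (s1 := true) (s2 := true) (a := 3) (b := 1) (c := 3) (cn := .dn) (n1 := ndN1q3) (n2 := ndN6q1) (pc := pcN3) (cut := Cut.none) (xt := Ext.none) (P1 := 1610612736) (W1 := 469762048) (P2 := 536870912) (W2 := 469762048) (P3 := 1046898278) (W3 := 26843546) (N0 := 3)
    rfl k0_pp_313

noncomputable def f_pm_001 : ℕ → ℕ → ℕ → ℕ → Bool := onCell 67108864 469762048 536870912 536870912 1046898278 26843546
    (rowNX 3 1 true true false .up 0 0 1 (qsf 67108864 469762048 0 536870912 1) ndN1q0 ndN6q0 pcN1 Cut.none Ext.none)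

def k0_pm_001 : ∃ t, chk3 f_pm_001 t 1 1 1 = true :=
  ⟨(b (l 3) (b (l 3) (a (l 2) (b (l 3) (a (l 2) (b (b (l 3) (b (l 15675920) (l 15572064))) (a (l 2) (b (c (b (l 15564968) (l 15458976)) (l 15484080)) (c (l 15428808) (b (l 15396248) (l 15141992))))))))))), by decide +kernel⟩

theorem c_pm_001 : CertNX 67108864 469762048 0 536870912 1046898278 26843546 3 true true false .up 0 0 1
    ndN1q0 ndN6q0 pcN1 Cut.none Ext.none :=
  certNX1 (fam := true) (s1 := true) (s2 := false) (a := 0) (b := 0) (c := 1) (cn := .up) (n1 := ndN1q0) (n2 := ndN6q0) (pc := pcN1) (cut := Cut.none) (xt := Ext.none) (P1 := 67108864) (W1 := 469762048) (P2 := 0) (W2 := 536870912) (P3 := 1046898278) (W3 := 26843546) (N0 := 3)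
    rfl (fun _ => rfl) k0_pm_001

noncomputable def f_pm_011 : ℕ → ℕ → ℕ → ℕ → Bool := onCell 67108864 469762048 536870912 536870912 1046898278 26843546
    (rowNX 3 1 true true false .pnn 0 1 1 (qsf 67108864 469762048 536870912 469762048 1) ndN1q0 ndN6q1 pcN1 Cut.none Ext.none)

def k0_pm_011 : ∃ t, chk3 f_pm_011 t 1 2 1 = true :=
  ⟨(l 3), by decide +kernel⟩

def k1_pm_011 : ∃ t, chk3 f_pm_011 t 1 6 1 = true :=
  ⟨(l 3), by decide +kernel⟩

def k2_pm_011 : ∃ t, chk3 f_pm_011 t 1 14 1 = true :=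
  ⟨(l 3), by decide +kernel⟩

def k3_pm_011 : ∃ t, chk3 f_pm_011 t 1 30 1 = true :=
  ⟨(a (l 3) (b (l 1008409263079) (b (l 947742583767) (a (l 1139942120167) (l 15572064))))), by decide +kernel⟩

def k4_pm_011 : ∃ t, chk3 f_pm_011 t 1 62 1 = true :=
  ⟨(a (a (l 3) (a (l 3) (c (b (l 3) (c (l 15530944) (l 1507161587639))) (l 15486976)))) (c (a (b (c (l 1100213559879) (l 15540368)) (c (l 15529120) (a (l 15511088) (l 15509224)))) (b (l 15544568) (c (l 15524960) (l 15505544)))) (a (l 15486312) (l 15484656)))), by decide +kernel⟩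

def k5_pm_011 : ∃ t, chk3 f_pm_011 t 1 126 1 = true :=
  ⟨(a (a (b (l 3) (b (l 3) (a (l 3) (a (l 3) (c (l 2851488178919) (c (a (l 3) (l 16246376)) (l 4017571779559))))))) (a (b (a (l 3) (a (a (l 3) (c (l 15375272) (l 15328280))) (c (l 15461424) (l 15418088)))) (a (c (l 15806664) (c (c (l 15841784) (l 15647536)) (l 15882352))) (c (a (l 15271480) (l 15432720)) (a (c (c (l 15441840) (a (l 15490648) (l 15365592))) (l 15407808)) (c (l 15295504) (l 15378864)))))) (c (l 15465024) (c (b (l 15452856) (l 15419264)) (l 15409896))))) (c (a (l 15461280) (l 15455192)) (c (a (b (l 15448832) (l 15414832)) (l 15420104)) (l 15402424)))), by decide +kernel⟩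

def k6_pm_011 : ∃ t, chk3 f_pm_011 t 4 127 1 = true :=
  ⟨(a (a (b (l 3) (c (a (c (a (a (c (l 16479976) (b (l 3) (a (l 16369336) (l 16454784)))) (l 16546096)) (l 16608648)) (c (a (c (a (b (l 3) (l 16376064)) (l 16536328)) (l 16447968)) (l 16488296)) (l 16402392))) (c (l 16303392) (c (a (l 16409296) (l 16309112)) (l 16383976)))) (a (c (l 16401208) (c (a (l 16493040) (l 16610104)) (b (a (l 3) (l 16544976)) (c (l 16391320) (a (l 16396576) (l 16572896)))))) (c (l 16379680) (c (l 16310992) (b (l 16243408) (c (l 16376392) (l 16270664)))))))) (a (b (l 3) (a (c (c (l 16136032) (c (l 16127480) (l 16117936))) (c (l 16110152) (c (l 16100896) (b (l 16093912) (l 16058960))))) (c (a (c (l 16017280) (c (l 16008104) (l 16001336))) (l 15984352)) (c (l 15917632) (a (c (l 15981256) (b (l 15978784) (c (l 15971240) (l 15968584)))) (c (l 15954240) (b (l 15959624) (l 15939448)))))))) (c (l 16017192) (c (l 15996456) (b (c (b (l 3) (l 15996344)) (l 15998480)) (c (l 15968840) (b (l 15974232) (l 15954320))))))))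 (a (c (a (l 16038000) (l 16061392)) (c (b (b (l 1833580247991) (l 16038600)) (l 16012624)) (b (c (b (l 1862034374135) (l 16029136)) (l 16033792)) (c (l 16002584) (b (l 16008000) (l 15988688)))))) (c (a (a (l 16041800) (l 16285176)) (l 16387680)) (c (a (b (l 16091168) (l 16039096)) (l 16298984)) (b (a (b (l 16198256) (c (l 16030656) (l 16214688))) (c (l 16312112) (l 16522704))) (a (c (l 15926304) (a (b (l 16077360) (l 15990528)) (l 16112472))) (c (l 16397896) (l 16187496)))))))), by decide +kernel⟩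

def k7_pm_011 : ∃ t, chk3 f_pm_011 t 5 127 1 = true :=
  ⟨(a (a (c (l 15828880) (b (c (l 15842720) (a (l 15954240) (l 15780936))) (c (l 15999448) (c (l 15973384) (a (b (l 16235056) (l 16256048)) (l 15942752)))))) (c (a (l 15602840) (a (l 15436168) (l 15419024))) (a (c (l 15576384) (b (l 15492264) (l 15443256))) (c (a (l 15404464) (l 15386760)) (b (a (l 15342320) (l 15367680)) (a (c (l 15396520) (l 15383408)) (l 15348600))))))) (c (l 15417184) (c (l 15384808) (b (l 15366072) (l 15346448))))), by decide +kernel⟩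

def k8_pm_011 : ∃ t, chk3 f_pm_011 t 3 127 1 = true :=
  ⟨(c (l 15407208) (a (c (l 15378912) (b (l 15361000) (l 15340088))) (c (l 15369616) (l 15322168)))), by decide +kernel⟩

theorem s9_pm_011 : ∃ t, chk3 f_pm_011 t 2 127 1 = true := ex3_a k6_pm_011 k7_pm_011

theorem s10_pm_011 : ∃ t, chk3 f_pm_011 t 1 127 1 = true := ex3_a s9_pm_011 k8_pm_011

theorem s11_pm_011 : ∃ t, chk3 f_pm_011 t 1 63 1 = true := ex3_b k5_pm_011 s10_pm_011

theorem s12_pm_011 : ∃ t, chk3 f_pm_011 t 1 31 1 = true := ex3_b k4_pm_011 s11_pm_011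

theorem s13_pm_011 : ∃ t, chk3 f_pm_011 t 1 15 1 = true := ex3_b k3_pm_011 s12_pm_011

theorem s14_pm_011 : ∃ t, chk3 f_pm_011 t 1 7 1 = true := ex3_b k2_pm_011 s13_pm_011

theorem s15_pm_011 : ∃ t, chk3 f_pm_011 t 1 3 1 = true := ex3_b k1_pm_011 s14_pm_011

theorem s16_pm_011 : ∃ t, chk3 f_pm_011 t 1 1 1 = true := ex3_b k0_pm_011 s15_pm_011

theorem c_pm_011 : CertNX 67108864 469762048 536870912 469762048 1046898278 26843546 3 true true false .pnn 0 1 1
    ndN1q0 ndN6q1 pcN1 Cut.none Ext.none :=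
  certNX1 (fam := true) (s1 := true) (s2 := false) (a := 0) (b := 1) (c := 1) (cn := .pnn) (n1 := ndN1q0) (n2 := ndN6q1) (pc := pcN1) (cut := Cut.none) (xt := Ext.none) (P1 := 67108864) (W1 := 469762048) (P2 := 536870912) (W2 := 469762048) (P3 := 1046898278) (W3 := 26843546) (N0 := 3)
    rfl (fun _ => rfl) s16_pm_011

noncomputable def f_pm_012 : ℕ → ℕ → ℕ → ℕ → Bool := onCell 1073741824 536870912 536870912 469762048 1046898278 26843546
    (rowNX 3 2 true true false .pnp 0 1 2 (qsf 67108864 469762048 536870912 469762048 2) ndN1q0 ndN6q1 pcN2 Cut.none Ext.none)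

def k0_pm_012 : ∃ t, chk3 f_pm_012 t 8 2 1 = true :=
  ⟨(b (a (c (a (c (a (l 15607392) (l 15565168)) (l 15627104)) (l 15455120)) (a (c (l 15594496) (l 15560648)) (l 15559400))) (c (c (b (l 15558768) (c (l 15525360) (l 15585856))) (l 15543496)) (l 15503896))) (a (a (c (a (c (l 15584232) (b (l 15543496) (l 15544776))) (c (b (l 15642912) (l 15625440)) (a (l 15587112) (l 15602568)))) (c (a (a (l 15499744) (a (l 15524592) (l 15534280))) (l 15545552)) (l 15503768))) (c (c (b (l 15662432) (l 15662496)) (l 15609752)) (c (l 15558808) (l 15530256)))) (c (a (c (l 15647584) (a (l 15608832) (l 15613928))) (c (b (c (l 15617576) (l 15606584)) (l 15649856)) (l 15460888))) (a (l 15577920) (l 15572624))))), by decide +kernel⟩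

def k1_pm_012 : ∃ t, chk3 f_pm_012 t 16 6 1 = true :=
  ⟨(b (a (c (a (c (l 15539632) (l 15517440)) (c (l 15611728) (l 15577640))) (c (a (a (l 15460480) (c (l 15519432) (l 15488144))) (l 15522352)) (l 15466976))) (c (c (l 15663088) (l 15609400)) (c (l 15552752) (l 15521600)))) (c (a (b (b (a (b (l 15515504) (l 15615488)) (c (l 15662648) (l 15587192))) (a (l 15778760) (c (l 15988936) (l 15920664)))) (a (b (l 16025968) (l 16304032)) (b (c (l 16310104) (l 16269304)) (c (l 16399792) (l 16384840))))) (b (b (b (l 15633080) (l 15748440)) (a (l 16001464) (l 16083680))) (b (a (l 16368848) (l 16476504)) (a (l 16258208) (l 16189960))))) (a (b (b (c (a (a (b (l 15461696) (l 15558552)) (c (l 15563632) (b (l 15487528) (l 15605864)))) (b (l 15522160) (l 15643672))) (b (l 15454744) (l 15545152))) (a (c (c (l 15842056) (a (l 15794432) (l 15869952))) (l 15803720)) (c (l 15776856) (l 15901112)))) (a (c (a (b (l 16119288) (l 16406648)) (b (l 16027336) (l 16375528))) (c (c (a (a (l 16130264) (l 16086800))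 (l 16173736)) (l 16091272)) (l 16039352))) (c (b (l 16236280) (l 16400128)) (b (c (l 16196400) (l 16235808)) (l 16252360))))) (b (b (c (c (l 15620080) (l 15577280)) (l 15579136)) (c (c (l 16009280) (l 15970696)) (l 15976256))) (c (b (a (l 16349200) (l 16418248)) (l 16144128)) (b (l 16277856) (l 16272976))))))), by decide +kernel⟩

def k2_pm_012 : ∃ t, chk3 f_pm_012 t 17 6 1 = true :=
  ⟨(b (c (c (a (l 15680072) (l 15693472)) (a (l 15627392) (l 15659512))) (c (l 15488640) (l 15601600))) (c (b (a (b (c (l 15745600) (l 15693688)) (l 15989144)) (c (b (l 15768816) (l 16125704)) (l 15774080))) (a (b (l 16263800) (c (l 16057504) (l 15985728))) (b (l 16226592) (l 15801616)))) (b (a (b (l 15659112) (l 16045152)) (c (b (l 15710528) (l 16035272)) (l 15829976))) (a (b (l 16299712) (b (l 16049320) (l 15937408))) (b (c (l 16438784) (l 16427408)) (c (l 15956920) (l 15938840))))))), by decide +kernel⟩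

def k3_pm_012 : ∃ t, chk3 f_pm_012 t 64 14 1 = true :=
  ⟨(c (b (b (c (l 16252320) (l 16183456)) (b (l 16038560) (l 15912584))) (c (l 15923336) (l 15910496))) (b (c (b (a (b (l 16381096) (l 16224688)) (l 16119544)) (a (b (l 16065816) (l 15956936)) (b (l 15984720) (l 15880096)))) (c (b (a (c (l 16236936) (c (l 16216544) (l 16300376))) (l 16171280)) (c (a (l 15857768) (l 15933064)) (a (b (l 16017872) (a (l 15967392) (l 15930864))) (l 15937304)))) (b (b (l 16350488) (l 16189832)) (b (l 16026768) (l 15916640))))) (c (a (l 15934696) (c (l 15866200) (l 15864896))) (a (c (c (l 15927448) (a (l 15941664) (l 15908224))) (c (a (l 15944968) (l 15915280)) (l 15926840))) (c (l 15867408) (l 15877136)))))), by decide +kernel⟩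

def k4_pm_012 : ∃ t, chk3 f_pm_012 t 64 15 1 = true :=
  ⟨(c (b (b (l 15885928) (b (b (l 15872312) (c (l 15903432) (a (l 15932344) (l 15842912)))) (c (l 15947000) (c (l 15852496) (l 15966432))))) (b (c (b (l 16181568) (l 16259672)) (c (b (l 16087728) (l 16166640)) (l 16076016))) (c (b (l 16360880) (b (l 16506072) (b (l 16463504) (l 16358096)))) (b (c (c (l 16408256) (l 16351296)) (l 16367576)) (c (b (l 16429136) (c (l 16385680) (l 16388504))) (a (l 16481424) (l 16563872))))))) (b (c (b (a (l 15904032) (l 15832368)) (b (a (b (l 15890720) (l 15917856)) (b (l 15817592) (l 15833848))) (a (l 16036568) (l 15857960)))) (c (b (a (l 15896128) (l 15835632)) (a (b (b (l 15882624) (l 15868176)) (l 16009456)) (b (l 15829288) (l 15925992)))) (b (a (c (a (l 15912192) (l 15881112)) (l 15895808)) (l 15842288)) (a (a (b (c (b (l 15896224) (l 15906768)) (l 15913928)) (c (l 16058712) (c (l 16062192) (l 16060096)))) (b (c (l 15875128) (l 15880936)) (c (l 16000072) (l 16006320)))) (b (b (l 15826936)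 (l 15843368)) (l 15764240)))))) (c (b (a (l 16202168) (l 16029168)) (a (b (l 16498680) (l 16437640)) (l 16289056))) (a (c (b (l 16073816) (b (l 16457920) (a (l 16512632) (l 16527768)))) (b (a (c (l 16209944) (c (l 16192296) (l 16338536))) (c (l 16275792) (l 16261336))) (a (a (c (l 16384152) (a (b (l 16561792) (l 16443400)) (l 16396152))) (c (l 16484752) (l 16435664))) (c (l 16525120) (l 16490128))))) (b (c (l 16184904) (l 16024416)) (c (l 16387296) (c (l 16399136) (l 16421936)))))))), by decide +kernel⟩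

def k5_pm_012 : ∃ t, chk3 f_pm_012 t 65 7 1 = true :=
  ⟨(b (c (b (b (c (l 16116584) (l 16117160)) (b (l 15755512) (a (l 15813280) (l 15741184)))) (c (l 15716448) (a (l 15805480) (l 15743880)))) (b (c (b (l 16127432) (l 15664520)) (b (l 15952664) (c (b (l 15895040) (l 15786648)) (l 15841224)))) (c (l 15781184) (c (b (l 15797784) (l 15784880)) (l 15789824))))) (c (b (b (c (l 15746936) (l 15742480)) (b (b (l 15729432) (c (l 15746904) (l 15742144))) (c (l 15792864) (c (l 15807176) (l 15803512))))) (c (b (a (l 15885248) (b (l 15879192) (l 16039200))) (b (a (l 16324760) (l 16219896)) (a (c (l 16386664) (b (l 16416304) (a (l 16543896) (l 16456560)))) (b (l 16356904) (c (l 16428928) (l 16407008)))))) (c (b (a (c (l 16053512) (l 16052568)) (b (l 15875664) (l 16036312))) (b (a (l 16213624) (l 16175920)) (c (a (c (l 16384880) (b (l 16460104) (l 16510864))) (l 16271440)) (a (a (l 16426024) (l 16448112)) (l 16355904))))) (a (b (l 16050880) (l 16301792)) (b (b (l 15865952) (l 15937712)) (a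 (l 16315120) (l 16215728))))))) (b (c (b (l 15749720) (b (l 15741160) (l 15812712))) (b (c (l 15759824) (l 15757616)) (c (b (l 15751848) (l 15824800)) (b (l 15748680) (l 15821640))))) (c (a (b (l 16060256) (b (l 16329896) (c (l 16315888) (a (l 16399456) (l 16449960))))) (b (b (l 15883000) (l 15957336)) (c (l 16049432) (l 16320360)))) (b (c (a (l 16078592) (l 15980584)) (l 15841056)) (c (b (l 16190616) (a (l 16475424) (l 16424472))) (b (l 16275264) (b (l 16393920) (l 16424472))))))))), by decide +kernel⟩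

def k6_pm_012 : ∃ t, chk3 f_pm_012 t 33 7 1 = true :=
  ⟨(b (c (b (b (l 15805872) (b (l 15689456) (l 15582176))) (a (b (l 15658328) (l 15659712)) (l 15542888))) (b (c (b (l 15864496) (b (l 15700912) (l 15591688))) (b (l 15945408) (l 15617016))) (c (a (l 15674056) (l 15556616)) (l 15601152)))) (c (b (b (l 15584624) (b (b (l 15564576) (a (l 15628040) (a (l 15550368) (l 15504264)))) (a (c (l 15684368) (l 15693336)) (c (a (l 15602360) (l 15556160)) (l 15598352))))) (c (b (a (a (b (l 15799152) (l 15925984)) (c (l 15776104) (a (l 15811664) (l 15780256)))) (a (c (l 15713888) (l 15742856)) (l 15681304))) (a (b (a (l 16101256) (c (l 15969352) (l 16003824))) (a (b (l 16237216) (l 16181712)) (c (l 16144728) (c (l 16177664) (l 15989576))))) (b (a (c (l 15868424) (l 15909800)) (l 15815816)) (c (a (l 16034640) (l 15934864)) (b (l 15988720) (l 15975304)))))) (b (a (c (a (c (b (l 15803728) (l 15933840)) (b (l 15790072) (l 15911928))) (c (l 15781592) (l 15787648))) (a (b (l 15797320) (l 15919176))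 (l 15795360))) (c (l 15719416) (l 15715968))) (a (c (a (c (b (l 16112600) (l 16067912)) (c (l 15984944) (l 16167320))) (c (b (l 16006992) (l 15960920)) (l 16027784))) (l 15874312)) (c (b (l 15870880) (c (l 16038568) (l 16002600))) (l 15937136)))))) (b (c (b (l 15599504) (a (l 15674592) (l 15569752))) (b (l 15589984) (b (l 15574720) (l 15643768)))) (c (a (b (b (l 15790080) (l 15881264)) (l 16001112)) (b (l 15721192) (l 15735552))) (b (a (b (l 15786800) (l 15900992)) (l 15708064)) (a (l 15982352) (l 15936112))))))), by decide +kernel⟩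

def k7_pm_012 : ∃ t, chk3 f_pm_012 t 17 7 1 = true :=
  ⟨(b (c (b (a (b (l 15708856) (b (l 15459536) (l 15347616))) (b (c (l 15535176) (l 15523248)) (c (l 15183832) (l 15166056)))) (a (c (l 15366440) (l 15370832)) (c (l 15132168) (l 15114288)))) (b (b (a (l 15678408) (c (l 15503504) (l 15479368))) (c (a (l 15393344) (l 15139904)) (a (l 15370736) (l 15112328)))) (c (a (l 15357648) (l 15087680)) (a (l 15336456) (l 15064568))))) (c (b (a (b (a (l 15439416) (l 15329104)) (c (b (l 15374536) (l 15440240)) (b (a (l 15434832) (l 15332968)) (a (l 15501440) (l 15396688))))) (b (a (l 15204272) (l 15072080)) (c (a (b (l 15226880) (l 15299528)) (l 14997144)) (b (l 15144848) (l 15222368))))) (a (c (b (l 15562592) (b (l 15686392) (b (l 15752000) (a (b (l 15846680) (l 15880992)) (l 15740272))))) (a (c (b (l 15623512) (b (l 15748584) (c (l 15718936) (l 15828888)))) (b (l 15613704) (l 15781392))) (c (b (l 15520752) (c (l 15553728) (l 15662192))) (l 15574480)))) (c (b (a (l 15416024) (l 15313432))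 (b (a (l 15534696) (l 15430040)) (c (l 15544688) (a (l 15636440) (l 15524552))))) (c (b (l 15351936) (c (b (l 15484952) (l 15568400)) (l 15483656))) (l 15396144))))) (b (a (b (c (l 15372088) (l 15350992)) (c (l 15400488) (b (l 15346456) (l 15407656)))) (b (c (l 15102624) (l 15079656)) (a (l 15208464) (l 15075736)))) (a (a (b (l 15595808) (l 15767136)) (l 15550544)) (l 15200704))))), by decide +kernel⟩

def k8_pm_012 : ∃ t, chk3 f_pm_012 t 9 2 1 = true :=
  ⟨(b (b (l 2) (a (c (l 15442512) (l 15569288)) (a (c (l 15611856) (l 15570952)) (l 15161352)))) (a (c (b (c (a (l 15514288) (c (l 15812120) (l 15798688))) (l 15718464)) (c (a (l 15743928) (c (l 15921440) (l 15924104))) (a (c (l 15743800) (l 15740320)) (c (l 15933408) (b (l 15879304) (l 15946648)))))) (a (l 15664592) (l 15694368))) (c (c (a (b (a (c (l 15876936) (l 15852128)) (l 15813272)) (a (c (l 16026424) (l 15914176)) (l 15950216))) (b (l 15628840) (c (l 15842016) (l 15853120)))) (b (l 15685192) (b (l 15860584) (a (c (a (l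 16084888) (l 16038768)) (l 16043472)) (l 15871648))))) (a (a (l 15908440) (l 15850136)) (l 15683808))))), by decide +kernel⟩

def k9_pm_012 : ∃ t, chk3 f_pm_012 t 9 6 2 = true :=
  ⟨(a (b (c (l 15693544) (c (a (l 15812744) (l 16036472)) (a (l 15802512) (l 15978064)))) (b (b (c (l 15844480) (a (l 15907816) (l 16170928))) (a (l 16099880) (l 16271944))) (b (c (l 16181448) (l 16090528)) (c (l 15763216) (l 15684280))))) (b (a (c (a (l 16206376) (l 16160752)) (a (c (l 16059040) (a (l 16178008) (l 16075064))) (c (l 16152720) (l 16171072)))) (c (l 15963168) (c (l 16017472) (b (l 15974672) (l 16071008))))) (b (c (a (b (a (l 16352456) (l 16325752)) (l 16392272)) (l 16329400)) (a (a (b (l 16345296) (l 16531760)) (l 16377936)) (b (l 16060448) (l 16513040)))) (a (a (c (l 15718912) (l 15618888)) (c (l 15811120) (l 15795240))) (c (l 15797744) (l 15741736)))))), by decide +kernel⟩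

def k10_pm_012 : ∃ t, chk3 f_pm_012 t 9 7 2 = true :=
  ⟨(a (b (b (b (c (l 15265960) (l 15240952)) (a (b (l 14984672) (l 14816192)) (l 14615344))) (a (l 14782128) (b (l 14436536) (l 14347296)))) (b (b (a (l 14770768) (l 14315376)) (a (c (l 14839208) (l 14595776)) (c (l 14371984) (l 14329472)))) (c (b (a (l 15024112) (l 14551752)) (a (b (l 15156232) (l 15127992)) (b (l 14695008) (l 14785048)))) (a (c (b (l 14998616) (b (l 15130048) (l 15189904))) (l 15042120)) (b (l 14506736) (b (l 14648032) (l 14509752))))))) (b (b (a (a (c (l 14614648) (b (l 15002920) (l 14489192))) (b (l 15024392) (l 14513592))) (c (l 14864640) (l 14832280))) (a (a (b (l 14252160) (l 14076648)) (l 14159096)) (l 14241448))) (b (a (b (a (l 13991080) (l 13911432)) (a (c (l 14038368) (l 13989528)) (c (l 13942152) (l 13891576)))) (b (l 13945624) (b (l 13850000) (l 13897392)))) (a (a (c (b (l 14207448) (b (l 14343384) (l 14436008))) (c (b (l 14170464) (l 14147952)) (l 14216056))) (c (b (l 14106160) (b (l 14238248)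 (l 14328296))) (c (l 14162952) (l 14109896)))) (c (b (l 14047416) (b (l 14175504) (l 14262864))) (c (l 14100960) (l 14047432))))))), by decide +kernel⟩

def k11_pm_012 : ∃ t, chk3 f_pm_012 t 9 6 3 = true :=
  ⟨(a (b (c (a (a (l 15766960) (l 15762512)) (b (l 16001616) (c (l 16078392) (l 16061912)))) (l 15900936)) (b (c (a (b (c (l 15893296) (l 15791080)) (c (l 16259048) (l 16215768))) (c (b (l 16097032) (l 16516592)) (b (b (l 16101160) (l 16162976)) (l 16381824)))) (b (l 15848688) (l 16218784))) (c (b (c (l 16231976) (a (l 16319720) (l 16120984))) (a (l 15829632) (l 15410624))) (a (b (l 16153168) (l 15675472)) (b (b (l 16261264) (l 16007144)) (l 15407528)))))) (c (c (b (b (l 16042520) (a (a (l 15995448) (l 16215608)) (l 15905520))) (b (a (a (b (b (l 16286896) (l 16395576)) (l 16533312)) (b (l 16319040) (l 16542632))) (b (l 16185264) (l 16514208))) (a (a (l 15690520) (l 15784960)) (b (l 16115888) (l 15597016))))) (b (l 16080928) (b (b (l 16138304) (a (a (c (l 16525568) (l 16528240))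 (l 16531328)) (l 16510432))) (a (a (b (a (l 16039160) (l 15941912)) (l 15506272)) (b (l 16028576) (l 15513184))) (b (c (l 16104072) (l 16105656)) (l 15584760)))))) (b (l 16029936) (b (b (l 16236408) (l 16508048)) (a (b (l 16020416) (a (a (l 15477744) (l 15228656)) (l 15464048))) (l 15838776)))))), by decide +kernel⟩

def k12_pm_012 : ∃ t, chk3 f_pm_012 t 9 7 3 = true :=
  ⟨(b (a (b (a (b (c (l 15321064) (l 15268080)) (c (l 14713648) (a (l 14773096) (l 14593248)))) (c (b (l 15113232) (l 14603072)) (b (l 14880472) (c (l 14365008) (l 14542784))))) (c (a (l 14732112) (b (l 14376440) (l 14284896))) (a (c (l 14714080) (l 14688504)) (c (b (l 14347168) (l 14253152)) (l 14182664))))) (a (b (b (a (c (l 14972648) (c (a (l 14950896) (l 14886248)) (l 14934160))) (c (l 14983528) (l 14921264))) (a (c (l 14449880) (a (l 14420536) (a (l 14380160) (l 14198512)))) (c (l 14455112) (l 14356472)))) (a (c (b (l 14186632) (l 14006456)) (a (c (l 14111320) (l 14065296)) (a (l 14039176) (l 13810888)))) (c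 (l 14091144) (l 14052448)))) (b (c (b (c (l 15065112) (l 15054832)) (l 14536232)) (c (b (l 15006488) (l 14490712)) (l 14757680))) (c (l 14176152) (l 14111952))))) (b (b (a (c (a (l 14720600) (l 14252272)) (c (l 14371112) (a (l 14681168) (l 14203488)))) (c (a (a (l 13918720) (l 13836912)) (l 13872344)) (a (a (c (l 13881904) (l 13716088)) (c (l 13799008) (l 13778280))) (c (l 13835064) (l 13810896))))) (a (a (l 14753448) (l 14263992)) (a (a (l 13914392) (l 13813776)) (c (l 13802584) (c (l 13764440) (l 13744168)))))) (a (a (l 14838720) (l 14522848)) (a (a (l 14161120) (l 14052576)) (l 13988904))))), by decide +kernel⟩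

def k13_pm_012 : ∃ t, chk3 f_pm_012 t 5 2 1 = true :=
  ⟨(b (l 2) (a (a (a (c (c (b (l 15410840) (c (l 15655680) (l 15647688))) (l 15497424)) (l 15463872)) (c (b (l 15211784) (c (a (l 15377152) (c (l 15638488) (l 15616496))) (l 15567448))) (a (l 15393072) (l 15473856)))) (c (b (l 15736272) (l 15788656)) (a (l 15673600) (l 15957880)))) (b (l 2) (a (a (l 16264808) (l 16599056)) (l 16776704))))), by decide +kernel⟩

def k14_pm_012 : ∃ t, chk3 f_pm_012 t 5 6 1 = true :=
  ⟨(a (c (c (a (b (a (c (l 15828736) (l 15824976)) (a (l 15618472) (b (l 15635976) (l 15823240)))) (b (a (l 16161808) (a (l 16060912) (l 16073664))) (a (l 15909336) (a (l 16020944) (l 15971976))))) (b (a (l 15699960) (c (l 16168960) (l 16167576))) (b (a (l 16125616) (l 16264864)) (l 15727760)))) (a (b (a (c (l 15840872) (b (l 15770336) (l 15889960))) (b (l 15710600) (c (a (l 15799008) (l 15832832)) (l 15797424)))) (a (b (b (l 15776048) (l 16301176)) (l 15813976)) (b (a (b (l 15879184) (l 16195136)) (b (c (l 15917672)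 (l 15923344)) (l 16039064))) (a (l 15890760) (b (l 16253744) (l 15754608)))))) (b (a (c (l 15947056) (l 15926176)) (l 16148624)) (b (a (b (l 15860376) (l 16334248)) (c (l 16378664) (l 16369416))) (a (b (l 16178992) (l 15686896)) (b (l 16075448) (l 15583600))))))) (a (b (a (l 15800048) (l 15623664)) (a (b (c (c (b (l 15994840) (l 16324568)) (l 16140176)) (l 16132792)) (c (c (b (l 16203944) (l 15699168)) (b (l 15926464) (l 15480376))) (l 15937264))) (c (c (b (a (l 16051656) (l 16054208)) (a (l 15876728) (b (l 16239048) (l 15742640)))) (b (l 16040664) (a (b (l 16250752) (l 15659592)) (l 15991432)))) (b (l 16011008) (l 15841136))))) (b (l 15975008) (b (a (l 16176496) (l 16362272)) (a (c (b (l 16093280) (l 15528776)) (l 15907784)) (b (l 16063040) (l 15527680))))))) (a (b (c (a (l 16437848) (l 16648832)) (l 16493984)) (b (c (a (b (l 16496752) (l 16339752)) (l 16330104)) (b (l 16554608) (l 16400288))) (c (a (c (l 15749744) (l 15526064)) (l 15588504)) (l 15525456)))) (b (l 16776776) (b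 (b (l 16714240) (l 16293312)) (l 15301696))))), by decide +kernel⟩

def k15_pm_012 : ∃ t, chk3 f_pm_012 t 5 14 1 = true :=
  ⟨(b (a (a (c (a (c (l 14963912) (l 14933944)) (a (c (l 15023312) (l 14994912)) (c (l 15023672) (l 14890552)))) (c (a (c (l 14911192) (b (l 15152864) (l 14638008))) (a (c (l 14976056) (b (l 15208888) (l 14701848))) (a (c (l 14988960) (b (l 15217776) (l 14713776))) (c (l 14967424) (l 14698600))))) (b (a (l 15098784) (l 15195472)) (a (l 14324872) (a (l 14642592) (b (l 14785128) (l 14541240))))))) (c (c (l 14757256) (a (l 14922648) (l 14805488))) (c (a (c (l 14882696) (b (l 15108776) (l 14605304))) (b (l 15018440) (l 14516648))) (l 14810072)))) (a (a (c (c (l 14753480) (l 14720984)) (l 14461768)) (c (l 14483144) (l 14550376))) (c (l 14505808) (l 14491216)))) (a (a (c (a (l 14348136) (a (l 14417328) (l 14426008))) (a (c (c (l 14294768) (l 14273920)) (l 14215128)) (a (c (l 14260672) (l 14303000)) (c (c (l 14376832) (l 14361520)) (a (l 14321592) (l 14298384))))))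 (c (c (l 14326952) (l 14285728)) (c (c (l 14258624) (l 14213968)) (l 14182928)))) (a (c (a (l 14155560) (l 14054592)) (l 14003816)) (a (l 13939920) (l 13939560))))), by decide +kernel⟩

def k16_pm_012 : ∃ t, chk3 f_pm_012 t 5 15 1 = true :=
  ⟨(b (a (a (a (c (b (l 14051176) (b (l 13907040) (l 13905432))) (c (b (l 13981376) (l 13831888)) (b (l 13954488) (c (l 13794352) (l 13774136))))) (a (c (b (l 14127608) (b (l 13990120) (l 13975904))) (c (l 13877056) (b (l 14026496) (c (l 13870384) (l 13849040))))) (b (c (l 14143192) (c (l 14076648) (l 13931344))) (c (a (l 13842592) (a (l 13995432) (b (l 13992656) (l 13980896)))) (c (a (l 13936464) (a (l 13921104) (l 13905408))) (a (c (l 13900680) (l 13877288)) (a (l 13879744) (l 13862328)))))))) (b (c (l 14027080) (c (a (l 14004952) (l 13906608)) (l 13902304))) (c (c (l 13903904) (l 13852968)) (c (l 13799880) (a (l 13821288) (l 13710104)))))) (a (c (b (l 13827704) (c (l 13719936) (l 13665512))) (b (l 13722728) (l 13353552))) (c (b (l 13714064)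 (c (l 13609624) (l 13552744))) (l 13536232)))) (a (a (a (c (b (c (l 13996816) (l 13941880)) (c (b (l 14101008) (l 14185848)) (l 14091200))) (l 13927152)) (a (c (b (c (l 14012064) (l 13957656)) (c (l 14100584) (l 14045328))) (l 13915408)) (a (c (b (l 14012864) (c (l 14085480) (l 14030032))) (l 13916984)) (c (a (b (l 14002312) (c (l 14056560) (l 14000568))) (b (c (l 14012536) (l 13958632)) (c (b (l 14023936) (l 14041912)) (c (l 13996456) (l 13937368))))) (a (c (l 13924520) (l 13885976)) (c (l 13906496) (l 13867288))))))) (c (c (b (l 13911704) (l 13930784)) (c (l 13889016) (l 13833904))) (c (a (l 13849448) (l 13744504)) (a (l 13806752) (l 13696704))))) (a (c (c (b (l 13723736) (l 13734664)) (c (l 13691496) (l 13634216))) (c (l 13594600) (l 13537184))) (c (c (b (l 13615840) (l 13632936)) (l 13563592)) (l 13454432))))), by decide +kernel⟩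

def k17_pm_012 : ∃ t, chk3 f_pm_012 t 3 1 1 = true :=
  ⟨(b (l 2) (b (a (b (a (l 16777216) (l 2)) (b (a (l 16505280) (l 2)) (a (l 15553200) (l 15553200)))) (l 2)) (b (a (a (b (l 14529856) (l 13939560)) (b (l 14529856) (l 13939560))) (b (l 2) (l 13939560))) (a (c (b (a (b (l 13713880) (l 13581040)) (b (l 13713880) (l 13581040))) (a (c (l 13628152) (l 13563424)) (c (l 13628152) (l 13563424)))) (b (l 13536064) (l 13454256))) (b (b (l 13660208) (l 13522328)) (c (l 13383280) (l 13454256))))))), by decide +kernel⟩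

theorem s18_pm_012 : ∃ t, chk3 f_pm_012 t 5 7 1 = true := ex3_b k15_pm_012 k16_pm_012

theorem s19_pm_012 : ∃ t, chk3 f_pm_012 t 5 3 1 = true := ex3_b k14_pm_012 s18_pm_012

theorem s20_pm_012 : ∃ t, chk3 f_pm_012 t 5 1 1 = true := ex3_b k13_pm_012 s19_pm_012

theorem s21_pm_012 : ∃ t, chk3 f_pm_012 t 9 3 3 = true := ex3_b k11_pm_012 k12_pm_012

theorem s22_pm_012 : ∃ t, chk3 f_pm_012 t 9 3 2 = true := ex3_b k9_pm_012 k10_pm_012

theorem s23_pm_012 : ∃ t, chk3 f_pm_012 t 9 3 1 = true := ex3_c s22_pm_012 s21_pm_012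

theorem s24_pm_012 : ∃ t, chk3 f_pm_012 t 9 1 1 = true := ex3_b k8_pm_012 s23_pm_012

theorem s25_pm_012 : ∃ t, chk3 f_pm_012 t 64 7 1 = true := ex3_b k3_pm_012 k4_pm_012

theorem s26_pm_012 : ∃ t, chk3 f_pm_012 t 32 7 1 = true := ex3_a s25_pm_012 k5_pm_012

theorem s27_pm_012 : ∃ t, chk3 f_pm_012 t 16 7 1 = true := ex3_a s26_pm_012 k6_pm_012

theorem s28_pm_012 : ∃ t, chk3 f_pm_012 t 8 7 1 = true := ex3_a s27_pm_012 k7_pm_012

theorem s29_pm_012 : ∃ t, chk3 f_pm_012 t 8 6 1 = true := ex3_a k1_pm_012 k2_pm_012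

theorem s30_pm_012 : ∃ t, chk3 f_pm_012 t 8 3 1 = true := ex3_b s29_pm_012 s28_pm_012

theorem s31_pm_012 : ∃ t, chk3 f_pm_012 t 8 1 1 = true := ex3_b k0_pm_012 s30_pm_012

theorem s32_pm_012 : ∃ t, chk3 f_pm_012 t 4 1 1 = true := ex3_a s31_pm_012 s24_pm_012

theorem s33_pm_012 : ∃ t, chk3 f_pm_012 t 2 1 1 = true := ex3_a s32_pm_012 s20_pm_012

theorem s34_pm_012 : ∃ t, chk3 f_pm_012 t 1 1 1 = true := ex3_a s33_pm_012 k17_pm_012

theorem c_pm_012 : CertNX 67108864 469762048 536870912 469762048 1046898278 26843546 3 true true false .pnp 0 1 2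
    ndN1q0 ndN6q1 pcN2 Cut.none Ext.none :=
  certNX2 (fam := true) (s1 := true) (s2 := false) (a := 0) (b := 1) (c := 2) (cn := .pnp) (n1 := ndN1q0) (n2 := ndN6q1) (pc := pcN2) (cut := Cut.none) (xt := Ext.none) (P1 := 67108864) (W1 := 469762048) (P2 := 536870912) (W2 := 469762048) (P3 := 1046898278) (W3 := 26843546) (N0 := 3)
    rfl (fun _ => rfl) s34_pm_012

end Pool.Agent.Strip051.G.IE1.Tab.C.NA16

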