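import Pool.Agent.Strip051.G.IE1.Tab

/-! # Certificates N29 (generated) -/

set_option linter.all false
set_option maxRecDepth 100000

namespace Pool.Agent.Strip051.G.IE1.Tab.C.NA16

open Pool.Agent.Strip051.PB Pool.Agent.Strip051.PB.T
open Pool.Agent.Strip051.G.IE1.Tab

noncomputable def f_pm_022 : ℕ → ℕ → ℕ → ℕ → Bool := onCell 67108864 469762048 1073741824 536870912 1046898278 26843546
    (rowNX 3 1 true true false .pp 0 2 2 (qsf 67108864 469762048 1073741824 536870912 2) ndN1q0 ndN6q2 pcN2 Cut.none Ext.none)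

def k0_pm_022 : ∃ t, chk3 f_pm_022 t 1 4 1 = true :=
  ⟨(l 3), by decide +kernel⟩

def k1_pm_022 : ∃ t, chk3 f_pm_022 t 2 20 1 = true :=
  ⟨(b (l 3) (a (b (l 3) (b (b (l 3) (a (a (l 3) (a (l 3) (l 15823184))) (c (a (l 15584152) (l 15188592)) (a (l 15546776) (l 15136552))))) (a (b (a (c (a (a (b (l 16247768) (l 16253888)) (b (l 16350768) (l 16331096))) (b (l 16330840) (l 16270112))) (a (b (l 16241184) (l 16202992)) (b (l 16344320) (l 16325656)))) (c (b (a (l 16047112) (l 15842328)) (a (l 16050072) (l 15845776))) (b (l 15900912) (a (l 16030344) (l 15818160))))) (a (c (a (b (b (b (l 16217784) (b (l 16239552) (a (l 16259600) (l 16332696)))) (l 16262856)) (l 16266944)) (b (b (b (l 16355360) (b (l 16355768) (l 16230208))) (l 16356720)) (l 16358344))) (b (a (b (b (l 16268096) (b (l 16289912) (a (l 16249528) (l 16346800)))) (l 16292376)) (b (b (l 16348072) (b (l 16348504) (l 16264904))) (l 16349512))) (a (l 16296688) (l 16351232)))) (c (b (b (b (a (l 16051912) (l 15847920)) (b (a (l 16052464)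 (l 15848560)) (a (c (l 16057640) (l 16048008)) (l 15848992)))) (l 15868976)) (l 15871360)) (b (b (b (l 15927304) (b (l 15906952) (a (l 16033240) (l 15821512)))) (l 15929384)) (l 15931880))))) (a (b (b (l 15529664) (c (l 15594152) (l 15557176))) (b (b (b (l 15578232) (b (l 15537048) (c (l 15597896) (l 15561064)))) (l 15580776)) (l 15583816))) (b (c (b (l 15195840) (l 15032904)) (b (l 15144064) (l 15149072))) (b (b (b (c (l 15203688) (l 15152200)) (b (c (l 15204592) (l 15153136)) (c (a (l 15323400) (l 1)) (l 14902104)))) (l 15181048)) (l 15184720))))))) (l 1))), by decide +kernel⟩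

def k2_pm_022 : ∃ t, chk3 f_pm_022 t 2 21 1 = true :=
  ⟨(a (a (a (a (c (l 16248120) (l 16310072)) (c (b (l 16212992) (l 16181616)) (b (l 16309656) (l 16169104)))) (a (c (b (l 16079600) (l 15988208)) (b (l 16061272) (l 16032280))) (l 15892856))) (a (l 15649656) (l 15264464))) (a (a (l 14753592) (l 1)) (l 1))), by decide +kernel⟩

def k3_pm_022 : ∃ t, chk3 f_pm_022 t 2 11 1 = true :=
  ⟨(a (a (a (b (a (b (c (l 16106464) (l 16096536)) (a (c (l 15921744) (l 16017872)) (c (l 15839032) (l 15926864)))) (c (l 15865304) (l 15907288))) (a (a (b (l 15772072) (l 15617752)) (c (l 15934232) (l 16006608))) (b (b (c (l 15671144) (l 15772712)) (c (l 15763328) (l 15827568))) (c (l 16059880) (l 16136208))))) (a (b (c (l 15832328) (l 15806216)) (b (c (l 15611016) (l 15577456)) (c (a (l 15801656) (l 15515904)) (l 15425824)))) (b (l 15804528) (b (l 15579256) (l 15456360))))) (a (b (b (l 15734464) (l 15721120)) (l 15553040)) (b (l 15411496) (b (l 15499104) (l 15475032))))) (a (a (l 15020440) (b (l 241083485607)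 (l 14677696))) (l 267926494199))), by decide +kernel⟩

def k4_pm_022 : ∃ t, chk3 f_pm_022 t 3 5 1 = true :=
  ⟨(l 1), by decide +kernel⟩

def k5_pm_022 : ∃ t, chk3 f_pm_022 t 2 3 1 = true :=
  ⟨(a (b (a (b (a (b (a (c (l 15168712) (l 15199536)) (c (b (l 15980224) (l 15681304)) (l 15656480))) (a (b (c (l 14837624) (l 14766240)) (l 14727736)) (b (l 15315568) (c (l 15143176) (l 15086336))))) (b (a (c (b (l 15905064) (l 16249456)) (b (l 15994648) (l 16240776))) (b (l 15515208) (l 15995784))) (a (b (a (l 15775480) (l 16029576)) (l 15373008)) (l 16186456)))) (b (a (l 14720648) (a (c (l 15422784) (l 15375504)) (l 15675352))) (a (l 14888424) (l 15465952)))) (b (a (b (b (l 15365640) (a (l 15548952) (l 15279960))) (b (a (l 15962584) (l 15507456)) (l 15987304))) (b (l 15301784) (b (a (l 15197928) (l 15092064)) (a (l 15467728) (l 15096136))))) (a (b (l 15888056) (l 15782544)) (b (a (l 15984112) (l 15589128)) (a (l 16141600) (l 16462936)))))) (a (a (b (l 14888424) (l 14888424)) (c (l 15488520) (l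 15443280))) (b (a (l 15744944) (l 15900288)) (l 15887280)))) (b (a (b (a (b (l 15181480) (l 15012040)) (b (l 14870760) (l 14921664))) (a (b (b (a (l 15002600) (l 14825448)) (a (l 15355368) (l 14920624))) (a (l 15988776) (l 15533208))) (b (l 14760608) (a (l 14985112) (b (l 14617128) (l 14802432)))))) (b (l 14608896) (b (l 14811120) (a (l 14686616) (l 14829688))))) (a (b (a (b (a (l 16424680) (l 16380680)) (l 16387232)) (b (a (l 15932216) (l 15471056)) (a (l 16652016) (l 16326192)))) (l 16534408)) (b (b (a (b (l 14761664) (l 15089232)) (l 14686320)) (a (l 15702752) (b (l 14824792) (l 15201424)))) (b (a (b (l 16386112) (l 16653168)) (l 15811592)) (a (l 16771848) (l 16553224))))))), by decide +kernel⟩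

def k6_pm_022 : ∃ t, chk3 f_pm_022 t 3 3 1 = true :=
  ⟨(b (a (b (a (l 14093704) (l 1)) (a (l 14649616) (l 14316168))) (l 1)) (a (b (a (b (l 14806472) (a (l 14696280) (l 14794704))) (l 14703128)) (a (b (a (l 14997744) (l 14716312)) (a (l 15877168) (l 15217752))) (b (l 14792440) (a (l 14746240) (l 14746760))))) (b (l 330740338455) (a (l 14727736) (l 14423832))))), by decide +kernel⟩

theorem s7_pm_022 : ∃ t, chk3 f_pm_022 t 1 3 1 = true := ex3_a k5_pm_022 k6_pm_022

theorem s8_pm_022 : ∃ t, chk3 f_pm_022 t 2 10 1 = true := ex3_b k1_pm_022 k2_pm_022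

theorem s9_pm_022 : ∃ t, chk3 f_pm_022 t 2 5 1 = true := ex3_b s8_pm_022 k3_pm_022

theorem s10_pm_022 : ∃ t, chk3 f_pm_022 t 1 5 1 = true := ex3_a s9_pm_022 k4_pm_022

theorem s11_pm_022 : ∃ t, chk3 f_pm_022 t 1 2 1 = true := ex3_b k0_pm_022 s10_pm_022

theorem s12_pm_022 : ∃ t, chk3 f_pm_022 t 1 1 1 = true := ex3_b s11_pm_022 s7_pm_022

theorem c_pm_022 : CertNX 67108864 469762048 1073741824 536870912 1046898278 26843546 3 true true false .pp 0 2 2
    ndN1q0 ndN6q2 pcN2 Cut.none Ext.none :=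
  certNX1 (fam := true) (s1 := true) (s2 := false) (a := 0) (b := 2) (c := 2) (cn := .pp) (n1 := ndN1q0) (n2 := ndN6q2) (pc := pcN2) (cut := Cut.none) (xt := Ext.none) (P1 := 67108864) (W1 := 469762048) (P2 := 1073741824) (W2 := 536870912) (P3 := 1046898278) (W3 := 26843546) (N0 := 3)
    rfl (fun _ => rfl) s12_pm_022

noncomputable def f_pm_023 : ℕ → ℕ → ℕ → ℕ → Bool := onCell 67108864 469762048 1073741824 536870912 1046898278 26843546
    (rowNX 3 0 true true false .up 0 2 3 (qsf 67108864 469762048 1073741824 536870912 3) ndN1q0 ndN6q2 pcN3 Cut.none Ext.none)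

def k0_pm_023 : ∃ t, chk3 f_pm_023 t 1 1 1 = true :=
  ⟨(b (a (b (l 1) (a (l 1) (b (l 1) (b (l 1224097982487) (l 16448752))))) (b (b (l 285107306311) (a (l 14816816) (l 14816816))) (b (b (b (l 14569680) (l 14786560)) (l 15403720)) (b (l 16347856) (l 16776616))))) (b (a (a (a (l 1) (l 15887280)) (a (l 16530888) (l 16777216))) (l 16777168)) (a (a (a (a (l 14720648) (l 15465952)) (l 15887280)) (a (l 16530888) (l 16777216))) (a (l 16777184) (b (a (l 16777112) (b (l 16773448) (a (l 16771944) (l 16732448)))) (a (b (l 16764264) (a (l 16765824) (l 16721392))) (b (a (l 16728160) (l 16697704)) (a (l 16702968) (b (a (l 16722768) (l 16715664)) (a (l 16715432) (b (l 16700896) (a (l 16693672) (b (l 16666856) (a (l 16669280) (l 4))))))))))))))), by decide +kernel⟩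

theorem c_pm_023 : CertNX 67108864 469762048 1073741824 536870912 1046898278 26843546 3 true true false .up 0 2 3
    ndN1q0 ndN6q2 pcN3 Cut.none Ext.none :=
  certNX0 (fam := true) (s1 := true) (s2 := false) (a := 0) (b := 2) (c := 3) (cn := .up) (n1 := ndN1q0) (n2 := ndN6q2) (pc := pcN3) (cut := Cut.none) (xt := Ext.none) (P1 := 67108864) (W1 := 469762048) (P2 := 1073741824) (W2 := 536870912) (P3 := 1046898278) (W3 := 26843546) (N0 := 3)
    rfl k0_pm_023

noncomputable def f_pm_033 : ℕ → ℕ → ℕ → ℕ → Bool := onCell 1610612736 536870912 0 1230186008 1046898278 26843546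
    (rowNX 3 2 true true false .pnn 0 3 3 (qsf 67108864 469762048 0 1230186008 3) ndN1q0 ndN6q3 pcN3 Cut.none Ext.none)

def k0_pm_033 : ∃ t, chk3 f_pm_033 t 2 1 1 = true :=
  ⟨(b (l 1) (b (l 1) (b (a (l 1) (a (l 1) (b (a (l 1) (a (l 1) (a (l 1) (b (l 1) (b (l 1) (l 14487464)))))) (a (b (l 1) (a (b (l 1) (l 330741070711)) (b (l 296381287511) (l 14822704)))) (b (a (b (l 1) (l 14340912)) (b (l 14418272) (l 14883600))) (a (l 14822496) (l 15329584))))))) (a (b (l 1) (a (b (l 1) (a (l 1) (a (l 1) (a (l 1) (b (l 1) (l 380132848855)))))) (a (b (l 1) (a (b (l 1) (l 14388960)) (b (l 369395850919) (l 14915344)))) (b (a (b (l 1) (l 362416476567)) (b (l 349531497175) (l 14838032))) (b (l 273296843271) (l 15381256)))))) (b (a (b (a (l 1) (a (b (l 1) (l 343625847447)) (b (l 337183453047) (l 14794448)))) (a (c (b (a (l 1) (l 14463544)) (a (l 14467712) (l 14836064))) (a (l 14403392) (l 14629072))) (b (a (l 14792560) (l 15145936)) (l 15288000)))) (b (a (a (l 281886644391) (l 15293320)) (l 15530400))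 (a (l 15567184) (l 15944224)))) (a (b (a (b (l 269538550807) (l 15319880)) (l 15466888)) (a (l 15533416) (l 15998344))) (l 16059088))))))), by decide +kernel⟩

def k1_pm_033 : ∃ t, chk3 f_pm_033 t 3 1 1 = true :=
  ⟨(a (b (l 1) (b (b (l 1) (a (b (l 1) (a (l 1) (b (l 1) (c (a (l 1) (l 410735039095)) (l 14255808))))) (b (b (a (l 1) (c (a (l 1) (c (l 14587760) (l 14560448))) (l 14407456))) (a (a (l 1) (c (l 435967556967) (l 14371024))) (a (c (l 14645456) (l 14549608)) (l 14893056)))) (a (b (c (a (c (l 14516816) (l 14489600)) (l 14743288)) (l 14546096)) (a (b (l 14705512) (l 14938784)) (l 15165016))) (b (a (l 15006144) (l 15339064)) (l 15533392)))))) (b (a (a (b (a (b (l 1) (c (b (l 14316376) (l 14713576)) (l 14531056))) (b (b (l 1) (l 396239237207)) (b (l 14582056) (l 14995744)))) (b (l 15060384) (l 15485368))) (b (b (c (a (l 14731104) (l 15023456)) (l 14816760)) (l 15170512)) (b (l 15662072) (l 15966264)))) (b (c (l 15614224) (l 15682664)) (l 16265728))) (a (b (l 16126432) (l 16711336))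 (b (l 16709448) (l 16777192)))))) (a (b (l 1) (b (b (a (b (l 1) (a (a (l 1) (b (l 1) (l 14531584))) (c (b (c (l 14522264) (l 14494224)) (l 14789288)) (l 14566128)))) (b (l 4) (a (b (l 4) (l 15078464)) (l 4)))) (a (b (c (a (b (l 14855552) (l 15264400)) (l 15337296)) (l 15096320)) (a (l 15657360) (l 15834000))) (b (a (l 15546520) (l 15722424)) (l 16088616)))) (b (a (b (l 16288912) (l 16709248)) (b (a (l 16535984) (l 16652736)) (l 16748528))) (a (l 16774824) (l 16726600))))) (b (l 4) (a (b (b (l 4) (a (l 442614712871) (l 4))) (b (a (l 16737392) (l 16749992)) (a (l 16735512) (l 16742608)))) (b (l 4) (a (l 452280576871) (a (l 16674488) (a (l 16670416) (b (l 4) (l 4)))))))))), by decide +kernel⟩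

theorem s2_pm_033 : ∃ t, chk3 f_pm_033 t 1 1 1 = true := ex3_a k0_pm_033 k1_pm_033

theorem c_pm_033 : CertNX 67108864 469762048 0 1230186008 1046898278 26843546 3 true true false .pnn 0 3 3
    ndN1q0 ndN6q3 pcN3 Cut.none Ext.none :=
  certNX2 (fam := true) (s1 := true) (s2 := false) (a := 0) (b := 3) (c := 3) (cn := .pnn) (n1 := ndN1q0) (n2 := ndN6q3) (pc := pcN3) (cut := Cut.none) (xt := Ext.none) (P1 := 67108864) (W1 := 469762048) (P2 := 0) (W2 := 1230186008) (P3 := 1046898278) (W3 := 26843546) (N0 := 3)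
    rfl (fun _ => rfl) s2_pm_033

noncomputable def f_pm_101 : ℕ → ℕ → ℕ → ℕ → Bool := onCell 536870912 536870912 0 536870912 1046898278 26843546
    (rowNX 3 2 true true false .npn 1 0 1 (qsf 536870912 536870912 0 536870912 1) ndN1q1 ndN6q0 pcN1 Cut.none Ext.none)

def k0_pm_101 : ∃ t, chk3 f_pm_101 t 2 1 1 = true :=
  ⟨(l 3), by decide +kernel⟩

def k1_pm_101 : ∃ t, chk3 f_pm_101 t 6 2 1 = true :=
  ⟨(l 3), by decide +kernel⟩

def k2_pm_101 : ∃ t, chk3 f_pm_101 t 14 2 1 = true :=
  ⟨(a (b (a (l 3) (b (b (b (c (b (l 15160456) (c (l 15333952) (l 15227160))) (b (c (l 14988888) (l 14872080)) (l 15076744))) (c (l 15363904) (l 15269312))) (c (l 182164150647) (l 15505488))) (b (l 15708504) (l 15808000)))) (l 3)) (b (b (b (b (c (b (l 14970736) (c (l 15166376) (l 14978400))) (b (c (l 14641960) (b (l 14360712) (l 14469088))) (l 14704184))) (c (b (l 15144608) (l 15222472)) (l 14928560))) (c (b (l 15342440) (l 15461096)) (l 15224856))) (b (b (l 15456328) (l 15496624)) (l 15570920))) (b (l 234241017607)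 (l 16138320)))), by decide +kernel⟩

def k3_pm_101 : ∃ t, chk3 f_pm_101 t 15 4 1 = true :=
  ⟨(b (a (b (c (b (a (b (l 15004736) (l 14999448)) (b (l 15316528) (c (a (l 15231256) (l 15339840)) (l 14890352)))) (a (l 15044024) (a (l 15009680) (l 15022416)))) (b (a (b (c (l 14409584) (l 14007816)) (l 14402864)) (b (c (l 14427672) (l 13827968)) (l 14303456))) (l 14583416))) (a (c (l 15203968) (l 14966192)) (c (a (l 15119440) (l 15056904)) (l 14860792)))) (b (b (a (c (c (a (b (l 15434984) (c (l 15464184) (l 15375800))) (b (l 15299528) (l 15324120))) (b (a (l 15397376) (l 15262296)) (c (l 15048800) (l 14983632)))) (b (c (l 14797432) (l 13883704)) (l 14399680))) (c (c (b (l 15080848) (l 15102120)) (b (l 15040240) (a (l 15159056) (l 14996264)))) (a (b (c (a (l 15122456) (l 15042784)) (l 14621896)) (a (l 14578416) (l 14680928))) (b (c (l 14923192) (l 14632936)) (l 14549112))))) (a (c (c (a (c (l 15246248) (l 15122608)) (l 15209872)) (a (l 14940912) (l 14991440))) (l 14629352)) (c (a (c (l 15200048)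 (l 15043360)) (l 15095216)) (a (c (l 14900440) (l 14764864)) (l 15064528))))) (a (c (c (a (c (l 15199840) (l 15142672)) (l 15181848)) (a (l 15056912) (l 15092792))) (l 14918880)) (c (c (l 15208040) (a (l 15150536) (l 15239384))) (a (c (l 15093560) (l 15034712)) (c (l 15229880) (a (l 15178768) (l 15216696)))))))) (a (b (a (l 15229280) (c (l 15117200) (l 15007112))) (a (l 15293176) (a (l 15145736) (l 15085664)))) (a (b (c (c (a (l 15218368) (l 15220368)) (l 15138240)) (l 15019976)) (c (a (l 15019736) (c (l 15165912) (l 15095032))) (l 14987880))) (c (b (l 15224144) (l 15134808)) (b (a (c (l 15122120) (l 15063448)) (c (l 15196560) (a (l 15132608) (l 15189992)))) (a (c (l 15028360) (l 14961456)) (c (l 15059752) (l 15000768)))))))), by decide +kernel⟩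

def k4_pm_101 : ∃ t, chk3 f_pm_101 t 15 5 1 = true :=
  ⟨(a (a (b (l 15487104) (l 15816800)) (b (a (l 15315536) (l 15235920)) (a (l 15624144) (l 15530776)))) (a (c (b (a (c (l 15277136) (l 15217216)) (c (l 15226168) (l 15176736))) (a (l 15510976) (c (l 15464288) (l 15398448)))) (b (l 15118448) (l 15425368))) (c (b (a (l 15152432) (l 15112816)) (l 15172464)) (b (a (c (l 14823680) (l 15024168)) (c (l 15037328) (a (l 14990800) (l 14848920)))) (a (c (l 15348856) (l 15323208)) (c (l 15289856) (b (l 15212912) (l 15305592)))))))), by decide +kernel⟩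

def k5_pm_101 : ∃ t, chk3 f_pm_101 t 3 3 1 = true :=
  ⟨(a (l 3) (a (b (a (l 3) (l 16110672)) (l 3)) (a (a (b (l 15878656) (l 15886992)) (b (a (l 15674944) (l 15577544)) (a (l 15675680) (l 15573864)))) (a (c (b (a (l 15371272) (c (l 15513096) (l 15492744))) (a (l 15395664) (c (l 15520224) (l 15500432)))) (l 118679170695)) (c (b (l 15409176) (l 15421624)) (c (a (b (l 15381792) (l 15412888)) (l 15349992)) (a (l 15385824) (b (l 15085832) (l 15289688))))))))), by decide +kernel⟩

theorem s6_pm_101 : ∃ t, chk3 f_pm_101 t 15 2 1 = true := ex3_b k3_pm_101 k4_pm_101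

theorem s7_pm_101 : ∃ t, chk3 f_pm_101 t 7 2 1 = true := ex3_a k2_pm_101 s6_pm_101

theorem s8_pm_101 : ∃ t, chk3 f_pm_101 t 3 2 1 = true := ex3_a k1_pm_101 s7_pm_101

theorem s9_pm_101 : ∃ t, chk3 f_pm_101 t 3 1 1 = true := ex3_b s8_pm_101 k5_pm_101

theorem s10_pm_101 : ∃ t, chk3 f_pm_101 t 1 1 1 = true := ex3_a k0_pm_101 s9_pm_101

theorem c_pm_101 : CertNX 536870912 536870912 0 536870912 1046898278 26843546 3 true true false .npn 1 0 1
    ndN1q1 ndN6q0 pcN1 Cut.none Ext.none :=
  certNX2 (fam := true) (s1 := true) (s2 := false) (a := 1) (b := 0) (c := 1) (cn := .npn) (n1 := ndN1q1) (n2 := ndN6q0) (pc := pcN1) (cut := Cut.none) (xt := Ext.none) (P1 := 536870912) (W1 := 536870912) (P2 := 0) (W2 := 536870912) (P3 := 1046898278) (W3 := 26843546) (N0 := 3)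
    rfl (fun _ => rfl) s10_pm_101

noncomputable def f_pm_102 : ℕ → ℕ → ℕ → ℕ → Bool := onCell 536870912 536870912 1073741824 536870912 1046898278 26843546
    (rowNX 3 1 true true false .npp 1 0 2 (qsf 536870912 536870912 0 536870912 2) ndN1q1 ndN6q0 pcN2 Cut.none Ext.none)

def k0_pm_102 : ∃ t, chk3 f_pm_102 t 2 4 1 = true :=
  ⟨(b (b (a (c (b (b (l 15702880) (l 15690200)) (l 15639064)) (b (c (l 15656376) (l 15627080)) (l 15570944))) (c (b (b (l 15802216) (l 15746280)) (l 15642440)) (b (b (l 15763824) (l 15699296)) (l 15589360)))) (a (c (b (l 15553856) (l 15469752)) (l 15458896)) (c (b (l 15491080) (a (l 15371600) (l 15294616))) (a (l 15388656) (l 15333488))))) (b (a (c (a (l 15534272) (l 15382552)) (a (l 15490616) (l 15333576))) (a (c (l 15195904) (l 15162096)) (c (b (l 15121664) (l 14847800)) (b (l 15063456) (l 14888056))))) (a (a (l 2) (b (b (l 15218312) (l 15252168)) (l 15112024))) (a (c (b (l 15035992) (l 14842824)) (l 14686856)) (b (c (b (l 14778864) (l 14732832)) (b (l 14751384)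 (l 14660216))) (a (l 14578200) (l 14531440))))))), by decide +kernel⟩

def k1_pm_102 : ∃ t, chk3 f_pm_102 t 3 4 1 = true :=
  ⟨(a (b (b (a (b (c (a (l 15830608) (l 15812472)) (a (l 15794856) (b (l 15813648) (l 15743344)))) (c (l 15641680) (l 15600520))) (l 15570160)) (a (a (c (b (l 15445408) (l 15251536)) (l 15298072)) (l 15330768)) (l 15329552))) (b (a (b (a (l 15033760) (l 15057088)) (l 14874104)) (l 15047392)) (a (l 14629056) (l 14739192)))) (b (a (b (a (l 15646288) (b (a (l 15769864) (l 15749952)) (l 15620456))) (l 15423320)) (b (a (b (a (c (l 15450608) (l 15579720)) (l 15468592)) (a (l 15384752) (c (l 15254072) (l 15198504)))) (b (a (c (b (l 15445952) (l 15320000)) (l 15309776)) (c (b (a (c (l 15358272) (l 15328408)) (c (l 15291768) (l 15263496))) (a (l 15229336) (c (l 15170216) (l 15137064)))) (b (a (l 15288328) (c (b (l 15263600) (l 15196568)) (b (l 15230992) (l 15162992)))) (l 15115416)))) (c (a (l 15127504) (c (l 15035576) (l 14990976))) (l 14994944)))) (a (b (a (l 15195424)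 (l 15027176)) (l 14927952)) (a (b (c (l 14903192) (l 14833792)) (l 14687552)) (b (l 14737296) (c (l 14573152) (l 14491280))))))) (a (b (l 15008848) (l 14604744)) (a (l 14425008) (b (b (a (l 14533056) (l 14371200)) (l 14280272)) (l 13962648)))))), by decide +kernel⟩

def k2_pm_102 : ∃ t, chk3 f_pm_102 t 1 5 1 = true :=
  ⟨(b (a (b (a (b (c (l 15042704) (l 15046944)) (l 2)) (a (b (c (l 14651456) (l 14576288)) (b (l 134313621719) (c (l 14887856) (l 14822232)))) (a (b (l 14408144) (b (l 14483960) (l 14742640))) (l 14495976)))) (a (l 2) (a (c (b (l 15223776) (l 15670312)) (l 15152464)) (a (l 15365672) (l 15369880))))) (a (b (b (l 14472944) (l 14695608)) (l 15223896)) (b (a (b (l 14350920) (l 14506792)) (b (l 13770312) (l 13879752))) (a (l 15100480) (l 14446136))))) (a (b (a (l 2) (a (b (l 15952264) (l 2)) (l 16307776))) (l 125728801623)) (a (b (a (l 16325048) (l 16360816)) (l 16698256)) (b (a (l 15821200) (l 15181632)) (l 15695904))))), by decide +kernel⟩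

def k3_pm_102 : ∃ t, chk3 f_pm_102 t 1 3 1 = true :=
  ⟨(a (b (l 123044102151) (l 2)) (b (a (l 16698584) (a (l 16169936) (l 15561248))) (a (l 16698584) (l 15864176)))), by decide +kernel⟩

theorem s4_pm_102 : ∃ t, chk3 f_pm_102 t 1 4 1 = true := ex3_a k0_pm_102 k1_pm_102

theorem s5_pm_102 : ∃ t, chk3 f_pm_102 t 1 2 1 = true := ex3_b s4_pm_102 k2_pm_102

theorem s6_pm_102 : ∃ t, chk3 f_pm_102 t 1 1 1 = true := ex3_b s5_pm_102 k3_pm_102

theorem c_pm_102 : CertNX 536870912 536870912 0 536870912 1046898278 26843546 3 true true false .npp 1 0 2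
    ndN1q1 ndN6q0 pcN2 Cut.none Ext.none :=
  certNX1 (fam := true) (s1 := true) (s2 := false) (a := 1) (b := 0) (c := 2) (cn := .npp) (n1 := ndN1q1) (n2 := ndN6q0) (pc := pcN2) (cut := Cut.none) (xt := Ext.none) (P1 := 536870912) (W1 := 536870912) (P2 := 0) (W2 := 536870912) (P3 := 1046898278) (W3 := 26843546) (N0 := 3)
    rfl (fun _ => rfl) s6_pm_102

noncomputable def f_pm_112 : ℕ → ℕ → ℕ → ℕ → Bool := onCell 1073741824 536870912 536870912 469762048 1046898278 26843546
    (rowNX 3 2 true true false .dn 1 1 2 (qsf 536870912 536870912 536870912 469762048 2) ndN1q1 ndN6q1 pcN2 Cut.none Ext.none)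

def k0_pm_112 : ∃ t, chk3 f_pm_112 t 1 1 1 = true :=
  ⟨(a (a (b (b (a (a (b (a (c (a (l 15599288) (l 15659992)) (l 15590960)) (c (l 15637520) (l 15562488))) (l 1)) (c (b (l 15543856) (b (l 15571552) (l 1))) (l 15503896))) (a (a (c (l 15526360) (l 15482416)) (c (l 15556048) (l 15513168))) (c (a (a (l 15545216) (l 15456864)) (l 15272488)) (b (l 14967904) (l 206188840583))))) (b (b (a (l 1) (a (l 1) (c (l 336112018535) (l 15626448)))) (l 1)) (l 1))) (l 1)) (a (b (a (b (a (c (l 15028312) (l 14966928)) (c (a (l 14985592) (l 15124528)) (a (l 14922704) (l 15066512)))) (b (a (c (l 15398944) (l 15350568)) (c (l 15211784) (l 15330496))) (l 1))) (a (b (c (l 15234312) (l 15330728)) (b (l 15489016) (l 311953043239))) (b (b (c (l 15677456) (l 15638552)) (l 15788344)) (c (l 15985664) (l 15957880))))) (l 1)) (b (c (a (b (a (l 16028608) (l 16541856)) (a (l 16277496) (l 16588024))) (l 16776656)) (a (b (a (l 16110440) (l 16533408)) (l 227665598039)) (l 16776656))) (b (b (a (c (l 913250002279) (l 16493984))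 (l 16776776)) (l 1)) (l 1))))) (b (a (a (b (l 16772056) (l 16777216)) (b (l 16712816) (l 16777216))) (b (a (l 16504160) (l 16073344)) (a (l 16765760) (l 16683256)))) (b (a (b (a (l 16777216) (l 16777216)) (b (a (l 16505280) (a (l 16505280) (l 16505280))) (a (l 15553200) (l 15553200)))) (b (l 16777208) (b (l 16505280) (l 15553200)))) (b (a (a (l 1) (b (l 14529856) (l 13939560))) (b (l 14529856) (l 13939560))) (a (l 1) (c (b (l 13647752) (l 179341567287)) (l 195447537623))))))), by decide +kernel⟩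

theorem c_pm_112 : CertNX 536870912 536870912 536870912 469762048 1046898278 26843546 3 true true false .dn 1 1 2
    ndN1q1 ndN6q1 pcN2 Cut.none Ext.none :=
  certNX2 (fam := true) (s1 := true) (s2 := false) (a := 1) (b := 1) (c := 2) (cn := .dn) (n1 := ndN1q1) (n2 := ndN6q1) (pc := pcN2) (cut := Cut.none) (xt := Ext.none) (P1 := 536870912) (W1 := 536870912) (P2 := 536870912) (W2 := 469762048) (P3 := 1046898278) (W3 := 26843546) (N0 := 3)
    rfl (fun _ => rfl) k0_pm_112

noncomputable def f_pm_113 : ℕ → ℕ → ℕ → ℕ → Bool := onCell 1610612736 536870912 536870912 469762048 1046898278 26843546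
    (rowNX 3 2 true true false .nn 1 1 3 (qsf 536870912 536870912 536870912 469762048 3) ndN1q1 ndN6q1 pcN3 Cut.none Ext.none)

def k0_pm_113 : ∃ t, chk3 f_pm_113 t 1 1 1 = true :=
  ⟨(b (a (a (b (a (l 15297816) (b (l 2) (l 15194416))) (a (l 16416200) (b (l 15676120) (l 16201192)))) (b (l 2) (a (a (l 15499448) (l 15234192)) (b (l 2) (l 15076368))))) (l 2)) (b (a (a (b (l 16391936) (b (l 16477264) (l 15542696))) (b (a (l 16130176) (l 15530632)) (a (b (l 16222624) (l 15420424)) (b (l 15666384) (l 15014912))))) (a (b (a (l 14896600) (l 2)) (a (b (l 14878160) (l 14461672)) (l 4))) (l 2))) (a (a (b (b (l 14528352) (l 13939560)) (c (b (l 13647752) (l 13592992)) (l 13514480))) (b (a (l 14194080) (b (l 14216592) (l 13777936))) (a (b (l 13586072) (l 13269944)) (c (b (l 13580744) (l 13562696)) (l 13448504))))) (a (a (b (a (l 13678400) (l 13437528)) (b (c (l 13265728) (l 13146920)) (c (l 13269824) (l 13243312)))) (a (b (l 4) (c (b (l 13057584) (l 13170704)) (l 12846800))) (l 4))) (l 4))))), by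 decide +kernel⟩

theorem c_pm_113 : CertNX 536870912 536870912 536870912 469762048 1046898278 26843546 3 true true false .nn 1 1 3
    ndN1q1 ndN6q1 pcN3 Cut.none Ext.none :=
  certNX2 (fam := true) (s1 := true) (s2 := false) (a := 1) (b := 1) (c := 3) (cn := .nn) (n1 := ndN1q1) (n2 := ndN6q1) (pc := pcN3) (cut := Cut.none) (xt := Ext.none) (P1 := 536870912) (W1 := 536870912) (P2 := 536870912) (W2 := 469762048) (P3 := 1046898278) (W3 := 26843546) (N0 := 3)
    rfl (fun _ => rfl) k0_pm_113

noncomputable def f_pm_123 : ℕ → ℕ → ℕ → ℕ → Bool := onCell 1610612736 536870912 1073741824 536870912 1046898278 26843546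
    (rowNX 3 2 true true false .npn 1 2 3 (qsf 536870912 536870912 1073741824 536870912 3) ndN1q1 ndN6q2 pcN3 Cut.none Ext.none)

def k0_pm_123 : ∃ t, chk3 f_pm_123 t 1 1 1 = true :=
  ⟨(a (b (b (a (b (l 14656704) (l 14816816)) (b (l 14656704) (l 14816816))) (b (a (b (l 14679208) (l 1)) (b (l 14679208) (l 15487608))) (b (l 16326880) (l 16776616)))) (l 288333234183)) (a (b (b (b (a (l 14651840) (l 14446216)) (l 14815584)) (b (b (l 14679232) (l 15487704)) (b (l 16347928) (l 16776696)))) (l 16777208)) (a (b (b (a (b (a (l 14579712) (l 14555664)) (l 14815704)) (b (a (l 14525280) (l 14534864)) (b (l 14884920) (l 14705496)))) (b (a (b (l 14676808) (l 15485008)) (b (l 14635632) (l 15431728))) (a (l 16566528) (b (l 16287872) (l 16715456))))) (a (l 16777032) (l 16776888))) (a (b (b (b (a (b (l 14337208) (l 14793824)) (b (l 42643660455) (l 14953448))) (a (b (l 14953168) (l 14738456)) (b (a (l 15041656) (l 15111472)) (l 14802888)))) (b (a (b (l 14654336) (l 15428200)) (b (l 14703088) (l 15474008)))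 (b (a (l 16270272) (l 16305600)) (l 16703864)))) (b (l 16860576) (l 16724736))) (b (b (b (a (b (l 4) (l 15200104)) (l 4)) (a (b (l 15245936) (l 14892896)) (l 4))) (b (a (b (c (l 14801128) (l 14663824)) (l 15494232)) (a (b (l 14797752) (l 15518048)) (l 4))) (a (b (l 16305504) (l 16736840)) (a (b (l 16309656) (l 16697032)) (a (b (l 16296072) (l 16697704)) (a (l 16299264) (l 4))))))) (a (c (l 16776912) (l 16777040)) (a (c (l 16777216) (l 16777216)) (a (l 16944992) (a (l 16777216) (a (l 16777216) (a (l 16777216) (b (l 16777216) (l 16756152))))))))))))), by decide +kernel⟩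

theorem c_pm_123 : CertNX 536870912 536870912 1073741824 536870912 1046898278 26843546 3 true true false .npn 1 2 3
    ndN1q1 ndN6q2 pcN3 Cut.none Ext.none :=
  certNX2 (fam := true) (s1 := true) (s2 := false) (a := 1) (b := 2) (c := 3) (cn := .npn) (n1 := ndN1q1) (n2 := ndN6q2) (pc := pcN3) (cut := Cut.none) (xt := Ext.none) (P1 := 536870912) (W1 := 536870912) (P2 := 1073741824) (W2 := 536870912) (P3 := 1046898278) (W3 := 26843546) (N0 := 3)
    rfl (fun _ => rfl) k0_pm_123

noncomputable def f_pm_133 : ℕ → ℕ → ℕ → ℕ → Bool := onCell 536870912 536870912 0 1230186008 1046898278 26843546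
    (rowNX 3 0 true true false .dn 1 3 3 (qsf 536870912 536870912 0 1230186008 3) ndN1q1 ndN6q3 pcN3 Cut.none Ext.none)

def k0_pm_133 : ∃ t, chk3 f_pm_133 t 1 1 1 = true :=
  ⟨(b (l 2) (b (l 2) (a (b (l 2) (a (b (l 2) (l 4)) (l 2))) (l 2)))), by decide +kernel⟩

theorem c_pm_133 : CertNX 536870912 536870912 0 1230186008 1046898278 26843546 3 true true false .dn 1 3 3
    ndN1q1 ndN6q3 pcN3 Cut.none Ext.none :=
  certNX0 (fam := true) (s1 := true) (s2 := false) (a := 1) (b := 3) (c := 3) (cn := .dn) (n1 := ndN1q1) (n2 := ndN6q3) (pc := pcN3) (cut := Cut.none) (xt := Ext.none) (P1 := 536870912) (W1 := 536870912) (P2 := 0) (W2 := 1230186008) (P3 := 1046898278) (W3 := 26843546) (N0 := 3)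
    rfl k0_pm_133

noncomputable def f_pm_202_a : ℕ → ℕ → ℕ → ℕ → Bool := onCell 0 420477299 0 536870912 1046898278 26843546
    (rowNX 3 0 true true false .pp 2 0 2 (qsf 0 420477299 0 536870912 2) ndN1q2a ndN6q0 pcN2 Cut.none Ext.none)

def k0_pm_202_a : ∃ t, chk3 f_pm_202_a t 2 4 1 = true :=
  ⟨(b (b (b (a (c (b (l 15639272) (l 15775808)) (b (c (l 15603760) (l 15580288)) (l 15741232))) (b (c (a (l 15530720) (l 15386312)) (a (c (l 15492072) (l 15466488)) (c (l 15112856) (b (l 15279008) (l 15337056))))) (c (b (l 15558128) (l 15642536)) (l 15456856)))) (a (c (l 15907608) (l 15904264)) (c (b (l 15731456) (l 15917616)) (l 15791504)))) (a (c (l 16170232) (l 16141736)) (b (c (l 16085336) (l 16048664)) (c (l 16274248) (l 16255192))))) (b (a (b (a (l 16283504) (l 16368912)) (l 16432040)) (b (a (l 16433776) (l 16444184)) (l 16508912))) (a (l 16596920) (l 16637504)))), by decide +kernel⟩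

def k1_pm_202_a : ∃ t, chk3 f_pm_202_a t 3 4 1 = true :=
  ⟨(b (a (b (b (c (a (b (l 15335552) (b (l 15327744) (l 15108896))) (b (l 15440072) (c (l 15388888) (l 15369536)))) (b (a (c (l 15291096) (b (l 15267624) (l 15257248))) (c (l 15397992) (b (l 15386168) (l 15355760)))) (a (c (l 15319504) (l 15285720)) (l 15330592)))) (a (c (b (l 15302368) (l 15635816)) (l 15492448)) (c (b (a (l 15340320) (l 15374024)) (l 15328480)) (a (l 15318680) (l 15286304))))) (a (b (l 15719192) (l 16058200)) (b (c (l 15424288) (l 15514056)) (l 15682912)))) (b (a (b (c (b (a (l 15585376) (l 15625504)) (b (l 15518816) (l 15453816))) (b (c (b (l 15597472) (l 15542688)) (b (a (l 15546376) (l 15591248)) (l 15520968))) (c (l 15467240) (l 15435120)))) (c (b (l 15300152) (l 15352392)) (l 15315480))) (b (c (b (a (l 15588696) (l 15428680)) (b (a (l 15519608) (l 15408280)) (c (l 15436936) (l 15426232)))) (b (c (b (l 15471656) (l 15263360)) (b (a (l 15545016) (l 15357120)) (l 15428608))) (c (a (l 15465920) (l 15361128))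 (l 15370864)))) (b (c (a (l 15417480) (l 15347360)) (l 15303920)) (c (l 15221928) (l 15202928))))) (a (b (a (c (l 15199840) (l 15280936)) (c (l 15219848) (l 15149192))) (a (l 15505408) (c (l 15170952) (l 15219448)))) (b (c (a (l 15170144) (l 15101456)) (l 15056672)) (a (c (l 15030152) (l 14964928)) (c (l 14910088) (l 14840472))))))) (a (b (a (b (l 16365864) (l 16585640)) (b (l 16179464) (l 16459880))) (a (l 16655696) (b (l 16681520) (l 16624624)))) (b (a (b (a (l 15928288) (l 15594648)) (a (l 16257184) (l 15962304))) (b (a (l 15181472) (b (l 14770184) (l 14831552))) (l 15342296))) (a (a (l 16475696) (l 16411928)) (a (l 16039904) (l 15667360)))))), by decide +kernel⟩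

def k2_pm_202_a : ∃ t, chk3 f_pm_202_a t 1 5 1 = true :=
  ⟨(a (b (a (b (l 16563080) (l 4)) (b (l 16621848) (a (l 16541040) (l 16593480)))) (a (l 4) (b (l 16669480) (l 16776192)))) (a (b (b (l 16652400) (l 16683824)) (b (l 16735352) (l 16772488))) (b (a (b (a (l 16642272) (l 16680928)) (l 16674096)) (b (a (l 16436856) (b (l 16116168) (l 16331448))) (l 16387480))) (a (b (l 16639424) (l 16677944)) (b (l 16286128) (l 16307864)))))), by decide +kernel⟩

def k3_pm_202_a : ∃ t, chk3 f_pm_202_a t 1 3 1 = true :=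
  ⟨(a (l 4) (b (a (b (c (l 16772680) (l 16772528)) (b (l 16772600) (l 4))) (b (a (l 16707520) (l 16386968)) (a (l 16707520) (l 16393072)))) (a (l 4) (b (a (l 16707520) (l 16393072)) (l 4))))), by decide +kernel⟩

theorem s4_pm_202_a : ∃ t, chk3 f_pm_202_a t 1 4 1 = true := ex3_a k0_pm_202_a k1_pm_202_a

theorem s5_pm_202_a : ∃ t, chk3 f_pm_202_a t 1 2 1 = true := ex3_b s4_pm_202_a k2_pm_202_a

theorem s6_pm_202_a : ∃ t, chk3 f_pm_202_a t 1 1 1 = true := ex3_b s5_pm_202_a k3_pm_202_a

theorem c_pm_202_a : CertNX 0 420477299 0 536870912 1046898278 26843546 3 true true false .pp 2 0 2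
    ndN1q2a ndN6q0 pcN2 Cut.none Ext.none :=
  certNX0 (fam := true) (s1 := true) (s2 := false) (a := 2) (b := 0) (c := 2) (cn := .pp) (n1 := ndN1q2a) (n2 := ndN6q0) (pc := pcN2) (cut := Cut.none) (xt := Ext.none) (P1 := 0) (W1 := 420477299) (P2 := 0) (W2 := 536870912) (P3 := 1046898278) (W3 := 26843546) (N0 := 3)
    rfl s6_pm_202_a

noncomputable def f_pm_202_b : ℕ → ℕ → ℕ → ℕ → Bool := onCell 1239849684 370763052 0 536870912 1046898278 26843546
    (rowNX 3 0 true true false .pp 2 0 2 (qsf 1239849684 370763052 0 536870912 2) ndN1q2b ndN6q0 pcN2 Cut.none Ext.none)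

def k0_pm_202_b : ∃ t, chk3 f_pm_202_b t 1 1 1 = true :=
  ⟨(b (b (a (b (a (b (a (b (c (b (l 15969544) (a (l 15921824) (l 16161696))) (b (c (l 15880968) (b (l 15895240) (l 15952656))) (l 15917920))) (c (a (l 16043568) (l 16000712)) (a (l 16002696) (l 16221104)))) (b (a (c (b (l 16311704) (l 16351776)) (b (c (l 16297088) (l 16287656)) (l 16340400))) (c (l 16488760) (b (l 16458584) (l 16500536)))) (c (b (l 16483560) (l 16535584)) (l 16449904)))) (a (a (b (l 16131376) (a (l 16179424) (l 16276264))) (b (a (l 16276712) (l 16366512)) (l 16427304))) (b (l 16508112) (l 4)))) (b (a (b (c (l 16225528) (b (l 16246688) (l 16199832))) (l 4)) (l 4)) (l 4))) (a (b (a (b (l 16206600) (l 4)) (l 4)) (l 4)) (l 4))) (l 4)) (l 4)) (l 4)), by decide +kernel⟩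

theorem c_pm_202_b : CertNX 1239849684 370763052 0 536870912 1046898278 26843546 3 true true false .pp 2 0 2
    ndN1q2b ndN6q0 pcN2 Cut.none Ext.none :=
  certNX0 (fam := true) (s1 := true) (s2 := false) (a := 2) (b := 0) (c := 2) (cn := .pp) (n1 := ndN1q2b) (n2 := ndN6q0) (pc := pcN2) (cut := Cut.none) (xt := Ext.none) (P1 := 1239849684) (W1 := 370763052) (P2 := 0) (W2 := 536870912) (P3 := 1046898278) (W3 := 26843546) (N0 := 3)
    rfl k0_pm_202_b

noncomputable def f_pm_203_a : ℕ → ℕ → ℕ → ℕ → Bool := onCell 0 420477299 1610612736 536870912 1046898278 26843546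
    (rowNX 3 1 true true false .up 2 0 3 (qsf 0 420477299 0 536870912 3) ndN1q2a ndN6q0 pcN3 Cut.none Ext.none)

def k0_pm_203_a : ∃ t, chk3 f_pm_203_a t 1 1 1 = true :=
  ⟨(b (a (l 4) (b (a (l 4) (b (l 4) (l 4))) (l 4))) (l 2)), by decide +kernel⟩

theorem c_pm_203_a : CertNX 0 420477299 0 536870912 1046898278 26843546 3 true true false .up 2 0 3
    ndN1q2a ndN6q0 pcN3 Cut.none Ext.none :=
  certNX1 (fam := true) (s1 := true) (s2 := false) (a := 2) (b := 0) (c := 3) (cn := .up) (n1 := ndN1q2a) (n2 := ndN6q0) (pc := pcN3) (cut := Cut.none) (xt := Ext.none) (P1 := 0) (W1 := 420477299) (P2 := 0) (W2 := 536870912) (P3 := 1046898278) (W3 := 26843546) (N0 := 3)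
    rfl (fun _ => rfl) k0_pm_203_a

noncomputable def f_pm_203_b : ℕ → ℕ → ℕ → ℕ → Bool := onCell 1239849684 370763052 1610612736 536870912 1046898278 26843546
    (rowNX 3 1 true true false .up 2 0 3 (qsf 1239849684 370763052 0 536870912 3) ndN1q2b ndN6q0 pcN3 Cut.none Ext.none)

def k0_pm_203_b : ∃ t, chk3 f_pm_203_b t 1 1 1 = true :=
  ⟨(l 4), by decide +kernel⟩

theorem c_pm_203_b : CertNX 1239849684 370763052 0 536870912 1046898278 26843546 3 true true false .up 2 0 3
    ndN1q2b ndN6q0 pcN3 Cut.none Ext.none :=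
  certNX1 (fam := true) (s1 := true) (s2 := false) (a := 2) (b := 0) (c := 3) (cn := .up) (n1 := ndN1q2b) (n2 := ndN6q0) (pc := pcN3) (cut := Cut.none) (xt := Ext.none) (P1 := 1239849684) (W1 := 370763052) (P2 := 0) (W2 := 536870912) (P3 := 1046898278) (W3 := 26843546) (N0 := 3)
    rfl (fun _ => rfl) k0_pm_203_b

noncomputable def f_pm_213_a : ℕ → ℕ → ℕ → ℕ → Bool := onCell 0 420477299 536870912 469762048 1046898278 26843546
    (rowNX 3 0 true true false .pnn 2 1 3 (qsf 0 420477299 536870912 469762048 3) ndN1q2a ndN6q1 pcN3 Cut.none Ext.none)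

def k0_pm_213_a : ∃ t, chk3 f_pm_213_a t 1 1 1 = true :=
  ⟨(l 4), by decide +kernel⟩

theorem c_pm_213_a : CertNX 0 420477299 536870912 469762048 1046898278 26843546 3 true true false .pnn 2 1 3
    ndN1q2a ndN6q1 pcN3 Cut.none Ext.none :=
  certNX0 (fam := true) (s1 := true) (s2 := false) (a := 2) (b := 1) (c := 3) (cn := .pnn) (n1 := ndN1q2a) (n2 := ndN6q1) (pc := pcN3) (cut := Cut.none) (xt := Ext.none) (P1 := 0) (W1 := 420477299) (P2 := 536870912) (W2 := 469762048) (P3 := 1046898278) (W3 := 26843546) (N0 := 3)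
    rfl k0_pm_213_a

noncomputable def f_pm_213_b : ℕ → ℕ → ℕ → ℕ → Bool := onCell 1239849684 370763052 536870912 469762048 1046898278 26843546
    (rowNX 3 0 true true false .pnn 2 1 3 (qsf 1239849684 370763052 536870912 469762048 3) ndN1q2b ndN6q1 pcN3 Cut.none Ext.none)

def k0_pm_213_b : ∃ t, chk3 f_pm_213_b t 1 1 1 = true :=
  ⟨(l 4), by decide +kernel⟩

theorem c_pm_213_b : CertNX 1239849684 370763052 536870912 469762048 1046898278 26843546 3 true true false .pnn 2 1 3
    ndN1q2b ndN6q1 pcN3 Cut.none Ext.none :=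
  certNX0 (fam := true) (s1 := true) (s2 := false) (a := 2) (b := 1) (c := 3) (cn := .pnn) (n1 := ndN1q2b) (n2 := ndN6q1) (pc := pcN3) (cut := Cut.none) (xt := Ext.none) (P1 := 1239849684) (W1 := 370763052) (P2 := 536870912) (W2 := 469762048) (P3 := 1046898278) (W3 := 26843546) (N0 := 3)
    rfl k0_pm_213_b

noncomputable def f_pm_303 : ℕ → ℕ → ℕ → ℕ → Bool := onCell 1610612736 469762048 0 536870912 1046898278 26843546
    (rowNX 3 0 true true false .npn 3 0 3 (qsf 1610612736 469762048 0 536870912 3) ndN1q3 ndN6q0 pcN3 Cut.none Ext.none)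

def k0_pm_303 : ∃ t, chk3 f_pm_303 t 1 1 1 = true :=
  ⟨(l 4), by decide +kernel⟩

theorem c_pm_303 : CertNX 1610612736 469762048 0 536870912 1046898278 26843546 3 true true false .npn 3 0 3
    ndN1q3 ndN6q0 pcN3 Cut.none Ext.none :=
  certNX0 (fam := true) (s1 := true) (s2 := false) (a := 3) (b := 0) (c := 3) (cn := .npn) (n1 := ndN1q3) (n2 := ndN6q0) (pc := pcN3) (cut := Cut.none) (xt := Ext.none) (P1 := 1610612736) (W1 := 469762048) (P2 := 0) (W2 := 536870912) (P3 := 1046898278) (W3 := 26843546) (N0 := 3)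
    rfl k0_pm_303

noncomputable def f_pm_313 : ℕ → ℕ → ℕ → ℕ → Bool := onCell 1610612736 469762048 536870912 469762048 1046898278 26843546
    (rowNX 3 0 true true false .dn 3 1 3 (qsf 1610612736 469762048 536870912 469762048 3) ndN1q3 ndN6q1 pcN3 Cut.none Ext.none)

def k0_pm_313 : ∃ t, chk3 f_pm_313 t 1 1 1 = true :=
  ⟨(l 4), by decide +kernel⟩

theorem c_pm_313 : CertNX 1610612736 469762048 536870912 469762048 1046898278 26843546 3 true true false .dn 3 1 3
    ndN1q3 ndN6q1 pcN3 Cut.none Ext.none :=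
  certNX0 (fam := true) (s1 := true) (s2 := false) (a := 3) (b := 1) (c := 3) (cn := .dn) (n1 := ndN1q3) (n2 := ndN6q1) (pc := pcN3) (cut := Cut.none) (xt := Ext.none) (P1 := 1610612736) (W1 := 469762048) (P2 := 536870912) (W2 := 469762048) (P3 := 1046898278) (W3 := 26843546) (N0 := 3)
    rfl k0_pm_313

noncomputable def f_mm_001 : ℕ → ℕ → ℕ → ℕ → Bool := onCell 67108864 469762048 0 536870912 1046898278 26843546
    (rowNX 3 0 true false false .up 0 0 1 (qsf 67108864 469762048 0 536870912 1) ndN1q0 ndN6q0 pcN1 Cut.none Ext.none)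

def k0_mm_001 : ∃ t, chk3 f_mm_001 t 1 1 1 = true :=
  ⟨(l 4), by decide +kernel⟩

theorem c_mm_001 : CertNX 67108864 469762048 0 536870912 1046898278 26843546 3 true false false .up 0 0 1
    ndN1q0 ndN6q0 pcN1 Cut.none Ext.none :=
  certNX0 (fam := true) (s1 := false) (s2 := false) (a := 0) (b := 0) (c := 1) (cn := .up) (n1 := ndN1q0) (n2 := ndN6q0) (pc := pcN1) (cut := Cut.none) (xt := Ext.none) (P1 := 67108864) (W1 := 469762048) (P2 := 0) (W2 := 536870912) (P3 := 1046898278) (W3 := 26843546) (N0 := 3)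
    rfl k0_mm_001

noncomputable def f_mm_011 : ℕ → ℕ → ℕ → ℕ → Bool := onCell 67108864 469762048 536870912 469762048 1046898278 26843546
    (rowNX 3 0 true false false .pnn 0 1 1 (qsf 67108864 469762048 536870912 469762048 1) ndN1q0 ndN6q1 pcN1 Cut.none Ext.none)

def k0_mm_011 : ∃ t, chk3 f_mm_011 t 1 1 1 = true :=
  ⟨(l 4), by decide +kernel⟩

theorem c_mm_011 : CertNX 67108864 469762048 536870912 469762048 1046898278 26843546 3 true false false .pnn 0 1 1
    ndN1q0 ndN6q1 pcN1 Cut.none Ext.none :=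
  certNX0 (fam := true) (s1 := false) (s2 := false) (a := 0) (b := 1) (c := 1) (cn := .pnn) (n1 := ndN1q0) (n2 := ndN6q1) (pc := pcN1) (cut := Cut.none) (xt := Ext.none) (P1 := 67108864) (W1 := 469762048) (P2 := 536870912) (W2 := 469762048) (P3 := 1046898278) (W3 := 26843546) (N0 := 3)
    rfl k0_mm_011

noncomputable def f_mm_012 : ℕ → ℕ → ℕ → ℕ → Bool := onCell 67108864 469762048 536870912 469762048 1046898278 26843546
    (rowNX 3 0 true false false .pnp 0 1 2 (qsf 67108864 469762048 536870912 469762048 2) ndN1q0 ndN6q1 pcN2 Cut.none Ext.none)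

def k0_mm_012 : ∃ t, chk3 f_mm_012 t 1 1 1 = true :=
  ⟨(l 4), by decide +kernel⟩

theorem c_mm_012 : CertNX 67108864 469762048 536870912 469762048 1046898278 26843546 3 true false false .pnp 0 1 2
    ndN1q0 ndN6q1 pcN2 Cut.none Ext.none :=
  certNX0 (fam := true) (s1 := false) (s2 := false) (a := 0) (b := 1) (c := 2) (cn := .pnp) (n1 := ndN1q0) (n2 := ndN6q1) (pc := pcN2) (cut := Cut.none) (xt := Ext.none) (P1 := 67108864) (W1 := 469762048) (P2 := 536870912) (W2 := 469762048) (P3 := 1046898278) (W3 := 26843546) (N0 := 3)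
    rfl k0_mm_012

noncomputable def f_mm_022 : ℕ → ℕ → ℕ → ℕ → Bool := onCell 67108864 469762048 1073741824 536870912 1046898278 26843546
    (rowNX 3 0 true false false .pp 0 2 2 (qsf 67108864 469762048 1073741824 536870912 2) ndN1q0 ndN6q2 pcN2 Cut.none Ext.none)

def k0_mm_022 : ∃ t, chk3 f_mm_022 t 1 1 1 = true :=
  ⟨(l 4), by decide +kernel⟩

theorem c_mm_022 : CertNX 67108864 469762048 1073741824 536870912 1046898278 26843546 3 true false false .pp 0 2 2
    ndN1q0 ndN6q2 pcN2 Cut.none Ext.none :=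
  certNX0 (fam := true) (s1 := false) (s2 := false) (a := 0) (b := 2) (c := 2) (cn := .pp) (n1 := ndN1q0) (n2 := ndN6q2) (pc := pcN2) (cut := Cut.none) (xt := Ext.none) (P1 := 67108864) (W1 := 469762048) (P2 := 1073741824) (W2 := 536870912) (P3 := 1046898278) (W3 := 26843546) (N0 := 3)
    rfl k0_mm_022

noncomputable def f_mm_023 : ℕ → ℕ → ℕ → ℕ → Bool := onCell 67108864 469762048 1073741824 536870912 1046898278 26843546
    (rowNX 3 0 true false false .up 0 2 3 (qsf 67108864 469762048 1073741824 536870912 3) ndN1q0 ndN6q2 pcN3 Cut.none Ext.none)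

def k0_mm_023 : ∃ t, chk3 f_mm_023 t 1 1 1 = true :=
  ⟨(l 4), by decide +kernel⟩

theorem c_mm_023 : CertNX 67108864 469762048 1073741824 536870912 1046898278 26843546 3 true false false .up 0 2 3
    ndN1q0 ndN6q2 pcN3 Cut.none Ext.none :=
  certNX0 (fam := true) (s1 := false) (s2 := false) (a := 0) (b := 2) (c := 3) (cn := .up) (n1 := ndN1q0) (n2 := ndN6q2) (pc := pcN3) (cut := Cut.none) (xt := Ext.none) (P1 := 67108864) (W1 := 469762048) (P2 := 1073741824) (W2 := 536870912) (P3 := 1046898278) (W3 := 26843546) (N0 := 3)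
    rfl k0_mm_023

noncomputable def f_mm_033 : ℕ → ℕ → ℕ → ℕ → Bool := onCell 67108864 469762048 0 1230186008 1046898278 26843546
    (rowNX 3 0 true false false .pnn 0 3 3 (qsf 67108864 469762048 0 1230186008 3) ndN1q0 ndN6q3 pcN3 Cut.none Ext.none)

def k0_mm_033 : ∃ t, chk3 f_mm_033 t 1 1 1 = true :=
  ⟨(l 4), by decide +kernel⟩

theorem c_mm_033 : CertNX 67108864 469762048 0 1230186008 1046898278 26843546 3 true false false .pnn 0 3 3
    ndN1q0 ndN6q3 pcN3 Cut.none Ext.none :=
  certNX0 (fam := true) (s1 := false) (s2 := false) (a := 0) (b := 3) (c := 3) (cn := .pnn) (n1 := ndN1q0) (n2 := ndN6q3) (pc := pcN3) (cut := Cut.none) (xt := Ext.none) (P1 := 67108864) (W1 := 469762048) (P2 := 0) (W2 := 1230186008) (P3 := 1046898278) (W3 := 26843546) (N0 := 3)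
    rfl k0_mm_033

noncomputable def f_mm_101 : ℕ → ℕ → ℕ → ℕ → Bool := onCell 536870912 536870912 0 536870912 1046898278 26843546
    (rowNX 3 0 true false false .npn 1 0 1 (qsf 536870912 536870912 0 536870912 1) ndN1q1 ndN6q0 pcN1 Cut.none Ext.none)

def k0_mm_101 : ∃ t, chk3 f_mm_101 t 1 1 1 = true :=
  ⟨(l 4), by decide +kernel⟩

theorem c_mm_101 : CertNX 536870912 536870912 0 536870912 1046898278 26843546 3 true false false .npn 1 0 1
    ndN1q1 ndN6q0 pcN1 Cut.none Ext.none :=
  certNX0 (fam := true) (s1 := false) (s2 := false) (a := 1) (b := 0) (c := 1) (cn := .npn) (n1 := ndN1q1) (n2 := ndN6q0) (pc := pcN1) (cut := Cut.none) (xt := Ext.none) (P1 := 536870912) (W1 := 536870912) (P2 := 0) (W2 := 536870912) (P3 := 1046898278) (W3 := 26843546) (N0 := 3)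
    rfl k0_mm_101

noncomputable def f_mm_102 : ℕ → ℕ → ℕ → ℕ → Bool := onCell 536870912 536870912 0 536870912 1046898278 26843546
    (rowNX 3 0 true false false .npp 1 0 2 (qsf 536870912 536870912 0 536870912 2) ndN1q1 ndN6q0 pcN2 Cut.none Ext.none)

def k0_mm_102 : ∃ t, chk3 f_mm_102 t 1 1 1 = true :=
  ⟨(l 4), by decide +kernel⟩

theorem c_mm_102 : CertNX 536870912 536870912 0 536870912 1046898278 26843546 3 true false false .npp 1 0 2
    ndN1q1 ndN6q0 pcN2 Cut.none Ext.none :=
  certNX0 (fam := true) (s1 := false) (s2 := false) (a := 1) (b := 0) (c := 2) (cn := .npp) (n1 := ndN1q1) (n2 := ndN6q0) (pc := pcN2) (cut := Cut.none) (xt := Ext.none) (P1 := 536870912) (W1 := 536870912) (P2 := 0) (W2 := 536870912) (P3 := 1046898278) (W3 := 26843546) (N0 := 3)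
    rfl k0_mm_102

noncomputable def f_mm_112 : ℕ → ℕ → ℕ → ℕ → Bool := onCell 536870912 536870912 536870912 469762048 1046898278 26843546
    (rowNX 3 0 true false false .dn 1 1 2 (qsf 536870912 536870912 536870912 469762048 2) ndN1q1 ndN6q1 pcN2 Cut.none Ext.none)

def k0_mm_112 : ∃ t, chk3 f_mm_112 t 1 1 1 = true :=
  ⟨(l 4), by decide +kernel⟩

theorem c_mm_112 : CertNX 536870912 536870912 536870912 469762048 1046898278 26843546 3 true false false .dn 1 1 2
    ndN1q1 ndN6q1 pcN2 Cut.none Ext.none :=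
  certNX0 (fam := true) (s1 := false) (s2 := false) (a := 1) (b := 1) (c := 2) (cn := .dn) (n1 := ndN1q1) (n2 := ndN6q1) (pc := pcN2) (cut := Cut.none) (xt := Ext.none) (P1 := 536870912) (W1 := 536870912) (P2 := 536870912) (W2 := 469762048) (P3 := 1046898278) (W3 := 26843546) (N0 := 3)
    rfl k0_mm_112

noncomputable def f_mm_113 : ℕ → ℕ → ℕ → ℕ → Bool := onCell 536870912 536870912 536870912 469762048 1046898278 26843546
    (rowNX 3 0 true false false .nn 1 1 3 (qsf 536870912 536870912 536870912 469762048 3) ndN1q1 ndN6q1 pcN3 Cut.none Ext.none)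

def k0_mm_113 : ∃ t, chk3 f_mm_113 t 1 1 1 = true :=
  ⟨(l 4), by decide +kernel⟩

theorem c_mm_113 : CertNX 536870912 536870912 536870912 469762048 1046898278 26843546 3 true false false .nn 1 1 3
    ndN1q1 ndN6q1 pcN3 Cut.none Ext.none :=
  certNX0 (fam := true) (s1 := false) (s2 := false) (a := 1) (b := 1) (c := 3) (cn := .nn) (n1 := ndN1q1) (n2 := ndN6q1) (pc := pcN3) (cut := Cut.none) (xt := Ext.none) (P1 := 536870912) (W1 := 536870912) (P2 := 536870912) (W2 := 469762048) (P3 := 1046898278) (W3 := 26843546) (N0 := 3)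
    rfl k0_mm_113

noncomputable def f_mm_123 : ℕ → ℕ → ℕ → ℕ → Bool := onCell 536870912 536870912 1073741824 536870912 1046898278 26843546
    (rowNX 3 0 true false false .npn 1 2 3 (qsf 536870912 536870912 1073741824 536870912 3) ndN1q1 ndN6q2 pcN3 Cut.none Ext.none)

def k0_mm_123 : ∃ t, chk3 f_mm_123 t 1 1 1 = true :=
  ⟨(l 4), by decide +kernel⟩

theorem c_mm_123 : CertNX 536870912 536870912 1073741824 536870912 1046898278 26843546 3 true false false .npn 1 2 3
    ndN1q1 ndN6q2 pcN3 Cut.none Ext.none :=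
  certNX0 (fam := true) (s1 := false) (s2 := false) (a := 1) (b := 2) (c := 3) (cn := .npn) (n1 := ndN1q1) (n2 := ndN6q2) (pc := pcN3) (cut := Cut.none) (xt := Ext.none) (P1 := 536870912) (W1 := 536870912) (P2 := 1073741824) (W2 := 536870912) (P3 := 1046898278) (W3 := 26843546) (N0 := 3)
    rfl k0_mm_123

noncomputable def f_mm_133 : ℕ → ℕ → ℕ → ℕ → Bool := onCell 536870912 536870912 0 1230186008 1046898278 26843546
    (rowNX 3 0 true false false .dn 1 3 3 (qsf 536870912 536870912 0 1230186008 3) ndN1q1 ndN6q3 pcN3 Cut.none Ext.none)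

def k0_mm_133 : ∃ t, chk3 f_mm_133 t 1 1 1 = true :=
  ⟨(l 4), by decide +kernel⟩

theorem c_mm_133 : CertNX 536870912 536870912 0 1230186008 1046898278 26843546 3 true false false .dn 1 3 3
    ndN1q1 ndN6q3 pcN3 Cut.none Ext.none :=
  certNX0 (fam := true) (s1 := false) (s2 := false) (a := 1) (b := 3) (c := 3) (cn := .dn) (n1 := ndN1q1) (n2 := ndN6q3) (pc := pcN3) (cut := Cut.none) (xt := Ext.none) (P1 := 536870912) (W1 := 536870912) (P2 := 0) (W2 := 1230186008) (P3 := 1046898278) (W3 := 26843546) (N0 := 3)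
    rfl k0_mm_133

noncomputable def f_mm_202_a : ℕ → ℕ → ℕ → ℕ → Bool := onCell 0 420477299 0 536870912 1046898278 26843546
    (rowNX 3 0 true false false .pp 2 0 2 (qsf 0 420477299 0 536870912 2) ndN1q2a ndN6q0 pcN2 Cut.none Ext.none)

def k0_mm_202_a : ∃ t, chk3 f_mm_202_a t 1 1 1 = true :=
  ⟨(l 4), by decide +kernel⟩

theorem c_mm_202_a : CertNX 0 420477299 0 536870912 1046898278 26843546 3 true false false .pp 2 0 2
    ndN1q2a ndN6q0 pcN2 Cut.none Ext.none :=
  certNX0 (fam := true) (s1 := false) (s2 := false) (a := 2) (b := 0) (c := 2) (cn := .pp) (n1 := ndN1q2a) (n2 := ndN6q0) (pc := pcN2) (cut := Cut.none) (xt := Ext.none) (P1 := 0) (W1 := 420477299) (P2 := 0) (W2 := 536870912) (P3 := 1046898278) (W3 := 26843546) (N0 := 3)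
    rfl k0_mm_202_a

noncomputable def f_mm_202_b : ℕ → ℕ → ℕ → ℕ → Bool := onCell 1239849684 370763052 0 536870912 1046898278 26843546
    (rowNX 3 0 true false false .pp 2 0 2 (qsf 1239849684 370763052 0 536870912 2) ndN1q2b ndN6q0 pcN2 Cut.none Ext.none)

def k0_mm_202_b : ∃ t, chk3 f_mm_202_b t 1 1 1 = true :=
  ⟨(l 4), by decide +kernel⟩

theorem c_mm_202_b : CertNX 1239849684 370763052 0 536870912 1046898278 26843546 3 true false false .pp 2 0 2
    ndN1q2b ndN6q0 pcN2 Cut.none Ext.none :=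
  certNX0 (fam := true) (s1 := false) (s2 := false) (a := 2) (b := 0) (c := 2) (cn := .pp) (n1 := ndN1q2b) (n2 := ndN6q0) (pc := pcN2) (cut := Cut.none) (xt := Ext.none) (P1 := 1239849684) (W1 := 370763052) (P2 := 0) (W2 := 536870912) (P3 := 1046898278) (W3 := 26843546) (N0 := 3)
    rfl k0_mm_202_b

noncomputable def f_mm_203_a : ℕ → ℕ → ℕ → ℕ → Bool := onCell 0 420477299 0 536870912 1046898278 26843546
    (rowNX 3 0 true false false .up 2 0 3 (qsf 0 420477299 0 536870912 3) ndN1q2a ndN6q0 pcN3 Cut.none Ext.none)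

def k0_mm_203_a : ∃ t, chk3 f_mm_203_a t 1 1 1 = true :=
  ⟨(l 4), by decide +kernel⟩

theorem c_mm_203_a : CertNX 0 420477299 0 536870912 1046898278 26843546 3 true false false .up 2 0 3
    ndN1q2a ndN6q0 pcN3 Cut.none Ext.none :=
  certNX0 (fam := true) (s1 := false) (s2 := false) (a := 2) (b := 0) (c := 3) (cn := .up) (n1 := ndN1q2a) (n2 := ndN6q0) (pc := pcN3) (cut := Cut.none) (xt := Ext.none) (P1 := 0) (W1 := 420477299) (P2 := 0) (W2 := 536870912) (P3 := 1046898278) (W3 := 26843546) (N0 := 3)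
    rfl k0_mm_203_a

noncomputable def f_mm_203_b : ℕ → ℕ → ℕ → ℕ → Bool := onCell 1239849684 370763052 0 536870912 1046898278 26843546
    (rowNX 3 0 true false false .up 2 0 3 (qsf 1239849684 370763052 0 536870912 3) ndN1q2b ndN6q0 pcN3 Cut.none Ext.none)

def k0_mm_203_b : ∃ t, chk3 f_mm_203_b t 1 1 1 = true :=
  ⟨(l 4), by decide +kernel⟩

theorem c_mm_203_b : CertNX 1239849684 370763052 0 536870912 1046898278 26843546 3 true false false .up 2 0 3
    ndN1q2b ndN6q0 pcN3 Cut.none Ext.none :=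
  certNX0 (fam := true) (s1 := false) (s2 := false) (a := 2) (b := 0) (c := 3) (cn := .up) (n1 := ndN1q2b) (n2 := ndN6q0) (pc := pcN3) (cut := Cut.none) (xt := Ext.none) (P1 := 1239849684) (W1 := 370763052) (P2 := 0) (W2 := 536870912) (P3 := 1046898278) (W3 := 26843546) (N0 := 3)
    rfl k0_mm_203_b

noncomputable def f_mm_213_a : ℕ → ℕ → ℕ → ℕ → Bool := onCell 0 420477299 536870912 469762048 1046898278 26843546
    (rowNX 3 0 true false false .pnn 2 1 3 (qsf 0 420477299 536870912 469762048 3) ndN1q2a ndN6q1 pcN3 Cut.none Ext.none)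

def k0_mm_213_a : ∃ t, chk3 f_mm_213_a t 1 1 1 = true :=
  ⟨(l 4), by decide +kernel⟩

theorem c_mm_213_a : CertNX 0 420477299 536870912 469762048 1046898278 26843546 3 true false false .pnn 2 1 3
    ndN1q2a ndN6q1 pcN3 Cut.none Ext.none :=
  certNX0 (fam := true) (s1 := false) (s2 := false) (a := 2) (b := 1) (c := 3) (cn := .pnn) (n1 := ndN1q2a) (n2 := ndN6q1) (pc := pcN3) (cut := Cut.none) (xt := Ext.none) (P1 := 0) (W1 := 420477299) (P2 := 536870912) (W2 := 469762048) (P3 := 1046898278) (W3 := 26843546) (N0 := 3)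
    rfl k0_mm_213_a

noncomputable def f_mm_213_b : ℕ → ℕ → ℕ → ℕ → Bool := onCell 1239849684 370763052 536870912 469762048 1046898278 26843546
    (rowNX 3 0 true false false .pnn 2 1 3 (qsf 1239849684 370763052 536870912 469762048 3) ndN1q2b ndN6q1 pcN3 Cut.none Ext.none)

def k0_mm_213_b : ∃ t, chk3 f_mm_213_b t 1 1 1 = true :=
  ⟨(l 4), by decide +kernel⟩

theorem c_mm_213_b : CertNX 1239849684 370763052 536870912 469762048 1046898278 26843546 3 true false false .pnn 2 1 3
    ndN1q2b ndN6q1 pcN3 Cut.none Ext.none :=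
  certNX0 (fam := true) (s1 := false) (s2 := false) (a := 2) (b := 1) (c := 3) (cn := .pnn) (n1 := ndN1q2b) (n2 := ndN6q1) (pc := pcN3) (cut := Cut.none) (xt := Ext.none) (P1 := 1239849684) (W1 := 370763052) (P2 := 536870912) (W2 := 469762048) (P3 := 1046898278) (W3 := 26843546) (N0 := 3)
    rfl k0_mm_213_b

noncomputable def f_mm_303 : ℕ → ℕ → ℕ → ℕ → Bool := onCell 1610612736 469762048 0 536870912 1046898278 26843546
    (rowNX 3 0 true false false .npn 3 0 3 (qsf 1610612736 469762048 0 536870912 3) ndN1q3 ndN6q0 pcN3 Cut.none Ext.none)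

def k0_mm_303 : ∃ t, chk3 f_mm_303 t 1 1 1 = true :=
  ⟨(l 4), by decide +kernel⟩

theorem c_mm_303 : CertNX 1610612736 469762048 0 536870912 1046898278 26843546 3 true false false .npn 3 0 3
    ndN1q3 ndN6q0 pcN3 Cut.none Ext.none :=
  certNX0 (fam := true) (s1 := false) (s2 := false) (a := 3) (b := 0) (c := 3) (cn := .npn) (n1 := ndN1q3) (n2 := ndN6q0) (pc := pcN3) (cut := Cut.none) (xt := Ext.none) (P1 := 1610612736) (W1 := 469762048) (P2 := 0) (W2 := 536870912) (P3 := 1046898278) (W3 := 26843546) (N0 := 3)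
    rfl k0_mm_303

noncomputable def f_mm_313 : ℕ → ℕ → ℕ → ℕ → Bool := onCell 1610612736 469762048 536870912 469762048 1046898278 26843546
    (rowNX 3 0 true false false .dn 3 1 3 (qsf 1610612736 469762048 536870912 469762048 3) ndN1q3 ndN6q1 pcN3 Cut.none Ext.none)

def k0_mm_313 : ∃ t, chk3 f_mm_313 t 1 1 1 = true :=
  ⟨(l 4), by decide +kernel⟩

theorem c_mm_313 : CertNX 1610612736 469762048 536870912 469762048 1046898278 26843546 3 true false false .dn 3 1 3
    ndN1q3 ndN6q1 pcN3 Cut.none Ext.none :=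
  certNX0 (fam := true) (s1 := false) (s2 := false) (a := 3) (b := 1) (c := 3) (cn := .dn) (n1 := ndN1q3) (n2 := ndN6q1) (pc := pcN3) (cut := Cut.none) (xt := Ext.none) (P1 := 1610612736) (W1 := 469762048) (P2 := 536870912) (W2 := 469762048) (P3 := 1046898278) (W3 := 26843546) (N0 := 3)
    rfl k0_mm_313

end Pool.Agent.Strip051.G.IE1.Tab.C.NA16

namespace Pool.Agent.Strip051.G.IE1.Tab.C.NA17

open Pool.Agent.Strip051.PB Pool.Agent.Strip051.PB.T
open Pool.Agent.Strip051.G.IE1.Tab

noncomputable def f_pp_001 : ℕ → ℕ → ℕ → ℕ → Bool := onCell 67108864 469762048 0 536870912 1046898278 26843546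
    (rowNX 3 0 true true true .up 0 0 1 (qsf 67108864 469762048 0 536870912 1) ndN1q0 ndN7q0 pcN1 Cut.none Ext.none)

def k0_pp_001 : ∃ t, chk3 f_pp_001 t 1 1 1 = true :=
  ⟨(l 4), by decide +kernel⟩

theorem c_pp_001 : CertNX 67108864 469762048 0 536870912 1046898278 26843546 3 true true true .up 0 0 1
    ndN1q0 ndN7q0 pcN1 Cut.none Ext.none :=
  certNX0 (fam := true) (s1 := true) (s2 := true) (a := 0) (b := 0) (c := 1) (cn := .up) (n1 := ndN1q0) (n2 := ndN7q0) (pc := pcN1) (cut := Cut.none) (xt := Ext.none) (P1 := 67108864) (W1 := 469762048) (P2 := 0) (W2 := 536870912) (P3 := 1046898278) (W3 := 26843546) (N0 := 3)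
    rfl k0_pp_001

noncomputable def f_pp_011 : ℕ → ℕ → ℕ → ℕ → Bool := onCell 67108864 469762048 536870912 536870912 1046898278 26843546
    (rowNX 3 0 true true true .pnn 0 1 1 (qsf 67108864 469762048 536870912 536870912 1) ndN1q0 ndN7q1 pcN1 Cut.none Ext.none)

def k0_pp_011 : ∃ t, chk3 f_pp_011 t 1 1 1 = true :=
  ⟨(l 4), by decide +kernel⟩

theorem c_pp_011 : CertNX 67108864 469762048 536870912 536870912 1046898278 26843546 3 true true true .pnn 0 1 1
    ndN1q0 ndN7q1 pcN1 Cut.none Ext.none :=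
  certNX0 (fam := true) (s1 := true) (s2 := true) (a := 0) (b := 1) (c := 1) (cn := .pnn) (n1 := ndN1q0) (n2 := ndN7q1) (pc := pcN1) (cut := Cut.none) (xt := Ext.none) (P1 := 67108864) (W1 := 469762048) (P2 := 536870912) (W2 := 536870912) (P3 := 1046898278) (W3 := 26843546) (N0 := 3)
    rfl k0_pp_011

noncomputable def f_pp_012 : ℕ → ℕ → ℕ → ℕ → Bool := onCell 67108864 469762048 536870912 536870912 1046898278 26843546
    (rowNX 3 0 true true true .pnp 0 1 2 (qsf 67108864 469762048 536870912 536870912 2) ndN1q0 ndN7q1 pcN2 Cut.none Ext.none)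

def k0_pp_012 : ∃ t, chk3 f_pp_012 t 1 1 1 = true :=
  ⟨(l 4), by decide +kernel⟩

theorem c_pp_012 : CertNX 67108864 469762048 536870912 536870912 1046898278 26843546 3 true true true .pnp 0 1 2
    ndN1q0 ndN7q1 pcN2 Cut.none Ext.none :=
  certNX0 (fam := true) (s1 := true) (s2 := true) (a := 0) (b := 1) (c := 2) (cn := .pnp) (n1 := ndN1q0) (n2 := ndN7q1) (pc := pcN2) (cut := Cut.none) (xt := Ext.none) (P1 := 67108864) (W1 := 469762048) (P2 := 536870912) (W2 := 536870912) (P3 := 1046898278) (W3 := 26843546) (N0 := 3)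
    rfl k0_pp_012

noncomputable def f_pp_022 : ℕ → ℕ → ℕ → ℕ → Bool := onCell 67108864 469762048 1073741824 536870912 1046898278 26843546
    (rowNX 3 0 true true true .pp 0 2 2 (qsf 67108864 469762048 1073741824 536870912 2) ndN1q0 ndN7q2 pcN2 Cut.none Ext.none)

def k0_pp_022 : ∃ t, chk3 f_pp_022 t 1 1 1 = true :=
  ⟨(l 4), by decide +kernel⟩

theorem c_pp_022 : CertNX 67108864 469762048 1073741824 536870912 1046898278 26843546 3 true true true .pp 0 2 2
    ndN1q0 ndN7q2 pcN2 Cut.none Ext.none :=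
  certNX0 (fam := true) (s1 := true) (s2 := true) (a := 0) (b := 2) (c := 2) (cn := .pp) (n1 := ndN1q0) (n2 := ndN7q2) (pc := pcN2) (cut := Cut.none) (xt := Ext.none) (P1 := 67108864) (W1 := 469762048) (P2 := 1073741824) (W2 := 536870912) (P3 := 1046898278) (W3 := 26843546) (N0 := 3)
    rfl k0_pp_022

noncomputable def f_pp_023 : ℕ → ℕ → ℕ → ℕ → Bool := onCell 67108864 469762048 1073741824 536870912 1046898278 26843546
    (rowNX 3 0 true true true .up 0 2 3 (qsf 67108864 469762048 1073741824 536870912 3) ndN1q0 ndN7q2 pcN3 Cut.none Ext.none)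

def k0_pp_023 : ∃ t, chk3 f_pp_023 t 1 1 1 = true :=
  ⟨(l 4), by decide +kernel⟩

theorem c_pp_023 : CertNX 67108864 469762048 1073741824 536870912 1046898278 26843546 3 true true true .up 0 2 3
    ndN1q0 ndN7q2 pcN3 Cut.none Ext.none :=
  certNX0 (fam := true) (s1 := true) (s2 := true) (a := 0) (b := 2) (c := 3) (cn := .up) (n1 := ndN1q0) (n2 := ndN7q2) (pc := pcN3) (cut := Cut.none) (xt := Ext.none) (P1 := 67108864) (W1 := 469762048) (P2 := 1073741824) (W2 := 536870912) (P3 := 1046898278) (W3 := 26843546) (N0 := 3)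
    rfl k0_pp_023

noncomputable def f_pp_033 : ℕ → ℕ → ℕ → ℕ → Bool := onCell 67108864 469762048 0 1230186008 1046898278 26843546
    (rowNX 3 0 true true true .pnn 0 3 3 (qsf 67108864 469762048 0 1230186008 3) ndN1q0 ndN7q3 pcN3 Cut.none Ext.none)

def k0_pp_033 : ∃ t, chk3 f_pp_033 t 1 1 1 = true :=
  ⟨(l 4), by decide +kernel⟩

theorem c_pp_033 : CertNX 67108864 469762048 0 1230186008 1046898278 26843546 3 true true true .pnn 0 3 3
    ndN1q0 ndN7q3 pcN3 Cut.none Ext.none :=
  certNX0 (fam := true) (s1 := true) (s2 := true) (a := 0) (b := 3) (c := 3) (cn := .pnn) (n1 := ndN1q0) (n2 := ndN7q3) (pc := pcN3) (cut := Cut.none) (xt := Ext.none) (P1 := 67108864) (W1 := 469762048) (P2 := 0) (W2 := 1230186008) (P3 := 1046898278) (W3 := 26843546) (N0 := 3)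
    rfl k0_pp_033

noncomputable def f_pp_101 : ℕ → ℕ → ℕ → ℕ → Bool := onCell 536870912 536870912 0 536870912 1046898278 26843546
    (rowNX 3 0 true true true .npn 1 0 1 (qsf 536870912 536870912 0 536870912 1) ndN1q1 ndN7q0 pcN1 Cut.none Ext.none)

def k0_pp_101 : ∃ t, chk3 f_pp_101 t 1 1 1 = true :=
  ⟨(l 4), by decide +kernel⟩

theorem c_pp_101 : CertNX 536870912 536870912 0 536870912 1046898278 26843546 3 true true true .npn 1 0 1
    ndN1q1 ndN7q0 pcN1 Cut.none Ext.none :=
  certNX0 (fam := true) (s1 := true) (s2 := true) (a := 1) (b := 0) (c := 1) (cn := .npn) (n1 := ndN1q1) (n2 := ndN7q0) (pc := pcN1) (cut := Cut.none) (xt := Ext.none) (P1 := 536870912) (W1 := 536870912) (P2 := 0) (W2 := 536870912) (P3 := 1046898278) (W3 := 26843546) (N0 := 3)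
    rfl k0_pp_101

noncomputable def f_pp_102 : ℕ → ℕ → ℕ → ℕ → Bool := onCell 536870912 536870912 0 536870912 1046898278 26843546
    (rowNX 3 0 true true true .npp 1 0 2 (qsf 536870912 536870912 0 536870912 2) ndN1q1 ndN7q0 pcN2 Cut.none Ext.none)

def k0_pp_102 : ∃ t, chk3 f_pp_102 t 1 1 1 = true :=
  ⟨(l 4), by decide +kernel⟩

theorem c_pp_102 : CertNX 536870912 536870912 0 536870912 1046898278 26843546 3 true true true .npp 1 0 2
    ndN1q1 ndN7q0 pcN2 Cut.none Ext.none :=
  certNX0 (fam := true) (s1 := true) (s2 := true) (a := 1) (b := 0) (c := 2) (cn := .npp) (n1 := ndN1q1) (n2 := ndN7q0) (pc := pcN2) (cut := Cut.none) (xt := Ext.none) (P1 := 536870912) (W1 := 536870912) (P2 := 0) (W2 := 536870912) (P3 := 1046898278) (W3 := 26843546) (N0 := 3)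
    rfl k0_pp_102

noncomputable def f_pp_112 : ℕ → ℕ → ℕ → ℕ → Bool := onCell 536870912 536870912 536870912 536870912 1046898278 26843546
    (rowNX 3 0 true true true .dn 1 1 2 (qsf 536870912 536870912 536870912 536870912 2) ndN1q1 ndN7q1 pcN2 Cut.none Ext.none)

def k0_pp_112 : ∃ t, chk3 f_pp_112 t 1 1 1 = true :=
  ⟨(l 4), by decide +kernel⟩

theorem c_pp_112 : CertNX 536870912 536870912 536870912 536870912 1046898278 26843546 3 true true true .dn 1 1 2
    ndN1q1 ndN7q1 pcN2 Cut.none Ext.none :=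
  certNX0 (fam := true) (s1 := true) (s2 := true) (a := 1) (b := 1) (c := 2) (cn := .dn) (n1 := ndN1q1) (n2 := ndN7q1) (pc := pcN2) (cut := Cut.none) (xt := Ext.none) (P1 := 536870912) (W1 := 536870912) (P2 := 536870912) (W2 := 536870912) (P3 := 1046898278) (W3 := 26843546) (N0 := 3)
    rfl k0_pp_112

noncomputable def f_pp_113 : ℕ → ℕ → ℕ → ℕ → Bool := onCell 536870912 536870912 536870912 536870912 1046898278 26843546
    (rowNX 3 0 true true true .nn 1 1 3 (qsf 536870912 536870912 536870912 536870912 3) ndN1q1 ndN7q1 pcN3 Cut.none Ext.none)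

def k0_pp_113 : ∃ t, chk3 f_pp_113 t 1 1 1 = true :=
  ⟨(l 4), by decide +kernel⟩

theorem c_pp_113 : CertNX 536870912 536870912 536870912 536870912 1046898278 26843546 3 true true true .nn 1 1 3
    ndN1q1 ndN7q1 pcN3 Cut.none Ext.none :=
  certNX0 (fam := true) (s1 := true) (s2 := true) (a := 1) (b := 1) (c := 3) (cn := .nn) (n1 := ndN1q1) (n2 := ndN7q1) (pc := pcN3) (cut := Cut.none) (xt := Ext.none) (P1 := 536870912) (W1 := 536870912) (P2 := 536870912) (W2 := 536870912) (P3 := 1046898278) (W3 := 26843546) (N0 := 3)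
    rfl k0_pp_113

noncomputable def f_pp_123 : ℕ → ℕ → ℕ → ℕ → Bool := onCell 536870912 536870912 1073741824 536870912 1046898278 26843546
    (rowNX 3 0 true true true .npn 1 2 3 (qsf 536870912 536870912 1073741824 536870912 3) ndN1q1 ndN7q2 pcN3 Cut.none Ext.none)

def k0_pp_123 : ∃ t, chk3 f_pp_123 t 1 1 1 = true :=
  ⟨(l 4), by decide +kernel⟩

theorem c_pp_123 : CertNX 536870912 536870912 1073741824 536870912 1046898278 26843546 3 true true true .npn 1 2 3
    ndN1q1 ndN7q2 pcN3 Cut.none Ext.none :=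
  certNX0 (fam := true) (s1 := true) (s2 := true) (a := 1) (b := 2) (c := 3) (cn := .npn) (n1 := ndN1q1) (n2 := ndN7q2) (pc := pcN3) (cut := Cut.none) (xt := Ext.none) (P1 := 536870912) (W1 := 536870912) (P2 := 1073741824) (W2 := 536870912) (P3 := 1046898278) (W3 := 26843546) (N0 := 3)
    rfl k0_pp_123

noncomputable def f_pp_133 : ℕ → ℕ → ℕ → ℕ → Bool := onCell 536870912 536870912 0 1230186008 1046898278 26843546
    (rowNX 3 0 true true true .dn 1 3 3 (qsf 536870912 536870912 0 1230186008 3) ndN1q1 ndN7q3 pcN3 Cut.none Ext.none)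

def k0_pp_133 : ∃ t, chk3 f_pp_133 t 1 1 1 = true :=
  ⟨(l 4), by decide +kernel⟩

theorem c_pp_133 : CertNX 536870912 536870912 0 1230186008 1046898278 26843546 3 true true true .dn 1 3 3
    ndN1q1 ndN7q3 pcN3 Cut.none Ext.none :=
  certNX0 (fam := true) (s1 := true) (s2 := true) (a := 1) (b := 3) (c := 3) (cn := .dn) (n1 := ndN1q1) (n2 := ndN7q3) (pc := pcN3) (cut := Cut.none) (xt := Ext.none) (P1 := 536870912) (W1 := 536870912) (P2 := 0) (W2 := 1230186008) (P3 := 1046898278) (W3 := 26843546) (N0 := 3)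
    rfl k0_pp_133

noncomputable def f_pp_202_a : ℕ → ℕ → ℕ → ℕ → Bool := onCell 0 420477299 0 536870912 1046898278 26843546
    (rowNX 3 0 true true true .pp 2 0 2 (qsf 0 420477299 0 536870912 2) ndN1q2a ndN7q0 pcN2 Cut.none Ext.none)

def k0_pp_202_a : ∃ t, chk3 f_pp_202_a t 1 1 1 = true :=
  ⟨(l 4), by decide +kernel⟩

theorem c_pp_202_a : CertNX 0 420477299 0 536870912 1046898278 26843546 3 true true true .pp 2 0 2
    ndN1q2a ndN7q0 pcN2 Cut.none Ext.none :=
  certNX0 (fam := true) (s1 := true) (s2 := true) (a := 2) (b := 0) (c := 2) (cn := .pp) (n1 := ndN1q2a) (n2 := ndN7q0) (pc := pcN2) (cut := Cut.none) (xt := Ext.none) (P1 := 0) (W1 := 420477299) (P2 := 0) (W2 := 536870912) (P3 := 1046898278) (W3 := 26843546) (N0 := 3)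
    rfl k0_pp_202_a

noncomputable def f_pp_202_b : ℕ → ℕ → ℕ → ℕ → Bool := onCell 1239849684 370763052 0 536870912 1046898278 26843546
    (rowNX 3 0 true true true .pp 2 0 2 (qsf 1239849684 370763052 0 536870912 2) ndN1q2b ndN7q0 pcN2 Cut.none Ext.none)

def k0_pp_202_b : ∃ t, chk3 f_pp_202_b t 1 1 1 = true :=
  ⟨(l 4), by decide +kernel⟩

theorem c_pp_202_b : CertNX 1239849684 370763052 0 536870912 1046898278 26843546 3 true true true .pp 2 0 2
    ndN1q2b ndN7q0 pcN2 Cut.none Ext.none :=
  certNX0 (fam := true) (s1 := true) (s2 := true) (a := 2) (b := 0) (c := 2) (cn := .pp) (n1 := ndN1q2b) (n2 := ndN7q0) (pc := pcN2) (cut := Cut.none) (xt := Ext.none) (P1 := 1239849684) (W1 := 370763052) (P2 := 0) (W2 := 536870912) (P3 := 1046898278) (W3 := 26843546) (N0 := 3)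
    rfl k0_pp_202_b

noncomputable def f_pp_203_a : ℕ → ℕ → ℕ → ℕ → Bool := onCell 0 420477299 0 536870912 1046898278 26843546
    (rowNX 3 0 true true true .up 2 0 3 (qsf 0 420477299 0 536870912 3) ndN1q2a ndN7q0 pcN3 Cut.none Ext.none)

def k0_pp_203_a : ∃ t, chk3 f_pp_203_a t 1 1 1 = true :=
  ⟨(l 4), by decide +kernel⟩

theorem c_pp_203_a : CertNX 0 420477299 0 536870912 1046898278 26843546 3 true true true .up 2 0 3
    ndN1q2a ndN7q0 pcN3 Cut.none Ext.none :=
  certNX0 (fam := true) (s1 := true) (s2 := true) (a := 2) (b := 0) (c := 3) (cn := .up) (n1 := ndN1q2a) (n2 := ndN7q0) (pc := pcN3) (cut := Cut.none) (xt := Ext.none) (P1 := 0) (W1 := 420477299) (P2 := 0) (W2 := 536870912) (P3 := 1046898278) (W3 := 26843546) (N0 := 3)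
    rfl k0_pp_203_a

noncomputable def f_pp_203_b : ℕ → ℕ → ℕ → ℕ → Bool := onCell 1239849684 370763052 0 536870912 1046898278 26843546
    (rowNX 3 0 true true true .up 2 0 3 (qsf 1239849684 370763052 0 536870912 3) ndN1q2b ndN7q0 pcN3 Cut.none Ext.none)

def k0_pp_203_b : ∃ t, chk3 f_pp_203_b t 1 1 1 = true :=
  ⟨(l 4), by decide +kernel⟩

theorem c_pp_203_b : CertNX 1239849684 370763052 0 536870912 1046898278 26843546 3 true true true .up 2 0 3
    ndN1q2b ndN7q0 pcN3 Cut.none Ext.none :=
  certNX0 (fam := true) (s1 := true) (s2 := true) (a := 2) (b := 0) (c := 3) (cn := .up) (n1 := ndN1q2b) (n2 := ndN7q0) (pc := pcN3) (cut := Cut.none) (xt := Ext.none) (P1 := 1239849684) (W1 := 370763052) (P2 := 0) (W2 := 536870912) (P3 := 1046898278) (W3 := 26843546) (N0 := 3)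
    rfl k0_pp_203_b

noncomputable def f_pp_213_a : ℕ → ℕ → ℕ → ℕ → Bool := onCell 0 420477299 536870912 536870912 1046898278 26843546
    (rowNX 3 0 true true true .pnn 2 1 3 (qsf 0 420477299 536870912 536870912 3) ndN1q2a ndN7q1 pcN3 Cut.none Ext.none)

def k0_pp_213_a : ∃ t, chk3 f_pp_213_a t 1 1 1 = true :=
  ⟨(l 4), by decide +kernel⟩

theorem c_pp_213_a : CertNX 0 420477299 536870912 536870912 1046898278 26843546 3 true true true .pnn 2 1 3
    ndN1q2a ndN7q1 pcN3 Cut.none Ext.none :=
  certNX0 (fam := true) (s1 := true) (s2 := true) (a := 2) (b := 1) (c := 3) (cn := .pnn) (n1 := ndN1q2a) (n2 := ndN7q1) (pc := pcN3) (cut := Cut.none) (xt := Ext.none) (P1 := 0) (W1 := 420477299) (P2 := 536870912) (W2 := 536870912) (P3 := 1046898278) (W3 := 26843546) (N0 := 3)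
    rfl k0_pp_213_a

noncomputable def f_pp_213_b : ℕ → ℕ → ℕ → ℕ → Bool := onCell 1239849684 370763052 536870912 536870912 1046898278 26843546
    (rowNX 3 0 true true true .pnn 2 1 3 (qsf 1239849684 370763052 536870912 536870912 3) ndN1q2b ndN7q1 pcN3 Cut.none Ext.none)

def k0_pp_213_b : ∃ t, chk3 f_pp_213_b t 1 1 1 = true :=
  ⟨(l 4), by decide +kernel⟩

theorem c_pp_213_b : CertNX 1239849684 370763052 536870912 536870912 1046898278 26843546 3 true true true .pnn 2 1 3
    ndN1q2b ndN7q1 pcN3 Cut.none Ext.none :=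
  certNX0 (fam := true) (s1 := true) (s2 := true) (a := 2) (b := 1) (c := 3) (cn := .pnn) (n1 := ndN1q2b) (n2 := ndN7q1) (pc := pcN3) (cut := Cut.none) (xt := Ext.none) (P1 := 1239849684) (W1 := 370763052) (P2 := 536870912) (W2 := 536870912) (P3 := 1046898278) (W3 := 26843546) (N0 := 3)
    rfl k0_pp_213_b

noncomputable def f_pp_303 : ℕ → ℕ → ℕ → ℕ → Bool := onCell 1610612736 469762048 0 536870912 1046898278 26843546
    (rowNX 3 0 true true true .npn 3 0 3 (qsf 1610612736 469762048 0 536870912 3) ndN1q3 ndN7q0 pcN3 Cut.none Ext.none)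

def k0_pp_303 : ∃ t, chk3 f_pp_303 t 1 1 1 = true :=
  ⟨(l 4), by decide +kernel⟩

theorem c_pp_303 : CertNX 1610612736 469762048 0 536870912 1046898278 26843546 3 true true true .npn 3 0 3
    ndN1q3 ndN7q0 pcN3 Cut.none Ext.none :=
  certNX0 (fam := true) (s1 := true) (s2 := true) (a := 3) (b := 0) (c := 3) (cn := .npn) (n1 := ndN1q3) (n2 := ndN7q0) (pc := pcN3) (cut := Cut.none) (xt := Ext.none) (P1 := 1610612736) (W1 := 469762048) (P2 := 0) (W2 := 536870912) (P3 := 1046898278) (W3 := 26843546) (N0 := 3)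
    rfl k0_pp_303

noncomputable def f_pp_313 : ℕ → ℕ → ℕ → ℕ → Bool := onCell 1610612736 469762048 536870912 536870912 1046898278 26843546
    (rowNX 3 0 true true true .dn 3 1 3 (qsf 1610612736 469762048 536870912 536870912 3) ndN1q3 ndN7q1 pcN3 Cut.none Ext.none)

def k0_pp_313 : ∃ t, chk3 f_pp_313 t 1 1 1 = true :=
  ⟨(l 4), by decide +kernel⟩

theorem c_pp_313 : CertNX 1610612736 469762048 536870912 536870912 1046898278 26843546 3 true true true .dn 3 1 3
    ndN1q3 ndN7q1 pcN3 Cut.none Ext.none :=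
  certNX0 (fam := true) (s1 := true) (s2 := true) (a := 3) (b := 1) (c := 3) (cn := .dn) (n1 := ndN1q3) (n2 := ndN7q1) (pc := pcN3) (cut := Cut.none) (xt := Ext.none) (P1 := 1610612736) (W1 := 469762048) (P2 := 536870912) (W2 := 536870912) (P3 := 1046898278) (W3 := 26843546) (N0 := 3)
    rfl k0_pp_313

noncomputable def f_pm_001 : ℕ → ℕ → ℕ → ℕ → Bool := onCell 67108864 469762048 536870912 536870912 1046898278 26843546
    (rowNX 3 1 true true false .up 0 0 1 (qsf 67108864 469762048 0 536870912 1) ndN1q0 ndN7q0 pcN1 Cut.none Ext.none)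

def k0_pm_001 : ∃ t, chk3 f_pm_001 t 1 1 1 = true :=
  ⟨(b (l 3) (b (a (l 3) (b (a (l 3) (l 3)) (a (b (l 3) (c (l 574619451399) (l 650318206807))) (c (b (l 501068294567) (b (l 16768520) (l 16721072))) (b (l 16774936) (b (l 16768216) (l 16719096))))))) (a (l 2) (b (a (b (c (l 214848105799) (l 218069312823)) (l 2)) (b (c (l 16396952) (l 16428472)) (c (l 16118880) (l 16117432)))) (a (l 2) (b (c (b (l 15853768) (l 191223933783)) (l 229341909895)) (a (l 2) (c (b (c (b (l 15564728) (l 15498168)) (l 15506520)) (l 15387744)) (b (l 15471456) (b (l 15326792) (c (l 15318000) (l 15292112)))))))))))), by decide +kernel⟩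

theorem c_pm_001 : CertNX 67108864 469762048 0 536870912 1046898278 26843546 3 true true false .up 0 0 1
    ndN1q0 ndN7q0 pcN1 Cut.none Ext.none :=
  certNX1 (fam := true) (s1 := true) (s2 := false) (a := 0) (b := 0) (c := 1) (cn := .up) (n1 := ndN1q0) (n2 := ndN7q0) (pc := pcN1) (cut := Cut.none) (xt := Ext.none) (P1 := 67108864) (W1 := 469762048) (P2 := 0) (W2 := 536870912) (P3 := 1046898278) (W3 := 26843546) (N0 := 3)
    rfl (fun _ => rfl) k0_pm_001

noncomputable def f_pm_011 : ℕ → ℕ → ℕ → ℕ → Bool := onCell 67108864 469762048 536870912 536870912 1046898278 26843546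
    (rowNX 3 1 true true false .pnn 0 1 1 (qsf 67108864 469762048 536870912 536870912 1) ndN1q0 ndN7q1 pcN1 Cut.none Ext.none)

def k0_pm_011 : ∃ t, chk3 f_pm_011 t 1 2 1 = true :=
  ⟨(l 3), by decide +kernel⟩

def k1_pm_011 : ∃ t, chk3 f_pm_011 t 1 6 1 = true :=
  ⟨(a (l 3) (a (b (l 3) (b (l 3) (c (l 574619451399) (l 650318206807)))) (l 1))), by decide +kernel⟩

def k2_pm_011 : ∃ t, chk3 f_pm_011 t 2 14 1 = true :=
  ⟨(b (l 3) (a (l 3) (a (a (l 3) (a (l 3) (b (l 3) (l 730311502167)))) (a (c (l 284708588535) (l 314773343015)) (b (c (l 16392768) (l 16380200)) (l 16206128)))))), by decide +kernel⟩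

def k3_pm_011 : ∃ t, chk3 f_pm_011 t 8 30 1 = true :=
  ⟨(l 3), by decide +kernel⟩

def k4_pm_011 : ∃ t, chk3 f_pm_011 t 16 62 1 = true :=
  ⟨(b (l 3) (a (b (l 3) (a (a (l 3) (b (l 3) (c (c (c (c (l 16599280) (c (l 16596000) (l 16539672))) (l 16556424)) (c (l 16558704) (l 16494528))) (l 16571200)))) (c (c (c (a (b (l 3) (c (l 16533312) (c (l 16476704) (l 16523160)))) (c (c (b (l 16429344) (l 16508424)) (b (l 16472128) (l 16456624))) (l 16463344))) (l 16482264)) (c (l 16468192) (b (l 773261050183) (l 16349040)))) (l 16479664)))) (c (c (b (c (l 633137371767) (b (a (l 3) (l 680918839143)) (l 16294272))) (c (a (c (a (c (l 246590624343) (l 16406640)) (l 16347608)) (l 16372728)) (l 16255736)) (l 16301104))) (b (c (b (a (l 3) (l 710983615991)) (c (l 16225568) (l 16261456))) (l 729237249895)) (c (l 16181016) (b (c (l 16270872) (l 16303296)) (c (l 16275672) (l 16284056)))))) (b (l 904794040823) (l 16228232))))), by decide +kernel⟩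

def k5_pm_011 : ∃ t, chk3 f_pm_011 t 64 63 4 = true :=
  ⟨(c (b (c (b (a (c (l 16661496) (a (l 16643864) (b (l 16645344) (l 16659560)))) (c (b (l 16638592) (l 16694320)) (l 242296205095))) (a (l 16678752) (l 16660664))) (b (a (b (l 16594592) (c (l 16595600) (l 16621656))) (b (l 16536536) (l 16601696))) (a (c (l 16659608) (c (l 16595000) (l 16580432))) (b (l 16576728) (l 16583008))))) (b (c (l 16677784) (a (l 16676264) (c (l 16681952) (l 16617152)))) (l 16644864))) (b (c (b (c (a (l 16612448) (b (l 16546640) (l 16537720))) (a (b (l 16567792) (l 16581400)) (l 16557000))) (a (b (l 16605768) (l 16587888)) (b (c (l 16577104) (l 16521792)) (l 16535744)))) (b (a (c (a (l 16614704) (l 16619344)) (l 16632176)) (l 16571200)) (a (c (b (l 16565048) (l 16621328)) (b (l 16607816) (l 16569872))) (c (l 16507280) (l 16560640))))) (c (b (a (c (l 16623248) (l 16573856)) (l 16514568)) (a (l 16676424) (b (l 16569904) (l 16628424)))) (b (c (b (l 16484648) (l 16481600)) (a (l 16567960) (l 16495648))) (a (a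 (l 16585528) (l 16588880)) (c (l 16556776) (l 16516400))))))), by decide +kernel⟩

def k6_pm_011 : ∃ t, chk3 f_pm_011 t 65 63 4 = true :=
  ⟨(c (b (c (b (a (l 16480616) (l 16398536)) (a (b (l 16541736) (l 16560784)) (l 16453016))) (a (b (c (l 16502872) (b (l 16505448) (l 16494960))) (b (l 16513400) (l 16532584))) (b (c (b (l 16465144) (l 16453088)) (l 16456544)) (c (l 16498256) (l 16360648))))) (c (b (a (l 16623312) (c (l 16555680) (l 16501960))) (l 16540512)) (b (a (c (a (l 16645096) (l 16587824)) (l 16536480)) (l 16411592)) (a (l 16535736) (a (l 16513464) (l 16474112)))))) (b (c (b (l 16442520) (a (c (a (l 16528704) (l 16482320)) (l 16486848)) (l 16444528))) (l 16473928)) (c (b (a (l 16437416) (c (l 16414152) (l 16432736))) (a (a (l 16530872) (l 16526144)) (c (l 16489456) (l 16448336)))) (b (a (l 16429432) (l 16422656)) (a (c (l 16492392) (l 16441888)) (l 16354160)))))), by decide +kernel⟩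

def k7_pm_011 : ∃ t, chk3 f_pm_011 t 33 63 4 = true :=
  ⟨(c (b (a (b (c (a (c (l 16354608) (b (l 16404736) (l 16411976))) (c (b (l 16345184) (l 16350640)) (l 16338208))) (l 16365736)) (c (a (l 16414432) (c (l 16369824) (l 16298864))) (a (c (l 16339848) (l 16385328)) (l 16324144)))) (b (l 16247568) (c (a (c (l 16279704) (l 16265840)) (l 16206528)) (l 16233192)))) (a (c (b (a (l 16401712) (l 16329384)) (a (c (l 16499744) (l 16469888)) (l 16350936))) (b (a (c (l 16427672) (l 16371664)) (c (l 16330064) (l 16310352))) (a (l 16401952) (l 16300496)))) (c (b (a (c (l 16299720) (l 16268368)) (c (l 16207536) (l 16191344))) (a (l 16321304) (l 16154568))) (b (l 16218864) (a (c (l 16258688) (l 16236616)) (l 16175096)))))) (b (l 16293824) (a (c (b (l 16296024) (a (c (l 16384224) (l 16358480)) (l 16294488))) (l 16323848)) (l 16204864)))), by decide +kernel⟩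

def k8_pm_011 : ∃ t, chk3 f_pm_011 t 16 63 5 = true :=
  ⟨(a (b (a (b (c (l 16594352) (l 236390397975)) (l 16501000)) (b (c (l 16471176) (l 16420456)) (l 16461144))) (a (c (c (a (b (c (l 16538904) (l 16607536)) (c (l 16546744) (l 16528840))) (b (l 16544688) (c (l 16484912) (l 16530152)))) (b (l 16573800) (l 16476040))) (l 16563832)) (b (l 16449576) (l 16412640)))) (b (b (c (l 16288696) (l 16152768)) (l 16277936)) (l 16258256))), by decide +kernel⟩

def k9_pm_011 : ∃ t, chk3 f_pm_011 t 16 63 3 = true :=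
  ⟨(b (c (a (b (a (c (c (b (l 16544304) (l 16573336)) (l 16480792)) (l 16592664)) (c (b (l 16399136) (l 16389536)) (l 16466248))) (c (a (l 16554536) (l 16450456)) (a (b (l 16511848) (c (l 16565184) (l 16567856))) (c (l 16339864) (l 16446896))))) (b (c (b (l 16150840) (l 16099520)) (l 16278960)) (c (l 16265160) (b (l 16240872) (l 16128512))))) (a (a (l 16583392) (l 16455448)) (l 16265872))) (b (c (a (a (l 16482296) (l 16419648)) (l 16170672)) (a (c (b (a (l 16520960) (l 16435808)) (c (l 16376232) (a (l 16535584) (l 16429240)))) (l 16421240)) (c (b (l 16247472) (c (l 16243184) (l 16240584))) (l 16243296)))) (a (c (l 16393224) (c (a (l 16549672) (l 16422664)) (b (a (l 16470768) (l 16384504)) (c (l 16404928) (a (l 16481928) (l 16416496)))))) (c (l 16241984) (c (l 16234448) (b (l 16173544) (c (l 16227896) (l 16205336)))))))), by decide +kernel⟩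

def k10_pm_011 : ∃ t, chk3 f_pm_011 t 34 31 1 = true :=
  ⟨(b (c (b (b (l 3) (c (b (a (l 3) (c (l 641727284471) (l 16223528))) (c (l 620789301911) (c (l 647095930711) (l 663202077687)))) (l 697024989239))) (c (a (b (c (l 16191488) (l 16175176)) (l 16108208)) (c (l 16145848) (b (b (l 16163824) (l 16138312)) (l 16109512)))) (b (c (b (a (l 16202776) (l 16180176)) (a (l 16096880) (c (l 16131736) (l 16144992)))) (l 16116336)) (c (a (b (l 16130616) (l 16116744)) (l 16093408)) (a (b (c (l 16136912) (l 16147200)) (c (l 16107288) (l 16114552))) (a (l 16005704) (l 16097152))))))) (b (l 708836146791) (a (b (l 16178984) (l 16127344)) (l 16039576)))) (c (b (c (a (l 16120776) (a (l 16047936) (l 16040632))) (b (a (c (l 16111696) (l 16079344)) (a (l 16041864) (l 16046912))) (a (l 16097640) (l 16005984)))) (c (a (c (c (b (l 16102696) (a (l 16068320) (l 16058832))) (l 16090912)) (l 16086800)) (l 15985688)) (l 15962480))) (b (c (b (a (c (b (l 16097424) (l 16085088)) (l 16097288)) (c (b (l 16043976) (a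 (l 16010088) (l 16014432))) (l 16033304))) (c (a (l 16082808) (l 15927240)) (a (b (l 16077968) (l 16070616)) (b (l 15924984) (a (l 15979888) (l 15955888)))))) (a (l 16081296) (l 16004560))) (c (a (l 16064528) (a (l 15974168) (l 15939752))) (b (c (b (a (l 16062120) (l 15953704)) (c (l 16003560) (l 15999968))) (l 16001416)) (c (l 15994400) (b (c (l 15972336) (l 15989576)) (c (l 15986384) (l 15857912))))))))), by decide +kernel⟩

def k11_pm_011 : ∃ t, chk3 f_pm_011 t 35 31 1 = true :=
  ⟨(b (c (b (c (b (c (c (l 16283264) (l 16340408)) (l 16368768)) (c (l 16241400) (b (l 16315520) (l 16251048)))) (l 16334520)) (c (b (c (l 16241520) (l 16226552)) (l 16189600)) (b (c (b (l 16253400) (l 16211984)) (l 16241688)) (c (l 16168768) (b (l 16184976) (l 16150848)))))) (b (l 16324336) (l 16200024))) (c (b (c (l 16109104) (b (l 16119496) (l 16064504))) (a (l 15969160) (l 16009040))) (b (c (b (c (l 15959880) (l 16109648)) (c (l 16049840) (l 15896264))) (l 16070208)) (c (b (l 15992248) (l 15944184)) (b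 (c (b (l 15992128) (c (l 15966528) (l 15962840))) (l 15975656)) (c (l 15933048) (b (l 15895592) (c (l 15914176) (l 15911232))))))))), by decide +kernel⟩

def k12_pm_011 : ∃ t, chk3 f_pm_011 t 9 15 1 = true :=
  ⟨(b (b (l 3) (a (b (l 3) (c (a (l 731385210743) (c (l 235316622167) (l 16633840))) (l 734606469111))) (b (c (l 16582072) (l 16578832)) (c (b (l 16546656) (a (l 16564552) (l 16562448))) (l 16551560))))) (b (c (b (a (c (b (c (c (l 16331216) (l 16366872)) (l 16416656)) (c (l 16314024) (b (l 16366296) (l 16304456)))) (l 16344240)) (c (b (c (b (l 16592392) (l 16520552)) (l 16585032)) (a (c (l 16566504) (l 16491480)) (l 16526328))) (l 16465760))) (b (c (a (c (l 16399360) (l 16303088)) (a (l 16452384) (l 16528160))) (a (b (l 16310208) (c (l 16290472) (l 16388848))) (a (c (l 16488616) (l 16542136)) (l 16524640)))) (c (a (l 16329216) (l 16494000)) (a (c (l 16291112) (a (l 16259952) (l 16366944))) (c (l 16459952) (a (l 16479400) (l 16491952))))))) (a (b (l 16381008) (l 16220520)) (a (b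 (l 16602184) (l 16511824)) (l 16544328)))) (c (a (b (c (l 16210048) (b (l 16181336) (l 16233424))) (l 16108896)) (b (b (c (l 16456376) (a (l 16432112) (l 16461224))) (l 16341824)) (l 16304352))) (b (c (a (b (c (c (l 16211592) (l 16234880)) (l 16280312)) (c (l 16221848) (b (l 16230432) (l 16179256)))) (b (a (c (l 16383104) (l 16429920)) (l 16455976)) (c (l 16372592) (a (l 16369624) (l 16412032))))) (a (l 16244824) (l 16414032))) (c (a (b (l 16143688) (l 16105776)) (l 16189136)) (a (b (c (b (l 16169344) (l 16079960)) (l 16152448)) (c (l 16097160) (b (l 16109656) (l 15972648)))) (b (c (b (l 16350248) (l 16283472)) (l 16335880)) (c (l 16282472) (b (l 16295720) (l 16223640)))))))))), by decide +kernel⟩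

def k13_pm_011 : ∃ t, chk3 f_pm_011 t 5 15 1 = true :=
  ⟨(b (a (b (a (c (l 16573352) (l 16569624)) (c (l 287392994391) (l 16481704))) (c (b (a (l 16579072) (l 16488216)) (a (l 16558144) (l 16467576))) (a (l 16567520) (b (l 16484032) (l 16463304))))) (b (a (l 16397424) (l 16148728)) (c (b (l 16264184) (l 16132776)) (a (l 16368904) (l 16110168))))) (a (b (c (b (c (c (a (b (l 16503976) (l 16471296)) (b (l 16418144) (l 16388176))) (a (l 16473784) (b (l 16429648) (l 16393312)))) (a (l 16503368) (l 16414952))) (c (a (l 16445712) (l 16320952)) (a (b (l 16453048) (l 16424624)) (b (l 16368760) (c (l 16341264) (l 16342216)))))) (a (l 16471592) (l 16383512))) (c (b (c (a (l 16400304) (l 16319880)) (a (l 16370104) (l 16289472))) (a (l 16337664) (l 16264168))) (b (c (b (a (l 16356320) (l 16274168)) (c (l 16269128) (a (l 16370104) (l 16289416)))) (l 16279248)) (c (a (l 16328752) (l 16254152)) (b (a (l 16240024) (l 16139040)) (c (l 16167552) (a (l 16224336) (l 16212816)))))))) (b (c (b (c (b (l 16089136)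 (l 16105384)) (l 16259856)) (c (l 16254712) (c (l 16048400) (l 16166016)))) (l 16139000)) (c (b (c (l 16307248) (l 16247888)) (l 16331920)) (b (c (b (l 16220784) (c (l 16315568) (l 16293624))) (l 16301008)) (c (l 16308288) (b (l 16125768) (c (l 16333168) (l 16225824))))))))), by decide +kernel⟩

def k14_pm_011 : ∃ t, chk3 f_pm_011 t 3 7 1 = true :=
  ⟨(b (a (b (c (a (l 16417248) (l 16512152)) (a (l 16450208) (l 16502816))) (a (a (b (l 243905921127) (c (l 16153928) (l 16132456))) (c (l 16186680) (l 16165888))) (c (l 16171936) (l 16150632)))) (b (c (l 16396952) (l 16428472)) (c (l 16118880) (l 16117432)))) (b (a (b (a (a (l 15898720) (l 15854600)) (l 15856216)) (a (c (b (l 15822960) (l 15693960)) (a (l 15869752) (l 15671312))) (c (l 15553384) (l 15607336)))) (b (c (l 15853768) (l 15821304)) (c (b (l 15692032) (l 15606272)) (l 15609112)))) (a (b (c (a (b (c (a (l 15898968) (l 15700656)) (l 15777368)) (c (l 15810264) (c (l 15741992) (l 15792264)))) (b (c (l 15511728) (l 15540608)) (c (l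 15521912) (a (l 15513624) (l 15487040))))) (a (l 15759888) (l 15488848))) (c (a (b (l 15638128) (l 15815632)) (a (l 15426608) (l 15404768))) (a (b (c (b (l 15787424) (l 15535096)) (l 15770408)) (c (l 15796408) (b (l 15732792) (c (l 15788744) (l 15780840))))) (b (c (a (l 15332016) (l 15397344)) (l 15409024)) (c (l 15397440) (a (l 15275952) (l 15312616))))))) (c (b (c (b (l 15524576) (l 15500960)) (b (l 15536456) (l 15416752))) (c (l 15403136) (l 15380808))) (b (l 15472816) (b (c (a (l 15391808) (l 15384048)) (l 15364784)) (c (l 15323656) (a (l 15303376) (l 15292112))))))))), by decide +kernel⟩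

theorem s15_pm_011 : ∃ t, chk3 f_pm_011 t 17 31 1 = true := ex3_a k10_pm_011 k11_pm_011

theorem s16_pm_011 : ∃ t, chk3 f_pm_011 t 32 63 4 = true := ex3_a k5_pm_011 k6_pm_011

theorem s17_pm_011 : ∃ t, chk3 f_pm_011 t 16 63 4 = true := ex3_a s16_pm_011 k7_pm_011

theorem s18_pm_011 : ∃ t, chk3 f_pm_011 t 16 63 2 = true := ex3_c s17_pm_011 k8_pm_011

theorem s19_pm_011 : ∃ t, chk3 f_pm_011 t 16 63 1 = true := ex3_c s18_pm_011 k9_pm_011

theorem s20_pm_011 : ∃ t, chk3 f_pm_011 t 16 31 1 = true := ex3_b k4_pm_011 s19_pm_011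

theorem s21_pm_011 : ∃ t, chk3 f_pm_011 t 8 31 1 = true := ex3_a s20_pm_011 s15_pm_011

theorem s22_pm_011 : ∃ t, chk3 f_pm_011 t 8 15 1 = true := ex3_b k3_pm_011 s21_pm_011

theorem s23_pm_011 : ∃ t, chk3 f_pm_011 t 4 15 1 = true := ex3_a s22_pm_011 k12_pm_011

theorem s24_pm_011 : ∃ t, chk3 f_pm_011 t 2 15 1 = true := ex3_a s23_pm_011 k13_pm_011

theorem s25_pm_011 : ∃ t, chk3 f_pm_011 t 2 7 1 = true := ex3_b k2_pm_011 s24_pm_011

theorem s26_pm_011 : ∃ t, chk3 f_pm_011 t 1 7 1 = true := ex3_a s25_pm_011 k14_pm_011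

theorem s27_pm_011 : ∃ t, chk3 f_pm_011 t 1 3 1 = true := ex3_b k1_pm_011 s26_pm_011

theorem s28_pm_011 : ∃ t, chk3 f_pm_011 t 1 1 1 = true := ex3_b k0_pm_011 s27_pm_011

theorem c_pm_011 : CertNX 67108864 469762048 536870912 536870912 1046898278 26843546 3 true true false .pnn 0 1 1
    ndN1q0 ndN7q1 pcN1 Cut.none Ext.none :=
  certNX1 (fam := true) (s1 := true) (s2 := false) (a := 0) (b := 1) (c := 1) (cn := .pnn) (n1 := ndN1q0) (n2 := ndN7q1) (pc := pcN1) (cut := Cut.none) (xt := Ext.none) (P1 := 67108864) (W1 := 469762048) (P2 := 536870912) (W2 := 536870912) (P3 := 1046898278) (W3 := 26843546) (N0 := 3)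
    rfl (fun _ => rfl) s28_pm_011

noncomputable def f_pm_012 : ℕ → ℕ → ℕ → ℕ → Bool := onCell 1073741824 536870912 536870912 536870912 1046898278 26843546
    (rowNX 3 2 true true false .pnp 0 1 2 (qsf 67108864 469762048 536870912 536870912 2) ndN1q0 ndN7q1 pcN2 Cut.none Ext.none)

def k0_pm_012 : ∃ t, chk3 f_pm_012 t 4 2 1 = true :=
  ⟨(b (b (a (a (a (b (l 15777032) (b (l 15809832) (c (l 15844952) (l 15749224)))) (l 15582544)) (l 15286080)) (l 14777424)) (a (a (a (c (a (l 15863328) (l 15780384)) (a (l 15724856) (l 15741264))) (c (l 15641240) (l 15597112))) (c (a (l 15389328) (c (l 15277896) (l 15251232))) (a (l 15403872) (l 15211656)))) (a (b (l 14944760) (c (a (l 15093976) (l 14915024)) (a (l 15034632) (l 14849032)))) (a (b (l 14694192) (b (l 14691216) (a (l 14744344) (l 14658752)))) (l 14535960))))) (a (a (c (a (b (a (l 15710832) (b (l 15806816) (l 16014392))) (a (l 16271744) (b (l 16254400) (l 16397480)))) (b (b (l 15699696) (l 15918584)) (b (l 16168832) (l 16410416)))) (b (a (c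 (a (l 15941320) (l 15877384)) (b (l 15785896) (l 15996880))) (b (l 15649768) (l 15874016))) (a (a (c (l 16412216) (l 16318088)) (l 16106392)) (l 16016736)))) (c (b (a (b (l 15544488) (l 15776784)) (c (l 15452704) (l 15492344))) (a (c (l 16188904) (l 16167152)) (c (l 16038432) (l 16046336)))) (b (a (l 15613312) (l 15460640)) (b (l 15798336) (l 16205744))))) (a (b (c (a (b (l 15231840) (l 15511152)) (b (l 15071624) (l 15398832))) (a (l 15111984) (b (l 15012672) (l 15354792)))) (c (a (b (l 15817408) (l 16144160)) (b (l 15750840) (l 16121504))) (a (b (l 15791240) (l 16132496)) (b (l 15722480) (l 16109464))))) (b (c (a (b (a (l 14930648) (l 14810872)) (a (l 15292968) (l 15186424))) (b (l 14660216) (l 15006072))) (a (b (a (l 14866088) (l 14742856)) (l 15189800)) (b (l 14586232) (l 14948272)))) (c (a (a (b (l 15680232) (l 16084816)) (l 15741488)) (b (l 15399480) (l 15788816))) (a (a (l 15710440) (l 15758056)) (l 15359376))))))), by decide +kernel⟩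

def k1_pm_012 : ∃ t, chk3 f_pm_012 t 16 6 1 = true :=
  ⟨(b (c (a (b (a (l 16167784) (l 16077104)) (c (a (b (l 16054600) (l 16095320)) (b (l 15991128) (c (l 15985288) (l 15980784)))) (a (l 16064368) (l 15965064)))) (b (l 16085240) (b (l 15972624) (c (a (l 15897496) (l 15850712)) (l 15884760))))) (a (b (c (l 16012824) (l 16052880)) (a (c (l 16056344) (a (l 16070440) (l 16027744))) (c (l 15985848) (l 15986016)))) (b (l 16150608) (c (l 15834376) (l 15932040))))) (c (a (a (c (b (b (l 16135552) (l 16104616)) (b (l 16049896) (l 15950048))) (b (c (l 16114672) (l 16108896)) (c (b (l 16042960) (l 15938936)) (b (l 16037144) (a (l 15965200) (l 15906352)))))) (b (c (a (c (l 16027360) (l 15898536)) (l 15968856)) (c (b (l 16011936) (l 15975168)) (l 15993160))) (c (a (b (l 15954104) (l 15863992)) (l 15849528)) (c (b (l 15917392) (l 15829040)) (a (l 15899072) (l 15762208)))))) (b (c (a (b (l 15913816) (l 15868824)) (l 15798256)) (c (b (l 15871624) (l 15824488)) (l 15852120))) (c (a (b (l 15805080)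 (l 15729824)) (l 15665368)) (a (c (l 15746624) (l 15773408)) (l 15675128))))) (a (b (c (a (l 16020488) (l 15996160)) (a (a (l 16129136) (l 16073464)) (l 15999032))) (a (b (c (l 16031888) (l 15903984)) (c (l 15927600) (l 15840432))) (c (l 15874592) (l 15877976)))) (b (c (l 15853520) (l 15845696)) (c (l 15537248) (l 15716968)))))), by decide +kernel⟩

def k2_pm_012 : ∃ t, chk3 f_pm_012 t 17 6 1 = true :=
  ⟨(b (c (c (b (l 16070592) (c (a (l 15913816) (l 15802856)) (l 15921856))) (a (l 15868312) (l 15961968))) (a (l 15795496) (b (l 16196256) (l 15904728)))) (b (c (c (a (b (l 15695696) (l 15643216)) (b (c (l 15698504) (l 15691624)) (c (l 15507544) (l 15251408)))) (b (a (l 15738392) (l 15683880)) (c (a (l 15643968) (l 15493400)) (l 15399512)))) (a (b (l 15720152) (l 15622160)) (b (l 15659048) (l 15459880)))) (c (a (c (l 15521648) (c (a (l 15576272) (l 15477080)) (a (l 15576024) (l 15467832)))) (c (a (l 15378648) (l 15280192)) (c (l 15319400) (l 15303512)))) (a (l 15499656) (l 15276328))))),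 by decide +kernel⟩

def k3_pm_012 : ∃ t, chk3 f_pm_012 t 16 28 2 = true :=
  ⟨(a (c (b (a (l 15826304) (a (l 15734568) (l 15680464))) (a (b (l 15788432) (b (l 15815672) (a (l 15854392) (l 15799944)))) (a (c (l 15710024) (l 15702288)) (l 15648576)))) (c (a (b (l 15814728) (l 15656744)) (b (l 15700128) (l 15669912))) (a (b (a (l 15837792) (l 15754280)) (a (l 15831712) (l 15753312))) (b (l 15656800) (l 15669616))))) (b (c (a (l 15609440) (l 15524136)) (a (l 15612256) (l 15535296))) (c (a (c (l 15572568) (l 15571120)) (l 15485128)) (l 15538048)))), by decide +kernel⟩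

def k4_pm_012 : ∃ t, chk3 f_pm_012 t 32 29 2 = true :=
  ⟨(c (b (c (b (a (c (b (c (l 15941544) (l 15914016)) (l 16042160)) (b (l 15905224) (l 15959480))) (a (c (b (l 15774504) (l 15861784)) (b (l 15748296) (l 15799544))) (c (b (l 15707072) (l 15769672)) (l 15698824)))) (a (c (b (l 16146792) (l 16136520)) (b (l 15997216) (l 16205384))) (c (a (l 15792344) (b (l 15868648) (l 15957568))) (b (a (l 15895912) (l 15783488)) (l 15939344))))) (a (b (l 15933896) (c (b (l 16039192) (l 15939064)) (l 16070120))) (b (a (l 15768472) (l 15690824)) (c (a (b (l 15853960) (l 15856480)) (l 15621216)) (l 15829432))))) (b (c (a (c (l 16337768) (b (l 16147024) (l 16385344))) (c (l 16087832) (a (b (l 16125176) (l 16193504)) (l 15993600)))) (a (c (b (l 16199296) (l 16195352)) (b (l 16098480) (l 16115952))) (a (c (b (l 16051584) (l 16129328)) (b (l 15993232) (l 16008504))) (c (l 15869904) (l 15827992))))) (a (b (c (l 16411232) (c (l 16322552) (l 16260480))) (c (l 16326864) (a (c (l 16562264) (l 16447664)) (l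 16286512)))) (c (l 16007896) (c (a (l 16149672) (l 16156904)) (b (l 15966864) (a (l 16185904) (l 16193952)))))))) (b (a (a (l 16055224) (c (l 15934120) (l 15781408))) (a (c (b (l 15763704) (l 15882168)) (l 15822040)) (b (l 15688568) (l 15773464)))) (a (b (c (l 16165872) (l 16014944)) (c (b (c (c (l 16258368) (l 16297952)) (l 16314120)) (c (b (l 16331136) (l 16397440)) (b (l 16368792) (l 16307088)))) (a (l 16419040) (l 16282120)))) (c (b (l 15879048) (c (b (a (l 16015760) (l 16025992)) (l 15969544)) (b (l 16065800) (l 16057160)))) (l 15846776))))), by decide +kernel⟩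

def k5_pm_012 : ∃ t, chk3 f_pm_012 t 33 29 2 = true :=
  ⟨(c (b (c (b (c (a (l 15656888) (l 15559672)) (a (l 15613704) (l 15521184))) (a (c (b (l 15754368) (l 15811136)) (b (l 15669504) (l 15755872))) (c (l 15663640) (l 15613648)))) (b (l 15565576) (a (c (b (l 15630504) (a (l 15718856) (l 15636400))) (l 15650456)) (l 15553816)))) (c (c (a (l 15895392) (l 15710384)) (b (a (b (l 15844360) (l 15908032)) (b (l 15691400) (l 15721720))) (l 15669568))) (b (c (a (b (l 15773600) (l 15888704)) (b (l 15624904) (l 15706608))) (a (b (l 15718680) (l 15813320)) (b (l 15573208) (l 15634352)))) (a (c (l 15967152) (b (l 15931576) (l 16026416))) (c (l 15786848) (l 15648776)))))) (b (a (a (l 15601216) (l 15609536)) (l 15545712)) (b (a (l 15587616) (l 15598696)) (c (c (b (a (l 15863600) (l 15668920)) (l 15647816)) (b (l 15753440) (l 15740600))) (l 15795720))))), by decide +kernel⟩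

def k6_pm_012 : ∃ t, chk3 f_pm_012 t 16 14 3 = true :=
  ⟨(a (b (c (a (c (b (c (a (l 15834064) (l 15772296)) (l 15799136)) (a (b (l 15795048) (l 15850360)) (a (c (l 15762848) (l 15761352)) (l 15730752)))) (b (l 15796168) (a (l 15816480) (l 15744584)))) (b (c (c (l 15698736) (l 15699664)) (l 15704248)) (c (a (l 15691568) (l 15646656)) (l 15663000)))) (b (a (a (l 15817400) (l 15767840)) (l 15705056)) (a (a (c (l 15810792) (l 15641128)) (l 15745760)) (l 15677032)))) (a (c (a (b (c (l 16045032) (c (l 16043312) (l 16039544))) (c (b (l 16264464) (l 16395480)) (b (c (l 16260688) (l 16156256)) (a (l 16442392) (l 16248848))))) (c (b (a (l 15950944) (l 15893440)) (a (l 16239008) (l 16177696))) (c (b (l 15712808) (l 16166064)) (b (a (l 15948680) (l 15895520)) (l 16002064))))) (b (a (c (l 16037376) (l 16037872)) (l 15885704)) (b (c (l 16077664) (l 16081352)) (c (a (a (l 16441088) (c (l 16271152) (l 16376912))) (c (l 16248160) (l 16295808))) (a (l 16271456) (l 16301896)))))) (c (b (a (c (b (l 15759512)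 (l 15881304)) (c (l 15720816) (l 15831352))) (c (l 15740824) (l 15753408))) (c (l 15872696) (a (l 15933056) (l 16000616)))) (b (b (l 15742112) (l 15845616)) (c (c (a (l 16113968) (l 15969088)) (l 16063448)) (l 16061080)))))) (b (c (b (c (a (l 15623112) (l 15541192)) (l 15578984)) (a (c (l 15587824) (l 15596488)) (l 15501432))) (b (l 15567432) (l 15533136))) (c (a (b (c (l 15653896) (a (c (l 15685232) (l 15689000)) (l 15628160))) (c (l 15839712) (a (l 15899712) (l 15796400)))) (b (c (l 15554808) (l 15549848)) (c (b (l 15609704) (l 15704976)) (l 15659320)))) (b (l 15470240) (a (l 15761768) (l 15625112)))))), by decide +kernel⟩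

def k7_pm_012 : ∃ t, chk3 f_pm_012 t 17 14 1 = true :=
  ⟨(c (b (c (b (a (l 15387848) (l 14991392)) (a (l 15367736) (c (l 15181888) (l 15175376)))) (a (b (c (l 15392160) (l 15389648)) (a (l 15417984) (l 15328144))) (b (l 15163928) (l 15160176)))) (c (b (c (b (a (c (l 15439688) (l 15401184)) (c (l 15276624) (l 15233352))) (a (c (l 15539656) (l 15489656)) (c (l 15374504) (l 15319568)))) (a (l 15374968) (b (l 15223032) (l 15248896)))) (b (c (a (l 15548720) (l 15312240)) (a (c (l 15524920) (l 15466672)) (c (l 15342752) (l 15277344)))) (a (c (l 15531392) (a (b (l 15601816) (l 15637440)) (l 15509832))) (c (l 15340960) (c (l 15381480) (l 15360880)))))) (a (b (a (l 15459696) (l 15367368)) (c (b (l 15443632) (c (b (l 15477984) (l 15441600)) (a (l 15534648) (l 15421208)))) (a (l 15516808) (l 15401400)))) (b (l 15215944) (c (b (l 15244064) (c (l 15314848) (l 15257512))) (l 15237872)))))) (b (b (c (c (a (l 15379744) (l 15140736)) (l 15247616)) (l 15082384)) (a (a (l 15392800) (l 15204224)) (c (c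 (l 15142224) (l 14946024)) (l 15107472)))) (a (a (b (l 15438600) (c (l 15507136) (l 15484040))) (c (l 15369096) (l 15337944))) (c (c (l 15210800) (b (l 15185432) (l 15213064))) (a (l 15227592) (b (l 15099624) (l 15133024))))))), by decide +kernel⟩

def k8_pm_012 : ∃ t, chk3 f_pm_012 t 64 60 1 = true :=
  ⟨(a (b (c (b (c (c (c (b (a (l 16510984) (l 16497656)) (a (l 16481104) (l 16446448))) (l 16535832)) (l 16540848)) (c (c (b (l 16478024) (l 16512904)) (c (l 16457368) (b (l 16485680) (l 16504112)))) (l 16447392))) (a (l 1) (c (c (c (l 497175272615) (l 16510120)) (l 16581224)) (c (c (l 16626480) (l 16539424)) (l 509523325543))))) (c (c (l 16416376) (a (l 16524080) (b (l 16439800) (l 16516896)))) (c (c (a (l 16525184) (b (c (l 16482296) (l 16482464)) (l 16517736))) (l 498248988055)) (a (l 16504608) (l 16465928))))) (l 1)) (b (c (c (c (b (l 16424968) (c (b (a (l 16427544) (l 16413392)) (a (l 16468792) (l 16433312))) (l 16465176))) (l 16431232)) (c (b (c (l 16390496) (l 16322168)) (c (l 16491736)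 (b (l 16450952) (c (l 16533536) (l 16544192))))) (c (b (l 16390896) (c (b (l 16408344) (l 16495296)) (l 481605826263))) (l 202432839879)))) (c (c (a (l 16341248) (l 16391408)) (a (l 206191063639) (l 16396896))) (c (c (a (l 209949169655) (l 16406032)) (l 16434400)) (l 16399736)))) (a (l 1) (b (c (c (c (c (l 16362776) (l 16449632)) (l 16486912)) (c (l 16542448) (c (l 505765171815) (l 16462120)))) (c (l 525092529671) (c (l 16486200) (l 16492704)))) (l 1))))), by decide +kernel⟩

def k9_pm_012 : ∃ t, chk3 f_pm_012 t 65 60 1 = true :=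
  ⟨(c (c (b (a (a (l 16337040) (l 16230464)) (l 16182032)) (c (a (b (c (a (b (l 16398352) (l 16399000)) (l 16327640)) (l 16382768)) (a (l 1) (c (l 16333232) (l 16377104)))) (b (l 16267976) (a (b (l 16292592) (l 491269381831)) (l 16271144)))) (a (b (l 16290720) (l 16419696)) (l 16239056)))) (c (b (c (a (b (l 16218896) (l 16438472)) (l 16130224)) (b (l 16030824) (a (l 16332320) (l 16297200)))) (b (a (c (l 16464456) (c (l 16489952) (l 16367856))) (l 16369832)) (l 478384497335))) (b (b (l 16211376) (c (a (l 16311472) (l 16235240)) (l 16285848))) (c (b (b (l 16182664) (a (l 16456256) (l 16377136))) (a (l 16484848) (b (l 16382624) (l 16450160)))) (b (a (l 16295760) (l 16299032)) (a (l 16435448) (c (l 16375576) (l 16281256)))))))) (c (b (a (c (l 16311944) (l 16323968)) (l 16207472)) (a (c (l 475163315991) (l 16300616)) (b (l 16315520) (l 16288992)))) (c (b (a (a (l 16264048) (l 16188664)) (l 16104752)) (a (c (l 16440432) (c (l 448319858135) (l 424160659767))) (c (l 16320424) (l 16343192))))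 (b (l 16208560) (l 402148736471))))), by decide +kernel⟩

def k10_pm_012 : ∃ t, chk3 f_pm_012 t 32 61 1 = true :=
  ⟨(b (a (l 1) (b (a (l 1) (a (l 1) (b (c (c (c (l 16288136) (l 16334936)) (c (l 16381400) (l 16364992))) (c (l 16387512) (l 16407928))) (l 1)))) (l 1))) (l 1)), by decide +kernel⟩

def k11_pm_012 : ∃ t, chk3 f_pm_012 t 32 31 1 = true :=
  ⟨(l 1), by decide +kernel⟩

def k12_pm_012 : ∃ t, chk3 f_pm_012 t 33 60 1 = true :=
  ⟨(c (c (a (b (l 15843048) (a (b (l 16172080) (l 16223696)) (l 16086368))) (c (l 15815488) (l 15913520))) (b (c (c (b (a (l 16039696) (l 15881384)) (l 15945344)) (b (l 15689960) (l 15823768))) (c (b (l 15892472) (l 15808584)) (l 15933384))) (c (a (b (l 16098504) (l 16249856)) (l 16016952)) (a (c (b (l 16127280) (l 16163120)) (b (l 16143104) (l 16099480))) (c (b (l 15986528) (l 16078696)) (l 15886752)))))) (c (a (b (c (l 16046304) (l 16057224)) (a (c (l 16243008) (l 16259904)) (l 16118440))) (c (l 15905912) (l 15904736))) (a (b (l 16056752) (a (l 16242576)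 (l 16140784))) (l 15894632)))), by decide +kernel⟩

def k13_pm_012 : ∃ t, chk3 f_pm_012 t 33 61 1 = true :=
  ⟨(a (b (c (c (c (a (b (a (b (l 16277456) (l 16280256)) (l 16234544)) (c (a (l 1) (l 16233288)) (l 16204176))) (a (b (l 16182088) (b (l 16218520) (l 16220848))) (l 173978169319))) (a (l 16282144) (l 16195416))) (c (a (l 226055031095) (l 16243200)) (b (c (l 16332176) (a (l 16278944) (l 16294592))) (l 486974323447)))) (c (c (b (c (a (l 16214920) (l 16251184)) (l 16286752)) (c (c (l 478921292807) (l 16250424)) (l 474626239543))) (a (l 16339088) (l 16276776))) (a (l 409128084247) (l 16231048)))) (b (a (l 1) (b (b (c (c (c (l 486437241367) (l 16238232)) (l 16302136)) (c (c (l 514891678679) (l 16330464)) (l 16326864))) (l 1)) (l 1))) (l 1))) (c (b (c (a (l 16088872) (l 15983632)) (c (l 16003344) (b (l 16047480) (l 16194080)))) (c (c (a (b (a (b (l 16163384) (l 16145552)) (l 16128160)) (c (a (l 1) (l 16129304)) (l 16161152))) (b (l 16058216) (c (a (l 16052560) (l 16082920)) (l 16113280))))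 (l 226591429559)) (b (l 16065616) (l 16131576)))) (c (c (b (b (l 15898200) (c (b (l 16174008) (l 16223720)) (l 16116168))) (b (c (l 459593659271) (c (l 16086064) (l 16095520))) (c (l 16285888) (a (l 16338560) (l 16246112))))) (b (l 16122784) (b (l 16206976) (c (l 411812098999) (l 16247808))))) (b (l 16010624) (a (l 16267568) (l 16176112)))))), by decide +kernel⟩

def k14_pm_012 : ∃ t, chk3 f_pm_012 t 33 31 1 = true :=
  ⟨(b (b (b (a (l 1) (a (l 1) (b (c (c (c (c (l 485900201559) (l 16130576)) (l 16151808)) (l 16198184)) (c (c (l 16267680) (l 582537162983)) (l 16228712))) (l 1)))) (l 1)) (l 1)) (l 1)), by decide +kernel⟩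

def k15_pm_012 : ∃ t, chk3 f_pm_012 t 17 30 2 = true :=
  ⟨(a (c (b (b (a (l 15646648) (l 15487704)) (a (l 15728392) (l 15530016))) (a (b (l 15830216) (a (l 16003296) (l 15896832))) (b (l 15625872) (l 15740624)))) (b (c (b (a (c (l 15711760) (b (l 15624504) (l 15732760))) (c (l 15465448) (b (l 15469312) (l 15543600)))) (a (l 15814048) (l 15607584))) (b (a (c (l 15636992) (l 15625896)) (l 15454376)) (c (b (a (l 15781560) (l 15566064)) (l 15698056)) (a (l 15737136) (l 15555472))))) (b (a (c (l 15891232) (c (l 15942240) (l 15866488))) (c (l 15678552) (l 15629448))) (a (a (b (l 16042704) (l 16093264)) (l 15960624)) (l 15685568))))) (c (b (a (b (l 15376240) (l 15364328)) (l 15262976)) (a (b (l 15252520) (l 15527656)) (b (a (l 15279264) (l 15204288)) (l 15311520)))) (c (b (b (c (l 15369344) (l 15330064)) (l 15362472)) (a (l 15504360) (l 15300696))) (b (b (l 15265368) (c (b (l 15332240) (l 15375120)) (l 15134432))) (b (a (l 15295280) (l 15209320)) (l 15407552)))))), by decide +kernel⟩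

def k16_pm_012 : ∃ t, chk3 f_pm_012 t 17 30 3 = true :=
  ⟨(b (a (c (a (l 15681704) (b (l 15430008) (l 15519136))) (a (l 15664160) (b (l 15407864) (l 15501360)))) (c (a (l 15316248) (l 15187528)) (a (l 15169696) (l 15167208)))) (a (c (b (c (b (l 15639024) (a (c (l 15970688) (l 15919720)) (c (l 15736208) (l 15684248)))) (a (l 15876768) (l 15640936))) (c (a (b (c (l 16048984) (b (l 15984784) (l 16020488))) (a (l 16154416) (l 16034184))) (c (l 15830696) (b (l 15782064) (l 15859496)))) (a (b (l 15977552) (a (l 16116120) (l 15994896))) (l 15757520)))) (a (b (l 15868392) (a (l 16070144) (l 15944304))) (l 15569464))) (b (c (b (a (l 15389456) (l 15208592)) (c (a (c (l 15503208) (l 15450264)) (c (l 15289288) (l 15235440))) (l 15331400))) (a (l 15395456) (c (l 15201560) (l 15191184)))) (c (c (b (c (l 15417248) (a (l 15544352) (l 15310848))) (l 15242256)) (a (l 15537064) (l 15300704))) (l 15395216))))), by decide +kernel⟩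

def k17_pm_012 : ∃ t, chk3 f_pm_012 t 17 62 1 = true :=
  ⟨(c (a (b (a (c (b (a (a (b (l 16098144) (l 16064792)) (l 16043688)) (l 15991656)) (c (a (a (l 1) (l 484826375095)) (a (l 226591393847) (l 16016400))) (l 16084456))) (a (b (l 16136608) (l 16152488)) (l 197063376119))) (c (a (l 15920416) (l 15810456)) (a (l 15958752) (l 15836304)))) (c (a (a (l 1) (c (b (c (l 484826252887) (l 16053408)) (l 1)) (l 486973866407))) (c (a (a (b (l 15949480) (l 1)) (b (l 15975480) (l 15990512))) (b (l 15901032) (c (l 230349219015) (l 15956768)))) (l 15976320))) (a (l 509522493319) (a (l 16019448) (l 15947712))))) (a (b (c (l 15645928) (l 15656560)) (c (a (l 15832944) (l 15718112)) (l 15784648))) (c (l 15255744) (l 15478832)))) (c (a (b (c (a (a (l 16190176) (l 16095680)) (l 15931856)) (a (b (c (b (l 418791112951) (l 16038056)) (l 15937152)) (c (l 16095688) (a (l 16187840) (l 415569989559)))) (b (c (l 15907736) (l 15869184)) (c (l 15974704) (l 15773368))))) (a (c (l 16152760) (l 577168258583)) (b (b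 (l 417717089719) (l 16003104)) (l 16022904)))) (a (b (c (l 15677280) (c (l 15457288) (l 15460672))) (b (l 15726392) (l 15814784))) (c (l 15489992) (b (c (l 15447072) (l 15428456)) (l 15537344))))) (a (b (a (a (l 16101792) (l 16067096)) (l 15899864)) (a (b (b (l 16150560) (l 1)) (l 1)) (c (c (b (b (l 15976560) (l 15889920)) (b (l 15912512) (l 16048240))) (l 406442807207)) (l 15987192)))) (b (l 15517464) (c (a (b (l 15689672) (c (l 15661112) (l 15807656))) (c (b (l 15512144) (l 15576304)) (l 15522272))) (a (l 15772200) (l 15512416))))))), by decide +kernel⟩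

def k18_pm_012 : ∃ t, chk3 f_pm_012 t 17 63 1 = true :=
  ⟨(a (a (l 1) (b (b (c (c (c (a (l 1) (c (l 484289207383) (l 15966752))) (l 15924480)) (l 16028912)) (c (l 16026632) (c (c (l 16039640) (l 15957624)) (l 16024560)))) (l 1)) (l 1))) (b (c (a (c (c (a (b (c (l 15769496) (l 15911360)) (c (l 484825983255) (l 15920248))) (b (l 15811376) (c (l 230349036183) (l 15864784)))) (l 464961549335)) (l 15875040)) (a (l 15728832) (l 15609272))) (c (a (l 15676928) (l 15657968)) (c (b (a (c (l 15863480) (b (l 15856784) (l 15734096))) (c (l 15624816) (l 15624992))) (a (l 400537098663) (l 15680592))) (a (b (l 15846640) (c (a (l 15932088) (l 15765064)) (l 15879936))) (b (l 15605480) (c (l 15659224) (l 15670512))))))) (a (b (c (c (c (a (l 1) (c (l 488583979895) (l 15872736))) (l 515427609111)) (l 15914600)) (c (l 15901952) (c (l 15894392) (c (l 612064314551) (l 15892672))))) (l 1)) (c (c (c (a (b (c (l 15804280) (l 15817120)) (c (l 15775344) (l 15824520))) (a (b (l 15744808) (l 15782640)) (l 15711760)))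 (l 15771720)) (l 15760528)) (c (l 15745424) (c (l 15735408) (c (b (c (l 15724544) (l 395704842759)) (l 15753304)) (b (l 15718672) (c (l 15667888) (b (l 15748200) (l 15757128))))))))))), by decide +kernel⟩

def k19_pm_012 : ∃ t, chk3 f_pm_012 t 9 6 1 = true :=
  ⟨(a (b (c (b (a (l 16186056) (l 16141776)) (c (c (a (l 15891280) (l 15816152)) (l 15850488)) (l 15756872))) (b (a (l 16175016) (l 16129040)) (a (l 15861520) (l 15782584)))) (b (c (c (a (c (l 15397008) (b (l 15631968) (l 15381008))) (c (b (l 15540608) (l 15271816)) (b (l 15528136) (l 15254624)))) (c (b (l 15573168) (a (l 15366304) (l 15240432))) (l 15346664))) (a (c (l 15474496) (l 15454240)) (c (l 15356728) (l 15334112)))) (c (c (a (b (l 15155256) (l 14998944)) (b (l 14963504) (l 14690080))) (c (a (b (l 15133400) (l 14978536)) (b (l 14932816) (l 14667944))) (a (b (l 15012936) (l 14960824)) (b (l 14919936) (a (l 14702520) (l 14568704)))))) (a (b (a (l 15144752) (l 15014344)) (l 14924928)) (c (l 14621248) (l 14713616)))))) (b (a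 (a (c (b (l 16117816) (l 15764152)) (b (l 16104376) (l 15734504))) (c (b (l 16139896) (l 15786000)) (l 15718936))) (c (b (l 16196240) (l 15852672)) (b (l 16190088) (l 15829072)))) (b (c (c (a (a (c (b (l 15472480) (l 15193192)) (b (l 15465608) (l 15170528))) (c (l 15353656) (l 15331096))) (c (l 15360304) (l 15320744))) (a (l 15125728) (l 15400168))) (a (a (l 15268352) (l 15289064)) (l 15368232))) (c (c (a (a (b (c (l 14868296) (l 14857880)) (l 14525360)) (l 14700424)) (c (l 14798552) (l 14792760))) (c (a (a (b (a (l 14845472) (l 14817088)) (l 14502464)) (l 14684456)) (l 14700216)) (b (l 14874528) (a (a (a (l 14488400) (l 14453824)) (l 14483344)) (l 14566608))))) (a (a (l 14563608) (l 14621448)) (l 14707136)))))), by decide +kernel⟩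

def k20_pm_012 : ∃ t, chk3 f_pm_012 t 9 28 1 = true :=
  ⟨(a (b (c (c (a (l 14876296) (l 14499176)) (a (l 14848312) (c (l 14470320) (l 14455472)))) (c (c (a (l 14817992) (c (l 14435816) (l 14421832))) (l 14606552)) (l 14390736))) (c (c (a (l 14856304) (l 14446144)) (a (l 14824312) (l 14406464))) (c (c (a (l 14803104) (l 14381232)) (c (a (l 14786872) (l 14359448)) (a (l 14777352) (l 14346896)))) (l 14352280)))) (c (c (a (b (a (l 14243176) (l 14205848)) (a (l 14155088) (l 14072760))) (b (l 14271552) (l 14064720))) (a (a (b (c (l 14210688) (a (l 14227880) (l 14155184))) (l 14109912)) (b (l 14087768) (l 14026136))) (b (c (l 14239760) (l 14224584)) (l 14018216)))) (c (b (a (c (a (a (l 14193176) (a (l 14129368) (l 14103072))) (l 14118864)) (l 14132792)) (c (l 14186680) (l 14175168))) (a (a (c (a (l 14127728) (l 14035624)) (c (a (l 14102360) (l 14008664)) (c (l 14046544) (l 14044240)))) (c (l 13996936) (c (l 13968936) (l 13956608)))) (c (l 13987952) (c (l 13959264) (l 13949272))))) (a (b (l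 14099112) (l 13974776)) (l 14043240))))), by decide +kernel⟩

def k21_pm_012 : ∃ t, chk3 f_pm_012 t 9 29 1 = true :=
  ⟨(a (c (c (b (c (b (a (l 14947152) (l 14513616)) (a (c (l 15074088) (l 15012712)) (l 14596792))) (a (l 14916936) (l 14476560))) (c (a (b (l 15074856) (l 15032792)) (l 14609696)) (b (a (c (l 15033344) (l 14963152)) (l 14378592)) (a (l 15042104) (l 14601504))))) (c (b (l 14648816) (b (l 14696464) (c (a (l 14988360) (l 14544712)) (l 14577920)))) (a (l 14890928) (l 14443928)))) (a (c (c (l 14833568) (b (c (l 14851792) (l 14845776)) (l 14880632))) (a (b (l 14841320) (l 14965296)) (b (l 14479120) (c (l 14753520) (l 14724176))))) (c (c (l 14424392) (b (l 14395128) (l 14419984))) (c (b (c (l 14371944) (l 14366040)) (c (l 14407456) (l 14184192))) (b (l 14350952) (l 14362904)))))) (c (c (b (a (c (a (b (l 14204736) (l 14274792)) (l 13994720)) (a (l 14158144) (l 14068248))) (c (l 13989040) (l 14020312))) (a (c (a (l 14273512) (l 14176936)) (a (b (l 14229024) (l 14257376)) (b (l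 14133496) (l 14158000)))) (c (l 14125752) (b (l 14082800) (l 14105440))))) (a (a (c (b (l 14128592) (b (l 14134032) (l 14168632))) (l 14109952)) (c (b (l 14037912) (l 14078856)) (l 14014696))) (c (b (l 13989656) (l 14026968)) (l 13964496)))) (a (a (c (c (l 14087312) (b (c (l 14066248) (l 13932984)) (l 14067848))) (a (c (b (l 14054752) (l 14103384)) (l 14061264)) (c (a (b (l 13969976) (l 14013640)) (b (l 13803096) (l 13970176))) (b (l 13962496) (l 13943384))))) (c (c (l 13991224) (b (l 13972528) (l 13966952))) (c (b (l 13905768) (l 13945752)) (l 13907664)))) (c (c (l 13940680) (b (l 13921992) (l 13913984))) (c (b (l 13853968) (l 13890528)) (l 13855792)))))), by decide +kernel⟩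

def k22_pm_012 : ∃ t, chk3 f_pm_012 t 18 15 2 = true :=
  ⟨(b (c (a (b (b (l 14998888) (l 14955600)) (a (l 15065960) (l 14816880))) (b (l 14365000) (l 14472000))) (b (b (c (a (c (l 15030528) (l 14989760)) (l 14368576)) (a (l 14922824) (l 14471512))) (a (c (l 14998144) (c (l 14985000) (l 14933872))) (c (l 14540144) (c (l 14523800) (l 14470584))))) (a (b (c (l 14951256) (l 14974104)) (l 14925128)) (a (l 14415936) (l 14353272))))) (a (b (a (c (l 15199888) (l 15183528)) (b (l 14635800) (l 14897232))) (a (b (l 15370016) (a (l 15587984) (l 15403672))) (l 15073520))) (b (c (l 14476392) (l 14446968)) (a (l 14722568) (b (l 14358856) (l 14434032)))))), by decide +kernel⟩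

def k23_pm_012 : ∃ t, chk3 f_pm_012 t 18 15 3 = true :=
  ⟨(b (b (c (a (c (l 14897368) (l 14882040)) (b (l 14434904) (l 14423200))) (a (c (b (l 14868912) (l 14868088)) (l 14763984)) (c (b (l 14405640) (l 14393680)) (a (l 14494432) (l 14260056))))) (c (a (c (b (c (l 14759864) (l 14903272)) (b (c (l 14976488) (l 14942632)) (l 14819032))) (b (l 14889352) (a (l 15041736) (l 14777120)))) (c (b (l 14400584) (c (l 14482896) (l 14463800))) (l 14413856))) (a (a (b (l 14788472) (l 15013216)) (l 14743032)) (l 14379040)))) (a (b (c (a (c (l 15190800) (b (c (l 15148272) (l 15128352)) (l 15232824))) (c (l 14858168) (b (c (l 14828112) (l 14806776)) (l 14870912)))) (b (l 14934864) (c (c (b (l 14919952) (l 15022088)) (l 15031120)) (l 15018048)))) (c (a (b (l 15340824) (l 15474976)) (l 15035360)) (c (b (c (l 15155848) (b (l 14939712) (l 15177368))) (a (l 15461512) (l 15076080))) (b (a (l 15304424) (l 14951352)) (b (c (c (l 15231584) (l 15080168)) (l 15223056)) (c (l 15194792) (a (c (l 15478304) (l 15369352))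 (l 15027968)))))))) (c (b (c (l 14444336) (b (c (l 14446072) (l 14423024)) (l 14424680))) (a (l 14674952) (l 14345704))) (b (b (l 14378760) (c (c (b (l 14413112) (l 14427960)) (l 14397304)) (l 14380008))) (c (b (c (l 14455728) (b (l 14411696) (l 14456448))) (l 14527304)) (b (b (l 14405288) (l 14378360)) (c (b (l 14489456) (l 14542336)) (b (l 14481344) (l 14365856))))))))), by decide +kernel⟩

def k24_pm_012 : ∃ t, chk3 f_pm_012 t 19 15 1 = true :=
  ⟨(c (b (b (c (a (a (b (l 14220328) (l 14175064)) (l 14102008)) (l 14046016)) (a (a (c (b (l 14215168) (l 14206696)) (b (l 14126184) (c (l 14188000) (l 14133240)))) (c (b (l 14111288) (l 14111424)) (b (l 14021392) (l 14071856)))) (c (b (l 14056424) (l 14053816)) (b (l 13966144) (l 14013840))))) (a (a (c (l 14142072) (c (l 14136696) (b (l 14167160) (l 14124328)))) (c (l 14061264) (l 14049744))) (b (c (l 14016320) (l 14008880)) (l 14022512)))) (a (a (b (a (l 14167096) (l 14062008)) (a (l 14182656) (l 14063328))) (l 14006664)) (b (l 14003464)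 (l 13990024)))) (b (b (c (a (a (b (l 14084832) (l 14082312)) (l 13980744)) (l 13923304)) (a (a (c (b (l 14050712) (l 14048088)) (a (l 14081784) (a (l 13990760) (l 13945888)))) (c (l 13957456) (l 13921024))) (c (l 13897976) (l 13861656)))) (a (c (a (c (b (c (l 14136368) (l 14087296)) (c (l 14140896) (l 14120232))) (l 14070096)) (c (b (l 14041744) (l 14044864)) (l 13986136))) (a (l 14030576) (l 13945536))) (c (c (b (l 13990368) (l 14009688)) (l 13941576)) (l 13900544)))) (a (c (b (c (a (l 14086664) (l 13999768)) (a (b (c (l 14096632) (l 14072008)) (l 14058792)) (b (l 13997304) (l 13969240)))) (a (l 14062464) (l 13956192))) (b (a (a (l 14081344) (a (l 13992288) (l 13950528))) (l 13937488)) (a (c (b (c (l 14036064) (b (l 14034264) (l 14021976))) (l 14035472)) (b (l 14005600) (c (b (l 14008816) (l 14024888)) (b (l 13998552) (a (l 14083120) (l 13938160)))))) (c (b (l 13931936) (l 13920032)) (b (l 13910616) (c (l 13904888) (l 13889760))))))) (c (b (c (l 13973600) (b (l 13972432) (l 13943312)))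 (l 13922920)) (b (b (l 13911896) (l 13905992)) (c (b (l 13900872) (l 13883840)) (b (l 13879392) (c (l 13868536) (l 13853304))))))))), by decide +kernel⟩

def k25_pm_012 : ∃ t, chk3 f_pm_012 t 5 2 1 = true :=
  ⟨(a (b (a (a (l 14399448) (l 2)) (l 2)) (b (b (a (a (c (l 14485352) (l 14404760)) (a (b (l 14478408) (l 14541760)) (l 14766488))) (l 15397728)) (a (a (c (l 14768856) (l 14701960)) (a (c (l 14765248) (l 14699208)) (c (l 14977192) (l 14918128)))) (a (c (l 15318968) (l 15271832)) (b (l 15717512) (l 15705440))))) (a (a (c (b (l 15159160) (l 15567744)) (l 15193528)) (c (a (l 15222608) (l 15224896)) (a (l 15286152) (l 15356856)))) (c (a (l 15649464) (l 15930256)) (a (l 15706768) (l 16064600)))))) (b (l 2) (a (b (l 16375216) (a (b (l 16200024) (l 16093272)) (b (l 16248104) (l 15962352)))) (b (l 2) (a (l 15811352) (l 16041696)))))), by decide +kernel⟩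

def k26_pm_012 : ∃ t, chk3 f_pm_012 t 10 6 1 = true :=
  ⟨(a (b (a (c (b (l 15992984) (l 15937136)) (b (l 15980416) (l 15919864))) (c (a (b (l 15925696) (l 15949672)) (b (l 16023240) (l 15895120))) (a (l 15919464) (l 15816184)))) (b (c (a (c (c (l 15386536) (l 15460840)) (l 15498024)) (c (b (l 15654120) (a (l 15390624) (c (l 15360568) (l 15355768)))) (l 15292944))) (a (l 15470400) (a (l 15498928) (l 15451808)))) (c (a (c (c (l 14909784) (l 14895512)) (c (l 14738840) (l 14676664))) (b (c (a (l 15097096) (c (l 15071304) (l 15047968))) (l 15051808)) (a (c (l 14780816) (c (l 14745480) (l 14732200))) (c (l 14752272) (c (l 14714968) (l 14703304)))))) (a (l 14818584) (a (l 14862424) (l 14828944)))))) (b (c (b (l 15938920) (l 15537744)) (b (l 16008672) (l 15676592))) (c (b (a (c (b (l 15517376) (l 15240280)) (l 15364328)) (l 15222784)) (c (a (c (l 14809208) (l 14784200)) (l 14457824)) (c (b (l 14854112) (l 14531968)) (l 14681304)))) (b (a (l 15332728) (l 15173480)) (l 14386816))))), by decide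 +kernel⟩

def k27_pm_012 : ∃ t, chk3 f_pm_012 t 20 14 1 = true :=
  ⟨(b (a (c (c (b (l 14381800) (l 14128504)) (b (c (l 14353960) (l 14334104)) (l 14083624))) (c (b (c (l 14300432) (l 14291296)) (c (l 14052640) (c (l 14024712) (l 14021248)))) (l 14128416))) (c (c (a (b (l 14434576) (l 14189176)) (b (l 14414224) (l 14177496))) (a (c (l 14289568) (l 14017048)) (b (c (l 14391120) (l 14319664)) (l 14141096)))) (c (a (b (c (l 14360160) (l 14347176)) (c (l 14112096) (l 13987136))) (b (l 14336032) (c (a (l 14114216) (l 14081600)) (l 14079032)))) (l 14055640)))) (c (c (a (b (c (b (l 14060536) (l 14085080)) (l 13997304)) (c (l 14061976) (l 14022688))) (b (a (c (l 14111288) (l 14017024)) (c (l 14108608) (l 14014368))) (a (c (l 14017872) (l 13978288)) (c (l 13977832) (b (l 13956384) (l 13924816)))))) (a (b (l 13954760) (c (l 13962320) (l 13896696))) (a (b (l 13974968) (c (l 13917616) (l 13851696))) (b (l 13972360) (c (l 13876912) (l 13810648)))))) (a (c (c (l 13902920) (b (c (l 13907544) (l 13887928))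 (l 13848016))) (c (b (b (l 13885256) (l 13802008)) (l 13829512)) (l 13816976))) (a (c (c (l 13893784) (b (c (l 13926624) (l 13906232)) (l 13802400))) (c (b (l 13865304) (l 13776312)) (l 13806792))) (c (c (b (l 13941968) (l 13785744)) (b (c (l 13921784) (l 13650944)) (l 13763992))) (a (a (c (l 13675656) (l 13802520)) (l 13798200)) (l 13768984))))))), by decide +kernel⟩

def k28_pm_012 : ∃ t, chk3 f_pm_012 t 20 15 2 = true :=
  ⟨(a (b (c (b (l 13974360) (l 13943776)) (b (b (l 13827392) (c (l 13979376) (l 13938856))) (l 13930624))) (a (l 13968624) (l 13944632))) (b (c (a (l 13840632) (a (l 13844864) (a (l 13835752) (b (l 13794464) (l 13761624))))) (b (a (c (l 13918976) (l 13869816)) (b (l 13805784) (b (l 13835736) (a (l 13867440) (a (l 13815104) (c (l 13787264) (l 13764712))))))) (a (l 13875336) (a (l 13839304) (a (l 13788192) (a (l 13545088) (l 13744296))))))) (a (l 13918496) (a (l 13889112) (a (l 13844064) (l 13810208)))))), by decide +kernel⟩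

def k29_pm_012 : ∃ t, chk3 f_pm_012 t 20 15 3 = true :=
  ⟨(c (b (a (b (l 13849688) (c (b (l 13910592) (l 13934160)) (l 13864952))) (a (b (l 13795640) (c (l 13858296) (l 13808656))) (a (b (l 13756800) (c (b (l 13818576) (l 13841168)) (l 13771896))) (b (a (l 13703624) (l 13662024)) (a (c (l 13769992) (l 13719576)) (c (b (l 13721216) (l 13750472)) (l 13675680))))))) (a (b (c (l 13921760) (b (l 13911688) (l 13901848))) (l 13892208)) (a (b (c (l 13869048) (b (l 13853280) (l 13850224))) (l 13867144)) (a (b (c (l 13833712) (b (l 13817392) (l 13814952))) (l 13841104)) (a (b (c (l 13785880) (b (l 13768336) (l 13767504))) (l 13796664)) (b (c (l 13749984) (b (l 13731448) (l 13732880))) (l 13763944))))))) (a (b (b (c (l 13819072) (l 13783928)) (l 13823088)) (b (b (l 13850552) (l 13864208)) (c (b (c (l 13881112) (l 13866064)) (l 13853920)) (b (l 13849312) (c (l 13838536) (l 13823256)))))) (a (b (c (l 13783568) (l 13754200)) (b (l 13804752) (c (b (l 13837472) (l 13839048)) (b (l 13815696) (l 13689864)))))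 (b (a (b (a (l 13640016) (l 13693480)) (l 13728968)) (a (b (l 13652192) (l 13675912)) (b (l 13608960) (l 13631384)))) (a (b (l 13768720) (c (b (l 13802944) (l 13817240)) (b (l 13780904) (c (l 13801736) (l 13786376))))) (b (a (l 13719768) (b (l 13668032) (l 13693136))) (a (c (l 13765104) (b (l 13734296) (l 13749408))) (c (b (l 13722984) (l 13740744)) (b (l 13700208) (c (l 13724728) (l 13709024))))))))))), by decide +kernel⟩

def k30_pm_012 : ∃ t, chk3 f_pm_012 t 21 7 1 = true :=
  ⟨(b (c (b (c (b (l 14248600) (l 14012472)) (b (c (l 14211496) (l 13993184)) (c (l 13981328) (l 13956616)))) (c (b (c (l 13952832) (l 13857040)) (c (l 13812744) (l 13771208))) (c (b (l 13825144) (l 13708568)) (l 13723536)))) (b (b (l 14134752) (c (c (a (l 13992976) (l 13854816)) (l 13906416)) (l 13870360))) (c (a (c (b (l 13845968) (l 13675200)) (l 13670408)) (l 13538104)) (b (l 13711664) (l 13528104))))) (c (b (c (b (l 13416040) (l 13491208)) (a (b (c (l 13607264) (l 13513672)) (l 13590616)) (b (c (l 13509504)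 (l 13456424)) (l 13336608)))) (l 13494272)) (b (c (b (a (l 13539544) (l 13395864)) (c (b (l 13384008) (l 13441544)) (l 13394024))) (a (b (a (l 13529240) (l 13433040)) (l 13480864)) (b (l 13318832) (l 13213200)))) (c (b (c (l 13428416) (b (l 13407888) (l 13406104))) (l 13435992)) (b (l 13353728) (c (b (l 13391184) (l 13407184)) (b (l 13365264) (l 13274992)))))))), by decide +kernel⟩

def k31_pm_012 : ∃ t, chk3 f_pm_012 t 11 3 1 = true :=
  ⟨(b (a (b (c (b (l 15736488) (l 15404952)) (a (l 15611992) (l 15457832))) (c (b (l 14974944) (c (a (l 14499880) (l 14355312)) (l 14391048))) (b (l 14935472) (l 14329704)))) (b (c (l 15417496) (l 15369600)) (c (b (l 14831840) (l 14249480)) (l 14465688)))) (a (b (c (c (b (b (l 13963408) (l 13746296)) (b (c (l 13698912) (l 13600448)) (c (l 13574048) (l 13530032)))) (b (a (b (l 13960232) (l 13759464)) (l 13725224)) (c (b (l 13566976) (l 13464912)) (l 13471112)))) (b (b (l 13839744) (l 13595672)) (a (l 13449520) (l 13322528)))) (c (b (c (b (l 13351952) (l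 13151312)) (b (c (l 13340272) (l 13285432)) (l 13123056))) (a (l 13088184) (l 12895992))) (b (c (b (l 13208912) (c (b (l 13130744) (l 13066256)) (l 13041104))) (l 13060128)) (c (b (b (c (l 12977040) (l 12953504)) (l 12901736)) (l 12870936)) (b (a (l 12943392) (l 12784568)) (c (b (l 12824928) (l 12812504)) (b (l 12793440) (l 12632528)))))))) (b (c (b (b (l 13782208) (l 13567112)) (c (b (c (l 13557912) (l 13457280)) (c (l 13441144) (l 13395688))) (c (l 13139936) (l 13325136)))) (b (l 13566192) (l 13249656))) (c (b (c (l 13145648) (b (c (l 13214104) (l 13157904)) (l 13006112))) (a (l 12802784) (l 12802264))) (b (c (b (l 13071728) (c (l 12976232) (l 12917944))) (l 12935008)) (c (b (c (l 12810296) (b (l 12829016) (l 12735992))) (l 12630672)) (b (l 12720008) (c (l 12581896) (b (l 12587352) (l 12506368)))))))))), by decide +kernel⟩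

def k32_pm_012 : ∃ t, chk3 f_pm_012 t 3 1 1 = true :=
  ⟨(b (a (b (l 2) (b (l 2) (a (l 16041696) (l 2)))) (l 2)) (b (a (b (a (l 15393264) (l 15393264)) (a (c (l 14544056) (l 14465424)) (a (l 14504672) (l 14504672)))) (b (l 2) (l 14378840))) (b (a (c (b (a (l 13652976) (l 13652976)) (a (c (b (l 13531400) (l 13409824)) (l 13370024)) (c (b (l 13531400) (l 13409824)) (l 13370024)))) (a (l 13409280) (l 13409280))) (c (b (l 13652976) (c (l 13288688) (l 13370024))) (l 13409280))) (c (c (a (a (l 12997424) (l 12997424)) (l 12997424)) (b (a (b (a (l 13183368) (l 13183368)) (l 13005936)) (b (l 13183368) (l 13005936))) (a (l 12768792) (l 12768792)))) (a (b (c (b (l 13071528) (a (l 12950272) (l 12950272))) (l 12934816)) (c (b (a (c (l 12810128) (l 12769704)) (l 12784696)) (l 12630320)) (b (l 12719832) (c (l 12413768) (a (l 12538824) (l 12538824)))))) (b (c (l 13003624) (l 12934816)) (c (b (l 12784696) (l 12630320)) (b (l 12719832) (a (l 12559560) (l 12559560)))))))))), by decide +kernel⟩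

theorem s33_pm_012 : ∃ t, chk3 f_pm_012 t 20 15 1 = true := ex3_c k28_pm_012 k29_pm_012

theorem s34_pm_012 : ∃ t, chk3 f_pm_012 t 20 7 1 = true := ex3_b k27_pm_012 s33_pm_012

theorem s35_pm_012 : ∃ t, chk3 f_pm_012 t 10 7 1 = true := ex3_a s34_pm_012 k30_pm_012

theorem s36_pm_012 : ∃ t, chk3 f_pm_012 t 10 3 1 = true := ex3_b k26_pm_012 s35_pm_012

theorem s37_pm_012 : ∃ t, chk3 f_pm_012 t 5 3 1 = true := ex3_a s36_pm_012 k31_pm_012

theorem s38_pm_012 : ∃ t, chk3 f_pm_012 t 5 1 1 = true := ex3_b k25_pm_012 s37_pm_012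

theorem s39_pm_012 : ∃ t, chk3 f_pm_012 t 18 15 1 = true := ex3_c k22_pm_012 k23_pm_012

theorem s40_pm_012 : ∃ t, chk3 f_pm_012 t 9 15 1 = true := ex3_a s39_pm_012 k24_pm_012

theorem s41_pm_012 : ∃ t, chk3 f_pm_012 t 9 14 1 = true := ex3_b k20_pm_012 k21_pm_012

theorem s42_pm_012 : ∃ t, chk3 f_pm_012 t 9 7 1 = true := ex3_b s41_pm_012 s40_pm_012

theorem s43_pm_012 : ∃ t, chk3 f_pm_012 t 9 3 1 = true := ex3_b k19_pm_012 s42_pm_012

theorem s44_pm_012 : ∃ t, chk3 f_pm_012 t 17 31 1 = true := ex3_b k17_pm_012 k18_pm_012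

theorem s45_pm_012 : ∃ t, chk3 f_pm_012 t 17 30 1 = true := ex3_c k15_pm_012 k16_pm_012

theorem s46_pm_012 : ∃ t, chk3 f_pm_012 t 17 15 1 = true := ex3_b s45_pm_012 s44_pm_012

theorem s47_pm_012 : ∃ t, chk3 f_pm_012 t 33 30 1 = true := ex3_b k12_pm_012 k13_pm_012

theorem s48_pm_012 : ∃ t, chk3 f_pm_012 t 33 15 1 = true := ex3_b s47_pm_012 k14_pm_012

theorem s49_pm_012 : ∃ t, chk3 f_pm_012 t 32 60 1 = true := ex3_a k8_pm_012 k9_pm_012

theorem s50_pm_012 : ∃ t, chk3 f_pm_012 t 32 30 1 = true := ex3_b s49_pm_012 k10_pm_012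

theorem s51_pm_012 : ∃ t, chk3 f_pm_012 t 32 15 1 = true := ex3_b s50_pm_012 k11_pm_012

theorem s52_pm_012 : ∃ t, chk3 f_pm_012 t 16 15 1 = true := ex3_a s51_pm_012 s48_pm_012

theorem s53_pm_012 : ∃ t, chk3 f_pm_012 t 8 15 1 = true := ex3_a s52_pm_012 s46_pm_012

theorem s54_pm_012 : ∃ t, chk3 f_pm_012 t 16 29 2 = true := ex3_a k4_pm_012 k5_pm_012

theorem s55_pm_012 : ∃ t, chk3 f_pm_012 t 16 14 2 = true := ex3_b k3_pm_012 s54_pm_012

theorem s56_pm_012 : ∃ t, chk3 f_pm_012 t 16 14 1 = true := ex3_c s55_pm_012 k6_pm_012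

theorem s57_pm_012 : ∃ t, chk3 f_pm_012 t 8 14 1 = true := ex3_a s56_pm_012 k7_pm_012

theorem s58_pm_012 : ∃ t, chk3 f_pm_012 t 8 7 1 = true := ex3_b s57_pm_012 s53_pm_012

theorem s59_pm_012 : ∃ t, chk3 f_pm_012 t 8 6 1 = true := ex3_a k1_pm_012 k2_pm_012

theorem s60_pm_012 : ∃ t, chk3 f_pm_012 t 8 3 1 = true := ex3_b s59_pm_012 s58_pm_012

theorem s61_pm_012 : ∃ t, chk3 f_pm_012 t 4 3 1 = true := ex3_a s60_pm_012 s43_pm_012

theorem s62_pm_012 : ∃ t, chk3 f_pm_012 t 4 1 1 = true := ex3_b k0_pm_012 s61_pm_012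

theorem s63_pm_012 : ∃ t, chk3 f_pm_012 t 2 1 1 = true := ex3_a s62_pm_012 s38_pm_012

theorem s64_pm_012 : ∃ t, chk3 f_pm_012 t 1 1 1 = true := ex3_a s63_pm_012 k32_pm_012

theorem c_pm_012 : CertNX 67108864 469762048 536870912 536870912 1046898278 26843546 3 true true false .pnp 0 1 2
    ndN1q0 ndN7q1 pcN2 Cut.none Ext.none :=
  certNX2 (fam := true) (s1 := true) (s2 := false) (a := 0) (b := 1) (c := 2) (cn := .pnp) (n1 := ndN1q0) (n2 := ndN7q1) (pc := pcN2) (cut := Cut.none) (xt := Ext.none) (P1 := 67108864) (W1 := 469762048) (P2 := 536870912) (W2 := 536870912) (P3 := 1046898278) (W3 := 26843546) (N0 := 3)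
    rfl (fun _ => rfl) s64_pm_012

noncomputable def f_pm_022 : ℕ → ℕ → ℕ → ℕ → Bool := onCell 1073741824 536870912 1073741824 536870912 1046898278 26843546
    (rowNX 3 2 true true false .pp 0 2 2 (qsf 67108864 469762048 1073741824 536870912 2) ndN1q0 ndN7q2 pcN2 Cut.none Ext.none)

def k0_pm_022 : ∃ t, chk3 f_pm_022 t 8 8 1 = true :=
  ⟨(b (b (b (b (b (b (a (l 1) (a (l 1) (a (l 1) (a (l 1) (a (l 1) (c (l 15761024) (l 15732176))))))) (l 1)) (l 1)) (l 1)) (l 1)) (l 1)) (l 1)), by decide +kernel⟩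

def k1_pm_022 : ∃ t, chk3 f_pm_022 t 36 8 1 = true :=
  ⟨(b (b (b (c (a (c (c (a (b (l 15610256) (c (l 15728776) (l 15748400))) (b (l 15534328) (l 15577888))) (l 15640192)) (l 15627368)) (l 15182088)) (c (a (l 15610080) (l 15278424)) (c (a (l 15598424) (l 15262456)) (c (b (l 15163672) (a (c (l 15647552) (l 570724563783)) (l 15226448))) (b (a (c (l 15489288) (b (l 15527168) (l 15578816))) (l 15033384)) (a (l 15641304) (l 15305888))))))) (a (b (c (a (l 1) (a (l 1) (b (l 15630408) (l 1)))) (c (l 15714984) (c (l 15714056) (l 15687440)))) (l 1)) (c (c (a (b (l 417716259847) (a (l 1) (l 15570480))) (b (l 15385672) (l 415031761783))) (l 15478496)) (c (l 15462736) (c (b (l 15418824) (c (l 15516696) (l 15306544))) (b (l 15179976) (l 15496144))))))) (b (a (l 1) (b (c (a (l 1) (a (l 1) (b (l 15484488) (l 1)))) (c (l 15581280) (c (l 530995993095) (l 15559944)))) (l 1))) (l 1))) (l 1)), by decide +kernel⟩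

def k2_pm_022 : ∃ t, chk3 f_pm_022 t 37 8 1 = true :=
  ⟨(b (c (b (a (b (l 14947872) (l 15168240)) (l 14708560)) (c (a (a (b (b (l 410736664343) (a (l 1) (l 15428768))) (l 1)) (b (b (l 15247448) (l 15186640)) (a (l 1) (b (l 15360064) (l 1))))) (b (l 15048120) (c (a (b (l 15269880) (c (l 15305336) (l 15321888))) (l 226589334471)) (l 15218056)))) (a (b (l 15337416) (l 15474920)) (b (l 15027040) (l 15213280))))) (c (b (a (l 14781392) (l 14660856)) (b (b (a (l 15297128) (l 14952696)) (a (l 496098981351) (l 15069080))) (c (a (l 15493080) (l 15228072)) (a (c (l 15502040) (l 15483416)) (b (c (l 15202448) (l 15185368)) (l 503078086567)))))) (b (c (b (l 14700768) (b (l 14879992) (c (l 15021384) (a (l 15191704) (l 14825736))))) (b (c (b (l 14630200) (l 14751032)) (b (l 14370232) (l 14744128))) (b (l 14867104) (l 14995416)))) (b (b (c (a (c (l 15305304) (l 15281672)) (l 14945384)) (l 15096352)) (a (l 548175445847) (l 15056600))) (l 15123728))))) (b (b (b (c (a (l 1) (a (l 1) (a (l 1) (c (l 15232264)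 (l 15244944))))) (c (c (l 15479416) (l 15433872)) (l 15410568))) (l 1)) (l 1)) (l 1))), by decide +kernel⟩

def k3_pm_022 : ∃ t, chk3 f_pm_022 t 38 8 1 = true :=
  ⟨(a (b (c (b (a (l 14452192) (l 14082264)) (b (a (l 14776248) (l 14615992)) (a (l 14996936) (l 14814216)))) (c (b (l 14315320) (b (c (l 14663416) (l 14663768)) (c (l 14757240) (b (c (l 14869264) (l 14850712)) (a (l 15048976) (l 14884368)))))) (b (c (b (l 14169624) (c (l 14417824) (b (l 14347688) (l 14475168)))) (b (c (b (l 14095296) (l 14215816)) (b (l 13895848) (l 14206520))) (l 14391792))) (b (c (c (b (l 14608808) (l 14720352)) (l 14638960)) (l 14623632)) (l 14870960))))) (b (b (c (c (c (a (b (l 15140896) (c (l 15179296) (l 15200200))) (a (l 224441769815) (l 15017016))) (l 427378951063)) (a (l 15188672) (l 15054208))) (c (c (b (a (l 15174776) (l 15026032)) (a (l 15243736) (c (l 15144480) (l 15110080)))) (a (l 15157240) (l 15019792))) (l 15057344))) (b (a (l 1) (a (l 1) (c (c (l 15135784) (l 15168400)) (c (c (l 15160016)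 (l 15110168)) (l 15090504))))) (l 1))) (l 1))) (c (b (b (l 14193936) (l 14602280)) (b (c (b (l 14931536) (c (a (b (l 15108072) (c (l 15150088) (l 15171352))) (l 15091360)) (l 15118048))) (b (l 14942496) (c (l 15137880) (b (l 15127312) (l 15213064))))) (b (a (l 1) (b (b (c (l 15195944) (l 15142816)) (l 1)) (l 1))) (l 1)))) (b (c (b (l 14132296) (c (l 14585592) (b (l 14452096) (c (l 14707584) (l 14685472))))) (b (c (b (l 13997872) (c (l 14207896) (l 14194120))) (b (c (l 13983240) (l 13968472)) (l 14179528))) (b (c (l 14438208) (l 14408200)) (l 14644840)))) (b (c (c (b (b (l 14894000) (l 15008384)) (b (l 14945672) (l 15142504))) (b (l 14905648) (l 15077872))) (l 14961328)) (l 15250944))))), by decide +kernel⟩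

def k4_pm_022 : ∃ t, chk3 f_pm_022 t 39 8 1 = true :=
  ⟨(c (b (b (a (l 14119320) (l 14084624)) (a (l 14464896) (c (l 14371752) (l 14341424)))) (b (b (c (l 14719888) (l 14722552)) (c (a (l 15004984) (l 14867768)) (c (l 14964656) (a (l 15048200) (l 14903448))))) (c (b (a (c (a (b (l 15176272) (c (l 15215816) (l 15240096))) (l 15163776)) (l 15209272)) (l 15097240)) (b (a (c (c (l 509520744663) (l 15280472)) (l 15339920)) (l 15108000)) (a (l 1) (c (a (l 15238776) (l 15316520)) (l 15384184))))) (b (c (a (l 15246128) (l 15144680)) (a (c (l 15081408) (l 15177232)) (c (l 15126112) (l 15074688)))) (c (a (l 484824766071) (b (l 15284072) (l 15341480))) (l 448317217735)))))) (b (c (b (l 14040576) (c (b (l 14272752) (l 14494952)) (b (l 14269664) (c (l 14497336) (l 14474304))))) (b (c (b (l 13939464) (c (l 14087216) (b (l 14034496) (l 14117232)))) (b (c (l 13924512) (l 13909536)) (l 14057600))) (b (a (l 14028456) (c (l 14200800) (l 14168736))) (l 14431352)))) (b (c (b (c (c (l 14746016) (l 14726488))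 (l 14680824)) (b (c (l 14885840) (l 14833624)) (l 14814688))) (l 14773880)) (a (l 15190120) (l 15103888))))), by decide +kernel⟩

def k5_pm_022 : ∃ t, chk3 f_pm_022 t 4 9 1 = true :=
  ⟨(a (l 1) (a (l 1) (a (l 1) (a (l 1) (b (b (b (b (c (c (c (l 482140479191) (l 15437816)) (l 15338008)) (l 15289536)) (l 1)) (l 1)) (l 1)) (l 1)))))), by decide +kernel⟩

def k6_pm_022 : ∃ t, chk3 f_pm_022 t 4 5 1 = true :=
  ⟨(l 1), by decide +kernel⟩

def k7_pm_022 : ∃ t, chk3 f_pm_022 t 40 8 1 = true :=
  ⟨(c (b (b (l 14061480) (a (l 14295144) (l 14271064))) (c (b (a (l 14643840) (l 14555072)) (a (b (l 14969472) (l 15205312)) (l 14977272))) (b (b (l 14501216) (c (l 14705336) (l 14722728))) (b (c (l 14954464) (c (l 14934616) (l 14882336))) (c (a (b (l 15167400) (l 15252336)) (l 15091064)) (a (l 15135304) (l 15011600))))))) (b (c (b (l 13996976) (c (l 14262680) (b (l 14173256) (a (l 14309016) (l 14299552))))) (b (c (b (l 13905760) (c (l 14038696) (l 14024280))) (b (c (l 13890704) (l 13875648)) (l 14008720)))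 (b (c (l 14157032) (l 14124688)) (l 14262392)))) (b (c (b (c (a (l 14542096) (l 14462504)) (l 14454592)) (a (l 14706392) (l 14571264))) (l 14520264)) (a (l 15003128) (l 14872136))))), by decide +kernel⟩

def k8_pm_022 : ∃ t, chk3 f_pm_022 t 41 8 1 = true :=
  ⟨(c (a (b (l 14161696) (c (b (l 14509376) (l 14879744)) (b (a (l 14275904) (l 14496696)) (c (b (l 14798920) (l 14991664)) (b (l 14761120) (l 14911296)))))) (b (a (l 14156504) (a (l 14131392) (l 14111264))) (a (c (b (l 14497824) (l 14819784)) (b (l 14430928) (c (b (l 14743352) (l 14923152)) (b (l 14684096) (l 14842168))))) (c (a (b (l 14480864) (l 14782656)) (b (l 14467184) (b (l 14661472) (l 14847040)))) (b (a (l 14476624) (c (l 14468000) (b (l 14404432) (l 14553400)))) (a (c (b (l 14713328) (l 14877368)) (b (l 14674776) (l 14795952))) (b (c (l 14698744) (c (l 14677184) (l 14623760))) (c (b (l 14808336) (l 14889296)) (l 14764536))))))))) (a (b (c (b (l 13986664) (c (l 14242936) (b (l 14161912) (l 14295072)))) (b (c (b (l 13895920)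 (l 14018208)) (b (l 13831112) (l 13998160))) (l 14187376))) (b (c (c (b (l 14442192) (l 14559952)) (l 14452216)) (l 14419536)) (l 14770136))) (b (a (c (b (l 13980176) (c (l 14239296) (b (l 14157776) (l 14292056)))) (b (c (b (l 13888472) (l 14012968)) (b (c (l 13873440) (l 13858408)) (l 13992936))) (l 14183816))) (c (b (a (l 13951160) (l 13927536)) (a (c (l 14217024) (b (l 14134104) (l 14270856))) (c (l 14199544) (b (l 14115608) (l 14254096))))) (b (a (c (b (l 13856344) (l 13986584)) (b (l 13833200) (l 13966328))) (c (b (l 13829392) (l 13714504)) (b (c (l 13813976) (l 13798680)) (l 13945728)))) (a (l 14161088) (b (l 14018368) (l 14198112)))))) (a (b (c (c (b (l 14440232) (l 14543728)) (l 14440432)) (l 14407672)) (l 14707456)) (b (c (a (c (b (l 14421624) (l 14527520)) (l 14422872)) (c (b (l 14406720) (l 14514312)) (l 14408696))) (a (l 14389912) (l 14375568))) (a (l 14668616) (l 14645360))))))), by decide +kernel⟩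

def k9_pm_022 : ∃ t, chk3 f_pm_022 t 21 8 1 = true :=
  ⟨(c (b (b (l 13688472) (l 13964128)) (c (b (l 14236600) (l 14332952)) (b (b (l 14163912) (l 14293992)) (c (b (l 14472368) (a (l 14699568) (l 14479328))) (b (l 14431688) (l 14505400)))))) (b (c (b (l 13614088) (c (l 13933840) (b (l 13840888) (l 13998968)))) (b (c (b (l 13499832) (l 13661952)) (b (c (l 13482104) (l 13465264)) (l 13638712))) (b (l 13802792) (l 13939512)))) (b (c (c (b (l 14166424) (l 14280056)) (l 14168688)) (l 14132344)) (l 14395816)))), by decide +kernel⟩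

def k10_pm_022 : ∃ t, chk3 f_pm_022 t 20 9 1 = true :=
  ⟨(b (a (c (b (c (b (a (c (a (b (l 15380512) (l 15447712)) (l 15386704)) (l 454223094887)) (c (l 15322696) (l 15323128))) (b (c (a (c (l 15496392) (l 15515640)) (l 15482096)) (a (l 510594763207) (l 15422600))) (a (l 1) (c (c (a (l 15555984) (l 15562768)) (l 15537208)) (l 15444368))))) (b (a (l 427379358071) (l 15226496)) (l 15384776))) (a (l 1) (a (l 1) (b (c (c (c (l 15575088) (l 15509128)) (l 15482464)) (l 15473536)) (l 1))))) (b (a (l 15315896) (l 15250824)) (l 15394016))) (a (c (c (b (b (l 15149048) (c (l 15398384) (b (l 15333392) (l 15382048)))) (c (b (b (a (l 15557360) (l 15530528)) (c (l 385504083607) (l 15520184))) (c (b (l 15457784) (l 1)) (l 15548040))) (b (l 15468808) (l 15548400)))) (b (b (l 15118384) (l 15300848)) (l 15502368))) (b (l 15176392) (l 15474704))) (c (c (c (b (a (l 15257688) (a (l 15216224) (b (l 15082104) (l 15302480)))) (a (b (b (l 15489448) (l 15534680)) (c (b (l 15584696) (l 15585848)) (l 15572184)))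 (b (a (l 15483536) (c (l 15481344) (l 15410312))) (a (b (l 15552464) (l 15602232)) (b (l 15526592) (l 15591488)))))) (a (b (b (l 15149824) (l 15244856)) (l 231421852567)) (b (a (b (l 15106816) (l 15267112)) (b (l 15076200) (c (l 15250512) (l 15185392)))) (a (l 15477080) (l 237327353911))))) (a (b (l 15142960) (l 15483168)) (a (b (l 15100520) (l 15460720)) (b (b (l 14976136) (l 15155656)) (l 15440424))))) (a (b (l 15094400) (l 15455144)) (a (l 182566104631) (b (l 15019728) (l 15411280))))))) (b (a (l 1) (a (l 1) (a (l 1) (a (l 1) (a (l 1) (b (b (b (l 15611152) (l 1)) (l 1)) (l 1))))))) (l 1))), by decide +kernel⟩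

def k11_pm_022 : ∃ t, chk3 f_pm_022 t 21 9 1 = true :=
  ⟨(b (c (b (c (b (a (c (l 14891704) (l 14884016)) (l 14629056)) (c (a (l 15094200) (l 14790160)) (a (l 15027872) (l 14720960)))) (b (a (l 14781248) (l 14524664)) (l 14792072))) (c (b (c (b (l 14833976) (l 15084048)) (l 14979448)) (a (a (l 15407392) (l 15258360)) (l 14985944))) (a (l 15241224) (l 14867192)))) (a (b (l 14815056) (l 15206440)) (l 14536784))) (c (b (a (c (b (a (c (a (l 333427604983) (l 15557120)) (l 15586096)) (l 15431800)) (a (c (l 621190546919) (l 15679136)) (c (b (l 15551160) (l 334501312583)) (l 15585104)))) (b (l 15489152) (l 15628536))) (b (l 15145536) (l 15150928))) (b (a (c (a (l 1) (c (l 15606392) (l 15751408))) (l 631391277319)) (a (c (c (b (l 15610296) (l 15564416)) (l 15661480)) (l 15650368)) (l 15508744))) (a (l 1) (c (a (c (l 15740216) (l 15844112)) (c (b (l 15706872) (l 15722600)) (l 15758176))) (l 15799776))))) (b (a (b (l 15461624) (l 15605072)) (l 15208104)) (a (l 15884088) (l 277056142455))))), by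 decide +kernel⟩

def k12_pm_022 : ∃ t, chk3 f_pm_022 t 11 4 1 = true :=
  ⟨(b (c (b (a (l 13281464) (a (l 12944856) (l 12855768))) (a (c (b (l 13765224) (l 14095656)) (b (l 13726712) (c (b (l 14037872) (l 14169872)) (b (l 13993168) (l 14082000))))) (c (l 13533168) (b (l 13314248) (c (l 13690792) (l 13638120)))))) (b (a (c (b (l 13030816) (c (l 13391624) (b (l 13277728) (l 13460744)))) (b (c (l 12925160) (b (l 12868152) (l 13045720))) (l 13316184))) (c (b (l 12675088) (c (l 12963712) (b (l 12848464) (l 13012560)))) (b (c (b (l 12559528) (l 12678104)) (b (l 12523720) (l 12645168))) (b (l 12795728) (l 12938672))))) (a (b (c (c (b (l 13663944) (l 13809856)) (l 13677032)) (l 13633776)) (l 13949776)) (b (c (c (l 13287752) (l 13232768)) (l 13182912)) (l 13534312))))) (b (c (a (c (b (c (l 14416704) (b (l 14337000) (l 14424808))) (c (b (l 14577560) (l 14622016)) (l 14534520))) (b (l 14282312) (l 14504800))) (c (b (c (l 14066856) (b (l 13971192) (l 14085424))) (c (b (l 14263472) (l 14319152))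 (l 14218704))) (b (l 13923992) (l 14184536)))) (a (l 14343800) (l 13977352))) (b (a (c (a (l 14906576) (l 14659408)) (a (l 14847168) (l 14590496))) (l 14412344)) (a (a (c (b (l 15249864) (l 15488064)) (l 15360928)) (c (l 15076104) (l 15022968))) (c (l 14808456) (l 14744912)))))), by decide +kernel⟩

def k13_pm_022 : ∃ t, chk3 f_pm_022 t 5 5 1 = true :=
  ⟨(a (a (l 1) (a (l 1) (b (b (b (b (c (c (a (l 1) (c (l 15854864) (l 15938648))) (l 629244165159)) (l 15981168)) (l 1)) (l 1)) (l 1)) (l 1)))) (b (a (a (b (c (a (b (c (b (c (b (l 15805136) (l 15819568)) (l 15856600)) (c (l 15929248) (l 16013928))) (l 15920936)) (l 1)) (b (b (l 15715336) (c (c (b (l 15904976) (l 15918096)) (l 15956624)) (l 15950048))) (c (b (l 490194958887) (l 1)) (l 16012472)))) (b (b (l 15756152) (l 15985000)) (l 16227320))) (l 1)) (b (b (c (b (l 15473584) (l 15661392)) (l 15546520)) (c (c (b (a (c (b (l 16006280) (l 16101968)) (l 16058144)) (l 15932688)) (a (l 565357073655) (c (l 15938232) (l 16161032)))) (b (l 15984872)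 (l 16200736))) (b (l 15951640) (l 16195304)))) (a (l 1) (b (b (c (c (l 638908256519) (l 16154592)) (l 16147992)) (l 1)) (l 1))))) (b (b (c (a (l 15333712) (l 15158752)) (l 15102704)) (a (b (c (l 15717712) (l 15689744)) (c (l 15874680) (l 15967920))) (c (l 15608240) (l 15575256)))) (c (b (a (c (b (a (c (l 514354297831) (l 16230224)) (l 16167072)) (a (l 714607055575) (c (l 632465687255) (l 16102344)))) (b (l 16212648) (l 16068496))) (b (l 15975816) (l 16157096))) (a (a (l 1) (b (c (l 15783400) (l 15935192)) (l 1))) (c (b (a (c (l 941703388423) (l 16008760)) (l 16129872)) (a (l 15738176) (c (l 1311607506999) (l 15922840)))) (l 876741733303)))) (b (a (b (l 16186784) (l 16059344)) (l 16012096)) (a (l 15835120) (l 904659034471)))))) (a (l 1) (b (a (l 1) (a (l 1) (a (l 1) (b (b (c (l 526701451447) (l 15751592)) (l 1)) (l 1))))) (l 1))))), by decide +kernel⟩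

def k14_pm_022 : ∃ t, chk3 f_pm_022 t 2 3 1 = true :=
  ⟨(l 1), by decide +kernel⟩

def k15_pm_022 : ∃ t, chk3 f_pm_022 t 3 4 1 = true :=
  ⟨(b (b (c (a (a (l 12824016) (l 12823936)) (l 12823936)) (a (c (b (l 12641376) (a (c (l 12842400) (l 12801896)) (l 12795840))) (b (a (c (l 12592632) (l 12549992)) (c (l 12592632) (l 12549992))) (a (l 12752912) (l 12752808)))) (c (a (l 12729864) (l 12729864)) (b (a (l 12570688) (l 12570688)) (l 12752808))))) (c (a (c (a (a (l 13287768) (l 13206816)) (l 13206704)) (b (a (l 13075784) (l 13058136)) (a (a (c (l 13392648) (l 13336896)) (l 13253648)) (l 13253488)))) (c (l 13206704) (b (l 13058136) (l 13211552)))) (a (a (b (c (b (l 12888104) (l 13071016)) (l 12934352)) (l 13178592)) (a (l 13041488) (l 13041488))) (a (l 13041488) (l 13041488))))) (a (b (c (a (a (c (b (c (l 13757592) (l 13708736)) (l 13977896)) (l 13750960)) (c (b (c (l 13556680) (l 13505664)) (l 13563440)) (l 13522232))) (c (b (l 13497456) (l 13634392)) (l 13447072))) (a (a (l 13665632)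 (l 13429592)) (l 13351920))) (a (b (l 13998064) (l 14398888)) (a (l 13854552) (l 13786256)))) (b (c (c (b (l 13497456) (l 13634312)) (l 13447000)) (l 13351848)) (a (l 13786160) (l 13786160))))), by decide +kernel⟩

def k16_pm_022 : ∃ t, chk3 f_pm_022 t 3 5 1 = true :=
  ⟨(a (b (a (a (b (c (b (l 14995544) (l 15388616)) (l 15155632)) (b (c (a (l 15869376) (l 15710440)) (l 15666272)) (a (c (b (l 16173496) (l 16075920)) (l 16094496)) (c (l 16050568) (l 16035504))))) (b (l 14937664) (c (l 15465984) (l 15583088)))) (b (a (l 14685792) (l 14498408)) (a (l 15483632) (l 15258792)))) (a (b (a (c (b (a (c (b (a (c (l 15741104) (l 15838552)) (l 15963896)) (a (l 15652624) (l 414495382375))) (l 1438308793847)) (b (l 16198216) (l 15955168))) (a (a (l 1) (a (l 1) (b (l 15439288) (l 1)))) (c (b (a (l 15449032) (l 15804416)) (a (l 15552632) (l 15432968))) (l 15567712)))) (b (a (l 15650080) (l 15967016)) (a (l 15475896) (l 15585384)))) (b (c (l 16129440) (l 16117608)) (a (c (b (l 16042224) (l 15799000))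 (l 15867168)) (c (l 16219904) (l 16212904))))) (b (a (a (l 1) (a (l 1) (b (c (l 537438191543) (l 15398296)) (l 1)))) (a (c (c (b (a (l 15397568) (l 15651440)) (a (l 15396264) (l 15363800))) (l 15493664)) (l 15464440)) (b (l 15756800) (l 15383160)))) (a (l 1) (c (b (a (a (l 1) (l 541732849399)) (a (l 393019641511) (l 15496048))) (a (l 1) (a (l 15037616) (l 388724653559)))) (l 401072449303))))) (b (c (a (l 16045672) (l 15855008)) (l 15713760)) (a (b (c (l 16143208) (l 16154096)) (a (c (l 15455728) (l 15582576)) (c (l 15940968) (l 15920992)))) (c (l 16303552) (l 16298832)))))) (b (b (l 14311904) (a (l 15074400) (l 15040368))) (a (b (l 15471648) (l 16068504)) (b (l 15455528) (l 15853088))))), by decide +kernel⟩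

def k17_pm_022 : ∃ t, chk3 f_pm_022 t 6 3 1 = true :=
  ⟨(b (b (b (b (a (b (a (l 1) (a (l 1) (a (l 1) (c (l 15048248) (l 15082456))))) (l 1)) (c (a (a (a (b (l 15026976) (l 15039544)) (b (l 15354520) (l 15019928))) (l 15424040)) (l 15904960)) (a (l 428453125175) (l 15840328)))) (a (l 1) (a (c (a (a (l 1) (b (l 15011520) (l 1))) (c (b (l 14963368) (l 384429082679)) (l 15059368))) (l 14702784)) (a (c (l 15356936) (l 15303672)) (l 15441144))))) (a (l 1) (a (a (l 1) (a (l 1) (b (b (c (l 14876512) (l 14793328)) (l 1)) (l 1)))) (c (a (b (c (a (l 14657760) (l 14887520)) (l 14927768)) (c (b (l 543879175095) (l 1)) (l 14590856))) (b (l 15233432) (c (a (l 14680888) (l 14892928)) (l 14802768)))) (b (l 14985128) (l 14661056)))))) (a (l 1) (b (b (b (a (l 1) (c (a (l 1) (c (l 14369592) (l 14572784))) (l 14431256))) (l 1)) (l 1)) (l 1)))) (l 1)), by decide +kernel⟩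

def k18_pm_022 : ∃ t, chk3 f_pm_022 t 7 3 1 = true :=
  ⟨(b (b (a (b (c (a (l 16071240) (l 16359280)) (l 16023224)) (a (b (c (l 15671472) (l 15637008)) (c (a (l 15116464) (l 15460640)) (l 15198856))) (c (l 15864248) (l 15835776)))) (b (l 16258312) (l 16205304))) (a (b (a (c (b (a (b (l 409661556359) (l 396239364103)) (l 15006816)) (a (c (l 540120543991) (l 14462472)) (a (l 14456712) (l 14675440)))) (b (l 14803304) (l 14489072))) (a (b (l 15312008) (l 14871848)) (b (l 15575040) (l 15293728)))) (b (a (a (l 1) (c (c (l 532604414135) (l 14462472)) (l 14381688))) (c (a (c (l 415030114439) (l 14641464)) (l 14966096)) (l 14759160))) (a (l 1) (c (a (c (l 14444424) (l 14462472)) (c (l 14617504) (l 14641464))) (l 14489072))))) (b (c (a (l 15709464) (l 16047112)) (l 15750336)) (a (c (a (l 14862528) (l 15427488)) (l 15158992)) (c (l 15693168) (l 15655112)))))) (b (b (b (a (a (l 1) (a (l 1) (a (l 1) (b (l 14463440) (l 1))))) (a (c (a (l 425230595223) (l 14966096)) (l 14759160)) (l 15340944))) (a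 (l 1) (a (c (a (c (l 14486368) (l 14462472)) (l 14573744)) (l 14489072)) (c (l 15093216) (l 15045360))))) (a (l 1) (a (a (l 1) (a (l 1) (a (l 1) (b (l 14381328) (l 1))))) (c (a (b (l 14678608) (c (l 14486368) (l 14462472))) (b (l 14966096) (l 14678608))) (l 14499360))))) (b (b (a (l 1) (a (l 1) (c (a (l 1) (l 14209376)) (l 14306640)))) (l 1)) (l 1)))), by decide +kernel⟩

theorem s19_pm_022 : ∃ t, chk3 f_pm_022 t 3 3 1 = true := ex3_a k17_pm_022 k18_pm_022

theorem s20_pm_022 : ∃ t, chk3 f_pm_022 t 3 2 1 = true := ex3_b k15_pm_022 k16_pm_022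

theorem s21_pm_022 : ∃ t, chk3 f_pm_022 t 3 1 1 = true := ex3_b s20_pm_022 s19_pm_022

theorem s22_pm_022 : ∃ t, chk3 f_pm_022 t 10 9 1 = true := ex3_a k10_pm_022 k11_pm_022

theorem s23_pm_022 : ∃ t, chk3 f_pm_022 t 20 8 1 = true := ex3_a k7_pm_022 k8_pm_022

theorem s24_pm_022 : ∃ t, chk3 f_pm_022 t 10 8 1 = true := ex3_a s23_pm_022 k9_pm_022

theorem s25_pm_022 : ∃ t, chk3 f_pm_022 t 10 4 1 = true := ex3_b s24_pm_022 s22_pm_022

theorem s26_pm_022 : ∃ t, chk3 f_pm_022 t 5 4 1 = true := ex3_a s25_pm_022 k12_pm_022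

theorem s27_pm_022 : ∃ t, chk3 f_pm_022 t 5 2 1 = true := ex3_b s26_pm_022 k13_pm_022

theorem s28_pm_022 : ∃ t, chk3 f_pm_022 t 19 8 1 = true := ex3_a k3_pm_022 k4_pm_022

theorem s29_pm_022 : ∃ t, chk3 f_pm_022 t 18 8 1 = true := ex3_a k1_pm_022 k2_pm_022

theorem s30_pm_022 : ∃ t, chk3 f_pm_022 t 9 8 1 = true := ex3_a s29_pm_022 s28_pm_022

theorem s31_pm_022 : ∃ t, chk3 f_pm_022 t 4 8 1 = true := ex3_a k0_pm_022 s30_pm_022

theorem s32_pm_022 : ∃ t, chk3 f_pm_022 t 4 4 1 = true := ex3_b s31_pm_022 k5_pm_022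

theorem s33_pm_022 : ∃ t, chk3 f_pm_022 t 4 2 1 = true := ex3_b s32_pm_022 k6_pm_022

theorem s34_pm_022 : ∃ t, chk3 f_pm_022 t 2 2 1 = true := ex3_a s33_pm_022 s27_pm_022

theorem s35_pm_022 : ∃ t, chk3 f_pm_022 t 2 1 1 = true := ex3_b s34_pm_022 k14_pm_022

theorem s36_pm_022 : ∃ t, chk3 f_pm_022 t 1 1 1 = true := ex3_a s35_pm_022 s21_pm_022

theorem c_pm_022 : CertNX 67108864 469762048 1073741824 536870912 1046898278 26843546 3 true true false .pp 0 2 2
    ndN1q0 ndN7q2 pcN2 Cut.none Ext.none :=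
  certNX2 (fam := true) (s1 := true) (s2 := false) (a := 0) (b := 2) (c := 2) (cn := .pp) (n1 := ndN1q0) (n2 := ndN7q2) (pc := pcN2) (cut := Cut.none) (xt := Ext.none) (P1 := 67108864) (W1 := 469762048) (P2 := 1073741824) (W2 := 536870912) (P3 := 1046898278) (W3 := 26843546) (N0 := 3)
    rfl (fun _ => rfl) s36_pm_022

end Pool.Agent.Strip051.G.IE1.Tab.C.NA17

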