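import Pool.Agent.Strip051.G.IE1.Tab

/-! # Certificates N30 (generated) -/

set_option linter.all false
set_option maxRecDepth 100000

namespace Pool.Agent.Strip051.G.IE1.Tab.C.NA17

open Pool.Agent.Strip051.PB Pool.Agent.Strip051.PB.T
open Pool.Agent.Strip051.G.IE1.Tab

noncomputable def f_pm_023 : ℕ → ℕ → ℕ → ℕ → Bool := onCell 67108864 469762048 1073741824 536870912 1046898278 26843546
    (rowNX 3 0 true true false .up 0 2 3 (qsf 67108864 469762048 1073741824 536870912 3) ndN1q0 ndN7q2 pcN3 Cut.none Ext.none)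

def k0_pm_023 : ∃ t, chk3 f_pm_023 t 1 1 1 = true :=
  ⟨(b (a (b (l 1) (a (l 1) (b (l 1) (a (l 1) (l 15646432))))) (a (b (b (l 1) (b (l 1) (l 223902239319))) (b (a (l 14744992) (l 14661104)) (a (l 15646432) (l 15646432)))) (b (b (c (b (l 12823936) (c (l 13206704) (b (l 13058136) (l 13253488)))) (b (c (l 240543124999) (b (l 12570688) (l 12752808))) (l 13041488))) (b (c (c (l 13361896) (l 13447000)) (l 13351848)) (l 13786160))) (b (b (l 14437696) (l 15040368)) (b (l 15455488) (l 15829304)))))) (a (a (b (a (l 1) (b (l 1) (l 15705896))) (a (c (a (l 418251778279) (l 15488520)) (a (l 14846768) (l 15443280))) (b (l 15887280) (l 15887280)))) (b (b (a (l 16244944) (l 16342120)) (a (l 16535992) (l 16763744))) (a (b (l 16530888) (l 16530888)) (l 16777216)))) (b (a (b (b (l 16177152) (l 16499024)) (l 16763744)) (b (l 16342104) (l 16763720))) (a (b (l 16777200) (l 16777120)) (b (a (l 16777208) (b (l 16773296) (a (l 16774064) (l 16739960)))) (a (b (l 16764336) (a (l 16765536) (l 16720048)))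 (b (a (l 16732248) (l 16716712)) (a (l 16702096) (b (a (l 16726488) (l 16720528)) (a (l 16713984) (b (l 16701672) (a (l 16694160) (b (l 16666856) (a (l 16669280) (b (l 16674760) (l 4)))))))))))))))), by decide +kernel⟩

theorem c_pm_023 : CertNX 67108864 469762048 1073741824 536870912 1046898278 26843546 3 true true false .up 0 2 3
    ndN1q0 ndN7q2 pcN3 Cut.none Ext.none :=
  certNX0 (fam := true) (s1 := true) (s2 := false) (a := 0) (b := 2) (c := 3) (cn := .up) (n1 := ndN1q0) (n2 := ndN7q2) (pc := pcN3) (cut := Cut.none) (xt := Ext.none) (P1 := 67108864) (W1 := 469762048) (P2 := 1073741824) (W2 := 536870912) (P3 := 1046898278) (W3 := 26843546) (N0 := 3)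
    rfl k0_pm_023

noncomputable def f_pm_033 : ℕ → ℕ → ℕ → ℕ → Bool := onCell 1610612736 536870912 0 1230186008 1046898278 26843546
    (rowNX 3 2 true true false .pnn 0 3 3 (qsf 67108864 469762048 0 1230186008 3) ndN1q0 ndN7q3 pcN3 Cut.none Ext.none)

def k0_pm_033 : ∃ t, chk3 f_pm_033 t 1 2 1 = true :=
  ⟨(b (l 1) (a (l 1) (a (l 1) (a (l 1) (a (b (l 1) (l 4)) (l 4)))))), by decide +kernel⟩

def k1_pm_033 : ∃ t, chk3 f_pm_033 t 1 6 1 = true :=
  ⟨(a (l 1) (b (a (l 1) (b (a (a (l 1) (b (a (l 1) (a (l 1) (l 367248178743))) (c (a (l 407513468119) (l 14718536)) (l 14510392)))) (a (a (c (b (l 14623088) (l 15035936)) (l 14799088)) (l 4)) (l 4))) (a (a (b (a (l 1) (a (l 1) (l 14500704))) (c (a (l 426840903831) (l 14787600)) (l 14577536))) (a (b (c (l 14735976) (l 14635000)) (l 15061632)) (l 14992656))) (a (a (c (l 15482448) (l 15429704)) (c (l 15673576) (l 15619432))) (l 4))))) (a (a (b (l 1) (a (l 1) (b (l 1) (c (a (l 1) (l 14584520)) (l 14339760))))) (b (b (a (l 1) (c (a (l 1)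 (l 14556136)) (l 14407480))) (a (a (l 1) (c (l 510055742839) (l 14371032))) (c (a (l 14645464) (l 14927632)) (l 14719568)))) (a (b (c (a (l 513277079015) (l 14743288)) (l 14546112)) (c (a (l 14878784) (l 15192808)) (l 14951088))) (b (a (l 15006152) (l 15339088)) (l 15533496))))) (a (a (b (b (a (l 14629848) (l 15146832)) (l 15353104)) (c (l 15762000) (l 15726160))) (b (b (l 15500728) (l 15706424)) (l 16052744))) (a (a (b (l 15853080) (l 16328984)) (b (l 16032240) (l 16524968))) (a (b (l 16193912) (l 16624448)) (a (b (l 4) (l 16644920)) (l 4)))))))), by decide +kernel⟩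

def k2_pm_033 : ∃ t, chk3 f_pm_033 t 2 7 1 = true :=
  ⟨(b (a (l 1) (a (l 1) (b (a (l 1) (a (l 1) (a (l 1) (b (l 1) (b (l 1) (l 14487464)))))) (b (a (l 1) (c (a (b (l 1) (l 14636552)) (l 385502409783)) (l 14610328))) (a (a (b (l 1) (l 14378344)) (b (l 14460784) (l 14822704))) (a (l 14906384) (l 15329584))))))) (a (b (l 1) (a (b (l 1) (a (l 1) (a (l 1) (b (l 1) (b (l 1) (l 401607821623)))))) (b (a (l 1) (a (b (l 1) (l 14389368)) (b (l 14329640) (l 14838032)))) (a (a (b (l 1) (l 14409936)) (b (l 14436584) (l 14915344))) (c (l 28484101623) (l 15130608)))))) (b (a (b (a (l 1) (a (b (l 1) (l 14273824)) (b (l 14302088) (l 14794448)))) (a (c (b (a (l 1) (l 14547432)) (a (l 14551600) (l 14836064))) (l 537973272647)) (c (l 366712633335) (l 15061440)))) (b (a (b (l 14775072) (l 15286880)) (l 15593312)) (a (l 15609120) (l 15944224)))) (a (a (b (b (l 14760368) (l 15319880)) (l 15575360)) (b (l 15508832) (l 15998344))) (b (l 16152992) (l 16502792)))))), by decide +kernel⟩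

def k3_pm_033 : ∃ t, chk3 f_pm_033 t 3 7 1 = true :=
  ⟨(a (b (b (a (a (b (a (l 1) (b (l 1) (l 419861578311))) (c (b (l 582534051831) (l 386039478487)) (l 14697032))) (b (c (a (l 14731160) (l 15023576)) (l 14816864)) (l 15170592))) (c (l 15677272) (l 15703784))) (a (c (a (l 15114312) (l 15837408)) (b (l 15176704) (l 15778016))) (l 16140024))) (b (a (l 16147440) (l 16709520)) (l 16734336))) (a (a (b (b (l 16287256) (l 16709728)) (l 16777032)) (b (b (l 16535952) (l 16727736)) (l 16772752))) (a (b (b (b (l 16678272) (l 16688480)) (l 16724736)) (c (l 16776744) (l 16776600))) (a (c (l 17028872) (b (l 16749088) (l 16776792))) (a (c (l 16777216) (b (l 16751264) (l 16776240))) (a (c (l 16777216) (l 17028872)) (a (b (l 16711712) (l 16776856)) (a (b (l 16726976) (l 16776944)) (b (b (l 4) (l 2454809149879)) (b (l 16777216) (l 16747584))))))))))), by decide +kernel⟩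

theorem s4_pm_033 : ∃ t, chk3 f_pm_033 t 1 7 1 = true := ex3_a k2_pm_033 k3_pm_033

theorem s5_pm_033 : ∃ t, chk3 f_pm_033 t 1 3 1 = true := ex3_b k1_pm_033 s4_pm_033

theorem s6_pm_033 : ∃ t, chk3 f_pm_033 t 1 1 1 = true := ex3_b k0_pm_033 s5_pm_033

theorem c_pm_033 : CertNX 67108864 469762048 0 1230186008 1046898278 26843546 3 true true false .pnn 0 3 3
    ndN1q0 ndN7q3 pcN3 Cut.none Ext.none :=
  certNX2 (fam := true) (s1 := true) (s2 := false) (a := 0) (b := 3) (c := 3) (cn := .pnn) (n1 := ndN1q0) (n2 := ndN7q3) (pc := pcN3) (cut := Cut.none) (xt := Ext.none) (P1 := 67108864) (W1 := 469762048) (P2 := 0) (W2 := 1230186008) (P3 := 1046898278) (W3 := 26843546) (N0 := 3)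
    rfl (fun _ => rfl) s6_pm_033

noncomputable def f_pm_101 : ℕ → ℕ → ℕ → ℕ → Bool := onCell 536870912 536870912 0 536870912 1046898278 26843546
    (rowNX 3 2 true true false .npn 1 0 1 (qsf 536870912 536870912 0 536870912 1) ndN1q1 ndN7q0 pcN1 Cut.none Ext.none)

def k0_pm_101 : ∃ t, chk3 f_pm_101 t 1 1 1 = true :=
  ⟨(a (a (l 3) (b (a (l 3) (b (b (c (l 16777216) (l 16777216)) (c (l 16777216) (l 16777216))) (b (l 444696887303) (l 3)))) (l 3))) (a (b (a (b (a (c (l 16777192) (l 16777192)) (b (c (l 16739896) (l 16739440)) (l 16761656))) (c (b (l 266455827895) (l 255181507607)) (c (l 284172590615) (l 274508914103)))) (b (a (b (c (l 16657912) (l 16655448)) (l 16704392)) (b (b (l 16442944) (l 16540952)) (a (l 16652032) (b (l 16536496) (l 16559560))))) (a (c (l 16737832) (l 16736456)) (a (c (l 16695816) (l 16692960)) (b (l 16584584) (l 16622928)))))) (a (b (c (l 417316500583) (l 403357857175)) (l 1)) (b (a (c (l 16765328) (l 16764912)) (a (l 180422031383) (a (l 168610885623)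 (l 16632400)))) (a (l 1) (b (l 478922148599) (l 1)))))) (a (b (b (b (a (b (l 15943416) (l 16175288)) (b (l 15278872) (l 15654552))) (a (l 16280432) (l 15917008))) (a (b (l 16323416) (l 16355280)) (b (l 15965480) (l 15898576)))) (b (a (c (l 16395432) (l 16403728)) (b (l 16033136) (l 16068032))) (a (b (l 16415640) (l 1)) (c (l 16101520) (l 16099472))))) (b (b (b (a (b (l 14580512) (l 14999640)) (b (l 13854920) (l 14298912))) (a (b (l 15396992) (l 15582448)) (b (l 14752176) (l 15169504)))) (b (a (l 15605936) (l 15261840)) (a (l 15638200) (l 15267320)))) (b (a (a (b (l 15772056) (l 15794960)) (b (l 15592456) (a (l 15666600) (l 15586392)))) (a (a (b (l 15455856) (c (l 15273960) (l 15481528))) (l 15388264)) (l 15250440))) (a (a (l 206189782823) (c (a (l 15691048) (l 15611064)) (l 15610984))) (a (c (a (c (l 15306832) (l 15533424)) (c (l 15485272) (l 195988305655))) (l 15462528)) (c (b (l 15353552) (l 15375728)) (a (c (b (l 15358304) (l 15376952)) (l 15339424)) (c (l 15287400) (b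 (l 15101568) (l 15277472)))))))))))), by decide +kernel⟩

theorem c_pm_101 : CertNX 536870912 536870912 0 536870912 1046898278 26843546 3 true true false .npn 1 0 1
    ndN1q1 ndN7q0 pcN1 Cut.none Ext.none :=
  certNX2 (fam := true) (s1 := true) (s2 := false) (a := 1) (b := 0) (c := 1) (cn := .npn) (n1 := ndN1q1) (n2 := ndN7q0) (pc := pcN1) (cut := Cut.none) (xt := Ext.none) (P1 := 536870912) (W1 := 536870912) (P2 := 0) (W2 := 536870912) (P3 := 1046898278) (W3 := 26843546) (N0 := 3)
    rfl (fun _ => rfl) k0_pm_101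

noncomputable def f_pm_102 : ℕ → ℕ → ℕ → ℕ → Bool := onCell 536870912 536870912 1073741824 536870912 1046898278 26843546
    (rowNX 3 1 true true false .npp 1 0 2 (qsf 536870912 536870912 0 536870912 2) ndN1q1 ndN7q0 pcN2 Cut.none Ext.none)

def k0_pm_102 : ∃ t, chk3 f_pm_102 t 1 1 1 = true :=
  ⟨(b (b (a (a (b (a (l 15450648) (l 15386528)) (a (l 14775536) (l 14779120))) (b (a (l 15317272) (l 15241912)) (a (l 14782968) (l 14787136)))) (a (b (a (l 15172632) (a (l 15167600) (l 15189616))) (a (l 14805440) (b (l 15038760) (l 14791744)))) (b (a (c (l 14725160) (l 14664704)) (c (l 13799224) (l 13695688))) (a (b (l 14679616) (l 14511384)) (b (l 13825544) (l 13644112)))))) (a (a (b (b (b (l 14397192) (l 2)) (l 2)) (l 2)) (b (b (b (l 14432512) (l 14652056)) (l 15398688)) (b (l 16317616) (l 16776568)))) (b (a (b (b (l 14546632) (l 14640632)) (a (l 15433240) (l 15551632))) (b (b (a (l 14378392) (l 13491048)) (a (l 14562608) (l 13698256))) (a (l 15142936) (l 14360528)))) (a (b (a (l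 16338960) (l 16370912)) (l 16698264)) (b (a (l 15834808) (l 15161448)) (a (l 16169472) (l 15551328))))))) (a (b (a (l 2) (l 16777216)) (l 2)) (a (b (a (l 16762416) (l 16647760)) (l 16698584)) (b (a (l 16169936) (b (l 15550056) (l 15560512))) (a (l 16169936) (l 15561248)))))), by decide +kernel⟩

theorem c_pm_102 : CertNX 536870912 536870912 0 536870912 1046898278 26843546 3 true true false .npp 1 0 2
    ndN1q1 ndN7q0 pcN2 Cut.none Ext.none :=
  certNX1 (fam := true) (s1 := true) (s2 := false) (a := 1) (b := 0) (c := 2) (cn := .npp) (n1 := ndN1q1) (n2 := ndN7q0) (pc := pcN2) (cut := Cut.none) (xt := Ext.none) (P1 := 536870912) (W1 := 536870912) (P2 := 0) (W2 := 536870912) (P3 := 1046898278) (W3 := 26843546) (N0 := 3)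
    rfl (fun _ => rfl) k0_pm_102

noncomputable def f_pm_112 : ℕ → ℕ → ℕ → ℕ → Bool := onCell 536870912 536870912 1073741824 536870912 1046898278 26843546
    (rowNX 3 1 true true false .dn 1 1 2 (qsf 536870912 536870912 536870912 536870912 2) ndN1q1 ndN7q1 pcN2 Cut.none Ext.none)

def k0_pm_112 : ∃ t, chk3 f_pm_112 t 1 1 1 = true :=
  ⟨(b (b (a (a (b (a (l 15450648) (l 15386528)) (a (l 14775536) (l 14779120))) (b (l 1) (a (l 14782968) (l 1)))) (l 1)) (a (b (a (b (b (l 14397856) (a (l 14620912) (l 14624816))) (a (l 15192312) (l 15380080))) (b (b (l 14432512) (l 14652056)) (l 15398688))) (a (b (a (b (l 16178888) (a (l 16314840) (l 16565768))) (l 16317520)) (a (a (l 16041864) (l 16331072)) (l 16656296))) (b (l 16317616) (l 16776568)))) (b (l 1) (a (b (l 1) (l 16698264)) (l 1))))) (a (b (a (b (a (a (l 15563264) (l 15887528)) (l 16326640)) (a (b (l 15199768) (l 14748104)) (l 15727160))) (a (b (l 16688216) (l 16326640)) (b (l 16777216) (l 16688216)))) (a (a (a (b (c (b (l 13861160)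 (a (l 13470712) (l 13630976))) (l 13665472)) (c (b (c (a (l 13207832) (l 13340240)) (a (l 13124768) (l 13287848))) (c (l 12997424) (l 12669776))) (b (l 13128632) (c (a (l 12776104) (l 12900248)) (l 12732968))))) (b (b (l 14504672) (l 13811328)) (c (b (l 13434944) (c (a (l 13207832) (l 13340240)) (a (l 13124768) (l 13287848)))) (l 13143688)))) (b (l 14792512) (c (a (b (l 13861160) (l 13476888)) (b (l 14544056) (l 13861160))) (l 13858320)))) (b (a (l 15727160) (l 16326640)) (a (l 14918344) (l 15727160))))) (a (b (a (l 16762416) (l 16647760)) (a (b (l 16673720) (l 16312312)) (l 16591696))) (b (a (l 16169936) (l 1)) (a (l 16169936) (l 15561248)))))), by decide +kernel⟩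

theorem c_pm_112 : CertNX 536870912 536870912 536870912 536870912 1046898278 26843546 3 true true false .dn 1 1 2
    ndN1q1 ndN7q1 pcN2 Cut.none Ext.none :=
  certNX1 (fam := true) (s1 := true) (s2 := false) (a := 1) (b := 1) (c := 2) (cn := .dn) (n1 := ndN1q1) (n2 := ndN7q1) (pc := pcN2) (cut := Cut.none) (xt := Ext.none) (P1 := 536870912) (W1 := 536870912) (P2 := 536870912) (W2 := 536870912) (P3 := 1046898278) (W3 := 26843546) (N0 := 3)
    rfl (fun _ => rfl) k0_pm_112

noncomputable def f_pm_113 : ℕ → ℕ → ℕ → ℕ → Bool := onCell 1610612736 536870912 536870912 536870912 1046898278 26843546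
    (rowNX 3 2 true true false .nn 1 1 3 (qsf 536870912 536870912 536870912 536870912 3) ndN1q1 ndN7q1 pcN3 Cut.none Ext.none)

def k0_pm_113 : ∃ t, chk3 f_pm_113 t 1 1 1 = true :=
  ⟨(b (a (a (b (a (b (l 15292208) (l 15864176)) (b (l 14885024) (l 15292208))) (a (b (l 16230096) (l 15966328)) (b (l 15686384) (l 15690416)))) (b (a (b (l 2) (l 243298898727)) (l 2)) (a (b (l 15116432) (l 15161224)) (b (c (l 14752664) (l 14669920)) (l 14604880))))) (a (b (l 2) (a (b (l 2) (l 4)) (l 2))) (l 2))) (a (b (b (a (a (l 15386304) (l 15319008)) (a (l 15052400) (l 14550808))) (a (l 14500160) (a (l 14431568) (a (l 14290928) (l 14094136))))) (a (b (b (l 13598760) (c (c (l 13456464) (l 13370024)) (l 13249456))) (c (b (c (l 13145464) (l 12818920)) (l 12802264)) (b (l 12977160) (c (l 12456368) (b (l 12719832) (l 12517616)))))) (b (a (b (l 13589600) (c (l 13409344) (l 13249440))) (b (l 13511680) (c (l 13313488) (l 13212096)))) (b (c (a (l 12951304) (c (l 13137208) (l 13061800))) (a (l 12977160)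 (l 12967592))) (c (l 12802264) (a (c (l 12708024) (l 12624584)) (c (l 12708008) (l 12624568)))))))) (a (a (b (b (l 45326049879) (c (l 13837992) (l 13600936))) (b (c (b (l 13295736) (c (l 13193688) (l 13172712))) (l 13060160)) (c (b (c (l 13070280) (l 12946680)) (l 12770176)) (b (l 12884928) (c (l 12672208) (l 12334584)))))) (b (l 4) (b (c (b (l 4) (c (l 12820888) (l 12812048))) (l 12582512)) (b (a (c (c (l 12925968) (l 12821968)) (l 12684344)) (l 4)) (c (l 12623168) (c (b (l 12544800) (l 12470232)) (b (l 12454176) (l 12194800)))))))) (a (b (l 4) (l 4)) (l 4))))), by decide +kernel⟩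

theorem c_pm_113 : CertNX 536870912 536870912 536870912 536870912 1046898278 26843546 3 true true false .nn 1 1 3
    ndN1q1 ndN7q1 pcN3 Cut.none Ext.none :=
  certNX2 (fam := true) (s1 := true) (s2 := false) (a := 1) (b := 1) (c := 3) (cn := .nn) (n1 := ndN1q1) (n2 := ndN7q1) (pc := pcN3) (cut := Cut.none) (xt := Ext.none) (P1 := 536870912) (W1 := 536870912) (P2 := 536870912) (W2 := 536870912) (P3 := 1046898278) (W3 := 26843546) (N0 := 3)
    rfl (fun _ => rfl) k0_pm_113

noncomputable def f_pm_123 : ℕ → ℕ → ℕ → ℕ → Bool := onCell 1610612736 536870912 1073741824 536870912 1046898278 26843546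
    (rowNX 3 2 true true false .npn 1 2 3 (qsf 536870912 536870912 1073741824 536870912 3) ndN1q1 ndN7q2 pcN3 Cut.none Ext.none)

def k0_pm_123 : ∃ t, chk3 f_pm_123 t 1 1 1 = true :=
  ⟨(a (b (b (b (c (b (a (l 12823936) (l 12823936)) (a (c (l 13206704) (b (l 13058136) (l 13253488))) (c (l 13206704) (b (l 13058136) (l 13253488))))) (b (a (c (l 214236345447) (b (l 12486808) (l 12752808))) (c (l 12729864) (b (l 12570688) (l 12752808)))) (a (l 12957608) (l 13041488)))) (a (b (c (c (l 192226384471) (l 13447000)) (l 13351848)) (l 13786160)) (b (c (c (l 13550640) (l 13447000)) (l 13351848)) (l 13786160)))) (a (b (a (l 1) (l 14744992)) (l 1)) (b (l 14640136) (l 15646432)))) (b (a (l 1) (b (l 16342120) (l 1))) (l 1))) (a (b (b (b (c (a (b (l 12816864) (c (l 13206688) (l 13131504))) (b (l 12765144) (c (l 13193272) (l 13115848)))) (b (a (c (l 12721968) (b (l 12559704) (l 12750264))) (c (b (l 12550456) (l 12769424)) (b (l 12470704) (l 12700280)))) (a (l 13041472) (l 13022424)))) (c (b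 (a (l 13507192) (c (l 13548856) (l 13444760))) (a (l 13837920) (l 13837888))) (a (l 13546152) (l 13544544)))) (a (b (l 14744984) (l 15646416)) (b (a (l 14744928) (l 14744936)) (a (l 15646368) (l 15646368))))) (b (b (l 16342064) (l 16763696)) (l 16777160))) (a (a (b (b (b (a (b (l 4) (c (l 13136216) (l 13004168))) (l 4)) (c (b (l 13507216) (l 13839856)) (l 13544616))) (b (l 14744560) (l 15646496))) (b (b (l 16341832) (l 16762176)) (l 16774856))) (b (b (l 4) (b (l 14737120) (l 15633984))) (b (b (l 16241632) (l 16742248)) (l 16710096)))) (a (b (b (l 4) (b (l 4) (a (l 15631232) (l 4)))) (b (b (a (l 16325664) (l 16322584)) (a (l 16732256) (l 16738584))) (c (l 16722064) (l 16706600)))) (b (l 4) (b (a (b (l 4) (l 16689056)) (l 4)) (a (l 16719528) (a (l 16699656) (a (l 16670416) (l 4)))))))))), by decide +kernel⟩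

theorem c_pm_123 : CertNX 536870912 536870912 1073741824 536870912 1046898278 26843546 3 true true false .npn 1 2 3
    ndN1q1 ndN7q2 pcN3 Cut.none Ext.none :=
  certNX2 (fam := true) (s1 := true) (s2 := false) (a := 1) (b := 2) (c := 3) (cn := .npn) (n1 := ndN1q1) (n2 := ndN7q2) (pc := pcN3) (cut := Cut.none) (xt := Ext.none) (P1 := 536870912) (W1 := 536870912) (P2 := 1073741824) (W2 := 536870912) (P3 := 1046898278) (W3 := 26843546) (N0 := 3)
    rfl (fun _ => rfl) k0_pm_123

noncomputable def f_pm_133 : ℕ → ℕ → ℕ → ℕ → Bool := onCell 536870912 536870912 0 1230186008 1046898278 26843546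
    (rowNX 3 0 true true false .dn 1 3 3 (qsf 536870912 536870912 0 1230186008 3) ndN1q1 ndN7q3 pcN3 Cut.none Ext.none)

def k0_pm_133 : ∃ t, chk3 f_pm_133 t 1 1 1 = true :=
  ⟨(b (l 2) (b (l 2) (a (b (l 2) (a (b (l 2) (l 4)) (l 2))) (l 2)))), by decide +kernel⟩

theorem c_pm_133 : CertNX 536870912 536870912 0 1230186008 1046898278 26843546 3 true true false .dn 1 3 3
    ndN1q1 ndN7q3 pcN3 Cut.none Ext.none :=
  certNX0 (fam := true) (s1 := true) (s2 := false) (a := 1) (b := 3) (c := 3) (cn := .dn) (n1 := ndN1q1) (n2 := ndN7q3) (pc := pcN3) (cut := Cut.none) (xt := Ext.none) (P1 := 536870912) (W1 := 536870912) (P2 := 0) (W2 := 1230186008) (P3 := 1046898278) (W3 := 26843546) (N0 := 3)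
    rfl k0_pm_133

noncomputable def f_pm_202_a : ℕ → ℕ → ℕ → ℕ → Bool := onCell 0 420477299 1073741824 536870912 1046898278 26843546
    (rowNX 3 1 true true false .pp 2 0 2 (qsf 0 420477299 0 536870912 2) ndN1q2a ndN7q0 pcN2 Cut.none Ext.none)

def k0_pm_202_a : ∃ t, chk3 f_pm_202_a t 1 1 1 = true :=
  ⟨(a (b (b (l 1) (l 4)) (l 4)) (b (b (b (b (l 1) (b (l 1) (a (l 1) (a (l 1) (c (c (l 13454720) (l 13407208)) (l 13287984)))))) (a (b (l 1) (b (l 13692360) (l 13953200))) (b (c (a (b (l 1) (l 13795616)) (b (c (l 13590560) (l 13489672)) (l 13626400))) (a (l 13599896) (l 13436432))) (a (l 13874112) (l 13659152))))) (b (a (b (b (l 14280064) (l 14608472)) (l 15046760)) (b (b (a (l 14240208) (l 13958096)) (a (l 14552560) (l 14258584))) (a (l 15003520) (l 14738960)))) (a (l 4) (b (a (l 15415896) (l 15193024)) (a (l 15768264) (l 15526368)))))) (b (a (l 4) (b (a (b (l 4) (l 4)) (b (l 15818648) (l 16119408))) (a (l 4) (b (l 16366032) (l 4))))) (l 4)))), by decide +kernel⟩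

theorem c_pm_202_a : CertNX 0 420477299 0 536870912 1046898278 26843546 3 true true false .pp 2 0 2
    ndN1q2a ndN7q0 pcN2 Cut.none Ext.none :=
  certNX1 (fam := true) (s1 := true) (s2 := false) (a := 2) (b := 0) (c := 2) (cn := .pp) (n1 := ndN1q2a) (n2 := ndN7q0) (pc := pcN2) (cut := Cut.none) (xt := Ext.none) (P1 := 0) (W1 := 420477299) (P2 := 0) (W2 := 536870912) (P3 := 1046898278) (W3 := 26843546) (N0 := 3)
    rfl (fun _ => rfl) k0_pm_202_a

noncomputable def f_pm_202_b : ℕ → ℕ → ℕ → ℕ → Bool := onCell 1239849684 370763052 0 536870912 1046898278 26843546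
    (rowNX 3 0 true true false .pp 2 0 2 (qsf 1239849684 370763052 0 536870912 2) ndN1q2b ndN7q0 pcN2 Cut.none Ext.none)

def k0_pm_202_b : ∃ t, chk3 f_pm_202_b t 1 1 1 = true :=
  ⟨(l 4), by decide +kernel⟩

theorem c_pm_202_b : CertNX 1239849684 370763052 0 536870912 1046898278 26843546 3 true true false .pp 2 0 2
    ndN1q2b ndN7q0 pcN2 Cut.none Ext.none :=
  certNX0 (fam := true) (s1 := true) (s2 := false) (a := 2) (b := 0) (c := 2) (cn := .pp) (n1 := ndN1q2b) (n2 := ndN7q0) (pc := pcN2) (cut := Cut.none) (xt := Ext.none) (P1 := 1239849684) (W1 := 370763052) (P2 := 0) (W2 := 536870912) (P3 := 1046898278) (W3 := 26843546) (N0 := 3)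
    rfl k0_pm_202_b

noncomputable def f_pm_203_a : ℕ → ℕ → ℕ → ℕ → Bool := onCell 0 420477299 1610612736 536870912 1046898278 26843546
    (rowNX 3 1 true true false .up 2 0 3 (qsf 0 420477299 0 536870912 3) ndN1q2a ndN7q0 pcN3 Cut.none Ext.none)

def k0_pm_203_a : ∃ t, chk3 f_pm_203_a t 1 1 1 = true :=
  ⟨(l 4), by decide +kernel⟩

theorem c_pm_203_a : CertNX 0 420477299 0 536870912 1046898278 26843546 3 true true false .up 2 0 3
    ndN1q2a ndN7q0 pcN3 Cut.none Ext.none :=
  certNX1 (fam := true) (s1 := true) (s2 := false) (a := 2) (b := 0) (c := 3) (cn := .up) (n1 := ndN1q2a) (n2 := ndN7q0) (pc := pcN3) (cut := Cut.none) (xt := Ext.none) (P1 := 0) (W1 := 420477299) (P2 := 0) (W2 := 536870912) (P3 := 1046898278) (W3 := 26843546) (N0 := 3)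
    rfl (fun _ => rfl) k0_pm_203_a

noncomputable def f_pm_203_b : ℕ → ℕ → ℕ → ℕ → Bool := onCell 1239849684 370763052 0 536870912 1046898278 26843546
    (rowNX 3 0 true true false .up 2 0 3 (qsf 1239849684 370763052 0 536870912 3) ndN1q2b ndN7q0 pcN3 Cut.none Ext.none)

def k0_pm_203_b : ∃ t, chk3 f_pm_203_b t 1 1 1 = true :=
  ⟨(l 4), by decide +kernel⟩

theorem c_pm_203_b : CertNX 1239849684 370763052 0 536870912 1046898278 26843546 3 true true false .up 2 0 3
    ndN1q2b ndN7q0 pcN3 Cut.none Ext.none :=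
  certNX0 (fam := true) (s1 := true) (s2 := false) (a := 2) (b := 0) (c := 3) (cn := .up) (n1 := ndN1q2b) (n2 := ndN7q0) (pc := pcN3) (cut := Cut.none) (xt := Ext.none) (P1 := 1239849684) (W1 := 370763052) (P2 := 0) (W2 := 536870912) (P3 := 1046898278) (W3 := 26843546) (N0 := 3)
    rfl k0_pm_203_b

noncomputable def f_pm_213_a : ℕ → ℕ → ℕ → ℕ → Bool := onCell 0 420477299 536870912 536870912 1046898278 26843546
    (rowNX 3 0 true true false .pnn 2 1 3 (qsf 0 420477299 536870912 536870912 3) ndN1q2a ndN7q1 pcN3 Cut.none Ext.none)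

def k0_pm_213_a : ∃ t, chk3 f_pm_213_a t 1 1 1 = true :=
  ⟨(l 4), by decide +kernel⟩

theorem c_pm_213_a : CertNX 0 420477299 536870912 536870912 1046898278 26843546 3 true true false .pnn 2 1 3
    ndN1q2a ndN7q1 pcN3 Cut.none Ext.none :=
  certNX0 (fam := true) (s1 := true) (s2 := false) (a := 2) (b := 1) (c := 3) (cn := .pnn) (n1 := ndN1q2a) (n2 := ndN7q1) (pc := pcN3) (cut := Cut.none) (xt := Ext.none) (P1 := 0) (W1 := 420477299) (P2 := 536870912) (W2 := 536870912) (P3 := 1046898278) (W3 := 26843546) (N0 := 3)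
    rfl k0_pm_213_a

noncomputable def f_pm_213_b : ℕ → ℕ → ℕ → ℕ → Bool := onCell 1239849684 370763052 536870912 536870912 1046898278 26843546
    (rowNX 3 0 true true false .pnn 2 1 3 (qsf 1239849684 370763052 536870912 536870912 3) ndN1q2b ndN7q1 pcN3 Cut.none Ext.none)

def k0_pm_213_b : ∃ t, chk3 f_pm_213_b t 1 1 1 = true :=
  ⟨(l 4), by decide +kernel⟩

theorem c_pm_213_b : CertNX 1239849684 370763052 536870912 536870912 1046898278 26843546 3 true true false .pnn 2 1 3
    ndN1q2b ndN7q1 pcN3 Cut.none Ext.none :=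
  certNX0 (fam := true) (s1 := true) (s2 := false) (a := 2) (b := 1) (c := 3) (cn := .pnn) (n1 := ndN1q2b) (n2 := ndN7q1) (pc := pcN3) (cut := Cut.none) (xt := Ext.none) (P1 := 1239849684) (W1 := 370763052) (P2 := 536870912) (W2 := 536870912) (P3 := 1046898278) (W3 := 26843546) (N0 := 3)
    rfl k0_pm_213_b

noncomputable def f_pm_303 : ℕ → ℕ → ℕ → ℕ → Bool := onCell 1610612736 469762048 0 536870912 1046898278 26843546
    (rowNX 3 0 true true false .npn 3 0 3 (qsf 1610612736 469762048 0 536870912 3) ndN1q3 ndN7q0 pcN3 Cut.none Ext.none)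

def k0_pm_303 : ∃ t, chk3 f_pm_303 t 1 1 1 = true :=
  ⟨(l 4), by decide +kernel⟩

theorem c_pm_303 : CertNX 1610612736 469762048 0 536870912 1046898278 26843546 3 true true false .npn 3 0 3
    ndN1q3 ndN7q0 pcN3 Cut.none Ext.none :=
  certNX0 (fam := true) (s1 := true) (s2 := false) (a := 3) (b := 0) (c := 3) (cn := .npn) (n1 := ndN1q3) (n2 := ndN7q0) (pc := pcN3) (cut := Cut.none) (xt := Ext.none) (P1 := 1610612736) (W1 := 469762048) (P2 := 0) (W2 := 536870912) (P3 := 1046898278) (W3 := 26843546) (N0 := 3)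
    rfl k0_pm_303

noncomputable def f_pm_313 : ℕ → ℕ → ℕ → ℕ → Bool := onCell 1610612736 469762048 536870912 536870912 1046898278 26843546
    (rowNX 3 0 true true false .dn 3 1 3 (qsf 1610612736 469762048 536870912 536870912 3) ndN1q3 ndN7q1 pcN3 Cut.none Ext.none)

def k0_pm_313 : ∃ t, chk3 f_pm_313 t 1 1 1 = true :=
  ⟨(l 4), by decide +kernel⟩

theorem c_pm_313 : CertNX 1610612736 469762048 536870912 536870912 1046898278 26843546 3 true true false .dn 3 1 3
    ndN1q3 ndN7q1 pcN3 Cut.none Ext.none :=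
  certNX0 (fam := true) (s1 := true) (s2 := false) (a := 3) (b := 1) (c := 3) (cn := .dn) (n1 := ndN1q3) (n2 := ndN7q1) (pc := pcN3) (cut := Cut.none) (xt := Ext.none) (P1 := 1610612736) (W1 := 469762048) (P2 := 536870912) (W2 := 536870912) (P3 := 1046898278) (W3 := 26843546) (N0 := 3)
    rfl k0_pm_313

noncomputable def f_mm_001 : ℕ → ℕ → ℕ → ℕ → Bool := onCell 67108864 469762048 0 536870912 1046898278 26843546
    (rowNX 3 0 true false false .up 0 0 1 (qsf 67108864 469762048 0 536870912 1) ndN1q0 ndN7q0 pcN1 Cut.none Ext.none)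

def k0_mm_001 : ∃ t, chk3 f_mm_001 t 1 1 1 = true :=
  ⟨(l 4), by decide +kernel⟩

theorem c_mm_001 : CertNX 67108864 469762048 0 536870912 1046898278 26843546 3 true false false .up 0 0 1
    ndN1q0 ndN7q0 pcN1 Cut.none Ext.none :=
  certNX0 (fam := true) (s1 := false) (s2 := false) (a := 0) (b := 0) (c := 1) (cn := .up) (n1 := ndN1q0) (n2 := ndN7q0) (pc := pcN1) (cut := Cut.none) (xt := Ext.none) (P1 := 67108864) (W1 := 469762048) (P2 := 0) (W2 := 536870912) (P3 := 1046898278) (W3 := 26843546) (N0 := 3)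
    rfl k0_mm_001

noncomputable def f_mm_011 : ℕ → ℕ → ℕ → ℕ → Bool := onCell 67108864 469762048 536870912 536870912 1046898278 26843546
    (rowNX 3 0 true false false .pnn 0 1 1 (qsf 67108864 469762048 536870912 536870912 1) ndN1q0 ndN7q1 pcN1 Cut.none Ext.none)

def k0_mm_011 : ∃ t, chk3 f_mm_011 t 1 1 1 = true :=
  ⟨(l 4), by decide +kernel⟩

theorem c_mm_011 : CertNX 67108864 469762048 536870912 536870912 1046898278 26843546 3 true false false .pnn 0 1 1
    ndN1q0 ndN7q1 pcN1 Cut.none Ext.none :=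
  certNX0 (fam := true) (s1 := false) (s2 := false) (a := 0) (b := 1) (c := 1) (cn := .pnn) (n1 := ndN1q0) (n2 := ndN7q1) (pc := pcN1) (cut := Cut.none) (xt := Ext.none) (P1 := 67108864) (W1 := 469762048) (P2 := 536870912) (W2 := 536870912) (P3 := 1046898278) (W3 := 26843546) (N0 := 3)
    rfl k0_mm_011

noncomputable def f_mm_012 : ℕ → ℕ → ℕ → ℕ → Bool := onCell 67108864 469762048 536870912 536870912 1046898278 26843546
    (rowNX 3 0 true false false .pnp 0 1 2 (qsf 67108864 469762048 536870912 536870912 2) ndN1q0 ndN7q1 pcN2 Cut.none Ext.none)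

def k0_mm_012 : ∃ t, chk3 f_mm_012 t 1 1 1 = true :=
  ⟨(l 4), by decide +kernel⟩

theorem c_mm_012 : CertNX 67108864 469762048 536870912 536870912 1046898278 26843546 3 true false false .pnp 0 1 2
    ndN1q0 ndN7q1 pcN2 Cut.none Ext.none :=
  certNX0 (fam := true) (s1 := false) (s2 := false) (a := 0) (b := 1) (c := 2) (cn := .pnp) (n1 := ndN1q0) (n2 := ndN7q1) (pc := pcN2) (cut := Cut.none) (xt := Ext.none) (P1 := 67108864) (W1 := 469762048) (P2 := 536870912) (W2 := 536870912) (P3 := 1046898278) (W3 := 26843546) (N0 := 3)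
    rfl k0_mm_012

noncomputable def f_mm_022 : ℕ → ℕ → ℕ → ℕ → Bool := onCell 67108864 469762048 1073741824 536870912 1046898278 26843546
    (rowNX 3 0 true false false .pp 0 2 2 (qsf 67108864 469762048 1073741824 536870912 2) ndN1q0 ndN7q2 pcN2 Cut.none Ext.none)

def k0_mm_022 : ∃ t, chk3 f_mm_022 t 1 1 1 = true :=
  ⟨(l 4), by decide +kernel⟩

theorem c_mm_022 : CertNX 67108864 469762048 1073741824 536870912 1046898278 26843546 3 true false false .pp 0 2 2
    ndN1q0 ndN7q2 pcN2 Cut.none Ext.none :=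
  certNX0 (fam := true) (s1 := false) (s2 := false) (a := 0) (b := 2) (c := 2) (cn := .pp) (n1 := ndN1q0) (n2 := ndN7q2) (pc := pcN2) (cut := Cut.none) (xt := Ext.none) (P1 := 67108864) (W1 := 469762048) (P2 := 1073741824) (W2 := 536870912) (P3 := 1046898278) (W3 := 26843546) (N0 := 3)
    rfl k0_mm_022

noncomputable def f_mm_023 : ℕ → ℕ → ℕ → ℕ → Bool := onCell 67108864 469762048 1073741824 536870912 1046898278 26843546
    (rowNX 3 0 true false false .up 0 2 3 (qsf 67108864 469762048 1073741824 536870912 3) ndN1q0 ndN7q2 pcN3 Cut.none Ext.none)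

def k0_mm_023 : ∃ t, chk3 f_mm_023 t 1 1 1 = true :=
  ⟨(l 4), by decide +kernel⟩

theorem c_mm_023 : CertNX 67108864 469762048 1073741824 536870912 1046898278 26843546 3 true false false .up 0 2 3
    ndN1q0 ndN7q2 pcN3 Cut.none Ext.none :=
  certNX0 (fam := true) (s1 := false) (s2 := false) (a := 0) (b := 2) (c := 3) (cn := .up) (n1 := ndN1q0) (n2 := ndN7q2) (pc := pcN3) (cut := Cut.none) (xt := Ext.none) (P1 := 67108864) (W1 := 469762048) (P2 := 1073741824) (W2 := 536870912) (P3 := 1046898278) (W3 := 26843546) (N0 := 3)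
    rfl k0_mm_023

noncomputable def f_mm_033 : ℕ → ℕ → ℕ → ℕ → Bool := onCell 67108864 469762048 0 1230186008 1046898278 26843546
    (rowNX 3 0 true false false .pnn 0 3 3 (qsf 67108864 469762048 0 1230186008 3) ndN1q0 ndN7q3 pcN3 Cut.none Ext.none)

def k0_mm_033 : ∃ t, chk3 f_mm_033 t 1 1 1 = true :=
  ⟨(l 4), by decide +kernel⟩

theorem c_mm_033 : CertNX 67108864 469762048 0 1230186008 1046898278 26843546 3 true false false .pnn 0 3 3
    ndN1q0 ndN7q3 pcN3 Cut.none Ext.none :=
  certNX0 (fam := true) (s1 := false) (s2 := false) (a := 0) (b := 3) (c := 3) (cn := .pnn) (n1 := ndN1q0) (n2 := ndN7q3) (pc := pcN3) (cut := Cut.none) (xt := Ext.none) (P1 := 67108864) (W1 := 469762048) (P2 := 0) (W2 := 1230186008) (P3 := 1046898278) (W3 := 26843546) (N0 := 3)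
    rfl k0_mm_033

noncomputable def f_mm_101 : ℕ → ℕ → ℕ → ℕ → Bool := onCell 536870912 536870912 0 536870912 1046898278 26843546
    (rowNX 3 0 true false false .npn 1 0 1 (qsf 536870912 536870912 0 536870912 1) ndN1q1 ndN7q0 pcN1 Cut.none Ext.none)

def k0_mm_101 : ∃ t, chk3 f_mm_101 t 1 1 1 = true :=
  ⟨(l 4), by decide +kernel⟩

theorem c_mm_101 : CertNX 536870912 536870912 0 536870912 1046898278 26843546 3 true false false .npn 1 0 1
    ndN1q1 ndN7q0 pcN1 Cut.none Ext.none :=
  certNX0 (fam := true) (s1 := false) (s2 := false) (a := 1) (b := 0) (c := 1) (cn := .npn) (n1 := ndN1q1) (n2 := ndN7q0) (pc := pcN1) (cut := Cut.none) (xt := Ext.none) (P1 := 536870912) (W1 := 536870912) (P2 := 0) (W2 := 536870912) (P3 := 1046898278) (W3 := 26843546) (N0 := 3)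
    rfl k0_mm_101

noncomputable def f_mm_102 : ℕ → ℕ → ℕ → ℕ → Bool := onCell 536870912 536870912 0 536870912 1046898278 26843546
    (rowNX 3 0 true false false .npp 1 0 2 (qsf 536870912 536870912 0 536870912 2) ndN1q1 ndN7q0 pcN2 Cut.none Ext.none)

def k0_mm_102 : ∃ t, chk3 f_mm_102 t 1 1 1 = true :=
  ⟨(l 4), by decide +kernel⟩

theorem c_mm_102 : CertNX 536870912 536870912 0 536870912 1046898278 26843546 3 true false false .npp 1 0 2
    ndN1q1 ndN7q0 pcN2 Cut.none Ext.none :=
  certNX0 (fam := true) (s1 := false) (s2 := false) (a := 1) (b := 0) (c := 2) (cn := .npp) (n1 := ndN1q1) (n2 := ndN7q0) (pc := pcN2) (cut := Cut.none) (xt := Ext.none) (P1 := 536870912) (W1 := 536870912) (P2 := 0) (W2 := 536870912) (P3 := 1046898278) (W3 := 26843546) (N0 := 3)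
    rfl k0_mm_102

noncomputable def f_mm_112 : ℕ → ℕ → ℕ → ℕ → Bool := onCell 536870912 536870912 536870912 536870912 1046898278 26843546
    (rowNX 3 0 true false false .dn 1 1 2 (qsf 536870912 536870912 536870912 536870912 2) ndN1q1 ndN7q1 pcN2 Cut.none Ext.none)

def k0_mm_112 : ∃ t, chk3 f_mm_112 t 1 1 1 = true :=
  ⟨(l 4), by decide +kernel⟩

theorem c_mm_112 : CertNX 536870912 536870912 536870912 536870912 1046898278 26843546 3 true false false .dn 1 1 2
    ndN1q1 ndN7q1 pcN2 Cut.none Ext.none :=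
  certNX0 (fam := true) (s1 := false) (s2 := false) (a := 1) (b := 1) (c := 2) (cn := .dn) (n1 := ndN1q1) (n2 := ndN7q1) (pc := pcN2) (cut := Cut.none) (xt := Ext.none) (P1 := 536870912) (W1 := 536870912) (P2 := 536870912) (W2 := 536870912) (P3 := 1046898278) (W3 := 26843546) (N0 := 3)
    rfl k0_mm_112

noncomputable def f_mm_113 : ℕ → ℕ → ℕ → ℕ → Bool := onCell 536870912 536870912 536870912 536870912 1046898278 26843546
    (rowNX 3 0 true false false .nn 1 1 3 (qsf 536870912 536870912 536870912 536870912 3) ndN1q1 ndN7q1 pcN3 Cut.none Ext.none)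

def k0_mm_113 : ∃ t, chk3 f_mm_113 t 1 1 1 = true :=
  ⟨(l 4), by decide +kernel⟩

theorem c_mm_113 : CertNX 536870912 536870912 536870912 536870912 1046898278 26843546 3 true false false .nn 1 1 3
    ndN1q1 ndN7q1 pcN3 Cut.none Ext.none :=
  certNX0 (fam := true) (s1 := false) (s2 := false) (a := 1) (b := 1) (c := 3) (cn := .nn) (n1 := ndN1q1) (n2 := ndN7q1) (pc := pcN3) (cut := Cut.none) (xt := Ext.none) (P1 := 536870912) (W1 := 536870912) (P2 := 536870912) (W2 := 536870912) (P3 := 1046898278) (W3 := 26843546) (N0 := 3)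
    rfl k0_mm_113

noncomputable def f_mm_123 : ℕ → ℕ → ℕ → ℕ → Bool := onCell 536870912 536870912 1073741824 536870912 1046898278 26843546
    (rowNX 3 0 true false false .npn 1 2 3 (qsf 536870912 536870912 1073741824 536870912 3) ndN1q1 ndN7q2 pcN3 Cut.none Ext.none)

def k0_mm_123 : ∃ t, chk3 f_mm_123 t 1 1 1 = true :=
  ⟨(l 4), by decide +kernel⟩

theorem c_mm_123 : CertNX 536870912 536870912 1073741824 536870912 1046898278 26843546 3 true false false .npn 1 2 3
    ndN1q1 ndN7q2 pcN3 Cut.none Ext.none :=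
  certNX0 (fam := true) (s1 := false) (s2 := false) (a := 1) (b := 2) (c := 3) (cn := .npn) (n1 := ndN1q1) (n2 := ndN7q2) (pc := pcN3) (cut := Cut.none) (xt := Ext.none) (P1 := 536870912) (W1 := 536870912) (P2 := 1073741824) (W2 := 536870912) (P3 := 1046898278) (W3 := 26843546) (N0 := 3)
    rfl k0_mm_123

noncomputable def f_mm_133 : ℕ → ℕ → ℕ → ℕ → Bool := onCell 536870912 536870912 0 1230186008 1046898278 26843546
    (rowNX 3 0 true false false .dn 1 3 3 (qsf 536870912 536870912 0 1230186008 3) ndN1q1 ndN7q3 pcN3 Cut.none Ext.none)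

def k0_mm_133 : ∃ t, chk3 f_mm_133 t 1 1 1 = true :=
  ⟨(l 4), by decide +kernel⟩

theorem c_mm_133 : CertNX 536870912 536870912 0 1230186008 1046898278 26843546 3 true false false .dn 1 3 3
    ndN1q1 ndN7q3 pcN3 Cut.none Ext.none :=
  certNX0 (fam := true) (s1 := false) (s2 := false) (a := 1) (b := 3) (c := 3) (cn := .dn) (n1 := ndN1q1) (n2 := ndN7q3) (pc := pcN3) (cut := Cut.none) (xt := Ext.none) (P1 := 536870912) (W1 := 536870912) (P2 := 0) (W2 := 1230186008) (P3 := 1046898278) (W3 := 26843546) (N0 := 3)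
    rfl k0_mm_133

noncomputable def f_mm_202_a : ℕ → ℕ → ℕ → ℕ → Bool := onCell 0 420477299 0 536870912 1046898278 26843546
    (rowNX 3 0 true false false .pp 2 0 2 (qsf 0 420477299 0 536870912 2) ndN1q2a ndN7q0 pcN2 Cut.none Ext.none)

def k0_mm_202_a : ∃ t, chk3 f_mm_202_a t 1 1 1 = true :=
  ⟨(l 4), by decide +kernel⟩

theorem c_mm_202_a : CertNX 0 420477299 0 536870912 1046898278 26843546 3 true false false .pp 2 0 2
    ndN1q2a ndN7q0 pcN2 Cut.none Ext.none :=
  certNX0 (fam := true) (s1 := false) (s2 := false) (a := 2) (b := 0) (c := 2) (cn := .pp) (n1 := ndN1q2a) (n2 := ndN7q0) (pc := pcN2) (cut := Cut.none) (xt := Ext.none) (P1 := 0) (W1 := 420477299) (P2 := 0) (W2 := 536870912) (P3 := 1046898278) (W3 := 26843546) (N0 := 3)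
    rfl k0_mm_202_a

noncomputable def f_mm_202_b : ℕ → ℕ → ℕ → ℕ → Bool := onCell 1239849684 370763052 0 536870912 1046898278 26843546
    (rowNX 3 0 true false false .pp 2 0 2 (qsf 1239849684 370763052 0 536870912 2) ndN1q2b ndN7q0 pcN2 Cut.none Ext.none)

def k0_mm_202_b : ∃ t, chk3 f_mm_202_b t 1 1 1 = true :=
  ⟨(l 4), by decide +kernel⟩

theorem c_mm_202_b : CertNX 1239849684 370763052 0 536870912 1046898278 26843546 3 true false false .pp 2 0 2
    ndN1q2b ndN7q0 pcN2 Cut.none Ext.none :=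
  certNX0 (fam := true) (s1 := false) (s2 := false) (a := 2) (b := 0) (c := 2) (cn := .pp) (n1 := ndN1q2b) (n2 := ndN7q0) (pc := pcN2) (cut := Cut.none) (xt := Ext.none) (P1 := 1239849684) (W1 := 370763052) (P2 := 0) (W2 := 536870912) (P3 := 1046898278) (W3 := 26843546) (N0 := 3)
    rfl k0_mm_202_b

noncomputable def f_mm_203_a : ℕ → ℕ → ℕ → ℕ → Bool := onCell 0 420477299 0 536870912 1046898278 26843546
    (rowNX 3 0 true false false .up 2 0 3 (qsf 0 420477299 0 536870912 3) ndN1q2a ndN7q0 pcN3 Cut.none Ext.none)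

def k0_mm_203_a : ∃ t, chk3 f_mm_203_a t 1 1 1 = true :=
  ⟨(l 4), by decide +kernel⟩

theorem c_mm_203_a : CertNX 0 420477299 0 536870912 1046898278 26843546 3 true false false .up 2 0 3
    ndN1q2a ndN7q0 pcN3 Cut.none Ext.none :=
  certNX0 (fam := true) (s1 := false) (s2 := false) (a := 2) (b := 0) (c := 3) (cn := .up) (n1 := ndN1q2a) (n2 := ndN7q0) (pc := pcN3) (cut := Cut.none) (xt := Ext.none) (P1 := 0) (W1 := 420477299) (P2 := 0) (W2 := 536870912) (P3 := 1046898278) (W3 := 26843546) (N0 := 3)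
    rfl k0_mm_203_a

noncomputable def f_mm_203_b : ℕ → ℕ → ℕ → ℕ → Bool := onCell 1239849684 370763052 0 536870912 1046898278 26843546
    (rowNX 3 0 true false false .up 2 0 3 (qsf 1239849684 370763052 0 536870912 3) ndN1q2b ndN7q0 pcN3 Cut.none Ext.none)

def k0_mm_203_b : ∃ t, chk3 f_mm_203_b t 1 1 1 = true :=
  ⟨(l 4), by decide +kernel⟩

theorem c_mm_203_b : CertNX 1239849684 370763052 0 536870912 1046898278 26843546 3 true false false .up 2 0 3
    ndN1q2b ndN7q0 pcN3 Cut.none Ext.none :=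
  certNX0 (fam := true) (s1 := false) (s2 := false) (a := 2) (b := 0) (c := 3) (cn := .up) (n1 := ndN1q2b) (n2 := ndN7q0) (pc := pcN3) (cut := Cut.none) (xt := Ext.none) (P1 := 1239849684) (W1 := 370763052) (P2 := 0) (W2 := 536870912) (P3 := 1046898278) (W3 := 26843546) (N0 := 3)
    rfl k0_mm_203_b

noncomputable def f_mm_213_a : ℕ → ℕ → ℕ → ℕ → Bool := onCell 0 420477299 536870912 536870912 1046898278 26843546
    (rowNX 3 0 true false false .pnn 2 1 3 (qsf 0 420477299 536870912 536870912 3) ndN1q2a ndN7q1 pcN3 Cut.none Ext.none)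

def k0_mm_213_a : ∃ t, chk3 f_mm_213_a t 1 1 1 = true :=
  ⟨(l 4), by decide +kernel⟩

theorem c_mm_213_a : CertNX 0 420477299 536870912 536870912 1046898278 26843546 3 true false false .pnn 2 1 3
    ndN1q2a ndN7q1 pcN3 Cut.none Ext.none :=
  certNX0 (fam := true) (s1 := false) (s2 := false) (a := 2) (b := 1) (c := 3) (cn := .pnn) (n1 := ndN1q2a) (n2 := ndN7q1) (pc := pcN3) (cut := Cut.none) (xt := Ext.none) (P1 := 0) (W1 := 420477299) (P2 := 536870912) (W2 := 536870912) (P3 := 1046898278) (W3 := 26843546) (N0 := 3)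
    rfl k0_mm_213_a

noncomputable def f_mm_213_b : ℕ → ℕ → ℕ → ℕ → Bool := onCell 1239849684 370763052 536870912 536870912 1046898278 26843546
    (rowNX 3 0 true false false .pnn 2 1 3 (qsf 1239849684 370763052 536870912 536870912 3) ndN1q2b ndN7q1 pcN3 Cut.none Ext.none)

def k0_mm_213_b : ∃ t, chk3 f_mm_213_b t 1 1 1 = true :=
  ⟨(l 4), by decide +kernel⟩

theorem c_mm_213_b : CertNX 1239849684 370763052 536870912 536870912 1046898278 26843546 3 true false false .pnn 2 1 3
    ndN1q2b ndN7q1 pcN3 Cut.none Ext.none :=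
  certNX0 (fam := true) (s1 := false) (s2 := false) (a := 2) (b := 1) (c := 3) (cn := .pnn) (n1 := ndN1q2b) (n2 := ndN7q1) (pc := pcN3) (cut := Cut.none) (xt := Ext.none) (P1 := 1239849684) (W1 := 370763052) (P2 := 536870912) (W2 := 536870912) (P3 := 1046898278) (W3 := 26843546) (N0 := 3)
    rfl k0_mm_213_b

noncomputable def f_mm_303 : ℕ → ℕ → ℕ → ℕ → Bool := onCell 1610612736 469762048 0 536870912 1046898278 26843546
    (rowNX 3 0 true false false .npn 3 0 3 (qsf 1610612736 469762048 0 536870912 3) ndN1q3 ndN7q0 pcN3 Cut.none Ext.none)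

def k0_mm_303 : ∃ t, chk3 f_mm_303 t 1 1 1 = true :=
  ⟨(l 4), by decide +kernel⟩

theorem c_mm_303 : CertNX 1610612736 469762048 0 536870912 1046898278 26843546 3 true false false .npn 3 0 3
    ndN1q3 ndN7q0 pcN3 Cut.none Ext.none :=
  certNX0 (fam := true) (s1 := false) (s2 := false) (a := 3) (b := 0) (c := 3) (cn := .npn) (n1 := ndN1q3) (n2 := ndN7q0) (pc := pcN3) (cut := Cut.none) (xt := Ext.none) (P1 := 1610612736) (W1 := 469762048) (P2 := 0) (W2 := 536870912) (P3 := 1046898278) (W3 := 26843546) (N0 := 3)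
    rfl k0_mm_303

noncomputable def f_mm_313 : ℕ → ℕ → ℕ → ℕ → Bool := onCell 1610612736 469762048 536870912 536870912 1046898278 26843546
    (rowNX 3 0 true false false .dn 3 1 3 (qsf 1610612736 469762048 536870912 536870912 3) ndN1q3 ndN7q1 pcN3 Cut.none Ext.none)

def k0_mm_313 : ∃ t, chk3 f_mm_313 t 1 1 1 = true :=
  ⟨(l 4), by decide +kernel⟩

theorem c_mm_313 : CertNX 1610612736 469762048 536870912 536870912 1046898278 26843546 3 true false false .dn 3 1 3
    ndN1q3 ndN7q1 pcN3 Cut.none Ext.none :=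
  certNX0 (fam := true) (s1 := false) (s2 := false) (a := 3) (b := 1) (c := 3) (cn := .dn) (n1 := ndN1q3) (n2 := ndN7q1) (pc := pcN3) (cut := Cut.none) (xt := Ext.none) (P1 := 1610612736) (W1 := 469762048) (P2 := 536870912) (W2 := 536870912) (P3 := 1046898278) (W3 := 26843546) (N0 := 3)
    rfl k0_mm_313

end Pool.Agent.Strip051.G.IE1.Tab.C.NA17

namespace Pool.Agent.Strip051.G.IE1.Tab.C.NA22

open Pool.Agent.Strip051.PB Pool.Agent.Strip051.PB.T
open Pool.Agent.Strip051.G.IE1.Tab

noncomputable def f_pp_001 : ℕ → ℕ → ℕ → ℕ → Bool := onCell 67108864 469762048 67108864 469762048 1046898278 26843546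
    (rowNX 3 0 true true true .up 0 0 1 (qsf 67108864 469762048 67108864 469762048 1) ndN2q0 ndN2q0 pcN1 Cut.none Ext.none)

def k0_pp_001 : ∃ t, chk3 f_pp_001 t 1 1 1 = true :=
  ⟨(l 4), by decide +kernel⟩

theorem c_pp_001 : CertNX 67108864 469762048 67108864 469762048 1046898278 26843546 3 true true true .up 0 0 1
    ndN2q0 ndN2q0 pcN1 Cut.none Ext.none :=
  certNX0 (fam := true) (s1 := true) (s2 := true) (a := 0) (b := 0) (c := 1) (cn := .up) (n1 := ndN2q0) (n2 := ndN2q0) (pc := pcN1) (cut := Cut.none) (xt := Ext.none) (P1 := 67108864) (W1 := 469762048) (P2 := 67108864) (W2 := 469762048) (P3 := 1046898278) (W3 := 26843546) (N0 := 3)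
    rfl k0_pp_001

noncomputable def f_pp_011 : ℕ → ℕ → ℕ → ℕ → Bool := onCell 67108864 469762048 536870912 536870912 1046898278 26843546
    (rowNX 3 0 true true true .pnn 0 1 1 (qsf 67108864 469762048 536870912 536870912 1) ndN2q0 ndN2q1 pcN1 Cut.none Ext.none)

def k0_pp_011 : ∃ t, chk3 f_pp_011 t 1 1 1 = true :=
  ⟨(l 4), by decide +kernel⟩

theorem c_pp_011 : CertNX 67108864 469762048 536870912 536870912 1046898278 26843546 3 true true true .pnn 0 1 1
    ndN2q0 ndN2q1 pcN1 Cut.none Ext.none :=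
  certNX0 (fam := true) (s1 := true) (s2 := true) (a := 0) (b := 1) (c := 1) (cn := .pnn) (n1 := ndN2q0) (n2 := ndN2q1) (pc := pcN1) (cut := Cut.none) (xt := Ext.none) (P1 := 67108864) (W1 := 469762048) (P2 := 536870912) (W2 := 536870912) (P3 := 1046898278) (W3 := 26843546) (N0 := 3)
    rfl k0_pp_011

noncomputable def f_pp_012 : ℕ → ℕ → ℕ → ℕ → Bool := onCell 67108864 469762048 536870912 536870912 1046898278 26843546
    (rowNX 3 0 true true true .pnp 0 1 2 (qsf 67108864 469762048 536870912 536870912 2) ndN2q0 ndN2q1 pcN2 Cut.none Ext.none)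

def k0_pp_012 : ∃ t, chk3 f_pp_012 t 1 1 1 = true :=
  ⟨(l 4), by decide +kernel⟩

theorem c_pp_012 : CertNX 67108864 469762048 536870912 536870912 1046898278 26843546 3 true true true .pnp 0 1 2
    ndN2q0 ndN2q1 pcN2 Cut.none Ext.none :=
  certNX0 (fam := true) (s1 := true) (s2 := true) (a := 0) (b := 1) (c := 2) (cn := .pnp) (n1 := ndN2q0) (n2 := ndN2q1) (pc := pcN2) (cut := Cut.none) (xt := Ext.none) (P1 := 67108864) (W1 := 469762048) (P2 := 536870912) (W2 := 536870912) (P3 := 1046898278) (W3 := 26843546) (N0 := 3)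
    rfl k0_pp_012

noncomputable def f_pp_022_a : ℕ → ℕ → ℕ → ℕ → Bool := onCell 67108864 469762048 0 420477299 1046898278 26843546
    (rowNX 3 0 true true true .pp 0 2 2 (qsf 67108864 469762048 0 420477299 2) ndN2q0 ndN2q2a pcN2 Cut.none Ext.none)

def k0_pp_022_a : ∃ t, chk3 f_pp_022_a t 1 1 1 = true :=
  ⟨(a (a (b (a (a (b (a (b (a (a (l 16015584) (l 16236024)) (l 16399024)) (a (c (l 16053688) (l 16045256)) (c (l 16381400) (l 16374592)))) (c (l 200486404151) (l 209076348983))) (l 4)) (l 4)) (l 4)) (l 4)) (l 4)) (l 4)), by decide +kernel⟩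

theorem c_pp_022_a : CertNX 67108864 469762048 0 420477299 1046898278 26843546 3 true true true .pp 0 2 2
    ndN2q0 ndN2q2a pcN2 Cut.none Ext.none :=
  certNX0 (fam := true) (s1 := true) (s2 := true) (a := 0) (b := 2) (c := 2) (cn := .pp) (n1 := ndN2q0) (n2 := ndN2q2a) (pc := pcN2) (cut := Cut.none) (xt := Ext.none) (P1 := 67108864) (W1 := 469762048) (P2 := 0) (W2 := 420477299) (P3 := 1046898278) (W3 := 26843546) (N0 := 3)
    rfl k0_pp_022_a

noncomputable def f_pp_022_b : ℕ → ℕ → ℕ → ℕ → Bool := onCell 67108864 469762048 1239849684 370763052 1046898278 26843546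
    (rowNX 3 0 true true true .pp 0 2 2 (qsf 67108864 469762048 1239849684 370763052 2) ndN2q0 ndN2q2b pcN2 Cut.none Ext.none)

def k0_pp_022_b : ∃ t, chk3 f_pp_022_b t 1 1 1 = true :=
  ⟨(a (b (a (a (b (a (b (a (b (a (c (l 15857048) (l 15878368)) (c (l 16296528) (l 16286544))) (c (l 15697944) (l 15710168))) (b (c (l 16287536) (l 16278600)) (l 4))) (a (b (c (l 15540144) (l 15497872)) (l 4)) (l 4))) (l 4)) (l 4)) (l 4)) (l 4)) (l 4)) (l 4)), by decide +kernel⟩

theorem c_pp_022_b : CertNX 67108864 469762048 1239849684 370763052 1046898278 26843546 3 true true true .pp 0 2 2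
    ndN2q0 ndN2q2b pcN2 Cut.none Ext.none :=
  certNX0 (fam := true) (s1 := true) (s2 := true) (a := 0) (b := 2) (c := 2) (cn := .pp) (n1 := ndN2q0) (n2 := ndN2q2b) (pc := pcN2) (cut := Cut.none) (xt := Ext.none) (P1 := 67108864) (W1 := 469762048) (P2 := 1239849684) (W2 := 370763052) (P3 := 1046898278) (W3 := 26843546) (N0 := 3)
    rfl k0_pp_022_b

noncomputable def f_pp_023_a : ℕ → ℕ → ℕ → ℕ → Bool := onCell 1610612736 536870912 0 420477299 1046898278 26843546
    (rowNX 3 2 true true true .up 0 2 3 (qsf 67108864 469762048 0 420477299 3) ndN2q0 ndN2q2a pcN3 Cut.none Ext.none)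

def k0_pp_023_a : ∃ t, chk3 f_pp_023_a t 1 1 1 = true :=
  ⟨(l 4), by decide +kernel⟩

theorem c_pp_023_a : CertNX 67108864 469762048 0 420477299 1046898278 26843546 3 true true true .up 0 2 3
    ndN2q0 ndN2q2a pcN3 Cut.none Ext.none :=
  certNX2 (fam := true) (s1 := true) (s2 := true) (a := 0) (b := 2) (c := 3) (cn := .up) (n1 := ndN2q0) (n2 := ndN2q2a) (pc := pcN3) (cut := Cut.none) (xt := Ext.none) (P1 := 67108864) (W1 := 469762048) (P2 := 0) (W2 := 420477299) (P3 := 1046898278) (W3 := 26843546) (N0 := 3)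
    rfl (fun _ => rfl) k0_pp_023_a

noncomputable def f_pp_023_b : ℕ → ℕ → ℕ → ℕ → Bool := onCell 67108864 469762048 1610612736 536870912 1046898278 26843546
    (rowNX 3 1 true true true .up 0 2 3 (qsf 67108864 469762048 1239849684 370763052 3) ndN2q0 ndN2q2b pcN3 Cut.none Ext.none)

def k0_pp_023_b : ∃ t, chk3 f_pp_023_b t 1 1 1 = true :=
  ⟨(l 4), by decide +kernel⟩

theorem c_pp_023_b : CertNX 67108864 469762048 1239849684 370763052 1046898278 26843546 3 true true true .up 0 2 3
    ndN2q0 ndN2q2b pcN3 Cut.none Ext.none :=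
  certNX1 (fam := true) (s1 := true) (s2 := true) (a := 0) (b := 2) (c := 3) (cn := .up) (n1 := ndN2q0) (n2 := ndN2q2b) (pc := pcN3) (cut := Cut.none) (xt := Ext.none) (P1 := 67108864) (W1 := 469762048) (P2 := 1239849684) (W2 := 370763052) (P3 := 1046898278) (W3 := 26843546) (N0 := 3)
    rfl (fun _ => rfl) k0_pp_023_b

noncomputable def f_pp_033 : ℕ → ℕ → ℕ → ℕ → Bool := onCell 67108864 469762048 1610612736 469762048 1046898278 26843546
    (rowNX 3 0 true true true .pnn 0 3 3 (qsf 67108864 469762048 1610612736 469762048 3) ndN2q0 ndN2q3 pcN3 Cut.none Ext.none)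

def k0_pp_033 : ∃ t, chk3 f_pp_033 t 1 1 1 = true :=
  ⟨(l 4), by decide +kernel⟩

theorem c_pp_033 : CertNX 67108864 469762048 1610612736 469762048 1046898278 26843546 3 true true true .pnn 0 3 3
    ndN2q0 ndN2q3 pcN3 Cut.none Ext.none :=
  certNX0 (fam := true) (s1 := true) (s2 := true) (a := 0) (b := 3) (c := 3) (cn := .pnn) (n1 := ndN2q0) (n2 := ndN2q3) (pc := pcN3) (cut := Cut.none) (xt := Ext.none) (P1 := 67108864) (W1 := 469762048) (P2 := 1610612736) (W2 := 469762048) (P3 := 1046898278) (W3 := 26843546) (N0 := 3)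
    rfl k0_pp_033

noncomputable def f_pp_101 : ℕ → ℕ → ℕ → ℕ → Bool := onCell 536870912 536870912 67108864 469762048 1046898278 26843546
    (rowNX 3 0 true true true .npn 1 0 1 (qsf 536870912 536870912 67108864 469762048 1) ndN2q1 ndN2q0 pcN1 Cut.none Ext.none)

def k0_pp_101 : ∃ t, chk3 f_pp_101 t 1 1 1 = true :=
  ⟨(l 4), by decide +kernel⟩

theorem c_pp_101 : CertNX 536870912 536870912 67108864 469762048 1046898278 26843546 3 true true true .npn 1 0 1
    ndN2q1 ndN2q0 pcN1 Cut.none Ext.none :=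
  certNX0 (fam := true) (s1 := true) (s2 := true) (a := 1) (b := 0) (c := 1) (cn := .npn) (n1 := ndN2q1) (n2 := ndN2q0) (pc := pcN1) (cut := Cut.none) (xt := Ext.none) (P1 := 536870912) (W1 := 536870912) (P2 := 67108864) (W2 := 469762048) (P3 := 1046898278) (W3 := 26843546) (N0 := 3)
    rfl k0_pp_101

noncomputable def f_pp_102 : ℕ → ℕ → ℕ → ℕ → Bool := onCell 536870912 536870912 67108864 469762048 1046898278 26843546
    (rowNX 3 0 true true true .npp 1 0 2 (qsf 536870912 536870912 67108864 469762048 2) ndN2q1 ndN2q0 pcN2 Cut.none Ext.none)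

def k0_pp_102 : ∃ t, chk3 f_pp_102 t 1 1 1 = true :=
  ⟨(l 4), by decide +kernel⟩

theorem c_pp_102 : CertNX 536870912 536870912 67108864 469762048 1046898278 26843546 3 true true true .npp 1 0 2
    ndN2q1 ndN2q0 pcN2 Cut.none Ext.none :=
  certNX0 (fam := true) (s1 := true) (s2 := true) (a := 1) (b := 0) (c := 2) (cn := .npp) (n1 := ndN2q1) (n2 := ndN2q0) (pc := pcN2) (cut := Cut.none) (xt := Ext.none) (P1 := 536870912) (W1 := 536870912) (P2 := 67108864) (W2 := 469762048) (P3 := 1046898278) (W3 := 26843546) (N0 := 3)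
    rfl k0_pp_102

noncomputable def f_pp_112 : ℕ → ℕ → ℕ → ℕ → Bool := onCell 536870912 536870912 536870912 536870912 1046898278 26843546
    (rowNX 3 0 true true true .dn 1 1 2 (qsf 536870912 536870912 536870912 536870912 2) ndN2q1 ndN2q1 pcN2 Cut.none Ext.none)

def k0_pp_112 : ∃ t, chk3 f_pp_112 t 1 1 1 = true :=
  ⟨(l 4), by decide +kernel⟩

theorem c_pp_112 : CertNX 536870912 536870912 536870912 536870912 1046898278 26843546 3 true true true .dn 1 1 2
    ndN2q1 ndN2q1 pcN2 Cut.none Ext.none :=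
  certNX0 (fam := true) (s1 := true) (s2 := true) (a := 1) (b := 1) (c := 2) (cn := .dn) (n1 := ndN2q1) (n2 := ndN2q1) (pc := pcN2) (cut := Cut.none) (xt := Ext.none) (P1 := 536870912) (W1 := 536870912) (P2 := 536870912) (W2 := 536870912) (P3 := 1046898278) (W3 := 26843546) (N0 := 3)
    rfl k0_pp_112

noncomputable def f_pp_113 : ℕ → ℕ → ℕ → ℕ → Bool := onCell 536870912 536870912 536870912 536870912 1046898278 26843546
    (rowNX 3 0 true true true .nn 1 1 3 (qsf 536870912 536870912 536870912 536870912 3) ndN2q1 ndN2q1 pcN3 Cut.none Ext.none)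

def k0_pp_113 : ∃ t, chk3 f_pp_113 t 1 1 1 = true :=
  ⟨(l 4), by decide +kernel⟩

theorem c_pp_113 : CertNX 536870912 536870912 536870912 536870912 1046898278 26843546 3 true true true .nn 1 1 3
    ndN2q1 ndN2q1 pcN3 Cut.none Ext.none :=
  certNX0 (fam := true) (s1 := true) (s2 := true) (a := 1) (b := 1) (c := 3) (cn := .nn) (n1 := ndN2q1) (n2 := ndN2q1) (pc := pcN3) (cut := Cut.none) (xt := Ext.none) (P1 := 536870912) (W1 := 536870912) (P2 := 536870912) (W2 := 536870912) (P3 := 1046898278) (W3 := 26843546) (N0 := 3)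
    rfl k0_pp_113

noncomputable def f_pp_123_a : ℕ → ℕ → ℕ → ℕ → Bool := onCell 536870912 536870912 0 420477299 1046898278 26843546
    (rowNX 3 0 true true true .npn 1 2 3 (qsf 536870912 536870912 0 420477299 3) ndN2q1 ndN2q2a pcN3 Cut.none Ext.none)

def k0_pp_123_a : ∃ t, chk3 f_pp_123_a t 1 1 1 = true :=
  ⟨(l 4), by decide +kernel⟩

theorem c_pp_123_a : CertNX 536870912 536870912 0 420477299 1046898278 26843546 3 true true true .npn 1 2 3
    ndN2q1 ndN2q2a pcN3 Cut.none Ext.none :=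
  certNX0 (fam := true) (s1 := true) (s2 := true) (a := 1) (b := 2) (c := 3) (cn := .npn) (n1 := ndN2q1) (n2 := ndN2q2a) (pc := pcN3) (cut := Cut.none) (xt := Ext.none) (P1 := 536870912) (W1 := 536870912) (P2 := 0) (W2 := 420477299) (P3 := 1046898278) (W3 := 26843546) (N0 := 3)
    rfl k0_pp_123_a

noncomputable def f_pp_123_b : ℕ → ℕ → ℕ → ℕ → Bool := onCell 536870912 536870912 1239849684 370763052 1046898278 26843546
    (rowNX 3 0 true true true .npn 1 2 3 (qsf 536870912 536870912 1239849684 370763052 3) ndN2q1 ndN2q2b pcN3 Cut.none Ext.none)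

def k0_pp_123_b : ∃ t, chk3 f_pp_123_b t 1 1 1 = true :=
  ⟨(l 4), by decide +kernel⟩

theorem c_pp_123_b : CertNX 536870912 536870912 1239849684 370763052 1046898278 26843546 3 true true true .npn 1 2 3
    ndN2q1 ndN2q2b pcN3 Cut.none Ext.none :=
  certNX0 (fam := true) (s1 := true) (s2 := true) (a := 1) (b := 2) (c := 3) (cn := .npn) (n1 := ndN2q1) (n2 := ndN2q2b) (pc := pcN3) (cut := Cut.none) (xt := Ext.none) (P1 := 536870912) (W1 := 536870912) (P2 := 1239849684) (W2 := 370763052) (P3 := 1046898278) (W3 := 26843546) (N0 := 3)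
    rfl k0_pp_123_b

noncomputable def f_pp_133 : ℕ → ℕ → ℕ → ℕ → Bool := onCell 536870912 536870912 1610612736 469762048 1046898278 26843546
    (rowNX 3 0 true true true .dn 1 3 3 (qsf 536870912 536870912 1610612736 469762048 3) ndN2q1 ndN2q3 pcN3 Cut.none Ext.none)

def k0_pp_133 : ∃ t, chk3 f_pp_133 t 1 1 1 = true :=
  ⟨(l 4), by decide +kernel⟩

theorem c_pp_133 : CertNX 536870912 536870912 1610612736 469762048 1046898278 26843546 3 true true true .dn 1 3 3
    ndN2q1 ndN2q3 pcN3 Cut.none Ext.none :=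
  certNX0 (fam := true) (s1 := true) (s2 := true) (a := 1) (b := 3) (c := 3) (cn := .dn) (n1 := ndN2q1) (n2 := ndN2q3) (pc := pcN3) (cut := Cut.none) (xt := Ext.none) (P1 := 536870912) (W1 := 536870912) (P2 := 1610612736) (W2 := 469762048) (P3 := 1046898278) (W3 := 26843546) (N0 := 3)
    rfl k0_pp_133

noncomputable def f_pp_202_a : ℕ → ℕ → ℕ → ℕ → Bool := onCell 0 420477299 67108864 469762048 1046898278 26843546
    (rowNX 3 0 true true true .pp 2 0 2 (qsf 0 420477299 67108864 469762048 2) ndN2q2a ndN2q0 pcN2 Cut.none Ext.none)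

def k0_pp_202_a : ∃ t, chk3 f_pp_202_a t 1 1 1 = true :=
  ⟨(l 5), by decide +kernel⟩

theorem c_pp_202_a : CertNX 0 420477299 67108864 469762048 1046898278 26843546 3 true true true .pp 2 0 2
    ndN2q2a ndN2q0 pcN2 Cut.none Ext.none :=
  certNX0 (fam := true) (s1 := true) (s2 := true) (a := 2) (b := 0) (c := 2) (cn := .pp) (n1 := ndN2q2a) (n2 := ndN2q0) (pc := pcN2) (cut := Cut.none) (xt := Ext.none) (P1 := 0) (W1 := 420477299) (P2 := 67108864) (W2 := 469762048) (P3 := 1046898278) (W3 := 26843546) (N0 := 3)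
    rfl k0_pp_202_a

noncomputable def f_pp_202_b : ℕ → ℕ → ℕ → ℕ → Bool := onCell 1239849684 370763052 67108864 469762048 1046898278 26843546
    (rowNX 3 0 true true true .pp 2 0 2 (qsf 1239849684 370763052 67108864 469762048 2) ndN2q2b ndN2q0 pcN2 Cut.none Ext.none)

def k0_pp_202_b : ∃ t, chk3 f_pp_202_b t 1 1 1 = true :=
  ⟨(l 5), by decide +kernel⟩

theorem c_pp_202_b : CertNX 1239849684 370763052 67108864 469762048 1046898278 26843546 3 true true true .pp 2 0 2
    ndN2q2b ndN2q0 pcN2 Cut.none Ext.none :=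
  certNX0 (fam := true) (s1 := true) (s2 := true) (a := 2) (b := 0) (c := 2) (cn := .pp) (n1 := ndN2q2b) (n2 := ndN2q0) (pc := pcN2) (cut := Cut.none) (xt := Ext.none) (P1 := 1239849684) (W1 := 370763052) (P2 := 67108864) (W2 := 469762048) (P3 := 1046898278) (W3 := 26843546) (N0 := 3)
    rfl k0_pp_202_b

noncomputable def f_pp_203_a : ℕ → ℕ → ℕ → ℕ → Bool := onCell 0 420477299 67108864 469762048 1046898278 26843546
    (rowNX 3 0 true true true .up 2 0 3 (qsf 0 420477299 67108864 469762048 3) ndN2q2a ndN2q0 pcN3 Cut.none Ext.none)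

def k0_pp_203_a : ∃ t, chk3 f_pp_203_a t 1 1 1 = true :=
  ⟨(l 5), by decide +kernel⟩

theorem c_pp_203_a : CertNX 0 420477299 67108864 469762048 1046898278 26843546 3 true true true .up 2 0 3
    ndN2q2a ndN2q0 pcN3 Cut.none Ext.none :=
  certNX0 (fam := true) (s1 := true) (s2 := true) (a := 2) (b := 0) (c := 3) (cn := .up) (n1 := ndN2q2a) (n2 := ndN2q0) (pc := pcN3) (cut := Cut.none) (xt := Ext.none) (P1 := 0) (W1 := 420477299) (P2 := 67108864) (W2 := 469762048) (P3 := 1046898278) (W3 := 26843546) (N0 := 3)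
    rfl k0_pp_203_a

noncomputable def f_pp_203_b : ℕ → ℕ → ℕ → ℕ → Bool := onCell 1239849684 370763052 67108864 469762048 1046898278 26843546
    (rowNX 3 0 true true true .up 2 0 3 (qsf 1239849684 370763052 67108864 469762048 3) ndN2q2b ndN2q0 pcN3 Cut.none Ext.none)

def k0_pp_203_b : ∃ t, chk3 f_pp_203_b t 1 1 1 = true :=
  ⟨(l 5), by decide +kernel⟩

theorem c_pp_203_b : CertNX 1239849684 370763052 67108864 469762048 1046898278 26843546 3 true true true .up 2 0 3
    ndN2q2b ndN2q0 pcN3 Cut.none Ext.none :=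
  certNX0 (fam := true) (s1 := true) (s2 := true) (a := 2) (b := 0) (c := 3) (cn := .up) (n1 := ndN2q2b) (n2 := ndN2q0) (pc := pcN3) (cut := Cut.none) (xt := Ext.none) (P1 := 1239849684) (W1 := 370763052) (P2 := 67108864) (W2 := 469762048) (P3 := 1046898278) (W3 := 26843546) (N0 := 3)
    rfl k0_pp_203_b

noncomputable def f_pp_213_a : ℕ → ℕ → ℕ → ℕ → Bool := onCell 0 420477299 536870912 536870912 1046898278 26843546
    (rowNX 3 0 true true true .pnn 2 1 3 (qsf 0 420477299 536870912 536870912 3) ndN2q2a ndN2q1 pcN3 Cut.none Ext.none)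

def k0_pp_213_a : ∃ t, chk3 f_pp_213_a t 1 1 1 = true :=
  ⟨(l 4), by decide +kernel⟩

theorem c_pp_213_a : CertNX 0 420477299 536870912 536870912 1046898278 26843546 3 true true true .pnn 2 1 3
    ndN2q2a ndN2q1 pcN3 Cut.none Ext.none :=
  certNX0 (fam := true) (s1 := true) (s2 := true) (a := 2) (b := 1) (c := 3) (cn := .pnn) (n1 := ndN2q2a) (n2 := ndN2q1) (pc := pcN3) (cut := Cut.none) (xt := Ext.none) (P1 := 0) (W1 := 420477299) (P2 := 536870912) (W2 := 536870912) (P3 := 1046898278) (W3 := 26843546) (N0 := 3)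
    rfl k0_pp_213_a

noncomputable def f_pp_213_b : ℕ → ℕ → ℕ → ℕ → Bool := onCell 1239849684 370763052 536870912 536870912 1046898278 26843546
    (rowNX 3 0 true true true .pnn 2 1 3 (qsf 1239849684 370763052 536870912 536870912 3) ndN2q2b ndN2q1 pcN3 Cut.none Ext.none)

def k0_pp_213_b : ∃ t, chk3 f_pp_213_b t 1 1 1 = true :=
  ⟨(l 4), by decide +kernel⟩

theorem c_pp_213_b : CertNX 1239849684 370763052 536870912 536870912 1046898278 26843546 3 true true true .pnn 2 1 3
    ndN2q2b ndN2q1 pcN3 Cut.none Ext.none :=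
  certNX0 (fam := true) (s1 := true) (s2 := true) (a := 2) (b := 1) (c := 3) (cn := .pnn) (n1 := ndN2q2b) (n2 := ndN2q1) (pc := pcN3) (cut := Cut.none) (xt := Ext.none) (P1 := 1239849684) (W1 := 370763052) (P2 := 536870912) (W2 := 536870912) (P3 := 1046898278) (W3 := 26843546) (N0 := 3)
    rfl k0_pp_213_b

noncomputable def f_pp_303 : ℕ → ℕ → ℕ → ℕ → Bool := onCell 1610612736 469762048 67108864 469762048 1046898278 26843546
    (rowNX 3 0 true true true .npn 3 0 3 (qsf 1610612736 469762048 67108864 469762048 3) ndN2q3 ndN2q0 pcN3 Cut.none Ext.none)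

def k0_pp_303 : ∃ t, chk3 f_pp_303 t 1 1 1 = true :=
  ⟨(l 4), by decide +kernel⟩

theorem c_pp_303 : CertNX 1610612736 469762048 67108864 469762048 1046898278 26843546 3 true true true .npn 3 0 3
    ndN2q3 ndN2q0 pcN3 Cut.none Ext.none :=
  certNX0 (fam := true) (s1 := true) (s2 := true) (a := 3) (b := 0) (c := 3) (cn := .npn) (n1 := ndN2q3) (n2 := ndN2q0) (pc := pcN3) (cut := Cut.none) (xt := Ext.none) (P1 := 1610612736) (W1 := 469762048) (P2 := 67108864) (W2 := 469762048) (P3 := 1046898278) (W3 := 26843546) (N0 := 3)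
    rfl k0_pp_303

noncomputable def f_pp_313 : ℕ → ℕ → ℕ → ℕ → Bool := onCell 1610612736 469762048 536870912 536870912 1046898278 26843546
    (rowNX 3 0 true true true .dn 3 1 3 (qsf 1610612736 469762048 536870912 536870912 3) ndN2q3 ndN2q1 pcN3 Cut.none Ext.none)

def k0_pp_313 : ∃ t, chk3 f_pp_313 t 1 1 1 = true :=
  ⟨(l 4), by decide +kernel⟩

theorem c_pp_313 : CertNX 1610612736 469762048 536870912 536870912 1046898278 26843546 3 true true true .dn 3 1 3
    ndN2q3 ndN2q1 pcN3 Cut.none Ext.none :=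
  certNX0 (fam := true) (s1 := true) (s2 := true) (a := 3) (b := 1) (c := 3) (cn := .dn) (n1 := ndN2q3) (n2 := ndN2q1) (pc := pcN3) (cut := Cut.none) (xt := Ext.none) (P1 := 1610612736) (W1 := 469762048) (P2 := 536870912) (W2 := 536870912) (P3 := 1046898278) (W3 := 26843546) (N0 := 3)
    rfl k0_pp_313

noncomputable def f_pm_001 : ℕ → ℕ → ℕ → ℕ → Bool := onCell 67108864 469762048 67108864 469762048 1046898278 26843546
    (rowNX 3 0 true true false .up 0 0 1 (qsf 67108864 469762048 67108864 469762048 1) ndN2q0 ndN2q0 pcN1 Cut.none Ext.none)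

def k0_pm_001 : ∃ t, chk3 f_pm_001 t 1 1 1 = true :=
  ⟨(l 3), by decide +kernel⟩

theorem c_pm_001 : CertNX 67108864 469762048 67108864 469762048 1046898278 26843546 3 true true false .up 0 0 1
    ndN2q0 ndN2q0 pcN1 Cut.none Ext.none :=
  certNX0 (fam := true) (s1 := true) (s2 := false) (a := 0) (b := 0) (c := 1) (cn := .up) (n1 := ndN2q0) (n2 := ndN2q0) (pc := pcN1) (cut := Cut.none) (xt := Ext.none) (P1 := 67108864) (W1 := 469762048) (P2 := 67108864) (W2 := 469762048) (P3 := 1046898278) (W3 := 26843546) (N0 := 3)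
    rfl k0_pm_001

noncomputable def f_pm_011 : ℕ → ℕ → ℕ → ℕ → Bool := onCell 67108864 469762048 536870912 536870912 1046898278 26843546
    (rowNX 3 1 true true false .pnn 0 1 1 (qsf 67108864 469762048 536870912 536870912 1) ndN2q0 ndN2q1 pcN1 Cut.none Ext.none)

def k0_pm_011 : ∃ t, chk3 f_pm_011 t 1 1 1 = true :=
  ⟨(l 3), by decide +kernel⟩

theorem c_pm_011 : CertNX 67108864 469762048 536870912 536870912 1046898278 26843546 3 true true false .pnn 0 1 1
    ndN2q0 ndN2q1 pcN1 Cut.none Ext.none :=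
  certNX1 (fam := true) (s1 := true) (s2 := false) (a := 0) (b := 1) (c := 1) (cn := .pnn) (n1 := ndN2q0) (n2 := ndN2q1) (pc := pcN1) (cut := Cut.none) (xt := Ext.none) (P1 := 67108864) (W1 := 469762048) (P2 := 536870912) (W2 := 536870912) (P3 := 1046898278) (W3 := 26843546) (N0 := 3)
    rfl (fun _ => rfl) k0_pm_011

noncomputable def f_pm_012 : ℕ → ℕ → ℕ → ℕ → Bool := onCell 1073741824 536870912 536870912 536870912 1046898278 26843546
    (rowNX 3 2 true true false .pnp 0 1 2 (qsf 67108864 469762048 536870912 536870912 2) ndN2q0 ndN2q1 pcN2 Cut.none Ext.none)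

def k0_pm_012 : ∃ t, chk3 f_pm_012 t 1 1 1 = true :=
  ⟨(a (a (l 3) (a (a (a (l 3) (a (l 3) (a (b (l 3) (l 3)) (a (b (l 3) (b (l 3) (l 3))) (b (b (l 2) (l 16777216)) (b (b (l 16740768) (b (l 16559304) (l 16363016))) (b (c (l 218671813527) (b (l 16032176) (l 15642640))) (b (c (b (l 15376040) (l 15155848)) (l 15150424)) (a (a (a (l 3) (c (l 14819576) (l 14750528))) (l 14785648)) (l 14786792)))))))))) (b (l 16777216) (b (b (l 16740768) (l 16472856)) (b (l 15855608) (b (b (l 15361688) (l 15001976)) (l 14811608)))))) (b (l 16777216) (b (b (l 16740768) (l 16472856)) (b (l 15855624) (b (l 15266016) (a (b (l 14957464) (a (l 14732096) (l 14750152))) (l 14859632)))))))) (b (a (l 16777216) (l 2)) (b (b (l 16740768) (l 16472856)) (b (a (l 15855624) (l 15855624)) (a (b (l 15266032) (l 14859648)) (l 15064600)))))), by decide +kernel⟩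

theorem c_pm_012 : CertNX 67108864 469762048 536870912 536870912 1046898278 26843546 3 true true false .pnp 0 1 2
    ndN2q0 ndN2q1 pcN2 Cut.none Ext.none :=
  certNX2 (fam := true) (s1 := true) (s2 := false) (a := 0) (b := 1) (c := 2) (cn := .pnp) (n1 := ndN2q0) (n2 := ndN2q1) (pc := pcN2) (cut := Cut.none) (xt := Ext.none) (P1 := 67108864) (W1 := 469762048) (P2 := 536870912) (W2 := 536870912) (P3 := 1046898278) (W3 := 26843546) (N0 := 3)
    rfl (fun _ => rfl) k0_pm_012

noncomputable def f_pm_022_a : ℕ → ℕ → ℕ → ℕ → Bool := onCell 67108864 469762048 0 420477299 1046898278 26843546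
    (rowNX 3 0 true true false .pp 0 2 2 (qsf 67108864 469762048 0 420477299 2) ndN2q0 ndN2q2a pcN2 Cut.none Ext.none)

def k0_pm_022_a : ∃ t, chk3 f_pm_022_a t 4 2 1 = true :=
  ⟨(a (a (b (a (b (a (c (l 14599704) (l 14521384)) (l 14893384)) (a (c (l 14620624) (l 14543080)) (l 14863264))) (l 15245512)) (a (b (a (l 14719096) (b (l 14879200) (l 14951424))) (l 15072128)) (b (c (l 15420048) (l 15370936)) (a (b (l 15282224) (l 15406416)) (b (l 15593768) (l 15640192)))))) (a (b (c (l 16071056) (l 16089056)) (c (l 15921872) (l 15960880))) (b (l 16362984) (l 16360560)))) (b (a (l 16406848) (l 16317024)) (a (l 16405368) (l 16315872)))), by decide +kernel⟩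

def k1_pm_022_a : ∃ t, chk3 f_pm_022_a t 8 6 1 = true :=
  ⟨(a (b (a (l 15271160) (b (l 15511232) (l 15891608))) (a (c (l 15852656) (l 15846536)) (c (l 16127776) (l 16091080)))) (a (b (a (b (l 16014464) (l 16104784)) (a (l 16123848) (l 16374952))) (a (b (l 16379424) (l 16595376)) (b (a (l 16499544) (l 16512968)) (l 16649216)))) (b (l 16433024) (b (l 16506928) (a (l 16669272) (l 16600000)))))), by decide +kernel⟩

def k2_pm_022_a : ∃ t, chk3 f_pm_022_a t 8 14 1 = true :=
  ⟨(a (a (b (a (b (l 16283352) (c (c (l 16485224) (l 16525312)) (l 16270168))) (c (l 16566872) (l 16500736))) (c (b (a (l 16210904) (c (l 16287696) (l 16323392))) (a (b (l 16290256) (a (l 16111872) (l 16167096))) (l 15989296))) (b (a (l 16266232) (b (l 16369584) (l 16253720))) (a (c (l 16067344) (l 16038904)) (l 16052544))))) (b (c (l 16489856) (l 16463464)) (a (b (l 16247072) (c (c (l 16025744) (l 16013256)) (l 15931904))) (l 16014608)))) (a (b (c (b (l 16537688) (l 16337728)) (b (l 16529464) (l 16322232)))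 (c (l 15984048) (l 15955832))) (b (c (l 16523224) (l 16413040)) (l 16172496)))), by decide +kernel⟩

def k3_pm_022_a : ∃ t, chk3 f_pm_022_a t 8 30 1 = true :=
  ⟨(a (a (c (a (b (a (l 15859120) (b (l 16054768) (l 15964504))) (a (c (b (l 15995152) (l 15946288)) (l 15963856)) (l 15853552))) (c (b (l 15929304) (a (l 15628072) (b (l 15746664) (l 15646736)))) (b (l 15915576) (a (l 15758384) (l 15678456))))) (a (b (a (l 16028352) (b (l 16054264) (l 15960560))) (a (b (l 15964928) (l 15913712)) (l 15823664))) (b (l 15747760) (a (b (l 15781840) (l 15685136)) (b (l 15703112) (l 15598544)))))) (c (b (a (l 15686600) (c (l 15702400) (l 15683632))) (c (l 15421928) (l 15505232))) (b (a (l 15757896) (l 15655536)) (a (l 15538912) (l 15401992))))) (a (a (b (l 15595392) (c (c (l 15359064) (l 15333888)) (l 15295936))) (c (l 15438944) (l 15391072))) (l 15645664))), by decide +kernel⟩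

def k4_pm_022_a : ∃ t, chk3 f_pm_022_a t 8 31 1 = true :=
  ⟨(b (a (a (a (c (a (l 15939432) (b (c (l 15755416) (l 15738760)) (l 15727624))) (c (l 15697776) (l 15724488))) (c (a (c (l 15518848) (l 15583064)) (l 15364032)) (c (l 15364904) (l 15385536)))) (c (a (a (b (c (l 15467424) (l 15444912)) (l 15352144)) (c (l 15317280) (l 15313248))) (l 15218520)) (a (a (b (l 15410504) (l 15302648)) (l 15212088)) (l 15163424)))) (a (c (a (l 14918400) (a (l 14999984) (l 15021488))) (a (l 15026096) (l 14697792))) (a (c (l 15066184) (l 15091128)) (l 15292984)))) (a (a (c (a (l 15725736) (c (a (l 15534152) (b (l 15367560) (l 15324888))) (a (l 15513240) (l 15328280)))) (a (l 15821984) (a (l 15481248) (b (l 15306504) (l 15261888))))) (b (c (a (c (l 15218760) (l 15191680)) (c (l 15057192) (l 15026912))) (a (l 15003464) (l 14980624))) (c (a (c (l 15119488) (l 15090616)) (a (c (l 14980440) (l 14948848)) (l 14883680))) (a (l 14983560) (a (l 14900560) (l 14816392)))))) (a (c (a (l 14836272) (c (l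 14754784) (l 14718680))) (a (l 14766968) (l 14663920))) (c (a (c (l 14863808) (l 14829552)) (l 14823032)) (a (l 14777624) (l 14947728)))))), by decide +kernel⟩

def k5_pm_022_a : ∃ t, chk3 f_pm_022_a t 9 3 1 = true :=
  ⟨(b (a (l 16561320) (l 16471784)) (b (a (b (a (b (l 16688696) (l 16759424)) (l 16716376)) (a (b (a (l 16533872) (l 16651448)) (l 16370256)) (l 16582952))) (b (l 16661096) (l 16549696))) (a (b (a (l 15976896) (a (l 16187680) (l 16235784))) (c (l 15432296) (l 15472840))) (b (l 16321056) (a (a (l 15868536) (l 16023024)) (l 16064088)))))), by decide +kernel⟩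

def k6_pm_022_a : ∃ t, chk3 f_pm_022_a t 5 1 1 = true :=
  ⟨(b (a (b (l 16371032) (a (l 16351032) (l 16388000))) (b (l 16400216) (l 16398760))) (b (a (a (l 16507136) (l 16544064)) (l 16554784)) (a (b (a (l 16674248) (l 16599960)) (a (l 16220936) (l 16211440))) (b (l 16713464) (l 16262632))))), by decide +kernel⟩

def k7_pm_022_a : ∃ t, chk3 f_pm_022_a t 3 1 1 = true :=
  ⟨(b (a (b (a (l 16400216) (l 16400216)) (a (l 16398760) (l 16398760))) (l 2)) (a (b (l 16554784) (b (l 16713464) (l 16262632))) (b (a (l 16554784) (l 2)) (b (l 16713464) (l 16262632))))), by decide +kernel⟩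

theorem s8_pm_022_a : ∃ t, chk3 f_pm_022_a t 8 15 1 = true := ex3_b k3_pm_022_a k4_pm_022_a

theorem s9_pm_022_a : ∃ t, chk3 f_pm_022_a t 8 7 1 = true := ex3_b k2_pm_022_a s8_pm_022_a

theorem s10_pm_022_a : ∃ t, chk3 f_pm_022_a t 8 3 1 = true := ex3_b k1_pm_022_a s9_pm_022_a

theorem s11_pm_022_a : ∃ t, chk3 f_pm_022_a t 4 3 1 = true := ex3_a s10_pm_022_a k5_pm_022_a

theorem s12_pm_022_a : ∃ t, chk3 f_pm_022_a t 4 1 1 = true := ex3_b k0_pm_022_a s11_pm_022_a

theorem s13_pm_022_a : ∃ t, chk3 f_pm_022_a t 2 1 1 = true := ex3_a s12_pm_022_a k6_pm_022_a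

theorem s14_pm_022_a : ∃ t, chk3 f_pm_022_a t 1 1 1 = true := ex3_a s13_pm_022_a k7_pm_022_a

theorem c_pm_022_a : CertNX 67108864 469762048 0 420477299 1046898278 26843546 3 true true false .pp 0 2 2
    ndN2q0 ndN2q2a pcN2 Cut.none Ext.none :=
  certNX0 (fam := true) (s1 := true) (s2 := false) (a := 0) (b := 2) (c := 2) (cn := .pp) (n1 := ndN2q0) (n2 := ndN2q2a) (pc := pcN2) (cut := Cut.none) (xt := Ext.none) (P1 := 67108864) (W1 := 469762048) (P2 := 0) (W2 := 420477299) (P3 := 1046898278) (W3 := 26843546) (N0 := 3)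
    rfl s14_pm_022_a

noncomputable def f_pm_022_b : ℕ → ℕ → ℕ → ℕ → Bool := onCell 67108864 469762048 1239849684 370763052 1046898278 26843546
    (rowNX 3 0 true true false .pp 0 2 2 (qsf 67108864 469762048 1239849684 370763052 2) ndN2q0 ndN2q2b pcN2 Cut.none Ext.none)

def k0_pm_022_b : ∃ t, chk3 f_pm_022_b t 1 1 1 = true :=
  ⟨(a (b (a (a (a (b (b (a (b (a (c (l 14639664) (l 14562872)) (l 14956296)) (l 14874392)) (c (l 15560808) (l 15516904))) (a (c (l 15018176) (l 14953880)) (c (l 15712808) (l 15675176)))) (b (a (l 15009920) (l 15715048)) (l 15194688))) (c (b (a (b (l 16064544) (a (l 16227592) (l 16528728))) (l 16413368)) (l 16270872)) (b (a (b (l 16107488) (l 16364224)) (l 16468312)) (l 16429696)))) (b (b (a (l 16561904) (l 16470688)) (a (l 16751512) (l 16661664))) (l 16735584))) (b (a (b (l 16525816) (l 16719864)) (b (l 16555232) (l 16750264))) (a (b (l 16746064) (l 16746064)) (l 16777216)))) (b (a (a (a (a (l 15009920) (l 15715048)) (a (l 16391448) (l 16643792))) (l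 16735584)) (a (b (l 16746064) (l 2)) (l 2))) (a (a (a (a (l 15009920) (l 15715048)) (l 2)) (l 2)) (l 2)))) (a (b (b (b (a (l 16555232) (l 16555232)) (a (l 16750264) (l 2))) (l 2)) (l 2)) (l 2))), by decide +kernel⟩

theorem c_pm_022_b : CertNX 67108864 469762048 1239849684 370763052 1046898278 26843546 3 true true false .pp 0 2 2
    ndN2q0 ndN2q2b pcN2 Cut.none Ext.none :=
  certNX0 (fam := true) (s1 := true) (s2 := false) (a := 0) (b := 2) (c := 2) (cn := .pp) (n1 := ndN2q0) (n2 := ndN2q2b) (pc := pcN2) (cut := Cut.none) (xt := Ext.none) (P1 := 67108864) (W1 := 469762048) (P2 := 1239849684) (W2 := 370763052) (P3 := 1046898278) (W3 := 26843546) (N0 := 3)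
    rfl k0_pm_022_b

noncomputable def f_pm_023_a : ℕ → ℕ → ℕ → ℕ → Bool := onCell 67108864 469762048 0 420477299 1046898278 26843546
    (rowNX 3 0 true true false .up 0 2 3 (qsf 67108864 469762048 0 420477299 3) ndN2q0 ndN2q2a pcN3 Cut.none Ext.none)

def k0_pm_023_a : ∃ t, chk3 f_pm_023_a t 1 1 1 = true :=
  ⟨(a (l 1) (b (a (b (l 306585965031) (l 16356816)) (a (b (l 16400216) (l 16398760)) (b (l 16400216) (l 16398760)))) (a (b (l 16554784) (l 1)) (b (a (l 16554784) (l 16554784)) (b (l 16713464) (l 16262632)))))), by decide +kernel⟩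

theorem c_pm_023_a : CertNX 67108864 469762048 0 420477299 1046898278 26843546 3 true true false .up 0 2 3
    ndN2q0 ndN2q2a pcN3 Cut.none Ext.none :=
  certNX0 (fam := true) (s1 := true) (s2 := false) (a := 0) (b := 2) (c := 3) (cn := .up) (n1 := ndN2q0) (n2 := ndN2q2a) (pc := pcN3) (cut := Cut.none) (xt := Ext.none) (P1 := 67108864) (W1 := 469762048) (P2 := 0) (W2 := 420477299) (P3 := 1046898278) (W3 := 26843546) (N0 := 3)
    rfl k0_pm_023_a

noncomputable def f_pm_023_b : ℕ → ℕ → ℕ → ℕ → Bool := onCell 67108864 469762048 1610612736 536870912 1046898278 26843546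
    (rowNX 3 1 true true false .up 0 2 3 (qsf 67108864 469762048 1239849684 370763052 3) ndN2q0 ndN2q2b pcN3 Cut.none Ext.none)

def k0_pm_023_b : ∃ t, chk3 f_pm_023_b t 1 1 1 = true :=
  ⟨(b (a (a (b (a (a (b (l 15362456) (l 15299544)) (b (l 16518088) (l 16518088))) (b (l 16735584) (l 16735584))) (a (l 2) (b (l 16735584) (l 2)))) (b (b (a (l 16746064) (l 16777184)) (l 16762032)) (b (l 16919312) (a (l 16746064) (l 16777216))))) (b (a (b (a (l 16714248) (b (l 16536280) (l 16593048))) (l 16726368)) (b (a (b (l 1) (l 16595504)) (l 1)) (a (b (l 16540168) (l 16615384)) (b (l 1) (l 16560864))))) (b (a (l 16777216) (b (a (l 16732592) (l 16552328)) (l 16709544))) (c (l 16770104) (l 16769848))))) (l 4)), by decide +kernel⟩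

theorem c_pm_023_b : CertNX 67108864 469762048 1239849684 370763052 1046898278 26843546 3 true true false .up 0 2 3
    ndN2q0 ndN2q2b pcN3 Cut.none Ext.none :=
  certNX1 (fam := true) (s1 := true) (s2 := false) (a := 0) (b := 2) (c := 3) (cn := .up) (n1 := ndN2q0) (n2 := ndN2q2b) (pc := pcN3) (cut := Cut.none) (xt := Ext.none) (P1 := 67108864) (W1 := 469762048) (P2 := 1239849684) (W2 := 370763052) (P3 := 1046898278) (W3 := 26843546) (N0 := 3)
    rfl (fun _ => rfl) k0_pm_023_b

noncomputable def f_pm_033 : ℕ → ℕ → ℕ → ℕ → Bool := onCell 67108864 469762048 1610612736 536870912 1046898278 26843546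
    (rowNX 3 1 true true false .pnn 0 3 3 (qsf 67108864 469762048 1610612736 469762048 3) ndN2q0 ndN2q3 pcN3 Cut.none Ext.none)

def k0_pm_033 : ∃ t, chk3 f_pm_033 t 1 1 1 = true :=
  ⟨(b (a (a (b (a (a (b (l 15362456) (l 15299544)) (b (l 1) (l 16518088))) (l 136935349255)) (a (b (a (l 15152744) (l 16455176)) (a (c (l 15386008) (l 15332472)) (c (l 16522528) (l 16513584)))) (b (l 16735584) (l 16693640)))) (b (l 1) (b (l 16908832) (a (l 16746064) (l 16777216))))) (l 1)) (l 4)), by decide +kernel⟩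

theorem c_pm_033 : CertNX 67108864 469762048 1610612736 469762048 1046898278 26843546 3 true true false .pnn 0 3 3
    ndN2q0 ndN2q3 pcN3 Cut.none Ext.none :=
  certNX1 (fam := true) (s1 := true) (s2 := false) (a := 0) (b := 3) (c := 3) (cn := .pnn) (n1 := ndN2q0) (n2 := ndN2q3) (pc := pcN3) (cut := Cut.none) (xt := Ext.none) (P1 := 67108864) (W1 := 469762048) (P2 := 1610612736) (W2 := 469762048) (P3 := 1046898278) (W3 := 26843546) (N0 := 3)
    rfl (fun _ => rfl) k0_pm_033

noncomputable def f_pm_101 : ℕ → ℕ → ℕ → ℕ → Bool := onCell 536870912 536870912 67108864 469762048 1046898278 26843546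
    (rowNX 3 2 true true false .npn 1 0 1 (qsf 536870912 536870912 67108864 469762048 1) ndN2q1 ndN2q0 pcN1 Cut.none Ext.none)

def k0_pm_101 : ∃ t, chk3 f_pm_101 t 1 1 1 = true :=
  ⟨(l 3), by decide +kernel⟩

theorem c_pm_101 : CertNX 536870912 536870912 67108864 469762048 1046898278 26843546 3 true true false .npn 1 0 1
    ndN2q1 ndN2q0 pcN1 Cut.none Ext.none :=
  certNX2 (fam := true) (s1 := true) (s2 := false) (a := 1) (b := 0) (c := 1) (cn := .npn) (n1 := ndN2q1) (n2 := ndN2q0) (pc := pcN1) (cut := Cut.none) (xt := Ext.none) (P1 := 536870912) (W1 := 536870912) (P2 := 67108864) (W2 := 469762048) (P3 := 1046898278) (W3 := 26843546) (N0 := 3)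
    rfl (fun _ => rfl) k0_pm_101

noncomputable def f_pm_102 : ℕ → ℕ → ℕ → ℕ → Bool := onCell 536870912 536870912 1073741824 536870912 1046898278 26843546
    (rowNX 3 1 true true false .npp 1 0 2 (qsf 536870912 536870912 67108864 469762048 2) ndN2q1 ndN2q0 pcN2 Cut.none Ext.none)

def k0_pm_102 : ∃ t, chk3 f_pm_102 t 1 1 1 = true :=
  ⟨(b (b (l 3) (b (b (b (l 3) (b (l 3) (b (a (l 3) (l 3)) (b (a (l 3) (a (l 3) (l 3))) (a (c (l 16777216) (l 16777216)) (a (a (l 16740768) (a (l 16559304) (l 16363016))) (a (c (l 218671813527) (a (l 16032176) (l 15642640))) (a (c (a (l 15376040) (l 15155848)) (l 15150424)) (b (b (b (l 3) (c (l 14819576) (l 14750528))) (l 14785648)) (l 14786792)))))))))) (a (l 16777216) (a (a (l 16740768) (l 16472856)) (a (l 15855608) (a (a (l 15361688) (l 15001976)) (l 14811608)))))) (a (l 16777216) (a (a (l 16740768) (l 16472856)) (a (l 15855624) (a (l 15266016) (b (a (l 14957464) (b (l 14732096) (l 14750152))) (l 14859632)))))))) (a (b (l 16777216) (l 2)) (a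 (a (l 16740768) (l 16472856)) (a (b (l 15855624) (l 15855624)) (b (a (l 15266032) (l 14859648)) (l 15064600)))))), by decide +kernel⟩

theorem c_pm_102 : CertNX 536870912 536870912 67108864 469762048 1046898278 26843546 3 true true false .npp 1 0 2
    ndN2q1 ndN2q0 pcN2 Cut.none Ext.none :=
  certNX1 (fam := true) (s1 := true) (s2 := false) (a := 1) (b := 0) (c := 2) (cn := .npp) (n1 := ndN2q1) (n2 := ndN2q0) (pc := pcN2) (cut := Cut.none) (xt := Ext.none) (P1 := 536870912) (W1 := 536870912) (P2 := 67108864) (W2 := 469762048) (P3 := 1046898278) (W3 := 26843546) (N0 := 3)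
    rfl (fun _ => rfl) k0_pm_102

noncomputable def f_pm_112 : ℕ → ℕ → ℕ → ℕ → Bool := onCell 536870912 536870912 1073741824 536870912 1046898278 26843546
    (rowNX 3 1 true true false .dn 1 1 2 (qsf 536870912 536870912 536870912 536870912 2) ndN2q1 ndN2q1 pcN2 Cut.none Ext.none)

def k0_pm_112 : ∃ t, chk3 f_pm_112 t 1 1 1 = true :=
  ⟨(b (b (l 3) (a (b (b (b (l 3) (b (l 3) (b (l 3) (b (l 3) (c (l 16777216) (l 16777216)))))) (l 16777216)) (l 16777216)) (b (l 1) (a (l 388190351191) (l 1))))) (a (b (a (a (b (l 16759640) (l 16592560)) (l 16765952)) (l 16777216)) (a (a (b (l 16172024) (l 15468072)) (b (l 16592560) (l 16172024))) (b (l 16765952) (l 16634296)))) (a (a (l 16740768) (l 16472856)) (a (l 382820168183) (l 423620775447))))), by decide +kernel⟩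

theorem c_pm_112 : CertNX 536870912 536870912 536870912 536870912 1046898278 26843546 3 true true false .dn 1 1 2
    ndN2q1 ndN2q1 pcN2 Cut.none Ext.none :=
  certNX1 (fam := true) (s1 := true) (s2 := false) (a := 1) (b := 1) (c := 2) (cn := .dn) (n1 := ndN2q1) (n2 := ndN2q1) (pc := pcN2) (cut := Cut.none) (xt := Ext.none) (P1 := 536870912) (W1 := 536870912) (P2 := 536870912) (W2 := 536870912) (P3 := 1046898278) (W3 := 26843546) (N0 := 3)
    rfl (fun _ => rfl) k0_pm_112

noncomputable def f_pm_113 : ℕ → ℕ → ℕ → ℕ → Bool := onCell 536870912 536870912 536870912 536870912 1046898278 26843546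
    (rowNX 3 0 true true false .nn 1 1 3 (qsf 536870912 536870912 536870912 536870912 3) ndN2q1 ndN2q1 pcN3 Cut.none Ext.none)

def k0_pm_113 : ∃ t, chk3 f_pm_113 t 1 1 1 = true :=
  ⟨(a (b (l 16777216) (b (l 343093194583) (b (l 15855624) (l 15064600)))) (b (a (l 343093194583) (a (l 15855624) (l 15064600))) (a (b (b (l 16557752) (l 16296984)) (a (l 15434416) (l 15196440))) (b (b (l 15434416) (l 15196440)) (b (a (l 15025832) (a (l 14499696) (l 14149520))) (a (b (l 14499696) (l 14149520)) (b (l 14014144) (a (l 13946912) (b (l 14191952) (a (l 14405336) (b (l 15324088) (a (l 15938472) (b (l 16775392) (a (l 16749424) (b (l 16776232) (a (l 16763232) (b (l 16776688) (b (l 16778480) (a (l 16766864) (a (l 16773728) (l 16778224))))))))))))))))))))), by decide +kernel⟩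

theorem c_pm_113 : CertNX 536870912 536870912 536870912 536870912 1046898278 26843546 3 true true false .nn 1 1 3
    ndN2q1 ndN2q1 pcN3 Cut.none Ext.none :=
  certNX0 (fam := true) (s1 := true) (s2 := false) (a := 1) (b := 1) (c := 3) (cn := .nn) (n1 := ndN2q1) (n2 := ndN2q1) (pc := pcN3) (cut := Cut.none) (xt := Ext.none) (P1 := 536870912) (W1 := 536870912) (P2 := 536870912) (W2 := 536870912) (P3 := 1046898278) (W3 := 26843546) (N0 := 3)
    rfl k0_pm_113

noncomputable def f_pm_123_a : ℕ → ℕ → ℕ → ℕ → Bool := onCell 1610612736 536870912 0 420477299 1046898278 26843546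
    (rowNX 3 2 true true false .npn 1 2 3 (qsf 536870912 536870912 0 420477299 3) ndN2q1 ndN2q2a pcN3 Cut.none Ext.none)

def k0_pm_123_a : ∃ t, chk3 f_pm_123_a t 1 1 1 = true :=
  ⟨(a (b (a (l 1) (a (b (l 16400216) (l 16398760)) (c (l 16312192) (l 16320520)))) (a (b (l 318397277271) (b (l 16650552) (l 16262632))) (b (a (l 16554784) (l 16554784)) (a (b (l 16713464) (l 16262632)) (b (l 16713464) (l 16262632)))))) (a (a (b (a (b (l 4) (l 16398760)) (l 4)) (b (a (l 16554784) (l 16554784)) (b (a (l 16713464) (l 16713464)) (l 16262632)))) (b (l 4) (b (l 4) (a (l 4) (l 4))))) (l 4))), by decide +kernel⟩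

theorem c_pm_123_a : CertNX 536870912 536870912 0 420477299 1046898278 26843546 3 true true false .npn 1 2 3
    ndN2q1 ndN2q2a pcN3 Cut.none Ext.none :=
  certNX2 (fam := true) (s1 := true) (s2 := false) (a := 1) (b := 2) (c := 3) (cn := .npn) (n1 := ndN2q1) (n2 := ndN2q2a) (pc := pcN3) (cut := Cut.none) (xt := Ext.none) (P1 := 536870912) (W1 := 536870912) (P2 := 0) (W2 := 420477299) (P3 := 1046898278) (W3 := 26843546) (N0 := 3)
    rfl (fun _ => rfl) k0_pm_123_a

noncomputable def f_pm_123_b : ℕ → ℕ → ℕ → ℕ → Bool := onCell 536870912 536870912 1239849684 370763052 1046898278 26843546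
    (rowNX 3 0 true true false .npn 1 2 3 (qsf 536870912 536870912 1239849684 370763052 3) ndN2q1 ndN2q2b pcN3 Cut.none Ext.none)

def k0_pm_123_b : ∃ t, chk3 f_pm_123_b t 1 1 1 = true :=
  ⟨(a (b (a (a (b (c (c (l 16491280) (l 16489224)) (c (l 16487128) (l 16485008))) (l 4)) (l 4)) (l 4)) (l 4)) (l 4)), by decide +kernel⟩

theorem c_pm_123_b : CertNX 536870912 536870912 1239849684 370763052 1046898278 26843546 3 true true false .npn 1 2 3
    ndN2q1 ndN2q2b pcN3 Cut.none Ext.none :=
  certNX0 (fam := true) (s1 := true) (s2 := false) (a := 1) (b := 2) (c := 3) (cn := .npn) (n1 := ndN2q1) (n2 := ndN2q2b) (pc := pcN3) (cut := Cut.none) (xt := Ext.none) (P1 := 536870912) (W1 := 536870912) (P2 := 1239849684) (W2 := 370763052) (P3 := 1046898278) (W3 := 26843546) (N0 := 3)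
    rfl k0_pm_123_b

noncomputable def f_pm_133 : ℕ → ℕ → ℕ → ℕ → Bool := onCell 536870912 536870912 1610612736 469762048 1046898278 26843546
    (rowNX 3 0 true true false .dn 1 3 3 (qsf 536870912 536870912 1610612736 469762048 3) ndN2q1 ndN2q3 pcN3 Cut.none Ext.none)

def k0_pm_133 : ∃ t, chk3 f_pm_133 t 1 1 1 = true :=
  ⟨(l 4), by decide +kernel⟩

theorem c_pm_133 : CertNX 536870912 536870912 1610612736 469762048 1046898278 26843546 3 true true false .dn 1 3 3
    ndN2q1 ndN2q3 pcN3 Cut.none Ext.none :=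
  certNX0 (fam := true) (s1 := true) (s2 := false) (a := 1) (b := 3) (c := 3) (cn := .dn) (n1 := ndN2q1) (n2 := ndN2q3) (pc := pcN3) (cut := Cut.none) (xt := Ext.none) (P1 := 536870912) (W1 := 536870912) (P2 := 1610612736) (W2 := 469762048) (P3 := 1046898278) (W3 := 26843546) (N0 := 3)
    rfl k0_pm_133

noncomputable def f_pm_202_a : ℕ → ℕ → ℕ → ℕ → Bool := onCell 0 420477299 67108864 469762048 1046898278 26843546
    (rowNX 3 0 true true false .pp 2 0 2 (qsf 0 420477299 67108864 469762048 2) ndN2q2a ndN2q0 pcN2 Cut.none Ext.none)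

def k0_pm_202_a : ∃ t, chk3 f_pm_202_a t 2 2 1 = true :=
  ⟨(b (b (b (a (b (a (b (c (l 14599704) (l 14521384)) (l 14893384)) (b (c (l 14620624) (l 14543080)) (l 14863264))) (l 15245512)) (b (a (b (l 14719096) (a (l 14879200) (l 14951424))) (l 15072128)) (a (c (l 15420048) (l 15370936)) (b (a (l 15282224) (l 15406416)) (a (l 15593768) (l 15640192)))))) (b (a (c (l 16071056) (l 16089056)) (c (l 15921872) (l 15960880))) (a (l 16362984) (l 16360560)))) (a (b (l 16406848) (l 16317024)) (b (l 16405368) (l 16315872)))) (b (a (l 16371032) (b (l 16351032) (l 16388000))) (a (l 16400216) (l 16398760)))), by decide +kernel⟩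

def k1_pm_202_a : ∃ t, chk3 f_pm_202_a t 6 8 1 = true :=
  ⟨(b (a (b (l 15271160) (a (l 15511232) (l 15891608))) (b (c (l 15852656) (l 15846536)) (c (l 16127776) (l 16091080)))) (b (a (b (a (l 16014464) (l 16104784)) (b (l 16123848) (l 16374952))) (b (a (l 16379424) (l 16595376)) (a (b (l 16499544) (l 16512968)) (l 16649216)))) (a (l 16433024) (a (l 16506928) (b (l 16669272) (l 16600000)))))), by decide +kernel⟩

def k2_pm_202_a : ∃ t, chk3 f_pm_202_a t 14 8 1 = true :=
  ⟨(b (b (a (b (a (l 16283352) (c (c (l 16485224) (l 16525312)) (l 16270168))) (c (l 16566872) (l 16500736))) (c (a (b (l 16210904) (c (l 16287696) (l 16323392))) (b (a (l 16290256) (b (l 16111872) (l 16167096))) (l 15989296))) (a (b (l 16266232) (a (l 16369584) (l 16253720))) (b (c (l 16067344) (l 16038904)) (l 16052544))))) (a (c (l 16489856) (l 16463464)) (b (a (l 16247072) (c (c (l 16025744) (l 16013256)) (l 15931904))) (l 16014608)))) (b (a (c (a (l 16537688) (l 16337728)) (a (l 16529464) (l 16322232)))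 (c (l 15984048) (l 15955832))) (a (c (l 16523224) (l 16413040)) (l 16172496)))), by decide +kernel⟩

def k3_pm_202_a : ∃ t, chk3 f_pm_202_a t 30 8 1 = true :=
  ⟨(b (b (c (b (a (b (c (l 16115672) (l 16106064)) (a (l 16054768) (l 15964504))) (b (c (a (l 15995152) (l 15946288)) (l 15963856)) (l 15853552))) (c (a (l 15929304) (b (l 15628072) (a (l 15746664) (l 15646736)))) (a (l 15915576) (b (l 15758384) (l 15678456))))) (b (a (b (l 16028352) (a (l 16054264) (l 15960560))) (b (a (l 15964928) (l 15913712)) (l 15823664))) (a (l 15747760) (b (a (l 15781840) (l 15685136)) (a (l 15703112) (l 15598544)))))) (c (a (b (l 15686600) (c (l 15702400) (l 15683632))) (c (l 15421928) (l 15505232))) (a (b (l 15757896) (l 15655536)) (b (l 15538912) (l 15401992))))) (b (b (a (l 15595392) (c (c (l 15359064) (l 15333888)) (l 15295936))) (c (l 15438944) (l 15391072))) (l 15645664))), by decide +kernel⟩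

def k4_pm_202_a : ∃ t, chk3 f_pm_202_a t 31 8 1 = true :=
  ⟨(a (b (b (b (c (b (l 15939432) (a (c (l 15755416) (l 15738760)) (l 15727624))) (c (l 15697776) (l 15724488))) (c (a (l 15499168) (c (l 15320880) (l 15488160))) (c (l 15364904) (l 15385536)))) (c (b (b (a (c (l 15467424) (l 15444912)) (l 15352144)) (c (l 15317280) (l 15313248))) (l 15218520)) (b (b (a (l 15410504) (l 15302648)) (l 15212088)) (l 15163424)))) (b (c (b (l 14918400) (b (l 14999984) (l 15021488))) (b (l 15026096) (l 14697792))) (b (c (l 15066184) (l 15091128)) (l 15292984)))) (b (b (c (b (l 15725736) (c (b (l 15534152) (a (l 15367560) (l 15324888))) (b (l 15513240) (l 15328280)))) (b (l 15821984) (b (l 15481248) (a (l 15306504) (l 15261888))))) (a (c (b (c (l 15218760) (l 15191680)) (c (l 15057192) (l 15026912))) (b (l 15003464) (l 14980624))) (c (b (c (l 15119488) (l 15090616)) (b (c (l 14980440) (l 14948848)) (l 14883680))) (b (l 14983560) (b (l 14900560) (l 14816392)))))) (b (c (b (l 14836272) (c (l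 14754784) (l 14718680))) (b (l 14766968) (l 14663920))) (c (b (c (l 14863808) (l 14829552)) (l 14823032)) (b (l 14777624) (l 14947728)))))), by decide +kernel⟩

def k5_pm_202_a : ∃ t, chk3 f_pm_202_a t 3 9 1 = true :=
  ⟨(a (b (l 16561320) (l 16471784)) (a (b (a (b (a (l 16688696) (l 16759424)) (l 16716376)) (b (a (b (l 16533872) (l 16651448)) (l 16370256)) (l 16582952))) (a (l 16661096) (l 16549696))) (b (a (b (l 15976896) (b (l 16187680) (l 16235784))) (c (l 15432296) (l 15472840))) (a (l 16321056) (b (b (l 15868536) (l 16023024)) (l 16064088)))))), by decide +kernel⟩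

def k6_pm_202_a : ∃ t, chk3 f_pm_202_a t 3 5 1 = true :=
  ⟨(a (b (b (l 16507136) (l 16544064)) (l 16554784)) (b (a (b (l 16674248) (l 16599960)) (b (l 16220936) (l 16211440))) (a (l 16713464) (l 16262632)))), by decide +kernel⟩

def k7_pm_202_a : ∃ t, chk3 f_pm_202_a t 1 3 1 = true :=
  ⟨(a (b (a (b (l 16400216) (l 16400216)) (b (l 16398760) (l 16398760))) (l 2)) (b (a (l 16554784) (a (l 16713464) (l 16262632))) (a (b (l 16554784) (l 2)) (a (l 16713464) (l 16262632))))), by decide +kernel⟩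

theorem s8_pm_202_a : ∃ t, chk3 f_pm_202_a t 15 8 1 = true := ex3_a k3_pm_202_a k4_pm_202_a

theorem s9_pm_202_a : ∃ t, chk3 f_pm_202_a t 7 8 1 = true := ex3_a k2_pm_202_a s8_pm_202_a

theorem s10_pm_202_a : ∃ t, chk3 f_pm_202_a t 3 8 1 = true := ex3_a k1_pm_202_a s9_pm_202_a

theorem s11_pm_202_a : ∃ t, chk3 f_pm_202_a t 3 4 1 = true := ex3_b s10_pm_202_a k5_pm_202_a

theorem s12_pm_202_a : ∃ t, chk3 f_pm_202_a t 3 2 1 = true := ex3_b s11_pm_202_a k6_pm_202_a

theorem s13_pm_202_a : ∃ t, chk3 f_pm_202_a t 1 2 1 = true := ex3_a k0_pm_202_a s12_pm_202_a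

theorem s14_pm_202_a : ∃ t, chk3 f_pm_202_a t 1 1 1 = true := ex3_b s13_pm_202_a k7_pm_202_a

theorem c_pm_202_a : CertNX 0 420477299 67108864 469762048 1046898278 26843546 3 true true false .pp 2 0 2
    ndN2q2a ndN2q0 pcN2 Cut.none Ext.none :=
  certNX0 (fam := true) (s1 := true) (s2 := false) (a := 2) (b := 0) (c := 2) (cn := .pp) (n1 := ndN2q2a) (n2 := ndN2q0) (pc := pcN2) (cut := Cut.none) (xt := Ext.none) (P1 := 0) (W1 := 420477299) (P2 := 67108864) (W2 := 469762048) (P3 := 1046898278) (W3 := 26843546) (N0 := 3)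
    rfl s14_pm_202_a

noncomputable def f_pm_202_b : ℕ → ℕ → ℕ → ℕ → Bool := onCell 1239849684 370763052 67108864 469762048 1046898278 26843546
    (rowNX 3 0 true true false .pp 2 0 2 (qsf 1239849684 370763052 67108864 469762048 2) ndN2q2b ndN2q0 pcN2 Cut.none Ext.none)

def k0_pm_202_b : ∃ t, chk3 f_pm_202_b t 1 1 1 = true :=
  ⟨(b (a (b (b (b (a (a (b (a (b (c (l 14639664) (l 14562872)) (l 14956296)) (l 14874392)) (c (l 15560808) (l 15516904))) (b (c (l 15018176) (l 14953880)) (c (l 15712808) (l 15675176)))) (a (b (l 15009920) (l 15715048)) (l 15194688))) (c (a (b (a (l 16064544) (b (l 16227592) (l 16528728))) (l 16413368)) (l 16270872)) (a (b (a (l 16107488) (l 16364224)) (l 16468312)) (l 16429696)))) (a (a (b (l 16561904) (l 16470688)) (b (l 16751512) (l 16661664))) (l 16735584))) (a (b (a (l 16525816) (l 16719864)) (a (l 16555232) (l 16750264))) (b (a (l 16746064) (l 16746064)) (l 16777216)))) (a (b (b (b (b (l 15009920) (l 15715048)) (b (l 16391448) (l 16643792))) (l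 16735584)) (b (a (l 16746064) (l 2)) (l 2))) (b (b (b (b (l 15009920) (l 15715048)) (l 2)) (l 2)) (l 2)))) (b (a (a (a (b (l 16555232) (l 16555232)) (b (l 16750264) (l 2))) (l 2)) (l 2)) (l 2))), by decide +kernel⟩

theorem c_pm_202_b : CertNX 1239849684 370763052 67108864 469762048 1046898278 26843546 3 true true false .pp 2 0 2
    ndN2q2b ndN2q0 pcN2 Cut.none Ext.none :=
  certNX0 (fam := true) (s1 := true) (s2 := false) (a := 2) (b := 0) (c := 2) (cn := .pp) (n1 := ndN2q2b) (n2 := ndN2q0) (pc := pcN2) (cut := Cut.none) (xt := Ext.none) (P1 := 1239849684) (W1 := 370763052) (P2 := 67108864) (W2 := 469762048) (P3 := 1046898278) (W3 := 26843546) (N0 := 3)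
    rfl k0_pm_202_b

noncomputable def f_pm_203_a : ℕ → ℕ → ℕ → ℕ → Bool := onCell 0 420477299 67108864 469762048 1046898278 26843546
    (rowNX 3 0 true true false .up 2 0 3 (qsf 0 420477299 67108864 469762048 3) ndN2q2a ndN2q0 pcN3 Cut.none Ext.none)

def k0_pm_203_a : ∃ t, chk3 f_pm_203_a t 1 1 1 = true :=
  ⟨(b (l 1) (a (b (a (l 306585965031) (l 16356816)) (b (a (l 16400216) (l 16398760)) (a (l 16400216) (l 16398760)))) (b (a (l 16554784) (l 1)) (a (b (l 16554784) (l 16554784)) (a (l 16713464) (l 16262632)))))), by decide +kernel⟩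

theorem c_pm_203_a : CertNX 0 420477299 67108864 469762048 1046898278 26843546 3 true true false .up 2 0 3
    ndN2q2a ndN2q0 pcN3 Cut.none Ext.none :=
  certNX0 (fam := true) (s1 := true) (s2 := false) (a := 2) (b := 0) (c := 3) (cn := .up) (n1 := ndN2q2a) (n2 := ndN2q0) (pc := pcN3) (cut := Cut.none) (xt := Ext.none) (P1 := 0) (W1 := 420477299) (P2 := 67108864) (W2 := 469762048) (P3 := 1046898278) (W3 := 26843546) (N0 := 3)
    rfl k0_pm_203_a

noncomputable def f_pm_203_b : ℕ → ℕ → ℕ → ℕ → Bool := onCell 1610612736 536870912 67108864 469762048 1046898278 26843546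
    (rowNX 3 2 true true false .up 2 0 3 (qsf 1239849684 370763052 67108864 469762048 3) ndN2q2b ndN2q0 pcN3 Cut.none Ext.none)

def k0_pm_203_b : ∃ t, chk3 f_pm_203_b t 1 1 1 = true :=
  ⟨(a (b (b (a (b (b (a (l 15362456) (l 15299544)) (a (l 16518088) (l 16518088))) (a (l 16735584) (l 16735584))) (b (l 2) (a (l 16735584) (l 2)))) (a (a (b (l 16746064) (l 16777184)) (l 16762032)) (a (l 16919312) (b (l 16746064) (l 16777216))))) (a (b (a (b (l 16714248) (a (l 16536280) (l 16593048))) (l 16726368)) (a (b (a (l 1) (l 16595504)) (l 1)) (b (a (l 16540168) (l 16615384)) (a (l 1) (l 16560864))))) (a (b (l 16777216) (a (b (l 16732592) (l 16552328)) (l 16709544))) (c (l 16770104) (l 16769848))))) (l 4)), by decide +kernel⟩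

theorem c_pm_203_b : CertNX 1239849684 370763052 67108864 469762048 1046898278 26843546 3 true true false .up 2 0 3
    ndN2q2b ndN2q0 pcN3 Cut.none Ext.none :=
  certNX2 (fam := true) (s1 := true) (s2 := false) (a := 2) (b := 0) (c := 3) (cn := .up) (n1 := ndN2q2b) (n2 := ndN2q0) (pc := pcN3) (cut := Cut.none) (xt := Ext.none) (P1 := 1239849684) (W1 := 370763052) (P2 := 67108864) (W2 := 469762048) (P3 := 1046898278) (W3 := 26843546) (N0 := 3)
    rfl (fun _ => rfl) k0_pm_203_b

noncomputable def f_pm_213_a : ℕ → ℕ → ℕ → ℕ → Bool := onCell 0 420477299 1610612736 536870912 1046898278 26843546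
    (rowNX 3 1 true true false .pnn 2 1 3 (qsf 0 420477299 536870912 536870912 3) ndN2q2a ndN2q1 pcN3 Cut.none Ext.none)

def k0_pm_213_a : ∃ t, chk3 f_pm_213_a t 1 1 1 = true :=
  ⟨(b (a (b (l 1) (b (a (l 16400216) (l 16398760)) (c (l 16312192) (l 16320520)))) (b (a (l 318397277271) (a (l 16650552) (l 16262632))) (a (b (l 16554784) (l 16554784)) (b (a (l 16713464) (l 16262632)) (a (l 16713464) (l 16262632)))))) (b (b (a (b (a (l 4) (l 16398760)) (l 4)) (a (b (l 16554784) (l 16554784)) (a (b (l 16713464) (l 16713464)) (l 16262632)))) (a (l 4) (a (l 4) (b (l 4) (l 4))))) (l 4))), by decide +kernel⟩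

theorem c_pm_213_a : CertNX 0 420477299 536870912 536870912 1046898278 26843546 3 true true false .pnn 2 1 3
    ndN2q2a ndN2q1 pcN3 Cut.none Ext.none :=
  certNX1 (fam := true) (s1 := true) (s2 := false) (a := 2) (b := 1) (c := 3) (cn := .pnn) (n1 := ndN2q2a) (n2 := ndN2q1) (pc := pcN3) (cut := Cut.none) (xt := Ext.none) (P1 := 0) (W1 := 420477299) (P2 := 536870912) (W2 := 536870912) (P3 := 1046898278) (W3 := 26843546) (N0 := 3)
    rfl (fun _ => rfl) k0_pm_213_a

noncomputable def f_pm_213_b : ℕ → ℕ → ℕ → ℕ → Bool := onCell 1239849684 370763052 536870912 536870912 1046898278 26843546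
    (rowNX 3 0 true true false .pnn 2 1 3 (qsf 1239849684 370763052 536870912 536870912 3) ndN2q2b ndN2q1 pcN3 Cut.none Ext.none)

def k0_pm_213_b : ∃ t, chk3 f_pm_213_b t 1 1 1 = true :=
  ⟨(b (a (b (b (a (c (c (l 16491280) (l 16489224)) (c (l 16487128) (l 16485008))) (l 4)) (l 4)) (l 4)) (l 4)) (l 4)), by decide +kernel⟩

theorem c_pm_213_b : CertNX 1239849684 370763052 536870912 536870912 1046898278 26843546 3 true true false .pnn 2 1 3
    ndN2q2b ndN2q1 pcN3 Cut.none Ext.none :=
  certNX0 (fam := true) (s1 := true) (s2 := false) (a := 2) (b := 1) (c := 3) (cn := .pnn) (n1 := ndN2q2b) (n2 := ndN2q1) (pc := pcN3) (cut := Cut.none) (xt := Ext.none) (P1 := 1239849684) (W1 := 370763052) (P2 := 536870912) (W2 := 536870912) (P3 := 1046898278) (W3 := 26843546) (N0 := 3)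
    rfl k0_pm_213_b

noncomputable def f_pm_303 : ℕ → ℕ → ℕ → ℕ → Bool := onCell 1610612736 536870912 67108864 469762048 1046898278 26843546
    (rowNX 3 2 true true false .npn 3 0 3 (qsf 1610612736 469762048 67108864 469762048 3) ndN2q3 ndN2q0 pcN3 Cut.none Ext.none)

def k0_pm_303 : ∃ t, chk3 f_pm_303 t 1 1 1 = true :=
  ⟨(a (b (b (a (b (b (a (l 15362456) (l 15299544)) (a (l 1) (l 16518088))) (l 136935349255)) (b (a (b (l 15152744) (l 16455176)) (b (c (l 15386008) (l 15332472)) (c (l 16522528) (l 16513584)))) (a (l 16735584) (l 16693640)))) (a (l 1) (a (l 16908832) (b (l 16746064) (l 16777216))))) (l 1)) (l 4)), by decide +kernel⟩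

theorem c_pm_303 : CertNX 1610612736 469762048 67108864 469762048 1046898278 26843546 3 true true false .npn 3 0 3
    ndN2q3 ndN2q0 pcN3 Cut.none Ext.none :=
  certNX2 (fam := true) (s1 := true) (s2 := false) (a := 3) (b := 0) (c := 3) (cn := .npn) (n1 := ndN2q3) (n2 := ndN2q0) (pc := pcN3) (cut := Cut.none) (xt := Ext.none) (P1 := 1610612736) (W1 := 469762048) (P2 := 67108864) (W2 := 469762048) (P3 := 1046898278) (W3 := 26843546) (N0 := 3)
    rfl (fun _ => rfl) k0_pm_303

noncomputable def f_pm_313 : ℕ → ℕ → ℕ → ℕ → Bool := onCell 1610612736 469762048 536870912 536870912 1046898278 26843546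
    (rowNX 3 0 true true false .dn 3 1 3 (qsf 1610612736 469762048 536870912 536870912 3) ndN2q3 ndN2q1 pcN3 Cut.none Ext.none)

def k0_pm_313 : ∃ t, chk3 f_pm_313 t 1 1 1 = true :=
  ⟨(l 4), by decide +kernel⟩

theorem c_pm_313 : CertNX 1610612736 469762048 536870912 536870912 1046898278 26843546 3 true true false .dn 3 1 3
    ndN2q3 ndN2q1 pcN3 Cut.none Ext.none :=
  certNX0 (fam := true) (s1 := true) (s2 := false) (a := 3) (b := 1) (c := 3) (cn := .dn) (n1 := ndN2q3) (n2 := ndN2q1) (pc := pcN3) (cut := Cut.none) (xt := Ext.none) (P1 := 1610612736) (W1 := 469762048) (P2 := 536870912) (W2 := 536870912) (P3 := 1046898278) (W3 := 26843546) (N0 := 3)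
    rfl k0_pm_313

noncomputable def f_mm_001 : ℕ → ℕ → ℕ → ℕ → Bool := onCell 67108864 469762048 67108864 469762048 1046898278 26843546
    (rowNX 3 0 true false false .up 0 0 1 (qsf 67108864 469762048 67108864 469762048 1) ndN2q0 ndN2q0 pcN1 Cut.none Ext.none)

def k0_mm_001 : ∃ t, chk3 f_mm_001 t 1 1 1 = true :=
  ⟨(l 4), by decide +kernel⟩

theorem c_mm_001 : CertNX 67108864 469762048 67108864 469762048 1046898278 26843546 3 true false false .up 0 0 1
    ndN2q0 ndN2q0 pcN1 Cut.none Ext.none :=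
  certNX0 (fam := true) (s1 := false) (s2 := false) (a := 0) (b := 0) (c := 1) (cn := .up) (n1 := ndN2q0) (n2 := ndN2q0) (pc := pcN1) (cut := Cut.none) (xt := Ext.none) (P1 := 67108864) (W1 := 469762048) (P2 := 67108864) (W2 := 469762048) (P3 := 1046898278) (W3 := 26843546) (N0 := 3)
    rfl k0_mm_001

noncomputable def f_mm_011 : ℕ → ℕ → ℕ → ℕ → Bool := onCell 67108864 469762048 536870912 536870912 1046898278 26843546
    (rowNX 3 0 true false false .pnn 0 1 1 (qsf 67108864 469762048 536870912 536870912 1) ndN2q0 ndN2q1 pcN1 Cut.none Ext.none)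

def k0_mm_011 : ∃ t, chk3 f_mm_011 t 1 1 1 = true :=
  ⟨(l 4), by decide +kernel⟩

theorem c_mm_011 : CertNX 67108864 469762048 536870912 536870912 1046898278 26843546 3 true false false .pnn 0 1 1
    ndN2q0 ndN2q1 pcN1 Cut.none Ext.none :=
  certNX0 (fam := true) (s1 := false) (s2 := false) (a := 0) (b := 1) (c := 1) (cn := .pnn) (n1 := ndN2q0) (n2 := ndN2q1) (pc := pcN1) (cut := Cut.none) (xt := Ext.none) (P1 := 67108864) (W1 := 469762048) (P2 := 536870912) (W2 := 536870912) (P3 := 1046898278) (W3 := 26843546) (N0 := 3)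
    rfl k0_mm_011

noncomputable def f_mm_012 : ℕ → ℕ → ℕ → ℕ → Bool := onCell 67108864 469762048 536870912 536870912 1046898278 26843546
    (rowNX 3 0 true false false .pnp 0 1 2 (qsf 67108864 469762048 536870912 536870912 2) ndN2q0 ndN2q1 pcN2 Cut.none Ext.none)

def k0_mm_012 : ∃ t, chk3 f_mm_012 t 1 1 1 = true :=
  ⟨(l 4), by decide +kernel⟩

theorem c_mm_012 : CertNX 67108864 469762048 536870912 536870912 1046898278 26843546 3 true false false .pnp 0 1 2
    ndN2q0 ndN2q1 pcN2 Cut.none Ext.none :=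
  certNX0 (fam := true) (s1 := false) (s2 := false) (a := 0) (b := 1) (c := 2) (cn := .pnp) (n1 := ndN2q0) (n2 := ndN2q1) (pc := pcN2) (cut := Cut.none) (xt := Ext.none) (P1 := 67108864) (W1 := 469762048) (P2 := 536870912) (W2 := 536870912) (P3 := 1046898278) (W3 := 26843546) (N0 := 3)
    rfl k0_mm_012

noncomputable def f_mm_022_a : ℕ → ℕ → ℕ → ℕ → Bool := onCell 67108864 469762048 0 420477299 1046898278 26843546
    (rowNX 3 0 true false false .pp 0 2 2 (qsf 67108864 469762048 0 420477299 2) ndN2q0 ndN2q2a pcN2 Cut.none Ext.none)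

def k0_mm_022_a : ∃ t, chk3 f_mm_022_a t 1 1 1 = true :=
  ⟨(l 5), by decide +kernel⟩

theorem c_mm_022_a : CertNX 67108864 469762048 0 420477299 1046898278 26843546 3 true false false .pp 0 2 2
    ndN2q0 ndN2q2a pcN2 Cut.none Ext.none :=
  certNX0 (fam := true) (s1 := false) (s2 := false) (a := 0) (b := 2) (c := 2) (cn := .pp) (n1 := ndN2q0) (n2 := ndN2q2a) (pc := pcN2) (cut := Cut.none) (xt := Ext.none) (P1 := 67108864) (W1 := 469762048) (P2 := 0) (W2 := 420477299) (P3 := 1046898278) (W3 := 26843546) (N0 := 3)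
    rfl k0_mm_022_a

noncomputable def f_mm_022_b : ℕ → ℕ → ℕ → ℕ → Bool := onCell 67108864 469762048 1239849684 370763052 1046898278 26843546
    (rowNX 3 0 true false false .pp 0 2 2 (qsf 67108864 469762048 1239849684 370763052 2) ndN2q0 ndN2q2b pcN2 Cut.none Ext.none)

def k0_mm_022_b : ∃ t, chk3 f_mm_022_b t 1 1 1 = true :=
  ⟨(l 5), by decide +kernel⟩

theorem c_mm_022_b : CertNX 67108864 469762048 1239849684 370763052 1046898278 26843546 3 true false false .pp 0 2 2
    ndN2q0 ndN2q2b pcN2 Cut.none Ext.none :=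
  certNX0 (fam := true) (s1 := false) (s2 := false) (a := 0) (b := 2) (c := 2) (cn := .pp) (n1 := ndN2q0) (n2 := ndN2q2b) (pc := pcN2) (cut := Cut.none) (xt := Ext.none) (P1 := 67108864) (W1 := 469762048) (P2 := 1239849684) (W2 := 370763052) (P3 := 1046898278) (W3 := 26843546) (N0 := 3)
    rfl k0_mm_022_b

noncomputable def f_mm_023_a : ℕ → ℕ → ℕ → ℕ → Bool := onCell 67108864 469762048 0 420477299 1046898278 26843546
    (rowNX 3 0 true false false .up 0 2 3 (qsf 67108864 469762048 0 420477299 3) ndN2q0 ndN2q2a pcN3 Cut.none Ext.none)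

def k0_mm_023_a : ∃ t, chk3 f_mm_023_a t 1 1 1 = true :=
  ⟨(l 5), by decide +kernel⟩

theorem c_mm_023_a : CertNX 67108864 469762048 0 420477299 1046898278 26843546 3 true false false .up 0 2 3
    ndN2q0 ndN2q2a pcN3 Cut.none Ext.none :=
  certNX0 (fam := true) (s1 := false) (s2 := false) (a := 0) (b := 2) (c := 3) (cn := .up) (n1 := ndN2q0) (n2 := ndN2q2a) (pc := pcN3) (cut := Cut.none) (xt := Ext.none) (P1 := 67108864) (W1 := 469762048) (P2 := 0) (W2 := 420477299) (P3 := 1046898278) (W3 := 26843546) (N0 := 3)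
    rfl k0_mm_023_a

noncomputable def f_mm_023_b : ℕ → ℕ → ℕ → ℕ → Bool := onCell 67108864 469762048 1239849684 370763052 1046898278 26843546
    (rowNX 3 0 true false false .up 0 2 3 (qsf 67108864 469762048 1239849684 370763052 3) ndN2q0 ndN2q2b pcN3 Cut.none Ext.none)

def k0_mm_023_b : ∃ t, chk3 f_mm_023_b t 1 1 1 = true :=
  ⟨(l 5), by decide +kernel⟩

theorem c_mm_023_b : CertNX 67108864 469762048 1239849684 370763052 1046898278 26843546 3 true false false .up 0 2 3
    ndN2q0 ndN2q2b pcN3 Cut.none Ext.none :=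
  certNX0 (fam := true) (s1 := false) (s2 := false) (a := 0) (b := 2) (c := 3) (cn := .up) (n1 := ndN2q0) (n2 := ndN2q2b) (pc := pcN3) (cut := Cut.none) (xt := Ext.none) (P1 := 67108864) (W1 := 469762048) (P2 := 1239849684) (W2 := 370763052) (P3 := 1046898278) (W3 := 26843546) (N0 := 3)
    rfl k0_mm_023_b

noncomputable def f_mm_033 : ℕ → ℕ → ℕ → ℕ → Bool := onCell 67108864 469762048 1610612736 469762048 1046898278 26843546
    (rowNX 3 0 true false false .pnn 0 3 3 (qsf 67108864 469762048 1610612736 469762048 3) ndN2q0 ndN2q3 pcN3 Cut.none Ext.none)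

def k0_mm_033 : ∃ t, chk3 f_mm_033 t 1 1 1 = true :=
  ⟨(l 4), by decide +kernel⟩

theorem c_mm_033 : CertNX 67108864 469762048 1610612736 469762048 1046898278 26843546 3 true false false .pnn 0 3 3
    ndN2q0 ndN2q3 pcN3 Cut.none Ext.none :=
  certNX0 (fam := true) (s1 := false) (s2 := false) (a := 0) (b := 3) (c := 3) (cn := .pnn) (n1 := ndN2q0) (n2 := ndN2q3) (pc := pcN3) (cut := Cut.none) (xt := Ext.none) (P1 := 67108864) (W1 := 469762048) (P2 := 1610612736) (W2 := 469762048) (P3 := 1046898278) (W3 := 26843546) (N0 := 3)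
    rfl k0_mm_033

noncomputable def f_mm_101 : ℕ → ℕ → ℕ → ℕ → Bool := onCell 536870912 536870912 67108864 469762048 1046898278 26843546
    (rowNX 3 0 true false false .npn 1 0 1 (qsf 536870912 536870912 67108864 469762048 1) ndN2q1 ndN2q0 pcN1 Cut.none Ext.none)

def k0_mm_101 : ∃ t, chk3 f_mm_101 t 1 1 1 = true :=
  ⟨(l 4), by decide +kernel⟩

theorem c_mm_101 : CertNX 536870912 536870912 67108864 469762048 1046898278 26843546 3 true false false .npn 1 0 1
    ndN2q1 ndN2q0 pcN1 Cut.none Ext.none :=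
  certNX0 (fam := true) (s1 := false) (s2 := false) (a := 1) (b := 0) (c := 1) (cn := .npn) (n1 := ndN2q1) (n2 := ndN2q0) (pc := pcN1) (cut := Cut.none) (xt := Ext.none) (P1 := 536870912) (W1 := 536870912) (P2 := 67108864) (W2 := 469762048) (P3 := 1046898278) (W3 := 26843546) (N0 := 3)
    rfl k0_mm_101

noncomputable def f_mm_102 : ℕ → ℕ → ℕ → ℕ → Bool := onCell 536870912 536870912 67108864 469762048 1046898278 26843546
    (rowNX 3 0 true false false .npp 1 0 2 (qsf 536870912 536870912 67108864 469762048 2) ndN2q1 ndN2q0 pcN2 Cut.none Ext.none)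

def k0_mm_102 : ∃ t, chk3 f_mm_102 t 1 1 1 = true :=
  ⟨(l 4), by decide +kernel⟩

theorem c_mm_102 : CertNX 536870912 536870912 67108864 469762048 1046898278 26843546 3 true false false .npp 1 0 2
    ndN2q1 ndN2q0 pcN2 Cut.none Ext.none :=
  certNX0 (fam := true) (s1 := false) (s2 := false) (a := 1) (b := 0) (c := 2) (cn := .npp) (n1 := ndN2q1) (n2 := ndN2q0) (pc := pcN2) (cut := Cut.none) (xt := Ext.none) (P1 := 536870912) (W1 := 536870912) (P2 := 67108864) (W2 := 469762048) (P3 := 1046898278) (W3 := 26843546) (N0 := 3)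
    rfl k0_mm_102

noncomputable def f_mm_112 : ℕ → ℕ → ℕ → ℕ → Bool := onCell 536870912 536870912 536870912 536870912 1046898278 26843546
    (rowNX 3 0 true false false .dn 1 1 2 (qsf 536870912 536870912 536870912 536870912 2) ndN2q1 ndN2q1 pcN2 Cut.none Ext.none)

def k0_mm_112 : ∃ t, chk3 f_mm_112 t 1 1 1 = true :=
  ⟨(l 4), by decide +kernel⟩

theorem c_mm_112 : CertNX 536870912 536870912 536870912 536870912 1046898278 26843546 3 true false false .dn 1 1 2
    ndN2q1 ndN2q1 pcN2 Cut.none Ext.none :=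
  certNX0 (fam := true) (s1 := false) (s2 := false) (a := 1) (b := 1) (c := 2) (cn := .dn) (n1 := ndN2q1) (n2 := ndN2q1) (pc := pcN2) (cut := Cut.none) (xt := Ext.none) (P1 := 536870912) (W1 := 536870912) (P2 := 536870912) (W2 := 536870912) (P3 := 1046898278) (W3 := 26843546) (N0 := 3)
    rfl k0_mm_112

noncomputable def f_mm_113 : ℕ → ℕ → ℕ → ℕ → Bool := onCell 536870912 536870912 536870912 536870912 1046898278 26843546
    (rowNX 3 0 true false false .nn 1 1 3 (qsf 536870912 536870912 536870912 536870912 3) ndN2q1 ndN2q1 pcN3 Cut.none Ext.none)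

def k0_mm_113 : ∃ t, chk3 f_mm_113 t 1 1 1 = true :=
  ⟨(l 4), by decide +kernel⟩

theorem c_mm_113 : CertNX 536870912 536870912 536870912 536870912 1046898278 26843546 3 true false false .nn 1 1 3
    ndN2q1 ndN2q1 pcN3 Cut.none Ext.none :=
  certNX0 (fam := true) (s1 := false) (s2 := false) (a := 1) (b := 1) (c := 3) (cn := .nn) (n1 := ndN2q1) (n2 := ndN2q1) (pc := pcN3) (cut := Cut.none) (xt := Ext.none) (P1 := 536870912) (W1 := 536870912) (P2 := 536870912) (W2 := 536870912) (P3 := 1046898278) (W3 := 26843546) (N0 := 3)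
    rfl k0_mm_113

noncomputable def f_mm_123_a : ℕ → ℕ → ℕ → ℕ → Bool := onCell 536870912 536870912 0 420477299 1046898278 26843546
    (rowNX 3 0 true false false .npn 1 2 3 (qsf 536870912 536870912 0 420477299 3) ndN2q1 ndN2q2a pcN3 Cut.none Ext.none)

def k0_mm_123_a : ∃ t, chk3 f_mm_123_a t 1 1 1 = true :=
  ⟨(l 4), by decide +kernel⟩

theorem c_mm_123_a : CertNX 536870912 536870912 0 420477299 1046898278 26843546 3 true false false .npn 1 2 3
    ndN2q1 ndN2q2a pcN3 Cut.none Ext.none :=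
  certNX0 (fam := true) (s1 := false) (s2 := false) (a := 1) (b := 2) (c := 3) (cn := .npn) (n1 := ndN2q1) (n2 := ndN2q2a) (pc := pcN3) (cut := Cut.none) (xt := Ext.none) (P1 := 536870912) (W1 := 536870912) (P2 := 0) (W2 := 420477299) (P3 := 1046898278) (W3 := 26843546) (N0 := 3)
    rfl k0_mm_123_a

noncomputable def f_mm_123_b : ℕ → ℕ → ℕ → ℕ → Bool := onCell 536870912 536870912 1239849684 370763052 1046898278 26843546
    (rowNX 3 0 true false false .npn 1 2 3 (qsf 536870912 536870912 1239849684 370763052 3) ndN2q1 ndN2q2b pcN3 Cut.none Ext.none)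

def k0_mm_123_b : ∃ t, chk3 f_mm_123_b t 1 1 1 = true :=
  ⟨(l 4), by decide +kernel⟩

theorem c_mm_123_b : CertNX 536870912 536870912 1239849684 370763052 1046898278 26843546 3 true false false .npn 1 2 3
    ndN2q1 ndN2q2b pcN3 Cut.none Ext.none :=
  certNX0 (fam := true) (s1 := false) (s2 := false) (a := 1) (b := 2) (c := 3) (cn := .npn) (n1 := ndN2q1) (n2 := ndN2q2b) (pc := pcN3) (cut := Cut.none) (xt := Ext.none) (P1 := 536870912) (W1 := 536870912) (P2 := 1239849684) (W2 := 370763052) (P3 := 1046898278) (W3 := 26843546) (N0 := 3)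
    rfl k0_mm_123_b

noncomputable def f_mm_133 : ℕ → ℕ → ℕ → ℕ → Bool := onCell 536870912 536870912 1610612736 469762048 1046898278 26843546
    (rowNX 3 0 true false false .dn 1 3 3 (qsf 536870912 536870912 1610612736 469762048 3) ndN2q1 ndN2q3 pcN3 Cut.none Ext.none)

def k0_mm_133 : ∃ t, chk3 f_mm_133 t 1 1 1 = true :=
  ⟨(l 4), by decide +kernel⟩

theorem c_mm_133 : CertNX 536870912 536870912 1610612736 469762048 1046898278 26843546 3 true false false .dn 1 3 3
    ndN2q1 ndN2q3 pcN3 Cut.none Ext.none :=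
  certNX0 (fam := true) (s1 := false) (s2 := false) (a := 1) (b := 3) (c := 3) (cn := .dn) (n1 := ndN2q1) (n2 := ndN2q3) (pc := pcN3) (cut := Cut.none) (xt := Ext.none) (P1 := 536870912) (W1 := 536870912) (P2 := 1610612736) (W2 := 469762048) (P3 := 1046898278) (W3 := 26843546) (N0 := 3)
    rfl k0_mm_133

noncomputable def f_mm_202_a : ℕ → ℕ → ℕ → ℕ → Bool := onCell 0 420477299 67108864 469762048 1046898278 26843546
    (rowNX 3 0 true false false .pp 2 0 2 (qsf 0 420477299 67108864 469762048 2) ndN2q2a ndN2q0 pcN2 Cut.none Ext.none)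

def k0_mm_202_a : ∃ t, chk3 f_mm_202_a t 1 1 1 = true :=
  ⟨(b (b (a (b (b (a (b (a (b (b (l 16015584) (l 16233408)) (l 16399024)) (b (c (l 16053688) (l 16045256)) (c (l 16381400) (l 16374592)))) (a (c (l 16219392) (l 16203272)) (l 4))) (l 4)) (l 4)) (l 4)) (l 4)) (l 4)) (l 4)), by decide +kernel⟩

theorem c_mm_202_a : CertNX 0 420477299 67108864 469762048 1046898278 26843546 3 true false false .pp 2 0 2
    ndN2q2a ndN2q0 pcN2 Cut.none Ext.none :=
  certNX0 (fam := true) (s1 := false) (s2 := false) (a := 2) (b := 0) (c := 2) (cn := .pp) (n1 := ndN2q2a) (n2 := ndN2q0) (pc := pcN2) (cut := Cut.none) (xt := Ext.none) (P1 := 0) (W1 := 420477299) (P2 := 67108864) (W2 := 469762048) (P3 := 1046898278) (W3 := 26843546) (N0 := 3)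
    rfl k0_mm_202_a

noncomputable def f_mm_202_b : ℕ → ℕ → ℕ → ℕ → Bool := onCell 1239849684 370763052 67108864 469762048 1046898278 26843546
    (rowNX 3 0 true false false .pp 2 0 2 (qsf 1239849684 370763052 67108864 469762048 2) ndN2q2b ndN2q0 pcN2 Cut.none Ext.none)

def k0_mm_202_b : ∃ t, chk3 f_mm_202_b t 1 1 1 = true :=
  ⟨(b (a (b (b (a (b (a (b (a (b (c (l 15857048) (l 15878368)) (c (l 16296528) (l 16286544))) (c (l 15697944) (l 15710168))) (a (c (l 16287536) (l 16278600)) (l 4))) (b (a (c (l 15540144) (l 15497872)) (l 4)) (l 4))) (l 4)) (l 4)) (l 4)) (l 4)) (l 4)) (l 4)), by decide +kernel⟩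

theorem c_mm_202_b : CertNX 1239849684 370763052 67108864 469762048 1046898278 26843546 3 true false false .pp 2 0 2
    ndN2q2b ndN2q0 pcN2 Cut.none Ext.none :=
  certNX0 (fam := true) (s1 := false) (s2 := false) (a := 2) (b := 0) (c := 2) (cn := .pp) (n1 := ndN2q2b) (n2 := ndN2q0) (pc := pcN2) (cut := Cut.none) (xt := Ext.none) (P1 := 1239849684) (W1 := 370763052) (P2 := 67108864) (W2 := 469762048) (P3 := 1046898278) (W3 := 26843546) (N0 := 3)
    rfl k0_mm_202_b

noncomputable def f_mm_203_a : ℕ → ℕ → ℕ → ℕ → Bool := onCell 0 420477299 1610612736 536870912 1046898278 26843546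
    (rowNX 3 1 true false false .up 2 0 3 (qsf 0 420477299 67108864 469762048 3) ndN2q2a ndN2q0 pcN3 Cut.none Ext.none)

def k0_mm_203_a : ∃ t, chk3 f_mm_203_a t 1 1 1 = true :=
  ⟨(l 4), by decide +kernel⟩

theorem c_mm_203_a : CertNX 0 420477299 67108864 469762048 1046898278 26843546 3 true false false .up 2 0 3
    ndN2q2a ndN2q0 pcN3 Cut.none Ext.none :=
  certNX1 (fam := true) (s1 := false) (s2 := false) (a := 2) (b := 0) (c := 3) (cn := .up) (n1 := ndN2q2a) (n2 := ndN2q0) (pc := pcN3) (cut := Cut.none) (xt := Ext.none) (P1 := 0) (W1 := 420477299) (P2 := 67108864) (W2 := 469762048) (P3 := 1046898278) (W3 := 26843546) (N0 := 3)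
    rfl (fun _ => rfl) k0_mm_203_a

noncomputable def f_mm_203_b : ℕ → ℕ → ℕ → ℕ → Bool := onCell 1239849684 370763052 1610612736 536870912 1046898278 26843546
    (rowNX 3 1 true false false .up 2 0 3 (qsf 1239849684 370763052 67108864 469762048 3) ndN2q2b ndN2q0 pcN3 Cut.none Ext.none)

def k0_mm_203_b : ∃ t, chk3 f_mm_203_b t 1 1 1 = true :=
  ⟨(l 4), by decide +kernel⟩

theorem c_mm_203_b : CertNX 1239849684 370763052 67108864 469762048 1046898278 26843546 3 true false false .up 2 0 3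
    ndN2q2b ndN2q0 pcN3 Cut.none Ext.none :=
  certNX1 (fam := true) (s1 := false) (s2 := false) (a := 2) (b := 0) (c := 3) (cn := .up) (n1 := ndN2q2b) (n2 := ndN2q0) (pc := pcN3) (cut := Cut.none) (xt := Ext.none) (P1 := 1239849684) (W1 := 370763052) (P2 := 67108864) (W2 := 469762048) (P3 := 1046898278) (W3 := 26843546) (N0 := 3)
    rfl (fun _ => rfl) k0_mm_203_b

noncomputable def f_mm_213_a : ℕ → ℕ → ℕ → ℕ → Bool := onCell 0 420477299 536870912 536870912 1046898278 26843546
    (rowNX 3 0 true false false .pnn 2 1 3 (qsf 0 420477299 536870912 536870912 3) ndN2q2a ndN2q1 pcN3 Cut.none Ext.none)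

def k0_mm_213_a : ∃ t, chk3 f_mm_213_a t 1 1 1 = true :=
  ⟨(l 4), by decide +kernel⟩

theorem c_mm_213_a : CertNX 0 420477299 536870912 536870912 1046898278 26843546 3 true false false .pnn 2 1 3
    ndN2q2a ndN2q1 pcN3 Cut.none Ext.none :=
  certNX0 (fam := true) (s1 := false) (s2 := false) (a := 2) (b := 1) (c := 3) (cn := .pnn) (n1 := ndN2q2a) (n2 := ndN2q1) (pc := pcN3) (cut := Cut.none) (xt := Ext.none) (P1 := 0) (W1 := 420477299) (P2 := 536870912) (W2 := 536870912) (P3 := 1046898278) (W3 := 26843546) (N0 := 3)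
    rfl k0_mm_213_a

noncomputable def f_mm_213_b : ℕ → ℕ → ℕ → ℕ → Bool := onCell 1239849684 370763052 536870912 536870912 1046898278 26843546
    (rowNX 3 0 true false false .pnn 2 1 3 (qsf 1239849684 370763052 536870912 536870912 3) ndN2q2b ndN2q1 pcN3 Cut.none Ext.none)

def k0_mm_213_b : ∃ t, chk3 f_mm_213_b t 1 1 1 = true :=
  ⟨(l 4), by decide +kernel⟩

theorem c_mm_213_b : CertNX 1239849684 370763052 536870912 536870912 1046898278 26843546 3 true false false .pnn 2 1 3
    ndN2q2b ndN2q1 pcN3 Cut.none Ext.none :=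
  certNX0 (fam := true) (s1 := false) (s2 := false) (a := 2) (b := 1) (c := 3) (cn := .pnn) (n1 := ndN2q2b) (n2 := ndN2q1) (pc := pcN3) (cut := Cut.none) (xt := Ext.none) (P1 := 1239849684) (W1 := 370763052) (P2 := 536870912) (W2 := 536870912) (P3 := 1046898278) (W3 := 26843546) (N0 := 3)
    rfl k0_mm_213_b

noncomputable def f_mm_303 : ℕ → ℕ → ℕ → ℕ → Bool := onCell 1610612736 469762048 67108864 469762048 1046898278 26843546
    (rowNX 3 0 true false false .npn 3 0 3 (qsf 1610612736 469762048 67108864 469762048 3) ndN2q3 ndN2q0 pcN3 Cut.none Ext.none)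

def k0_mm_303 : ∃ t, chk3 f_mm_303 t 1 1 1 = true :=
  ⟨(l 4), by decide +kernel⟩

theorem c_mm_303 : CertNX 1610612736 469762048 67108864 469762048 1046898278 26843546 3 true false false .npn 3 0 3
    ndN2q3 ndN2q0 pcN3 Cut.none Ext.none :=
  certNX0 (fam := true) (s1 := false) (s2 := false) (a := 3) (b := 0) (c := 3) (cn := .npn) (n1 := ndN2q3) (n2 := ndN2q0) (pc := pcN3) (cut := Cut.none) (xt := Ext.none) (P1 := 1610612736) (W1 := 469762048) (P2 := 67108864) (W2 := 469762048) (P3 := 1046898278) (W3 := 26843546) (N0 := 3)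
    rfl k0_mm_303

noncomputable def f_mm_313 : ℕ → ℕ → ℕ → ℕ → Bool := onCell 1610612736 469762048 536870912 536870912 1046898278 26843546
    (rowNX 3 0 true false false .dn 3 1 3 (qsf 1610612736 469762048 536870912 536870912 3) ndN2q3 ndN2q1 pcN3 Cut.none Ext.none)

def k0_mm_313 : ∃ t, chk3 f_mm_313 t 1 1 1 = true :=
  ⟨(l 4), by decide +kernel⟩

theorem c_mm_313 : CertNX 1610612736 469762048 536870912 536870912 1046898278 26843546 3 true false false .dn 3 1 3
    ndN2q3 ndN2q1 pcN3 Cut.none Ext.none :=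
  certNX0 (fam := true) (s1 := false) (s2 := false) (a := 3) (b := 1) (c := 3) (cn := .dn) (n1 := ndN2q3) (n2 := ndN2q1) (pc := pcN3) (cut := Cut.none) (xt := Ext.none) (P1 := 1610612736) (W1 := 469762048) (P2 := 536870912) (W2 := 536870912) (P3 := 1046898278) (W3 := 26843546) (N0 := 3)
    rfl k0_mm_313

end Pool.Agent.Strip051.G.IE1.Tab.C.NA22

namespace Pool.Agent.Strip051.G.IE1.Tab.C.NA23

open Pool.Agent.Strip051.PB Pool.Agent.Strip051.PB.T
open Pool.Agent.Strip051.G.IE1.Tab

noncomputable def f_pp_001 : ℕ → ℕ → ℕ → ℕ → Bool := onCell 67108864 469762048 0 536870912 1046898278 26843546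
    (rowNX 3 0 true true true .up 0 0 1 (qsf 67108864 469762048 0 536870912 1) ndN2q0 ndN3q0 pcN1 Cut.none Ext.none)

def k0_pp_001 : ∃ t, chk3 f_pp_001 t 1 1 1 = true :=
  ⟨(l 4), by decide +kernel⟩

theorem c_pp_001 : CertNX 67108864 469762048 0 536870912 1046898278 26843546 3 true true true .up 0 0 1
    ndN2q0 ndN3q0 pcN1 Cut.none Ext.none :=
  certNX0 (fam := true) (s1 := true) (s2 := true) (a := 0) (b := 0) (c := 1) (cn := .up) (n1 := ndN2q0) (n2 := ndN3q0) (pc := pcN1) (cut := Cut.none) (xt := Ext.none) (P1 := 67108864) (W1 := 469762048) (P2 := 0) (W2 := 536870912) (P3 := 1046898278) (W3 := 26843546) (N0 := 3)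
    rfl k0_pp_001

noncomputable def f_pp_011 : ℕ → ℕ → ℕ → ℕ → Bool := onCell 67108864 469762048 536870912 536870912 1046898278 26843546
    (rowNX 3 0 true true true .pnn 0 1 1 (qsf 67108864 469762048 536870912 536870912 1) ndN2q0 ndN3q1 pcN1 Cut.none Ext.none)

def k0_pp_011 : ∃ t, chk3 f_pp_011 t 1 1 1 = true :=
  ⟨(l 4), by decide +kernel⟩

theorem c_pp_011 : CertNX 67108864 469762048 536870912 536870912 1046898278 26843546 3 true true true .pnn 0 1 1
    ndN2q0 ndN3q1 pcN1 Cut.none Ext.none :=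
  certNX0 (fam := true) (s1 := true) (s2 := true) (a := 0) (b := 1) (c := 1) (cn := .pnn) (n1 := ndN2q0) (n2 := ndN3q1) (pc := pcN1) (cut := Cut.none) (xt := Ext.none) (P1 := 67108864) (W1 := 469762048) (P2 := 536870912) (W2 := 536870912) (P3 := 1046898278) (W3 := 26843546) (N0 := 3)
    rfl k0_pp_011

noncomputable def f_pp_012 : ℕ → ℕ → ℕ → ℕ → Bool := onCell 67108864 469762048 536870912 536870912 1046898278 26843546
    (rowNX 3 0 true true true .pnp 0 1 2 (qsf 67108864 469762048 536870912 536870912 2) ndN2q0 ndN3q1 pcN2 Cut.none Ext.none)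

def k0_pp_012 : ∃ t, chk3 f_pp_012 t 1 1 1 = true :=
  ⟨(l 4), by decide +kernel⟩

theorem c_pp_012 : CertNX 67108864 469762048 536870912 536870912 1046898278 26843546 3 true true true .pnp 0 1 2
    ndN2q0 ndN3q1 pcN2 Cut.none Ext.none :=
  certNX0 (fam := true) (s1 := true) (s2 := true) (a := 0) (b := 1) (c := 2) (cn := .pnp) (n1 := ndN2q0) (n2 := ndN3q1) (pc := pcN2) (cut := Cut.none) (xt := Ext.none) (P1 := 67108864) (W1 := 469762048) (P2 := 536870912) (W2 := 536870912) (P3 := 1046898278) (W3 := 26843546) (N0 := 3)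
    rfl k0_pp_012

noncomputable def f_pp_022 : ℕ → ℕ → ℕ → ℕ → Bool := onCell 67108864 469762048 1073741824 536870912 1046898278 26843546
    (rowNX 3 0 true true true .pp 0 2 2 (qsf 67108864 469762048 1073741824 536870912 2) ndN2q0 ndN3q2 pcN2 Cut.none Ext.none)

def k0_pp_022 : ∃ t, chk3 f_pp_022 t 1 1 1 = true :=
  ⟨(b (l 4) (l 4)), by decide +kernel⟩

theorem c_pp_022 : CertNX 67108864 469762048 1073741824 536870912 1046898278 26843546 3 true true true .pp 0 2 2
    ndN2q0 ndN3q2 pcN2 Cut.none Ext.none :=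
  certNX0 (fam := true) (s1 := true) (s2 := true) (a := 0) (b := 2) (c := 2) (cn := .pp) (n1 := ndN2q0) (n2 := ndN3q2) (pc := pcN2) (cut := Cut.none) (xt := Ext.none) (P1 := 67108864) (W1 := 469762048) (P2 := 1073741824) (W2 := 536870912) (P3 := 1046898278) (W3 := 26843546) (N0 := 3)
    rfl k0_pp_022

noncomputable def f_pp_023 : ℕ → ℕ → ℕ → ℕ → Bool := onCell 67108864 469762048 1610612736 536870912 1046898278 26843546
    (rowNX 3 1 true true true .up 0 2 3 (qsf 67108864 469762048 1073741824 536870912 3) ndN2q0 ndN3q2 pcN3 Cut.none Ext.none)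

def k0_pp_023 : ∃ t, chk3 f_pp_023 t 1 1 1 = true :=
  ⟨(l 4), by decide +kernel⟩

theorem c_pp_023 : CertNX 67108864 469762048 1073741824 536870912 1046898278 26843546 3 true true true .up 0 2 3
    ndN2q0 ndN3q2 pcN3 Cut.none Ext.none :=
  certNX1 (fam := true) (s1 := true) (s2 := true) (a := 0) (b := 2) (c := 3) (cn := .up) (n1 := ndN2q0) (n2 := ndN3q2) (pc := pcN3) (cut := Cut.none) (xt := Ext.none) (P1 := 67108864) (W1 := 469762048) (P2 := 1073741824) (W2 := 536870912) (P3 := 1046898278) (W3 := 26843546) (N0 := 3)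
    rfl (fun _ => rfl) k0_pp_023

noncomputable def f_pp_033 : ℕ → ℕ → ℕ → ℕ → Bool := onCell 67108864 469762048 1610612736 536870912 1046898278 26843546
    (rowNX 3 0 true true true .pnn 0 3 3 (qsf 67108864 469762048 1610612736 536870912 3) ndN2q0 ndN3q3 pcN3 Cut.none Ext.none)

def k0_pp_033 : ∃ t, chk3 f_pp_033 t 1 1 1 = true :=
  ⟨(l 4), by decide +kernel⟩

theorem c_pp_033 : CertNX 67108864 469762048 1610612736 536870912 1046898278 26843546 3 true true true .pnn 0 3 3
    ndN2q0 ndN3q3 pcN3 Cut.none Ext.none :=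
  certNX0 (fam := true) (s1 := true) (s2 := true) (a := 0) (b := 3) (c := 3) (cn := .pnn) (n1 := ndN2q0) (n2 := ndN3q3) (pc := pcN3) (cut := Cut.none) (xt := Ext.none) (P1 := 67108864) (W1 := 469762048) (P2 := 1610612736) (W2 := 536870912) (P3 := 1046898278) (W3 := 26843546) (N0 := 3)
    rfl k0_pp_033

noncomputable def f_pp_101 : ℕ → ℕ → ℕ → ℕ → Bool := onCell 536870912 536870912 0 536870912 1046898278 26843546
    (rowNX 3 0 true true true .npn 1 0 1 (qsf 536870912 536870912 0 536870912 1) ndN2q1 ndN3q0 pcN1 Cut.none Ext.none)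

def k0_pp_101 : ∃ t, chk3 f_pp_101 t 1 1 1 = true :=
  ⟨(l 4), by decide +kernel⟩

theorem c_pp_101 : CertNX 536870912 536870912 0 536870912 1046898278 26843546 3 true true true .npn 1 0 1
    ndN2q1 ndN3q0 pcN1 Cut.none Ext.none :=
  certNX0 (fam := true) (s1 := true) (s2 := true) (a := 1) (b := 0) (c := 1) (cn := .npn) (n1 := ndN2q1) (n2 := ndN3q0) (pc := pcN1) (cut := Cut.none) (xt := Ext.none) (P1 := 536870912) (W1 := 536870912) (P2 := 0) (W2 := 536870912) (P3 := 1046898278) (W3 := 26843546) (N0 := 3)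
    rfl k0_pp_101

noncomputable def f_pp_102 : ℕ → ℕ → ℕ → ℕ → Bool := onCell 536870912 536870912 0 536870912 1046898278 26843546
    (rowNX 3 0 true true true .npp 1 0 2 (qsf 536870912 536870912 0 536870912 2) ndN2q1 ndN3q0 pcN2 Cut.none Ext.none)

def k0_pp_102 : ∃ t, chk3 f_pp_102 t 1 1 1 = true :=
  ⟨(l 4), by decide +kernel⟩

theorem c_pp_102 : CertNX 536870912 536870912 0 536870912 1046898278 26843546 3 true true true .npp 1 0 2
    ndN2q1 ndN3q0 pcN2 Cut.none Ext.none :=
  certNX0 (fam := true) (s1 := true) (s2 := true) (a := 1) (b := 0) (c := 2) (cn := .npp) (n1 := ndN2q1) (n2 := ndN3q0) (pc := pcN2) (cut := Cut.none) (xt := Ext.none) (P1 := 536870912) (W1 := 536870912) (P2 := 0) (W2 := 536870912) (P3 := 1046898278) (W3 := 26843546) (N0 := 3)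
    rfl k0_pp_102

noncomputable def f_pp_112 : ℕ → ℕ → ℕ → ℕ → Bool := onCell 536870912 536870912 536870912 536870912 1046898278 26843546
    (rowNX 3 0 true true true .dn 1 1 2 (qsf 536870912 536870912 536870912 536870912 2) ndN2q1 ndN3q1 pcN2 Cut.none Ext.none)

def k0_pp_112 : ∃ t, chk3 f_pp_112 t 1 1 1 = true :=
  ⟨(l 4), by decide +kernel⟩

theorem c_pp_112 : CertNX 536870912 536870912 536870912 536870912 1046898278 26843546 3 true true true .dn 1 1 2
    ndN2q1 ndN3q1 pcN2 Cut.none Ext.none :=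
  certNX0 (fam := true) (s1 := true) (s2 := true) (a := 1) (b := 1) (c := 2) (cn := .dn) (n1 := ndN2q1) (n2 := ndN3q1) (pc := pcN2) (cut := Cut.none) (xt := Ext.none) (P1 := 536870912) (W1 := 536870912) (P2 := 536870912) (W2 := 536870912) (P3 := 1046898278) (W3 := 26843546) (N0 := 3)
    rfl k0_pp_112

noncomputable def f_pp_113 : ℕ → ℕ → ℕ → ℕ → Bool := onCell 536870912 536870912 536870912 536870912 1046898278 26843546
    (rowNX 3 0 true true true .nn 1 1 3 (qsf 536870912 536870912 536870912 536870912 3) ndN2q1 ndN3q1 pcN3 Cut.none Ext.none)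

def k0_pp_113 : ∃ t, chk3 f_pp_113 t 1 1 1 = true :=
  ⟨(l 4), by decide +kernel⟩

theorem c_pp_113 : CertNX 536870912 536870912 536870912 536870912 1046898278 26843546 3 true true true .nn 1 1 3
    ndN2q1 ndN3q1 pcN3 Cut.none Ext.none :=
  certNX0 (fam := true) (s1 := true) (s2 := true) (a := 1) (b := 1) (c := 3) (cn := .nn) (n1 := ndN2q1) (n2 := ndN3q1) (pc := pcN3) (cut := Cut.none) (xt := Ext.none) (P1 := 536870912) (W1 := 536870912) (P2 := 536870912) (W2 := 536870912) (P3 := 1046898278) (W3 := 26843546) (N0 := 3)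
    rfl k0_pp_113

noncomputable def f_pp_123 : ℕ → ℕ → ℕ → ℕ → Bool := onCell 536870912 536870912 1073741824 536870912 1046898278 26843546
    (rowNX 3 0 true true true .npn 1 2 3 (qsf 536870912 536870912 1073741824 536870912 3) ndN2q1 ndN3q2 pcN3 Cut.none Ext.none)

def k0_pp_123 : ∃ t, chk3 f_pp_123 t 1 1 1 = true :=
  ⟨(l 4), by decide +kernel⟩

theorem c_pp_123 : CertNX 536870912 536870912 1073741824 536870912 1046898278 26843546 3 true true true .npn 1 2 3
    ndN2q1 ndN3q2 pcN3 Cut.none Ext.none :=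
  certNX0 (fam := true) (s1 := true) (s2 := true) (a := 1) (b := 2) (c := 3) (cn := .npn) (n1 := ndN2q1) (n2 := ndN3q2) (pc := pcN3) (cut := Cut.none) (xt := Ext.none) (P1 := 536870912) (W1 := 536870912) (P2 := 1073741824) (W2 := 536870912) (P3 := 1046898278) (W3 := 26843546) (N0 := 3)
    rfl k0_pp_123

noncomputable def f_pp_133 : ℕ → ℕ → ℕ → ℕ → Bool := onCell 536870912 536870912 1610612736 536870912 1046898278 26843546
    (rowNX 3 0 true true true .dn 1 3 3 (qsf 536870912 536870912 1610612736 536870912 3) ndN2q1 ndN3q3 pcN3 Cut.none Ext.none)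

def k0_pp_133 : ∃ t, chk3 f_pp_133 t 1 1 1 = true :=
  ⟨(l 4), by decide +kernel⟩

theorem c_pp_133 : CertNX 536870912 536870912 1610612736 536870912 1046898278 26843546 3 true true true .dn 1 3 3
    ndN2q1 ndN3q3 pcN3 Cut.none Ext.none :=
  certNX0 (fam := true) (s1 := true) (s2 := true) (a := 1) (b := 3) (c := 3) (cn := .dn) (n1 := ndN2q1) (n2 := ndN3q3) (pc := pcN3) (cut := Cut.none) (xt := Ext.none) (P1 := 536870912) (W1 := 536870912) (P2 := 1610612736) (W2 := 536870912) (P3 := 1046898278) (W3 := 26843546) (N0 := 3)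
    rfl k0_pp_133

noncomputable def f_pp_202_a : ℕ → ℕ → ℕ → ℕ → Bool := onCell 0 420477299 0 536870912 1046898278 26843546
    (rowNX 3 0 true true true .pp 2 0 2 (qsf 0 420477299 0 536870912 2) ndN2q2a ndN3q0 pcN2 Cut.none Ext.none)

def k0_pp_202_a : ∃ t, chk3 f_pp_202_a t 1 1 1 = true :=
  ⟨(l 5), by decide +kernel⟩

theorem c_pp_202_a : CertNX 0 420477299 0 536870912 1046898278 26843546 3 true true true .pp 2 0 2
    ndN2q2a ndN3q0 pcN2 Cut.none Ext.none :=
  certNX0 (fam := true) (s1 := true) (s2 := true) (a := 2) (b := 0) (c := 2) (cn := .pp) (n1 := ndN2q2a) (n2 := ndN3q0) (pc := pcN2) (cut := Cut.none) (xt := Ext.none) (P1 := 0) (W1 := 420477299) (P2 := 0) (W2 := 536870912) (P3 := 1046898278) (W3 := 26843546) (N0 := 3)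
    rfl k0_pp_202_a

noncomputable def f_pp_202_b : ℕ → ℕ → ℕ → ℕ → Bool := onCell 1239849684 370763052 0 536870912 1046898278 26843546
    (rowNX 3 0 true true true .pp 2 0 2 (qsf 1239849684 370763052 0 536870912 2) ndN2q2b ndN3q0 pcN2 Cut.none Ext.none)

def k0_pp_202_b : ∃ t, chk3 f_pp_202_b t 1 1 1 = true :=
  ⟨(l 5), by decide +kernel⟩

theorem c_pp_202_b : CertNX 1239849684 370763052 0 536870912 1046898278 26843546 3 true true true .pp 2 0 2
    ndN2q2b ndN3q0 pcN2 Cut.none Ext.none :=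
  certNX0 (fam := true) (s1 := true) (s2 := true) (a := 2) (b := 0) (c := 2) (cn := .pp) (n1 := ndN2q2b) (n2 := ndN3q0) (pc := pcN2) (cut := Cut.none) (xt := Ext.none) (P1 := 1239849684) (W1 := 370763052) (P2 := 0) (W2 := 536870912) (P3 := 1046898278) (W3 := 26843546) (N0 := 3)
    rfl k0_pp_202_b

noncomputable def f_pp_203_a : ℕ → ℕ → ℕ → ℕ → Bool := onCell 0 420477299 0 536870912 1046898278 26843546
    (rowNX 3 0 true true true .up 2 0 3 (qsf 0 420477299 0 536870912 3) ndN2q2a ndN3q0 pcN3 Cut.none Ext.none)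

def k0_pp_203_a : ∃ t, chk3 f_pp_203_a t 1 1 1 = true :=
  ⟨(l 5), by decide +kernel⟩

theorem c_pp_203_a : CertNX 0 420477299 0 536870912 1046898278 26843546 3 true true true .up 2 0 3
    ndN2q2a ndN3q0 pcN3 Cut.none Ext.none :=
  certNX0 (fam := true) (s1 := true) (s2 := true) (a := 2) (b := 0) (c := 3) (cn := .up) (n1 := ndN2q2a) (n2 := ndN3q0) (pc := pcN3) (cut := Cut.none) (xt := Ext.none) (P1 := 0) (W1 := 420477299) (P2 := 0) (W2 := 536870912) (P3 := 1046898278) (W3 := 26843546) (N0 := 3)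
    rfl k0_pp_203_a

noncomputable def f_pp_203_b : ℕ → ℕ → ℕ → ℕ → Bool := onCell 1239849684 370763052 0 536870912 1046898278 26843546
    (rowNX 3 0 true true true .up 2 0 3 (qsf 1239849684 370763052 0 536870912 3) ndN2q2b ndN3q0 pcN3 Cut.none Ext.none)

def k0_pp_203_b : ∃ t, chk3 f_pp_203_b t 1 1 1 = true :=
  ⟨(l 5), by decide +kernel⟩

theorem c_pp_203_b : CertNX 1239849684 370763052 0 536870912 1046898278 26843546 3 true true true .up 2 0 3
    ndN2q2b ndN3q0 pcN3 Cut.none Ext.none :=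
  certNX0 (fam := true) (s1 := true) (s2 := true) (a := 2) (b := 0) (c := 3) (cn := .up) (n1 := ndN2q2b) (n2 := ndN3q0) (pc := pcN3) (cut := Cut.none) (xt := Ext.none) (P1 := 1239849684) (W1 := 370763052) (P2 := 0) (W2 := 536870912) (P3 := 1046898278) (W3 := 26843546) (N0 := 3)
    rfl k0_pp_203_b

noncomputable def f_pp_213_a : ℕ → ℕ → ℕ → ℕ → Bool := onCell 0 420477299 536870912 536870912 1046898278 26843546
    (rowNX 3 0 true true true .pnn 2 1 3 (qsf 0 420477299 536870912 536870912 3) ndN2q2a ndN3q1 pcN3 Cut.none Ext.none)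

def k0_pp_213_a : ∃ t, chk3 f_pp_213_a t 1 1 1 = true :=
  ⟨(l 4), by decide +kernel⟩

theorem c_pp_213_a : CertNX 0 420477299 536870912 536870912 1046898278 26843546 3 true true true .pnn 2 1 3
    ndN2q2a ndN3q1 pcN3 Cut.none Ext.none :=
  certNX0 (fam := true) (s1 := true) (s2 := true) (a := 2) (b := 1) (c := 3) (cn := .pnn) (n1 := ndN2q2a) (n2 := ndN3q1) (pc := pcN3) (cut := Cut.none) (xt := Ext.none) (P1 := 0) (W1 := 420477299) (P2 := 536870912) (W2 := 536870912) (P3 := 1046898278) (W3 := 26843546) (N0 := 3)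
    rfl k0_pp_213_a

noncomputable def f_pp_213_b : ℕ → ℕ → ℕ → ℕ → Bool := onCell 1239849684 370763052 536870912 536870912 1046898278 26843546
    (rowNX 3 0 true true true .pnn 2 1 3 (qsf 1239849684 370763052 536870912 536870912 3) ndN2q2b ndN3q1 pcN3 Cut.none Ext.none)

def k0_pp_213_b : ∃ t, chk3 f_pp_213_b t 1 1 1 = true :=
  ⟨(l 4), by decide +kernel⟩

theorem c_pp_213_b : CertNX 1239849684 370763052 536870912 536870912 1046898278 26843546 3 true true true .pnn 2 1 3
    ndN2q2b ndN3q1 pcN3 Cut.none Ext.none :=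
  certNX0 (fam := true) (s1 := true) (s2 := true) (a := 2) (b := 1) (c := 3) (cn := .pnn) (n1 := ndN2q2b) (n2 := ndN3q1) (pc := pcN3) (cut := Cut.none) (xt := Ext.none) (P1 := 1239849684) (W1 := 370763052) (P2 := 536870912) (W2 := 536870912) (P3 := 1046898278) (W3 := 26843546) (N0 := 3)
    rfl k0_pp_213_b

noncomputable def f_pp_303 : ℕ → ℕ → ℕ → ℕ → Bool := onCell 1610612736 469762048 0 536870912 1046898278 26843546
    (rowNX 3 0 true true true .npn 3 0 3 (qsf 1610612736 469762048 0 536870912 3) ndN2q3 ndN3q0 pcN3 Cut.none Ext.none)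

def k0_pp_303 : ∃ t, chk3 f_pp_303 t 1 1 1 = true :=
  ⟨(l 5), by decide +kernel⟩

theorem c_pp_303 : CertNX 1610612736 469762048 0 536870912 1046898278 26843546 3 true true true .npn 3 0 3
    ndN2q3 ndN3q0 pcN3 Cut.none Ext.none :=
  certNX0 (fam := true) (s1 := true) (s2 := true) (a := 3) (b := 0) (c := 3) (cn := .npn) (n1 := ndN2q3) (n2 := ndN3q0) (pc := pcN3) (cut := Cut.none) (xt := Ext.none) (P1 := 1610612736) (W1 := 469762048) (P2 := 0) (W2 := 536870912) (P3 := 1046898278) (W3 := 26843546) (N0 := 3)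
    rfl k0_pp_303

noncomputable def f_pp_313 : ℕ → ℕ → ℕ → ℕ → Bool := onCell 1610612736 469762048 536870912 536870912 1046898278 26843546
    (rowNX 3 0 true true true .dn 3 1 3 (qsf 1610612736 469762048 536870912 536870912 3) ndN2q3 ndN3q1 pcN3 Cut.none Ext.none)

def k0_pp_313 : ∃ t, chk3 f_pp_313 t 1 1 1 = true :=
  ⟨(l 4), by decide +kernel⟩

theorem c_pp_313 : CertNX 1610612736 469762048 536870912 536870912 1046898278 26843546 3 true true true .dn 3 1 3
    ndN2q3 ndN3q1 pcN3 Cut.none Ext.none :=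
  certNX0 (fam := true) (s1 := true) (s2 := true) (a := 3) (b := 1) (c := 3) (cn := .dn) (n1 := ndN2q3) (n2 := ndN3q1) (pc := pcN3) (cut := Cut.none) (xt := Ext.none) (P1 := 1610612736) (W1 := 469762048) (P2 := 536870912) (W2 := 536870912) (P3 := 1046898278) (W3 := 26843546) (N0 := 3)
    rfl k0_pp_313

noncomputable def f_pm_001 : ℕ → ℕ → ℕ → ℕ → Bool := onCell 67108864 469762048 0 536870912 1046898278 26843546
    (rowNX 3 0 true true false .up 0 0 1 (qsf 67108864 469762048 0 536870912 1) ndN2q0 ndN3q0 pcN1 Cut.none Ext.none)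

def k0_pm_001 : ∃ t, chk3 f_pm_001 t 1 1 1 = true :=
  ⟨(l 3), by decide +kernel⟩

theorem c_pm_001 : CertNX 67108864 469762048 0 536870912 1046898278 26843546 3 true true false .up 0 0 1
    ndN2q0 ndN3q0 pcN1 Cut.none Ext.none :=
  certNX0 (fam := true) (s1 := true) (s2 := false) (a := 0) (b := 0) (c := 1) (cn := .up) (n1 := ndN2q0) (n2 := ndN3q0) (pc := pcN1) (cut := Cut.none) (xt := Ext.none) (P1 := 67108864) (W1 := 469762048) (P2 := 0) (W2 := 536870912) (P3 := 1046898278) (W3 := 26843546) (N0 := 3)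
    rfl k0_pm_001

noncomputable def f_pm_011 : ℕ → ℕ → ℕ → ℕ → Bool := onCell 67108864 469762048 536870912 536870912 1046898278 26843546
    (rowNX 3 1 true true false .pnn 0 1 1 (qsf 67108864 469762048 536870912 536870912 1) ndN2q0 ndN3q1 pcN1 Cut.none Ext.none)

def k0_pm_011 : ∃ t, chk3 f_pm_011 t 1 1 1 = true :=
  ⟨(a (b (l 3) (l 3)) (l 3)), by decide +kernel⟩

theorem c_pm_011 : CertNX 67108864 469762048 536870912 536870912 1046898278 26843546 3 true true false .pnn 0 1 1
    ndN2q0 ndN3q1 pcN1 Cut.none Ext.none :=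
  certNX1 (fam := true) (s1 := true) (s2 := false) (a := 0) (b := 1) (c := 1) (cn := .pnn) (n1 := ndN2q0) (n2 := ndN3q1) (pc := pcN1) (cut := Cut.none) (xt := Ext.none) (P1 := 67108864) (W1 := 469762048) (P2 := 536870912) (W2 := 536870912) (P3 := 1046898278) (W3 := 26843546) (N0 := 3)
    rfl (fun _ => rfl) k0_pm_011

noncomputable def f_pm_012 : ℕ → ℕ → ℕ → ℕ → Bool := onCell 1073741824 536870912 536870912 536870912 1046898278 26843546
    (rowNX 3 2 true true false .pnp 0 1 2 (qsf 67108864 469762048 536870912 536870912 2) ndN2q0 ndN3q1 pcN2 Cut.none Ext.none)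

def k0_pm_012 : ∃ t, chk3 f_pm_012 t 8 2 1 = true :=
  ⟨(l 3), by decide +kernel⟩

def k1_pm_012 : ∃ t, chk3 f_pm_012 t 8 6 1 = true :=
  ⟨(l 3), by decide +kernel⟩

def k2_pm_012 : ∃ t, chk3 f_pm_012 t 8 14 1 = true :=
  ⟨(a (l 3) (a (l 3) (b (l 3) (b (a (l 3) (a (l 14748840) (l 14691624))) (a (c (a (l 14881368) (l 14762328)) (l 14769240)) (a (l 14662960) (l 14609848))))))), by decide +kernel⟩

def k3_pm_012 : ∃ t, chk3 f_pm_012 t 16 15 1 = true :=
  ⟨(a (b (l 3) (l 1)) (a (b (l 3) (l 1)) (b (a (l 3) (a (l 3) (a (l 3) (b (l 3) (c (b (l 3) (l 16114824)) (l 16109080)))))) (a (l 1) (a (l 1) (b (b (b (c (l 647498491575) (l 16469824)) (l 1)) (l 1)) (l 1))))))), by decide +kernel⟩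

def k4_pm_012 : ∃ t, chk3 f_pm_012 t 17 30 1 = true :=
  ⟨(a (a (b (l 3) (a (b (l 3) (c (c (l 16092280) (l 16091024)) (l 16225272))) (c (b (l 15528104) (l 15750640)) (l 15831472)))) (b (b (a (l 3) (a (l 3) (c (l 14823680) (l 14762576)))) (c (a (l 15188376) (c (l 14922728) (l 14932024))) (l 603606638359))) (c (c (a (l 15471200) (l 15045320)) (a (b (l 15434392) (l 15657008)) (b (l 15168880) (l 15394744)))) (a (l 15545880) (l 15171728))))) (c (c (b (a (b (l 14725480) (a (b (l 14695560) (l 14722544)) (l 14577776))) (b (l 14606304) (l 14485072))) (a (a (l 14954976) (a (l 14765768) (l 14649744))) (b (a (l 14441656) (l 14328560)) (l 14465584)))) (b (a (b (l 14700960) (a (l 14723184) (l 14581344))) (l 14528136)) (a (a (l 14851056) (b (l 14664960) (l 14882184))) (b (a (l 14483320) (l 14367472)) (l 14539208))))) (a (b (b (l 14647408) (a (l 14670344) (l 14524680))) (a (l 15005520) (a (l 14806648) (l 14684712)))) (b (a (l 14503960) (l 14446616)) (b (a (l 14434552) (l 14315584)) (l 14523640)))))),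 by decide +kernel⟩

def k5_pm_012 : ∃ t, chk3 f_pm_012 t 34 31 1 = true :=
  ⟨(a (b (a (b (c (b (a (l 16102128) (l 16063560)) (b (l 16022096) (l 1))) (b (l 601864534423) (l 16374680))) (l 1)) (c (b (b (l 16022288) (b (l 15909776) (a (l 16064216) (l 15885376)))) (c (c (b (l 649645309959) (l 1)) (l 663603981431)) (l 16019952))) (b (b (l 16143840) (c (l 16122648) (l 16232568))) (l 761314851639)))) (l 1)) (b (c (b (a (c (l 15747824) (l 15862560)) (c (l 15487840) (l 15596072))) (c (b (a (b (l 15706408) (c (l 15848312) (l 15892576))) (l 15640840)) (a (l 661993063015) (b (l 15711632) (l 15736568)))) (b (l 396778788823) (a (l 15946760) (l 15657824))))) (b (a (l 15783784) (l 15656272)) (a (b (l 588442167511) (l 16072376)) (c (l 377451473623) (l 15891752))))) (b (a (l 1) (b (c (c (l 661455976999) (l 15798736)) (l 15752896)) (l 1))) (l 1)))), by decide +kernel⟩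

def k6_pm_012 : ∃ t, chk3 f_pm_012 t 35 31 1 = true :=
  ⟨(a (b (c (b (c (l 15112440) (l 15211880)) (c (b (l 15181272) (l 15383752)) (l 201893702615))) (b (l 15261488) (c (l 15441408) (l 15526872)))) (a (b (b (c (c (c (l 15344312) (l 15611968)) (l 15596896)) (c (l 15748896) (l 15810376))) (a (l 1) (c (l 694741869607) (l 15634232)))) (l 1)) (b (b (c (c (l 15388184) (l 15445968)) (l 15327528)) (c (c (a (l 15494360) (l 15475760)) (l 15536512)) (c (l 15389776) (l 15672312)))) (a (l 1) (b (c (l 15574136) (c (l 15587472) (l 15639416))) (l 1)))))) (b (c (c (b (l 14648280) (b (l 14799008) (l 14915640))) (l 14581792)) (c (l 14893504) (l 14894248))) (c (c (b (b (l 15041992) (l 15203360)) (a (b (l 403757391623) (l 15553704)) (b (l 15295160) (l 621190083239)))) (b (b (l 15090760) (l 15221464)) (a (l 15329888) (l 15250992)))) (b (c (l 15062008) (l 15284456)) (c (b (a (l 15403448) (l 15287224)) (l 15342384)) (a (b (l 563208158551) (l 15562232)) (b (l 15333992) (b (l 15336928) (l 15467048))))))))),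 by decide +kernel⟩

def k7_pm_012 : ∃ t, chk3 f_pm_012 t 18 2 1 = true :=
  ⟨(l 3), by decide +kernel⟩

def k8_pm_012 : ∃ t, chk3 f_pm_012 t 18 6 1 = true :=
  ⟨(b (a (l 3) (c (l 712057922311) (l 822653325735))) (a (a (l 3) (b (l 3) (b (l 16040272) (l 15673440)))) (b (c (l 16320664) (l 16305264)) (b (a (l 16012016) (l 15947736)) (a (l 15612368) (c (l 15572464) (l 15530544))))))), by decide +kernel⟩

def k9_pm_012 : ∃ t, chk3 f_pm_012 t 18 7 1 = true :=
  ⟨(b (a (b (c (a (b (l 15352016) (l 14918320)) (l 14990032)) (a (l 14933864) (l 14993280))) (c (a (b (l 14666712) (l 14561408)) (b (l 14587688) (l 14422864))) (a (b (l 14593528) (l 14484536)) (b (l 14511544) (l 14340848))))) (b (c (a (l 14922216) (l 14916136)) (a (l 14922832) (l 14851136))) (a (c (b (l 14507592) (l 14305776)) (l 14316072)) (l 14270664)))) (b (a (c (b (a (c (b (l 14479128) (l 14358160)) (l 14401568)) (l 14250968)) (a (b (l 14226504) (c (l 14108768) (l 14007000))) (l 13979872))) (a (b (l 14340008) (b (l 14194048)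 (l 14149304))) (l 14075592))) (c (b (c (l 13818696) (l 14010392)) (c (l 13703216) (l 13740928))) (l 13817200))) (a (a (b (c (b (c (l 14168744) (l 14246520)) (c (l 14367336) (l 14427480))) (b (l 14269992) (l 14498616))) (c (b (c (l 14626032) (l 14542456)) (l 14745832)) (b (c (l 14704472) (l 14749784)) (c (l 304435201783) (b (l 14918728) (c (l 15055096) (l 15067128))))))) (b (c (b (b (l 13798912) (a (l 13859360) (l 13671864))) (c (b (l 13784648) (l 13886080)) (l 13888816))) (b (l 13848520) (l 13945168))) (c (b (c (l 14081104) (l 14092456)) (l 14433112)) (b (c (l 14139544) (l 14174648)) (c (l 14397944) (b (l 14333640) (l 14470072))))))) (b (c (b (l 13466112) (a (c (b (l 13414120) (l 13408760)) (b (l 13467416) (l 13442632))) (l 13202552))) (a (b (l 13598512) (c (l 13524784) (l 13511688))) (l 13325488))) (c (b (a (c (l 13544048) (l 13461624)) (c (b (l 13091768) (l 13125208)) (b (l 13103048) (l 13102168)))) (a (l 13877088) (l 13331352))) (b (a (c (l 13582568) (l 13607512)) (c (l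 13085840) (l 13165704))) (c (a (l 13826632) (l 13265704)) (b (a (l 13754112) (l 13185472)) (a (l 13885200) (l 13307936)))))))))), by decide +kernel⟩

def k10_pm_012 : ∃ t, chk3 f_pm_012 t 19 1 1 = true :=
  ⟨(b (b (a (l 3) (c (l 16774792) (l 16774712))) (a (c (l 16772760) (l 16772608)) (a (l 16774376) (l 16764224)))) (b (b (a (a (b (l 16773568) (l 16592216)) (b (l 16774680) (l 16584000))) (c (b (l 16756616) (l 16570480)) (b (l 16755904) (l 16563128)))) (a (b (a (l 16139624) (l 16204920)) (a (c (b (l 15903864) (l 15505256)) (b (l 15873272) (l 15460664))) (l 15655800))) (b (l 16173984) (l 15610368)))) (b (a (b (a (b (l 15036440) (l 14580144)) (l 14666744)) (a (l 14177720) (l 14128000))) (b (b (l 14945632) (l 14489832)) (l 14068944))) (b (a (c (a (b (c (l 13811616) (l 13789488)) (l 13453216)) (b (l 13721296) (l 13331528))) (a (l 13569416) (l 13469216))) (c (b (l 13650032) (a (l 13246328) (l 13187976))) (l 13378944))) (a (b (c (a (c (b (l 13159320) (l 12991552)) (l 13123168))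 (l 12904984)) (a (l 13131040) (l 12989416))) (c (a (b (c (l 12878664) (l 12867696)) (a (l 12977496) (l 12822784))) (b (l 12742816) (l 12729664))) (a (b (c (l 12892168) (l 12904352)) (b (c (l 12788160) (l 12789448)) (c (l 12845136) (a (l 12891640) (l 12696648))))) (b (l 12739552) (c (l 12647040) (l 12626536)))))) (b (c (b (l 12907456) (a (l 12770752) (l 12698088))) (l 12782952)) (c (c (l 12614448) (l 12596848)) (b (l 12608664) (c (l 12524664) (l 12501840)))))))))), by decide +kernel⟩

def k11_pm_012 : ∃ t, chk3 f_pm_012 t 10 1 1 = true :=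
  ⟨(a (b (b (a (a (l 16775744) (l 2)) (l 2)) (a (a (c (l 16747728) (l 16746688)) (a (l 16719624) (l 16676672))) (a (l 16604088) (a (l 16529664) (a (l 16505168) (l 16498144)))))) (b (a (b (l 16611864) (b (l 16094816) (l 15517384))) (b (a (l 16548728) (a (l 16516064) (a (l 16516736) (b (l 16452976) (l 16425056))))) (a (b (l 16021472) (l 15439544)) (b (a (l 15991920) (a (l 16015536) (l 16057272))) (a (l 15430312) (l 15510960)))))) (b (a (b (l 14532136) (a (l 13996432) (b (l 14076400) (l 13837688)))) (a (b (l 14555480) (b (l 14082296) (l 13882552))) (b (a (l 14590856) (l 14682672)) (a (l 14051616) (l 14140632))))) (a (b (a (b (l 13535208) (l 13143784)) (b (l 13542184) (l 13170920))) (b (c (b (l 12867240) (l 12666888)) (l 12788376)) (c (b (l 12528608) (l 12518752)) (b (l 12516968) (c (l 12429992) (l 12405320)))))) (b (a (c (l 13444808) (l 13388336)) (a (c (l 13517160) (l 13463536)) (c (a (l 13582928) (l 13626896)) (l 13552120)))) (a (b (c (l 12835656) (l 12851872)) (c (l 12548776)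 (b (l 12544576) (l 12418152)))) (b (a (c (l 12906504) (l 12925504)) (c (a (l 12967160) (l 13007592)) (l 13006976))) (a (c (l 12604752) (b (l 12616472) (l 12469024))) (c (a (l 12660680) (l 12698176)) (b (a (l 12676320) (l 12716136)) (a (l 12525672) (l 12563840)))))))))))) (b (l 16595080) (b (b (l 16574680) (b (l 16107944) (l 15581096))) (b (b (l 14742224) (l 14185944)) (c (b (b (l 13849000) (l 13456104)) (b (l 13018376) (l 12697768))) (b (l 13425960) (b (l 13041832) (b (l 12718584) (l 12560152))))))))), by decide +kernel⟩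

def k12_pm_012 : ∃ t, chk3 f_pm_012 t 11 1 1 = true :=
  ⟨(b (l 16746960) (b (b (l 16604848) (b (l 16195280) (l 15447696))) (b (b (l 14696992) (l 14159784)) (b (a (l 13369480) (l 13634480)) (a (b (c (l 13029864) (l 13053760)) (c (l 12704304) (b (l 12728992) (l 12565264)))) (b (l 13016288) (c (l 12718224) (l 12676536)))))))), by decide +kernel⟩

def k13_pm_012 : ∃ t, chk3 f_pm_012 t 3 1 1 = true :=
  ⟨(b (a (l 16777216) (l 2)) (b (b (a (l 16684248) (l 2)) (b (l 16213288) (a (l 15674520) (l 15674520)))) (b (a (b (l 14817032) (l 14234872)) (l 14424240)) (b (a (c (l 13669032) (l 13621504)) (l 13634512)) (a (b (c (l 13038704) (l 13062960)) (c (l 12718256) (b (l 12740224) (l 12581424)))) (b (l 13016312) (l 12707432))))))), by decide +kernel⟩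

theorem s14_pm_012 : ∃ t, chk3 f_pm_012 t 5 1 1 = true := ex3_a k11_pm_012 k12_pm_012

theorem s15_pm_012 : ∃ t, chk3 f_pm_012 t 18 3 1 = true := ex3_b k8_pm_012 k9_pm_012

theorem s16_pm_012 : ∃ t, chk3 f_pm_012 t 18 1 1 = true := ex3_b k7_pm_012 s15_pm_012

theorem s17_pm_012 : ∃ t, chk3 f_pm_012 t 9 1 1 = true := ex3_a s16_pm_012 k10_pm_012

theorem s18_pm_012 : ∃ t, chk3 f_pm_012 t 17 31 1 = true := ex3_a k5_pm_012 k6_pm_012

theorem s19_pm_012 : ∃ t, chk3 f_pm_012 t 17 15 1 = true := ex3_b k4_pm_012 s18_pm_012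

theorem s20_pm_012 : ∃ t, chk3 f_pm_012 t 8 15 1 = true := ex3_a k3_pm_012 s19_pm_012

theorem s21_pm_012 : ∃ t, chk3 f_pm_012 t 8 7 1 = true := ex3_b k2_pm_012 s20_pm_012

theorem s22_pm_012 : ∃ t, chk3 f_pm_012 t 8 3 1 = true := ex3_b k1_pm_012 s21_pm_012

theorem s23_pm_012 : ∃ t, chk3 f_pm_012 t 8 1 1 = true := ex3_b k0_pm_012 s22_pm_012

theorem s24_pm_012 : ∃ t, chk3 f_pm_012 t 4 1 1 = true := ex3_a s23_pm_012 s17_pm_012

theorem s25_pm_012 : ∃ t, chk3 f_pm_012 t 2 1 1 = true := ex3_a s24_pm_012 s14_pm_012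

theorem s26_pm_012 : ∃ t, chk3 f_pm_012 t 1 1 1 = true := ex3_a s25_pm_012 k13_pm_012

theorem c_pm_012 : CertNX 67108864 469762048 536870912 536870912 1046898278 26843546 3 true true false .pnp 0 1 2
    ndN2q0 ndN3q1 pcN2 Cut.none Ext.none :=
  certNX2 (fam := true) (s1 := true) (s2 := false) (a := 0) (b := 1) (c := 2) (cn := .pnp) (n1 := ndN2q0) (n2 := ndN3q1) (pc := pcN2) (cut := Cut.none) (xt := Ext.none) (P1 := 67108864) (W1 := 469762048) (P2 := 536870912) (W2 := 536870912) (P3 := 1046898278) (W3 := 26843546) (N0 := 3)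
    rfl (fun _ => rfl) s26_pm_012

noncomputable def f_pm_022 : ℕ → ℕ → ℕ → ℕ → Bool := onCell 67108864 469762048 1073741824 536870912 1046898278 26843546
    (rowNX 3 1 true true false .pp 0 2 2 (qsf 67108864 469762048 1073741824 536870912 2) ndN2q0 ndN3q2 pcN2 Cut.none Ext.none)

def k0_pm_022 : ∃ t, chk3 f_pm_022 t 4 8 1 = true :=
  ⟨(a (b (l 1) (b (l 1) (b (l 1) (a (a (a (c (c (c (c (b (l 1) (l 614748824151)) (l 15938240)) (l 15994608)) (l 15943392)) (l 630854835095)) (l 1)) (l 1)) (l 1))))) (l 1)), by decide +kernel⟩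

def k1_pm_022 : ∃ t, chk3 f_pm_022 t 16 18 1 = true :=
  ⟨(a (c (c (b (a (c (a (b (l 16166472) (b (l 16366520) (l 16372600))) (l 15958032)) (b (l 16090920) (l 16134040))) (b (l 539049315463) (l 15717136))) (a (b (c (c (l 16208224) (l 16261760)) (l 16249624)) (l 16278072)) (b (c (l 15882600) (l 15893800)) (c (l 16057720) (l 16080952))))) (b (a (b (l 15957112) (a (l 16290712) (l 16162440))) (b (l 15525456) (l 15679680))) (a (c (l 16179856) (l 16226232)) (b (c (l 15903360) (l 15909128)) (l 16049728))))) (b (a (b (c (l 393558137367) (b (l 15931024) (l 15937192))) (c (l 16006312) (l 15996536))) (b (c (l 15632696) (l 15591816)) (c (l 15573736) (b (l 15684528) (l 15726472))))) (a (c (b (l 16202520) (l 16272624)) (l 16130392)) (c (b (l 15773128) (l 16021984)) (b (l 15818984) (l 15984288)))))) (a (b (b (l 1) (c (c (l 514352648375) (l 15280208)) (c (l 15360808) (l 15250024)))) (c (c (b (l 15344864) (c (l 15586728) (l 15657392))) (b (l 15342712) (b (l 15628960) (l 15678472)))) (c (b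 (l 15270944) (l 15563784)) (b (b (l 15419360) (l 15497032)) (l 15560128))))) (b (l 1) (c (c (b (l 505762076439) (c (l 15236088) (l 15222216))) (b (l 14976536) (l 15010088))) (c (b (l 15030096) (l 14992992)) (b (l 14911672) (b (l 15094536) (l 15145024)))))))), by decide +kernel⟩

def k2_pm_022 : ∃ t, chk3 f_pm_022 t 16 19 1 = true :=
  ⟨(c (a (b (b (a (c (l 16314024) (l 16284728)) (c (b (l 16172664) (l 16113296)) (l 16003608))) (a (c (l 16451656) (l 16410960)) (c (l 16142824) (l 16085336)))) (a (c (a (l 16427792) (l 16285736)) (l 16252152)) (c (l 15988144) (l 15968048)))) (b (b (c (a (b (l 15763392) (l 15693856)) (b (l 15219384) (b (l 15366632) (l 15381712)))) (a (l 15520256) (b (l 15288416) (l 15263560)))) (c (a (l 15758112) (l 15349328)) (l 15368168))) (c (a (l 15635632) (l 15255080)) (l 15132600)))) (a (a (b (b (c (l 16256432) (l 16292440)) (l 16310064)) (a (l 16381696) (l 16223352))) (b (b (c (l 15976352) (l 16038520)) (l 16002312)) (l 15898416))) (b (b (c (b (l 15239088)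 (l 15247928)) (b (l 15338840) (l 15326752))) (c (l 15377512) (l 15396800))) (c (l 15295360) (l 15307240))))), by decide +kernel⟩

def k3_pm_022 : ∃ t, chk3 f_pm_022 t 17 9 1 = true :=
  ⟨(a (a (b (b (l 1) (b (l 1) (c (c (c (l 14618592) (l 14747384)) (l 14678192)) (c (l 14683264) (l 14535648))))) (c (b (b (c (b (l 14856416) (b (l 14905120) (l 14926792))) (b (l 14821552) (l 14688608))) (c (c (l 14932664) (l 14910704)) (l 14867792))) (c (l 14649208) (l 14785624))) (b (b (c (b (l 14781432) (l 14828520)) (b (l 14731880) (l 14771344))) (c (l 14803552) (l 14743296))) (l 14588120)))) (b (l 1) (c (b (b (c (a (b (l 14496512) (b (l 14545152) (l 14568432))) (b (l 1) (c (l 14381944) (l 14381408)))) (a (b (l 14455248) (l 14516704)) (l 598102502727))) (c (a (l 14578400) (l 14417152)) (a (l 14532680) (l 14372576)))) (c (a (b (l 14573128) (l 14536696)) (b (l 14404688) (l 14404456))) (a (l 14473256) (l 14340736)))) (b (b (c (a (l 14444232) (l 14274032)) (a (b (l 14370048) (l 14425056)) (l 14227248)))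 (c (a (l 14474816) (l 14320832)) (a (l 14409808) (l 14260112)))) (c (l 14102160) (l 14268600)))))) (b (l 1) (b (b (l 1) (c (c (c (l 535825088247) (l 14166080)) (l 14130304)) (c (l 14081176) (l 490190688071)))) (c (c (b (a (l 14292184) (l 14104960)) (a (l 14290464) (l 14122880))) (b (a (l 14240376) (l 14055880)) (a (l 14220696) (l 14065992)))) (c (b (l 14084688) (l 14067072)) (b (a (l 14110784) (l 13942680)) (l 13996872))))))), by decide +kernel⟩

def k4_pm_022 : ∃ t, chk3 f_pm_022 t 9 9 1 = true :=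
  ⟨(b (l 1) (a (a (b (l 1) (c (c (b (l 670578943959) (l 529918815719)) (l 595953760407)) (c (l 618502220887) (b (l 13650704) (l 500390515751))))) (l 1)) (l 1))), by decide +kernel⟩

def k5_pm_022 : ∃ t, chk3 f_pm_022 t 5 4 1 = true :=
  ⟨(l 1), by decide +kernel⟩

def k6_pm_022 : ∃ t, chk3 f_pm_022 t 8 10 2 = true :=
  ⟨(b (a (b (a (a (a (c (l 16227224) (l 16327016)) (b (c (l 16174200) (l 16162960)) (l 16152608))) (b (c (l 15884512) (l 15860464)) (c (l 15646240) (l 15818040)))) (c (b (l 15266160) (a (l 15442008) (l 15067440))) (b (l 15277056) (l 15112528)))) (a (b (a (c (l 16313392) (l 16352448)) (c (l 15990072) (l 15977720))) (a (c (b (l 16381520) (l 16327832)) (l 16204328)) (c (l 16003016) (l 16016240)))) (a (b (c (l 15294560) (l 15502256)) (c (l 15686896) (l 15753968))) (b (c (l 14960400) (l 15071192)) (b (c (l 15107056) (l 15204784)) (l 15363768)))))) (c (b (a (a (l 14728200) (a (l 14443680) (l 14322976))) (b (a (l 14260056) (l 14118520)) (l 14144904))) (a (b (a (l 14733800)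 (l 14313856)) (a (b (l 14833176) (l 14936992)) (a (l 14607296) (l 14494312)))) (b (l 14208928) (b (l 14323072) (l 14418928))))) (b (a (a (l 14656128) (a (l 14357832) (l 14232416))) (b (l 14103040) (l 14056704))) (a (b (a (l 14679504) (l 14325464)) (a (l 14702808) (l 14495984))) (b (l 14119464) (l 14295848)))))) (a (a (b (a (b (a (l 15947152) (b (l 16353992) (l 16212880))) (c (l 15960504) (l 15947744))) (b (c (l 16413792) (l 16453536)) (c (l 16198464) (l 16277392)))) (a (l 15791296) (b (l 16021384) (l 16087848)))) (b (a (b (l 15897464) (l 16114272)) (c (l 15622096) (l 15688728))) (a (b (a (l 16375144) (l 16513936)) (l 16265288)) (b (l 16062096) (l 16265936))))) (b (a (a (c (b (l 15149984) (l 15470608)) (l 15117120)) (b (a (c (l 14819592) (l 14782464)) (l 14670552)) (a (l 15108768) (l 14942032)))) (b (l 14437408) (c (a (l 14837952) (l 14721704)) (l 14739608)))) (a (a (c (l 15807760) (l 15856400)) (c (l 15396080) (l 15500000))) (b (a (l 15120408) (c (l 14957600) (l 14921888)))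 (l 15360688)))))), by decide +kernel⟩

def k7_pm_022 : ∃ t, chk3 f_pm_022 t 8 10 3 = true :=
  ⟨(b (a (a (b (a (b (a (l 16315248) (l 16149664)) (l 16136528)) (b (l 15838224) (l 15606528))) (b (a (c (l 16370424) (l 16346368)) (l 15853976)) (a (b (l 16271200) (l 16231664)) (c (l 16029344) (l 16021328))))) (a (b (l 15175184) (b (c (l 15480616) (l 15458632)) (l 15602424))) (b (l 14997960) (b (l 15026320) (b (l 15163568) (l 15314328)))))) (b (a (c (a (l 14603768) (l 14227632)) (l 14141640)) (c (l 14002784) (l 13933368))) (b (a (a (l 14623112) (l 14254296)) (l 14024312)) (a (a (b (l 14738816) (l 14851960)) (l 14287808)) (l 14217760))))) (a (a (b (a (b (a (l 16008192) (l 16228192)) (l 15865408)) (b (l 16324312) (l 16122992))) (a (l 15781408) (l 15870376))) (b (a (b (l 16000384) (l 16207616)) (l 15515560)) (b (a (l 16387080) (l 16128248)) (a (l 16381264) (l 16364024))))) (b (a (a (b (l 15076320) (l 15412512)) (b (l 14559832) (l 14963520))) (b (l 14444256) (l 14684840))) (a (a (l 15729704)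 (l 15340688)) (b (l 14973240) (l 15309896)))))), by decide +kernel⟩

def k8_pm_022 : ∃ t, chk3 f_pm_022 t 9 10 1 = true :=
  ⟨(b (b (a (c (a (c (b (a (l 13955336) (l 13752544)) (a (b (l 13957296) (l 13927152)) (c (l 13806664) (l 13775864)))) (b (l 119212441751) (a (l 13866632) (l 13722848)))) (c (b (l 708696122663) (c (l 357045719911) (l 13502976))) (b (l 13428120) (l 277051798503)))) (a (b (c (l 13730632) (l 13407896)) (c (l 13710136) (l 13631448))) (b (l 781710207303) (c (l 13386440) (a (l 13407432) (l 13227896)))))) (l 1)) (a (c (b (a (c (c (l 13910720) (l 13952520)) (l 13889224)) (c (a (c (l 13781928) (l 13750296)) (l 13573536)) (a (l 13694696) (l 13532000)))) (c (a (b (l 14079896) (l 14227400)) (b (b (l 13776368) (l 13904336)) (l 13999552))) (a (l 14084816) (b (l 13753176) (l 13917992))))) (b (a (l 13683824) (c (l 13510560) (l 13223512))) (c (b (l 13621616) (l 13951544)) (l 13568344)))) (a (b (a (c (c (l 682926125031) (l 13350424)) (l 719969887047)) (l 1)) (c (b (c (b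 (l 351677029655) (l 13598632)) (l 249134597991)) (c (l 13652864) (l 13654864))) (b (a (c (l 13505928) (l 13430864)) (l 13330480)) (a (l 13611128) (l 13490752))))) (l 1)))) (a (b (c (c (a (l 14485024) (b (l 14176776) (l 14411616))) (b (l 14202512) (l 14424888))) (c (l 14230696) (l 14190440))) (c (b (c (l 14715400) (l 14655448)) (a (c (l 14783384) (l 14996264)) (l 14816520))) (b (l 14582056) (a (l 14948240) (l 14721280))))) (c (b (a (c (b (a (l 14001808) (l 13882176)) (a (l 14267048) (l 14177160))) (b (l 13850320) (l 14139840))) (b (c (l 13705192) (l 13646736)) (c (l 14024712) (l 13967704)))) (a (c (l 14521672) (l 14508656)) (b (c (l 14327368) (l 14263864)) (l 14480800)))) (b (a (b (a (l 13814616) (l 13714872)) (l 14024800)) (b (l 684000137367) (c (l 13901632) (l 13834304)))) (a (l 14411568) (b (l 14136784) (l 14428592))))))), by decide +kernel⟩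

def k9_pm_022 : ∃ t, chk3 f_pm_022 t 5 10 1 = true :=
  ⟨(a (a (b (l 1) (a (c (b (c (l 888548119351) (l 13340472)) (b (l 14059424) (c (l 14448800) (l 14396952)))) (b (l 855261817015) (b (l 568036896743) (l 222292661159)))) (b (l 1) (b (l 1) (c (l 13991864) (l 14123184)))))) (l 1)) (l 1)), by decide +kernel⟩

def k10_pm_022 : ∃ t, chk3 f_pm_022 t 4 11 1 = true :=
  ⟨(b (a (a (a (b (c (c (l 15807424) (l 15790120)) (l 15745640)) (c (b (l 15664744) (a (l 15404816) (l 15720672))) (a (l 15414176) (l 15736760)))) (c (b (a (l 16200104) (l 16362224)) (a (l 16067656) (l 16364816))) (b (a (l 16247856) (l 16483712)) (a (l 16045488) (l 16352880))))) (b (a (c (a (b (l 16188184) (l 16563528)) (b (l 16012512) (l 16132040))) (a (b (l 16259576) (l 16557528)) (b (l 16007040) (l 16220808)))) (c (l 15627664) (l 15742360))) (a (c (a (l 16660232) (l 16506512)) (l 16394560)) (c (b (l 16226336) (l 16564968)) (b (l 16274192) (l 16557784)))))) (b (a (b (a (c (a (l 15402000) (l 15216424)) (l 15259784))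 (c (l 15045048) (l 14970616))) (a (l 15470232) (c (a (l 15370632) (l 15236016)) (l 15255456)))) (c (c (a (l 15041776) (l 14975728)) (l 14952544)) (l 14706360))) (a (b (c (a (l 16014440) (l 15631712)) (l 15601728)) (a (b (l 16270944) (c (l 16453656) (l 16442280))) (l 15957840))) (a (b (c (l 15330240) (l 15312240)) (a (l 15690160) (l 15468192))) (c (l 15422768) (l 15346656)))))) (a (a (a (b (b (c (a (l 15286616) (l 15650080)) (l 15291208)) (l 15379192)) (l 15232296)) (b (b (c (l 16051728) (l 16094032)) (a (l 15972568) (l 16300800))) (a (l 15907760) (c (l 16296192) (l 16282608))))) (a (b (c (a (l 16575624) (l 16575208)) (l 16542848)) (c (l 16286248) (l 16447944))) (b (l 16573648) (l 16453800)))) (a (b (b (a (c (l 16423696) (l 16522232)) (l 16114968)) (a (l 16610400) (l 16452048))) (a (l 16516008) (l 16503728))) (b (a (b (b (l 15679704) (l 15963576)) (l 16100328)) (b (c (b (l 15699648) (l 15741120)) (l 15681352)) (l 15816488))) (a (l 16205440) (l 16066056)))))), by decide +kernel⟩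

def k11_pm_022 : ∃ t, chk3 f_pm_022 t 5 11 1 = true :=
  ⟨(b (a (a (b (c (a (b (c (l 14751032) (l 14692352)) (l 14988832)) (b (l 14562168) (l 14756792))) (a (b (l 14596032) (l 14868864)) (b (a (l 14507160) (l 14427384)) (l 205650616535)))) (c (a (l 15186216) (l 15307224)) (a (l 15273240) (l 15206320)))) (a (b (l 622798765783) (c (l 15196464) (l 231957953031))) (b (l 1) (c (l 15034272) (l 14711848))))) (l 1)) (a (a (b (c (b (a (l 15662808) (l 15624288)) (l 15684928)) (l 15595072)) (a (l 15758264) (l 15689504))) (a (c (l 15625792) (l 15540000)) (b (a (l 15286768) (l 15197816)) (l 15578704)))) (a (b (l 292624481207) (c (l 15409424) (l 202430484551))) (l 1)))), by decide +kernel⟩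

def k12_pm_022 : ∃ t, chk3 f_pm_022 t 3 2 1 = true :=
  ⟨(l 1), by decide +kernel⟩

def k13_pm_022 : ∃ t, chk3 f_pm_022 t 2 3 1 = true :=
  ⟨(a (b (a (b (a (b (a (c (l 15184168) (l 15127128)) (l 15713192)) (a (c (l 14886112) (l 14991184)) (b (l 15796768) (l 15689400)))) (a (b (c (l 16364504) (l 16466528)) (a (l 16331904) (l 16674720))) (b (b (l 16360800) (l 16408080)) (l 16596192)))) (a (b (a (l 15009920) (l 15715048)) (l 15278576)) (b (a (a (l 16239408) (l 16552576)) (l 16679056)) (l 16350312)))) (b (b (a (b (l 16408088) (l 16251464)) (b (a (l 16479064) (l 16393552)) (l 16427784))) (a (b (l 16257544) (l 16419376)) (l 16038624))) (b (a (l 16606368) (b (l 16277304) (l 16395848))) (a (l 16754200) (l 16581680))))) (a (a (a (l 15009920) (l 15715048)) (a (l 16307560) (l 16643792))) (a (l 16769696) (b (l 16697800) (l 16687352))))) (b (a (b (b (a (b (a (l 16129024) (l 15869760)) (l 16138232)) (a (b (l 15721160) (l 15919888)) (a (l 15727280) (l 15688600)))) (a (l 16315440) (b (a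 (l 16251856) (l 15969640)) (a (l 16507440) (l 16310120))))) (b (a (l 16097360) (l 16258240)) (a (l 16390016) (l 16117824)))) (b (b (a (c (l 15510648) (l 15474120)) (b (l 15138592) (a (l 15498920) (l 15349328)))) (a (b (l 15735536) (a (l 16009096) (l 15795008))) (b (l 15533896) (l 15657856)))) (b (a (b (l 16068224) (l 16444512)) (b (l 15625064) (l 15773608))) (a (l 16444888) (b (l 16135680) (l 16476480)))))) (b (a (b (a (l 16627128) (l 16441640)) (a (l 16735552) (l 16668816))) (b (a (l 16333736) (l 16389168)) (a (l 16479736) (l 16337264)))) (a (l 16748320) (b (l 16598792) (l 16733128)))))), by decide +kernel⟩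

def k14_pm_022 : ∃ t, chk3 f_pm_022 t 3 3 1 = true :=
  ⟨(b (a (b (a (b (l 14537792) (a (b (l 15209976) (l 213168149895)) (l 14996312))) (l 1)) (a (b (a (b (l 15583712) (l 15679472)) (b (l 15153312) (l 15404368))) (a (b (l 15710184) (l 15946720)) (b (l 15609560) (l 15705128)))) (b (l 470864904791) (a (b (l 15366864) (l 15523040)) (l 15105344))))) (l 1)) (a (b (a (b (a (l 16385072) (b (l 15780944) (l 16104552))) (a (l 16393720) (l 16415560))) (b (a (b (l 15632448) (l 15735536)) (l 200820161031)) (a (b (l 15900032) (l 16194056)) (b (l 15657856) (l 15771872))))) (a (b (l 16394296) (l 16459632)) (b (a (l 16437672) (b (l 15983328) (l 16240536))) (a (l 16364928) (l 16451544))))) (b (a (b (l 489118673399) (a (l 15445000) (l 15208408))) (l 1)) (a (b (a (l 15530920) (l 15541920)) (a (b (l 16051576) (l 16345936)) (l 15595960))) (b (l 497708840343) (a (l 15573624) (l 15304352))))))), by decide +kernel⟩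

theorem s15_pm_022 : ∃ t, chk3 f_pm_022 t 1 3 1 = true := ex3_a k13_pm_022 k14_pm_022

theorem s16_pm_022 : ∃ t, chk3 f_pm_022 t 2 11 1 = true := ex3_a k10_pm_022 k11_pm_022

theorem s17_pm_022 : ∃ t, chk3 f_pm_022 t 8 10 1 = true := ex3_c k6_pm_022 k7_pm_022

theorem s18_pm_022 : ∃ t, chk3 f_pm_022 t 4 10 1 = true := ex3_a s17_pm_022 k8_pm_022

theorem s19_pm_022 : ∃ t, chk3 f_pm_022 t 2 10 1 = true := ex3_a s18_pm_022 k9_pm_022

theorem s20_pm_022 : ∃ t, chk3 f_pm_022 t 2 5 1 = true := ex3_b s19_pm_022 s16_pm_022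

theorem s21_pm_022 : ∃ t, chk3 f_pm_022 t 16 9 1 = true := ex3_b k1_pm_022 k2_pm_022

theorem s22_pm_022 : ∃ t, chk3 f_pm_022 t 8 9 1 = true := ex3_a s21_pm_022 k3_pm_022

theorem s23_pm_022 : ∃ t, chk3 f_pm_022 t 4 9 1 = true := ex3_a s22_pm_022 k4_pm_022

theorem s24_pm_022 : ∃ t, chk3 f_pm_022 t 4 4 1 = true := ex3_b k0_pm_022 s23_pm_022

theorem s25_pm_022 : ∃ t, chk3 f_pm_022 t 2 4 1 = true := ex3_a s24_pm_022 k5_pm_022

theorem s26_pm_022 : ∃ t, chk3 f_pm_022 t 2 2 1 = true := ex3_b s25_pm_022 s20_pm_022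

theorem s27_pm_022 : ∃ t, chk3 f_pm_022 t 1 2 1 = true := ex3_a s26_pm_022 k12_pm_022

theorem s28_pm_022 : ∃ t, chk3 f_pm_022 t 1 1 1 = true := ex3_b s27_pm_022 s15_pm_022

theorem c_pm_022 : CertNX 67108864 469762048 1073741824 536870912 1046898278 26843546 3 true true false .pp 0 2 2
    ndN2q0 ndN3q2 pcN2 Cut.none Ext.none :=
  certNX1 (fam := true) (s1 := true) (s2 := false) (a := 0) (b := 2) (c := 2) (cn := .pp) (n1 := ndN2q0) (n2 := ndN3q2) (pc := pcN2) (cut := Cut.none) (xt := Ext.none) (P1 := 67108864) (W1 := 469762048) (P2 := 1073741824) (W2 := 536870912) (P3 := 1046898278) (W3 := 26843546) (N0 := 3)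
    rfl (fun _ => rfl) s28_pm_022

noncomputable def f_pm_023 : ℕ → ℕ → ℕ → ℕ → Bool := onCell 67108864 469762048 1610612736 536870912 1046898278 26843546
    (rowNX 3 1 true true false .up 0 2 3 (qsf 67108864 469762048 1073741824 536870912 3) ndN2q0 ndN3q2 pcN3 Cut.none Ext.none)

def k0_pm_023 : ∃ t, chk3 f_pm_023 t 1 1 1 = true :=
  ⟨(b (a (a (b (a (a (a (l 15009920) (l 15715048)) (l 16308376)) (l 16735584)) (a (l 2) (b (l 16735584) (l 2)))) (b (a (l 16746064) (l 16777192)) (b (l 16762032) (l 16762032)))) (b (a (b (a (b (l 16641520) (l 16752104)) (b (l 16392920) (l 16492936))) (a (l 16777216) (l 16706368))) (b (a (b (a (l 16457288) (l 16196120)) (a (l 16340128) (l 16455032))) (b (a (l 15727024) (l 15603024)) (a (l 16222304) (l 15757048)))) (a (b (l 16403624) (l 16527992)) (b (a (l 16444888) (l 16238928)) (l 16379336))))) (a (b (l 16777216) (l 16777216)) (b (a (l 16728152) (b (l 16425992) (l 16598792))) (b (l 16751544) (l 16777184)))))) (b (a (a (l 2) (b (a (l 2) (l 16777216))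 (l 2))) (b (l 16777216) (l 100092870919))) (l 4))), by decide +kernel⟩

theorem c_pm_023 : CertNX 67108864 469762048 1073741824 536870912 1046898278 26843546 3 true true false .up 0 2 3
    ndN2q0 ndN3q2 pcN3 Cut.none Ext.none :=
  certNX1 (fam := true) (s1 := true) (s2 := false) (a := 0) (b := 2) (c := 3) (cn := .up) (n1 := ndN2q0) (n2 := ndN3q2) (pc := pcN3) (cut := Cut.none) (xt := Ext.none) (P1 := 67108864) (W1 := 469762048) (P2 := 1073741824) (W2 := 536870912) (P3 := 1046898278) (W3 := 26843546) (N0 := 3)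
    rfl (fun _ => rfl) k0_pm_023

noncomputable def f_pm_033 : ℕ → ℕ → ℕ → ℕ → Bool := onCell 67108864 469762048 1610612736 536870912 1046898278 26843546
    (rowNX 3 1 true true false .pnn 0 3 3 (qsf 67108864 469762048 1610612736 536870912 3) ndN2q0 ndN3q3 pcN3 Cut.none Ext.none)

def k0_pm_033 : ∃ t, chk3 f_pm_033 t 1 1 1 = true :=
  ⟨(b (a (a (b (a (a (l 214241694519) (l 16329344)) (l 16735584)) (a (a (b (l 15299544) (l 15173712)) (b (l 16518088) (l 16455176))) (b (l 16735584) (l 16735584)))) (b (l 1) (b (l 16762032) (l 16762032)))) (l 1)) (b (b (a (a (a (a (b (l 15362456) (l 15278576)) (b (l 16518088) (l 16518088))) (l 16630720)) (a (l 16746064) (l 16777216))) (l 16777216)) (a (l 4) (l 16777176))) (l 4))), by decide +kernel⟩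

theorem c_pm_033 : CertNX 67108864 469762048 1610612736 536870912 1046898278 26843546 3 true true false .pnn 0 3 3
    ndN2q0 ndN3q3 pcN3 Cut.none Ext.none :=
  certNX1 (fam := true) (s1 := true) (s2 := false) (a := 0) (b := 3) (c := 3) (cn := .pnn) (n1 := ndN2q0) (n2 := ndN3q3) (pc := pcN3) (cut := Cut.none) (xt := Ext.none) (P1 := 67108864) (W1 := 469762048) (P2 := 1610612736) (W2 := 536870912) (P3 := 1046898278) (W3 := 26843546) (N0 := 3)
    rfl (fun _ => rfl) k0_pm_033

noncomputable def f_pm_101 : ℕ → ℕ → ℕ → ℕ → Bool := onCell 536870912 536870912 0 536870912 1046898278 26843546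
    (rowNX 3 2 true true false .npn 1 0 1 (qsf 536870912 536870912 0 536870912 1) ndN2q1 ndN3q0 pcN1 Cut.none Ext.none)

def k0_pm_101 : ∃ t, chk3 f_pm_101 t 1 1 1 = true :=
  ⟨(a (l 3) (l 3)), by decide +kernel⟩

theorem c_pm_101 : CertNX 536870912 536870912 0 536870912 1046898278 26843546 3 true true false .npn 1 0 1
    ndN2q1 ndN3q0 pcN1 Cut.none Ext.none :=
  certNX2 (fam := true) (s1 := true) (s2 := false) (a := 1) (b := 0) (c := 1) (cn := .npn) (n1 := ndN2q1) (n2 := ndN3q0) (pc := pcN1) (cut := Cut.none) (xt := Ext.none) (P1 := 536870912) (W1 := 536870912) (P2 := 0) (W2 := 536870912) (P3 := 1046898278) (W3 := 26843546) (N0 := 3)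
    rfl (fun _ => rfl) k0_pm_101

noncomputable def f_pm_102 : ℕ → ℕ → ℕ → ℕ → Bool := onCell 536870912 536870912 1073741824 536870912 1046898278 26843546
    (rowNX 3 1 true true false .npp 1 0 2 (qsf 536870912 536870912 0 536870912 2) ndN2q1 ndN3q0 pcN2 Cut.none Ext.none)

def k0_pm_102 : ∃ t, chk3 f_pm_102 t 1 1 1 = true :=
  ⟨(b (b (b (l 3) (a (b (l 3) (b (l 3) (c (l 1037939230231) (l 1004116362439)))) (l 3))) (b (b (a (a (b (b (l 16775744) (l 2)) (l 2)) (b (c (l 16776072) (l 16776024)) (b (c (l 16756872) (b (l 16772568) (l 16758544))) (b (c (l 16725256) (l 16723432)) (l 16649968))))) (b (a (a (c (l 2554599254535) (l 2591106471463)) (l 3)) (l 3)) (a (b (a (b (l 16740840) (l 16740904)) (b (l 16472864) (l 16410016))) (b (a (b (l 16740888) (l 16682600)) (c (l 16478200) (l 16467704))) (a (b (b (l 16752672) (l 16744016)) (l 16712464)) (b (b (l 16412600) (a (l 16571704) (l 16347496))) (l 16502696))))) (b (a (b (l 3) (a (l 16044840) (l 15671136))) (l 3)) (b (a (c (l 15664104)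 (l 15716288)) (c (a (l 15377480) (l 984248487399)) (a (l 15328688) (l 15040664)))) (a (b (b (l 15772544) (a (l 16046792) (l 15663144))) (b (b (b (a (l 16050160) (l 15663520)) (b (a (l 16058912) (l 15665992)) (c (l 15719272) (l 15709096)))) (l 15876416)) (l 15876824))) (b (a (c (l 15366328) (l 15317104)) (b (l 15059776) (b (l 15056848) (l 15054904)))) (a (b (b (b (l 15337480) (b (l 15336768) (c (l 15362624) (l 15313264)))) (l 15336936)) (l 15334472)) (b (b (b (l 15053448) (b (l 15052720) (c (l 15081528) (l 15022888)))) (l 15051016)) (l 15048112)))))))))) (a (l 16629392) (a (a (l 16712256) (l 16509712)) (a (l 15882264) (a (a (l 15394264) (l 15217768)) (l 14823336)))))) (a (l 16749456) (a (a (l 16749040) (l 16482248)) (a (l 15865056) (b (a (l 15280152) (a (l 14985936) (l 14811104))) (l 15064664))))))) (a (b (l 16777216) (l 2)) (a (b (a (l 16740768) (l 16472856)) (l 16592560)) (b (a (l 15855624) (l 15022656)) (a (l 15855624) (l 15064600)))))), by decide +kernel⟩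

theorem c_pm_102 : CertNX 536870912 536870912 0 536870912 1046898278 26843546 3 true true false .npp 1 0 2
    ndN2q1 ndN3q0 pcN2 Cut.none Ext.none :=
  certNX1 (fam := true) (s1 := true) (s2 := false) (a := 1) (b := 0) (c := 2) (cn := .npp) (n1 := ndN2q1) (n2 := ndN3q0) (pc := pcN2) (cut := Cut.none) (xt := Ext.none) (P1 := 536870912) (W1 := 536870912) (P2 := 0) (W2 := 536870912) (P3 := 1046898278) (W3 := 26843546) (N0 := 3)
    rfl (fun _ => rfl) k0_pm_102

noncomputable def f_pm_112 : ℕ → ℕ → ℕ → ℕ → Bool := onCell 1073741824 536870912 536870912 536870912 1046898278 26843546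
    (rowNX 3 2 true true false .dn 1 1 2 (qsf 536870912 536870912 536870912 536870912 2) ndN2q1 ndN3q1 pcN2 Cut.none Ext.none)

def k0_pm_112 : ∃ t, chk3 f_pm_112 t 1 1 1 = true :=
  ⟨(b (a (a (a (l 3) (a (l 3) (b (a (l 3) (c (l 16774792) (l 16774712))) (a (l 1) (a (l 1) (l 16764224)))))) (a (a (a (b (a (l 16775744) (c (l 16760608) (l 16760024))) (b (c (l 16740552) (l 16739264)) (l 1))) (a (b (c (l 16721616) (l 16719672)) (l 16604088)) (a (l 16584288) (a (l 16550664) (b (l 16574856) (l 16498144)))))) (l 16595080)) (l 16809872))) (a (b (a (l 16765952) (l 16634296)) (l 16777216)) (b (b (a (l 16172024) (l 15468072)) (l 16360304)) (a (l 16765952) (l 16634296))))) (a (a (l 1) (b (a (l 1) (b (l 16562904) (l 1))) (l 1))) (b (b (l 374768824679) (b (l 16213288) (l 410200222487))) (a (b (l 499318628871) (l 1)) (b (l 14382296) (b (l 13634512) (b (l 13016312) (l 12707432)))))))), by decide +kernel⟩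

theorem c_pm_112 : CertNX 536870912 536870912 536870912 536870912 1046898278 26843546 3 true true false .dn 1 1 2
    ndN2q1 ndN3q1 pcN2 Cut.none Ext.none :=
  certNX2 (fam := true) (s1 := true) (s2 := false) (a := 1) (b := 1) (c := 2) (cn := .dn) (n1 := ndN2q1) (n2 := ndN3q1) (pc := pcN2) (cut := Cut.none) (xt := Ext.none) (P1 := 536870912) (W1 := 536870912) (P2 := 536870912) (W2 := 536870912) (P3 := 1046898278) (W3 := 26843546) (N0 := 3)
    rfl (fun _ => rfl) k0_pm_112

noncomputable def f_pm_113 : ℕ → ℕ → ℕ → ℕ → Bool := onCell 536870912 536870912 536870912 536870912 1046898278 26843546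
    (rowNX 3 0 true true false .nn 1 1 3 (qsf 536870912 536870912 536870912 536870912 3) ndN2q1 ndN3q1 pcN3 Cut.none Ext.none)

def k0_pm_113 : ∃ t, chk3 f_pm_113 t 1 1 1 = true :=
  ⟨(a (b (l 432214638599) (b (b (l 16684248) (b (l 16213288) (l 369398464407))) (b (a (l 14592016) (l 126193219207)) (b (a (l 13634512) (l 13634512)) (a (b (l 13016312) (l 12707432)) (b (l 13016312) (l 12707432))))))) (b (a (b (l 16592560) (l 16592560)) (b (a (l 15855624) (l 15064600)) (a (l 15855624) (l 15064600)))) (a (b (b (l 16502992) (b (l 16038400) (l 15502248))) (b (a (l 14558128) (l 14318208)) (b (l 13467736) (a (l 12796944) (l 12587000))))) (b (b (l 15382152) (b (l 14954736) (l 14470880))) (b (a (l 13799568) (b (a (l 13536176) (l 13240880)) (a (l 13063328) (l 12902824)))) (a (b (a (l 13026088) (l 12768240)) (a (l 12302152) (b (l 12191376) (l 11903896)))) (b (a (b (l 12763240) (l 12465952)) (b (l 12789576) (a (l 12583248) (l 12982736)))) (a (b (l 12125008) (a (l 11874536) (c (l 12516776)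 (l 11487264)))) (b (a (l 12451960) (l 4)) (l 4)))))))))), by decide +kernel⟩

theorem c_pm_113 : CertNX 536870912 536870912 536870912 536870912 1046898278 26843546 3 true true false .nn 1 1 3
    ndN2q1 ndN3q1 pcN3 Cut.none Ext.none :=
  certNX0 (fam := true) (s1 := true) (s2 := false) (a := 1) (b := 1) (c := 3) (cn := .nn) (n1 := ndN2q1) (n2 := ndN3q1) (pc := pcN3) (cut := Cut.none) (xt := Ext.none) (P1 := 536870912) (W1 := 536870912) (P2 := 536870912) (W2 := 536870912) (P3 := 1046898278) (W3 := 26843546) (N0 := 3)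
    rfl k0_pm_113

noncomputable def f_pm_123 : ℕ → ℕ → ℕ → ℕ → Bool := onCell 1610612736 536870912 1073741824 536870912 1046898278 26843546
    (rowNX 3 2 true true false .npn 1 2 3 (qsf 536870912 536870912 1073741824 536870912 3) ndN2q1 ndN3q2 pcN3 Cut.none Ext.none)

def k0_pm_123 : ∃ t, chk3 f_pm_123 t 1 1 1 = true :=
  ⟨(b (a (b (a (b (b (l 15517432) (l 15709632)) (b (l 16155904) (l 16540528))) (b (a (b (l 15517432) (l 15709632)) (b (l 15517432) (l 15709632))) (b (a (l 16155904) (l 16155904)) (a (l 16540528) (l 16540528))))) (a (b (l 16348592) (l 1)) (b (a (l 16348592) (l 16348592)) (a (l 16715384) (l 16715384))))) (a (b (b (a (b (a (l 15517392) (l 15489560)) (l 15709616)) (a (b (l 15412816) (l 15692120)) (b (c (l 15385720) (l 15252264)) (l 4)))) (a (b (l 16155904) (l 16540536)) (a (b (l 16155888) (l 16540536)) (l 4)))) (a (b (l 16243736) (l 16715392)) (a (b (l 16348592) (l 16715384)) (l 4)))) (l 4))) (a (a (l 1) (a (l 1) (l 16777216))) (a (a (l 16777216) (c (l 16777176)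 (l 16777176))) (l 4)))), by decide +kernel⟩

theorem c_pm_123 : CertNX 536870912 536870912 1073741824 536870912 1046898278 26843546 3 true true false .npn 1 2 3
    ndN2q1 ndN3q2 pcN3 Cut.none Ext.none :=
  certNX2 (fam := true) (s1 := true) (s2 := false) (a := 1) (b := 2) (c := 3) (cn := .npn) (n1 := ndN2q1) (n2 := ndN3q2) (pc := pcN3) (cut := Cut.none) (xt := Ext.none) (P1 := 536870912) (W1 := 536870912) (P2 := 1073741824) (W2 := 536870912) (P3 := 1046898278) (W3 := 26843546) (N0 := 3)
    rfl (fun _ => rfl) k0_pm_123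

noncomputable def f_pm_133 : ℕ → ℕ → ℕ → ℕ → Bool := onCell 536870912 536870912 1610612736 536870912 1046898278 26843546
    (rowNX 3 0 true true false .dn 1 3 3 (qsf 536870912 536870912 1610612736 536870912 3) ndN2q1 ndN3q3 pcN3 Cut.none Ext.none)

def k0_pm_133 : ∃ t, chk3 f_pm_133 t 1 1 1 = true :=
  ⟨(l 4), by decide +kernel⟩

theorem c_pm_133 : CertNX 536870912 536870912 1610612736 536870912 1046898278 26843546 3 true true false .dn 1 3 3
    ndN2q1 ndN3q3 pcN3 Cut.none Ext.none :=
  certNX0 (fam := true) (s1 := true) (s2 := false) (a := 1) (b := 3) (c := 3) (cn := .dn) (n1 := ndN2q1) (n2 := ndN3q3) (pc := pcN3) (cut := Cut.none) (xt := Ext.none) (P1 := 536870912) (W1 := 536870912) (P2 := 1610612736) (W2 := 536870912) (P3 := 1046898278) (W3 := 26843546) (N0 := 3)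
    rfl k0_pm_133

noncomputable def f_pm_202_a : ℕ → ℕ → ℕ → ℕ → Bool := onCell 0 420477299 1073741824 536870912 1046898278 26843546
    (rowNX 3 1 true true false .pp 2 0 2 (qsf 0 420477299 0 536870912 2) ndN2q2a ndN3q0 pcN2 Cut.none Ext.none)

def k0_pm_202_a : ∃ t, chk3 f_pm_202_a t 2 2 1 = true :=
  ⟨(b (l 1) (b (b (b (a (l 1) (a (l 1) (a (b (l 1) (b (l 1) (c (l 16061632) (l 16042736)))) (b (c (c (l 15815112) (l 15802048)) (l 462813787463)) (c (b (b (l 15990088) (l 16060216)) (b (l 16097184) (l 16126504))) (b (c (l 16014576) (l 15947200)) (c (l 16031832) (l 15931296)))))))) (a (b (l 1) (a (l 715142927463) (c (l 15637432) (l 15574280)))) (a (c (b (l 15888576) (l 15688144)) (b (l 15641256) (c (l 15680168) (l 15676032)))) (c (b (a (l 15956520) (l 16016368)) (l 15725664)) (b (c (l 15878928) (l 15796520)) (l 15597976)))))) (a (b (c (a (l 15376064) (b (l 15451688) (l 15303976))) (a (b (l 15437176) (l 15283720)) (b (l 15439960) (l 15285328)))) (c (a (l 15114672) (l 15121160))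 (l 15071360))) (a (c (b (l 15242528) (l 15196552)) (b (l 15436256) (l 15144864))) (b (c (l 15617080) (l 15594424)) (l 15324248))))) (b (a (b (c (l 14872560) (l 14805256)) (a (l 14614232) (b (l 14669672) (l 14605944)))) (a (b (l 14915136) (b (l 14768224) (l 14775328))) (b (b (l 15125656) (l 15046280)) (l 15076056)))) (a (b (a (l 14790280) (l 14854768)) (l 15206456)) (a (b (l 15046056) (l 15560592)) (b (l 15372112) (l 15770928))))))), by decide +kernel⟩

def k1_pm_202_a : ∃ t, chk3 f_pm_202_a t 3 8 1 = true :=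
  ⟨(b (l 1) (a (l 1) (b (l 1) (a (l 1) (a (l 1) (a (l 1) (b (l 1) (b (l 1) (b (l 1) (c (c (c (l 15790384) (l 324838421703)) (c (l 350608203063) (l 15875080))) (c (l 15864616) (l 15850688)))))))))))), by decide +kernel⟩

def k2_pm_202_a : ∃ t, chk3 f_pm_202_a t 6 18 1 = true :=
  ⟨(l 1), by decide +kernel⟩

def k3_pm_202_a : ∃ t, chk3 f_pm_202_a t 14 18 1 = true :=
  ⟨(b (l 1) (a (l 1) (b (b (l 1) (a (l 1) (c (c (c (l 15348584) (l 15336952)) (l 15298368)) (c (l 15295592) (l 15270776))))) (b (a (l 1) (c (c (c (l 15399184) (l 15388000)) (l 15371072)) (c (l 15350656) (c (l 15337408) (l 15329128))))) (c (c (c (l 388188027095) (l 15272448)) (c (l 15156872) (l 395704075095))) (c (a (l 15262264) (c (l 15431336) (l 15428632))) (a (l 758091812583) (c (l 15424704) (l 15418856))))))))), by decide +kernel⟩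

def k4_pm_202_a : ∃ t, chk3 f_pm_202_a t 15 36 1 = true :=
  ⟨(a (a (l 1) (b (l 1) (c (c (c (b (b (l 1) (c (l 306047338615) (l 15572000))) (l 15589448)) (l 432748830727)) (b (l 15525496) (l 15565536))) (c (b (l 15526720) (l 15546664)) (b (l 15506720) (c (l 15534600) (l 322153243223))))))) (a (b (b (l 1) (b (l 1) (c (c (c (c (l 360271608023) (l 15638800)) (l 15719632)) (l 15707088)) (c (l 15690160) (l 668435348375))))) (c (c (c (b (c (b (l 315711322551) (l 15741640)) (l 15733496)) (l 15755864)) (l 369935242103)) (b (l 15714864) (c (l 15742184) (l 15739848)))) (c (b (l 356513386727) (c (l 15740792) (l 15698656))) (b (c (l 15547512) (a (l 15635280) (l 15740656))) (c (l 15676320) (l 15735808)))))) (c (b (c (c (b (b (l 339870849287) (c (l 15901984) (l 15895744))) (c (b (l 15899048) (l 15898144)) (b (l 15892472) (l 15897976)))) (b (c (b (l 15895496) (l 15889784)) (l 273835687607)) (l 15891232))) (b (l 15860920) (c (l 15884384) (l 15879160)))) (c (b (c (l 15909128) (l 15905568))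 (c (l 15923488) (l 15949192))) (b (c (l 15905296) (l 15887608)) (c (l 15957616) (l 15964400))))) (b (c (b (l 289404911991) (c (l 15877304) (l 398926495623))) (b (c (l 15755408) (a (l 15803416) (b (l 15900032) (l 15906352)))) (c (a (l 15818240) (l 15929464)) (a (l 383894086567) (l 15928240))))) (c (b (c (l 15849424) (l 15851648)) (l 15821576)) (c (b (l 15893320) (l 15971960)) (l 15894320))))))), by decide +kernel⟩

def k5_pm_202_a : ∃ t, chk3 f_pm_202_a t 15 37 1 = true :=
  ⟨(c (a (b (c (b (c (l 340406818935) (l 344701766327)) (a (c (l 15500552) (l 15490256)) (c (l 15661592) (l 15656256)))) (b (c (l 348996713623) (l 351681008791)) (a (l 15474688) (c (l 15654344) (l 15656128))))) (c (b (a (c (l 15551968) (l 15542720)) (c (l 15728376) (l 15731936))) (a (c (l 15621224) (l 15620648)) (c (l 15825440) (l 15837056)))) (b (a (c (l 15536512) (l 15533896)) (c (l 15739216) (l 15744584))) (a (c (l 15623832) (l 15628664)) (l 15851224))))) (b (a (c (b (c (l 15792088) (l 15791496)) (c (l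 15857640) (l 15865936))) (b (c (l 15794456) (l 15799888)) (l 15709488))) (c (b (c (l 16009736) (l 16022216)) (l 16046344)) (b (l 15996616) (l 16123608)))) (a (c (c (l 15815848) (l 15914688)) (b (l 15978296) (l 16079304))) (c (b (l 16144128) (l 16245080)) (l 16132544))))) (a (a (b (c (c (l 638370044295) (l 687225231479)) (b (c (l 15395920) (l 15384344)) (c (l 15450016) (l 15381024)))) (c (b (c (l 15534096) (l 15532952)) (l 15609096)) (c (l 15409080) (l 15570392)))) (b (c (b (c (l 15589904) (l 15587576)) (c (l 15658192) (l 15658488))) (b (c (l 15563136) (l 15495912)) (c (l 15655864) (l 15651280)))) (c (b (l 15749336) (l 15850256)) (l 15787224)))) (b (c (a (b (c (l 15803456) (l 15804376)) (l 15886808)) (b (l 16021232) (l 16118984))) (b (a (l 15716936) (l 16032120)) (l 15909288))) (c (c (l 15887920) (l 15944544)) (l 15874912))))), by decide +kernel⟩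

def k6_pm_202_a : ∃ t, chk3 f_pm_202_a t 6 19 1 = true :=
  ⟨(a (a (l 1) (b (l 1) (b (l 1) (c (c (l 15642696) (l 15625840)) (c (l 15611096) (l 327521943799)))))) (a (b (l 1) (b (c (c (l 459055084327) (l 15437360)) (c (l 15355264) (b (l 15319968) (l 15433840)))) (c (c (b (l 15668656) (l 15814424)) (b (l 15655960) (l 15816752))) (c (b (l 15650312) (l 15819488)) (b (l 15539136) (l 15818176)))))) (b (b (l 1) (c (c (c (l 488582647639) (l 15235808)) (l 548175259591)) (c (l 599177953127) (b (l 15157672) (l 373155407047))))) (b (c (c (b (l 15513496) (l 15554608)) (b (l 15498800) (l 15574904))) (c (b (l 15364176) (l 15594960)) (c (l 408589401255) (l 15376528)))) (c (c (b (l 15756240) (l 15926640)) (b (l 15764720) (l 16002648))) (c (l 15687552) (l 15874016))))))), by decide +kernel⟩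

def k7_pm_202_a : ∃ t, chk3 f_pm_202_a t 7 76 1 = true :=
  ⟨(b (a (a (a (l 1) (c (c (c (l 15251848) (l 15239376)) (l 15220504)) (c (l 15195072) (l 15150024)))) (c (c (a (c (l 15388136) (l 15376880)) (c (l 15535648) (l 15531520))) (a (l 15319424) (c (l 15531072) (l 15534208)))) (c (a (l 15203480) (l 15514320)) (c (l 474624174823) (l 15326488))))) (a (c (c (a (l 15559216) (l 15933904)) (a (l 15696960) (l 15965616))) (c (l 15683768) (l 15837616))) (c (c (c (l 16110432) (l 16155520)) (a (l 16185928) (l 16389152))) (a (l 16087480) (c (l 16404768) (l 16399832)))))) (a (c (a (c (a (b (l 380671681511) (c (l 15252224) (l 15239792))) (b (l 15306944) (l 15358536))) (a (b (l 15168232) (l 15220992)) (b (l 15282960) (l 15335800)))) (c (b (a (l 15444008) (l 15610480)) (a (l 15394296) (l 15679208))) (b (a (l 15431656) (l 15621848)) (a (l 15497168) (l 15699536))))) (a (c (a (l 588440541863) (b (l 15261264) (l 15323536))) (a (b (l 15115072) (l 15171048)) (b (l 15245888) (l 15312856)))) (c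 (b (a (l 15430336) (l 15631064)) (l 15366600)) (b (l 15519816) (l 15590216))))) (a (c (c (b (l 15746176) (l 15777176)) (b (l 15883176) (l 15931728))) (c (l 15762128) (l 15853800))) (c (c (b (l 16219104) (l 16262648)) (a (l 16217472) (l 16401104))) (b (l 16144968) (a (l 16283648) (l 16516944))))))), by decide +kernel⟩

def k8_pm_202_a : ∃ t, chk3 f_pm_202_a t 7 77 1 = true :=
  ⟨(a (a (c (c (a (c (l 15359888) (l 15370248)) (b (l 15419592) (l 15550808))) (a (b (l 15325736) (l 15475256)) (b (l 15452336) (l 15621312)))) (c (a (b (l 15308552) (l 15472600)) (b (l 15450128) (l 15623992))) (a (b (l 15168264) (l 15465784)) (l 15424696)))) (c (c (a (c (l 15515048) (l 15584256)) (c (l 15791528) (l 15868432))) (a (b (l 15628272) (l 15811288)) (l 15811192))) (c (c (l 15670784) (l 15709264)) (l 15719112)))) (c (a (c (a (l 15923664) (l 16133712)) (c (l 16010056) (l 16048408))) (c (l 16290120) (l 16286864))) (a (c (l 15978552) (l 16032352)) (a (l 16277752) (l 16262776))))), by decide +kernel⟩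

def k9_pm_202_a : ∃ t, chk3 f_pm_202_a t 7 39 1 = true :=
  ⟨(a (c (a (b (c (a (b (l 15594656) (l 15805104)) (b (l 15784216) (l 15969232))) (a (b (l 15643344) (l 15825576)) (l 15806608))) (a (c (l 15931264) (l 16028592)) (c (l 16085072) (l 16173592)))) (b (b (c (l 15902096) (l 16015336)) (c (l 16074624) (l 16160568))) (c (b (l 16241208) (l 16519768)) (l 16235880)))) (a (b (c (a (l 15607840) (l 15890640)) (a (l 15728904) (l 15876368))) (a (l 15913584) (c (l 16185736) (l 16198440)))) (b (b (l 15917912) (c (l 16172840) (l 16206600))) (c (l 16274864) (l 16292600))))) (c (a (a (b (c (l 16295248) (l 16312944)) (l 16173232)) (b (l 16267272) (l 16020000))) (b (a (b (l 16323768) (l 16231544)) (l 15917440)) (c (l 15801832) (l 15893104)))) (a (b (c (l 16284632) (l 16303048)) (l 16032632)) (b (l 15962096) (l 15809800))))), by decide +kernel⟩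

def k10_pm_202_a : ∃ t, chk3 f_pm_202_a t 3 20 1 = true :=
  ⟨(a (b (b (a (c (c (a (l 15857648) (l 15783864)) (a (l 15845160) (l 15744288))) (a (c (l 15816400) (l 355439696711)) (c (l 15683256) (l 108479228167)))) (c (a (c (a (l 15934048) (l 15976520)) (l 15824016)) (c (l 16027760) (l 16083968))) (a (c (l 15893344) (l 16020488)) (c (l 16145408) (l 16138824))))) (a (c (b (a (l 15946416) (l 15926472)) (a (b (l 16076256) (l 16224904)) (b (c (l 16294720) (l 16324816)) (l 16359208)))) (b (a (c (l 16079696) (l 16063224)) (l 16071280)) (c (a (b (l 16199720) (l 16246840)) (l 16337576)) (a (l 16121032) (l 16353736))))) (c (b (a (l 16148184) (l 16395584)) (a (b (l 16430440) (l 16429784)) (b (l 16367016) (l 16321096)))) (b (a (l 16308080) (l 16471240)) (a (l 16320672) (l 16252584)))))) (a (c (a (b (l 16102832) (l 16001544)) (l 16144168)) (a (l 15971328) (l 16144048))) (c (b (l 16264904) (l 16340272)) (l 16188320)))) (b (b (a (c (a (a (a (l 16167032) (l 16198784)) (l 16328360)) (b (l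 16259424) (l 16125744))) (a (b (l 16157256) (l 16341760)) (l 16042656))) (a (c (c (l 15885136) (l 15956576)) (l 15769488)) (c (b (a (l 15768440) (l 15552648)) (a (l 15614088) (l 15373808))) (b (l 15622808) (a (l 15576072) (l 15326744)))))) (b (a (a (c (a (l 16371376) (l 16261096)) (a (l 16362560) (l 16249528))) (c (l 15850808) (l 16040272))) (a (c (c (l 15773832) (l 15757992)) (l 15734184)) (l 15280832))) (a (a (c (b (l 16114288) (l 16182056)) (l 15959416)) (l 15950088)) (a (l 15506752) (l 15189000))))) (a (a (c (l 16183608) (l 16238728)) (b (l 15949592) (l 15926280))) (a (b (l 15445768) (l 15744672)) (l 15181096))))), by decide +kernel⟩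

def k11_pm_202_a : ∃ t, chk3 f_pm_202_a t 3 21 1 = true :=
  ⟨(a (a (b (c (l 15781152) (l 15817624)) (a (l 15479024) (l 15470808))) (b (b (l 16052800) (a (l 15964400) (l 16084744))) (a (b (l 15836488) (l 15798144)) (l 16093704)))) (a (a (b (a (b (l 16419024) (l 16350824)) (l 16363712)) (l 16401944)) (a (b (l 16382352) (l 16456024)) (l 16097520))) (b (a (l 15798736) (l 15131728)) (a (l 15814496) (l 15523592))))), by decide +kernel⟩

def k12_pm_202_a : ∃ t, chk3 f_pm_202_a t 3 11 1 = true :=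
  ⟨(a (b (a (b (b (l 15308976) (l 15445680)) (l 15525592)) (b (l 16014592) (a (l 15923984) (l 16159880)))) (a (b (b (l 15663744) (l 15833040)) (l 15974560)) (l 16082408))) (b (a (a (b (l 16287864) (l 16360320)) (b (l 16362520) (l 16587456))) (a (l 16108376) (l 15857088))) (a (a (l 16297776) (l 16522272)) (a (l 16612592) (l 16308944))))), by decide +kernel⟩

def k13_pm_202_a : ∃ t, chk3 f_pm_202_a t 1 3 1 = true :=
  ⟨(b (a (b (a (b (b (l 15774168) (l 15956976)) (l 16186792)) (b (l 15737528) (l 16261560))) (a (b (l 16380952) (l 16448776)) (b (l 16430224) (l 16424568)))) (a (b (b (a (l 16203752) (l 16388248)) (l 16480936)) (b (l 16540024) (l 16557720))) (b (a (b (l 16604456) (l 16742280)) (b (l 16350808) (l 16194904))) (a (l 16589928) (l 16262632))))) (a (b (a (l 16400248) (l 16398760)) (l 16410736)) (a (b (l 16554784) (l 16554784)) (a (b (l 16713464) (l 16713464)) (b (l 16262632) (l 16262632)))))), by decide +kernel⟩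

theorem s14_pm_202_a : ∃ t, chk3 f_pm_202_a t 3 10 1 = true := ex3_b k10_pm_202_a k11_pm_202_a

theorem s15_pm_202_a : ∃ t, chk3 f_pm_202_a t 3 5 1 = true := ex3_b s14_pm_202_a k12_pm_202_a

theorem s16_pm_202_a : ∃ t, chk3 f_pm_202_a t 7 38 1 = true := ex3_b k7_pm_202_a k8_pm_202_a

theorem s17_pm_202_a : ∃ t, chk3 f_pm_202_a t 7 19 1 = true := ex3_b s16_pm_202_a k9_pm_202_a

theorem s18_pm_202_a : ∃ t, chk3 f_pm_202_a t 3 19 1 = true := ex3_a k6_pm_202_a s17_pm_202_a

theorem s19_pm_202_a : ∃ t, chk3 f_pm_202_a t 15 18 1 = true := ex3_b k4_pm_202_a k5_pm_202_a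

theorem s20_pm_202_a : ∃ t, chk3 f_pm_202_a t 7 18 1 = true := ex3_a k3_pm_202_a s19_pm_202_a

theorem s21_pm_202_a : ∃ t, chk3 f_pm_202_a t 3 18 1 = true := ex3_a k2_pm_202_a s20_pm_202_a

theorem s22_pm_202_a : ∃ t, chk3 f_pm_202_a t 3 9 1 = true := ex3_b s21_pm_202_a s18_pm_202_a

theorem s23_pm_202_a : ∃ t, chk3 f_pm_202_a t 3 4 1 = true := ex3_b k1_pm_202_a s22_pm_202_a

theorem s24_pm_202_a : ∃ t, chk3 f_pm_202_a t 3 2 1 = true := ex3_b s23_pm_202_a s15_pm_202_a

theorem s25_pm_202_a : ∃ t, chk3 f_pm_202_a t 1 2 1 = true := ex3_a k0_pm_202_a s24_pm_202_a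

theorem s26_pm_202_a : ∃ t, chk3 f_pm_202_a t 1 1 1 = true := ex3_b s25_pm_202_a k13_pm_202_a

theorem c_pm_202_a : CertNX 0 420477299 0 536870912 1046898278 26843546 3 true true false .pp 2 0 2
    ndN2q2a ndN3q0 pcN2 Cut.none Ext.none :=
  certNX1 (fam := true) (s1 := true) (s2 := false) (a := 2) (b := 0) (c := 2) (cn := .pp) (n1 := ndN2q2a) (n2 := ndN3q0) (pc := pcN2) (cut := Cut.none) (xt := Ext.none) (P1 := 0) (W1 := 420477299) (P2 := 0) (W2 := 536870912) (P3 := 1046898278) (W3 := 26843546) (N0 := 3)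
    rfl (fun _ => rfl) s26_pm_202_a

noncomputable def f_pm_202_b : ℕ → ℕ → ℕ → ℕ → Bool := onCell 1239849684 370763052 0 536870912 1046898278 26843546
    (rowNX 3 0 true true false .pp 2 0 2 (qsf 1239849684 370763052 0 536870912 2) ndN2q2b ndN3q0 pcN2 Cut.none Ext.none)

def k0_pm_202_b : ∃ t, chk3 f_pm_202_b t 1 2 1 = true :=
  ⟨(a (b (b (a (b (a (b (a (c (b (l 15214296) (l 15055648)) (b (l 15060496) (l 15037800))) (c (b (l 14687800) (l 14544096)) (b (l 14639048) (l 14505968)))) (a (c (l 14883920) (l 14831792)) (b (c (l 14449928) (l 14384152)) (a (l 14416048) (c (l 14288432) (l 14204352)))))) (a (b (b (a (l 14283464) (c (a (l 14143112) (l 14075744)) (b (l 14045672) (l 14016304)))) (a (c (l 14197536) (l 14145208)) (c (l 14112576) (l 14056712)))) (b (a (c (l 14201704) (l 14125776)) (l 14178696)) (l 14250448))) (b (c (l 14097480) (l 14030000)) (l 14250072)))) (a (a (b (a (l 14741072) (b (l 14553632) (c (l 14487944) (l 14405856)))) (a (b (l 14571336) (a (l 14530752) (l 14430064)))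 (b (a (l 14426768) (l 14400056)) (l 14484048)))) (b (a (b (a (l 14374664) (l 14294728)) (a (l 14340264) (l 14344624))) (l 14334680)) (l 14507280))) (c (l 14395912) (l 14485800)))) (b (c (b (l 14097408) (l 14297024)) (b (b (l 13981208) (l 14075816)) (l 14221552))) (c (a (l 14586696) (l 14586696)) (l 14509832)))) (b (a (a (b (a (c (l 14798536) (l 14748224)) (l 14881632)) (l 15371832)) (b (l 14994864) (l 15525568))) (a (l 15118672) (l 15286440))) (a (a (b (l 15845024) (l 16033168)) (l 15830448)) (l 16101312)))) (b (a (a (b (l 16264832) (l 16460320)) (b (l 16393368) (l 16574952))) (b (l 16410416) (l 16589864))) (a (b (a (l 16596632) (l 16699776)) (a (l 16555320) (l 16750352))) (b (l 16712584) (l 16777120))))) (b (b (b (a (b (l 14066616) (l 14250104)) (b (l 14066616) (l 14250104))) (a (l 14549544) (l 14549544))) (b (a (l 15286440) (l 15244496)) (a (l 16101312) (l 2)))) (b (a (b (l 16410416) (l 16589864)) (l 2)) (l 2)))), by decide +kernel⟩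

def k1_pm_202_b : ∃ t, chk3 f_pm_202_b t 1 3 1 = true :=
  ⟨(a (b (b (a (a (l 16555232) (l 16750264)) (a (l 16777216) (l 2))) (a (a (l 16555232) (l 2)) (l 2))) (l 2)) (l 2)), by decide +kernel⟩

theorem s2_pm_202_b : ∃ t, chk3 f_pm_202_b t 1 1 1 = true := ex3_b k0_pm_202_b k1_pm_202_b

theorem c_pm_202_b : CertNX 1239849684 370763052 0 536870912 1046898278 26843546 3 true true false .pp 2 0 2
    ndN2q2b ndN3q0 pcN2 Cut.none Ext.none :=
  certNX0 (fam := true) (s1 := true) (s2 := false) (a := 2) (b := 0) (c := 2) (cn := .pp) (n1 := ndN2q2b) (n2 := ndN3q0) (pc := pcN2) (cut := Cut.none) (xt := Ext.none) (P1 := 1239849684) (W1 := 370763052) (P2 := 0) (W2 := 536870912) (P3 := 1046898278) (W3 := 26843546) (N0 := 3)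
    rfl s2_pm_202_b

noncomputable def f_pm_203_a : ℕ → ℕ → ℕ → ℕ → Bool := onCell 0 420477299 1610612736 536870912 1046898278 26843546
    (rowNX 3 1 true true false .up 2 0 3 (qsf 0 420477299 0 536870912 3) ndN2q2a ndN3q0 pcN3 Cut.none Ext.none)

def k0_pm_203_a : ∃ t, chk3 f_pm_203_a t 1 1 1 = true :=
  ⟨(b (a (b (b (l 16368792) (b (l 16410736) (l 16410736))) (l 4)) (b (a (b (l 16554784) (l 16554784)) (b (l 16303160) (a (l 16713464) (l 16262632)))) (a (b (l 16554784) (l 2)) (l 2)))) (l 2)), by decide +kernel⟩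

theorem c_pm_203_a : CertNX 0 420477299 0 536870912 1046898278 26843546 3 true true false .up 2 0 3
    ndN2q2a ndN3q0 pcN3 Cut.none Ext.none :=
  certNX1 (fam := true) (s1 := true) (s2 := false) (a := 2) (b := 0) (c := 3) (cn := .up) (n1 := ndN2q2a) (n2 := ndN3q0) (pc := pcN3) (cut := Cut.none) (xt := Ext.none) (P1 := 0) (W1 := 420477299) (P2 := 0) (W2 := 536870912) (P3 := 1046898278) (W3 := 26843546) (N0 := 3)
    rfl (fun _ => rfl) k0_pm_203_a

noncomputable def f_pm_203_b : ℕ → ℕ → ℕ → ℕ → Bool := onCell 1239849684 370763052 1610612736 536870912 1046898278 26843546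
    (rowNX 3 1 true true false .up 2 0 3 (qsf 1239849684 370763052 0 536870912 3) ndN2q2b ndN3q0 pcN3 Cut.none Ext.none)

def k0_pm_203_b : ∃ t, chk3 f_pm_203_b t 1 1 1 = true :=
  ⟨(b (a (b (b (a (l 16655936) (l 16917016)) (b (l 16678888) (l 225720307511))) (l 4)) (b (a (b (b (a (l 16554248) (l 16169424)) (l 16573544)) (b (l 16669088) (l 16751872))) (b (b (a (a (l 15632520) (l 15048288)) (a (l 14589888) (l 14300520))) (a (l 16009664) (a (l 15254424) (l 14782928)))) (a (l 16486976) (b (a (l 16068688) (l 15412912)) (l 16283248))))) (b (a (l 16776304) (b (l 16604528) (l 16711584))) (l 4)))) (l 4)), by decide +kernel⟩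

theorem c_pm_203_b : CertNX 1239849684 370763052 0 536870912 1046898278 26843546 3 true true false .up 2 0 3
    ndN2q2b ndN3q0 pcN3 Cut.none Ext.none :=
  certNX1 (fam := true) (s1 := true) (s2 := false) (a := 2) (b := 0) (c := 3) (cn := .up) (n1 := ndN2q2b) (n2 := ndN3q0) (pc := pcN3) (cut := Cut.none) (xt := Ext.none) (P1 := 1239849684) (W1 := 370763052) (P2 := 0) (W2 := 536870912) (P3 := 1046898278) (W3 := 26843546) (N0 := 3)
    rfl (fun _ => rfl) k0_pm_203_b

noncomputable def f_pm_213_a : ℕ → ℕ → ℕ → ℕ → Bool := onCell 0 420477299 536870912 536870912 1046898278 26843546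
    (rowNX 3 0 true true false .pnn 2 1 3 (qsf 0 420477299 536870912 536870912 3) ndN2q2a ndN3q1 pcN3 Cut.none Ext.none)

def k0_pm_213_a : ∃ t, chk3 f_pm_213_a t 1 1 1 = true :=
  ⟨(b (a (l 4) (b (b (a (c (l 16558624) (l 16550952)) (a (l 16650552) (l 16262632))) (a (l 4) (a (l 4) (b (l 16262632) (l 4))))) (l 4))) (l 4)), by decide +kernel⟩

theorem c_pm_213_a : CertNX 0 420477299 536870912 536870912 1046898278 26843546 3 true true false .pnn 2 1 3
    ndN2q2a ndN3q1 pcN3 Cut.none Ext.none :=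
  certNX0 (fam := true) (s1 := true) (s2 := false) (a := 2) (b := 1) (c := 3) (cn := .pnn) (n1 := ndN2q2a) (n2 := ndN3q1) (pc := pcN3) (cut := Cut.none) (xt := Ext.none) (P1 := 0) (W1 := 420477299) (P2 := 536870912) (W2 := 536870912) (P3 := 1046898278) (W3 := 26843546) (N0 := 3)
    rfl k0_pm_213_a

noncomputable def f_pm_213_b : ℕ → ℕ → ℕ → ℕ → Bool := onCell 1239849684 370763052 536870912 536870912 1046898278 26843546
    (rowNX 3 0 true true false .pnn 2 1 3 (qsf 1239849684 370763052 536870912 536870912 3) ndN2q2b ndN3q1 pcN3 Cut.none Ext.none)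

def k0_pm_213_b : ∃ t, chk3 f_pm_213_b t 1 1 1 = true :=
  ⟨(l 4), by decide +kernel⟩

theorem c_pm_213_b : CertNX 1239849684 370763052 536870912 536870912 1046898278 26843546 3 true true false .pnn 2 1 3
    ndN2q2b ndN3q1 pcN3 Cut.none Ext.none :=
  certNX0 (fam := true) (s1 := true) (s2 := false) (a := 2) (b := 1) (c := 3) (cn := .pnn) (n1 := ndN2q2b) (n2 := ndN3q1) (pc := pcN3) (cut := Cut.none) (xt := Ext.none) (P1 := 1239849684) (W1 := 370763052) (P2 := 536870912) (W2 := 536870912) (P3 := 1046898278) (W3 := 26843546) (N0 := 3)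
    rfl k0_pm_213_b

noncomputable def f_pm_303 : ℕ → ℕ → ℕ → ℕ → Bool := onCell 1610612736 536870912 0 536870912 1046898278 26843546
    (rowNX 3 2 true true false .npn 3 0 3 (qsf 1610612736 469762048 0 536870912 3) ndN2q3 ndN3q0 pcN3 Cut.none Ext.none)

def k0_pm_303 : ∃ t, chk3 f_pm_303 t 1 1 1 = true :=
  ⟨(a (b (b (a (b (b (a (l 14163584) (c (l 14194240) (l 14127872))) (a (l 14549544) (l 14549544))) (b (a (l 15286440) (l 15286440)) (l 15933536))) (b (a (b (c (l 14194240) (l 14127872)) (l 14549544)) (c (b (l 14194240) (l 14586696)) (b (l 14127872) (l 14509832)))) (a (b (l 15286440) (l 16101312)) (a (b (l 15286440) (l 16101312)) (l 4))))) (a (b (l 440267075623) (l 1)) (c (b (l 16505424) (l 16745720)) (b (a (l 16495880) (l 16495880)) (l 16744608))))) (a (l 1) (c (l 16777216) (l 16777216)))) (a (b (b (b (a (l 4) (l 4)) (l 4)) (l 4)) (l 4)) (l 4))), by decide +kernel⟩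

theorem c_pm_303 : CertNX 1610612736 469762048 0 536870912 1046898278 26843546 3 true true false .npn 3 0 3
    ndN2q3 ndN3q0 pcN3 Cut.none Ext.none :=
  certNX2 (fam := true) (s1 := true) (s2 := false) (a := 3) (b := 0) (c := 3) (cn := .npn) (n1 := ndN2q3) (n2 := ndN3q0) (pc := pcN3) (cut := Cut.none) (xt := Ext.none) (P1 := 1610612736) (W1 := 469762048) (P2 := 0) (W2 := 536870912) (P3 := 1046898278) (W3 := 26843546) (N0 := 3)
    rfl (fun _ => rfl) k0_pm_303

noncomputable def f_pm_313 : ℕ → ℕ → ℕ → ℕ → Bool := onCell 1610612736 469762048 536870912 536870912 1046898278 26843546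
    (rowNX 3 0 true true false .dn 3 1 3 (qsf 1610612736 469762048 536870912 536870912 3) ndN2q3 ndN3q1 pcN3 Cut.none Ext.none)

def k0_pm_313 : ∃ t, chk3 f_pm_313 t 1 1 1 = true :=
  ⟨(l 4), by decide +kernel⟩

theorem c_pm_313 : CertNX 1610612736 469762048 536870912 536870912 1046898278 26843546 3 true true false .dn 3 1 3
    ndN2q3 ndN3q1 pcN3 Cut.none Ext.none :=
  certNX0 (fam := true) (s1 := true) (s2 := false) (a := 3) (b := 1) (c := 3) (cn := .dn) (n1 := ndN2q3) (n2 := ndN3q1) (pc := pcN3) (cut := Cut.none) (xt := Ext.none) (P1 := 1610612736) (W1 := 469762048) (P2 := 536870912) (W2 := 536870912) (P3 := 1046898278) (W3 := 26843546) (N0 := 3)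
    rfl k0_pm_313

noncomputable def f_mm_001 : ℕ → ℕ → ℕ → ℕ → Bool := onCell 67108864 469762048 0 536870912 1046898278 26843546
    (rowNX 3 0 true false false .up 0 0 1 (qsf 67108864 469762048 0 536870912 1) ndN2q0 ndN3q0 pcN1 Cut.none Ext.none)

def k0_mm_001 : ∃ t, chk3 f_mm_001 t 1 1 1 = true :=
  ⟨(l 4), by decide +kernel⟩

theorem c_mm_001 : CertNX 67108864 469762048 0 536870912 1046898278 26843546 3 true false false .up 0 0 1
    ndN2q0 ndN3q0 pcN1 Cut.none Ext.none :=
  certNX0 (fam := true) (s1 := false) (s2 := false) (a := 0) (b := 0) (c := 1) (cn := .up) (n1 := ndN2q0) (n2 := ndN3q0) (pc := pcN1) (cut := Cut.none) (xt := Ext.none) (P1 := 67108864) (W1 := 469762048) (P2 := 0) (W2 := 536870912) (P3 := 1046898278) (W3 := 26843546) (N0 := 3)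
    rfl k0_mm_001

noncomputable def f_mm_011 : ℕ → ℕ → ℕ → ℕ → Bool := onCell 67108864 469762048 536870912 536870912 1046898278 26843546
    (rowNX 3 0 true false false .pnn 0 1 1 (qsf 67108864 469762048 536870912 536870912 1) ndN2q0 ndN3q1 pcN1 Cut.none Ext.none)

def k0_mm_011 : ∃ t, chk3 f_mm_011 t 1 1 1 = true :=
  ⟨(l 4), by decide +kernel⟩

theorem c_mm_011 : CertNX 67108864 469762048 536870912 536870912 1046898278 26843546 3 true false false .pnn 0 1 1
    ndN2q0 ndN3q1 pcN1 Cut.none Ext.none :=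
  certNX0 (fam := true) (s1 := false) (s2 := false) (a := 0) (b := 1) (c := 1) (cn := .pnn) (n1 := ndN2q0) (n2 := ndN3q1) (pc := pcN1) (cut := Cut.none) (xt := Ext.none) (P1 := 67108864) (W1 := 469762048) (P2 := 536870912) (W2 := 536870912) (P3 := 1046898278) (W3 := 26843546) (N0 := 3)
    rfl k0_mm_011

noncomputable def f_mm_012 : ℕ → ℕ → ℕ → ℕ → Bool := onCell 67108864 469762048 536870912 536870912 1046898278 26843546
    (rowNX 3 0 true false false .pnp 0 1 2 (qsf 67108864 469762048 536870912 536870912 2) ndN2q0 ndN3q1 pcN2 Cut.none Ext.none)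

def k0_mm_012 : ∃ t, chk3 f_mm_012 t 1 1 1 = true :=
  ⟨(l 4), by decide +kernel⟩

theorem c_mm_012 : CertNX 67108864 469762048 536870912 536870912 1046898278 26843546 3 true false false .pnp 0 1 2
    ndN2q0 ndN3q1 pcN2 Cut.none Ext.none :=
  certNX0 (fam := true) (s1 := false) (s2 := false) (a := 0) (b := 1) (c := 2) (cn := .pnp) (n1 := ndN2q0) (n2 := ndN3q1) (pc := pcN2) (cut := Cut.none) (xt := Ext.none) (P1 := 67108864) (W1 := 469762048) (P2 := 536870912) (W2 := 536870912) (P3 := 1046898278) (W3 := 26843546) (N0 := 3)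
    rfl k0_mm_012

noncomputable def f_mm_022 : ℕ → ℕ → ℕ → ℕ → Bool := onCell 67108864 469762048 1073741824 536870912 1046898278 26843546
    (rowNX 3 0 true false false .pp 0 2 2 (qsf 67108864 469762048 1073741824 536870912 2) ndN2q0 ndN3q2 pcN2 Cut.none Ext.none)

def k0_mm_022 : ∃ t, chk3 f_mm_022 t 1 1 1 = true :=
  ⟨(l 5), by decide +kernel⟩

theorem c_mm_022 : CertNX 67108864 469762048 1073741824 536870912 1046898278 26843546 3 true false false .pp 0 2 2
    ndN2q0 ndN3q2 pcN2 Cut.none Ext.none :=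
  certNX0 (fam := true) (s1 := false) (s2 := false) (a := 0) (b := 2) (c := 2) (cn := .pp) (n1 := ndN2q0) (n2 := ndN3q2) (pc := pcN2) (cut := Cut.none) (xt := Ext.none) (P1 := 67108864) (W1 := 469762048) (P2 := 1073741824) (W2 := 536870912) (P3 := 1046898278) (W3 := 26843546) (N0 := 3)
    rfl k0_mm_022

noncomputable def f_mm_023 : ℕ → ℕ → ℕ → ℕ → Bool := onCell 67108864 469762048 1073741824 536870912 1046898278 26843546
    (rowNX 3 0 true false false .up 0 2 3 (qsf 67108864 469762048 1073741824 536870912 3) ndN2q0 ndN3q2 pcN3 Cut.none Ext.none)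

def k0_mm_023 : ∃ t, chk3 f_mm_023 t 1 1 1 = true :=
  ⟨(l 5), by decide +kernel⟩

theorem c_mm_023 : CertNX 67108864 469762048 1073741824 536870912 1046898278 26843546 3 true false false .up 0 2 3
    ndN2q0 ndN3q2 pcN3 Cut.none Ext.none :=
  certNX0 (fam := true) (s1 := false) (s2 := false) (a := 0) (b := 2) (c := 3) (cn := .up) (n1 := ndN2q0) (n2 := ndN3q2) (pc := pcN3) (cut := Cut.none) (xt := Ext.none) (P1 := 67108864) (W1 := 469762048) (P2 := 1073741824) (W2 := 536870912) (P3 := 1046898278) (W3 := 26843546) (N0 := 3)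
    rfl k0_mm_023

noncomputable def f_mm_033 : ℕ → ℕ → ℕ → ℕ → Bool := onCell 67108864 469762048 1610612736 536870912 1046898278 26843546
    (rowNX 3 0 true false false .pnn 0 3 3 (qsf 67108864 469762048 1610612736 536870912 3) ndN2q0 ndN3q3 pcN3 Cut.none Ext.none)

def k0_mm_033 : ∃ t, chk3 f_mm_033 t 1 1 1 = true :=
  ⟨(l 4), by decide +kernel⟩

theorem c_mm_033 : CertNX 67108864 469762048 1610612736 536870912 1046898278 26843546 3 true false false .pnn 0 3 3
    ndN2q0 ndN3q3 pcN3 Cut.none Ext.none :=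
  certNX0 (fam := true) (s1 := false) (s2 := false) (a := 0) (b := 3) (c := 3) (cn := .pnn) (n1 := ndN2q0) (n2 := ndN3q3) (pc := pcN3) (cut := Cut.none) (xt := Ext.none) (P1 := 67108864) (W1 := 469762048) (P2 := 1610612736) (W2 := 536870912) (P3 := 1046898278) (W3 := 26843546) (N0 := 3)
    rfl k0_mm_033

noncomputable def f_mm_101 : ℕ → ℕ → ℕ → ℕ → Bool := onCell 536870912 536870912 0 536870912 1046898278 26843546
    (rowNX 3 0 true false false .npn 1 0 1 (qsf 536870912 536870912 0 536870912 1) ndN2q1 ndN3q0 pcN1 Cut.none Ext.none)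

def k0_mm_101 : ∃ t, chk3 f_mm_101 t 1 1 1 = true :=
  ⟨(l 4), by decide +kernel⟩

theorem c_mm_101 : CertNX 536870912 536870912 0 536870912 1046898278 26843546 3 true false false .npn 1 0 1
    ndN2q1 ndN3q0 pcN1 Cut.none Ext.none :=
  certNX0 (fam := true) (s1 := false) (s2 := false) (a := 1) (b := 0) (c := 1) (cn := .npn) (n1 := ndN2q1) (n2 := ndN3q0) (pc := pcN1) (cut := Cut.none) (xt := Ext.none) (P1 := 536870912) (W1 := 536870912) (P2 := 0) (W2 := 536870912) (P3 := 1046898278) (W3 := 26843546) (N0 := 3)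
    rfl k0_mm_101

noncomputable def f_mm_102 : ℕ → ℕ → ℕ → ℕ → Bool := onCell 536870912 536870912 0 536870912 1046898278 26843546
    (rowNX 3 0 true false false .npp 1 0 2 (qsf 536870912 536870912 0 536870912 2) ndN2q1 ndN3q0 pcN2 Cut.none Ext.none)

def k0_mm_102 : ∃ t, chk3 f_mm_102 t 1 1 1 = true :=
  ⟨(l 4), by decide +kernel⟩

theorem c_mm_102 : CertNX 536870912 536870912 0 536870912 1046898278 26843546 3 true false false .npp 1 0 2
    ndN2q1 ndN3q0 pcN2 Cut.none Ext.none :=
  certNX0 (fam := true) (s1 := false) (s2 := false) (a := 1) (b := 0) (c := 2) (cn := .npp) (n1 := ndN2q1) (n2 := ndN3q0) (pc := pcN2) (cut := Cut.none) (xt := Ext.none) (P1 := 536870912) (W1 := 536870912) (P2 := 0) (W2 := 536870912) (P3 := 1046898278) (W3 := 26843546) (N0 := 3)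
    rfl k0_mm_102

noncomputable def f_mm_112 : ℕ → ℕ → ℕ → ℕ → Bool := onCell 536870912 536870912 536870912 536870912 1046898278 26843546
    (rowNX 3 0 true false false .dn 1 1 2 (qsf 536870912 536870912 536870912 536870912 2) ndN2q1 ndN3q1 pcN2 Cut.none Ext.none)

def k0_mm_112 : ∃ t, chk3 f_mm_112 t 1 1 1 = true :=
  ⟨(l 4), by decide +kernel⟩

theorem c_mm_112 : CertNX 536870912 536870912 536870912 536870912 1046898278 26843546 3 true false false .dn 1 1 2
    ndN2q1 ndN3q1 pcN2 Cut.none Ext.none :=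
  certNX0 (fam := true) (s1 := false) (s2 := false) (a := 1) (b := 1) (c := 2) (cn := .dn) (n1 := ndN2q1) (n2 := ndN3q1) (pc := pcN2) (cut := Cut.none) (xt := Ext.none) (P1 := 536870912) (W1 := 536870912) (P2 := 536870912) (W2 := 536870912) (P3 := 1046898278) (W3 := 26843546) (N0 := 3)
    rfl k0_mm_112

noncomputable def f_mm_113 : ℕ → ℕ → ℕ → ℕ → Bool := onCell 536870912 536870912 536870912 536870912 1046898278 26843546
    (rowNX 3 0 true false false .nn 1 1 3 (qsf 536870912 536870912 536870912 536870912 3) ndN2q1 ndN3q1 pcN3 Cut.none Ext.none)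

def k0_mm_113 : ∃ t, chk3 f_mm_113 t 1 1 1 = true :=
  ⟨(l 4), by decide +kernel⟩

theorem c_mm_113 : CertNX 536870912 536870912 536870912 536870912 1046898278 26843546 3 true false false .nn 1 1 3
    ndN2q1 ndN3q1 pcN3 Cut.none Ext.none :=
  certNX0 (fam := true) (s1 := false) (s2 := false) (a := 1) (b := 1) (c := 3) (cn := .nn) (n1 := ndN2q1) (n2 := ndN3q1) (pc := pcN3) (cut := Cut.none) (xt := Ext.none) (P1 := 536870912) (W1 := 536870912) (P2 := 536870912) (W2 := 536870912) (P3 := 1046898278) (W3 := 26843546) (N0 := 3)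
    rfl k0_mm_113

noncomputable def f_mm_123 : ℕ → ℕ → ℕ → ℕ → Bool := onCell 536870912 536870912 1073741824 536870912 1046898278 26843546
    (rowNX 3 0 true false false .npn 1 2 3 (qsf 536870912 536870912 1073741824 536870912 3) ndN2q1 ndN3q2 pcN3 Cut.none Ext.none)

def k0_mm_123 : ∃ t, chk3 f_mm_123 t 1 1 1 = true :=
  ⟨(l 4), by decide +kernel⟩

theorem c_mm_123 : CertNX 536870912 536870912 1073741824 536870912 1046898278 26843546 3 true false false .npn 1 2 3
    ndN2q1 ndN3q2 pcN3 Cut.none Ext.none :=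
  certNX0 (fam := true) (s1 := false) (s2 := false) (a := 1) (b := 2) (c := 3) (cn := .npn) (n1 := ndN2q1) (n2 := ndN3q2) (pc := pcN3) (cut := Cut.none) (xt := Ext.none) (P1 := 536870912) (W1 := 536870912) (P2 := 1073741824) (W2 := 536870912) (P3 := 1046898278) (W3 := 26843546) (N0 := 3)
    rfl k0_mm_123

noncomputable def f_mm_133 : ℕ → ℕ → ℕ → ℕ → Bool := onCell 536870912 536870912 1610612736 536870912 1046898278 26843546
    (rowNX 3 0 true false false .dn 1 3 3 (qsf 536870912 536870912 1610612736 536870912 3) ndN2q1 ndN3q3 pcN3 Cut.none Ext.none)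

def k0_mm_133 : ∃ t, chk3 f_mm_133 t 1 1 1 = true :=
  ⟨(l 4), by decide +kernel⟩

theorem c_mm_133 : CertNX 536870912 536870912 1610612736 536870912 1046898278 26843546 3 true false false .dn 1 3 3
    ndN2q1 ndN3q3 pcN3 Cut.none Ext.none :=
  certNX0 (fam := true) (s1 := false) (s2 := false) (a := 1) (b := 3) (c := 3) (cn := .dn) (n1 := ndN2q1) (n2 := ndN3q3) (pc := pcN3) (cut := Cut.none) (xt := Ext.none) (P1 := 536870912) (W1 := 536870912) (P2 := 1610612736) (W2 := 536870912) (P3 := 1046898278) (W3 := 26843546) (N0 := 3)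
    rfl k0_mm_133

noncomputable def f_mm_202_a : ℕ → ℕ → ℕ → ℕ → Bool := onCell 0 420477299 0 536870912 1046898278 26843546
    (rowNX 3 0 true false false .pp 2 0 2 (qsf 0 420477299 0 536870912 2) ndN2q2a ndN3q0 pcN2 Cut.none Ext.none)

def k0_mm_202_a : ∃ t, chk3 f_mm_202_a t 2 4 1 = true :=
  ⟨(b (a (b (b (c (a (l 16084656) (b (l 16324960) (l 16275296))) (a (b (l 16266368) (l 16168488)) (b (l 16138040) (l 16306448)))) (c (a (l 16144944) (l 16248784)) (a (l 16144168) (l 16252088)))) (b (a (l 16088496) (c (l 16260824) (l 16254536))) (a (c (l 16188816) (l 16175880)) (c (l 16272104) (l 16262560))))) (b (b (a (c (b (l 16197136) (l 16319528)) (c (l 16038216) (l 16026088))) (b (a (b (c (l 16089704) (a (l 16105576) (l 16017040))) (c (l 16177408) (l 16147280))) (c (b (l 16069672) (a (l 16137424) (l 16113632))) (b (b (l 16040224) (l 16018832)) (a (l 16105264) (l 15933408))))) (c (l 16155728) (l 16118128)))) (a (c (l 16323312) (l 16372864)) (c (b (l 16283840) (l 16347176)) (b (l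 16264984) (l 16338488))))) (b (a (c (l 16355032) (l 16352224)) (c (l 16303704) (l 16361184))) (l 4)))) (b (l 4) (l 4))), by decide +kernel⟩

def k1_mm_202_a : ∃ t, chk3 f_mm_202_a t 6 64 1 = true :=
  ⟨(a (c (a (l 16058088) (l 16016768)) (a (b (l 16013296) (l 16048768)) (l 15877280))) (c (a (l 15968552) (l 15915552)) (a (c (l 15942920) (l 15921904)) (b (l 15866832) (l 15893392))))), by decide +kernel⟩

def k2_mm_202_a : ∃ t, chk3 f_mm_202_a t 7 64 1 = true :=
  ⟨(a (c (a (a (l 15891640) (l 15929608)) (c (c (a (l 16012776) (c (b (l 16080544) (l 16093368)) (l 16088872))) (l 16044840)) (l 16035952))) (a (a (c (l 15862752) (b (l 15841416) (l 15832432))) (c (l 15901440) (l 15878544))) (c (l 16015648) (l 15868592)))) (c (a (c (a (c (a (c (l 16074616) (l 16159072)) (b (c (l 16297976) (l 16229176)) (l 16098632))) (l 16169112)) (c (b (a (c (b (l 16359488) (l 16363560)) (l 16198256)) (c (l 16382544) (l 16341288))) (c (a (l 16323496) (l 16294336)) (a (l 16256392) (l 16223832)))) (c (b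 (a (b (l 16256224) (l 16242568)) (l 16233712)) (l 16155712)) (b (l 16242704) (l 16254416))))) (a (l 16161168) (b (l 16259000) (l 16248072)))) (c (c (a (b (a (c (l 16467632) (l 16391672)) (l 16460200)) (a (c (a (l 16390920) (l 16462248)) (b (l 16428064) (l 16396680))) (c (l 16495984) (l 16440368)))) (a (b (l 16541040) (l 16447440)) (l 16500568))) (a (b (c (a (l 16278560) (l 16435104)) (a (l 16344888) (l 16351984))) (a (b (l 16303640) (l 16249144)) (c (l 16364152) (l 16383632)))) (b (c (a (l 16486904) (l 16586856)) (a (b (l 16471128) (l 16439600)) (l 16496696))) (c (a (l 16391472) (l 16512896)) (b (l 16358272) (l 16320944)))))) (a (b (l 16357376) (l 16347424)) (c (c (b (a (l 16405328) (l 16397144)) (l 16380600)) (l 16441064)) (l 16458424))))) (c (a (a (l 16142720) (b (l 16251912) (l 16224096))) (a (b (l 16351616) (l 16261920)) (l 16361592))) (a (b (a (l 16141464) (b (l 16246488) (l 16211296))) (a (l 16106504) (l 16200624))) (b (c (l 16376056) (l 16305464)) (a (l 16239872) (l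 16414424))))))), by decide +kernel⟩

def k3_mm_202_a : ∃ t, chk3 f_mm_202_a t 3 65 1 = true :=
  ⟨(a (a (a (c (b (a (l 16135856) (l 16112584)) (l 16117760)) (b (a (l 16088080) (l 16063392)) (l 16054048))) (c (b (l 16079144) (l 16003520)) (c (l 15966192) (l 15996736)))) (c (a (l 16038992) (l 15979472)) (c (l 15965016) (l 15951560)))) (a (a (c (a (l 15889120) (b (l 15925104) (l 15941800))) (a (c (l 15882792) (l 15867408)) (c (l 15884280) (l 15868744)))) (c (b (l 16019792) (l 139282598951)) (c (b (l 15967240) (l 15959864)) (l 15911808)))) (b (a (b (c (c (c (a (l 16155112) (c (l 16304064) (l 16271496))) (l 16208888)) (l 16188216)) (l 16057168)) (l 4)) (l 4)) (l 4)))), by decide +kernel⟩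

def k4_mm_202_a : ∃ t, chk3 f_mm_202_a t 3 33 1 = true :=
  ⟨(a (a (b (b (a (l 16071352) (c (a (l 16145480) (l 16118376)) (a (l 16117376) (l 16088840)))) (c (l 16044888) (l 16007280))) (c (l 16253944) (l 16219544))) (b (b (c (l 16005696) (l 16014344)) (a (a (c (l 16103888) (l 16104904)) (l 4)) (l 4))) (l 4))) (l 4)), by decide +kernel⟩

def k5_mm_202_a : ∃ t, chk3 f_mm_202_a t 3 17 1 = true :=
  ⟨(l 4), by decide +kernel⟩

def k6_mm_202_a : ∃ t, chk3 f_mm_202_a t 3 9 1 = true :=
  ⟨(l 4), by decide +kernel⟩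

def k7_mm_202_a : ∃ t, chk3 f_mm_202_a t 1 5 1 = true :=
  ⟨(l 4), by decide +kernel⟩

def k8_mm_202_a : ∃ t, chk3 f_mm_202_a t 1 3 1 = true :=
  ⟨(l 4), by decide +kernel⟩

theorem s9_mm_202_a : ∃ t, chk3 f_mm_202_a t 3 64 1 = true := ex3_a k1_mm_202_a k2_mm_202_a

theorem s10_mm_202_a : ∃ t, chk3 f_mm_202_a t 3 32 1 = true := ex3_b s9_mm_202_a k3_mm_202_a

theorem s11_mm_202_a : ∃ t, chk3 f_mm_202_a t 3 16 1 = true := ex3_b s10_mm_202_a k4_mm_202_a

theorem s12_mm_202_a : ∃ t, chk3 f_mm_202_a t 3 8 1 = true := ex3_b s11_mm_202_a k5_mm_202_a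

theorem s13_mm_202_a : ∃ t, chk3 f_mm_202_a t 3 4 1 = true := ex3_b s12_mm_202_a k6_mm_202_a

theorem s14_mm_202_a : ∃ t, chk3 f_mm_202_a t 1 4 1 = true := ex3_a k0_mm_202_a s13_mm_202_a

theorem s15_mm_202_a : ∃ t, chk3 f_mm_202_a t 1 2 1 = true := ex3_b s14_mm_202_a k7_mm_202_a

theorem s16_mm_202_a : ∃ t, chk3 f_mm_202_a t 1 1 1 = true := ex3_b s15_mm_202_a k8_mm_202_a

theorem c_mm_202_a : CertNX 0 420477299 0 536870912 1046898278 26843546 3 true false false .pp 2 0 2
    ndN2q2a ndN3q0 pcN2 Cut.none Ext.none :=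
  certNX0 (fam := true) (s1 := false) (s2 := false) (a := 2) (b := 0) (c := 2) (cn := .pp) (n1 := ndN2q2a) (n2 := ndN3q0) (pc := pcN2) (cut := Cut.none) (xt := Ext.none) (P1 := 0) (W1 := 420477299) (P2 := 0) (W2 := 536870912) (P3 := 1046898278) (W3 := 26843546) (N0 := 3)
    rfl s16_mm_202_a

noncomputable def f_mm_202_b : ℕ → ℕ → ℕ → ℕ → Bool := onCell 1073741824 536870912 0 536870912 1046898278 26843546
    (rowNX 3 2 true false false .pp 2 0 2 (qsf 1239849684 370763052 0 536870912 2) ndN2q2b ndN3q0 pcN2 Cut.none Ext.none)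

def k0_mm_202_b : ∃ t, chk3 f_mm_202_b t 1 1 1 = true :=
  ⟨(a (a (l 1) (b (b (a (b (a (b (a (l 1) (b (b (c (l 16251968) (l 259877563399)) (l 1)) (l 1))) (l 1)) (b (b (a (a (c (b (l 16175656) (l 16266208)) (b (l 16102328) (l 16296704))) (c (l 15904904) (b (l 15946976) (l 16070496)))) (c (l 15688240) (b (l 15696160) (l 15847320)))) (a (c (l 16128680) (l 16196728)) (c (b (l 16002976) (l 16116512)) (l 15912704)))) (a (l 1) (b (c (l 16270888) (l 16264064)) (l 1))))) (l 1)) (b (a (b (b (c (a (l 15454864) (l 15161472)) (b (c (l 15209120) (l 15198856)) (l 15326080))) (c (l 15402304) (l 15486840))) (b (a (c (l 15969312) (l 15997456)) (l 15706368)) (a (c (l 16286968) (l 16235144)) (c (b (l 16057432) (l 16172904)) (l 16062552))))) (b (b (c (a (l 14936240) (l 14792696)) (a (b (l 14824792) (l 14975848)) (l 14755504))) (c (a (l 15258512) (l 15069072)) (l 14980544))) (b (c (l 15436992) (l 15442160)) (c (a (l 15872072) (l 15655472)) (l 15573976))))) (a (a (l 1) (a (l 1) (a (l 1) (l 4))))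 (l 4)))) (l 1)) (l 1))) (b (b (b (a (a (b (a (c (b (l 14604032) (l 14844488)) (b (l 14559200) (l 14792960))) (c (b (l 14345808) (l 14561360)) (b (l 14289832) (l 14497848)))) (a (b (c (l 15082224) (l 15029480)) (l 4)) (c (l 14668088) (l 14791768)))) (b (c (a (b (l 14122936) (l 14323336)) (l 14194240)) (a (b (l 13825992) (l 14249096)) (l 14127872))) (l 4))) (l 4)) (l 4)) (l 4)) (l 4))), by decide +kernel⟩

theorem c_mm_202_b : CertNX 1239849684 370763052 0 536870912 1046898278 26843546 3 true false false .pp 2 0 2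
    ndN2q2b ndN3q0 pcN2 Cut.none Ext.none :=
  certNX2 (fam := true) (s1 := false) (s2 := false) (a := 2) (b := 0) (c := 2) (cn := .pp) (n1 := ndN2q2b) (n2 := ndN3q0) (pc := pcN2) (cut := Cut.none) (xt := Ext.none) (P1 := 1239849684) (W1 := 370763052) (P2 := 0) (W2 := 536870912) (P3 := 1046898278) (W3 := 26843546) (N0 := 3)
    rfl (fun _ => rfl) k0_mm_202_b

noncomputable def f_mm_203_a : ℕ → ℕ → ℕ → ℕ → Bool := onCell 0 420477299 1610612736 536870912 1046898278 26843546
    (rowNX 3 1 true false false .up 2 0 3 (qsf 0 420477299 0 536870912 3) ndN2q2a ndN3q0 pcN3 Cut.none Ext.none)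

def k0_mm_203_a : ∃ t, chk3 f_mm_203_a t 1 1 1 = true :=
  ⟨(l 4), by decide +kernel⟩

theorem c_mm_203_a : CertNX 0 420477299 0 536870912 1046898278 26843546 3 true false false .up 2 0 3
    ndN2q2a ndN3q0 pcN3 Cut.none Ext.none :=
  certNX1 (fam := true) (s1 := false) (s2 := false) (a := 2) (b := 0) (c := 3) (cn := .up) (n1 := ndN2q2a) (n2 := ndN3q0) (pc := pcN3) (cut := Cut.none) (xt := Ext.none) (P1 := 0) (W1 := 420477299) (P2 := 0) (W2 := 536870912) (P3 := 1046898278) (W3 := 26843546) (N0 := 3)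
    rfl (fun _ => rfl) k0_mm_203_a

noncomputable def f_mm_203_b : ℕ → ℕ → ℕ → ℕ → Bool := onCell 1239849684 370763052 1610612736 536870912 1046898278 26843546
    (rowNX 3 1 true false false .up 2 0 3 (qsf 1239849684 370763052 0 536870912 3) ndN2q2b ndN3q0 pcN3 Cut.none Ext.none)

def k0_mm_203_b : ∃ t, chk3 f_mm_203_b t 1 1 1 = true :=
  ⟨(b (l 4) (l 4)), by decide +kernel⟩

theorem c_mm_203_b : CertNX 1239849684 370763052 0 536870912 1046898278 26843546 3 true false false .up 2 0 3
    ndN2q2b ndN3q0 pcN3 Cut.none Ext.none :=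
  certNX1 (fam := true) (s1 := false) (s2 := false) (a := 2) (b := 0) (c := 3) (cn := .up) (n1 := ndN2q2b) (n2 := ndN3q0) (pc := pcN3) (cut := Cut.none) (xt := Ext.none) (P1 := 1239849684) (W1 := 370763052) (P2 := 0) (W2 := 536870912) (P3 := 1046898278) (W3 := 26843546) (N0 := 3)
    rfl (fun _ => rfl) k0_mm_203_b

noncomputable def f_mm_213_a : ℕ → ℕ → ℕ → ℕ → Bool := onCell 0 420477299 536870912 536870912 1046898278 26843546
    (rowNX 3 0 true false false .pnn 2 1 3 (qsf 0 420477299 536870912 536870912 3) ndN2q2a ndN3q1 pcN3 Cut.none Ext.none)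

def k0_mm_213_a : ∃ t, chk3 f_mm_213_a t 1 1 1 = true :=
  ⟨(l 4), by decide +kernel⟩

theorem c_mm_213_a : CertNX 0 420477299 536870912 536870912 1046898278 26843546 3 true false false .pnn 2 1 3
    ndN2q2a ndN3q1 pcN3 Cut.none Ext.none :=
  certNX0 (fam := true) (s1 := false) (s2 := false) (a := 2) (b := 1) (c := 3) (cn := .pnn) (n1 := ndN2q2a) (n2 := ndN3q1) (pc := pcN3) (cut := Cut.none) (xt := Ext.none) (P1 := 0) (W1 := 420477299) (P2 := 536870912) (W2 := 536870912) (P3 := 1046898278) (W3 := 26843546) (N0 := 3)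
    rfl k0_mm_213_a

noncomputable def f_mm_213_b : ℕ → ℕ → ℕ → ℕ → Bool := onCell 1239849684 370763052 536870912 536870912 1046898278 26843546
    (rowNX 3 0 true false false .pnn 2 1 3 (qsf 1239849684 370763052 536870912 536870912 3) ndN2q2b ndN3q1 pcN3 Cut.none Ext.none)

def k0_mm_213_b : ∃ t, chk3 f_mm_213_b t 1 1 1 = true :=
  ⟨(l 4), by decide +kernel⟩

theorem c_mm_213_b : CertNX 1239849684 370763052 536870912 536870912 1046898278 26843546 3 true false false .pnn 2 1 3
    ndN2q2b ndN3q1 pcN3 Cut.none Ext.none :=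
  certNX0 (fam := true) (s1 := false) (s2 := false) (a := 2) (b := 1) (c := 3) (cn := .pnn) (n1 := ndN2q2b) (n2 := ndN3q1) (pc := pcN3) (cut := Cut.none) (xt := Ext.none) (P1 := 1239849684) (W1 := 370763052) (P2 := 536870912) (W2 := 536870912) (P3 := 1046898278) (W3 := 26843546) (N0 := 3)
    rfl k0_mm_213_b

noncomputable def f_mm_303 : ℕ → ℕ → ℕ → ℕ → Bool := onCell 1610612736 469762048 0 536870912 1046898278 26843546
    (rowNX 3 0 true false false .npn 3 0 3 (qsf 1610612736 469762048 0 536870912 3) ndN2q3 ndN3q0 pcN3 Cut.none Ext.none)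

def k0_mm_303 : ∃ t, chk3 f_mm_303 t 1 1 1 = true :=
  ⟨(b (l 4) (l 4)), by decide +kernel⟩

theorem c_mm_303 : CertNX 1610612736 469762048 0 536870912 1046898278 26843546 3 true false false .npn 3 0 3
    ndN2q3 ndN3q0 pcN3 Cut.none Ext.none :=
  certNX0 (fam := true) (s1 := false) (s2 := false) (a := 3) (b := 0) (c := 3) (cn := .npn) (n1 := ndN2q3) (n2 := ndN3q0) (pc := pcN3) (cut := Cut.none) (xt := Ext.none) (P1 := 1610612736) (W1 := 469762048) (P2 := 0) (W2 := 536870912) (P3 := 1046898278) (W3 := 26843546) (N0 := 3)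
    rfl k0_mm_303

noncomputable def f_mm_313 : ℕ → ℕ → ℕ → ℕ → Bool := onCell 1610612736 469762048 536870912 536870912 1046898278 26843546
    (rowNX 3 0 true false false .dn 3 1 3 (qsf 1610612736 469762048 536870912 536870912 3) ndN2q3 ndN3q1 pcN3 Cut.none Ext.none)

def k0_mm_313 : ∃ t, chk3 f_mm_313 t 1 1 1 = true :=
  ⟨(l 4), by decide +kernel⟩

theorem c_mm_313 : CertNX 1610612736 469762048 536870912 536870912 1046898278 26843546 3 true false false .dn 3 1 3
    ndN2q3 ndN3q1 pcN3 Cut.none Ext.none :=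
  certNX0 (fam := true) (s1 := false) (s2 := false) (a := 3) (b := 1) (c := 3) (cn := .dn) (n1 := ndN2q3) (n2 := ndN3q1) (pc := pcN3) (cut := Cut.none) (xt := Ext.none) (P1 := 1610612736) (W1 := 469762048) (P2 := 536870912) (W2 := 536870912) (P3 := 1046898278) (W3 := 26843546) (N0 := 3)
    rfl k0_mm_313

end Pool.Agent.Strip051.G.IE1.Tab.C.NA23

namespace Pool.Agent.Strip051.G.IE1.Tab.C.NA24

open Pool.Agent.Strip051.PB Pool.Agent.Strip051.PB.T
open Pool.Agent.Strip051.G.IE1.Tab

noncomputable def f_pp_001 : ℕ → ℕ → ℕ → ℕ → Bool := onCell 67108864 469762048 0 67108864 1046898278 26843546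
    (rowNX 3 0 true true true .up 0 0 1 (qsf 67108864 469762048 0 67108864 1) ndN2q0 ndN4q0 pcN1 Cut.none Ext.none)

def k0_pp_001 : ∃ t, chk3 f_pp_001 t 1 1 1 = true :=
  ⟨(l 4), by decide +kernel⟩

theorem c_pp_001 : CertNX 67108864 469762048 0 67108864 1046898278 26843546 3 true true true .up 0 0 1
    ndN2q0 ndN4q0 pcN1 Cut.none Ext.none :=
  certNX0 (fam := true) (s1 := true) (s2 := true) (a := 0) (b := 0) (c := 1) (cn := .up) (n1 := ndN2q0) (n2 := ndN4q0) (pc := pcN1) (cut := Cut.none) (xt := Ext.none) (P1 := 67108864) (W1 := 469762048) (P2 := 0) (W2 := 67108864) (P3 := 1046898278) (W3 := 26843546) (N0 := 3)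
    rfl k0_pp_001

noncomputable def f_pp_101 : ℕ → ℕ → ℕ → ℕ → Bool := onCell 536870912 536870912 0 67108864 1046898278 26843546
    (rowNX 3 0 true true true .npn 1 0 1 (qsf 536870912 536870912 0 67108864 1) ndN2q1 ndN4q0 pcN1 Cut.none Ext.none)

def k0_pp_101 : ∃ t, chk3 f_pp_101 t 1 1 1 = true :=
  ⟨(l 4), by decide +kernel⟩

theorem c_pp_101 : CertNX 536870912 536870912 0 67108864 1046898278 26843546 3 true true true .npn 1 0 1
    ndN2q1 ndN4q0 pcN1 Cut.none Ext.none :=
  certNX0 (fam := true) (s1 := true) (s2 := true) (a := 1) (b := 0) (c := 1) (cn := .npn) (n1 := ndN2q1) (n2 := ndN4q0) (pc := pcN1) (cut := Cut.none) (xt := Ext.none) (P1 := 536870912) (W1 := 536870912) (P2 := 0) (W2 := 67108864) (P3 := 1046898278) (W3 := 26843546) (N0 := 3)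
    rfl k0_pp_101

noncomputable def f_pp_102 : ℕ → ℕ → ℕ → ℕ → Bool := onCell 536870912 536870912 0 67108864 1046898278 26843546
    (rowNX 3 0 true true true .npp 1 0 2 (qsf 536870912 536870912 0 67108864 2) ndN2q1 ndN4q0 pcN2 Cut.none Ext.none)

def k0_pp_102 : ∃ t, chk3 f_pp_102 t 1 1 1 = true :=
  ⟨(l 4), by decide +kernel⟩

theorem c_pp_102 : CertNX 536870912 536870912 0 67108864 1046898278 26843546 3 true true true .npp 1 0 2
    ndN2q1 ndN4q0 pcN2 Cut.none Ext.none :=
  certNX0 (fam := true) (s1 := true) (s2 := true) (a := 1) (b := 0) (c := 2) (cn := .npp) (n1 := ndN2q1) (n2 := ndN4q0) (pc := pcN2) (cut := Cut.none) (xt := Ext.none) (P1 := 536870912) (W1 := 536870912) (P2 := 0) (W2 := 67108864) (P3 := 1046898278) (W3 := 26843546) (N0 := 3)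
    rfl k0_pp_102

noncomputable def f_pp_202_a : ℕ → ℕ → ℕ → ℕ → Bool := onCell 0 420477299 0 67108864 1046898278 26843546
    (rowNX 3 0 true true true .pp 2 0 2 (qsf 0 420477299 0 67108864 2) ndN2q2a ndN4q0 pcN2 Cut.none Ext.none)

def k0_pp_202_a : ∃ t, chk3 f_pp_202_a t 1 1 1 = true :=
  ⟨(l 5), by decide +kernel⟩

theorem c_pp_202_a : CertNX 0 420477299 0 67108864 1046898278 26843546 3 true true true .pp 2 0 2
    ndN2q2a ndN4q0 pcN2 Cut.none Ext.none :=
  certNX0 (fam := true) (s1 := true) (s2 := true) (a := 2) (b := 0) (c := 2) (cn := .pp) (n1 := ndN2q2a) (n2 := ndN4q0) (pc := pcN2) (cut := Cut.none) (xt := Ext.none) (P1 := 0) (W1 := 420477299) (P2 := 0) (W2 := 67108864) (P3 := 1046898278) (W3 := 26843546) (N0 := 3)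
    rfl k0_pp_202_a

noncomputable def f_pp_202_b : ℕ → ℕ → ℕ → ℕ → Bool := onCell 1239849684 370763052 0 67108864 1046898278 26843546
    (rowNX 3 0 true true true .pp 2 0 2 (qsf 1239849684 370763052 0 67108864 2) ndN2q2b ndN4q0 pcN2 Cut.none Ext.none)

def k0_pp_202_b : ∃ t, chk3 f_pp_202_b t 1 1 1 = true :=
  ⟨(l 5), by decide +kernel⟩

theorem c_pp_202_b : CertNX 1239849684 370763052 0 67108864 1046898278 26843546 3 true true true .pp 2 0 2
    ndN2q2b ndN4q0 pcN2 Cut.none Ext.none :=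
  certNX0 (fam := true) (s1 := true) (s2 := true) (a := 2) (b := 0) (c := 2) (cn := .pp) (n1 := ndN2q2b) (n2 := ndN4q0) (pc := pcN2) (cut := Cut.none) (xt := Ext.none) (P1 := 1239849684) (W1 := 370763052) (P2 := 0) (W2 := 67108864) (P3 := 1046898278) (W3 := 26843546) (N0 := 3)
    rfl k0_pp_202_b

noncomputable def f_pp_203_a : ℕ → ℕ → ℕ → ℕ → Bool := onCell 0 420477299 0 67108864 1046898278 26843546
    (rowNX 3 0 true true true .up 2 0 3 (qsf 0 420477299 0 67108864 3) ndN2q2a ndN4q0 pcN3 Cut.none Ext.none)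

def k0_pp_203_a : ∃ t, chk3 f_pp_203_a t 1 1 1 = true :=
  ⟨(l 1), by decide +kernel⟩

theorem c_pp_203_a : CertNX 0 420477299 0 67108864 1046898278 26843546 3 true true true .up 2 0 3
    ndN2q2a ndN4q0 pcN3 Cut.none Ext.none :=
  certNX0 (fam := true) (s1 := true) (s2 := true) (a := 2) (b := 0) (c := 3) (cn := .up) (n1 := ndN2q2a) (n2 := ndN4q0) (pc := pcN3) (cut := Cut.none) (xt := Ext.none) (P1 := 0) (W1 := 420477299) (P2 := 0) (W2 := 67108864) (P3 := 1046898278) (W3 := 26843546) (N0 := 3)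
    rfl k0_pp_203_a

noncomputable def f_pp_203_b : ℕ → ℕ → ℕ → ℕ → Bool := onCell 1239849684 370763052 0 67108864 1046898278 26843546
    (rowNX 3 0 true true true .up 2 0 3 (qsf 1239849684 370763052 0 67108864 3) ndN2q2b ndN4q0 pcN3 Cut.none Ext.none)

def k0_pp_203_b : ∃ t, chk3 f_pp_203_b t 1 1 1 = true :=
  ⟨(l 5), by decide +kernel⟩

theorem c_pp_203_b : CertNX 1239849684 370763052 0 67108864 1046898278 26843546 3 true true true .up 2 0 3
    ndN2q2b ndN4q0 pcN3 Cut.none Ext.none :=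
  certNX0 (fam := true) (s1 := true) (s2 := true) (a := 2) (b := 0) (c := 3) (cn := .up) (n1 := ndN2q2b) (n2 := ndN4q0) (pc := pcN3) (cut := Cut.none) (xt := Ext.none) (P1 := 1239849684) (W1 := 370763052) (P2 := 0) (W2 := 67108864) (P3 := 1046898278) (W3 := 26843546) (N0 := 3)
    rfl k0_pp_203_b

noncomputable def f_pp_303 : ℕ → ℕ → ℕ → ℕ → Bool := onCell 1610612736 469762048 0 67108864 1046898278 26843546
    (rowNX 3 0 true true true .npn 3 0 3 (qsf 1610612736 469762048 0 67108864 3) ndN2q3 ndN4q0 pcN3 Cut.none Ext.none)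

def k0_pp_303 : ∃ t, chk3 f_pp_303 t 1 1 1 = true :=
  ⟨(l 4), by decide +kernel⟩

theorem c_pp_303 : CertNX 1610612736 469762048 0 67108864 1046898278 26843546 3 true true true .npn 3 0 3
    ndN2q3 ndN4q0 pcN3 Cut.none Ext.none :=
  certNX0 (fam := true) (s1 := true) (s2 := true) (a := 3) (b := 0) (c := 3) (cn := .npn) (n1 := ndN2q3) (n2 := ndN4q0) (pc := pcN3) (cut := Cut.none) (xt := Ext.none) (P1 := 1610612736) (W1 := 469762048) (P2 := 0) (W2 := 67108864) (P3 := 1046898278) (W3 := 26843546) (N0 := 3)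
    rfl k0_pp_303

noncomputable def f_pm_001 : ℕ → ℕ → ℕ → ℕ → Bool := onCell 67108864 469762048 0 67108864 1046898278 26843546
    (rowNX 3 0 true true false .up 0 0 1 (qsf 67108864 469762048 0 67108864 1) ndN2q0 ndN4q0 pcN1 Cut.none Ext.none)

def k0_pm_001 : ∃ t, chk3 f_pm_001 t 1 1 1 = true :=
  ⟨(l 3), by decide +kernel⟩

theorem c_pm_001 : CertNX 67108864 469762048 0 67108864 1046898278 26843546 3 true true false .up 0 0 1
    ndN2q0 ndN4q0 pcN1 Cut.none Ext.none :=
  certNX0 (fam := true) (s1 := true) (s2 := false) (a := 0) (b := 0) (c := 1) (cn := .up) (n1 := ndN2q0) (n2 := ndN4q0) (pc := pcN1) (cut := Cut.none) (xt := Ext.none) (P1 := 67108864) (W1 := 469762048) (P2 := 0) (W2 := 67108864) (P3 := 1046898278) (W3 := 26843546) (N0 := 3)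
    rfl k0_pm_001

noncomputable def f_pm_101 : ℕ → ℕ → ℕ → ℕ → Bool := onCell 536870912 536870912 0 67108864 1046898278 26843546
    (rowNX 3 0 true true false .npn 1 0 1 (qsf 536870912 536870912 0 67108864 1) ndN2q1 ndN4q0 pcN1 Cut.none Ext.none)

def k0_pm_101 : ∃ t, chk3 f_pm_101 t 1 1 1 = true :=
  ⟨(l 3), by decide +kernel⟩

theorem c_pm_101 : CertNX 536870912 536870912 0 67108864 1046898278 26843546 3 true true false .npn 1 0 1
    ndN2q1 ndN4q0 pcN1 Cut.none Ext.none :=
  certNX0 (fam := true) (s1 := true) (s2 := false) (a := 1) (b := 0) (c := 1) (cn := .npn) (n1 := ndN2q1) (n2 := ndN4q0) (pc := pcN1) (cut := Cut.none) (xt := Ext.none) (P1 := 536870912) (W1 := 536870912) (P2 := 0) (W2 := 67108864) (P3 := 1046898278) (W3 := 26843546) (N0 := 3)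
    rfl k0_pm_101

noncomputable def f_pm_102 : ℕ → ℕ → ℕ → ℕ → Bool := onCell 536870912 536870912 0 67108864 1046898278 26843546
    (rowNX 3 0 true true false .npp 1 0 2 (qsf 536870912 536870912 0 67108864 2) ndN2q1 ndN4q0 pcN2 Cut.none Ext.none)

def k0_pm_102 : ∃ t, chk3 f_pm_102 t 1 1 1 = true :=
  ⟨(l 3), by decide +kernel⟩

theorem c_pm_102 : CertNX 536870912 536870912 0 67108864 1046898278 26843546 3 true true false .npp 1 0 2
    ndN2q1 ndN4q0 pcN2 Cut.none Ext.none :=
  certNX0 (fam := true) (s1 := true) (s2 := false) (a := 1) (b := 0) (c := 2) (cn := .npp) (n1 := ndN2q1) (n2 := ndN4q0) (pc := pcN2) (cut := Cut.none) (xt := Ext.none) (P1 := 536870912) (W1 := 536870912) (P2 := 0) (W2 := 67108864) (P3 := 1046898278) (W3 := 26843546) (N0 := 3)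
    rfl k0_pm_102

end Pool.Agent.Strip051.G.IE1.Tab.C.NA24

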