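import Pool.Agent.Strip051.G.IE1.Tab

/-! # Certificates N31 (generated) -/

set_option linter.all false
set_option maxRecDepth 100000

namespace Pool.Agent.Strip051.G.IE1.Tab.C.NA24

open Pool.Agent.Strip051.PB Pool.Agent.Strip051.PB.T
open Pool.Agent.Strip051.G.IE1.Tab

noncomputable def f_pm_202_a : ℕ → ℕ → ℕ → ℕ → Bool := onCell 0 420477299 0 67108864 1046898278 26843546
    (rowNX 3 0 true true false .pp 2 0 2 (qsf 0 420477299 0 67108864 2) ndN2q2a ndN4q0 pcN2 Cut.none Ext.none)

def k0_pm_202_a : ∃ t, chk3 f_pm_202_a t 2 1 1 = true :=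
  ⟨(b (a (b (c (b (a (l 15576488) (l 15634048)) (a (b (l 15486320) (l 15402088)) (b (l 15542072) (l 15456632)))) (b (c (a (l 15503064) (b (l 15624256) (l 15549808))) (b (a (l 15422456) (c (l 15599144) (l 15580616))) (a (l 15439992) (l 15500064)))) (c (a (l 15353608) (l 15410552)) (l 15361568)))) (b (c (a (l 15245272) (l 15298008)) (l 15165496)) (c (l 15127024) (l 15093648)))) (b (a (c (b (l 15817480) (b (l 15721560) (l 15549608))) (b (c (b (l 15814792) (l 15737656)) (b (c (l 15792632) (l 15713168)) (l 15691808))) (c (l 15594360) (l 15573456)))) (c (b (a (l 15868136) (b (l 16135816) (l 16059672))) (b (c (l 16033616) (l 15979208)) (l 15699208))) (b (c (a (b (l 16036920) (l 15971032)) (b (l 16118048) (b (l 16118120) (l 16079792)))) (a (b (b (c (l 16035968) (l 15938536)) (l 15946216)) (l 15929952)) (b (c (b (l 16074960) (l 16122776)) (b (c (l 16058392) (l 15851504)) (a (l 16102224) (l 16093384)))) (c (l 16067672) (a (l 16076960) (b (l 16143832) (l 16156992))))))) (c (l 15818888)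 (l 15909608))))) (c (a (b (l 15428984) (l 15315520)) (b (l 15572344) (l 15618352))) (a (l 15357464) (l 15551512))))) (a (b (c (a (l 14945792) (l 14992496)) (l 14897696)) (c (a (l 14746392) (l 14788296)) (l 14652632))) (b (a (c (l 15152344) (l 15084472)) (c (l 15442760) (l 15387184))) (c (a (l 14937744) (l 15085888)) (a (l 14826320) (l 15111880)))))), by decide +kernel⟩

def k1_pm_202_a : ∃ t, chk3 f_pm_202_a t 6 4 2 = true :=
  ⟨(a (b (a (l 16169976) (c (b (l 16020552) (l 16250872)) (c (l 15976672) (b (l 15956040) (l 16135104))))) (c (a (b (l 16326584) (l 16284968)) (l 16229152)) (a (b (l 16214216) (l 16150296)) (b (l 16308600) (l 16337928))))) (c (b (a (c (b (l 16004640) (l 16244176)) (b (a (l 16106504) (l 16072184)) (l 16183624))) (b (c (l 15868136) (l 15958120)) (c (a (l 16226176) (l 16170696)) (l 15991720)))) (a (l 16378824) (b (c (a (l 16359960) (l 16342864)) (a (l 16331064) (b (l 16273904) (l 16339728)))) (c (l 16431728) (l 16376112))))) (b (a (b (a (l 15850504) (l 15964120))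 (c (l 16055192) (a (l 16086064) (l 16131232)))) (c (l 15861888) (l 15713136))) (a (c (b (l 16309088) (l 16353912)) (b (l 16172480) (l 16315096))) (b (c (b (l 16124024) (l 16215648)) (l 16155792)) (c (l 16276880) (a (l 16291856) (l 16217608)))))))), by decide +kernel⟩

def k2_pm_202_a : ∃ t, chk3 f_pm_202_a t 6 4 3 = true :=
  ⟨(a (b (c (a (b (c (l 16105312) (a (l 16102576) (l 16033504))) (c (l 16218688) (b (l 16169776) (l 16200080)))) (b (c (l 15917112) (l 15915216)) (c (b (l 16082544) (l 16210944)) (b (l 16021176) (l 16045880))))) (a (b (c (b (l 15964896) (a (l 16105928) (l 16061400))) (b (l 15861624) (l 15907464))) (c (a (l 16168176) (l 16060696)) (a (l 16103680) (l 16080872)))) (b (c (l 15841024) (l 15540664)) (c (l 15868568) (l 15972736))))) (a (c (b (l 16078488) (l 16177256)) (b (a (c (l 16209744) (l 16113848)) (c (l 16229264) (l 16100216))) (l 16157792))) (c (b (c (l 16226760) (l 16075376)) (a (l 16323016) (l 16323496))) (b (c (a (l 16211680) (l 16168904)) (l 16026944))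 (a (c (l 16330832) (b (l 16291064) (l 16326776))) (c (l 16322288) (l 16255664))))))) (b (c (b (a (l 15823184) (l 15678056)) (c (a (l 15955024) (l 15909208)) (a (l 15976048) (l 15808184)))) (b (c (b (l 15582664) (l 15527760)) (b (c (l 15514328) (l 15362568)) (l 15493008))) (c (l 15628504) (l 15650312)))) (c (a (c (b (a (l 16160696) (l 16172536)) (l 16255128)) (b (l 16007192) (a (l 16313408) (l 16249128)))) (b (l 15859432) (c (l 16123288) (l 16143776)))) (a (c (b (l 16062512) (a (l 16262064) (l 16201408))) (l 16024920)) (l 15706368))))), by decide +kernel⟩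

def k3_pm_202_a : ∃ t, chk3 f_pm_202_a t 6 5 1 = true :=
  ⟨(a (c (b (a (l 15950800) (b (a (l 16305992) (l 16407200)) (l 16214712))) (a (l 15925944) (l 16179696))) (a (l 15917976) (b (a (l 16236760) (c (l 16390800) (b (c (l 16406416) (b (l 16371984) (l 16397648))) (l 16375648)))) (l 16169544)))) (c (a (b (b (l 16425216) (l 16301048)) (b (l 16326880) (l 16439848))) (b (c (l 16461672) (c (l 16237744) (l 16212176))) (l 16349648))) (a (b (c (b (c (l 16411464) (l 16409744)) (a (l 16455248) (l 16454360))) (b (c (l 16213984) (l 16137104)) (a (c (l 16459704) (b (l 16452024) (l 16467288))) (c (l 16470584) (l 16447056))))) (c (l 16228056) (a (l 16398752) (b (c (l 16410728) (a (l 16431088) (l 16415616))) (l 16459752))))) (b (c (c (b (l 16279376) (l 16490224)) (b (l 16203920) (l 16305000))) (c (b (l 16248512) (l 16271896)) (l 16059464))) (c (a (b (l 16395432) (l 16345008)) (c (l 16375600) (l 16392296))) (c (a (b (l 16416408) (l 16357056)) (l 16317432)) (b (l 16306888) (a (a (l 16376616)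 (l 16359544)) (l 16394904))))))))), by decide +kernel⟩

def k4_pm_202_a : ∃ t, chk3 f_pm_202_a t 6 3 1 = true :=
  ⟨(a (b (c (l 15714632) (l 15739504)) (c (b (l 15675376) (l 15549512)) (l 15525120))) (b (a (c (l 16181456) (l 16118248)) (a (c (l 16418224) (l 16385768)) (b (c (l 16331912) (c (l 16272016) (b (c (l 16298560) (a (l 16316424) (l 16300800))) (l 16338312)))) (l 16339824)))) (c (a (l 15845296) (b (l 16376312) (l 16232696))) (l 15834288)))), by decide +kernel⟩

def k5_pm_202_a : ∃ t, chk3 f_pm_202_a t 14 4 2 = true :=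
  ⟨(b (a (a (c (b (l 15815672) (l 16080608)) (b (l 15721216) (l 15902288))) (b (c (a (b (l 15791696) (l 15888000)) (l 15833008)) (a (l 15558264) (l 15680296))) (c (l 15883768) (b (l 15826264) (l 15921880))))) (c (a (b (l 15835664) (a (l 15823232) (l 16008832))) (l 15746312)) (b (l 15537728) (a (b (l 15816640) (a (l 15879752) (l 15899080))) (l 15811552))))) (a (c (b (a (c (b (l 16270392) (l 16355624)) (l 16192200)) (l 16116000)) (a (c (l 16413912) (l 16349000)) (c (l 16409752) (l 16310456)))) (b (c (l 16006024) (l 16002920)) (c (l 16166888) (l 16064456)))) (c (b (a (b (l 15940240) (l 16172320)) (b (l 16142472) (a (l 16092664) (l 16218088)))) (a (l 16308576) (c (b (l 16207048) (l 16382920)) (l 16125416)))) (b (a (b (a (l 15976600) (l 15924288)) (l 16029496)) (b (l 15972240) (l 16017064))) (a (l 16120128) (b (l 15833248) (l 16017432))))))), by decide +kernel⟩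

def k6_pm_202_a : ∃ t, chk3 f_pm_202_a t 14 4 3 = true :=
  ⟨(b (a (c (b (a (l 15473304) (b (l 15476400) (a (l 15567744) (l 15563096)))) (a (c (l 15787488) (l 15685688)) (b (l 15460008) (l 15727280)))) (b (a (c (b (l 15378200) (l 15468872)) (c (l 15184520) (l 15179400))) (c (b (l 15352688) (a (l 15427480) (l 15424992))) (b (b (l 15246232) (l 15281016)) (a (l 15328512) (l 15327512))))) (a (l 15333856) (c (l 15538856) (l 15454448))))) (c (b (c (l 15598400) (l 15524120)) (a (b (l 15603592) (c (l 15757224) (l 15646152))) (c (l 15750560) (l 15656888)))) (b (c (b (l 15414384) (l 15471584)) (b (c (l 15353872) (l 15312264)) (l 15381752))) (a (c (b (l 15496872) (l 15561840)) (l 15387768)) (c (l 15568776) (l 15492880)))))) (a (c (c (b (l 15895568) (l 16052448)) (l 15734136)) (a (l 15727976) (l 15737704))) (c (b (a (c (l 15756352) (l 15734432)) (b (l 15770160) (l 15595768))) (a (l 15962264) (a (l 15941504) (l 15873600)))) (a (b (a (l 15647200) (l 15532528)) (l 15815584)) (b (a (l 15598760)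 (l 15658832)) (a (l 15795056) (l 15708336))))))), by decide +kernel⟩

def k7_pm_202_a : ∃ t, chk3 f_pm_202_a t 14 5 1 = true :=
  ⟨(c (c (a (b (c (a (l 16470136) (l 16437856)) (a (l 16222584) (b (l 16403256) (l 16483824)))) (l 16431848)) (b (b (c (l 16471952) (l 16369848)) (c (a (l 16524696) (l 16527712)) (l 16327248))) (c (a (l 16407728) (l 16395280)) (a (l 16406880) (l 16396224))))) (a (b (b (a (c (l 16340312) (l 16319488)) (l 16227232)) (a (l 16397624) (l 16455416))) (a (l 16375560) (c (l 16415032) (l 16413840)))) (b (c (l 16117112) (l 16261416)) (c (b (l 16469376) (l 16346800)) (l 16245640))))) (c (a (b (c (a (l 16252032) (l 16298480)) (l 16052144)) (c (a (l 16410648) (l 16366208)) (a (l 16331392) (l 16455264)))) (b (c (l 16207016) (l 16143080)) (c (l 16353128) (l 16504520)))) (a (b (a (l 16037368) (l 16066144)) (a (b (l 16399544) (l 16279896)) (l 16323464))) (b (l 15953608) (l 16186504))))), by decide +kernel⟩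

def k8_pm_202_a : ∃ t, chk3 f_pm_202_a t 15 4 1 = true :=
  ⟨(c (b (a (c (a (l 15801376) (l 15877816)) (b (a (l 15777000) (l 15853144)) (c (l 15977824) (l 15723256)))) (c (a (l 15977088) (l 16058824)) (b (a (l 15953392) (l 16079376)) (a (l 15936464) (l 16005496))))) (a (c (b (c (l 16203856) (l 16027080)) (a (l 16174232) (l 16259160))) (b (c (l 16006280) (l 15994864)) (a (l 15953304) (l 16092728)))) (c (b (c (l 16228960) (b (l 16277200) (l 16279752))) (c (l 16357192) (l 16333696))) (b (c (l 16038240) (l 16145968)) (c (l 16266432) (l 16085240)))))) (b (a (c (b (c (l 15725920) (l 15413576)) (c (b (l 15817760) (l 15856688)) (b (l 15735232) (l 15761120)))) (b (c (b (l 15576544) (a (l 15572424) (l 15670320))) (b (c (l 15526664) (b (l 15483648) (l 15500048))) (l 15438632))) (c (l 15463344) (l 15607640)))) (c (b (a (l 15774368) (c (l 16021464) (l 15980712))) (c (b (l 15915240) (l 16044280)) (b (l 15869064) (l 15921912)))) (b (c (b (a (l 15762712) (l 15922000)) (a (l 15794088) (l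 15861520))) (b (c (a (l 15721816) (l 15887664)) (a (l 15588568) (b (l 15797168) (l 15866560)))) (a (l 15730064) (l 15869048)))) (c (a (l 15830784) (l 15970264)) (a (l 15776944) (l 15924880)))))) (a (c (b (c (l 15879456) (l 15828512)) (a (l 15952136) (l 15999736))) (a (b (l 15700256) (l 15815768)) (l 15613976))) (c (b (c (l 15877328) (l 15862168)) (a (l 16071112) (l 16167840))) (a (c (l 15950912) (l 15885712)) (c (l 16046088) (l 16009960))))))), by decide +kernel⟩

def k9_pm_202_a : ∃ t, chk3 f_pm_202_a t 15 5 1 = true :=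
  ⟨(c (a (b (c (a (b (b (a (l 16363656) (l 16362416)) (l 16200752)) (l 16293536)) (b (l 16393296) (c (l 16274320) (b (l 16413208) (l 16482232))))) (b (a (a (l 16008872) (l 16028568)) (l 16171056)) (a (l 16379400) (a (l 16307040) (l 16375528))))) (c (a (b (l 16375368) (l 16225208)) (b (b (l 16391736) (l 16458520)) (l 16272248))) (b (a (l 16554720) (l 16410336)) (l 16403864)))) (b (c (c (l 16270520) (b (l 16392192) (l 16466864))) (b (c (l 16226152) (l 16282880)) (l 16319880))) (a (b (c (l 16312424) (l 16478288)) (c (a (l 16361472) (l 16353576)) (l 16250112))) (c (l 16282728) (l 16489360))))) (a (b (a (c (b (a (l 16078728) (l 16080800)) (l 16203992)) (b (a (l 15945192) (l 15950744)) (l 16103968))) (c (b (l 16127496) (a (l 16133968) (l 16270224))) (b (l 15985880) (a (l 16057352) (l 16114776))))) (c (b (a (l 16437848) (l 16189584)) (l 16531536)) (a (l 16228616) (b (l 16107632) (l 16417184))))) (b (c (c (b (l 16245160) (l 16342992)) (l 16044312)) (a (l 16023600) (l 16092152))) (a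 (c (b (b (l 16379432) (l 16403752)) (a (l 16531560) (l 16450504))) (b (l 16169776) (a (l 16343896) (l 16286792)))) (c (l 16311112) (l 16226128)))))), by decide +kernel⟩

def k10_pm_202_a : ∃ t, chk3 f_pm_202_a t 14 3 1 = true :=
  ⟨(b (c (a (b (a (l 16251912) (l 16245864)) (a (l 16297760) (l 16069784))) (c (l 16132512) (b (c (l 16199496) (l 16011800)) (l 16023624)))) (a (b (c (a (b (l 16280840) (l 16224480)) (l 16017600)) (b (a (c (l 16304632) (l 16337232)) (l 16318680)) (a (c (l 16235232) (a (l 16251120) (l 16239272))) (l 16094952)))) (a (l 16303848) (c (l 16148096) (b (c (l 16139464) (l 16033960)) (l 16154512))))) (c (b (c (b (l 16222672) (l 16160864)) (b (l 16274888) (l 16169520))) (a (b (l 16089168) (l 16014832)) (l 15862792))) (b (c (b (l 16397144) (l 16216248)) (l 16348544)) (a (b (l 16028144) (c (l 16022120) (l 16041912))) (c (l 16057784) (l 16078616))))))) (c (a (b (l 16259032) (l 16388848)) (b (a (l 16046968) (l 15893680)) (l 15957216))) (a (a (l 16473008) (l 16310592))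 (b (a (l 16054968) (b (c (l 15895688) (l 15858096)) (l 15874232))) (l 16056752))))), by decide +kernel⟩

def k11_pm_202_a : ∃ t, chk3 f_pm_202_a t 15 3 1 = true :=
  ⟨(c (b (a (c (b (c (l 16022408) (a (l 16164784) (l 16144896))) (l 15963200)) (b (c (a (l 16161760) (l 16158072)) (b (l 16261176) (l 16115488))) (c (l 15952776) (l 15880672)))) (b (a (c (c (l 15958872) (l 16101056)) (l 16107288)) (b (c (a (l 16183728) (l 16232552)) (a (l 16231416) (l 16317416))) (c (a (l 16061704) (l 16073440)) (l 16054464)))) (c (c (l 15731000) (a (l 15898144) (l 15868696))) (c (a (l 15899952) (l 15888896)) (l 15853208))))) (a (b (l 15790208) (a (l 15519480) (l 15618384))) (b (c (c (l 15697136) (l 15685880)) (c (l 15692864) (l 15605096))) (l 15523944)))) (b (a (c (b (b (l 16370904) (l 16143168)) (c (a (l 15988544) (l 15974856)) (a (l 16017528) (l 16027616)))) (b (l 16342280) (c (l 15996920) (l 16157192)))) (b (a (c (l 16324880) (l 16438912)) (b (c (l 16246416) (a (l 16440048) (l 16583080))) (c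 (l 16189136) (l 16362744)))) (c (l 15888672) (l 16127960)))) (a (b (c (c (l 15798448) (l 15814328)) (c (a (l 15836992) (l 15814400)) (a (l 15859552) (l 15856712)))) (a (l 15753536) (c (l 15617088) (b (l 15670824) (l 15523944))))) (c (b (c (a (l 15737688) (l 15716328)) (l 15540448)) (c (l 15536896) (l 15508616))) (b (c (l 15825688) (l 15903112)) (c (a (l 15577192) (l 15546056)) (a (l 15599336) (l 15590704)))))))), by decide +kernel⟩

theorem s12_pm_202_a : ∃ t, chk3 f_pm_202_a t 7 3 1 = true := ex3_a k10_pm_202_a k11_pm_202_a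

theorem s13_pm_202_a : ∃ t, chk3 f_pm_202_a t 15 2 1 = true := ex3_b k8_pm_202_a k9_pm_202_a

theorem s14_pm_202_a : ∃ t, chk3 f_pm_202_a t 14 4 1 = true := ex3_c k5_pm_202_a k6_pm_202_a

theorem s15_pm_202_a : ∃ t, chk3 f_pm_202_a t 14 2 1 = true := ex3_b s14_pm_202_a k7_pm_202_a

theorem s16_pm_202_a : ∃ t, chk3 f_pm_202_a t 7 2 1 = true := ex3_a s15_pm_202_a s13_pm_202_a

theorem s17_pm_202_a : ∃ t, chk3 f_pm_202_a t 7 1 1 = true := ex3_b s16_pm_202_a s12_pm_202_a

theorem s18_pm_202_a : ∃ t, chk3 f_pm_202_a t 6 4 1 = true := ex3_c k1_pm_202_a k2_pm_202_a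

theorem s19_pm_202_a : ∃ t, chk3 f_pm_202_a t 6 2 1 = true := ex3_b s18_pm_202_a k3_pm_202_a

theorem s20_pm_202_a : ∃ t, chk3 f_pm_202_a t 6 1 1 = true := ex3_b s19_pm_202_a k4_pm_202_a

theorem s21_pm_202_a : ∃ t, chk3 f_pm_202_a t 3 1 1 = true := ex3_a s20_pm_202_a s17_pm_202_a

theorem s22_pm_202_a : ∃ t, chk3 f_pm_202_a t 1 1 1 = true := ex3_a k0_pm_202_a s21_pm_202_a

theorem c_pm_202_a : CertNX 0 420477299 0 67108864 1046898278 26843546 3 true true false .pp 2 0 2
    ndN2q2a ndN4q0 pcN2 Cut.none Ext.none :=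
  certNX0 (fam := true) (s1 := true) (s2 := false) (a := 2) (b := 0) (c := 2) (cn := .pp) (n1 := ndN2q2a) (n2 := ndN4q0) (pc := pcN2) (cut := Cut.none) (xt := Ext.none) (P1 := 0) (W1 := 420477299) (P2 := 0) (W2 := 67108864) (P3 := 1046898278) (W3 := 26843546) (N0 := 3)
    rfl s22_pm_202_a

noncomputable def f_pm_202_b : ℕ → ℕ → ℕ → ℕ → Bool := onCell 1073741824 536870912 0 67108864 1046898278 26843546
    (rowNX 3 2 true true false .pp 2 0 2 (qsf 1239849684 370763052 0 67108864 2) ndN2q2b ndN4q0 pcN2 Cut.none Ext.none)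

def k0_pm_202_b : ∃ t, chk3 f_pm_202_b t 1 1 1 = true :=
  ⟨(a (a (l 1) (a (b (a (a (l 1) (b (b (a (l 1) (a (l 1) (b (b (l 428990596935) (l 1)) (l 1)))) (l 1)) (l 1))) (b (c (b (l 148743206855) (b (a (l 15331808) (l 15103200)) (c (l 15185752) (l 293161539255)))) (b (c (b (l 15157112) (l 404830543607)) (b (c (l 15124512) (l 14954128)) (l 15090208))) (c (a (l 15410384) (l 15009416)) (l 14981344)))) (c (a (b (c (l 15572672) (l 15541768)) (l 1)) (b (l 15108240) (l 15170104))) (a (l 15349536) (l 15098272))))) (a (l 1) (b (a (l 1) (c (l 15295464) (l 15321064))) (l 1)))) (b (a (b (c (b (l 14494960) (c (l 14604208) (l 14518280))) (b (c (l 14406312) (b (l 14288280) (l 14351880))) (c (l 14445992) (l 14400016)))) (c (b (c (l 14582968) (l 14530408)) (l 14607824)) (l 14515400))) (b (c (b (l 14142312) (c (l 14280560) (l 14186952))) (b (c (l 14041056) (b (l 13949736) (l 13987272))) (c (l 14106864) (l 14052928)))) (c (a (l 14221568) (l 14317744)) (l 14194000)))) (a (b (c (a (l 14921944)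 (l 14561848)) (l 14613960)) (c (c (a (l 15158720) (l 14751576)) (l 229273213735)) (l 301750540023))) (c (b (l 14437608) (c (l 14616360) (l 14565376))) (l 14396064)))))) (a (b (b (b (c (l 14146400) (c (a (l 14045272) (l 14045272)) (c (l 13992424) (l 13956584)))) (c (a (l 14246648) (l 14246648)) (c (l 14122960) (l 14069368)))) (c (a (l 14337480) (l 14337520)) (l 14245032))) (c (a (b (l 14536696) (a (l 14714328) (l 14759624))) (l 14644168)) (a (l 14517752) (l 14540928)))) (b (b (c (b (l 14146400) (l 14246648)) (b (c (l 14045272) (l 13973568)) (l 14087688))) (c (l 14337520) (l 14245048))) (c (l 14644168) (l 14540928))))), by decide +kernel⟩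

theorem c_pm_202_b : CertNX 1239849684 370763052 0 67108864 1046898278 26843546 3 true true false .pp 2 0 2
    ndN2q2b ndN4q0 pcN2 Cut.none Ext.none :=
  certNX2 (fam := true) (s1 := true) (s2 := false) (a := 2) (b := 0) (c := 2) (cn := .pp) (n1 := ndN2q2b) (n2 := ndN4q0) (pc := pcN2) (cut := Cut.none) (xt := Ext.none) (P1 := 1239849684) (W1 := 370763052) (P2 := 0) (W2 := 67108864) (P3 := 1046898278) (W3 := 26843546) (N0 := 3)
    rfl (fun _ => rfl) k0_pm_202_b

noncomputable def f_pm_203_a : ℕ → ℕ → ℕ → ℕ → Bool := onCell 0 420477299 0 67108864 1046898278 26843546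
    (rowNX 3 0 true true false .up 2 0 3 (qsf 0 420477299 0 67108864 3) ndN2q2a ndN4q0 pcN3 Cut.none Ext.none)

def k0_pm_203_a : ∃ t, chk3 f_pm_203_a t 1 1 1 = true :=
  ⟨(l 1), by decide +kernel⟩

theorem c_pm_203_a : CertNX 0 420477299 0 67108864 1046898278 26843546 3 true true false .up 2 0 3
    ndN2q2a ndN4q0 pcN3 Cut.none Ext.none :=
  certNX0 (fam := true) (s1 := true) (s2 := false) (a := 2) (b := 0) (c := 3) (cn := .up) (n1 := ndN2q2a) (n2 := ndN4q0) (pc := pcN3) (cut := Cut.none) (xt := Ext.none) (P1 := 0) (W1 := 420477299) (P2 := 0) (W2 := 67108864) (P3 := 1046898278) (W3 := 26843546) (N0 := 3)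
    rfl k0_pm_203_a

noncomputable def f_pm_203_b : ℕ → ℕ → ℕ → ℕ → Bool := onCell 1610612736 536870912 0 67108864 1046898278 26843546
    (rowNX 3 2 true true false .up 2 0 3 (qsf 1239849684 370763052 0 67108864 3) ndN2q2b ndN4q0 pcN3 Cut.none Ext.none)

def k0_pm_203_b : ∃ t, chk3 f_pm_203_b t 1 1 1 = true :=
  ⟨(a (a (a (b (b (c (l 14189640) (l 14031144)) (l 14270512)) (l 14462608)) (b (l 2) (l 650246456855))) (l 2)) (l 2)), by decide +kernel⟩

theorem c_pm_203_b : CertNX 1239849684 370763052 0 67108864 1046898278 26843546 3 true true false .up 2 0 3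
    ndN2q2b ndN4q0 pcN3 Cut.none Ext.none :=
  certNX2 (fam := true) (s1 := true) (s2 := false) (a := 2) (b := 0) (c := 3) (cn := .up) (n1 := ndN2q2b) (n2 := ndN4q0) (pc := pcN3) (cut := Cut.none) (xt := Ext.none) (P1 := 1239849684) (W1 := 370763052) (P2 := 0) (W2 := 67108864) (P3 := 1046898278) (W3 := 26843546) (N0 := 3)
    rfl (fun _ => rfl) k0_pm_203_b

noncomputable def f_pm_303 : ℕ → ℕ → ℕ → ℕ → Bool := onCell 1610612736 536870912 0 67108864 1046898278 26843546
    (rowNX 3 2 true true false .npn 3 0 3 (qsf 1610612736 469762048 0 67108864 3) ndN2q3 ndN4q0 pcN3 Cut.none Ext.none)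

def k0_pm_303 : ∃ t, chk3 f_pm_303 t 1 1 1 = true :=
  ⟨(a (a (b (c (b (a (l 14189640) (l 14189640)) (l 14337520)) (b (a (l 14010176) (b (l 14007072) (l 14087688))) (l 14245048))) (c (l 14602224) (l 14540928))) (b (c (a (b (l 14189640) (l 14337520)) (b (l 14189640) (l 14337520))) (a (c (l 14096160) (l 14114080)) (b (c (l 14088448) (l 14019360)) (l 14245048)))) (c (a (l 14644168) (l 14644168)) (a (l 14540928) (l 14540928))))) (a (a (l 4) (l 4)) (l 4))), by decide +kernel⟩

theorem c_pm_303 : CertNX 1610612736 469762048 0 67108864 1046898278 26843546 3 true true false .npn 3 0 3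
    ndN2q3 ndN4q0 pcN3 Cut.none Ext.none :=
  certNX2 (fam := true) (s1 := true) (s2 := false) (a := 3) (b := 0) (c := 3) (cn := .npn) (n1 := ndN2q3) (n2 := ndN4q0) (pc := pcN3) (cut := Cut.none) (xt := Ext.none) (P1 := 1610612736) (W1 := 469762048) (P2 := 0) (W2 := 67108864) (P3 := 1046898278) (W3 := 26843546) (N0 := 3)
    rfl (fun _ => rfl) k0_pm_303

noncomputable def f_mm_001 : ℕ → ℕ → ℕ → ℕ → Bool := onCell 67108864 469762048 0 67108864 1046898278 26843546
    (rowNX 3 0 true false false .up 0 0 1 (qsf 67108864 469762048 0 67108864 1) ndN2q0 ndN4q0 pcN1 Cut.none Ext.none)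

def k0_mm_001 : ∃ t, chk3 f_mm_001 t 1 1 1 = true :=
  ⟨(l 4), by decide +kernel⟩

theorem c_mm_001 : CertNX 67108864 469762048 0 67108864 1046898278 26843546 3 true false false .up 0 0 1
    ndN2q0 ndN4q0 pcN1 Cut.none Ext.none :=
  certNX0 (fam := true) (s1 := false) (s2 := false) (a := 0) (b := 0) (c := 1) (cn := .up) (n1 := ndN2q0) (n2 := ndN4q0) (pc := pcN1) (cut := Cut.none) (xt := Ext.none) (P1 := 67108864) (W1 := 469762048) (P2 := 0) (W2 := 67108864) (P3 := 1046898278) (W3 := 26843546) (N0 := 3)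
    rfl k0_mm_001

noncomputable def f_mm_101 : ℕ → ℕ → ℕ → ℕ → Bool := onCell 536870912 536870912 0 67108864 1046898278 26843546
    (rowNX 3 0 true false false .npn 1 0 1 (qsf 536870912 536870912 0 67108864 1) ndN2q1 ndN4q0 pcN1 Cut.none Ext.none)

def k0_mm_101 : ∃ t, chk3 f_mm_101 t 1 1 1 = true :=
  ⟨(l 4), by decide +kernel⟩

theorem c_mm_101 : CertNX 536870912 536870912 0 67108864 1046898278 26843546 3 true false false .npn 1 0 1
    ndN2q1 ndN4q0 pcN1 Cut.none Ext.none :=
  certNX0 (fam := true) (s1 := false) (s2 := false) (a := 1) (b := 0) (c := 1) (cn := .npn) (n1 := ndN2q1) (n2 := ndN4q0) (pc := pcN1) (cut := Cut.none) (xt := Ext.none) (P1 := 536870912) (W1 := 536870912) (P2 := 0) (W2 := 67108864) (P3 := 1046898278) (W3 := 26843546) (N0 := 3)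
    rfl k0_mm_101

noncomputable def f_mm_102 : ℕ → ℕ → ℕ → ℕ → Bool := onCell 536870912 536870912 0 67108864 1046898278 26843546
    (rowNX 3 0 true false false .npp 1 0 2 (qsf 536870912 536870912 0 67108864 2) ndN2q1 ndN4q0 pcN2 Cut.none Ext.none)

def k0_mm_102 : ∃ t, chk3 f_mm_102 t 1 1 1 = true :=
  ⟨(l 4), by decide +kernel⟩

theorem c_mm_102 : CertNX 536870912 536870912 0 67108864 1046898278 26843546 3 true false false .npp 1 0 2
    ndN2q1 ndN4q0 pcN2 Cut.none Ext.none :=
  certNX0 (fam := true) (s1 := false) (s2 := false) (a := 1) (b := 0) (c := 2) (cn := .npp) (n1 := ndN2q1) (n2 := ndN4q0) (pc := pcN2) (cut := Cut.none) (xt := Ext.none) (P1 := 536870912) (W1 := 536870912) (P2 := 0) (W2 := 67108864) (P3 := 1046898278) (W3 := 26843546) (N0 := 3)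
    rfl k0_mm_102

noncomputable def f_mm_202_a : ℕ → ℕ → ℕ → ℕ → Bool := onCell 0 420477299 0 67108864 1046898278 26843546
    (rowNX 3 0 true false false .pp 2 0 2 (qsf 0 420477299 0 67108864 2) ndN2q2a ndN4q0 pcN2 Cut.none Ext.none)

def k0_mm_202_a : ∃ t, chk3 f_mm_202_a t 2 2 1 = true :=
  ⟨(a (b (c (b (a (l 16339584) (l 16243152)) (a (c (l 16339584) (l 16257080)) (c (l 16299616) (l 16213208)))) (b (c (a (l 16235568) (l 16059592)) (b (a (l 16202472) (c (l 16258168) (l 16205264))) (a (l 16259192) (l 16317272)))) (a (c (l 16230176) (l 16208624)) (c (l 16344928) (l 16326336))))) (c (a (b (l 16225920) (l 16209168)) (b (l 16158376) (l 16304624))) (a (l 16160608) (l 16225480)))) (b (b (a (c (l 16139584) (b (c (l 16136232) (b (l 16094744) (l 16158592))) (c (l 16179344) (l 16204976)))) (c (a (l 15900624) (b (l 16011520) (a (l 16039976) (l 16014792)))) (b (a (c (l 16061144) (b (c (l 16057280) (l 15958680)) (l 16079096))) (c (l 16015904) (b (l 16018976) (c (l 16030216) (l 16041296)))))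 (c (a (l 16103424) (b (l 16013832) (l 16060256))) (a (l 16126160) (a (l 16083984) (l 15974504))))))) (c (a (c (l 16198056) (l 16171360)) (c (l 16000312) (b (l 16103688) (l 16177032)))) (a (c (l 16261344) (l 16270024)) (c (l 16117248) (l 16163416))))) (c (a (b (c (l 16324144) (l 16338160)) (l 16383272)) (b (c (l 16243248) (l 16251600)) (l 16328656))) (a (b (l 16339680) (l 16380208)) (c (l 16062800) (l 16180728)))))), by decide +kernel⟩

def k1_mm_202_a : ∃ t, chk3 f_mm_202_a t 6 2 1 = true :=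
  ⟨(b (a (b (c (a (l 15970392) (l 15916488)) (b (c (l 15947968) (c (l 15960896) (b (l 15963840) (l 15979720)))) (c (a (l 16001912) (l 15950240)) (a (l 16025072) (l 15977568))))) (b (c (a (a (c (l 16009760) (l 16038720)) (c (l 15983560) (l 16012176))) (l 15918968)) (a (c (a (l 16071024) (l 16044872)) (l 15953688)) (l 15819920))) (c (c (l 4) (a (l 16037856) (l 15858408))) (a (c (l 16105208) (l 16098952)) (c (l 16029144) (l 16042984)))))) (c (b (a (l 15689232) (b (l 15786672) (l 15799416))) (c (l 4) (b (l 15775976) (l 4)))) (b (c (b (l 15833688) (a (l 15890232) (l 15718704))) (b (c (b (l 15847624) (l 15855328)) (b (a (l 15889336) (l 15834032)) (l 15874192))) (c (l 15884176) (l 15891768)))) (c (a (l 15944816) (l 15756056)) (l 15811472))))) (a (c (b (a (l 16065816) (l 4)) (l 4)) (b (a (l 16163904) (b (a (l 16100176) (l 15967032)) (l 16127144))) (l 230551367767))) (c (l 4) (b (a (b (l 16028176) (a (l 15979816) (l 4))) (l 15989760)) (l 4))))), by decide +kernel⟩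

def k2_mm_202_a : ∃ t, chk3 f_mm_202_a t 7 2 1 = true :=
  ⟨(b (b (a (a (b (c (l 15712288) (c (l 15744040) (b (a (l 15693464) (l 15809688)) (c (l 15801016) (l 15845112))))) (c (a (l 15757816) (l 4)) (c (a (b (l 15764656) (l 15779256)) (b (l 15805144) (l 15804480))) (a (l 15813480) (l 15843952))))) (c (c (l 4) (l 15794576)) (c (b (l 15945312) (c (l 15914504) (l 15932648))) (b (c (l 15970640) (b (l 15938096) (l 15986768))) (c (l 15950056) (l 15961352)))))) (c (l 4) (a (c (b (a (l 16072624) (b (l 16177416) (l 16156104))) (b (a (l 16052392) (l 4)) (l 4))) (b (c (a (l 16076344) (b (l 16199008) (a (l 16155296) (l 16204176)))) (b (a (l 16068256) (c (l 16218496) (l 16190424))) (a (l 16115840) (l 16210568)))) (c (a (l 16079368) (l 16113880)) (l 16075848)))) (c (b (l 16224592) (l 4)) (b (c (b (l 16354592) (a (l 16282472) (l 16352656))) (b (b (l 16259800) (l 16227792)) (l 16283392))) (c (a (l 16198944) (l 16398104)) (a (l 16290776) (l 16404456)))))))) (c (l 4) (a (a (c (b (a (l 15830696)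 (l 15837312)) (l 4)) (a (l 15853344) (l 15855512))) (c (l 4) (b (l 15938056) (l 15936024)))) (a (c (l 4) (l 16097752)) (l 4))))) (l 4)), by decide +kernel⟩

def k3_mm_202_a : ∃ t, chk3 f_mm_202_a t 1 3 1 = true :=
  ⟨(a (a (b (c (a (l 16248240) (l 16249464)) (a (l 16195152) (l 16273960))) (c (a (c (l 4) (l 16274664)) (l 4)) (a (l 16210600) (l 16292712)))) (b (a (c (l 16400472) (l 16386824)) (c (l 4) (l 16233192))) (l 4))) (l 4)), by decide +kernel⟩

theorem s4_mm_202_a : ∃ t, chk3 f_mm_202_a t 3 2 1 = true := ex3_a k1_mm_202_a k2_mm_202_a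

theorem s5_mm_202_a : ∃ t, chk3 f_mm_202_a t 1 2 1 = true := ex3_a k0_mm_202_a s4_mm_202_a

theorem s6_mm_202_a : ∃ t, chk3 f_mm_202_a t 1 1 1 = true := ex3_b s5_mm_202_a k3_mm_202_a

theorem c_mm_202_a : CertNX 0 420477299 0 67108864 1046898278 26843546 3 true false false .pp 2 0 2
    ndN2q2a ndN4q0 pcN2 Cut.none Ext.none :=
  certNX0 (fam := true) (s1 := false) (s2 := false) (a := 2) (b := 0) (c := 2) (cn := .pp) (n1 := ndN2q2a) (n2 := ndN4q0) (pc := pcN2) (cut := Cut.none) (xt := Ext.none) (P1 := 0) (W1 := 420477299) (P2 := 0) (W2 := 67108864) (P3 := 1046898278) (W3 := 26843546) (N0 := 3)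
    rfl s6_mm_202_a

noncomputable def f_mm_202_b : ℕ → ℕ → ℕ → ℕ → Bool := onCell 1073741824 536870912 0 67108864 1046898278 26843546
    (rowNX 3 2 true false false .pp 2 0 2 (qsf 1239849684 370763052 0 67108864 2) ndN2q2b ndN4q0 pcN2 Cut.none Ext.none)

def k0_mm_202_b : ∃ t, chk3 f_mm_202_b t 2 1 1 = true :=
  ⟨(a (l 1) (a (b (a (b (b (b (a (l 1) (b (c (l 16231944) (l 374767884071)) (l 1))) (l 1)) (l 1)) (l 1)) (b (c (b (a (l 15977056) (l 15837976)) (a (c (l 16137440) (b (l 16258272) (l 16289088))) (c (l 15947312) (l 15853720)))) (b (a (c (b (l 16098720) (l 15986536)) (b (a (c (l 16181064) (l 16162016)) (l 15823760)) (l 15999000))) (c (l 15598136) (b (l 15529536) (l 15746344)))) (a (c (l 16050040) (l 16133896)) (c (l 15899328) (l 15866096))))) (c (a (b (c (l 16358768) (l 16331816)) (l 1)) (b (c (l 16055464) (l 16039112)) (l 16197360))) (a (l 16103368) (b (l 15973992) (l 16110984)))))) (a (l 1) (a (l 1) (b (c (l 16298928) (l 16310848)) (l 1))))) (b (a (b (c (b (l 15246784)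 (c (l 15459096) (l 15264248))) (b (c (b (l 15254512) (l 15319880)) (b (c (l 15202632) (l 15144864)) (l 15258872))) (c (l 15417808) (l 15387168)))) (c (c (b (l 15682664) (l 15809112)) (l 15508352)) (a (l 15763744) (l 15521176)))) (b (c (b (l 14927984) (c (l 15018680) (a (l 15145584) (l 14979264)))) (b (c (b (l 14821040) (l 14893672)) (b (c (l 14761336) (l 14719240)) (l 14800984))) (c (l 14977176) (l 14914624)))) (c (a (b (l 15298888) (l 15440280)) (b (l 15101280) (l 15216592))) (a (l 15275504) (l 15073824))))) (a (c (b (a (b (l 16093840) (l 16240528)) (l 15829992)) (a (b (l 16369080) (l 1)) (b (l 16171384) (l 4)))) (b (a (b (l 16049568) (l 16182320)) (l 15857280)) (a (l 16322232) (b (l 16089144) (l 16217216))))) (c (b (a (l 15583912) (l 15449592)) (l 4)) (b (a (l 15609912) (l 15374880)) (a (l 15881824) (l 15651976)))))))), by decide +kernel⟩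

def k1_mm_202_b : ∃ t, chk3 f_mm_202_b t 3 1 1 = true :=
  ⟨(a (a (b (b (c (a (b (l 14692448) (c (l 14859232) (l 14766384))) (b (l 14409248) (c (l 14561736) (l 14472448)))) (b (c (a (l 14584080) (l 14309288)) (a (l 14296848) (l 14235384))) (a (l 14645064) (l 14358944)))) (c (a (b (l 14862136) (l 14948112)) (l 14439112)) (a (l 14827816) (l 14522960)))) (a (b (c (l 15139616) (l 15064280)) (l 4)) (c (l 4) (l 14738976)))) (b (c (b (a (b (l 14172608) (l 4)) (l 4)) (l 4)) (b (a (b (c (l 14072136) (l 14000584)) (l 14031136)) (b (l 14007072) (l 4))) (a (l 14272608) (l 4)))) (l 4))) (l 4)), by decide +kernel⟩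

theorem s2_mm_202_b : ∃ t, chk3 f_mm_202_b t 1 1 1 = true := ex3_a k0_mm_202_b k1_mm_202_b

theorem c_mm_202_b : CertNX 1239849684 370763052 0 67108864 1046898278 26843546 3 true false false .pp 2 0 2
    ndN2q2b ndN4q0 pcN2 Cut.none Ext.none :=
  certNX2 (fam := true) (s1 := false) (s2 := false) (a := 2) (b := 0) (c := 2) (cn := .pp) (n1 := ndN2q2b) (n2 := ndN4q0) (pc := pcN2) (cut := Cut.none) (xt := Ext.none) (P1 := 1239849684) (W1 := 370763052) (P2 := 0) (W2 := 67108864) (P3 := 1046898278) (W3 := 26843546) (N0 := 3)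
    rfl (fun _ => rfl) s2_mm_202_b

noncomputable def f_mm_203_a : ℕ → ℕ → ℕ → ℕ → Bool := onCell 0 420477299 0 67108864 1046898278 26843546
    (rowNX 3 0 true false false .up 2 0 3 (qsf 0 420477299 0 67108864 3) ndN2q2a ndN4q0 pcN3 Cut.none Ext.none)

def k0_mm_203_a : ∃ t, chk3 f_mm_203_a t 1 1 1 = true :=
  ⟨(l 1), by decide +kernel⟩

theorem c_mm_203_a : CertNX 0 420477299 0 67108864 1046898278 26843546 3 true false false .up 2 0 3
    ndN2q2a ndN4q0 pcN3 Cut.none Ext.none :=
  certNX0 (fam := true) (s1 := false) (s2 := false) (a := 2) (b := 0) (c := 3) (cn := .up) (n1 := ndN2q2a) (n2 := ndN4q0) (pc := pcN3) (cut := Cut.none) (xt := Ext.none) (P1 := 0) (W1 := 420477299) (P2 := 0) (W2 := 67108864) (P3 := 1046898278) (W3 := 26843546) (N0 := 3)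
    rfl k0_mm_203_a

noncomputable def f_mm_203_b : ℕ → ℕ → ℕ → ℕ → Bool := onCell 1610612736 536870912 0 67108864 1046898278 26843546
    (rowNX 3 2 true false false .up 2 0 3 (qsf 1239849684 370763052 0 67108864 3) ndN2q2b ndN4q0 pcN3 Cut.none Ext.none)

def k0_mm_203_b : ∃ t, chk3 f_mm_203_b t 1 1 1 = true :=
  ⟨(l 4), by decide +kernel⟩

theorem c_mm_203_b : CertNX 1239849684 370763052 0 67108864 1046898278 26843546 3 true false false .up 2 0 3
    ndN2q2b ndN4q0 pcN3 Cut.none Ext.none :=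
  certNX2 (fam := true) (s1 := false) (s2 := false) (a := 2) (b := 0) (c := 3) (cn := .up) (n1 := ndN2q2b) (n2 := ndN4q0) (pc := pcN3) (cut := Cut.none) (xt := Ext.none) (P1 := 1239849684) (W1 := 370763052) (P2 := 0) (W2 := 67108864) (P3 := 1046898278) (W3 := 26843546) (N0 := 3)
    rfl (fun _ => rfl) k0_mm_203_b

noncomputable def f_mm_303 : ℕ → ℕ → ℕ → ℕ → Bool := onCell 1610612736 469762048 0 67108864 1046898278 26843546
    (rowNX 3 0 true false false .npn 3 0 3 (qsf 1610612736 469762048 0 67108864 3) ndN2q3 ndN4q0 pcN3 Cut.none Ext.none)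

def k0_mm_303 : ∃ t, chk3 f_mm_303 t 1 1 1 = true :=
  ⟨(l 4), by decide +kernel⟩

theorem c_mm_303 : CertNX 1610612736 469762048 0 67108864 1046898278 26843546 3 true false false .npn 3 0 3
    ndN2q3 ndN4q0 pcN3 Cut.none Ext.none :=
  certNX0 (fam := true) (s1 := false) (s2 := false) (a := 3) (b := 0) (c := 3) (cn := .npn) (n1 := ndN2q3) (n2 := ndN4q0) (pc := pcN3) (cut := Cut.none) (xt := Ext.none) (P1 := 1610612736) (W1 := 469762048) (P2 := 0) (W2 := 67108864) (P3 := 1046898278) (W3 := 26843546) (N0 := 3)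
    rfl k0_mm_303

end Pool.Agent.Strip051.G.IE1.Tab.C.NA24

namespace Pool.Agent.Strip051.G.IE1.Tab.C.NA25

open Pool.Agent.Strip051.PB Pool.Agent.Strip051.PB.T
open Pool.Agent.Strip051.G.IE1.Tab

noncomputable def f_pp_001 : ℕ → ℕ → ℕ → ℕ → Bool := onCell 67108864 469762048 0 536870912 1046898278 26843546
    (rowNX 3 0 true true true .up 0 0 1 (qsf 67108864 469762048 0 536870912 1) ndN2q0 ndN5q0 pcN1 Cut.none Ext.none)

def k0_pp_001 : ∃ t, chk3 f_pp_001 t 1 1 1 = true :=
  ⟨(l 4), by decide +kernel⟩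

theorem c_pp_001 : CertNX 67108864 469762048 0 536870912 1046898278 26843546 3 true true true .up 0 0 1
    ndN2q0 ndN5q0 pcN1 Cut.none Ext.none :=
  certNX0 (fam := true) (s1 := true) (s2 := true) (a := 0) (b := 0) (c := 1) (cn := .up) (n1 := ndN2q0) (n2 := ndN5q0) (pc := pcN1) (cut := Cut.none) (xt := Ext.none) (P1 := 67108864) (W1 := 469762048) (P2 := 0) (W2 := 536870912) (P3 := 1046898278) (W3 := 26843546) (N0 := 3)
    rfl k0_pp_001

noncomputable def f_pp_011 : ℕ → ℕ → ℕ → ℕ → Bool := onCell 67108864 469762048 536870912 469762048 1046898278 26843546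
    (rowNX 3 0 true true true .pnn 0 1 1 (qsf 67108864 469762048 536870912 469762048 1) ndN2q0 ndN5q1 pcN1 Cut.none Ext.none)

def k0_pp_011 : ∃ t, chk3 f_pp_011 t 1 1 1 = true :=
  ⟨(l 4), by decide +kernel⟩

theorem c_pp_011 : CertNX 67108864 469762048 536870912 469762048 1046898278 26843546 3 true true true .pnn 0 1 1
    ndN2q0 ndN5q1 pcN1 Cut.none Ext.none :=
  certNX0 (fam := true) (s1 := true) (s2 := true) (a := 0) (b := 1) (c := 1) (cn := .pnn) (n1 := ndN2q0) (n2 := ndN5q1) (pc := pcN1) (cut := Cut.none) (xt := Ext.none) (P1 := 67108864) (W1 := 469762048) (P2 := 536870912) (W2 := 469762048) (P3 := 1046898278) (W3 := 26843546) (N0 := 3)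
    rfl k0_pp_011

noncomputable def f_pp_012 : ℕ → ℕ → ℕ → ℕ → Bool := onCell 67108864 469762048 536870912 469762048 1046898278 26843546
    (rowNX 3 0 true true true .pnp 0 1 2 (qsf 67108864 469762048 536870912 469762048 2) ndN2q0 ndN5q1 pcN2 Cut.none Ext.none)

def k0_pp_012 : ∃ t, chk3 f_pp_012 t 1 1 1 = true :=
  ⟨(l 4), by decide +kernel⟩

theorem c_pp_012 : CertNX 67108864 469762048 536870912 469762048 1046898278 26843546 3 true true true .pnp 0 1 2
    ndN2q0 ndN5q1 pcN2 Cut.none Ext.none :=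
  certNX0 (fam := true) (s1 := true) (s2 := true) (a := 0) (b := 1) (c := 2) (cn := .pnp) (n1 := ndN2q0) (n2 := ndN5q1) (pc := pcN2) (cut := Cut.none) (xt := Ext.none) (P1 := 67108864) (W1 := 469762048) (P2 := 536870912) (W2 := 469762048) (P3 := 1046898278) (W3 := 26843546) (N0 := 3)
    rfl k0_pp_012

noncomputable def f_pp_022 : ℕ → ℕ → ℕ → ℕ → Bool := onCell 67108864 469762048 1073741824 536870912 1046898278 26843546
    (rowNX 3 0 true true true .pp 0 2 2 (qsf 67108864 469762048 1073741824 536870912 2) ndN2q0 ndN5q2 pcN2 Cut.none Ext.none)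

def k0_pp_022 : ∃ t, chk3 f_pp_022 t 1 1 1 = true :=
  ⟨(l 4), by decide +kernel⟩

theorem c_pp_022 : CertNX 67108864 469762048 1073741824 536870912 1046898278 26843546 3 true true true .pp 0 2 2
    ndN2q0 ndN5q2 pcN2 Cut.none Ext.none :=
  certNX0 (fam := true) (s1 := true) (s2 := true) (a := 0) (b := 2) (c := 2) (cn := .pp) (n1 := ndN2q0) (n2 := ndN5q2) (pc := pcN2) (cut := Cut.none) (xt := Ext.none) (P1 := 67108864) (W1 := 469762048) (P2 := 1073741824) (W2 := 536870912) (P3 := 1046898278) (W3 := 26843546) (N0 := 3)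
    rfl k0_pp_022

noncomputable def f_pp_023 : ℕ → ℕ → ℕ → ℕ → Bool := onCell 67108864 469762048 1073741824 536870912 1046898278 26843546
    (rowNX 3 0 true true true .up 0 2 3 (qsf 67108864 469762048 1073741824 536870912 3) ndN2q0 ndN5q2 pcN3 Cut.none Ext.none)

def k0_pp_023 : ∃ t, chk3 f_pp_023 t 1 1 1 = true :=
  ⟨(l 4), by decide +kernel⟩

theorem c_pp_023 : CertNX 67108864 469762048 1073741824 536870912 1046898278 26843546 3 true true true .up 0 2 3
    ndN2q0 ndN5q2 pcN3 Cut.none Ext.none :=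
  certNX0 (fam := true) (s1 := true) (s2 := true) (a := 0) (b := 2) (c := 3) (cn := .up) (n1 := ndN2q0) (n2 := ndN5q2) (pc := pcN3) (cut := Cut.none) (xt := Ext.none) (P1 := 67108864) (W1 := 469762048) (P2 := 1073741824) (W2 := 536870912) (P3 := 1046898278) (W3 := 26843546) (N0 := 3)
    rfl k0_pp_023

noncomputable def f_pp_033 : ℕ → ℕ → ℕ → ℕ → Bool := onCell 67108864 469762048 0 1230186008 1046898278 26843546
    (rowNX 3 0 true true true .pnn 0 3 3 (qsf 67108864 469762048 0 1230186008 3) ndN2q0 ndN5q3 pcN3 Cut.none Ext.none)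

def k0_pp_033 : ∃ t, chk3 f_pp_033 t 1 1 1 = true :=
  ⟨(b (l 4) (l 4)), by decide +kernel⟩

theorem c_pp_033 : CertNX 67108864 469762048 0 1230186008 1046898278 26843546 3 true true true .pnn 0 3 3
    ndN2q0 ndN5q3 pcN3 Cut.none Ext.none :=
  certNX0 (fam := true) (s1 := true) (s2 := true) (a := 0) (b := 3) (c := 3) (cn := .pnn) (n1 := ndN2q0) (n2 := ndN5q3) (pc := pcN3) (cut := Cut.none) (xt := Ext.none) (P1 := 67108864) (W1 := 469762048) (P2 := 0) (W2 := 1230186008) (P3 := 1046898278) (W3 := 26843546) (N0 := 3)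
    rfl k0_pp_033

noncomputable def f_pp_101 : ℕ → ℕ → ℕ → ℕ → Bool := onCell 536870912 536870912 0 536870912 1046898278 26843546
    (rowNX 3 0 true true true .npn 1 0 1 (qsf 536870912 536870912 0 536870912 1) ndN2q1 ndN5q0 pcN1 Cut.none Ext.none)

def k0_pp_101 : ∃ t, chk3 f_pp_101 t 1 1 1 = true :=
  ⟨(l 4), by decide +kernel⟩

theorem c_pp_101 : CertNX 536870912 536870912 0 536870912 1046898278 26843546 3 true true true .npn 1 0 1
    ndN2q1 ndN5q0 pcN1 Cut.none Ext.none :=
  certNX0 (fam := true) (s1 := true) (s2 := true) (a := 1) (b := 0) (c := 1) (cn := .npn) (n1 := ndN2q1) (n2 := ndN5q0) (pc := pcN1) (cut := Cut.none) (xt := Ext.none) (P1 := 536870912) (W1 := 536870912) (P2 := 0) (W2 := 536870912) (P3 := 1046898278) (W3 := 26843546) (N0 := 3)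
    rfl k0_pp_101

noncomputable def f_pp_102 : ℕ → ℕ → ℕ → ℕ → Bool := onCell 536870912 536870912 0 536870912 1046898278 26843546
    (rowNX 3 0 true true true .npp 1 0 2 (qsf 536870912 536870912 0 536870912 2) ndN2q1 ndN5q0 pcN2 Cut.none Ext.none)

def k0_pp_102 : ∃ t, chk3 f_pp_102 t 1 1 1 = true :=
  ⟨(l 4), by decide +kernel⟩

theorem c_pp_102 : CertNX 536870912 536870912 0 536870912 1046898278 26843546 3 true true true .npp 1 0 2
    ndN2q1 ndN5q0 pcN2 Cut.none Ext.none :=
  certNX0 (fam := true) (s1 := true) (s2 := true) (a := 1) (b := 0) (c := 2) (cn := .npp) (n1 := ndN2q1) (n2 := ndN5q0) (pc := pcN2) (cut := Cut.none) (xt := Ext.none) (P1 := 536870912) (W1 := 536870912) (P2 := 0) (W2 := 536870912) (P3 := 1046898278) (W3 := 26843546) (N0 := 3)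
    rfl k0_pp_102

noncomputable def f_pp_112 : ℕ → ℕ → ℕ → ℕ → Bool := onCell 536870912 536870912 536870912 469762048 1046898278 26843546
    (rowNX 3 0 true true true .dn 1 1 2 (qsf 536870912 536870912 536870912 469762048 2) ndN2q1 ndN5q1 pcN2 Cut.none Ext.none)

def k0_pp_112 : ∃ t, chk3 f_pp_112 t 1 1 1 = true :=
  ⟨(l 4), by decide +kernel⟩

theorem c_pp_112 : CertNX 536870912 536870912 536870912 469762048 1046898278 26843546 3 true true true .dn 1 1 2
    ndN2q1 ndN5q1 pcN2 Cut.none Ext.none :=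
  certNX0 (fam := true) (s1 := true) (s2 := true) (a := 1) (b := 1) (c := 2) (cn := .dn) (n1 := ndN2q1) (n2 := ndN5q1) (pc := pcN2) (cut := Cut.none) (xt := Ext.none) (P1 := 536870912) (W1 := 536870912) (P2 := 536870912) (W2 := 469762048) (P3 := 1046898278) (W3 := 26843546) (N0 := 3)
    rfl k0_pp_112

noncomputable def f_pp_113 : ℕ → ℕ → ℕ → ℕ → Bool := onCell 536870912 536870912 536870912 469762048 1046898278 26843546
    (rowNX 3 0 true true true .nn 1 1 3 (qsf 536870912 536870912 536870912 469762048 3) ndN2q1 ndN5q1 pcN3 Cut.none Ext.none)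

def k0_pp_113 : ∃ t, chk3 f_pp_113 t 1 1 1 = true :=
  ⟨(l 4), by decide +kernel⟩

theorem c_pp_113 : CertNX 536870912 536870912 536870912 469762048 1046898278 26843546 3 true true true .nn 1 1 3
    ndN2q1 ndN5q1 pcN3 Cut.none Ext.none :=
  certNX0 (fam := true) (s1 := true) (s2 := true) (a := 1) (b := 1) (c := 3) (cn := .nn) (n1 := ndN2q1) (n2 := ndN5q1) (pc := pcN3) (cut := Cut.none) (xt := Ext.none) (P1 := 536870912) (W1 := 536870912) (P2 := 536870912) (W2 := 469762048) (P3 := 1046898278) (W3 := 26843546) (N0 := 3)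
    rfl k0_pp_113

noncomputable def f_pp_123 : ℕ → ℕ → ℕ → ℕ → Bool := onCell 536870912 536870912 1073741824 536870912 1046898278 26843546
    (rowNX 3 0 true true true .npn 1 2 3 (qsf 536870912 536870912 1073741824 536870912 3) ndN2q1 ndN5q2 pcN3 Cut.none Ext.none)

def k0_pp_123 : ∃ t, chk3 f_pp_123 t 1 1 1 = true :=
  ⟨(l 4), by decide +kernel⟩

theorem c_pp_123 : CertNX 536870912 536870912 1073741824 536870912 1046898278 26843546 3 true true true .npn 1 2 3
    ndN2q1 ndN5q2 pcN3 Cut.none Ext.none :=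
  certNX0 (fam := true) (s1 := true) (s2 := true) (a := 1) (b := 2) (c := 3) (cn := .npn) (n1 := ndN2q1) (n2 := ndN5q2) (pc := pcN3) (cut := Cut.none) (xt := Ext.none) (P1 := 536870912) (W1 := 536870912) (P2 := 1073741824) (W2 := 536870912) (P3 := 1046898278) (W3 := 26843546) (N0 := 3)
    rfl k0_pp_123

noncomputable def f_pp_133 : ℕ → ℕ → ℕ → ℕ → Bool := onCell 536870912 536870912 0 1230186008 1046898278 26843546
    (rowNX 3 0 true true true .dn 1 3 3 (qsf 536870912 536870912 0 1230186008 3) ndN2q1 ndN5q3 pcN3 Cut.none Ext.none)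

def k0_pp_133 : ∃ t, chk3 f_pp_133 t 1 1 1 = true :=
  ⟨(l 4), by decide +kernel⟩

theorem c_pp_133 : CertNX 536870912 536870912 0 1230186008 1046898278 26843546 3 true true true .dn 1 3 3
    ndN2q1 ndN5q3 pcN3 Cut.none Ext.none :=
  certNX0 (fam := true) (s1 := true) (s2 := true) (a := 1) (b := 3) (c := 3) (cn := .dn) (n1 := ndN2q1) (n2 := ndN5q3) (pc := pcN3) (cut := Cut.none) (xt := Ext.none) (P1 := 536870912) (W1 := 536870912) (P2 := 0) (W2 := 1230186008) (P3 := 1046898278) (W3 := 26843546) (N0 := 3)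
    rfl k0_pp_133

noncomputable def f_pp_202_a : ℕ → ℕ → ℕ → ℕ → Bool := onCell 0 420477299 0 536870912 1046898278 26843546
    (rowNX 3 0 true true true .pp 2 0 2 (qsf 0 420477299 0 536870912 2) ndN2q2a ndN5q0 pcN2 Cut.none Ext.none)

def k0_pp_202_a : ∃ t, chk3 f_pp_202_a t 1 1 1 = true :=
  ⟨(l 5), by decide +kernel⟩

theorem c_pp_202_a : CertNX 0 420477299 0 536870912 1046898278 26843546 3 true true true .pp 2 0 2
    ndN2q2a ndN5q0 pcN2 Cut.none Ext.none :=
  certNX0 (fam := true) (s1 := true) (s2 := true) (a := 2) (b := 0) (c := 2) (cn := .pp) (n1 := ndN2q2a) (n2 := ndN5q0) (pc := pcN2) (cut := Cut.none) (xt := Ext.none) (P1 := 0) (W1 := 420477299) (P2 := 0) (W2 := 536870912) (P3 := 1046898278) (W3 := 26843546) (N0 := 3)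
    rfl k0_pp_202_a

noncomputable def f_pp_202_b : ℕ → ℕ → ℕ → ℕ → Bool := onCell 1239849684 370763052 0 536870912 1046898278 26843546
    (rowNX 3 0 true true true .pp 2 0 2 (qsf 1239849684 370763052 0 536870912 2) ndN2q2b ndN5q0 pcN2 Cut.none Ext.none)

def k0_pp_202_b : ∃ t, chk3 f_pp_202_b t 1 1 1 = true :=
  ⟨(l 5), by decide +kernel⟩

theorem c_pp_202_b : CertNX 1239849684 370763052 0 536870912 1046898278 26843546 3 true true true .pp 2 0 2
    ndN2q2b ndN5q0 pcN2 Cut.none Ext.none :=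
  certNX0 (fam := true) (s1 := true) (s2 := true) (a := 2) (b := 0) (c := 2) (cn := .pp) (n1 := ndN2q2b) (n2 := ndN5q0) (pc := pcN2) (cut := Cut.none) (xt := Ext.none) (P1 := 1239849684) (W1 := 370763052) (P2 := 0) (W2 := 536870912) (P3 := 1046898278) (W3 := 26843546) (N0 := 3)
    rfl k0_pp_202_b

noncomputable def f_pp_203_a : ℕ → ℕ → ℕ → ℕ → Bool := onCell 0 420477299 0 536870912 1046898278 26843546
    (rowNX 3 0 true true true .up 2 0 3 (qsf 0 420477299 0 536870912 3) ndN2q2a ndN5q0 pcN3 Cut.none Ext.none)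

def k0_pp_203_a : ∃ t, chk3 f_pp_203_a t 1 1 1 = true :=
  ⟨(l 5), by decide +kernel⟩

theorem c_pp_203_a : CertNX 0 420477299 0 536870912 1046898278 26843546 3 true true true .up 2 0 3
    ndN2q2a ndN5q0 pcN3 Cut.none Ext.none :=
  certNX0 (fam := true) (s1 := true) (s2 := true) (a := 2) (b := 0) (c := 3) (cn := .up) (n1 := ndN2q2a) (n2 := ndN5q0) (pc := pcN3) (cut := Cut.none) (xt := Ext.none) (P1 := 0) (W1 := 420477299) (P2 := 0) (W2 := 536870912) (P3 := 1046898278) (W3 := 26843546) (N0 := 3)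
    rfl k0_pp_203_a

noncomputable def f_pp_203_b : ℕ → ℕ → ℕ → ℕ → Bool := onCell 1239849684 370763052 0 536870912 1046898278 26843546
    (rowNX 3 0 true true true .up 2 0 3 (qsf 1239849684 370763052 0 536870912 3) ndN2q2b ndN5q0 pcN3 Cut.none Ext.none)

def k0_pp_203_b : ∃ t, chk3 f_pp_203_b t 1 1 1 = true :=
  ⟨(l 5), by decide +kernel⟩

theorem c_pp_203_b : CertNX 1239849684 370763052 0 536870912 1046898278 26843546 3 true true true .up 2 0 3
    ndN2q2b ndN5q0 pcN3 Cut.none Ext.none :=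
  certNX0 (fam := true) (s1 := true) (s2 := true) (a := 2) (b := 0) (c := 3) (cn := .up) (n1 := ndN2q2b) (n2 := ndN5q0) (pc := pcN3) (cut := Cut.none) (xt := Ext.none) (P1 := 1239849684) (W1 := 370763052) (P2 := 0) (W2 := 536870912) (P3 := 1046898278) (W3 := 26843546) (N0 := 3)
    rfl k0_pp_203_b

noncomputable def f_pp_213_a : ℕ → ℕ → ℕ → ℕ → Bool := onCell 0 420477299 536870912 469762048 1046898278 26843546
    (rowNX 3 0 true true true .pnn 2 1 3 (qsf 0 420477299 536870912 469762048 3) ndN2q2a ndN5q1 pcN3 Cut.none Ext.none)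

def k0_pp_213_a : ∃ t, chk3 f_pp_213_a t 1 1 1 = true :=
  ⟨(l 4), by decide +kernel⟩

theorem c_pp_213_a : CertNX 0 420477299 536870912 469762048 1046898278 26843546 3 true true true .pnn 2 1 3
    ndN2q2a ndN5q1 pcN3 Cut.none Ext.none :=
  certNX0 (fam := true) (s1 := true) (s2 := true) (a := 2) (b := 1) (c := 3) (cn := .pnn) (n1 := ndN2q2a) (n2 := ndN5q1) (pc := pcN3) (cut := Cut.none) (xt := Ext.none) (P1 := 0) (W1 := 420477299) (P2 := 536870912) (W2 := 469762048) (P3 := 1046898278) (W3 := 26843546) (N0 := 3)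
    rfl k0_pp_213_a

noncomputable def f_pp_213_b : ℕ → ℕ → ℕ → ℕ → Bool := onCell 1239849684 370763052 536870912 469762048 1046898278 26843546
    (rowNX 3 0 true true true .pnn 2 1 3 (qsf 1239849684 370763052 536870912 469762048 3) ndN2q2b ndN5q1 pcN3 Cut.none Ext.none)

def k0_pp_213_b : ∃ t, chk3 f_pp_213_b t 1 1 1 = true :=
  ⟨(l 4), by decide +kernel⟩

theorem c_pp_213_b : CertNX 1239849684 370763052 536870912 469762048 1046898278 26843546 3 true true true .pnn 2 1 3
    ndN2q2b ndN5q1 pcN3 Cut.none Ext.none :=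
  certNX0 (fam := true) (s1 := true) (s2 := true) (a := 2) (b := 1) (c := 3) (cn := .pnn) (n1 := ndN2q2b) (n2 := ndN5q1) (pc := pcN3) (cut := Cut.none) (xt := Ext.none) (P1 := 1239849684) (W1 := 370763052) (P2 := 536870912) (W2 := 469762048) (P3 := 1046898278) (W3 := 26843546) (N0 := 3)
    rfl k0_pp_213_b

noncomputable def f_pp_303 : ℕ → ℕ → ℕ → ℕ → Bool := onCell 1610612736 469762048 0 536870912 1046898278 26843546
    (rowNX 3 0 true true true .npn 3 0 3 (qsf 1610612736 469762048 0 536870912 3) ndN2q3 ndN5q0 pcN3 Cut.none Ext.none)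

def k0_pp_303 : ∃ t, chk3 f_pp_303 t 1 1 1 = true :=
  ⟨(l 4), by decide +kernel⟩

theorem c_pp_303 : CertNX 1610612736 469762048 0 536870912 1046898278 26843546 3 true true true .npn 3 0 3
    ndN2q3 ndN5q0 pcN3 Cut.none Ext.none :=
  certNX0 (fam := true) (s1 := true) (s2 := true) (a := 3) (b := 0) (c := 3) (cn := .npn) (n1 := ndN2q3) (n2 := ndN5q0) (pc := pcN3) (cut := Cut.none) (xt := Ext.none) (P1 := 1610612736) (W1 := 469762048) (P2 := 0) (W2 := 536870912) (P3 := 1046898278) (W3 := 26843546) (N0 := 3)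
    rfl k0_pp_303

noncomputable def f_pp_313 : ℕ → ℕ → ℕ → ℕ → Bool := onCell 1610612736 469762048 536870912 469762048 1046898278 26843546
    (rowNX 3 0 true true true .dn 3 1 3 (qsf 1610612736 469762048 536870912 469762048 3) ndN2q3 ndN5q1 pcN3 Cut.none Ext.none)

def k0_pp_313 : ∃ t, chk3 f_pp_313 t 1 1 1 = true :=
  ⟨(l 4), by decide +kernel⟩

theorem c_pp_313 : CertNX 1610612736 469762048 536870912 469762048 1046898278 26843546 3 true true true .dn 3 1 3
    ndN2q3 ndN5q1 pcN3 Cut.none Ext.none :=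
  certNX0 (fam := true) (s1 := true) (s2 := true) (a := 3) (b := 1) (c := 3) (cn := .dn) (n1 := ndN2q3) (n2 := ndN5q1) (pc := pcN3) (cut := Cut.none) (xt := Ext.none) (P1 := 1610612736) (W1 := 469762048) (P2 := 536870912) (W2 := 469762048) (P3 := 1046898278) (W3 := 26843546) (N0 := 3)
    rfl k0_pp_313

noncomputable def f_pm_001 : ℕ → ℕ → ℕ → ℕ → Bool := onCell 67108864 469762048 0 536870912 1046898278 26843546
    (rowNX 3 0 true true false .up 0 0 1 (qsf 67108864 469762048 0 536870912 1) ndN2q0 ndN5q0 pcN1 Cut.none Ext.none)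

def k0_pm_001 : ∃ t, chk3 f_pm_001 t 1 1 1 = true :=
  ⟨(l 3), by decide +kernel⟩

theorem c_pm_001 : CertNX 67108864 469762048 0 536870912 1046898278 26843546 3 true true false .up 0 0 1
    ndN2q0 ndN5q0 pcN1 Cut.none Ext.none :=
  certNX0 (fam := true) (s1 := true) (s2 := false) (a := 0) (b := 0) (c := 1) (cn := .up) (n1 := ndN2q0) (n2 := ndN5q0) (pc := pcN1) (cut := Cut.none) (xt := Ext.none) (P1 := 67108864) (W1 := 469762048) (P2 := 0) (W2 := 536870912) (P3 := 1046898278) (W3 := 26843546) (N0 := 3)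
    rfl k0_pm_001

noncomputable def f_pm_011 : ℕ → ℕ → ℕ → ℕ → Bool := onCell 67108864 469762048 536870912 536870912 1046898278 26843546
    (rowNX 3 1 true true false .pnn 0 1 1 (qsf 67108864 469762048 536870912 469762048 1) ndN2q0 ndN5q1 pcN1 Cut.none Ext.none)

def k0_pm_011 : ∃ t, chk3 f_pm_011 t 1 1 1 = true :=
  ⟨(a (b (l 3) (l 3)) (l 3)), by decide +kernel⟩

theorem c_pm_011 : CertNX 67108864 469762048 536870912 469762048 1046898278 26843546 3 true true false .pnn 0 1 1
    ndN2q0 ndN5q1 pcN1 Cut.none Ext.none :=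
  certNX1 (fam := true) (s1 := true) (s2 := false) (a := 0) (b := 1) (c := 1) (cn := .pnn) (n1 := ndN2q0) (n2 := ndN5q1) (pc := pcN1) (cut := Cut.none) (xt := Ext.none) (P1 := 67108864) (W1 := 469762048) (P2 := 536870912) (W2 := 469762048) (P3 := 1046898278) (W3 := 26843546) (N0 := 3)
    rfl (fun _ => rfl) k0_pm_011

noncomputable def f_pm_012 : ℕ → ℕ → ℕ → ℕ → Bool := onCell 1073741824 536870912 536870912 469762048 1046898278 26843546
    (rowNX 3 2 true true false .pnp 0 1 2 (qsf 67108864 469762048 536870912 469762048 2) ndN2q0 ndN5q1 pcN2 Cut.none Ext.none)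

def k0_pm_012 : ∃ t, chk3 f_pm_012 t 8 1 1 = true :=
  ⟨(b (l 3) (b (l 3) (a (l 3) (b (l 3) (b (a (l 3) (a (l 3) (b (a (l 3) (l 14003120)) (b (c (l 13791592) (l 13687720)) (c (l 13853440) (l 13750272)))))) (a (a (l 3) (a (l 3) (b (l 3) (c (l 14639248) (l 14557672))))) (a (c (c (b (l 14244848) (b (l 14443184) (l 14601008))) (a (l 14396616) (l 14200104))) (a (l 14329008) (l 14234848))) (c (b (l 14060712) (c (l 14404728) (l 14361712))) (b (l 13962344) (l 14291632)))))))))), by decide +kernel⟩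

def k1_pm_012 : ∃ t, chk3 f_pm_012 t 9 1 1 = true :=
  ⟨(b (a (l 3) (a (c (l 552608144039) (l 630454428599)) (c (b (l 16774792) (l 16757640)) (b (l 16774712) (l 16756960))))) (b (a (a (l 3) (b (c (l 16619288) (l 16613720)) (b (a (l 655149613287) (l 16518568)) (a (l 15989288) (l 15931128))))) (a (b (a (l 16764288) (l 16770824)) (b (a (l 16354016) (l 16361072)) (c (l 15631504) (l 15663016)))) (b (a (l 16760800) (l 16721280)) (b (l 16545088) (l 15823888))))) (a (b (a (a (b (l 3) (b (l 14777144) (l 14370880))) (b (b (l 15492912) (l 15105944)) (c (l 14562040) (l 14485184)))) (a (b (l 14983896) (c (l 14496064) (l 14416640))) (b (c (l 15201144) (l 15146184)) (c (l 14237784) (l 14344376))))) (a (b (c (b (l 13793584) (a (l 13764952) (l 13700264))) (b (l 13885168) (a (l 13659280) (l 13592152)))) (c (a (b (c (l 13992832) (l 13942872)) (c (l 14281624) (l 14236088))) (b (l 13868888) (l 14118880))) (a (b (l 13865976) (l 14162584)) (l 13809608)))) (b (b (c (l 13729592) (l 13731600)) (a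 (c (l 13622352) (l 13511264)) (l 13486192))) (c (b (l 13741432) (c (l 13963024) (l 13911544))) (l 13731216))))) (b (a (b (a (a (c (l 15154128) (l 15097288)) (l 15093512)) (l 15076104)) (a (l 14311704) (l 14269704))) (b (l 15030816) (l 14213600))) (b (a (b (a (l 13677688) (l 13636136)) (a (c (l 13458816) (l 13341368)) (l 13354384))) (b (l 13577232) (c (l 13359024) (l 13237544)))) (a (c (a (l 13689888) (l 13636416)) (l 13547552)) (c (l 13573224) (l 13453200)))))))), by decide +kernel⟩

def k2_pm_012 : ∃ t, chk3 f_pm_012 t 5 1 1 = true :=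
  ⟨(b (b (l 2) (a (a (a (a (l 16725848) (l 16647824)) (a (l 16555488) (a (l 16484896) (a (l 16467664) (l 16468080))))) (l 16548328)) (l 16739800))) (b (a (a (a (b (l 16617824) (b (l 16477264) (l 15745992))) (b (a (l 16490808) (a (l 16427024) (a (l 16434464) (l 16470872)))) (b (a (l 16413976) (a (l 16386800) (a (l 16407760) (l 16445600)))) (a (l 15676672) (a (l 15659336) (l 15722776)))))) (b (l 16563040) (b (l 16490280) (l 15787656)))) (b (l 16741440) (b (l 16562888) (l 15856872)))) (a (b (a (a (b (l 14941528) (l 14112792)) (a (b (l 14871008) (l 14054496)) (a (b (l 14874528) (l 14093320)) (b (l 14957952) (l 14178744))))) (b (l 15019416) (l 14234392))) (a (a (b (b (l 13470056) (a (l 13222200) (l 13171576))) (a (c (l 13505224) (l 13382400)) (b (l 13330920) (l 13521664)))) (a (b (b (l 13432496) (l 13187848)) (c (l 13534784) (l 13412944))) (b (a (l 13373384) (b (l 13578816) (l 13336264))) (a (c (l 13601600) (l 13482400)) (c (l 13683664) (l 13567784)))))) (b (l 13484440) (l 13661640))))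 (b (b (l 15082600) (l 14288008)) (b (b (l 13672376) (l 13417184)) (a (l 13676568) (l 13693816))))))), by decide +kernel⟩

def k3_pm_012 : ∃ t, chk3 f_pm_012 t 3 1 1 = true :=
  ⟨(b (l 2) (b (b (l 16777216) (a (l 16104192) (l 2))) (b (b (a (l 15096576) (l 2)) (a (l 14301168) (l 14301168))) (b (a (l 13515376) (l 13557320)) (a (l 13693848) (l 13693848)))))), by decide +kernel⟩

theorem s4_pm_012 : ∃ t, chk3 f_pm_012 t 4 1 1 = true := ex3_a k0_pm_012 k1_pm_012

theorem s5_pm_012 : ∃ t, chk3 f_pm_012 t 2 1 1 = true := ex3_a s4_pm_012 k2_pm_012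

theorem s6_pm_012 : ∃ t, chk3 f_pm_012 t 1 1 1 = true := ex3_a s5_pm_012 k3_pm_012

theorem c_pm_012 : CertNX 67108864 469762048 536870912 469762048 1046898278 26843546 3 true true false .pnp 0 1 2
    ndN2q0 ndN5q1 pcN2 Cut.none Ext.none :=
  certNX2 (fam := true) (s1 := true) (s2 := false) (a := 0) (b := 1) (c := 2) (cn := .pnp) (n1 := ndN2q0) (n2 := ndN5q1) (pc := pcN2) (cut := Cut.none) (xt := Ext.none) (P1 := 67108864) (W1 := 469762048) (P2 := 536870912) (W2 := 469762048) (P3 := 1046898278) (W3 := 26843546) (N0 := 3)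
    rfl (fun _ => rfl) s6_pm_012

noncomputable def f_pm_022 : ℕ → ℕ → ℕ → ℕ → Bool := onCell 67108864 469762048 1073741824 536870912 1046898278 26843546
    (rowNX 3 1 true true false .pp 0 2 2 (qsf 67108864 469762048 1073741824 536870912 2) ndN2q0 ndN5q2 pcN2 Cut.none Ext.none)

def k0_pm_022 : ∃ t, chk3 f_pm_022 t 4 4 1 = true :=
  ⟨(b (b (l 1) (a (b (l 1) (a (a (b (l 1) (b (l 1) (c (l 15924936) (l 16006872)))) (l 1)) (l 1))) (l 1))) (b (a (a (b (b (a (c (b (a (l 16061304) (l 1)) (a (l 16067512) (l 16333920))) (b (l 15967856) (l 15926096))) (l 1)) (a (c (l 16025560) (l 16129784)) (c (l 16514224) (l 16555536)))) (b (a (c (l 16017352) (l 16121000)) (c (l 16497264) (l 16537688))) (a (c (l 15992832) (l 16095296)) (c (l 16444856) (l 16483848))))) (a (a (b (l 1) (c (l 16296864) (l 16346640))) (l 1)) (l 1))) (l 1)) (a (b (a (b (a (c (b (l 16034832) (l 15839448)) (l 15849560)) (c (b (l 16440680) (l 16306496)) (a (l 16394704) (l 16613864)))) (a (c (l 15925016) (l 16025952)) (c (l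 16339016) (l 16397608)))) (b (a (c (a (l 16299048) (b (l 16219480) (l 16227752))) (a (l 16372120) (b (l 16200464) (l 16209248)))) (l 1)) (a (c (l 16029040) (l 16180752)) (l 16198536)))) (a (c (a (b (l 15872424) (l 16035144)) (a (l 16385904) (l 16312560))) (a (b (l 15996016) (l 16099336)) (l 16321960))) (a (c (a (l 16178264) (l 15865872)) (a (l 16202592) (l 15986744))) (l 16021536)))) (b (l 1) (a (l 215316970887) (l 1)))))), by decide +kernel⟩

def k1_pm_022 : ∃ t, chk3 f_pm_022 t 4 10 1 = true :=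
  ⟨(b (a (b (a (a (b (c (l 16078888) (l 16105800)) (a (l 16124976) (l 16422672))) (b (b (l 16145680) (l 16106904)) (c (l 16131112) (l 16177432)))) (a (c (b (l 15760856) (l 15619488)) (a (l 15899088) (l 15686440))) (l 15719024))) (b (a (a (a (l 16195104) (l 16203216)) (c (l 16005280) (l 15981880))) (a (c (l 15313072) (l 15523168)) (l 15454200))) (a (b (a (c (l 16109120) (l 16205328)) (c (l 15849960) (l 15820928))) (a (b (l 15948936) (c (a (l 16206536) (l 16028096)) (l 16052704))) (b (l 15669208) (c (l 15717664) (l 15683832))))) (b (a (c (a (l 15515328) (l 15319848)) (l 15371392)) (l 15308696)) (a (b (c (l 15345920) (l 15296448)) (c (a (l 15394072) (a (l 15227504) (l 15183240))) (l 15249312))) (b (l 15240968) (l 15198720))))))) (b (a (b (l 15907840) (l 15736176)) (l 1)) (b (a (l 15551280) (l 15762680)) (b (a (l 15407904) (l 15621104)) (b (a (l 15347080) (l 15568528)) (a (b (l 15272088) (l 15298152)) (a (l 15447376) (l 1)))))))) (a (a (a (c (l 15705232) (l 15809768)) (c (l 15529256)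 (l 15489048))) (a (c (a (l 15225432) (l 15048520)) (l 15080936)) (l 15043648))) (a (c (l 15188728) (l 15132248)) (a (l 15303336) (l 15483536))))), by decide +kernel⟩

def k2_pm_022 : ∃ t, chk3 f_pm_022 t 4 11 1 = true :=
  ⟨(a (b (a (a (b (c (l 15657064) (l 15627184)) (a (b (c (l 15659912) (l 15695464)) (l 15783536)) (b (l 15442680) (c (l 15517360) (l 15480544))))) (c (b (l 15305392) (l 15179520)) (l 15191640))) (a (c (a (l 14968480) (l 14811616)) (l 14825680)) (l 14808400))) (a (a (b (a (c (l 16120824) (l 16220512)) (l 15600624)) (a (l 15688176) (l 16115632))) (b (b (c (a (l 15312456) (l 15011840)) (l 14963392)) (c (l 15188984) (l 15268152))) (c (l 15491696) (l 15562568)))) (a (b (c (a (l 14804352) (l 14640728)) (a (l 14737064) (l 14566512))) (a (c (l 15009016) (l 14949008)) (c (b (l 14571096) (l 14710144)) (l 14584624)))) (b (l 14635680) (b (l 14517664) (l 14484592)))))) (b (a (l 14931064) (c (l 15193160) (l 15136720))) (a (l 14673856) (c (l 14928128) (l 14862776))))), by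 decide +kernel⟩

def k3_pm_022 : ∃ t, chk3 f_pm_022 t 4 3 1 = true :=
  ⟨(b (a (b (a (b (a (a (l 15118264) (b (l 15901688) (l 15627168))) (b (a (l 16205912) (l 15833584)) (a (l 16109008) (l 16305824)))) (a (b (c (l 14975352) (l 15062512)) (l 15009920)) (b (a (l 15770512) (l 16266872)) (c (l 15729816) (l 15758720))))) (b (a (a (c (l 15600736) (l 15692152)) (c (l 15310448) (l 15281520))) (b (b (l 14574080) (l 14783352)) (l 15165232))) (a (a (b (l 16394592) (l 16420208)) (b (l 16022848) (l 16451736))) (b (l 15655240) (l 16123280))))) (a (c (a (l 15039672) (l 15733376)) (l 15227616)) (b (a (a (l 16179824) (a (l 16377864) (l 16624800))) (b (l 16475144) (l 16670488))) (a (l 16391448) (l 16643792))))) (b (b (a (b (a (b (l 14439248) (l 14437312)) (l 14474800)) (a (l 14682712) (b (l 14369512) (l 14400288)))) (c (l 14599488) (l 14522608))) (a (b (a (l 15174672) (l 14681952)) (l 15428248)) (b (a (b (l 14322896) (l 14385808)) (l 14402752)) (a (l 14700896) (b (l 14336640) (l 14430032))))))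 (b (a (b (l 15844680) (a (l 16559008) (l 16145336))) (b (l 14994832) (l 15494208))) (a (b (l 16434560) (l 16772384)) (b (l 15950664) (a (l 16563992) (l 16234256))))))) (a (a (b (a (l 15009920) (l 15715048)) (l 15194688)) (a (c (l 16398080) (l 16384752)) (l 16643792))) (b (a (l 16769696) (b (l 16462136) (l 16687352))) (l 16735584)))), by decide +kernel⟩

def k4_pm_022 : ∃ t, chk3 f_pm_022 t 5 1 1 = true :=
  ⟨(b (b (l 1) (b (b (l 1) (a (a (l 15675760) (l 1)) (l 1))) (b (a (a (l 15543944) (b (a (l 15908632) (l 1)) (c (l 15829656) (l 15648696)))) (l 1)) (a (a (c (l 15131544) (l 15099592)) (b (c (l 15576032) (l 15561376)) (l 15537224))) (b (a (b (l 403758830727) (l 16090280)) (l 1)) (l 15972168)))))) (b (b (b (a (a (l 14883312) (c (l 15265080) (l 15211920))) (c (l 15781808) (l 15768576))) (a (a (l 14550728) (l 14871192)) (l 15371224))) (a (b (a (b (a (l 14388488) (l 14400472)) (a (l 14852248) (l 14497016))) (b (l 14619112) (l 14473288))) (a (l 15310944) (b (a (l 14547376) (l 14415904))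 (l 14623448)))) (b (l 14991880) (a (l 14536312) (l 14793696))))) (a (b (b (a (b (l 16108768) (l 16490960)) (l 15350928)) (a (l 16717528) (b (l 16177880) (l 16578080)))) (a (l 16725936) (l 16761504))) (b (b (a (b (l 14537392) (l 14927568)) (l 14528672)) (a (l 15645488) (b (l 14644712) (l 15049680)))) (b (a (b (l 16346968) (l 16640608)) (l 15743720)) (a (l 16771296) (l 16530624))))))), by decide +kernel⟩

def k5_pm_022 : ∃ t, chk3 f_pm_022 t 3 1 1 = true :=
  ⟨(b (l 1) (b (a (b (a (b (a (l 16381312) (l 1)) (a (l 15922064) (l 16301128))) (l 1)) (a (b (l 15678840) (l 15273056)) (b (l 16408256) (l 16005848)))) (l 1)) (a (b (a (b (l 14902640) (a (l 14532816) (l 14709528))) (l 15371880)) (a (b (a (l 14757248) (l 14548544)) (a (l 15819608) (l 15068456))) (b (l 14815656) (a (l 14575672) (l 14627632))))) (b (a (b (l 16351760) (l 15894720)) (l 1)) (a (l 15273752) (l 16006200)))))), by decide +kernel⟩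

theorem s6_pm_022 : ∃ t, chk3 f_pm_022 t 4 5 1 = true := ex3_b k1_pm_022 k2_pm_022

theorem s7_pm_022 : ∃ t, chk3 f_pm_022 t 4 2 1 = true := ex3_b k0_pm_022 s6_pm_022

theorem s8_pm_022 : ∃ t, chk3 f_pm_022 t 4 1 1 = true := ex3_b s7_pm_022 k3_pm_022

theorem s9_pm_022 : ∃ t, chk3 f_pm_022 t 2 1 1 = true := ex3_a s8_pm_022 k4_pm_022

theorem s10_pm_022 : ∃ t, chk3 f_pm_022 t 1 1 1 = true := ex3_a s9_pm_022 k5_pm_022

theorem c_pm_022 : CertNX 67108864 469762048 1073741824 536870912 1046898278 26843546 3 true true false .pp 0 2 2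
    ndN2q0 ndN5q2 pcN2 Cut.none Ext.none :=
  certNX1 (fam := true) (s1 := true) (s2 := false) (a := 0) (b := 2) (c := 2) (cn := .pp) (n1 := ndN2q0) (n2 := ndN5q2) (pc := pcN2) (cut := Cut.none) (xt := Ext.none) (P1 := 67108864) (W1 := 469762048) (P2 := 1073741824) (W2 := 536870912) (P3 := 1046898278) (W3 := 26843546) (N0 := 3)
    rfl (fun _ => rfl) s10_pm_022

noncomputable def f_pm_023 : ℕ → ℕ → ℕ → ℕ → Bool := onCell 67108864 469762048 1610612736 536870912 1046898278 26843546
    (rowNX 3 1 true true false .up 0 2 3 (qsf 67108864 469762048 1073741824 536870912 3) ndN2q0 ndN5q2 pcN3 Cut.none Ext.none)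

def k0_pm_023 : ∃ t, chk3 f_pm_023 t 1 1 1 = true :=
  ⟨(a (b (a (b (a (a (b (l 15173712) (l 15362456)) (b (l 16518088) (l 16518088))) (l 16735584)) (a (l 2) (b (l 16735584) (l 2)))) (b (a (l 16746064) (l 16777112)) (a (l 16746064) (l 16777216)))) (b (a (l 2) (b (l 16908824) (l 2))) (l 2))) (b (b (a (b (a (b (a (l 16587576) (l 16018232)) (l 16683712)) (b (a (l 15179784) (l 14614008)) (a (l 16124632) (l 15300616)))) (a (l 16777216) (b (a (l 16678368) (l 16222448)) (l 16734120)))) (b (a (b (l 14735208) (a (l 14663352) (l 14555928))) (l 15177840)) (a (b (a (l 15423936) (l 14723512)) (a (l 16311816) (l 15545888))) (b (l 14723024) (a (l 14794304) (l 14528672)))))) (a (l 16777216) (b (a (b (l 16521144) (l 16764960)) (b (a (l 15666464) (l 14875520)) (a (l 16465768) (l 15785664)))) (a (l 16777216) (l 16408400))))) (b (b (l 16777208) (b (l 16777192) (l 16777208))) (l 4)))), by decide +kernel⟩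

theorem c_pm_023 : CertNX 67108864 469762048 1073741824 536870912 1046898278 26843546 3 true true false .up 0 2 3
    ndN2q0 ndN5q2 pcN3 Cut.none Ext.none :=
  certNX1 (fam := true) (s1 := true) (s2 := false) (a := 0) (b := 2) (c := 3) (cn := .up) (n1 := ndN2q0) (n2 := ndN5q2) (pc := pcN3) (cut := Cut.none) (xt := Ext.none) (P1 := 67108864) (W1 := 469762048) (P2 := 1073741824) (W2 := 536870912) (P3 := 1046898278) (W3 := 26843546) (N0 := 3)
    rfl (fun _ => rfl) k0_pm_023

noncomputable def f_pm_033 : ℕ → ℕ → ℕ → ℕ → Bool := onCell 67108864 469762048 0 1230186008 1046898278 26843546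
    (rowNX 3 0 true true false .pnn 0 3 3 (qsf 67108864 469762048 0 1230186008 3) ndN2q0 ndN5q3 pcN3 Cut.none Ext.none)

def k0_pm_033 : ∃ t, chk3 f_pm_033 t 1 1 1 = true :=
  ⟨(b (l 4) (b (a (b (l 4) (b (l 4) (a (a (a (c (l 15385984) (l 15332440)) (l 4)) (l 4)) (l 4)))) (l 2)) (a (b (a (a (a (b (c (l 15344056) (l 15332464)) (a (l 15009920) (l 15715048))) (b (c (l 16438624) (l 16324816)) (a (l 16391448) (l 16643784)))) (b (a (c (l 16769776) (l 16769512)) (l 4)) (c (l 16736304) (a (l 16769528) (l 16685800))))) (a (b (l 4) (a (c (l 16726808) (l 16725040)) (b (l 4) (l 16765720)))) (l 4))) (a (a (b (a (l 15299544) (l 16308376)) (a (l 15257600) (l 16518088))) (b (a (l 16769696) (l 16687352)) (l 16735584))) (a (b (c (l 16746592) (l 16745520)) (b (l 16746064) (l 16746064))) (b (c (b (l 16775592) (l 16777184)) (b (l 16775536) (l 16777184))) (b (l 16777192) (l 16777208)))))) (b (l 4) (a (b (l 4) (b (a (c (l 16776696) (l 16776672)) (l 4)) (a (l 16777184) (a (l 16777184) (l 4))))) (l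 4)))))), by decide +kernel⟩

theorem c_pm_033 : CertNX 67108864 469762048 0 1230186008 1046898278 26843546 3 true true false .pnn 0 3 3
    ndN2q0 ndN5q3 pcN3 Cut.none Ext.none :=
  certNX0 (fam := true) (s1 := true) (s2 := false) (a := 0) (b := 3) (c := 3) (cn := .pnn) (n1 := ndN2q0) (n2 := ndN5q3) (pc := pcN3) (cut := Cut.none) (xt := Ext.none) (P1 := 67108864) (W1 := 469762048) (P2 := 0) (W2 := 1230186008) (P3 := 1046898278) (W3 := 26843546) (N0 := 3)
    rfl k0_pm_033

noncomputable def f_pm_101 : ℕ → ℕ → ℕ → ℕ → Bool := onCell 536870912 536870912 0 536870912 1046898278 26843546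
    (rowNX 3 2 true true false .npn 1 0 1 (qsf 536870912 536870912 0 536870912 1) ndN2q1 ndN5q0 pcN1 Cut.none Ext.none)

def k0_pm_101 : ∃ t, chk3 f_pm_101 t 1 1 1 = true :=
  ⟨(a (l 3) (l 3)), by decide +kernel⟩

theorem c_pm_101 : CertNX 536870912 536870912 0 536870912 1046898278 26843546 3 true true false .npn 1 0 1
    ndN2q1 ndN5q0 pcN1 Cut.none Ext.none :=
  certNX2 (fam := true) (s1 := true) (s2 := false) (a := 1) (b := 0) (c := 1) (cn := .npn) (n1 := ndN2q1) (n2 := ndN5q0) (pc := pcN1) (cut := Cut.none) (xt := Ext.none) (P1 := 536870912) (W1 := 536870912) (P2 := 0) (W2 := 536870912) (P3 := 1046898278) (W3 := 26843546) (N0 := 3)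
    rfl (fun _ => rfl) k0_pm_101

noncomputable def f_pm_102 : ℕ → ℕ → ℕ → ℕ → Bool := onCell 536870912 536870912 1073741824 536870912 1046898278 26843546
    (rowNX 3 1 true true false .npp 1 0 2 (qsf 536870912 536870912 0 536870912 2) ndN2q1 ndN5q0 pcN2 Cut.none Ext.none)

def k0_pm_102 : ∃ t, chk3 f_pm_102 t 1 1 1 = true :=
  ⟨(a (b (b (b (l 3) (b (l 3) (b (c (l 829633566103) (l 868288274071)) (b (l 838223251927) (a (l 16775096) (l 16775096)))))) (b (b (a (b (b (l 16759640) (l 2)) (l 2)) (b (b (l 16775744) (c (l 16760160) (l 16759560))) (b (b (l 16735040) (l 16677824)) (b (l 16614448) (a (l 16507696) (l 16557888)))))) (l 16584288)) (l 16933376))) (l 16777216)) (a (b (b (l 3) (b (b (b (a (c (l 16616128) (l 16635872)) (c (l 783998203607) (l 765744571655))) (b (a (b (l 16744360) (b (l 16750840) (l 16746688))) (b (l 16473296) (c (l 16486592) (l 16476464)))) (a (b (l 16692904) (l 16629464)) (b (l 16516616) (b (l 16552264) (l 16571504)))))) (a (l 16646296) (l 16555592))) (a (l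 16753240) (l 16488936)))) (b (a (l 16740768) (l 16472856)) (l 16592560))) (b (b (l 3) (b (b (b (b (l 3) (a (a (l 16044960) (l 15666688)) (a (l 767890347799) (l 7414351832135)))) (b (a (b (l 15700744) (c (l 15882096) (l 15850720))) (b (c (l 15372008) (l 15323800)) (c (l 15326568) (l 15298408)))) (b (a (b (c (l 15887104) (l 15855952)) (l 15898080)) (b (c (l 15269904) (l 15283144)) (b (a (l 15413272) (l 15193080)) (l 15316584)))) (a (b (l 15932576) (l 15959120)) (b (l 15197768) (a (l 15475104) (l 15260184))))))) (a (l 15946848) (a (l 15411200) (l 15153328)))) (a (l 15874664) (b (a (l 15305744) (l 14951320)) (l 15064712))))) (b (a (l 15855624) (l 15064600)) (a (l 15855624) (l 15064600)))))), by decide +kernel⟩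

theorem c_pm_102 : CertNX 536870912 536870912 0 536870912 1046898278 26843546 3 true true false .npp 1 0 2
    ndN2q1 ndN5q0 pcN2 Cut.none Ext.none :=
  certNX1 (fam := true) (s1 := true) (s2 := false) (a := 1) (b := 0) (c := 2) (cn := .npp) (n1 := ndN2q1) (n2 := ndN5q0) (pc := pcN2) (cut := Cut.none) (xt := Ext.none) (P1 := 536870912) (W1 := 536870912) (P2 := 0) (W2 := 536870912) (P3 := 1046898278) (W3 := 26843546) (N0 := 3)
    rfl (fun _ => rfl) k0_pm_102

noncomputable def f_pm_112 : ℕ → ℕ → ℕ → ℕ → Bool := onCell 1073741824 536870912 536870912 469762048 1046898278 26843546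
    (rowNX 3 2 true true false .dn 1 1 2 (qsf 536870912 536870912 536870912 469762048 2) ndN2q1 ndN5q1 pcN2 Cut.none Ext.none)

def k0_pm_112 : ∃ t, chk3 f_pm_112 t 1 1 1 = true :=
  ⟨(b (a (a (a (l 3) (a (l 3) (a (c (l 543481338535) (l 745881674679)) (c (b (l 16774792) (l 16757640)) (b (l 16774712) (l 16756960)))))) (a (a (a (a (c (l 16738024) (l 16736648)) (b (l 16729888) (l 16647824))) (a (l 16595024) (a (l 16520336) (a (l 16497696) (b (l 16514248) (l 16468080)))))) (l 16568000)) (l 16742728))) (a (b (a (l 16764808) (l 16626464)) (l 16777216)) (b (a (l 16325344) (l 15742912)) (a (l 16749480) (l 16579712))))) (a (a (l 1) (b (a (l 1) (b (l 16741440) (l 1))) (l 1))) (b (b (l 16777208) (a (l 16041272) (l 16230016))) (b (b (l 406977841143) (l 411271217623)) (a (l 1) (b (l 13557320) (l 13693848))))))), by decide +kernel⟩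

theorem c_pm_112 : CertNX 536870912 536870912 536870912 469762048 1046898278 26843546 3 true true false .dn 1 1 2
    ndN2q1 ndN5q1 pcN2 Cut.none Ext.none :=
  certNX2 (fam := true) (s1 := true) (s2 := false) (a := 1) (b := 1) (c := 2) (cn := .dn) (n1 := ndN2q1) (n2 := ndN5q1) (pc := pcN2) (cut := Cut.none) (xt := Ext.none) (P1 := 536870912) (W1 := 536870912) (P2 := 536870912) (W2 := 469762048) (P3 := 1046898278) (W3 := 26843546) (N0 := 3)
    rfl (fun _ => rfl) k0_pm_112

noncomputable def f_pm_113 : ℕ → ℕ → ℕ → ℕ → Bool := onCell 536870912 536870912 536870912 469762048 1046898278 26843546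
    (rowNX 3 0 true true false .nn 1 1 3 (qsf 536870912 536870912 536870912 469762048 3) ndN2q1 ndN5q1 pcN3 Cut.none Ext.none)

def k0_pm_113 : ∃ t, chk3 f_pm_113 t 1 1 1 = true :=
  ⟨(b (a (l 1) (a (a (l 16740768) (l 16472856)) (a (l 345239204343) (b (l 15064600) (l 15064600))))) (a (b (b (l 16777216) (l 371009756919)) (b (b (l 15033664) (l 14301168)) (b (a (l 13557320) (l 13557320)) (a (l 13693848) (l 13693848))))) (b (a (b (l 16592560) (a (l 16195312) (l 15940360))) (a (l 15481664) (l 14821528))) (a (b (b (l 14861144) (l 14130192)) (b (l 13345816) (l 13525584))) (b (a (l 13881232) (l 13217488)) (a (b (l 12772264) (l 12925872)) (b (a (l 12363168) (l 12180464)) (a (l 12559696) (a (l 12468368) (l 12489264)))))))))), by decide +kernel⟩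

theorem c_pm_113 : CertNX 536870912 536870912 536870912 469762048 1046898278 26843546 3 true true false .nn 1 1 3
    ndN2q1 ndN5q1 pcN3 Cut.none Ext.none :=
  certNX0 (fam := true) (s1 := true) (s2 := false) (a := 1) (b := 1) (c := 3) (cn := .nn) (n1 := ndN2q1) (n2 := ndN5q1) (pc := pcN3) (cut := Cut.none) (xt := Ext.none) (P1 := 536870912) (W1 := 536870912) (P2 := 536870912) (W2 := 469762048) (P3 := 1046898278) (W3 := 26843546) (N0 := 3)
    rfl k0_pm_113

noncomputable def f_pm_123 : ℕ → ℕ → ℕ → ℕ → Bool := onCell 1610612736 536870912 1073741824 536870912 1046898278 26843546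
    (rowNX 3 2 true true false .npn 1 2 3 (qsf 536870912 536870912 1073741824 536870912 3) ndN2q1 ndN5q2 pcN3 Cut.none Ext.none)

def k0_pm_123 : ∃ t, chk3 f_pm_123 t 1 1 1 = true :=
  ⟨(b (a (b (a (b (l 15522248) (l 14772512)) (b (l 15522248) (l 14772512))) (b (a (b (l 14488456) (l 1)) (b (l 14488456) (l 15362176))) (a (l 1) (l 132639705543)))) (a (b (a (b (l 15510520) (l 14772520)) (b (a (l 15466168) (l 15406656)) (l 14748536))) (b (a (b (l 14488472) (l 15362184)) (b (l 14362664) (l 15362208))) (a (l 16295144) (b (l 16304960) (l 16776576))))) (a (a (b (b (l 15343328) (l 14774664)) (b (b (l 14488544) (l 15362224)) (b (l 16304960) (l 16776568)))) (b (a (b (l 15328808) (l 14800496)) (l 4)) (l 4))) (l 4)))) (a (a (l 1) (a (l 1) (l 16777216))) (a (a (l 16777208) (c (l 16777176) (l 16777176))) (a (a (l 16776704) (l 4)) (l 4))))), by decide +kernel⟩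

theorem c_pm_123 : CertNX 536870912 536870912 1073741824 536870912 1046898278 26843546 3 true true false .npn 1 2 3
    ndN2q1 ndN5q2 pcN3 Cut.none Ext.none :=
  certNX2 (fam := true) (s1 := true) (s2 := false) (a := 1) (b := 2) (c := 3) (cn := .npn) (n1 := ndN2q1) (n2 := ndN5q2) (pc := pcN3) (cut := Cut.none) (xt := Ext.none) (P1 := 536870912) (W1 := 536870912) (P2 := 1073741824) (W2 := 536870912) (P3 := 1046898278) (W3 := 26843546) (N0 := 3)
    rfl (fun _ => rfl) k0_pm_123

noncomputable def f_pm_133 : ℕ → ℕ → ℕ → ℕ → Bool := onCell 536870912 536870912 0 1230186008 1046898278 26843546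
    (rowNX 3 0 true true false .dn 1 3 3 (qsf 536870912 536870912 0 1230186008 3) ndN2q1 ndN5q3 pcN3 Cut.none Ext.none)

def k0_pm_133 : ∃ t, chk3 f_pm_133 t 1 1 1 = true :=
  ⟨(b (l 2) (l 4)), by decide +kernel⟩

theorem c_pm_133 : CertNX 536870912 536870912 0 1230186008 1046898278 26843546 3 true true false .dn 1 3 3
    ndN2q1 ndN5q3 pcN3 Cut.none Ext.none :=
  certNX0 (fam := true) (s1 := true) (s2 := false) (a := 1) (b := 3) (c := 3) (cn := .dn) (n1 := ndN2q1) (n2 := ndN5q3) (pc := pcN3) (cut := Cut.none) (xt := Ext.none) (P1 := 536870912) (W1 := 536870912) (P2 := 0) (W2 := 1230186008) (P3 := 1046898278) (W3 := 26843546) (N0 := 3)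
    rfl k0_pm_133

noncomputable def f_pm_202_a : ℕ → ℕ → ℕ → ℕ → Bool := onCell 0 420477299 0 536870912 1046898278 26843546
    (rowNX 3 0 true true false .pp 2 0 2 (qsf 0 420477299 0 536870912 2) ndN2q2a ndN5q0 pcN2 Cut.none Ext.none)

def k0_pm_202_a : ∃ t, chk3 f_pm_202_a t 2 4 1 = true :=
  ⟨(a (b (b (b (c (b (l 15730592) (c (a (l 15714200) (l 15767504)) (a (l 15686536) (l 15740832)))) (b (c (b (l 15923728) (l 15698728)) (b (a (l 15891336) (l 15866904)) (l 15834960))) (c (l 15641720) (l 15714816)))) (c (b (a (l 15505664) (l 15557072)) (l 15381712)) (l 15270840))) (a (b (l 15135672) (l 14942576)) (c (b (l 15232424) (l 15010968)) (l 15082168)))) (b (b (b (a (l 14871096) (b (l 14872080) (l 14892096))) (l 15025296)) (l 15318248)) (l 15739648))) (b (c (b (b (a (b (l 16081568) (b (l 15978592) (l 15846824))) (b (a (l 16213456) (b (l 16401184) (l 16441664))) (b (l 16170224) (c (l 16207528) (l 16169720))))) (a (b (l 15706352) (l 15567016)) (b (a (l 15940592) (l 16021232)) (l 15865864))))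 (a (b (l 15389712) (l 15157968)) (b (l 15676240) (l 15428200)))) (b (b (b (a (c (b (l 16135320) (l 16053896)) (b (b (l 16166576) (l 16083688)) (l 16047248))) (b (a (c (l 16354328) (b (l 16386216) (l 16361512))) (c (l 16436016) (b (l 16437688) (l 16430720)))) (a (c (l 16283752) (l 16281432)) (c (b (l 16437368) (l 16451816)) (l 16305344))))) (a (c (l 15908168) (l 15922192)) (c (l 16127736) (l 16252760)))) (a (l 15676256) (l 15865128))) (a (l 15240192) (l 15361600)))) (b (b (a (b (l 15012592) (l 15053032)) (l 15099560)) (a (l 15298952) (b (l 15258064) (l 15431592)))) (l 15737168)))), by decide +kernel⟩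

def k1_pm_202_a : ∃ t, chk3 f_pm_202_a t 6 8 1 = true :=
  ⟨(b (b (a (b (c (l 16367888) (b (c (l 16434568) (l 16362032)) (c (l 16437144) (l 16433288)))) (c (a (b (a (l 16409608) (l 16378336)) (b (l 16423000) (l 16474424))) (b (l 16397680) (l 16350864))) (a (b (c (l 16408720) (l 16385984)) (l 16235600)) (c (l 16376752) (l 16353776))))) (c (b (l 16448056) (c (l 16419096) (l 16425216))) (b (c (l 16341216) (b (l 16271568) (l 16504520))) (c (l 16420776) (l 16397712))))) (a (c (b (a (l 16283184) (b (a (l 16404136) (l 16338824)) (l 16448344))) (l 16169992)) (a (l 16289552) (b (b (l 16184872) (l 16386952)) (l 16490432)))) (c (b (a (b (l 16342264) (l 16266808)) (l 16342320)) (a (b (l 16213344) (l 16370608)) (b (l 16257136) (l 16203256)))) (a (b (b (l 16290416) (l 16198384)) (a (l 16334656) (l 16140424))) (b (l 16287024) (l 16080488)))))) (a (b (a (l 15764216) (c (l 16209536) (l 16237072))) (c (l 15756824) (l 15797944))) (b (a (c (l 16446776) (l 16527048)) (b (c (a (l 16283952) (l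 16103976)) (l 15972688)) (l 16197304))) (c (a (l 16198808) (l 16461480)) (l 16203616))))), by decide +kernel⟩

def k2_pm_202_a : ∃ t, chk3 f_pm_202_a t 7 8 1 = true :=
  ⟨(b (b (a (c (b (l 16276840) (c (l 16264000) (b (l 16462856) (l 16422080)))) (b (c (b (l 16487960) (l 16317160)) (b (a (c (l 16452128) (l 16457000)) (l 16398416)) (l 16355744))) (c (l 16265464) (l 16408960)))) (c (b (l 16285824) (b (a (l 16368768) (l 16280232)) (l 16046528))) (b (c (b (l 16468824) (l 16281192)) (b (c (l 16435824) (l 16240096)) (l 16316448))) (c (a (l 16333752) (l 16241416)) (l 16257304))))) (a (c (b (a (l 16359008) (l 16304920)) (l 16099752)) (a (l 16169584) (l 16171968))) (c (b (l 15930192) (l 16043112)) (l 15869288)))) (a (b (a (b (c (l 15925088) (l 15970520)) (a (c (l 16139624) (l 16100472)) (c (l 15930760) (l 15948624)))) (c (l 15841840) (l 15886392))) (a (c (b (l 16148896) (l 16389528)) (l 16136840)) (b (a (c (l 15893776) (l 15856488)) (c (l 15738000) (l 15694736))) (l 15732400)))) (b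 (c (l 15735344) (l 15730688)) (b (l 15289160) (a (a (b (l 15551832) (l 15582352)) (l 15442544)) (l 15338160)))))), by decide +kernel⟩

def k3_pm_202_a : ∃ t, chk3 f_pm_202_a t 3 9 1 = true :=
  ⟨(a (b (a (b (l 15643984) (a (l 15518720) (l 15704040))) (b (a (l 16010088) (l 16304992)) (l 16086408))) (a (b (b (l 15706320) (l 15785408)) (l 15884168)) (b (a (l 15781792) (l 16126944)) (l 15862184)))) (b (a (b (a (l 16316752) (l 15987552)) (a (l 16557328) (l 16297904))) (b (a (b (b (l 15334824) (l 15560272)) (l 15635984)) (b (a (l 15115144) (l 15117464)) (a (l 15199176) (l 14957904)))) (a (l 15778016) (l 15186312)))) (a (a (b (l 16439776) (b (l 16233208) (l 16148160))) (b (l 16474792) (l 16551064))) (a (b (l 15985672) (l 16322784)) (b (l 15404344) (l 15756640)))))), by decide +kernel⟩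

def k4_pm_202_a : ∃ t, chk3 f_pm_202_a t 1 5 1 = true :=
  ⟨(a (b (a (b (l 16018240) (l 16257960)) (l 16030528)) (a (l 16447168) (b (l 16469904) (l 16398904)))) (a (b (l 16044064) (b (l 16553912) (l 16554936))) (b (a (b (a (l 16249040) (b (b (l 16367728) (l 16353296)) (l 16433240))) (l 16520648)) (b (a (b (a (l 16587048) (l 16522984)) (l 16598880)) (b (l 16101568) (a (l 16501296) (l 16267928)))) (l 16335592))) (a (l 16499416) (b (l 16344672) (l 16262752)))))), by decide +kernel⟩

def k5_pm_202_a : ∃ t, chk3 f_pm_202_a t 1 3 1 = true :=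
  ⟨(a (b (b (a (l 16400216) (l 16398760)) (a (l 16400216) (l 16398760))) (l 2)) (b (a (b (l 16554784) (l 16554784)) (a (b (l 16713464) (l 16713464)) (b (l 16262608) (l 16262632)))) (a (b (l 16554784) (l 2)) (a (b (l 16713464) (l 2)) (b (l 16262632) (l 16262632)))))), by decide +kernel⟩

theorem s6_pm_202_a : ∃ t, chk3 f_pm_202_a t 3 8 1 = true := ex3_a k1_pm_202_a k2_pm_202_a

theorem s7_pm_202_a : ∃ t, chk3 f_pm_202_a t 3 4 1 = true := ex3_b s6_pm_202_a k3_pm_202_a

theorem s8_pm_202_a : ∃ t, chk3 f_pm_202_a t 1 4 1 = true := ex3_a k0_pm_202_a s7_pm_202_a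

theorem s9_pm_202_a : ∃ t, chk3 f_pm_202_a t 1 2 1 = true := ex3_b s8_pm_202_a k4_pm_202_a

theorem s10_pm_202_a : ∃ t, chk3 f_pm_202_a t 1 1 1 = true := ex3_b s9_pm_202_a k5_pm_202_a

theorem c_pm_202_a : CertNX 0 420477299 0 536870912 1046898278 26843546 3 true true false .pp 2 0 2
    ndN2q2a ndN5q0 pcN2 Cut.none Ext.none :=
  certNX0 (fam := true) (s1 := true) (s2 := false) (a := 2) (b := 0) (c := 2) (cn := .pp) (n1 := ndN2q2a) (n2 := ndN5q0) (pc := pcN2) (cut := Cut.none) (xt := Ext.none) (P1 := 0) (W1 := 420477299) (P2 := 0) (W2 := 536870912) (P3 := 1046898278) (W3 := 26843546) (N0 := 3)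
    rfl s10_pm_202_a

noncomputable def f_pm_202_b : ℕ → ℕ → ℕ → ℕ → Bool := onCell 1073741824 536870912 0 536870912 1046898278 26843546
    (rowNX 3 2 true true false .pp 2 0 2 (qsf 1239849684 370763052 0 536870912 2) ndN2q2b ndN5q0 pcN2 Cut.none Ext.none)

def k0_pm_202_b : ∃ t, chk3 f_pm_202_b t 2 1 1 = true :=
  ⟨(a (l 1) (b (b (a (b (b (a (b (b (b (a (l 1) (c (l 16087464) (c (l 16135816) (a (l 1) (l 15870112))))) (l 1)) (l 1)) (l 1)) (b (c (b (l 15382904) (b (a (l 15697808) (l 15371960)) (a (l 266319045671) (l 15383320)))) (b (c (b (l 15492160) (l 15434072)) (b (c (l 15489024) (l 15485568)) (l 15501200))) (c (l 386040745879) (l 15549352)))) (c (a (b (l 172903571447) (l 1)) (b (l 15371488) (l 15424664))) (a (l 15748992) (l 15423480))))) (a (l 1) (a (l 1) (b (c (l 15551384) (l 15618888)) (l 1))))) (l 1)) (b (b (a (b (c (b (l 14785240) (c (l 14862320) (l 14817928))) (b (c (l 14757208) (b (l 14726216) (l 14742016))) (l 14754664))) (c (b (l 14838680) (l 14873376)) (l 14855016)))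 (b (c (b (l 14440744) (c (l 14546112) (l 14495224))) (b (c (l 14401944) (l 14373304)) (l 14443000))) (c (b (l 14536968) (l 14582248)) (l 14543840)))) (a (b (c (a (l 15164088) (l 14811112)) (l 14967704)) (c (a (l 15375856) (l 14950088)) (l 15102088))) (c (b (l 14690944) (l 14817264)) (l 14703296)))) (a (b (b (b (l 184713798391) (l 1)) (l 1)) (l 1)) (b (b (b (l 14924328) (l 15091240)) (l 15171336)) (a (l 1) (l 15828240)))))) (l 1)) (l 1))), by decide +kernel⟩

def k1_pm_202_b : ∃ t, chk3 f_pm_202_b t 3 1 1 = true :=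
  ⟨(b (b (b (a (b (c (b (a (b (l 14444840) (l 14533712)) (l 14483176)) (a (l 14614240) (l 14614280))) (b (b (c (l 14406176) (l 14377624)) (l 14459288)) (l 14594880))) (a (c (b (l 14790040) (l 14962064)) (l 14825008)) (l 14675096))) (b (c (b (l 14483176) (l 14614280)) (b (b (l 14389800) (l 14459288)) (l 14594904))) (a (l 14863840) (l 14863840)))) (a (b (a (c (l 15139704) (l 15319640)) (l 15409744)) (a (a (l 15816312) (l 15900520)) (l 15999720))) (b (a (l 15430744) (l 15430744)) (l 16018240)))) (a (a (b (b (a (l 16137120) (l 16087496)) (a (l 1) (l 16304880))) (l 1)) (b (a (l 63919839879) (l 16312504)) (b (a (l 16573136) (l 16530608)) (a (l 1) (l 16582200))))) (b (a (l 16365184) (l 16376120)) (a (b (l 16623856) (l 16570216)) (l 16719128))))) (a (l 1) (b (a (b (a (b (l 16582064) (l 1)) (l 16563960)) (l 1)) (b (l 16462280) (a (b (l 16582064) (l 1)) (l 16563960)))) (l 1)))), by decide +kernel⟩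

theorem s2_pm_202_b : ∃ t, chk3 f_pm_202_b t 1 1 1 = true := ex3_a k0_pm_202_b k1_pm_202_b

theorem c_pm_202_b : CertNX 1239849684 370763052 0 536870912 1046898278 26843546 3 true true false .pp 2 0 2
    ndN2q2b ndN5q0 pcN2 Cut.none Ext.none :=
  certNX2 (fam := true) (s1 := true) (s2 := false) (a := 2) (b := 0) (c := 2) (cn := .pp) (n1 := ndN2q2b) (n2 := ndN5q0) (pc := pcN2) (cut := Cut.none) (xt := Ext.none) (P1 := 1239849684) (W1 := 370763052) (P2 := 0) (W2 := 536870912) (P3 := 1046898278) (W3 := 26843546) (N0 := 3)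
    rfl (fun _ => rfl) s2_pm_202_b

noncomputable def f_pm_203_a : ℕ → ℕ → ℕ → ℕ → Bool := onCell 0 420477299 1610612736 536870912 1046898278 26843546
    (rowNX 3 1 true true false .up 2 0 3 (qsf 0 420477299 0 536870912 3) ndN2q2a ndN5q0 pcN3 Cut.none Ext.none)

def k0_pm_203_a : ∃ t, chk3 f_pm_203_a t 1 1 1 = true :=
  ⟨(b (a (b (b (l 16326848) (b (l 16410736) (l 4))) (l 4)) (b (a (b (l 16554784) (l 16554784)) (b (l 16428992) (a (l 16713464) (l 16262632)))) (a (l 4) (l 2)))) (l 2)), by decide +kernel⟩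

theorem c_pm_203_a : CertNX 0 420477299 0 536870912 1046898278 26843546 3 true true false .up 2 0 3
    ndN2q2a ndN5q0 pcN3 Cut.none Ext.none :=
  certNX1 (fam := true) (s1 := true) (s2 := false) (a := 2) (b := 0) (c := 3) (cn := .up) (n1 := ndN2q2a) (n2 := ndN5q0) (pc := pcN3) (cut := Cut.none) (xt := Ext.none) (P1 := 0) (W1 := 420477299) (P2 := 0) (W2 := 536870912) (P3 := 1046898278) (W3 := 26843546) (N0 := 3)
    rfl (fun _ => rfl) k0_pm_203_a

noncomputable def f_pm_203_b : ℕ → ℕ → ℕ → ℕ → Bool := onCell 1239849684 370763052 1610612736 536870912 1046898278 26843546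
    (rowNX 3 1 true true false .up 2 0 3 (qsf 1239849684 370763052 0 536870912 3) ndN2q2b ndN5q0 pcN3 Cut.none Ext.none)

def k0_pm_203_b : ∃ t, chk3 f_pm_203_b t 1 1 1 = true :=
  ⟨(b (a (b (b (a (l 16655936) (l 16733496)) (b (l 16720832) (l 4))) (l 4)) (b (a (b (b (l 16257576) (l 16488176)) (b (l 16607384) (l 16737568))) (b (a (b (a (l 15696248) (l 15028224)) (l 15975784)) (a (b (b (l 14708400) (l 14981824)) (l 15392216)) (b (b (c (l 14585992) (l 14539152)) (l 14669872)) (l 14825408)))) (b (a (l 16280392) (a (l 15998760) (l 15639680))) (l 16329640)))) (b (a (l 4) (b (l 16524152) (l 4))) (l 4)))) (l 4)), by decide +kernel⟩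

theorem c_pm_203_b : CertNX 1239849684 370763052 0 536870912 1046898278 26843546 3 true true false .up 2 0 3
    ndN2q2b ndN5q0 pcN3 Cut.none Ext.none :=
  certNX1 (fam := true) (s1 := true) (s2 := false) (a := 2) (b := 0) (c := 3) (cn := .up) (n1 := ndN2q2b) (n2 := ndN5q0) (pc := pcN3) (cut := Cut.none) (xt := Ext.none) (P1 := 1239849684) (W1 := 370763052) (P2 := 0) (W2 := 536870912) (P3 := 1046898278) (W3 := 26843546) (N0 := 3)
    rfl (fun _ => rfl) k0_pm_203_b

noncomputable def f_pm_213_a : ℕ → ℕ → ℕ → ℕ → Bool := onCell 0 420477299 536870912 469762048 1046898278 26843546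
    (rowNX 3 0 true true false .pnn 2 1 3 (qsf 0 420477299 536870912 469762048 3) ndN2q2a ndN5q1 pcN3 Cut.none Ext.none)

def k0_pm_213_a : ∃ t, chk3 f_pm_213_a t 1 1 1 = true :=
  ⟨(b (a (l 4) (b (a (c (l 16558624) (l 16550952)) (a (b (l 16713464) (l 4)) (b (l 16262632) (b (l 16262632) (l 4))))) (l 4))) (l 4)), by decide +kernel⟩

theorem c_pm_213_a : CertNX 0 420477299 536870912 469762048 1046898278 26843546 3 true true false .pnn 2 1 3
    ndN2q2a ndN5q1 pcN3 Cut.none Ext.none :=
  certNX0 (fam := true) (s1 := true) (s2 := false) (a := 2) (b := 1) (c := 3) (cn := .pnn) (n1 := ndN2q2a) (n2 := ndN5q1) (pc := pcN3) (cut := Cut.none) (xt := Ext.none) (P1 := 0) (W1 := 420477299) (P2 := 536870912) (W2 := 469762048) (P3 := 1046898278) (W3 := 26843546) (N0 := 3)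
    rfl k0_pm_213_a

noncomputable def f_pm_213_b : ℕ → ℕ → ℕ → ℕ → Bool := onCell 1239849684 370763052 536870912 469762048 1046898278 26843546
    (rowNX 3 0 true true false .pnn 2 1 3 (qsf 1239849684 370763052 536870912 469762048 3) ndN2q2b ndN5q1 pcN3 Cut.none Ext.none)

def k0_pm_213_b : ∃ t, chk3 f_pm_213_b t 1 1 1 = true :=
  ⟨(l 4), by decide +kernel⟩

theorem c_pm_213_b : CertNX 1239849684 370763052 536870912 469762048 1046898278 26843546 3 true true false .pnn 2 1 3
    ndN2q2b ndN5q1 pcN3 Cut.none Ext.none :=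
  certNX0 (fam := true) (s1 := true) (s2 := false) (a := 2) (b := 1) (c := 3) (cn := .pnn) (n1 := ndN2q2b) (n2 := ndN5q1) (pc := pcN3) (cut := Cut.none) (xt := Ext.none) (P1 := 1239849684) (W1 := 370763052) (P2 := 536870912) (W2 := 469762048) (P3 := 1046898278) (W3 := 26843546) (N0 := 3)
    rfl k0_pm_213_b

noncomputable def f_pm_303 : ℕ → ℕ → ℕ → ℕ → Bool := onCell 1610612736 536870912 0 536870912 1046898278 26843546
    (rowNX 3 2 true true false .npn 3 0 3 (qsf 1610612736 469762048 0 536870912 3) ndN2q3 ndN5q0 pcN3 Cut.none Ext.none)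

def k0_pm_303 : ∃ t, chk3 f_pm_303 t 1 1 1 = true :=
  ⟨(a (b (b (b (a (b (a (c (l 14556664) (l 14507952)) (c (l 14535688) (l 14424064))) (a (l 14863840) (l 14863840))) (b (b (c (a (l 14483176) (l 14483176)) (a (l 14428624) (l 14302800))) (a (l 14586400) (l 4))) (a (l 14863840) (l 4)))) (a (b (l 449928182439) (l 16018240)) (a (b (l 15430744) (l 16018240)) (l 4)))) (a (a (l 1) (l 566968718391)) (a (b (l 16376120) (l 4)) (l 4)))) (a (l 1) (l 4))) (l 4)), by decide +kernel⟩

theorem c_pm_303 : CertNX 1610612736 469762048 0 536870912 1046898278 26843546 3 true true false .npn 3 0 3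
    ndN2q3 ndN5q0 pcN3 Cut.none Ext.none :=
  certNX2 (fam := true) (s1 := true) (s2 := false) (a := 3) (b := 0) (c := 3) (cn := .npn) (n1 := ndN2q3) (n2 := ndN5q0) (pc := pcN3) (cut := Cut.none) (xt := Ext.none) (P1 := 1610612736) (W1 := 469762048) (P2 := 0) (W2 := 536870912) (P3 := 1046898278) (W3 := 26843546) (N0 := 3)
    rfl (fun _ => rfl) k0_pm_303

noncomputable def f_pm_313 : ℕ → ℕ → ℕ → ℕ → Bool := onCell 1610612736 469762048 536870912 469762048 1046898278 26843546
    (rowNX 3 0 true true false .dn 3 1 3 (qsf 1610612736 469762048 536870912 469762048 3) ndN2q3 ndN5q1 pcN3 Cut.none Ext.none)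

def k0_pm_313 : ∃ t, chk3 f_pm_313 t 1 1 1 = true :=
  ⟨(l 4), by decide +kernel⟩

theorem c_pm_313 : CertNX 1610612736 469762048 536870912 469762048 1046898278 26843546 3 true true false .dn 3 1 3
    ndN2q3 ndN5q1 pcN3 Cut.none Ext.none :=
  certNX0 (fam := true) (s1 := true) (s2 := false) (a := 3) (b := 1) (c := 3) (cn := .dn) (n1 := ndN2q3) (n2 := ndN5q1) (pc := pcN3) (cut := Cut.none) (xt := Ext.none) (P1 := 1610612736) (W1 := 469762048) (P2 := 536870912) (W2 := 469762048) (P3 := 1046898278) (W3 := 26843546) (N0 := 3)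
    rfl k0_pm_313

noncomputable def f_mm_001 : ℕ → ℕ → ℕ → ℕ → Bool := onCell 67108864 469762048 0 536870912 1046898278 26843546
    (rowNX 3 0 true false false .up 0 0 1 (qsf 67108864 469762048 0 536870912 1) ndN2q0 ndN5q0 pcN1 Cut.none Ext.none)

def k0_mm_001 : ∃ t, chk3 f_mm_001 t 1 1 1 = true :=
  ⟨(l 4), by decide +kernel⟩

theorem c_mm_001 : CertNX 67108864 469762048 0 536870912 1046898278 26843546 3 true false false .up 0 0 1
    ndN2q0 ndN5q0 pcN1 Cut.none Ext.none :=
  certNX0 (fam := true) (s1 := false) (s2 := false) (a := 0) (b := 0) (c := 1) (cn := .up) (n1 := ndN2q0) (n2 := ndN5q0) (pc := pcN1) (cut := Cut.none) (xt := Ext.none) (P1 := 67108864) (W1 := 469762048) (P2 := 0) (W2 := 536870912) (P3 := 1046898278) (W3 := 26843546) (N0 := 3)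
    rfl k0_mm_001

noncomputable def f_mm_011 : ℕ → ℕ → ℕ → ℕ → Bool := onCell 67108864 469762048 536870912 469762048 1046898278 26843546
    (rowNX 3 0 true false false .pnn 0 1 1 (qsf 67108864 469762048 536870912 469762048 1) ndN2q0 ndN5q1 pcN1 Cut.none Ext.none)

def k0_mm_011 : ∃ t, chk3 f_mm_011 t 1 1 1 = true :=
  ⟨(l 4), by decide +kernel⟩

theorem c_mm_011 : CertNX 67108864 469762048 536870912 469762048 1046898278 26843546 3 true false false .pnn 0 1 1
    ndN2q0 ndN5q1 pcN1 Cut.none Ext.none :=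
  certNX0 (fam := true) (s1 := false) (s2 := false) (a := 0) (b := 1) (c := 1) (cn := .pnn) (n1 := ndN2q0) (n2 := ndN5q1) (pc := pcN1) (cut := Cut.none) (xt := Ext.none) (P1 := 67108864) (W1 := 469762048) (P2 := 536870912) (W2 := 469762048) (P3 := 1046898278) (W3 := 26843546) (N0 := 3)
    rfl k0_mm_011

noncomputable def f_mm_012 : ℕ → ℕ → ℕ → ℕ → Bool := onCell 67108864 469762048 536870912 469762048 1046898278 26843546
    (rowNX 3 0 true false false .pnp 0 1 2 (qsf 67108864 469762048 536870912 469762048 2) ndN2q0 ndN5q1 pcN2 Cut.none Ext.none)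

def k0_mm_012 : ∃ t, chk3 f_mm_012 t 1 1 1 = true :=
  ⟨(l 4), by decide +kernel⟩

theorem c_mm_012 : CertNX 67108864 469762048 536870912 469762048 1046898278 26843546 3 true false false .pnp 0 1 2
    ndN2q0 ndN5q1 pcN2 Cut.none Ext.none :=
  certNX0 (fam := true) (s1 := false) (s2 := false) (a := 0) (b := 1) (c := 2) (cn := .pnp) (n1 := ndN2q0) (n2 := ndN5q1) (pc := pcN2) (cut := Cut.none) (xt := Ext.none) (P1 := 67108864) (W1 := 469762048) (P2 := 536870912) (W2 := 469762048) (P3 := 1046898278) (W3 := 26843546) (N0 := 3)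
    rfl k0_mm_012

noncomputable def f_mm_022 : ℕ → ℕ → ℕ → ℕ → Bool := onCell 67108864 469762048 1073741824 536870912 1046898278 26843546
    (rowNX 3 0 true false false .pp 0 2 2 (qsf 67108864 469762048 1073741824 536870912 2) ndN2q0 ndN5q2 pcN2 Cut.none Ext.none)

def k0_mm_022 : ∃ t, chk3 f_mm_022 t 1 1 1 = true :=
  ⟨(l 4), by decide +kernel⟩

theorem c_mm_022 : CertNX 67108864 469762048 1073741824 536870912 1046898278 26843546 3 true false false .pp 0 2 2
    ndN2q0 ndN5q2 pcN2 Cut.none Ext.none :=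
  certNX0 (fam := true) (s1 := false) (s2 := false) (a := 0) (b := 2) (c := 2) (cn := .pp) (n1 := ndN2q0) (n2 := ndN5q2) (pc := pcN2) (cut := Cut.none) (xt := Ext.none) (P1 := 67108864) (W1 := 469762048) (P2 := 1073741824) (W2 := 536870912) (P3 := 1046898278) (W3 := 26843546) (N0 := 3)
    rfl k0_mm_022

noncomputable def f_mm_023 : ℕ → ℕ → ℕ → ℕ → Bool := onCell 67108864 469762048 1073741824 536870912 1046898278 26843546
    (rowNX 3 0 true false false .up 0 2 3 (qsf 67108864 469762048 1073741824 536870912 3) ndN2q0 ndN5q2 pcN3 Cut.none Ext.none)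

def k0_mm_023 : ∃ t, chk3 f_mm_023 t 1 1 1 = true :=
  ⟨(l 4), by decide +kernel⟩

theorem c_mm_023 : CertNX 67108864 469762048 1073741824 536870912 1046898278 26843546 3 true false false .up 0 2 3
    ndN2q0 ndN5q2 pcN3 Cut.none Ext.none :=
  certNX0 (fam := true) (s1 := false) (s2 := false) (a := 0) (b := 2) (c := 3) (cn := .up) (n1 := ndN2q0) (n2 := ndN5q2) (pc := pcN3) (cut := Cut.none) (xt := Ext.none) (P1 := 67108864) (W1 := 469762048) (P2 := 1073741824) (W2 := 536870912) (P3 := 1046898278) (W3 := 26843546) (N0 := 3)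
    rfl k0_mm_023

noncomputable def f_mm_033 : ℕ → ℕ → ℕ → ℕ → Bool := onCell 67108864 469762048 0 1230186008 1046898278 26843546
    (rowNX 3 0 true false false .pnn 0 3 3 (qsf 67108864 469762048 0 1230186008 3) ndN2q0 ndN5q3 pcN3 Cut.none Ext.none)

def k0_mm_033 : ∃ t, chk3 f_mm_033 t 1 1 1 = true :=
  ⟨(l 5), by decide +kernel⟩

theorem c_mm_033 : CertNX 67108864 469762048 0 1230186008 1046898278 26843546 3 true false false .pnn 0 3 3
    ndN2q0 ndN5q3 pcN3 Cut.none Ext.none :=
  certNX0 (fam := true) (s1 := false) (s2 := false) (a := 0) (b := 3) (c := 3) (cn := .pnn) (n1 := ndN2q0) (n2 := ndN5q3) (pc := pcN3) (cut := Cut.none) (xt := Ext.none) (P1 := 67108864) (W1 := 469762048) (P2 := 0) (W2 := 1230186008) (P3 := 1046898278) (W3 := 26843546) (N0 := 3)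
    rfl k0_mm_033

noncomputable def f_mm_101 : ℕ → ℕ → ℕ → ℕ → Bool := onCell 536870912 536870912 0 536870912 1046898278 26843546
    (rowNX 3 0 true false false .npn 1 0 1 (qsf 536870912 536870912 0 536870912 1) ndN2q1 ndN5q0 pcN1 Cut.none Ext.none)

def k0_mm_101 : ∃ t, chk3 f_mm_101 t 1 1 1 = true :=
  ⟨(l 4), by decide +kernel⟩

theorem c_mm_101 : CertNX 536870912 536870912 0 536870912 1046898278 26843546 3 true false false .npn 1 0 1
    ndN2q1 ndN5q0 pcN1 Cut.none Ext.none :=
  certNX0 (fam := true) (s1 := false) (s2 := false) (a := 1) (b := 0) (c := 1) (cn := .npn) (n1 := ndN2q1) (n2 := ndN5q0) (pc := pcN1) (cut := Cut.none) (xt := Ext.none) (P1 := 536870912) (W1 := 536870912) (P2 := 0) (W2 := 536870912) (P3 := 1046898278) (W3 := 26843546) (N0 := 3)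
    rfl k0_mm_101

noncomputable def f_mm_102 : ℕ → ℕ → ℕ → ℕ → Bool := onCell 536870912 536870912 0 536870912 1046898278 26843546
    (rowNX 3 0 true false false .npp 1 0 2 (qsf 536870912 536870912 0 536870912 2) ndN2q1 ndN5q0 pcN2 Cut.none Ext.none)

def k0_mm_102 : ∃ t, chk3 f_mm_102 t 1 1 1 = true :=
  ⟨(l 4), by decide +kernel⟩

theorem c_mm_102 : CertNX 536870912 536870912 0 536870912 1046898278 26843546 3 true false false .npp 1 0 2
    ndN2q1 ndN5q0 pcN2 Cut.none Ext.none :=
  certNX0 (fam := true) (s1 := false) (s2 := false) (a := 1) (b := 0) (c := 2) (cn := .npp) (n1 := ndN2q1) (n2 := ndN5q0) (pc := pcN2) (cut := Cut.none) (xt := Ext.none) (P1 := 536870912) (W1 := 536870912) (P2 := 0) (W2 := 536870912) (P3 := 1046898278) (W3 := 26843546) (N0 := 3)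
    rfl k0_mm_102

noncomputable def f_mm_112 : ℕ → ℕ → ℕ → ℕ → Bool := onCell 536870912 536870912 536870912 469762048 1046898278 26843546
    (rowNX 3 0 true false false .dn 1 1 2 (qsf 536870912 536870912 536870912 469762048 2) ndN2q1 ndN5q1 pcN2 Cut.none Ext.none)

def k0_mm_112 : ∃ t, chk3 f_mm_112 t 1 1 1 = true :=
  ⟨(l 4), by decide +kernel⟩

theorem c_mm_112 : CertNX 536870912 536870912 536870912 469762048 1046898278 26843546 3 true false false .dn 1 1 2
    ndN2q1 ndN5q1 pcN2 Cut.none Ext.none :=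
  certNX0 (fam := true) (s1 := false) (s2 := false) (a := 1) (b := 1) (c := 2) (cn := .dn) (n1 := ndN2q1) (n2 := ndN5q1) (pc := pcN2) (cut := Cut.none) (xt := Ext.none) (P1 := 536870912) (W1 := 536870912) (P2 := 536870912) (W2 := 469762048) (P3 := 1046898278) (W3 := 26843546) (N0 := 3)
    rfl k0_mm_112

noncomputable def f_mm_113 : ℕ → ℕ → ℕ → ℕ → Bool := onCell 536870912 536870912 536870912 469762048 1046898278 26843546
    (rowNX 3 0 true false false .nn 1 1 3 (qsf 536870912 536870912 536870912 469762048 3) ndN2q1 ndN5q1 pcN3 Cut.none Ext.none)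

def k0_mm_113 : ∃ t, chk3 f_mm_113 t 1 1 1 = true :=
  ⟨(l 4), by decide +kernel⟩

theorem c_mm_113 : CertNX 536870912 536870912 536870912 469762048 1046898278 26843546 3 true false false .nn 1 1 3
    ndN2q1 ndN5q1 pcN3 Cut.none Ext.none :=
  certNX0 (fam := true) (s1 := false) (s2 := false) (a := 1) (b := 1) (c := 3) (cn := .nn) (n1 := ndN2q1) (n2 := ndN5q1) (pc := pcN3) (cut := Cut.none) (xt := Ext.none) (P1 := 536870912) (W1 := 536870912) (P2 := 536870912) (W2 := 469762048) (P3 := 1046898278) (W3 := 26843546) (N0 := 3)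
    rfl k0_mm_113

noncomputable def f_mm_123 : ℕ → ℕ → ℕ → ℕ → Bool := onCell 536870912 536870912 1073741824 536870912 1046898278 26843546
    (rowNX 3 0 true false false .npn 1 2 3 (qsf 536870912 536870912 1073741824 536870912 3) ndN2q1 ndN5q2 pcN3 Cut.none Ext.none)

def k0_mm_123 : ∃ t, chk3 f_mm_123 t 1 1 1 = true :=
  ⟨(l 4), by decide +kernel⟩

theorem c_mm_123 : CertNX 536870912 536870912 1073741824 536870912 1046898278 26843546 3 true false false .npn 1 2 3
    ndN2q1 ndN5q2 pcN3 Cut.none Ext.none :=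
  certNX0 (fam := true) (s1 := false) (s2 := false) (a := 1) (b := 2) (c := 3) (cn := .npn) (n1 := ndN2q1) (n2 := ndN5q2) (pc := pcN3) (cut := Cut.none) (xt := Ext.none) (P1 := 536870912) (W1 := 536870912) (P2 := 1073741824) (W2 := 536870912) (P3 := 1046898278) (W3 := 26843546) (N0 := 3)
    rfl k0_mm_123

noncomputable def f_mm_133 : ℕ → ℕ → ℕ → ℕ → Bool := onCell 536870912 536870912 0 1230186008 1046898278 26843546
    (rowNX 3 0 true false false .dn 1 3 3 (qsf 536870912 536870912 0 1230186008 3) ndN2q1 ndN5q3 pcN3 Cut.none Ext.none)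

def k0_mm_133 : ∃ t, chk3 f_mm_133 t 1 1 1 = true :=
  ⟨(l 4), by decide +kernel⟩

theorem c_mm_133 : CertNX 536870912 536870912 0 1230186008 1046898278 26843546 3 true false false .dn 1 3 3
    ndN2q1 ndN5q3 pcN3 Cut.none Ext.none :=
  certNX0 (fam := true) (s1 := false) (s2 := false) (a := 1) (b := 3) (c := 3) (cn := .dn) (n1 := ndN2q1) (n2 := ndN5q3) (pc := pcN3) (cut := Cut.none) (xt := Ext.none) (P1 := 536870912) (W1 := 536870912) (P2 := 0) (W2 := 1230186008) (P3 := 1046898278) (W3 := 26843546) (N0 := 3)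
    rfl k0_mm_133

noncomputable def f_mm_202_a : ℕ → ℕ → ℕ → ℕ → Bool := onCell 0 420477299 0 536870912 1046898278 26843546
    (rowNX 3 0 true false false .pp 2 0 2 (qsf 0 420477299 0 536870912 2) ndN2q2a ndN5q0 pcN2 Cut.none Ext.none)

def k0_mm_202_a : ∃ t, chk3 f_mm_202_a t 1 1 1 = true :=
  ⟨(b (b (a (b (b (a (a (b (b (c (l 16084816) (b (l 15874608) (l 15897536))) (l 4)) (l 4)) (l 4)) (l 4)) (l 4)) (l 4)) (l 4)) (l 4)) (l 4)), by decide +kernel⟩

theorem c_mm_202_a : CertNX 0 420477299 0 536870912 1046898278 26843546 3 true false false .pp 2 0 2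
    ndN2q2a ndN5q0 pcN2 Cut.none Ext.none :=
  certNX0 (fam := true) (s1 := false) (s2 := false) (a := 2) (b := 0) (c := 2) (cn := .pp) (n1 := ndN2q2a) (n2 := ndN5q0) (pc := pcN2) (cut := Cut.none) (xt := Ext.none) (P1 := 0) (W1 := 420477299) (P2 := 0) (W2 := 536870912) (P3 := 1046898278) (W3 := 26843546) (N0 := 3)
    rfl k0_mm_202_a

noncomputable def f_mm_202_b : ℕ → ℕ → ℕ → ℕ → Bool := onCell 1239849684 370763052 0 536870912 1046898278 26843546
    (rowNX 3 0 true false false .pp 2 0 2 (qsf 1239849684 370763052 0 536870912 2) ndN2q2b ndN5q0 pcN2 Cut.none Ext.none)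

def k0_mm_202_b : ∃ t, chk3 f_mm_202_b t 1 1 1 = true :=
  ⟨(b (b (a (b (a (b (a (a (b (b (c (l 16217384) (b (a (l 15932360) (l 16167664)) (c (l 16295672) (l 16290608)))) (l 4)) (l 4)) (l 4)) (l 4)) (l 4)) (l 4)) (l 4)) (l 4)) (l 4)) (l 4)), by decide +kernel⟩

theorem c_mm_202_b : CertNX 1239849684 370763052 0 536870912 1046898278 26843546 3 true false false .pp 2 0 2
    ndN2q2b ndN5q0 pcN2 Cut.none Ext.none :=
  certNX0 (fam := true) (s1 := false) (s2 := false) (a := 2) (b := 0) (c := 2) (cn := .pp) (n1 := ndN2q2b) (n2 := ndN5q0) (pc := pcN2) (cut := Cut.none) (xt := Ext.none) (P1 := 1239849684) (W1 := 370763052) (P2 := 0) (W2 := 536870912) (P3 := 1046898278) (W3 := 26843546) (N0 := 3)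
    rfl k0_mm_202_b

noncomputable def f_mm_203_a : ℕ → ℕ → ℕ → ℕ → Bool := onCell 0 420477299 1610612736 536870912 1046898278 26843546
    (rowNX 3 1 true false false .up 2 0 3 (qsf 0 420477299 0 536870912 3) ndN2q2a ndN5q0 pcN3 Cut.none Ext.none)

def k0_mm_203_a : ∃ t, chk3 f_mm_203_a t 1 1 1 = true :=
  ⟨(l 4), by decide +kernel⟩

theorem c_mm_203_a : CertNX 0 420477299 0 536870912 1046898278 26843546 3 true false false .up 2 0 3
    ndN2q2a ndN5q0 pcN3 Cut.none Ext.none :=
  certNX1 (fam := true) (s1 := false) (s2 := false) (a := 2) (b := 0) (c := 3) (cn := .up) (n1 := ndN2q2a) (n2 := ndN5q0) (pc := pcN3) (cut := Cut.none) (xt := Ext.none) (P1 := 0) (W1 := 420477299) (P2 := 0) (W2 := 536870912) (P3 := 1046898278) (W3 := 26843546) (N0 := 3)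
    rfl (fun _ => rfl) k0_mm_203_a

noncomputable def f_mm_203_b : ℕ → ℕ → ℕ → ℕ → Bool := onCell 1239849684 370763052 1610612736 536870912 1046898278 26843546
    (rowNX 3 1 true false false .up 2 0 3 (qsf 1239849684 370763052 0 536870912 3) ndN2q2b ndN5q0 pcN3 Cut.none Ext.none)

def k0_mm_203_b : ∃ t, chk3 f_mm_203_b t 1 1 1 = true :=
  ⟨(l 4), by decide +kernel⟩

theorem c_mm_203_b : CertNX 1239849684 370763052 0 536870912 1046898278 26843546 3 true false false .up 2 0 3
    ndN2q2b ndN5q0 pcN3 Cut.none Ext.none :=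
  certNX1 (fam := true) (s1 := false) (s2 := false) (a := 2) (b := 0) (c := 3) (cn := .up) (n1 := ndN2q2b) (n2 := ndN5q0) (pc := pcN3) (cut := Cut.none) (xt := Ext.none) (P1 := 1239849684) (W1 := 370763052) (P2 := 0) (W2 := 536870912) (P3 := 1046898278) (W3 := 26843546) (N0 := 3)
    rfl (fun _ => rfl) k0_mm_203_b

noncomputable def f_mm_213_a : ℕ → ℕ → ℕ → ℕ → Bool := onCell 0 420477299 536870912 469762048 1046898278 26843546
    (rowNX 3 0 true false false .pnn 2 1 3 (qsf 0 420477299 536870912 469762048 3) ndN2q2a ndN5q1 pcN3 Cut.none Ext.none)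

def k0_mm_213_a : ∃ t, chk3 f_mm_213_a t 1 1 1 = true :=
  ⟨(l 4), by decide +kernel⟩

theorem c_mm_213_a : CertNX 0 420477299 536870912 469762048 1046898278 26843546 3 true false false .pnn 2 1 3
    ndN2q2a ndN5q1 pcN3 Cut.none Ext.none :=
  certNX0 (fam := true) (s1 := false) (s2 := false) (a := 2) (b := 1) (c := 3) (cn := .pnn) (n1 := ndN2q2a) (n2 := ndN5q1) (pc := pcN3) (cut := Cut.none) (xt := Ext.none) (P1 := 0) (W1 := 420477299) (P2 := 536870912) (W2 := 469762048) (P3 := 1046898278) (W3 := 26843546) (N0 := 3)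
    rfl k0_mm_213_a

noncomputable def f_mm_213_b : ℕ → ℕ → ℕ → ℕ → Bool := onCell 1239849684 370763052 536870912 469762048 1046898278 26843546
    (rowNX 3 0 true false false .pnn 2 1 3 (qsf 1239849684 370763052 536870912 469762048 3) ndN2q2b ndN5q1 pcN3 Cut.none Ext.none)

def k0_mm_213_b : ∃ t, chk3 f_mm_213_b t 1 1 1 = true :=
  ⟨(l 4), by decide +kernel⟩

theorem c_mm_213_b : CertNX 1239849684 370763052 536870912 469762048 1046898278 26843546 3 true false false .pnn 2 1 3
    ndN2q2b ndN5q1 pcN3 Cut.none Ext.none :=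
  certNX0 (fam := true) (s1 := false) (s2 := false) (a := 2) (b := 1) (c := 3) (cn := .pnn) (n1 := ndN2q2b) (n2 := ndN5q1) (pc := pcN3) (cut := Cut.none) (xt := Ext.none) (P1 := 1239849684) (W1 := 370763052) (P2 := 536870912) (W2 := 469762048) (P3 := 1046898278) (W3 := 26843546) (N0 := 3)
    rfl k0_mm_213_b

noncomputable def f_mm_303 : ℕ → ℕ → ℕ → ℕ → Bool := onCell 1610612736 469762048 0 536870912 1046898278 26843546
    (rowNX 3 0 true false false .npn 3 0 3 (qsf 1610612736 469762048 0 536870912 3) ndN2q3 ndN5q0 pcN3 Cut.none Ext.none)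

def k0_mm_303 : ∃ t, chk3 f_mm_303 t 1 1 1 = true :=
  ⟨(l 4), by decide +kernel⟩

theorem c_mm_303 : CertNX 1610612736 469762048 0 536870912 1046898278 26843546 3 true false false .npn 3 0 3
    ndN2q3 ndN5q0 pcN3 Cut.none Ext.none :=
  certNX0 (fam := true) (s1 := false) (s2 := false) (a := 3) (b := 0) (c := 3) (cn := .npn) (n1 := ndN2q3) (n2 := ndN5q0) (pc := pcN3) (cut := Cut.none) (xt := Ext.none) (P1 := 1610612736) (W1 := 469762048) (P2 := 0) (W2 := 536870912) (P3 := 1046898278) (W3 := 26843546) (N0 := 3)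
    rfl k0_mm_303

noncomputable def f_mm_313 : ℕ → ℕ → ℕ → ℕ → Bool := onCell 1610612736 469762048 536870912 469762048 1046898278 26843546
    (rowNX 3 0 true false false .dn 3 1 3 (qsf 1610612736 469762048 536870912 469762048 3) ndN2q3 ndN5q1 pcN3 Cut.none Ext.none)

def k0_mm_313 : ∃ t, chk3 f_mm_313 t 1 1 1 = true :=
  ⟨(l 4), by decide +kernel⟩

theorem c_mm_313 : CertNX 1610612736 469762048 536870912 469762048 1046898278 26843546 3 true false false .dn 3 1 3
    ndN2q3 ndN5q1 pcN3 Cut.none Ext.none :=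
  certNX0 (fam := true) (s1 := false) (s2 := false) (a := 3) (b := 1) (c := 3) (cn := .dn) (n1 := ndN2q3) (n2 := ndN5q1) (pc := pcN3) (cut := Cut.none) (xt := Ext.none) (P1 := 1610612736) (W1 := 469762048) (P2 := 536870912) (W2 := 469762048) (P3 := 1046898278) (W3 := 26843546) (N0 := 3)
    rfl k0_mm_313

end Pool.Agent.Strip051.G.IE1.Tab.C.NA25

namespace Pool.Agent.Strip051.G.IE1.Tab.C.NA26

open Pool.Agent.Strip051.PB Pool.Agent.Strip051.PB.T
open Pool.Agent.Strip051.G.IE1.Tab

noncomputable def f_pp_001 : ℕ → ℕ → ℕ → ℕ → Bool := onCell 67108864 469762048 0 536870912 1046898278 26843546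
    (rowNX 3 0 true true true .up 0 0 1 (qsf 67108864 469762048 0 536870912 1) ndN2q0 ndN6q0 pcN1 Cut.none Ext.none)

def k0_pp_001 : ∃ t, chk3 f_pp_001 t 1 1 1 = true :=
  ⟨(l 4), by decide +kernel⟩

theorem c_pp_001 : CertNX 67108864 469762048 0 536870912 1046898278 26843546 3 true true true .up 0 0 1
    ndN2q0 ndN6q0 pcN1 Cut.none Ext.none :=
  certNX0 (fam := true) (s1 := true) (s2 := true) (a := 0) (b := 0) (c := 1) (cn := .up) (n1 := ndN2q0) (n2 := ndN6q0) (pc := pcN1) (cut := Cut.none) (xt := Ext.none) (P1 := 67108864) (W1 := 469762048) (P2 := 0) (W2 := 536870912) (P3 := 1046898278) (W3 := 26843546) (N0 := 3)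
    rfl k0_pp_001

noncomputable def f_pp_011 : ℕ → ℕ → ℕ → ℕ → Bool := onCell 67108864 469762048 536870912 469762048 1046898278 26843546
    (rowNX 3 0 true true true .pnn 0 1 1 (qsf 67108864 469762048 536870912 469762048 1) ndN2q0 ndN6q1 pcN1 Cut.none Ext.none)

def k0_pp_011 : ∃ t, chk3 f_pp_011 t 1 1 1 = true :=
  ⟨(l 4), by decide +kernel⟩

theorem c_pp_011 : CertNX 67108864 469762048 536870912 469762048 1046898278 26843546 3 true true true .pnn 0 1 1
    ndN2q0 ndN6q1 pcN1 Cut.none Ext.none :=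
  certNX0 (fam := true) (s1 := true) (s2 := true) (a := 0) (b := 1) (c := 1) (cn := .pnn) (n1 := ndN2q0) (n2 := ndN6q1) (pc := pcN1) (cut := Cut.none) (xt := Ext.none) (P1 := 67108864) (W1 := 469762048) (P2 := 536870912) (W2 := 469762048) (P3 := 1046898278) (W3 := 26843546) (N0 := 3)
    rfl k0_pp_011

noncomputable def f_pp_012 : ℕ → ℕ → ℕ → ℕ → Bool := onCell 67108864 469762048 536870912 469762048 1046898278 26843546
    (rowNX 3 0 true true true .pnp 0 1 2 (qsf 67108864 469762048 536870912 469762048 2) ndN2q0 ndN6q1 pcN2 Cut.none Ext.none)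

def k0_pp_012 : ∃ t, chk3 f_pp_012 t 1 1 1 = true :=
  ⟨(l 4), by decide +kernel⟩

theorem c_pp_012 : CertNX 67108864 469762048 536870912 469762048 1046898278 26843546 3 true true true .pnp 0 1 2
    ndN2q0 ndN6q1 pcN2 Cut.none Ext.none :=
  certNX0 (fam := true) (s1 := true) (s2 := true) (a := 0) (b := 1) (c := 2) (cn := .pnp) (n1 := ndN2q0) (n2 := ndN6q1) (pc := pcN2) (cut := Cut.none) (xt := Ext.none) (P1 := 67108864) (W1 := 469762048) (P2 := 536870912) (W2 := 469762048) (P3 := 1046898278) (W3 := 26843546) (N0 := 3)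
    rfl k0_pp_012

noncomputable def f_pp_022 : ℕ → ℕ → ℕ → ℕ → Bool := onCell 67108864 469762048 1073741824 536870912 1046898278 26843546
    (rowNX 3 0 true true true .pp 0 2 2 (qsf 67108864 469762048 1073741824 536870912 2) ndN2q0 ndN6q2 pcN2 Cut.none Ext.none)

def k0_pp_022 : ∃ t, chk3 f_pp_022 t 1 1 1 = true :=
  ⟨(l 4), by decide +kernel⟩

theorem c_pp_022 : CertNX 67108864 469762048 1073741824 536870912 1046898278 26843546 3 true true true .pp 0 2 2
    ndN2q0 ndN6q2 pcN2 Cut.none Ext.none :=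
  certNX0 (fam := true) (s1 := true) (s2 := true) (a := 0) (b := 2) (c := 2) (cn := .pp) (n1 := ndN2q0) (n2 := ndN6q2) (pc := pcN2) (cut := Cut.none) (xt := Ext.none) (P1 := 67108864) (W1 := 469762048) (P2 := 1073741824) (W2 := 536870912) (P3 := 1046898278) (W3 := 26843546) (N0 := 3)
    rfl k0_pp_022

noncomputable def f_pp_023 : ℕ → ℕ → ℕ → ℕ → Bool := onCell 67108864 469762048 1073741824 536870912 1046898278 26843546
    (rowNX 3 0 true true true .up 0 2 3 (qsf 67108864 469762048 1073741824 536870912 3) ndN2q0 ndN6q2 pcN3 Cut.none Ext.none)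

def k0_pp_023 : ∃ t, chk3 f_pp_023 t 1 1 1 = true :=
  ⟨(l 4), by decide +kernel⟩

theorem c_pp_023 : CertNX 67108864 469762048 1073741824 536870912 1046898278 26843546 3 true true true .up 0 2 3
    ndN2q0 ndN6q2 pcN3 Cut.none Ext.none :=
  certNX0 (fam := true) (s1 := true) (s2 := true) (a := 0) (b := 2) (c := 3) (cn := .up) (n1 := ndN2q0) (n2 := ndN6q2) (pc := pcN3) (cut := Cut.none) (xt := Ext.none) (P1 := 67108864) (W1 := 469762048) (P2 := 1073741824) (W2 := 536870912) (P3 := 1046898278) (W3 := 26843546) (N0 := 3)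
    rfl k0_pp_023

noncomputable def f_pp_033 : ℕ → ℕ → ℕ → ℕ → Bool := onCell 67108864 469762048 0 1230186008 1046898278 26843546
    (rowNX 3 0 true true true .pnn 0 3 3 (qsf 67108864 469762048 0 1230186008 3) ndN2q0 ndN6q3 pcN3 Cut.none Ext.none)

def k0_pp_033 : ∃ t, chk3 f_pp_033 t 1 1 1 = true :=
  ⟨(b (l 4) (l 4)), by decide +kernel⟩

theorem c_pp_033 : CertNX 67108864 469762048 0 1230186008 1046898278 26843546 3 true true true .pnn 0 3 3
    ndN2q0 ndN6q3 pcN3 Cut.none Ext.none :=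
  certNX0 (fam := true) (s1 := true) (s2 := true) (a := 0) (b := 3) (c := 3) (cn := .pnn) (n1 := ndN2q0) (n2 := ndN6q3) (pc := pcN3) (cut := Cut.none) (xt := Ext.none) (P1 := 67108864) (W1 := 469762048) (P2 := 0) (W2 := 1230186008) (P3 := 1046898278) (W3 := 26843546) (N0 := 3)
    rfl k0_pp_033

noncomputable def f_pp_101 : ℕ → ℕ → ℕ → ℕ → Bool := onCell 536870912 536870912 0 536870912 1046898278 26843546
    (rowNX 3 0 true true true .npn 1 0 1 (qsf 536870912 536870912 0 536870912 1) ndN2q1 ndN6q0 pcN1 Cut.none Ext.none)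

def k0_pp_101 : ∃ t, chk3 f_pp_101 t 1 1 1 = true :=
  ⟨(l 4), by decide +kernel⟩

theorem c_pp_101 : CertNX 536870912 536870912 0 536870912 1046898278 26843546 3 true true true .npn 1 0 1
    ndN2q1 ndN6q0 pcN1 Cut.none Ext.none :=
  certNX0 (fam := true) (s1 := true) (s2 := true) (a := 1) (b := 0) (c := 1) (cn := .npn) (n1 := ndN2q1) (n2 := ndN6q0) (pc := pcN1) (cut := Cut.none) (xt := Ext.none) (P1 := 536870912) (W1 := 536870912) (P2 := 0) (W2 := 536870912) (P3 := 1046898278) (W3 := 26843546) (N0 := 3)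
    rfl k0_pp_101

noncomputable def f_pp_102 : ℕ → ℕ → ℕ → ℕ → Bool := onCell 536870912 536870912 0 536870912 1046898278 26843546
    (rowNX 3 0 true true true .npp 1 0 2 (qsf 536870912 536870912 0 536870912 2) ndN2q1 ndN6q0 pcN2 Cut.none Ext.none)

def k0_pp_102 : ∃ t, chk3 f_pp_102 t 1 1 1 = true :=
  ⟨(l 4), by decide +kernel⟩

theorem c_pp_102 : CertNX 536870912 536870912 0 536870912 1046898278 26843546 3 true true true .npp 1 0 2
    ndN2q1 ndN6q0 pcN2 Cut.none Ext.none :=
  certNX0 (fam := true) (s1 := true) (s2 := true) (a := 1) (b := 0) (c := 2) (cn := .npp) (n1 := ndN2q1) (n2 := ndN6q0) (pc := pcN2) (cut := Cut.none) (xt := Ext.none) (P1 := 536870912) (W1 := 536870912) (P2 := 0) (W2 := 536870912) (P3 := 1046898278) (W3 := 26843546) (N0 := 3)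
    rfl k0_pp_102

noncomputable def f_pp_112 : ℕ → ℕ → ℕ → ℕ → Bool := onCell 536870912 536870912 536870912 469762048 1046898278 26843546
    (rowNX 3 0 true true true .dn 1 1 2 (qsf 536870912 536870912 536870912 469762048 2) ndN2q1 ndN6q1 pcN2 Cut.none Ext.none)

def k0_pp_112 : ∃ t, chk3 f_pp_112 t 1 1 1 = true :=
  ⟨(l 4), by decide +kernel⟩

theorem c_pp_112 : CertNX 536870912 536870912 536870912 469762048 1046898278 26843546 3 true true true .dn 1 1 2
    ndN2q1 ndN6q1 pcN2 Cut.none Ext.none :=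
  certNX0 (fam := true) (s1 := true) (s2 := true) (a := 1) (b := 1) (c := 2) (cn := .dn) (n1 := ndN2q1) (n2 := ndN6q1) (pc := pcN2) (cut := Cut.none) (xt := Ext.none) (P1 := 536870912) (W1 := 536870912) (P2 := 536870912) (W2 := 469762048) (P3 := 1046898278) (W3 := 26843546) (N0 := 3)
    rfl k0_pp_112

noncomputable def f_pp_113 : ℕ → ℕ → ℕ → ℕ → Bool := onCell 536870912 536870912 536870912 469762048 1046898278 26843546
    (rowNX 3 0 true true true .nn 1 1 3 (qsf 536870912 536870912 536870912 469762048 3) ndN2q1 ndN6q1 pcN3 Cut.none Ext.none)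

def k0_pp_113 : ∃ t, chk3 f_pp_113 t 1 1 1 = true :=
  ⟨(l 4), by decide +kernel⟩

theorem c_pp_113 : CertNX 536870912 536870912 536870912 469762048 1046898278 26843546 3 true true true .nn 1 1 3
    ndN2q1 ndN6q1 pcN3 Cut.none Ext.none :=
  certNX0 (fam := true) (s1 := true) (s2 := true) (a := 1) (b := 1) (c := 3) (cn := .nn) (n1 := ndN2q1) (n2 := ndN6q1) (pc := pcN3) (cut := Cut.none) (xt := Ext.none) (P1 := 536870912) (W1 := 536870912) (P2 := 536870912) (W2 := 469762048) (P3 := 1046898278) (W3 := 26843546) (N0 := 3)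
    rfl k0_pp_113

noncomputable def f_pp_123 : ℕ → ℕ → ℕ → ℕ → Bool := onCell 536870912 536870912 1073741824 536870912 1046898278 26843546
    (rowNX 3 0 true true true .npn 1 2 3 (qsf 536870912 536870912 1073741824 536870912 3) ndN2q1 ndN6q2 pcN3 Cut.none Ext.none)

def k0_pp_123 : ∃ t, chk3 f_pp_123 t 1 1 1 = true :=
  ⟨(l 4), by decide +kernel⟩

theorem c_pp_123 : CertNX 536870912 536870912 1073741824 536870912 1046898278 26843546 3 true true true .npn 1 2 3
    ndN2q1 ndN6q2 pcN3 Cut.none Ext.none :=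
  certNX0 (fam := true) (s1 := true) (s2 := true) (a := 1) (b := 2) (c := 3) (cn := .npn) (n1 := ndN2q1) (n2 := ndN6q2) (pc := pcN3) (cut := Cut.none) (xt := Ext.none) (P1 := 536870912) (W1 := 536870912) (P2 := 1073741824) (W2 := 536870912) (P3 := 1046898278) (W3 := 26843546) (N0 := 3)
    rfl k0_pp_123

noncomputable def f_pp_133 : ℕ → ℕ → ℕ → ℕ → Bool := onCell 536870912 536870912 0 1230186008 1046898278 26843546
    (rowNX 3 0 true true true .dn 1 3 3 (qsf 536870912 536870912 0 1230186008 3) ndN2q1 ndN6q3 pcN3 Cut.none Ext.none)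

def k0_pp_133 : ∃ t, chk3 f_pp_133 t 1 1 1 = true :=
  ⟨(l 4), by decide +kernel⟩

theorem c_pp_133 : CertNX 536870912 536870912 0 1230186008 1046898278 26843546 3 true true true .dn 1 3 3
    ndN2q1 ndN6q3 pcN3 Cut.none Ext.none :=
  certNX0 (fam := true) (s1 := true) (s2 := true) (a := 1) (b := 3) (c := 3) (cn := .dn) (n1 := ndN2q1) (n2 := ndN6q3) (pc := pcN3) (cut := Cut.none) (xt := Ext.none) (P1 := 536870912) (W1 := 536870912) (P2 := 0) (W2 := 1230186008) (P3 := 1046898278) (W3 := 26843546) (N0 := 3)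
    rfl k0_pp_133

noncomputable def f_pp_202_a : ℕ → ℕ → ℕ → ℕ → Bool := onCell 0 420477299 0 536870912 1046898278 26843546
    (rowNX 3 0 true true true .pp 2 0 2 (qsf 0 420477299 0 536870912 2) ndN2q2a ndN6q0 pcN2 Cut.none Ext.none)

def k0_pp_202_a : ∃ t, chk3 f_pp_202_a t 1 1 1 = true :=
  ⟨(l 4), by decide +kernel⟩

theorem c_pp_202_a : CertNX 0 420477299 0 536870912 1046898278 26843546 3 true true true .pp 2 0 2
    ndN2q2a ndN6q0 pcN2 Cut.none Ext.none :=
  certNX0 (fam := true) (s1 := true) (s2 := true) (a := 2) (b := 0) (c := 2) (cn := .pp) (n1 := ndN2q2a) (n2 := ndN6q0) (pc := pcN2) (cut := Cut.none) (xt := Ext.none) (P1 := 0) (W1 := 420477299) (P2 := 0) (W2 := 536870912) (P3 := 1046898278) (W3 := 26843546) (N0 := 3)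
    rfl k0_pp_202_a

noncomputable def f_pp_202_b : ℕ → ℕ → ℕ → ℕ → Bool := onCell 1239849684 370763052 0 536870912 1046898278 26843546
    (rowNX 3 0 true true true .pp 2 0 2 (qsf 1239849684 370763052 0 536870912 2) ndN2q2b ndN6q0 pcN2 Cut.none Ext.none)

def k0_pp_202_b : ∃ t, chk3 f_pp_202_b t 1 1 1 = true :=
  ⟨(l 4), by decide +kernel⟩

theorem c_pp_202_b : CertNX 1239849684 370763052 0 536870912 1046898278 26843546 3 true true true .pp 2 0 2
    ndN2q2b ndN6q0 pcN2 Cut.none Ext.none :=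
  certNX0 (fam := true) (s1 := true) (s2 := true) (a := 2) (b := 0) (c := 2) (cn := .pp) (n1 := ndN2q2b) (n2 := ndN6q0) (pc := pcN2) (cut := Cut.none) (xt := Ext.none) (P1 := 1239849684) (W1 := 370763052) (P2 := 0) (W2 := 536870912) (P3 := 1046898278) (W3 := 26843546) (N0 := 3)
    rfl k0_pp_202_b

noncomputable def f_pp_203_a : ℕ → ℕ → ℕ → ℕ → Bool := onCell 0 420477299 0 536870912 1046898278 26843546
    (rowNX 3 0 true true true .up 2 0 3 (qsf 0 420477299 0 536870912 3) ndN2q2a ndN6q0 pcN3 Cut.none Ext.none)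

def k0_pp_203_a : ∃ t, chk3 f_pp_203_a t 1 1 1 = true :=
  ⟨(l 4), by decide +kernel⟩

theorem c_pp_203_a : CertNX 0 420477299 0 536870912 1046898278 26843546 3 true true true .up 2 0 3
    ndN2q2a ndN6q0 pcN3 Cut.none Ext.none :=
  certNX0 (fam := true) (s1 := true) (s2 := true) (a := 2) (b := 0) (c := 3) (cn := .up) (n1 := ndN2q2a) (n2 := ndN6q0) (pc := pcN3) (cut := Cut.none) (xt := Ext.none) (P1 := 0) (W1 := 420477299) (P2 := 0) (W2 := 536870912) (P3 := 1046898278) (W3 := 26843546) (N0 := 3)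
    rfl k0_pp_203_a

noncomputable def f_pp_203_b : ℕ → ℕ → ℕ → ℕ → Bool := onCell 1239849684 370763052 0 536870912 1046898278 26843546
    (rowNX 3 0 true true true .up 2 0 3 (qsf 1239849684 370763052 0 536870912 3) ndN2q2b ndN6q0 pcN3 Cut.none Ext.none)

def k0_pp_203_b : ∃ t, chk3 f_pp_203_b t 1 1 1 = true :=
  ⟨(l 4), by decide +kernel⟩

theorem c_pp_203_b : CertNX 1239849684 370763052 0 536870912 1046898278 26843546 3 true true true .up 2 0 3
    ndN2q2b ndN6q0 pcN3 Cut.none Ext.none :=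
  certNX0 (fam := true) (s1 := true) (s2 := true) (a := 2) (b := 0) (c := 3) (cn := .up) (n1 := ndN2q2b) (n2 := ndN6q0) (pc := pcN3) (cut := Cut.none) (xt := Ext.none) (P1 := 1239849684) (W1 := 370763052) (P2 := 0) (W2 := 536870912) (P3 := 1046898278) (W3 := 26843546) (N0 := 3)
    rfl k0_pp_203_b

noncomputable def f_pp_213_a : ℕ → ℕ → ℕ → ℕ → Bool := onCell 0 420477299 536870912 469762048 1046898278 26843546
    (rowNX 3 0 true true true .pnn 2 1 3 (qsf 0 420477299 536870912 469762048 3) ndN2q2a ndN6q1 pcN3 Cut.none Ext.none)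

def k0_pp_213_a : ∃ t, chk3 f_pp_213_a t 1 1 1 = true :=
  ⟨(l 4), by decide +kernel⟩

theorem c_pp_213_a : CertNX 0 420477299 536870912 469762048 1046898278 26843546 3 true true true .pnn 2 1 3
    ndN2q2a ndN6q1 pcN3 Cut.none Ext.none :=
  certNX0 (fam := true) (s1 := true) (s2 := true) (a := 2) (b := 1) (c := 3) (cn := .pnn) (n1 := ndN2q2a) (n2 := ndN6q1) (pc := pcN3) (cut := Cut.none) (xt := Ext.none) (P1 := 0) (W1 := 420477299) (P2 := 536870912) (W2 := 469762048) (P3 := 1046898278) (W3 := 26843546) (N0 := 3)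
    rfl k0_pp_213_a

noncomputable def f_pp_213_b : ℕ → ℕ → ℕ → ℕ → Bool := onCell 1239849684 370763052 536870912 469762048 1046898278 26843546
    (rowNX 3 0 true true true .pnn 2 1 3 (qsf 1239849684 370763052 536870912 469762048 3) ndN2q2b ndN6q1 pcN3 Cut.none Ext.none)

def k0_pp_213_b : ∃ t, chk3 f_pp_213_b t 1 1 1 = true :=
  ⟨(l 4), by decide +kernel⟩

theorem c_pp_213_b : CertNX 1239849684 370763052 536870912 469762048 1046898278 26843546 3 true true true .pnn 2 1 3
    ndN2q2b ndN6q1 pcN3 Cut.none Ext.none :=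
  certNX0 (fam := true) (s1 := true) (s2 := true) (a := 2) (b := 1) (c := 3) (cn := .pnn) (n1 := ndN2q2b) (n2 := ndN6q1) (pc := pcN3) (cut := Cut.none) (xt := Ext.none) (P1 := 1239849684) (W1 := 370763052) (P2 := 536870912) (W2 := 469762048) (P3 := 1046898278) (W3 := 26843546) (N0 := 3)
    rfl k0_pp_213_b

noncomputable def f_pp_303 : ℕ → ℕ → ℕ → ℕ → Bool := onCell 1610612736 469762048 0 536870912 1046898278 26843546
    (rowNX 3 0 true true true .npn 3 0 3 (qsf 1610612736 469762048 0 536870912 3) ndN2q3 ndN6q0 pcN3 Cut.none Ext.none)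

def k0_pp_303 : ∃ t, chk3 f_pp_303 t 1 1 1 = true :=
  ⟨(l 4), by decide +kernel⟩

theorem c_pp_303 : CertNX 1610612736 469762048 0 536870912 1046898278 26843546 3 true true true .npn 3 0 3
    ndN2q3 ndN6q0 pcN3 Cut.none Ext.none :=
  certNX0 (fam := true) (s1 := true) (s2 := true) (a := 3) (b := 0) (c := 3) (cn := .npn) (n1 := ndN2q3) (n2 := ndN6q0) (pc := pcN3) (cut := Cut.none) (xt := Ext.none) (P1 := 1610612736) (W1 := 469762048) (P2 := 0) (W2 := 536870912) (P3 := 1046898278) (W3 := 26843546) (N0 := 3)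
    rfl k0_pp_303

noncomputable def f_pp_313 : ℕ → ℕ → ℕ → ℕ → Bool := onCell 1610612736 469762048 536870912 469762048 1046898278 26843546
    (rowNX 3 0 true true true .dn 3 1 3 (qsf 1610612736 469762048 536870912 469762048 3) ndN2q3 ndN6q1 pcN3 Cut.none Ext.none)

def k0_pp_313 : ∃ t, chk3 f_pp_313 t 1 1 1 = true :=
  ⟨(l 4), by decide +kernel⟩

theorem c_pp_313 : CertNX 1610612736 469762048 536870912 469762048 1046898278 26843546 3 true true true .dn 3 1 3
    ndN2q3 ndN6q1 pcN3 Cut.none Ext.none :=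
  certNX0 (fam := true) (s1 := true) (s2 := true) (a := 3) (b := 1) (c := 3) (cn := .dn) (n1 := ndN2q3) (n2 := ndN6q1) (pc := pcN3) (cut := Cut.none) (xt := Ext.none) (P1 := 1610612736) (W1 := 469762048) (P2 := 536870912) (W2 := 469762048) (P3 := 1046898278) (W3 := 26843546) (N0 := 3)
    rfl k0_pp_313

noncomputable def f_pm_001 : ℕ → ℕ → ℕ → ℕ → Bool := onCell 67108864 469762048 0 536870912 1046898278 26843546
    (rowNX 3 0 true true false .up 0 0 1 (qsf 67108864 469762048 0 536870912 1) ndN2q0 ndN6q0 pcN1 Cut.none Ext.none)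

def k0_pm_001 : ∃ t, chk3 f_pm_001 t 1 1 1 = true :=
  ⟨(b (l 3) (l 3)), by decide +kernel⟩

theorem c_pm_001 : CertNX 67108864 469762048 0 536870912 1046898278 26843546 3 true true false .up 0 0 1
    ndN2q0 ndN6q0 pcN1 Cut.none Ext.none :=
  certNX0 (fam := true) (s1 := true) (s2 := false) (a := 0) (b := 0) (c := 1) (cn := .up) (n1 := ndN2q0) (n2 := ndN6q0) (pc := pcN1) (cut := Cut.none) (xt := Ext.none) (P1 := 67108864) (W1 := 469762048) (P2 := 0) (W2 := 536870912) (P3 := 1046898278) (W3 := 26843546) (N0 := 3)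
    rfl k0_pm_001

noncomputable def f_pm_011 : ℕ → ℕ → ℕ → ℕ → Bool := onCell 67108864 469762048 536870912 536870912 1046898278 26843546
    (rowNX 3 1 true true false .pnn 0 1 1 (qsf 67108864 469762048 536870912 469762048 1) ndN2q0 ndN6q1 pcN1 Cut.none Ext.none)

def k0_pm_011 : ∃ t, chk3 f_pm_011 t 1 1 1 = true :=
  ⟨(a (b (l 3) (l 3)) (l 3)), by decide +kernel⟩

theorem c_pm_011 : CertNX 67108864 469762048 536870912 469762048 1046898278 26843546 3 true true false .pnn 0 1 1
    ndN2q0 ndN6q1 pcN1 Cut.none Ext.none :=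
  certNX1 (fam := true) (s1 := true) (s2 := false) (a := 0) (b := 1) (c := 1) (cn := .pnn) (n1 := ndN2q0) (n2 := ndN6q1) (pc := pcN1) (cut := Cut.none) (xt := Ext.none) (P1 := 67108864) (W1 := 469762048) (P2 := 536870912) (W2 := 469762048) (P3 := 1046898278) (W3 := 26843546) (N0 := 3)
    rfl (fun _ => rfl) k0_pm_011

noncomputable def f_pm_012 : ℕ → ℕ → ℕ → ℕ → Bool := onCell 1073741824 536870912 536870912 469762048 1046898278 26843546
    (rowNX 3 2 true true false .pnp 0 1 2 (qsf 67108864 469762048 536870912 469762048 2) ndN2q0 ndN6q1 pcN2 Cut.none Ext.none)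

def k0_pm_012 : ∃ t, chk3 f_pm_012 t 8 1 1 = true :=
  ⟨(b (a (l 3) (l 3)) (b (a (l 3) (a (l 3) (a (l 3) (b (l 3) (b (b (l 16286560) (l 16596440)) (b (l 16126568) (l 15642528))))))) (a (b (l 3) (l 3)) (b (a (l 3) (b (a (a (l 3) (b (l 3) (l 14685512))) (b (l 14976304) (c (l 14687440) (l 14615728)))) (a (a (l 14404624) (l 14356720)) (c (l 14370160) (l 14287216))))) (a (a (b (l 3) (a (b (l 3) (b (l 3) (c (c (b (l 14745712) (l 14869288)) (c (b (l 14712208) (l 14839688)) (l 14733904))) (l 14690416)))) (c (b (c (l 14491952) (l 14445688)) (c (b (l 14586232) (b (l 14634736) (l 14683944))) (c (b (l 14552360) (b (l 14600776) (l 14653376))) (l 14544304)))) (l 14445096)))) (b (c (b (l 14268624) (c (b (l 14226312) (l 14259544)) (b (l 14185024) (l 14214320)))) (b (l 14205848) (l 14137928))) (c (c (b (l 14360072) (b (l 14450768) (b (l 14500960) (l 14534664)))) (c (b (l 14327792) (b (l 14417296) (l 14489232))) (l 14356192))) (l 14304352)))) (b (c (b (a (l 14156656) (l 14108080)) (a (c (b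 (l 14069808) (l 14102528)) (b (l 14024352) (l 14055424))) (c (a (l 14003384) (l 13976880)) (b (l 13960880) (l 13962488))))) (a (b (l 14066696) (l 13969208)) (b (l 14016096) (l 13887376)))) (c (b (a (c (l 14200992) (c (l 14166160) (l 14127672))) (c (l 14085880) (l 14032936))) (a (c (b (l 14296288) (a (l 14399104) (l 14328392))) (c (a (l 14337168) (l 14262520)) (l 14242584))) (c (b (l 14182904) (l 14248880)) (l 14165576)))) (a (a (l 14167592) (l 14089704)) (l 14007056))))))))), by decide +kernel⟩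

def k1_pm_012 : ∃ t, chk3 f_pm_012 t 9 1 1 = true :=
  ⟨(b (a (a (c (l 16337216) (l 16344160)) (a (c (l 16544360) (l 16536160)) (c (l 16661800) (l 16657736)))) (a (a (l 16760776) (l 16727200)) (l 16634800))) (b (a (b (a (a (l 16307968) (l 16429176)) (a (l 16529896) (l 16642064))) (a (b (a (b (l 16376704) (l 16547792)) (b (l 16464584) (l 16495696))) (a (l 15817040) (l 15546208))) (b (a (b (l 16572944) (l 16434448)) (l 16577648)) (l 15672696)))) (b (a (l 16755176) (l 16620560)) (a (b (a (l 16490144) (l 16471096)) (l 15389632)) (b (l 16419904) (l 15454160))))) (a (b (a (a (b (b (l 15095856) (c (l 14645616) (l 14572192))) (c (l 14318968) (l 14233992))) (b (b (l 15025672) (l 14538432)) (l 14206040))) (b (l 14496368) (c (l 14125280) (l 14032792)))) (b (a (b (a (l 14005048) (l 13922512)) (c (c (l 13907896) (l 13856792)) (l 13778168))) (b (l 13787288) (c (c (l 13720904) (l 13666232)) (l 13582168)))) (c (a (c (b (l 13932032) (b (l 13982640) (l 14039600))) (b (l 13875536) (a (l 14034976)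 (l 13873480)))) (c (b (l 13715032) (b (l 13717704) (l 13732584))) (c (b (l 13671248) (l 13687360)) (l 13628544)))) (a (l 13826536) (l 13560048))))) (b (a (b (a (l 14535120) (l 14481992)) (a (l 13942416) (l 13883384))) (b (l 14415392) (l 13807016))) (b (a (b (a (l 13646464) (l 13589656)) (c (a (l 13546888) (l 13488592)) (l 13399984))) (b (l 13515184) (c (b (l 13432568) (l 13413368)) (l 13301064)))) (a (c (c (b (l 13530320) (a (l 13472528) (l 13489992))) (a (l 13496680) (l 13431232))) (l 13352424)) (c (c (b (l 13436168) (b (l 13427952) (l 13424520))) (l 13370808)) (l 13256040)))))))), by decide +kernel⟩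

def k2_pm_012 : ∃ t, chk3 f_pm_012 t 5 1 1 = true :=
  ⟨(b (a (a (a (a (l 16516456) (l 16458328)) (a (l 16487816) (l 16860808))) (l 16756624)) (l 16777000)) (b (a (a (a (b (l 16486784) (b (b (l 16542448) (l 16140184)) (l 15390176))) (b (a (l 16506512) (l 16661176)) (a (b (l 16377656) (l 15418768)) (b (a (l 16420632) (l 16471504)) (l 15333664))))) (b (l 16752184) (b (l 16495400) (l 15544528)))) (b (l 16772768) (b (l 16503112) (l 15550712)))) (a (b (a (a (b (l 14312224) (l 13756288)) (a (b (l 14391056) (l 13800344)) (a (l 13983096) (b (l 14500552) (l 13916504))))) (b (l 14523736) (l 13937600))) (a (a (b (b (l 13476528) (c (l 13399904) (l 13276720))) (c (c (b (l 13432256) (l 13437864)) (l 13160504)) (l 13255312))) (b (a (b (l 13523552) (l 13389136)) (b (a (l 13578896) (l 13643920)) (a (l 13445704) (c (l 13570720) (l 13454384))))) (a (c (b (l 13458360) (c (l 13505264) (l 13437944))) (l 13320840)) (c (b (a (l 13515208) (l 13580736)) (a (c (l 13568160) (l 13502096)) (c (l 13572832)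 (l 13571056)))) (a (l 13384056) (l 13453840)))))) (b (b (l 13662408) (l 13528104)) (c (c (l 13640312) (l 13575832)) (l 13467048))))) (b (b (l 14527160) (l 13936808)) (b (b (l 13657472) (a (l 13518816) (l 13522320))) (c (a (l 13590704) (l 13592984)) (l 13451960))))))), by decide +kernel⟩

def k3_pm_012 : ∃ t, chk3 f_pm_012 t 3 1 1 = true :=
  ⟨(b (l 2) (b (b (l 16777216) (a (b (l 16505280) (l 15553200)) (l 2))) (b (a (b (l 14529856) (l 13939560)) (l 14238360)) (b (a (b (l 13660208) (l 13522328)) (l 13591576)) (c (a (c (l 13628152) (l 13563424)) (l 13592992)) (l 13454256)))))), by decide +kernel⟩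

theorem s4_pm_012 : ∃ t, chk3 f_pm_012 t 4 1 1 = true := ex3_a k0_pm_012 k1_pm_012

theorem s5_pm_012 : ∃ t, chk3 f_pm_012 t 2 1 1 = true := ex3_a s4_pm_012 k2_pm_012

theorem s6_pm_012 : ∃ t, chk3 f_pm_012 t 1 1 1 = true := ex3_a s5_pm_012 k3_pm_012

theorem c_pm_012 : CertNX 67108864 469762048 536870912 469762048 1046898278 26843546 3 true true false .pnp 0 1 2
    ndN2q0 ndN6q1 pcN2 Cut.none Ext.none :=
  certNX2 (fam := true) (s1 := true) (s2 := false) (a := 0) (b := 1) (c := 2) (cn := .pnp) (n1 := ndN2q0) (n2 := ndN6q1) (pc := pcN2) (cut := Cut.none) (xt := Ext.none) (P1 := 67108864) (W1 := 469762048) (P2 := 536870912) (W2 := 469762048) (P3 := 1046898278) (W3 := 26843546) (N0 := 3)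
    rfl (fun _ => rfl) s6_pm_012

noncomputable def f_pm_022 : ℕ → ℕ → ℕ → ℕ → Bool := onCell 67108864 469762048 1073741824 536870912 1046898278 26843546
    (rowNX 3 1 true true false .pp 0 2 2 (qsf 67108864 469762048 1073741824 536870912 2) ndN2q0 ndN6q2 pcN2 Cut.none Ext.none)

def k0_pm_022 : ∃ t, chk3 f_pm_022 t 1 2 1 = true :=
  ⟨(b (l 3) (a (a (b (b (b (l 3) (b (l 3) (b (l 3) (b (l 3) (b (b (b (a (a (a (c (l 16253824) (l 16311528)) (l 3)) (l 3)) (l 3)) (b (a (a (a (c (l 16231120) (l 16309744)) (c (l 15817464) (l 15787688))) (a (c (l 15188152) (l 15133632)) (l 3))) (a (l 3) (l 9441574920775))) (a (a (a (c (l 16146000) (l 16203608)) (c (l 15817912) (l 15788152))) (a (c (a (l 15336400) (l 15039392)) (l 15113328)) (l 14860288))) (a (l 14615376) (c (l 14377624) (l 14292944)))))) (a (a (a (l 16096480) (l 15741296)) (a (c (l 15190408) (l 15135968)) (l 14862136))) (a (l 14617368) (l 14337488)))) (a (a (a (l 16109336) (l 15744032)) (a (c (l 15194264) (l 15139960)) (l 14866568)))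 (a (l 14622152) (l 14342632)))))))) (a (a (a (a (l 16062680) (l 15947936)) (c (b (l 15709304) (l 15679312)) (l 15507664))) (a (c (a (l 15298992) (a (l 15158272) (l 15075904))) (a (l 15314096) (l 15055368))) (l 14960264))) (a (l 14726272) (l 14454720)))) (a (a (b (a (b (l 15707456) (a (a (l 15894440) (l 15773176)) (b (l 15685264) (l 15698208)))) (c (l 15459264) (l 15417416))) (a (a (b (l 15999528) (l 15719496)) (b (l 15816672) (l 16257304))) (b (c (a (l 15610616) (l 15267224)) (l 15166704)) (c (l 15627368) (l 15620112))))) (a (b (c (l 15076968) (l 15018632)) (b (a (l 14962224) (l 14778616)) (a (l 15166080) (a (l 14864072) (l 14745744))))) (b (l 14949024) (l 14742688)))) (a (b (b (l 14866800) (l 14890568)) (l 14778016)) (b (l 14664520) (l 14785664))))) (b (b (l 1) (a (a (l 14303120) (l 1)) (l 1))) (a (a (l 14622896) (l 14331384)) (l 14206216)))) (l 1))), by decide +kernel⟩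

def k1_pm_022 : ∃ t, chk3 f_pm_022 t 1 3 1 = true :=
  ⟨(a (a (b (a (b (a (b (a (a (l 15264168) (b (l 15933232) (l 15587288))) (b (a (l 16376712) (l 15981088)) (l 16068096))) (a (b (l 14876776) (l 15009920)) (a (l 15472616) (l 15888800)))) (a (b (a (l 15602704) (l 15260272)) (a (l 16324456) (b (l 16102728) (l 16511792)))) (b (b (l 14878280) (l 15314384)) (l 15957432)))) (a (a (l 15009920) (l 15715048)) (a (a (l 16240376) (l 16559232)) (b (l 16676008) (l 16643792))))) (b (a (b (b (l 14646088) (a (l 14866520) (l 14597640))) (b (l 15093992) (l 15548392))) (b (l 14680248) (b (l 14589272) (l 14577872)))) (a (b (b (l 15986176) (l 16390056)) (l 16691024)) (b (l 15378000) (b (l 16039944) (l 16422640)))))) (a (a (b (l 15278576) (l 15362456)) (a (l 16391448) (l 16643792))) (b (a (l 16769696) (l 16702032)) (l 16735584)))) (b (a (b (a (b (l 14815904) (l 14681728)) (b (l 14783288) (l 14842280))) (b (a (b (l 14640400) (l 14868536)) (l 14689312)) (a (l 15514904) (a (l 14958992) (l 14730400)))))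 (b (l 14629864) (b (l 14811120) (l 14740104)))) (a (b (b (a (l 16203120) (l 15628312)) (a (l 16721000) (l 16359704))) (l 16753608)) (b (b (a (l 14919384) (l 14686320)) (a (l 15765672) (l 15038040))) (b (a (l 16494240) (l 15874512)) (l 16628144)))))) (b (a (b (l 399996460599) (a (l 14670584) (l 14316168))) (l 1)) (a (b (a (b (l 14806472) (a (l 14696280) (l 14794704))) (l 14703128)) (a (b (a (l 15123576) (l 14716312)) (a (l 15982024) (l 15217752))) (b (l 14792440) (a (l 14746240) (l 14746760))))) (b (l 14179984) (l 14569512))))), by decide +kernel⟩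

theorem s2_pm_022 : ∃ t, chk3 f_pm_022 t 1 1 1 = true := ex3_b k0_pm_022 k1_pm_022

theorem c_pm_022 : CertNX 67108864 469762048 1073741824 536870912 1046898278 26843546 3 true true false .pp 0 2 2
    ndN2q0 ndN6q2 pcN2 Cut.none Ext.none :=
  certNX1 (fam := true) (s1 := true) (s2 := false) (a := 0) (b := 2) (c := 2) (cn := .pp) (n1 := ndN2q0) (n2 := ndN6q2) (pc := pcN2) (cut := Cut.none) (xt := Ext.none) (P1 := 67108864) (W1 := 469762048) (P2 := 1073741824) (W2 := 536870912) (P3 := 1046898278) (W3 := 26843546) (N0 := 3)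
    rfl (fun _ => rfl) s2_pm_022

noncomputable def f_pm_023 : ℕ → ℕ → ℕ → ℕ → Bool := onCell 67108864 469762048 1610612736 536870912 1046898278 26843546
    (rowNX 3 1 true true false .up 0 2 3 (qsf 67108864 469762048 1073741824 536870912 3) ndN2q0 ndN6q2 pcN3 Cut.none Ext.none)

def k0_pm_023 : ∃ t, chk3 f_pm_023 t 1 1 1 = true :=
  ⟨(a (b (a (a (b (a (b (l 15362456) (l 15362456)) (l 16518088)) (l 2)) (b (l 16735584) (l 16735584))) (b (a (l 16746064) (l 16777128)) (l 16762032))) (b (a (l 2) (b (l 16762024) (l 2))) (l 2))) (b (b (a (b (a (b (l 16086544) (l 16692384)) (b (a (l 15320384) (l 14785888)) (l 15813856))) (a (l 16777216) (b (l 16441288) (l 16738136)))) (b (a (b (l 14773112) (l 14824792)) (l 14744648)) (a (b (l 15024560) (l 16004240)) (b (l 14803016) (l 14894840))))) (a (l 16777216) (b (a (l 16611400) (b (l 15233464) (l 16171792))) (l 16708416)))) (b (l 16777168) (b (b (l 16776136) (l 16745864)) (b (l 16749560) (b (l 16701928) (l 4))))))), by decide +kernel⟩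

theorem c_pm_023 : CertNX 67108864 469762048 1073741824 536870912 1046898278 26843546 3 true true false .up 0 2 3
    ndN2q0 ndN6q2 pcN3 Cut.none Ext.none :=
  certNX1 (fam := true) (s1 := true) (s2 := false) (a := 0) (b := 2) (c := 3) (cn := .up) (n1 := ndN2q0) (n2 := ndN6q2) (pc := pcN3) (cut := Cut.none) (xt := Ext.none) (P1 := 67108864) (W1 := 469762048) (P2 := 1073741824) (W2 := 536870912) (P3 := 1046898278) (W3 := 26843546) (N0 := 3)
    rfl (fun _ => rfl) k0_pm_023

noncomputable def f_pm_033 : ℕ → ℕ → ℕ → ℕ → Bool := onCell 67108864 469762048 0 1230186008 1046898278 26843546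
    (rowNX 3 0 true true false .pnn 0 3 3 (qsf 67108864 469762048 0 1230186008 3) ndN2q0 ndN6q3 pcN3 Cut.none Ext.none)

def k0_pm_033 : ∃ t, chk3 f_pm_033 t 1 2 1 = true :=
  ⟨(l 4), by decide +kernel⟩

def k1_pm_033 : ∃ t, chk3 f_pm_033 t 1 6 1 = true :=
  ⟨(a (b (a (a (a (b (l 4) (b (l 4) (a (l 15009624) (l 15707520)))) (l 4)) (l 4)) (l 4)) (a (a (c (a (b (l 15384544) (l 15385968)) (b (a (l 16394832) (l 16638736)) (l 16333752))) (a (b (l 15330640) (l 15332424)) (b (a (l 16380552) (l 16631792)) (l 16282856)))) (b (a (b (l 4) (l 16757136)) (l 4)) (a (b (l 16764960) (l 16770032)) (b (l 16677264) (l 16682584))))) (a (b (l 4) (a (b (l 4) (l 16715992)) (l 4))) (l 4)))) (l 2)), by decide +kernel⟩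

def k2_pm_033 : ∃ t, chk3 f_pm_033 t 1 7 1 = true :=
  ⟨(a (b (a (a (a (b (l 15362440) (l 15362456)) (b (a (l 16391408) (l 16643736)) (l 16518080))) (b (a (b (l 16769632) (l 16769632)) (b (l 16687480) (l 16687312))) (l 16735552))) (a (a (b (b (l 16720552) (l 16725920)) (l 16704936)) (b (b (a (l 16747128) (l 4)) (l 16760056)) (b (l 16765456) (l 16765704)))) (b (a (b (l 4) (a (l 16759416) (l 16753416))) (l 4)) (b (a (l 16766480) (b (l 16751688) (l 16759376))) (a (l 16776464) (l 16766632)))))) (a (a (a (b (l 15362456) (l 15362456)) (b (l 16518088) (l 16518088))) (l 16630720)) (a (l 16746048) (b (b (a (l 16777152) (l 16775552)) (l 16777160)) (l 16777168))))) (b (a (b (l 4) (a (b (l 4) (a (b (l 16751424) (l 16759664)) (l 4))) (l 4))) (l 2)) (a (b (a (b (a (l 16766064) (b (l 16753024) (l 16760408))) (a (l 16776944) (l 16766416))) (b (a (b (l 4) (a (l 16753568) (l 4))) (l 4)) (a (b (l 16755968) (l 16761832)) (b (l 4) (a (l 16756568) (l 16747224)))))) (a (b (a (l 16777144) (l 16776432))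 (l 16777152)) (b (a (l 16769064) (b (l 16759000) (l 16761344))) (a (l 16777176) (l 16772744))))) (b (l 4) (a (b (a (b (a (l 16746328) (l 4)) (l 16748592)) (b (l 4) (a (l 16721768) (l 4)))) (a (b (l 16750248) (l 16758136)) (b (a (l 16751904) (l 16733240)) (l 16757000)))) (b (l 4) (a (b (l 4) (a (l 16744864) (l 16696288))) (l 4)))))))), by decide +kernel⟩

theorem s3_pm_033 : ∃ t, chk3 f_pm_033 t 1 3 1 = true := ex3_b k1_pm_033 k2_pm_033

theorem s4_pm_033 : ∃ t, chk3 f_pm_033 t 1 1 1 = true := ex3_b k0_pm_033 s3_pm_033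

theorem c_pm_033 : CertNX 67108864 469762048 0 1230186008 1046898278 26843546 3 true true false .pnn 0 3 3
    ndN2q0 ndN6q3 pcN3 Cut.none Ext.none :=
  certNX0 (fam := true) (s1 := true) (s2 := false) (a := 0) (b := 3) (c := 3) (cn := .pnn) (n1 := ndN2q0) (n2 := ndN6q3) (pc := pcN3) (cut := Cut.none) (xt := Ext.none) (P1 := 67108864) (W1 := 469762048) (P2 := 0) (W2 := 1230186008) (P3 := 1046898278) (W3 := 26843546) (N0 := 3)
    rfl s4_pm_033

noncomputable def f_pm_101 : ℕ → ℕ → ℕ → ℕ → Bool := onCell 536870912 536870912 0 536870912 1046898278 26843546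
    (rowNX 3 2 true true false .npn 1 0 1 (qsf 536870912 536870912 0 536870912 1) ndN2q1 ndN6q0 pcN1 Cut.none Ext.none)

def k0_pm_101 : ∃ t, chk3 f_pm_101 t 1 1 1 = true :=
  ⟨(a (l 3) (b (l 3) (l 3))), by decide +kernel⟩

theorem c_pm_101 : CertNX 536870912 536870912 0 536870912 1046898278 26843546 3 true true false .npn 1 0 1
    ndN2q1 ndN6q0 pcN1 Cut.none Ext.none :=
  certNX2 (fam := true) (s1 := true) (s2 := false) (a := 1) (b := 0) (c := 1) (cn := .npn) (n1 := ndN2q1) (n2 := ndN6q0) (pc := pcN1) (cut := Cut.none) (xt := Ext.none) (P1 := 536870912) (W1 := 536870912) (P2 := 0) (W2 := 536870912) (P3 := 1046898278) (W3 := 26843546) (N0 := 3)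
    rfl (fun _ => rfl) k0_pm_101

noncomputable def f_pm_102 : ℕ → ℕ → ℕ → ℕ → Bool := onCell 536870912 536870912 1073741824 536870912 1046898278 26843546
    (rowNX 3 1 true true false .npp 1 0 2 (qsf 536870912 536870912 0 536870912 2) ndN2q1 ndN6q0 pcN2 Cut.none Ext.none)

def k0_pm_102 : ∃ t, chk3 f_pm_102 t 1 1 1 = true :=
  ⟨(b (b (b (a (l 3) (l 3)) (a (b (b (c (l 16379152) (l 16365136)) (c (l 16605000) (l 16598936))) (b (a (l 16765624) (l 16766048)) (l 16639232))) (b (a (b (a (l 391008549783) (b (l 3) (l 16292208))) (a (b (l 16593792) (l 16673624)) (b (l 16339016) (b (l 16375128) (l 16406952))))) (a (b (c (l 15750760) (l 15762264)) (c (l 15998712) (l 15971288))) (a (b (c (l 15559416) (l 15516624)) (b (l 15632656) (l 15688992))) (b (a (c (l 15333712) (l 15283352)) (c (l 372752447911) (l 15020528))) (b (c (l 15363248) (l 15314520)) (l 15414144)))))) (a (b (a (l 16747624) (l 16273992)) (a (l 16655584) (l 16573360))) (b (a (b (l 16036296) (l 16050384)) (b (a (l 15756736)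 (l 15502912)) (l 15665432))) (a (l 16085392) (a (l 15804512) (l 15592192)))))))) (a (b (b (b (a (l 16489504) (l 16495344)) (b (l 16493088) (a (l 2) (l 16666376)))) (l 16758992)) (l 16776280)) (b (b (a (b (a (l 16519040) (l 16643680)) (b (l 16550264) (a (l 16722456) (b (l 16538304) (l 16477424))))) (b (a (b (l 16112104) (l 16063816)) (a (l 15719608) (l 15500800))) (a (b (l 15981392) (b (l 15900248) (l 15828832))) (b (l 15427456) (b (l 15304712) (l 15206512)))))) (a (l 16577496) (a (l 15800528) (l 15101504)))) (a (a (l 16737456) (l 16465240)) (b (a (l 15829320) (l 15053512)) (l 15300264)))))) (a (l 16777216) (a (b (l 16592560) (l 16592560)) (b (a (l 15855624) (b (l 15064600) (l 15064600))) (l 15237384))))), by decide +kernel⟩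

theorem c_pm_102 : CertNX 536870912 536870912 0 536870912 1046898278 26843546 3 true true false .npp 1 0 2
    ndN2q1 ndN6q0 pcN2 Cut.none Ext.none :=
  certNX1 (fam := true) (s1 := true) (s2 := false) (a := 1) (b := 0) (c := 2) (cn := .npp) (n1 := ndN2q1) (n2 := ndN6q0) (pc := pcN2) (cut := Cut.none) (xt := Ext.none) (P1 := 536870912) (W1 := 536870912) (P2 := 0) (W2 := 536870912) (P3 := 1046898278) (W3 := 26843546) (N0 := 3)
    rfl (fun _ => rfl) k0_pm_102

noncomputable def f_pm_112 : ℕ → ℕ → ℕ → ℕ → Bool := onCell 1073741824 536870912 536870912 469762048 1046898278 26843546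
    (rowNX 3 2 true true false .dn 1 1 2 (qsf 536870912 536870912 536870912 469762048 2) ndN2q1 ndN6q1 pcN2 Cut.none Ext.none)

def k0_pm_112 : ∃ t, chk3 f_pm_112 t 1 1 1 = true :=
  ⟨(b (a (a (a (a (l 3) (l 3)) (a (b (a (l 16246304) (c (l 16605216) (l 16599160))) (l 1)) (a (a (l 16760776) (l 16727200)) (l 16634800)))) (a (a (a (a (l 16516456) (l 16458328)) (a (l 16487816) (l 16839840))) (l 16756624)) (l 16777000))) (a (b (a (l 16764808) (l 16626464)) (l 16777216)) (b (a (l 16325344) (l 15742912)) (a (l 16749480) (l 16579712))))) (a (a (l 1) (b (a (l 1) (b (l 16772768) (l 1))) (l 1))) (b (b (l 16777208) (b (l 398927594871) (l 416642430791))) (a (b (l 431672186663) (l 1)) (b (l 14238360) (b (l 13591576) (c (l 13592992) (l 13454256)))))))), by decide +kernel⟩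

theorem c_pm_112 : CertNX 536870912 536870912 536870912 469762048 1046898278 26843546 3 true true false .dn 1 1 2
    ndN2q1 ndN6q1 pcN2 Cut.none Ext.none :=
  certNX2 (fam := true) (s1 := true) (s2 := false) (a := 1) (b := 1) (c := 2) (cn := .dn) (n1 := ndN2q1) (n2 := ndN6q1) (pc := pcN2) (cut := Cut.none) (xt := Ext.none) (P1 := 536870912) (W1 := 536870912) (P2 := 536870912) (W2 := 469762048) (P3 := 1046898278) (W3 := 26843546) (N0 := 3)
    rfl (fun _ => rfl) k0_pm_112

noncomputable def f_pm_113 : ℕ → ℕ → ℕ → ℕ → Bool := onCell 536870912 536870912 536870912 469762048 1046898278 26843546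
    (rowNX 3 0 true true false .nn 1 1 3 (qsf 536870912 536870912 536870912 469762048 3) ndN2q1 ndN6q1 pcN3 Cut.none Ext.none)

def k0_pm_113 : ∃ t, chk3 f_pm_113 t 1 1 1 = true :=
  ⟨(b (a (l 1) (a (a (l 16740768) (l 16472856)) (b (l 517037121095) (l 15363216)))) (a (a (b (l 1) (b (l 14238360) (b (l 13591576) (l 406437820279)))) (b (b (l 16777216) (l 16036480)) (b (l 14196424) (b (l 13444776) (c (l 13592992) (l 13454256)))))) (b (a (b (l 16592560) (a (l 16001808) (l 15748552))) (b (l 15468072) (a (l 15156568) (l 14389032)))) (a (b (a (l 14204112) (l 13960024)) (c (b (l 13488816) (l 13436040)) (l 13334536))) (b (a (l 13422368) (a (l 12941408) (l 12639696))) (a (b (l 12806176) (l 12755248)) (b (a (l 12395752) (l 12210176)) (a (l 12396304) (c (l 12775160) (l 11868960)))))))))), by decide +kernel⟩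

theorem c_pm_113 : CertNX 536870912 536870912 536870912 469762048 1046898278 26843546 3 true true false .nn 1 1 3
    ndN2q1 ndN6q1 pcN3 Cut.none Ext.none :=
  certNX0 (fam := true) (s1 := true) (s2 := false) (a := 1) (b := 1) (c := 3) (cn := .nn) (n1 := ndN2q1) (n2 := ndN6q1) (pc := pcN3) (cut := Cut.none) (xt := Ext.none) (P1 := 536870912) (W1 := 536870912) (P2 := 536870912) (W2 := 469762048) (P3 := 1046898278) (W3 := 26843546) (N0 := 3)
    rfl k0_pm_113

noncomputable def f_pm_123 : ℕ → ℕ → ℕ → ℕ → Bool := onCell 1610612736 536870912 1073741824 536870912 1046898278 26843546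
    (rowNX 3 2 true true false .npn 1 2 3 (qsf 536870912 536870912 1073741824 536870912 3) ndN2q1 ndN6q2 pcN3 Cut.none Ext.none)

def k0_pm_123 : ∃ t, chk3 f_pm_123 t 1 1 1 = true :=
  ⟨(a (b (b (b (l 14656704) (l 14711960)) (b (a (l 425231444295) (l 14882936)) (b (l 16242992) (l 16776616)))) (l 528851402759)) (a (b (b (b (a (l 14644936) (l 14556096)) (l 14813720)) (b (l 15092632) (l 16567968))) (l 16777168)) (a (b (b (b (a (l 14481344) (l 14528888)) (a (l 14820904) (l 14915648))) (b (a (l 15094776) (l 15157544)) (a (l 16570168) (l 16549568)))) (a (l 16775104) (l 16745864))) (a (b (b (b (b (l 14886520) (l 14981968)) (a (l 15023056) (l 15125024))) (b (b (l 14814552) (l 15551640)) (l 16532928))) (l 16796488)) (b (a (b (b (l 15090976) (l 15059792)) (b (l 15070240) (l 16523032))) (a (b (b (l 15285728) (l 15529320)) (b (l 15082448) (l 16491144))) (b (a (b (l 15432376) (l 15606128)) (b (a (l 15529056) (a (l 15581080) (a (l 15609232) (l 15629064)))) (a (l 15649600) (a (l 15660808)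 (a (l 15685688) (l 4)))))) (a (b (l 15281928) (l 16491904)) (b (a (l 15307040) (l 4)) (l 4)))))) (a (l 16719528) (a (l 16674488) (b (l 4) (l 4))))))))), by decide +kernel⟩

theorem c_pm_123 : CertNX 536870912 536870912 1073741824 536870912 1046898278 26843546 3 true true false .npn 1 2 3
    ndN2q1 ndN6q2 pcN3 Cut.none Ext.none :=
  certNX2 (fam := true) (s1 := true) (s2 := false) (a := 1) (b := 2) (c := 3) (cn := .npn) (n1 := ndN2q1) (n2 := ndN6q2) (pc := pcN3) (cut := Cut.none) (xt := Ext.none) (P1 := 536870912) (W1 := 536870912) (P2 := 1073741824) (W2 := 536870912) (P3 := 1046898278) (W3 := 26843546) (N0 := 3)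
    rfl (fun _ => rfl) k0_pm_123

noncomputable def f_pm_133 : ℕ → ℕ → ℕ → ℕ → Bool := onCell 536870912 536870912 0 1230186008 1046898278 26843546
    (rowNX 3 0 true true false .dn 1 3 3 (qsf 536870912 536870912 0 1230186008 3) ndN2q1 ndN6q3 pcN3 Cut.none Ext.none)

def k0_pm_133 : ∃ t, chk3 f_pm_133 t 1 1 1 = true :=
  ⟨(b (l 2) (b (l 2) (a (l 4) (l 2)))), by decide +kernel⟩

theorem c_pm_133 : CertNX 536870912 536870912 0 1230186008 1046898278 26843546 3 true true false .dn 1 3 3
    ndN2q1 ndN6q3 pcN3 Cut.none Ext.none :=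
  certNX0 (fam := true) (s1 := true) (s2 := false) (a := 1) (b := 3) (c := 3) (cn := .dn) (n1 := ndN2q1) (n2 := ndN6q3) (pc := pcN3) (cut := Cut.none) (xt := Ext.none) (P1 := 536870912) (W1 := 536870912) (P2 := 0) (W2 := 1230186008) (P3 := 1046898278) (W3 := 26843546) (N0 := 3)
    rfl k0_pm_133

noncomputable def f_pm_202_a : ℕ → ℕ → ℕ → ℕ → Bool := onCell 0 420477299 0 536870912 1046898278 26843546
    (rowNX 3 0 true true false .pp 2 0 2 (qsf 0 420477299 0 536870912 2) ndN2q2a ndN6q0 pcN2 Cut.none Ext.none)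

def k0_pm_202_a : ∃ t, chk3 f_pm_202_a t 2 4 1 = true :=
  ⟨(b (b (b (a (c (b (l 16132960) (l 16306200)) (b (c (l 16111040) (l 15949976)) (l 16291296))) (b (c (a (l 16000128) (l 15794416)) (a (c (l 15974304) (l 15915448)) (b (c (l 15726344) (l 15704552)) (l 15508944)))) (c (a (l 16185968) (l 15830848)) (a (l 16166368) (l 15906696))))) (a (c (l 16555208) (l 16532864)) (c (b (l 16006320) (l 16436552)) (l 16145744)))) (a (c (l 16359224) (l 16359448)) (b (a (l 16539352) (l 16561336)) (l 16251112)))) (b (a (b (l 16097200) (l 16133688)) (b (a (l 16107768) (l 16233896)) (l 16078592))) (a (l 16159536) (l 16119864)))), by decide +kernel⟩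

def k1_pm_202_a : ∃ t, chk3 f_pm_202_a t 3 4 1 = true :=
  ⟨(b (a (b (b (a (b (c (l 15712616) (b (l 15686928) (c (l 15656480) (l 15637048)))) (a (c (l 15585408) (l 15673936)) (c (b (l 15651440) (l 15622200)) (b (l 15614800) (l 15584376))))) (c (b (l 15723304) (l 15637512)) (b (c (l 15688840) (l 15666136)) (l 15597280)))) (a (c (b (l 15730896) (l 15976304)) (l 15837928)) (b (c (a (b (l 15593376) (l 15575040)) (l 15569400)) (a (l 15523744) (l 15506448))) (a (c (a (l 15687104) (l 15581128)) (l 15428784)) (c (l 15507248) (l 15435752)))))) (a (b (l 16083088) (l 16569240)) (b (a (l 15884800) (b (a (l 15572416) (b (l 15414696) (l 15466384))) (l 15695808))) (c (l 16135000) (l 16109872))))) (b (b (a (c (b (l 15662448) (c (l 15575712) (l 15559816))) (b (c (l 15625792) (b (l 15604224) (l 15579592))) (l 15378904))) (c (b (l 15375184) (b (l 15329576) (l 15297600))) (b (b (a (l 15309456) (l 15133344)) (c (l 15320464) (l 15294656))) (c (l 15274896) (l 15238784))))) (a (c (b (l 15497200)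 (l 15415904)) (l 15385960)) (c (b (l 15249792) (l 15160560)) (l 15123984)))) (a (b (a (b (a (l 15227968) (l 15323872)) (a (l 15454584) (c (l 15329320) (l 15268880)))) (c (l 15227408) (l 15157056))) (a (l 15550448) (b (a (l 15165208) (b (l 15049784) (l 15051352))) (l 15298152)))) (b (c (l 15010432) (l 14931672)) (a (b (l 14917264) (a (b (l 14916416) (l 14963472)) (l 14799200))) (l 14706720)))))) (a (b (b (a (l 16496352) (l 16483088)) (a (l 16231712) (l 16576544))) (a (l 16164424) (l 16308080))) (b (a (b (a (l 16054464) (l 15618544)) (l 16145144)) (b (a (b (l 14743528) (l 15210544)) (b (a (l 14658568) (l 14537000)) (a (l 14776672) (l 14530632)))) (l 15180872))) (a (a (l 16524680) (l 16538488)) (a (l 16094536) (l 15565344)))))), by decide +kernel⟩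

def k2_pm_202_a : ∃ t, chk3 f_pm_202_a t 1 5 1 = true :=
  ⟨(a (b (a (l 16234464) (b (l 16201128) (l 16298256))) (a (l 16451104) (l 16449280))) (a (b (b (l 16314696) (l 16452744)) (b (l 16589032) (l 16554760))) (b (a (b (l 16499576) (l 16652400)) (b (a (l 16561448) (l 16138640)) (l 16378240))) (a (l 16627096) (l 16063480))))), by decide +kernel⟩

def k3_pm_202_a : ∃ t, chk3 f_pm_202_a t 1 3 1 = true :=
  ⟨(a (b (b (a (l 16400216) (l 16398760)) (a (l 4) (l 16398760))) (l 2)) (a (b (b (l 16554784) (l 16554784)) (b (l 16554784) (l 2))) (b (a (b (l 16713464) (l 16713464)) (b (l 16258096) (l 16262632))) (b (a (l 16713464) (l 16262632)) (a (l 2) (l 16262632)))))), by decide +kernel⟩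

theorem s4_pm_202_a : ∃ t, chk3 f_pm_202_a t 1 4 1 = true := ex3_a k0_pm_202_a k1_pm_202_a

theorem s5_pm_202_a : ∃ t, chk3 f_pm_202_a t 1 2 1 = true := ex3_b s4_pm_202_a k2_pm_202_a

theorem s6_pm_202_a : ∃ t, chk3 f_pm_202_a t 1 1 1 = true := ex3_b s5_pm_202_a k3_pm_202_a

theorem c_pm_202_a : CertNX 0 420477299 0 536870912 1046898278 26843546 3 true true false .pp 2 0 2
    ndN2q2a ndN6q0 pcN2 Cut.none Ext.none :=
  certNX0 (fam := true) (s1 := true) (s2 := false) (a := 2) (b := 0) (c := 2) (cn := .pp) (n1 := ndN2q2a) (n2 := ndN6q0) (pc := pcN2) (cut := Cut.none) (xt := Ext.none) (P1 := 0) (W1 := 420477299) (P2 := 0) (W2 := 536870912) (P3 := 1046898278) (W3 := 26843546) (N0 := 3)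
    rfl s6_pm_202_a

noncomputable def f_pm_202_b : ℕ → ℕ → ℕ → ℕ → Bool := onCell 1239849684 370763052 0 536870912 1046898278 26843546
    (rowNX 3 0 true true false .pp 2 0 2 (qsf 1239849684 370763052 0 536870912 2) ndN2q2b ndN6q0 pcN2 Cut.none Ext.none)

def k0_pm_202_b : ∃ t, chk3 f_pm_202_b t 1 1 1 = true :=
  ⟨(b (b (a (b (a (b (a (b (c (b (l 16486456) (a (l 16469496) (l 16383592))) (b (c (l 16328872) (a (l 16295592) (l 16498200))) (l 16400928))) (c (b (l 16418552) (l 16325240)) (l 16332608))) (b (c (b (l 16130264) (a (l 16146016) (l 16084008))) (b (a (c (l 16185304) (l 16182784)) (l 15962984)) (l 16101552))) (c (l 15923096) (l 16117760)))) (a (b (a (l 16340024) (l 16026824)) (a (l 16236904) (l 16198456))) (c (l 16167832) (l 16161752)))) (b (b (c (b (l 15865216) (l 15671232)) (b (a (l 15873352) (l 15746440)) (l 15832288))) (c (a (l 15961512) (l 15792688)) (l 15881984))) (a (l 15738104) (l 15883368)))) (a (b (a (l 16167624) (l 16132176)) (a (l 16186496) (l 16137504)))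 (b (a (l 16025912) (l 16003560)) (l 16104120)))) (b (c (b (a (b (l 15697808) (l 15759496)) (b (l 15697808) (l 15759496))) (a (l 15888656) (l 15888656))) (a (b (b (l 15462424) (l 15750376)) (l 15870744)) (b (b (l 15630200) (l 15750376)) (l 15870744)))) (a (b (c (l 16016192) (l 15989160)) (l 16104120)) (l 4)))) (a (b (a (a (b (l 16202592) (l 16333544)) (l 16106456)) (c (l 16359888) (l 16345240))) (a (a (b (l 16552456) (l 16555384)) (b (l 16653688) (l 4))) (l 4))) (l 4))) (a (b (a (l 4) (l 4)) (l 2)) (l 2))), by decide +kernel⟩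

theorem c_pm_202_b : CertNX 1239849684 370763052 0 536870912 1046898278 26843546 3 true true false .pp 2 0 2
    ndN2q2b ndN6q0 pcN2 Cut.none Ext.none :=
  certNX0 (fam := true) (s1 := true) (s2 := false) (a := 2) (b := 0) (c := 2) (cn := .pp) (n1 := ndN2q2b) (n2 := ndN6q0) (pc := pcN2) (cut := Cut.none) (xt := Ext.none) (P1 := 1239849684) (W1 := 370763052) (P2 := 0) (W2 := 536870912) (P3 := 1046898278) (W3 := 26843546) (N0 := 3)
    rfl k0_pm_202_b

noncomputable def f_pm_203_a : ℕ → ℕ → ℕ → ℕ → Bool := onCell 0 420477299 1610612736 536870912 1046898278 26843546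
    (rowNX 3 1 true true false .up 2 0 3 (qsf 0 420477299 0 536870912 3) ndN2q2a ndN6q0 pcN3 Cut.none Ext.none)

def k0_pm_203_a : ∃ t, chk3 f_pm_203_a t 1 1 1 = true :=
  ⟨(b (a (l 4) (b (b (a (l 16554784) (a (l 16713464) (l 16262632))) (l 4)) (l 4))) (l 2)), by decide +kernel⟩

theorem c_pm_203_a : CertNX 0 420477299 0 536870912 1046898278 26843546 3 true true false .up 2 0 3
    ndN2q2a ndN6q0 pcN3 Cut.none Ext.none :=
  certNX1 (fam := true) (s1 := true) (s2 := false) (a := 2) (b := 0) (c := 3) (cn := .up) (n1 := ndN2q2a) (n2 := ndN6q0) (pc := pcN3) (cut := Cut.none) (xt := Ext.none) (P1 := 0) (W1 := 420477299) (P2 := 0) (W2 := 536870912) (P3 := 1046898278) (W3 := 26843546) (N0 := 3)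
    rfl (fun _ => rfl) k0_pm_203_a

noncomputable def f_pm_203_b : ℕ → ℕ → ℕ → ℕ → Bool := onCell 1239849684 370763052 1610612736 536870912 1046898278 26843546
    (rowNX 3 1 true true false .up 2 0 3 (qsf 1239849684 370763052 0 536870912 3) ndN2q2b ndN6q0 pcN3 Cut.none Ext.none)

def k0_pm_203_b : ∃ t, chk3 f_pm_203_b t 1 1 1 = true :=
  ⟨(b (l 4) (l 4)), by decide +kernel⟩

theorem c_pm_203_b : CertNX 1239849684 370763052 0 536870912 1046898278 26843546 3 true true false .up 2 0 3
    ndN2q2b ndN6q0 pcN3 Cut.none Ext.none :=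
  certNX1 (fam := true) (s1 := true) (s2 := false) (a := 2) (b := 0) (c := 3) (cn := .up) (n1 := ndN2q2b) (n2 := ndN6q0) (pc := pcN3) (cut := Cut.none) (xt := Ext.none) (P1 := 1239849684) (W1 := 370763052) (P2 := 0) (W2 := 536870912) (P3 := 1046898278) (W3 := 26843546) (N0 := 3)
    rfl (fun _ => rfl) k0_pm_203_b

noncomputable def f_pm_213_a : ℕ → ℕ → ℕ → ℕ → Bool := onCell 0 420477299 536870912 469762048 1046898278 26843546
    (rowNX 3 0 true true false .pnn 2 1 3 (qsf 0 420477299 536870912 469762048 3) ndN2q2a ndN6q1 pcN3 Cut.none Ext.none)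

def k0_pm_213_a : ∃ t, chk3 f_pm_213_a t 1 1 1 = true :=
  ⟨(b (l 4) (l 4)), by decide +kernel⟩

theorem c_pm_213_a : CertNX 0 420477299 536870912 469762048 1046898278 26843546 3 true true false .pnn 2 1 3
    ndN2q2a ndN6q1 pcN3 Cut.none Ext.none :=
  certNX0 (fam := true) (s1 := true) (s2 := false) (a := 2) (b := 1) (c := 3) (cn := .pnn) (n1 := ndN2q2a) (n2 := ndN6q1) (pc := pcN3) (cut := Cut.none) (xt := Ext.none) (P1 := 0) (W1 := 420477299) (P2 := 536870912) (W2 := 469762048) (P3 := 1046898278) (W3 := 26843546) (N0 := 3)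
    rfl k0_pm_213_a

noncomputable def f_pm_213_b : ℕ → ℕ → ℕ → ℕ → Bool := onCell 1239849684 370763052 536870912 469762048 1046898278 26843546
    (rowNX 3 0 true true false .pnn 2 1 3 (qsf 1239849684 370763052 536870912 469762048 3) ndN2q2b ndN6q1 pcN3 Cut.none Ext.none)

def k0_pm_213_b : ∃ t, chk3 f_pm_213_b t 1 1 1 = true :=
  ⟨(l 4), by decide +kernel⟩

theorem c_pm_213_b : CertNX 1239849684 370763052 536870912 469762048 1046898278 26843546 3 true true false .pnn 2 1 3
    ndN2q2b ndN6q1 pcN3 Cut.none Ext.none :=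
  certNX0 (fam := true) (s1 := true) (s2 := false) (a := 2) (b := 1) (c := 3) (cn := .pnn) (n1 := ndN2q2b) (n2 := ndN6q1) (pc := pcN3) (cut := Cut.none) (xt := Ext.none) (P1 := 1239849684) (W1 := 370763052) (P2 := 536870912) (W2 := 469762048) (P3 := 1046898278) (W3 := 26843546) (N0 := 3)
    rfl k0_pm_213_b

noncomputable def f_pm_303 : ℕ → ℕ → ℕ → ℕ → Bool := onCell 1610612736 536870912 0 536870912 1046898278 26843546
    (rowNX 3 2 true true false .npn 3 0 3 (qsf 1610612736 469762048 0 536870912 3) ndN2q3 ndN6q0 pcN3 Cut.none Ext.none)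

def k0_pm_303 : ∃ t, chk3 f_pm_303 t 1 1 1 = true :=
  ⟨(a (l 4) (l 4)), by decide +kernel⟩

theorem c_pm_303 : CertNX 1610612736 469762048 0 536870912 1046898278 26843546 3 true true false .npn 3 0 3
    ndN2q3 ndN6q0 pcN3 Cut.none Ext.none :=
  certNX2 (fam := true) (s1 := true) (s2 := false) (a := 3) (b := 0) (c := 3) (cn := .npn) (n1 := ndN2q3) (n2 := ndN6q0) (pc := pcN3) (cut := Cut.none) (xt := Ext.none) (P1 := 1610612736) (W1 := 469762048) (P2 := 0) (W2 := 536870912) (P3 := 1046898278) (W3 := 26843546) (N0 := 3)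
    rfl (fun _ => rfl) k0_pm_303

noncomputable def f_pm_313 : ℕ → ℕ → ℕ → ℕ → Bool := onCell 1610612736 469762048 536870912 469762048 1046898278 26843546
    (rowNX 3 0 true true false .dn 3 1 3 (qsf 1610612736 469762048 536870912 469762048 3) ndN2q3 ndN6q1 pcN3 Cut.none Ext.none)

def k0_pm_313 : ∃ t, chk3 f_pm_313 t 1 1 1 = true :=
  ⟨(l 4), by decide +kernel⟩

theorem c_pm_313 : CertNX 1610612736 469762048 536870912 469762048 1046898278 26843546 3 true true false .dn 3 1 3
    ndN2q3 ndN6q1 pcN3 Cut.none Ext.none :=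
  certNX0 (fam := true) (s1 := true) (s2 := false) (a := 3) (b := 1) (c := 3) (cn := .dn) (n1 := ndN2q3) (n2 := ndN6q1) (pc := pcN3) (cut := Cut.none) (xt := Ext.none) (P1 := 1610612736) (W1 := 469762048) (P2 := 536870912) (W2 := 469762048) (P3 := 1046898278) (W3 := 26843546) (N0 := 3)
    rfl k0_pm_313

noncomputable def f_mm_001 : ℕ → ℕ → ℕ → ℕ → Bool := onCell 67108864 469762048 0 536870912 1046898278 26843546
    (rowNX 3 0 true false false .up 0 0 1 (qsf 67108864 469762048 0 536870912 1) ndN2q0 ndN6q0 pcN1 Cut.none Ext.none)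

def k0_mm_001 : ∃ t, chk3 f_mm_001 t 1 1 1 = true :=
  ⟨(l 4), by decide +kernel⟩

theorem c_mm_001 : CertNX 67108864 469762048 0 536870912 1046898278 26843546 3 true false false .up 0 0 1
    ndN2q0 ndN6q0 pcN1 Cut.none Ext.none :=
  certNX0 (fam := true) (s1 := false) (s2 := false) (a := 0) (b := 0) (c := 1) (cn := .up) (n1 := ndN2q0) (n2 := ndN6q0) (pc := pcN1) (cut := Cut.none) (xt := Ext.none) (P1 := 67108864) (W1 := 469762048) (P2 := 0) (W2 := 536870912) (P3 := 1046898278) (W3 := 26843546) (N0 := 3)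
    rfl k0_mm_001

noncomputable def f_mm_011 : ℕ → ℕ → ℕ → ℕ → Bool := onCell 67108864 469762048 536870912 469762048 1046898278 26843546
    (rowNX 3 0 true false false .pnn 0 1 1 (qsf 67108864 469762048 536870912 469762048 1) ndN2q0 ndN6q1 pcN1 Cut.none Ext.none)

def k0_mm_011 : ∃ t, chk3 f_mm_011 t 1 1 1 = true :=
  ⟨(l 4), by decide +kernel⟩

theorem c_mm_011 : CertNX 67108864 469762048 536870912 469762048 1046898278 26843546 3 true false false .pnn 0 1 1
    ndN2q0 ndN6q1 pcN1 Cut.none Ext.none :=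
  certNX0 (fam := true) (s1 := false) (s2 := false) (a := 0) (b := 1) (c := 1) (cn := .pnn) (n1 := ndN2q0) (n2 := ndN6q1) (pc := pcN1) (cut := Cut.none) (xt := Ext.none) (P1 := 67108864) (W1 := 469762048) (P2 := 536870912) (W2 := 469762048) (P3 := 1046898278) (W3 := 26843546) (N0 := 3)
    rfl k0_mm_011

noncomputable def f_mm_012 : ℕ → ℕ → ℕ → ℕ → Bool := onCell 67108864 469762048 536870912 469762048 1046898278 26843546
    (rowNX 3 0 true false false .pnp 0 1 2 (qsf 67108864 469762048 536870912 469762048 2) ndN2q0 ndN6q1 pcN2 Cut.none Ext.none)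

def k0_mm_012 : ∃ t, chk3 f_mm_012 t 1 1 1 = true :=
  ⟨(l 4), by decide +kernel⟩

theorem c_mm_012 : CertNX 67108864 469762048 536870912 469762048 1046898278 26843546 3 true false false .pnp 0 1 2
    ndN2q0 ndN6q1 pcN2 Cut.none Ext.none :=
  certNX0 (fam := true) (s1 := false) (s2 := false) (a := 0) (b := 1) (c := 2) (cn := .pnp) (n1 := ndN2q0) (n2 := ndN6q1) (pc := pcN2) (cut := Cut.none) (xt := Ext.none) (P1 := 67108864) (W1 := 469762048) (P2 := 536870912) (W2 := 469762048) (P3 := 1046898278) (W3 := 26843546) (N0 := 3)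
    rfl k0_mm_012

noncomputable def f_mm_022 : ℕ → ℕ → ℕ → ℕ → Bool := onCell 67108864 469762048 1073741824 536870912 1046898278 26843546
    (rowNX 3 0 true false false .pp 0 2 2 (qsf 67108864 469762048 1073741824 536870912 2) ndN2q0 ndN6q2 pcN2 Cut.none Ext.none)

def k0_mm_022 : ∃ t, chk3 f_mm_022 t 1 1 1 = true :=
  ⟨(l 4), by decide +kernel⟩

theorem c_mm_022 : CertNX 67108864 469762048 1073741824 536870912 1046898278 26843546 3 true false false .pp 0 2 2
    ndN2q0 ndN6q2 pcN2 Cut.none Ext.none :=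
  certNX0 (fam := true) (s1 := false) (s2 := false) (a := 0) (b := 2) (c := 2) (cn := .pp) (n1 := ndN2q0) (n2 := ndN6q2) (pc := pcN2) (cut := Cut.none) (xt := Ext.none) (P1 := 67108864) (W1 := 469762048) (P2 := 1073741824) (W2 := 536870912) (P3 := 1046898278) (W3 := 26843546) (N0 := 3)
    rfl k0_mm_022

noncomputable def f_mm_023 : ℕ → ℕ → ℕ → ℕ → Bool := onCell 67108864 469762048 1073741824 536870912 1046898278 26843546
    (rowNX 3 0 true false false .up 0 2 3 (qsf 67108864 469762048 1073741824 536870912 3) ndN2q0 ndN6q2 pcN3 Cut.none Ext.none)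

def k0_mm_023 : ∃ t, chk3 f_mm_023 t 1 1 1 = true :=
  ⟨(l 4), by decide +kernel⟩

theorem c_mm_023 : CertNX 67108864 469762048 1073741824 536870912 1046898278 26843546 3 true false false .up 0 2 3
    ndN2q0 ndN6q2 pcN3 Cut.none Ext.none :=
  certNX0 (fam := true) (s1 := false) (s2 := false) (a := 0) (b := 2) (c := 3) (cn := .up) (n1 := ndN2q0) (n2 := ndN6q2) (pc := pcN3) (cut := Cut.none) (xt := Ext.none) (P1 := 67108864) (W1 := 469762048) (P2 := 1073741824) (W2 := 536870912) (P3 := 1046898278) (W3 := 26843546) (N0 := 3)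
    rfl k0_mm_023

noncomputable def f_mm_033 : ℕ → ℕ → ℕ → ℕ → Bool := onCell 67108864 469762048 0 1230186008 1046898278 26843546
    (rowNX 3 0 true false false .pnn 0 3 3 (qsf 67108864 469762048 0 1230186008 3) ndN2q0 ndN6q3 pcN3 Cut.none Ext.none)

def k0_mm_033 : ∃ t, chk3 f_mm_033 t 1 1 1 = true :=
  ⟨(l 5), by decide +kernel⟩

theorem c_mm_033 : CertNX 67108864 469762048 0 1230186008 1046898278 26843546 3 true false false .pnn 0 3 3
    ndN2q0 ndN6q3 pcN3 Cut.none Ext.none :=
  certNX0 (fam := true) (s1 := false) (s2 := false) (a := 0) (b := 3) (c := 3) (cn := .pnn) (n1 := ndN2q0) (n2 := ndN6q3) (pc := pcN3) (cut := Cut.none) (xt := Ext.none) (P1 := 67108864) (W1 := 469762048) (P2 := 0) (W2 := 1230186008) (P3 := 1046898278) (W3 := 26843546) (N0 := 3)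
    rfl k0_mm_033

noncomputable def f_mm_101 : ℕ → ℕ → ℕ → ℕ → Bool := onCell 536870912 536870912 0 536870912 1046898278 26843546
    (rowNX 3 0 true false false .npn 1 0 1 (qsf 536870912 536870912 0 536870912 1) ndN2q1 ndN6q0 pcN1 Cut.none Ext.none)

def k0_mm_101 : ∃ t, chk3 f_mm_101 t 1 1 1 = true :=
  ⟨(l 4), by decide +kernel⟩

theorem c_mm_101 : CertNX 536870912 536870912 0 536870912 1046898278 26843546 3 true false false .npn 1 0 1
    ndN2q1 ndN6q0 pcN1 Cut.none Ext.none :=
  certNX0 (fam := true) (s1 := false) (s2 := false) (a := 1) (b := 0) (c := 1) (cn := .npn) (n1 := ndN2q1) (n2 := ndN6q0) (pc := pcN1) (cut := Cut.none) (xt := Ext.none) (P1 := 536870912) (W1 := 536870912) (P2 := 0) (W2 := 536870912) (P3 := 1046898278) (W3 := 26843546) (N0 := 3)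
    rfl k0_mm_101

noncomputable def f_mm_102 : ℕ → ℕ → ℕ → ℕ → Bool := onCell 536870912 536870912 0 536870912 1046898278 26843546
    (rowNX 3 0 true false false .npp 1 0 2 (qsf 536870912 536870912 0 536870912 2) ndN2q1 ndN6q0 pcN2 Cut.none Ext.none)

def k0_mm_102 : ∃ t, chk3 f_mm_102 t 1 1 1 = true :=
  ⟨(l 4), by decide +kernel⟩

theorem c_mm_102 : CertNX 536870912 536870912 0 536870912 1046898278 26843546 3 true false false .npp 1 0 2
    ndN2q1 ndN6q0 pcN2 Cut.none Ext.none :=
  certNX0 (fam := true) (s1 := false) (s2 := false) (a := 1) (b := 0) (c := 2) (cn := .npp) (n1 := ndN2q1) (n2 := ndN6q0) (pc := pcN2) (cut := Cut.none) (xt := Ext.none) (P1 := 536870912) (W1 := 536870912) (P2 := 0) (W2 := 536870912) (P3 := 1046898278) (W3 := 26843546) (N0 := 3)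
    rfl k0_mm_102

noncomputable def f_mm_112 : ℕ → ℕ → ℕ → ℕ → Bool := onCell 536870912 536870912 536870912 469762048 1046898278 26843546
    (rowNX 3 0 true false false .dn 1 1 2 (qsf 536870912 536870912 536870912 469762048 2) ndN2q1 ndN6q1 pcN2 Cut.none Ext.none)

def k0_mm_112 : ∃ t, chk3 f_mm_112 t 1 1 1 = true :=
  ⟨(l 4), by decide +kernel⟩

theorem c_mm_112 : CertNX 536870912 536870912 536870912 469762048 1046898278 26843546 3 true false false .dn 1 1 2
    ndN2q1 ndN6q1 pcN2 Cut.none Ext.none :=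
  certNX0 (fam := true) (s1 := false) (s2 := false) (a := 1) (b := 1) (c := 2) (cn := .dn) (n1 := ndN2q1) (n2 := ndN6q1) (pc := pcN2) (cut := Cut.none) (xt := Ext.none) (P1 := 536870912) (W1 := 536870912) (P2 := 536870912) (W2 := 469762048) (P3 := 1046898278) (W3 := 26843546) (N0 := 3)
    rfl k0_mm_112

noncomputable def f_mm_113 : ℕ → ℕ → ℕ → ℕ → Bool := onCell 536870912 536870912 536870912 469762048 1046898278 26843546
    (rowNX 3 0 true false false .nn 1 1 3 (qsf 536870912 536870912 536870912 469762048 3) ndN2q1 ndN6q1 pcN3 Cut.none Ext.none)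

def k0_mm_113 : ∃ t, chk3 f_mm_113 t 1 1 1 = true :=
  ⟨(l 4), by decide +kernel⟩

theorem c_mm_113 : CertNX 536870912 536870912 536870912 469762048 1046898278 26843546 3 true false false .nn 1 1 3
    ndN2q1 ndN6q1 pcN3 Cut.none Ext.none :=
  certNX0 (fam := true) (s1 := false) (s2 := false) (a := 1) (b := 1) (c := 3) (cn := .nn) (n1 := ndN2q1) (n2 := ndN6q1) (pc := pcN3) (cut := Cut.none) (xt := Ext.none) (P1 := 536870912) (W1 := 536870912) (P2 := 536870912) (W2 := 469762048) (P3 := 1046898278) (W3 := 26843546) (N0 := 3)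
    rfl k0_mm_113

noncomputable def f_mm_123 : ℕ → ℕ → ℕ → ℕ → Bool := onCell 536870912 536870912 1073741824 536870912 1046898278 26843546
    (rowNX 3 0 true false false .npn 1 2 3 (qsf 536870912 536870912 1073741824 536870912 3) ndN2q1 ndN6q2 pcN3 Cut.none Ext.none)

def k0_mm_123 : ∃ t, chk3 f_mm_123 t 1 1 1 = true :=
  ⟨(l 4), by decide +kernel⟩

theorem c_mm_123 : CertNX 536870912 536870912 1073741824 536870912 1046898278 26843546 3 true false false .npn 1 2 3
    ndN2q1 ndN6q2 pcN3 Cut.none Ext.none :=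
  certNX0 (fam := true) (s1 := false) (s2 := false) (a := 1) (b := 2) (c := 3) (cn := .npn) (n1 := ndN2q1) (n2 := ndN6q2) (pc := pcN3) (cut := Cut.none) (xt := Ext.none) (P1 := 536870912) (W1 := 536870912) (P2 := 1073741824) (W2 := 536870912) (P3 := 1046898278) (W3 := 26843546) (N0 := 3)
    rfl k0_mm_123

noncomputable def f_mm_133 : ℕ → ℕ → ℕ → ℕ → Bool := onCell 536870912 536870912 0 1230186008 1046898278 26843546
    (rowNX 3 0 true false false .dn 1 3 3 (qsf 536870912 536870912 0 1230186008 3) ndN2q1 ndN6q3 pcN3 Cut.none Ext.none)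

def k0_mm_133 : ∃ t, chk3 f_mm_133 t 1 1 1 = true :=
  ⟨(l 4), by decide +kernel⟩

theorem c_mm_133 : CertNX 536870912 536870912 0 1230186008 1046898278 26843546 3 true false false .dn 1 3 3
    ndN2q1 ndN6q3 pcN3 Cut.none Ext.none :=
  certNX0 (fam := true) (s1 := false) (s2 := false) (a := 1) (b := 3) (c := 3) (cn := .dn) (n1 := ndN2q1) (n2 := ndN6q3) (pc := pcN3) (cut := Cut.none) (xt := Ext.none) (P1 := 536870912) (W1 := 536870912) (P2 := 0) (W2 := 1230186008) (P3 := 1046898278) (W3 := 26843546) (N0 := 3)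
    rfl k0_mm_133

noncomputable def f_mm_202_a : ℕ → ℕ → ℕ → ℕ → Bool := onCell 0 420477299 0 536870912 1046898278 26843546
    (rowNX 3 0 true false false .pp 2 0 2 (qsf 0 420477299 0 536870912 2) ndN2q2a ndN6q0 pcN2 Cut.none Ext.none)

def k0_mm_202_a : ∃ t, chk3 f_mm_202_a t 1 1 1 = true :=
  ⟨(l 4), by decide +kernel⟩

theorem c_mm_202_a : CertNX 0 420477299 0 536870912 1046898278 26843546 3 true false false .pp 2 0 2
    ndN2q2a ndN6q0 pcN2 Cut.none Ext.none :=
  certNX0 (fam := true) (s1 := false) (s2 := false) (a := 2) (b := 0) (c := 2) (cn := .pp) (n1 := ndN2q2a) (n2 := ndN6q0) (pc := pcN2) (cut := Cut.none) (xt := Ext.none) (P1 := 0) (W1 := 420477299) (P2 := 0) (W2 := 536870912) (P3 := 1046898278) (W3 := 26843546) (N0 := 3)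
    rfl k0_mm_202_a

noncomputable def f_mm_202_b : ℕ → ℕ → ℕ → ℕ → Bool := onCell 1239849684 370763052 0 536870912 1046898278 26843546
    (rowNX 3 0 true false false .pp 2 0 2 (qsf 1239849684 370763052 0 536870912 2) ndN2q2b ndN6q0 pcN2 Cut.none Ext.none)

def k0_mm_202_b : ∃ t, chk3 f_mm_202_b t 1 1 1 = true :=
  ⟨(l 4), by decide +kernel⟩

theorem c_mm_202_b : CertNX 1239849684 370763052 0 536870912 1046898278 26843546 3 true false false .pp 2 0 2
    ndN2q2b ndN6q0 pcN2 Cut.none Ext.none :=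
  certNX0 (fam := true) (s1 := false) (s2 := false) (a := 2) (b := 0) (c := 2) (cn := .pp) (n1 := ndN2q2b) (n2 := ndN6q0) (pc := pcN2) (cut := Cut.none) (xt := Ext.none) (P1 := 1239849684) (W1 := 370763052) (P2 := 0) (W2 := 536870912) (P3 := 1046898278) (W3 := 26843546) (N0 := 3)
    rfl k0_mm_202_b

noncomputable def f_mm_203_a : ℕ → ℕ → ℕ → ℕ → Bool := onCell 0 420477299 0 536870912 1046898278 26843546
    (rowNX 3 0 true false false .up 2 0 3 (qsf 0 420477299 0 536870912 3) ndN2q2a ndN6q0 pcN3 Cut.none Ext.none)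

def k0_mm_203_a : ∃ t, chk3 f_mm_203_a t 1 1 1 = true :=
  ⟨(l 4), by decide +kernel⟩

theorem c_mm_203_a : CertNX 0 420477299 0 536870912 1046898278 26843546 3 true false false .up 2 0 3
    ndN2q2a ndN6q0 pcN3 Cut.none Ext.none :=
  certNX0 (fam := true) (s1 := false) (s2 := false) (a := 2) (b := 0) (c := 3) (cn := .up) (n1 := ndN2q2a) (n2 := ndN6q0) (pc := pcN3) (cut := Cut.none) (xt := Ext.none) (P1 := 0) (W1 := 420477299) (P2 := 0) (W2 := 536870912) (P3 := 1046898278) (W3 := 26843546) (N0 := 3)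
    rfl k0_mm_203_a

noncomputable def f_mm_203_b : ℕ → ℕ → ℕ → ℕ → Bool := onCell 1239849684 370763052 0 536870912 1046898278 26843546
    (rowNX 3 0 true false false .up 2 0 3 (qsf 1239849684 370763052 0 536870912 3) ndN2q2b ndN6q0 pcN3 Cut.none Ext.none)

def k0_mm_203_b : ∃ t, chk3 f_mm_203_b t 1 1 1 = true :=
  ⟨(l 4), by decide +kernel⟩

theorem c_mm_203_b : CertNX 1239849684 370763052 0 536870912 1046898278 26843546 3 true false false .up 2 0 3
    ndN2q2b ndN6q0 pcN3 Cut.none Ext.none :=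
  certNX0 (fam := true) (s1 := false) (s2 := false) (a := 2) (b := 0) (c := 3) (cn := .up) (n1 := ndN2q2b) (n2 := ndN6q0) (pc := pcN3) (cut := Cut.none) (xt := Ext.none) (P1 := 1239849684) (W1 := 370763052) (P2 := 0) (W2 := 536870912) (P3 := 1046898278) (W3 := 26843546) (N0 := 3)
    rfl k0_mm_203_b

noncomputable def f_mm_213_a : ℕ → ℕ → ℕ → ℕ → Bool := onCell 0 420477299 536870912 469762048 1046898278 26843546
    (rowNX 3 0 true false false .pnn 2 1 3 (qsf 0 420477299 536870912 469762048 3) ndN2q2a ndN6q1 pcN3 Cut.none Ext.none)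

def k0_mm_213_a : ∃ t, chk3 f_mm_213_a t 1 1 1 = true :=
  ⟨(l 4), by decide +kernel⟩

theorem c_mm_213_a : CertNX 0 420477299 536870912 469762048 1046898278 26843546 3 true false false .pnn 2 1 3
    ndN2q2a ndN6q1 pcN3 Cut.none Ext.none :=
  certNX0 (fam := true) (s1 := false) (s2 := false) (a := 2) (b := 1) (c := 3) (cn := .pnn) (n1 := ndN2q2a) (n2 := ndN6q1) (pc := pcN3) (cut := Cut.none) (xt := Ext.none) (P1 := 0) (W1 := 420477299) (P2 := 536870912) (W2 := 469762048) (P3 := 1046898278) (W3 := 26843546) (N0 := 3)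
    rfl k0_mm_213_a

noncomputable def f_mm_213_b : ℕ → ℕ → ℕ → ℕ → Bool := onCell 1239849684 370763052 536870912 469762048 1046898278 26843546
    (rowNX 3 0 true false false .pnn 2 1 3 (qsf 1239849684 370763052 536870912 469762048 3) ndN2q2b ndN6q1 pcN3 Cut.none Ext.none)

def k0_mm_213_b : ∃ t, chk3 f_mm_213_b t 1 1 1 = true :=
  ⟨(l 4), by decide +kernel⟩

theorem c_mm_213_b : CertNX 1239849684 370763052 536870912 469762048 1046898278 26843546 3 true false false .pnn 2 1 3
    ndN2q2b ndN6q1 pcN3 Cut.none Ext.none :=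
  certNX0 (fam := true) (s1 := false) (s2 := false) (a := 2) (b := 1) (c := 3) (cn := .pnn) (n1 := ndN2q2b) (n2 := ndN6q1) (pc := pcN3) (cut := Cut.none) (xt := Ext.none) (P1 := 1239849684) (W1 := 370763052) (P2 := 536870912) (W2 := 469762048) (P3 := 1046898278) (W3 := 26843546) (N0 := 3)
    rfl k0_mm_213_b

noncomputable def f_mm_303 : ℕ → ℕ → ℕ → ℕ → Bool := onCell 1610612736 469762048 0 536870912 1046898278 26843546
    (rowNX 3 0 true false false .npn 3 0 3 (qsf 1610612736 469762048 0 536870912 3) ndN2q3 ndN6q0 pcN3 Cut.none Ext.none)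

def k0_mm_303 : ∃ t, chk3 f_mm_303 t 1 1 1 = true :=
  ⟨(l 4), by decide +kernel⟩

theorem c_mm_303 : CertNX 1610612736 469762048 0 536870912 1046898278 26843546 3 true false false .npn 3 0 3
    ndN2q3 ndN6q0 pcN3 Cut.none Ext.none :=
  certNX0 (fam := true) (s1 := false) (s2 := false) (a := 3) (b := 0) (c := 3) (cn := .npn) (n1 := ndN2q3) (n2 := ndN6q0) (pc := pcN3) (cut := Cut.none) (xt := Ext.none) (P1 := 1610612736) (W1 := 469762048) (P2 := 0) (W2 := 536870912) (P3 := 1046898278) (W3 := 26843546) (N0 := 3)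
    rfl k0_mm_303

noncomputable def f_mm_313 : ℕ → ℕ → ℕ → ℕ → Bool := onCell 1610612736 469762048 536870912 469762048 1046898278 26843546
    (rowNX 3 0 true false false .dn 3 1 3 (qsf 1610612736 469762048 536870912 469762048 3) ndN2q3 ndN6q1 pcN3 Cut.none Ext.none)

def k0_mm_313 : ∃ t, chk3 f_mm_313 t 1 1 1 = true :=
  ⟨(l 4), by decide +kernel⟩

theorem c_mm_313 : CertNX 1610612736 469762048 536870912 469762048 1046898278 26843546 3 true false false .dn 3 1 3
    ndN2q3 ndN6q1 pcN3 Cut.none Ext.none :=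
  certNX0 (fam := true) (s1 := false) (s2 := false) (a := 3) (b := 1) (c := 3) (cn := .dn) (n1 := ndN2q3) (n2 := ndN6q1) (pc := pcN3) (cut := Cut.none) (xt := Ext.none) (P1 := 1610612736) (W1 := 469762048) (P2 := 536870912) (W2 := 469762048) (P3 := 1046898278) (W3 := 26843546) (N0 := 3)
    rfl k0_mm_313

end Pool.Agent.Strip051.G.IE1.Tab.C.NA26

namespace Pool.Agent.Strip051.G.IE1.Tab.C.NA27

open Pool.Agent.Strip051.PB Pool.Agent.Strip051.PB.T
open Pool.Agent.Strip051.G.IE1.Tab

noncomputable def f_pp_001 : ℕ → ℕ → ℕ → ℕ → Bool := onCell 67108864 469762048 0 536870912 1046898278 26843546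
    (rowNX 3 0 true true true .up 0 0 1 (qsf 67108864 469762048 0 536870912 1) ndN2q0 ndN7q0 pcN1 Cut.none Ext.none)

def k0_pp_001 : ∃ t, chk3 f_pp_001 t 1 1 1 = true :=
  ⟨(l 4), by decide +kernel⟩

theorem c_pp_001 : CertNX 67108864 469762048 0 536870912 1046898278 26843546 3 true true true .up 0 0 1
    ndN2q0 ndN7q0 pcN1 Cut.none Ext.none :=
  certNX0 (fam := true) (s1 := true) (s2 := true) (a := 0) (b := 0) (c := 1) (cn := .up) (n1 := ndN2q0) (n2 := ndN7q0) (pc := pcN1) (cut := Cut.none) (xt := Ext.none) (P1 := 67108864) (W1 := 469762048) (P2 := 0) (W2 := 536870912) (P3 := 1046898278) (W3 := 26843546) (N0 := 3)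
    rfl k0_pp_001

noncomputable def f_pp_011 : ℕ → ℕ → ℕ → ℕ → Bool := onCell 67108864 469762048 536870912 536870912 1046898278 26843546
    (rowNX 3 0 true true true .pnn 0 1 1 (qsf 67108864 469762048 536870912 536870912 1) ndN2q0 ndN7q1 pcN1 Cut.none Ext.none)

def k0_pp_011 : ∃ t, chk3 f_pp_011 t 1 1 1 = true :=
  ⟨(l 4), by decide +kernel⟩

theorem c_pp_011 : CertNX 67108864 469762048 536870912 536870912 1046898278 26843546 3 true true true .pnn 0 1 1
    ndN2q0 ndN7q1 pcN1 Cut.none Ext.none :=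
  certNX0 (fam := true) (s1 := true) (s2 := true) (a := 0) (b := 1) (c := 1) (cn := .pnn) (n1 := ndN2q0) (n2 := ndN7q1) (pc := pcN1) (cut := Cut.none) (xt := Ext.none) (P1 := 67108864) (W1 := 469762048) (P2 := 536870912) (W2 := 536870912) (P3 := 1046898278) (W3 := 26843546) (N0 := 3)
    rfl k0_pp_011

noncomputable def f_pp_012 : ℕ → ℕ → ℕ → ℕ → Bool := onCell 67108864 469762048 536870912 536870912 1046898278 26843546
    (rowNX 3 0 true true true .pnp 0 1 2 (qsf 67108864 469762048 536870912 536870912 2) ndN2q0 ndN7q1 pcN2 Cut.none Ext.none)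

def k0_pp_012 : ∃ t, chk3 f_pp_012 t 1 1 1 = true :=
  ⟨(l 4), by decide +kernel⟩

theorem c_pp_012 : CertNX 67108864 469762048 536870912 536870912 1046898278 26843546 3 true true true .pnp 0 1 2
    ndN2q0 ndN7q1 pcN2 Cut.none Ext.none :=
  certNX0 (fam := true) (s1 := true) (s2 := true) (a := 0) (b := 1) (c := 2) (cn := .pnp) (n1 := ndN2q0) (n2 := ndN7q1) (pc := pcN2) (cut := Cut.none) (xt := Ext.none) (P1 := 67108864) (W1 := 469762048) (P2 := 536870912) (W2 := 536870912) (P3 := 1046898278) (W3 := 26843546) (N0 := 3)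
    rfl k0_pp_012

noncomputable def f_pp_022 : ℕ → ℕ → ℕ → ℕ → Bool := onCell 67108864 469762048 1073741824 536870912 1046898278 26843546
    (rowNX 3 0 true true true .pp 0 2 2 (qsf 67108864 469762048 1073741824 536870912 2) ndN2q0 ndN7q2 pcN2 Cut.none Ext.none)

def k0_pp_022 : ∃ t, chk3 f_pp_022 t 1 1 1 = true :=
  ⟨(l 4), by decide +kernel⟩

theorem c_pp_022 : CertNX 67108864 469762048 1073741824 536870912 1046898278 26843546 3 true true true .pp 0 2 2
    ndN2q0 ndN7q2 pcN2 Cut.none Ext.none :=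
  certNX0 (fam := true) (s1 := true) (s2 := true) (a := 0) (b := 2) (c := 2) (cn := .pp) (n1 := ndN2q0) (n2 := ndN7q2) (pc := pcN2) (cut := Cut.none) (xt := Ext.none) (P1 := 67108864) (W1 := 469762048) (P2 := 1073741824) (W2 := 536870912) (P3 := 1046898278) (W3 := 26843546) (N0 := 3)
    rfl k0_pp_022

noncomputable def f_pp_023 : ℕ → ℕ → ℕ → ℕ → Bool := onCell 67108864 469762048 1073741824 536870912 1046898278 26843546
    (rowNX 3 0 true true true .up 0 2 3 (qsf 67108864 469762048 1073741824 536870912 3) ndN2q0 ndN7q2 pcN3 Cut.none Ext.none)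

def k0_pp_023 : ∃ t, chk3 f_pp_023 t 1 1 1 = true :=
  ⟨(l 4), by decide +kernel⟩

theorem c_pp_023 : CertNX 67108864 469762048 1073741824 536870912 1046898278 26843546 3 true true true .up 0 2 3
    ndN2q0 ndN7q2 pcN3 Cut.none Ext.none :=
  certNX0 (fam := true) (s1 := true) (s2 := true) (a := 0) (b := 2) (c := 3) (cn := .up) (n1 := ndN2q0) (n2 := ndN7q2) (pc := pcN3) (cut := Cut.none) (xt := Ext.none) (P1 := 67108864) (W1 := 469762048) (P2 := 1073741824) (W2 := 536870912) (P3 := 1046898278) (W3 := 26843546) (N0 := 3)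
    rfl k0_pp_023

noncomputable def f_pp_033 : ℕ → ℕ → ℕ → ℕ → Bool := onCell 67108864 469762048 0 1230186008 1046898278 26843546
    (rowNX 3 0 true true true .pnn 0 3 3 (qsf 67108864 469762048 0 1230186008 3) ndN2q0 ndN7q3 pcN3 Cut.none Ext.none)

def k0_pp_033 : ∃ t, chk3 f_pp_033 t 1 1 1 = true :=
  ⟨(l 4), by decide +kernel⟩

theorem c_pp_033 : CertNX 67108864 469762048 0 1230186008 1046898278 26843546 3 true true true .pnn 0 3 3
    ndN2q0 ndN7q3 pcN3 Cut.none Ext.none :=
  certNX0 (fam := true) (s1 := true) (s2 := true) (a := 0) (b := 3) (c := 3) (cn := .pnn) (n1 := ndN2q0) (n2 := ndN7q3) (pc := pcN3) (cut := Cut.none) (xt := Ext.none) (P1 := 67108864) (W1 := 469762048) (P2 := 0) (W2 := 1230186008) (P3 := 1046898278) (W3 := 26843546) (N0 := 3)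
    rfl k0_pp_033

noncomputable def f_pp_101 : ℕ → ℕ → ℕ → ℕ → Bool := onCell 536870912 536870912 0 536870912 1046898278 26843546
    (rowNX 3 0 true true true .npn 1 0 1 (qsf 536870912 536870912 0 536870912 1) ndN2q1 ndN7q0 pcN1 Cut.none Ext.none)

def k0_pp_101 : ∃ t, chk3 f_pp_101 t 1 1 1 = true :=
  ⟨(l 4), by decide +kernel⟩

theorem c_pp_101 : CertNX 536870912 536870912 0 536870912 1046898278 26843546 3 true true true .npn 1 0 1
    ndN2q1 ndN7q0 pcN1 Cut.none Ext.none :=
  certNX0 (fam := true) (s1 := true) (s2 := true) (a := 1) (b := 0) (c := 1) (cn := .npn) (n1 := ndN2q1) (n2 := ndN7q0) (pc := pcN1) (cut := Cut.none) (xt := Ext.none) (P1 := 536870912) (W1 := 536870912) (P2 := 0) (W2 := 536870912) (P3 := 1046898278) (W3 := 26843546) (N0 := 3)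
    rfl k0_pp_101

noncomputable def f_pp_102 : ℕ → ℕ → ℕ → ℕ → Bool := onCell 536870912 536870912 0 536870912 1046898278 26843546
    (rowNX 3 0 true true true .npp 1 0 2 (qsf 536870912 536870912 0 536870912 2) ndN2q1 ndN7q0 pcN2 Cut.none Ext.none)

def k0_pp_102 : ∃ t, chk3 f_pp_102 t 1 1 1 = true :=
  ⟨(l 4), by decide +kernel⟩

theorem c_pp_102 : CertNX 536870912 536870912 0 536870912 1046898278 26843546 3 true true true .npp 1 0 2
    ndN2q1 ndN7q0 pcN2 Cut.none Ext.none :=
  certNX0 (fam := true) (s1 := true) (s2 := true) (a := 1) (b := 0) (c := 2) (cn := .npp) (n1 := ndN2q1) (n2 := ndN7q0) (pc := pcN2) (cut := Cut.none) (xt := Ext.none) (P1 := 536870912) (W1 := 536870912) (P2 := 0) (W2 := 536870912) (P3 := 1046898278) (W3 := 26843546) (N0 := 3)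
    rfl k0_pp_102

noncomputable def f_pp_112 : ℕ → ℕ → ℕ → ℕ → Bool := onCell 536870912 536870912 536870912 536870912 1046898278 26843546
    (rowNX 3 0 true true true .dn 1 1 2 (qsf 536870912 536870912 536870912 536870912 2) ndN2q1 ndN7q1 pcN2 Cut.none Ext.none)

def k0_pp_112 : ∃ t, chk3 f_pp_112 t 1 1 1 = true :=
  ⟨(l 4), by decide +kernel⟩

theorem c_pp_112 : CertNX 536870912 536870912 536870912 536870912 1046898278 26843546 3 true true true .dn 1 1 2
    ndN2q1 ndN7q1 pcN2 Cut.none Ext.none :=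
  certNX0 (fam := true) (s1 := true) (s2 := true) (a := 1) (b := 1) (c := 2) (cn := .dn) (n1 := ndN2q1) (n2 := ndN7q1) (pc := pcN2) (cut := Cut.none) (xt := Ext.none) (P1 := 536870912) (W1 := 536870912) (P2 := 536870912) (W2 := 536870912) (P3 := 1046898278) (W3 := 26843546) (N0 := 3)
    rfl k0_pp_112

noncomputable def f_pp_113 : ℕ → ℕ → ℕ → ℕ → Bool := onCell 536870912 536870912 536870912 536870912 1046898278 26843546
    (rowNX 3 0 true true true .nn 1 1 3 (qsf 536870912 536870912 536870912 536870912 3) ndN2q1 ndN7q1 pcN3 Cut.none Ext.none)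

def k0_pp_113 : ∃ t, chk3 f_pp_113 t 1 1 1 = true :=
  ⟨(l 4), by decide +kernel⟩

theorem c_pp_113 : CertNX 536870912 536870912 536870912 536870912 1046898278 26843546 3 true true true .nn 1 1 3
    ndN2q1 ndN7q1 pcN3 Cut.none Ext.none :=
  certNX0 (fam := true) (s1 := true) (s2 := true) (a := 1) (b := 1) (c := 3) (cn := .nn) (n1 := ndN2q1) (n2 := ndN7q1) (pc := pcN3) (cut := Cut.none) (xt := Ext.none) (P1 := 536870912) (W1 := 536870912) (P2 := 536870912) (W2 := 536870912) (P3 := 1046898278) (W3 := 26843546) (N0 := 3)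
    rfl k0_pp_113

noncomputable def f_pp_123 : ℕ → ℕ → ℕ → ℕ → Bool := onCell 536870912 536870912 1073741824 536870912 1046898278 26843546
    (rowNX 3 0 true true true .npn 1 2 3 (qsf 536870912 536870912 1073741824 536870912 3) ndN2q1 ndN7q2 pcN3 Cut.none Ext.none)

def k0_pp_123 : ∃ t, chk3 f_pp_123 t 1 1 1 = true :=
  ⟨(l 4), by decide +kernel⟩

theorem c_pp_123 : CertNX 536870912 536870912 1073741824 536870912 1046898278 26843546 3 true true true .npn 1 2 3
    ndN2q1 ndN7q2 pcN3 Cut.none Ext.none :=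
  certNX0 (fam := true) (s1 := true) (s2 := true) (a := 1) (b := 2) (c := 3) (cn := .npn) (n1 := ndN2q1) (n2 := ndN7q2) (pc := pcN3) (cut := Cut.none) (xt := Ext.none) (P1 := 536870912) (W1 := 536870912) (P2 := 1073741824) (W2 := 536870912) (P3 := 1046898278) (W3 := 26843546) (N0 := 3)
    rfl k0_pp_123

noncomputable def f_pp_133 : ℕ → ℕ → ℕ → ℕ → Bool := onCell 536870912 536870912 0 1230186008 1046898278 26843546
    (rowNX 3 0 true true true .dn 1 3 3 (qsf 536870912 536870912 0 1230186008 3) ndN2q1 ndN7q3 pcN3 Cut.none Ext.none)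

def k0_pp_133 : ∃ t, chk3 f_pp_133 t 1 1 1 = true :=
  ⟨(l 4), by decide +kernel⟩

theorem c_pp_133 : CertNX 536870912 536870912 0 1230186008 1046898278 26843546 3 true true true .dn 1 3 3
    ndN2q1 ndN7q3 pcN3 Cut.none Ext.none :=
  certNX0 (fam := true) (s1 := true) (s2 := true) (a := 1) (b := 3) (c := 3) (cn := .dn) (n1 := ndN2q1) (n2 := ndN7q3) (pc := pcN3) (cut := Cut.none) (xt := Ext.none) (P1 := 536870912) (W1 := 536870912) (P2 := 0) (W2 := 1230186008) (P3 := 1046898278) (W3 := 26843546) (N0 := 3)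
    rfl k0_pp_133

noncomputable def f_pp_202_a : ℕ → ℕ → ℕ → ℕ → Bool := onCell 0 420477299 0 536870912 1046898278 26843546
    (rowNX 3 0 true true true .pp 2 0 2 (qsf 0 420477299 0 536870912 2) ndN2q2a ndN7q0 pcN2 Cut.none Ext.none)

def k0_pp_202_a : ∃ t, chk3 f_pp_202_a t 1 1 1 = true :=
  ⟨(l 4), by decide +kernel⟩

theorem c_pp_202_a : CertNX 0 420477299 0 536870912 1046898278 26843546 3 true true true .pp 2 0 2
    ndN2q2a ndN7q0 pcN2 Cut.none Ext.none :=
  certNX0 (fam := true) (s1 := true) (s2 := true) (a := 2) (b := 0) (c := 2) (cn := .pp) (n1 := ndN2q2a) (n2 := ndN7q0) (pc := pcN2) (cut := Cut.none) (xt := Ext.none) (P1 := 0) (W1 := 420477299) (P2 := 0) (W2 := 536870912) (P3 := 1046898278) (W3 := 26843546) (N0 := 3)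
    rfl k0_pp_202_a

noncomputable def f_pp_202_b : ℕ → ℕ → ℕ → ℕ → Bool := onCell 1239849684 370763052 0 536870912 1046898278 26843546
    (rowNX 3 0 true true true .pp 2 0 2 (qsf 1239849684 370763052 0 536870912 2) ndN2q2b ndN7q0 pcN2 Cut.none Ext.none)

def k0_pp_202_b : ∃ t, chk3 f_pp_202_b t 1 1 1 = true :=
  ⟨(l 4), by decide +kernel⟩

theorem c_pp_202_b : CertNX 1239849684 370763052 0 536870912 1046898278 26843546 3 true true true .pp 2 0 2
    ndN2q2b ndN7q0 pcN2 Cut.none Ext.none :=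
  certNX0 (fam := true) (s1 := true) (s2 := true) (a := 2) (b := 0) (c := 2) (cn := .pp) (n1 := ndN2q2b) (n2 := ndN7q0) (pc := pcN2) (cut := Cut.none) (xt := Ext.none) (P1 := 1239849684) (W1 := 370763052) (P2 := 0) (W2 := 536870912) (P3 := 1046898278) (W3 := 26843546) (N0 := 3)
    rfl k0_pp_202_b

noncomputable def f_pp_203_a : ℕ → ℕ → ℕ → ℕ → Bool := onCell 0 420477299 0 536870912 1046898278 26843546
    (rowNX 3 0 true true true .up 2 0 3 (qsf 0 420477299 0 536870912 3) ndN2q2a ndN7q0 pcN3 Cut.none Ext.none)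

def k0_pp_203_a : ∃ t, chk3 f_pp_203_a t 1 1 1 = true :=
  ⟨(l 4), by decide +kernel⟩

theorem c_pp_203_a : CertNX 0 420477299 0 536870912 1046898278 26843546 3 true true true .up 2 0 3
    ndN2q2a ndN7q0 pcN3 Cut.none Ext.none :=
  certNX0 (fam := true) (s1 := true) (s2 := true) (a := 2) (b := 0) (c := 3) (cn := .up) (n1 := ndN2q2a) (n2 := ndN7q0) (pc := pcN3) (cut := Cut.none) (xt := Ext.none) (P1 := 0) (W1 := 420477299) (P2 := 0) (W2 := 536870912) (P3 := 1046898278) (W3 := 26843546) (N0 := 3)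
    rfl k0_pp_203_a

noncomputable def f_pp_203_b : ℕ → ℕ → ℕ → ℕ → Bool := onCell 1239849684 370763052 0 536870912 1046898278 26843546
    (rowNX 3 0 true true true .up 2 0 3 (qsf 1239849684 370763052 0 536870912 3) ndN2q2b ndN7q0 pcN3 Cut.none Ext.none)

def k0_pp_203_b : ∃ t, chk3 f_pp_203_b t 1 1 1 = true :=
  ⟨(l 4), by decide +kernel⟩

theorem c_pp_203_b : CertNX 1239849684 370763052 0 536870912 1046898278 26843546 3 true true true .up 2 0 3
    ndN2q2b ndN7q0 pcN3 Cut.none Ext.none :=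
  certNX0 (fam := true) (s1 := true) (s2 := true) (a := 2) (b := 0) (c := 3) (cn := .up) (n1 := ndN2q2b) (n2 := ndN7q0) (pc := pcN3) (cut := Cut.none) (xt := Ext.none) (P1 := 1239849684) (W1 := 370763052) (P2 := 0) (W2 := 536870912) (P3 := 1046898278) (W3 := 26843546) (N0 := 3)
    rfl k0_pp_203_b

noncomputable def f_pp_213_a : ℕ → ℕ → ℕ → ℕ → Bool := onCell 0 420477299 536870912 536870912 1046898278 26843546
    (rowNX 3 0 true true true .pnn 2 1 3 (qsf 0 420477299 536870912 536870912 3) ndN2q2a ndN7q1 pcN3 Cut.none Ext.none)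

def k0_pp_213_a : ∃ t, chk3 f_pp_213_a t 1 1 1 = true :=
  ⟨(l 4), by decide +kernel⟩

theorem c_pp_213_a : CertNX 0 420477299 536870912 536870912 1046898278 26843546 3 true true true .pnn 2 1 3
    ndN2q2a ndN7q1 pcN3 Cut.none Ext.none :=
  certNX0 (fam := true) (s1 := true) (s2 := true) (a := 2) (b := 1) (c := 3) (cn := .pnn) (n1 := ndN2q2a) (n2 := ndN7q1) (pc := pcN3) (cut := Cut.none) (xt := Ext.none) (P1 := 0) (W1 := 420477299) (P2 := 536870912) (W2 := 536870912) (P3 := 1046898278) (W3 := 26843546) (N0 := 3)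
    rfl k0_pp_213_a

noncomputable def f_pp_213_b : ℕ → ℕ → ℕ → ℕ → Bool := onCell 1239849684 370763052 536870912 536870912 1046898278 26843546
    (rowNX 3 0 true true true .pnn 2 1 3 (qsf 1239849684 370763052 536870912 536870912 3) ndN2q2b ndN7q1 pcN3 Cut.none Ext.none)

def k0_pp_213_b : ∃ t, chk3 f_pp_213_b t 1 1 1 = true :=
  ⟨(l 4), by decide +kernel⟩

theorem c_pp_213_b : CertNX 1239849684 370763052 536870912 536870912 1046898278 26843546 3 true true true .pnn 2 1 3
    ndN2q2b ndN7q1 pcN3 Cut.none Ext.none :=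
  certNX0 (fam := true) (s1 := true) (s2 := true) (a := 2) (b := 1) (c := 3) (cn := .pnn) (n1 := ndN2q2b) (n2 := ndN7q1) (pc := pcN3) (cut := Cut.none) (xt := Ext.none) (P1 := 1239849684) (W1 := 370763052) (P2 := 536870912) (W2 := 536870912) (P3 := 1046898278) (W3 := 26843546) (N0 := 3)
    rfl k0_pp_213_b

noncomputable def f_pp_303 : ℕ → ℕ → ℕ → ℕ → Bool := onCell 1610612736 469762048 0 536870912 1046898278 26843546
    (rowNX 3 0 true true true .npn 3 0 3 (qsf 1610612736 469762048 0 536870912 3) ndN2q3 ndN7q0 pcN3 Cut.none Ext.none)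

def k0_pp_303 : ∃ t, chk3 f_pp_303 t 1 1 1 = true :=
  ⟨(l 4), by decide +kernel⟩

theorem c_pp_303 : CertNX 1610612736 469762048 0 536870912 1046898278 26843546 3 true true true .npn 3 0 3
    ndN2q3 ndN7q0 pcN3 Cut.none Ext.none :=
  certNX0 (fam := true) (s1 := true) (s2 := true) (a := 3) (b := 0) (c := 3) (cn := .npn) (n1 := ndN2q3) (n2 := ndN7q0) (pc := pcN3) (cut := Cut.none) (xt := Ext.none) (P1 := 1610612736) (W1 := 469762048) (P2 := 0) (W2 := 536870912) (P3 := 1046898278) (W3 := 26843546) (N0 := 3)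
    rfl k0_pp_303

noncomputable def f_pp_313 : ℕ → ℕ → ℕ → ℕ → Bool := onCell 1610612736 469762048 536870912 536870912 1046898278 26843546
    (rowNX 3 0 true true true .dn 3 1 3 (qsf 1610612736 469762048 536870912 536870912 3) ndN2q3 ndN7q1 pcN3 Cut.none Ext.none)

def k0_pp_313 : ∃ t, chk3 f_pp_313 t 1 1 1 = true :=
  ⟨(l 4), by decide +kernel⟩

theorem c_pp_313 : CertNX 1610612736 469762048 536870912 536870912 1046898278 26843546 3 true true true .dn 3 1 3
    ndN2q3 ndN7q1 pcN3 Cut.none Ext.none :=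
  certNX0 (fam := true) (s1 := true) (s2 := true) (a := 3) (b := 1) (c := 3) (cn := .dn) (n1 := ndN2q3) (n2 := ndN7q1) (pc := pcN3) (cut := Cut.none) (xt := Ext.none) (P1 := 1610612736) (W1 := 469762048) (P2 := 536870912) (W2 := 536870912) (P3 := 1046898278) (W3 := 26843546) (N0 := 3)
    rfl k0_pp_313

noncomputable def f_pm_001 : ℕ → ℕ → ℕ → ℕ → Bool := onCell 67108864 469762048 0 536870912 1046898278 26843546
    (rowNX 3 0 true true false .up 0 0 1 (qsf 67108864 469762048 0 536870912 1) ndN2q0 ndN7q0 pcN1 Cut.none Ext.none)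

def k0_pm_001 : ∃ t, chk3 f_pm_001 t 1 1 1 = true :=
  ⟨(b (l 3) (a (l 3) (l 3))), by decide +kernel⟩

theorem c_pm_001 : CertNX 67108864 469762048 0 536870912 1046898278 26843546 3 true true false .up 0 0 1
    ndN2q0 ndN7q0 pcN1 Cut.none Ext.none :=
  certNX0 (fam := true) (s1 := true) (s2 := false) (a := 0) (b := 0) (c := 1) (cn := .up) (n1 := ndN2q0) (n2 := ndN7q0) (pc := pcN1) (cut := Cut.none) (xt := Ext.none) (P1 := 67108864) (W1 := 469762048) (P2 := 0) (W2 := 536870912) (P3 := 1046898278) (W3 := 26843546) (N0 := 3)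
    rfl k0_pm_001

noncomputable def f_pm_011 : ℕ → ℕ → ℕ → ℕ → Bool := onCell 67108864 469762048 536870912 536870912 1046898278 26843546
    (rowNX 3 1 true true false .pnn 0 1 1 (qsf 67108864 469762048 536870912 536870912 1) ndN2q0 ndN7q1 pcN1 Cut.none Ext.none)

def k0_pm_011 : ∃ t, chk3 f_pm_011 t 1 1 1 = true :=
  ⟨(b (l 3) (b (l 3) (a (l 3) (l 3)))), by decide +kernel⟩

theorem c_pm_011 : CertNX 67108864 469762048 536870912 536870912 1046898278 26843546 3 true true false .pnn 0 1 1
    ndN2q0 ndN7q1 pcN1 Cut.none Ext.none :=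
  certNX1 (fam := true) (s1 := true) (s2 := false) (a := 0) (b := 1) (c := 1) (cn := .pnn) (n1 := ndN2q0) (n2 := ndN7q1) (pc := pcN1) (cut := Cut.none) (xt := Ext.none) (P1 := 67108864) (W1 := 469762048) (P2 := 536870912) (W2 := 536870912) (P3 := 1046898278) (W3 := 26843546) (N0 := 3)
    rfl (fun _ => rfl) k0_pm_011

noncomputable def f_pm_012 : ℕ → ℕ → ℕ → ℕ → Bool := onCell 1073741824 536870912 536870912 536870912 1046898278 26843546
    (rowNX 3 2 true true false .pnp 0 1 2 (qsf 67108864 469762048 536870912 536870912 2) ndN2q0 ndN7q1 pcN2 Cut.none Ext.none)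

def k0_pm_012 : ∃ t, chk3 f_pm_012 t 4 2 1 = true :=
  ⟨(a (a (b (a (l 3) (c (a (a (c (l 15595152) (l 1035251989415)) (c (l 15647160) (l 15608872))) (c (b (l 15623912) (l 337320020775)) (l 15642184))) (l 15565536))) (a (l 3) (a (l 3) (c (c (b (a (c (l 15851864) (l 15820200)) (l 15852168)) (a (l 3) (l 16336656))) (l 16009680)) (l 15781440))))) (b (a (c (b (l 15593216) (l 15785568)) (a (l 15675968) (l 15749064))) (c (a (l 15899880) (l 15959824)) (a (l 15862984) (l 15929432)))) (a (c (b (a (l 15895896) (l 16015456)) (a (l 16378072) (l 16412456))) (b (a (l 15860544) (l 15986712)) (a (l 16366680) (l 16409016)))) (b (c (l 16135216) (l 16111384)) (a (l 16365584) (l 16335200)))))) (a (b (a (b (l 16107800) (l 16033904)) (l 16454472)) (a (b (c (l 16336144) (l 16323432)) (l 16135888)) (b (l 16393688) (c (l 16146256) (l 16125184))))) (b (a (l 16705464) (l 16674848)) (b (a (l 16596384) (l 16592992)) (a (l 16037992) (l 16024208)))))), by decide +kernel⟩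

def k1_pm_012 : ∃ t, chk3 f_pm_012 t 8 6 1 = true :=
  ⟨(a (a (l 3) (b (l 3) (b (l 3) (a (l 3) (a (l 3) (c (l 14866336) (l 14890736))))))) (b (a (a (a (l 15791864) (l 15942632)) (c (l 15896552) (l 15872168))) (c (l 15626576) (l 15786416))) (a (b (a (a (c (l 15490184) (l 15449136)) (c (l 15451176) (l 15410120))) (c (b (l 15515952) (l 15261016)) (b (l 15477480) (l 15213408)))) (c (a (a (l 14932096) (l 14890952)) (l 14741912)) (a (l 14850392) (l 14762840)))) (a (b (b (l 15424200) (l 15168584)) (l 14470520)) (b (c (l 15276568) (l 15226664)) (l 14679608)))))), by decide +kernel⟩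

def k2_pm_012 : ∃ t, chk3 f_pm_012 t 32 7 1 = true :=
  ⟨(b (l 3) (b (b (l 3) (b (l 3) (l 1))) (l 1))), by decide +kernel⟩

def k3_pm_012 : ∃ t, chk3 f_pm_012 t 66 7 1 = true :=
  ⟨(b (a (l 3) (a (l 3) (b (l 3) (b (l 3) (b (l 3) (c (c (c (l 15083472) (c (l 15111760) (l 15100824))) (c (c (l 519318021911) (l 15011784)) (l 14996664))) (l 14959256))))))) (b (b (a (a (l 3) (b (l 3) (c (c (l 15936496) (c (l 15728800) (c (l 575691318231) (l 15950200)))) (l 15911456)))) (c (c (a (b (l 15511176) (l 15600832)) (c (l 15521232) (c (l 15370728) (l 15470120)))) (c (b (c (a (l 15529544) (l 15453008)) (c (l 15337880) (l 15451016))) (c (a (l 15857344) (l 15758904)) (l 15609096))) (b (l 15410688) (c (l 15717168) (l 15775040))))) (b (l 15374600) (l 15734408)))) (a (b (a (b (l 3) (l 1)) (c (c (b (l 16115616) (l 16215512)) (c (b (b (l 16162248) (l 16131288)) (l 16232064)) (b (c (l 16249024) (l 16223960)) (l 16302176)))) (c (b (l 15967192) (c (l 16200680) (l 16243008))) (l 16175688)))) (l 1))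 (b (c (c (a (b (l 16045704) (c (l 16158064) (l 16094728))) (c (l 15861864) (a (b (l 15956832) (l 16106104)) (l 224980333255)))) (c (a (b (l 15962912) (c (l 16133624) (l 16208520))) (b (l 15987272) (l 16060872))) (b (l 16082656) (l 16146216)))) (c (b (l 16016096) (c (c (b (l 16157312) (l 16244824)) (l 16071256)) (l 16148520))) (l 15935000))) (a (l 1) (b (c (c (c (l 16123096) (l 16083072)) (l 16201016)) (c (c (l 16196216) (l 16189776)) (l 16183264))) (l 1)))))) (l 1))), by decide +kernel⟩

def k4_pm_012 : ∃ t, chk3 f_pm_012 t 67 14 1 = true :=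
  ⟨(c (b (c (a (b (l 3) (c (l 14496704) (l 14495688))) (b (l 14550744) (c (l 14465024) (l 14450896)))) (l 546160427351)) (c (b (c (a (b (c (l 14541568) (l 14498968)) (c (a (l 14631944) (l 14610008)) (a (l 14573448) (l 14566624)))) (b (c (l 14513712) (l 14469056)) (c (a (l 14604512) (l 14588256)) (l 14538568)))) (a (a (l 14513312) (l 14495464)) (l 14456776))) (c (a (b (a (b (c (l 14656800) (l 14651056)) (l 14762104)) (c (l 14639096) (b (l 14624504) (l 14691176)))) (a (l 14967088) (l 14863824))) (b (c (a (l 14605000) (l 14576952)) (b (l 14595736) (l 14610368))) (a (l 14769464) (l 14671296)))) (c (a (b (b (a (l 14589056) (l 14555536)) (a (l 14763072) (l 14673712))) (a (l 15017016) (l 14918016))) (b (l 14552064) (l 14756864))) (b (a (b (l 14518008) (l 14641224)) (l 14480792)) (a (l 14697160) (l 14731352)))))) (b (l 14449224) (b (a (l 14546752) (l 14432632)) (c (c (b (l 14670160) (l 14883032)) (l 14732440)) (l 14717024)))))) (b (b (l 14489056) (l 14393160)) (b (l 14392440) (b (a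 (l 14490736) (l 14375472)) (l 14675240))))), by decide +kernel⟩

def k5_pm_012 : ∃ t, chk3 f_pm_012 t 67 15 1 = true :=
  ⟨(b (c (b (c (a (c (a (c (l 15390912) (l 15218608)) (c (l 15220584) (l 15209224))) (a (b (l 15316256) (l 15580320)) (l 15334448))) (c (a (c (b (l 15034160) (l 15348640)) (l 15213184)) (l 15057144)) (l 15187936))) (c (b (c (l 15151824) (b (l 15019688) (l 15237032))) (l 15465608)) (b (l 14902920) (c (b (l 15385352) (l 15584472)) (l 15222336))))) (c (a (a (b (c (l 15755936) (l 15745800)) (b (c (c (b (l 16059520) (l 16080632)) (l 15955344)) (a (l 16127688) (l 15977888))) (l 1))) (c (b (c (l 15767000) (l 15789664)) (b (l 15903512) (l 16069088))) (b (l 15808248) (l 15965920)))) (b (c (a (a (l 15706216) (l 15655296)) (l 15574040)) (l 15639968)) (b (l 15878840) (c (a (l 407516739543) (l 15974288)) (l 16014856))))) (b (c (l 15721968) (b (l 15654864) (l 15906256))) (a (b (l 16003992) (l 16149048)) (b (l 15920696) (l 16040128)))))) (b (c (l 15010152) (l 15194240))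 (b (c (c (b (l 15635016) (c (l 15732424) (l 15850088))) (l 15753472)) (l 15741216)) (c (c (b (a (c (l 16058176) (b (l 16098048) (l 16152440))) (l 15808056)) (a (l 16199416) (l 605085192999))) (b (l 15757920) (a (l 16163176) (l 15841128)))) (a (l 15966152) (l 15910840)))))) (b (b (b (c (c (c (a (l 1) (l 652329959191)) (l 654477492935)) (l 16121912)) (c (c (l 16164008) (l 15995440)) (l 16128848))) (l 1)) (l 1)) (l 1))), by decide +kernel⟩

def k6_pm_012 : ∃ t, chk3 f_pm_012 t 68 14 1 = true :=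
  ⟨(b (c (b (a (l 14498368) (l 14445480)) (a (l 14391128) (l 14318760))) (b (l 14400256) (l 14277280))) (c (c (b (c (a (b (l 14449336) (c (l 14549360) (l 14487184))) (b (l 14375144) (l 14439856))) (a (l 14406064) (l 14331640))) (b (a (c (l 14532656) (c (l 14490256) (l 14419464))) (c (l 14457656) (l 14227272))) (b (a (c (l 14515784) (a (l 14532432) (l 14485496))) (l 14420776)) (a (a (l 14641528) (l 14538880)) (l 14425192))))) (b (a (l 14373312) (l 14298824)) (b (a (l 14372328) (l 14297576)) (a (c (b (a (l 14424984) (l 14378184)) (c (l 14557128) (l 14490072))) (l 14436384)) (c (b (l 14316912) (c (l 14389544) (l 14322328))) (l 14298400)))))) (a (b (l 14314152) (b (l 14313688) (a (l 14417232) (l 14341592)))) (l 14239160)))), by decide +kernel⟩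

def k7_pm_012 : ∃ t, chk3 f_pm_012 t 68 15 1 = true :=
  ⟨(b (c (b (b (c (a (l 14801800) (l 14562496)) (c (b (a (c (l 14757128) (l 14683648)) (l 14234624)) (l 14784848)) (a (l 14732864) (l 14489400)))) (c (l 14973224) (c (l 15025176) (c (b (l 14922816) (l 15120864)) (l 14819944))))) (b (c (l 15287216) (c (l 15317320) (c (l 15353912) (l 15124720)))) (a (a (l 15740920) (l 15647808)) (l 15309880)))) (b (a (b (l 14682640) (l 15037872)) (l 14502704)) (c (b (c (c (b (l 15213944) (l 15426360)) (l 15283256)) (l 15270976)) (c (b (c (l 15614864) (l 15457824)) (l 15623672)) (b (l 15538536) (l 15560952)))) (a (l 15569880) (l 15303184))))) (b (a (b (c (b (c (a (l 16001536) (l 15925256)) (l 15978920)) (c (l 651792990679) (l 16029128))) (c (c (l 627633658775) (b (c (b (l 16006088) (l 16065176)) (l 15967624)) (l 740376777559))) (l 15793008))) (l 1)) (c (b (b (l 15759888) (c (l 15633056) (l 15897616))) (c (l 657698395223) (l 15963368))) (c (b (c (l 15683448) (b (l 15774136) (c (l 15945552)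 (l 606158621863)))) (l 15934464)) (b (l 15754128) (c (l 768830641927) (l 15961624)))))) (l 1))), by decide +kernel⟩

def k8_pm_012 : ∃ t, chk3 f_pm_012 t 69 7 1 = true :=
  ⟨(b (c (b (b (l 14370880) (l 14210464)) (c (b (c (b (l 14260536) (l 14324352)) (l 14217080)) (c (l 14314008) (b (c (l 14299808) (l 14229392)) (l 14302200)))) (c (b (l 14192472) (b (l 14189664) (c (l 14247888) (l 14187368)))) (l 14170192)))) (b (b (l 14292160) (l 14126896)) (l 14114264))) (b (c (b (c (b (a (l 14323728) (l 14229872)) (l 14400392)) (b (c (b (c (l 14303704) (l 14227544)) (a (l 14419568) (l 14249584))) (a (l 14035368) (l 14145480))) (c (l 14530072) (c (b (l 14424024) (l 14615880)) (l 14462152))))) (c (b (l 14792568) (l 15122040)) (b (c (l 14816096) (l 14839480)) (l 15141792)))) (b (b (l 14165720) (l 14393688)) (c (c (b (c (l 14792048) (l 14766848)) (c (l 15172448) (l 14988488))) (l 14681536)) (l 14904848)))) (b (c (c (b (l 15444208) (a (b (l 15578888) (l 15837864)) (b (l 15602744) (l 15591176))))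 (b (l 15473000) (a (l 403758104711) (l 15512752)))) (c (b (c (l 15492656) (b (l 15273680) (c (l 15592424) (l 15578096)))) (b (b (l 594883742647) (l 601863279783)) (l 598105263703))) (b (l 15450600) (b (a (a (l 573409426951) (l 15614024)) (l 15597616)) (c (a (l 15843968) (c (l 15544040) (l 15732112))) (l 15768648)))))) (b (a (l 1) (c (c (l 664140554231) (l 15809232)) (c (l 15798984) (c (c (l 15804120) (l 783325877687)) (l 15792880))))) (l 1))))), by decide +kernel⟩

def k9_pm_012 : ∃ t, chk3 f_pm_012 t 35 14 1 = true :=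
  ⟨(b (b (a (l 14253976) (l 14207592)) (c (a (l 14099968) (l 14039288)) (l 13983568))) (c (c (b (c (a (b (l 14126120) (l 14188400)) (b (l 14032512) (l 14083992))) (a (l 14080280) (l 13978536))) (c (a (l 14176016) (l 14069120)) (a (b (c (l 14161872) (l 14089544)) (l 14161544)) (b (l 14029440) (l 14048984))))) (b (l 13991528) (c (a (b (l 14046256) (c (l 14103688) (l 14040768))) (l 13971184)) (l 13965456)))) (a (l 13965720) (l 13853376)))), by decide +kernel⟩

def k10_pm_012 : ∃ t, chk3 f_pm_012 t 70 15 1 = true :=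
  ⟨(b (c (b (c (b (l 14115120) (a (b (l 14125128) (l 14199696)) (l 14046640))) (b (c (l 14114184) (l 14024152)) (c (b (l 14131688) (l 14165912)) (b (c (l 14090296) (l 14022784)) (a (l 14219112) (l 14052920)))))) (b (c (l 14313840) (c (l 14326608) (b (l 14270424) (l 14426888)))) (c (l 14636704) (l 14642208)))) (b (b (l 13956472) (a (l 14065560) (l 13928144))) (c (c (b (b (l 14192080) (l 14389112)) (c (l 14665752) (l 14647328))) (b (l 14246280) (l 14600312))) (l 14390096)))) (c (c (b (b (l 14975184) (l 15262744)) (b (a (b (l 419863886855) (l 15697000)) (b (l 15466680) (a (l 15649776) (l 15568912)))) (c (l 674340845799) (l 698500066583)))) (b (b (l 14965624) (l 15314096)) (b (a (l 15689392) (l 15511896)) (l 15709424)))) (b (c (b (c (l 14976856) (c (l 14940832) (l 14920032))) (b (l 15216128) (l 15396168))) (b (l 14923376) (c (b (l 15214080) (c (l 15405504) (l 15382352))) (l 15282032)))) (c (b (a (l 15550712) (l 15349168)) (l 15692920)) (b (c (b (c (l 15393768) (a (l 579851400663)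 (l 15441024))) (a (l 15706776) (l 15549304))) (b (l 15436168) (a (l 15700736) (c (l 568040059639) (l 15558776))))) (c (l 15681920) (c (l 803189779447) (b (l 15667040) (l 1))))))))), by decide +kernel⟩

def k11_pm_012 : ∃ t, chk3 f_pm_012 t 71 15 1 = true :=
  ⟨(b (c (b (c (l 13983960) (c (b (l 13996600) (l 13986192)) (b (l 13905536) (l 13945248)))) (b (c (a (l 14024920) (l 13910504)) (c (l 13983336) (b (l 13965080) (l 14015504)))) (c (l 14184512) (l 14176872)))) (b (l 13833448) (c (b (c (b (l 13884024) (c (l 13993496) (l 13933720))) (l 13893776)) (c (b (l 14101264) (l 14264728)) (l 14124552))) (b (l 13856920) (l 14083320))))) (c (b (c (l 14624968) (l 14663800)) (b (l 187934691767) (c (a (b (l 15357496) (l 15595336)) (b (l 15356928) (l 15260688))) (a (l 15558072) (l 15395272))))) (b (c (c (l 14663736) (b (c (l 14500104) (l 14477176)) (l 14818976))) (b (l 14433208) (c (c (l 14774880) (l 14795704)) (l 14780888)))) (c (b (l 15168144) (a (l 15539192) (l 15373576))) (b (c (b (c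 (l 15076544) (l 15074224)) (l 15245696)) (l 14959632)) (c (a (l 15526296) (l 15358544)) (b (c (b (l 15232768) (l 15426320)) (l 551396685607)) (c (l 15488248) (a (l 15549408) (b (l 15402080) (l 15459072))))))))))), by decide +kernel⟩

def k12_pm_012 : ∃ t, chk3 f_pm_012 t 9 6 1 = true :=
  ⟨(a (b (a (c (l 15701664) (l 15666064)) (l 15390592)) (a (b (c (l 15168040) (l 15113144)) (c (b (l 14757664) (l 14453552)) (l 14531048))) (b (l 14942544) (c (l 14276952) (l 14319864))))) (a (b (a (l 15397240) (l 15359936)) (a (c (l 14481472) (l 14465776)) (l 14452048))) (b (l 15348760) (l 14429744)))), by decide +kernel⟩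

def k13_pm_012 : ∃ t, chk3 f_pm_012 t 18 14 1 = true :=
  ⟨(c (b (a (b (l 14135584) (l 13916496)) (b (l 13927216) (l 13697032))) (a (c (b (c (b (l 13887344) (a (l 13962576) (l 13828688))) (l 13812112)) (c (b (l 13884784) (l 13821952)) (b (c (l 13834968) (l 13759192)) (l 13820048)))) (b (l 13766480) (c (b (l 13713000) (l 13748232)) (l 13679528)))) (c (b (c (b (l 13662088) (l 13655632)) (l 13571776)) (c (l 13548536) (b (l 13526648) (l 13489928)))) (b (l 13522728) (c (b (l 13425120) (l 13415040)) (l 13367816)))))) (a (b (l 13931472) (l 13637128)) (b (l 13709184) (l 13367688)))), by decide +kernel⟩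

def k14_pm_012 : ∃ t, chk3 f_pm_012 t 18 30 1 = true :=
  ⟨(b (c (c (a (l 13749616) (l 13383056)) (a (c (b (l 13760184) (l 13744216)) (b (l 13666976) (l 13701096))) (c (b (l 13394160) (l 13363968)) (b (l 13297576) (l 13317336))))) (a (l 13586640) (l 13202848))) (c (a (b (c (l 13683512) (c (l 13681320) (l 13692392))) (a (c (a (l 13881600) (l 13721584)) (l 13798536)) (l 13562776))) (c (l 13287152) (c (l 13269800) (l 13257256)))) (a (c (b (c (l 13645848) (l 13583560)) (c (a (b (l 13759608) (l 13815248)) (l 13538616)) (a (l 13737680) (l 13476776)))) (a (l 13676480) (l 13433352))) (c (c (b (l 13250176) (l 13236104)) (l 13178840)) (l 13126920))))), by decide +kernel⟩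

def k15_pm_012 : ∃ t, chk3 f_pm_012 t 18 31 1 = true :=
  ⟨(c (a (b (a (c (l 13963192) (l 14075000)) (b (c (l 13605384) (l 13563768)) (l 13795176))) (a (b (l 14686056) (l 15035536)) (l 14298128))) (b (a (b (l 13330952) (a (l 13438040) (l 13273952))) (l 13125360)) (a (b (l 13579976) (l 13909504)) (b (a (l 13222480) (l 13060088)) (l 13363472))))) (a (b (c (b (c (a (l 13990016) (l 13556096)) (a (b (l 13892712) (l 14061616)) (b (l 13497352) (c (l 13571560) (l 13548256))))) (a (l 14301448) (l 13655872))) (b (a (l 13914424) (l 13470632)) (a (c (l 14071912) (l 14249736)) (b (l 13615856) (l 13774488))))) (c (a (l 14570072) (l 14238360)) (c (b (c (l 14341176) (b (l 14105552) (l 14416712))) (a (l 14975928) (l 14382824))) (b (a (l 14606280) (l 14020336)) (b (c (a (l 14874792) (l 14284248)) (l 14572208)) (c (l 14760536) (a (l 14879192) (l 14447800)))))))) (b (c (b (c (l 13192784) (l 13171008)) (a (b (l 13258904) (l 13314448)) (l 13038648))) (b (l 13098976) (a (c (b (l 13230488) (l 13201088))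 (l 13227160)) (l 12978224)))) (c (a (l 13669728) (b (l 13063760) (l 13275128))) (b (c (a (b (l 13322920) (l 13550056)) (b (l 12984440) (l 13039080))) (a (l 13443992) (l 12996232))) (c (l 13516320) (c (a (l 13784496) (l 13211640)) (b (l 13401728) (l 13356656))))))))), by decide +kernel⟩

def k16_pm_012 : ∃ t, chk3 f_pm_012 t 19 7 1 = true :=
  ⟨(b (a (b (a (c (b (l 13772032) (l 13535448)) (l 13544496)) (b (l 13662776) (l 13424368))) (c (c (a (b (c (l 13503792) (l 13403280)) (c (l 13363792) (l 13317624))) (b (l 13421632) (c (l 13306176) (l 13259440)))) (a (a (l 13329792) (l 13276120)) (l 13245296))) (a (l 13180856) (l 13121176)))) (b (b (l 13635224) (c (l 13461968) (l 13344952))) (c (c (b (c (l 13431152) (l 13329896)) (c (l 13286848) (l 13239904))) (l 13226648)) (l 13101912)))) (c (b (a (c (a (b (l 13140208) (l 13010208)) (l 12999928)) (b (a (c (b (l 13164032) (l 13097904)) (l 12963456)) (c (l 13051240) (l 12993520))) (a (l 12978856) (l 12863704)))) (c (l 12957272) (b (c (l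 13029232) (l 12971272)) (l 12803728)))) (a (a (b (l 12936024) (a (l 13116328) (l 12861368))) (l 12795288)) (l 12684808))) (b (a (b (a (l 12948352) (l 12871752)) (a (c (c (b (l 12965016) (l 12947568)) (l 12890056)) (l 12834104)) (c (c (l 12831808) (l 12772168)) (l 12714552)))) (b (l 12848912) (c (c (b (l 12807912) (l 12742600)) (l 12710728)) (l 12652208)))) (a (b (c (b (c (a (l 12899456) (l 12773904)) (a (l 12874960) (l 12748224))) (l 12777808)) (a (l 12708040) (l 12662560))) (c (a (b (l 12810608) (l 12848312)) (l 12672288)) (c (a (b (l 12769400) (l 12798928)) (l 12624096)) (b (l 12669536) (a (b (c (l 12736480) (l 12720304)) (c (l 12788064) (l 12771288))) (l 12574432)))))) (c (b (c (l 12643768) (b (l 12638984) (l 12586600))) (l 12553872)) (b (l 12549496) (c (l 12503992) (b (l 12483872) (l 12452480))))))))), by decide +kernel⟩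

def k17_pm_012 : ∃ t, chk3 f_pm_012 t 5 2 1 = true :=
  ⟨(a (a (b (a (l 16570992) (l 2)) (a (b (l 16607512) (l 16044000)) (a (b (l 16623352) (l 16072840)) (b (a (l 16632560) (l 16612216)) (a (l 16093240) (l 16107008)))))) (b (l 2) (b (l 16624008) (l 16091992)))) (b (l 2) (b (l 16596360) (l 15944184)))), by decide +kernel⟩

def k18_pm_012 : ∃ t, chk3 f_pm_012 t 5 6 1 = true :=
  ⟨(a (a (a (b (l 15369136) (l 14447256)) (a (b (l 15408016) (l 14493896)) (b (a (l 15438960) (l 15464152)) (a (l 14534936) (l 14342000))))) (b (l 15450696) (l 14562136))) (b (l 15212832) (a (l 14520648) (l 14504696)))), by decide +kernel⟩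

def k19_pm_012 : ∃ t, chk3 f_pm_012 t 10 14 1 = true :=
  ⟨(a (a (b (c (l 13571288) (l 13480944)) (c (c (a (b (l 13398280) (l 13270224)) (b (l 13446488) (l 13302544))) (b (l 13306520) (l 13196464))) (l 13133088))) (a (b (l 13566608) (c (b (l 13237360) (c (l 13271288) (l 13265536))) (l 13198744))) (b (a (l 13614752) (c (l 13714952) (l 13630520))) (c (a (c (b (l 13540608) (l 13412568)) (l 13376136)) (c (b (a (l 13579816) (l 13605472)) (a (l 13455784) (l 13483560))) (a (l 13418280) (l 13445552)))) (a (l 13255752) (l 13311152)))))) (c (b (l 13706224) (c (b (l 13582424) (l 13460000)) (l 13421976))) (l 13464568))), by decide +kernel⟩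

def k20_pm_012 : ∃ t, chk3 f_pm_012 t 10 15 1 = true :=
  ⟨(a (a (c (b (c (l 12981496) (b (c (l 13061088) (l 13003400)) (l 12824264))) (a (l 12624280) (l 12625608))) (b (c (b (l 12914976) (l 12534392)) (l 12761104)) (c (b (c (l 12608776) (b (l 12622048) (l 12529176))) (l 12467008)) (b (l 12513608) (c (b (l 12432752) (l 12395072)) (b (l 12397360) (l 12357712))))))) (c (a (b (c (l 13052064) (b (l 13101376) (l 12896816))) (l 12663952)) (b (c (a (l 13114968) (l 13177352)) (b (a (l 13164672) (a (l 13213160) (l 13245104))) (a (l 12961984) (l 13026944)))) (a (l 12722848) (l 12790192)))) (b (b (a (l 12955384) (a (l 13020568) (l 13084840))) (a (c (l 12839016) (l 12748760)) (a (l 12606048) (c (a (l 12956960) (l 12990960)) (l 12884096))))) (a (c (b (c (l 12672584) (l 12630824)) (l 12480328)) (b (l 12578936) (c (l 12429352) (b (l 12426000) (l 12352992))))) (c (a (b (c (l 12740424) (l 12699328)) (l 12536312)) (b (c (l 12808704) (b (l 12833160) (l 12728720))) (l 12606512))) (b (a (l 12648432)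 (a (l 12702800) (l 12738792))) (a (c (l 12486152) (l 12274736)) (c (a (l 12541376) (l 12578336)) (b (l 12568392) (a (l 12459600) (l 12497192))))))))))) (c (b (c (b (l 13272936) (l 13070152)) (b (c (l 13259960) (l 13204240)) (l 13039984))) (l 12805528)) (b (b (l 13087544) (a (l 12947072) (a (l 12811624) (l 12888592)))) (c (b (c (l 12824680) (l 12784416)) (l 12621536)) (b (l 12734776) (c (l 12572632) (l 12445944))))))), by decide +kernel⟩

def k21_pm_012 : ∃ t, chk3 f_pm_012 t 11 7 1 = true :=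
  ⟨(b (b (a (l 13611992) (l 13598776)) (c (a (c (l 13236528) (l 13381008)) (c (l 13456472) (l 13370032))) (l 13253904))) (c (b (b (c (l 13230656) (a (l 13192592) (l 13183368))) (a (l 13034824) (l 13026808))) (a (l 12797016) (l 12802248))) (b (a (b (l 13049328) (l 12911312)) (l 12977160)) (a (c (b (b (l 12825168) (l 12748888)) (l 12620080)) (b (l 12722744) (c (l 12466280) (b (l 12582104) (l 12491712))))) (c (b (l 12784696) (l 12630296)) (b (l 12719832) (c (l 12581512) (l 12538792)))))))), by decide +kernel⟩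

def k22_pm_012 : ∃ t, chk3 f_pm_012 t 3 1 1 = true :=
  ⟨(b (b (l 2) (a (b (l 2) (l 16041696)) (l 2))) (b (a (b (l 15393264) (l 14504672)) (b (l 2) (l 14504672))) (b (b (a (l 13598760) (l 13598760)) (c (a (c (b (l 13531400) (l 13409824)) (l 13370024)) (l 13409360)) (l 13249456))) (c (b (c (l 13145464) (a (b (l 13183368) (l 13005936)) (l 13070576))) (l 12802264)) (b (a (c (l 12940712) (l 12934816)) (l 12977160)) (a (b (c (l 12784696) (l 12719832)) (c (l 12630320) (b (l 12324776) (l 12518664)))) (c (l 12708024) (b (l 12719832) (l 12559560))))))))), by decide +kernel⟩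

theorem s23_pm_012 : ∃ t, chk3 f_pm_012 t 10 7 1 = true := ex3_b k19_pm_012 k20_pm_012

theorem s24_pm_012 : ∃ t, chk3 f_pm_012 t 5 7 1 = true := ex3_a s23_pm_012 k21_pm_012

theorem s25_pm_012 : ∃ t, chk3 f_pm_012 t 5 3 1 = true := ex3_b k18_pm_012 s24_pm_012

theorem s26_pm_012 : ∃ t, chk3 f_pm_012 t 5 1 1 = true := ex3_b k17_pm_012 s25_pm_012

theorem s27_pm_012 : ∃ t, chk3 f_pm_012 t 18 15 1 = true := ex3_b k14_pm_012 k15_pm_012

theorem s28_pm_012 : ∃ t, chk3 f_pm_012 t 18 7 1 = true := ex3_b k13_pm_012 s27_pm_012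

theorem s29_pm_012 : ∃ t, chk3 f_pm_012 t 9 7 1 = true := ex3_a s28_pm_012 k16_pm_012

theorem s30_pm_012 : ∃ t, chk3 f_pm_012 t 9 3 1 = true := ex3_b k12_pm_012 s29_pm_012

theorem s31_pm_012 : ∃ t, chk3 f_pm_012 t 35 15 1 = true := ex3_a k10_pm_012 k11_pm_012

theorem s32_pm_012 : ∃ t, chk3 f_pm_012 t 35 7 1 = true := ex3_b k9_pm_012 s31_pm_012

theorem s33_pm_012 : ∃ t, chk3 f_pm_012 t 68 7 1 = true := ex3_b k6_pm_012 k7_pm_012

theorem s34_pm_012 : ∃ t, chk3 f_pm_012 t 34 7 1 = true := ex3_a s33_pm_012 k8_pm_012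

theorem s35_pm_012 : ∃ t, chk3 f_pm_012 t 17 7 1 = true := ex3_a s34_pm_012 s32_pm_012

theorem s36_pm_012 : ∃ t, chk3 f_pm_012 t 67 7 1 = true := ex3_b k4_pm_012 k5_pm_012

theorem s37_pm_012 : ∃ t, chk3 f_pm_012 t 33 7 1 = true := ex3_a k3_pm_012 s36_pm_012

theorem s38_pm_012 : ∃ t, chk3 f_pm_012 t 16 7 1 = true := ex3_a k2_pm_012 s37_pm_012

theorem s39_pm_012 : ∃ t, chk3 f_pm_012 t 8 7 1 = true := ex3_a s38_pm_012 s35_pm_012

theorem s40_pm_012 : ∃ t, chk3 f_pm_012 t 8 3 1 = true := ex3_b k1_pm_012 s39_pm_012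

theorem s41_pm_012 : ∃ t, chk3 f_pm_012 t 4 3 1 = true := ex3_a s40_pm_012 s30_pm_012

theorem s42_pm_012 : ∃ t, chk3 f_pm_012 t 4 1 1 = true := ex3_b k0_pm_012 s41_pm_012

theorem s43_pm_012 : ∃ t, chk3 f_pm_012 t 2 1 1 = true := ex3_a s42_pm_012 s26_pm_012

theorem s44_pm_012 : ∃ t, chk3 f_pm_012 t 1 1 1 = true := ex3_a s43_pm_012 k22_pm_012

theorem c_pm_012 : CertNX 67108864 469762048 536870912 536870912 1046898278 26843546 3 true true false .pnp 0 1 2
    ndN2q0 ndN7q1 pcN2 Cut.none Ext.none :=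
  certNX2 (fam := true) (s1 := true) (s2 := false) (a := 0) (b := 1) (c := 2) (cn := .pnp) (n1 := ndN2q0) (n2 := ndN7q1) (pc := pcN2) (cut := Cut.none) (xt := Ext.none) (P1 := 67108864) (W1 := 469762048) (P2 := 536870912) (W2 := 536870912) (P3 := 1046898278) (W3 := 26843546) (N0 := 3)
    rfl (fun _ => rfl) s44_pm_012

end Pool.Agent.Strip051.G.IE1.Tab.C.NA27

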