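import Pool.Agent.Strip051.G.IE1.Tab

/-! # Certificates N32 (generated) -/

set_option linter.all false
set_option maxRecDepth 100000

namespace Pool.Agent.Strip051.G.IE1.Tab.C.NA27

open Pool.Agent.Strip051.PB Pool.Agent.Strip051.PB.T
open Pool.Agent.Strip051.G.IE1.Tab

noncomputable def f_pm_022 : ℕ → ℕ → ℕ → ℕ → Bool := onCell 1073741824 536870912 1073741824 536870912 1046898278 26843546
    (rowNX 3 2 true true false .pp 0 2 2 (qsf 67108864 469762048 1073741824 536870912 2) ndN2q0 ndN7q2 pcN2 Cut.none Ext.none)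

def k0_pm_022 : ∃ t, chk3 f_pm_022 t 8 4 1 = true :=
  ⟨(b (b (b (b (b (b (b (a (l 1) (a (l 1) (a (l 1) (a (l 1) (c (l 15539128) (l 15502912)))))) (l 1)) (l 1)) (l 1)) (l 1)) (l 1)) (l 1)) (l 1)), by decide +kernel⟩

def k1_pm_022 : ∃ t, chk3 f_pm_022 t 36 8 1 = true :=
  ⟨(b (a (b (b (c (a (c (b (l 15432008) (l 15525264)) (l 15461960)) (b (l 15176656) (l 627095436983))) (c (a (l 15441560) (l 15222856)) (c (a (l 15427536) (l 15205952)) (b (c (l 15229624) (a (b (l 15328952) (l 15405152)) (l 15103672))) (c (a (l 15483760) (l 15076440)) (l 631927334935)))))) (b (c (c (l 721585048871) (l 15517464)) (c (l 15498608) (c (l 15494712) (l 15487080)))) (l 1))) (l 1)) (b (c (b (l 14863960) (a (b (l 621726597799) (l 727490458567)) (b (l 15050448) (l 615284017159)))) (c (b (l 14819888) (a (l 15311088) (l 15096024))) (b (c (l 14797608) (c (l 324299061991) (b (l 14655712) (l 14898240)))) (c (b (l 608841343127) (c (l 15283640) (a (l 15372576) (l 15199480)))) (b (a (l 15179696) (l 14987232)) (l 15260424))))))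 (b (c (c (l 733932876087) (l 15416048)) (a (l 1) (c (l 15349696) (l 724805891511)))) (l 1)))) (l 1)), by decide +kernel⟩

def k2_pm_022 : ∃ t, chk3 f_pm_022 t 37 8 1 = true :=
  ⟨(b (c (b (a (b (l 14301624) (l 14743688)) (l 13976112)) (a (b (b (a (l 15081304) (l 14929936)) (a (l 738227602039) (l 605083226599))) (c (l 747354399463) (l 15300976))) (b (l 14634360) (c (b (l 559448857639) (a (l 15147672) (l 15002584))) (b (l 14915728) (l 15068984)))))) (b (c (a (l 14392840) (l 13907800)) (c (b (l 13921528) (b (l 14278000) (c (l 14529632) (a (l 14806896) (l 14237048))))) (b (b (a (l 13920392) (l 13488392)) (c (l 13879376) (l 14015936))) (a (l 14670512) (l 14093472))))) (a (c (b (b (l 15016400) (a (l 15253728) (l 15088776))) (c (l 15316672) (l 726953338599))) (b (c (b (c (l 610988637239) (l 14996408)) (l 619041925351)) (l 14858240)) (l 15271048))) (c (b (l 14395368) (c (b (l 14918544) (l 15088064)) (b (c (l 14940872) (l 14754816)) (a (l 15160120) (l 14915472))))) (b (b (l 14328824) (l 14693968))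 (l 14772336)))))) (b (b (c (c (a (l 1) (l 759702207751)) (l 722121518919)) (c (c (l 717826604983) (l 15303320)) (l 15279760))) (l 1)) (l 1))), by decide +kernel⟩

def k3_pm_022 : ∃ t, chk3 f_pm_022 t 38 8 1 = true :=
  ⟨(a (b (c (b (a (l 13573160) (l 13314240)) (b (l 14102992) (l 14350664))) (b (c (l 13361200) (c (b (l 13082448) (c (l 13569352) (l 13552568))) (b (c (l 13061360) (b (l 12923968) (l 13165360))) (l 13533440)))) (c (b (l 14035384) (c (l 14534000) (b (l 14412320) (l 14633648)))) (b (c (l 13886712) (l 13999648)) (l 14470768))))) (b (b (c (c (a (b (l 14951000) (l 15044432)) (b (l 14734672) (l 14907872))) (a (l 15009200) (l 14818968))) (c (c (b (a (l 14976872) (l 14751576)) (a (l 15081896) (c (l 14953096) (l 14917808)))) (b (l 606156364407) (l 14942984))) (l 609914521031))) (a (l 1) (c (c (l 697961756487) (l 710846701015)) (c (l 730710891015) (l 14985032))))) (l 1))) (b (c (b (b (l 12873960) (l 13208488)) (l 13871200)) (b (c (b (l 12771856) (l 13119856)) (b (c (l 12721440)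 (b (l 12605520) (c (l 12751248) (l 12735168)))) (c (b (l 12964528) (l 13196544)) (l 13053616)))) (c (c (l 13837248) (b (l 13581000) (l 14053928))) (b (l 13538392) (l 13994376))))) (c (b (b (l 14536096) (c (a (b (l 14906592) (l 15002912)) (l 14717848)) (c (l 692592765351) (b (l 14859200) (l 14777168))))) (b (b (c (l 15047432) (l 664139001831)) (l 1)) (l 1))) (b (b (c (c (l 343088996183) (l 14481880)) (l 14447304)) (c (b (c (a (l 14915672) (l 14745976)) (l 14768896)) (l 14925080)) (l 14805696))) (l 15091232))))), by decide +kernel⟩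

def k4_pm_022 : ∃ t, chk3 f_pm_022 t 39 8 1 = true :=
  ⟨(b (c (b (a (b (l 12737976) (l 12912184)) (l 12734240)) (a (l 13468120) (b (l 12968360) (l 13302176)))) (b (c (a (l 12734040) (l 12631000)) (b (c (l 12544840) (l 12466944)) (c (b (l 12656248) (a (l 12824480) (l 12684224))) (l 12457736)))) (c (b (a (l 13172800) (l 12889816)) (c (l 13460104) (b (l 13330360) (l 13552672)))) (b (a (l 13073248) (c (l 12766872) (l 12805976))) (l 13371984))))) (c (b (b (l 13755672) (c (l 14269480) (c (l 14387424) (a (l 14591984) (l 14205544))))) (c (b (a (b (l 14665800) (a (l 15046984) (l 14971200))) (l 14626984)) (a (l 684540201943) (b (l 14929736) (a (l 15118952) (l 15051224))))) (b (a (c (b (l 14900392) (l 15061352)) (b (a (l 14966384) (l 14807984)) (a (l 15052624) (l 14966048)))) (c (l 14665616) (l 14626376))) (a (c (l 15161992) (l 15082872)) (c (b (l 14952320) (l 640516642615)) (l 615820269703)))))) (b (c (c (b (b (l 13819072) (l 14041264)) (b (l 14250040) (l 14439784))) (b (l 13868256) (l 14306384)))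 (l 14055440)) (a (b (l 14841344) (l 15044344)) (b (l 14530952) (l 14876280)))))), by decide +kernel⟩

def k5_pm_022 : ∃ t, chk3 f_pm_022 t 9 9 1 = true :=
  ⟨(a (l 1) (a (l 1) (a (l 1) (b (b (b (c (c (c (l 15217784) (l 684003469799)) (l 15129432)) (l 15076896)) (l 1)) (l 1)) (l 1))))), by decide +kernel⟩

def k6_pm_022 : ∃ t, chk3 f_pm_022 t 4 5 1 = true :=
  ⟨(l 1), by decide +kernel⟩

def k7_pm_022 : ∃ t, chk3 f_pm_022 t 40 8 1 = true :=
  ⟨(b (c (b (l 12675376) (a (b (l 12869960) (l 13048416)) (l 12909792))) (c (b (l 12570408) (b (l 12775968) (c (l 12975552) (a (b (l 12909752) (l 13032800)) (l 12900896))))) (b (c (l 12269000) (b (l 12413272) (l 12556104))) (b (l 12710896) (l 12876016))))) (c (b (b (a (l 13396376) (l 13165848)) (c (l 13667248) (c (l 13666856) (l 13632400)))) (c (a (b (l 14273664) (l 14719384)) (l 14171632)) (b (c (l 14138248) (a (l 14262432) (l 13923896))) (c (a (l 14718680) (l 14382504)) (l 14470408))))) (b (a (c (c (b (l 13366352) (l 13796008)) (l 13522536))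 (l 13476424)) (c (b (c (b (l 13058928) (l 13183520)) (l 13063832)) (l 13434384)) (l 13197712))) (l 14122848)))), by decide +kernel⟩

def k8_pm_022 : ∃ t, chk3 f_pm_022 t 41 8 1 = true :=
  ⟨(b (c (a (l 12788008) (a (l 12812920) (a (l 12846344) (l 12869888)))) (a (c (b (l 12555400) (c (l 12852440) (b (l 12749184) (l 12899888)))) (b (c (l 12505416) (b (l 12398224) (l 12540544))) (l 12763216))) (c (a (b (l 12582016) (c (l 12877088) (b (l 12774344) (l 12924608)))) (b (l 12630296) (c (l 12918000) (b (l 12815896) (a (l 12957288) (l 12979096)))))) (b (a (c (l 12532400) (b (l 12426432) (l 12566584))) (c (a (l 12569096) (l 12595984)) (b (a (l 12466160) (l 12497000)) (l 12609344)))) (a (l 12788440) (a (l 12821744) (l 12843960))))))) (c (a (b (b (l 13114784) (c (l 13301472) (c (l 13295840) (l 13299792)))) (c (l 13872256) (b (c (l 13665832) (l 13617120)) (c (l 14078072) (l 13988864))))) (b (a (c (l 13212056) (l 13183024)) (c (l 13250552) (a (l 13214232) (l 13235120)))) (c (a (b (l 13487848)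 (l 13890456)) (a (l 13501088) (b (l 13474800) (l 13760984)))) (a (b (c (l 13507984) (l 13457760)) (l 13653448)) (b (a (c (l 13484928) (l 13434472)) (c (l 13494728) (l 13444352))) (a (l 13759896) (c (l 13744272) (l 13651824)))))))) (a (b (c (b (l 13046392) (b (l 13154632) (l 13251216))) (l 13055720)) (l 13713208)) (b (a (c (c (l 13154280) (l 13097784)) (l 13045640)) (c (c (a (l 13185920) (b (l 13155328) (l 13274592))) (l 13137928)) (l 13086344))) (a (l 13531232) (a (l 13477816) (l 13458248))))))), by decide +kernel⟩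

def k9_pm_022 : ∃ t, chk3 f_pm_022 t 21 8 1 = true :=
  ⟨(c (b (l 12818776) (b (c (l 13139384) (l 13108944)) (c (a (b (l 13410200) (l 13598576)) (l 13369648)) (b (c (l 13364720) (l 13313136)) (a (c (a (l 13629880) (l 13514768)) (l 13485536)) (l 13387376)))))) (b (c (b (l 12616736) (c (l 12837856) (b (l 12742744) (l 12865752)))) (b (c (l 12567624) (b (l 12484880) (l 12574280))) (l 12727256))) (b (c (c (b (l 13028120) (l 13143224)) (l 13021912)) (l 12968672)) (l 13201920)))), by decide +kernel⟩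

def k10_pm_022 : ∃ t, chk3 f_pm_022 t 20 9 1 = true :=
  ⟨(b (b (a (c (c (b (a (c (a (l 14995528) (l 15044672)) (b (l 15042320) (l 15161280))) (l 14613160)) (a (c (l 706015335927) (l 724805693911)) (c (b (l 15136080) (a (l 15286312) (l 15239424))) (b (l 15007496) (l 15155328))))) (b (a (b (l 14760288) (l 15051496)) (l 14723800)) (a (l 15162160) (l 15035016)))) (a (b (l 14926472) (l 15124232)) (b (l 14660032) (l 14993744)))) (a (c (c (b (l 14523816) (c (l 14958200) (l 14892464))) (l 314098114711)) (l 14555680)) (c (a (c (c (l 14545536) (b (l 14326072) (l 14691480))) (l 14413192)) (c (a (c (l 14465664) (b (l 14245296) (l 14611016))) (c (l 14412856) (b (l 14191864) (l 14557792)))) (a (l 14331336) (l 14214296)))) (a (l 14343160) (a (l 14258880) (l 14203152)))))) (a (b (b (c (c (c (l 731785230855) (l 15087760)) (l 15221568)) (l 15189168)) (l 1)) (l 1)) (a (c (c (b (c (b (l 511130998999) (a (l 15293864) (l 15261568))) (l 14977296)) (c (l 15296624) (l 15313480))) (b (l 15122864) (l 15308448)))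 (b (l 15084224) (l 15275024))) (c (c (c (a (b (l 15111136) (b (l 15289048) (l 15350584))) (b (a (l 15031104) (l 14978608)) (a (l 15134288) (l 403756917687)))) (a (b (l 15015264) (l 15301256)) (a (l 15019768) (l 353827553927)))) (a (l 369396875015) (a (l 15081744) (l 15040600)))) (a (b (l 14948672) (l 15250776)) (a (l 15041880) (l 14999504))))))) (b (b (a (l 1) (a (l 1) (a (l 1) (a (l 1) (c (l 856339576983) (l 15414936)))))) (l 1)) (l 1))), by decide +kernel⟩

def k11_pm_022 : ∃ t, chk3 f_pm_022 t 21 9 1 = true :=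
  ⟨(a (b (b (c (c (b (a (l 13983848) (c (l 13746632) (l 13727696))) (c (l 14246320) (b (l 14079728) (l 14226640)))) (b (a (l 13866272) (l 13607840)) (l 14073296))) (a (l 13984248) (l 13684200))) (c (c (c (b (l 14596760) (l 14856848)) (l 14667624)) (l 14660584)) (l 14608312))) (b (b (a (c (a (b (l 15366360) (l 15447440)) (l 15289144)) (l 15295800)) (l 15027496)) (c (a (l 15366112) (b (l 15299536) (a (l 15471920) (l 15399384)))) (a (l 15484816) (l 15316848)))) (c (c (a (l 1) (l 845065748503)) (l 876741199383)) (l 15739640)))) (b (c (b (c (b (l 13593952) (c (l 13786560) (b (l 13660032) (l 13701112)))) (b (l 13468904) (l 13602384))) (b (c (c (a (l 14089176) (l 13854640)) (l 13878152)) (l 13837392)) (c (l 14212760) (l 14158408)))) (b (l 13452440) (a (l 14068248) (l 13788344)))) (b (c (b (l 14550584) (l 14921712)) (l 14674976)) (b (a (c (b (l 15381136) (l 496099304407)) (l 15418184)) (l 15167824)) (c (a (l 15713432) (b (l 15500392) (l 498247019463))) (l 410736901287)))))), by decide +kernel⟩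

def k12_pm_022 : ∃ t, chk3 f_pm_022 t 11 4 1 = true :=
  ⟨(c (b (b (a (l 12783520) (l 12812536)) (a (c (b (l 13025184) (l 13252688)) (b (l 12992464) (c (l 13173632) (l 13179144)))) (c (l 13165576) (b (l 13025792) (l 13202120))))) (b (c (a (b (c (l 13532272) (l 13480976)) (b (l 13657424) (a (l 13784800) (l 13670536)))) (b (b (l 13401096) (l 13477128)) (c (l 13607944) (l 13514088)))) (a (b (l 13375280) (l 13605792)) (l 13399168))) (a (b (a (b (l 13972104) (l 14285064)) (l 13821768)) (a (b (l 14721632) (l 15167728)) (b (l 14183312) (l 14574520)))) (b (l 13695256) (l 14055456))))) (b (b (a (c (b (l 12610744) (c (l 12789872) (l 12748832))) (b (c (l 12561536) (l 12518576)) (l 12699040))) (c (b (l 12637080) (b (l 12763272) (l 12795888))) (b (c (l 12588272) (b (l 12510032) (l 12598624))) (l 12737000)))) (a (b (c (c (l 12960928) (l 12902552)) (l 12847560)) (l 13063336)) (b (l 12713624) (l 13059520)))) (a (b (a (l 13453864) (l 13350664)) (b (a (b (l 13874712) (l 14199776)) (l 13718344)) (a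 (l 14891192) (b (l 14093360) (l 14499504))))) (b (l 13302544) (b (l 13586808) (l 13960064)))))), by decide +kernel⟩

def k13_pm_022 : ∃ t, chk3 f_pm_022 t 5 5 1 = true :=
  ⟨(a (a (l 1) (a (l 1) (a (l 1) (b (a (l 1) (b (b (c (l 857951020279) (l 15890168)) (l 1)) (l 1))) (l 1))))) (b (a (a (b (a (b (b (c (b (l 15621048) (l 15565632)) (l 15664168)) (c (l 15896808) (l 15927280))) (l 1)) (b (b (l 15428952) (c (b (l 15743000) (l 15725992)) (l 15789352))) (c (c (l 15923768) (l 16146152)) (l 16145352)))) (l 1)) (b (b (b (l 14981584) (l 257728304215)) (b (a (c (b (l 15866128) (l 15908512)) (l 15894880)) (l 15695000)) (c (a (l 16169328) (b (l 15990312) (l 16071112))) (l 15847552)))) (b (c (c (l 1008812192583) (l 1003980360727)) (l 16089552)) (l 1)))) (b (b (a (a (l 14585232) (b (l 14358208) (l 14713712))) (b (l 14266784) (l 14450600))) (a (c (b (l 15300984) (l 15603568)) (l 15282856)) (c (l 14786800) (l 14831904)))) (b (b (a (a (c (b (l 16114840) (l 16024384)) (l 16171808)) (l 15918192))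 (l 15562976)) (c (a (a (l 16120128) (b (l 16236736) (l 16006048))) (l 15964008)) (a (l 1325566127687) (l 15946856)))) (a (c (c (l 1199401263143) (l 1341672207383)) (l 15895512)) (a (c (b (b (l 16210688) (l 15959984)) (l 15936240)) (l 1260067587879)) (b (l 16163736) (c (b (l 16124384) (l 15915584)) (l 16046128)))))))) (a (l 1) (a (l 1) (a (l 1) (b (b (b (l 832717846663) (l 1)) (l 1)) (l 1))))))), by decide +kernel⟩

def k14_pm_022 : ∃ t, chk3 f_pm_022 t 2 3 1 = true :=
  ⟨(l 1), by decide +kernel⟩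

def k15_pm_022 : ∃ t, chk3 f_pm_022 t 3 4 1 = true :=
  ⟨(b (b (c (a (l 12823928) (l 12823936)) (a (c (b (l 12641376) (a (l 12816800) (l 12816816))) (b (c (l 12592632) (l 12549992)) (l 12752800))) (c (l 12729864) (b (l 12570688) (l 12752808))))) (c (a (a (b (a (l 13074128) (l 13077936)) (c (l 13291464) (a (b (l 13211984) (l 13279008)) (l 13253472)))) (c (l 13206704) (b (l 13058136) (l 13253488)))) (c (l 13206704) (b (l 13058136) (l 13253488)))) (a (a (b (c (a (l 12998872) (l 13002800)) (l 12913552)) (l 13104064)) (l 13041488)) (l 13041488)))) (a (b (a (c (a (c (b (l 13468552) (l 13588480)) (l 13408704)) (c (b (l 13494040) (l 13622008)) (l 13437424))) (a (l 13312328) (l 13341952))) (c (c (l 13424800) (l 13446992)) (l 13351840))) (a (a (l 13742256) (l 13751160)) (a (l 13777456) (l 13786152)))) (b (c (c (l 13550640) (l 13447000)) (l 13351848)) (l 13786160)))), by decide +kernel⟩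

def k16_pm_022 : ∃ t, chk3 f_pm_022 t 3 5 1 = true :=
  ⟨(a (b (a (b (a (a (c (l 14550864) (l 14472888)) (l 14436936)) (l 14398208)) (a (b (a (c (l 15101016) (l 15114648)) (b (l 14917248) (l 15120792))) (a (c (l 15774280) (l 15882288)) (b (l 15181248) (l 15631720)))) (b (l 14919848) (a (l 15214912) (l 15183176))))) (b (a (l 14406408) (l 14429968)) (l 14928800))) (b (b (a (a (c (a (b (a (b (l 16039728) (l 15767968)) (l 16263192)) (a (l 15765136) (b (l 15956696) (l 15726848)))) (l 15988280)) (a (b (l 1704060023655) (l 1990212065175)) (l 16102520))) (a (b (l 15494664) (l 15805104)) (l 15450872))) (l 15341608)) (a (c (a (a (c (l 838623019063) (l 15571368)) (b (a (b (l 15875304) (l 15708336)) (l 16102216)) (a (l 15600592) (l 603473881943)))) (a (l 772052259127) (l 15870864))) (a (a (l 15536216) (b (l 1702985942839) (l 15534640))) (a (l 16064344) (l 15841984)))) (a (a (l 15638392) (l 15573376)) (l 15521440)))) (b (a (b (a (c (a (l 1) (l 514889658775)) (l 15356928)) (a (a (c (l 15410288)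 (l 15622272)) (l 15918208)) (l 16256032))) (a (l 1) (a (c (a (l 15442608) (l 15375736)) (l 15476600)) (a (l 15778864) (l 16246032))))) (a (a (b (l 15892232) (l 16132080)) (l 15819416)) (l 15737552))) (a (a (l 1) (a (c (c (l 15158016) (l 15248776)) (l 15203632)) (c (b (a (l 15342816) (l 15799816)) (a (l 15291184) (l 15311528))) (b (l 15448904) (l 15320376))))) (a (a (b (l 16196272) (a (l 15714840) (l 16101624))) (c (l 16191544) (l 16174800))) (l 15904472)))))) (b (b (l 14437696) (a (l 14784352) (l 15040368))) (a (b (l 15335264) (l 15808824)) (b (l 15455480) (l 15826256))))), by decide +kernel⟩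

def k17_pm_022 : ∃ t, chk3 f_pm_022 t 6 3 1 = true :=
  ⟨(b (b (a (b (b (a (l 1) (c (a (l 1) (c (l 15114680) (l 15097384))) (l 654474997255))) (l 1)) (l 1)) (b (a (b (a (c (b (a (l 15281888) (l 15658392)) (a (l 15146336) (l 15253880))) (b (l 15404256) (l 15170824))) (b (l 16098880) (a (l 15573520) (l 15963768)))) (a (c (c (l 14973040) (l 14952600)) (l 14897760)) (c (b (a (l 15227512) (l 15523496)) (a (l 15008048) (l 15160832))) (b (l 15345312) (l 15027944))))) (b (a (b (l 16221664) (l 16411160)) (l 16161944)) (a (b (l 16008016) (l 15488240)) (b (l 16376432) (l 16351272))))) (b (a (c (a (l 1) (c (l 14837960) (l 14814416))) (l 693666059255)) (a (c (b (a (l 15095800) (l 15395112)) (l 627094539495)) (l 693129997815)) (b (l 15923688) (l 15466656)))) (a (l 1) (a (c (l 599713684711) (l 14618624)) (c (b (l 696888109287) (l 610451399079)) (l 14779600))))))) (a (l 1) (a (l 1) (a (l 1) (b (b (c (l 612061470567) (l 14490032)) (l 1)) (l 1)))))) (l 1)), by decide +kernel⟩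

def k18_pm_022 : ∃ t, chk3 f_pm_022 t 7 3 1 = true :=
  ⟨(b (b (a (b (a (b (l 16091976) (l 16300936)) (l 16155304)) (a (b (a (b (l 16524344) (l 16252808)) (l 16478328)) (a (c (l 15425720) (l 15571904)) (c (l 16309832) (l 16339528)))) (b (l 16420424) (l 16608312)))) (b (l 16166760) (l 16485696))) (a (b (a (b (a (c (b (l 14778704) (l 14491808)) (l 14762528)) (c (l 15420984) (l 15477632))) (a (c (l 14416536) (l 14442016)) (c (a (l 14664448) (l 14876480)) (l 14780008)))) (b (a (b (l 16441408) (l 15950904)) (l 16646912)) (a (l 15253640) (c (l 16210680) (l 16190768))))) (b (a (c (a (l 1) (l 14521400)) (l 14351320)) (a (c (a (l 14706392) (l 14960360)) (l 14780008)) (l 15316552))) (a (l 1) (a (c (l 14521400) (l 14442016)) (c (a (l 14706392) (l 14960360)) (l 14780008)))))) (b (a (b (l 16721792) (l 16667904)) (l 16735952)) (a (b (a (c (l 16210680) (l 16190768)) (l 16610288)) (a (l 15358496) (l 16095896))) (b (l 16776080) (l 16667904)))))) (a (b (a (l 1) (a (l 1) (a (l 1) (b (b (l 14520968)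 (l 1)) (l 1))))) (l 1)) (b (b (a (a (b (a (l 641052678855) (l 14675960)) (l 831104518055)) (b (l 15400440) (c (l 725341816375) (l 14780008)))) (b (a (l 16200752) (l 16610288)) (a (l 15442384) (l 16200752)))) (b (a (c (l 702255484871) (l 14351320)) (a (c (l 14691008) (l 14780008)) (l 15463352))) (a (l 1) (a (l 14393336) (c (l 14774896) (l 14780008)))))) (a (l 1) (b (c (a (l 1) (l 14417648)) (l 725877467527)) (l 1)))))), by decide +kernel⟩

theorem s19_pm_022 : ∃ t, chk3 f_pm_022 t 3 3 1 = true := ex3_a k17_pm_022 k18_pm_022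

theorem s20_pm_022 : ∃ t, chk3 f_pm_022 t 3 2 1 = true := ex3_b k15_pm_022 k16_pm_022

theorem s21_pm_022 : ∃ t, chk3 f_pm_022 t 3 1 1 = true := ex3_b s20_pm_022 s19_pm_022

theorem s22_pm_022 : ∃ t, chk3 f_pm_022 t 10 9 1 = true := ex3_a k10_pm_022 k11_pm_022

theorem s23_pm_022 : ∃ t, chk3 f_pm_022 t 20 8 1 = true := ex3_a k7_pm_022 k8_pm_022

theorem s24_pm_022 : ∃ t, chk3 f_pm_022 t 10 8 1 = true := ex3_a s23_pm_022 k9_pm_022

theorem s25_pm_022 : ∃ t, chk3 f_pm_022 t 10 4 1 = true := ex3_b s24_pm_022 s22_pm_022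

theorem s26_pm_022 : ∃ t, chk3 f_pm_022 t 5 4 1 = true := ex3_a s25_pm_022 k12_pm_022

theorem s27_pm_022 : ∃ t, chk3 f_pm_022 t 5 2 1 = true := ex3_b s26_pm_022 k13_pm_022

theorem s28_pm_022 : ∃ t, chk3 f_pm_022 t 19 8 1 = true := ex3_a k3_pm_022 k4_pm_022

theorem s29_pm_022 : ∃ t, chk3 f_pm_022 t 18 8 1 = true := ex3_a k1_pm_022 k2_pm_022

theorem s30_pm_022 : ∃ t, chk3 f_pm_022 t 9 8 1 = true := ex3_a s29_pm_022 s28_pm_022

theorem s31_pm_022 : ∃ t, chk3 f_pm_022 t 9 4 1 = true := ex3_b s30_pm_022 k5_pm_022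

theorem s32_pm_022 : ∃ t, chk3 f_pm_022 t 4 4 1 = true := ex3_a k0_pm_022 s31_pm_022

theorem s33_pm_022 : ∃ t, chk3 f_pm_022 t 4 2 1 = true := ex3_b s32_pm_022 k6_pm_022

theorem s34_pm_022 : ∃ t, chk3 f_pm_022 t 2 2 1 = true := ex3_a s33_pm_022 s27_pm_022

theorem s35_pm_022 : ∃ t, chk3 f_pm_022 t 2 1 1 = true := ex3_b s34_pm_022 k14_pm_022

theorem s36_pm_022 : ∃ t, chk3 f_pm_022 t 1 1 1 = true := ex3_a s35_pm_022 s21_pm_022

theorem c_pm_022 : CertNX 67108864 469762048 1073741824 536870912 1046898278 26843546 3 true true false .pp 0 2 2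
    ndN2q0 ndN7q2 pcN2 Cut.none Ext.none :=
  certNX2 (fam := true) (s1 := true) (s2 := false) (a := 0) (b := 2) (c := 2) (cn := .pp) (n1 := ndN2q0) (n2 := ndN7q2) (pc := pcN2) (cut := Cut.none) (xt := Ext.none) (P1 := 67108864) (W1 := 469762048) (P2 := 1073741824) (W2 := 536870912) (P3 := 1046898278) (W3 := 26843546) (N0 := 3)
    rfl (fun _ => rfl) s36_pm_022

noncomputable def f_pm_023 : ℕ → ℕ → ℕ → ℕ → Bool := onCell 67108864 469762048 1073741824 536870912 1046898278 26843546
    (rowNX 3 0 true true false .up 0 2 3 (qsf 67108864 469762048 1073741824 536870912 3) ndN2q0 ndN7q2 pcN3 Cut.none Ext.none)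

def k0_pm_023 : ∃ t, chk3 f_pm_023 t 1 1 1 = true :=
  ⟨(b (a (b (l 1) (a (l 1) (b (l 1) (a (l 1) (l 15646432))))) (b (b (a (l 1) (c (b (l 12823936) (l 432206899127)) (b (c (l 12729864) (l 12646720)) (l 13041488)))) (b (c (a (l 1) (l 13507200)) (l 13351848)) (l 13786160))) (b (a (l 14744992) (l 14744992)) (l 15541576)))) (a (a (a (b (l 1) (a (b (l 763460658471) (l 15278576)) (b (l 16392256) (l 16518088)))) (b (b (l 1) (l 16748568)) (l 16735584))) (b (b (a (l 16333032) (l 16342120)) (a (l 16758888) (l 16763744))) (a (l 16746064) (l 16777216)))) (b (b (a (l 16342120) (l 16342136)) (l 16763816)) (a (l 16777168) (b (l 16766840) (a (b (l 16776632) (l 16754112)) (b (l 16769232) (a (l 16750688) (b (l 16746720) (a (l 16755704) (b (l 16758464) (a (l 16742888) (b (l 16739840) (a (l 16730280) (b (l 16706912) (a (l 16711016) (b (l 16720768) (l 16744904)))))))))))))))))), by decide +kernel⟩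

theorem c_pm_023 : CertNX 67108864 469762048 1073741824 536870912 1046898278 26843546 3 true true false .up 0 2 3
    ndN2q0 ndN7q2 pcN3 Cut.none Ext.none :=
  certNX0 (fam := true) (s1 := true) (s2 := false) (a := 0) (b := 2) (c := 3) (cn := .up) (n1 := ndN2q0) (n2 := ndN7q2) (pc := pcN3) (cut := Cut.none) (xt := Ext.none) (P1 := 67108864) (W1 := 469762048) (P2 := 1073741824) (W2 := 536870912) (P3 := 1046898278) (W3 := 26843546) (N0 := 3)
    rfl k0_pm_023

noncomputable def f_pm_033 : ℕ → ℕ → ℕ → ℕ → Bool := onCell 1610612736 536870912 0 1230186008 1046898278 26843546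
    (rowNX 3 2 true true false .pnn 0 3 3 (qsf 67108864 469762048 0 1230186008 3) ndN2q0 ndN7q3 pcN3 Cut.none Ext.none)

def k0_pm_033 : ∃ t, chk3 f_pm_033 t 1 2 1 = true :=
  ⟨(b (l 1) (a (l 1) (a (l 1) (a (l 1) (a (l 4) (l 4)))))), by decide +kernel⟩

def k1_pm_033 : ∃ t, chk3 f_pm_033 t 1 6 1 = true :=
  ⟨(a (l 1) (a (b (l 1) (a (b (l 1) (a (l 1) (b (l 1) (a (l 1) (c (l 14716040) (l 14640216)))))) (b (a (b (l 1) (c (l 14194392) (l 14275864))) (a (b (l 1) (l 832715817207)) (b (l 769901648679) (l 15363312)))) (a (b (a (l 863316961063) (l 931500447175)) (a (l 905194318343) (l 15932464))) (b (a (l 15618472) (l 16273200)) (l 16484512)))))) (a (b (a (b (l 1) (a (b (l 1) (l 14349112)) (b (l 748426586375) (l 679171288199)))) (b (a (c (l 831641430455) (l 14371472)) (c (b (l 14548152) (l 14949688)) (l 14510704))) (a (b (l 14698256) (l 15742168)) (b (l 15641184) (l 16359344))))) (b (a (b (a (l 15117192) (l 15902208)) (a (l 16082352) (l 16542992))) (a (b (l 16438352) (l 16699304)) (l 16720928)))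 (a (b (l 16686336) (l 16740232)) (l 16707440)))) (a (b (b (a (b (l 4) (l 15602688)) (l 4)) (a (b (a (l 16215200) (l 16476336)) (l 16665832)) (l 4))) (a (b (l 16727112) (l 16706088)) (b (l 16691024) (l 16733648)))) (a (b (l 4) (b (l 4) (l 16713784))) (l 4)))))), by decide +kernel⟩

def k2_pm_033 : ∃ t, chk3 f_pm_033 t 1 7 1 = true :=
  ⟨(a (b (a (l 1) (a (l 1) (b (b (l 1) (a (l 1) (c (l 813387656167) (l 14036904)))) (b (a (l 1) (b (a (l 1) (l 14698152)) (a (l 14675944) (l 15348840)))) (a (a (b (l 1) (l 14636760)) (b (l 14649368) (l 15212656))) (b (l 15630336) (l 16209792))))))) (a (b (l 1) (a (b (l 1) (a (l 1) (c (b (l 1) (l 14400472)) (l 884791208711)))) (b (a (l 1) (b (c (l 741984188343) (l 14494904)) (a (l 14598368) (l 15244688)))) (a (b (a (l 1) (l 14541288)) (a (l 309266736103) (l 15415696))) (b (a (l 15318424) (l 16063744)) (l 16318888)))))) (b (a (b (a (l 1) (b (a (l 1) (l 14635816)) (a (l 14624352) (l 15150808)))) (a (b (c (l 797818761815) (l 14472728)) (a (l 14535024) (l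 15160208))) (b (l 1706743514343) (l 16156016)))) (b (a (b (l 15488144) (l 16155824)) (l 16638944)) (a (l 16628680) (l 16731008)))) (a (b (a (b (l 1777073690663) (l 16212472)) (l 16476496)) (a (l 16603776) (l 16725064))) (l 16742792))))) (a (b (b (a (c (a (b (l 923983462807) (a (l 1047464669895) (l 15342168))) (b (a (l 14973568) (l 15601224)) (l 16196808))) (a (b (l 752721268839) (l 1067865969927)) (b (l 1271877236551) (l 16071544)))) (b (a (a (l 16229968) (l 16610504)) (l 16771304)) (l 16767280))) (a (a (b (a (l 15780592) (l 16350688)) (l 16583096)) (b (l 16665672) (l 16723352))) (l 16735768))) (b (a (l 16741272) (l 16768584)) (l 16771672))) (a (b (a (b (l 16721552) (l 16767488)) (b (l 16726848) (l 16719120))) (a (l 16775480) (l 16729192))) (a (b (b (a (l 16734464) (l 16739648)) (l 16716104)) (l 16724736)) (a (b (l 16719528) (l 16753600)) (b (a (l 16674488) (l 4)) (a (l 16699656) (a (l 16698256) (a (l 16711712) (a (l 16709360) (l 1734865241751))))))))))), by decide +kernel⟩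

theorem s3_pm_033 : ∃ t, chk3 f_pm_033 t 1 3 1 = true := ex3_b k1_pm_033 k2_pm_033

theorem s4_pm_033 : ∃ t, chk3 f_pm_033 t 1 1 1 = true := ex3_b k0_pm_033 s3_pm_033

theorem c_pm_033 : CertNX 67108864 469762048 0 1230186008 1046898278 26843546 3 true true false .pnn 0 3 3
    ndN2q0 ndN7q3 pcN3 Cut.none Ext.none :=
  certNX2 (fam := true) (s1 := true) (s2 := false) (a := 0) (b := 3) (c := 3) (cn := .pnn) (n1 := ndN2q0) (n2 := ndN7q3) (pc := pcN3) (cut := Cut.none) (xt := Ext.none) (P1 := 67108864) (W1 := 469762048) (P2 := 0) (W2 := 1230186008) (P3 := 1046898278) (W3 := 26843546) (N0 := 3)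
    rfl (fun _ => rfl) s4_pm_033

noncomputable def f_pm_101 : ℕ → ℕ → ℕ → ℕ → Bool := onCell 536870912 536870912 0 536870912 1046898278 26843546
    (rowNX 3 2 true true false .npn 1 0 1 (qsf 536870912 536870912 0 536870912 1) ndN2q1 ndN7q0 pcN1 Cut.none Ext.none)

def k0_pm_101 : ∃ t, chk3 f_pm_101 t 1 1 1 = true :=
  ⟨(a (l 3) (a (l 3) (a (b (b (b (a (l 3) (b (l 15290872) (l 15691944))) (l 3)) (l 3)) (l 3)) (b (b (a (b (a (l 14750088) (b (l 14175872) (l 14703840))) (a (l 15684904) (c (l 15349440) (l 15321816)))) (b (a (c (a (b (l 14060928) (l 14529280)) (c (l 14164360) (l 13870616))) (l 14125808)) (c (b (l 13662128) (l 14150952)) (a (c (b (l 13663032) (l 14160616)) (l 13866184)) (c (l 13752408) (b (l 13442656) (l 13957424)))))) (a (c (a (l 15190360) (c (l 15076576) (l 15052360))) (l 15065704)) (c (l 14855768) (a (c (l 14880352) (l 14852424)) (c (l 14738232) (l 14704256))))))) (a (a (l 3) (b (l 15664512) (l 3))) (a (c (b (a (l 15649800) (l 15617680)) (a (l 15568744) (l 15510776)))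 (l 15557632)) (c (b (l 15555952) (l 15460296)) (b (a (l 15576240) (c (l 15505272) (l 15494160))) (a (l 15418424) (l 15391904))))))) (a (l 3) (b (a (c (l 670716533623) (l 15487000)) (c (l 15444552) (a (l 15406376) (l 15141080)))) (l 3))))))), by decide +kernel⟩

theorem c_pm_101 : CertNX 536870912 536870912 0 536870912 1046898278 26843546 3 true true false .npn 1 0 1
    ndN2q1 ndN7q0 pcN1 Cut.none Ext.none :=
  certNX2 (fam := true) (s1 := true) (s2 := false) (a := 1) (b := 0) (c := 1) (cn := .npn) (n1 := ndN2q1) (n2 := ndN7q0) (pc := pcN1) (cut := Cut.none) (xt := Ext.none) (P1 := 536870912) (W1 := 536870912) (P2 := 0) (W2 := 536870912) (P3 := 1046898278) (W3 := 26843546) (N0 := 3)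
    rfl (fun _ => rfl) k0_pm_101

noncomputable def f_pm_102 : ℕ → ℕ → ℕ → ℕ → Bool := onCell 536870912 536870912 1073741824 536870912 1046898278 26843546
    (rowNX 3 1 true true false .npp 1 0 2 (qsf 536870912 536870912 0 536870912 2) ndN2q1 ndN7q0 pcN2 Cut.none Ext.none)

def k0_pm_102 : ∃ t, chk3 f_pm_102 t 2 1 1 = true :=
  ⟨(b (b (b (b (b (c (c (a (l 15501256) (l 15379968)) (a (b (l 15437288) (l 15456984)) (b (l 15343248) (l 15519920)))) (b (a (c (l 15413992) (b (a (l 3) (l 375973978583)) (l 15251768))) (c (l 15278672) (a (b (c (l 15379944) (l 15365616)) (l 15407848)) (l 15438936)))) (a (c (b (a (l 15359344) (l 15258768)) (l 15506512)) (l 15451736)) (a (l 15477776) (l 15500432))))) (c (a (c (b (b (l 15605896) (l 15649072)) (b (l 15657752) (l 15692896))) (b (a (l 15401040) (l 15589776)) (l 15638704))) (a (c (l 15640424) (l 15605040)) (l 15633216))) (a (l 15564992) (l 15539080)))) (a (b (c (b (l 15708704) (l 15797744)) (l 15698008)) (a (b (l 15858832) (l 15915256)) (l 15828320)))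 (c (b (a (l 15698696) (l 15661312)) (a (l 15777640) (l 15696768))) (b (l 15627176) (l 15734032))))) (b (a (b (l 16087456) (l 16429960)) (c (a (a (l 16204328) (l 16122248)) (a (l 16106032) (l 16034304))) (b (a (l 15892768) (l 15873888)) (a (l 16307344) (l 16250696))))) (a (c (l 81705358311) (l 25870776903)) (a (b (b (c (l 16592352) (l 16558152)) (l 16629640)) (l 16546576)) (c (a (l 16501248) (l 16364552)) (b (b (a (l 16517512) (l 16414456)) (l 16498904)) (l 16397112))))))) (b (b (a (b (l 16585232) (l 2)) (a (b (l 16433312) (b (l 16344184) (b (l 16305768) (l 16336456)))) (c (b (c (l 16286608) (l 16276952)) (b (l 16152488) (b (l 16132120) (l 16222480)))) (b (l 16265840) (b (l 16176536) (b (l 16150616) (l 16201176))))))) (a (l 2) (a (l 16453504) (c (l 16341576) (l 16354480))))) (a (l 2) (b (c (l 16640816) (l 16641240)) (l 16776976))))) (b (c (l 16777216) (l 379668398087)) (l 2))), by decide +kernel⟩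

def k1_pm_102 : ∃ t, chk3 f_pm_102 t 3 4 1 = true :=
  ⟨(c (b (a (b (b (a (b (l 15595400) (l 15644392)) (c (a (l 15783504) (l 15584880)) (l 15673784))) (a (l 15668808) (l 15684448))) (a (c (l 15686616) (l 15668664)) (c (a (l 15783696) (l 15533848)) (l 15641848)))) (b (a (b (l 14997064) (l 14948136)) (b (l 14028744) (l 14031856))) (a (b (l 14882424) (l 14823136)) (b (l 13900272) (l 13773832))))) (a (b (a (c (l 15927248) (a (l 15934616) (c (l 15924296) (l 15926888)))) (a (c (l 15909312) (l 15897624)) (l 15601096))) (a (b (c (l 16214424) (b (a (l 16257880) (l 16301312)) (l 16245776))) (c (l 16112056) (l 16138168))) (a (c (b (b (l 16064624) (l 16052672)) (l 15985432)) (l 16007848)) (l 15667360)))) (b (a (a (l 15115536) (l 14559464)) (a (l 13962208) (l 13323184))) (a (a (l 15126912) (l 14501424)) (a (l 13817104) (l 13049224)))))) (b (a (b (a (c (b (a (l 15515136) (l 15628784)) (l 15592752)) (l 15555576)) (b (l 15390784) (l 15630880))) (a (l 15645128) (l 15619472))) (b (a (c (l 14745768)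 (l 14875568)) (b (c (l 14081208) (l 14029912)) (l 13922096))) (a (l 14780144) (l 13728344)))) (a (b (a (a (c (l 15985104) (l 15914784)) (l 15901288)) (a (l 15889056) (l 15569696))) (a (a (b (b (l 16346576) (l 16344584)) (l 16239736)) (l 16121192)) (b (l 15860912) (l 15783440)))) (b (a (l 14524040) (a (l 13862080) (l 13198872))) (a (b (l 14744880) (l 14696744)) (a (l 13710496) (l 12934744))))))), by decide +kernel⟩

def k2_pm_102 : ∃ t, chk3 f_pm_102 t 3 5 1 = true :=
  ⟨(b (a (b (a (b (c (c (l 15986144) (l 15833608)) (a (l 16105280) (l 15930032))) (c (c (l 15829640) (b (l 15941744) (l 15934648))) (b (l 16014096) (l 15973568)))) (c (a (c (b (l 15898000) (b (l 15871512) (l 15929520))) (l 15892280)) (b (l 15531368) (l 15558560))) (b (l 15695680) (l 15692304)))) (a (c (c (l 16235376) (l 16232296)) (l 16277112)) (c (a (c (l 16141168) (l 16131864)) (l 15849368)) (l 15974584)))) (b (a (b (c (l 14652104) (l 14579224)) (c (b (l 14659760) (l 14773000)) (b (l 14586696) (l 14702816)))) (b (c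 (l 13226088) (l 13095056)) (c (b (l 13267288) (l 13458376)) (b (l 13136840) (l 13334496))))) (a (c (l 15114360) (l 14991128)) (a (c (l 14261032) (l 14167736)) (c (l 13635584) (l 13518720)))))) (b (a (a (c (l 16605120) (l 16625536)) (c (l 16337544) (l 16307072))) (a (c (l 15619520) (l 15577016)) (a (l 14910664) (c (l 14467648) (l 14383472))))) (a (a (l 16740656) (l 16472672)) (a (l 15855256) (l 15064040))))), by decide +kernel⟩

def k3_pm_102 : ∃ t, chk3 f_pm_102 t 3 3 1 = true :=
  ⟨(a (b (c (a (l 16741400) (l 16478104)) (l 16589376)) (l 16592560)) (b (c (a (l 15871504) (l 15094104)) (a (l 15839712) (l 15035024))) (a (l 15855624) (l 15064600)))), by decide +kernel⟩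

theorem s4_pm_102 : ∃ t, chk3 f_pm_102 t 3 2 1 = true := ex3_b k1_pm_102 k2_pm_102

theorem s5_pm_102 : ∃ t, chk3 f_pm_102 t 3 1 1 = true := ex3_b s4_pm_102 k3_pm_102

theorem s6_pm_102 : ∃ t, chk3 f_pm_102 t 1 1 1 = true := ex3_a k0_pm_102 s5_pm_102

theorem c_pm_102 : CertNX 536870912 536870912 0 536870912 1046898278 26843546 3 true true false .npp 1 0 2
    ndN2q1 ndN7q0 pcN2 Cut.none Ext.none :=
  certNX1 (fam := true) (s1 := true) (s2 := false) (a := 1) (b := 0) (c := 2) (cn := .npp) (n1 := ndN2q1) (n2 := ndN7q0) (pc := pcN2) (cut := Cut.none) (xt := Ext.none) (P1 := 536870912) (W1 := 536870912) (P2 := 0) (W2 := 536870912) (P3 := 1046898278) (W3 := 26843546) (N0 := 3)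
    rfl (fun _ => rfl) s6_pm_102

noncomputable def f_pm_112 : ℕ → ℕ → ℕ → ℕ → Bool := onCell 1073741824 536870912 536870912 536870912 1046898278 26843546
    (rowNX 3 2 true true false .dn 1 1 2 (qsf 536870912 536870912 536870912 536870912 2) ndN2q1 ndN7q1 pcN2 Cut.none Ext.none)

def k0_pm_112 : ∃ t, chk3 f_pm_112 t 1 1 1 = true :=
  ⟨(b (b (a (a (a (a (b (a (l 3) (c (c (a (l 15551368) (l 15623912)) (a (l 98278049959) (l 15637992))) (l 15567024))) (l 1)) (a (c (a (l 15727760) (l 15797744)) (l 66602888551)) (c (a (l 15899880) (l 15959824)) (l 69824441575)))) (a (a (b (l 16107800) (l 16075848)) (l 16454472)) (a (l 16705464) (l 16674848)))) (a (a (a (l 16570992) (a (l 16469936) (a (l 16415888) (l 16410416)))) (l 16494040)) (a (c (l 16654576) (l 16659200)) (l 16776976)))) (a (a (l 16765952) (b (l 16592560) (l 16759640))) (b (a (l 16172024) (l 15468072)) (l 16360304)))) (a (a (a (l 1) (a (l 1) (a (l 1) (l 500395827575)))) (a (a (a (l 485900348887) (a (l 367251922791) (b (l 55867252391)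 (l 1)))) (l 540124374231)) (b (l 16596360) (l 15944184)))) (a (b (l 16403648) (l 16041696)) (b (l 16451504) (l 16030704))))) (a (a (l 1) (b (a (l 1) (b (l 15170888) (l 1))) (l 1))) (b (a (b (l 15393264) (l 14504672)) (b (l 15393264) (l 14504672))) (b (c (b (l 413954275799) (a (l 1) (l 13409360))) (l 445629172199)) (a (l 1) (c (b (l 416637520615) (l 12802264)) (b (l 12977160) (c (l 12708024) (l 457975633783))))))))), by decide +kernel⟩

theorem c_pm_112 : CertNX 536870912 536870912 536870912 536870912 1046898278 26843546 3 true true false .dn 1 1 2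
    ndN2q1 ndN7q1 pcN2 Cut.none Ext.none :=
  certNX2 (fam := true) (s1 := true) (s2 := false) (a := 1) (b := 1) (c := 2) (cn := .dn) (n1 := ndN2q1) (n2 := ndN7q1) (pc := pcN2) (cut := Cut.none) (xt := Ext.none) (P1 := 536870912) (W1 := 536870912) (P2 := 536870912) (W2 := 536870912) (P3 := 1046898278) (W3 := 26843546) (N0 := 3)
    rfl (fun _ => rfl) k0_pm_112

noncomputable def f_pm_113 : ℕ → ℕ → ℕ → ℕ → Bool := onCell 536870912 536870912 536870912 536870912 1046898278 26843546
    (rowNX 3 0 true true false .nn 1 1 3 (qsf 536870912 536870912 536870912 536870912 3) ndN2q1 ndN7q1 pcN3 Cut.none Ext.none)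

def k0_pm_113 : ∃ t, chk3 f_pm_113 t 1 1 1 = true :=
  ⟨(a (b (b (l 1) (a (l 1) (l 460130584471))) (b (a (l 513814859063) (b (l 15393264) (l 14504672))) (c (b (b (l 341476702679) (a (l 13409360) (l 13409360))) (b (a (l 12972272) (c (l 13145464) (l 13070576))) (l 12802264))) (b (l 351139891687) (b (a (l 12977160) (l 12977160)) (a (c (l 12708024) (l 12624584)) (c (l 12708024) (l 12624584)))))))) (b (a (b (l 344167233943) (b (l 16410488) (l 15863616))) (b (a (l 15855624) (l 15064600)) (a (l 15420936) (l 14636352)))) (a (b (b (l 15218136) (l 14122808)) (c (a (b (l 13543304) (l 12920496)) (b (l 13323072) (l 12730896))) (b (l 13229256) (b (l 12798320) (a (c (l 12673664) (l 12587984)) (c (l 12431280) (l 12322384))))))) (b (b (l 14162856) (a (l 13679104) (a (l 13179424) (l 12853440)))) (b (a (b (l 12809728) (l 12556616)) (a (b (l 12390768) (l 12201416)) (b (l 12189888) (a (l 12128592) (l 12176024))))) (a (c (a (l 12432056) (b (l 12385192) (l 12162224))) (b (l 12130768) (a (l 11990016) (b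 (l 11708656) (l 11599032))))) (b (a (c (b (l 12388328) (l 12355064)) (l 11695176)) (c (b (l 12784328) (l 13066872)) (a (l 11589064) (l 11666104)))) (a (c (b (l 12319304) (l 12334120)) (b (l 11473088) (a (l 11433816) (l 11396056)))) (a (b (c (l 12985168) (l 11493384)) (l 4)) (l 4)))))))))), by decide +kernel⟩

theorem c_pm_113 : CertNX 536870912 536870912 536870912 536870912 1046898278 26843546 3 true true false .nn 1 1 3
    ndN2q1 ndN7q1 pcN3 Cut.none Ext.none :=
  certNX0 (fam := true) (s1 := true) (s2 := false) (a := 1) (b := 1) (c := 3) (cn := .nn) (n1 := ndN2q1) (n2 := ndN7q1) (pc := pcN3) (cut := Cut.none) (xt := Ext.none) (P1 := 536870912) (W1 := 536870912) (P2 := 536870912) (W2 := 536870912) (P3 := 1046898278) (W3 := 26843546) (N0 := 3)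
    rfl k0_pm_113

noncomputable def f_pm_123 : ℕ → ℕ → ℕ → ℕ → Bool := onCell 1610612736 536870912 1073741824 536870912 1046898278 26843546
    (rowNX 3 2 true true false .npn 1 2 3 (qsf 536870912 536870912 1073741824 536870912 3) ndN2q1 ndN7q2 pcN3 Cut.none Ext.none)

def k0_pm_123 : ∃ t, chk3 f_pm_123 t 1 1 1 = true :=
  ⟨(a (b (b (b (c (b (l 12823936) (a (l 411268933559) (c (l 13206704) (l 13131520)))) (b (a (c (l 12729864) (l 12646720)) (c (l 12729864) (l 12646720))) (a (l 13041488) (l 13041488)))) (b (a (l 423080625591) (c (l 13507200) (l 13351848))) (l 369394256471))) (b (a (l 14744992) (l 14744992)) (l 15415744))) (b (b (l 16342120) (l 1)) (l 1))) (a (b (b (b (c (b (l 12717632) (c (l 13182472) (l 13104464))) (b (a (l 12667120) (l 12515112)) (l 13010152))) (b (c (l 13503048) (l 13346528)) (l 13786136))) (b (l 14744968) (l 15646448))) (b (l 16500688) (l 16777216))) (a (b (b (b (c (b (l 12543160) (a (l 13099528) (l 13143472))) (b (a (l 12310456) (l 12161712)) (a (l 12936752)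 (l 12919312)))) (b (a (l 13415288) (l 13439240)) (l 13778760))) (a (l 15211520) (b (l 14713896) (l 15593168)))) (b (a (l 16561928) (l 16519296)) (l 16774840))) (a (b (b (b (c (b (l 13299744) (c (l 13542248) (l 13363424))) (b (a (l 12191848) (l 12361088)) (l 13115656))) (b (c (l 13708248) (l 13486288)) (l 13910104))) (b (a (l 14745200) (l 14806024)) (l 15598008))) (b (b (l 16269176) (l 16693192)) (l 16777216))) (b (b (a (b (l 4) (b (l 13987144) (l 14129384))) (l 4)) (b (a (l 14862664) (a (l 14953664) (l 4))) (a (l 15615696) (a (l 15617584) (l 4))))) (a (b (b (l 16287648) (l 16745104)) (l 16777216)) (a (b (b (l 16285440) (l 16686816)) (l 16777216)) (b (a (l 16495592) (a (l 16509456) (a (l 16507408) (a (l 16526264) (l 1383213401319))))) (a (l 16777216) (a (l 16777216) (a (l 16777216) (l 16777216)))))))))))), by decide +kernel⟩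

theorem c_pm_123 : CertNX 536870912 536870912 1073741824 536870912 1046898278 26843546 3 true true false .npn 1 2 3
    ndN2q1 ndN7q2 pcN3 Cut.none Ext.none :=
  certNX2 (fam := true) (s1 := true) (s2 := false) (a := 1) (b := 2) (c := 3) (cn := .npn) (n1 := ndN2q1) (n2 := ndN7q2) (pc := pcN3) (cut := Cut.none) (xt := Ext.none) (P1 := 536870912) (W1 := 536870912) (P2 := 1073741824) (W2 := 536870912) (P3 := 1046898278) (W3 := 26843546) (N0 := 3)
    rfl (fun _ => rfl) k0_pm_123

noncomputable def f_pm_133 : ℕ → ℕ → ℕ → ℕ → Bool := onCell 536870912 536870912 0 1230186008 1046898278 26843546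
    (rowNX 3 0 true true false .dn 1 3 3 (qsf 536870912 536870912 0 1230186008 3) ndN2q1 ndN7q3 pcN3 Cut.none Ext.none)

def k0_pm_133 : ∃ t, chk3 f_pm_133 t 1 1 1 = true :=
  ⟨(b (l 2) (b (l 2) (a (b (l 2) (a (b (l 2) (a (l 16741312) (l 2))) (l 2))) (l 2)))), by decide +kernel⟩

theorem c_pm_133 : CertNX 536870912 536870912 0 1230186008 1046898278 26843546 3 true true false .dn 1 3 3
    ndN2q1 ndN7q3 pcN3 Cut.none Ext.none :=
  certNX0 (fam := true) (s1 := true) (s2 := false) (a := 1) (b := 3) (c := 3) (cn := .dn) (n1 := ndN2q1) (n2 := ndN7q3) (pc := pcN3) (cut := Cut.none) (xt := Ext.none) (P1 := 536870912) (W1 := 536870912) (P2 := 0) (W2 := 1230186008) (P3 := 1046898278) (W3 := 26843546) (N0 := 3)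
    rfl k0_pm_133

noncomputable def f_pm_202_a : ℕ → ℕ → ℕ → ℕ → Bool := onCell 0 420477299 1073741824 536870912 1046898278 26843546
    (rowNX 3 1 true true false .pp 2 0 2 (qsf 0 420477299 0 536870912 2) ndN2q2a ndN7q0 pcN2 Cut.none Ext.none)

def k0_pm_202_a : ∃ t, chk3 f_pm_202_a t 1 1 1 = true :=
  ⟨(b (b (a (l 1) (b (b (l 1) (b (l 1) (a (l 1) (a (l 1) (a (l 1) (c (l 13384728) (l 13268416))))))) (a (b (l 1) (l 14267392)) (b (a (b (l 1) (c (l 14052520) (l 13923608))) (c (b (l 13617392) (l 13682184)) (l 13510920))) (a (l 14058664) (l 13659656)))))) (a (a (b (b (b (l 1) (l 14981864)) (l 15419928)) (l 4)) (b (b (b (l 14687712) (l 15000392)) (l 15450624)) (b (l 15861520) (l 16213040)))) (b (a (b (b (l 14564736) (l 14864696)) (l 15344360)) (b (a (b (l 14303384) (l 14594056)) (b (l 13869696) (l 14154336))) (a (l 15096624) (l 14672648)))) (a (b (l 15796056) (l 16126704)) (b (a (l 15588880) (l 15192528)) (a (l 15927384) (l 15536176))))))) (a (b (b (l 4) (l 4)) (l 4)) (b (b (a (l 16259064)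 (a (l 16317664) (l 15895952))) (a (l 16551264) (a (l 16700248) (l 16249904)))) (a (l 4) (b (a (l 4) (l 16262632)) (l 4)))))), by decide +kernel⟩

theorem c_pm_202_a : CertNX 0 420477299 0 536870912 1046898278 26843546 3 true true false .pp 2 0 2
    ndN2q2a ndN7q0 pcN2 Cut.none Ext.none :=
  certNX1 (fam := true) (s1 := true) (s2 := false) (a := 2) (b := 0) (c := 2) (cn := .pp) (n1 := ndN2q2a) (n2 := ndN7q0) (pc := pcN2) (cut := Cut.none) (xt := Ext.none) (P1 := 0) (W1 := 420477299) (P2 := 0) (W2 := 536870912) (P3 := 1046898278) (W3 := 26843546) (N0 := 3)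
    rfl (fun _ => rfl) k0_pm_202_a

noncomputable def f_pm_202_b : ℕ → ℕ → ℕ → ℕ → Bool := onCell 1239849684 370763052 0 536870912 1046898278 26843546
    (rowNX 3 0 true true false .pp 2 0 2 (qsf 1239849684 370763052 0 536870912 2) ndN2q2b ndN7q0 pcN2 Cut.none Ext.none)

def k0_pm_202_b : ∃ t, chk3 f_pm_202_b t 1 1 1 = true :=
  ⟨(b (a (l 4) (l 4)) (l 4)), by decide +kernel⟩

theorem c_pm_202_b : CertNX 1239849684 370763052 0 536870912 1046898278 26843546 3 true true false .pp 2 0 2
    ndN2q2b ndN7q0 pcN2 Cut.none Ext.none :=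
  certNX0 (fam := true) (s1 := true) (s2 := false) (a := 2) (b := 0) (c := 2) (cn := .pp) (n1 := ndN2q2b) (n2 := ndN7q0) (pc := pcN2) (cut := Cut.none) (xt := Ext.none) (P1 := 1239849684) (W1 := 370763052) (P2 := 0) (W2 := 536870912) (P3 := 1046898278) (W3 := 26843546) (N0 := 3)
    rfl k0_pm_202_b

noncomputable def f_pm_203_a : ℕ → ℕ → ℕ → ℕ → Bool := onCell 0 420477299 1610612736 536870912 1046898278 26843546
    (rowNX 3 1 true true false .up 2 0 3 (qsf 0 420477299 0 536870912 3) ndN2q2a ndN7q0 pcN3 Cut.none Ext.none)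

def k0_pm_203_a : ∃ t, chk3 f_pm_203_a t 1 1 1 = true :=
  ⟨(l 4), by decide +kernel⟩

theorem c_pm_203_a : CertNX 0 420477299 0 536870912 1046898278 26843546 3 true true false .up 2 0 3
    ndN2q2a ndN7q0 pcN3 Cut.none Ext.none :=
  certNX1 (fam := true) (s1 := true) (s2 := false) (a := 2) (b := 0) (c := 3) (cn := .up) (n1 := ndN2q2a) (n2 := ndN7q0) (pc := pcN3) (cut := Cut.none) (xt := Ext.none) (P1 := 0) (W1 := 420477299) (P2 := 0) (W2 := 536870912) (P3 := 1046898278) (W3 := 26843546) (N0 := 3)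
    rfl (fun _ => rfl) k0_pm_203_a

noncomputable def f_pm_203_b : ℕ → ℕ → ℕ → ℕ → Bool := onCell 1239849684 370763052 1610612736 536870912 1046898278 26843546
    (rowNX 3 1 true true false .up 2 0 3 (qsf 1239849684 370763052 0 536870912 3) ndN2q2b ndN7q0 pcN3 Cut.none Ext.none)

def k0_pm_203_b : ∃ t, chk3 f_pm_203_b t 1 1 1 = true :=
  ⟨(l 4), by decide +kernel⟩

theorem c_pm_203_b : CertNX 1239849684 370763052 0 536870912 1046898278 26843546 3 true true false .up 2 0 3
    ndN2q2b ndN7q0 pcN3 Cut.none Ext.none :=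
  certNX1 (fam := true) (s1 := true) (s2 := false) (a := 2) (b := 0) (c := 3) (cn := .up) (n1 := ndN2q2b) (n2 := ndN7q0) (pc := pcN3) (cut := Cut.none) (xt := Ext.none) (P1 := 1239849684) (W1 := 370763052) (P2 := 0) (W2 := 536870912) (P3 := 1046898278) (W3 := 26843546) (N0 := 3)
    rfl (fun _ => rfl) k0_pm_203_b

noncomputable def f_pm_213_a : ℕ → ℕ → ℕ → ℕ → Bool := onCell 0 420477299 536870912 536870912 1046898278 26843546
    (rowNX 3 0 true true false .pnn 2 1 3 (qsf 0 420477299 536870912 536870912 3) ndN2q2a ndN7q1 pcN3 Cut.none Ext.none)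

def k0_pm_213_a : ∃ t, chk3 f_pm_213_a t 1 1 1 = true :=
  ⟨(l 4), by decide +kernel⟩

theorem c_pm_213_a : CertNX 0 420477299 536870912 536870912 1046898278 26843546 3 true true false .pnn 2 1 3
    ndN2q2a ndN7q1 pcN3 Cut.none Ext.none :=
  certNX0 (fam := true) (s1 := true) (s2 := false) (a := 2) (b := 1) (c := 3) (cn := .pnn) (n1 := ndN2q2a) (n2 := ndN7q1) (pc := pcN3) (cut := Cut.none) (xt := Ext.none) (P1 := 0) (W1 := 420477299) (P2 := 536870912) (W2 := 536870912) (P3 := 1046898278) (W3 := 26843546) (N0 := 3)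
    rfl k0_pm_213_a

noncomputable def f_pm_213_b : ℕ → ℕ → ℕ → ℕ → Bool := onCell 1239849684 370763052 536870912 536870912 1046898278 26843546
    (rowNX 3 0 true true false .pnn 2 1 3 (qsf 1239849684 370763052 536870912 536870912 3) ndN2q2b ndN7q1 pcN3 Cut.none Ext.none)

def k0_pm_213_b : ∃ t, chk3 f_pm_213_b t 1 1 1 = true :=
  ⟨(l 4), by decide +kernel⟩

theorem c_pm_213_b : CertNX 1239849684 370763052 536870912 536870912 1046898278 26843546 3 true true false .pnn 2 1 3
    ndN2q2b ndN7q1 pcN3 Cut.none Ext.none :=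
  certNX0 (fam := true) (s1 := true) (s2 := false) (a := 2) (b := 1) (c := 3) (cn := .pnn) (n1 := ndN2q2b) (n2 := ndN7q1) (pc := pcN3) (cut := Cut.none) (xt := Ext.none) (P1 := 1239849684) (W1 := 370763052) (P2 := 536870912) (W2 := 536870912) (P3 := 1046898278) (W3 := 26843546) (N0 := 3)
    rfl k0_pm_213_b

noncomputable def f_pm_303 : ℕ → ℕ → ℕ → ℕ → Bool := onCell 1610612736 469762048 0 536870912 1046898278 26843546
    (rowNX 3 0 true true false .npn 3 0 3 (qsf 1610612736 469762048 0 536870912 3) ndN2q3 ndN7q0 pcN3 Cut.none Ext.none)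

def k0_pm_303 : ∃ t, chk3 f_pm_303 t 1 1 1 = true :=
  ⟨(l 4), by decide +kernel⟩

theorem c_pm_303 : CertNX 1610612736 469762048 0 536870912 1046898278 26843546 3 true true false .npn 3 0 3
    ndN2q3 ndN7q0 pcN3 Cut.none Ext.none :=
  certNX0 (fam := true) (s1 := true) (s2 := false) (a := 3) (b := 0) (c := 3) (cn := .npn) (n1 := ndN2q3) (n2 := ndN7q0) (pc := pcN3) (cut := Cut.none) (xt := Ext.none) (P1 := 1610612736) (W1 := 469762048) (P2 := 0) (W2 := 536870912) (P3 := 1046898278) (W3 := 26843546) (N0 := 3)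
    rfl k0_pm_303

noncomputable def f_pm_313 : ℕ → ℕ → ℕ → ℕ → Bool := onCell 1610612736 469762048 536870912 536870912 1046898278 26843546
    (rowNX 3 0 true true false .dn 3 1 3 (qsf 1610612736 469762048 536870912 536870912 3) ndN2q3 ndN7q1 pcN3 Cut.none Ext.none)

def k0_pm_313 : ∃ t, chk3 f_pm_313 t 1 1 1 = true :=
  ⟨(l 4), by decide +kernel⟩

theorem c_pm_313 : CertNX 1610612736 469762048 536870912 536870912 1046898278 26843546 3 true true false .dn 3 1 3
    ndN2q3 ndN7q1 pcN3 Cut.none Ext.none :=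
  certNX0 (fam := true) (s1 := true) (s2 := false) (a := 3) (b := 1) (c := 3) (cn := .dn) (n1 := ndN2q3) (n2 := ndN7q1) (pc := pcN3) (cut := Cut.none) (xt := Ext.none) (P1 := 1610612736) (W1 := 469762048) (P2 := 536870912) (W2 := 536870912) (P3 := 1046898278) (W3 := 26843546) (N0 := 3)
    rfl k0_pm_313

noncomputable def f_mm_001 : ℕ → ℕ → ℕ → ℕ → Bool := onCell 67108864 469762048 0 536870912 1046898278 26843546
    (rowNX 3 0 true false false .up 0 0 1 (qsf 67108864 469762048 0 536870912 1) ndN2q0 ndN7q0 pcN1 Cut.none Ext.none)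

def k0_mm_001 : ∃ t, chk3 f_mm_001 t 1 1 1 = true :=
  ⟨(l 4), by decide +kernel⟩

theorem c_mm_001 : CertNX 67108864 469762048 0 536870912 1046898278 26843546 3 true false false .up 0 0 1
    ndN2q0 ndN7q0 pcN1 Cut.none Ext.none :=
  certNX0 (fam := true) (s1 := false) (s2 := false) (a := 0) (b := 0) (c := 1) (cn := .up) (n1 := ndN2q0) (n2 := ndN7q0) (pc := pcN1) (cut := Cut.none) (xt := Ext.none) (P1 := 67108864) (W1 := 469762048) (P2 := 0) (W2 := 536870912) (P3 := 1046898278) (W3 := 26843546) (N0 := 3)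
    rfl k0_mm_001

noncomputable def f_mm_011 : ℕ → ℕ → ℕ → ℕ → Bool := onCell 67108864 469762048 536870912 536870912 1046898278 26843546
    (rowNX 3 0 true false false .pnn 0 1 1 (qsf 67108864 469762048 536870912 536870912 1) ndN2q0 ndN7q1 pcN1 Cut.none Ext.none)

def k0_mm_011 : ∃ t, chk3 f_mm_011 t 1 1 1 = true :=
  ⟨(l 4), by decide +kernel⟩

theorem c_mm_011 : CertNX 67108864 469762048 536870912 536870912 1046898278 26843546 3 true false false .pnn 0 1 1
    ndN2q0 ndN7q1 pcN1 Cut.none Ext.none :=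
  certNX0 (fam := true) (s1 := false) (s2 := false) (a := 0) (b := 1) (c := 1) (cn := .pnn) (n1 := ndN2q0) (n2 := ndN7q1) (pc := pcN1) (cut := Cut.none) (xt := Ext.none) (P1 := 67108864) (W1 := 469762048) (P2 := 536870912) (W2 := 536870912) (P3 := 1046898278) (W3 := 26843546) (N0 := 3)
    rfl k0_mm_011

noncomputable def f_mm_012 : ℕ → ℕ → ℕ → ℕ → Bool := onCell 67108864 469762048 536870912 536870912 1046898278 26843546
    (rowNX 3 0 true false false .pnp 0 1 2 (qsf 67108864 469762048 536870912 536870912 2) ndN2q0 ndN7q1 pcN2 Cut.none Ext.none)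

def k0_mm_012 : ∃ t, chk3 f_mm_012 t 1 1 1 = true :=
  ⟨(l 4), by decide +kernel⟩

theorem c_mm_012 : CertNX 67108864 469762048 536870912 536870912 1046898278 26843546 3 true false false .pnp 0 1 2
    ndN2q0 ndN7q1 pcN2 Cut.none Ext.none :=
  certNX0 (fam := true) (s1 := false) (s2 := false) (a := 0) (b := 1) (c := 2) (cn := .pnp) (n1 := ndN2q0) (n2 := ndN7q1) (pc := pcN2) (cut := Cut.none) (xt := Ext.none) (P1 := 67108864) (W1 := 469762048) (P2 := 536870912) (W2 := 536870912) (P3 := 1046898278) (W3 := 26843546) (N0 := 3)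
    rfl k0_mm_012

noncomputable def f_mm_022 : ℕ → ℕ → ℕ → ℕ → Bool := onCell 67108864 469762048 1073741824 536870912 1046898278 26843546
    (rowNX 3 0 true false false .pp 0 2 2 (qsf 67108864 469762048 1073741824 536870912 2) ndN2q0 ndN7q2 pcN2 Cut.none Ext.none)

def k0_mm_022 : ∃ t, chk3 f_mm_022 t 1 1 1 = true :=
  ⟨(l 4), by decide +kernel⟩

theorem c_mm_022 : CertNX 67108864 469762048 1073741824 536870912 1046898278 26843546 3 true false false .pp 0 2 2
    ndN2q0 ndN7q2 pcN2 Cut.none Ext.none :=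
  certNX0 (fam := true) (s1 := false) (s2 := false) (a := 0) (b := 2) (c := 2) (cn := .pp) (n1 := ndN2q0) (n2 := ndN7q2) (pc := pcN2) (cut := Cut.none) (xt := Ext.none) (P1 := 67108864) (W1 := 469762048) (P2 := 1073741824) (W2 := 536870912) (P3 := 1046898278) (W3 := 26843546) (N0 := 3)
    rfl k0_mm_022

noncomputable def f_mm_023 : ℕ → ℕ → ℕ → ℕ → Bool := onCell 67108864 469762048 1073741824 536870912 1046898278 26843546
    (rowNX 3 0 true false false .up 0 2 3 (qsf 67108864 469762048 1073741824 536870912 3) ndN2q0 ndN7q2 pcN3 Cut.none Ext.none)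

def k0_mm_023 : ∃ t, chk3 f_mm_023 t 1 1 1 = true :=
  ⟨(l 4), by decide +kernel⟩

theorem c_mm_023 : CertNX 67108864 469762048 1073741824 536870912 1046898278 26843546 3 true false false .up 0 2 3
    ndN2q0 ndN7q2 pcN3 Cut.none Ext.none :=
  certNX0 (fam := true) (s1 := false) (s2 := false) (a := 0) (b := 2) (c := 3) (cn := .up) (n1 := ndN2q0) (n2 := ndN7q2) (pc := pcN3) (cut := Cut.none) (xt := Ext.none) (P1 := 67108864) (W1 := 469762048) (P2 := 1073741824) (W2 := 536870912) (P3 := 1046898278) (W3 := 26843546) (N0 := 3)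
    rfl k0_mm_023

noncomputable def f_mm_033 : ℕ → ℕ → ℕ → ℕ → Bool := onCell 67108864 469762048 0 1230186008 1046898278 26843546
    (rowNX 3 0 true false false .pnn 0 3 3 (qsf 67108864 469762048 0 1230186008 3) ndN2q0 ndN7q3 pcN3 Cut.none Ext.none)

def k0_mm_033 : ∃ t, chk3 f_mm_033 t 1 1 1 = true :=
  ⟨(l 4), by decide +kernel⟩

theorem c_mm_033 : CertNX 67108864 469762048 0 1230186008 1046898278 26843546 3 true false false .pnn 0 3 3
    ndN2q0 ndN7q3 pcN3 Cut.none Ext.none :=
  certNX0 (fam := true) (s1 := false) (s2 := false) (a := 0) (b := 3) (c := 3) (cn := .pnn) (n1 := ndN2q0) (n2 := ndN7q3) (pc := pcN3) (cut := Cut.none) (xt := Ext.none) (P1 := 67108864) (W1 := 469762048) (P2 := 0) (W2 := 1230186008) (P3 := 1046898278) (W3 := 26843546) (N0 := 3)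
    rfl k0_mm_033

noncomputable def f_mm_101 : ℕ → ℕ → ℕ → ℕ → Bool := onCell 536870912 536870912 0 536870912 1046898278 26843546
    (rowNX 3 0 true false false .npn 1 0 1 (qsf 536870912 536870912 0 536870912 1) ndN2q1 ndN7q0 pcN1 Cut.none Ext.none)

def k0_mm_101 : ∃ t, chk3 f_mm_101 t 1 1 1 = true :=
  ⟨(l 4), by decide +kernel⟩

theorem c_mm_101 : CertNX 536870912 536870912 0 536870912 1046898278 26843546 3 true false false .npn 1 0 1
    ndN2q1 ndN7q0 pcN1 Cut.none Ext.none :=
  certNX0 (fam := true) (s1 := false) (s2 := false) (a := 1) (b := 0) (c := 1) (cn := .npn) (n1 := ndN2q1) (n2 := ndN7q0) (pc := pcN1) (cut := Cut.none) (xt := Ext.none) (P1 := 536870912) (W1 := 536870912) (P2 := 0) (W2 := 536870912) (P3 := 1046898278) (W3 := 26843546) (N0 := 3)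
    rfl k0_mm_101

noncomputable def f_mm_102 : ℕ → ℕ → ℕ → ℕ → Bool := onCell 536870912 536870912 0 536870912 1046898278 26843546
    (rowNX 3 0 true false false .npp 1 0 2 (qsf 536870912 536870912 0 536870912 2) ndN2q1 ndN7q0 pcN2 Cut.none Ext.none)

def k0_mm_102 : ∃ t, chk3 f_mm_102 t 1 1 1 = true :=
  ⟨(l 4), by decide +kernel⟩

theorem c_mm_102 : CertNX 536870912 536870912 0 536870912 1046898278 26843546 3 true false false .npp 1 0 2
    ndN2q1 ndN7q0 pcN2 Cut.none Ext.none :=
  certNX0 (fam := true) (s1 := false) (s2 := false) (a := 1) (b := 0) (c := 2) (cn := .npp) (n1 := ndN2q1) (n2 := ndN7q0) (pc := pcN2) (cut := Cut.none) (xt := Ext.none) (P1 := 536870912) (W1 := 536870912) (P2 := 0) (W2 := 536870912) (P3 := 1046898278) (W3 := 26843546) (N0 := 3)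
    rfl k0_mm_102

noncomputable def f_mm_112 : ℕ → ℕ → ℕ → ℕ → Bool := onCell 536870912 536870912 536870912 536870912 1046898278 26843546
    (rowNX 3 0 true false false .dn 1 1 2 (qsf 536870912 536870912 536870912 536870912 2) ndN2q1 ndN7q1 pcN2 Cut.none Ext.none)

def k0_mm_112 : ∃ t, chk3 f_mm_112 t 1 1 1 = true :=
  ⟨(l 4), by decide +kernel⟩

theorem c_mm_112 : CertNX 536870912 536870912 536870912 536870912 1046898278 26843546 3 true false false .dn 1 1 2
    ndN2q1 ndN7q1 pcN2 Cut.none Ext.none :=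
  certNX0 (fam := true) (s1 := false) (s2 := false) (a := 1) (b := 1) (c := 2) (cn := .dn) (n1 := ndN2q1) (n2 := ndN7q1) (pc := pcN2) (cut := Cut.none) (xt := Ext.none) (P1 := 536870912) (W1 := 536870912) (P2 := 536870912) (W2 := 536870912) (P3 := 1046898278) (W3 := 26843546) (N0 := 3)
    rfl k0_mm_112

noncomputable def f_mm_113 : ℕ → ℕ → ℕ → ℕ → Bool := onCell 536870912 536870912 536870912 536870912 1046898278 26843546
    (rowNX 3 0 true false false .nn 1 1 3 (qsf 536870912 536870912 536870912 536870912 3) ndN2q1 ndN7q1 pcN3 Cut.none Ext.none)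

def k0_mm_113 : ∃ t, chk3 f_mm_113 t 1 1 1 = true :=
  ⟨(l 4), by decide +kernel⟩

theorem c_mm_113 : CertNX 536870912 536870912 536870912 536870912 1046898278 26843546 3 true false false .nn 1 1 3
    ndN2q1 ndN7q1 pcN3 Cut.none Ext.none :=
  certNX0 (fam := true) (s1 := false) (s2 := false) (a := 1) (b := 1) (c := 3) (cn := .nn) (n1 := ndN2q1) (n2 := ndN7q1) (pc := pcN3) (cut := Cut.none) (xt := Ext.none) (P1 := 536870912) (W1 := 536870912) (P2 := 536870912) (W2 := 536870912) (P3 := 1046898278) (W3 := 26843546) (N0 := 3)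
    rfl k0_mm_113

noncomputable def f_mm_123 : ℕ → ℕ → ℕ → ℕ → Bool := onCell 536870912 536870912 1073741824 536870912 1046898278 26843546
    (rowNX 3 0 true false false .npn 1 2 3 (qsf 536870912 536870912 1073741824 536870912 3) ndN2q1 ndN7q2 pcN3 Cut.none Ext.none)

def k0_mm_123 : ∃ t, chk3 f_mm_123 t 1 1 1 = true :=
  ⟨(l 4), by decide +kernel⟩

theorem c_mm_123 : CertNX 536870912 536870912 1073741824 536870912 1046898278 26843546 3 true false false .npn 1 2 3
    ndN2q1 ndN7q2 pcN3 Cut.none Ext.none :=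
  certNX0 (fam := true) (s1 := false) (s2 := false) (a := 1) (b := 2) (c := 3) (cn := .npn) (n1 := ndN2q1) (n2 := ndN7q2) (pc := pcN3) (cut := Cut.none) (xt := Ext.none) (P1 := 536870912) (W1 := 536870912) (P2 := 1073741824) (W2 := 536870912) (P3 := 1046898278) (W3 := 26843546) (N0 := 3)
    rfl k0_mm_123

noncomputable def f_mm_133 : ℕ → ℕ → ℕ → ℕ → Bool := onCell 536870912 536870912 0 1230186008 1046898278 26843546
    (rowNX 3 0 true false false .dn 1 3 3 (qsf 536870912 536870912 0 1230186008 3) ndN2q1 ndN7q3 pcN3 Cut.none Ext.none)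

def k0_mm_133 : ∃ t, chk3 f_mm_133 t 1 1 1 = true :=
  ⟨(l 4), by decide +kernel⟩

theorem c_mm_133 : CertNX 536870912 536870912 0 1230186008 1046898278 26843546 3 true false false .dn 1 3 3
    ndN2q1 ndN7q3 pcN3 Cut.none Ext.none :=
  certNX0 (fam := true) (s1 := false) (s2 := false) (a := 1) (b := 3) (c := 3) (cn := .dn) (n1 := ndN2q1) (n2 := ndN7q3) (pc := pcN3) (cut := Cut.none) (xt := Ext.none) (P1 := 536870912) (W1 := 536870912) (P2 := 0) (W2 := 1230186008) (P3 := 1046898278) (W3 := 26843546) (N0 := 3)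
    rfl k0_mm_133

noncomputable def f_mm_202_a : ℕ → ℕ → ℕ → ℕ → Bool := onCell 0 420477299 0 536870912 1046898278 26843546
    (rowNX 3 0 true false false .pp 2 0 2 (qsf 0 420477299 0 536870912 2) ndN2q2a ndN7q0 pcN2 Cut.none Ext.none)

def k0_mm_202_a : ∃ t, chk3 f_mm_202_a t 1 1 1 = true :=
  ⟨(l 4), by decide +kernel⟩

theorem c_mm_202_a : CertNX 0 420477299 0 536870912 1046898278 26843546 3 true false false .pp 2 0 2
    ndN2q2a ndN7q0 pcN2 Cut.none Ext.none :=
  certNX0 (fam := true) (s1 := false) (s2 := false) (a := 2) (b := 0) (c := 2) (cn := .pp) (n1 := ndN2q2a) (n2 := ndN7q0) (pc := pcN2) (cut := Cut.none) (xt := Ext.none) (P1 := 0) (W1 := 420477299) (P2 := 0) (W2 := 536870912) (P3 := 1046898278) (W3 := 26843546) (N0 := 3)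
    rfl k0_mm_202_a

noncomputable def f_mm_202_b : ℕ → ℕ → ℕ → ℕ → Bool := onCell 1239849684 370763052 0 536870912 1046898278 26843546
    (rowNX 3 0 true false false .pp 2 0 2 (qsf 1239849684 370763052 0 536870912 2) ndN2q2b ndN7q0 pcN2 Cut.none Ext.none)

def k0_mm_202_b : ∃ t, chk3 f_mm_202_b t 1 1 1 = true :=
  ⟨(l 4), by decide +kernel⟩

theorem c_mm_202_b : CertNX 1239849684 370763052 0 536870912 1046898278 26843546 3 true false false .pp 2 0 2
    ndN2q2b ndN7q0 pcN2 Cut.none Ext.none :=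
  certNX0 (fam := true) (s1 := false) (s2 := false) (a := 2) (b := 0) (c := 2) (cn := .pp) (n1 := ndN2q2b) (n2 := ndN7q0) (pc := pcN2) (cut := Cut.none) (xt := Ext.none) (P1 := 1239849684) (W1 := 370763052) (P2 := 0) (W2 := 536870912) (P3 := 1046898278) (W3 := 26843546) (N0 := 3)
    rfl k0_mm_202_b

noncomputable def f_mm_203_a : ℕ → ℕ → ℕ → ℕ → Bool := onCell 0 420477299 0 536870912 1046898278 26843546
    (rowNX 3 0 true false false .up 2 0 3 (qsf 0 420477299 0 536870912 3) ndN2q2a ndN7q0 pcN3 Cut.none Ext.none)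

def k0_mm_203_a : ∃ t, chk3 f_mm_203_a t 1 1 1 = true :=
  ⟨(l 4), by decide +kernel⟩

theorem c_mm_203_a : CertNX 0 420477299 0 536870912 1046898278 26843546 3 true false false .up 2 0 3
    ndN2q2a ndN7q0 pcN3 Cut.none Ext.none :=
  certNX0 (fam := true) (s1 := false) (s2 := false) (a := 2) (b := 0) (c := 3) (cn := .up) (n1 := ndN2q2a) (n2 := ndN7q0) (pc := pcN3) (cut := Cut.none) (xt := Ext.none) (P1 := 0) (W1 := 420477299) (P2 := 0) (W2 := 536870912) (P3 := 1046898278) (W3 := 26843546) (N0 := 3)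
    rfl k0_mm_203_a

noncomputable def f_mm_203_b : ℕ → ℕ → ℕ → ℕ → Bool := onCell 1239849684 370763052 0 536870912 1046898278 26843546
    (rowNX 3 0 true false false .up 2 0 3 (qsf 1239849684 370763052 0 536870912 3) ndN2q2b ndN7q0 pcN3 Cut.none Ext.none)

def k0_mm_203_b : ∃ t, chk3 f_mm_203_b t 1 1 1 = true :=
  ⟨(l 4), by decide +kernel⟩

theorem c_mm_203_b : CertNX 1239849684 370763052 0 536870912 1046898278 26843546 3 true false false .up 2 0 3
    ndN2q2b ndN7q0 pcN3 Cut.none Ext.none :=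
  certNX0 (fam := true) (s1 := false) (s2 := false) (a := 2) (b := 0) (c := 3) (cn := .up) (n1 := ndN2q2b) (n2 := ndN7q0) (pc := pcN3) (cut := Cut.none) (xt := Ext.none) (P1 := 1239849684) (W1 := 370763052) (P2 := 0) (W2 := 536870912) (P3 := 1046898278) (W3 := 26843546) (N0 := 3)
    rfl k0_mm_203_b

noncomputable def f_mm_213_a : ℕ → ℕ → ℕ → ℕ → Bool := onCell 0 420477299 536870912 536870912 1046898278 26843546
    (rowNX 3 0 true false false .pnn 2 1 3 (qsf 0 420477299 536870912 536870912 3) ndN2q2a ndN7q1 pcN3 Cut.none Ext.none)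

def k0_mm_213_a : ∃ t, chk3 f_mm_213_a t 1 1 1 = true :=
  ⟨(l 4), by decide +kernel⟩

theorem c_mm_213_a : CertNX 0 420477299 536870912 536870912 1046898278 26843546 3 true false false .pnn 2 1 3
    ndN2q2a ndN7q1 pcN3 Cut.none Ext.none :=
  certNX0 (fam := true) (s1 := false) (s2 := false) (a := 2) (b := 1) (c := 3) (cn := .pnn) (n1 := ndN2q2a) (n2 := ndN7q1) (pc := pcN3) (cut := Cut.none) (xt := Ext.none) (P1 := 0) (W1 := 420477299) (P2 := 536870912) (W2 := 536870912) (P3 := 1046898278) (W3 := 26843546) (N0 := 3)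
    rfl k0_mm_213_a

noncomputable def f_mm_213_b : ℕ → ℕ → ℕ → ℕ → Bool := onCell 1239849684 370763052 536870912 536870912 1046898278 26843546
    (rowNX 3 0 true false false .pnn 2 1 3 (qsf 1239849684 370763052 536870912 536870912 3) ndN2q2b ndN7q1 pcN3 Cut.none Ext.none)

def k0_mm_213_b : ∃ t, chk3 f_mm_213_b t 1 1 1 = true :=
  ⟨(l 4), by decide +kernel⟩

theorem c_mm_213_b : CertNX 1239849684 370763052 536870912 536870912 1046898278 26843546 3 true false false .pnn 2 1 3
    ndN2q2b ndN7q1 pcN3 Cut.none Ext.none :=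
  certNX0 (fam := true) (s1 := false) (s2 := false) (a := 2) (b := 1) (c := 3) (cn := .pnn) (n1 := ndN2q2b) (n2 := ndN7q1) (pc := pcN3) (cut := Cut.none) (xt := Ext.none) (P1 := 1239849684) (W1 := 370763052) (P2 := 536870912) (W2 := 536870912) (P3 := 1046898278) (W3 := 26843546) (N0 := 3)
    rfl k0_mm_213_b

noncomputable def f_mm_303 : ℕ → ℕ → ℕ → ℕ → Bool := onCell 1610612736 469762048 0 536870912 1046898278 26843546
    (rowNX 3 0 true false false .npn 3 0 3 (qsf 1610612736 469762048 0 536870912 3) ndN2q3 ndN7q0 pcN3 Cut.none Ext.none)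

def k0_mm_303 : ∃ t, chk3 f_mm_303 t 1 1 1 = true :=
  ⟨(l 4), by decide +kernel⟩

theorem c_mm_303 : CertNX 1610612736 469762048 0 536870912 1046898278 26843546 3 true false false .npn 3 0 3
    ndN2q3 ndN7q0 pcN3 Cut.none Ext.none :=
  certNX0 (fam := true) (s1 := false) (s2 := false) (a := 3) (b := 0) (c := 3) (cn := .npn) (n1 := ndN2q3) (n2 := ndN7q0) (pc := pcN3) (cut := Cut.none) (xt := Ext.none) (P1 := 1610612736) (W1 := 469762048) (P2 := 0) (W2 := 536870912) (P3 := 1046898278) (W3 := 26843546) (N0 := 3)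
    rfl k0_mm_303

noncomputable def f_mm_313 : ℕ → ℕ → ℕ → ℕ → Bool := onCell 1610612736 469762048 536870912 536870912 1046898278 26843546
    (rowNX 3 0 true false false .dn 3 1 3 (qsf 1610612736 469762048 536870912 536870912 3) ndN2q3 ndN7q1 pcN3 Cut.none Ext.none)

def k0_mm_313 : ∃ t, chk3 f_mm_313 t 1 1 1 = true :=
  ⟨(l 4), by decide +kernel⟩

theorem c_mm_313 : CertNX 1610612736 469762048 536870912 536870912 1046898278 26843546 3 true false false .dn 3 1 3
    ndN2q3 ndN7q1 pcN3 Cut.none Ext.none :=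
  certNX0 (fam := true) (s1 := false) (s2 := false) (a := 3) (b := 1) (c := 3) (cn := .dn) (n1 := ndN2q3) (n2 := ndN7q1) (pc := pcN3) (cut := Cut.none) (xt := Ext.none) (P1 := 1610612736) (W1 := 469762048) (P2 := 536870912) (W2 := 536870912) (P3 := 1046898278) (W3 := 26843546) (N0 := 3)
    rfl k0_mm_313

end Pool.Agent.Strip051.G.IE1.Tab.C.NA27

namespace Pool.Agent.Strip051.G.IE1.Tab.C.NA33

open Pool.Agent.Strip051.PB Pool.Agent.Strip051.PB.T
open Pool.Agent.Strip051.G.IE1.Tab

noncomputable def f_pp_001 : ℕ → ℕ → ℕ → ℕ → Bool := onCell 0 536870912 0 536870912 1046898278 26843546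
    (rowNX 3 0 true true true .up 0 0 1 (qsf 0 536870912 0 536870912 1) ndN3q0 ndN3q0 pcN1 Cut.none Ext.none)

def k0_pp_001 : ∃ t, chk3 f_pp_001 t 1 1 1 = true :=
  ⟨(l 4), by decide +kernel⟩

theorem c_pp_001 : CertNX 0 536870912 0 536870912 1046898278 26843546 3 true true true .up 0 0 1
    ndN3q0 ndN3q0 pcN1 Cut.none Ext.none :=
  certNX0 (fam := true) (s1 := true) (s2 := true) (a := 0) (b := 0) (c := 1) (cn := .up) (n1 := ndN3q0) (n2 := ndN3q0) (pc := pcN1) (cut := Cut.none) (xt := Ext.none) (P1 := 0) (W1 := 536870912) (P2 := 0) (W2 := 536870912) (P3 := 1046898278) (W3 := 26843546) (N0 := 3)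
    rfl k0_pp_001

noncomputable def f_pp_011 : ℕ → ℕ → ℕ → ℕ → Bool := onCell 0 536870912 536870912 536870912 1046898278 26843546
    (rowNX 3 0 true true true .pnn 0 1 1 (qsf 0 536870912 536870912 536870912 1) ndN3q0 ndN3q1 pcN1 Cut.none Ext.none)

def k0_pp_011 : ∃ t, chk3 f_pp_011 t 1 1 1 = true :=
  ⟨(l 4), by decide +kernel⟩

theorem c_pp_011 : CertNX 0 536870912 536870912 536870912 1046898278 26843546 3 true true true .pnn 0 1 1
    ndN3q0 ndN3q1 pcN1 Cut.none Ext.none :=
  certNX0 (fam := true) (s1 := true) (s2 := true) (a := 0) (b := 1) (c := 1) (cn := .pnn) (n1 := ndN3q0) (n2 := ndN3q1) (pc := pcN1) (cut := Cut.none) (xt := Ext.none) (P1 := 0) (W1 := 536870912) (P2 := 536870912) (W2 := 536870912) (P3 := 1046898278) (W3 := 26843546) (N0 := 3)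
    rfl k0_pp_011

noncomputable def f_pp_012 : ℕ → ℕ → ℕ → ℕ → Bool := onCell 0 536870912 536870912 536870912 1046898278 26843546
    (rowNX 3 0 true true true .pnp 0 1 2 (qsf 0 536870912 536870912 536870912 2) ndN3q0 ndN3q1 pcN2 Cut.none Ext.none)

def k0_pp_012 : ∃ t, chk3 f_pp_012 t 1 1 1 = true :=
  ⟨(l 4), by decide +kernel⟩

theorem c_pp_012 : CertNX 0 536870912 536870912 536870912 1046898278 26843546 3 true true true .pnp 0 1 2
    ndN3q0 ndN3q1 pcN2 Cut.none Ext.none :=
  certNX0 (fam := true) (s1 := true) (s2 := true) (a := 0) (b := 1) (c := 2) (cn := .pnp) (n1 := ndN3q0) (n2 := ndN3q1) (pc := pcN2) (cut := Cut.none) (xt := Ext.none) (P1 := 0) (W1 := 536870912) (P2 := 536870912) (W2 := 536870912) (P3 := 1046898278) (W3 := 26843546) (N0 := 3)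
    rfl k0_pp_012

noncomputable def cut_pp_022 : Cut := Cut.of [[⟨0, 0, 0, 67108864⟩, ⟨1, 1, 0, 67108864⟩, ⟨2, 1, 0, 67108864⟩]]

noncomputable def f_pp_022 : ℕ → ℕ → ℕ → ℕ → Bool := onCell 0 536870912 1073741824 536870912 1046898278 26843546
    (rowNX 3 1 true true true .pp 0 2 2 (qsf 0 536870912 1073741824 536870912 2) ndN3q0 ndN3q2 pcN2 cut_pp_022 Ext.none)

def k0_pp_022 : ∃ t, chk3 f_pp_022 t 1 1 1 = true :=
  ⟨(b (a (b (a (b (a (a (b (l 6) (l 4)) (l 4)) (l 4)) (l 4)) (l 4)) (l 4)) (l 4)) (l 4)), by decide +kernel⟩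

theorem c_pp_022 : CertNX 0 536870912 1073741824 536870912 1046898278 26843546 3 true true true .pp 0 2 2
    ndN3q0 ndN3q2 pcN2 cut_pp_022 Ext.none :=
  certNX1 (fam := true) (s1 := true) (s2 := true) (a := 0) (b := 2) (c := 2) (cn := .pp) (n1 := ndN3q0) (n2 := ndN3q2) (pc := pcN2) (cut := cut_pp_022) (xt := Ext.none) (P1 := 0) (W1 := 536870912) (P2 := 1073741824) (W2 := 536870912) (P3 := 1046898278) (W3 := 26843546) (N0 := 3)
    rfl (fun _ => rfl) k0_pp_022

noncomputable def f_pp_023 : ℕ → ℕ → ℕ → ℕ → Bool := onCell 1610612736 536870912 1073741824 536870912 1046898278 26843546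
    (rowNX 3 2 true true true .up 0 2 3 (qsf 0 536870912 1073741824 536870912 3) ndN3q0 ndN3q2 pcN3 Cut.none Ext.none)

def k0_pp_023 : ∃ t, chk3 f_pp_023 t 1 1 1 = true :=
  ⟨(l 4), by decide +kernel⟩

theorem c_pp_023 : CertNX 0 536870912 1073741824 536870912 1046898278 26843546 3 true true true .up 0 2 3
    ndN3q0 ndN3q2 pcN3 Cut.none Ext.none :=
  certNX2 (fam := true) (s1 := true) (s2 := true) (a := 0) (b := 2) (c := 3) (cn := .up) (n1 := ndN3q0) (n2 := ndN3q2) (pc := pcN3) (cut := Cut.none) (xt := Ext.none) (P1 := 0) (W1 := 536870912) (P2 := 1073741824) (W2 := 536870912) (P3 := 1046898278) (W3 := 26843546) (N0 := 3)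
    rfl (fun _ => rfl) k0_pp_023

noncomputable def f_pp_033 : ℕ → ℕ → ℕ → ℕ → Bool := onCell 0 536870912 1610612736 536870912 1046898278 26843546
    (rowNX 3 0 true true true .pnn 0 3 3 (qsf 0 536870912 1610612736 536870912 3) ndN3q0 ndN3q3 pcN3 Cut.none Ext.none)

def k0_pp_033 : ∃ t, chk3 f_pp_033 t 1 1 1 = true :=
  ⟨(l 4), by decide +kernel⟩

theorem c_pp_033 : CertNX 0 536870912 1610612736 536870912 1046898278 26843546 3 true true true .pnn 0 3 3
    ndN3q0 ndN3q3 pcN3 Cut.none Ext.none :=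
  certNX0 (fam := true) (s1 := true) (s2 := true) (a := 0) (b := 3) (c := 3) (cn := .pnn) (n1 := ndN3q0) (n2 := ndN3q3) (pc := pcN3) (cut := Cut.none) (xt := Ext.none) (P1 := 0) (W1 := 536870912) (P2 := 1610612736) (W2 := 536870912) (P3 := 1046898278) (W3 := 26843546) (N0 := 3)
    rfl k0_pp_033

noncomputable def f_pp_101 : ℕ → ℕ → ℕ → ℕ → Bool := onCell 536870912 536870912 0 536870912 1046898278 26843546
    (rowNX 3 0 true true true .npn 1 0 1 (qsf 536870912 536870912 0 536870912 1) ndN3q1 ndN3q0 pcN1 Cut.none Ext.none)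

def k0_pp_101 : ∃ t, chk3 f_pp_101 t 1 1 1 = true :=
  ⟨(l 4), by decide +kernel⟩

theorem c_pp_101 : CertNX 536870912 536870912 0 536870912 1046898278 26843546 3 true true true .npn 1 0 1
    ndN3q1 ndN3q0 pcN1 Cut.none Ext.none :=
  certNX0 (fam := true) (s1 := true) (s2 := true) (a := 1) (b := 0) (c := 1) (cn := .npn) (n1 := ndN3q1) (n2 := ndN3q0) (pc := pcN1) (cut := Cut.none) (xt := Ext.none) (P1 := 536870912) (W1 := 536870912) (P2 := 0) (W2 := 536870912) (P3 := 1046898278) (W3 := 26843546) (N0 := 3)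
    rfl k0_pp_101

noncomputable def f_pp_102 : ℕ → ℕ → ℕ → ℕ → Bool := onCell 536870912 536870912 0 536870912 1046898278 26843546
    (rowNX 3 0 true true true .npp 1 0 2 (qsf 536870912 536870912 0 536870912 2) ndN3q1 ndN3q0 pcN2 Cut.none Ext.none)

def k0_pp_102 : ∃ t, chk3 f_pp_102 t 1 1 1 = true :=
  ⟨(l 4), by decide +kernel⟩

theorem c_pp_102 : CertNX 536870912 536870912 0 536870912 1046898278 26843546 3 true true true .npp 1 0 2
    ndN3q1 ndN3q0 pcN2 Cut.none Ext.none :=
  certNX0 (fam := true) (s1 := true) (s2 := true) (a := 1) (b := 0) (c := 2) (cn := .npp) (n1 := ndN3q1) (n2 := ndN3q0) (pc := pcN2) (cut := Cut.none) (xt := Ext.none) (P1 := 536870912) (W1 := 536870912) (P2 := 0) (W2 := 536870912) (P3 := 1046898278) (W3 := 26843546) (N0 := 3)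
    rfl k0_pp_102

noncomputable def f_pp_112 : ℕ → ℕ → ℕ → ℕ → Bool := onCell 536870912 536870912 536870912 536870912 1046898278 26843546
    (rowNX 3 0 true true true .dn 1 1 2 (qsf 536870912 536870912 536870912 536870912 2) ndN3q1 ndN3q1 pcN2 Cut.none Ext.none)

def k0_pp_112 : ∃ t, chk3 f_pp_112 t 1 1 1 = true :=
  ⟨(l 4), by decide +kernel⟩

theorem c_pp_112 : CertNX 536870912 536870912 536870912 536870912 1046898278 26843546 3 true true true .dn 1 1 2
    ndN3q1 ndN3q1 pcN2 Cut.none Ext.none :=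
  certNX0 (fam := true) (s1 := true) (s2 := true) (a := 1) (b := 1) (c := 2) (cn := .dn) (n1 := ndN3q1) (n2 := ndN3q1) (pc := pcN2) (cut := Cut.none) (xt := Ext.none) (P1 := 536870912) (W1 := 536870912) (P2 := 536870912) (W2 := 536870912) (P3 := 1046898278) (W3 := 26843546) (N0 := 3)
    rfl k0_pp_112

noncomputable def f_pp_113 : ℕ → ℕ → ℕ → ℕ → Bool := onCell 536870912 536870912 536870912 536870912 1046898278 26843546
    (rowNX 3 0 true true true .nn 1 1 3 (qsf 536870912 536870912 536870912 536870912 3) ndN3q1 ndN3q1 pcN3 Cut.none Ext.none)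

def k0_pp_113 : ∃ t, chk3 f_pp_113 t 1 1 1 = true :=
  ⟨(l 4), by decide +kernel⟩

theorem c_pp_113 : CertNX 536870912 536870912 536870912 536870912 1046898278 26843546 3 true true true .nn 1 1 3
    ndN3q1 ndN3q1 pcN3 Cut.none Ext.none :=
  certNX0 (fam := true) (s1 := true) (s2 := true) (a := 1) (b := 1) (c := 3) (cn := .nn) (n1 := ndN3q1) (n2 := ndN3q1) (pc := pcN3) (cut := Cut.none) (xt := Ext.none) (P1 := 536870912) (W1 := 536870912) (P2 := 536870912) (W2 := 536870912) (P3 := 1046898278) (W3 := 26843546) (N0 := 3)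
    rfl k0_pp_113

noncomputable def f_pp_123 : ℕ → ℕ → ℕ → ℕ → Bool := onCell 536870912 536870912 1073741824 536870912 1046898278 26843546
    (rowNX 3 0 true true true .npn 1 2 3 (qsf 536870912 536870912 1073741824 536870912 3) ndN3q1 ndN3q2 pcN3 Cut.none Ext.none)

def k0_pp_123 : ∃ t, chk3 f_pp_123 t 1 1 1 = true :=
  ⟨(l 4), by decide +kernel⟩

theorem c_pp_123 : CertNX 536870912 536870912 1073741824 536870912 1046898278 26843546 3 true true true .npn 1 2 3
    ndN3q1 ndN3q2 pcN3 Cut.none Ext.none :=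
  certNX0 (fam := true) (s1 := true) (s2 := true) (a := 1) (b := 2) (c := 3) (cn := .npn) (n1 := ndN3q1) (n2 := ndN3q2) (pc := pcN3) (cut := Cut.none) (xt := Ext.none) (P1 := 536870912) (W1 := 536870912) (P2 := 1073741824) (W2 := 536870912) (P3 := 1046898278) (W3 := 26843546) (N0 := 3)
    rfl k0_pp_123

noncomputable def f_pp_133 : ℕ → ℕ → ℕ → ℕ → Bool := onCell 536870912 536870912 1610612736 536870912 1046898278 26843546
    (rowNX 3 0 true true true .dn 1 3 3 (qsf 536870912 536870912 1610612736 536870912 3) ndN3q1 ndN3q3 pcN3 Cut.none Ext.none)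

def k0_pp_133 : ∃ t, chk3 f_pp_133 t 1 1 1 = true :=
  ⟨(l 4), by decide +kernel⟩

theorem c_pp_133 : CertNX 536870912 536870912 1610612736 536870912 1046898278 26843546 3 true true true .dn 1 3 3
    ndN3q1 ndN3q3 pcN3 Cut.none Ext.none :=
  certNX0 (fam := true) (s1 := true) (s2 := true) (a := 1) (b := 3) (c := 3) (cn := .dn) (n1 := ndN3q1) (n2 := ndN3q3) (pc := pcN3) (cut := Cut.none) (xt := Ext.none) (P1 := 536870912) (W1 := 536870912) (P2 := 1610612736) (W2 := 536870912) (P3 := 1046898278) (W3 := 26843546) (N0 := 3)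
    rfl k0_pp_133

noncomputable def f_pp_202 : ℕ → ℕ → ℕ → ℕ → Bool := onCell 1073741824 536870912 0 536870912 1046898278 26843546
    (rowNX 3 0 true true true .pp 2 0 2 (qsf 1073741824 536870912 0 536870912 2) ndN3q2 ndN3q0 pcN2 Cut.none Ext.none)

def k0_pp_202 : ∃ t, chk3 f_pp_202 t 1 1 1 = true :=
  ⟨(l 5), by decide +kernel⟩

theorem c_pp_202 : CertNX 1073741824 536870912 0 536870912 1046898278 26843546 3 true true true .pp 2 0 2
    ndN3q2 ndN3q0 pcN2 Cut.none Ext.none :=
  certNX0 (fam := true) (s1 := true) (s2 := true) (a := 2) (b := 0) (c := 2) (cn := .pp) (n1 := ndN3q2) (n2 := ndN3q0) (pc := pcN2) (cut := Cut.none) (xt := Ext.none) (P1 := 1073741824) (W1 := 536870912) (P2 := 0) (W2 := 536870912) (P3 := 1046898278) (W3 := 26843546) (N0 := 3)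
    rfl k0_pp_202

noncomputable def f_pp_203 : ℕ → ℕ → ℕ → ℕ → Bool := onCell 1073741824 536870912 0 536870912 1046898278 26843546
    (rowNX 3 0 true true true .up 2 0 3 (qsf 1073741824 536870912 0 536870912 3) ndN3q2 ndN3q0 pcN3 Cut.none Ext.none)

def k0_pp_203 : ∃ t, chk3 f_pp_203 t 1 1 1 = true :=
  ⟨(l 5), by decide +kernel⟩

theorem c_pp_203 : CertNX 1073741824 536870912 0 536870912 1046898278 26843546 3 true true true .up 2 0 3
    ndN3q2 ndN3q0 pcN3 Cut.none Ext.none :=
  certNX0 (fam := true) (s1 := true) (s2 := true) (a := 2) (b := 0) (c := 3) (cn := .up) (n1 := ndN3q2) (n2 := ndN3q0) (pc := pcN3) (cut := Cut.none) (xt := Ext.none) (P1 := 1073741824) (W1 := 536870912) (P2 := 0) (W2 := 536870912) (P3 := 1046898278) (W3 := 26843546) (N0 := 3)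
    rfl k0_pp_203

noncomputable def f_pp_213 : ℕ → ℕ → ℕ → ℕ → Bool := onCell 1073741824 536870912 536870912 536870912 1046898278 26843546
    (rowNX 3 0 true true true .pnn 2 1 3 (qsf 1073741824 536870912 536870912 536870912 3) ndN3q2 ndN3q1 pcN3 Cut.none Ext.none)

def k0_pp_213 : ∃ t, chk3 f_pp_213 t 1 1 1 = true :=
  ⟨(l 4), by decide +kernel⟩

theorem c_pp_213 : CertNX 1073741824 536870912 536870912 536870912 1046898278 26843546 3 true true true .pnn 2 1 3
    ndN3q2 ndN3q1 pcN3 Cut.none Ext.none :=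
  certNX0 (fam := true) (s1 := true) (s2 := true) (a := 2) (b := 1) (c := 3) (cn := .pnn) (n1 := ndN3q2) (n2 := ndN3q1) (pc := pcN3) (cut := Cut.none) (xt := Ext.none) (P1 := 1073741824) (W1 := 536870912) (P2 := 536870912) (W2 := 536870912) (P3 := 1046898278) (W3 := 26843546) (N0 := 3)
    rfl k0_pp_213

noncomputable def f_pp_303 : ℕ → ℕ → ℕ → ℕ → Bool := onCell 1610612736 536870912 0 536870912 1046898278 26843546
    (rowNX 3 0 true true true .npn 3 0 3 (qsf 1610612736 536870912 0 536870912 3) ndN3q3 ndN3q0 pcN3 Cut.none Ext.none)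

def k0_pp_303 : ∃ t, chk3 f_pp_303 t 1 1 1 = true :=
  ⟨(l 4), by decide +kernel⟩

theorem c_pp_303 : CertNX 1610612736 536870912 0 536870912 1046898278 26843546 3 true true true .npn 3 0 3
    ndN3q3 ndN3q0 pcN3 Cut.none Ext.none :=
  certNX0 (fam := true) (s1 := true) (s2 := true) (a := 3) (b := 0) (c := 3) (cn := .npn) (n1 := ndN3q3) (n2 := ndN3q0) (pc := pcN3) (cut := Cut.none) (xt := Ext.none) (P1 := 1610612736) (W1 := 536870912) (P2 := 0) (W2 := 536870912) (P3 := 1046898278) (W3 := 26843546) (N0 := 3)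
    rfl k0_pp_303

noncomputable def f_pp_313 : ℕ → ℕ → ℕ → ℕ → Bool := onCell 1610612736 536870912 536870912 536870912 1046898278 26843546
    (rowNX 3 0 true true true .dn 3 1 3 (qsf 1610612736 536870912 536870912 536870912 3) ndN3q3 ndN3q1 pcN3 Cut.none Ext.none)

def k0_pp_313 : ∃ t, chk3 f_pp_313 t 1 1 1 = true :=
  ⟨(l 4), by decide +kernel⟩

theorem c_pp_313 : CertNX 1610612736 536870912 536870912 536870912 1046898278 26843546 3 true true true .dn 3 1 3
    ndN3q3 ndN3q1 pcN3 Cut.none Ext.none :=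
  certNX0 (fam := true) (s1 := true) (s2 := true) (a := 3) (b := 1) (c := 3) (cn := .dn) (n1 := ndN3q3) (n2 := ndN3q1) (pc := pcN3) (cut := Cut.none) (xt := Ext.none) (P1 := 1610612736) (W1 := 536870912) (P2 := 536870912) (W2 := 536870912) (P3 := 1046898278) (W3 := 26843546) (N0 := 3)
    rfl k0_pp_313

noncomputable def f_pm_001 : ℕ → ℕ → ℕ → ℕ → Bool := onCell 0 536870912 0 536870912 1046898278 26843546
    (rowNX 3 0 true true false .up 0 0 1 (qsf 0 536870912 0 536870912 1) ndN3q0 ndN3q0 pcN1 Cut.none Ext.none)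

def k0_pm_001 : ∃ t, chk3 f_pm_001 t 1 1 1 = true :=
  ⟨(a (l 3) (l 3)), by decide +kernel⟩

theorem c_pm_001 : CertNX 0 536870912 0 536870912 1046898278 26843546 3 true true false .up 0 0 1
    ndN3q0 ndN3q0 pcN1 Cut.none Ext.none :=
  certNX0 (fam := true) (s1 := true) (s2 := false) (a := 0) (b := 0) (c := 1) (cn := .up) (n1 := ndN3q0) (n2 := ndN3q0) (pc := pcN1) (cut := Cut.none) (xt := Ext.none) (P1 := 0) (W1 := 536870912) (P2 := 0) (W2 := 536870912) (P3 := 1046898278) (W3 := 26843546) (N0 := 3)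
    rfl k0_pm_001

noncomputable def cut_pm_011 : Cut := Cut.of [[⟨0, 0, 0, 67108864⟩, ⟨1, 1, 0, 67108864⟩, ⟨2, 1, 0, 67108864⟩]]

noncomputable def f_pm_011 : ℕ → ℕ → ℕ → ℕ → Bool := onCell 0 536870912 536870912 536870912 1046898278 26843546
    (rowNX 3 1 true true false .pnn 0 1 1 (qsf 0 536870912 536870912 536870912 1) ndN3q0 ndN3q1 pcN1 cut_pm_011 Ext.none)

def k0_pm_011 : ∃ t, chk3 f_pm_011 t 1 1 1 = true :=
  ⟨(b (l 3) (b (l 3) (a (a (b (l 3) (b (l 3) (a (a (b (l 3) (l 6)) (l 3)) (l 3)))) (l 3)) (l 3)))), by decide +kernel⟩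

theorem c_pm_011 : CertNX 0 536870912 536870912 536870912 1046898278 26843546 3 true true false .pnn 0 1 1
    ndN3q0 ndN3q1 pcN1 cut_pm_011 Ext.none :=
  certNX1 (fam := true) (s1 := true) (s2 := false) (a := 0) (b := 1) (c := 1) (cn := .pnn) (n1 := ndN3q0) (n2 := ndN3q1) (pc := pcN1) (cut := cut_pm_011) (xt := Ext.none) (P1 := 0) (W1 := 536870912) (P2 := 536870912) (W2 := 536870912) (P3 := 1046898278) (W3 := 26843546) (N0 := 3)
    rfl (fun _ => rfl) k0_pm_011

noncomputable def cut_pm_012 : Cut := Cut.of [[⟨0, 0, 0, 67108864⟩, ⟨1, 1, 0, 67108864⟩, ⟨2, 1, 0, 67108864⟩]]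

noncomputable def f_pm_012 : ℕ → ℕ → ℕ → ℕ → Bool := onCell 1073741824 536870912 536870912 536870912 1046898278 26843546
    (rowNX 3 2 true true false .pnp 0 1 2 (qsf 0 536870912 536870912 536870912 2) ndN3q0 ndN3q1 pcN2 cut_pm_012 Ext.none)

def k0_pm_012 : ∃ t, chk3 f_pm_012 t 1 2 1 = true :=
  ⟨(a (a (l 3) (a (a (a (l 3) (b (l 2) (a (l 1435760587575) (a (l 16777088) (c (a (l 16771616) (l 16765712)) (a (l 16771424) (l 16765304))))))) (b (l 2) (l 16771040))) (b (l 2) (l 16776984)))) (l 16777216)), by decide +kernel⟩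

def k1_pm_012 : ∃ t, chk3 f_pm_012 t 8 3 1 = true :=
  ⟨(b (l 3) (b (l 3) (b (l 3) (b (a (l 3) (b (l 3) (a (l 3) (a (l 3) (c (c (l 14870976) (l 14940232)) (l 15025200)))))) (a (l 6) (b (b (a (l 3) (c (a (c (l 15307432) (l 15359440)) (l 14959008)) (a (c (l 15443104) (l 15499088)) (l 15075888)))) (a (l 6) (c (a (a (l 15448112) (l 15306680)) (l 15061472)) (a (c (l 15438688) (l 15508496)) (l 15015312))))) (a (l 6) (a (b (c (l 15368208) (c (l 15436496) (l 15485584))) (l 6)) (c (a (l 15301736) (l 15167864)) (c (b (l 15172416) (l 15255472)) (b (l 15217000) (c (l 15249288) (l 15200016))))))))))))), by decide +kernel⟩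

def k2_pm_012 : ∃ t, chk3 f_pm_012 t 9 3 1 = true :=
  ⟨(b (a (l 3) (b (l 3) (a (l 3) (b (l 3) (c (l 15691880) (l 15653768)))))) (a (b (a (l 3) (l 3)) (b (a (a (l 3) (b (l 3) (c (l 14395328) (l 14396504)))) (c (c (b (l 14365216) (l 14105776)) (b (l 14374712) (l 14150888))) (a (l 14304664) (l 14125816)))) (a (b (c (a (b (l 14487888) (l 14549992)) (b (l 14193496) (l 14191584))) (a (b (l 14560872) (l 14653536)) (b (l 14255760) (l 14282080)))) (c (a (b (l 14439520) (l 14898728)) (b (c (l 14286216) (l 14301352)) (l 14512712))) (b (a (c (l 14732968) (l 14778776)) (c (l 14352272) (l 14391272))) (a (c (l 14877200) (b (l 14853248) (l 14927952))) (c (l 14479784) (b (l 14449056) (l 14522384))))))) (c (b (b (l 13888712) (a (c (l 13865904) (l 13916920)) (l 13689160))) (b (a (c (l 13915616) (l 13923976)) (l 13619568)) (l 13938936))) (b (a (l 14012936) (l 13813816)) (b (a (c (l 13968040) (l 14000088)) (l 13649360)) (c (l 13890320) (b (l 13854320) (l 13914672))))))))) (b (a (b (l 3) (a (b (l 3)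 (l 14331016)) (l 14372544))) (b (c (l 14839248) (l 14792936)) (c (l 14362992) (l 14278248)))) (b (a (c (a (b (l 14154400) (l 13884832)) (b (l 14103504) (l 13793304))) (a (b (l 14083064) (l 13867144)) (l 13904144))) (c (a (b (l 14068776) (l 13727848)) (b (l 14024360) (l 13655976))) (a (l 13851168) (l 13792200)))) (a (b (c (a (a (b (l 13705208) (l 13559128)) (l 13555472)) (l 13482088)) (a (a (l 13682280) (l 13599208)) (l 13523128))) (c (a (b (l 13407160) (l 13435200)) (l 13288136)) (b (a (l 13429072) (l 13299192)) (a (c (l 13372592) (l 13365680)) (l 13205744))))) (b (c (l 13331704) (l 13367120)) (c (l 13118800) (b (l 13127768) (l 13025968))))))))), by decide +kernel⟩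

def k3_pm_012 : ∃ t, chk3 f_pm_012 t 5 6 1 = true :=
  ⟨(a (a (a (b (c (l 16685288) (l 16682056)) (b (a (l 16212400) (l 16213024)) (a (l 15674104) (l 15631864)))) (a (a (b (l 16683992) (b (l 16212928) (l 15667144))) (b (l 16621184) (b (l 16208672) (b (l 15862248) (l 15434424))))) (a (b (b (l 16776880) (l 16393176)) (b (a (l 16202152) (l 16185040)) (l 15612464))) (b (a (c (l 16651360) (l 16500792)) (b (c (l 16740728) (l 16739464)) (l 16546200))) (b (l 16151552) (a (l 15581944) (l 15565256))))))) (b (l 16663456) (b (l 16163208) (l 15598912)))) (b (l 16682864) (b (l 16208248) (l 15665952)))), by decide +kernel⟩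

def k4_pm_012 : ∃ t, chk3 f_pm_012 t 5 7 1 = true :=
  ⟨(a (a (a (b (b (a (l 14814096) (c (l 14836464) (l 14768256))) (c (a (l 14310680) (l 14249680)) (a (l 14223968) (l 14160560)))) (b (c (l 13717232) (l 13671408)) (b (c (l 13125528) (l 13153024)) (c (l 12866872) (b (l 12870520) (l 12757752)))))) (a (b (b (a (l 14775992) (l 14741368)) (l 14125080)) (b (l 13376696) (b (c (l 12976120) (l 12997720)) (c (l 12678560) (b (l 12686088) (l 12548184)))))) (b (b (a (l 14702656) (a (l 14676360) (l 14662992))) (a (l 14061728) (a (l 14038552) (l 14028800)))) (b (a (l 13469216) (a (l 13445528) (c (l 13476872) (l 13421432)))) (a (b (l 12731848) (c (l 12599872) (b (l 12611616) (l 12462912)))) (a (b (c (l 12887880) (l 12905928)) (c (l 12614968) (b (l 12611224) (l 12485832)))) (b (c (b (l 12988560) (l 12794296)) (l 12917920)) (b (b (c (l 12674688) (l 12685000)) (l 12624776)) (l 12600400))))))))) (b (b (l 14710904) (l 14092944)) (b (b (l 13673328) (l 13300336)) (b (c (l 12921192) (l 12940544)) (c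 (l 12661400) (b (l 12658824) (l 12537744))))))) (b (b (l 14804168) (l 14216872)) (c (b (l 13645560) (b (l 13016848) (a (l 12689912) (l 12718232)))) (b (l 13597000) (b (l 13040160) (a (b (l 12699288) (l 12558632)) (l 12676544))))))), by decide +kernel⟩

def k5_pm_012 : ∃ t, chk3 f_pm_012 t 3 3 1 = true :=
  ⟨(b (b (l 16684248) (b (l 16213288) (a (l 15674520) (l 15674520)))) (b (a (b (l 14817032) (l 14234872)) (l 14592016)) (b (a (l 13634512) (l 13634512)) (a (b (l 13016312) (c (l 12718256) (l 12676576))) (b (l 13016312) (l 12707432)))))), by decide +kernel⟩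

theorem s6_pm_012 : ∃ t, chk3 f_pm_012 t 5 3 1 = true := ex3_b k3_pm_012 k4_pm_012

theorem s7_pm_012 : ∃ t, chk3 f_pm_012 t 4 3 1 = true := ex3_a k1_pm_012 k2_pm_012

theorem s8_pm_012 : ∃ t, chk3 f_pm_012 t 2 3 1 = true := ex3_a s7_pm_012 s6_pm_012

theorem s9_pm_012 : ∃ t, chk3 f_pm_012 t 1 3 1 = true := ex3_a s8_pm_012 k5_pm_012

theorem s10_pm_012 : ∃ t, chk3 f_pm_012 t 1 1 1 = true := ex3_b k0_pm_012 s9_pm_012

theorem c_pm_012 : CertNX 0 536870912 536870912 536870912 1046898278 26843546 3 true true false .pnp 0 1 2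
    ndN3q0 ndN3q1 pcN2 cut_pm_012 Ext.none :=
  certNX2 (fam := true) (s1 := true) (s2 := false) (a := 0) (b := 1) (c := 2) (cn := .pnp) (n1 := ndN3q0) (n2 := ndN3q1) (pc := pcN2) (cut := cut_pm_012) (xt := Ext.none) (P1 := 0) (W1 := 536870912) (P2 := 536870912) (W2 := 536870912) (P3 := 1046898278) (W3 := 26843546) (N0 := 3)
    rfl (fun _ => rfl) s10_pm_012

noncomputable def cut_pm_022 : Cut := Cut.of [[⟨0, 0, 0, 67108864⟩, ⟨1, 1, 0, 67108864⟩, ⟨2, 1, 0, 67108864⟩, ⟨3, 0, 0, 1233125376⟩]]

noncomputable def f_pm_022 : ℕ → ℕ → ℕ → ℕ → Bool := onCell 0 536870912 1073741824 536870912 1046898278 26843546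
    (rowNX 3 1 true true false .pp 0 2 2 (qsf 0 536870912 1073741824 536870912 2) ndN3q0 ndN3q2 pcN2 cut_pm_022 Ext.none)

def k0_pm_022 : ∃ t, chk3 f_pm_022 t 4 8 1 = true :=
  ⟨(a (a (b (l 6) (b (l 6) (b (l 6) (b (l 6) (b (l 6) (b (l 6) (b (l 6) (a (c (a (c (l 16047064) (l 16021400)) (c (l 16067040) (l 16083616))) (a (c (a (l 15959720) (c (l 16075072) (l 16086688))) (c (a (c (l 15997584) (a (l 15976176) (l 16020816))) (c (l 16094320) (c (l 16093032) (l 16093408)))) (a (c (a (c (l 15976640) (l 15973648)) (l 16015016)) (a (l 15971152) (l 16021232))) (l 16088896)))) (c (c (a (l 16182336) (l 16280400)) (c (l 16230656) (a (l 16185616) (l 16272608)))) (l 16223392)))) (c (c (a (l 16354944) (c (l 16507152) (l 16534568))) (a (c (l 16406880) (l 16409776)) (c (l 16550768) (l 16571344)))) (a (c (c (l 16380400) (l 16402288)) (l 16398536)) (l 16554064))))))))))) (a (b (l 6) (b (l 6) (b (a (l 6) (c (a (l 6) (c (l 16457168) (l 16438088))) (b (l 6) (l 16260408)))) (c (c (a (c (c (l 16493248) (a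 (l 16631496) (l 16650368))) (l 16625184)) (c (l 16478872) (l 16499280))) (a (l 16629424) (l 16430056))) (c (a (l 16589800) (l 16457472)) (l 16439728)))))) (b (l 1) (b (a (a (l 6) (l 1)) (l 1)) (c (c (b (c (l 16128688) (l 16052000)) (a (c (l 16354112) (l 16344656)) (l 16060432))) (b (l 16083392) (a (l 16329824) (l 16131848)))) (b (a (c (l 16278776) (b (l 16254968) (l 16271272))) (l 16066448)) (a (c (l 16303568) (l 16274896)) (c (l 16116896) (l 15927280))))))))) (a (b (l 1) (b (l 1) (b (l 1) (a (c (c (c (l 637296588679) (l 15459168)) (l 15381632)) (l 652328861847)) (l 1))))) (l 1))), by decide +kernel⟩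

def k1_pm_022 : ∃ t, chk3 f_pm_022 t 32 36 2 = true :=
  ⟨(a (b (a (b (c (a (l 15909336) (l 15954744)) (a (l 15875696) (l 15964496))) (c (l 15795832) (l 15780384))) (c (b (l 16022208) (a (l 15887640) (l 15935416))) (b (l 16017480) (a (l 15874192) (b (l 15957560) (l 15899248)))))) (c (c (l 15427688) (l 15439344)) (c (l 15408992) (a (l 15517776) (l 15662008))))) (c (a (b (c (l 16029792) (l 16039096)) (b (c (a (l 15860168) (l 15910872)) (l 15736784)) (l 15744872))) (b (l 15998136) (b (l 16000320) (c (l 15787160) (l 15908936))))) (b (c (l 16002944) (l 15929312)) (b (a (c (l 15743224) (l 15841008)) (l 16036696)) (a (l 15607960) (c (l 15926320) (l 15835368))))))), by decide +kernel⟩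

def k2_pm_022 : ∃ t, chk3 f_pm_022 t 64 36 3 = true :=
  ⟨(b (c (a (b (c (a (l 15907744) (l 15955200)) (a (l 15838160) (b (l 15983456) (l 15920208)))) (c (l 15768664) (l 15761656))) (c (b (l 16020152) (a (l 15866752) (l 15935296))) (b (c (l 16027760) (l 16034736)) (a (l 15768816) (c (l 15949080) (l 15915368)))))) (a (b (c (a (b (c (l 15938808) (l 15936088)) (l 15854904)) (c (l 15909568) (b (l 15990192) (c (l 15925976) (l 15926912))))) (a (c (b (c (l 15915568) (a (l 15921464) (a (l 15944040) (l 15962656)))) (c (l 15853472) (l 15848768))) (a (a (c (l 15862544) (l 15866880)) (l 15884840)) (l 15912256))) (c (a (c (l 15819528) (l 15947440)) (l 15976440)) (l 15956688)))) (c (c (l 15759056) (a (l 15716928) (l 15632288))) (c (a (c (l 15716632) (l 15647552)) (c (l 15668704) (l 15803000))) (a (l 15539632) (l 15799376))))) (c (b (c (a (l 16015136) (l 16062784)) (c (l 16036760) (l 16037368))) (c (a (b (l 15926496) (l 15847696)) (c (l 15955592) (l 15954736))) (c (a (l 15843192) (l 15952168))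 (l 15914488)))) (b (l 16032568) (l 15762224))))) (c (c (a (l 15507632) (l 15558792)) (a (l 15309560) (c (l 15668912) (a (l 15624704) (l 15683904))))) (c (a (c (l 15390440) (c (l 15265472) (a (l 15449320) (l 15534792)))) (c (c (l 15551008) (l 15464280)) (c (a (l 15630472) (l 15719352)) (l 15673400)))) (a (c (c (a (b (l 15536000) (l 15357552)) (c (l 15538248) (l 15539040))) (a (a (l 15330496) (l 15467440)) (l 15537280))) (l 15488944)) (l 15666616))))), by decide +kernel⟩

def k3_pm_022 : ∃ t, chk3 f_pm_022 t 65 36 3 = true :=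
  ⟨(c (b (c (a (l 15998680) (c (l 16187944) (l 16181152))) (c (a (l 15983864) (l 16177472)) (a (a (l 16061064) (l 16108136)) (l 16175704)))) (c (a (b (a (l 15883904) (l 15943408)) (l 15735960)) (a (b (l 16023488) (a (l 15893832) (l 15803416))) (c (l 15983376) (l 15999016)))) (a (c (b (a (l 15895080) (l 15960032)) (l 15778040)) (a (b (l 15846392) (l 15728432)) (l 15885360))) (l 15835504)))) (b (l 15933920) (b (a (b (l 15946528) (l 15880512)) (l 16028432)) (a (l 15762456) (l 15919928))))), by decide +kernel⟩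

def k4_pm_022 : ∃ t, chk3 f_pm_022 t 32 37 1 = true :=
  ⟨(c (a (c (a (b (c (l 15220816) (l 15207920)) (c (l 14757712) (l 14888704))) (c (b (l 15367736) (l 15061000)) (b (l 15356168) (l 15046624)))) (c (b (a (l 15194928) (l 15344512)) (a (l 14872792) (l 15032144))) (b (a (l 15181856) (l 15336176)) (a (l 14856768) (l 15020968))))) (c (c (a (b (l 15514544) (l 15217264)) (b (l 15687224) (l 15399272))) (a (b (l 15510760) (l 15210768)) (l 15302840))) (c (b (a (l 15513864) (l 15716344)) (a (l 15211152) (l 15423152))) (a (b (l 15524392) (l 15218944)) (c (l 15515400) (a (l 15532952) (l 15381800))))))) (c (a (c (a (b (l 15168688) (l 14840640)) (c (l 14984416) (l 14985048))) (a (c (l 14908512) (l 14755352)) (c (b (l 15339152) (l 15022792)) (b (a (l 15292144) (l 15393976)) (c (l 15021952) (l 15019608)))))) (c (c (a (l 15171608) (b (l 15646048) (l 15345288))) (a (b (l 15438624) (l 15045136)) (b (l 15614256) (l 15419624)))) (a (c (b (a (l 15493912) (l 15581040)) (a (l 15178136) (l 15273656)))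 (b (c (l 15532528) (l 15532896)) (l 15222872))) (l 15564512)))) (a (a (a (c (c (l 14937448) (c (l 14830304) (b (l 15100456) (l 14760072)))) (c (b (c (c (l 15095840) (l 15093544)) (l 15063960)) (c (a (l 14731280) (l 14780648)) (l 14756200))) (l 14921352))) (c (c (b (l 15194272) (l 14862848)) (c (b (l 15191912) (l 14857304)) (b (l 15189872) (l 14860688)))) (l 15021008))) (c (c (b (c (l 15278024) (l 15296432)) (c (l 15015720) (l 15015840))) (l 15175600)) (l 15164400))) (b (l 15463768) (l 15300312))))), by decide +kernel⟩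

def k5_pm_022 : ∃ t, chk3 f_pm_022 t 33 18 1 = true :=
  ⟨(b (c (c (a (c (b (l 16265160) (l 16060624)) (b (l 16194480) (l 16041552))) (c (a (l 16302592) (l 16324952)) (b (b (l 16439768) (l 16399504)) (c (l 16284640) (l 16244472))))) (a (c (a (l 16000248) (c (l 16205856) (l 16080992))) (b (c (l 16199744) (l 16151248)) (c (l 16012080) (a (l 16105360) (l 16206048))))) (a (c (b (l 16340648) (l 16177440)) (l 16338208)) (b (l 16511944) (l 16402704))))) (c (a (c (c (b (l 16169176) (l 16023232)) (l 16170056)) (l 16060832)) (b (a (l 16452016) (l 16542816)) (l 16307744))) (b (a (l 16266840) (l 16441128)) (l 16010952)))) (c (c (a (b (a (b (c (l 15939480) (l 15958256)) (l 15824016)) (c (b (l 16082376) (l 15997496)) (l 15902920))) (c (l 15584464) (l 15572776))) (c (b (a (l 16161472) (l 16266688)) (a (l 15784784) (b (l 16185640) (c (l 16107328) (l 16111424))))) (b (c (l 16075048) (l 16049152)) (a (b (c (l 16057008) (l 16052576)) (l 15943192)) (c (b (l 16179416) (l 16101240)) (l 16139912))))))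 (a (b (c (a (b (l 15968824) (l 15840784)) (b (l 16099408) (c (l 16011360) (l 15981904)))) (a (b (c (l 15931568) (l 15858496)) (l 15648496)) (c (b (l 16088376) (l 15997328)) (l 16040672)))) (c (a (l 15612632) (c (l 15823544) (l 15811512))) (c (a (l 15629536) (l 15808424)) (a (l 15616728) (l 15806944))))) (a (c (b (l 16012168) (c (b (l 16043960) (l 15930184)) (l 15986288))) (b (l 16161696) (l 15981144))) (b (l 16271712) (l 16070392))))) (a (b (c (b (a (l 15956272) (l 16080896)) (a (l 15825368) (l 15988080))) (b (l 15877384) (l 15784576))) (c (l 15618320) (l 15683904))) (b (c (l 16208152) (l 16199304)) (c (b (l 15990720) (l 15871736)) (b (l 16084808) (l 15985072))))))), by decide +kernel⟩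

def k6_pm_022 : ∃ t, chk3 f_pm_022 t 17 18 1 = true :=
  ⟨(c (a (c (a (b (c (b (l 16406952) (a (l 16434480) (l 16535752))) (b (l 16492536) (l 16520888))) (c (b (c (l 16331376) (l 16339544)) (a (l 16085616) (l 16365400))) (b (l 16421632) (l 16318648)))) (b (l 16341968) (l 16353824))) (b (a (b (l 16548176) (l 16437016)) (b (l 16522640) (l 16574032))) (a (b (a (l 16378696) (l 16483656)) (l 16298264)) (l 16338200)))) (b (c (a (b (l 16257352) (l 16464904)) (b (l 16127520) (l 16178416))) (a (b (l 16348792) (l 16418024)) (b (l 16192704) (l 16247408)))) (c (a (l 16405496) (l 16161552)) (a (l 16381984) (l 16241688))))) (b (a (c (b (l 16390584) (l 16403128)) (b (l 16441768) (l 16464024))) (a (c (l 16210512) (l 16287496)) (c (b (l 16163264) (l 16207152)) (b (l 16132136) (l 16172440))))) (a (c (b (l 16350176) (l 16222256)) (b (l 16367328) (l 16237656))) (c (a (l 16378944) (l 16242768)) (l 16120936))))), by decide +kernel⟩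

def k7_pm_022 : ∃ t, chk3 f_pm_022 t 32 38 2 = true :=
  ⟨(c (b (a (b (c (a (l 14674512) (l 14838008)) (l 14613256)) (b (c (a (l 14561936) (l 14728880)) (l 14627184)) (a (c (b (b (l 14515816) (c (l 14491632) (l 14481912))) (a (a (l 14454656) (l 14480856)) (l 14541608))) (b (l 14492768) (l 14487312))) (c (l 14673760) (l 14655792))))) (b (c (a (l 15001200) (l 15190064)) (l 14950208)) (b (c (l 14741920) (l 14950072)) (c (a (l 14841912) (l 15035680)) (a (l 14831960) (l 15043328)))))) (a (a (a (c (l 14548656) (l 14529560)) (b (c (b (a (b (l 14513520) (l 14520024)) (l 14550072)) (l 14555416)) (l 14509136)) (l 14583424))) (b (c (b (l 14653504) (l 14640704)) (l 14630464)) (c (c (l 14646688) (l 14658664)) (l 14645112)))) (b (c (l 14680456) (l 14908832)) (a (c (l 14779296) (l 14768784)) (l 14972184))))) (a (b (b (c (l 14721776) (l 14580504)) (c (b (l 14608840) (a (a (l 14411600) (l 14509112)) (l 14637704))) (b (l 14592344) (a (l 14452704) (l 14622888))))) (c (a (b (l 14494024) (l 14563208))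 (b (l 14612152) (l 14626952))) (a (l 14511344) (b (l 14597104) (l 14612064))))) (b (c (b (l 15079912) (b (l 14994920) (l 14794328))) (c (b (l 15103336) (b (l 14996640) (l 14943608))) (b (a (l 14999344) (l 15223000)) (b (l 14758728) (a (l 14835232) (l 15062504)))))) (c (a (l 14782640) (l 15003640)) (a (l 14786520) (c (l 15015536) (l 15010080))))))), by decide +kernel⟩

def k8_pm_022 : ∃ t, chk3 f_pm_022 t 32 38 3 = true :=
  ⟨(b (c (a (c (b (a (l 14602008) (l 14785512)) (b (l 14516976) (a (l 14432840) (l 14615096)))) (a (b (l 14584456) (b (l 14466544) (c (l 14417856) (l 14410824)))) (c (b (l 14790824) (b (l 14676808) (l 14472208))) (b (c (l 14786168) (l 14782792)) (b (l 14602616) (a (l 14555640) (l 14666816))))))) (a (c (b (c (l 15007760) (l 15007320)) (b (c (l 14899456) (l 14895984)) (c (l 14844808) (l 14818192)))) (c (a (b (l 14948160) (b (l 14836024) (l 14779400))) (l 14985016)) (l 14926432))) (c (c (b (l 15210048) (b (l 15102928) (l 15048416))) (l 15140976)) (l 15128624)))) (a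 (a (c (c (b (a (l 14527480) (l 14620048)) (b (a (l 14409152) (l 14500648)) (a (l 14359768) (c (l 14444448) (l 14438056))))) (b (c (l 14567128) (a (l 14511664) (l 14618720))) (a (b (c (l 14399928) (l 14390560)) (c (l 14285424) (a (l 14321088) (l 14358872)))) (l 14470600)))) (b (l 14560064) (l 14246928))) (c (c (c (b (l 14780968) (b (l 14667624) (l 14610992))) (l 14711824)) (l 14705728)) (l 14691336))) (b (l 15074752) (l 14936304)))) (c (a (c (a (l 14492048) (b (l 14589080) (l 14586864))) (a (c (l 14477488) (a (l 14446976) (l 14468104))) (c (a (l 14555648) (b (l 14640624) (l 14631632))) (a (b (l 14529024) (l 14560320)) (b (l 14636424) (l 14634688)))))) (c (c (a (l 14798744) (l 14997136)) (a (a (l 14739800) (l 14839280)) (l 14997272))) (a (c (l 14677216) (l 14781536)) (l 14983944)))) (a (a (c (c (a (l 14440592) (c (l 14478952) (l 14474568))) (a (c (l 14426328) (l 14420968)) (l 14478488))) (l 14447112)) (b (l 14570864) (l 14586376))) (l 14859504)))), by decide +kernel⟩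

def k9_pm_022 : ∃ t, chk3 f_pm_022 t 33 38 1 = true :=
  ⟨(c (b (c (a (b (c (l 15511160) (l 15520912)) (c (b (l 15413808) (l 15364024)) (b (l 15424424) (a (l 15266264) (l 15481680))))) (c (a (b (l 15817424) (l 15659256)) (b (l 16009416) (b (l 15919584) (l 15830920)))) (b (c (l 15823424) (l 15811904)) (b (a (l 15720704) (l 15899920)) (c (l 15535520) (l 15587616)))))) (a (c (b (a (l 15429408) (l 15426248)) (b (a (l 15329328) (l 15473952)) (a (c (l 15271992) (l 15277248)) (c (l 15474360) (l 15461256))))) (a (b (c (l 15419536) (l 15408328)) (b (c (l 15316504) (l 15307736)) (c (l 15263632) (l 15256880)))) (l 15546000))) (c (b (c (l 15896472) (l 15897848)) (l 15783280)) (l 15832752)))) (c (a (c (l 15315864) (a (l 15217592) (l 15436808))) (c (a (l 15633760) (l 15822528)) (a (l 15557352) (l 15806032)))) (a (c (a (c (l 15223688) (l 15227080)) (c (l 15422696) (l 15411872))) (c (l 15157040) (l 15308800))) (l 15705464)))) (b (c (a (b (l 15494824) (l 15367448)) (l 15631728)) (a (l 15323808)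 (l 15741880))) (c (l 15342816) (l 15405704)))), by decide +kernel⟩

def k10_pm_022 : ∃ t, chk3 f_pm_022 t 17 38 1 = true :=
  ⟨(a (c (a (c (b (c (a (b (c (l 16145800) (l 16168288)) (b (l 16091680) (l 16025624))) (l 16124544)) (b (l 16233896) (l 16052848))) (c (l 15858264) (l 16097904))) (b (b (l 16122720) (a (l 16065688) (l 16219120))) (l 16089808))) (b (c (a (l 16316088) (l 16515936)) (l 16359640)) (c (l 16208576) (l 16250040)))) (b (a (b (a (l 16085056) (l 16289232)) (c (l 16015248) (l 16026248))) (c (l 16439712) (l 16436336))) (a (l 16013032) (a (l 16272848) (l 16519456))))) (c (c (b (a (l 16450752) (l 16252432)) (l 16155264)) (b (a (l 16506600) (l 16291896)) (l 16289784))) (b (a (l 16290392) (l 16142656)) (l 16129984)))), by decide +kernel⟩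

def k11_pm_022 : ∃ t, chk3 f_pm_022 t 16 39 1 = true :=
  ⟨(c (a (c (a (c (b (l 14743608) (l 14898184)) (l 14783960)) (b (b (a (c (l 14794176) (l 14783816)) (c (l 14936448) (l 14943200))) (a (l 14858536) (c (l 14951680) (l 14958600)))) (c (l 15019952) (l 15018776)))) (a (c (l 14788368) (l 14647840)) (b (c (a (l 14816664) (l 14966848)) (a (l 14783880) (c (a (l 14925248) (l 15012160)) (a (l 14928520) (l 15000048))))) (c (l 14987720) (c (l 14845240) (a (l 14983128) (l 15074904))))))) (c (a (c (b (l 15160936) (a (l 15171256) (l 15318216))) (a (b (l 15146640) (l 15181664)) (b (l 15320928) (c (l 15328912) (b (l 15307376) (l 15320896)))))) (c (a (c (l 15525928) (l 15445008)) (c (l 15714992) (l 15702448))) (a (c (l 15367696) (l 15505912)) (l 15704848)))) (a (a (c (b (c (l 15157840) (l 15151176)) (c (l 15193008) (l 15181680))) (c (b (l 15137808) (l 15175984)) (l 15166024))) (c (b (c (l 15344128) (l 15342000)) (c (l 15308128) (l 15309672))) (l 15321216))) (l 15596344)))) (a (c (a (c (c (l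 14766024) (a (l 14723384) (l 14717816))) (c (a (l 14721368) (c (l 14794552) (l 14790352))) (a (c (l 14715096) (l 14707120)) (a (l 14718088) (l 14825464))))) (c (c (a (b (l 14662536) (l 14978992)) (b (l 14961608) (l 15078624))) (a (a (l 14870616) (l 14928488)) (l 15020896))) (b (l 14892024) (l 15016824)))) (a (c (a (c (c (l 14656208) (a (l 14677008) (l 14717848))) (a (c (l 14671856) (l 14673304)) (l 14717936))) (l 14791432)) (l 14733368)) (b (a (l 14793248) (l 14921112)) (l 14993312)))) (a (c (b (l 15217552) (l 15226424)) (b (l 15190544) (l 15199688))) (c (l 15575984) (l 15556008))))), by decide +kernel⟩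

def k12_pm_022 : ∃ t, chk3 f_pm_022 t 17 39 1 = true :=
  ⟨(a (c (c (a (c (c (l 15966224) (l 15992720)) (l 15988976)) (l 16280488)) (a (l 15979448) (l 16296928))) (a (l 15773960) (l 16121264))) (c (a (c (b (l 16253384) (l 16437560)) (l 16198744)) (c (b (l 16174400) (l 16015632)) (l 16010352))) (a (c (l 16216800) (l 16171184)) (b (l 16139712) (l 16009480))))), by decide +kernel⟩

def k13_pm_022 : ∃ t, chk3 f_pm_022 t 9 18 1 = true :=
  ⟨(a (a (c (b (a (b (c (l 15911000) (l 15896288)) (c (l 15950216) (l 15948592))) (c (l 500394297175) (l 530459025383))) (c (a (b (l 15983120) (l 16068560)) (b (l 15657880) (l 15695784))) (b (a (l 16005904) (l 15628864)) (l 15596264)))) (b (b (a (c (l 15877088) (l 15641232)) (l 15461528)) (a (c (l 15936088) (l 15900864)) (c (l 15546656) (l 15451568)))) (c (a (l 15945232) (b (l 15589112) (l 15597640))) (a (l 15931264) (l 15318944))))) (b (a (b (l 1) (c (l 689908946807) (l 15106768))) (l 1)) (c (b (c (a (l 15238648) (l 14805480)) (l 531531683319)) (c (a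 (l 15288600) (l 14851272)) (a (l 15252680) (l 14816496)))) (b (a (c (l 15179360) (l 15140392)) (l 14716136)) (c (a (l 15205936) (l 14777216)) (a (l 15157264) (l 14730712))))))) (b (l 1) (b (l 1) (a (a (a (c (l 768827776327) (l 14410368)) (l 1)) (l 1)) (l 1))))), by decide +kernel⟩

def k14_pm_022 : ∃ t, chk3 f_pm_022 t 9 19 1 = true :=
  ⟨(a (c (a (a (b (b (c (l 16000848) (l 16004376)) (l 15882512)) (c (l 15849520) (l 15817080))) (b (b (c (l 15596080) (l 15640424)) (l 15590352)) (l 15220816))) (b (a (b (c (b (l 15313240) (l 15311744)) (l 15193088)) (l 15229672)) (b (b (l 14777152) (b (l 14870160) (l 14785328))) (c (l 14868328) (l 14805920)))) (c (l 14743408) (l 14846104)))) (b (a (b (c (a (l 15965672) (l 15582528)) (l 15623896)) (l 15563016)) (b (c (a (l 15197424) (l 14787760)) (a (l 15144136) (l 14731280))) (l 14724208))) (a (l 15342312) (l 14595696)))) (b (a (c (b (a (b (l 581996379927) (c (l 14274424) (l 14399512))) (b (l 1) (b (l 1) (l 14078872)))) (a (c (l 14440800) (l 14388816))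 (l 13956744))) (b (a (c (l 443483560695) (b (l 14293136) (l 14294840))) (l 922908540503)) (a (l 14252832) (l 13971152)))) (a (a (b (l 1) (c (l 889622688583) (l 13776672))) (l 1)) (l 1))) (a (c (a (c (b (l 14415112) (l 14362848)) (l 14304704)) (c (b (l 14104016) (l 14082288)) (b (l 14045688) (l 14004984)))) (a (l 14200864) (c (l 13946344) (l 13874344)))) (b (a (a (c (l 13904528) (l 13784168)) (l 13754216)) (l 13626696)) (c (l 13787912) (l 13651040)))))), by decide +kernel⟩

def k15_pm_022 : ∃ t, chk3 f_pm_022 t 5 4 1 = true :=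
  ⟨(a (b (l 1) (a (a (a (b (l 1) (l 868683749543)) (l 1)) (l 1)) (l 1))) (l 1)), by decide +kernel⟩

def k16_pm_022 : ∃ t, chk3 f_pm_022 t 3 4 1 = true :=
  ⟨(l 1), by decide +kernel⟩

def k17_pm_022 : ∃ t, chk3 f_pm_022 t 32 20 1 = true :=
  ⟨(b (c (c (a (c (l 15127224) (l 15113848)) (c (l 15208072) (l 15230192))) (a (c (l 15100384) (l 14945600)) (c (a (l 15202344) (c (l 15313424) (l 15319624))) (c (a (l 15215840) (l 15313264)) (a (l 15215048) (l 15312128)))))) (c (c (a (a (l 14947816) (c (l 15100104) (l 14922264))) (a (c (l 15189328) (l 15218024)) (l 15314512))) (a (c (a (l 14935344) (l 14875312)) (a (c (l 15026736) (l 15019520)) (l 15117656))) (l 15258672))) (c (a (c (a (c (l 15017488) (l 15023944)) (l 15119768)) (l 15067688)) (l 15245040)) (l 15105472)))) (b (c (c (a (l 15317880) (c (l 15433000) (l 15436072))) (a (c (l 15300824) (c (l 15292768) (l 15297440))) (c (a (l 15397424) (l 15495680)) (c (l 15255128) (l 15318328))))) (c (a (c (c (a (l 15256664) (l 15313952)) (a (l 15256856)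 (l 15307552))) (a (c (l 15240984) (l 15231864)) (l 15319888))) (l 15451536)) (a (l 15275936) (l 15434504)))) (c (c (a (b (b (l 15376632) (l 15376680)) (a (l 15316632) (l 15386376))) (b (b (l 15480720) (l 15487384)) (l 15394616))) (a (a (b (b (l 15335104) (l 15333240)) (l 15294104)) (c (b (l 15382520) (l 15370472)) (b (b (l 15379896) (l 15383104)) (l 15368184)))) (c (b (b (a (l 15446368) (l 15533352)) (l 15493304)) (l 15479328)) (a (b (b (l 15445560) (l 15446056)) (l 15434208)) (l 15538424))))) (a (a (c (c (b (b (l 15281928) (l 15320968)) (l 15279376)) (c (b (b (l 15304368) (l 15302232)) (l 15262208)) (l 15279288))) (b (l 15298992) (l 15259384))) (c (c (b (b (c (l 15367816) (l 15369512)) (l 15366680)) (a (l 15333456) (l 15385296))) (l 15372736)) (l 15369792))) (c (l 15492056) (l 15476024)))))), by decide +kernel⟩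

def k18_pm_022 : ∃ t, chk3 f_pm_022 t 33 20 1 = true :=
  ⟨(c (b (c (a (c (b (l 15371560) (l 15533888)) (a (c (l 15404896) (l 15419256)) (c (l 15510928) (l 15499296)))) (c (b (a (c (l 15533128) (l 15524416)) (c (l 15641944) (l 15643960))) (a (l 15670528) (l 15741744))) (a (c (l 15502624) (l 15590808)) (l 15696848)))) (c (a (c (a (l 15413704) (l 15497480)) (l 15191888)) (l 15518072)) (a (l 15448888) (l 15591848)))) (b (c (c (a (l 15441584) (a (l 15749544) (l 15829864))) (a (a (l 15588368) (l 15664904)) (l 15787592))) (c (a (c (l 15620928) (l 15629976)) (l 15780656)) (l 15697968))) (c (c (a (b (b (l 15657440) (l 15652920)) (l 15635064)) (b (b (l 15797032) (l 15789712)) (l 15768768))) (a (b (b (a (l 15618296) (l 15692592)) (l 15646680)) (l 15628496)) (l 15786424))) (a (b (c (b (l 15631816) (l 15651088)) (l 15652824)) (l 15635360)) (l 15774912))))) (b (a (c (l 15430576) (l 15407960)) (b (c (l 15551032) (l 15530752)) (l 15666304))) (b (c (l 15684072) (l 15667568)) (c (l 15693520) (l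 15677432))))), by decide +kernel⟩

def k19_pm_022 : ∃ t, chk3 f_pm_022 t 17 20 1 = true :=
  ⟨(b (a (c (a (c (b (l 15891384) (l 15818584)) (b (l 15877528) (l 15888976))) (c (a (l 16139112) (l 16322496)) (a (l 16129632) (l 16317120)))) (a (b (l 15774208) (c (l 15875304) (l 15860904))) (c (l 16132520) (l 16125152)))) (c (c (a (l 16469896) (l 16143600)) (a (l 16509696) (l 16156168))) (a (l 16297944) (l 16038224)))) (c (a (b (c (a (l 15936776) (l 16052896)) (a (l 15924168) (l 16085952))) (c (l 15936352) (l 15967952))) (b (a (c (l 16272480) (l 16373864)) (c (l 16319400) (l 16356824))) (a (c (b (l 16132632) (l 16153536)) (l 16070608)) (c (l 16212792) (l 16356640))))) (a (b (a (l 15906640) (c (l 16097136) (l 16066728))) (c (l 15956912) (l 15943696))) (b (a (c (l 16348080) (l 16281096)) (l 16181896)) (a (b (l 16051640) (l 16131576)) (b (l 16432048) (l 16376120))))))), by decide +kernel⟩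

def k20_pm_022 : ∃ t, chk3 f_pm_022 t 8 21 1 = true :=
  ⟨(a (c (b (c (a (a (b (l 15215824) (l 15112600)) (b (a (l 15194344) (c (l 15463400) (l 15481640))) (c (l 15304808) (a (l 15244472) (l 15372240))))) (a (c (b (l 15597112) (a (l 15483400) (l 15573464))) (a (b (l 15560536) (l 15486264)) (l 15612384))) (c (l 15633424) (l 15698272)))) (a (a (c (b (l 15240096) (l 15098656)) (a (l 15115312) (b (l 15070464) (l 15123584)))) (c (b (a (b (l 15416408) (l 15363840)) (l 15482496)) (a (l 15243456) (l 15376328))) (a (b (c (l 15383672) (l 15395904)) (l 15246784)) (l 15441064)))) (a (b (l 15600088) (l 15530232)) (l 15685728)))) (a (c (a (c (l 14898976) (l 14883760)) (c (a (l 15012560) (l 15119744)) (b (l 15128448) (l 14983136)))) (a (c (a (l 14832584) (l 14909280)) (c (l 14731400) (a (l 14809272) (l 14888816)))) (c (a (l 14809680) (l 15135064)) (l 15071504)))) (a (c (c (b (l 15305840) (l 15215672)) (b (l 15395728) (l 15226560))) (l 15308496)) (b (c (l 15585640) (l 15568512)) (l 15426640)))))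 (a (a (c (b (c (c (a (l 15100432) (l 15088456)) (a (l 15086920) (l 15200624))) (a (c (l 15081024) (l 15080512)) (l 15204280))) (c (c (a (l 14797568) (l 14889472)) (l 14842496)) (l 14838536))) (b (a (l 15074072) (l 15199056)) (l 14825528))) (b (c (b (l 15439568) (l 15318888)) (b (l 15422712) (l 15299824))) (c (l 15069400) (l 15045592)))) (b (a (c (l 15334600) (l 15524712)) (l 15660720)) (b (a (l 15364880) (l 15540512)) (l 15181216))))) (b (c (a (c (l 15862096) (l 15849864)) (a (l 15958488) (c (l 15947552) (l 16064648)))) (a (l 15706216) (b (a (l 16049640) (l 16098968)) (l 16000320)))) (b (c (a (l 15732456) (l 15916200)) (l 15604032)) (c (a (a (l 15503760) (l 15686616)) (l 15807528)) (a (l 15559632) (l 15777536)))))), by decide +kernel⟩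

def k21_pm_022 : ∃ t, chk3 f_pm_022 t 9 10 1 = true :=
  ⟨(b (a (b (a (c (a (b (c (l 15751136) (l 15731680)) (l 15764216)) (b (l 15345200) (c (l 15315528) (l 15287568)))) (a (b (l 15706288) (l 15732216)) (b (l 15287568) (l 15249496)))) (c (c (b (l 14827792) (l 14747048)) (l 14712088)) (l 14624056))) (a (a (b (c (l 15786968) (l 15867008)) (a (c (l 16157592) (l 16211712)) (c (l 15996704) (l 16041144)))) (b (c (l 15475928) (l 15431904)) (c (l 15571288) (l 15686184)))) (b (c (a (c (l 14996792) (l 15005448)) (l 14633024)) (a (l 14959248) (l 14548328))) (c (a (l 15148840) (b (b (l 14776984) (l 14847112)) (l 14970792))) (a (l 15287904) (l 14663176)))))) (b (a (c (a (c (l 14248856) (l 14162520)) (c (b (l 14039056) (l 13981416)) (l 13773728))) (a (l 14070336) (c (l 13835520) (l 13772024)))) (c (b (l 13787952) (l 13769608)) (l 13619896))) (a (b (c (a (l 14257008) (a (l 14086304) (l 14032384))) (a (l 14168776) (l 13932360))) (c (a (c (l 14361200) (l 14497880)) (c (l 14223912) (l 14302024)))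 (a (l 14436392) (l 14233128)))) (c (l 14071736) (l 13922960))))) (a (a (b (c (a (b (l 16340696) (l 16117144)) (b (l 16017920) (l 16353616))) (a (b (l 16337256) (l 16135216)) (b (l 16040880) (l 16368704)))) (a (c (l 16077376) (l 16056080)) (b (b (l 16217264) (l 16300152)) (l 16211304)))) (b (c (b (l 15263000) (l 15588200)) (b (l 15406736) (l 15640616))) (b (a (c (l 16323528) (l 16334944)) (l 15791392)) (a (c (l 16538888) (l 16513528)) (c (l 16272904) (l 16281664)))))) (a (b (a (b (c (a (l 14907848) (l 14717488)) (l 14745920)) (c (l 15183176) (l 15126640))) (b (l 14571248) (l 14890320))) (a (c (b (l 15581920) (l 15975536)) (b (l 15539880) (l 15947872))) (l 15479360))) (b (l 14577112) (b (l 15015880) (l 15359560)))))), by decide +kernel⟩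

def k22_pm_022 : ∃ t, chk3 f_pm_022 t 4 22 1 = true :=
  ⟨(a (a (c (a (b (c (a (c (l 14601024) (b (l 14662200) (l 14509704))) (c (a (l 14698120) (l 14784272)) (b (l 14817408) (l 14652640)))) (a (c (b (l 14642184) (l 14486328)) (a (l 14488976) (l 14581552))) (c (b (l 14819864) (l 14656336)) (l 14738128)))) (c (a (b (l 14302520) (l 14209200)) (b (c (l 14495120) (l 14488304)) (l 14243248))) (a (c (b (l 14330576) (l 14174616)) (l 14234672)) (l 14401000)))) (b (c (c (a (l 14829168) (l 15165992)) (l 15057744)) (l 15043296)) (c (l 14606928) (l 14669896)))) (a (c (b (a (l 14532336) (l 14731144)) (a (l 14214120) (l 14387304))) (b (a (l 14508008) (l 14700744)) (l 14058280))) (b (c (l 15015200) (l 14986608)) (l 14616656)))) (b (a (c (b (a (l 15428096) (l 15573432)) (l 15314336)) (b (l 15310000) (l 15269776))) (c (b (l 15696560) (l 15403176)) (l 15447904))) (a (c (l 14793528) (l 14946280)) (c (b (a (l 15351232) (l 15474800)) (l 15202808)) (l 15039416))))) (a (a (b (c (l 15855672) (l 15912896))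 (c (b (l 15735928) (l 15585768)) (l 15474336))) (b (b (a (l 16354816) (c (l 16606832) (l 16563376))) (c (l 16324152) (l 16311392))) (c (l 15962112) (l 15982488)))) (b (a (b (l 15987568) (l 16298416)) (l 15900136)) (a (l 16210952) (b (l 16527104) (l 16508216)))))), by decide +kernel⟩

def k23_pm_022 : ∃ t, chk3 f_pm_022 t 4 23 1 = true :=
  ⟨(a (a (c (a (b (b (b (b (a (c (b (l 14121048) (l 14104936)) (l 14067624)) (b (l 14228344) (l 14212160))) (a (l 14053336) (l 14201208))) (a (c (a (l 14071232) (l 14098096)) (l 14040888)) (l 14180440))) (a (l 14056400) (a (l 14108552) (l 14178584)))) (a (l 14056056) (l 14131112))) (b (c (b (l 14459240) (l 14402928)) (l 14404648)) (a (b (l 14265696) (l 14248272)) (l 14390352)))) (a (b (a (b (c (b (l 14025648) (l 14005592)) (l 13941064)) (l 13981568)) (b (l 14143424) (l 14094728))) (a (l 13981208) (l 14076048))) (b (l 14343272) (l 14253320)))) (c (b (a (b (l 14743728) (l 14686016)) (l 15005248)) (l 14747744)) (b (l 14666720) (l 14677776)))) (a (a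 (b (b (a (l 15313728) (l 15586880)) (l 15412296)) (l 15329008)) (b (b (l 15871920) (l 15950704)) (l 15828440))) (a (a (l 16247248) (l 16374384)) (l 16411176)))), by decide +kernel⟩

def k24_pm_022 : ∃ t, chk3 f_pm_022 t 5 5 1 = true :=
  ⟨(b (a (b (b (a (a (c (b (l 13484952) (l 13510360)) (b (l 13349224) (l 13361768))) (l 988405084647)) (l 1)) (a (a (c (b (l 13707184) (l 14017408)) (l 13706592)) (c (l 13496680) (b (l 13267744) (l 13619400)))) (l 1154835013143))) (a (a (b (l 14405904) (l 14939608)) (b (a (l 14228408) (l 13924640)) (l 14769064))) (b (a (c (l 14010288) (l 617428812983)) (l 13684152)) (a (c (l 14641368) (l 14520256)) (c (l 14429904) (l 14110032)))))) (b (l 1) (a (l 1065178596439) (l 1)))) (a (b (a (b (a (b (l 15363856) (l 15697760)) (l 15283384)) (a (l 16118600) (b (l 15692928) (l 15995952)))) (b (a (l 15164720) (l 14738648)) (l 15402416))) (a (a (b (l 16560208) (l 16504624)) (b (l 16394976) (l 16688608))) (b (a (l 15836992) (l 15845896)) (a (l 16332304) (l 15973992)))))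 (b (a (b (a (l 525625645207) (l 14507600)) (a (l 15182744) (l 14899752))) (l 834862675623)) (a (b (a (l 15735392) (l 15450896)) (l 15725112)) (b (a (l 15190568) (l 15148280)) (a (l 15524288) (l 15359448))))))), by decide +kernel⟩

def k25_pm_022 : ∃ t, chk3 f_pm_022 t 3 5 1 = true :=
  ⟨(b (l 1) (b (l 1) (a (a (l 457442842215) (l 1)) (l 1)))), by decide +kernel⟩

def k26_pm_022 : ∃ t, chk3 f_pm_022 t 2 3 1 = true :=
  ⟨(a (b (a (c (a (b (a (b (l 14097408) (l 14097408)) (b (l 14297128) (l 14297024))) (b (l 14068416) (l 14194240))) (b (b (a (b (l 14523144) (l 14494160)) (b (l 14790368) (l 14712072))) (l 14586768)) (l 14586696))) (a (b (a (c (l 14046752) (l 14010576)) (l 14221616)) (c (l 13977264) (l 14106384))) (b (b (a (l 14436016) (l 14682784)) (l 14509904)) (l 14509832)))) (b (a (b (a (l 15170296) (l 15792280)) (a (l 15034552) (l 15611112))) (b (a (l 16333512) (l 16527240)) (l 16282032))) (a (l 15286488) (b (a (l 16027280) (l 16249176)) (l 16101368))))) (a (a (b (c (l 14194240)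 (l 14106896)) (l 14100664)) (l 14549544)) (a (l 15286440) (l 16101312)))) (b (a (b (a (b (a (l 16626344) (l 16678120)) (a (l 16615752) (l 16499600))) (b (a (l 16636904) (b (l 16281504) (l 16584416))) (l 16511456))) (a (b (l 16571472) (l 16449496)) (b (l 16463848) (l 16628128)))) (b (a (b (a (b (l 15942976) (l 16231808)) (b (l 15739840) (l 15892200))) (a (l 16543384) (b (l 16183368) (l 16491008)))) (b (b (l 15525176) (l 15667320)) (b (l 15654768) (l 15794456)))) (a (b (l 16425904) (l 16387408)) (b (a (l 16473216) (l 16202496)) (l 16382080))))) (a (a (l 16410440) (b (l 16611616) (l 16589864))) (b (a (l 16519944) (l 16202160)) (a (l 16712608) (l 16737104)))))), by decide +kernel⟩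

def k27_pm_022 : ∃ t, chk3 f_pm_022 t 3 3 1 = true :=
  ⟨(b (a (b (a (b (a (b (l 15244368) (l 15342336)) (l 14909712)) (a (b (l 15567032) (l 15667240)) (b (l 15244368) (l 15426224)))) (l 516498145063)) (a (b (a (b (l 15780520) (l 15899240)) (b (l 15567032) (l 15667240))) (a (b (l 16244440) (l 16473080)) (b (l 15801488) (l 15962152)))) (b (a (b (l 15244368) (l 15426224)) (l 14909712)) (a (l 15506976) (l 15259896))))) (b (l 1) (a (l 553005367079) (l 1)))) (a (b (a (b (a (l 16361048) (b (l 16244440) (l 16473080))) (a (l 16348592) (l 16382016))) (b (a (b (l 15801488) (l 16004096)) (l 15590864)) (a (l 16233208) (b (l 15801488) (l 16025064))))) (a (b (l 16453768) (l 16614680)) (b (a (l 16382016) (l 16233208)) (l 16388720)))) (b (a (b (a (l 15322808) (l 14909712)) (a (l 15590864) (l 15322808))) (l 14289680)) (a (b (a (l 15731192) (l 15590864)) (a (l 16233208) (l 15773128))) (b (l 634611009847) (a (l 15590864) (l 15322808))))))), by decide +kernel⟩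

theorem s28_pm_022 : ∃ t, chk3 f_pm_022 t 1 3 1 = true := ex3_a k26_pm_022 k27_pm_022

theorem s29_pm_022 : ∃ t, chk3 f_pm_022 t 4 11 1 = true := ex3_b k22_pm_022 k23_pm_022

theorem s30_pm_022 : ∃ t, chk3 f_pm_022 t 16 20 1 = true := ex3_a k17_pm_022 k18_pm_022

theorem s31_pm_022 : ∃ t, chk3 f_pm_022 t 8 20 1 = true := ex3_a s30_pm_022 k19_pm_022

theorem s32_pm_022 : ∃ t, chk3 f_pm_022 t 8 10 1 = true := ex3_b s31_pm_022 k20_pm_022

theorem s33_pm_022 : ∃ t, chk3 f_pm_022 t 4 10 1 = true := ex3_a s32_pm_022 k21_pm_022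

theorem s34_pm_022 : ∃ t, chk3 f_pm_022 t 4 5 1 = true := ex3_b s33_pm_022 s29_pm_022

theorem s35_pm_022 : ∃ t, chk3 f_pm_022 t 2 5 1 = true := ex3_a s34_pm_022 k24_pm_022

theorem s36_pm_022 : ∃ t, chk3 f_pm_022 t 1 5 1 = true := ex3_a s35_pm_022 k25_pm_022

theorem s37_pm_022 : ∃ t, chk3 f_pm_022 t 9 9 1 = true := ex3_b k13_pm_022 k14_pm_022

theorem s38_pm_022 : ∃ t, chk3 f_pm_022 t 8 39 1 = true := ex3_a k11_pm_022 k12_pm_022

theorem s39_pm_022 : ∃ t, chk3 f_pm_022 t 32 38 1 = true := ex3_c k7_pm_022 k8_pm_022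

theorem s40_pm_022 : ∃ t, chk3 f_pm_022 t 16 38 1 = true := ex3_a s39_pm_022 k9_pm_022

theorem s41_pm_022 : ∃ t, chk3 f_pm_022 t 8 38 1 = true := ex3_a s40_pm_022 k10_pm_022

theorem s42_pm_022 : ∃ t, chk3 f_pm_022 t 8 19 1 = true := ex3_b s41_pm_022 s38_pm_022

theorem s43_pm_022 : ∃ t, chk3 f_pm_022 t 32 36 3 = true := ex3_a k2_pm_022 k3_pm_022

theorem s44_pm_022 : ∃ t, chk3 f_pm_022 t 32 36 1 = true := ex3_c k1_pm_022 s43_pm_022

theorem s45_pm_022 : ∃ t, chk3 f_pm_022 t 32 18 1 = true := ex3_b s44_pm_022 k4_pm_022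

theorem s46_pm_022 : ∃ t, chk3 f_pm_022 t 16 18 1 = true := ex3_a s45_pm_022 k5_pm_022

theorem s47_pm_022 : ∃ t, chk3 f_pm_022 t 8 18 1 = true := ex3_a s46_pm_022 k6_pm_022

theorem s48_pm_022 : ∃ t, chk3 f_pm_022 t 8 9 1 = true := ex3_b s47_pm_022 s42_pm_022

theorem s49_pm_022 : ∃ t, chk3 f_pm_022 t 4 9 1 = true := ex3_a s48_pm_022 s37_pm_022

theorem s50_pm_022 : ∃ t, chk3 f_pm_022 t 4 4 1 = true := ex3_b k0_pm_022 s49_pm_022

theorem s51_pm_022 : ∃ t, chk3 f_pm_022 t 2 4 1 = true := ex3_a s50_pm_022 k15_pm_022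

theorem s52_pm_022 : ∃ t, chk3 f_pm_022 t 1 4 1 = true := ex3_a s51_pm_022 k16_pm_022

theorem s53_pm_022 : ∃ t, chk3 f_pm_022 t 1 2 1 = true := ex3_b s52_pm_022 s36_pm_022

theorem s54_pm_022 : ∃ t, chk3 f_pm_022 t 1 1 1 = true := ex3_b s53_pm_022 s28_pm_022

theorem c_pm_022 : CertNX 0 536870912 1073741824 536870912 1046898278 26843546 3 true true false .pp 0 2 2
    ndN3q0 ndN3q2 pcN2 cut_pm_022 Ext.none :=
  certNX1 (fam := true) (s1 := true) (s2 := false) (a := 0) (b := 2) (c := 2) (cn := .pp) (n1 := ndN3q0) (n2 := ndN3q2) (pc := pcN2) (cut := cut_pm_022) (xt := Ext.none) (P1 := 0) (W1 := 536870912) (P2 := 1073741824) (W2 := 536870912) (P3 := 1046898278) (W3 := 26843546) (N0 := 3)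
    rfl (fun _ => rfl) s54_pm_022

noncomputable def f_pm_023 : ℕ → ℕ → ℕ → ℕ → Bool := onCell 0 536870912 1610612736 536870912 1046898278 26843546
    (rowNX 3 1 true true false .up 0 2 3 (qsf 0 536870912 1073741824 536870912 3) ndN3q0 ndN3q2 pcN3 Cut.none Ext.none)

def k0_pm_023 : ∃ t, chk3 f_pm_023 t 1 1 1 = true :=
  ⟨(a (b (a (b (a (a (a (l 14066616) (l 14250104)) (l 14549544)) (a (l 15286440) (l 16101312))) (a (l 2) (b (a (l 2) (l 16101312)) (l 2)))) (b (a (l 16500672) (l 16745168)) (b (a (l 16500672) (l 16745168)) (a (l 16500672) (l 16745168))))) (b (a (l 2) (a (l 2) (c (l 16577920) (l 315243445895)))) (l 2))) (b (b (a (b (a (l 16747920) (b (l 16453768) (l 16614680))) (a (l 16777216) (l 16747920))) (b (a (b (a (l 16382016) (l 16233208)) (l 16388720)) (b (a (l 15815072) (l 15590864)) (a (l 16233208) (l 15836048)))) (a (b (l 16453768) (l 16614680)) (b (a (l 16382016) (l 16233208)) (l 16388720))))) (a (b (l 16777216) (l 16777216)) (b (a (l 16747920) (b (l 16453768) (l 16614680)))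 (b (l 16754440) (l 16777184))))) (l 4))), by decide +kernel⟩

theorem c_pm_023 : CertNX 0 536870912 1073741824 536870912 1046898278 26843546 3 true true false .up 0 2 3
    ndN3q0 ndN3q2 pcN3 Cut.none Ext.none :=
  certNX1 (fam := true) (s1 := true) (s2 := false) (a := 0) (b := 2) (c := 3) (cn := .up) (n1 := ndN3q0) (n2 := ndN3q2) (pc := pcN3) (cut := Cut.none) (xt := Ext.none) (P1 := 0) (W1 := 536870912) (P2 := 1073741824) (W2 := 536870912) (P3 := 1046898278) (W3 := 26843546) (N0 := 3)
    rfl (fun _ => rfl) k0_pm_023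

noncomputable def f_pm_033 : ℕ → ℕ → ℕ → ℕ → Bool := onCell 0 536870912 1610612736 536870912 1046898278 26843546
    (rowNX 3 1 true true false .pnn 0 3 3 (qsf 0 536870912 1610612736 536870912 3) ndN3q0 ndN3q3 pcN3 Cut.none Ext.none)

def k0_pm_033 : ∃ t, chk3 f_pm_033 t 1 1 1 = true :=
  ⟨(a (b (a (b (a (a (a (l 14045648) (l 14250104)) (l 14549544)) (a (l 15286440) (l 16101312))) (a (b (a (c (l 14194240) (l 14127872)) (l 14549544)) (a (c (l 14194240) (l 14127872)) (l 14549544))) (b (a (l 15286440) (l 16101312)) (a (l 15286440) (l 16101312))))) (b (a (l 16500672) (l 1)) (b (a (l 16500672) (l 16745168)) (a (l 16500672) (l 16745168))))) (b (b (a (a (c (a (l 14194232) (l 14586696)) (b (l 14256928) (l 14110120))) (b (a (l 15286440) (l 16101312)) (l 4))) (b (a (l 16500672) (l 16745168)) (l 4))) (l 4)) (l 4))) (b (b (l 1) (b (l 1) (l 16777216))) (l 4))), by decide +kernel⟩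

theorem c_pm_033 : CertNX 0 536870912 1610612736 536870912 1046898278 26843546 3 true true false .pnn 0 3 3
    ndN3q0 ndN3q3 pcN3 Cut.none Ext.none :=
  certNX1 (fam := true) (s1 := true) (s2 := false) (a := 0) (b := 3) (c := 3) (cn := .pnn) (n1 := ndN3q0) (n2 := ndN3q3) (pc := pcN3) (cut := Cut.none) (xt := Ext.none) (P1 := 0) (W1 := 536870912) (P2 := 1610612736) (W2 := 536870912) (P3 := 1046898278) (W3 := 26843546) (N0 := 3)
    rfl (fun _ => rfl) k0_pm_033

noncomputable def cut_pm_101 : Cut := Cut.of [[⟨0, 1, 0, 67108864⟩, ⟨1, 0, 0, 67108864⟩, ⟨2, 1, 0, 67108864⟩]]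

noncomputable def f_pm_101 : ℕ → ℕ → ℕ → ℕ → Bool := onCell 536870912 536870912 0 536870912 1046898278 26843546
    (rowNX 3 2 true true false .npn 1 0 1 (qsf 536870912 536870912 0 536870912 1) ndN3q1 ndN3q0 pcN1 cut_pm_101 Ext.none)

def k0_pm_101 : ∃ t, chk3 f_pm_101 t 1 1 1 = true :=
  ⟨(a (l 3) (a (l 3) (b (b (a (l 3) (a (l 3) (b (b (a (l 3) (l 6)) (l 3)) (l 3)))) (l 3)) (l 3)))), by decide +kernel⟩

theorem c_pm_101 : CertNX 536870912 536870912 0 536870912 1046898278 26843546 3 true true false .npn 1 0 1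
    ndN3q1 ndN3q0 pcN1 cut_pm_101 Ext.none :=
  certNX2 (fam := true) (s1 := true) (s2 := false) (a := 1) (b := 0) (c := 1) (cn := .npn) (n1 := ndN3q1) (n2 := ndN3q0) (pc := pcN1) (cut := cut_pm_101) (xt := Ext.none) (P1 := 536870912) (W1 := 536870912) (P2 := 0) (W2 := 536870912) (P3 := 1046898278) (W3 := 26843546) (N0 := 3)
    rfl (fun _ => rfl) k0_pm_101

noncomputable def cut_pm_102 : Cut := Cut.of [[⟨0, 1, 0, 67108864⟩, ⟨1, 0, 0, 67108864⟩, ⟨2, 1, 0, 67108864⟩]]

noncomputable def f_pm_102 : ℕ → ℕ → ℕ → ℕ → Bool := onCell 536870912 536870912 1073741824 536870912 1046898278 26843546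
    (rowNX 3 1 true true false .npp 1 0 2 (qsf 536870912 536870912 0 536870912 2) ndN3q1 ndN3q0 pcN2 cut_pm_102 Ext.none)

def k0_pm_102 : ∃ t, chk3 f_pm_102 t 2 1 1 = true :=
  ⟨(b (b (l 3) (b (b (b (l 3) (a (l 2) (b (l 1435760587575) (b (l 16777088) (c (b (l 16771616) (l 16765712)) (b (l 16771424) (l 16765304))))))) (a (l 2) (l 16771040))) (a (l 2) (l 16776984)))) (l 16777216)), by decide +kernel⟩

def k1_pm_102 : ∃ t, chk3 f_pm_102 t 6 1 1 = true :=
  ⟨(b (b (b (l 3) (b (l 3) (a (l 3) (b (l 3) (a (l 3) (c (l 15691880) (l 15653768))))))) (b (b (b (a (c (l 16685288) (l 16682056)) (a (b (l 16212400) (l 16213024)) (b (l 15674104) (l 15631864)))) (b (b (a (l 16683992) (a (l 16212928) (l 15667144))) (a (l 16621184) (a (l 16208672) (a (l 15862248) (l 15434424))))) (b (a (a (l 16776880) (l 16393176)) (a (b (l 16202152) (l 16185040)) (l 15612464))) (a (b (c (l 16651360) (l 16500792)) (a (c (l 16740728) (l 16739464)) (l 16546200))) (a (l 16151552) (b (l 15581944) (l 15565256))))))) (a (l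 16663456) (a (l 16163208) (l 15598912)))) (a (l 16682864) (a (l 16208248) (l 15665952))))) (a (l 16684248) (a (l 16213288) (b (l 15674520) (l 15674520))))), by decide +kernel⟩

def k2_pm_102 : ∃ t, chk3 f_pm_102 t 14 1 1 = true :=
  ⟨(b (b (b (l 3) (b (b (l 3) (l 3)) (b (a (l 3) (b (a (l 3) (l 14331016)) (l 14372544))) (a (c (l 14839248) (l 14792936)) (c (l 14362992) (l 14278248)))))) (b (b (b (a (b (l 14814096) (c (l 14836464) (l 14768256))) (c (b (l 14310680) (l 14249680)) (b (l 14223968) (l 14160560)))) (b (a (b (l 14775992) (l 14741368)) (l 14125080)) (a (b (l 14702656) (b (l 14676360) (l 14662992))) (b (l 14061728) (b (l 14038552) (l 14028800)))))) (a (l 14710904) (l 14092944))) (a (l 14804168) (l 14216872)))) (b (a (l 14817032) (l 14234872)) (l 14592016))), by decide +kernel⟩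

def k3_pm_102 : ∃ t, chk3 f_pm_102 t 30 1 1 = true :=
  ⟨(b (b (b (l 3) (b (b (a (l 3) (b (l 3) (c (l 14395328) (l 14396504)))) (c (c (a (l 14365216) (l 14105776)) (a (l 14374712) (l 14150888))) (b (l 14304664) (l 14125816)))) (b (c (b (a (l 14154400) (l 13884832)) (a (l 14103504) (l 13793304))) (b (a (l 14083064) (l 13867144)) (l 13904144))) (c (b (a (l 14068776) (l 13727848)) (a (l 14024360) (l 13655976))) (b (l 13851168) (l 13792200)))))) (b (b (b (c (l 13717232) (l 13671408)) (b (l 13376696) (b (l 13469216) (b (l 13445528) (c (l 13476872) (l 13421432)))))) (a (l 13673328) (l 13300336))) (c (l 13645560) (l 13597000)))) (b (l 13634512) (l 13634512))), by decide +kernel⟩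

def k4_pm_102 : ∃ t, chk3 f_pm_102 t 62 1 1 = true :=
  ⟨(b (b (b (b (l 3) (a (l 3) (b (l 3) (b (l 3) (c (c (l 14870976) (l 14940232)) (l 15025200)))))) (b (b (c (b (a (l 14487888) (l 14549992)) (a (l 14193496) (l 14191584))) (b (a (l 14560872) (l 14653536)) (a (l 14255760) (l 14282080)))) (c (a (l 13888712) (b (c (l 13865904) (l 13916920)) (l 13689160))) (b (l 14012936) (l 13813816)))) (b (c (b (b (a (l 13705208) (l 13559128)) (l 13555472)) (l 13482088)) (b (b (l 13682280) (l 13599208)) (l 13523128))) (c (l 13331704) (l 13367120))))) (b (b (b (c (l 13125528) (l 13153024)) (b (c (l 12976120) (l 12997720)) (b (l 12731848) (b (c (l 12887880) (l 12905928)) (c (a (l 12988560) (l 12794296)) (l 12917920)))))) (c (l 12921192) (l 12940544))) (c (l 13016848) (l 13040160)))) (b (l 13016312) (l 13016312))), by decide +kernel⟩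

def k5_pm_102 : ∃ t, chk3 f_pm_102 t 63 1 1 = true :=
  ⟨(b (b (b (b (l 6) (a (a (b (l 3) (c (b (c (l 15307432) (l 15359440)) (l 14959008)) (b (c (l 15443104) (l 15499088)) (l 15075888)))) (b (l 6) (c (b (b (l 15448112) (l 15306680)) (l 15061472)) (b (c (l 15438688) (l 15508496)) (l 15015312))))) (b (l 6) (b (a (c (l 15368208) (c (l 15436496) (l 15485584))) (l 6)) (c (b (l 15301736) (l 15167864)) (c (a (l 15172416) (l 15255472)) (a (l 15217000) (c (l 15249288) (l 15200016))))))))) (b (a (b (c (b (l 14439520) (c (l 14286216) (l 14301352))) (b (c (l 14732968) (l 14778776)) (c (l 14352272) (l 14391272)))) (c (b (c (l 13915616) (l 13923976)) (l 13619568)) (b (c (l 13968040) (l 14000088)) (l 13649360)))) (b (c (b (l 14898728) (l 14512712)) (b (c (l 14877200) (a (l 14853248) (l 14927952))) (c (l 14479784) (a (l 14449056) (l 14522384))))) (c (l 13938936) (c (l 13890320) (a (l 13854320) (l 13914672)))))) (b (c (b (a (l 13407160) (l 13435200)) (l 13288136)) (a (b (l 13429072) (l 13299192))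 (b (c (l 13372592) (l 13365680)) (l 13205744)))) (c (l 13118800) (a (l 13127768) (l 13025968)))))) (b (b (b (c (l 12866872) (a (l 12870520) (l 12757752))) (b (c (l 12678560) (a (l 12686088) (l 12548184))) (b (c (l 12599872) (a (l 12611616) (l 12462912))) (b (c (l 12614968) (a (l 12611224) (l 12485832))) (a (a (c (l 12674688) (l 12685000)) (l 12624776)) (l 12600400)))))) (c (l 12661400) (a (l 12658824) (l 12537744)))) (b (c (l 12689912) (a (l 12699288) (l 12558632))) (c (l 12718232) (l 12676544))))) (b (c (l 12718256) (l 12676576)) (l 12707432))), by decide +kernel⟩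

theorem s6_pm_102 : ∃ t, chk3 f_pm_102 t 31 1 1 = true := ex3_a k4_pm_102 k5_pm_102

theorem s7_pm_102 : ∃ t, chk3 f_pm_102 t 15 1 1 = true := ex3_a k3_pm_102 s6_pm_102

theorem s8_pm_102 : ∃ t, chk3 f_pm_102 t 7 1 1 = true := ex3_a k2_pm_102 s7_pm_102

theorem s9_pm_102 : ∃ t, chk3 f_pm_102 t 3 1 1 = true := ex3_a k1_pm_102 s8_pm_102

theorem s10_pm_102 : ∃ t, chk3 f_pm_102 t 1 1 1 = true := ex3_a k0_pm_102 s9_pm_102

theorem c_pm_102 : CertNX 536870912 536870912 0 536870912 1046898278 26843546 3 true true false .npp 1 0 2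
    ndN3q1 ndN3q0 pcN2 cut_pm_102 Ext.none :=
  certNX1 (fam := true) (s1 := true) (s2 := false) (a := 1) (b := 0) (c := 2) (cn := .npp) (n1 := ndN3q1) (n2 := ndN3q0) (pc := pcN2) (cut := cut_pm_102) (xt := Ext.none) (P1 := 536870912) (W1 := 536870912) (P2 := 0) (W2 := 536870912) (P3 := 1046898278) (W3 := 26843546) (N0 := 3)
    rfl (fun _ => rfl) s10_pm_102

noncomputable def f_pm_112 : ℕ → ℕ → ℕ → ℕ → Bool := onCell 536870912 536870912 1073741824 536870912 1046898278 26843546
    (rowNX 3 1 true true false .dn 1 1 2 (qsf 536870912 536870912 536870912 536870912 2) ndN3q1 ndN3q1 pcN2 Cut.none Ext.none)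

def k0_pm_112 : ∃ t, chk3 f_pm_112 t 1 1 1 = true :=
  ⟨(a (b (b (l 3) (a (b (b (b (l 3) (b (l 3) (b (l 3) (b (a (l 16777192) (l 16777216)) (c (l 16777216) (l 16777216)))))) (l 16777216)) (l 16777216)) (b (b (b (l 3) (b (l 1865257317175) (b (l 16777088) (a (b (l 16777192) (a (l 16777216) (l 561063657463))) (l 1))))) (l 16771040)) (l 16776984)))) (b (a (a (b (l 16732776) (a (l 16170160) (l 16533608))) (l 16748968)) (l 16777216)) (a (a (b (a (b (l 15271136) (l 14592016)) (b (l 15948944) (l 15271136))) (a (b (l 13929136) (a (l 13082752) (l 13434760))) (l 14252648))) (b (l 16293312) (a (b (l 15271136) (l 14592016)) (l 15596128)))) (a (b (l 16732776) (l 16293312)) (l 16748968))))) (b (b (l 1) (b (l 1) (a (a (l 16682864) (l 1)) (l 1)))) (a (a (l 16684248) (a (l 16213288) (l 597031299863))) (a (b (l 575017427463) (l 14592016)) (b (l 1) (a (l 13634512) (l 593267640663))))))), by decide +kernel⟩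

theorem c_pm_112 : CertNX 536870912 536870912 536870912 536870912 1046898278 26843546 3 true true false .dn 1 1 2
    ndN3q1 ndN3q1 pcN2 Cut.none Ext.none :=
  certNX1 (fam := true) (s1 := true) (s2 := false) (a := 1) (b := 1) (c := 2) (cn := .dn) (n1 := ndN3q1) (n2 := ndN3q1) (pc := pcN2) (cut := Cut.none) (xt := Ext.none) (P1 := 536870912) (W1 := 536870912) (P2 := 536870912) (W2 := 536870912) (P3 := 1046898278) (W3 := 26843546) (N0 := 3)
    rfl (fun _ => rfl) k0_pm_112

noncomputable def f_pm_113 : ℕ → ℕ → ℕ → ℕ → Bool := onCell 536870912 536870912 536870912 536870912 1046898278 26843546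
    (rowNX 3 0 true true false .nn 1 1 3 (qsf 536870912 536870912 536870912 536870912 3) ndN3q1 ndN3q1 pcN3 Cut.none Ext.none)

def k0_pm_113 : ∃ t, chk3 f_pm_113 t 1 1 1 = true :=
  ⟨(a (b (l 16777216) (b (b (l 16684248) (l 562135302359)) (b (l 608303424007) (b (l 13634512) (a (l 12893112) (l 12893112)))))) (b (a (a (l 16684248) (l 562135302359)) (a (l 608303424007) (a (l 13634512) (b (l 12893112) (l 12893112))))) (a (b (b (a (l 16593488) (l 15860992)) (a (l 15860992) (l 15158744))) (b (a (l 14505504) (l 13836568)) (b (l 13196288) (a (l 12808304) (l 12172632))))) (b (a (b (l 14505504) (l 13836568)) (a (l 13196288) (b (l 12808304) (l 12172632)))) (b (a (l 12624496) (a (l 11805960) (l 11181968))) (a (b (l 11805960) (l 11181968)) (a (b (l 11232456) (l 10990304)) (b (l 10990304) (a (l 11489104) (b (l 11958080) (a (l 13836928) (b (l 15121384) (a (l 16818696) (b (l 16792216) (a (l 16795008) (b (l 16792320) (a (l 16785648) (b (l 16784400) (c (l 16781352) (l 16781336)))))))))))))))))))),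 by decide +kernel⟩

theorem c_pm_113 : CertNX 536870912 536870912 536870912 536870912 1046898278 26843546 3 true true false .nn 1 1 3
    ndN3q1 ndN3q1 pcN3 Cut.none Ext.none :=
  certNX0 (fam := true) (s1 := true) (s2 := false) (a := 1) (b := 1) (c := 3) (cn := .nn) (n1 := ndN3q1) (n2 := ndN3q1) (pc := pcN3) (cut := Cut.none) (xt := Ext.none) (P1 := 536870912) (W1 := 536870912) (P2 := 536870912) (W2 := 536870912) (P3 := 1046898278) (W3 := 26843546) (N0 := 3)
    rfl k0_pm_113

noncomputable def f_pm_123 : ℕ → ℕ → ℕ → ℕ → Bool := onCell 1610612736 536870912 1073741824 536870912 1046898278 26843546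
    (rowNX 3 2 true true false .npn 1 2 3 (qsf 536870912 536870912 1073741824 536870912 3) ndN3q1 ndN3q2 pcN3 Cut.none Ext.none)

def k0_pm_123 : ∃ t, chk3 f_pm_123 t 1 1 1 = true :=
  ⟨(a (b (b (a (b (a (l 15590864) (l 15506976)) (b (l 16072016) (l 16477616))) (b (a (c (l 15621992) (l 15571712)) (l 4)) (a (b (l 16155904) (l 16540528)) (l 4)))) (a (b (a (l 1) (l 16348592)) (l 1)) (b (a (l 16348592) (a (l 16348592) (l 4))) (a (l 16715384) (l 23856574183))))) (a (l 1) (a (l 1) (l 16777216)))) (a (b (l 4) (l 4)) (l 4))), by decide +kernel⟩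

theorem c_pm_123 : CertNX 536870912 536870912 1073741824 536870912 1046898278 26843546 3 true true false .npn 1 2 3
    ndN3q1 ndN3q2 pcN3 Cut.none Ext.none :=
  certNX2 (fam := true) (s1 := true) (s2 := false) (a := 1) (b := 2) (c := 3) (cn := .npn) (n1 := ndN3q1) (n2 := ndN3q2) (pc := pcN3) (cut := Cut.none) (xt := Ext.none) (P1 := 536870912) (W1 := 536870912) (P2 := 1073741824) (W2 := 536870912) (P3 := 1046898278) (W3 := 26843546) (N0 := 3)
    rfl (fun _ => rfl) k0_pm_123

noncomputable def f_pm_133 : ℕ → ℕ → ℕ → ℕ → Bool := onCell 536870912 536870912 1610612736 536870912 1046898278 26843546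
    (rowNX 3 0 true true false .dn 1 3 3 (qsf 536870912 536870912 1610612736 536870912 3) ndN3q1 ndN3q3 pcN3 Cut.none Ext.none)

def k0_pm_133 : ∃ t, chk3 f_pm_133 t 1 1 1 = true :=
  ⟨(l 4), by decide +kernel⟩

theorem c_pm_133 : CertNX 536870912 536870912 1610612736 536870912 1046898278 26843546 3 true true false .dn 1 3 3
    ndN3q1 ndN3q3 pcN3 Cut.none Ext.none :=
  certNX0 (fam := true) (s1 := true) (s2 := false) (a := 1) (b := 3) (c := 3) (cn := .dn) (n1 := ndN3q1) (n2 := ndN3q3) (pc := pcN3) (cut := Cut.none) (xt := Ext.none) (P1 := 536870912) (W1 := 536870912) (P2 := 1610612736) (W2 := 536870912) (P3 := 1046898278) (W3 := 26843546) (N0 := 3)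
    rfl k0_pm_133

end Pool.Agent.Strip051.G.IE1.Tab.C.NA33

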