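import Pool.Agent.Strip051.G.IE1.Tab

/-! # Certificates N33 (generated) -/

set_option linter.all false
set_option maxRecDepth 100000

namespace Pool.Agent.Strip051.G.IE1.Tab.C.NA33

open Pool.Agent.Strip051.PB Pool.Agent.Strip051.PB.T
open Pool.Agent.Strip051.G.IE1.Tab

noncomputable def cut_pm_202 : Cut := Cut.of [[⟨0, 1, 0, 67108864⟩, ⟨1, 0, 0, 67108864⟩, ⟨2, 1, 0, 67108864⟩, ⟨3, 0, 0, 1233125376⟩]]

noncomputable def f_pm_202 : ℕ → ℕ → ℕ → ℕ → Bool := onCell 1073741824 536870912 0 536870912 1046898278 26843546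
    (rowNX 3 2 true true false .pp 2 0 2 (qsf 1073741824 536870912 0 536870912 2) ndN3q2 ndN3q0 pcN2 cut_pm_202 Ext.none)

def k0_pm_202 : ∃ t, chk3 f_pm_202 t 8 4 1 = true :=
  ⟨(b (b (a (l 6) (a (l 6) (a (l 6) (a (l 6) (a (l 6) (a (l 6) (a (l 6) (b (c (b (c (l 16047064) (l 16021400)) (c (l 16067040) (l 16083616))) (b (c (b (l 15959720) (c (l 16075072) (l 16086688))) (c (b (c (l 15997584) (b (l 15976176) (l 16020816))) (c (l 16094320) (c (l 16093032) (l 16093408)))) (b (c (b (c (l 15976640) (l 15973648)) (l 16015016)) (b (l 15971152) (l 16021232))) (l 16088896)))) (c (c (b (l 16182336) (l 16280400)) (c (l 16230656) (b (l 16185616) (l 16272608)))) (l 16223392)))) (c (c (b (l 16354944) (c (l 16507152) (l 16534568))) (b (c (l 16406880) (l 16409776)) (c (l 16550768) (l 16571344)))) (b (c (c (l 16380400) (l 16402288)) (l 16398536)) (l 16554064))))))))))) (b (a (l 6) (a (l 6) (a (b (l 6) (c (b (l 6) (c (l 16457168) (l 16438088))) (c (l 16349448) (l 16323400)))) (c (c (b (c (c (l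 16493248) (b (l 16631496) (l 16650368))) (l 16625184)) (c (l 16478872) (l 16499280))) (b (l 16629424) (l 16430056))) (c (b (l 16589800) (l 16457472)) (l 16439728)))))) (a (l 1) (a (b (b (l 6) (l 1)) (l 1)) (c (c (a (c (l 16128688) (l 16072976)) (b (c (l 16354112) (l 16344656)) (l 16060432))) (a (l 16104368) (b (l 16329824) (l 16131848)))) (a (b (c (l 16278776) (a (l 16254968) (l 16271272))) (l 16066448)) (b (c (l 16303568) (l 16274896)) (c (l 16116896) (l 15948256))))))))) (b (a (l 1) (a (l 1) (b (a (l 1) (a (l 1) (c (c (l 667361365879) (l 15601488)) (l 15530096)))) (l 1)))) (l 1))), by decide +kernel⟩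

def k1_pm_202 : ∃ t, chk3 f_pm_202 t 36 32 2 = true :=
  ⟨(b (a (b (a (c (b (l 15909336) (l 15954744)) (b (l 15875696) (l 15964496))) (c (l 15795832) (l 15780384))) (c (a (l 16022208) (b (l 15887640) (l 15935416))) (a (l 16017480) (b (l 15874192) (a (l 15957560) (l 15899248)))))) (c (c (l 15427688) (l 15439344)) (c (l 15388016) (b (l 15517776) (l 15662008))))) (c (b (a (c (l 16029792) (l 16039096)) (a (c (b (l 15860168) (l 15910872)) (l 15736784)) (l 15744872))) (a (l 15998136) (a (l 16000320) (c (l 15787160) (l 15908936))))) (a (c (l 16002944) (l 15929312)) (a (b (c (l 15743224) (l 15841008)) (l 16036696)) (b (l 15607960) (c (l 15926320) (l 15835368))))))), by decide +kernel⟩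

def k2_pm_202 : ∃ t, chk3 f_pm_202 t 36 64 3 = true :=
  ⟨(a (c (b (a (c (b (l 15907744) (l 15955200)) (b (l 15838160) (a (l 15983456) (l 15920208)))) (c (l 15768664) (l 15761656))) (c (a (l 16020152) (b (l 15866752) (l 15935296))) (a (c (l 16027760) (l 16034736)) (b (l 15768816) (c (l 15949080) (l 15915368)))))) (b (a (c (b (a (c (l 15938808) (l 15936088)) (l 15854904)) (c (l 15909568) (a (l 15990192) (c (l 15925976) (l 15926912))))) (b (c (a (c (l 15915568) (b (l 15921464) (b (l 15944040) (l 15962656)))) (c (l 15853472) (l 15848768))) (b (b (c (l 15862544) (l 15866880)) (l 15884840)) (l 15912256))) (c (b (c (l 15819528) (l 15947440)) (l 15976440)) (l 15956688)))) (c (c (l 15759056) (b (l 15716928) (l 15632288))) (c (b (c (l 15716632) (l 15647552)) (c (l 15668704) (l 15803000))) (b (l 15539632) (l 15799376))))) (c (a (c (b (l 16015136) (l 16062784)) (c (l 16036760) (l 16037368))) (c (b (a (l 15926496) (l 15847696)) (c (l 15955592) (l 15954736))) (c (b (l 15843192) (l 15952168))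 (l 15914488)))) (a (l 16032568) (l 15762224))))) (c (c (b (l 15507632) (l 15558792)) (b (l 15309560) (c (l 15668912) (b (l 15624704) (l 15683904))))) (c (b (c (l 15390440) (c (l 15265472) (b (l 15449320) (l 15534792)))) (c (c (l 15551008) (l 15464280)) (c (b (l 15630472) (l 15719352)) (l 15673400)))) (b (c (c (b (a (l 15536000) (l 15357552)) (c (l 15538248) (l 15539040))) (b (b (l 15330496) (l 15467440)) (l 15537280))) (l 15488944)) (l 15666616))))), by decide +kernel⟩

def k3_pm_202 : ∃ t, chk3 f_pm_202 t 36 65 3 = true :=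
  ⟨(c (a (c (b (l 15998680) (c (l 16187944) (l 16181152))) (c (b (l 15983864) (l 16177472)) (b (b (l 16061064) (l 16108136)) (l 16175704)))) (c (b (a (b (l 15883904) (l 15943408)) (l 15735960)) (b (a (l 16023488) (a (l 15883528) (l 15876000))) (c (l 15983376) (l 15999016)))) (b (c (a (b (l 15895080) (l 15960032)) (l 15778040)) (b (a (l 15846392) (l 15728432)) (l 15885360))) (l 15835504)))) (a (l 15933920) (a (b (a (l 15946528) (l 15880512)) (l 16028432)) (b (l 15762456) (l 15919928))))), by decide +kernel⟩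

def k4_pm_202 : ∃ t, chk3 f_pm_202 t 37 32 1 = true :=
  ⟨(c (b (c (b (a (c (l 15220816) (l 15207920)) (c (l 14757712) (l 14888704))) (c (a (l 15367736) (l 15061000)) (a (l 15356168) (l 15046624)))) (c (a (b (l 15194928) (l 15344512)) (b (l 14872792) (l 15032144))) (a (b (l 15181856) (l 15336176)) (b (l 14856768) (l 15020968))))) (c (c (b (a (l 15514544) (l 15217264)) (a (l 15687224) (l 15399272))) (b (a (l 15510760) (l 15210768)) (l 15302840))) (c (a (b (l 15513864) (l 15716344)) (b (l 15211152) (l 15423152))) (b (a (l 15524392) (l 15218944)) (c (l 15515400) (b (l 15532952) (l 15381800))))))) (c (b (c (b (a (l 15168688) (l 14840640)) (c (l 14984416) (l 14985048))) (b (c (l 14908512) (l 14755352)) (c (a (l 15339152) (l 15022792)) (a (b (l 15292144) (l 15393976)) (c (l 15021952) (l 15019608)))))) (c (c (b (l 15171608) (a (l 15646048) (l 15345288))) (a (b (l 15438624) (l 15614256)) (b (l 15045136) (l 15419624)))) (b (c (a (b (l 15493912) (l 15581040)) (b (l 15178136) (l 15273656)))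 (a (c (l 15532528) (l 15532896)) (l 15222872))) (l 15564512)))) (b (b (b (c (c (l 14937448) (c (l 14830304) (a (l 15100456) (l 14760072)))) (c (a (c (c (l 15095840) (l 15093544)) (l 15063960)) (c (b (l 14731280) (l 14780648)) (l 14756200))) (l 14921352))) (c (c (a (l 15194272) (l 14862848)) (c (a (l 15191912) (l 14857304)) (a (l 15189872) (l 14860688)))) (l 15021008))) (c (c (a (c (l 15278024) (l 15296432)) (c (l 15015720) (l 15015840))) (l 15175600)) (l 15164400))) (a (l 15463768) (l 15300312))))), by decide +kernel⟩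

def k5_pm_202 : ∃ t, chk3 f_pm_202 t 18 33 1 = true :=
  ⟨(a (c (c (b (c (a (l 16265160) (l 16060624)) (a (l 16194480) (l 16041552))) (c (b (l 16302592) (l 16324952)) (a (a (l 16439768) (l 16399504)) (c (l 16284640) (l 16244472))))) (b (c (b (l 16000248) (c (l 16205856) (l 16080992))) (a (c (l 16199744) (l 16151248)) (c (l 16012080) (b (l 16105360) (l 16206048))))) (b (c (a (l 16340648) (l 16177440)) (l 16338208)) (a (l 16511944) (l 16402704))))) (c (b (c (c (a (l 16169176) (l 16023232)) (l 16170056)) (l 16060832)) (a (b (l 16452016) (l 16542816)) (l 16307744))) (a (b (l 16266840) (l 16441128)) (l 16010952)))) (c (c (b (a (b (a (c (l 15939480) (l 15958256)) (l 15824016)) (c (a (l 16082376) (l 15997496)) (l 15902920))) (c (l 15584464) (l 15572776))) (c (a (b (l 16161472) (l 16266688)) (b (l 15784784) (a (l 16185640) (c (l 16107328) (l 16111424))))) (a (c (l 16075048) (l 16049152)) (b (a (c (l 16057008) (l 16052576)) (l 15943192)) (c (a (l 16179416) (l 16101240)) (l 16139912))))))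 (b (a (c (b (a (l 15968824) (l 15840784)) (a (l 16099408) (c (l 16011360) (l 15981904)))) (b (a (c (l 15931568) (l 15858496)) (l 15648496)) (c (a (l 16088376) (l 15997328)) (l 16040672)))) (c (b (l 15612632) (c (l 15823544) (l 15811512))) (c (b (l 15629536) (l 15808424)) (b (l 15616728) (l 15806944))))) (b (c (a (l 16012168) (c (a (l 16043960) (l 15930184)) (l 15986288))) (a (l 16161696) (l 15981144))) (a (l 16271712) (l 16070392))))) (b (a (c (a (b (l 15956272) (l 16080896)) (b (l 15825368) (l 15988080))) (a (l 15877384) (l 15784576))) (c (l 15618320) (l 15683904))) (a (c (l 16208152) (l 16199304)) (c (a (l 15990720) (l 15871736)) (a (l 16084808) (l 15985072))))))), by decide +kernel⟩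

def k6_pm_202 : ∃ t, chk3 f_pm_202 t 18 17 1 = true :=
  ⟨(c (b (c (b (a (c (a (l 16406952) (b (l 16434480) (l 16535752))) (a (l 16492536) (l 16520888))) (c (a (c (l 16331376) (l 16339544)) (b (l 16085616) (l 16365400))) (a (l 16421632) (l 16318648)))) (a (l 16341968) (l 16353824))) (a (b (a (l 16548176) (l 16437016)) (a (l 16522640) (l 16574032))) (b (a (b (l 16378696) (l 16483656)) (l 16298264)) (l 16338200)))) (a (c (b (a (l 16257352) (l 16464904)) (a (l 16127520) (l 16178416))) (b (a (l 16348792) (l 16418024)) (a (l 16192704) (l 16247408)))) (c (b (l 16405496) (l 16161552)) (b (l 16381984) (l 16241688))))) (a (b (c (a (l 16390584) (l 16403128)) (a (l 16441768) (l 16464024))) (b (c (l 16210512) (l 16287496)) (c (a (l 16163264) (l 16207152)) (a (l 16132136) (l 16172440))))) (b (c (a (l 16350176) (l 16222256)) (a (l 16367328) (l 16237656))) (c (b (l 16378944) (l 16242768)) (l 16120936))))), by decide +kernel⟩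

def k7_pm_202 : ∃ t, chk3 f_pm_202 t 38 32 2 = true :=
  ⟨(c (a (b (a (c (b (l 14674512) (l 14838008)) (l 14613256)) (a (c (b (l 14561936) (l 14728880)) (l 14627184)) (b (c (a (a (l 14515816) (c (l 14491632) (l 14481912))) (b (b (l 14454656) (l 14480856)) (l 14541608))) (a (l 14492768) (l 14487312))) (c (l 14673760) (l 14655792))))) (a (c (b (l 15001200) (l 15190064)) (l 14950208)) (a (c (l 14741920) (l 14950072)) (c (b (l 14841912) (l 15035680)) (b (l 14831960) (l 15043328)))))) (b (b (b (c (l 14548656) (l 14529560)) (a (c (a (b (a (l 14513520) (l 14520024)) (l 14550072)) (l 14555416)) (l 14509136)) (l 14583424))) (a (c (a (l 14653504) (l 14640704)) (l 14630464)) (c (c (l 14646688) (l 14658664)) (l 14645112)))) (a (c (l 14680456) (l 14908832)) (b (c (l 14779296) (l 14768784)) (l 14972184))))) (b (a (a (c (l 14721776) (l 14580504)) (c (a (l 14608840) (b (b (l 14411600) (l 14509112)) (l 14637704))) (a (l 14592344) (b (l 14452704) (l 14622888))))) (c (b (a (l 14494024) (l 14563208))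 (a (l 14612152) (l 14626952))) (b (l 14511344) (a (l 14597104) (l 14612064))))) (a (c (a (l 15079912) (a (l 14994920) (l 14794328))) (c (a (l 15103336) (a (l 14996640) (l 14943608))) (a (b (l 14999344) (l 15223000)) (a (l 14758728) (b (l 14835232) (l 15062504)))))) (c (b (l 14782640) (l 15003640)) (b (l 14786520) (c (l 15015536) (l 15010080))))))), by decide +kernel⟩

def k8_pm_202 : ∃ t, chk3 f_pm_202 t 38 32 3 = true :=
  ⟨(a (c (b (c (a (b (l 14602008) (l 14785512)) (a (l 14516976) (b (l 14432840) (l 14615096)))) (b (a (l 14584456) (a (l 14466544) (c (l 14417856) (l 14410824)))) (c (a (l 14790824) (a (l 14676808) (l 14472208))) (a (c (l 14786168) (l 14782792)) (a (l 14602616) (b (l 14555640) (l 14666816))))))) (b (c (a (c (l 15007760) (l 15007320)) (a (c (l 14899456) (l 14895984)) (c (l 14844808) (l 14818192)))) (c (b (a (l 14948160) (a (l 14836024) (l 14779400))) (l 14985016)) (l 14926432))) (c (c (a (l 15210048) (a (l 15102928) (l 15048416))) (l 15140976)) (l 15128624))))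 (b (b (c (c (a (b (l 14527480) (l 14620048)) (a (b (l 14409152) (l 14500648)) (b (l 14359768) (c (l 14444448) (l 14438056))))) (a (c (l 14567128) (b (l 14511664) (l 14618720))) (b (a (c (l 14399928) (l 14390560)) (c (l 14285424) (b (l 14321088) (l 14358872)))) (l 14470600)))) (a (l 14560064) (l 14246928))) (c (c (c (a (l 14780968) (a (l 14667624) (l 14610992))) (l 14711824)) (l 14705728)) (l 14691336))) (a (l 15074752) (l 14936304)))) (c (b (c (b (l 14492048) (a (l 14589080) (l 14586864))) (b (c (l 14477488) (b (l 14446976) (l 14468104))) (c (b (l 14555648) (a (l 14640624) (l 14631632))) (b (a (l 14529024) (l 14560320)) (a (l 14636424) (l 14634688)))))) (c (c (b (l 14798744) (l 14997136)) (b (b (l 14739800) (l 14839280)) (l 14997272))) (b (c (l 14677216) (l 14781536)) (l 14983944)))) (b (b (c (c (b (l 14440592) (c (l 14478952) (l 14474568))) (b (c (l 14426328) (l 14420968)) (l 14478488))) (l 14447112)) (a (l 14570864) (l 14586376))) (l 14859504)))), by decide +kernel⟩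

def k9_pm_202 : ∃ t, chk3 f_pm_202 t 38 33 1 = true :=
  ⟨(c (a (c (b (a (c (l 15511160) (l 15520912)) (c (a (l 15413808) (l 15364024)) (a (l 15424424) (b (l 15266264) (l 15481680))))) (c (a (b (l 15817424) (l 16009416)) (b (l 15659256) (a (l 15919584) (l 15830920)))) (a (c (l 15823424) (l 15811904)) (a (b (l 15720704) (l 15899920)) (c (l 15535520) (l 15587616)))))) (b (c (a (b (l 15429408) (l 15426248)) (a (b (l 15329328) (l 15473952)) (b (c (l 15271992) (l 15277248)) (c (l 15474360) (l 15461256))))) (b (a (c (l 15419536) (l 15408328)) (a (c (l 15316504) (l 15307736)) (c (l 15263632) (l 15256880)))) (l 15546000))) (c (a (c (l 15896472) (l 15897848)) (l 15783280)) (l 15832752)))) (c (b (c (l 15315864) (b (l 15217592) (l 15436808))) (c (b (l 15633760) (l 15822528)) (b (l 15557352) (l 15806032)))) (b (c (b (c (l 15223688) (l 15227080)) (c (l 15422696) (l 15411872))) (c (l 15157040) (l 15308800))) (l 15705464)))) (a (c (b (a (l 15494824) (l 15367448)) (l 15631728)) (b (l 15323808)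 (l 15741880))) (c (l 15342816) (l 15405704)))), by decide +kernel⟩

def k10_pm_202 : ∃ t, chk3 f_pm_202 t 38 17 1 = true :=
  ⟨(b (c (b (c (a (c (b (a (c (l 16145800) (l 16168288)) (a (l 16091680) (l 16025624))) (l 16124544)) (a (l 16233896) (l 16052848))) (c (l 15858264) (l 16097904))) (a (a (l 16122720) (b (l 16065688) (l 16219120))) (l 16089808))) (a (c (b (l 16316088) (l 16515936)) (l 16359640)) (c (l 16208576) (l 16250040)))) (a (b (a (b (l 16085056) (l 16289232)) (c (l 16015248) (l 16026248))) (c (l 16439712) (l 16436336))) (b (l 16013032) (b (l 16272848) (l 16519456))))) (c (c (a (b (l 16450752) (l 16252432)) (l 16155264)) (a (b (l 16506600) (l 16291896)) (l 16289784))) (a (b (l 16290392) (l 16142656)) (l 16129984)))), by decide +kernel⟩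

def k11_pm_202 : ∃ t, chk3 f_pm_202 t 39 16 1 = true :=
  ⟨(c (b (c (b (c (a (l 14743608) (l 14898184)) (l 14783960)) (a (a (b (c (l 14794176) (l 14783816)) (c (l 14936448) (l 14943200))) (b (l 14858536) (c (l 14951680) (l 14958600)))) (c (l 15019952) (l 15018776)))) (b (c (l 14788368) (l 14647840)) (a (c (b (l 14816664) (l 14966848)) (b (l 14783880) (c (b (l 14925248) (l 15012160)) (b (l 14928520) (l 15000048))))) (c (l 14987720) (c (l 14845240) (b (l 14983128) (l 15074904))))))) (c (b (c (a (l 15160936) (b (l 15171256) (l 15318216))) (b (a (l 15146640) (l 15181664)) (a (l 15320928) (c (l 15328912) (a (l 15307376) (l 15320896)))))) (c (b (c (l 15525928) (l 15445008)) (c (l 15714992) (l 15702448))) (b (c (l 15367696) (l 15505912)) (l 15704848)))) (b (b (c (a (c (l 15157840) (l 15151176)) (c (l 15193008) (l 15181680))) (c (a (l 15137808) (l 15175984)) (l 15166024))) (c (a (c (l 15344128) (l 15342000)) (c (l 15308128) (l 15309672))) (l 15321216))) (l 15596344)))) (b (c (b (c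 (c (l 14766024) (b (l 14723384) (l 14717816))) (c (b (l 14721368) (c (l 14794552) (l 14790352))) (b (c (l 14715096) (l 14707120)) (b (l 14718088) (l 14825464))))) (c (c (b (a (l 14662536) (l 14978992)) (a (l 14961608) (l 15078624))) (b (b (l 14870616) (l 14928488)) (l 15020896))) (a (l 14892024) (l 15016824)))) (b (c (b (c (c (l 14656208) (b (l 14677008) (l 14717848))) (b (c (l 14671856) (l 14673304)) (l 14717936))) (l 14791432)) (l 14733368)) (a (b (l 14793248) (l 14921112)) (l 14993312)))) (b (c (a (l 15217552) (l 15226424)) (a (l 15190544) (l 15199688))) (c (l 15575984) (l 15556008))))), by decide +kernel⟩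

def k12_pm_202 : ∃ t, chk3 f_pm_202 t 39 17 1 = true :=
  ⟨(b (c (c (b (c (c (l 15966224) (l 15992720)) (l 15988976)) (l 16280488)) (b (l 15979448) (l 16296928))) (b (l 15773960) (l 16121264))) (c (b (c (a (l 16253384) (l 16437560)) (l 16198744)) (c (a (l 16174400) (l 16015632)) (l 16010352))) (b (c (l 16216800) (l 16171184)) (a (l 16139712) (l 16009480))))), by decide +kernel⟩

def k13_pm_202 : ∃ t, chk3 f_pm_202 t 18 9 1 = true :=
  ⟨(b (b (c (a (b (a (c (l 15911000) (l 15896288)) (c (l 15950216) (l 15948592))) (c (l 507373619031) (l 537975218151))) (c (b (a (l 15983120) (l 16068560)) (a (l 15657880) (l 15695784))) (a (b (l 16005904) (l 15628864)) (l 15596264)))) (a (a (b (c (l 15877088) (l 15641232)) (l 15461528)) (b (c (l 15936088) (l 15900864)) (c (l 15546656) (l 15451568)))) (c (b (l 15945232) (a (l 15589112) (l 15597640))) (b (l 15931264) (l 15318944))))) (a (a (l 1) (b (c (l 692056430455) (l 15106768)) (l 1))) (c (a (c (l 568575734215) (l 613136061943)) (c (b (l 15288600)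 (l 14851272)) (b (l 15252680) (l 14816496)))) (a (b (c (l 15179360) (l 15140392)) (l 14716136)) (c (b (l 15205936) (l 14777216)) (b (l 15157264) (l 14730712))))))) (a (l 1) (a (l 1) (a (l 1) (b (b (c (l 790302261767) (l 14304272)) (l 1)) (l 1)))))), by decide +kernel⟩

def k14_pm_202 : ∃ t, chk3 f_pm_202 t 19 9 1 = true :=
  ⟨(c (b (b (b (a (a (c (l 16000848) (l 16004376)) (l 15882512)) (c (l 15849520) (l 15817080))) (a (a (c (l 15596080) (l 15640424)) (l 15590352)) (l 15220816))) (a (b (a (c (a (l 15313240) (l 15311744)) (l 15193088)) (l 15229672)) (a (a (l 14777152) (a (l 14870160) (l 14785328))) (c (l 14868328) (l 14805920)))) (c (l 14743408) (l 14846104)))) (b (a (a (b (a (l 652863340311) (c (l 14295400) (l 14399512))) (a (l 1) (a (l 1) (l 14078872)))) (b (c (l 14440800) (l 14388816)) (l 14019656))) (b (c (a (l 14415112) (l 14362848)) (l 14304704)) (c (a (l 14104016) (l 14082288)) (a (l 14045688) (l 14004984))))) (b (b (a (a (l 1) (l 890696430407)) (a (l 13904528) (l 13909600)))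 (l 723729359111)) (l 772047403383)))) (b (a (b (a (c (b (l 15965672) (l 15582528)) (l 15623896)) (l 15563016)) (a (c (b (l 15197424) (l 14787760)) (b (l 15144136) (l 14731280))) (l 14724208))) (b (l 15342312) (l 14595696))) (a (a (b (b (c (l 645347023607) (a (l 14293136) (l 14294840))) (l 924519153239)) (l 1)) (b (b (l 14252832) (l 13971152)) (l 982500552503))) (b (b (l 14200864) (c (l 13946344) (l 13874344))) (a (c (l 13690096) (l 530992077255)) (l 13651040)))))), by decide +kernel⟩

def k15_pm_202 : ∃ t, chk3 f_pm_202 t 4 5 1 = true :=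
  ⟨(b (a (l 1) (a (l 1) (a (l 1) (b (l 927738812391) (l 1))))) (l 1)), by decide +kernel⟩

def k16_pm_202 : ∃ t, chk3 f_pm_202 t 4 3 1 = true :=
  ⟨(l 1), by decide +kernel⟩

def k17_pm_202 : ∃ t, chk3 f_pm_202 t 20 32 1 = true :=
  ⟨(a (c (c (b (c (l 15127224) (l 15113848)) (c (l 15208072) (l 15230192))) (b (c (l 15100384) (l 14945600)) (c (b (l 15202344) (c (l 15313424) (l 15319624))) (c (b (l 15215840) (l 15313264)) (b (l 15215048) (l 15312128)))))) (c (c (b (b (l 14947816) (c (l 15100104) (l 14922264))) (b (c (l 15189328) (l 15218024)) (l 15314512))) (b (c (b (l 14935344) (l 14875312)) (b (c (l 15026736) (l 15019520)) (l 15117656))) (l 15258672))) (c (b (c (b (c (l 15017488) (l 15023944)) (l 15119768)) (l 15067688)) (l 15245040)) (l 15105472)))) (a (c (c (b (l 15317880) (c (l 15433000) (l 15436072))) (b (c (l 15300824) (c (l 15292768) (l 15297440))) (c (b (l 15397424) (l 15495680)) (c (l 15255128) (l 15318328))))) (c (b (c (c (b (l 15256664) (l 15313952)) (b (l 15256856)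 (l 15307552))) (b (c (l 15240984) (l 15231864)) (l 15319888))) (l 15451536)) (b (l 15275936) (l 15434504)))) (c (c (b (a (a (l 15376632) (l 15376680)) (b (l 15316632) (l 15386376))) (a (a (l 15480720) (l 15487384)) (l 15394616))) (b (b (a (a (l 15335104) (l 15333240)) (l 15294104)) (c (a (l 15382520) (l 15370472)) (a (a (l 15379896) (l 15383104)) (l 15368184)))) (c (a (a (b (l 15446368) (l 15533352)) (l 15493304)) (l 15479328)) (b (a (a (l 15445560) (l 15446056)) (l 15434208)) (l 15538424))))) (b (b (c (c (a (a (l 15281928) (l 15320968)) (l 15279376)) (c (a (a (l 15304368) (l 15302232)) (l 15262208)) (l 15279288))) (a (l 15298992) (l 15259384))) (c (c (a (a (c (l 15367816) (l 15369512)) (l 15366680)) (b (l 15333456) (l 15385296))) (l 15372736)) (l 15369792))) (c (l 15492056) (l 15476024)))))), by decide +kernel⟩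

def k18_pm_202 : ∃ t, chk3 f_pm_202 t 20 33 1 = true :=
  ⟨(c (a (c (b (c (a (l 15371560) (l 15533888)) (b (c (l 15404896) (l 15419256)) (c (l 15510928) (l 15499296)))) (c (a (b (c (l 15533128) (l 15524416)) (c (l 15641944) (l 15643960))) (b (l 15670528) (l 15741744))) (b (c (l 15502624) (l 15590808)) (l 15696848)))) (c (b (c (b (l 15413704) (l 15497480)) (l 15191888)) (l 15518072)) (b (l 15448888) (l 15591848)))) (a (c (c (b (l 15441584) (b (l 15749544) (l 15829864))) (b (b (l 15588368) (l 15664904)) (l 15787592))) (c (b (c (l 15620928) (l 15629976)) (l 15780656)) (l 15697968))) (c (c (b (a (a (l 15657440) (l 15652920)) (l 15635064)) (a (a (l 15797032) (l 15789712)) (l 15768768))) (b (a (a (b (l 15618296) (l 15692592)) (l 15646680)) (l 15628496)) (l 15786424))) (a (b (c (a (l 15631816) (l 15651088)) (l 15652824)) (l 15787800)) (l 15697832))))) (a (a (b (l 15338624) (c (l 15551032) (l 15530752))) (b (l 15478656) (l 15666304))) (a (c (l 15684072) (l 15667568)) (c (l 15693520)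 (l 15677432))))), by decide +kernel⟩

def k19_pm_202 : ∃ t, chk3 f_pm_202 t 20 17 1 = true :=
  ⟨(a (b (c (b (c (a (l 15891384) (l 15818584)) (a (l 15877528) (l 15888976))) (c (b (l 16139112) (l 16322496)) (b (l 16129632) (l 16317120)))) (b (a (l 15774208) (c (l 15875304) (l 15860904))) (c (l 16132520) (l 16125152)))) (c (c (b (l 16469896) (l 16143600)) (b (l 16509696) (l 16156168))) (b (l 16297944) (l 16038224)))) (c (b (a (c (b (l 15936776) (l 16052896)) (b (l 15924168) (l 16085952))) (c (l 15936352) (l 15967952))) (a (b (c (l 16272480) (l 16373864)) (c (l 16319400) (l 16356824))) (b (c (a (l 16132632) (l 16153536)) (l 16070608)) (c (l 16212792) (l 16356640))))) (b (a (b (l 15906640) (c (l 16097136) (l 16066728))) (c (l 15956912) (l 15943696))) (a (b (c (l 16348080) (l 16281096)) (l 16181896)) (b (a (l 16051640) (l 16131576)) (a (l 16432048) (l 16376120))))))), by decide +kernel⟩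

def k20_pm_202 : ∃ t, chk3 f_pm_202 t 21 8 1 = true :=
  ⟨(b (c (a (c (b (b (a (l 15215824) (l 15112600)) (a (b (l 15194344) (c (l 15463400) (l 15481640))) (c (l 15304808) (b (l 15244472) (l 15372240))))) (b (c (a (l 15597112) (b (l 15483400) (l 15573464))) (b (a (l 15560536) (l 15486264)) (l 15612384))) (c (l 15633424) (l 15698272)))) (b (b (c (a (l 15240096) (l 15098656)) (b (l 15115312) (a (l 15070464) (l 15123584)))) (c (a (b (a (l 15416408) (l 15363840)) (l 15482496)) (b (l 15243456) (l 15376328))) (b (a (c (l 15383672) (l 15395904)) (l 15246784)) (l 15441064)))) (b (a (l 15600088) (l 15530232)) (l 15685728)))) (b (c (b (c (l 14898976) (l 14883760)) (c (b (l 15012560) (l 15119744)) (a (l 15128448) (l 14983136)))) (b (c (b (l 14832584) (l 14909280)) (c (l 14731400) (b (l 14809272) (l 14888816)))) (c (b (l 14809680) (l 15135064)) (l 15071504)))) (b (c (c (a (l 15305840) (l 15215672)) (a (l 15395728) (l 15226560))) (l 15308496)) (a (c (l 15585640) (l 15568512)) (l 15426640)))))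 (b (b (c (a (c (c (b (l 15100432) (l 15088456)) (b (l 15086920) (l 15200624))) (b (c (l 15081024) (l 15080512)) (l 15204280))) (c (c (b (l 14797568) (l 14889472)) (l 14842496)) (l 14838536))) (a (b (l 15074072) (l 15199056)) (l 14825528))) (a (c (a (l 15439568) (l 15318888)) (a (l 15422712) (l 15299824))) (c (l 15069400) (l 15045592)))) (a (a (l 15612032) (c (l 15423592) (l 15552344))) (a (b (l 15364880) (l 15540512)) (l 15181216))))) (a (c (a (b (l 15665824) (c (l 15901944) (l 16019256))) (b (l 15752792) (l 16001824))) (b (l 15706216) (a (b (l 16049640) (l 16098968)) (l 16000320)))) (a (c (b (l 15732456) (l 15916200)) (l 15604032)) (c (b (b (l 15503760) (l 15686616)) (l 15807528)) (b (l 15559632) (l 15777536)))))), by decide +kernel⟩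

def k21_pm_202 : ∃ t, chk3 f_pm_202 t 10 9 1 = true :=
  ⟨(a (b (a (b (c (b (a (c (l 15751136) (l 15731680)) (l 15764216)) (a (l 15345200) (c (l 15315528) (l 15287568)))) (b (a (l 15706288) (l 15732216)) (a (l 15287568) (l 15249496)))) (c (c (a (l 14827792) (l 14747048)) (l 14712088)) (l 14624056))) (b (b (a (c (l 15786968) (l 15867008)) (b (c (l 16157592) (l 16211712)) (c (l 15996704) (l 16041144)))) (a (c (l 15475928) (l 15431904)) (c (l 15571288) (l 15686184)))) (a (c (b (c (l 14996792) (l 15005448)) (l 14633024)) (b (l 14959248) (l 14548328))) (c (b (l 15148840) (a (a (l 14776984) (l 14847112)) (l 14970792))) (b (l 15287904) (l 14663176)))))) (a (b (c (b (c (l 14248856) (l 14162520)) (c (a (l 14039056) (l 13981416)) (l 13773728))) (b (l 14070336) (c (l 13835520) (l 13772024)))) (c (a (l 13787952) (l 13769608)) (l 13619896))) (b (a (c (b (l 14257008) (b (l 14086304) (l 14032384))) (b (l 14168776) (l 13932360))) (c (b (c (l 14361200) (l 14497880)) (c (l 14223912) (l 14302024)))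 (b (l 14436392) (l 14233128)))) (c (l 14071736) (l 13922960))))) (b (b (a (c (b (a (l 16340696) (l 16117144)) (a (l 16017920) (l 16353616))) (b (a (l 16337256) (l 16135216)) (a (l 16040880) (l 16368704)))) (a (b (l 15881080) (a (l 16217264) (l 16300152))) (b (l 15900512) (l 16211304)))) (a (c (a (l 15263000) (l 15588200)) (a (l 15406736) (l 15640616))) (a (b (c (l 16323528) (l 16334944)) (l 15791392)) (b (c (l 16538888) (l 16513528)) (c (l 16272904) (l 16281664)))))) (b (a (b (a (c (b (l 14907848) (l 14717488)) (l 14745920)) (c (l 15183176) (l 15126640))) (a (l 14571248) (l 14890320))) (b (c (a (l 15581920) (l 15975536)) (a (l 15539880) (l 15947872))) (l 15479360))) (a (l 14577112) (a (l 15015880) (l 15359560)))))), by decide +kernel⟩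

def k22_pm_202 : ∃ t, chk3 f_pm_202 t 22 4 1 = true :=
  ⟨(b (b (c (b (a (c (b (c (l 14601024) (a (l 14662200) (l 14509704))) (c (b (l 14698120) (l 14784272)) (a (l 14817408) (l 14652640)))) (b (c (a (l 14642184) (l 14486328)) (b (l 14488976) (l 14581552))) (c (a (l 14819864) (l 14656336)) (l 14738128)))) (c (a (b (l 14302520) (c (l 14495120) (l 14488304))) (b (l 14209200) (l 14243248))) (b (c (a (l 14330576) (l 14174616)) (l 14234672)) (l 14401000)))) (a (c (c (b (l 14829168) (l 15165992)) (l 15057744)) (l 15043296)) (c (l 14606928) (l 14669896)))) (b (c (a (b (l 14532336) (l 14731144)) (b (l 14214120) (l 14387304))) (a (b (l 14508008) (l 14700744)) (l 14058280))) (a (c (l 15015200) (l 14986608)) (l 14616656)))) (a (b (c (a (b (l 15428096) (l 15573432)) (l 15314336)) (a (l 15310000) (l 15269776))) (c (a (l 15696560) (l 15403176)) (l 15447904))) (b (c (l 14793528) (l 14946280)) (c (a (b (l 15351232) (l 15474800)) (l 15202808)) (l 15039416))))) (b (b (a (c (l 15855672) (l 15912896))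 (c (a (l 15735928) (l 15585768)) (l 15474336))) (a (a (b (l 16354816) (c (l 16606832) (l 16563376))) (c (l 16324152) (l 16311392))) (c (l 15962112) (l 15982488)))) (a (b (a (l 15987568) (l 16298416)) (l 15900136)) (b (l 16210952) (a (l 16527104) (l 16508216)))))), by decide +kernel⟩

def k23_pm_202 : ∃ t, chk3 f_pm_202 t 23 4 1 = true :=
  ⟨(b (b (c (b (a (a (a (a (a (b (l 14098096) (l 14228344)) (b (a (l 14063848) (l 14080640)) (l 14212160))) (b (l 14053336) (l 14201208))) (b (c (b (l 14071232) (l 14098096)) (l 14040888)) (l 14180440))) (b (l 14056400) (b (l 14108552) (l 14178584)))) (b (l 14056056) (l 14131112))) (a (c (a (l 14459240) (l 14402928)) (l 14404648)) (b (a (l 14265696) (l 14248272)) (l 14390352)))) (b (a (b (a (c (a (l 14025648) (l 14005592)) (l 13941064)) (l 13981568)) (a (l 14143424) (l 14094728))) (b (l 13981208) (l 14076048))) (a (l 14343272) (l 14253320)))) (c (a (b (a (l 14743728) (l 14686016)) (l 15005248)) (l 14747744)) (a (l 14666720) (l 14677776))))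 (b (b (a (a (b (l 15313728) (l 15586880)) (l 15412296)) (l 15329008)) (a (a (l 15871920) (l 15950704)) (l 15828440))) (b (b (l 16247248) (l 16374384)) (l 16411176)))), by decide +kernel⟩

def k24_pm_202 : ∃ t, chk3 f_pm_202 t 5 5 1 = true :=
  ⟨(a (b (a (a (b (b (c (a (l 13484952) (l 13510360)) (a (l 13349224) (l 13361768))) (l 992700051943)) (l 1)) (b (b (c (a (l 13707184) (l 14017408)) (l 13706592)) (c (l 13538616) (a (l 13267744) (l 13619400)))) (l 1159666851351))) (b (a (b (l 14405904) (b (l 14228408) (l 13924640))) (c (l 14891592) (l 14794096))) (a (b (c (l 14010288) (l 617428812983)) (l 13684152)) (b (c (l 14641368) (l 14520256)) (c (l 14429904) (l 14110032)))))) (a (l 1) (b (l 1071621047383) (l 1)))) (b (a (b (a (b (a (l 15363856) (l 15697760)) (l 15283384)) (b (l 16118600) (a (l 15692928) (l 15995952)))) (a (b (l 15164720) (l 14738648)) (l 15402416))) (b (b (a (l 16560208) (l 16504624)) (a (l 16394976) (l 16688608))) (a (b (l 15836992) (l 15845896)) (b (l 16332304)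 (l 15973992))))) (a (b (a (b (l 525625666183) (l 14507600)) (b (l 15182744) (l 14920728))) (l 836473288359)) (b (a (b (l 15735392) (l 15450896)) (l 15725112)) (a (b (l 15190568) (l 15148280)) (b (l 15524288) (l 15359448))))))), by decide +kernel⟩

def k25_pm_202 : ∃ t, chk3 f_pm_202 t 5 3 1 = true :=
  ⟨(a (l 1) (a (l 1) (b (b (l 457442842215) (l 1)) (l 1)))), by decide +kernel⟩

def k26_pm_202 : ∃ t, chk3 f_pm_202 t 3 2 1 = true :=
  ⟨(b (a (b (c (b (a (b (a (l 14097408) (l 14097408)) (a (l 14297128) (l 14297024))) (a (l 14068416) (l 14194240))) (a (a (b (a (l 14523144) (l 14494160)) (a (l 14790368) (l 14712072))) (l 14586768)) (l 14586696))) (b (a (b (c (l 14046752) (l 14010576)) (l 14221616)) (c (l 13977264) (l 14106384))) (a (a (b (l 14436016) (l 14682784)) (l 14509904)) (l 14509832)))) (a (b (a (b (l 15170296) (l 15792280)) (b (l 15034552) (l 15611112))) (a (b (l 16333512) (l 16527240)) (l 16282032))) (b (l 15286488) (a (b (l 16027280) (l 16249176)) (l 16101368))))) (b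 (b (a (c (l 14194240) (l 14106896)) (l 14100664)) (l 14549544)) (b (l 15286440) (l 16101312)))) (a (b (a (b (a (b (l 16626344) (l 16678120)) (b (l 16615752) (l 16499600))) (a (b (l 16636904) (a (l 16281504) (l 16584416))) (l 16511456))) (b (a (l 16571472) (l 16449496)) (a (l 16463848) (l 16628128)))) (a (b (a (b (a (l 15942976) (l 16231808)) (a (l 15739840) (l 15892200))) (b (l 16543384) (a (l 16183368) (l 16491008)))) (a (a (l 15525176) (l 15667320)) (a (l 15654768) (l 15794456)))) (a (b (l 16425904) (b (l 16473216) (l 16202496))) (b (l 16387408) (l 16382080))))) (b (b (l 16410440) (a (l 16611616) (l 16589864))) (a (b (l 16519944) (l 16202160)) (b (l 16712608) (l 16737104)))))), by decide +kernel⟩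

def k27_pm_202 : ∃ t, chk3 f_pm_202 t 3 3 1 = true :=
  ⟨(a (b (a (b (a (b (a (l 15244368) (l 15342336)) (l 14909712)) (b (a (l 15567032) (l 15667240)) (a (l 15244368) (l 15426224)))) (l 516498145063)) (b (a (b (a (l 15780520) (l 15899240)) (a (l 15567032) (l 15667240))) (b (a (l 16244440) (l 16473080)) (a (l 15801488) (l 15962152)))) (a (b (a (l 15244368) (l 15426224)) (l 14909712)) (b (l 15506976) (l 15259896))))) (a (l 1) (b (l 553005367079) (l 1)))) (b (a (b (a (b (l 16361048) (a (l 16244440) (l 16473080))) (b (l 16348592) (l 16382016))) (a (b (a (l 15801488) (l 16004096)) (l 15590864)) (b (l 16233208) (a (l 15801488) (l 16025064))))) (a (b (l 16453768) (b (l 16382016) (l 16233208))) (b (l 16614680) (l 16388720)))) (a (b (a (b (l 15322808) (l 14909712)) (b (l 15590864) (l 15322808))) (l 14289680)) (b (a (b (l 15731192) (l 15590864)) (b (l 16233208) (l 15773128))) (a (l 296919206199) (b (l 15590864) (l 15322808))))))), by decide +kernel⟩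

theorem s28_pm_202 : ∃ t, chk3 f_pm_202 t 3 1 1 = true := ex3_b k26_pm_202 k27_pm_202

theorem s29_pm_202 : ∃ t, chk3 f_pm_202 t 11 4 1 = true := ex3_a k22_pm_202 k23_pm_202

theorem s30_pm_202 : ∃ t, chk3 f_pm_202 t 20 16 1 = true := ex3_b k17_pm_202 k18_pm_202

theorem s31_pm_202 : ∃ t, chk3 f_pm_202 t 20 8 1 = true := ex3_b s30_pm_202 k19_pm_202

theorem s32_pm_202 : ∃ t, chk3 f_pm_202 t 10 8 1 = true := ex3_a s31_pm_202 k20_pm_202

theorem s33_pm_202 : ∃ t, chk3 f_pm_202 t 10 4 1 = true := ex3_b s32_pm_202 k21_pm_202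

theorem s34_pm_202 : ∃ t, chk3 f_pm_202 t 5 4 1 = true := ex3_a s33_pm_202 s29_pm_202

theorem s35_pm_202 : ∃ t, chk3 f_pm_202 t 5 2 1 = true := ex3_b s34_pm_202 k24_pm_202

theorem s36_pm_202 : ∃ t, chk3 f_pm_202 t 5 1 1 = true := ex3_b s35_pm_202 k25_pm_202

theorem s37_pm_202 : ∃ t, chk3 f_pm_202 t 9 9 1 = true := ex3_a k13_pm_202 k14_pm_202

theorem s38_pm_202 : ∃ t, chk3 f_pm_202 t 39 8 1 = true := ex3_b k11_pm_202 k12_pm_202

theorem s39_pm_202 : ∃ t, chk3 f_pm_202 t 38 32 1 = true := ex3_c k7_pm_202 k8_pm_202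

theorem s40_pm_202 : ∃ t, chk3 f_pm_202 t 38 16 1 = true := ex3_b s39_pm_202 k9_pm_202

theorem s41_pm_202 : ∃ t, chk3 f_pm_202 t 38 8 1 = true := ex3_b s40_pm_202 k10_pm_202

theorem s42_pm_202 : ∃ t, chk3 f_pm_202 t 19 8 1 = true := ex3_a s41_pm_202 s38_pm_202

theorem s43_pm_202 : ∃ t, chk3 f_pm_202 t 36 32 3 = true := ex3_b k2_pm_202 k3_pm_202

theorem s44_pm_202 : ∃ t, chk3 f_pm_202 t 36 32 1 = true := ex3_c k1_pm_202 s43_pm_202

theorem s45_pm_202 : ∃ t, chk3 f_pm_202 t 18 32 1 = true := ex3_a s44_pm_202 k4_pm_202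

theorem s46_pm_202 : ∃ t, chk3 f_pm_202 t 18 16 1 = true := ex3_b s45_pm_202 k5_pm_202

theorem s47_pm_202 : ∃ t, chk3 f_pm_202 t 18 8 1 = true := ex3_b s46_pm_202 k6_pm_202

theorem s48_pm_202 : ∃ t, chk3 f_pm_202 t 9 8 1 = true := ex3_a s47_pm_202 s42_pm_202

theorem s49_pm_202 : ∃ t, chk3 f_pm_202 t 9 4 1 = true := ex3_b s48_pm_202 s37_pm_202

theorem s50_pm_202 : ∃ t, chk3 f_pm_202 t 4 4 1 = true := ex3_a k0_pm_202 s49_pm_202

theorem s51_pm_202 : ∃ t, chk3 f_pm_202 t 4 2 1 = true := ex3_b s50_pm_202 k15_pm_202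

theorem s52_pm_202 : ∃ t, chk3 f_pm_202 t 4 1 1 = true := ex3_b s51_pm_202 k16_pm_202

theorem s53_pm_202 : ∃ t, chk3 f_pm_202 t 2 1 1 = true := ex3_a s52_pm_202 s36_pm_202

theorem s54_pm_202 : ∃ t, chk3 f_pm_202 t 1 1 1 = true := ex3_a s53_pm_202 s28_pm_202

theorem c_pm_202 : CertNX 1073741824 536870912 0 536870912 1046898278 26843546 3 true true false .pp 2 0 2
    ndN3q2 ndN3q0 pcN2 cut_pm_202 Ext.none :=
  certNX2 (fam := true) (s1 := true) (s2 := false) (a := 2) (b := 0) (c := 2) (cn := .pp) (n1 := ndN3q2) (n2 := ndN3q0) (pc := pcN2) (cut := cut_pm_202) (xt := Ext.none) (P1 := 1073741824) (W1 := 536870912) (P2 := 0) (W2 := 536870912) (P3 := 1046898278) (W3 := 26843546) (N0 := 3)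
    rfl (fun _ => rfl) s54_pm_202

noncomputable def f_pm_203 : ℕ → ℕ → ℕ → ℕ → Bool := onCell 1073741824 536870912 1610612736 536870912 1046898278 26843546
    (rowNX 3 1 true true false .up 2 0 3 (qsf 1073741824 536870912 0 536870912 3) ndN3q2 ndN3q0 pcN3 Cut.none Ext.none)

def k0_pm_203 : ∃ t, chk3 f_pm_203 t 1 1 1 = true :=
  ⟨(a (b (a (b (a (b (l 15590864) (l 15527952)) (a (l 16072016) (l 16498584))) (a (l 2) (b (a (l 2) (l 16540528)) (l 2)))) (b (a (b (l 16327624) (l 16348592)) (b (l 16715384) (l 16715384))) (a (b (l 16348592) (b (l 16348592) (l 2))) (b (l 16715384) (l 16505672))))) (l 4)) (b (b (a (b (a (l 16761552) (l 16612096)) (l 16767048)) (b (a (b (a (l 16228944) (b (l 15488032) (l 15916736))) (l 16351536)) (b (a (b (l 14705880) (l 15074040)) (b (l 14262640) (l 14434808))) (a (b (l 15488032) (l 15916736)) (b (l 14705880) (l 15074040))))) (a (l 16612096) (b (a (l 16228944) (b (l 15488032) (l 15916736))) (l 16351536))))) (b (a (l 16777216) (a (l 16761552) (l 16591120)))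 (c (l 16876448) (l 17023056)))) (b (l 4) (l 4)))), by decide +kernel⟩

theorem c_pm_203 : CertNX 1073741824 536870912 0 536870912 1046898278 26843546 3 true true false .up 2 0 3
    ndN3q2 ndN3q0 pcN3 Cut.none Ext.none :=
  certNX1 (fam := true) (s1 := true) (s2 := false) (a := 2) (b := 0) (c := 3) (cn := .up) (n1 := ndN3q2) (n2 := ndN3q0) (pc := pcN3) (cut := Cut.none) (xt := Ext.none) (P1 := 1073741824) (W1 := 536870912) (P2 := 0) (W2 := 536870912) (P3 := 1046898278) (W3 := 26843546) (N0 := 3)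
    rfl (fun _ => rfl) k0_pm_203

noncomputable def f_pm_213 : ℕ → ℕ → ℕ → ℕ → Bool := onCell 1073741824 536870912 1610612736 536870912 1046898278 26843546
    (rowNX 3 1 true true false .pnn 2 1 3 (qsf 1073741824 536870912 536870912 536870912 3) ndN3q2 ndN3q1 pcN3 Cut.none Ext.none)

def k0_pm_213 : ∃ t, chk3 f_pm_213 t 1 1 1 = true :=
  ⟨(a (b (a (b (a (b (l 15590864) (l 15506976)) (a (l 16072016) (l 16477616))) (a (b (c (l 15621992) (l 15571712)) (l 4)) (b (a (l 16155904) (l 16540528)) (l 4)))) (b (a (b (l 1) (l 16348592)) (l 1)) (a (b (l 16348592) (b (l 16348592) (l 4))) (b (l 16715384) (l 23856574183))))) (l 4)) (b (b (l 1) (b (l 1) (l 16777216))) (b (l 4) (l 4)))), by decide +kernel⟩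

theorem c_pm_213 : CertNX 1073741824 536870912 536870912 536870912 1046898278 26843546 3 true true false .pnn 2 1 3
    ndN3q2 ndN3q1 pcN3 Cut.none Ext.none :=
  certNX1 (fam := true) (s1 := true) (s2 := false) (a := 2) (b := 1) (c := 3) (cn := .pnn) (n1 := ndN3q2) (n2 := ndN3q1) (pc := pcN3) (cut := Cut.none) (xt := Ext.none) (P1 := 1073741824) (W1 := 536870912) (P2 := 536870912) (W2 := 536870912) (P3 := 1046898278) (W3 := 26843546) (N0 := 3)
    rfl (fun _ => rfl) k0_pm_213

noncomputable def f_pm_303 : ℕ → ℕ → ℕ → ℕ → Bool := onCell 1610612736 536870912 0 536870912 1046898278 26843546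
    (rowNX 3 2 true true false .npn 3 0 3 (qsf 1610612736 536870912 0 536870912 3) ndN3q3 ndN3q0 pcN3 Cut.none Ext.none)

def k0_pm_303 : ∃ t, chk3 f_pm_303 t 1 1 1 = true :=
  ⟨(b (a (b (a (b (b (b (l 14045648) (l 14250104)) (l 14549544)) (b (l 15286440) (l 16101312))) (b (a (b (c (l 14194240) (l 14127872)) (l 14549544)) (b (c (l 14194240) (l 14127872)) (l 14549544))) (a (b (l 15286440) (l 16101312)) (b (l 15286440) (l 16101312))))) (a (b (l 16500672) (l 1)) (a (b (l 16500672) (l 16745168)) (b (l 16500672) (l 16745168))))) (a (a (b (b (c (b (l 14194232) (l 14586696)) (a (l 14256928) (l 14110120))) (a (b (l 15286440) (l 16101312)) (l 4))) (a (b (l 16500672) (l 16745168)) (l 4))) (l 4)) (l 4))) (a (a (l 1) (a (l 1) (l 16777216))) (l 4))), by decide +kernel⟩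

theorem c_pm_303 : CertNX 1610612736 536870912 0 536870912 1046898278 26843546 3 true true false .npn 3 0 3
    ndN3q3 ndN3q0 pcN3 Cut.none Ext.none :=
  certNX2 (fam := true) (s1 := true) (s2 := false) (a := 3) (b := 0) (c := 3) (cn := .npn) (n1 := ndN3q3) (n2 := ndN3q0) (pc := pcN3) (cut := Cut.none) (xt := Ext.none) (P1 := 1610612736) (W1 := 536870912) (P2 := 0) (W2 := 536870912) (P3 := 1046898278) (W3 := 26843546) (N0 := 3)
    rfl (fun _ => rfl) k0_pm_303

noncomputable def f_pm_313 : ℕ → ℕ → ℕ → ℕ → Bool := onCell 1610612736 536870912 536870912 536870912 1046898278 26843546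
    (rowNX 3 0 true true false .dn 3 1 3 (qsf 1610612736 536870912 536870912 536870912 3) ndN3q3 ndN3q1 pcN3 Cut.none Ext.none)

def k0_pm_313 : ∃ t, chk3 f_pm_313 t 1 1 1 = true :=
  ⟨(l 4), by decide +kernel⟩

theorem c_pm_313 : CertNX 1610612736 536870912 536870912 536870912 1046898278 26843546 3 true true false .dn 3 1 3
    ndN3q3 ndN3q1 pcN3 Cut.none Ext.none :=
  certNX0 (fam := true) (s1 := true) (s2 := false) (a := 3) (b := 1) (c := 3) (cn := .dn) (n1 := ndN3q3) (n2 := ndN3q1) (pc := pcN3) (cut := Cut.none) (xt := Ext.none) (P1 := 1610612736) (W1 := 536870912) (P2 := 536870912) (W2 := 536870912) (P3 := 1046898278) (W3 := 26843546) (N0 := 3)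
    rfl k0_pm_313

noncomputable def f_mm_001 : ℕ → ℕ → ℕ → ℕ → Bool := onCell 0 536870912 0 536870912 1046898278 26843546
    (rowNX 3 0 true false false .up 0 0 1 (qsf 0 536870912 0 536870912 1) ndN3q0 ndN3q0 pcN1 Cut.none Ext.none)

def k0_mm_001 : ∃ t, chk3 f_mm_001 t 1 1 1 = true :=
  ⟨(l 4), by decide +kernel⟩

theorem c_mm_001 : CertNX 0 536870912 0 536870912 1046898278 26843546 3 true false false .up 0 0 1
    ndN3q0 ndN3q0 pcN1 Cut.none Ext.none :=
  certNX0 (fam := true) (s1 := false) (s2 := false) (a := 0) (b := 0) (c := 1) (cn := .up) (n1 := ndN3q0) (n2 := ndN3q0) (pc := pcN1) (cut := Cut.none) (xt := Ext.none) (P1 := 0) (W1 := 536870912) (P2 := 0) (W2 := 536870912) (P3 := 1046898278) (W3 := 26843546) (N0 := 3)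
    rfl k0_mm_001

noncomputable def f_mm_011 : ℕ → ℕ → ℕ → ℕ → Bool := onCell 0 536870912 536870912 536870912 1046898278 26843546
    (rowNX 3 0 true false false .pnn 0 1 1 (qsf 0 536870912 536870912 536870912 1) ndN3q0 ndN3q1 pcN1 Cut.none Ext.none)

def k0_mm_011 : ∃ t, chk3 f_mm_011 t 1 1 1 = true :=
  ⟨(l 4), by decide +kernel⟩

theorem c_mm_011 : CertNX 0 536870912 536870912 536870912 1046898278 26843546 3 true false false .pnn 0 1 1
    ndN3q0 ndN3q1 pcN1 Cut.none Ext.none :=
  certNX0 (fam := true) (s1 := false) (s2 := false) (a := 0) (b := 1) (c := 1) (cn := .pnn) (n1 := ndN3q0) (n2 := ndN3q1) (pc := pcN1) (cut := Cut.none) (xt := Ext.none) (P1 := 0) (W1 := 536870912) (P2 := 536870912) (W2 := 536870912) (P3 := 1046898278) (W3 := 26843546) (N0 := 3)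
    rfl k0_mm_011

noncomputable def f_mm_012 : ℕ → ℕ → ℕ → ℕ → Bool := onCell 0 536870912 536870912 536870912 1046898278 26843546
    (rowNX 3 0 true false false .pnp 0 1 2 (qsf 0 536870912 536870912 536870912 2) ndN3q0 ndN3q1 pcN2 Cut.none Ext.none)

def k0_mm_012 : ∃ t, chk3 f_mm_012 t 1 1 1 = true :=
  ⟨(l 4), by decide +kernel⟩

theorem c_mm_012 : CertNX 0 536870912 536870912 536870912 1046898278 26843546 3 true false false .pnp 0 1 2
    ndN3q0 ndN3q1 pcN2 Cut.none Ext.none :=
  certNX0 (fam := true) (s1 := false) (s2 := false) (a := 0) (b := 1) (c := 2) (cn := .pnp) (n1 := ndN3q0) (n2 := ndN3q1) (pc := pcN2) (cut := Cut.none) (xt := Ext.none) (P1 := 0) (W1 := 536870912) (P2 := 536870912) (W2 := 536870912) (P3 := 1046898278) (W3 := 26843546) (N0 := 3)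
    rfl k0_mm_012

noncomputable def f_mm_022 : ℕ → ℕ → ℕ → ℕ → Bool := onCell 0 536870912 1073741824 536870912 1046898278 26843546
    (rowNX 3 0 true false false .pp 0 2 2 (qsf 0 536870912 1073741824 536870912 2) ndN3q0 ndN3q2 pcN2 Cut.none Ext.none)

def k0_mm_022 : ∃ t, chk3 f_mm_022 t 1 1 1 = true :=
  ⟨(l 5), by decide +kernel⟩

theorem c_mm_022 : CertNX 0 536870912 1073741824 536870912 1046898278 26843546 3 true false false .pp 0 2 2
    ndN3q0 ndN3q2 pcN2 Cut.none Ext.none :=
  certNX0 (fam := true) (s1 := false) (s2 := false) (a := 0) (b := 2) (c := 2) (cn := .pp) (n1 := ndN3q0) (n2 := ndN3q2) (pc := pcN2) (cut := Cut.none) (xt := Ext.none) (P1 := 0) (W1 := 536870912) (P2 := 1073741824) (W2 := 536870912) (P3 := 1046898278) (W3 := 26843546) (N0 := 3)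
    rfl k0_mm_022

noncomputable def f_mm_023 : ℕ → ℕ → ℕ → ℕ → Bool := onCell 0 536870912 1073741824 536870912 1046898278 26843546
    (rowNX 3 0 true false false .up 0 2 3 (qsf 0 536870912 1073741824 536870912 3) ndN3q0 ndN3q2 pcN3 Cut.none Ext.none)

def k0_mm_023 : ∃ t, chk3 f_mm_023 t 1 1 1 = true :=
  ⟨(l 5), by decide +kernel⟩

theorem c_mm_023 : CertNX 0 536870912 1073741824 536870912 1046898278 26843546 3 true false false .up 0 2 3
    ndN3q0 ndN3q2 pcN3 Cut.none Ext.none :=
  certNX0 (fam := true) (s1 := false) (s2 := false) (a := 0) (b := 2) (c := 3) (cn := .up) (n1 := ndN3q0) (n2 := ndN3q2) (pc := pcN3) (cut := Cut.none) (xt := Ext.none) (P1 := 0) (W1 := 536870912) (P2 := 1073741824) (W2 := 536870912) (P3 := 1046898278) (W3 := 26843546) (N0 := 3)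
    rfl k0_mm_023

noncomputable def f_mm_033 : ℕ → ℕ → ℕ → ℕ → Bool := onCell 0 536870912 1610612736 536870912 1046898278 26843546
    (rowNX 3 0 true false false .pnn 0 3 3 (qsf 0 536870912 1610612736 536870912 3) ndN3q0 ndN3q3 pcN3 Cut.none Ext.none)

def k0_mm_033 : ∃ t, chk3 f_mm_033 t 1 1 1 = true :=
  ⟨(l 4), by decide +kernel⟩

theorem c_mm_033 : CertNX 0 536870912 1610612736 536870912 1046898278 26843546 3 true false false .pnn 0 3 3
    ndN3q0 ndN3q3 pcN3 Cut.none Ext.none :=
  certNX0 (fam := true) (s1 := false) (s2 := false) (a := 0) (b := 3) (c := 3) (cn := .pnn) (n1 := ndN3q0) (n2 := ndN3q3) (pc := pcN3) (cut := Cut.none) (xt := Ext.none) (P1 := 0) (W1 := 536870912) (P2 := 1610612736) (W2 := 536870912) (P3 := 1046898278) (W3 := 26843546) (N0 := 3)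
    rfl k0_mm_033

noncomputable def f_mm_101 : ℕ → ℕ → ℕ → ℕ → Bool := onCell 536870912 536870912 0 536870912 1046898278 26843546
    (rowNX 3 0 true false false .npn 1 0 1 (qsf 536870912 536870912 0 536870912 1) ndN3q1 ndN3q0 pcN1 Cut.none Ext.none)

def k0_mm_101 : ∃ t, chk3 f_mm_101 t 1 1 1 = true :=
  ⟨(l 4), by decide +kernel⟩

theorem c_mm_101 : CertNX 536870912 536870912 0 536870912 1046898278 26843546 3 true false false .npn 1 0 1
    ndN3q1 ndN3q0 pcN1 Cut.none Ext.none :=
  certNX0 (fam := true) (s1 := false) (s2 := false) (a := 1) (b := 0) (c := 1) (cn := .npn) (n1 := ndN3q1) (n2 := ndN3q0) (pc := pcN1) (cut := Cut.none) (xt := Ext.none) (P1 := 536870912) (W1 := 536870912) (P2 := 0) (W2 := 536870912) (P3 := 1046898278) (W3 := 26843546) (N0 := 3)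
    rfl k0_mm_101

noncomputable def f_mm_102 : ℕ → ℕ → ℕ → ℕ → Bool := onCell 536870912 536870912 0 536870912 1046898278 26843546
    (rowNX 3 0 true false false .npp 1 0 2 (qsf 536870912 536870912 0 536870912 2) ndN3q1 ndN3q0 pcN2 Cut.none Ext.none)

def k0_mm_102 : ∃ t, chk3 f_mm_102 t 1 1 1 = true :=
  ⟨(l 4), by decide +kernel⟩

theorem c_mm_102 : CertNX 536870912 536870912 0 536870912 1046898278 26843546 3 true false false .npp 1 0 2
    ndN3q1 ndN3q0 pcN2 Cut.none Ext.none :=
  certNX0 (fam := true) (s1 := false) (s2 := false) (a := 1) (b := 0) (c := 2) (cn := .npp) (n1 := ndN3q1) (n2 := ndN3q0) (pc := pcN2) (cut := Cut.none) (xt := Ext.none) (P1 := 536870912) (W1 := 536870912) (P2 := 0) (W2 := 536870912) (P3 := 1046898278) (W3 := 26843546) (N0 := 3)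
    rfl k0_mm_102

noncomputable def f_mm_112 : ℕ → ℕ → ℕ → ℕ → Bool := onCell 536870912 536870912 536870912 536870912 1046898278 26843546
    (rowNX 3 0 true false false .dn 1 1 2 (qsf 536870912 536870912 536870912 536870912 2) ndN3q1 ndN3q1 pcN2 Cut.none Ext.none)

def k0_mm_112 : ∃ t, chk3 f_mm_112 t 1 1 1 = true :=
  ⟨(l 4), by decide +kernel⟩

theorem c_mm_112 : CertNX 536870912 536870912 536870912 536870912 1046898278 26843546 3 true false false .dn 1 1 2
    ndN3q1 ndN3q1 pcN2 Cut.none Ext.none :=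
  certNX0 (fam := true) (s1 := false) (s2 := false) (a := 1) (b := 1) (c := 2) (cn := .dn) (n1 := ndN3q1) (n2 := ndN3q1) (pc := pcN2) (cut := Cut.none) (xt := Ext.none) (P1 := 536870912) (W1 := 536870912) (P2 := 536870912) (W2 := 536870912) (P3 := 1046898278) (W3 := 26843546) (N0 := 3)
    rfl k0_mm_112

noncomputable def f_mm_113 : ℕ → ℕ → ℕ → ℕ → Bool := onCell 536870912 536870912 536870912 536870912 1046898278 26843546
    (rowNX 3 0 true false false .nn 1 1 3 (qsf 536870912 536870912 536870912 536870912 3) ndN3q1 ndN3q1 pcN3 Cut.none Ext.none)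

def k0_mm_113 : ∃ t, chk3 f_mm_113 t 1 1 1 = true :=
  ⟨(l 4), by decide +kernel⟩

theorem c_mm_113 : CertNX 536870912 536870912 536870912 536870912 1046898278 26843546 3 true false false .nn 1 1 3
    ndN3q1 ndN3q1 pcN3 Cut.none Ext.none :=
  certNX0 (fam := true) (s1 := false) (s2 := false) (a := 1) (b := 1) (c := 3) (cn := .nn) (n1 := ndN3q1) (n2 := ndN3q1) (pc := pcN3) (cut := Cut.none) (xt := Ext.none) (P1 := 536870912) (W1 := 536870912) (P2 := 536870912) (W2 := 536870912) (P3 := 1046898278) (W3 := 26843546) (N0 := 3)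
    rfl k0_mm_113

noncomputable def f_mm_123 : ℕ → ℕ → ℕ → ℕ → Bool := onCell 536870912 536870912 1073741824 536870912 1046898278 26843546
    (rowNX 3 0 true false false .npn 1 2 3 (qsf 536870912 536870912 1073741824 536870912 3) ndN3q1 ndN3q2 pcN3 Cut.none Ext.none)

def k0_mm_123 : ∃ t, chk3 f_mm_123 t 1 1 1 = true :=
  ⟨(l 4), by decide +kernel⟩

theorem c_mm_123 : CertNX 536870912 536870912 1073741824 536870912 1046898278 26843546 3 true false false .npn 1 2 3
    ndN3q1 ndN3q2 pcN3 Cut.none Ext.none :=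
  certNX0 (fam := true) (s1 := false) (s2 := false) (a := 1) (b := 2) (c := 3) (cn := .npn) (n1 := ndN3q1) (n2 := ndN3q2) (pc := pcN3) (cut := Cut.none) (xt := Ext.none) (P1 := 536870912) (W1 := 536870912) (P2 := 1073741824) (W2 := 536870912) (P3 := 1046898278) (W3 := 26843546) (N0 := 3)
    rfl k0_mm_123

noncomputable def f_mm_133 : ℕ → ℕ → ℕ → ℕ → Bool := onCell 536870912 536870912 1610612736 536870912 1046898278 26843546
    (rowNX 3 0 true false false .dn 1 3 3 (qsf 536870912 536870912 1610612736 536870912 3) ndN3q1 ndN3q3 pcN3 Cut.none Ext.none)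

def k0_mm_133 : ∃ t, chk3 f_mm_133 t 1 1 1 = true :=
  ⟨(l 4), by decide +kernel⟩

theorem c_mm_133 : CertNX 536870912 536870912 1610612736 536870912 1046898278 26843546 3 true false false .dn 1 3 3
    ndN3q1 ndN3q3 pcN3 Cut.none Ext.none :=
  certNX0 (fam := true) (s1 := false) (s2 := false) (a := 1) (b := 3) (c := 3) (cn := .dn) (n1 := ndN3q1) (n2 := ndN3q3) (pc := pcN3) (cut := Cut.none) (xt := Ext.none) (P1 := 536870912) (W1 := 536870912) (P2 := 1610612736) (W2 := 536870912) (P3 := 1046898278) (W3 := 26843546) (N0 := 3)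
    rfl k0_mm_133

noncomputable def cut_mm_202 : Cut := Cut.of [[⟨0, 1, 0, 67108864⟩, ⟨1, 0, 0, 67108864⟩, ⟨2, 1, 0, 67108864⟩]]

noncomputable def f_mm_202 : ℕ → ℕ → ℕ → ℕ → Bool := onCell 1073741824 536870912 0 536870912 1046898278 26843546
    (rowNX 3 2 true false false .pp 2 0 2 (qsf 1073741824 536870912 0 536870912 2) ndN3q2 ndN3q0 pcN2 cut_mm_202 Ext.none)

def k0_mm_202 : ∃ t, chk3 f_mm_202 t 1 1 1 = true :=
  ⟨(a (b (a (b (a (a (b (b (l 6) (l 4)) (l 1)) (l 4)) (l 4)) (l 4)) (l 4)) (l 4)) (l 4)), by decide +kernel⟩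

theorem c_mm_202 : CertNX 1073741824 536870912 0 536870912 1046898278 26843546 3 true false false .pp 2 0 2
    ndN3q2 ndN3q0 pcN2 cut_mm_202 Ext.none :=
  certNX2 (fam := true) (s1 := false) (s2 := false) (a := 2) (b := 0) (c := 2) (cn := .pp) (n1 := ndN3q2) (n2 := ndN3q0) (pc := pcN2) (cut := cut_mm_202) (xt := Ext.none) (P1 := 1073741824) (W1 := 536870912) (P2 := 0) (W2 := 536870912) (P3 := 1046898278) (W3 := 26843546) (N0 := 3)
    rfl (fun _ => rfl) k0_mm_202

noncomputable def f_mm_203 : ℕ → ℕ → ℕ → ℕ → Bool := onCell 1073741824 536870912 1610612736 536870912 1046898278 26843546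
    (rowNX 3 1 true false false .up 2 0 3 (qsf 1073741824 536870912 0 536870912 3) ndN3q2 ndN3q0 pcN3 Cut.none Ext.none)

def k0_mm_203 : ∃ t, chk3 f_mm_203 t 1 1 1 = true :=
  ⟨(l 4), by decide +kernel⟩

theorem c_mm_203 : CertNX 1073741824 536870912 0 536870912 1046898278 26843546 3 true false false .up 2 0 3
    ndN3q2 ndN3q0 pcN3 Cut.none Ext.none :=
  certNX1 (fam := true) (s1 := false) (s2 := false) (a := 2) (b := 0) (c := 3) (cn := .up) (n1 := ndN3q2) (n2 := ndN3q0) (pc := pcN3) (cut := Cut.none) (xt := Ext.none) (P1 := 1073741824) (W1 := 536870912) (P2 := 0) (W2 := 536870912) (P3 := 1046898278) (W3 := 26843546) (N0 := 3)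
    rfl (fun _ => rfl) k0_mm_203

noncomputable def f_mm_213 : ℕ → ℕ → ℕ → ℕ → Bool := onCell 1073741824 536870912 536870912 536870912 1046898278 26843546
    (rowNX 3 0 true false false .pnn 2 1 3 (qsf 1073741824 536870912 536870912 536870912 3) ndN3q2 ndN3q1 pcN3 Cut.none Ext.none)

def k0_mm_213 : ∃ t, chk3 f_mm_213 t 1 1 1 = true :=
  ⟨(l 4), by decide +kernel⟩

theorem c_mm_213 : CertNX 1073741824 536870912 536870912 536870912 1046898278 26843546 3 true false false .pnn 2 1 3
    ndN3q2 ndN3q1 pcN3 Cut.none Ext.none :=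
  certNX0 (fam := true) (s1 := false) (s2 := false) (a := 2) (b := 1) (c := 3) (cn := .pnn) (n1 := ndN3q2) (n2 := ndN3q1) (pc := pcN3) (cut := Cut.none) (xt := Ext.none) (P1 := 1073741824) (W1 := 536870912) (P2 := 536870912) (W2 := 536870912) (P3 := 1046898278) (W3 := 26843546) (N0 := 3)
    rfl k0_mm_213

noncomputable def f_mm_303 : ℕ → ℕ → ℕ → ℕ → Bool := onCell 1610612736 536870912 0 536870912 1046898278 26843546
    (rowNX 3 0 true false false .npn 3 0 3 (qsf 1610612736 536870912 0 536870912 3) ndN3q3 ndN3q0 pcN3 Cut.none Ext.none)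

def k0_mm_303 : ∃ t, chk3 f_mm_303 t 1 1 1 = true :=
  ⟨(l 4), by decide +kernel⟩

theorem c_mm_303 : CertNX 1610612736 536870912 0 536870912 1046898278 26843546 3 true false false .npn 3 0 3
    ndN3q3 ndN3q0 pcN3 Cut.none Ext.none :=
  certNX0 (fam := true) (s1 := false) (s2 := false) (a := 3) (b := 0) (c := 3) (cn := .npn) (n1 := ndN3q3) (n2 := ndN3q0) (pc := pcN3) (cut := Cut.none) (xt := Ext.none) (P1 := 1610612736) (W1 := 536870912) (P2 := 0) (W2 := 536870912) (P3 := 1046898278) (W3 := 26843546) (N0 := 3)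
    rfl k0_mm_303

noncomputable def f_mm_313 : ℕ → ℕ → ℕ → ℕ → Bool := onCell 1610612736 536870912 536870912 536870912 1046898278 26843546
    (rowNX 3 0 true false false .dn 3 1 3 (qsf 1610612736 536870912 536870912 536870912 3) ndN3q3 ndN3q1 pcN3 Cut.none Ext.none)

def k0_mm_313 : ∃ t, chk3 f_mm_313 t 1 1 1 = true :=
  ⟨(l 4), by decide +kernel⟩

theorem c_mm_313 : CertNX 1610612736 536870912 536870912 536870912 1046898278 26843546 3 true false false .dn 3 1 3
    ndN3q3 ndN3q1 pcN3 Cut.none Ext.none :=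
  certNX0 (fam := true) (s1 := false) (s2 := false) (a := 3) (b := 1) (c := 3) (cn := .dn) (n1 := ndN3q3) (n2 := ndN3q1) (pc := pcN3) (cut := Cut.none) (xt := Ext.none) (P1 := 1610612736) (W1 := 536870912) (P2 := 536870912) (W2 := 536870912) (P3 := 1046898278) (W3 := 26843546) (N0 := 3)
    rfl k0_mm_313

end Pool.Agent.Strip051.G.IE1.Tab.C.NA33

namespace Pool.Agent.Strip051.G.IE1.Tab.C.NA34

open Pool.Agent.Strip051.PB Pool.Agent.Strip051.PB.T
open Pool.Agent.Strip051.G.IE1.Tab

noncomputable def f_pp_001 : ℕ → ℕ → ℕ → ℕ → Bool := onCell 0 536870912 0 67108864 1046898278 26843546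
    (rowNX 3 0 true true true .up 0 0 1 (qsf 0 536870912 0 67108864 1) ndN3q0 ndN4q0 pcN1 Cut.none Ext.none)

def k0_pp_001 : ∃ t, chk3 f_pp_001 t 1 1 1 = true :=
  ⟨(l 4), by decide +kernel⟩

theorem c_pp_001 : CertNX 0 536870912 0 67108864 1046898278 26843546 3 true true true .up 0 0 1
    ndN3q0 ndN4q0 pcN1 Cut.none Ext.none :=
  certNX0 (fam := true) (s1 := true) (s2 := true) (a := 0) (b := 0) (c := 1) (cn := .up) (n1 := ndN3q0) (n2 := ndN4q0) (pc := pcN1) (cut := Cut.none) (xt := Ext.none) (P1 := 0) (W1 := 536870912) (P2 := 0) (W2 := 67108864) (P3 := 1046898278) (W3 := 26843546) (N0 := 3)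
    rfl k0_pp_001

noncomputable def f_pp_101 : ℕ → ℕ → ℕ → ℕ → Bool := onCell 536870912 536870912 0 67108864 1046898278 26843546
    (rowNX 3 0 true true true .npn 1 0 1 (qsf 536870912 536870912 0 67108864 1) ndN3q1 ndN4q0 pcN1 Cut.none Ext.none)

def k0_pp_101 : ∃ t, chk3 f_pp_101 t 1 1 1 = true :=
  ⟨(l 4), by decide +kernel⟩

theorem c_pp_101 : CertNX 536870912 536870912 0 67108864 1046898278 26843546 3 true true true .npn 1 0 1
    ndN3q1 ndN4q0 pcN1 Cut.none Ext.none :=
  certNX0 (fam := true) (s1 := true) (s2 := true) (a := 1) (b := 0) (c := 1) (cn := .npn) (n1 := ndN3q1) (n2 := ndN4q0) (pc := pcN1) (cut := Cut.none) (xt := Ext.none) (P1 := 536870912) (W1 := 536870912) (P2 := 0) (W2 := 67108864) (P3 := 1046898278) (W3 := 26843546) (N0 := 3)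
    rfl k0_pp_101

noncomputable def f_pp_102 : ℕ → ℕ → ℕ → ℕ → Bool := onCell 536870912 536870912 0 67108864 1046898278 26843546
    (rowNX 3 0 true true true .npp 1 0 2 (qsf 536870912 536870912 0 67108864 2) ndN3q1 ndN4q0 pcN2 Cut.none Ext.none)

def k0_pp_102 : ∃ t, chk3 f_pp_102 t 1 1 1 = true :=
  ⟨(l 4), by decide +kernel⟩

theorem c_pp_102 : CertNX 536870912 536870912 0 67108864 1046898278 26843546 3 true true true .npp 1 0 2
    ndN3q1 ndN4q0 pcN2 Cut.none Ext.none :=
  certNX0 (fam := true) (s1 := true) (s2 := true) (a := 1) (b := 0) (c := 2) (cn := .npp) (n1 := ndN3q1) (n2 := ndN4q0) (pc := pcN2) (cut := Cut.none) (xt := Ext.none) (P1 := 536870912) (W1 := 536870912) (P2 := 0) (W2 := 67108864) (P3 := 1046898278) (W3 := 26843546) (N0 := 3)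
    rfl k0_pp_102

noncomputable def f_pp_202 : ℕ → ℕ → ℕ → ℕ → Bool := onCell 1073741824 536870912 0 67108864 1046898278 26843546
    (rowNX 3 0 true true true .pp 2 0 2 (qsf 1073741824 536870912 0 67108864 2) ndN3q2 ndN4q0 pcN2 Cut.none Ext.none)

def k0_pp_202 : ∃ t, chk3 f_pp_202 t 1 1 1 = true :=
  ⟨(l 5), by decide +kernel⟩

theorem c_pp_202 : CertNX 1073741824 536870912 0 67108864 1046898278 26843546 3 true true true .pp 2 0 2
    ndN3q2 ndN4q0 pcN2 Cut.none Ext.none :=
  certNX0 (fam := true) (s1 := true) (s2 := true) (a := 2) (b := 0) (c := 2) (cn := .pp) (n1 := ndN3q2) (n2 := ndN4q0) (pc := pcN2) (cut := Cut.none) (xt := Ext.none) (P1 := 1073741824) (W1 := 536870912) (P2 := 0) (W2 := 67108864) (P3 := 1046898278) (W3 := 26843546) (N0 := 3)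
    rfl k0_pp_202

noncomputable def f_pp_203 : ℕ → ℕ → ℕ → ℕ → Bool := onCell 1073741824 536870912 0 67108864 1046898278 26843546
    (rowNX 3 0 true true true .up 2 0 3 (qsf 1073741824 536870912 0 67108864 3) ndN3q2 ndN4q0 pcN3 Cut.none Ext.none)

def k0_pp_203 : ∃ t, chk3 f_pp_203 t 1 1 1 = true :=
  ⟨(l 5), by decide +kernel⟩

theorem c_pp_203 : CertNX 1073741824 536870912 0 67108864 1046898278 26843546 3 true true true .up 2 0 3
    ndN3q2 ndN4q0 pcN3 Cut.none Ext.none :=
  certNX0 (fam := true) (s1 := true) (s2 := true) (a := 2) (b := 0) (c := 3) (cn := .up) (n1 := ndN3q2) (n2 := ndN4q0) (pc := pcN3) (cut := Cut.none) (xt := Ext.none) (P1 := 1073741824) (W1 := 536870912) (P2 := 0) (W2 := 67108864) (P3 := 1046898278) (W3 := 26843546) (N0 := 3)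
    rfl k0_pp_203

noncomputable def f_pp_303 : ℕ → ℕ → ℕ → ℕ → Bool := onCell 1610612736 536870912 0 67108864 1046898278 26843546
    (rowNX 3 0 true true true .npn 3 0 3 (qsf 1610612736 536870912 0 67108864 3) ndN3q3 ndN4q0 pcN3 Cut.none Ext.none)

def k0_pp_303 : ∃ t, chk3 f_pp_303 t 1 1 1 = true :=
  ⟨(l 4), by decide +kernel⟩

theorem c_pp_303 : CertNX 1610612736 536870912 0 67108864 1046898278 26843546 3 true true true .npn 3 0 3
    ndN3q3 ndN4q0 pcN3 Cut.none Ext.none :=
  certNX0 (fam := true) (s1 := true) (s2 := true) (a := 3) (b := 0) (c := 3) (cn := .npn) (n1 := ndN3q3) (n2 := ndN4q0) (pc := pcN3) (cut := Cut.none) (xt := Ext.none) (P1 := 1610612736) (W1 := 536870912) (P2 := 0) (W2 := 67108864) (P3 := 1046898278) (W3 := 26843546) (N0 := 3)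
    rfl k0_pp_303

noncomputable def f_pm_001 : ℕ → ℕ → ℕ → ℕ → Bool := onCell 0 536870912 0 67108864 1046898278 26843546
    (rowNX 3 0 true true false .up 0 0 1 (qsf 0 536870912 0 67108864 1) ndN3q0 ndN4q0 pcN1 Cut.none Ext.none)

def k0_pm_001 : ∃ t, chk3 f_pm_001 t 1 1 1 = true :=
  ⟨(l 3), by decide +kernel⟩

theorem c_pm_001 : CertNX 0 536870912 0 67108864 1046898278 26843546 3 true true false .up 0 0 1
    ndN3q0 ndN4q0 pcN1 Cut.none Ext.none :=
  certNX0 (fam := true) (s1 := true) (s2 := false) (a := 0) (b := 0) (c := 1) (cn := .up) (n1 := ndN3q0) (n2 := ndN4q0) (pc := pcN1) (cut := Cut.none) (xt := Ext.none) (P1 := 0) (W1 := 536870912) (P2 := 0) (W2 := 67108864) (P3 := 1046898278) (W3 := 26843546) (N0 := 3)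
    rfl k0_pm_001

noncomputable def cut_pm_101 : Cut := Cut.of [[⟨0, 1, 0, 67108864⟩, ⟨1, 0, 0, 67108864⟩, ⟨2, 1, 0, 67108864⟩]]

noncomputable def f_pm_101 : ℕ → ℕ → ℕ → ℕ → Bool := onCell 536870912 536870912 0 67108864 1046898278 26843546
    (rowNX 3 0 true true false .npn 1 0 1 (qsf 536870912 536870912 0 67108864 1) ndN3q1 ndN4q0 pcN1 cut_pm_101 Ext.none)

def k0_pm_101 : ∃ t, chk3 f_pm_101 t 1 1 1 = true :=
  ⟨(a (l 3) (a (l 3) (a (l 3) (a (l 3) (b (l 6) (a (l 3) (l 2))))))), by decide +kernel⟩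

theorem c_pm_101 : CertNX 536870912 536870912 0 67108864 1046898278 26843546 3 true true false .npn 1 0 1
    ndN3q1 ndN4q0 pcN1 cut_pm_101 Ext.none :=
  certNX0 (fam := true) (s1 := true) (s2 := false) (a := 1) (b := 0) (c := 1) (cn := .npn) (n1 := ndN3q1) (n2 := ndN4q0) (pc := pcN1) (cut := cut_pm_101) (xt := Ext.none) (P1 := 536870912) (W1 := 536870912) (P2 := 0) (W2 := 67108864) (P3 := 1046898278) (W3 := 26843546) (N0 := 3)
    rfl k0_pm_101

noncomputable def cut_pm_102 : Cut := Cut.of [[⟨0, 1, 0, 67108864⟩, ⟨1, 0, 0, 67108864⟩, ⟨2, 1, 0, 67108864⟩]]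

noncomputable def f_pm_102 : ℕ → ℕ → ℕ → ℕ → Bool := onCell 536870912 536870912 0 67108864 1046898278 26843546
    (rowNX 3 0 true true false .npp 1 0 2 (qsf 536870912 536870912 0 67108864 2) ndN3q1 ndN4q0 pcN2 cut_pm_102 Ext.none)

def k0_pm_102 : ∃ t, chk3 f_pm_102 t 1 1 1 = true :=
  ⟨(a (l 1) (a (l 1) (a (l 3) (a (l 3) (b (l 6) (a (l 3) (b (l 6) (b (l 6) (b (l 6) (b (l 6) (c (a (l 3) (c (l 3) (l 15179896))) (a (c (l 1108266139703) (l 15351664)) (c (l 15205424) (a (l 15311224) (l 15216808))))))))))))))), by decide +kernel⟩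

theorem c_pm_102 : CertNX 536870912 536870912 0 67108864 1046898278 26843546 3 true true false .npp 1 0 2
    ndN3q1 ndN4q0 pcN2 cut_pm_102 Ext.none :=
  certNX0 (fam := true) (s1 := true) (s2 := false) (a := 1) (b := 0) (c := 2) (cn := .npp) (n1 := ndN3q1) (n2 := ndN4q0) (pc := pcN2) (cut := cut_pm_102) (xt := Ext.none) (P1 := 536870912) (W1 := 536870912) (P2 := 0) (W2 := 67108864) (P3 := 1046898278) (W3 := 26843546) (N0 := 3)
    rfl k0_pm_102

noncomputable def cut_pm_202 : Cut := Cut.of [[⟨0, 1, 0, 67108864⟩, ⟨1, 0, 0, 67108864⟩, ⟨2, 1, 0, 67108864⟩, ⟨3, 0, 0, 1233125376⟩]]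

noncomputable def f_pm_202 : ℕ → ℕ → ℕ → ℕ → Bool := onCell 1073741824 536870912 0 67108864 1046898278 26843546
    (rowNX 3 2 true true false .pp 2 0 2 (qsf 1073741824 536870912 0 67108864 2) ndN3q2 ndN4q0 pcN2 cut_pm_202 Ext.none)

def k0_pm_202 : ∃ t, chk3 f_pm_202 t 16 1 1 = true :=
  ⟨(b (l 6) (b (b (l 6) (l 1)) (l 1))), by decide +kernel⟩

def k1_pm_202 : ∃ t, chk3 f_pm_202 t 34 1 1 = true :=
  ⟨(b (b (l 6) (c (b (c (b (l 6) (a (l 6) (l 16526512))) (l 6)) (c (a (l 16529480) (l 16514512)) (a (l 6) (l 16561024)))) (l 6))) (b (c (c (a (l 16307528) (l 16224736)) (b (a (l 16305744) (c (l 16466552) (l 16434456))) (a (l 16212272) (l 16250192)))) (b (a (l 6) (c (l 16379768) (l 6))) (a (l 16270176) (c (l 16344544) (a (l 6) (l 16306752)))))) (b (c (c (l 16016584) (l 594347836007)) (l 595958499687)) (l 1)))), by decide +kernel⟩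

def k2_pm_202 : ∃ t, chk3 f_pm_202 t 35 1 1 = true :=
  ⟨(b (b (b (a (l 6) (a (l 6) (c (c (c (l 16254840) (l 16298880)) (b (l 16196608) (b (l 16283880) (l 16341248)))) (c (b (c (l 16148920) (b (l 16086176) (l 16147384))) (c (l 16251648) (l 16138040))) (b (c (b (c (l 16061536) (l 16046112)) (l 16080608)) (b (c (l 16025512) (c (l 16010568) (l 16000488))) (l 16056304))) (c (l 16156584) (l 16125176))))))) (a (b (l 6) (c (c (l 16526696) (l 6)) (l 6))) (c (c (c (b (l 16373904) (l 16537448)) (l 16356672)) (b (l 16357488) (l 16394312))) (c (c (l 16250336) (l 16309856)) (l 16166784))))) (c (c (b (c (l 16553512) (b (l 16519736) (l 16557536))) (c (l 16526152) (l 16651792))) (c (a (l 16419440) (l 16385048)) (l 16374824))) (c (b (b (l 16463432) (l 16531224)) (l 16524848)) (a (l 6) (l 16364072))))) (c (b (c (b (a (l 16477832) (l 16517344)) (a (l 16346464) (l 16301784))) (b (a (l 16439200) (l 16480024)) (a (l 16275128) (l 16330904)))) (c (b (a (l 16129208) (l 16038840)) (c (l 506837506503)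 (l 15925544))) (b (a (l 16147560) (l 16165776)) (l 15958000)))) (b (c (b (l 16414600) (a (l 16344320) (l 16355176))) (b (l 16519056) (a (l 16314168) (l 16392424)))) (a (b (c (l 16191648) (a (l 16226520) (l 16240584))) (l 16009152)) (b (c (l 16203336) (l 16240880)) (c (l 16018792) (l 15893984))))))), by decide +kernel⟩

def k3_pm_202 : ∃ t, chk3 f_pm_202 t 18 4 2 = true :=
  ⟨(b (a (c (a (b (a (l 16143656) (l 16064416)) (c (l 16064904) (l 16053544))) (b (l 15863160) (l 15808216))) (a (b (a (b (l 16082056) (l 16120968)) (l 15903992)) (c (a (l 16276512) (l 16141928)) (a (l 16240704) (l 15975056)))) (b (c (l 15790944) (l 15697128)) (c (l 15990440) (l 15919800))))) (c (b (c (l 15274776) (a (l 15570728) (l 15310288))) (c (a (l 15833232) (l 15591832)) (b (l 15447968) (l 15707040)))) (b (c (a (l 15508384) (l 15233952)) (a (l 15359160) (l 14989104))) (c (l 15589368) (l 15330512))))) (a (c (a (b (b (l 16380408) (l 16364968)) (l 16461712)) (b (a (b (l 16269712) (l 16276136)) (l 16128368))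 (a (l 16386064) (l 16233920)))) (b (a (l 16215968) (a (l 15986312) (l 16055336))) (a (l 16283992) (a (l 16246112) (l 16038576))))) (c (b (c (l 15864560) (l 15667640)) (l 15834768)) (b (c (l 15647720) (l 15679168)) (c (l 15901688) (l 15712584)))))), by decide +kernel⟩

def k4_pm_202 : ∃ t, chk3 f_pm_202 t 18 4 3 = true :=
  ⟨(c (b (a (a (b (c (a (b (l 16030760) (l 16109320)) (l 15923032)) (b (a (a (l 16032432) (l 15956240)) (l 15829952)) (a (l 16053120) (l 15932064)))) (b (a (l 16104232) (c (l 16065632) (l 16004872))) (c (l 16165192) (l 15991728)))) (b (b (c (l 15635952) (l 15413760)) (l 15714504)) (c (l 15792912) (l 15597368)))) (b (b (a (c (l 15325304) (l 15156232)) (c (l 15026400) (l 14954584))) (l 15066048)) (c (b (l 15398232) (l 15481312)) (b (l 15309968) (l 15382752))))) (a (a (c (l 16078720) (l 16151048)) (b (a (c (l 16024504) (l 15974456)) (l 15871960)) (a (l 16156256) (l 16063736)))) (b (c (l 15501832) (l 15472896)) (l 15565256)))) (c (a (b (b (a (a (b (c (l 15923472)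 (l 15926752)) (b (l 15951456) (l 16039776))) (b (l 15788656) (l 15854760))) (b (l 15532040) (l 15581136))) (a (a (l 16087824) (b (l 15879000) (l 16005176))) (l 15701424))) (a (l 16143864) (b (l 15658328) (l 15928768)))) (b (b (b (l 15036656) (l 14967672)) (l 15099456)) (l 15304672))) (a (b (b (b (a (c (a (b (l 15908408) (a (l 15986032) (l 15907976))) (l 15751576)) (c (b (l 15675640) (l 15649744)) (b (b (l 15737704) (l 15799104)) (l 15723232)))) (c (l 15487688) (l 15289200))) (a (a (c (l 15922344) (l 15966568)) (l 15819744)) (l 15557448))) (a (a (l 16052096) (b (l 15900600) (l 15968568))) (l 15692304))) (a (l 16143032) (b (l 15647576) (l 15890768)))) (b (b (b (c (l 14977984) (l 14769848)) (l 14987888)) (l 15197368)) (l 15337128))))), by decide +kernel⟩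

def k5_pm_202 : ∃ t, chk3 f_pm_202 t 18 5 1 = true :=
  ⟨(c (a (b (c (c (l 16419864) (a (l 16449272) (l 16292352))) (a (b (l 16351640) (l 16507504)) (l 16199312))) (a (l 16387792) (l 16311512))) (b (a (c (b (l 16095128) (a (l 16370760) (l 16210064))) (b (a (l 16102448) (l 16080376)) (l 16235640))) (c (l 15878632) (l 15809088))) (a (c (l 16453664) (l 16470656)) (b (c (a (l 16374904) (l 16314480)) (l 16212224)) (l 16240936))))) (a (c (b (a (c (l 16418440) (l 16354096)) (l 16224400)) (l 16331160)) (a (l 16195504) (l 16065312))) (b (a (c (b (l 15924864) (l 16078832)) (a (l 15960416) (l 15851320))) (c (l 15833288) (l 15757616))) (b (a (l 16144664) (c (l 16051056) (l 15987576))) (a (l 16258024) (a (l 16256528) (l 16080560))))))), by decide +kernel⟩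

def k6_pm_202 : ∃ t, chk3 f_pm_202 t 19 4 1 = true :=
  ⟨(c (b (a (a (c (a (b (c (l 15202696) (l 15119824)) (l 15212304)) (b (a (c (l 15114448) (l 15026376)) (c (l 14991000) (l 14774720))) (l 15277208))) (b (b (a (c (l 14980808) (l 14894360)) (a (l 14834416) (c (l 14841304) (l 14753224)))) (l 14994904)) (c (l 15211296) (l 15124176)))) (b (c (c (l 15005944) (b (l 15010296) (l 15074928))) (c (l 14869576) (l 14872480))) (c (l 15247008) (b (l 15026896) (l 15111824))))) (c (b (c (l 15357112) (l 15272904)) (l 15438144)) (l 15083744))) (a (c (a (b (b (l 15501456) (l 15518448)) (l 15696432)) (b (l 15411880) (l 15600608))) (a (b (l 15142256) (l 15376912)) (b (l 15226896) (l 15377416)))) (a (b (c (l 15428128) (l 15263856)) (c (l 15567992) (l 15343216))) (c (l 15498952) (l 15212344))))) (b (a (c (a (b (a (l 14830864) (l 14617784)) (c (l 15024984) (l 14688792))) (b (l 14736968) (b (l 14728640) (l 14733960)))) (a (b (c (b (l 14574488) (l 14655680)) (b (a (l 14526528) (a (l 14428256) (b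 (l 14356552) (l 14400304)))) (l 14573648))) (c (l 14819384) (l 14731360))) (b (c (b (l 14561488) (l 14615992)) (b (l 14355160) (l 14509008))) (c (l 14628400) (l 14619864))))) (c (b (l 14976296) (c (l 15121448) (l 15012768))) (b (c (l 14831456) (b (l 14710024) (l 14750632))) (l 14692416)))) (a (c (a (b (c (l 15187288) (l 15099080)) (l 15339800)) (b (l 15013088) (l 15205648))) (a (a (l 15151072) (l 14974976)) (l 14899408))) (c (b (c (l 15171536) (l 15079144)) (l 15001184)) (a (b (l 14874904) (l 15007272)) (l 15076304)))))), by decide +kernel⟩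

def k7_pm_202 : ∃ t, chk3 f_pm_202 t 19 5 1 = true :=
  ⟨(c (a (a (c (b (b (l 15850528) (l 15852096)) (b (l 16089912) (l 16329144))) (b (b (l 15611128) (l 15871416)) (a (l 16225248) (l 16128408)))) (b (c (l 15794672) (l 15653808)) (l 15900816))) (b (c (a (l 15622152) (b (l 15707904) (l 15787472))) (a (l 15583904) (l 15427328))) (c (l 15938464) (l 15956136)))) (a (a (b (c (l 15483704) (l 15406552)) (c (l 15843904) (l 15760064))) (c (b (l 15521808) (l 15929784)) (l 15407032))) (b (a (c (l 15449584) (l 15277192)) (c (l 15418120) (l 15286888))) (c (l 15758312) (l 15641224))))), by decide +kernel⟩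

def k8_pm_202 : ∃ t, chk3 f_pm_202 t 9 3 1 = true :=
  ⟨(a (c (b (a (c (b (l 16504640) (l 16335952)) (b (l 16388848) (l 16252528))) (a (b (l 16378224) (l 16147184)) (c (l 16280456) (l 16260128)))) (a (c (b (a (l 16155768) (l 16158464)) (c (l 15779560) (l 15966848))) (b (l 16171760) (a (l 16000744) (l 16014032)))) (c (b (l 16118208) (l 15782752)) (b (l 16166040) (l 15989112))))) (b (a (c (b (l 16456272) (l 16318592)) (b (l 16461336) (l 16372952))) (c (b (l 16439328) (l 16457920)) (b (l 16262504) (l 16496936)))) (a (a (c (b (l 16212760) (l 16045984)) (b (l 16259304) (l 16092328))) (c (l 16109408) (l 16175560))) (c (l 15912312) (b (l 16330864) (l 16162920)))))) (a (a (b (c (b (c (a (l 16517344) (l 16423080)) (a (l 16452392) (l 16269096))) (c (l 16215960) (l 16345480))) (c (b (a (l 16321792) (l 16129472)) (l 16505896)) (b (b (l 16001480) (a (l 16363040) (l 16242632))) (l 16430272)))) (c (c (b (l 16059544) (l 15834104)) (l 15815192)) (b (c (l 16281512) (l 16424032)) (l 15871376))))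 (b (c (b (l 16284456) (c (l 16139312) (l 16221296))) (b (l 16009080) (c (l 16429264) (l 16302304)))) (c (c (b (l 15982040) (l 15767888)) (l 15982208)) (b (l 16260544) (l 16069680))))) (b (a (c (b (l 16234680) (l 16080776)) (b (l 15954696) (l 16298488))) (c (b (l 16166800) (l 16149344)) (b (l 15924328) (l 16247288)))) (c (b (c (a (l 15924560) (l 15938992)) (l 15949000)) (c (a (l 15672336) (l 15595600)) (l 15766776))) (b (a (b (l 16281424) (l 16131192)) (l 16190608)) (a (l 15988056) (l 15731464))))))), by decide +kernel⟩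

def k9_pm_202 : ∃ t, chk3 f_pm_202 t 20 2 1 = true :=
  ⟨(a (b (c (b (c (l 15694480) (l 15423288)) (c (b (l 15795488) (l 15915120)) (b (l 15657696) (l 15695072)))) (b (c (b (l 15298928) (l 15263248)) (b (c (l 15157336) (l 14933504)) (l 15166928))) (c (l 15366104) (l 15322552)))) (b (c (c (l 15792872) (l 15756784)) (c (l 15666432) (l 15495928))) (c (c (a (l 15961056) (l 16165912)) (l 15835200)) (a (c (l 15756640) (l 15616768)) (l 15708328))))) (b (c (a (b (l 15564000) (c (l 15981720) (l 15797856))) (b (b (l 15510280) (a (l 15837064) (l 15804464))) (c (l 15827832) (l 15621128)))) (b (c (a (b (l 15489144) (l 15572392)) (b (l 15476920) (b (l 15583840) (l 15616048)))) (a (c (l 15251232) (l 15225896)) (b (c (l 15132856) (b (l 15220096) (l 15333288))) (l 15389504)))) (a (c (l 15665040) (l 15511960)) (c (l 15675920) (l 15543416))))) (c (a (b (c (l 16090040) (l 15943104)) (l 16050088)) (b (c (l 16000928) (l 15914384)) (l 15909208))) (a (c (l 15905040) (l 15748496)) (c (l 15822608)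 (l 15748528)))))), by decide +kernel⟩

def k10_pm_202 : ∃ t, chk3 f_pm_202 t 20 3 1 = true :=
  ⟨(a (b (c (b (c (a (l 16366696) (l 16380600)) (a (l 16240208) (l 16148888))) (c (l 16303352) (l 16395448))) (b (a (l 15815392) (c (l 16040960) (l 15903720))) (c (l 16313448) (l 16082144)))) (c (c (b (l 16010848) (l 15658408)) (b (l 16132088) (l 15784552))) (b (c (l 16277632) (l 16386304)) (l 15759520)))) (c (b (a (b (l 16284296) (c (l 16482008) (l 16408592))) (c (l 16363272) (l 16174488))) (a (c (b (l 16122328) (l 15896176)) (b (l 16341104) (l 16015032))) (b (c (l 16269568) (l 16388104)) (c (a (l 16093936) (l 16315368)) (l 16253272))))) (b (a (b (l 16020192) (c (l 16218632) (l 16038760))) (c (l 16094632) (l 16011856))) (a (b (c (l 16415504) (l 16272488)) (c (l 16143064) (l 16234240))) (b (a (c (l 16380152) (l 16157640)) (l 16196112)) (a (l 16244080) (l 16311992))))))), by decide +kernel⟩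

def k11_pm_202 : ∃ t, chk3 f_pm_202 t 21 1 1 = true :=
  ⟨(b (b (c (b (a (b (l 15448200) (l 15346744)) (c (l 15200272) (l 15102384))) (a (c (b (a (l 15881096) (l 15701104)) (l 15712440)) (b (l 15513496) (l 15501160))) (c (l 15310088) (l 15179184)))) (b (c (b (l 15018352) (a (l 15292408) (l 15046456))) (b (c (l 14924704) (b (l 14914048) (l 14970560))) (a (l 15250528) (l 14919256)))) (a (c (a (l 15498656) (l 15463480)) (a (l 15483336) (l 15353880))) (c (l 15185488) (l 15089960))))) (c (a (b (a (l 15778096) (b (l 15600856) (l 15823048))) (l 15890664)) (b (c (l 15499416) (l 15468704)) (a (l 15741296) (l 15601648)))) (a (a (l 15644280) (b (l 15478480) (l 15738360))) (b (l 15273528) (a (l 15638360) (l 15474344)))))) (c (b (a (c (l 16184000) (l 16031448)) (a (l 15949816) (b (l 15785432) (l 15901760)))) (b (a (l 16206584) (l 15978016)) (a (c (l 16266008) (l 16352000)) (c (l 16196352) (l 16109312))))) (b (a (l 15696496) (a (l 15801480) (l 15582536))) (a (b (l 16006328) (a (c (l 16379424)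 (l 16195512)) (l 16158800))) (l 15816736))))), by decide +kernel⟩

def k12_pm_202 : ∃ t, chk3 f_pm_202 t 11 1 1 = true :=
  ⟨(a (b (b (c (b (a (l 14544848) (l 14312400)) (c (a (l 15006648) (l 14617072)) (b (l 14625128) (l 14710032)))) (b (c (b (l 14416912) (a (l 14690824) (l 14329904))) (b (c (l 14351432) (l 14095768)) (l 14369416))) (c (a (l 14810248) (l 14430624)) (l 14552048)))) (c (c (b (a (l 15130936) (l 14697560)) (l 14804352)) (a (l 15155904) (l 14725368))) (a (l 14893832) (l 14653448)))) (c (b (a (a (b (l 15591608) (l 15754800)) (l 15450592)) (l 15027416)) (c (a (b (l 15801408) (l 15884392)) (b (l 15373664) (l 15383816))) (a (l 15778656) (l 15200688)))) (a (b (a (l 15404992) (l 15332192)) (a (l 15732744) (l 15591248))) (b (l 14991640) (a (l 15409104) (l 15186776)))))) (b (a (b (c (b (a (b (l 14116800) (l 14212344)) (l 14146744)) (a (c (l 14360648) (l 14268600)) (b (l 14244664) (l 14295048)))) (b (c (b (l 14028048) (a (l 14101960) (l 14075384))) (b (b (l 13944864) (l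 13955688)) (l 14008360))) (c (a (l 14190088) (l 14141672)) (l 14114648)))) (c (c (b (l 14399944) (l 14517768)) (l 14428064)) (l 14366840))) (b (c (b (l 14146400) (c (l 14296216) (l 14202944))) (b (c (l 14045272) (l 13973568)) (l 14087928))) (c (b (l 14237328) (l 14407992)) (l 14276824)))) (c (b (c (l 14719288) (l 14703440)) (a (c (l 15082664) (l 15062824)) (l 14969912))) (b (l 14620696) (l 14915872))))), by decide +kernel⟩

def k13_pm_202 : ∃ t, chk3 f_pm_202 t 3 1 1 = true :=
  ⟨(a (a (b (c (b (b (l 14146400) (c (l 14295992) (l 14202712))) (a (l 14337624) (l 14337520))) (b (b (c (l 14045272) (b (l 13950864) (l 13992120))) (l 14087688)) (l 14245112))) (a (c (b (a (l 14573072) (l 14544088)) (a (l 14865808) (l 14787512))) (b (l 14468488) (l 14712584))) (c (b (l 14543928) (l 14759784)) (l 14541000)))) (b (c (b (a (b (l 14146400) (l 14246648)) (l 14189640)) (a (l 14337520) (l 14337520))) (b (c (b (l 14045272) (l 14122960)) (c (l 14038384) (l 14003360))) (l 14245048))) (c (l 14644168)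 (b (l 14448496) (l 14639704))))) (b (b (c (b (l 14146400) (l 14246648)) (b (a (c (l 14045272) (l 13973568)) (l 14007072)) (c (l 14122960) (l 14069368)))) (c (l 14337520) (l 14245048))) (c (l 14644168) (l 14540928)))), by decide +kernel⟩

theorem s14_pm_202 : ∃ t, chk3 f_pm_202 t 20 1 1 = true := ex3_b k9_pm_202 k10_pm_202

theorem s15_pm_202 : ∃ t, chk3 f_pm_202 t 10 1 1 = true := ex3_a s14_pm_202 k11_pm_202

theorem s16_pm_202 : ∃ t, chk3 f_pm_202 t 5 1 1 = true := ex3_a s15_pm_202 k12_pm_202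

theorem s17_pm_202 : ∃ t, chk3 f_pm_202 t 19 2 1 = true := ex3_b k6_pm_202 k7_pm_202

theorem s18_pm_202 : ∃ t, chk3 f_pm_202 t 18 4 1 = true := ex3_c k3_pm_202 k4_pm_202

theorem s19_pm_202 : ∃ t, chk3 f_pm_202 t 18 2 1 = true := ex3_b s18_pm_202 k5_pm_202

theorem s20_pm_202 : ∃ t, chk3 f_pm_202 t 9 2 1 = true := ex3_a s19_pm_202 s17_pm_202

theorem s21_pm_202 : ∃ t, chk3 f_pm_202 t 9 1 1 = true := ex3_b s20_pm_202 k8_pm_202

theorem s22_pm_202 : ∃ t, chk3 f_pm_202 t 17 1 1 = true := ex3_a k1_pm_202 k2_pm_202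

theorem s23_pm_202 : ∃ t, chk3 f_pm_202 t 8 1 1 = true := ex3_a k0_pm_202 s22_pm_202

theorem s24_pm_202 : ∃ t, chk3 f_pm_202 t 4 1 1 = true := ex3_a s23_pm_202 s21_pm_202

theorem s25_pm_202 : ∃ t, chk3 f_pm_202 t 2 1 1 = true := ex3_a s24_pm_202 s16_pm_202

theorem s26_pm_202 : ∃ t, chk3 f_pm_202 t 1 1 1 = true := ex3_a s25_pm_202 k13_pm_202

theorem c_pm_202 : CertNX 1073741824 536870912 0 67108864 1046898278 26843546 3 true true false .pp 2 0 2
    ndN3q2 ndN4q0 pcN2 cut_pm_202 Ext.none :=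
  certNX2 (fam := true) (s1 := true) (s2 := false) (a := 2) (b := 0) (c := 2) (cn := .pp) (n1 := ndN3q2) (n2 := ndN4q0) (pc := pcN2) (cut := cut_pm_202) (xt := Ext.none) (P1 := 1073741824) (W1 := 536870912) (P2 := 0) (W2 := 67108864) (P3 := 1046898278) (W3 := 26843546) (N0 := 3)
    rfl (fun _ => rfl) s26_pm_202

noncomputable def f_pm_203 : ℕ → ℕ → ℕ → ℕ → Bool := onCell 1073741824 536870912 0 67108864 1046898278 26843546
    (rowNX 3 0 true true false .up 2 0 3 (qsf 1073741824 536870912 0 67108864 3) ndN3q2 ndN4q0 pcN3 Cut.none Ext.none)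

def k0_pm_203 : ∃ t, chk3 f_pm_203 t 1 1 1 = true :=
  ⟨(a (l 1) (a (l 1) (a (b (l 1) (l 894455612951)) (b (b (c (l 14189640) (l 1041020194423)) (l 14270512)) (l 14588440))))), by decide +kernel⟩

theorem c_pm_203 : CertNX 1073741824 536870912 0 67108864 1046898278 26843546 3 true true false .up 2 0 3
    ndN3q2 ndN4q0 pcN3 Cut.none Ext.none :=
  certNX0 (fam := true) (s1 := true) (s2 := false) (a := 2) (b := 0) (c := 3) (cn := .up) (n1 := ndN3q2) (n2 := ndN4q0) (pc := pcN3) (cut := Cut.none) (xt := Ext.none) (P1 := 1073741824) (W1 := 536870912) (P2 := 0) (W2 := 67108864) (P3 := 1046898278) (W3 := 26843546) (N0 := 3)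
    rfl k0_pm_203

noncomputable def f_pm_303 : ℕ → ℕ → ℕ → ℕ → Bool := onCell 1610612736 536870912 0 67108864 1046898278 26843546
    (rowNX 3 2 true true false .npn 3 0 3 (qsf 1610612736 536870912 0 67108864 3) ndN3q3 ndN4q0 pcN3 Cut.none Ext.none)

def k0_pm_303 : ∃ t, chk3 f_pm_303 t 1 1 1 = true :=
  ⟨(a (c (a (b (b (l 14168672) (l 14337520)) (l 14644168)) (b (a (b (l 14189640) (l 14337520)) (b (l 14189640) (l 14337520))) (a (l 14644168) (l 14644168)))) (a (b (b (c (l 14088448) (l 13914504)) (l 14245048)) (l 14540928)) (b (a (c (l 13928392) (l 14114080)) (b (c (l 14088448) (l 14019360)) (l 14245048))) (a (l 14540928) (l 14540928))))) (a (a (b (c (b (a (l 14189640) (l 14189624)) (l 14337520)) (b (c (l 14088440) (l 14019344)) (l 14245048))) (c (l 14644160) (l 14540920))) (l 4)) (l 4))), by decide +kernel⟩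

theorem c_pm_303 : CertNX 1610612736 536870912 0 67108864 1046898278 26843546 3 true true false .npn 3 0 3
    ndN3q3 ndN4q0 pcN3 Cut.none Ext.none :=
  certNX2 (fam := true) (s1 := true) (s2 := false) (a := 3) (b := 0) (c := 3) (cn := .npn) (n1 := ndN3q3) (n2 := ndN4q0) (pc := pcN3) (cut := Cut.none) (xt := Ext.none) (P1 := 1610612736) (W1 := 536870912) (P2 := 0) (W2 := 67108864) (P3 := 1046898278) (W3 := 26843546) (N0 := 3)
    rfl (fun _ => rfl) k0_pm_303

noncomputable def f_mm_001 : ℕ → ℕ → ℕ → ℕ → Bool := onCell 0 536870912 0 67108864 1046898278 26843546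
    (rowNX 3 0 true false false .up 0 0 1 (qsf 0 536870912 0 67108864 1) ndN3q0 ndN4q0 pcN1 Cut.none Ext.none)

def k0_mm_001 : ∃ t, chk3 f_mm_001 t 1 1 1 = true :=
  ⟨(l 4), by decide +kernel⟩

theorem c_mm_001 : CertNX 0 536870912 0 67108864 1046898278 26843546 3 true false false .up 0 0 1
    ndN3q0 ndN4q0 pcN1 Cut.none Ext.none :=
  certNX0 (fam := true) (s1 := false) (s2 := false) (a := 0) (b := 0) (c := 1) (cn := .up) (n1 := ndN3q0) (n2 := ndN4q0) (pc := pcN1) (cut := Cut.none) (xt := Ext.none) (P1 := 0) (W1 := 536870912) (P2 := 0) (W2 := 67108864) (P3 := 1046898278) (W3 := 26843546) (N0 := 3)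
    rfl k0_mm_001

noncomputable def f_mm_101 : ℕ → ℕ → ℕ → ℕ → Bool := onCell 536870912 536870912 0 67108864 1046898278 26843546
    (rowNX 3 0 true false false .npn 1 0 1 (qsf 536870912 536870912 0 67108864 1) ndN3q1 ndN4q0 pcN1 Cut.none Ext.none)

def k0_mm_101 : ∃ t, chk3 f_mm_101 t 1 1 1 = true :=
  ⟨(l 4), by decide +kernel⟩

theorem c_mm_101 : CertNX 536870912 536870912 0 67108864 1046898278 26843546 3 true false false .npn 1 0 1
    ndN3q1 ndN4q0 pcN1 Cut.none Ext.none :=
  certNX0 (fam := true) (s1 := false) (s2 := false) (a := 1) (b := 0) (c := 1) (cn := .npn) (n1 := ndN3q1) (n2 := ndN4q0) (pc := pcN1) (cut := Cut.none) (xt := Ext.none) (P1 := 536870912) (W1 := 536870912) (P2 := 0) (W2 := 67108864) (P3 := 1046898278) (W3 := 26843546) (N0 := 3)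
    rfl k0_mm_101

noncomputable def f_mm_102 : ℕ → ℕ → ℕ → ℕ → Bool := onCell 536870912 536870912 0 67108864 1046898278 26843546
    (rowNX 3 0 true false false .npp 1 0 2 (qsf 536870912 536870912 0 67108864 2) ndN3q1 ndN4q0 pcN2 Cut.none Ext.none)

def k0_mm_102 : ∃ t, chk3 f_mm_102 t 1 1 1 = true :=
  ⟨(l 4), by decide +kernel⟩

theorem c_mm_102 : CertNX 536870912 536870912 0 67108864 1046898278 26843546 3 true false false .npp 1 0 2
    ndN3q1 ndN4q0 pcN2 Cut.none Ext.none :=
  certNX0 (fam := true) (s1 := false) (s2 := false) (a := 1) (b := 0) (c := 2) (cn := .npp) (n1 := ndN3q1) (n2 := ndN4q0) (pc := pcN2) (cut := Cut.none) (xt := Ext.none) (P1 := 536870912) (W1 := 536870912) (P2 := 0) (W2 := 67108864) (P3 := 1046898278) (W3 := 26843546) (N0 := 3)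
    rfl k0_mm_102

noncomputable def cut_mm_202 : Cut := Cut.of [[⟨0, 1, 0, 67108864⟩, ⟨1, 0, 0, 67108864⟩, ⟨2, 1, 0, 67108864⟩]]

noncomputable def f_mm_202 : ℕ → ℕ → ℕ → ℕ → Bool := onCell 1073741824 536870912 0 67108864 1046898278 26843546
    (rowNX 3 2 true false false .pp 2 0 2 (qsf 1073741824 536870912 0 67108864 2) ndN3q2 ndN4q0 pcN2 cut_mm_202 Ext.none)

def k0_mm_202 : ∃ t, chk3 f_mm_202 t 1 1 1 = true :=
  ⟨(a (a (a (a (b (l 6) (l 4)) (l 4)) (l 4)) (l 4)) (l 4)), by decide +kernel⟩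

theorem c_mm_202 : CertNX 1073741824 536870912 0 67108864 1046898278 26843546 3 true false false .pp 2 0 2
    ndN3q2 ndN4q0 pcN2 cut_mm_202 Ext.none :=
  certNX2 (fam := true) (s1 := false) (s2 := false) (a := 2) (b := 0) (c := 2) (cn := .pp) (n1 := ndN3q2) (n2 := ndN4q0) (pc := pcN2) (cut := cut_mm_202) (xt := Ext.none) (P1 := 1073741824) (W1 := 536870912) (P2 := 0) (W2 := 67108864) (P3 := 1046898278) (W3 := 26843546) (N0 := 3)
    rfl (fun _ => rfl) k0_mm_202

noncomputable def f_mm_203 : ℕ → ℕ → ℕ → ℕ → Bool := onCell 1073741824 536870912 1610612736 536870912 1046898278 26843546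
    (rowNX 3 1 true false false .up 2 0 3 (qsf 1073741824 536870912 0 67108864 3) ndN3q2 ndN4q0 pcN3 Cut.none Ext.none)

def k0_mm_203 : ∃ t, chk3 f_mm_203 t 1 1 1 = true :=
  ⟨(l 4), by decide +kernel⟩

theorem c_mm_203 : CertNX 1073741824 536870912 0 67108864 1046898278 26843546 3 true false false .up 2 0 3
    ndN3q2 ndN4q0 pcN3 Cut.none Ext.none :=
  certNX1 (fam := true) (s1 := false) (s2 := false) (a := 2) (b := 0) (c := 3) (cn := .up) (n1 := ndN3q2) (n2 := ndN4q0) (pc := pcN3) (cut := Cut.none) (xt := Ext.none) (P1 := 1073741824) (W1 := 536870912) (P2 := 0) (W2 := 67108864) (P3 := 1046898278) (W3 := 26843546) (N0 := 3)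
    rfl (fun _ => rfl) k0_mm_203

noncomputable def f_mm_303 : ℕ → ℕ → ℕ → ℕ → Bool := onCell 1610612736 536870912 0 67108864 1046898278 26843546
    (rowNX 3 0 true false false .npn 3 0 3 (qsf 1610612736 536870912 0 67108864 3) ndN3q3 ndN4q0 pcN3 Cut.none Ext.none)

def k0_mm_303 : ∃ t, chk3 f_mm_303 t 1 1 1 = true :=
  ⟨(l 4), by decide +kernel⟩

theorem c_mm_303 : CertNX 1610612736 536870912 0 67108864 1046898278 26843546 3 true false false .npn 3 0 3
    ndN3q3 ndN4q0 pcN3 Cut.none Ext.none :=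
  certNX0 (fam := true) (s1 := false) (s2 := false) (a := 3) (b := 0) (c := 3) (cn := .npn) (n1 := ndN3q3) (n2 := ndN4q0) (pc := pcN3) (cut := Cut.none) (xt := Ext.none) (P1 := 1610612736) (W1 := 536870912) (P2 := 0) (W2 := 67108864) (P3 := 1046898278) (W3 := 26843546) (N0 := 3)
    rfl k0_mm_303

end Pool.Agent.Strip051.G.IE1.Tab.C.NA34

namespace Pool.Agent.Strip051.G.IE1.Tab.C.NA35

open Pool.Agent.Strip051.PB Pool.Agent.Strip051.PB.T
open Pool.Agent.Strip051.G.IE1.Tab

noncomputable def f_pp_001 : ℕ → ℕ → ℕ → ℕ → Bool := onCell 0 536870912 0 536870912 1046898278 26843546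
    (rowNX 3 0 true true true .up 0 0 1 (qsf 0 536870912 0 536870912 1) ndN3q0 ndN5q0 pcN1 Cut.none Ext.none)

def k0_pp_001 : ∃ t, chk3 f_pp_001 t 1 1 1 = true :=
  ⟨(l 4), by decide +kernel⟩

theorem c_pp_001 : CertNX 0 536870912 0 536870912 1046898278 26843546 3 true true true .up 0 0 1
    ndN3q0 ndN5q0 pcN1 Cut.none Ext.none :=
  certNX0 (fam := true) (s1 := true) (s2 := true) (a := 0) (b := 0) (c := 1) (cn := .up) (n1 := ndN3q0) (n2 := ndN5q0) (pc := pcN1) (cut := Cut.none) (xt := Ext.none) (P1 := 0) (W1 := 536870912) (P2 := 0) (W2 := 536870912) (P3 := 1046898278) (W3 := 26843546) (N0 := 3)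
    rfl k0_pp_001

noncomputable def f_pp_011 : ℕ → ℕ → ℕ → ℕ → Bool := onCell 0 536870912 536870912 469762048 1046898278 26843546
    (rowNX 3 0 true true true .pnn 0 1 1 (qsf 0 536870912 536870912 469762048 1) ndN3q0 ndN5q1 pcN1 Cut.none Ext.none)

def k0_pp_011 : ∃ t, chk3 f_pp_011 t 1 1 1 = true :=
  ⟨(l 4), by decide +kernel⟩

theorem c_pp_011 : CertNX 0 536870912 536870912 469762048 1046898278 26843546 3 true true true .pnn 0 1 1
    ndN3q0 ndN5q1 pcN1 Cut.none Ext.none :=
  certNX0 (fam := true) (s1 := true) (s2 := true) (a := 0) (b := 1) (c := 1) (cn := .pnn) (n1 := ndN3q0) (n2 := ndN5q1) (pc := pcN1) (cut := Cut.none) (xt := Ext.none) (P1 := 0) (W1 := 536870912) (P2 := 536870912) (W2 := 469762048) (P3 := 1046898278) (W3 := 26843546) (N0 := 3)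
    rfl k0_pp_011

noncomputable def f_pp_012 : ℕ → ℕ → ℕ → ℕ → Bool := onCell 0 536870912 536870912 469762048 1046898278 26843546
    (rowNX 3 0 true true true .pnp 0 1 2 (qsf 0 536870912 536870912 469762048 2) ndN3q0 ndN5q1 pcN2 Cut.none Ext.none)

def k0_pp_012 : ∃ t, chk3 f_pp_012 t 1 1 1 = true :=
  ⟨(l 4), by decide +kernel⟩

theorem c_pp_012 : CertNX 0 536870912 536870912 469762048 1046898278 26843546 3 true true true .pnp 0 1 2
    ndN3q0 ndN5q1 pcN2 Cut.none Ext.none :=
  certNX0 (fam := true) (s1 := true) (s2 := true) (a := 0) (b := 1) (c := 2) (cn := .pnp) (n1 := ndN3q0) (n2 := ndN5q1) (pc := pcN2) (cut := Cut.none) (xt := Ext.none) (P1 := 0) (W1 := 536870912) (P2 := 536870912) (W2 := 469762048) (P3 := 1046898278) (W3 := 26843546) (N0 := 3)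
    rfl k0_pp_012

noncomputable def f_pp_022 : ℕ → ℕ → ℕ → ℕ → Bool := onCell 0 536870912 1073741824 536870912 1046898278 26843546
    (rowNX 3 0 true true true .pp 0 2 2 (qsf 0 536870912 1073741824 536870912 2) ndN3q0 ndN5q2 pcN2 Cut.none Ext.none)

def k0_pp_022 : ∃ t, chk3 f_pp_022 t 1 1 1 = true :=
  ⟨(l 4), by decide +kernel⟩

theorem c_pp_022 : CertNX 0 536870912 1073741824 536870912 1046898278 26843546 3 true true true .pp 0 2 2
    ndN3q0 ndN5q2 pcN2 Cut.none Ext.none :=
  certNX0 (fam := true) (s1 := true) (s2 := true) (a := 0) (b := 2) (c := 2) (cn := .pp) (n1 := ndN3q0) (n2 := ndN5q2) (pc := pcN2) (cut := Cut.none) (xt := Ext.none) (P1 := 0) (W1 := 536870912) (P2 := 1073741824) (W2 := 536870912) (P3 := 1046898278) (W3 := 26843546) (N0 := 3)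
    rfl k0_pp_022

noncomputable def f_pp_023 : ℕ → ℕ → ℕ → ℕ → Bool := onCell 0 536870912 1073741824 536870912 1046898278 26843546
    (rowNX 3 0 true true true .up 0 2 3 (qsf 0 536870912 1073741824 536870912 3) ndN3q0 ndN5q2 pcN3 Cut.none Ext.none)

def k0_pp_023 : ∃ t, chk3 f_pp_023 t 1 1 1 = true :=
  ⟨(l 4), by decide +kernel⟩

theorem c_pp_023 : CertNX 0 536870912 1073741824 536870912 1046898278 26843546 3 true true true .up 0 2 3
    ndN3q0 ndN5q2 pcN3 Cut.none Ext.none :=
  certNX0 (fam := true) (s1 := true) (s2 := true) (a := 0) (b := 2) (c := 3) (cn := .up) (n1 := ndN3q0) (n2 := ndN5q2) (pc := pcN3) (cut := Cut.none) (xt := Ext.none) (P1 := 0) (W1 := 536870912) (P2 := 1073741824) (W2 := 536870912) (P3 := 1046898278) (W3 := 26843546) (N0 := 3)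
    rfl k0_pp_023

noncomputable def f_pp_033 : ℕ → ℕ → ℕ → ℕ → Bool := onCell 0 536870912 0 1230186008 1046898278 26843546
    (rowNX 3 0 true true true .pnn 0 3 3 (qsf 0 536870912 0 1230186008 3) ndN3q0 ndN5q3 pcN3 Cut.none Ext.none)

def k0_pp_033 : ∃ t, chk3 f_pp_033 t 1 1 1 = true :=
  ⟨(b (l 4) (l 4)), by decide +kernel⟩

theorem c_pp_033 : CertNX 0 536870912 0 1230186008 1046898278 26843546 3 true true true .pnn 0 3 3
    ndN3q0 ndN5q3 pcN3 Cut.none Ext.none :=
  certNX0 (fam := true) (s1 := true) (s2 := true) (a := 0) (b := 3) (c := 3) (cn := .pnn) (n1 := ndN3q0) (n2 := ndN5q3) (pc := pcN3) (cut := Cut.none) (xt := Ext.none) (P1 := 0) (W1 := 536870912) (P2 := 0) (W2 := 1230186008) (P3 := 1046898278) (W3 := 26843546) (N0 := 3)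
    rfl k0_pp_033

noncomputable def f_pp_101 : ℕ → ℕ → ℕ → ℕ → Bool := onCell 536870912 536870912 0 536870912 1046898278 26843546
    (rowNX 3 0 true true true .npn 1 0 1 (qsf 536870912 536870912 0 536870912 1) ndN3q1 ndN5q0 pcN1 Cut.none Ext.none)

def k0_pp_101 : ∃ t, chk3 f_pp_101 t 1 1 1 = true :=
  ⟨(l 4), by decide +kernel⟩

theorem c_pp_101 : CertNX 536870912 536870912 0 536870912 1046898278 26843546 3 true true true .npn 1 0 1
    ndN3q1 ndN5q0 pcN1 Cut.none Ext.none :=
  certNX0 (fam := true) (s1 := true) (s2 := true) (a := 1) (b := 0) (c := 1) (cn := .npn) (n1 := ndN3q1) (n2 := ndN5q0) (pc := pcN1) (cut := Cut.none) (xt := Ext.none) (P1 := 536870912) (W1 := 536870912) (P2 := 0) (W2 := 536870912) (P3 := 1046898278) (W3 := 26843546) (N0 := 3)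
    rfl k0_pp_101

noncomputable def f_pp_102 : ℕ → ℕ → ℕ → ℕ → Bool := onCell 536870912 536870912 0 536870912 1046898278 26843546
    (rowNX 3 0 true true true .npp 1 0 2 (qsf 536870912 536870912 0 536870912 2) ndN3q1 ndN5q0 pcN2 Cut.none Ext.none)

def k0_pp_102 : ∃ t, chk3 f_pp_102 t 1 1 1 = true :=
  ⟨(l 4), by decide +kernel⟩

theorem c_pp_102 : CertNX 536870912 536870912 0 536870912 1046898278 26843546 3 true true true .npp 1 0 2
    ndN3q1 ndN5q0 pcN2 Cut.none Ext.none :=
  certNX0 (fam := true) (s1 := true) (s2 := true) (a := 1) (b := 0) (c := 2) (cn := .npp) (n1 := ndN3q1) (n2 := ndN5q0) (pc := pcN2) (cut := Cut.none) (xt := Ext.none) (P1 := 536870912) (W1 := 536870912) (P2 := 0) (W2 := 536870912) (P3 := 1046898278) (W3 := 26843546) (N0 := 3)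
    rfl k0_pp_102

noncomputable def f_pp_112 : ℕ → ℕ → ℕ → ℕ → Bool := onCell 536870912 536870912 536870912 469762048 1046898278 26843546
    (rowNX 3 0 true true true .dn 1 1 2 (qsf 536870912 536870912 536870912 469762048 2) ndN3q1 ndN5q1 pcN2 Cut.none Ext.none)

def k0_pp_112 : ∃ t, chk3 f_pp_112 t 1 1 1 = true :=
  ⟨(l 4), by decide +kernel⟩

theorem c_pp_112 : CertNX 536870912 536870912 536870912 469762048 1046898278 26843546 3 true true true .dn 1 1 2
    ndN3q1 ndN5q1 pcN2 Cut.none Ext.none :=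
  certNX0 (fam := true) (s1 := true) (s2 := true) (a := 1) (b := 1) (c := 2) (cn := .dn) (n1 := ndN3q1) (n2 := ndN5q1) (pc := pcN2) (cut := Cut.none) (xt := Ext.none) (P1 := 536870912) (W1 := 536870912) (P2 := 536870912) (W2 := 469762048) (P3 := 1046898278) (W3 := 26843546) (N0 := 3)
    rfl k0_pp_112

noncomputable def f_pp_113 : ℕ → ℕ → ℕ → ℕ → Bool := onCell 536870912 536870912 536870912 469762048 1046898278 26843546
    (rowNX 3 0 true true true .nn 1 1 3 (qsf 536870912 536870912 536870912 469762048 3) ndN3q1 ndN5q1 pcN3 Cut.none Ext.none)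

def k0_pp_113 : ∃ t, chk3 f_pp_113 t 1 1 1 = true :=
  ⟨(l 4), by decide +kernel⟩

theorem c_pp_113 : CertNX 536870912 536870912 536870912 469762048 1046898278 26843546 3 true true true .nn 1 1 3
    ndN3q1 ndN5q1 pcN3 Cut.none Ext.none :=
  certNX0 (fam := true) (s1 := true) (s2 := true) (a := 1) (b := 1) (c := 3) (cn := .nn) (n1 := ndN3q1) (n2 := ndN5q1) (pc := pcN3) (cut := Cut.none) (xt := Ext.none) (P1 := 536870912) (W1 := 536870912) (P2 := 536870912) (W2 := 469762048) (P3 := 1046898278) (W3 := 26843546) (N0 := 3)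
    rfl k0_pp_113

noncomputable def f_pp_123 : ℕ → ℕ → ℕ → ℕ → Bool := onCell 536870912 536870912 1073741824 536870912 1046898278 26843546
    (rowNX 3 0 true true true .npn 1 2 3 (qsf 536870912 536870912 1073741824 536870912 3) ndN3q1 ndN5q2 pcN3 Cut.none Ext.none)

def k0_pp_123 : ∃ t, chk3 f_pp_123 t 1 1 1 = true :=
  ⟨(l 4), by decide +kernel⟩

theorem c_pp_123 : CertNX 536870912 536870912 1073741824 536870912 1046898278 26843546 3 true true true .npn 1 2 3
    ndN3q1 ndN5q2 pcN3 Cut.none Ext.none :=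
  certNX0 (fam := true) (s1 := true) (s2 := true) (a := 1) (b := 2) (c := 3) (cn := .npn) (n1 := ndN3q1) (n2 := ndN5q2) (pc := pcN3) (cut := Cut.none) (xt := Ext.none) (P1 := 536870912) (W1 := 536870912) (P2 := 1073741824) (W2 := 536870912) (P3 := 1046898278) (W3 := 26843546) (N0 := 3)
    rfl k0_pp_123

noncomputable def f_pp_133 : ℕ → ℕ → ℕ → ℕ → Bool := onCell 536870912 536870912 0 1230186008 1046898278 26843546
    (rowNX 3 0 true true true .dn 1 3 3 (qsf 536870912 536870912 0 1230186008 3) ndN3q1 ndN5q3 pcN3 Cut.none Ext.none)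

def k0_pp_133 : ∃ t, chk3 f_pp_133 t 1 1 1 = true :=
  ⟨(l 4), by decide +kernel⟩

theorem c_pp_133 : CertNX 536870912 536870912 0 1230186008 1046898278 26843546 3 true true true .dn 1 3 3
    ndN3q1 ndN5q3 pcN3 Cut.none Ext.none :=
  certNX0 (fam := true) (s1 := true) (s2 := true) (a := 1) (b := 3) (c := 3) (cn := .dn) (n1 := ndN3q1) (n2 := ndN5q3) (pc := pcN3) (cut := Cut.none) (xt := Ext.none) (P1 := 536870912) (W1 := 536870912) (P2 := 0) (W2 := 1230186008) (P3 := 1046898278) (W3 := 26843546) (N0 := 3)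
    rfl k0_pp_133

noncomputable def f_pp_202 : ℕ → ℕ → ℕ → ℕ → Bool := onCell 1073741824 536870912 0 536870912 1046898278 26843546
    (rowNX 3 0 true true true .pp 2 0 2 (qsf 1073741824 536870912 0 536870912 2) ndN3q2 ndN5q0 pcN2 Cut.none Ext.none)

def k0_pp_202 : ∃ t, chk3 f_pp_202 t 1 1 1 = true :=
  ⟨(l 5), by decide +kernel⟩

theorem c_pp_202 : CertNX 1073741824 536870912 0 536870912 1046898278 26843546 3 true true true .pp 2 0 2
    ndN3q2 ndN5q0 pcN2 Cut.none Ext.none :=
  certNX0 (fam := true) (s1 := true) (s2 := true) (a := 2) (b := 0) (c := 2) (cn := .pp) (n1 := ndN3q2) (n2 := ndN5q0) (pc := pcN2) (cut := Cut.none) (xt := Ext.none) (P1 := 1073741824) (W1 := 536870912) (P2 := 0) (W2 := 536870912) (P3 := 1046898278) (W3 := 26843546) (N0 := 3)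
    rfl k0_pp_202

noncomputable def f_pp_203 : ℕ → ℕ → ℕ → ℕ → Bool := onCell 1073741824 536870912 0 536870912 1046898278 26843546
    (rowNX 3 0 true true true .up 2 0 3 (qsf 1073741824 536870912 0 536870912 3) ndN3q2 ndN5q0 pcN3 Cut.none Ext.none)

def k0_pp_203 : ∃ t, chk3 f_pp_203 t 1 1 1 = true :=
  ⟨(l 5), by decide +kernel⟩

theorem c_pp_203 : CertNX 1073741824 536870912 0 536870912 1046898278 26843546 3 true true true .up 2 0 3
    ndN3q2 ndN5q0 pcN3 Cut.none Ext.none :=
  certNX0 (fam := true) (s1 := true) (s2 := true) (a := 2) (b := 0) (c := 3) (cn := .up) (n1 := ndN3q2) (n2 := ndN5q0) (pc := pcN3) (cut := Cut.none) (xt := Ext.none) (P1 := 1073741824) (W1 := 536870912) (P2 := 0) (W2 := 536870912) (P3 := 1046898278) (W3 := 26843546) (N0 := 3)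
    rfl k0_pp_203

noncomputable def f_pp_213 : ℕ → ℕ → ℕ → ℕ → Bool := onCell 1073741824 536870912 536870912 469762048 1046898278 26843546
    (rowNX 3 0 true true true .pnn 2 1 3 (qsf 1073741824 536870912 536870912 469762048 3) ndN3q2 ndN5q1 pcN3 Cut.none Ext.none)

def k0_pp_213 : ∃ t, chk3 f_pp_213 t 1 1 1 = true :=
  ⟨(l 4), by decide +kernel⟩

theorem c_pp_213 : CertNX 1073741824 536870912 536870912 469762048 1046898278 26843546 3 true true true .pnn 2 1 3
    ndN3q2 ndN5q1 pcN3 Cut.none Ext.none :=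
  certNX0 (fam := true) (s1 := true) (s2 := true) (a := 2) (b := 1) (c := 3) (cn := .pnn) (n1 := ndN3q2) (n2 := ndN5q1) (pc := pcN3) (cut := Cut.none) (xt := Ext.none) (P1 := 1073741824) (W1 := 536870912) (P2 := 536870912) (W2 := 469762048) (P3 := 1046898278) (W3 := 26843546) (N0 := 3)
    rfl k0_pp_213

noncomputable def f_pp_303 : ℕ → ℕ → ℕ → ℕ → Bool := onCell 1610612736 536870912 0 536870912 1046898278 26843546
    (rowNX 3 0 true true true .npn 3 0 3 (qsf 1610612736 536870912 0 536870912 3) ndN3q3 ndN5q0 pcN3 Cut.none Ext.none)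

def k0_pp_303 : ∃ t, chk3 f_pp_303 t 1 1 1 = true :=
  ⟨(l 4), by decide +kernel⟩

theorem c_pp_303 : CertNX 1610612736 536870912 0 536870912 1046898278 26843546 3 true true true .npn 3 0 3
    ndN3q3 ndN5q0 pcN3 Cut.none Ext.none :=
  certNX0 (fam := true) (s1 := true) (s2 := true) (a := 3) (b := 0) (c := 3) (cn := .npn) (n1 := ndN3q3) (n2 := ndN5q0) (pc := pcN3) (cut := Cut.none) (xt := Ext.none) (P1 := 1610612736) (W1 := 536870912) (P2 := 0) (W2 := 536870912) (P3 := 1046898278) (W3 := 26843546) (N0 := 3)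
    rfl k0_pp_303

noncomputable def f_pp_313 : ℕ → ℕ → ℕ → ℕ → Bool := onCell 1610612736 536870912 536870912 469762048 1046898278 26843546
    (rowNX 3 0 true true true .dn 3 1 3 (qsf 1610612736 536870912 536870912 469762048 3) ndN3q3 ndN5q1 pcN3 Cut.none Ext.none)

def k0_pp_313 : ∃ t, chk3 f_pp_313 t 1 1 1 = true :=
  ⟨(l 4), by decide +kernel⟩

theorem c_pp_313 : CertNX 1610612736 536870912 536870912 469762048 1046898278 26843546 3 true true true .dn 3 1 3
    ndN3q3 ndN5q1 pcN3 Cut.none Ext.none :=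
  certNX0 (fam := true) (s1 := true) (s2 := true) (a := 3) (b := 1) (c := 3) (cn := .dn) (n1 := ndN3q3) (n2 := ndN5q1) (pc := pcN3) (cut := Cut.none) (xt := Ext.none) (P1 := 1610612736) (W1 := 536870912) (P2 := 536870912) (W2 := 469762048) (P3 := 1046898278) (W3 := 26843546) (N0 := 3)
    rfl k0_pp_313

noncomputable def f_pm_001 : ℕ → ℕ → ℕ → ℕ → Bool := onCell 0 536870912 0 536870912 1046898278 26843546
    (rowNX 3 0 true true false .up 0 0 1 (qsf 0 536870912 0 536870912 1) ndN3q0 ndN5q0 pcN1 Cut.none Ext.none)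

def k0_pm_001 : ∃ t, chk3 f_pm_001 t 1 1 1 = true :=
  ⟨(b (l 3) (l 3)), by decide +kernel⟩

theorem c_pm_001 : CertNX 0 536870912 0 536870912 1046898278 26843546 3 true true false .up 0 0 1
    ndN3q0 ndN5q0 pcN1 Cut.none Ext.none :=
  certNX0 (fam := true) (s1 := true) (s2 := false) (a := 0) (b := 0) (c := 1) (cn := .up) (n1 := ndN3q0) (n2 := ndN5q0) (pc := pcN1) (cut := Cut.none) (xt := Ext.none) (P1 := 0) (W1 := 536870912) (P2 := 0) (W2 := 536870912) (P3 := 1046898278) (W3 := 26843546) (N0 := 3)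
    rfl k0_pm_001

noncomputable def f_pm_011 : ℕ → ℕ → ℕ → ℕ → Bool := onCell 0 536870912 536870912 536870912 1046898278 26843546
    (rowNX 3 1 true true false .pnn 0 1 1 (qsf 0 536870912 536870912 469762048 1) ndN3q0 ndN5q1 pcN1 Cut.none Ext.none)

def k0_pm_011 : ∃ t, chk3 f_pm_011 t 1 1 1 = true :=
  ⟨(b (l 3) (a (b (l 3) (a (b (l 3) (a (b (l 3) (a (b (l 3) (l 2)) (l 3))) (l 3))) (l 3))) (l 3))), by decide +kernel⟩

theorem c_pm_011 : CertNX 0 536870912 536870912 469762048 1046898278 26843546 3 true true false .pnn 0 1 1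
    ndN3q0 ndN5q1 pcN1 Cut.none Ext.none :=
  certNX1 (fam := true) (s1 := true) (s2 := false) (a := 0) (b := 1) (c := 1) (cn := .pnn) (n1 := ndN3q0) (n2 := ndN5q1) (pc := pcN1) (cut := Cut.none) (xt := Ext.none) (P1 := 0) (W1 := 536870912) (P2 := 536870912) (W2 := 469762048) (P3 := 1046898278) (W3 := 26843546) (N0 := 3)
    rfl (fun _ => rfl) k0_pm_011

noncomputable def f_pm_012 : ℕ → ℕ → ℕ → ℕ → Bool := onCell 1073741824 536870912 536870912 469762048 1046898278 26843546
    (rowNX 3 2 true true false .pnp 0 1 2 (qsf 0 536870912 536870912 469762048 2) ndN3q0 ndN5q1 pcN2 Cut.none Ext.none)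

def k0_pm_012 : ∃ t, chk3 f_pm_012 t 1 2 1 = true :=
  ⟨(a (a (l 3) (b (l 2) (a (a (a (l 3) (a (l 1306911568695) (a (l 16777088) (a (l 16772496) (c (l 16766656) (l 16766288)))))) (l 16771216)) (l 16776800)))) (l 2)), by decide +kernel⟩

def k1_pm_012 : ∃ t, chk3 f_pm_012 t 1 3 1 = true :=
  ⟨(a (a (a (b (l 3) (l 3)) (b (l 3) (a (b (l 3) (b (l 3) (a (l 3) (c (c (l 738359486471) (l 14085776)) (l 14009488))))) (b (a (l 3) (b (a (l 3) (l 15096560)) (a (l 14301144) (l 14300760)))) (a (a (b (l 3) (c (b (l 13805216) (l 14054808)) (l 13831264))) (b (b (l 3) (l 13496640)) (c (l 13895024) (l 13787272)))) (b (c (b (l 13739208) (l 13512424)) (b (l 13632568) (l 13396936))) (c (a (l 13863792) (l 13827288)) (l 13731360)))))))) (b (a (a (a (b (l 919290764791) (c (b (l 16579632) (l 15886032)) (b (l 16572696) (l 15854744)))) (b (a (l 16776800) (a (l 16771184) (c (a (l 16757040) (l 16730600)) (a (l 16756336) (l 16728968))))) (a (a (l 15999056) (b (l 16576552) (l 15866336))) (a (c (b (l 16572728)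 (l 15864776)) (b (l 16565480) (l 15832568))) (b (l 16537776) (l 15808760)))))) (b (l 16739096) (l 16188360))) (b (l 16774688) (l 16162960))) (a (a (a (b (b (a (l 15096256) (l 15095944)) (a (l 14300224) (l 14292944))) (b (c (a (l 13439680) (b (l 13720272) (l 13449264))) (a (l 13495688) (l 13473168))) (a (c (l 13780040) (l 13667976)) (l 13649824)))) (b (a (b (c (l 15089576) (l 14989024)) (a (l 14277368) (l 14244240))) (a (b (l 15040760) (l 14206904)) (b (l 14962744) (l 14174264)))) (b (a (l 13470200) (a (l 13417328) (a (l 13394400) (l 13383432)))) (a (l 13568472) (a (l 13505304) (a (l 13484104) (l 13475856))))))) (b (b (l 15026664) (l 14208120)) (b (l 13437576) (l 13543672)))) (b (b (l 15088616) (l 14289992)) (b (l 13542368) (l 13674552)))))) (b (b (l 16777216) (a (l 16230016) (l 2))) (b (b (l 14991720) (l 14301168)) (b (a (l 13557320) (l 13557320)) (a (l 13693848) (l 13693848)))))), by decide +kernel⟩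

theorem s2_pm_012 : ∃ t, chk3 f_pm_012 t 1 1 1 = true := ex3_b k0_pm_012 k1_pm_012

theorem c_pm_012 : CertNX 0 536870912 536870912 469762048 1046898278 26843546 3 true true false .pnp 0 1 2
    ndN3q0 ndN5q1 pcN2 Cut.none Ext.none :=
  certNX2 (fam := true) (s1 := true) (s2 := false) (a := 0) (b := 1) (c := 2) (cn := .pnp) (n1 := ndN3q0) (n2 := ndN5q1) (pc := pcN2) (cut := Cut.none) (xt := Ext.none) (P1 := 0) (W1 := 536870912) (P2 := 536870912) (W2 := 469762048) (P3 := 1046898278) (W3 := 26843546) (N0 := 3)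
    rfl (fun _ => rfl) s2_pm_012

noncomputable def f_pm_022 : ℕ → ℕ → ℕ → ℕ → Bool := onCell 0 536870912 1073741824 536870912 1046898278 26843546
    (rowNX 3 1 true true false .pp 0 2 2 (qsf 0 536870912 1073741824 536870912 2) ndN3q0 ndN5q2 pcN2 Cut.none Ext.none)

def k0_pm_022 : ∃ t, chk3 f_pm_022 t 1 8 1 = true :=
  ⟨(a (a (b (a (l 3) (l 1)) (a (a (a (l 3) (a (l 3) (b (l 3) (b (l 3) (b (l 3) (c (l 16043248) (l 16023616))))))) (a (b (l 3) (a (b (l 3) (b (c (l 16039992) (l 16016944)) (c (l 16051680) (l 16029304)))) (b (a (b (l 3) (c (l 16036960) (l 16011064))) (b (l 16011864) (c (l 16038248) (l 16012536)))) (c (b (l 16050264) (l 16059784)) (b (l 16025200) (l 16056920)))))) (a (b (a (l 3) (l 1)) (b (c (b (b (l 16068752) (l 16057400)) (l 16054928)) (b (l 16063008) (l 16030040))) (c (b (l 16059648) (c (l 16106208) (l 16095808))) (b (l 16056752) (l 16077920))))) (b (l 1) (b (a (b (l 1) (c (l 16079048) (l 16055208))) (l 1)) (c (b (l 16104848) (l 16134136)) (b (l 16081960) (l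 16112008)))))))) (a (b (l 1) (a (b (l 1) (c (l 664678350231) (l 16274952))) (l 1))) (l 1)))) (l 1)) (l 1)), by decide +kernel⟩

def k1_pm_022 : ∃ t, chk3 f_pm_022 t 4 36 1 = true :=
  ⟨(a (a (a (b (b (l 3) (a (l 3) (c (c (l 16016096) (l 16033792)) (l 438252827895)))) (a (c (b (l 462412084791) (c (l 16054520) (l 16045664))) (b (c (l 16053944) (l 15993536)) (c (l 16047424) (a (l 16051944) (l 16045184))))) (c (a (c (l 99487275447) (l 16025064)) (c (l 16013024) (l 16045664))) (c (b (l 16046008) (l 16048672)) (b (l 16038448) (l 16041288)))))) (a (c (b (b (l 421609840183) (c (l 16040888) (l 16052192))) (b (l 16049328) (c (l 16050872) (l 16062600)))) (b (b (l 16034520) (l 16035376)) (b (l 16042112) (l 16046456)))) (c (b (b (l 16049576) (l 16060328)) (b (c (l 16075256) (l 16065168)) (l 16038144))) (b (b (l 16030416) (l 16041816)) (b (l 16047944) (l 16041056)))))) (c (a (a (b (b (l 16072840) (l 16077416)) (b (l 16072376) (l 16065720))) (b (b (l 16091424) (l 16091584)) (l 16076768)))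 (b (l 16124304) (l 16088904))) (a (b (b (a (l 16051432) (l 16068096)) (a (l 16056432) (l 16068520))) (a (b (l 16051448) (l 16044800)) (l 16053536))) (b (l 16101976) (l 16065776))))) (a (a (b (c (l 16196784) (l 16202184)) (c (l 16199560) (l 16224264))) (b (l 1) (l 16591384))) (l 1))), by decide +kernel⟩

def k2_pm_022 : ∃ t, chk3 f_pm_022 t 4 37 1 = true :=
  ⟨(a (b (a (c (a (a (b (c (l 16053704) (l 16044960)) (c (l 16053568) (l 16044944))) (c (b (l 16016504) (l 16012328)) (b (l 16034584) (l 16030456)))) (a (b (c (l 16044616) (l 16056360)) (l 16038752)) (l 16045448))) (a (a (a (c (l 16051016) (l 16051336)) (c (l 16039080) (l 16047784))) (c (b (l 16050512) (l 16046432)) (l 16041736))) (a (b (l 16040224) (l 16031896)) (l 16027272)))) (c (a (l 16040472) (l 16039128)) (a (l 16019920) (l 16014688)))) (a (c (a (c (a (b (l 16051440) (l 16042488)) (b (l 16002896) (l 15989216))) (a (b (l 16042904) (l 16033912)) (a (l 15945464) (l 16024792)))) (c (l 16012464) (l 16015536))) (a (b (c (a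 (l 16024016) (l 16036904)) (a (a (l 16050656) (l 16043904)) (l 16029680))) (a (c (l 16035952) (a (l 16044080) (l 16033928))) (l 16016864))) (l 15998992))) (c (a (l 15991184) (l 15914640)) (a (l 15969312) (l 15951352))))) (a (a (b (c (l 16176016) (l 16198840)) (l 16092128)) (l 16346904)) (a (a (l 16586984) (l 1)) (l 1)))), by decide +kernel⟩

def k3_pm_022 : ∃ t, chk3 f_pm_022 t 4 19 1 = true :=
  ⟨(b (b (a (a (c (b (a (a (l 16025112) (c (l 15970888) (l 15988624))) (l 15954720)) (a (a (c (l 16014264) (l 16005408)) (c (l 15952744) (l 15970264))) (a (l 15962464) (l 15946760)))) (a (a (c (b (l 16022272) (l 16007176)) (a (l 15982816) (l 16010144))) (c (l 15995320) (l 15987640))) (b (l 15963800) (l 15940016)))) (c (a (c (l 15918216) (l 15864568)) (a (b (l 15927544) (l 15901800)) (l 15922888))) (a (b (l 15923392) (l 15894488)) (a (l 15887592) (l 15895120))))) (a (a (c (l 16108520) (l 16086376)) (a (l 16370392) (l 16554816))) (a (a (l 16652280) (l 16600096)) (l 1)))) (a (a (a (c (a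 (l 16032136) (c (l 15968464) (l 15986480))) (a (c (l 16029992) (l 16033144)) (l 15996272))) (c (a (l 15972648) (l 15951304)) (l 15948056))) (a (c (l 15863952) (l 15903608)) (c (l 15939240) (l 15912632)))) (a (a (l 16076824) (l 16474832)) (a (l 16530096) (a (l 16533464) (l 1)))))) (a (a (a (c (b (a (l 16050680) (l 15930000)) (a (l 16050728) (l 15988896))) (a (c (b (l 16049488) (l 16049960)) (b (l 16053272) (l 16054032))) (b (l 16009704) (l 16006088)))) (c (b (a (l 15979080) (l 15957648)) (a (l 15985288) (l 15995976))) (b (l 15958752) (a (l 15978952) (l 15978600))))) (a (b (c (l 15922096) (l 15942712)) (l 15975896)) (c (l 15941192) (l 16046040)))) (a (a (c (l 16072328) (l 16121760)) (l 16284328)) (a (a (l 16242520) (l 16234192)) (c (c (l 16073072) (l 15999952)) (c (c (l 16204264) (a (l 16225992) (l 16219728))) (c (c (l 423623024295) (a (l 16180400) (l 440802943975))) (a (l 16059816) (l 15966704))))))))), by decide +kernel⟩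

def k4_pm_022 : ∃ t, chk3 f_pm_022 t 5 9 1 = true :=
  ⟨(b (l 1) (a (a (a (a (a (a (b (l 1) (c (l 16198232) (c (l 16183288) (l 455298290231)))) (l 1)) (l 1)) (l 1)) (l 1)) (l 1)) (l 1))), by decide +kernel⟩

def k5_pm_022 : ∃ t, chk3 f_pm_022 t 3 9 1 = true :=
  ⟨(l 1), by decide +kernel⟩

def k6_pm_022 : ∃ t, chk3 f_pm_022 t 8 20 1 = true :=
  ⟨(b (a (a (b (c (a (l 16041840) (a (l 15994448) (l 15979328))) (a (c (l 16041248) (l 16045432)) (c (l 16028656) (l 16022696)))) (a (c (b (l 16053504) (l 16106648)) (b (c (l 16053576) (l 16058216)) (l 16049960))) (c (l 16078920) (l 16122592)))) (b (c (a (l 16046360) (l 16092688)) (l 16059968)) (c (l 16105648) (l 16188904)))) (b (a (l 16086488) (l 16189864)) (a (c (l 16283736) (l 16276584)) (l 16326512)))) (a (b (a (a (a (c (b (l 16128840) (l 16078416)) (b (l 16036144) (l 16067888))) (c (b (l 16175352) (l 16163416)) (b (l 16189768) (c (l 16220168) (l 16234680))))) (c (l 16060928) (l 16174080))) (c (l 16192904) (l 16345680))) (a (b (a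 (c (l 15994352) (a (l 16008928) (l 16116608))) (c (a (b (l 16319056) (l 16327856)) (l 16320880)) (a (l 16207336) (l 16286936)))) (b (a (c (l 16038952) (a (l 15992312) (l 16168960))) (c (a (l 16323248) (l 16234296)) (a (l 16334952) (l 16197392)))) (a (a (c (l 15951392) (l 15812288)) (c (l 16034840) (c (b (l 16147856) (l 16154488)) (l 16166560)))) (c (a (l 16137720) (a (l 16250352) (l 16062976))) (c (l 16116464) (l 16215392)))))) (b (c (l 16281712) (l 16265808)) (b (c (l 16181312) (l 16161760)) (c (a (l 16015648) (l 16110656)) (l 16095232)))))) (b (a (l 16281152) (l 16355208)) (b (a (l 16220224) (l 16174712)) (b (c (l 16115928) (l 16144640)) (a (c (l 16106008) (l 16089688)) (l 16033040))))))), by decide +kernel⟩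

def k7_pm_022 : ∃ t, chk3 f_pm_022 t 8 21 1 = true :=
  ⟨(a (a (b (a (c (l 15600320) (c (l 15657576) (l 15616368))) (c (a (l 15831600) (b (l 16265080) (l 16009272))) (a (l 15862224) (l 16102608)))) (a (c (l 15269152) (c (l 15312544) (l 15303856))) (c (c (l 15527504) (l 15583152)) (l 15544384)))) (b (a (b (c (a (l 16043376) (l 16028536)) (a (l 16145568) (l 16051992))) (c (l 16185400) (l 16274432))) (c (b (l 16034560) (a (l 16018528) (l 15971760))) (b (l 16015320) (l 15929568)))) (c (a (c (l 15756224) (l 15812144)) (l 16100576)) (a (l 15820376) (l 16198568))))) (a (b (l 15915320) (a (b (c (l 15819600) (l 15925408)) (l 16025504)) (b (l 15847040) (c (l 15809928) (l 15851704))))) (c (l 15915576) (l 15894576)))), by decide +kernel⟩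

def k8_pm_022 : ∃ t, chk3 f_pm_022 t 9 10 1 = true :=
  ⟨(a (b (b (a (a (l 16244560) (l 16357200)) (b (l 16266344) (l 16077992))) (b (a (l 16099040) (l 15883768)) (b (a (l 16052624) (l 15742712)) (b (l 15592440) (a (l 15955864) (l 15670840)))))) (a (l 15725752) (l 15534176))) (a (b (b (a (l 15914424) (l 15856424)) (b (l 15602200) (b (l 15470616) (b (l 15440088) (a (l 15444664) (c (l 15416280) (c (l 15381480) (l 15347512)))))))) (b (a (l 15381232) (c (l 15356408) (c (l 15320200) (l 15288992)))) (c (a (l 15298960) (l 15267616)) (c (a (l 15239704) (l 15217648)) (l 15148008))))) (b (a (b (c (l 15710880) (c (l 15834224) (c (l 15723704) (l 15787784)))) (b (c (l 15579672) (c (l 15548776) (c (l 15526712) (l 15521096)))) (c (b (l 15455152) (b (l 15431216) (l 15422520))) (b (c (l 15420944) (b (l 15405384) (l 15383200))) (b (c (l 15396440) (l 15373792)) (c (l 15387568) (l 15367232))))))) (c (b (c (l 15831544) (l 15814072)) (b (l 15533480) (c (l 15413880) (l 15390112)))) (b (c (c (l 15802768)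 (l 15768280)) (c (l 15628944) (l 15781400))) (b (c (c (l 15508264) (l 15495200)) (l 15498240)) (c (c (l 15372072) (b (l 15369216) (l 15338136))) (b (l 15275352) (l 15353640))))))) (c (b (c (l 15359984) (l 15336400)) (c (l 15275208) (l 15249192))) (b (b (c (a (l 15346192) (l 15302256)) (l 15327672)) (c (l 15132328) (l 15258048))) (c (l 15201360) (l 15203400))))))), by decide +kernel⟩

def k9_pm_022 : ∃ t, chk3 f_pm_022 t 5 10 1 = true :=
  ⟨(b (a (a (a (b (c (c (l 15751752) (l 15733408)) (c (c (a (l 15746872) (l 15686312)) (c (a (l 15730440) (l 15695384)) (a (l 15501304) (l 15586440)))) (c (a (l 15571000) (l 15672600)) (l 15691120)))) (b (c (c (l 15478248) (l 15441288)) (c (c (a (l 15454576) (l 15416944)) (a (c (l 15446232) (l 15451416)) (l 15225248))) (l 15390744))) (c (c (l 15366088) (c (l 15347296) (b (l 15335232) (l 15312808)))) (c (c (a (l 15329608) (b (l 15321624) (l 15303792))) (b (b (l 15201416) (l 15351184)) (l 15338040))) (l 15289648))))) (b (a (c (c (l 15675120) (c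 (l 15655312) (l 15645336))) (c (c (l 15592712) (l 15628536)) (l 15612648))) (l 1)) (c (c (b (c (l 15406008) (l 15381016)) (c (l 15319792) (b (l 15301384) (l 15288984)))) (c (b (l 15374240) (b (b (l 15303160) (l 15291976)) (l 15287344))) (a (b (l 15386256) (b (l 15302128) (l 15288520))) (l 15311128)))) (b (c (c (c (l 15363408) (l 15351304)) (l 15341472)) (l 15321632)) (l 15245056))))) (b (l 1) (b (l 1) (b (l 1) (c (c (c (l 893383435079) (l 15356968)) (l 15318080)) (l 15274880)))))) (l 1)) (a (c (c (a (a (l 15143352) (b (c (l 15288776) (l 15273456)) (c (l 15270304) (l 15264536)))) (a (b (c (l 15337712) (l 15328608)) (c (l 15349592) (l 15328448))) (l 15399632))) (a (b (a (c (l 15293680) (l 15274856)) (c (l 15274304) (a (l 15266864) (l 15252872)))) (a (c (l 15241080) (l 15234432)) (c (l 15260152) (l 15237992)))) (b (l 15326344) (l 15351000)))) (a (c (a (b (c (a (l 15276816) (l 15272464)) (l 15295048)) (l 15202840)) (l 15223520)) (l 15203432)) (b (l 15284856) (l 15311680)))) (a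 (b (l 1) (c (l 15319400) (l 15499896))) (l 1)))), by decide +kernel⟩

def k10_pm_022 : ∃ t, chk3 f_pm_022 t 4 11 1 = true :=
  ⟨(a (a (b (a (c (a (b (l 14867280) (l 14415368)) (b (l 14997216) (l 14638040))) (a (c (l 14410672) (l 14408816)) (b (l 15152976) (l 14669960)))) (b (c (a (l 15480232) (l 15755576)) (l 15450840)) (c (a (l 15025520) (l 15331648)) (l 15138720)))) (a (b (c (a (b (a (a (l 14056880) (l 14086672)) (l 14155424)) (l 14057344)) (b (l 14367328) (a (l 14129928) (l 14244384)))) (a (b (a (l 13986688) (l 14089952)) (l 13982552)) (b (l 14322360) (l 14146296)))) (c (a (l 14056056) (l 14131728)) (a (l 13981208) (l 14076688)))) (b (c (a (l 14581416) (l 14880240)) (l 14672304)) (c (a (b (l 14314096) (l 14249176)) (l 14500640)) (a (l 14219696) (l 14425736)))))) (b (a (b (a (c (l 16000872) (l 16116336)) (l 15958904)) (c (l 15523624) (l 15604832))) (b (a (b (l 15629680) (l 15987232)) (b (l 15717352) (l 15661984))) (a (l 16060720) (l 15949776)))) (a (c (b (l 15313616) (l 14907832))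 (l 15035456)) (b (a (l 15726448) (l 15927096)) (l 15449480))))) (b (a (b (a (l 15587432) (l 15370288)) (a (a (b (l 15644872) (l 15850240)) (l 15387808)) (c (a (l 15350672) (l 15247624)) (l 15248704)))) (c (a (a (l 15098024) (b (l 15182368) (l 15123048))) (c (l 15192056) (b (l 15161944) (l 15144280)))) (a (b (a (l 15153936) (l 15117312)) (l 15080800)) (b (l 15157984) (l 15114584))))) (b (a (a (a (l 16113976) (l 15793232)) (b (a (l 15343400) (l 15148944)) (a (l 15514280) (l 15157216)))) (c (b (l 14948584) (l 15008536)) (l 14994312))) (a (a (a (l 15957680) (l 16266960)) (l 15494008)) (a (a (l 14845696) (l 14888576)) (l 14869216)))))), by decide +kernel⟩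

def k11_pm_022 : ∃ t, chk3 f_pm_022 t 5 11 1 = true :=
  ⟨(b (a (c (c (a (b (a (l 15232752) (l 15271664)) (l 15052968)) (b (c (l 15424088) (l 15407640)) (l 15465528))) (a (b (a (l 15204752) (l 15169464)) (l 15241160)) (l 15413984))) (a (b (c (l 15221176) (l 15174216)) (l 15191704)) (b (l 15352168) (l 15408024)))) (a (c (b (l 15634128) (l 15730976)) (l 419326854791)) (b (l 1) (c (l 16085344) (l 16059000))))) (a (c (a (b (l 15176352) (l 14997272)) (l 15312248)) (a (l 15028352) (l 15261912))) (a (c (l 15559296) (l 15560400)) (b (c (l 16073160) (l 16048440)) (l 15839688))))), by decide +kernel⟩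

def k12_pm_022 : ∃ t, chk3 f_pm_022 t 3 5 1 = true :=
  ⟨(b (l 1) (b (l 1) (a (a (a (b (l 1) (l 16292640)) (l 1)) (l 1)) (l 1)))), by decide +kernel⟩

def k13_pm_022 : ∃ t, chk3 f_pm_022 t 2 3 1 = true :=
  ⟨(a (b (a (a (b (c (a (l 14097408) (l 14297256)) (a (a (l 13981208) (l 14075816)) (l 14221792))) (c (a (l 14097408) (l 14297024)) (c (l 14103096) (l 14106384)))) (b (b (a (b (c (a (l 14488704) (l 14685344)) (l 14529360)) (l 14456320)) (b (l 15052880) (c (l 14787928) (l 14718168)))) (c (l 14586968) (l 14510112))) (c (b (l 14586696) (l 14586696)) (l 14509832)))) (b (a (b (a (c (b (l 15666760) (l 15421880)) (l 15357816)) (b (l 15912768) (l 16211160))) (a (a (l 14905680) (l 15120080)) (b (l 15913152) (l 15642392)))) (b (a (b (l 15353944) (l 15726112)) (b (b (l 14808896) (l 14904624)) (l 15233776))) (a (b (l 16264584) (l 16359008)) (l 15698672)))) (a (c (l 15225656) (l 15256568)) (b (a (b (l 16081288) (l 16011752)) (l 16239320)) (l 16101536))))) (a (a (a (c (l 14097408) (b (l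 14029928) (l 14029928))) (c (l 14297024) (l 14221552))) (b (l 14549544) (l 14549544))) (a (b (l 15286440) (l 15286440)) (l 16101312)))) (b (a (b (b (a (b (l 14793472) (a (b (l 14704360) (l 14802608)) (l 14659576))) (l 14916392)) (a (b (a (l 15135568) (l 14685528)) (l 15337744)) (b (l 14661744) (a (l 14632288) (l 14559400))))) (b (a (b (l 15796544) (l 16275064)) (b (a (l 14993544) (l 14590288)) (l 15224936))) (a (a (l 16392736) (l 16507680)) (l 15757352)))) (b (a (c (l 15029088) (l 14968176)) (b (l 15522336) (l 15129616))) (a (b (b (l 14573664) (l 14543600)) (a (l 15168560) (l 14722288))) (b (l 14772584) (l 14545792))))) (a (b (a (l 16410544) (b (b (l 16556144) (l 16634448)) (l 16590032))) (l 16500672)) (b (a (b (l 15878552) (l 16575392)) (b (a (l 15113032) (l 14700976)) (l 15844832))) (a (l 16712672) (b (l 16546832) (l 16776928))))))), by decide +kernel⟩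

def k14_pm_022 : ∃ t, chk3 f_pm_022 t 3 3 1 = true :=
  ⟨(b (a (a (b (a (l 15732112) (l 16176536)) (l 15130952)) (b (b (l 1) (l 16654080)) (l 15950512))) (a (b (l 1) (l 444025040215)) (l 1))) (a (b (a (b (a (l 14545736) (l 14772512)) (a (l 14892856) (l 14545736))) (l 15130952)) (a (b (a (l 15844784) (l 14934800)) (a (l 16546792) (l 15844784))) (b (a (l 14545736) (l 14772512)) (a (l 14934800) (l 14545736))))) (a (b (l 15950512) (l 15130952)) (b (l 16649648) (l 15950512))))), by decide +kernel⟩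

theorem s15_pm_022 : ∃ t, chk3 f_pm_022 t 1 3 1 = true := ex3_a k13_pm_022 k14_pm_022

theorem s16_pm_022 : ∃ t, chk3 f_pm_022 t 2 11 1 = true := ex3_a k10_pm_022 k11_pm_022

theorem s17_pm_022 : ∃ t, chk3 f_pm_022 t 8 10 1 = true := ex3_b k6_pm_022 k7_pm_022

theorem s18_pm_022 : ∃ t, chk3 f_pm_022 t 4 10 1 = true := ex3_a s17_pm_022 k8_pm_022

theorem s19_pm_022 : ∃ t, chk3 f_pm_022 t 2 10 1 = true := ex3_a s18_pm_022 k9_pm_022

theorem s20_pm_022 : ∃ t, chk3 f_pm_022 t 2 5 1 = true := ex3_b s19_pm_022 s16_pm_022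

theorem s21_pm_022 : ∃ t, chk3 f_pm_022 t 1 5 1 = true := ex3_a s20_pm_022 k12_pm_022

theorem s22_pm_022 : ∃ t, chk3 f_pm_022 t 4 18 1 = true := ex3_b k1_pm_022 k2_pm_022

theorem s23_pm_022 : ∃ t, chk3 f_pm_022 t 4 9 1 = true := ex3_b s22_pm_022 k3_pm_022

theorem s24_pm_022 : ∃ t, chk3 f_pm_022 t 2 9 1 = true := ex3_a s23_pm_022 k4_pm_022

theorem s25_pm_022 : ∃ t, chk3 f_pm_022 t 1 9 1 = true := ex3_a s24_pm_022 k5_pm_022

theorem s26_pm_022 : ∃ t, chk3 f_pm_022 t 1 4 1 = true := ex3_b k0_pm_022 s25_pm_022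

theorem s27_pm_022 : ∃ t, chk3 f_pm_022 t 1 2 1 = true := ex3_b s26_pm_022 s21_pm_022

theorem s28_pm_022 : ∃ t, chk3 f_pm_022 t 1 1 1 = true := ex3_b s27_pm_022 s15_pm_022

theorem c_pm_022 : CertNX 0 536870912 1073741824 536870912 1046898278 26843546 3 true true false .pp 0 2 2
    ndN3q0 ndN5q2 pcN2 Cut.none Ext.none :=
  certNX1 (fam := true) (s1 := true) (s2 := false) (a := 0) (b := 2) (c := 2) (cn := .pp) (n1 := ndN3q0) (n2 := ndN5q2) (pc := pcN2) (cut := Cut.none) (xt := Ext.none) (P1 := 0) (W1 := 536870912) (P2 := 1073741824) (W2 := 536870912) (P3 := 1046898278) (W3 := 26843546) (N0 := 3)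
    rfl (fun _ => rfl) s28_pm_022

noncomputable def f_pm_023 : ℕ → ℕ → ℕ → ℕ → Bool := onCell 1610612736 536870912 1073741824 536870912 1046898278 26843546
    (rowNX 3 2 true true false .up 0 2 3 (qsf 0 536870912 1073741824 536870912 3) ndN3q0 ndN5q2 pcN3 Cut.none Ext.none)

def k0_pm_023 : ∃ t, chk3 f_pm_023 t 1 1 1 = true :=
  ⟨(a (b (b (a (a (l 15130952) (l 15130952)) (a (l 15130952) (l 2))) (a (b (b (l 14488456) (l 15362176)) (b (l 16304928) (l 16776552))) (b (a (l 14746056) (b (l 2) (l 15362176))) (a (l 16546792) (l 16546792))))) (a (b (a (b (l 16761552) (l 16612096)) (l 16767048)) (a (b (a (b (l 16228944) (a (l 15488032) (l 15916736))) (l 16351536)) (a (b (a (l 14705880) (l 15074040)) (a (l 14115840) (l 14434808))) (b (a (l 15488032) (l 15916736)) (a (l 14705880) (l 15074040))))) (b (l 16612096) (a (b (l 16228944) (a (l 15488032) (l 15916736))) (l 16351536))))) (a (b (l 16777216) (b (l 16761552) (l 16612096))) (b (l 16777216) (l 16767048))))) (a (b (b (l 2) (b (l 2)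 (a (a (l 16546792) (l 2)) (l 2)))) (c (l 16777192) (l 16777192))) (l 4))), by decide +kernel⟩

theorem c_pm_023 : CertNX 0 536870912 1073741824 536870912 1046898278 26843546 3 true true false .up 0 2 3
    ndN3q0 ndN5q2 pcN3 Cut.none Ext.none :=
  certNX2 (fam := true) (s1 := true) (s2 := false) (a := 0) (b := 2) (c := 3) (cn := .up) (n1 := ndN3q0) (n2 := ndN5q2) (pc := pcN3) (cut := Cut.none) (xt := Ext.none) (P1 := 0) (W1 := 536870912) (P2 := 1073741824) (W2 := 536870912) (P3 := 1046898278) (W3 := 26843546) (N0 := 3)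
    rfl (fun _ => rfl) k0_pm_023

noncomputable def f_pm_033 : ℕ → ℕ → ℕ → ℕ → Bool := onCell 0 536870912 0 1230186008 1046898278 26843546
    (rowNX 3 0 true true false .pnn 0 3 3 (qsf 0 536870912 0 1230186008 3) ndN3q0 ndN5q3 pcN3 Cut.none Ext.none)

def k0_pm_033 : ∃ t, chk3 f_pm_033 t 1 1 1 = true :=
  ⟨(b (b (l 4) (l 4)) (b (a (a (b (a (a (b (l 4) (l 4)) (l 4)) (l 4)) (b (a (a (c (l 14026424) (c (l 14144984) (l 14106328))) (c (l 14586656) (l 14509776))) (l 4)) (a (a (a (l 14066616) (l 14250096)) (c (l 14586680) (l 14509808))) (a (c (l 15309360) (l 15256368)) (l 4))))) (l 4)) (l 4)) (a (b (b (a (a (a (c (l 14194240) (l 14127872)) (c (l 14586696) (l 14509832))) (a (c (l 15309376) (l 15256384)) (c (l 16112912) (l 16089592)))) (l 4)) (a (a (a (a (l 14066616) (l 14250104)) (l 14549544)) (a (c (l 15309384) (l 15256400)) (b (l 16101304) (l 16101312)))) (a (c (l 16505400) (l 16432944)) (l 4)))) (b (a (a (a (a (l 14066616) (l 14250104)) (l 14549544)) (a (l 15286440) (l 16101312)))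 (a (a (l 16410416) (b (l 16589856) (l 16589856))) (c (l 16745696) (l 16744584)))) (a (a (a (c (l 14194240) (l 14064952)) (l 14549544)) (a (l 15286440) (l 16101312))) (a (a (l 16410416) (l 16589864)) (c (l 16745712) (l 16744608)))))) (b (l 4) (a (b (l 4) (a (c (l 16777192) (l 16777192)) (l 4))) (l 4)))))), by decide +kernel⟩

theorem c_pm_033 : CertNX 0 536870912 0 1230186008 1046898278 26843546 3 true true false .pnn 0 3 3
    ndN3q0 ndN5q3 pcN3 Cut.none Ext.none :=
  certNX0 (fam := true) (s1 := true) (s2 := false) (a := 0) (b := 3) (c := 3) (cn := .pnn) (n1 := ndN3q0) (n2 := ndN5q3) (pc := pcN3) (cut := Cut.none) (xt := Ext.none) (P1 := 0) (W1 := 536870912) (P2 := 0) (W2 := 1230186008) (P3 := 1046898278) (W3 := 26843546) (N0 := 3)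
    rfl k0_pm_033

noncomputable def f_pm_101 : ℕ → ℕ → ℕ → ℕ → Bool := onCell 536870912 536870912 0 536870912 1046898278 26843546
    (rowNX 3 2 true true false .npn 1 0 1 (qsf 536870912 536870912 0 536870912 1) ndN3q1 ndN5q0 pcN1 Cut.none Ext.none)

def k0_pm_101 : ∃ t, chk3 f_pm_101 t 1 1 1 = true :=
  ⟨(b (l 3) (l 3)), by decide +kernel⟩

theorem c_pm_101 : CertNX 536870912 536870912 0 536870912 1046898278 26843546 3 true true false .npn 1 0 1
    ndN3q1 ndN5q0 pcN1 Cut.none Ext.none :=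
  certNX2 (fam := true) (s1 := true) (s2 := false) (a := 1) (b := 0) (c := 1) (cn := .npn) (n1 := ndN3q1) (n2 := ndN5q0) (pc := pcN1) (cut := Cut.none) (xt := Ext.none) (P1 := 536870912) (W1 := 536870912) (P2 := 0) (W2 := 536870912) (P3 := 1046898278) (W3 := 26843546) (N0 := 3)
    rfl (fun _ => rfl) k0_pm_101

noncomputable def f_pm_102 : ℕ → ℕ → ℕ → ℕ → Bool := onCell 536870912 536870912 1073741824 536870912 1046898278 26843546
    (rowNX 3 1 true true false .npp 1 0 2 (qsf 536870912 536870912 0 536870912 2) ndN3q1 ndN5q0 pcN2 Cut.none Ext.none)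

def k0_pm_102 : ∃ t, chk3 f_pm_102 t 2 1 1 = true :=
  ⟨(b (b (l 3) (b (b (b (l 3) (b (l 3) (b (c (l 16777216) (l 16777216)) (b (c (l 16777216) (l 16777216)) (c (l 16777216) (l 16777216)))))) (l 16777216)) (l 16776928))) (l 16777216)), by decide +kernel⟩

def k1_pm_102 : ∃ t, chk3 f_pm_102 t 3 4 1 = true :=
  ⟨(b (l 3) (a (l 3) (b (l 3) (a (l 3) (a (b (l 3) (c (l 932169629831) (l 13971352))) (b (l 3) (c (a (l 13533496) (l 13329640)) (a (l 13576696) (c (l 13306600) (l 13305904)))))))))), by decide +kernel⟩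

def k2_pm_102 : ∃ t, chk3 f_pm_102 t 3 5 1 = true :=
  ⟨(a (a (b (b (b (l 3) (b (b (l 3) (l 16684248)) (b (l 16432528) (c (b (l 16685840) (l 16494576)) (b (l 16682632) (a (l 16776944) (l 16547752))))))) (l 16683104)) (l 16684248)) (b (b (b (a (l 3) (c (l 15692744) (l 15654672))) (b (a (l 16192072) (b (l 15674464) (l 15674384))) (b (a (l 16213224) (b (l 15674384) (l 15674424))) (b (a (b (l 16213256) (l 16210824)) (b (l 15670776) (l 15493712))) (a (c (l 16213256) (a (l 16295768) (l 16089840))) (l 15640784)))))) (a (l 16205432) (l 15649344))) (a (l 16212712) (l 15671744)))) (b (b (b (a (a (b (l 3) (l 14816928)) (b (l 14315736) (l 14280880))) (a (c (b (l 13933744) (l 13883096)) (l 13863920)) (c (a (b (l 13450832) (l 13391336)) (b (l 13239744) (l 13162992))) (a (b (l 13491032) (l 13429336)) (b (a (l 13253544) (l 13153776)) (c (l 13135384) (l 13131576))))))) (b (a (a (b (l 14816792) (l 14816760)) (b (l 14258328) (l 14199712))) (a (c (b (l 13840296) (l 13793816)) (b (l 13799392)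 (l 13751096))) (a (b (l 13310304) (l 13241968)) (a (l 13058752) (l 12979288))))) (a (a (b (b (l 14814752) (l 14807176)) (b (b (l 14792136) (l 14772480)) (l 14751976))) (b (b (l 14223416) (l 14194496)) (l 14147984))) (a (b (l 13685736) (b (l 13627704) (l 13593864))) (b (a (l 13166888) (c (l 12929400) (l 12896064))) (a (b (l 13112640) (l 13081712)) (b (c (l 12879264) (l 12843936)) (c (l 12851272) (l 12814840))))))))) (a (a (l 14770552) (l 14162720)) (a (l 13456000) (a (l 13036272) (c (l 12813752) (l 12775896)))))) (a (a (l 14812984) (l 14227280)) (a (l 13538816) (a (c (l 13033856) (l 13057896)) (c (l 12739248) (b (l 12703016) (l 12676624)))))))), by decide +kernel⟩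

def k3_pm_102 : ∃ t, chk3 f_pm_102 t 3 3 1 = true :=
  ⟨(a (a (l 16684248) (a (l 16213288) (l 15485776))) (a (a (l 14817032) (l 14234872)) (a (b (l 13634512) (l 13634512)) (b (a (l 13016312) (c (l 12718256) (l 12676576))) (a (l 13016312) (l 12707432)))))), by decide +kernel⟩

theorem s4_pm_102 : ∃ t, chk3 f_pm_102 t 3 2 1 = true := ex3_b k1_pm_102 k2_pm_102

theorem s5_pm_102 : ∃ t, chk3 f_pm_102 t 3 1 1 = true := ex3_b s4_pm_102 k3_pm_102

theorem s6_pm_102 : ∃ t, chk3 f_pm_102 t 1 1 1 = true := ex3_a k0_pm_102 s5_pm_102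

theorem c_pm_102 : CertNX 536870912 536870912 0 536870912 1046898278 26843546 3 true true false .npp 1 0 2
    ndN3q1 ndN5q0 pcN2 Cut.none Ext.none :=
  certNX1 (fam := true) (s1 := true) (s2 := false) (a := 1) (b := 0) (c := 2) (cn := .npp) (n1 := ndN3q1) (n2 := ndN5q0) (pc := pcN2) (cut := Cut.none) (xt := Ext.none) (P1 := 536870912) (W1 := 536870912) (P2 := 0) (W2 := 536870912) (P3 := 1046898278) (W3 := 26843546) (N0 := 3)
    rfl (fun _ => rfl) s6_pm_102

noncomputable def f_pm_112 : ℕ → ℕ → ℕ → ℕ → Bool := onCell 1073741824 536870912 536870912 469762048 1046898278 26843546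
    (rowNX 3 2 true true false .dn 1 1 2 (qsf 536870912 536870912 536870912 469762048 2) ndN3q1 ndN5q1 pcN2 Cut.none Ext.none)

def k0_pm_112 : ∃ t, chk3 f_pm_112 t 1 1 1 = true :=
  ⟨(b (a (a (l 3) (a (a (a (l 3) (b (a (l 3) (a (l 3) (a (l 16777216) (c (l 16777216) (l 16777216))))) (a (l 1694532367159) (a (l 16777088) (b (a (l 16777200) (l 16777216)) (l 1)))))) (l 16772632)) (l 16776864))) (a (b (a (l 16746024) (b (b (l 16143784) (l 16488624)) (l 16703032))) (l 16777216)) (b (a (b (a (l 15522544) (l 14911104)) (l 16172440)) (b (a (l 14162632) (b (l 13224928) (l 13818232))) (a (b (l 15002960) (l 15680728)) (l 14707680)))) (a (l 16707200) (b (l 16061176) (l 16631184)))))) (a (a (l 1) (b (a (l 1) (b (l 16774688) (l 1))) (l 1))) (b (b (l 16777192) (l 568578168647)) (b (b (l 14970752) (l 14301168)) (b (l 590584614535) (l 590048016679)))))), by decide +kernel⟩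

theorem c_pm_112 : CertNX 536870912 536870912 536870912 469762048 1046898278 26843546 3 true true false .dn 1 1 2
    ndN3q1 ndN5q1 pcN2 Cut.none Ext.none :=
  certNX2 (fam := true) (s1 := true) (s2 := false) (a := 1) (b := 1) (c := 2) (cn := .dn) (n1 := ndN3q1) (n2 := ndN5q1) (pc := pcN2) (cut := Cut.none) (xt := Ext.none) (P1 := 536870912) (W1 := 536870912) (P2 := 536870912) (W2 := 469762048) (P3 := 1046898278) (W3 := 26843546) (N0 := 3)
    rfl (fun _ => rfl) k0_pm_112

noncomputable def f_pm_113 : ℕ → ℕ → ℕ → ℕ → Bool := onCell 536870912 536870912 536870912 469762048 1046898278 26843546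
    (rowNX 3 0 true true false .nn 1 1 3 (qsf 536870912 536870912 536870912 469762048 3) ndN3q1 ndN5q1 pcN3 Cut.none Ext.none)

def k0_pm_113 : ∃ t, chk3 f_pm_113 t 1 1 1 = true :=
  ⟨(a (b (l 1) (b (b (l 16777216) (l 16230016)) (b (b (l 15096576) (l 14301168)) (b (l 13557320) (l 13693848))))) (b (a (a (l 16684248) (l 527238693079)) (a (l 14340352) (a (l 13634512) (b (l 12893112) (l 12893112))))) (b (a (a (l 16423616) (b (l 15948944) (l 15425384))) (a (l 14345080) (b (l 13324248) (l 12680808)))) (a (b (a (l 14617360) (l 13933872)) (a (l 13650944) (l 12987392))) (b (a (l 12670624) (a (l 11789072) (l 11105008))) (a (l 11811944) (a (l 11059432) (b (l 10280200) (l 10600168))))))))), by decide +kernel⟩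

theorem c_pm_113 : CertNX 536870912 536870912 536870912 469762048 1046898278 26843546 3 true true false .nn 1 1 3
    ndN3q1 ndN5q1 pcN3 Cut.none Ext.none :=
  certNX0 (fam := true) (s1 := true) (s2 := false) (a := 1) (b := 1) (c := 3) (cn := .nn) (n1 := ndN3q1) (n2 := ndN5q1) (pc := pcN3) (cut := Cut.none) (xt := Ext.none) (P1 := 536870912) (W1 := 536870912) (P2 := 536870912) (W2 := 469762048) (P3 := 1046898278) (W3 := 26843546) (N0 := 3)
    rfl k0_pm_113

noncomputable def f_pm_123 : ℕ → ℕ → ℕ → ℕ → Bool := onCell 1610612736 536870912 1073741824 536870912 1046898278 26843546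
    (rowNX 3 2 true true false .npn 1 2 3 (qsf 536870912 536870912 1073741824 536870912 3) ndN3q1 ndN5q2 pcN3 Cut.none Ext.none)

def k0_pm_123 : ∃ t, chk3 f_pm_123 t 1 1 1 = true :=
  ⟨(a (b (b (a (b (l 15522248) (l 14772512)) (a (l 15130952) (l 15130952))) (a (b (b (l 14488456) (l 1)) (l 1)) (b (a (l 14746056) (b (l 14488456) (l 15362176))) (a (l 16546792) (l 16546792))))) (a (l 1) (a (l 1) (l 16777216)))) (a (a (b (a (b (l 15130920) (b (l 14871888) (l 16546792))) (l 4)) (l 16777216)) (l 4)) (l 4))), by decide +kernel⟩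

theorem c_pm_123 : CertNX 536870912 536870912 1073741824 536870912 1046898278 26843546 3 true true false .npn 1 2 3
    ndN3q1 ndN5q2 pcN3 Cut.none Ext.none :=
  certNX2 (fam := true) (s1 := true) (s2 := false) (a := 1) (b := 2) (c := 3) (cn := .npn) (n1 := ndN3q1) (n2 := ndN5q2) (pc := pcN3) (cut := Cut.none) (xt := Ext.none) (P1 := 536870912) (W1 := 536870912) (P2 := 1073741824) (W2 := 536870912) (P3 := 1046898278) (W3 := 26843546) (N0 := 3)
    rfl (fun _ => rfl) k0_pm_123

noncomputable def f_pm_133 : ℕ → ℕ → ℕ → ℕ → Bool := onCell 536870912 536870912 0 1230186008 1046898278 26843546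
    (rowNX 3 0 true true false .dn 1 3 3 (qsf 536870912 536870912 0 1230186008 3) ndN3q1 ndN5q3 pcN3 Cut.none Ext.none)

def k0_pm_133 : ∃ t, chk3 f_pm_133 t 1 1 1 = true :=
  ⟨(b (l 2) (l 4)), by decide +kernel⟩

theorem c_pm_133 : CertNX 536870912 536870912 0 1230186008 1046898278 26843546 3 true true false .dn 1 3 3
    ndN3q1 ndN5q3 pcN3 Cut.none Ext.none :=
  certNX0 (fam := true) (s1 := true) (s2 := false) (a := 1) (b := 3) (c := 3) (cn := .dn) (n1 := ndN3q1) (n2 := ndN5q3) (pc := pcN3) (cut := Cut.none) (xt := Ext.none) (P1 := 536870912) (W1 := 536870912) (P2 := 0) (W2 := 1230186008) (P3 := 1046898278) (W3 := 26843546) (N0 := 3)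
    rfl k0_pm_133

noncomputable def f_pm_202 : ℕ → ℕ → ℕ → ℕ → Bool := onCell 1073741824 536870912 0 536870912 1046898278 26843546
    (rowNX 3 2 true true false .pp 2 0 2 (qsf 1073741824 536870912 0 536870912 2) ndN3q2 ndN5q0 pcN2 Cut.none Ext.none)

def k0_pm_202 : ∃ t, chk3 f_pm_202 t 32 8 1 = true :=
  ⟨(b (a (b (c (b (c (l 16763616) (c (l 16760456) (l 16561016))) (b (c (l 16641480) (l 553547128263)) (l 1))) (b (c (b (a (l 16771544) (l 16628896)) (c (l 16598520) (a (l 16703840) (l 16710720)))) (c (b (a (b (l 16772544) (l 16740648)) (b (l 16759640) (l 16736760))) (a (l 16701792) (l 16703800))) (b (c (b (a (l 16761184) (l 16739328)) (l 16604032)) (a (c (l 432751165559) (l 16737992)) (l 16721840))) (a (l 16686688) (l 16681792))))) (a (l 1) (c (c (l 652868190343) (l 1101692305655)) (l 16490184))))) (l 1)) (b (c (b (c (l 16483440) (a (b (l 16700640) (l 16719424)) (l 16552904))) (c (b (a (l 16650288) (l 16653656)) (l 16536240)) (c (l 16639096) (b (l 16663496) (l 16609216)))))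 (c (b (b (l 16659856) (c (l 16595656) (b (l 16698112) (l 16692656)))) (b (c (l 16671752) (l 16655336)) (l 16555520))) (b (b (c (l 16578032) (b (l 16692384) (l 16677464))) (c (a (l 16688872) (l 16659528)) (l 16647864))) (c (b (l 16557416) (l 16555440)) (l 16507472))))) (a (l 1) (a (l 1) (b (b (c (l 16441704) (l 16432632)) (l 1)) (l 1)))))) (l 1)), by decide +kernel⟩

def k1_pm_202 : ∃ t, chk3 f_pm_202 t 33 8 1 = true :=
  ⟨(b (c (a (b (b (c (l 16653472) (l 16525400)) (c (b (l 16647944) (l 16596928)) (b (l 16639624) (l 16615104)))) (b (c (l 16377392) (l 16351776)) (c (l 16327640) (l 16343280)))) (b (b (c (l 16709840) (l 16644800)) (c (b (l 16609592) (l 16572080)) (b (l 16580824) (l 16547512)))) (b (c (l 16422472) (b (l 16490008) (l 16460128))) (l 16215000)))) (b (b (c (b (c (l 16659200) (l 16625592)) (c (l 16585896) (l 16509184))) (b (c (l 16610888) (b (l 16613400) (l 16593824))) (c (l 16554888) (l 16558544)))) (c (a (c (l 16566240) (l 16533944)) (c (l 16542072) (l 16507592)))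 (a (l 16429184) (l 16466712)))) (c (a (b (c (l 16472792) (l 16401480)) (l 16252312)) (b (l 16289752) (l 16272400))) (a (b (l 16294560) (l 16280880)) (b (l 16368968) (l 16248384)))))) (a (l 1) (a (l 1) (b (c (l 15807640) (l 15990792)) (l 1))))), by decide +kernel⟩

def k2_pm_202 : ∃ t, chk3 f_pm_202 t 17 8 1 = true :=
  ⟨(b (c (b (a (b (c (l 16600592) (c (l 16538808) (l 16488072))) (c (b (l 16499112) (l 16469808)) (c (l 16416560) (l 16292272)))) (b (c (l 16311904) (l 16392072)) (c (c (l 16128680) (l 16150288)) (b (l 16297128) (l 16276104))))) (a (c (b (b (l 16459656) (l 16312328)) (a (l 16366584) (l 16317704))) (b (c (l 16262640) (l 16362272)) (a (l 16290168) (l 16223456)))) (c (b (c (l 16291568) (l 16266080)) (a (l 16242840) (l 16148384))) (b (l 16209344) (l 16088176))))) (b (b (c (b (l 16409312) (c (l 16293008) (l 16313944))) (a (b (c (l 16480304) (l 16493680)) (l 16408576)) (c (l 16107784) (l 16161880)))) (c (a (l 16238544) (l 16263360)) (l 16110400))) (a (c (b (l 16282432)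 (a (l 16222992) (l 16144280))) (a (l 16218160) (l 16159288))) (c (l 15842736) (l 16038944))))) (b (a (c (b (l 16059944) (l 15937344)) (b (a (l 16058856) (l 16007984)) (l 15849152))) (c (b (l 16011672) (l 15812888)) (l 15598000))) (b (a (l 600252610695) (c (l 15720344) (l 15604376))) (a (l 1) (c (l 15549048) (l 15491728)))))), by decide +kernel⟩

def k3_pm_202 : ∃ t, chk3 f_pm_202 t 18 16 1 = true :=
  ⟨(b (c (a (b (a (b (l 16415520) (l 16080728)) (l 16251008)) (c (a (l 16149208) (b (l 16196200) (l 16106368))) (b (l 16079040) (l 16145664)))) (b (c (l 16514728) (l 16410216)) (c (b (l 16297576) (l 16162448)) (b (l 16301616) (l 16180224))))) (b (c (a (b (l 16359000) (a (l 16246344) (l 16316056))) (b (l 16539320) (l 16423160))) (a (b (c (l 16283152) (b (l 16431824) (l 16368064))) (a (l 16258048) (l 16307912))) (b (c (l 16549536) (l 16408272)) (l 16438736)))) (a (c (a (l 16169496) (l 16064992)) (l 15923816)) (c (b (l 16306200) (l 16154416)) (l 16176536))))) (c (a (b (c (l 16008400)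 (l 16047968)) (c (l 15935752) (l 15901128))) (b (a (c (l 15892416) (l 15966592)) (c (l 16012688) (l 15985992))) (b (a (l 15845096) (l 15790176)) (l 15757624)))) (a (b (l 15890744) (c (l 15840720) (l 15821408))) (a (b (l 15814200) (l 15716584)) (b (l 15918576) (l 15509328)))))), by decide +kernel⟩

def k4_pm_202 : ∃ t, chk3 f_pm_202 t 19 16 1 = true :=
  ⟨(b (c (a (b (a (c (l 16327936) (l 16285216)) (b (l 16369784) (l 16508280))) (a (c (b (l 16393392) (l 16249472)) (l 16098776)) (c (l 16361952) (l 16366928)))) (b (l 16209784) (c (a (l 16309408) (l 16141264)) (b (l 16252056) (l 16172648))))) (a (b (a (c (b (l 16368496) (l 16553088)) (b (c (l 16376600) (b (l 16334392) (l 16422680))) (l 16529168))) (c (b (l 16402080) (l 16518096)) (b (c (l 16410848) (l 16415400)) (l 16518984)))) (a (c (l 16238512) (l 16295400)) (c (l 16360808) (l 16335144)))) (b (c (l 16144032) (b (l 16066592) (l 16278968))) (a (c (l 16306576) (l 16280536)) (l 15914104))))) (b (c (a (a (c (l 15830632) (l 15931000))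 (c (l 16106824) (l 16082600))) (c (b (l 16133336) (l 16111992)) (b (l 16083544) (l 16071328)))) (a (a (c (l 15984216) (l 15955960)) (l 16021168)) (c (l 15843496) (l 15880512)))) (c (l 15882152) (l 15791304)))), by decide +kernel⟩

def k5_pm_202 : ∃ t, chk3 f_pm_202 t 9 17 1 = true :=
  ⟨(a (b (c (a (l 15801536) (l 15636240)) (l 15612704)) (c (a (b (l 15636424) (l 15513952)) (l 15454176)) (a (l 15479240) (l 15349512)))) (b (a (c (b (l 15619048) (l 15453448)) (l 15467800)) (l 15458160)) (a (c (l 15301456) (l 15216160)) (c (b (l 15296768) (l 15138832)) (l 15166584))))), by decide +kernel⟩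

def k6_pm_202 : ∃ t, chk3 f_pm_202 t 4 9 1 = true :=
  ⟨(b (a (b (a (l 1) (a (l 1) (l 687761419351))) (l 1)) (a (b (a (c (l 15185024) (b (l 15243400) (l 14982984))) (c (l 15142264) (l 15043368))) (a (l 14591632) (c (l 14662848) (l 451537063431)))) (b (c (l 14945008) (l 14874040)) (a (c (l 14628608) (l 14509840)) (l 14505952))))) (a (l 1) (a (a (l 1) (l 827345423431)) (b (a (b (l 14219168) (l 14038568)) (b (l 14184752) (l 14038440))) (a (l 13801872) (l 530992503159)))))), by decide +kernel⟩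

def k7_pm_202 : ∃ t, chk3 f_pm_202 t 4 5 1 = true :=
  ⟨(b (a (l 1) (b (a (l 1) (l 843450356743)) (l 1))) (l 1)), by decide +kernel⟩

def k8_pm_202 : ∃ t, chk3 f_pm_202 t 10 8 1 = true :=
  ⟨(b (a (a (b (c (b (l 15758056) (c (b (l 15846520) (l 15825344)) (l 15643736))) (b (c (l 15745016) (b (l 15703008) (l 15851400))) (c (l 15775312) (l 15783696)))) (c (b (a (l 15768040) (l 15774824)) (l 15887624)) (b (a (l 15886520) (l 15699896)) (l 15801568)))) (b (c (a (b (l 15802280) (c (l 15740992) (l 15734408))) (b (a (l 15890792) (l 15975064)) (b (l 15680856) (l 15886336)))) (c (b (a (l 15765808) (b (l 15927168) (l 15870088))) (a (l 15717680) (l 15869008))) (b (a (b (l 15761080) (l 15726416)) (b (c (l 15911064) (l 15817232)) (l 15856232))) (a (l 15683160) (l 15837912))))) (c (l 15890976) (l 15823584)))) (b (c (a (b (a (l 16141136) (l 16356184)) (a (b (l 15939480) (l 16043632)) (l 16284416))) (b (a (l 16060904) (l 15766840)) (l 15895288))) (b (a (c (b (l 16287832) (l 16060776)) (b (l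 16065432) (l 16032768))) (c (b (l 15882520) (l 15964240)) (b (a (l 16039984) (l 15735032)) (l 15956792)))) (a (a (c (l 16022024) (l 16015808)) (l 16273416)) (l 16009048)))) (c (a (b (l 16189920) (l 16223624)) (b (l 16152800) (l 16247136))) (a (l 16110024) (l 16015784))))) (a (a (b (c (l 15607576) (l 15644104)) (l 15079408)) (b (c (l 15917856) (l 15880976)) (c (b (l 15783112) (l 15711432)) (l 15549832)))) (b (a (l 16217816) (c (l 16356472) (l 16392040))) (a (c (l 16293904) (l 16274584)) (l 16425136))))), by decide +kernel⟩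

def k9_pm_202 : ∃ t, chk3 f_pm_202 t 10 9 1 = true :=
  ⟨(a (b (a (b (b (l 14887352) (l 14681096)) (l 14384200)) (b (l 15154280) (a (l 14528448) (l 14882256)))) (a (b (l 14063664) (c (l 13907792) (l 13760744))) (b (l 14315304) (l 14158656)))) (b (b (a (b (a (l 16038240) (l 16346112)) (l 15940752)) (b (l 16511176) (l 16526872))) (a (l 15480192) (a (l 16060072) (l 16413992)))) (a (b (b (l 15025896) (l 14840960)) (l 14699176)) (b (l 15694688) (l 15143440))))), by decide +kernel⟩

def k10_pm_202 : ∃ t, chk3 f_pm_202 t 11 4 1 = true :=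
  ⟨(b (a (b (b (c (b (l 15054648) (c (l 15219272) (l 15182344))) (b (b (l 14849232) (l 14863360)) (l 15088544))) (c (b (l 15289184) (l 15412200)) (l 15370552))) (b (a (c (l 15905904) (l 15861040)) (l 15367704)) (a (b (l 15950984) (l 16088792)) (b (l 15585104) (l 15695112))))) (b (b (c (b (l 14452736) (a (l 14577216) (l 14533936))) (b (c (l 14414328) (l 14364984)) (l 14465040))) (c (a (l 14731480) (l 14644736)) (l 14675176))) (c (l 15101856) (l 15072872)))) (a (b (b (a (l 16225536) (l 15864952)) (a (l 16491088) (l 16147168))) (a (b (a (l 16285528) (l 16611576)) (l 15997336)) (b (l 16372408) (l 16499024)))) (b (b (l 15387408) (l 15800664)) (b (l 16265328) (l 16309136))))), by decide +kernel⟩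

def k11_pm_202 : ∃ t, chk3 f_pm_202 t 5 5 1 = true :=
  ⟨(a (b (a (a (b (b (a (l 13581184) (l 13601200)) (l 13283144)) (l 1)) (b (b (l 13717512) (a (l 13527536) (l 13871192))) (l 13074168))) (b (a (b (l 14556232) (l 14217040)) (l 14908344)) (a (b (l 651788978775) (l 13804784)) (b (l 14705224) (l 14312304))))) (a (l 1) (b (l 1096854104583) (l 1)))) (b (a (b (a (b (l 15479784) (l 15431552)) (b (l 16375920) (a (l 15830640) (l 16126672)))) (a (b (l 15294152) (l 15088768)) (l 15609456))) (b (a (b (l 16430456) (l 16518584)) (l 16476480)) (a (a (l 15854216) (l 15851208)) (b (l 16434640) (l 16070880))))) (a (b (a (b (l 14776296) (l 14539336)) (b (l 15406832) (l 15133192))) (l 865464332583)) (b (a (b (l 15785304) (l 15574552)) (l 15758192)) (a (l 365639074247) (l 15216648)))))), by decide +kernel⟩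

def k12_pm_202 : ∃ t, chk3 f_pm_202 t 2 3 1 = true :=
  ⟨(a (l 1) (a (l 1) (a (l 1) (b (b (l 512740546167) (l 1)) (l 1))))), by decide +kernel⟩

def k13_pm_202 : ∃ t, chk3 f_pm_202 t 3 2 1 = true :=
  ⟨(b (b (b (a (b (c (b (l 14444840) (l 14533712)) (b (c (l 14406176) (l 14377624)) (l 14459288))) (c (l 14572368) (l 14594936))) (b (c (l 14483176) (b (l 14389800) (l 14459288))) (l 14586400))) (a (a (a (b (l 14800024) (l 15032720)) (l 14863912)) (l 14863840)) (l 14863840))) (a (b (a (a (l 15630896) (b (l 15259384) (l 15682104))) (l 15430784)) (a (a (b (l 16269384) (l 16425336)) (l 16198992)) (a (l 15978400) (l 16018296)))) (b (l 15430744) (l 16018240)))) (a (b (a (b (a (l 16513640) (l 16551272)) (a (b (l 16622648) (a (l 16353912) (l 16653168))) (l 16586096))) (b (a (l 16430408) (l 16308224)) (a (l 16530240) (l 16622808)))) (a (b (a (b (a (l 15988616) (l 16275312)) (l 15659096)) (b (l 16583616) (l 16202600))) (a (a (l 15567168) (l 15667368)) (a (l 15780640) (l 15878384)))) (b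 (a (l 16450960) (l 16409552)) (a (a (l 16244552) (l 16473184)) (l 16340176))))) (b (a (b (l 16269168) (l 16503104)) (l 16376120)) (a (b (l 16663400) (l 16453848)) (l 16738776))))), by decide +kernel⟩

def k14_pm_202 : ∃ t, chk3 f_pm_202 t 3 3 1 = true :=
  ⟨(a (b (a (b (a (b (a (l 15244368) (l 15426224)) (l 14909712)) (b (l 15339208) (l 330742624103))) (l 565353398055)) (b (a (b (a (l 15801488) (l 15983120)) (l 15444064)) (b (a (l 16244440) (l 16473080)) (a (l 15801488) (l 16004096)))) (a (b (l 15113096) (l 14909712)) (b (l 15590864) (l 15322808))))) (a (l 1) (b (l 566427139879) (l 1)))) (b (a (b (a (b (l 16382016) (l 16233208)) (b (l 16348592) (l 16382016))) (a (b (a (l 15801488) (l 16025064)) (l 15590864)) (b (l 16233208) (l 15689248)))) (b (a (l 16453768) (l 16614680)) (a (b (l 16382016) (l 16233208)) (l 16388720)))) (a (b (a (b (l 15322808) (l 14909712)) (b (l 15590864) (l 15322808))) (l 14289680)) (b (a (b (l 15752160) (l 15590864)) (b (l 16233208) (l 15794104))) (a (l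 367249400535) (b (l 15590864) (l 15322808))))))), by decide +kernel⟩

theorem s15_pm_202 : ∃ t, chk3 f_pm_202 t 3 1 1 = true := ex3_b k13_pm_202 k14_pm_202

theorem s16_pm_202 : ∃ t, chk3 f_pm_202 t 10 4 1 = true := ex3_b k8_pm_202 k9_pm_202

theorem s17_pm_202 : ∃ t, chk3 f_pm_202 t 5 4 1 = true := ex3_a s16_pm_202 k10_pm_202

theorem s18_pm_202 : ∃ t, chk3 f_pm_202 t 5 2 1 = true := ex3_b s17_pm_202 k11_pm_202

theorem s19_pm_202 : ∃ t, chk3 f_pm_202 t 9 16 1 = true := ex3_a k3_pm_202 k4_pm_202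

theorem s20_pm_202 : ∃ t, chk3 f_pm_202 t 9 8 1 = true := ex3_b s19_pm_202 k5_pm_202

theorem s21_pm_202 : ∃ t, chk3 f_pm_202 t 16 8 1 = true := ex3_a k0_pm_202 k1_pm_202

theorem s22_pm_202 : ∃ t, chk3 f_pm_202 t 8 8 1 = true := ex3_a s21_pm_202 k2_pm_202

theorem s23_pm_202 : ∃ t, chk3 f_pm_202 t 4 8 1 = true := ex3_a s22_pm_202 s20_pm_202

theorem s24_pm_202 : ∃ t, chk3 f_pm_202 t 4 4 1 = true := ex3_b s23_pm_202 k6_pm_202

theorem s25_pm_202 : ∃ t, chk3 f_pm_202 t 4 2 1 = true := ex3_b s24_pm_202 k7_pm_202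

theorem s26_pm_202 : ∃ t, chk3 f_pm_202 t 2 2 1 = true := ex3_a s25_pm_202 s18_pm_202

theorem s27_pm_202 : ∃ t, chk3 f_pm_202 t 2 1 1 = true := ex3_b s26_pm_202 k12_pm_202

theorem s28_pm_202 : ∃ t, chk3 f_pm_202 t 1 1 1 = true := ex3_a s27_pm_202 s15_pm_202

theorem c_pm_202 : CertNX 1073741824 536870912 0 536870912 1046898278 26843546 3 true true false .pp 2 0 2
    ndN3q2 ndN5q0 pcN2 Cut.none Ext.none :=
  certNX2 (fam := true) (s1 := true) (s2 := false) (a := 2) (b := 0) (c := 2) (cn := .pp) (n1 := ndN3q2) (n2 := ndN5q0) (pc := pcN2) (cut := Cut.none) (xt := Ext.none) (P1 := 1073741824) (W1 := 536870912) (P2 := 0) (W2 := 536870912) (P3 := 1046898278) (W3 := 26843546) (N0 := 3)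
    rfl (fun _ => rfl) s28_pm_202

noncomputable def f_pm_203 : ℕ → ℕ → ℕ → ℕ → Bool := onCell 1073741824 536870912 1610612736 536870912 1046898278 26843546
    (rowNX 3 1 true true false .up 2 0 3 (qsf 1073741824 536870912 0 536870912 3) ndN3q2 ndN5q0 pcN3 Cut.none Ext.none)

def k0_pm_203 : ∃ t, chk3 f_pm_203 t 1 1 1 = true :=
  ⟨(b (b (a (a (a (b (l 15590864) (l 15548920)) (a (l 16092992) (l 16540528))) (a (b (l 16348592) (l 16348592)) (b (l 16715384) (l 16715384)))) (a (b (a (l 16752744) (l 16535024)) (l 16761384)) (b (a (b (a (l 16126608) (l 15453664)) (l 16247376)) (b (a (b (l 14972784) (l 15287576)) (a (l 14783392) (c (l 657695592023) (l 14590568)))) (a (l 15474640) (b (l 14972784) (l 15287576))))) (a (l 16535024) (b (a (l 16126608) (l 15453664)) (l 16247376)))))) (b (a (a (a (l 2) (a (l 2) (l 16540528))) (a (l 16348592) (l 16715384))) (a (l 16777216) (a (l 16752744) (l 16535024)))) (a (l 4) (b (l 16767192) (l 4))))) (l 4)), by decide +kernel⟩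

theorem c_pm_203 : CertNX 1073741824 536870912 0 536870912 1046898278 26843546 3 true true false .up 2 0 3
    ndN3q2 ndN5q0 pcN3 Cut.none Ext.none :=
  certNX1 (fam := true) (s1 := true) (s2 := false) (a := 2) (b := 0) (c := 3) (cn := .up) (n1 := ndN3q2) (n2 := ndN5q0) (pc := pcN3) (cut := Cut.none) (xt := Ext.none) (P1 := 1073741824) (W1 := 536870912) (P2 := 0) (W2 := 536870912) (P3 := 1046898278) (W3 := 26843546) (N0 := 3)
    rfl (fun _ => rfl) k0_pm_203

noncomputable def f_pm_213 : ℕ → ℕ → ℕ → ℕ → Bool := onCell 1073741824 536870912 1610612736 536870912 1046898278 26843546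
    (rowNX 3 1 true true false .pnn 2 1 3 (qsf 1073741824 536870912 536870912 469762048 3) ndN3q2 ndN5q1 pcN3 Cut.none Ext.none)

def k0_pm_213 : ∃ t, chk3 f_pm_213 t 1 1 1 = true :=
  ⟨(b (b (a (a (a (b (l 15590864) (l 15548920)) (a (l 16092992) (l 16540528))) (a (b (l 1) (l 16348592)) (l 1))) (l 1)) (b (a (a (a (c (l 15621992) (l 15571712)) (a (l 16155904) (l 16540528))) (a (l 16348592) (l 16715384))) (l 1)) (a (l 4) (l 16777216)))) (l 4)), by decide +kernel⟩

theorem c_pm_213 : CertNX 1073741824 536870912 536870912 469762048 1046898278 26843546 3 true true false .pnn 2 1 3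
    ndN3q2 ndN5q1 pcN3 Cut.none Ext.none :=
  certNX1 (fam := true) (s1 := true) (s2 := false) (a := 2) (b := 1) (c := 3) (cn := .pnn) (n1 := ndN3q2) (n2 := ndN5q1) (pc := pcN3) (cut := Cut.none) (xt := Ext.none) (P1 := 1073741824) (W1 := 536870912) (P2 := 536870912) (W2 := 469762048) (P3 := 1046898278) (W3 := 26843546) (N0 := 3)
    rfl (fun _ => rfl) k0_pm_213

noncomputable def f_pm_303 : ℕ → ℕ → ℕ → ℕ → Bool := onCell 1610612736 536870912 0 536870912 1046898278 26843546
    (rowNX 3 2 true true false .npn 3 0 3 (qsf 1610612736 536870912 0 536870912 3) ndN3q3 ndN5q0 pcN3 Cut.none Ext.none)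

def k0_pm_303 : ∃ t, chk3 f_pm_303 t 1 1 1 = true :=
  ⟨(a (b (b (b (a (b (b (c (l 14483176) (l 14197936)) (l 131025172007)) (l 14863840)) (b (b (c (a (l 14483176) (l 14483176)) (a (l 14428624) (l 14428624))) (a (l 14586400) (l 14355712))) (a (l 14863840) (l 14863840)))) (a (b (l 15430744) (l 16018240)) (a (b (l 15430744) (l 16018240)) (b (l 15430744) (l 16018240))))) (a (a (l 1) (l 16535024)) (a (l 16535024) (b (l 16376120) (l 16726952))))) (a (l 1) (c (l 16777216) (l 16777216)))) (a (b (b (l 4) (l 4)) (l 4)) (l 4))), by decide +kernel⟩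

theorem c_pm_303 : CertNX 1610612736 536870912 0 536870912 1046898278 26843546 3 true true false .npn 3 0 3
    ndN3q3 ndN5q0 pcN3 Cut.none Ext.none :=
  certNX2 (fam := true) (s1 := true) (s2 := false) (a := 3) (b := 0) (c := 3) (cn := .npn) (n1 := ndN3q3) (n2 := ndN5q0) (pc := pcN3) (cut := Cut.none) (xt := Ext.none) (P1 := 1610612736) (W1 := 536870912) (P2 := 0) (W2 := 536870912) (P3 := 1046898278) (W3 := 26843546) (N0 := 3)
    rfl (fun _ => rfl) k0_pm_303

noncomputable def f_pm_313 : ℕ → ℕ → ℕ → ℕ → Bool := onCell 1610612736 536870912 536870912 469762048 1046898278 26843546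
    (rowNX 3 0 true true false .dn 3 1 3 (qsf 1610612736 536870912 536870912 469762048 3) ndN3q3 ndN5q1 pcN3 Cut.none Ext.none)

def k0_pm_313 : ∃ t, chk3 f_pm_313 t 1 1 1 = true :=
  ⟨(l 4), by decide +kernel⟩

theorem c_pm_313 : CertNX 1610612736 536870912 536870912 469762048 1046898278 26843546 3 true true false .dn 3 1 3
    ndN3q3 ndN5q1 pcN3 Cut.none Ext.none :=
  certNX0 (fam := true) (s1 := true) (s2 := false) (a := 3) (b := 1) (c := 3) (cn := .dn) (n1 := ndN3q3) (n2 := ndN5q1) (pc := pcN3) (cut := Cut.none) (xt := Ext.none) (P1 := 1610612736) (W1 := 536870912) (P2 := 536870912) (W2 := 469762048) (P3 := 1046898278) (W3 := 26843546) (N0 := 3)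
    rfl k0_pm_313

noncomputable def f_mm_001 : ℕ → ℕ → ℕ → ℕ → Bool := onCell 0 536870912 0 536870912 1046898278 26843546
    (rowNX 3 0 true false false .up 0 0 1 (qsf 0 536870912 0 536870912 1) ndN3q0 ndN5q0 pcN1 Cut.none Ext.none)

def k0_mm_001 : ∃ t, chk3 f_mm_001 t 1 1 1 = true :=
  ⟨(l 4), by decide +kernel⟩

theorem c_mm_001 : CertNX 0 536870912 0 536870912 1046898278 26843546 3 true false false .up 0 0 1
    ndN3q0 ndN5q0 pcN1 Cut.none Ext.none :=
  certNX0 (fam := true) (s1 := false) (s2 := false) (a := 0) (b := 0) (c := 1) (cn := .up) (n1 := ndN3q0) (n2 := ndN5q0) (pc := pcN1) (cut := Cut.none) (xt := Ext.none) (P1 := 0) (W1 := 536870912) (P2 := 0) (W2 := 536870912) (P3 := 1046898278) (W3 := 26843546) (N0 := 3)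
    rfl k0_mm_001

noncomputable def f_mm_011 : ℕ → ℕ → ℕ → ℕ → Bool := onCell 0 536870912 536870912 469762048 1046898278 26843546
    (rowNX 3 0 true false false .pnn 0 1 1 (qsf 0 536870912 536870912 469762048 1) ndN3q0 ndN5q1 pcN1 Cut.none Ext.none)

def k0_mm_011 : ∃ t, chk3 f_mm_011 t 1 1 1 = true :=
  ⟨(l 4), by decide +kernel⟩

theorem c_mm_011 : CertNX 0 536870912 536870912 469762048 1046898278 26843546 3 true false false .pnn 0 1 1
    ndN3q0 ndN5q1 pcN1 Cut.none Ext.none :=
  certNX0 (fam := true) (s1 := false) (s2 := false) (a := 0) (b := 1) (c := 1) (cn := .pnn) (n1 := ndN3q0) (n2 := ndN5q1) (pc := pcN1) (cut := Cut.none) (xt := Ext.none) (P1 := 0) (W1 := 536870912) (P2 := 536870912) (W2 := 469762048) (P3 := 1046898278) (W3 := 26843546) (N0 := 3)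
    rfl k0_mm_011

noncomputable def f_mm_012 : ℕ → ℕ → ℕ → ℕ → Bool := onCell 0 536870912 536870912 469762048 1046898278 26843546
    (rowNX 3 0 true false false .pnp 0 1 2 (qsf 0 536870912 536870912 469762048 2) ndN3q0 ndN5q1 pcN2 Cut.none Ext.none)

def k0_mm_012 : ∃ t, chk3 f_mm_012 t 1 1 1 = true :=
  ⟨(l 4), by decide +kernel⟩

theorem c_mm_012 : CertNX 0 536870912 536870912 469762048 1046898278 26843546 3 true false false .pnp 0 1 2
    ndN3q0 ndN5q1 pcN2 Cut.none Ext.none :=
  certNX0 (fam := true) (s1 := false) (s2 := false) (a := 0) (b := 1) (c := 2) (cn := .pnp) (n1 := ndN3q0) (n2 := ndN5q1) (pc := pcN2) (cut := Cut.none) (xt := Ext.none) (P1 := 0) (W1 := 536870912) (P2 := 536870912) (W2 := 469762048) (P3 := 1046898278) (W3 := 26843546) (N0 := 3)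
    rfl k0_mm_012

noncomputable def f_mm_022 : ℕ → ℕ → ℕ → ℕ → Bool := onCell 0 536870912 1073741824 536870912 1046898278 26843546
    (rowNX 3 0 true false false .pp 0 2 2 (qsf 0 536870912 1073741824 536870912 2) ndN3q0 ndN5q2 pcN2 Cut.none Ext.none)

def k0_mm_022 : ∃ t, chk3 f_mm_022 t 1 1 1 = true :=
  ⟨(l 4), by decide +kernel⟩

theorem c_mm_022 : CertNX 0 536870912 1073741824 536870912 1046898278 26843546 3 true false false .pp 0 2 2
    ndN3q0 ndN5q2 pcN2 Cut.none Ext.none :=
  certNX0 (fam := true) (s1 := false) (s2 := false) (a := 0) (b := 2) (c := 2) (cn := .pp) (n1 := ndN3q0) (n2 := ndN5q2) (pc := pcN2) (cut := Cut.none) (xt := Ext.none) (P1 := 0) (W1 := 536870912) (P2 := 1073741824) (W2 := 536870912) (P3 := 1046898278) (W3 := 26843546) (N0 := 3)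
    rfl k0_mm_022

noncomputable def f_mm_023 : ℕ → ℕ → ℕ → ℕ → Bool := onCell 0 536870912 1073741824 536870912 1046898278 26843546
    (rowNX 3 0 true false false .up 0 2 3 (qsf 0 536870912 1073741824 536870912 3) ndN3q0 ndN5q2 pcN3 Cut.none Ext.none)

def k0_mm_023 : ∃ t, chk3 f_mm_023 t 1 1 1 = true :=
  ⟨(l 4), by decide +kernel⟩

theorem c_mm_023 : CertNX 0 536870912 1073741824 536870912 1046898278 26843546 3 true false false .up 0 2 3
    ndN3q0 ndN5q2 pcN3 Cut.none Ext.none :=
  certNX0 (fam := true) (s1 := false) (s2 := false) (a := 0) (b := 2) (c := 3) (cn := .up) (n1 := ndN3q0) (n2 := ndN5q2) (pc := pcN3) (cut := Cut.none) (xt := Ext.none) (P1 := 0) (W1 := 536870912) (P2 := 1073741824) (W2 := 536870912) (P3 := 1046898278) (W3 := 26843546) (N0 := 3)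
    rfl k0_mm_023

noncomputable def f_mm_033 : ℕ → ℕ → ℕ → ℕ → Bool := onCell 0 536870912 0 1230186008 1046898278 26843546
    (rowNX 3 0 true false false .pnn 0 3 3 (qsf 0 536870912 0 1230186008 3) ndN3q0 ndN5q3 pcN3 Cut.none Ext.none)

def k0_mm_033 : ∃ t, chk3 f_mm_033 t 1 1 1 = true :=
  ⟨(l 5), by decide +kernel⟩

theorem c_mm_033 : CertNX 0 536870912 0 1230186008 1046898278 26843546 3 true false false .pnn 0 3 3
    ndN3q0 ndN5q3 pcN3 Cut.none Ext.none :=
  certNX0 (fam := true) (s1 := false) (s2 := false) (a := 0) (b := 3) (c := 3) (cn := .pnn) (n1 := ndN3q0) (n2 := ndN5q3) (pc := pcN3) (cut := Cut.none) (xt := Ext.none) (P1 := 0) (W1 := 536870912) (P2 := 0) (W2 := 1230186008) (P3 := 1046898278) (W3 := 26843546) (N0 := 3)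
    rfl k0_mm_033

noncomputable def f_mm_101 : ℕ → ℕ → ℕ → ℕ → Bool := onCell 536870912 536870912 0 536870912 1046898278 26843546
    (rowNX 3 0 true false false .npn 1 0 1 (qsf 536870912 536870912 0 536870912 1) ndN3q1 ndN5q0 pcN1 Cut.none Ext.none)

def k0_mm_101 : ∃ t, chk3 f_mm_101 t 1 1 1 = true :=
  ⟨(l 4), by decide +kernel⟩

theorem c_mm_101 : CertNX 536870912 536870912 0 536870912 1046898278 26843546 3 true false false .npn 1 0 1
    ndN3q1 ndN5q0 pcN1 Cut.none Ext.none :=
  certNX0 (fam := true) (s1 := false) (s2 := false) (a := 1) (b := 0) (c := 1) (cn := .npn) (n1 := ndN3q1) (n2 := ndN5q0) (pc := pcN1) (cut := Cut.none) (xt := Ext.none) (P1 := 536870912) (W1 := 536870912) (P2 := 0) (W2 := 536870912) (P3 := 1046898278) (W3 := 26843546) (N0 := 3)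
    rfl k0_mm_101

noncomputable def f_mm_102 : ℕ → ℕ → ℕ → ℕ → Bool := onCell 536870912 536870912 0 536870912 1046898278 26843546
    (rowNX 3 0 true false false .npp 1 0 2 (qsf 536870912 536870912 0 536870912 2) ndN3q1 ndN5q0 pcN2 Cut.none Ext.none)

def k0_mm_102 : ∃ t, chk3 f_mm_102 t 1 1 1 = true :=
  ⟨(l 4), by decide +kernel⟩

theorem c_mm_102 : CertNX 536870912 536870912 0 536870912 1046898278 26843546 3 true false false .npp 1 0 2
    ndN3q1 ndN5q0 pcN2 Cut.none Ext.none :=
  certNX0 (fam := true) (s1 := false) (s2 := false) (a := 1) (b := 0) (c := 2) (cn := .npp) (n1 := ndN3q1) (n2 := ndN5q0) (pc := pcN2) (cut := Cut.none) (xt := Ext.none) (P1 := 536870912) (W1 := 536870912) (P2 := 0) (W2 := 536870912) (P3 := 1046898278) (W3 := 26843546) (N0 := 3)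
    rfl k0_mm_102

noncomputable def f_mm_112 : ℕ → ℕ → ℕ → ℕ → Bool := onCell 536870912 536870912 536870912 469762048 1046898278 26843546
    (rowNX 3 0 true false false .dn 1 1 2 (qsf 536870912 536870912 536870912 469762048 2) ndN3q1 ndN5q1 pcN2 Cut.none Ext.none)

def k0_mm_112 : ∃ t, chk3 f_mm_112 t 1 1 1 = true :=
  ⟨(l 4), by decide +kernel⟩

theorem c_mm_112 : CertNX 536870912 536870912 536870912 469762048 1046898278 26843546 3 true false false .dn 1 1 2
    ndN3q1 ndN5q1 pcN2 Cut.none Ext.none :=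
  certNX0 (fam := true) (s1 := false) (s2 := false) (a := 1) (b := 1) (c := 2) (cn := .dn) (n1 := ndN3q1) (n2 := ndN5q1) (pc := pcN2) (cut := Cut.none) (xt := Ext.none) (P1 := 536870912) (W1 := 536870912) (P2 := 536870912) (W2 := 469762048) (P3 := 1046898278) (W3 := 26843546) (N0 := 3)
    rfl k0_mm_112

noncomputable def f_mm_113 : ℕ → ℕ → ℕ → ℕ → Bool := onCell 536870912 536870912 536870912 469762048 1046898278 26843546
    (rowNX 3 0 true false false .nn 1 1 3 (qsf 536870912 536870912 536870912 469762048 3) ndN3q1 ndN5q1 pcN3 Cut.none Ext.none)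

def k0_mm_113 : ∃ t, chk3 f_mm_113 t 1 1 1 = true :=
  ⟨(l 4), by decide +kernel⟩

theorem c_mm_113 : CertNX 536870912 536870912 536870912 469762048 1046898278 26843546 3 true false false .nn 1 1 3
    ndN3q1 ndN5q1 pcN3 Cut.none Ext.none :=
  certNX0 (fam := true) (s1 := false) (s2 := false) (a := 1) (b := 1) (c := 3) (cn := .nn) (n1 := ndN3q1) (n2 := ndN5q1) (pc := pcN3) (cut := Cut.none) (xt := Ext.none) (P1 := 536870912) (W1 := 536870912) (P2 := 536870912) (W2 := 469762048) (P3 := 1046898278) (W3 := 26843546) (N0 := 3)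
    rfl k0_mm_113

noncomputable def f_mm_123 : ℕ → ℕ → ℕ → ℕ → Bool := onCell 536870912 536870912 1073741824 536870912 1046898278 26843546
    (rowNX 3 0 true false false .npn 1 2 3 (qsf 536870912 536870912 1073741824 536870912 3) ndN3q1 ndN5q2 pcN3 Cut.none Ext.none)

def k0_mm_123 : ∃ t, chk3 f_mm_123 t 1 1 1 = true :=
  ⟨(l 4), by decide +kernel⟩

theorem c_mm_123 : CertNX 536870912 536870912 1073741824 536870912 1046898278 26843546 3 true false false .npn 1 2 3
    ndN3q1 ndN5q2 pcN3 Cut.none Ext.none :=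
  certNX0 (fam := true) (s1 := false) (s2 := false) (a := 1) (b := 2) (c := 3) (cn := .npn) (n1 := ndN3q1) (n2 := ndN5q2) (pc := pcN3) (cut := Cut.none) (xt := Ext.none) (P1 := 536870912) (W1 := 536870912) (P2 := 1073741824) (W2 := 536870912) (P3 := 1046898278) (W3 := 26843546) (N0 := 3)
    rfl k0_mm_123

noncomputable def f_mm_133 : ℕ → ℕ → ℕ → ℕ → Bool := onCell 536870912 536870912 0 1230186008 1046898278 26843546
    (rowNX 3 0 true false false .dn 1 3 3 (qsf 536870912 536870912 0 1230186008 3) ndN3q1 ndN5q3 pcN3 Cut.none Ext.none)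

def k0_mm_133 : ∃ t, chk3 f_mm_133 t 1 1 1 = true :=
  ⟨(l 4), by decide +kernel⟩

theorem c_mm_133 : CertNX 536870912 536870912 0 1230186008 1046898278 26843546 3 true false false .dn 1 3 3
    ndN3q1 ndN5q3 pcN3 Cut.none Ext.none :=
  certNX0 (fam := true) (s1 := false) (s2 := false) (a := 1) (b := 3) (c := 3) (cn := .dn) (n1 := ndN3q1) (n2 := ndN5q3) (pc := pcN3) (cut := Cut.none) (xt := Ext.none) (P1 := 536870912) (W1 := 536870912) (P2 := 0) (W2 := 1230186008) (P3 := 1046898278) (W3 := 26843546) (N0 := 3)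
    rfl k0_mm_133

noncomputable def f_mm_202 : ℕ → ℕ → ℕ → ℕ → Bool := onCell 1073741824 536870912 0 536870912 1046898278 26843546
    (rowNX 3 0 true false false .pp 2 0 2 (qsf 1073741824 536870912 0 536870912 2) ndN3q2 ndN5q0 pcN2 Cut.none Ext.none)

def k0_mm_202 : ∃ t, chk3 f_mm_202 t 1 1 1 = true :=
  ⟨(b (l 4) (l 4)), by decide +kernel⟩

theorem c_mm_202 : CertNX 1073741824 536870912 0 536870912 1046898278 26843546 3 true false false .pp 2 0 2
    ndN3q2 ndN5q0 pcN2 Cut.none Ext.none :=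
  certNX0 (fam := true) (s1 := false) (s2 := false) (a := 2) (b := 0) (c := 2) (cn := .pp) (n1 := ndN3q2) (n2 := ndN5q0) (pc := pcN2) (cut := Cut.none) (xt := Ext.none) (P1 := 1073741824) (W1 := 536870912) (P2 := 0) (W2 := 536870912) (P3 := 1046898278) (W3 := 26843546) (N0 := 3)
    rfl k0_mm_202

noncomputable def f_mm_203 : ℕ → ℕ → ℕ → ℕ → Bool := onCell 1073741824 536870912 1610612736 536870912 1046898278 26843546
    (rowNX 3 1 true false false .up 2 0 3 (qsf 1073741824 536870912 0 536870912 3) ndN3q2 ndN5q0 pcN3 Cut.none Ext.none)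

def k0_mm_203 : ∃ t, chk3 f_mm_203 t 1 1 1 = true :=
  ⟨(l 4), by decide +kernel⟩

theorem c_mm_203 : CertNX 1073741824 536870912 0 536870912 1046898278 26843546 3 true false false .up 2 0 3
    ndN3q2 ndN5q0 pcN3 Cut.none Ext.none :=
  certNX1 (fam := true) (s1 := false) (s2 := false) (a := 2) (b := 0) (c := 3) (cn := .up) (n1 := ndN3q2) (n2 := ndN5q0) (pc := pcN3) (cut := Cut.none) (xt := Ext.none) (P1 := 1073741824) (W1 := 536870912) (P2 := 0) (W2 := 536870912) (P3 := 1046898278) (W3 := 26843546) (N0 := 3)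
    rfl (fun _ => rfl) k0_mm_203

noncomputable def f_mm_213 : ℕ → ℕ → ℕ → ℕ → Bool := onCell 1073741824 536870912 536870912 469762048 1046898278 26843546
    (rowNX 3 0 true false false .pnn 2 1 3 (qsf 1073741824 536870912 536870912 469762048 3) ndN3q2 ndN5q1 pcN3 Cut.none Ext.none)

def k0_mm_213 : ∃ t, chk3 f_mm_213 t 1 1 1 = true :=
  ⟨(l 4), by decide +kernel⟩

theorem c_mm_213 : CertNX 1073741824 536870912 536870912 469762048 1046898278 26843546 3 true false false .pnn 2 1 3
    ndN3q2 ndN5q1 pcN3 Cut.none Ext.none :=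
  certNX0 (fam := true) (s1 := false) (s2 := false) (a := 2) (b := 1) (c := 3) (cn := .pnn) (n1 := ndN3q2) (n2 := ndN5q1) (pc := pcN3) (cut := Cut.none) (xt := Ext.none) (P1 := 1073741824) (W1 := 536870912) (P2 := 536870912) (W2 := 469762048) (P3 := 1046898278) (W3 := 26843546) (N0 := 3)
    rfl k0_mm_213

noncomputable def f_mm_303 : ℕ → ℕ → ℕ → ℕ → Bool := onCell 1610612736 536870912 0 536870912 1046898278 26843546
    (rowNX 3 0 true false false .npn 3 0 3 (qsf 1610612736 536870912 0 536870912 3) ndN3q3 ndN5q0 pcN3 Cut.none Ext.none)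

def k0_mm_303 : ∃ t, chk3 f_mm_303 t 1 1 1 = true :=
  ⟨(l 4), by decide +kernel⟩

theorem c_mm_303 : CertNX 1610612736 536870912 0 536870912 1046898278 26843546 3 true false false .npn 3 0 3
    ndN3q3 ndN5q0 pcN3 Cut.none Ext.none :=
  certNX0 (fam := true) (s1 := false) (s2 := false) (a := 3) (b := 0) (c := 3) (cn := .npn) (n1 := ndN3q3) (n2 := ndN5q0) (pc := pcN3) (cut := Cut.none) (xt := Ext.none) (P1 := 1610612736) (W1 := 536870912) (P2 := 0) (W2 := 536870912) (P3 := 1046898278) (W3 := 26843546) (N0 := 3)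
    rfl k0_mm_303

noncomputable def f_mm_313 : ℕ → ℕ → ℕ → ℕ → Bool := onCell 1610612736 536870912 536870912 469762048 1046898278 26843546
    (rowNX 3 0 true false false .dn 3 1 3 (qsf 1610612736 536870912 536870912 469762048 3) ndN3q3 ndN5q1 pcN3 Cut.none Ext.none)

def k0_mm_313 : ∃ t, chk3 f_mm_313 t 1 1 1 = true :=
  ⟨(l 4), by decide +kernel⟩

theorem c_mm_313 : CertNX 1610612736 536870912 536870912 469762048 1046898278 26843546 3 true false false .dn 3 1 3
    ndN3q3 ndN5q1 pcN3 Cut.none Ext.none :=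
  certNX0 (fam := true) (s1 := false) (s2 := false) (a := 3) (b := 1) (c := 3) (cn := .dn) (n1 := ndN3q3) (n2 := ndN5q1) (pc := pcN3) (cut := Cut.none) (xt := Ext.none) (P1 := 1610612736) (W1 := 536870912) (P2 := 536870912) (W2 := 469762048) (P3 := 1046898278) (W3 := 26843546) (N0 := 3)
    rfl k0_mm_313

end Pool.Agent.Strip051.G.IE1.Tab.C.NA35

namespace Pool.Agent.Strip051.G.IE1.Tab.C.NA36

open Pool.Agent.Strip051.PB Pool.Agent.Strip051.PB.T
open Pool.Agent.Strip051.G.IE1.Tab

noncomputable def f_pp_001 : ℕ → ℕ → ℕ → ℕ → Bool := onCell 0 536870912 0 536870912 1046898278 26843546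
    (rowNX 3 0 true true true .up 0 0 1 (qsf 0 536870912 0 536870912 1) ndN3q0 ndN6q0 pcN1 Cut.none Ext.none)

def k0_pp_001 : ∃ t, chk3 f_pp_001 t 1 1 1 = true :=
  ⟨(l 4), by decide +kernel⟩

theorem c_pp_001 : CertNX 0 536870912 0 536870912 1046898278 26843546 3 true true true .up 0 0 1
    ndN3q0 ndN6q0 pcN1 Cut.none Ext.none :=
  certNX0 (fam := true) (s1 := true) (s2 := true) (a := 0) (b := 0) (c := 1) (cn := .up) (n1 := ndN3q0) (n2 := ndN6q0) (pc := pcN1) (cut := Cut.none) (xt := Ext.none) (P1 := 0) (W1 := 536870912) (P2 := 0) (W2 := 536870912) (P3 := 1046898278) (W3 := 26843546) (N0 := 3)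
    rfl k0_pp_001

noncomputable def f_pp_011 : ℕ → ℕ → ℕ → ℕ → Bool := onCell 0 536870912 536870912 469762048 1046898278 26843546
    (rowNX 3 0 true true true .pnn 0 1 1 (qsf 0 536870912 536870912 469762048 1) ndN3q0 ndN6q1 pcN1 Cut.none Ext.none)

def k0_pp_011 : ∃ t, chk3 f_pp_011 t 1 1 1 = true :=
  ⟨(l 4), by decide +kernel⟩

theorem c_pp_011 : CertNX 0 536870912 536870912 469762048 1046898278 26843546 3 true true true .pnn 0 1 1
    ndN3q0 ndN6q1 pcN1 Cut.none Ext.none :=
  certNX0 (fam := true) (s1 := true) (s2 := true) (a := 0) (b := 1) (c := 1) (cn := .pnn) (n1 := ndN3q0) (n2 := ndN6q1) (pc := pcN1) (cut := Cut.none) (xt := Ext.none) (P1 := 0) (W1 := 536870912) (P2 := 536870912) (W2 := 469762048) (P3 := 1046898278) (W3 := 26843546) (N0 := 3)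
    rfl k0_pp_011

noncomputable def f_pp_012 : ℕ → ℕ → ℕ → ℕ → Bool := onCell 0 536870912 536870912 469762048 1046898278 26843546
    (rowNX 3 0 true true true .pnp 0 1 2 (qsf 0 536870912 536870912 469762048 2) ndN3q0 ndN6q1 pcN2 Cut.none Ext.none)

def k0_pp_012 : ∃ t, chk3 f_pp_012 t 1 1 1 = true :=
  ⟨(l 4), by decide +kernel⟩

theorem c_pp_012 : CertNX 0 536870912 536870912 469762048 1046898278 26843546 3 true true true .pnp 0 1 2
    ndN3q0 ndN6q1 pcN2 Cut.none Ext.none :=
  certNX0 (fam := true) (s1 := true) (s2 := true) (a := 0) (b := 1) (c := 2) (cn := .pnp) (n1 := ndN3q0) (n2 := ndN6q1) (pc := pcN2) (cut := Cut.none) (xt := Ext.none) (P1 := 0) (W1 := 536870912) (P2 := 536870912) (W2 := 469762048) (P3 := 1046898278) (W3 := 26843546) (N0 := 3)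
    rfl k0_pp_012

noncomputable def f_pp_022 : ℕ → ℕ → ℕ → ℕ → Bool := onCell 0 536870912 1073741824 536870912 1046898278 26843546
    (rowNX 3 0 true true true .pp 0 2 2 (qsf 0 536870912 1073741824 536870912 2) ndN3q0 ndN6q2 pcN2 Cut.none Ext.none)

def k0_pp_022 : ∃ t, chk3 f_pp_022 t 1 1 1 = true :=
  ⟨(l 4), by decide +kernel⟩

theorem c_pp_022 : CertNX 0 536870912 1073741824 536870912 1046898278 26843546 3 true true true .pp 0 2 2
    ndN3q0 ndN6q2 pcN2 Cut.none Ext.none :=
  certNX0 (fam := true) (s1 := true) (s2 := true) (a := 0) (b := 2) (c := 2) (cn := .pp) (n1 := ndN3q0) (n2 := ndN6q2) (pc := pcN2) (cut := Cut.none) (xt := Ext.none) (P1 := 0) (W1 := 536870912) (P2 := 1073741824) (W2 := 536870912) (P3 := 1046898278) (W3 := 26843546) (N0 := 3)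
    rfl k0_pp_022

noncomputable def f_pp_023 : ℕ → ℕ → ℕ → ℕ → Bool := onCell 0 536870912 1073741824 536870912 1046898278 26843546
    (rowNX 3 0 true true true .up 0 2 3 (qsf 0 536870912 1073741824 536870912 3) ndN3q0 ndN6q2 pcN3 Cut.none Ext.none)

def k0_pp_023 : ∃ t, chk3 f_pp_023 t 1 1 1 = true :=
  ⟨(l 4), by decide +kernel⟩

theorem c_pp_023 : CertNX 0 536870912 1073741824 536870912 1046898278 26843546 3 true true true .up 0 2 3
    ndN3q0 ndN6q2 pcN3 Cut.none Ext.none :=
  certNX0 (fam := true) (s1 := true) (s2 := true) (a := 0) (b := 2) (c := 3) (cn := .up) (n1 := ndN3q0) (n2 := ndN6q2) (pc := pcN3) (cut := Cut.none) (xt := Ext.none) (P1 := 0) (W1 := 536870912) (P2 := 1073741824) (W2 := 536870912) (P3 := 1046898278) (W3 := 26843546) (N0 := 3)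
    rfl k0_pp_023

noncomputable def f_pp_033 : ℕ → ℕ → ℕ → ℕ → Bool := onCell 0 536870912 0 1230186008 1046898278 26843546
    (rowNX 3 0 true true true .pnn 0 3 3 (qsf 0 536870912 0 1230186008 3) ndN3q0 ndN6q3 pcN3 Cut.none Ext.none)

def k0_pp_033 : ∃ t, chk3 f_pp_033 t 1 1 1 = true :=
  ⟨(b (l 4) (l 4)), by decide +kernel⟩

theorem c_pp_033 : CertNX 0 536870912 0 1230186008 1046898278 26843546 3 true true true .pnn 0 3 3
    ndN3q0 ndN6q3 pcN3 Cut.none Ext.none :=
  certNX0 (fam := true) (s1 := true) (s2 := true) (a := 0) (b := 3) (c := 3) (cn := .pnn) (n1 := ndN3q0) (n2 := ndN6q3) (pc := pcN3) (cut := Cut.none) (xt := Ext.none) (P1 := 0) (W1 := 536870912) (P2 := 0) (W2 := 1230186008) (P3 := 1046898278) (W3 := 26843546) (N0 := 3)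
    rfl k0_pp_033

noncomputable def f_pp_101 : ℕ → ℕ → ℕ → ℕ → Bool := onCell 536870912 536870912 0 536870912 1046898278 26843546
    (rowNX 3 0 true true true .npn 1 0 1 (qsf 536870912 536870912 0 536870912 1) ndN3q1 ndN6q0 pcN1 Cut.none Ext.none)

def k0_pp_101 : ∃ t, chk3 f_pp_101 t 1 1 1 = true :=
  ⟨(l 4), by decide +kernel⟩

theorem c_pp_101 : CertNX 536870912 536870912 0 536870912 1046898278 26843546 3 true true true .npn 1 0 1
    ndN3q1 ndN6q0 pcN1 Cut.none Ext.none :=
  certNX0 (fam := true) (s1 := true) (s2 := true) (a := 1) (b := 0) (c := 1) (cn := .npn) (n1 := ndN3q1) (n2 := ndN6q0) (pc := pcN1) (cut := Cut.none) (xt := Ext.none) (P1 := 536870912) (W1 := 536870912) (P2 := 0) (W2 := 536870912) (P3 := 1046898278) (W3 := 26843546) (N0 := 3)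
    rfl k0_pp_101

noncomputable def f_pp_102 : ℕ → ℕ → ℕ → ℕ → Bool := onCell 536870912 536870912 0 536870912 1046898278 26843546
    (rowNX 3 0 true true true .npp 1 0 2 (qsf 536870912 536870912 0 536870912 2) ndN3q1 ndN6q0 pcN2 Cut.none Ext.none)

def k0_pp_102 : ∃ t, chk3 f_pp_102 t 1 1 1 = true :=
  ⟨(l 4), by decide +kernel⟩

theorem c_pp_102 : CertNX 536870912 536870912 0 536870912 1046898278 26843546 3 true true true .npp 1 0 2
    ndN3q1 ndN6q0 pcN2 Cut.none Ext.none :=
  certNX0 (fam := true) (s1 := true) (s2 := true) (a := 1) (b := 0) (c := 2) (cn := .npp) (n1 := ndN3q1) (n2 := ndN6q0) (pc := pcN2) (cut := Cut.none) (xt := Ext.none) (P1 := 536870912) (W1 := 536870912) (P2 := 0) (W2 := 536870912) (P3 := 1046898278) (W3 := 26843546) (N0 := 3)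
    rfl k0_pp_102

noncomputable def f_pp_112 : ℕ → ℕ → ℕ → ℕ → Bool := onCell 536870912 536870912 536870912 469762048 1046898278 26843546
    (rowNX 3 0 true true true .dn 1 1 2 (qsf 536870912 536870912 536870912 469762048 2) ndN3q1 ndN6q1 pcN2 Cut.none Ext.none)

def k0_pp_112 : ∃ t, chk3 f_pp_112 t 1 1 1 = true :=
  ⟨(l 4), by decide +kernel⟩

theorem c_pp_112 : CertNX 536870912 536870912 536870912 469762048 1046898278 26843546 3 true true true .dn 1 1 2
    ndN3q1 ndN6q1 pcN2 Cut.none Ext.none :=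
  certNX0 (fam := true) (s1 := true) (s2 := true) (a := 1) (b := 1) (c := 2) (cn := .dn) (n1 := ndN3q1) (n2 := ndN6q1) (pc := pcN2) (cut := Cut.none) (xt := Ext.none) (P1 := 536870912) (W1 := 536870912) (P2 := 536870912) (W2 := 469762048) (P3 := 1046898278) (W3 := 26843546) (N0 := 3)
    rfl k0_pp_112

noncomputable def f_pp_113 : ℕ → ℕ → ℕ → ℕ → Bool := onCell 536870912 536870912 536870912 469762048 1046898278 26843546
    (rowNX 3 0 true true true .nn 1 1 3 (qsf 536870912 536870912 536870912 469762048 3) ndN3q1 ndN6q1 pcN3 Cut.none Ext.none)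

def k0_pp_113 : ∃ t, chk3 f_pp_113 t 1 1 1 = true :=
  ⟨(l 4), by decide +kernel⟩

theorem c_pp_113 : CertNX 536870912 536870912 536870912 469762048 1046898278 26843546 3 true true true .nn 1 1 3
    ndN3q1 ndN6q1 pcN3 Cut.none Ext.none :=
  certNX0 (fam := true) (s1 := true) (s2 := true) (a := 1) (b := 1) (c := 3) (cn := .nn) (n1 := ndN3q1) (n2 := ndN6q1) (pc := pcN3) (cut := Cut.none) (xt := Ext.none) (P1 := 536870912) (W1 := 536870912) (P2 := 536870912) (W2 := 469762048) (P3 := 1046898278) (W3 := 26843546) (N0 := 3)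
    rfl k0_pp_113

noncomputable def f_pp_123 : ℕ → ℕ → ℕ → ℕ → Bool := onCell 536870912 536870912 1073741824 536870912 1046898278 26843546
    (rowNX 3 0 true true true .npn 1 2 3 (qsf 536870912 536870912 1073741824 536870912 3) ndN3q1 ndN6q2 pcN3 Cut.none Ext.none)

def k0_pp_123 : ∃ t, chk3 f_pp_123 t 1 1 1 = true :=
  ⟨(l 4), by decide +kernel⟩

theorem c_pp_123 : CertNX 536870912 536870912 1073741824 536870912 1046898278 26843546 3 true true true .npn 1 2 3
    ndN3q1 ndN6q2 pcN3 Cut.none Ext.none :=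
  certNX0 (fam := true) (s1 := true) (s2 := true) (a := 1) (b := 2) (c := 3) (cn := .npn) (n1 := ndN3q1) (n2 := ndN6q2) (pc := pcN3) (cut := Cut.none) (xt := Ext.none) (P1 := 536870912) (W1 := 536870912) (P2 := 1073741824) (W2 := 536870912) (P3 := 1046898278) (W3 := 26843546) (N0 := 3)
    rfl k0_pp_123

noncomputable def f_pp_133 : ℕ → ℕ → ℕ → ℕ → Bool := onCell 536870912 536870912 0 1230186008 1046898278 26843546
    (rowNX 3 0 true true true .dn 1 3 3 (qsf 536870912 536870912 0 1230186008 3) ndN3q1 ndN6q3 pcN3 Cut.none Ext.none)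

def k0_pp_133 : ∃ t, chk3 f_pp_133 t 1 1 1 = true :=
  ⟨(l 4), by decide +kernel⟩

theorem c_pp_133 : CertNX 536870912 536870912 0 1230186008 1046898278 26843546 3 true true true .dn 1 3 3
    ndN3q1 ndN6q3 pcN3 Cut.none Ext.none :=
  certNX0 (fam := true) (s1 := true) (s2 := true) (a := 1) (b := 3) (c := 3) (cn := .dn) (n1 := ndN3q1) (n2 := ndN6q3) (pc := pcN3) (cut := Cut.none) (xt := Ext.none) (P1 := 536870912) (W1 := 536870912) (P2 := 0) (W2 := 1230186008) (P3 := 1046898278) (W3 := 26843546) (N0 := 3)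
    rfl k0_pp_133

noncomputable def f_pp_202 : ℕ → ℕ → ℕ → ℕ → Bool := onCell 1073741824 536870912 0 536870912 1046898278 26843546
    (rowNX 3 0 true true true .pp 2 0 2 (qsf 1073741824 536870912 0 536870912 2) ndN3q2 ndN6q0 pcN2 Cut.none Ext.none)

def k0_pp_202 : ∃ t, chk3 f_pp_202 t 1 1 1 = true :=
  ⟨(l 4), by decide +kernel⟩

theorem c_pp_202 : CertNX 1073741824 536870912 0 536870912 1046898278 26843546 3 true true true .pp 2 0 2
    ndN3q2 ndN6q0 pcN2 Cut.none Ext.none :=
  certNX0 (fam := true) (s1 := true) (s2 := true) (a := 2) (b := 0) (c := 2) (cn := .pp) (n1 := ndN3q2) (n2 := ndN6q0) (pc := pcN2) (cut := Cut.none) (xt := Ext.none) (P1 := 1073741824) (W1 := 536870912) (P2 := 0) (W2 := 536870912) (P3 := 1046898278) (W3 := 26843546) (N0 := 3)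
    rfl k0_pp_202

noncomputable def f_pp_203 : ℕ → ℕ → ℕ → ℕ → Bool := onCell 1073741824 536870912 0 536870912 1046898278 26843546
    (rowNX 3 0 true true true .up 2 0 3 (qsf 1073741824 536870912 0 536870912 3) ndN3q2 ndN6q0 pcN3 Cut.none Ext.none)

def k0_pp_203 : ∃ t, chk3 f_pp_203 t 1 1 1 = true :=
  ⟨(l 4), by decide +kernel⟩

theorem c_pp_203 : CertNX 1073741824 536870912 0 536870912 1046898278 26843546 3 true true true .up 2 0 3
    ndN3q2 ndN6q0 pcN3 Cut.none Ext.none :=
  certNX0 (fam := true) (s1 := true) (s2 := true) (a := 2) (b := 0) (c := 3) (cn := .up) (n1 := ndN3q2) (n2 := ndN6q0) (pc := pcN3) (cut := Cut.none) (xt := Ext.none) (P1 := 1073741824) (W1 := 536870912) (P2 := 0) (W2 := 536870912) (P3 := 1046898278) (W3 := 26843546) (N0 := 3)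
    rfl k0_pp_203

noncomputable def f_pp_213 : ℕ → ℕ → ℕ → ℕ → Bool := onCell 1073741824 536870912 536870912 469762048 1046898278 26843546
    (rowNX 3 0 true true true .pnn 2 1 3 (qsf 1073741824 536870912 536870912 469762048 3) ndN3q2 ndN6q1 pcN3 Cut.none Ext.none)

def k0_pp_213 : ∃ t, chk3 f_pp_213 t 1 1 1 = true :=
  ⟨(l 4), by decide +kernel⟩

theorem c_pp_213 : CertNX 1073741824 536870912 536870912 469762048 1046898278 26843546 3 true true true .pnn 2 1 3
    ndN3q2 ndN6q1 pcN3 Cut.none Ext.none :=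
  certNX0 (fam := true) (s1 := true) (s2 := true) (a := 2) (b := 1) (c := 3) (cn := .pnn) (n1 := ndN3q2) (n2 := ndN6q1) (pc := pcN3) (cut := Cut.none) (xt := Ext.none) (P1 := 1073741824) (W1 := 536870912) (P2 := 536870912) (W2 := 469762048) (P3 := 1046898278) (W3 := 26843546) (N0 := 3)
    rfl k0_pp_213

noncomputable def f_pp_303 : ℕ → ℕ → ℕ → ℕ → Bool := onCell 1610612736 536870912 0 536870912 1046898278 26843546
    (rowNX 3 0 true true true .npn 3 0 3 (qsf 1610612736 536870912 0 536870912 3) ndN3q3 ndN6q0 pcN3 Cut.none Ext.none)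

def k0_pp_303 : ∃ t, chk3 f_pp_303 t 1 1 1 = true :=
  ⟨(l 4), by decide +kernel⟩

theorem c_pp_303 : CertNX 1610612736 536870912 0 536870912 1046898278 26843546 3 true true true .npn 3 0 3
    ndN3q3 ndN6q0 pcN3 Cut.none Ext.none :=
  certNX0 (fam := true) (s1 := true) (s2 := true) (a := 3) (b := 0) (c := 3) (cn := .npn) (n1 := ndN3q3) (n2 := ndN6q0) (pc := pcN3) (cut := Cut.none) (xt := Ext.none) (P1 := 1610612736) (W1 := 536870912) (P2 := 0) (W2 := 536870912) (P3 := 1046898278) (W3 := 26843546) (N0 := 3)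
    rfl k0_pp_303

noncomputable def f_pp_313 : ℕ → ℕ → ℕ → ℕ → Bool := onCell 1610612736 536870912 536870912 469762048 1046898278 26843546
    (rowNX 3 0 true true true .dn 3 1 3 (qsf 1610612736 536870912 536870912 469762048 3) ndN3q3 ndN6q1 pcN3 Cut.none Ext.none)

def k0_pp_313 : ∃ t, chk3 f_pp_313 t 1 1 1 = true :=
  ⟨(l 4), by decide +kernel⟩

theorem c_pp_313 : CertNX 1610612736 536870912 536870912 469762048 1046898278 26843546 3 true true true .dn 3 1 3
    ndN3q3 ndN6q1 pcN3 Cut.none Ext.none :=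
  certNX0 (fam := true) (s1 := true) (s2 := true) (a := 3) (b := 1) (c := 3) (cn := .dn) (n1 := ndN3q3) (n2 := ndN6q1) (pc := pcN3) (cut := Cut.none) (xt := Ext.none) (P1 := 1610612736) (W1 := 536870912) (P2 := 536870912) (W2 := 469762048) (P3 := 1046898278) (W3 := 26843546) (N0 := 3)
    rfl k0_pp_313

noncomputable def f_pm_001 : ℕ → ℕ → ℕ → ℕ → Bool := onCell 0 536870912 0 536870912 1046898278 26843546
    (rowNX 3 0 true true false .up 0 0 1 (qsf 0 536870912 0 536870912 1) ndN3q0 ndN6q0 pcN1 Cut.none Ext.none)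

def k0_pm_001 : ∃ t, chk3 f_pm_001 t 1 1 1 = true :=
  ⟨(l 3), by decide +kernel⟩

theorem c_pm_001 : CertNX 0 536870912 0 536870912 1046898278 26843546 3 true true false .up 0 0 1
    ndN3q0 ndN6q0 pcN1 Cut.none Ext.none :=
  certNX0 (fam := true) (s1 := true) (s2 := false) (a := 0) (b := 0) (c := 1) (cn := .up) (n1 := ndN3q0) (n2 := ndN6q0) (pc := pcN1) (cut := Cut.none) (xt := Ext.none) (P1 := 0) (W1 := 536870912) (P2 := 0) (W2 := 536870912) (P3 := 1046898278) (W3 := 26843546) (N0 := 3)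
    rfl k0_pm_001

noncomputable def f_pm_011 : ℕ → ℕ → ℕ → ℕ → Bool := onCell 0 536870912 536870912 536870912 1046898278 26843546
    (rowNX 3 1 true true false .pnn 0 1 1 (qsf 0 536870912 536870912 469762048 1) ndN3q0 ndN6q1 pcN1 Cut.none Ext.none)

def k0_pm_011 : ∃ t, chk3 f_pm_011 t 1 1 1 = true :=
  ⟨(b (l 3) (a (b (l 3) (a (b (l 3) (a (a (a (b (l 3) (l 2)) (l 3)) (l 3)) (l 3))) (l 3))) (l 3))), by decide +kernel⟩

theorem c_pm_011 : CertNX 0 536870912 536870912 469762048 1046898278 26843546 3 true true false .pnn 0 1 1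
    ndN3q0 ndN6q1 pcN1 Cut.none Ext.none :=
  certNX1 (fam := true) (s1 := true) (s2 := false) (a := 0) (b := 1) (c := 1) (cn := .pnn) (n1 := ndN3q0) (n2 := ndN6q1) (pc := pcN1) (cut := Cut.none) (xt := Ext.none) (P1 := 0) (W1 := 536870912) (P2 := 536870912) (W2 := 469762048) (P3 := 1046898278) (W3 := 26843546) (N0 := 3)
    rfl (fun _ => rfl) k0_pm_011

noncomputable def f_pm_012 : ℕ → ℕ → ℕ → ℕ → Bool := onCell 1073741824 536870912 536870912 469762048 1046898278 26843546
    (rowNX 3 2 true true false .pnp 0 1 2 (qsf 0 536870912 536870912 469762048 2) ndN3q0 ndN6q1 pcN2 Cut.none Ext.none)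

def k0_pm_012 : ∃ t, chk3 f_pm_012 t 4 1 1 = true :=
  ⟨(a (b (l 3) (b (l 3) (l 3))) (b (l 3) (b (a (l 3) (a (l 3) (b (l 3) (b (a (l 3) (l 16505208)) (l 967069330487))))) (a (a (l 3) (b (l 3) (b (l 3) (c (c (b (l 13936480) (b (l 13991384) (l 14037632))) (c (l 13943672) (l 13888528))) (l 13825920))))) (b (a (b (l 3) (a (l 3) (l 13939384))) (c (b (l 14567016) (l 13986728)) (b (l 14489424) (l 13888776)))) (c (a (b (b (l 903178088743) (a (l 13680760) (l 13646200))) (a (c (b (l 13769192) (l 13843176)) (l 13748688)) (c (l 13768720) (l 13706584)))) (b (b (l 13711512) (a (l 13615664) (l 13586848))) (c (b (l 13676008) (a (l 13763200) (l 13710016))) (l 13645832)))) (a (b (a (l 13612144) (l 13579688)) (a (l 13644640) (l 13601384))) (b (a (l 13557144) (l 13536760)) (l 13538936))))))))), by decide +kernel⟩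

def k1_pm_012 : ∃ t, chk3 f_pm_012 t 5 1 1 = true :=
  ⟨(b (b (l 2) (a (a (a (c (l 16776072) (l 16776024)) (a (a (l 16776800) (l 16770624)) (a (l 16751568) (a (l 16712752) (l 16674576))))) (l 16699976)) (l 16767776))) (b (a (a (a (b (l 16776048) (b (a (l 16504832) (l 16502912)) (a (l 15552328) (l 15546288)))) (a (b (a (l 16770912) (l 16753272)) (b (a (l 16496472) (l 16473608)) (l 15511912))) (b (a (l 16697328) (l 16636040)) (a (b (l 16445304) (l 15469560)) (b (l 16335680) (l 15444312)))))) (b (l 16664632) (b (l 16441560) (l 15473616)))) (b (l 16762784) (b (l 16497600) (l 15543312)))) (a (a (a (b (c (b (l 14428208) (l 13961360)) (b (l 14350080) (l 13862360))) (b (b (a (l 13638552) (l 13593216)) (c (l 13521304) (l 13402984))) (c (b (l 13527024) (l 13563936)) (l 13408280)))) (b (a (l 14156112) (a (l 14110072) (a (l 14090960) (l 13935256)))) (b (a (b (l 13534768) (l 13376736)) (b (a (l 13486464) (a (l 13469976) (l 13463352))) (a (l 13327840) (a (l 13312840) (l 13307416))))) (a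 (c (c (l 13469208) (l 13401248)) (l 13287152)) (c (a (c (l 13411224) (l 13342088)) (a (l 13358680) (b (l 13355128) (l 13350312)))) (a (l 13226184) (a (l 13210360) (l 13207008)))))))) (b (l 14130216) (c (b (l 13508880) (l 13428632)) (l 13104856)))) (b (b (l 14517448) (l 13924288)) (b (b (l 13642560) (l 13502968)) (c (c (l 13606704) (l 13541496)) (l 13431600))))))), by decide +kernel⟩

def k2_pm_012 : ∃ t, chk3 f_pm_012 t 3 1 1 = true :=
  ⟨(b (l 2) (b (b (l 16777216) (b (l 16505280) (l 15553200))) (b (a (l 14196424) (l 14238360)) (a (c (b (l 13647752) (l 13592992)) (l 13514480)) (b (l 13591576) (l 13521600)))))), by decide +kernel⟩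

theorem s3_pm_012 : ∃ t, chk3 f_pm_012 t 2 1 1 = true := ex3_a k0_pm_012 k1_pm_012

theorem s4_pm_012 : ∃ t, chk3 f_pm_012 t 1 1 1 = true := ex3_a s3_pm_012 k2_pm_012

theorem c_pm_012 : CertNX 0 536870912 536870912 469762048 1046898278 26843546 3 true true false .pnp 0 1 2
    ndN3q0 ndN6q1 pcN2 Cut.none Ext.none :=
  certNX2 (fam := true) (s1 := true) (s2 := false) (a := 0) (b := 1) (c := 2) (cn := .pnp) (n1 := ndN3q0) (n2 := ndN6q1) (pc := pcN2) (cut := Cut.none) (xt := Ext.none) (P1 := 0) (W1 := 536870912) (P2 := 536870912) (W2 := 469762048) (P3 := 1046898278) (W3 := 26843546) (N0 := 3)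
    rfl (fun _ => rfl) s4_pm_012

end Pool.Agent.Strip051.G.IE1.Tab.C.NA36

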