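import Pool.Agent.Strip051.G.IE1.Tab

/-! # Certificates N34 (generated) -/

set_option linter.all false
set_option maxRecDepth 100000

namespace Pool.Agent.Strip051.G.IE1.Tab.C.NA36

open Pool.Agent.Strip051.PB Pool.Agent.Strip051.PB.T
open Pool.Agent.Strip051.G.IE1.Tab

noncomputable def f_pm_022 : ℕ → ℕ → ℕ → ℕ → Bool := onCell 0 536870912 1073741824 536870912 1046898278 26843546
    (rowNX 3 1 true true false .pp 0 2 2 (qsf 0 536870912 1073741824 536870912 2) ndN3q0 ndN6q2 pcN2 Cut.none Ext.none)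

def k0_pm_022 : ∃ t, chk3 f_pm_022 t 2 4 1 = true :=
  ⟨(l 3), by decide +kernel⟩

def k1_pm_022 : ∃ t, chk3 f_pm_022 t 4 20 1 = true :=
  ⟨(b (l 3) (b (l 3) (a (b (l 3) (b (b (l 3) (a (a (a (c (l 15916064) (c (l 15934656) (l 15916656))) (b (l 3) (c (a (l 16121968) (l 16217696)) (l 16053744)))) (c (l 16320176) (l 16326048))) (l 3))) (b (b (b (a (a (c (a (l 15918800) (a (l 16110992) (l 16233520))) (a (l 15792832) (a (l 16143704) (l 16286656)))) (c (l 16323784) (l 16329856))) (l 3)) (b (a (a (c (a (l 15913336) (a (l 16105504) (l 16230416))) (a (l 15766192) (a (l 16138008) (l 16283440)))) (c (l 16324864) (l 16330992))) (c (a (l 16352040) (l 16375696)) (l 16355728))) (a (a (c (a (l 15825808) (a (l 16080880) (l 16123008))) (a (c (l 15906544) (l 15804136)) (c (l 16125168) (l 16165600)))) (c (a (l 16319448) (l 16335744)) (l 16331752))) (c (a (l 16352776) (l 16355472)) (a (l 16349776) (l 16370504)))))) (a (a (a (c (l 15900592) (l 15878800)) (c (l 16065272) (l 16155024))) (c (l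 16327376) (l 16333648))) (a (l 16353784) (l 16376960)))) (a (a (a (c (l 15878792) (l 15856168)) (c (a (l 16070832) (l 16221408)) (l 16133616))) (c (l 16331256) (l 16337744))) (a (l 16358296) (l 16381560)))))) (b (l 3) (b (a (a (c (a (l 3) (l 12073319627543)) (l 4757916616151)) (c (l 1963502522263) (l 1946322603959))) (a (b (l 6280480647015) (c (l 15485760) (l 15443240))) (b (l 15221384) (l 15268312)))) (b (b (b (a (a (c (l 16360944) (l 16354872)) (l 15932840)) (a (l 15278568) (l 15229472))) (b (a (a (c (l 16359544) (l 16353432)) (l 15933464)) (c (l 15374232) (l 15327536))) (a (a (c (l 16295584) (l 16331376)) (c (l 15946008) (l 15921648))) (c (a (l 15489856) (l 15256536)) (a (l 15447488) (l 15205448)))))) (a (a (l 16328896) (l 15934920)) (l 15352976))) (a (a (l 16321632) (l 15937400)) (l 15356504)))))))), by decide +kernel⟩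

def k2_pm_022 : ∃ t, chk3 f_pm_022 t 4 21 1 = true :=
  ⟨(a (a (a (b (a (c (l 15634992) (c (l 15624032) (l 15579224))) (c (a (l 15826064) (l 15850648)) (c (l 15822360) (l 15878472)))) (c (a (l 15192552) (l 15396808)) (a (l 15101480) (l 15459192)))) (b (a (c (b (a (l 16133840) (l 16330144)) (l 15973912)) (b (l 16152200) (l 16101168))) (c (b (l 16356568) (l 16185744)) (b (l 16349936) (l 16290112)))) (c (a (l 15703328) (l 15907896)) (c (l 15673968) (l 15705392))))) (a (b (l 16266696) (a (b (c (l 16214512) (l 16270440)) (l 16138864)) (b (l 16202152) (l 15990224)))) (c (l 16272496) (l 16265424)))) (a (a (a (l 16219592) (l 16100248)) (b (l 15922120) (l 15823288))) (a (a (l 15585056) (l 15463520)) (l 15317008)))), by decide +kernel⟩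

def k3_pm_022 : ∃ t, chk3 f_pm_022 t 4 11 1 = true :=
  ⟨(a (a (b (a (c (a (l 14568944) (b (l 15036040) (l 14633544))) (a (c (l 14526368) (l 14502024)) (l 14806448))) (c (a (l 14967112) (l 15314960)) (b (l 15455464) (l 15032640)))) (a (b (c (a (l 14097520) (b (l 14345528) (l 14192248))) (a (l 13814744) (l 14224800))) (c (l 14097984) (l 14030528))) (b (c (l 14689880) (l 14631200)) (c (a (l 14287696) (l 14486824)) (l 14329064))))) (b (a (b (c (a (l 15883360) (l 16134864)) (l 15860072)) (l 15406096)) (c (b (a (l 15962888) (l 15969664)) (l 15977376)) (b (a (l 16123112) (l 16060912)) (l 16134296)))) (a (c (l 15031496) (l 14998496)) (b (a (l 15626264) (l 15874008)) (l 15377632))))) (a (b (a (b (l 15901080) (a (b (l 15877648) (l 16068520)) (l 15743648))) (l 15586544)) (a (a (b (l 16247192) (l 15862216)) (l 15948560)) (b (a (l 15635032) (l 15364560)) (l 15661408)))) (b (a (l 15380024) (l 15336176)) (a (b (l 15171752) (a (l 15269992) (l 15083376))) (l 15104536))))), by decide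 +kernel⟩

def k4_pm_022 : ∃ t, chk3 f_pm_022 t 5 5 1 = true :=
  ⟨(a (b (b (b (l 3) (b (l 3) (a (b (c (b (l 3) (l 14909496)) (l 2415545627079)) (b (c (b (l 14917864) (l 14923424)) (b (l 14854232) (l 14859992))) (b (b (b (l 14895280) (b (c (l 14927936) (l 14864656)) (c (l 14928632) (l 14865376)))) (l 14898816)) (l 14903056)))) (b (l 1) (b (l 1) (b (l 1) (l 14533712))))))) (a (l 14995216) (l 14640040))) (a (b (a (l 15237832) (l 15063200)) (l 15101848)) (b (l 14832912) (l 14990504)))) (b (b (l 1) (a (l 14323384) (l 1))) (a (l 14623080) (l 14352816)))), by decide +kernel⟩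

def k5_pm_022 : ∃ t, chk3 f_pm_022 t 3 2 1 = true :=
  ⟨(b (l 1) (b (l 1) (a (b (l 1) (l 479989878791)) (l 1)))), by decide +kernel⟩

def k6_pm_022 : ∃ t, chk3 f_pm_022 t 1 3 1 = true :=
  ⟨(a (a (a (b (a (a (b (c (l 14097408) (l 14029928)) (l 14066616)) (c (l 14297128) (l 14221664))) (b (b (a (b (c (l 14592608) (l 14518944)) (l 14456272)) (b (l 15016168) (l 14744952))) (l 14549792)) (l 14549544))) (a (a (l 14024672) (l 14250104)) (l 14549544))) (b (b (a (b (a (a (l 15322848) (l 15746152)) (b (l 16226488) (l 16208904))) (a (l 14825256) (b (l 15879872) (l 15633576)))) (b (a (a (l 15767352) (l 15587776)) (b (l 15075952) (l 15401408))) (a (l 16292440) (l 16054648)))) (a (l 15286592) (b (a (l 16002488) (l 16387416)) (l 16101512)))) (a (l 15286440) (l 16101312)))) (b (a (b (a (b (a (l 14916280) (l 14889976)) (a (l 15528992) (l 14963632))) (b (l 14960696) (l 14834144))) (a (b (l 15881160) (l 16374472)) (b (b (l 14996008) (l 15371368)) (l 15966824)))) (b (a (l 14847744) (l 14742264))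 (a (b (l 14748344) (l 15005672)) (b (l 14816888) (l 14704480))))) (a (b (a (l 16410536) (l 16432264)) (l 16500672)) (b (a (b (l 15962216) (l 16596528)) (b (l 15092704) (l 15928504))) (a (l 16712664) (l 16641560)))))) (b (a (b (l 14068304) (a (l 14737424) (l 14450560))) (b (l 1) (l 13776216))) (a (b (a (b (l 14830888) (a (l 15092648) (l 14704416))) (l 14737424)) (a (b (a (l 15928456) (l 15092648)) (l 16037200)) (b (l 14851856) (a (l 15092648) (l 14704416))))) (b (l 14236072) (l 14577416))))), by decide +kernel⟩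

theorem s7_pm_022 : ∃ t, chk3 f_pm_022 t 4 10 1 = true := ex3_b k1_pm_022 k2_pm_022

theorem s8_pm_022 : ∃ t, chk3 f_pm_022 t 4 5 1 = true := ex3_b s7_pm_022 k3_pm_022

theorem s9_pm_022 : ∃ t, chk3 f_pm_022 t 2 5 1 = true := ex3_a s8_pm_022 k4_pm_022

theorem s10_pm_022 : ∃ t, chk3 f_pm_022 t 2 2 1 = true := ex3_b k0_pm_022 s9_pm_022

theorem s11_pm_022 : ∃ t, chk3 f_pm_022 t 1 2 1 = true := ex3_a s10_pm_022 k5_pm_022

theorem s12_pm_022 : ∃ t, chk3 f_pm_022 t 1 1 1 = true := ex3_b s11_pm_022 k6_pm_022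

theorem c_pm_022 : CertNX 0 536870912 1073741824 536870912 1046898278 26843546 3 true true false .pp 0 2 2
    ndN3q0 ndN6q2 pcN2 Cut.none Ext.none :=
  certNX1 (fam := true) (s1 := true) (s2 := false) (a := 0) (b := 2) (c := 2) (cn := .pp) (n1 := ndN3q0) (n2 := ndN6q2) (pc := pcN2) (cut := Cut.none) (xt := Ext.none) (P1 := 0) (W1 := 536870912) (P2 := 1073741824) (W2 := 536870912) (P3 := 1046898278) (W3 := 26843546) (N0 := 3)
    rfl (fun _ => rfl) s12_pm_022

noncomputable def f_pm_023 : ℕ → ℕ → ℕ → ℕ → Bool := onCell 0 536870912 1610612736 536870912 1046898278 26843546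
    (rowNX 3 1 true true false .up 0 2 3 (qsf 0 536870912 1073741824 536870912 3) ndN3q0 ndN6q2 pcN3 Cut.none Ext.none)

def k0_pm_023 : ∃ t, chk3 f_pm_023 t 1 1 1 = true :=
  ⟨(a (b (a (a (b (a (b (l 14163584) (l 2)) (l 14549544)) (l 2)) (b (a (l 15286440) (l 16101312)) (a (l 2) (l 16101312)))) (b (a (l 16500672) (l 16745168)) (a (l 16500672) (l 16745168)))) (b (a (l 2) (b (l 16612080) (l 2))) (l 2))) (b (b (a (a (a (l 16777112) (l 16700384)) (b (a (l 16225944) (l 15510544)) (l 16678312))) (b (a (b (l 14851856) (l 14976800)) (l 14737424)) (a (b (l 15279856) (l 16225944)) (b (l 14851856) (l 14976800))))) (a (l 16777216) (b (a (l 16678312) (a (l 16225944) (l 15531512))) (l 16715104)))) (b (b (l 16777200) (l 16777160)) (b (l 16767848) (l 4))))), by decide +kernel⟩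

theorem c_pm_023 : CertNX 0 536870912 1073741824 536870912 1046898278 26843546 3 true true false .up 0 2 3
    ndN3q0 ndN6q2 pcN3 Cut.none Ext.none :=
  certNX1 (fam := true) (s1 := true) (s2 := false) (a := 0) (b := 2) (c := 3) (cn := .up) (n1 := ndN3q0) (n2 := ndN6q2) (pc := pcN3) (cut := Cut.none) (xt := Ext.none) (P1 := 0) (W1 := 536870912) (P2 := 1073741824) (W2 := 536870912) (P3 := 1046898278) (W3 := 26843546) (N0 := 3)
    rfl (fun _ => rfl) k0_pm_023

noncomputable def f_pm_033 : ℕ → ℕ → ℕ → ℕ → Bool := onCell 0 536870912 0 1230186008 1046898278 26843546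
    (rowNX 3 0 true true false .pnn 0 3 3 (qsf 0 536870912 0 1230186008 3) ndN3q0 ndN6q3 pcN3 Cut.none Ext.none)

def k0_pm_033 : ∃ t, chk3 f_pm_033 t 1 2 1 = true :=
  ⟨(b (l 4) (a (b (l 4) (a (l 4) (l 2))) (l 2))), by decide +kernel⟩

def k1_pm_033 : ∃ t, chk3 f_pm_033 t 1 3 1 = true :=
  ⟨(b (a (a (b (a (a (b (c (a (l 14097288) (l 14294944)) (a (l 14029760) (l 14218720))) (a (c (l 14097312) (l 14029800)) (l 14250024))) (b (l 4) (c (l 14585040) (l 14507672)))) (b (l 4) (a (a (l 15009904) (l 4)) (l 4)))) (a (a (b (a (l 14066552) (l 14250024)) (l 14163568)) (b (b (l 14549488) (l 14549472)) (a (l 14455704) (l 14648680)))) (b (a (c (l 15307296) (l 15253784)) (b (l 4) (l 16096944))) (a (b (l 15286392) (l 15286384)) (b (l 16101024) (l 16101264)))))) (b (l 4) (a (b (l 4) (a (b (l 16401912) (l 16408808)) (b (l 4) (l 16579720)))) (l 4)))) (l 4)) (a (b (b (a (a (a (l 14163584) (l 14549536)) (a (a (l 15016752) (l 15546368)) (a (l 16011224) (l 16191048)))) (a (a (b (l 16410392)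 (l 16410360)) (l 16522616)) (a (b (l 4) (l 16706912)) (l 4)))) (a (a (a (l 14142608) (l 14549544)) (a (l 15286440) (l 16101304))) (a (c (l 16505384) (l 16495840)) (a (b (l 16711776) (l 16712528)) (b (l 16768584) (l 16775288)))))) (a (a (a (b (a (l 14066616) (l 14250104)) (l 14163584)) (b (l 14549544) (l 14549544))) (a (b (l 15286440) (l 15286440)) (l 16080336))) (a (l 16500640) (b (c (l 16745680) (l 16744576)) (l 16745160))))) (b (a (a (b (l 4) (b (l 4) (a (l 16767112) (l 4)))) (l 4)) (l 2)) (a (b (a (b (a (l 16776168) (l 16766824)) (a (l 16777160) (l 16776008))) (a (b (l 4) (l 16766824)) (l 4))) (a (c (l 16777176) (l 16777176)) (b (a (l 16774744) (l 16767136)) (a (l 16777152) (l 16776848))))) (b (l 4) (a (b (l 4) (a (l 16767704) (b (l 4) (l 16761240)))) (l 4))))))), by decide +kernel⟩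

theorem s2_pm_033 : ∃ t, chk3 f_pm_033 t 1 1 1 = true := ex3_b k0_pm_033 k1_pm_033

theorem c_pm_033 : CertNX 0 536870912 0 1230186008 1046898278 26843546 3 true true false .pnn 0 3 3
    ndN3q0 ndN6q3 pcN3 Cut.none Ext.none :=
  certNX0 (fam := true) (s1 := true) (s2 := false) (a := 0) (b := 3) (c := 3) (cn := .pnn) (n1 := ndN3q0) (n2 := ndN6q3) (pc := pcN3) (cut := Cut.none) (xt := Ext.none) (P1 := 0) (W1 := 536870912) (P2 := 0) (W2 := 1230186008) (P3 := 1046898278) (W3 := 26843546) (N0 := 3)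
    rfl s2_pm_033

noncomputable def f_pm_101 : ℕ → ℕ → ℕ → ℕ → Bool := onCell 536870912 536870912 0 536870912 1046898278 26843546
    (rowNX 3 2 true true false .npn 1 0 1 (qsf 536870912 536870912 0 536870912 1) ndN3q1 ndN6q0 pcN1 Cut.none Ext.none)

def k0_pm_101 : ∃ t, chk3 f_pm_101 t 1 1 1 = true :=
  ⟨(a (l 3) (l 3)), by decide +kernel⟩

theorem c_pm_101 : CertNX 536870912 536870912 0 536870912 1046898278 26843546 3 true true false .npn 1 0 1
    ndN3q1 ndN6q0 pcN1 Cut.none Ext.none :=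
  certNX2 (fam := true) (s1 := true) (s2 := false) (a := 1) (b := 0) (c := 1) (cn := .npn) (n1 := ndN3q1) (n2 := ndN6q0) (pc := pcN1) (cut := Cut.none) (xt := Ext.none) (P1 := 536870912) (W1 := 536870912) (P2 := 0) (W2 := 536870912) (P3 := 1046898278) (W3 := 26843546) (N0 := 3)
    rfl (fun _ => rfl) k0_pm_101

noncomputable def f_pm_102 : ℕ → ℕ → ℕ → ℕ → Bool := onCell 536870912 536870912 1073741824 536870912 1046898278 26843546
    (rowNX 3 1 true true false .npp 1 0 2 (qsf 536870912 536870912 0 536870912 2) ndN3q1 ndN6q0 pcN2 Cut.none Ext.none)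

def k0_pm_102 : ∃ t, chk3 f_pm_102 t 1 1 1 = true :=
  ⟨(a (b (b (l 3) (b (b (a (b (l 891373477367) (l 2)) (b (l 3) (b (l 2782232834871) (b (l 16777088) (b (l 16772520) (c (l 16766168) (l 16765784))))))) (l 16746592)) (l 16772248))) (l 16777216)) (b (b (l 3) (b (b (b (l 3) (b (l 3) (b (a (a (l 16684256) (a (l 16213288) (l 3))) (l 3)) (b (a (a (l 16684256) (a (l 16213288) (l 15674520))) (a (a (l 14817032) (l 14237408)) (a (l 13764408) (l 3)))) (a (a (c (l 16685856) (l 16682648)) (a (l 16213288) (a (l 15812704) (l 15469680)))) (a (a (b (l 14607320) (l 14817032)) (l 14235848)) (a (c (l 13783616) (l 13740592)) (c (l 13219272) (a (l 13345176) (l 13071648)))))))))) (a (a (l 16684248) (a (l 16213288) (l 15674520))) (a (l 14592064) (a (l 13688784) (a (l 13178896) (l 12977168)))))) (a (a (l 16684248) (a (l 16213288) (l 15674520))) (a (l 14592016) (a (l 13634560) (a (l 13027680) (l 12750360))))))) (a (a (l 16684248) (a (l 16213288) (l 15674520))) (a (a (l 14817032) (l 14234872))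 (a (l 13634512) (b (a (l 13016312) (l 12707432)) (l 12893112))))))), by decide +kernel⟩

theorem c_pm_102 : CertNX 536870912 536870912 0 536870912 1046898278 26843546 3 true true false .npp 1 0 2
    ndN3q1 ndN6q0 pcN2 Cut.none Ext.none :=
  certNX1 (fam := true) (s1 := true) (s2 := false) (a := 1) (b := 0) (c := 2) (cn := .npp) (n1 := ndN3q1) (n2 := ndN6q0) (pc := pcN2) (cut := Cut.none) (xt := Ext.none) (P1 := 536870912) (W1 := 536870912) (P2 := 0) (W2 := 536870912) (P3 := 1046898278) (W3 := 26843546) (N0 := 3)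
    rfl (fun _ => rfl) k0_pm_102

noncomputable def f_pm_112 : ℕ → ℕ → ℕ → ℕ → Bool := onCell 1073741824 536870912 536870912 469762048 1046898278 26843546
    (rowNX 3 2 true true false .dn 1 1 2 (qsf 536870912 536870912 536870912 469762048 2) ndN3q1 ndN6q1 pcN2 Cut.none Ext.none)

def k0_pm_112 : ∃ t, chk3 f_pm_112 t 1 1 1 = true :=
  ⟨(b (a (a (a (l 3) (l 3)) (a (a (a (c (l 16776072) (l 16776024)) (a (a (l 16776688) (l 16767568)) (b (a (l 16774144) (a (l 16761328) (c (l 16742040) (l 16740800)))) (a (l 16751568) (a (l 16712752) (l 16674576)))))) (l 16720952)) (l 16770872))) (a (b (a (l 16746024) (b (l 16268560) (l 16703032))) (l 16777216)) (b (a (b (a (l 15522544) (l 14911104)) (l 16172440)) (b (a (l 14162632) (b (l 13224928) (l 13818232))) (a (l 15136376) (l 14707680)))) (a (l 16707200) (b (l 16061176) (l 16631184)))))) (a (a (l 1) (b (a (l 1) (b (l 16762784) (l 1))) (l 1))) (b (b (l 16777192) (a (l 522406967031) (l 16036480))) (a (b (l 14133504) (l 1)) (b (l 14238360)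 (b (l 13591576) (l 13521600))))))), by decide +kernel⟩

theorem c_pm_112 : CertNX 536870912 536870912 536870912 469762048 1046898278 26843546 3 true true false .dn 1 1 2
    ndN3q1 ndN6q1 pcN2 Cut.none Ext.none :=
  certNX2 (fam := true) (s1 := true) (s2 := false) (a := 1) (b := 1) (c := 2) (cn := .dn) (n1 := ndN3q1) (n2 := ndN6q1) (pc := pcN2) (cut := Cut.none) (xt := Ext.none) (P1 := 536870912) (W1 := 536870912) (P2 := 536870912) (W2 := 469762048) (P3 := 1046898278) (W3 := 26843546) (N0 := 3)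
    rfl (fun _ => rfl) k0_pm_112

noncomputable def f_pm_113 : ℕ → ℕ → ℕ → ℕ → Bool := onCell 536870912 536870912 536870912 469762048 1046898278 26843546
    (rowNX 3 0 true true false .nn 1 1 3 (qsf 536870912 536870912 536870912 469762048 3) ndN3q1 ndN6q1 pcN3 Cut.none Ext.none)

def k0_pm_113 : ∃ t, chk3 f_pm_113 t 1 1 1 = true :=
  ⟨(b (a (l 1) (a (a (l 16684248) (l 15948944)) (a (l 14592016) (a (l 13634512) (a (l 13016312) (l 12707432)))))) (a (b (b (l 16777216) (l 545492416247)) (b (l 594880943911) (b (l 572867942951) (c (l 13592992) (l 13454256))))) (b (a (b (l 16293312) (a (l 15947744) (l 15236656))) (a (b (l 14592016) (l 13901696)) (b (l 13324248) (a (l 12957256) (l 12224440))))) (a (b (a (l 14150904) (l 13470400)) (b (a (l 13504920) (l 12837920)) (a (l 13435488) (l 12776896)))) (b (a (l 12223032) (a (l 11362112) (l 10697680))) (a (b (l 11649312) (l 11628448)) (c (a (l 11264424) (b (l 10664312) (l 10946576))) (l 10295144)))))))), by decide +kernel⟩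

theorem c_pm_113 : CertNX 536870912 536870912 536870912 469762048 1046898278 26843546 3 true true false .nn 1 1 3
    ndN3q1 ndN6q1 pcN3 Cut.none Ext.none :=
  certNX0 (fam := true) (s1 := true) (s2 := false) (a := 1) (b := 1) (c := 3) (cn := .nn) (n1 := ndN3q1) (n2 := ndN6q1) (pc := pcN3) (cut := Cut.none) (xt := Ext.none) (P1 := 536870912) (W1 := 536870912) (P2 := 536870912) (W2 := 469762048) (P3 := 1046898278) (W3 := 26843546) (N0 := 3)
    rfl k0_pm_113

noncomputable def f_pm_123 : ℕ → ℕ → ℕ → ℕ → Bool := onCell 1610612736 536870912 1073741824 536870912 1046898278 26843546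
    (rowNX 3 2 true true false .npn 1 2 3 (qsf 536870912 536870912 1073741824 536870912 3) ndN3q1 ndN6q2 pcN3 Cut.none Ext.none)

def k0_pm_123 : ∃ t, chk3 f_pm_123 t 1 1 1 = true :=
  ⟨(b (a (b (a (l 14737424) (l 14737424)) (b (a (l 612599392583) (l 15050704)) (a (l 1) (l 16567944)))) (a (b (b (a (l 14627016) (b (l 14134512) (l 14649128))) (l 14809288)) (a (b (l 15092664) (l 16567952)) (b (l 15092712) (l 16568008)))) (a (b (b (a (b (l 13676920) (l 14524648)) (b (l 13581672) (l 14580008))) (a (l 14821480) (l 14942832))) (b (a (l 15092888) (l 15124952)) (l 16575848))) (a (a (b (b (l 14414816) (l 15178944)) (b (l 15186672) (l 4))) (l 4)) (l 4))))) (a (a (l 1) (l 16777216)) (a (a (l 16777200) (l 16777160)) (a (l 16767848) (l 4))))), by decide +kernel⟩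

theorem c_pm_123 : CertNX 536870912 536870912 1073741824 536870912 1046898278 26843546 3 true true false .npn 1 2 3
    ndN3q1 ndN6q2 pcN3 Cut.none Ext.none :=
  certNX2 (fam := true) (s1 := true) (s2 := false) (a := 1) (b := 2) (c := 3) (cn := .npn) (n1 := ndN3q1) (n2 := ndN6q2) (pc := pcN3) (cut := Cut.none) (xt := Ext.none) (P1 := 536870912) (W1 := 536870912) (P2 := 1073741824) (W2 := 536870912) (P3 := 1046898278) (W3 := 26843546) (N0 := 3)
    rfl (fun _ => rfl) k0_pm_123

noncomputable def f_pm_133 : ℕ → ℕ → ℕ → ℕ → Bool := onCell 536870912 536870912 0 1230186008 1046898278 26843546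
    (rowNX 3 0 true true false .dn 1 3 3 (qsf 536870912 536870912 0 1230186008 3) ndN3q1 ndN6q3 pcN3 Cut.none Ext.none)

def k0_pm_133 : ∃ t, chk3 f_pm_133 t 1 1 1 = true :=
  ⟨(b (l 2) (b (l 2) (l 4))), by decide +kernel⟩

theorem c_pm_133 : CertNX 536870912 536870912 0 1230186008 1046898278 26843546 3 true true false .dn 1 3 3
    ndN3q1 ndN6q3 pcN3 Cut.none Ext.none :=
  certNX0 (fam := true) (s1 := true) (s2 := false) (a := 1) (b := 3) (c := 3) (cn := .dn) (n1 := ndN3q1) (n2 := ndN6q3) (pc := pcN3) (cut := Cut.none) (xt := Ext.none) (P1 := 536870912) (W1 := 536870912) (P2 := 0) (W2 := 1230186008) (P3 := 1046898278) (W3 := 26843546) (N0 := 3)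
    rfl k0_pm_133

noncomputable def f_pm_202 : ℕ → ℕ → ℕ → ℕ → Bool := onCell 1073741824 536870912 0 536870912 1046898278 26843546
    (rowNX 3 0 true true false .pp 2 0 2 (qsf 1073741824 536870912 0 536870912 2) ndN3q2 ndN6q0 pcN2 Cut.none Ext.none)

def k0_pm_202 : ∃ t, chk3 f_pm_202 t 4 8 1 = true :=
  ⟨(a (b (b (c (a (b (a (l 14805024) (l 14879936)) (a (b (l 14732680) (l 14500952)) (c (l 14863840) (l 14793512)))) (b (l 14923936) (c (l 14903528) (l 14854776)))) (b (a (c (b (l 14757264) (a (l 14703632) (l 14747480))) (b (c (l 14710840) (l 14577704)) (l 14670888))) (c (l 14840256) (b (l 14811504) (l 14793240)))) (a (c (a (l 14670584) (l 14719472)) (l 14629016)) (l 14788152)))) (c (a (a (b (l 14463048) (l 14673400)) (l 14592496)) (b (l 14820912) (l 14818232))) (a (a (a (l 14536640) (l 14585704)) (l 14623200)) (l 14712296)))) (a (a (c (b (l 14596248) (l 14516056)) (l 14429256)) (c (b (l 14701552) (l 14602856)) (l 14496520))) (c (b (l 14697408) (l 14519856)) (l 14486016))))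 (b (a (b (c (b (l 15238448) (b (l 15179848) (l 15142528))) (b (c (l 15189992) (b (l 15158744) (l 15146344))) (l 15019136))) (c (l 14958184) (l 14959376))) (b (c (b (l 15325320) (b (l 15251144) (l 15211280))) (b (c (l 15280136) (b (l 15273264) (l 15228480))) (c (l 15194536) (l 15158080)))) (a (c (l 15243280) (l 15169184)) (c (b (a (l 15111632) (l 15060520)) (l 15012432)) (b (a (l 15032784) (l 14980400)) (l 14951168)))))) (a (b (l 14598008) (a (l 14511840) (b (a (l 14721376) (l 14687944)) (a (l 14597768) (l 15071416))))) (b (a (a (b (l 15106192) (c (l 15140376) (l 15073312))) (b (c (l 15167560) (l 15093272)) (l 15282160))) (l 15415152)) (a (l 15419776) (l 15821288)))))), by decide +kernel⟩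

def k1_pm_202 : ∃ t, chk3 f_pm_202 t 4 9 1 = true :=
  ⟨(a (b (a (a (c (l 14379448) (l 14090656)) (a (l 14334160) (l 14309632))) (b (l 14293208) (a (l 14169680) (a (b (l 14162920) (l 14182184)) (b (l 14229864) (l 14398640)))))) (a (a (l 13921544) (b (l 14086312) (a (b (l 13963112) (l 13775920)) (b (l 13807392) (l 14188728))))) (a (b (b (a (l 14073608) (l 14136232)) (a (l 14080968) (l 14292968))) (l 14474968)) (l 14803528)))) (b (b (a (a (b (a (l 14327952) (l 14532688)) (a (l 14348016) (l 14702608))) (l 15202120)) (a (l 15904552) (l 16221024))) (a (l 15181008) (l 16427800))) (a (a (l 15464856) (l 16171952)) (a (b (l 16640632) (l 16199568)) (b (l 16401448) (l 16352312)))))), by decide +kernel⟩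

def k2_pm_202 : ∃ t, chk3 f_pm_202 t 5 4 1 = true :=
  ⟨(b (a (b (b (a (a (b (c (a (l 14986688) (l 14937816)) (b (a (l 14934840) (l 14786344)) (a (l 14890192) (l 14870512)))) (b (c (l 14853816) (a (l 14890384) (l 14973208))) (c (l 15072912) (l 15015648)))) (c (b (l 15141064) (l 15349016)) (b (c (l 15092144) (l 15059552)) (l 15299192)))) (c (b (l 15939336) (l 15900392)) (b (a (c (l 15630272) (l 15607560)) (l 15972576)) (l 15963576)))) (a (c (a (l 15343192) (l 15625064)) (l 15424624)) (c (a (l 16162728) (l 16471648)) (l 16397824)))) (a (b (a (l 15719272) (l 16027888)) (a (l 16104000) (l 16390936))) (b (a (l 16511184) (b (l 16254720) (l 16183504))) (a (b (l 16445168) (l 16368280)) (l 16193680))))) (b (a (b (b (c (l 16139632) (a (l 16391288) (b (l 15839584) (l 15658120)))) (a (c (l 16222768) (l 16208744)) (c (l 15659680) (l 15734008)))) (a (c (l 15811880) (l 16045360)) (l 15600400))) (b (c (l 15698368) (b (l 15654544) (l 15686744))) (l 15746952))) (a (l 15887320) (l 15885688))))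 (a (b (a (b (a (l 16481304) (a (l 16571416) (l 16479376))) (a (l 16474440) (l 16446672))) (l 16314944)) (a (l 16469976) (l 16396296))) (b (a (l 16115664) (l 16017360)) (l 16162776)))), by decide +kernel⟩

def k3_pm_202 : ∃ t, chk3 f_pm_202 t 2 5 1 = true :=
  ⟨(a (a (b (a (b (a (b (a (b (l 13777576) (a (l 13720456) (l 13819496))) (b (a (l 13828792) (l 13908976)) (l 14029720))) (l 14182200)) (l 14562976)) (a (l 14716648) (l 15262128))) (b (a (l 15068344) (l 15565504)) (a (b (l 15578888) (a (l 15731464) (l 15869528))) (b (a (l 15903656) (l 16046632)) (l 15959056))))) (a (b (a (b (l 15192544) (a (l 15230784) (l 15488096))) (b (b (l 15487792) (l 15656872)) (l 15604576))) (l 15451808)) (l 15697648))) (b (a (b (a (b (l 16014296) (a (l 16141128) (l 16421624))) (b (a (l 16547920) (l 16506240)) (l 16592848))) (l 16390784)) (b (l 16429784) (l 16636072))) (a (l 16154440) (l 16558568)))) (a (b (a (l 16542976) (l 16602008)) (a (l 16328688) (l 16428528))) (b (a (l 16430784) (l 16352680))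 (l 16738640)))), by decide +kernel⟩

def k4_pm_202 : ∃ t, chk3 f_pm_202 t 3 2 1 = true :=
  ⟨(b (a (b (b (a (b (c (l 15702176) (b (l 15657400) (l 15690744))) (c (l 15764096) (l 15755184))) (b (c (l 15699160) (l 15589664)) (l 15746792))) (a (l 15835776) (l 15878288))) (b (a (l 16005408) (l 16003560)) (l 16104120))) (b (b (c (b (l 15697808) (l 15759496)) (b (l 15504368) (l 15750376))) (l 15773432)) (b (a (l 16003560) (l 16003560)) (a (l 16104120) (l 2))))) (b (a (a (l 16352576) (l 16352576)) (c (l 16359888) (l 16345240))) (a (a (l 16722696) (c (l 16723640) (l 16721760))) (l 2)))), by decide +kernel⟩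

def k5_pm_202 : ∃ t, chk3 f_pm_202 t 1 3 1 = true :=
  ⟨(a (a (b (a (b (a (l 15420576) (l 15685792)) (a (l 15514416) (l 15709632))) (a (b (l 16153112) (l 16155904)) (l 16540528))) (a (b (a (l 15517432) (l 15709632)) (a (l 15517432) (l 15709632))) (a (b (l 16155904) (l 16155904)) (b (l 16540528) (l 2))))) (b (a (a (l 16275792) (l 16398440)) (b (l 16715384) (a (l 16650576) (l 2)))) (a (a (b (l 16296768) (l 2)) (l 2)) (l 2)))) (a (a (b (b (l 16777216) (l 2)) (l 2)) (l 2)) (l 2))), by decide +kernel⟩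

theorem s6_pm_202 : ∃ t, chk3 f_pm_202 t 4 4 1 = true := ex3_b k0_pm_202 k1_pm_202

theorem s7_pm_202 : ∃ t, chk3 f_pm_202 t 2 4 1 = true := ex3_a s6_pm_202 k2_pm_202

theorem s8_pm_202 : ∃ t, chk3 f_pm_202 t 2 2 1 = true := ex3_b s7_pm_202 k3_pm_202

theorem s9_pm_202 : ∃ t, chk3 f_pm_202 t 1 2 1 = true := ex3_a s8_pm_202 k4_pm_202

theorem s10_pm_202 : ∃ t, chk3 f_pm_202 t 1 1 1 = true := ex3_b s9_pm_202 k5_pm_202

theorem c_pm_202 : CertNX 1073741824 536870912 0 536870912 1046898278 26843546 3 true true false .pp 2 0 2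
    ndN3q2 ndN6q0 pcN2 Cut.none Ext.none :=
  certNX0 (fam := true) (s1 := true) (s2 := false) (a := 2) (b := 0) (c := 2) (cn := .pp) (n1 := ndN3q2) (n2 := ndN6q0) (pc := pcN2) (cut := Cut.none) (xt := Ext.none) (P1 := 1073741824) (W1 := 536870912) (P2 := 0) (W2 := 536870912) (P3 := 1046898278) (W3 := 26843546) (N0 := 3)
    rfl s10_pm_202

noncomputable def f_pm_203 : ℕ → ℕ → ℕ → ℕ → Bool := onCell 1073741824 536870912 1610612736 536870912 1046898278 26843546
    (rowNX 3 1 true true false .up 2 0 3 (qsf 1073741824 536870912 0 536870912 3) ndN3q2 ndN6q0 pcN3 Cut.none Ext.none)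

def k0_pm_203 : ∃ t, chk3 f_pm_203 t 1 1 1 = true :=
  ⟨(b (b (a (a (a (b (l 15590864) (l 15444064)) (b (l 16233208) (a (l 16155904) (l 16540528)))) (b (a (l 16348592) (l 16715384)) (a (l 16348592) (l 16715384)))) (a (b (l 16585552) (l 16760360)) (b (a (b (a (l 16181336) (l 16079352)) (l 16273568)) (b (a (l 15939408) (c (l 15818808) (l 15788552))) (a (l 16058376) (l 15939408)))) (b (a (l 16460392) (a (l 16181336) (l 16079352))) (l 4))))) (a (l 4) (l 4))) (l 4)), by decide +kernel⟩

theorem c_pm_203 : CertNX 1073741824 536870912 0 536870912 1046898278 26843546 3 true true false .up 2 0 3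
    ndN3q2 ndN6q0 pcN3 Cut.none Ext.none :=
  certNX1 (fam := true) (s1 := true) (s2 := false) (a := 2) (b := 0) (c := 3) (cn := .up) (n1 := ndN3q2) (n2 := ndN6q0) (pc := pcN3) (cut := Cut.none) (xt := Ext.none) (P1 := 1073741824) (W1 := 536870912) (P2 := 0) (W2 := 536870912) (P3 := 1046898278) (W3 := 26843546) (N0 := 3)
    rfl (fun _ => rfl) k0_pm_203

noncomputable def f_pm_213 : ℕ → ℕ → ℕ → ℕ → Bool := onCell 1073741824 536870912 536870912 469762048 1046898278 26843546
    (rowNX 3 0 true true false .pnn 2 1 3 (qsf 1073741824 536870912 536870912 469762048 3) ndN3q2 ndN6q1 pcN3 Cut.none Ext.none)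

def k0_pm_213 : ∃ t, chk3 f_pm_213 t 1 1 1 = true :=
  ⟨(a (b (b (a (a (c (a (l 15563208) (l 15736560)) (b (l 15571712) (l 15571712))) (b (a (l 16155904) (l 4)) (l 4))) (l 4)) (l 4)) (l 4)) (l 4)), by decide +kernel⟩

theorem c_pm_213 : CertNX 1073741824 536870912 536870912 469762048 1046898278 26843546 3 true true false .pnn 2 1 3
    ndN3q2 ndN6q1 pcN3 Cut.none Ext.none :=
  certNX0 (fam := true) (s1 := true) (s2 := false) (a := 2) (b := 1) (c := 3) (cn := .pnn) (n1 := ndN3q2) (n2 := ndN6q1) (pc := pcN3) (cut := Cut.none) (xt := Ext.none) (P1 := 1073741824) (W1 := 536870912) (P2 := 536870912) (W2 := 469762048) (P3 := 1046898278) (W3 := 26843546) (N0 := 3)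
    rfl k0_pm_213

noncomputable def f_pm_303 : ℕ → ℕ → ℕ → ℕ → Bool := onCell 1610612736 536870912 0 536870912 1046898278 26843546
    (rowNX 3 0 true true false .npn 3 0 3 (qsf 1610612736 536870912 0 536870912 3) ndN3q3 ndN6q0 pcN3 Cut.none Ext.none)

def k0_pm_303 : ∃ t, chk3 f_pm_303 t 1 1 1 = true :=
  ⟨(a (b (a (b (b (b (c (a (l 15732384) (l 15732384)) (a (l 15709464) (l 15709464))) (a (l 15878288) (l 4))) (b (a (l 16003560) (l 4)) (l 4))) (l 4)) (l 4)) (l 4)) (l 4)), by decide +kernel⟩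

theorem c_pm_303 : CertNX 1610612736 536870912 0 536870912 1046898278 26843546 3 true true false .npn 3 0 3
    ndN3q3 ndN6q0 pcN3 Cut.none Ext.none :=
  certNX0 (fam := true) (s1 := true) (s2 := false) (a := 3) (b := 0) (c := 3) (cn := .npn) (n1 := ndN3q3) (n2 := ndN6q0) (pc := pcN3) (cut := Cut.none) (xt := Ext.none) (P1 := 1610612736) (W1 := 536870912) (P2 := 0) (W2 := 536870912) (P3 := 1046898278) (W3 := 26843546) (N0 := 3)
    rfl k0_pm_303

noncomputable def f_pm_313 : ℕ → ℕ → ℕ → ℕ → Bool := onCell 1610612736 536870912 536870912 469762048 1046898278 26843546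
    (rowNX 3 0 true true false .dn 3 1 3 (qsf 1610612736 536870912 536870912 469762048 3) ndN3q3 ndN6q1 pcN3 Cut.none Ext.none)

def k0_pm_313 : ∃ t, chk3 f_pm_313 t 1 1 1 = true :=
  ⟨(l 4), by decide +kernel⟩

theorem c_pm_313 : CertNX 1610612736 536870912 536870912 469762048 1046898278 26843546 3 true true false .dn 3 1 3
    ndN3q3 ndN6q1 pcN3 Cut.none Ext.none :=
  certNX0 (fam := true) (s1 := true) (s2 := false) (a := 3) (b := 1) (c := 3) (cn := .dn) (n1 := ndN3q3) (n2 := ndN6q1) (pc := pcN3) (cut := Cut.none) (xt := Ext.none) (P1 := 1610612736) (W1 := 536870912) (P2 := 536870912) (W2 := 469762048) (P3 := 1046898278) (W3 := 26843546) (N0 := 3)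
    rfl k0_pm_313

noncomputable def f_mm_001 : ℕ → ℕ → ℕ → ℕ → Bool := onCell 0 536870912 0 536870912 1046898278 26843546
    (rowNX 3 0 true false false .up 0 0 1 (qsf 0 536870912 0 536870912 1) ndN3q0 ndN6q0 pcN1 Cut.none Ext.none)

def k0_mm_001 : ∃ t, chk3 f_mm_001 t 1 1 1 = true :=
  ⟨(l 4), by decide +kernel⟩

theorem c_mm_001 : CertNX 0 536870912 0 536870912 1046898278 26843546 3 true false false .up 0 0 1
    ndN3q0 ndN6q0 pcN1 Cut.none Ext.none :=
  certNX0 (fam := true) (s1 := false) (s2 := false) (a := 0) (b := 0) (c := 1) (cn := .up) (n1 := ndN3q0) (n2 := ndN6q0) (pc := pcN1) (cut := Cut.none) (xt := Ext.none) (P1 := 0) (W1 := 536870912) (P2 := 0) (W2 := 536870912) (P3 := 1046898278) (W3 := 26843546) (N0 := 3)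
    rfl k0_mm_001

noncomputable def f_mm_011 : ℕ → ℕ → ℕ → ℕ → Bool := onCell 0 536870912 536870912 469762048 1046898278 26843546
    (rowNX 3 0 true false false .pnn 0 1 1 (qsf 0 536870912 536870912 469762048 1) ndN3q0 ndN6q1 pcN1 Cut.none Ext.none)

def k0_mm_011 : ∃ t, chk3 f_mm_011 t 1 1 1 = true :=
  ⟨(l 4), by decide +kernel⟩

theorem c_mm_011 : CertNX 0 536870912 536870912 469762048 1046898278 26843546 3 true false false .pnn 0 1 1
    ndN3q0 ndN6q1 pcN1 Cut.none Ext.none :=
  certNX0 (fam := true) (s1 := false) (s2 := false) (a := 0) (b := 1) (c := 1) (cn := .pnn) (n1 := ndN3q0) (n2 := ndN6q1) (pc := pcN1) (cut := Cut.none) (xt := Ext.none) (P1 := 0) (W1 := 536870912) (P2 := 536870912) (W2 := 469762048) (P3 := 1046898278) (W3 := 26843546) (N0 := 3)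
    rfl k0_mm_011

noncomputable def f_mm_012 : ℕ → ℕ → ℕ → ℕ → Bool := onCell 0 536870912 536870912 469762048 1046898278 26843546
    (rowNX 3 0 true false false .pnp 0 1 2 (qsf 0 536870912 536870912 469762048 2) ndN3q0 ndN6q1 pcN2 Cut.none Ext.none)

def k0_mm_012 : ∃ t, chk3 f_mm_012 t 1 1 1 = true :=
  ⟨(l 4), by decide +kernel⟩

theorem c_mm_012 : CertNX 0 536870912 536870912 469762048 1046898278 26843546 3 true false false .pnp 0 1 2
    ndN3q0 ndN6q1 pcN2 Cut.none Ext.none :=
  certNX0 (fam := true) (s1 := false) (s2 := false) (a := 0) (b := 1) (c := 2) (cn := .pnp) (n1 := ndN3q0) (n2 := ndN6q1) (pc := pcN2) (cut := Cut.none) (xt := Ext.none) (P1 := 0) (W1 := 536870912) (P2 := 536870912) (W2 := 469762048) (P3 := 1046898278) (W3 := 26843546) (N0 := 3)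
    rfl k0_mm_012

noncomputable def f_mm_022 : ℕ → ℕ → ℕ → ℕ → Bool := onCell 0 536870912 1073741824 536870912 1046898278 26843546
    (rowNX 3 0 true false false .pp 0 2 2 (qsf 0 536870912 1073741824 536870912 2) ndN3q0 ndN6q2 pcN2 Cut.none Ext.none)

def k0_mm_022 : ∃ t, chk3 f_mm_022 t 1 1 1 = true :=
  ⟨(l 4), by decide +kernel⟩

theorem c_mm_022 : CertNX 0 536870912 1073741824 536870912 1046898278 26843546 3 true false false .pp 0 2 2
    ndN3q0 ndN6q2 pcN2 Cut.none Ext.none :=
  certNX0 (fam := true) (s1 := false) (s2 := false) (a := 0) (b := 2) (c := 2) (cn := .pp) (n1 := ndN3q0) (n2 := ndN6q2) (pc := pcN2) (cut := Cut.none) (xt := Ext.none) (P1 := 0) (W1 := 536870912) (P2 := 1073741824) (W2 := 536870912) (P3 := 1046898278) (W3 := 26843546) (N0 := 3)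
    rfl k0_mm_022

noncomputable def f_mm_023 : ℕ → ℕ → ℕ → ℕ → Bool := onCell 0 536870912 1073741824 536870912 1046898278 26843546
    (rowNX 3 0 true false false .up 0 2 3 (qsf 0 536870912 1073741824 536870912 3) ndN3q0 ndN6q2 pcN3 Cut.none Ext.none)

def k0_mm_023 : ∃ t, chk3 f_mm_023 t 1 1 1 = true :=
  ⟨(l 4), by decide +kernel⟩

theorem c_mm_023 : CertNX 0 536870912 1073741824 536870912 1046898278 26843546 3 true false false .up 0 2 3
    ndN3q0 ndN6q2 pcN3 Cut.none Ext.none :=
  certNX0 (fam := true) (s1 := false) (s2 := false) (a := 0) (b := 2) (c := 3) (cn := .up) (n1 := ndN3q0) (n2 := ndN6q2) (pc := pcN3) (cut := Cut.none) (xt := Ext.none) (P1 := 0) (W1 := 536870912) (P2 := 1073741824) (W2 := 536870912) (P3 := 1046898278) (W3 := 26843546) (N0 := 3)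
    rfl k0_mm_023

noncomputable def f_mm_033 : ℕ → ℕ → ℕ → ℕ → Bool := onCell 0 536870912 0 1230186008 1046898278 26843546
    (rowNX 3 0 true false false .pnn 0 3 3 (qsf 0 536870912 0 1230186008 3) ndN3q0 ndN6q3 pcN3 Cut.none Ext.none)

def k0_mm_033 : ∃ t, chk3 f_mm_033 t 1 1 1 = true :=
  ⟨(l 5), by decide +kernel⟩

theorem c_mm_033 : CertNX 0 536870912 0 1230186008 1046898278 26843546 3 true false false .pnn 0 3 3
    ndN3q0 ndN6q3 pcN3 Cut.none Ext.none :=
  certNX0 (fam := true) (s1 := false) (s2 := false) (a := 0) (b := 3) (c := 3) (cn := .pnn) (n1 := ndN3q0) (n2 := ndN6q3) (pc := pcN3) (cut := Cut.none) (xt := Ext.none) (P1 := 0) (W1 := 536870912) (P2 := 0) (W2 := 1230186008) (P3 := 1046898278) (W3 := 26843546) (N0 := 3)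
    rfl k0_mm_033

noncomputable def f_mm_101 : ℕ → ℕ → ℕ → ℕ → Bool := onCell 536870912 536870912 0 536870912 1046898278 26843546
    (rowNX 3 0 true false false .npn 1 0 1 (qsf 536870912 536870912 0 536870912 1) ndN3q1 ndN6q0 pcN1 Cut.none Ext.none)

def k0_mm_101 : ∃ t, chk3 f_mm_101 t 1 1 1 = true :=
  ⟨(l 4), by decide +kernel⟩

theorem c_mm_101 : CertNX 536870912 536870912 0 536870912 1046898278 26843546 3 true false false .npn 1 0 1
    ndN3q1 ndN6q0 pcN1 Cut.none Ext.none :=
  certNX0 (fam := true) (s1 := false) (s2 := false) (a := 1) (b := 0) (c := 1) (cn := .npn) (n1 := ndN3q1) (n2 := ndN6q0) (pc := pcN1) (cut := Cut.none) (xt := Ext.none) (P1 := 536870912) (W1 := 536870912) (P2 := 0) (W2 := 536870912) (P3 := 1046898278) (W3 := 26843546) (N0 := 3)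
    rfl k0_mm_101

noncomputable def f_mm_102 : ℕ → ℕ → ℕ → ℕ → Bool := onCell 536870912 536870912 0 536870912 1046898278 26843546
    (rowNX 3 0 true false false .npp 1 0 2 (qsf 536870912 536870912 0 536870912 2) ndN3q1 ndN6q0 pcN2 Cut.none Ext.none)

def k0_mm_102 : ∃ t, chk3 f_mm_102 t 1 1 1 = true :=
  ⟨(l 4), by decide +kernel⟩

theorem c_mm_102 : CertNX 536870912 536870912 0 536870912 1046898278 26843546 3 true false false .npp 1 0 2
    ndN3q1 ndN6q0 pcN2 Cut.none Ext.none :=
  certNX0 (fam := true) (s1 := false) (s2 := false) (a := 1) (b := 0) (c := 2) (cn := .npp) (n1 := ndN3q1) (n2 := ndN6q0) (pc := pcN2) (cut := Cut.none) (xt := Ext.none) (P1 := 536870912) (W1 := 536870912) (P2 := 0) (W2 := 536870912) (P3 := 1046898278) (W3 := 26843546) (N0 := 3)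
    rfl k0_mm_102

noncomputable def f_mm_112 : ℕ → ℕ → ℕ → ℕ → Bool := onCell 536870912 536870912 536870912 469762048 1046898278 26843546
    (rowNX 3 0 true false false .dn 1 1 2 (qsf 536870912 536870912 536870912 469762048 2) ndN3q1 ndN6q1 pcN2 Cut.none Ext.none)

def k0_mm_112 : ∃ t, chk3 f_mm_112 t 1 1 1 = true :=
  ⟨(l 4), by decide +kernel⟩

theorem c_mm_112 : CertNX 536870912 536870912 536870912 469762048 1046898278 26843546 3 true false false .dn 1 1 2
    ndN3q1 ndN6q1 pcN2 Cut.none Ext.none :=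
  certNX0 (fam := true) (s1 := false) (s2 := false) (a := 1) (b := 1) (c := 2) (cn := .dn) (n1 := ndN3q1) (n2 := ndN6q1) (pc := pcN2) (cut := Cut.none) (xt := Ext.none) (P1 := 536870912) (W1 := 536870912) (P2 := 536870912) (W2 := 469762048) (P3 := 1046898278) (W3 := 26843546) (N0 := 3)
    rfl k0_mm_112

noncomputable def f_mm_113 : ℕ → ℕ → ℕ → ℕ → Bool := onCell 536870912 536870912 536870912 469762048 1046898278 26843546
    (rowNX 3 0 true false false .nn 1 1 3 (qsf 536870912 536870912 536870912 469762048 3) ndN3q1 ndN6q1 pcN3 Cut.none Ext.none)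

def k0_mm_113 : ∃ t, chk3 f_mm_113 t 1 1 1 = true :=
  ⟨(l 4), by decide +kernel⟩

theorem c_mm_113 : CertNX 536870912 536870912 536870912 469762048 1046898278 26843546 3 true false false .nn 1 1 3
    ndN3q1 ndN6q1 pcN3 Cut.none Ext.none :=
  certNX0 (fam := true) (s1 := false) (s2 := false) (a := 1) (b := 1) (c := 3) (cn := .nn) (n1 := ndN3q1) (n2 := ndN6q1) (pc := pcN3) (cut := Cut.none) (xt := Ext.none) (P1 := 536870912) (W1 := 536870912) (P2 := 536870912) (W2 := 469762048) (P3 := 1046898278) (W3 := 26843546) (N0 := 3)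
    rfl k0_mm_113

noncomputable def f_mm_123 : ℕ → ℕ → ℕ → ℕ → Bool := onCell 536870912 536870912 1073741824 536870912 1046898278 26843546
    (rowNX 3 0 true false false .npn 1 2 3 (qsf 536870912 536870912 1073741824 536870912 3) ndN3q1 ndN6q2 pcN3 Cut.none Ext.none)

def k0_mm_123 : ∃ t, chk3 f_mm_123 t 1 1 1 = true :=
  ⟨(l 4), by decide +kernel⟩

theorem c_mm_123 : CertNX 536870912 536870912 1073741824 536870912 1046898278 26843546 3 true false false .npn 1 2 3
    ndN3q1 ndN6q2 pcN3 Cut.none Ext.none :=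
  certNX0 (fam := true) (s1 := false) (s2 := false) (a := 1) (b := 2) (c := 3) (cn := .npn) (n1 := ndN3q1) (n2 := ndN6q2) (pc := pcN3) (cut := Cut.none) (xt := Ext.none) (P1 := 536870912) (W1 := 536870912) (P2 := 1073741824) (W2 := 536870912) (P3 := 1046898278) (W3 := 26843546) (N0 := 3)
    rfl k0_mm_123

noncomputable def f_mm_133 : ℕ → ℕ → ℕ → ℕ → Bool := onCell 536870912 536870912 0 1230186008 1046898278 26843546
    (rowNX 3 0 true false false .dn 1 3 3 (qsf 536870912 536870912 0 1230186008 3) ndN3q1 ndN6q3 pcN3 Cut.none Ext.none)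

def k0_mm_133 : ∃ t, chk3 f_mm_133 t 1 1 1 = true :=
  ⟨(l 4), by decide +kernel⟩

theorem c_mm_133 : CertNX 536870912 536870912 0 1230186008 1046898278 26843546 3 true false false .dn 1 3 3
    ndN3q1 ndN6q3 pcN3 Cut.none Ext.none :=
  certNX0 (fam := true) (s1 := false) (s2 := false) (a := 1) (b := 3) (c := 3) (cn := .dn) (n1 := ndN3q1) (n2 := ndN6q3) (pc := pcN3) (cut := Cut.none) (xt := Ext.none) (P1 := 536870912) (W1 := 536870912) (P2 := 0) (W2 := 1230186008) (P3 := 1046898278) (W3 := 26843546) (N0 := 3)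
    rfl k0_mm_133

noncomputable def f_mm_202 : ℕ → ℕ → ℕ → ℕ → Bool := onCell 1073741824 536870912 0 536870912 1046898278 26843546
    (rowNX 3 0 true false false .pp 2 0 2 (qsf 1073741824 536870912 0 536870912 2) ndN3q2 ndN6q0 pcN2 Cut.none Ext.none)

def k0_mm_202 : ∃ t, chk3 f_mm_202 t 1 1 1 = true :=
  ⟨(l 4), by decide +kernel⟩

theorem c_mm_202 : CertNX 1073741824 536870912 0 536870912 1046898278 26843546 3 true false false .pp 2 0 2
    ndN3q2 ndN6q0 pcN2 Cut.none Ext.none :=
  certNX0 (fam := true) (s1 := false) (s2 := false) (a := 2) (b := 0) (c := 2) (cn := .pp) (n1 := ndN3q2) (n2 := ndN6q0) (pc := pcN2) (cut := Cut.none) (xt := Ext.none) (P1 := 1073741824) (W1 := 536870912) (P2 := 0) (W2 := 536870912) (P3 := 1046898278) (W3 := 26843546) (N0 := 3)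
    rfl k0_mm_202

noncomputable def f_mm_203 : ℕ → ℕ → ℕ → ℕ → Bool := onCell 1073741824 536870912 0 536870912 1046898278 26843546
    (rowNX 3 0 true false false .up 2 0 3 (qsf 1073741824 536870912 0 536870912 3) ndN3q2 ndN6q0 pcN3 Cut.none Ext.none)

def k0_mm_203 : ∃ t, chk3 f_mm_203 t 1 1 1 = true :=
  ⟨(l 4), by decide +kernel⟩

theorem c_mm_203 : CertNX 1073741824 536870912 0 536870912 1046898278 26843546 3 true false false .up 2 0 3
    ndN3q2 ndN6q0 pcN3 Cut.none Ext.none :=
  certNX0 (fam := true) (s1 := false) (s2 := false) (a := 2) (b := 0) (c := 3) (cn := .up) (n1 := ndN3q2) (n2 := ndN6q0) (pc := pcN3) (cut := Cut.none) (xt := Ext.none) (P1 := 1073741824) (W1 := 536870912) (P2 := 0) (W2 := 536870912) (P3 := 1046898278) (W3 := 26843546) (N0 := 3)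
    rfl k0_mm_203

noncomputable def f_mm_213 : ℕ → ℕ → ℕ → ℕ → Bool := onCell 1073741824 536870912 536870912 469762048 1046898278 26843546
    (rowNX 3 0 true false false .pnn 2 1 3 (qsf 1073741824 536870912 536870912 469762048 3) ndN3q2 ndN6q1 pcN3 Cut.none Ext.none)

def k0_mm_213 : ∃ t, chk3 f_mm_213 t 1 1 1 = true :=
  ⟨(l 4), by decide +kernel⟩

theorem c_mm_213 : CertNX 1073741824 536870912 536870912 469762048 1046898278 26843546 3 true false false .pnn 2 1 3
    ndN3q2 ndN6q1 pcN3 Cut.none Ext.none :=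
  certNX0 (fam := true) (s1 := false) (s2 := false) (a := 2) (b := 1) (c := 3) (cn := .pnn) (n1 := ndN3q2) (n2 := ndN6q1) (pc := pcN3) (cut := Cut.none) (xt := Ext.none) (P1 := 1073741824) (W1 := 536870912) (P2 := 536870912) (W2 := 469762048) (P3 := 1046898278) (W3 := 26843546) (N0 := 3)
    rfl k0_mm_213

noncomputable def f_mm_303 : ℕ → ℕ → ℕ → ℕ → Bool := onCell 1610612736 536870912 0 536870912 1046898278 26843546
    (rowNX 3 0 true false false .npn 3 0 3 (qsf 1610612736 536870912 0 536870912 3) ndN3q3 ndN6q0 pcN3 Cut.none Ext.none)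

def k0_mm_303 : ∃ t, chk3 f_mm_303 t 1 1 1 = true :=
  ⟨(l 4), by decide +kernel⟩

theorem c_mm_303 : CertNX 1610612736 536870912 0 536870912 1046898278 26843546 3 true false false .npn 3 0 3
    ndN3q3 ndN6q0 pcN3 Cut.none Ext.none :=
  certNX0 (fam := true) (s1 := false) (s2 := false) (a := 3) (b := 0) (c := 3) (cn := .npn) (n1 := ndN3q3) (n2 := ndN6q0) (pc := pcN3) (cut := Cut.none) (xt := Ext.none) (P1 := 1610612736) (W1 := 536870912) (P2 := 0) (W2 := 536870912) (P3 := 1046898278) (W3 := 26843546) (N0 := 3)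
    rfl k0_mm_303

noncomputable def f_mm_313 : ℕ → ℕ → ℕ → ℕ → Bool := onCell 1610612736 536870912 536870912 469762048 1046898278 26843546
    (rowNX 3 0 true false false .dn 3 1 3 (qsf 1610612736 536870912 536870912 469762048 3) ndN3q3 ndN6q1 pcN3 Cut.none Ext.none)

def k0_mm_313 : ∃ t, chk3 f_mm_313 t 1 1 1 = true :=
  ⟨(l 4), by decide +kernel⟩

theorem c_mm_313 : CertNX 1610612736 536870912 536870912 469762048 1046898278 26843546 3 true false false .dn 3 1 3
    ndN3q3 ndN6q1 pcN3 Cut.none Ext.none :=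
  certNX0 (fam := true) (s1 := false) (s2 := false) (a := 3) (b := 1) (c := 3) (cn := .dn) (n1 := ndN3q3) (n2 := ndN6q1) (pc := pcN3) (cut := Cut.none) (xt := Ext.none) (P1 := 1610612736) (W1 := 536870912) (P2 := 536870912) (W2 := 469762048) (P3 := 1046898278) (W3 := 26843546) (N0 := 3)
    rfl k0_mm_313

end Pool.Agent.Strip051.G.IE1.Tab.C.NA36

namespace Pool.Agent.Strip051.G.IE1.Tab.C.NA37

open Pool.Agent.Strip051.PB Pool.Agent.Strip051.PB.T
open Pool.Agent.Strip051.G.IE1.Tab

noncomputable def f_pp_001 : ℕ → ℕ → ℕ → ℕ → Bool := onCell 0 536870912 0 536870912 1046898278 26843546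
    (rowNX 3 0 true true true .up 0 0 1 (qsf 0 536870912 0 536870912 1) ndN3q0 ndN7q0 pcN1 Cut.none Ext.none)

def k0_pp_001 : ∃ t, chk3 f_pp_001 t 1 1 1 = true :=
  ⟨(l 4), by decide +kernel⟩

theorem c_pp_001 : CertNX 0 536870912 0 536870912 1046898278 26843546 3 true true true .up 0 0 1
    ndN3q0 ndN7q0 pcN1 Cut.none Ext.none :=
  certNX0 (fam := true) (s1 := true) (s2 := true) (a := 0) (b := 0) (c := 1) (cn := .up) (n1 := ndN3q0) (n2 := ndN7q0) (pc := pcN1) (cut := Cut.none) (xt := Ext.none) (P1 := 0) (W1 := 536870912) (P2 := 0) (W2 := 536870912) (P3 := 1046898278) (W3 := 26843546) (N0 := 3)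
    rfl k0_pp_001

noncomputable def f_pp_011 : ℕ → ℕ → ℕ → ℕ → Bool := onCell 0 536870912 536870912 536870912 1046898278 26843546
    (rowNX 3 0 true true true .pnn 0 1 1 (qsf 0 536870912 536870912 536870912 1) ndN3q0 ndN7q1 pcN1 Cut.none Ext.none)

def k0_pp_011 : ∃ t, chk3 f_pp_011 t 1 1 1 = true :=
  ⟨(l 4), by decide +kernel⟩

theorem c_pp_011 : CertNX 0 536870912 536870912 536870912 1046898278 26843546 3 true true true .pnn 0 1 1
    ndN3q0 ndN7q1 pcN1 Cut.none Ext.none :=
  certNX0 (fam := true) (s1 := true) (s2 := true) (a := 0) (b := 1) (c := 1) (cn := .pnn) (n1 := ndN3q0) (n2 := ndN7q1) (pc := pcN1) (cut := Cut.none) (xt := Ext.none) (P1 := 0) (W1 := 536870912) (P2 := 536870912) (W2 := 536870912) (P3 := 1046898278) (W3 := 26843546) (N0 := 3)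
    rfl k0_pp_011

noncomputable def f_pp_012 : ℕ → ℕ → ℕ → ℕ → Bool := onCell 0 536870912 536870912 536870912 1046898278 26843546
    (rowNX 3 0 true true true .pnp 0 1 2 (qsf 0 536870912 536870912 536870912 2) ndN3q0 ndN7q1 pcN2 Cut.none Ext.none)

def k0_pp_012 : ∃ t, chk3 f_pp_012 t 1 1 1 = true :=
  ⟨(l 4), by decide +kernel⟩

theorem c_pp_012 : CertNX 0 536870912 536870912 536870912 1046898278 26843546 3 true true true .pnp 0 1 2
    ndN3q0 ndN7q1 pcN2 Cut.none Ext.none :=
  certNX0 (fam := true) (s1 := true) (s2 := true) (a := 0) (b := 1) (c := 2) (cn := .pnp) (n1 := ndN3q0) (n2 := ndN7q1) (pc := pcN2) (cut := Cut.none) (xt := Ext.none) (P1 := 0) (W1 := 536870912) (P2 := 536870912) (W2 := 536870912) (P3 := 1046898278) (W3 := 26843546) (N0 := 3)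
    rfl k0_pp_012

noncomputable def f_pp_022 : ℕ → ℕ → ℕ → ℕ → Bool := onCell 0 536870912 1073741824 536870912 1046898278 26843546
    (rowNX 3 0 true true true .pp 0 2 2 (qsf 0 536870912 1073741824 536870912 2) ndN3q0 ndN7q2 pcN2 Cut.none Ext.none)

def k0_pp_022 : ∃ t, chk3 f_pp_022 t 1 1 1 = true :=
  ⟨(l 4), by decide +kernel⟩

theorem c_pp_022 : CertNX 0 536870912 1073741824 536870912 1046898278 26843546 3 true true true .pp 0 2 2
    ndN3q0 ndN7q2 pcN2 Cut.none Ext.none :=
  certNX0 (fam := true) (s1 := true) (s2 := true) (a := 0) (b := 2) (c := 2) (cn := .pp) (n1 := ndN3q0) (n2 := ndN7q2) (pc := pcN2) (cut := Cut.none) (xt := Ext.none) (P1 := 0) (W1 := 536870912) (P2 := 1073741824) (W2 := 536870912) (P3 := 1046898278) (W3 := 26843546) (N0 := 3)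
    rfl k0_pp_022

noncomputable def f_pp_023 : ℕ → ℕ → ℕ → ℕ → Bool := onCell 0 536870912 1073741824 536870912 1046898278 26843546
    (rowNX 3 0 true true true .up 0 2 3 (qsf 0 536870912 1073741824 536870912 3) ndN3q0 ndN7q2 pcN3 Cut.none Ext.none)

def k0_pp_023 : ∃ t, chk3 f_pp_023 t 1 1 1 = true :=
  ⟨(l 4), by decide +kernel⟩

theorem c_pp_023 : CertNX 0 536870912 1073741824 536870912 1046898278 26843546 3 true true true .up 0 2 3
    ndN3q0 ndN7q2 pcN3 Cut.none Ext.none :=
  certNX0 (fam := true) (s1 := true) (s2 := true) (a := 0) (b := 2) (c := 3) (cn := .up) (n1 := ndN3q0) (n2 := ndN7q2) (pc := pcN3) (cut := Cut.none) (xt := Ext.none) (P1 := 0) (W1 := 536870912) (P2 := 1073741824) (W2 := 536870912) (P3 := 1046898278) (W3 := 26843546) (N0 := 3)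
    rfl k0_pp_023

noncomputable def f_pp_033 : ℕ → ℕ → ℕ → ℕ → Bool := onCell 0 536870912 0 1230186008 1046898278 26843546
    (rowNX 3 0 true true true .pnn 0 3 3 (qsf 0 536870912 0 1230186008 3) ndN3q0 ndN7q3 pcN3 Cut.none Ext.none)

def k0_pp_033 : ∃ t, chk3 f_pp_033 t 1 1 1 = true :=
  ⟨(b (l 4) (l 4)), by decide +kernel⟩

theorem c_pp_033 : CertNX 0 536870912 0 1230186008 1046898278 26843546 3 true true true .pnn 0 3 3
    ndN3q0 ndN7q3 pcN3 Cut.none Ext.none :=
  certNX0 (fam := true) (s1 := true) (s2 := true) (a := 0) (b := 3) (c := 3) (cn := .pnn) (n1 := ndN3q0) (n2 := ndN7q3) (pc := pcN3) (cut := Cut.none) (xt := Ext.none) (P1 := 0) (W1 := 536870912) (P2 := 0) (W2 := 1230186008) (P3 := 1046898278) (W3 := 26843546) (N0 := 3)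
    rfl k0_pp_033

noncomputable def f_pp_101 : ℕ → ℕ → ℕ → ℕ → Bool := onCell 536870912 536870912 0 536870912 1046898278 26843546
    (rowNX 3 0 true true true .npn 1 0 1 (qsf 536870912 536870912 0 536870912 1) ndN3q1 ndN7q0 pcN1 Cut.none Ext.none)

def k0_pp_101 : ∃ t, chk3 f_pp_101 t 1 1 1 = true :=
  ⟨(l 4), by decide +kernel⟩

theorem c_pp_101 : CertNX 536870912 536870912 0 536870912 1046898278 26843546 3 true true true .npn 1 0 1
    ndN3q1 ndN7q0 pcN1 Cut.none Ext.none :=
  certNX0 (fam := true) (s1 := true) (s2 := true) (a := 1) (b := 0) (c := 1) (cn := .npn) (n1 := ndN3q1) (n2 := ndN7q0) (pc := pcN1) (cut := Cut.none) (xt := Ext.none) (P1 := 536870912) (W1 := 536870912) (P2 := 0) (W2 := 536870912) (P3 := 1046898278) (W3 := 26843546) (N0 := 3)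
    rfl k0_pp_101

noncomputable def f_pp_102 : ℕ → ℕ → ℕ → ℕ → Bool := onCell 536870912 536870912 0 536870912 1046898278 26843546
    (rowNX 3 0 true true true .npp 1 0 2 (qsf 536870912 536870912 0 536870912 2) ndN3q1 ndN7q0 pcN2 Cut.none Ext.none)

def k0_pp_102 : ∃ t, chk3 f_pp_102 t 1 1 1 = true :=
  ⟨(l 4), by decide +kernel⟩

theorem c_pp_102 : CertNX 536870912 536870912 0 536870912 1046898278 26843546 3 true true true .npp 1 0 2
    ndN3q1 ndN7q0 pcN2 Cut.none Ext.none :=
  certNX0 (fam := true) (s1 := true) (s2 := true) (a := 1) (b := 0) (c := 2) (cn := .npp) (n1 := ndN3q1) (n2 := ndN7q0) (pc := pcN2) (cut := Cut.none) (xt := Ext.none) (P1 := 536870912) (W1 := 536870912) (P2 := 0) (W2 := 536870912) (P3 := 1046898278) (W3 := 26843546) (N0 := 3)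
    rfl k0_pp_102

noncomputable def f_pp_112 : ℕ → ℕ → ℕ → ℕ → Bool := onCell 536870912 536870912 536870912 536870912 1046898278 26843546
    (rowNX 3 0 true true true .dn 1 1 2 (qsf 536870912 536870912 536870912 536870912 2) ndN3q1 ndN7q1 pcN2 Cut.none Ext.none)

def k0_pp_112 : ∃ t, chk3 f_pp_112 t 1 1 1 = true :=
  ⟨(l 4), by decide +kernel⟩

theorem c_pp_112 : CertNX 536870912 536870912 536870912 536870912 1046898278 26843546 3 true true true .dn 1 1 2
    ndN3q1 ndN7q1 pcN2 Cut.none Ext.none :=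
  certNX0 (fam := true) (s1 := true) (s2 := true) (a := 1) (b := 1) (c := 2) (cn := .dn) (n1 := ndN3q1) (n2 := ndN7q1) (pc := pcN2) (cut := Cut.none) (xt := Ext.none) (P1 := 536870912) (W1 := 536870912) (P2 := 536870912) (W2 := 536870912) (P3 := 1046898278) (W3 := 26843546) (N0 := 3)
    rfl k0_pp_112

noncomputable def f_pp_113 : ℕ → ℕ → ℕ → ℕ → Bool := onCell 536870912 536870912 536870912 536870912 1046898278 26843546
    (rowNX 3 0 true true true .nn 1 1 3 (qsf 536870912 536870912 536870912 536870912 3) ndN3q1 ndN7q1 pcN3 Cut.none Ext.none)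

def k0_pp_113 : ∃ t, chk3 f_pp_113 t 1 1 1 = true :=
  ⟨(l 4), by decide +kernel⟩

theorem c_pp_113 : CertNX 536870912 536870912 536870912 536870912 1046898278 26843546 3 true true true .nn 1 1 3
    ndN3q1 ndN7q1 pcN3 Cut.none Ext.none :=
  certNX0 (fam := true) (s1 := true) (s2 := true) (a := 1) (b := 1) (c := 3) (cn := .nn) (n1 := ndN3q1) (n2 := ndN7q1) (pc := pcN3) (cut := Cut.none) (xt := Ext.none) (P1 := 536870912) (W1 := 536870912) (P2 := 536870912) (W2 := 536870912) (P3 := 1046898278) (W3 := 26843546) (N0 := 3)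
    rfl k0_pp_113

noncomputable def f_pp_123 : ℕ → ℕ → ℕ → ℕ → Bool := onCell 536870912 536870912 1073741824 536870912 1046898278 26843546
    (rowNX 3 0 true true true .npn 1 2 3 (qsf 536870912 536870912 1073741824 536870912 3) ndN3q1 ndN7q2 pcN3 Cut.none Ext.none)

def k0_pp_123 : ∃ t, chk3 f_pp_123 t 1 1 1 = true :=
  ⟨(l 4), by decide +kernel⟩

theorem c_pp_123 : CertNX 536870912 536870912 1073741824 536870912 1046898278 26843546 3 true true true .npn 1 2 3
    ndN3q1 ndN7q2 pcN3 Cut.none Ext.none :=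
  certNX0 (fam := true) (s1 := true) (s2 := true) (a := 1) (b := 2) (c := 3) (cn := .npn) (n1 := ndN3q1) (n2 := ndN7q2) (pc := pcN3) (cut := Cut.none) (xt := Ext.none) (P1 := 536870912) (W1 := 536870912) (P2 := 1073741824) (W2 := 536870912) (P3 := 1046898278) (W3 := 26843546) (N0 := 3)
    rfl k0_pp_123

noncomputable def f_pp_133 : ℕ → ℕ → ℕ → ℕ → Bool := onCell 536870912 536870912 0 1230186008 1046898278 26843546
    (rowNX 3 0 true true true .dn 1 3 3 (qsf 536870912 536870912 0 1230186008 3) ndN3q1 ndN7q3 pcN3 Cut.none Ext.none)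

def k0_pp_133 : ∃ t, chk3 f_pp_133 t 1 1 1 = true :=
  ⟨(l 4), by decide +kernel⟩

theorem c_pp_133 : CertNX 536870912 536870912 0 1230186008 1046898278 26843546 3 true true true .dn 1 3 3
    ndN3q1 ndN7q3 pcN3 Cut.none Ext.none :=
  certNX0 (fam := true) (s1 := true) (s2 := true) (a := 1) (b := 3) (c := 3) (cn := .dn) (n1 := ndN3q1) (n2 := ndN7q3) (pc := pcN3) (cut := Cut.none) (xt := Ext.none) (P1 := 536870912) (W1 := 536870912) (P2 := 0) (W2 := 1230186008) (P3 := 1046898278) (W3 := 26843546) (N0 := 3)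
    rfl k0_pp_133

noncomputable def f_pp_202 : ℕ → ℕ → ℕ → ℕ → Bool := onCell 1073741824 536870912 0 536870912 1046898278 26843546
    (rowNX 3 0 true true true .pp 2 0 2 (qsf 1073741824 536870912 0 536870912 2) ndN3q2 ndN7q0 pcN2 Cut.none Ext.none)

def k0_pp_202 : ∃ t, chk3 f_pp_202 t 1 1 1 = true :=
  ⟨(l 4), by decide +kernel⟩

theorem c_pp_202 : CertNX 1073741824 536870912 0 536870912 1046898278 26843546 3 true true true .pp 2 0 2
    ndN3q2 ndN7q0 pcN2 Cut.none Ext.none :=
  certNX0 (fam := true) (s1 := true) (s2 := true) (a := 2) (b := 0) (c := 2) (cn := .pp) (n1 := ndN3q2) (n2 := ndN7q0) (pc := pcN2) (cut := Cut.none) (xt := Ext.none) (P1 := 1073741824) (W1 := 536870912) (P2 := 0) (W2 := 536870912) (P3 := 1046898278) (W3 := 26843546) (N0 := 3)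
    rfl k0_pp_202

noncomputable def f_pp_203 : ℕ → ℕ → ℕ → ℕ → Bool := onCell 1073741824 536870912 0 536870912 1046898278 26843546
    (rowNX 3 0 true true true .up 2 0 3 (qsf 1073741824 536870912 0 536870912 3) ndN3q2 ndN7q0 pcN3 Cut.none Ext.none)

def k0_pp_203 : ∃ t, chk3 f_pp_203 t 1 1 1 = true :=
  ⟨(l 4), by decide +kernel⟩

theorem c_pp_203 : CertNX 1073741824 536870912 0 536870912 1046898278 26843546 3 true true true .up 2 0 3
    ndN3q2 ndN7q0 pcN3 Cut.none Ext.none :=
  certNX0 (fam := true) (s1 := true) (s2 := true) (a := 2) (b := 0) (c := 3) (cn := .up) (n1 := ndN3q2) (n2 := ndN7q0) (pc := pcN3) (cut := Cut.none) (xt := Ext.none) (P1 := 1073741824) (W1 := 536870912) (P2 := 0) (W2 := 536870912) (P3 := 1046898278) (W3 := 26843546) (N0 := 3)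
    rfl k0_pp_203

noncomputable def f_pp_213 : ℕ → ℕ → ℕ → ℕ → Bool := onCell 1073741824 536870912 536870912 536870912 1046898278 26843546
    (rowNX 3 0 true true true .pnn 2 1 3 (qsf 1073741824 536870912 536870912 536870912 3) ndN3q2 ndN7q1 pcN3 Cut.none Ext.none)

def k0_pp_213 : ∃ t, chk3 f_pp_213 t 1 1 1 = true :=
  ⟨(l 4), by decide +kernel⟩

theorem c_pp_213 : CertNX 1073741824 536870912 536870912 536870912 1046898278 26843546 3 true true true .pnn 2 1 3
    ndN3q2 ndN7q1 pcN3 Cut.none Ext.none :=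
  certNX0 (fam := true) (s1 := true) (s2 := true) (a := 2) (b := 1) (c := 3) (cn := .pnn) (n1 := ndN3q2) (n2 := ndN7q1) (pc := pcN3) (cut := Cut.none) (xt := Ext.none) (P1 := 1073741824) (W1 := 536870912) (P2 := 536870912) (W2 := 536870912) (P3 := 1046898278) (W3 := 26843546) (N0 := 3)
    rfl k0_pp_213

noncomputable def f_pp_303 : ℕ → ℕ → ℕ → ℕ → Bool := onCell 1610612736 536870912 0 536870912 1046898278 26843546
    (rowNX 3 0 true true true .npn 3 0 3 (qsf 1610612736 536870912 0 536870912 3) ndN3q3 ndN7q0 pcN3 Cut.none Ext.none)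

def k0_pp_303 : ∃ t, chk3 f_pp_303 t 1 1 1 = true :=
  ⟨(l 4), by decide +kernel⟩

theorem c_pp_303 : CertNX 1610612736 536870912 0 536870912 1046898278 26843546 3 true true true .npn 3 0 3
    ndN3q3 ndN7q0 pcN3 Cut.none Ext.none :=
  certNX0 (fam := true) (s1 := true) (s2 := true) (a := 3) (b := 0) (c := 3) (cn := .npn) (n1 := ndN3q3) (n2 := ndN7q0) (pc := pcN3) (cut := Cut.none) (xt := Ext.none) (P1 := 1610612736) (W1 := 536870912) (P2 := 0) (W2 := 536870912) (P3 := 1046898278) (W3 := 26843546) (N0 := 3)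
    rfl k0_pp_303

noncomputable def f_pp_313 : ℕ → ℕ → ℕ → ℕ → Bool := onCell 1610612736 536870912 536870912 536870912 1046898278 26843546
    (rowNX 3 0 true true true .dn 3 1 3 (qsf 1610612736 536870912 536870912 536870912 3) ndN3q3 ndN7q1 pcN3 Cut.none Ext.none)

def k0_pp_313 : ∃ t, chk3 f_pp_313 t 1 1 1 = true :=
  ⟨(l 4), by decide +kernel⟩

theorem c_pp_313 : CertNX 1610612736 536870912 536870912 536870912 1046898278 26843546 3 true true true .dn 3 1 3
    ndN3q3 ndN7q1 pcN3 Cut.none Ext.none :=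
  certNX0 (fam := true) (s1 := true) (s2 := true) (a := 3) (b := 1) (c := 3) (cn := .dn) (n1 := ndN3q3) (n2 := ndN7q1) (pc := pcN3) (cut := Cut.none) (xt := Ext.none) (P1 := 1610612736) (W1 := 536870912) (P2 := 536870912) (W2 := 536870912) (P3 := 1046898278) (W3 := 26843546) (N0 := 3)
    rfl k0_pp_313

noncomputable def f_pm_001 : ℕ → ℕ → ℕ → ℕ → Bool := onCell 0 536870912 0 536870912 1046898278 26843546
    (rowNX 3 0 true true false .up 0 0 1 (qsf 0 536870912 0 536870912 1) ndN3q0 ndN7q0 pcN1 Cut.none Ext.none)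

def k0_pm_001 : ∃ t, chk3 f_pm_001 t 1 1 1 = true :=
  ⟨(l 3), by decide +kernel⟩

theorem c_pm_001 : CertNX 0 536870912 0 536870912 1046898278 26843546 3 true true false .up 0 0 1
    ndN3q0 ndN7q0 pcN1 Cut.none Ext.none :=
  certNX0 (fam := true) (s1 := true) (s2 := false) (a := 0) (b := 0) (c := 1) (cn := .up) (n1 := ndN3q0) (n2 := ndN7q0) (pc := pcN1) (cut := Cut.none) (xt := Ext.none) (P1 := 0) (W1 := 536870912) (P2 := 0) (W2 := 536870912) (P3 := 1046898278) (W3 := 26843546) (N0 := 3)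
    rfl k0_pm_001

noncomputable def cut_pm_011 : Cut := Cut.of [[⟨0, 0, 0, 67108864⟩, ⟨1, 1, 0, 67108864⟩, ⟨2, 1, 0, 67108864⟩]]

noncomputable def f_pm_011 : ℕ → ℕ → ℕ → ℕ → Bool := onCell 0 536870912 536870912 536870912 1046898278 26843546
    (rowNX 3 1 true true false .pnn 0 1 1 (qsf 0 536870912 536870912 536870912 1) ndN3q0 ndN7q1 pcN1 cut_pm_011 Ext.none)

def k0_pm_011 : ∃ t, chk3 f_pm_011 t 1 1 1 = true :=
  ⟨(b (l 3) (b (l 3) (a (a (b (l 3) (a (a (a (b (l 3) (l 6)) (l 3)) (l 3)) (l 3))) (l 3)) (l 3)))), by decide +kernel⟩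

theorem c_pm_011 : CertNX 0 536870912 536870912 536870912 1046898278 26843546 3 true true false .pnn 0 1 1
    ndN3q0 ndN7q1 pcN1 cut_pm_011 Ext.none :=
  certNX1 (fam := true) (s1 := true) (s2 := false) (a := 0) (b := 1) (c := 1) (cn := .pnn) (n1 := ndN3q0) (n2 := ndN7q1) (pc := pcN1) (cut := cut_pm_011) (xt := Ext.none) (P1 := 0) (W1 := 536870912) (P2 := 536870912) (W2 := 536870912) (P3 := 1046898278) (W3 := 26843546) (N0 := 3)
    rfl (fun _ => rfl) k0_pm_011

noncomputable def cut_pm_012 : Cut := Cut.of [[⟨0, 0, 0, 67108864⟩, ⟨1, 1, 0, 67108864⟩, ⟨2, 1, 0, 67108864⟩]]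

noncomputable def f_pm_012 : ℕ → ℕ → ℕ → ℕ → Bool := onCell 1073741824 536870912 536870912 536870912 1046898278 26843546
    (rowNX 3 2 true true false .pnp 0 1 2 (qsf 0 536870912 536870912 536870912 2) ndN3q0 ndN7q1 pcN2 cut_pm_012 Ext.none)

def k0_pm_012 : ∃ t, chk3 f_pm_012 t 8 1 1 = true :=
  ⟨(b (l 3) (b (l 3) (b (l 3) (b (b (l 3) (a (l 3) (a (l 3) (a (l 3) (b (l 3) (c (l 14431520) (c (c (l 14426960) (l 14373072)) (l 14335136)))))))) (b (a (l 3) (a (a (l 3) (b (l 3) (b (l 3) (c (l 15630720) (c (l 15622856) (c (l 1367038304871) (l 15601800))))))) (c (a (b (l 14998376) (l 15208264)) (l 14736336)) (c (a (b (c (l 15000016) (l 14763768)) (l 15024608)) (c (l 14722160) (b (l 14607416) (l 14815304)))) (a (b (l 14946984) (a (l 15067248) (l 14938440))) (b (l 14554816) (l 14642296))))))) (a (l 6) (b (a (a (l 6) (c (l 15688344) (c (l 15668144) (c (c (l 15671752) (b (l 15660880) (l 6))) (l 15658960))))) (c (a (a (l 15483816) (l 15324112)) (l 15072512)) (c (a (l 15368904) (l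 15036016)) (c (a (b (c (l 15343160) (l 15341968)) (l 15406032)) (c (l 15032840) (l 15022648))) (a (b (l 15320400) (l 15355376)) (l 15013200)))))) (a (l 6) (a (b (c (l 15489792) (c (l 15461032) (c (l 15447480) (c (l 15444784) (l 15440712))))) (l 6)) (c (a (l 15340344) (l 15205528)) (c (l 15230584) (c (l 15213544) (c (b (l 15178048) (l 15248768)) (b (l 15172848) (a (l 15307352) (l 15186656)))))))))))))))), by decide +kernel⟩

def k1_pm_012 : ∃ t, chk3 f_pm_012 t 9 2 1 = true :=
  ⟨(a (l 3) (a (b (l 3) (l 3)) (b (c (l 16774792) (l 16774712)) (c (b (l 16595072) (l 16053584)) (l 16087448))))), by decide +kernel⟩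

def k2_pm_012 : ∃ t, chk3 f_pm_012 t 9 6 1 = true :=
  ⟨(a (a (l 3) (a (l 3) (a (l 3) (b (l 3) (l 14538544))))) (a (a (b (l 3) (a (l 14445568) (l 14504712))) (b (l 15393032) (l 14503128))) (b (c (l 15413872) (l 15365816)) (c (a (l 14540456) (l 14534512)) (l 14455368))))), by decide +kernel⟩

def k3_pm_012 : ∃ t, chk3 f_pm_012 t 18 7 1 = true :=
  ⟨(b (b (a (l 3) (c (b (l 13962208) (l 13812256)) (l 13786648))) (a (a (l 3) (b (l 3) (c (c (c (l 14015648) (l 13975504)) (l 13909352)) (l 13784464)))) (c (a (c (b (l 13883536) (b (l 13860560) (l 13838816))) (l 13773016)) (c (b (l 13772080) (l 13513376)) (l 13652056))) (l 13612000)))) (c (b (b (c (a (l 14071472) (l 13720992)) (a (c (a (l 14125736) (l 13958792)) (a (l 14077880) (l 13909432))) (c (b (l 13725496) (l 13727472)) (b (l 13631904) (l 13684144))))) (a (a (b (l 14091872) (l 14144408)) (c (l 13943272) (l 13929152))) (c (l 13691664) (a (l 13758560) (l 13588784))))) (a (b (a (l 14385200) (b (l 13978440) (l 14120840))) (a (l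 14676880) (l 14439752))) (b (a (b (l 13771656) (l 13813032)) (l 13599776)) (a (l 14059728) (l 13722128))))) (b (a (b (l 1129201088567) (c (a (b (l 14055440) (c (l 14133400) (l 14076896))) (c (l 13911976) (l 13862248))) (l 13914968))) (c (b (l 13583376) (c (b (l 13652048) (l 13668864)) (l 13600248))) (l 13547152))) (a (b (c (b (c (l 14121232) (a (l 14248616) (l 13942352))) (a (l 14453336) (l 14074400))) (b (l 14048608) (a (l 14418672) (l 14032928)))) (c (a (l 14779392) (l 14383928)) (c (b (a (b (l 14592768) (l 14706688)) (l 14252848)) (l 14558448)) (b (a (l 14637184) (l 14234168)) (c (a (l 14860880) (l 14455920)) (b (l 14594144) (l 14706776))))))) (b (c (c (a (l 13764568) (l 13559792)) (b (l 13635184) (l 13643760))) (a (b (l 13664616) (l 13710968)) (l 13486904))) (c (l 13663088) (b (c (b (l 13562176) (l 13732688)) (l 13686256)) (c (l 13865168) (c (l 13849488) (l 13708176)))))))))), by decide +kernel⟩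

def k4_pm_012 : ∃ t, chk3 f_pm_012 t 19 7 1 = true :=
  ⟨(b (a (c (b (a (b (l 13810704) (l 13654088)) (l 13678328)) (c (a (b (l 13680472) (c (l 13649120) (l 13605584))) (b (l 13631960) (l 13566688))) (a (l 13554304) (l 13500928)))) (a (b (l 13626256) (l 13438840)) (b (l 13592224) (l 13383976)))) (c (b (a (l 13405912) (l 13628016)) (c (b (a (l 13590448) (l 13533880)) (l 13489008)) (l 13276272))) (b (a (l 13570688) (l 13539984)) (l 13303920)))) (b (c (a (c (a (b (l 13512480) (l 13441704)) (l 13402656)) (b (a (c (l 13502752) (l 13449216)) (l 13398768)) (a (l 13418376) (l 13308352)))) (c (l 13298640) (b (l 13311416) (l 13187816)))) (a (a (b (l 13338064) (c (b (l 13377416) (l 13378136)) (l 13290040))) (b (l 13261200) (c (l 13258304) (l 13175928)))) (b (l 13171392) (c (l 13135528) (l 13050880))))) (c (a (a (b (l 13421360) (l 13451176)) (l 13300168)) (l 13133944)) (a (c (b (c (l 13314760) (b (l 13302416) (l 13281248))) (l 13064936)) (b (a (l 13300176) (l 13170872)) (c (b (l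 13201720) (l 13258048)) (b (l 13215864) (a (c (l 13318656) (l 13300760)) (l 13136736)))))) (c (b (c (l 13086648) (l 13048808)) (l 13034256)) (b (l 13002856) (c (l 12991208) (b (l 12967840) (l 12952632))))))))), by decide +kernel⟩

def k5_pm_012 : ∃ t, chk3 f_pm_012 t 5 2 1 = true :=
  ⟨(b (a (a (a (c (l 16761712) (l 16761168)) (l 2)) (l 2)) (l 2)) (a (a (a (c (b (l 16591696) (l 16044584)) (b (l 16585096) (l 16018664))) (a (l 16128264) (a (l 16192976) (b (l 16550312) (l 15963504))))) (l 16180480)) (l 16091200))), by decide +kernel⟩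

def k6_pm_012 : ∃ t, chk3 f_pm_012 t 10 6 1 = true :=
  ⟨(a (a (b (a (l 15383920) (l 15356808)) (a (b (l 14772392) (l 14162000)) (l 14430992))) (b (a (l 15316816) (a (l 15283960) (a (l 15272296) (l 15267488)))) (a (l 14380504) (a (l 14340384) (a (l 14328808) (l 14325016)))))) (b (l 15306368) (l 14380352))), by decide +kernel⟩

def k7_pm_012 : ∃ t, chk3 f_pm_012 t 20 7 1 = true :=
  ⟨(a (b (b (c (l 13563592) (l 13472944)) (c (c (b (l 13436920) (l 13343912)) (l 13290104)) (l 13167080))) (c (b (c (l 13138576) (b (l 13156704) (l 13018712))) (l 12905120)) (b (b (l 13012200) (c (l 12963192) (l 12875248))) (c (b (c (l 12869024) (l 12829128)) (l 12772840)) (b (l 12780056) (c (l 12726088) (b (l 12703496) (l 12679464)))))))) (b (a (b (l 13427168) (c (c (b (l 13337328) (l 13217448)) (l 13175064)) (l 13048576))) (b (a (l 13382832) (a (l 13373096) (l 13372792))) (c (a (c (b (l 13292696) (l 13157488)) (l 13119984)) (a (c (b (l 13284872) (l 13146112)) (l 13109840)) (c (b (l 13288032)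 (c (l 13179464) (l 13131344))) (l 13110432)))) (a (l 12991808) (a (l 12981336) (l 12981928)))))) (c (a (b (c (l 13003072) (b (l 13020312) (l 12878560))) (l 12732152)) (b (c (a (l 12934872) (a (l 12923536) (l 12936608))) (a (b (l 12951080) (l 12808592)) (a (b (l 12935368) (l 12797480)) (b (b (l 12964736) (l 12923160)) (l 12817032))))) (a (l 12658360) (a (l 12674480) (a (l 12717336) (l 12740240)))))) (b (a (l 12722496) (a (l 12755688) (a (b (l 12784240) (l 12688096)) (b (l 12789264) (b (l 12679976) (c (c (l 12773456) (l 12704392)) (l 12643488))))))) (a (c (b (l 12689760) (l 12578888)) (b (l 12622960) (c (l 12529320) (l 12486080)))) (a (c (b (l 12617952) (l 12499736)) (b (l 12549728) (c (l 12449000) (l 12404968)))) (a (c (b (l 12598520) (l 12523424)) (b (l 12551280) (c (l 12473032) (l 12429240)))) (b (a (c (l 12657496) (l 12590040)) (c (l 12681360) (l 12614384))) (c (l 12581264) (c (l 12531728) (l 12488504))))))))))), by decide +kernel⟩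

def k8_pm_012 : ∃ t, chk3 f_pm_012 t 21 7 1 = true :=
  ⟨(b (c (b (l 13499240) (c (l 13154336) (l 13190048))) (l 13236264)) (c (b (c (l 12979816) (b (l 12995704) (l 12841656))) (l 12719920)) (b (b (l 12846312) (c (l 12782608) (l 12691088))) (c (b (l 12434368) (l 12574304)) (b (l 12597736) (c (l 12524656) (l 12481360))))))), by decide +kernel⟩

def k9_pm_012 : ∃ t, chk3 f_pm_012 t 11 3 1 = true :=
  ⟨(b (b (l 15381912) (l 14488080)) (b (c (b (l 13632360) (c (b (l 13508584) (l 13385272)) (l 13345784))) (l 13385928)) (c (b (c (l 13118104) (b (l 13156400) (l 12977024))) (l 12665152)) (b (a (l 12914232) (l 12977080)) (c (b (a (l 12727104) (l 12784608)) (l 12621960)) (b (l 12694432) (a (c (l 12550168) (l 12507128)) (l 12559528)))))))), by decide +kernel⟩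

def k10_pm_012 : ∃ t, chk3 f_pm_012 t 3 1 1 = true :=
  ⟨(b (b (l 2) (b (l 2) (l 16041696))) (b (b (l 15393264) (a (l 14504672) (l 14504672))) (b (c (b (l 13652976) (a (c (l 13456464) (l 13370024)) (l 13409360))) (l 13304424)) (c (b (a (c (l 13145464) (b (l 13183368) (l 13005936))) (l 13098104)) (l 12802264)) (b (a (l 12977160) (l 12977160)) (a (c (b (l 12784696) (l 12630320)) (b (l 12719832) (a (l 12559560) (l 12559560)))) (c (l 12708024) (l 12624584)))))))), by decide +kernel⟩

theorem s11_pm_012 : ∃ t, chk3 f_pm_012 t 10 7 1 = true := ex3_a k7_pm_012 k8_pm_012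

theorem s12_pm_012 : ∃ t, chk3 f_pm_012 t 10 3 1 = true := ex3_b k6_pm_012 s11_pm_012

theorem s13_pm_012 : ∃ t, chk3 f_pm_012 t 5 3 1 = true := ex3_a s12_pm_012 k9_pm_012

theorem s14_pm_012 : ∃ t, chk3 f_pm_012 t 5 1 1 = true := ex3_b k5_pm_012 s13_pm_012

theorem s15_pm_012 : ∃ t, chk3 f_pm_012 t 9 7 1 = true := ex3_a k3_pm_012 k4_pm_012

theorem s16_pm_012 : ∃ t, chk3 f_pm_012 t 9 3 1 = true := ex3_b k2_pm_012 s15_pm_012

theorem s17_pm_012 : ∃ t, chk3 f_pm_012 t 9 1 1 = true := ex3_b k1_pm_012 s16_pm_012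

theorem s18_pm_012 : ∃ t, chk3 f_pm_012 t 4 1 1 = true := ex3_a k0_pm_012 s17_pm_012

theorem s19_pm_012 : ∃ t, chk3 f_pm_012 t 2 1 1 = true := ex3_a s18_pm_012 s14_pm_012

theorem s20_pm_012 : ∃ t, chk3 f_pm_012 t 1 1 1 = true := ex3_a s19_pm_012 k10_pm_012

theorem c_pm_012 : CertNX 0 536870912 536870912 536870912 1046898278 26843546 3 true true false .pnp 0 1 2
    ndN3q0 ndN7q1 pcN2 cut_pm_012 Ext.none :=
  certNX2 (fam := true) (s1 := true) (s2 := false) (a := 0) (b := 1) (c := 2) (cn := .pnp) (n1 := ndN3q0) (n2 := ndN7q1) (pc := pcN2) (cut := cut_pm_012) (xt := Ext.none) (P1 := 0) (W1 := 536870912) (P2 := 536870912) (W2 := 536870912) (P3 := 1046898278) (W3 := 26843546) (N0 := 3)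
    rfl (fun _ => rfl) s20_pm_012

noncomputable def cut_pm_022 : Cut := Cut.of [[⟨0, 0, 0, 67108864⟩, ⟨1, 1, 0, 67108864⟩, ⟨2, 1, 0, 67108864⟩]]

noncomputable def f_pm_022 : ℕ → ℕ → ℕ → ℕ → Bool := onCell 1073741824 536870912 1073741824 536870912 1046898278 26843546
    (rowNX 3 2 true true false .pp 0 2 2 (qsf 0 536870912 1073741824 536870912 2) ndN3q0 ndN7q2 pcN2 cut_pm_022 Ext.none)

def k0_pm_022 : ∃ t, chk3 f_pm_022 t 8 4 1 = true :=
  ⟨(b (b (a (l 6) (a (l 6) (a (l 6) (a (l 6) (c (b (l 15458128) (c (l 15781800) (l 15774952))) (b (c (l 15430792) (c (b (l 15328416) (c (l 15514912) (l 15506776))) (b (c (l 15322440) (l 15313464)) (l 15500672)))) (c (c (l 15790432) (b (l 15695208) (c (l 15892384) (l 15875304)))) (b (c (l 15482264) (l 15672696)) (l 15847328))))))))) (b (a (l 6) (a (l 6) (a (l 6) (a (l 6) (a (l 6) (a (l 6) (c (c (l 15999584) (b (l 16006120) (c (l 16183552) (l 16082976)))) (c (c (b (c (l 16044192) (l 15988896)) (c (l 16063496) (l 16151928))) (l 15967840))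 (l 16059992))))))))) (a (l 1) (a (b (l 6) (l 1)) (b (a (l 6) (a (l 6) (a (l 6) (c (c (b (l 16343288) (l 16392744)) (c (b (l 16379936) (l 16448472)) (c (b (l 16358528) (l 16345304)) (b (l 16314912) (l 16389856))))) (c (l 16244344) (l 16311928)))))) (b (a (l 6) (a (l 6) (a (l 6) (c (c (l 16511552) (c (b (l 16527816) (l 16460464)) (l 16389832))) (c (l 16451640) (l 16392544)))))) (a (l 1) (c (c (c (l 1041562439383) (l 1021161339047)) (c (c (l 1020087633287) (l 1018477015223)) (l 16569552))) (a (l 1304629356215) (c (l 16513840) (a (l 16528448) (b (l 16454184) (l 16508408))))))))))))) (b (b (b (b (a (l 1) (a (l 1) (a (l 1) (c (c (c (l 1901629845575) (c (l 2163085895287) (l 1269195601031))) (c (c (l 1272416966343) (l 1276175159847)) (l 1047468230807))) (l 1311071749767))))) (l 1)) (l 1)) (l 1)) (l 1))), by decide +kernel⟩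

def k1_pm_022 : ∃ t, chk3 f_pm_022 t 18 16 1 = true :=
  ⟨(c (a (b (a (b (l 15172216) (l 15370744)) (b (l 14816120) (l 15090168))) (a (c (l 15609904) (l 15600304)) (c (l 15363488) (l 15350336)))) (b (l 14383960) (a (b (l 15000552) (l 15188072)) (b (l 14649440) (l 14912728))))) (a (c (b (a (l 15107056) (l 14906728)) (c (b (l 15387472) (l 15572784)) (b (l 15289176) (c (b (l 15546912) (l 15584400)) (a (l 15694224) (l 15432968)))))) (b (b (c (l 14820520) (a (c (b (l 15049336) (l 15181792)) (b (l 15042768) (l 15176680))) (c (l 14736264) (l 14724760)))) (c (b (a (l 15291528) (l 14987832)) (c (l 15255792) (a (l 15386896) (l 15121672)))) (a (l 15326256) (l 15032192)))) (b (c (c (b (l 15359880) (l 15436936)) (l 15377048)) (l 15366448)) (l 15532464)))) (b (c (l 14328320) (c (b (l 14136216) (c (l 14480048) (l 14257696))) (b (c (l 14122384) (l 13961344)) (l 14454536)))) (c (b (a (l 14748592) (l 14618952)) (c (l 14879320) (a (l 15128072) (b (l 14860712) (l 14972016))))) (b (a (c (b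 (l 14918312) (l 15038864)) (l 14943520)) (l 14588016)) (l 14995392)))))), by decide +kernel⟩

def k2_pm_022 : ∃ t, chk3 f_pm_022 t 18 17 2 = true :=
  ⟨(a (b (c (a (b (l 15837840) (l 15948808)) (l 15660624)) (b (a (l 15859304) (l 15597800)) (c (a (l 16029824) (l 15761728)) (a (b (l 16023248) (l 15915640)) (l 15599560))))) (c (a (b (a (b (l 16236984) (l 16233616)) (l 15972112)) (b (a (c (l 16406856) (l 16457696)) (l 16229632)) (c (l 16364208) (l 16352896)))) (b (l 15808808) (b (l 15901096) (b (l 16085928) (l 16100064))))) (a (b (b (c (l 16134560) (c (l 15993808) (l 15975640))) (c (a (c (l 16386216) (l 16285064)) (l 16159952)) (c (b (l 16136064) (l 16008624)) (l 15990128)))) (b (c (a (c (l 16450432) (c (l 16452744) (l 16427872))) (c (l 16299272) (l 16273288))) (a (c (l 16279696) (l 16367368)) (l 16092776))) (c (c (a (l 16492360) (l 16321696)) (a (c (l 16475584) (l 16448968)) (l 16227312))) (l 16239104)))) (b (c (l 15807224) (c (b (l 15922112) (l 15963440)) (l 15891352)))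 (c (b (c (l 16021384) (l 15956432)) (c (a (l 16257936) (l 16096144)) (a (l 16178976) (l 16018344)))) (b (l 15779592) (l 16069584))))))) (b (c (a (l 15412496) (l 15174672)) (b (l 15227392) (c (l 15384904) (a (l 15532488) (l 15286320))))) (b (c (l 15312352) (c (a (l 15694672) (l 15447984)) (c (a (l 15679384) (l 15431608)) (a (l 15630736) (l 15381640))))) (c (a (b (l 15777848) (l 15769672)) (l 15567272)) (c (a (c (l 15683256) (b (l 15789048) (l 15809248))) (c (l 15597816) (l 15558064))) (a (l 15753472) (l 15499960))))))), by decide +kernel⟩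

def k3_pm_022 : ∃ t, chk3 f_pm_022 t 18 17 3 = true :=
  ⟨(a (b (c (b (c (c (a (l 15895928) (l 15631456)) (a (b (l 15852728) (l 15917000)) (l 15615688))) (a (l 15842712) (l 15575696))) (c (a (c (b (l 15988552) (l 16047768)) (l 15998768)) (c (l 15556568) (l 15726448))) (l 15624640))) (a (l 15904424) (l 15631688))) (b (a (c (a (l 16140456) (l 16076168)) (l 15952912)) (l 15859024)) (a (a (b (c (l 16308672) (l 16312056)) (c (l 16342008) (c (l 16352112) (l 16324408)))) (c (l 16047728) (l 16156136))) (c (a (l 16081752) (l 15938472)) (l 15998632))))) (b (c (c (b (b (l 15209856) (l 15219744)) (c (l 15152880) (l 15341720))) (l 15037312)) (l 15245704)) (a (b (l 15591592) (l 15730352)) (l 15402856)))), by decide +kernel⟩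

def k4_pm_022 : ∃ t, chk3 f_pm_022 t 36 18 1 = true :=
  ⟨(b (a (c (c (b (c (l 16416528) (b (c (l 16506136) (l 934724943271)) (c (l 1017940041239) (l 16399360)))) (b (c (l 1268658672903) (c (l 1261142545015) (l 1255773761671))) (l 1))) (b (c (c (a (b (l 16471520) (l 767758317223)) (b (l 16391184) (l 16363512))) (a (l 16454704) (l 16394376))) (a (l 16515808) (l 16390592))) (l 459057533479))) (c (b (a (l 16471888) (l 688300912935)) (l 483216724567)) (b (a (b (a (l 16496968) (l 16321496)) (l 16515952)) (b (c (l 16318504) (l 16311200)) (l 1027603419799))) (l 888554130279)))) (c (c (b (b (c (l 16216048) (c (l 16234600) (a (l 16296080) (l 16219560)))) (c (l 16324952) (c (a (l 16384408) (l 16309456)) (l 16242144)))) (c (a (b (l 16432344) (l 1220877155591)) (c (l 16324136) (l 705480814967))) (c (b (l 16319304) (l 980895524487)) (b (l 16119672) (l 16271856))))) (b (b (c (c (l 16021448) (l 16077672)) (l 16128408)) (b (a (l 16181248) (l 16065808)) (l 16117864))) (l 16160032))) (b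 (a (c (l 16030632) (c (l 16122128) (l 16177872))) (c (l 16096800) (l 16077272))) (a (c (l 16362072) (b (l 1003444087911) (l 16381440))) (c (l 16129136) (b (l 16083264) (l 16107784))))))) (a (l 1) (b (b (b (c (c (c (l 795675285415) (l 1213360630215)) (l 16365144)) (l 1185443374087)) (l 1)) (l 1)) (l 1)))), by decide +kernel⟩

def k5_pm_022 : ∃ t, chk3 f_pm_022 t 37 18 1 = true :=
  ⟨(c (b (c (b (a (c (l 15863272) (b (c (l 16004816) (l 15946904)) (c (l 16017640) (l 16032624)))) (c (l 15749936) (c (l 15661728) (l 15518992)))) (a (c (b (l 15972984) (c (l 16256528) (l 16205416))) (c (b (l 16121496) (l 16082024)) (b (l 15832288) (l 16104368)))) (c (b (l 15913592) (c (l 16016136) (l 15978888))) (b (c (l 15861456) (l 15777976)) (c (l 15890136) (l 15843016)))))) (b (a (c (b (c (l 15911216) (l 15862384)) (l 15770416)) (l 15879824)) (c (c (l 15602888) (l 15631296)) (l 15623808))) (a (a (l 16121496) (l 15988680)) (l 15785128)))) (c (c (b (c (a (l 910028369527) (b (l 16008560) (l 16071408)))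 (a (l 912175717783) (b (l 15989808) (l 15998848)))) (b (c (l 916470474455) (l 920765371607)) (a (l 1) (l 900901180407)))) (b (a (l 915933708647) (b (l 15754296) (l 15975136))) (l 946535210295))) (a (l 978747631735) (b (a (l 15988904) (l 15861656)) (l 16031344))))) (b (a (b (c (l 15773360) (l 15863440)) (c (a (l 16016008) (l 15962088)) (a (b (l 16044696) (l 16074936)) (l 15940528)))) (c (b (l 15612048) (l 15753280)) (l 15664840))) (a (b (c (l 937945327943) (a (l 999148826839) (b (l 16047144) (l 16110856)))) (l 1191885513223)) (b (c (a (l 15965368) (l 15833264)) (a (l 15817760) (l 15809768))) (c (l 900900961191) (a (l 948682687703) (b (l 15912208) (l 15973224)))))))), by decide +kernel⟩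

def k6_pm_022 : ∃ t, chk3 f_pm_022 t 18 19 1 = true :=
  ⟨(b (a (l 1) (a (l 1) (a (l 1) (c (l 1192959028023) (l 1183832145591))))) (l 1)), by decide +kernel⟩

def k7_pm_022 : ∃ t, chk3 f_pm_022 t 19 8 1 = true :=
  ⟨(b (c (a (a (b (l 13812360) (l 14420656)) (b (l 13531544) (l 14100080))) (b (l 13267032) (a (l 13801552) (l 13539400)))) (a (b (c (a (l 13739664) (l 13451024)) (b (c (l 13413264) (a (c (l 13519288) (l 13502320)) (l 13154336))) (c (a (l 13872208) (l 13536816)) (a (l 13850304) (l 13511848))))) (c (b (a (l 14227024) (l 13894800)) (c (l 14207344) (a (l 14468480) (l 14219816)))) (a (b (l 14188992) (l 14499688)) (l 14011008)))) (b (c (l 13179128) (c (b (l 13050456) (l 13151544)) (b (l 13019288) (l 13186536)))) (c (b (l 13473576) (c (l 13772632) (l 13755552))) (b (c (l 13379864) (l 13403552)) (l 13691952)))))) (c (b (a (a (b (c (l 14831664) (l 14836240)) (c (l 15013400) (c (l 15031888) (l 15052088)))) (b (l 14557280) (c (l 14803688) (c (l 14819472) (l 14837696)))))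 (c (l 14252360) (a (l 14396328) (l 14095584)))) (a (c (a (b (l 15169064) (l 15333344)) (l 15080496)) (a (c (b (l 15212560) (c (l 15361248) (b (l 15303064) (l 15318168)))) (b (c (l 15194576) (l 15143312)) (l 15260384))) (c (b (l 15036528) (l 15158888)) (b (l 15000752) (l 15079384))))) (c (a (b (l 14809608) (l 15006504)) (l 14454032)) (b (c (l 14711368) (a (l 14790224) (l 14547392))) (c (a (l 15007664) (l 14819648)) (l 14825584)))))) (a (b (c (c (a (b (b (l 14801256) (l 14912312)) (l 14975184)) (b (l 14555416) (l 14800840))) (a (b (l 14796624) (l 14968624)) (l 14622128))) (a (l 14850600) (l 14591304))) (a (l 15156808) (l 14979048))) (b (c (c (b (l 14097136) (l 14380736)) (l 14183552)) (l 14146736)) (a (l 14796808) (l 14565288)))))), by decide +kernel⟩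

def k8_pm_022 : ∃ t, chk3 f_pm_022 t 19 18 1 = true :=
  ⟨(a (c (b (c (a (b (c (l 15497296) (a (l 15550504) (l 15288872))) (c (a (l 15671088) (l 15396400)) (c (b (l 15594064) (l 15612912)) (l 15294712)))) (b (c (l 15317552) (l 15313432)) (c (l 15479480) (c (l 15427048) (l 15362200))))) (a (b (c (a (l 15468872) (l 15353768)) (l 15380320)) (l 15517376)) (b (l 15215744) (l 15334440)))) (c (a (a (b (c (b (l 15842224) (l 15850608)) (l 15760496)) (c (c (l 15915480) (l 15888720)) (l 15881576))) (b (c (c (l 15763000) (l 15686016)) (l 15627384)) (c (b (c (l 15801160) (l 15759928)) (l 15818216)) (l 15771552)))) (b (c (c (l 15625720) (l 15549688)) (l 15497688)) (b (c (l 15656328) (l 15609992)) (l 15660208)))) (a (b (a (l 15730880) (l 15597256)) (a (l 15862160) (l 15745048))) (b (l 15474352) (l 15628904))))) (a (b (b (l 15352368) (l 15487856)) (b (c (l 15593216) (l 15616424)) (c (a (l 15836768) (l 15715032)) (a (l 15813072) (l 15689792))))) (b (l 15232296) (c (l 15525904) (l 15505536)))))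 (c (b (c (b (a (l 15115192) (l 15010744)) (c (l 15199360) (b (l 15039160) (l 15193152)))) (b (c (l 15004456) (l 14969608)) (l 15113216))) (c (b (c (c (l 15405160) (l 15332592)) (l 15283984)) (c (a (l 15531216) (l 15390568)) (l 15430824))) (l 15107656))) (b (a (l 15073672) (l 14929968)) (l 15303760)))), by decide +kernel⟩

def k9_pm_022 : ∃ t, chk3 f_pm_022 t 19 19 1 = true :=
  ⟨(a (a (b (c (a (l 916470307799) (b (l 645887187287) (l 1069478482135))) (c (a (l 932039500551) (b (l 568577644231) (l 15805936))) (b (a (l 15888328) (a (l 15842896) (l 15792600))) (l 1161820133047)))) (l 1)) (b (c (b (a (l 15806120) (l 15749424)) (l 961030425799)) (b (c (l 15528456) (l 15588208)) (c (l 840234339607) (b (l 15666160) (l 15844240))))) (c (l 1014717850519) (l 903048628519)))) (b (c (a (b (l 15589416) (b (l 15758928) (l 15838024))) (b (l 15514256) (l 15512664))) (a (b (l 15492760) (c (b (l 15717920) (l 15804432)) (b (l 15693440) (l 15781112)))) (a (l 15387600) (l 15513384)))) (c (a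 (l 956735631479) (b (a (l 15929232) (l 15878584)) (l 16116040))) (b (a (c (l 15969216) (a (l 15979928) (l 15911248))) (c (l 15827240) (l 15806336))) (a (l 883184649495) (c (l 16078920) (l 736618564599))))))), by decide +kernel⟩

def k10_pm_022 : ∃ t, chk3 f_pm_022 t 4 5 1 = true :=
  ⟨(a (l 1) (b (a (l 1) (a (l 1) (b (b (a (l 1) (c (l 936872193463) (l 816612954487))) (l 1)) (l 1)))) (l 1))), by decide +kernel⟩

def k11_pm_022 : ∃ t, chk3 f_pm_022 t 10 8 1 = true :=
  ⟨(a (a (b (c (a (l 13201632) (l 13055480)) (c (b (l 12895568) (b (l 13106056) (c (l 13289352) (l 13267784)))) (b (c (l 12850520) (b (l 12744328) (l 12891632))) (b (l 13047344) (l 13197400))))) (c (b (b (l 13376752) (a (l 13944760) (l 13644344))) (c (a (l 14416232) (l 14139640)) (a (b (l 14073480) (l 14425968)) (b (l 13756336) (l 14170960))))) (b (b (c (a (l 13606328) (l 13228416)) (l 13406680)) (a (l 13876424) (l 13564608))) (l 13913528)))) (b (c (a (l 12921992) (a (l 12856248) (a (l 12904440) (l 12953208))))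 (b (a (c (l 12682384) (c (l 12634272) (l 12592064))) (c (a (l 12597352) (a (l 12638168) (l 12694944))) (a (c (l 12548008) (l 12400104)) (a (b (l 12249960) (l 12630472)) (c (l 12647016) (l 12604920)))))) (a (c (c (l 12994544) (l 12913624)) (l 12908896)) (a (c (c (l 12938704) (l 12899200)) (l 12851728)) (c (c (l 13022728) (b (l 12904384) (l 13088512))) (l 12937760)))))) (c (a (b (b (l 13266152) (c (l 13446072) (l 13425144))) (c (l 13908040) (b (c (l 13750744) (l 13702960)) (l 14033984)))) (a (b (l 13328264) (c (l 13807752) (b (l 13628744) (l 13917672)))) (b (c (l 13415736) (l 13390824)) (c (a (l 13817352) (l 13834632)) (b (a (l 13655928) (l 13690592)) (a (l 13909136) (l 13908656))))))) (a (b (c (b (l 13202400) (l 13378032)) (l 13212624)) (l 13751360)) (a (b (c (l 13260696) (l 13178960)) (l 13646152)) (b (c (a (l 13323776) (l 13368472)) (l 13261856)) (l 13666008))))))) (c (b (l 12906040) (b (c (l 13320664) (l 13293952)) (c (l 13671912) (b (l 13558752) (a (l 13786288) (l 13637616))))))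 (b (c (b (l 12663928) (c (l 12959056) (l 12731000))) (b (c (l 12615544) (b (l 12508992) (l 12648256))) (l 12872552))) (b (c (c (l 13266960) (l 13211648)) (l 13161296)) (l 13503760))))), by decide +kernel⟩

def k12_pm_022 : ∃ t, chk3 f_pm_022 t 10 9 1 = true :=
  ⟨(a (a (b (c (b (c (b (a (c (l 14849704) (l 14841336)) (l 14625416)) (c (a (l 15069072) (l 14932544)) (a (l 15002176) (l 14864440)))) (a (b (l 14737928) (l 14915984)) (l 14480232))) (c (c (b (l 14914504) (l 15226272)) (l 15125936)) (l 15104048))) (b (a (l 14767800) (l 14585032)) (l 15064224))) (b (c (a (l 15390544) (l 15370616)) (l 15148448)) (a (c (b (l 15796504) (l 15887784)) (b (l 15727936) (c (l 15966032) (l 15927160)))) (c (b (l 15688344) (l 15945336)) (l 15565904))))) (b (a (c (b (c (b (l 14419520) (l 14615608)) (l 14460744)) (c (b (c (l 14990240) (l 14892192)) (l 15094488)) (l 14956816))) (b (l 14392456) (l 14914008))) (c (b (c (a (b (l 14305440) (l 14607208)) (c (a (l 14467056) (l 14461376)) (a (l 14424920)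 (l 14356256)))) (a (l 14345648) (a (l 14333080) (l 14327232)))) (b (a (c (l 14882128) (l 14783736)) (c (a (l 14866312) (c (l 14884984) (l 14786016))) (l 14759528))) (a (l 15048192) (a (l 15059152) (l 15058240))))) (a (l 14463376) (a (l 14563176) (l 14557736))))) (a (b (l 15151496) (c (l 15653968) (l 15701960))) (a (b (l 15257096) (c (l 15707040) (l 15677064))) (b (a (l 15281072) (c (l 15324704) (l 15281392))) (a (l 15664680) (c (l 15734968) (l 15705032)))))))) (b (c (b (c (a (b (l 14079888) (l 14109216)) (b (l 13862112) (l 14017208))) (a (l 13935568) (l 13822536))) (b (c (a (l 14483536) (c (l 14230816) (l 14125432))) (l 14296312)) (a (l 14808944) (l 14363416)))) (a (b (l 14024656) (l 14594160)) (b (l 13735776) (l 14157992)))) (b (a (c (b (l 15055904) (l 15266832)) (l 14976200)) (l 14730696)) (a (c (l 15622104) (l 15589552)) (c (b (l 15222600) (l 15511472)) (l 15253432)))))), by decide +kernel⟩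

def k13_pm_022 : ∃ t, chk3 f_pm_022 t 20 5 1 = true :=
  ⟨(b (a (b (b (c (a (l 702796394887) (a (l 16198784) (l 16084160))) (a (b (b (l 750040624583) (l 16227472)) (l 16245344)) (b (b (l 16028264) (c (l 16221552) (l 16207408))) (c (l 16322064) (l 16131488))))) (b (c (l 1119407873495) (l 940629772247)) (l 1))) (l 1)) (a (b (c (b (a (l 16032968) (l 16027576)) (l 795674344151)) (b (b (l 15975848) (a (l 16169736) (l 16246128))) (b (b (c (l 16206080) (l 16188904)) (l 16052808)) (l 15898488)))) (l 1)) (b (c (a (b (l 15949696) (a (l 15960472) (l 15933872))) (b (a (l 16078752) (l 15972288)) (a (b (b (l 16202544) (l 16083848)) (l 15938536)) (b (b (b (l 16228304) (l 16123144)) (l 16033976)) (l 15798008))))) (a (b (l 15939952) (b (b (c (l 16232544) (l 16242232)) (l 15958880)) (l 551397869815))) (b (a (l 16090848) (l 16034176)) (a (b (b (l 16233704) (l 16074544)) (l 15759952)) (b (b (l 16155064) (b (l 16092808) (l 15911352))) (c (l 15793176) (b (l 15957248) (l 15815216)))))))) (a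 (l 1) (a (l 1) (a (l 1) (b (b (l 925059715431) (l 1)) (l 1)))))))) (l 1)), by decide +kernel⟩

def k14_pm_022 : ∃ t, chk3 f_pm_022 t 21 5 1 = true :=
  ⟨(b (b (b (a (c (l 15823280) (l 15970080)) (c (l 15821456) (l 15840656))) (a (c (a (b (l 16055672) (l 15870336)) (b (l 16319392) (b (l 16134536) (l 16014856)))) (b (l 16046224) (a (c (l 15937248) (l 15939528)) (c (l 16074656) (l 16090864))))) (c (b (l 16178976) (l 16129848)) (l 16192392)))) (b (a (b (c (a (l 15770256) (l 15788928)) (a (c (l 15756912) (l 15685608)) (c (l 15852504) (l 15852520)))) (c (l 756481972007) (a (l 15563552) (c (l 15640080) (l 15587672))))) (c (b (a (l 15904616) (l 16053144)) (a (l 15690184) (l 15821392))) (b (a (l 15912640) (l 16053112)) (c (l 496636613063) (l 15674000))))) (a (c (l 950828784791) (l 1058739716295)) (c (a (l 15518760) (l 574482533063)) (a (b (l 639980777255) (l 15421440)) (b (c (l 15643032) (l 15639320)) (l 633001303095))))))) (b (a (l 1) (c (l 1096857543063) (b (l 1056055145735)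 (l 1)))) (l 1))), by decide +kernel⟩

def k15_pm_022 : ∃ t, chk3 f_pm_022 t 11 4 1 = true :=
  ⟨(b (b (c (a (l 12866032) (l 12853736)) (c (b (l 12657136) (a (l 12886808) (l 12857240))) (b (a (c (l 12607080) (l 12564592)) (c (l 12603976) (l 12561456))) (a (l 12824264) (l 12794088))))) (c (c (a (l 13374464) (l 13313480)) (b (a (l 13183152) (l 13142296)) (a (c (l 13485064) (l 13430192)) (l 13386592)))) (a (b (c (l 13130408) (l 13046160)) (l 13320800)) (b (l 13043528) (l 13249784))))) (b (c (a (b (c (b (l 13730008) (l 13864704)) (l 13674152)) (c (b (l 13971432) (l 14051408)) (l 13928352))) (c (b (l 13676360) (l 13878168)) (l 13668496))) (a (a (l 13763768) (l 13681928)) (l 13580216))) (a (b (a (l 14346528) (l 14128656)) (a (l 14981248) (l 14636104))) (b (l 13976464) (l 14363200))))), by decide +kernel⟩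

def k16_pm_022 : ∃ t, chk3 f_pm_022 t 11 5 1 = true :=
  ⟨(b (a (b (b (a (a (l 15444928) (l 15433960)) (l 15301888)) (a (l 15851000) (b (l 15675256) (l 15979672)))) (b (a (c (b (l 16180984) (l 15903144)) (l 15919328)) (b (l 16260904) (l 16101304))) (c (a (a (b (l 15731144) (l 15567880)) (l 15606352)) (l 15729056)) (a (a (b (l 15731264) (l 15370816)) (l 15731720)) (l 15841928))))) (b (b (a (l 14971480) (l 14741640)) (a (l 15479616) (l 15268768))) (b (a (c (l 15927024) (l 16044384)) (l 15809608)) (a (c (l 15979592) (l 15963368)) (b (l 16132328) (l 15933056)))))) (a (b (a (b (c (a (l 15372480) (l 554081120103)) (a (b (l 15211656) (l 15273816)) (b (l 15348056) (l 15234352)))) (c (l 954586471815) (l 1065181729287))) (b (c (a (b (l 15556864) (l 15399944)) (l 15529208)) (a (b (l 15550584) (l 15322560)) (l 15542928))) (c (a (l 15214776) (l 15188488)) (a (b (l 15233224) (l 15113864)) (b (l 15294432) (l 15145456)))))) (a (l 1) (c (l 1063571111303) (l 1134974321895)))) (b (b (c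 (a (l 15623984) (l 15803424)) (l 15581952)) (c (a (a (l 15091776) (l 15367504)) (l 15489712)) (a (c (l 455833531799) (l 15312664)) (l 15462624)))) (a (c (b (a (l 15044840) (l 15072600)) (l 976060762647)) (b (b (a (l 15053944) (l 15107632)) (l 711383393175)) (l 14642920))) (b (c (b (l 15236032) (l 15080272)) (a (l 14953208) (l 15171792))) (c (l 785471414679) (c (l 14723120) (l 699035074103)))))))), by decide +kernel⟩

def k17_pm_022 : ∃ t, chk3 f_pm_022 t 2 3 1 = true :=
  ⟨(a (l 1) (b (a (l 1) (b (a (l 1) (b (c (l 1130679283223) (a (l 1) (l 1181144514727))) (l 1))) (l 1))) (l 1))), by decide +kernel⟩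

def k18_pm_022 : ∃ t, chk3 f_pm_022 t 3 2 1 = true :=
  ⟨(b (b (c (b (a (l 12823952) (l 12823936)) (a (c (a (l 13224488) (l 13206704)) (b (l 13061352) (a (a (l 13289800) (l 13253544)) (l 13253488)))) (c (l 13206704) (l 13131520)))) (b (a (c (b (l 12641376) (l 12816832)) (b (a (l 12570688) (l 12570688)) (l 12752832))) (c (l 12729864) (l 12646720))) (a (a (b (l 12753168) (l 13134680)) (l 13041488)) (l 13041488)))) (a (b (a (c (c (b (a (l 13572776) (l 13506448)) (l 13709848)) (l 13512424)) (l 13419416)) (c (c (l 13550664) (l 13447024)) (l 13351872))) (a (l 13935792) (l 13801096))) (b (c (l 13507200) (l 13351848)) (l 13786160)))) (a (b (a (b (a (b (l 14573040) (l 14994992)) (l 14620608)) (a (b (a (l 15552376) (l 15344224)) (a (l 16058176) (l 15754768))) (b (l 15191600) (l 15508264)))) (b (l 14490816) (l 15158992))) (a (b (a (b (a (b (l 16042760) (l 15781216)) (l 16185240)) (a (l 15620264) (b (l 15897624) (l 15719864)))) (b (l 15818072) (a (l 16111504) (l 16077824)))) (a (b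 (c (a (l 15320144) (l 15470984)) (l 15355064)) (c (a (l 491266282215) (l 15157168)) (a (b (l 15040160) (l 14878472)) (l 15116568)))) (b (a (c (l 15581104) (l 15656896)) (l 16000744)) (a (l 15294320) (c (l 15536256) (l 15521672)))))) (b (a (l 15704024) (l 15597232)) (a (b (l 16158128) (a (l 15875584) (l 16373880))) (l 16079944))))) (b (a (b (l 14437720) (l 15051848)) (l 14744992)) (a (b (l 15495576) (l 15916832)) (l 15652824))))), by decide +kernel⟩

def k19_pm_022 : ∃ t, chk3 f_pm_022 t 6 3 1 = true :=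
  ⟨(b (b (a (b (a (c (b (a (l 14654448) (l 14724656)) (l 781712607975)) (b (a (c (l 14674256) (l 14458032)) (l 14708128)) (a (l 14430112) (c (l 14506232) (l 14475264))))) (b (c (a (l 15000792) (l 15164840)) (l 15029104)) (c (a (l 14673184) (l 14851016)) (a (l 14628976) (l 14797240))))) (a (c (l 1189734406503) (l 1275633074951)) (c (b (a (l 14398248) (l 14523480)) (l 746278503079)) (b (a (l 731246335879) (l 14472616)) (a (l 14097232) (l 13983400)))))) (b (a (b (a (l 15206888) (l 15777960)) (a (l 14994880) (l 15151048))) (b (l 16175008) (a (l 15686912) (l 16156776)))) (a (b (c (l 14547456) (l 14729880)) (c (a (l 14380392) (l 14571280)) (a (l 14322960) (l 14504664)))) (b (a (l 15080840) (l 15560496)) (a (l 14721976) (l 14996280)))))) (a (b (a (l 1) (c (l 1202618318055) (l 1290664907415))) (l 1)) (a (b (b (c (a (l 14106744) (l 14244936)) (a (l 14002592) (l 14181040))) (c (l 762921102231) (a (l 13883656) (l 13967816)))) (c (l 1257916246279) (l 1303549790983))) (b (b (c (l 14519048)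 (l 14458368)) (c (a (l 14194240) (l 14394072)) (l 14225976))) (c (a (l 14019800) (l 458515517191)) (a (l 878885026327) (b (l 14127872) (l 13967816)))))))) (a (l 1) (a (l 1) (b (c (l 1508635102327) (l 1509171772215)) (l 1))))), by decide +kernel⟩

def k20_pm_022 : ∃ t, chk3 f_pm_022 t 7 3 1 = true :=
  ⟨(b (b (a (b (l 16210024) (a (b (l 16020120) (a (l 15440656) (l 15924096))) (l 16404416))) (b (l 16204176) (l 16554744))) (a (b (a (b (a (l 14877264) (l 15328224)) (a (l 14549544) (l 14832944))) (b (l 15765968) (l 15236376))) (a (c (a (l 14293168) (l 14472096)) (l 367247672855)) (b (a (l 14832944) (l 15286440)) (l 14496168)))) (b (a (l 16245704) (l 16514880)) (a (b (l 15916736) (l 15341232)) (l 16228944))))) (b (a (a (b (c (a (l 14019800) (l 14130824)) (b (l 13972712) (l 13881408))) (l 1351331358007)) (b (c (a (l 14293168) (l 14472096)) (l 14299088)) (c (l 834861929607) (b (l 14056600) (l 13923352))))) (b (a (b (l 14990152) (l 14705880)) (b (l 15916736) (l 15446088))) (a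 (c (a (l 14293168) (l 14472096)) (l 14299088)) (b (l 15074040) (l 14705880))))) (a (b (a (l 1) (l 1364216259895)) (l 1)) (a (b (c (l 14082376) (l 879422049911)) (l 1442062542135)) (b (c (l 14372376) (l 14299088)) (b (l 13970240) (l 13907200))))))), by decide +kernel⟩

theorem s21_pm_022 : ∃ t, chk3 f_pm_022 t 3 3 1 = true := ex3_a k19_pm_022 k20_pm_022

theorem s22_pm_022 : ∃ t, chk3 f_pm_022 t 3 1 1 = true := ex3_b k18_pm_022 s21_pm_022

theorem s23_pm_022 : ∃ t, chk3 f_pm_022 t 11 2 1 = true := ex3_b k15_pm_022 k16_pm_022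

theorem s24_pm_022 : ∃ t, chk3 f_pm_022 t 10 5 1 = true := ex3_a k13_pm_022 k14_pm_022

theorem s25_pm_022 : ∃ t, chk3 f_pm_022 t 10 4 1 = true := ex3_b k11_pm_022 k12_pm_022

theorem s26_pm_022 : ∃ t, chk3 f_pm_022 t 10 2 1 = true := ex3_b s25_pm_022 s24_pm_022

theorem s27_pm_022 : ∃ t, chk3 f_pm_022 t 5 2 1 = true := ex3_a s26_pm_022 s23_pm_022

theorem s28_pm_022 : ∃ t, chk3 f_pm_022 t 19 9 1 = true := ex3_b k8_pm_022 k9_pm_022

theorem s29_pm_022 : ∃ t, chk3 f_pm_022 t 19 4 1 = true := ex3_b k7_pm_022 s28_pm_022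

theorem s30_pm_022 : ∃ t, chk3 f_pm_022 t 18 18 1 = true := ex3_a k4_pm_022 k5_pm_022

theorem s31_pm_022 : ∃ t, chk3 f_pm_022 t 18 9 1 = true := ex3_b s30_pm_022 k6_pm_022

theorem s32_pm_022 : ∃ t, chk3 f_pm_022 t 18 17 1 = true := ex3_c k2_pm_022 k3_pm_022

theorem s33_pm_022 : ∃ t, chk3 f_pm_022 t 18 8 1 = true := ex3_b k1_pm_022 s32_pm_022

theorem s34_pm_022 : ∃ t, chk3 f_pm_022 t 18 4 1 = true := ex3_b s33_pm_022 s31_pm_022

theorem s35_pm_022 : ∃ t, chk3 f_pm_022 t 9 4 1 = true := ex3_a s34_pm_022 s29_pm_022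

theorem s36_pm_022 : ∃ t, chk3 f_pm_022 t 4 4 1 = true := ex3_a k0_pm_022 s35_pm_022

theorem s37_pm_022 : ∃ t, chk3 f_pm_022 t 4 2 1 = true := ex3_b s36_pm_022 k10_pm_022

theorem s38_pm_022 : ∃ t, chk3 f_pm_022 t 2 2 1 = true := ex3_a s37_pm_022 s27_pm_022

theorem s39_pm_022 : ∃ t, chk3 f_pm_022 t 2 1 1 = true := ex3_b s38_pm_022 k17_pm_022

theorem s40_pm_022 : ∃ t, chk3 f_pm_022 t 1 1 1 = true := ex3_a s39_pm_022 s22_pm_022

theorem c_pm_022 : CertNX 0 536870912 1073741824 536870912 1046898278 26843546 3 true true false .pp 0 2 2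
    ndN3q0 ndN7q2 pcN2 cut_pm_022 Ext.none :=
  certNX2 (fam := true) (s1 := true) (s2 := false) (a := 0) (b := 2) (c := 2) (cn := .pp) (n1 := ndN3q0) (n2 := ndN7q2) (pc := pcN2) (cut := cut_pm_022) (xt := Ext.none) (P1 := 0) (W1 := 536870912) (P2 := 1073741824) (W2 := 536870912) (P3 := 1046898278) (W3 := 26843546) (N0 := 3)
    rfl (fun _ => rfl) s40_pm_022

noncomputable def f_pm_023 : ℕ → ℕ → ℕ → ℕ → Bool := onCell 1610612736 536870912 1073741824 536870912 1046898278 26843546
    (rowNX 3 2 true true false .up 0 2 3 (qsf 0 536870912 1073741824 536870912 3) ndN3q0 ndN7q2 pcN3 Cut.none Ext.none)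

def k0_pm_023 : ∃ t, chk3 f_pm_023 t 1 1 1 = true :=
  ⟨(b (a (b (b (a (c (b (l 12823936) (l 13159144)) (b (c (l 12729864) (l 12646720)) (l 13041488))) (l 2)) (b (a (l 13425120) (l 2)) (l 13786160))) (b (a (l 14744992) (l 14744992)) (l 15457688))) (a (b (l 2) (l 15213464)) (l 2))) (b (a (a (b (l 16134512) (a (b (l 16704616) (l 16572320)) (l 16764448))) (l 16500600)) (a (l 16563408) (a (a (l 16565096) (l 2)) (l 2)))) (a (a (b (a (b (l 16351536) (a (a (l 15488032) (l 15916736)) (l 16228944))) (l 16612096)) (a (a (b (b (l 15074040) (l 14705880)) (c (l 14372376) (l 14299088))) (b (a (l 15488032) (l 15916736)) (a (l 14705880) (l 15074040)))) (a (b (l 16228944) (a (l 15488032) (l 15916736))) (l 16351536)))) (b (l 16767048) (a (l 16612096) (l 16761552)))) (a (l 16777192) (a (l 16744712) (a (l 16717408) (a (l 16706296) (a (l 16674488) (l 4))))))))), by decide +kernel⟩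

theorem c_pm_023 : CertNX 0 536870912 1073741824 536870912 1046898278 26843546 3 true true false .up 0 2 3
    ndN3q0 ndN7q2 pcN3 Cut.none Ext.none :=
  certNX2 (fam := true) (s1 := true) (s2 := false) (a := 0) (b := 2) (c := 3) (cn := .up) (n1 := ndN3q0) (n2 := ndN7q2) (pc := pcN3) (cut := Cut.none) (xt := Ext.none) (P1 := 0) (W1 := 536870912) (P2 := 1073741824) (W2 := 536870912) (P3 := 1046898278) (W3 := 26843546) (N0 := 3)
    rfl (fun _ => rfl) k0_pm_023

noncomputable def f_pm_033 : ℕ → ℕ → ℕ → ℕ → Bool := onCell 1610612736 536870912 0 1230186008 1046898278 26843546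
    (rowNX 3 2 true true false .pnn 0 3 3 (qsf 0 536870912 0 1230186008 3) ndN3q0 ndN7q3 pcN3 Cut.none Ext.none)

def k0_pm_033 : ∃ t, chk3 f_pm_033 t 2 1 1 = true :=
  ⟨(b (l 1) (b (b (l 1) (a (l 1) (a (l 1) (b (l 1) (a (l 1) (b (l 1) (l 1258989668759))))))) (b (a (l 1) (a (b (a (l 1) (l 1363679293831)) (a (b (l 1) (l 1232146246311)) (b (l 1221408856791) (c (l 14336696) (l 14270160))))) (b (a (b (l 1316434793703) (l 1176311716759)) (b (c (l 14159472) (l 14086176)) (l 14148368))) (b (a (l 14219168) (l 14793872)) (a (l 14720864) (l 15525584)))))) (a (b (a (l 1) (b (a (l 1) (l 1311603117095)) (a (l 1252547211287) (b (l 14183968) (l 14366480))))) (a (b (a (l 1) (b (l 13937584) (l 14010704))) (a (b (l 13805504) (l 14003680)) (b (l 14227040) (l 14415448)))) (b (a (b (l 14195496) (l 14389200)) (b (l 14594816) (l 14950288))) (a (b (l 14647584) (l 15049112)) (b (l 15405584) (l 15884760)))))) (b (a (b (a (b (l 14190856) (l 14364496)) (l 14663280)) (a (b (l 14575816) (l 14901768))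 (b (l 15313464) (l 15760496)))) (b (a (b (l 15332256) (l 15759560)) (l 16172256)) (l 16263760))) (a (b (a (b (l 15337840) (l 15803128)) (l 16123432)) (l 16313768)) (l 16591608))))))), by decide +kernel⟩

def k1_pm_033 : ∃ t, chk3 f_pm_033 t 3 1 1 = true :=
  ⟨(a (b (l 1) (b (b (a (l 1) (b (a (l 1) (b (l 13913400) (l 1234830571031))) (a (b (l 13915184) (l 1245031166327)) (b (l 14133640) (l 14330040))))) (a (b (a (l 1371732434375) (b (l 1275095783511) (l 1100613021863))) (a (b (l 1230535618647) (l 1124235591431)) (b (l 14175048) (l 14460176)))) (b (a (b (l 1146784144407) (l 14376344)) (b (l 14585088) (l 15020696))) (a (b (l 14721088) (l 15334608)) (b (l 15538296) (l 16077832)))))) (b (a (b (a (b (l 14342912) (l 14865584)) (b (l 15151992) (l 15792992))) (a (b (l 15671168) (l 16152376)) (l 16333608))) (b (b (a (l 15933136) (l 16351840)) (l 16403328)) (l 16606544))) (b (a (l 16586080) (l 16754280)) (l 16762440))))) (b (b (a (l 1) (l 4)) (a (b (a (l 1) (a (l 1) (l 4))) (a (b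 (l 1) (a (l 13857232) (l 1189197290407))) (a (b (l 1282075949047) (a (l 14093488) (l 14178160))) (b (l 4) (l 911299484311))))) (l 4))) (a (b (b (a (b (a (b (l 14036560) (l 14191800)) (l 14294288)) (a (l 14512488) (l 14816696))) (b (a (l 14473656) (l 14763040)) (a (l 15206328) (l 15639480)))) (a (b (b (l 15315952) (l 15846720)) (l 16283720)) (b (a (l 16084016) (l 16284112)) (l 16513976)))) (b (a (b (l 16610968) (l 16753184)) (b (l 16691408) (l 16745168))) (a (l 16775008) (l 16755576)))) (a (b (b (b (l 4) (a (l 15787392) (l 4))) (a (l 16515168) (l 1299998474951))) (b (a (l 16750360) (l 16750992)) (l 16719288))) (b (l 4) (a (l 1264566189591) (b (l 4) (l 4)))))))), by decide +kernel⟩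

theorem s2_pm_033 : ∃ t, chk3 f_pm_033 t 1 1 1 = true := ex3_a k0_pm_033 k1_pm_033

theorem c_pm_033 : CertNX 0 536870912 0 1230186008 1046898278 26843546 3 true true false .pnn 0 3 3
    ndN3q0 ndN7q3 pcN3 Cut.none Ext.none :=
  certNX2 (fam := true) (s1 := true) (s2 := false) (a := 0) (b := 3) (c := 3) (cn := .pnn) (n1 := ndN3q0) (n2 := ndN7q3) (pc := pcN3) (cut := Cut.none) (xt := Ext.none) (P1 := 0) (W1 := 536870912) (P2 := 0) (W2 := 1230186008) (P3 := 1046898278) (W3 := 26843546) (N0 := 3)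
    rfl (fun _ => rfl) s2_pm_033

noncomputable def f_pm_101 : ℕ → ℕ → ℕ → ℕ → Bool := onCell 536870912 536870912 536870912 536870912 1046898278 26843546
    (rowNX 3 1 true true false .npn 1 0 1 (qsf 536870912 536870912 0 536870912 1) ndN3q1 ndN7q0 pcN1 Cut.none Ext.none)

def k0_pm_101 : ∃ t, chk3 f_pm_101 t 1 1 1 = true :=
  ⟨(l 3), by decide +kernel⟩

theorem c_pm_101 : CertNX 536870912 536870912 0 536870912 1046898278 26843546 3 true true false .npn 1 0 1
    ndN3q1 ndN7q0 pcN1 Cut.none Ext.none :=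
  certNX1 (fam := true) (s1 := true) (s2 := false) (a := 1) (b := 0) (c := 1) (cn := .npn) (n1 := ndN3q1) (n2 := ndN7q0) (pc := pcN1) (cut := Cut.none) (xt := Ext.none) (P1 := 536870912) (W1 := 536870912) (P2 := 0) (W2 := 536870912) (P3 := 1046898278) (W3 := 26843546) (N0 := 3)
    rfl (fun _ => rfl) k0_pm_101

noncomputable def f_pm_102 : ℕ → ℕ → ℕ → ℕ → Bool := onCell 536870912 536870912 1073741824 536870912 1046898278 26843546
    (rowNX 3 1 true true false .npp 1 0 2 (qsf 536870912 536870912 0 536870912 2) ndN3q1 ndN7q0 pcN2 Cut.none Ext.none)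

def k0_pm_102 : ∃ t, chk3 f_pm_102 t 1 1 1 = true :=
  ⟨(b (b (b (l 3) (b (l 3) (b (l 3) (a (c (l 16774792) (l 16774712)) (b (l 3) (a (a (l 3) (l 3)) (a (l 771109528087) (a (l 13634528) (c (l 12894024) (l 12872656)))))))))) (a (b (b (b (c (b (l 16775768) (l 16762000)) (b (l 16775720) (l 16761464))) (b (c (l 16711544) (l 16709232)) (a (l 2) (b (l 16635768) (l 16585168))))) (l 16621704)) (l 16753816)) (b (a (b (b (a (b (l 16684608) (l 16684904)) (a (b (l 16213712) (l 16214088)) (b (l 15675008) (l 15675416)))) (b (a (b (l 16694920) (l 16720496)) (b (a (l 16226304) (l 15689872)) (a (l 16258208) (l 15725824)))) (a (b (l 16697424) (l 16644480)) (a (b (l 16293600) (l 16323920)) (b (l 15765776) (l 15758032)))))) (a (l 16678584) (a (l 16300272) (l 15773640)))) (b (b (a (b (a (l 14817592) (l 14235520)) (a (l 14819280) (l 14237888))) (a (c (l 13676544) (l 13629320)) (c (a (l 13046976) (l 12727248)) (b (l 12873520) (l 12878000))))) (b (a (b (a (l 14835608) (l 14257888)) (l 14654528))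 (a (b (l 13662976) (l 13710416)) (a (l 13076672) (l 12772552)))) (a (b (l 14701160) (a (l 14957824) (l 14391688))) (a (b (l 13763576) (b (l 13799992) (l 13818512))) (b (a (l 13156376) (l 12855280)) (c (a (l 13222000) (l 12910608)) (b (l 13059080) (l 13079168)))))))) (a (l 14710072) (a (l 13772736) (a (l 13165192) (l 12863656)))))) (a (a (l 16694272) (a (l 16226328) (l 15689648))) (a (l 14484616) (a (l 13656520) (c (l 12918032) (l 12897696)))))))) (a (c (l 16777216) (l 16777216)) (a (a (l 16621336) (a (l 16213288) (b (l 15674520) (l 15674520)))) (a (b (l 14487160) (l 14592016)) (a (b (l 13634512) (l 13634512)) (b (c (l 12893992) (l 12872624)) (l 12893112))))))), by decide +kernel⟩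

theorem c_pm_102 : CertNX 536870912 536870912 0 536870912 1046898278 26843546 3 true true false .npp 1 0 2
    ndN3q1 ndN7q0 pcN2 Cut.none Ext.none :=
  certNX1 (fam := true) (s1 := true) (s2 := false) (a := 1) (b := 0) (c := 2) (cn := .npp) (n1 := ndN3q1) (n2 := ndN7q0) (pc := pcN2) (cut := Cut.none) (xt := Ext.none) (P1 := 536870912) (W1 := 536870912) (P2 := 0) (W2 := 536870912) (P3 := 1046898278) (W3 := 26843546) (N0 := 3)
    rfl (fun _ => rfl) k0_pm_102

noncomputable def f_pm_112 : ℕ → ℕ → ℕ → ℕ → Bool := onCell 1073741824 536870912 536870912 536870912 1046898278 26843546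
    (rowNX 3 2 true true false .dn 1 1 2 (qsf 536870912 536870912 536870912 536870912 2) ndN3q1 ndN7q1 pcN2 Cut.none Ext.none)

def k0_pm_112 : ∃ t, chk3 f_pm_112 t 1 1 1 = true :=
  ⟨(b (a (a (a (l 3) (a (l 3) (a (b (l 3) (l 1)) (b (c (l 16774792) (l 16774712)) (c (l 1124776724855) (l 1066257764183)))))) (b (a (a (a (c (l 16761712) (l 16761168)) (a (l 16701152) (a (l 16621336) (l 16574744)))) (l 16620904)) (l 16753752)) (a (a (b (a (c (l 16591696) (l 16585096)) (a (l 16572432) (a (l 16557864) (l 16550312)))) (l 1)) (l 16159504)) (l 16091200)))) (b (a (b (a (l 16732776) (b (l 16170160) (l 16533608))) (l 16748968)) (b (a (b (l 14789184) (l 15596128)) (b (a (l 13929136) (l 13324248)) (l 14252648))) (a (l 16293312) (b (l 14915016) (l 15596128))))) (a (l 16326640) (b (a (l 16548736) (l 16112160)) (l 16014104))))) (a (a (l 1) (a (l 1) (b (b (l 15381912) (l 1)) (l 1)))) (b (b (l 15393264) (l 561595479991)) (b (b (l 563741151815) (a (l 1) (l 578236114215))) (a (l 1) (b (c (l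 13098104) (l 12977160)) (c (l 12802264) (l 616889504791)))))))), by decide +kernel⟩

theorem c_pm_112 : CertNX 536870912 536870912 536870912 536870912 1046898278 26843546 3 true true false .dn 1 1 2
    ndN3q1 ndN7q1 pcN2 Cut.none Ext.none :=
  certNX2 (fam := true) (s1 := true) (s2 := false) (a := 1) (b := 1) (c := 2) (cn := .dn) (n1 := ndN3q1) (n2 := ndN7q1) (pc := pcN2) (cut := Cut.none) (xt := Ext.none) (P1 := 536870912) (W1 := 536870912) (P2 := 536870912) (W2 := 536870912) (P3 := 1046898278) (W3 := 26843546) (N0 := 3)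
    rfl (fun _ => rfl) k0_pm_112

noncomputable def f_pm_113 : ℕ → ℕ → ℕ → ℕ → Bool := onCell 536870912 536870912 536870912 536870912 1046898278 26843546
    (rowNX 3 0 true true false .nn 1 1 3 (qsf 536870912 536870912 536870912 536870912 3) ndN3q1 ndN7q1 pcN3 Cut.none Ext.none)

def k0_pm_113 : ∃ t, chk3 f_pm_113 t 1 1 1 = true :=
  ⟨(a (b (b (l 1) (l 534218707415)) (b (b (l 15393264) (l 14504672)) (b (c (b (l 13652976) (l 565351385735)) (l 13409280)) (c (b (a (l 13098104) (l 13098104)) (l 12802264)) (b (l 12977160) (a (l 12434416) (l 12665104))))))) (b (a (b (a (l 1) (l 15948944)) (a (l 16236112) (l 15509752))) (b (a (l 14592016) (a (l 13634512) (l 12893112))) (a (l 14158968) (a (l 13205368) (l 12466608))))) (a (b (a (l 14872024) (l 14177456)) (b (a (l 13379880) (c (l 12877552) (l 12605896))) (c (a (l 12872040) (l 12289144)) (b (l 12508000) (a (l 12574632) (l 11876720)))))) (b (a (l 12883016) (a (l 11970832) (l 11072808))) (b (a (c (l 11816968) (l 11318040)) (a (l 10798888)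 (b (l 10283376) (l 10294632)))) (a (b (c (l 11506992) (l 10941056)) (c (l 11364472) (l 10678696))) (a (b (c (l 11196856) (l 10222712)) (c (l 11572648) (l 10131592))) (b (c (l 11338048) (l 9780192)) (b (c (l 12648168) (l 10017328)) (a (l 11914888) (b (l 13821888) (a (l 15115064) (b (l 16817520) (a (l 16793616) (b (l 16792080) (a (l 16792616) (b (l 16782200) (a (l 16782176) (c (l 16777368) (l 16780248)))))))))))))))))))), by decide +kernel⟩

theorem c_pm_113 : CertNX 536870912 536870912 536870912 536870912 1046898278 26843546 3 true true false .nn 1 1 3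
    ndN3q1 ndN7q1 pcN3 Cut.none Ext.none :=
  certNX0 (fam := true) (s1 := true) (s2 := false) (a := 1) (b := 1) (c := 3) (cn := .nn) (n1 := ndN3q1) (n2 := ndN7q1) (pc := pcN3) (cut := Cut.none) (xt := Ext.none) (P1 := 536870912) (W1 := 536870912) (P2 := 536870912) (W2 := 536870912) (P3 := 1046898278) (W3 := 26843546) (N0 := 3)
    rfl k0_pm_113

noncomputable def f_pm_123 : ℕ → ℕ → ℕ → ℕ → Bool := onCell 1610612736 536870912 1073741824 536870912 1046898278 26843546
    (rowNX 3 2 true true false .npn 1 2 3 (qsf 536870912 536870912 1073741824 536870912 3) ndN3q1 ndN7q2 pcN3 Cut.none Ext.none)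

def k0_pm_123 : ∃ t, chk3 f_pm_123 t 1 1 1 = true :=
  ⟨(a (b (b (b (c (b (l 12823936) (a (l 13159144) (l 13159144))) (b (a (l 612057710599) (l 12645168)) (l 13041488))) (b (c (l 595953223415) (l 13351848)) (l 13786160))) (b (l 641589726519) (l 15541576))) (b (b (l 690985280599) (l 1)) (l 1))) (a (b (b (b (b (c (l 12552816) (a (l 12636384) (l 12223456))) (c (l 13093992) (l 12961944))) (b (l 13413216) (l 13786064))) (l 15213464)) (b (l 16563408) (l 16777192))) (a (b (b (b (b (c (l 12161640) (a (l 11674328) (l 11479512))) (c (a (l 12991968) (l 13135088)) (l 12743344))) (b (a (l 13402616) (l 13540600)) (l 13864080))) (a (l 15214960) (l 15185976))) (b (a (l 16565096) (l 16545992)) (l 16744712))) (b (a (b (b (c (b (l 13768144) (l 13730512)) (b (l 13006616) (l 13256960))) (b (l 14025816) (l 14240840))) (b (l 14946808) (l 15684232))) (a (b (b (c (b (l 14601008) (l 14720744)) (b (l 13282488) (l 14198632))) (b (l 14813784) (l 14783288))) (b (l 15150272) (l 15670248))) (b (a (b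 (c (b (l 15534248) (l 15509744)) (b (l 13598240) (l 15016560))) (c (l 15508696) (l 15230456))) (a (b (c (b (l 16341104) (l 16025416)) (b (l 13883000) (l 15600488))) (b (l 15775272) (l 15548080))) (b (a (c (b (l 16665928) (l 16180792)) (b (l 14088896) (l 15950048))) (b (c (a (l 16685424) (l 16696784)) (a (l 14217416) (b (l 15793504) (l 16420512)))) (c (a (l 16203232) (l 16235784)) (a (l 16136440) (l 16165648))))) (a (l 15722560) (a (l 15766792) (b (l 15753232) (l 15708576))))))) (a (b (l 15349184) (l 15647856)) (a (b (l 15423736) (l 15655632)) (a (l 15621896) (a (l 15627696) (a (l 15650352) (l 4))))))))) (a (b (l 16511768) (l 16717408)) (a (b (l 16511624) (l 16706296)) (a (b (l 16495360) (l 16674488)) (b (a (l 16462712) (l 4)) (l 4))))))))), by decide +kernel⟩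

theorem c_pm_123 : CertNX 536870912 536870912 1073741824 536870912 1046898278 26843546 3 true true false .npn 1 2 3
    ndN3q1 ndN7q2 pcN3 Cut.none Ext.none :=
  certNX2 (fam := true) (s1 := true) (s2 := false) (a := 1) (b := 2) (c := 3) (cn := .npn) (n1 := ndN3q1) (n2 := ndN7q2) (pc := pcN3) (cut := Cut.none) (xt := Ext.none) (P1 := 536870912) (W1 := 536870912) (P2 := 1073741824) (W2 := 536870912) (P3 := 1046898278) (W3 := 26843546) (N0 := 3)
    rfl (fun _ => rfl) k0_pm_123

noncomputable def f_pm_133 : ℕ → ℕ → ℕ → ℕ → Bool := onCell 536870912 536870912 0 1230186008 1046898278 26843546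
    (rowNX 3 0 true true false .dn 1 3 3 (qsf 536870912 536870912 0 1230186008 3) ndN3q1 ndN7q3 pcN3 Cut.none Ext.none)

def k0_pm_133 : ∃ t, chk3 f_pm_133 t 1 1 1 = true :=
  ⟨(b (l 2) (b (l 2) (a (b (l 2) (l 4)) (l 2)))), by decide +kernel⟩

theorem c_pm_133 : CertNX 536870912 536870912 0 1230186008 1046898278 26843546 3 true true false .dn 1 3 3
    ndN3q1 ndN7q3 pcN3 Cut.none Ext.none :=
  certNX0 (fam := true) (s1 := true) (s2 := false) (a := 1) (b := 3) (c := 3) (cn := .dn) (n1 := ndN3q1) (n2 := ndN7q3) (pc := pcN3) (cut := Cut.none) (xt := Ext.none) (P1 := 536870912) (W1 := 536870912) (P2 := 0) (W2 := 1230186008) (P3 := 1046898278) (W3 := 26843546) (N0 := 3)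
    rfl k0_pm_133

noncomputable def f_pm_202 : ℕ → ℕ → ℕ → ℕ → Bool := onCell 1073741824 536870912 1073741824 536870912 1046898278 26843546
    (rowNX 3 1 true true false .pp 2 0 2 (qsf 1073741824 536870912 0 536870912 2) ndN3q2 ndN7q0 pcN2 Cut.none Ext.none)

def k0_pm_202 : ∃ t, chk3 f_pm_202 t 1 2 1 = true :=
  ⟨(b (a (a (b (a (a (c (b (l 12767000) (c (l 13022384) (b (l 12880024) (l 12989624)))) (b (c (b (l 12583120) (l 12455296)) (b (a (l 12441552) (l 12541072)) (l 12596960))) (a (l 12743080) (l 12840832)))) (c (b (l 12932280) (b (l 13081448) (l 13178080))) (b (c (l 12812472) (b (l 1) (l 12798896))) (l 12981712)))) (a (b (l 1) (b (l 1) (c (l 13531680) (l 13489976)))) (l 1))) (a (b (a (c (b (l 13125584) (l 13172632)) (l 12955568)) (c (b (l 13291376) (l 13337336)) (l 13144184))) (a (l 13058528) (l 13243112))) (b (a (b (c (l 13713952) (l 13587080)) (l 13703960)) (b (l 1) (l 14079768))) (a (l 13683056) (l 14060848))))) (b (l 1) (a (b (l 1) (a (l 13808880) (l 1))) (l 1))))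 (l 1)) (a (a (b (a (b (b (a (l 13175048) (l 13361888)) (a (l 13442928) (l 13630344))) (a (l 14002536) (l 14188552))) (b (a (l 13730112) (b (l 14186608) (l 14455976))) (a (l 14629336) (l 15009096)))) (a (b (a (l 14595264) (l 14777936)) (a (l 14951344) (l 15132984))) (b (a (l 15214312) (l 15588784)) (a (l 15567992) (l 15940672))))) (b (a (b (a (b (l 13939696) (l 14210352)) (l 14173864)) (a (l 14760824) (l 14857296))) (b (l 1) (l 15018048))) (a (b (l 15150664) (l 15730272)) (b (l 15703320) (l 16069408))))) (b (l 1) (b (l 1) (a (l 16081392) (l 1)))))), by decide +kernel⟩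

def k1_pm_202 : ∃ t, chk3 f_pm_202 t 1 3 1 = true :=
  ⟨(a (b (a (a (b (a (l 15227976) (l 15414320)) (a (l 15507104) (l 15699072))) (b (a (l 15854368) (l 16232344)) (a (l 16145112) (l 16529488)))) (a (b (a (l 15982024) (l 16076616)) (a (l 16285472) (l 16386872))) (b (l 16130656) (l 16703400)))) (b (a (a (c (l 15621992) (l 15571712)) (a (l 16155904) (l 16540528))) (a (l 16264704) (l 16715384))) (a (b (a (l 15590864) (l 16233208)) (l 4)) (l 4)))) (b (b (a (l 16418464) (l 1)) (a (l 16764496) (l 16763872))) (c (l 16777216) (l 16777216)))), by decide +kernel⟩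

theorem s2_pm_202 : ∃ t, chk3 f_pm_202 t 1 1 1 = true := ex3_b k0_pm_202 k1_pm_202

theorem c_pm_202 : CertNX 1073741824 536870912 0 536870912 1046898278 26843546 3 true true false .pp 2 0 2
    ndN3q2 ndN7q0 pcN2 Cut.none Ext.none :=
  certNX1 (fam := true) (s1 := true) (s2 := false) (a := 2) (b := 0) (c := 2) (cn := .pp) (n1 := ndN3q2) (n2 := ndN7q0) (pc := pcN2) (cut := Cut.none) (xt := Ext.none) (P1 := 1073741824) (W1 := 536870912) (P2 := 0) (W2 := 536870912) (P3 := 1046898278) (W3 := 26843546) (N0 := 3)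
    rfl (fun _ => rfl) s2_pm_202

noncomputable def f_pm_203 : ℕ → ℕ → ℕ → ℕ → Bool := onCell 1073741824 536870912 1610612736 536870912 1046898278 26843546
    (rowNX 3 1 true true false .up 2 0 3 (qsf 1073741824 536870912 0 536870912 3) ndN3q2 ndN7q0 pcN3 Cut.none Ext.none)

def k0_pm_203 : ∃ t, chk3 f_pm_203 t 1 1 1 = true :=
  ⟨(a (b (l 4) (l 4)) (l 4)), by decide +kernel⟩

theorem c_pm_203 : CertNX 1073741824 536870912 0 536870912 1046898278 26843546 3 true true false .up 2 0 3
    ndN3q2 ndN7q0 pcN3 Cut.none Ext.none :=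
  certNX1 (fam := true) (s1 := true) (s2 := false) (a := 2) (b := 0) (c := 3) (cn := .up) (n1 := ndN3q2) (n2 := ndN7q0) (pc := pcN3) (cut := Cut.none) (xt := Ext.none) (P1 := 1073741824) (W1 := 536870912) (P2 := 0) (W2 := 536870912) (P3 := 1046898278) (W3 := 26843546) (N0 := 3)
    rfl (fun _ => rfl) k0_pm_203

noncomputable def f_pm_213 : ℕ → ℕ → ℕ → ℕ → Bool := onCell 1073741824 536870912 1610612736 536870912 1046898278 26843546
    (rowNX 3 1 true true false .pnn 2 1 3 (qsf 1073741824 536870912 536870912 536870912 3) ndN3q2 ndN7q1 pcN3 Cut.none Ext.none)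

def k0_pm_213 : ∃ t, chk3 f_pm_213 t 1 1 1 = true :=
  ⟨(a (b (l 4) (l 4)) (l 4)), by decide +kernel⟩

theorem c_pm_213 : CertNX 1073741824 536870912 536870912 536870912 1046898278 26843546 3 true true false .pnn 2 1 3
    ndN3q2 ndN7q1 pcN3 Cut.none Ext.none :=
  certNX1 (fam := true) (s1 := true) (s2 := false) (a := 2) (b := 1) (c := 3) (cn := .pnn) (n1 := ndN3q2) (n2 := ndN7q1) (pc := pcN3) (cut := Cut.none) (xt := Ext.none) (P1 := 1073741824) (W1 := 536870912) (P2 := 536870912) (W2 := 536870912) (P3 := 1046898278) (W3 := 26843546) (N0 := 3)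
    rfl (fun _ => rfl) k0_pm_213

noncomputable def f_pm_303 : ℕ → ℕ → ℕ → ℕ → Bool := onCell 1610612736 536870912 0 536870912 1046898278 26843546
    (rowNX 3 0 true true false .npn 3 0 3 (qsf 1610612736 536870912 0 536870912 3) ndN3q3 ndN7q0 pcN3 Cut.none Ext.none)

def k0_pm_303 : ∃ t, chk3 f_pm_303 t 1 1 1 = true :=
  ⟨(l 4), by decide +kernel⟩

theorem c_pm_303 : CertNX 1610612736 536870912 0 536870912 1046898278 26843546 3 true true false .npn 3 0 3
    ndN3q3 ndN7q0 pcN3 Cut.none Ext.none :=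
  certNX0 (fam := true) (s1 := true) (s2 := false) (a := 3) (b := 0) (c := 3) (cn := .npn) (n1 := ndN3q3) (n2 := ndN7q0) (pc := pcN3) (cut := Cut.none) (xt := Ext.none) (P1 := 1610612736) (W1 := 536870912) (P2 := 0) (W2 := 536870912) (P3 := 1046898278) (W3 := 26843546) (N0 := 3)
    rfl k0_pm_303

noncomputable def f_pm_313 : ℕ → ℕ → ℕ → ℕ → Bool := onCell 1610612736 536870912 536870912 536870912 1046898278 26843546
    (rowNX 3 0 true true false .dn 3 1 3 (qsf 1610612736 536870912 536870912 536870912 3) ndN3q3 ndN7q1 pcN3 Cut.none Ext.none)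

def k0_pm_313 : ∃ t, chk3 f_pm_313 t 1 1 1 = true :=
  ⟨(l 4), by decide +kernel⟩

theorem c_pm_313 : CertNX 1610612736 536870912 536870912 536870912 1046898278 26843546 3 true true false .dn 3 1 3
    ndN3q3 ndN7q1 pcN3 Cut.none Ext.none :=
  certNX0 (fam := true) (s1 := true) (s2 := false) (a := 3) (b := 1) (c := 3) (cn := .dn) (n1 := ndN3q3) (n2 := ndN7q1) (pc := pcN3) (cut := Cut.none) (xt := Ext.none) (P1 := 1610612736) (W1 := 536870912) (P2 := 536870912) (W2 := 536870912) (P3 := 1046898278) (W3 := 26843546) (N0 := 3)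
    rfl k0_pm_313

noncomputable def f_mm_001 : ℕ → ℕ → ℕ → ℕ → Bool := onCell 0 536870912 0 536870912 1046898278 26843546
    (rowNX 3 0 true false false .up 0 0 1 (qsf 0 536870912 0 536870912 1) ndN3q0 ndN7q0 pcN1 Cut.none Ext.none)

def k0_mm_001 : ∃ t, chk3 f_mm_001 t 1 1 1 = true :=
  ⟨(l 4), by decide +kernel⟩

theorem c_mm_001 : CertNX 0 536870912 0 536870912 1046898278 26843546 3 true false false .up 0 0 1
    ndN3q0 ndN7q0 pcN1 Cut.none Ext.none :=
  certNX0 (fam := true) (s1 := false) (s2 := false) (a := 0) (b := 0) (c := 1) (cn := .up) (n1 := ndN3q0) (n2 := ndN7q0) (pc := pcN1) (cut := Cut.none) (xt := Ext.none) (P1 := 0) (W1 := 536870912) (P2 := 0) (W2 := 536870912) (P3 := 1046898278) (W3 := 26843546) (N0 := 3)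
    rfl k0_mm_001

noncomputable def f_mm_011 : ℕ → ℕ → ℕ → ℕ → Bool := onCell 0 536870912 536870912 536870912 1046898278 26843546
    (rowNX 3 0 true false false .pnn 0 1 1 (qsf 0 536870912 536870912 536870912 1) ndN3q0 ndN7q1 pcN1 Cut.none Ext.none)

def k0_mm_011 : ∃ t, chk3 f_mm_011 t 1 1 1 = true :=
  ⟨(l 4), by decide +kernel⟩

theorem c_mm_011 : CertNX 0 536870912 536870912 536870912 1046898278 26843546 3 true false false .pnn 0 1 1
    ndN3q0 ndN7q1 pcN1 Cut.none Ext.none :=
  certNX0 (fam := true) (s1 := false) (s2 := false) (a := 0) (b := 1) (c := 1) (cn := .pnn) (n1 := ndN3q0) (n2 := ndN7q1) (pc := pcN1) (cut := Cut.none) (xt := Ext.none) (P1 := 0) (W1 := 536870912) (P2 := 536870912) (W2 := 536870912) (P3 := 1046898278) (W3 := 26843546) (N0 := 3)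
    rfl k0_mm_011

noncomputable def f_mm_012 : ℕ → ℕ → ℕ → ℕ → Bool := onCell 0 536870912 536870912 536870912 1046898278 26843546
    (rowNX 3 0 true false false .pnp 0 1 2 (qsf 0 536870912 536870912 536870912 2) ndN3q0 ndN7q1 pcN2 Cut.none Ext.none)

def k0_mm_012 : ∃ t, chk3 f_mm_012 t 1 1 1 = true :=
  ⟨(l 4), by decide +kernel⟩

theorem c_mm_012 : CertNX 0 536870912 536870912 536870912 1046898278 26843546 3 true false false .pnp 0 1 2
    ndN3q0 ndN7q1 pcN2 Cut.none Ext.none :=
  certNX0 (fam := true) (s1 := false) (s2 := false) (a := 0) (b := 1) (c := 2) (cn := .pnp) (n1 := ndN3q0) (n2 := ndN7q1) (pc := pcN2) (cut := Cut.none) (xt := Ext.none) (P1 := 0) (W1 := 536870912) (P2 := 536870912) (W2 := 536870912) (P3 := 1046898278) (W3 := 26843546) (N0 := 3)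
    rfl k0_mm_012

noncomputable def f_mm_022 : ℕ → ℕ → ℕ → ℕ → Bool := onCell 0 536870912 1073741824 536870912 1046898278 26843546
    (rowNX 3 0 true false false .pp 0 2 2 (qsf 0 536870912 1073741824 536870912 2) ndN3q0 ndN7q2 pcN2 Cut.none Ext.none)

def k0_mm_022 : ∃ t, chk3 f_mm_022 t 1 1 1 = true :=
  ⟨(l 4), by decide +kernel⟩

theorem c_mm_022 : CertNX 0 536870912 1073741824 536870912 1046898278 26843546 3 true false false .pp 0 2 2
    ndN3q0 ndN7q2 pcN2 Cut.none Ext.none :=
  certNX0 (fam := true) (s1 := false) (s2 := false) (a := 0) (b := 2) (c := 2) (cn := .pp) (n1 := ndN3q0) (n2 := ndN7q2) (pc := pcN2) (cut := Cut.none) (xt := Ext.none) (P1 := 0) (W1 := 536870912) (P2 := 1073741824) (W2 := 536870912) (P3 := 1046898278) (W3 := 26843546) (N0 := 3)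
    rfl k0_mm_022

noncomputable def f_mm_023 : ℕ → ℕ → ℕ → ℕ → Bool := onCell 0 536870912 1073741824 536870912 1046898278 26843546
    (rowNX 3 0 true false false .up 0 2 3 (qsf 0 536870912 1073741824 536870912 3) ndN3q0 ndN7q2 pcN3 Cut.none Ext.none)

def k0_mm_023 : ∃ t, chk3 f_mm_023 t 1 1 1 = true :=
  ⟨(l 4), by decide +kernel⟩

theorem c_mm_023 : CertNX 0 536870912 1073741824 536870912 1046898278 26843546 3 true false false .up 0 2 3
    ndN3q0 ndN7q2 pcN3 Cut.none Ext.none :=
  certNX0 (fam := true) (s1 := false) (s2 := false) (a := 0) (b := 2) (c := 3) (cn := .up) (n1 := ndN3q0) (n2 := ndN7q2) (pc := pcN3) (cut := Cut.none) (xt := Ext.none) (P1 := 0) (W1 := 536870912) (P2 := 1073741824) (W2 := 536870912) (P3 := 1046898278) (W3 := 26843546) (N0 := 3)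
    rfl k0_mm_023

noncomputable def f_mm_033 : ℕ → ℕ → ℕ → ℕ → Bool := onCell 0 536870912 0 1230186008 1046898278 26843546
    (rowNX 3 0 true false false .pnn 0 3 3 (qsf 0 536870912 0 1230186008 3) ndN3q0 ndN7q3 pcN3 Cut.none Ext.none)

def k0_mm_033 : ∃ t, chk3 f_mm_033 t 1 1 1 = true :=
  ⟨(l 5), by decide +kernel⟩

theorem c_mm_033 : CertNX 0 536870912 0 1230186008 1046898278 26843546 3 true false false .pnn 0 3 3
    ndN3q0 ndN7q3 pcN3 Cut.none Ext.none :=
  certNX0 (fam := true) (s1 := false) (s2 := false) (a := 0) (b := 3) (c := 3) (cn := .pnn) (n1 := ndN3q0) (n2 := ndN7q3) (pc := pcN3) (cut := Cut.none) (xt := Ext.none) (P1 := 0) (W1 := 536870912) (P2 := 0) (W2 := 1230186008) (P3 := 1046898278) (W3 := 26843546) (N0 := 3)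
    rfl k0_mm_033

noncomputable def f_mm_101 : ℕ → ℕ → ℕ → ℕ → Bool := onCell 536870912 536870912 0 536870912 1046898278 26843546
    (rowNX 3 0 true false false .npn 1 0 1 (qsf 536870912 536870912 0 536870912 1) ndN3q1 ndN7q0 pcN1 Cut.none Ext.none)

def k0_mm_101 : ∃ t, chk3 f_mm_101 t 1 1 1 = true :=
  ⟨(l 4), by decide +kernel⟩

theorem c_mm_101 : CertNX 536870912 536870912 0 536870912 1046898278 26843546 3 true false false .npn 1 0 1
    ndN3q1 ndN7q0 pcN1 Cut.none Ext.none :=
  certNX0 (fam := true) (s1 := false) (s2 := false) (a := 1) (b := 0) (c := 1) (cn := .npn) (n1 := ndN3q1) (n2 := ndN7q0) (pc := pcN1) (cut := Cut.none) (xt := Ext.none) (P1 := 536870912) (W1 := 536870912) (P2 := 0) (W2 := 536870912) (P3 := 1046898278) (W3 := 26843546) (N0 := 3)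
    rfl k0_mm_101

noncomputable def f_mm_102 : ℕ → ℕ → ℕ → ℕ → Bool := onCell 536870912 536870912 0 536870912 1046898278 26843546
    (rowNX 3 0 true false false .npp 1 0 2 (qsf 536870912 536870912 0 536870912 2) ndN3q1 ndN7q0 pcN2 Cut.none Ext.none)

def k0_mm_102 : ∃ t, chk3 f_mm_102 t 1 1 1 = true :=
  ⟨(l 4), by decide +kernel⟩

theorem c_mm_102 : CertNX 536870912 536870912 0 536870912 1046898278 26843546 3 true false false .npp 1 0 2
    ndN3q1 ndN7q0 pcN2 Cut.none Ext.none :=
  certNX0 (fam := true) (s1 := false) (s2 := false) (a := 1) (b := 0) (c := 2) (cn := .npp) (n1 := ndN3q1) (n2 := ndN7q0) (pc := pcN2) (cut := Cut.none) (xt := Ext.none) (P1 := 536870912) (W1 := 536870912) (P2 := 0) (W2 := 536870912) (P3 := 1046898278) (W3 := 26843546) (N0 := 3)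
    rfl k0_mm_102

noncomputable def f_mm_112 : ℕ → ℕ → ℕ → ℕ → Bool := onCell 536870912 536870912 536870912 536870912 1046898278 26843546
    (rowNX 3 0 true false false .dn 1 1 2 (qsf 536870912 536870912 536870912 536870912 2) ndN3q1 ndN7q1 pcN2 Cut.none Ext.none)

def k0_mm_112 : ∃ t, chk3 f_mm_112 t 1 1 1 = true :=
  ⟨(l 4), by decide +kernel⟩

theorem c_mm_112 : CertNX 536870912 536870912 536870912 536870912 1046898278 26843546 3 true false false .dn 1 1 2
    ndN3q1 ndN7q1 pcN2 Cut.none Ext.none :=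
  certNX0 (fam := true) (s1 := false) (s2 := false) (a := 1) (b := 1) (c := 2) (cn := .dn) (n1 := ndN3q1) (n2 := ndN7q1) (pc := pcN2) (cut := Cut.none) (xt := Ext.none) (P1 := 536870912) (W1 := 536870912) (P2 := 536870912) (W2 := 536870912) (P3 := 1046898278) (W3 := 26843546) (N0 := 3)
    rfl k0_mm_112

noncomputable def f_mm_113 : ℕ → ℕ → ℕ → ℕ → Bool := onCell 536870912 536870912 536870912 536870912 1046898278 26843546
    (rowNX 3 0 true false false .nn 1 1 3 (qsf 536870912 536870912 536870912 536870912 3) ndN3q1 ndN7q1 pcN3 Cut.none Ext.none)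

def k0_mm_113 : ∃ t, chk3 f_mm_113 t 1 1 1 = true :=
  ⟨(l 4), by decide +kernel⟩

theorem c_mm_113 : CertNX 536870912 536870912 536870912 536870912 1046898278 26843546 3 true false false .nn 1 1 3
    ndN3q1 ndN7q1 pcN3 Cut.none Ext.none :=
  certNX0 (fam := true) (s1 := false) (s2 := false) (a := 1) (b := 1) (c := 3) (cn := .nn) (n1 := ndN3q1) (n2 := ndN7q1) (pc := pcN3) (cut := Cut.none) (xt := Ext.none) (P1 := 536870912) (W1 := 536870912) (P2 := 536870912) (W2 := 536870912) (P3 := 1046898278) (W3 := 26843546) (N0 := 3)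
    rfl k0_mm_113

noncomputable def f_mm_123 : ℕ → ℕ → ℕ → ℕ → Bool := onCell 536870912 536870912 1073741824 536870912 1046898278 26843546
    (rowNX 3 0 true false false .npn 1 2 3 (qsf 536870912 536870912 1073741824 536870912 3) ndN3q1 ndN7q2 pcN3 Cut.none Ext.none)

def k0_mm_123 : ∃ t, chk3 f_mm_123 t 1 1 1 = true :=
  ⟨(l 4), by decide +kernel⟩

theorem c_mm_123 : CertNX 536870912 536870912 1073741824 536870912 1046898278 26843546 3 true false false .npn 1 2 3
    ndN3q1 ndN7q2 pcN3 Cut.none Ext.none :=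
  certNX0 (fam := true) (s1 := false) (s2 := false) (a := 1) (b := 2) (c := 3) (cn := .npn) (n1 := ndN3q1) (n2 := ndN7q2) (pc := pcN3) (cut := Cut.none) (xt := Ext.none) (P1 := 536870912) (W1 := 536870912) (P2 := 1073741824) (W2 := 536870912) (P3 := 1046898278) (W3 := 26843546) (N0 := 3)
    rfl k0_mm_123

noncomputable def f_mm_133 : ℕ → ℕ → ℕ → ℕ → Bool := onCell 536870912 536870912 0 1230186008 1046898278 26843546
    (rowNX 3 0 true false false .dn 1 3 3 (qsf 536870912 536870912 0 1230186008 3) ndN3q1 ndN7q3 pcN3 Cut.none Ext.none)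

def k0_mm_133 : ∃ t, chk3 f_mm_133 t 1 1 1 = true :=
  ⟨(l 4), by decide +kernel⟩

theorem c_mm_133 : CertNX 536870912 536870912 0 1230186008 1046898278 26843546 3 true false false .dn 1 3 3
    ndN3q1 ndN7q3 pcN3 Cut.none Ext.none :=
  certNX0 (fam := true) (s1 := false) (s2 := false) (a := 1) (b := 3) (c := 3) (cn := .dn) (n1 := ndN3q1) (n2 := ndN7q3) (pc := pcN3) (cut := Cut.none) (xt := Ext.none) (P1 := 536870912) (W1 := 536870912) (P2 := 0) (W2 := 1230186008) (P3 := 1046898278) (W3 := 26843546) (N0 := 3)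
    rfl k0_mm_133

noncomputable def f_mm_202 : ℕ → ℕ → ℕ → ℕ → Bool := onCell 1073741824 536870912 0 536870912 1046898278 26843546
    (rowNX 3 0 true false false .pp 2 0 2 (qsf 1073741824 536870912 0 536870912 2) ndN3q2 ndN7q0 pcN2 Cut.none Ext.none)

def k0_mm_202 : ∃ t, chk3 f_mm_202 t 1 1 1 = true :=
  ⟨(l 4), by decide +kernel⟩

theorem c_mm_202 : CertNX 1073741824 536870912 0 536870912 1046898278 26843546 3 true false false .pp 2 0 2
    ndN3q2 ndN7q0 pcN2 Cut.none Ext.none :=
  certNX0 (fam := true) (s1 := false) (s2 := false) (a := 2) (b := 0) (c := 2) (cn := .pp) (n1 := ndN3q2) (n2 := ndN7q0) (pc := pcN2) (cut := Cut.none) (xt := Ext.none) (P1 := 1073741824) (W1 := 536870912) (P2 := 0) (W2 := 536870912) (P3 := 1046898278) (W3 := 26843546) (N0 := 3)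
    rfl k0_mm_202

noncomputable def f_mm_203 : ℕ → ℕ → ℕ → ℕ → Bool := onCell 1073741824 536870912 0 536870912 1046898278 26843546
    (rowNX 3 0 true false false .up 2 0 3 (qsf 1073741824 536870912 0 536870912 3) ndN3q2 ndN7q0 pcN3 Cut.none Ext.none)

def k0_mm_203 : ∃ t, chk3 f_mm_203 t 1 1 1 = true :=
  ⟨(l 4), by decide +kernel⟩

theorem c_mm_203 : CertNX 1073741824 536870912 0 536870912 1046898278 26843546 3 true false false .up 2 0 3
    ndN3q2 ndN7q0 pcN3 Cut.none Ext.none :=
  certNX0 (fam := true) (s1 := false) (s2 := false) (a := 2) (b := 0) (c := 3) (cn := .up) (n1 := ndN3q2) (n2 := ndN7q0) (pc := pcN3) (cut := Cut.none) (xt := Ext.none) (P1 := 1073741824) (W1 := 536870912) (P2 := 0) (W2 := 536870912) (P3 := 1046898278) (W3 := 26843546) (N0 := 3)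
    rfl k0_mm_203

noncomputable def f_mm_213 : ℕ → ℕ → ℕ → ℕ → Bool := onCell 1073741824 536870912 536870912 536870912 1046898278 26843546
    (rowNX 3 0 true false false .pnn 2 1 3 (qsf 1073741824 536870912 536870912 536870912 3) ndN3q2 ndN7q1 pcN3 Cut.none Ext.none)

def k0_mm_213 : ∃ t, chk3 f_mm_213 t 1 1 1 = true :=
  ⟨(l 4), by decide +kernel⟩

theorem c_mm_213 : CertNX 1073741824 536870912 536870912 536870912 1046898278 26843546 3 true false false .pnn 2 1 3
    ndN3q2 ndN7q1 pcN3 Cut.none Ext.none :=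
  certNX0 (fam := true) (s1 := false) (s2 := false) (a := 2) (b := 1) (c := 3) (cn := .pnn) (n1 := ndN3q2) (n2 := ndN7q1) (pc := pcN3) (cut := Cut.none) (xt := Ext.none) (P1 := 1073741824) (W1 := 536870912) (P2 := 536870912) (W2 := 536870912) (P3 := 1046898278) (W3 := 26843546) (N0 := 3)
    rfl k0_mm_213

noncomputable def f_mm_303 : ℕ → ℕ → ℕ → ℕ → Bool := onCell 1610612736 536870912 0 536870912 1046898278 26843546
    (rowNX 3 0 true false false .npn 3 0 3 (qsf 1610612736 536870912 0 536870912 3) ndN3q3 ndN7q0 pcN3 Cut.none Ext.none)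

def k0_mm_303 : ∃ t, chk3 f_mm_303 t 1 1 1 = true :=
  ⟨(l 4), by decide +kernel⟩

theorem c_mm_303 : CertNX 1610612736 536870912 0 536870912 1046898278 26843546 3 true false false .npn 3 0 3
    ndN3q3 ndN7q0 pcN3 Cut.none Ext.none :=
  certNX0 (fam := true) (s1 := false) (s2 := false) (a := 3) (b := 0) (c := 3) (cn := .npn) (n1 := ndN3q3) (n2 := ndN7q0) (pc := pcN3) (cut := Cut.none) (xt := Ext.none) (P1 := 1610612736) (W1 := 536870912) (P2 := 0) (W2 := 536870912) (P3 := 1046898278) (W3 := 26843546) (N0 := 3)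
    rfl k0_mm_303

noncomputable def f_mm_313 : ℕ → ℕ → ℕ → ℕ → Bool := onCell 1610612736 536870912 536870912 536870912 1046898278 26843546
    (rowNX 3 0 true false false .dn 3 1 3 (qsf 1610612736 536870912 536870912 536870912 3) ndN3q3 ndN7q1 pcN3 Cut.none Ext.none)

def k0_mm_313 : ∃ t, chk3 f_mm_313 t 1 1 1 = true :=
  ⟨(l 4), by decide +kernel⟩

theorem c_mm_313 : CertNX 1610612736 536870912 536870912 536870912 1046898278 26843546 3 true false false .dn 3 1 3
    ndN3q3 ndN7q1 pcN3 Cut.none Ext.none :=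
  certNX0 (fam := true) (s1 := false) (s2 := false) (a := 3) (b := 1) (c := 3) (cn := .dn) (n1 := ndN3q3) (n2 := ndN7q1) (pc := pcN3) (cut := Cut.none) (xt := Ext.none) (P1 := 1610612736) (W1 := 536870912) (P2 := 536870912) (W2 := 536870912) (P3 := 1046898278) (W3 := 26843546) (N0 := 3)
    rfl k0_mm_313

end Pool.Agent.Strip051.G.IE1.Tab.C.NA37

namespace Pool.Agent.Strip051.G.IE1.Tab.C.NA44

open Pool.Agent.Strip051.PB Pool.Agent.Strip051.PB.T
open Pool.Agent.Strip051.G.IE1.Tab

noncomputable def f_pp_001 : ℕ → ℕ → ℕ → ℕ → Bool := onCell 0 67108864 0 67108864 1046898278 26843546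
    (rowNX 3 0 true true true .up 0 0 1 (qsf 0 67108864 0 67108864 1) ndN4q0 ndN4q0 pcN1 Cut.none Ext.none)

def k0_pp_001 : ∃ t, chk3 f_pp_001 t 1 1 1 = true :=
  ⟨(l 1), by decide +kernel⟩

theorem c_pp_001 : CertNX 0 67108864 0 67108864 1046898278 26843546 3 true true true .up 0 0 1
    ndN4q0 ndN4q0 pcN1 Cut.none Ext.none :=
  certNX0 (fam := true) (s1 := true) (s2 := true) (a := 0) (b := 0) (c := 1) (cn := .up) (n1 := ndN4q0) (n2 := ndN4q0) (pc := pcN1) (cut := Cut.none) (xt := Ext.none) (P1 := 0) (W1 := 67108864) (P2 := 0) (W2 := 67108864) (P3 := 1046898278) (W3 := 26843546) (N0 := 3)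
    rfl k0_pp_001

noncomputable def f_pm_001 : ℕ → ℕ → ℕ → ℕ → Bool := onCell 0 67108864 0 67108864 1046898278 26843546
    (rowNX 3 0 true true false .up 0 0 1 (qsf 0 67108864 0 67108864 1) ndN4q0 ndN4q0 pcN1 Cut.none Ext.none)

def k0_pm_001 : ∃ t, chk3 f_pm_001 t 1 1 1 = true :=
  ⟨(l 1), by decide +kernel⟩

theorem c_pm_001 : CertNX 0 67108864 0 67108864 1046898278 26843546 3 true true false .up 0 0 1
    ndN4q0 ndN4q0 pcN1 Cut.none Ext.none :=
  certNX0 (fam := true) (s1 := true) (s2 := false) (a := 0) (b := 0) (c := 1) (cn := .up) (n1 := ndN4q0) (n2 := ndN4q0) (pc := pcN1) (cut := Cut.none) (xt := Ext.none) (P1 := 0) (W1 := 67108864) (P2 := 0) (W2 := 67108864) (P3 := 1046898278) (W3 := 26843546) (N0 := 3)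
    rfl k0_pm_001

noncomputable def f_mm_001 : ℕ → ℕ → ℕ → ℕ → Bool := onCell 0 67108864 0 67108864 1046898278 26843546
    (rowNX 3 0 true false false .up 0 0 1 (qsf 0 67108864 0 67108864 1) ndN4q0 ndN4q0 pcN1 Cut.none Ext.none)

def k0_mm_001 : ∃ t, chk3 f_mm_001 t 1 1 1 = true :=
  ⟨(l 1), by decide +kernel⟩

theorem c_mm_001 : CertNX 0 67108864 0 67108864 1046898278 26843546 3 true false false .up 0 0 1
    ndN4q0 ndN4q0 pcN1 Cut.none Ext.none :=
  certNX0 (fam := true) (s1 := false) (s2 := false) (a := 0) (b := 0) (c := 1) (cn := .up) (n1 := ndN4q0) (n2 := ndN4q0) (pc := pcN1) (cut := Cut.none) (xt := Ext.none) (P1 := 0) (W1 := 67108864) (P2 := 0) (W2 := 67108864) (P3 := 1046898278) (W3 := 26843546) (N0 := 3)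
    rfl k0_mm_001

end Pool.Agent.Strip051.G.IE1.Tab.C.NA44

namespace Pool.Agent.Strip051.G.IE1.Tab.C.NA45

open Pool.Agent.Strip051.PB Pool.Agent.Strip051.PB.T
open Pool.Agent.Strip051.G.IE1.Tab

noncomputable def f_pp_001 : ℕ → ℕ → ℕ → ℕ → Bool := onCell 0 67108864 0 536870912 1046898278 26843546
    (rowNX 3 0 true true true .up 0 0 1 (qsf 0 67108864 0 536870912 1) ndN4q0 ndN5q0 pcN1 Cut.none Ext.none)

def k0_pp_001 : ∃ t, chk3 f_pp_001 t 1 1 1 = true :=
  ⟨(l 4), by decide +kernel⟩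

theorem c_pp_001 : CertNX 0 67108864 0 536870912 1046898278 26843546 3 true true true .up 0 0 1
    ndN4q0 ndN5q0 pcN1 Cut.none Ext.none :=
  certNX0 (fam := true) (s1 := true) (s2 := true) (a := 0) (b := 0) (c := 1) (cn := .up) (n1 := ndN4q0) (n2 := ndN5q0) (pc := pcN1) (cut := Cut.none) (xt := Ext.none) (P1 := 0) (W1 := 67108864) (P2 := 0) (W2 := 536870912) (P3 := 1046898278) (W3 := 26843546) (N0 := 3)
    rfl k0_pp_001

noncomputable def f_pp_011 : ℕ → ℕ → ℕ → ℕ → Bool := onCell 0 67108864 536870912 469762048 1046898278 26843546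
    (rowNX 3 0 true true true .pnn 0 1 1 (qsf 0 67108864 536870912 469762048 1) ndN4q0 ndN5q1 pcN1 Cut.none Ext.none)

def k0_pp_011 : ∃ t, chk3 f_pp_011 t 1 1 1 = true :=
  ⟨(l 4), by decide +kernel⟩

theorem c_pp_011 : CertNX 0 67108864 536870912 469762048 1046898278 26843546 3 true true true .pnn 0 1 1
    ndN4q0 ndN5q1 pcN1 Cut.none Ext.none :=
  certNX0 (fam := true) (s1 := true) (s2 := true) (a := 0) (b := 1) (c := 1) (cn := .pnn) (n1 := ndN4q0) (n2 := ndN5q1) (pc := pcN1) (cut := Cut.none) (xt := Ext.none) (P1 := 0) (W1 := 67108864) (P2 := 536870912) (W2 := 469762048) (P3 := 1046898278) (W3 := 26843546) (N0 := 3)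
    rfl k0_pp_011

noncomputable def f_pp_012 : ℕ → ℕ → ℕ → ℕ → Bool := onCell 0 67108864 536870912 469762048 1046898278 26843546
    (rowNX 3 0 true true true .pnp 0 1 2 (qsf 0 67108864 536870912 469762048 2) ndN4q0 ndN5q1 pcN2 Cut.none Ext.none)

def k0_pp_012 : ∃ t, chk3 f_pp_012 t 1 1 1 = true :=
  ⟨(l 4), by decide +kernel⟩

theorem c_pp_012 : CertNX 0 67108864 536870912 469762048 1046898278 26843546 3 true true true .pnp 0 1 2
    ndN4q0 ndN5q1 pcN2 Cut.none Ext.none :=
  certNX0 (fam := true) (s1 := true) (s2 := true) (a := 0) (b := 1) (c := 2) (cn := .pnp) (n1 := ndN4q0) (n2 := ndN5q1) (pc := pcN2) (cut := Cut.none) (xt := Ext.none) (P1 := 0) (W1 := 67108864) (P2 := 536870912) (W2 := 469762048) (P3 := 1046898278) (W3 := 26843546) (N0 := 3)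
    rfl k0_pp_012

noncomputable def f_pp_022 : ℕ → ℕ → ℕ → ℕ → Bool := onCell 0 67108864 1073741824 536870912 1046898278 26843546
    (rowNX 3 0 true true true .pp 0 2 2 (qsf 0 67108864 1073741824 536870912 2) ndN4q0 ndN5q2 pcN2 Cut.none Ext.none)

def k0_pp_022 : ∃ t, chk3 f_pp_022 t 1 1 1 = true :=
  ⟨(l 4), by decide +kernel⟩

theorem c_pp_022 : CertNX 0 67108864 1073741824 536870912 1046898278 26843546 3 true true true .pp 0 2 2
    ndN4q0 ndN5q2 pcN2 Cut.none Ext.none :=
  certNX0 (fam := true) (s1 := true) (s2 := true) (a := 0) (b := 2) (c := 2) (cn := .pp) (n1 := ndN4q0) (n2 := ndN5q2) (pc := pcN2) (cut := Cut.none) (xt := Ext.none) (P1 := 0) (W1 := 67108864) (P2 := 1073741824) (W2 := 536870912) (P3 := 1046898278) (W3 := 26843546) (N0 := 3)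
    rfl k0_pp_022

noncomputable def f_pp_023 : ℕ → ℕ → ℕ → ℕ → Bool := onCell 0 67108864 1073741824 536870912 1046898278 26843546
    (rowNX 3 0 true true true .up 0 2 3 (qsf 0 67108864 1073741824 536870912 3) ndN4q0 ndN5q2 pcN3 Cut.none Ext.none)

def k0_pp_023 : ∃ t, chk3 f_pp_023 t 1 1 1 = true :=
  ⟨(l 4), by decide +kernel⟩

theorem c_pp_023 : CertNX 0 67108864 1073741824 536870912 1046898278 26843546 3 true true true .up 0 2 3
    ndN4q0 ndN5q2 pcN3 Cut.none Ext.none :=
  certNX0 (fam := true) (s1 := true) (s2 := true) (a := 0) (b := 2) (c := 3) (cn := .up) (n1 := ndN4q0) (n2 := ndN5q2) (pc := pcN3) (cut := Cut.none) (xt := Ext.none) (P1 := 0) (W1 := 67108864) (P2 := 1073741824) (W2 := 536870912) (P3 := 1046898278) (W3 := 26843546) (N0 := 3)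
    rfl k0_pp_023

noncomputable def f_pp_033 : ℕ → ℕ → ℕ → ℕ → Bool := onCell 0 67108864 0 1230186008 1046898278 26843546
    (rowNX 3 0 true true true .pnn 0 3 3 (qsf 0 67108864 0 1230186008 3) ndN4q0 ndN5q3 pcN3 Cut.none Ext.none)

def k0_pp_033 : ∃ t, chk3 f_pp_033 t 1 1 1 = true :=
  ⟨(b (l 4) (l 4)), by decide +kernel⟩

theorem c_pp_033 : CertNX 0 67108864 0 1230186008 1046898278 26843546 3 true true true .pnn 0 3 3
    ndN4q0 ndN5q3 pcN3 Cut.none Ext.none :=
  certNX0 (fam := true) (s1 := true) (s2 := true) (a := 0) (b := 3) (c := 3) (cn := .pnn) (n1 := ndN4q0) (n2 := ndN5q3) (pc := pcN3) (cut := Cut.none) (xt := Ext.none) (P1 := 0) (W1 := 67108864) (P2 := 0) (W2 := 1230186008) (P3 := 1046898278) (W3 := 26843546) (N0 := 3)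
    rfl k0_pp_033

noncomputable def f_pm_001 : ℕ → ℕ → ℕ → ℕ → Bool := onCell 0 67108864 0 536870912 1046898278 26843546
    (rowNX 3 0 true true false .up 0 0 1 (qsf 0 67108864 0 536870912 1) ndN4q0 ndN5q0 pcN1 Cut.none Ext.none)

def k0_pm_001 : ∃ t, chk3 f_pm_001 t 1 1 1 = true :=
  ⟨(l 3), by decide +kernel⟩

theorem c_pm_001 : CertNX 0 67108864 0 536870912 1046898278 26843546 3 true true false .up 0 0 1
    ndN4q0 ndN5q0 pcN1 Cut.none Ext.none :=
  certNX0 (fam := true) (s1 := true) (s2 := false) (a := 0) (b := 0) (c := 1) (cn := .up) (n1 := ndN4q0) (n2 := ndN5q0) (pc := pcN1) (cut := Cut.none) (xt := Ext.none) (P1 := 0) (W1 := 67108864) (P2 := 0) (W2 := 536870912) (P3 := 1046898278) (W3 := 26843546) (N0 := 3)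
    rfl k0_pm_001

noncomputable def f_pm_011 : ℕ → ℕ → ℕ → ℕ → Bool := onCell 0 67108864 536870912 469762048 1046898278 26843546
    (rowNX 3 0 true true false .pnn 0 1 1 (qsf 0 67108864 536870912 469762048 1) ndN4q0 ndN5q1 pcN1 Cut.none Ext.none)

def k0_pm_011 : ∃ t, chk3 f_pm_011 t 1 1 1 = true :=
  ⟨(l 3), by decide +kernel⟩

theorem c_pm_011 : CertNX 0 67108864 536870912 469762048 1046898278 26843546 3 true true false .pnn 0 1 1
    ndN4q0 ndN5q1 pcN1 Cut.none Ext.none :=
  certNX0 (fam := true) (s1 := true) (s2 := false) (a := 0) (b := 1) (c := 1) (cn := .pnn) (n1 := ndN4q0) (n2 := ndN5q1) (pc := pcN1) (cut := Cut.none) (xt := Ext.none) (P1 := 0) (W1 := 67108864) (P2 := 536870912) (W2 := 469762048) (P3 := 1046898278) (W3 := 26843546) (N0 := 3)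
    rfl k0_pm_011

noncomputable def f_pm_012 : ℕ → ℕ → ℕ → ℕ → Bool := onCell 0 67108864 536870912 469762048 1046898278 26843546
    (rowNX 3 0 true true false .pnp 0 1 2 (qsf 0 67108864 536870912 469762048 2) ndN4q0 ndN5q1 pcN2 Cut.none Ext.none)

def k0_pm_012 : ∃ t, chk3 f_pm_012 t 1 1 1 = true :=
  ⟨(l 3), by decide +kernel⟩

theorem c_pm_012 : CertNX 0 67108864 536870912 469762048 1046898278 26843546 3 true true false .pnp 0 1 2
    ndN4q0 ndN5q1 pcN2 Cut.none Ext.none :=
  certNX0 (fam := true) (s1 := true) (s2 := false) (a := 0) (b := 1) (c := 2) (cn := .pnp) (n1 := ndN4q0) (n2 := ndN5q1) (pc := pcN2) (cut := Cut.none) (xt := Ext.none) (P1 := 0) (W1 := 67108864) (P2 := 536870912) (W2 := 469762048) (P3 := 1046898278) (W3 := 26843546) (N0 := 3)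
    rfl k0_pm_012

noncomputable def f_pm_022 : ℕ → ℕ → ℕ → ℕ → Bool := onCell 0 67108864 1073741824 536870912 1046898278 26843546
    (rowNX 3 1 true true false .pp 0 2 2 (qsf 0 67108864 1073741824 536870912 2) ndN4q0 ndN5q2 pcN2 Cut.none Ext.none)

def k0_pm_022 : ∃ t, chk3 f_pm_022 t 1 16 1 = true :=
  ⟨(a (l 3) (a (a (l 3) (l 1)) (l 1))), by decide +kernel⟩

def k1_pm_022 : ∃ t, chk3 f_pm_022 t 2 17 1 = true :=
  ⟨(b (c (a (l 3) (b (l 3) (a (c (c (l 16127096) (l 3)) (l 3)) (c (l 108077380023) (l 16201592))))) (l 3)) (c (a (b (a (l 3) (c (a (b (l 3) (c (a (l 16254416) (l 16265744)) (l 3))) (b (l 16198536) (b (l 16235560) (l 16225256)))) (l 3))) (a (c (b (l 16248944) (l 16241160)) (c (l 399598442471) (a (l 3) (b (l 3) (l 3))))) (c (a (c (b (l 16260344) (l 16280632)) (b (l 16230640) (l 16241088))) (b (l 16135976) (c (l 16283512) (l 16213288)))) (a (c (b (l 391008452663) (l 16196224)) (l 16194760)) (c (l 16170704) (b (l 16058976) (l 16099752))))))) (b (a (c (b (a (l 16215176)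 (c (l 16169040) (l 16153200))) (a (b (l 16189352) (l 16179088)) (c (l 16139000) (b (l 16101640) (l 16103336))))) (b (l 433421106807) (a (b (l 3) (l 441474154583)) (l 16133272)))) (c (b (c (l 16155704) (l 16151304)) (c (a (l 16131920) (l 16148496)) (l 16102656))) (b (l 16169576) (l 16137392)))) (c (a (c (b (a (l 16209360) (l 16164560)) (a (l 16233096) (l 16185264))) (a (b (l 16141432) (l 16171688)) (b (l 16126040) (l 16149912)))) (c (b (a (l 16148736) (l 16171384)) (l 16189296)) (b (l 16143800) (l 16155520)))) (a (c (a (b (l 16098936) (l 16119784)) (b (l 16106208) (l 16136832))) (l 16122400)) (b (l 16134344) (c (l 16153976) (l 16157344))))))) (a (c (a (l 3) (b (l 3) (b (l 3) (a (b (l 3) (l 16097536)) (l 398524506599))))) (l 3)) (b (c (b (l 552069613607) (b (l 546163997399) (l 544553378711))) (l 3)) (c (b (a (l 577302539991) (l 16042760)) (a (l 365775377191) (c (a (l 16132160) (l 16154888)) (l 16113320)))) (b (l 525225942775) (l 382418256855))))))), by decide +kernel⟩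

def k2_pm_022 : ∃ t, chk3 f_pm_022 t 3 17 1 = true :=
  ⟨(b (a (c (b (b (c (l 16278048) (l 3)) (c (l 16165992) (l 512878286375))) (c (b (a (l 16220384) (l 16241088)) (a (l 16200448) (l 16218904))) (b (l 314772838343) (a (l 16208776) (l 16158848))))) (b (l 3) (c (l 306719632599) (l 433421082407)))) (a (a (a (b (l 1) (c (c (l 16190800) (l 665752123607)) (l 415167477687))) (l 1)) (l 1)) (l 1))) (c (b (c (a (b (a (l 16177744) (l 16205448)) (b (l 16164816) (l 16190232))) (a (l 16274368) (c (l 16240216) (l 16307480)))) (a (b (a (l 253569439079) (c (l 16205512) (l 16187416))) (a (b (l 16108800) (l 16061136)) (b (l 16118104) (l 16140256)))) (a (b (l 16204872) (l 16229160)) (l 16247896)))) (a (c (b (l 16167952) (l 16259824)) (a (c (l 16125712) (b (l 16125960) (l 16137824))) (c (l 16254472) (l 16200688)))) (c (a (l 16264472) (c (l 16370512) (l 16349384))) (l 16223968)))) (b (a (c (a (b (l 16152944) (l 16120448)) (b (l 16152192) (b (l 16130296) (l 16124544)))) (b (l 350206023751)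 (b (l 16070992) (l 16060184)))) (b (a (c (l 16122312) (l 16051048)) (l 1)) (b (a (c (l 16126808) (l 16070848)) (l 1)) (c (l 16076512) (a (l 16065008) (l 16071848)))))) (a (c (b (a (c (l 16148952) (l 16122640)) (c (l 16144920) (l 16113120))) (a (c (l 16153008) (l 16102528)) (l 16082864))) (b (a (l 16064632) (c (l 16085720) (l 16059528))) (a (c (l 16054952) (l 16045904)) (c (l 16048112) (b (l 16060376) (l 16071880)))))) (c (b (l 15991160) (l 16210136)) (b (a (c (l 16085664) (l 16053720)) (l 16090336)) (a (c (l 16134600) (l 16066240)) (l 16142816)))))))), by decide +kernel⟩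

def k3_pm_022 : ∃ t, chk3 f_pm_022 t 2 72 1 = true :=
  ⟨(c (a (a (c (b (b (l 16232512) (l 16161992)) (a (l 16212152) (l 16251752))) (a (l 76402055815) (c (l 16218128) (b (l 16175744) (l 16181640))))) (c (a (b (c (l 16300272) (l 16257384)) (l 16215752)) (b (c (l 16292400) (l 16233040)) (l 16258872))) (a (b (c (l 16209784) (l 16151904)) (l 16192824)) (b (c (l 16163864) (l 16113696)) (l 16153040))))) (a (c (b (a (l 16211976) (l 16182536)) (l 16198608)) (c (b (a (l 16139840) (l 16146096)) (l 16141376)) (b (l 16134064) (l 16131168)))) (c (l 16190216) (b (l 16114768) (l 16173648))))) (a (a (c (c (a (l 16134896) (b (l 16144088) (l 16143856))) (b (l 3) (a (l 16117248) (l 16105272)))) (a (l 3) (c (b (l 3) (l 16077512)) (l 3)))) (c (c (a (b (l 16101224) (l 16107480)) (l 16104488)) (b (l 410335619335) (l 16063304))) (c (b (l 554753923543) (l 16103856)) (l 430199785527)))) (c (a (c (b (l 16140184) (l 16128824)) (b (l 16117272) (l 16114816))) (c (b (a (l 16152808) (l 16164688)) (l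 16154304)) (b (l 16108120) (l 16126568)))) (a (b (l 16028576) (l 16072952)) (b (b (l 16070528) (l 16064056)) (c (l 16091288) (l 16052760))))))), by decide +kernel⟩

def k4_pm_022 : ∃ t, chk3 f_pm_022 t 2 73 1 = true :=
  ⟨(c (a (a (c (b (l 16093760) (l 16207544)) (c (b (l 16199760) (l 16193920)) (b (l 16171192) (l 16173928)))) (c (a (c (l 16288944) (l 16231400)) (l 16249192)) (a (b (l 16192232) (l 16184232)) (c (l 16159232) (l 16117200))))) (a (c (l 16178336) (c (l 16131880) (l 16097040))) (l 16149848))) (a (a (c (a (b (l 16123944) (l 16125824)) (b (c (l 16149824) (l 16106824)) (c (l 16152760) (l 16110840)))) (a (c (b (l 16088648) (l 16086592)) (a (c (l 16074560) (l 16063992)) (b (l 16062528) (l 16056744)))) (b (c (l 16073728) (l 16057424)) (l 15999688)))) (c (a (b (l 16104576) (l 16106432)) (b (l 16102304) (l 16096584))) (c (b (l 16077128) (l 16082680)) (l 16061512)))) (c (b (a (c (l 16122840) (l 16114344)) (l 16117456)) (a (l 16096400) (l 16124424))) (b (a (l 16055768)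 (l 16059072)) (a (l 16060856) (l 16047728)))))), by decide +kernel⟩

def k5_pm_022 : ∃ t, chk3 f_pm_022 t 2 37 1 = true :=
  ⟨(c (a (a (b (c (l 16202936) (b (l 16110464) (l 16163728))) (l 16043240)) (c (a (b (l 16239392) (l 16190880)) (l 16187680)) (a (b (l 16168848) (l 16128704)) (l 15994840)))) (b (a (c (l 16133904) (l 16096032)) (l 16105232)) (a (c (l 16078256) (l 16045320)) (l 16045544)))) (a (a (c (c (b (a (l 16132184) (l 16098992)) (l 16068944)) (a (b (l 16115616) (l 16093144)) (b (a (l 16115584) (l 16090832)) (l 16083696)))) (a (c (b (a (l 16088632) (l 16091072)) (b (l 16059816) (l 16070248))) (b (a (c (l 16070616) (l 16057280)) (l 16058208)) (a (c (l 16063608) (b (l 16056624) (l 16050144))) (l 16049128)))) (c (b (l 16076664) (l 16054144)) (b (l 16058168) (l 16042712))))) (c (b (b (a (l 16097992) (l 16088088)) (l 16087008)) (l 16060072)) (b (b (c (l 16078328) (l 16055296)) (l 16056400)) (b (l 16045520) (l 16029408))))) (b (c (l 16091864) (a (l 15994240) (l 16044216)))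 (l 15942592)))), by decide +kernel⟩

def k6_pm_022 : ∃ t, chk3 f_pm_022 t 3 18 1 = true :=
  ⟨(b (c (a (b (c (l 16262360) (l 16229832)) (c (l 16206472) (l 16193408))) (c (b (a (l 16320728) (l 16351144)) (l 16140464)) (b (l 16262736) (l 16217032)))) (a (b (c (b (a (c (l 16180184) (l 16137928)) (l 16182352)) (l 16164896)) (b (a (c (l 16100592) (l 15978360)) (c (l 16117944) (l 16075728))) (a (l 16043552) (l 16095488)))) (c (l 16140344) (b (l 16060304) (l 16064720)))) (b (b (l 16175680) (l 16163456)) (c (l 16157184) (l 16092464))))) (c (a (b (c (l 16141200) (l 16135712)) (c (l 16079376) (l 16070792))) (c (l 16176472) (b (l 16152544) (l 16095824)))) (a (b (l 16070208) (l 16014096)) (b (l 15981040) (l 15999328))))), by decide +kernel⟩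

def k7_pm_022 : ∃ t, chk3 f_pm_022 t 2 19 1 = true :=
  ⟨(b (c (a (b (a (c (l 16107040) (b (l 16101696) (l 16077824))) (c (a (l 16069120) (l 16078824)) (a (l 16055560) (l 16019896)))) (a (c (l 16092720) (l 16084408)) (c (a (l 16121464) (l 16093288)) (a (l 16065336) (l 16005688))))) (b (c (a (b (l 16029120) (l 15854024)) (b (l 15991736) (l 15968592))) (a (b (l 15999416) (l 15970856)) (l 15989872))) (a (c (l 15941136) (l 15979784)) (l 15993944)))) (a (a (b (c (a (l 16065448) (c (l 16072240) (l 16002024))) (a (c (a (l 16048824) (l 16044480)) (a (c (l 16038512) (l 16030736)) (l 16023304))) (c (l 16022432) (l 16014312)))) (a (c (l 16069976) (a (l 15973240) (l 15968168))) (c (l 16057232) (l 16023880)))) (b (c (a (l 15976592) (l 15998992)) (l 15998576)) (c (l 16008048) (l 16001904)))) (b (c (b (l 16001744) (l 15974720)) (l 15961808)) (c (l 15984592) (l 15957416))))) (b (a (c (a (c (l 16115968) (l 16090920)) (c (a (l 16156680) (l 16146536)) (a (l 16078800) (l 16030344)))) (a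 (c (a (l 16080856) (l 16064984)) (a (c (l 16072416) (l 16023264)) (l 16038936))) (c (l 16015264) (l 16012192)))) (c (c (l 15901376) (l 15892584)) (c (l 15930392) (l 15976664)))) (a (c (a (c (l 16170712) (a (l 16098456) (l 16129712))) (c (l 16140800) (a (l 16126936) (l 16095032)))) (a (c (a (l 16078512) (c (l 16082760) (l 16053848))) (a (c (l 16070536) (l 16065896)) (l 16036208))) (c (a (l 16038216) (l 16030792)) (l 16018312)))) (c (a (l 16000704) (l 16164664)) (c (l 16078424) (l 16014928)))))), by decide +kernel⟩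

def k8_pm_022 : ∃ t, chk3 f_pm_022 t 3 19 1 = true :=
  ⟨(a (b (b (c (c (l 16027616) (b (l 16023688) (l 16000920))) (b (l 15964640) (l 15852672))) (c (l 16048984) (l 15936472))) (c (b (l 16139208) (l 16206024)) (b (l 16016416) (l 16114152)))) (b (b (c (c (l 16063928) (l 16038960)) (c (l 15974568) (l 15887832))) (c (l 15938504) (l 15974128))) (c (b (l 16070336) (l 16193840)) (l 16017976)))), by decide +kernel⟩

def k9_pm_022 : ∃ t, chk3 f_pm_022 t 2 20 1 = true :=
  ⟨(b (a (c (a (b (a (l 16202056) (l 16254064)) (l 16204864)) (c (b (l 16310552) (l 16355392)) (c (l 16161152) (l 16002296)))) (a (c (b (a (l 16107672) (c (l 16145024) (l 16090960))) (a (l 16209496) (l 16194552))) (b (a (c (l 16049864) (a (l 16060584) (l 16048216))) (c (l 16055344) (l 16042024))) (a (c (l 16015480) (b (a (l 16067648) (l 16065560)) (l 16062704))) (l 16005960)))) (b (c (l 16058808) (l 16016600)) (c (l 16244672) (l 16168056))))) (c (a (b (l 16111464) (l 16261992)) (l 16137968)) (b (c (l 16187888)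 (l 16102800)) (l 16106864)))) (b (a (c (a (a (l 16221600) (b (l 16295376) (l 16226368))) (a (l 15997976) (l 15996520))) (a (c (a (l 16086400) (b (l 16345672) (l 16261352))) (a (a (c (l 16132824) (l 15917128)) (c (l 16170608) (l 16054376))) (b (l 16241872) (l 16147416)))) (c (l 16340944) (l 16304920)))) (c (a (l 16063336) (l 16246776)) (l 16214944))) (a (c (b (a (a (l 16255616) (l 16248256)) (a (c (l 15991816) (l 16161472)) (c (l 16029216) (l 16129240)))) (a (b (l 16152728) (a (l 16165744) (l 16215856))) (b (a (l 16064680) (l 15753840)) (a (l 15901184) (c (l 15970072) (l 15992064)))))) (b (a (c (a (l 16145424) (l 16254488)) (a (c (l 16058336) (l 15906864)) (l 16197816))) (c (a (l 16251432) (l 16191080)) (l 16162008))) (a (b (c (a (l 16116520) (l 16305184)) (a (l 15803216) (l 16214384))) (c (a (l 16032840) (l 16092712)) (a (a (l 15849720) (l 15925504)) (l 16091200)))) (b (c (l 16054928) (l 16232192)) (c (a (l 16262024) (l 16101744)) (l 16141568)))))) (b (c (a (l 15967640)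 (l 16091096)) (l 16190720)) (c (b (l 15798552) (a (c (l 15946088) (l 15990896)) (l 15971096))) (b (l 16094808) (l 15971000))))))), by decide +kernel⟩

def k10_pm_022 : ∃ t, chk3 f_pm_022 t 3 20 1 = true :=
  ⟨(b (c (a (b (l 16371592) (l 16394040)) (c (l 16218968) (l 16470896))) (a (b (l 16232504) (l 16369392)) (l 16129472))) (b (c (a (l 16198360) (l 16067448)) (a (l 16319536) (l 16292648))) (b (c (a (l 16047600) (l 15964776)) (a (l 16155184) (l 16134512))) (c (b (a (l 15983944) (l 15955960)) (a (l 15944744) (l 15883744))) (b (l 16073016) (l 15921440)))))), by decide +kernel⟩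

def k11_pm_022 : ∃ t, chk3 f_pm_022 t 1 21 1 = true :=
  ⟨(a (a (c (a (b (a (l 15845400) (l 15859856)) (l 15332048)) (b (a (b (l 16180464) (l 16028544)) (c (l 16198408) (l 16237440))) (a (l 15556536) (c (l 15912272) (l 15847400))))) (c (a (a (l 15315576) (b (b (l 16048736) (l 15873272)) (l 15490880))) (b (a (l 16027224) (l 16320512)) (l 15615072))) (a (b (a (c (l 15725576) (l 15603488)) (b (l 16028656) (l 15791072))) (a (l 14992096) (l 15409688))) (b (l 16024344) (l 15671904))))) (b (c (a (b (c (l 15726504) (a (l 16011896) (l 15958544))) (l 15996384)) (b (l 15909344) (l 15818056))) (a (b (a (l 16091352) (l 15993488)) (l 16225256)) (b (l 15953888) (l 15853072)))) (c (a (c (l 15933136) (l 15927880)) (l 16119680)) (a (l 15847200) (l 16151768))))) (a (b (c (l 15849936) (l 15909216)) (a (b (c (l 15835208) (l 15874192)) (l 15915088)) (b (l 15760520) (c (l 15764856) (l 15806968))))) (c (l 15523264) (l 15842944)))), by decide +kernel⟩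

def k12_pm_022 : ∃ t, chk3 f_pm_022 t 1 11 1 = true :=
  ⟨(a (b (a (c (a (b (l 15004088) (l 14522424)) (c (a (l 14937952) (l 15193800)) (a (l 14975576) (l 15086960)))) (a (c (a (l 14584256) (l 14560576)) (a (c (l 14532752) (l 14412440)) (l 14669472))) (c (l 14754736) (l 14917352)))) (c (a (b (l 15377072) (l 15082280)) (a (l 15352640) (l 15474712))) (b (a (l 15516856) (l 15781824)) (l 15167808)))) (b (a (c (a (b (a (l 14137224) (l 14278080)) (l 14147696)) (a (b (l 14422840) (l 14266040)) (c (l 14499512) (l 14388600)))) (a (c (a (l 14040808) (b (l 14169936) (l 14076688))) (a (a (l 13950120) (l 13991240)) (l 14049896))) (c (l 14222512) (l 14235224)))) (c (a (l 14622048) (l 14897960)) (l 14695840))) (a (c (a (l 14146400) (a (l 14236824) (l 14271920))) (a (c (l 14045272) (l 13973568)) (l 14088568))) (c (a (b (l 14354648) (l 14289736)) (l 14518272)) (a (l 14241464) (l 14456752)))))) (b (a (b (c (a (l 16171168) (l 16068592)) (l 16072344)) (a (l 15471648) (l 15716640))) (b (a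 (b (l 15580536) (l 15927456)) (c (c (l 15419744) (l 15670848)) (l 15701032))) (c (c (a (l 16303064) (l 16005568)) (l 16167944)) (l 16135536)))) (a (c (b (l 15363608) (l 14957752)) (l 15088904)) (b (c (c (a (l 15824920) (l 16113296)) (l 15692776)) (l 15884672)) (c (l 15459496) (l 15457568)))))), by decide +kernel⟩

def k13_pm_022 : ∃ t, chk3 f_pm_022 t 1 3 1 = true :=
  ⟨(b (a (c (a (b (a (l 14146400) (c (l 14295992) (l 14202712))) (a (l 14146400) (c (l 14295992) (l 14202712)))) (b (c (l 14350528) (l 14310144)) (l 14337520))) (a (a (c (b (l 14045272) (l 14045272)) (a (b (l 13950864) (l 13950864)) (l 13992120))) (b (l 14087688) (l 14024776))) (b (l 14245296) (l 14245048)))) (b (b (a (b (c (l 14526672) (l 14561824)) (l 14493144)) (c (b (l 15155184) (l 14716560)) (l 14680672))) (c (l 14539584) (l 14541208))) (c (c (l 14666312) (l 14627368)) (l 14540928)))) (a (a (c (a (l 14146400) (l 14246648)) (b (c (l 14088448) (l 13977416)) (a (l 14007072) (l 14087688)))) (c (l 14337520)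 (l 14245048))) (c (l 14413480) (l 14540928)))), by decide +kernel⟩

theorem s14_pm_022 : ∃ t, chk3 f_pm_022 t 1 20 1 = true := ex3_a k9_pm_022 k10_pm_022

theorem s15_pm_022 : ∃ t, chk3 f_pm_022 t 1 10 1 = true := ex3_b s14_pm_022 k11_pm_022

theorem s16_pm_022 : ∃ t, chk3 f_pm_022 t 1 5 1 = true := ex3_b s15_pm_022 k12_pm_022

theorem s17_pm_022 : ∃ t, chk3 f_pm_022 t 1 19 1 = true := ex3_a k7_pm_022 k8_pm_022

theorem s18_pm_022 : ∃ t, chk3 f_pm_022 t 2 36 1 = true := ex3_b k3_pm_022 k4_pm_022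

theorem s19_pm_022 : ∃ t, chk3 f_pm_022 t 2 18 1 = true := ex3_b s18_pm_022 k5_pm_022

theorem s20_pm_022 : ∃ t, chk3 f_pm_022 t 1 18 1 = true := ex3_a s19_pm_022 k6_pm_022

theorem s21_pm_022 : ∃ t, chk3 f_pm_022 t 1 9 1 = true := ex3_b s20_pm_022 s17_pm_022

theorem s22_pm_022 : ∃ t, chk3 f_pm_022 t 1 17 1 = true := ex3_a k1_pm_022 k2_pm_022

theorem s23_pm_022 : ∃ t, chk3 f_pm_022 t 1 8 1 = true := ex3_b k0_pm_022 s22_pm_022

theorem s24_pm_022 : ∃ t, chk3 f_pm_022 t 1 4 1 = true := ex3_b s23_pm_022 s21_pm_022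

theorem s25_pm_022 : ∃ t, chk3 f_pm_022 t 1 2 1 = true := ex3_b s24_pm_022 s16_pm_022

theorem s26_pm_022 : ∃ t, chk3 f_pm_022 t 1 1 1 = true := ex3_b s25_pm_022 k13_pm_022

theorem c_pm_022 : CertNX 0 67108864 1073741824 536870912 1046898278 26843546 3 true true false .pp 0 2 2
    ndN4q0 ndN5q2 pcN2 Cut.none Ext.none :=
  certNX1 (fam := true) (s1 := true) (s2 := false) (a := 0) (b := 2) (c := 2) (cn := .pp) (n1 := ndN4q0) (n2 := ndN5q2) (pc := pcN2) (cut := Cut.none) (xt := Ext.none) (P1 := 0) (W1 := 67108864) (P2 := 1073741824) (W2 := 536870912) (P3 := 1046898278) (W3 := 26843546) (N0 := 3)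
    rfl (fun _ => rfl) s26_pm_022

noncomputable def f_pm_023 : ℕ → ℕ → ℕ → ℕ → Bool := onCell 0 67108864 1610612736 536870912 1046898278 26843546
    (rowNX 3 1 true true false .up 0 2 3 (qsf 0 67108864 1073741824 536870912 3) ndN4q0 ndN5q2 pcN3 Cut.none Ext.none)

def k0_pm_023 : ∃ t, chk3 f_pm_023 t 1 1 1 = true :=
  ⟨(b (b (b (a (a (c (l 14189640) (a (l 13965128) (l 14087688))) (c (l 14337520) (l 14245048))) (l 14588440)) (a (l 2) (l 14588440))) (l 2)) (l 2)), by decide +kernel⟩

theorem c_pm_023 : CertNX 0 67108864 1073741824 536870912 1046898278 26843546 3 true true false .up 0 2 3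
    ndN4q0 ndN5q2 pcN3 Cut.none Ext.none :=
  certNX1 (fam := true) (s1 := true) (s2 := false) (a := 0) (b := 2) (c := 3) (cn := .up) (n1 := ndN4q0) (n2 := ndN5q2) (pc := pcN3) (cut := Cut.none) (xt := Ext.none) (P1 := 0) (W1 := 67108864) (P2 := 1073741824) (W2 := 536870912) (P3 := 1046898278) (W3 := 26843546) (N0 := 3)
    rfl (fun _ => rfl) k0_pm_023

noncomputable def f_pm_033 : ℕ → ℕ → ℕ → ℕ → Bool := onCell 0 67108864 0 1230186008 1046898278 26843546
    (rowNX 3 0 true true false .pnn 0 3 3 (qsf 0 67108864 0 1230186008 3) ndN4q0 ndN5q3 pcN3 Cut.none Ext.none)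

def k0_pm_033 : ∃ t, chk3 f_pm_033 t 1 1 1 = true :=
  ⟨(b (l 4) (b (b (a (c (l 4) (b (l 4) (l 4))) (l 4)) (a (c (a (b (l 13937952) (l 14189640)) (b (l 14337472) (l 14337520))) (a (b (c (l 14088416) (l 14019320)) (a (l 14007072) (l 14087688))) (b (l 14244992) (l 14245048)))) (c (b (l 4) (l 14644144)) (b (l 14540872) (l 14540904))))) (b (a (c (b (a (l 14189640) (l 14337520)) (a (l 14189640) (l 14337520))) (b (a (a (l 14007072) (l 14087688)) (l 14245048)) (a (a (l 14007072) (l 14087688)) (l 14245048)))) (c (b (l 14644160) (l 14644168)) (b (l 14498984) (l 14540928)))) (a (a (c (b (l 14189640) (l 14189640)) (b (a (l 14007072) (l 14087688)) (c (l 14088448) (l 13998384)))) (c (l 14337520) (l 14245048))) (b (c (l 14644168) (l 14540928)) (l 14336776)))))), by decide +kernel⟩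

theorem c_pm_033 : CertNX 0 67108864 0 1230186008 1046898278 26843546 3 true true false .pnn 0 3 3
    ndN4q0 ndN5q3 pcN3 Cut.none Ext.none :=
  certNX0 (fam := true) (s1 := true) (s2 := false) (a := 0) (b := 3) (c := 3) (cn := .pnn) (n1 := ndN4q0) (n2 := ndN5q3) (pc := pcN3) (cut := Cut.none) (xt := Ext.none) (P1 := 0) (W1 := 67108864) (P2 := 0) (W2 := 1230186008) (P3 := 1046898278) (W3 := 26843546) (N0 := 3)
    rfl k0_pm_033

noncomputable def f_mm_001 : ℕ → ℕ → ℕ → ℕ → Bool := onCell 0 67108864 0 536870912 1046898278 26843546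
    (rowNX 3 0 true false false .up 0 0 1 (qsf 0 67108864 0 536870912 1) ndN4q0 ndN5q0 pcN1 Cut.none Ext.none)

def k0_mm_001 : ∃ t, chk3 f_mm_001 t 1 1 1 = true :=
  ⟨(l 4), by decide +kernel⟩

theorem c_mm_001 : CertNX 0 67108864 0 536870912 1046898278 26843546 3 true false false .up 0 0 1
    ndN4q0 ndN5q0 pcN1 Cut.none Ext.none :=
  certNX0 (fam := true) (s1 := false) (s2 := false) (a := 0) (b := 0) (c := 1) (cn := .up) (n1 := ndN4q0) (n2 := ndN5q0) (pc := pcN1) (cut := Cut.none) (xt := Ext.none) (P1 := 0) (W1 := 67108864) (P2 := 0) (W2 := 536870912) (P3 := 1046898278) (W3 := 26843546) (N0 := 3)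
    rfl k0_mm_001

noncomputable def f_mm_011 : ℕ → ℕ → ℕ → ℕ → Bool := onCell 0 67108864 536870912 469762048 1046898278 26843546
    (rowNX 3 0 true false false .pnn 0 1 1 (qsf 0 67108864 536870912 469762048 1) ndN4q0 ndN5q1 pcN1 Cut.none Ext.none)

def k0_mm_011 : ∃ t, chk3 f_mm_011 t 1 1 1 = true :=
  ⟨(l 4), by decide +kernel⟩

theorem c_mm_011 : CertNX 0 67108864 536870912 469762048 1046898278 26843546 3 true false false .pnn 0 1 1
    ndN4q0 ndN5q1 pcN1 Cut.none Ext.none :=
  certNX0 (fam := true) (s1 := false) (s2 := false) (a := 0) (b := 1) (c := 1) (cn := .pnn) (n1 := ndN4q0) (n2 := ndN5q1) (pc := pcN1) (cut := Cut.none) (xt := Ext.none) (P1 := 0) (W1 := 67108864) (P2 := 536870912) (W2 := 469762048) (P3 := 1046898278) (W3 := 26843546) (N0 := 3)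
    rfl k0_mm_011

noncomputable def f_mm_012 : ℕ → ℕ → ℕ → ℕ → Bool := onCell 0 67108864 536870912 469762048 1046898278 26843546
    (rowNX 3 0 true false false .pnp 0 1 2 (qsf 0 67108864 536870912 469762048 2) ndN4q0 ndN5q1 pcN2 Cut.none Ext.none)

def k0_mm_012 : ∃ t, chk3 f_mm_012 t 1 1 1 = true :=
  ⟨(l 4), by decide +kernel⟩

theorem c_mm_012 : CertNX 0 67108864 536870912 469762048 1046898278 26843546 3 true false false .pnp 0 1 2
    ndN4q0 ndN5q1 pcN2 Cut.none Ext.none :=
  certNX0 (fam := true) (s1 := false) (s2 := false) (a := 0) (b := 1) (c := 2) (cn := .pnp) (n1 := ndN4q0) (n2 := ndN5q1) (pc := pcN2) (cut := Cut.none) (xt := Ext.none) (P1 := 0) (W1 := 67108864) (P2 := 536870912) (W2 := 469762048) (P3 := 1046898278) (W3 := 26843546) (N0 := 3)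
    rfl k0_mm_012

noncomputable def f_mm_022 : ℕ → ℕ → ℕ → ℕ → Bool := onCell 0 67108864 1073741824 536870912 1046898278 26843546
    (rowNX 3 0 true false false .pp 0 2 2 (qsf 0 67108864 1073741824 536870912 2) ndN4q0 ndN5q2 pcN2 Cut.none Ext.none)

def k0_mm_022 : ∃ t, chk3 f_mm_022 t 1 1 1 = true :=
  ⟨(l 4), by decide +kernel⟩

theorem c_mm_022 : CertNX 0 67108864 1073741824 536870912 1046898278 26843546 3 true false false .pp 0 2 2
    ndN4q0 ndN5q2 pcN2 Cut.none Ext.none :=
  certNX0 (fam := true) (s1 := false) (s2 := false) (a := 0) (b := 2) (c := 2) (cn := .pp) (n1 := ndN4q0) (n2 := ndN5q2) (pc := pcN2) (cut := Cut.none) (xt := Ext.none) (P1 := 0) (W1 := 67108864) (P2 := 1073741824) (W2 := 536870912) (P3 := 1046898278) (W3 := 26843546) (N0 := 3)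
    rfl k0_mm_022

noncomputable def f_mm_023 : ℕ → ℕ → ℕ → ℕ → Bool := onCell 0 67108864 1073741824 536870912 1046898278 26843546
    (rowNX 3 0 true false false .up 0 2 3 (qsf 0 67108864 1073741824 536870912 3) ndN4q0 ndN5q2 pcN3 Cut.none Ext.none)

def k0_mm_023 : ∃ t, chk3 f_mm_023 t 1 1 1 = true :=
  ⟨(l 4), by decide +kernel⟩

theorem c_mm_023 : CertNX 0 67108864 1073741824 536870912 1046898278 26843546 3 true false false .up 0 2 3
    ndN4q0 ndN5q2 pcN3 Cut.none Ext.none :=
  certNX0 (fam := true) (s1 := false) (s2 := false) (a := 0) (b := 2) (c := 3) (cn := .up) (n1 := ndN4q0) (n2 := ndN5q2) (pc := pcN3) (cut := Cut.none) (xt := Ext.none) (P1 := 0) (W1 := 67108864) (P2 := 1073741824) (W2 := 536870912) (P3 := 1046898278) (W3 := 26843546) (N0 := 3)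
    rfl k0_mm_023

noncomputable def f_mm_033 : ℕ → ℕ → ℕ → ℕ → Bool := onCell 0 67108864 0 1230186008 1046898278 26843546
    (rowNX 3 0 true false false .pnn 0 3 3 (qsf 0 67108864 0 1230186008 3) ndN4q0 ndN5q3 pcN3 Cut.none Ext.none)

def k0_mm_033 : ∃ t, chk3 f_mm_033 t 1 1 1 = true :=
  ⟨(l 5), by decide +kernel⟩

theorem c_mm_033 : CertNX 0 67108864 0 1230186008 1046898278 26843546 3 true false false .pnn 0 3 3
    ndN4q0 ndN5q3 pcN3 Cut.none Ext.none :=
  certNX0 (fam := true) (s1 := false) (s2 := false) (a := 0) (b := 3) (c := 3) (cn := .pnn) (n1 := ndN4q0) (n2 := ndN5q3) (pc := pcN3) (cut := Cut.none) (xt := Ext.none) (P1 := 0) (W1 := 67108864) (P2 := 0) (W2 := 1230186008) (P3 := 1046898278) (W3 := 26843546) (N0 := 3)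
    rfl k0_mm_033

end Pool.Agent.Strip051.G.IE1.Tab.C.NA45

namespace Pool.Agent.Strip051.G.IE1.Tab.C.NA46

open Pool.Agent.Strip051.PB Pool.Agent.Strip051.PB.T
open Pool.Agent.Strip051.G.IE1.Tab

noncomputable def f_pp_001 : ℕ → ℕ → ℕ → ℕ → Bool := onCell 0 67108864 0 536870912 1046898278 26843546
    (rowNX 3 0 true true true .up 0 0 1 (qsf 0 67108864 0 536870912 1) ndN4q0 ndN6q0 pcN1 Cut.none Ext.none)

def k0_pp_001 : ∃ t, chk3 f_pp_001 t 1 1 1 = true :=
  ⟨(l 4), by decide +kernel⟩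

theorem c_pp_001 : CertNX 0 67108864 0 536870912 1046898278 26843546 3 true true true .up 0 0 1
    ndN4q0 ndN6q0 pcN1 Cut.none Ext.none :=
  certNX0 (fam := true) (s1 := true) (s2 := true) (a := 0) (b := 0) (c := 1) (cn := .up) (n1 := ndN4q0) (n2 := ndN6q0) (pc := pcN1) (cut := Cut.none) (xt := Ext.none) (P1 := 0) (W1 := 67108864) (P2 := 0) (W2 := 536870912) (P3 := 1046898278) (W3 := 26843546) (N0 := 3)
    rfl k0_pp_001

noncomputable def f_pp_011 : ℕ → ℕ → ℕ → ℕ → Bool := onCell 0 67108864 536870912 469762048 1046898278 26843546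
    (rowNX 3 0 true true true .pnn 0 1 1 (qsf 0 67108864 536870912 469762048 1) ndN4q0 ndN6q1 pcN1 Cut.none Ext.none)

def k0_pp_011 : ∃ t, chk3 f_pp_011 t 1 1 1 = true :=
  ⟨(l 4), by decide +kernel⟩

theorem c_pp_011 : CertNX 0 67108864 536870912 469762048 1046898278 26843546 3 true true true .pnn 0 1 1
    ndN4q0 ndN6q1 pcN1 Cut.none Ext.none :=
  certNX0 (fam := true) (s1 := true) (s2 := true) (a := 0) (b := 1) (c := 1) (cn := .pnn) (n1 := ndN4q0) (n2 := ndN6q1) (pc := pcN1) (cut := Cut.none) (xt := Ext.none) (P1 := 0) (W1 := 67108864) (P2 := 536870912) (W2 := 469762048) (P3 := 1046898278) (W3 := 26843546) (N0 := 3)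
    rfl k0_pp_011

noncomputable def f_pp_012 : ℕ → ℕ → ℕ → ℕ → Bool := onCell 0 67108864 536870912 469762048 1046898278 26843546
    (rowNX 3 0 true true true .pnp 0 1 2 (qsf 0 67108864 536870912 469762048 2) ndN4q0 ndN6q1 pcN2 Cut.none Ext.none)

def k0_pp_012 : ∃ t, chk3 f_pp_012 t 1 1 1 = true :=
  ⟨(l 4), by decide +kernel⟩

theorem c_pp_012 : CertNX 0 67108864 536870912 469762048 1046898278 26843546 3 true true true .pnp 0 1 2
    ndN4q0 ndN6q1 pcN2 Cut.none Ext.none :=
  certNX0 (fam := true) (s1 := true) (s2 := true) (a := 0) (b := 1) (c := 2) (cn := .pnp) (n1 := ndN4q0) (n2 := ndN6q1) (pc := pcN2) (cut := Cut.none) (xt := Ext.none) (P1 := 0) (W1 := 67108864) (P2 := 536870912) (W2 := 469762048) (P3 := 1046898278) (W3 := 26843546) (N0 := 3)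
    rfl k0_pp_012

noncomputable def f_pp_022 : ℕ → ℕ → ℕ → ℕ → Bool := onCell 0 67108864 1073741824 536870912 1046898278 26843546
    (rowNX 3 0 true true true .pp 0 2 2 (qsf 0 67108864 1073741824 536870912 2) ndN4q0 ndN6q2 pcN2 Cut.none Ext.none)

def k0_pp_022 : ∃ t, chk3 f_pp_022 t 1 1 1 = true :=
  ⟨(l 4), by decide +kernel⟩

theorem c_pp_022 : CertNX 0 67108864 1073741824 536870912 1046898278 26843546 3 true true true .pp 0 2 2
    ndN4q0 ndN6q2 pcN2 Cut.none Ext.none :=
  certNX0 (fam := true) (s1 := true) (s2 := true) (a := 0) (b := 2) (c := 2) (cn := .pp) (n1 := ndN4q0) (n2 := ndN6q2) (pc := pcN2) (cut := Cut.none) (xt := Ext.none) (P1 := 0) (W1 := 67108864) (P2 := 1073741824) (W2 := 536870912) (P3 := 1046898278) (W3 := 26843546) (N0 := 3)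
    rfl k0_pp_022

noncomputable def f_pp_023 : ℕ → ℕ → ℕ → ℕ → Bool := onCell 0 67108864 1073741824 536870912 1046898278 26843546
    (rowNX 3 0 true true true .up 0 2 3 (qsf 0 67108864 1073741824 536870912 3) ndN4q0 ndN6q2 pcN3 Cut.none Ext.none)

def k0_pp_023 : ∃ t, chk3 f_pp_023 t 1 1 1 = true :=
  ⟨(l 4), by decide +kernel⟩

theorem c_pp_023 : CertNX 0 67108864 1073741824 536870912 1046898278 26843546 3 true true true .up 0 2 3
    ndN4q0 ndN6q2 pcN3 Cut.none Ext.none :=
  certNX0 (fam := true) (s1 := true) (s2 := true) (a := 0) (b := 2) (c := 3) (cn := .up) (n1 := ndN4q0) (n2 := ndN6q2) (pc := pcN3) (cut := Cut.none) (xt := Ext.none) (P1 := 0) (W1 := 67108864) (P2 := 1073741824) (W2 := 536870912) (P3 := 1046898278) (W3 := 26843546) (N0 := 3)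
    rfl k0_pp_023

noncomputable def f_pp_033 : ℕ → ℕ → ℕ → ℕ → Bool := onCell 0 67108864 0 1230186008 1046898278 26843546
    (rowNX 3 0 true true true .pnn 0 3 3 (qsf 0 67108864 0 1230186008 3) ndN4q0 ndN6q3 pcN3 Cut.none Ext.none)

def k0_pp_033 : ∃ t, chk3 f_pp_033 t 1 1 1 = true :=
  ⟨(b (l 4) (l 4)), by decide +kernel⟩

theorem c_pp_033 : CertNX 0 67108864 0 1230186008 1046898278 26843546 3 true true true .pnn 0 3 3
    ndN4q0 ndN6q3 pcN3 Cut.none Ext.none :=
  certNX0 (fam := true) (s1 := true) (s2 := true) (a := 0) (b := 3) (c := 3) (cn := .pnn) (n1 := ndN4q0) (n2 := ndN6q3) (pc := pcN3) (cut := Cut.none) (xt := Ext.none) (P1 := 0) (W1 := 67108864) (P2 := 0) (W2 := 1230186008) (P3 := 1046898278) (W3 := 26843546) (N0 := 3)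
    rfl k0_pp_033

noncomputable def f_pm_001 : ℕ → ℕ → ℕ → ℕ → Bool := onCell 0 67108864 0 536870912 1046898278 26843546
    (rowNX 3 0 true true false .up 0 0 1 (qsf 0 67108864 0 536870912 1) ndN4q0 ndN6q0 pcN1 Cut.none Ext.none)

def k0_pm_001 : ∃ t, chk3 f_pm_001 t 1 1 1 = true :=
  ⟨(l 3), by decide +kernel⟩

theorem c_pm_001 : CertNX 0 67108864 0 536870912 1046898278 26843546 3 true true false .up 0 0 1
    ndN4q0 ndN6q0 pcN1 Cut.none Ext.none :=
  certNX0 (fam := true) (s1 := true) (s2 := false) (a := 0) (b := 0) (c := 1) (cn := .up) (n1 := ndN4q0) (n2 := ndN6q0) (pc := pcN1) (cut := Cut.none) (xt := Ext.none) (P1 := 0) (W1 := 67108864) (P2 := 0) (W2 := 536870912) (P3 := 1046898278) (W3 := 26843546) (N0 := 3)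
    rfl k0_pm_001

noncomputable def f_pm_011 : ℕ → ℕ → ℕ → ℕ → Bool := onCell 0 67108864 536870912 469762048 1046898278 26843546
    (rowNX 3 0 true true false .pnn 0 1 1 (qsf 0 67108864 536870912 469762048 1) ndN4q0 ndN6q1 pcN1 Cut.none Ext.none)

def k0_pm_011 : ∃ t, chk3 f_pm_011 t 1 1 1 = true :=
  ⟨(l 3), by decide +kernel⟩

theorem c_pm_011 : CertNX 0 67108864 536870912 469762048 1046898278 26843546 3 true true false .pnn 0 1 1
    ndN4q0 ndN6q1 pcN1 Cut.none Ext.none :=
  certNX0 (fam := true) (s1 := true) (s2 := false) (a := 0) (b := 1) (c := 1) (cn := .pnn) (n1 := ndN4q0) (n2 := ndN6q1) (pc := pcN1) (cut := Cut.none) (xt := Ext.none) (P1 := 0) (W1 := 67108864) (P2 := 536870912) (W2 := 469762048) (P3 := 1046898278) (W3 := 26843546) (N0 := 3)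
    rfl k0_pm_011

noncomputable def f_pm_012 : ℕ → ℕ → ℕ → ℕ → Bool := onCell 0 67108864 536870912 469762048 1046898278 26843546
    (rowNX 3 0 true true false .pnp 0 1 2 (qsf 0 67108864 536870912 469762048 2) ndN4q0 ndN6q1 pcN2 Cut.none Ext.none)

def k0_pm_012 : ∃ t, chk3 f_pm_012 t 1 1 1 = true :=
  ⟨(l 3), by decide +kernel⟩

theorem c_pm_012 : CertNX 0 67108864 536870912 469762048 1046898278 26843546 3 true true false .pnp 0 1 2
    ndN4q0 ndN6q1 pcN2 Cut.none Ext.none :=
  certNX0 (fam := true) (s1 := true) (s2 := false) (a := 0) (b := 1) (c := 2) (cn := .pnp) (n1 := ndN4q0) (n2 := ndN6q1) (pc := pcN2) (cut := Cut.none) (xt := Ext.none) (P1 := 0) (W1 := 67108864) (P2 := 536870912) (W2 := 469762048) (P3 := 1046898278) (W3 := 26843546) (N0 := 3)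
    rfl k0_pm_012

noncomputable def f_pm_022 : ℕ → ℕ → ℕ → ℕ → Bool := onCell 0 67108864 1073741824 536870912 1046898278 26843546
    (rowNX 3 1 true true false .pp 0 2 2 (qsf 0 67108864 1073741824 536870912 2) ndN4q0 ndN6q2 pcN2 Cut.none Ext.none)

def k0_pm_022 : ∃ t, chk3 f_pm_022 t 1 4 1 = true :=
  ⟨(l 3), by decide +kernel⟩

def k1_pm_022 : ∃ t, chk3 f_pm_022 t 1 40 1 = true :=
  ⟨(l 3), by decide +kernel⟩

def k2_pm_022 : ∃ t, chk3 f_pm_022 t 1 82 1 = true :=
  ⟨(l 3), by decide +kernel⟩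

def k3_pm_022 : ∃ t, chk3 f_pm_022 t 1 166 1 = true :=
  ⟨(l 3), by decide +kernel⟩

def k4_pm_022 : ∃ t, chk3 f_pm_022 t 1 334 1 = true :=
  ⟨(b (a (l 3) (c (a (l 3) (l 5799446377767)) (l 3))) (c (a (l 3) (a (l 2745187783143) (c (l 16418888) (l 16427000)))) (a (a (a (c (a (l 15908568) (l 16042088)) (a (c (l 15884488) (l 15866616)) (l 16019536))) (c (l 16104584) (l 16197912))) (c (l 3) (l 16341976))) (a (l 3) (l 16394344))))), by decide +kernel⟩

def k5_pm_022 : ∃ t, chk3 f_pm_022 t 1 335 1 = true :=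
  ⟨(c (a (b (b (b (c (a (l 3) (l 13705944171447)) (a (a (l 15999768) (a (l 16225224) (l 3))) (l 3))) (a (a (b (l 15793952) (a (l 15911184) (l 15963056))) (c (a (a (l 16236256) (l 16271104)) (l 16316448)) (a (l 16092008) (c (l 16325808) (l 16275944))))) (c (a (a (l 16364376) (l 16339824)) (l 16341752)) (a (l 16322088) (l 16371792))))) (a (a (l 15969960) (a (l 16144896) (l 16168584))) (a (l 16361752) (l 16355168)))) (a (a (l 15948160) (a (c (l 16239568) (l 16184688)) (l 16170048))) (a (l 16365232) (l 16359488)))) (a (b (b (b (l 16400784) (b (l 16401888) (l 16339704))) (l 16401144)) (l 16392592)) (b (b (b (c (l 16411752) (l 16419728)) (c (b (l 16409608) (l 16408184)) (l 16416824))) (l 16410392)) (l 16401776)))) (b (b (b (a (a (a (c (a (l 15889848) (l 16044288)) (c (l 15750568) (l 15796736))) (c (l 16155800) (l 16227952))) (l 16332376)) (a (l 16380288) (l 16398312))) (b (a (a (a (c (a (l 15884232) (l 16038664)) (c (l 15744872) (l 15790984))) (c (l 16151472) (l 16223544)))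 (l 16354488)) (a (l 16381448) (l 16399496))) (a (a (a (c (a (l 15880496) (c (l 16051120) (l 16021792))) (a (c (l 15856024) (a (l 15800280) (l 15873528))) (l 15969888))) (c (a (l 16159120) (l 16296440)) (l 16136416))) (c (l 16367712) (l 16347760))) (a (l 16382224) (l 16400288))))) (a (a (a (c (l 15735376) (a (l 15710376) (l 15981320))) (c (l 16202384) (l 16211320))) (l 16357136)) (l 16389544))) (a (a (a (c (l 15712960) (a (l 15687576) (l 15958456))) (c (l 16181168) (l 16189712))) (l 16361240)) (l 16394216)))), by decide +kernel⟩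

def k6_pm_022 : ∃ t, chk3 f_pm_022 t 1 21 1 = true :=
  ⟨(a (a (c (a (b (a (l 15636864) (l 15688000)) (l 15199008)) (b (a (b (c (l 16047552) (l 16053144)) (l 15744224)) (c (l 16032800) (b (l 16154056) (l 15923808)))) (c (l 15380672) (a (l 15489056) (l 15588440))))) (a (c (a (l 15326336) (c (l 15351168) (l 15317024))) (a (c (l 15168784) (a (l 15192408) (l 15348832))) (l 15236848))) (b (c (a (l 15854528) (l 15974408)) (l 15849296)) (c (l 15492520) (l 15466592))))) (c (b (a (b (c (a (l 16299888) (l 16340576)) (a (l 16217872) (l 16346624))) (c (l 16080728) (l 16058848))) (b (l 16343952) (l 16108520))) (a (c (l 15729456) (l 15743112)) (l 15883576))) (b (a (b (a (l 16248216) (l 16350568)) (l 16060024)) (b (l 16327512) (l 16197624))) (a (l 15734512) (l 15969656))))) (a (b (c (l 16297064) (l 16302824)) (a (b (c (l 16184712) (l 16247080)) (l 16048032)) (b (l 16148512) (c (l 16120176) (l 16175000))))) (c (c (l 16191744) (l 16216984)) (l 16243120)))), by decide +kernel⟩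

def k7_pm_022 : ∃ t, chk3 f_pm_022 t 1 11 1 = true :=
  ⟨(a (a (b (c (a (b (l 14861848) (l 14462088)) (c (a (l 14936632) (l 15053080)) (a (l 14856232) (l 14953680)))) (a (c (a (l 14502376) (l 14652704)) (a (c (l 14457864) (l 14426240)) (l 14581856))) (c (l 14825176) (l 14807472)))) (c (a (b (l 14124952) (l 14146400)) (b (a (l 14128520) (l 14442064)) (l 14247408))) (a (c (b (a (l 14038992) (l 14126184)) (l 14045272)) (a (b (l 13967864) (l 13950864)) (l 14020808))) (b (c (l 14270392) (l 14219904)) (l 14088488))))) (b (c (a (c (l 15041408) (l 15147480)) (l 15248704)) (b (l 15353128) (l 15056136))) (c (b (a (l 14591448) (l 14849672)) (a (l 14202424) (l 14504464))) (b (l 14654696) (l 14352560))))) (a (b (b (c (a (l 15863216) (l 16197256)) (l 15892528)) (c (l 15533192) (l 15632672))) (c (l 14976552) (l 15030960))) (b (b (a (c (b (l 16081112) (l 16223984)) (l 16102040)) (c (b (l 16003144) (l 15920888)) (l 16040376))) (a (l 15954408) (c (l 16187136) (l 16280464)))) (c (a (l 15526016)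 (l 15616672)) (l 15429664))))), by decide +kernel⟩

def k8_pm_022 : ∃ t, chk3 f_pm_022 t 1 3 1 = true :=
  ⟨(a (b (a (c (b (a (l 14146400) (l 14246648)) (l 14189640)) (b (a (c (l 14045272) (l 13973568)) (l 14087688)) (a (l 13965128) (l 14087688)))) (c (b (l 14337728) (l 14337520)) (l 14161280))) (a (c (a (l 14146400) (l 14246648)) (a (c (l 14045272) (l 13973568)) (l 14087688))) (c (l 14337520) (l 14245048)))) (b (b (b (a (b (c (l 14642528) (l 14551416)) (l 14493088)) (c (b (l 15119272) (l 14769952)) (l 14886544))) (c (l 14644416) (l 14541184))) (c (l 14644168) (l 14540928))) (c (l 14644168) (l 14540928)))), by decide +kernel⟩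

theorem s9_pm_022 : ∃ t, chk3 f_pm_022 t 1 167 1 = true := ex3_b k4_pm_022 k5_pm_022

theorem s10_pm_022 : ∃ t, chk3 f_pm_022 t 1 83 1 = true := ex3_b k3_pm_022 s9_pm_022

theorem s11_pm_022 : ∃ t, chk3 f_pm_022 t 1 41 1 = true := ex3_b k2_pm_022 s10_pm_022

theorem s12_pm_022 : ∃ t, chk3 f_pm_022 t 1 20 1 = true := ex3_b k1_pm_022 s11_pm_022

theorem s13_pm_022 : ∃ t, chk3 f_pm_022 t 1 10 1 = true := ex3_b s12_pm_022 k6_pm_022

theorem s14_pm_022 : ∃ t, chk3 f_pm_022 t 1 5 1 = true := ex3_b s13_pm_022 k7_pm_022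

theorem s15_pm_022 : ∃ t, chk3 f_pm_022 t 1 2 1 = true := ex3_b k0_pm_022 s14_pm_022

theorem s16_pm_022 : ∃ t, chk3 f_pm_022 t 1 1 1 = true := ex3_b s15_pm_022 k8_pm_022

theorem c_pm_022 : CertNX 0 67108864 1073741824 536870912 1046898278 26843546 3 true true false .pp 0 2 2
    ndN4q0 ndN6q2 pcN2 Cut.none Ext.none :=
  certNX1 (fam := true) (s1 := true) (s2 := false) (a := 0) (b := 2) (c := 2) (cn := .pp) (n1 := ndN4q0) (n2 := ndN6q2) (pc := pcN2) (cut := Cut.none) (xt := Ext.none) (P1 := 0) (W1 := 67108864) (P2 := 1073741824) (W2 := 536870912) (P3 := 1046898278) (W3 := 26843546) (N0 := 3)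
    rfl (fun _ => rfl) s16_pm_022

noncomputable def f_pm_023 : ℕ → ℕ → ℕ → ℕ → Bool := onCell 0 67108864 1073741824 536870912 1046898278 26843546
    (rowNX 3 0 true true false .up 0 2 3 (qsf 0 67108864 1073741824 536870912 3) ndN4q0 ndN6q2 pcN3 Cut.none Ext.none)

def k0_pm_023 : ∃ t, chk3 f_pm_023 t 1 1 1 = true :=
  ⟨(b (l 1) (b (l 1) (b (a (l 1) (l 14588440)) (a (a (c (l 14189640) (l 14052120)) (l 14270512)) (l 14588440))))), by decide +kernel⟩

theorem c_pm_023 : CertNX 0 67108864 1073741824 536870912 1046898278 26843546 3 true true false .up 0 2 3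
    ndN4q0 ndN6q2 pcN3 Cut.none Ext.none :=
  certNX0 (fam := true) (s1 := true) (s2 := false) (a := 0) (b := 2) (c := 3) (cn := .up) (n1 := ndN4q0) (n2 := ndN6q2) (pc := pcN3) (cut := Cut.none) (xt := Ext.none) (P1 := 0) (W1 := 67108864) (P2 := 1073741824) (W2 := 536870912) (P3 := 1046898278) (W3 := 26843546) (N0 := 3)
    rfl k0_pm_023

noncomputable def f_pm_033 : ℕ → ℕ → ℕ → ℕ → Bool := onCell 0 67108864 0 1230186008 1046898278 26843546
    (rowNX 3 0 true true false .pnn 0 3 3 (qsf 0 67108864 0 1230186008 3) ndN4q0 ndN6q3 pcN3 Cut.none Ext.none)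

def k0_pm_033 : ∃ t, chk3 f_pm_033 t 1 1 1 = true :=
  ⟨(b (b (l 4) (b (l 4) (l 4))) (b (b (a (b (a (c (l 14189520) (a (l 14007008) (l 14087512))) (c (l 14335440) (l 14242224))) (a (c (a (l 14146296) (l 14246560)) (a (l 14006936) (l 14087576))) (c (l 14337456) (l 14244968)))) (b (l 4) (c (l 14642504) (l 14538768)))) (a (b (c (a (l 14189584) (l 14337456)) (a (l 13821360) (l 14244968))) (a (c (l 14189640) (l 13947256)) (l 14270496))) (c (b (l 14518280) (l 14644144)) (b (l 14540856) (l 14540904))))) (a (b (a (b (c (l 14189640) (l 13905320)) (c (l 14189640) (a (l 14007072) (l 14087688)))) (b (l 14270512) (l 14270512))) (a (c (b (l 14189640) (l 14189640)) (a (b (l 14007072) (l 14007072)) (l 14087688))) (c (l 14337520) (l 14245048)))) (b (b (l 14588432) (l 14483576)) (c (l 14476392) (l 14540928)))))), by decide +kernel⟩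

theorem c_pm_033 : CertNX 0 67108864 0 1230186008 1046898278 26843546 3 true true false .pnn 0 3 3
    ndN4q0 ndN6q3 pcN3 Cut.none Ext.none :=
  certNX0 (fam := true) (s1 := true) (s2 := false) (a := 0) (b := 3) (c := 3) (cn := .pnn) (n1 := ndN4q0) (n2 := ndN6q3) (pc := pcN3) (cut := Cut.none) (xt := Ext.none) (P1 := 0) (W1 := 67108864) (P2 := 0) (W2 := 1230186008) (P3 := 1046898278) (W3 := 26843546) (N0 := 3)
    rfl k0_pm_033

noncomputable def f_mm_001 : ℕ → ℕ → ℕ → ℕ → Bool := onCell 0 67108864 0 536870912 1046898278 26843546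
    (rowNX 3 0 true false false .up 0 0 1 (qsf 0 67108864 0 536870912 1) ndN4q0 ndN6q0 pcN1 Cut.none Ext.none)

def k0_mm_001 : ∃ t, chk3 f_mm_001 t 1 1 1 = true :=
  ⟨(l 4), by decide +kernel⟩

theorem c_mm_001 : CertNX 0 67108864 0 536870912 1046898278 26843546 3 true false false .up 0 0 1
    ndN4q0 ndN6q0 pcN1 Cut.none Ext.none :=
  certNX0 (fam := true) (s1 := false) (s2 := false) (a := 0) (b := 0) (c := 1) (cn := .up) (n1 := ndN4q0) (n2 := ndN6q0) (pc := pcN1) (cut := Cut.none) (xt := Ext.none) (P1 := 0) (W1 := 67108864) (P2 := 0) (W2 := 536870912) (P3 := 1046898278) (W3 := 26843546) (N0 := 3)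
    rfl k0_mm_001

noncomputable def f_mm_011 : ℕ → ℕ → ℕ → ℕ → Bool := onCell 0 67108864 536870912 469762048 1046898278 26843546
    (rowNX 3 0 true false false .pnn 0 1 1 (qsf 0 67108864 536870912 469762048 1) ndN4q0 ndN6q1 pcN1 Cut.none Ext.none)

def k0_mm_011 : ∃ t, chk3 f_mm_011 t 1 1 1 = true :=
  ⟨(l 4), by decide +kernel⟩

theorem c_mm_011 : CertNX 0 67108864 536870912 469762048 1046898278 26843546 3 true false false .pnn 0 1 1
    ndN4q0 ndN6q1 pcN1 Cut.none Ext.none :=
  certNX0 (fam := true) (s1 := false) (s2 := false) (a := 0) (b := 1) (c := 1) (cn := .pnn) (n1 := ndN4q0) (n2 := ndN6q1) (pc := pcN1) (cut := Cut.none) (xt := Ext.none) (P1 := 0) (W1 := 67108864) (P2 := 536870912) (W2 := 469762048) (P3 := 1046898278) (W3 := 26843546) (N0 := 3)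
    rfl k0_mm_011

noncomputable def f_mm_012 : ℕ → ℕ → ℕ → ℕ → Bool := onCell 0 67108864 536870912 469762048 1046898278 26843546
    (rowNX 3 0 true false false .pnp 0 1 2 (qsf 0 67108864 536870912 469762048 2) ndN4q0 ndN6q1 pcN2 Cut.none Ext.none)

def k0_mm_012 : ∃ t, chk3 f_mm_012 t 1 1 1 = true :=
  ⟨(l 4), by decide +kernel⟩

theorem c_mm_012 : CertNX 0 67108864 536870912 469762048 1046898278 26843546 3 true false false .pnp 0 1 2
    ndN4q0 ndN6q1 pcN2 Cut.none Ext.none :=
  certNX0 (fam := true) (s1 := false) (s2 := false) (a := 0) (b := 1) (c := 2) (cn := .pnp) (n1 := ndN4q0) (n2 := ndN6q1) (pc := pcN2) (cut := Cut.none) (xt := Ext.none) (P1 := 0) (W1 := 67108864) (P2 := 536870912) (W2 := 469762048) (P3 := 1046898278) (W3 := 26843546) (N0 := 3)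
    rfl k0_mm_012

noncomputable def f_mm_022 : ℕ → ℕ → ℕ → ℕ → Bool := onCell 0 67108864 1073741824 536870912 1046898278 26843546
    (rowNX 3 0 true false false .pp 0 2 2 (qsf 0 67108864 1073741824 536870912 2) ndN4q0 ndN6q2 pcN2 Cut.none Ext.none)

def k0_mm_022 : ∃ t, chk3 f_mm_022 t 1 1 1 = true :=
  ⟨(l 4), by decide +kernel⟩

theorem c_mm_022 : CertNX 0 67108864 1073741824 536870912 1046898278 26843546 3 true false false .pp 0 2 2
    ndN4q0 ndN6q2 pcN2 Cut.none Ext.none :=
  certNX0 (fam := true) (s1 := false) (s2 := false) (a := 0) (b := 2) (c := 2) (cn := .pp) (n1 := ndN4q0) (n2 := ndN6q2) (pc := pcN2) (cut := Cut.none) (xt := Ext.none) (P1 := 0) (W1 := 67108864) (P2 := 1073741824) (W2 := 536870912) (P3 := 1046898278) (W3 := 26843546) (N0 := 3)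
    rfl k0_mm_022

noncomputable def f_mm_023 : ℕ → ℕ → ℕ → ℕ → Bool := onCell 0 67108864 1073741824 536870912 1046898278 26843546
    (rowNX 3 0 true false false .up 0 2 3 (qsf 0 67108864 1073741824 536870912 3) ndN4q0 ndN6q2 pcN3 Cut.none Ext.none)

def k0_mm_023 : ∃ t, chk3 f_mm_023 t 1 1 1 = true :=
  ⟨(l 4), by decide +kernel⟩

theorem c_mm_023 : CertNX 0 67108864 1073741824 536870912 1046898278 26843546 3 true false false .up 0 2 3
    ndN4q0 ndN6q2 pcN3 Cut.none Ext.none :=
  certNX0 (fam := true) (s1 := false) (s2 := false) (a := 0) (b := 2) (c := 3) (cn := .up) (n1 := ndN4q0) (n2 := ndN6q2) (pc := pcN3) (cut := Cut.none) (xt := Ext.none) (P1 := 0) (W1 := 67108864) (P2 := 1073741824) (W2 := 536870912) (P3 := 1046898278) (W3 := 26843546) (N0 := 3)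
    rfl k0_mm_023

noncomputable def f_mm_033 : ℕ → ℕ → ℕ → ℕ → Bool := onCell 0 67108864 0 1230186008 1046898278 26843546
    (rowNX 3 0 true false false .pnn 0 3 3 (qsf 0 67108864 0 1230186008 3) ndN4q0 ndN6q3 pcN3 Cut.none Ext.none)

def k0_mm_033 : ∃ t, chk3 f_mm_033 t 1 1 1 = true :=
  ⟨(l 5), by decide +kernel⟩

theorem c_mm_033 : CertNX 0 67108864 0 1230186008 1046898278 26843546 3 true false false .pnn 0 3 3
    ndN4q0 ndN6q3 pcN3 Cut.none Ext.none :=
  certNX0 (fam := true) (s1 := false) (s2 := false) (a := 0) (b := 3) (c := 3) (cn := .pnn) (n1 := ndN4q0) (n2 := ndN6q3) (pc := pcN3) (cut := Cut.none) (xt := Ext.none) (P1 := 0) (W1 := 67108864) (P2 := 0) (W2 := 1230186008) (P3 := 1046898278) (W3 := 26843546) (N0 := 3)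
    rfl k0_mm_033

end Pool.Agent.Strip051.G.IE1.Tab.C.NA46

namespace Pool.Agent.Strip051.G.IE1.Tab.C.NA47

open Pool.Agent.Strip051.PB Pool.Agent.Strip051.PB.T
open Pool.Agent.Strip051.G.IE1.Tab

noncomputable def f_pp_001 : ℕ → ℕ → ℕ → ℕ → Bool := onCell 0 67108864 0 536870912 1046898278 26843546
    (rowNX 3 0 true true true .up 0 0 1 (qsf 0 67108864 0 536870912 1) ndN4q0 ndN7q0 pcN1 Cut.none Ext.none)

def k0_pp_001 : ∃ t, chk3 f_pp_001 t 1 1 1 = true :=
  ⟨(l 4), by decide +kernel⟩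

theorem c_pp_001 : CertNX 0 67108864 0 536870912 1046898278 26843546 3 true true true .up 0 0 1
    ndN4q0 ndN7q0 pcN1 Cut.none Ext.none :=
  certNX0 (fam := true) (s1 := true) (s2 := true) (a := 0) (b := 0) (c := 1) (cn := .up) (n1 := ndN4q0) (n2 := ndN7q0) (pc := pcN1) (cut := Cut.none) (xt := Ext.none) (P1 := 0) (W1 := 67108864) (P2 := 0) (W2 := 536870912) (P3 := 1046898278) (W3 := 26843546) (N0 := 3)
    rfl k0_pp_001

noncomputable def f_pp_011 : ℕ → ℕ → ℕ → ℕ → Bool := onCell 0 67108864 536870912 536870912 1046898278 26843546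
    (rowNX 3 0 true true true .pnn 0 1 1 (qsf 0 67108864 536870912 536870912 1) ndN4q0 ndN7q1 pcN1 Cut.none Ext.none)

def k0_pp_011 : ∃ t, chk3 f_pp_011 t 1 1 1 = true :=
  ⟨(l 4), by decide +kernel⟩

theorem c_pp_011 : CertNX 0 67108864 536870912 536870912 1046898278 26843546 3 true true true .pnn 0 1 1
    ndN4q0 ndN7q1 pcN1 Cut.none Ext.none :=
  certNX0 (fam := true) (s1 := true) (s2 := true) (a := 0) (b := 1) (c := 1) (cn := .pnn) (n1 := ndN4q0) (n2 := ndN7q1) (pc := pcN1) (cut := Cut.none) (xt := Ext.none) (P1 := 0) (W1 := 67108864) (P2 := 536870912) (W2 := 536870912) (P3 := 1046898278) (W3 := 26843546) (N0 := 3)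
    rfl k0_pp_011

noncomputable def f_pp_012 : ℕ → ℕ → ℕ → ℕ → Bool := onCell 0 67108864 536870912 536870912 1046898278 26843546
    (rowNX 3 0 true true true .pnp 0 1 2 (qsf 0 67108864 536870912 536870912 2) ndN4q0 ndN7q1 pcN2 Cut.none Ext.none)

def k0_pp_012 : ∃ t, chk3 f_pp_012 t 1 1 1 = true :=
  ⟨(l 4), by decide +kernel⟩

theorem c_pp_012 : CertNX 0 67108864 536870912 536870912 1046898278 26843546 3 true true true .pnp 0 1 2
    ndN4q0 ndN7q1 pcN2 Cut.none Ext.none :=
  certNX0 (fam := true) (s1 := true) (s2 := true) (a := 0) (b := 1) (c := 2) (cn := .pnp) (n1 := ndN4q0) (n2 := ndN7q1) (pc := pcN2) (cut := Cut.none) (xt := Ext.none) (P1 := 0) (W1 := 67108864) (P2 := 536870912) (W2 := 536870912) (P3 := 1046898278) (W3 := 26843546) (N0 := 3)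
    rfl k0_pp_012

noncomputable def f_pp_022 : ℕ → ℕ → ℕ → ℕ → Bool := onCell 0 67108864 1073741824 536870912 1046898278 26843546
    (rowNX 3 0 true true true .pp 0 2 2 (qsf 0 67108864 1073741824 536870912 2) ndN4q0 ndN7q2 pcN2 Cut.none Ext.none)

def k0_pp_022 : ∃ t, chk3 f_pp_022 t 1 1 1 = true :=
  ⟨(l 4), by decide +kernel⟩

theorem c_pp_022 : CertNX 0 67108864 1073741824 536870912 1046898278 26843546 3 true true true .pp 0 2 2
    ndN4q0 ndN7q2 pcN2 Cut.none Ext.none :=
  certNX0 (fam := true) (s1 := true) (s2 := true) (a := 0) (b := 2) (c := 2) (cn := .pp) (n1 := ndN4q0) (n2 := ndN7q2) (pc := pcN2) (cut := Cut.none) (xt := Ext.none) (P1 := 0) (W1 := 67108864) (P2 := 1073741824) (W2 := 536870912) (P3 := 1046898278) (W3 := 26843546) (N0 := 3)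
    rfl k0_pp_022

noncomputable def f_pp_023 : ℕ → ℕ → ℕ → ℕ → Bool := onCell 0 67108864 1073741824 536870912 1046898278 26843546
    (rowNX 3 0 true true true .up 0 2 3 (qsf 0 67108864 1073741824 536870912 3) ndN4q0 ndN7q2 pcN3 Cut.none Ext.none)

def k0_pp_023 : ∃ t, chk3 f_pp_023 t 1 1 1 = true :=
  ⟨(l 4), by decide +kernel⟩

theorem c_pp_023 : CertNX 0 67108864 1073741824 536870912 1046898278 26843546 3 true true true .up 0 2 3
    ndN4q0 ndN7q2 pcN3 Cut.none Ext.none :=
  certNX0 (fam := true) (s1 := true) (s2 := true) (a := 0) (b := 2) (c := 3) (cn := .up) (n1 := ndN4q0) (n2 := ndN7q2) (pc := pcN3) (cut := Cut.none) (xt := Ext.none) (P1 := 0) (W1 := 67108864) (P2 := 1073741824) (W2 := 536870912) (P3 := 1046898278) (W3 := 26843546) (N0 := 3)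
    rfl k0_pp_023

noncomputable def f_pp_033 : ℕ → ℕ → ℕ → ℕ → Bool := onCell 0 67108864 0 1230186008 1046898278 26843546
    (rowNX 3 0 true true true .pnn 0 3 3 (qsf 0 67108864 0 1230186008 3) ndN4q0 ndN7q3 pcN3 Cut.none Ext.none)

def k0_pp_033 : ∃ t, chk3 f_pp_033 t 1 1 1 = true :=
  ⟨(l 4), by decide +kernel⟩

theorem c_pp_033 : CertNX 0 67108864 0 1230186008 1046898278 26843546 3 true true true .pnn 0 3 3
    ndN4q0 ndN7q3 pcN3 Cut.none Ext.none :=
  certNX0 (fam := true) (s1 := true) (s2 := true) (a := 0) (b := 3) (c := 3) (cn := .pnn) (n1 := ndN4q0) (n2 := ndN7q3) (pc := pcN3) (cut := Cut.none) (xt := Ext.none) (P1 := 0) (W1 := 67108864) (P2 := 0) (W2 := 1230186008) (P3 := 1046898278) (W3 := 26843546) (N0 := 3)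
    rfl k0_pp_033

noncomputable def f_pm_001 : ℕ → ℕ → ℕ → ℕ → Bool := onCell 0 67108864 0 536870912 1046898278 26843546
    (rowNX 3 0 true true false .up 0 0 1 (qsf 0 67108864 0 536870912 1) ndN4q0 ndN7q0 pcN1 Cut.none Ext.none)

def k0_pm_001 : ∃ t, chk3 f_pm_001 t 1 1 1 = true :=
  ⟨(l 3), by decide +kernel⟩

theorem c_pm_001 : CertNX 0 67108864 0 536870912 1046898278 26843546 3 true true false .up 0 0 1
    ndN4q0 ndN7q0 pcN1 Cut.none Ext.none :=
  certNX0 (fam := true) (s1 := true) (s2 := false) (a := 0) (b := 0) (c := 1) (cn := .up) (n1 := ndN4q0) (n2 := ndN7q0) (pc := pcN1) (cut := Cut.none) (xt := Ext.none) (P1 := 0) (W1 := 67108864) (P2 := 0) (W2 := 536870912) (P3 := 1046898278) (W3 := 26843546) (N0 := 3)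
    rfl k0_pm_001

noncomputable def cut_pm_011 : Cut := Cut.of [[⟨0, 0, 0, 67108864⟩, ⟨1, 1, 0, 67108864⟩, ⟨2, 1, 0, 67108864⟩]]

noncomputable def f_pm_011 : ℕ → ℕ → ℕ → ℕ → Bool := onCell 0 67108864 536870912 536870912 1046898278 26843546
    (rowNX 3 1 true true false .pnn 0 1 1 (qsf 0 67108864 536870912 536870912 1) ndN4q0 ndN7q1 pcN1 cut_pm_011 Ext.none)

def k0_pm_011 : ∃ t, chk3 f_pm_011 t 1 1 1 = true :=
  ⟨(b (l 3) (b (l 3) (a (a (b (l 3) (b (l 3) (l 6))) (l 3)) (l 3)))), by decide +kernel⟩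

theorem c_pm_011 : CertNX 0 67108864 536870912 536870912 1046898278 26843546 3 true true false .pnn 0 1 1
    ndN4q0 ndN7q1 pcN1 cut_pm_011 Ext.none :=
  certNX1 (fam := true) (s1 := true) (s2 := false) (a := 0) (b := 1) (c := 1) (cn := .pnn) (n1 := ndN4q0) (n2 := ndN7q1) (pc := pcN1) (cut := cut_pm_011) (xt := Ext.none) (P1 := 0) (W1 := 67108864) (P2 := 536870912) (W2 := 536870912) (P3 := 1046898278) (W3 := 26843546) (N0 := 3)
    rfl (fun _ => rfl) k0_pm_011

noncomputable def cut_pm_012 : Cut := Cut.of [[⟨0, 0, 0, 67108864⟩, ⟨1, 1, 0, 67108864⟩, ⟨2, 1, 0, 67108864⟩]]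

noncomputable def f_pm_012 : ℕ → ℕ → ℕ → ℕ → Bool := onCell 0 67108864 536870912 536870912 1046898278 26843546
    (rowNX 3 0 true true false .pnp 0 1 2 (qsf 0 67108864 536870912 536870912 2) ndN4q0 ndN7q1 pcN2 cut_pm_012 Ext.none)

def k0_pm_012 : ∃ t, chk3 f_pm_012 t 1 1 1 = true :=
  ⟨(b (l 1) (b (l 1) (b (l 3) (b (l 3) (a (l 6) (a (l 6) (a (l 6) (a (l 6) (a (l 6) (c (b (l 3) (b (l 3) (l 15208320))) (b (c (l 3) (b (l 3) (c (l 3) (l 15655440)))) (b (c (l 15405568) (c (b (l 15446032) (l 15338696)) (b (l 15459208) (l 15362664)))) (c (l 15213400) (c (l 15225208) (b (l 15146184) (l 15133432)))))))))))))))), by decide +kernel⟩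

theorem c_pm_012 : CertNX 0 67108864 536870912 536870912 1046898278 26843546 3 true true false .pnp 0 1 2
    ndN4q0 ndN7q1 pcN2 cut_pm_012 Ext.none :=
  certNX0 (fam := true) (s1 := true) (s2 := false) (a := 0) (b := 1) (c := 2) (cn := .pnp) (n1 := ndN4q0) (n2 := ndN7q1) (pc := pcN2) (cut := cut_pm_012) (xt := Ext.none) (P1 := 0) (W1 := 67108864) (P2 := 536870912) (W2 := 536870912) (P3 := 1046898278) (W3 := 26843546) (N0 := 3)
    rfl k0_pm_012

end Pool.Agent.Strip051.G.IE1.Tab.C.NA47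

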