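import Pool.Agent.Strip051.G.IE1.Tab

/-! # Certificates N35 (generated) -/

set_option linter.all false
set_option maxRecDepth 100000

namespace Pool.Agent.Strip051.G.IE1.Tab.C.NA47

open Pool.Agent.Strip051.PB Pool.Agent.Strip051.PB.T
open Pool.Agent.Strip051.G.IE1.Tab

noncomputable def cut_pm_022 : Cut := Cut.of [[⟨0, 0, 0, 67108864⟩, ⟨1, 1, 0, 67108864⟩, ⟨2, 1, 0, 67108864⟩]]

noncomputable def f_pm_022 : ℕ → ℕ → ℕ → ℕ → Bool := onCell 0 67108864 1073741824 536870912 1046898278 26843546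
    (rowNX 3 1 true true false .pp 0 2 2 (qsf 0 67108864 1073741824 536870912 2) ndN4q0 ndN7q2 pcN2 cut_pm_022 Ext.none)

def k0_pm_022 : ∃ t, chk3 f_pm_022 t 1 8 1 = true :=
  ⟨(b (a (l 6) (a (l 6) (l 1))) (b (a (l 6) (a (l 6) (a (l 6) (l 1)))) (b (a (l 6) (a (l 6) (a (l 6) (a (l 6) (l 1))))) (a (b (l 6) (b (l 6) (b (l 6) (b (l 6) (b (l 6) (c (a (c (a (l 16242928) (a (l 16099232) (l 16024776))) (a (c (c (l 16357896) (l 16209904)) (a (l 16351504) (l 16211272))) (c (l 16110520) (c (a (l 16229640) (l 16225560)) (l 16116776))))) (c (a (l 15955976) (l 15821456)) (a (c (l 16042760) (l 16086016)) (l 15850448)))) (a (a (c (a (l 16392616) (c (l 16284328) (l 16327160))) (a (c (a (l 16455768) (l 16412768)) (a (c (l 16480392) (l 16455384)) (l 16452248))) (c (l 16365920) (l 16389016)))) (c (l 16146496) (l 16259520))) (c (c (a (c (l 16072704) (l 16038536)) (c (l 15899872) (l 15897896))) (l 15907264)) (l 16009096))))))))) (b (a (l 6) (a (l 6) (a (l 6) (a (l 6) (l 1))))) (a (b (l 6) (c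 (c (l 15561464) (a (l 15650296) (l 15473104))) (c (c (l 15610240) (a (c (l 15724184) (l 15745768)) (l 15555448))) (c (a (l 15750288) (c (l 15447832) (l 15592608))) (l 15694448))))) (c (c (l 15247232) (l 15256472)) (c (l 15274000) (a (b (l 6) (c (c (l 15400712) (l 15412808)) (l 15427840))) (c (l 15234504) (c (l 15250120) (a (l 15303464) (l 15215512))))))))))))), by decide +kernel⟩

def k1_pm_022 : ∃ t, chk3 f_pm_022 t 2 36 2 = true :=
  ⟨(a (c (a (c (b (l 16234496) (l 15920552)) (b (b (l 16201976) (a (l 16188224) (l 16215920))) (b (a (b (l 16160992) (l 16039472)) (l 16117088)) (c (l 15975936) (l 16099520))))) (c (a (l 15984856) (l 15944904)) (b (a (l 16069360) (l 16048472)) (a (a (c (l 16073296) (l 16056928)) (l 15940264)) (l 15999168))))) (a (c (b (c (b (a (l 16280040) (l 16277296)) (a (l 16264640) (l 16203264))) (a (l 16202848) (b (l 16170608) (l 16156408)))) (c (l 15927304) (l 16103504))) (b (a (l 16288952) (a (l 16210160) (l 16042016))) (l 16114064))) (b (c (a (c (a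 (l 16131968) (l 16154352)) (b (l 16199640) (a (l 16112888) (l 16126032)))) (l 15958416)) (c (a (b (l 16153456) (l 16099784)) (b (l 16119744) (a (l 16095872) (l 16107784)))) (a (l 16147592) (l 16016536)))) (c (a (c (b (l 15942864) (l 15972768)) (l 16000104)) (c (l 16022408) (l 15869128))) (a (l 16017760) (l 15991048)))))) (c (a (b (c (l 15903784) (a (l 16002264) (l 15930520))) (a (l 15915216) (l 15864368))) (b (b (l 15807008) (l 15778440)) (l 15710944))) (a (c (b (c (l 16015336) (l 15795584)) (a (c (l 16003784) (b (l 16027696) (l 15957736))) (l 15916080))) (b (c (a (l 15964936) (l 16002664)) (b (a (l 16104448) (l 16024536)) (l 15873960))) (c (a (l 15880168) (l 15831824)) (l 15890672)))) (c (b (l 15808640) (l 15761384)) (b (b (l 15853920) (l 15705608)) (c (l 15626424) (b (l 15787768) (l 15729008)))))))), by decide +kernel⟩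

def k2_pm_022 : ∃ t, chk3 f_pm_022 t 2 37 2 = true :=
  ⟨(a (c (c (a (b (c (l 15954384) (a (l 15885264) (l 16025008))) (c (b (l 15979720) (l 15882712)) (l 15867504))) (b (a (l 15919344) (l 15876696)) (a (c (l 15843712) (l 15576856)) (c (l 15799696) (l 15786352))))) (a (b (a (l 15974688) (c (l 15782952) (l 15941760))) (l 15863008)) (a (b (c (b (l 15969992) (l 15888936)) (l 15696456)) (c (l 15754384) (l 15739560))) (b (c (l 15906816) (l 15895016)) (c (l 15766240) (l 15727480)))))) (a (b (l 15902640) (l 15843480)) (b (c (a (l 15871352) (l 15865928)) (l 15877024)) (a (l 15767176) (l 15743816))))) (c (a (c (b (l 15813528) (l 15757344)) (b (a (l 15843632) (l 15843800)) (a (c (l 15776016) (l 15739904)) (c (l 15766192) (l 15733224))))) (c (l 15660304) (b (l 15698752) (l 15634256)))) (c (a (b (a (c (b (l 15914552) (l 15820280)) (l 15832312)) (c (l 15829832) (l 15794768))) (a (l 15711656) (l 15663344))) (b (b (l 15722608) (l 15467712)) (c (l 15500624) (l 15531040)))) (b (a (l 15776624)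 (c (l 15455240) (l 15623136))) (l 15590624))))), by decide +kernel⟩

def k3_pm_022 : ∃ t, chk3 f_pm_022 t 3 18 2 = true :=
  ⟨(b (a (c (b (a (l 15552544) (l 15453936)) (l 15230592)) (b (a (c (l 15609376) (l 15629216)) (b (l 15458376) (l 15427512))) (a (c (l 15563304) (c (l 15580760) (l 15532048))) (l 15373240)))) (b (c (l 15019272) (l 15076568)) (c (a (l 15208680) (l 15061200)) (l 15122048)))) (c (a (b (l 15216824) (l 15360656)) (b (a (l 15145200) (l 14993048)) (a (l 15088448) (l 14926760)))) (a (c (a (b (l 15508392) (c (l 15461072) (l 15439888))) (l 15295080)) (b (a (c (l 15516824) (a (l 15535624) (l 15474144))) (l 15337352)) (a (c (l 15370040) (l 15373928)) (c (l 15283672) (l 15273520))))) (b (l 14887424) (a (l 15097360) (l 14962952)))))), by decide +kernel⟩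

def k4_pm_022 : ∃ t, chk3 f_pm_022 t 2 18 3 = true :=
  ⟨(b (a (a (c (a (b (c (l 16309112) (l 16186088)) (l 16057688)) (b (c (l 16199704) (a (l 16272688) (l 16251728))) (a (l 15975112) (l 15924256)))) (c (a (b (a (l 16359360) (c (l 16305928) (l 16349376))) (a (l 16234728) (l 16194760))) (b (a (l 16226528) (l 16276440)) (l 16125976))) (a (a (c (l 16182280) (a (l 16185504) (l 16272480))) (l 16133616)) (b (l 16292472) (l 16168264))))) (c (b (a (l 16061256) (l 16116984)) (a (l 16058496) (l 15994208))) (b (c (l 16133392) (l 16176824)) (l 15879352)))) (c (b (c (a (c (b (l 15894496) (l 15962656)) (l 15984232)) (a (c (l 15722848) (l 15855824)) (c (l 15806528) (l 15782000)))) (a (l 15990520) (l 15834168))) (c (a (l 15873336) (c (a (l 15755448) (l 15700176)) (l 15712688))) (l 15799856))) (b (l 15948600) (l 15829784)))) (a (a (c (a (b (l 16046408) (l 15916144)) (c (b (l 15962208) (l 15833656)) (b (l 15944184) (l 15856592)))) (a (c (a (l 16027208) (l 15989464)) (a (c (l 16042504)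 (l 16011592)) (l 16015640))) (c (b (l 16011224) (l 15880920)) (l 15960384)))) (c (a (b (l 15932032) (l 15804064)) (l 15726776)) (b (l 15910000) (l 15779896)))) (c (b (l 15686344) (l 15572752)) (b (l 15704000) (l 15579000))))), by decide +kernel⟩

def k5_pm_022 : ∃ t, chk3 f_pm_022 t 3 18 3 = true :=
  ⟨(b (c (a (c (b (a (c (l 15661760) (b (l 15692872) (l 15668808))) (l 15491200)) (a (c (b (l 15623000) (l 15574552)) (l 15528088)) (c (l 15428048) (b (l 15454976) (l 15430760))))) (b (a (c (b (l 15652776) (l 15667032)) (l 15692920)) (c (l 15410240) (b (a (l 15604536) (l 15507584)) (l 15516304)))) (a (l 15581984) (c (b (l 15472864) (l 15424448)) (l 15445032))))) (b (a (b (l 15350456) (l 15294048)) (l 15158376)) (c (l 14939832) (a (c (l 15278688) (b (l 15304304) (l 15275408))) (l 15110776))))) (a (b (a (l 15711688) (c (c (l 15348976) (l 15543640)) (l 15560224))) (l 15528600)) (b (c (a (c (b (l 15384176) (l 15179216)) (b (a (l 15446648) (l 15352784)) (l 15359296))) (b (l 15212608)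 (c (l 15179128) (l 15187384)))) (a (l 15397232) (c (b (a (l 15272552) (l 15183952)) (l 15063240)) (b (l 15173400) (l 15202176))))) (c (a (l 15297200) (c (b (l 15146768) (l 15107800)) (b (l 15148168) (l 15115600)))) (l 15215792))))) (c (a (c (b (a (c (l 15490680) (l 15468304)) (c (l 15278248) (l 15353912))) (a (l 15363792) (l 15264960))) (l 15357640)) (c (b (a (c (l 15199656) (b (l 15222600) (l 15198640))) (l 15043288)) (a (c (l 15134856) (l 15123184)) (c (l 14975680) (l 14968112)))) (b (a (c (l 15209648) (l 15204680)) (c (l 15047136) (b (l 15068872) (l 15040008)))) (a (l 15102872) (l 14913024))))) (a (l 15366288) (b (a (l 15201200) (l 14991872)) (l 15031360))))), by decide +kernel⟩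

def k6_pm_022 : ∃ t, chk3 f_pm_022 t 2 19 2 = true :=
  ⟨(b (a (b (c (b (a (l 15743688) (c (a (l 15696416) (l 15629088)) (l 15646704))) (a (l 15724272) (c (a (l 15619984) (l 15601560)) (l 15592976)))) (a (b (l 15772704) (a (l 15756920) (l 15673088))) (a (l 15610480) (l 15630768)))) (a (a (l 15736608) (l 15565608)) (c (a (l 15576664) (l 15549784)) (a (l 15591816) (l 15570664))))) (c (b (a (c (c (l 15672784) (b (l 15693696) (l 15478296))) (a (l 15567960) (c (b (l 15664736) (l 15569312)) (l 15571216)))) (c (l 15476960) (b (l 15567240) (c (l 15531424) (l 15468624))))) (a (c (c (l 15596920) (l 15551056)) (l 15526088)) (c (c (l 15564384) (l 15526280)) (c (l 15483488) (l 15419104))))) (b (a (l 15558760) (c (l 15450328) (l 15409784))) (l 15436704)))) (b (a (a (c (l 15705472) (a (l 15777904) (l 15646296))) (c (l 15343368) (a (l 15569272) (l 15538768)))) (c (c (a (l 15502304) (c (l 15510080) (l 15442448))) (l 15377424)) (l 15407544))) (a (a (c (l 15773520) (l 15812024)) (c (a (l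 15576080) (l 15500432)) (a (l 15624616) (l 15551064)))) (a (c (l 15456520) (l 15449376)) (c (l 15380048) (l 15311360)))))), by decide +kernel⟩

def k7_pm_022 : ∃ t, chk3 f_pm_022 t 2 19 3 = true :=
  ⟨(b (a (b (a (c (a (l 15796728) (c (b (l 15740400) (l 15685672)) (l 15738152))) (a (c (a (l 15835136) (l 15799472)) (a (c (l 15846496) (l 15854856)) (l 15820248))) (c (l 15758464) (l 15768056)))) (c (b (l 15679776) (a (l 15654640) (l 15597912))) (b (l 15688376) (l 15632880)))) (a (c (a (l 15756400) (l 15678904)) (a (c (l 15784584) (a (l 15823008) (l 15785184))) (l 15726488))) (c (l 15492184) (l 15617728)))) (b (b (l 15239680) (c (l 15433064) (l 15431576))) (c (l 15404496) (l 15407520)))) (a (a (a (c (l 15814008) (c (l 15730704) (a (l 15854536) (l 15920224)))) (c (b (l 15473736) (l 15808232)) (b (l 15764464) (l 15878688)))) (c (b (l 15507768) (l 15648920)) (b (l 15627096) (l 15694104)))) (b (c (l 15380152) (l 15398904)) (c (l 15248464) (l 15416592))))), by decide +kernel⟩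

def k8_pm_022 : ∃ t, chk3 f_pm_022 t 3 19 1 = true :=
  ⟨(c (b (c (a (b (c (l 15309888) (a (l 15353056) (l 15217544))) (c (l 15292288) (a (c (l 15375544) (l 15335152)) (l 15215528)))) (b (l 14880976) (l 14966592))) (a (b (c (a (b (l 15374840) (c (l 15334704) (l 15273288))) (b (l 15233104) (l 15048136))) (a (l 15272864) (c (l 15183888) (l 15149808)))) (c (a (l 15263664) (c (l 15180976) (l 15150064))) (l 15166320))) (b (c (l 14969328) (a (b (l 15082544) (l 15041248)) (l 14899624))) (c (a (l 15047776) (l 14895928)) (a (l 15020576) (l 14900232)))))) (a (c (b (c (a (l 15387272) (l 15253152)) (a (l 15108176) (l 15197504))) (c (a (l 15255200) (l 15229304)) (a (l 15231128) (l 15156992)))) (b (l 15055656) (l 15122432))) (c (c (a (l 15060760) (l 14912536)) (a (b (l 15065736) (l 15042840)) (b (l 14912152) (l 14925024)))) (c (b (a (l 15028600) (l 14916080)) (a (l 14963728) (l 14891368))) (b (l 14890344) (l 14882336)))))) (b (a (b (l 15199584) (l 15150600)) (b (c (c (a (l 14873016)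 (b (l 14930368) (l 14889128))) (l 14942600)) (l 14934976)) (c (c (l 14929176) (l 14901760)) (l 14891088)))) (a (b (l 15128192) (l 15113192)) (l 14873920)))), by decide +kernel⟩

def k9_pm_022 : ∃ t, chk3 f_pm_022 t 2 20 1 = true :=
  ⟨(b (a (c (a (b (c (l 15878128) (l 15935072)) (a (l 16116280) (l 15974424))) (c (b (a (l 15669264) (l 15573560)) (l 15757904)) (a (l 15758408) (l 15732424)))) (a (a (c (l 15931408) (c (l 15944096) (c (l 15972584) (l 16012864)))) (c (b (l 15918272) (l 15981864)) (b (l 16017592) (l 16107512)))) (c (b (l 15770352) (l 15919216)) (l 15755640)))) (c (b (a (c (l 15478232) (l 15497520)) (l 15270416)) (a (c (l 15580512) (l 15632640)) (c (l 15383624) (l 15380448)))) (b (a (l 15549384) (l 15345032)) (a (l 15693928) (l 15442632))))) (b (a (c (a (l 16022112) (a (c (l 15973232) (l 16061472)) (l 15702152))) (a (c (a (l 16318712) (l 16131376)) (a (c (l 16189456) (l 16027312)) (l 16238664))) (c (l 15987816) (l 16133736)))) (c (a (l 15562480) (l 15542960)) (l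 15517336))) (a (c (b (a (c (l 16330112) (l 16143832)) (c (l 16042808) (l 16023288))) (a (b (l 16039152) (a (l 16093504) (l 16099000))) (b (c (l 16197536) (l 16213944)) (c (l 16210112) (a (l 16326560) (l 16312480)))))) (b (a (c (a (l 16159328) (l 16125016)) (a (c (a (l 16082152) (l 16129616)) (l 15900704)) (l 16109856))) (c (l 16184856) (l 16308632))) (a (b (c (a (l 16071920) (l 16118752)) (a (c (l 16011136) (l 15926208)) (l 16067928))) (a (c (l 15999912) (c (l 15858584) (a (l 15807680) (l 15931048)))) (c (a (l 16062464) (l 16076056)) (l 15935512)))) (b (c (l 16306448) (l 16305184)) (c (l 16100408) (l 16169888)))))) (b (c (a (l 15724808) (l 15710656)) (c (l 15816824) (l 15897976))) (c (a (b (l 16008416) (c (l 16109672) (l 16157456))) (b (l 15832560) (l 15914272))) (b (l 15861640) (a (l 16123776) (l 15968296)))))))), by decide +kernel⟩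

def k10_pm_022 : ∃ t, chk3 f_pm_022 t 3 20 1 = true :=
  ⟨(b (c (c (a (b (c (a (l 15243104) (l 15178256)) (l 15131608)) (a (l 15198744) (l 15066088))) (b (c (a (l 15067776) (l 14939352)) (a (l 14999144) (l 14897744))) (c (a (l 15014352) (l 14908400)) (a (l 14909120) (l 14851168))))) (a (b (l 15100168) (l 15106464)) (b (l 14865520) (l 14840032)))) (b (a (l 15117000) (l 14846616)) (a (l 15160336) (l 14861816)))) (b (c (a (b (l 15009648) (l 15222544)) (c (c (a (l 14944528) (b (l 14868064) (l 14822760))) (l 14861840)) (l 14870216))) (a (l 15276496) (l 14936416))) (b (a (c (l 15332808) (l 15413848)) (c (c (a (l 15006784) (l 14856872)) (l 14965240)) (l 15039472))) (a (c (b (l 15456624) (l 15544288)) (b (l 15526800) (l 15607008))) (c (b (l 14823680) (a (l 15199456) (l 15047864))) (b (l 15132168) (l 15197376))))))), by decide +kernel⟩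

def k11_pm_022 : ∃ t, chk3 f_pm_022 t 1 21 1 = true :=
  ⟨(a (a (c (a (b (c (l 15987744) (l 15847432)) (l 15687440)) (c (b (l 16097656) (a (l 15979864) (l 16056552))) (b (a (l 16154552) (l 16227440)) (l 15701536)))) (a (c (a (l 15593440) (b (l 15880152) (l 15732248))) (a (b (c (l 15786752) (l 15685832)) (c (l 15585336) (l 15551240))) (b (l 15880760) (l 15656016)))) (b (c (l 15973736) (l 16048128)) (c (l 15798688) (l 15816544))))) (c (a (b (l 16059736) (c (l 16142424) (l 16074880))) (l 15952192)) (b (l 15996840) (a (l 15932184) (l 16250560))))) (a (a (c (l 15741104) (l 15810448)) (c (l 15614560) (l 15754280))) (c (a (l 15428176) (l 15050352)) (b (l 15323584) (l 15566560))))), by decide +kernel⟩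

def k12_pm_022 : ∃ t, chk3 f_pm_022 t 1 11 1 = true :=
  ⟨(a (b (a (c (a (l 15253120) (c (l 15550392) (l 15371360))) (a (c (a (l 15366472) (l 15457528)) (a (c (l 15327120) (l 15298864)) (l 15392408))) (c (l 15562288) (l 15527664)))) (c (a (c (l 15699736) (l 15703408)) (b (l 16044216) (l 15811528))) (b (a (l 15819112) (l 15994792)) (l 15704608)))) (a (c (a (l 15100904) (c (l 15306760) (l 15235464))) (a (c (l 14821144) (a (l 14687944) (l 15016736))) (c (l 15177960) (l 15146904)))) (c (a (l 15333928) (l 15518856)) (l 15413200)))) (b (a (c (b (l 16146072) (l 15972224)) (b (l 16180048) (l 15995392))) (c (a (l 15908264) (l 15661832)) (l 15738368))) (c (a (l 15682928) (a (l 16045960) (l 16172096))) (a (l 15746736) (l 15986208))))), by decide +kernel⟩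

def k13_pm_022 : ∃ t, chk3 f_pm_022 t 1 3 1 = true :=
  ⟨(b (a (a (b (c (a (b (l 14761808) (l 14449280)) (c (l 14812200) (l 14521048))) (a (c (b (l 14681440) (l 14358760)) (c (l 14303160) (l 14419448))) (c (l 14662984) (l 14621520)))) (c (b (a (l 14197824) (l 14194248)) (l 14105752)) (a (b (c (l 14098576) (l 14028136)) (l 14007072)) (b (l 14186680) (l 14087688))))) (b (b (c (l 15033816) (l 15060376)) (c (l 14804992) (l 14734320))) (c (b (l 14519072) (l 14353640)) (b (l 14435384) (l 14261976))))) (b (c (a (l 15267088) (b (l 15677280) (l 15469536))) (a (l 15226744) (l 15541424))) (c (a (l 14647544) (l 15049160)) (b (l 14923512) (l 14671304))))) (a (c (a (b (a (l 14146400) (l 14246648)) (l 14189640)) (b (l 14337520) (l 14337520))) (a (a (b (l 14007072) (l 14007072)) (l 14087688)) (l 14245048))) (c (b (a (l 14543928) (l 14768272)) (l 14644168)) (b (l 14548696) (l 14540928))))), by decide +kernel⟩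

theorem s14_pm_022 : ∃ t, chk3 f_pm_022 t 1 20 1 = true := ex3_a k9_pm_022 k10_pm_022

theorem s15_pm_022 : ∃ t, chk3 f_pm_022 t 1 10 1 = true := ex3_b s14_pm_022 k11_pm_022

theorem s16_pm_022 : ∃ t, chk3 f_pm_022 t 1 5 1 = true := ex3_b s15_pm_022 k12_pm_022

theorem s17_pm_022 : ∃ t, chk3 f_pm_022 t 2 19 1 = true := ex3_c k6_pm_022 k7_pm_022

theorem s18_pm_022 : ∃ t, chk3 f_pm_022 t 1 19 1 = true := ex3_a s17_pm_022 k8_pm_022

theorem s19_pm_022 : ∃ t, chk3 f_pm_022 t 1 18 3 = true := ex3_a k4_pm_022 k5_pm_022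

theorem s20_pm_022 : ∃ t, chk3 f_pm_022 t 2 18 2 = true := ex3_b k1_pm_022 k2_pm_022

theorem s21_pm_022 : ∃ t, chk3 f_pm_022 t 1 18 2 = true := ex3_a s20_pm_022 k3_pm_022

theorem s22_pm_022 : ∃ t, chk3 f_pm_022 t 1 18 1 = true := ex3_c s21_pm_022 s19_pm_022

theorem s23_pm_022 : ∃ t, chk3 f_pm_022 t 1 9 1 = true := ex3_b s22_pm_022 s18_pm_022

theorem s24_pm_022 : ∃ t, chk3 f_pm_022 t 1 4 1 = true := ex3_b k0_pm_022 s23_pm_022

theorem s25_pm_022 : ∃ t, chk3 f_pm_022 t 1 2 1 = true := ex3_b s24_pm_022 s16_pm_022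

theorem s26_pm_022 : ∃ t, chk3 f_pm_022 t 1 1 1 = true := ex3_b s25_pm_022 k13_pm_022

theorem c_pm_022 : CertNX 0 67108864 1073741824 536870912 1046898278 26843546 3 true true false .pp 0 2 2
    ndN4q0 ndN7q2 pcN2 cut_pm_022 Ext.none :=
  certNX1 (fam := true) (s1 := true) (s2 := false) (a := 0) (b := 2) (c := 2) (cn := .pp) (n1 := ndN4q0) (n2 := ndN7q2) (pc := pcN2) (cut := cut_pm_022) (xt := Ext.none) (P1 := 0) (W1 := 67108864) (P2 := 1073741824) (W2 := 536870912) (P3 := 1046898278) (W3 := 26843546) (N0 := 3)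
    rfl (fun _ => rfl) s26_pm_022

noncomputable def f_pm_023 : ℕ → ℕ → ℕ → ℕ → Bool := onCell 0 67108864 1073741824 536870912 1046898278 26843546
    (rowNX 3 0 true true false .up 0 2 3 (qsf 0 67108864 1073741824 536870912 3) ndN4q0 ndN7q2 pcN3 Cut.none Ext.none)

def k0_pm_023 : ∃ t, chk3 f_pm_023 t 1 1 1 = true :=
  ⟨(b (l 1) (b (l 1) (a (b (l 1) (a (a (l 854189286199) (l 421471551399)) (l 456368312919))) (c (l 551395211639) (l 14457040))))), by decide +kernel⟩

theorem c_pm_023 : CertNX 0 67108864 1073741824 536870912 1046898278 26843546 3 true true false .up 0 2 3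
    ndN4q0 ndN7q2 pcN3 Cut.none Ext.none :=
  certNX0 (fam := true) (s1 := true) (s2 := false) (a := 0) (b := 2) (c := 3) (cn := .up) (n1 := ndN4q0) (n2 := ndN7q2) (pc := pcN3) (cut := Cut.none) (xt := Ext.none) (P1 := 0) (W1 := 67108864) (P2 := 1073741824) (W2 := 536870912) (P3 := 1046898278) (W3 := 26843546) (N0 := 3)
    rfl k0_pm_023

noncomputable def f_pm_033 : ℕ → ℕ → ℕ → ℕ → Bool := onCell 0 67108864 0 1230186008 1046898278 26843546
    (rowNX 3 0 true true false .pnn 0 3 3 (qsf 0 67108864 0 1230186008 3) ndN4q0 ndN7q3 pcN3 Cut.none Ext.none)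

def k0_pm_033 : ∃ t, chk3 f_pm_033 t 1 1 1 = true :=
  ⟨(b (b (l 4) (b (l 4) (a (b (a (c (l 4) (c (l 4) (l 57137143831))) (l 4)) (a (c (l 14184800) (a (l 14002136) (l 14079216))) (c (l 14329704) (l 14232128)))) (b (l 4) (a (b (l 4) (l 14479672)) (l 4)))))) (c (b (b (a (b (a (b (l 14189728) (l 14189608)) (l 14337224)) (a (l 14189584) (l 14337480))) (b (a (l 14538096) (l 14751456)) (a (l 14544440) (l 14758664)))) (a (a (b (l 14189608) (l 14189632)) (l 14337496)) (b (l 14644112) (l 14644136)))) (a (b (a (l 14105752) (l 14337520)) (a (b (l 14189640) (l 14189640)) (l 14337520))) (b (l 14644168) (b (l 14644168) (l 14644168))))) (b (b (a (b (a (b (l 14052088) (l 14052072)) (l 14243824)) (a (l 14052048) (l 14245000))) (b (a (l 14441760) (l 14626264)) (a (l 14449224) (l 14638040)))) (a (a (b (l 13905288) (l 13947256)) (l 14245024)) (l 14540912))) (b (a (a (c (l 14088448) (l 13914504)) (l 14245048)) (l 14540928)) (a (a (b (l 13989200) (l 13989200)) (l 14245048)) (l 14540928)))))),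 by decide +kernel⟩

theorem c_pm_033 : CertNX 0 67108864 0 1230186008 1046898278 26843546 3 true true false .pnn 0 3 3
    ndN4q0 ndN7q3 pcN3 Cut.none Ext.none :=
  certNX0 (fam := true) (s1 := true) (s2 := false) (a := 0) (b := 3) (c := 3) (cn := .pnn) (n1 := ndN4q0) (n2 := ndN7q3) (pc := pcN3) (cut := Cut.none) (xt := Ext.none) (P1 := 0) (W1 := 67108864) (P2 := 0) (W2 := 1230186008) (P3 := 1046898278) (W3 := 26843546) (N0 := 3)
    rfl k0_pm_033

noncomputable def f_mm_001 : ℕ → ℕ → ℕ → ℕ → Bool := onCell 0 67108864 0 536870912 1046898278 26843546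
    (rowNX 3 0 true false false .up 0 0 1 (qsf 0 67108864 0 536870912 1) ndN4q0 ndN7q0 pcN1 Cut.none Ext.none)

def k0_mm_001 : ∃ t, chk3 f_mm_001 t 1 1 1 = true :=
  ⟨(l 4), by decide +kernel⟩

theorem c_mm_001 : CertNX 0 67108864 0 536870912 1046898278 26843546 3 true false false .up 0 0 1
    ndN4q0 ndN7q0 pcN1 Cut.none Ext.none :=
  certNX0 (fam := true) (s1 := false) (s2 := false) (a := 0) (b := 0) (c := 1) (cn := .up) (n1 := ndN4q0) (n2 := ndN7q0) (pc := pcN1) (cut := Cut.none) (xt := Ext.none) (P1 := 0) (W1 := 67108864) (P2 := 0) (W2 := 536870912) (P3 := 1046898278) (W3 := 26843546) (N0 := 3)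
    rfl k0_mm_001

noncomputable def f_mm_011 : ℕ → ℕ → ℕ → ℕ → Bool := onCell 0 67108864 536870912 536870912 1046898278 26843546
    (rowNX 3 0 true false false .pnn 0 1 1 (qsf 0 67108864 536870912 536870912 1) ndN4q0 ndN7q1 pcN1 Cut.none Ext.none)

def k0_mm_011 : ∃ t, chk3 f_mm_011 t 1 1 1 = true :=
  ⟨(l 4), by decide +kernel⟩

theorem c_mm_011 : CertNX 0 67108864 536870912 536870912 1046898278 26843546 3 true false false .pnn 0 1 1
    ndN4q0 ndN7q1 pcN1 Cut.none Ext.none :=
  certNX0 (fam := true) (s1 := false) (s2 := false) (a := 0) (b := 1) (c := 1) (cn := .pnn) (n1 := ndN4q0) (n2 := ndN7q1) (pc := pcN1) (cut := Cut.none) (xt := Ext.none) (P1 := 0) (W1 := 67108864) (P2 := 536870912) (W2 := 536870912) (P3 := 1046898278) (W3 := 26843546) (N0 := 3)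
    rfl k0_mm_011

noncomputable def f_mm_012 : ℕ → ℕ → ℕ → ℕ → Bool := onCell 0 67108864 536870912 536870912 1046898278 26843546
    (rowNX 3 0 true false false .pnp 0 1 2 (qsf 0 67108864 536870912 536870912 2) ndN4q0 ndN7q1 pcN2 Cut.none Ext.none)

def k0_mm_012 : ∃ t, chk3 f_mm_012 t 1 1 1 = true :=
  ⟨(l 4), by decide +kernel⟩

theorem c_mm_012 : CertNX 0 67108864 536870912 536870912 1046898278 26843546 3 true false false .pnp 0 1 2
    ndN4q0 ndN7q1 pcN2 Cut.none Ext.none :=
  certNX0 (fam := true) (s1 := false) (s2 := false) (a := 0) (b := 1) (c := 2) (cn := .pnp) (n1 := ndN4q0) (n2 := ndN7q1) (pc := pcN2) (cut := Cut.none) (xt := Ext.none) (P1 := 0) (W1 := 67108864) (P2 := 536870912) (W2 := 536870912) (P3 := 1046898278) (W3 := 26843546) (N0 := 3)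
    rfl k0_mm_012

noncomputable def f_mm_022 : ℕ → ℕ → ℕ → ℕ → Bool := onCell 0 67108864 1073741824 536870912 1046898278 26843546
    (rowNX 3 0 true false false .pp 0 2 2 (qsf 0 67108864 1073741824 536870912 2) ndN4q0 ndN7q2 pcN2 Cut.none Ext.none)

def k0_mm_022 : ∃ t, chk3 f_mm_022 t 1 1 1 = true :=
  ⟨(l 4), by decide +kernel⟩

theorem c_mm_022 : CertNX 0 67108864 1073741824 536870912 1046898278 26843546 3 true false false .pp 0 2 2
    ndN4q0 ndN7q2 pcN2 Cut.none Ext.none :=
  certNX0 (fam := true) (s1 := false) (s2 := false) (a := 0) (b := 2) (c := 2) (cn := .pp) (n1 := ndN4q0) (n2 := ndN7q2) (pc := pcN2) (cut := Cut.none) (xt := Ext.none) (P1 := 0) (W1 := 67108864) (P2 := 1073741824) (W2 := 536870912) (P3 := 1046898278) (W3 := 26843546) (N0 := 3)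
    rfl k0_mm_022

noncomputable def f_mm_023 : ℕ → ℕ → ℕ → ℕ → Bool := onCell 0 67108864 1073741824 536870912 1046898278 26843546
    (rowNX 3 0 true false false .up 0 2 3 (qsf 0 67108864 1073741824 536870912 3) ndN4q0 ndN7q2 pcN3 Cut.none Ext.none)

def k0_mm_023 : ∃ t, chk3 f_mm_023 t 1 1 1 = true :=
  ⟨(l 4), by decide +kernel⟩

theorem c_mm_023 : CertNX 0 67108864 1073741824 536870912 1046898278 26843546 3 true false false .up 0 2 3
    ndN4q0 ndN7q2 pcN3 Cut.none Ext.none :=
  certNX0 (fam := true) (s1 := false) (s2 := false) (a := 0) (b := 2) (c := 3) (cn := .up) (n1 := ndN4q0) (n2 := ndN7q2) (pc := pcN3) (cut := Cut.none) (xt := Ext.none) (P1 := 0) (W1 := 67108864) (P2 := 1073741824) (W2 := 536870912) (P3 := 1046898278) (W3 := 26843546) (N0 := 3)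
    rfl k0_mm_023

noncomputable def f_mm_033 : ℕ → ℕ → ℕ → ℕ → Bool := onCell 0 67108864 0 1230186008 1046898278 26843546
    (rowNX 3 0 true false false .pnn 0 3 3 (qsf 0 67108864 0 1230186008 3) ndN4q0 ndN7q3 pcN3 Cut.none Ext.none)

def k0_mm_033 : ∃ t, chk3 f_mm_033 t 1 1 1 = true :=
  ⟨(l 4), by decide +kernel⟩

theorem c_mm_033 : CertNX 0 67108864 0 1230186008 1046898278 26843546 3 true false false .pnn 0 3 3
    ndN4q0 ndN7q3 pcN3 Cut.none Ext.none :=
  certNX0 (fam := true) (s1 := false) (s2 := false) (a := 0) (b := 3) (c := 3) (cn := .pnn) (n1 := ndN4q0) (n2 := ndN7q3) (pc := pcN3) (cut := Cut.none) (xt := Ext.none) (P1 := 0) (W1 := 67108864) (P2 := 0) (W2 := 1230186008) (P3 := 1046898278) (W3 := 26843546) (N0 := 3)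
    rfl k0_mm_033

end Pool.Agent.Strip051.G.IE1.Tab.C.NA47

namespace Pool.Agent.Strip051.G.IE1.Tab.C.NA55

open Pool.Agent.Strip051.PB Pool.Agent.Strip051.PB.T
open Pool.Agent.Strip051.G.IE1.Tab

noncomputable def f_pp_001 : ℕ → ℕ → ℕ → ℕ → Bool := onCell 0 536870912 0 536870912 1046898278 26843546
    (rowNX 3 0 true true true .up 0 0 1 (qsf 0 536870912 0 536870912 1) ndN5q0 ndN5q0 pcN1 Cut.none Ext.none)

def k0_pp_001 : ∃ t, chk3 f_pp_001 t 1 1 1 = true :=
  ⟨(l 4), by decide +kernel⟩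

theorem c_pp_001 : CertNX 0 536870912 0 536870912 1046898278 26843546 3 true true true .up 0 0 1
    ndN5q0 ndN5q0 pcN1 Cut.none Ext.none :=
  certNX0 (fam := true) (s1 := true) (s2 := true) (a := 0) (b := 0) (c := 1) (cn := .up) (n1 := ndN5q0) (n2 := ndN5q0) (pc := pcN1) (cut := Cut.none) (xt := Ext.none) (P1 := 0) (W1 := 536870912) (P2 := 0) (W2 := 536870912) (P3 := 1046898278) (W3 := 26843546) (N0 := 3)
    rfl k0_pp_001

noncomputable def f_pp_011 : ℕ → ℕ → ℕ → ℕ → Bool := onCell 0 536870912 536870912 469762048 1046898278 26843546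
    (rowNX 3 0 true true true .pnn 0 1 1 (qsf 0 536870912 536870912 469762048 1) ndN5q0 ndN5q1 pcN1 Cut.none Ext.none)

def k0_pp_011 : ∃ t, chk3 f_pp_011 t 1 1 1 = true :=
  ⟨(l 4), by decide +kernel⟩

theorem c_pp_011 : CertNX 0 536870912 536870912 469762048 1046898278 26843546 3 true true true .pnn 0 1 1
    ndN5q0 ndN5q1 pcN1 Cut.none Ext.none :=
  certNX0 (fam := true) (s1 := true) (s2 := true) (a := 0) (b := 1) (c := 1) (cn := .pnn) (n1 := ndN5q0) (n2 := ndN5q1) (pc := pcN1) (cut := Cut.none) (xt := Ext.none) (P1 := 0) (W1 := 536870912) (P2 := 536870912) (W2 := 469762048) (P3 := 1046898278) (W3 := 26843546) (N0 := 3)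
    rfl k0_pp_011

noncomputable def f_pp_012 : ℕ → ℕ → ℕ → ℕ → Bool := onCell 0 536870912 536870912 469762048 1046898278 26843546
    (rowNX 3 0 true true true .pnp 0 1 2 (qsf 0 536870912 536870912 469762048 2) ndN5q0 ndN5q1 pcN2 Cut.none Ext.none)

def k0_pp_012 : ∃ t, chk3 f_pp_012 t 1 1 1 = true :=
  ⟨(l 4), by decide +kernel⟩

theorem c_pp_012 : CertNX 0 536870912 536870912 469762048 1046898278 26843546 3 true true true .pnp 0 1 2
    ndN5q0 ndN5q1 pcN2 Cut.none Ext.none :=
  certNX0 (fam := true) (s1 := true) (s2 := true) (a := 0) (b := 1) (c := 2) (cn := .pnp) (n1 := ndN5q0) (n2 := ndN5q1) (pc := pcN2) (cut := Cut.none) (xt := Ext.none) (P1 := 0) (W1 := 536870912) (P2 := 536870912) (W2 := 469762048) (P3 := 1046898278) (W3 := 26843546) (N0 := 3)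
    rfl k0_pp_012

noncomputable def f_pp_022 : ℕ → ℕ → ℕ → ℕ → Bool := onCell 0 536870912 1073741824 536870912 1046898278 26843546
    (rowNX 3 0 true true true .pp 0 2 2 (qsf 0 536870912 1073741824 536870912 2) ndN5q0 ndN5q2 pcN2 Cut.none Ext.none)

def k0_pp_022 : ∃ t, chk3 f_pp_022 t 1 1 1 = true :=
  ⟨(l 4), by decide +kernel⟩

theorem c_pp_022 : CertNX 0 536870912 1073741824 536870912 1046898278 26843546 3 true true true .pp 0 2 2
    ndN5q0 ndN5q2 pcN2 Cut.none Ext.none :=
  certNX0 (fam := true) (s1 := true) (s2 := true) (a := 0) (b := 2) (c := 2) (cn := .pp) (n1 := ndN5q0) (n2 := ndN5q2) (pc := pcN2) (cut := Cut.none) (xt := Ext.none) (P1 := 0) (W1 := 536870912) (P2 := 1073741824) (W2 := 536870912) (P3 := 1046898278) (W3 := 26843546) (N0 := 3)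
    rfl k0_pp_022

noncomputable def f_pp_023 : ℕ → ℕ → ℕ → ℕ → Bool := onCell 0 536870912 1073741824 536870912 1046898278 26843546
    (rowNX 3 0 true true true .up 0 2 3 (qsf 0 536870912 1073741824 536870912 3) ndN5q0 ndN5q2 pcN3 Cut.none Ext.none)

def k0_pp_023 : ∃ t, chk3 f_pp_023 t 1 1 1 = true :=
  ⟨(l 4), by decide +kernel⟩

theorem c_pp_023 : CertNX 0 536870912 1073741824 536870912 1046898278 26843546 3 true true true .up 0 2 3
    ndN5q0 ndN5q2 pcN3 Cut.none Ext.none :=
  certNX0 (fam := true) (s1 := true) (s2 := true) (a := 0) (b := 2) (c := 3) (cn := .up) (n1 := ndN5q0) (n2 := ndN5q2) (pc := pcN3) (cut := Cut.none) (xt := Ext.none) (P1 := 0) (W1 := 536870912) (P2 := 1073741824) (W2 := 536870912) (P3 := 1046898278) (W3 := 26843546) (N0 := 3)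
    rfl k0_pp_023

noncomputable def f_pp_033 : ℕ → ℕ → ℕ → ℕ → Bool := onCell 0 536870912 0 1230186008 1046898278 26843546
    (rowNX 3 0 true true true .pnn 0 3 3 (qsf 0 536870912 0 1230186008 3) ndN5q0 ndN5q3 pcN3 Cut.none Ext.none)

def k0_pp_033 : ∃ t, chk3 f_pp_033 t 1 1 1 = true :=
  ⟨(b (l 4) (l 4)), by decide +kernel⟩

theorem c_pp_033 : CertNX 0 536870912 0 1230186008 1046898278 26843546 3 true true true .pnn 0 3 3
    ndN5q0 ndN5q3 pcN3 Cut.none Ext.none :=
  certNX0 (fam := true) (s1 := true) (s2 := true) (a := 0) (b := 3) (c := 3) (cn := .pnn) (n1 := ndN5q0) (n2 := ndN5q3) (pc := pcN3) (cut := Cut.none) (xt := Ext.none) (P1 := 0) (W1 := 536870912) (P2 := 0) (W2 := 1230186008) (P3 := 1046898278) (W3 := 26843546) (N0 := 3)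
    rfl k0_pp_033

noncomputable def f_pp_101 : ℕ → ℕ → ℕ → ℕ → Bool := onCell 536870912 469762048 0 536870912 1046898278 26843546
    (rowNX 3 0 true true true .npn 1 0 1 (qsf 536870912 469762048 0 536870912 1) ndN5q1 ndN5q0 pcN1 Cut.none Ext.none)

def k0_pp_101 : ∃ t, chk3 f_pp_101 t 1 1 1 = true :=
  ⟨(l 4), by decide +kernel⟩

theorem c_pp_101 : CertNX 536870912 469762048 0 536870912 1046898278 26843546 3 true true true .npn 1 0 1
    ndN5q1 ndN5q0 pcN1 Cut.none Ext.none :=
  certNX0 (fam := true) (s1 := true) (s2 := true) (a := 1) (b := 0) (c := 1) (cn := .npn) (n1 := ndN5q1) (n2 := ndN5q0) (pc := pcN1) (cut := Cut.none) (xt := Ext.none) (P1 := 536870912) (W1 := 469762048) (P2 := 0) (W2 := 536870912) (P3 := 1046898278) (W3 := 26843546) (N0 := 3)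
    rfl k0_pp_101

noncomputable def f_pp_102 : ℕ → ℕ → ℕ → ℕ → Bool := onCell 536870912 469762048 0 536870912 1046898278 26843546
    (rowNX 3 0 true true true .npp 1 0 2 (qsf 536870912 469762048 0 536870912 2) ndN5q1 ndN5q0 pcN2 Cut.none Ext.none)

def k0_pp_102 : ∃ t, chk3 f_pp_102 t 1 1 1 = true :=
  ⟨(l 4), by decide +kernel⟩

theorem c_pp_102 : CertNX 536870912 469762048 0 536870912 1046898278 26843546 3 true true true .npp 1 0 2
    ndN5q1 ndN5q0 pcN2 Cut.none Ext.none :=
  certNX0 (fam := true) (s1 := true) (s2 := true) (a := 1) (b := 0) (c := 2) (cn := .npp) (n1 := ndN5q1) (n2 := ndN5q0) (pc := pcN2) (cut := Cut.none) (xt := Ext.none) (P1 := 536870912) (W1 := 469762048) (P2 := 0) (W2 := 536870912) (P3 := 1046898278) (W3 := 26843546) (N0 := 3)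
    rfl k0_pp_102

noncomputable def f_pp_112 : ℕ → ℕ → ℕ → ℕ → Bool := onCell 536870912 469762048 536870912 469762048 1046898278 26843546
    (rowNX 3 0 true true true .dn 1 1 2 (qsf 536870912 469762048 536870912 469762048 2) ndN5q1 ndN5q1 pcN2 Cut.none Ext.none)

def k0_pp_112 : ∃ t, chk3 f_pp_112 t 1 1 1 = true :=
  ⟨(l 4), by decide +kernel⟩

theorem c_pp_112 : CertNX 536870912 469762048 536870912 469762048 1046898278 26843546 3 true true true .dn 1 1 2
    ndN5q1 ndN5q1 pcN2 Cut.none Ext.none :=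
  certNX0 (fam := true) (s1 := true) (s2 := true) (a := 1) (b := 1) (c := 2) (cn := .dn) (n1 := ndN5q1) (n2 := ndN5q1) (pc := pcN2) (cut := Cut.none) (xt := Ext.none) (P1 := 536870912) (W1 := 469762048) (P2 := 536870912) (W2 := 469762048) (P3 := 1046898278) (W3 := 26843546) (N0 := 3)
    rfl k0_pp_112

noncomputable def f_pp_113 : ℕ → ℕ → ℕ → ℕ → Bool := onCell 536870912 469762048 536870912 469762048 1046898278 26843546
    (rowNX 3 0 true true true .nn 1 1 3 (qsf 536870912 469762048 536870912 469762048 3) ndN5q1 ndN5q1 pcN3 Cut.none Ext.none)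

def k0_pp_113 : ∃ t, chk3 f_pp_113 t 1 1 1 = true :=
  ⟨(l 4), by decide +kernel⟩

theorem c_pp_113 : CertNX 536870912 469762048 536870912 469762048 1046898278 26843546 3 true true true .nn 1 1 3
    ndN5q1 ndN5q1 pcN3 Cut.none Ext.none :=
  certNX0 (fam := true) (s1 := true) (s2 := true) (a := 1) (b := 1) (c := 3) (cn := .nn) (n1 := ndN5q1) (n2 := ndN5q1) (pc := pcN3) (cut := Cut.none) (xt := Ext.none) (P1 := 536870912) (W1 := 469762048) (P2 := 536870912) (W2 := 469762048) (P3 := 1046898278) (W3 := 26843546) (N0 := 3)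
    rfl k0_pp_113

noncomputable def f_pp_123 : ℕ → ℕ → ℕ → ℕ → Bool := onCell 536870912 469762048 1073741824 536870912 1046898278 26843546
    (rowNX 3 0 true true true .npn 1 2 3 (qsf 536870912 469762048 1073741824 536870912 3) ndN5q1 ndN5q2 pcN3 Cut.none Ext.none)

def k0_pp_123 : ∃ t, chk3 f_pp_123 t 1 1 1 = true :=
  ⟨(l 4), by decide +kernel⟩

theorem c_pp_123 : CertNX 536870912 469762048 1073741824 536870912 1046898278 26843546 3 true true true .npn 1 2 3
    ndN5q1 ndN5q2 pcN3 Cut.none Ext.none :=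
  certNX0 (fam := true) (s1 := true) (s2 := true) (a := 1) (b := 2) (c := 3) (cn := .npn) (n1 := ndN5q1) (n2 := ndN5q2) (pc := pcN3) (cut := Cut.none) (xt := Ext.none) (P1 := 536870912) (W1 := 469762048) (P2 := 1073741824) (W2 := 536870912) (P3 := 1046898278) (W3 := 26843546) (N0 := 3)
    rfl k0_pp_123

noncomputable def f_pp_133 : ℕ → ℕ → ℕ → ℕ → Bool := onCell 536870912 469762048 0 1230186008 1046898278 26843546
    (rowNX 3 0 true true true .dn 1 3 3 (qsf 536870912 469762048 0 1230186008 3) ndN5q1 ndN5q3 pcN3 Cut.none Ext.none)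

def k0_pp_133 : ∃ t, chk3 f_pp_133 t 1 1 1 = true :=
  ⟨(l 4), by decide +kernel⟩

theorem c_pp_133 : CertNX 536870912 469762048 0 1230186008 1046898278 26843546 3 true true true .dn 1 3 3
    ndN5q1 ndN5q3 pcN3 Cut.none Ext.none :=
  certNX0 (fam := true) (s1 := true) (s2 := true) (a := 1) (b := 3) (c := 3) (cn := .dn) (n1 := ndN5q1) (n2 := ndN5q3) (pc := pcN3) (cut := Cut.none) (xt := Ext.none) (P1 := 536870912) (W1 := 469762048) (P2 := 0) (W2 := 1230186008) (P3 := 1046898278) (W3 := 26843546) (N0 := 3)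
    rfl k0_pp_133

noncomputable def f_pp_202 : ℕ → ℕ → ℕ → ℕ → Bool := onCell 1073741824 536870912 0 536870912 1046898278 26843546
    (rowNX 3 0 true true true .pp 2 0 2 (qsf 1073741824 536870912 0 536870912 2) ndN5q2 ndN5q0 pcN2 Cut.none Ext.none)

def k0_pp_202 : ∃ t, chk3 f_pp_202 t 1 1 1 = true :=
  ⟨(l 4), by decide +kernel⟩

theorem c_pp_202 : CertNX 1073741824 536870912 0 536870912 1046898278 26843546 3 true true true .pp 2 0 2
    ndN5q2 ndN5q0 pcN2 Cut.none Ext.none :=
  certNX0 (fam := true) (s1 := true) (s2 := true) (a := 2) (b := 0) (c := 2) (cn := .pp) (n1 := ndN5q2) (n2 := ndN5q0) (pc := pcN2) (cut := Cut.none) (xt := Ext.none) (P1 := 1073741824) (W1 := 536870912) (P2 := 0) (W2 := 536870912) (P3 := 1046898278) (W3 := 26843546) (N0 := 3)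
    rfl k0_pp_202

noncomputable def f_pp_203 : ℕ → ℕ → ℕ → ℕ → Bool := onCell 1073741824 536870912 0 536870912 1046898278 26843546
    (rowNX 3 0 true true true .up 2 0 3 (qsf 1073741824 536870912 0 536870912 3) ndN5q2 ndN5q0 pcN3 Cut.none Ext.none)

def k0_pp_203 : ∃ t, chk3 f_pp_203 t 1 1 1 = true :=
  ⟨(l 4), by decide +kernel⟩

theorem c_pp_203 : CertNX 1073741824 536870912 0 536870912 1046898278 26843546 3 true true true .up 2 0 3
    ndN5q2 ndN5q0 pcN3 Cut.none Ext.none :=
  certNX0 (fam := true) (s1 := true) (s2 := true) (a := 2) (b := 0) (c := 3) (cn := .up) (n1 := ndN5q2) (n2 := ndN5q0) (pc := pcN3) (cut := Cut.none) (xt := Ext.none) (P1 := 1073741824) (W1 := 536870912) (P2 := 0) (W2 := 536870912) (P3 := 1046898278) (W3 := 26843546) (N0 := 3)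
    rfl k0_pp_203

noncomputable def f_pp_213 : ℕ → ℕ → ℕ → ℕ → Bool := onCell 1073741824 536870912 536870912 469762048 1046898278 26843546
    (rowNX 3 0 true true true .pnn 2 1 3 (qsf 1073741824 536870912 536870912 469762048 3) ndN5q2 ndN5q1 pcN3 Cut.none Ext.none)

def k0_pp_213 : ∃ t, chk3 f_pp_213 t 1 1 1 = true :=
  ⟨(l 4), by decide +kernel⟩

theorem c_pp_213 : CertNX 1073741824 536870912 536870912 469762048 1046898278 26843546 3 true true true .pnn 2 1 3
    ndN5q2 ndN5q1 pcN3 Cut.none Ext.none :=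
  certNX0 (fam := true) (s1 := true) (s2 := true) (a := 2) (b := 1) (c := 3) (cn := .pnn) (n1 := ndN5q2) (n2 := ndN5q1) (pc := pcN3) (cut := Cut.none) (xt := Ext.none) (P1 := 1073741824) (W1 := 536870912) (P2 := 536870912) (W2 := 469762048) (P3 := 1046898278) (W3 := 26843546) (N0 := 3)
    rfl k0_pp_213

noncomputable def f_pp_303 : ℕ → ℕ → ℕ → ℕ → Bool := onCell 0 1230186008 0 536870912 1046898278 26843546
    (rowNX 3 0 true true true .npn 3 0 3 (qsf 0 1230186008 0 536870912 3) ndN5q3 ndN5q0 pcN3 Cut.none Ext.none)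

def k0_pp_303 : ∃ t, chk3 f_pp_303 t 1 1 1 = true :=
  ⟨(l 5), by decide +kernel⟩

theorem c_pp_303 : CertNX 0 1230186008 0 536870912 1046898278 26843546 3 true true true .npn 3 0 3
    ndN5q3 ndN5q0 pcN3 Cut.none Ext.none :=
  certNX0 (fam := true) (s1 := true) (s2 := true) (a := 3) (b := 0) (c := 3) (cn := .npn) (n1 := ndN5q3) (n2 := ndN5q0) (pc := pcN3) (cut := Cut.none) (xt := Ext.none) (P1 := 0) (W1 := 1230186008) (P2 := 0) (W2 := 536870912) (P3 := 1046898278) (W3 := 26843546) (N0 := 3)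
    rfl k0_pp_303

noncomputable def f_pp_313 : ℕ → ℕ → ℕ → ℕ → Bool := onCell 0 1230186008 536870912 469762048 1046898278 26843546
    (rowNX 3 0 true true true .dn 3 1 3 (qsf 0 1230186008 536870912 469762048 3) ndN5q3 ndN5q1 pcN3 Cut.none Ext.none)

def k0_pp_313 : ∃ t, chk3 f_pp_313 t 1 1 1 = true :=
  ⟨(l 4), by decide +kernel⟩

theorem c_pp_313 : CertNX 0 1230186008 536870912 469762048 1046898278 26843546 3 true true true .dn 3 1 3
    ndN5q3 ndN5q1 pcN3 Cut.none Ext.none :=
  certNX0 (fam := true) (s1 := true) (s2 := true) (a := 3) (b := 1) (c := 3) (cn := .dn) (n1 := ndN5q3) (n2 := ndN5q1) (pc := pcN3) (cut := Cut.none) (xt := Ext.none) (P1 := 0) (W1 := 1230186008) (P2 := 536870912) (W2 := 469762048) (P3 := 1046898278) (W3 := 26843546) (N0 := 3)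
    rfl k0_pp_313

noncomputable def f_pm_001 : ℕ → ℕ → ℕ → ℕ → Bool := onCell 0 536870912 0 536870912 1046898278 26843546
    (rowNX 3 0 true true false .up 0 0 1 (qsf 0 536870912 0 536870912 1) ndN5q0 ndN5q0 pcN1 Cut.none Ext.none)

def k0_pm_001 : ∃ t, chk3 f_pm_001 t 1 1 1 = true :=
  ⟨(a (l 3) (l 3)), by decide +kernel⟩

theorem c_pm_001 : CertNX 0 536870912 0 536870912 1046898278 26843546 3 true true false .up 0 0 1
    ndN5q0 ndN5q0 pcN1 Cut.none Ext.none :=
  certNX0 (fam := true) (s1 := true) (s2 := false) (a := 0) (b := 0) (c := 1) (cn := .up) (n1 := ndN5q0) (n2 := ndN5q0) (pc := pcN1) (cut := Cut.none) (xt := Ext.none) (P1 := 0) (W1 := 536870912) (P2 := 0) (W2 := 536870912) (P3 := 1046898278) (W3 := 26843546) (N0 := 3)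
    rfl k0_pm_001

noncomputable def f_pm_011 : ℕ → ℕ → ℕ → ℕ → Bool := onCell 0 536870912 536870912 536870912 1046898278 26843546
    (rowNX 3 1 true true false .pnn 0 1 1 (qsf 0 536870912 536870912 469762048 1) ndN5q0 ndN5q1 pcN1 Cut.none Ext.none)

def k0_pm_011 : ∃ t, chk3 f_pm_011 t 1 1 1 = true :=
  ⟨(a (l 3) (l 3)), by decide +kernel⟩

theorem c_pm_011 : CertNX 0 536870912 536870912 469762048 1046898278 26843546 3 true true false .pnn 0 1 1
    ndN5q0 ndN5q1 pcN1 Cut.none Ext.none :=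
  certNX1 (fam := true) (s1 := true) (s2 := false) (a := 0) (b := 1) (c := 1) (cn := .pnn) (n1 := ndN5q0) (n2 := ndN5q1) (pc := pcN1) (cut := Cut.none) (xt := Ext.none) (P1 := 0) (W1 := 536870912) (P2 := 536870912) (W2 := 469762048) (P3 := 1046898278) (W3 := 26843546) (N0 := 3)
    rfl (fun _ => rfl) k0_pm_011

noncomputable def f_pm_012 : ℕ → ℕ → ℕ → ℕ → Bool := onCell 1073741824 536870912 536870912 469762048 1046898278 26843546
    (rowNX 3 2 true true false .pnp 0 1 2 (qsf 0 536870912 536870912 469762048 2) ndN5q0 ndN5q1 pcN2 Cut.none Ext.none)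

def k0_pm_012 : ∃ t, chk3 f_pm_012 t 1 1 1 = true :=
  ⟨(a (a (a (l 3) (b (l 3) (b (l 3) (a (l 3) (l 3))))) (a (b (a (a (l 3) (a (l 3) (b (l 2) (a (l 16777088) (a (l 16777192) (b (l 16777216) (l 16777216))))))) (l 16777216)) (b (a (a (l 3) (a (b (l 16776800) (a (l 16230016) (l 15999296))) (a (b (l 16777176) (b (l 16576720) (l 15871000))) (a (b (l 16777200) (b (l 16534800) (a (l 15871040) (l 15868032)))) (c (b (l 16774440) (b (l 16471544) (l 15873904))) (b (l 16774344) (b (b (l 16727784) (l 16409304)) (l 15590424)))))))) (b (l 16776624) (l 16223248))) (a (a (b (b (l 3) (a (l 3) (l 14301120))) (b (a (l 3) (b (l 13684416) (l 13428208))) (c (l 13822096) (l 13711688)))) (b (a (a (b (l 15096528) (l 14301000)) (b (l 15096456) (l 14300944))) (a (b (l 15096472) (a (l 14300984) (l 14295696))) (a (c (b (l 15115624) (l 14318400)) (b (l 15057216) (l 14231912))) (b (l 15064200) (l 14246016))))) (a (b (a (l 13556944) (b (l 13684232) (l 13427184))) (c (a (l 13776840) (l 13756312)) (l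 13651064))) (a (b (c (b (l 13726800) (l 13466912)) (l 13400424)) (a (l 13669152) (l 13639928))) (b (b (l 13623456) (l 13352768)) (a (l 13606360) (l 13580928))))))) (b (b (l 15072248) (l 14261328)) (b (l 13499040) (l 13614104)))))) (b (l 16777216) (b (b (l 16777216) (l 16229624)) (b (b (l 15093752) (l 14297792)) (b (l 13551480) (l 13685072))))))) (b (l 2) (b (b (l 16777216) (a (l 16230016) (l 2))) (b (b (l 15096576) (l 14301168)) (b (a (l 13557320) (l 13557320)) (a (l 13693848) (l 13693848))))))), by decide +kernel⟩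

theorem c_pm_012 : CertNX 0 536870912 536870912 469762048 1046898278 26843546 3 true true false .pnp 0 1 2
    ndN5q0 ndN5q1 pcN2 Cut.none Ext.none :=
  certNX2 (fam := true) (s1 := true) (s2 := false) (a := 0) (b := 1) (c := 2) (cn := .pnp) (n1 := ndN5q0) (n2 := ndN5q1) (pc := pcN2) (cut := Cut.none) (xt := Ext.none) (P1 := 0) (W1 := 536870912) (P2 := 536870912) (W2 := 469762048) (P3 := 1046898278) (W3 := 26843546) (N0 := 3)
    rfl (fun _ => rfl) k0_pm_012

noncomputable def f_pm_022 : ℕ → ℕ → ℕ → ℕ → Bool := onCell 0 536870912 1073741824 536870912 1046898278 26843546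
    (rowNX 3 1 true true false .pp 0 2 2 (qsf 0 536870912 1073741824 536870912 2) ndN5q0 ndN5q2 pcN2 Cut.none Ext.none)

def k0_pm_022 : ∃ t, chk3 f_pm_022 t 64 8 1 = true :=
  ⟨(b (b (l 3) (c (c (b (b (l 16619544) (c (l 16608936) (b (l 16615648) (l 16523528)))) (b (c (b (l 16612392) (c (l 16617632) (l 16646192))) (l 16575440)) (c (l 16642072) (l 16686968)))) (b (b (b (l 3) (c (l 16565288) (l 16660832))) (c (b (c (l 16636432) (l 16661248)) (l 16667856)) (l 16679256))) (l 16705832))) (c (a (l 239611675303) (c (l 235316702871) (b (l 16679528) (l 16716944)))) (a (c (l 243906585287) (c (l 243369704535) (l 243369698135))) (c (l 16698872) (l 16710904)))))) (b (c (b (c (l 16691312) (l 16648552)) (c (l 16636432) (l 16594368))) (b (c (a (l 16618944) (l 16615416)) (a (c (l 16607056) (a (l 16594112) (l 16608016))) (l 16632696))) (c (a (l 16570360) (l 16584016)) (a (c (l 16558192) (l 16551216)) (l 16579680))))) (c (b (a (l 16560952) (l 16543624)) (l 16463592)) (a (b (c (l 16516792)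 (a (l 16495768) (l 16478048))) (c (l 16431368) (l 16289264))) (c (l 16477304) (l 16471472)))))), by decide +kernel⟩

def k1_pm_022 : ∃ t, chk3 f_pm_022 t 65 8 1 = true :=
  ⟨(b (b (a (l 3) (b (l 1) (b (l 3) (c (c (l 16591688) (c (l 16550752) (b (l 16531080) (c (l 16526328) (l 16489536))))) (c (c (b (c (l 16532208) (l 16533176)) (l 16541328)) (l 16589656)) (l 16608960)))))) (c (b (c (b (a (l 16631920) (l 16589944)) (c (l 16611888) (b (c (l 16600656) (l 16594896)) (c (l 16606320) (l 16553640))))) (c (b (b (l 16575624) (c (l 16582568) (l 16585408))) (c (b (l 16559688) (l 16627552)) (l 16617408))) (b (c (b (a (l 16603120) (l 16495992)) (l 16599552)) (b (l 16582240) (l 16597448))) (l 16623400)))) (c (b (c (a (l 16642616) (l 16613824)) (l 16536384)) (a (l 16686664) (l 16649432))) (a (l 16684592) (l 16633488)))) (c (b (c (l 16615680) (l 16633624)) (a (l 16684776) (l 16668936))) (b (l 16654536) (l 16718552))))) (b (c (b (c (a (l 16688992) (l 16687728)) (a (l 16673600) (l 16601104)))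 (c (a (l 16624944) (l 16660056)) (a (l 16613192) (l 16664112)))) (b (c (b (l 16702032) (l 16672928)) (l 16641488)) (c (l 16629744) (l 16603920)))) (c (c (b (l 16563760) (l 16468928)) (a (l 16497816) (l 16542232))) (c (l 16510000) (l 16462048))))), by decide +kernel⟩

def k2_pm_022 : ∃ t, chk3 f_pm_022 t 33 8 1 = true :=
  ⟨(a (b (b (b (l 1) (b (l 1) (b (l 1) (c (c (l 16454792) (c (l 16488816) (l 16379792))) (c (c (l 16550920) (l 16580120)) (l 16589352)))))) (c (b (c (b (a (l 16522736) (l 16458984)) (c (l 16492720) (a (l 16471232) (b (l 16459896) (l 16453912))))) (b (c (b (l 16465672) (l 16369112)) (b (c (l 16506704) (l 16536616)) (l 16540488))) (c (a (l 16401536) (l 16343672)) (l 16563696)))) (c (b (c (b (l 16459920) (l 16477736)) (a (l 16527640) (l 16442192))) (a (l 16582752) (l 16531368))) (l 16594128))) (c (b (b (l 16522816) (l 16618680)) (l 16662256)) (b (l 16624368) (l 16682952))))) (b (c (c (l 16500064) (b (l 16654320) (l 16696448))) (l 16576920)) (c (c (b (l 16648728)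 (l 16548728)) (l 16570776)) (l 16514544)))) (b (b (l 1) (b (b (l 1) (c (c (l 16437888) (l 16528376)) (l 16609720))) (c (c (c (l 16437704) (l 16510168)) (l 16585848)) (l 16654984)))) (c (b (b (l 16580080) (l 16660680)) (b (l 16658208) (l 16557552))) (b (l 16651184) (c (l 16529840) (l 16519320)))))), by decide +kernel⟩

def k3_pm_022 : ∃ t, chk3 f_pm_022 t 17 8 1 = true :=
  ⟨(a (b (a (b (l 1) (b (l 1) (c (c (l 675952934295) (l 16579912)) (l 904123667911)))) (l 1)) (c (b (a (b (l 16437936) (l 16592856)) (c (l 16609472) (l 16640592))) (c (b (l 16705088) (l 16589008)) (l 16405568))) (b (b (l 16678728) (l 16540128)) (c (a (l 16559672) (l 16584240)) (l 16414312))))) (b (l 1) (b (a (c (c (l 16619280) (l 16586488)) (l 660384106151)) (l 1)) (c (c (b (l 16728216) (l 16600392)) (c (l 16640144) (l 16634920))) (c (b (l 16707912) (l 16592216)) (l 16636024)))))), by decide +kernel⟩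

def k4_pm_022 : ∃ t, chk3 f_pm_022 t 9 8 1 = true :=
  ⟨(b (l 1) (b (l 1) (b (l 1) (a (a (c (c (l 786548562391) (l 687764332775)) (l 16520096)) (l 1)) (l 1))))), by decide +kernel⟩

def k5_pm_022 : ∃ t, chk3 f_pm_022 t 5 8 1 = true :=
  ⟨(l 1), by decide +kernel⟩

def k6_pm_022 : ∃ t, chk3 f_pm_022 t 4 18 1 = true :=
  ⟨(a (c (a (a (a (b (l 16448376) (l 16514712)) (b (c (l 16455656) (l 16462352)) (c (l 16527544) (l 16535744)))) (a (b (l 16458472) (l 16573168)) (b (l 16464320) (c (l 16543384) (l 16593464))))) (c (a (b (l 16554672) (l 16578368)) (b (l 16528712) (l 16494424))) (b (a (l 16508464) (c (l 16506856) (l 16505000))) (a (l 16535176) (c (l 16465400) (l 16317296)))))) (a (a (a (c (b (l 16381448) (l 16493096)) (b (c (l 16348608) (l 16361680)) (a (l 16472384) (l 16490968)))) (b (c (l 16456976) (l 16430376)) (l 16316936))) (a (b (l 16463208) (l 16546128)) (b (c (l 16478616) (a (l 16471248) (l 16473888))) (c (l 16556208) (c (b (l 16527536) (l 16345152)) (l 16550944))))))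 (b (c (c (a (l 16425064) (a (l 16503688) (l 16519256))) (a (b (l 16461368) (l 16481592)) (a (l 16531136) (l 16510176)))) (a (c (l 16489072) (l 16495056)) (l 16504312))) (c (a (c (a (l 16533408) (l 16499928)) (b (l 16374032) (c (l 16343696) (l 16528744)))) (a (c (l 16491952) (c (l 16489264) (l 16483544))) (l 16462336))) (a (c (b (l 16523640) (l 16540256)) (l 16530128)) (l 16470408)))))) (a (a (c (c (b (c (l 16401704) (l 16276384)) (c (l 16205056) (a (l 16391776) (l 16289008)))) (b (c (a (l 16473416) (l 16378952)) (b (l 16445960) (l 16401488))) (c (a (l 16363456) (l 16276168)) (l 16333648)))) (b (l 16246472) (c (l 16328608) (l 16321776)))) (c (c (c (b (l 815002028007) (a (l 16172872) (l 16041936))) (l 437044750375)) (b (l 16223800) (l 16088776))) (b (l 16062160) (l 16008096)))) (a (a (b (l 1) (c (l 708164047975) (l 15877592))) (l 1)) (l 1)))), by decide +kernel⟩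

def k7_pm_022 : ∃ t, chk3 f_pm_022 t 8 19 2 = true :=
  ⟨(a (a (b (b (a (l 16519648) (c (l 16523864) (l 16510480))) (a (l 16459928) (l 16306904))) (a (l 16199104) (c (l 16195464) (l 16197736)))) (b (b (a (c (l 16450320) (l 16467016)) (c (l 16444688) (l 16501288))) (a (c (l 16530296) (l 16519808)) (l 16422480))) (a (c (l 16200816) (l 16221552)) (c (l 16216856) (l 16161008))))) (b (b (c (a (l 16574648) (l 16365936)) (a (l 16323904) (a (c (l 16454512) (l 16445000)) (c (l 16406304) (l 16402160))))) (a (c (l 16425272) (l 16382472)) (c (l 16278224) (c (l 16260432) (l 16280624))))) (c (a (l 16103248) (c (l 15972688) (l 15938216))) (a (c (l 16062448) (l 15987016)) (c (l 15897944) (a (l 15969400) (l 15912176))))))), by decide +kernel⟩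

def k8_pm_022 : ∃ t, chk3 f_pm_022 t 8 19 3 = true :=
  ⟨(a (a (b (a (b (c (l 16539960) (c (l 16532888) (l 16505952))) (c (l 16438712) (a (l 16419448) (l 16435296)))) (b (c (l 16510768) (l 16535048)) (l 16424944))) (a (c (a (l 16169824) (l 16147912)) (a (c (l 16155600) (l 16084112)) (l 16159632))) (c (l 16189208) (l 16161672)))) (b (b (c (a (l 16517888) (c (l 16536184) (l 16542696))) (c (c (b (l 16562608) (b (l 16532656) (l 16531672))) (b (l 16567200) (b (l 16538016) (l 16370096)))) (b (l 16555144) (b (l 16525528) (l 16336752))))) (c (a (l 16474664) (c (l 16452552) (l 16443840))) (a (c (l 16438312) (l 16450040)) (l 16265272)))) (c (a (c (l 16186800) (l 16144224)) (c (l 16126200) (a (l 16130760) (l 16096984)))) (a (c (b (l 16240328) (l 16024384)) (c (l 16019416) (l 16131952))) (b (c (l 16199688) (l 16227160)) (l 15810248)))))) (a (c (a (b (b (c (l 16542984) (c (l 16542688) (l 16534128))) (c (l 16393024) (c (l 16384160) (l 16385928)))) (c (l 16052400) (c (l 16053392) (l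 15839720)))) (b (b (c (l 16486472) (c (l 16500456) (a (l 16514000) (l 16483176)))) (c (l 16334448) (l 16142776))) (c (l 15971496) (c (l 16017280) (l 16002408))))) (a (c (b (b (b (l 16561400) (b (l 16568696) (l 16554088))) (l 16418200)) (l 15902024)) (l 16003184)) (b (l 16413568) (l 15995472)))) (c (a (c (b (b (b (l 16473504) (l 16454784)) (l 16305320)) (c (l 15966104) (l 15954984))) (b (l 16368040) (l 15950448))) (b (l 16322824) (l 15902344))) (b (l 16320096) (l 15915648))))), by decide +kernel⟩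

def k9_pm_022 : ∃ t, chk3 f_pm_022 t 9 19 1 = true :=
  ⟨(b (a (c (c (b (a (c (a (l 16329216) (l 16107760)) (a (l 16322056) (l 16053592))) (c (a (l 15962152) (l 15919888)) (l 15982640))) (a (c (l 16086240) (l 16082504)) (l 15812304))) (a (c (b (a (l 16272136) (l 16185192)) (l 16096768)) (l 16080976)) (l 15695232))) (b (a (l 16156984) (l 15952184)) (l 15689968))) (b (a (c (c (l 15750072) (l 15731648)) (l 15703488)) (l 1)) (c (a (l 15559272) (l 15497360)) (l 15482632)))) (a (c (a (c (c (l 15707880) (l 15656256)) (l 15750808)) (l 15477552)) (a (l 15725888) (l 15432784))) (c (a (l 15233800) (l 15168320)) (l 7009043271)))), by decide +kernel⟩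

def k10_pm_022 : ∃ t, chk3 f_pm_022 t 5 9 1 = true :=
  ⟨(b (l 1) (a (b (l 1) (a (c (l 763460171687) (l 15051320)) (l 1))) (l 1))), by decide +kernel⟩

def k11_pm_022 : ∃ t, chk3 f_pm_022 t 3 4 1 = true :=
  ⟨(l 1), by decide +kernel⟩

def k12_pm_022 : ∃ t, chk3 f_pm_022 t 32 10 1 = true :=
  ⟨(b (c (b (a (l 15834432) (c (l 15686192) (l 15658336))) (b (a (l 15653168) (a (l 15537848) (l 15532744))) (b (a (l 15701472) (a (l 15459792) (l 15406488))) (a (b (l 15794096) (l 15844000)) (a (b (l 15532392) (l 15544080)) (l 15421648)))))) (b (a (c (l 15672216) (c (l 15633400) (l 15621456))) (a (l 15727920) (c (l 15793520) (c (l 15652136) (l 15747264))))) (b (a (a (c (l 15647336) (l 15432680)) (c (l 15545408) (l 15525456))) (c (l 15503928) (c (l 15459088) (l 15452568)))) (b (a (a (l 15566088) (l 15367464)) (c (a (l 15439968) (l 15381808)) (b (c (l 15361264) (l 15352112)) (a (l 15393400) (l 15297208))))) (a (b (c (l 15758304) (l 15567632)) (c (l 15663592) (a (l 15719832) (l 15730992))))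 (c (b (l 15448560) (l 15294928)) (a (b (l 15462264) (l 15541224)) (l 15338840)))))))) (c (a (b (a (l 16246056) (l 15921032)) (b (l 16115312) (l 15740184))) (b (c (a (l 15907552) (l 15743184)) (a (l 15904592) (l 15750312))) (c (l 16230984) (l 16163680)))) (a (c (b (a (l 16213920) (l 15858832)) (a (l 15936480) (l 16000424))) (b (a (l 16053024) (c (l 15802304) (l 15966960))) (a (c (l 15839632) (l 15772528)) (c (l 16033128) (l 16100936))))) (b (c (c (l 15706600) (a (l 15898984) (l 15708408))) (b (l 15410024) (l 15853088))) (b (c (l 15987040) (l 16209296)) (c (l 16127592) (l 16205576))))))), by decide +kernel⟩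

def k13_pm_022 : ∃ t, chk3 f_pm_022 t 33 10 1 = true :=
  ⟨(b (b (c (c (a (l 15785784) (l 15798312)) (a (l 15821560) (l 15737792))) (c (a (a (l 15782472) (l 15739968)) (c (l 15697808) (c (l 15677624) (l 15572872)))) (a (c (a (l 15750120) (l 15706840)) (l 15642648)) (c (l 15567672) (l 15682360))))) (c (c (b (l 15522728) (a (l 15407952) (l 15385408))) (b (l 15477376) (c (l 15362640) (l 15332928)))) (b (c (a (c (l 15471696) (l 15431064)) (c (l 15398448) (l 15190712))) (c (l 15403848) (l 15405792))) (c (c (a (l 15330320) (l 15266864)) (b (a (l 15316096) (c (l 15272560) (l 15276384))) (l 15262368))) (b (b (l 15254320) (l 15275976)) (l 15260616)))))) (a (c (b (c (b (l 15452496) (l 15665544)) (b (l 15420144) (l 15637632))) (c (l 16065240) (l 16046144))) (b (b (c (c (l 15377544) (a (l 15393936) (l 15276280))) (c (l 15223000) (l 15333384))) (c (l 15396752) (l 15588720))) (c (b (l 15765216) (l 16190648)) (l 15846624)))) (c (b (c (l 15284880) (b (l 15278872) (l 15336016))) (c (l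 15780368) (b (l 15567888) (l 15872968)))) (b (c (b (c (l 15228800) (l 15252048)) (c (l 15300048) (l 15213352))) (l 15249760)) (c (b (l 15488400) (l 15878856)) (l 15667160)))))), by decide +kernel⟩

def k14_pm_022 : ∃ t, chk3 f_pm_022 t 17 10 1 = true :=
  ⟨(a (b (b (c (c (l 15681872) (c (l 15630016) (l 15536504))) (c (c (c (l 15603496) (a (l 15625624) (l 15584152))) (a (c (l 15633680) (l 15612440)) (l 15566200))) (l 15581688))) (c (c (b (l 15407096) (l 15303912)) (b (c (l 15345824) (l 15329424)) (c (l 15242328) (b (l 15156320) (l 15225432))))) (c (b (c (a (l 15348056) (l 15308488)) (l 15219936)) (c (a (b (l 15251408) (l 15233032)) (l 15199736)) (l 15205000))) (l 15238624)))) (b (c (c (l 15250128) (c (l 15210584) (a (l 15206288) (l 15190776)))) (c (b (l 15168848) (l 15203968)) (l 15147568))) (a (c (c (l 15245056) (b (l 15166296) (l 15543872))) (l 15190456)) (c (c (b (l 15218632) (l 15313048)) (c (l 15250024) (l 15225800))) (l 15195984))))) (b (c (c (b (c (l 15536088) (l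 15516288)) (b (c (l 15277648) (l 15268208)) (c (l 15184448) (b (l 15202168) (l 15196232))))) (b (c (l 15524168) (a (l 15546272) (l 15477120))) (c (b (l 15269896) (a (l 15201664) (l 15160928))) (l 15201216)))) (b (l 15478664) (b (l 15210080) (l 15131512)))) (c (c (b (c (l 15200888) (l 15193152)) (c (l 15212744) (l 15194888))) (b (c (l 15175240) (l 15151840)) (l 15162368))) (l 15118672)))), by decide +kernel⟩

def k15_pm_022 : ∃ t, chk3 f_pm_022 t 9 10 1 = true :=
  ⟨(b (a (c (b (a (c (c (l 15360024) (l 15352640)) (l 15317688)) (l 15050984)) (a (c (c (b (l 15125208) (l 14821800)) (l 15069944)) (l 15048712)) (b (l 14830192) (l 14810112)))) (b (a (l 15281328) (l 14991120)) (b (l 14899216) (l 14863928)))) (b (c (c (l 14686784) (l 14756120)) (l 14555000)) (c (b (c (l 14598288) (l 14559504)) (c (l 14616016) (l 14577760))) (b (l 14500216) (l 14519264))))) (a (c (b (c (a (c (l 15081344) (l 15062040)) (l 14870640)) (l 14941360)) (l 14949464)) (b (l 14895144) (l 14954264))) (c (b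 (c (l 14697424) (l 14660944)) (l 14801880)) (b (l 14605168) (l 14733096))))), by decide +kernel⟩

def k16_pm_022 : ∃ t, chk3 f_pm_022 t 5 10 1 = true :=
  ⟨(b (a (b (a (c (c (l 553542807607) (l 14660376)) (l 14599344)) (l 1)) (a (b (c (l 14404880) (l 14424336)) (c (c (l 14590592) (l 14550192)) (l 14488448))) (b (l 1) (c (a (l 14592216) (l 1)) (l 1058201115623))))) (l 1)) (a (a (c (b (l 14693248) (l 14866680)) (b (l 14617072) (l 14798168))) (b (c (a (l 14737224) (l 965323055575)) (a (l 14659408) (l 14749632))) (a (c (l 14951856) (l 14884080)) (l 15032224)))) (a (l 940627591511) (l 1)))), by decide +kernel⟩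

def k17_pm_022 : ∃ t, chk3 f_pm_022 t 4 11 1 = true :=
  ⟨(a (a (b (b (a (c (a (l 15275896) (a (l 15489288) (a (l 15682520) (l 15820512)))) (a (c (c (l 15438944) (l 15282296)) (a (l 15219464) (l 15496936))) (c (b (l 15897072) (l 15587744)) (l 15740680)))) (c (c (a (l 16025216) (l 16310016)) (a (l 15850480) (b (l 16177288) (l 16205992)))) (c (a (l 15970848) (l 16182208)) (l 16207088)))) (a (c (a (l 14875448) (c (l 15200952) (l 15165488))) (a (c (l 14851048) (l 14700048)) (l 14894904))) (a (c (c (l 15424096) (l 15415328)) (l 15436728)) (c (b (l 15768840) (l 15547048)) (l 15754376))))) (b (a (c (a (b (l 14514784) (l 14446136)) (c (l 14549928) (b (l 14750816) (l 14579280)))) (a (c (l 14265048) (l 14384336)) (c (l 14636408) (l 14625920)))) (c (a (l 14694992) (l 15171624)) (l 15046152))) (a (c (a (l 14444840) (l 14534552)) (a (l 14389800) (l 14460160))) (c (a (l 14614608) (l 14791632)) (l 14713288))))) (b (b (a (c (c (b (l 15671560) (l 16053864)) (c (l 15636368) (l 15845648)))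 (l 15573728)) (c (c (a (b (l 15315224) (l 15582008)) (l 15284704)) (l 15222056)) (b (l 15208920) (l 15407808)))) (c (a (b (c (l 16312912) (l 16342848)) (l 15873048)) (c (l 15853056) (l 15917384))) (a (l 16139440) (l 15796504)))) (c (a (a (l 15016544) (l 15390856)) (b (l 16139944) (l 15772000))) (a (l 15347976) (l 15838032))))) (b (a (b (c (l 15087008) (l 15032384)) (a (c (b (l 15271008) (l 15488784)) (b (l 15224456) (l 15450688))) (l 15105568))) (c (b (l 14938848) (l 15091568)) (l 14911360))) (a (a (b (c (l 15797016) (l 15857960)) (l 16319992)) (b (b (l 15066040) (l 15301032)) (l 15615592))) (b (c (l 15110800) (l 15055696)) (a (l 14866424) (l 14941864)))))), by decide +kernel⟩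

def k18_pm_022 : ∃ t, chk3 f_pm_022 t 5 11 1 = true :=
  ⟨(b (a (a (b (c (l 15051720) (l 14990888)) (c (l 15247136) (l 15195016))) (a (b (c (l 15178184) (l 15120568)) (l 15378704)) (l 15388592))) (a (l 15584648) (l 15948976))) (a (a (b (l 15239848) (l 15074120)) (l 15378416)) (a (l 15614544) (l 15949312)))), by decide +kernel⟩

def k19_pm_022 : ∃ t, chk3 f_pm_022 t 3 5 1 = true :=
  ⟨(b (l 1) (b (l 1) (a (a (l 16485664) (l 1)) (l 1)))), by decide +kernel⟩

def k20_pm_022 : ∃ t, chk3 f_pm_022 t 1 3 1 = true :=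
  ⟨(a (a (a (b (a (c (a (b (a (l 14444840) (l 14533712)) (l 14252488)) (b (l 14614512) (l 14614280))) (a (b (a (l 14389800) (l 14459288)) (c (l 14443648) (l 14416816))) (b (l 14595144) (l 14594904)))) (b (b (a (c (l 14868584) (l 14844696)) (c (l 15059888) (l 15206720))) (l 14864120)) (c (l 14886328) (l 14848176)))) (a (a (c (l 14483176) (a (l 14389800) (l 14459288))) (c (l 14614280) (l 14594904))) (b (l 14863840) (l 14863840)))) (b (b (a (b (a (l 15646008) (l 16155272)) (a (l 15307856) (l 15732632))) (b (a (l 15425960) (b (l 14954256) (l 15299104))) (a (l 16463616) (l 16009992)))) (a (b (l 15431000) (l 15430744)) (b (l 15930544) (l 16018464)))) (a (l 15430744) (l 16018240)))) (b (a (b (b (a (b (l 14895440) (l 14849400)) (l 14999688)) (a (b (l 14926008) (l 15424144)) (l 14750560))) (b (a (l 16106592) (b (l 14889016) (l 15289728))) (a (l 16414416) (l 16004576)))) (b (a (l 15028152) (l 15322144)) (a (b (l 14614768) (l 14786144)) (b (l 14772624) (l 14545832))))) (a (b (a (l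 16269256) (l 16310424)) (l 16376120)) (b (a (b (l 15897840) (l 16591640)) (b (l 14934888) (l 15844864))) (a (l 16675720) (l 16627744)))))) (b (a (b (a (l 15824688) (l 375842434391)) (a (l 15130952) (l 15950512))) (b (l 1) (a (l 16397992) (l 1)))) (a (b (a (b (a (l 14545736) (l 14772512)) (a (l 14934800) (l 14545736))) (l 15130952)) (a (b (a (l 15844784) (l 14934800)) (a (l 16546792) (l 15844784))) (b (l 14642960) (a (l 14934800) (l 14545736))))) (a (b (l 15950512) (l 15130952)) (b (l 16649648) (l 15950512)))))), by decide +kernel⟩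

theorem s21_pm_022 : ∃ t, chk3 f_pm_022 t 2 11 1 = true := ex3_a k17_pm_022 k18_pm_022

theorem s22_pm_022 : ∃ t, chk3 f_pm_022 t 16 10 1 = true := ex3_a k12_pm_022 k13_pm_022

theorem s23_pm_022 : ∃ t, chk3 f_pm_022 t 8 10 1 = true := ex3_a s22_pm_022 k14_pm_022

theorem s24_pm_022 : ∃ t, chk3 f_pm_022 t 4 10 1 = true := ex3_a s23_pm_022 k15_pm_022

theorem s25_pm_022 : ∃ t, chk3 f_pm_022 t 2 10 1 = true := ex3_a s24_pm_022 k16_pm_022

theorem s26_pm_022 : ∃ t, chk3 f_pm_022 t 2 5 1 = true := ex3_b s25_pm_022 s21_pm_022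

theorem s27_pm_022 : ∃ t, chk3 f_pm_022 t 1 5 1 = true := ex3_a s26_pm_022 k19_pm_022

theorem s28_pm_022 : ∃ t, chk3 f_pm_022 t 8 19 1 = true := ex3_c k7_pm_022 k8_pm_022

theorem s29_pm_022 : ∃ t, chk3 f_pm_022 t 4 19 1 = true := ex3_a s28_pm_022 k9_pm_022

theorem s30_pm_022 : ∃ t, chk3 f_pm_022 t 4 9 1 = true := ex3_b k6_pm_022 s29_pm_022

theorem s31_pm_022 : ∃ t, chk3 f_pm_022 t 2 9 1 = true := ex3_a s30_pm_022 k10_pm_022

theorem s32_pm_022 : ∃ t, chk3 f_pm_022 t 32 8 1 = true := ex3_a k0_pm_022 k1_pm_022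

theorem s33_pm_022 : ∃ t, chk3 f_pm_022 t 16 8 1 = true := ex3_a s32_pm_022 k2_pm_022

theorem s34_pm_022 : ∃ t, chk3 f_pm_022 t 8 8 1 = true := ex3_a s33_pm_022 k3_pm_022

theorem s35_pm_022 : ∃ t, chk3 f_pm_022 t 4 8 1 = true := ex3_a s34_pm_022 k4_pm_022

theorem s36_pm_022 : ∃ t, chk3 f_pm_022 t 2 8 1 = true := ex3_a s35_pm_022 k5_pm_022

theorem s37_pm_022 : ∃ t, chk3 f_pm_022 t 2 4 1 = true := ex3_b s36_pm_022 s31_pm_022

theorem s38_pm_022 : ∃ t, chk3 f_pm_022 t 1 4 1 = true := ex3_a s37_pm_022 k11_pm_022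

theorem s39_pm_022 : ∃ t, chk3 f_pm_022 t 1 2 1 = true := ex3_b s38_pm_022 s27_pm_022

theorem s40_pm_022 : ∃ t, chk3 f_pm_022 t 1 1 1 = true := ex3_b s39_pm_022 k20_pm_022

theorem c_pm_022 : CertNX 0 536870912 1073741824 536870912 1046898278 26843546 3 true true false .pp 0 2 2
    ndN5q0 ndN5q2 pcN2 Cut.none Ext.none :=
  certNX1 (fam := true) (s1 := true) (s2 := false) (a := 0) (b := 2) (c := 2) (cn := .pp) (n1 := ndN5q0) (n2 := ndN5q2) (pc := pcN2) (cut := Cut.none) (xt := Ext.none) (P1 := 0) (W1 := 536870912) (P2 := 1073741824) (W2 := 536870912) (P3 := 1046898278) (W3 := 26843546) (N0 := 3)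
    rfl (fun _ => rfl) s40_pm_022

noncomputable def f_pm_023 : ℕ → ℕ → ℕ → ℕ → Bool := onCell 0 536870912 1610612736 536870912 1046898278 26843546
    (rowNX 3 1 true true false .up 0 2 3 (qsf 0 536870912 1073741824 536870912 3) ndN5q0 ndN5q2 pcN3 Cut.none Ext.none)

def k0_pm_023 : ∃ t, chk3 f_pm_023 t 1 1 1 = true :=
  ⟨(b (a (a (a (b (a (a (c (l 14483176) (l 14428624)) (l 14586400)) (l 14863840)) (l 2)) (b (a (l 15430744) (l 16018240)) (b (l 674945001623) (l 2)))) (b (a (l 16376120) (l 16726952)) (b (l 16535024) (l 16535024)))) (b (a (b (a (l 16668152) (b (a (l 15844784) (l 14934800)) (l 16129032))) (a (l 16777216) (l 16668152))) (b (a (b (l 14768784) (a (l 14934800) (l 14545736))) (l 15130952)) (a (b (a (l 15844784) (l 14934800)) (l 16170976)) (b (l 14768784) (a (l 14934800) (l 14545736)))))) (a (b (l 16777216) (l 16777216)) (b (a (l 16668152) (b (a (l 15844784) (l 14934800)) (l 16170976))) (b (l 16692456) (l 16777096)))))) (b (b (a (a (l 2) (b (l 16535024) (l 2)))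 (l 16777216)) (l 4)) (l 4))), by decide +kernel⟩

theorem c_pm_023 : CertNX 0 536870912 1073741824 536870912 1046898278 26843546 3 true true false .up 0 2 3
    ndN5q0 ndN5q2 pcN3 Cut.none Ext.none :=
  certNX1 (fam := true) (s1 := true) (s2 := false) (a := 0) (b := 2) (c := 3) (cn := .up) (n1 := ndN5q0) (n2 := ndN5q2) (pc := pcN3) (cut := Cut.none) (xt := Ext.none) (P1 := 0) (W1 := 536870912) (P2 := 1073741824) (W2 := 536870912) (P3 := 1046898278) (W3 := 26843546) (N0 := 3)
    rfl (fun _ => rfl) k0_pm_023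

noncomputable def f_pm_033 : ℕ → ℕ → ℕ → ℕ → Bool := onCell 0 536870912 0 1230186008 1046898278 26843546
    (rowNX 3 0 true true false .pnn 0 3 3 (qsf 0 536870912 0 1230186008 3) ndN5q0 ndN5q3 pcN3 Cut.none Ext.none)

def k0_pm_033 : ∃ t, chk3 f_pm_033 t 1 1 1 = true :=
  ⟨(b (l 4) (b (a (a (b (l 4) (a (b (a (l 4) (l 4)) (a (c (a (l 14483176) (l 14614280)) (a (l 14344736) (l 14594904))) (c (l 14886312) (l 14848152)))) (l 4))) (l 4)) (l 4)) (a (b (a (a (a (a (b (c (l 14483176) (l 14428624)) (c (l 14483176) (l 14428624))) (b (l 14586400) (l 14586400))) (b (c (l 14886328) (l 14848176)) (l 14863840))) (a (c (l 15326952) (b (l 15405616) (l 15405624))) (b (l 4) (c (l 16031296) (l 16005112))))) (a (b (l 4) (c (l 16383000) (l 16369160))) (l 4))) (a (a (a (a (c (l 14483176) (a (l 14389800) (l 14459288))) (a (l 14553304) (l 14613568))) (b (l 14863840) (l 14863840))) (b (a (l 15430744) (l 16018240)) (a (l 15430744) (l 16018240)))) (a (b (c (l 16383016) (l 16369184)) (a (l 16269136)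 (l 16481336))) (b (c (l 16727792) (l 16726056)) (c (l 16727808) (l 16726080)))))) (b (l 4) (a (b (l 4) (a (c (l 16777192) (l 16777192)) (l 4))) (l 4)))))), by decide +kernel⟩

theorem c_pm_033 : CertNX 0 536870912 0 1230186008 1046898278 26843546 3 true true false .pnn 0 3 3
    ndN5q0 ndN5q3 pcN3 Cut.none Ext.none :=
  certNX0 (fam := true) (s1 := true) (s2 := false) (a := 0) (b := 3) (c := 3) (cn := .pnn) (n1 := ndN5q0) (n2 := ndN5q3) (pc := pcN3) (cut := Cut.none) (xt := Ext.none) (P1 := 0) (W1 := 536870912) (P2 := 0) (W2 := 1230186008) (P3 := 1046898278) (W3 := 26843546) (N0 := 3)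
    rfl k0_pm_033

noncomputable def f_pm_101 : ℕ → ℕ → ℕ → ℕ → Bool := onCell 536870912 536870912 0 536870912 1046898278 26843546
    (rowNX 3 2 true true false .npn 1 0 1 (qsf 536870912 469762048 0 536870912 1) ndN5q1 ndN5q0 pcN1 Cut.none Ext.none)

def k0_pm_101 : ∃ t, chk3 f_pm_101 t 1 1 1 = true :=
  ⟨(b (l 3) (l 3)), by decide +kernel⟩

theorem c_pm_101 : CertNX 536870912 469762048 0 536870912 1046898278 26843546 3 true true false .npn 1 0 1
    ndN5q1 ndN5q0 pcN1 Cut.none Ext.none :=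
  certNX2 (fam := true) (s1 := true) (s2 := false) (a := 1) (b := 0) (c := 1) (cn := .npn) (n1 := ndN5q1) (n2 := ndN5q0) (pc := pcN1) (cut := Cut.none) (xt := Ext.none) (P1 := 536870912) (W1 := 469762048) (P2 := 0) (W2 := 536870912) (P3 := 1046898278) (W3 := 26843546) (N0 := 3)
    rfl (fun _ => rfl) k0_pm_101

noncomputable def f_pm_102 : ℕ → ℕ → ℕ → ℕ → Bool := onCell 536870912 469762048 1073741824 536870912 1046898278 26843546
    (rowNX 3 1 true true false .npp 1 0 2 (qsf 536870912 469762048 0 536870912 2) ndN5q1 ndN5q0 pcN2 Cut.none Ext.none)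

def k0_pm_102 : ∃ t, chk3 f_pm_102 t 1 1 1 = true :=
  ⟨(b (b (b (l 3) (a (l 3) (a (l 3) (b (l 3) (l 3))))) (b (a (b (b (l 3) (b (l 3) (a (l 2) (b (l 16777088) (b (l 16777192) (a (l 16777216) (l 16777216))))))) (l 16777216)) (a (b (b (l 3) (b (a (l 16776800) (b (l 16230016) (l 15999296))) (b (a (l 16777176) (a (l 16576720) (l 15871000))) (b (a (l 16777200) (a (l 16534800) (b (l 15871040) (l 15868032)))) (c (a (l 16774440) (a (l 16471544) (l 15873904))) (a (l 16774344) (a (a (l 16727784) (l 16409304)) (l 15590424)))))))) (a (l 16776624) (l 16223248))) (b (b (a (a (l 3) (b (l 3) (l 14301120))) (a (b (l 3) (a (l 13684416) (l 13428208))) (c (l 13822096) (l 13711688)))) (a (b (b (a (l 15096528) (l 14301000)) (a (l 15096456) (l 14300944))) (b (a (l 15096472) (b (l 14300984) (l 14295696))) (b (c (a (l 15115624) (l 14318400)) (a (l 15057216) (l 14231912))) (a (l 15064200) (l 14246016))))) (b (a (b (l 13556944) (a (l 13684232) (l 13427184))) (c (b (l 13776840) (l 13756312)) (l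 13651064))) (b (a (c (a (l 13726800) (l 13466912)) (l 13400424)) (b (l 13669152) (l 13639928))) (a (a (l 13623456) (l 13352768)) (b (l 13606360) (l 13580928))))))) (a (a (l 15072248) (l 14261328)) (a (l 13499040) (l 13614104)))))) (a (l 16777216) (a (a (l 16777216) (l 16229624)) (a (a (l 15093752) (l 14297792)) (a (l 13551480) (l 13685072))))))) (a (l 2) (a (a (l 16777216) (b (l 16230016) (l 2))) (a (a (l 15096576) (l 14301168)) (a (b (l 13557320) (l 13557320)) (b (l 13693848) (l 13693848))))))), by decide +kernel⟩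

theorem c_pm_102 : CertNX 536870912 469762048 0 536870912 1046898278 26843546 3 true true false .npp 1 0 2
    ndN5q1 ndN5q0 pcN2 Cut.none Ext.none :=
  certNX1 (fam := true) (s1 := true) (s2 := false) (a := 1) (b := 0) (c := 2) (cn := .npp) (n1 := ndN5q1) (n2 := ndN5q0) (pc := pcN2) (cut := Cut.none) (xt := Ext.none) (P1 := 536870912) (W1 := 469762048) (P2 := 0) (W2 := 536870912) (P3 := 1046898278) (W3 := 26843546) (N0 := 3)
    rfl (fun _ => rfl) k0_pm_102

noncomputable def f_pm_112 : ℕ → ℕ → ℕ → ℕ → Bool := onCell 536870912 469762048 1073741824 536870912 1046898278 26843546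
    (rowNX 3 1 true true false .dn 1 1 2 (qsf 536870912 469762048 536870912 469762048 2) ndN5q1 ndN5q1 pcN2 Cut.none Ext.none)

def k0_pm_112 : ∃ t, chk3 f_pm_112 t 1 1 1 = true :=
  ⟨(a (b (b (l 3) (b (b (b (l 3) (b (l 3) (b (c (l 16777216) (l 16777216)) (b (c (l 16777216) (l 16777216)) (c (l 16777216) (l 16777216)))))) (l 16777216)) (l 16777216))) (b (a (b (l 16705592) (a (b (l 16166264) (l 15383984)) (l 16607224))) (l 16777216)) (a (b (a (b (a (l 14139536) (l 14876168)) (a (l 13775632) (l 13990624))) (b (l 15924816) (a (l 14762592) (l 15545312)))) (a (b (a (l 13605504) (l 13726344)) (a (l 2) (l 13584920))) (b (a (l 13907976) (l 14648456)) (a (l 13691496) (l 13836192))))) (b (l 16616584) (a (b (l 15780128) (l 14749360)) (l 16442856)))))) (b (b (l 1) (a (b (l 1) (a (l 16777216) (l 1))) (l 1))) (a (a (l 16777168) (l 555156479735)) (a (a (l 15096576) (l 14301168)) (a (l 590584614535) (l 595416725799)))))), by decide +kernel⟩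

theorem c_pm_112 : CertNX 536870912 469762048 536870912 469762048 1046898278 26843546 3 true true false .dn 1 1 2
    ndN5q1 ndN5q1 pcN2 Cut.none Ext.none :=
  certNX1 (fam := true) (s1 := true) (s2 := false) (a := 1) (b := 1) (c := 2) (cn := .dn) (n1 := ndN5q1) (n2 := ndN5q1) (pc := pcN2) (cut := Cut.none) (xt := Ext.none) (P1 := 536870912) (W1 := 469762048) (P2 := 536870912) (W2 := 469762048) (P3 := 1046898278) (W3 := 26843546) (N0 := 3)
    rfl (fun _ => rfl) k0_pm_112

noncomputable def f_pm_113 : ℕ → ℕ → ℕ → ℕ → Bool := onCell 536870912 469762048 536870912 469762048 1046898278 26843546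
    (rowNX 3 0 true true false .nn 1 1 3 (qsf 536870912 469762048 536870912 469762048 3) ndN5q1 ndN5q1 pcN3 Cut.none Ext.none)

def k0_pm_113 : ∃ t, chk3 f_pm_113 t 1 1 1 = true :=
  ⟨(b (a (l 1) (a (l 536903351671) (a (l 519720433191) (a (l 13557320) (l 13693848))))) (a (b (l 536903330695) (b (l 519720433191) (b (l 13557320) (l 13693848)))) (b (a (b (l 16513432) (l 15975080)) (a (b (l 14704856) (l 14189096)) (b (l 13737336) (l 13230832)))) (a (b (a (l 14704856) (l 14189096)) (a (l 13737336) (l 13230832))) (b (a (l 12741096) (l 11838608)) (a (l 11838608) (b (l 10816856) (l 11012648)))))))), by decide +kernel⟩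

theorem c_pm_113 : CertNX 536870912 469762048 536870912 469762048 1046898278 26843546 3 true true false .nn 1 1 3
    ndN5q1 ndN5q1 pcN3 Cut.none Ext.none :=
  certNX0 (fam := true) (s1 := true) (s2 := false) (a := 1) (b := 1) (c := 3) (cn := .nn) (n1 := ndN5q1) (n2 := ndN5q1) (pc := pcN3) (cut := Cut.none) (xt := Ext.none) (P1 := 536870912) (W1 := 469762048) (P2 := 536870912) (W2 := 469762048) (P3 := 1046898278) (W3 := 26843546) (N0 := 3)
    rfl k0_pm_113

noncomputable def f_pm_123 : ℕ → ℕ → ℕ → ℕ → Bool := onCell 1610612736 536870912 1073741824 536870912 1046898278 26843546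
    (rowNX 3 2 true true false .npn 1 2 3 (qsf 536870912 469762048 1073741824 536870912 3) ndN5q1 ndN5q2 pcN3 Cut.none Ext.none)

def k0_pm_123 : ∃ t, chk3 f_pm_123 t 1 1 1 = true :=
  ⟨(a (b (b (a (a (l 15130952) (l 15130952)) (a (l 15130952) (l 15130952))) (a (b (b (l 14488456) (l 1)) (l 1)) (b (a (l 14829944) (b (l 14488456) (l 15362176))) (a (l 16546792) (l 16546792))))) (a (l 1) (a (l 1) (l 16777216)))) (a (a (a (b (b (l 4) (b (l 14892856) (l 16546792))) (l 16777216)) (l 4)) (l 4)) (l 4))), by decide +kernel⟩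

theorem c_pm_123 : CertNX 536870912 469762048 1073741824 536870912 1046898278 26843546 3 true true false .npn 1 2 3
    ndN5q1 ndN5q2 pcN3 Cut.none Ext.none :=
  certNX2 (fam := true) (s1 := true) (s2 := false) (a := 1) (b := 2) (c := 3) (cn := .npn) (n1 := ndN5q1) (n2 := ndN5q2) (pc := pcN3) (cut := Cut.none) (xt := Ext.none) (P1 := 536870912) (W1 := 469762048) (P2 := 1073741824) (W2 := 536870912) (P3 := 1046898278) (W3 := 26843546) (N0 := 3)
    rfl (fun _ => rfl) k0_pm_123

noncomputable def f_pm_133 : ℕ → ℕ → ℕ → ℕ → Bool := onCell 536870912 469762048 0 1230186008 1046898278 26843546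
    (rowNX 3 0 true true false .dn 1 3 3 (qsf 536870912 469762048 0 1230186008 3) ndN5q1 ndN5q3 pcN3 Cut.none Ext.none)

def k0_pm_133 : ∃ t, chk3 f_pm_133 t 1 1 1 = true :=
  ⟨(b (l 2) (l 4)), by decide +kernel⟩

theorem c_pm_133 : CertNX 536870912 469762048 0 1230186008 1046898278 26843546 3 true true false .dn 1 3 3
    ndN5q1 ndN5q3 pcN3 Cut.none Ext.none :=
  certNX0 (fam := true) (s1 := true) (s2 := false) (a := 1) (b := 3) (c := 3) (cn := .dn) (n1 := ndN5q1) (n2 := ndN5q3) (pc := pcN3) (cut := Cut.none) (xt := Ext.none) (P1 := 536870912) (W1 := 469762048) (P2 := 0) (W2 := 1230186008) (P3 := 1046898278) (W3 := 26843546) (N0 := 3)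
    rfl k0_pm_133

noncomputable def f_pm_202 : ℕ → ℕ → ℕ → ℕ → Bool := onCell 1073741824 536870912 0 536870912 1046898278 26843546
    (rowNX 3 2 true true false .pp 2 0 2 (qsf 1073741824 536870912 0 536870912 2) ndN5q2 ndN5q0 pcN2 Cut.none Ext.none)

def k0_pm_202 : ∃ t, chk3 f_pm_202 t 16 32 1 = true :=
  ⟨(b (a (l 3) (c (c (a (a (l 16619544) (c (l 16608936) (a (l 16615648) (l 16523528)))) (a (c (a (l 16612392) (c (l 16617632) (l 16646192))) (l 16575440)) (c (l 16642072) (l 16686968)))) (a (a (a (l 3) (c (l 16565288) (l 16660832))) (c (a (c (l 16636432) (l 16661248)) (l 16667856)) (l 16679256))) (l 16705832))) (c (b (l 239611675303) (c (l 235316702871) (a (l 16679528) (l 16716944)))) (b (c (l 243906585287) (c (l 243369704535) (l 243369698135))) (c (l 16698872) (l 16710904)))))) (a (b (l 3) (a (l 1) (a (l 3) (c (c (l 16591688) (c (l 16550752) (a (l 16531080) (c (l 16526328) (l 16489536))))) (c (c (a (c (l 16532208) (l 16533176)) (l 16541328)) (l 16589656)) (l 16608960))))))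 (c (a (c (a (b (l 16631920) (l 16589944)) (c (l 16611888) (a (c (l 16600656) (l 16594896)) (c (l 16606320) (l 16553640))))) (c (a (a (l 16575624) (c (l 16582568) (l 16585408))) (c (a (l 16559688) (l 16627552)) (l 16617408))) (a (c (a (b (l 16603120) (l 16495992)) (l 16599552)) (a (l 16582240) (l 16597448))) (l 16623400)))) (c (a (c (b (l 16642616) (l 16613824)) (l 16536384)) (b (l 16686664) (l 16649432))) (b (l 16684592) (l 16633488)))) (c (a (c (l 16615680) (l 16633624)) (b (l 16684776) (l 16668936))) (a (l 16654536) (l 16718552)))))), by decide +kernel⟩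

def k1_pm_202 : ∃ t, chk3 f_pm_202 t 16 33 1 = true :=
  ⟨(a (b (a (l 1) (a (l 1) (a (l 1) (c (c (l 16454792) (c (l 16488816) (l 16400760))) (c (c (l 16550920) (l 16580120)) (l 16589352)))))) (l 1)) (a (b (c (c (a (b (l 16522736) (l 16458984)) (c (l 16492720) (b (l 16471232) (a (l 16459896) (l 16453912))))) (a (c (a (l 16465672) (l 16369112)) (a (c (l 16506704) (l 16536616)) (l 16540488))) (c (b (l 16401536) (l 16343672)) (l 16563696)))) (c (a (l 16543784) (l 16618680)) (l 16624368))) (a (l 1) (c (c (l 16437888) (l 16528376)) (l 16609720)))) (c (c (a (b (c (a (l 16459920) (l 16477736)) (b (l 16527640) (l 16442192))) (l 16466112)) (b (b (l 16582752) (l 16531368)) (l 16503864))) (l 16449496)) (c (b (l 16662256) (l 16651816)) (l 16660744))))), by decide +kernel⟩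

def k2_pm_202 : ∃ t, chk3 f_pm_202 t 16 17 1 = true :=
  ⟨(b (b (a (l 1) (a (l 1) (c (c (l 686153481623) (l 16579912)) (l 915397957063)))) (l 1)) (l 1)), by decide +kernel⟩

def k3_pm_202 : ∃ t, chk3 f_pm_202 t 16 9 1 = true :=
  ⟨(l 1), by decide +kernel⟩

def k4_pm_202 : ∃ t, chk3 f_pm_202 t 17 4 1 = true :=
  ⟨(a (b (b (b (c (b (a (c (l 16691312) (l 16648552)) (c (l 16636432) (l 16594368))) (a (c (b (l 16688992) (l 16687728)) (b (l 16673600) (l 16601104))) (c (b (l 16624944) (l 16660056)) (b (l 16613192) (l 16664112))))) (b (a (c (b (l 16618944) (l 16615416)) (b (c (l 16607056) (b (l 16594112) (l 16608016))) (l 16632696))) (c (b (l 16570360) (l 16584016)) (b (c (l 16558192) (l 16551216)) (l 16579680)))) (a (c (a (l 16702032) (l 16672928)) (l 16641488)) (c (l 16629744) (l 16603920))))) (c (b (c (l 16500064) (a (l 16654320) (l 16696448))) (a (l 16580080) (l 16660680))) (a (l 16480720) (l 16658328)))) (b (c (b (a (l 16458904) (l 16592856)) (c (l 16609472) (l 16682536)))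 (a (l 16678728) (l 16561096))) (a (l 1) (b (c (l 815002912983) (l 16707016)) (l 1))))) (l 1)) (b (b (b (c (b (a (b (l 16560952) (l 16543624)) (l 16463592)) (c (a (l 16563760) (l 16468928)) (b (l 16497816) (l 16542232)))) (c (b (a (b (l 16516792) (l 16521568)) (l 16352200)) (l 16510000)) (b (b (a (b (l 16495768) (l 16478048)) (l 16289264)) (l 16471472)) (l 16462048)))) (c (b (c (a (l 16648728) (l 16548728)) (l 16570776)) (a (l 16658208) (l 16557552))) (b (l 16514544) (c (l 16529840) (l 16519320))))) (c (b (c (a (l 16705088) (l 16589008)) (l 16405568)) (c (a (l 16728216) (l 16600392)) (c (l 16640144) (l 16634920)))) (c (b (b (l 16559672) (l 16584240)) (a (l 16707912) (l 16592216))) (b (l 16414312) (l 16636024))))) (a (l 1) (b (b (c (c (l 786548562391) (l 687764332775)) (l 16520096)) (l 1)) (l 1))))), by decide +kernel⟩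

def k5_pm_202 : ∃ t, chk3 f_pm_202 t 8 5 1 = true :=
  ⟨(l 1), by decide +kernel⟩

def k6_pm_202 : ∃ t, chk3 f_pm_202 t 18 4 1 = true :=
  ⟨(b (c (b (b (b (a (l 16448376) (l 16514712)) (a (c (l 16455656) (l 16462352)) (c (l 16527544) (l 16535744)))) (b (a (l 16458472) (l 16573168)) (a (l 16464320) (c (l 16543384) (l 16593464))))) (c (b (a (l 16554672) (l 16578368)) (a (l 16528712) (l 16494424))) (a (b (l 16508464) (c (l 16506856) (l 16505000))) (b (l 16535176) (c (l 16465400) (l 16317296)))))) (b (b (b (c (a (l 16381448) (l 16493096)) (a (c (l 16348608) (l 16361680)) (b (l 16472384) (l 16490968)))) (a (c (l 16456976) (l 16430376)) (l 16316936))) (b (a (l 16463208) (l 16546128)) (a (c (l 16478616) (b (l 16471248) (l 16473888))) (c (l 16556208) (c (a (l 16527536) (l 16345152)) (l 16550944)))))) (a (c (c (b (l 16425064) (b (l 16503688) (l 16519256))) (b (a (l 16461368) (l 16481592)) (b (l 16531136) (l 16510176)))) (b (c (l 16489072) (l 16495056)) (l 16504312))) (c (b (c (b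 (l 16533408) (l 16499928)) (a (l 16374032) (c (l 16343696) (l 16528744)))) (b (c (l 16491952) (c (l 16489264) (l 16483544))) (l 16462336))) (b (c (a (l 16523640) (l 16540256)) (l 16530128)) (l 16470408)))))) (b (b (c (c (a (c (l 16401704) (l 16297352)) (c (l 16205056) (b (l 16391776) (l 16289008)))) (a (c (b (l 16473416) (l 16378952)) (b (l 16454024) (l 16372184))) (c (b (l 16363456) (l 16276168)) (l 16333648)))) (a (l 16267448) (c (l 16328608) (l 16321776)))) (c (c (c (a (l 813928286183) (b (l 16172872) (l 16041936))) (l 15934976)) (a (l 16223800) (l 16088776))) (a (l 16125072) (l 16029072)))) (a (l 1) (a (l 1) (a (l 1) (c (l 739302342935) (l 15763624))))))), by decide +kernel⟩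

def k7_pm_202 : ∃ t, chk3 f_pm_202 t 19 8 2 = true :=
  ⟨(b (b (a (a (b (l 16519648) (c (l 16523864) (l 16510480))) (b (l 16459928) (l 16306904))) (b (l 16199104) (c (l 16195464) (l 16197736)))) (a (a (b (c (l 16450320) (l 16467016)) (c (l 16444688) (l 16501288))) (b (c (l 16530296) (l 16519808)) (l 16422480))) (b (c (l 16200816) (l 16221552)) (c (l 16216856) (l 16161008))))) (a (a (c (b (l 16574648) (l 16365936)) (b (l 16323904) (b (c (l 16454512) (l 16445000)) (c (l 16406304) (l 16402160))))) (b (c (l 16425272) (l 16382472)) (c (l 16278224) (c (l 16260432) (l 16280624))))) (c (b (l 16103248) (c (l 15972688) (l 15938216))) (b (c (l 16062448) (l 15987016)) (c (l 15897944) (b (l 15969400) (l 15912176))))))), by decide +kernel⟩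

def k8_pm_202 : ∃ t, chk3 f_pm_202 t 19 8 3 = true :=
  ⟨(b (b (a (b (a (c (l 16539960) (c (l 16532888) (l 16505952))) (c (l 16438712) (b (l 16419448) (l 16435296)))) (a (c (l 16510768) (l 16535048)) (l 16424944))) (b (c (b (l 16169824) (l 16147912)) (b (c (l 16155600) (l 16084112)) (l 16159632))) (c (l 16189208) (l 16161672)))) (a (a (c (b (l 16517888) (c (l 16536184) (l 16542696))) (c (c (a (l 16562608) (a (l 16532656) (l 16531672))) (a (l 16567200) (a (l 16538016) (l 16370096)))) (a (l 16555144) (a (l 16525528) (l 16336752))))) (c (b (l 16474664) (c (l 16452552) (l 16443840))) (b (c (l 16438312) (l 16450040)) (l 16265272)))) (c (b (c (l 16186800) (l 16144224)) (c (l 16126200) (b (l 16130760) (l 16096984)))) (b (c (a (l 16240328) (l 16024384)) (c (l 16019416) (l 16131952))) (a (c (l 16199688) (l 16227160)) (l 15810248)))))) (b (c (b (a (a (c (l 16542984) (c (l 16542688) (l 16534128))) (c (l 16393024) (c (l 16384160) (l 16385928)))) (c (l 16052400) (c (l 16053392) (l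 15839712)))) (a (a (c (l 16486472) (c (l 16500456) (b (l 16514000) (l 16483176)))) (c (l 16334448) (l 16142776))) (c (l 15971496) (c (l 16017280) (l 16002408))))) (b (c (a (a (a (l 16561400) (a (l 16568696) (l 16554088))) (l 16418200)) (l 15902024)) (l 16003184)) (a (l 16413568) (l 15995472)))) (c (b (c (a (a (a (l 16473504) (l 16454784)) (l 16305320)) (c (l 15966104) (l 15954984))) (a (l 16368040) (l 15950448))) (a (l 16322824) (l 15902344))) (a (l 16320096) (l 15915648))))), by decide +kernel⟩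

def k9_pm_202 : ∃ t, chk3 f_pm_202 t 19 9 1 = true :=
  ⟨(a (b (c (c (a (b (c (b (l 16329216) (l 16107760)) (b (l 16322056) (l 16053592))) (c (b (l 15962152) (l 15919888)) (l 15982640))) (b (c (l 16086240) (l 16082504)) (l 15812304))) (b (c (a (b (l 16272136) (l 16185192)) (l 16096768)) (l 16080976)) (l 15695232))) (a (b (l 16156984) (l 15952184)) (l 15689968))) (a (b (c (c (l 15750072) (l 15731648)) (l 15703488)) (l 1)) (c (b (l 15559272) (l 15497360)) (l 15482632)))) (b (c (b (c (c (l 15707880) (l 15656256)) (l 15750808)) (l 15477552)) (b (l 15725888) (l 15432784))) (c (b (l 15233800) (l 15168320)) (l 14913136)))), by decide +kernel⟩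

def k10_pm_202 : ∃ t, chk3 f_pm_202 t 9 5 1 = true :=
  ⟨(a (l 1) (b (a (l 1) (b (c (l 769365751719) (l 15051320)) (l 1))) (l 1))), by decide +kernel⟩

def k11_pm_202 : ∃ t, chk3 f_pm_202 t 4 3 1 = true :=
  ⟨(l 1), by decide +kernel⟩

def k12_pm_202 : ∃ t, chk3 f_pm_202 t 10 32 1 = true :=
  ⟨(a (c (a (b (l 15834432) (c (l 15686192) (l 15658336))) (a (b (l 15653168) (b (l 15537848) (l 15532744))) (a (b (l 15701472) (b (l 15459792) (l 15406488))) (b (a (l 15794096) (l 15844000)) (b (a (l 15532392) (l 15544080)) (l 15421648)))))) (a (b (c (l 15672216) (c (l 15633400) (l 15621456))) (a (l 15889976) (c (l 15690912) (c (l 15642680) (l 15642600))))) (a (b (b (c (l 15647336) (l 15432680)) (c (l 15545408) (l 15525456))) (c (l 15503928) (c (l 15459088) (l 15452568)))) (a (b (b (l 15566088) (l 15367464)) (c (b (l 15439968) (l 15381808)) (a (c (l 15361264) (l 15352112)) (b (l 15393400) (l 15297208))))) (b (a (c (l 15758304) (l 15567632)) (c (l 15663592) (b (l 15719832) (l 15730992))))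 (c (a (l 15448560) (l 15294928)) (b (a (l 15462264) (l 15541224)) (l 15338840)))))))) (c (b (a (b (l 16246056) (l 15921032)) (a (l 16115312) (l 15740184))) (a (c (b (l 15907552) (l 15743184)) (b (l 15904592) (l 15750312))) (c (l 16230984) (l 16163680)))) (b (c (a (b (l 16213920) (l 15858832)) (b (l 15936480) (l 16000424))) (a (b (l 16053024) (c (l 15802304) (l 15966960))) (b (c (l 15839632) (l 15772528)) (c (l 16033128) (l 16100936))))) (a (c (c (l 15706600) (b (l 15898984) (l 15708408))) (a (l 15410024) (l 15853088))) (a (c (l 15987040) (l 16209296)) (c (l 16127592) (l 16205576))))))), by decide +kernel⟩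

def k13_pm_202 : ∃ t, chk3 f_pm_202 t 10 33 1 = true :=
  ⟨(a (a (c (c (b (l 15785784) (l 15798312)) (b (l 15821560) (l 15737792))) (c (b (b (l 15782472) (l 15739968)) (c (l 15697808) (c (l 15677624) (l 15572872)))) (b (c (b (l 15750120) (l 15706840)) (l 15642648)) (c (l 15567672) (l 15682360))))) (c (c (a (l 15522728) (b (l 15407952) (l 15385408))) (a (l 15477376) (c (l 15362640) (l 15332928)))) (a (c (b (c (l 15471696) (l 15431064)) (c (l 15398448) (l 15190712))) (c (l 15403848) (l 15405792))) (c (c (b (l 15330320) (l 15266864)) (a (b (l 15316096) (c (l 15272560) (l 15276384))) (l 15262368))) (a (a (l 15254320) (l 15275976)) (l 15260616)))))) (b (c (a (c (a (l 15452496) (l 15665544)) (a (l 15420144) (l 15637632))) (c (l 16065240) (l 16046144))) (a (a (c (c (l 15377544) (b (l 15393936) (l 15276280))) (c (l 15223000) (l 15333384))) (c (l 15396752) (l 15588720))) (c (a (l 15765216) (l 16190648)) (l 15846624)))) (c (a (c (l 15284880) (a (l 15278872) (l 15336016))) (c (l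 15780368) (a (l 15567888) (l 15872968)))) (a (c (a (c (l 15228800) (l 15252048)) (c (l 15300048) (l 15213352))) (l 15249760)) (c (a (l 15488400) (l 15878856)) (l 15667160)))))), by decide +kernel⟩

def k14_pm_202 : ∃ t, chk3 f_pm_202 t 10 17 1 = true :=
  ⟨(b (a (a (c (c (l 15681872) (c (l 15630016) (l 15536504))) (c (c (c (l 15603496) (b (l 15625624) (l 15584152))) (b (c (l 15633680) (l 15612440)) (l 15566200))) (l 15581688))) (c (c (a (l 15407096) (l 15303912)) (a (c (l 15345824) (l 15329424)) (c (l 15242328) (a (l 15156320) (l 15225432))))) (c (a (c (b (l 15348056) (l 15308488)) (l 15219936)) (c (b (a (l 15251408) (l 15233032)) (l 15199736)) (l 15205000))) (l 15238624)))) (a (c (c (l 15250128) (c (l 15210584) (b (l 15206288) (l 15190776)))) (c (a (l 15168848) (l 15203968)) (l 15147568))) (b (c (c (l 15245056) (a (l 15166296) (l 15543872))) (l 15190456)) (c (c (a (l 15218632) (l 15313048)) (c (l 15250024) (l 15225800))) (l 15195984))))) (a (c (c (a (c (l 15536088) (l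 15516288)) (a (c (l 15277648) (l 15268208)) (c (l 15184448) (a (l 15202168) (l 15196232))))) (a (c (l 15524168) (b (l 15546272) (l 15477120))) (c (a (l 15269896) (b (l 15201664) (l 15160928))) (l 15201216)))) (a (l 15478664) (a (l 15210080) (l 15131512)))) (c (c (a (c (l 15200888) (l 15193152)) (c (l 15212744) (l 15194888))) (a (c (l 15175240) (l 15151840)) (l 15162368))) (l 15118672)))), by decide +kernel⟩

def k15_pm_202 : ∃ t, chk3 f_pm_202 t 10 9 1 = true :=
  ⟨(a (b (c (a (b (c (c (l 15360024) (l 15352640)) (l 15317688)) (l 15050984)) (b (c (c (a (l 15125208) (l 14821800)) (l 15069944)) (l 15048712)) (a (l 14830192) (l 14810112)))) (a (b (l 15281328) (l 14991120)) (a (l 14899216) (l 14863928)))) (a (c (c (l 14686784) (l 14756120)) (l 14555000)) (c (a (c (l 14598288) (l 14559504)) (c (l 14616016) (l 14577760))) (a (l 14500216) (l 14519264))))) (b (c (a (c (b (c (l 15081344) (l 15062040)) (l 14870640)) (l 14941360)) (l 14949464)) (a (l 14895144) (l 14954264))) (c (a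 (c (l 14697424) (l 14660944)) (l 14801880)) (a (l 14605168) (l 14733096))))), by decide +kernel⟩

def k16_pm_202 : ∃ t, chk3 f_pm_202 t 10 5 1 = true :=
  ⟨(a (b (a (b (c (c (l 14574496) (l 14660376)) (l 14599344)) (l 1)) (b (a (c (l 14467792) (l 14424336)) (c (c (l 14590592) (l 14550192)) (l 14488448))) (a (l 1) (c (b (l 14592216) (l 1)) (l 1059811728359))))) (l 1)) (b (b (c (a (l 14693248) (l 14866680)) (a (l 14617072) (l 14798168))) (c (a (b (l 14737224) (l 968007410135)) (b (l 14951856) (l 15064912))) (a (b (l 14659408) (l 14749632)) (l 14947864)))) (b (l 15107528) (l 1)))), by decide +kernel⟩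

def k17_pm_202 : ∃ t, chk3 f_pm_202 t 11 4 1 = true :=
  ⟨(b (b (a (a (b (c (b (l 15275896) (b (l 15489288) (a (l 15995128) (l 15698424)))) (b (c (c (l 15438944) (l 15282296)) (b (l 15219464) (l 15496936))) (c (a (l 15897072) (l 15587744)) (l 15740680)))) (c (c (b (l 16025216) (l 16310016)) (b (l 15850480) (a (l 16177288) (l 16205992)))) (c (b (l 15970848) (l 16182208)) (l 16207088)))) (b (c (b (l 14875448) (c (l 15200952) (l 15165488))) (b (c (l 14851048) (l 14700048)) (l 14894904))) (b (c (c (l 15424096) (l 15415328)) (l 15436728)) (c (a (l 15768840) (l 15547048)) (l 15754376))))) (a (b (c (b (a (l 14514784) (l 14446136)) (c (l 14549928) (a (l 14750816) (l 14579280)))) (b (c (l 14265048) (l 14384336)) (c (l 14636408) (l 14625920)))) (c (b (l 14694992) (l 15171624)) (l 15046152))) (b (c (b (l 14444840) (l 14534552)) (b (l 14389800) (l 14460160))) (c (b (l 14614608) (l 14791632)) (l 14713288))))) (a (a (b (c (c (a (l 15671560) (l 16053864)) (c (l 15636368) (l 15845648)))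 (l 15573728)) (c (c (b (a (l 15315224) (l 15582008)) (l 15284704)) (l 15222056)) (a (l 15208920) (l 15407808)))) (c (b (a (c (l 16312912) (l 16342848)) (l 15873048)) (c (l 15853056) (l 15917384))) (b (l 16139440) (l 15796504)))) (c (b (b (l 15016544) (l 15390856)) (a (l 16139944) (l 15772000))) (b (l 15347976) (l 15838032))))) (a (b (a (c (l 15087008) (l 15032384)) (b (c (a (l 15271008) (l 15488784)) (a (l 15224456) (l 15450688))) (l 15105568))) (c (a (l 14938848) (l 15091568)) (l 14911360))) (b (b (a (c (l 15797016) (l 15857960)) (l 16319992)) (a (a (l 15066040) (l 15301032)) (l 15615592))) (a (c (l 15110800) (l 15055696)) (b (l 14866424) (l 14941864)))))), by decide +kernel⟩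

def k18_pm_202 : ∃ t, chk3 f_pm_202 t 11 5 1 = true :=
  ⟨(a (b (b (a (c (l 15051720) (l 14990888)) (c (l 15247136) (l 15195016))) (b (a (c (l 15178184) (l 15120568)) (l 15378704)) (l 15388592))) (b (l 15584648) (l 15948976))) (b (b (a (l 15239848) (l 15074120)) (l 15378416)) (b (l 15614544) (l 15949312)))), by decide +kernel⟩

def k19_pm_202 : ∃ t, chk3 f_pm_202 t 5 3 1 = true :=
  ⟨(a (l 1) (a (l 1) (b (b (l 16485664) (l 1)) (l 1)))), by decide +kernel⟩

def k20_pm_202 : ∃ t, chk3 f_pm_202 t 3 1 1 = true :=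
  ⟨(b (b (b (a (b (c (b (a (b (l 14444840) (l 14533712)) (l 14252488)) (a (l 14614512) (l 14614280))) (b (a (b (l 14389800) (l 14459288)) (c (l 14443648) (l 14416816))) (a (l 14595144) (l 14594904)))) (a (a (b (c (l 14868584) (l 14844696)) (c (l 15059888) (l 15206720))) (l 14864120)) (c (l 14886328) (l 14848176)))) (b (b (c (l 14483176) (b (l 14389800) (l 14459288))) (c (l 14614280) (l 14594904))) (a (l 14863840) (l 14863840)))) (a (a (b (a (b (l 15646008) (l 16155272)) (b (l 15307856) (l 15732632))) (a (b (l 15425960) (a (l 14954256) (l 15299104))) (b (l 16463616) (l 16009992)))) (b (a (l 15431000) (l 15430744)) (a (l 15930544) (l 16018464)))) (b (l 15430744) (l 16018240)))) (a (b (a (a (b (a (l 14895440) (l 14849400)) (l 14999688)) (b (a (l 14926008) (l 15424144)) (l 14750560))) (a (b (l 16106592) (a (l 14889016) (l 15289728))) (b (l 16414416) (l 16004576)))) (a (b (l 15028152) (l 15322144)) (b (a (l 14614768) (l 14786144)) (a (l 14772624) (l 14545832))))) (b (a (b (l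 16269256) (l 16310424)) (l 16376120)) (a (b (a (l 15897840) (l 16591640)) (a (l 14934888) (l 15844864))) (b (l 16675720) (l 16627744)))))) (a (b (a (b (l 15824688) (l 375842434391)) (b (l 15130952) (l 15950512))) (a (l 1) (b (l 16397992) (l 1)))) (b (a (b (a (b (l 14545736) (l 14772512)) (b (l 14934800) (l 14545736))) (l 15130952)) (b (a (b (l 15844784) (l 14934800)) (b (l 16546792) (l 15844784))) (a (l 14642960) (b (l 14934800) (l 14545736))))) (b (a (l 15950512) (l 15130952)) (a (l 16649648) (l 15950512)))))), by decide +kernel⟩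

theorem s21_pm_202 : ∃ t, chk3 f_pm_202 t 11 2 1 = true := ex3_b k17_pm_202 k18_pm_202

theorem s22_pm_202 : ∃ t, chk3 f_pm_202 t 10 16 1 = true := ex3_b k12_pm_202 k13_pm_202

theorem s23_pm_202 : ∃ t, chk3 f_pm_202 t 10 8 1 = true := ex3_b s22_pm_202 k14_pm_202

theorem s24_pm_202 : ∃ t, chk3 f_pm_202 t 10 4 1 = true := ex3_b s23_pm_202 k15_pm_202

theorem s25_pm_202 : ∃ t, chk3 f_pm_202 t 10 2 1 = true := ex3_b s24_pm_202 k16_pm_202

theorem s26_pm_202 : ∃ t, chk3 f_pm_202 t 5 2 1 = true := ex3_a s25_pm_202 s21_pm_202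

theorem s27_pm_202 : ∃ t, chk3 f_pm_202 t 5 1 1 = true := ex3_b s26_pm_202 k19_pm_202

theorem s28_pm_202 : ∃ t, chk3 f_pm_202 t 19 8 1 = true := ex3_c k7_pm_202 k8_pm_202

theorem s29_pm_202 : ∃ t, chk3 f_pm_202 t 19 4 1 = true := ex3_b s28_pm_202 k9_pm_202

theorem s30_pm_202 : ∃ t, chk3 f_pm_202 t 9 4 1 = true := ex3_a k6_pm_202 s29_pm_202

theorem s31_pm_202 : ∃ t, chk3 f_pm_202 t 9 2 1 = true := ex3_b s30_pm_202 k10_pm_202

theorem s32_pm_202 : ∃ t, chk3 f_pm_202 t 16 16 1 = true := ex3_b k0_pm_202 k1_pm_202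

theorem s33_pm_202 : ∃ t, chk3 f_pm_202 t 16 8 1 = true := ex3_b s32_pm_202 k2_pm_202

theorem s34_pm_202 : ∃ t, chk3 f_pm_202 t 16 4 1 = true := ex3_b s33_pm_202 k3_pm_202

theorem s35_pm_202 : ∃ t, chk3 f_pm_202 t 8 4 1 = true := ex3_a s34_pm_202 k4_pm_202

theorem s36_pm_202 : ∃ t, chk3 f_pm_202 t 8 2 1 = true := ex3_b s35_pm_202 k5_pm_202

theorem s37_pm_202 : ∃ t, chk3 f_pm_202 t 4 2 1 = true := ex3_a s36_pm_202 s31_pm_202

theorem s38_pm_202 : ∃ t, chk3 f_pm_202 t 4 1 1 = true := ex3_b s37_pm_202 k11_pm_202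

theorem s39_pm_202 : ∃ t, chk3 f_pm_202 t 2 1 1 = true := ex3_a s38_pm_202 s27_pm_202

theorem s40_pm_202 : ∃ t, chk3 f_pm_202 t 1 1 1 = true := ex3_a s39_pm_202 k20_pm_202

theorem c_pm_202 : CertNX 1073741824 536870912 0 536870912 1046898278 26843546 3 true true false .pp 2 0 2
    ndN5q2 ndN5q0 pcN2 Cut.none Ext.none :=
  certNX2 (fam := true) (s1 := true) (s2 := false) (a := 2) (b := 0) (c := 2) (cn := .pp) (n1 := ndN5q2) (n2 := ndN5q0) (pc := pcN2) (cut := Cut.none) (xt := Ext.none) (P1 := 1073741824) (W1 := 536870912) (P2 := 0) (W2 := 536870912) (P3 := 1046898278) (W3 := 26843546) (N0 := 3)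
    rfl (fun _ => rfl) s40_pm_202

noncomputable def f_pm_203 : ℕ → ℕ → ℕ → ℕ → Bool := onCell 1610612736 536870912 0 536870912 1046898278 26843546
    (rowNX 3 2 true true false .up 2 0 3 (qsf 1073741824 536870912 0 536870912 3) ndN5q2 ndN5q0 pcN3 Cut.none Ext.none)

def k0_pm_203 : ∃ t, chk3 f_pm_203 t 1 1 1 = true :=
  ⟨(a (b (b (b (a (b (b (c (l 14483176) (l 14428624)) (l 14586400)) (l 14863840)) (l 2)) (a (b (l 15430744) (l 16018240)) (a (l 674945001623) (l 2)))) (a (b (l 16376120) (l 16726952)) (a (l 16535024) (l 16535024)))) (a (b (a (b (l 16668152) (a (b (l 15844784) (l 14934800)) (l 16129032))) (b (l 16777216) (l 16668152))) (a (b (a (l 14768784) (b (l 14934800) (l 14545736))) (l 15130952)) (b (a (b (l 15844784) (l 14934800)) (l 16170976)) (a (l 14768784) (b (l 14934800) (l 14545736)))))) (b (a (l 16777216) (l 16777216)) (a (b (l 16668152) (a (b (l 15844784) (l 14934800)) (l 16170976))) (a (l 16692456) (l 16777096)))))) (a (a (b (a (b (l 2) (l 16535024)) (l 2))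 (l 16777216)) (l 4)) (l 4))), by decide +kernel⟩

theorem c_pm_203 : CertNX 1073741824 536870912 0 536870912 1046898278 26843546 3 true true false .up 2 0 3
    ndN5q2 ndN5q0 pcN3 Cut.none Ext.none :=
  certNX2 (fam := true) (s1 := true) (s2 := false) (a := 2) (b := 0) (c := 3) (cn := .up) (n1 := ndN5q2) (n2 := ndN5q0) (pc := pcN3) (cut := Cut.none) (xt := Ext.none) (P1 := 1073741824) (W1 := 536870912) (P2 := 0) (W2 := 536870912) (P3 := 1046898278) (W3 := 26843546) (N0 := 3)
    rfl (fun _ => rfl) k0_pm_203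

noncomputable def f_pm_213 : ℕ → ℕ → ℕ → ℕ → Bool := onCell 1073741824 536870912 1610612736 536870912 1046898278 26843546
    (rowNX 3 1 true true false .pnn 2 1 3 (qsf 1073741824 536870912 536870912 469762048 3) ndN5q2 ndN5q1 pcN3 Cut.none Ext.none)

def k0_pm_213 : ∃ t, chk3 f_pm_213 t 1 1 1 = true :=
  ⟨(b (a (a (b (b (l 15130952) (l 15130952)) (b (l 15130952) (l 15130952))) (b (a (a (l 14488456) (l 1)) (l 1)) (a (b (l 14829944) (a (l 14488456) (l 15362176))) (b (l 16546792) (l 16546792))))) (b (l 1) (b (l 1) (l 16777216)))) (b (b (a (a (l 4) (b (a (l 14892856) (l 16546792)) (l 4))) (l 16777216)) (l 4)) (l 4))), by decide +kernel⟩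

theorem c_pm_213 : CertNX 1073741824 536870912 536870912 469762048 1046898278 26843546 3 true true false .pnn 2 1 3
    ndN5q2 ndN5q1 pcN3 Cut.none Ext.none :=
  certNX1 (fam := true) (s1 := true) (s2 := false) (a := 2) (b := 1) (c := 3) (cn := .pnn) (n1 := ndN5q2) (n2 := ndN5q1) (pc := pcN3) (cut := Cut.none) (xt := Ext.none) (P1 := 1073741824) (W1 := 536870912) (P2 := 536870912) (W2 := 469762048) (P3 := 1046898278) (W3 := 26843546) (N0 := 3)
    rfl (fun _ => rfl) k0_pm_213

noncomputable def f_pm_303 : ℕ → ℕ → ℕ → ℕ → Bool := onCell 0 1230186008 0 536870912 1046898278 26843546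
    (rowNX 3 0 true true false .npn 3 0 3 (qsf 0 1230186008 0 536870912 3) ndN5q3 ndN5q0 pcN3 Cut.none Ext.none)

def k0_pm_303 : ∃ t, chk3 f_pm_303 t 1 1 1 = true :=
  ⟨(a (l 4) (a (b (b (a (l 4) (b (a (b (l 4) (l 4)) (b (c (b (l 14483176) (l 14614280)) (b (l 14344736) (l 14594904))) (c (l 14886312) (l 14848152)))) (l 4))) (l 4)) (l 4)) (b (a (b (b (b (b (a (c (l 14483176) (l 14428624)) (c (l 14483176) (l 14428624))) (a (l 14586400) (l 14586400))) (a (c (l 14886328) (l 14848176)) (l 14863840))) (b (c (l 15326952) (a (l 15405616) (l 15405624))) (a (l 4) (c (l 16031296) (l 16005112))))) (b (a (l 4) (c (l 16383000) (l 16369160))) (l 4))) (b (b (b (b (c (l 14483176) (a (l 14428624) (l 14428624))) (a (l 14586400) (l 14586400))) (a (l 14863840) (l 14863840))) (a (b (l 15430744) (l 16018240)) (b (l 15430744) (l 16018240)))) (b (a (c (l 16383016) (l 16369184)) (b (l 16269136) (l 16481336))) (a (c (l 16727792) (l 16726056)) (c (l 16727808) (l 16726080)))))) (a (l 4) (b (a (l 4)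 (b (c (l 16777192) (l 16777192)) (l 4))) (l 4)))))), by decide +kernel⟩

theorem c_pm_303 : CertNX 0 1230186008 0 536870912 1046898278 26843546 3 true true false .npn 3 0 3
    ndN5q3 ndN5q0 pcN3 Cut.none Ext.none :=
  certNX0 (fam := true) (s1 := true) (s2 := false) (a := 3) (b := 0) (c := 3) (cn := .npn) (n1 := ndN5q3) (n2 := ndN5q0) (pc := pcN3) (cut := Cut.none) (xt := Ext.none) (P1 := 0) (W1 := 1230186008) (P2 := 0) (W2 := 536870912) (P3 := 1046898278) (W3 := 26843546) (N0 := 3)
    rfl k0_pm_303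

noncomputable def f_pm_313 : ℕ → ℕ → ℕ → ℕ → Bool := onCell 0 1230186008 536870912 469762048 1046898278 26843546
    (rowNX 3 0 true true false .dn 3 1 3 (qsf 0 1230186008 536870912 469762048 3) ndN5q3 ndN5q1 pcN3 Cut.none Ext.none)

def k0_pm_313 : ∃ t, chk3 f_pm_313 t 1 1 1 = true :=
  ⟨(a (l 2) (l 4)), by decide +kernel⟩

theorem c_pm_313 : CertNX 0 1230186008 536870912 469762048 1046898278 26843546 3 true true false .dn 3 1 3
    ndN5q3 ndN5q1 pcN3 Cut.none Ext.none :=
  certNX0 (fam := true) (s1 := true) (s2 := false) (a := 3) (b := 1) (c := 3) (cn := .dn) (n1 := ndN5q3) (n2 := ndN5q1) (pc := pcN3) (cut := Cut.none) (xt := Ext.none) (P1 := 0) (W1 := 1230186008) (P2 := 536870912) (W2 := 469762048) (P3 := 1046898278) (W3 := 26843546) (N0 := 3)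
    rfl k0_pm_313

noncomputable def f_mm_001 : ℕ → ℕ → ℕ → ℕ → Bool := onCell 0 536870912 0 536870912 1046898278 26843546
    (rowNX 3 0 true false false .up 0 0 1 (qsf 0 536870912 0 536870912 1) ndN5q0 ndN5q0 pcN1 Cut.none Ext.none)

def k0_mm_001 : ∃ t, chk3 f_mm_001 t 1 1 1 = true :=
  ⟨(l 4), by decide +kernel⟩

theorem c_mm_001 : CertNX 0 536870912 0 536870912 1046898278 26843546 3 true false false .up 0 0 1
    ndN5q0 ndN5q0 pcN1 Cut.none Ext.none :=
  certNX0 (fam := true) (s1 := false) (s2 := false) (a := 0) (b := 0) (c := 1) (cn := .up) (n1 := ndN5q0) (n2 := ndN5q0) (pc := pcN1) (cut := Cut.none) (xt := Ext.none) (P1 := 0) (W1 := 536870912) (P2 := 0) (W2 := 536870912) (P3 := 1046898278) (W3 := 26843546) (N0 := 3)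
    rfl k0_mm_001

noncomputable def f_mm_011 : ℕ → ℕ → ℕ → ℕ → Bool := onCell 0 536870912 536870912 469762048 1046898278 26843546
    (rowNX 3 0 true false false .pnn 0 1 1 (qsf 0 536870912 536870912 469762048 1) ndN5q0 ndN5q1 pcN1 Cut.none Ext.none)

def k0_mm_011 : ∃ t, chk3 f_mm_011 t 1 1 1 = true :=
  ⟨(l 4), by decide +kernel⟩

theorem c_mm_011 : CertNX 0 536870912 536870912 469762048 1046898278 26843546 3 true false false .pnn 0 1 1
    ndN5q0 ndN5q1 pcN1 Cut.none Ext.none :=
  certNX0 (fam := true) (s1 := false) (s2 := false) (a := 0) (b := 1) (c := 1) (cn := .pnn) (n1 := ndN5q0) (n2 := ndN5q1) (pc := pcN1) (cut := Cut.none) (xt := Ext.none) (P1 := 0) (W1 := 536870912) (P2 := 536870912) (W2 := 469762048) (P3 := 1046898278) (W3 := 26843546) (N0 := 3)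
    rfl k0_mm_011

noncomputable def f_mm_012 : ℕ → ℕ → ℕ → ℕ → Bool := onCell 0 536870912 536870912 469762048 1046898278 26843546
    (rowNX 3 0 true false false .pnp 0 1 2 (qsf 0 536870912 536870912 469762048 2) ndN5q0 ndN5q1 pcN2 Cut.none Ext.none)

def k0_mm_012 : ∃ t, chk3 f_mm_012 t 1 1 1 = true :=
  ⟨(l 4), by decide +kernel⟩

theorem c_mm_012 : CertNX 0 536870912 536870912 469762048 1046898278 26843546 3 true false false .pnp 0 1 2
    ndN5q0 ndN5q1 pcN2 Cut.none Ext.none :=
  certNX0 (fam := true) (s1 := false) (s2 := false) (a := 0) (b := 1) (c := 2) (cn := .pnp) (n1 := ndN5q0) (n2 := ndN5q1) (pc := pcN2) (cut := Cut.none) (xt := Ext.none) (P1 := 0) (W1 := 536870912) (P2 := 536870912) (W2 := 469762048) (P3 := 1046898278) (W3 := 26843546) (N0 := 3)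
    rfl k0_mm_012

noncomputable def f_mm_022 : ℕ → ℕ → ℕ → ℕ → Bool := onCell 0 536870912 1073741824 536870912 1046898278 26843546
    (rowNX 3 0 true false false .pp 0 2 2 (qsf 0 536870912 1073741824 536870912 2) ndN5q0 ndN5q2 pcN2 Cut.none Ext.none)

def k0_mm_022 : ∃ t, chk3 f_mm_022 t 1 1 1 = true :=
  ⟨(l 4), by decide +kernel⟩

theorem c_mm_022 : CertNX 0 536870912 1073741824 536870912 1046898278 26843546 3 true false false .pp 0 2 2
    ndN5q0 ndN5q2 pcN2 Cut.none Ext.none :=
  certNX0 (fam := true) (s1 := false) (s2 := false) (a := 0) (b := 2) (c := 2) (cn := .pp) (n1 := ndN5q0) (n2 := ndN5q2) (pc := pcN2) (cut := Cut.none) (xt := Ext.none) (P1 := 0) (W1 := 536870912) (P2 := 1073741824) (W2 := 536870912) (P3 := 1046898278) (W3 := 26843546) (N0 := 3)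
    rfl k0_mm_022

noncomputable def f_mm_023 : ℕ → ℕ → ℕ → ℕ → Bool := onCell 0 536870912 1073741824 536870912 1046898278 26843546
    (rowNX 3 0 true false false .up 0 2 3 (qsf 0 536870912 1073741824 536870912 3) ndN5q0 ndN5q2 pcN3 Cut.none Ext.none)

def k0_mm_023 : ∃ t, chk3 f_mm_023 t 1 1 1 = true :=
  ⟨(l 4), by decide +kernel⟩

theorem c_mm_023 : CertNX 0 536870912 1073741824 536870912 1046898278 26843546 3 true false false .up 0 2 3
    ndN5q0 ndN5q2 pcN3 Cut.none Ext.none :=
  certNX0 (fam := true) (s1 := false) (s2 := false) (a := 0) (b := 2) (c := 3) (cn := .up) (n1 := ndN5q0) (n2 := ndN5q2) (pc := pcN3) (cut := Cut.none) (xt := Ext.none) (P1 := 0) (W1 := 536870912) (P2 := 1073741824) (W2 := 536870912) (P3 := 1046898278) (W3 := 26843546) (N0 := 3)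
    rfl k0_mm_023

noncomputable def f_mm_033 : ℕ → ℕ → ℕ → ℕ → Bool := onCell 0 536870912 0 1230186008 1046898278 26843546
    (rowNX 3 0 true false false .pnn 0 3 3 (qsf 0 536870912 0 1230186008 3) ndN5q0 ndN5q3 pcN3 Cut.none Ext.none)

def k0_mm_033 : ∃ t, chk3 f_mm_033 t 1 1 1 = true :=
  ⟨(l 5), by decide +kernel⟩

theorem c_mm_033 : CertNX 0 536870912 0 1230186008 1046898278 26843546 3 true false false .pnn 0 3 3
    ndN5q0 ndN5q3 pcN3 Cut.none Ext.none :=
  certNX0 (fam := true) (s1 := false) (s2 := false) (a := 0) (b := 3) (c := 3) (cn := .pnn) (n1 := ndN5q0) (n2 := ndN5q3) (pc := pcN3) (cut := Cut.none) (xt := Ext.none) (P1 := 0) (W1 := 536870912) (P2 := 0) (W2 := 1230186008) (P3 := 1046898278) (W3 := 26843546) (N0 := 3)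
    rfl k0_mm_033

noncomputable def f_mm_101 : ℕ → ℕ → ℕ → ℕ → Bool := onCell 536870912 469762048 0 536870912 1046898278 26843546
    (rowNX 3 0 true false false .npn 1 0 1 (qsf 536870912 469762048 0 536870912 1) ndN5q1 ndN5q0 pcN1 Cut.none Ext.none)

def k0_mm_101 : ∃ t, chk3 f_mm_101 t 1 1 1 = true :=
  ⟨(l 4), by decide +kernel⟩

theorem c_mm_101 : CertNX 536870912 469762048 0 536870912 1046898278 26843546 3 true false false .npn 1 0 1
    ndN5q1 ndN5q0 pcN1 Cut.none Ext.none :=
  certNX0 (fam := true) (s1 := false) (s2 := false) (a := 1) (b := 0) (c := 1) (cn := .npn) (n1 := ndN5q1) (n2 := ndN5q0) (pc := pcN1) (cut := Cut.none) (xt := Ext.none) (P1 := 536870912) (W1 := 469762048) (P2 := 0) (W2 := 536870912) (P3 := 1046898278) (W3 := 26843546) (N0 := 3)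
    rfl k0_mm_101

noncomputable def f_mm_102 : ℕ → ℕ → ℕ → ℕ → Bool := onCell 536870912 469762048 0 536870912 1046898278 26843546
    (rowNX 3 0 true false false .npp 1 0 2 (qsf 536870912 469762048 0 536870912 2) ndN5q1 ndN5q0 pcN2 Cut.none Ext.none)

def k0_mm_102 : ∃ t, chk3 f_mm_102 t 1 1 1 = true :=
  ⟨(l 4), by decide +kernel⟩

theorem c_mm_102 : CertNX 536870912 469762048 0 536870912 1046898278 26843546 3 true false false .npp 1 0 2
    ndN5q1 ndN5q0 pcN2 Cut.none Ext.none :=
  certNX0 (fam := true) (s1 := false) (s2 := false) (a := 1) (b := 0) (c := 2) (cn := .npp) (n1 := ndN5q1) (n2 := ndN5q0) (pc := pcN2) (cut := Cut.none) (xt := Ext.none) (P1 := 536870912) (W1 := 469762048) (P2 := 0) (W2 := 536870912) (P3 := 1046898278) (W3 := 26843546) (N0 := 3)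
    rfl k0_mm_102

noncomputable def f_mm_112 : ℕ → ℕ → ℕ → ℕ → Bool := onCell 536870912 469762048 536870912 469762048 1046898278 26843546
    (rowNX 3 0 true false false .dn 1 1 2 (qsf 536870912 469762048 536870912 469762048 2) ndN5q1 ndN5q1 pcN2 Cut.none Ext.none)

def k0_mm_112 : ∃ t, chk3 f_mm_112 t 1 1 1 = true :=
  ⟨(l 4), by decide +kernel⟩

theorem c_mm_112 : CertNX 536870912 469762048 536870912 469762048 1046898278 26843546 3 true false false .dn 1 1 2
    ndN5q1 ndN5q1 pcN2 Cut.none Ext.none :=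
  certNX0 (fam := true) (s1 := false) (s2 := false) (a := 1) (b := 1) (c := 2) (cn := .dn) (n1 := ndN5q1) (n2 := ndN5q1) (pc := pcN2) (cut := Cut.none) (xt := Ext.none) (P1 := 536870912) (W1 := 469762048) (P2 := 536870912) (W2 := 469762048) (P3 := 1046898278) (W3 := 26843546) (N0 := 3)
    rfl k0_mm_112

noncomputable def f_mm_113 : ℕ → ℕ → ℕ → ℕ → Bool := onCell 536870912 469762048 536870912 469762048 1046898278 26843546
    (rowNX 3 0 true false false .nn 1 1 3 (qsf 536870912 469762048 536870912 469762048 3) ndN5q1 ndN5q1 pcN3 Cut.none Ext.none)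

def k0_mm_113 : ∃ t, chk3 f_mm_113 t 1 1 1 = true :=
  ⟨(l 4), by decide +kernel⟩

theorem c_mm_113 : CertNX 536870912 469762048 536870912 469762048 1046898278 26843546 3 true false false .nn 1 1 3
    ndN5q1 ndN5q1 pcN3 Cut.none Ext.none :=
  certNX0 (fam := true) (s1 := false) (s2 := false) (a := 1) (b := 1) (c := 3) (cn := .nn) (n1 := ndN5q1) (n2 := ndN5q1) (pc := pcN3) (cut := Cut.none) (xt := Ext.none) (P1 := 536870912) (W1 := 469762048) (P2 := 536870912) (W2 := 469762048) (P3 := 1046898278) (W3 := 26843546) (N0 := 3)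
    rfl k0_mm_113

noncomputable def f_mm_123 : ℕ → ℕ → ℕ → ℕ → Bool := onCell 536870912 469762048 1073741824 536870912 1046898278 26843546
    (rowNX 3 0 true false false .npn 1 2 3 (qsf 536870912 469762048 1073741824 536870912 3) ndN5q1 ndN5q2 pcN3 Cut.none Ext.none)

def k0_mm_123 : ∃ t, chk3 f_mm_123 t 1 1 1 = true :=
  ⟨(l 4), by decide +kernel⟩

theorem c_mm_123 : CertNX 536870912 469762048 1073741824 536870912 1046898278 26843546 3 true false false .npn 1 2 3
    ndN5q1 ndN5q2 pcN3 Cut.none Ext.none :=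
  certNX0 (fam := true) (s1 := false) (s2 := false) (a := 1) (b := 2) (c := 3) (cn := .npn) (n1 := ndN5q1) (n2 := ndN5q2) (pc := pcN3) (cut := Cut.none) (xt := Ext.none) (P1 := 536870912) (W1 := 469762048) (P2 := 1073741824) (W2 := 536870912) (P3 := 1046898278) (W3 := 26843546) (N0 := 3)
    rfl k0_mm_123

noncomputable def f_mm_133 : ℕ → ℕ → ℕ → ℕ → Bool := onCell 536870912 469762048 0 1230186008 1046898278 26843546
    (rowNX 3 0 true false false .dn 1 3 3 (qsf 536870912 469762048 0 1230186008 3) ndN5q1 ndN5q3 pcN3 Cut.none Ext.none)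

def k0_mm_133 : ∃ t, chk3 f_mm_133 t 1 1 1 = true :=
  ⟨(l 4), by decide +kernel⟩

theorem c_mm_133 : CertNX 536870912 469762048 0 1230186008 1046898278 26843546 3 true false false .dn 1 3 3
    ndN5q1 ndN5q3 pcN3 Cut.none Ext.none :=
  certNX0 (fam := true) (s1 := false) (s2 := false) (a := 1) (b := 3) (c := 3) (cn := .dn) (n1 := ndN5q1) (n2 := ndN5q3) (pc := pcN3) (cut := Cut.none) (xt := Ext.none) (P1 := 536870912) (W1 := 469762048) (P2 := 0) (W2 := 1230186008) (P3 := 1046898278) (W3 := 26843546) (N0 := 3)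
    rfl k0_mm_133

noncomputable def f_mm_202 : ℕ → ℕ → ℕ → ℕ → Bool := onCell 1073741824 536870912 0 536870912 1046898278 26843546
    (rowNX 3 0 true false false .pp 2 0 2 (qsf 1073741824 536870912 0 536870912 2) ndN5q2 ndN5q0 pcN2 Cut.none Ext.none)

def k0_mm_202 : ∃ t, chk3 f_mm_202 t 1 1 1 = true :=
  ⟨(l 4), by decide +kernel⟩

theorem c_mm_202 : CertNX 1073741824 536870912 0 536870912 1046898278 26843546 3 true false false .pp 2 0 2
    ndN5q2 ndN5q0 pcN2 Cut.none Ext.none :=
  certNX0 (fam := true) (s1 := false) (s2 := false) (a := 2) (b := 0) (c := 2) (cn := .pp) (n1 := ndN5q2) (n2 := ndN5q0) (pc := pcN2) (cut := Cut.none) (xt := Ext.none) (P1 := 1073741824) (W1 := 536870912) (P2 := 0) (W2 := 536870912) (P3 := 1046898278) (W3 := 26843546) (N0 := 3)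
    rfl k0_mm_202

noncomputable def f_mm_203 : ℕ → ℕ → ℕ → ℕ → Bool := onCell 1073741824 536870912 0 536870912 1046898278 26843546
    (rowNX 3 0 true false false .up 2 0 3 (qsf 1073741824 536870912 0 536870912 3) ndN5q2 ndN5q0 pcN3 Cut.none Ext.none)

def k0_mm_203 : ∃ t, chk3 f_mm_203 t 1 1 1 = true :=
  ⟨(l 4), by decide +kernel⟩

theorem c_mm_203 : CertNX 1073741824 536870912 0 536870912 1046898278 26843546 3 true false false .up 2 0 3
    ndN5q2 ndN5q0 pcN3 Cut.none Ext.none :=
  certNX0 (fam := true) (s1 := false) (s2 := false) (a := 2) (b := 0) (c := 3) (cn := .up) (n1 := ndN5q2) (n2 := ndN5q0) (pc := pcN3) (cut := Cut.none) (xt := Ext.none) (P1 := 1073741824) (W1 := 536870912) (P2 := 0) (W2 := 536870912) (P3 := 1046898278) (W3 := 26843546) (N0 := 3)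
    rfl k0_mm_203

noncomputable def f_mm_213 : ℕ → ℕ → ℕ → ℕ → Bool := onCell 1073741824 536870912 536870912 469762048 1046898278 26843546
    (rowNX 3 0 true false false .pnn 2 1 3 (qsf 1073741824 536870912 536870912 469762048 3) ndN5q2 ndN5q1 pcN3 Cut.none Ext.none)

def k0_mm_213 : ∃ t, chk3 f_mm_213 t 1 1 1 = true :=
  ⟨(l 4), by decide +kernel⟩

theorem c_mm_213 : CertNX 1073741824 536870912 536870912 469762048 1046898278 26843546 3 true false false .pnn 2 1 3
    ndN5q2 ndN5q1 pcN3 Cut.none Ext.none :=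
  certNX0 (fam := true) (s1 := false) (s2 := false) (a := 2) (b := 1) (c := 3) (cn := .pnn) (n1 := ndN5q2) (n2 := ndN5q1) (pc := pcN3) (cut := Cut.none) (xt := Ext.none) (P1 := 1073741824) (W1 := 536870912) (P2 := 536870912) (W2 := 469762048) (P3 := 1046898278) (W3 := 26843546) (N0 := 3)
    rfl k0_mm_213

noncomputable def f_mm_303 : ℕ → ℕ → ℕ → ℕ → Bool := onCell 0 1230186008 0 536870912 1046898278 26843546
    (rowNX 3 0 true false false .npn 3 0 3 (qsf 0 1230186008 0 536870912 3) ndN5q3 ndN5q0 pcN3 Cut.none Ext.none)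

def k0_mm_303 : ∃ t, chk3 f_mm_303 t 1 1 1 = true :=
  ⟨(a (l 4) (l 4)), by decide +kernel⟩

theorem c_mm_303 : CertNX 0 1230186008 0 536870912 1046898278 26843546 3 true false false .npn 3 0 3
    ndN5q3 ndN5q0 pcN3 Cut.none Ext.none :=
  certNX0 (fam := true) (s1 := false) (s2 := false) (a := 3) (b := 0) (c := 3) (cn := .npn) (n1 := ndN5q3) (n2 := ndN5q0) (pc := pcN3) (cut := Cut.none) (xt := Ext.none) (P1 := 0) (W1 := 1230186008) (P2 := 0) (W2 := 536870912) (P3 := 1046898278) (W3 := 26843546) (N0 := 3)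
    rfl k0_mm_303

noncomputable def f_mm_313 : ℕ → ℕ → ℕ → ℕ → Bool := onCell 0 1230186008 536870912 469762048 1046898278 26843546
    (rowNX 3 0 true false false .dn 3 1 3 (qsf 0 1230186008 536870912 469762048 3) ndN5q3 ndN5q1 pcN3 Cut.none Ext.none)

def k0_mm_313 : ∃ t, chk3 f_mm_313 t 1 1 1 = true :=
  ⟨(l 4), by decide +kernel⟩

theorem c_mm_313 : CertNX 0 1230186008 536870912 469762048 1046898278 26843546 3 true false false .dn 3 1 3
    ndN5q3 ndN5q1 pcN3 Cut.none Ext.none :=
  certNX0 (fam := true) (s1 := false) (s2 := false) (a := 3) (b := 1) (c := 3) (cn := .dn) (n1 := ndN5q3) (n2 := ndN5q1) (pc := pcN3) (cut := Cut.none) (xt := Ext.none) (P1 := 0) (W1 := 1230186008) (P2 := 536870912) (W2 := 469762048) (P3 := 1046898278) (W3 := 26843546) (N0 := 3)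
    rfl k0_mm_313

end Pool.Agent.Strip051.G.IE1.Tab.C.NA55

namespace Pool.Agent.Strip051.G.IE1.Tab.C.NA56

open Pool.Agent.Strip051.PB Pool.Agent.Strip051.PB.T
open Pool.Agent.Strip051.G.IE1.Tab

noncomputable def f_pp_001 : ℕ → ℕ → ℕ → ℕ → Bool := onCell 0 536870912 0 536870912 1046898278 26843546
    (rowNX 3 0 true true true .up 0 0 1 (qsf 0 536870912 0 536870912 1) ndN5q0 ndN6q0 pcN1 Cut.none Ext.none)

def k0_pp_001 : ∃ t, chk3 f_pp_001 t 1 1 1 = true :=
  ⟨(l 4), by decide +kernel⟩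

theorem c_pp_001 : CertNX 0 536870912 0 536870912 1046898278 26843546 3 true true true .up 0 0 1
    ndN5q0 ndN6q0 pcN1 Cut.none Ext.none :=
  certNX0 (fam := true) (s1 := true) (s2 := true) (a := 0) (b := 0) (c := 1) (cn := .up) (n1 := ndN5q0) (n2 := ndN6q0) (pc := pcN1) (cut := Cut.none) (xt := Ext.none) (P1 := 0) (W1 := 536870912) (P2 := 0) (W2 := 536870912) (P3 := 1046898278) (W3 := 26843546) (N0 := 3)
    rfl k0_pp_001

noncomputable def f_pp_011 : ℕ → ℕ → ℕ → ℕ → Bool := onCell 0 536870912 536870912 469762048 1046898278 26843546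
    (rowNX 3 0 true true true .pnn 0 1 1 (qsf 0 536870912 536870912 469762048 1) ndN5q0 ndN6q1 pcN1 Cut.none Ext.none)

def k0_pp_011 : ∃ t, chk3 f_pp_011 t 1 1 1 = true :=
  ⟨(l 4), by decide +kernel⟩

theorem c_pp_011 : CertNX 0 536870912 536870912 469762048 1046898278 26843546 3 true true true .pnn 0 1 1
    ndN5q0 ndN6q1 pcN1 Cut.none Ext.none :=
  certNX0 (fam := true) (s1 := true) (s2 := true) (a := 0) (b := 1) (c := 1) (cn := .pnn) (n1 := ndN5q0) (n2 := ndN6q1) (pc := pcN1) (cut := Cut.none) (xt := Ext.none) (P1 := 0) (W1 := 536870912) (P2 := 536870912) (W2 := 469762048) (P3 := 1046898278) (W3 := 26843546) (N0 := 3)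
    rfl k0_pp_011

noncomputable def f_pp_012 : ℕ → ℕ → ℕ → ℕ → Bool := onCell 0 536870912 536870912 469762048 1046898278 26843546
    (rowNX 3 0 true true true .pnp 0 1 2 (qsf 0 536870912 536870912 469762048 2) ndN5q0 ndN6q1 pcN2 Cut.none Ext.none)

def k0_pp_012 : ∃ t, chk3 f_pp_012 t 1 1 1 = true :=
  ⟨(l 4), by decide +kernel⟩

theorem c_pp_012 : CertNX 0 536870912 536870912 469762048 1046898278 26843546 3 true true true .pnp 0 1 2
    ndN5q0 ndN6q1 pcN2 Cut.none Ext.none :=
  certNX0 (fam := true) (s1 := true) (s2 := true) (a := 0) (b := 1) (c := 2) (cn := .pnp) (n1 := ndN5q0) (n2 := ndN6q1) (pc := pcN2) (cut := Cut.none) (xt := Ext.none) (P1 := 0) (W1 := 536870912) (P2 := 536870912) (W2 := 469762048) (P3 := 1046898278) (W3 := 26843546) (N0 := 3)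
    rfl k0_pp_012

noncomputable def f_pp_022 : ℕ → ℕ → ℕ → ℕ → Bool := onCell 0 536870912 1073741824 536870912 1046898278 26843546
    (rowNX 3 0 true true true .pp 0 2 2 (qsf 0 536870912 1073741824 536870912 2) ndN5q0 ndN6q2 pcN2 Cut.none Ext.none)

def k0_pp_022 : ∃ t, chk3 f_pp_022 t 1 1 1 = true :=
  ⟨(l 4), by decide +kernel⟩

theorem c_pp_022 : CertNX 0 536870912 1073741824 536870912 1046898278 26843546 3 true true true .pp 0 2 2
    ndN5q0 ndN6q2 pcN2 Cut.none Ext.none :=
  certNX0 (fam := true) (s1 := true) (s2 := true) (a := 0) (b := 2) (c := 2) (cn := .pp) (n1 := ndN5q0) (n2 := ndN6q2) (pc := pcN2) (cut := Cut.none) (xt := Ext.none) (P1 := 0) (W1 := 536870912) (P2 := 1073741824) (W2 := 536870912) (P3 := 1046898278) (W3 := 26843546) (N0 := 3)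
    rfl k0_pp_022

noncomputable def f_pp_023 : ℕ → ℕ → ℕ → ℕ → Bool := onCell 0 536870912 1073741824 536870912 1046898278 26843546
    (rowNX 3 0 true true true .up 0 2 3 (qsf 0 536870912 1073741824 536870912 3) ndN5q0 ndN6q2 pcN3 Cut.none Ext.none)

def k0_pp_023 : ∃ t, chk3 f_pp_023 t 1 1 1 = true :=
  ⟨(l 4), by decide +kernel⟩

theorem c_pp_023 : CertNX 0 536870912 1073741824 536870912 1046898278 26843546 3 true true true .up 0 2 3
    ndN5q0 ndN6q2 pcN3 Cut.none Ext.none :=
  certNX0 (fam := true) (s1 := true) (s2 := true) (a := 0) (b := 2) (c := 3) (cn := .up) (n1 := ndN5q0) (n2 := ndN6q2) (pc := pcN3) (cut := Cut.none) (xt := Ext.none) (P1 := 0) (W1 := 536870912) (P2 := 1073741824) (W2 := 536870912) (P3 := 1046898278) (W3 := 26843546) (N0 := 3)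
    rfl k0_pp_023

noncomputable def f_pp_033 : ℕ → ℕ → ℕ → ℕ → Bool := onCell 0 536870912 0 1230186008 1046898278 26843546
    (rowNX 3 0 true true true .pnn 0 3 3 (qsf 0 536870912 0 1230186008 3) ndN5q0 ndN6q3 pcN3 Cut.none Ext.none)

def k0_pp_033 : ∃ t, chk3 f_pp_033 t 1 1 1 = true :=
  ⟨(b (l 4) (l 4)), by decide +kernel⟩

theorem c_pp_033 : CertNX 0 536870912 0 1230186008 1046898278 26843546 3 true true true .pnn 0 3 3
    ndN5q0 ndN6q3 pcN3 Cut.none Ext.none :=
  certNX0 (fam := true) (s1 := true) (s2 := true) (a := 0) (b := 3) (c := 3) (cn := .pnn) (n1 := ndN5q0) (n2 := ndN6q3) (pc := pcN3) (cut := Cut.none) (xt := Ext.none) (P1 := 0) (W1 := 536870912) (P2 := 0) (W2 := 1230186008) (P3 := 1046898278) (W3 := 26843546) (N0 := 3)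
    rfl k0_pp_033

noncomputable def f_pp_101 : ℕ → ℕ → ℕ → ℕ → Bool := onCell 536870912 469762048 0 536870912 1046898278 26843546
    (rowNX 3 0 true true true .npn 1 0 1 (qsf 536870912 469762048 0 536870912 1) ndN5q1 ndN6q0 pcN1 Cut.none Ext.none)

def k0_pp_101 : ∃ t, chk3 f_pp_101 t 1 1 1 = true :=
  ⟨(l 4), by decide +kernel⟩

theorem c_pp_101 : CertNX 536870912 469762048 0 536870912 1046898278 26843546 3 true true true .npn 1 0 1
    ndN5q1 ndN6q0 pcN1 Cut.none Ext.none :=
  certNX0 (fam := true) (s1 := true) (s2 := true) (a := 1) (b := 0) (c := 1) (cn := .npn) (n1 := ndN5q1) (n2 := ndN6q0) (pc := pcN1) (cut := Cut.none) (xt := Ext.none) (P1 := 536870912) (W1 := 469762048) (P2 := 0) (W2 := 536870912) (P3 := 1046898278) (W3 := 26843546) (N0 := 3)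
    rfl k0_pp_101

noncomputable def f_pp_102 : ℕ → ℕ → ℕ → ℕ → Bool := onCell 536870912 469762048 0 536870912 1046898278 26843546
    (rowNX 3 0 true true true .npp 1 0 2 (qsf 536870912 469762048 0 536870912 2) ndN5q1 ndN6q0 pcN2 Cut.none Ext.none)

def k0_pp_102 : ∃ t, chk3 f_pp_102 t 1 1 1 = true :=
  ⟨(l 4), by decide +kernel⟩

theorem c_pp_102 : CertNX 536870912 469762048 0 536870912 1046898278 26843546 3 true true true .npp 1 0 2
    ndN5q1 ndN6q0 pcN2 Cut.none Ext.none :=
  certNX0 (fam := true) (s1 := true) (s2 := true) (a := 1) (b := 0) (c := 2) (cn := .npp) (n1 := ndN5q1) (n2 := ndN6q0) (pc := pcN2) (cut := Cut.none) (xt := Ext.none) (P1 := 536870912) (W1 := 469762048) (P2 := 0) (W2 := 536870912) (P3 := 1046898278) (W3 := 26843546) (N0 := 3)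
    rfl k0_pp_102

noncomputable def f_pp_112 : ℕ → ℕ → ℕ → ℕ → Bool := onCell 536870912 469762048 536870912 469762048 1046898278 26843546
    (rowNX 3 0 true true true .dn 1 1 2 (qsf 536870912 469762048 536870912 469762048 2) ndN5q1 ndN6q1 pcN2 Cut.none Ext.none)

def k0_pp_112 : ∃ t, chk3 f_pp_112 t 1 1 1 = true :=
  ⟨(l 4), by decide +kernel⟩

theorem c_pp_112 : CertNX 536870912 469762048 536870912 469762048 1046898278 26843546 3 true true true .dn 1 1 2
    ndN5q1 ndN6q1 pcN2 Cut.none Ext.none :=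
  certNX0 (fam := true) (s1 := true) (s2 := true) (a := 1) (b := 1) (c := 2) (cn := .dn) (n1 := ndN5q1) (n2 := ndN6q1) (pc := pcN2) (cut := Cut.none) (xt := Ext.none) (P1 := 536870912) (W1 := 469762048) (P2 := 536870912) (W2 := 469762048) (P3 := 1046898278) (W3 := 26843546) (N0 := 3)
    rfl k0_pp_112

noncomputable def f_pp_113 : ℕ → ℕ → ℕ → ℕ → Bool := onCell 536870912 469762048 536870912 469762048 1046898278 26843546
    (rowNX 3 0 true true true .nn 1 1 3 (qsf 536870912 469762048 536870912 469762048 3) ndN5q1 ndN6q1 pcN3 Cut.none Ext.none)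

def k0_pp_113 : ∃ t, chk3 f_pp_113 t 1 1 1 = true :=
  ⟨(l 4), by decide +kernel⟩

theorem c_pp_113 : CertNX 536870912 469762048 536870912 469762048 1046898278 26843546 3 true true true .nn 1 1 3
    ndN5q1 ndN6q1 pcN3 Cut.none Ext.none :=
  certNX0 (fam := true) (s1 := true) (s2 := true) (a := 1) (b := 1) (c := 3) (cn := .nn) (n1 := ndN5q1) (n2 := ndN6q1) (pc := pcN3) (cut := Cut.none) (xt := Ext.none) (P1 := 536870912) (W1 := 469762048) (P2 := 536870912) (W2 := 469762048) (P3 := 1046898278) (W3 := 26843546) (N0 := 3)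
    rfl k0_pp_113

noncomputable def f_pp_123 : ℕ → ℕ → ℕ → ℕ → Bool := onCell 536870912 469762048 1073741824 536870912 1046898278 26843546
    (rowNX 3 0 true true true .npn 1 2 3 (qsf 536870912 469762048 1073741824 536870912 3) ndN5q1 ndN6q2 pcN3 Cut.none Ext.none)

def k0_pp_123 : ∃ t, chk3 f_pp_123 t 1 1 1 = true :=
  ⟨(l 4), by decide +kernel⟩

theorem c_pp_123 : CertNX 536870912 469762048 1073741824 536870912 1046898278 26843546 3 true true true .npn 1 2 3
    ndN5q1 ndN6q2 pcN3 Cut.none Ext.none :=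
  certNX0 (fam := true) (s1 := true) (s2 := true) (a := 1) (b := 2) (c := 3) (cn := .npn) (n1 := ndN5q1) (n2 := ndN6q2) (pc := pcN3) (cut := Cut.none) (xt := Ext.none) (P1 := 536870912) (W1 := 469762048) (P2 := 1073741824) (W2 := 536870912) (P3 := 1046898278) (W3 := 26843546) (N0 := 3)
    rfl k0_pp_123

noncomputable def f_pp_133 : ℕ → ℕ → ℕ → ℕ → Bool := onCell 536870912 469762048 0 1230186008 1046898278 26843546
    (rowNX 3 0 true true true .dn 1 3 3 (qsf 536870912 469762048 0 1230186008 3) ndN5q1 ndN6q3 pcN3 Cut.none Ext.none)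

def k0_pp_133 : ∃ t, chk3 f_pp_133 t 1 1 1 = true :=
  ⟨(l 4), by decide +kernel⟩

theorem c_pp_133 : CertNX 536870912 469762048 0 1230186008 1046898278 26843546 3 true true true .dn 1 3 3
    ndN5q1 ndN6q3 pcN3 Cut.none Ext.none :=
  certNX0 (fam := true) (s1 := true) (s2 := true) (a := 1) (b := 3) (c := 3) (cn := .dn) (n1 := ndN5q1) (n2 := ndN6q3) (pc := pcN3) (cut := Cut.none) (xt := Ext.none) (P1 := 536870912) (W1 := 469762048) (P2 := 0) (W2 := 1230186008) (P3 := 1046898278) (W3 := 26843546) (N0 := 3)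
    rfl k0_pp_133

noncomputable def f_pp_202 : ℕ → ℕ → ℕ → ℕ → Bool := onCell 1073741824 536870912 0 536870912 1046898278 26843546
    (rowNX 3 0 true true true .pp 2 0 2 (qsf 1073741824 536870912 0 536870912 2) ndN5q2 ndN6q0 pcN2 Cut.none Ext.none)

def k0_pp_202 : ∃ t, chk3 f_pp_202 t 1 1 1 = true :=
  ⟨(l 4), by decide +kernel⟩

theorem c_pp_202 : CertNX 1073741824 536870912 0 536870912 1046898278 26843546 3 true true true .pp 2 0 2
    ndN5q2 ndN6q0 pcN2 Cut.none Ext.none :=
  certNX0 (fam := true) (s1 := true) (s2 := true) (a := 2) (b := 0) (c := 2) (cn := .pp) (n1 := ndN5q2) (n2 := ndN6q0) (pc := pcN2) (cut := Cut.none) (xt := Ext.none) (P1 := 1073741824) (W1 := 536870912) (P2 := 0) (W2 := 536870912) (P3 := 1046898278) (W3 := 26843546) (N0 := 3)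
    rfl k0_pp_202

noncomputable def f_pp_203 : ℕ → ℕ → ℕ → ℕ → Bool := onCell 1073741824 536870912 0 536870912 1046898278 26843546
    (rowNX 3 0 true true true .up 2 0 3 (qsf 1073741824 536870912 0 536870912 3) ndN5q2 ndN6q0 pcN3 Cut.none Ext.none)

def k0_pp_203 : ∃ t, chk3 f_pp_203 t 1 1 1 = true :=
  ⟨(l 4), by decide +kernel⟩

theorem c_pp_203 : CertNX 1073741824 536870912 0 536870912 1046898278 26843546 3 true true true .up 2 0 3
    ndN5q2 ndN6q0 pcN3 Cut.none Ext.none :=
  certNX0 (fam := true) (s1 := true) (s2 := true) (a := 2) (b := 0) (c := 3) (cn := .up) (n1 := ndN5q2) (n2 := ndN6q0) (pc := pcN3) (cut := Cut.none) (xt := Ext.none) (P1 := 1073741824) (W1 := 536870912) (P2 := 0) (W2 := 536870912) (P3 := 1046898278) (W3 := 26843546) (N0 := 3)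
    rfl k0_pp_203

noncomputable def f_pp_213 : ℕ → ℕ → ℕ → ℕ → Bool := onCell 1073741824 536870912 536870912 469762048 1046898278 26843546
    (rowNX 3 0 true true true .pnn 2 1 3 (qsf 1073741824 536870912 536870912 469762048 3) ndN5q2 ndN6q1 pcN3 Cut.none Ext.none)

def k0_pp_213 : ∃ t, chk3 f_pp_213 t 1 1 1 = true :=
  ⟨(l 4), by decide +kernel⟩

theorem c_pp_213 : CertNX 1073741824 536870912 536870912 469762048 1046898278 26843546 3 true true true .pnn 2 1 3
    ndN5q2 ndN6q1 pcN3 Cut.none Ext.none :=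
  certNX0 (fam := true) (s1 := true) (s2 := true) (a := 2) (b := 1) (c := 3) (cn := .pnn) (n1 := ndN5q2) (n2 := ndN6q1) (pc := pcN3) (cut := Cut.none) (xt := Ext.none) (P1 := 1073741824) (W1 := 536870912) (P2 := 536870912) (W2 := 469762048) (P3 := 1046898278) (W3 := 26843546) (N0 := 3)
    rfl k0_pp_213

noncomputable def f_pp_303 : ℕ → ℕ → ℕ → ℕ → Bool := onCell 0 1230186008 0 536870912 1046898278 26843546
    (rowNX 3 0 true true true .npn 3 0 3 (qsf 0 1230186008 0 536870912 3) ndN5q3 ndN6q0 pcN3 Cut.none Ext.none)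

def k0_pp_303 : ∃ t, chk3 f_pp_303 t 1 1 1 = true :=
  ⟨(l 5), by decide +kernel⟩

theorem c_pp_303 : CertNX 0 1230186008 0 536870912 1046898278 26843546 3 true true true .npn 3 0 3
    ndN5q3 ndN6q0 pcN3 Cut.none Ext.none :=
  certNX0 (fam := true) (s1 := true) (s2 := true) (a := 3) (b := 0) (c := 3) (cn := .npn) (n1 := ndN5q3) (n2 := ndN6q0) (pc := pcN3) (cut := Cut.none) (xt := Ext.none) (P1 := 0) (W1 := 1230186008) (P2 := 0) (W2 := 536870912) (P3 := 1046898278) (W3 := 26843546) (N0 := 3)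
    rfl k0_pp_303

noncomputable def f_pp_313 : ℕ → ℕ → ℕ → ℕ → Bool := onCell 0 1230186008 536870912 469762048 1046898278 26843546
    (rowNX 3 0 true true true .dn 3 1 3 (qsf 0 1230186008 536870912 469762048 3) ndN5q3 ndN6q1 pcN3 Cut.none Ext.none)

def k0_pp_313 : ∃ t, chk3 f_pp_313 t 1 1 1 = true :=
  ⟨(l 4), by decide +kernel⟩

theorem c_pp_313 : CertNX 0 1230186008 536870912 469762048 1046898278 26843546 3 true true true .dn 3 1 3
    ndN5q3 ndN6q1 pcN3 Cut.none Ext.none :=
  certNX0 (fam := true) (s1 := true) (s2 := true) (a := 3) (b := 1) (c := 3) (cn := .dn) (n1 := ndN5q3) (n2 := ndN6q1) (pc := pcN3) (cut := Cut.none) (xt := Ext.none) (P1 := 0) (W1 := 1230186008) (P2 := 536870912) (W2 := 469762048) (P3 := 1046898278) (W3 := 26843546) (N0 := 3)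
    rfl k0_pp_313

noncomputable def f_pm_001 : ℕ → ℕ → ℕ → ℕ → Bool := onCell 0 536870912 0 536870912 1046898278 26843546
    (rowNX 3 0 true true false .up 0 0 1 (qsf 0 536870912 0 536870912 1) ndN5q0 ndN6q0 pcN1 Cut.none Ext.none)

def k0_pm_001 : ∃ t, chk3 f_pm_001 t 1 1 1 = true :=
  ⟨(l 3), by decide +kernel⟩

theorem c_pm_001 : CertNX 0 536870912 0 536870912 1046898278 26843546 3 true true false .up 0 0 1
    ndN5q0 ndN6q0 pcN1 Cut.none Ext.none :=
  certNX0 (fam := true) (s1 := true) (s2 := false) (a := 0) (b := 0) (c := 1) (cn := .up) (n1 := ndN5q0) (n2 := ndN6q0) (pc := pcN1) (cut := Cut.none) (xt := Ext.none) (P1 := 0) (W1 := 536870912) (P2 := 0) (W2 := 536870912) (P3 := 1046898278) (W3 := 26843546) (N0 := 3)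
    rfl k0_pm_001

noncomputable def f_pm_011 : ℕ → ℕ → ℕ → ℕ → Bool := onCell 0 536870912 536870912 536870912 1046898278 26843546
    (rowNX 3 1 true true false .pnn 0 1 1 (qsf 0 536870912 536870912 469762048 1) ndN5q0 ndN6q1 pcN1 Cut.none Ext.none)

def k0_pm_011 : ∃ t, chk3 f_pm_011 t 1 1 1 = true :=
  ⟨(b (l 3) (l 3)), by decide +kernel⟩

theorem c_pm_011 : CertNX 0 536870912 536870912 469762048 1046898278 26843546 3 true true false .pnn 0 1 1
    ndN5q0 ndN6q1 pcN1 Cut.none Ext.none :=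
  certNX1 (fam := true) (s1 := true) (s2 := false) (a := 0) (b := 1) (c := 1) (cn := .pnn) (n1 := ndN5q0) (n2 := ndN6q1) (pc := pcN1) (cut := Cut.none) (xt := Ext.none) (P1 := 0) (W1 := 536870912) (P2 := 536870912) (W2 := 469762048) (P3 := 1046898278) (W3 := 26843546) (N0 := 3)
    rfl (fun _ => rfl) k0_pm_011

noncomputable def f_pm_012 : ℕ → ℕ → ℕ → ℕ → Bool := onCell 1073741824 536870912 536870912 469762048 1046898278 26843546
    (rowNX 3 2 true true false .pnp 0 1 2 (qsf 0 536870912 536870912 469762048 2) ndN5q0 ndN6q1 pcN2 Cut.none Ext.none)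

def k0_pm_012 : ∃ t, chk3 f_pm_012 t 1 1 1 = true :=
  ⟨(a (a (a (l 3) (b (l 3) (b (l 3) (a (l 3) (a (l 3) (a (l 3) (b (l 3) (b (l 3) (c (l 13727528) (l 13593856)))))))))) (b (a (a (a (l 3) (a (l 1519512449847) (a (l 16777088) (a (l 81168250743) (c (l 16756664) (l 16755944)))))) (l 16761456)) (l 16775536)) (b (a (a (a (a (l 3) (b (l 16777200) (b (l 16505248) (l 15553104)))) (a (b (l 16776800) (b (l 16316360) (l 15552944))) (a (b (l 16772536) (b (a (l 16505144) (l 16501320)) (l 15314200))) (b (a (a (l 16767168) (l 16745008)) (l 16711976)) (b (l 16472000) (l 15507224)))))) (b (l 16725976) (l 15769712))) (b (l 16771968) (b (l 16502104) (l 15548824)))) (a (a (a (b (a (l 14238328) (b (l 14529656) (l 13939192))) (c (b (c (l 13676088) (l 13621184)) (c (b (l 13649744) (l 13736072)) (l 13635248))) (b (l 13537000) (l 13528120)))) (b (a (a (l 14237952) (b (l 14528696) (l 13934464))) (a (a (b (l 14523288) (l 13918000)) (l 14203520)) (b (l 14468184) (l 13858984)))) (c (a (b (c (l 13663632)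 (l 13608480)) (c (b (l 13599816) (l 13646200)) (l 13564496))) (b (a (l 13592424) (b (l 13619072) (l 13474576))) (a (l 13519344) (a (l 13478512) (l 13457432))))) (a (b (l 13523912) (a (l 13474256) (l 13434704))) (a (l 13447832) (b (l 13431296) (l 13325976))))))) (b (l 14179568) (c (b (l 13569072) (l 13497632)) (l 13423784)))) (b (l 14231712) (c (b (l 13638552) (l 13581600)) (l 13503688))))))) (b (l 2) (b (b (l 16777216) (b (l 16505280) (l 15553200))) (b (a (l 14238360) (l 14238360)) (a (c (b (l 13647752) (l 13592992)) (l 13514480)) (b (l 13591576) (l 13521600))))))), by decide +kernel⟩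

theorem c_pm_012 : CertNX 0 536870912 536870912 469762048 1046898278 26843546 3 true true false .pnp 0 1 2
    ndN5q0 ndN6q1 pcN2 Cut.none Ext.none :=
  certNX2 (fam := true) (s1 := true) (s2 := false) (a := 0) (b := 1) (c := 2) (cn := .pnp) (n1 := ndN5q0) (n2 := ndN6q1) (pc := pcN2) (cut := Cut.none) (xt := Ext.none) (P1 := 0) (W1 := 536870912) (P2 := 536870912) (W2 := 469762048) (P3 := 1046898278) (W3 := 26843546) (N0 := 3)
    rfl (fun _ => rfl) k0_pm_012

noncomputable def f_pm_022 : ℕ → ℕ → ℕ → ℕ → Bool := onCell 0 536870912 1073741824 536870912 1046898278 26843546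
    (rowNX 3 1 true true false .pp 0 2 2 (qsf 0 536870912 1073741824 536870912 2) ndN5q0 ndN6q2 pcN2 Cut.none Ext.none)

def k0_pm_022 : ∃ t, chk3 f_pm_022 t 1 4 1 = true :=
  ⟨(a (a (l 3) (l 3)) (l 1)), by decide +kernel⟩

def k1_pm_022 : ∃ t, chk3 f_pm_022 t 4 40 1 = true :=
  ⟨(l 3), by decide +kernel⟩

def k2_pm_022 : ∃ t, chk3 f_pm_022 t 16 82 1 = true :=
  ⟨(l 3), by decide +kernel⟩

def k3_pm_022 : ∃ t, chk3 f_pm_022 t 16 83 1 = true :=
  ⟨(a (b (b (l 3) (c (a (l 16189320) (a (c (l 16207632) (l 16210600)) (c (l 16168432) (l 16184312)))) (a (c (l 1385830340727) (a (l 1614537263367) (l 16325048))) (c (l 16087472) (l 16167728))))) (b (c (a (c (l 16247064) (l 16141512)) (c (a (l 16189736) (l 16167088)) (a (l 16235528) (l 16140936)))) (a (c (a (l 16287480) (b (l 16368864) (l 16394664))) (a (c (l 16295848) (l 16184792)) (l 16294048))) (c (a (l 16197912) (l 16162336)) (l 16104656)))) (c (a (b (b (b (l 16244624) (b (l 16218192) (l 16088720))) (l 16289336)) (l 16267536))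 (b (b (b (a (l 16286448) (c (l 16169704) (l 16185504))) (b (a (l 16270224) (c (l 16172024) (l 16187864))) (a (c (l 16288752) (l 16293304)) (c (l 16174056) (l 16189936))))) (a (l 16302256) (l 16116328))) (a (l 16321184) (l 16133040)))) (a (c (b (b (b (l 16156912) (b (l 16130320) (a (l 16244408) (l 16349920)))) (l 16201104)) (l 16157720)) (b (b (b (a (l 16220632) (l 16401784)) (a (b (l 16214920) (a (l 16177432) (l 16295768))) (c (l 16286752) (l 16382048)))) (a (l 16243536) (l 16382688))) (a (l 16220728) (l 16359824)))) (b (b (c (b (l 16225328) (b (l 16228904) (a (l 16298352) (l 16169624)))) (b (l 16201608) (b (l 16205272) (l 16208016)))) (c (l 16239184) (l 16215792))) (l 16041488)))))) (b (c (c (a (l 16155200) (l 16277760)) (l 955796657095)) (c (l 16189192) (l 16171728))) (b (c (c (a (l 16143968) (l 16245112)) (c (l 16203688) (l 16182000))) (b (l 16154368) (l 16143320))) (c (b (b (b (c (l 16146336) (l 16179712)) (b (c (l 16144328) (l 16177680)) (c (a (l 16191520) (l 16229544))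 (l 16176328)))) (a (l 16174128) (l 16204192))) (a (l 16145976) (l 16196080))) (b (b (b (l 16136432) (b (l 16134368) (c (l 16140440) (l 16122320)))) (l 16129568)) (l 16121800)))))), by decide +kernel⟩

def k4_pm_022 : ∃ t, chk3 f_pm_022 t 17 41 1 = true :=
  ⟨(b (a (l 3) (b (l 3) (c (l 1659097752055) (l 16313920)))) (b (c (c (a (l 16281976) (l 16291560)) (a (l 16242464) (l 16275536))) (c (l 16250128) (l 16244656))) (b (b (c (a (l 16236208) (l 16257368)) (l 16219488)) (c (c (l 16167752) (l 16227080)) (l 16208136))) (b (b (b (c (a (l 16218408) (l 16239592)) (l 16201520)) (b (c (a (l 16216360) (l 16198384)) (l 16202128)) (a (c (c (l 16234728) (l 16194872)) (l 16151464)) (a (c (c (l 16240296) (l 16219240)) (l 16210752)) (l 16246720))))) (c (a (l 16212792) (l 16246528)) (l 16201160))) (c (a (l 16204768) (l 16238592)) (l 16192944)))))), by decide +kernel⟩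

def k5_pm_022 : ∃ t, chk3 f_pm_022 t 9 41 1 = true :=
  ⟨(b (a (b (l 3) (c (a (l 16085200) (l 15858320)) (a (l 16197528) (l 15830312)))) (b (c (l 15391744) (l 15345912)) (c (l 15410008) (l 15364848)))) (b (a (c (a (c (l 16203032) (l 16196224)) (l 15872224)) (a (b (l 16193112) (l 16184280)) (l 15844792))) (c (b (l 15423536) (l 15432448)) (b (l 15378880) (l 15388128)))) (b (a (c (b (a (l 16191184) (l 15880720)) (a (a (l 16226648) (l 16144312)) (l 15889688))) (b (l 15807672) (a (l 16171936) (l 15862984)))) (b (c (l 15444360) (l 15400480)) (a (c (l 15554544) (l 15514752)) (l 15350008)))) (a (a (b (b (b (c (l 16185848) (l 16171728)) (l 16065904)) (l 16199344)) (l 16192528)) (l 15907696)) (l 15484216))))), by decide +kernel⟩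

def k6_pm_022 : ∃ t, chk3 f_pm_022 t 5 20 1 = true :=
  ⟨(a (a (b (a (l 3) (b (l 1) (l 1581114703543))) (b (b (l 14966232) (c (l 15017784) (l 14958280))) (b (b (l 15004216) (c (l 15051872) (l 14993616))) (b (b (c (l 15076800) (l 15019496)) (l 15082816)) (l 15121512))))) (b (l 1) (b (l 1) (b (l 1) (b (l 1) (l 14753688)))))) (l 1)), by decide +kernel⟩

def k7_pm_022 : ∃ t, chk3 f_pm_022 t 2 21 1 = true :=
  ⟨(a (a (a (a (c (a (b (a (l 15939752) (l 15981912)) (l 15581328)) (a (b (l 16019552) (l 15743048)) (c (l 15968240) (l 15888672)))) (a (a (c (l 15648312) (a (l 15488120) (l 15521856))) (c (b (l 16025104) (l 15653064)) (b (l 16104040) (l 15639368)))) (c (b (l 16154112) (l 15822144)) (l 15877608)))) (c (b (a (b (a (c (l 16229256) (l 16224760)) (l 16061296)) (l 16155944)) (b (l 16148264) (l 16043232))) (a (c (l 16014264) (l 16045416)) (l 16176352))) (b (a (b (l 16108088) (l 16298672)) (l 15990344)) (a (l 16112048) (l 16316368))))) (a (b (c (l 16116288) (l 16069992)) (c (a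 (b (l 15986568) (l 16217104)) (l 15825536)) (a (l 16043616) (l 15977280)))) (c (l 15897888) (l 16041440)))) (a (a (c (l 16026464) (l 16007160)) (l 15742472)) (a (l 15624936) (l 15471224)))) (a (l 14965184) (a (l 14456584) (l 1)))), by decide +kernel⟩

def k8_pm_022 : ∃ t, chk3 f_pm_022 t 3 10 1 = true :=
  ⟨(l 1), by decide +kernel⟩

def k9_pm_022 : ∃ t, chk3 f_pm_022 t 1 11 1 = true :=
  ⟨(a (a (a (a (a (b (c (a (l 14894568) (a (l 14927304) (a (l 15270160) (l 15312200)))) (a (c (a (l 14866304) (l 15009448)) (a (l 14848160) (l 14982992))) (c (l 15196152) (l 15197088)))) (c (a (l 14469416) (b (a (l 14626408) (l 14726368)) (l 14534480))) (a (c (l 14326688) (a (l 14367552) (l 14422272))) (b (l 14608256) (l 14460080))))) (b (c (a (c (l 15325208) (l 15406800)) (a (l 15555248) (l 15717288))) (b (a (l 15688984) (l 15968376)) (l 15403496))) (c (b (l 14860304) (a (l 14610576) (l 14777816))) (b (l 15004520) (l 14702416))))) (b (a (c (a (l 15740768) (l 16037528)) (l 15947816)) (b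 (a (b (l 15771320) (l 16065800)) (c (l 15879528) (l 15854352))) (c (l 16035776) (l 16230912)))) (a (c (l 15229824) (l 15352664)) (c (b (l 16033608) (l 15701744)) (l 15871720))))) (a (b (a (b (l 15759984) (a (l 15686648) (l 15621824))) (l 15554160)) (a (b (l 15806192) (l 16239784)) (b (l 15435120) (l 15783024)))) (b (a (l 15452968) (l 15444896)) (a (b (l 15217816) (l 15245816)) (l 15179024))))) (a (b (a (l 15296024) (l 14966264)) (a (l 15211576) (l 15082064))) (a (l 14673856) (l 14367496)))) (a (b (l 1) (l 13683704)) (l 1))), by decide +kernel⟩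

def k10_pm_022 : ∃ t, chk3 f_pm_022 t 1 3 1 = true :=
  ⟨(a (a (a (b (a (a (c (a (l 14444840) (b (l 14533712) (l 14533712))) (a (c (l 14406176) (l 14377624)) (l 14459288))) (c (b (l 14614488) (l 14614280)) (l 14595016))) (b (b (a (b (l 14650520) (l 14780992)) (a (l 15005568) (l 15296608))) (l 14864096)) (l 14863840))) (a (a (c (l 14483176) (a (l 14389800) (l 14459288))) (c (l 14614280) (l 14594904))) (l 14863840))) (b (b (a (b (a (l 15573424) (l 16322128)) (a (l 15301744) (l 15836456))) (b (a (l 15635136) (l 15225456)) (a (l 16417136) (l 16114248)))) (a (l 15430888) (b (l 16041344) (l 16018440)))) (a (l 15430744) (l 16018240)))) (b (a (b (a (b (l 15062088) (a (l 15608832) (l 15167040))) (b (l 15043992) (l 14909224))) (a (b (l 16190112) (l 16401128)) (b (l 15065328) (l 16088192)))) (b (a (l 14877200) (l 14742304)) (a (b (l 14773448) (l 15153704)) (b (l 14816928) (l 14704512))))) (a (b (a (l 16269248) (l 16554656)) (l 16376120)) (b (a (b (l 15981496) (l 16612752)) (b (l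 15092736) (l 15928528))) (l 16653904))))) (b (a (b (l 14236072) (a (l 14737424) (l 14450560))) (l 567499123511)) (a (b (a (b (l 14851856) (a (l 15092648) (l 14704416))) (l 14737424)) (a (b (a (l 15928456) (l 15092648)) (l 16225944)) (b (l 14851856) (l 14871944)))) (b (l 14236072) (l 14577416))))), by decide +kernel⟩

theorem s11_pm_022 : ∃ t, chk3 f_pm_022 t 16 41 1 = true := ex3_b k2_pm_022 k3_pm_022

theorem s12_pm_022 : ∃ t, chk3 f_pm_022 t 8 41 1 = true := ex3_a s11_pm_022 k4_pm_022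

theorem s13_pm_022 : ∃ t, chk3 f_pm_022 t 4 41 1 = true := ex3_a s12_pm_022 k5_pm_022

theorem s14_pm_022 : ∃ t, chk3 f_pm_022 t 4 20 1 = true := ex3_b k1_pm_022 s13_pm_022

theorem s15_pm_022 : ∃ t, chk3 f_pm_022 t 2 20 1 = true := ex3_a s14_pm_022 k6_pm_022

theorem s16_pm_022 : ∃ t, chk3 f_pm_022 t 2 10 1 = true := ex3_b s15_pm_022 k7_pm_022

theorem s17_pm_022 : ∃ t, chk3 f_pm_022 t 1 10 1 = true := ex3_a s16_pm_022 k8_pm_022

theorem s18_pm_022 : ∃ t, chk3 f_pm_022 t 1 5 1 = true := ex3_b s17_pm_022 k9_pm_022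

theorem s19_pm_022 : ∃ t, chk3 f_pm_022 t 1 2 1 = true := ex3_b k0_pm_022 s18_pm_022

theorem s20_pm_022 : ∃ t, chk3 f_pm_022 t 1 1 1 = true := ex3_b s19_pm_022 k10_pm_022

theorem c_pm_022 : CertNX 0 536870912 1073741824 536870912 1046898278 26843546 3 true true false .pp 0 2 2
    ndN5q0 ndN6q2 pcN2 Cut.none Ext.none :=
  certNX1 (fam := true) (s1 := true) (s2 := false) (a := 0) (b := 2) (c := 2) (cn := .pp) (n1 := ndN5q0) (n2 := ndN6q2) (pc := pcN2) (cut := Cut.none) (xt := Ext.none) (P1 := 0) (W1 := 536870912) (P2 := 1073741824) (W2 := 536870912) (P3 := 1046898278) (W3 := 26843546) (N0 := 3)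
    rfl (fun _ => rfl) s20_pm_022

noncomputable def f_pm_023 : ℕ → ℕ → ℕ → ℕ → Bool := onCell 0 536870912 1610612736 536870912 1046898278 26843546
    (rowNX 3 1 true true false .up 0 2 3 (qsf 0 536870912 1073741824 536870912 3) ndN5q0 ndN6q2 pcN3 Cut.none Ext.none)

def k0_pm_023 : ∃ t, chk3 f_pm_023 t 1 1 1 = true :=
  ⟨(a (b (b (a (a (a (a (b (l 14388896) (l 2)) (l 14565424)) (l 14863840)) (a (l 15430744) (l 16018240))) (l 16346280)) (a (a (l 2) (a (l 2) (l 16018240))) (l 16535024))) (b (a (l 2) (b (l 16535008) (l 2))) (l 2))) (b (b (a (b (a (l 16678312) (b (l 15531512) (l 16225944))) (l 16715104)) (b (a (b (l 14851856) (l 14976800)) (l 14737424)) (a (b (l 15279856) (l 16225944)) (b (l 14851856) (l 14976800))))) (a (l 16777216) (b (a (l 16678312) (a (l 16225944) (l 15531512))) (l 16715104)))) (b (b (l 16777216) (l 16777152)) (b (l 16767848) (l 4))))), by decide +kernel⟩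

theorem c_pm_023 : CertNX 0 536870912 1073741824 536870912 1046898278 26843546 3 true true false .up 0 2 3
    ndN5q0 ndN6q2 pcN3 Cut.none Ext.none :=
  certNX1 (fam := true) (s1 := true) (s2 := false) (a := 0) (b := 2) (c := 3) (cn := .up) (n1 := ndN5q0) (n2 := ndN6q2) (pc := pcN3) (cut := Cut.none) (xt := Ext.none) (P1 := 0) (W1 := 536870912) (P2 := 1073741824) (W2 := 536870912) (P3 := 1046898278) (W3 := 26843546) (N0 := 3)
    rfl (fun _ => rfl) k0_pm_023

noncomputable def f_pm_033 : ℕ → ℕ → ℕ → ℕ → Bool := onCell 0 536870912 0 1230186008 1046898278 26843546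
    (rowNX 3 0 true true false .pnn 0 3 3 (qsf 0 536870912 0 1230186008 3) ndN5q0 ndN6q3 pcN3 Cut.none Ext.none)

def k0_pm_033 : ∃ t, chk3 f_pm_033 t 1 1 1 = true :=
  ⟨(b (b (l 4) (a (l 4) (l 2))) (b (a (a (a (b (b (l 4) (a (a (c (l 14483088) (l 14428520)) (l 14586320)) (c (l 14884664) (l 14846016)))) (a (c (a (b (l 14483128) (l 14483176)) (l 14572304)) (a (b (l 14428568) (l 14428624)) (l 14594856))) (c (b (l 14886288) (l 14886304)) (b (l 14848128) (l 14848152))))) (b (l 4) (a (b (l 15386448) (l 15388768)) (b (l 4) (l 16017512))))) (b (l 4) (a (b (l 4) (a (b (l 4) (l 16267520)) (l 4))) (l 4)))) (l 4)) (a (b (a (a (a (a (c (l 14483176) (l 14260856)) (c (l 14614280) (l 14594904))) (b (a (l 14780456) (l 14961368)) (l 14863840))) (a (b (l 15325872) (l 15430744)) (b (l 16018200) (l 15997264)))) (a (b (a (l 16269104) (l 16477016)) (c (l 16382992) (l 16369152))) (b (a (b (l 4) (l 4)) (l 4)) (a (l 16675040) (l 16767984))))) (a (a (a (a (c (l 14483176) (a (l 14389800) (l 14459288)))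 (c (l 14614280) (l 14594904))) (b (l 14863840) (l 14863840))) (a (l 15262968) (l 16018240))) (a (b (a (l 16269128) (l 16481328)) (l 16376120)) (b (c (l 16727784) (l 16726040)) (a (l 16675624) (l 16777064)))))) (b (a (a (b (l 4) (b (l 4) (l 4))) (l 4)) (l 2)) (a (b (a (b (a (l 16776168) (l 16766824)) (l 16775520)) (a (b (l 4) (l 16766824)) (l 4))) (a (c (l 16777176) (l 16777176)) (b (a (l 16774744) (l 16767136)) (a (l 16777168) (l 16775448))))) (b (l 4) (a (b (l 4) (a (l 16767704) (l 4))) (l 4)))))))), by decide +kernel⟩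

theorem c_pm_033 : CertNX 0 536870912 0 1230186008 1046898278 26843546 3 true true false .pnn 0 3 3
    ndN5q0 ndN6q3 pcN3 Cut.none Ext.none :=
  certNX0 (fam := true) (s1 := true) (s2 := false) (a := 0) (b := 3) (c := 3) (cn := .pnn) (n1 := ndN5q0) (n2 := ndN6q3) (pc := pcN3) (cut := Cut.none) (xt := Ext.none) (P1 := 0) (W1 := 536870912) (P2 := 0) (W2 := 1230186008) (P3 := 1046898278) (W3 := 26843546) (N0 := 3)
    rfl k0_pm_033

noncomputable def f_pm_101 : ℕ → ℕ → ℕ → ℕ → Bool := onCell 536870912 536870912 0 536870912 1046898278 26843546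
    (rowNX 3 2 true true false .npn 1 0 1 (qsf 536870912 469762048 0 536870912 1) ndN5q1 ndN6q0 pcN1 Cut.none Ext.none)

def k0_pm_101 : ∃ t, chk3 f_pm_101 t 1 1 1 = true :=
  ⟨(a (l 3) (l 3)), by decide +kernel⟩

theorem c_pm_101 : CertNX 536870912 469762048 0 536870912 1046898278 26843546 3 true true false .npn 1 0 1
    ndN5q1 ndN6q0 pcN1 Cut.none Ext.none :=
  certNX2 (fam := true) (s1 := true) (s2 := false) (a := 1) (b := 0) (c := 1) (cn := .npn) (n1 := ndN5q1) (n2 := ndN6q0) (pc := pcN1) (cut := Cut.none) (xt := Ext.none) (P1 := 536870912) (W1 := 469762048) (P2 := 0) (W2 := 536870912) (P3 := 1046898278) (W3 := 26843546) (N0 := 3)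
    rfl (fun _ => rfl) k0_pm_101

noncomputable def f_pm_102 : ℕ → ℕ → ℕ → ℕ → Bool := onCell 536870912 469762048 1073741824 536870912 1046898278 26843546
    (rowNX 3 1 true true false .npp 1 0 2 (qsf 536870912 469762048 0 536870912 2) ndN5q1 ndN6q0 pcN2 Cut.none Ext.none)

def k0_pm_102 : ∃ t, chk3 f_pm_102 t 1 1 1 = true :=
  ⟨(b (b (l 3) (b (b (b (l 3) (b (a (l 2940072882999) (l 3)) (b (a (l 16777088) (a (a (l 16777208) (l 3)) (l 3))) (b (a (l 16771104) (a (a (l 16777208) (l 1141016862455)) (a (a (l 15096576) (l 14301168)) (a (l 13557320) (l 13696736))))) (a (a (l 2) (l 16777216)) (a (a (l 16777216) (a (a (l 16730720) (l 16420008)) (l 15871072))) (a (a (l 14970752) (l 14301168)) (a (c (l 13613112) (l 13501584)) (c (l 13752024) (l 13638952)))))))))) (a (l 16769328) (a (a (l 16777216) (l 16230016)) (a (l 14704856) (a (l 13557320) (l 13693936)))))) (a (l 16776072) (a (a (l 16777216) (l 16230016)) (a (l 14620968) (a (l 13557320) (l 13693848))))))) (a (l 2) (a (a (l 16777216)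 (l 16230016)) (a (a (l 15096576) (l 14301168)) (a (l 13557320) (l 13693848)))))), by decide +kernel⟩

theorem c_pm_102 : CertNX 536870912 469762048 0 536870912 1046898278 26843546 3 true true false .npp 1 0 2
    ndN5q1 ndN6q0 pcN2 Cut.none Ext.none :=
  certNX1 (fam := true) (s1 := true) (s2 := false) (a := 1) (b := 0) (c := 2) (cn := .npp) (n1 := ndN5q1) (n2 := ndN6q0) (pc := pcN2) (cut := Cut.none) (xt := Ext.none) (P1 := 536870912) (W1 := 469762048) (P2 := 0) (W2 := 536870912) (P3 := 1046898278) (W3 := 26843546) (N0 := 3)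
    rfl (fun _ => rfl) k0_pm_102

noncomputable def f_pm_112 : ℕ → ℕ → ℕ → ℕ → Bool := onCell 1073741824 536870912 536870912 469762048 1046898278 26843546
    (rowNX 3 2 true true false .dn 1 1 2 (qsf 536870912 469762048 536870912 469762048 2) ndN5q1 ndN6q1 pcN2 Cut.none Ext.none)

def k0_pm_112 : ∃ t, chk3 f_pm_112 t 1 1 1 = true :=
  ⟨(b (a (a (l 3) (a (a (a (l 3) (a (l 1113101169463) (a (l 16777088) (a (c (l 16764704) (l 16764264)) (c (l 16756664) (l 16755944)))))) (l 16761456)) (l 16775536))) (a (b (a (l 16705592) (b (a (l 16166264) (l 15383984)) (l 16607224))) (l 16777216)) (b (a (b (a (b (l 14139536) (l 14876168)) (b (l 13775632) (l 13990624))) (a (l 15924816) (l 14952752))) (b (a (l 148807005543) (b (l 2) (l 13584920))) (a (b (l 13907976) (l 14648456)) (b (l 13691496) (l 13836192))))) (a (l 16616584) (b (a (l 15780128) (l 14812272)) (l 16442856)))))) (a (a (l 1) (b (a (l 1) (b (l 16771968) (l 1))) (l 1))) (b (b (l 16777168) (b (l 16505280) (l 15553200))) (a (b (l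 14238360) (l 1)) (b (l 14238360) (b (l 13591576) (l 13521600))))))), by decide +kernel⟩

theorem c_pm_112 : CertNX 536870912 469762048 536870912 469762048 1046898278 26843546 3 true true false .dn 1 1 2
    ndN5q1 ndN6q1 pcN2 Cut.none Ext.none :=
  certNX2 (fam := true) (s1 := true) (s2 := false) (a := 1) (b := 1) (c := 2) (cn := .dn) (n1 := ndN5q1) (n2 := ndN6q1) (pc := pcN2) (cut := Cut.none) (xt := Ext.none) (P1 := 536870912) (W1 := 469762048) (P2 := 536870912) (W2 := 469762048) (P3 := 1046898278) (W3 := 26843546) (N0 := 3)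
    rfl (fun _ => rfl) k0_pm_112

noncomputable def f_pm_113 : ℕ → ℕ → ℕ → ℕ → Bool := onCell 536870912 469762048 536870912 469762048 1046898278 26843546
    (rowNX 3 0 true true false .nn 1 1 3 (qsf 536870912 469762048 536870912 469762048 3) ndN5q1 ndN6q1 pcN3 Cut.none Ext.none)

def k0_pm_113 : ∃ t, chk3 f_pm_113 t 1 1 1 = true :=
  ⟨(b (a (l 1) (a (l 501469955367) (a (l 14704856) (a (l 13557320) (l 13693848))))) (a (b (b (l 1) (l 15973568)) (b (l 14175448) (b (l 13528664) (l 550319224695)))) (b (a (b (l 16513432) (l 15635512)) (a (b (l 14704856) (l 14004272)) (b (l 13737336) (l 13050096)))) (a (b (l 13988800) (b (l 13344392) (a (l 13521600) (l 13017392)))) (b (a (l 12285600) (l 11397296)) (a (b (l 11682496) (l 11640832)) (c (b (l 11107280) (l 11155664)) (l 10582096)))))))), by decide +kernel⟩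

theorem c_pm_113 : CertNX 536870912 469762048 536870912 469762048 1046898278 26843546 3 true true false .nn 1 1 3
    ndN5q1 ndN6q1 pcN3 Cut.none Ext.none :=
  certNX0 (fam := true) (s1 := true) (s2 := false) (a := 1) (b := 1) (c := 3) (cn := .nn) (n1 := ndN5q1) (n2 := ndN6q1) (pc := pcN3) (cut := Cut.none) (xt := Ext.none) (P1 := 536870912) (W1 := 469762048) (P2 := 536870912) (W2 := 469762048) (P3 := 1046898278) (W3 := 26843546) (N0 := 3)
    rfl k0_pm_113

noncomputable def f_pm_123 : ℕ → ℕ → ℕ → ℕ → Bool := onCell 1610612736 536870912 1073741824 536870912 1046898278 26843546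
    (rowNX 3 2 true true false .npn 1 2 3 (qsf 536870912 469762048 1073741824 536870912 3) ndN5q1 ndN6q2 pcN3 Cut.none Ext.none)

def k0_pm_123 : ∃ t, chk3 f_pm_123 t 1 1 1 = true :=
  ⟨(a (b (b (a (l 14737424) (l 14737424)) (b (a (l 636221712711) (l 15092648)) (a (l 1) (l 16567944)))) (a (l 1) (l 16777216))) (a (b (b (a (b (l 14588584) (l 14816832)) (b (b (l 13662600) (l 14508376)) (l 14799064))) (a (b (l 15092664) (l 16567952)) (b (l 15092712) (l 16568008)))) (a (l 16777200) (l 16777160))) (a (b (b (b (a (b (a (l 13053400) (l 12905336)) (l 14234736)) (b (a (l 12941960) (l 13215656)) (l 14342568))) (a (l 14821752) (l 15038352))) (b (a (l 15093280) (l 15113048)) (l 16575848))) (l 16767848)) (b (a (a (b (b (b (l 13560376) (l 14686824)) (l 15426168)) (l 4)) (l 4)) (l 4)) (l 4))))), by decide +kernel⟩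

theorem c_pm_123 : CertNX 536870912 469762048 1073741824 536870912 1046898278 26843546 3 true true false .npn 1 2 3
    ndN5q1 ndN6q2 pcN3 Cut.none Ext.none :=
  certNX2 (fam := true) (s1 := true) (s2 := false) (a := 1) (b := 2) (c := 3) (cn := .npn) (n1 := ndN5q1) (n2 := ndN6q2) (pc := pcN3) (cut := Cut.none) (xt := Ext.none) (P1 := 536870912) (W1 := 469762048) (P2 := 1073741824) (W2 := 536870912) (P3 := 1046898278) (W3 := 26843546) (N0 := 3)
    rfl (fun _ => rfl) k0_pm_123

noncomputable def f_pm_133 : ℕ → ℕ → ℕ → ℕ → Bool := onCell 536870912 469762048 0 1230186008 1046898278 26843546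
    (rowNX 3 0 true true false .dn 1 3 3 (qsf 536870912 469762048 0 1230186008 3) ndN5q1 ndN6q3 pcN3 Cut.none Ext.none)

def k0_pm_133 : ∃ t, chk3 f_pm_133 t 1 1 1 = true :=
  ⟨(b (l 2) (b (l 2) (l 4))), by decide +kernel⟩

theorem c_pm_133 : CertNX 536870912 469762048 0 1230186008 1046898278 26843546 3 true true false .dn 1 3 3
    ndN5q1 ndN6q3 pcN3 Cut.none Ext.none :=
  certNX0 (fam := true) (s1 := true) (s2 := false) (a := 1) (b := 3) (c := 3) (cn := .dn) (n1 := ndN5q1) (n2 := ndN6q3) (pc := pcN3) (cut := Cut.none) (xt := Ext.none) (P1 := 536870912) (W1 := 469762048) (P2 := 0) (W2 := 1230186008) (P3 := 1046898278) (W3 := 26843546) (N0 := 3)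
    rfl k0_pm_133

noncomputable def f_pm_202 : ℕ → ℕ → ℕ → ℕ → Bool := onCell 1073741824 536870912 0 536870912 1046898278 26843546
    (rowNX 3 2 true true false .pp 2 0 2 (qsf 1073741824 536870912 0 536870912 2) ndN5q2 ndN6q0 pcN2 Cut.none Ext.none)

def k0_pm_202 : ∃ t, chk3 f_pm_202 t 4 2 1 = true :=
  ⟨(b (b (b (a (b (c (b (l 608304386887) (a (b (l 15521552) (l 15565040)) (l 14848560))) (b (a (c (l 15428928) (b (l 15337448) (l 15422008))) (c (l 14715040) (l 14590160))) (a (l 536364539735) (l 14779336)))) (c (b (a (l 15561304) (l 14944752)) (l 620653011703)) (a (l 15617712) (l 14894344)))) (b (c (b (l 13793760) (a (l 14210720) (l 13527768))) (b (c (l 13707568) (b (l 13631072) (l 13669760))) (c (l 13785320) (l 13723480)))) (c (a (l 14339576) (l 13646864)) (l 13864424)))) (a (a (c (b (l 15625768) (l 1)) (l 609916545383)) (c (b (l 15132656) (l 15282952)) (l 622800034951))) (a (c (l 14559168) (l 14468624)) (c (l 13850512) (l 13736168))))) (b (a (a (l 1) (b (l 617431928439)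 (l 1))) (a (b (l 14772176) (l 14983920)) (l 14132200))) (a (l 1) (a (a (l 1) (l 15114032)) (l 14517800))))) (a (l 1) (b (a (l 1) (b (l 14885632) (l 1))) (l 1)))), by decide +kernel⟩

def k1_pm_202 : ∃ t, chk3 f_pm_202 t 5 2 1 = true :=
  ⟨(b (a (b (b (a (b (a (c (l 13018312) (b (l 12845088) (l 12913920))) (c (b (l 13267424) (l 13149216)) (b (c (l 13168768) (l 13102384)) (l 13021272)))) (a (c (l 13156544) (l 13009424)) (c (l 13188984) (l 13044008)))) (b (b (c (l 14655512) (a (l 14048120) (l 14899928))) (c (l 14395096) (l 14311536))) (c (a (l 13682288) (l 14479720)) (a (l 13555776) (l 14382520))))) (a (a (l 13282240) (l 13304752)) (b (a (l 13551488) (l 14032552)) (l 13817944)))) (b (a (a (l 13599368) (l 13606736)) (l 14038672)) (a (a (l 13963272) (l 13954912)) (l 14361656)))) (b (b (a (a (b (c (l 15723576) (b (c (l 15964632) (l 15948592)) (l 15711920))) (c (l 15386384) (l 15322728))) (b (c (l 16380336) (b (l 16237024) (l 16504528))) (c (l 16247008) (l 16216496)))) (b (c (l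 15755256) (b (c (l 15690000) (l 15677176)) (l 15721368))) (c (l 16044544) (l 16047752)))) (a (a (b (l 14822968) (l 14420704)) (b (l 15724456) (l 15189520))) (b (l 16465264) (l 16068120)))) (a (b (b (l 14364928) (l 14639576)) (l 14854904)) (b (b (l 15621896) (l 15206816)) (l 15026432))))) (a (a (b (a (l 845600103399) (l 14427400)) (l 1)) (b (l 14801072) (l 1165040289703))) (a (b (l 15252808) (l 15602624)) (b (l 15290272) (l 15783440))))), by decide +kernel⟩

def k2_pm_202 : ∃ t, chk3 f_pm_202 t 2 3 1 = true :=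
  ⟨(a (l 1) (a (l 1) (a (l 1) (b (b (l 16653464) (l 1)) (l 1))))), by decide +kernel⟩

def k3_pm_202 : ∃ t, chk3 f_pm_202 t 3 1 1 = true :=
  ⟨(b (b (a (b (b (b (c (l 15697808) (b (l 15632904) (l 15686568))) (c (l 15759616) (l 15750504))) (a (a (b (l 15910936) (l 16189000)) (l 15878568)) (l 15878288))) (a (b (a (l 16173272) (l 16186032)) (a (b (l 15559824) (l 15120976)) (l 16229968))) (b (l 16003720) (l 16209608)))) (b (b (b (c (l 15697808) (l 15567280)) (l 15662904)) (l 15878288)) (b (l 16003560) (l 16104120)))) (a (b (a (b (a (l 14915912) (l 15056808)) (a (l 15023000) (l 14771576))) (a (b (l 16137384) (l 15052040)) (b (l 16396696) (l 16020920)))) (a (l 15176344) (b (a (l 14620992) (l 15001360)) (a (l 14772632) (l 14545840))))) (b (a (l 16163440) (l 16352576)) (a (b (a (l 15902616) (l 16595656)) (a (l 14934896) (l 15844864))) (l 16687176))))) (a (b (a (b (l 15950512) (l 16397992)) (b (l 15130952) (l 15950512))) (a (l 1) (b (l 16565760) (l 1)))) (b (a (b (a (l 14768784)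 (b (l 14934800) (l 14545736))) (l 15130952)) (b (a (b (l 15844784) (l 14934800)) (l 16170976)) (a (l 14768784) (b (l 14934800) (l 14545736))))) (a (b (l 15950512) (l 16649648)) (l 15525120))))), by decide +kernel⟩

theorem s4_pm_202 : ∃ t, chk3 f_pm_202 t 2 2 1 = true := ex3_a k0_pm_202 k1_pm_202

theorem s5_pm_202 : ∃ t, chk3 f_pm_202 t 2 1 1 = true := ex3_b s4_pm_202 k2_pm_202

theorem s6_pm_202 : ∃ t, chk3 f_pm_202 t 1 1 1 = true := ex3_a s5_pm_202 k3_pm_202

theorem c_pm_202 : CertNX 1073741824 536870912 0 536870912 1046898278 26843546 3 true true false .pp 2 0 2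
    ndN5q2 ndN6q0 pcN2 Cut.none Ext.none :=
  certNX2 (fam := true) (s1 := true) (s2 := false) (a := 2) (b := 0) (c := 2) (cn := .pp) (n1 := ndN5q2) (n2 := ndN6q0) (pc := pcN2) (cut := Cut.none) (xt := Ext.none) (P1 := 1073741824) (W1 := 536870912) (P2 := 0) (W2 := 536870912) (P3 := 1046898278) (W3 := 26843546) (N0 := 3)
    rfl (fun _ => rfl) s6_pm_202

noncomputable def f_pm_203 : ℕ → ℕ → ℕ → ℕ → Bool := onCell 1073741824 536870912 1610612736 536870912 1046898278 26843546
    (rowNX 3 1 true true false .up 2 0 3 (qsf 1073741824 536870912 0 536870912 3) ndN5q2 ndN6q0 pcN3 Cut.none Ext.none)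

def k0_pm_203 : ∃ t, chk3 f_pm_203 t 1 1 1 = true :=
  ⟨(a (b (a (b (l 14900264) (b (l 15130952) (l 2))) (b (a (a (l 14488456) (l 15362176)) (a (l 16304928) (l 16776552))) (a (b (l 14934800) (l 4)) (b (l 16546792) (l 4))))) (l 4)) (b (b (a (b (l 16585552) (l 16760360)) (b (a (b (a (l 16181336) (l 16079352)) (l 16273568)) (b (a (l 15939408) (c (l 15818808) (l 15788552))) (a (l 16079352) (l 15939408)))) (a (l 16521384) (b (l 16162448) (l 16273568))))) (b (a (l 16777216) (l 16585552)) (l 4))) (l 4))), by decide +kernel⟩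

theorem c_pm_203 : CertNX 1073741824 536870912 0 536870912 1046898278 26843546 3 true true false .up 2 0 3
    ndN5q2 ndN6q0 pcN3 Cut.none Ext.none :=
  certNX1 (fam := true) (s1 := true) (s2 := false) (a := 2) (b := 0) (c := 3) (cn := .up) (n1 := ndN5q2) (n2 := ndN6q0) (pc := pcN3) (cut := Cut.none) (xt := Ext.none) (P1 := 1073741824) (W1 := 536870912) (P2 := 0) (W2 := 536870912) (P3 := 1046898278) (W3 := 26843546) (N0 := 3)
    rfl (fun _ => rfl) k0_pm_203

noncomputable def f_pm_213 : ℕ → ℕ → ℕ → ℕ → Bool := onCell 1073741824 536870912 1610612736 536870912 1046898278 26843546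
    (rowNX 3 1 true true false .pnn 2 1 3 (qsf 1073741824 536870912 536870912 469762048 3) ndN5q2 ndN6q1 pcN3 Cut.none Ext.none)

def k0_pm_213 : ∃ t, chk3 f_pm_213 t 1 1 1 = true :=
  ⟨(a (b (a (b (l 13451468471) (b (l 15130952) (l 79151046327))) (b (a (a (l 14488456) (l 1)) (l 1)) (a (b (l 14934800) (l 4)) (b (l 16546792) (l 4))))) (l 4)) (b (b (l 1) (c (l 16777216) (l 16777216))) (l 4))), by decide +kernel⟩

theorem c_pm_213 : CertNX 1073741824 536870912 536870912 469762048 1046898278 26843546 3 true true false .pnn 2 1 3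
    ndN5q2 ndN6q1 pcN3 Cut.none Ext.none :=
  certNX1 (fam := true) (s1 := true) (s2 := false) (a := 2) (b := 1) (c := 3) (cn := .pnn) (n1 := ndN5q2) (n2 := ndN6q1) (pc := pcN3) (cut := Cut.none) (xt := Ext.none) (P1 := 1073741824) (W1 := 536870912) (P2 := 536870912) (W2 := 469762048) (P3 := 1046898278) (W3 := 26843546) (N0 := 3)
    rfl (fun _ => rfl) k0_pm_213

noncomputable def f_pm_303 : ℕ → ℕ → ℕ → ℕ → Bool := onCell 0 1230186008 0 536870912 1046898278 26843546
    (rowNX 3 0 true true false .npn 3 0 3 (qsf 0 1230186008 0 536870912 3) ndN5q3 ndN6q0 pcN3 Cut.none Ext.none)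

def k0_pm_303 : ∃ t, chk3 f_pm_303 t 1 1 1 = true :=
  ⟨(a (l 4) (a (l 4) (b (a (b (a (l 4) (b (b (c (l 15732384) (l 15709464)) (l 4)) (l 4))) (l 4)) (a (b (b (b (c (l 15732384) (l 15709464)) (l 15878288)) (b (l 16003560) (l 4))) (l 4)) (b (b (b (c (l 15732384) (l 15709464)) (l 15878288)) (b (l 16003560) (l 16104120))) (b (l 16352576) (l 4))))) (l 4)))), by decide +kernel⟩

theorem c_pm_303 : CertNX 0 1230186008 0 536870912 1046898278 26843546 3 true true false .npn 3 0 3
    ndN5q3 ndN6q0 pcN3 Cut.none Ext.none :=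
  certNX0 (fam := true) (s1 := true) (s2 := false) (a := 3) (b := 0) (c := 3) (cn := .npn) (n1 := ndN5q3) (n2 := ndN6q0) (pc := pcN3) (cut := Cut.none) (xt := Ext.none) (P1 := 0) (W1 := 1230186008) (P2 := 0) (W2 := 536870912) (P3 := 1046898278) (W3 := 26843546) (N0 := 3)
    rfl k0_pm_303

noncomputable def f_pm_313 : ℕ → ℕ → ℕ → ℕ → Bool := onCell 0 1230186008 536870912 469762048 1046898278 26843546
    (rowNX 3 0 true true false .dn 3 1 3 (qsf 0 1230186008 536870912 469762048 3) ndN5q3 ndN6q1 pcN3 Cut.none Ext.none)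

def k0_pm_313 : ∃ t, chk3 f_pm_313 t 1 1 1 = true :=
  ⟨(a (l 2) (l 4)), by decide +kernel⟩

theorem c_pm_313 : CertNX 0 1230186008 536870912 469762048 1046898278 26843546 3 true true false .dn 3 1 3
    ndN5q3 ndN6q1 pcN3 Cut.none Ext.none :=
  certNX0 (fam := true) (s1 := true) (s2 := false) (a := 3) (b := 1) (c := 3) (cn := .dn) (n1 := ndN5q3) (n2 := ndN6q1) (pc := pcN3) (cut := Cut.none) (xt := Ext.none) (P1 := 0) (W1 := 1230186008) (P2 := 536870912) (W2 := 469762048) (P3 := 1046898278) (W3 := 26843546) (N0 := 3)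
    rfl k0_pm_313

noncomputable def f_mm_001 : ℕ → ℕ → ℕ → ℕ → Bool := onCell 0 536870912 0 536870912 1046898278 26843546
    (rowNX 3 0 true false false .up 0 0 1 (qsf 0 536870912 0 536870912 1) ndN5q0 ndN6q0 pcN1 Cut.none Ext.none)

def k0_mm_001 : ∃ t, chk3 f_mm_001 t 1 1 1 = true :=
  ⟨(l 4), by decide +kernel⟩

theorem c_mm_001 : CertNX 0 536870912 0 536870912 1046898278 26843546 3 true false false .up 0 0 1
    ndN5q0 ndN6q0 pcN1 Cut.none Ext.none :=
  certNX0 (fam := true) (s1 := false) (s2 := false) (a := 0) (b := 0) (c := 1) (cn := .up) (n1 := ndN5q0) (n2 := ndN6q0) (pc := pcN1) (cut := Cut.none) (xt := Ext.none) (P1 := 0) (W1 := 536870912) (P2 := 0) (W2 := 536870912) (P3 := 1046898278) (W3 := 26843546) (N0 := 3)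
    rfl k0_mm_001

noncomputable def f_mm_011 : ℕ → ℕ → ℕ → ℕ → Bool := onCell 0 536870912 536870912 469762048 1046898278 26843546
    (rowNX 3 0 true false false .pnn 0 1 1 (qsf 0 536870912 536870912 469762048 1) ndN5q0 ndN6q1 pcN1 Cut.none Ext.none)

def k0_mm_011 : ∃ t, chk3 f_mm_011 t 1 1 1 = true :=
  ⟨(l 4), by decide +kernel⟩

theorem c_mm_011 : CertNX 0 536870912 536870912 469762048 1046898278 26843546 3 true false false .pnn 0 1 1
    ndN5q0 ndN6q1 pcN1 Cut.none Ext.none :=
  certNX0 (fam := true) (s1 := false) (s2 := false) (a := 0) (b := 1) (c := 1) (cn := .pnn) (n1 := ndN5q0) (n2 := ndN6q1) (pc := pcN1) (cut := Cut.none) (xt := Ext.none) (P1 := 0) (W1 := 536870912) (P2 := 536870912) (W2 := 469762048) (P3 := 1046898278) (W3 := 26843546) (N0 := 3)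
    rfl k0_mm_011

noncomputable def f_mm_012 : ℕ → ℕ → ℕ → ℕ → Bool := onCell 0 536870912 536870912 469762048 1046898278 26843546
    (rowNX 3 0 true false false .pnp 0 1 2 (qsf 0 536870912 536870912 469762048 2) ndN5q0 ndN6q1 pcN2 Cut.none Ext.none)

def k0_mm_012 : ∃ t, chk3 f_mm_012 t 1 1 1 = true :=
  ⟨(l 4), by decide +kernel⟩

theorem c_mm_012 : CertNX 0 536870912 536870912 469762048 1046898278 26843546 3 true false false .pnp 0 1 2
    ndN5q0 ndN6q1 pcN2 Cut.none Ext.none :=
  certNX0 (fam := true) (s1 := false) (s2 := false) (a := 0) (b := 1) (c := 2) (cn := .pnp) (n1 := ndN5q0) (n2 := ndN6q1) (pc := pcN2) (cut := Cut.none) (xt := Ext.none) (P1 := 0) (W1 := 536870912) (P2 := 536870912) (W2 := 469762048) (P3 := 1046898278) (W3 := 26843546) (N0 := 3)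
    rfl k0_mm_012

noncomputable def f_mm_022 : ℕ → ℕ → ℕ → ℕ → Bool := onCell 0 536870912 1073741824 536870912 1046898278 26843546
    (rowNX 3 0 true false false .pp 0 2 2 (qsf 0 536870912 1073741824 536870912 2) ndN5q0 ndN6q2 pcN2 Cut.none Ext.none)

def k0_mm_022 : ∃ t, chk3 f_mm_022 t 1 1 1 = true :=
  ⟨(l 4), by decide +kernel⟩

theorem c_mm_022 : CertNX 0 536870912 1073741824 536870912 1046898278 26843546 3 true false false .pp 0 2 2
    ndN5q0 ndN6q2 pcN2 Cut.none Ext.none :=
  certNX0 (fam := true) (s1 := false) (s2 := false) (a := 0) (b := 2) (c := 2) (cn := .pp) (n1 := ndN5q0) (n2 := ndN6q2) (pc := pcN2) (cut := Cut.none) (xt := Ext.none) (P1 := 0) (W1 := 536870912) (P2 := 1073741824) (W2 := 536870912) (P3 := 1046898278) (W3 := 26843546) (N0 := 3)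
    rfl k0_mm_022

noncomputable def f_mm_023 : ℕ → ℕ → ℕ → ℕ → Bool := onCell 0 536870912 1073741824 536870912 1046898278 26843546
    (rowNX 3 0 true false false .up 0 2 3 (qsf 0 536870912 1073741824 536870912 3) ndN5q0 ndN6q2 pcN3 Cut.none Ext.none)

def k0_mm_023 : ∃ t, chk3 f_mm_023 t 1 1 1 = true :=
  ⟨(l 4), by decide +kernel⟩

theorem c_mm_023 : CertNX 0 536870912 1073741824 536870912 1046898278 26843546 3 true false false .up 0 2 3
    ndN5q0 ndN6q2 pcN3 Cut.none Ext.none :=
  certNX0 (fam := true) (s1 := false) (s2 := false) (a := 0) (b := 2) (c := 3) (cn := .up) (n1 := ndN5q0) (n2 := ndN6q2) (pc := pcN3) (cut := Cut.none) (xt := Ext.none) (P1 := 0) (W1 := 536870912) (P2 := 1073741824) (W2 := 536870912) (P3 := 1046898278) (W3 := 26843546) (N0 := 3)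
    rfl k0_mm_023

noncomputable def f_mm_033 : ℕ → ℕ → ℕ → ℕ → Bool := onCell 0 536870912 0 1230186008 1046898278 26843546
    (rowNX 3 0 true false false .pnn 0 3 3 (qsf 0 536870912 0 1230186008 3) ndN5q0 ndN6q3 pcN3 Cut.none Ext.none)

def k0_mm_033 : ∃ t, chk3 f_mm_033 t 1 1 1 = true :=
  ⟨(l 5), by decide +kernel⟩

theorem c_mm_033 : CertNX 0 536870912 0 1230186008 1046898278 26843546 3 true false false .pnn 0 3 3
    ndN5q0 ndN6q3 pcN3 Cut.none Ext.none :=
  certNX0 (fam := true) (s1 := false) (s2 := false) (a := 0) (b := 3) (c := 3) (cn := .pnn) (n1 := ndN5q0) (n2 := ndN6q3) (pc := pcN3) (cut := Cut.none) (xt := Ext.none) (P1 := 0) (W1 := 536870912) (P2 := 0) (W2 := 1230186008) (P3 := 1046898278) (W3 := 26843546) (N0 := 3)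
    rfl k0_mm_033

noncomputable def f_mm_101 : ℕ → ℕ → ℕ → ℕ → Bool := onCell 536870912 469762048 0 536870912 1046898278 26843546
    (rowNX 3 0 true false false .npn 1 0 1 (qsf 536870912 469762048 0 536870912 1) ndN5q1 ndN6q0 pcN1 Cut.none Ext.none)

def k0_mm_101 : ∃ t, chk3 f_mm_101 t 1 1 1 = true :=
  ⟨(l 4), by decide +kernel⟩

theorem c_mm_101 : CertNX 536870912 469762048 0 536870912 1046898278 26843546 3 true false false .npn 1 0 1
    ndN5q1 ndN6q0 pcN1 Cut.none Ext.none :=
  certNX0 (fam := true) (s1 := false) (s2 := false) (a := 1) (b := 0) (c := 1) (cn := .npn) (n1 := ndN5q1) (n2 := ndN6q0) (pc := pcN1) (cut := Cut.none) (xt := Ext.none) (P1 := 536870912) (W1 := 469762048) (P2 := 0) (W2 := 536870912) (P3 := 1046898278) (W3 := 26843546) (N0 := 3)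
    rfl k0_mm_101

noncomputable def f_mm_102 : ℕ → ℕ → ℕ → ℕ → Bool := onCell 536870912 469762048 0 536870912 1046898278 26843546
    (rowNX 3 0 true false false .npp 1 0 2 (qsf 536870912 469762048 0 536870912 2) ndN5q1 ndN6q0 pcN2 Cut.none Ext.none)

def k0_mm_102 : ∃ t, chk3 f_mm_102 t 1 1 1 = true :=
  ⟨(l 4), by decide +kernel⟩

theorem c_mm_102 : CertNX 536870912 469762048 0 536870912 1046898278 26843546 3 true false false .npp 1 0 2
    ndN5q1 ndN6q0 pcN2 Cut.none Ext.none :=
  certNX0 (fam := true) (s1 := false) (s2 := false) (a := 1) (b := 0) (c := 2) (cn := .npp) (n1 := ndN5q1) (n2 := ndN6q0) (pc := pcN2) (cut := Cut.none) (xt := Ext.none) (P1 := 536870912) (W1 := 469762048) (P2 := 0) (W2 := 536870912) (P3 := 1046898278) (W3 := 26843546) (N0 := 3)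
    rfl k0_mm_102

noncomputable def f_mm_112 : ℕ → ℕ → ℕ → ℕ → Bool := onCell 536870912 469762048 536870912 469762048 1046898278 26843546
    (rowNX 3 0 true false false .dn 1 1 2 (qsf 536870912 469762048 536870912 469762048 2) ndN5q1 ndN6q1 pcN2 Cut.none Ext.none)

def k0_mm_112 : ∃ t, chk3 f_mm_112 t 1 1 1 = true :=
  ⟨(l 4), by decide +kernel⟩

theorem c_mm_112 : CertNX 536870912 469762048 536870912 469762048 1046898278 26843546 3 true false false .dn 1 1 2
    ndN5q1 ndN6q1 pcN2 Cut.none Ext.none :=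
  certNX0 (fam := true) (s1 := false) (s2 := false) (a := 1) (b := 1) (c := 2) (cn := .dn) (n1 := ndN5q1) (n2 := ndN6q1) (pc := pcN2) (cut := Cut.none) (xt := Ext.none) (P1 := 536870912) (W1 := 469762048) (P2 := 536870912) (W2 := 469762048) (P3 := 1046898278) (W3 := 26843546) (N0 := 3)
    rfl k0_mm_112

noncomputable def f_mm_113 : ℕ → ℕ → ℕ → ℕ → Bool := onCell 536870912 469762048 536870912 469762048 1046898278 26843546
    (rowNX 3 0 true false false .nn 1 1 3 (qsf 536870912 469762048 536870912 469762048 3) ndN5q1 ndN6q1 pcN3 Cut.none Ext.none)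

def k0_mm_113 : ∃ t, chk3 f_mm_113 t 1 1 1 = true :=
  ⟨(l 4), by decide +kernel⟩

theorem c_mm_113 : CertNX 536870912 469762048 536870912 469762048 1046898278 26843546 3 true false false .nn 1 1 3
    ndN5q1 ndN6q1 pcN3 Cut.none Ext.none :=
  certNX0 (fam := true) (s1 := false) (s2 := false) (a := 1) (b := 1) (c := 3) (cn := .nn) (n1 := ndN5q1) (n2 := ndN6q1) (pc := pcN3) (cut := Cut.none) (xt := Ext.none) (P1 := 536870912) (W1 := 469762048) (P2 := 536870912) (W2 := 469762048) (P3 := 1046898278) (W3 := 26843546) (N0 := 3)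
    rfl k0_mm_113

noncomputable def f_mm_123 : ℕ → ℕ → ℕ → ℕ → Bool := onCell 536870912 469762048 1073741824 536870912 1046898278 26843546
    (rowNX 3 0 true false false .npn 1 2 3 (qsf 536870912 469762048 1073741824 536870912 3) ndN5q1 ndN6q2 pcN3 Cut.none Ext.none)

def k0_mm_123 : ∃ t, chk3 f_mm_123 t 1 1 1 = true :=
  ⟨(l 4), by decide +kernel⟩

theorem c_mm_123 : CertNX 536870912 469762048 1073741824 536870912 1046898278 26843546 3 true false false .npn 1 2 3
    ndN5q1 ndN6q2 pcN3 Cut.none Ext.none :=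
  certNX0 (fam := true) (s1 := false) (s2 := false) (a := 1) (b := 2) (c := 3) (cn := .npn) (n1 := ndN5q1) (n2 := ndN6q2) (pc := pcN3) (cut := Cut.none) (xt := Ext.none) (P1 := 536870912) (W1 := 469762048) (P2 := 1073741824) (W2 := 536870912) (P3 := 1046898278) (W3 := 26843546) (N0 := 3)
    rfl k0_mm_123

noncomputable def f_mm_133 : ℕ → ℕ → ℕ → ℕ → Bool := onCell 536870912 469762048 0 1230186008 1046898278 26843546
    (rowNX 3 0 true false false .dn 1 3 3 (qsf 536870912 469762048 0 1230186008 3) ndN5q1 ndN6q3 pcN3 Cut.none Ext.none)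

def k0_mm_133 : ∃ t, chk3 f_mm_133 t 1 1 1 = true :=
  ⟨(l 4), by decide +kernel⟩

theorem c_mm_133 : CertNX 536870912 469762048 0 1230186008 1046898278 26843546 3 true false false .dn 1 3 3
    ndN5q1 ndN6q3 pcN3 Cut.none Ext.none :=
  certNX0 (fam := true) (s1 := false) (s2 := false) (a := 1) (b := 3) (c := 3) (cn := .dn) (n1 := ndN5q1) (n2 := ndN6q3) (pc := pcN3) (cut := Cut.none) (xt := Ext.none) (P1 := 536870912) (W1 := 469762048) (P2 := 0) (W2 := 1230186008) (P3 := 1046898278) (W3 := 26843546) (N0 := 3)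
    rfl k0_mm_133

noncomputable def f_mm_202 : ℕ → ℕ → ℕ → ℕ → Bool := onCell 1073741824 536870912 0 536870912 1046898278 26843546
    (rowNX 3 0 true false false .pp 2 0 2 (qsf 1073741824 536870912 0 536870912 2) ndN5q2 ndN6q0 pcN2 Cut.none Ext.none)

def k0_mm_202 : ∃ t, chk3 f_mm_202 t 1 1 1 = true :=
  ⟨(l 4), by decide +kernel⟩

theorem c_mm_202 : CertNX 1073741824 536870912 0 536870912 1046898278 26843546 3 true false false .pp 2 0 2
    ndN5q2 ndN6q0 pcN2 Cut.none Ext.none :=
  certNX0 (fam := true) (s1 := false) (s2 := false) (a := 2) (b := 0) (c := 2) (cn := .pp) (n1 := ndN5q2) (n2 := ndN6q0) (pc := pcN2) (cut := Cut.none) (xt := Ext.none) (P1 := 1073741824) (W1 := 536870912) (P2 := 0) (W2 := 536870912) (P3 := 1046898278) (W3 := 26843546) (N0 := 3)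
    rfl k0_mm_202

noncomputable def f_mm_203 : ℕ → ℕ → ℕ → ℕ → Bool := onCell 1073741824 536870912 0 536870912 1046898278 26843546
    (rowNX 3 0 true false false .up 2 0 3 (qsf 1073741824 536870912 0 536870912 3) ndN5q2 ndN6q0 pcN3 Cut.none Ext.none)

def k0_mm_203 : ∃ t, chk3 f_mm_203 t 1 1 1 = true :=
  ⟨(l 4), by decide +kernel⟩

theorem c_mm_203 : CertNX 1073741824 536870912 0 536870912 1046898278 26843546 3 true false false .up 2 0 3
    ndN5q2 ndN6q0 pcN3 Cut.none Ext.none :=
  certNX0 (fam := true) (s1 := false) (s2 := false) (a := 2) (b := 0) (c := 3) (cn := .up) (n1 := ndN5q2) (n2 := ndN6q0) (pc := pcN3) (cut := Cut.none) (xt := Ext.none) (P1 := 1073741824) (W1 := 536870912) (P2 := 0) (W2 := 536870912) (P3 := 1046898278) (W3 := 26843546) (N0 := 3)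
    rfl k0_mm_203

noncomputable def f_mm_213 : ℕ → ℕ → ℕ → ℕ → Bool := onCell 1073741824 536870912 536870912 469762048 1046898278 26843546
    (rowNX 3 0 true false false .pnn 2 1 3 (qsf 1073741824 536870912 536870912 469762048 3) ndN5q2 ndN6q1 pcN3 Cut.none Ext.none)

def k0_mm_213 : ∃ t, chk3 f_mm_213 t 1 1 1 = true :=
  ⟨(l 4), by decide +kernel⟩

theorem c_mm_213 : CertNX 1073741824 536870912 536870912 469762048 1046898278 26843546 3 true false false .pnn 2 1 3
    ndN5q2 ndN6q1 pcN3 Cut.none Ext.none :=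
  certNX0 (fam := true) (s1 := false) (s2 := false) (a := 2) (b := 1) (c := 3) (cn := .pnn) (n1 := ndN5q2) (n2 := ndN6q1) (pc := pcN3) (cut := Cut.none) (xt := Ext.none) (P1 := 1073741824) (W1 := 536870912) (P2 := 536870912) (W2 := 469762048) (P3 := 1046898278) (W3 := 26843546) (N0 := 3)
    rfl k0_mm_213

noncomputable def f_mm_303 : ℕ → ℕ → ℕ → ℕ → Bool := onCell 0 1230186008 0 536870912 1046898278 26843546
    (rowNX 3 0 true false false .npn 3 0 3 (qsf 0 1230186008 0 536870912 3) ndN5q3 ndN6q0 pcN3 Cut.none Ext.none)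

def k0_mm_303 : ∃ t, chk3 f_mm_303 t 1 1 1 = true :=
  ⟨(a (l 4) (l 4)), by decide +kernel⟩

theorem c_mm_303 : CertNX 0 1230186008 0 536870912 1046898278 26843546 3 true false false .npn 3 0 3
    ndN5q3 ndN6q0 pcN3 Cut.none Ext.none :=
  certNX0 (fam := true) (s1 := false) (s2 := false) (a := 3) (b := 0) (c := 3) (cn := .npn) (n1 := ndN5q3) (n2 := ndN6q0) (pc := pcN3) (cut := Cut.none) (xt := Ext.none) (P1 := 0) (W1 := 1230186008) (P2 := 0) (W2 := 536870912) (P3 := 1046898278) (W3 := 26843546) (N0 := 3)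
    rfl k0_mm_303

noncomputable def f_mm_313 : ℕ → ℕ → ℕ → ℕ → Bool := onCell 0 1230186008 536870912 469762048 1046898278 26843546
    (rowNX 3 0 true false false .dn 3 1 3 (qsf 0 1230186008 536870912 469762048 3) ndN5q3 ndN6q1 pcN3 Cut.none Ext.none)

def k0_mm_313 : ∃ t, chk3 f_mm_313 t 1 1 1 = true :=
  ⟨(l 4), by decide +kernel⟩

theorem c_mm_313 : CertNX 0 1230186008 536870912 469762048 1046898278 26843546 3 true false false .dn 3 1 3
    ndN5q3 ndN6q1 pcN3 Cut.none Ext.none :=
  certNX0 (fam := true) (s1 := false) (s2 := false) (a := 3) (b := 1) (c := 3) (cn := .dn) (n1 := ndN5q3) (n2 := ndN6q1) (pc := pcN3) (cut := Cut.none) (xt := Ext.none) (P1 := 0) (W1 := 1230186008) (P2 := 536870912) (W2 := 469762048) (P3 := 1046898278) (W3 := 26843546) (N0 := 3)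
    rfl k0_mm_313

end Pool.Agent.Strip051.G.IE1.Tab.C.NA56

namespace Pool.Agent.Strip051.G.IE1.Tab.C.NA57

open Pool.Agent.Strip051.PB Pool.Agent.Strip051.PB.T
open Pool.Agent.Strip051.G.IE1.Tab

noncomputable def f_pp_001 : ℕ → ℕ → ℕ → ℕ → Bool := onCell 0 536870912 0 536870912 1046898278 26843546
    (rowNX 3 0 true true true .up 0 0 1 (qsf 0 536870912 0 536870912 1) ndN5q0 ndN7q0 pcN1 Cut.none Ext.none)

def k0_pp_001 : ∃ t, chk3 f_pp_001 t 1 1 1 = true :=
  ⟨(l 4), by decide +kernel⟩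

theorem c_pp_001 : CertNX 0 536870912 0 536870912 1046898278 26843546 3 true true true .up 0 0 1
    ndN5q0 ndN7q0 pcN1 Cut.none Ext.none :=
  certNX0 (fam := true) (s1 := true) (s2 := true) (a := 0) (b := 0) (c := 1) (cn := .up) (n1 := ndN5q0) (n2 := ndN7q0) (pc := pcN1) (cut := Cut.none) (xt := Ext.none) (P1 := 0) (W1 := 536870912) (P2 := 0) (W2 := 536870912) (P3 := 1046898278) (W3 := 26843546) (N0 := 3)
    rfl k0_pp_001

noncomputable def f_pp_011 : ℕ → ℕ → ℕ → ℕ → Bool := onCell 0 536870912 536870912 536870912 1046898278 26843546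
    (rowNX 3 0 true true true .pnn 0 1 1 (qsf 0 536870912 536870912 536870912 1) ndN5q0 ndN7q1 pcN1 Cut.none Ext.none)

def k0_pp_011 : ∃ t, chk3 f_pp_011 t 1 1 1 = true :=
  ⟨(l 4), by decide +kernel⟩

theorem c_pp_011 : CertNX 0 536870912 536870912 536870912 1046898278 26843546 3 true true true .pnn 0 1 1
    ndN5q0 ndN7q1 pcN1 Cut.none Ext.none :=
  certNX0 (fam := true) (s1 := true) (s2 := true) (a := 0) (b := 1) (c := 1) (cn := .pnn) (n1 := ndN5q0) (n2 := ndN7q1) (pc := pcN1) (cut := Cut.none) (xt := Ext.none) (P1 := 0) (W1 := 536870912) (P2 := 536870912) (W2 := 536870912) (P3 := 1046898278) (W3 := 26843546) (N0 := 3)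
    rfl k0_pp_011

noncomputable def f_pp_012 : ℕ → ℕ → ℕ → ℕ → Bool := onCell 0 536870912 536870912 536870912 1046898278 26843546
    (rowNX 3 0 true true true .pnp 0 1 2 (qsf 0 536870912 536870912 536870912 2) ndN5q0 ndN7q1 pcN2 Cut.none Ext.none)

def k0_pp_012 : ∃ t, chk3 f_pp_012 t 1 1 1 = true :=
  ⟨(l 4), by decide +kernel⟩

theorem c_pp_012 : CertNX 0 536870912 536870912 536870912 1046898278 26843546 3 true true true .pnp 0 1 2
    ndN5q0 ndN7q1 pcN2 Cut.none Ext.none :=
  certNX0 (fam := true) (s1 := true) (s2 := true) (a := 0) (b := 1) (c := 2) (cn := .pnp) (n1 := ndN5q0) (n2 := ndN7q1) (pc := pcN2) (cut := Cut.none) (xt := Ext.none) (P1 := 0) (W1 := 536870912) (P2 := 536870912) (W2 := 536870912) (P3 := 1046898278) (W3 := 26843546) (N0 := 3)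
    rfl k0_pp_012

noncomputable def f_pp_022 : ℕ → ℕ → ℕ → ℕ → Bool := onCell 0 536870912 1073741824 536870912 1046898278 26843546
    (rowNX 3 0 true true true .pp 0 2 2 (qsf 0 536870912 1073741824 536870912 2) ndN5q0 ndN7q2 pcN2 Cut.none Ext.none)

def k0_pp_022 : ∃ t, chk3 f_pp_022 t 1 1 1 = true :=
  ⟨(l 4), by decide +kernel⟩

theorem c_pp_022 : CertNX 0 536870912 1073741824 536870912 1046898278 26843546 3 true true true .pp 0 2 2
    ndN5q0 ndN7q2 pcN2 Cut.none Ext.none :=
  certNX0 (fam := true) (s1 := true) (s2 := true) (a := 0) (b := 2) (c := 2) (cn := .pp) (n1 := ndN5q0) (n2 := ndN7q2) (pc := pcN2) (cut := Cut.none) (xt := Ext.none) (P1 := 0) (W1 := 536870912) (P2 := 1073741824) (W2 := 536870912) (P3 := 1046898278) (W3 := 26843546) (N0 := 3)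
    rfl k0_pp_022

noncomputable def f_pp_023 : ℕ → ℕ → ℕ → ℕ → Bool := onCell 0 536870912 1073741824 536870912 1046898278 26843546
    (rowNX 3 0 true true true .up 0 2 3 (qsf 0 536870912 1073741824 536870912 3) ndN5q0 ndN7q2 pcN3 Cut.none Ext.none)

def k0_pp_023 : ∃ t, chk3 f_pp_023 t 1 1 1 = true :=
  ⟨(l 4), by decide +kernel⟩

theorem c_pp_023 : CertNX 0 536870912 1073741824 536870912 1046898278 26843546 3 true true true .up 0 2 3
    ndN5q0 ndN7q2 pcN3 Cut.none Ext.none :=
  certNX0 (fam := true) (s1 := true) (s2 := true) (a := 0) (b := 2) (c := 3) (cn := .up) (n1 := ndN5q0) (n2 := ndN7q2) (pc := pcN3) (cut := Cut.none) (xt := Ext.none) (P1 := 0) (W1 := 536870912) (P2 := 1073741824) (W2 := 536870912) (P3 := 1046898278) (W3 := 26843546) (N0 := 3)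
    rfl k0_pp_023

noncomputable def f_pp_033 : ℕ → ℕ → ℕ → ℕ → Bool := onCell 0 536870912 0 1230186008 1046898278 26843546
    (rowNX 3 0 true true true .pnn 0 3 3 (qsf 0 536870912 0 1230186008 3) ndN5q0 ndN7q3 pcN3 Cut.none Ext.none)

def k0_pp_033 : ∃ t, chk3 f_pp_033 t 1 1 1 = true :=
  ⟨(l 4), by decide +kernel⟩

theorem c_pp_033 : CertNX 0 536870912 0 1230186008 1046898278 26843546 3 true true true .pnn 0 3 3
    ndN5q0 ndN7q3 pcN3 Cut.none Ext.none :=
  certNX0 (fam := true) (s1 := true) (s2 := true) (a := 0) (b := 3) (c := 3) (cn := .pnn) (n1 := ndN5q0) (n2 := ndN7q3) (pc := pcN3) (cut := Cut.none) (xt := Ext.none) (P1 := 0) (W1 := 536870912) (P2 := 0) (W2 := 1230186008) (P3 := 1046898278) (W3 := 26843546) (N0 := 3)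
    rfl k0_pp_033

noncomputable def f_pp_101 : ℕ → ℕ → ℕ → ℕ → Bool := onCell 536870912 469762048 0 536870912 1046898278 26843546
    (rowNX 3 0 true true true .npn 1 0 1 (qsf 536870912 469762048 0 536870912 1) ndN5q1 ndN7q0 pcN1 Cut.none Ext.none)

def k0_pp_101 : ∃ t, chk3 f_pp_101 t 1 1 1 = true :=
  ⟨(l 4), by decide +kernel⟩

theorem c_pp_101 : CertNX 536870912 469762048 0 536870912 1046898278 26843546 3 true true true .npn 1 0 1
    ndN5q1 ndN7q0 pcN1 Cut.none Ext.none :=
  certNX0 (fam := true) (s1 := true) (s2 := true) (a := 1) (b := 0) (c := 1) (cn := .npn) (n1 := ndN5q1) (n2 := ndN7q0) (pc := pcN1) (cut := Cut.none) (xt := Ext.none) (P1 := 536870912) (W1 := 469762048) (P2 := 0) (W2 := 536870912) (P3 := 1046898278) (W3 := 26843546) (N0 := 3)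
    rfl k0_pp_101

noncomputable def f_pp_102 : ℕ → ℕ → ℕ → ℕ → Bool := onCell 536870912 469762048 0 536870912 1046898278 26843546
    (rowNX 3 0 true true true .npp 1 0 2 (qsf 536870912 469762048 0 536870912 2) ndN5q1 ndN7q0 pcN2 Cut.none Ext.none)

def k0_pp_102 : ∃ t, chk3 f_pp_102 t 1 1 1 = true :=
  ⟨(l 4), by decide +kernel⟩

theorem c_pp_102 : CertNX 536870912 469762048 0 536870912 1046898278 26843546 3 true true true .npp 1 0 2
    ndN5q1 ndN7q0 pcN2 Cut.none Ext.none :=
  certNX0 (fam := true) (s1 := true) (s2 := true) (a := 1) (b := 0) (c := 2) (cn := .npp) (n1 := ndN5q1) (n2 := ndN7q0) (pc := pcN2) (cut := Cut.none) (xt := Ext.none) (P1 := 536870912) (W1 := 469762048) (P2 := 0) (W2 := 536870912) (P3 := 1046898278) (W3 := 26843546) (N0 := 3)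
    rfl k0_pp_102

noncomputable def f_pp_112 : ℕ → ℕ → ℕ → ℕ → Bool := onCell 536870912 469762048 536870912 536870912 1046898278 26843546
    (rowNX 3 0 true true true .dn 1 1 2 (qsf 536870912 469762048 536870912 536870912 2) ndN5q1 ndN7q1 pcN2 Cut.none Ext.none)

def k0_pp_112 : ∃ t, chk3 f_pp_112 t 1 1 1 = true :=
  ⟨(l 4), by decide +kernel⟩

theorem c_pp_112 : CertNX 536870912 469762048 536870912 536870912 1046898278 26843546 3 true true true .dn 1 1 2
    ndN5q1 ndN7q1 pcN2 Cut.none Ext.none :=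
  certNX0 (fam := true) (s1 := true) (s2 := true) (a := 1) (b := 1) (c := 2) (cn := .dn) (n1 := ndN5q1) (n2 := ndN7q1) (pc := pcN2) (cut := Cut.none) (xt := Ext.none) (P1 := 536870912) (W1 := 469762048) (P2 := 536870912) (W2 := 536870912) (P3 := 1046898278) (W3 := 26843546) (N0 := 3)
    rfl k0_pp_112

noncomputable def f_pp_113 : ℕ → ℕ → ℕ → ℕ → Bool := onCell 536870912 469762048 536870912 536870912 1046898278 26843546
    (rowNX 3 0 true true true .nn 1 1 3 (qsf 536870912 469762048 536870912 536870912 3) ndN5q1 ndN7q1 pcN3 Cut.none Ext.none)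

def k0_pp_113 : ∃ t, chk3 f_pp_113 t 1 1 1 = true :=
  ⟨(l 4), by decide +kernel⟩

theorem c_pp_113 : CertNX 536870912 469762048 536870912 536870912 1046898278 26843546 3 true true true .nn 1 1 3
    ndN5q1 ndN7q1 pcN3 Cut.none Ext.none :=
  certNX0 (fam := true) (s1 := true) (s2 := true) (a := 1) (b := 1) (c := 3) (cn := .nn) (n1 := ndN5q1) (n2 := ndN7q1) (pc := pcN3) (cut := Cut.none) (xt := Ext.none) (P1 := 536870912) (W1 := 469762048) (P2 := 536870912) (W2 := 536870912) (P3 := 1046898278) (W3 := 26843546) (N0 := 3)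
    rfl k0_pp_113

noncomputable def f_pp_123 : ℕ → ℕ → ℕ → ℕ → Bool := onCell 536870912 469762048 1073741824 536870912 1046898278 26843546
    (rowNX 3 0 true true true .npn 1 2 3 (qsf 536870912 469762048 1073741824 536870912 3) ndN5q1 ndN7q2 pcN3 Cut.none Ext.none)

def k0_pp_123 : ∃ t, chk3 f_pp_123 t 1 1 1 = true :=
  ⟨(l 4), by decide +kernel⟩

theorem c_pp_123 : CertNX 536870912 469762048 1073741824 536870912 1046898278 26843546 3 true true true .npn 1 2 3
    ndN5q1 ndN7q2 pcN3 Cut.none Ext.none :=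
  certNX0 (fam := true) (s1 := true) (s2 := true) (a := 1) (b := 2) (c := 3) (cn := .npn) (n1 := ndN5q1) (n2 := ndN7q2) (pc := pcN3) (cut := Cut.none) (xt := Ext.none) (P1 := 536870912) (W1 := 469762048) (P2 := 1073741824) (W2 := 536870912) (P3 := 1046898278) (W3 := 26843546) (N0 := 3)
    rfl k0_pp_123

noncomputable def f_pp_133 : ℕ → ℕ → ℕ → ℕ → Bool := onCell 536870912 469762048 0 1230186008 1046898278 26843546
    (rowNX 3 0 true true true .dn 1 3 3 (qsf 536870912 469762048 0 1230186008 3) ndN5q1 ndN7q3 pcN3 Cut.none Ext.none)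

def k0_pp_133 : ∃ t, chk3 f_pp_133 t 1 1 1 = true :=
  ⟨(l 4), by decide +kernel⟩

theorem c_pp_133 : CertNX 536870912 469762048 0 1230186008 1046898278 26843546 3 true true true .dn 1 3 3
    ndN5q1 ndN7q3 pcN3 Cut.none Ext.none :=
  certNX0 (fam := true) (s1 := true) (s2 := true) (a := 1) (b := 3) (c := 3) (cn := .dn) (n1 := ndN5q1) (n2 := ndN7q3) (pc := pcN3) (cut := Cut.none) (xt := Ext.none) (P1 := 536870912) (W1 := 469762048) (P2 := 0) (W2 := 1230186008) (P3 := 1046898278) (W3 := 26843546) (N0 := 3)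
    rfl k0_pp_133

noncomputable def f_pp_202 : ℕ → ℕ → ℕ → ℕ → Bool := onCell 1073741824 536870912 0 536870912 1046898278 26843546
    (rowNX 3 0 true true true .pp 2 0 2 (qsf 1073741824 536870912 0 536870912 2) ndN5q2 ndN7q0 pcN2 Cut.none Ext.none)

def k0_pp_202 : ∃ t, chk3 f_pp_202 t 1 1 1 = true :=
  ⟨(l 4), by decide +kernel⟩

theorem c_pp_202 : CertNX 1073741824 536870912 0 536870912 1046898278 26843546 3 true true true .pp 2 0 2
    ndN5q2 ndN7q0 pcN2 Cut.none Ext.none :=
  certNX0 (fam := true) (s1 := true) (s2 := true) (a := 2) (b := 0) (c := 2) (cn := .pp) (n1 := ndN5q2) (n2 := ndN7q0) (pc := pcN2) (cut := Cut.none) (xt := Ext.none) (P1 := 1073741824) (W1 := 536870912) (P2 := 0) (W2 := 536870912) (P3 := 1046898278) (W3 := 26843546) (N0 := 3)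
    rfl k0_pp_202

noncomputable def f_pp_203 : ℕ → ℕ → ℕ → ℕ → Bool := onCell 1073741824 536870912 0 536870912 1046898278 26843546
    (rowNX 3 0 true true true .up 2 0 3 (qsf 1073741824 536870912 0 536870912 3) ndN5q2 ndN7q0 pcN3 Cut.none Ext.none)

def k0_pp_203 : ∃ t, chk3 f_pp_203 t 1 1 1 = true :=
  ⟨(l 4), by decide +kernel⟩

theorem c_pp_203 : CertNX 1073741824 536870912 0 536870912 1046898278 26843546 3 true true true .up 2 0 3
    ndN5q2 ndN7q0 pcN3 Cut.none Ext.none :=
  certNX0 (fam := true) (s1 := true) (s2 := true) (a := 2) (b := 0) (c := 3) (cn := .up) (n1 := ndN5q2) (n2 := ndN7q0) (pc := pcN3) (cut := Cut.none) (xt := Ext.none) (P1 := 1073741824) (W1 := 536870912) (P2 := 0) (W2 := 536870912) (P3 := 1046898278) (W3 := 26843546) (N0 := 3)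
    rfl k0_pp_203

noncomputable def f_pp_213 : ℕ → ℕ → ℕ → ℕ → Bool := onCell 1073741824 536870912 536870912 536870912 1046898278 26843546
    (rowNX 3 0 true true true .pnn 2 1 3 (qsf 1073741824 536870912 536870912 536870912 3) ndN5q2 ndN7q1 pcN3 Cut.none Ext.none)

def k0_pp_213 : ∃ t, chk3 f_pp_213 t 1 1 1 = true :=
  ⟨(l 4), by decide +kernel⟩

theorem c_pp_213 : CertNX 1073741824 536870912 536870912 536870912 1046898278 26843546 3 true true true .pnn 2 1 3
    ndN5q2 ndN7q1 pcN3 Cut.none Ext.none :=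
  certNX0 (fam := true) (s1 := true) (s2 := true) (a := 2) (b := 1) (c := 3) (cn := .pnn) (n1 := ndN5q2) (n2 := ndN7q1) (pc := pcN3) (cut := Cut.none) (xt := Ext.none) (P1 := 1073741824) (W1 := 536870912) (P2 := 536870912) (W2 := 536870912) (P3 := 1046898278) (W3 := 26843546) (N0 := 3)
    rfl k0_pp_213

noncomputable def f_pp_303 : ℕ → ℕ → ℕ → ℕ → Bool := onCell 0 1230186008 0 536870912 1046898278 26843546
    (rowNX 3 0 true true true .npn 3 0 3 (qsf 0 1230186008 0 536870912 3) ndN5q3 ndN7q0 pcN3 Cut.none Ext.none)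

def k0_pp_303 : ∃ t, chk3 f_pp_303 t 1 1 1 = true :=
  ⟨(l 4), by decide +kernel⟩

theorem c_pp_303 : CertNX 0 1230186008 0 536870912 1046898278 26843546 3 true true true .npn 3 0 3
    ndN5q3 ndN7q0 pcN3 Cut.none Ext.none :=
  certNX0 (fam := true) (s1 := true) (s2 := true) (a := 3) (b := 0) (c := 3) (cn := .npn) (n1 := ndN5q3) (n2 := ndN7q0) (pc := pcN3) (cut := Cut.none) (xt := Ext.none) (P1 := 0) (W1 := 1230186008) (P2 := 0) (W2 := 536870912) (P3 := 1046898278) (W3 := 26843546) (N0 := 3)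
    rfl k0_pp_303

noncomputable def f_pp_313 : ℕ → ℕ → ℕ → ℕ → Bool := onCell 0 1230186008 536870912 536870912 1046898278 26843546
    (rowNX 3 0 true true true .dn 3 1 3 (qsf 0 1230186008 536870912 536870912 3) ndN5q3 ndN7q1 pcN3 Cut.none Ext.none)

def k0_pp_313 : ∃ t, chk3 f_pp_313 t 1 1 1 = true :=
  ⟨(l 4), by decide +kernel⟩

theorem c_pp_313 : CertNX 0 1230186008 536870912 536870912 1046898278 26843546 3 true true true .dn 3 1 3
    ndN5q3 ndN7q1 pcN3 Cut.none Ext.none :=
  certNX0 (fam := true) (s1 := true) (s2 := true) (a := 3) (b := 1) (c := 3) (cn := .dn) (n1 := ndN5q3) (n2 := ndN7q1) (pc := pcN3) (cut := Cut.none) (xt := Ext.none) (P1 := 0) (W1 := 1230186008) (P2 := 536870912) (W2 := 536870912) (P3 := 1046898278) (W3 := 26843546) (N0 := 3)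
    rfl k0_pp_313

noncomputable def f_pm_001 : ℕ → ℕ → ℕ → ℕ → Bool := onCell 0 536870912 0 536870912 1046898278 26843546
    (rowNX 3 0 true true false .up 0 0 1 (qsf 0 536870912 0 536870912 1) ndN5q0 ndN7q0 pcN1 Cut.none Ext.none)

def k0_pm_001 : ∃ t, chk3 f_pm_001 t 1 1 1 = true :=
  ⟨(l 3), by decide +kernel⟩

theorem c_pm_001 : CertNX 0 536870912 0 536870912 1046898278 26843546 3 true true false .up 0 0 1
    ndN5q0 ndN7q0 pcN1 Cut.none Ext.none :=
  certNX0 (fam := true) (s1 := true) (s2 := false) (a := 0) (b := 0) (c := 1) (cn := .up) (n1 := ndN5q0) (n2 := ndN7q0) (pc := pcN1) (cut := Cut.none) (xt := Ext.none) (P1 := 0) (W1 := 536870912) (P2 := 0) (W2 := 536870912) (P3 := 1046898278) (W3 := 26843546) (N0 := 3)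
    rfl k0_pm_001

noncomputable def f_pm_011 : ℕ → ℕ → ℕ → ℕ → Bool := onCell 0 536870912 536870912 536870912 1046898278 26843546
    (rowNX 3 1 true true false .pnn 0 1 1 (qsf 0 536870912 536870912 536870912 1) ndN5q0 ndN7q1 pcN1 Cut.none Ext.none)

def k0_pm_011 : ∃ t, chk3 f_pm_011 t 1 1 1 = true :=
  ⟨(b (l 3) (l 3)), by decide +kernel⟩

theorem c_pm_011 : CertNX 0 536870912 536870912 536870912 1046898278 26843546 3 true true false .pnn 0 1 1
    ndN5q0 ndN7q1 pcN1 Cut.none Ext.none :=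
  certNX1 (fam := true) (s1 := true) (s2 := false) (a := 0) (b := 1) (c := 1) (cn := .pnn) (n1 := ndN5q0) (n2 := ndN7q1) (pc := pcN1) (cut := Cut.none) (xt := Ext.none) (P1 := 0) (W1 := 536870912) (P2 := 536870912) (W2 := 536870912) (P3 := 1046898278) (W3 := 26843546) (N0 := 3)
    rfl (fun _ => rfl) k0_pm_011

noncomputable def f_pm_012 : ℕ → ℕ → ℕ → ℕ → Bool := onCell 1073741824 536870912 536870912 536870912 1046898278 26843546
    (rowNX 3 2 true true false .pnp 0 1 2 (qsf 0 536870912 536870912 536870912 2) ndN5q0 ndN7q1 pcN2 Cut.none Ext.none)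

def k0_pm_012 : ∃ t, chk3 f_pm_012 t 1 2 1 = true :=
  ⟨(b (a (a (l 3) (a (a (a (c (l 16776072) (l 16776024)) (l 2)) (l 2)) (l 2))) (l 2)) (a (a (a (l 3) (l 3)) (a (a (a (c (b (l 16595368) (l 16054056)) (l 16066872)) (a (a (l 16200584) (a (l 16199040) (l 16319352))) (a (l 16306472) (b (l 16566416) (l 15994544))))) (l 16298592)) (l 16323440))) (b (l 2) (l 16041696)))), by decide +kernel⟩

def k1_pm_012 : ∃ t, chk3 f_pm_012 t 4 3 1 = true :=
  ⟨(a (l 3) (a (l 3) (a (b (l 3) (b (l 3) (l 3))) (b (b (l 3) (c (l 14542504) (l 14463808))) (b (a (l 3) (c (b (l 13658928) (c (l 13577832) (l 13493664))) (l 13479040))) (c (b (c (l 13479392) (b (l 13473608) (l 13396096))) (l 13355248)) (b (a (l 13354824) (l 13302128)) (c (b (c (l 13316680) (l 13281024)) (l 13259320)) (b (l 13238384) (c (l 13219488) (l 13182800))))))))))), by decide +kernel⟩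

def k2_pm_012 : ∃ t, chk3 f_pm_012 t 10 6 1 = true :=
  ⟨(a (a (b (a (l 15393104) (l 15392800)) (c (l 14543328) (l 14464672))) (a (c (b (l 15407768) (l 14525160)) (b (l 15359440) (l 14215040))) (b (a (l 15349528) (l 15321280)) (a (l 14436952) (l 14255736))))) (b (l 15337240) (l 14426512))), by decide +kernel⟩

def k3_pm_012 : ∃ t, chk3 f_pm_012 t 10 7 1 = true :=
  ⟨(a (a (b (c (b (a (l 13652360) (l 13650104)) (c (a (l 13534088) (b (l 13537192) (l 13479192))) (l 13176128))) (a (l 13453592) (l 13428760))) (b (c (c (l 13371480) (b (a (l 13401376) (l 13346016)) (l 13285048))) (a (l 13209088) (c (l 13214976) (l 13150176)))) (c (a (l 13268144) (l 13193424)) (c (b (a (l 13208152) (l 13138432)) (l 13120056)) (b (a (l 13151368) (l 13080360)) (c (a (l 13125968) (l 13040184)) (a (l 13088448) (l 13001872)))))))) (a (b (c (b (l 13537072) (b (l 13443320) (l 13332288))) (a (l 13400072) (l 13356328))) (c (b (c (l 13243592) (b (l 13241856) (l 13147912))) (l 13068144)) (b (l 13079936)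 (c (b (l 13014720) (l 12947704)) (b (l 12954272) (c (l 12903536) (l 12863928))))))) (b (c (b (a (l 13562792) (l 13526000)) (a (c (l 13353840) (l 13265304)) (c (a (l 13318912) (l 13301624)) (l 13180504)))) (a (l 13308592) (a (l 13274536) (l 13257192)))) (c (b (a (c (l 13145064) (b (l 13142496) (l 13046248))) (c (l 13084304) (b (a (l 13093496) (l 13065736)) (l 12984144)))) (a (l 12963392) (l 12902144))) (b (a (l 12976472) (a (l 12925864) (l 12897264))) (a (c (l 12706072) (b (l 12846472) (l 12771392))) (c (a (l 12718824) (b (l 12830568) (l 12760304))) (b (a (l 12795200) (l 12766520)) (a (l 12720344) (c (l 12713408) (l 12671960))))))))))) (b (b (l 13501416) (c (c (l 13347816) (l 13259104)) (l 13135056))) (c (b (c (l 13069120) (b (l 13078048) (l 12940600))) (l 12850312)) (b (b (l 12931200) (l 12835528)) (c (b (l 12790832) (l 12723832)) (b (l 12726032) (c (l 12676432) (l 12634648)))))))), by decide +kernel⟩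

def k4_pm_012 : ∃ t, chk3 f_pm_012 t 11 3 1 = true :=
  ⟨(b (b (l 15386208) (l 14494776)) (b (c (b (l 13640984) (c (l 13442832) (l 13356088))) (l 13395752)) (c (b (c (l 13129888) (b (l 13167976) (l 12989528))) (l 12816376)) (b (l 12960720) (c (b (l 12777376) (l 12651176)) (b (l 12712360) (a (l 12374880) (l 12559608)))))))), by decide +kernel⟩

def k5_pm_012 : ∃ t, chk3 f_pm_012 t 3 3 1 = true :=
  ⟨(b (b (l 15393264) (a (l 14504672) (l 14504672))) (c (b (b (l 13652976) (a (c (l 13456464) (l 13370024)) (l 13409360))) (b (a (c (l 13145464) (b (l 13183368) (l 13005936))) (l 13098104)) (l 12802264))) (b (l 13409280) (b (a (l 12977160) (l 12977160)) (a (c (l 12708024) (b (l 12719832) (l 12559560))) (c (l 12708024) (l 12624584))))))), by decide +kernel⟩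

theorem s6_pm_012 : ∃ t, chk3 f_pm_012 t 10 3 1 = true := ex3_b k2_pm_012 k3_pm_012

theorem s7_pm_012 : ∃ t, chk3 f_pm_012 t 5 3 1 = true := ex3_a s6_pm_012 k4_pm_012

theorem s8_pm_012 : ∃ t, chk3 f_pm_012 t 2 3 1 = true := ex3_a k1_pm_012 s7_pm_012

theorem s9_pm_012 : ∃ t, chk3 f_pm_012 t 1 3 1 = true := ex3_a s8_pm_012 k5_pm_012

theorem s10_pm_012 : ∃ t, chk3 f_pm_012 t 1 1 1 = true := ex3_b k0_pm_012 s9_pm_012

theorem c_pm_012 : CertNX 0 536870912 536870912 536870912 1046898278 26843546 3 true true false .pnp 0 1 2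
    ndN5q0 ndN7q1 pcN2 Cut.none Ext.none :=
  certNX2 (fam := true) (s1 := true) (s2 := false) (a := 0) (b := 1) (c := 2) (cn := .pnp) (n1 := ndN5q0) (n2 := ndN7q1) (pc := pcN2) (cut := Cut.none) (xt := Ext.none) (P1 := 0) (W1 := 536870912) (P2 := 536870912) (W2 := 536870912) (P3 := 1046898278) (W3 := 26843546) (N0 := 3)
    rfl (fun _ => rfl) s10_pm_012

end Pool.Agent.Strip051.G.IE1.Tab.C.NA57

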