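import Pool.Agent.Strip051.G.IE1.Tab

/-! # Certificates N36 (generated) -/

set_option linter.all false
set_option maxRecDepth 100000

namespace Pool.Agent.Strip051.G.IE1.Tab.C.NA57

open Pool.Agent.Strip051.PB Pool.Agent.Strip051.PB.T
open Pool.Agent.Strip051.G.IE1.Tab

noncomputable def f_pm_022 : ℕ → ℕ → ℕ → ℕ → Bool := onCell 0 536870912 1073741824 536870912 1046898278 26843546
    (rowNX 3 1 true true false .pp 0 2 2 (qsf 0 536870912 1073741824 536870912 2) ndN5q0 ndN7q2 pcN2 Cut.none Ext.none)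

def k0_pm_022 : ∃ t, chk3 f_pm_022 t 2 8 1 = true :=
  ⟨(l 3), by decide +kernel⟩

def k1_pm_022 : ∃ t, chk3 f_pm_022 t 4 18 1 = true :=
  ⟨(b (l 3) (a (a (a (a (c (c (b (c (l 15700488) (l 15541696)) (c (l 15493056) (l 15570120))) (l 15587200)) (c (b (l 15574528) (l 15511664)) (b (a (l 15572296) (l 15519168)) (a (l 15510136) (l 15454816))))) (b (l 3) (c (c (c (a (l 15553952) (l 15513920)) (a (l 15464352) (l 15478192))) (l 15428560)) (c (l 15405200) (l 15361336))))) (b (l 3) (c (c (a (c (l 15482272) (a (l 15473112) (l 15447352))) (c (l 15359224) (l 15343224))) (c (a (l 15376120) (l 15284256)) (l 15263384))) (l 15200000)))) (l 3)) (l 3))), by decide +kernel⟩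

def k2_pm_022 : ∃ t, chk3 f_pm_022 t 4 38 1 = true :=
  ⟨(b (a (a (c (a (c (a (l 15548720) (c (a (l 15465472) (l 15333968)) (l 15405256))) (a (l 15502040) (l 15396176))) (c (a (c (b (l 15457088) (l 15450936)) (a (l 15387200) (l 15291824))) (c (l 15369544) (l 15312288))) (a (l 15314128) (l 15191168)))) (a (a (c (a (l 15501232) (l 15441408)) (a (c (l 15477008) (l 15461768)) (l 15418296))) (c (l 15372416) (l 15328528))) (l 15170608))) (c (c (a (b (l 15067240) (l 15085312)) (l 14760648)) (a (c (a (l 15114696) (l 14981688)) (a (l 15028208) (l 14939080))) (c (l 14746560) (a (l 14819912) (l 14665128))))) (a (l 14918544) (b (l 3) (a (l 14742216) (l 14625104)))))) (l 3)) (a (a (c (a (a (l 15535848) (c (a (l 15442424) (l 15413128)) (l 15413880))) (c (a (c (l 15454792) (l 15376728)) (c (l 15396576) (l 15325472))) (l 15274224))) (a (a (c (a (l 15515912) (l 15454920)) (c (l 15423736) (l 15450192))) (c (l 15390624) (l 15347632))) (l 15199312))) (c (c (a (c (l 15150632) (a (l 15205272)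 (l 15068288))) (l 14825368)) (a (c (l 15027008) (l 15002592)) (c (a (l 14894384) (l 14743232)) (l 14642432)))) (c (l 14697568) (l 14823712)))) (a (c (a (c (l 14425928) (l 14416280)) (l 13948040)) (c (a (c (a (l 14527984) (l 14275792)) (l 14367992)) (c (l 13907136) (a (l 14005616) (l 13756096)))) (a (l 14330120) (c (a (l 13988248) (l 13724128)) (l 13823664))))) (c (l 13381552) (a (c (l 13430952) (c (l 13390872) (a (l 13443360) (l 13272520)))) (l 3)))))), by decide +kernel⟩

def k3_pm_022 : ∃ t, chk3 f_pm_022 t 4 39 1 = true :=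
  ⟨(a (a (c (a (a (l 15638264) (a (l 15497184) (b (l 15417320) (l 15442888)))) (b (c (a (l 15411608) (c (l 15304944) (l 15303056))) (l 15305792)) (a (l 15384544) (l 15297744)))) (a (a (c (a (l 15637080) (l 15543120)) (a (c (l 15615480) (l 15601944)) (l 15522344))) (b (c (l 15415704) (l 15373736)) (l 15424616))) (b (l 15232704) (l 15241928)))) (c (c (a (b (c (l 15054904) (l 14949448)) (c (a (l 15297208) (l 15191888)) (l 15169400))) (b (c (l 14901960) (l 14873096)) (c (l 14951488) (a (l 15008344) (l 14889912))))) (a (b (l 15064512) (l 15079240)) (b (c (l 14658848) (l 14830784)) (c (l 14897320) (l 14841832))))) (b (l 14883816) (l 14916056)))) (a (c (c (b (l 14268856) (l 14337296)) (a (b (c (l 14492848) (a (l 14613112) (l 14360664))) (c (a (l 14693296) (l 14447304)) (a (l 14654760) (l 14439952)))) (b (l 13998272) (l 14066632)))) (c (a (b (c (l 14454272) (l 14417680)) (l 14506024)) (b (c (l 13970320) (a (l 14081352) (l 13823016))) (c (a (l 14176080) (l 13919824)) (l 14010392))))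 (b (a (l 14384976) (l 13913464)) (l 14202968)))) (c (b (l 13442664) (l 13506992)) (c (a (b (l 13499968) (c (l 13587752) (a (l 13644168) (l 13473456)))) (l 13254312)) (a (b (c (a (l 13540216) (l 13373208)) (a (l 13524192) (l 13339536))) (c (a (l 13623520) (l 13438944)) (l 13495520))) (b (l 13012032) (c (l 13244888) (a (l 13276520) (l 13145072))))))))), by decide +kernel⟩

def k4_pm_022 : ∃ t, chk3 f_pm_022 t 5 9 1 = true :=
  ⟨(b (l 1) (b (l 1) (a (c (l 12714560) (b (l 1) (l 12611096))) (l 1)))), by decide +kernel⟩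

def k5_pm_022 : ∃ t, chk3 f_pm_022 t 3 4 1 = true :=
  ⟨(l 1), by decide +kernel⟩

def k6_pm_022 : ∃ t, chk3 f_pm_022 t 8 20 1 = true :=
  ⟨(b (a (a (c (a (l 15780672) (c (l 15594200) (l 15585216))) (a (c (l 15511936) (c (l 15577176) (l 15627616))) (c (l 15565760) (l 15527936)))) (c (a (l 15233136) (l 15295856)) (l 15052712))) (c (c (a (b (c (l 15210576) (l 15116648)) (l 15117424)) (b (c (l 14986952) (l 14936784)) (c (l 14771024) (l 14904960)))) (a (l 15059672) (l 14846176))) (l 14903336))) (a (b (a (c (a (l 15859384) (l 15529176)) (a (c (l 15824544) (a (l 15847032) (l 15759928))) (l 15640472))) (c (l 15388272) (l 15346328))) (a (c (b (a (l 15896128) (l 15672392)) (b (a (l 15937808) (l 15628488)) (a (b (b (b (l 15957184) (l 15794456)) (l 16003816)) (l 16017272)) (b (b (b (l 15769952) (a (l 15609816) (a (l 15752984) (l 15722840)))) (l 15791008)) (l 15805336))))) (b (a (c (l 15862832) (a (l 15886008) (l 15799560))) (l 15680576)) (b (a (c (l 15884984) (a (l 15909080) (l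 15842808))) (l 15722224)) (b (b (b (a (c (l 15925984) (l 15801384)) (l 15738520)) (a (a (l 15884976) (c (l 15812344) (l 15883040))) (c (l 15761416) (l 15728832)))) (a (c (l 15974024) (l 15892312)) (l 15760400))) (a (c (l 15987936) (l 15885552)) (l 15775320)))))) (b (c (l 15470432) (l 15388912)) (b (c (l 15509256) (l 15429632)) (c (a (b (b (b (l 15619168) (l 15495448)) (l 15626784)) (l 15643536)) (l 15441360)) (a (c (l 15492792) (l 15545048)) (l 15366632))))))) (b (c (a (l 15072632) (c (c (l 14907000) (l 14825120)) (l 14793960))) (l 14873688)) (c (a (b (l 15080376) (b (l 15111504) (l 15040488))) (b (l 14791384) (b (l 14786728) (b (l 14766056) (l 14796024))))) (b (l 14863280) (b (l 14878424) (a (l 15061352) (l 14723384)))))))), by decide +kernel⟩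

def k7_pm_022 : ∃ t, chk3 f_pm_022 t 8 21 1 = true :=
  ⟨(a (a (c (a (b (l 16172568) (l 16251768)) (b (a (l 15998616) (l 15934664)) (l 16039512))) (a (a (b (a (l 16213328) (l 15971144)) (l 15985544)) (c (l 15989392) (l 16046352))) (c (l 15898240) (l 16020832)))) (c (b (l 15527360) (l 15821552)) (b (l 15667720) (l 16019432)))) (a (c (l 15396760) (l 15454592)) (c (l 14963440) (l 15072008)))), by decide +kernel⟩

def k8_pm_022 : ∃ t, chk3 f_pm_022 t 9 20 1 = true :=
  ⟨(b (c (a (c (b (a (l 14427200) (l 14143272)) (a (c (l 14614912) (l 14614528)) (l 14160560))) (a (b (c (a (l 14701808) (l 14499984)) (l 14552088)) (l 14561272)) (b (c (l 14133880) (a (l 14250352) (l 13999872))) (c (l 14132248) (l 14122200))))) (b (l 13571544) (a (l 13712136) (l 13451096)))) (a (b (a (l 14475792) (c (c (l 14088736) (l 14048824)) (l 14011096))) (a (l 14463216) (l 14060832))) (c (a (b (c (l 13647096) (a (l 13716288) (l 13538304))) (a (l 13737064) (l 13295504))) (b (l 13353056) (c (l 13398840)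 (l 13365840)))) (a (b (l 13582832) (l 13586248)) (b (c (a (l 13372544) (l 13245208)) (l 13248504)) (c (l 13322648) (l 13301464))))))) (c (a (b (c (a (c (l 14618032) (l 14574752)) (l 14145912)) (a (l 14497200) (c (l 14136880) (l 14092432)))) (c (a (b (l 14460360) (b (l 14561600) (c (l 14540416) (l 14498936)))) (b (l 13960712) (b (c (l 14167464) (l 14157880)) (c (l 14198464) (l 14160304))))) (b (a (l 14460464) (l 14092912)) (b (a (l 14459120) (l 14094112)) (a (l 14464352) (l 14101832)))))) (b (a (c (l 13724320) (c (l 13709056) (l 13485776))) (l 13448656)) (b (a (c (l 13716856) (c (l 13695976) (l 13681840))) (l 13432288)) (a (b (c (l 13727920) (c (l 13694696) (l 13679752))) (c (l 13739544) (a (l 13782672) (l 13635912)))) (b (l 13430280) (l 13434240)))))) (a (b (l 14221624) (b (l 14194768) (b (l 14193480) (l 14198904)))) (b (c (a (l 13640584) (c (l 13386512) (l 13346656))) (l 13426896)) (b (c (a (l 13632208) (c (l 13369976) (l 13343664))) (l 13419376)) (b (a (l 13575296)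 (c (l 13340592) (l 13286992))) (a (l 13579512) (c (c (l 13364704) (l 13349552)) (l 13291904))))))))), by decide +kernel⟩

def k9_pm_022 : ∃ t, chk3 f_pm_022 t 9 21 1 = true :=
  ⟨(a (c (a (b (c (c (l 14671640) (l 14604520)) (l 14565032)) (l 14826672)) (c (b (c (l 14243520) (l 14240224)) (l 14322152)) (l 14273752))) (a (l 14650824) (l 14192424))) (c (c (a (b (a (c (l 13953744) (l 13947136)) (l 13774552)) (a (l 14148872) (l 14012664))) (b (l 13593352) (c (l 13826344) (l 13785640)))) (a (b (a (l 13884432) (l 13736448)) (l 13975792)) (b (c (l 13551000) (a (l 13602168) (l 13460752))) (l 13761576)))) (a (l 13796216) (b (l 13447704) (l 13646952))))), by decide +kernel⟩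

def k10_pm_022 : ∃ t, chk3 f_pm_022 t 4 11 1 = true :=
  ⟨(a (c (a (a (b (a (l 15815928) (c (l 16003720) (l 15962592))) (a (l 15399376) (l 15450608))) (b (a (l 15967456) (l 16214224)) (l 15565800))) (b (a (l 15923216) (b (l 15629792) (l 15950256))) (a (l 16040880) (l 16268272)))) (a (a (a (b (c (l 15674352) (a (l 15659736) (l 15876656))) (c (l 15391816) (l 15237560))) (b (c (l 15976928) (l 15994128)) (l 15525608))) (b (b (l 16311848) (l 16081712)) (l 15763056))) (b (a (l 16051488) (l 15759936)) (l 15984488)))) (a (b (a (l 15112960) (l 14751288)) (a (b (l 15774632) (l 15999488)) (l 15379736))) (b (c (b (c (a (l 14260072) (l 14026024)) (l 14056728)) (a (l 14422624) (l 14176928))) (l 14099160)) (a (l 14852208) (l 14453152))))), by decide +kernel⟩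

def k11_pm_022 : ∃ t, chk3 f_pm_022 t 10 10 1 = true :=
  ⟨(b (b (c (b (l 12816576) (l 12864272)) (a (c (l 12981968) (a (b (l 12840496) (c (l 13084632) (a (l 13111160) (l 12986160)))) (l 12787512))) (l 1))) (c (b (l 12856160) (b (l 12834880) (b (l 12828808) (l 12832704)))) (a (b (c (l 12995680) (a (c (l 13068192) (l 13027648)) (l 12797424))) (b (c (l 12973880) (a (l 13024880) (c (l 12796704) (l 12757448)))) (a (c (b (l 13097616) (c (l 13125008) (l 13086128))) (b (l 13024672) (l 13030752))) (c (l 12840848) (b (c (l 12791048) (l 12751944)) (c (l 12794096) (l 12754048))))))) (b (l 1) (b (l 1) (b (l 1) (l 12446168))))))) (c (a (c (l 13330296) (a (b (l 13281448) (c (l 13518648) (l 13476720))) (l 13138008))) (l 12808832)) (a (c (a (b (c (a (l 13300264) (l 13177648)) (l 13191192)) (l 13450480)) (b (l 12732584) (c (l 13195920) (l 13154104)))) (a (l 13255112) (b (c (a (l 12965880) (l 12847384)) (l 12865880)) (l 13131984)))) (c (a (b (l 12716344) (l 12933992)) (l 12583016)) (a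 (b (c (l 12665080) (a (l 12685320) (l 12563296))) (c (a (l 12934432) (l 12819536)) (l 12835936))) (b (l 12400736) (c (l 12634184) (a (l 12655208) (l 12531048))))))))), by decide +kernel⟩

def k12_pm_022 : ∃ t, chk3 f_pm_022 t 10 11 1 = true :=
  ⟨(c (b (a (c (a (b (l 13614424) (l 13980904)) (b (l 13519432) (l 13713248))) (a (b (l 13722144) (l 13878952)) (b (c (l 13476072) (l 13433752)) (l 13673272)))) (c (l 13256944) (a (b (l 13209896) (c (l 13434832) (l 13392120))) (l 13066792)))) (a (c (b (a (l 14135856) (l 13911016)) (l 14004280)) (l 14077704)) (c (a (b (l 13651184) (l 13828096)) (b (l 13416960) (l 13569312))) (a (l 13659736) (b (l 13264176) (l 13526504)))))) (b (a (a (l 13703416) (l 13474480)) (c (a (b (c (l 13160144) (l 13117992)) (l 13364704)) (b (l 12897160) (c (l 13117536) (l 13074976)))) (a (l 13174176) (b (c (l 12840208) (l 12798224)) (l 13051736))))) (a (l 13949008) (a (l 13564536) (l 13344144))))), by decide +kernel⟩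

def k13_pm_022 : ∃ t, chk3 f_pm_022 t 11 5 1 = true :=
  ⟨(b (b (l 1) (c (l 12124424) (l 11959840))) (c (a (b (l 12730608) (c (l 13128680) (a (b (l 13102584) (l 13263120)) (l 12933720)))) (l 12505856)) (a (b (c (a (l 12561800) (l 12498968)) (a (b (c (l 12593144) (l 12550696)) (c (l 12793480) (l 12751040))) (b (l 12320872) (c (l 12543328) (l 12500376))))) (c (a (b (c (l 13051248) (l 13008024)) (l 13213768)) (b (l 12782272) (l 12749256))) (a (l 13040384) (b (c (l 12723576) (l 12680424)) (l 12893848))))) (b (l 12168800) (c (l 229268410487) (a (b (l 12235768) (l 12650480)) (b (l 12331496) (l 12487232)))))))), by decide +kernel⟩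

def k14_pm_022 : ∃ t, chk3 f_pm_022 t 3 5 1 = true :=
  ⟨(b (l 1) (a (a (c (l 12036080) (l 11869056)) (l 1)) (l 1))), by decide +kernel⟩

def k15_pm_022 : ∃ t, chk3 f_pm_022 t 2 3 1 = true :=
  ⟨(a (a (b (a (c (a (b (a (l 14899792) (c (l 15077744) (l 15039032))) (a (l 14472872) (b (l 14628120) (l 14533712)))) (b (a (l 15158472) (l 15292464)) (b (l 14795824) (l 14630400)))) (a (b (a (c (l 14876752) (a (l 14821496) (l 14892728))) (l 14795656)) (a (c (l 14435240) (l 14407400)) (l 14492032))) (b (l 15242840) (l 14706040)))) (b (a (c (l 15541304) (l 15548440)) (c (l 15850240) (l 15836704))) (c (a (l 14984768) (l 15277912)) (l 15020120)))) (a (c (a (b (l 14483176) (l 14483176)) (b (l 14614280) (l 14614280))) (a (b (c (l 14443648) (l 14416816)) (l 14428624)) (l 14594904))) (b (c (l 14893704) (l 14855952)) (l 14863840)))) (b (a (b (a (b (l 16237984) (l 16081584)) (l 15758416)) (a (l 15484240) (l 16134816))) (b (b (l 15234064) (l 15687168)) (l 16059184))) (a (b (b (l 15355648)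 (l 15440824)) (l 15430744)) (b (l 16215688) (l 16024048))))) (b (a (b (a (b (l 14476104) (l 15065608)) (b (c (c (a (l 14112752) (l 13805856)) (l 13911776)) (l 13778176)) (l 14323176))) (a (l 15612288) (l 15036544))) (b (a (c (a (b (c (b (l 13489456) (l 13673208)) (l 13498208)) (l 13768888)) (b (c (l 13322160) (b (l 13180312) (l 13365840))) (l 13599016))) (b (l 13300592) (l 13624856))) (c (b (c (l 13038808) (a (b (l 12967480) (l 13133648)) (l 12883656))) (c (a (b (l 13368336) (l 13557744)) (l 13277280)) (a (l 13377352) (b (l 13133392) (l 13321048))))) (b (c (a (b (l 12888176) (l 13081560)) (b (l 12730120) (l 12887904))) (a (l 12902488) (b (l 12650192) (l 12842688)))) (l 13213920)))) (a (b (l 14187360) (l 14806056)) (b (c (a (l 13765576) (l 13578848)) (l 13546280)) (l 14118424))))) (a (b (a (l 16368208) (l 15957632)) (a (l 16324384) (l 16565008))) (b (a (l 15501560) (l 14991224)) (l 15902352))))), by decide +kernel⟩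

def k16_pm_022 : ∃ t, chk3 f_pm_022 t 3 6 1 = true :=
  ⟨(a (a (b (c (b (l 12524280) (a (c (l 13038680) (a (l 12961456) (l 12883656))) (l 12674904))) (b (a (c (l 12569528) (a (b (l 12487232) (l 12650192)) (l 12195832))) (l 12211240)) (a (c (b (a (l 12887904) (l 12730120)) (a (l 13081304) (l 12887904))) (b (l 12617168) (l 12902216))) (c (l 12569528) (b (l 12405544) (a (l 12650192) (l 12487232))))))) (b (c (a (c (b (l 13277280) (l 13426136)) (a (l 13377120) (l 13194952))) (c (l 13038680) (b (l 12883656) (l 13045336)))) (a (l 13213800) (c (a (l 12952768) (l 12661752)) (l 12567352)))) (c (a (c (l 13737472) (l 13686952)) (c (b (l 13277280) (l 13426136)) (b (l 13194952) (l 13377120)))) (a (l 13546168) (l 13213800))))) (b (c (l 12053368) (l 11887160)) (c (b (l 12524280) (a (c (l 13038680) (l 12796136)) (l 12674904))) (b (a (c (l 12569528) (b (l 12405544) (l 12314080))) (l 12211240)) (a (c (a (l 12952768) (l 12808552)) (l 12798040)) (c (l 12569528) (b (l 12405544) (l 12565744))))))))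 (b (l 1) (c (l 11730872) (l 11322632)))), by decide +kernel⟩

def k17_pm_022 : ∃ t, chk3 f_pm_022 t 3 7 1 = true :=
  ⟨(a (b (a (b (a (l 14118328) (c (l 13556400) (l 13546168))) (l 14419096)) (b (c (a (c (b (l 13277280) (l 13426136)) (l 13258600)) (c (l 13038680) (l 12963904))) (a (l 13213800) (c (b (l 12808552) (l 12952768)) (l 12798040)))) (c (a (l 13661264) (c (l 13339688) (l 13258600))) (l 13443192)))) (a (l 15108696) (a (l 14419096) (b (c (l 13661264) (l 13546168)) (l 14118328))))) (a (b (c (b (l 12524280) (a (l 12994560) (l 12674904))) (b (a (c (l 12569528) (b (l 12405544) (l 12565744))) (l 12211240)) (a (c (l 12797840) (l 12798040)) (c (l 12569528) (l 12441672))))) (b (c (a (c (l 13339688) (l 13258600)) (l 12994560)) (a (l 13213800) (c (l 12881728) (l 12798040)))) (c (a (l 13661264) (c (l 13339688) (l 13258600))) (l 13443192)))) (b (l 431130779447) (c (b (l 12524280) (l 12649520)) (b (a (c (l 12569528) (l 12483616)) (l 12211240)) (a (l 12612088) (l 12459672))))))),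 by decide +kernel⟩

theorem s18_pm_022 : ∃ t, chk3 f_pm_022 t 3 3 1 = true := ex3_b k16_pm_022 k17_pm_022

theorem s19_pm_022 : ∃ t, chk3 f_pm_022 t 1 3 1 = true := ex3_a k15_pm_022 s18_pm_022

theorem s20_pm_022 : ∃ t, chk3 f_pm_022 t 10 5 1 = true := ex3_b k11_pm_022 k12_pm_022

theorem s21_pm_022 : ∃ t, chk3 f_pm_022 t 5 5 1 = true := ex3_a s20_pm_022 k13_pm_022

theorem s22_pm_022 : ∃ t, chk3 f_pm_022 t 9 10 1 = true := ex3_b k8_pm_022 k9_pm_022

theorem s23_pm_022 : ∃ t, chk3 f_pm_022 t 8 10 1 = true := ex3_b k6_pm_022 k7_pm_022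

theorem s24_pm_022 : ∃ t, chk3 f_pm_022 t 4 10 1 = true := ex3_a s23_pm_022 s22_pm_022

theorem s25_pm_022 : ∃ t, chk3 f_pm_022 t 4 5 1 = true := ex3_b s24_pm_022 k10_pm_022

theorem s26_pm_022 : ∃ t, chk3 f_pm_022 t 2 5 1 = true := ex3_a s25_pm_022 s21_pm_022

theorem s27_pm_022 : ∃ t, chk3 f_pm_022 t 1 5 1 = true := ex3_a s26_pm_022 k14_pm_022

theorem s28_pm_022 : ∃ t, chk3 f_pm_022 t 4 19 1 = true := ex3_b k2_pm_022 k3_pm_022

theorem s29_pm_022 : ∃ t, chk3 f_pm_022 t 4 9 1 = true := ex3_b k1_pm_022 s28_pm_022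

theorem s30_pm_022 : ∃ t, chk3 f_pm_022 t 2 9 1 = true := ex3_a s29_pm_022 k4_pm_022

theorem s31_pm_022 : ∃ t, chk3 f_pm_022 t 2 4 1 = true := ex3_b k0_pm_022 s30_pm_022

theorem s32_pm_022 : ∃ t, chk3 f_pm_022 t 1 4 1 = true := ex3_a s31_pm_022 k5_pm_022

theorem s33_pm_022 : ∃ t, chk3 f_pm_022 t 1 2 1 = true := ex3_b s32_pm_022 s27_pm_022

theorem s34_pm_022 : ∃ t, chk3 f_pm_022 t 1 1 1 = true := ex3_b s33_pm_022 s19_pm_022

theorem c_pm_022 : CertNX 0 536870912 1073741824 536870912 1046898278 26843546 3 true true false .pp 0 2 2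
    ndN5q0 ndN7q2 pcN2 Cut.none Ext.none :=
  certNX1 (fam := true) (s1 := true) (s2 := false) (a := 0) (b := 2) (c := 2) (cn := .pp) (n1 := ndN5q0) (n2 := ndN7q2) (pc := pcN2) (cut := Cut.none) (xt := Ext.none) (P1 := 0) (W1 := 536870912) (P2 := 1073741824) (W2 := 536870912) (P3 := 1046898278) (W3 := 26843546) (N0 := 3)
    rfl (fun _ => rfl) s34_pm_022

noncomputable def f_pm_023 : ℕ → ℕ → ℕ → ℕ → Bool := onCell 1610612736 536870912 1073741824 536870912 1046898278 26843546
    (rowNX 3 2 true true false .up 0 2 3 (qsf 0 536870912 1073741824 536870912 3) ndN5q0 ndN7q2 pcN3 Cut.none Ext.none)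

def k0_pm_023 : ∃ t, chk3 f_pm_023 t 1 1 1 = true :=
  ⟨(b (a (b (b (a (c (b (l 12823936) (l 13159144)) (b (l 12687112) (l 13041488))) (l 2)) (b (a (l 13425120) (l 2)) (l 13786160))) (b (a (l 14744992) (l 14744992)) (l 15646432))) (a (b (l 2) (l 15213512)) (l 2))) (b (a (a (b (l 16345400) (a (l 16540608) (l 16755688))) (l 16563512)) (a (l 16563488) (a (a (l 16565720) (l 2)) (l 2)))) (a (a (b (a (b (l 16247376) (a (a (l 15593528) (l 15885336)) (l 16126608))) (l 16535024)) (a (a (b (a (l 14846952) (l 15266600)) (b (l 14573680) (c (a (l 14556664) (l 14703912)) (l 14590568)))) (b (b (l 15885336) (l 15593528)) (a (l 14972784) (l 15287576)))) (a (b (l 16126608) (a (l 15593528) (l 15885336))) (l 16247376)))) (b (l 16761384) (l 16594880))) (a (l 16777200) (a (l 16762832) (a (l 16719600) (a (l 16701928) (a (l 16674488) (l 4))))))))), by decide +kernel⟩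

theorem c_pm_023 : CertNX 0 536870912 1073741824 536870912 1046898278 26843546 3 true true false .up 0 2 3
    ndN5q0 ndN7q2 pcN3 Cut.none Ext.none :=
  certNX2 (fam := true) (s1 := true) (s2 := false) (a := 0) (b := 2) (c := 3) (cn := .up) (n1 := ndN5q0) (n2 := ndN7q2) (pc := pcN3) (cut := Cut.none) (xt := Ext.none) (P1 := 0) (W1 := 536870912) (P2 := 1073741824) (W2 := 536870912) (P3 := 1046898278) (W3 := 26843546) (N0 := 3)
    rfl (fun _ => rfl) k0_pm_023

noncomputable def f_pm_033 : ℕ → ℕ → ℕ → ℕ → Bool := onCell 0 536870912 0 1230186008 1046898278 26843546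
    (rowNX 3 0 true true false .pnn 0 3 3 (qsf 0 536870912 0 1230186008 3) ndN5q0 ndN7q3 pcN3 Cut.none Ext.none)

def k0_pm_033 : ∃ t, chk3 f_pm_033 t 1 2 1 = true :=
  ⟨(b (l 4) (a (b (l 4) (a (a (a (b (l 4) (a (c (l 14478336) (l 14421520)) (l 4))) (l 4)) (l 4)) (l 2))) (l 2))), by decide +kernel⟩

def k1_pm_033 : ∃ t, chk3 f_pm_033 t 1 6 1 = true :=
  ⟨(a (a (b (a (a (a (b (c (l 14483088) (l 14428504)) (a (l 14423544) (l 14519808))) (b (c (l 14612224) (l 14592104)) (l 14733152))) (b (c (l 14879528) (l 14837480)) (a (l 14781248) (l 14959024)))) (b (l 4) (a (c (l 15445928) (l 15395280)) (b (l 4) (a (l 15933776) (l 4)))))) (a (a (b (c (l 14556616) (l 14507896)) (c (l 14556640) (l 14507928))) (b (b (l 14863784) (l 14863776)) (l 14863800))) (b (a (b (l 15432816) (l 15430704)) (b (l 16008408) (l 16018648))) (a (l 15200008) (b (l 16018544) (l 16018176)))))) (b (l 4) (a (b (a (b (l 4) (l 16256984)) (l 4)) (a (b (l 16260648) (l 16269232)) (b (a (l 16417304) (l 4)) (l 16471280))))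 (b (l 4) (a (b (l 4) (a (l 16611016) (l 4))) (l 4)))))) (l 4)), by decide +kernel⟩

def k2_pm_033 : ∃ t, chk3 f_pm_033 t 1 7 1 = true :=
  ⟨(a (b (a (a (a (c (a (l 14483176) (l 14614280)) (c (l 14376344) (l 14497888))) (b (l 14863832) (l 14863840))) (a (b (l 15430712) (l 15430744)) (l 16018208))) (a (b (a (l 16269080) (b (l 16478920) (l 16481296))) (l 16376096)) (b (b (a (l 16663592) (a (l 16746712) (l 4))) (a (l 16668536) (l 16759848))) (a (b (l 16674712) (l 16675568)) (b (l 16765112) (l 16774784)))))) (a (a (a (b (c (l 14367920) (l 14424064)) (a (a (l 14255840) (l 14394040)) (l 14586400))) (b (l 14863840) (l 14863840))) (a (b (l 15430744) (l 15430744)) (l 16018240))) (b (a (l 16376104) (l 16726936)) (l 16535008)))) (b (a (a (b (a (b (l 4) (a (l 16732456) (l 4))) (l 4)) (b (a (a (l 16760368) (l 16751776)) (a (l 16723728) (l 4))) (a (l 16762688) (b (l 16746184) (l 16745760))))) (b (l 4) (a (b (l 4) (a (b (l 4) (l 16745808)) (l 4))) (l 4)))) (l 2)) (a (b (a (b (a (l 16773872)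 (l 16762248)) (l 16770824)) (a (b (b (l 16741520) (l 16743000)) (l 16762816)) (b (a (b (l 4) (l 16748456)) (l 4)) (b (l 16739352) (l 16742576))))) (a (l 16777208) (b (a (l 16766136) (l 16764872)) (l 16772352)))) (b (a (b (l 4) (a (b (a (l 16693624) (l 4)) (a (l 16748040) (l 16693888))) (l 4))) (l 2)) (a (b (a (b (l 16710248) (l 16744840)) (b (a (l 16695464) (l 4)) (a (l 16744704) (l 16698144)))) (a (l 16768752) (b (l 16719672) (l 16749056)))) (b (l 4) (a (b (a (l 16707072) (l 4)) (a (l 16719056) (l 16714856))) (b (l 4) (a (b (l 4) (l 16682088)) (l 4)))))))))), by decide +kernel⟩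

theorem s3_pm_033 : ∃ t, chk3 f_pm_033 t 1 3 1 = true := ex3_b k1_pm_033 k2_pm_033

theorem s4_pm_033 : ∃ t, chk3 f_pm_033 t 1 1 1 = true := ex3_b k0_pm_033 s3_pm_033

theorem c_pm_033 : CertNX 0 536870912 0 1230186008 1046898278 26843546 3 true true false .pnn 0 3 3
    ndN5q0 ndN7q3 pcN3 Cut.none Ext.none :=
  certNX0 (fam := true) (s1 := true) (s2 := false) (a := 0) (b := 3) (c := 3) (cn := .pnn) (n1 := ndN5q0) (n2 := ndN7q3) (pc := pcN3) (cut := Cut.none) (xt := Ext.none) (P1 := 0) (W1 := 536870912) (P2 := 0) (W2 := 1230186008) (P3 := 1046898278) (W3 := 26843546) (N0 := 3)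
    rfl s4_pm_033

noncomputable def f_pm_101 : ℕ → ℕ → ℕ → ℕ → Bool := onCell 536870912 469762048 536870912 536870912 1046898278 26843546
    (rowNX 3 1 true true false .npn 1 0 1 (qsf 536870912 469762048 0 536870912 1) ndN5q1 ndN7q0 pcN1 Cut.none Ext.none)

def k0_pm_101 : ∃ t, chk3 f_pm_101 t 1 1 1 = true :=
  ⟨(l 3), by decide +kernel⟩

theorem c_pm_101 : CertNX 536870912 469762048 0 536870912 1046898278 26843546 3 true true false .npn 1 0 1
    ndN5q1 ndN7q0 pcN1 Cut.none Ext.none :=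
  certNX1 (fam := true) (s1 := true) (s2 := false) (a := 1) (b := 0) (c := 1) (cn := .npn) (n1 := ndN5q1) (n2 := ndN7q0) (pc := pcN1) (cut := Cut.none) (xt := Ext.none) (P1 := 536870912) (W1 := 469762048) (P2 := 0) (W2 := 536870912) (P3 := 1046898278) (W3 := 26843546) (N0 := 3)
    rfl (fun _ => rfl) k0_pm_101

noncomputable def f_pm_102 : ℕ → ℕ → ℕ → ℕ → Bool := onCell 536870912 469762048 1073741824 536870912 1046898278 26843546
    (rowNX 3 1 true true false .npp 1 0 2 (qsf 536870912 469762048 0 536870912 2) ndN5q1 ndN7q0 pcN2 Cut.none Ext.none)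

def k0_pm_102 : ∃ t, chk3 f_pm_102 t 1 1 1 = true :=
  ⟨(a (b (b (l 3) (b (b (b (c (l 16776072) (l 16776024)) (b (c (l 16761832) (l 16761288)) (a (l 2) (b (l 16699616) (l 16635536))))) (l 16660624)) (l 16760320))) (l 2)) (b (b (l 3) (b (a (b (b (a (l 851108158791) (b (l 16125272) (l 16041760))) (b (a (b (l 16776336) (l 16754136)) (b (l 16148136) (a (l 16591832) (l 15891920)))) (a (b (l 16689424) (l 16627216)) (b (l 16281392) (a (l 16652664) (l 15960104)))))) (a (l 16652344) (l 16296904))) (b (b (a (b (a (l 15096752) (l 14301416)) (a (l 15097208) (l 14301912))) (a (c (l 13613984) (l 13502488)) (c (l 13751872) (l 13638800)))) (b (a (b (a (l 15099800) (l 14306088)) (l 14735880)) (b (a (l 13564880) (l 13705648)) (a (l 13601304) (l 13748320)))) (a (b (l 14755896) (a (l 15199088) (l 14418040))) (a (b (l 13647840) (b (l 13681656) (l 13699392))) (b (l 13798432) (l 13842512)))))) (a (l 14667712) (a (l 13664008) (l 13813440))))) (a (a (l 16758224) (l 16239760)) (a (a (l 15109048)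 (l 14315608)) (a (l 13573856) (l 13712640)))))) (a (a (l 16777216) (b (l 16230016) (l 2))) (a (a (b (l 15096576) (l 2)) (l 14301168)) (b (a (l 13557320) (l 13693848)) (a (l 13557320) (l 13693848))))))), by decide +kernel⟩

theorem c_pm_102 : CertNX 536870912 469762048 0 536870912 1046898278 26843546 3 true true false .npp 1 0 2
    ndN5q1 ndN7q0 pcN2 Cut.none Ext.none :=
  certNX1 (fam := true) (s1 := true) (s2 := false) (a := 1) (b := 0) (c := 2) (cn := .npp) (n1 := ndN5q1) (n2 := ndN7q0) (pc := pcN2) (cut := Cut.none) (xt := Ext.none) (P1 := 536870912) (W1 := 469762048) (P2 := 0) (W2 := 536870912) (P3 := 1046898278) (W3 := 26843546) (N0 := 3)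
    rfl (fun _ => rfl) k0_pm_102

noncomputable def f_pm_112 : ℕ → ℕ → ℕ → ℕ → Bool := onCell 536870912 469762048 1073741824 536870912 1046898278 26843546
    (rowNX 3 1 true true false .dn 1 1 2 (qsf 536870912 469762048 536870912 536870912 2) ndN5q1 ndN7q1 pcN2 Cut.none Ext.none)

def k0_pm_112 : ∃ t, chk3 f_pm_112 t 1 1 1 = true :=
  ⟨(a (b (b (l 3) (b (b (b (c (l 16776592) (l 16776584)) (b (c (l 16911816) (l 91838853719)) (b (l 16706912) (a (l 16656616) (l 16635536))))) (a (l 16689376) (l 16658664))) (a (a (l 16291272) (l 16649816)) (l 16760712)))) (b (a (b (l 15961608) (a (l 14909064) (l 15604224))) (b (l 16670400) (l 16358024))) (a (b (a (c (b (l 14337832) (l 13778432)) (l 13877688)) (l 14789880)) (a (c (b (a (l 13199664) (l 13437568)) (a (l 12934744) (l 13169936))) (b (l 13230968) (a (l 12782544) (l 13041904)))) (b (l 13877864) (a (l 13260112) (l 13687952))))) (b (l 15804520) (a (l 14621128) (l 15429600)))))) (b (b (l 1) (b (l 1) (a (a (l 16758224) (l 1)) (l 1))))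 (a (b (a (l 16767056) (l 16230016)) (a (l 16267680) (l 16045448))) (a (b (l 510056272791) (a (l 15061832) (l 14298376))) (b (l 1) (l 463346568423)))))), by decide +kernel⟩

theorem c_pm_112 : CertNX 536870912 469762048 536870912 536870912 1046898278 26843546 3 true true false .dn 1 1 2
    ndN5q1 ndN7q1 pcN2 Cut.none Ext.none :=
  certNX1 (fam := true) (s1 := true) (s2 := false) (a := 1) (b := 1) (c := 2) (cn := .dn) (n1 := ndN5q1) (n2 := ndN7q1) (pc := pcN2) (cut := Cut.none) (xt := Ext.none) (P1 := 536870912) (W1 := 469762048) (P2 := 536870912) (W2 := 536870912) (P3 := 1046898278) (W3 := 26843546) (N0 := 3)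
    rfl (fun _ => rfl) k0_pm_112

noncomputable def f_pm_113 : ℕ → ℕ → ℕ → ℕ → Bool := onCell 536870912 469762048 536870912 536870912 1046898278 26843546
    (rowNX 3 0 true true false .nn 1 1 3 (qsf 536870912 469762048 536870912 536870912 3) ndN5q1 ndN7q1 pcN3 Cut.none Ext.none)

def k0_pm_113 : ∃ t, chk3 f_pm_113 t 1 1 1 = true :=
  ⟨(b (a (l 1) (a (b (l 1) (a (l 16326640) (l 15787400))) (a (b (l 14704856) (l 14205456)) (b (l 13737336) (a (l 13124040) (l 13262456)))))) (a (b (b (l 15393264) (l 14504672)) (b (b (l 13598760) (c (l 13409360) (l 13249456))) (c (b (l 544412797671) (l 12802264)) (b (l 12977160) (a (l 12665104) (l 12665104)))))) (a (b (a (l 14960280) (l 14438776)) (b (a (l 13466344) (l 12959552)) (c (a (l 12951736) (l 12489712)) (b (l 12718872) (a (l 12665104) (l 12135336)))))) (b (a (l 12967640) (a (l 11854784) (l 12007248))) (a (b (c (l 11797736) (l 11388688)) (c (b (l 11411104) (l 11191152)) (b (l 10986560) (l 10700056)))) (a (b (l 10549712) (c (l 10571136)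 (l 9781024))) (b (l 10747376) (c (l 10922256) (l 9990368))))))))), by decide +kernel⟩

theorem c_pm_113 : CertNX 536870912 469762048 536870912 536870912 1046898278 26843546 3 true true false .nn 1 1 3
    ndN5q1 ndN7q1 pcN3 Cut.none Ext.none :=
  certNX0 (fam := true) (s1 := true) (s2 := false) (a := 1) (b := 1) (c := 3) (cn := .nn) (n1 := ndN5q1) (n2 := ndN7q1) (pc := pcN3) (cut := Cut.none) (xt := Ext.none) (P1 := 536870912) (W1 := 469762048) (P2 := 536870912) (W2 := 536870912) (P3 := 1046898278) (W3 := 26843546) (N0 := 3)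
    rfl k0_pm_113

noncomputable def f_pm_123 : ℕ → ℕ → ℕ → ℕ → Bool := onCell 1610612736 536870912 1073741824 536870912 1046898278 26843546
    (rowNX 3 2 true true false .npn 1 2 3 (qsf 536870912 469762048 1073741824 536870912 3) ndN5q1 ndN7q2 pcN3 Cut.none Ext.none)

def k0_pm_123 : ∃ t, chk3 f_pm_123 t 2 1 1 = true :=
  ⟨(b (b (b (c (b (l 12823936) (a (l 13159144) (l 13159144))) (b (a (l 12687112) (l 12687112)) (l 13041488))) (b (c (l 571257161463) (l 13351848)) (l 13786160))) (b (l 14493336) (l 15646432))) (b (l 672195005543) (l 1))), by decide +kernel⟩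

def k1_pm_123 : ∃ t, chk3 f_pm_123 t 3 1 1 = true :=
  ⟨(a (b (b (b (a (b (c (l 12723328) (l 12570880)) (c (l 13159032) (l 13041368))) (b (b (l 11502016) (l 12147696)) (c (l 12944472) (l 12763240)))) (b (a (l 13425120) (l 13390232)) (l 13786096))) (l 15213512)) (b (l 16563488) (l 16777200))) (a (b (b (b (b (a (c (l 11560024) (l 10834256)) (c (l 11876848) (b (l 10429960) (l 11310712)))) (c (a (l 12779968) (l 13031504)) (a (l 12438776) (l 12566264)))) (b (a (l 13367056) (l 13649424)) (l 13911984))) (a (l 15215096) (b (l 14842600) (l 15701928)))) (b (a (l 16565720) (l 16544128)) (l 16762832))) (b (a (b (b (b (c (l 13849328) (b (l 11062808) (l 12082040))) (c (b (l 13590944) (l 14040296)) (l 13302264))) (b (c (l 14512752) (l 14178184)) (l 14677952))) (b (l 15038584) (l 15675320))) (b (b (b (a (c (l 14613224) (l 13295776)) (l 2)) (a (c (l 14841784) (l 14338752)) (a (c (l 15584608) (l 15126368)) (b (l 2) (a (l 15847608) (a (l 16092384) (c (a (l 16165856) (l 16205848)) (l 16161208))))))))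 (a (b (l 15312336) (l 15498616)) (a (b (l 15962616) (l 16134520)) (a (b (l 16308200) (l 16535272)) (a (b (l 16487528) (l 16718640)) (b (a (l 16515976) (c (l 16543408) (l 16499968))) (a (l 16762632) (l 16710584)))))))) (a (b (l 15620288) (l 15677600)) (a (b (l 16061032) (l 15708376)) (a (b (l 16254552) (l 15715136)) (a (b (l 16318792) (l 15753520)) (a (b (l 16374512) (l 4)) (l 4)))))))) (a (b (b (l 16319992) (l 16703824)) (l 16719600)) (a (b (l 16521904) (l 16701928)) (a (b (l 16495360) (l 16674488)) (b (a (l 16462712) (l 4)) (l 4)))))))), by decide +kernel⟩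

theorem s2_pm_123 : ∃ t, chk3 f_pm_123 t 1 1 1 = true := ex3_a k0_pm_123 k1_pm_123

theorem c_pm_123 : CertNX 536870912 469762048 1073741824 536870912 1046898278 26843546 3 true true false .npn 1 2 3
    ndN5q1 ndN7q2 pcN3 Cut.none Ext.none :=
  certNX2 (fam := true) (s1 := true) (s2 := false) (a := 1) (b := 2) (c := 3) (cn := .npn) (n1 := ndN5q1) (n2 := ndN7q2) (pc := pcN3) (cut := Cut.none) (xt := Ext.none) (P1 := 536870912) (W1 := 469762048) (P2 := 1073741824) (W2 := 536870912) (P3 := 1046898278) (W3 := 26843546) (N0 := 3)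
    rfl (fun _ => rfl) s2_pm_123

noncomputable def f_pm_133 : ℕ → ℕ → ℕ → ℕ → Bool := onCell 536870912 469762048 0 1230186008 1046898278 26843546
    (rowNX 3 0 true true false .dn 1 3 3 (qsf 536870912 469762048 0 1230186008 3) ndN5q1 ndN7q3 pcN3 Cut.none Ext.none)

def k0_pm_133 : ∃ t, chk3 f_pm_133 t 1 1 1 = true :=
  ⟨(b (l 2) (b (l 2) (a (b (l 2) (l 4)) (l 2)))), by decide +kernel⟩

theorem c_pm_133 : CertNX 536870912 469762048 0 1230186008 1046898278 26843546 3 true true false .dn 1 3 3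
    ndN5q1 ndN7q3 pcN3 Cut.none Ext.none :=
  certNX0 (fam := true) (s1 := true) (s2 := false) (a := 1) (b := 3) (c := 3) (cn := .dn) (n1 := ndN5q1) (n2 := ndN7q3) (pc := pcN3) (cut := Cut.none) (xt := Ext.none) (P1 := 536870912) (W1 := 469762048) (P2 := 0) (W2 := 1230186008) (P3 := 1046898278) (W3 := 26843546) (N0 := 3)
    rfl k0_pm_133

noncomputable def f_pm_202 : ℕ → ℕ → ℕ → ℕ → Bool := onCell 1073741824 536870912 1073741824 536870912 1046898278 26843546
    (rowNX 3 1 true true false .pp 2 0 2 (qsf 1073741824 536870912 0 536870912 2) ndN5q2 ndN7q0 pcN2 Cut.none Ext.none)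

def k0_pm_202 : ∃ t, chk3 f_pm_202 t 1 1 1 = true :=
  ⟨(b (b (a (a (b (a (b (a (l 13539096) (l 13118376)) (a (l 13711256) (l 13290560))) (b (l 1) (a (l 12901096) (l 1)))) (a (b (a (l 13831632) (l 13405448)) (l 13428528)) (b (a (l 13012104) (l 12654112)) (l 12654088)))) (a (b (l 1) (a (b (l 1) (l 12349960)) (l 1))) (l 1))) (l 1)) (a (a (b (a (b (b (l 13295168) (l 13518560)) (l 14184264)) (b (l 12417648) (l 13418784))) (b (a (l 14960328) (l 14180824)) (a (l 15344616) (l 14561560)))) (b (a (b (a (a (l 12248080) (l 12465960)) (l 13226736)) (a (l 13123160) (l 13988792))) (b (l 1) (a (l 14922744) (l 1)))) (a (b (a (l 13872880) (l 14729840)) (a (l 14250408) (l 15105008))) (b (a (l 15655032) (l 16108040)) (l 16007584))))) (b (l 1) (b (l 1) (a (l 16421344) (l 1)))))) (a (a (b (b (a (l 15415320) (l 14648144)) (a (l 15517752) (l 14767376))) (a (l 15522248) (l 14772512))) (b (a (b (a (l 14349952) (l 15213784)) (a (l 14482808) (l 15356176))) (b (a (l 16146240) (l 16607136)) (a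 (l 16298560) (l 16769792)))) (a (a (l 14488456) (l 15362176)) (a (l 16304928) (l 16776552))))) (b (b (a (l 16578768) (l 1)) (a (l 16769440) (l 16767568))) (c (l 16777216) (l 16777216))))), by decide +kernel⟩

theorem c_pm_202 : CertNX 1073741824 536870912 0 536870912 1046898278 26843546 3 true true false .pp 2 0 2
    ndN5q2 ndN7q0 pcN2 Cut.none Ext.none :=
  certNX1 (fam := true) (s1 := true) (s2 := false) (a := 2) (b := 0) (c := 2) (cn := .pp) (n1 := ndN5q2) (n2 := ndN7q0) (pc := pcN2) (cut := Cut.none) (xt := Ext.none) (P1 := 1073741824) (W1 := 536870912) (P2 := 0) (W2 := 536870912) (P3 := 1046898278) (W3 := 26843546) (N0 := 3)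
    rfl (fun _ => rfl) k0_pm_202

noncomputable def f_pm_203 : ℕ → ℕ → ℕ → ℕ → Bool := onCell 1073741824 536870912 1610612736 536870912 1046898278 26843546
    (rowNX 3 1 true true false .up 2 0 3 (qsf 1073741824 536870912 0 536870912 3) ndN5q2 ndN7q0 pcN3 Cut.none Ext.none)

def k0_pm_203 : ∃ t, chk3 f_pm_203 t 1 1 1 = true :=
  ⟨(b (a (a (b (b (l 15130952) (l 15130952)) (b (l 434962306167) (l 2))) (b (a (b (l 14934800) (l 14871888)) (b (l 16546792) (l 16546792))) (l 4))) (b (c (l 16777216) (l 16777216)) (l 4))) (l 4)), by decide +kernel⟩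

theorem c_pm_203 : CertNX 1073741824 536870912 0 536870912 1046898278 26843546 3 true true false .up 2 0 3
    ndN5q2 ndN7q0 pcN3 Cut.none Ext.none :=
  certNX1 (fam := true) (s1 := true) (s2 := false) (a := 2) (b := 0) (c := 3) (cn := .up) (n1 := ndN5q2) (n2 := ndN7q0) (pc := pcN3) (cut := Cut.none) (xt := Ext.none) (P1 := 1073741824) (W1 := 536870912) (P2 := 0) (W2 := 536870912) (P3 := 1046898278) (W3 := 26843546) (N0 := 3)
    rfl (fun _ => rfl) k0_pm_203

noncomputable def f_pm_213 : ℕ → ℕ → ℕ → ℕ → Bool := onCell 1073741824 536870912 1610612736 536870912 1046898278 26843546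
    (rowNX 3 1 true true false .pnn 2 1 3 (qsf 1073741824 536870912 536870912 536870912 3) ndN5q2 ndN7q1 pcN3 Cut.none Ext.none)

def k0_pm_213 : ∃ t, chk3 f_pm_213 t 1 1 1 = true :=
  ⟨(b (a (a (b (b (l 15130952) (l 15130952)) (b (a (l 15200312) (l 4)) (l 4))) (b (a (b (l 1) (l 14871888)) (l 1)) (l 4))) (b (l 1) (l 4))) (l 4)), by decide +kernel⟩

theorem c_pm_213 : CertNX 1073741824 536870912 536870912 536870912 1046898278 26843546 3 true true false .pnn 2 1 3
    ndN5q2 ndN7q1 pcN3 Cut.none Ext.none :=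
  certNX1 (fam := true) (s1 := true) (s2 := false) (a := 2) (b := 1) (c := 3) (cn := .pnn) (n1 := ndN5q2) (n2 := ndN7q1) (pc := pcN3) (cut := Cut.none) (xt := Ext.none) (P1 := 1073741824) (W1 := 536870912) (P2 := 536870912) (W2 := 536870912) (P3 := 1046898278) (W3 := 26843546) (N0 := 3)
    rfl (fun _ => rfl) k0_pm_213

noncomputable def f_pm_303 : ℕ → ℕ → ℕ → ℕ → Bool := onCell 0 1230186008 1610612736 536870912 1046898278 26843546
    (rowNX 3 1 true true false .npn 3 0 3 (qsf 0 1230186008 0 536870912 3) ndN5q3 ndN7q0 pcN3 Cut.none Ext.none)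

def k0_pm_303 : ∃ t, chk3 f_pm_303 t 1 1 1 = true :=
  ⟨(a (l 4) (a (l 4) (l 4))), by decide +kernel⟩

theorem c_pm_303 : CertNX 0 1230186008 0 536870912 1046898278 26843546 3 true true false .npn 3 0 3
    ndN5q3 ndN7q0 pcN3 Cut.none Ext.none :=
  certNX1 (fam := true) (s1 := true) (s2 := false) (a := 3) (b := 0) (c := 3) (cn := .npn) (n1 := ndN5q3) (n2 := ndN7q0) (pc := pcN3) (cut := Cut.none) (xt := Ext.none) (P1 := 0) (W1 := 1230186008) (P2 := 0) (W2 := 536870912) (P3 := 1046898278) (W3 := 26843546) (N0 := 3)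
    rfl (fun _ => rfl) k0_pm_303

noncomputable def f_pm_313 : ℕ → ℕ → ℕ → ℕ → Bool := onCell 0 1230186008 536870912 536870912 1046898278 26843546
    (rowNX 3 0 true true false .dn 3 1 3 (qsf 0 1230186008 536870912 536870912 3) ndN5q3 ndN7q1 pcN3 Cut.none Ext.none)

def k0_pm_313 : ∃ t, chk3 f_pm_313 t 1 1 1 = true :=
  ⟨(l 4), by decide +kernel⟩

theorem c_pm_313 : CertNX 0 1230186008 536870912 536870912 1046898278 26843546 3 true true false .dn 3 1 3
    ndN5q3 ndN7q1 pcN3 Cut.none Ext.none :=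
  certNX0 (fam := true) (s1 := true) (s2 := false) (a := 3) (b := 1) (c := 3) (cn := .dn) (n1 := ndN5q3) (n2 := ndN7q1) (pc := pcN3) (cut := Cut.none) (xt := Ext.none) (P1 := 0) (W1 := 1230186008) (P2 := 536870912) (W2 := 536870912) (P3 := 1046898278) (W3 := 26843546) (N0 := 3)
    rfl k0_pm_313

noncomputable def f_mm_001 : ℕ → ℕ → ℕ → ℕ → Bool := onCell 0 536870912 0 536870912 1046898278 26843546
    (rowNX 3 0 true false false .up 0 0 1 (qsf 0 536870912 0 536870912 1) ndN5q0 ndN7q0 pcN1 Cut.none Ext.none)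

def k0_mm_001 : ∃ t, chk3 f_mm_001 t 1 1 1 = true :=
  ⟨(l 4), by decide +kernel⟩

theorem c_mm_001 : CertNX 0 536870912 0 536870912 1046898278 26843546 3 true false false .up 0 0 1
    ndN5q0 ndN7q0 pcN1 Cut.none Ext.none :=
  certNX0 (fam := true) (s1 := false) (s2 := false) (a := 0) (b := 0) (c := 1) (cn := .up) (n1 := ndN5q0) (n2 := ndN7q0) (pc := pcN1) (cut := Cut.none) (xt := Ext.none) (P1 := 0) (W1 := 536870912) (P2 := 0) (W2 := 536870912) (P3 := 1046898278) (W3 := 26843546) (N0 := 3)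
    rfl k0_mm_001

noncomputable def f_mm_011 : ℕ → ℕ → ℕ → ℕ → Bool := onCell 0 536870912 536870912 536870912 1046898278 26843546
    (rowNX 3 0 true false false .pnn 0 1 1 (qsf 0 536870912 536870912 536870912 1) ndN5q0 ndN7q1 pcN1 Cut.none Ext.none)

def k0_mm_011 : ∃ t, chk3 f_mm_011 t 1 1 1 = true :=
  ⟨(l 4), by decide +kernel⟩

theorem c_mm_011 : CertNX 0 536870912 536870912 536870912 1046898278 26843546 3 true false false .pnn 0 1 1
    ndN5q0 ndN7q1 pcN1 Cut.none Ext.none :=
  certNX0 (fam := true) (s1 := false) (s2 := false) (a := 0) (b := 1) (c := 1) (cn := .pnn) (n1 := ndN5q0) (n2 := ndN7q1) (pc := pcN1) (cut := Cut.none) (xt := Ext.none) (P1 := 0) (W1 := 536870912) (P2 := 536870912) (W2 := 536870912) (P3 := 1046898278) (W3 := 26843546) (N0 := 3)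
    rfl k0_mm_011

noncomputable def f_mm_012 : ℕ → ℕ → ℕ → ℕ → Bool := onCell 0 536870912 536870912 536870912 1046898278 26843546
    (rowNX 3 0 true false false .pnp 0 1 2 (qsf 0 536870912 536870912 536870912 2) ndN5q0 ndN7q1 pcN2 Cut.none Ext.none)

def k0_mm_012 : ∃ t, chk3 f_mm_012 t 1 1 1 = true :=
  ⟨(l 4), by decide +kernel⟩

theorem c_mm_012 : CertNX 0 536870912 536870912 536870912 1046898278 26843546 3 true false false .pnp 0 1 2
    ndN5q0 ndN7q1 pcN2 Cut.none Ext.none :=
  certNX0 (fam := true) (s1 := false) (s2 := false) (a := 0) (b := 1) (c := 2) (cn := .pnp) (n1 := ndN5q0) (n2 := ndN7q1) (pc := pcN2) (cut := Cut.none) (xt := Ext.none) (P1 := 0) (W1 := 536870912) (P2 := 536870912) (W2 := 536870912) (P3 := 1046898278) (W3 := 26843546) (N0 := 3)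
    rfl k0_mm_012

noncomputable def f_mm_022 : ℕ → ℕ → ℕ → ℕ → Bool := onCell 0 536870912 1073741824 536870912 1046898278 26843546
    (rowNX 3 0 true false false .pp 0 2 2 (qsf 0 536870912 1073741824 536870912 2) ndN5q0 ndN7q2 pcN2 Cut.none Ext.none)

def k0_mm_022 : ∃ t, chk3 f_mm_022 t 1 1 1 = true :=
  ⟨(l 4), by decide +kernel⟩

theorem c_mm_022 : CertNX 0 536870912 1073741824 536870912 1046898278 26843546 3 true false false .pp 0 2 2
    ndN5q0 ndN7q2 pcN2 Cut.none Ext.none :=
  certNX0 (fam := true) (s1 := false) (s2 := false) (a := 0) (b := 2) (c := 2) (cn := .pp) (n1 := ndN5q0) (n2 := ndN7q2) (pc := pcN2) (cut := Cut.none) (xt := Ext.none) (P1 := 0) (W1 := 536870912) (P2 := 1073741824) (W2 := 536870912) (P3 := 1046898278) (W3 := 26843546) (N0 := 3)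
    rfl k0_mm_022

noncomputable def f_mm_023 : ℕ → ℕ → ℕ → ℕ → Bool := onCell 0 536870912 1073741824 536870912 1046898278 26843546
    (rowNX 3 0 true false false .up 0 2 3 (qsf 0 536870912 1073741824 536870912 3) ndN5q0 ndN7q2 pcN3 Cut.none Ext.none)

def k0_mm_023 : ∃ t, chk3 f_mm_023 t 1 1 1 = true :=
  ⟨(l 4), by decide +kernel⟩

theorem c_mm_023 : CertNX 0 536870912 1073741824 536870912 1046898278 26843546 3 true false false .up 0 2 3
    ndN5q0 ndN7q2 pcN3 Cut.none Ext.none :=
  certNX0 (fam := true) (s1 := false) (s2 := false) (a := 0) (b := 2) (c := 3) (cn := .up) (n1 := ndN5q0) (n2 := ndN7q2) (pc := pcN3) (cut := Cut.none) (xt := Ext.none) (P1 := 0) (W1 := 536870912) (P2 := 1073741824) (W2 := 536870912) (P3 := 1046898278) (W3 := 26843546) (N0 := 3)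
    rfl k0_mm_023

noncomputable def f_mm_033 : ℕ → ℕ → ℕ → ℕ → Bool := onCell 0 536870912 0 1230186008 1046898278 26843546
    (rowNX 3 0 true false false .pnn 0 3 3 (qsf 0 536870912 0 1230186008 3) ndN5q0 ndN7q3 pcN3 Cut.none Ext.none)

def k0_mm_033 : ∃ t, chk3 f_mm_033 t 1 1 1 = true :=
  ⟨(l 4), by decide +kernel⟩

theorem c_mm_033 : CertNX 0 536870912 0 1230186008 1046898278 26843546 3 true false false .pnn 0 3 3
    ndN5q0 ndN7q3 pcN3 Cut.none Ext.none :=
  certNX0 (fam := true) (s1 := false) (s2 := false) (a := 0) (b := 3) (c := 3) (cn := .pnn) (n1 := ndN5q0) (n2 := ndN7q3) (pc := pcN3) (cut := Cut.none) (xt := Ext.none) (P1 := 0) (W1 := 536870912) (P2 := 0) (W2 := 1230186008) (P3 := 1046898278) (W3 := 26843546) (N0 := 3)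
    rfl k0_mm_033

noncomputable def f_mm_101 : ℕ → ℕ → ℕ → ℕ → Bool := onCell 536870912 469762048 0 536870912 1046898278 26843546
    (rowNX 3 0 true false false .npn 1 0 1 (qsf 536870912 469762048 0 536870912 1) ndN5q1 ndN7q0 pcN1 Cut.none Ext.none)

def k0_mm_101 : ∃ t, chk3 f_mm_101 t 1 1 1 = true :=
  ⟨(l 4), by decide +kernel⟩

theorem c_mm_101 : CertNX 536870912 469762048 0 536870912 1046898278 26843546 3 true false false .npn 1 0 1
    ndN5q1 ndN7q0 pcN1 Cut.none Ext.none :=
  certNX0 (fam := true) (s1 := false) (s2 := false) (a := 1) (b := 0) (c := 1) (cn := .npn) (n1 := ndN5q1) (n2 := ndN7q0) (pc := pcN1) (cut := Cut.none) (xt := Ext.none) (P1 := 536870912) (W1 := 469762048) (P2 := 0) (W2 := 536870912) (P3 := 1046898278) (W3 := 26843546) (N0 := 3)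
    rfl k0_mm_101

noncomputable def f_mm_102 : ℕ → ℕ → ℕ → ℕ → Bool := onCell 536870912 469762048 0 536870912 1046898278 26843546
    (rowNX 3 0 true false false .npp 1 0 2 (qsf 536870912 469762048 0 536870912 2) ndN5q1 ndN7q0 pcN2 Cut.none Ext.none)

def k0_mm_102 : ∃ t, chk3 f_mm_102 t 1 1 1 = true :=
  ⟨(l 4), by decide +kernel⟩

theorem c_mm_102 : CertNX 536870912 469762048 0 536870912 1046898278 26843546 3 true false false .npp 1 0 2
    ndN5q1 ndN7q0 pcN2 Cut.none Ext.none :=
  certNX0 (fam := true) (s1 := false) (s2 := false) (a := 1) (b := 0) (c := 2) (cn := .npp) (n1 := ndN5q1) (n2 := ndN7q0) (pc := pcN2) (cut := Cut.none) (xt := Ext.none) (P1 := 536870912) (W1 := 469762048) (P2 := 0) (W2 := 536870912) (P3 := 1046898278) (W3 := 26843546) (N0 := 3)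
    rfl k0_mm_102

noncomputable def f_mm_112 : ℕ → ℕ → ℕ → ℕ → Bool := onCell 536870912 469762048 536870912 536870912 1046898278 26843546
    (rowNX 3 0 true false false .dn 1 1 2 (qsf 536870912 469762048 536870912 536870912 2) ndN5q1 ndN7q1 pcN2 Cut.none Ext.none)

def k0_mm_112 : ∃ t, chk3 f_mm_112 t 1 1 1 = true :=
  ⟨(l 4), by decide +kernel⟩

theorem c_mm_112 : CertNX 536870912 469762048 536870912 536870912 1046898278 26843546 3 true false false .dn 1 1 2
    ndN5q1 ndN7q1 pcN2 Cut.none Ext.none :=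
  certNX0 (fam := true) (s1 := false) (s2 := false) (a := 1) (b := 1) (c := 2) (cn := .dn) (n1 := ndN5q1) (n2 := ndN7q1) (pc := pcN2) (cut := Cut.none) (xt := Ext.none) (P1 := 536870912) (W1 := 469762048) (P2 := 536870912) (W2 := 536870912) (P3 := 1046898278) (W3 := 26843546) (N0 := 3)
    rfl k0_mm_112

noncomputable def f_mm_113 : ℕ → ℕ → ℕ → ℕ → Bool := onCell 536870912 469762048 536870912 536870912 1046898278 26843546
    (rowNX 3 0 true false false .nn 1 1 3 (qsf 536870912 469762048 536870912 536870912 3) ndN5q1 ndN7q1 pcN3 Cut.none Ext.none)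

def k0_mm_113 : ∃ t, chk3 f_mm_113 t 1 1 1 = true :=
  ⟨(l 4), by decide +kernel⟩

theorem c_mm_113 : CertNX 536870912 469762048 536870912 536870912 1046898278 26843546 3 true false false .nn 1 1 3
    ndN5q1 ndN7q1 pcN3 Cut.none Ext.none :=
  certNX0 (fam := true) (s1 := false) (s2 := false) (a := 1) (b := 1) (c := 3) (cn := .nn) (n1 := ndN5q1) (n2 := ndN7q1) (pc := pcN3) (cut := Cut.none) (xt := Ext.none) (P1 := 536870912) (W1 := 469762048) (P2 := 536870912) (W2 := 536870912) (P3 := 1046898278) (W3 := 26843546) (N0 := 3)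
    rfl k0_mm_113

noncomputable def f_mm_123 : ℕ → ℕ → ℕ → ℕ → Bool := onCell 536870912 469762048 1073741824 536870912 1046898278 26843546
    (rowNX 3 0 true false false .npn 1 2 3 (qsf 536870912 469762048 1073741824 536870912 3) ndN5q1 ndN7q2 pcN3 Cut.none Ext.none)

def k0_mm_123 : ∃ t, chk3 f_mm_123 t 1 1 1 = true :=
  ⟨(l 4), by decide +kernel⟩

theorem c_mm_123 : CertNX 536870912 469762048 1073741824 536870912 1046898278 26843546 3 true false false .npn 1 2 3
    ndN5q1 ndN7q2 pcN3 Cut.none Ext.none :=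
  certNX0 (fam := true) (s1 := false) (s2 := false) (a := 1) (b := 2) (c := 3) (cn := .npn) (n1 := ndN5q1) (n2 := ndN7q2) (pc := pcN3) (cut := Cut.none) (xt := Ext.none) (P1 := 536870912) (W1 := 469762048) (P2 := 1073741824) (W2 := 536870912) (P3 := 1046898278) (W3 := 26843546) (N0 := 3)
    rfl k0_mm_123

noncomputable def f_mm_133 : ℕ → ℕ → ℕ → ℕ → Bool := onCell 536870912 469762048 0 1230186008 1046898278 26843546
    (rowNX 3 0 true false false .dn 1 3 3 (qsf 536870912 469762048 0 1230186008 3) ndN5q1 ndN7q3 pcN3 Cut.none Ext.none)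

def k0_mm_133 : ∃ t, chk3 f_mm_133 t 1 1 1 = true :=
  ⟨(l 4), by decide +kernel⟩

theorem c_mm_133 : CertNX 536870912 469762048 0 1230186008 1046898278 26843546 3 true false false .dn 1 3 3
    ndN5q1 ndN7q3 pcN3 Cut.none Ext.none :=
  certNX0 (fam := true) (s1 := false) (s2 := false) (a := 1) (b := 3) (c := 3) (cn := .dn) (n1 := ndN5q1) (n2 := ndN7q3) (pc := pcN3) (cut := Cut.none) (xt := Ext.none) (P1 := 536870912) (W1 := 469762048) (P2 := 0) (W2 := 1230186008) (P3 := 1046898278) (W3 := 26843546) (N0 := 3)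
    rfl k0_mm_133

noncomputable def f_mm_202 : ℕ → ℕ → ℕ → ℕ → Bool := onCell 1073741824 536870912 0 536870912 1046898278 26843546
    (rowNX 3 0 true false false .pp 2 0 2 (qsf 1073741824 536870912 0 536870912 2) ndN5q2 ndN7q0 pcN2 Cut.none Ext.none)

def k0_mm_202 : ∃ t, chk3 f_mm_202 t 1 1 1 = true :=
  ⟨(l 4), by decide +kernel⟩

theorem c_mm_202 : CertNX 1073741824 536870912 0 536870912 1046898278 26843546 3 true false false .pp 2 0 2
    ndN5q2 ndN7q0 pcN2 Cut.none Ext.none :=
  certNX0 (fam := true) (s1 := false) (s2 := false) (a := 2) (b := 0) (c := 2) (cn := .pp) (n1 := ndN5q2) (n2 := ndN7q0) (pc := pcN2) (cut := Cut.none) (xt := Ext.none) (P1 := 1073741824) (W1 := 536870912) (P2 := 0) (W2 := 536870912) (P3 := 1046898278) (W3 := 26843546) (N0 := 3)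
    rfl k0_mm_202

noncomputable def f_mm_203 : ℕ → ℕ → ℕ → ℕ → Bool := onCell 1073741824 536870912 0 536870912 1046898278 26843546
    (rowNX 3 0 true false false .up 2 0 3 (qsf 1073741824 536870912 0 536870912 3) ndN5q2 ndN7q0 pcN3 Cut.none Ext.none)

def k0_mm_203 : ∃ t, chk3 f_mm_203 t 1 1 1 = true :=
  ⟨(l 4), by decide +kernel⟩

theorem c_mm_203 : CertNX 1073741824 536870912 0 536870912 1046898278 26843546 3 true false false .up 2 0 3
    ndN5q2 ndN7q0 pcN3 Cut.none Ext.none :=
  certNX0 (fam := true) (s1 := false) (s2 := false) (a := 2) (b := 0) (c := 3) (cn := .up) (n1 := ndN5q2) (n2 := ndN7q0) (pc := pcN3) (cut := Cut.none) (xt := Ext.none) (P1 := 1073741824) (W1 := 536870912) (P2 := 0) (W2 := 536870912) (P3 := 1046898278) (W3 := 26843546) (N0 := 3)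
    rfl k0_mm_203

noncomputable def f_mm_213 : ℕ → ℕ → ℕ → ℕ → Bool := onCell 1073741824 536870912 536870912 536870912 1046898278 26843546
    (rowNX 3 0 true false false .pnn 2 1 3 (qsf 1073741824 536870912 536870912 536870912 3) ndN5q2 ndN7q1 pcN3 Cut.none Ext.none)

def k0_mm_213 : ∃ t, chk3 f_mm_213 t 1 1 1 = true :=
  ⟨(l 4), by decide +kernel⟩

theorem c_mm_213 : CertNX 1073741824 536870912 536870912 536870912 1046898278 26843546 3 true false false .pnn 2 1 3
    ndN5q2 ndN7q1 pcN3 Cut.none Ext.none :=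
  certNX0 (fam := true) (s1 := false) (s2 := false) (a := 2) (b := 1) (c := 3) (cn := .pnn) (n1 := ndN5q2) (n2 := ndN7q1) (pc := pcN3) (cut := Cut.none) (xt := Ext.none) (P1 := 1073741824) (W1 := 536870912) (P2 := 536870912) (W2 := 536870912) (P3 := 1046898278) (W3 := 26843546) (N0 := 3)
    rfl k0_mm_213

noncomputable def f_mm_303 : ℕ → ℕ → ℕ → ℕ → Bool := onCell 0 1230186008 0 536870912 1046898278 26843546
    (rowNX 3 0 true false false .npn 3 0 3 (qsf 0 1230186008 0 536870912 3) ndN5q3 ndN7q0 pcN3 Cut.none Ext.none)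

def k0_mm_303 : ∃ t, chk3 f_mm_303 t 1 1 1 = true :=
  ⟨(l 4), by decide +kernel⟩

theorem c_mm_303 : CertNX 0 1230186008 0 536870912 1046898278 26843546 3 true false false .npn 3 0 3
    ndN5q3 ndN7q0 pcN3 Cut.none Ext.none :=
  certNX0 (fam := true) (s1 := false) (s2 := false) (a := 3) (b := 0) (c := 3) (cn := .npn) (n1 := ndN5q3) (n2 := ndN7q0) (pc := pcN3) (cut := Cut.none) (xt := Ext.none) (P1 := 0) (W1 := 1230186008) (P2 := 0) (W2 := 536870912) (P3 := 1046898278) (W3 := 26843546) (N0 := 3)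
    rfl k0_mm_303

noncomputable def f_mm_313 : ℕ → ℕ → ℕ → ℕ → Bool := onCell 0 1230186008 536870912 536870912 1046898278 26843546
    (rowNX 3 0 true false false .dn 3 1 3 (qsf 0 1230186008 536870912 536870912 3) ndN5q3 ndN7q1 pcN3 Cut.none Ext.none)

def k0_mm_313 : ∃ t, chk3 f_mm_313 t 1 1 1 = true :=
  ⟨(l 4), by decide +kernel⟩

theorem c_mm_313 : CertNX 0 1230186008 536870912 536870912 1046898278 26843546 3 true false false .dn 3 1 3
    ndN5q3 ndN7q1 pcN3 Cut.none Ext.none :=
  certNX0 (fam := true) (s1 := false) (s2 := false) (a := 3) (b := 1) (c := 3) (cn := .dn) (n1 := ndN5q3) (n2 := ndN7q1) (pc := pcN3) (cut := Cut.none) (xt := Ext.none) (P1 := 0) (W1 := 1230186008) (P2 := 536870912) (W2 := 536870912) (P3 := 1046898278) (W3 := 26843546) (N0 := 3)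
    rfl k0_mm_313

end Pool.Agent.Strip051.G.IE1.Tab.C.NA57

namespace Pool.Agent.Strip051.G.IE1.Tab.C.NA66

open Pool.Agent.Strip051.PB Pool.Agent.Strip051.PB.T
open Pool.Agent.Strip051.G.IE1.Tab

noncomputable def f_pp_001 : ℕ → ℕ → ℕ → ℕ → Bool := onCell 0 536870912 0 536870912 1046898278 26843546
    (rowNX 3 0 true true true .up 0 0 1 (qsf 0 536870912 0 536870912 1) ndN6q0 ndN6q0 pcN1 Cut.none Ext.none)

def k0_pp_001 : ∃ t, chk3 f_pp_001 t 1 1 1 = true :=
  ⟨(l 4), by decide +kernel⟩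

theorem c_pp_001 : CertNX 0 536870912 0 536870912 1046898278 26843546 3 true true true .up 0 0 1
    ndN6q0 ndN6q0 pcN1 Cut.none Ext.none :=
  certNX0 (fam := true) (s1 := true) (s2 := true) (a := 0) (b := 0) (c := 1) (cn := .up) (n1 := ndN6q0) (n2 := ndN6q0) (pc := pcN1) (cut := Cut.none) (xt := Ext.none) (P1 := 0) (W1 := 536870912) (P2 := 0) (W2 := 536870912) (P3 := 1046898278) (W3 := 26843546) (N0 := 3)
    rfl k0_pp_001

noncomputable def f_pp_011 : ℕ → ℕ → ℕ → ℕ → Bool := onCell 0 536870912 536870912 469762048 1046898278 26843546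
    (rowNX 3 0 true true true .pnn 0 1 1 (qsf 0 536870912 536870912 469762048 1) ndN6q0 ndN6q1 pcN1 Cut.none Ext.none)

def k0_pp_011 : ∃ t, chk3 f_pp_011 t 1 1 1 = true :=
  ⟨(l 4), by decide +kernel⟩

theorem c_pp_011 : CertNX 0 536870912 536870912 469762048 1046898278 26843546 3 true true true .pnn 0 1 1
    ndN6q0 ndN6q1 pcN1 Cut.none Ext.none :=
  certNX0 (fam := true) (s1 := true) (s2 := true) (a := 0) (b := 1) (c := 1) (cn := .pnn) (n1 := ndN6q0) (n2 := ndN6q1) (pc := pcN1) (cut := Cut.none) (xt := Ext.none) (P1 := 0) (W1 := 536870912) (P2 := 536870912) (W2 := 469762048) (P3 := 1046898278) (W3 := 26843546) (N0 := 3)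
    rfl k0_pp_011

noncomputable def f_pp_012 : ℕ → ℕ → ℕ → ℕ → Bool := onCell 0 536870912 536870912 469762048 1046898278 26843546
    (rowNX 3 0 true true true .pnp 0 1 2 (qsf 0 536870912 536870912 469762048 2) ndN6q0 ndN6q1 pcN2 Cut.none Ext.none)

def k0_pp_012 : ∃ t, chk3 f_pp_012 t 1 1 1 = true :=
  ⟨(l 4), by decide +kernel⟩

theorem c_pp_012 : CertNX 0 536870912 536870912 469762048 1046898278 26843546 3 true true true .pnp 0 1 2
    ndN6q0 ndN6q1 pcN2 Cut.none Ext.none :=
  certNX0 (fam := true) (s1 := true) (s2 := true) (a := 0) (b := 1) (c := 2) (cn := .pnp) (n1 := ndN6q0) (n2 := ndN6q1) (pc := pcN2) (cut := Cut.none) (xt := Ext.none) (P1 := 0) (W1 := 536870912) (P2 := 536870912) (W2 := 469762048) (P3 := 1046898278) (W3 := 26843546) (N0 := 3)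
    rfl k0_pp_012

noncomputable def f_pp_022 : ℕ → ℕ → ℕ → ℕ → Bool := onCell 0 536870912 1073741824 536870912 1046898278 26843546
    (rowNX 3 0 true true true .pp 0 2 2 (qsf 0 536870912 1073741824 536870912 2) ndN6q0 ndN6q2 pcN2 Cut.none Ext.none)

def k0_pp_022 : ∃ t, chk3 f_pp_022 t 1 1 1 = true :=
  ⟨(l 4), by decide +kernel⟩

theorem c_pp_022 : CertNX 0 536870912 1073741824 536870912 1046898278 26843546 3 true true true .pp 0 2 2
    ndN6q0 ndN6q2 pcN2 Cut.none Ext.none :=
  certNX0 (fam := true) (s1 := true) (s2 := true) (a := 0) (b := 2) (c := 2) (cn := .pp) (n1 := ndN6q0) (n2 := ndN6q2) (pc := pcN2) (cut := Cut.none) (xt := Ext.none) (P1 := 0) (W1 := 536870912) (P2 := 1073741824) (W2 := 536870912) (P3 := 1046898278) (W3 := 26843546) (N0 := 3)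
    rfl k0_pp_022

noncomputable def f_pp_023 : ℕ → ℕ → ℕ → ℕ → Bool := onCell 0 536870912 1073741824 536870912 1046898278 26843546
    (rowNX 3 0 true true true .up 0 2 3 (qsf 0 536870912 1073741824 536870912 3) ndN6q0 ndN6q2 pcN3 Cut.none Ext.none)

def k0_pp_023 : ∃ t, chk3 f_pp_023 t 1 1 1 = true :=
  ⟨(l 4), by decide +kernel⟩

theorem c_pp_023 : CertNX 0 536870912 1073741824 536870912 1046898278 26843546 3 true true true .up 0 2 3
    ndN6q0 ndN6q2 pcN3 Cut.none Ext.none :=
  certNX0 (fam := true) (s1 := true) (s2 := true) (a := 0) (b := 2) (c := 3) (cn := .up) (n1 := ndN6q0) (n2 := ndN6q2) (pc := pcN3) (cut := Cut.none) (xt := Ext.none) (P1 := 0) (W1 := 536870912) (P2 := 1073741824) (W2 := 536870912) (P3 := 1046898278) (W3 := 26843546) (N0 := 3)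
    rfl k0_pp_023

noncomputable def f_pp_033 : ℕ → ℕ → ℕ → ℕ → Bool := onCell 0 536870912 0 1230186008 1046898278 26843546
    (rowNX 3 0 true true true .pnn 0 3 3 (qsf 0 536870912 0 1230186008 3) ndN6q0 ndN6q3 pcN3 Cut.none Ext.none)

def k0_pp_033 : ∃ t, chk3 f_pp_033 t 1 1 1 = true :=
  ⟨(l 4), by decide +kernel⟩

theorem c_pp_033 : CertNX 0 536870912 0 1230186008 1046898278 26843546 3 true true true .pnn 0 3 3
    ndN6q0 ndN6q3 pcN3 Cut.none Ext.none :=
  certNX0 (fam := true) (s1 := true) (s2 := true) (a := 0) (b := 3) (c := 3) (cn := .pnn) (n1 := ndN6q0) (n2 := ndN6q3) (pc := pcN3) (cut := Cut.none) (xt := Ext.none) (P1 := 0) (W1 := 536870912) (P2 := 0) (W2 := 1230186008) (P3 := 1046898278) (W3 := 26843546) (N0 := 3)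
    rfl k0_pp_033

noncomputable def f_pp_101 : ℕ → ℕ → ℕ → ℕ → Bool := onCell 536870912 469762048 0 536870912 1046898278 26843546
    (rowNX 3 0 true true true .npn 1 0 1 (qsf 536870912 469762048 0 536870912 1) ndN6q1 ndN6q0 pcN1 Cut.none Ext.none)

def k0_pp_101 : ∃ t, chk3 f_pp_101 t 1 1 1 = true :=
  ⟨(l 4), by decide +kernel⟩

theorem c_pp_101 : CertNX 536870912 469762048 0 536870912 1046898278 26843546 3 true true true .npn 1 0 1
    ndN6q1 ndN6q0 pcN1 Cut.none Ext.none :=
  certNX0 (fam := true) (s1 := true) (s2 := true) (a := 1) (b := 0) (c := 1) (cn := .npn) (n1 := ndN6q1) (n2 := ndN6q0) (pc := pcN1) (cut := Cut.none) (xt := Ext.none) (P1 := 536870912) (W1 := 469762048) (P2 := 0) (W2 := 536870912) (P3 := 1046898278) (W3 := 26843546) (N0 := 3)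
    rfl k0_pp_101

noncomputable def f_pp_102 : ℕ → ℕ → ℕ → ℕ → Bool := onCell 536870912 469762048 0 536870912 1046898278 26843546
    (rowNX 3 0 true true true .npp 1 0 2 (qsf 536870912 469762048 0 536870912 2) ndN6q1 ndN6q0 pcN2 Cut.none Ext.none)

def k0_pp_102 : ∃ t, chk3 f_pp_102 t 1 1 1 = true :=
  ⟨(l 4), by decide +kernel⟩

theorem c_pp_102 : CertNX 536870912 469762048 0 536870912 1046898278 26843546 3 true true true .npp 1 0 2
    ndN6q1 ndN6q0 pcN2 Cut.none Ext.none :=
  certNX0 (fam := true) (s1 := true) (s2 := true) (a := 1) (b := 0) (c := 2) (cn := .npp) (n1 := ndN6q1) (n2 := ndN6q0) (pc := pcN2) (cut := Cut.none) (xt := Ext.none) (P1 := 536870912) (W1 := 469762048) (P2 := 0) (W2 := 536870912) (P3 := 1046898278) (W3 := 26843546) (N0 := 3)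
    rfl k0_pp_102

noncomputable def f_pp_112 : ℕ → ℕ → ℕ → ℕ → Bool := onCell 536870912 469762048 536870912 469762048 1046898278 26843546
    (rowNX 3 0 true true true .dn 1 1 2 (qsf 536870912 469762048 536870912 469762048 2) ndN6q1 ndN6q1 pcN2 Cut.none Ext.none)

def k0_pp_112 : ∃ t, chk3 f_pp_112 t 1 1 1 = true :=
  ⟨(l 4), by decide +kernel⟩

theorem c_pp_112 : CertNX 536870912 469762048 536870912 469762048 1046898278 26843546 3 true true true .dn 1 1 2
    ndN6q1 ndN6q1 pcN2 Cut.none Ext.none :=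
  certNX0 (fam := true) (s1 := true) (s2 := true) (a := 1) (b := 1) (c := 2) (cn := .dn) (n1 := ndN6q1) (n2 := ndN6q1) (pc := pcN2) (cut := Cut.none) (xt := Ext.none) (P1 := 536870912) (W1 := 469762048) (P2 := 536870912) (W2 := 469762048) (P3 := 1046898278) (W3 := 26843546) (N0 := 3)
    rfl k0_pp_112

noncomputable def f_pp_113 : ℕ → ℕ → ℕ → ℕ → Bool := onCell 536870912 469762048 536870912 469762048 1046898278 26843546
    (rowNX 3 0 true true true .nn 1 1 3 (qsf 536870912 469762048 536870912 469762048 3) ndN6q1 ndN6q1 pcN3 Cut.none Ext.none)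

def k0_pp_113 : ∃ t, chk3 f_pp_113 t 1 1 1 = true :=
  ⟨(l 4), by decide +kernel⟩

theorem c_pp_113 : CertNX 536870912 469762048 536870912 469762048 1046898278 26843546 3 true true true .nn 1 1 3
    ndN6q1 ndN6q1 pcN3 Cut.none Ext.none :=
  certNX0 (fam := true) (s1 := true) (s2 := true) (a := 1) (b := 1) (c := 3) (cn := .nn) (n1 := ndN6q1) (n2 := ndN6q1) (pc := pcN3) (cut := Cut.none) (xt := Ext.none) (P1 := 536870912) (W1 := 469762048) (P2 := 536870912) (W2 := 469762048) (P3 := 1046898278) (W3 := 26843546) (N0 := 3)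
    rfl k0_pp_113

noncomputable def f_pp_123 : ℕ → ℕ → ℕ → ℕ → Bool := onCell 536870912 469762048 1073741824 536870912 1046898278 26843546
    (rowNX 3 0 true true true .npn 1 2 3 (qsf 536870912 469762048 1073741824 536870912 3) ndN6q1 ndN6q2 pcN3 Cut.none Ext.none)

def k0_pp_123 : ∃ t, chk3 f_pp_123 t 1 1 1 = true :=
  ⟨(l 4), by decide +kernel⟩

theorem c_pp_123 : CertNX 536870912 469762048 1073741824 536870912 1046898278 26843546 3 true true true .npn 1 2 3
    ndN6q1 ndN6q2 pcN3 Cut.none Ext.none :=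
  certNX0 (fam := true) (s1 := true) (s2 := true) (a := 1) (b := 2) (c := 3) (cn := .npn) (n1 := ndN6q1) (n2 := ndN6q2) (pc := pcN3) (cut := Cut.none) (xt := Ext.none) (P1 := 536870912) (W1 := 469762048) (P2 := 1073741824) (W2 := 536870912) (P3 := 1046898278) (W3 := 26843546) (N0 := 3)
    rfl k0_pp_123

noncomputable def f_pp_133 : ℕ → ℕ → ℕ → ℕ → Bool := onCell 536870912 469762048 0 1230186008 1046898278 26843546
    (rowNX 3 0 true true true .dn 1 3 3 (qsf 536870912 469762048 0 1230186008 3) ndN6q1 ndN6q3 pcN3 Cut.none Ext.none)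

def k0_pp_133 : ∃ t, chk3 f_pp_133 t 1 1 1 = true :=
  ⟨(l 4), by decide +kernel⟩

theorem c_pp_133 : CertNX 536870912 469762048 0 1230186008 1046898278 26843546 3 true true true .dn 1 3 3
    ndN6q1 ndN6q3 pcN3 Cut.none Ext.none :=
  certNX0 (fam := true) (s1 := true) (s2 := true) (a := 1) (b := 3) (c := 3) (cn := .dn) (n1 := ndN6q1) (n2 := ndN6q3) (pc := pcN3) (cut := Cut.none) (xt := Ext.none) (P1 := 536870912) (W1 := 469762048) (P2 := 0) (W2 := 1230186008) (P3 := 1046898278) (W3 := 26843546) (N0 := 3)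
    rfl k0_pp_133

noncomputable def f_pp_202 : ℕ → ℕ → ℕ → ℕ → Bool := onCell 1073741824 536870912 0 536870912 1046898278 26843546
    (rowNX 3 0 true true true .pp 2 0 2 (qsf 1073741824 536870912 0 536870912 2) ndN6q2 ndN6q0 pcN2 Cut.none Ext.none)

def k0_pp_202 : ∃ t, chk3 f_pp_202 t 1 1 1 = true :=
  ⟨(l 4), by decide +kernel⟩

theorem c_pp_202 : CertNX 1073741824 536870912 0 536870912 1046898278 26843546 3 true true true .pp 2 0 2
    ndN6q2 ndN6q0 pcN2 Cut.none Ext.none :=
  certNX0 (fam := true) (s1 := true) (s2 := true) (a := 2) (b := 0) (c := 2) (cn := .pp) (n1 := ndN6q2) (n2 := ndN6q0) (pc := pcN2) (cut := Cut.none) (xt := Ext.none) (P1 := 1073741824) (W1 := 536870912) (P2 := 0) (W2 := 536870912) (P3 := 1046898278) (W3 := 26843546) (N0 := 3)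
    rfl k0_pp_202

noncomputable def f_pp_203 : ℕ → ℕ → ℕ → ℕ → Bool := onCell 1073741824 536870912 0 536870912 1046898278 26843546
    (rowNX 3 0 true true true .up 2 0 3 (qsf 1073741824 536870912 0 536870912 3) ndN6q2 ndN6q0 pcN3 Cut.none Ext.none)

def k0_pp_203 : ∃ t, chk3 f_pp_203 t 1 1 1 = true :=
  ⟨(l 4), by decide +kernel⟩

theorem c_pp_203 : CertNX 1073741824 536870912 0 536870912 1046898278 26843546 3 true true true .up 2 0 3
    ndN6q2 ndN6q0 pcN3 Cut.none Ext.none :=
  certNX0 (fam := true) (s1 := true) (s2 := true) (a := 2) (b := 0) (c := 3) (cn := .up) (n1 := ndN6q2) (n2 := ndN6q0) (pc := pcN3) (cut := Cut.none) (xt := Ext.none) (P1 := 1073741824) (W1 := 536870912) (P2 := 0) (W2 := 536870912) (P3 := 1046898278) (W3 := 26843546) (N0 := 3)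
    rfl k0_pp_203

noncomputable def f_pp_213 : ℕ → ℕ → ℕ → ℕ → Bool := onCell 1073741824 536870912 536870912 469762048 1046898278 26843546
    (rowNX 3 0 true true true .pnn 2 1 3 (qsf 1073741824 536870912 536870912 469762048 3) ndN6q2 ndN6q1 pcN3 Cut.none Ext.none)

def k0_pp_213 : ∃ t, chk3 f_pp_213 t 1 1 1 = true :=
  ⟨(l 4), by decide +kernel⟩

theorem c_pp_213 : CertNX 1073741824 536870912 536870912 469762048 1046898278 26843546 3 true true true .pnn 2 1 3
    ndN6q2 ndN6q1 pcN3 Cut.none Ext.none :=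
  certNX0 (fam := true) (s1 := true) (s2 := true) (a := 2) (b := 1) (c := 3) (cn := .pnn) (n1 := ndN6q2) (n2 := ndN6q1) (pc := pcN3) (cut := Cut.none) (xt := Ext.none) (P1 := 1073741824) (W1 := 536870912) (P2 := 536870912) (W2 := 469762048) (P3 := 1046898278) (W3 := 26843546) (N0 := 3)
    rfl k0_pp_213

noncomputable def f_pp_303 : ℕ → ℕ → ℕ → ℕ → Bool := onCell 0 1230186008 0 536870912 1046898278 26843546
    (rowNX 3 0 true true true .npn 3 0 3 (qsf 0 1230186008 0 536870912 3) ndN6q3 ndN6q0 pcN3 Cut.none Ext.none)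

def k0_pp_303 : ∃ t, chk3 f_pp_303 t 1 1 1 = true :=
  ⟨(l 4), by decide +kernel⟩

theorem c_pp_303 : CertNX 0 1230186008 0 536870912 1046898278 26843546 3 true true true .npn 3 0 3
    ndN6q3 ndN6q0 pcN3 Cut.none Ext.none :=
  certNX0 (fam := true) (s1 := true) (s2 := true) (a := 3) (b := 0) (c := 3) (cn := .npn) (n1 := ndN6q3) (n2 := ndN6q0) (pc := pcN3) (cut := Cut.none) (xt := Ext.none) (P1 := 0) (W1 := 1230186008) (P2 := 0) (W2 := 536870912) (P3 := 1046898278) (W3 := 26843546) (N0 := 3)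
    rfl k0_pp_303

noncomputable def f_pp_313 : ℕ → ℕ → ℕ → ℕ → Bool := onCell 0 1230186008 536870912 469762048 1046898278 26843546
    (rowNX 3 0 true true true .dn 3 1 3 (qsf 0 1230186008 536870912 469762048 3) ndN6q3 ndN6q1 pcN3 Cut.none Ext.none)

def k0_pp_313 : ∃ t, chk3 f_pp_313 t 1 1 1 = true :=
  ⟨(l 4), by decide +kernel⟩

theorem c_pp_313 : CertNX 0 1230186008 536870912 469762048 1046898278 26843546 3 true true true .dn 3 1 3
    ndN6q3 ndN6q1 pcN3 Cut.none Ext.none :=
  certNX0 (fam := true) (s1 := true) (s2 := true) (a := 3) (b := 1) (c := 3) (cn := .dn) (n1 := ndN6q3) (n2 := ndN6q1) (pc := pcN3) (cut := Cut.none) (xt := Ext.none) (P1 := 0) (W1 := 1230186008) (P2 := 536870912) (W2 := 469762048) (P3 := 1046898278) (W3 := 26843546) (N0 := 3)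
    rfl k0_pp_313

noncomputable def f_pm_001 : ℕ → ℕ → ℕ → ℕ → Bool := onCell 0 536870912 0 536870912 1046898278 26843546
    (rowNX 3 0 true true false .up 0 0 1 (qsf 0 536870912 0 536870912 1) ndN6q0 ndN6q0 pcN1 Cut.none Ext.none)

def k0_pm_001 : ∃ t, chk3 f_pm_001 t 1 1 1 = true :=
  ⟨(l 3), by decide +kernel⟩

theorem c_pm_001 : CertNX 0 536870912 0 536870912 1046898278 26843546 3 true true false .up 0 0 1
    ndN6q0 ndN6q0 pcN1 Cut.none Ext.none :=
  certNX0 (fam := true) (s1 := true) (s2 := false) (a := 0) (b := 0) (c := 1) (cn := .up) (n1 := ndN6q0) (n2 := ndN6q0) (pc := pcN1) (cut := Cut.none) (xt := Ext.none) (P1 := 0) (W1 := 536870912) (P2 := 0) (W2 := 536870912) (P3 := 1046898278) (W3 := 26843546) (N0 := 3)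
    rfl k0_pm_001

noncomputable def f_pm_011 : ℕ → ℕ → ℕ → ℕ → Bool := onCell 0 536870912 536870912 536870912 1046898278 26843546
    (rowNX 3 1 true true false .pnn 0 1 1 (qsf 0 536870912 536870912 469762048 1) ndN6q0 ndN6q1 pcN1 Cut.none Ext.none)

def k0_pm_011 : ∃ t, chk3 f_pm_011 t 1 1 1 = true :=
  ⟨(l 3), by decide +kernel⟩

theorem c_pm_011 : CertNX 0 536870912 536870912 469762048 1046898278 26843546 3 true true false .pnn 0 1 1
    ndN6q0 ndN6q1 pcN1 Cut.none Ext.none :=
  certNX1 (fam := true) (s1 := true) (s2 := false) (a := 0) (b := 1) (c := 1) (cn := .pnn) (n1 := ndN6q0) (n2 := ndN6q1) (pc := pcN1) (cut := Cut.none) (xt := Ext.none) (P1 := 0) (W1 := 536870912) (P2 := 536870912) (W2 := 469762048) (P3 := 1046898278) (W3 := 26843546) (N0 := 3)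
    rfl (fun _ => rfl) k0_pm_011

noncomputable def f_pm_012 : ℕ → ℕ → ℕ → ℕ → Bool := onCell 1073741824 536870912 536870912 469762048 1046898278 26843546
    (rowNX 3 2 true true false .pnp 0 1 2 (qsf 0 536870912 536870912 469762048 2) ndN6q0 ndN6q1 pcN2 Cut.none Ext.none)

def k0_pm_012 : ∃ t, chk3 f_pm_012 t 1 1 1 = true :=
  ⟨(a (a (l 3) (a (a (a (l 3) (a (l 3) (a (l 3) (a (b (l 3) (l 3)) (b (l 16777216) (b (b (l 16777216) (b (l 16505280) (l 15553200))) (b (l 14091560) (c (b (l 13647752) (l 13594080)) (l 13515056))))))))) (b (l 16777216) (b (b (l 16777216) (l 16036480)) (b (l 14238360) (b (l 13591576) (c (l 13593072) (l 13454336))))))) (b (l 16777216) (b (b (l 16777216) (l 16036480)) (b (l 14238360) (b (l 13591576) (c (l 13592992) (l 13454256)))))))) (b (l 2) (b (b (l 16777216) (b (l 16505280) (l 15553200))) (b (b (l 14529856) (l 13939560)) (c (b (l 13647752) (l 13592992)) (l 13514480)))))), by decide +kernel⟩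

theorem c_pm_012 : CertNX 0 536870912 536870912 469762048 1046898278 26843546 3 true true false .pnp 0 1 2
    ndN6q0 ndN6q1 pcN2 Cut.none Ext.none :=
  certNX2 (fam := true) (s1 := true) (s2 := false) (a := 0) (b := 1) (c := 2) (cn := .pnp) (n1 := ndN6q0) (n2 := ndN6q1) (pc := pcN2) (cut := Cut.none) (xt := Ext.none) (P1 := 0) (W1 := 536870912) (P2 := 536870912) (W2 := 469762048) (P3 := 1046898278) (W3 := 26843546) (N0 := 3)
    rfl (fun _ => rfl) k0_pm_012

noncomputable def f_pm_022 : ℕ → ℕ → ℕ → ℕ → Bool := onCell 0 536870912 1073741824 536870912 1046898278 26843546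
    (rowNX 3 1 true true false .pp 0 2 2 (qsf 0 536870912 1073741824 536870912 2) ndN6q0 ndN6q2 pcN2 Cut.none Ext.none)

def k0_pm_022 : ∃ t, chk3 f_pm_022 t 2 4 1 = true :=
  ⟨(b (a (l 3) (l 1)) (a (b (b (a (b (a (l 3) (l 3)) (a (a (c (a (l 15566792) (a (l 15509712) (l 15480376))) (a (c (l 15526904) (a (l 15517288) (l 15485904))) (l 401744060151))) (c (a (l 15447840) (l 15383240)) (l 15341024))) (c (a (l 15260888) (l 15099016)) (l 15100056)))) (a (c (b (l 479052026087) (l 14897504)) (b (l 14657992) (l 14832752))) (l 1))) (a (a (a (c (a (b (l 15666544) (l 15722400)) (c (b (l 15619328) (l 15729856)) (b (l 15604528) (l 15717000)))) (a (c (b (l 15629576) (l 15687192)) (a (b (l 15616304) (l 15653152)) (b (l 15604008) (l 15677128)))) (c (b (l 15583928) (l 15698480)) (l 15612376)))) (c (c (a (l 15648968) (l 15592928)) (l 15543480)) (b (l 15460816) (l 15599344)))) (c (b (a (l 15377992) (l 15220024)) (l 15440832)) (b (l 15239224) (l 15383328)))) (a (b (c (l 15025584) (l 14965624))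 (l 15143856)) (b (l 1) (l 14877848))))) (a (a (b (a (c (a (l 15754160) (b (c (l 15804024) (l 15792480)) (l 15798152))) (a (c (b (l 15724264) (l 15721928)) (a (b (l 15689584) (l 15687384)) (l 15711632))) (c (l 15771816) (l 15745200)))) (c (b (a (l 15822368) (l 15779264)) (l 15855912)) (b (l 15739720) (l 15803448)))) (a (c (a (l 15754168) (l 15544088)) (a (c (l 15720744) (l 15510000)) (l 15761720))) (c (l 15627312) (l 15828232)))) (b (c (b (l 15595640) (l 15708712)) (l 15411776)) (c (a (l 15893960) (l 15793904)) (l 15795584)))) (a (b (b (l 15162208) (l 15431608)) (c (l 15614352) (l 15576352))) (b (b (l 15049264) (l 15178064)) (l 15342560))))) (b (l 1) (b (l 1) (a (b (l 1) (l 14866160)) (l 1)))))), by decide +kernel⟩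

def k1_pm_022 : ∃ t, chk3 f_pm_022 t 4 5 1 = true :=
  ⟨(b (a (b (b (a (a (c (a (l 15677040) (b (l 15772864) (l 15644760))) (a (c (b (l 15709224) (l 15582560)) (b (l 15687256) (l 15558472))) (b (l 15738272) (l 15605672)))) (c (b (l 15837392) (l 15706032)) (l 15713304))) (a (l 15788488) (l 15705048))) (a (a (b (c (a (l 15544016) (l 15484776)) (a (c (l 15505808) (l 15438560)) (l 15440040))) (c (b (a (l 15554648) (l 15372776)) (a (l 15579552) (b (l 15330336) (l 15328384)))) (a (b (c (l 15516904) (l 15491896)) (c (l 15542600) (a (l 15583912) (l 15453088)))) (b (l 15324080) (l 15077072))))) (b (c (l 15543792) (l 15482840)) (c (b (l 15398856) (l 15221016)) (b (l 15333040) (l 15214216))))) (b (l 15421264) (b (l 15462352) (c (l 15374320) (l 15316984)))))) (a (a (c (a (l 16020520) (b (l 15558296) (l 15993336))) (a (c (l 15954272) (a (l 16042080) (l 15919248))) (c (l 15752792) (l 15728104)))) (c (b (l 15176088) (l 15642696)) (l 15213432))) (a (b (l 15191504) (l 15233464)) (l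 15193904)))) (b (b (a (l 15662016) (l 15400432)) (a (b (l 15587944) (b (l 15510144) (a (l 15456880) (l 15416816)))) (b (l 15339888) (b (l 15280032) (l 15226880))))) (a (l 15301928) (l 15274040)))) (a (a (b (a (c (a (l 16244080) (l 16475152)) (a (c (l 16243512) (l 16242120)) (l 16471888))) (c (l 16164368) (l 16282672))) (a (c (a (l 15704392) (l 15764232)) (a (l 15448880) (l 15774808))) (c (l 16018064) (l 16020120)))) (b (a (l 15607928) (b (l 15197032) (l 15561096))) (a (l 16408216) (l 16235744)))) (a (b (a (l 15181776) (l 15174640)) (a (l 15768704) (l 15383152))) (b (l 15284496) (l 15185568))))), by decide +kernel⟩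

def k2_pm_022 : ∃ t, chk3 f_pm_022 t 5 5 1 = true :=
  ⟨(a (b (b (b (l 14876456) (b (l 14829544) (b (l 14777616) (l 14731264)))) (l 14822496)) (b (l 15056112) (l 15139848))) (b (b (l 1) (l 14042680)) (b (l 14339024) (l 14606528)))), by decide +kernel⟩

def k3_pm_022 : ∃ t, chk3 f_pm_022 t 2 3 1 = true :=
  ⟨(a (a (b (a (c (a (b (l 15697808) (l 15697808)) (b (l 15759712) (l 15759496))) (a (c (l 15427440) (l 15603560)) (l 15750488))) (b (b (l 15809200) (l 15878544)) (l 15878288))) (a (a (c (l 15697808) (l 15588256)) (l 15746792)) (l 15878288))) (b (b (a (b (l 16361504) (l 16169304)) (b (l 15379504) (l 16313392))) (a (l 16003712) (b (l 16253024) (l 16104320)))) (a (l 16003560) (l 16104120)))) (b (b (a (b (a (l 15074560) (l 15067304)) (a (b (l 15218232) (l 15581344)) (l 14930240))) (l 14782824)) (a (b (a (l 16220896) (l 15293744)) (a (l 16383400) (l 16104528))) (b (a (l 14779672) (l 14816936)) (a (l 15159208) (l 14704520))))) (a (b (l 16409288) (l 16352576)) (b (b (a (l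 15986272) (l 15092744)) (l 16251680)) (l 16697312))))), by decide +kernel⟩

def k4_pm_022 : ∃ t, chk3 f_pm_022 t 3 1 1 = true :=
  ⟨(b (b (l 1) (b (l 1) (b (l 1) (a (l 13893240) (l 1))))) (b (b (a (l 14236072) (l 1)) (a (b (l 14546720) (l 14662088)) (l 611523017895))) (a (b (a (b (l 14851856) (l 14892912)) (l 14737424)) (a (b (l 15531512) (l 16225944)) (b (l 14851856) (l 14976800)))) (b (l 14236072) (l 14577416))))), by decide +kernel⟩

theorem s5_pm_022 : ∃ t, chk3 f_pm_022 t 2 5 1 = true := ex3_a k1_pm_022 k2_pm_022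

theorem s6_pm_022 : ∃ t, chk3 f_pm_022 t 2 2 1 = true := ex3_b k0_pm_022 s5_pm_022

theorem s7_pm_022 : ∃ t, chk3 f_pm_022 t 2 1 1 = true := ex3_b s6_pm_022 k3_pm_022

theorem s8_pm_022 : ∃ t, chk3 f_pm_022 t 1 1 1 = true := ex3_a s7_pm_022 k4_pm_022

theorem c_pm_022 : CertNX 0 536870912 1073741824 536870912 1046898278 26843546 3 true true false .pp 0 2 2
    ndN6q0 ndN6q2 pcN2 Cut.none Ext.none :=
  certNX1 (fam := true) (s1 := true) (s2 := false) (a := 0) (b := 2) (c := 2) (cn := .pp) (n1 := ndN6q0) (n2 := ndN6q2) (pc := pcN2) (cut := Cut.none) (xt := Ext.none) (P1 := 0) (W1 := 536870912) (P2 := 1073741824) (W2 := 536870912) (P3 := 1046898278) (W3 := 26843546) (N0 := 3)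
    rfl (fun _ => rfl) s8_pm_022

noncomputable def f_pm_023 : ℕ → ℕ → ℕ → ℕ → Bool := onCell 1610612736 536870912 1073741824 536870912 1046898278 26843546
    (rowNX 3 2 true true false .up 0 2 3 (qsf 0 536870912 1073741824 536870912 3) ndN6q0 ndN6q2 pcN3 Cut.none Ext.none)

def k0_pm_023 : ∃ t, chk3 f_pm_023 t 1 1 1 = true :=
  ⟨(b (a (b (a (l 14737424) (l 14737424)) (b (a (l 15092648) (l 15092648)) (a (l 16567944) (l 16567944)))) (a (b (l 2) (b (l 2) (a (l 16567952) (l 2)))) (l 2))) (a (a (b (l 16620232) (a (b (a (l 16099536) (l 16273568)) (a (b (l 15939408) (c (l 15818808) (l 15788552))) (l 16008816))) (b (l 16521384) (a (l 16162448) (l 16273568))))) (a (l 16642616) (l 16767936))) (a (a (l 16777208) (l 16777176)) (a (l 16767848) (l 4))))), by decide +kernel⟩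

theorem c_pm_023 : CertNX 0 536870912 1073741824 536870912 1046898278 26843546 3 true true false .up 0 2 3
    ndN6q0 ndN6q2 pcN3 Cut.none Ext.none :=
  certNX2 (fam := true) (s1 := true) (s2 := false) (a := 0) (b := 2) (c := 3) (cn := .up) (n1 := ndN6q0) (n2 := ndN6q2) (pc := pcN3) (cut := Cut.none) (xt := Ext.none) (P1 := 0) (W1 := 536870912) (P2 := 1073741824) (W2 := 536870912) (P3 := 1046898278) (W3 := 26843546) (N0 := 3)
    rfl (fun _ => rfl) k0_pm_023

noncomputable def f_pm_033 : ℕ → ℕ → ℕ → ℕ → Bool := onCell 0 536870912 0 1230186008 1046898278 26843546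
    (rowNX 3 0 true true false .pnn 0 3 3 (qsf 0 536870912 0 1230186008 3) ndN6q0 ndN6q3 pcN3 Cut.none Ext.none)

def k0_pm_033 : ∃ t, chk3 f_pm_033 t 1 1 1 = true :=
  ⟨(b (l 4) (b (a (a (b (l 4) (a (a (b (l 4) (c (l 15732384) (l 15709456))) (l 4)) (l 4))) (l 4)) (l 4)) (a (b (a (a (a (c (b (l 15732384) (l 15732384)) (b (l 15709464) (l 15709464))) (c (l 15888656) (l 15870744))) (a (b (l 16003552) (l 16003560)) (b (l 4) (l 16104112)))) (a (b (l 4) (l 16352552)) (l 4))) (a (a (b (a (l 15761824) (l 15878288)) (a (l 15719880) (l 15878288))) (b (a (l 16003560) (l 16104120)) (l 16079352))) (a (b (l 16352576) (l 16352576)) (b (l 16722672) (l 16722696))))) (b (l 4) (a (b (l 4) (a (l 16777192) (b (l 4) (l 16776008)))) (l 4)))))), by decide +kernel⟩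

theorem c_pm_033 : CertNX 0 536870912 0 1230186008 1046898278 26843546 3 true true false .pnn 0 3 3
    ndN6q0 ndN6q3 pcN3 Cut.none Ext.none :=
  certNX0 (fam := true) (s1 := true) (s2 := false) (a := 0) (b := 3) (c := 3) (cn := .pnn) (n1 := ndN6q0) (n2 := ndN6q3) (pc := pcN3) (cut := Cut.none) (xt := Ext.none) (P1 := 0) (W1 := 536870912) (P2 := 0) (W2 := 1230186008) (P3 := 1046898278) (W3 := 26843546) (N0 := 3)
    rfl k0_pm_033

noncomputable def f_pm_101 : ℕ → ℕ → ℕ → ℕ → Bool := onCell 536870912 536870912 0 536870912 1046898278 26843546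
    (rowNX 3 2 true true false .npn 1 0 1 (qsf 536870912 469762048 0 536870912 1) ndN6q1 ndN6q0 pcN1 Cut.none Ext.none)

def k0_pm_101 : ∃ t, chk3 f_pm_101 t 1 1 1 = true :=
  ⟨(l 3), by decide +kernel⟩

theorem c_pm_101 : CertNX 536870912 469762048 0 536870912 1046898278 26843546 3 true true false .npn 1 0 1
    ndN6q1 ndN6q0 pcN1 Cut.none Ext.none :=
  certNX2 (fam := true) (s1 := true) (s2 := false) (a := 1) (b := 0) (c := 1) (cn := .npn) (n1 := ndN6q1) (n2 := ndN6q0) (pc := pcN1) (cut := Cut.none) (xt := Ext.none) (P1 := 536870912) (W1 := 469762048) (P2 := 0) (W2 := 536870912) (P3 := 1046898278) (W3 := 26843546) (N0 := 3)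
    rfl (fun _ => rfl) k0_pm_101

noncomputable def f_pm_102 : ℕ → ℕ → ℕ → ℕ → Bool := onCell 536870912 469762048 1073741824 536870912 1046898278 26843546
    (rowNX 3 1 true true false .npp 1 0 2 (qsf 536870912 469762048 0 536870912 2) ndN6q1 ndN6q0 pcN2 Cut.none Ext.none)

def k0_pm_102 : ∃ t, chk3 f_pm_102 t 1 1 1 = true :=
  ⟨(b (b (l 3) (b (b (b (l 3) (b (l 3) (b (l 3) (b (a (l 3) (l 3)) (a (l 16777216) (a (a (l 16777216) (a (l 16505280) (l 15553200))) (a (l 14091560) (c (a (l 13647752) (l 13594080)) (l 13515056))))))))) (a (l 16777216) (a (a (l 16777216) (l 16036480)) (a (l 14238360) (a (l 13591576) (c (l 13593072) (l 13454336))))))) (a (l 16777216) (a (a (l 16777216) (l 16036480)) (a (l 14238360) (a (l 13591576) (c (l 13592992) (l 13454256)))))))) (a (l 2) (a (a (l 16777216) (a (l 16505280) (l 15553200))) (a (a (l 14529856) (l 13939560)) (c (a (l 13647752) (l 13592992)) (l 13514480)))))), by decide +kernel⟩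

theorem c_pm_102 : CertNX 536870912 469762048 0 536870912 1046898278 26843546 3 true true false .npp 1 0 2
    ndN6q1 ndN6q0 pcN2 Cut.none Ext.none :=
  certNX1 (fam := true) (s1 := true) (s2 := false) (a := 1) (b := 0) (c := 2) (cn := .npp) (n1 := ndN6q1) (n2 := ndN6q0) (pc := pcN2) (cut := Cut.none) (xt := Ext.none) (P1 := 536870912) (W1 := 469762048) (P2 := 0) (W2 := 536870912) (P3 := 1046898278) (W3 := 26843546) (N0 := 3)
    rfl (fun _ => rfl) k0_pm_102

noncomputable def f_pm_112 : ℕ → ℕ → ℕ → ℕ → Bool := onCell 536870912 469762048 1073741824 536870912 1046898278 26843546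
    (rowNX 3 1 true true false .dn 1 1 2 (qsf 536870912 469762048 536870912 469762048 2) ndN6q1 ndN6q1 pcN2 Cut.none Ext.none)

def k0_pm_112 : ∃ t, chk3 f_pm_112 t 1 1 1 = true :=
  ⟨(b (b (l 3) (a (b (b (b (l 3) (b (l 3) (b (l 3) (b (l 3) (l 16777216))))) (l 16777216)) (l 16777216)) (a (b (l 1) (a (l 16777216) (l 1))) (l 1)))) (a (b (a (b (a (l 16628160) (l 16777216)) (a (b (l 15950160) (l 14882960)) (l 16545664))) (l 16777216)) (a (b (a (a (c (b (l 13908888) (l 13673736)) (l 13752480)) (b (l 14397992) (l 13751240))) (b (l 15625040) (l 14756528))) (b (a (c (a (l 13446904) (l 13629768)) (l 13423672)) (a (l 13750856) (l 14205088))) (a (a (l 2) (c (l 13416296) (l 13303128))) (a (l 13337624) (l 13711912))))) (b (a (l 16444080) (l 16777216)) (a (l 14894248) (l 16322904))))) (a (a (l 16777144) (l 493952808695)) (a (l 531530176295) (a (l 522938948135) (c (l 13592992) (l 13454256))))))), by decide +kernel⟩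

theorem c_pm_112 : CertNX 536870912 469762048 536870912 469762048 1046898278 26843546 3 true true false .dn 1 1 2
    ndN6q1 ndN6q1 pcN2 Cut.none Ext.none :=
  certNX1 (fam := true) (s1 := true) (s2 := false) (a := 1) (b := 1) (c := 2) (cn := .dn) (n1 := ndN6q1) (n2 := ndN6q1) (pc := pcN2) (cut := Cut.none) (xt := Ext.none) (P1 := 536870912) (W1 := 469762048) (P2 := 536870912) (W2 := 469762048) (P3 := 1046898278) (W3 := 26843546) (N0 := 3)
    rfl (fun _ => rfl) k0_pm_112

noncomputable def f_pm_113 : ℕ → ℕ → ℕ → ℕ → Bool := onCell 536870912 469762048 536870912 469762048 1046898278 26843546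
    (rowNX 3 0 true true false .nn 1 1 3 (qsf 536870912 469762048 536870912 469762048 3) ndN6q1 ndN6q1 pcN3 Cut.none Ext.none)

def k0_pm_113 : ∃ t, chk3 f_pm_113 t 1 1 1 = true :=
  ⟨(b (a (l 1) (a (a (l 1) (l 16036480)) (a (l 14238360) (a (l 13591576) (l 13395776))))) (a (b (b (l 1) (l 16036480)) (b (l 14238360) (b (l 13591576) (l 13395776)))) (b (a (b (l 16418584) (a (l 16036480) (l 15317296))) (a (b (l 14238360) (l 13539448)) (b (l 13591632) (a (l 12901832) (l 12837680))))) (a (b (a (l 14238360) (l 13539448)) (a (l 13591632) (b (l 12901832) (l 12837680)))) (b (a (l 11832568) (a (l 11239000) (l 11204208))) (a (b (l 11239000) (l 11204208)) (c (c (l 11186448) (l 10901920)) (l 10421672)))))))), by decide +kernel⟩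

theorem c_pm_113 : CertNX 536870912 469762048 536870912 469762048 1046898278 26843546 3 true true false .nn 1 1 3
    ndN6q1 ndN6q1 pcN3 Cut.none Ext.none :=
  certNX0 (fam := true) (s1 := true) (s2 := false) (a := 1) (b := 1) (c := 3) (cn := .nn) (n1 := ndN6q1) (n2 := ndN6q1) (pc := pcN3) (cut := Cut.none) (xt := Ext.none) (P1 := 536870912) (W1 := 469762048) (P2 := 536870912) (W2 := 469762048) (P3 := 1046898278) (W3 := 26843546) (N0 := 3)
    rfl k0_pm_113

noncomputable def f_pm_123 : ℕ → ℕ → ℕ → ℕ → Bool := onCell 1610612736 536870912 1073741824 536870912 1046898278 26843546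
    (rowNX 3 2 true true false .npn 1 2 3 (qsf 536870912 469762048 1073741824 536870912 3) ndN6q1 ndN6q2 pcN3 Cut.none Ext.none)

def k0_pm_123 : ∃ t, chk3 f_pm_123 t 1 1 1 = true :=
  ⟨(a (b (b (a (l 14737424) (l 14737424)) (b (a (l 15092648) (l 15092648)) (l 547640878935))) (a (l 1) (l 608845168647))) (a (b (b (a (b (l 14563704) (l 14816832)) (b (b (l 13404296) (l 14418312)) (l 14792464))) (b (a (l 15092664) (l 15092704)) (a (l 16567952) (l 16567984)))) (a (l 16777208) (l 16777176))) (a (b (b (b (a (b (a (l 12805440) (l 12812096)) (l 14067232)) (b (c (a (l 13267552) (l 13539336)) (l 12705864)) (a (l 14156344) (l 14363736)))) (a (l 14819800) (l 15072016))) (b (a (l 15092984) (b (l 14786888) (l 15488296))) (l 16575848))) (l 16767848)) (b (a (a (b (b (b (c (l 13899808) (l 13042760)) (l 4)) (l 4)) (l 4)) (l 4)) (l 4)) (l 4))))), by decide +kernel⟩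

theorem c_pm_123 : CertNX 536870912 469762048 1073741824 536870912 1046898278 26843546 3 true true false .npn 1 2 3
    ndN6q1 ndN6q2 pcN3 Cut.none Ext.none :=
  certNX2 (fam := true) (s1 := true) (s2 := false) (a := 1) (b := 2) (c := 3) (cn := .npn) (n1 := ndN6q1) (n2 := ndN6q2) (pc := pcN3) (cut := Cut.none) (xt := Ext.none) (P1 := 536870912) (W1 := 469762048) (P2 := 1073741824) (W2 := 536870912) (P3 := 1046898278) (W3 := 26843546) (N0 := 3)
    rfl (fun _ => rfl) k0_pm_123

noncomputable def f_pm_133 : ℕ → ℕ → ℕ → ℕ → Bool := onCell 536870912 469762048 0 1230186008 1046898278 26843546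
    (rowNX 3 0 true true false .dn 1 3 3 (qsf 536870912 469762048 0 1230186008 3) ndN6q1 ndN6q3 pcN3 Cut.none Ext.none)

def k0_pm_133 : ∃ t, chk3 f_pm_133 t 1 1 1 = true :=
  ⟨(b (l 2) (l 4)), by decide +kernel⟩

theorem c_pm_133 : CertNX 536870912 469762048 0 1230186008 1046898278 26843546 3 true true false .dn 1 3 3
    ndN6q1 ndN6q3 pcN3 Cut.none Ext.none :=
  certNX0 (fam := true) (s1 := true) (s2 := false) (a := 1) (b := 3) (c := 3) (cn := .dn) (n1 := ndN6q1) (n2 := ndN6q3) (pc := pcN3) (cut := Cut.none) (xt := Ext.none) (P1 := 536870912) (W1 := 469762048) (P2 := 0) (W2 := 1230186008) (P3 := 1046898278) (W3 := 26843546) (N0 := 3)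
    rfl k0_pm_133

noncomputable def f_pm_202 : ℕ → ℕ → ℕ → ℕ → Bool := onCell 1073741824 536870912 0 536870912 1046898278 26843546
    (rowNX 3 2 true true false .pp 2 0 2 (qsf 1073741824 536870912 0 536870912 2) ndN6q2 ndN6q0 pcN2 Cut.none Ext.none)

def k0_pm_202 : ∃ t, chk3 f_pm_202 t 4 2 1 = true :=
  ⟨(a (b (l 3) (l 1)) (b (a (a (b (a (b (l 3) (l 3)) (b (b (c (b (l 15566792) (b (l 15509712) (l 15480376))) (b (c (l 15526904) (b (l 15517288) (l 15485904))) (l 401744060151))) (c (b (l 15447840) (l 15383240)) (l 15341024))) (c (a (l 15092112) (l 15212000)) (l 15100056)))) (b (c (a (l 481736380647) (l 14897504)) (a (l 14657992) (l 14832752))) (l 1))) (b (b (b (c (b (a (l 15666544) (l 15722400)) (c (a (l 15619328) (l 15729856)) (a (l 15604528) (l 15717000)))) (b (c (a (l 15629576) (l 15687192)) (b (a (l 15616304) (l 15653152)) (a (l 15604008) (l 15677128)))) (c (a (l 15583928) (l 15698480)) (l 15612376)))) (c (c (b (l 15648968) (l 15592928)) (l 15543480)) (a (l 15460816)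 (l 15599344)))) (c (a (b (l 15377992) (l 15220024)) (l 15440832)) (a (l 15239224) (l 15383328)))) (a (b (c (l 15025584) (l 14965624)) (l 1)) (b (l 15143856) (l 14877848))))) (b (b (a (b (c (b (l 15754160) (a (c (l 15804024) (l 15792480)) (l 15798152))) (b (c (a (l 15724264) (l 15721928)) (b (a (l 15689584) (l 15687384)) (l 15711632))) (c (l 15771816) (l 15745200)))) (c (a (b (l 15822368) (l 15779264)) (l 15855912)) (a (l 15739720) (l 15803448)))) (b (c (b (l 15754168) (l 15544088)) (b (c (l 15720744) (l 15510000)) (l 15761720))) (c (l 15627312) (l 15828232)))) (a (c (a (l 15595640) (l 15708712)) (l 15411776)) (c (b (l 15893960) (l 15793904)) (l 15795584)))) (b (a (a (l 15162208) (l 15431608)) (c (l 15614352) (l 15576352))) (a (a (l 15049264) (l 15178064)) (l 15342560))))) (a (l 1) (a (l 1) (b (a (l 1) (l 14866160)) (l 1)))))), by decide +kernel⟩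

def k1_pm_202 : ∃ t, chk3 f_pm_202 t 5 4 1 = true :=
  ⟨(a (b (a (a (b (b (c (b (l 15677040) (a (l 15772864) (l 15644760))) (b (c (a (l 15709224) (l 15582560)) (a (l 15687256) (l 15558472))) (a (l 15738272) (l 15605672)))) (c (a (l 15837392) (l 15706032)) (l 15713304))) (b (l 15788488) (l 15705048))) (b (b (a (c (b (l 15544016) (l 15484776)) (b (c (l 15505808) (l 15438560)) (l 15440040))) (c (a (b (l 15554648) (l 15372776)) (b (l 15579552) (a (l 15330336) (l 15328384)))) (b (a (c (l 15516904) (l 15491896)) (c (l 15542600) (b (l 15583912) (l 15453088)))) (a (l 15324080) (l 15077072))))) (a (c (l 15543792) (l 15482840)) (c (a (l 15398856) (l 15221016)) (a (l 15333040) (l 15214216))))) (a (l 15421264) (a (l 15462352) (c (l 15374320) (l 15316984)))))) (b (b (c (b (l 16020520) (a (l 15558296) (l 15993336))) (b (c (l 15954272) (b (l 16042080) (l 15919248))) (c (l 15752792) (l 15728104)))) (c (a (l 15176088) (l 15642696)) (l 15213432))) (b (a (l 15191504) (l 15233464)) (l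 15193904)))) (a (a (b (l 15662016) (l 15400432)) (b (a (l 15587944) (a (l 15510144) (b (l 15456880) (l 15416816)))) (a (l 15339888) (a (l 15280032) (l 15226880))))) (b (l 15301928) (l 15274040)))) (b (b (a (b (c (b (l 16244080) (l 16475152)) (b (c (l 16243512) (l 16242120)) (l 16471888))) (c (l 16164368) (l 16282672))) (b (c (b (l 15704392) (l 15764232)) (b (l 15448880) (l 15774808))) (c (l 16018064) (l 16020120)))) (a (b (l 15607928) (a (l 15197032) (l 15561096))) (b (l 16408216) (l 16235744)))) (b (a (b (l 15181776) (l 15174640)) (b (l 15768704) (l 15383152))) (a (l 15284496) (l 15185568))))), by decide +kernel⟩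

def k2_pm_202 : ∃ t, chk3 f_pm_202 t 5 5 1 = true :=
  ⟨(b (a (a (a (l 14876456) (a (l 14829544) (a (l 14777616) (l 14731264)))) (l 14822496)) (a (l 15056112) (l 15139848))) (a (a (l 1) (l 14042680)) (a (l 14339024) (l 14606528)))), by decide +kernel⟩

def k3_pm_202 : ∃ t, chk3 f_pm_202 t 3 2 1 = true :=
  ⟨(b (b (a (b (c (b (a (l 15697808) (l 15697808)) (a (l 15759712) (l 15759496))) (b (c (l 15427440) (l 15603560)) (l 15750488))) (a (a (l 15809200) (l 15878544)) (l 15878288))) (b (b (c (l 15697808) (l 15588256)) (l 15746792)) (l 15878288))) (a (a (b (a (l 16361504) (l 16169304)) (a (l 15379504) (l 16313392))) (b (l 16003712) (a (l 16253024) (l 16104320)))) (b (l 16003560) (l 16104120)))) (a (a (b (a (b (l 15074560) (l 15067304)) (b (a (l 15218232) (l 15581344)) (l 14930240))) (l 14782824)) (b (a (b (l 16220896) (l 15293744)) (b (l 16383400) (l 16104528))) (a (b (l 14779672) (l 14816936)) (b (l 15159208) (l 14704520))))) (b (a (l 16409288) (l 16352576)) (a (a (b (l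 15986272) (l 15092744)) (l 16251680)) (l 16697312))))), by decide +kernel⟩

def k4_pm_202 : ∃ t, chk3 f_pm_202 t 1 3 1 = true :=
  ⟨(a (a (l 1) (a (l 1) (a (l 1) (b (l 13893240) (l 1))))) (a (a (b (l 14236072) (l 1)) (b (a (l 14546720) (l 14662088)) (l 611523017895))) (b (a (b (a (l 14851856) (l 14892912)) (l 14737424)) (b (a (l 15531512) (l 16225944)) (a (l 14851856) (l 14976800)))) (a (l 14236072) (l 14577416))))), by decide +kernel⟩

theorem s5_pm_202 : ∃ t, chk3 f_pm_202 t 5 2 1 = true := ex3_b k1_pm_202 k2_pm_202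

theorem s6_pm_202 : ∃ t, chk3 f_pm_202 t 2 2 1 = true := ex3_a k0_pm_202 s5_pm_202

theorem s7_pm_202 : ∃ t, chk3 f_pm_202 t 1 2 1 = true := ex3_a s6_pm_202 k3_pm_202

theorem s8_pm_202 : ∃ t, chk3 f_pm_202 t 1 1 1 = true := ex3_b s7_pm_202 k4_pm_202

theorem c_pm_202 : CertNX 1073741824 536870912 0 536870912 1046898278 26843546 3 true true false .pp 2 0 2
    ndN6q2 ndN6q0 pcN2 Cut.none Ext.none :=
  certNX2 (fam := true) (s1 := true) (s2 := false) (a := 2) (b := 0) (c := 2) (cn := .pp) (n1 := ndN6q2) (n2 := ndN6q0) (pc := pcN2) (cut := Cut.none) (xt := Ext.none) (P1 := 1073741824) (W1 := 536870912) (P2 := 0) (W2 := 536870912) (P3 := 1046898278) (W3 := 26843546) (N0 := 3)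
    rfl (fun _ => rfl) s8_pm_202

noncomputable def f_pm_203 : ℕ → ℕ → ℕ → ℕ → Bool := onCell 1073741824 536870912 1610612736 536870912 1046898278 26843546
    (rowNX 3 1 true true false .up 2 0 3 (qsf 1073741824 536870912 0 536870912 3) ndN6q2 ndN6q0 pcN3 Cut.none Ext.none)

def k0_pm_203 : ∃ t, chk3 f_pm_203 t 1 1 1 = true :=
  ⟨(a (b (a (b (l 14737424) (l 14737424)) (a (b (l 15092648) (l 15092648)) (b (l 16567944) (l 16567944)))) (b (a (l 2) (a (l 2) (b (l 16567952) (l 2)))) (l 2))) (b (b (a (l 16620232) (b (a (b (l 16099536) (l 16273568)) (b (a (l 15939408) (c (l 15818808) (l 15788552))) (l 16008816))) (a (l 16521384) (b (l 16162448) (l 16273568))))) (b (l 16642616) (l 16767936))) (b (b (l 16777208) (l 16777176)) (b (l 16767848) (l 4))))), by decide +kernel⟩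

theorem c_pm_203 : CertNX 1073741824 536870912 0 536870912 1046898278 26843546 3 true true false .up 2 0 3
    ndN6q2 ndN6q0 pcN3 Cut.none Ext.none :=
  certNX1 (fam := true) (s1 := true) (s2 := false) (a := 2) (b := 0) (c := 3) (cn := .up) (n1 := ndN6q2) (n2 := ndN6q0) (pc := pcN3) (cut := Cut.none) (xt := Ext.none) (P1 := 1073741824) (W1 := 536870912) (P2 := 0) (W2 := 536870912) (P3 := 1046898278) (W3 := 26843546) (N0 := 3)
    rfl (fun _ => rfl) k0_pm_203

noncomputable def f_pm_213 : ℕ → ℕ → ℕ → ℕ → Bool := onCell 1073741824 536870912 1610612736 536870912 1046898278 26843546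
    (rowNX 3 1 true true false .pnn 2 1 3 (qsf 1073741824 536870912 536870912 469762048 3) ndN6q2 ndN6q1 pcN3 Cut.none Ext.none)

def k0_pm_213 : ∃ t, chk3 f_pm_213 t 1 1 1 = true :=
  ⟨(a (b (a (b (l 14737424) (l 14737424)) (a (b (l 15092648) (l 15092648)) (l 547640878935))) (b (a (b (a (l 14563704) (l 14816832)) (a (a (l 13404296) (l 14418312)) (l 14792464))) (a (b (l 15092664) (l 15092704)) (b (l 16567952) (l 16567984)))) (b (a (a (b (a (b (l 12805440) (l 12812096)) (l 14067232)) (a (c (b (l 13267552) (l 13539336)) (l 12705864)) (b (l 14156344) (l 14363736)))) (b (l 14819800) (l 15072016))) (a (b (l 15092984) (a (l 14786888) (l 15488296))) (l 16575848))) (b (b (a (a (a (c (l 314700654743) (l 13042760)) (l 4)) (l 4)) (l 4)) (l 4)) (l 4))))) (b (b (l 1) (l 608845168647)) (b (b (l 16777208) (l 16777176)) (b (l 16767848) (l 4))))), by decide +kernel⟩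

theorem c_pm_213 : CertNX 1073741824 536870912 536870912 469762048 1046898278 26843546 3 true true false .pnn 2 1 3
    ndN6q2 ndN6q1 pcN3 Cut.none Ext.none :=
  certNX1 (fam := true) (s1 := true) (s2 := false) (a := 2) (b := 1) (c := 3) (cn := .pnn) (n1 := ndN6q2) (n2 := ndN6q1) (pc := pcN3) (cut := Cut.none) (xt := Ext.none) (P1 := 1073741824) (W1 := 536870912) (P2 := 536870912) (W2 := 469762048) (P3 := 1046898278) (W3 := 26843546) (N0 := 3)
    rfl (fun _ => rfl) k0_pm_213

noncomputable def f_pm_303 : ℕ → ℕ → ℕ → ℕ → Bool := onCell 0 1230186008 0 536870912 1046898278 26843546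
    (rowNX 3 0 true true false .npn 3 0 3 (qsf 0 1230186008 0 536870912 3) ndN6q3 ndN6q0 pcN3 Cut.none Ext.none)

def k0_pm_303 : ∃ t, chk3 f_pm_303 t 1 1 1 = true :=
  ⟨(a (l 4) (a (b (b (a (l 4) (a (l 4) (b (b (c (l 15732384) (l 15709456)) (l 4)) (l 4)))) (l 4)) (l 4)) (b (a (b (b (b (c (a (l 15732384) (l 15732384)) (a (l 15709464) (l 15709464))) (c (l 15888656) (l 15870744))) (b (a (l 16003552) (l 16003560)) (a (l 4) (l 16104112)))) (b (a (l 4) (l 16352552)) (l 4))) (b (b (a (b (l 15761824) (l 15878288)) (b (l 15719880) (l 15878288))) (a (b (l 16003560) (l 16104120)) (l 16079352))) (b (a (l 16352576) (l 16352576)) (a (l 16722672) (l 16722696))))) (a (l 4) (b (a (l 4) (b (l 16777192) (a (l 4) (l 16776008)))) (l 4)))))), by decide +kernel⟩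

theorem c_pm_303 : CertNX 0 1230186008 0 536870912 1046898278 26843546 3 true true false .npn 3 0 3
    ndN6q3 ndN6q0 pcN3 Cut.none Ext.none :=
  certNX0 (fam := true) (s1 := true) (s2 := false) (a := 3) (b := 0) (c := 3) (cn := .npn) (n1 := ndN6q3) (n2 := ndN6q0) (pc := pcN3) (cut := Cut.none) (xt := Ext.none) (P1 := 0) (W1 := 1230186008) (P2 := 0) (W2 := 536870912) (P3 := 1046898278) (W3 := 26843546) (N0 := 3)
    rfl k0_pm_303

noncomputable def f_pm_313 : ℕ → ℕ → ℕ → ℕ → Bool := onCell 0 1230186008 536870912 469762048 1046898278 26843546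
    (rowNX 3 0 true true false .dn 3 1 3 (qsf 0 1230186008 536870912 469762048 3) ndN6q3 ndN6q1 pcN3 Cut.none Ext.none)

def k0_pm_313 : ∃ t, chk3 f_pm_313 t 1 1 1 = true :=
  ⟨(a (l 2) (l 4)), by decide +kernel⟩

theorem c_pm_313 : CertNX 0 1230186008 536870912 469762048 1046898278 26843546 3 true true false .dn 3 1 3
    ndN6q3 ndN6q1 pcN3 Cut.none Ext.none :=
  certNX0 (fam := true) (s1 := true) (s2 := false) (a := 3) (b := 1) (c := 3) (cn := .dn) (n1 := ndN6q3) (n2 := ndN6q1) (pc := pcN3) (cut := Cut.none) (xt := Ext.none) (P1 := 0) (W1 := 1230186008) (P2 := 536870912) (W2 := 469762048) (P3 := 1046898278) (W3 := 26843546) (N0 := 3)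
    rfl k0_pm_313

noncomputable def f_mm_001 : ℕ → ℕ → ℕ → ℕ → Bool := onCell 0 536870912 0 536870912 1046898278 26843546
    (rowNX 3 0 true false false .up 0 0 1 (qsf 0 536870912 0 536870912 1) ndN6q0 ndN6q0 pcN1 Cut.none Ext.none)

def k0_mm_001 : ∃ t, chk3 f_mm_001 t 1 1 1 = true :=
  ⟨(l 4), by decide +kernel⟩

theorem c_mm_001 : CertNX 0 536870912 0 536870912 1046898278 26843546 3 true false false .up 0 0 1
    ndN6q0 ndN6q0 pcN1 Cut.none Ext.none :=
  certNX0 (fam := true) (s1 := false) (s2 := false) (a := 0) (b := 0) (c := 1) (cn := .up) (n1 := ndN6q0) (n2 := ndN6q0) (pc := pcN1) (cut := Cut.none) (xt := Ext.none) (P1 := 0) (W1 := 536870912) (P2 := 0) (W2 := 536870912) (P3 := 1046898278) (W3 := 26843546) (N0 := 3)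
    rfl k0_mm_001

noncomputable def f_mm_011 : ℕ → ℕ → ℕ → ℕ → Bool := onCell 0 536870912 536870912 469762048 1046898278 26843546
    (rowNX 3 0 true false false .pnn 0 1 1 (qsf 0 536870912 536870912 469762048 1) ndN6q0 ndN6q1 pcN1 Cut.none Ext.none)

def k0_mm_011 : ∃ t, chk3 f_mm_011 t 1 1 1 = true :=
  ⟨(l 4), by decide +kernel⟩

theorem c_mm_011 : CertNX 0 536870912 536870912 469762048 1046898278 26843546 3 true false false .pnn 0 1 1
    ndN6q0 ndN6q1 pcN1 Cut.none Ext.none :=
  certNX0 (fam := true) (s1 := false) (s2 := false) (a := 0) (b := 1) (c := 1) (cn := .pnn) (n1 := ndN6q0) (n2 := ndN6q1) (pc := pcN1) (cut := Cut.none) (xt := Ext.none) (P1 := 0) (W1 := 536870912) (P2 := 536870912) (W2 := 469762048) (P3 := 1046898278) (W3 := 26843546) (N0 := 3)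
    rfl k0_mm_011

noncomputable def f_mm_012 : ℕ → ℕ → ℕ → ℕ → Bool := onCell 0 536870912 536870912 469762048 1046898278 26843546
    (rowNX 3 0 true false false .pnp 0 1 2 (qsf 0 536870912 536870912 469762048 2) ndN6q0 ndN6q1 pcN2 Cut.none Ext.none)

def k0_mm_012 : ∃ t, chk3 f_mm_012 t 1 1 1 = true :=
  ⟨(l 4), by decide +kernel⟩

theorem c_mm_012 : CertNX 0 536870912 536870912 469762048 1046898278 26843546 3 true false false .pnp 0 1 2
    ndN6q0 ndN6q1 pcN2 Cut.none Ext.none :=
  certNX0 (fam := true) (s1 := false) (s2 := false) (a := 0) (b := 1) (c := 2) (cn := .pnp) (n1 := ndN6q0) (n2 := ndN6q1) (pc := pcN2) (cut := Cut.none) (xt := Ext.none) (P1 := 0) (W1 := 536870912) (P2 := 536870912) (W2 := 469762048) (P3 := 1046898278) (W3 := 26843546) (N0 := 3)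
    rfl k0_mm_012

noncomputable def f_mm_022 : ℕ → ℕ → ℕ → ℕ → Bool := onCell 0 536870912 1073741824 536870912 1046898278 26843546
    (rowNX 3 0 true false false .pp 0 2 2 (qsf 0 536870912 1073741824 536870912 2) ndN6q0 ndN6q2 pcN2 Cut.none Ext.none)

def k0_mm_022 : ∃ t, chk3 f_mm_022 t 1 1 1 = true :=
  ⟨(l 4), by decide +kernel⟩

theorem c_mm_022 : CertNX 0 536870912 1073741824 536870912 1046898278 26843546 3 true false false .pp 0 2 2
    ndN6q0 ndN6q2 pcN2 Cut.none Ext.none :=
  certNX0 (fam := true) (s1 := false) (s2 := false) (a := 0) (b := 2) (c := 2) (cn := .pp) (n1 := ndN6q0) (n2 := ndN6q2) (pc := pcN2) (cut := Cut.none) (xt := Ext.none) (P1 := 0) (W1 := 536870912) (P2 := 1073741824) (W2 := 536870912) (P3 := 1046898278) (W3 := 26843546) (N0 := 3)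
    rfl k0_mm_022

noncomputable def f_mm_023 : ℕ → ℕ → ℕ → ℕ → Bool := onCell 0 536870912 1073741824 536870912 1046898278 26843546
    (rowNX 3 0 true false false .up 0 2 3 (qsf 0 536870912 1073741824 536870912 3) ndN6q0 ndN6q2 pcN3 Cut.none Ext.none)

def k0_mm_023 : ∃ t, chk3 f_mm_023 t 1 1 1 = true :=
  ⟨(l 4), by decide +kernel⟩

theorem c_mm_023 : CertNX 0 536870912 1073741824 536870912 1046898278 26843546 3 true false false .up 0 2 3
    ndN6q0 ndN6q2 pcN3 Cut.none Ext.none :=
  certNX0 (fam := true) (s1 := false) (s2 := false) (a := 0) (b := 2) (c := 3) (cn := .up) (n1 := ndN6q0) (n2 := ndN6q2) (pc := pcN3) (cut := Cut.none) (xt := Ext.none) (P1 := 0) (W1 := 536870912) (P2 := 1073741824) (W2 := 536870912) (P3 := 1046898278) (W3 := 26843546) (N0 := 3)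
    rfl k0_mm_023

noncomputable def f_mm_033 : ℕ → ℕ → ℕ → ℕ → Bool := onCell 0 536870912 0 1230186008 1046898278 26843546
    (rowNX 3 0 true false false .pnn 0 3 3 (qsf 0 536870912 0 1230186008 3) ndN6q0 ndN6q3 pcN3 Cut.none Ext.none)

def k0_mm_033 : ∃ t, chk3 f_mm_033 t 1 1 1 = true :=
  ⟨(l 4), by decide +kernel⟩

theorem c_mm_033 : CertNX 0 536870912 0 1230186008 1046898278 26843546 3 true false false .pnn 0 3 3
    ndN6q0 ndN6q3 pcN3 Cut.none Ext.none :=
  certNX0 (fam := true) (s1 := false) (s2 := false) (a := 0) (b := 3) (c := 3) (cn := .pnn) (n1 := ndN6q0) (n2 := ndN6q3) (pc := pcN3) (cut := Cut.none) (xt := Ext.none) (P1 := 0) (W1 := 536870912) (P2 := 0) (W2 := 1230186008) (P3 := 1046898278) (W3 := 26843546) (N0 := 3)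
    rfl k0_mm_033

noncomputable def f_mm_101 : ℕ → ℕ → ℕ → ℕ → Bool := onCell 536870912 469762048 0 536870912 1046898278 26843546
    (rowNX 3 0 true false false .npn 1 0 1 (qsf 536870912 469762048 0 536870912 1) ndN6q1 ndN6q0 pcN1 Cut.none Ext.none)

def k0_mm_101 : ∃ t, chk3 f_mm_101 t 1 1 1 = true :=
  ⟨(l 4), by decide +kernel⟩

theorem c_mm_101 : CertNX 536870912 469762048 0 536870912 1046898278 26843546 3 true false false .npn 1 0 1
    ndN6q1 ndN6q0 pcN1 Cut.none Ext.none :=
  certNX0 (fam := true) (s1 := false) (s2 := false) (a := 1) (b := 0) (c := 1) (cn := .npn) (n1 := ndN6q1) (n2 := ndN6q0) (pc := pcN1) (cut := Cut.none) (xt := Ext.none) (P1 := 536870912) (W1 := 469762048) (P2 := 0) (W2 := 536870912) (P3 := 1046898278) (W3 := 26843546) (N0 := 3)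
    rfl k0_mm_101

noncomputable def f_mm_102 : ℕ → ℕ → ℕ → ℕ → Bool := onCell 536870912 469762048 0 536870912 1046898278 26843546
    (rowNX 3 0 true false false .npp 1 0 2 (qsf 536870912 469762048 0 536870912 2) ndN6q1 ndN6q0 pcN2 Cut.none Ext.none)

def k0_mm_102 : ∃ t, chk3 f_mm_102 t 1 1 1 = true :=
  ⟨(l 4), by decide +kernel⟩

theorem c_mm_102 : CertNX 536870912 469762048 0 536870912 1046898278 26843546 3 true false false .npp 1 0 2
    ndN6q1 ndN6q0 pcN2 Cut.none Ext.none :=
  certNX0 (fam := true) (s1 := false) (s2 := false) (a := 1) (b := 0) (c := 2) (cn := .npp) (n1 := ndN6q1) (n2 := ndN6q0) (pc := pcN2) (cut := Cut.none) (xt := Ext.none) (P1 := 536870912) (W1 := 469762048) (P2 := 0) (W2 := 536870912) (P3 := 1046898278) (W3 := 26843546) (N0 := 3)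
    rfl k0_mm_102

noncomputable def f_mm_112 : ℕ → ℕ → ℕ → ℕ → Bool := onCell 536870912 469762048 536870912 469762048 1046898278 26843546
    (rowNX 3 0 true false false .dn 1 1 2 (qsf 536870912 469762048 536870912 469762048 2) ndN6q1 ndN6q1 pcN2 Cut.none Ext.none)

def k0_mm_112 : ∃ t, chk3 f_mm_112 t 1 1 1 = true :=
  ⟨(l 4), by decide +kernel⟩

theorem c_mm_112 : CertNX 536870912 469762048 536870912 469762048 1046898278 26843546 3 true false false .dn 1 1 2
    ndN6q1 ndN6q1 pcN2 Cut.none Ext.none :=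
  certNX0 (fam := true) (s1 := false) (s2 := false) (a := 1) (b := 1) (c := 2) (cn := .dn) (n1 := ndN6q1) (n2 := ndN6q1) (pc := pcN2) (cut := Cut.none) (xt := Ext.none) (P1 := 536870912) (W1 := 469762048) (P2 := 536870912) (W2 := 469762048) (P3 := 1046898278) (W3 := 26843546) (N0 := 3)
    rfl k0_mm_112

noncomputable def f_mm_113 : ℕ → ℕ → ℕ → ℕ → Bool := onCell 536870912 469762048 536870912 469762048 1046898278 26843546
    (rowNX 3 0 true false false .nn 1 1 3 (qsf 536870912 469762048 536870912 469762048 3) ndN6q1 ndN6q1 pcN3 Cut.none Ext.none)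

def k0_mm_113 : ∃ t, chk3 f_mm_113 t 1 1 1 = true :=
  ⟨(l 4), by decide +kernel⟩

theorem c_mm_113 : CertNX 536870912 469762048 536870912 469762048 1046898278 26843546 3 true false false .nn 1 1 3
    ndN6q1 ndN6q1 pcN3 Cut.none Ext.none :=
  certNX0 (fam := true) (s1 := false) (s2 := false) (a := 1) (b := 1) (c := 3) (cn := .nn) (n1 := ndN6q1) (n2 := ndN6q1) (pc := pcN3) (cut := Cut.none) (xt := Ext.none) (P1 := 536870912) (W1 := 469762048) (P2 := 536870912) (W2 := 469762048) (P3 := 1046898278) (W3 := 26843546) (N0 := 3)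
    rfl k0_mm_113

noncomputable def f_mm_123 : ℕ → ℕ → ℕ → ℕ → Bool := onCell 536870912 469762048 1073741824 536870912 1046898278 26843546
    (rowNX 3 0 true false false .npn 1 2 3 (qsf 536870912 469762048 1073741824 536870912 3) ndN6q1 ndN6q2 pcN3 Cut.none Ext.none)

def k0_mm_123 : ∃ t, chk3 f_mm_123 t 1 1 1 = true :=
  ⟨(l 4), by decide +kernel⟩

theorem c_mm_123 : CertNX 536870912 469762048 1073741824 536870912 1046898278 26843546 3 true false false .npn 1 2 3
    ndN6q1 ndN6q2 pcN3 Cut.none Ext.none :=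
  certNX0 (fam := true) (s1 := false) (s2 := false) (a := 1) (b := 2) (c := 3) (cn := .npn) (n1 := ndN6q1) (n2 := ndN6q2) (pc := pcN3) (cut := Cut.none) (xt := Ext.none) (P1 := 536870912) (W1 := 469762048) (P2 := 1073741824) (W2 := 536870912) (P3 := 1046898278) (W3 := 26843546) (N0 := 3)
    rfl k0_mm_123

noncomputable def f_mm_133 : ℕ → ℕ → ℕ → ℕ → Bool := onCell 536870912 469762048 0 1230186008 1046898278 26843546
    (rowNX 3 0 true false false .dn 1 3 3 (qsf 536870912 469762048 0 1230186008 3) ndN6q1 ndN6q3 pcN3 Cut.none Ext.none)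

def k0_mm_133 : ∃ t, chk3 f_mm_133 t 1 1 1 = true :=
  ⟨(l 4), by decide +kernel⟩

theorem c_mm_133 : CertNX 536870912 469762048 0 1230186008 1046898278 26843546 3 true false false .dn 1 3 3
    ndN6q1 ndN6q3 pcN3 Cut.none Ext.none :=
  certNX0 (fam := true) (s1 := false) (s2 := false) (a := 1) (b := 3) (c := 3) (cn := .dn) (n1 := ndN6q1) (n2 := ndN6q3) (pc := pcN3) (cut := Cut.none) (xt := Ext.none) (P1 := 536870912) (W1 := 469762048) (P2 := 0) (W2 := 1230186008) (P3 := 1046898278) (W3 := 26843546) (N0 := 3)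
    rfl k0_mm_133

noncomputable def f_mm_202 : ℕ → ℕ → ℕ → ℕ → Bool := onCell 1073741824 536870912 0 536870912 1046898278 26843546
    (rowNX 3 0 true false false .pp 2 0 2 (qsf 1073741824 536870912 0 536870912 2) ndN6q2 ndN6q0 pcN2 Cut.none Ext.none)

def k0_mm_202 : ∃ t, chk3 f_mm_202 t 1 1 1 = true :=
  ⟨(l 4), by decide +kernel⟩

theorem c_mm_202 : CertNX 1073741824 536870912 0 536870912 1046898278 26843546 3 true false false .pp 2 0 2
    ndN6q2 ndN6q0 pcN2 Cut.none Ext.none :=
  certNX0 (fam := true) (s1 := false) (s2 := false) (a := 2) (b := 0) (c := 2) (cn := .pp) (n1 := ndN6q2) (n2 := ndN6q0) (pc := pcN2) (cut := Cut.none) (xt := Ext.none) (P1 := 1073741824) (W1 := 536870912) (P2 := 0) (W2 := 536870912) (P3 := 1046898278) (W3 := 26843546) (N0 := 3)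
    rfl k0_mm_202

noncomputable def f_mm_203 : ℕ → ℕ → ℕ → ℕ → Bool := onCell 1073741824 536870912 0 536870912 1046898278 26843546
    (rowNX 3 0 true false false .up 2 0 3 (qsf 1073741824 536870912 0 536870912 3) ndN6q2 ndN6q0 pcN3 Cut.none Ext.none)

def k0_mm_203 : ∃ t, chk3 f_mm_203 t 1 1 1 = true :=
  ⟨(l 4), by decide +kernel⟩

theorem c_mm_203 : CertNX 1073741824 536870912 0 536870912 1046898278 26843546 3 true false false .up 2 0 3
    ndN6q2 ndN6q0 pcN3 Cut.none Ext.none :=
  certNX0 (fam := true) (s1 := false) (s2 := false) (a := 2) (b := 0) (c := 3) (cn := .up) (n1 := ndN6q2) (n2 := ndN6q0) (pc := pcN3) (cut := Cut.none) (xt := Ext.none) (P1 := 1073741824) (W1 := 536870912) (P2 := 0) (W2 := 536870912) (P3 := 1046898278) (W3 := 26843546) (N0 := 3)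
    rfl k0_mm_203

noncomputable def f_mm_213 : ℕ → ℕ → ℕ → ℕ → Bool := onCell 1073741824 536870912 536870912 469762048 1046898278 26843546
    (rowNX 3 0 true false false .pnn 2 1 3 (qsf 1073741824 536870912 536870912 469762048 3) ndN6q2 ndN6q1 pcN3 Cut.none Ext.none)

def k0_mm_213 : ∃ t, chk3 f_mm_213 t 1 1 1 = true :=
  ⟨(l 4), by decide +kernel⟩

theorem c_mm_213 : CertNX 1073741824 536870912 536870912 469762048 1046898278 26843546 3 true false false .pnn 2 1 3
    ndN6q2 ndN6q1 pcN3 Cut.none Ext.none :=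
  certNX0 (fam := true) (s1 := false) (s2 := false) (a := 2) (b := 1) (c := 3) (cn := .pnn) (n1 := ndN6q2) (n2 := ndN6q1) (pc := pcN3) (cut := Cut.none) (xt := Ext.none) (P1 := 1073741824) (W1 := 536870912) (P2 := 536870912) (W2 := 469762048) (P3 := 1046898278) (W3 := 26843546) (N0 := 3)
    rfl k0_mm_213

noncomputable def f_mm_303 : ℕ → ℕ → ℕ → ℕ → Bool := onCell 0 1230186008 0 536870912 1046898278 26843546
    (rowNX 3 0 true false false .npn 3 0 3 (qsf 0 1230186008 0 536870912 3) ndN6q3 ndN6q0 pcN3 Cut.none Ext.none)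

def k0_mm_303 : ∃ t, chk3 f_mm_303 t 1 1 1 = true :=
  ⟨(l 4), by decide +kernel⟩

theorem c_mm_303 : CertNX 0 1230186008 0 536870912 1046898278 26843546 3 true false false .npn 3 0 3
    ndN6q3 ndN6q0 pcN3 Cut.none Ext.none :=
  certNX0 (fam := true) (s1 := false) (s2 := false) (a := 3) (b := 0) (c := 3) (cn := .npn) (n1 := ndN6q3) (n2 := ndN6q0) (pc := pcN3) (cut := Cut.none) (xt := Ext.none) (P1 := 0) (W1 := 1230186008) (P2 := 0) (W2 := 536870912) (P3 := 1046898278) (W3 := 26843546) (N0 := 3)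
    rfl k0_mm_303

noncomputable def f_mm_313 : ℕ → ℕ → ℕ → ℕ → Bool := onCell 0 1230186008 536870912 469762048 1046898278 26843546
    (rowNX 3 0 true false false .dn 3 1 3 (qsf 0 1230186008 536870912 469762048 3) ndN6q3 ndN6q1 pcN3 Cut.none Ext.none)

def k0_mm_313 : ∃ t, chk3 f_mm_313 t 1 1 1 = true :=
  ⟨(l 4), by decide +kernel⟩

theorem c_mm_313 : CertNX 0 1230186008 536870912 469762048 1046898278 26843546 3 true false false .dn 3 1 3
    ndN6q3 ndN6q1 pcN3 Cut.none Ext.none :=
  certNX0 (fam := true) (s1 := false) (s2 := false) (a := 3) (b := 1) (c := 3) (cn := .dn) (n1 := ndN6q3) (n2 := ndN6q1) (pc := pcN3) (cut := Cut.none) (xt := Ext.none) (P1 := 0) (W1 := 1230186008) (P2 := 536870912) (W2 := 469762048) (P3 := 1046898278) (W3 := 26843546) (N0 := 3)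
    rfl k0_mm_313

end Pool.Agent.Strip051.G.IE1.Tab.C.NA66

namespace Pool.Agent.Strip051.G.IE1.Tab.C.NA67

open Pool.Agent.Strip051.PB Pool.Agent.Strip051.PB.T
open Pool.Agent.Strip051.G.IE1.Tab

noncomputable def f_pp_001 : ℕ → ℕ → ℕ → ℕ → Bool := onCell 0 536870912 0 536870912 1046898278 26843546
    (rowNX 3 0 true true true .up 0 0 1 (qsf 0 536870912 0 536870912 1) ndN6q0 ndN7q0 pcN1 Cut.none Ext.none)

def k0_pp_001 : ∃ t, chk3 f_pp_001 t 1 1 1 = true :=
  ⟨(l 4), by decide +kernel⟩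

theorem c_pp_001 : CertNX 0 536870912 0 536870912 1046898278 26843546 3 true true true .up 0 0 1
    ndN6q0 ndN7q0 pcN1 Cut.none Ext.none :=
  certNX0 (fam := true) (s1 := true) (s2 := true) (a := 0) (b := 0) (c := 1) (cn := .up) (n1 := ndN6q0) (n2 := ndN7q0) (pc := pcN1) (cut := Cut.none) (xt := Ext.none) (P1 := 0) (W1 := 536870912) (P2 := 0) (W2 := 536870912) (P3 := 1046898278) (W3 := 26843546) (N0 := 3)
    rfl k0_pp_001

noncomputable def f_pp_011 : ℕ → ℕ → ℕ → ℕ → Bool := onCell 0 536870912 536870912 536870912 1046898278 26843546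
    (rowNX 3 0 true true true .pnn 0 1 1 (qsf 0 536870912 536870912 536870912 1) ndN6q0 ndN7q1 pcN1 Cut.none Ext.none)

def k0_pp_011 : ∃ t, chk3 f_pp_011 t 1 1 1 = true :=
  ⟨(l 4), by decide +kernel⟩

theorem c_pp_011 : CertNX 0 536870912 536870912 536870912 1046898278 26843546 3 true true true .pnn 0 1 1
    ndN6q0 ndN7q1 pcN1 Cut.none Ext.none :=
  certNX0 (fam := true) (s1 := true) (s2 := true) (a := 0) (b := 1) (c := 1) (cn := .pnn) (n1 := ndN6q0) (n2 := ndN7q1) (pc := pcN1) (cut := Cut.none) (xt := Ext.none) (P1 := 0) (W1 := 536870912) (P2 := 536870912) (W2 := 536870912) (P3 := 1046898278) (W3 := 26843546) (N0 := 3)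
    rfl k0_pp_011

noncomputable def f_pp_012 : ℕ → ℕ → ℕ → ℕ → Bool := onCell 0 536870912 536870912 536870912 1046898278 26843546
    (rowNX 3 0 true true true .pnp 0 1 2 (qsf 0 536870912 536870912 536870912 2) ndN6q0 ndN7q1 pcN2 Cut.none Ext.none)

def k0_pp_012 : ∃ t, chk3 f_pp_012 t 1 1 1 = true :=
  ⟨(l 4), by decide +kernel⟩

theorem c_pp_012 : CertNX 0 536870912 536870912 536870912 1046898278 26843546 3 true true true .pnp 0 1 2
    ndN6q0 ndN7q1 pcN2 Cut.none Ext.none :=
  certNX0 (fam := true) (s1 := true) (s2 := true) (a := 0) (b := 1) (c := 2) (cn := .pnp) (n1 := ndN6q0) (n2 := ndN7q1) (pc := pcN2) (cut := Cut.none) (xt := Ext.none) (P1 := 0) (W1 := 536870912) (P2 := 536870912) (W2 := 536870912) (P3 := 1046898278) (W3 := 26843546) (N0 := 3)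
    rfl k0_pp_012

noncomputable def f_pp_022 : ℕ → ℕ → ℕ → ℕ → Bool := onCell 0 536870912 1073741824 536870912 1046898278 26843546
    (rowNX 3 0 true true true .pp 0 2 2 (qsf 0 536870912 1073741824 536870912 2) ndN6q0 ndN7q2 pcN2 Cut.none Ext.none)

def k0_pp_022 : ∃ t, chk3 f_pp_022 t 1 1 1 = true :=
  ⟨(l 4), by decide +kernel⟩

theorem c_pp_022 : CertNX 0 536870912 1073741824 536870912 1046898278 26843546 3 true true true .pp 0 2 2
    ndN6q0 ndN7q2 pcN2 Cut.none Ext.none :=
  certNX0 (fam := true) (s1 := true) (s2 := true) (a := 0) (b := 2) (c := 2) (cn := .pp) (n1 := ndN6q0) (n2 := ndN7q2) (pc := pcN2) (cut := Cut.none) (xt := Ext.none) (P1 := 0) (W1 := 536870912) (P2 := 1073741824) (W2 := 536870912) (P3 := 1046898278) (W3 := 26843546) (N0 := 3)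
    rfl k0_pp_022

noncomputable def f_pp_023 : ℕ → ℕ → ℕ → ℕ → Bool := onCell 0 536870912 1073741824 536870912 1046898278 26843546
    (rowNX 3 0 true true true .up 0 2 3 (qsf 0 536870912 1073741824 536870912 3) ndN6q0 ndN7q2 pcN3 Cut.none Ext.none)

def k0_pp_023 : ∃ t, chk3 f_pp_023 t 1 1 1 = true :=
  ⟨(l 4), by decide +kernel⟩

theorem c_pp_023 : CertNX 0 536870912 1073741824 536870912 1046898278 26843546 3 true true true .up 0 2 3
    ndN6q0 ndN7q2 pcN3 Cut.none Ext.none :=
  certNX0 (fam := true) (s1 := true) (s2 := true) (a := 0) (b := 2) (c := 3) (cn := .up) (n1 := ndN6q0) (n2 := ndN7q2) (pc := pcN3) (cut := Cut.none) (xt := Ext.none) (P1 := 0) (W1 := 536870912) (P2 := 1073741824) (W2 := 536870912) (P3 := 1046898278) (W3 := 26843546) (N0 := 3)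
    rfl k0_pp_023

noncomputable def f_pp_033 : ℕ → ℕ → ℕ → ℕ → Bool := onCell 0 536870912 0 1230186008 1046898278 26843546
    (rowNX 3 0 true true true .pnn 0 3 3 (qsf 0 536870912 0 1230186008 3) ndN6q0 ndN7q3 pcN3 Cut.none Ext.none)

def k0_pp_033 : ∃ t, chk3 f_pp_033 t 1 1 1 = true :=
  ⟨(l 4), by decide +kernel⟩

theorem c_pp_033 : CertNX 0 536870912 0 1230186008 1046898278 26843546 3 true true true .pnn 0 3 3
    ndN6q0 ndN7q3 pcN3 Cut.none Ext.none :=
  certNX0 (fam := true) (s1 := true) (s2 := true) (a := 0) (b := 3) (c := 3) (cn := .pnn) (n1 := ndN6q0) (n2 := ndN7q3) (pc := pcN3) (cut := Cut.none) (xt := Ext.none) (P1 := 0) (W1 := 536870912) (P2 := 0) (W2 := 1230186008) (P3 := 1046898278) (W3 := 26843546) (N0 := 3)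
    rfl k0_pp_033

noncomputable def f_pp_101 : ℕ → ℕ → ℕ → ℕ → Bool := onCell 536870912 469762048 0 536870912 1046898278 26843546
    (rowNX 3 0 true true true .npn 1 0 1 (qsf 536870912 469762048 0 536870912 1) ndN6q1 ndN7q0 pcN1 Cut.none Ext.none)

def k0_pp_101 : ∃ t, chk3 f_pp_101 t 1 1 1 = true :=
  ⟨(l 4), by decide +kernel⟩

theorem c_pp_101 : CertNX 536870912 469762048 0 536870912 1046898278 26843546 3 true true true .npn 1 0 1
    ndN6q1 ndN7q0 pcN1 Cut.none Ext.none :=
  certNX0 (fam := true) (s1 := true) (s2 := true) (a := 1) (b := 0) (c := 1) (cn := .npn) (n1 := ndN6q1) (n2 := ndN7q0) (pc := pcN1) (cut := Cut.none) (xt := Ext.none) (P1 := 536870912) (W1 := 469762048) (P2 := 0) (W2 := 536870912) (P3 := 1046898278) (W3 := 26843546) (N0 := 3)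
    rfl k0_pp_101

noncomputable def f_pp_102 : ℕ → ℕ → ℕ → ℕ → Bool := onCell 536870912 469762048 0 536870912 1046898278 26843546
    (rowNX 3 0 true true true .npp 1 0 2 (qsf 536870912 469762048 0 536870912 2) ndN6q1 ndN7q0 pcN2 Cut.none Ext.none)

def k0_pp_102 : ∃ t, chk3 f_pp_102 t 1 1 1 = true :=
  ⟨(l 4), by decide +kernel⟩

theorem c_pp_102 : CertNX 536870912 469762048 0 536870912 1046898278 26843546 3 true true true .npp 1 0 2
    ndN6q1 ndN7q0 pcN2 Cut.none Ext.none :=
  certNX0 (fam := true) (s1 := true) (s2 := true) (a := 1) (b := 0) (c := 2) (cn := .npp) (n1 := ndN6q1) (n2 := ndN7q0) (pc := pcN2) (cut := Cut.none) (xt := Ext.none) (P1 := 536870912) (W1 := 469762048) (P2 := 0) (W2 := 536870912) (P3 := 1046898278) (W3 := 26843546) (N0 := 3)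
    rfl k0_pp_102

noncomputable def f_pp_112 : ℕ → ℕ → ℕ → ℕ → Bool := onCell 536870912 469762048 536870912 536870912 1046898278 26843546
    (rowNX 3 0 true true true .dn 1 1 2 (qsf 536870912 469762048 536870912 536870912 2) ndN6q1 ndN7q1 pcN2 Cut.none Ext.none)

def k0_pp_112 : ∃ t, chk3 f_pp_112 t 1 1 1 = true :=
  ⟨(l 4), by decide +kernel⟩

theorem c_pp_112 : CertNX 536870912 469762048 536870912 536870912 1046898278 26843546 3 true true true .dn 1 1 2
    ndN6q1 ndN7q1 pcN2 Cut.none Ext.none :=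
  certNX0 (fam := true) (s1 := true) (s2 := true) (a := 1) (b := 1) (c := 2) (cn := .dn) (n1 := ndN6q1) (n2 := ndN7q1) (pc := pcN2) (cut := Cut.none) (xt := Ext.none) (P1 := 536870912) (W1 := 469762048) (P2 := 536870912) (W2 := 536870912) (P3 := 1046898278) (W3 := 26843546) (N0 := 3)
    rfl k0_pp_112

noncomputable def f_pp_113 : ℕ → ℕ → ℕ → ℕ → Bool := onCell 536870912 469762048 536870912 536870912 1046898278 26843546
    (rowNX 3 0 true true true .nn 1 1 3 (qsf 536870912 469762048 536870912 536870912 3) ndN6q1 ndN7q1 pcN3 Cut.none Ext.none)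

def k0_pp_113 : ∃ t, chk3 f_pp_113 t 1 1 1 = true :=
  ⟨(l 4), by decide +kernel⟩

theorem c_pp_113 : CertNX 536870912 469762048 536870912 536870912 1046898278 26843546 3 true true true .nn 1 1 3
    ndN6q1 ndN7q1 pcN3 Cut.none Ext.none :=
  certNX0 (fam := true) (s1 := true) (s2 := true) (a := 1) (b := 1) (c := 3) (cn := .nn) (n1 := ndN6q1) (n2 := ndN7q1) (pc := pcN3) (cut := Cut.none) (xt := Ext.none) (P1 := 536870912) (W1 := 469762048) (P2 := 536870912) (W2 := 536870912) (P3 := 1046898278) (W3 := 26843546) (N0 := 3)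
    rfl k0_pp_113

noncomputable def f_pp_123 : ℕ → ℕ → ℕ → ℕ → Bool := onCell 536870912 469762048 1073741824 536870912 1046898278 26843546
    (rowNX 3 0 true true true .npn 1 2 3 (qsf 536870912 469762048 1073741824 536870912 3) ndN6q1 ndN7q2 pcN3 Cut.none Ext.none)

def k0_pp_123 : ∃ t, chk3 f_pp_123 t 1 1 1 = true :=
  ⟨(l 4), by decide +kernel⟩

theorem c_pp_123 : CertNX 536870912 469762048 1073741824 536870912 1046898278 26843546 3 true true true .npn 1 2 3
    ndN6q1 ndN7q2 pcN3 Cut.none Ext.none :=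
  certNX0 (fam := true) (s1 := true) (s2 := true) (a := 1) (b := 2) (c := 3) (cn := .npn) (n1 := ndN6q1) (n2 := ndN7q2) (pc := pcN3) (cut := Cut.none) (xt := Ext.none) (P1 := 536870912) (W1 := 469762048) (P2 := 1073741824) (W2 := 536870912) (P3 := 1046898278) (W3 := 26843546) (N0 := 3)
    rfl k0_pp_123

noncomputable def f_pp_133 : ℕ → ℕ → ℕ → ℕ → Bool := onCell 536870912 469762048 0 1230186008 1046898278 26843546
    (rowNX 3 0 true true true .dn 1 3 3 (qsf 536870912 469762048 0 1230186008 3) ndN6q1 ndN7q3 pcN3 Cut.none Ext.none)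

def k0_pp_133 : ∃ t, chk3 f_pp_133 t 1 1 1 = true :=
  ⟨(l 4), by decide +kernel⟩

theorem c_pp_133 : CertNX 536870912 469762048 0 1230186008 1046898278 26843546 3 true true true .dn 1 3 3
    ndN6q1 ndN7q3 pcN3 Cut.none Ext.none :=
  certNX0 (fam := true) (s1 := true) (s2 := true) (a := 1) (b := 3) (c := 3) (cn := .dn) (n1 := ndN6q1) (n2 := ndN7q3) (pc := pcN3) (cut := Cut.none) (xt := Ext.none) (P1 := 536870912) (W1 := 469762048) (P2 := 0) (W2 := 1230186008) (P3 := 1046898278) (W3 := 26843546) (N0 := 3)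
    rfl k0_pp_133

noncomputable def f_pp_202 : ℕ → ℕ → ℕ → ℕ → Bool := onCell 1073741824 536870912 0 536870912 1046898278 26843546
    (rowNX 3 0 true true true .pp 2 0 2 (qsf 1073741824 536870912 0 536870912 2) ndN6q2 ndN7q0 pcN2 Cut.none Ext.none)

def k0_pp_202 : ∃ t, chk3 f_pp_202 t 1 1 1 = true :=
  ⟨(l 4), by decide +kernel⟩

theorem c_pp_202 : CertNX 1073741824 536870912 0 536870912 1046898278 26843546 3 true true true .pp 2 0 2
    ndN6q2 ndN7q0 pcN2 Cut.none Ext.none :=
  certNX0 (fam := true) (s1 := true) (s2 := true) (a := 2) (b := 0) (c := 2) (cn := .pp) (n1 := ndN6q2) (n2 := ndN7q0) (pc := pcN2) (cut := Cut.none) (xt := Ext.none) (P1 := 1073741824) (W1 := 536870912) (P2 := 0) (W2 := 536870912) (P3 := 1046898278) (W3 := 26843546) (N0 := 3)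
    rfl k0_pp_202

noncomputable def f_pp_203 : ℕ → ℕ → ℕ → ℕ → Bool := onCell 1073741824 536870912 0 536870912 1046898278 26843546
    (rowNX 3 0 true true true .up 2 0 3 (qsf 1073741824 536870912 0 536870912 3) ndN6q2 ndN7q0 pcN3 Cut.none Ext.none)

def k0_pp_203 : ∃ t, chk3 f_pp_203 t 1 1 1 = true :=
  ⟨(l 4), by decide +kernel⟩

theorem c_pp_203 : CertNX 1073741824 536870912 0 536870912 1046898278 26843546 3 true true true .up 2 0 3
    ndN6q2 ndN7q0 pcN3 Cut.none Ext.none :=
  certNX0 (fam := true) (s1 := true) (s2 := true) (a := 2) (b := 0) (c := 3) (cn := .up) (n1 := ndN6q2) (n2 := ndN7q0) (pc := pcN3) (cut := Cut.none) (xt := Ext.none) (P1 := 1073741824) (W1 := 536870912) (P2 := 0) (W2 := 536870912) (P3 := 1046898278) (W3 := 26843546) (N0 := 3)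
    rfl k0_pp_203

noncomputable def f_pp_213 : ℕ → ℕ → ℕ → ℕ → Bool := onCell 1073741824 536870912 536870912 536870912 1046898278 26843546
    (rowNX 3 0 true true true .pnn 2 1 3 (qsf 1073741824 536870912 536870912 536870912 3) ndN6q2 ndN7q1 pcN3 Cut.none Ext.none)

def k0_pp_213 : ∃ t, chk3 f_pp_213 t 1 1 1 = true :=
  ⟨(l 4), by decide +kernel⟩

theorem c_pp_213 : CertNX 1073741824 536870912 536870912 536870912 1046898278 26843546 3 true true true .pnn 2 1 3
    ndN6q2 ndN7q1 pcN3 Cut.none Ext.none :=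
  certNX0 (fam := true) (s1 := true) (s2 := true) (a := 2) (b := 1) (c := 3) (cn := .pnn) (n1 := ndN6q2) (n2 := ndN7q1) (pc := pcN3) (cut := Cut.none) (xt := Ext.none) (P1 := 1073741824) (W1 := 536870912) (P2 := 536870912) (W2 := 536870912) (P3 := 1046898278) (W3 := 26843546) (N0 := 3)
    rfl k0_pp_213

noncomputable def f_pp_303 : ℕ → ℕ → ℕ → ℕ → Bool := onCell 0 1230186008 0 536870912 1046898278 26843546
    (rowNX 3 0 true true true .npn 3 0 3 (qsf 0 1230186008 0 536870912 3) ndN6q3 ndN7q0 pcN3 Cut.none Ext.none)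

def k0_pp_303 : ∃ t, chk3 f_pp_303 t 1 1 1 = true :=
  ⟨(l 4), by decide +kernel⟩

theorem c_pp_303 : CertNX 0 1230186008 0 536870912 1046898278 26843546 3 true true true .npn 3 0 3
    ndN6q3 ndN7q0 pcN3 Cut.none Ext.none :=
  certNX0 (fam := true) (s1 := true) (s2 := true) (a := 3) (b := 0) (c := 3) (cn := .npn) (n1 := ndN6q3) (n2 := ndN7q0) (pc := pcN3) (cut := Cut.none) (xt := Ext.none) (P1 := 0) (W1 := 1230186008) (P2 := 0) (W2 := 536870912) (P3 := 1046898278) (W3 := 26843546) (N0 := 3)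
    rfl k0_pp_303

noncomputable def f_pp_313 : ℕ → ℕ → ℕ → ℕ → Bool := onCell 0 1230186008 536870912 536870912 1046898278 26843546
    (rowNX 3 0 true true true .dn 3 1 3 (qsf 0 1230186008 536870912 536870912 3) ndN6q3 ndN7q1 pcN3 Cut.none Ext.none)

def k0_pp_313 : ∃ t, chk3 f_pp_313 t 1 1 1 = true :=
  ⟨(l 4), by decide +kernel⟩

theorem c_pp_313 : CertNX 0 1230186008 536870912 536870912 1046898278 26843546 3 true true true .dn 3 1 3
    ndN6q3 ndN7q1 pcN3 Cut.none Ext.none :=
  certNX0 (fam := true) (s1 := true) (s2 := true) (a := 3) (b := 1) (c := 3) (cn := .dn) (n1 := ndN6q3) (n2 := ndN7q1) (pc := pcN3) (cut := Cut.none) (xt := Ext.none) (P1 := 0) (W1 := 1230186008) (P2 := 536870912) (W2 := 536870912) (P3 := 1046898278) (W3 := 26843546) (N0 := 3)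
    rfl k0_pp_313

noncomputable def f_pm_001 : ℕ → ℕ → ℕ → ℕ → Bool := onCell 0 536870912 0 536870912 1046898278 26843546
    (rowNX 3 0 true true false .up 0 0 1 (qsf 0 536870912 0 536870912 1) ndN6q0 ndN7q0 pcN1 Cut.none Ext.none)

def k0_pm_001 : ∃ t, chk3 f_pm_001 t 1 1 1 = true :=
  ⟨(l 3), by decide +kernel⟩

theorem c_pm_001 : CertNX 0 536870912 0 536870912 1046898278 26843546 3 true true false .up 0 0 1
    ndN6q0 ndN7q0 pcN1 Cut.none Ext.none :=
  certNX0 (fam := true) (s1 := true) (s2 := false) (a := 0) (b := 0) (c := 1) (cn := .up) (n1 := ndN6q0) (n2 := ndN7q0) (pc := pcN1) (cut := Cut.none) (xt := Ext.none) (P1 := 0) (W1 := 536870912) (P2 := 0) (W2 := 536870912) (P3 := 1046898278) (W3 := 26843546) (N0 := 3)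
    rfl k0_pm_001

noncomputable def f_pm_011 : ℕ → ℕ → ℕ → ℕ → Bool := onCell 0 536870912 536870912 536870912 1046898278 26843546
    (rowNX 3 1 true true false .pnn 0 1 1 (qsf 0 536870912 536870912 536870912 1) ndN6q0 ndN7q1 pcN1 Cut.none Ext.none)

def k0_pm_011 : ∃ t, chk3 f_pm_011 t 1 1 1 = true :=
  ⟨(l 3), by decide +kernel⟩

theorem c_pm_011 : CertNX 0 536870912 536870912 536870912 1046898278 26843546 3 true true false .pnn 0 1 1
    ndN6q0 ndN7q1 pcN1 Cut.none Ext.none :=
  certNX1 (fam := true) (s1 := true) (s2 := false) (a := 0) (b := 1) (c := 1) (cn := .pnn) (n1 := ndN6q0) (n2 := ndN7q1) (pc := pcN1) (cut := Cut.none) (xt := Ext.none) (P1 := 0) (W1 := 536870912) (P2 := 536870912) (W2 := 536870912) (P3 := 1046898278) (W3 := 26843546) (N0 := 3)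
    rfl (fun _ => rfl) k0_pm_011

noncomputable def f_pm_012 : ℕ → ℕ → ℕ → ℕ → Bool := onCell 1073741824 536870912 536870912 536870912 1046898278 26843546
    (rowNX 3 2 true true false .pnp 0 1 2 (qsf 0 536870912 536870912 536870912 2) ndN6q0 ndN7q1 pcN2 Cut.none Ext.none)

def k0_pm_012 : ∃ t, chk3 f_pm_012 t 1 1 1 = true :=
  ⟨(a (a (l 3) (a (a (a (l 3) (b (b (l 2) (a (l 3) (a (b (l 16592392) (l 3)) (b (a (l 16592392) (l 16508504)) (a (l 16041696) (l 16041696)))))) (a (l 3) (a (l 3) (a (b (b (l 15393256) (l 14504672)) (l 3)) (b (b (l 15393264) (l 14504672)) (b (c (b (l 13652976) (c (l 13457408) (l 13370992))) (l 13409784)) (c (b (c (l 13258952) (l 13186272)) (l 13127552)) (b (l 13096248) (c (l 13042976) (b (l 13004776) (l 12958488)))))))))))) (b (b (l 2) (l 16326640)) (b (b (l 15393264) (l 14504672)) (b (b (l 13598760) (c (l 13409432) (l 13249536))) (c (b (c (l 13198160) (l 13124312)) (l 13013736)) (b (l 13032496) (c (l 12925880) (b (l 12887264) (l 12837400)))))))))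 (b (b (l 2) (l 16326640)) (b (b (l 15393264) (l 14504672)) (b (c (b (l 13652976) (l 13409360)) (l 13409280)) (c (b (c (l 13145512) (l 13070624)) (l 12836992)) (b (l 12977208) (c (l 12743848) (b (l 12731560) (l 12603840)))))))))) (b (b (l 2) (l 16326640)) (b (b (l 15393264) (l 14504672)) (b (b (l 13598760) (c (a (l 13409360) (l 13409360)) (l 13249456))) (c (b (a (c (l 13145464) (l 13070576)) (l 13098104)) (l 12802264)) (b (l 12977160) (a (c (l 12708024) (l 12624584)) (l 12560248)))))))), by decide +kernel⟩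

theorem c_pm_012 : CertNX 0 536870912 536870912 536870912 1046898278 26843546 3 true true false .pnp 0 1 2
    ndN6q0 ndN7q1 pcN2 Cut.none Ext.none :=
  certNX2 (fam := true) (s1 := true) (s2 := false) (a := 0) (b := 1) (c := 2) (cn := .pnp) (n1 := ndN6q0) (n2 := ndN7q1) (pc := pcN2) (cut := Cut.none) (xt := Ext.none) (P1 := 0) (W1 := 536870912) (P2 := 536870912) (W2 := 536870912) (P3 := 1046898278) (W3 := 26843546) (N0 := 3)
    rfl (fun _ => rfl) k0_pm_012

noncomputable def f_pm_022 : ℕ → ℕ → ℕ → ℕ → Bool := onCell 0 536870912 1073741824 536870912 1046898278 26843546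
    (rowNX 3 1 true true false .pp 0 2 2 (qsf 0 536870912 1073741824 536870912 2) ndN6q0 ndN7q2 pcN2 Cut.none Ext.none)

def k0_pm_022 : ∃ t, chk3 f_pm_022 t 1 4 1 = true :=
  ⟨(l 3), by decide +kernel⟩

def k1_pm_022 : ∃ t, chk3 f_pm_022 t 1 10 1 = true :=
  ⟨(a (b (b (l 3) (b (l 3) (b (l 3) (b (a (a (l 3) (l 3)) (l 3)) (a (a (a (a (a (c (l 15460496) (c (l 15420200) (l 15225728))) (c (l 15284856) (l 15232848))) (c (l 15032880) (l 14954056))) (c (a (l 14659256) (l 14343928)) (l 14420160))) (a (c (c (a (l 14253472) (l 14104464)) (l 14094856)) (l 13997168)) (c (c (l 13778760) (a (l 13857992) (l 13619176))) (c (a (l 13762856) (l 13549456)) (l 13607512))))) (a (c (l 13080832) (a (c (a (l 13343008) (l 13114704)) (a (l 13275968) (c (l 13072136) (l 13034800)))) (l 12704096))) (l 1))))))) (a (a (a (a (c (a (l 15725136) (l 15576624)) (a (c (l 15692552) (l 15650080)) (l 15535424))) (c (l 15344448) (l 15277872))) (c (l 14816744) (l 14740088))) (a (c (c (a (l 14461312) (l 14127336))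 (l 14295976)) (l 14172848)) (c (c (a (b (l 13959000) (l 14124240)) (l 13817152)) (a (l 13967264) (b (l 13695136) (l 13860352)))) (l 13801232)))) (a (c (a (c (l 13509760) (a (b (l 13482944) (l 13628920)) (l 13338320))) (l 12992960)) (a (c (a (b (l 13246016) (l 13586664)) (b (l 13202904) (l 13342584))) (a (l 13427984) (b (l 13069400) (l 13306416)))) (c (l 12855328) (b (a (l 12878896) (l 12620048)) (a (l 13027192) (l 12765072)))))) (c (l 12270496) (l 12112336))))) (l 1)), by decide +kernel⟩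

def k2_pm_022 : ∃ t, chk3 f_pm_022 t 1 11 1 = true :=
  ⟨(a (a (a (a (a (c (a (l 16237184) (l 16133808)) (a (c (l 16220744) (l 16210064)) (l 16114312))) (c (l 15794128) (l 15942928))) (b (c (l 15373512) (l 15317872)) (c (l 15812288) (l 15773808)))) (a (b (l 14679752) (l 15253544)) (b (c (c (a (l 14391544) (l 14114096)) (l 14210576)) (l 14085480)) (l 14599768)))) (a (c (a (a (b (c (b (l 13834048) (l 14003576)) (l 13842344)) (l 14185864)) (b (c (l 13687960) (b (l 13561344) (l 13731184))) (l 13958360))) (a (b (c (l 13451928) (b (l 13315304) (l 13467288))) (c (l 13522632) (l 13689720))) (b (l 13162240) (c (l 13503528) (l 13279160))))) (a (b (l 13669712) (l 13963128)) (b (c (b (a (l 13243064) (l 12992024)) (a (l 13422040) (l 13139384))) (b (a (l 13205024) (l 12917424)) (l 13204944))) (l 13494696)))) (c (a (b (l 12782672) (c (l 13136856) (b (l 12986080) (l 13143456)))) (l 12524440)) (a (b (c (l 12680680) (a (b (l 12654624) (l 12811064)) (l 12341328))) (c (a (l 12849128) (b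 (l 12786944) (l 12942376))) (b (l 12828800) (l 13004528)))) (b (l 12211416) (c (l 12569688) (b (l 12405712) (a (l 12650504) (l 12487232))))))))) (a (c (l 11730872) (a (l 11887160) (l 1))) (l 1))), by decide +kernel⟩

def k3_pm_022 : ∃ t, chk3 f_pm_022 t 2 3 1 = true :=
  ⟨(a (a (b (a (a (b (c (l 16186176) (a (l 16129736) (l 16232608))) (c (l 15639360) (a (l 15683296) (l 15740288)))) (c (b (l 16378648) (l 15865392)) (b (l 16398184) (l 15861512)))) (b (c (l 16291152) (l 16273056)) (l 16128008))) (a (c (a (l 15697808) (l 15759496)) (c (l 15485824) (l 15704624))) (b (l 15885864) (l 15878288)))) (b (a (b (l 15692568) (l 16467160)) (b (l 15338256) (l 16145360))) (a (b (l 16077008) (l 16003560)) (b (l 16301496) (l 16109928))))) (b (a (b (a (l 14707216) (b (c (c (l 13812400) (l 13934848)) (l 13801992)) (l 14344200))) (a (l 15726352) (l 15179928))) (b (a (b (c (c (b (l 13369104) (l 13513728)) (a (l 13509488) (l 13244808))) (l 13308424)) (a (l 13830424) (l 13486960))) (c (b (c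 (l 13038816) (b (l 12883800) (l 13045480))) (c (b (l 13277408) (l 13426264)) (l 13049016))) (b (c (b (l 12661896) (l 12952912)) (l 12735272)) (l 13213928)))) (a (l 14490008) (b (c (l 13661376) (l 13546288)) (l 14118432))))) (a (b (l 16179872) (l 16465880)) (b (l 15010808) (l 16029680))))), by decide +kernel⟩

def k4_pm_022 : ∃ t, chk3 f_pm_022 t 3 3 1 = true :=
  ⟨(b (a (a (b (c (b (l 12524280) (a (c (l 13038680) (l 12942936)) (l 12674904))) (b (a (c (l 12569528) (b (l 12405544) (l 12439912))) (l 12211240)) (a (c (b (l 12808552) (l 12952768)) (l 12798040)) (c (l 12569528) (b (l 12405544) (l 12565744)))))) (b (c (a (c (l 13109000) (l 13258600)) (c (l 13038680) (l 12963904))) (a (l 13213800) (c (b (l 12808552) (l 12952768)) (l 12798040)))) (c (a (l 13661264) (c (l 13339688) (l 13258600))) (l 13443192)))) (b (c (l 12053368) (l 11887160)) (c (b (l 12524280) (a (l 12994560) (l 12674904))) (b (a (c (l 12569528) (b (l 12405544) (l 12565744))) (l 12211240)) (a (c (l 12776864)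 (l 12798040)) (c (l 12569528) (l 12378760))))))) (b (l 1) (c (l 11730872) (l 11553312)))) (a (b (a (b (a (l 14118328) (l 13403592)) (l 14419096)) (b (c (a (c (l 13339688) (l 13258600)) (l 12994560)) (a (l 13213800) (c (l 12881728) (l 12798040)))) (c (a (l 13661264) (c (l 13339688) (l 13258600))) (l 13443192)))) (a (l 15213552) (b (a (l 14118328) (l 13592336)) (l 14419096)))) (a (b (c (b (l 12524280) (a (l 12994560) (l 12674904))) (b (a (c (l 12569528) (l 12483616)) (l 12211240)) (a (c (l 12881728) (l 12798040)) (l 12270928)))) (b (c (a (l 13062048) (l 12994560)) (a (l 13213800) (l 12842776))) (c (a (l 13661264) (l 13292728)) (l 13443192)))) (b (l 11970208) (c (b (l 12524280) (l 12838264)) (b (a (l 12522592) (l 12211240)) (a (l 12842776) (l 12522592)))))))), by decide +kernel⟩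

theorem s5_pm_022 : ∃ t, chk3 f_pm_022 t 1 3 1 = true := ex3_a k3_pm_022 k4_pm_022

theorem s6_pm_022 : ∃ t, chk3 f_pm_022 t 1 5 1 = true := ex3_b k1_pm_022 k2_pm_022

theorem s7_pm_022 : ∃ t, chk3 f_pm_022 t 1 2 1 = true := ex3_b k0_pm_022 s6_pm_022

theorem s8_pm_022 : ∃ t, chk3 f_pm_022 t 1 1 1 = true := ex3_b s7_pm_022 s5_pm_022

theorem c_pm_022 : CertNX 0 536870912 1073741824 536870912 1046898278 26843546 3 true true false .pp 0 2 2
    ndN6q0 ndN7q2 pcN2 Cut.none Ext.none :=
  certNX1 (fam := true) (s1 := true) (s2 := false) (a := 0) (b := 2) (c := 2) (cn := .pp) (n1 := ndN6q0) (n2 := ndN7q2) (pc := pcN2) (cut := Cut.none) (xt := Ext.none) (P1 := 0) (W1 := 536870912) (P2 := 1073741824) (W2 := 536870912) (P3 := 1046898278) (W3 := 26843546) (N0 := 3)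
    rfl (fun _ => rfl) s8_pm_022

noncomputable def f_pm_023 : ℕ → ℕ → ℕ → ℕ → Bool := onCell 1610612736 536870912 1073741824 536870912 1046898278 26843546
    (rowNX 3 2 true true false .up 0 2 3 (qsf 0 536870912 1073741824 536870912 3) ndN6q0 ndN7q2 pcN3 Cut.none Ext.none)

def k0_pm_023 : ∃ t, chk3 f_pm_023 t 1 1 1 = true :=
  ⟨(b (a (b (b (a (c (l 12805328) (b (l 12687112) (l 13041488))) (l 2)) (b (c (l 13507200) (l 13351848)) (l 13786160))) (b (l 14744992) (l 15646432))) (a (b (l 2) (l 15213512)) (l 2))) (b (a (a (b (l 16345608) (l 16589848)) (l 16563512)) (a (l 16563560) (a (a (l 16565376) (l 2)) (l 2)))) (a (a (b (a (b (l 16273568) (a (l 16079352) (l 16181336))) (l 16521384)) (a (b (a (l 15939408) (l 16058376)) (a (c (l 15818808) (l 15788552)) (l 15939408))) (a (l 16162448) (l 16273568)))) (l 16620232)) (a (l 16777152) (a (l 16770640) (a (l 16749560) (a (l 16701928) (l 4)))))))), by decide +kernel⟩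

theorem c_pm_023 : CertNX 0 536870912 1073741824 536870912 1046898278 26843546 3 true true false .up 0 2 3
    ndN6q0 ndN7q2 pcN3 Cut.none Ext.none :=
  certNX2 (fam := true) (s1 := true) (s2 := false) (a := 0) (b := 2) (c := 3) (cn := .up) (n1 := ndN6q0) (n2 := ndN7q2) (pc := pcN3) (cut := Cut.none) (xt := Ext.none) (P1 := 0) (W1 := 536870912) (P2 := 1073741824) (W2 := 536870912) (P3 := 1046898278) (W3 := 26843546) (N0 := 3)
    rfl (fun _ => rfl) k0_pm_023

noncomputable def f_pm_033 : ℕ → ℕ → ℕ → ℕ → Bool := onCell 0 536870912 0 1230186008 1046898278 26843546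
    (rowNX 3 0 true true false .pnn 0 3 3 (qsf 0 536870912 0 1230186008 3) ndN6q0 ndN7q3 pcN3 Cut.none Ext.none)

def k0_pm_033 : ∃ t, chk3 f_pm_033 t 1 1 1 = true :=
  ⟨(b (l 4) (b (a (a (b (a (b (l 4) (l 4)) (l 4)) (b (a (a (c (l 15732368) (l 15709432)) (l 15878256)) (l 4)) (a (a (a (l 15683488) (l 15746784)) (l 15878272)) (a (l 16003528) (l 16103392))))) (b (l 4) (a (b (l 4) (l 4)) (l 4)))) (l 4)) (a (b (a (a (a (b (a (l 15683488) (l 15746792)) (a (l 15683488) (l 15746792))) (b (l 15878288) (l 15878288))) (a (b (l 16003544) (l 16003560)) (b (l 16104080) (l 16104112)))) (a (b (a (l 16251360) (l 16446632)) (l 16352544)) (b (a (l 16657728) (l 4)) (a (l 16666432) (l 16767976))))) (a (a (a (b (c (l 15732384) (l 15709464)) (c (l 15732384) (l 15709464))) (b (l 15878288) (l 15878288))) (a (l 16003560) (l 16104120))) (b (a (b (l 16352568) (l 16352576)) (l 16722664)) (l 16521376)))) (b (a (a (b (l 4) (b (l 4) (a (l 16767112) (l 4)))) (l 4)) (l 2)) (a (b (b (a (l 16769448) (l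 4)) (a (l 16776088) (a (l 16766824) (b (l 4) (l 16759440))))) (a (l 16777176) (b (a (l 16774336) (l 16767136)) (l 16776104)))) (b (l 4) (a (b (a (l 26005194679) (l 4)) (a (l 16768432) (l 16748376))) (b (l 4) (a (b (l 4) (l 16709640)) (l 4)))))))))), by decide +kernel⟩

theorem c_pm_033 : CertNX 0 536870912 0 1230186008 1046898278 26843546 3 true true false .pnn 0 3 3
    ndN6q0 ndN7q3 pcN3 Cut.none Ext.none :=
  certNX0 (fam := true) (s1 := true) (s2 := false) (a := 0) (b := 3) (c := 3) (cn := .pnn) (n1 := ndN6q0) (n2 := ndN7q3) (pc := pcN3) (cut := Cut.none) (xt := Ext.none) (P1 := 0) (W1 := 536870912) (P2 := 0) (W2 := 1230186008) (P3 := 1046898278) (W3 := 26843546) (N0 := 3)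
    rfl k0_pm_033

noncomputable def f_pm_101 : ℕ → ℕ → ℕ → ℕ → Bool := onCell 536870912 469762048 536870912 536870912 1046898278 26843546
    (rowNX 3 1 true true false .npn 1 0 1 (qsf 536870912 469762048 0 536870912 1) ndN6q1 ndN7q0 pcN1 Cut.none Ext.none)

def k0_pm_101 : ∃ t, chk3 f_pm_101 t 1 1 1 = true :=
  ⟨(l 3), by decide +kernel⟩

theorem c_pm_101 : CertNX 536870912 469762048 0 536870912 1046898278 26843546 3 true true false .npn 1 0 1
    ndN6q1 ndN7q0 pcN1 Cut.none Ext.none :=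
  certNX1 (fam := true) (s1 := true) (s2 := false) (a := 1) (b := 0) (c := 1) (cn := .npn) (n1 := ndN6q1) (n2 := ndN7q0) (pc := pcN1) (cut := Cut.none) (xt := Ext.none) (P1 := 536870912) (W1 := 469762048) (P2 := 0) (W2 := 536870912) (P3 := 1046898278) (W3 := 26843546) (N0 := 3)
    rfl (fun _ => rfl) k0_pm_101

noncomputable def f_pm_102 : ℕ → ℕ → ℕ → ℕ → Bool := onCell 536870912 469762048 1073741824 536870912 1046898278 26843546
    (rowNX 3 1 true true false .npp 1 0 2 (qsf 536870912 469762048 0 536870912 2) ndN6q1 ndN7q0 pcN2 Cut.none Ext.none)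

def k0_pm_102 : ∃ t, chk3 f_pm_102 t 1 1 1 = true :=
  ⟨(a (b (b (l 3) (a (l 2) (b (b (b (l 3) (b (l 16776800) (b (l 16777088) (b (l 16768752) (a (l 16768728) (l 16750664)))))) (l 16759592)) (l 16775464)))) (l 2)) (b (b (l 3) (a (b (b (b (a (l 3) (a (b (l 3) (l 16505296)) (l 850568346743))) (b (a (l 16776800) (a (l 16505432) (l 15553416))) (b (a (l 16774384) (a (l 16382688) (l 15559808))) (a (b (l 16721024) (l 16718976)) (a (l 16535736) (l 15596328)))))) (a (l 16726808) (l 16073800))) (a (l 16770560) (l 15894800))) (b (b (b (a (c (l 848955191975) (l 846270662311)) (c (a (l 840900859847) (c (l 13629088) (l 13564376))) (a (l 13536960) (l 13455232)))) (a (b (b (l 14238704) (l 14010544)) (b (c (l 14301048) (l 14214272)) (a (l 14588384) (l 14016352)))) (b (c (a (l 13530048) (c (l 13642144) (l 13577696))) (a (l 13544520) (l 13468960))) (c (a (b (l 13693336) (l 13743400)) (b (l 13661152) (l 13711664))) (b (l 13573328) (l 13625800)))))) (a (l 14300216) (a (l 13676208) (c (l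 13692872) (l 13558344))))) (a (l 14247504) (a (l 13499688) (c (l 13608560) (l 13470520))))))) (a (a (l 16777216) (b (l 15931624) (l 2))) (a (b (l 14238360) (l 14238360)) (c (a (l 13521920) (b (l 13592992) (l 13592992))) (b (l 13514480) (l 13514480))))))), by decide +kernel⟩

theorem c_pm_102 : CertNX 536870912 469762048 0 536870912 1046898278 26843546 3 true true false .npp 1 0 2
    ndN6q1 ndN7q0 pcN2 Cut.none Ext.none :=
  certNX1 (fam := true) (s1 := true) (s2 := false) (a := 1) (b := 0) (c := 2) (cn := .npp) (n1 := ndN6q1) (n2 := ndN7q0) (pc := pcN2) (cut := Cut.none) (xt := Ext.none) (P1 := 536870912) (W1 := 469762048) (P2 := 0) (W2 := 536870912) (P3 := 1046898278) (W3 := 26843546) (N0 := 3)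
    rfl (fun _ => rfl) k0_pm_102

noncomputable def f_pm_112 : ℕ → ℕ → ℕ → ℕ → Bool := onCell 536870912 469762048 1073741824 536870912 1046898278 26843546
    (rowNX 3 1 true true false .dn 1 1 2 (qsf 536870912 469762048 536870912 536870912 2) ndN6q1 ndN7q1 pcN2 Cut.none Ext.none)

def k0_pm_112 : ∃ t, chk3 f_pm_112 t 1 1 1 = true :=
  ⟨(a (b (b (l 3) (b (b (b (l 3) (c (b (l 16773984) (b (l 16771896) (b (l 16771288) (l 16998864)))) (b (l 16773864) (b (l 16771704) (b (l 16771184) (a (l 16759584) (l 16757808))))))) (a (l 16698808) (l 16759592))) (a (l 16458008) (l 16776400)))) (b (a (b (l 15961608) (a (l 14909064) (l 15604224))) (b (l 16670400) (l 16358024))) (a (b (a (c (b (l 14337832) (l 13778432)) (l 13877688)) (l 14789880)) (a (c (b (a (l 13199664) (l 13437568)) (a (l 12934744) (l 13169936))) (b (l 13230968) (a (l 12782544) (l 13041904)))) (c (b (l 14184720) (l 13542288)) (l 13760232)))) (b (l 15804520) (a (l 14621128) (l 15429600)))))) (b (b (l 1) (a (b (l 1) (a (l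 16770560) (l 1))) (l 1))) (a (b (a (l 16767056) (l 15931624)) (a (l 16267680) (a (l 16283152) (l 15447248)))) (a (b (l 14238360) (l 14167496)) (c (a (l 13521920) (l 471936214327)) (l 466030477271)))))), by decide +kernel⟩

theorem c_pm_112 : CertNX 536870912 469762048 536870912 536870912 1046898278 26843546 3 true true false .dn 1 1 2
    ndN6q1 ndN7q1 pcN2 Cut.none Ext.none :=
  certNX1 (fam := true) (s1 := true) (s2 := false) (a := 1) (b := 1) (c := 2) (cn := .dn) (n1 := ndN6q1) (n2 := ndN7q1) (pc := pcN2) (cut := Cut.none) (xt := Ext.none) (P1 := 536870912) (W1 := 469762048) (P2 := 536870912) (W2 := 536870912) (P3 := 1046898278) (W3 := 26843546) (N0 := 3)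
    rfl (fun _ => rfl) k0_pm_112

noncomputable def f_pm_113 : ℕ → ℕ → ℕ → ℕ → Bool := onCell 536870912 469762048 536870912 536870912 1046898278 26843546
    (rowNX 3 0 true true false .nn 1 1 3 (qsf 536870912 469762048 536870912 536870912 3) ndN6q1 ndN7q1 pcN3 Cut.none Ext.none)

def k0_pm_113 : ∃ t, chk3 f_pm_113 t 1 1 1 = true :=
  ⟨(a (b (l 1) (b (l 490192949191) (b (b (l 13598760) (l 512200992039)) (c (b (l 13056160) (l 12802264)) (b (l 12977160) (a (l 12665104) (l 12665104))))))) (b (a (b (l 1) (a (l 16326640) (l 15594736))) (a (b (l 14238360) (l 13802176)) (a (b (l 13591576) (l 13158288)) (b (l 13521600) (l 13090256))))) (a (b (a (l 14960280) (l 14251784)) (b (a (l 13466344) (l 12778784)) (a (c (l 12951736) (l 12792456)) (c (l 12325368) (b (l 12255824) (l 11947792)))))) (b (a (l 12507744) (a (l 11888728) (l 11836488))) (a (b (l 11127560) (c (l 10917160) (b (l 10533232) (l 10255360)))) (b (c (a (l 10892640) (l 10943056)) (l 10314312)) (c (b (c (l 10938456) (l 10556144))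 (l 10721896)) (b (l 9970736) (l 9758816))))))))), by decide +kernel⟩

theorem c_pm_113 : CertNX 536870912 469762048 536870912 536870912 1046898278 26843546 3 true true false .nn 1 1 3
    ndN6q1 ndN7q1 pcN3 Cut.none Ext.none :=
  certNX0 (fam := true) (s1 := true) (s2 := false) (a := 1) (b := 1) (c := 3) (cn := .nn) (n1 := ndN6q1) (n2 := ndN7q1) (pc := pcN3) (cut := Cut.none) (xt := Ext.none) (P1 := 536870912) (W1 := 469762048) (P2 := 536870912) (W2 := 536870912) (P3 := 1046898278) (W3 := 26843546) (N0 := 3)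
    rfl k0_pm_113

noncomputable def f_pm_123 : ℕ → ℕ → ℕ → ℕ → Bool := onCell 1610612736 536870912 1073741824 536870912 1046898278 26843546
    (rowNX 3 2 true true false .npn 1 2 3 (qsf 536870912 469762048 1073741824 536870912 3) ndN6q1 ndN7q2 pcN3 Cut.none Ext.none)

def k0_pm_123 : ∃ t, chk3 f_pm_123 t 2 1 1 = true :=
  ⟨(b (b (b (c (b (l 12823936) (a (l 13159144) (l 13159144))) (b (a (l 12687112) (l 12687112)) (l 13041488))) (b (c (l 13507200) (l 13351848)) (l 13786160))) (b (l 14744992) (l 15646432))) (b (l 570189511287) (l 1))), by decide +kernel⟩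

def k1_pm_123 : ∃ t, chk3 f_pm_123 t 3 1 1 = true :=
  ⟨(a (b (b (b (a (b (c (l 12686952) (l 12528880)) (c (l 13158984) (l 13041304))) (b (c (l 11800152) (l 11424888)) (c (l 12866584) (l 12663904)))) (b (a (l 13425096) (l 13377376)) (l 13786056))) (l 15213512)) (b (l 16563560) (l 16777152))) (a (b (b (b (b (c (a (l 11405112) (b (l 11401808) (l 12102080))) (a (l 10732680) (l 10727824))) (c (a (l 12656376) (b (l 12741776) (l 13243696))) (a (l 12267136) (l 12528040)))) (a (b (l 13341696) (l 13813032)) (b (l 13665472) (l 14134592)))) (a (l 15215704) (b (l 14876048) (l 15695840)))) (b (a (l 16565376) (l 16577536)) (l 16770640))) (b (a (b (b (c (b (a (l 12415256) (l 13143224)) (c (l 13981544) (l 13710192))) (b (b (l 10921536) (l 12054656)) (l 13315344))) (b (c (c (l 14687272) (l 14508800)) (l 14281904)) (l 14884320))) (b (l 15260960) (l 15686584))) (b (b (b (a (a (c (l 13932800) (l 12456528)) (l 2)) (l 2)) (a (c (l 14888960) (l 14413520)) (a (c (l 15680824) (l 15290096))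 (b (l 2) (a (l 16066752) (a (c (l 16457696) (l 16304680)) (c (a (l 16482456) (l 16510344)) (l 16499256)))))))) (a (b (c (l 15456600) (l 15229576)) (l 15729352)) (a (b (l 15988440) (l 16306640)) (a (c (l 16562992) (l 16475984)) (a (c (l 16712688) (l 16655568)) (b (a (l 16628664) (c (l 16668056) (l 16647928))) (a (l 16716992) (l 4)))))))) (a (b (l 15923752) (l 15697016)) (a (b (l 16427072) (l 15725768)) (a (b (l 16688600) (l 15770192)) (b (a (l 16755008) (l 4)) (l 4))))))) (b (a (l 16548968) (a (l 16504536) (a (l 16470280) (l 4)))) (a (l 16749560) (a (l 16701928) (l 4))))))), by decide +kernel⟩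

theorem s2_pm_123 : ∃ t, chk3 f_pm_123 t 1 1 1 = true := ex3_a k0_pm_123 k1_pm_123

theorem c_pm_123 : CertNX 536870912 469762048 1073741824 536870912 1046898278 26843546 3 true true false .npn 1 2 3
    ndN6q1 ndN7q2 pcN3 Cut.none Ext.none :=
  certNX2 (fam := true) (s1 := true) (s2 := false) (a := 1) (b := 2) (c := 3) (cn := .npn) (n1 := ndN6q1) (n2 := ndN7q2) (pc := pcN3) (cut := Cut.none) (xt := Ext.none) (P1 := 536870912) (W1 := 469762048) (P2 := 1073741824) (W2 := 536870912) (P3 := 1046898278) (W3 := 26843546) (N0 := 3)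
    rfl (fun _ => rfl) s2_pm_123

noncomputable def f_pm_133 : ℕ → ℕ → ℕ → ℕ → Bool := onCell 536870912 469762048 0 1230186008 1046898278 26843546
    (rowNX 3 0 true true false .dn 1 3 3 (qsf 536870912 469762048 0 1230186008 3) ndN6q1 ndN7q3 pcN3 Cut.none Ext.none)

def k0_pm_133 : ∃ t, chk3 f_pm_133 t 1 1 1 = true :=
  ⟨(b (l 2) (b (l 2) (l 4))), by decide +kernel⟩

theorem c_pm_133 : CertNX 536870912 469762048 0 1230186008 1046898278 26843546 3 true true false .dn 1 3 3
    ndN6q1 ndN7q3 pcN3 Cut.none Ext.none :=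
  certNX0 (fam := true) (s1 := true) (s2 := false) (a := 1) (b := 3) (c := 3) (cn := .dn) (n1 := ndN6q1) (n2 := ndN7q3) (pc := pcN3) (cut := Cut.none) (xt := Ext.none) (P1 := 536870912) (W1 := 469762048) (P2 := 0) (W2 := 1230186008) (P3 := 1046898278) (W3 := 26843546) (N0 := 3)
    rfl k0_pm_133

noncomputable def f_pm_202 : ℕ → ℕ → ℕ → ℕ → Bool := onCell 1073741824 536870912 1073741824 536870912 1046898278 26843546
    (rowNX 3 1 true true false .pp 2 0 2 (qsf 1073741824 536870912 0 536870912 2) ndN6q2 ndN7q0 pcN2 Cut.none Ext.none)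

def k0_pm_202 : ∃ t, chk3 f_pm_202 t 1 1 1 = true :=
  ⟨(b (b (a (a (a (b (b (b (a (c (l 13640744) (c (l 13557008) (l 13499520))) (l 1)) (c (l 13557248) (l 13442392))) (c (b (l 13365984) (a (l 13096632) (l 13266336))) (a (l 13058160) (l 13240904)))) (b (a (c (l 12841824) (l 12701584)) (c (l 13000160) (l 12866560))) (a (b (b (l 12558808) (l 12471576)) (l 12345920)) (l 12590504)))) (b (a (l 368857071671) (l 1)) (a (b (l 13071560) (l 12742576)) (l 12726584)))) (a (b (l 1) (a (b (l 1) (l 12520304)) (l 1))) (l 1))) (l 1)) (a (a (b (a (a (b (b (l 12187576) (b (l 12267872) (l 12526352))) (a (l 12913336) (l 13198056))) (b (l 12476664) (l 13350072))) (b (b (l 12430864) (l 12652400)) (l 13413808))) (a (b (l 14188232) (l 14656040)) (b (l 14349712) (l 14816160)))) (b (a (a (b (a (l 12301792) (l 12521040)) (l 13281112)) (b (l 13225344) (l 14093056))) (b (l 1) (a (l 14956664) (l 1)))) (a (b (a (l 14213664) (l 15023312)) (l 15008112)) (b (a (l 15884888) (l 16314912)) (l 16567296)))))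 (b (l 1) (b (l 1) (l 16776576))))) (a (a (b (a (l 14656704) (l 14816816)) (l 14737424)) (a (b (a (l 14679208) (l 15487608)) (l 14945848)) (b (a (l 16347856) (l 16776616)) (l 16567944)))) (b (c (l 16777216) (l 16777216)) (l 16777216)))), by decide +kernel⟩

theorem c_pm_202 : CertNX 1073741824 536870912 0 536870912 1046898278 26843546 3 true true false .pp 2 0 2
    ndN6q2 ndN7q0 pcN2 Cut.none Ext.none :=
  certNX1 (fam := true) (s1 := true) (s2 := false) (a := 2) (b := 0) (c := 2) (cn := .pp) (n1 := ndN6q2) (n2 := ndN7q0) (pc := pcN2) (cut := Cut.none) (xt := Ext.none) (P1 := 1073741824) (W1 := 536870912) (P2 := 0) (W2 := 536870912) (P3 := 1046898278) (W3 := 26843546) (N0 := 3)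
    rfl (fun _ => rfl) k0_pm_202

noncomputable def f_pm_203 : ℕ → ℕ → ℕ → ℕ → Bool := onCell 1073741824 536870912 1610612736 536870912 1046898278 26843546
    (rowNX 3 1 true true false .up 2 0 3 (qsf 1073741824 536870912 0 536870912 3) ndN6q2 ndN7q0 pcN3 Cut.none Ext.none)

def k0_pm_203 : ∃ t, chk3 f_pm_203 t 1 1 1 = true :=
  ⟨(a (b (a (b (l 14737424) (l 14737424)) (b (a (l 15092648) (l 16567944)) (a (l 15008760) (l 16567944)))) (b (a (l 2) (a (l 2) (b (l 16567952) (l 2)))) (l 2))) (b (b (a (l 16777216) (l 16777216)) (c (l 16777216) (l 16777216))) (b (c (l 16777192) (l 16777192)) (l 4)))), by decide +kernel⟩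

theorem c_pm_203 : CertNX 1073741824 536870912 0 536870912 1046898278 26843546 3 true true false .up 2 0 3
    ndN6q2 ndN7q0 pcN3 Cut.none Ext.none :=
  certNX1 (fam := true) (s1 := true) (s2 := false) (a := 2) (b := 0) (c := 3) (cn := .up) (n1 := ndN6q2) (n2 := ndN7q0) (pc := pcN3) (cut := Cut.none) (xt := Ext.none) (P1 := 1073741824) (W1 := 536870912) (P2 := 0) (W2 := 536870912) (P3 := 1046898278) (W3 := 26843546) (N0 := 3)
    rfl (fun _ => rfl) k0_pm_203

noncomputable def f_pm_213 : ℕ → ℕ → ℕ → ℕ → Bool := onCell 1073741824 536870912 1610612736 536870912 1046898278 26843546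
    (rowNX 3 1 true true false .pnn 2 1 3 (qsf 1073741824 536870912 536870912 536870912 3) ndN6q2 ndN7q1 pcN3 Cut.none Ext.none)

def k0_pm_213 : ∃ t, chk3 f_pm_213 t 1 1 1 = true :=
  ⟨(a (b (a (b (l 14737424) (a (b (l 14586440) (l 14322000)) (l 14788240))) (b (a (l 15092648) (l 1)) (a (l 15008760) (l 16567944)))) (b (a (b (a (l 13948816) (l 14659704)) (a (a (l 13134440) (l 14031696)) (l 14615520))) (a (b (l 15081512) (l 15113928)) (b (l 16567952) (l 16585416)))) (b (a (a (a (b (l 12776784) (a (l 12547456) (l 13341576))) (b (l 14042696) (l 14231728))) (b (l 14787392) (l 15111560))) (a (b (l 15290288) (l 4)) (l 223572203047))) (b (b (a (a (a (c (l 13801288) (l 12924984)) (l 4)) (l 4)) (l 4)) (l 4)) (l 4))))) (b (b (l 1) (c (l 16777216) (l 16777216))) (b (c (l 16777192) (l 16777192)) (l 4)))), by decide +kernel⟩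

theorem c_pm_213 : CertNX 1073741824 536870912 536870912 536870912 1046898278 26843546 3 true true false .pnn 2 1 3
    ndN6q2 ndN7q1 pcN3 Cut.none Ext.none :=
  certNX1 (fam := true) (s1 := true) (s2 := false) (a := 2) (b := 1) (c := 3) (cn := .pnn) (n1 := ndN6q2) (n2 := ndN7q1) (pc := pcN3) (cut := Cut.none) (xt := Ext.none) (P1 := 1073741824) (W1 := 536870912) (P2 := 536870912) (W2 := 536870912) (P3 := 1046898278) (W3 := 26843546) (N0 := 3)
    rfl (fun _ => rfl) k0_pm_213

noncomputable def f_pm_303 : ℕ → ℕ → ℕ → ℕ → Bool := onCell 0 1230186008 1610612736 536870912 1046898278 26843546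
    (rowNX 3 1 true true false .npn 3 0 3 (qsf 0 1230186008 0 536870912 3) ndN6q3 ndN7q0 pcN3 Cut.none Ext.none)

def k0_pm_303 : ∃ t, chk3 f_pm_303 t 1 1 1 = true :=
  ⟨(a (l 4) (a (b (b (l 1) (l 4)) (l 4)) (b (b (c (l 16777216) (l 16777216)) (c (l 16777216) (l 16777216))) (b (l 4) (l 4))))), by decide +kernel⟩

theorem c_pm_303 : CertNX 0 1230186008 0 536870912 1046898278 26843546 3 true true false .npn 3 0 3
    ndN6q3 ndN7q0 pcN3 Cut.none Ext.none :=
  certNX1 (fam := true) (s1 := true) (s2 := false) (a := 3) (b := 0) (c := 3) (cn := .npn) (n1 := ndN6q3) (n2 := ndN7q0) (pc := pcN3) (cut := Cut.none) (xt := Ext.none) (P1 := 0) (W1 := 1230186008) (P2 := 0) (W2 := 536870912) (P3 := 1046898278) (W3 := 26843546) (N0 := 3)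
    rfl (fun _ => rfl) k0_pm_303

noncomputable def f_pm_313 : ℕ → ℕ → ℕ → ℕ → Bool := onCell 0 1230186008 536870912 536870912 1046898278 26843546
    (rowNX 3 0 true true false .dn 3 1 3 (qsf 0 1230186008 536870912 536870912 3) ndN6q3 ndN7q1 pcN3 Cut.none Ext.none)

def k0_pm_313 : ∃ t, chk3 f_pm_313 t 1 1 1 = true :=
  ⟨(a (l 2) (l 4)), by decide +kernel⟩

theorem c_pm_313 : CertNX 0 1230186008 536870912 536870912 1046898278 26843546 3 true true false .dn 3 1 3
    ndN6q3 ndN7q1 pcN3 Cut.none Ext.none :=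
  certNX0 (fam := true) (s1 := true) (s2 := false) (a := 3) (b := 1) (c := 3) (cn := .dn) (n1 := ndN6q3) (n2 := ndN7q1) (pc := pcN3) (cut := Cut.none) (xt := Ext.none) (P1 := 0) (W1 := 1230186008) (P2 := 536870912) (W2 := 536870912) (P3 := 1046898278) (W3 := 26843546) (N0 := 3)
    rfl k0_pm_313

noncomputable def f_mm_001 : ℕ → ℕ → ℕ → ℕ → Bool := onCell 0 536870912 0 536870912 1046898278 26843546
    (rowNX 3 0 true false false .up 0 0 1 (qsf 0 536870912 0 536870912 1) ndN6q0 ndN7q0 pcN1 Cut.none Ext.none)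

def k0_mm_001 : ∃ t, chk3 f_mm_001 t 1 1 1 = true :=
  ⟨(l 4), by decide +kernel⟩

theorem c_mm_001 : CertNX 0 536870912 0 536870912 1046898278 26843546 3 true false false .up 0 0 1
    ndN6q0 ndN7q0 pcN1 Cut.none Ext.none :=
  certNX0 (fam := true) (s1 := false) (s2 := false) (a := 0) (b := 0) (c := 1) (cn := .up) (n1 := ndN6q0) (n2 := ndN7q0) (pc := pcN1) (cut := Cut.none) (xt := Ext.none) (P1 := 0) (W1 := 536870912) (P2 := 0) (W2 := 536870912) (P3 := 1046898278) (W3 := 26843546) (N0 := 3)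
    rfl k0_mm_001

noncomputable def f_mm_011 : ℕ → ℕ → ℕ → ℕ → Bool := onCell 0 536870912 536870912 536870912 1046898278 26843546
    (rowNX 3 0 true false false .pnn 0 1 1 (qsf 0 536870912 536870912 536870912 1) ndN6q0 ndN7q1 pcN1 Cut.none Ext.none)

def k0_mm_011 : ∃ t, chk3 f_mm_011 t 1 1 1 = true :=
  ⟨(l 4), by decide +kernel⟩

theorem c_mm_011 : CertNX 0 536870912 536870912 536870912 1046898278 26843546 3 true false false .pnn 0 1 1
    ndN6q0 ndN7q1 pcN1 Cut.none Ext.none :=
  certNX0 (fam := true) (s1 := false) (s2 := false) (a := 0) (b := 1) (c := 1) (cn := .pnn) (n1 := ndN6q0) (n2 := ndN7q1) (pc := pcN1) (cut := Cut.none) (xt := Ext.none) (P1 := 0) (W1 := 536870912) (P2 := 536870912) (W2 := 536870912) (P3 := 1046898278) (W3 := 26843546) (N0 := 3)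
    rfl k0_mm_011

noncomputable def f_mm_012 : ℕ → ℕ → ℕ → ℕ → Bool := onCell 0 536870912 536870912 536870912 1046898278 26843546
    (rowNX 3 0 true false false .pnp 0 1 2 (qsf 0 536870912 536870912 536870912 2) ndN6q0 ndN7q1 pcN2 Cut.none Ext.none)

def k0_mm_012 : ∃ t, chk3 f_mm_012 t 1 1 1 = true :=
  ⟨(l 4), by decide +kernel⟩

theorem c_mm_012 : CertNX 0 536870912 536870912 536870912 1046898278 26843546 3 true false false .pnp 0 1 2
    ndN6q0 ndN7q1 pcN2 Cut.none Ext.none :=
  certNX0 (fam := true) (s1 := false) (s2 := false) (a := 0) (b := 1) (c := 2) (cn := .pnp) (n1 := ndN6q0) (n2 := ndN7q1) (pc := pcN2) (cut := Cut.none) (xt := Ext.none) (P1 := 0) (W1 := 536870912) (P2 := 536870912) (W2 := 536870912) (P3 := 1046898278) (W3 := 26843546) (N0 := 3)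
    rfl k0_mm_012

noncomputable def f_mm_022 : ℕ → ℕ → ℕ → ℕ → Bool := onCell 0 536870912 1073741824 536870912 1046898278 26843546
    (rowNX 3 0 true false false .pp 0 2 2 (qsf 0 536870912 1073741824 536870912 2) ndN6q0 ndN7q2 pcN2 Cut.none Ext.none)

def k0_mm_022 : ∃ t, chk3 f_mm_022 t 1 1 1 = true :=
  ⟨(l 4), by decide +kernel⟩

theorem c_mm_022 : CertNX 0 536870912 1073741824 536870912 1046898278 26843546 3 true false false .pp 0 2 2
    ndN6q0 ndN7q2 pcN2 Cut.none Ext.none :=
  certNX0 (fam := true) (s1 := false) (s2 := false) (a := 0) (b := 2) (c := 2) (cn := .pp) (n1 := ndN6q0) (n2 := ndN7q2) (pc := pcN2) (cut := Cut.none) (xt := Ext.none) (P1 := 0) (W1 := 536870912) (P2 := 1073741824) (W2 := 536870912) (P3 := 1046898278) (W3 := 26843546) (N0 := 3)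
    rfl k0_mm_022

noncomputable def f_mm_023 : ℕ → ℕ → ℕ → ℕ → Bool := onCell 0 536870912 1073741824 536870912 1046898278 26843546
    (rowNX 3 0 true false false .up 0 2 3 (qsf 0 536870912 1073741824 536870912 3) ndN6q0 ndN7q2 pcN3 Cut.none Ext.none)

def k0_mm_023 : ∃ t, chk3 f_mm_023 t 1 1 1 = true :=
  ⟨(l 4), by decide +kernel⟩

theorem c_mm_023 : CertNX 0 536870912 1073741824 536870912 1046898278 26843546 3 true false false .up 0 2 3
    ndN6q0 ndN7q2 pcN3 Cut.none Ext.none :=
  certNX0 (fam := true) (s1 := false) (s2 := false) (a := 0) (b := 2) (c := 3) (cn := .up) (n1 := ndN6q0) (n2 := ndN7q2) (pc := pcN3) (cut := Cut.none) (xt := Ext.none) (P1 := 0) (W1 := 536870912) (P2 := 1073741824) (W2 := 536870912) (P3 := 1046898278) (W3 := 26843546) (N0 := 3)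
    rfl k0_mm_023

noncomputable def f_mm_033 : ℕ → ℕ → ℕ → ℕ → Bool := onCell 0 536870912 0 1230186008 1046898278 26843546
    (rowNX 3 0 true false false .pnn 0 3 3 (qsf 0 536870912 0 1230186008 3) ndN6q0 ndN7q3 pcN3 Cut.none Ext.none)

def k0_mm_033 : ∃ t, chk3 f_mm_033 t 1 1 1 = true :=
  ⟨(l 4), by decide +kernel⟩

theorem c_mm_033 : CertNX 0 536870912 0 1230186008 1046898278 26843546 3 true false false .pnn 0 3 3
    ndN6q0 ndN7q3 pcN3 Cut.none Ext.none :=
  certNX0 (fam := true) (s1 := false) (s2 := false) (a := 0) (b := 3) (c := 3) (cn := .pnn) (n1 := ndN6q0) (n2 := ndN7q3) (pc := pcN3) (cut := Cut.none) (xt := Ext.none) (P1 := 0) (W1 := 536870912) (P2 := 0) (W2 := 1230186008) (P3 := 1046898278) (W3 := 26843546) (N0 := 3)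
    rfl k0_mm_033

noncomputable def f_mm_101 : ℕ → ℕ → ℕ → ℕ → Bool := onCell 536870912 469762048 0 536870912 1046898278 26843546
    (rowNX 3 0 true false false .npn 1 0 1 (qsf 536870912 469762048 0 536870912 1) ndN6q1 ndN7q0 pcN1 Cut.none Ext.none)

def k0_mm_101 : ∃ t, chk3 f_mm_101 t 1 1 1 = true :=
  ⟨(l 4), by decide +kernel⟩

theorem c_mm_101 : CertNX 536870912 469762048 0 536870912 1046898278 26843546 3 true false false .npn 1 0 1
    ndN6q1 ndN7q0 pcN1 Cut.none Ext.none :=
  certNX0 (fam := true) (s1 := false) (s2 := false) (a := 1) (b := 0) (c := 1) (cn := .npn) (n1 := ndN6q1) (n2 := ndN7q0) (pc := pcN1) (cut := Cut.none) (xt := Ext.none) (P1 := 536870912) (W1 := 469762048) (P2 := 0) (W2 := 536870912) (P3 := 1046898278) (W3 := 26843546) (N0 := 3)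
    rfl k0_mm_101

noncomputable def f_mm_102 : ℕ → ℕ → ℕ → ℕ → Bool := onCell 536870912 469762048 0 536870912 1046898278 26843546
    (rowNX 3 0 true false false .npp 1 0 2 (qsf 536870912 469762048 0 536870912 2) ndN6q1 ndN7q0 pcN2 Cut.none Ext.none)

def k0_mm_102 : ∃ t, chk3 f_mm_102 t 1 1 1 = true :=
  ⟨(l 4), by decide +kernel⟩

theorem c_mm_102 : CertNX 536870912 469762048 0 536870912 1046898278 26843546 3 true false false .npp 1 0 2
    ndN6q1 ndN7q0 pcN2 Cut.none Ext.none :=
  certNX0 (fam := true) (s1 := false) (s2 := false) (a := 1) (b := 0) (c := 2) (cn := .npp) (n1 := ndN6q1) (n2 := ndN7q0) (pc := pcN2) (cut := Cut.none) (xt := Ext.none) (P1 := 536870912) (W1 := 469762048) (P2 := 0) (W2 := 536870912) (P3 := 1046898278) (W3 := 26843546) (N0 := 3)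
    rfl k0_mm_102

noncomputable def f_mm_112 : ℕ → ℕ → ℕ → ℕ → Bool := onCell 536870912 469762048 536870912 536870912 1046898278 26843546
    (rowNX 3 0 true false false .dn 1 1 2 (qsf 536870912 469762048 536870912 536870912 2) ndN6q1 ndN7q1 pcN2 Cut.none Ext.none)

def k0_mm_112 : ∃ t, chk3 f_mm_112 t 1 1 1 = true :=
  ⟨(l 4), by decide +kernel⟩

theorem c_mm_112 : CertNX 536870912 469762048 536870912 536870912 1046898278 26843546 3 true false false .dn 1 1 2
    ndN6q1 ndN7q1 pcN2 Cut.none Ext.none :=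
  certNX0 (fam := true) (s1 := false) (s2 := false) (a := 1) (b := 1) (c := 2) (cn := .dn) (n1 := ndN6q1) (n2 := ndN7q1) (pc := pcN2) (cut := Cut.none) (xt := Ext.none) (P1 := 536870912) (W1 := 469762048) (P2 := 536870912) (W2 := 536870912) (P3 := 1046898278) (W3 := 26843546) (N0 := 3)
    rfl k0_mm_112

noncomputable def f_mm_113 : ℕ → ℕ → ℕ → ℕ → Bool := onCell 536870912 469762048 536870912 536870912 1046898278 26843546
    (rowNX 3 0 true false false .nn 1 1 3 (qsf 536870912 469762048 536870912 536870912 3) ndN6q1 ndN7q1 pcN3 Cut.none Ext.none)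

def k0_mm_113 : ∃ t, chk3 f_mm_113 t 1 1 1 = true :=
  ⟨(l 4), by decide +kernel⟩

theorem c_mm_113 : CertNX 536870912 469762048 536870912 536870912 1046898278 26843546 3 true false false .nn 1 1 3
    ndN6q1 ndN7q1 pcN3 Cut.none Ext.none :=
  certNX0 (fam := true) (s1 := false) (s2 := false) (a := 1) (b := 1) (c := 3) (cn := .nn) (n1 := ndN6q1) (n2 := ndN7q1) (pc := pcN3) (cut := Cut.none) (xt := Ext.none) (P1 := 536870912) (W1 := 469762048) (P2 := 536870912) (W2 := 536870912) (P3 := 1046898278) (W3 := 26843546) (N0 := 3)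
    rfl k0_mm_113

noncomputable def f_mm_123 : ℕ → ℕ → ℕ → ℕ → Bool := onCell 536870912 469762048 1073741824 536870912 1046898278 26843546
    (rowNX 3 0 true false false .npn 1 2 3 (qsf 536870912 469762048 1073741824 536870912 3) ndN6q1 ndN7q2 pcN3 Cut.none Ext.none)

def k0_mm_123 : ∃ t, chk3 f_mm_123 t 1 1 1 = true :=
  ⟨(l 4), by decide +kernel⟩

theorem c_mm_123 : CertNX 536870912 469762048 1073741824 536870912 1046898278 26843546 3 true false false .npn 1 2 3
    ndN6q1 ndN7q2 pcN3 Cut.none Ext.none :=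
  certNX0 (fam := true) (s1 := false) (s2 := false) (a := 1) (b := 2) (c := 3) (cn := .npn) (n1 := ndN6q1) (n2 := ndN7q2) (pc := pcN3) (cut := Cut.none) (xt := Ext.none) (P1 := 536870912) (W1 := 469762048) (P2 := 1073741824) (W2 := 536870912) (P3 := 1046898278) (W3 := 26843546) (N0 := 3)
    rfl k0_mm_123

noncomputable def f_mm_133 : ℕ → ℕ → ℕ → ℕ → Bool := onCell 536870912 469762048 0 1230186008 1046898278 26843546
    (rowNX 3 0 true false false .dn 1 3 3 (qsf 536870912 469762048 0 1230186008 3) ndN6q1 ndN7q3 pcN3 Cut.none Ext.none)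

def k0_mm_133 : ∃ t, chk3 f_mm_133 t 1 1 1 = true :=
  ⟨(l 4), by decide +kernel⟩

theorem c_mm_133 : CertNX 536870912 469762048 0 1230186008 1046898278 26843546 3 true false false .dn 1 3 3
    ndN6q1 ndN7q3 pcN3 Cut.none Ext.none :=
  certNX0 (fam := true) (s1 := false) (s2 := false) (a := 1) (b := 3) (c := 3) (cn := .dn) (n1 := ndN6q1) (n2 := ndN7q3) (pc := pcN3) (cut := Cut.none) (xt := Ext.none) (P1 := 536870912) (W1 := 469762048) (P2 := 0) (W2 := 1230186008) (P3 := 1046898278) (W3 := 26843546) (N0 := 3)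
    rfl k0_mm_133

noncomputable def f_mm_202 : ℕ → ℕ → ℕ → ℕ → Bool := onCell 1073741824 536870912 0 536870912 1046898278 26843546
    (rowNX 3 0 true false false .pp 2 0 2 (qsf 1073741824 536870912 0 536870912 2) ndN6q2 ndN7q0 pcN2 Cut.none Ext.none)

def k0_mm_202 : ∃ t, chk3 f_mm_202 t 1 1 1 = true :=
  ⟨(l 4), by decide +kernel⟩

theorem c_mm_202 : CertNX 1073741824 536870912 0 536870912 1046898278 26843546 3 true false false .pp 2 0 2
    ndN6q2 ndN7q0 pcN2 Cut.none Ext.none :=
  certNX0 (fam := true) (s1 := false) (s2 := false) (a := 2) (b := 0) (c := 2) (cn := .pp) (n1 := ndN6q2) (n2 := ndN7q0) (pc := pcN2) (cut := Cut.none) (xt := Ext.none) (P1 := 1073741824) (W1 := 536870912) (P2 := 0) (W2 := 536870912) (P3 := 1046898278) (W3 := 26843546) (N0 := 3)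
    rfl k0_mm_202

noncomputable def f_mm_203 : ℕ → ℕ → ℕ → ℕ → Bool := onCell 1073741824 536870912 0 536870912 1046898278 26843546
    (rowNX 3 0 true false false .up 2 0 3 (qsf 1073741824 536870912 0 536870912 3) ndN6q2 ndN7q0 pcN3 Cut.none Ext.none)

def k0_mm_203 : ∃ t, chk3 f_mm_203 t 1 1 1 = true :=
  ⟨(l 4), by decide +kernel⟩

theorem c_mm_203 : CertNX 1073741824 536870912 0 536870912 1046898278 26843546 3 true false false .up 2 0 3
    ndN6q2 ndN7q0 pcN3 Cut.none Ext.none :=
  certNX0 (fam := true) (s1 := false) (s2 := false) (a := 2) (b := 0) (c := 3) (cn := .up) (n1 := ndN6q2) (n2 := ndN7q0) (pc := pcN3) (cut := Cut.none) (xt := Ext.none) (P1 := 1073741824) (W1 := 536870912) (P2 := 0) (W2 := 536870912) (P3 := 1046898278) (W3 := 26843546) (N0 := 3)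
    rfl k0_mm_203

noncomputable def f_mm_213 : ℕ → ℕ → ℕ → ℕ → Bool := onCell 1073741824 536870912 536870912 536870912 1046898278 26843546
    (rowNX 3 0 true false false .pnn 2 1 3 (qsf 1073741824 536870912 536870912 536870912 3) ndN6q2 ndN7q1 pcN3 Cut.none Ext.none)

def k0_mm_213 : ∃ t, chk3 f_mm_213 t 1 1 1 = true :=
  ⟨(l 4), by decide +kernel⟩

theorem c_mm_213 : CertNX 1073741824 536870912 536870912 536870912 1046898278 26843546 3 true false false .pnn 2 1 3
    ndN6q2 ndN7q1 pcN3 Cut.none Ext.none :=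
  certNX0 (fam := true) (s1 := false) (s2 := false) (a := 2) (b := 1) (c := 3) (cn := .pnn) (n1 := ndN6q2) (n2 := ndN7q1) (pc := pcN3) (cut := Cut.none) (xt := Ext.none) (P1 := 1073741824) (W1 := 536870912) (P2 := 536870912) (W2 := 536870912) (P3 := 1046898278) (W3 := 26843546) (N0 := 3)
    rfl k0_mm_213

noncomputable def f_mm_303 : ℕ → ℕ → ℕ → ℕ → Bool := onCell 0 1230186008 0 536870912 1046898278 26843546
    (rowNX 3 0 true false false .npn 3 0 3 (qsf 0 1230186008 0 536870912 3) ndN6q3 ndN7q0 pcN3 Cut.none Ext.none)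

def k0_mm_303 : ∃ t, chk3 f_mm_303 t 1 1 1 = true :=
  ⟨(l 4), by decide +kernel⟩

theorem c_mm_303 : CertNX 0 1230186008 0 536870912 1046898278 26843546 3 true false false .npn 3 0 3
    ndN6q3 ndN7q0 pcN3 Cut.none Ext.none :=
  certNX0 (fam := true) (s1 := false) (s2 := false) (a := 3) (b := 0) (c := 3) (cn := .npn) (n1 := ndN6q3) (n2 := ndN7q0) (pc := pcN3) (cut := Cut.none) (xt := Ext.none) (P1 := 0) (W1 := 1230186008) (P2 := 0) (W2 := 536870912) (P3 := 1046898278) (W3 := 26843546) (N0 := 3)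
    rfl k0_mm_303

noncomputable def f_mm_313 : ℕ → ℕ → ℕ → ℕ → Bool := onCell 0 1230186008 536870912 536870912 1046898278 26843546
    (rowNX 3 0 true false false .dn 3 1 3 (qsf 0 1230186008 536870912 536870912 3) ndN6q3 ndN7q1 pcN3 Cut.none Ext.none)

def k0_mm_313 : ∃ t, chk3 f_mm_313 t 1 1 1 = true :=
  ⟨(l 4), by decide +kernel⟩

theorem c_mm_313 : CertNX 0 1230186008 536870912 536870912 1046898278 26843546 3 true false false .dn 3 1 3
    ndN6q3 ndN7q1 pcN3 Cut.none Ext.none :=
  certNX0 (fam := true) (s1 := false) (s2 := false) (a := 3) (b := 1) (c := 3) (cn := .dn) (n1 := ndN6q3) (n2 := ndN7q1) (pc := pcN3) (cut := Cut.none) (xt := Ext.none) (P1 := 0) (W1 := 1230186008) (P2 := 536870912) (W2 := 536870912) (P3 := 1046898278) (W3 := 26843546) (N0 := 3)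
    rfl k0_mm_313

end Pool.Agent.Strip051.G.IE1.Tab.C.NA67

namespace Pool.Agent.Strip051.G.IE1.Tab.C.NA77

open Pool.Agent.Strip051.PB Pool.Agent.Strip051.PB.T
open Pool.Agent.Strip051.G.IE1.Tab

noncomputable def f_pp_001 : ℕ → ℕ → ℕ → ℕ → Bool := onCell 0 536870912 0 536870912 1046898278 26843546
    (rowNX 3 0 true true true .up 0 0 1 (qsf 0 536870912 0 536870912 1) ndN7q0 ndN7q0 pcN1 Cut.none Ext.none)

def k0_pp_001 : ∃ t, chk3 f_pp_001 t 1 1 1 = true :=
  ⟨(l 4), by decide +kernel⟩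

theorem c_pp_001 : CertNX 0 536870912 0 536870912 1046898278 26843546 3 true true true .up 0 0 1
    ndN7q0 ndN7q0 pcN1 Cut.none Ext.none :=
  certNX0 (fam := true) (s1 := true) (s2 := true) (a := 0) (b := 0) (c := 1) (cn := .up) (n1 := ndN7q0) (n2 := ndN7q0) (pc := pcN1) (cut := Cut.none) (xt := Ext.none) (P1 := 0) (W1 := 536870912) (P2 := 0) (W2 := 536870912) (P3 := 1046898278) (W3 := 26843546) (N0 := 3)
    rfl k0_pp_001

noncomputable def f_pp_011 : ℕ → ℕ → ℕ → ℕ → Bool := onCell 0 536870912 536870912 536870912 1046898278 26843546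
    (rowNX 3 0 true true true .pnn 0 1 1 (qsf 0 536870912 536870912 536870912 1) ndN7q0 ndN7q1 pcN1 Cut.none Ext.none)

def k0_pp_011 : ∃ t, chk3 f_pp_011 t 1 1 1 = true :=
  ⟨(l 4), by decide +kernel⟩

theorem c_pp_011 : CertNX 0 536870912 536870912 536870912 1046898278 26843546 3 true true true .pnn 0 1 1
    ndN7q0 ndN7q1 pcN1 Cut.none Ext.none :=
  certNX0 (fam := true) (s1 := true) (s2 := true) (a := 0) (b := 1) (c := 1) (cn := .pnn) (n1 := ndN7q0) (n2 := ndN7q1) (pc := pcN1) (cut := Cut.none) (xt := Ext.none) (P1 := 0) (W1 := 536870912) (P2 := 536870912) (W2 := 536870912) (P3 := 1046898278) (W3 := 26843546) (N0 := 3)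
    rfl k0_pp_011

noncomputable def f_pp_012 : ℕ → ℕ → ℕ → ℕ → Bool := onCell 0 536870912 536870912 536870912 1046898278 26843546
    (rowNX 3 0 true true true .pnp 0 1 2 (qsf 0 536870912 536870912 536870912 2) ndN7q0 ndN7q1 pcN2 Cut.none Ext.none)

def k0_pp_012 : ∃ t, chk3 f_pp_012 t 1 1 1 = true :=
  ⟨(l 4), by decide +kernel⟩

theorem c_pp_012 : CertNX 0 536870912 536870912 536870912 1046898278 26843546 3 true true true .pnp 0 1 2
    ndN7q0 ndN7q1 pcN2 Cut.none Ext.none :=
  certNX0 (fam := true) (s1 := true) (s2 := true) (a := 0) (b := 1) (c := 2) (cn := .pnp) (n1 := ndN7q0) (n2 := ndN7q1) (pc := pcN2) (cut := Cut.none) (xt := Ext.none) (P1 := 0) (W1 := 536870912) (P2 := 536870912) (W2 := 536870912) (P3 := 1046898278) (W3 := 26843546) (N0 := 3)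
    rfl k0_pp_012

noncomputable def f_pp_022 : ℕ → ℕ → ℕ → ℕ → Bool := onCell 0 536870912 1073741824 536870912 1046898278 26843546
    (rowNX 3 0 true true true .pp 0 2 2 (qsf 0 536870912 1073741824 536870912 2) ndN7q0 ndN7q2 pcN2 Cut.none Ext.none)

def k0_pp_022 : ∃ t, chk3 f_pp_022 t 1 1 1 = true :=
  ⟨(l 4), by decide +kernel⟩

theorem c_pp_022 : CertNX 0 536870912 1073741824 536870912 1046898278 26843546 3 true true true .pp 0 2 2
    ndN7q0 ndN7q2 pcN2 Cut.none Ext.none :=
  certNX0 (fam := true) (s1 := true) (s2 := true) (a := 0) (b := 2) (c := 2) (cn := .pp) (n1 := ndN7q0) (n2 := ndN7q2) (pc := pcN2) (cut := Cut.none) (xt := Ext.none) (P1 := 0) (W1 := 536870912) (P2 := 1073741824) (W2 := 536870912) (P3 := 1046898278) (W3 := 26843546) (N0 := 3)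
    rfl k0_pp_022

noncomputable def f_pp_023 : ℕ → ℕ → ℕ → ℕ → Bool := onCell 0 536870912 1073741824 536870912 1046898278 26843546
    (rowNX 3 0 true true true .up 0 2 3 (qsf 0 536870912 1073741824 536870912 3) ndN7q0 ndN7q2 pcN3 Cut.none Ext.none)

def k0_pp_023 : ∃ t, chk3 f_pp_023 t 1 1 1 = true :=
  ⟨(l 4), by decide +kernel⟩

theorem c_pp_023 : CertNX 0 536870912 1073741824 536870912 1046898278 26843546 3 true true true .up 0 2 3
    ndN7q0 ndN7q2 pcN3 Cut.none Ext.none :=
  certNX0 (fam := true) (s1 := true) (s2 := true) (a := 0) (b := 2) (c := 3) (cn := .up) (n1 := ndN7q0) (n2 := ndN7q2) (pc := pcN3) (cut := Cut.none) (xt := Ext.none) (P1 := 0) (W1 := 536870912) (P2 := 1073741824) (W2 := 536870912) (P3 := 1046898278) (W3 := 26843546) (N0 := 3)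
    rfl k0_pp_023

noncomputable def f_pp_033 : ℕ → ℕ → ℕ → ℕ → Bool := onCell 0 536870912 0 1230186008 1046898278 26843546
    (rowNX 3 0 true true true .pnn 0 3 3 (qsf 0 536870912 0 1230186008 3) ndN7q0 ndN7q3 pcN3 Cut.none Ext.none)

def k0_pp_033 : ∃ t, chk3 f_pp_033 t 1 1 1 = true :=
  ⟨(l 4), by decide +kernel⟩

theorem c_pp_033 : CertNX 0 536870912 0 1230186008 1046898278 26843546 3 true true true .pnn 0 3 3
    ndN7q0 ndN7q3 pcN3 Cut.none Ext.none :=
  certNX0 (fam := true) (s1 := true) (s2 := true) (a := 0) (b := 3) (c := 3) (cn := .pnn) (n1 := ndN7q0) (n2 := ndN7q3) (pc := pcN3) (cut := Cut.none) (xt := Ext.none) (P1 := 0) (W1 := 536870912) (P2 := 0) (W2 := 1230186008) (P3 := 1046898278) (W3 := 26843546) (N0 := 3)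
    rfl k0_pp_033

noncomputable def f_pp_101 : ℕ → ℕ → ℕ → ℕ → Bool := onCell 536870912 536870912 0 536870912 1046898278 26843546
    (rowNX 3 0 true true true .npn 1 0 1 (qsf 536870912 536870912 0 536870912 1) ndN7q1 ndN7q0 pcN1 Cut.none Ext.none)

def k0_pp_101 : ∃ t, chk3 f_pp_101 t 1 1 1 = true :=
  ⟨(l 4), by decide +kernel⟩

theorem c_pp_101 : CertNX 536870912 536870912 0 536870912 1046898278 26843546 3 true true true .npn 1 0 1
    ndN7q1 ndN7q0 pcN1 Cut.none Ext.none :=
  certNX0 (fam := true) (s1 := true) (s2 := true) (a := 1) (b := 0) (c := 1) (cn := .npn) (n1 := ndN7q1) (n2 := ndN7q0) (pc := pcN1) (cut := Cut.none) (xt := Ext.none) (P1 := 536870912) (W1 := 536870912) (P2 := 0) (W2 := 536870912) (P3 := 1046898278) (W3 := 26843546) (N0 := 3)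
    rfl k0_pp_101

noncomputable def f_pp_102 : ℕ → ℕ → ℕ → ℕ → Bool := onCell 536870912 536870912 0 536870912 1046898278 26843546
    (rowNX 3 0 true true true .npp 1 0 2 (qsf 536870912 536870912 0 536870912 2) ndN7q1 ndN7q0 pcN2 Cut.none Ext.none)

def k0_pp_102 : ∃ t, chk3 f_pp_102 t 1 1 1 = true :=
  ⟨(l 4), by decide +kernel⟩

theorem c_pp_102 : CertNX 536870912 536870912 0 536870912 1046898278 26843546 3 true true true .npp 1 0 2
    ndN7q1 ndN7q0 pcN2 Cut.none Ext.none :=
  certNX0 (fam := true) (s1 := true) (s2 := true) (a := 1) (b := 0) (c := 2) (cn := .npp) (n1 := ndN7q1) (n2 := ndN7q0) (pc := pcN2) (cut := Cut.none) (xt := Ext.none) (P1 := 536870912) (W1 := 536870912) (P2 := 0) (W2 := 536870912) (P3 := 1046898278) (W3 := 26843546) (N0 := 3)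
    rfl k0_pp_102

noncomputable def f_pp_112 : ℕ → ℕ → ℕ → ℕ → Bool := onCell 536870912 536870912 536870912 536870912 1046898278 26843546
    (rowNX 3 0 true true true .dn 1 1 2 (qsf 536870912 536870912 536870912 536870912 2) ndN7q1 ndN7q1 pcN2 Cut.none Ext.none)

def k0_pp_112 : ∃ t, chk3 f_pp_112 t 1 1 1 = true :=
  ⟨(l 4), by decide +kernel⟩

theorem c_pp_112 : CertNX 536870912 536870912 536870912 536870912 1046898278 26843546 3 true true true .dn 1 1 2
    ndN7q1 ndN7q1 pcN2 Cut.none Ext.none :=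
  certNX0 (fam := true) (s1 := true) (s2 := true) (a := 1) (b := 1) (c := 2) (cn := .dn) (n1 := ndN7q1) (n2 := ndN7q1) (pc := pcN2) (cut := Cut.none) (xt := Ext.none) (P1 := 536870912) (W1 := 536870912) (P2 := 536870912) (W2 := 536870912) (P3 := 1046898278) (W3 := 26843546) (N0 := 3)
    rfl k0_pp_112

noncomputable def f_pp_113 : ℕ → ℕ → ℕ → ℕ → Bool := onCell 536870912 536870912 536870912 536870912 1046898278 26843546
    (rowNX 3 0 true true true .nn 1 1 3 (qsf 536870912 536870912 536870912 536870912 3) ndN7q1 ndN7q1 pcN3 Cut.none Ext.none)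

def k0_pp_113 : ∃ t, chk3 f_pp_113 t 1 1 1 = true :=
  ⟨(l 4), by decide +kernel⟩

theorem c_pp_113 : CertNX 536870912 536870912 536870912 536870912 1046898278 26843546 3 true true true .nn 1 1 3
    ndN7q1 ndN7q1 pcN3 Cut.none Ext.none :=
  certNX0 (fam := true) (s1 := true) (s2 := true) (a := 1) (b := 1) (c := 3) (cn := .nn) (n1 := ndN7q1) (n2 := ndN7q1) (pc := pcN3) (cut := Cut.none) (xt := Ext.none) (P1 := 536870912) (W1 := 536870912) (P2 := 536870912) (W2 := 536870912) (P3 := 1046898278) (W3 := 26843546) (N0 := 3)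
    rfl k0_pp_113

noncomputable def f_pp_123 : ℕ → ℕ → ℕ → ℕ → Bool := onCell 536870912 536870912 1073741824 536870912 1046898278 26843546
    (rowNX 3 0 true true true .npn 1 2 3 (qsf 536870912 536870912 1073741824 536870912 3) ndN7q1 ndN7q2 pcN3 Cut.none Ext.none)

def k0_pp_123 : ∃ t, chk3 f_pp_123 t 1 1 1 = true :=
  ⟨(l 4), by decide +kernel⟩

theorem c_pp_123 : CertNX 536870912 536870912 1073741824 536870912 1046898278 26843546 3 true true true .npn 1 2 3
    ndN7q1 ndN7q2 pcN3 Cut.none Ext.none :=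
  certNX0 (fam := true) (s1 := true) (s2 := true) (a := 1) (b := 2) (c := 3) (cn := .npn) (n1 := ndN7q1) (n2 := ndN7q2) (pc := pcN3) (cut := Cut.none) (xt := Ext.none) (P1 := 536870912) (W1 := 536870912) (P2 := 1073741824) (W2 := 536870912) (P3 := 1046898278) (W3 := 26843546) (N0 := 3)
    rfl k0_pp_123

noncomputable def f_pp_133 : ℕ → ℕ → ℕ → ℕ → Bool := onCell 536870912 536870912 0 1230186008 1046898278 26843546
    (rowNX 3 0 true true true .dn 1 3 3 (qsf 536870912 536870912 0 1230186008 3) ndN7q1 ndN7q3 pcN3 Cut.none Ext.none)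

def k0_pp_133 : ∃ t, chk3 f_pp_133 t 1 1 1 = true :=
  ⟨(l 4), by decide +kernel⟩

theorem c_pp_133 : CertNX 536870912 536870912 0 1230186008 1046898278 26843546 3 true true true .dn 1 3 3
    ndN7q1 ndN7q3 pcN3 Cut.none Ext.none :=
  certNX0 (fam := true) (s1 := true) (s2 := true) (a := 1) (b := 3) (c := 3) (cn := .dn) (n1 := ndN7q1) (n2 := ndN7q3) (pc := pcN3) (cut := Cut.none) (xt := Ext.none) (P1 := 536870912) (W1 := 536870912) (P2 := 0) (W2 := 1230186008) (P3 := 1046898278) (W3 := 26843546) (N0 := 3)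
    rfl k0_pp_133

noncomputable def f_pp_202 : ℕ → ℕ → ℕ → ℕ → Bool := onCell 1073741824 536870912 0 536870912 1046898278 26843546
    (rowNX 3 0 true true true .pp 2 0 2 (qsf 1073741824 536870912 0 536870912 2) ndN7q2 ndN7q0 pcN2 Cut.none Ext.none)

def k0_pp_202 : ∃ t, chk3 f_pp_202 t 1 1 1 = true :=
  ⟨(l 4), by decide +kernel⟩

theorem c_pp_202 : CertNX 1073741824 536870912 0 536870912 1046898278 26843546 3 true true true .pp 2 0 2
    ndN7q2 ndN7q0 pcN2 Cut.none Ext.none :=
  certNX0 (fam := true) (s1 := true) (s2 := true) (a := 2) (b := 0) (c := 2) (cn := .pp) (n1 := ndN7q2) (n2 := ndN7q0) (pc := pcN2) (cut := Cut.none) (xt := Ext.none) (P1 := 1073741824) (W1 := 536870912) (P2 := 0) (W2 := 536870912) (P3 := 1046898278) (W3 := 26843546) (N0 := 3)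
    rfl k0_pp_202

noncomputable def f_pp_203 : ℕ → ℕ → ℕ → ℕ → Bool := onCell 1073741824 536870912 0 536870912 1046898278 26843546
    (rowNX 3 0 true true true .up 2 0 3 (qsf 1073741824 536870912 0 536870912 3) ndN7q2 ndN7q0 pcN3 Cut.none Ext.none)

def k0_pp_203 : ∃ t, chk3 f_pp_203 t 1 1 1 = true :=
  ⟨(l 4), by decide +kernel⟩

theorem c_pp_203 : CertNX 1073741824 536870912 0 536870912 1046898278 26843546 3 true true true .up 2 0 3
    ndN7q2 ndN7q0 pcN3 Cut.none Ext.none :=
  certNX0 (fam := true) (s1 := true) (s2 := true) (a := 2) (b := 0) (c := 3) (cn := .up) (n1 := ndN7q2) (n2 := ndN7q0) (pc := pcN3) (cut := Cut.none) (xt := Ext.none) (P1 := 1073741824) (W1 := 536870912) (P2 := 0) (W2 := 536870912) (P3 := 1046898278) (W3 := 26843546) (N0 := 3)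
    rfl k0_pp_203

noncomputable def f_pp_213 : ℕ → ℕ → ℕ → ℕ → Bool := onCell 1073741824 536870912 536870912 536870912 1046898278 26843546
    (rowNX 3 0 true true true .pnn 2 1 3 (qsf 1073741824 536870912 536870912 536870912 3) ndN7q2 ndN7q1 pcN3 Cut.none Ext.none)

def k0_pp_213 : ∃ t, chk3 f_pp_213 t 1 1 1 = true :=
  ⟨(l 4), by decide +kernel⟩

theorem c_pp_213 : CertNX 1073741824 536870912 536870912 536870912 1046898278 26843546 3 true true true .pnn 2 1 3
    ndN7q2 ndN7q1 pcN3 Cut.none Ext.none :=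
  certNX0 (fam := true) (s1 := true) (s2 := true) (a := 2) (b := 1) (c := 3) (cn := .pnn) (n1 := ndN7q2) (n2 := ndN7q1) (pc := pcN3) (cut := Cut.none) (xt := Ext.none) (P1 := 1073741824) (W1 := 536870912) (P2 := 536870912) (W2 := 536870912) (P3 := 1046898278) (W3 := 26843546) (N0 := 3)
    rfl k0_pp_213

noncomputable def f_pp_303 : ℕ → ℕ → ℕ → ℕ → Bool := onCell 0 1230186008 0 536870912 1046898278 26843546
    (rowNX 3 0 true true true .npn 3 0 3 (qsf 0 1230186008 0 536870912 3) ndN7q3 ndN7q0 pcN3 Cut.none Ext.none)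

def k0_pp_303 : ∃ t, chk3 f_pp_303 t 1 1 1 = true :=
  ⟨(l 4), by decide +kernel⟩

theorem c_pp_303 : CertNX 0 1230186008 0 536870912 1046898278 26843546 3 true true true .npn 3 0 3
    ndN7q3 ndN7q0 pcN3 Cut.none Ext.none :=
  certNX0 (fam := true) (s1 := true) (s2 := true) (a := 3) (b := 0) (c := 3) (cn := .npn) (n1 := ndN7q3) (n2 := ndN7q0) (pc := pcN3) (cut := Cut.none) (xt := Ext.none) (P1 := 0) (W1 := 1230186008) (P2 := 0) (W2 := 536870912) (P3 := 1046898278) (W3 := 26843546) (N0 := 3)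
    rfl k0_pp_303

noncomputable def f_pp_313 : ℕ → ℕ → ℕ → ℕ → Bool := onCell 0 1230186008 536870912 536870912 1046898278 26843546
    (rowNX 3 0 true true true .dn 3 1 3 (qsf 0 1230186008 536870912 536870912 3) ndN7q3 ndN7q1 pcN3 Cut.none Ext.none)

def k0_pp_313 : ∃ t, chk3 f_pp_313 t 1 1 1 = true :=
  ⟨(l 4), by decide +kernel⟩

theorem c_pp_313 : CertNX 0 1230186008 536870912 536870912 1046898278 26843546 3 true true true .dn 3 1 3
    ndN7q3 ndN7q1 pcN3 Cut.none Ext.none :=
  certNX0 (fam := true) (s1 := true) (s2 := true) (a := 3) (b := 1) (c := 3) (cn := .dn) (n1 := ndN7q3) (n2 := ndN7q1) (pc := pcN3) (cut := Cut.none) (xt := Ext.none) (P1 := 0) (W1 := 1230186008) (P2 := 536870912) (W2 := 536870912) (P3 := 1046898278) (W3 := 26843546) (N0 := 3)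
    rfl k0_pp_313

noncomputable def f_pm_001 : ℕ → ℕ → ℕ → ℕ → Bool := onCell 0 536870912 0 536870912 1046898278 26843546
    (rowNX 3 0 true true false .up 0 0 1 (qsf 0 536870912 0 536870912 1) ndN7q0 ndN7q0 pcN1 Cut.none Ext.none)

def k0_pm_001 : ∃ t, chk3 f_pm_001 t 1 1 1 = true :=
  ⟨(l 3), by decide +kernel⟩

theorem c_pm_001 : CertNX 0 536870912 0 536870912 1046898278 26843546 3 true true false .up 0 0 1
    ndN7q0 ndN7q0 pcN1 Cut.none Ext.none :=
  certNX0 (fam := true) (s1 := true) (s2 := false) (a := 0) (b := 0) (c := 1) (cn := .up) (n1 := ndN7q0) (n2 := ndN7q0) (pc := pcN1) (cut := Cut.none) (xt := Ext.none) (P1 := 0) (W1 := 536870912) (P2 := 0) (W2 := 536870912) (P3 := 1046898278) (W3 := 26843546) (N0 := 3)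
    rfl k0_pm_001

noncomputable def f_pm_011 : ℕ → ℕ → ℕ → ℕ → Bool := onCell 0 536870912 536870912 536870912 1046898278 26843546
    (rowNX 3 1 true true false .pnn 0 1 1 (qsf 0 536870912 536870912 536870912 1) ndN7q0 ndN7q1 pcN1 Cut.none Ext.none)

def k0_pm_011 : ∃ t, chk3 f_pm_011 t 1 1 1 = true :=
  ⟨(l 3), by decide +kernel⟩

theorem c_pm_011 : CertNX 0 536870912 536870912 536870912 1046898278 26843546 3 true true false .pnn 0 1 1
    ndN7q0 ndN7q1 pcN1 Cut.none Ext.none :=
  certNX1 (fam := true) (s1 := true) (s2 := false) (a := 0) (b := 1) (c := 1) (cn := .pnn) (n1 := ndN7q0) (n2 := ndN7q1) (pc := pcN1) (cut := Cut.none) (xt := Ext.none) (P1 := 0) (W1 := 536870912) (P2 := 536870912) (W2 := 536870912) (P3 := 1046898278) (W3 := 26843546) (N0 := 3)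
    rfl (fun _ => rfl) k0_pm_011

noncomputable def f_pm_012 : ℕ → ℕ → ℕ → ℕ → Bool := onCell 1073741824 536870912 536870912 536870912 1046898278 26843546
    (rowNX 3 2 true true false .pnp 0 1 2 (qsf 0 536870912 536870912 536870912 2) ndN7q0 ndN7q1 pcN2 Cut.none Ext.none)

def k0_pm_012 : ∃ t, chk3 f_pm_012 t 4 1 1 = true :=
  ⟨(a (l 3) (b (l 3) (b (l 3) (a (l 3) (a (l 3) (b (l 3) (a (l 3) (b (l 3) (b (l 3) (b (l 3) (l 734061503015))))))))))), by decide +kernel⟩

def k1_pm_012 : ∃ t, chk3 f_pm_012 t 5 1 1 = true :=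
  ⟨(b (a (a (a (l 3) (a (l 3) (b (l 2) (a (b (l 3) (l 16041736)) (b (a (l 16592392) (c (l 16595600) (l 16589200))) (a (l 16041696) (l 16041696))))))) (b (l 2) (l 16326640))) (b (l 2) (l 16284696))) (b (b (a (a (a (l 3) (a (l 1144773285719) (a (l 15393320) (a (l 15395584) (c (l 15422864) (l 15375216)))))) (l 15397888)) (l 15393752)) (a (a (a (c (l 14544784) (l 14466184)) (a (c (l 14544312) (l 14465696)) (a (c (l 14548480) (l 14470040)) (a (c (l 14558624) (l 14480624)) (l 14540592))))) (l 14536000)) (l 14508912))) (a (a (a (b (c (b (l 13653824) (c (l 13457384) (l 13370968))) (l 13410208)) (c (b (c (l 13146472) (b (l 13184376) (l 13006984))) (l 12812568)) (b (c (l 13004672) (l 12935888)) (c (b (l 12785800) (l 12640312)) (b (l 12720968) (c (l 12591672) (l 12549048))))))) (a (b (c (b (l 13653272) (c (l 13464088) (l 13377800))) (l 13417792)) (c (b (c (l 13163592) (b (l 13195840) (l 13026024))) (l 12844336)) (b (c (l 13022488) (l 12954056)) (c (l 12751344) (a (l 12581576) (l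 12692840)))))) (b (a (c (b (l 13665264) (c (l 13488792) (l 13403016))) (l 13434760)) (c (b (l 13713744) (c (l 13547984) (l 13463432))) (l 13489608))) (c (b (a (l 13006072) (c (l 13274456) (b (l 13304920) (l 13147912)))) (l 12938368)) (b (a (l 13055976) (l 13112776)) (a (c (l 12834528) (l 12753592)) (c (b (l 12951712) (l 12820904)) (b (l 12890176) (l 12586136))))))))) (b (c (b (l 13712504) (l 13492320)) (l 13483096)) (c (b (c (l 13254176) (l 13181536)) (l 12942488)) (b (l 13091568) (c (l 12852536) (l 12772016)))))) (b (c (b (l 13661864) (l 13422160)) (l 13420520)) (c (b (c (l 13162624) (l 13088104)) (l 12824784)) (b (l 12995264) (c (l 12731264) (l 12648312)))))))), by decide +kernel⟩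

def k2_pm_012 : ∃ t, chk3 f_pm_012 t 3 1 1 = true :=
  ⟨(b (b (l 2) (a (l 16074984) (l 2))) (b (b (l 15288400) (a (l 14504672) (l 14504672))) (b (c (b (l 13652976) (a (l 13409360) (l 13409360))) (l 13409280)) (c (b (a (c (l 13145464) (l 13070576)) (l 13098104)) (l 12802264)) (b (a (l 12977160) (l 12977160)) (a (c (l 12708024) (l 12624584)) (l 12665104))))))), by decide +kernel⟩

theorem s3_pm_012 : ∃ t, chk3 f_pm_012 t 2 1 1 = true := ex3_a k0_pm_012 k1_pm_012

theorem s4_pm_012 : ∃ t, chk3 f_pm_012 t 1 1 1 = true := ex3_a s3_pm_012 k2_pm_012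

theorem c_pm_012 : CertNX 0 536870912 536870912 536870912 1046898278 26843546 3 true true false .pnp 0 1 2
    ndN7q0 ndN7q1 pcN2 Cut.none Ext.none :=
  certNX2 (fam := true) (s1 := true) (s2 := false) (a := 0) (b := 1) (c := 2) (cn := .pnp) (n1 := ndN7q0) (n2 := ndN7q1) (pc := pcN2) (cut := Cut.none) (xt := Ext.none) (P1 := 0) (W1 := 536870912) (P2 := 536870912) (W2 := 536870912) (P3 := 1046898278) (W3 := 26843546) (N0 := 3)
    rfl (fun _ => rfl) s4_pm_012

noncomputable def f_pm_022 : ℕ → ℕ → ℕ → ℕ → Bool := onCell 1073741824 536870912 1073741824 536870912 1046898278 26843546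
    (rowNX 3 2 true true false .pp 0 2 2 (qsf 0 536870912 1073741824 536870912 2) ndN7q0 ndN7q2 pcN2 Cut.none Ext.none)

def k0_pm_022 : ∃ t, chk3 f_pm_022 t 4 2 1 = true :=
  ⟨(a (l 3) (b (a (l 3) (a (b (l 3) (c (b (c (b (l 3) (l 13629904)) (l 13442512)) (l 13833480)) (a (l 13533016) (l 13549848)))) (b (c (b (l 12826352) (c (l 13209096) (b (l 13060576) (l 13255936)))) (b (c (l 692185784679) (b (l 12384472) (l 12755336))) (l 693797020711))) (c (b (c (l 392613468471) (l 13455192)) (l 13853984)) (b (l 13360264) (l 13751120)))))) (a (l 1) (a (l 1) (b (c (l 14600352) (l 790839874967)) (l 1)))))), by decide +kernel⟩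

def k1_pm_022 : ∃ t, chk3 f_pm_022 t 5 2 1 = true :=
  ⟨(b (a (a (a (b (c (b (l 12843080) (c (l 13239512) (b (l 13083576) (l 13288544)))) (a (b (c (l 12731288) (l 12396520)) (l 13050736)) (b (c (l 12747664) (b (l 12581872) (l 12772312))) (l 13087256)))) (b (c (c (a (l 13575384) (l 13643168)) (l 13507152)) (l 13413608)) (l 13893296))) (b (c (b (a (l 12913824) (l 12904248)) (a (c (l 13343056) (l 13270400)) (c (l 13390576) (a (l 13348104) (a (l 13377376) (l 13390160)))))) (b (a (c (l 12822352) (l 12740984)) (c (a (l 12905472) (a (l 12942424) (l 12960400))) (a (l 12825704) (a (l 12863376) (l 12797824))))) (a (l 13184232) (a (l 13264128) (a (l 13294232) (l 13307392)))))) (b (c (a (l 13693336) (a (l 13766456) (a (l 13788416) (l 13732392)))) (a (l 13544704) (l 13544496))) (a (l 14025760) (a (l 14096136) (a (l 14110968) (l 14105840))))))) (b (c (b (l 12991968) (c (l 13395736) (l 13324144))) (b (c (l 12902888) (l 12823136)) (l 13239600))) (b (c (l 13721144) (l 13573680)) (l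 14021640)))) (b (c (b (l 12851216) (c (l 13237576) (l 13163008))) (b (c (l 12757992) (l 12675424)) (l 13073912))) (b (c (l 13542344) (l 13388336)) (l 13824152)))) (a (a (b (a (l 14675816) (a (l 15056072) (a (l 15052048) (a (l 15054184) (b (l 14731992) (l 15255736)))))) (l 1)) (b (l 14909808) (l 15684912))) (b (a (l 14797400) (l 14745064)) (a (l 15655312) (l 15646440))))), by decide +kernel⟩

def k2_pm_022 : ∃ t, chk3 f_pm_022 t 3 2 1 = true :=
  ⟨(b (b (c (b (l 12823936) (a (c (l 13206704) (l 13131520)) (l 13159144))) (b (a (c (l 12729864) (l 12646720)) (l 12687112)) (a (l 13041488) (l 13041488)))) (c (b (a (l 13507200) (l 13507200)) (l 13837936)) (a (l 13546168) (l 13546168)))) (b (a (l 14744992) (l 14744992)) (a (l 15646432) (l 15646432)))), by decide +kernel⟩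

def k3_pm_022 : ∃ t, chk3 f_pm_022 t 1 3 1 = true :=
  ⟨(a (a (l 1) (a (l 1) (a (l 1) (b (b (l 16342064) (l 1)) (l 1))))) (b (a (b (l 16342120) (c (l 16763976) (l 16763512))) (b (l 16342120) (l 16763744))) (c (l 452615733255) (l 468184989703)))), by decide +kernel⟩

theorem s4_pm_022 : ∃ t, chk3 f_pm_022 t 2 2 1 = true := ex3_a k0_pm_022 k1_pm_022

theorem s5_pm_022 : ∃ t, chk3 f_pm_022 t 1 2 1 = true := ex3_a s4_pm_022 k2_pm_022

theorem s6_pm_022 : ∃ t, chk3 f_pm_022 t 1 1 1 = true := ex3_b s5_pm_022 k3_pm_022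

theorem c_pm_022 : CertNX 0 536870912 1073741824 536870912 1046898278 26843546 3 true true false .pp 0 2 2
    ndN7q0 ndN7q2 pcN2 Cut.none Ext.none :=
  certNX2 (fam := true) (s1 := true) (s2 := false) (a := 0) (b := 2) (c := 2) (cn := .pp) (n1 := ndN7q0) (n2 := ndN7q2) (pc := pcN2) (cut := Cut.none) (xt := Ext.none) (P1 := 0) (W1 := 536870912) (P2 := 1073741824) (W2 := 536870912) (P3 := 1046898278) (W3 := 26843546) (N0 := 3)
    rfl (fun _ => rfl) s6_pm_022

noncomputable def f_pm_023 : ℕ → ℕ → ℕ → ℕ → Bool := onCell 1610612736 536870912 1073741824 536870912 1046898278 26843546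
    (rowNX 3 2 true true false .up 0 2 3 (qsf 0 536870912 1073741824 536870912 3) ndN7q0 ndN7q2 pcN3 Cut.none Ext.none)

def k0_pm_023 : ∃ t, chk3 f_pm_023 t 1 1 1 = true :=
  ⟨(b (b (a (b (a (c (l 12931160) (b (l 12687112) (l 13041488))) (l 2)) (c (b (l 13507200) (l 13837936)) (l 13546168))) (l 2)) (a (a (b (l 14744992) (l 15646432)) (b (l 14744992) (l 15646432))) (a (l 15192568) (l 2)))) (b (a (a (b (l 16342120) (l 16763744)) (l 16563512)) (a (l 16563560) (a (a (l 16564472) (l 2)) (l 2)))) (a (a (l 16777216) (l 16777216)) (a (c (l 16777176) (l 16777176)) (a (l 16757800) (a (l 16749560) (l 4))))))), by decide +kernel⟩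

theorem c_pm_023 : CertNX 0 536870912 1073741824 536870912 1046898278 26843546 3 true true false .up 0 2 3
    ndN7q0 ndN7q2 pcN3 Cut.none Ext.none :=
  certNX2 (fam := true) (s1 := true) (s2 := false) (a := 0) (b := 2) (c := 3) (cn := .up) (n1 := ndN7q0) (n2 := ndN7q2) (pc := pcN3) (cut := Cut.none) (xt := Ext.none) (P1 := 0) (W1 := 536870912) (P2 := 1073741824) (W2 := 536870912) (P3 := 1046898278) (W3 := 26843546) (N0 := 3)
    rfl (fun _ => rfl) k0_pm_023

noncomputable def f_pm_033 : ℕ → ℕ → ℕ → ℕ → Bool := onCell 1610612736 536870912 0 1230186008 1046898278 26843546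
    (rowNX 3 2 true true false .pnn 0 3 3 (qsf 0 536870912 0 1230186008 3) ndN7q0 ndN7q3 pcN3 Cut.none Ext.none)

def k0_pm_033 : ∃ t, chk3 f_pm_033 t 1 1 1 = true :=
  ⟨(b (a (l 1) (l 4)) (b (a (a (l 1) (c (l 16777216) (l 16777216))) (l 4)) (a (a (b (l 1) (l 16777216)) (c (l 16777216) (l 16777216))) (a (c (l 16777176) (l 16777176)) (a (c (l 16768032) (l 16767704)) (l 4)))))), by decide +kernel⟩

theorem c_pm_033 : CertNX 0 536870912 0 1230186008 1046898278 26843546 3 true true false .pnn 0 3 3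
    ndN7q0 ndN7q3 pcN3 Cut.none Ext.none :=
  certNX2 (fam := true) (s1 := true) (s2 := false) (a := 0) (b := 3) (c := 3) (cn := .pnn) (n1 := ndN7q0) (n2 := ndN7q3) (pc := pcN3) (cut := Cut.none) (xt := Ext.none) (P1 := 0) (W1 := 536870912) (P2 := 0) (W2 := 1230186008) (P3 := 1046898278) (W3 := 26843546) (N0 := 3)
    rfl (fun _ => rfl) k0_pm_033

noncomputable def f_pm_101 : ℕ → ℕ → ℕ → ℕ → Bool := onCell 536870912 536870912 536870912 536870912 1046898278 26843546
    (rowNX 3 1 true true false .npn 1 0 1 (qsf 536870912 536870912 0 536870912 1) ndN7q1 ndN7q0 pcN1 Cut.none Ext.none)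

def k0_pm_101 : ∃ t, chk3 f_pm_101 t 1 1 1 = true :=
  ⟨(l 3), by decide +kernel⟩

theorem c_pm_101 : CertNX 536870912 536870912 0 536870912 1046898278 26843546 3 true true false .npn 1 0 1
    ndN7q1 ndN7q0 pcN1 Cut.none Ext.none :=
  certNX1 (fam := true) (s1 := true) (s2 := false) (a := 1) (b := 0) (c := 1) (cn := .npn) (n1 := ndN7q1) (n2 := ndN7q0) (pc := pcN1) (cut := Cut.none) (xt := Ext.none) (P1 := 536870912) (W1 := 536870912) (P2 := 0) (W2 := 536870912) (P3 := 1046898278) (W3 := 26843546) (N0 := 3)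
    rfl (fun _ => rfl) k0_pm_101

noncomputable def f_pm_102 : ℕ → ℕ → ℕ → ℕ → Bool := onCell 536870912 536870912 1073741824 536870912 1046898278 26843546
    (rowNX 3 1 true true false .npp 1 0 2 (qsf 536870912 536870912 0 536870912 2) ndN7q1 ndN7q0 pcN2 Cut.none Ext.none)

def k0_pm_102 : ∃ t, chk3 f_pm_102 t 1 4 1 = true :=
  ⟨(b (l 3) (a (l 3) (a (l 3) (b (l 3) (b (l 3) (a (l 3) (a (l 3) (a (l 3) (a (l 3) (b (l 3) (l 734061503015))))))))))), by decide +kernel⟩

def k1_pm_102 : ∃ t, chk3 f_pm_102 t 1 5 1 = true :=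
  ⟨(a (b (b (b (l 3) (b (l 3) (a (l 2) (b (a (l 3) (l 16041736)) (a (b (l 16592392) (c (l 16595600) (l 16589200))) (b (l 16041696) (l 16041696))))))) (a (l 2) (l 16326640))) (a (l 2) (l 16284696))) (a (a (b (b (b (l 3) (b (l 1144773285719) (b (l 15393320) (b (l 15395584) (c (l 15422864) (l 15375216)))))) (l 15397888)) (l 15393752)) (b (b (b (c (l 14544784) (l 14466184)) (b (c (l 14544312) (l 14465696)) (b (c (l 14548480) (l 14470040)) (b (c (l 14558624) (l 14480624)) (l 14540592))))) (l 14536000)) (l 14508912))) (b (b (b (a (c (a (l 13653824) (c (l 13457384) (l 13370968))) (l 13410208)) (c (a (c (l 13146472) (a (l 13184376) (l 13006984))) (l 12812568)) (a (c (l 13004672) (l 12935888)) (c (a (l 12785800) (l 12640312)) (a (l 12720968) (c (l 12591672) (l 12549048))))))) (b (a (c (a (l 13653272) (c (l 13464088) (l 13377800))) (l 13417792)) (c (a (c (l 13163592) (a (l 13195840) (l 13026024))) (l 12844336)) (a (c (l 13022488) (l 12954056)) (c (l 12751344) (b (l 12581576) (l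 12692840)))))) (a (b (c (a (l 13665264) (c (l 13488792) (l 13403016))) (l 13434760)) (c (a (l 13713744) (c (l 13547984) (l 13463432))) (l 13489608))) (c (a (b (l 13006072) (c (l 13274456) (a (l 13304920) (l 13147912)))) (l 12938368)) (a (b (l 13055976) (l 13112776)) (b (c (l 12834528) (l 12753592)) (c (a (l 12951712) (l 12820904)) (a (l 12890176) (l 12586136))))))))) (a (c (a (l 13712504) (l 13492320)) (l 13483096)) (c (a (c (l 13254176) (l 13181536)) (l 12942488)) (a (l 13091568) (c (l 12852536) (l 12772016)))))) (a (c (a (l 13661864) (l 13422160)) (l 13420520)) (c (a (c (l 13162624) (l 13088104)) (l 12824784)) (a (l 12995264) (c (l 12731264) (l 12648312)))))))), by decide +kernel⟩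

def k2_pm_102 : ∃ t, chk3 f_pm_102 t 1 3 1 = true :=
  ⟨(a (a (l 2) (b (l 16074984) (l 2))) (a (a (l 15288400) (b (l 14504672) (l 14504672))) (a (c (a (l 13652976) (b (l 13409360) (l 13409360))) (l 13409280)) (c (a (b (c (l 13145464) (l 13070576)) (l 13098104)) (l 12802264)) (a (b (l 12977160) (l 12977160)) (b (c (l 12708024) (l 12624584)) (l 12665104))))))), by decide +kernel⟩

theorem s3_pm_102 : ∃ t, chk3 f_pm_102 t 1 2 1 = true := ex3_b k0_pm_102 k1_pm_102

theorem s4_pm_102 : ∃ t, chk3 f_pm_102 t 1 1 1 = true := ex3_b s3_pm_102 k2_pm_102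

theorem c_pm_102 : CertNX 536870912 536870912 0 536870912 1046898278 26843546 3 true true false .npp 1 0 2
    ndN7q1 ndN7q0 pcN2 Cut.none Ext.none :=
  certNX1 (fam := true) (s1 := true) (s2 := false) (a := 1) (b := 0) (c := 2) (cn := .npp) (n1 := ndN7q1) (n2 := ndN7q0) (pc := pcN2) (cut := Cut.none) (xt := Ext.none) (P1 := 536870912) (W1 := 536870912) (P2 := 0) (W2 := 536870912) (P3 := 1046898278) (W3 := 26843546) (N0 := 3)
    rfl (fun _ => rfl) s4_pm_102

noncomputable def f_pm_112 : ℕ → ℕ → ℕ → ℕ → Bool := onCell 536870912 536870912 1073741824 536870912 1046898278 26843546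
    (rowNX 3 1 true true false .dn 1 1 2 (qsf 536870912 536870912 536870912 536870912 2) ndN7q1 ndN7q1 pcN2 Cut.none Ext.none)

def k0_pm_112 : ∃ t, chk3 f_pm_112 t 1 1 1 = true :=
  ⟨(a (b (b (l 3) (b (b (b (l 3) (b (l 3) (a (b (l 3) (a (b (l 16751720) (l 16746640)) (b (l 3) (l 16777216)))) (a (b (l 3) (b (l 16592392) (c (l 16595600) (l 16589200)))) (l 1))))) (a (l 16707408) (l 16326640))) (a (a (l 16326640) (l 16688216)) (l 16284696)))) (a (b (a (b (l 15727160) (l 14960280)) (l 16034664)) (a (b (c (a (l 13847824) (l 14393912)) (l 13942200)) (c (a (b (l 13213488) (l 12952192)) (b (l 13539800) (l 13213488))) (a (b (l 13128632) (l 12799096)) (l 13311456)))) (b (l 14960280) (c (a (l 13847824) (l 14393912)) (l 13942200))))) (b (a (l 16303672) (l 15943312)) (a (b (l 15545360) (l 14779776)) (l 15308120))))) (a (b (b (l 1) (b (l 1) (a (l 15393752) (l 1)))) (b (a (l 15393264) (l 14504672)) (a (l 15108728) (l 14448824)))) (b (l 1) (a (c (a (l 13652976) (l 477841427079)) (l 13409280))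 (b (l 1) (c (l 467639964503) (a (l 12977160) (l 12665104)))))))), by decide +kernel⟩

theorem c_pm_112 : CertNX 536870912 536870912 536870912 536870912 1046898278 26843546 3 true true false .dn 1 1 2
    ndN7q1 ndN7q1 pcN2 Cut.none Ext.none :=
  certNX1 (fam := true) (s1 := true) (s2 := false) (a := 1) (b := 1) (c := 2) (cn := .dn) (n1 := ndN7q1) (n2 := ndN7q1) (pc := pcN2) (cut := Cut.none) (xt := Ext.none) (P1 := 536870912) (W1 := 536870912) (P2 := 536870912) (W2 := 536870912) (P3 := 1046898278) (W3 := 26843546) (N0 := 3)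
    rfl (fun _ => rfl) k0_pm_112

noncomputable def f_pm_113 : ℕ → ℕ → ℕ → ℕ → Bool := onCell 536870912 536870912 536870912 536870912 1046898278 26843546
    (rowNX 3 0 true true false .nn 1 1 3 (qsf 536870912 536870912 536870912 536870912 3) ndN7q1 ndN7q1 pcN3 Cut.none Ext.none)

def k0_pm_113 : ∃ t, chk3 f_pm_113 t 1 1 1 = true :=
  ⟨(a (b (b (l 1) (a (l 1) (l 15879848))) (b (a (l 495024398119) (b (l 14952072) (l 14067624))) (b (a (l 486968346551) (a (l 13288024) (l 12764152))) (a (c (l 12951736) (b (l 12977160) (l 12665104))) (c (b (l 12687496) (l 12395464)) (b (l 12529616) (l 12218840))))))) (b (a (b (l 495024398119) (a (l 14952072) (l 14067624))) (a (b (l 486968346551) (a (l 13165072) (l 12849264))) (b (c (l 12951736) (a (l 12977160) (l 12665104))) (c (a (l 12687496) (l 12395464)) (a (l 12529616) (l 12218840)))))) (a (a (b (l 13619928) (b (l 12163640) (c (l 11755848) (l 11439800)))) (b (l 12765584) (b (l 11366168) (c (l 11102720) (b (l 10782224) (l 10496104))))))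 (b (b (a (l 12163640) (c (l 11755848) (l 11439800))) (a (l 11366168) (c (l 11102720) (a (l 10782224) (l 10496104))))) (b (b (a (l 10577048) (c (l 10564224) (l 9828544))) (a (c (l 10765016) (l 10071712)) (c (a (l 10620144) (l 10706160)) (a (l 9750928) (l 9574760))))) (a (c (b (c (l 10837824) (l 10498696)) (l 10603296)) (b (l 9861688) (b (l 9652360) (l 9603488)))) (a (c (b (l 10736480) (l 11260248)) (b (l 9619216) (l 9582368))) (b (c (l 11260248) (l 9582368)) (a (c (l 12592368) (c (l 10570392) (l 9188624))) (b (c (l 13530648) (l 10098544)) (a (l 13796272) (b (l 15128208) (a (l 16809992) (b (l 16795752) (a (l 16793464) (b (l 16786296) (a (l 16785272) (b (l 16781656) (c (l 16781320) (l 16781280)))))))))))))))))))), by decide +kernel⟩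

theorem c_pm_113 : CertNX 536870912 536870912 536870912 536870912 1046898278 26843546 3 true true false .nn 1 1 3
    ndN7q1 ndN7q1 pcN3 Cut.none Ext.none :=
  certNX0 (fam := true) (s1 := true) (s2 := false) (a := 1) (b := 1) (c := 3) (cn := .nn) (n1 := ndN7q1) (n2 := ndN7q1) (pc := pcN3) (cut := Cut.none) (xt := Ext.none) (P1 := 536870912) (W1 := 536870912) (P2 := 536870912) (W2 := 536870912) (P3 := 1046898278) (W3 := 26843546) (N0 := 3)
    rfl k0_pm_113

noncomputable def f_pm_123 : ℕ → ℕ → ℕ → ℕ → Bool := onCell 1610612736 536870912 1073741824 536870912 1046898278 26843546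
    (rowNX 3 2 true true false .npn 1 2 3 (qsf 536870912 536870912 1073741824 536870912 3) ndN7q1 ndN7q2 pcN3 Cut.none Ext.none)

def k0_pm_123 : ∃ t, chk3 f_pm_123 t 2 1 1 = true :=
  ⟨(b (b (b (a (c (l 12931160) (b (l 12687112) (l 13041488))) (c (b (l 12537928) (l 12871608)) (b (a (l 12577624) (l 12169800)) (l 12908920)))) (b (a (l 13425120) (c (l 13470184) (l 13310632))) (l 433281888727))) (b (a (l 14744992) (l 14744992)) (l 443486162871))) (b (a (l 1) (l 16563512)) (l 1))), by decide +kernel⟩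

def k1_pm_123 : ∃ t, chk3 f_pm_123 t 3 1 1 = true :=
  ⟨(a (b (b (b (b (c (l 11739056) (a (l 11669944) (l 11132344))) (c (a (l 12682368) (l 12533192)) (l 12340352))) (a (l 13436072) (l 13398504))) (b (l 14731680) (l 15652928))) (b (l 16563560) (l 504155342007))) (a (b (b (b (c (b (a (l 11364000) (l 11772576)) (a (l 12638848) (l 12997104))) (b (a (l 10751992) (l 10879176)) (a (l 12243336) (l 12553896)))) (a (l 13590664) (b (l 13683624) (l 14266984)))) (b (l 15094400) (l 15871424))) (b (a (l 16570600) (l 16635048)) (l 16757800))) (b (a (b (b (c (b (b (l 12375760) (l 12998224)) (c (l 13999520) (l 13729944))) (b (c (l 13332336) (l 12891016)) (l 13338696))) (b (c (l 14627192) (l 14281096)) (l 14903976))) (b (l 15720352) (l 16297552))) (a (b (b (c (b (l 14676520) (c (l 15056760) (l 14821728))) (b (c (l 13679264) (l 12987352)) (l 14487456))) (b (c (l 15478040) (l 15263176)) (l 15694736))) (l 16458536)) (b (a (b (c (b (l 15522240) (l 15764632)) (b (c (l 14086280) (l 13115400))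 (l 15420496))) (b (l 16070144) (l 16300480))) (b (a (c (b (l 16283176) (l 16287160)) (b (c (l 14464440) (l 13233552)) (l 16088144))) (c (a (b (l 16788696) (l 16570376)) (b (a (l 16772528) (l 16760496)) (a (l 16695248) (c (l 16739088) (l 16738784))))) (b (a (c (l 14742296) (l 13326032)) (a (c (l 14913776) (l 13382136)) (c (l 15042744) (b (l 14135656) (l 16657976))))) (a (l 16475848) (a (l 16661120) (l 16737912)))))) (a (b (l 16474512) (l 16627872)) (a (b (l 16680400) (l 16727184)) (b (a (l 16746328) (l 4)) (l 4)))))) (a (l 16731912) (a (l 16671696) (b (l 4) (l 4))))))) (b (a (b (l 16631416) (l 16758560)) (a (l 16726208) (l 4))) (a (l 16749560) (l 4)))))), by decide +kernel⟩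

theorem s2_pm_123 : ∃ t, chk3 f_pm_123 t 1 1 1 = true := ex3_a k0_pm_123 k1_pm_123

theorem c_pm_123 : CertNX 536870912 536870912 1073741824 536870912 1046898278 26843546 3 true true false .npn 1 2 3
    ndN7q1 ndN7q2 pcN3 Cut.none Ext.none :=
  certNX2 (fam := true) (s1 := true) (s2 := false) (a := 1) (b := 2) (c := 3) (cn := .npn) (n1 := ndN7q1) (n2 := ndN7q2) (pc := pcN3) (cut := Cut.none) (xt := Ext.none) (P1 := 536870912) (W1 := 536870912) (P2 := 1073741824) (W2 := 536870912) (P3 := 1046898278) (W3 := 26843546) (N0 := 3)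
    rfl (fun _ => rfl) s2_pm_123

noncomputable def f_pm_133 : ℕ → ℕ → ℕ → ℕ → Bool := onCell 536870912 536870912 0 1230186008 1046898278 26843546
    (rowNX 3 0 true true false .dn 1 3 3 (qsf 536870912 536870912 0 1230186008 3) ndN7q1 ndN7q3 pcN3 Cut.none Ext.none)

def k0_pm_133 : ∃ t, chk3 f_pm_133 t 1 1 1 = true :=
  ⟨(b (l 2) (b (l 2) (l 4))), by decide +kernel⟩

theorem c_pm_133 : CertNX 536870912 536870912 0 1230186008 1046898278 26843546 3 true true false .dn 1 3 3
    ndN7q1 ndN7q3 pcN3 Cut.none Ext.none :=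
  certNX0 (fam := true) (s1 := true) (s2 := false) (a := 1) (b := 3) (c := 3) (cn := .dn) (n1 := ndN7q1) (n2 := ndN7q3) (pc := pcN3) (cut := Cut.none) (xt := Ext.none) (P1 := 536870912) (W1 := 536870912) (P2 := 0) (W2 := 1230186008) (P3 := 1046898278) (W3 := 26843546) (N0 := 3)
    rfl k0_pm_133

noncomputable def f_pm_202 : ℕ → ℕ → ℕ → ℕ → Bool := onCell 1073741824 536870912 1073741824 536870912 1046898278 26843546
    (rowNX 3 1 true true false .pp 2 0 2 (qsf 1073741824 536870912 0 536870912 2) ndN7q2 ndN7q0 pcN2 Cut.none Ext.none)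

def k0_pm_202 : ∃ t, chk3 f_pm_202 t 2 4 1 = true :=
  ⟨(b (l 3) (a (b (l 3) (b (a (l 3) (c (a (c (a (l 3) (l 13629904)) (l 13442512)) (l 13833480)) (b (l 13533016) (l 13549848)))) (a (c (a (l 12826352) (c (l 13209096) (a (l 13060576) (l 13255936)))) (a (c (l 692185784679) (a (l 12384472) (l 12755336))) (l 693797020711))) (c (a (c (l 392613468471) (l 13455192)) (l 13853984)) (a (l 13360264) (l 13751120)))))) (b (l 1) (b (l 1) (a (c (l 776344497511) (l 790839874967)) (l 1)))))), by decide +kernel⟩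

def k1_pm_202 : ∃ t, chk3 f_pm_202 t 2 5 1 = true :=
  ⟨(a (b (b (b (a (c (a (l 12843080) (c (l 13239512) (a (l 13083576) (l 13288544)))) (b (a (c (l 12731288) (l 12396520)) (l 13050736)) (a (c (l 12747664) (a (l 12581872) (l 12772312))) (l 13087256)))) (a (c (c (b (l 13575384) (l 13643168)) (l 13507152)) (l 13413608)) (l 13893296))) (a (c (a (b (l 12913824) (l 12904248)) (b (c (l 13343056) (l 13270400)) (c (l 13390576) (b (l 13348104) (b (l 13377376) (l 13390160)))))) (a (b (c (l 12822352) (l 12740984)) (c (b (l 12905472) (b (l 12942424) (l 12960400))) (b (l 12825704) (b (l 12863376) (l 12797824))))) (b (l 13184232) (b (l 13264128) (b (l 13294232) (l 13307392)))))) (a (c (b (l 13693336) (b (l 13766456) (b (l 13788416) (l 13732392)))) (b (l 13544704) (l 13544496))) (b (l 14025760) (b (l 14096136) (b (l 14110968) (l 14105840))))))) (a (c (a (l 12991968) (c (l 13395736) (l 13324144))) (a (c (l 12902888) (l 12823136)) (l 13239600))) (a (c (l 13721144) (l 13573680)) (l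 14021640)))) (a (c (a (l 12851216) (c (l 13237576) (l 13163008))) (a (c (l 12757992) (l 12675424)) (l 13073912))) (a (c (l 13542344) (l 13388336)) (l 13824152)))) (b (b (a (b (l 292623956743) (b (l 15056072) (b (l 15052048) (b (l 15054184) (a (l 14731992) (l 15255736)))))) (l 1)) (a (l 14909808) (l 15684912))) (a (b (l 14797400) (l 14745064)) (b (l 15655312) (l 15646440))))), by decide +kernel⟩

def k2_pm_202 : ∃ t, chk3 f_pm_202 t 2 3 1 = true :=
  ⟨(a (a (c (a (l 12823936) (b (c (l 13206704) (l 13131520)) (l 13159144))) (a (b (c (l 12729864) (l 12646720)) (l 12687112)) (b (l 13041488) (l 13041488)))) (c (a (b (l 13507200) (l 13507200)) (l 13837936)) (b (l 13546168) (l 13546168)))) (a (b (l 14744992) (l 14744992)) (b (l 15646432) (l 15646432)))), by decide +kernel⟩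

def k3_pm_202 : ∃ t, chk3 f_pm_202 t 3 1 1 = true :=
  ⟨(b (b (l 1) (b (l 1) (b (l 1) (a (a (l 16342064) (l 1)) (l 1))))) (a (b (a (l 16342120) (c (l 16763976) (l 16763512))) (a (l 16342120) (l 16763744))) (c (l 452615733255) (l 468184989703)))), by decide +kernel⟩

theorem s4_pm_202 : ∃ t, chk3 f_pm_202 t 2 2 1 = true := ex3_b k0_pm_202 k1_pm_202

theorem s5_pm_202 : ∃ t, chk3 f_pm_202 t 2 1 1 = true := ex3_b s4_pm_202 k2_pm_202

theorem s6_pm_202 : ∃ t, chk3 f_pm_202 t 1 1 1 = true := ex3_a s5_pm_202 k3_pm_202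

theorem c_pm_202 : CertNX 1073741824 536870912 0 536870912 1046898278 26843546 3 true true false .pp 2 0 2
    ndN7q2 ndN7q0 pcN2 Cut.none Ext.none :=
  certNX1 (fam := true) (s1 := true) (s2 := false) (a := 2) (b := 0) (c := 2) (cn := .pp) (n1 := ndN7q2) (n2 := ndN7q0) (pc := pcN2) (cut := Cut.none) (xt := Ext.none) (P1 := 1073741824) (W1 := 536870912) (P2 := 0) (W2 := 536870912) (P3 := 1046898278) (W3 := 26843546) (N0 := 3)
    rfl (fun _ => rfl) s6_pm_202

noncomputable def f_pm_203 : ℕ → ℕ → ℕ → ℕ → Bool := onCell 1073741824 536870912 1610612736 536870912 1046898278 26843546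
    (rowNX 3 1 true true false .up 2 0 3 (qsf 1073741824 536870912 0 536870912 3) ndN7q2 ndN7q0 pcN3 Cut.none Ext.none)

def k0_pm_203 : ∃ t, chk3 f_pm_203 t 1 1 1 = true :=
  ⟨(a (a (b (a (b (c (l 12931160) (a (l 12687112) (l 13041488))) (l 2)) (c (a (l 13507200) (l 13837936)) (l 13546168))) (l 2)) (b (b (a (l 14744992) (l 15646432)) (a (l 14744992) (l 15646432))) (b (l 15192568) (l 2)))) (a (b (b (a (l 16342120) (l 16763744)) (l 16563512)) (b (l 16563560) (b (b (l 16564472) (l 2)) (l 2)))) (b (b (l 16777216) (l 16777216)) (b (c (l 16777176) (l 16777176)) (b (l 16757800) (b (l 16749560) (l 4))))))), by decide +kernel⟩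

theorem c_pm_203 : CertNX 1073741824 536870912 0 536870912 1046898278 26843546 3 true true false .up 2 0 3
    ndN7q2 ndN7q0 pcN3 Cut.none Ext.none :=
  certNX1 (fam := true) (s1 := true) (s2 := false) (a := 2) (b := 0) (c := 3) (cn := .up) (n1 := ndN7q2) (n2 := ndN7q0) (pc := pcN3) (cut := Cut.none) (xt := Ext.none) (P1 := 1073741824) (W1 := 536870912) (P2 := 0) (W2 := 536870912) (P3 := 1046898278) (W3 := 26843546) (N0 := 3)
    rfl (fun _ => rfl) k0_pm_203

noncomputable def f_pm_213 : ℕ → ℕ → ℕ → ℕ → Bool := onCell 1073741824 536870912 1610612736 536870912 1046898278 26843546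
    (rowNX 3 1 true true false .pnn 2 1 3 (qsf 1073741824 536870912 536870912 536870912 3) ndN7q2 ndN7q1 pcN3 Cut.none Ext.none)

def k0_pm_213 : ∃ t, chk3 f_pm_213 t 2 1 1 = true :=
  ⟨(b (a (a (b (c (l 12931160) (a (l 12687112) (l 13041488))) (c (a (l 12537928) (l 12871608)) (a (b (l 12577624) (l 12169800)) (l 12908920)))) (a (b (l 13425120) (c (l 13470184) (l 13310632))) (l 433281888727))) (a (a (l 14437696) (l 15040368)) (l 443486162871))) (b (a (a (a (c (l 11739056) (b (l 11669944) (l 11132344))) (c (b (l 12682368) (l 12533192)) (l 12340352))) (b (l 13436072) (l 13398504))) (a (l 14731680) (l 15652928))) (b (a (a (c (a (b (l 11364000) (l 11772576)) (b (l 12638848) (l 12997104))) (a (b (l 10751992) (l 10879176)) (b (l 12243336) (l 12553896)))) (b (l 13590664) (a (l 13683624) (l 14266984)))) (a (l 15094400) (l 15871424))) (b (a (a (c (a (b (l 12369568) (l 13120832)) (c (l 13999520) (l 13729944))) (a (c (l 13332336) (l 12891016)) (l 13338696))) (a (c (l 14627192) (l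 14281096)) (l 14903976))) (a (l 15720352) (l 16297552))) (b (a (a (c (a (l 14676520) (c (l 15056760) (l 14821728))) (a (c (l 13679264) (l 12987352)) (l 14487456))) (a (c (l 15478040) (l 15263176)) (l 15694736))) (l 16458536)) (a (b (a (c (a (l 15522240) (l 15764632)) (a (c (l 14086280) (l 13115400)) (l 15420496))) (a (l 16070144) (l 16300480))) (a (b (c (a (l 16283176) (l 16287160)) (a (c (l 14464440) (l 13233552)) (l 16088144))) (c (b (a (l 16788696) (l 16570376)) (a (b (l 16772528) (l 16760496)) (b (l 16695248) (c (l 16739088) (l 16738784))))) (a (b (c (l 14742296) (l 13326032)) (b (c (l 14913776) (l 13382136)) (c (l 15042744) (a (l 14135656) (l 16657976))))) (b (l 16475848) (b (l 16661120) (l 16737912)))))) (b (a (l 16474512) (l 16627872)) (b (a (l 16680400) (l 16727184)) (a (b (l 16746328) (l 4)) (l 4)))))) (b (l 16731912) (b (l 16671696) (a (l 4) (l 4)))))))))), by decide +kernel⟩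

def k1_pm_213 : ∃ t, chk3 f_pm_213 t 3 1 1 = true :=
  ⟨(a (b (b (l 1) (l 16563512)) (b (l 16563560) (b (b (l 16570600) (l 16635048)) (b (a (l 16631416) (l 16758560)) (b (l 16726208) (l 4)))))) (b (l 1) (b (l 504155342007) (b (l 16757800) (b (l 16749560) (l 4)))))), by decide +kernel⟩

theorem s2_pm_213 : ∃ t, chk3 f_pm_213 t 1 1 1 = true := ex3_a k0_pm_213 k1_pm_213

theorem c_pm_213 : CertNX 1073741824 536870912 536870912 536870912 1046898278 26843546 3 true true false .pnn 2 1 3
    ndN7q2 ndN7q1 pcN3 Cut.none Ext.none :=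
  certNX1 (fam := true) (s1 := true) (s2 := false) (a := 2) (b := 1) (c := 3) (cn := .pnn) (n1 := ndN7q2) (n2 := ndN7q1) (pc := pcN3) (cut := Cut.none) (xt := Ext.none) (P1 := 1073741824) (W1 := 536870912) (P2 := 536870912) (W2 := 536870912) (P3 := 1046898278) (W3 := 26843546) (N0 := 3)
    rfl (fun _ => rfl) s2_pm_213

noncomputable def f_pm_303 : ℕ → ℕ → ℕ → ℕ → Bool := onCell 0 1230186008 1610612736 536870912 1046898278 26843546
    (rowNX 3 1 true true false .npn 3 0 3 (qsf 0 1230186008 0 536870912 3) ndN7q3 ndN7q0 pcN3 Cut.none Ext.none)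

def k0_pm_303 : ∃ t, chk3 f_pm_303 t 1 1 1 = true :=
  ⟨(a (b (l 1) (l 4)) (a (b (b (l 1) (c (l 16777216) (l 16777216))) (l 4)) (b (b (a (l 1) (l 16777216)) (c (l 16777216) (l 16777216))) (b (c (l 16777176) (l 16777176)) (b (c (l 16768032) (l 16767704)) (l 4)))))), by decide +kernel⟩

theorem c_pm_303 : CertNX 0 1230186008 0 536870912 1046898278 26843546 3 true true false .npn 3 0 3
    ndN7q3 ndN7q0 pcN3 Cut.none Ext.none :=
  certNX1 (fam := true) (s1 := true) (s2 := false) (a := 3) (b := 0) (c := 3) (cn := .npn) (n1 := ndN7q3) (n2 := ndN7q0) (pc := pcN3) (cut := Cut.none) (xt := Ext.none) (P1 := 0) (W1 := 1230186008) (P2 := 0) (W2 := 536870912) (P3 := 1046898278) (W3 := 26843546) (N0 := 3)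
    rfl (fun _ => rfl) k0_pm_303

noncomputable def f_pm_313 : ℕ → ℕ → ℕ → ℕ → Bool := onCell 0 1230186008 536870912 536870912 1046898278 26843546
    (rowNX 3 0 true true false .dn 3 1 3 (qsf 0 1230186008 536870912 536870912 3) ndN7q3 ndN7q1 pcN3 Cut.none Ext.none)

def k0_pm_313 : ∃ t, chk3 f_pm_313 t 1 1 1 = true :=
  ⟨(a (l 2) (a (l 2) (l 4))), by decide +kernel⟩

theorem c_pm_313 : CertNX 0 1230186008 536870912 536870912 1046898278 26843546 3 true true false .dn 3 1 3
    ndN7q3 ndN7q1 pcN3 Cut.none Ext.none :=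
  certNX0 (fam := true) (s1 := true) (s2 := false) (a := 3) (b := 1) (c := 3) (cn := .dn) (n1 := ndN7q3) (n2 := ndN7q1) (pc := pcN3) (cut := Cut.none) (xt := Ext.none) (P1 := 0) (W1 := 1230186008) (P2 := 536870912) (W2 := 536870912) (P3 := 1046898278) (W3 := 26843546) (N0 := 3)
    rfl k0_pm_313

noncomputable def f_mm_001 : ℕ → ℕ → ℕ → ℕ → Bool := onCell 0 536870912 0 536870912 1046898278 26843546
    (rowNX 3 0 true false false .up 0 0 1 (qsf 0 536870912 0 536870912 1) ndN7q0 ndN7q0 pcN1 Cut.none Ext.none)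

def k0_mm_001 : ∃ t, chk3 f_mm_001 t 1 1 1 = true :=
  ⟨(l 4), by decide +kernel⟩

theorem c_mm_001 : CertNX 0 536870912 0 536870912 1046898278 26843546 3 true false false .up 0 0 1
    ndN7q0 ndN7q0 pcN1 Cut.none Ext.none :=
  certNX0 (fam := true) (s1 := false) (s2 := false) (a := 0) (b := 0) (c := 1) (cn := .up) (n1 := ndN7q0) (n2 := ndN7q0) (pc := pcN1) (cut := Cut.none) (xt := Ext.none) (P1 := 0) (W1 := 536870912) (P2 := 0) (W2 := 536870912) (P3 := 1046898278) (W3 := 26843546) (N0 := 3)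
    rfl k0_mm_001

noncomputable def f_mm_011 : ℕ → ℕ → ℕ → ℕ → Bool := onCell 0 536870912 536870912 536870912 1046898278 26843546
    (rowNX 3 0 true false false .pnn 0 1 1 (qsf 0 536870912 536870912 536870912 1) ndN7q0 ndN7q1 pcN1 Cut.none Ext.none)

def k0_mm_011 : ∃ t, chk3 f_mm_011 t 1 1 1 = true :=
  ⟨(l 4), by decide +kernel⟩

theorem c_mm_011 : CertNX 0 536870912 536870912 536870912 1046898278 26843546 3 true false false .pnn 0 1 1
    ndN7q0 ndN7q1 pcN1 Cut.none Ext.none :=
  certNX0 (fam := true) (s1 := false) (s2 := false) (a := 0) (b := 1) (c := 1) (cn := .pnn) (n1 := ndN7q0) (n2 := ndN7q1) (pc := pcN1) (cut := Cut.none) (xt := Ext.none) (P1 := 0) (W1 := 536870912) (P2 := 536870912) (W2 := 536870912) (P3 := 1046898278) (W3 := 26843546) (N0 := 3)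
    rfl k0_mm_011

noncomputable def f_mm_012 : ℕ → ℕ → ℕ → ℕ → Bool := onCell 0 536870912 536870912 536870912 1046898278 26843546
    (rowNX 3 0 true false false .pnp 0 1 2 (qsf 0 536870912 536870912 536870912 2) ndN7q0 ndN7q1 pcN2 Cut.none Ext.none)

def k0_mm_012 : ∃ t, chk3 f_mm_012 t 1 1 1 = true :=
  ⟨(l 4), by decide +kernel⟩

theorem c_mm_012 : CertNX 0 536870912 536870912 536870912 1046898278 26843546 3 true false false .pnp 0 1 2
    ndN7q0 ndN7q1 pcN2 Cut.none Ext.none :=
  certNX0 (fam := true) (s1 := false) (s2 := false) (a := 0) (b := 1) (c := 2) (cn := .pnp) (n1 := ndN7q0) (n2 := ndN7q1) (pc := pcN2) (cut := Cut.none) (xt := Ext.none) (P1 := 0) (W1 := 536870912) (P2 := 536870912) (W2 := 536870912) (P3 := 1046898278) (W3 := 26843546) (N0 := 3)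
    rfl k0_mm_012

noncomputable def f_mm_022 : ℕ → ℕ → ℕ → ℕ → Bool := onCell 0 536870912 1073741824 536870912 1046898278 26843546
    (rowNX 3 0 true false false .pp 0 2 2 (qsf 0 536870912 1073741824 536870912 2) ndN7q0 ndN7q2 pcN2 Cut.none Ext.none)

def k0_mm_022 : ∃ t, chk3 f_mm_022 t 1 1 1 = true :=
  ⟨(l 4), by decide +kernel⟩

theorem c_mm_022 : CertNX 0 536870912 1073741824 536870912 1046898278 26843546 3 true false false .pp 0 2 2
    ndN7q0 ndN7q2 pcN2 Cut.none Ext.none :=
  certNX0 (fam := true) (s1 := false) (s2 := false) (a := 0) (b := 2) (c := 2) (cn := .pp) (n1 := ndN7q0) (n2 := ndN7q2) (pc := pcN2) (cut := Cut.none) (xt := Ext.none) (P1 := 0) (W1 := 536870912) (P2 := 1073741824) (W2 := 536870912) (P3 := 1046898278) (W3 := 26843546) (N0 := 3)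
    rfl k0_mm_022

noncomputable def f_mm_023 : ℕ → ℕ → ℕ → ℕ → Bool := onCell 0 536870912 1073741824 536870912 1046898278 26843546
    (rowNX 3 0 true false false .up 0 2 3 (qsf 0 536870912 1073741824 536870912 3) ndN7q0 ndN7q2 pcN3 Cut.none Ext.none)

def k0_mm_023 : ∃ t, chk3 f_mm_023 t 1 1 1 = true :=
  ⟨(l 4), by decide +kernel⟩

theorem c_mm_023 : CertNX 0 536870912 1073741824 536870912 1046898278 26843546 3 true false false .up 0 2 3
    ndN7q0 ndN7q2 pcN3 Cut.none Ext.none :=
  certNX0 (fam := true) (s1 := false) (s2 := false) (a := 0) (b := 2) (c := 3) (cn := .up) (n1 := ndN7q0) (n2 := ndN7q2) (pc := pcN3) (cut := Cut.none) (xt := Ext.none) (P1 := 0) (W1 := 536870912) (P2 := 1073741824) (W2 := 536870912) (P3 := 1046898278) (W3 := 26843546) (N0 := 3)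
    rfl k0_mm_023

noncomputable def f_mm_033 : ℕ → ℕ → ℕ → ℕ → Bool := onCell 0 536870912 0 1230186008 1046898278 26843546
    (rowNX 3 0 true false false .pnn 0 3 3 (qsf 0 536870912 0 1230186008 3) ndN7q0 ndN7q3 pcN3 Cut.none Ext.none)

def k0_mm_033 : ∃ t, chk3 f_mm_033 t 1 1 1 = true :=
  ⟨(l 4), by decide +kernel⟩

theorem c_mm_033 : CertNX 0 536870912 0 1230186008 1046898278 26843546 3 true false false .pnn 0 3 3
    ndN7q0 ndN7q3 pcN3 Cut.none Ext.none :=
  certNX0 (fam := true) (s1 := false) (s2 := false) (a := 0) (b := 3) (c := 3) (cn := .pnn) (n1 := ndN7q0) (n2 := ndN7q3) (pc := pcN3) (cut := Cut.none) (xt := Ext.none) (P1 := 0) (W1 := 536870912) (P2 := 0) (W2 := 1230186008) (P3 := 1046898278) (W3 := 26843546) (N0 := 3)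
    rfl k0_mm_033

noncomputable def f_mm_101 : ℕ → ℕ → ℕ → ℕ → Bool := onCell 536870912 536870912 0 536870912 1046898278 26843546
    (rowNX 3 0 true false false .npn 1 0 1 (qsf 536870912 536870912 0 536870912 1) ndN7q1 ndN7q0 pcN1 Cut.none Ext.none)

def k0_mm_101 : ∃ t, chk3 f_mm_101 t 1 1 1 = true :=
  ⟨(l 4), by decide +kernel⟩

theorem c_mm_101 : CertNX 536870912 536870912 0 536870912 1046898278 26843546 3 true false false .npn 1 0 1
    ndN7q1 ndN7q0 pcN1 Cut.none Ext.none :=
  certNX0 (fam := true) (s1 := false) (s2 := false) (a := 1) (b := 0) (c := 1) (cn := .npn) (n1 := ndN7q1) (n2 := ndN7q0) (pc := pcN1) (cut := Cut.none) (xt := Ext.none) (P1 := 536870912) (W1 := 536870912) (P2 := 0) (W2 := 536870912) (P3 := 1046898278) (W3 := 26843546) (N0 := 3)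
    rfl k0_mm_101

noncomputable def f_mm_102 : ℕ → ℕ → ℕ → ℕ → Bool := onCell 536870912 536870912 0 536870912 1046898278 26843546
    (rowNX 3 0 true false false .npp 1 0 2 (qsf 536870912 536870912 0 536870912 2) ndN7q1 ndN7q0 pcN2 Cut.none Ext.none)

def k0_mm_102 : ∃ t, chk3 f_mm_102 t 1 1 1 = true :=
  ⟨(l 4), by decide +kernel⟩

theorem c_mm_102 : CertNX 536870912 536870912 0 536870912 1046898278 26843546 3 true false false .npp 1 0 2
    ndN7q1 ndN7q0 pcN2 Cut.none Ext.none :=
  certNX0 (fam := true) (s1 := false) (s2 := false) (a := 1) (b := 0) (c := 2) (cn := .npp) (n1 := ndN7q1) (n2 := ndN7q0) (pc := pcN2) (cut := Cut.none) (xt := Ext.none) (P1 := 536870912) (W1 := 536870912) (P2 := 0) (W2 := 536870912) (P3 := 1046898278) (W3 := 26843546) (N0 := 3)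
    rfl k0_mm_102

noncomputable def f_mm_112 : ℕ → ℕ → ℕ → ℕ → Bool := onCell 536870912 536870912 536870912 536870912 1046898278 26843546
    (rowNX 3 0 true false false .dn 1 1 2 (qsf 536870912 536870912 536870912 536870912 2) ndN7q1 ndN7q1 pcN2 Cut.none Ext.none)

def k0_mm_112 : ∃ t, chk3 f_mm_112 t 1 1 1 = true :=
  ⟨(l 4), by decide +kernel⟩

theorem c_mm_112 : CertNX 536870912 536870912 536870912 536870912 1046898278 26843546 3 true false false .dn 1 1 2
    ndN7q1 ndN7q1 pcN2 Cut.none Ext.none :=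
  certNX0 (fam := true) (s1 := false) (s2 := false) (a := 1) (b := 1) (c := 2) (cn := .dn) (n1 := ndN7q1) (n2 := ndN7q1) (pc := pcN2) (cut := Cut.none) (xt := Ext.none) (P1 := 536870912) (W1 := 536870912) (P2 := 536870912) (W2 := 536870912) (P3 := 1046898278) (W3 := 26843546) (N0 := 3)
    rfl k0_mm_112

noncomputable def f_mm_113 : ℕ → ℕ → ℕ → ℕ → Bool := onCell 536870912 536870912 536870912 536870912 1046898278 26843546
    (rowNX 3 0 true false false .nn 1 1 3 (qsf 536870912 536870912 536870912 536870912 3) ndN7q1 ndN7q1 pcN3 Cut.none Ext.none)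

def k0_mm_113 : ∃ t, chk3 f_mm_113 t 1 1 1 = true :=
  ⟨(l 4), by decide +kernel⟩

theorem c_mm_113 : CertNX 536870912 536870912 536870912 536870912 1046898278 26843546 3 true false false .nn 1 1 3
    ndN7q1 ndN7q1 pcN3 Cut.none Ext.none :=
  certNX0 (fam := true) (s1 := false) (s2 := false) (a := 1) (b := 1) (c := 3) (cn := .nn) (n1 := ndN7q1) (n2 := ndN7q1) (pc := pcN3) (cut := Cut.none) (xt := Ext.none) (P1 := 536870912) (W1 := 536870912) (P2 := 536870912) (W2 := 536870912) (P3 := 1046898278) (W3 := 26843546) (N0 := 3)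
    rfl k0_mm_113

noncomputable def f_mm_123 : ℕ → ℕ → ℕ → ℕ → Bool := onCell 536870912 536870912 1073741824 536870912 1046898278 26843546
    (rowNX 3 0 true false false .npn 1 2 3 (qsf 536870912 536870912 1073741824 536870912 3) ndN7q1 ndN7q2 pcN3 Cut.none Ext.none)

def k0_mm_123 : ∃ t, chk3 f_mm_123 t 1 1 1 = true :=
  ⟨(l 4), by decide +kernel⟩

theorem c_mm_123 : CertNX 536870912 536870912 1073741824 536870912 1046898278 26843546 3 true false false .npn 1 2 3
    ndN7q1 ndN7q2 pcN3 Cut.none Ext.none :=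
  certNX0 (fam := true) (s1 := false) (s2 := false) (a := 1) (b := 2) (c := 3) (cn := .npn) (n1 := ndN7q1) (n2 := ndN7q2) (pc := pcN3) (cut := Cut.none) (xt := Ext.none) (P1 := 536870912) (W1 := 536870912) (P2 := 1073741824) (W2 := 536870912) (P3 := 1046898278) (W3 := 26843546) (N0 := 3)
    rfl k0_mm_123

noncomputable def f_mm_133 : ℕ → ℕ → ℕ → ℕ → Bool := onCell 536870912 536870912 0 1230186008 1046898278 26843546
    (rowNX 3 0 true false false .dn 1 3 3 (qsf 536870912 536870912 0 1230186008 3) ndN7q1 ndN7q3 pcN3 Cut.none Ext.none)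

def k0_mm_133 : ∃ t, chk3 f_mm_133 t 1 1 1 = true :=
  ⟨(l 4), by decide +kernel⟩

theorem c_mm_133 : CertNX 536870912 536870912 0 1230186008 1046898278 26843546 3 true false false .dn 1 3 3
    ndN7q1 ndN7q3 pcN3 Cut.none Ext.none :=
  certNX0 (fam := true) (s1 := false) (s2 := false) (a := 1) (b := 3) (c := 3) (cn := .dn) (n1 := ndN7q1) (n2 := ndN7q3) (pc := pcN3) (cut := Cut.none) (xt := Ext.none) (P1 := 536870912) (W1 := 536870912) (P2 := 0) (W2 := 1230186008) (P3 := 1046898278) (W3 := 26843546) (N0 := 3)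
    rfl k0_mm_133

noncomputable def f_mm_202 : ℕ → ℕ → ℕ → ℕ → Bool := onCell 1073741824 536870912 0 536870912 1046898278 26843546
    (rowNX 3 0 true false false .pp 2 0 2 (qsf 1073741824 536870912 0 536870912 2) ndN7q2 ndN7q0 pcN2 Cut.none Ext.none)

def k0_mm_202 : ∃ t, chk3 f_mm_202 t 1 1 1 = true :=
  ⟨(l 4), by decide +kernel⟩

theorem c_mm_202 : CertNX 1073741824 536870912 0 536870912 1046898278 26843546 3 true false false .pp 2 0 2
    ndN7q2 ndN7q0 pcN2 Cut.none Ext.none :=
  certNX0 (fam := true) (s1 := false) (s2 := false) (a := 2) (b := 0) (c := 2) (cn := .pp) (n1 := ndN7q2) (n2 := ndN7q0) (pc := pcN2) (cut := Cut.none) (xt := Ext.none) (P1 := 1073741824) (W1 := 536870912) (P2 := 0) (W2 := 536870912) (P3 := 1046898278) (W3 := 26843546) (N0 := 3)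
    rfl k0_mm_202

noncomputable def f_mm_203 : ℕ → ℕ → ℕ → ℕ → Bool := onCell 1073741824 536870912 0 536870912 1046898278 26843546
    (rowNX 3 0 true false false .up 2 0 3 (qsf 1073741824 536870912 0 536870912 3) ndN7q2 ndN7q0 pcN3 Cut.none Ext.none)

def k0_mm_203 : ∃ t, chk3 f_mm_203 t 1 1 1 = true :=
  ⟨(l 4), by decide +kernel⟩

theorem c_mm_203 : CertNX 1073741824 536870912 0 536870912 1046898278 26843546 3 true false false .up 2 0 3
    ndN7q2 ndN7q0 pcN3 Cut.none Ext.none :=
  certNX0 (fam := true) (s1 := false) (s2 := false) (a := 2) (b := 0) (c := 3) (cn := .up) (n1 := ndN7q2) (n2 := ndN7q0) (pc := pcN3) (cut := Cut.none) (xt := Ext.none) (P1 := 1073741824) (W1 := 536870912) (P2 := 0) (W2 := 536870912) (P3 := 1046898278) (W3 := 26843546) (N0 := 3)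
    rfl k0_mm_203

noncomputable def f_mm_213 : ℕ → ℕ → ℕ → ℕ → Bool := onCell 1073741824 536870912 536870912 536870912 1046898278 26843546
    (rowNX 3 0 true false false .pnn 2 1 3 (qsf 1073741824 536870912 536870912 536870912 3) ndN7q2 ndN7q1 pcN3 Cut.none Ext.none)

def k0_mm_213 : ∃ t, chk3 f_mm_213 t 1 1 1 = true :=
  ⟨(l 4), by decide +kernel⟩

theorem c_mm_213 : CertNX 1073741824 536870912 536870912 536870912 1046898278 26843546 3 true false false .pnn 2 1 3
    ndN7q2 ndN7q1 pcN3 Cut.none Ext.none :=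
  certNX0 (fam := true) (s1 := false) (s2 := false) (a := 2) (b := 1) (c := 3) (cn := .pnn) (n1 := ndN7q2) (n2 := ndN7q1) (pc := pcN3) (cut := Cut.none) (xt := Ext.none) (P1 := 1073741824) (W1 := 536870912) (P2 := 536870912) (W2 := 536870912) (P3 := 1046898278) (W3 := 26843546) (N0 := 3)
    rfl k0_mm_213

noncomputable def f_mm_303 : ℕ → ℕ → ℕ → ℕ → Bool := onCell 0 1230186008 0 536870912 1046898278 26843546
    (rowNX 3 0 true false false .npn 3 0 3 (qsf 0 1230186008 0 536870912 3) ndN7q3 ndN7q0 pcN3 Cut.none Ext.none)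

def k0_mm_303 : ∃ t, chk3 f_mm_303 t 1 1 1 = true :=
  ⟨(l 4), by decide +kernel⟩

theorem c_mm_303 : CertNX 0 1230186008 0 536870912 1046898278 26843546 3 true false false .npn 3 0 3
    ndN7q3 ndN7q0 pcN3 Cut.none Ext.none :=
  certNX0 (fam := true) (s1 := false) (s2 := false) (a := 3) (b := 0) (c := 3) (cn := .npn) (n1 := ndN7q3) (n2 := ndN7q0) (pc := pcN3) (cut := Cut.none) (xt := Ext.none) (P1 := 0) (W1 := 1230186008) (P2 := 0) (W2 := 536870912) (P3 := 1046898278) (W3 := 26843546) (N0 := 3)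
    rfl k0_mm_303

noncomputable def f_mm_313 : ℕ → ℕ → ℕ → ℕ → Bool := onCell 0 1230186008 536870912 536870912 1046898278 26843546
    (rowNX 3 0 true false false .dn 3 1 3 (qsf 0 1230186008 536870912 536870912 3) ndN7q3 ndN7q1 pcN3 Cut.none Ext.none)

def k0_mm_313 : ∃ t, chk3 f_mm_313 t 1 1 1 = true :=
  ⟨(l 4), by decide +kernel⟩

theorem c_mm_313 : CertNX 0 1230186008 536870912 536870912 1046898278 26843546 3 true false false .dn 3 1 3
    ndN7q3 ndN7q1 pcN3 Cut.none Ext.none :=
  certNX0 (fam := true) (s1 := false) (s2 := false) (a := 3) (b := 1) (c := 3) (cn := .dn) (n1 := ndN7q3) (n2 := ndN7q1) (pc := pcN3) (cut := Cut.none) (xt := Ext.none) (P1 := 0) (W1 := 1230186008) (P2 := 536870912) (W2 := 536870912) (P3 := 1046898278) (W3 := 26843546) (N0 := 3)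
    rfl k0_mm_313

end Pool.Agent.Strip051.G.IE1.Tab.C.NA77

namespace Pool.Agent.Strip051.G.IE1.Tab.C.NB00

open Pool.Agent.Strip051.PB Pool.Agent.Strip051.PB.T
open Pool.Agent.Strip051.G.IE1.Tab

noncomputable def f_pp_001 : ℕ → ℕ → ℕ → ℕ → Bool := onCell 0 536870912 0 536870912 1046898278 26843546
    (rowNX 3 1 false true true .up 0 0 1 (qsf 0 536870912 536870912 536870912 0) ndN0q0 ndN0q1 pcN0 Cut.none Ext.none)

def k0_pp_001 : ∃ t, chk3 f_pp_001 t 1 1 1 = true :=
  ⟨(l 3), by decide +kernel⟩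

theorem c_pp_001 : CertNX 0 536870912 536870912 536870912 1046898278 26843546 3 false true true .up 0 0 1
    ndN0q0 ndN0q1 pcN0 Cut.none Ext.none :=
  certNX1 (fam := false) (s1 := true) (s2 := true) (a := 0) (b := 0) (c := 1) (cn := .up) (n1 := ndN0q0) (n2 := ndN0q1) (pc := pcN0) (cut := Cut.none) (xt := Ext.none) (P1 := 0) (W1 := 536870912) (P2 := 536870912) (W2 := 536870912) (P3 := 1046898278) (W3 := 26843546) (N0 := 3)
    rfl (fun _ => rfl) k0_pp_001

noncomputable def cut_pp_011 : Cut := Cut.of [[⟨0, 0, 0, 67108864⟩, ⟨1, 1, 0, 67108864⟩, ⟨2, 1, 0, 67108864⟩, ⟨3, 0, 0, 1233125376⟩]]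

noncomputable def f_pp_011 : ℕ → ℕ → ℕ → ℕ → Bool := onCell 536870912 536870912 536870912 536870912 1046898278 26843546
    (rowNX 3 2 false true true .pnn 0 1 1 (qsf 0 536870912 536870912 536870912 1) ndN0q0 ndN0q1 pcN1 cut_pp_011 Ext.none)

def k0_pp_011 : ∃ t, chk3 f_pp_011 t 1 1 1 = true :=
  ⟨(a (l 3) (b (l 3) (a (l 3) (b (l 3) (a (l 3) (b (l 3) (a (l 3) (b (l 3) (l 6))))))))), by decide +kernel⟩

theorem c_pp_011 : CertNX 0 536870912 536870912 536870912 1046898278 26843546 3 false true true .pnn 0 1 1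
    ndN0q0 ndN0q1 pcN1 cut_pp_011 Ext.none :=
  certNX2 (fam := false) (s1 := true) (s2 := true) (a := 0) (b := 1) (c := 1) (cn := .pnn) (n1 := ndN0q0) (n2 := ndN0q1) (pc := pcN1) (cut := cut_pp_011) (xt := Ext.none) (P1 := 0) (W1 := 536870912) (P2 := 536870912) (W2 := 536870912) (P3 := 1046898278) (W3 := 26843546) (N0 := 3)
    rfl (fun _ => rfl) k0_pp_011

end Pool.Agent.Strip051.G.IE1.Tab.C.NB00

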