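import Pool.Agent.Strip051.G.IE1.StNeD

/-! # Strips StNe34 (generated) -/

set_option linter.all false
set_option maxRecDepth 100000

namespace Pool.Agent.Strip051.G.IE1.Tab.StN.C

open Pool.Agent.Strip051.PB Pool.Agent.Strip051.PB.T
open Pool.Agent.StripNear Pool.Agent.Strip051.LC
open Pool.Agent.Strip051.G.IE1.Tab Pool.Agent.Strip051.G.IE1.Tab.St Pool.Agent.Strip051.G.IE1.Tab.StN

def k2690_B00pm_011_s3 : ∃ t, chk3 f_B00pm_011_s3 t 120 125 45 = true :=
  ⟨(b (a (b (l 4) (b (a (a (a (a (a (a (a (b (b (c (c (l 481369359) (l 481340687)) (c (l 481312015) (l 481283343))) (b (b (b (l 16770832) (l 16774856)) (l 16773024)) (l 16769352))) (b (l 16751520) (l 16752208))) (l 14)) (l 14)) (l 14)) (l 14)) (l 14)) (l 14)) (l 14)) (a (a (a (a (b (l 16718000) (l 16719320)) (l 14)) (l 14)) (l 14)) (l 14)))) (l 14)) (a (b (a (a (a (a (b (b (l 16699632) (c (b (c (b (l 16687880) (l 16684096)) (l 16684872)) (c (l 16679520) (b (l 16677888) (l 16674016))))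 (l 16679856))) (b (c (l 16668672) (b (c (b (l 16667880) (l 16663936)) (l 16665008)) (c (l 16659208) (l 16656024)))) (l 16652720))) (l 14)) (l 14)) (l 14)) (l 14)) (a (a (b (b (l 16646176) (l 16592464)) (b (c (b (l 16627688) (l 16617416)) (l 16618120)) (c (l 16599384) (b (l 16606648) (l 16596000))))) (l 14)) (l 14))) (l 14))), by decide +kernel⟩

def k2691_B00pm_011_s3 : ∃ t, chk3 f_B00pm_011_s3 t 120 125 23 = true :=
  ⟨(b (a (b (l 4) (b (a (a (b (a (a (a (a (a (b (b (l 4) (c (c (c (l 481253647) (l 481224975)) (c (l 481196047) (l 481167375))) (c (c (l 481138447) (l 481109775)) (c (l 481080847) (l 481052175))))) (b (b (b (l 16770832) (l 16774848)) (l 16773008)) (l 16758840))) (l 14)) (l 14)) (l 14)) (l 14)) (l 14)) (a (a (a (b (l 16752112) (l 16752768)) (l 14)) (l 14)) (l 14))) (l 14)) (l 14)) (a (a (a (a (b (l 16717880) (l 16719136)) (l 14)) (l 14)) (l 14)) (l 14)))) (l 14)) (b (a (a (a (a (b (l 16670216) (b (l 16661480) (c (c (b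 (c (l 16647648) (l 16646768)) (c (l 16640536) (l 16637560))) (l 16641696)) (l 16641488)))) (l 14)) (l 14)) (l 14)) (l 14)) (a (b (a (a (a (c (b (c (l 16629616) (b (l 16627216) (c (l 16620128) (l 16617360)))) (l 16613568)) (b (l 16621576) (c (b (l 16607032) (l 16588168)) (l 16601536)))) (l 14)) (l 14)) (l 14)) (a (a (c (b (l 16605240) (l 16572184)) (b (c (l 16592024) (b (l 16590168) (l 16571144))) (l 16575856))) (l 14)) (l 14))) (l 14)))), by decide +kernel⟩

def k2692_B00pm_011_s3 : ∃ t, chk3 f_B00pm_011_s3 t 121 62 5 = true :=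
  ⟨(l 14), by decide +kernel⟩

def k2693_B00pm_011_s3 : ∃ t, chk3 f_B00pm_011_s3 t 120 252 10 = true :=
  ⟨(a (b (c (a (c (c (a (a (a (a (a (a (a (b (b (b (l 16454288) (l 16443976)) (l 16429912)) (l 16403232)) (l 14)) (l 14)) (l 14)) (l 14)) (l 14)) (l 14)) (l 14)) (a (b (b (l 16469400) (b (l 16453352) (l 16443312))) (l 16420384)) (l 14))) (a (a (a (a (b (l 16404456) (l 16403472)) (l 14)) (l 14)) (l 14)) (l 14))) (l 14)) (a (a (a (a (c (c (b (l 16518496) (l 16472024)) (c (l 16425832) (c (l 16517056) (b (c (l 16544584) (l 16545744)) (l 16475744))))) (l 16524464)) (l 14)) (l 14)) (l 14)) (l 14))) (c (a (b (a (c (c (a (a (a (a (l 16367712) (l 14)) (l 14)) (l 14)) (l 14)) (l 16384048)) (l 16407312)) (l 14)) (a (a (a (a (a (b (b (b (l 16369720) (l 16323168)) (l 16358024)) (l 16343976)) (l 14)) (l 14)) (l 14)) (l 14)) (l 14))) (l 14)) (b (a (a (a (a (c (c (l 16429576) (c (l 16441248) (c (l 16447168) (l 16450216)))) (l 16452704)) (l 14))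 (l 14)) (l 14)) (l 14)) (a (a (a (a (a (c (b (b (b (l 16414048) (c (l 16401768) (c (l 16412792) (l 16377608)))) (l 16401288)) (l 16344016)) (b (b (l 16423392) (l 16413400)) (l 16397704))) (l 14)) (l 14)) (l 14)) (l 14)) (l 14))))) (l 14)), by decide +kernel⟩

def k2694_B00pm_011_s3 : ∃ t, chk3 f_B00pm_011_s3 t 120 253 10 = true :=
  ⟨(a (c (a (a (a (b (c (a (a (b (l 16302872) (l 16266376)) (l 14)) (l 14)) (l 16310472)) (c (c (c (a (l 16227312) (l 14)) (l 16211544)) (l 16218952)) (l 16233904))) (l 14)) (l 14)) (l 14)) (a (a (a (a (c (b (b (b (l 16365800) (l 16345312)) (l 16314512)) (b (l 16273328) (l 16232808))) (l 16219904)) (l 14)) (l 14)) (l 14)) (l 14))) (l 14)), by decide +kernel⟩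

def k2695_B00pm_011_s3 : ∃ t, chk3 f_B00pm_011_s3 t 121 126 10 = true :=
  ⟨(l 14), by decide +kernel⟩

def k2696_B00pm_011_s3 : ∃ t, chk3 f_B00pm_011_s3 t 60 126 11 = true :=
  ⟨(a (b (b (a (a (a (c (l 16453472) (b (c (b (c (l 16579688) (l 16576560)) (l 16557128)) (b (l 16564024) (l 16530536))) (c (l 16520936) (b (c (l 16536736) (l 16534552)) (l 16513824))))) (l 14)) (l 14)) (l 14)) (a (a (a (a (b (l 16466096) (b (b (l 16434928) (l 16423952)) (l 16406000))) (l 14)) (l 14)) (l 14)) (l 14))) (a (a (b (b (c (l 16379232) (l 16383624)) (l 16337432)) (l 16273264)) (l 14)) (l 14))) (l 14)), by decide +kernel⟩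

def k2697_B00pm_011_s3 : ∃ t, chk3 f_B00pm_011_s3 t 60 127 5 = true :=
  ⟨(a (a (a (a (a (a (b (b (c (c (c (l 16144992) (l 16159624)) (c (l 16174344) (l 16180008))) (l 16177784)) (l 6)) (l 6)) (l 14)) (l 14)) (l 14)) (l 14)) (l 14)) (l 14)), by decide +kernel⟩

def k2698_B00pm_011_s3 : ∃ t, chk3 f_B00pm_011_s3 t 61 31 2 = true :=
  ⟨(l 14), by decide +kernel⟩

def k2699_B00pm_011_s3 : ∃ t, chk3 f_B00pm_011_s3 t 30 30 3 = true :=
  ⟨(l 4), by decide +kernel⟩

def k2700_B00pm_011_s3 : ∃ t, chk3 f_B00pm_011_s3 t 60 124 3 = true :=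
  ⟨(l 4), by decide +kernel⟩

def k2701_B00pm_011_s3 : ∃ t, chk3 f_B00pm_011_s3 t 240 500 3 = true :=
  ⟨(l 4), by decide +kernel⟩

def k2702_B00pm_011_s3 : ∃ t, chk3 f_B00pm_011_s3 t 240 501 6 = true :=
  ⟨(b (a (b (c (a (c (a (b (a (a (a (b (l 4) (b (l 4) (c (a (a (b (l 4) (b (l 93650412967) (l 16771640))) (l 14)) (l 14)) (c (c (l 480906255) (l 480877327)) (c (l 480848399) (l 480819471)))))) (l 4)) (l 4)) (l 4)) (a (a (a (a (a (b (b (b (l 16770720) (l 16774728)) (l 16772880)) (l 16763944)) (l 14)) (l 14)) (l 14)) (l 14)) (l 14))) (l 14)) (a (a (a (a (a (b (b (l 4) (c (c (c (l 480791823) (l 480762895)) (c (l 480733967) (l 480704783))) (c (c (l 480675855) (l 480646671)) (c (l 480617743) (l 480588559))))) (b (b (c (l 16764960) (l 16764960)) (l 16772976)) (l 16758776))) (l 14)) (l 14)) (l 14)) (l 14)) (l 14))) (l 4)) (a (a (b (a (a (a (b (l 4) (b (l 4) (a (b (l 4) (b (c (c (l 16770872) (l 16776096)) (l 16776072)) (c (c (l 16771704)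 (l 16771704)) (l 16771704)))) (l 14)))) (l 4)) (l 4)) (l 4)) (a (a (a (a (b (c (b (l 16764952) (l 16772952)) (l 16753216)) (c (l 16769224) (l 16769192))) (l 14)) (l 14)) (l 14)) (l 14))) (l 14)) (l 4))) (a (a (a (a (a (c (c (b (l 16751624) (l 16752240)) (b (l 16751560) (l 16752136))) (c (b (l 16741008) (l 16752032)) (l 16735952))) (l 14)) (l 14)) (l 14)) (l 14)) (l 14))) (l 14)) (a (a (a (a (c (b (c (l 16717720) (l 16717560)) (l 16697808)) (b (c (l 16696432) (l 16696272)) (l 16718288))) (l 14)) (l 14)) (l 14)) (l 14))), by decide +kernel⟩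

def k2703_B00pm_011_s3 : ∃ t, chk3 f_B00pm_011_s3 t 240 501 7 = true :=
  ⟨(b (a (a (b (c (b (b (l 4) (b (l 4) (b (l 4) (a (a (a (a (a (c (l 16771664) (l 16776904)) (l 14)) (l 4)) (l 4)) (l 4)) (l 4))))) (a (a (a (a (b (c (l 16753416) (l 16732432)) (c (l 16769376) (l 16769344))) (l 14)) (l 14)) (l 14)) (l 14))) (a (a (a (a (b (c (l 100629670343) (l 102240282263)) (l 16750856)) (l 14)) (l 14)) (l 14)) (l 14))) (a (a (c (b (c (l 16721216) (l 16679216)) (l 16732104)) (l 16716000)) (l 14)) (l 14))) (l 14)) (l 14)) (a (a (a (c (b (c (l 16697840) (l 16655744)) (l 16677592)) (l 16687280)) (l 14)) (l 14)) (l 14))), by decide +kernel⟩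

def k2704_B00pm_011_s3 : ∃ t, chk3 f_B00pm_011_s3 t 241 250 3 = true :=
  ⟨(l 14), by decide +kernel⟩

def k2705_B00pm_011_s3 : ∃ t, chk3 f_B00pm_011_s3 t 120 251 3 = true :=
  ⟨(b (a (a (a (a (a (c (c (b (l 16667976) (l 16649064)) (b (l 16646272) (l 16648000))) (c (l 16625248) (l 16582384))) (l 14)) (l 14)) (l 14)) (l 14)) (l 14)) (a (a (a (c (c (b (l 16614136) (b (l 16584032) (c (c (c (b (l 16569864) (l 16561176)) (l 16564456)) (l 16564128)) (l 16563464)))) (b (l 16612784) (l 16572272))) (c (l 16507088) (l 16505544))) (l 14)) (l 14)) (l 14))), by decide +kernel⟩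

def k2706_B00pm_011_s3 : ∃ t, chk3 f_B00pm_011_s3 t 121 125 3 = true :=
  ⟨(l 14), by decide +kernel⟩

def k2707_B00pm_011_s3 : ∃ t, chk3 f_B00pm_011_s3 t 61 62 3 = true :=
  ⟨(l 14), by decide +kernel⟩

def k2708_B00pm_011_s3 : ∃ t, chk3 f_B00pm_011_s3 t 60 126 6 = true :=
  ⟨(b (a (b (c (c (a (a (a (a (b (c (b (c (l 16547440) (l 16541976)) (l 16531152)) (b (l 16540600) (l 16500048))) (c (b (l 16519176) (l 16506096)) (b (c (l 16506000) (l 16500856)) (l 16489568)))) (l 14)) (l 14)) (l 14)) (l 14)) (a (a (a (b (l 16533136) (b (l 16502744) (l 16482704))) (l 14)) (l 14)) (l 14))) (a (a (b (l 16538448) (l 16497632)) (l 14)) (l 14))) (c (b (a (a (a (c (c (b (c (l 16493272) (l 16492056)) (l 16470056)) (b (l 16480792) (l 16425056))) (c (b (c (l 16467680) (l 16462840)) (l 16451096)) (l 16451808))) (l 14)) (l 14)) (l 14)) (a (a (a (a (a (c (b (b (c (l 16446016) (c (l 16449872) (l 16448664))) (l 16436512)) (l 16418240)) (b (c (b (l 16436160)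 (l 16430696)) (b (c (l 16423312) (l 16420224)) (l 16414392))) (c (l 16419040) (l 16403920)))) (l 14)) (l 14)) (l 14)) (l 14)) (l 14))) (a (a (a (b (l 16449856) (b (b (l 16423352) (l 16414720)) (l 16398560))) (l 14)) (l 14)) (l 14)))) (l 14)) (a (c (a (a (a (b (c (l 16361432) (b (c (l 16392744) (b (l 16396312) (l 16380744))) (l 16345944))) (l 16186856)) (l 14)) (l 14)) (l 14)) (b (a (a (c (b (c (b (c (l 16390272) (l 16385968)) (l 16373368)) (l 16374848)) (c (b (l 16360192) (l 16343672)) (b (l 16304328) (l 16330712)))) (l 16268856)) (l 14)) (l 14)) (a (a (c (b (c (l 16310032) (b (l 16316864) (l 16299376))) (l 16262216)) (b (c (b (l 16303584) (l 16287776)) (l 16289872)) (c (b (l 16273064) (l 16254576)) (b (l 16260608) (l 16245880))))) (l 14)) (l 14)))) (l 14))), by decide +kernel⟩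

def k2709_B00pm_011_s3 : ∃ t, chk3 f_B00pm_011_s3 t 60 126 7 = true :=
  ⟨(a (a (a (a (a (b (b (l 16504416) (b (l 16442312) (b (b (l 16415664) (l 16406320)) (l 16390288)))) (b (l 16337968) (l 16253912))) (l 14)) (l 14)) (l 14)) (l 14)) (l 14)), by decide +kernel⟩

def k2710_B00pm_011_s3 : ∃ t, chk3 f_B00pm_011_s3 t 60 127 3 = true :=
  ⟨(b (c (a (a (a (b (c (l 16187648) (b (c (l 16212536) (c (l 16218672) (b (l 16228784) (l 16209248)))) (l 16168528))) (l 6)) (l 14)) (l 14)) (l 14)) (c (b (a (a (a (c (b (c (b (l 16217320) (l 16202040)) (l 16203600)) (c (l 16172696) (b (l 16173720) (l 6)))) (l 16180552)) (l 14)) (l 14)) (l 14)) (a (a (a (l 6) (l 14)) (l 14)) (l 14))) (a (a (b (l 16190504) (l 16104688)) (l 14)) (l 14)))) (a (l 6) (l 14))), by decide +kernel⟩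

def k2711_B00pm_011_s3 : ∃ t, chk3 f_B00pm_011_s3 t 61 63 3 = true :=
  ⟨(l 14), by decide +kernel⟩

def k2712_B00pm_011_s3 : ∃ t, chk3 f_B00pm_011_s3 t 31 15 1 = true :=
  ⟨(b (l 4) (l 14)), by decide +kernel⟩

end Pool.Agent.Strip051.G.IE1.Tab.StN.C
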