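import Pool.Agent.Strip051.G.IE1.StNe0
import Pool.Agent.Strip051.G.IE1.StNe1
import Pool.Agent.Strip051.G.IE1.StNe2
import Pool.Agent.Strip051.G.IE1.StNe3
import Pool.Agent.Strip051.G.IE1.StNe4
import Pool.Agent.Strip051.G.IE1.StNe5
import Pool.Agent.Strip051.G.IE1.StNe6
import Pool.Agent.Strip051.G.IE1.StNe7
import Pool.Agent.Strip051.G.IE1.StNe8
import Pool.Agent.Strip051.G.IE1.StNe9
import Pool.Agent.Strip051.G.IE1.StNe10
import Pool.Agent.Strip051.G.IE1.StNe11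
import Pool.Agent.Strip051.G.IE1.StNe12
import Pool.Agent.Strip051.G.IE1.StNe13
import Pool.Agent.Strip051.G.IE1.StNe14
import Pool.Agent.Strip051.G.IE1.StNe15
import Pool.Agent.Strip051.G.IE1.StNe16
import Pool.Agent.Strip051.G.IE1.StNe17
import Pool.Agent.Strip051.G.IE1.StNe18
import Pool.Agent.Strip051.G.IE1.StNe19
import Pool.Agent.Strip051.G.IE1.StNe20
import Pool.Agent.Strip051.G.IE1.StNe21
import Pool.Agent.Strip051.G.IE1.StNe22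
import Pool.Agent.Strip051.G.IE1.StNe23
import Pool.Agent.Strip051.G.IE1.StNe24
import Pool.Agent.Strip051.G.IE1.StNe25
import Pool.Agent.Strip051.G.IE1.StNe26
import Pool.Agent.Strip051.G.IE1.StNe27
import Pool.Agent.Strip051.G.IE1.StNe28
import Pool.Agent.Strip051.G.IE1.StNe29
import Pool.Agent.Strip051.G.IE1.StNe30
import Pool.Agent.Strip051.G.IE1.StNe31
import Pool.Agent.Strip051.G.IE1.StNe32
import Pool.Agent.Strip051.G.IE1.StNe33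
import Pool.Agent.Strip051.G.IE1.StNe34

/-! # Strips StNeZ (generated) -/

set_option linter.all false
set_option maxRecDepth 100000

namespace Pool.Agent.Strip051.G.IE1.Tab.StN.C

open Pool.Agent.Strip051.PB Pool.Agent.Strip051.PB.T
open Pool.Agent.StripNear Pool.Agent.Strip051.LC
open Pool.Agent.Strip051.G.IE1.Tab Pool.Agent.Strip051.G.IE1.Tab.St Pool.Agent.Strip051.G.IE1.Tab.StN

theorem t2713_B00pm_011_s3 : ∃ t, chk3 f_B00pm_011_s3 t 60 126 3 = true := ex3_c k2708_B00pm_011_s3 k2709_B00pm_011_s3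

theorem t2714_B00pm_011_s3 : ∃ t, chk3 f_B00pm_011_s3 t 60 63 3 = true := ex3_b t2713_B00pm_011_s3 k2710_B00pm_011_s3

theorem t2715_B00pm_011_s3 : ∃ t, chk3 f_B00pm_011_s3 t 30 63 3 = true := ex3_a t2714_B00pm_011_s3 k2711_B00pm_011_s3

theorem t2716_B00pm_011_s3 : ∃ t, chk3 f_B00pm_011_s3 t 240 501 3 = true := ex3_c k2702_B00pm_011_s3 k2703_B00pm_011_s3

theorem t2717_B00pm_011_s3 : ∃ t, chk3 f_B00pm_011_s3 t 240 250 3 = true := ex3_b k2701_B00pm_011_s3 t2716_B00pm_011_s3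

theorem t2718_B00pm_011_s3 : ∃ t, chk3 f_B00pm_011_s3 t 120 250 3 = true := ex3_a t2717_B00pm_011_s3 k2704_B00pm_011_s3

theorem t2719_B00pm_011_s3 : ∃ t, chk3 f_B00pm_011_s3 t 120 125 3 = true := ex3_b t2718_B00pm_011_s3 k2705_B00pm_011_s3

theorem t2720_B00pm_011_s3 : ∃ t, chk3 f_B00pm_011_s3 t 60 125 3 = true := ex3_a t2719_B00pm_011_s3 k2706_B00pm_011_s3

theorem t2721_B00pm_011_s3 : ∃ t, chk3 f_B00pm_011_s3 t 60 62 3 = true := ex3_b k2700_B00pm_011_s3 t2720_B00pm_011_s3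

theorem t2722_B00pm_011_s3 : ∃ t, chk3 f_B00pm_011_s3 t 30 62 3 = true := ex3_a t2721_B00pm_011_s3 k2707_B00pm_011_s3

theorem t2723_B00pm_011_s3 : ∃ t, chk3 f_B00pm_011_s3 t 30 31 3 = true := ex3_b t2722_B00pm_011_s3 t2715_B00pm_011_s3

theorem t2724_B00pm_011_s3 : ∃ t, chk3 f_B00pm_011_s3 t 30 15 3 = true := ex3_b k2699_B00pm_011_s3 t2723_B00pm_011_s3

theorem t2725_B00pm_011_s3 : ∃ t, chk3 f_B00pm_011_s3 t 120 126 10 = true := ex3_b k2693_B00pm_011_s3 k2694_B00pm_011_s3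

theorem t2726_B00pm_011_s3 : ∃ t, chk3 f_B00pm_011_s3 t 60 126 10 = true := ex3_a t2725_B00pm_011_s3 k2695_B00pm_011_s3

theorem t2727_B00pm_011_s3 : ∃ t, chk3 f_B00pm_011_s3 t 60 126 5 = true := ex3_c t2726_B00pm_011_s3 k2696_B00pm_011_s3

theorem t2728_B00pm_011_s3 : ∃ t, chk3 f_B00pm_011_s3 t 60 63 5 = true := ex3_b t2727_B00pm_011_s3 k2697_B00pm_011_s3

theorem t2729_B00pm_011_s3 : ∃ t, chk3 f_B00pm_011_s3 t 120 125 44 = true := ex3_b k2688_B00pm_011_s3 k2689_B00pm_011_s3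

theorem t2730_B00pm_011_s3 : ∃ t, chk3 f_B00pm_011_s3 t 120 125 22 = true := ex3_c t2729_B00pm_011_s3 k2690_B00pm_011_s3

theorem t2731_B00pm_011_s3 : ∃ t, chk3 f_B00pm_011_s3 t 120 125 11 = true := ex3_c t2730_B00pm_011_s3 k2691_B00pm_011_s3

theorem t2732_B00pm_011_s3 : ∃ t, chk3 f_B00pm_011_s3 t 120 62 11 = true := ex3_b k2687_B00pm_011_s3 t2731_B00pm_011_s3

theorem t2733_B00pm_011_s3 : ∃ t, chk3 f_B00pm_011_s3 t 240 501 43 = true := ex3_c k2683_B00pm_011_s3 k2684_B00pm_011_s3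

theorem t2734_B00pm_011_s3 : ∃ t, chk3 f_B00pm_011_s3 t 240 250 43 = true := ex3_b k2682_B00pm_011_s3 t2733_B00pm_011_s3

theorem t2735_B00pm_011_s3 : ∃ t, chk3 f_B00pm_011_s3 t 120 250 43 = true := ex3_a t2734_B00pm_011_s3 k2685_B00pm_011_s3

theorem t2736_B00pm_011_s3 : ∃ t, chk3 f_B00pm_011_s3 t 120 125 43 = true := ex3_b t2735_B00pm_011_s3 k2686_B00pm_011_s3

theorem t2737_B00pm_011_s3 : ∃ t, chk3 f_B00pm_011_s3 t 240 501 85 = true := ex3_c k2678_B00pm_011_s3 k2679_B00pm_011_s3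

theorem t2738_B00pm_011_s3 : ∃ t, chk3 f_B00pm_011_s3 t 240 250 85 = true := ex3_b k2677_B00pm_011_s3 t2737_B00pm_011_s3

theorem t2739_B00pm_011_s3 : ∃ t, chk3 f_B00pm_011_s3 t 120 250 85 = true := ex3_a t2738_B00pm_011_s3 k2680_B00pm_011_s3

theorem t2740_B00pm_011_s3 : ∃ t, chk3 f_B00pm_011_s3 t 120 125 85 = true := ex3_b t2739_B00pm_011_s3 k2681_B00pm_011_s3

theorem t2741_B00pm_011_s3 : ∃ t, chk3 f_B00pm_011_s3 t 120 125 84 = true := ex3_b k2675_B00pm_011_s3 k2676_B00pm_011_s3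

theorem t2742_B00pm_011_s3 : ∃ t, chk3 f_B00pm_011_s3 t 120 125 42 = true := ex3_c t2741_B00pm_011_s3 t2740_B00pm_011_s3

theorem t2743_B00pm_011_s3 : ∃ t, chk3 f_B00pm_011_s3 t 120 125 21 = true := ex3_c t2742_B00pm_011_s3 t2736_B00pm_011_s3

theorem t2744_B00pm_011_s3 : ∃ t, chk3 f_B00pm_011_s3 t 120 125 41 = true := ex3_b k2673_B00pm_011_s3 k2674_B00pm_011_s3

theorem t2745_B00pm_011_s3 : ∃ t, chk3 f_B00pm_011_s3 t 240 251 40 = true := ex3_b k2670_B00pm_011_s3 k2671_B00pm_011_s3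

theorem t2746_B00pm_011_s3 : ∃ t, chk3 f_B00pm_011_s3 t 120 251 40 = true := ex3_a t2745_B00pm_011_s3 k2672_B00pm_011_s3

theorem t2747_B00pm_011_s3 : ∃ t, chk3 f_B00pm_011_s3 t 240 501 81 = true := ex3_c k2667_B00pm_011_s3 k2668_B00pm_011_s3

theorem t2748_B00pm_011_s3 : ∃ t, chk3 f_B00pm_011_s3 t 240 501 80 = true := ex3_c k2665_B00pm_011_s3 k2666_B00pm_011_s3

theorem t2749_B00pm_011_s3 : ∃ t, chk3 f_B00pm_011_s3 t 240 501 40 = true := ex3_c t2748_B00pm_011_s3 t2747_B00pm_011_s3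

theorem t2750_B00pm_011_s3 : ∃ t, chk3 f_B00pm_011_s3 t 120 501 40 = true := ex3_a t2749_B00pm_011_s3 k2669_B00pm_011_s3

theorem t2751_B00pm_011_s3 : ∃ t, chk3 f_B00pm_011_s3 t 120 250 40 = true := ex3_b k2664_B00pm_011_s3 t2750_B00pm_011_s3

theorem t2752_B00pm_011_s3 : ∃ t, chk3 f_B00pm_011_s3 t 120 125 40 = true := ex3_b t2751_B00pm_011_s3 t2746_B00pm_011_s3

theorem t2753_B00pm_011_s3 : ∃ t, chk3 f_B00pm_011_s3 t 120 125 20 = true := ex3_c t2752_B00pm_011_s3 t2744_B00pm_011_s3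

theorem t2754_B00pm_011_s3 : ∃ t, chk3 f_B00pm_011_s3 t 120 125 10 = true := ex3_c t2753_B00pm_011_s3 t2743_B00pm_011_s3

theorem t2755_B00pm_011_s3 : ∃ t, chk3 f_B00pm_011_s3 t 120 62 10 = true := ex3_b k2663_B00pm_011_s3 t2754_B00pm_011_s3

theorem t2756_B00pm_011_s3 : ∃ t, chk3 f_B00pm_011_s3 t 120 62 5 = true := ex3_c t2755_B00pm_011_s3 t2732_B00pm_011_s3

theorem t2757_B00pm_011_s3 : ∃ t, chk3 f_B00pm_011_s3 t 60 62 5 = true := ex3_a t2756_B00pm_011_s3 k2692_B00pm_011_s3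

theorem t2758_B00pm_011_s3 : ∃ t, chk3 f_B00pm_011_s3 t 60 31 5 = true := ex3_b t2757_B00pm_011_s3 t2728_B00pm_011_s3

theorem t2759_B00pm_011_s3 : ∃ t, chk3 f_B00pm_011_s3 t 240 252 9 = true := ex3_b k2657_B00pm_011_s3 k2658_B00pm_011_s3

theorem t2760_B00pm_011_s3 : ∃ t, chk3 f_B00pm_011_s3 t 120 252 9 = true := ex3_a t2759_B00pm_011_s3 k2659_B00pm_011_s3

theorem t2761_B00pm_011_s3 : ∃ t, chk3 f_B00pm_011_s3 t 120 252 4 = true := ex3_c k2656_B00pm_011_s3 t2760_B00pm_011_s3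

theorem t2762_B00pm_011_s3 : ∃ t, chk3 f_B00pm_011_s3 t 120 126 4 = true := ex3_b t2761_B00pm_011_s3 k2660_B00pm_011_s3

theorem t2763_B00pm_011_s3 : ∃ t, chk3 f_B00pm_011_s3 t 60 126 4 = true := ex3_a t2762_B00pm_011_s3 k2661_B00pm_011_s3

theorem t2764_B00pm_011_s3 : ∃ t, chk3 f_B00pm_011_s3 t 60 63 4 = true := ex3_b t2763_B00pm_011_s3 k2662_B00pm_011_s3

theorem t2765_B00pm_011_s3 : ∃ t, chk3 f_B00pm_011_s3 t 240 251 9 = true := ex3_b k2652_B00pm_011_s3 k2653_B00pm_011_s3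

theorem t2766_B00pm_011_s3 : ∃ t, chk3 f_B00pm_011_s3 t 120 251 9 = true := ex3_a t2765_B00pm_011_s3 k2654_B00pm_011_s3

theorem t2767_B00pm_011_s3 : ∃ t, chk3 f_B00pm_011_s3 t 120 251 4 = true := ex3_c k2651_B00pm_011_s3 t2766_B00pm_011_s3

theorem t2768_B00pm_011_s3 : ∃ t, chk3 f_B00pm_011_s3 t 480 501 79 = true := ex3_a k2647_B00pm_011_s3 k2648_B00pm_011_s3

theorem t2769_B00pm_011_s3 : ∃ t, chk3 f_B00pm_011_s3 t 240 501 79 = true := ex3_a t2768_B00pm_011_s3 k2649_B00pm_011_s3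

theorem t2770_B00pm_011_s3 : ∃ t, chk3 f_B00pm_011_s3 t 240 501 39 = true := ex3_c k2646_B00pm_011_s3 t2769_B00pm_011_s3

theorem t2771_B00pm_011_s3 : ∃ t, chk3 f_B00pm_011_s3 t 240 501 19 = true := ex3_c k2645_B00pm_011_s3 t2770_B00pm_011_s3

theorem t2772_B00pm_011_s3 : ∃ t, chk3 f_B00pm_011_s3 t 240 501 9 = true := ex3_c k2644_B00pm_011_s3 t2771_B00pm_011_s3

theorem t2773_B00pm_011_s3 : ∃ t, chk3 f_B00pm_011_s3 t 120 501 9 = true := ex3_a t2772_B00pm_011_s3 k2650_B00pm_011_s3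

theorem t2774_B00pm_011_s3 : ∃ t, chk3 f_B00pm_011_s3 t 120 250 9 = true := ex3_b k2643_B00pm_011_s3 t2773_B00pm_011_s3

theorem t2775_B00pm_011_s3 : ∃ t, chk3 f_B00pm_011_s3 t 1920 1002 8 = true := ex3_b k2636_B00pm_011_s3 k2637_B00pm_011_s3

theorem t2776_B00pm_011_s3 : ∃ t, chk3 f_B00pm_011_s3 t 960 1002 8 = true := ex3_a t2775_B00pm_011_s3 k2638_B00pm_011_s3

theorem t2777_B00pm_011_s3 : ∃ t, chk3 f_B00pm_011_s3 t 480 1002 8 = true := ex3_a t2776_B00pm_011_s3 k2639_B00pm_011_s3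

theorem t2778_B00pm_011_s3 : ∃ t, chk3 f_B00pm_011_s3 t 480 501 8 = true := ex3_b t2777_B00pm_011_s3 k2640_B00pm_011_s3

theorem t2779_B00pm_011_s3 : ∃ t, chk3 f_B00pm_011_s3 t 240 501 8 = true := ex3_a t2778_B00pm_011_s3 k2641_B00pm_011_s3

theorem t2780_B00pm_011_s3 : ∃ t, chk3 f_B00pm_011_s3 t 240 250 8 = true := ex3_b k2635_B00pm_011_s3 t2779_B00pm_011_s3

theorem t2781_B00pm_011_s3 : ∃ t, chk3 f_B00pm_011_s3 t 120 250 8 = true := ex3_a t2780_B00pm_011_s3 k2642_B00pm_011_s3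

theorem t2782_B00pm_011_s3 : ∃ t, chk3 f_B00pm_011_s3 t 120 250 4 = true := ex3_c t2781_B00pm_011_s3 t2774_B00pm_011_s3

theorem t2783_B00pm_011_s3 : ∃ t, chk3 f_B00pm_011_s3 t 120 125 4 = true := ex3_b t2782_B00pm_011_s3 t2767_B00pm_011_s3

theorem t2784_B00pm_011_s3 : ∃ t, chk3 f_B00pm_011_s3 t 60 125 4 = true := ex3_a t2783_B00pm_011_s3 k2655_B00pm_011_s3

theorem t2785_B00pm_011_s3 : ∃ t, chk3 f_B00pm_011_s3 t 60 62 4 = true := ex3_b k2634_B00pm_011_s3 t2784_B00pm_011_s3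

theorem t2786_B00pm_011_s3 : ∃ t, chk3 f_B00pm_011_s3 t 60 31 4 = true := ex3_b t2785_B00pm_011_s3 t2764_B00pm_011_s3

theorem t2787_B00pm_011_s3 : ∃ t, chk3 f_B00pm_011_s3 t 60 31 2 = true := ex3_c t2786_B00pm_011_s3 t2758_B00pm_011_s3

theorem t2788_B00pm_011_s3 : ∃ t, chk3 f_B00pm_011_s3 t 30 31 2 = true := ex3_a t2787_B00pm_011_s3 k2698_B00pm_011_s3

theorem t2789_B00pm_011_s3 : ∃ t, chk3 f_B00pm_011_s3 t 30 15 2 = true := ex3_b k2633_B00pm_011_s3 t2788_B00pm_011_s3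

theorem t2790_B00pm_011_s3 : ∃ t, chk3 f_B00pm_011_s3 t 30 15 1 = true := ex3_c t2789_B00pm_011_s3 t2724_B00pm_011_s3

theorem t2791_B00pm_011_s3 : ∃ t, chk3 f_B00pm_011_s3 t 15 15 1 = true := ex3_a t2790_B00pm_011_s3 k2712_B00pm_011_s3

theorem t2792_B00pm_011_s3 : ∃ t, chk3 f_B00pm_011_s3 t 15 7 1 = true := ex3_b k2632_B00pm_011_s3 t2791_B00pm_011_s3

theorem t2793_B00pm_011_s3 : ∃ t, chk3 f_B00pm_011_s3 t 239 505 3 = true := ex3_c k2628_B00pm_011_s3 k2629_B00pm_011_s3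

theorem t2794_B00pm_011_s3 : ∃ t, chk3 f_B00pm_011_s3 t 239 252 3 = true := ex3_b k2627_B00pm_011_s3 t2793_B00pm_011_s3

theorem t2795_B00pm_011_s3 : ∃ t, chk3 f_B00pm_011_s3 t 119 252 3 = true := ex3_a k2626_B00pm_011_s3 t2794_B00pm_011_s3

theorem t2796_B00pm_011_s3 : ∃ t, chk3 f_B00pm_011_s3 t 59 252 3 = true := ex3_a k2625_B00pm_011_s3 t2795_B00pm_011_s3

theorem t2797_B00pm_011_s3 : ∃ t, chk3 f_B00pm_011_s3 t 59 126 3 = true := ex3_b t2796_B00pm_011_s3 k2630_B00pm_011_s3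

theorem t2798_B00pm_011_s3 : ∃ t, chk3 f_B00pm_011_s3 t 29 126 3 = true := ex3_a k2624_B00pm_011_s3 t2797_B00pm_011_s3

theorem t2799_B00pm_011_s3 : ∃ t, chk3 f_B00pm_011_s3 t 29 63 3 = true := ex3_b t2798_B00pm_011_s3 k2631_B00pm_011_s3

theorem t2800_B00pm_011_s3 : ∃ t, chk3 f_B00pm_011_s3 t 3839 16035 6 = true := ex3_c k2617_B00pm_011_s3 k2618_B00pm_011_s3

theorem t2801_B00pm_011_s3 : ∃ t, chk3 f_B00pm_011_s3 t 1919 16035 6 = true := ex3_a k2616_B00pm_011_s3 t2800_B00pm_011_s3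

theorem t2802_B00pm_011_s3 : ∃ t, chk3 f_B00pm_011_s3 t 1919 16034 6 = true := ex3_c k2614_B00pm_011_s3 k2615_B00pm_011_s3

theorem t2803_B00pm_011_s3 : ∃ t, chk3 f_B00pm_011_s3 t 1919 8017 6 = true := ex3_b t2802_B00pm_011_s3 t2801_B00pm_011_s3

theorem t2804_B00pm_011_s3 : ∃ t, chk3 f_B00pm_011_s3 t 959 8017 6 = true := ex3_a k2613_B00pm_011_s3 t2803_B00pm_011_s3

theorem t2805_B00pm_011_s3 : ∃ t, chk3 f_B00pm_011_s3 t 3837 8016 12 = true := ex3_b k2609_B00pm_011_s3 k2610_B00pm_011_s3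

theorem t2806_B00pm_011_s3 : ∃ t, chk3 f_B00pm_011_s3 t 1918 8016 12 = true := ex3_a k2608_B00pm_011_s3 t2805_B00pm_011_s3

theorem t2807_B00pm_011_s3 : ∃ t, chk3 f_B00pm_011_s3 t 959 8016 12 = true := ex3_a t2806_B00pm_011_s3 k2611_B00pm_011_s3

theorem t2808_B00pm_011_s3 : ∃ t, chk3 f_B00pm_011_s3 t 959 8016 6 = true := ex3_c t2807_B00pm_011_s3 k2612_B00pm_011_s3

theorem t2809_B00pm_011_s3 : ∃ t, chk3 f_B00pm_011_s3 t 959 4008 6 = true := ex3_b t2808_B00pm_011_s3 t2804_B00pm_011_s3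

theorem t2810_B00pm_011_s3 : ∃ t, chk3 f_B00pm_011_s3 t 959 2004 6 = true := ex3_b t2809_B00pm_011_s3 k2619_B00pm_011_s3

theorem t2811_B00pm_011_s3 : ∃ t, chk3 f_B00pm_011_s3 t 959 2004 3 = true := ex3_c t2810_B00pm_011_s3 k2620_B00pm_011_s3

theorem t2812_B00pm_011_s3 : ∃ t, chk3 f_B00pm_011_s3 t 479 2004 3 = true := ex3_a k2607_B00pm_011_s3 t2811_B00pm_011_s3

theorem t2813_B00pm_011_s3 : ∃ t, chk3 f_B00pm_011_s3 t 479 1002 3 = true := ex3_b t2812_B00pm_011_s3 k2621_B00pm_011_s3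

theorem t2814_B00pm_011_s3 : ∃ t, chk3 f_B00pm_011_s3 t 239 1002 3 = true := ex3_a k2606_B00pm_011_s3 t2813_B00pm_011_s3

theorem t2815_B00pm_011_s3 : ∃ t, chk3 f_B00pm_011_s3 t 239 501 3 = true := ex3_b t2814_B00pm_011_s3 k2622_B00pm_011_s3

theorem t2816_B00pm_011_s3 : ∃ t, chk3 f_B00pm_011_s3 t 119 501 3 = true := ex3_a k2605_B00pm_011_s3 t2815_B00pm_011_s3

theorem t2817_B00pm_011_s3 : ∃ t, chk3 f_B00pm_011_s3 t 119 500 15 = true := ex3_b k2603_B00pm_011_s3 k2604_B00pm_011_s3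

theorem t2818_B00pm_011_s3 : ∃ t, chk3 f_B00pm_011_s3 t 239 1001 14 = true := ex3_a k2601_B00pm_011_s3 k2602_B00pm_011_s3

theorem t2819_B00pm_011_s3 : ∃ t, chk3 f_B00pm_011_s3 t 119 1001 14 = true := ex3_a k2600_B00pm_011_s3 t2818_B00pm_011_s3

theorem t2820_B00pm_011_s3 : ∃ t, chk3 f_B00pm_011_s3 t 119 500 14 = true := ex3_b k2599_B00pm_011_s3 t2819_B00pm_011_s3

theorem t2821_B00pm_011_s3 : ∃ t, chk3 f_B00pm_011_s3 t 119 500 7 = true := ex3_c t2820_B00pm_011_s3 t2817_B00pm_011_s3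

theorem t2822_B00pm_011_s3 : ∃ t, chk3 f_B00pm_011_s3 t 958 4006 13 = true := ex3_a k2595_B00pm_011_s3 k2596_B00pm_011_s3

theorem t2823_B00pm_011_s3 : ∃ t, chk3 f_B00pm_011_s3 t 958 2003 13 = true := ex3_b t2822_B00pm_011_s3 k2597_B00pm_011_s3

theorem t2824_B00pm_011_s3 : ∃ t, chk3 f_B00pm_011_s3 t 958 1001 13 = true := ex3_b k2594_B00pm_011_s3 t2823_B00pm_011_s3

theorem t2825_B00pm_011_s3 : ∃ t, chk3 f_B00pm_011_s3 t 479 1001 13 = true := ex3_a t2824_B00pm_011_s3 k2598_B00pm_011_s3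

theorem t2826_B00pm_011_s3 : ∃ t, chk3 f_B00pm_011_s3 t 957 4005 13 = true := ex3_a k2591_B00pm_011_s3 k2592_B00pm_011_s3

theorem t2827_B00pm_011_s3 : ∃ t, chk3 f_B00pm_011_s3 t 957 2002 13 = true := ex3_b k2590_B00pm_011_s3 t2826_B00pm_011_s3

theorem t2828_B00pm_011_s3 : ∃ t, chk3 f_B00pm_011_s3 t 956 2002 13 = true := ex3_b k2588_B00pm_011_s3 k2589_B00pm_011_s3

theorem t2829_B00pm_011_s3 : ∃ t, chk3 f_B00pm_011_s3 t 478 2002 13 = true := ex3_a t2828_B00pm_011_s3 t2827_B00pm_011_s3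

theorem t2830_B00pm_011_s3 : ∃ t, chk3 f_B00pm_011_s3 t 478 1001 13 = true := ex3_b t2829_B00pm_011_s3 k2593_B00pm_011_s3

theorem t2831_B00pm_011_s3 : ∃ t, chk3 f_B00pm_011_s3 t 239 1001 13 = true := ex3_a t2830_B00pm_011_s3 t2825_B00pm_011_s3

theorem t2832_B00pm_011_s3 : ∃ t, chk3 f_B00pm_011_s3 t 119 1001 13 = true := ex3_a k2587_B00pm_011_s3 t2831_B00pm_011_s3

theorem t2833_B00pm_011_s3 : ∃ t, chk3 f_B00pm_011_s3 t 955 2001 13 = true := ex3_b k2584_B00pm_011_s3 k2585_B00pm_011_s3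

theorem t2834_B00pm_011_s3 : ∃ t, chk3 f_B00pm_011_s3 t 477 2001 13 = true := ex3_a k2583_B00pm_011_s3 t2833_B00pm_011_s3

theorem t2835_B00pm_011_s3 : ∃ t, chk3 f_B00pm_011_s3 t 954 2000 13 = true := ex3_a k2580_B00pm_011_s3 k2581_B00pm_011_s3

theorem t2836_B00pm_011_s3 : ∃ t, chk3 f_B00pm_011_s3 t 477 2000 13 = true := ex3_a t2835_B00pm_011_s3 k2582_B00pm_011_s3

theorem t2837_B00pm_011_s3 : ∃ t, chk3 f_B00pm_011_s3 t 477 1000 13 = true := ex3_b t2836_B00pm_011_s3 t2834_B00pm_011_s3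

theorem t2838_B00pm_011_s3 : ∃ t, chk3 f_B00pm_011_s3 t 238 1000 13 = true := ex3_a k2579_B00pm_011_s3 t2837_B00pm_011_s3

theorem t2839_B00pm_011_s3 : ∃ t, chk3 f_B00pm_011_s3 t 119 1000 13 = true := ex3_a t2838_B00pm_011_s3 k2586_B00pm_011_s3

theorem t2840_B00pm_011_s3 : ∃ t, chk3 f_B00pm_011_s3 t 119 500 13 = true := ex3_b t2839_B00pm_011_s3 t2832_B00pm_011_s3

theorem t2841_B00pm_011_s3 : ∃ t, chk3 f_B00pm_011_s3 t 959 1001 12 = true := ex3_c k2577_B00pm_011_s3 k2578_B00pm_011_s3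

theorem t2842_B00pm_011_s3 : ∃ t, chk3 f_B00pm_011_s3 t 1917 8014 12 = true := ex3_a k2574_B00pm_011_s3 k2575_B00pm_011_s3

theorem t2843_B00pm_011_s3 : ∃ t, chk3 f_B00pm_011_s3 t 1917 4007 12 = true := ex3_b t2842_B00pm_011_s3 k2576_B00pm_011_s3

theorem t2844_B00pm_011_s3 : ∃ t, chk3 f_B00pm_011_s3 t 958 4007 12 = true := ex3_a k2573_B00pm_011_s3 t2843_B00pm_011_s3

theorem t2845_B00pm_011_s3 : ∃ t, chk3 f_B00pm_011_s3 t 3833 8013 12 = true := ex3_b k2570_B00pm_011_s3 k2571_B00pm_011_s3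

theorem t2846_B00pm_011_s3 : ∃ t, chk3 f_B00pm_011_s3 t 1916 8013 12 = true := ex3_a k2569_B00pm_011_s3 t2845_B00pm_011_s3

theorem t2847_B00pm_011_s3 : ∃ t, chk3 f_B00pm_011_s3 t 1916 4006 12 = true := ex3_b k2568_B00pm_011_s3 t2846_B00pm_011_s3

theorem t2848_B00pm_011_s3 : ∃ t, chk3 f_B00pm_011_s3 t 958 4006 12 = true := ex3_a t2847_B00pm_011_s3 k2572_B00pm_011_s3

theorem t2849_B00pm_011_s3 : ∃ t, chk3 f_B00pm_011_s3 t 958 2003 12 = true := ex3_b t2848_B00pm_011_s3 t2844_B00pm_011_s3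

theorem t2850_B00pm_011_s3 : ∃ t, chk3 f_B00pm_011_s3 t 958 1001 12 = true := ex3_b k2567_B00pm_011_s3 t2849_B00pm_011_s3

theorem t2851_B00pm_011_s3 : ∃ t, chk3 f_B00pm_011_s3 t 479 1001 12 = true := ex3_a t2850_B00pm_011_s3 t2841_B00pm_011_s3

theorem t2852_B00pm_011_s3 : ∃ t, chk3 f_B00pm_011_s3 t 1914 8010 12 = true := ex3_a k2562_B00pm_011_s3 k2563_B00pm_011_s3

theorem t2853_B00pm_011_s3 : ∃ t, chk3 f_B00pm_011_s3 t 1914 4005 12 = true := ex3_b t2852_B00pm_011_s3 k2564_B00pm_011_s3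

theorem t2854_B00pm_011_s3 : ∃ t, chk3 f_B00pm_011_s3 t 957 4005 12 = true := ex3_a t2853_B00pm_011_s3 k2565_B00pm_011_s3

theorem t2855_B00pm_011_s3 : ∃ t, chk3 f_B00pm_011_s3 t 957 2002 12 = true := ex3_b k2561_B00pm_011_s3 t2854_B00pm_011_s3

theorem t2856_B00pm_011_s3 : ∃ t, chk3 f_B00pm_011_s3 t 1913 8008 12 = true := ex3_c k2557_B00pm_011_s3 k2558_B00pm_011_s3

theorem t2857_B00pm_011_s3 : ∃ t, chk3 f_B00pm_011_s3 t 1913 4004 12 = true := ex3_b t2856_B00pm_011_s3 k2559_B00pm_011_s3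

theorem t2858_B00pm_011_s3 : ∃ t, chk3 f_B00pm_011_s3 t 956 4004 12 = true := ex3_a k2556_B00pm_011_s3 t2857_B00pm_011_s3

theorem t2859_B00pm_011_s3 : ∃ t, chk3 f_B00pm_011_s3 t 956 2002 12 = true := ex3_b t2858_B00pm_011_s3 k2560_B00pm_011_s3

theorem t2860_B00pm_011_s3 : ∃ t, chk3 f_B00pm_011_s3 t 478 2002 12 = true := ex3_a t2859_B00pm_011_s3 t2855_B00pm_011_s3

theorem t2861_B00pm_011_s3 : ∃ t, chk3 f_B00pm_011_s3 t 478 1001 12 = true := ex3_b t2860_B00pm_011_s3 k2566_B00pm_011_s3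

theorem t2862_B00pm_011_s3 : ∃ t, chk3 f_B00pm_011_s3 t 239 1001 12 = true := ex3_a t2861_B00pm_011_s3 t2851_B00pm_011_s3

theorem t2863_B00pm_011_s3 : ∃ t, chk3 f_B00pm_011_s3 t 119 1001 12 = true := ex3_a k2555_B00pm_011_s3 t2862_B00pm_011_s3

theorem t2864_B00pm_011_s3 : ∃ t, chk3 f_B00pm_011_s3 t 956 1000 12 = true := ex3_b k2551_B00pm_011_s3 k2552_B00pm_011_s3

theorem t2865_B00pm_011_s3 : ∃ t, chk3 f_B00pm_011_s3 t 478 1000 12 = true := ex3_a t2864_B00pm_011_s3 k2553_B00pm_011_s3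

theorem t2866_B00pm_011_s3 : ∃ t, chk3 f_B00pm_011_s3 t 239 1000 12 = true := ex3_a t2865_B00pm_011_s3 k2554_B00pm_011_s3

theorem t2867_B00pm_011_s3 : ∃ t, chk3 f_B00pm_011_s3 t 1911 4003 12 = true := ex3_b k2549_B00pm_011_s3 k2550_B00pm_011_s3

theorem t2868_B00pm_011_s3 : ∃ t, chk3 f_B00pm_011_s3 t 955 4003 12 = true := ex3_a k2548_B00pm_011_s3 t2867_B00pm_011_s3

theorem t2869_B00pm_011_s3 : ∃ t, chk3 f_B00pm_011_s3 t 1910 4002 12 = true := ex3_b k2545_B00pm_011_s3 k2546_B00pm_011_s3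

theorem t2870_B00pm_011_s3 : ∃ t, chk3 f_B00pm_011_s3 t 955 4002 12 = true := ex3_a t2869_B00pm_011_s3 k2547_B00pm_011_s3

theorem t2871_B00pm_011_s3 : ∃ t, chk3 f_B00pm_011_s3 t 955 2001 12 = true := ex3_b t2870_B00pm_011_s3 t2868_B00pm_011_s3

theorem t2872_B00pm_011_s3 : ∃ t, chk3 f_B00pm_011_s3 t 477 2001 12 = true := ex3_a k2544_B00pm_011_s3 t2871_B00pm_011_s3

theorem t2873_B00pm_011_s3 : ∃ t, chk3 f_B00pm_011_s3 t 1909 4001 12 = true := ex3_c k2541_B00pm_011_s3 k2542_B00pm_011_s3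

theorem t2874_B00pm_011_s3 : ∃ t, chk3 f_B00pm_011_s3 t 954 4001 12 = true := ex3_a k2540_B00pm_011_s3 t2873_B00pm_011_s3

theorem t2875_B00pm_011_s3 : ∃ t, chk3 f_B00pm_011_s3 t 954 2000 12 = true := ex3_b k2539_B00pm_011_s3 t2874_B00pm_011_s3

theorem t2876_B00pm_011_s3 : ∃ t, chk3 f_B00pm_011_s3 t 477 2000 12 = true := ex3_a t2875_B00pm_011_s3 k2543_B00pm_011_s3

theorem t2877_B00pm_011_s3 : ∃ t, chk3 f_B00pm_011_s3 t 477 1000 12 = true := ex3_b t2876_B00pm_011_s3 t2872_B00pm_011_s3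

theorem t2878_B00pm_011_s3 : ∃ t, chk3 f_B00pm_011_s3 t 1907 4000 12 = true := ex3_b k2535_B00pm_011_s3 k2536_B00pm_011_s3

theorem t2879_B00pm_011_s3 : ∃ t, chk3 f_B00pm_011_s3 t 953 4000 12 = true := ex3_a k2534_B00pm_011_s3 t2878_B00pm_011_s3

theorem t2880_B00pm_011_s3 : ∃ t, chk3 f_B00pm_011_s3 t 953 2000 12 = true := ex3_b t2879_B00pm_011_s3 k2537_B00pm_011_s3

theorem t2881_B00pm_011_s3 : ∃ t, chk3 f_B00pm_011_s3 t 476 2000 12 = true := ex3_a k2533_B00pm_011_s3 t2880_B00pm_011_s3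

theorem t2882_B00pm_011_s3 : ∃ t, chk3 f_B00pm_011_s3 t 476 1000 12 = true := ex3_b t2881_B00pm_011_s3 k2538_B00pm_011_s3

theorem t2883_B00pm_011_s3 : ∃ t, chk3 f_B00pm_011_s3 t 238 1000 12 = true := ex3_a t2882_B00pm_011_s3 t2877_B00pm_011_s3

theorem t2884_B00pm_011_s3 : ∃ t, chk3 f_B00pm_011_s3 t 119 1000 12 = true := ex3_a t2883_B00pm_011_s3 t2866_B00pm_011_s3

theorem t2885_B00pm_011_s3 : ∃ t, chk3 f_B00pm_011_s3 t 119 500 12 = true := ex3_b t2884_B00pm_011_s3 t2863_B00pm_011_s3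

theorem t2886_B00pm_011_s3 : ∃ t, chk3 f_B00pm_011_s3 t 119 500 6 = true := ex3_c t2885_B00pm_011_s3 t2840_B00pm_011_s3

theorem t2887_B00pm_011_s3 : ∃ t, chk3 f_B00pm_011_s3 t 119 500 3 = true := ex3_c t2886_B00pm_011_s3 t2821_B00pm_011_s3

theorem t2888_B00pm_011_s3 : ∃ t, chk3 f_B00pm_011_s3 t 119 250 3 = true := ex3_b t2887_B00pm_011_s3 t2816_B00pm_011_s3

theorem t2889_B00pm_011_s3 : ∃ t, chk3 f_B00pm_011_s3 t 119 125 3 = true := ex3_b t2888_B00pm_011_s3 k2623_B00pm_011_s3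

theorem t2890_B00pm_011_s3 : ∃ t, chk3 f_B00pm_011_s3 t 953 1999 12 = true := ex3_c k2527_B00pm_011_s3 k2528_B00pm_011_s3

theorem t2891_B00pm_011_s3 : ∃ t, chk3 f_B00pm_011_s3 t 953 999 12 = true := ex3_b k2526_B00pm_011_s3 t2890_B00pm_011_s3

theorem t2892_B00pm_011_s3 : ∃ t, chk3 f_B00pm_011_s3 t 953 999 6 = true := ex3_c t2891_B00pm_011_s3 k2529_B00pm_011_s3

theorem t2893_B00pm_011_s3 : ∃ t, chk3 f_B00pm_011_s3 t 953 499 6 = true := ex3_b k2525_B00pm_011_s3 t2892_B00pm_011_s3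

theorem t2894_B00pm_011_s3 : ∃ t, chk3 f_B00pm_011_s3 t 952 3998 6 = true := ex3_c k2522_B00pm_011_s3 k2523_B00pm_011_s3

theorem t2895_B00pm_011_s3 : ∃ t, chk3 f_B00pm_011_s3 t 952 1999 6 = true := ex3_b t2894_B00pm_011_s3 k2524_B00pm_011_s3

theorem t2896_B00pm_011_s3 : ∃ t, chk3 f_B00pm_011_s3 t 952 999 6 = true := ex3_b k2521_B00pm_011_s3 t2895_B00pm_011_s3

theorem t2897_B00pm_011_s3 : ∃ t, chk3 f_B00pm_011_s3 t 952 499 6 = true := ex3_b k2520_B00pm_011_s3 t2896_B00pm_011_s3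

theorem t2898_B00pm_011_s3 : ∃ t, chk3 f_B00pm_011_s3 t 476 499 6 = true := ex3_a t2897_B00pm_011_s3 t2893_B00pm_011_s3

theorem t2899_B00pm_011_s3 : ∃ t, chk3 f_B00pm_011_s3 t 476 249 6 = true := ex3_b k2519_B00pm_011_s3 t2898_B00pm_011_s3

theorem t2900_B00pm_011_s3 : ∃ t, chk3 f_B00pm_011_s3 t 476 249 3 = true := ex3_c t2899_B00pm_011_s3 k2530_B00pm_011_s3

theorem t2901_B00pm_011_s3 : ∃ t, chk3 f_B00pm_011_s3 t 238 249 3 = true := ex3_a t2900_B00pm_011_s3 k2531_B00pm_011_s3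

theorem t2902_B00pm_011_s3 : ∃ t, chk3 f_B00pm_011_s3 t 238 124 3 = true := ex3_b k2518_B00pm_011_s3 t2901_B00pm_011_s3

theorem t2903_B00pm_011_s3 : ∃ t, chk3 f_B00pm_011_s3 t 119 124 3 = true := ex3_a t2902_B00pm_011_s3 k2532_B00pm_011_s3

theorem t2904_B00pm_011_s3 : ∃ t, chk3 f_B00pm_011_s3 t 119 62 3 = true := ex3_b t2903_B00pm_011_s3 t2889_B00pm_011_s3

theorem t2905_B00pm_011_s3 : ∃ t, chk3 f_B00pm_011_s3 t 237 998 7 = true := ex3_a k2514_B00pm_011_s3 k2515_B00pm_011_s3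

theorem t2906_B00pm_011_s3 : ∃ t, chk3 f_B00pm_011_s3 t 237 499 7 = true := ex3_b t2905_B00pm_011_s3 k2516_B00pm_011_s3

theorem t2907_B00pm_011_s3 : ∃ t, chk3 f_B00pm_011_s3 t 237 998 26 = true := ex3_a k2510_B00pm_011_s3 k2511_B00pm_011_s3

theorem t2908_B00pm_011_s3 : ∃ t, chk3 f_B00pm_011_s3 t 237 499 26 = true := ex3_b t2907_B00pm_011_s3 k2512_B00pm_011_s3

theorem t2909_B00pm_011_s3 : ∃ t, chk3 f_B00pm_011_s3 t 237 499 13 = true := ex3_c t2908_B00pm_011_s3 k2513_B00pm_011_s3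

theorem t2910_B00pm_011_s3 : ∃ t, chk3 f_B00pm_011_s3 t 475 1998 12 = true := ex3_b k2507_B00pm_011_s3 k2508_B00pm_011_s3

theorem t2911_B00pm_011_s3 : ∃ t, chk3 f_B00pm_011_s3 t 475 999 12 = true := ex3_b t2910_B00pm_011_s3 k2509_B00pm_011_s3

theorem t2912_B00pm_011_s3 : ∃ t, chk3 f_B00pm_011_s3 t 237 999 12 = true := ex3_a k2506_B00pm_011_s3 t2911_B00pm_011_s3

theorem t2913_B00pm_011_s3 : ∃ t, chk3 f_B00pm_011_s3 t 949 3994 12 = true := ex3_a k2502_B00pm_011_s3 k2503_B00pm_011_s3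

theorem t2914_B00pm_011_s3 : ∃ t, chk3 f_B00pm_011_s3 t 949 1997 12 = true := ex3_b t2913_B00pm_011_s3 k2504_B00pm_011_s3

theorem t2915_B00pm_011_s3 : ∃ t, chk3 f_B00pm_011_s3 t 474 1997 12 = true := ex3_a k2501_B00pm_011_s3 t2914_B00pm_011_s3

theorem t2916_B00pm_011_s3 : ∃ t, chk3 f_B00pm_011_s3 t 948 1996 12 = true := ex3_b k2498_B00pm_011_s3 k2499_B00pm_011_s3

theorem t2917_B00pm_011_s3 : ∃ t, chk3 f_B00pm_011_s3 t 474 1996 12 = true := ex3_a t2916_B00pm_011_s3 k2500_B00pm_011_s3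

theorem t2918_B00pm_011_s3 : ∃ t, chk3 f_B00pm_011_s3 t 474 998 12 = true := ex3_b t2917_B00pm_011_s3 t2915_B00pm_011_s3

theorem t2919_B00pm_011_s3 : ∃ t, chk3 f_B00pm_011_s3 t 237 998 12 = true := ex3_a t2918_B00pm_011_s3 k2505_B00pm_011_s3

theorem t2920_B00pm_011_s3 : ∃ t, chk3 f_B00pm_011_s3 t 237 499 12 = true := ex3_b t2919_B00pm_011_s3 t2912_B00pm_011_s3

theorem t2921_B00pm_011_s3 : ∃ t, chk3 f_B00pm_011_s3 t 237 499 6 = true := ex3_c t2920_B00pm_011_s3 t2909_B00pm_011_s3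

theorem t2922_B00pm_011_s3 : ∃ t, chk3 f_B00pm_011_s3 t 237 499 3 = true := ex3_c t2921_B00pm_011_s3 t2906_B00pm_011_s3

theorem t2923_B00pm_011_s3 : ∃ t, chk3 f_B00pm_011_s3 t 237 249 3 = true := ex3_b k2497_B00pm_011_s3 t2922_B00pm_011_s3

theorem t2924_B00pm_011_s3 : ∃ t, chk3 f_B00pm_011_s3 t 237 124 3 = true := ex3_b k2496_B00pm_011_s3 t2923_B00pm_011_s3

theorem t2925_B00pm_011_s3 : ∃ t, chk3 f_B00pm_011_s3 t 237 62 3 = true := ex3_b t2924_B00pm_011_s3 k2517_B00pm_011_s3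

theorem t2926_B00pm_011_s3 : ∃ t, chk3 f_B00pm_011_s3 t 236 498 7 = true := ex3_b k2492_B00pm_011_s3 k2493_B00pm_011_s3

theorem t2927_B00pm_011_s3 : ∃ t, chk3 f_B00pm_011_s3 t 236 249 7 = true := ex3_b t2926_B00pm_011_s3 k2494_B00pm_011_s3

theorem t2928_B00pm_011_s3 : ∃ t, chk3 f_B00pm_011_s3 t 236 997 13 = true := ex3_a k2489_B00pm_011_s3 k2490_B00pm_011_s3

theorem t2929_B00pm_011_s3 : ∃ t, chk3 f_B00pm_011_s3 t 947 1995 12 = true := ex3_a k2487_B00pm_011_s3 k2488_B00pm_011_s3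

theorem t2930_B00pm_011_s3 : ∃ t, chk3 f_B00pm_011_s3 t 473 1995 12 = true := ex3_a k2486_B00pm_011_s3 t2929_B00pm_011_s3

theorem t2931_B00pm_011_s3 : ∃ t, chk3 f_B00pm_011_s3 t 473 997 12 = true := ex3_b k2485_B00pm_011_s3 t2930_B00pm_011_s3

theorem t2932_B00pm_011_s3 : ∃ t, chk3 f_B00pm_011_s3 t 472 1994 12 = true := ex3_a k2482_B00pm_011_s3 k2483_B00pm_011_s3

theorem t2933_B00pm_011_s3 : ∃ t, chk3 f_B00pm_011_s3 t 472 997 12 = true := ex3_b t2932_B00pm_011_s3 k2484_B00pm_011_s3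

theorem t2934_B00pm_011_s3 : ∃ t, chk3 f_B00pm_011_s3 t 236 997 12 = true := ex3_a t2933_B00pm_011_s3 t2931_B00pm_011_s3

theorem t2935_B00pm_011_s3 : ∃ t, chk3 f_B00pm_011_s3 t 236 997 6 = true := ex3_c t2934_B00pm_011_s3 t2928_B00pm_011_s3

theorem t2936_B00pm_011_s3 : ∃ t, chk3 f_B00pm_011_s3 t 944 996 6 = true := ex3_c k2478_B00pm_011_s3 k2479_B00pm_011_s3

theorem t2937_B00pm_011_s3 : ∃ t, chk3 f_B00pm_011_s3 t 472 996 6 = true := ex3_a t2936_B00pm_011_s3 k2480_B00pm_011_s3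

theorem t2938_B00pm_011_s3 : ∃ t, chk3 f_B00pm_011_s3 t 236 996 6 = true := ex3_a t2937_B00pm_011_s3 k2481_B00pm_011_s3

theorem t2939_B00pm_011_s3 : ∃ t, chk3 f_B00pm_011_s3 t 236 498 6 = true := ex3_b t2938_B00pm_011_s3 t2935_B00pm_011_s3

theorem t2940_B00pm_011_s3 : ∃ t, chk3 f_B00pm_011_s3 t 236 249 6 = true := ex3_b t2939_B00pm_011_s3 k2491_B00pm_011_s3

theorem t2941_B00pm_011_s3 : ∃ t, chk3 f_B00pm_011_s3 t 236 249 3 = true := ex3_c t2940_B00pm_011_s3 t2927_B00pm_011_s3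

theorem t2942_B00pm_011_s3 : ∃ t, chk3 f_B00pm_011_s3 t 236 124 3 = true := ex3_b k2477_B00pm_011_s3 t2941_B00pm_011_s3

theorem t2943_B00pm_011_s3 : ∃ t, chk3 f_B00pm_011_s3 t 236 62 3 = true := ex3_b t2942_B00pm_011_s3 k2495_B00pm_011_s3

theorem t2944_B00pm_011_s3 : ∃ t, chk3 f_B00pm_011_s3 t 118 62 3 = true := ex3_a t2943_B00pm_011_s3 t2925_B00pm_011_s3

theorem t2945_B00pm_011_s3 : ∃ t, chk3 f_B00pm_011_s3 t 59 62 3 = true := ex3_a t2944_B00pm_011_s3 t2904_B00pm_011_s3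

theorem t2946_B00pm_011_s3 : ∃ t, chk3 f_B00pm_011_s3 t 471 1992 6 = true := ex3_a k2470_B00pm_011_s3 k2471_B00pm_011_s3

theorem t2947_B00pm_011_s3 : ∃ t, chk3 f_B00pm_011_s3 t 471 996 6 = true := ex3_b t2946_B00pm_011_s3 k2472_B00pm_011_s3

theorem t2948_B00pm_011_s3 : ∃ t, chk3 f_B00pm_011_s3 t 235 996 6 = true := ex3_a k2469_B00pm_011_s3 t2947_B00pm_011_s3

theorem t2949_B00pm_011_s3 : ∃ t, chk3 f_B00pm_011_s3 t 235 498 6 = true := ex3_b t2948_B00pm_011_s3 k2473_B00pm_011_s3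

theorem t2950_B00pm_011_s3 : ∃ t, chk3 f_B00pm_011_s3 t 235 498 3 = true := ex3_c t2949_B00pm_011_s3 k2474_B00pm_011_s3

theorem t2951_B00pm_011_s3 : ∃ t, chk3 f_B00pm_011_s3 t 235 249 3 = true := ex3_b t2950_B00pm_011_s3 k2475_B00pm_011_s3

theorem t2952_B00pm_011_s3 : ∃ t, chk3 f_B00pm_011_s3 t 470 995 6 = true := ex3_a k2465_B00pm_011_s3 k2466_B00pm_011_s3

theorem t2953_B00pm_011_s3 : ∃ t, chk3 f_B00pm_011_s3 t 470 497 6 = true := ex3_b k2464_B00pm_011_s3 t2952_B00pm_011_s3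

theorem t2954_B00pm_011_s3 : ∃ t, chk3 f_B00pm_011_s3 t 470 497 3 = true := ex3_c t2953_B00pm_011_s3 k2467_B00pm_011_s3

theorem t2955_B00pm_011_s3 : ∃ t, chk3 f_B00pm_011_s3 t 470 248 3 = true := ex3_b k2463_B00pm_011_s3 t2954_B00pm_011_s3

theorem t2956_B00pm_011_s3 : ∃ t, chk3 f_B00pm_011_s3 t 235 248 3 = true := ex3_a t2955_B00pm_011_s3 k2468_B00pm_011_s3

theorem t2957_B00pm_011_s3 : ∃ t, chk3 f_B00pm_011_s3 t 235 124 3 = true := ex3_b t2956_B00pm_011_s3 t2951_B00pm_011_s3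

theorem t2958_B00pm_011_s3 : ∃ t, chk3 f_B00pm_011_s3 t 469 124 6 = true := ex3_a k2460_B00pm_011_s3 k2461_B00pm_011_s3

theorem t2959_B00pm_011_s3 : ∃ t, chk3 f_B00pm_011_s3 t 469 124 3 = true := ex3_c t2958_B00pm_011_s3 k2462_B00pm_011_s3

theorem t2960_B00pm_011_s3 : ∃ t, chk3 f_B00pm_011_s3 t 468 497 3 = true := ex3_c k2457_B00pm_011_s3 k2458_B00pm_011_s3

theorem t2961_B00pm_011_s3 : ∃ t, chk3 f_B00pm_011_s3 t 468 248 3 = true := ex3_b k2456_B00pm_011_s3 t2960_B00pm_011_s3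

theorem t2962_B00pm_011_s3 : ∃ t, chk3 f_B00pm_011_s3 t 468 124 3 = true := ex3_b t2961_B00pm_011_s3 k2459_B00pm_011_s3

theorem t2963_B00pm_011_s3 : ∃ t, chk3 f_B00pm_011_s3 t 234 124 3 = true := ex3_a t2962_B00pm_011_s3 t2959_B00pm_011_s3

theorem t2964_B00pm_011_s3 : ∃ t, chk3 f_B00pm_011_s3 t 117 124 3 = true := ex3_a t2963_B00pm_011_s3 t2957_B00pm_011_s3

theorem t2965_B00pm_011_s3 : ∃ t, chk3 f_B00pm_011_s3 t 467 248 6 = true := ex3_b k2452_B00pm_011_s3 k2453_B00pm_011_s3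

theorem t2966_B00pm_011_s3 : ∃ t, chk3 f_B00pm_011_s3 t 467 248 3 = true := ex3_c t2965_B00pm_011_s3 k2454_B00pm_011_s3

theorem t2967_B00pm_011_s3 : ∃ t, chk3 f_B00pm_011_s3 t 466 248 3 = true := ex3_b k2450_B00pm_011_s3 k2451_B00pm_011_s3

theorem t2968_B00pm_011_s3 : ∃ t, chk3 f_B00pm_011_s3 t 233 248 3 = true := ex3_a t2967_B00pm_011_s3 t2966_B00pm_011_s3

theorem t2969_B00pm_011_s3 : ∃ t, chk3 f_B00pm_011_s3 t 116 248 3 = true := ex3_a k2449_B00pm_011_s3 t2968_B00pm_011_s3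

theorem t2970_B00pm_011_s3 : ∃ t, chk3 f_B00pm_011_s3 t 116 124 3 = true := ex3_b t2969_B00pm_011_s3 k2455_B00pm_011_s3

theorem t2971_B00pm_011_s3 : ∃ t, chk3 f_B00pm_011_s3 t 58 124 3 = true := ex3_a t2970_B00pm_011_s3 t2964_B00pm_011_s3

theorem t2972_B00pm_011_s3 : ∃ t, chk3 f_B00pm_011_s3 t 58 62 3 = true := ex3_b t2971_B00pm_011_s3 k2476_B00pm_011_s3

theorem t2973_B00pm_011_s3 : ∃ t, chk3 f_B00pm_011_s3 t 29 62 3 = true := ex3_a t2972_B00pm_011_s3 t2945_B00pm_011_s3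

theorem t2974_B00pm_011_s3 : ∃ t, chk3 f_B00pm_011_s3 t 29 31 3 = true := ex3_b t2973_B00pm_011_s3 t2799_B00pm_011_s3

theorem t2975_B00pm_011_s3 : ∃ t, chk3 f_B00pm_011_s3 t 479 253 18 = true := ex3_b k2444_B00pm_011_s3 k2445_B00pm_011_s3

theorem t2976_B00pm_011_s3 : ∃ t, chk3 f_B00pm_011_s3 t 479 253 9 = true := ex3_c t2975_B00pm_011_s3 k2446_B00pm_011_s3

theorem t2977_B00pm_011_s3 : ∃ t, chk3 f_B00pm_011_s3 t 239 253 9 = true := ex3_a k2443_B00pm_011_s3 t2976_B00pm_011_s3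

theorem t2978_B00pm_011_s3 : ∃ t, chk3 f_B00pm_011_s3 t 119 253 9 = true := ex3_a k2442_B00pm_011_s3 t2977_B00pm_011_s3

theorem t2979_B00pm_011_s3 : ∃ t, chk3 f_B00pm_011_s3 t 239 253 8 = true := ex3_c k2440_B00pm_011_s3 k2441_B00pm_011_s3

theorem t2980_B00pm_011_s3 : ∃ t, chk3 f_B00pm_011_s3 t 238 253 8 = true := ex3_c k2438_B00pm_011_s3 k2439_B00pm_011_s3

theorem t2981_B00pm_011_s3 : ∃ t, chk3 f_B00pm_011_s3 t 119 253 8 = true := ex3_a t2980_B00pm_011_s3 t2979_B00pm_011_s3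

theorem t2982_B00pm_011_s3 : ∃ t, chk3 f_B00pm_011_s3 t 119 253 4 = true := ex3_c t2981_B00pm_011_s3 t2978_B00pm_011_s3

theorem t2983_B00pm_011_s3 : ∃ t, chk3 f_B00pm_011_s3 t 59 253 4 = true := ex3_a k2437_B00pm_011_s3 t2982_B00pm_011_s3

theorem t2984_B00pm_011_s3 : ∃ t, chk3 f_B00pm_011_s3 t 59 253 2 = true := ex3_c t2983_B00pm_011_s3 k2447_B00pm_011_s3

theorem t2985_B00pm_011_s3 : ∃ t, chk3 f_B00pm_011_s3 t 119 252 21 = true := ex3_a k2434_B00pm_011_s3 k2435_B00pm_011_s3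

theorem t2986_B00pm_011_s3 : ∃ t, chk3 f_B00pm_011_s3 t 119 252 20 = true := ex3_a k2432_B00pm_011_s3 k2433_B00pm_011_s3

theorem t2987_B00pm_011_s3 : ∃ t, chk3 f_B00pm_011_s3 t 119 252 10 = true := ex3_c t2986_B00pm_011_s3 t2985_B00pm_011_s3

theorem t2988_B00pm_011_s3 : ∃ t, chk3 f_B00pm_011_s3 t 59 252 10 = true := ex3_a k2431_B00pm_011_s3 t2987_B00pm_011_s3

theorem t2989_B00pm_011_s3 : ∃ t, chk3 f_B00pm_011_s3 t 59 252 5 = true := ex3_c t2988_B00pm_011_s3 k2436_B00pm_011_s3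

theorem t2990_B00pm_011_s3 : ∃ t, chk3 f_B00pm_011_s3 t 479 505 19 = true := ex3_c k2429_B00pm_011_s3 k2430_B00pm_011_s3

theorem t2991_B00pm_011_s3 : ∃ t, chk3 f_B00pm_011_s3 t 959 504 78 = true := ex3_b k2426_B00pm_011_s3 k2427_B00pm_011_s3

theorem t2992_B00pm_011_s3 : ∃ t, chk3 f_B00pm_011_s3 t 959 504 39 = true := ex3_c t2991_B00pm_011_s3 k2428_B00pm_011_s3

theorem t2993_B00pm_011_s3 : ∃ t, chk3 f_B00pm_011_s3 t 479 504 39 = true := ex3_a k2425_B00pm_011_s3 t2992_B00pm_011_s3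

theorem t2994_B00pm_011_s3 : ∃ t, chk3 f_B00pm_011_s3 t 479 504 38 = true := ex3_b k2423_B00pm_011_s3 k2424_B00pm_011_s3

theorem t2995_B00pm_011_s3 : ∃ t, chk3 f_B00pm_011_s3 t 479 504 19 = true := ex3_c t2994_B00pm_011_s3 t2993_B00pm_011_s3

theorem t2996_B00pm_011_s3 : ∃ t, chk3 f_B00pm_011_s3 t 479 252 19 = true := ex3_b t2995_B00pm_011_s3 t2990_B00pm_011_s3

theorem t2997_B00pm_011_s3 : ∃ t, chk3 f_B00pm_011_s3 t 478 504 19 = true := ex3_c k2420_B00pm_011_s3 k2421_B00pm_011_s3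

theorem t2998_B00pm_011_s3 : ∃ t, chk3 f_B00pm_011_s3 t 478 252 19 = true := ex3_b t2997_B00pm_011_s3 k2422_B00pm_011_s3

theorem t2999_B00pm_011_s3 : ∃ t, chk3 f_B00pm_011_s3 t 239 252 19 = true := ex3_a t2998_B00pm_011_s3 t2996_B00pm_011_s3

theorem t3000_B00pm_011_s3 : ∃ t, chk3 f_B00pm_011_s3 t 478 505 18 = true := ex3_b k2417_B00pm_011_s3 k2418_B00pm_011_s3

theorem t3001_B00pm_011_s3 : ∃ t, chk3 f_B00pm_011_s3 t 239 505 18 = true := ex3_a t3000_B00pm_011_s3 k2419_B00pm_011_s3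

theorem t3002_B00pm_011_s3 : ∃ t, chk3 f_B00pm_011_s3 t 239 504 18 = true := ex3_c k2415_B00pm_011_s3 k2416_B00pm_011_s3

theorem t3003_B00pm_011_s3 : ∃ t, chk3 f_B00pm_011_s3 t 239 252 18 = true := ex3_b t3002_B00pm_011_s3 t3001_B00pm_011_s3

theorem t3004_B00pm_011_s3 : ∃ t, chk3 f_B00pm_011_s3 t 239 252 9 = true := ex3_c t3003_B00pm_011_s3 t2999_B00pm_011_s3

theorem t3005_B00pm_011_s3 : ∃ t, chk3 f_B00pm_011_s3 t 239 505 8 = true := ex3_c k2413_B00pm_011_s3 k2414_B00pm_011_s3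

theorem t3006_B00pm_011_s3 : ∃ t, chk3 f_B00pm_011_s3 t 239 504 17 = true := ex3_a k2411_B00pm_011_s3 k2412_B00pm_011_s3

theorem t3007_B00pm_011_s3 : ∃ t, chk3 f_B00pm_011_s3 t 239 504 8 = true := ex3_c k2410_B00pm_011_s3 t3006_B00pm_011_s3

theorem t3008_B00pm_011_s3 : ∃ t, chk3 f_B00pm_011_s3 t 239 252 8 = true := ex3_b t3007_B00pm_011_s3 t3005_B00pm_011_s3

theorem t3009_B00pm_011_s3 : ∃ t, chk3 f_B00pm_011_s3 t 239 252 4 = true := ex3_c t3008_B00pm_011_s3 t3004_B00pm_011_s3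

theorem t3010_B00pm_011_s3 : ∃ t, chk3 f_B00pm_011_s3 t 477 504 18 = true := ex3_c k2406_B00pm_011_s3 k2407_B00pm_011_s3

theorem t3011_B00pm_011_s3 : ∃ t, chk3 f_B00pm_011_s3 t 238 504 18 = true := ex3_a k2405_B00pm_011_s3 t3010_B00pm_011_s3

theorem t3012_B00pm_011_s3 : ∃ t, chk3 f_B00pm_011_s3 t 238 504 9 = true := ex3_c t3011_B00pm_011_s3 k2408_B00pm_011_s3

theorem t3013_B00pm_011_s3 : ∃ t, chk3 f_B00pm_011_s3 t 238 252 9 = true := ex3_b t3012_B00pm_011_s3 k2409_B00pm_011_s3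

theorem t3014_B00pm_011_s3 : ∃ t, chk3 f_B00pm_011_s3 t 238 505 8 = true := ex3_c k2403_B00pm_011_s3 k2404_B00pm_011_s3

theorem t3015_B00pm_011_s3 : ∃ t, chk3 f_B00pm_011_s3 t 238 504 8 = true := ex3_c k2401_B00pm_011_s3 k2402_B00pm_011_s3

theorem t3016_B00pm_011_s3 : ∃ t, chk3 f_B00pm_011_s3 t 238 252 8 = true := ex3_b t3015_B00pm_011_s3 t3014_B00pm_011_s3

theorem t3017_B00pm_011_s3 : ∃ t, chk3 f_B00pm_011_s3 t 238 252 4 = true := ex3_c t3016_B00pm_011_s3 t3013_B00pm_011_s3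

theorem t3018_B00pm_011_s3 : ∃ t, chk3 f_B00pm_011_s3 t 119 252 4 = true := ex3_a t3017_B00pm_011_s3 t3009_B00pm_011_s3

theorem t3019_B00pm_011_s3 : ∃ t, chk3 f_B00pm_011_s3 t 237 504 8 = true := ex3_c k2397_B00pm_011_s3 k2398_B00pm_011_s3

theorem t3020_B00pm_011_s3 : ∃ t, chk3 f_B00pm_011_s3 t 118 504 8 = true := ex3_a k2396_B00pm_011_s3 t3019_B00pm_011_s3

theorem t3021_B00pm_011_s3 : ∃ t, chk3 f_B00pm_011_s3 t 118 252 8 = true := ex3_b t3020_B00pm_011_s3 k2399_B00pm_011_s3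

theorem t3022_B00pm_011_s3 : ∃ t, chk3 f_B00pm_011_s3 t 118 252 4 = true := ex3_c t3021_B00pm_011_s3 k2400_B00pm_011_s3

theorem t3023_B00pm_011_s3 : ∃ t, chk3 f_B00pm_011_s3 t 59 252 4 = true := ex3_a t3022_B00pm_011_s3 t3018_B00pm_011_s3

theorem t3024_B00pm_011_s3 : ∃ t, chk3 f_B00pm_011_s3 t 59 252 2 = true := ex3_c t3023_B00pm_011_s3 t2989_B00pm_011_s3

theorem t3025_B00pm_011_s3 : ∃ t, chk3 f_B00pm_011_s3 t 59 126 2 = true := ex3_b t3024_B00pm_011_s3 t2984_B00pm_011_s3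

theorem t3026_B00pm_011_s3 : ∃ t, chk3 f_B00pm_011_s3 t 29 126 2 = true := ex3_a k2395_B00pm_011_s3 t3025_B00pm_011_s3

theorem t3027_B00pm_011_s3 : ∃ t, chk3 f_B00pm_011_s3 t 29 63 2 = true := ex3_b t3026_B00pm_011_s3 k2448_B00pm_011_s3

theorem t3028_B00pm_011_s3 : ∃ t, chk3 f_B00pm_011_s3 t 119 502 22 = true := ex3_a k2391_B00pm_011_s3 k2392_B00pm_011_s3

theorem t3029_B00pm_011_s3 : ∃ t, chk3 f_B00pm_011_s3 t 119 502 11 = true := ex3_c t3028_B00pm_011_s3 k2393_B00pm_011_s3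

theorem t3030_B00pm_011_s3 : ∃ t, chk3 f_B00pm_011_s3 t 119 251 11 = true := ex3_b t3029_B00pm_011_s3 k2394_B00pm_011_s3

theorem t3031_B00pm_011_s3 : ∃ t, chk3 f_B00pm_011_s3 t 1919 8017 11 = true := ex3_b k2386_B00pm_011_s3 k2387_B00pm_011_s3

theorem t3032_B00pm_011_s3 : ∃ t, chk3 f_B00pm_011_s3 t 959 8017 11 = true := ex3_a k2385_B00pm_011_s3 t3031_B00pm_011_s3

theorem t3033_B00pm_011_s3 : ∃ t, chk3 f_B00pm_011_s3 t 959 8016 11 = true := ex3_a k2383_B00pm_011_s3 k2384_B00pm_011_s3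

theorem t3034_B00pm_011_s3 : ∃ t, chk3 f_B00pm_011_s3 t 959 4008 11 = true := ex3_b t3033_B00pm_011_s3 t3032_B00pm_011_s3

theorem t3035_B00pm_011_s3 : ∃ t, chk3 f_B00pm_011_s3 t 959 2004 11 = true := ex3_b t3034_B00pm_011_s3 k2388_B00pm_011_s3

theorem t3036_B00pm_011_s3 : ∃ t, chk3 f_B00pm_011_s3 t 479 2004 11 = true := ex3_a k2382_B00pm_011_s3 t3035_B00pm_011_s3

theorem t3037_B00pm_011_s3 : ∃ t, chk3 f_B00pm_011_s3 t 479 1002 11 = true := ex3_b t3036_B00pm_011_s3 k2389_B00pm_011_s3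

theorem t3038_B00pm_011_s3 : ∃ t, chk3 f_B00pm_011_s3 t 239 1002 11 = true := ex3_a k2381_B00pm_011_s3 t3037_B00pm_011_s3

theorem t3039_B00pm_011_s3 : ∃ t, chk3 f_B00pm_011_s3 t 239 501 11 = true := ex3_b t3038_B00pm_011_s3 k2390_B00pm_011_s3

theorem t3040_B00pm_011_s3 : ∃ t, chk3 f_B00pm_011_s3 t 119 501 11 = true := ex3_a k2380_B00pm_011_s3 t3039_B00pm_011_s3

theorem t3041_B00pm_011_s3 : ∃ t, chk3 f_B00pm_011_s3 t 1917 4007 23 = true := ex3_b k2377_B00pm_011_s3 k2378_B00pm_011_s3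

theorem t3042_B00pm_011_s3 : ∃ t, chk3 f_B00pm_011_s3 t 958 4007 23 = true := ex3_a k2376_B00pm_011_s3 t3041_B00pm_011_s3

theorem t3043_B00pm_011_s3 : ∃ t, chk3 f_B00pm_011_s3 t 958 4006 23 = true := ex3_a k2374_B00pm_011_s3 k2375_B00pm_011_s3

theorem t3044_B00pm_011_s3 : ∃ t, chk3 f_B00pm_011_s3 t 958 2003 23 = true := ex3_b t3043_B00pm_011_s3 t3042_B00pm_011_s3

theorem t3045_B00pm_011_s3 : ∃ t, chk3 f_B00pm_011_s3 t 958 1001 23 = true := ex3_b k2373_B00pm_011_s3 t3044_B00pm_011_s3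

theorem t3046_B00pm_011_s3 : ∃ t, chk3 f_B00pm_011_s3 t 479 1001 23 = true := ex3_a t3045_B00pm_011_s3 k2379_B00pm_011_s3

theorem t3047_B00pm_011_s3 : ∃ t, chk3 f_B00pm_011_s3 t 957 4005 23 = true := ex3_a k2370_B00pm_011_s3 k2371_B00pm_011_s3

theorem t3048_B00pm_011_s3 : ∃ t, chk3 f_B00pm_011_s3 t 957 2002 23 = true := ex3_b k2369_B00pm_011_s3 t3047_B00pm_011_s3

theorem t3049_B00pm_011_s3 : ∃ t, chk3 f_B00pm_011_s3 t 956 4004 23 = true := ex3_a k2366_B00pm_011_s3 k2367_B00pm_011_s3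

theorem t3050_B00pm_011_s3 : ∃ t, chk3 f_B00pm_011_s3 t 956 2002 23 = true := ex3_b t3049_B00pm_011_s3 k2368_B00pm_011_s3

theorem t3051_B00pm_011_s3 : ∃ t, chk3 f_B00pm_011_s3 t 478 2002 23 = true := ex3_a t3050_B00pm_011_s3 t3048_B00pm_011_s3

theorem t3052_B00pm_011_s3 : ∃ t, chk3 f_B00pm_011_s3 t 478 1001 23 = true := ex3_b t3051_B00pm_011_s3 k2372_B00pm_011_s3

theorem t3053_B00pm_011_s3 : ∃ t, chk3 f_B00pm_011_s3 t 239 1001 23 = true := ex3_a t3052_B00pm_011_s3 t3046_B00pm_011_s3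

theorem t3054_B00pm_011_s3 : ∃ t, chk3 f_B00pm_011_s3 t 119 1001 23 = true := ex3_a k2365_B00pm_011_s3 t3053_B00pm_011_s3

theorem t3055_B00pm_011_s3 : ∃ t, chk3 f_B00pm_011_s3 t 955 4002 23 = true := ex3_a k2361_B00pm_011_s3 k2362_B00pm_011_s3

theorem t3056_B00pm_011_s3 : ∃ t, chk3 f_B00pm_011_s3 t 955 2001 23 = true := ex3_b t3055_B00pm_011_s3 k2363_B00pm_011_s3

theorem t3057_B00pm_011_s3 : ∃ t, chk3 f_B00pm_011_s3 t 477 2001 23 = true := ex3_a k2360_B00pm_011_s3 t3056_B00pm_011_s3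

theorem t3058_B00pm_011_s3 : ∃ t, chk3 f_B00pm_011_s3 t 954 2000 23 = true := ex3_b k2357_B00pm_011_s3 k2358_B00pm_011_s3

theorem t3059_B00pm_011_s3 : ∃ t, chk3 f_B00pm_011_s3 t 477 2000 23 = true := ex3_a t3058_B00pm_011_s3 k2359_B00pm_011_s3

theorem t3060_B00pm_011_s3 : ∃ t, chk3 f_B00pm_011_s3 t 477 1000 23 = true := ex3_b t3059_B00pm_011_s3 t3057_B00pm_011_s3

theorem t3061_B00pm_011_s3 : ∃ t, chk3 f_B00pm_011_s3 t 238 1000 23 = true := ex3_a k2356_B00pm_011_s3 t3060_B00pm_011_s3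

theorem t3062_B00pm_011_s3 : ∃ t, chk3 f_B00pm_011_s3 t 119 1000 23 = true := ex3_a t3061_B00pm_011_s3 k2364_B00pm_011_s3

theorem t3063_B00pm_011_s3 : ∃ t, chk3 f_B00pm_011_s3 t 119 500 23 = true := ex3_b t3062_B00pm_011_s3 t3054_B00pm_011_s3

theorem t3064_B00pm_011_s3 : ∃ t, chk3 f_B00pm_011_s3 t 958 4006 22 = true := ex3_a k2352_B00pm_011_s3 k2353_B00pm_011_s3

theorem t3065_B00pm_011_s3 : ∃ t, chk3 f_B00pm_011_s3 t 958 2003 22 = true := ex3_b t3064_B00pm_011_s3 k2354_B00pm_011_s3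

theorem t3066_B00pm_011_s3 : ∃ t, chk3 f_B00pm_011_s3 t 958 1001 22 = true := ex3_b k2351_B00pm_011_s3 t3065_B00pm_011_s3

theorem t3067_B00pm_011_s3 : ∃ t, chk3 f_B00pm_011_s3 t 479 1001 22 = true := ex3_a t3066_B00pm_011_s3 k2355_B00pm_011_s3

theorem t3068_B00pm_011_s3 : ∃ t, chk3 f_B00pm_011_s3 t 957 4005 22 = true := ex3_a k2348_B00pm_011_s3 k2349_B00pm_011_s3

theorem t3069_B00pm_011_s3 : ∃ t, chk3 f_B00pm_011_s3 t 957 2002 22 = true := ex3_b k2347_B00pm_011_s3 t3068_B00pm_011_s3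

theorem t3070_B00pm_011_s3 : ∃ t, chk3 f_B00pm_011_s3 t 956 2002 22 = true := ex3_b k2345_B00pm_011_s3 k2346_B00pm_011_s3

theorem t3071_B00pm_011_s3 : ∃ t, chk3 f_B00pm_011_s3 t 478 2002 22 = true := ex3_a t3070_B00pm_011_s3 t3069_B00pm_011_s3

theorem t3072_B00pm_011_s3 : ∃ t, chk3 f_B00pm_011_s3 t 478 1001 22 = true := ex3_b t3071_B00pm_011_s3 k2350_B00pm_011_s3

theorem t3073_B00pm_011_s3 : ∃ t, chk3 f_B00pm_011_s3 t 239 1001 22 = true := ex3_a t3072_B00pm_011_s3 t3067_B00pm_011_s3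

theorem t3074_B00pm_011_s3 : ∃ t, chk3 f_B00pm_011_s3 t 119 1001 22 = true := ex3_a k2344_B00pm_011_s3 t3073_B00pm_011_s3

theorem t3075_B00pm_011_s3 : ∃ t, chk3 f_B00pm_011_s3 t 955 2001 22 = true := ex3_b k2341_B00pm_011_s3 k2342_B00pm_011_s3

theorem t3076_B00pm_011_s3 : ∃ t, chk3 f_B00pm_011_s3 t 477 2001 22 = true := ex3_a k2340_B00pm_011_s3 t3075_B00pm_011_s3

theorem t3077_B00pm_011_s3 : ∃ t, chk3 f_B00pm_011_s3 t 954 2000 22 = true := ex3_b k2337_B00pm_011_s3 k2338_B00pm_011_s3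

theorem t3078_B00pm_011_s3 : ∃ t, chk3 f_B00pm_011_s3 t 477 2000 22 = true := ex3_a t3077_B00pm_011_s3 k2339_B00pm_011_s3

theorem t3079_B00pm_011_s3 : ∃ t, chk3 f_B00pm_011_s3 t 477 1000 22 = true := ex3_b t3078_B00pm_011_s3 t3076_B00pm_011_s3

theorem t3080_B00pm_011_s3 : ∃ t, chk3 f_B00pm_011_s3 t 238 1000 22 = true := ex3_a k2336_B00pm_011_s3 t3079_B00pm_011_s3

theorem t3081_B00pm_011_s3 : ∃ t, chk3 f_B00pm_011_s3 t 119 1000 22 = true := ex3_a t3080_B00pm_011_s3 k2343_B00pm_011_s3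

theorem t3082_B00pm_011_s3 : ∃ t, chk3 f_B00pm_011_s3 t 119 500 22 = true := ex3_b t3081_B00pm_011_s3 t3074_B00pm_011_s3

theorem t3083_B00pm_011_s3 : ∃ t, chk3 f_B00pm_011_s3 t 119 500 11 = true := ex3_c t3082_B00pm_011_s3 t3063_B00pm_011_s3

theorem t3084_B00pm_011_s3 : ∃ t, chk3 f_B00pm_011_s3 t 119 250 11 = true := ex3_b t3083_B00pm_011_s3 t3040_B00pm_011_s3

theorem t3085_B00pm_011_s3 : ∃ t, chk3 f_B00pm_011_s3 t 119 125 11 = true := ex3_b t3084_B00pm_011_s3 t3030_B00pm_011_s3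

theorem t3086_B00pm_011_s3 : ∃ t, chk3 f_B00pm_011_s3 t 59 125 11 = true := ex3_a k2335_B00pm_011_s3 t3085_B00pm_011_s3

theorem t3087_B00pm_011_s3 : ∃ t, chk3 f_B00pm_011_s3 t 953 999 11 = true := ex3_c k2331_B00pm_011_s3 k2332_B00pm_011_s3

theorem t3088_B00pm_011_s3 : ∃ t, chk3 f_B00pm_011_s3 t 952 3998 11 = true := ex3_a k2328_B00pm_011_s3 k2329_B00pm_011_s3

theorem t3089_B00pm_011_s3 : ∃ t, chk3 f_B00pm_011_s3 t 952 1999 11 = true := ex3_b t3088_B00pm_011_s3 k2330_B00pm_011_s3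

theorem t3090_B00pm_011_s3 : ∃ t, chk3 f_B00pm_011_s3 t 952 999 11 = true := ex3_b k2327_B00pm_011_s3 t3089_B00pm_011_s3

theorem t3091_B00pm_011_s3 : ∃ t, chk3 f_B00pm_011_s3 t 476 999 11 = true := ex3_a t3090_B00pm_011_s3 t3087_B00pm_011_s3

theorem t3092_B00pm_011_s3 : ∃ t, chk3 f_B00pm_011_s3 t 476 499 11 = true := ex3_b k2326_B00pm_011_s3 t3091_B00pm_011_s3

theorem t3093_B00pm_011_s3 : ∃ t, chk3 f_B00pm_011_s3 t 238 499 11 = true := ex3_a t3092_B00pm_011_s3 k2333_B00pm_011_s3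

theorem t3094_B00pm_011_s3 : ∃ t, chk3 f_B00pm_011_s3 t 238 249 11 = true := ex3_b k2325_B00pm_011_s3 t3093_B00pm_011_s3

theorem t3095_B00pm_011_s3 : ∃ t, chk3 f_B00pm_011_s3 t 119 249 11 = true := ex3_a t3094_B00pm_011_s3 k2334_B00pm_011_s3

theorem t3096_B00pm_011_s3 : ∃ t, chk3 f_B00pm_011_s3 t 119 124 11 = true := ex3_b k2324_B00pm_011_s3 t3095_B00pm_011_s3

theorem t3097_B00pm_011_s3 : ∃ t, chk3 f_B00pm_011_s3 t 951 3997 11 = true := ex3_a k2321_B00pm_011_s3 k2322_B00pm_011_s3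

theorem t3098_B00pm_011_s3 : ∃ t, chk3 f_B00pm_011_s3 t 475 3997 11 = true := ex3_a k2320_B00pm_011_s3 t3097_B00pm_011_s3

theorem t3099_B00pm_011_s3 : ∃ t, chk3 f_B00pm_011_s3 t 475 3996 11 = true := ex3_a k2318_B00pm_011_s3 k2319_B00pm_011_s3

theorem t3100_B00pm_011_s3 : ∃ t, chk3 f_B00pm_011_s3 t 475 1998 11 = true := ex3_b t3099_B00pm_011_s3 t3098_B00pm_011_s3

theorem t3101_B00pm_011_s3 : ∃ t, chk3 f_B00pm_011_s3 t 475 999 11 = true := ex3_b t3100_B00pm_011_s3 k2323_B00pm_011_s3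

theorem t3102_B00pm_011_s3 : ∃ t, chk3 f_B00pm_011_s3 t 237 999 11 = true := ex3_a k2317_B00pm_011_s3 t3101_B00pm_011_s3

theorem t3103_B00pm_011_s3 : ∃ t, chk3 f_B00pm_011_s3 t 950 998 11 = true := ex3_c k2314_B00pm_011_s3 k2315_B00pm_011_s3

theorem t3104_B00pm_011_s3 : ∃ t, chk3 f_B00pm_011_s3 t 475 998 11 = true := ex3_a t3103_B00pm_011_s3 k2316_B00pm_011_s3

theorem t3105_B00pm_011_s3 : ∃ t, chk3 f_B00pm_011_s3 t 949 3994 11 = true := ex3_a k2311_B00pm_011_s3 k2312_B00pm_011_s3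

theorem t3106_B00pm_011_s3 : ∃ t, chk3 f_B00pm_011_s3 t 949 1997 11 = true := ex3_b t3105_B00pm_011_s3 k2313_B00pm_011_s3

theorem t3107_B00pm_011_s3 : ∃ t, chk3 f_B00pm_011_s3 t 474 1997 11 = true := ex3_a k2310_B00pm_011_s3 t3106_B00pm_011_s3

theorem t3108_B00pm_011_s3 : ∃ t, chk3 f_B00pm_011_s3 t 948 3993 11 = true := ex3_a k2307_B00pm_011_s3 k2308_B00pm_011_s3

theorem t3109_B00pm_011_s3 : ∃ t, chk3 f_B00pm_011_s3 t 948 1996 11 = true := ex3_b k2306_B00pm_011_s3 t3108_B00pm_011_s3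

theorem t3110_B00pm_011_s3 : ∃ t, chk3 f_B00pm_011_s3 t 474 1996 11 = true := ex3_a t3109_B00pm_011_s3 k2309_B00pm_011_s3

theorem t3111_B00pm_011_s3 : ∃ t, chk3 f_B00pm_011_s3 t 474 998 11 = true := ex3_b t3110_B00pm_011_s3 t3107_B00pm_011_s3

theorem t3112_B00pm_011_s3 : ∃ t, chk3 f_B00pm_011_s3 t 237 998 11 = true := ex3_a t3111_B00pm_011_s3 t3104_B00pm_011_s3

theorem t3113_B00pm_011_s3 : ∃ t, chk3 f_B00pm_011_s3 t 237 499 11 = true := ex3_b t3112_B00pm_011_s3 t3102_B00pm_011_s3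

theorem t3114_B00pm_011_s3 : ∃ t, chk3 f_B00pm_011_s3 t 237 249 11 = true := ex3_b k2305_B00pm_011_s3 t3113_B00pm_011_s3

theorem t3115_B00pm_011_s3 : ∃ t, chk3 f_B00pm_011_s3 t 237 124 11 = true := ex3_b k2304_B00pm_011_s3 t3114_B00pm_011_s3

theorem t3116_B00pm_011_s3 : ∃ t, chk3 f_B00pm_011_s3 t 1894 249 11 = true := ex3_b k2301_B00pm_011_s3 k2302_B00pm_011_s3

theorem t3117_B00pm_011_s3 : ∃ t, chk3 f_B00pm_011_s3 t 947 249 11 = true := ex3_a t3116_B00pm_011_s3 k2303_B00pm_011_s3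

theorem t3118_B00pm_011_s3 : ∃ t, chk3 f_B00pm_011_s3 t 946 997 11 = true := ex3_b k2298_B00pm_011_s3 k2299_B00pm_011_s3

theorem t3119_B00pm_011_s3 : ∃ t, chk3 f_B00pm_011_s3 t 946 498 11 = true := ex3_b k2297_B00pm_011_s3 t3118_B00pm_011_s3

theorem t3120_B00pm_011_s3 : ∃ t, chk3 f_B00pm_011_s3 t 946 249 11 = true := ex3_b t3119_B00pm_011_s3 k2300_B00pm_011_s3

theorem t3121_B00pm_011_s3 : ∃ t, chk3 f_B00pm_011_s3 t 473 249 11 = true := ex3_a t3120_B00pm_011_s3 t3117_B00pm_011_s3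

theorem t3122_B00pm_011_s3 : ∃ t, chk3 f_B00pm_011_s3 t 945 3988 11 = true := ex3_c k2292_B00pm_011_s3 k2293_B00pm_011_s3

theorem t3123_B00pm_011_s3 : ∃ t, chk3 f_B00pm_011_s3 t 945 1994 11 = true := ex3_b t3122_B00pm_011_s3 k2294_B00pm_011_s3

theorem t3124_B00pm_011_s3 : ∃ t, chk3 f_B00pm_011_s3 t 472 1994 11 = true := ex3_a k2291_B00pm_011_s3 t3123_B00pm_011_s3

theorem t3125_B00pm_011_s3 : ∃ t, chk3 f_B00pm_011_s3 t 472 997 11 = true := ex3_b t3124_B00pm_011_s3 k2295_B00pm_011_s3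

theorem t3126_B00pm_011_s3 : ∃ t, chk3 f_B00pm_011_s3 t 944 996 11 = true := ex3_c k2288_B00pm_011_s3 k2289_B00pm_011_s3

theorem t3127_B00pm_011_s3 : ∃ t, chk3 f_B00pm_011_s3 t 472 996 11 = true := ex3_a t3126_B00pm_011_s3 k2290_B00pm_011_s3

theorem t3128_B00pm_011_s3 : ∃ t, chk3 f_B00pm_011_s3 t 472 498 11 = true := ex3_b t3127_B00pm_011_s3 t3125_B00pm_011_s3

theorem t3129_B00pm_011_s3 : ∃ t, chk3 f_B00pm_011_s3 t 472 249 11 = true := ex3_b t3128_B00pm_011_s3 k2296_B00pm_011_s3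

theorem t3130_B00pm_011_s3 : ∃ t, chk3 f_B00pm_011_s3 t 236 249 11 = true := ex3_a t3129_B00pm_011_s3 t3121_B00pm_011_s3

theorem t3131_B00pm_011_s3 : ∃ t, chk3 f_B00pm_011_s3 t 236 124 11 = true := ex3_b k2287_B00pm_011_s3 t3130_B00pm_011_s3

theorem t3132_B00pm_011_s3 : ∃ t, chk3 f_B00pm_011_s3 t 118 124 11 = true := ex3_a t3131_B00pm_011_s3 t3115_B00pm_011_s3

theorem t3133_B00pm_011_s3 : ∃ t, chk3 f_B00pm_011_s3 t 59 124 11 = true := ex3_a t3132_B00pm_011_s3 t3096_B00pm_011_s3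

theorem t3134_B00pm_011_s3 : ∃ t, chk3 f_B00pm_011_s3 t 59 62 11 = true := ex3_b t3133_B00pm_011_s3 t3086_B00pm_011_s3

theorem t3135_B00pm_011_s3 : ∃ t, chk3 f_B00pm_011_s3 t 239 1004 42 = true := ex3_a k2282_B00pm_011_s3 k2283_B00pm_011_s3

theorem t3136_B00pm_011_s3 : ∃ t, chk3 f_B00pm_011_s3 t 239 1004 21 = true := ex3_c t3135_B00pm_011_s3 k2284_B00pm_011_s3

theorem t3137_B00pm_011_s3 : ∃ t, chk3 f_B00pm_011_s3 t 239 502 21 = true := ex3_b t3136_B00pm_011_s3 k2285_B00pm_011_s3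

theorem t3138_B00pm_011_s3 : ∃ t, chk3 f_B00pm_011_s3 t 119 502 21 = true := ex3_a k2281_B00pm_011_s3 t3137_B00pm_011_s3

theorem t3139_B00pm_011_s3 : ∃ t, chk3 f_B00pm_011_s3 t 119 251 21 = true := ex3_b t3138_B00pm_011_s3 k2286_B00pm_011_s3

theorem t3140_B00pm_011_s3 : ∃ t, chk3 f_B00pm_011_s3 t 479 250 174 = true := ex3_c k2278_B00pm_011_s3 k2279_B00pm_011_s3

theorem t3141_B00pm_011_s3 : ∃ t, chk3 f_B00pm_011_s3 t 479 250 87 = true := ex3_c t3140_B00pm_011_s3 k2280_B00pm_011_s3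

theorem t3142_B00pm_011_s3 : ∃ t, chk3 f_B00pm_011_s3 t 479 1002 86 = true := ex3_b k2275_B00pm_011_s3 k2276_B00pm_011_s3

theorem t3143_B00pm_011_s3 : ∃ t, chk3 f_B00pm_011_s3 t 479 501 86 = true := ex3_b t3142_B00pm_011_s3 k2277_B00pm_011_s3

theorem t3144_B00pm_011_s3 : ∃ t, chk3 f_B00pm_011_s3 t 479 250 86 = true := ex3_b k2274_B00pm_011_s3 t3143_B00pm_011_s3

theorem t3145_B00pm_011_s3 : ∃ t, chk3 f_B00pm_011_s3 t 479 250 43 = true := ex3_c t3144_B00pm_011_s3 t3141_B00pm_011_s3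

theorem t3146_B00pm_011_s3 : ∃ t, chk3 f_B00pm_011_s3 t 478 2002 43 = true := ex3_a k2270_B00pm_011_s3 k2271_B00pm_011_s3

theorem t3147_B00pm_011_s3 : ∃ t, chk3 f_B00pm_011_s3 t 478 1001 43 = true := ex3_b t3146_B00pm_011_s3 k2272_B00pm_011_s3

theorem t3148_B00pm_011_s3 : ∃ t, chk3 f_B00pm_011_s3 t 478 500 43 = true := ex3_b k2269_B00pm_011_s3 t3147_B00pm_011_s3

theorem t3149_B00pm_011_s3 : ∃ t, chk3 f_B00pm_011_s3 t 478 250 43 = true := ex3_b t3148_B00pm_011_s3 k2273_B00pm_011_s3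

theorem t3150_B00pm_011_s3 : ∃ t, chk3 f_B00pm_011_s3 t 239 250 43 = true := ex3_a t3149_B00pm_011_s3 t3145_B00pm_011_s3

theorem t3151_B00pm_011_s3 : ∃ t, chk3 f_B00pm_011_s3 t 3839 4010 170 = true := ex3_c k2264_B00pm_011_s3 k2265_B00pm_011_s3

theorem t3152_B00pm_011_s3 : ∃ t, chk3 f_B00pm_011_s3 t 1919 4010 170 = true := ex3_a k2263_B00pm_011_s3 t3151_B00pm_011_s3

theorem t3153_B00pm_011_s3 : ∃ t, chk3 f_B00pm_011_s3 t 1919 2005 170 = true := ex3_b t3152_B00pm_011_s3 k2266_B00pm_011_s3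

theorem t3154_B00pm_011_s3 : ∃ t, chk3 f_B00pm_011_s3 t 959 2005 170 = true := ex3_a k2262_B00pm_011_s3 t3153_B00pm_011_s3

theorem t3155_B00pm_011_s3 : ∃ t, chk3 f_B00pm_011_s3 t 959 2005 85 = true := ex3_c t3154_B00pm_011_s3 k2267_B00pm_011_s3

theorem t3156_B00pm_011_s3 : ∃ t, chk3 f_B00pm_011_s3 t 959 2004 85 = true := ex3_a k2260_B00pm_011_s3 k2261_B00pm_011_s3

theorem t3157_B00pm_011_s3 : ∃ t, chk3 f_B00pm_011_s3 t 959 1002 85 = true := ex3_b t3156_B00pm_011_s3 t3155_B00pm_011_s3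

theorem t3158_B00pm_011_s3 : ∃ t, chk3 f_B00pm_011_s3 t 958 2004 85 = true := ex3_b k2257_B00pm_011_s3 k2258_B00pm_011_s3

theorem t3159_B00pm_011_s3 : ∃ t, chk3 f_B00pm_011_s3 t 958 1002 85 = true := ex3_b t3158_B00pm_011_s3 k2259_B00pm_011_s3

theorem t3160_B00pm_011_s3 : ∃ t, chk3 f_B00pm_011_s3 t 479 1002 85 = true := ex3_a t3159_B00pm_011_s3 t3157_B00pm_011_s3

theorem t3161_B00pm_011_s3 : ∃ t, chk3 f_B00pm_011_s3 t 479 501 85 = true := ex3_b t3160_B00pm_011_s3 k2268_B00pm_011_s3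

theorem t3162_B00pm_011_s3 : ∃ t, chk3 f_B00pm_011_s3 t 479 250 85 = true := ex3_b k2256_B00pm_011_s3 t3161_B00pm_011_s3

theorem t3163_B00pm_011_s3 : ∃ t, chk3 f_B00pm_011_s3 t 1919 2006 169 = true := ex3_b k2253_B00pm_011_s3 k2254_B00pm_011_s3

theorem t3164_B00pm_011_s3 : ∃ t, chk3 f_B00pm_011_s3 t 1919 1003 169 = true := ex3_b t3163_B00pm_011_s3 k2255_B00pm_011_s3

theorem t3165_B00pm_011_s3 : ∃ t, chk3 f_B00pm_011_s3 t 959 1003 169 = true := ex3_a k2252_B00pm_011_s3 t3164_B00pm_011_s3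

theorem t3166_B00pm_011_s3 : ∃ t, chk3 f_B00pm_011_s3 t 479 1003 169 = true := ex3_a k2251_B00pm_011_s3 t3165_B00pm_011_s3

theorem t3167_B00pm_011_s3 : ∃ t, chk3 f_B00pm_011_s3 t 1919 4011 169 = true := ex3_a k2249_B00pm_011_s3 k2250_B00pm_011_s3

theorem t3168_B00pm_011_s3 : ∃ t, chk3 f_B00pm_011_s3 t 1919 2005 169 = true := ex3_b k2248_B00pm_011_s3 t3167_B00pm_011_s3

theorem t3169_B00pm_011_s3 : ∃ t, chk3 f_B00pm_011_s3 t 3837 4010 169 = true := ex3_c k2245_B00pm_011_s3 k2246_B00pm_011_s3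

theorem t3170_B00pm_011_s3 : ∃ t, chk3 f_B00pm_011_s3 t 1918 4010 169 = true := ex3_a k2244_B00pm_011_s3 t3169_B00pm_011_s3

theorem t3171_B00pm_011_s3 : ∃ t, chk3 f_B00pm_011_s3 t 1918 2005 169 = true := ex3_b t3170_B00pm_011_s3 k2247_B00pm_011_s3

theorem t3172_B00pm_011_s3 : ∃ t, chk3 f_B00pm_011_s3 t 959 2005 169 = true := ex3_a t3171_B00pm_011_s3 t3168_B00pm_011_s3

theorem t3173_B00pm_011_s3 : ∃ t, chk3 f_B00pm_011_s3 t 1918 4009 339 = true := ex3_a k2241_B00pm_011_s3 k2242_B00pm_011_s3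

theorem t3174_B00pm_011_s3 : ∃ t, chk3 f_B00pm_011_s3 t 1918 4009 169 = true := ex3_c k2240_B00pm_011_s3 t3173_B00pm_011_s3

theorem t3175_B00pm_011_s3 : ∃ t, chk3 f_B00pm_011_s3 t 959 4009 169 = true := ex3_a t3174_B00pm_011_s3 k2243_B00pm_011_s3

theorem t3176_B00pm_011_s3 : ∃ t, chk3 f_B00pm_011_s3 t 959 2004 169 = true := ex3_b k2239_B00pm_011_s3 t3175_B00pm_011_s3

theorem t3177_B00pm_011_s3 : ∃ t, chk3 f_B00pm_011_s3 t 959 1002 169 = true := ex3_b t3176_B00pm_011_s3 t3172_B00pm_011_s3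

theorem t3178_B00pm_011_s3 : ∃ t, chk3 f_B00pm_011_s3 t 958 4009 169 = true := ex3_a k2236_B00pm_011_s3 k2237_B00pm_011_s3

theorem t3179_B00pm_011_s3 : ∃ t, chk3 f_B00pm_011_s3 t 958 4008 169 = true := ex3_a k2234_B00pm_011_s3 k2235_B00pm_011_s3

theorem t3180_B00pm_011_s3 : ∃ t, chk3 f_B00pm_011_s3 t 958 2004 169 = true := ex3_b t3179_B00pm_011_s3 t3178_B00pm_011_s3

theorem t3181_B00pm_011_s3 : ∃ t, chk3 f_B00pm_011_s3 t 958 1002 169 = true := ex3_b t3180_B00pm_011_s3 k2238_B00pm_011_s3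

theorem t3182_B00pm_011_s3 : ∃ t, chk3 f_B00pm_011_s3 t 479 1002 169 = true := ex3_a t3181_B00pm_011_s3 t3177_B00pm_011_s3

theorem t3183_B00pm_011_s3 : ∃ t, chk3 f_B00pm_011_s3 t 479 501 169 = true := ex3_b t3182_B00pm_011_s3 t3166_B00pm_011_s3

theorem t3184_B00pm_011_s3 : ∃ t, chk3 f_B00pm_011_s3 t 479 250 169 = true := ex3_b k2233_B00pm_011_s3 t3183_B00pm_011_s3

theorem t3185_B00pm_011_s3 : ∃ t, chk3 f_B00pm_011_s3 t 959 2006 168 = true := ex3_a k2230_B00pm_011_s3 k2231_B00pm_011_s3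

theorem t3186_B00pm_011_s3 : ∃ t, chk3 f_B00pm_011_s3 t 959 1003 168 = true := ex3_b t3185_B00pm_011_s3 k2232_B00pm_011_s3

theorem t3187_B00pm_011_s3 : ∃ t, chk3 f_B00pm_011_s3 t 479 1003 168 = true := ex3_a k2229_B00pm_011_s3 t3186_B00pm_011_s3

theorem t3188_B00pm_011_s3 : ∃ t, chk3 f_B00pm_011_s3 t 1918 2005 168 = true := ex3_b k2226_B00pm_011_s3 k2227_B00pm_011_s3

theorem t3189_B00pm_011_s3 : ∃ t, chk3 f_B00pm_011_s3 t 959 2005 168 = true := ex3_a t3188_B00pm_011_s3 k2228_B00pm_011_s3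

theorem t3190_B00pm_011_s3 : ∃ t, chk3 f_B00pm_011_s3 t 1917 4010 168 = true := ex3_a k2223_B00pm_011_s3 k2224_B00pm_011_s3

theorem t3191_B00pm_011_s3 : ∃ t, chk3 f_B00pm_011_s3 t 1917 2005 168 = true := ex3_b t3190_B00pm_011_s3 k2225_B00pm_011_s3

theorem t3192_B00pm_011_s3 : ∃ t, chk3 f_B00pm_011_s3 t 958 2005 168 = true := ex3_a k2222_B00pm_011_s3 t3191_B00pm_011_s3

theorem t3193_B00pm_011_s3 : ∃ t, chk3 f_B00pm_011_s3 t 479 2005 168 = true := ex3_a t3192_B00pm_011_s3 t3189_B00pm_011_s3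

theorem t3194_B00pm_011_s3 : ∃ t, chk3 f_B00pm_011_s3 t 3834 4009 168 = true := ex3_c k2218_B00pm_011_s3 k2219_B00pm_011_s3

theorem t3195_B00pm_011_s3 : ∃ t, chk3 f_B00pm_011_s3 t 1917 4009 168 = true := ex3_a t3194_B00pm_011_s3 k2220_B00pm_011_s3

theorem t3196_B00pm_011_s3 : ∃ t, chk3 f_B00pm_011_s3 t 958 4009 168 = true := ex3_a k2217_B00pm_011_s3 t3195_B00pm_011_s3

theorem t3197_B00pm_011_s3 : ∃ t, chk3 f_B00pm_011_s3 t 1916 4008 336 = true := ex3_a k2213_B00pm_011_s3 k2214_B00pm_011_s3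

theorem t3198_B00pm_011_s3 : ∃ t, chk3 f_B00pm_011_s3 t 1916 4008 168 = true := ex3_c t3197_B00pm_011_s3 k2215_B00pm_011_s3

theorem t3199_B00pm_011_s3 : ∃ t, chk3 f_B00pm_011_s3 t 958 4008 168 = true := ex3_a t3198_B00pm_011_s3 k2216_B00pm_011_s3

theorem t3200_B00pm_011_s3 : ∃ t, chk3 f_B00pm_011_s3 t 958 2004 168 = true := ex3_b t3199_B00pm_011_s3 t3196_B00pm_011_s3

theorem t3201_B00pm_011_s3 : ∃ t, chk3 f_B00pm_011_s3 t 479 2004 168 = true := ex3_a t3200_B00pm_011_s3 k2221_B00pm_011_s3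

theorem t3202_B00pm_011_s3 : ∃ t, chk3 f_B00pm_011_s3 t 479 1002 168 = true := ex3_b t3201_B00pm_011_s3 t3193_B00pm_011_s3

theorem t3203_B00pm_011_s3 : ∃ t, chk3 f_B00pm_011_s3 t 479 501 168 = true := ex3_b t3202_B00pm_011_s3 t3187_B00pm_011_s3

theorem t3204_B00pm_011_s3 : ∃ t, chk3 f_B00pm_011_s3 t 479 250 168 = true := ex3_b k2212_B00pm_011_s3 t3203_B00pm_011_s3

theorem t3205_B00pm_011_s3 : ∃ t, chk3 f_B00pm_011_s3 t 479 250 84 = true := ex3_c t3204_B00pm_011_s3 t3184_B00pm_011_s3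

theorem t3206_B00pm_011_s3 : ∃ t, chk3 f_B00pm_011_s3 t 479 250 42 = true := ex3_c t3205_B00pm_011_s3 t3162_B00pm_011_s3

theorem t3207_B00pm_011_s3 : ∃ t, chk3 f_B00pm_011_s3 t 957 250 85 = true := ex3_c k2210_B00pm_011_s3 k2211_B00pm_011_s3

theorem t3208_B00pm_011_s3 : ∃ t, chk3 f_B00pm_011_s3 t 956 500 85 = true := ex3_b k2207_B00pm_011_s3 k2208_B00pm_011_s3

theorem t3209_B00pm_011_s3 : ∃ t, chk3 f_B00pm_011_s3 t 956 250 85 = true := ex3_b t3208_B00pm_011_s3 k2209_B00pm_011_s3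

theorem t3210_B00pm_011_s3 : ∃ t, chk3 f_B00pm_011_s3 t 478 250 85 = true := ex3_a t3209_B00pm_011_s3 t3207_B00pm_011_s3

theorem t3211_B00pm_011_s3 : ∃ t, chk3 f_B00pm_011_s3 t 1915 250 168 = true := ex3_c k2204_B00pm_011_s3 k2205_B00pm_011_s3

theorem t3212_B00pm_011_s3 : ∃ t, chk3 f_B00pm_011_s3 t 957 250 168 = true := ex3_a k2203_B00pm_011_s3 t3211_B00pm_011_s3

theorem t3213_B00pm_011_s3 : ∃ t, chk3 f_B00pm_011_s3 t 957 250 84 = true := ex3_c t3212_B00pm_011_s3 k2206_B00pm_011_s3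

theorem t3214_B00pm_011_s3 : ∃ t, chk3 f_B00pm_011_s3 t 956 1001 84 = true := ex3_b k2200_B00pm_011_s3 k2201_B00pm_011_s3

theorem t3215_B00pm_011_s3 : ∃ t, chk3 f_B00pm_011_s3 t 956 500 84 = true := ex3_b k2199_B00pm_011_s3 t3214_B00pm_011_s3

theorem t3216_B00pm_011_s3 : ∃ t, chk3 f_B00pm_011_s3 t 956 250 84 = true := ex3_b t3215_B00pm_011_s3 k2202_B00pm_011_s3

theorem t3217_B00pm_011_s3 : ∃ t, chk3 f_B00pm_011_s3 t 478 250 84 = true := ex3_a t3216_B00pm_011_s3 t3213_B00pm_011_s3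

theorem t3218_B00pm_011_s3 : ∃ t, chk3 f_B00pm_011_s3 t 478 250 42 = true := ex3_c t3217_B00pm_011_s3 t3210_B00pm_011_s3

theorem t3219_B00pm_011_s3 : ∃ t, chk3 f_B00pm_011_s3 t 239 250 42 = true := ex3_a t3218_B00pm_011_s3 t3206_B00pm_011_s3

theorem t3220_B00pm_011_s3 : ∃ t, chk3 f_B00pm_011_s3 t 239 250 21 = true := ex3_c t3219_B00pm_011_s3 t3150_B00pm_011_s3

theorem t3221_B00pm_011_s3 : ∃ t, chk3 f_B00pm_011_s3 t 238 501 21 = true := ex3_c k2197_B00pm_011_s3 k2198_B00pm_011_s3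

theorem t3222_B00pm_011_s3 : ∃ t, chk3 f_B00pm_011_s3 t 477 1000 43 = true := ex3_b k2194_B00pm_011_s3 k2195_B00pm_011_s3

theorem t3223_B00pm_011_s3 : ∃ t, chk3 f_B00pm_011_s3 t 238 1000 43 = true := ex3_a k2193_B00pm_011_s3 t3222_B00pm_011_s3

theorem t3224_B00pm_011_s3 : ∃ t, chk3 f_B00pm_011_s3 t 238 500 43 = true := ex3_b t3223_B00pm_011_s3 k2196_B00pm_011_s3

theorem t3225_B00pm_011_s3 : ∃ t, chk3 f_B00pm_011_s3 t 477 1001 42 = true := ex3_b k2191_B00pm_011_s3 k2192_B00pm_011_s3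

theorem t3226_B00pm_011_s3 : ∃ t, chk3 f_B00pm_011_s3 t 238 1001 42 = true := ex3_a k2190_B00pm_011_s3 t3225_B00pm_011_s3

theorem t3227_B00pm_011_s3 : ∃ t, chk3 f_B00pm_011_s3 t 477 1000 42 = true := ex3_c k2188_B00pm_011_s3 k2189_B00pm_011_s3

theorem t3228_B00pm_011_s3 : ∃ t, chk3 f_B00pm_011_s3 t 476 1000 42 = true := ex3_b k2186_B00pm_011_s3 k2187_B00pm_011_s3

theorem t3229_B00pm_011_s3 : ∃ t, chk3 f_B00pm_011_s3 t 238 1000 42 = true := ex3_a t3228_B00pm_011_s3 t3227_B00pm_011_s3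

theorem t3230_B00pm_011_s3 : ∃ t, chk3 f_B00pm_011_s3 t 238 500 42 = true := ex3_b t3229_B00pm_011_s3 t3226_B00pm_011_s3

theorem t3231_B00pm_011_s3 : ∃ t, chk3 f_B00pm_011_s3 t 238 500 21 = true := ex3_c t3230_B00pm_011_s3 t3224_B00pm_011_s3

theorem t3232_B00pm_011_s3 : ∃ t, chk3 f_B00pm_011_s3 t 238 250 21 = true := ex3_b t3231_B00pm_011_s3 t3221_B00pm_011_s3

theorem t3233_B00pm_011_s3 : ∃ t, chk3 f_B00pm_011_s3 t 119 250 21 = true := ex3_a t3232_B00pm_011_s3 t3220_B00pm_011_s3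

theorem t3234_B00pm_011_s3 : ∃ t, chk3 f_B00pm_011_s3 t 119 125 21 = true := ex3_b t3233_B00pm_011_s3 t3139_B00pm_011_s3

theorem t3235_B00pm_011_s3 : ∃ t, chk3 f_B00pm_011_s3 t 118 500 21 = true := ex3_c k2182_B00pm_011_s3 k2183_B00pm_011_s3

theorem t3236_B00pm_011_s3 : ∃ t, chk3 f_B00pm_011_s3 t 118 250 21 = true := ex3_b t3235_B00pm_011_s3 k2184_B00pm_011_s3

theorem t3237_B00pm_011_s3 : ∃ t, chk3 f_B00pm_011_s3 t 118 125 21 = true := ex3_b t3236_B00pm_011_s3 k2185_B00pm_011_s3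

theorem t3238_B00pm_011_s3 : ∃ t, chk3 f_B00pm_011_s3 t 59 125 21 = true := ex3_a t3237_B00pm_011_s3 t3234_B00pm_011_s3

theorem t3239_B00pm_011_s3 : ∃ t, chk3 f_B00pm_011_s3 t 476 499 21 = true := ex3_c k2178_B00pm_011_s3 k2179_B00pm_011_s3

theorem t3240_B00pm_011_s3 : ∃ t, chk3 f_B00pm_011_s3 t 238 499 21 = true := ex3_a t3239_B00pm_011_s3 k2180_B00pm_011_s3

theorem t3241_B00pm_011_s3 : ∃ t, chk3 f_B00pm_011_s3 t 238 249 21 = true := ex3_b k2177_B00pm_011_s3 t3240_B00pm_011_s3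

theorem t3242_B00pm_011_s3 : ∃ t, chk3 f_B00pm_011_s3 t 119 249 21 = true := ex3_a t3241_B00pm_011_s3 k2181_B00pm_011_s3

theorem t3243_B00pm_011_s3 : ∃ t, chk3 f_B00pm_011_s3 t 119 124 21 = true := ex3_b k2176_B00pm_011_s3 t3242_B00pm_011_s3

theorem t3244_B00pm_011_s3 : ∃ t, chk3 f_B00pm_011_s3 t 237 499 43 = true := ex3_b k2174_B00pm_011_s3 k2175_B00pm_011_s3

theorem t3245_B00pm_011_s3 : ∃ t, chk3 f_B00pm_011_s3 t 237 499 85 = true := ex3_c k2172_B00pm_011_s3 k2173_B00pm_011_s3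

theorem t3246_B00pm_011_s3 : ∃ t, chk3 f_B00pm_011_s3 t 237 499 42 = true := ex3_c k2171_B00pm_011_s3 t3245_B00pm_011_s3

theorem t3247_B00pm_011_s3 : ∃ t, chk3 f_B00pm_011_s3 t 237 499 21 = true := ex3_c t3246_B00pm_011_s3 t3244_B00pm_011_s3

theorem t3248_B00pm_011_s3 : ∃ t, chk3 f_B00pm_011_s3 t 237 249 21 = true := ex3_b k2170_B00pm_011_s3 t3247_B00pm_011_s3

theorem t3249_B00pm_011_s3 : ∃ t, chk3 f_B00pm_011_s3 t 237 124 21 = true := ex3_b k2169_B00pm_011_s3 t3248_B00pm_011_s3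

theorem t3250_B00pm_011_s3 : ∃ t, chk3 f_B00pm_011_s3 t 236 249 43 = true := ex3_a k2167_B00pm_011_s3 k2168_B00pm_011_s3

theorem t3251_B00pm_011_s3 : ∃ t, chk3 f_B00pm_011_s3 t 236 499 42 = true := ex3_b k2165_B00pm_011_s3 k2166_B00pm_011_s3

theorem t3252_B00pm_011_s3 : ∃ t, chk3 f_B00pm_011_s3 t 236 997 85 = true := ex3_c k2163_B00pm_011_s3 k2164_B00pm_011_s3

theorem t3253_B00pm_011_s3 : ∃ t, chk3 f_B00pm_011_s3 t 236 997 42 = true := ex3_c k2162_B00pm_011_s3 t3252_B00pm_011_s3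

theorem t3254_B00pm_011_s3 : ∃ t, chk3 f_B00pm_011_s3 t 236 498 42 = true := ex3_b k2161_B00pm_011_s3 t3253_B00pm_011_s3

theorem t3255_B00pm_011_s3 : ∃ t, chk3 f_B00pm_011_s3 t 236 249 42 = true := ex3_b t3254_B00pm_011_s3 t3251_B00pm_011_s3

theorem t3256_B00pm_011_s3 : ∃ t, chk3 f_B00pm_011_s3 t 236 249 21 = true := ex3_c t3255_B00pm_011_s3 t3250_B00pm_011_s3

theorem t3257_B00pm_011_s3 : ∃ t, chk3 f_B00pm_011_s3 t 236 124 21 = true := ex3_b k2160_B00pm_011_s3 t3256_B00pm_011_s3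

theorem t3258_B00pm_011_s3 : ∃ t, chk3 f_B00pm_011_s3 t 118 124 21 = true := ex3_a t3257_B00pm_011_s3 t3249_B00pm_011_s3

theorem t3259_B00pm_011_s3 : ∃ t, chk3 f_B00pm_011_s3 t 59 124 21 = true := ex3_a t3258_B00pm_011_s3 t3243_B00pm_011_s3

theorem t3260_B00pm_011_s3 : ∃ t, chk3 f_B00pm_011_s3 t 59 62 21 = true := ex3_b t3259_B00pm_011_s3 t3238_B00pm_011_s3

theorem t3261_B00pm_011_s3 : ∃ t, chk3 f_B00pm_011_s3 t 959 1005 82 = true := ex3_a k2156_B00pm_011_s3 k2157_B00pm_011_s3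

theorem t3262_B00pm_011_s3 : ∃ t, chk3 f_B00pm_011_s3 t 479 1005 82 = true := ex3_a k2155_B00pm_011_s3 t3261_B00pm_011_s3

theorem t3263_B00pm_011_s3 : ∃ t, chk3 f_B00pm_011_s3 t 479 1005 41 = true := ex3_c t3262_B00pm_011_s3 k2158_B00pm_011_s3

theorem t3264_B00pm_011_s3 : ∃ t, chk3 f_B00pm_011_s3 t 239 1005 41 = true := ex3_a k2154_B00pm_011_s3 t3263_B00pm_011_s3

theorem t3265_B00pm_011_s3 : ∃ t, chk3 f_B00pm_011_s3 t 959 2008 83 = true := ex3_c k2151_B00pm_011_s3 k2152_B00pm_011_s3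

theorem t3266_B00pm_011_s3 : ∃ t, chk3 f_B00pm_011_s3 t 479 2008 83 = true := ex3_a k2150_B00pm_011_s3 t3265_B00pm_011_s3

theorem t3267_B00pm_011_s3 : ∃ t, chk3 f_B00pm_011_s3 t 239 2008 83 = true := ex3_a k2149_B00pm_011_s3 t3266_B00pm_011_s3

theorem t3268_B00pm_011_s3 : ∃ t, chk3 f_B00pm_011_s3 t 239 1004 83 = true := ex3_b t3267_B00pm_011_s3 k2153_B00pm_011_s3

theorem t3269_B00pm_011_s3 : ∃ t, chk3 f_B00pm_011_s3 t 959 1004 82 = true := ex3_b k2147_B00pm_011_s3 k2148_B00pm_011_s3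

theorem t3270_B00pm_011_s3 : ∃ t, chk3 f_B00pm_011_s3 t 958 1004 82 = true := ex3_c k2145_B00pm_011_s3 k2146_B00pm_011_s3

theorem t3271_B00pm_011_s3 : ∃ t, chk3 f_B00pm_011_s3 t 479 1004 82 = true := ex3_a t3270_B00pm_011_s3 t3269_B00pm_011_s3

theorem t3272_B00pm_011_s3 : ∃ t, chk3 f_B00pm_011_s3 t 239 1004 82 = true := ex3_a k2144_B00pm_011_s3 t3271_B00pm_011_s3

theorem t3273_B00pm_011_s3 : ∃ t, chk3 f_B00pm_011_s3 t 239 1004 41 = true := ex3_c t3272_B00pm_011_s3 t3268_B00pm_011_s3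

theorem t3274_B00pm_011_s3 : ∃ t, chk3 f_B00pm_011_s3 t 239 502 41 = true := ex3_b t3273_B00pm_011_s3 t3264_B00pm_011_s3

theorem t3275_B00pm_011_s3 : ∃ t, chk3 f_B00pm_011_s3 t 119 502 41 = true := ex3_a k2143_B00pm_011_s3 t3274_B00pm_011_s3

theorem t3276_B00pm_011_s3 : ∃ t, chk3 f_B00pm_011_s3 t 119 251 41 = true := ex3_b t3275_B00pm_011_s3 k2159_B00pm_011_s3

theorem t3277_B00pm_011_s3 : ∃ t, chk3 f_B00pm_011_s3 t 959 2007 167 = true := ex3_a k2141_B00pm_011_s3 k2142_B00pm_011_s3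

theorem t3278_B00pm_011_s3 : ∃ t, chk3 f_B00pm_011_s3 t 959 2007 83 = true := ex3_c k2140_B00pm_011_s3 t3277_B00pm_011_s3

theorem t3279_B00pm_011_s3 : ∃ t, chk3 f_B00pm_011_s3 t 479 2007 83 = true := ex3_a k2139_B00pm_011_s3 t3278_B00pm_011_s3

theorem t3280_B00pm_011_s3 : ∃ t, chk3 f_B00pm_011_s3 t 1917 2006 83 = true := ex3_c k2136_B00pm_011_s3 k2137_B00pm_011_s3

theorem t3281_B00pm_011_s3 : ∃ t, chk3 f_B00pm_011_s3 t 958 2006 83 = true := ex3_a k2135_B00pm_011_s3 t3280_B00pm_011_s3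

theorem t3282_B00pm_011_s3 : ∃ t, chk3 f_B00pm_011_s3 t 479 2006 83 = true := ex3_a t3281_B00pm_011_s3 k2138_B00pm_011_s3

theorem t3283_B00pm_011_s3 : ∃ t, chk3 f_B00pm_011_s3 t 479 1003 83 = true := ex3_b t3282_B00pm_011_s3 t3279_B00pm_011_s3

theorem t3284_B00pm_011_s3 : ∃ t, chk3 f_B00pm_011_s3 t 1916 2005 83 = true := ex3_c k2131_B00pm_011_s3 k2132_B00pm_011_s3

theorem t3285_B00pm_011_s3 : ∃ t, chk3 f_B00pm_011_s3 t 958 2005 83 = true := ex3_a t3284_B00pm_011_s3 k2133_B00pm_011_s3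

theorem t3286_B00pm_011_s3 : ∃ t, chk3 f_B00pm_011_s3 t 479 2005 83 = true := ex3_a t3285_B00pm_011_s3 k2134_B00pm_011_s3

theorem t3287_B00pm_011_s3 : ∃ t, chk3 f_B00pm_011_s3 t 1916 4009 167 = true := ex3_a k2127_B00pm_011_s3 k2128_B00pm_011_s3

theorem t3288_B00pm_011_s3 : ∃ t, chk3 f_B00pm_011_s3 t 1916 4009 83 = true := ex3_c k2126_B00pm_011_s3 t3287_B00pm_011_s3

theorem t3289_B00pm_011_s3 : ∃ t, chk3 f_B00pm_011_s3 t 958 4009 83 = true := ex3_a t3288_B00pm_011_s3 k2129_B00pm_011_s3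

theorem t3290_B00pm_011_s3 : ∃ t, chk3 f_B00pm_011_s3 t 958 2004 83 = true := ex3_b k2125_B00pm_011_s3 t3289_B00pm_011_s3

theorem t3291_B00pm_011_s3 : ∃ t, chk3 f_B00pm_011_s3 t 479 2004 83 = true := ex3_a t3290_B00pm_011_s3 k2130_B00pm_011_s3

theorem t3292_B00pm_011_s3 : ∃ t, chk3 f_B00pm_011_s3 t 479 1002 83 = true := ex3_b t3291_B00pm_011_s3 t3286_B00pm_011_s3

theorem t3293_B00pm_011_s3 : ∃ t, chk3 f_B00pm_011_s3 t 479 501 83 = true := ex3_b t3292_B00pm_011_s3 t3283_B00pm_011_s3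

theorem t3294_B00pm_011_s3 : ∃ t, chk3 f_B00pm_011_s3 t 479 250 83 = true := ex3_b k2124_B00pm_011_s3 t3293_B00pm_011_s3

theorem t3295_B00pm_011_s3 : ∃ t, chk3 f_B00pm_011_s3 t 479 501 331 = true := ex3_b k2122_B00pm_011_s3 k2123_B00pm_011_s3

theorem t3296_B00pm_011_s3 : ∃ t, chk3 f_B00pm_011_s3 t 479 250 331 = true := ex3_b k2121_B00pm_011_s3 t3295_B00pm_011_s3

theorem t3297_B00pm_011_s3 : ∃ t, chk3 f_B00pm_011_s3 t 479 250 330 = true := ex3_c k2119_B00pm_011_s3 k2120_B00pm_011_s3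

theorem t3298_B00pm_011_s3 : ∃ t, chk3 f_B00pm_011_s3 t 479 250 165 = true := ex3_c t3297_B00pm_011_s3 t3296_B00pm_011_s3

theorem t3299_B00pm_011_s3 : ∃ t, chk3 f_B00pm_011_s3 t 479 501 164 = true := ex3_b k2117_B00pm_011_s3 k2118_B00pm_011_s3

theorem t3300_B00pm_011_s3 : ∃ t, chk3 f_B00pm_011_s3 t 479 250 164 = true := ex3_b k2116_B00pm_011_s3 t3299_B00pm_011_s3

theorem t3301_B00pm_011_s3 : ∃ t, chk3 f_B00pm_011_s3 t 479 250 82 = true := ex3_c t3300_B00pm_011_s3 t3298_B00pm_011_s3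

theorem t3302_B00pm_011_s3 : ∃ t, chk3 f_B00pm_011_s3 t 479 250 41 = true := ex3_c t3301_B00pm_011_s3 t3294_B00pm_011_s3

theorem t3303_B00pm_011_s3 : ∃ t, chk3 f_B00pm_011_s3 t 1915 250 670 = true := ex3_c k2113_B00pm_011_s3 k2114_B00pm_011_s3

theorem t3304_B00pm_011_s3 : ∃ t, chk3 f_B00pm_011_s3 t 1915 250 335 = true := ex3_c t3303_B00pm_011_s3 k2115_B00pm_011_s3

theorem t3305_B00pm_011_s3 : ∃ t, chk3 f_B00pm_011_s3 t 1915 4008 334 = true := ex3_a k2108_B00pm_011_s3 k2109_B00pm_011_s3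

theorem t3306_B00pm_011_s3 : ∃ t, chk3 f_B00pm_011_s3 t 1915 2004 334 = true := ex3_b t3305_B00pm_011_s3 k2110_B00pm_011_s3

theorem t3307_B00pm_011_s3 : ∃ t, chk3 f_B00pm_011_s3 t 1915 1002 334 = true := ex3_b t3306_B00pm_011_s3 k2111_B00pm_011_s3

theorem t3308_B00pm_011_s3 : ∃ t, chk3 f_B00pm_011_s3 t 1915 501 334 = true := ex3_b t3307_B00pm_011_s3 k2112_B00pm_011_s3

theorem t3309_B00pm_011_s3 : ∃ t, chk3 f_B00pm_011_s3 t 1915 250 334 = true := ex3_b k2107_B00pm_011_s3 t3308_B00pm_011_s3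

theorem t3310_B00pm_011_s3 : ∃ t, chk3 f_B00pm_011_s3 t 1915 250 167 = true := ex3_c t3309_B00pm_011_s3 t3304_B00pm_011_s3

theorem t3311_B00pm_011_s3 : ∃ t, chk3 f_B00pm_011_s3 t 1914 2003 334 = true := ex3_b k2103_B00pm_011_s3 k2104_B00pm_011_s3

theorem t3312_B00pm_011_s3 : ∃ t, chk3 f_B00pm_011_s3 t 1914 1001 334 = true := ex3_b k2102_B00pm_011_s3 t3311_B00pm_011_s3

theorem t3313_B00pm_011_s3 : ∃ t, chk3 f_B00pm_011_s3 t 1914 500 334 = true := ex3_b k2101_B00pm_011_s3 t3312_B00pm_011_s3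

theorem t3314_B00pm_011_s3 : ∃ t, chk3 f_B00pm_011_s3 t 1914 250 334 = true := ex3_b t3313_B00pm_011_s3 k2105_B00pm_011_s3

theorem t3315_B00pm_011_s3 : ∃ t, chk3 f_B00pm_011_s3 t 1914 250 167 = true := ex3_c t3314_B00pm_011_s3 k2106_B00pm_011_s3

theorem t3316_B00pm_011_s3 : ∃ t, chk3 f_B00pm_011_s3 t 957 250 167 = true := ex3_a t3315_B00pm_011_s3 t3310_B00pm_011_s3

theorem t3317_B00pm_011_s3 : ∃ t, chk3 f_B00pm_011_s3 t 1915 2004 166 = true := ex3_b k2097_B00pm_011_s3 k2098_B00pm_011_s3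

theorem t3318_B00pm_011_s3 : ∃ t, chk3 f_B00pm_011_s3 t 1914 2004 166 = true := ex3_b k2095_B00pm_011_s3 k2096_B00pm_011_s3

theorem t3319_B00pm_011_s3 : ∃ t, chk3 f_B00pm_011_s3 t 957 2004 166 = true := ex3_a t3318_B00pm_011_s3 t3317_B00pm_011_s3

theorem t3320_B00pm_011_s3 : ∃ t, chk3 f_B00pm_011_s3 t 957 1002 166 = true := ex3_b t3319_B00pm_011_s3 k2099_B00pm_011_s3

theorem t3321_B00pm_011_s3 : ∃ t, chk3 f_B00pm_011_s3 t 957 501 166 = true := ex3_b t3320_B00pm_011_s3 k2100_B00pm_011_s3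

theorem t3322_B00pm_011_s3 : ∃ t, chk3 f_B00pm_011_s3 t 3828 4007 166 = true := ex3_c k2091_B00pm_011_s3 k2092_B00pm_011_s3

theorem t3323_B00pm_011_s3 : ∃ t, chk3 f_B00pm_011_s3 t 1914 4007 166 = true := ex3_a t3322_B00pm_011_s3 k2093_B00pm_011_s3

theorem t3324_B00pm_011_s3 : ∃ t, chk3 f_B00pm_011_s3 t 1914 2003 166 = true := ex3_b k2090_B00pm_011_s3 t3323_B00pm_011_s3

theorem t3325_B00pm_011_s3 : ∃ t, chk3 f_B00pm_011_s3 t 1914 1001 166 = true := ex3_b k2089_B00pm_011_s3 t3324_B00pm_011_s3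

theorem t3326_B00pm_011_s3 : ∃ t, chk3 f_B00pm_011_s3 t 957 1001 166 = true := ex3_a t3325_B00pm_011_s3 k2094_B00pm_011_s3

theorem t3327_B00pm_011_s3 : ∃ t, chk3 f_B00pm_011_s3 t 957 500 166 = true := ex3_b k2088_B00pm_011_s3 t3326_B00pm_011_s3

theorem t3328_B00pm_011_s3 : ∃ t, chk3 f_B00pm_011_s3 t 957 250 166 = true := ex3_b t3327_B00pm_011_s3 t3321_B00pm_011_s3

theorem t3329_B00pm_011_s3 : ∃ t, chk3 f_B00pm_011_s3 t 957 250 83 = true := ex3_c t3328_B00pm_011_s3 t3316_B00pm_011_s3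

theorem t3330_B00pm_011_s3 : ∃ t, chk3 f_B00pm_011_s3 t 956 250 167 = true := ex3_a k2086_B00pm_011_s3 k2087_B00pm_011_s3

theorem t3331_B00pm_011_s3 : ∃ t, chk3 f_B00pm_011_s3 t 1913 4006 332 = true := ex3_a k2081_B00pm_011_s3 k2082_B00pm_011_s3

theorem t3332_B00pm_011_s3 : ∃ t, chk3 f_B00pm_011_s3 t 1913 2003 332 = true := ex3_b t3331_B00pm_011_s3 k2083_B00pm_011_s3

theorem t3333_B00pm_011_s3 : ∃ t, chk3 f_B00pm_011_s3 t 1913 2003 166 = true := ex3_c t3332_B00pm_011_s3 k2084_B00pm_011_s3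

theorem t3334_B00pm_011_s3 : ∃ t, chk3 f_B00pm_011_s3 t 1913 1001 166 = true := ex3_b k2080_B00pm_011_s3 t3333_B00pm_011_s3

theorem t3335_B00pm_011_s3 : ∃ t, chk3 f_B00pm_011_s3 t 1913 500 166 = true := ex3_b k2079_B00pm_011_s3 t3334_B00pm_011_s3

theorem t3336_B00pm_011_s3 : ∃ t, chk3 f_B00pm_011_s3 t 956 500 166 = true := ex3_a k2078_B00pm_011_s3 t3335_B00pm_011_s3

theorem t3337_B00pm_011_s3 : ∃ t, chk3 f_B00pm_011_s3 t 956 250 166 = true := ex3_b t3336_B00pm_011_s3 k2085_B00pm_011_s3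

theorem t3338_B00pm_011_s3 : ∃ t, chk3 f_B00pm_011_s3 t 956 250 83 = true := ex3_c t3337_B00pm_011_s3 t3330_B00pm_011_s3

theorem t3339_B00pm_011_s3 : ∃ t, chk3 f_B00pm_011_s3 t 478 250 83 = true := ex3_a t3338_B00pm_011_s3 t3329_B00pm_011_s3

theorem t3340_B00pm_011_s3 : ∃ t, chk3 f_B00pm_011_s3 t 957 2006 82 = true := ex3_c k2075_B00pm_011_s3 k2076_B00pm_011_s3

theorem t3341_B00pm_011_s3 : ∃ t, chk3 f_B00pm_011_s3 t 957 1003 82 = true := ex3_b t3340_B00pm_011_s3 k2077_B00pm_011_s3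

theorem t3342_B00pm_011_s3 : ∃ t, chk3 f_B00pm_011_s3 t 478 1003 82 = true := ex3_a k2074_B00pm_011_s3 t3341_B00pm_011_s3

theorem t3343_B00pm_011_s3 : ∃ t, chk3 f_B00pm_011_s3 t 1914 2005 82 = true := ex3_c k2071_B00pm_011_s3 k2072_B00pm_011_s3

theorem t3344_B00pm_011_s3 : ∃ t, chk3 f_B00pm_011_s3 t 957 2005 82 = true := ex3_a t3343_B00pm_011_s3 k2073_B00pm_011_s3

theorem t3345_B00pm_011_s3 : ∃ t, chk3 f_B00pm_011_s3 t 478 2005 82 = true := ex3_a k2070_B00pm_011_s3 t3344_B00pm_011_s3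

theorem t3346_B00pm_011_s3 : ∃ t, chk3 f_B00pm_011_s3 t 956 2004 164 = true := ex3_a k2066_B00pm_011_s3 k2067_B00pm_011_s3

theorem t3347_B00pm_011_s3 : ∃ t, chk3 f_B00pm_011_s3 t 956 2004 82 = true := ex3_c t3346_B00pm_011_s3 k2068_B00pm_011_s3

theorem t3348_B00pm_011_s3 : ∃ t, chk3 f_B00pm_011_s3 t 478 2004 82 = true := ex3_a t3347_B00pm_011_s3 k2069_B00pm_011_s3

theorem t3349_B00pm_011_s3 : ∃ t, chk3 f_B00pm_011_s3 t 478 1002 82 = true := ex3_b t3348_B00pm_011_s3 t3345_B00pm_011_s3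

theorem t3350_B00pm_011_s3 : ∃ t, chk3 f_B00pm_011_s3 t 478 501 82 = true := ex3_b t3349_B00pm_011_s3 t3342_B00pm_011_s3

theorem t3351_B00pm_011_s3 : ∃ t, chk3 f_B00pm_011_s3 t 1913 4007 82 = true := ex3_c k2063_B00pm_011_s3 k2064_B00pm_011_s3

theorem t3352_B00pm_011_s3 : ∃ t, chk3 f_B00pm_011_s3 t 956 4007 82 = true := ex3_a k2062_B00pm_011_s3 t3351_B00pm_011_s3

theorem t3353_B00pm_011_s3 : ∃ t, chk3 f_B00pm_011_s3 t 3825 4006 165 = true := ex3_c k2059_B00pm_011_s3 k2060_B00pm_011_s3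

theorem t3354_B00pm_011_s3 : ∃ t, chk3 f_B00pm_011_s3 t 1912 4006 165 = true := ex3_a k2058_B00pm_011_s3 t3353_B00pm_011_s3

theorem t3355_B00pm_011_s3 : ∃ t, chk3 f_B00pm_011_s3 t 1912 4006 82 = true := ex3_c k2057_B00pm_011_s3 t3354_B00pm_011_s3

theorem t3356_B00pm_011_s3 : ∃ t, chk3 f_B00pm_011_s3 t 956 4006 82 = true := ex3_a t3355_B00pm_011_s3 k2061_B00pm_011_s3

theorem t3357_B00pm_011_s3 : ∃ t, chk3 f_B00pm_011_s3 t 956 2003 82 = true := ex3_b t3356_B00pm_011_s3 t3352_B00pm_011_s3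

theorem t3358_B00pm_011_s3 : ∃ t, chk3 f_B00pm_011_s3 t 478 2003 82 = true := ex3_a t3357_B00pm_011_s3 k2065_B00pm_011_s3

theorem t3359_B00pm_011_s3 : ∃ t, chk3 f_B00pm_011_s3 t 1912 4005 331 = true := ex3_a k2053_B00pm_011_s3 k2054_B00pm_011_s3

theorem t3360_B00pm_011_s3 : ∃ t, chk3 f_B00pm_011_s3 t 956 4005 331 = true := ex3_a t3359_B00pm_011_s3 k2055_B00pm_011_s3

theorem t3361_B00pm_011_s3 : ∃ t, chk3 f_B00pm_011_s3 t 956 2002 331 = true := ex3_b k2052_B00pm_011_s3 t3360_B00pm_011_s3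

theorem t3362_B00pm_011_s3 : ∃ t, chk3 f_B00pm_011_s3 t 478 2002 331 = true := ex3_a t3361_B00pm_011_s3 k2056_B00pm_011_s3

theorem t3363_B00pm_011_s3 : ∃ t, chk3 f_B00pm_011_s3 t 478 2002 165 = true := ex3_c k2051_B00pm_011_s3 t3362_B00pm_011_s3

theorem t3364_B00pm_011_s3 : ∃ t, chk3 f_B00pm_011_s3 t 478 2002 82 = true := ex3_c k2050_B00pm_011_s3 t3363_B00pm_011_s3

theorem t3365_B00pm_011_s3 : ∃ t, chk3 f_B00pm_011_s3 t 478 1001 82 = true := ex3_b t3364_B00pm_011_s3 t3358_B00pm_011_s3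

theorem t3366_B00pm_011_s3 : ∃ t, chk3 f_B00pm_011_s3 t 478 500 82 = true := ex3_b k2049_B00pm_011_s3 t3365_B00pm_011_s3

theorem t3367_B00pm_011_s3 : ∃ t, chk3 f_B00pm_011_s3 t 478 250 82 = true := ex3_b t3366_B00pm_011_s3 t3350_B00pm_011_s3

theorem t3368_B00pm_011_s3 : ∃ t, chk3 f_B00pm_011_s3 t 478 250 41 = true := ex3_c t3367_B00pm_011_s3 t3339_B00pm_011_s3

theorem t3369_B00pm_011_s3 : ∃ t, chk3 f_B00pm_011_s3 t 239 250 41 = true := ex3_a t3368_B00pm_011_s3 t3302_B00pm_011_s3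

theorem t3370_B00pm_011_s3 : ∃ t, chk3 f_B00pm_011_s3 t 238 501 41 = true := ex3_b k2047_B00pm_011_s3 k2048_B00pm_011_s3

theorem t3371_B00pm_011_s3 : ∃ t, chk3 f_B00pm_011_s3 t 1911 2003 164 = true := ex3_b k2043_B00pm_011_s3 k2044_B00pm_011_s3

theorem t3372_B00pm_011_s3 : ∃ t, chk3 f_B00pm_011_s3 t 955 2003 164 = true := ex3_a k2042_B00pm_011_s3 t3371_B00pm_011_s3

theorem t3373_B00pm_011_s3 : ∃ t, chk3 f_B00pm_011_s3 t 955 2003 82 = true := ex3_c t3372_B00pm_011_s3 k2045_B00pm_011_s3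

theorem t3374_B00pm_011_s3 : ∃ t, chk3 f_B00pm_011_s3 t 955 2003 41 = true := ex3_c t3373_B00pm_011_s3 k2046_B00pm_011_s3

theorem t3375_B00pm_011_s3 : ∃ t, chk3 f_B00pm_011_s3 t 955 2002 83 = true := ex3_b k2040_B00pm_011_s3 k2041_B00pm_011_s3

theorem t3376_B00pm_011_s3 : ∃ t, chk3 f_B00pm_011_s3 t 1911 4005 164 = true := ex3_a k2037_B00pm_011_s3 k2038_B00pm_011_s3

theorem t3377_B00pm_011_s3 : ∃ t, chk3 f_B00pm_011_s3 t 1911 4005 82 = true := ex3_c t3376_B00pm_011_s3 k2039_B00pm_011_s3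

theorem t3378_B00pm_011_s3 : ∃ t, chk3 f_B00pm_011_s3 t 955 4005 82 = true := ex3_a k2036_B00pm_011_s3 t3377_B00pm_011_s3

theorem t3379_B00pm_011_s3 : ∃ t, chk3 f_B00pm_011_s3 t 1911 4004 82 = true := ex3_c k2034_B00pm_011_s3 k2035_B00pm_011_s3

theorem t3380_B00pm_011_s3 : ∃ t, chk3 f_B00pm_011_s3 t 1910 4004 328 = true := ex3_a k2030_B00pm_011_s3 k2031_B00pm_011_s3

theorem t3381_B00pm_011_s3 : ∃ t, chk3 f_B00pm_011_s3 t 1910 4004 164 = true := ex3_c t3380_B00pm_011_s3 k2032_B00pm_011_s3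

theorem t3382_B00pm_011_s3 : ∃ t, chk3 f_B00pm_011_s3 t 1910 4004 82 = true := ex3_c t3381_B00pm_011_s3 k2033_B00pm_011_s3

theorem t3383_B00pm_011_s3 : ∃ t, chk3 f_B00pm_011_s3 t 955 4004 82 = true := ex3_a t3382_B00pm_011_s3 t3379_B00pm_011_s3

theorem t3384_B00pm_011_s3 : ∃ t, chk3 f_B00pm_011_s3 t 955 2002 82 = true := ex3_b t3383_B00pm_011_s3 t3378_B00pm_011_s3

theorem t3385_B00pm_011_s3 : ∃ t, chk3 f_B00pm_011_s3 t 955 2002 41 = true := ex3_c t3384_B00pm_011_s3 t3375_B00pm_011_s3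

theorem t3386_B00pm_011_s3 : ∃ t, chk3 f_B00pm_011_s3 t 955 1001 41 = true := ex3_b t3385_B00pm_011_s3 t3374_B00pm_011_s3

theorem t3387_B00pm_011_s3 : ∃ t, chk3 f_B00pm_011_s3 t 477 1001 41 = true := ex3_a k2029_B00pm_011_s3 t3386_B00pm_011_s3

theorem t3388_B00pm_011_s3 : ∃ t, chk3 f_B00pm_011_s3 t 477 2001 164 = true := ex3_a k2025_B00pm_011_s3 k2026_B00pm_011_s3

theorem t3389_B00pm_011_s3 : ∃ t, chk3 f_B00pm_011_s3 t 477 1000 164 = true := ex3_b k2024_B00pm_011_s3 t3388_B00pm_011_s3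

theorem t3390_B00pm_011_s3 : ∃ t, chk3 f_B00pm_011_s3 t 477 1000 82 = true := ex3_c t3389_B00pm_011_s3 k2027_B00pm_011_s3

theorem t3391_B00pm_011_s3 : ∃ t, chk3 f_B00pm_011_s3 t 477 1000 41 = true := ex3_c t3390_B00pm_011_s3 k2028_B00pm_011_s3

theorem t3392_B00pm_011_s3 : ∃ t, chk3 f_B00pm_011_s3 t 477 500 41 = true := ex3_b t3391_B00pm_011_s3 t3387_B00pm_011_s3

theorem t3393_B00pm_011_s3 : ∃ t, chk3 f_B00pm_011_s3 t 953 2000 41 = true := ex3_b k2020_B00pm_011_s3 k2021_B00pm_011_s3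

theorem t3394_B00pm_011_s3 : ∃ t, chk3 f_B00pm_011_s3 t 476 2000 41 = true := ex3_a k2019_B00pm_011_s3 t3393_B00pm_011_s3

theorem t3395_B00pm_011_s3 : ∃ t, chk3 f_B00pm_011_s3 t 476 1000 41 = true := ex3_b t3394_B00pm_011_s3 k2022_B00pm_011_s3

theorem t3396_B00pm_011_s3 : ∃ t, chk3 f_B00pm_011_s3 t 476 500 41 = true := ex3_b t3395_B00pm_011_s3 k2023_B00pm_011_s3

theorem t3397_B00pm_011_s3 : ∃ t, chk3 f_B00pm_011_s3 t 238 500 41 = true := ex3_a t3396_B00pm_011_s3 t3392_B00pm_011_s3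

theorem t3398_B00pm_011_s3 : ∃ t, chk3 f_B00pm_011_s3 t 238 250 41 = true := ex3_b t3397_B00pm_011_s3 t3370_B00pm_011_s3

theorem t3399_B00pm_011_s3 : ∃ t, chk3 f_B00pm_011_s3 t 119 250 41 = true := ex3_a t3398_B00pm_011_s3 t3369_B00pm_011_s3

theorem t3400_B00pm_011_s3 : ∃ t, chk3 f_B00pm_011_s3 t 119 125 41 = true := ex3_b t3399_B00pm_011_s3 t3276_B00pm_011_s3

theorem t3401_B00pm_011_s3 : ∃ t, chk3 f_B00pm_011_s3 t 237 500 41 = true := ex3_b k2015_B00pm_011_s3 k2016_B00pm_011_s3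

theorem t3402_B00pm_011_s3 : ∃ t, chk3 f_B00pm_011_s3 t 118 500 41 = true := ex3_a k2014_B00pm_011_s3 t3401_B00pm_011_s3

theorem t3403_B00pm_011_s3 : ∃ t, chk3 f_B00pm_011_s3 t 118 250 41 = true := ex3_b t3402_B00pm_011_s3 k2017_B00pm_011_s3

theorem t3404_B00pm_011_s3 : ∃ t, chk3 f_B00pm_011_s3 t 118 125 41 = true := ex3_b t3403_B00pm_011_s3 k2018_B00pm_011_s3

theorem t3405_B00pm_011_s3 : ∃ t, chk3 f_B00pm_011_s3 t 59 125 41 = true := ex3_a t3404_B00pm_011_s3 t3400_B00pm_011_s3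

theorem t3406_B00pm_011_s3 : ∃ t, chk3 f_B00pm_011_s3 t 952 999 41 = true := ex3_b k2009_B00pm_011_s3 k2010_B00pm_011_s3

theorem t3407_B00pm_011_s3 : ∃ t, chk3 f_B00pm_011_s3 t 476 999 41 = true := ex3_a t3406_B00pm_011_s3 k2011_B00pm_011_s3

theorem t3408_B00pm_011_s3 : ∃ t, chk3 f_B00pm_011_s3 t 476 499 41 = true := ex3_b k2008_B00pm_011_s3 t3407_B00pm_011_s3

theorem t3409_B00pm_011_s3 : ∃ t, chk3 f_B00pm_011_s3 t 238 499 41 = true := ex3_a t3408_B00pm_011_s3 k2012_B00pm_011_s3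

theorem t3410_B00pm_011_s3 : ∃ t, chk3 f_B00pm_011_s3 t 238 249 41 = true := ex3_b k2007_B00pm_011_s3 t3409_B00pm_011_s3

theorem t3411_B00pm_011_s3 : ∃ t, chk3 f_B00pm_011_s3 t 119 249 41 = true := ex3_a t3410_B00pm_011_s3 k2013_B00pm_011_s3

theorem t3412_B00pm_011_s3 : ∃ t, chk3 f_B00pm_011_s3 t 119 124 41 = true := ex3_b k2006_B00pm_011_s3 t3411_B00pm_011_s3

theorem t3413_B00pm_011_s3 : ∃ t, chk3 f_B00pm_011_s3 t 237 499 82 = true := ex3_b k2003_B00pm_011_s3 k2004_B00pm_011_s3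

theorem t3414_B00pm_011_s3 : ∃ t, chk3 f_B00pm_011_s3 t 237 499 41 = true := ex3_c t3413_B00pm_011_s3 k2005_B00pm_011_s3

theorem t3415_B00pm_011_s3 : ∃ t, chk3 f_B00pm_011_s3 t 237 249 41 = true := ex3_b k2002_B00pm_011_s3 t3414_B00pm_011_s3

theorem t3416_B00pm_011_s3 : ∃ t, chk3 f_B00pm_011_s3 t 473 249 41 = true := ex3_a k2000_B00pm_011_s3 k2001_B00pm_011_s3

theorem t3417_B00pm_011_s3 : ∃ t, chk3 f_B00pm_011_s3 t 472 498 41 = true := ex3_a k1997_B00pm_011_s3 k1998_B00pm_011_s3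

theorem t3418_B00pm_011_s3 : ∃ t, chk3 f_B00pm_011_s3 t 472 249 41 = true := ex3_b t3417_B00pm_011_s3 k1999_B00pm_011_s3

theorem t3419_B00pm_011_s3 : ∃ t, chk3 f_B00pm_011_s3 t 236 249 41 = true := ex3_a t3418_B00pm_011_s3 t3416_B00pm_011_s3

theorem t3420_B00pm_011_s3 : ∃ t, chk3 f_B00pm_011_s3 t 118 249 41 = true := ex3_a t3419_B00pm_011_s3 t3415_B00pm_011_s3

theorem t3421_B00pm_011_s3 : ∃ t, chk3 f_B00pm_011_s3 t 118 124 41 = true := ex3_b k1996_B00pm_011_s3 t3420_B00pm_011_s3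

theorem t3422_B00pm_011_s3 : ∃ t, chk3 f_B00pm_011_s3 t 59 124 41 = true := ex3_a t3421_B00pm_011_s3 t3412_B00pm_011_s3

theorem t3423_B00pm_011_s3 : ∃ t, chk3 f_B00pm_011_s3 t 59 62 41 = true := ex3_b t3422_B00pm_011_s3 t3405_B00pm_011_s3

theorem t3424_B00pm_011_s3 : ∃ t, chk3 f_B00pm_011_s3 t 959 1006 81 = true := ex3_b k1993_B00pm_011_s3 k1994_B00pm_011_s3

theorem t3425_B00pm_011_s3 : ∃ t, chk3 f_B00pm_011_s3 t 959 503 81 = true := ex3_b t3424_B00pm_011_s3 k1995_B00pm_011_s3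

theorem t3426_B00pm_011_s3 : ∃ t, chk3 f_B00pm_011_s3 t 479 503 81 = true := ex3_a k1992_B00pm_011_s3 t3425_B00pm_011_s3

theorem t3427_B00pm_011_s3 : ∃ t, chk3 f_B00pm_011_s3 t 959 1007 80 = true := ex3_b k1990_B00pm_011_s3 k1991_B00pm_011_s3

theorem t3428_B00pm_011_s3 : ∃ t, chk3 f_B00pm_011_s3 t 959 1006 80 = true := ex3_b k1988_B00pm_011_s3 k1989_B00pm_011_s3

theorem t3429_B00pm_011_s3 : ∃ t, chk3 f_B00pm_011_s3 t 959 503 80 = true := ex3_b t3428_B00pm_011_s3 t3427_B00pm_011_s3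

theorem t3430_B00pm_011_s3 : ∃ t, chk3 f_B00pm_011_s3 t 958 503 80 = true := ex3_b k1986_B00pm_011_s3 k1987_B00pm_011_s3

theorem t3431_B00pm_011_s3 : ∃ t, chk3 f_B00pm_011_s3 t 479 503 80 = true := ex3_a t3430_B00pm_011_s3 t3429_B00pm_011_s3

theorem t3432_B00pm_011_s3 : ∃ t, chk3 f_B00pm_011_s3 t 479 503 40 = true := ex3_c t3431_B00pm_011_s3 t3426_B00pm_011_s3

theorem t3433_B00pm_011_s3 : ∃ t, chk3 f_B00pm_011_s3 t 239 503 40 = true := ex3_a k1985_B00pm_011_s3 t3432_B00pm_011_s3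

theorem t3434_B00pm_011_s3 : ∃ t, chk3 f_B00pm_011_s3 t 959 1005 81 = true := ex3_a k1983_B00pm_011_s3 k1984_B00pm_011_s3

theorem t3435_B00pm_011_s3 : ∃ t, chk3 f_B00pm_011_s3 t 479 1005 81 = true := ex3_a k1982_B00pm_011_s3 t3434_B00pm_011_s3

theorem t3436_B00pm_011_s3 : ∃ t, chk3 f_B00pm_011_s3 t 479 1005 80 = true := ex3_a k1980_B00pm_011_s3 k1981_B00pm_011_s3

theorem t3437_B00pm_011_s3 : ∃ t, chk3 f_B00pm_011_s3 t 479 1005 40 = true := ex3_c t3436_B00pm_011_s3 t3435_B00pm_011_s3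

theorem t3438_B00pm_011_s3 : ∃ t, chk3 f_B00pm_011_s3 t 958 1004 81 = true := ex3_b k1977_B00pm_011_s3 k1978_B00pm_011_s3

theorem t3439_B00pm_011_s3 : ∃ t, chk3 f_B00pm_011_s3 t 479 1004 81 = true := ex3_a t3438_B00pm_011_s3 k1979_B00pm_011_s3

theorem t3440_B00pm_011_s3 : ∃ t, chk3 f_B00pm_011_s3 t 479 1004 40 = true := ex3_c k1976_B00pm_011_s3 t3439_B00pm_011_s3

theorem t3441_B00pm_011_s3 : ∃ t, chk3 f_B00pm_011_s3 t 479 502 40 = true := ex3_b t3440_B00pm_011_s3 t3437_B00pm_011_s3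

theorem t3442_B00pm_011_s3 : ∃ t, chk3 f_B00pm_011_s3 t 957 1004 81 = true := ex3_c k1973_B00pm_011_s3 k1974_B00pm_011_s3

theorem t3443_B00pm_011_s3 : ∃ t, chk3 f_B00pm_011_s3 t 957 502 81 = true := ex3_b t3442_B00pm_011_s3 k1975_B00pm_011_s3

theorem t3444_B00pm_011_s3 : ∃ t, chk3 f_B00pm_011_s3 t 478 502 81 = true := ex3_a k1972_B00pm_011_s3 t3443_B00pm_011_s3

theorem t3445_B00pm_011_s3 : ∃ t, chk3 f_B00pm_011_s3 t 478 1004 80 = true := ex3_a k1969_B00pm_011_s3 k1970_B00pm_011_s3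

theorem t3446_B00pm_011_s3 : ∃ t, chk3 f_B00pm_011_s3 t 478 502 80 = true := ex3_b t3445_B00pm_011_s3 k1971_B00pm_011_s3

theorem t3447_B00pm_011_s3 : ∃ t, chk3 f_B00pm_011_s3 t 478 502 40 = true := ex3_c t3446_B00pm_011_s3 t3444_B00pm_011_s3

theorem t3448_B00pm_011_s3 : ∃ t, chk3 f_B00pm_011_s3 t 239 502 40 = true := ex3_a t3447_B00pm_011_s3 t3441_B00pm_011_s3

theorem t3449_B00pm_011_s3 : ∃ t, chk3 f_B00pm_011_s3 t 239 251 40 = true := ex3_b t3448_B00pm_011_s3 t3433_B00pm_011_s3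

theorem t3450_B00pm_011_s3 : ∃ t, chk3 f_B00pm_011_s3 t 479 2004 81 = true := ex3_a k1965_B00pm_011_s3 k1966_B00pm_011_s3

theorem t3451_B00pm_011_s3 : ∃ t, chk3 f_B00pm_011_s3 t 479 1002 81 = true := ex3_b t3450_B00pm_011_s3 k1967_B00pm_011_s3

theorem t3452_B00pm_011_s3 : ∃ t, chk3 f_B00pm_011_s3 t 479 501 81 = true := ex3_b t3451_B00pm_011_s3 k1968_B00pm_011_s3

theorem t3453_B00pm_011_s3 : ∃ t, chk3 f_B00pm_011_s3 t 479 250 81 = true := ex3_b k1964_B00pm_011_s3 t3452_B00pm_011_s3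

theorem t3454_B00pm_011_s3 : ∃ t, chk3 f_B00pm_011_s3 t 479 1003 80 = true := ex3_b k1962_B00pm_011_s3 k1963_B00pm_011_s3

theorem t3455_B00pm_011_s3 : ∃ t, chk3 f_B00pm_011_s3 t 479 4010 80 = true := ex3_c k1959_B00pm_011_s3 k1960_B00pm_011_s3

theorem t3456_B00pm_011_s3 : ∃ t, chk3 f_B00pm_011_s3 t 479 2005 80 = true := ex3_b t3455_B00pm_011_s3 k1961_B00pm_011_s3

theorem t3457_B00pm_011_s3 : ∃ t, chk3 f_B00pm_011_s3 t 479 4009 80 = true := ex3_a k1957_B00pm_011_s3 k1958_B00pm_011_s3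

theorem t3458_B00pm_011_s3 : ∃ t, chk3 f_B00pm_011_s3 t 479 4008 80 = true := ex3_a k1955_B00pm_011_s3 k1956_B00pm_011_s3

theorem t3459_B00pm_011_s3 : ∃ t, chk3 f_B00pm_011_s3 t 479 2004 80 = true := ex3_b t3458_B00pm_011_s3 t3457_B00pm_011_s3

theorem t3460_B00pm_011_s3 : ∃ t, chk3 f_B00pm_011_s3 t 479 1002 80 = true := ex3_b t3459_B00pm_011_s3 t3456_B00pm_011_s3

theorem t3461_B00pm_011_s3 : ∃ t, chk3 f_B00pm_011_s3 t 479 501 80 = true := ex3_b t3460_B00pm_011_s3 t3454_B00pm_011_s3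

theorem t3462_B00pm_011_s3 : ∃ t, chk3 f_B00pm_011_s3 t 479 500 80 = true := ex3_a k1953_B00pm_011_s3 k1954_B00pm_011_s3

theorem t3463_B00pm_011_s3 : ∃ t, chk3 f_B00pm_011_s3 t 479 250 80 = true := ex3_b t3462_B00pm_011_s3 t3461_B00pm_011_s3

theorem t3464_B00pm_011_s3 : ∃ t, chk3 f_B00pm_011_s3 t 479 250 40 = true := ex3_c t3463_B00pm_011_s3 t3453_B00pm_011_s3

theorem t3465_B00pm_011_s3 : ∃ t, chk3 f_B00pm_011_s3 t 957 1003 81 = true := ex3_b k1951_B00pm_011_s3 k1952_B00pm_011_s3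

theorem t3466_B00pm_011_s3 : ∃ t, chk3 f_B00pm_011_s3 t 956 1003 81 = true := ex3_c k1949_B00pm_011_s3 k1950_B00pm_011_s3

theorem t3467_B00pm_011_s3 : ∃ t, chk3 f_B00pm_011_s3 t 478 1003 81 = true := ex3_a t3466_B00pm_011_s3 t3465_B00pm_011_s3

theorem t3468_B00pm_011_s3 : ∃ t, chk3 f_B00pm_011_s3 t 956 2005 81 = true := ex3_c k1946_B00pm_011_s3 k1947_B00pm_011_s3

theorem t3469_B00pm_011_s3 : ∃ t, chk3 f_B00pm_011_s3 t 478 2005 81 = true := ex3_a t3468_B00pm_011_s3 k1948_B00pm_011_s3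

theorem t3470_B00pm_011_s3 : ∃ t, chk3 f_B00pm_011_s3 t 478 1002 81 = true := ex3_b k1945_B00pm_011_s3 t3469_B00pm_011_s3

theorem t3471_B00pm_011_s3 : ∃ t, chk3 f_B00pm_011_s3 t 478 501 81 = true := ex3_b t3470_B00pm_011_s3 t3467_B00pm_011_s3

theorem t3472_B00pm_011_s3 : ∃ t, chk3 f_B00pm_011_s3 t 478 1001 81 = true := ex3_b k1943_B00pm_011_s3 k1944_B00pm_011_s3

theorem t3473_B00pm_011_s3 : ∃ t, chk3 f_B00pm_011_s3 t 478 500 81 = true := ex3_b k1942_B00pm_011_s3 t3472_B00pm_011_s3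

theorem t3474_B00pm_011_s3 : ∃ t, chk3 f_B00pm_011_s3 t 478 250 81 = true := ex3_b t3473_B00pm_011_s3 t3471_B00pm_011_s3

theorem t3475_B00pm_011_s3 : ∃ t, chk3 f_B00pm_011_s3 t 478 1003 80 = true := ex3_a k1940_B00pm_011_s3 k1941_B00pm_011_s3

theorem t3476_B00pm_011_s3 : ∃ t, chk3 f_B00pm_011_s3 t 478 501 80 = true := ex3_b k1939_B00pm_011_s3 t3475_B00pm_011_s3

theorem t3477_B00pm_011_s3 : ∃ t, chk3 f_B00pm_011_s3 t 478 2003 80 = true := ex3_a k1937_B00pm_011_s3 k1938_B00pm_011_s3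

theorem t3478_B00pm_011_s3 : ∃ t, chk3 f_B00pm_011_s3 t 478 2002 80 = true := ex3_a k1935_B00pm_011_s3 k1936_B00pm_011_s3

theorem t3479_B00pm_011_s3 : ∃ t, chk3 f_B00pm_011_s3 t 478 1001 80 = true := ex3_b t3478_B00pm_011_s3 t3477_B00pm_011_s3

theorem t3480_B00pm_011_s3 : ∃ t, chk3 f_B00pm_011_s3 t 478 500 80 = true := ex3_b k1934_B00pm_011_s3 t3479_B00pm_011_s3

theorem t3481_B00pm_011_s3 : ∃ t, chk3 f_B00pm_011_s3 t 478 250 80 = true := ex3_b t3480_B00pm_011_s3 t3476_B00pm_011_s3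

theorem t3482_B00pm_011_s3 : ∃ t, chk3 f_B00pm_011_s3 t 478 250 40 = true := ex3_c t3481_B00pm_011_s3 t3474_B00pm_011_s3

theorem t3483_B00pm_011_s3 : ∃ t, chk3 f_B00pm_011_s3 t 239 250 40 = true := ex3_a t3482_B00pm_011_s3 t3464_B00pm_011_s3

theorem t3484_B00pm_011_s3 : ∃ t, chk3 f_B00pm_011_s3 t 239 125 40 = true := ex3_b t3483_B00pm_011_s3 t3449_B00pm_011_s3

theorem t3485_B00pm_011_s3 : ∃ t, chk3 f_B00pm_011_s3 t 477 1003 40 = true := ex3_c k1931_B00pm_011_s3 k1932_B00pm_011_s3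

theorem t3486_B00pm_011_s3 : ∃ t, chk3 f_B00pm_011_s3 t 238 1003 40 = true := ex3_a k1930_B00pm_011_s3 t3485_B00pm_011_s3

theorem t3487_B00pm_011_s3 : ∃ t, chk3 f_B00pm_011_s3 t 477 2005 80 = true := ex3_a k1927_B00pm_011_s3 k1928_B00pm_011_s3

theorem t3488_B00pm_011_s3 : ∃ t, chk3 f_B00pm_011_s3 t 477 2005 40 = true := ex3_c t3487_B00pm_011_s3 k1929_B00pm_011_s3

theorem t3489_B00pm_011_s3 : ∃ t, chk3 f_B00pm_011_s3 t 238 2005 40 = true := ex3_a k1926_B00pm_011_s3 t3488_B00pm_011_s3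

theorem t3490_B00pm_011_s3 : ∃ t, chk3 f_B00pm_011_s3 t 955 2004 81 = true := ex3_a k1924_B00pm_011_s3 k1925_B00pm_011_s3

theorem t3491_B00pm_011_s3 : ∃ t, chk3 f_B00pm_011_s3 t 477 2004 81 = true := ex3_a k1923_B00pm_011_s3 t3490_B00pm_011_s3

theorem t3492_B00pm_011_s3 : ∃ t, chk3 f_B00pm_011_s3 t 477 2004 80 = true := ex3_a k1921_B00pm_011_s3 k1922_B00pm_011_s3

theorem t3493_B00pm_011_s3 : ∃ t, chk3 f_B00pm_011_s3 t 477 2004 40 = true := ex3_c t3492_B00pm_011_s3 t3491_B00pm_011_s3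

theorem t3494_B00pm_011_s3 : ∃ t, chk3 f_B00pm_011_s3 t 238 2004 40 = true := ex3_a k1920_B00pm_011_s3 t3493_B00pm_011_s3

theorem t3495_B00pm_011_s3 : ∃ t, chk3 f_B00pm_011_s3 t 238 1002 40 = true := ex3_b t3494_B00pm_011_s3 t3489_B00pm_011_s3

theorem t3496_B00pm_011_s3 : ∃ t, chk3 f_B00pm_011_s3 t 238 501 40 = true := ex3_b t3495_B00pm_011_s3 t3486_B00pm_011_s3

theorem t3497_B00pm_011_s3 : ∃ t, chk3 f_B00pm_011_s3 t 1910 2003 81 = true := ex3_c k1917_B00pm_011_s3 k1918_B00pm_011_s3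

theorem t3498_B00pm_011_s3 : ∃ t, chk3 f_B00pm_011_s3 t 955 2003 81 = true := ex3_a t3497_B00pm_011_s3 k1919_B00pm_011_s3

theorem t3499_B00pm_011_s3 : ∃ t, chk3 f_B00pm_011_s3 t 477 2003 81 = true := ex3_a k1916_B00pm_011_s3 t3498_B00pm_011_s3

theorem t3500_B00pm_011_s3 : ∃ t, chk3 f_B00pm_011_s3 t 954 2003 80 = true := ex3_a k1913_B00pm_011_s3 k1914_B00pm_011_s3

theorem t3501_B00pm_011_s3 : ∃ t, chk3 f_B00pm_011_s3 t 477 2003 80 = true := ex3_a t3500_B00pm_011_s3 k1915_B00pm_011_s3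

theorem t3502_B00pm_011_s3 : ∃ t, chk3 f_B00pm_011_s3 t 477 2003 40 = true := ex3_c t3501_B00pm_011_s3 t3499_B00pm_011_s3

theorem t3503_B00pm_011_s3 : ∃ t, chk3 f_B00pm_011_s3 t 955 2002 40 = true := ex3_b k1911_B00pm_011_s3 k1912_B00pm_011_s3

theorem t3504_B00pm_011_s3 : ∃ t, chk3 f_B00pm_011_s3 t 954 4005 81 = true := ex3_c k1909_B00pm_011_s3 k1910_B00pm_011_s3

theorem t3505_B00pm_011_s3 : ∃ t, chk3 f_B00pm_011_s3 t 1909 4004 163 = true := ex3_a k1907_B00pm_011_s3 k1908_B00pm_011_s3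

theorem t3506_B00pm_011_s3 : ∃ t, chk3 f_B00pm_011_s3 t 954 4004 163 = true := ex3_a k1906_B00pm_011_s3 t3505_B00pm_011_s3

theorem t3507_B00pm_011_s3 : ∃ t, chk3 f_B00pm_011_s3 t 954 4004 81 = true := ex3_c k1905_B00pm_011_s3 t3506_B00pm_011_s3

theorem t3508_B00pm_011_s3 : ∃ t, chk3 f_B00pm_011_s3 t 954 2002 81 = true := ex3_b t3507_B00pm_011_s3 t3504_B00pm_011_s3

theorem t3509_B00pm_011_s3 : ∃ t, chk3 f_B00pm_011_s3 t 954 2002 40 = true := ex3_c k1904_B00pm_011_s3 t3508_B00pm_011_s3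

theorem t3510_B00pm_011_s3 : ∃ t, chk3 f_B00pm_011_s3 t 477 2002 40 = true := ex3_a t3509_B00pm_011_s3 t3503_B00pm_011_s3

theorem t3511_B00pm_011_s3 : ∃ t, chk3 f_B00pm_011_s3 t 477 1001 40 = true := ex3_b t3510_B00pm_011_s3 t3502_B00pm_011_s3

theorem t3512_B00pm_011_s3 : ∃ t, chk3 f_B00pm_011_s3 t 954 1000 327 = true := ex3_a k1901_B00pm_011_s3 k1902_B00pm_011_s3

theorem t3513_B00pm_011_s3 : ∃ t, chk3 f_B00pm_011_s3 t 477 1000 327 = true := ex3_a t3512_B00pm_011_s3 k1903_B00pm_011_s3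

theorem t3514_B00pm_011_s3 : ∃ t, chk3 f_B00pm_011_s3 t 954 4003 326 = true := ex3_a k1898_B00pm_011_s3 k1899_B00pm_011_s3

theorem t3515_B00pm_011_s3 : ∃ t, chk3 f_B00pm_011_s3 t 954 2001 326 = true := ex3_b k1897_B00pm_011_s3 t3514_B00pm_011_s3

theorem t3516_B00pm_011_s3 : ∃ t, chk3 f_B00pm_011_s3 t 954 1000 326 = true := ex3_b k1896_B00pm_011_s3 t3515_B00pm_011_s3

theorem t3517_B00pm_011_s3 : ∃ t, chk3 f_B00pm_011_s3 t 477 1000 326 = true := ex3_a t3516_B00pm_011_s3 k1900_B00pm_011_s3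

theorem t3518_B00pm_011_s3 : ∃ t, chk3 f_B00pm_011_s3 t 477 1000 163 = true := ex3_c t3517_B00pm_011_s3 t3513_B00pm_011_s3

theorem t3519_B00pm_011_s3 : ∃ t, chk3 f_B00pm_011_s3 t 954 2001 325 = true := ex3_b k1893_B00pm_011_s3 k1894_B00pm_011_s3

theorem t3520_B00pm_011_s3 : ∃ t, chk3 f_B00pm_011_s3 t 477 2001 325 = true := ex3_a t3519_B00pm_011_s3 k1895_B00pm_011_s3

theorem t3521_B00pm_011_s3 : ∃ t, chk3 f_B00pm_011_s3 t 477 1000 325 = true := ex3_b k1892_B00pm_011_s3 t3520_B00pm_011_s3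

theorem t3522_B00pm_011_s3 : ∃ t, chk3 f_B00pm_011_s3 t 477 1000 162 = true := ex3_c k1891_B00pm_011_s3 t3521_B00pm_011_s3

theorem t3523_B00pm_011_s3 : ∃ t, chk3 f_B00pm_011_s3 t 477 1000 81 = true := ex3_c t3522_B00pm_011_s3 t3518_B00pm_011_s3

theorem t3524_B00pm_011_s3 : ∃ t, chk3 f_B00pm_011_s3 t 477 1000 80 = true := ex3_b k1889_B00pm_011_s3 k1890_B00pm_011_s3

theorem t3525_B00pm_011_s3 : ∃ t, chk3 f_B00pm_011_s3 t 477 1000 40 = true := ex3_c t3524_B00pm_011_s3 t3523_B00pm_011_s3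

theorem t3526_B00pm_011_s3 : ∃ t, chk3 f_B00pm_011_s3 t 477 500 40 = true := ex3_b t3525_B00pm_011_s3 t3511_B00pm_011_s3

theorem t3527_B00pm_011_s3 : ∃ t, chk3 f_B00pm_011_s3 t 1907 2002 80 = true := ex3_c k1885_B00pm_011_s3 k1886_B00pm_011_s3

theorem t3528_B00pm_011_s3 : ∃ t, chk3 f_B00pm_011_s3 t 953 2002 80 = true := ex3_a k1884_B00pm_011_s3 t3527_B00pm_011_s3

theorem t3529_B00pm_011_s3 : ∃ t, chk3 f_B00pm_011_s3 t 953 1001 80 = true := ex3_b t3528_B00pm_011_s3 k1887_B00pm_011_s3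

theorem t3530_B00pm_011_s3 : ∃ t, chk3 f_B00pm_011_s3 t 953 1001 40 = true := ex3_c t3529_B00pm_011_s3 k1888_B00pm_011_s3

theorem t3531_B00pm_011_s3 : ∃ t, chk3 f_B00pm_011_s3 t 476 1001 40 = true := ex3_a k1883_B00pm_011_s3 t3530_B00pm_011_s3

theorem t3532_B00pm_011_s3 : ∃ t, chk3 f_B00pm_011_s3 t 1907 4002 324 = true := ex3_a k1878_B00pm_011_s3 k1879_B00pm_011_s3

theorem t3533_B00pm_011_s3 : ∃ t, chk3 f_B00pm_011_s3 t 1907 4002 162 = true := ex3_c t3532_B00pm_011_s3 k1880_B00pm_011_s3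

theorem t3534_B00pm_011_s3 : ∃ t, chk3 f_B00pm_011_s3 t 1907 2001 162 = true := ex3_b t3533_B00pm_011_s3 k1881_B00pm_011_s3

theorem t3535_B00pm_011_s3 : ∃ t, chk3 f_B00pm_011_s3 t 1907 2001 81 = true := ex3_c t3534_B00pm_011_s3 k1882_B00pm_011_s3

theorem t3536_B00pm_011_s3 : ∃ t, chk3 f_B00pm_011_s3 t 953 2001 81 = true := ex3_a k1877_B00pm_011_s3 t3535_B00pm_011_s3

theorem t3537_B00pm_011_s3 : ∃ t, chk3 f_B00pm_011_s3 t 953 4003 80 = true := ex3_a k1875_B00pm_011_s3 k1876_B00pm_011_s3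

theorem t3538_B00pm_011_s3 : ∃ t, chk3 f_B00pm_011_s3 t 1906 4002 161 = true := ex3_a k1872_B00pm_011_s3 k1873_B00pm_011_s3

theorem t3539_B00pm_011_s3 : ∃ t, chk3 f_B00pm_011_s3 t 1906 4002 80 = true := ex3_c k1871_B00pm_011_s3 t3538_B00pm_011_s3

theorem t3540_B00pm_011_s3 : ∃ t, chk3 f_B00pm_011_s3 t 953 4002 80 = true := ex3_a t3539_B00pm_011_s3 k1874_B00pm_011_s3

theorem t3541_B00pm_011_s3 : ∃ t, chk3 f_B00pm_011_s3 t 953 2001 80 = true := ex3_b t3540_B00pm_011_s3 t3537_B00pm_011_s3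

theorem t3542_B00pm_011_s3 : ∃ t, chk3 f_B00pm_011_s3 t 953 2001 40 = true := ex3_c t3541_B00pm_011_s3 t3536_B00pm_011_s3

theorem t3543_B00pm_011_s3 : ∃ t, chk3 f_B00pm_011_s3 t 953 2000 81 = true := ex3_c k1869_B00pm_011_s3 k1870_B00pm_011_s3

theorem t3544_B00pm_011_s3 : ∃ t, chk3 f_B00pm_011_s3 t 1906 4001 161 = true := ex3_a k1866_B00pm_011_s3 k1867_B00pm_011_s3

theorem t3545_B00pm_011_s3 : ∃ t, chk3 f_B00pm_011_s3 t 1906 4001 80 = true := ex3_c k1865_B00pm_011_s3 t3544_B00pm_011_s3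

theorem t3546_B00pm_011_s3 : ∃ t, chk3 f_B00pm_011_s3 t 953 4001 80 = true := ex3_a t3545_B00pm_011_s3 k1868_B00pm_011_s3

theorem t3547_B00pm_011_s3 : ∃ t, chk3 f_B00pm_011_s3 t 953 2000 80 = true := ex3_b k1864_B00pm_011_s3 t3546_B00pm_011_s3

theorem t3548_B00pm_011_s3 : ∃ t, chk3 f_B00pm_011_s3 t 953 2000 40 = true := ex3_c t3547_B00pm_011_s3 t3543_B00pm_011_s3

theorem t3549_B00pm_011_s3 : ∃ t, chk3 f_B00pm_011_s3 t 953 1000 40 = true := ex3_b t3548_B00pm_011_s3 t3542_B00pm_011_s3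

theorem t3550_B00pm_011_s3 : ∃ t, chk3 f_B00pm_011_s3 t 952 2001 80 = true := ex3_c k1861_B00pm_011_s3 k1862_B00pm_011_s3

theorem t3551_B00pm_011_s3 : ∃ t, chk3 f_B00pm_011_s3 t 952 2001 40 = true := ex3_c t3550_B00pm_011_s3 k1863_B00pm_011_s3

theorem t3552_B00pm_011_s3 : ∃ t, chk3 f_B00pm_011_s3 t 1905 4001 160 = true := ex3_a k1857_B00pm_011_s3 k1858_B00pm_011_s3

theorem t3553_B00pm_011_s3 : ∃ t, chk3 f_B00pm_011_s3 t 1905 4001 80 = true := ex3_c t3552_B00pm_011_s3 k1859_B00pm_011_s3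

theorem t3554_B00pm_011_s3 : ∃ t, chk3 f_B00pm_011_s3 t 1905 4000 80 = true := ex3_c k1855_B00pm_011_s3 k1856_B00pm_011_s3

theorem t3555_B00pm_011_s3 : ∃ t, chk3 f_B00pm_011_s3 t 1905 2000 80 = true := ex3_b t3554_B00pm_011_s3 t3553_B00pm_011_s3

theorem t3556_B00pm_011_s3 : ∃ t, chk3 f_B00pm_011_s3 t 1904 4000 320 = true := ex3_a k1850_B00pm_011_s3 k1851_B00pm_011_s3

theorem t3557_B00pm_011_s3 : ∃ t, chk3 f_B00pm_011_s3 t 1904 4000 160 = true := ex3_c t3556_B00pm_011_s3 k1852_B00pm_011_s3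

theorem t3558_B00pm_011_s3 : ∃ t, chk3 f_B00pm_011_s3 t 1904 2000 160 = true := ex3_b t3557_B00pm_011_s3 k1853_B00pm_011_s3

theorem t3559_B00pm_011_s3 : ∃ t, chk3 f_B00pm_011_s3 t 1904 2000 80 = true := ex3_c t3558_B00pm_011_s3 k1854_B00pm_011_s3

theorem t3560_B00pm_011_s3 : ∃ t, chk3 f_B00pm_011_s3 t 952 2000 80 = true := ex3_a t3559_B00pm_011_s3 t3555_B00pm_011_s3

theorem t3561_B00pm_011_s3 : ∃ t, chk3 f_B00pm_011_s3 t 952 2000 40 = true := ex3_c t3560_B00pm_011_s3 k1860_B00pm_011_s3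

theorem t3562_B00pm_011_s3 : ∃ t, chk3 f_B00pm_011_s3 t 952 1000 40 = true := ex3_b t3561_B00pm_011_s3 t3551_B00pm_011_s3

theorem t3563_B00pm_011_s3 : ∃ t, chk3 f_B00pm_011_s3 t 476 1000 40 = true := ex3_a t3562_B00pm_011_s3 t3549_B00pm_011_s3

theorem t3564_B00pm_011_s3 : ∃ t, chk3 f_B00pm_011_s3 t 476 500 40 = true := ex3_b t3563_B00pm_011_s3 t3531_B00pm_011_s3

theorem t3565_B00pm_011_s3 : ∃ t, chk3 f_B00pm_011_s3 t 238 500 40 = true := ex3_a t3564_B00pm_011_s3 t3526_B00pm_011_s3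

theorem t3566_B00pm_011_s3 : ∃ t, chk3 f_B00pm_011_s3 t 238 250 40 = true := ex3_b t3565_B00pm_011_s3 t3496_B00pm_011_s3

theorem t3567_B00pm_011_s3 : ∃ t, chk3 f_B00pm_011_s3 t 238 125 40 = true := ex3_b t3566_B00pm_011_s3 k1933_B00pm_011_s3

theorem t3568_B00pm_011_s3 : ∃ t, chk3 f_B00pm_011_s3 t 119 125 40 = true := ex3_a t3567_B00pm_011_s3 t3484_B00pm_011_s3

theorem t3569_B00pm_011_s3 : ∃ t, chk3 f_B00pm_011_s3 t 475 500 40 = true := ex3_b k1846_B00pm_011_s3 k1847_B00pm_011_s3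

theorem t3570_B00pm_011_s3 : ∃ t, chk3 f_B00pm_011_s3 t 237 500 40 = true := ex3_a k1845_B00pm_011_s3 t3569_B00pm_011_s3

theorem t3571_B00pm_011_s3 : ∃ t, chk3 f_B00pm_011_s3 t 118 500 40 = true := ex3_a k1844_B00pm_011_s3 t3570_B00pm_011_s3

theorem t3572_B00pm_011_s3 : ∃ t, chk3 f_B00pm_011_s3 t 118 250 40 = true := ex3_b t3571_B00pm_011_s3 k1848_B00pm_011_s3

theorem t3573_B00pm_011_s3 : ∃ t, chk3 f_B00pm_011_s3 t 118 125 40 = true := ex3_b t3572_B00pm_011_s3 k1849_B00pm_011_s3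

theorem t3574_B00pm_011_s3 : ∃ t, chk3 f_B00pm_011_s3 t 59 125 40 = true := ex3_a t3573_B00pm_011_s3 t3568_B00pm_011_s3

theorem t3575_B00pm_011_s3 : ∃ t, chk3 f_B00pm_011_s3 t 237 499 162 = true := ex3_a k1840_B00pm_011_s3 k1841_B00pm_011_s3

theorem t3576_B00pm_011_s3 : ∃ t, chk3 f_B00pm_011_s3 t 237 499 81 = true := ex3_c t3575_B00pm_011_s3 k1842_B00pm_011_s3

theorem t3577_B00pm_011_s3 : ∃ t, chk3 f_B00pm_011_s3 t 237 499 161 = true := ex3_c k1838_B00pm_011_s3 k1839_B00pm_011_s3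

theorem t3578_B00pm_011_s3 : ∃ t, chk3 f_B00pm_011_s3 t 237 999 320 = true := ex3_a k1835_B00pm_011_s3 k1836_B00pm_011_s3

theorem t3579_B00pm_011_s3 : ∃ t, chk3 f_B00pm_011_s3 t 237 499 320 = true := ex3_b k1834_B00pm_011_s3 t3578_B00pm_011_s3

theorem t3580_B00pm_011_s3 : ∃ t, chk3 f_B00pm_011_s3 t 237 499 160 = true := ex3_c t3579_B00pm_011_s3 k1837_B00pm_011_s3

theorem t3581_B00pm_011_s3 : ∃ t, chk3 f_B00pm_011_s3 t 237 499 80 = true := ex3_c t3580_B00pm_011_s3 t3577_B00pm_011_s3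

theorem t3582_B00pm_011_s3 : ∃ t, chk3 f_B00pm_011_s3 t 237 499 40 = true := ex3_c t3581_B00pm_011_s3 t3576_B00pm_011_s3

theorem t3583_B00pm_011_s3 : ∃ t, chk3 f_B00pm_011_s3 t 237 249 40 = true := ex3_b k1833_B00pm_011_s3 t3582_B00pm_011_s3

theorem t3584_B00pm_011_s3 : ∃ t, chk3 f_B00pm_011_s3 t 236 998 40 = true := ex3_a k1830_B00pm_011_s3 k1831_B00pm_011_s3

theorem t3585_B00pm_011_s3 : ∃ t, chk3 f_B00pm_011_s3 t 236 499 40 = true := ex3_b t3584_B00pm_011_s3 k1832_B00pm_011_s3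

theorem t3586_B00pm_011_s3 : ∃ t, chk3 f_B00pm_011_s3 t 236 997 40 = true := ex3_c k1828_B00pm_011_s3 k1829_B00pm_011_s3

theorem t3587_B00pm_011_s3 : ∃ t, chk3 f_B00pm_011_s3 t 236 498 40 = true := ex3_b k1827_B00pm_011_s3 t3586_B00pm_011_s3

theorem t3588_B00pm_011_s3 : ∃ t, chk3 f_B00pm_011_s3 t 236 249 40 = true := ex3_b t3587_B00pm_011_s3 t3585_B00pm_011_s3

theorem t3589_B00pm_011_s3 : ∃ t, chk3 f_B00pm_011_s3 t 118 249 40 = true := ex3_a t3588_B00pm_011_s3 t3583_B00pm_011_s3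

theorem t3590_B00pm_011_s3 : ∃ t, chk3 f_B00pm_011_s3 t 118 124 40 = true := ex3_b k1826_B00pm_011_s3 t3589_B00pm_011_s3

theorem t3591_B00pm_011_s3 : ∃ t, chk3 f_B00pm_011_s3 t 59 124 40 = true := ex3_a t3590_B00pm_011_s3 k1843_B00pm_011_s3

theorem t3592_B00pm_011_s3 : ∃ t, chk3 f_B00pm_011_s3 t 59 62 40 = true := ex3_b t3591_B00pm_011_s3 t3574_B00pm_011_s3

theorem t3593_B00pm_011_s3 : ∃ t, chk3 f_B00pm_011_s3 t 59 62 20 = true := ex3_c t3592_B00pm_011_s3 t3423_B00pm_011_s3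

theorem t3594_B00pm_011_s3 : ∃ t, chk3 f_B00pm_011_s3 t 59 62 10 = true := ex3_c t3593_B00pm_011_s3 t3260_B00pm_011_s3

theorem t3595_B00pm_011_s3 : ∃ t, chk3 f_B00pm_011_s3 t 59 62 5 = true := ex3_c t3594_B00pm_011_s3 t3134_B00pm_011_s3

theorem t3596_B00pm_011_s3 : ∃ t, chk3 f_B00pm_011_s3 t 58 251 5 = true := ex3_a k1824_B00pm_011_s3 k1825_B00pm_011_s3

theorem t3597_B00pm_011_s3 : ∃ t, chk3 f_B00pm_011_s3 t 58 250 10 = true := ex3_a k1821_B00pm_011_s3 k1822_B00pm_011_s3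

theorem t3598_B00pm_011_s3 : ∃ t, chk3 f_B00pm_011_s3 t 58 250 5 = true := ex3_c t3597_B00pm_011_s3 k1823_B00pm_011_s3

theorem t3599_B00pm_011_s3 : ∃ t, chk3 f_B00pm_011_s3 t 58 125 5 = true := ex3_b t3598_B00pm_011_s3 t3596_B00pm_011_s3

theorem t3600_B00pm_011_s3 : ∃ t, chk3 f_B00pm_011_s3 t 471 1992 11 = true := ex3_a k1816_B00pm_011_s3 k1817_B00pm_011_s3

theorem t3601_B00pm_011_s3 : ∃ t, chk3 f_B00pm_011_s3 t 471 996 11 = true := ex3_b t3600_B00pm_011_s3 k1818_B00pm_011_s3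

theorem t3602_B00pm_011_s3 : ∃ t, chk3 f_B00pm_011_s3 t 235 996 11 = true := ex3_a k1815_B00pm_011_s3 t3601_B00pm_011_s3

theorem t3603_B00pm_011_s3 : ∃ t, chk3 f_B00pm_011_s3 t 235 498 11 = true := ex3_b t3602_B00pm_011_s3 k1819_B00pm_011_s3

theorem t3604_B00pm_011_s3 : ∃ t, chk3 f_B00pm_011_s3 t 235 249 11 = true := ex3_b t3603_B00pm_011_s3 k1820_B00pm_011_s3

theorem t3605_B00pm_011_s3 : ∃ t, chk3 f_B00pm_011_s3 t 470 995 11 = true := ex3_a k1812_B00pm_011_s3 k1813_B00pm_011_s3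

theorem t3606_B00pm_011_s3 : ∃ t, chk3 f_B00pm_011_s3 t 470 497 11 = true := ex3_b k1811_B00pm_011_s3 t3605_B00pm_011_s3

theorem t3607_B00pm_011_s3 : ∃ t, chk3 f_B00pm_011_s3 t 470 248 11 = true := ex3_b k1810_B00pm_011_s3 t3606_B00pm_011_s3

theorem t3608_B00pm_011_s3 : ∃ t, chk3 f_B00pm_011_s3 t 235 248 11 = true := ex3_a t3607_B00pm_011_s3 k1814_B00pm_011_s3

theorem t3609_B00pm_011_s3 : ∃ t, chk3 f_B00pm_011_s3 t 235 124 11 = true := ex3_b t3608_B00pm_011_s3 t3604_B00pm_011_s3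

theorem t3610_B00pm_011_s3 : ∃ t, chk3 f_B00pm_011_s3 t 469 124 11 = true := ex3_a k1808_B00pm_011_s3 k1809_B00pm_011_s3

theorem t3611_B00pm_011_s3 : ∃ t, chk3 f_B00pm_011_s3 t 468 497 11 = true := ex3_b k1805_B00pm_011_s3 k1806_B00pm_011_s3

theorem t3612_B00pm_011_s3 : ∃ t, chk3 f_B00pm_011_s3 t 468 248 11 = true := ex3_b k1804_B00pm_011_s3 t3611_B00pm_011_s3

theorem t3613_B00pm_011_s3 : ∃ t, chk3 f_B00pm_011_s3 t 468 124 11 = true := ex3_b t3612_B00pm_011_s3 k1807_B00pm_011_s3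

theorem t3614_B00pm_011_s3 : ∃ t, chk3 f_B00pm_011_s3 t 234 124 11 = true := ex3_a t3613_B00pm_011_s3 t3610_B00pm_011_s3

theorem t3615_B00pm_011_s3 : ∃ t, chk3 f_B00pm_011_s3 t 117 124 11 = true := ex3_a t3614_B00pm_011_s3 t3609_B00pm_011_s3

theorem t3616_B00pm_011_s3 : ∃ t, chk3 f_B00pm_011_s3 t 235 996 42 = true := ex3_a k1799_B00pm_011_s3 k1800_B00pm_011_s3

theorem t3617_B00pm_011_s3 : ∃ t, chk3 f_B00pm_011_s3 t 235 498 42 = true := ex3_b t3616_B00pm_011_s3 k1801_B00pm_011_s3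

theorem t3618_B00pm_011_s3 : ∃ t, chk3 f_B00pm_011_s3 t 235 498 21 = true := ex3_c t3617_B00pm_011_s3 k1802_B00pm_011_s3

theorem t3619_B00pm_011_s3 : ∃ t, chk3 f_B00pm_011_s3 t 235 249 21 = true := ex3_b t3618_B00pm_011_s3 k1803_B00pm_011_s3

theorem t3620_B00pm_011_s3 : ∃ t, chk3 f_B00pm_011_s3 t 470 497 21 = true := ex3_c k1796_B00pm_011_s3 k1797_B00pm_011_s3

theorem t3621_B00pm_011_s3 : ∃ t, chk3 f_B00pm_011_s3 t 470 248 21 = true := ex3_b k1795_B00pm_011_s3 t3620_B00pm_011_s3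

theorem t3622_B00pm_011_s3 : ∃ t, chk3 f_B00pm_011_s3 t 235 248 21 = true := ex3_a t3621_B00pm_011_s3 k1798_B00pm_011_s3

theorem t3623_B00pm_011_s3 : ∃ t, chk3 f_B00pm_011_s3 t 235 124 21 = true := ex3_b t3622_B00pm_011_s3 t3619_B00pm_011_s3

theorem t3624_B00pm_011_s3 : ∃ t, chk3 f_B00pm_011_s3 t 469 124 42 = true := ex3_a k1792_B00pm_011_s3 k1793_B00pm_011_s3

theorem t3625_B00pm_011_s3 : ∃ t, chk3 f_B00pm_011_s3 t 469 124 21 = true := ex3_c t3624_B00pm_011_s3 k1794_B00pm_011_s3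

theorem t3626_B00pm_011_s3 : ∃ t, chk3 f_B00pm_011_s3 t 468 994 21 = true := ex3_c k1788_B00pm_011_s3 k1789_B00pm_011_s3

theorem t3627_B00pm_011_s3 : ∃ t, chk3 f_B00pm_011_s3 t 468 497 21 = true := ex3_b t3626_B00pm_011_s3 k1790_B00pm_011_s3

theorem t3628_B00pm_011_s3 : ∃ t, chk3 f_B00pm_011_s3 t 468 248 21 = true := ex3_b k1787_B00pm_011_s3 t3627_B00pm_011_s3

theorem t3629_B00pm_011_s3 : ∃ t, chk3 f_B00pm_011_s3 t 468 124 21 = true := ex3_b t3628_B00pm_011_s3 k1791_B00pm_011_s3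

theorem t3630_B00pm_011_s3 : ∃ t, chk3 f_B00pm_011_s3 t 234 124 21 = true := ex3_a t3629_B00pm_011_s3 t3625_B00pm_011_s3

theorem t3631_B00pm_011_s3 : ∃ t, chk3 f_B00pm_011_s3 t 117 124 21 = true := ex3_a t3630_B00pm_011_s3 t3623_B00pm_011_s3

theorem t3632_B00pm_011_s3 : ∃ t, chk3 f_B00pm_011_s3 t 943 1993 20 = true := ex3_b k1783_B00pm_011_s3 k1784_B00pm_011_s3

theorem t3633_B00pm_011_s3 : ∃ t, chk3 f_B00pm_011_s3 t 471 1993 20 = true := ex3_a k1782_B00pm_011_s3 t3632_B00pm_011_s3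

theorem t3634_B00pm_011_s3 : ∃ t, chk3 f_B00pm_011_s3 t 942 1992 20 = true := ex3_a k1779_B00pm_011_s3 k1780_B00pm_011_s3

theorem t3635_B00pm_011_s3 : ∃ t, chk3 f_B00pm_011_s3 t 471 1992 20 = true := ex3_a t3634_B00pm_011_s3 k1781_B00pm_011_s3

theorem t3636_B00pm_011_s3 : ∃ t, chk3 f_B00pm_011_s3 t 471 996 20 = true := ex3_b t3635_B00pm_011_s3 t3633_B00pm_011_s3

theorem t3637_B00pm_011_s3 : ∃ t, chk3 f_B00pm_011_s3 t 235 996 20 = true := ex3_a k1778_B00pm_011_s3 t3636_B00pm_011_s3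

theorem t3638_B00pm_011_s3 : ∃ t, chk3 f_B00pm_011_s3 t 235 498 20 = true := ex3_b t3637_B00pm_011_s3 k1785_B00pm_011_s3

theorem t3639_B00pm_011_s3 : ∃ t, chk3 f_B00pm_011_s3 t 235 249 20 = true := ex3_b t3638_B00pm_011_s3 k1786_B00pm_011_s3

theorem t3640_B00pm_011_s3 : ∃ t, chk3 f_B00pm_011_s3 t 940 995 20 = true := ex3_b k1774_B00pm_011_s3 k1775_B00pm_011_s3

theorem t3641_B00pm_011_s3 : ∃ t, chk3 f_B00pm_011_s3 t 940 497 20 = true := ex3_b k1773_B00pm_011_s3 t3640_B00pm_011_s3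

theorem t3642_B00pm_011_s3 : ∃ t, chk3 f_B00pm_011_s3 t 470 497 20 = true := ex3_a t3641_B00pm_011_s3 k1776_B00pm_011_s3

theorem t3643_B00pm_011_s3 : ∃ t, chk3 f_B00pm_011_s3 t 470 248 20 = true := ex3_b k1772_B00pm_011_s3 t3642_B00pm_011_s3

theorem t3644_B00pm_011_s3 : ∃ t, chk3 f_B00pm_011_s3 t 235 248 20 = true := ex3_a t3643_B00pm_011_s3 k1777_B00pm_011_s3

theorem t3645_B00pm_011_s3 : ∃ t, chk3 f_B00pm_011_s3 t 235 124 20 = true := ex3_b t3644_B00pm_011_s3 t3639_B00pm_011_s3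

theorem t3646_B00pm_011_s3 : ∃ t, chk3 f_B00pm_011_s3 t 469 124 40 = true := ex3_a k1769_B00pm_011_s3 k1770_B00pm_011_s3

theorem t3647_B00pm_011_s3 : ∃ t, chk3 f_B00pm_011_s3 t 469 124 20 = true := ex3_c t3646_B00pm_011_s3 k1771_B00pm_011_s3

theorem t3648_B00pm_011_s3 : ∃ t, chk3 f_B00pm_011_s3 t 468 1988 20 = true := ex3_a k1764_B00pm_011_s3 k1765_B00pm_011_s3

theorem t3649_B00pm_011_s3 : ∃ t, chk3 f_B00pm_011_s3 t 468 994 20 = true := ex3_b t3648_B00pm_011_s3 k1766_B00pm_011_s3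

theorem t3650_B00pm_011_s3 : ∃ t, chk3 f_B00pm_011_s3 t 468 497 20 = true := ex3_b t3649_B00pm_011_s3 k1767_B00pm_011_s3

theorem t3651_B00pm_011_s3 : ∃ t, chk3 f_B00pm_011_s3 t 468 248 20 = true := ex3_b k1763_B00pm_011_s3 t3650_B00pm_011_s3

theorem t3652_B00pm_011_s3 : ∃ t, chk3 f_B00pm_011_s3 t 468 124 20 = true := ex3_b t3651_B00pm_011_s3 k1768_B00pm_011_s3

theorem t3653_B00pm_011_s3 : ∃ t, chk3 f_B00pm_011_s3 t 234 124 20 = true := ex3_a t3652_B00pm_011_s3 t3647_B00pm_011_s3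

theorem t3654_B00pm_011_s3 : ∃ t, chk3 f_B00pm_011_s3 t 117 124 20 = true := ex3_a t3653_B00pm_011_s3 t3645_B00pm_011_s3

theorem t3655_B00pm_011_s3 : ∃ t, chk3 f_B00pm_011_s3 t 117 124 10 = true := ex3_c t3654_B00pm_011_s3 t3631_B00pm_011_s3

theorem t3656_B00pm_011_s3 : ∃ t, chk3 f_B00pm_011_s3 t 117 124 5 = true := ex3_c t3655_B00pm_011_s3 t3615_B00pm_011_s3

theorem t3657_B00pm_011_s3 : ∃ t, chk3 f_B00pm_011_s3 t 467 993 11 = true := ex3_b k1759_B00pm_011_s3 k1760_B00pm_011_s3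

theorem t3658_B00pm_011_s3 : ∃ t, chk3 f_B00pm_011_s3 t 467 496 11 = true := ex3_b k1758_B00pm_011_s3 t3657_B00pm_011_s3

theorem t3659_B00pm_011_s3 : ∃ t, chk3 f_B00pm_011_s3 t 467 248 11 = true := ex3_b t3658_B00pm_011_s3 k1761_B00pm_011_s3

theorem t3660_B00pm_011_s3 : ∃ t, chk3 f_B00pm_011_s3 t 233 248 11 = true := ex3_a k1757_B00pm_011_s3 t3659_B00pm_011_s3

theorem t3661_B00pm_011_s3 : ∃ t, chk3 f_B00pm_011_s3 t 116 248 11 = true := ex3_a k1756_B00pm_011_s3 t3660_B00pm_011_s3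

theorem t3662_B00pm_011_s3 : ∃ t, chk3 f_B00pm_011_s3 t 116 124 11 = true := ex3_b t3661_B00pm_011_s3 k1762_B00pm_011_s3

theorem t3663_B00pm_011_s3 : ∃ t, chk3 f_B00pm_011_s3 t 467 993 21 = true := ex3_c k1752_B00pm_011_s3 k1753_B00pm_011_s3

theorem t3664_B00pm_011_s3 : ∃ t, chk3 f_B00pm_011_s3 t 467 496 21 = true := ex3_b k1751_B00pm_011_s3 t3663_B00pm_011_s3

theorem t3665_B00pm_011_s3 : ∃ t, chk3 f_B00pm_011_s3 t 467 248 21 = true := ex3_b t3664_B00pm_011_s3 k1754_B00pm_011_s3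

theorem t3666_B00pm_011_s3 : ∃ t, chk3 f_B00pm_011_s3 t 233 248 21 = true := ex3_a k1750_B00pm_011_s3 t3665_B00pm_011_s3

theorem t3667_B00pm_011_s3 : ∃ t, chk3 f_B00pm_011_s3 t 116 248 21 = true := ex3_a k1749_B00pm_011_s3 t3666_B00pm_011_s3

theorem t3668_B00pm_011_s3 : ∃ t, chk3 f_B00pm_011_s3 t 116 124 21 = true := ex3_b t3667_B00pm_011_s3 k1755_B00pm_011_s3

theorem t3669_B00pm_011_s3 : ∃ t, chk3 f_B00pm_011_s3 t 467 993 20 = true := ex3_b k1745_B00pm_011_s3 k1746_B00pm_011_s3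

theorem t3670_B00pm_011_s3 : ∃ t, chk3 f_B00pm_011_s3 t 467 496 20 = true := ex3_b k1744_B00pm_011_s3 t3669_B00pm_011_s3

theorem t3671_B00pm_011_s3 : ∃ t, chk3 f_B00pm_011_s3 t 467 248 20 = true := ex3_b t3670_B00pm_011_s3 k1747_B00pm_011_s3

theorem t3672_B00pm_011_s3 : ∃ t, chk3 f_B00pm_011_s3 t 466 992 20 = true := ex3_a k1740_B00pm_011_s3 k1741_B00pm_011_s3

theorem t3673_B00pm_011_s3 : ∃ t, chk3 f_B00pm_011_s3 t 466 496 20 = true := ex3_b t3672_B00pm_011_s3 k1742_B00pm_011_s3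

theorem t3674_B00pm_011_s3 : ∃ t, chk3 f_B00pm_011_s3 t 466 248 20 = true := ex3_b t3673_B00pm_011_s3 k1743_B00pm_011_s3

theorem t3675_B00pm_011_s3 : ∃ t, chk3 f_B00pm_011_s3 t 233 248 20 = true := ex3_a t3674_B00pm_011_s3 t3671_B00pm_011_s3

theorem t3676_B00pm_011_s3 : ∃ t, chk3 f_B00pm_011_s3 t 465 992 20 = true := ex3_a k1736_B00pm_011_s3 k1737_B00pm_011_s3

theorem t3677_B00pm_011_s3 : ∃ t, chk3 f_B00pm_011_s3 t 465 496 20 = true := ex3_b t3676_B00pm_011_s3 k1738_B00pm_011_s3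

theorem t3678_B00pm_011_s3 : ∃ t, chk3 f_B00pm_011_s3 t 232 496 20 = true := ex3_a k1735_B00pm_011_s3 t3677_B00pm_011_s3

theorem t3679_B00pm_011_s3 : ∃ t, chk3 f_B00pm_011_s3 t 232 248 20 = true := ex3_b t3678_B00pm_011_s3 k1739_B00pm_011_s3

theorem t3680_B00pm_011_s3 : ∃ t, chk3 f_B00pm_011_s3 t 116 248 20 = true := ex3_a t3679_B00pm_011_s3 t3675_B00pm_011_s3

theorem t3681_B00pm_011_s3 : ∃ t, chk3 f_B00pm_011_s3 t 116 124 20 = true := ex3_b t3680_B00pm_011_s3 k1748_B00pm_011_s3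

theorem t3682_B00pm_011_s3 : ∃ t, chk3 f_B00pm_011_s3 t 116 124 10 = true := ex3_c t3681_B00pm_011_s3 t3668_B00pm_011_s3

theorem t3683_B00pm_011_s3 : ∃ t, chk3 f_B00pm_011_s3 t 116 124 5 = true := ex3_c t3682_B00pm_011_s3 t3662_B00pm_011_s3

theorem t3684_B00pm_011_s3 : ∃ t, chk3 f_B00pm_011_s3 t 58 124 5 = true := ex3_a t3683_B00pm_011_s3 t3656_B00pm_011_s3

theorem t3685_B00pm_011_s3 : ∃ t, chk3 f_B00pm_011_s3 t 58 62 5 = true := ex3_b t3684_B00pm_011_s3 t3599_B00pm_011_s3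

theorem t3686_B00pm_011_s3 : ∃ t, chk3 f_B00pm_011_s3 t 29 62 5 = true := ex3_a t3685_B00pm_011_s3 t3595_B00pm_011_s3

theorem t3687_B00pm_011_s3 : ∃ t, chk3 f_B00pm_011_s3 t 959 503 79 = true := ex3_a k1733_B00pm_011_s3 k1734_B00pm_011_s3

theorem t3688_B00pm_011_s3 : ∃ t, chk3 f_B00pm_011_s3 t 959 503 39 = true := ex3_c k1732_B00pm_011_s3 t3687_B00pm_011_s3

theorem t3689_B00pm_011_s3 : ∃ t, chk3 f_B00pm_011_s3 t 958 503 79 = true := ex3_b k1730_B00pm_011_s3 k1731_B00pm_011_s3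

theorem t3690_B00pm_011_s3 : ∃ t, chk3 f_B00pm_011_s3 t 958 503 39 = true := ex3_c k1729_B00pm_011_s3 t3689_B00pm_011_s3

theorem t3691_B00pm_011_s3 : ∃ t, chk3 f_B00pm_011_s3 t 479 503 39 = true := ex3_a t3690_B00pm_011_s3 t3688_B00pm_011_s3

theorem t3692_B00pm_011_s3 : ∃ t, chk3 f_B00pm_011_s3 t 479 503 19 = true := ex3_c k1728_B00pm_011_s3 t3691_B00pm_011_s3

theorem t3693_B00pm_011_s3 : ∃ t, chk3 f_B00pm_011_s3 t 957 1006 39 = true := ex3_c k1725_B00pm_011_s3 k1726_B00pm_011_s3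

theorem t3694_B00pm_011_s3 : ∃ t, chk3 f_B00pm_011_s3 t 478 1006 39 = true := ex3_a k1724_B00pm_011_s3 t3693_B00pm_011_s3

theorem t3695_B00pm_011_s3 : ∃ t, chk3 f_B00pm_011_s3 t 478 503 39 = true := ex3_b t3694_B00pm_011_s3 k1727_B00pm_011_s3

theorem t3696_B00pm_011_s3 : ∃ t, chk3 f_B00pm_011_s3 t 478 1007 38 = true := ex3_a k1722_B00pm_011_s3 k1723_B00pm_011_s3

theorem t3697_B00pm_011_s3 : ∃ t, chk3 f_B00pm_011_s3 t 478 503 38 = true := ex3_b k1721_B00pm_011_s3 t3696_B00pm_011_s3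

theorem t3698_B00pm_011_s3 : ∃ t, chk3 f_B00pm_011_s3 t 478 503 19 = true := ex3_c t3697_B00pm_011_s3 t3695_B00pm_011_s3

theorem t3699_B00pm_011_s3 : ∃ t, chk3 f_B00pm_011_s3 t 239 503 19 = true := ex3_a t3698_B00pm_011_s3 t3692_B00pm_011_s3

theorem t3700_B00pm_011_s3 : ∃ t, chk3 f_B00pm_011_s3 t 239 503 37 = true := ex3_a k1719_B00pm_011_s3 k1720_B00pm_011_s3

theorem t3701_B00pm_011_s3 : ∃ t, chk3 f_B00pm_011_s3 t 479 503 36 = true := ex3_b k1717_B00pm_011_s3 k1718_B00pm_011_s3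

theorem t3702_B00pm_011_s3 : ∃ t, chk3 f_B00pm_011_s3 t 239 503 36 = true := ex3_a k1716_B00pm_011_s3 t3701_B00pm_011_s3

theorem t3703_B00pm_011_s3 : ∃ t, chk3 f_B00pm_011_s3 t 239 503 18 = true := ex3_c t3702_B00pm_011_s3 t3700_B00pm_011_s3

theorem t3704_B00pm_011_s3 : ∃ t, chk3 f_B00pm_011_s3 t 239 503 9 = true := ex3_c t3703_B00pm_011_s3 t3699_B00pm_011_s3

theorem t3705_B00pm_011_s3 : ∃ t, chk3 f_B00pm_011_s3 t 479 1005 39 = true := ex3_a k1714_B00pm_011_s3 k1715_B00pm_011_s3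

theorem t3706_B00pm_011_s3 : ∃ t, chk3 f_B00pm_011_s3 t 479 1005 19 = true := ex3_c k1713_B00pm_011_s3 t3705_B00pm_011_s3

theorem t3707_B00pm_011_s3 : ∃ t, chk3 f_B00pm_011_s3 t 959 1004 79 = true := ex3_a k1711_B00pm_011_s3 k1712_B00pm_011_s3

theorem t3708_B00pm_011_s3 : ∃ t, chk3 f_B00pm_011_s3 t 959 1004 39 = true := ex3_c k1710_B00pm_011_s3 t3707_B00pm_011_s3

theorem t3709_B00pm_011_s3 : ∃ t, chk3 f_B00pm_011_s3 t 479 1004 39 = true := ex3_a k1709_B00pm_011_s3 t3708_B00pm_011_s3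

theorem t3710_B00pm_011_s3 : ∃ t, chk3 f_B00pm_011_s3 t 959 1004 77 = true := ex3_b k1707_B00pm_011_s3 k1708_B00pm_011_s3

theorem t3711_B00pm_011_s3 : ∃ t, chk3 f_B00pm_011_s3 t 959 1004 76 = true := ex3_b k1705_B00pm_011_s3 k1706_B00pm_011_s3

theorem t3712_B00pm_011_s3 : ∃ t, chk3 f_B00pm_011_s3 t 959 1004 38 = true := ex3_c t3711_B00pm_011_s3 t3710_B00pm_011_s3

theorem t3713_B00pm_011_s3 : ∃ t, chk3 f_B00pm_011_s3 t 479 1004 38 = true := ex3_a k1704_B00pm_011_s3 t3712_B00pm_011_s3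

theorem t3714_B00pm_011_s3 : ∃ t, chk3 f_B00pm_011_s3 t 479 1004 19 = true := ex3_c t3713_B00pm_011_s3 t3709_B00pm_011_s3

theorem t3715_B00pm_011_s3 : ∃ t, chk3 f_B00pm_011_s3 t 479 502 19 = true := ex3_b t3714_B00pm_011_s3 t3706_B00pm_011_s3

theorem t3716_B00pm_011_s3 : ∃ t, chk3 f_B00pm_011_s3 t 957 1005 39 = true := ex3_c k1702_B00pm_011_s3 k1703_B00pm_011_s3

theorem t3717_B00pm_011_s3 : ∃ t, chk3 f_B00pm_011_s3 t 956 1005 39 = true := ex3_c k1700_B00pm_011_s3 k1701_B00pm_011_s3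

theorem t3718_B00pm_011_s3 : ∃ t, chk3 f_B00pm_011_s3 t 478 1005 39 = true := ex3_a t3717_B00pm_011_s3 t3716_B00pm_011_s3

theorem t3719_B00pm_011_s3 : ∃ t, chk3 f_B00pm_011_s3 t 478 1004 39 = true := ex3_a k1698_B00pm_011_s3 k1699_B00pm_011_s3

theorem t3720_B00pm_011_s3 : ∃ t, chk3 f_B00pm_011_s3 t 478 502 39 = true := ex3_b t3719_B00pm_011_s3 t3718_B00pm_011_s3

theorem t3721_B00pm_011_s3 : ∃ t, chk3 f_B00pm_011_s3 t 478 502 19 = true := ex3_c k1697_B00pm_011_s3 t3720_B00pm_011_s3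

theorem t3722_B00pm_011_s3 : ∃ t, chk3 f_B00pm_011_s3 t 239 502 19 = true := ex3_a t3721_B00pm_011_s3 t3715_B00pm_011_s3

theorem t3723_B00pm_011_s3 : ∃ t, chk3 f_B00pm_011_s3 t 479 1005 37 = true := ex3_a k1695_B00pm_011_s3 k1696_B00pm_011_s3

theorem t3724_B00pm_011_s3 : ∃ t, chk3 f_B00pm_011_s3 t 479 1005 18 = true := ex3_c k1694_B00pm_011_s3 t3723_B00pm_011_s3

theorem t3725_B00pm_011_s3 : ∃ t, chk3 f_B00pm_011_s3 t 478 1005 18 = true := ex3_c k1692_B00pm_011_s3 k1693_B00pm_011_s3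

theorem t3726_B00pm_011_s3 : ∃ t, chk3 f_B00pm_011_s3 t 239 1005 18 = true := ex3_a t3725_B00pm_011_s3 t3724_B00pm_011_s3

theorem t3727_B00pm_011_s3 : ∃ t, chk3 f_B00pm_011_s3 t 479 1004 18 = true := ex3_c k1690_B00pm_011_s3 k1691_B00pm_011_s3

theorem t3728_B00pm_011_s3 : ∃ t, chk3 f_B00pm_011_s3 t 478 1004 37 = true := ex3_a k1688_B00pm_011_s3 k1689_B00pm_011_s3

theorem t3729_B00pm_011_s3 : ∃ t, chk3 f_B00pm_011_s3 t 478 1004 18 = true := ex3_c k1687_B00pm_011_s3 t3728_B00pm_011_s3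

theorem t3730_B00pm_011_s3 : ∃ t, chk3 f_B00pm_011_s3 t 239 1004 18 = true := ex3_a t3729_B00pm_011_s3 t3727_B00pm_011_s3

theorem t3731_B00pm_011_s3 : ∃ t, chk3 f_B00pm_011_s3 t 239 502 18 = true := ex3_b t3730_B00pm_011_s3 t3726_B00pm_011_s3

theorem t3732_B00pm_011_s3 : ∃ t, chk3 f_B00pm_011_s3 t 239 502 9 = true := ex3_c t3731_B00pm_011_s3 t3722_B00pm_011_s3

theorem t3733_B00pm_011_s3 : ∃ t, chk3 f_B00pm_011_s3 t 239 251 9 = true := ex3_b t3732_B00pm_011_s3 t3704_B00pm_011_s3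

theorem t3734_B00pm_011_s3 : ∃ t, chk3 f_B00pm_011_s3 t 3839 1003 319 = true := ex3_b k1685_B00pm_011_s3 k1686_B00pm_011_s3

theorem t3735_B00pm_011_s3 : ∃ t, chk3 f_B00pm_011_s3 t 3839 1003 159 = true := ex3_c k1684_B00pm_011_s3 t3734_B00pm_011_s3

theorem t3736_B00pm_011_s3 : ∃ t, chk3 f_B00pm_011_s3 t 1919 1003 159 = true := ex3_a k1683_B00pm_011_s3 t3735_B00pm_011_s3

theorem t3737_B00pm_011_s3 : ∃ t, chk3 f_B00pm_011_s3 t 959 1003 159 = true := ex3_a k1682_B00pm_011_s3 t3736_B00pm_011_s3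

theorem t3738_B00pm_011_s3 : ∃ t, chk3 f_B00pm_011_s3 t 479 1003 159 = true := ex3_a k1681_B00pm_011_s3 t3737_B00pm_011_s3

theorem t3739_B00pm_011_s3 : ∃ t, chk3 f_B00pm_011_s3 t 1919 4011 159 = true := ex3_a k1679_B00pm_011_s3 k1680_B00pm_011_s3

theorem t3740_B00pm_011_s3 : ∃ t, chk3 f_B00pm_011_s3 t 3839 4010 159 = true := ex3_b k1677_B00pm_011_s3 k1678_B00pm_011_s3

theorem t3741_B00pm_011_s3 : ∃ t, chk3 f_B00pm_011_s3 t 3838 4010 159 = true := ex3_c k1675_B00pm_011_s3 k1676_B00pm_011_s3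

theorem t3742_B00pm_011_s3 : ∃ t, chk3 f_B00pm_011_s3 t 1919 4010 159 = true := ex3_a t3741_B00pm_011_s3 t3740_B00pm_011_s3

theorem t3743_B00pm_011_s3 : ∃ t, chk3 f_B00pm_011_s3 t 1919 2005 159 = true := ex3_b t3742_B00pm_011_s3 t3739_B00pm_011_s3

theorem t3744_B00pm_011_s3 : ∃ t, chk3 f_B00pm_011_s3 t 1918 2005 159 = true := ex3_b k1673_B00pm_011_s3 k1674_B00pm_011_s3

theorem t3745_B00pm_011_s3 : ∃ t, chk3 f_B00pm_011_s3 t 959 2005 159 = true := ex3_a t3744_B00pm_011_s3 t3743_B00pm_011_s3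

theorem t3746_B00pm_011_s3 : ∃ t, chk3 f_B00pm_011_s3 t 479 2005 159 = true := ex3_a k1672_B00pm_011_s3 t3745_B00pm_011_s3

theorem t3747_B00pm_011_s3 : ∃ t, chk3 f_B00pm_011_s3 t 959 2004 159 = true := ex3_a k1670_B00pm_011_s3 k1671_B00pm_011_s3

theorem t3748_B00pm_011_s3 : ∃ t, chk3 f_B00pm_011_s3 t 479 2004 159 = true := ex3_a k1669_B00pm_011_s3 t3747_B00pm_011_s3

theorem t3749_B00pm_011_s3 : ∃ t, chk3 f_B00pm_011_s3 t 479 1002 159 = true := ex3_b t3748_B00pm_011_s3 t3746_B00pm_011_s3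

theorem t3750_B00pm_011_s3 : ∃ t, chk3 f_B00pm_011_s3 t 479 501 159 = true := ex3_b t3749_B00pm_011_s3 t3738_B00pm_011_s3

theorem t3751_B00pm_011_s3 : ∃ t, chk3 f_B00pm_011_s3 t 479 250 159 = true := ex3_b k1668_B00pm_011_s3 t3750_B00pm_011_s3

theorem t3752_B00pm_011_s3 : ∃ t, chk3 f_B00pm_011_s3 t 479 1003 317 = true := ex3_a k1666_B00pm_011_s3 k1667_B00pm_011_s3

theorem t3753_B00pm_011_s3 : ∃ t, chk3 f_B00pm_011_s3 t 3839 4010 317 = true := ex3_b k1663_B00pm_011_s3 k1664_B00pm_011_s3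

theorem t3754_B00pm_011_s3 : ∃ t, chk3 f_B00pm_011_s3 t 1919 4010 317 = true := ex3_a k1662_B00pm_011_s3 t3753_B00pm_011_s3

theorem t3755_B00pm_011_s3 : ∃ t, chk3 f_B00pm_011_s3 t 1919 2005 317 = true := ex3_b t3754_B00pm_011_s3 k1665_B00pm_011_s3

theorem t3756_B00pm_011_s3 : ∃ t, chk3 f_B00pm_011_s3 t 1918 2005 317 = true := ex3_a k1660_B00pm_011_s3 k1661_B00pm_011_s3

theorem t3757_B00pm_011_s3 : ∃ t, chk3 f_B00pm_011_s3 t 959 2005 317 = true := ex3_a t3756_B00pm_011_s3 t3755_B00pm_011_s3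

theorem t3758_B00pm_011_s3 : ∃ t, chk3 f_B00pm_011_s3 t 1918 4009 317 = true := ex3_a k1657_B00pm_011_s3 k1658_B00pm_011_s3

theorem t3759_B00pm_011_s3 : ∃ t, chk3 f_B00pm_011_s3 t 1918 2004 317 = true := ex3_b k1656_B00pm_011_s3 t3758_B00pm_011_s3

theorem t3760_B00pm_011_s3 : ∃ t, chk3 f_B00pm_011_s3 t 959 2004 317 = true := ex3_a t3759_B00pm_011_s3 k1659_B00pm_011_s3

theorem t3761_B00pm_011_s3 : ∃ t, chk3 f_B00pm_011_s3 t 959 1002 317 = true := ex3_b t3760_B00pm_011_s3 t3757_B00pm_011_s3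

theorem t3762_B00pm_011_s3 : ∃ t, chk3 f_B00pm_011_s3 t 479 1002 317 = true := ex3_a k1655_B00pm_011_s3 t3761_B00pm_011_s3

theorem t3763_B00pm_011_s3 : ∃ t, chk3 f_B00pm_011_s3 t 479 501 317 = true := ex3_b t3762_B00pm_011_s3 t3752_B00pm_011_s3

theorem t3764_B00pm_011_s3 : ∃ t, chk3 f_B00pm_011_s3 t 479 250 317 = true := ex3_b k1654_B00pm_011_s3 t3763_B00pm_011_s3

theorem t3765_B00pm_011_s3 : ∃ t, chk3 f_B00pm_011_s3 t 479 1003 316 = true := ex3_a k1652_B00pm_011_s3 k1653_B00pm_011_s3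

theorem t3766_B00pm_011_s3 : ∃ t, chk3 f_B00pm_011_s3 t 3838 4010 316 = true := ex3_b k1648_B00pm_011_s3 k1649_B00pm_011_s3

theorem t3767_B00pm_011_s3 : ∃ t, chk3 f_B00pm_011_s3 t 1919 4010 316 = true := ex3_a t3766_B00pm_011_s3 k1650_B00pm_011_s3

theorem t3768_B00pm_011_s3 : ∃ t, chk3 f_B00pm_011_s3 t 1919 2005 316 = true := ex3_b t3767_B00pm_011_s3 k1651_B00pm_011_s3

theorem t3769_B00pm_011_s3 : ∃ t, chk3 f_B00pm_011_s3 t 959 2005 316 = true := ex3_a k1647_B00pm_011_s3 t3768_B00pm_011_s3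

theorem t3770_B00pm_011_s3 : ∃ t, chk3 f_B00pm_011_s3 t 959 2004 316 = true := ex3_a k1645_B00pm_011_s3 k1646_B00pm_011_s3

theorem t3771_B00pm_011_s3 : ∃ t, chk3 f_B00pm_011_s3 t 959 1002 316 = true := ex3_b t3770_B00pm_011_s3 t3769_B00pm_011_s3

theorem t3772_B00pm_011_s3 : ∃ t, chk3 f_B00pm_011_s3 t 1917 2005 316 = true := ex3_a k1643_B00pm_011_s3 k1644_B00pm_011_s3

theorem t3773_B00pm_011_s3 : ∃ t, chk3 f_B00pm_011_s3 t 958 2005 316 = true := ex3_a k1642_B00pm_011_s3 t3772_B00pm_011_s3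

theorem t3774_B00pm_011_s3 : ∃ t, chk3 f_B00pm_011_s3 t 1917 4009 316 = true := ex3_a k1640_B00pm_011_s3 k1641_B00pm_011_s3

theorem t3775_B00pm_011_s3 : ∃ t, chk3 f_B00pm_011_s3 t 958 4009 316 = true := ex3_a k1639_B00pm_011_s3 t3774_B00pm_011_s3

theorem t3776_B00pm_011_s3 : ∃ t, chk3 f_B00pm_011_s3 t 958 2004 316 = true := ex3_b k1638_B00pm_011_s3 t3775_B00pm_011_s3

theorem t3777_B00pm_011_s3 : ∃ t, chk3 f_B00pm_011_s3 t 958 1002 316 = true := ex3_b t3776_B00pm_011_s3 t3773_B00pm_011_s3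

theorem t3778_B00pm_011_s3 : ∃ t, chk3 f_B00pm_011_s3 t 479 1002 316 = true := ex3_a t3777_B00pm_011_s3 t3771_B00pm_011_s3

theorem t3779_B00pm_011_s3 : ∃ t, chk3 f_B00pm_011_s3 t 479 501 316 = true := ex3_b t3778_B00pm_011_s3 t3765_B00pm_011_s3

theorem t3780_B00pm_011_s3 : ∃ t, chk3 f_B00pm_011_s3 t 479 250 316 = true := ex3_b k1637_B00pm_011_s3 t3779_B00pm_011_s3

theorem t3781_B00pm_011_s3 : ∃ t, chk3 f_B00pm_011_s3 t 479 250 158 = true := ex3_c t3780_B00pm_011_s3 t3764_B00pm_011_s3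

theorem t3782_B00pm_011_s3 : ∃ t, chk3 f_B00pm_011_s3 t 479 250 79 = true := ex3_c t3781_B00pm_011_s3 t3751_B00pm_011_s3

theorem t3783_B00pm_011_s3 : ∃ t, chk3 f_B00pm_011_s3 t 479 1003 315 = true := ex3_a k1635_B00pm_011_s3 k1636_B00pm_011_s3

theorem t3784_B00pm_011_s3 : ∃ t, chk3 f_B00pm_011_s3 t 1918 2005 315 = true := ex3_b k1632_B00pm_011_s3 k1633_B00pm_011_s3

theorem t3785_B00pm_011_s3 : ∃ t, chk3 f_B00pm_011_s3 t 959 2005 315 = true := ex3_a t3784_B00pm_011_s3 k1634_B00pm_011_s3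

theorem t3786_B00pm_011_s3 : ∃ t, chk3 f_B00pm_011_s3 t 3836 4009 315 = true := ex3_b k1628_B00pm_011_s3 k1629_B00pm_011_s3

theorem t3787_B00pm_011_s3 : ∃ t, chk3 f_B00pm_011_s3 t 1918 4009 315 = true := ex3_a t3786_B00pm_011_s3 k1630_B00pm_011_s3

theorem t3788_B00pm_011_s3 : ∃ t, chk3 f_B00pm_011_s3 t 1918 2004 315 = true := ex3_b k1627_B00pm_011_s3 t3787_B00pm_011_s3

theorem t3789_B00pm_011_s3 : ∃ t, chk3 f_B00pm_011_s3 t 959 2004 315 = true := ex3_a t3788_B00pm_011_s3 k1631_B00pm_011_s3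

theorem t3790_B00pm_011_s3 : ∃ t, chk3 f_B00pm_011_s3 t 959 1002 315 = true := ex3_b t3789_B00pm_011_s3 t3785_B00pm_011_s3

theorem t3791_B00pm_011_s3 : ∃ t, chk3 f_B00pm_011_s3 t 958 4008 315 = true := ex3_a k1623_B00pm_011_s3 k1624_B00pm_011_s3

theorem t3792_B00pm_011_s3 : ∃ t, chk3 f_B00pm_011_s3 t 958 2004 315 = true := ex3_b t3791_B00pm_011_s3 k1625_B00pm_011_s3

theorem t3793_B00pm_011_s3 : ∃ t, chk3 f_B00pm_011_s3 t 958 1002 315 = true := ex3_b t3792_B00pm_011_s3 k1626_B00pm_011_s3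

theorem t3794_B00pm_011_s3 : ∃ t, chk3 f_B00pm_011_s3 t 479 1002 315 = true := ex3_a t3793_B00pm_011_s3 t3790_B00pm_011_s3

theorem t3795_B00pm_011_s3 : ∃ t, chk3 f_B00pm_011_s3 t 479 501 315 = true := ex3_b t3794_B00pm_011_s3 t3783_B00pm_011_s3

theorem t3796_B00pm_011_s3 : ∃ t, chk3 f_B00pm_011_s3 t 479 250 315 = true := ex3_b k1622_B00pm_011_s3 t3795_B00pm_011_s3

theorem t3797_B00pm_011_s3 : ∃ t, chk3 f_B00pm_011_s3 t 1918 2005 314 = true := ex3_b k1618_B00pm_011_s3 k1619_B00pm_011_s3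

theorem t3798_B00pm_011_s3 : ∃ t, chk3 f_B00pm_011_s3 t 959 2005 314 = true := ex3_a t3797_B00pm_011_s3 k1620_B00pm_011_s3

theorem t3799_B00pm_011_s3 : ∃ t, chk3 f_B00pm_011_s3 t 959 1002 314 = true := ex3_b k1617_B00pm_011_s3 t3798_B00pm_011_s3

theorem t3800_B00pm_011_s3 : ∃ t, chk3 f_B00pm_011_s3 t 959 501 314 = true := ex3_b t3799_B00pm_011_s3 k1621_B00pm_011_s3

theorem t3801_B00pm_011_s3 : ∃ t, chk3 f_B00pm_011_s3 t 959 250 314 = true := ex3_b k1616_B00pm_011_s3 t3800_B00pm_011_s3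

theorem t3802_B00pm_011_s3 : ∃ t, chk3 f_B00pm_011_s3 t 3835 4009 314 = true := ex3_b k1612_B00pm_011_s3 k1613_B00pm_011_s3

theorem t3803_B00pm_011_s3 : ∃ t, chk3 f_B00pm_011_s3 t 1917 4009 314 = true := ex3_a k1611_B00pm_011_s3 t3802_B00pm_011_s3

theorem t3804_B00pm_011_s3 : ∃ t, chk3 f_B00pm_011_s3 t 1917 2004 314 = true := ex3_b k1610_B00pm_011_s3 t3803_B00pm_011_s3

theorem t3805_B00pm_011_s3 : ∃ t, chk3 f_B00pm_011_s3 t 3832 2004 314 = true := ex3_b k1607_B00pm_011_s3 k1608_B00pm_011_s3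

theorem t3806_B00pm_011_s3 : ∃ t, chk3 f_B00pm_011_s3 t 1916 2004 314 = true := ex3_a t3805_B00pm_011_s3 k1609_B00pm_011_s3

theorem t3807_B00pm_011_s3 : ∃ t, chk3 f_B00pm_011_s3 t 958 2004 314 = true := ex3_a t3806_B00pm_011_s3 t3804_B00pm_011_s3

theorem t3808_B00pm_011_s3 : ∃ t, chk3 f_B00pm_011_s3 t 958 1002 314 = true := ex3_b t3807_B00pm_011_s3 k1614_B00pm_011_s3

theorem t3809_B00pm_011_s3 : ∃ t, chk3 f_B00pm_011_s3 t 958 501 314 = true := ex3_b t3808_B00pm_011_s3 k1615_B00pm_011_s3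

theorem t3810_B00pm_011_s3 : ∃ t, chk3 f_B00pm_011_s3 t 958 250 314 = true := ex3_b k1606_B00pm_011_s3 t3809_B00pm_011_s3

theorem t3811_B00pm_011_s3 : ∃ t, chk3 f_B00pm_011_s3 t 479 250 314 = true := ex3_a t3810_B00pm_011_s3 t3801_B00pm_011_s3

theorem t3812_B00pm_011_s3 : ∃ t, chk3 f_B00pm_011_s3 t 479 250 157 = true := ex3_c t3811_B00pm_011_s3 t3796_B00pm_011_s3

theorem t3813_B00pm_011_s3 : ∃ t, chk3 f_B00pm_011_s3 t 959 2006 156 = true := ex3_a k1603_B00pm_011_s3 k1604_B00pm_011_s3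

theorem t3814_B00pm_011_s3 : ∃ t, chk3 f_B00pm_011_s3 t 959 1003 156 = true := ex3_b t3813_B00pm_011_s3 k1605_B00pm_011_s3

theorem t3815_B00pm_011_s3 : ∃ t, chk3 f_B00pm_011_s3 t 959 2005 156 = true := ex3_b k1601_B00pm_011_s3 k1602_B00pm_011_s3

theorem t3816_B00pm_011_s3 : ∃ t, chk3 f_B00pm_011_s3 t 959 1002 156 = true := ex3_b k1600_B00pm_011_s3 t3815_B00pm_011_s3

theorem t3817_B00pm_011_s3 : ∃ t, chk3 f_B00pm_011_s3 t 959 501 156 = true := ex3_b t3816_B00pm_011_s3 t3814_B00pm_011_s3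

theorem t3818_B00pm_011_s3 : ∃ t, chk3 f_B00pm_011_s3 t 959 250 156 = true := ex3_b k1599_B00pm_011_s3 t3817_B00pm_011_s3

theorem t3819_B00pm_011_s3 : ∃ t, chk3 f_B00pm_011_s3 t 1917 4010 156 = true := ex3_a k1595_B00pm_011_s3 k1596_B00pm_011_s3

theorem t3820_B00pm_011_s3 : ∃ t, chk3 f_B00pm_011_s3 t 1917 2005 156 = true := ex3_b t3819_B00pm_011_s3 k1597_B00pm_011_s3

theorem t3821_B00pm_011_s3 : ∃ t, chk3 f_B00pm_011_s3 t 958 2005 156 = true := ex3_a k1594_B00pm_011_s3 t3820_B00pm_011_s3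

theorem t3822_B00pm_011_s3 : ∃ t, chk3 f_B00pm_011_s3 t 3834 4009 156 = true := ex3_c k1591_B00pm_011_s3 k1592_B00pm_011_s3

theorem t3823_B00pm_011_s3 : ∃ t, chk3 f_B00pm_011_s3 t 1917 4009 156 = true := ex3_a t3822_B00pm_011_s3 k1593_B00pm_011_s3

theorem t3824_B00pm_011_s3 : ∃ t, chk3 f_B00pm_011_s3 t 1917 2004 156 = true := ex3_b k1590_B00pm_011_s3 t3823_B00pm_011_s3

theorem t3825_B00pm_011_s3 : ∃ t, chk3 f_B00pm_011_s3 t 3833 4008 156 = true := ex3_c k1587_B00pm_011_s3 k1588_B00pm_011_s3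

theorem t3826_B00pm_011_s3 : ∃ t, chk3 f_B00pm_011_s3 t 1916 4008 156 = true := ex3_a k1586_B00pm_011_s3 t3825_B00pm_011_s3

theorem t3827_B00pm_011_s3 : ∃ t, chk3 f_B00pm_011_s3 t 1916 2004 156 = true := ex3_b t3826_B00pm_011_s3 k1589_B00pm_011_s3

theorem t3828_B00pm_011_s3 : ∃ t, chk3 f_B00pm_011_s3 t 958 2004 156 = true := ex3_a t3827_B00pm_011_s3 t3824_B00pm_011_s3

theorem t3829_B00pm_011_s3 : ∃ t, chk3 f_B00pm_011_s3 t 958 1002 156 = true := ex3_b t3828_B00pm_011_s3 t3821_B00pm_011_s3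

theorem t3830_B00pm_011_s3 : ∃ t, chk3 f_B00pm_011_s3 t 958 501 156 = true := ex3_b t3829_B00pm_011_s3 k1598_B00pm_011_s3

theorem t3831_B00pm_011_s3 : ∃ t, chk3 f_B00pm_011_s3 t 958 250 156 = true := ex3_b k1585_B00pm_011_s3 t3830_B00pm_011_s3

theorem t3832_B00pm_011_s3 : ∃ t, chk3 f_B00pm_011_s3 t 479 250 156 = true := ex3_a t3831_B00pm_011_s3 t3818_B00pm_011_s3

theorem t3833_B00pm_011_s3 : ∃ t, chk3 f_B00pm_011_s3 t 479 250 78 = true := ex3_c t3832_B00pm_011_s3 t3812_B00pm_011_s3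

theorem t3834_B00pm_011_s3 : ∃ t, chk3 f_B00pm_011_s3 t 479 250 39 = true := ex3_c t3833_B00pm_011_s3 t3782_B00pm_011_s3

theorem t3835_B00pm_011_s3 : ∃ t, chk3 f_B00pm_011_s3 t 959 1003 155 = true := ex3_b k1583_B00pm_011_s3 k1584_B00pm_011_s3

theorem t3836_B00pm_011_s3 : ∃ t, chk3 f_B00pm_011_s3 t 959 501 155 = true := ex3_b k1582_B00pm_011_s3 t3835_B00pm_011_s3

theorem t3837_B00pm_011_s3 : ∃ t, chk3 f_B00pm_011_s3 t 959 250 155 = true := ex3_b k1581_B00pm_011_s3 t3836_B00pm_011_s3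

theorem t3838_B00pm_011_s3 : ∃ t, chk3 f_B00pm_011_s3 t 958 2005 155 = true := ex3_a k1578_B00pm_011_s3 k1579_B00pm_011_s3

theorem t3839_B00pm_011_s3 : ∃ t, chk3 f_B00pm_011_s3 t 1916 4009 155 = true := ex3_a k1575_B00pm_011_s3 k1576_B00pm_011_s3

theorem t3840_B00pm_011_s3 : ∃ t, chk3 f_B00pm_011_s3 t 1916 2004 155 = true := ex3_b k1574_B00pm_011_s3 t3839_B00pm_011_s3

theorem t3841_B00pm_011_s3 : ∃ t, chk3 f_B00pm_011_s3 t 958 2004 155 = true := ex3_a t3840_B00pm_011_s3 k1577_B00pm_011_s3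

theorem t3842_B00pm_011_s3 : ∃ t, chk3 f_B00pm_011_s3 t 958 1002 155 = true := ex3_b t3841_B00pm_011_s3 t3838_B00pm_011_s3

theorem t3843_B00pm_011_s3 : ∃ t, chk3 f_B00pm_011_s3 t 958 501 155 = true := ex3_b t3842_B00pm_011_s3 k1580_B00pm_011_s3

theorem t3844_B00pm_011_s3 : ∃ t, chk3 f_B00pm_011_s3 t 958 250 155 = true := ex3_b k1573_B00pm_011_s3 t3843_B00pm_011_s3

theorem t3845_B00pm_011_s3 : ∃ t, chk3 f_B00pm_011_s3 t 479 250 155 = true := ex3_a t3844_B00pm_011_s3 t3837_B00pm_011_s3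

theorem t3846_B00pm_011_s3 : ∃ t, chk3 f_B00pm_011_s3 t 958 1003 154 = true := ex3_b k1570_B00pm_011_s3 k1571_B00pm_011_s3

theorem t3847_B00pm_011_s3 : ∃ t, chk3 f_B00pm_011_s3 t 958 1002 154 = true := ex3_b k1568_B00pm_011_s3 k1569_B00pm_011_s3

theorem t3848_B00pm_011_s3 : ∃ t, chk3 f_B00pm_011_s3 t 958 501 154 = true := ex3_b t3847_B00pm_011_s3 t3846_B00pm_011_s3

theorem t3849_B00pm_011_s3 : ∃ t, chk3 f_B00pm_011_s3 t 958 250 154 = true := ex3_b k1567_B00pm_011_s3 t3848_B00pm_011_s3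

theorem t3850_B00pm_011_s3 : ∃ t, chk3 f_B00pm_011_s3 t 479 250 154 = true := ex3_a t3849_B00pm_011_s3 k1572_B00pm_011_s3

theorem t3851_B00pm_011_s3 : ∃ t, chk3 f_B00pm_011_s3 t 479 250 77 = true := ex3_c t3850_B00pm_011_s3 t3845_B00pm_011_s3

theorem t3852_B00pm_011_s3 : ∃ t, chk3 f_B00pm_011_s3 t 479 250 307 = true := ex3_a k1565_B00pm_011_s3 k1566_B00pm_011_s3

theorem t3853_B00pm_011_s3 : ∃ t, chk3 f_B00pm_011_s3 t 479 250 153 = true := ex3_c k1564_B00pm_011_s3 t3852_B00pm_011_s3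

theorem t3854_B00pm_011_s3 : ∃ t, chk3 f_B00pm_011_s3 t 479 250 152 = true := ex3_c k1562_B00pm_011_s3 k1563_B00pm_011_s3

theorem t3855_B00pm_011_s3 : ∃ t, chk3 f_B00pm_011_s3 t 479 250 76 = true := ex3_c t3854_B00pm_011_s3 t3853_B00pm_011_s3

theorem t3856_B00pm_011_s3 : ∃ t, chk3 f_B00pm_011_s3 t 479 250 38 = true := ex3_c t3855_B00pm_011_s3 t3851_B00pm_011_s3

theorem t3857_B00pm_011_s3 : ∃ t, chk3 f_B00pm_011_s3 t 479 250 19 = true := ex3_c t3856_B00pm_011_s3 t3834_B00pm_011_s3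

theorem t3858_B00pm_011_s3 : ∃ t, chk3 f_B00pm_011_s3 t 957 1003 39 = true := ex3_c k1560_B00pm_011_s3 k1561_B00pm_011_s3

theorem t3859_B00pm_011_s3 : ∃ t, chk3 f_B00pm_011_s3 t 478 1003 39 = true := ex3_a k1559_B00pm_011_s3 t3858_B00pm_011_s3

theorem t3860_B00pm_011_s3 : ∃ t, chk3 f_B00pm_011_s3 t 957 2005 78 = true := ex3_c k1556_B00pm_011_s3 k1557_B00pm_011_s3

theorem t3861_B00pm_011_s3 : ∃ t, chk3 f_B00pm_011_s3 t 478 2005 78 = true := ex3_a k1555_B00pm_011_s3 t3860_B00pm_011_s3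

theorem t3862_B00pm_011_s3 : ∃ t, chk3 f_B00pm_011_s3 t 478 2005 39 = true := ex3_c t3861_B00pm_011_s3 k1558_B00pm_011_s3

theorem t3863_B00pm_011_s3 : ∃ t, chk3 f_B00pm_011_s3 t 1915 2004 313 = true := ex3_b k1551_B00pm_011_s3 k1552_B00pm_011_s3

theorem t3864_B00pm_011_s3 : ∃ t, chk3 f_B00pm_011_s3 t 1915 2004 156 = true := ex3_c k1550_B00pm_011_s3 t3863_B00pm_011_s3

theorem t3865_B00pm_011_s3 : ∃ t, chk3 f_B00pm_011_s3 t 957 2004 156 = true := ex3_a k1549_B00pm_011_s3 t3864_B00pm_011_s3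

theorem t3866_B00pm_011_s3 : ∃ t, chk3 f_B00pm_011_s3 t 957 2004 78 = true := ex3_c t3865_B00pm_011_s3 k1553_B00pm_011_s3

theorem t3867_B00pm_011_s3 : ∃ t, chk3 f_B00pm_011_s3 t 957 2004 39 = true := ex3_c t3866_B00pm_011_s3 k1554_B00pm_011_s3

theorem t3868_B00pm_011_s3 : ∃ t, chk3 f_B00pm_011_s3 t 478 2004 39 = true := ex3_a k1548_B00pm_011_s3 t3867_B00pm_011_s3

theorem t3869_B00pm_011_s3 : ∃ t, chk3 f_B00pm_011_s3 t 478 1002 39 = true := ex3_b t3868_B00pm_011_s3 t3862_B00pm_011_s3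

theorem t3870_B00pm_011_s3 : ∃ t, chk3 f_B00pm_011_s3 t 478 501 39 = true := ex3_b t3869_B00pm_011_s3 t3859_B00pm_011_s3

theorem t3871_B00pm_011_s3 : ∃ t, chk3 f_B00pm_011_s3 t 1915 8015 78 = true := ex3_c k1545_B00pm_011_s3 k1546_B00pm_011_s3

theorem t3872_B00pm_011_s3 : ∃ t, chk3 f_B00pm_011_s3 t 1915 8015 39 = true := ex3_c t3871_B00pm_011_s3 k1547_B00pm_011_s3

theorem t3873_B00pm_011_s3 : ∃ t, chk3 f_B00pm_011_s3 t 1915 4007 39 = true := ex3_b k1544_B00pm_011_s3 t3872_B00pm_011_s3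

theorem t3874_B00pm_011_s3 : ∃ t, chk3 f_B00pm_011_s3 t 957 4007 39 = true := ex3_a k1543_B00pm_011_s3 t3873_B00pm_011_s3

theorem t3875_B00pm_011_s3 : ∃ t, chk3 f_B00pm_011_s3 t 957 2003 39 = true := ex3_b k1542_B00pm_011_s3 t3874_B00pm_011_s3

theorem t3876_B00pm_011_s3 : ∃ t, chk3 f_B00pm_011_s3 t 478 2003 39 = true := ex3_a k1541_B00pm_011_s3 t3875_B00pm_011_s3

theorem t3877_B00pm_011_s3 : ∃ t, chk3 f_B00pm_011_s3 t 478 2002 39 = true := ex3_c k1539_B00pm_011_s3 k1540_B00pm_011_s3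

theorem t3878_B00pm_011_s3 : ∃ t, chk3 f_B00pm_011_s3 t 478 1001 39 = true := ex3_b t3877_B00pm_011_s3 t3876_B00pm_011_s3

theorem t3879_B00pm_011_s3 : ∃ t, chk3 f_B00pm_011_s3 t 478 500 39 = true := ex3_b k1538_B00pm_011_s3 t3878_B00pm_011_s3

theorem t3880_B00pm_011_s3 : ∃ t, chk3 f_B00pm_011_s3 t 478 250 39 = true := ex3_b t3879_B00pm_011_s3 t3870_B00pm_011_s3

theorem t3881_B00pm_011_s3 : ∃ t, chk3 f_B00pm_011_s3 t 478 1003 77 = true := ex3_a k1536_B00pm_011_s3 k1537_B00pm_011_s3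

theorem t3882_B00pm_011_s3 : ∃ t, chk3 f_B00pm_011_s3 t 478 1003 38 = true := ex3_c k1535_B00pm_011_s3 t3881_B00pm_011_s3

theorem t3883_B00pm_011_s3 : ∃ t, chk3 f_B00pm_011_s3 t 957 2005 76 = true := ex3_a k1532_B00pm_011_s3 k1533_B00pm_011_s3

theorem t3884_B00pm_011_s3 : ∃ t, chk3 f_B00pm_011_s3 t 957 2005 38 = true := ex3_c t3883_B00pm_011_s3 k1534_B00pm_011_s3

theorem t3885_B00pm_011_s3 : ∃ t, chk3 f_B00pm_011_s3 t 478 2005 38 = true := ex3_a k1531_B00pm_011_s3 t3884_B00pm_011_s3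

theorem t3886_B00pm_011_s3 : ∃ t, chk3 f_B00pm_011_s3 t 1915 4009 77 = true := ex3_c k1529_B00pm_011_s3 k1530_B00pm_011_s3

theorem t3887_B00pm_011_s3 : ∃ t, chk3 f_B00pm_011_s3 t 1915 4008 155 = true := ex3_a k1527_B00pm_011_s3 k1528_B00pm_011_s3

theorem t3888_B00pm_011_s3 : ∃ t, chk3 f_B00pm_011_s3 t 1915 4008 77 = true := ex3_c k1526_B00pm_011_s3 t3887_B00pm_011_s3

theorem t3889_B00pm_011_s3 : ∃ t, chk3 f_B00pm_011_s3 t 1915 2004 77 = true := ex3_b t3888_B00pm_011_s3 t3886_B00pm_011_s3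

theorem t3890_B00pm_011_s3 : ∃ t, chk3 f_B00pm_011_s3 t 1914 2004 77 = true := ex3_c k1524_B00pm_011_s3 k1525_B00pm_011_s3

theorem t3891_B00pm_011_s3 : ∃ t, chk3 f_B00pm_011_s3 t 957 2004 77 = true := ex3_a t3890_B00pm_011_s3 t3889_B00pm_011_s3

theorem t3892_B00pm_011_s3 : ∃ t, chk3 f_B00pm_011_s3 t 1914 2004 153 = true := ex3_b k1521_B00pm_011_s3 k1522_B00pm_011_s3

theorem t3893_B00pm_011_s3 : ∃ t, chk3 f_B00pm_011_s3 t 1914 2004 76 = true := ex3_c k1520_B00pm_011_s3 t3892_B00pm_011_s3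

theorem t3894_B00pm_011_s3 : ∃ t, chk3 f_B00pm_011_s3 t 957 2004 76 = true := ex3_a t3893_B00pm_011_s3 k1523_B00pm_011_s3

theorem t3895_B00pm_011_s3 : ∃ t, chk3 f_B00pm_011_s3 t 957 2004 38 = true := ex3_c t3894_B00pm_011_s3 t3891_B00pm_011_s3

theorem t3896_B00pm_011_s3 : ∃ t, chk3 f_B00pm_011_s3 t 956 2004 77 = true := ex3_c k1518_B00pm_011_s3 k1519_B00pm_011_s3

theorem t3897_B00pm_011_s3 : ∃ t, chk3 f_B00pm_011_s3 t 1913 2004 76 = true := ex3_c k1516_B00pm_011_s3 k1517_B00pm_011_s3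

theorem t3898_B00pm_011_s3 : ∃ t, chk3 f_B00pm_011_s3 t 956 2004 76 = true := ex3_a k1515_B00pm_011_s3 t3897_B00pm_011_s3

theorem t3899_B00pm_011_s3 : ∃ t, chk3 f_B00pm_011_s3 t 956 2004 38 = true := ex3_c t3898_B00pm_011_s3 t3896_B00pm_011_s3

theorem t3900_B00pm_011_s3 : ∃ t, chk3 f_B00pm_011_s3 t 478 2004 38 = true := ex3_a t3899_B00pm_011_s3 t3895_B00pm_011_s3

theorem t3901_B00pm_011_s3 : ∃ t, chk3 f_B00pm_011_s3 t 478 1002 38 = true := ex3_b t3900_B00pm_011_s3 t3885_B00pm_011_s3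

theorem t3902_B00pm_011_s3 : ∃ t, chk3 f_B00pm_011_s3 t 478 501 38 = true := ex3_b t3901_B00pm_011_s3 t3882_B00pm_011_s3

theorem t3903_B00pm_011_s3 : ∃ t, chk3 f_B00pm_011_s3 t 1915 4007 311 = true := ex3_a k1513_B00pm_011_s3 k1514_B00pm_011_s3

theorem t3904_B00pm_011_s3 : ∃ t, chk3 f_B00pm_011_s3 t 1915 2003 311 = true := ex3_b k1512_B00pm_011_s3 t3903_B00pm_011_s3

theorem t3905_B00pm_011_s3 : ∃ t, chk3 f_B00pm_011_s3 t 1915 1001 311 = true := ex3_b k1511_B00pm_011_s3 t3904_B00pm_011_s3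

theorem t3906_B00pm_011_s3 : ∃ t, chk3 f_B00pm_011_s3 t 1915 1001 155 = true := ex3_c k1510_B00pm_011_s3 t3905_B00pm_011_s3

theorem t3907_B00pm_011_s3 : ∃ t, chk3 f_B00pm_011_s3 t 1915 1001 77 = true := ex3_c k1509_B00pm_011_s3 t3906_B00pm_011_s3

theorem t3908_B00pm_011_s3 : ∃ t, chk3 f_B00pm_011_s3 t 1914 4007 155 = true := ex3_a k1507_B00pm_011_s3 k1508_B00pm_011_s3

theorem t3909_B00pm_011_s3 : ∃ t, chk3 f_B00pm_011_s3 t 1914 2003 155 = true := ex3_b k1506_B00pm_011_s3 t3908_B00pm_011_s3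

theorem t3910_B00pm_011_s3 : ∃ t, chk3 f_B00pm_011_s3 t 1914 1001 155 = true := ex3_b k1505_B00pm_011_s3 t3909_B00pm_011_s3

theorem t3911_B00pm_011_s3 : ∃ t, chk3 f_B00pm_011_s3 t 1914 4007 154 = true := ex3_a k1503_B00pm_011_s3 k1504_B00pm_011_s3

theorem t3912_B00pm_011_s3 : ∃ t, chk3 f_B00pm_011_s3 t 1914 2003 154 = true := ex3_b k1502_B00pm_011_s3 t3911_B00pm_011_s3

theorem t3913_B00pm_011_s3 : ∃ t, chk3 f_B00pm_011_s3 t 1914 1001 154 = true := ex3_b k1501_B00pm_011_s3 t3912_B00pm_011_s3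

theorem t3914_B00pm_011_s3 : ∃ t, chk3 f_B00pm_011_s3 t 1914 1001 77 = true := ex3_c t3913_B00pm_011_s3 t3910_B00pm_011_s3

theorem t3915_B00pm_011_s3 : ∃ t, chk3 f_B00pm_011_s3 t 957 1001 77 = true := ex3_a t3914_B00pm_011_s3 t3907_B00pm_011_s3

theorem t3916_B00pm_011_s3 : ∃ t, chk3 f_B00pm_011_s3 t 957 1001 38 = true := ex3_c k1500_B00pm_011_s3 t3915_B00pm_011_s3

theorem t3917_B00pm_011_s3 : ∃ t, chk3 f_B00pm_011_s3 t 956 4007 77 = true := ex3_a k1498_B00pm_011_s3 k1499_B00pm_011_s3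

theorem t3918_B00pm_011_s3 : ∃ t, chk3 f_B00pm_011_s3 t 1913 4007 153 = true := ex3_a k1496_B00pm_011_s3 k1497_B00pm_011_s3

theorem t3919_B00pm_011_s3 : ∃ t, chk3 f_B00pm_011_s3 t 1913 4007 76 = true := ex3_c k1495_B00pm_011_s3 t3918_B00pm_011_s3

theorem t3920_B00pm_011_s3 : ∃ t, chk3 f_B00pm_011_s3 t 956 4007 76 = true := ex3_a k1494_B00pm_011_s3 t3919_B00pm_011_s3

theorem t3921_B00pm_011_s3 : ∃ t, chk3 f_B00pm_011_s3 t 956 4007 38 = true := ex3_c t3920_B00pm_011_s3 t3917_B00pm_011_s3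

theorem t3922_B00pm_011_s3 : ∃ t, chk3 f_B00pm_011_s3 t 1913 8013 77 = true := ex3_c k1492_B00pm_011_s3 k1493_B00pm_011_s3

theorem t3923_B00pm_011_s3 : ∃ t, chk3 f_B00pm_011_s3 t 1913 8012 77 = true := ex3_a k1490_B00pm_011_s3 k1491_B00pm_011_s3

theorem t3924_B00pm_011_s3 : ∃ t, chk3 f_B00pm_011_s3 t 1913 4006 77 = true := ex3_b t3923_B00pm_011_s3 t3922_B00pm_011_s3

theorem t3925_B00pm_011_s3 : ∃ t, chk3 f_B00pm_011_s3 t 1913 4006 153 = true := ex3_a k1488_B00pm_011_s3 k1489_B00pm_011_s3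

theorem t3926_B00pm_011_s3 : ∃ t, chk3 f_B00pm_011_s3 t 1913 4006 76 = true := ex3_c k1487_B00pm_011_s3 t3925_B00pm_011_s3

theorem t3927_B00pm_011_s3 : ∃ t, chk3 f_B00pm_011_s3 t 1913 4006 38 = true := ex3_c t3926_B00pm_011_s3 t3924_B00pm_011_s3

theorem t3928_B00pm_011_s3 : ∃ t, chk3 f_B00pm_011_s3 t 1912 4006 76 = true := ex3_c k1484_B00pm_011_s3 k1485_B00pm_011_s3

theorem t3929_B00pm_011_s3 : ∃ t, chk3 f_B00pm_011_s3 t 1912 4006 38 = true := ex3_c t3928_B00pm_011_s3 k1486_B00pm_011_s3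

theorem t3930_B00pm_011_s3 : ∃ t, chk3 f_B00pm_011_s3 t 956 4006 38 = true := ex3_a t3929_B00pm_011_s3 t3927_B00pm_011_s3

theorem t3931_B00pm_011_s3 : ∃ t, chk3 f_B00pm_011_s3 t 956 2003 38 = true := ex3_b t3930_B00pm_011_s3 t3921_B00pm_011_s3

theorem t3932_B00pm_011_s3 : ∃ t, chk3 f_B00pm_011_s3 t 1912 4005 77 = true := ex3_b k1481_B00pm_011_s3 k1482_B00pm_011_s3

theorem t3933_B00pm_011_s3 : ∃ t, chk3 f_B00pm_011_s3 t 956 4005 77 = true := ex3_a t3932_B00pm_011_s3 k1483_B00pm_011_s3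

theorem t3934_B00pm_011_s3 : ∃ t, chk3 f_B00pm_011_s3 t 956 2002 77 = true := ex3_b k1480_B00pm_011_s3 t3933_B00pm_011_s3

theorem t3935_B00pm_011_s3 : ∃ t, chk3 f_B00pm_011_s3 t 1912 4005 153 = true := ex3_a k1477_B00pm_011_s3 k1478_B00pm_011_s3

theorem t3936_B00pm_011_s3 : ∃ t, chk3 f_B00pm_011_s3 t 1912 4005 76 = true := ex3_c k1476_B00pm_011_s3 t3935_B00pm_011_s3

theorem t3937_B00pm_011_s3 : ∃ t, chk3 f_B00pm_011_s3 t 1912 2002 76 = true := ex3_b k1475_B00pm_011_s3 t3936_B00pm_011_s3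

theorem t3938_B00pm_011_s3 : ∃ t, chk3 f_B00pm_011_s3 t 956 2002 76 = true := ex3_a t3937_B00pm_011_s3 k1479_B00pm_011_s3

theorem t3939_B00pm_011_s3 : ∃ t, chk3 f_B00pm_011_s3 t 956 2002 38 = true := ex3_c t3938_B00pm_011_s3 t3934_B00pm_011_s3

theorem t3940_B00pm_011_s3 : ∃ t, chk3 f_B00pm_011_s3 t 956 1001 38 = true := ex3_b t3939_B00pm_011_s3 t3931_B00pm_011_s3

theorem t3941_B00pm_011_s3 : ∃ t, chk3 f_B00pm_011_s3 t 478 1001 38 = true := ex3_a t3940_B00pm_011_s3 t3916_B00pm_011_s3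

theorem t3942_B00pm_011_s3 : ∃ t, chk3 f_B00pm_011_s3 t 478 500 38 = true := ex3_b k1474_B00pm_011_s3 t3941_B00pm_011_s3

theorem t3943_B00pm_011_s3 : ∃ t, chk3 f_B00pm_011_s3 t 478 250 38 = true := ex3_b t3942_B00pm_011_s3 t3902_B00pm_011_s3

theorem t3944_B00pm_011_s3 : ∃ t, chk3 f_B00pm_011_s3 t 478 250 19 = true := ex3_c t3943_B00pm_011_s3 t3880_B00pm_011_s3

theorem t3945_B00pm_011_s3 : ∃ t, chk3 f_B00pm_011_s3 t 239 250 19 = true := ex3_a t3944_B00pm_011_s3 t3857_B00pm_011_s3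

theorem t3946_B00pm_011_s3 : ∃ t, chk3 f_B00pm_011_s3 t 479 250 75 = true := ex3_c k1472_B00pm_011_s3 k1473_B00pm_011_s3

theorem t3947_B00pm_011_s3 : ∃ t, chk3 f_B00pm_011_s3 t 479 250 74 = true := ex3_b k1470_B00pm_011_s3 k1471_B00pm_011_s3

theorem t3948_B00pm_011_s3 : ∃ t, chk3 f_B00pm_011_s3 t 479 250 37 = true := ex3_c t3947_B00pm_011_s3 t3946_B00pm_011_s3

theorem t3949_B00pm_011_s3 : ∃ t, chk3 f_B00pm_011_s3 t 1919 8017 36 = true := ex3_a k1465_B00pm_011_s3 k1466_B00pm_011_s3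

theorem t3950_B00pm_011_s3 : ∃ t, chk3 f_B00pm_011_s3 t 959 8017 36 = true := ex3_a k1464_B00pm_011_s3 t3949_B00pm_011_s3

theorem t3951_B00pm_011_s3 : ∃ t, chk3 f_B00pm_011_s3 t 959 8016 36 = true := ex3_a k1462_B00pm_011_s3 k1463_B00pm_011_s3

theorem t3952_B00pm_011_s3 : ∃ t, chk3 f_B00pm_011_s3 t 959 4008 36 = true := ex3_b t3951_B00pm_011_s3 t3950_B00pm_011_s3

theorem t3953_B00pm_011_s3 : ∃ t, chk3 f_B00pm_011_s3 t 959 2004 36 = true := ex3_b t3952_B00pm_011_s3 k1467_B00pm_011_s3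

theorem t3954_B00pm_011_s3 : ∃ t, chk3 f_B00pm_011_s3 t 479 2004 36 = true := ex3_a k1461_B00pm_011_s3 t3953_B00pm_011_s3

theorem t3955_B00pm_011_s3 : ∃ t, chk3 f_B00pm_011_s3 t 479 1002 36 = true := ex3_b t3954_B00pm_011_s3 k1468_B00pm_011_s3

theorem t3956_B00pm_011_s3 : ∃ t, chk3 f_B00pm_011_s3 t 479 501 36 = true := ex3_b t3955_B00pm_011_s3 k1469_B00pm_011_s3

theorem t3957_B00pm_011_s3 : ∃ t, chk3 f_B00pm_011_s3 t 1917 4007 36 = true := ex3_b k1458_B00pm_011_s3 k1459_B00pm_011_s3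

theorem t3958_B00pm_011_s3 : ∃ t, chk3 f_B00pm_011_s3 t 958 4007 36 = true := ex3_a k1457_B00pm_011_s3 t3957_B00pm_011_s3

theorem t3959_B00pm_011_s3 : ∃ t, chk3 f_B00pm_011_s3 t 958 2003 36 = true := ex3_b k1456_B00pm_011_s3 t3958_B00pm_011_s3

theorem t3960_B00pm_011_s3 : ∃ t, chk3 f_B00pm_011_s3 t 958 1001 36 = true := ex3_b k1455_B00pm_011_s3 t3959_B00pm_011_s3

theorem t3961_B00pm_011_s3 : ∃ t, chk3 f_B00pm_011_s3 t 958 500 36 = true := ex3_b k1454_B00pm_011_s3 t3960_B00pm_011_s3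

theorem t3962_B00pm_011_s3 : ∃ t, chk3 f_B00pm_011_s3 t 479 500 36 = true := ex3_a t3961_B00pm_011_s3 k1460_B00pm_011_s3

theorem t3963_B00pm_011_s3 : ∃ t, chk3 f_B00pm_011_s3 t 479 250 36 = true := ex3_b t3962_B00pm_011_s3 t3956_B00pm_011_s3

theorem t3964_B00pm_011_s3 : ∃ t, chk3 f_B00pm_011_s3 t 479 250 18 = true := ex3_c t3963_B00pm_011_s3 t3948_B00pm_011_s3

theorem t3965_B00pm_011_s3 : ∃ t, chk3 f_B00pm_011_s3 t 957 1003 75 = true := ex3_b k1452_B00pm_011_s3 k1453_B00pm_011_s3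

theorem t3966_B00pm_011_s3 : ∃ t, chk3 f_B00pm_011_s3 t 957 1003 37 = true := ex3_c k1451_B00pm_011_s3 t3965_B00pm_011_s3

theorem t3967_B00pm_011_s3 : ∃ t, chk3 f_B00pm_011_s3 t 956 1003 37 = true := ex3_c k1449_B00pm_011_s3 k1450_B00pm_011_s3

theorem t3968_B00pm_011_s3 : ∃ t, chk3 f_B00pm_011_s3 t 478 1003 37 = true := ex3_a t3967_B00pm_011_s3 t3966_B00pm_011_s3

theorem t3969_B00pm_011_s3 : ∃ t, chk3 f_B00pm_011_s3 t 956 2005 75 = true := ex3_a k1446_B00pm_011_s3 k1447_B00pm_011_s3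

theorem t3970_B00pm_011_s3 : ∃ t, chk3 f_B00pm_011_s3 t 956 2005 37 = true := ex3_c k1445_B00pm_011_s3 t3969_B00pm_011_s3

theorem t3971_B00pm_011_s3 : ∃ t, chk3 f_B00pm_011_s3 t 478 2005 37 = true := ex3_a t3970_B00pm_011_s3 k1448_B00pm_011_s3

theorem t3972_B00pm_011_s3 : ∃ t, chk3 f_B00pm_011_s3 t 956 2004 75 = true := ex3_a k1442_B00pm_011_s3 k1443_B00pm_011_s3

theorem t3973_B00pm_011_s3 : ∃ t, chk3 f_B00pm_011_s3 t 956 2004 37 = true := ex3_c k1441_B00pm_011_s3 t3972_B00pm_011_s3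

theorem t3974_B00pm_011_s3 : ∃ t, chk3 f_B00pm_011_s3 t 478 2004 37 = true := ex3_a t3973_B00pm_011_s3 k1444_B00pm_011_s3

theorem t3975_B00pm_011_s3 : ∃ t, chk3 f_B00pm_011_s3 t 478 1002 37 = true := ex3_b t3974_B00pm_011_s3 t3971_B00pm_011_s3

theorem t3976_B00pm_011_s3 : ∃ t, chk3 f_B00pm_011_s3 t 478 501 37 = true := ex3_b t3975_B00pm_011_s3 t3968_B00pm_011_s3

theorem t3977_B00pm_011_s3 : ∃ t, chk3 f_B00pm_011_s3 t 478 2002 37 = true := ex3_a k1438_B00pm_011_s3 k1439_B00pm_011_s3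

theorem t3978_B00pm_011_s3 : ∃ t, chk3 f_B00pm_011_s3 t 478 1001 37 = true := ex3_b t3977_B00pm_011_s3 k1440_B00pm_011_s3

theorem t3979_B00pm_011_s3 : ∃ t, chk3 f_B00pm_011_s3 t 478 500 37 = true := ex3_b k1437_B00pm_011_s3 t3978_B00pm_011_s3

theorem t3980_B00pm_011_s3 : ∃ t, chk3 f_B00pm_011_s3 t 478 250 37 = true := ex3_b t3979_B00pm_011_s3 t3976_B00pm_011_s3

theorem t3981_B00pm_011_s3 : ∃ t, chk3 f_B00pm_011_s3 t 957 4005 36 = true := ex3_a k1433_B00pm_011_s3 k1434_B00pm_011_s3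

theorem t3982_B00pm_011_s3 : ∃ t, chk3 f_B00pm_011_s3 t 478 4005 36 = true := ex3_a k1432_B00pm_011_s3 t3981_B00pm_011_s3

theorem t3983_B00pm_011_s3 : ∃ t, chk3 f_B00pm_011_s3 t 478 2002 36 = true := ex3_b k1431_B00pm_011_s3 t3982_B00pm_011_s3

theorem t3984_B00pm_011_s3 : ∃ t, chk3 f_B00pm_011_s3 t 478 1001 36 = true := ex3_b t3983_B00pm_011_s3 k1435_B00pm_011_s3

theorem t3985_B00pm_011_s3 : ∃ t, chk3 f_B00pm_011_s3 t 478 500 36 = true := ex3_b k1430_B00pm_011_s3 t3984_B00pm_011_s3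

theorem t3986_B00pm_011_s3 : ∃ t, chk3 f_B00pm_011_s3 t 478 250 36 = true := ex3_b t3985_B00pm_011_s3 k1436_B00pm_011_s3

theorem t3987_B00pm_011_s3 : ∃ t, chk3 f_B00pm_011_s3 t 478 250 18 = true := ex3_c t3986_B00pm_011_s3 t3980_B00pm_011_s3

theorem t3988_B00pm_011_s3 : ∃ t, chk3 f_B00pm_011_s3 t 239 250 18 = true := ex3_a t3987_B00pm_011_s3 t3964_B00pm_011_s3

theorem t3989_B00pm_011_s3 : ∃ t, chk3 f_B00pm_011_s3 t 239 250 9 = true := ex3_c t3988_B00pm_011_s3 t3945_B00pm_011_s3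

theorem t3990_B00pm_011_s3 : ∃ t, chk3 f_B00pm_011_s3 t 239 125 9 = true := ex3_b t3989_B00pm_011_s3 t3733_B00pm_011_s3

theorem t3991_B00pm_011_s3 : ∃ t, chk3 f_B00pm_011_s3 t 477 1006 76 = true := ex3_a k1425_B00pm_011_s3 k1426_B00pm_011_s3

theorem t3992_B00pm_011_s3 : ∃ t, chk3 f_B00pm_011_s3 t 477 503 76 = true := ex3_b t3991_B00pm_011_s3 k1427_B00pm_011_s3

theorem t3993_B00pm_011_s3 : ∃ t, chk3 f_B00pm_011_s3 t 477 503 38 = true := ex3_c t3992_B00pm_011_s3 k1428_B00pm_011_s3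

theorem t3994_B00pm_011_s3 : ∃ t, chk3 f_B00pm_011_s3 t 477 503 19 = true := ex3_c t3993_B00pm_011_s3 k1429_B00pm_011_s3

theorem t3995_B00pm_011_s3 : ∃ t, chk3 f_B00pm_011_s3 t 238 503 19 = true := ex3_a k1424_B00pm_011_s3 t3994_B00pm_011_s3

theorem t3996_B00pm_011_s3 : ∃ t, chk3 f_B00pm_011_s3 t 477 503 37 = true := ex3_b k1422_B00pm_011_s3 k1423_B00pm_011_s3

theorem t3997_B00pm_011_s3 : ∃ t, chk3 f_B00pm_011_s3 t 476 503 37 = true := ex3_b k1420_B00pm_011_s3 k1421_B00pm_011_s3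

theorem t3998_B00pm_011_s3 : ∃ t, chk3 f_B00pm_011_s3 t 238 503 37 = true := ex3_a t3997_B00pm_011_s3 t3996_B00pm_011_s3

theorem t3999_B00pm_011_s3 : ∃ t, chk3 f_B00pm_011_s3 t 238 503 18 = true := ex3_c k1419_B00pm_011_s3 t3998_B00pm_011_s3

theorem t4000_B00pm_011_s3 : ∃ t, chk3 f_B00pm_011_s3 t 238 503 9 = true := ex3_c t3999_B00pm_011_s3 t3995_B00pm_011_s3

theorem t4001_B00pm_011_s3 : ∃ t, chk3 f_B00pm_011_s3 t 477 1004 78 = true := ex3_a k1415_B00pm_011_s3 k1416_B00pm_011_s3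

theorem t4002_B00pm_011_s3 : ∃ t, chk3 f_B00pm_011_s3 t 477 1004 39 = true := ex3_c t4001_B00pm_011_s3 k1417_B00pm_011_s3

theorem t4003_B00pm_011_s3 : ∃ t, chk3 f_B00pm_011_s3 t 477 502 39 = true := ex3_b t4002_B00pm_011_s3 k1418_B00pm_011_s3

theorem t4004_B00pm_011_s3 : ∃ t, chk3 f_B00pm_011_s3 t 477 1005 77 = true := ex3_a k1413_B00pm_011_s3 k1414_B00pm_011_s3

theorem t4005_B00pm_011_s3 : ∃ t, chk3 f_B00pm_011_s3 t 477 502 77 = true := ex3_b k1412_B00pm_011_s3 t4004_B00pm_011_s3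

theorem t4006_B00pm_011_s3 : ∃ t, chk3 f_B00pm_011_s3 t 477 502 38 = true := ex3_c k1411_B00pm_011_s3 t4005_B00pm_011_s3

theorem t4007_B00pm_011_s3 : ∃ t, chk3 f_B00pm_011_s3 t 477 502 19 = true := ex3_c t4006_B00pm_011_s3 t4003_B00pm_011_s3

theorem t4008_B00pm_011_s3 : ∃ t, chk3 f_B00pm_011_s3 t 953 1004 38 = true := ex3_c k1407_B00pm_011_s3 k1408_B00pm_011_s3

theorem t4009_B00pm_011_s3 : ∃ t, chk3 f_B00pm_011_s3 t 476 1004 38 = true := ex3_a k1406_B00pm_011_s3 t4008_B00pm_011_s3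

theorem t4010_B00pm_011_s3 : ∃ t, chk3 f_B00pm_011_s3 t 476 502 38 = true := ex3_b t4009_B00pm_011_s3 k1409_B00pm_011_s3

theorem t4011_B00pm_011_s3 : ∃ t, chk3 f_B00pm_011_s3 t 476 502 19 = true := ex3_c t4010_B00pm_011_s3 k1410_B00pm_011_s3

theorem t4012_B00pm_011_s3 : ∃ t, chk3 f_B00pm_011_s3 t 238 502 19 = true := ex3_a t4011_B00pm_011_s3 t4007_B00pm_011_s3

theorem t4013_B00pm_011_s3 : ∃ t, chk3 f_B00pm_011_s3 t 476 1005 37 = true := ex3_c k1403_B00pm_011_s3 k1404_B00pm_011_s3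

theorem t4014_B00pm_011_s3 : ∃ t, chk3 f_B00pm_011_s3 t 476 502 37 = true := ex3_b k1402_B00pm_011_s3 t4013_B00pm_011_s3

theorem t4015_B00pm_011_s3 : ∃ t, chk3 f_B00pm_011_s3 t 476 502 18 = true := ex3_c k1401_B00pm_011_s3 t4014_B00pm_011_s3

theorem t4016_B00pm_011_s3 : ∃ t, chk3 f_B00pm_011_s3 t 238 502 18 = true := ex3_a t4015_B00pm_011_s3 k1405_B00pm_011_s3

theorem t4017_B00pm_011_s3 : ∃ t, chk3 f_B00pm_011_s3 t 238 502 9 = true := ex3_c t4016_B00pm_011_s3 t4012_B00pm_011_s3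

theorem t4018_B00pm_011_s3 : ∃ t, chk3 f_B00pm_011_s3 t 238 251 9 = true := ex3_b t4017_B00pm_011_s3 t4000_B00pm_011_s3

theorem t4019_B00pm_011_s3 : ∃ t, chk3 f_B00pm_011_s3 t 477 1003 79 = true := ex3_a k1399_B00pm_011_s3 k1400_B00pm_011_s3

theorem t4020_B00pm_011_s3 : ∃ t, chk3 f_B00pm_011_s3 t 477 1003 39 = true := ex3_c k1398_B00pm_011_s3 t4019_B00pm_011_s3

theorem t4021_B00pm_011_s3 : ∃ t, chk3 f_B00pm_011_s3 t 238 1003 39 = true := ex3_a k1397_B00pm_011_s3 t4020_B00pm_011_s3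

theorem t4022_B00pm_011_s3 : ∃ t, chk3 f_B00pm_011_s3 t 952 1003 38 = true := ex3_c k1393_B00pm_011_s3 k1394_B00pm_011_s3

theorem t4023_B00pm_011_s3 : ∃ t, chk3 f_B00pm_011_s3 t 476 1003 38 = true := ex3_a t4022_B00pm_011_s3 k1395_B00pm_011_s3

theorem t4024_B00pm_011_s3 : ∃ t, chk3 f_B00pm_011_s3 t 238 1003 38 = true := ex3_a t4023_B00pm_011_s3 k1396_B00pm_011_s3

theorem t4025_B00pm_011_s3 : ∃ t, chk3 f_B00pm_011_s3 t 238 1003 19 = true := ex3_c t4024_B00pm_011_s3 t4021_B00pm_011_s3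

theorem t4026_B00pm_011_s3 : ∃ t, chk3 f_B00pm_011_s3 t 238 2005 39 = true := ex3_a k1391_B00pm_011_s3 k1392_B00pm_011_s3

theorem t4027_B00pm_011_s3 : ∃ t, chk3 f_B00pm_011_s3 t 238 2005 38 = true := ex3_a k1389_B00pm_011_s3 k1390_B00pm_011_s3

theorem t4028_B00pm_011_s3 : ∃ t, chk3 f_B00pm_011_s3 t 238 2005 19 = true := ex3_c t4027_B00pm_011_s3 t4026_B00pm_011_s3

theorem t4029_B00pm_011_s3 : ∃ t, chk3 f_B00pm_011_s3 t 477 2004 38 = true := ex3_c k1386_B00pm_011_s3 k1387_B00pm_011_s3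

theorem t4030_B00pm_011_s3 : ∃ t, chk3 f_B00pm_011_s3 t 477 2004 19 = true := ex3_c t4029_B00pm_011_s3 k1388_B00pm_011_s3

theorem t4031_B00pm_011_s3 : ∃ t, chk3 f_B00pm_011_s3 t 476 2004 39 = true := ex3_c k1384_B00pm_011_s3 k1385_B00pm_011_s3

theorem t4032_B00pm_011_s3 : ∃ t, chk3 f_B00pm_011_s3 t 476 2004 19 = true := ex3_c k1383_B00pm_011_s3 t4031_B00pm_011_s3

theorem t4033_B00pm_011_s3 : ∃ t, chk3 f_B00pm_011_s3 t 238 2004 19 = true := ex3_a t4032_B00pm_011_s3 t4030_B00pm_011_s3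

theorem t4034_B00pm_011_s3 : ∃ t, chk3 f_B00pm_011_s3 t 238 1002 19 = true := ex3_b t4033_B00pm_011_s3 t4028_B00pm_011_s3

theorem t4035_B00pm_011_s3 : ∃ t, chk3 f_B00pm_011_s3 t 238 501 19 = true := ex3_b t4034_B00pm_011_s3 t4025_B00pm_011_s3

theorem t4036_B00pm_011_s3 : ∃ t, chk3 f_B00pm_011_s3 t 955 4006 76 = true := ex3_c k1378_B00pm_011_s3 k1379_B00pm_011_s3

theorem t4037_B00pm_011_s3 : ∃ t, chk3 f_B00pm_011_s3 t 955 4006 38 = true := ex3_c t4036_B00pm_011_s3 k1380_B00pm_011_s3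

theorem t4038_B00pm_011_s3 : ∃ t, chk3 f_B00pm_011_s3 t 955 4006 19 = true := ex3_c t4037_B00pm_011_s3 k1381_B00pm_011_s3

theorem t4039_B00pm_011_s3 : ∃ t, chk3 f_B00pm_011_s3 t 955 2003 19 = true := ex3_b t4038_B00pm_011_s3 k1382_B00pm_011_s3

theorem t4040_B00pm_011_s3 : ∃ t, chk3 f_B00pm_011_s3 t 477 2003 19 = true := ex3_a k1377_B00pm_011_s3 t4039_B00pm_011_s3

theorem t4041_B00pm_011_s3 : ∃ t, chk3 f_B00pm_011_s3 t 1911 4005 152 = true := ex3_a k1372_B00pm_011_s3 k1373_B00pm_011_s3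

theorem t4042_B00pm_011_s3 : ∃ t, chk3 f_B00pm_011_s3 t 1911 4005 76 = true := ex3_c t4041_B00pm_011_s3 k1374_B00pm_011_s3

theorem t4043_B00pm_011_s3 : ∃ t, chk3 f_B00pm_011_s3 t 1911 4005 38 = true := ex3_c t4042_B00pm_011_s3 k1375_B00pm_011_s3

theorem t4044_B00pm_011_s3 : ∃ t, chk3 f_B00pm_011_s3 t 955 4005 38 = true := ex3_a k1371_B00pm_011_s3 t4043_B00pm_011_s3

theorem t4045_B00pm_011_s3 : ∃ t, chk3 f_B00pm_011_s3 t 3822 4004 76 = true := ex3_c k1367_B00pm_011_s3 k1368_B00pm_011_s3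

theorem t4046_B00pm_011_s3 : ∃ t, chk3 f_B00pm_011_s3 t 1911 4004 76 = true := ex3_a t4045_B00pm_011_s3 k1369_B00pm_011_s3

theorem t4047_B00pm_011_s3 : ∃ t, chk3 f_B00pm_011_s3 t 1910 4004 76 = true := ex3_b k1365_B00pm_011_s3 k1366_B00pm_011_s3

theorem t4048_B00pm_011_s3 : ∃ t, chk3 f_B00pm_011_s3 t 955 4004 76 = true := ex3_a t4047_B00pm_011_s3 t4046_B00pm_011_s3

theorem t4049_B00pm_011_s3 : ∃ t, chk3 f_B00pm_011_s3 t 955 4004 38 = true := ex3_c t4048_B00pm_011_s3 k1370_B00pm_011_s3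

theorem t4050_B00pm_011_s3 : ∃ t, chk3 f_B00pm_011_s3 t 955 2002 38 = true := ex3_b t4049_B00pm_011_s3 t4044_B00pm_011_s3

theorem t4051_B00pm_011_s3 : ∃ t, chk3 f_B00pm_011_s3 t 955 2002 19 = true := ex3_c t4050_B00pm_011_s3 k1376_B00pm_011_s3

theorem t4052_B00pm_011_s3 : ∃ t, chk3 f_B00pm_011_s3 t 954 2002 19 = true := ex3_b k1363_B00pm_011_s3 k1364_B00pm_011_s3

theorem t4053_B00pm_011_s3 : ∃ t, chk3 f_B00pm_011_s3 t 477 2002 19 = true := ex3_a t4052_B00pm_011_s3 t4051_B00pm_011_s3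

theorem t4054_B00pm_011_s3 : ∃ t, chk3 f_B00pm_011_s3 t 477 1001 19 = true := ex3_b t4053_B00pm_011_s3 t4040_B00pm_011_s3

theorem t4055_B00pm_011_s3 : ∃ t, chk3 f_B00pm_011_s3 t 477 1000 39 = true := ex3_c k1361_B00pm_011_s3 k1362_B00pm_011_s3

theorem t4056_B00pm_011_s3 : ∃ t, chk3 f_B00pm_011_s3 t 477 1000 152 = true := ex3_c k1357_B00pm_011_s3 k1358_B00pm_011_s3

theorem t4057_B00pm_011_s3 : ∃ t, chk3 f_B00pm_011_s3 t 477 1000 76 = true := ex3_c t4056_B00pm_011_s3 k1359_B00pm_011_s3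

theorem t4058_B00pm_011_s3 : ∃ t, chk3 f_B00pm_011_s3 t 477 1000 38 = true := ex3_c t4057_B00pm_011_s3 k1360_B00pm_011_s3

theorem t4059_B00pm_011_s3 : ∃ t, chk3 f_B00pm_011_s3 t 477 1000 19 = true := ex3_c t4058_B00pm_011_s3 t4055_B00pm_011_s3

theorem t4060_B00pm_011_s3 : ∃ t, chk3 f_B00pm_011_s3 t 477 500 19 = true := ex3_b t4059_B00pm_011_s3 t4054_B00pm_011_s3

theorem t4061_B00pm_011_s3 : ∃ t, chk3 f_B00pm_011_s3 t 476 2003 79 = true := ex3_a k1355_B00pm_011_s3 k1356_B00pm_011_s3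

theorem t4062_B00pm_011_s3 : ∃ t, chk3 f_B00pm_011_s3 t 476 2003 39 = true := ex3_c k1354_B00pm_011_s3 t4061_B00pm_011_s3

theorem t4063_B00pm_011_s3 : ∃ t, chk3 f_B00pm_011_s3 t 952 2002 79 = true := ex3_a k1351_B00pm_011_s3 k1352_B00pm_011_s3

theorem t4064_B00pm_011_s3 : ∃ t, chk3 f_B00pm_011_s3 t 476 2002 79 = true := ex3_a t4063_B00pm_011_s3 k1353_B00pm_011_s3

theorem t4065_B00pm_011_s3 : ∃ t, chk3 f_B00pm_011_s3 t 476 2002 39 = true := ex3_c k1350_B00pm_011_s3 t4064_B00pm_011_s3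

theorem t4066_B00pm_011_s3 : ∃ t, chk3 f_B00pm_011_s3 t 476 1001 39 = true := ex3_b t4065_B00pm_011_s3 t4062_B00pm_011_s3

theorem t4067_B00pm_011_s3 : ∃ t, chk3 f_B00pm_011_s3 t 476 1001 19 = true := ex3_c k1349_B00pm_011_s3 t4066_B00pm_011_s3

theorem t4068_B00pm_011_s3 : ∃ t, chk3 f_B00pm_011_s3 t 1904 2001 79 = true := ex3_c k1345_B00pm_011_s3 k1346_B00pm_011_s3

theorem t4069_B00pm_011_s3 : ∃ t, chk3 f_B00pm_011_s3 t 952 2001 79 = true := ex3_a t4068_B00pm_011_s3 k1347_B00pm_011_s3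

theorem t4070_B00pm_011_s3 : ∃ t, chk3 f_B00pm_011_s3 t 952 2001 39 = true := ex3_c k1344_B00pm_011_s3 t4069_B00pm_011_s3

theorem t4071_B00pm_011_s3 : ∃ t, chk3 f_B00pm_011_s3 t 476 2001 39 = true := ex3_a t4070_B00pm_011_s3 k1348_B00pm_011_s3

theorem t4072_B00pm_011_s3 : ∃ t, chk3 f_B00pm_011_s3 t 476 2001 19 = true := ex3_c k1343_B00pm_011_s3 t4071_B00pm_011_s3

theorem t4073_B00pm_011_s3 : ∃ t, chk3 f_B00pm_011_s3 t 1907 4000 19 = true := ex3_b k1340_B00pm_011_s3 k1341_B00pm_011_s3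

theorem t4074_B00pm_011_s3 : ∃ t, chk3 f_B00pm_011_s3 t 953 4000 19 = true := ex3_a k1339_B00pm_011_s3 t4073_B00pm_011_s3

theorem t4075_B00pm_011_s3 : ∃ t, chk3 f_B00pm_011_s3 t 953 2000 19 = true := ex3_b t4074_B00pm_011_s3 k1342_B00pm_011_s3

theorem t4076_B00pm_011_s3 : ∃ t, chk3 f_B00pm_011_s3 t 952 2000 19 = true := ex3_b k1337_B00pm_011_s3 k1338_B00pm_011_s3

theorem t4077_B00pm_011_s3 : ∃ t, chk3 f_B00pm_011_s3 t 476 2000 19 = true := ex3_a t4076_B00pm_011_s3 t4075_B00pm_011_s3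

theorem t4078_B00pm_011_s3 : ∃ t, chk3 f_B00pm_011_s3 t 476 1000 19 = true := ex3_b t4077_B00pm_011_s3 t4072_B00pm_011_s3

theorem t4079_B00pm_011_s3 : ∃ t, chk3 f_B00pm_011_s3 t 476 500 19 = true := ex3_b t4078_B00pm_011_s3 t4067_B00pm_011_s3

theorem t4080_B00pm_011_s3 : ∃ t, chk3 f_B00pm_011_s3 t 238 500 19 = true := ex3_a t4079_B00pm_011_s3 t4060_B00pm_011_s3

theorem t4081_B00pm_011_s3 : ∃ t, chk3 f_B00pm_011_s3 t 238 250 19 = true := ex3_b t4080_B00pm_011_s3 t4035_B00pm_011_s3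

theorem t4082_B00pm_011_s3 : ∃ t, chk3 f_B00pm_011_s3 t 477 1003 36 = true := ex3_a k1334_B00pm_011_s3 k1335_B00pm_011_s3

theorem t4083_B00pm_011_s3 : ∃ t, chk3 f_B00pm_011_s3 t 477 1003 18 = true := ex3_c t4082_B00pm_011_s3 k1336_B00pm_011_s3

theorem t4084_B00pm_011_s3 : ∃ t, chk3 f_B00pm_011_s3 t 238 1003 18 = true := ex3_a k1333_B00pm_011_s3 t4083_B00pm_011_s3

theorem t4085_B00pm_011_s3 : ∃ t, chk3 f_B00pm_011_s3 t 955 2004 37 = true := ex3_c k1330_B00pm_011_s3 k1331_B00pm_011_s3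

theorem t4086_B00pm_011_s3 : ∃ t, chk3 f_B00pm_011_s3 t 955 1002 37 = true := ex3_b t4085_B00pm_011_s3 k1332_B00pm_011_s3

theorem t4087_B00pm_011_s3 : ∃ t, chk3 f_B00pm_011_s3 t 477 1002 37 = true := ex3_a k1329_B00pm_011_s3 t4086_B00pm_011_s3

theorem t4088_B00pm_011_s3 : ∃ t, chk3 f_B00pm_011_s3 t 477 1002 36 = true := ex3_b k1327_B00pm_011_s3 k1328_B00pm_011_s3

theorem t4089_B00pm_011_s3 : ∃ t, chk3 f_B00pm_011_s3 t 477 1002 18 = true := ex3_c t4088_B00pm_011_s3 t4087_B00pm_011_s3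

theorem t4090_B00pm_011_s3 : ∃ t, chk3 f_B00pm_011_s3 t 476 1002 18 = true := ex3_c k1325_B00pm_011_s3 k1326_B00pm_011_s3

theorem t4091_B00pm_011_s3 : ∃ t, chk3 f_B00pm_011_s3 t 238 1002 18 = true := ex3_a t4090_B00pm_011_s3 t4089_B00pm_011_s3

theorem t4092_B00pm_011_s3 : ∃ t, chk3 f_B00pm_011_s3 t 238 501 18 = true := ex3_b t4091_B00pm_011_s3 t4084_B00pm_011_s3

theorem t4093_B00pm_011_s3 : ∃ t, chk3 f_B00pm_011_s3 t 1911 2003 151 = true := ex3_b k1323_B00pm_011_s3 k1324_B00pm_011_s3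

theorem t4094_B00pm_011_s3 : ∃ t, chk3 f_B00pm_011_s3 t 1911 2003 75 = true := ex3_c k1322_B00pm_011_s3 t4093_B00pm_011_s3

theorem t4095_B00pm_011_s3 : ∃ t, chk3 f_B00pm_011_s3 t 955 2003 75 = true := ex3_a k1321_B00pm_011_s3 t4094_B00pm_011_s3

theorem t4096_B00pm_011_s3 : ∃ t, chk3 f_B00pm_011_s3 t 955 2003 37 = true := ex3_c k1320_B00pm_011_s3 t4095_B00pm_011_s3

theorem t4097_B00pm_011_s3 : ∃ t, chk3 f_B00pm_011_s3 t 1910 4005 75 = true := ex3_c k1317_B00pm_011_s3 k1318_B00pm_011_s3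

theorem t4098_B00pm_011_s3 : ∃ t, chk3 f_B00pm_011_s3 t 1910 4004 151 = true := ex3_a k1315_B00pm_011_s3 k1316_B00pm_011_s3

theorem t4099_B00pm_011_s3 : ∃ t, chk3 f_B00pm_011_s3 t 1910 4004 75 = true := ex3_c k1314_B00pm_011_s3 t4098_B00pm_011_s3

theorem t4100_B00pm_011_s3 : ∃ t, chk3 f_B00pm_011_s3 t 1910 2002 75 = true := ex3_b t4099_B00pm_011_s3 t4097_B00pm_011_s3

theorem t4101_B00pm_011_s3 : ∃ t, chk3 f_B00pm_011_s3 t 955 2002 75 = true := ex3_a t4100_B00pm_011_s3 k1319_B00pm_011_s3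

theorem t4102_B00pm_011_s3 : ∃ t, chk3 f_B00pm_011_s3 t 955 2002 37 = true := ex3_c k1313_B00pm_011_s3 t4101_B00pm_011_s3

theorem t4103_B00pm_011_s3 : ∃ t, chk3 f_B00pm_011_s3 t 955 1001 37 = true := ex3_b t4102_B00pm_011_s3 t4096_B00pm_011_s3

theorem t4104_B00pm_011_s3 : ∃ t, chk3 f_B00pm_011_s3 t 954 2003 74 = true := ex3_a k1310_B00pm_011_s3 k1311_B00pm_011_s3

theorem t4105_B00pm_011_s3 : ∃ t, chk3 f_B00pm_011_s3 t 954 2003 37 = true := ex3_c t4104_B00pm_011_s3 k1312_B00pm_011_s3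

theorem t4106_B00pm_011_s3 : ∃ t, chk3 f_B00pm_011_s3 t 1909 4004 150 = true := ex3_a k1306_B00pm_011_s3 k1307_B00pm_011_s3

theorem t4107_B00pm_011_s3 : ∃ t, chk3 f_B00pm_011_s3 t 1909 4004 75 = true := ex3_c t4106_B00pm_011_s3 k1308_B00pm_011_s3

theorem t4108_B00pm_011_s3 : ∃ t, chk3 f_B00pm_011_s3 t 1909 2002 75 = true := ex3_b t4107_B00pm_011_s3 k1309_B00pm_011_s3

theorem t4109_B00pm_011_s3 : ∃ t, chk3 f_B00pm_011_s3 t 954 2002 75 = true := ex3_a k1305_B00pm_011_s3 t4108_B00pm_011_s3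

theorem t4110_B00pm_011_s3 : ∃ t, chk3 f_B00pm_011_s3 t 1908 2002 74 = true := ex3_b k1302_B00pm_011_s3 k1303_B00pm_011_s3

theorem t4111_B00pm_011_s3 : ∃ t, chk3 f_B00pm_011_s3 t 954 2002 74 = true := ex3_a t4110_B00pm_011_s3 k1304_B00pm_011_s3

theorem t4112_B00pm_011_s3 : ∃ t, chk3 f_B00pm_011_s3 t 954 2002 37 = true := ex3_c t4111_B00pm_011_s3 t4109_B00pm_011_s3

theorem t4113_B00pm_011_s3 : ∃ t, chk3 f_B00pm_011_s3 t 954 1001 37 = true := ex3_b t4112_B00pm_011_s3 t4105_B00pm_011_s3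

theorem t4114_B00pm_011_s3 : ∃ t, chk3 f_B00pm_011_s3 t 477 1001 37 = true := ex3_a t4113_B00pm_011_s3 t4103_B00pm_011_s3

theorem t4115_B00pm_011_s3 : ∃ t, chk3 f_B00pm_011_s3 t 477 2001 303 = true := ex3_a k1300_B00pm_011_s3 k1301_B00pm_011_s3

theorem t4116_B00pm_011_s3 : ∃ t, chk3 f_B00pm_011_s3 t 477 1000 303 = true := ex3_b k1299_B00pm_011_s3 t4115_B00pm_011_s3

theorem t4117_B00pm_011_s3 : ∃ t, chk3 f_B00pm_011_s3 t 477 1000 302 = true := ex3_c k1297_B00pm_011_s3 k1298_B00pm_011_s3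

theorem t4118_B00pm_011_s3 : ∃ t, chk3 f_B00pm_011_s3 t 477 1000 151 = true := ex3_c t4117_B00pm_011_s3 t4116_B00pm_011_s3

theorem t4119_B00pm_011_s3 : ∃ t, chk3 f_B00pm_011_s3 t 954 1000 301 = true := ex3_a k1294_B00pm_011_s3 k1295_B00pm_011_s3

theorem t4120_B00pm_011_s3 : ∃ t, chk3 f_B00pm_011_s3 t 477 1000 301 = true := ex3_a t4119_B00pm_011_s3 k1296_B00pm_011_s3

theorem t4121_B00pm_011_s3 : ∃ t, chk3 f_B00pm_011_s3 t 1908 2001 300 = true := ex3_b k1290_B00pm_011_s3 k1291_B00pm_011_s3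

theorem t4122_B00pm_011_s3 : ∃ t, chk3 f_B00pm_011_s3 t 954 2001 300 = true := ex3_a t4121_B00pm_011_s3 k1292_B00pm_011_s3

theorem t4123_B00pm_011_s3 : ∃ t, chk3 f_B00pm_011_s3 t 477 2001 300 = true := ex3_a t4122_B00pm_011_s3 k1293_B00pm_011_s3

theorem t4124_B00pm_011_s3 : ∃ t, chk3 f_B00pm_011_s3 t 477 1000 300 = true := ex3_b k1289_B00pm_011_s3 t4123_B00pm_011_s3

theorem t4125_B00pm_011_s3 : ∃ t, chk3 f_B00pm_011_s3 t 477 1000 150 = true := ex3_c t4124_B00pm_011_s3 t4120_B00pm_011_s3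

theorem t4126_B00pm_011_s3 : ∃ t, chk3 f_B00pm_011_s3 t 477 1000 75 = true := ex3_c t4125_B00pm_011_s3 t4118_B00pm_011_s3

theorem t4127_B00pm_011_s3 : ∃ t, chk3 f_B00pm_011_s3 t 477 1000 74 = true := ex3_c k1287_B00pm_011_s3 k1288_B00pm_011_s3

theorem t4128_B00pm_011_s3 : ∃ t, chk3 f_B00pm_011_s3 t 477 1000 37 = true := ex3_c t4127_B00pm_011_s3 t4126_B00pm_011_s3

theorem t4129_B00pm_011_s3 : ∃ t, chk3 f_B00pm_011_s3 t 477 500 37 = true := ex3_b t4128_B00pm_011_s3 t4114_B00pm_011_s3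

theorem t4130_B00pm_011_s3 : ∃ t, chk3 f_B00pm_011_s3 t 477 2001 36 = true := ex3_a k1284_B00pm_011_s3 k1285_B00pm_011_s3

theorem t4131_B00pm_011_s3 : ∃ t, chk3 f_B00pm_011_s3 t 477 1000 36 = true := ex3_b k1283_B00pm_011_s3 t4130_B00pm_011_s3

theorem t4132_B00pm_011_s3 : ∃ t, chk3 f_B00pm_011_s3 t 477 500 36 = true := ex3_b t4131_B00pm_011_s3 k1286_B00pm_011_s3

theorem t4133_B00pm_011_s3 : ∃ t, chk3 f_B00pm_011_s3 t 477 500 18 = true := ex3_c t4132_B00pm_011_s3 t4129_B00pm_011_s3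

theorem t4134_B00pm_011_s3 : ∃ t, chk3 f_B00pm_011_s3 t 953 2002 37 = true := ex3_c k1280_B00pm_011_s3 k1281_B00pm_011_s3

theorem t4135_B00pm_011_s3 : ∃ t, chk3 f_B00pm_011_s3 t 476 2002 37 = true := ex3_a k1279_B00pm_011_s3 t4134_B00pm_011_s3

theorem t4136_B00pm_011_s3 : ∃ t, chk3 f_B00pm_011_s3 t 476 1001 37 = true := ex3_b t4135_B00pm_011_s3 k1282_B00pm_011_s3

theorem t4137_B00pm_011_s3 : ∃ t, chk3 f_B00pm_011_s3 t 953 2003 36 = true := ex3_c k1277_B00pm_011_s3 k1278_B00pm_011_s3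

theorem t4138_B00pm_011_s3 : ∃ t, chk3 f_B00pm_011_s3 t 953 2002 73 = true := ex3_a k1275_B00pm_011_s3 k1276_B00pm_011_s3

theorem t4139_B00pm_011_s3 : ∃ t, chk3 f_B00pm_011_s3 t 953 2002 36 = true := ex3_c k1274_B00pm_011_s3 t4138_B00pm_011_s3

theorem t4140_B00pm_011_s3 : ∃ t, chk3 f_B00pm_011_s3 t 953 1001 36 = true := ex3_b t4139_B00pm_011_s3 t4137_B00pm_011_s3

theorem t4141_B00pm_011_s3 : ∃ t, chk3 f_B00pm_011_s3 t 952 2002 36 = true := ex3_c k1271_B00pm_011_s3 k1272_B00pm_011_s3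

theorem t4142_B00pm_011_s3 : ∃ t, chk3 f_B00pm_011_s3 t 952 1001 36 = true := ex3_b t4141_B00pm_011_s3 k1273_B00pm_011_s3

theorem t4143_B00pm_011_s3 : ∃ t, chk3 f_B00pm_011_s3 t 476 1001 36 = true := ex3_a t4142_B00pm_011_s3 t4140_B00pm_011_s3

theorem t4144_B00pm_011_s3 : ∃ t, chk3 f_B00pm_011_s3 t 476 1001 18 = true := ex3_c t4143_B00pm_011_s3 t4136_B00pm_011_s3

theorem t4145_B00pm_011_s3 : ∃ t, chk3 f_B00pm_011_s3 t 1907 4003 74 = true := ex3_c k1268_B00pm_011_s3 k1269_B00pm_011_s3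

theorem t4146_B00pm_011_s3 : ∃ t, chk3 f_B00pm_011_s3 t 953 4003 74 = true := ex3_a k1267_B00pm_011_s3 t4145_B00pm_011_s3

theorem t4147_B00pm_011_s3 : ∃ t, chk3 f_B00pm_011_s3 t 953 4003 37 = true := ex3_c t4146_B00pm_011_s3 k1270_B00pm_011_s3

theorem t4148_B00pm_011_s3 : ∃ t, chk3 f_B00pm_011_s3 t 1907 4002 75 = true := ex3_b k1265_B00pm_011_s3 k1266_B00pm_011_s3

theorem t4149_B00pm_011_s3 : ∃ t, chk3 f_B00pm_011_s3 t 1907 4002 149 = true := ex3_a k1263_B00pm_011_s3 k1264_B00pm_011_s3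

theorem t4150_B00pm_011_s3 : ∃ t, chk3 f_B00pm_011_s3 t 1907 4002 74 = true := ex3_c k1262_B00pm_011_s3 t4149_B00pm_011_s3

theorem t4151_B00pm_011_s3 : ∃ t, chk3 f_B00pm_011_s3 t 1907 4002 37 = true := ex3_c t4150_B00pm_011_s3 t4148_B00pm_011_s3

theorem t4152_B00pm_011_s3 : ∃ t, chk3 f_B00pm_011_s3 t 1906 4002 74 = true := ex3_c k1259_B00pm_011_s3 k1260_B00pm_011_s3

theorem t4153_B00pm_011_s3 : ∃ t, chk3 f_B00pm_011_s3 t 1906 4002 37 = true := ex3_c t4152_B00pm_011_s3 k1261_B00pm_011_s3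

theorem t4154_B00pm_011_s3 : ∃ t, chk3 f_B00pm_011_s3 t 953 4002 37 = true := ex3_a t4153_B00pm_011_s3 t4151_B00pm_011_s3

theorem t4155_B00pm_011_s3 : ∃ t, chk3 f_B00pm_011_s3 t 953 2001 37 = true := ex3_b t4154_B00pm_011_s3 t4147_B00pm_011_s3

theorem t4156_B00pm_011_s3 : ∃ t, chk3 f_B00pm_011_s3 t 952 2001 74 = true := ex3_c k1256_B00pm_011_s3 k1257_B00pm_011_s3

theorem t4157_B00pm_011_s3 : ∃ t, chk3 f_B00pm_011_s3 t 952 2001 37 = true := ex3_c t4156_B00pm_011_s3 k1258_B00pm_011_s3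

theorem t4158_B00pm_011_s3 : ∃ t, chk3 f_B00pm_011_s3 t 476 2001 37 = true := ex3_a t4157_B00pm_011_s3 t4155_B00pm_011_s3

theorem t4159_B00pm_011_s3 : ∃ t, chk3 f_B00pm_011_s3 t 1906 4001 148 = true := ex3_a k1251_B00pm_011_s3 k1252_B00pm_011_s3

theorem t4160_B00pm_011_s3 : ∃ t, chk3 f_B00pm_011_s3 t 1906 4001 74 = true := ex3_c t4159_B00pm_011_s3 k1253_B00pm_011_s3

theorem t4161_B00pm_011_s3 : ∃ t, chk3 f_B00pm_011_s3 t 1906 2000 74 = true := ex3_b k1250_B00pm_011_s3 t4160_B00pm_011_s3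

theorem t4162_B00pm_011_s3 : ∃ t, chk3 f_B00pm_011_s3 t 953 2000 74 = true := ex3_a t4161_B00pm_011_s3 k1254_B00pm_011_s3

theorem t4163_B00pm_011_s3 : ∃ t, chk3 f_B00pm_011_s3 t 953 2000 37 = true := ex3_c t4162_B00pm_011_s3 k1255_B00pm_011_s3

theorem t4164_B00pm_011_s3 : ∃ t, chk3 f_B00pm_011_s3 t 1905 4001 74 = true := ex3_c k1247_B00pm_011_s3 k1248_B00pm_011_s3

theorem t4165_B00pm_011_s3 : ∃ t, chk3 f_B00pm_011_s3 t 1905 4001 37 = true := ex3_c t4164_B00pm_011_s3 k1249_B00pm_011_s3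

theorem t4166_B00pm_011_s3 : ∃ t, chk3 f_B00pm_011_s3 t 952 4001 37 = true := ex3_a k1246_B00pm_011_s3 t4165_B00pm_011_s3

theorem t4167_B00pm_011_s3 : ∃ t, chk3 f_B00pm_011_s3 t 1905 4000 74 = true := ex3_b k1243_B00pm_011_s3 k1244_B00pm_011_s3

theorem t4168_B00pm_011_s3 : ∃ t, chk3 f_B00pm_011_s3 t 952 4000 74 = true := ex3_a k1242_B00pm_011_s3 t4167_B00pm_011_s3

theorem t4169_B00pm_011_s3 : ∃ t, chk3 f_B00pm_011_s3 t 952 4000 37 = true := ex3_c t4168_B00pm_011_s3 k1245_B00pm_011_s3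

theorem t4170_B00pm_011_s3 : ∃ t, chk3 f_B00pm_011_s3 t 952 2000 37 = true := ex3_b t4169_B00pm_011_s3 t4166_B00pm_011_s3

theorem t4171_B00pm_011_s3 : ∃ t, chk3 f_B00pm_011_s3 t 476 2000 37 = true := ex3_a t4170_B00pm_011_s3 t4163_B00pm_011_s3

theorem t4172_B00pm_011_s3 : ∃ t, chk3 f_B00pm_011_s3 t 476 1000 37 = true := ex3_b t4171_B00pm_011_s3 t4158_B00pm_011_s3

theorem t4173_B00pm_011_s3 : ∃ t, chk3 f_B00pm_011_s3 t 953 1000 36 = true := ex3_b k1240_B00pm_011_s3 k1241_B00pm_011_s3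

theorem t4174_B00pm_011_s3 : ∃ t, chk3 f_B00pm_011_s3 t 1905 2001 73 = true := ex3_b k1238_B00pm_011_s3 k1239_B00pm_011_s3

theorem t4175_B00pm_011_s3 : ∃ t, chk3 f_B00pm_011_s3 t 952 2001 73 = true := ex3_a k1237_B00pm_011_s3 t4174_B00pm_011_s3

theorem t4176_B00pm_011_s3 : ∃ t, chk3 f_B00pm_011_s3 t 952 2001 36 = true := ex3_c k1236_B00pm_011_s3 t4175_B00pm_011_s3

theorem t4177_B00pm_011_s3 : ∃ t, chk3 f_B00pm_011_s3 t 1905 2000 73 = true := ex3_b k1234_B00pm_011_s3 k1235_B00pm_011_s3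

theorem t4178_B00pm_011_s3 : ∃ t, chk3 f_B00pm_011_s3 t 1904 4000 147 = true := ex3_a k1231_B00pm_011_s3 k1232_B00pm_011_s3

theorem t4179_B00pm_011_s3 : ∃ t, chk3 f_B00pm_011_s3 t 1904 4000 73 = true := ex3_c k1230_B00pm_011_s3 t4178_B00pm_011_s3

theorem t4180_B00pm_011_s3 : ∃ t, chk3 f_B00pm_011_s3 t 1904 2000 73 = true := ex3_b t4179_B00pm_011_s3 k1233_B00pm_011_s3

theorem t4181_B00pm_011_s3 : ∃ t, chk3 f_B00pm_011_s3 t 952 2000 73 = true := ex3_a t4180_B00pm_011_s3 t4177_B00pm_011_s3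

theorem t4182_B00pm_011_s3 : ∃ t, chk3 f_B00pm_011_s3 t 952 2000 36 = true := ex3_c k1229_B00pm_011_s3 t4181_B00pm_011_s3

theorem t4183_B00pm_011_s3 : ∃ t, chk3 f_B00pm_011_s3 t 952 1000 36 = true := ex3_b t4182_B00pm_011_s3 t4176_B00pm_011_s3

theorem t4184_B00pm_011_s3 : ∃ t, chk3 f_B00pm_011_s3 t 476 1000 36 = true := ex3_a t4183_B00pm_011_s3 t4173_B00pm_011_s3

theorem t4185_B00pm_011_s3 : ∃ t, chk3 f_B00pm_011_s3 t 476 1000 18 = true := ex3_c t4184_B00pm_011_s3 t4172_B00pm_011_s3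

theorem t4186_B00pm_011_s3 : ∃ t, chk3 f_B00pm_011_s3 t 476 500 18 = true := ex3_b t4185_B00pm_011_s3 t4144_B00pm_011_s3

theorem t4187_B00pm_011_s3 : ∃ t, chk3 f_B00pm_011_s3 t 238 500 18 = true := ex3_a t4186_B00pm_011_s3 t4133_B00pm_011_s3

theorem t4188_B00pm_011_s3 : ∃ t, chk3 f_B00pm_011_s3 t 238 250 18 = true := ex3_b t4187_B00pm_011_s3 t4092_B00pm_011_s3

theorem t4189_B00pm_011_s3 : ∃ t, chk3 f_B00pm_011_s3 t 238 250 9 = true := ex3_c t4188_B00pm_011_s3 t4081_B00pm_011_s3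

theorem t4190_B00pm_011_s3 : ∃ t, chk3 f_B00pm_011_s3 t 238 125 9 = true := ex3_b t4189_B00pm_011_s3 t4018_B00pm_011_s3

theorem t4191_B00pm_011_s3 : ∃ t, chk3 f_B00pm_011_s3 t 119 125 9 = true := ex3_a t4190_B00pm_011_s3 t3990_B00pm_011_s3

theorem t4192_B00pm_011_s3 : ∃ t, chk3 f_B00pm_011_s3 t 952 1999 39 = true := ex3_b k1224_B00pm_011_s3 k1225_B00pm_011_s3

theorem t4193_B00pm_011_s3 : ∃ t, chk3 f_B00pm_011_s3 t 952 999 39 = true := ex3_b k1223_B00pm_011_s3 t4192_B00pm_011_s3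

theorem t4194_B00pm_011_s3 : ∃ t, chk3 f_B00pm_011_s3 t 476 999 39 = true := ex3_a t4193_B00pm_011_s3 k1226_B00pm_011_s3

theorem t4195_B00pm_011_s3 : ∃ t, chk3 f_B00pm_011_s3 t 952 1999 38 = true := ex3_b k1220_B00pm_011_s3 k1221_B00pm_011_s3

theorem t4196_B00pm_011_s3 : ∃ t, chk3 f_B00pm_011_s3 t 952 999 38 = true := ex3_b k1219_B00pm_011_s3 t4195_B00pm_011_s3

theorem t4197_B00pm_011_s3 : ∃ t, chk3 f_B00pm_011_s3 t 476 999 38 = true := ex3_a t4196_B00pm_011_s3 k1222_B00pm_011_s3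

theorem t4198_B00pm_011_s3 : ∃ t, chk3 f_B00pm_011_s3 t 476 999 19 = true := ex3_c t4197_B00pm_011_s3 t4194_B00pm_011_s3

theorem t4199_B00pm_011_s3 : ∃ t, chk3 f_B00pm_011_s3 t 476 499 19 = true := ex3_b k1218_B00pm_011_s3 t4198_B00pm_011_s3

theorem t4200_B00pm_011_s3 : ∃ t, chk3 f_B00pm_011_s3 t 476 249 19 = true := ex3_b k1217_B00pm_011_s3 t4199_B00pm_011_s3

theorem t4201_B00pm_011_s3 : ∃ t, chk3 f_B00pm_011_s3 t 238 249 19 = true := ex3_a t4200_B00pm_011_s3 k1227_B00pm_011_s3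

theorem t4202_B00pm_011_s3 : ∃ t, chk3 f_B00pm_011_s3 t 119 249 19 = true := ex3_a t4201_B00pm_011_s3 k1228_B00pm_011_s3

theorem t4203_B00pm_011_s3 : ∃ t, chk3 f_B00pm_011_s3 t 119 124 19 = true := ex3_b k1216_B00pm_011_s3 t4202_B00pm_011_s3

theorem t4204_B00pm_011_s3 : ∃ t, chk3 f_B00pm_011_s3 t 476 499 37 = true := ex3_a k1212_B00pm_011_s3 k1213_B00pm_011_s3

theorem t4205_B00pm_011_s3 : ∃ t, chk3 f_B00pm_011_s3 t 476 499 18 = true := ex3_c k1211_B00pm_011_s3 t4204_B00pm_011_s3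

theorem t4206_B00pm_011_s3 : ∃ t, chk3 f_B00pm_011_s3 t 238 499 18 = true := ex3_a t4205_B00pm_011_s3 k1214_B00pm_011_s3

theorem t4207_B00pm_011_s3 : ∃ t, chk3 f_B00pm_011_s3 t 119 499 18 = true := ex3_a t4206_B00pm_011_s3 k1215_B00pm_011_s3

theorem t4208_B00pm_011_s3 : ∃ t, chk3 f_B00pm_011_s3 t 119 249 18 = true := ex3_b k1210_B00pm_011_s3 t4207_B00pm_011_s3

theorem t4209_B00pm_011_s3 : ∃ t, chk3 f_B00pm_011_s3 t 119 124 18 = true := ex3_b k1209_B00pm_011_s3 t4208_B00pm_011_s3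

theorem t4210_B00pm_011_s3 : ∃ t, chk3 f_B00pm_011_s3 t 119 124 9 = true := ex3_c t4209_B00pm_011_s3 t4203_B00pm_011_s3

theorem t4211_B00pm_011_s3 : ∃ t, chk3 f_B00pm_011_s3 t 119 62 9 = true := ex3_b t4210_B00pm_011_s3 t4191_B00pm_011_s3

theorem t4212_B00pm_011_s3 : ∃ t, chk3 f_B00pm_011_s3 t 239 503 17 = true := ex3_a k1207_B00pm_011_s3 k1208_B00pm_011_s3

theorem t4213_B00pm_011_s3 : ∃ t, chk3 f_B00pm_011_s3 t 119 503 17 = true := ex3_a k1206_B00pm_011_s3 t4212_B00pm_011_s3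

theorem t4214_B00pm_011_s3 : ∃ t, chk3 f_B00pm_011_s3 t 119 503 8 = true := ex3_c k1205_B00pm_011_s3 t4213_B00pm_011_s3

theorem t4215_B00pm_011_s3 : ∃ t, chk3 f_B00pm_011_s3 t 238 1005 17 = true := ex3_c k1202_B00pm_011_s3 k1203_B00pm_011_s3

theorem t4216_B00pm_011_s3 : ∃ t, chk3 f_B00pm_011_s3 t 238 1004 17 = true := ex3_a k1200_B00pm_011_s3 k1201_B00pm_011_s3

theorem t4217_B00pm_011_s3 : ∃ t, chk3 f_B00pm_011_s3 t 238 502 17 = true := ex3_b t4216_B00pm_011_s3 t4215_B00pm_011_s3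

theorem t4218_B00pm_011_s3 : ∃ t, chk3 f_B00pm_011_s3 t 238 502 8 = true := ex3_c k1199_B00pm_011_s3 t4217_B00pm_011_s3

theorem t4219_B00pm_011_s3 : ∃ t, chk3 f_B00pm_011_s3 t 119 502 8 = true := ex3_a t4218_B00pm_011_s3 k1204_B00pm_011_s3

theorem t4220_B00pm_011_s3 : ∃ t, chk3 f_B00pm_011_s3 t 119 251 8 = true := ex3_b t4219_B00pm_011_s3 t4214_B00pm_011_s3

theorem t4221_B00pm_011_s3 : ∃ t, chk3 f_B00pm_011_s3 t 239 1003 8 = true := ex3_a k1197_B00pm_011_s3 k1198_B00pm_011_s3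

theorem t4222_B00pm_011_s3 : ∃ t, chk3 f_B00pm_011_s3 t 479 2005 8 = true := ex3_a k1195_B00pm_011_s3 k1196_B00pm_011_s3

theorem t4223_B00pm_011_s3 : ∃ t, chk3 f_B00pm_011_s3 t 1919 8018 8 = true := ex3_a k1192_B00pm_011_s3 k1193_B00pm_011_s3

theorem t4224_B00pm_011_s3 : ∃ t, chk3 f_B00pm_011_s3 t 1919 4009 8 = true := ex3_b t4223_B00pm_011_s3 k1194_B00pm_011_s3

theorem t4225_B00pm_011_s3 : ∃ t, chk3 f_B00pm_011_s3 t 959 4009 8 = true := ex3_a k1191_B00pm_011_s3 t4224_B00pm_011_s3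

theorem t4226_B00pm_011_s3 : ∃ t, chk3 f_B00pm_011_s3 t 3839 8017 17 = true := ex3_a k1189_B00pm_011_s3 k1190_B00pm_011_s3

theorem t4227_B00pm_011_s3 : ∃ t, chk3 f_B00pm_011_s3 t 3838 8017 17 = true := ex3_b k1187_B00pm_011_s3 k1188_B00pm_011_s3

theorem t4228_B00pm_011_s3 : ∃ t, chk3 f_B00pm_011_s3 t 1919 8017 17 = true := ex3_a t4227_B00pm_011_s3 t4226_B00pm_011_s3

theorem t4229_B00pm_011_s3 : ∃ t, chk3 f_B00pm_011_s3 t 7679 16035 16 = true := ex3_b k1185_B00pm_011_s3 k1186_B00pm_011_s3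

theorem t4230_B00pm_011_s3 : ∃ t, chk3 f_B00pm_011_s3 t 3839 16035 16 = true := ex3_a k1184_B00pm_011_s3 t4229_B00pm_011_s3

theorem t4231_B00pm_011_s3 : ∃ t, chk3 f_B00pm_011_s3 t 3839 8017 16 = true := ex3_b k1183_B00pm_011_s3 t4230_B00pm_011_s3

theorem t4232_B00pm_011_s3 : ∃ t, chk3 f_B00pm_011_s3 t 3838 16034 16 = true := ex3_b k1180_B00pm_011_s3 k1181_B00pm_011_s3

theorem t4233_B00pm_011_s3 : ∃ t, chk3 f_B00pm_011_s3 t 3838 8017 16 = true := ex3_b t4232_B00pm_011_s3 k1182_B00pm_011_s3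

theorem t4234_B00pm_011_s3 : ∃ t, chk3 f_B00pm_011_s3 t 1919 8017 16 = true := ex3_a t4233_B00pm_011_s3 t4231_B00pm_011_s3

theorem t4235_B00pm_011_s3 : ∃ t, chk3 f_B00pm_011_s3 t 1919 8017 8 = true := ex3_c t4234_B00pm_011_s3 t4228_B00pm_011_s3

theorem t4236_B00pm_011_s3 : ∃ t, chk3 f_B00pm_011_s3 t 959 8017 8 = true := ex3_a k1179_B00pm_011_s3 t4235_B00pm_011_s3

theorem t4237_B00pm_011_s3 : ∃ t, chk3 f_B00pm_011_s3 t 3837 16032 17 = true := ex3_b k1175_B00pm_011_s3 k1176_B00pm_011_s3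

theorem t4238_B00pm_011_s3 : ∃ t, chk3 f_B00pm_011_s3 t 3837 8016 17 = true := ex3_b t4237_B00pm_011_s3 k1177_B00pm_011_s3

theorem t4239_B00pm_011_s3 : ∃ t, chk3 f_B00pm_011_s3 t 1918 8016 17 = true := ex3_a k1174_B00pm_011_s3 t4238_B00pm_011_s3

theorem t4240_B00pm_011_s3 : ∃ t, chk3 f_B00pm_011_s3 t 959 8016 17 = true := ex3_a t4239_B00pm_011_s3 k1178_B00pm_011_s3

theorem t4241_B00pm_011_s3 : ∃ t, chk3 f_B00pm_011_s3 t 1919 8016 16 = true := ex3_c k1172_B00pm_011_s3 k1173_B00pm_011_s3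

theorem t4242_B00pm_011_s3 : ∃ t, chk3 f_B00pm_011_s3 t 3837 16032 16 = true := ex3_b k1169_B00pm_011_s3 k1170_B00pm_011_s3

theorem t4243_B00pm_011_s3 : ∃ t, chk3 f_B00pm_011_s3 t 3837 8016 16 = true := ex3_b t4242_B00pm_011_s3 k1171_B00pm_011_s3

theorem t4244_B00pm_011_s3 : ∃ t, chk3 f_B00pm_011_s3 t 1918 8016 16 = true := ex3_a k1168_B00pm_011_s3 t4243_B00pm_011_s3

theorem t4245_B00pm_011_s3 : ∃ t, chk3 f_B00pm_011_s3 t 959 8016 16 = true := ex3_a t4244_B00pm_011_s3 t4241_B00pm_011_s3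

theorem t4246_B00pm_011_s3 : ∃ t, chk3 f_B00pm_011_s3 t 959 8016 8 = true := ex3_c t4245_B00pm_011_s3 t4240_B00pm_011_s3

theorem t4247_B00pm_011_s3 : ∃ t, chk3 f_B00pm_011_s3 t 959 4008 8 = true := ex3_b t4246_B00pm_011_s3 t4236_B00pm_011_s3

theorem t4248_B00pm_011_s3 : ∃ t, chk3 f_B00pm_011_s3 t 959 2004 8 = true := ex3_b t4247_B00pm_011_s3 t4225_B00pm_011_s3

theorem t4249_B00pm_011_s3 : ∃ t, chk3 f_B00pm_011_s3 t 958 2004 8 = true := ex3_b k1166_B00pm_011_s3 k1167_B00pm_011_s3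

theorem t4250_B00pm_011_s3 : ∃ t, chk3 f_B00pm_011_s3 t 479 2004 8 = true := ex3_a t4249_B00pm_011_s3 t4248_B00pm_011_s3

theorem t4251_B00pm_011_s3 : ∃ t, chk3 f_B00pm_011_s3 t 479 1002 8 = true := ex3_b t4250_B00pm_011_s3 t4222_B00pm_011_s3

theorem t4252_B00pm_011_s3 : ∃ t, chk3 f_B00pm_011_s3 t 239 1002 8 = true := ex3_a k1165_B00pm_011_s3 t4251_B00pm_011_s3

theorem t4253_B00pm_011_s3 : ∃ t, chk3 f_B00pm_011_s3 t 239 501 8 = true := ex3_b t4252_B00pm_011_s3 t4221_B00pm_011_s3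

theorem t4254_B00pm_011_s3 : ∃ t, chk3 f_B00pm_011_s3 t 1918 2003 17 = true := ex3_c k1162_B00pm_011_s3 k1163_B00pm_011_s3

theorem t4255_B00pm_011_s3 : ∃ t, chk3 f_B00pm_011_s3 t 1918 1001 17 = true := ex3_b k1161_B00pm_011_s3 t4254_B00pm_011_s3

theorem t4256_B00pm_011_s3 : ∃ t, chk3 f_B00pm_011_s3 t 959 1001 17 = true := ex3_a t4255_B00pm_011_s3 k1164_B00pm_011_s3

theorem t4257_B00pm_011_s3 : ∃ t, chk3 f_B00pm_011_s3 t 1918 8015 32 = true := ex3_a k1157_B00pm_011_s3 k1158_B00pm_011_s3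

theorem t4258_B00pm_011_s3 : ∃ t, chk3 f_B00pm_011_s3 t 1918 4007 32 = true := ex3_b k1156_B00pm_011_s3 t4257_B00pm_011_s3

theorem t4259_B00pm_011_s3 : ∃ t, chk3 f_B00pm_011_s3 t 1918 2003 32 = true := ex3_b k1155_B00pm_011_s3 t4258_B00pm_011_s3

theorem t4260_B00pm_011_s3 : ∃ t, chk3 f_B00pm_011_s3 t 1918 2003 16 = true := ex3_c t4259_B00pm_011_s3 k1159_B00pm_011_s3

theorem t4261_B00pm_011_s3 : ∃ t, chk3 f_B00pm_011_s3 t 1918 1001 16 = true := ex3_b k1154_B00pm_011_s3 t4260_B00pm_011_s3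

theorem t4262_B00pm_011_s3 : ∃ t, chk3 f_B00pm_011_s3 t 959 1001 16 = true := ex3_a t4261_B00pm_011_s3 k1160_B00pm_011_s3

theorem t4263_B00pm_011_s3 : ∃ t, chk3 f_B00pm_011_s3 t 959 1001 8 = true := ex3_c t4262_B00pm_011_s3 t4256_B00pm_011_s3

theorem t4264_B00pm_011_s3 : ∃ t, chk3 f_B00pm_011_s3 t 3834 8014 17 = true := ex3_b k1150_B00pm_011_s3 k1151_B00pm_011_s3

theorem t4265_B00pm_011_s3 : ∃ t, chk3 f_B00pm_011_s3 t 1917 8014 17 = true := ex3_a t4264_B00pm_011_s3 k1152_B00pm_011_s3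

theorem t4266_B00pm_011_s3 : ∃ t, chk3 f_B00pm_011_s3 t 1917 4007 17 = true := ex3_b t4265_B00pm_011_s3 k1153_B00pm_011_s3

theorem t4267_B00pm_011_s3 : ∃ t, chk3 f_B00pm_011_s3 t 958 4007 17 = true := ex3_a k1149_B00pm_011_s3 t4266_B00pm_011_s3

theorem t4268_B00pm_011_s3 : ∃ t, chk3 f_B00pm_011_s3 t 1916 8013 17 = true := ex3_a k1146_B00pm_011_s3 k1147_B00pm_011_s3

theorem t4269_B00pm_011_s3 : ∃ t, chk3 f_B00pm_011_s3 t 1916 4006 17 = true := ex3_b k1145_B00pm_011_s3 t4268_B00pm_011_s3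

theorem t4270_B00pm_011_s3 : ∃ t, chk3 f_B00pm_011_s3 t 958 4006 17 = true := ex3_a t4269_B00pm_011_s3 k1148_B00pm_011_s3

theorem t4271_B00pm_011_s3 : ∃ t, chk3 f_B00pm_011_s3 t 958 2003 17 = true := ex3_b t4270_B00pm_011_s3 t4267_B00pm_011_s3

theorem t4272_B00pm_011_s3 : ∃ t, chk3 f_B00pm_011_s3 t 1917 8015 16 = true := ex3_a k1143_B00pm_011_s3 k1144_B00pm_011_s3

theorem t4273_B00pm_011_s3 : ∃ t, chk3 f_B00pm_011_s3 t 3835 8014 16 = true := ex3_b k1141_B00pm_011_s3 k1142_B00pm_011_s3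

theorem t4274_B00pm_011_s3 : ∃ t, chk3 f_B00pm_011_s3 t 3834 16028 16 = true := ex3_a k1138_B00pm_011_s3 k1139_B00pm_011_s3

theorem t4275_B00pm_011_s3 : ∃ t, chk3 f_B00pm_011_s3 t 3834 8014 16 = true := ex3_b t4274_B00pm_011_s3 k1140_B00pm_011_s3

theorem t4276_B00pm_011_s3 : ∃ t, chk3 f_B00pm_011_s3 t 1917 8014 16 = true := ex3_a t4275_B00pm_011_s3 t4273_B00pm_011_s3

theorem t4277_B00pm_011_s3 : ∃ t, chk3 f_B00pm_011_s3 t 1917 4007 16 = true := ex3_b t4276_B00pm_011_s3 t4272_B00pm_011_s3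

theorem t4278_B00pm_011_s3 : ∃ t, chk3 f_B00pm_011_s3 t 958 4007 16 = true := ex3_a k1137_B00pm_011_s3 t4277_B00pm_011_s3

theorem t4279_B00pm_011_s3 : ∃ t, chk3 f_B00pm_011_s3 t 3833 8013 16 = true := ex3_b k1134_B00pm_011_s3 k1135_B00pm_011_s3

theorem t4280_B00pm_011_s3 : ∃ t, chk3 f_B00pm_011_s3 t 1916 8013 16 = true := ex3_a k1133_B00pm_011_s3 t4279_B00pm_011_s3

theorem t4281_B00pm_011_s3 : ∃ t, chk3 f_B00pm_011_s3 t 1916 4006 16 = true := ex3_b k1132_B00pm_011_s3 t4280_B00pm_011_s3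

theorem t4282_B00pm_011_s3 : ∃ t, chk3 f_B00pm_011_s3 t 958 4006 16 = true := ex3_a t4281_B00pm_011_s3 k1136_B00pm_011_s3

theorem t4283_B00pm_011_s3 : ∃ t, chk3 f_B00pm_011_s3 t 958 2003 16 = true := ex3_b t4282_B00pm_011_s3 t4278_B00pm_011_s3

theorem t4284_B00pm_011_s3 : ∃ t, chk3 f_B00pm_011_s3 t 958 2003 8 = true := ex3_c t4283_B00pm_011_s3 t4271_B00pm_011_s3

theorem t4285_B00pm_011_s3 : ∃ t, chk3 f_B00pm_011_s3 t 958 1001 8 = true := ex3_b k1131_B00pm_011_s3 t4284_B00pm_011_s3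

theorem t4286_B00pm_011_s3 : ∃ t, chk3 f_B00pm_011_s3 t 479 1001 8 = true := ex3_a t4285_B00pm_011_s3 t4263_B00pm_011_s3

theorem t4287_B00pm_011_s3 : ∃ t, chk3 f_B00pm_011_s3 t 3831 16024 8 = true := ex3_c k1126_B00pm_011_s3 k1127_B00pm_011_s3

theorem t4288_B00pm_011_s3 : ∃ t, chk3 f_B00pm_011_s3 t 3831 8012 8 = true := ex3_b t4287_B00pm_011_s3 k1128_B00pm_011_s3

theorem t4289_B00pm_011_s3 : ∃ t, chk3 f_B00pm_011_s3 t 1915 8012 8 = true := ex3_a k1125_B00pm_011_s3 t4288_B00pm_011_s3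

theorem t4290_B00pm_011_s3 : ∃ t, chk3 f_B00pm_011_s3 t 1915 4006 8 = true := ex3_b t4289_B00pm_011_s3 k1129_B00pm_011_s3

theorem t4291_B00pm_011_s3 : ∃ t, chk3 f_B00pm_011_s3 t 957 4006 8 = true := ex3_a k1124_B00pm_011_s3 t4290_B00pm_011_s3

theorem t4292_B00pm_011_s3 : ∃ t, chk3 f_B00pm_011_s3 t 957 2003 8 = true := ex3_b t4291_B00pm_011_s3 k1130_B00pm_011_s3

theorem t4293_B00pm_011_s3 : ∃ t, chk3 f_B00pm_011_s3 t 478 2003 8 = true := ex3_a k1123_B00pm_011_s3 t4292_B00pm_011_s3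

theorem t4294_B00pm_011_s3 : ∃ t, chk3 f_B00pm_011_s3 t 957 4005 35 = true := ex3_a k1121_B00pm_011_s3 k1122_B00pm_011_s3

theorem t4295_B00pm_011_s3 : ∃ t, chk3 f_B00pm_011_s3 t 478 4005 35 = true := ex3_a k1120_B00pm_011_s3 t4294_B00pm_011_s3

theorem t4296_B00pm_011_s3 : ∃ t, chk3 f_B00pm_011_s3 t 478 4004 35 = true := ex3_a k1118_B00pm_011_s3 k1119_B00pm_011_s3

theorem t4297_B00pm_011_s3 : ∃ t, chk3 f_B00pm_011_s3 t 478 2002 35 = true := ex3_b t4296_B00pm_011_s3 t4295_B00pm_011_s3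

theorem t4298_B00pm_011_s3 : ∃ t, chk3 f_B00pm_011_s3 t 957 4005 34 = true := ex3_a k1116_B00pm_011_s3 k1117_B00pm_011_s3

theorem t4299_B00pm_011_s3 : ∃ t, chk3 f_B00pm_011_s3 t 478 4005 34 = true := ex3_a k1115_B00pm_011_s3 t4298_B00pm_011_s3

theorem t4300_B00pm_011_s3 : ∃ t, chk3 f_B00pm_011_s3 t 956 4004 34 = true := ex3_a k1112_B00pm_011_s3 k1113_B00pm_011_s3

theorem t4301_B00pm_011_s3 : ∃ t, chk3 f_B00pm_011_s3 t 478 4004 34 = true := ex3_a t4300_B00pm_011_s3 k1114_B00pm_011_s3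

theorem t4302_B00pm_011_s3 : ∃ t, chk3 f_B00pm_011_s3 t 478 2002 34 = true := ex3_b t4301_B00pm_011_s3 t4299_B00pm_011_s3

theorem t4303_B00pm_011_s3 : ∃ t, chk3 f_B00pm_011_s3 t 478 2002 17 = true := ex3_c t4302_B00pm_011_s3 t4297_B00pm_011_s3

theorem t4304_B00pm_011_s3 : ∃ t, chk3 f_B00pm_011_s3 t 957 4005 33 = true := ex3_a k1110_B00pm_011_s3 k1111_B00pm_011_s3

theorem t4305_B00pm_011_s3 : ∃ t, chk3 f_B00pm_011_s3 t 478 4005 33 = true := ex3_a k1109_B00pm_011_s3 t4304_B00pm_011_s3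

theorem t4306_B00pm_011_s3 : ∃ t, chk3 f_B00pm_011_s3 t 956 4004 33 = true := ex3_a k1106_B00pm_011_s3 k1107_B00pm_011_s3

theorem t4307_B00pm_011_s3 : ∃ t, chk3 f_B00pm_011_s3 t 478 4004 33 = true := ex3_a t4306_B00pm_011_s3 k1108_B00pm_011_s3

theorem t4308_B00pm_011_s3 : ∃ t, chk3 f_B00pm_011_s3 t 478 2002 33 = true := ex3_b t4307_B00pm_011_s3 t4305_B00pm_011_s3

theorem t4309_B00pm_011_s3 : ∃ t, chk3 f_B00pm_011_s3 t 957 4005 32 = true := ex3_a k1104_B00pm_011_s3 k1105_B00pm_011_s3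

theorem t4310_B00pm_011_s3 : ∃ t, chk3 f_B00pm_011_s3 t 957 2002 32 = true := ex3_b k1103_B00pm_011_s3 t4309_B00pm_011_s3

theorem t4311_B00pm_011_s3 : ∃ t, chk3 f_B00pm_011_s3 t 956 4004 32 = true := ex3_a k1100_B00pm_011_s3 k1101_B00pm_011_s3

theorem t4312_B00pm_011_s3 : ∃ t, chk3 f_B00pm_011_s3 t 956 2002 32 = true := ex3_b t4311_B00pm_011_s3 k1102_B00pm_011_s3

theorem t4313_B00pm_011_s3 : ∃ t, chk3 f_B00pm_011_s3 t 478 2002 32 = true := ex3_a t4312_B00pm_011_s3 t4310_B00pm_011_s3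

theorem t4314_B00pm_011_s3 : ∃ t, chk3 f_B00pm_011_s3 t 478 2002 16 = true := ex3_c t4313_B00pm_011_s3 t4308_B00pm_011_s3

theorem t4315_B00pm_011_s3 : ∃ t, chk3 f_B00pm_011_s3 t 478 2002 8 = true := ex3_c t4314_B00pm_011_s3 t4303_B00pm_011_s3

theorem t4316_B00pm_011_s3 : ∃ t, chk3 f_B00pm_011_s3 t 478 1001 8 = true := ex3_b t4315_B00pm_011_s3 t4293_B00pm_011_s3

theorem t4317_B00pm_011_s3 : ∃ t, chk3 f_B00pm_011_s3 t 239 1001 8 = true := ex3_a t4316_B00pm_011_s3 t4286_B00pm_011_s3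

theorem t4318_B00pm_011_s3 : ∃ t, chk3 f_B00pm_011_s3 t 1912 2001 17 = true := ex3_c k1095_B00pm_011_s3 k1096_B00pm_011_s3

theorem t4319_B00pm_011_s3 : ∃ t, chk3 f_B00pm_011_s3 t 956 2001 17 = true := ex3_a t4318_B00pm_011_s3 k1097_B00pm_011_s3

theorem t4320_B00pm_011_s3 : ∃ t, chk3 f_B00pm_011_s3 t 1912 2001 16 = true := ex3_c k1092_B00pm_011_s3 k1093_B00pm_011_s3

theorem t4321_B00pm_011_s3 : ∃ t, chk3 f_B00pm_011_s3 t 956 2001 16 = true := ex3_a t4320_B00pm_011_s3 k1094_B00pm_011_s3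

theorem t4322_B00pm_011_s3 : ∃ t, chk3 f_B00pm_011_s3 t 956 2001 8 = true := ex3_c t4321_B00pm_011_s3 t4319_B00pm_011_s3

theorem t4323_B00pm_011_s3 : ∃ t, chk3 f_B00pm_011_s3 t 478 2001 8 = true := ex3_a t4322_B00pm_011_s3 k1098_B00pm_011_s3

theorem t4324_B00pm_011_s3 : ∃ t, chk3 f_B00pm_011_s3 t 239 2001 8 = true := ex3_a t4323_B00pm_011_s3 k1099_B00pm_011_s3

theorem t4325_B00pm_011_s3 : ∃ t, chk3 f_B00pm_011_s3 t 239 1000 8 = true := ex3_b k1091_B00pm_011_s3 t4324_B00pm_011_s3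

theorem t4326_B00pm_011_s3 : ∃ t, chk3 f_B00pm_011_s3 t 239 500 8 = true := ex3_b t4325_B00pm_011_s3 t4317_B00pm_011_s3

theorem t4327_B00pm_011_s3 : ∃ t, chk3 f_B00pm_011_s3 t 239 250 8 = true := ex3_b t4326_B00pm_011_s3 t4253_B00pm_011_s3

theorem t4328_B00pm_011_s3 : ∃ t, chk3 f_B00pm_011_s3 t 476 1003 17 = true := ex3_c k1088_B00pm_011_s3 k1089_B00pm_011_s3

theorem t4329_B00pm_011_s3 : ∃ t, chk3 f_B00pm_011_s3 t 238 1003 17 = true := ex3_a t4328_B00pm_011_s3 k1090_B00pm_011_s3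

theorem t4330_B00pm_011_s3 : ∃ t, chk3 f_B00pm_011_s3 t 476 1002 35 = true := ex3_a k1085_B00pm_011_s3 k1086_B00pm_011_s3

theorem t4331_B00pm_011_s3 : ∃ t, chk3 f_B00pm_011_s3 t 476 1002 17 = true := ex3_c k1084_B00pm_011_s3 t4330_B00pm_011_s3

theorem t4332_B00pm_011_s3 : ∃ t, chk3 f_B00pm_011_s3 t 238 1002 17 = true := ex3_a t4331_B00pm_011_s3 k1087_B00pm_011_s3

theorem t4333_B00pm_011_s3 : ∃ t, chk3 f_B00pm_011_s3 t 238 501 17 = true := ex3_b t4332_B00pm_011_s3 t4329_B00pm_011_s3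

theorem t4334_B00pm_011_s3 : ∃ t, chk3 f_B00pm_011_s3 t 238 501 8 = true := ex3_c k1083_B00pm_011_s3 t4333_B00pm_011_s3

theorem t4335_B00pm_011_s3 : ∃ t, chk3 f_B00pm_011_s3 t 238 1001 8 = true := ex3_a k1081_B00pm_011_s3 k1082_B00pm_011_s3

theorem t4336_B00pm_011_s3 : ∃ t, chk3 f_B00pm_011_s3 t 955 4003 17 = true := ex3_a k1079_B00pm_011_s3 k1080_B00pm_011_s3

theorem t4337_B00pm_011_s3 : ∃ t, chk3 f_B00pm_011_s3 t 1910 4002 17 = true := ex3_a k1076_B00pm_011_s3 k1077_B00pm_011_s3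

theorem t4338_B00pm_011_s3 : ∃ t, chk3 f_B00pm_011_s3 t 955 4002 17 = true := ex3_a t4337_B00pm_011_s3 k1078_B00pm_011_s3

theorem t4339_B00pm_011_s3 : ∃ t, chk3 f_B00pm_011_s3 t 955 2001 17 = true := ex3_b t4338_B00pm_011_s3 t4336_B00pm_011_s3

theorem t4340_B00pm_011_s3 : ∃ t, chk3 f_B00pm_011_s3 t 477 2001 17 = true := ex3_a k1075_B00pm_011_s3 t4339_B00pm_011_s3

theorem t4341_B00pm_011_s3 : ∃ t, chk3 f_B00pm_011_s3 t 954 2000 17 = true := ex3_a k1072_B00pm_011_s3 k1073_B00pm_011_s3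

theorem t4342_B00pm_011_s3 : ∃ t, chk3 f_B00pm_011_s3 t 477 2000 17 = true := ex3_a t4341_B00pm_011_s3 k1074_B00pm_011_s3

theorem t4343_B00pm_011_s3 : ∃ t, chk3 f_B00pm_011_s3 t 477 1000 17 = true := ex3_b t4342_B00pm_011_s3 t4340_B00pm_011_s3

theorem t4344_B00pm_011_s3 : ∃ t, chk3 f_B00pm_011_s3 t 1911 4003 16 = true := ex3_b k1070_B00pm_011_s3 k1071_B00pm_011_s3

theorem t4345_B00pm_011_s3 : ∃ t, chk3 f_B00pm_011_s3 t 955 4003 16 = true := ex3_a k1069_B00pm_011_s3 t4344_B00pm_011_s3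

theorem t4346_B00pm_011_s3 : ∃ t, chk3 f_B00pm_011_s3 t 1910 4002 16 = true := ex3_a k1066_B00pm_011_s3 k1067_B00pm_011_s3

theorem t4347_B00pm_011_s3 : ∃ t, chk3 f_B00pm_011_s3 t 955 4002 16 = true := ex3_a t4346_B00pm_011_s3 k1068_B00pm_011_s3

theorem t4348_B00pm_011_s3 : ∃ t, chk3 f_B00pm_011_s3 t 955 2001 16 = true := ex3_b t4347_B00pm_011_s3 t4345_B00pm_011_s3

theorem t4349_B00pm_011_s3 : ∃ t, chk3 f_B00pm_011_s3 t 477 2001 16 = true := ex3_a k1065_B00pm_011_s3 t4348_B00pm_011_s3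

theorem t4350_B00pm_011_s3 : ∃ t, chk3 f_B00pm_011_s3 t 1908 2000 16 = true := ex3_b k1061_B00pm_011_s3 k1062_B00pm_011_s3

theorem t4351_B00pm_011_s3 : ∃ t, chk3 f_B00pm_011_s3 t 954 2000 16 = true := ex3_a t4350_B00pm_011_s3 k1063_B00pm_011_s3

theorem t4352_B00pm_011_s3 : ∃ t, chk3 f_B00pm_011_s3 t 477 2000 16 = true := ex3_a t4351_B00pm_011_s3 k1064_B00pm_011_s3

theorem t4353_B00pm_011_s3 : ∃ t, chk3 f_B00pm_011_s3 t 477 1000 16 = true := ex3_b t4352_B00pm_011_s3 t4349_B00pm_011_s3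

theorem t4354_B00pm_011_s3 : ∃ t, chk3 f_B00pm_011_s3 t 477 1000 8 = true := ex3_c t4353_B00pm_011_s3 t4343_B00pm_011_s3

theorem t4355_B00pm_011_s3 : ∃ t, chk3 f_B00pm_011_s3 t 1907 8000 8 = true := ex3_c k1056_B00pm_011_s3 k1057_B00pm_011_s3

theorem t4356_B00pm_011_s3 : ∃ t, chk3 f_B00pm_011_s3 t 1907 4000 8 = true := ex3_b t4355_B00pm_011_s3 k1058_B00pm_011_s3

theorem t4357_B00pm_011_s3 : ∃ t, chk3 f_B00pm_011_s3 t 953 4000 8 = true := ex3_a k1055_B00pm_011_s3 t4356_B00pm_011_s3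

theorem t4358_B00pm_011_s3 : ∃ t, chk3 f_B00pm_011_s3 t 953 2000 8 = true := ex3_b t4357_B00pm_011_s3 k1059_B00pm_011_s3

theorem t4359_B00pm_011_s3 : ∃ t, chk3 f_B00pm_011_s3 t 476 2000 8 = true := ex3_a k1054_B00pm_011_s3 t4358_B00pm_011_s3

theorem t4360_B00pm_011_s3 : ∃ t, chk3 f_B00pm_011_s3 t 476 1000 8 = true := ex3_b t4359_B00pm_011_s3 k1060_B00pm_011_s3

theorem t4361_B00pm_011_s3 : ∃ t, chk3 f_B00pm_011_s3 t 238 1000 8 = true := ex3_a t4360_B00pm_011_s3 t4354_B00pm_011_s3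

theorem t4362_B00pm_011_s3 : ∃ t, chk3 f_B00pm_011_s3 t 238 500 8 = true := ex3_b t4361_B00pm_011_s3 t4335_B00pm_011_s3

theorem t4363_B00pm_011_s3 : ∃ t, chk3 f_B00pm_011_s3 t 238 250 8 = true := ex3_b t4362_B00pm_011_s3 t4334_B00pm_011_s3

theorem t4364_B00pm_011_s3 : ∃ t, chk3 f_B00pm_011_s3 t 119 250 8 = true := ex3_a t4363_B00pm_011_s3 t4327_B00pm_011_s3

theorem t4365_B00pm_011_s3 : ∃ t, chk3 f_B00pm_011_s3 t 119 125 8 = true := ex3_b t4364_B00pm_011_s3 t4220_B00pm_011_s3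

theorem t4366_B00pm_011_s3 : ∃ t, chk3 f_B00pm_011_s3 t 953 999 8 = true := ex3_c k1050_B00pm_011_s3 k1051_B00pm_011_s3

theorem t4367_B00pm_011_s3 : ∃ t, chk3 f_B00pm_011_s3 t 3811 7998 8 = true := ex3_c k1047_B00pm_011_s3 k1048_B00pm_011_s3

theorem t4368_B00pm_011_s3 : ∃ t, chk3 f_B00pm_011_s3 t 1905 7998 8 = true := ex3_a k1046_B00pm_011_s3 t4367_B00pm_011_s3

theorem t4369_B00pm_011_s3 : ∃ t, chk3 f_B00pm_011_s3 t 1905 3999 8 = true := ex3_b t4368_B00pm_011_s3 k1049_B00pm_011_s3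

theorem t4370_B00pm_011_s3 : ∃ t, chk3 f_B00pm_011_s3 t 952 3999 8 = true := ex3_a k1045_B00pm_011_s3 t4369_B00pm_011_s3

theorem t4371_B00pm_011_s3 : ∃ t, chk3 f_B00pm_011_s3 t 952 3998 16 = true := ex3_a k1042_B00pm_011_s3 k1043_B00pm_011_s3

theorem t4372_B00pm_011_s3 : ∃ t, chk3 f_B00pm_011_s3 t 952 3998 8 = true := ex3_c t4371_B00pm_011_s3 k1044_B00pm_011_s3

theorem t4373_B00pm_011_s3 : ∃ t, chk3 f_B00pm_011_s3 t 952 1999 8 = true := ex3_b t4372_B00pm_011_s3 t4370_B00pm_011_s3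

theorem t4374_B00pm_011_s3 : ∃ t, chk3 f_B00pm_011_s3 t 952 999 8 = true := ex3_b k1041_B00pm_011_s3 t4373_B00pm_011_s3

theorem t4375_B00pm_011_s3 : ∃ t, chk3 f_B00pm_011_s3 t 476 999 8 = true := ex3_a t4374_B00pm_011_s3 t4366_B00pm_011_s3

theorem t4376_B00pm_011_s3 : ∃ t, chk3 f_B00pm_011_s3 t 238 999 8 = true := ex3_a t4375_B00pm_011_s3 k1052_B00pm_011_s3

theorem t4377_B00pm_011_s3 : ∃ t, chk3 f_B00pm_011_s3 t 119 999 8 = true := ex3_a t4376_B00pm_011_s3 k1053_B00pm_011_s3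

theorem t4378_B00pm_011_s3 : ∃ t, chk3 f_B00pm_011_s3 t 119 499 8 = true := ex3_b k1040_B00pm_011_s3 t4377_B00pm_011_s3

theorem t4379_B00pm_011_s3 : ∃ t, chk3 f_B00pm_011_s3 t 119 249 8 = true := ex3_b k1039_B00pm_011_s3 t4378_B00pm_011_s3

theorem t4380_B00pm_011_s3 : ∃ t, chk3 f_B00pm_011_s3 t 119 124 8 = true := ex3_b k1038_B00pm_011_s3 t4379_B00pm_011_s3

theorem t4381_B00pm_011_s3 : ∃ t, chk3 f_B00pm_011_s3 t 119 62 8 = true := ex3_b t4380_B00pm_011_s3 t4365_B00pm_011_s3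

theorem t4382_B00pm_011_s3 : ∃ t, chk3 f_B00pm_011_s3 t 119 62 4 = true := ex3_c t4381_B00pm_011_s3 t4211_B00pm_011_s3

theorem t4383_B00pm_011_s3 : ∃ t, chk3 f_B00pm_011_s3 t 475 502 37 = true := ex3_b k1034_B00pm_011_s3 k1035_B00pm_011_s3

theorem t4384_B00pm_011_s3 : ∃ t, chk3 f_B00pm_011_s3 t 475 502 36 = true := ex3_b k1032_B00pm_011_s3 k1033_B00pm_011_s3

theorem t4385_B00pm_011_s3 : ∃ t, chk3 f_B00pm_011_s3 t 475 502 18 = true := ex3_c t4384_B00pm_011_s3 t4383_B00pm_011_s3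

theorem t4386_B00pm_011_s3 : ∃ t, chk3 f_B00pm_011_s3 t 237 502 18 = true := ex3_a k1031_B00pm_011_s3 t4385_B00pm_011_s3

theorem t4387_B00pm_011_s3 : ∃ t, chk3 f_B00pm_011_s3 t 237 251 18 = true := ex3_b t4386_B00pm_011_s3 k1036_B00pm_011_s3

theorem t4388_B00pm_011_s3 : ∃ t, chk3 f_B00pm_011_s3 t 237 251 9 = true := ex3_c t4387_B00pm_011_s3 k1037_B00pm_011_s3

theorem t4389_B00pm_011_s3 : ∃ t, chk3 f_B00pm_011_s3 t 118 251 9 = true := ex3_a k1030_B00pm_011_s3 t4388_B00pm_011_s3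

theorem t4390_B00pm_011_s3 : ∃ t, chk3 f_B00pm_011_s3 t 237 503 17 = true := ex3_a k1028_B00pm_011_s3 k1029_B00pm_011_s3

theorem t4391_B00pm_011_s3 : ∃ t, chk3 f_B00pm_011_s3 t 237 251 17 = true := ex3_b k1027_B00pm_011_s3 t4390_B00pm_011_s3

theorem t4392_B00pm_011_s3 : ∃ t, chk3 f_B00pm_011_s3 t 237 502 16 = true := ex3_c k1024_B00pm_011_s3 k1025_B00pm_011_s3

theorem t4393_B00pm_011_s3 : ∃ t, chk3 f_B00pm_011_s3 t 237 251 16 = true := ex3_b t4392_B00pm_011_s3 k1026_B00pm_011_s3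

theorem t4394_B00pm_011_s3 : ∃ t, chk3 f_B00pm_011_s3 t 237 251 8 = true := ex3_c t4393_B00pm_011_s3 t4391_B00pm_011_s3

theorem t4395_B00pm_011_s3 : ∃ t, chk3 f_B00pm_011_s3 t 473 502 17 = true := ex3_c k1021_B00pm_011_s3 k1022_B00pm_011_s3

theorem t4396_B00pm_011_s3 : ∃ t, chk3 f_B00pm_011_s3 t 236 502 17 = true := ex3_a k1020_B00pm_011_s3 t4395_B00pm_011_s3

theorem t4397_B00pm_011_s3 : ∃ t, chk3 f_B00pm_011_s3 t 236 251 17 = true := ex3_b t4396_B00pm_011_s3 k1023_B00pm_011_s3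

theorem t4398_B00pm_011_s3 : ∃ t, chk3 f_B00pm_011_s3 t 236 251 8 = true := ex3_c k1019_B00pm_011_s3 t4397_B00pm_011_s3

theorem t4399_B00pm_011_s3 : ∃ t, chk3 f_B00pm_011_s3 t 118 251 8 = true := ex3_a t4398_B00pm_011_s3 t4394_B00pm_011_s3

theorem t4400_B00pm_011_s3 : ∃ t, chk3 f_B00pm_011_s3 t 118 251 4 = true := ex3_c t4399_B00pm_011_s3 t4389_B00pm_011_s3

theorem t4401_B00pm_011_s3 : ∃ t, chk3 f_B00pm_011_s3 t 475 1002 76 = true := ex3_a k1014_B00pm_011_s3 k1015_B00pm_011_s3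

theorem t4402_B00pm_011_s3 : ∃ t, chk3 f_B00pm_011_s3 t 475 1002 38 = true := ex3_c t4401_B00pm_011_s3 k1016_B00pm_011_s3

theorem t4403_B00pm_011_s3 : ∃ t, chk3 f_B00pm_011_s3 t 237 1002 38 = true := ex3_a k1013_B00pm_011_s3 t4402_B00pm_011_s3

theorem t4404_B00pm_011_s3 : ∃ t, chk3 f_B00pm_011_s3 t 237 1002 19 = true := ex3_c t4403_B00pm_011_s3 k1017_B00pm_011_s3

theorem t4405_B00pm_011_s3 : ∃ t, chk3 f_B00pm_011_s3 t 118 1002 19 = true := ex3_a k1012_B00pm_011_s3 t4404_B00pm_011_s3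

theorem t4406_B00pm_011_s3 : ∃ t, chk3 f_B00pm_011_s3 t 118 501 19 = true := ex3_b t4405_B00pm_011_s3 k1018_B00pm_011_s3

theorem t4407_B00pm_011_s3 : ∃ t, chk3 f_B00pm_011_s3 t 475 1001 39 = true := ex3_c k1010_B00pm_011_s3 k1011_B00pm_011_s3

theorem t4408_B00pm_011_s3 : ∃ t, chk3 f_B00pm_011_s3 t 237 1001 39 = true := ex3_a k1009_B00pm_011_s3 t4407_B00pm_011_s3

theorem t4409_B00pm_011_s3 : ∃ t, chk3 f_B00pm_011_s3 t 475 2003 38 = true := ex3_c k1007_B00pm_011_s3 k1008_B00pm_011_s3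

theorem t4410_B00pm_011_s3 : ∃ t, chk3 f_B00pm_011_s3 t 237 2003 38 = true := ex3_a k1006_B00pm_011_s3 t4409_B00pm_011_s3

theorem t4411_B00pm_011_s3 : ∃ t, chk3 f_B00pm_011_s3 t 475 2002 38 = true := ex3_c k1004_B00pm_011_s3 k1005_B00pm_011_s3

theorem t4412_B00pm_011_s3 : ∃ t, chk3 f_B00pm_011_s3 t 237 2002 38 = true := ex3_a k1003_B00pm_011_s3 t4411_B00pm_011_s3

theorem t4413_B00pm_011_s3 : ∃ t, chk3 f_B00pm_011_s3 t 237 1001 38 = true := ex3_b t4412_B00pm_011_s3 t4410_B00pm_011_s3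

theorem t4414_B00pm_011_s3 : ∃ t, chk3 f_B00pm_011_s3 t 237 1001 19 = true := ex3_c t4413_B00pm_011_s3 t4408_B00pm_011_s3

theorem t4415_B00pm_011_s3 : ∃ t, chk3 f_B00pm_011_s3 t 951 2001 39 = true := ex3_c k1001_B00pm_011_s3 k1002_B00pm_011_s3

theorem t4416_B00pm_011_s3 : ∃ t, chk3 f_B00pm_011_s3 t 951 4001 39 = true := ex3_c k999_B00pm_011_s3 k1000_B00pm_011_s3

theorem t4417_B00pm_011_s3 : ∃ t, chk3 f_B00pm_011_s3 t 1903 4000 79 = true := ex3_c k997_B00pm_011_s3 k998_B00pm_011_s3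

theorem t4418_B00pm_011_s3 : ∃ t, chk3 f_B00pm_011_s3 t 951 4000 79 = true := ex3_a k996_B00pm_011_s3 t4417_B00pm_011_s3

theorem t4419_B00pm_011_s3 : ∃ t, chk3 f_B00pm_011_s3 t 951 4000 39 = true := ex3_c k995_B00pm_011_s3 t4418_B00pm_011_s3

theorem t4420_B00pm_011_s3 : ∃ t, chk3 f_B00pm_011_s3 t 951 2000 39 = true := ex3_b t4419_B00pm_011_s3 t4416_B00pm_011_s3

theorem t4421_B00pm_011_s3 : ∃ t, chk3 f_B00pm_011_s3 t 951 1000 39 = true := ex3_b t4420_B00pm_011_s3 t4415_B00pm_011_s3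

theorem t4422_B00pm_011_s3 : ∃ t, chk3 f_B00pm_011_s3 t 950 2000 78 = true := ex3_a k991_B00pm_011_s3 k992_B00pm_011_s3

theorem t4423_B00pm_011_s3 : ∃ t, chk3 f_B00pm_011_s3 t 950 1000 78 = true := ex3_b t4422_B00pm_011_s3 k993_B00pm_011_s3

theorem t4424_B00pm_011_s3 : ∃ t, chk3 f_B00pm_011_s3 t 950 1000 39 = true := ex3_c t4423_B00pm_011_s3 k994_B00pm_011_s3

theorem t4425_B00pm_011_s3 : ∃ t, chk3 f_B00pm_011_s3 t 475 1000 39 = true := ex3_a t4424_B00pm_011_s3 t4421_B00pm_011_s3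

theorem t4426_B00pm_011_s3 : ∃ t, chk3 f_B00pm_011_s3 t 237 1000 39 = true := ex3_a k990_B00pm_011_s3 t4425_B00pm_011_s3

theorem t4427_B00pm_011_s3 : ∃ t, chk3 f_B00pm_011_s3 t 475 1000 38 = true := ex3_b k988_B00pm_011_s3 k989_B00pm_011_s3

theorem t4428_B00pm_011_s3 : ∃ t, chk3 f_B00pm_011_s3 t 474 2000 38 = true := ex3_c k985_B00pm_011_s3 k986_B00pm_011_s3

theorem t4429_B00pm_011_s3 : ∃ t, chk3 f_B00pm_011_s3 t 474 1000 38 = true := ex3_b t4428_B00pm_011_s3 k987_B00pm_011_s3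

theorem t4430_B00pm_011_s3 : ∃ t, chk3 f_B00pm_011_s3 t 237 1000 38 = true := ex3_a t4429_B00pm_011_s3 t4427_B00pm_011_s3

theorem t4431_B00pm_011_s3 : ∃ t, chk3 f_B00pm_011_s3 t 237 1000 19 = true := ex3_c t4430_B00pm_011_s3 t4426_B00pm_011_s3

theorem t4432_B00pm_011_s3 : ∃ t, chk3 f_B00pm_011_s3 t 237 500 19 = true := ex3_b t4431_B00pm_011_s3 t4414_B00pm_011_s3

theorem t4433_B00pm_011_s3 : ∃ t, chk3 f_B00pm_011_s3 t 118 500 19 = true := ex3_a k984_B00pm_011_s3 t4432_B00pm_011_s3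

theorem t4434_B00pm_011_s3 : ∃ t, chk3 f_B00pm_011_s3 t 118 250 19 = true := ex3_b t4433_B00pm_011_s3 t4406_B00pm_011_s3

theorem t4435_B00pm_011_s3 : ∃ t, chk3 f_B00pm_011_s3 t 475 1003 37 = true := ex3_a k982_B00pm_011_s3 k983_B00pm_011_s3

theorem t4436_B00pm_011_s3 : ∃ t, chk3 f_B00pm_011_s3 t 475 501 37 = true := ex3_b k981_B00pm_011_s3 t4435_B00pm_011_s3

theorem t4437_B00pm_011_s3 : ∃ t, chk3 f_B00pm_011_s3 t 474 1002 37 = true := ex3_a k978_B00pm_011_s3 k979_B00pm_011_s3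

theorem t4438_B00pm_011_s3 : ∃ t, chk3 f_B00pm_011_s3 t 474 501 37 = true := ex3_b t4437_B00pm_011_s3 k980_B00pm_011_s3

theorem t4439_B00pm_011_s3 : ∃ t, chk3 f_B00pm_011_s3 t 237 501 37 = true := ex3_a t4438_B00pm_011_s3 t4436_B00pm_011_s3

theorem t4440_B00pm_011_s3 : ∃ t, chk3 f_B00pm_011_s3 t 474 501 36 = true := ex3_b k975_B00pm_011_s3 k976_B00pm_011_s3

theorem t4441_B00pm_011_s3 : ∃ t, chk3 f_B00pm_011_s3 t 237 501 36 = true := ex3_a t4440_B00pm_011_s3 k977_B00pm_011_s3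

theorem t4442_B00pm_011_s3 : ∃ t, chk3 f_B00pm_011_s3 t 237 501 18 = true := ex3_c t4441_B00pm_011_s3 t4439_B00pm_011_s3

theorem t4443_B00pm_011_s3 : ∃ t, chk3 f_B00pm_011_s3 t 236 501 18 = true := ex3_a k973_B00pm_011_s3 k974_B00pm_011_s3

theorem t4444_B00pm_011_s3 : ∃ t, chk3 f_B00pm_011_s3 t 118 501 18 = true := ex3_a t4443_B00pm_011_s3 t4442_B00pm_011_s3

theorem t4445_B00pm_011_s3 : ∃ t, chk3 f_B00pm_011_s3 t 475 1001 18 = true := ex3_b k971_B00pm_011_s3 k972_B00pm_011_s3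

theorem t4446_B00pm_011_s3 : ∃ t, chk3 f_B00pm_011_s3 t 474 1001 37 = true := ex3_c k969_B00pm_011_s3 k970_B00pm_011_s3

theorem t4447_B00pm_011_s3 : ∃ t, chk3 f_B00pm_011_s3 t 474 1001 18 = true := ex3_c k968_B00pm_011_s3 t4446_B00pm_011_s3

theorem t4448_B00pm_011_s3 : ∃ t, chk3 f_B00pm_011_s3 t 237 1001 18 = true := ex3_a t4447_B00pm_011_s3 t4445_B00pm_011_s3

theorem t4449_B00pm_011_s3 : ∃ t, chk3 f_B00pm_011_s3 t 951 2001 36 = true := ex3_c k965_B00pm_011_s3 k966_B00pm_011_s3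

theorem t4450_B00pm_011_s3 : ∃ t, chk3 f_B00pm_011_s3 t 951 2001 18 = true := ex3_c t4449_B00pm_011_s3 k967_B00pm_011_s3

theorem t4451_B00pm_011_s3 : ∃ t, chk3 f_B00pm_011_s3 t 475 2001 18 = true := ex3_a k964_B00pm_011_s3 t4450_B00pm_011_s3

theorem t4452_B00pm_011_s3 : ∃ t, chk3 f_B00pm_011_s3 t 1903 4000 73 = true := ex3_c k960_B00pm_011_s3 k961_B00pm_011_s3

theorem t4453_B00pm_011_s3 : ∃ t, chk3 f_B00pm_011_s3 t 1903 2000 73 = true := ex3_b t4452_B00pm_011_s3 k962_B00pm_011_s3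

theorem t4454_B00pm_011_s3 : ∃ t, chk3 f_B00pm_011_s3 t 951 2000 73 = true := ex3_a k959_B00pm_011_s3 t4453_B00pm_011_s3

theorem t4455_B00pm_011_s3 : ∃ t, chk3 f_B00pm_011_s3 t 1902 2000 72 = true := ex3_c k956_B00pm_011_s3 k957_B00pm_011_s3

theorem t4456_B00pm_011_s3 : ∃ t, chk3 f_B00pm_011_s3 t 951 2000 72 = true := ex3_a t4455_B00pm_011_s3 k958_B00pm_011_s3

theorem t4457_B00pm_011_s3 : ∃ t, chk3 f_B00pm_011_s3 t 951 2000 36 = true := ex3_c t4456_B00pm_011_s3 t4454_B00pm_011_s3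

theorem t4458_B00pm_011_s3 : ∃ t, chk3 f_B00pm_011_s3 t 950 2000 36 = true := ex3_b k954_B00pm_011_s3 k955_B00pm_011_s3

theorem t4459_B00pm_011_s3 : ∃ t, chk3 f_B00pm_011_s3 t 475 2000 36 = true := ex3_a t4458_B00pm_011_s3 t4457_B00pm_011_s3

theorem t4460_B00pm_011_s3 : ∃ t, chk3 f_B00pm_011_s3 t 475 2000 18 = true := ex3_c t4459_B00pm_011_s3 k963_B00pm_011_s3

theorem t4461_B00pm_011_s3 : ∃ t, chk3 f_B00pm_011_s3 t 475 1000 18 = true := ex3_b t4460_B00pm_011_s3 t4451_B00pm_011_s3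

theorem t4462_B00pm_011_s3 : ∃ t, chk3 f_B00pm_011_s3 t 474 1000 18 = true := ex3_b k952_B00pm_011_s3 k953_B00pm_011_s3

theorem t4463_B00pm_011_s3 : ∃ t, chk3 f_B00pm_011_s3 t 237 1000 18 = true := ex3_a t4462_B00pm_011_s3 t4461_B00pm_011_s3

theorem t4464_B00pm_011_s3 : ∃ t, chk3 f_B00pm_011_s3 t 237 500 18 = true := ex3_b t4463_B00pm_011_s3 t4448_B00pm_011_s3

theorem t4465_B00pm_011_s3 : ∃ t, chk3 f_B00pm_011_s3 t 236 1001 36 = true := ex3_a k949_B00pm_011_s3 k950_B00pm_011_s3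

theorem t4466_B00pm_011_s3 : ∃ t, chk3 f_B00pm_011_s3 t 236 1001 18 = true := ex3_c t4465_B00pm_011_s3 k951_B00pm_011_s3

theorem t4467_B00pm_011_s3 : ∃ t, chk3 f_B00pm_011_s3 t 236 1000 37 = true := ex3_c k947_B00pm_011_s3 k948_B00pm_011_s3

theorem t4468_B00pm_011_s3 : ∃ t, chk3 f_B00pm_011_s3 t 472 1000 36 = true := ex3_c k944_B00pm_011_s3 k945_B00pm_011_s3

theorem t4469_B00pm_011_s3 : ∃ t, chk3 f_B00pm_011_s3 t 236 1000 36 = true := ex3_a t4468_B00pm_011_s3 k946_B00pm_011_s3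

theorem t4470_B00pm_011_s3 : ∃ t, chk3 f_B00pm_011_s3 t 236 1000 18 = true := ex3_c t4469_B00pm_011_s3 t4467_B00pm_011_s3

theorem t4471_B00pm_011_s3 : ∃ t, chk3 f_B00pm_011_s3 t 236 500 18 = true := ex3_b t4470_B00pm_011_s3 t4466_B00pm_011_s3

theorem t4472_B00pm_011_s3 : ∃ t, chk3 f_B00pm_011_s3 t 118 500 18 = true := ex3_a t4471_B00pm_011_s3 t4464_B00pm_011_s3

theorem t4473_B00pm_011_s3 : ∃ t, chk3 f_B00pm_011_s3 t 118 250 18 = true := ex3_b t4472_B00pm_011_s3 t4444_B00pm_011_s3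

theorem t4474_B00pm_011_s3 : ∃ t, chk3 f_B00pm_011_s3 t 118 250 9 = true := ex3_c t4473_B00pm_011_s3 t4434_B00pm_011_s3

theorem t4475_B00pm_011_s3 : ∃ t, chk3 f_B00pm_011_s3 t 475 1002 17 = true := ex3_c k941_B00pm_011_s3 k942_B00pm_011_s3

theorem t4476_B00pm_011_s3 : ∃ t, chk3 f_B00pm_011_s3 t 475 501 17 = true := ex3_b t4475_B00pm_011_s3 k943_B00pm_011_s3

theorem t4477_B00pm_011_s3 : ∃ t, chk3 f_B00pm_011_s3 t 237 501 17 = true := ex3_a k940_B00pm_011_s3 t4476_B00pm_011_s3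

theorem t4478_B00pm_011_s3 : ∃ t, chk3 f_B00pm_011_s3 t 237 501 16 = true := ex3_b k938_B00pm_011_s3 k939_B00pm_011_s3

theorem t4479_B00pm_011_s3 : ∃ t, chk3 f_B00pm_011_s3 t 237 501 8 = true := ex3_c t4478_B00pm_011_s3 t4477_B00pm_011_s3

theorem t4480_B00pm_011_s3 : ∃ t, chk3 f_B00pm_011_s3 t 951 1001 35 = true := ex3_b k936_B00pm_011_s3 k937_B00pm_011_s3

theorem t4481_B00pm_011_s3 : ∃ t, chk3 f_B00pm_011_s3 t 475 1001 35 = true := ex3_a k935_B00pm_011_s3 t4480_B00pm_011_s3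

theorem t4482_B00pm_011_s3 : ∃ t, chk3 f_B00pm_011_s3 t 475 1001 17 = true := ex3_c k934_B00pm_011_s3 t4481_B00pm_011_s3

theorem t4483_B00pm_011_s3 : ∃ t, chk3 f_B00pm_011_s3 t 950 2000 71 = true := ex3_a k930_B00pm_011_s3 k931_B00pm_011_s3

theorem t4484_B00pm_011_s3 : ∃ t, chk3 f_B00pm_011_s3 t 950 2000 35 = true := ex3_c k929_B00pm_011_s3 t4483_B00pm_011_s3

theorem t4485_B00pm_011_s3 : ∃ t, chk3 f_B00pm_011_s3 t 950 1000 35 = true := ex3_b t4484_B00pm_011_s3 k932_B00pm_011_s3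

theorem t4486_B00pm_011_s3 : ∃ t, chk3 f_B00pm_011_s3 t 475 1000 35 = true := ex3_a t4485_B00pm_011_s3 k933_B00pm_011_s3

theorem t4487_B00pm_011_s3 : ∃ t, chk3 f_B00pm_011_s3 t 475 1000 17 = true := ex3_c k928_B00pm_011_s3 t4486_B00pm_011_s3

theorem t4488_B00pm_011_s3 : ∃ t, chk3 f_B00pm_011_s3 t 475 500 17 = true := ex3_b t4487_B00pm_011_s3 t4482_B00pm_011_s3

theorem t4489_B00pm_011_s3 : ∃ t, chk3 f_B00pm_011_s3 t 474 1001 17 = true := ex3_c k926_B00pm_011_s3 k927_B00pm_011_s3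

theorem t4490_B00pm_011_s3 : ∃ t, chk3 f_B00pm_011_s3 t 949 1000 35 = true := ex3_c k924_B00pm_011_s3 k925_B00pm_011_s3

theorem t4491_B00pm_011_s3 : ∃ t, chk3 f_B00pm_011_s3 t 474 1000 35 = true := ex3_a k923_B00pm_011_s3 t4490_B00pm_011_s3

theorem t4492_B00pm_011_s3 : ∃ t, chk3 f_B00pm_011_s3 t 948 1000 34 = true := ex3_c k920_B00pm_011_s3 k921_B00pm_011_s3

theorem t4493_B00pm_011_s3 : ∃ t, chk3 f_B00pm_011_s3 t 474 1000 34 = true := ex3_a t4492_B00pm_011_s3 k922_B00pm_011_s3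

theorem t4494_B00pm_011_s3 : ∃ t, chk3 f_B00pm_011_s3 t 474 1000 17 = true := ex3_c t4493_B00pm_011_s3 t4491_B00pm_011_s3

theorem t4495_B00pm_011_s3 : ∃ t, chk3 f_B00pm_011_s3 t 474 500 17 = true := ex3_b t4494_B00pm_011_s3 t4489_B00pm_011_s3

theorem t4496_B00pm_011_s3 : ∃ t, chk3 f_B00pm_011_s3 t 237 500 17 = true := ex3_a t4495_B00pm_011_s3 t4488_B00pm_011_s3

theorem t4497_B00pm_011_s3 : ∃ t, chk3 f_B00pm_011_s3 t 237 500 8 = true := ex3_c k919_B00pm_011_s3 t4496_B00pm_011_s3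

theorem t4498_B00pm_011_s3 : ∃ t, chk3 f_B00pm_011_s3 t 237 250 8 = true := ex3_b t4497_B00pm_011_s3 t4479_B00pm_011_s3

theorem t4499_B00pm_011_s3 : ∃ t, chk3 f_B00pm_011_s3 t 473 501 17 = true := ex3_c k917_B00pm_011_s3 k918_B00pm_011_s3

theorem t4500_B00pm_011_s3 : ∃ t, chk3 f_B00pm_011_s3 t 472 501 17 = true := ex3_c k915_B00pm_011_s3 k916_B00pm_011_s3

theorem t4501_B00pm_011_s3 : ∃ t, chk3 f_B00pm_011_s3 t 236 501 17 = true := ex3_a t4500_B00pm_011_s3 t4499_B00pm_011_s3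

theorem t4502_B00pm_011_s3 : ∃ t, chk3 f_B00pm_011_s3 t 236 501 8 = true := ex3_c k914_B00pm_011_s3 t4501_B00pm_011_s3

theorem t4503_B00pm_011_s3 : ∃ t, chk3 f_B00pm_011_s3 t 236 1001 17 = true := ex3_a k912_B00pm_011_s3 k913_B00pm_011_s3

theorem t4504_B00pm_011_s3 : ∃ t, chk3 f_B00pm_011_s3 t 236 1000 17 = true := ex3_a k910_B00pm_011_s3 k911_B00pm_011_s3

theorem t4505_B00pm_011_s3 : ∃ t, chk3 f_B00pm_011_s3 t 236 500 17 = true := ex3_b t4504_B00pm_011_s3 t4503_B00pm_011_s3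

theorem t4506_B00pm_011_s3 : ∃ t, chk3 f_B00pm_011_s3 t 473 1000 33 = true := ex3_a k907_B00pm_011_s3 k908_B00pm_011_s3

theorem t4507_B00pm_011_s3 : ∃ t, chk3 f_B00pm_011_s3 t 473 500 33 = true := ex3_b t4506_B00pm_011_s3 k909_B00pm_011_s3

theorem t4508_B00pm_011_s3 : ∃ t, chk3 f_B00pm_011_s3 t 473 500 16 = true := ex3_c k906_B00pm_011_s3 t4507_B00pm_011_s3

theorem t4509_B00pm_011_s3 : ∃ t, chk3 f_B00pm_011_s3 t 472 500 16 = true := ex3_c k904_B00pm_011_s3 k905_B00pm_011_s3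

theorem t4510_B00pm_011_s3 : ∃ t, chk3 f_B00pm_011_s3 t 236 500 16 = true := ex3_a t4509_B00pm_011_s3 t4508_B00pm_011_s3

theorem t4511_B00pm_011_s3 : ∃ t, chk3 f_B00pm_011_s3 t 236 500 8 = true := ex3_c t4510_B00pm_011_s3 t4505_B00pm_011_s3

theorem t4512_B00pm_011_s3 : ∃ t, chk3 f_B00pm_011_s3 t 236 250 8 = true := ex3_b t4511_B00pm_011_s3 t4502_B00pm_011_s3

theorem t4513_B00pm_011_s3 : ∃ t, chk3 f_B00pm_011_s3 t 118 250 8 = true := ex3_a t4512_B00pm_011_s3 t4498_B00pm_011_s3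

theorem t4514_B00pm_011_s3 : ∃ t, chk3 f_B00pm_011_s3 t 118 250 4 = true := ex3_c t4513_B00pm_011_s3 t4474_B00pm_011_s3

theorem t4515_B00pm_011_s3 : ∃ t, chk3 f_B00pm_011_s3 t 118 125 4 = true := ex3_b t4514_B00pm_011_s3 t4400_B00pm_011_s3

theorem t4516_B00pm_011_s3 : ∃ t, chk3 f_B00pm_011_s3 t 951 999 319 = true := ex3_a k902_B00pm_011_s3 k903_B00pm_011_s3

theorem t4517_B00pm_011_s3 : ∃ t, chk3 f_B00pm_011_s3 t 951 1999 318 = true := ex3_b k900_B00pm_011_s3 k901_B00pm_011_s3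

theorem t4518_B00pm_011_s3 : ∃ t, chk3 f_B00pm_011_s3 t 951 999 318 = true := ex3_b k899_B00pm_011_s3 t4517_B00pm_011_s3

theorem t4519_B00pm_011_s3 : ∃ t, chk3 f_B00pm_011_s3 t 951 999 159 = true := ex3_c t4518_B00pm_011_s3 t4516_B00pm_011_s3

theorem t4520_B00pm_011_s3 : ∃ t, chk3 f_B00pm_011_s3 t 475 999 159 = true := ex3_a k898_B00pm_011_s3 t4519_B00pm_011_s3

theorem t4521_B00pm_011_s3 : ∃ t, chk3 f_B00pm_011_s3 t 237 999 159 = true := ex3_a k897_B00pm_011_s3 t4520_B00pm_011_s3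

theorem t4522_B00pm_011_s3 : ∃ t, chk3 f_B00pm_011_s3 t 237 499 159 = true := ex3_b k896_B00pm_011_s3 t4521_B00pm_011_s3

theorem t4523_B00pm_011_s3 : ∃ t, chk3 f_B00pm_011_s3 t 951 1999 158 = true := ex3_b k894_B00pm_011_s3 k895_B00pm_011_s3

theorem t4524_B00pm_011_s3 : ∃ t, chk3 f_B00pm_011_s3 t 951 999 158 = true := ex3_b k893_B00pm_011_s3 t4523_B00pm_011_s3

theorem t4525_B00pm_011_s3 : ∃ t, chk3 f_B00pm_011_s3 t 1901 3998 158 = true := ex3_c k890_B00pm_011_s3 k891_B00pm_011_s3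

theorem t4526_B00pm_011_s3 : ∃ t, chk3 f_B00pm_011_s3 t 1901 1999 158 = true := ex3_b t4525_B00pm_011_s3 k892_B00pm_011_s3

theorem t4527_B00pm_011_s3 : ∃ t, chk3 f_B00pm_011_s3 t 950 1999 158 = true := ex3_a k889_B00pm_011_s3 t4526_B00pm_011_s3

theorem t4528_B00pm_011_s3 : ∃ t, chk3 f_B00pm_011_s3 t 950 999 158 = true := ex3_b k888_B00pm_011_s3 t4527_B00pm_011_s3

theorem t4529_B00pm_011_s3 : ∃ t, chk3 f_B00pm_011_s3 t 475 999 158 = true := ex3_a t4528_B00pm_011_s3 t4524_B00pm_011_s3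

theorem t4530_B00pm_011_s3 : ∃ t, chk3 f_B00pm_011_s3 t 237 999 158 = true := ex3_a k887_B00pm_011_s3 t4529_B00pm_011_s3

theorem t4531_B00pm_011_s3 : ∃ t, chk3 f_B00pm_011_s3 t 237 499 158 = true := ex3_b k886_B00pm_011_s3 t4530_B00pm_011_s3

theorem t4532_B00pm_011_s3 : ∃ t, chk3 f_B00pm_011_s3 t 237 499 79 = true := ex3_c t4531_B00pm_011_s3 t4522_B00pm_011_s3

theorem t4533_B00pm_011_s3 : ∃ t, chk3 f_B00pm_011_s3 t 950 1999 157 = true := ex3_a k883_B00pm_011_s3 k884_B00pm_011_s3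

theorem t4534_B00pm_011_s3 : ∃ t, chk3 f_B00pm_011_s3 t 475 1999 157 = true := ex3_a t4533_B00pm_011_s3 k885_B00pm_011_s3

theorem t4535_B00pm_011_s3 : ∃ t, chk3 f_B00pm_011_s3 t 1900 3997 157 = true := ex3_a k879_B00pm_011_s3 k880_B00pm_011_s3

theorem t4536_B00pm_011_s3 : ∃ t, chk3 f_B00pm_011_s3 t 950 3997 157 = true := ex3_a t4535_B00pm_011_s3 k881_B00pm_011_s3

theorem t4537_B00pm_011_s3 : ∃ t, chk3 f_B00pm_011_s3 t 475 3997 157 = true := ex3_a t4536_B00pm_011_s3 k882_B00pm_011_s3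

theorem t4538_B00pm_011_s3 : ∃ t, chk3 f_B00pm_011_s3 t 475 1998 157 = true := ex3_b k878_B00pm_011_s3 t4537_B00pm_011_s3

theorem t4539_B00pm_011_s3 : ∃ t, chk3 f_B00pm_011_s3 t 475 999 157 = true := ex3_b t4538_B00pm_011_s3 t4534_B00pm_011_s3

theorem t4540_B00pm_011_s3 : ∃ t, chk3 f_B00pm_011_s3 t 949 1998 157 = true := ex3_a k875_B00pm_011_s3 k876_B00pm_011_s3

theorem t4541_B00pm_011_s3 : ∃ t, chk3 f_B00pm_011_s3 t 949 999 157 = true := ex3_b t4540_B00pm_011_s3 k877_B00pm_011_s3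

theorem t4542_B00pm_011_s3 : ∃ t, chk3 f_B00pm_011_s3 t 474 999 157 = true := ex3_a k874_B00pm_011_s3 t4541_B00pm_011_s3

theorem t4543_B00pm_011_s3 : ∃ t, chk3 f_B00pm_011_s3 t 237 999 157 = true := ex3_a t4542_B00pm_011_s3 t4539_B00pm_011_s3

theorem t4544_B00pm_011_s3 : ∃ t, chk3 f_B00pm_011_s3 t 237 499 157 = true := ex3_b k873_B00pm_011_s3 t4543_B00pm_011_s3

theorem t4545_B00pm_011_s3 : ∃ t, chk3 f_B00pm_011_s3 t 949 3996 156 = true := ex3_a k868_B00pm_011_s3 k869_B00pm_011_s3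

theorem t4546_B00pm_011_s3 : ∃ t, chk3 f_B00pm_011_s3 t 949 1998 156 = true := ex3_b t4545_B00pm_011_s3 k870_B00pm_011_s3

theorem t4547_B00pm_011_s3 : ∃ t, chk3 f_B00pm_011_s3 t 949 999 156 = true := ex3_b t4546_B00pm_011_s3 k871_B00pm_011_s3

theorem t4548_B00pm_011_s3 : ∃ t, chk3 f_B00pm_011_s3 t 474 999 156 = true := ex3_a k867_B00pm_011_s3 t4547_B00pm_011_s3

theorem t4549_B00pm_011_s3 : ∃ t, chk3 f_B00pm_011_s3 t 237 999 156 = true := ex3_a t4548_B00pm_011_s3 k872_B00pm_011_s3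

theorem t4550_B00pm_011_s3 : ∃ t, chk3 f_B00pm_011_s3 t 237 499 156 = true := ex3_b k866_B00pm_011_s3 t4549_B00pm_011_s3

theorem t4551_B00pm_011_s3 : ∃ t, chk3 f_B00pm_011_s3 t 237 499 78 = true := ex3_c t4550_B00pm_011_s3 t4544_B00pm_011_s3

theorem t4552_B00pm_011_s3 : ∃ t, chk3 f_B00pm_011_s3 t 237 499 39 = true := ex3_c t4551_B00pm_011_s3 t4532_B00pm_011_s3

theorem t4553_B00pm_011_s3 : ∃ t, chk3 f_B00pm_011_s3 t 949 1999 77 = true := ex3_a k863_B00pm_011_s3 k864_B00pm_011_s3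

theorem t4554_B00pm_011_s3 : ∃ t, chk3 f_B00pm_011_s3 t 949 999 77 = true := ex3_b k862_B00pm_011_s3 t4553_B00pm_011_s3

theorem t4555_B00pm_011_s3 : ∃ t, chk3 f_B00pm_011_s3 t 949 499 77 = true := ex3_b k861_B00pm_011_s3 t4554_B00pm_011_s3

theorem t4556_B00pm_011_s3 : ∃ t, chk3 f_B00pm_011_s3 t 948 1998 154 = true := ex3_a k857_B00pm_011_s3 k858_B00pm_011_s3

theorem t4557_B00pm_011_s3 : ∃ t, chk3 f_B00pm_011_s3 t 948 1998 77 = true := ex3_c t4556_B00pm_011_s3 k859_B00pm_011_s3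

theorem t4558_B00pm_011_s3 : ∃ t, chk3 f_B00pm_011_s3 t 948 999 77 = true := ex3_b t4557_B00pm_011_s3 k860_B00pm_011_s3

theorem t4559_B00pm_011_s3 : ∃ t, chk3 f_B00pm_011_s3 t 948 3995 155 = true := ex3_a k855_B00pm_011_s3 k856_B00pm_011_s3

theorem t4560_B00pm_011_s3 : ∃ t, chk3 f_B00pm_011_s3 t 948 3995 77 = true := ex3_c k854_B00pm_011_s3 t4559_B00pm_011_s3

theorem t4561_B00pm_011_s3 : ∃ t, chk3 f_B00pm_011_s3 t 948 1997 77 = true := ex3_b k853_B00pm_011_s3 t4560_B00pm_011_s3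

theorem t4562_B00pm_011_s3 : ∃ t, chk3 f_B00pm_011_s3 t 948 998 77 = true := ex3_b k852_B00pm_011_s3 t4561_B00pm_011_s3

theorem t4563_B00pm_011_s3 : ∃ t, chk3 f_B00pm_011_s3 t 948 499 77 = true := ex3_b t4562_B00pm_011_s3 t4558_B00pm_011_s3

theorem t4564_B00pm_011_s3 : ∃ t, chk3 f_B00pm_011_s3 t 474 499 77 = true := ex3_a t4563_B00pm_011_s3 t4555_B00pm_011_s3

theorem t4565_B00pm_011_s3 : ∃ t, chk3 f_B00pm_011_s3 t 237 499 77 = true := ex3_a t4564_B00pm_011_s3 k865_B00pm_011_s3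

theorem t4566_B00pm_011_s3 : ∃ t, chk3 f_B00pm_011_s3 t 474 499 153 = true := ex3_b k849_B00pm_011_s3 k850_B00pm_011_s3

theorem t4567_B00pm_011_s3 : ∃ t, chk3 f_B00pm_011_s3 t 237 499 153 = true := ex3_a t4566_B00pm_011_s3 k851_B00pm_011_s3

theorem t4568_B00pm_011_s3 : ∃ t, chk3 f_B00pm_011_s3 t 237 499 76 = true := ex3_c k848_B00pm_011_s3 t4567_B00pm_011_s3

theorem t4569_B00pm_011_s3 : ∃ t, chk3 f_B00pm_011_s3 t 237 499 38 = true := ex3_c t4568_B00pm_011_s3 t4565_B00pm_011_s3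

theorem t4570_B00pm_011_s3 : ∃ t, chk3 f_B00pm_011_s3 t 237 499 19 = true := ex3_c t4569_B00pm_011_s3 t4552_B00pm_011_s3

theorem t4571_B00pm_011_s3 : ∃ t, chk3 f_B00pm_011_s3 t 237 499 75 = true := ex3_c k846_B00pm_011_s3 k847_B00pm_011_s3

theorem t4572_B00pm_011_s3 : ∃ t, chk3 f_B00pm_011_s3 t 475 999 74 = true := ex3_b k844_B00pm_011_s3 k845_B00pm_011_s3

theorem t4573_B00pm_011_s3 : ∃ t, chk3 f_B00pm_011_s3 t 475 499 74 = true := ex3_b k843_B00pm_011_s3 t4572_B00pm_011_s3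

theorem t4574_B00pm_011_s3 : ∃ t, chk3 f_B00pm_011_s3 t 237 499 74 = true := ex3_a k842_B00pm_011_s3 t4573_B00pm_011_s3

theorem t4575_B00pm_011_s3 : ∃ t, chk3 f_B00pm_011_s3 t 237 499 37 = true := ex3_c t4574_B00pm_011_s3 t4571_B00pm_011_s3

theorem t4576_B00pm_011_s3 : ∃ t, chk3 f_B00pm_011_s3 t 951 999 147 = true := ex3_a k840_B00pm_011_s3 k841_B00pm_011_s3

theorem t4577_B00pm_011_s3 : ∃ t, chk3 f_B00pm_011_s3 t 951 499 147 = true := ex3_b k839_B00pm_011_s3 t4576_B00pm_011_s3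

theorem t4578_B00pm_011_s3 : ∃ t, chk3 f_B00pm_011_s3 t 475 499 147 = true := ex3_a k838_B00pm_011_s3 t4577_B00pm_011_s3

theorem t4579_B00pm_011_s3 : ∃ t, chk3 f_B00pm_011_s3 t 237 499 147 = true := ex3_a k837_B00pm_011_s3 t4578_B00pm_011_s3

theorem t4580_B00pm_011_s3 : ∃ t, chk3 f_B00pm_011_s3 t 1903 999 146 = true := ex3_c k835_B00pm_011_s3 k836_B00pm_011_s3

theorem t4581_B00pm_011_s3 : ∃ t, chk3 f_B00pm_011_s3 t 951 999 146 = true := ex3_a k834_B00pm_011_s3 t4580_B00pm_011_s3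

theorem t4582_B00pm_011_s3 : ∃ t, chk3 f_B00pm_011_s3 t 951 499 146 = true := ex3_b k833_B00pm_011_s3 t4581_B00pm_011_s3

theorem t4583_B00pm_011_s3 : ∃ t, chk3 f_B00pm_011_s3 t 950 499 146 = true := ex3_c k831_B00pm_011_s3 k832_B00pm_011_s3

theorem t4584_B00pm_011_s3 : ∃ t, chk3 f_B00pm_011_s3 t 475 499 146 = true := ex3_a t4583_B00pm_011_s3 t4582_B00pm_011_s3

theorem t4585_B00pm_011_s3 : ∃ t, chk3 f_B00pm_011_s3 t 237 499 146 = true := ex3_a k830_B00pm_011_s3 t4584_B00pm_011_s3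

theorem t4586_B00pm_011_s3 : ∃ t, chk3 f_B00pm_011_s3 t 237 499 73 = true := ex3_c t4585_B00pm_011_s3 t4579_B00pm_011_s3

theorem t4587_B00pm_011_s3 : ∃ t, chk3 f_B00pm_011_s3 t 1902 1999 145 = true := ex3_b k827_B00pm_011_s3 k828_B00pm_011_s3

theorem t4588_B00pm_011_s3 : ∃ t, chk3 f_B00pm_011_s3 t 1902 999 145 = true := ex3_b k826_B00pm_011_s3 t4587_B00pm_011_s3

theorem t4589_B00pm_011_s3 : ∃ t, chk3 f_B00pm_011_s3 t 951 999 145 = true := ex3_a t4588_B00pm_011_s3 k829_B00pm_011_s3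

theorem t4590_B00pm_011_s3 : ∃ t, chk3 f_B00pm_011_s3 t 951 499 145 = true := ex3_b k825_B00pm_011_s3 t4589_B00pm_011_s3

theorem t4591_B00pm_011_s3 : ∃ t, chk3 f_B00pm_011_s3 t 950 1999 145 = true := ex3_a k823_B00pm_011_s3 k824_B00pm_011_s3

theorem t4592_B00pm_011_s3 : ∃ t, chk3 f_B00pm_011_s3 t 950 999 145 = true := ex3_b k822_B00pm_011_s3 t4591_B00pm_011_s3

theorem t4593_B00pm_011_s3 : ∃ t, chk3 f_B00pm_011_s3 t 950 499 145 = true := ex3_b k821_B00pm_011_s3 t4592_B00pm_011_s3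

theorem t4594_B00pm_011_s3 : ∃ t, chk3 f_B00pm_011_s3 t 475 499 145 = true := ex3_a t4593_B00pm_011_s3 t4590_B00pm_011_s3

theorem t4595_B00pm_011_s3 : ∃ t, chk3 f_B00pm_011_s3 t 237 499 145 = true := ex3_a k820_B00pm_011_s3 t4594_B00pm_011_s3

theorem t4596_B00pm_011_s3 : ∃ t, chk3 f_B00pm_011_s3 t 1901 1999 144 = true := ex3_b k817_B00pm_011_s3 k818_B00pm_011_s3

theorem t4597_B00pm_011_s3 : ∃ t, chk3 f_B00pm_011_s3 t 950 1999 144 = true := ex3_a k816_B00pm_011_s3 t4596_B00pm_011_s3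

theorem t4598_B00pm_011_s3 : ∃ t, chk3 f_B00pm_011_s3 t 950 1998 144 = true := ex3_a k814_B00pm_011_s3 k815_B00pm_011_s3

theorem t4599_B00pm_011_s3 : ∃ t, chk3 f_B00pm_011_s3 t 950 999 144 = true := ex3_b t4598_B00pm_011_s3 t4597_B00pm_011_s3

theorem t4600_B00pm_011_s3 : ∃ t, chk3 f_B00pm_011_s3 t 475 999 144 = true := ex3_a t4599_B00pm_011_s3 k819_B00pm_011_s3

theorem t4601_B00pm_011_s3 : ∃ t, chk3 f_B00pm_011_s3 t 949 1998 144 = true := ex3_b k811_B00pm_011_s3 k812_B00pm_011_s3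

theorem t4602_B00pm_011_s3 : ∃ t, chk3 f_B00pm_011_s3 t 474 1998 144 = true := ex3_a k810_B00pm_011_s3 t4601_B00pm_011_s3

theorem t4603_B00pm_011_s3 : ∃ t, chk3 f_B00pm_011_s3 t 474 999 144 = true := ex3_b t4602_B00pm_011_s3 k813_B00pm_011_s3

theorem t4604_B00pm_011_s3 : ∃ t, chk3 f_B00pm_011_s3 t 237 999 144 = true := ex3_a t4603_B00pm_011_s3 t4600_B00pm_011_s3

theorem t4605_B00pm_011_s3 : ∃ t, chk3 f_B00pm_011_s3 t 237 499 144 = true := ex3_b k809_B00pm_011_s3 t4604_B00pm_011_s3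

theorem t4606_B00pm_011_s3 : ∃ t, chk3 f_B00pm_011_s3 t 237 499 72 = true := ex3_c t4605_B00pm_011_s3 t4595_B00pm_011_s3

theorem t4607_B00pm_011_s3 : ∃ t, chk3 f_B00pm_011_s3 t 237 499 36 = true := ex3_c t4606_B00pm_011_s3 t4586_B00pm_011_s3

theorem t4608_B00pm_011_s3 : ∃ t, chk3 f_B00pm_011_s3 t 237 499 18 = true := ex3_c t4607_B00pm_011_s3 t4575_B00pm_011_s3

theorem t4609_B00pm_011_s3 : ∃ t, chk3 f_B00pm_011_s3 t 237 499 9 = true := ex3_c t4608_B00pm_011_s3 t4570_B00pm_011_s3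

theorem t4610_B00pm_011_s3 : ∃ t, chk3 f_B00pm_011_s3 t 475 999 287 = true := ex3_a k807_B00pm_011_s3 k808_B00pm_011_s3

theorem t4611_B00pm_011_s3 : ∃ t, chk3 f_B00pm_011_s3 t 949 999 287 = true := ex3_b k805_B00pm_011_s3 k806_B00pm_011_s3

theorem t4612_B00pm_011_s3 : ∃ t, chk3 f_B00pm_011_s3 t 474 999 287 = true := ex3_a k804_B00pm_011_s3 t4611_B00pm_011_s3

theorem t4613_B00pm_011_s3 : ∃ t, chk3 f_B00pm_011_s3 t 237 999 287 = true := ex3_a t4612_B00pm_011_s3 t4610_B00pm_011_s3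

theorem t4614_B00pm_011_s3 : ∃ t, chk3 f_B00pm_011_s3 t 237 499 287 = true := ex3_b k803_B00pm_011_s3 t4613_B00pm_011_s3

theorem t4615_B00pm_011_s3 : ∃ t, chk3 f_B00pm_011_s3 t 949 999 286 = true := ex3_b k800_B00pm_011_s3 k801_B00pm_011_s3

theorem t4616_B00pm_011_s3 : ∃ t, chk3 f_B00pm_011_s3 t 474 999 286 = true := ex3_a k799_B00pm_011_s3 t4615_B00pm_011_s3

theorem t4617_B00pm_011_s3 : ∃ t, chk3 f_B00pm_011_s3 t 237 999 286 = true := ex3_a t4616_B00pm_011_s3 k802_B00pm_011_s3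

theorem t4618_B00pm_011_s3 : ∃ t, chk3 f_B00pm_011_s3 t 237 499 286 = true := ex3_b k798_B00pm_011_s3 t4617_B00pm_011_s3

theorem t4619_B00pm_011_s3 : ∃ t, chk3 f_B00pm_011_s3 t 237 499 143 = true := ex3_c t4618_B00pm_011_s3 t4614_B00pm_011_s3

theorem t4620_B00pm_011_s3 : ∃ t, chk3 f_B00pm_011_s3 t 949 999 285 = true := ex3_b k795_B00pm_011_s3 k796_B00pm_011_s3

theorem t4621_B00pm_011_s3 : ∃ t, chk3 f_B00pm_011_s3 t 474 999 285 = true := ex3_a k794_B00pm_011_s3 t4620_B00pm_011_s3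

theorem t4622_B00pm_011_s3 : ∃ t, chk3 f_B00pm_011_s3 t 474 499 285 = true := ex3_b k793_B00pm_011_s3 t4621_B00pm_011_s3

theorem t4623_B00pm_011_s3 : ∃ t, chk3 f_B00pm_011_s3 t 237 499 285 = true := ex3_a t4622_B00pm_011_s3 k797_B00pm_011_s3

theorem t4624_B00pm_011_s3 : ∃ t, chk3 f_B00pm_011_s3 t 949 999 284 = true := ex3_b k790_B00pm_011_s3 k791_B00pm_011_s3

theorem t4625_B00pm_011_s3 : ∃ t, chk3 f_B00pm_011_s3 t 474 999 284 = true := ex3_a k789_B00pm_011_s3 t4624_B00pm_011_s3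

theorem t4626_B00pm_011_s3 : ∃ t, chk3 f_B00pm_011_s3 t 474 499 284 = true := ex3_b k788_B00pm_011_s3 t4625_B00pm_011_s3

theorem t4627_B00pm_011_s3 : ∃ t, chk3 f_B00pm_011_s3 t 237 499 284 = true := ex3_a t4626_B00pm_011_s3 k792_B00pm_011_s3

theorem t4628_B00pm_011_s3 : ∃ t, chk3 f_B00pm_011_s3 t 237 499 142 = true := ex3_c t4627_B00pm_011_s3 t4623_B00pm_011_s3

theorem t4629_B00pm_011_s3 : ∃ t, chk3 f_B00pm_011_s3 t 237 499 71 = true := ex3_c t4628_B00pm_011_s3 t4619_B00pm_011_s3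

theorem t4630_B00pm_011_s3 : ∃ t, chk3 f_B00pm_011_s3 t 949 999 141 = true := ex3_b k785_B00pm_011_s3 k786_B00pm_011_s3

theorem t4631_B00pm_011_s3 : ∃ t, chk3 f_B00pm_011_s3 t 948 999 141 = true := ex3_b k783_B00pm_011_s3 k784_B00pm_011_s3

theorem t4632_B00pm_011_s3 : ∃ t, chk3 f_B00pm_011_s3 t 474 999 141 = true := ex3_a t4631_B00pm_011_s3 t4630_B00pm_011_s3

theorem t4633_B00pm_011_s3 : ∃ t, chk3 f_B00pm_011_s3 t 474 998 141 = true := ex3_c k781_B00pm_011_s3 k782_B00pm_011_s3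

theorem t4634_B00pm_011_s3 : ∃ t, chk3 f_B00pm_011_s3 t 474 499 141 = true := ex3_b t4633_B00pm_011_s3 t4632_B00pm_011_s3

theorem t4635_B00pm_011_s3 : ∃ t, chk3 f_B00pm_011_s3 t 237 499 141 = true := ex3_a t4634_B00pm_011_s3 k787_B00pm_011_s3

theorem t4636_B00pm_011_s3 : ∃ t, chk3 f_B00pm_011_s3 t 948 999 140 = true := ex3_b k777_B00pm_011_s3 k778_B00pm_011_s3

theorem t4637_B00pm_011_s3 : ∃ t, chk3 f_B00pm_011_s3 t 474 999 140 = true := ex3_a t4636_B00pm_011_s3 k779_B00pm_011_s3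

theorem t4638_B00pm_011_s3 : ∃ t, chk3 f_B00pm_011_s3 t 237 999 140 = true := ex3_a t4637_B00pm_011_s3 k780_B00pm_011_s3

theorem t4639_B00pm_011_s3 : ∃ t, chk3 f_B00pm_011_s3 t 237 499 140 = true := ex3_b k776_B00pm_011_s3 t4638_B00pm_011_s3

theorem t4640_B00pm_011_s3 : ∃ t, chk3 f_B00pm_011_s3 t 237 499 70 = true := ex3_c t4639_B00pm_011_s3 t4635_B00pm_011_s3

theorem t4641_B00pm_011_s3 : ∃ t, chk3 f_B00pm_011_s3 t 237 499 35 = true := ex3_c t4640_B00pm_011_s3 t4629_B00pm_011_s3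

theorem t4642_B00pm_011_s3 : ∃ t, chk3 f_B00pm_011_s3 t 237 999 69 = true := ex3_a k774_B00pm_011_s3 k775_B00pm_011_s3

theorem t4643_B00pm_011_s3 : ∃ t, chk3 f_B00pm_011_s3 t 237 499 69 = true := ex3_b k773_B00pm_011_s3 t4642_B00pm_011_s3

theorem t4644_B00pm_011_s3 : ∃ t, chk3 f_B00pm_011_s3 t 237 499 34 = true := ex3_c k772_B00pm_011_s3 t4643_B00pm_011_s3

theorem t4645_B00pm_011_s3 : ∃ t, chk3 f_B00pm_011_s3 t 237 499 17 = true := ex3_c t4644_B00pm_011_s3 t4641_B00pm_011_s3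

theorem t4646_B00pm_011_s3 : ∃ t, chk3 f_B00pm_011_s3 t 951 1998 16 = true := ex3_a k769_B00pm_011_s3 k770_B00pm_011_s3

theorem t4647_B00pm_011_s3 : ∃ t, chk3 f_B00pm_011_s3 t 475 1998 16 = true := ex3_a k768_B00pm_011_s3 t4646_B00pm_011_s3

theorem t4648_B00pm_011_s3 : ∃ t, chk3 f_B00pm_011_s3 t 475 999 16 = true := ex3_b t4647_B00pm_011_s3 k771_B00pm_011_s3

theorem t4649_B00pm_011_s3 : ∃ t, chk3 f_B00pm_011_s3 t 237 999 16 = true := ex3_a k767_B00pm_011_s3 t4648_B00pm_011_s3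

theorem t4650_B00pm_011_s3 : ∃ t, chk3 f_B00pm_011_s3 t 949 1997 16 = true := ex3_b k764_B00pm_011_s3 k765_B00pm_011_s3

theorem t4651_B00pm_011_s3 : ∃ t, chk3 f_B00pm_011_s3 t 474 1997 16 = true := ex3_a k763_B00pm_011_s3 t4650_B00pm_011_s3

theorem t4652_B00pm_011_s3 : ∃ t, chk3 f_B00pm_011_s3 t 948 1996 16 = true := ex3_b k760_B00pm_011_s3 k761_B00pm_011_s3

theorem t4653_B00pm_011_s3 : ∃ t, chk3 f_B00pm_011_s3 t 474 1996 16 = true := ex3_a t4652_B00pm_011_s3 k762_B00pm_011_s3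

theorem t4654_B00pm_011_s3 : ∃ t, chk3 f_B00pm_011_s3 t 474 998 16 = true := ex3_b t4653_B00pm_011_s3 t4651_B00pm_011_s3

theorem t4655_B00pm_011_s3 : ∃ t, chk3 f_B00pm_011_s3 t 237 998 16 = true := ex3_a t4654_B00pm_011_s3 k766_B00pm_011_s3

theorem t4656_B00pm_011_s3 : ∃ t, chk3 f_B00pm_011_s3 t 237 499 16 = true := ex3_b t4655_B00pm_011_s3 t4649_B00pm_011_s3

theorem t4657_B00pm_011_s3 : ∃ t, chk3 f_B00pm_011_s3 t 237 499 8 = true := ex3_c t4656_B00pm_011_s3 t4645_B00pm_011_s3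

theorem t4658_B00pm_011_s3 : ∃ t, chk3 f_B00pm_011_s3 t 237 499 4 = true := ex3_c t4657_B00pm_011_s3 t4609_B00pm_011_s3

theorem t4659_B00pm_011_s3 : ∃ t, chk3 f_B00pm_011_s3 t 237 249 4 = true := ex3_b k759_B00pm_011_s3 t4658_B00pm_011_s3

theorem t4660_B00pm_011_s3 : ∃ t, chk3 f_B00pm_011_s3 t 473 1996 39 = true := ex3_a k755_B00pm_011_s3 k756_B00pm_011_s3

theorem t4661_B00pm_011_s3 : ∃ t, chk3 f_B00pm_011_s3 t 473 998 39 = true := ex3_b t4660_B00pm_011_s3 k757_B00pm_011_s3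

theorem t4662_B00pm_011_s3 : ∃ t, chk3 f_B00pm_011_s3 t 473 499 39 = true := ex3_b t4661_B00pm_011_s3 k758_B00pm_011_s3

theorem t4663_B00pm_011_s3 : ∃ t, chk3 f_B00pm_011_s3 t 473 249 39 = true := ex3_b k754_B00pm_011_s3 t4662_B00pm_011_s3

theorem t4664_B00pm_011_s3 : ∃ t, chk3 f_B00pm_011_s3 t 472 498 39 = true := ex3_b k751_B00pm_011_s3 k752_B00pm_011_s3

theorem t4665_B00pm_011_s3 : ∃ t, chk3 f_B00pm_011_s3 t 472 249 39 = true := ex3_b t4664_B00pm_011_s3 k753_B00pm_011_s3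

theorem t4666_B00pm_011_s3 : ∃ t, chk3 f_B00pm_011_s3 t 236 249 39 = true := ex3_a t4665_B00pm_011_s3 t4663_B00pm_011_s3

theorem t4667_B00pm_011_s3 : ∃ t, chk3 f_B00pm_011_s3 t 1895 998 154 = true := ex3_b k747_B00pm_011_s3 k748_B00pm_011_s3

theorem t4668_B00pm_011_s3 : ∃ t, chk3 f_B00pm_011_s3 t 1895 998 77 = true := ex3_c t4667_B00pm_011_s3 k749_B00pm_011_s3

theorem t4669_B00pm_011_s3 : ∃ t, chk3 f_B00pm_011_s3 t 1895 499 77 = true := ex3_b t4668_B00pm_011_s3 k750_B00pm_011_s3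

theorem t4670_B00pm_011_s3 : ∃ t, chk3 f_B00pm_011_s3 t 947 499 77 = true := ex3_a k746_B00pm_011_s3 t4669_B00pm_011_s3

theorem t4671_B00pm_011_s3 : ∃ t, chk3 f_B00pm_011_s3 t 473 499 77 = true := ex3_a k745_B00pm_011_s3 t4670_B00pm_011_s3

theorem t4672_B00pm_011_s3 : ∃ t, chk3 f_B00pm_011_s3 t 947 1998 76 = true := ex3_a k742_B00pm_011_s3 k743_B00pm_011_s3

theorem t4673_B00pm_011_s3 : ∃ t, chk3 f_B00pm_011_s3 t 947 999 76 = true := ex3_b t4672_B00pm_011_s3 k744_B00pm_011_s3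

theorem t4674_B00pm_011_s3 : ∃ t, chk3 f_B00pm_011_s3 t 473 999 76 = true := ex3_a k741_B00pm_011_s3 t4673_B00pm_011_s3

theorem t4675_B00pm_011_s3 : ∃ t, chk3 f_B00pm_011_s3 t 947 1997 76 = true := ex3_b k739_B00pm_011_s3 k740_B00pm_011_s3

theorem t4676_B00pm_011_s3 : ∃ t, chk3 f_B00pm_011_s3 t 947 998 76 = true := ex3_b k738_B00pm_011_s3 t4675_B00pm_011_s3

theorem t4677_B00pm_011_s3 : ∃ t, chk3 f_B00pm_011_s3 t 1893 1996 76 = true := ex3_a k735_B00pm_011_s3 k736_B00pm_011_s3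

theorem t4678_B00pm_011_s3 : ∃ t, chk3 f_B00pm_011_s3 t 1892 1996 76 = true := ex3_c k733_B00pm_011_s3 k734_B00pm_011_s3

theorem t4679_B00pm_011_s3 : ∃ t, chk3 f_B00pm_011_s3 t 946 1996 76 = true := ex3_a t4678_B00pm_011_s3 t4677_B00pm_011_s3

theorem t4680_B00pm_011_s3 : ∃ t, chk3 f_B00pm_011_s3 t 946 998 76 = true := ex3_b t4679_B00pm_011_s3 k737_B00pm_011_s3

theorem t4681_B00pm_011_s3 : ∃ t, chk3 f_B00pm_011_s3 t 473 998 76 = true := ex3_a t4680_B00pm_011_s3 t4676_B00pm_011_s3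

theorem t4682_B00pm_011_s3 : ∃ t, chk3 f_B00pm_011_s3 t 473 499 76 = true := ex3_b t4681_B00pm_011_s3 t4674_B00pm_011_s3

theorem t4683_B00pm_011_s3 : ∃ t, chk3 f_B00pm_011_s3 t 473 499 38 = true := ex3_c t4682_B00pm_011_s3 t4671_B00pm_011_s3

theorem t4684_B00pm_011_s3 : ∃ t, chk3 f_B00pm_011_s3 t 473 249 38 = true := ex3_b k732_B00pm_011_s3 t4683_B00pm_011_s3

theorem t4685_B00pm_011_s3 : ∃ t, chk3 f_B00pm_011_s3 t 945 249 76 = true := ex3_b k729_B00pm_011_s3 k730_B00pm_011_s3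

theorem t4686_B00pm_011_s3 : ∃ t, chk3 f_B00pm_011_s3 t 472 249 76 = true := ex3_a k728_B00pm_011_s3 t4685_B00pm_011_s3

theorem t4687_B00pm_011_s3 : ∃ t, chk3 f_B00pm_011_s3 t 472 249 38 = true := ex3_c t4686_B00pm_011_s3 k731_B00pm_011_s3

theorem t4688_B00pm_011_s3 : ∃ t, chk3 f_B00pm_011_s3 t 236 249 38 = true := ex3_a t4687_B00pm_011_s3 t4684_B00pm_011_s3

theorem t4689_B00pm_011_s3 : ∃ t, chk3 f_B00pm_011_s3 t 236 249 19 = true := ex3_c t4688_B00pm_011_s3 t4666_B00pm_011_s3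

theorem t4690_B00pm_011_s3 : ∃ t, chk3 f_B00pm_011_s3 t 473 999 75 = true := ex3_b k726_B00pm_011_s3 k727_B00pm_011_s3

theorem t4691_B00pm_011_s3 : ∃ t, chk3 f_B00pm_011_s3 t 946 1997 75 = true := ex3_a k723_B00pm_011_s3 k724_B00pm_011_s3

theorem t4692_B00pm_011_s3 : ∃ t, chk3 f_B00pm_011_s3 t 473 1997 75 = true := ex3_a t4691_B00pm_011_s3 k725_B00pm_011_s3

theorem t4693_B00pm_011_s3 : ∃ t, chk3 f_B00pm_011_s3 t 473 998 75 = true := ex3_b k722_B00pm_011_s3 t4692_B00pm_011_s3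

theorem t4694_B00pm_011_s3 : ∃ t, chk3 f_B00pm_011_s3 t 473 499 75 = true := ex3_b t4693_B00pm_011_s3 t4690_B00pm_011_s3

theorem t4695_B00pm_011_s3 : ∃ t, chk3 f_B00pm_011_s3 t 473 249 75 = true := ex3_b k721_B00pm_011_s3 t4694_B00pm_011_s3

theorem t4696_B00pm_011_s3 : ∃ t, chk3 f_B00pm_011_s3 t 473 249 74 = true := ex3_a k719_B00pm_011_s3 k720_B00pm_011_s3

theorem t4697_B00pm_011_s3 : ∃ t, chk3 f_B00pm_011_s3 t 473 249 37 = true := ex3_c t4696_B00pm_011_s3 t4695_B00pm_011_s3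

theorem t4698_B00pm_011_s3 : ∃ t, chk3 f_B00pm_011_s3 t 1891 1996 75 = true := ex3_c k715_B00pm_011_s3 k716_B00pm_011_s3

theorem t4699_B00pm_011_s3 : ∃ t, chk3 f_B00pm_011_s3 t 1891 998 75 = true := ex3_b t4698_B00pm_011_s3 k717_B00pm_011_s3

theorem t4700_B00pm_011_s3 : ∃ t, chk3 f_B00pm_011_s3 t 945 998 75 = true := ex3_a k714_B00pm_011_s3 t4699_B00pm_011_s3

theorem t4701_B00pm_011_s3 : ∃ t, chk3 f_B00pm_011_s3 t 945 499 75 = true := ex3_b t4700_B00pm_011_s3 k718_B00pm_011_s3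

theorem t4702_B00pm_011_s3 : ∃ t, chk3 f_B00pm_011_s3 t 1890 1995 75 = true := ex3_b k711_B00pm_011_s3 k712_B00pm_011_s3

theorem t4703_B00pm_011_s3 : ∃ t, chk3 f_B00pm_011_s3 t 945 1995 75 = true := ex3_a t4702_B00pm_011_s3 k713_B00pm_011_s3

theorem t4704_B00pm_011_s3 : ∃ t, chk3 f_B00pm_011_s3 t 945 997 75 = true := ex3_b k710_B00pm_011_s3 t4703_B00pm_011_s3

theorem t4705_B00pm_011_s3 : ∃ t, chk3 f_B00pm_011_s3 t 945 498 75 = true := ex3_b k709_B00pm_011_s3 t4704_B00pm_011_s3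

theorem t4706_B00pm_011_s3 : ∃ t, chk3 f_B00pm_011_s3 t 945 249 75 = true := ex3_b t4705_B00pm_011_s3 t4701_B00pm_011_s3

theorem t4707_B00pm_011_s3 : ∃ t, chk3 f_B00pm_011_s3 t 944 997 150 = true := ex3_b k705_B00pm_011_s3 k706_B00pm_011_s3

theorem t4708_B00pm_011_s3 : ∃ t, chk3 f_B00pm_011_s3 t 944 997 75 = true := ex3_c t4707_B00pm_011_s3 k707_B00pm_011_s3

theorem t4709_B00pm_011_s3 : ∃ t, chk3 f_B00pm_011_s3 t 944 498 75 = true := ex3_b k704_B00pm_011_s3 t4708_B00pm_011_s3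

theorem t4710_B00pm_011_s3 : ∃ t, chk3 f_B00pm_011_s3 t 944 249 75 = true := ex3_b t4709_B00pm_011_s3 k708_B00pm_011_s3

theorem t4711_B00pm_011_s3 : ∃ t, chk3 f_B00pm_011_s3 t 472 249 75 = true := ex3_a t4710_B00pm_011_s3 t4706_B00pm_011_s3

theorem t4712_B00pm_011_s3 : ∃ t, chk3 f_B00pm_011_s3 t 945 249 149 = true := ex3_b k702_B00pm_011_s3 k703_B00pm_011_s3

theorem t4713_B00pm_011_s3 : ∃ t, chk3 f_B00pm_011_s3 t 945 249 74 = true := ex3_c k701_B00pm_011_s3 t4712_B00pm_011_s3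

theorem t4714_B00pm_011_s3 : ∃ t, chk3 f_B00pm_011_s3 t 944 499 74 = true := ex3_b k699_B00pm_011_s3 k700_B00pm_011_s3

theorem t4715_B00pm_011_s3 : ∃ t, chk3 f_B00pm_011_s3 t 1888 1995 74 = true := ex3_c k696_B00pm_011_s3 k697_B00pm_011_s3

theorem t4716_B00pm_011_s3 : ∃ t, chk3 f_B00pm_011_s3 t 944 1995 74 = true := ex3_a t4715_B00pm_011_s3 k698_B00pm_011_s3

theorem t4717_B00pm_011_s3 : ∃ t, chk3 f_B00pm_011_s3 t 944 997 74 = true := ex3_b k695_B00pm_011_s3 t4716_B00pm_011_s3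

theorem t4718_B00pm_011_s3 : ∃ t, chk3 f_B00pm_011_s3 t 944 498 74 = true := ex3_b k694_B00pm_011_s3 t4717_B00pm_011_s3

theorem t4719_B00pm_011_s3 : ∃ t, chk3 f_B00pm_011_s3 t 944 249 74 = true := ex3_b t4718_B00pm_011_s3 t4714_B00pm_011_s3

theorem t4720_B00pm_011_s3 : ∃ t, chk3 f_B00pm_011_s3 t 472 249 74 = true := ex3_a t4719_B00pm_011_s3 t4713_B00pm_011_s3

theorem t4721_B00pm_011_s3 : ∃ t, chk3 f_B00pm_011_s3 t 472 249 37 = true := ex3_c t4720_B00pm_011_s3 t4711_B00pm_011_s3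

theorem t4722_B00pm_011_s3 : ∃ t, chk3 f_B00pm_011_s3 t 236 249 37 = true := ex3_a t4721_B00pm_011_s3 t4697_B00pm_011_s3

theorem t4723_B00pm_011_s3 : ∃ t, chk3 f_B00pm_011_s3 t 473 249 36 = true := ex3_c k692_B00pm_011_s3 k693_B00pm_011_s3

theorem t4724_B00pm_011_s3 : ∃ t, chk3 f_B00pm_011_s3 t 944 499 73 = true := ex3_b k689_B00pm_011_s3 k690_B00pm_011_s3

theorem t4725_B00pm_011_s3 : ∃ t, chk3 f_B00pm_011_s3 t 944 249 73 = true := ex3_b k688_B00pm_011_s3 t4724_B00pm_011_s3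

theorem t4726_B00pm_011_s3 : ∃ t, chk3 f_B00pm_011_s3 t 472 249 73 = true := ex3_a t4725_B00pm_011_s3 k691_B00pm_011_s3

theorem t4727_B00pm_011_s3 : ∃ t, chk3 f_B00pm_011_s3 t 472 249 36 = true := ex3_c k687_B00pm_011_s3 t4726_B00pm_011_s3

theorem t4728_B00pm_011_s3 : ∃ t, chk3 f_B00pm_011_s3 t 236 249 36 = true := ex3_a t4727_B00pm_011_s3 t4723_B00pm_011_s3

theorem t4729_B00pm_011_s3 : ∃ t, chk3 f_B00pm_011_s3 t 236 249 18 = true := ex3_c t4728_B00pm_011_s3 t4722_B00pm_011_s3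

theorem t4730_B00pm_011_s3 : ∃ t, chk3 f_B00pm_011_s3 t 236 249 9 = true := ex3_c t4729_B00pm_011_s3 t4689_B00pm_011_s3

theorem t4731_B00pm_011_s3 : ∃ t, chk3 f_B00pm_011_s3 t 947 249 71 = true := ex3_c k685_B00pm_011_s3 k686_B00pm_011_s3

theorem t4732_B00pm_011_s3 : ∃ t, chk3 f_B00pm_011_s3 t 473 249 71 = true := ex3_a k684_B00pm_011_s3 t4731_B00pm_011_s3

theorem t4733_B00pm_011_s3 : ∃ t, chk3 f_B00pm_011_s3 t 1895 1997 140 = true := ex3_b k680_B00pm_011_s3 k681_B00pm_011_s3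

theorem t4734_B00pm_011_s3 : ∃ t, chk3 f_B00pm_011_s3 t 1895 1997 70 = true := ex3_c t4733_B00pm_011_s3 k682_B00pm_011_s3

theorem t4735_B00pm_011_s3 : ∃ t, chk3 f_B00pm_011_s3 t 947 1997 70 = true := ex3_a k679_B00pm_011_s3 t4734_B00pm_011_s3

theorem t4736_B00pm_011_s3 : ∃ t, chk3 f_B00pm_011_s3 t 947 1996 70 = true := ex3_a k677_B00pm_011_s3 k678_B00pm_011_s3

theorem t4737_B00pm_011_s3 : ∃ t, chk3 f_B00pm_011_s3 t 947 998 70 = true := ex3_b t4736_B00pm_011_s3 t4735_B00pm_011_s3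

theorem t4738_B00pm_011_s3 : ∃ t, chk3 f_B00pm_011_s3 t 947 499 70 = true := ex3_b t4737_B00pm_011_s3 k683_B00pm_011_s3

theorem t4739_B00pm_011_s3 : ∃ t, chk3 f_B00pm_011_s3 t 947 249 70 = true := ex3_b k676_B00pm_011_s3 t4738_B00pm_011_s3

theorem t4740_B00pm_011_s3 : ∃ t, chk3 f_B00pm_011_s3 t 946 998 70 = true := ex3_b k673_B00pm_011_s3 k674_B00pm_011_s3

theorem t4741_B00pm_011_s3 : ∃ t, chk3 f_B00pm_011_s3 t 946 499 70 = true := ex3_b t4740_B00pm_011_s3 k675_B00pm_011_s3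

theorem t4742_B00pm_011_s3 : ∃ t, chk3 f_B00pm_011_s3 t 946 249 70 = true := ex3_b k672_B00pm_011_s3 t4741_B00pm_011_s3

theorem t4743_B00pm_011_s3 : ∃ t, chk3 f_B00pm_011_s3 t 473 249 70 = true := ex3_a t4742_B00pm_011_s3 t4739_B00pm_011_s3

theorem t4744_B00pm_011_s3 : ∃ t, chk3 f_B00pm_011_s3 t 473 249 35 = true := ex3_c t4743_B00pm_011_s3 t4732_B00pm_011_s3

theorem t4745_B00pm_011_s3 : ∃ t, chk3 f_B00pm_011_s3 t 472 249 35 = true := ex3_c k670_B00pm_011_s3 k671_B00pm_011_s3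

theorem t4746_B00pm_011_s3 : ∃ t, chk3 f_B00pm_011_s3 t 236 249 35 = true := ex3_a t4745_B00pm_011_s3 t4744_B00pm_011_s3

theorem t4747_B00pm_011_s3 : ∃ t, chk3 f_B00pm_011_s3 t 947 999 69 = true := ex3_b k668_B00pm_011_s3 k669_B00pm_011_s3

theorem t4748_B00pm_011_s3 : ∃ t, chk3 f_B00pm_011_s3 t 1894 1997 69 = true := ex3_c k665_B00pm_011_s3 k666_B00pm_011_s3

theorem t4749_B00pm_011_s3 : ∃ t, chk3 f_B00pm_011_s3 t 947 1997 69 = true := ex3_a t4748_B00pm_011_s3 k667_B00pm_011_s3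

theorem t4750_B00pm_011_s3 : ∃ t, chk3 f_B00pm_011_s3 t 947 998 69 = true := ex3_b k664_B00pm_011_s3 t4749_B00pm_011_s3

theorem t4751_B00pm_011_s3 : ∃ t, chk3 f_B00pm_011_s3 t 947 499 69 = true := ex3_b t4750_B00pm_011_s3 t4747_B00pm_011_s3

theorem t4752_B00pm_011_s3 : ∃ t, chk3 f_B00pm_011_s3 t 947 249 69 = true := ex3_b k663_B00pm_011_s3 t4751_B00pm_011_s3

theorem t4753_B00pm_011_s3 : ∃ t, chk3 f_B00pm_011_s3 t 946 1996 139 = true := ex3_a k659_B00pm_011_s3 k660_B00pm_011_s3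

theorem t4754_B00pm_011_s3 : ∃ t, chk3 f_B00pm_011_s3 t 946 998 139 = true := ex3_b t4753_B00pm_011_s3 k661_B00pm_011_s3

theorem t4755_B00pm_011_s3 : ∃ t, chk3 f_B00pm_011_s3 t 946 499 139 = true := ex3_b t4754_B00pm_011_s3 k662_B00pm_011_s3

theorem t4756_B00pm_011_s3 : ∃ t, chk3 f_B00pm_011_s3 t 946 249 139 = true := ex3_b k658_B00pm_011_s3 t4755_B00pm_011_s3

theorem t4757_B00pm_011_s3 : ∃ t, chk3 f_B00pm_011_s3 t 1893 998 138 = true := ex3_b k655_B00pm_011_s3 k656_B00pm_011_s3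

theorem t4758_B00pm_011_s3 : ∃ t, chk3 f_B00pm_011_s3 t 1893 499 138 = true := ex3_b t4757_B00pm_011_s3 k657_B00pm_011_s3

theorem t4759_B00pm_011_s3 : ∃ t, chk3 f_B00pm_011_s3 t 1893 249 138 = true := ex3_b k654_B00pm_011_s3 t4758_B00pm_011_s3

theorem t4760_B00pm_011_s3 : ∃ t, chk3 f_B00pm_011_s3 t 1892 249 138 = true := ex3_b k652_B00pm_011_s3 k653_B00pm_011_s3

theorem t4761_B00pm_011_s3 : ∃ t, chk3 f_B00pm_011_s3 t 946 249 138 = true := ex3_a t4760_B00pm_011_s3 t4759_B00pm_011_s3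

theorem t4762_B00pm_011_s3 : ∃ t, chk3 f_B00pm_011_s3 t 946 249 69 = true := ex3_c t4761_B00pm_011_s3 t4756_B00pm_011_s3

theorem t4763_B00pm_011_s3 : ∃ t, chk3 f_B00pm_011_s3 t 473 249 69 = true := ex3_a t4762_B00pm_011_s3 t4752_B00pm_011_s3

theorem t4764_B00pm_011_s3 : ∃ t, chk3 f_B00pm_011_s3 t 473 999 68 = true := ex3_a k650_B00pm_011_s3 k651_B00pm_011_s3

theorem t4765_B00pm_011_s3 : ∃ t, chk3 f_B00pm_011_s3 t 946 1997 68 = true := ex3_a k647_B00pm_011_s3 k648_B00pm_011_s3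

theorem t4766_B00pm_011_s3 : ∃ t, chk3 f_B00pm_011_s3 t 946 1996 68 = true := ex3_a k645_B00pm_011_s3 k646_B00pm_011_s3

theorem t4767_B00pm_011_s3 : ∃ t, chk3 f_B00pm_011_s3 t 946 998 68 = true := ex3_b t4766_B00pm_011_s3 t4765_B00pm_011_s3

theorem t4768_B00pm_011_s3 : ∃ t, chk3 f_B00pm_011_s3 t 473 998 68 = true := ex3_a t4767_B00pm_011_s3 k649_B00pm_011_s3

theorem t4769_B00pm_011_s3 : ∃ t, chk3 f_B00pm_011_s3 t 473 499 68 = true := ex3_b t4768_B00pm_011_s3 t4764_B00pm_011_s3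

theorem t4770_B00pm_011_s3 : ∃ t, chk3 f_B00pm_011_s3 t 473 249 68 = true := ex3_b k644_B00pm_011_s3 t4769_B00pm_011_s3

theorem t4771_B00pm_011_s3 : ∃ t, chk3 f_B00pm_011_s3 t 473 249 34 = true := ex3_c t4770_B00pm_011_s3 t4763_B00pm_011_s3

theorem t4772_B00pm_011_s3 : ∃ t, chk3 f_B00pm_011_s3 t 1891 1996 68 = true := ex3_c k639_B00pm_011_s3 k640_B00pm_011_s3

theorem t4773_B00pm_011_s3 : ∃ t, chk3 f_B00pm_011_s3 t 945 1996 68 = true := ex3_a k638_B00pm_011_s3 t4772_B00pm_011_s3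

theorem t4774_B00pm_011_s3 : ∃ t, chk3 f_B00pm_011_s3 t 945 1996 34 = true := ex3_c t4773_B00pm_011_s3 k641_B00pm_011_s3

theorem t4775_B00pm_011_s3 : ∃ t, chk3 f_B00pm_011_s3 t 472 1996 34 = true := ex3_a k637_B00pm_011_s3 t4774_B00pm_011_s3

theorem t4776_B00pm_011_s3 : ∃ t, chk3 f_B00pm_011_s3 t 472 998 34 = true := ex3_b t4775_B00pm_011_s3 k642_B00pm_011_s3

theorem t4777_B00pm_011_s3 : ∃ t, chk3 f_B00pm_011_s3 t 472 499 34 = true := ex3_b t4776_B00pm_011_s3 k643_B00pm_011_s3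

theorem t4778_B00pm_011_s3 : ∃ t, chk3 f_B00pm_011_s3 t 945 1995 69 = true := ex3_b k635_B00pm_011_s3 k636_B00pm_011_s3

theorem t4779_B00pm_011_s3 : ∃ t, chk3 f_B00pm_011_s3 t 945 997 69 = true := ex3_b k634_B00pm_011_s3 t4778_B00pm_011_s3

theorem t4780_B00pm_011_s3 : ∃ t, chk3 f_B00pm_011_s3 t 1890 1995 136 = true := ex3_b k630_B00pm_011_s3 k631_B00pm_011_s3

theorem t4781_B00pm_011_s3 : ∃ t, chk3 f_B00pm_011_s3 t 1890 1995 68 = true := ex3_c t4780_B00pm_011_s3 k632_B00pm_011_s3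

theorem t4782_B00pm_011_s3 : ∃ t, chk3 f_B00pm_011_s3 t 1890 997 68 = true := ex3_b k629_B00pm_011_s3 t4781_B00pm_011_s3

theorem t4783_B00pm_011_s3 : ∃ t, chk3 f_B00pm_011_s3 t 945 997 68 = true := ex3_a t4782_B00pm_011_s3 k633_B00pm_011_s3

theorem t4784_B00pm_011_s3 : ∃ t, chk3 f_B00pm_011_s3 t 945 997 34 = true := ex3_c t4783_B00pm_011_s3 t4779_B00pm_011_s3

theorem t4785_B00pm_011_s3 : ∃ t, chk3 f_B00pm_011_s3 t 945 498 34 = true := ex3_b k628_B00pm_011_s3 t4784_B00pm_011_s3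

theorem t4786_B00pm_011_s3 : ∃ t, chk3 f_B00pm_011_s3 t 1889 997 68 = true := ex3_b k625_B00pm_011_s3 k626_B00pm_011_s3

theorem t4787_B00pm_011_s3 : ∃ t, chk3 f_B00pm_011_s3 t 1889 498 68 = true := ex3_b k624_B00pm_011_s3 t4786_B00pm_011_s3

theorem t4788_B00pm_011_s3 : ∃ t, chk3 f_B00pm_011_s3 t 944 498 68 = true := ex3_a k623_B00pm_011_s3 t4787_B00pm_011_s3

theorem t4789_B00pm_011_s3 : ∃ t, chk3 f_B00pm_011_s3 t 944 498 34 = true := ex3_c t4788_B00pm_011_s3 k627_B00pm_011_s3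

theorem t4790_B00pm_011_s3 : ∃ t, chk3 f_B00pm_011_s3 t 472 498 34 = true := ex3_a t4789_B00pm_011_s3 t4785_B00pm_011_s3

theorem t4791_B00pm_011_s3 : ∃ t, chk3 f_B00pm_011_s3 t 472 249 34 = true := ex3_b t4790_B00pm_011_s3 t4777_B00pm_011_s3

theorem t4792_B00pm_011_s3 : ∃ t, chk3 f_B00pm_011_s3 t 236 249 34 = true := ex3_a t4791_B00pm_011_s3 t4771_B00pm_011_s3

theorem t4793_B00pm_011_s3 : ∃ t, chk3 f_B00pm_011_s3 t 236 249 17 = true := ex3_c t4792_B00pm_011_s3 t4746_B00pm_011_s3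

theorem t4794_B00pm_011_s3 : ∃ t, chk3 f_B00pm_011_s3 t 473 499 33 = true := ex3_b k621_B00pm_011_s3 k622_B00pm_011_s3

theorem t4795_B00pm_011_s3 : ∃ t, chk3 f_B00pm_011_s3 t 473 249 33 = true := ex3_b k620_B00pm_011_s3 t4794_B00pm_011_s3

theorem t4796_B00pm_011_s3 : ∃ t, chk3 f_B00pm_011_s3 t 473 249 16 = true := ex3_c k619_B00pm_011_s3 t4795_B00pm_011_s3

theorem t4797_B00pm_011_s3 : ∃ t, chk3 f_B00pm_011_s3 t 945 249 135 = true := ex3_a k617_B00pm_011_s3 k618_B00pm_011_s3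

theorem t4798_B00pm_011_s3 : ∃ t, chk3 f_B00pm_011_s3 t 945 249 67 = true := ex3_c k616_B00pm_011_s3 t4797_B00pm_011_s3

theorem t4799_B00pm_011_s3 : ∃ t, chk3 f_B00pm_011_s3 t 1889 1995 67 = true := ex3_b k613_B00pm_011_s3 k614_B00pm_011_s3

theorem t4800_B00pm_011_s3 : ∃ t, chk3 f_B00pm_011_s3 t 1888 1995 67 = true := ex3_c k611_B00pm_011_s3 k612_B00pm_011_s3

theorem t4801_B00pm_011_s3 : ∃ t, chk3 f_B00pm_011_s3 t 944 1995 67 = true := ex3_a t4800_B00pm_011_s3 t4799_B00pm_011_s3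

theorem t4802_B00pm_011_s3 : ∃ t, chk3 f_B00pm_011_s3 t 944 1994 67 = true := ex3_a k609_B00pm_011_s3 k610_B00pm_011_s3

theorem t4803_B00pm_011_s3 : ∃ t, chk3 f_B00pm_011_s3 t 944 997 67 = true := ex3_b t4802_B00pm_011_s3 t4801_B00pm_011_s3

theorem t4804_B00pm_011_s3 : ∃ t, chk3 f_B00pm_011_s3 t 944 498 67 = true := ex3_b k608_B00pm_011_s3 t4803_B00pm_011_s3

theorem t4805_B00pm_011_s3 : ∃ t, chk3 f_B00pm_011_s3 t 944 249 67 = true := ex3_b t4804_B00pm_011_s3 k615_B00pm_011_s3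

theorem t4806_B00pm_011_s3 : ∃ t, chk3 f_B00pm_011_s3 t 472 249 67 = true := ex3_a t4805_B00pm_011_s3 t4798_B00pm_011_s3

theorem t4807_B00pm_011_s3 : ∃ t, chk3 f_B00pm_011_s3 t 944 998 66 = true := ex3_b k604_B00pm_011_s3 k605_B00pm_011_s3

theorem t4808_B00pm_011_s3 : ∃ t, chk3 f_B00pm_011_s3 t 944 499 66 = true := ex3_b t4807_B00pm_011_s3 k606_B00pm_011_s3

theorem t4809_B00pm_011_s3 : ∃ t, chk3 f_B00pm_011_s3 t 944 249 66 = true := ex3_b k603_B00pm_011_s3 t4808_B00pm_011_s3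

theorem t4810_B00pm_011_s3 : ∃ t, chk3 f_B00pm_011_s3 t 472 249 66 = true := ex3_a t4809_B00pm_011_s3 k607_B00pm_011_s3

theorem t4811_B00pm_011_s3 : ∃ t, chk3 f_B00pm_011_s3 t 472 249 33 = true := ex3_c t4810_B00pm_011_s3 t4806_B00pm_011_s3

theorem t4812_B00pm_011_s3 : ∃ t, chk3 f_B00pm_011_s3 t 472 249 32 = true := ex3_a k601_B00pm_011_s3 k602_B00pm_011_s3

theorem t4813_B00pm_011_s3 : ∃ t, chk3 f_B00pm_011_s3 t 472 249 16 = true := ex3_c t4812_B00pm_011_s3 t4811_B00pm_011_s3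

theorem t4814_B00pm_011_s3 : ∃ t, chk3 f_B00pm_011_s3 t 236 249 16 = true := ex3_a t4813_B00pm_011_s3 t4796_B00pm_011_s3

theorem t4815_B00pm_011_s3 : ∃ t, chk3 f_B00pm_011_s3 t 236 249 8 = true := ex3_c t4814_B00pm_011_s3 t4793_B00pm_011_s3

theorem t4816_B00pm_011_s3 : ∃ t, chk3 f_B00pm_011_s3 t 236 249 4 = true := ex3_c t4815_B00pm_011_s3 t4730_B00pm_011_s3

theorem t4817_B00pm_011_s3 : ∃ t, chk3 f_B00pm_011_s3 t 118 249 4 = true := ex3_a t4816_B00pm_011_s3 t4659_B00pm_011_s3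

theorem t4818_B00pm_011_s3 : ∃ t, chk3 f_B00pm_011_s3 t 118 124 4 = true := ex3_b k600_B00pm_011_s3 t4817_B00pm_011_s3

theorem t4819_B00pm_011_s3 : ∃ t, chk3 f_B00pm_011_s3 t 118 62 4 = true := ex3_b t4818_B00pm_011_s3 t4515_B00pm_011_s3

theorem t4820_B00pm_011_s3 : ∃ t, chk3 f_B00pm_011_s3 t 59 62 4 = true := ex3_a t4819_B00pm_011_s3 t4382_B00pm_011_s3

theorem t4821_B00pm_011_s3 : ∃ t, chk3 f_B00pm_011_s3 t 117 125 9 = true := ex3_b k598_B00pm_011_s3 k599_B00pm_011_s3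

theorem t4822_B00pm_011_s3 : ∃ t, chk3 f_B00pm_011_s3 t 117 251 16 = true := ex3_a k595_B00pm_011_s3 k596_B00pm_011_s3

theorem t4823_B00pm_011_s3 : ∃ t, chk3 f_B00pm_011_s3 t 117 251 8 = true := ex3_c t4822_B00pm_011_s3 k597_B00pm_011_s3

theorem t4824_B00pm_011_s3 : ∃ t, chk3 f_B00pm_011_s3 t 235 500 34 = true := ex3_a k591_B00pm_011_s3 k592_B00pm_011_s3

theorem t4825_B00pm_011_s3 : ∃ t, chk3 f_B00pm_011_s3 t 235 500 17 = true := ex3_c t4824_B00pm_011_s3 k593_B00pm_011_s3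

theorem t4826_B00pm_011_s3 : ∃ t, chk3 f_B00pm_011_s3 t 235 250 17 = true := ex3_b t4825_B00pm_011_s3 k594_B00pm_011_s3

theorem t4827_B00pm_011_s3 : ∃ t, chk3 f_B00pm_011_s3 t 117 250 17 = true := ex3_a k590_B00pm_011_s3 t4826_B00pm_011_s3

theorem t4828_B00pm_011_s3 : ∃ t, chk3 f_B00pm_011_s3 t 235 501 33 = true := ex3_a k588_B00pm_011_s3 k589_B00pm_011_s3

theorem t4829_B00pm_011_s3 : ∃ t, chk3 f_B00pm_011_s3 t 235 501 16 = true := ex3_c k587_B00pm_011_s3 t4828_B00pm_011_s3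

theorem t4830_B00pm_011_s3 : ∃ t, chk3 f_B00pm_011_s3 t 235 500 33 = true := ex3_a k585_B00pm_011_s3 k586_B00pm_011_s3

theorem t4831_B00pm_011_s3 : ∃ t, chk3 f_B00pm_011_s3 t 235 500 16 = true := ex3_c k584_B00pm_011_s3 t4830_B00pm_011_s3

theorem t4832_B00pm_011_s3 : ∃ t, chk3 f_B00pm_011_s3 t 235 250 16 = true := ex3_b t4831_B00pm_011_s3 t4829_B00pm_011_s3

theorem t4833_B00pm_011_s3 : ∃ t, chk3 f_B00pm_011_s3 t 469 500 16 = true := ex3_c k581_B00pm_011_s3 k582_B00pm_011_s3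

theorem t4834_B00pm_011_s3 : ∃ t, chk3 f_B00pm_011_s3 t 234 500 16 = true := ex3_a k580_B00pm_011_s3 t4833_B00pm_011_s3

theorem t4835_B00pm_011_s3 : ∃ t, chk3 f_B00pm_011_s3 t 234 250 16 = true := ex3_b t4834_B00pm_011_s3 k583_B00pm_011_s3

theorem t4836_B00pm_011_s3 : ∃ t, chk3 f_B00pm_011_s3 t 117 250 16 = true := ex3_a t4835_B00pm_011_s3 t4832_B00pm_011_s3

theorem t4837_B00pm_011_s3 : ∃ t, chk3 f_B00pm_011_s3 t 117 250 8 = true := ex3_c t4836_B00pm_011_s3 t4827_B00pm_011_s3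

theorem t4838_B00pm_011_s3 : ∃ t, chk3 f_B00pm_011_s3 t 117 125 8 = true := ex3_b t4837_B00pm_011_s3 t4823_B00pm_011_s3

theorem t4839_B00pm_011_s3 : ∃ t, chk3 f_B00pm_011_s3 t 117 125 4 = true := ex3_c t4838_B00pm_011_s3 t4821_B00pm_011_s3

theorem t4840_B00pm_011_s3 : ∃ t, chk3 f_B00pm_011_s3 t 58 125 4 = true := ex3_a k579_B00pm_011_s3 t4839_B00pm_011_s3

theorem t4841_B00pm_011_s3 : ∃ t, chk3 f_B00pm_011_s3 t 235 498 19 = true := ex3_b k576_B00pm_011_s3 k577_B00pm_011_s3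

theorem t4842_B00pm_011_s3 : ∃ t, chk3 f_B00pm_011_s3 t 235 249 19 = true := ex3_b t4841_B00pm_011_s3 k578_B00pm_011_s3

theorem t4843_B00pm_011_s3 : ∃ t, chk3 f_B00pm_011_s3 t 235 124 19 = true := ex3_b k575_B00pm_011_s3 t4842_B00pm_011_s3

theorem t4844_B00pm_011_s3 : ∃ t, chk3 f_B00pm_011_s3 t 234 248 19 = true := ex3_b k572_B00pm_011_s3 k573_B00pm_011_s3

theorem t4845_B00pm_011_s3 : ∃ t, chk3 f_B00pm_011_s3 t 234 124 19 = true := ex3_b t4844_B00pm_011_s3 k574_B00pm_011_s3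

theorem t4846_B00pm_011_s3 : ∃ t, chk3 f_B00pm_011_s3 t 117 124 19 = true := ex3_a t4845_B00pm_011_s3 t4843_B00pm_011_s3

theorem t4847_B00pm_011_s3 : ∃ t, chk3 f_B00pm_011_s3 t 1887 1994 74 = true := ex3_b k567_B00pm_011_s3 k568_B00pm_011_s3

theorem t4848_B00pm_011_s3 : ∃ t, chk3 f_B00pm_011_s3 t 943 1994 74 = true := ex3_a k566_B00pm_011_s3 t4847_B00pm_011_s3

theorem t4849_B00pm_011_s3 : ∃ t, chk3 f_B00pm_011_s3 t 943 997 74 = true := ex3_b t4848_B00pm_011_s3 k569_B00pm_011_s3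

theorem t4850_B00pm_011_s3 : ∃ t, chk3 f_B00pm_011_s3 t 943 997 37 = true := ex3_c t4849_B00pm_011_s3 k570_B00pm_011_s3

theorem t4851_B00pm_011_s3 : ∃ t, chk3 f_B00pm_011_s3 t 471 997 37 = true := ex3_a k565_B00pm_011_s3 t4850_B00pm_011_s3

theorem t4852_B00pm_011_s3 : ∃ t, chk3 f_B00pm_011_s3 t 471 996 74 = true := ex3_a k562_B00pm_011_s3 k563_B00pm_011_s3

theorem t4853_B00pm_011_s3 : ∃ t, chk3 f_B00pm_011_s3 t 471 996 37 = true := ex3_c t4852_B00pm_011_s3 k564_B00pm_011_s3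

theorem t4854_B00pm_011_s3 : ∃ t, chk3 f_B00pm_011_s3 t 471 498 37 = true := ex3_b t4853_B00pm_011_s3 t4851_B00pm_011_s3

theorem t4855_B00pm_011_s3 : ∃ t, chk3 f_B00pm_011_s3 t 235 498 37 = true := ex3_a k561_B00pm_011_s3 t4854_B00pm_011_s3

theorem t4856_B00pm_011_s3 : ∃ t, chk3 f_B00pm_011_s3 t 235 249 37 = true := ex3_b t4855_B00pm_011_s3 k571_B00pm_011_s3

theorem t4857_B00pm_011_s3 : ∃ t, chk3 f_B00pm_011_s3 t 235 124 37 = true := ex3_b k560_B00pm_011_s3 t4856_B00pm_011_s3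

theorem t4858_B00pm_011_s3 : ∃ t, chk3 f_B00pm_011_s3 t 471 998 72 = true := ex3_a k556_B00pm_011_s3 k557_B00pm_011_s3

theorem t4859_B00pm_011_s3 : ∃ t, chk3 f_B00pm_011_s3 t 471 998 36 = true := ex3_c t4858_B00pm_011_s3 k558_B00pm_011_s3

theorem t4860_B00pm_011_s3 : ∃ t, chk3 f_B00pm_011_s3 t 471 499 36 = true := ex3_b t4859_B00pm_011_s3 k559_B00pm_011_s3

theorem t4861_B00pm_011_s3 : ∃ t, chk3 f_B00pm_011_s3 t 235 499 36 = true := ex3_a k555_B00pm_011_s3 t4860_B00pm_011_s3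

theorem t4862_B00pm_011_s3 : ∃ t, chk3 f_B00pm_011_s3 t 943 997 36 = true := ex3_b k553_B00pm_011_s3 k554_B00pm_011_s3

theorem t4863_B00pm_011_s3 : ∃ t, chk3 f_B00pm_011_s3 t 942 1994 73 = true := ex3_a k550_B00pm_011_s3 k551_B00pm_011_s3

theorem t4864_B00pm_011_s3 : ∃ t, chk3 f_B00pm_011_s3 t 942 997 73 = true := ex3_b t4863_B00pm_011_s3 k552_B00pm_011_s3

theorem t4865_B00pm_011_s3 : ∃ t, chk3 f_B00pm_011_s3 t 942 997 36 = true := ex3_c k549_B00pm_011_s3 t4864_B00pm_011_s3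

theorem t4866_B00pm_011_s3 : ∃ t, chk3 f_B00pm_011_s3 t 471 997 36 = true := ex3_a t4865_B00pm_011_s3 t4862_B00pm_011_s3

theorem t4867_B00pm_011_s3 : ∃ t, chk3 f_B00pm_011_s3 t 1884 1993 73 = true := ex3_b k545_B00pm_011_s3 k546_B00pm_011_s3

theorem t4868_B00pm_011_s3 : ∃ t, chk3 f_B00pm_011_s3 t 942 1993 73 = true := ex3_a t4867_B00pm_011_s3 k547_B00pm_011_s3

theorem t4869_B00pm_011_s3 : ∃ t, chk3 f_B00pm_011_s3 t 942 996 73 = true := ex3_b k544_B00pm_011_s3 t4868_B00pm_011_s3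

theorem t4870_B00pm_011_s3 : ∃ t, chk3 f_B00pm_011_s3 t 942 996 36 = true := ex3_c k543_B00pm_011_s3 t4869_B00pm_011_s3

theorem t4871_B00pm_011_s3 : ∃ t, chk3 f_B00pm_011_s3 t 471 996 36 = true := ex3_a t4870_B00pm_011_s3 k548_B00pm_011_s3

theorem t4872_B00pm_011_s3 : ∃ t, chk3 f_B00pm_011_s3 t 471 498 36 = true := ex3_b t4871_B00pm_011_s3 t4866_B00pm_011_s3

theorem t4873_B00pm_011_s3 : ∃ t, chk3 f_B00pm_011_s3 t 941 996 146 = true := ex3_b k539_B00pm_011_s3 k540_B00pm_011_s3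

theorem t4874_B00pm_011_s3 : ∃ t, chk3 f_B00pm_011_s3 t 941 996 73 = true := ex3_c t4873_B00pm_011_s3 k541_B00pm_011_s3

theorem t4875_B00pm_011_s3 : ∃ t, chk3 f_B00pm_011_s3 t 941 498 73 = true := ex3_b t4874_B00pm_011_s3 k542_B00pm_011_s3

theorem t4876_B00pm_011_s3 : ∃ t, chk3 f_B00pm_011_s3 t 470 498 73 = true := ex3_a k538_B00pm_011_s3 t4875_B00pm_011_s3

theorem t4877_B00pm_011_s3 : ∃ t, chk3 f_B00pm_011_s3 t 941 1993 72 = true := ex3_b k535_B00pm_011_s3 k536_B00pm_011_s3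

theorem t4878_B00pm_011_s3 : ∃ t, chk3 f_B00pm_011_s3 t 941 996 72 = true := ex3_b k534_B00pm_011_s3 t4877_B00pm_011_s3

theorem t4879_B00pm_011_s3 : ∃ t, chk3 f_B00pm_011_s3 t 941 498 72 = true := ex3_b t4878_B00pm_011_s3 k537_B00pm_011_s3

theorem t4880_B00pm_011_s3 : ∃ t, chk3 f_B00pm_011_s3 t 1881 1992 72 = true := ex3_c k530_B00pm_011_s3 k531_B00pm_011_s3

theorem t4881_B00pm_011_s3 : ∃ t, chk3 f_B00pm_011_s3 t 1881 996 72 = true := ex3_b t4880_B00pm_011_s3 k532_B00pm_011_s3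

theorem t4882_B00pm_011_s3 : ∃ t, chk3 f_B00pm_011_s3 t 940 996 72 = true := ex3_a k529_B00pm_011_s3 t4881_B00pm_011_s3

theorem t4883_B00pm_011_s3 : ∃ t, chk3 f_B00pm_011_s3 t 940 498 72 = true := ex3_b t4882_B00pm_011_s3 k533_B00pm_011_s3

theorem t4884_B00pm_011_s3 : ∃ t, chk3 f_B00pm_011_s3 t 470 498 72 = true := ex3_a t4883_B00pm_011_s3 t4879_B00pm_011_s3

theorem t4885_B00pm_011_s3 : ∃ t, chk3 f_B00pm_011_s3 t 470 498 36 = true := ex3_c t4884_B00pm_011_s3 t4876_B00pm_011_s3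

theorem t4886_B00pm_011_s3 : ∃ t, chk3 f_B00pm_011_s3 t 235 498 36 = true := ex3_a t4885_B00pm_011_s3 t4872_B00pm_011_s3

theorem t4887_B00pm_011_s3 : ∃ t, chk3 f_B00pm_011_s3 t 235 249 36 = true := ex3_b t4886_B00pm_011_s3 t4861_B00pm_011_s3

theorem t4888_B00pm_011_s3 : ∃ t, chk3 f_B00pm_011_s3 t 235 124 36 = true := ex3_b k528_B00pm_011_s3 t4887_B00pm_011_s3

theorem t4889_B00pm_011_s3 : ∃ t, chk3 f_B00pm_011_s3 t 235 124 18 = true := ex3_c t4888_B00pm_011_s3 t4857_B00pm_011_s3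

theorem t4890_B00pm_011_s3 : ∃ t, chk3 f_B00pm_011_s3 t 469 497 36 = true := ex3_c k524_B00pm_011_s3 k525_B00pm_011_s3

theorem t4891_B00pm_011_s3 : ∃ t, chk3 f_B00pm_011_s3 t 469 497 18 = true := ex3_c t4890_B00pm_011_s3 k526_B00pm_011_s3

theorem t4892_B00pm_011_s3 : ∃ t, chk3 f_B00pm_011_s3 t 469 248 18 = true := ex3_b k523_B00pm_011_s3 t4891_B00pm_011_s3

theorem t4893_B00pm_011_s3 : ∃ t, chk3 f_B00pm_011_s3 t 469 124 18 = true := ex3_b t4892_B00pm_011_s3 k527_B00pm_011_s3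

theorem t4894_B00pm_011_s3 : ∃ t, chk3 f_B00pm_011_s3 t 468 497 18 = true := ex3_b k520_B00pm_011_s3 k521_B00pm_011_s3

theorem t4895_B00pm_011_s3 : ∃ t, chk3 f_B00pm_011_s3 t 468 248 18 = true := ex3_b k519_B00pm_011_s3 t4894_B00pm_011_s3

theorem t4896_B00pm_011_s3 : ∃ t, chk3 f_B00pm_011_s3 t 468 124 18 = true := ex3_b t4895_B00pm_011_s3 k522_B00pm_011_s3

theorem t4897_B00pm_011_s3 : ∃ t, chk3 f_B00pm_011_s3 t 234 124 18 = true := ex3_a t4896_B00pm_011_s3 t4893_B00pm_011_s3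

theorem t4898_B00pm_011_s3 : ∃ t, chk3 f_B00pm_011_s3 t 117 124 18 = true := ex3_a t4897_B00pm_011_s3 t4889_B00pm_011_s3

theorem t4899_B00pm_011_s3 : ∃ t, chk3 f_B00pm_011_s3 t 117 124 9 = true := ex3_c t4898_B00pm_011_s3 t4846_B00pm_011_s3

theorem t4900_B00pm_011_s3 : ∃ t, chk3 f_B00pm_011_s3 t 467 1987 9 = true := ex3_a k515_B00pm_011_s3 k516_B00pm_011_s3

theorem t4901_B00pm_011_s3 : ∃ t, chk3 f_B00pm_011_s3 t 467 993 9 = true := ex3_b k514_B00pm_011_s3 t4900_B00pm_011_s3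

theorem t4902_B00pm_011_s3 : ∃ t, chk3 f_B00pm_011_s3 t 233 993 9 = true := ex3_a k513_B00pm_011_s3 t4901_B00pm_011_s3

theorem t4903_B00pm_011_s3 : ∃ t, chk3 f_B00pm_011_s3 t 116 993 9 = true := ex3_a k512_B00pm_011_s3 t4902_B00pm_011_s3

theorem t4904_B00pm_011_s3 : ∃ t, chk3 f_B00pm_011_s3 t 466 992 9 = true := ex3_a k509_B00pm_011_s3 k510_B00pm_011_s3

theorem t4905_B00pm_011_s3 : ∃ t, chk3 f_B00pm_011_s3 t 233 992 9 = true := ex3_a t4904_B00pm_011_s3 k511_B00pm_011_s3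

theorem t4906_B00pm_011_s3 : ∃ t, chk3 f_B00pm_011_s3 t 465 992 9 = true := ex3_b k507_B00pm_011_s3 k508_B00pm_011_s3

theorem t4907_B00pm_011_s3 : ∃ t, chk3 f_B00pm_011_s3 t 232 992 9 = true := ex3_a k506_B00pm_011_s3 t4906_B00pm_011_s3

theorem t4908_B00pm_011_s3 : ∃ t, chk3 f_B00pm_011_s3 t 116 992 9 = true := ex3_a t4907_B00pm_011_s3 t4905_B00pm_011_s3

theorem t4909_B00pm_011_s3 : ∃ t, chk3 f_B00pm_011_s3 t 116 496 9 = true := ex3_b t4908_B00pm_011_s3 t4903_B00pm_011_s3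

theorem t4910_B00pm_011_s3 : ∃ t, chk3 f_B00pm_011_s3 t 116 248 9 = true := ex3_b t4909_B00pm_011_s3 k517_B00pm_011_s3

theorem t4911_B00pm_011_s3 : ∃ t, chk3 f_B00pm_011_s3 t 116 124 9 = true := ex3_b t4910_B00pm_011_s3 k518_B00pm_011_s3

theorem t4912_B00pm_011_s3 : ∃ t, chk3 f_B00pm_011_s3 t 58 124 9 = true := ex3_a t4911_B00pm_011_s3 t4899_B00pm_011_s3

theorem t4913_B00pm_011_s3 : ∃ t, chk3 f_B00pm_011_s3 t 235 999 35 = true := ex3_a k504_B00pm_011_s3 k505_B00pm_011_s3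

theorem t4914_B00pm_011_s3 : ∃ t, chk3 f_B00pm_011_s3 t 235 998 35 = true := ex3_c k502_B00pm_011_s3 k503_B00pm_011_s3

theorem t4915_B00pm_011_s3 : ∃ t, chk3 f_B00pm_011_s3 t 235 499 35 = true := ex3_b t4914_B00pm_011_s3 t4913_B00pm_011_s3

theorem t4916_B00pm_011_s3 : ∃ t, chk3 f_B00pm_011_s3 t 470 997 71 = true := ex3_a k499_B00pm_011_s3 k500_B00pm_011_s3

theorem t4917_B00pm_011_s3 : ∃ t, chk3 f_B00pm_011_s3 t 470 997 35 = true := ex3_c k498_B00pm_011_s3 t4916_B00pm_011_s3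

theorem t4918_B00pm_011_s3 : ∃ t, chk3 f_B00pm_011_s3 t 940 996 71 = true := ex3_b k495_B00pm_011_s3 k496_B00pm_011_s3

theorem t4919_B00pm_011_s3 : ∃ t, chk3 f_B00pm_011_s3 t 940 996 35 = true := ex3_c k494_B00pm_011_s3 t4918_B00pm_011_s3

theorem t4920_B00pm_011_s3 : ∃ t, chk3 f_B00pm_011_s3 t 470 996 35 = true := ex3_a t4919_B00pm_011_s3 k497_B00pm_011_s3

theorem t4921_B00pm_011_s3 : ∃ t, chk3 f_B00pm_011_s3 t 470 498 35 = true := ex3_b t4920_B00pm_011_s3 t4917_B00pm_011_s3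

theorem t4922_B00pm_011_s3 : ∃ t, chk3 f_B00pm_011_s3 t 235 498 35 = true := ex3_a t4921_B00pm_011_s3 k501_B00pm_011_s3

theorem t4923_B00pm_011_s3 : ∃ t, chk3 f_B00pm_011_s3 t 235 249 35 = true := ex3_b t4922_B00pm_011_s3 t4915_B00pm_011_s3

theorem t4924_B00pm_011_s3 : ∃ t, chk3 f_B00pm_011_s3 t 235 124 35 = true := ex3_b k493_B00pm_011_s3 t4923_B00pm_011_s3

theorem t4925_B00pm_011_s3 : ∃ t, chk3 f_B00pm_011_s3 t 235 499 34 = true := ex3_b k491_B00pm_011_s3 k492_B00pm_011_s3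

theorem t4926_B00pm_011_s3 : ∃ t, chk3 f_B00pm_011_s3 t 235 997 34 = true := ex3_b k489_B00pm_011_s3 k490_B00pm_011_s3

theorem t4927_B00pm_011_s3 : ∃ t, chk3 f_B00pm_011_s3 t 235 996 34 = true := ex3_a k487_B00pm_011_s3 k488_B00pm_011_s3

theorem t4928_B00pm_011_s3 : ∃ t, chk3 f_B00pm_011_s3 t 235 498 34 = true := ex3_b t4927_B00pm_011_s3 t4926_B00pm_011_s3

theorem t4929_B00pm_011_s3 : ∃ t, chk3 f_B00pm_011_s3 t 235 249 34 = true := ex3_b t4928_B00pm_011_s3 t4925_B00pm_011_s3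

theorem t4930_B00pm_011_s3 : ∃ t, chk3 f_B00pm_011_s3 t 235 124 34 = true := ex3_b k486_B00pm_011_s3 t4929_B00pm_011_s3

theorem t4931_B00pm_011_s3 : ∃ t, chk3 f_B00pm_011_s3 t 235 124 17 = true := ex3_c t4930_B00pm_011_s3 t4924_B00pm_011_s3

theorem t4932_B00pm_011_s3 : ∃ t, chk3 f_B00pm_011_s3 t 939 1992 71 = true := ex3_a k481_B00pm_011_s3 k482_B00pm_011_s3

theorem t4933_B00pm_011_s3 : ∃ t, chk3 f_B00pm_011_s3 t 939 996 71 = true := ex3_b t4932_B00pm_011_s3 k483_B00pm_011_s3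

theorem t4934_B00pm_011_s3 : ∃ t, chk3 f_B00pm_011_s3 t 939 498 71 = true := ex3_b t4933_B00pm_011_s3 k484_B00pm_011_s3

theorem t4935_B00pm_011_s3 : ∃ t, chk3 f_B00pm_011_s3 t 469 498 71 = true := ex3_a k480_B00pm_011_s3 t4934_B00pm_011_s3

theorem t4936_B00pm_011_s3 : ∃ t, chk3 f_B00pm_011_s3 t 469 996 70 = true := ex3_a k477_B00pm_011_s3 k478_B00pm_011_s3

theorem t4937_B00pm_011_s3 : ∃ t, chk3 f_B00pm_011_s3 t 469 498 70 = true := ex3_b t4936_B00pm_011_s3 k479_B00pm_011_s3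

theorem t4938_B00pm_011_s3 : ∃ t, chk3 f_B00pm_011_s3 t 469 498 35 = true := ex3_c t4937_B00pm_011_s3 t4935_B00pm_011_s3

theorem t4939_B00pm_011_s3 : ∃ t, chk3 f_B00pm_011_s3 t 234 498 35 = true := ex3_a k476_B00pm_011_s3 t4938_B00pm_011_s3

theorem t4940_B00pm_011_s3 : ∃ t, chk3 f_B00pm_011_s3 t 234 249 35 = true := ex3_b t4939_B00pm_011_s3 k485_B00pm_011_s3

theorem t4941_B00pm_011_s3 : ∃ t, chk3 f_B00pm_011_s3 t 939 1991 71 = true := ex3_a k474_B00pm_011_s3 k475_B00pm_011_s3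

theorem t4942_B00pm_011_s3 : ∃ t, chk3 f_B00pm_011_s3 t 939 995 71 = true := ex3_b k473_B00pm_011_s3 t4941_B00pm_011_s3

theorem t4943_B00pm_011_s3 : ∃ t, chk3 f_B00pm_011_s3 t 938 995 71 = true := ex3_c k471_B00pm_011_s3 k472_B00pm_011_s3

theorem t4944_B00pm_011_s3 : ∃ t, chk3 f_B00pm_011_s3 t 469 995 71 = true := ex3_a t4943_B00pm_011_s3 t4942_B00pm_011_s3

theorem t4945_B00pm_011_s3 : ∃ t, chk3 f_B00pm_011_s3 t 469 497 71 = true := ex3_b k470_B00pm_011_s3 t4944_B00pm_011_s3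

theorem t4946_B00pm_011_s3 : ∃ t, chk3 f_B00pm_011_s3 t 938 1991 70 = true := ex3_a k467_B00pm_011_s3 k468_B00pm_011_s3

theorem t4947_B00pm_011_s3 : ∃ t, chk3 f_B00pm_011_s3 t 938 995 70 = true := ex3_b k466_B00pm_011_s3 t4946_B00pm_011_s3

theorem t4948_B00pm_011_s3 : ∃ t, chk3 f_B00pm_011_s3 t 469 995 70 = true := ex3_a t4947_B00pm_011_s3 k469_B00pm_011_s3

theorem t4949_B00pm_011_s3 : ∃ t, chk3 f_B00pm_011_s3 t 469 497 70 = true := ex3_b k465_B00pm_011_s3 t4948_B00pm_011_s3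

theorem t4950_B00pm_011_s3 : ∃ t, chk3 f_B00pm_011_s3 t 469 497 35 = true := ex3_c t4949_B00pm_011_s3 t4945_B00pm_011_s3

theorem t4951_B00pm_011_s3 : ∃ t, chk3 f_B00pm_011_s3 t 1875 995 70 = true := ex3_b k462_B00pm_011_s3 k463_B00pm_011_s3

theorem t4952_B00pm_011_s3 : ∃ t, chk3 f_B00pm_011_s3 t 937 995 70 = true := ex3_a k461_B00pm_011_s3 t4951_B00pm_011_s3

theorem t4953_B00pm_011_s3 : ∃ t, chk3 f_B00pm_011_s3 t 468 995 70 = true := ex3_a k460_B00pm_011_s3 t4952_B00pm_011_s3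

theorem t4954_B00pm_011_s3 : ∃ t, chk3 f_B00pm_011_s3 t 468 995 35 = true := ex3_c t4953_B00pm_011_s3 k464_B00pm_011_s3

theorem t4955_B00pm_011_s3 : ∃ t, chk3 f_B00pm_011_s3 t 468 994 35 = true := ex3_c k458_B00pm_011_s3 k459_B00pm_011_s3

theorem t4956_B00pm_011_s3 : ∃ t, chk3 f_B00pm_011_s3 t 468 497 35 = true := ex3_b t4955_B00pm_011_s3 t4954_B00pm_011_s3

theorem t4957_B00pm_011_s3 : ∃ t, chk3 f_B00pm_011_s3 t 234 497 35 = true := ex3_a t4956_B00pm_011_s3 t4950_B00pm_011_s3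

theorem t4958_B00pm_011_s3 : ∃ t, chk3 f_B00pm_011_s3 t 234 248 35 = true := ex3_b k457_B00pm_011_s3 t4957_B00pm_011_s3

theorem t4959_B00pm_011_s3 : ∃ t, chk3 f_B00pm_011_s3 t 234 124 35 = true := ex3_b t4958_B00pm_011_s3 t4940_B00pm_011_s3

theorem t4960_B00pm_011_s3 : ∃ t, chk3 f_B00pm_011_s3 t 469 997 34 = true := ex3_c k454_B00pm_011_s3 k455_B00pm_011_s3

theorem t4961_B00pm_011_s3 : ∃ t, chk3 f_B00pm_011_s3 t 469 498 34 = true := ex3_b k453_B00pm_011_s3 t4960_B00pm_011_s3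

theorem t4962_B00pm_011_s3 : ∃ t, chk3 f_B00pm_011_s3 t 468 996 34 = true := ex3_c k450_B00pm_011_s3 k451_B00pm_011_s3

theorem t4963_B00pm_011_s3 : ∃ t, chk3 f_B00pm_011_s3 t 468 498 34 = true := ex3_b t4962_B00pm_011_s3 k452_B00pm_011_s3

theorem t4964_B00pm_011_s3 : ∃ t, chk3 f_B00pm_011_s3 t 234 498 34 = true := ex3_a t4963_B00pm_011_s3 t4961_B00pm_011_s3

theorem t4965_B00pm_011_s3 : ∃ t, chk3 f_B00pm_011_s3 t 234 249 34 = true := ex3_b t4964_B00pm_011_s3 k456_B00pm_011_s3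

theorem t4966_B00pm_011_s3 : ∃ t, chk3 f_B00pm_011_s3 t 937 995 69 = true := ex3_b k447_B00pm_011_s3 k448_B00pm_011_s3

theorem t4967_B00pm_011_s3 : ∃ t, chk3 f_B00pm_011_s3 t 937 995 34 = true := ex3_c k446_B00pm_011_s3 t4966_B00pm_011_s3

theorem t4968_B00pm_011_s3 : ∃ t, chk3 f_B00pm_011_s3 t 936 995 69 = true := ex3_b k444_B00pm_011_s3 k445_B00pm_011_s3

theorem t4969_B00pm_011_s3 : ∃ t, chk3 f_B00pm_011_s3 t 936 995 34 = true := ex3_c k443_B00pm_011_s3 t4968_B00pm_011_s3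

theorem t4970_B00pm_011_s3 : ∃ t, chk3 f_B00pm_011_s3 t 468 995 34 = true := ex3_a t4969_B00pm_011_s3 t4967_B00pm_011_s3

theorem t4971_B00pm_011_s3 : ∃ t, chk3 f_B00pm_011_s3 t 936 1989 69 = true := ex3_a k440_B00pm_011_s3 k441_B00pm_011_s3

theorem t4972_B00pm_011_s3 : ∃ t, chk3 f_B00pm_011_s3 t 936 994 69 = true := ex3_b k439_B00pm_011_s3 t4971_B00pm_011_s3

theorem t4973_B00pm_011_s3 : ∃ t, chk3 f_B00pm_011_s3 t 936 994 34 = true := ex3_c k438_B00pm_011_s3 t4972_B00pm_011_s3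

theorem t4974_B00pm_011_s3 : ∃ t, chk3 f_B00pm_011_s3 t 468 994 34 = true := ex3_a t4973_B00pm_011_s3 k442_B00pm_011_s3

theorem t4975_B00pm_011_s3 : ∃ t, chk3 f_B00pm_011_s3 t 468 497 34 = true := ex3_b t4974_B00pm_011_s3 t4970_B00pm_011_s3

theorem t4976_B00pm_011_s3 : ∃ t, chk3 f_B00pm_011_s3 t 234 497 34 = true := ex3_a t4975_B00pm_011_s3 k449_B00pm_011_s3

theorem t4977_B00pm_011_s3 : ∃ t, chk3 f_B00pm_011_s3 t 234 248 34 = true := ex3_b k437_B00pm_011_s3 t4976_B00pm_011_s3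

theorem t4978_B00pm_011_s3 : ∃ t, chk3 f_B00pm_011_s3 t 234 124 34 = true := ex3_b t4977_B00pm_011_s3 t4965_B00pm_011_s3

theorem t4979_B00pm_011_s3 : ∃ t, chk3 f_B00pm_011_s3 t 234 124 17 = true := ex3_c t4978_B00pm_011_s3 t4959_B00pm_011_s3

theorem t4980_B00pm_011_s3 : ∃ t, chk3 f_B00pm_011_s3 t 117 124 17 = true := ex3_a t4979_B00pm_011_s3 t4931_B00pm_011_s3

theorem t4981_B00pm_011_s3 : ∃ t, chk3 f_B00pm_011_s3 t 471 998 33 = true := ex3_a k434_B00pm_011_s3 k435_B00pm_011_s3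

theorem t4982_B00pm_011_s3 : ∃ t, chk3 f_B00pm_011_s3 t 471 499 33 = true := ex3_b t4981_B00pm_011_s3 k436_B00pm_011_s3

theorem t4983_B00pm_011_s3 : ∃ t, chk3 f_B00pm_011_s3 t 235 499 33 = true := ex3_a k433_B00pm_011_s3 t4982_B00pm_011_s3

theorem t4984_B00pm_011_s3 : ∃ t, chk3 f_B00pm_011_s3 t 1887 1994 134 = true := ex3_b k429_B00pm_011_s3 k430_B00pm_011_s3

theorem t4985_B00pm_011_s3 : ∃ t, chk3 f_B00pm_011_s3 t 1887 1994 67 = true := ex3_c t4984_B00pm_011_s3 k431_B00pm_011_s3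

theorem t4986_B00pm_011_s3 : ∃ t, chk3 f_B00pm_011_s3 t 943 1994 67 = true := ex3_a k428_B00pm_011_s3 t4985_B00pm_011_s3

theorem t4987_B00pm_011_s3 : ∃ t, chk3 f_B00pm_011_s3 t 471 1994 67 = true := ex3_a k427_B00pm_011_s3 t4986_B00pm_011_s3

theorem t4988_B00pm_011_s3 : ∃ t, chk3 f_B00pm_011_s3 t 471 997 67 = true := ex3_b t4987_B00pm_011_s3 k432_B00pm_011_s3

theorem t4989_B00pm_011_s3 : ∃ t, chk3 f_B00pm_011_s3 t 471 996 67 = true := ex3_a k425_B00pm_011_s3 k426_B00pm_011_s3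

theorem t4990_B00pm_011_s3 : ∃ t, chk3 f_B00pm_011_s3 t 471 498 67 = true := ex3_b t4989_B00pm_011_s3 t4988_B00pm_011_s3

theorem t4991_B00pm_011_s3 : ∃ t, chk3 f_B00pm_011_s3 t 943 1995 66 = true := ex3_a k423_B00pm_011_s3 k424_B00pm_011_s3

theorem t4992_B00pm_011_s3 : ∃ t, chk3 f_B00pm_011_s3 t 1886 1994 66 = true := ex3_b k420_B00pm_011_s3 k421_B00pm_011_s3

theorem t4993_B00pm_011_s3 : ∃ t, chk3 f_B00pm_011_s3 t 943 1994 66 = true := ex3_a t4992_B00pm_011_s3 k422_B00pm_011_s3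

theorem t4994_B00pm_011_s3 : ∃ t, chk3 f_B00pm_011_s3 t 943 997 66 = true := ex3_b t4993_B00pm_011_s3 t4991_B00pm_011_s3

theorem t4995_B00pm_011_s3 : ∃ t, chk3 f_B00pm_011_s3 t 943 498 66 = true := ex3_b k419_B00pm_011_s3 t4994_B00pm_011_s3

theorem t4996_B00pm_011_s3 : ∃ t, chk3 f_B00pm_011_s3 t 942 1994 66 = true := ex3_a k416_B00pm_011_s3 k417_B00pm_011_s3

theorem t4997_B00pm_011_s3 : ∃ t, chk3 f_B00pm_011_s3 t 942 997 66 = true := ex3_b t4996_B00pm_011_s3 k418_B00pm_011_s3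

theorem t4998_B00pm_011_s3 : ∃ t, chk3 f_B00pm_011_s3 t 942 996 132 = true := ex3_a k413_B00pm_011_s3 k414_B00pm_011_s3

theorem t4999_B00pm_011_s3 : ∃ t, chk3 f_B00pm_011_s3 t 942 996 66 = true := ex3_c t4998_B00pm_011_s3 k415_B00pm_011_s3

theorem t5000_B00pm_011_s3 : ∃ t, chk3 f_B00pm_011_s3 t 942 498 66 = true := ex3_b t4999_B00pm_011_s3 t4997_B00pm_011_s3

theorem t5001_B00pm_011_s3 : ∃ t, chk3 f_B00pm_011_s3 t 471 498 66 = true := ex3_a t5000_B00pm_011_s3 t4995_B00pm_011_s3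

theorem t5002_B00pm_011_s3 : ∃ t, chk3 f_B00pm_011_s3 t 471 498 33 = true := ex3_c t5001_B00pm_011_s3 t4990_B00pm_011_s3

theorem t5003_B00pm_011_s3 : ∃ t, chk3 f_B00pm_011_s3 t 470 996 66 = true := ex3_b k409_B00pm_011_s3 k410_B00pm_011_s3

theorem t5004_B00pm_011_s3 : ∃ t, chk3 f_B00pm_011_s3 t 470 996 33 = true := ex3_c t5003_B00pm_011_s3 k411_B00pm_011_s3

theorem t5005_B00pm_011_s3 : ∃ t, chk3 f_B00pm_011_s3 t 470 498 33 = true := ex3_b t5004_B00pm_011_s3 k412_B00pm_011_s3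

theorem t5006_B00pm_011_s3 : ∃ t, chk3 f_B00pm_011_s3 t 235 498 33 = true := ex3_a t5005_B00pm_011_s3 t5002_B00pm_011_s3

theorem t5007_B00pm_011_s3 : ∃ t, chk3 f_B00pm_011_s3 t 235 249 33 = true := ex3_b t5006_B00pm_011_s3 t4983_B00pm_011_s3

theorem t5008_B00pm_011_s3 : ∃ t, chk3 f_B00pm_011_s3 t 235 124 33 = true := ex3_b k408_B00pm_011_s3 t5007_B00pm_011_s3

theorem t5009_B00pm_011_s3 : ∃ t, chk3 f_B00pm_011_s3 t 943 998 32 = true := ex3_b k405_B00pm_011_s3 k406_B00pm_011_s3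

theorem t5010_B00pm_011_s3 : ∃ t, chk3 f_B00pm_011_s3 t 471 998 32 = true := ex3_a k404_B00pm_011_s3 t5009_B00pm_011_s3

theorem t5011_B00pm_011_s3 : ∃ t, chk3 f_B00pm_011_s3 t 471 499 32 = true := ex3_b t5010_B00pm_011_s3 k407_B00pm_011_s3

theorem t5012_B00pm_011_s3 : ∃ t, chk3 f_B00pm_011_s3 t 235 499 32 = true := ex3_a k403_B00pm_011_s3 t5011_B00pm_011_s3

theorem t5013_B00pm_011_s3 : ∃ t, chk3 f_B00pm_011_s3 t 942 997 65 = true := ex3_b k400_B00pm_011_s3 k401_B00pm_011_s3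

theorem t5014_B00pm_011_s3 : ∃ t, chk3 f_B00pm_011_s3 t 942 997 32 = true := ex3_c k399_B00pm_011_s3 t5013_B00pm_011_s3

theorem t5015_B00pm_011_s3 : ∃ t, chk3 f_B00pm_011_s3 t 471 997 32 = true := ex3_a t5014_B00pm_011_s3 k402_B00pm_011_s3

theorem t5016_B00pm_011_s3 : ∃ t, chk3 f_B00pm_011_s3 t 471 498 32 = true := ex3_b k398_B00pm_011_s3 t5015_B00pm_011_s3

theorem t5017_B00pm_011_s3 : ∃ t, chk3 f_B00pm_011_s3 t 941 997 64 = true := ex3_b k395_B00pm_011_s3 k396_B00pm_011_s3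

theorem t5018_B00pm_011_s3 : ∃ t, chk3 f_B00pm_011_s3 t 941 997 32 = true := ex3_c t5017_B00pm_011_s3 k397_B00pm_011_s3

theorem t5019_B00pm_011_s3 : ∃ t, chk3 f_B00pm_011_s3 t 470 997 32 = true := ex3_a k394_B00pm_011_s3 t5018_B00pm_011_s3

theorem t5020_B00pm_011_s3 : ∃ t, chk3 f_B00pm_011_s3 t 1883 1993 65 = true := ex3_c k392_B00pm_011_s3 k393_B00pm_011_s3

theorem t5021_B00pm_011_s3 : ∃ t, chk3 f_B00pm_011_s3 t 941 1993 65 = true := ex3_a k391_B00pm_011_s3 t5020_B00pm_011_s3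

theorem t5022_B00pm_011_s3 : ∃ t, chk3 f_B00pm_011_s3 t 941 1992 65 = true := ex3_a k389_B00pm_011_s3 k390_B00pm_011_s3

theorem t5023_B00pm_011_s3 : ∃ t, chk3 f_B00pm_011_s3 t 941 996 65 = true := ex3_b t5022_B00pm_011_s3 t5021_B00pm_011_s3

theorem t5024_B00pm_011_s3 : ∃ t, chk3 f_B00pm_011_s3 t 941 996 32 = true := ex3_c k388_B00pm_011_s3 t5023_B00pm_011_s3

theorem t5025_B00pm_011_s3 : ∃ t, chk3 f_B00pm_011_s3 t 940 1992 65 = true := ex3_a k385_B00pm_011_s3 k386_B00pm_011_s3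

theorem t5026_B00pm_011_s3 : ∃ t, chk3 f_B00pm_011_s3 t 940 996 65 = true := ex3_b t5025_B00pm_011_s3 k387_B00pm_011_s3

theorem t5027_B00pm_011_s3 : ∃ t, chk3 f_B00pm_011_s3 t 1880 1992 64 = true := ex3_c k381_B00pm_011_s3 k382_B00pm_011_s3

theorem t5028_B00pm_011_s3 : ∃ t, chk3 f_B00pm_011_s3 t 940 1992 64 = true := ex3_a t5027_B00pm_011_s3 k383_B00pm_011_s3

theorem t5029_B00pm_011_s3 : ∃ t, chk3 f_B00pm_011_s3 t 940 996 64 = true := ex3_b t5028_B00pm_011_s3 k384_B00pm_011_s3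

theorem t5030_B00pm_011_s3 : ∃ t, chk3 f_B00pm_011_s3 t 940 996 32 = true := ex3_c t5029_B00pm_011_s3 t5026_B00pm_011_s3

theorem t5031_B00pm_011_s3 : ∃ t, chk3 f_B00pm_011_s3 t 470 996 32 = true := ex3_a t5030_B00pm_011_s3 t5024_B00pm_011_s3

theorem t5032_B00pm_011_s3 : ∃ t, chk3 f_B00pm_011_s3 t 470 498 32 = true := ex3_b t5031_B00pm_011_s3 t5019_B00pm_011_s3

theorem t5033_B00pm_011_s3 : ∃ t, chk3 f_B00pm_011_s3 t 235 498 32 = true := ex3_a t5032_B00pm_011_s3 t5016_B00pm_011_s3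

theorem t5034_B00pm_011_s3 : ∃ t, chk3 f_B00pm_011_s3 t 235 249 32 = true := ex3_b t5033_B00pm_011_s3 t5012_B00pm_011_s3

theorem t5035_B00pm_011_s3 : ∃ t, chk3 f_B00pm_011_s3 t 235 124 32 = true := ex3_b k380_B00pm_011_s3 t5034_B00pm_011_s3

theorem t5036_B00pm_011_s3 : ∃ t, chk3 f_B00pm_011_s3 t 235 124 16 = true := ex3_c t5035_B00pm_011_s3 t5008_B00pm_011_s3

theorem t5037_B00pm_011_s3 : ∃ t, chk3 f_B00pm_011_s3 t 469 249 33 = true := ex3_b k378_B00pm_011_s3 k379_B00pm_011_s3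

theorem t5038_B00pm_011_s3 : ∃ t, chk3 f_B00pm_011_s3 t 469 124 33 = true := ex3_b k377_B00pm_011_s3 t5037_B00pm_011_s3

theorem t5039_B00pm_011_s3 : ∃ t, chk3 f_B00pm_011_s3 t 468 249 67 = true := ex3_b k375_B00pm_011_s3 k376_B00pm_011_s3

theorem t5040_B00pm_011_s3 : ∃ t, chk3 f_B00pm_011_s3 t 468 124 67 = true := ex3_b k374_B00pm_011_s3 t5039_B00pm_011_s3

theorem t5041_B00pm_011_s3 : ∃ t, chk3 f_B00pm_011_s3 t 468 124 66 = true := ex3_a k372_B00pm_011_s3 k373_B00pm_011_s3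

theorem t5042_B00pm_011_s3 : ∃ t, chk3 f_B00pm_011_s3 t 468 124 33 = true := ex3_c t5041_B00pm_011_s3 t5040_B00pm_011_s3

theorem t5043_B00pm_011_s3 : ∃ t, chk3 f_B00pm_011_s3 t 234 124 33 = true := ex3_a t5042_B00pm_011_s3 t5038_B00pm_011_s3

theorem t5044_B00pm_011_s3 : ∃ t, chk3 f_B00pm_011_s3 t 469 1992 32 = true := ex3_a k367_B00pm_011_s3 k368_B00pm_011_s3

theorem t5045_B00pm_011_s3 : ∃ t, chk3 f_B00pm_011_s3 t 469 996 32 = true := ex3_b t5044_B00pm_011_s3 k369_B00pm_011_s3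

theorem t5046_B00pm_011_s3 : ∃ t, chk3 f_B00pm_011_s3 t 469 498 32 = true := ex3_b t5045_B00pm_011_s3 k370_B00pm_011_s3

theorem t5047_B00pm_011_s3 : ∃ t, chk3 f_B00pm_011_s3 t 469 249 32 = true := ex3_b t5046_B00pm_011_s3 k371_B00pm_011_s3

theorem t5048_B00pm_011_s3 : ∃ t, chk3 f_B00pm_011_s3 t 939 1991 64 = true := ex3_c k364_B00pm_011_s3 k365_B00pm_011_s3

theorem t5049_B00pm_011_s3 : ∃ t, chk3 f_B00pm_011_s3 t 939 995 64 = true := ex3_b k363_B00pm_011_s3 t5048_B00pm_011_s3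

theorem t5050_B00pm_011_s3 : ∃ t, chk3 f_B00pm_011_s3 t 469 995 64 = true := ex3_a k362_B00pm_011_s3 t5049_B00pm_011_s3

theorem t5051_B00pm_011_s3 : ∃ t, chk3 f_B00pm_011_s3 t 469 497 64 = true := ex3_b k361_B00pm_011_s3 t5050_B00pm_011_s3

theorem t5052_B00pm_011_s3 : ∃ t, chk3 f_B00pm_011_s3 t 469 497 32 = true := ex3_c t5051_B00pm_011_s3 k366_B00pm_011_s3

theorem t5053_B00pm_011_s3 : ∃ t, chk3 f_B00pm_011_s3 t 469 248 32 = true := ex3_b k360_B00pm_011_s3 t5052_B00pm_011_s3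

theorem t5054_B00pm_011_s3 : ∃ t, chk3 f_B00pm_011_s3 t 469 124 32 = true := ex3_b t5053_B00pm_011_s3 t5047_B00pm_011_s3

theorem t5055_B00pm_011_s3 : ∃ t, chk3 f_B00pm_011_s3 t 468 124 32 = true := ex3_c k358_B00pm_011_s3 k359_B00pm_011_s3

theorem t5056_B00pm_011_s3 : ∃ t, chk3 f_B00pm_011_s3 t 234 124 32 = true := ex3_a t5055_B00pm_011_s3 t5054_B00pm_011_s3

theorem t5057_B00pm_011_s3 : ∃ t, chk3 f_B00pm_011_s3 t 234 124 16 = true := ex3_c t5056_B00pm_011_s3 t5043_B00pm_011_s3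

theorem t5058_B00pm_011_s3 : ∃ t, chk3 f_B00pm_011_s3 t 117 124 16 = true := ex3_a t5057_B00pm_011_s3 t5036_B00pm_011_s3

theorem t5059_B00pm_011_s3 : ∃ t, chk3 f_B00pm_011_s3 t 117 124 8 = true := ex3_c t5058_B00pm_011_s3 t4980_B00pm_011_s3

theorem t5060_B00pm_011_s3 : ∃ t, chk3 f_B00pm_011_s3 t 116 249 17 = true := ex3_a k356_B00pm_011_s3 k357_B00pm_011_s3

theorem t5061_B00pm_011_s3 : ∃ t, chk3 f_B00pm_011_s3 t 467 498 33 = true := ex3_b k353_B00pm_011_s3 k354_B00pm_011_s3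

theorem t5062_B00pm_011_s3 : ∃ t, chk3 f_B00pm_011_s3 t 233 498 33 = true := ex3_a k352_B00pm_011_s3 t5061_B00pm_011_s3

theorem t5063_B00pm_011_s3 : ∃ t, chk3 f_B00pm_011_s3 t 233 498 32 = true := ex3_b k350_B00pm_011_s3 k351_B00pm_011_s3

theorem t5064_B00pm_011_s3 : ∃ t, chk3 f_B00pm_011_s3 t 233 498 16 = true := ex3_c t5063_B00pm_011_s3 t5062_B00pm_011_s3

theorem t5065_B00pm_011_s3 : ∃ t, chk3 f_B00pm_011_s3 t 233 249 16 = true := ex3_b t5064_B00pm_011_s3 k355_B00pm_011_s3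

theorem t5066_B00pm_011_s3 : ∃ t, chk3 f_B00pm_011_s3 t 116 249 16 = true := ex3_a k349_B00pm_011_s3 t5065_B00pm_011_s3

theorem t5067_B00pm_011_s3 : ∃ t, chk3 f_B00pm_011_s3 t 116 249 8 = true := ex3_c t5066_B00pm_011_s3 t5060_B00pm_011_s3

theorem t5068_B00pm_011_s3 : ∃ t, chk3 f_B00pm_011_s3 t 467 248 35 = true := ex3_b k347_B00pm_011_s3 k348_B00pm_011_s3

theorem t5069_B00pm_011_s3 : ∃ t, chk3 f_B00pm_011_s3 t 233 248 35 = true := ex3_a k346_B00pm_011_s3 t5068_B00pm_011_s3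

theorem t5070_B00pm_011_s3 : ∃ t, chk3 f_B00pm_011_s3 t 935 994 69 = true := ex3_c k343_B00pm_011_s3 k344_B00pm_011_s3

theorem t5071_B00pm_011_s3 : ∃ t, chk3 f_B00pm_011_s3 t 935 497 69 = true := ex3_b t5070_B00pm_011_s3 k345_B00pm_011_s3

theorem t5072_B00pm_011_s3 : ∃ t, chk3 f_B00pm_011_s3 t 467 497 69 = true := ex3_a k342_B00pm_011_s3 t5071_B00pm_011_s3

theorem t5073_B00pm_011_s3 : ∃ t, chk3 f_B00pm_011_s3 t 935 994 68 = true := ex3_b k339_B00pm_011_s3 k340_B00pm_011_s3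

theorem t5074_B00pm_011_s3 : ∃ t, chk3 f_B00pm_011_s3 t 935 497 68 = true := ex3_b t5073_B00pm_011_s3 k341_B00pm_011_s3

theorem t5075_B00pm_011_s3 : ∃ t, chk3 f_B00pm_011_s3 t 934 994 136 = true := ex3_b k335_B00pm_011_s3 k336_B00pm_011_s3

theorem t5076_B00pm_011_s3 : ∃ t, chk3 f_B00pm_011_s3 t 934 994 68 = true := ex3_c t5075_B00pm_011_s3 k337_B00pm_011_s3

theorem t5077_B00pm_011_s3 : ∃ t, chk3 f_B00pm_011_s3 t 934 497 68 = true := ex3_b t5076_B00pm_011_s3 k338_B00pm_011_s3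

theorem t5078_B00pm_011_s3 : ∃ t, chk3 f_B00pm_011_s3 t 467 497 68 = true := ex3_a t5077_B00pm_011_s3 t5074_B00pm_011_s3

theorem t5079_B00pm_011_s3 : ∃ t, chk3 f_B00pm_011_s3 t 467 497 34 = true := ex3_c t5078_B00pm_011_s3 t5072_B00pm_011_s3

theorem t5080_B00pm_011_s3 : ∃ t, chk3 f_B00pm_011_s3 t 467 248 34 = true := ex3_b k334_B00pm_011_s3 t5079_B00pm_011_s3

theorem t5081_B00pm_011_s3 : ∃ t, chk3 f_B00pm_011_s3 t 466 496 34 = true := ex3_c k331_B00pm_011_s3 k332_B00pm_011_s3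

theorem t5082_B00pm_011_s3 : ∃ t, chk3 f_B00pm_011_s3 t 466 248 34 = true := ex3_b t5081_B00pm_011_s3 k333_B00pm_011_s3

theorem t5083_B00pm_011_s3 : ∃ t, chk3 f_B00pm_011_s3 t 233 248 34 = true := ex3_a t5082_B00pm_011_s3 t5080_B00pm_011_s3

theorem t5084_B00pm_011_s3 : ∃ t, chk3 f_B00pm_011_s3 t 233 248 17 = true := ex3_c t5083_B00pm_011_s3 t5069_B00pm_011_s3

theorem t5085_B00pm_011_s3 : ∃ t, chk3 f_B00pm_011_s3 t 232 496 17 = true := ex3_b k328_B00pm_011_s3 k329_B00pm_011_s3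

theorem t5086_B00pm_011_s3 : ∃ t, chk3 f_B00pm_011_s3 t 232 248 17 = true := ex3_b t5085_B00pm_011_s3 k330_B00pm_011_s3

theorem t5087_B00pm_011_s3 : ∃ t, chk3 f_B00pm_011_s3 t 116 248 17 = true := ex3_a t5086_B00pm_011_s3 t5084_B00pm_011_s3

theorem t5088_B00pm_011_s3 : ∃ t, chk3 f_B00pm_011_s3 t 467 995 33 = true := ex3_c k326_B00pm_011_s3 k327_B00pm_011_s3

theorem t5089_B00pm_011_s3 : ∃ t, chk3 f_B00pm_011_s3 t 467 994 33 = true := ex3_a k324_B00pm_011_s3 k325_B00pm_011_s3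

theorem t5090_B00pm_011_s3 : ∃ t, chk3 f_B00pm_011_s3 t 467 497 33 = true := ex3_b t5089_B00pm_011_s3 t5088_B00pm_011_s3

theorem t5091_B00pm_011_s3 : ∃ t, chk3 f_B00pm_011_s3 t 467 248 33 = true := ex3_b k323_B00pm_011_s3 t5090_B00pm_011_s3

theorem t5092_B00pm_011_s3 : ∃ t, chk3 f_B00pm_011_s3 t 933 994 33 = true := ex3_c k320_B00pm_011_s3 k321_B00pm_011_s3

theorem t5093_B00pm_011_s3 : ∃ t, chk3 f_B00pm_011_s3 t 466 994 33 = true := ex3_a k319_B00pm_011_s3 t5092_B00pm_011_s3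

theorem t5094_B00pm_011_s3 : ∃ t, chk3 f_B00pm_011_s3 t 466 497 33 = true := ex3_b t5093_B00pm_011_s3 k322_B00pm_011_s3

theorem t5095_B00pm_011_s3 : ∃ t, chk3 f_B00pm_011_s3 t 933 1987 67 = true := ex3_a k317_B00pm_011_s3 k318_B00pm_011_s3

theorem t5096_B00pm_011_s3 : ∃ t, chk3 f_B00pm_011_s3 t 933 993 67 = true := ex3_b k316_B00pm_011_s3 t5095_B00pm_011_s3

theorem t5097_B00pm_011_s3 : ∃ t, chk3 f_B00pm_011_s3 t 933 496 67 = true := ex3_b k315_B00pm_011_s3 t5096_B00pm_011_s3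

theorem t5098_B00pm_011_s3 : ∃ t, chk3 f_B00pm_011_s3 t 932 993 67 = true := ex3_c k313_B00pm_011_s3 k314_B00pm_011_s3

theorem t5099_B00pm_011_s3 : ∃ t, chk3 f_B00pm_011_s3 t 932 496 67 = true := ex3_b k312_B00pm_011_s3 t5098_B00pm_011_s3

theorem t5100_B00pm_011_s3 : ∃ t, chk3 f_B00pm_011_s3 t 466 496 67 = true := ex3_a t5099_B00pm_011_s3 t5097_B00pm_011_s3

theorem t5101_B00pm_011_s3 : ∃ t, chk3 f_B00pm_011_s3 t 932 993 66 = true := ex3_b k309_B00pm_011_s3 k310_B00pm_011_s3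

theorem t5102_B00pm_011_s3 : ∃ t, chk3 f_B00pm_011_s3 t 932 496 66 = true := ex3_b k308_B00pm_011_s3 t5101_B00pm_011_s3

theorem t5103_B00pm_011_s3 : ∃ t, chk3 f_B00pm_011_s3 t 466 496 66 = true := ex3_a t5102_B00pm_011_s3 k311_B00pm_011_s3

theorem t5104_B00pm_011_s3 : ∃ t, chk3 f_B00pm_011_s3 t 466 496 33 = true := ex3_c t5103_B00pm_011_s3 t5100_B00pm_011_s3

theorem t5105_B00pm_011_s3 : ∃ t, chk3 f_B00pm_011_s3 t 466 248 33 = true := ex3_b t5104_B00pm_011_s3 t5094_B00pm_011_s3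

theorem t5106_B00pm_011_s3 : ∃ t, chk3 f_B00pm_011_s3 t 233 248 33 = true := ex3_a t5105_B00pm_011_s3 t5091_B00pm_011_s3

theorem t5107_B00pm_011_s3 : ∃ t, chk3 f_B00pm_011_s3 t 466 497 32 = true := ex3_b k305_B00pm_011_s3 k306_B00pm_011_s3

theorem t5108_B00pm_011_s3 : ∃ t, chk3 f_B00pm_011_s3 t 466 248 32 = true := ex3_b k304_B00pm_011_s3 t5107_B00pm_011_s3

theorem t5109_B00pm_011_s3 : ∃ t, chk3 f_B00pm_011_s3 t 233 248 32 = true := ex3_a t5108_B00pm_011_s3 k307_B00pm_011_s3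

theorem t5110_B00pm_011_s3 : ∃ t, chk3 f_B00pm_011_s3 t 233 248 16 = true := ex3_c t5109_B00pm_011_s3 t5106_B00pm_011_s3

theorem t5111_B00pm_011_s3 : ∃ t, chk3 f_B00pm_011_s3 t 465 994 32 = true := ex3_c k300_B00pm_011_s3 k301_B00pm_011_s3

theorem t5112_B00pm_011_s3 : ∃ t, chk3 f_B00pm_011_s3 t 465 497 32 = true := ex3_b t5111_B00pm_011_s3 k302_B00pm_011_s3

theorem t5113_B00pm_011_s3 : ∃ t, chk3 f_B00pm_011_s3 t 232 497 32 = true := ex3_a k299_B00pm_011_s3 t5112_B00pm_011_s3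

theorem t5114_B00pm_011_s3 : ∃ t, chk3 f_B00pm_011_s3 t 232 497 16 = true := ex3_c t5113_B00pm_011_s3 k303_B00pm_011_s3

theorem t5115_B00pm_011_s3 : ∃ t, chk3 f_B00pm_011_s3 t 931 993 132 = true := ex3_b k295_B00pm_011_s3 k296_B00pm_011_s3

theorem t5116_B00pm_011_s3 : ∃ t, chk3 f_B00pm_011_s3 t 931 993 66 = true := ex3_c t5115_B00pm_011_s3 k297_B00pm_011_s3

theorem t5117_B00pm_011_s3 : ∃ t, chk3 f_B00pm_011_s3 t 465 993 66 = true := ex3_a k294_B00pm_011_s3 t5116_B00pm_011_s3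

theorem t5118_B00pm_011_s3 : ∃ t, chk3 f_B00pm_011_s3 t 465 993 33 = true := ex3_c t5117_B00pm_011_s3 k298_B00pm_011_s3

theorem t5119_B00pm_011_s3 : ∃ t, chk3 f_B00pm_011_s3 t 465 992 33 = true := ex3_c k292_B00pm_011_s3 k293_B00pm_011_s3

theorem t5120_B00pm_011_s3 : ∃ t, chk3 f_B00pm_011_s3 t 465 496 33 = true := ex3_b t5119_B00pm_011_s3 t5118_B00pm_011_s3

theorem t5121_B00pm_011_s3 : ∃ t, chk3 f_B00pm_011_s3 t 232 496 33 = true := ex3_a k291_B00pm_011_s3 t5120_B00pm_011_s3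

theorem t5122_B00pm_011_s3 : ∃ t, chk3 f_B00pm_011_s3 t 465 993 65 = true := ex3_a k289_B00pm_011_s3 k290_B00pm_011_s3

theorem t5123_B00pm_011_s3 : ∃ t, chk3 f_B00pm_011_s3 t 465 993 32 = true := ex3_c k288_B00pm_011_s3 t5122_B00pm_011_s3

theorem t5124_B00pm_011_s3 : ∃ t, chk3 f_B00pm_011_s3 t 930 1985 65 = true := ex3_c k285_B00pm_011_s3 k286_B00pm_011_s3

theorem t5125_B00pm_011_s3 : ∃ t, chk3 f_B00pm_011_s3 t 930 992 65 = true := ex3_b k284_B00pm_011_s3 t5124_B00pm_011_s3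

theorem t5126_B00pm_011_s3 : ∃ t, chk3 f_B00pm_011_s3 t 930 992 32 = true := ex3_c k283_B00pm_011_s3 t5125_B00pm_011_s3

theorem t5127_B00pm_011_s3 : ∃ t, chk3 f_B00pm_011_s3 t 465 992 32 = true := ex3_a t5126_B00pm_011_s3 k287_B00pm_011_s3

theorem t5128_B00pm_011_s3 : ∃ t, chk3 f_B00pm_011_s3 t 465 496 32 = true := ex3_b t5127_B00pm_011_s3 t5123_B00pm_011_s3

theorem t5129_B00pm_011_s3 : ∃ t, chk3 f_B00pm_011_s3 t 929 992 65 = true := ex3_c k280_B00pm_011_s3 k281_B00pm_011_s3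

theorem t5130_B00pm_011_s3 : ∃ t, chk3 f_B00pm_011_s3 t 929 496 65 = true := ex3_b t5129_B00pm_011_s3 k282_B00pm_011_s3

theorem t5131_B00pm_011_s3 : ∃ t, chk3 f_B00pm_011_s3 t 464 496 65 = true := ex3_a k279_B00pm_011_s3 t5130_B00pm_011_s3

theorem t5132_B00pm_011_s3 : ∃ t, chk3 f_B00pm_011_s3 t 929 992 64 = true := ex3_b k276_B00pm_011_s3 k277_B00pm_011_s3

theorem t5133_B00pm_011_s3 : ∃ t, chk3 f_B00pm_011_s3 t 928 1984 64 = true := ex3_a k273_B00pm_011_s3 k274_B00pm_011_s3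

theorem t5134_B00pm_011_s3 : ∃ t, chk3 f_B00pm_011_s3 t 928 992 64 = true := ex3_b t5133_B00pm_011_s3 k275_B00pm_011_s3

theorem t5135_B00pm_011_s3 : ∃ t, chk3 f_B00pm_011_s3 t 464 992 64 = true := ex3_a t5134_B00pm_011_s3 t5132_B00pm_011_s3

theorem t5136_B00pm_011_s3 : ∃ t, chk3 f_B00pm_011_s3 t 464 496 64 = true := ex3_b t5135_B00pm_011_s3 k278_B00pm_011_s3

theorem t5137_B00pm_011_s3 : ∃ t, chk3 f_B00pm_011_s3 t 464 496 32 = true := ex3_c t5136_B00pm_011_s3 t5131_B00pm_011_s3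

theorem t5138_B00pm_011_s3 : ∃ t, chk3 f_B00pm_011_s3 t 232 496 32 = true := ex3_a t5137_B00pm_011_s3 t5128_B00pm_011_s3

theorem t5139_B00pm_011_s3 : ∃ t, chk3 f_B00pm_011_s3 t 232 496 16 = true := ex3_c t5138_B00pm_011_s3 t5121_B00pm_011_s3

theorem t5140_B00pm_011_s3 : ∃ t, chk3 f_B00pm_011_s3 t 232 248 16 = true := ex3_b t5139_B00pm_011_s3 t5114_B00pm_011_s3

theorem t5141_B00pm_011_s3 : ∃ t, chk3 f_B00pm_011_s3 t 116 248 16 = true := ex3_a t5140_B00pm_011_s3 t5110_B00pm_011_s3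

theorem t5142_B00pm_011_s3 : ∃ t, chk3 f_B00pm_011_s3 t 116 248 8 = true := ex3_c t5141_B00pm_011_s3 t5087_B00pm_011_s3

theorem t5143_B00pm_011_s3 : ∃ t, chk3 f_B00pm_011_s3 t 116 124 8 = true := ex3_b t5142_B00pm_011_s3 t5067_B00pm_011_s3

theorem t5144_B00pm_011_s3 : ∃ t, chk3 f_B00pm_011_s3 t 58 124 8 = true := ex3_a t5143_B00pm_011_s3 t5059_B00pm_011_s3

theorem t5145_B00pm_011_s3 : ∃ t, chk3 f_B00pm_011_s3 t 58 124 4 = true := ex3_c t5144_B00pm_011_s3 t4912_B00pm_011_s3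

theorem t5146_B00pm_011_s3 : ∃ t, chk3 f_B00pm_011_s3 t 58 62 4 = true := ex3_b t5145_B00pm_011_s3 t4840_B00pm_011_s3

theorem t5147_B00pm_011_s3 : ∃ t, chk3 f_B00pm_011_s3 t 29 62 4 = true := ex3_a t5146_B00pm_011_s3 t4820_B00pm_011_s3

theorem t5148_B00pm_011_s3 : ∃ t, chk3 f_B00pm_011_s3 t 29 62 2 = true := ex3_c t5147_B00pm_011_s3 t3686_B00pm_011_s3

theorem t5149_B00pm_011_s3 : ∃ t, chk3 f_B00pm_011_s3 t 29 31 2 = true := ex3_b t5148_B00pm_011_s3 t3027_B00pm_011_s3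

theorem t5150_B00pm_011_s3 : ∃ t, chk3 f_B00pm_011_s3 t 29 31 1 = true := ex3_c t5149_B00pm_011_s3 t2974_B00pm_011_s3

theorem t5151_B00pm_011_s3 : ∃ t, chk3 f_B00pm_011_s3 t 464 247 10 = true := ex3_c k265_B00pm_011_s3 k266_B00pm_011_s3

theorem t5152_B00pm_011_s3 : ∃ t, chk3 f_B00pm_011_s3 t 232 247 10 = true := ex3_a t5151_B00pm_011_s3 k267_B00pm_011_s3

theorem t5153_B00pm_011_s3 : ∃ t, chk3 f_B00pm_011_s3 t 232 247 5 = true := ex3_c t5152_B00pm_011_s3 k268_B00pm_011_s3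

theorem t5154_B00pm_011_s3 : ∃ t, chk3 f_B00pm_011_s3 t 116 247 5 = true := ex3_a t5153_B00pm_011_s3 k269_B00pm_011_s3

theorem t5155_B00pm_011_s3 : ∃ t, chk3 f_B00pm_011_s3 t 58 247 5 = true := ex3_a t5154_B00pm_011_s3 k270_B00pm_011_s3

theorem t5156_B00pm_011_s3 : ∃ t, chk3 f_B00pm_011_s3 t 58 123 5 = true := ex3_b k264_B00pm_011_s3 t5155_B00pm_011_s3

theorem t5157_B00pm_011_s3 : ∃ t, chk3 f_B00pm_011_s3 t 58 61 5 = true := ex3_b k263_B00pm_011_s3 t5156_B00pm_011_s3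

theorem t5158_B00pm_011_s3 : ∃ t, chk3 f_B00pm_011_s3 t 58 30 5 = true := ex3_b k262_B00pm_011_s3 t5157_B00pm_011_s3

theorem t5159_B00pm_011_s3 : ∃ t, chk3 f_B00pm_011_s3 t 29 30 5 = true := ex3_a t5158_B00pm_011_s3 k271_B00pm_011_s3

theorem t5160_B00pm_011_s3 : ∃ t, chk3 f_B00pm_011_s3 t 232 247 9 = true := ex3_a k257_B00pm_011_s3 k258_B00pm_011_s3

theorem t5161_B00pm_011_s3 : ∃ t, chk3 f_B00pm_011_s3 t 116 247 9 = true := ex3_a t5160_B00pm_011_s3 k259_B00pm_011_s3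

theorem t5162_B00pm_011_s3 : ∃ t, chk3 f_B00pm_011_s3 t 116 123 9 = true := ex3_b k256_B00pm_011_s3 t5161_B00pm_011_s3

theorem t5163_B00pm_011_s3 : ∃ t, chk3 f_B00pm_011_s3 t 58 123 9 = true := ex3_a t5162_B00pm_011_s3 k260_B00pm_011_s3

theorem t5164_B00pm_011_s3 : ∃ t, chk3 f_B00pm_011_s3 t 58 61 9 = true := ex3_b k255_B00pm_011_s3 t5163_B00pm_011_s3

theorem t5165_B00pm_011_s3 : ∃ t, chk3 f_B00pm_011_s3 t 232 495 16 = true := ex3_a k250_B00pm_011_s3 k251_B00pm_011_s3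

theorem t5166_B00pm_011_s3 : ∃ t, chk3 f_B00pm_011_s3 t 232 495 8 = true := ex3_c t5165_B00pm_011_s3 k252_B00pm_011_s3

theorem t5167_B00pm_011_s3 : ∃ t, chk3 f_B00pm_011_s3 t 232 247 8 = true := ex3_b k249_B00pm_011_s3 t5166_B00pm_011_s3

theorem t5168_B00pm_011_s3 : ∃ t, chk3 f_B00pm_011_s3 t 116 247 8 = true := ex3_a t5167_B00pm_011_s3 k253_B00pm_011_s3

theorem t5169_B00pm_011_s3 : ∃ t, chk3 f_B00pm_011_s3 t 116 123 8 = true := ex3_b k248_B00pm_011_s3 t5168_B00pm_011_s3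

theorem t5170_B00pm_011_s3 : ∃ t, chk3 f_B00pm_011_s3 t 116 61 8 = true := ex3_b k247_B00pm_011_s3 t5169_B00pm_011_s3

theorem t5171_B00pm_011_s3 : ∃ t, chk3 f_B00pm_011_s3 t 58 61 8 = true := ex3_a t5170_B00pm_011_s3 k254_B00pm_011_s3

theorem t5172_B00pm_011_s3 : ∃ t, chk3 f_B00pm_011_s3 t 58 61 4 = true := ex3_c t5171_B00pm_011_s3 t5164_B00pm_011_s3

theorem t5173_B00pm_011_s3 : ∃ t, chk3 f_B00pm_011_s3 t 58 30 4 = true := ex3_b k246_B00pm_011_s3 t5172_B00pm_011_s3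

theorem t5174_B00pm_011_s3 : ∃ t, chk3 f_B00pm_011_s3 t 29 30 4 = true := ex3_a t5173_B00pm_011_s3 k261_B00pm_011_s3

theorem t5175_B00pm_011_s3 : ∃ t, chk3 f_B00pm_011_s3 t 29 30 2 = true := ex3_c t5174_B00pm_011_s3 t5159_B00pm_011_s3

theorem t5176_B00pm_011_s3 : ∃ t, chk3 f_B00pm_011_s3 t 29 30 1 = true := ex3_c t5175_B00pm_011_s3 k272_B00pm_011_s3

theorem t5177_B00pm_011_s3 : ∃ t, chk3 f_B00pm_011_s3 t 29 15 1 = true := ex3_b t5176_B00pm_011_s3 t5150_B00pm_011_s3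

theorem t5178_B00pm_011_s3 : ∃ t, chk3 f_B00pm_011_s3 t 57 62 3 = true := ex3_a k243_B00pm_011_s3 k244_B00pm_011_s3

theorem t5179_B00pm_011_s3 : ∃ t, chk3 f_B00pm_011_s3 t 115 125 2 = true := ex3_c k241_B00pm_011_s3 k242_B00pm_011_s3

theorem t5180_B00pm_011_s3 : ∃ t, chk3 f_B00pm_011_s3 t 231 248 16 = true := ex3_b k235_B00pm_011_s3 k236_B00pm_011_s3

theorem t5181_B00pm_011_s3 : ∃ t, chk3 f_B00pm_011_s3 t 231 248 8 = true := ex3_c t5180_B00pm_011_s3 k237_B00pm_011_s3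

theorem t5182_B00pm_011_s3 : ∃ t, chk3 f_B00pm_011_s3 t 231 124 8 = true := ex3_b t5181_B00pm_011_s3 k238_B00pm_011_s3

theorem t5183_B00pm_011_s3 : ∃ t, chk3 f_B00pm_011_s3 t 231 124 4 = true := ex3_c t5182_B00pm_011_s3 k239_B00pm_011_s3

theorem t5184_B00pm_011_s3 : ∃ t, chk3 f_B00pm_011_s3 t 230 248 8 = true := ex3_b k231_B00pm_011_s3 k232_B00pm_011_s3

theorem t5185_B00pm_011_s3 : ∃ t, chk3 f_B00pm_011_s3 t 230 248 4 = true := ex3_c t5184_B00pm_011_s3 k233_B00pm_011_s3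

theorem t5186_B00pm_011_s3 : ∃ t, chk3 f_B00pm_011_s3 t 230 124 4 = true := ex3_b t5185_B00pm_011_s3 k234_B00pm_011_s3

theorem t5187_B00pm_011_s3 : ∃ t, chk3 f_B00pm_011_s3 t 115 124 4 = true := ex3_a t5186_B00pm_011_s3 t5183_B00pm_011_s3

theorem t5188_B00pm_011_s3 : ∃ t, chk3 f_B00pm_011_s3 t 115 124 2 = true := ex3_c t5187_B00pm_011_s3 k240_B00pm_011_s3

theorem t5189_B00pm_011_s3 : ∃ t, chk3 f_B00pm_011_s3 t 115 62 2 = true := ex3_b t5188_B00pm_011_s3 t5179_B00pm_011_s3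

theorem t5190_B00pm_011_s3 : ∃ t, chk3 f_B00pm_011_s3 t 114 124 4 = true := ex3_b k227_B00pm_011_s3 k228_B00pm_011_s3

theorem t5191_B00pm_011_s3 : ∃ t, chk3 f_B00pm_011_s3 t 114 124 2 = true := ex3_c t5190_B00pm_011_s3 k229_B00pm_011_s3

theorem t5192_B00pm_011_s3 : ∃ t, chk3 f_B00pm_011_s3 t 114 62 2 = true := ex3_b t5191_B00pm_011_s3 k230_B00pm_011_s3

theorem t5193_B00pm_011_s3 : ∃ t, chk3 f_B00pm_011_s3 t 57 62 2 = true := ex3_a t5192_B00pm_011_s3 t5189_B00pm_011_s3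

theorem t5194_B00pm_011_s3 : ∃ t, chk3 f_B00pm_011_s3 t 57 62 1 = true := ex3_c t5193_B00pm_011_s3 t5178_B00pm_011_s3

theorem t5195_B00pm_011_s3 : ∃ t, chk3 f_B00pm_011_s3 t 56 124 2 = true := ex3_b k223_B00pm_011_s3 k224_B00pm_011_s3

theorem t5196_B00pm_011_s3 : ∃ t, chk3 f_B00pm_011_s3 t 56 124 1 = true := ex3_c t5195_B00pm_011_s3 k225_B00pm_011_s3

theorem t5197_B00pm_011_s3 : ∃ t, chk3 f_B00pm_011_s3 t 56 62 1 = true := ex3_b t5196_B00pm_011_s3 k226_B00pm_011_s3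

theorem t5198_B00pm_011_s3 : ∃ t, chk3 f_B00pm_011_s3 t 28 62 1 = true := ex3_a t5197_B00pm_011_s3 t5194_B00pm_011_s3

theorem t5199_B00pm_011_s3 : ∃ t, chk3 f_B00pm_011_s3 t 28 31 1 = true := ex3_b t5198_B00pm_011_s3 k245_B00pm_011_s3

theorem t5200_B00pm_011_s3 : ∃ t, chk3 f_B00pm_011_s3 t 115 494 3 = true := ex3_a k220_B00pm_011_s3 k221_B00pm_011_s3

theorem t5201_B00pm_011_s3 : ∃ t, chk3 f_B00pm_011_s3 t 115 247 3 = true := ex3_b t5200_B00pm_011_s3 k222_B00pm_011_s3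

theorem t5202_B00pm_011_s3 : ∃ t, chk3 f_B00pm_011_s3 t 115 123 3 = true := ex3_b k219_B00pm_011_s3 t5201_B00pm_011_s3

theorem t5203_B00pm_011_s3 : ∃ t, chk3 f_B00pm_011_s3 t 115 61 3 = true := ex3_b k218_B00pm_011_s3 t5202_B00pm_011_s3

theorem t5204_B00pm_011_s3 : ∃ t, chk3 f_B00pm_011_s3 t 114 493 3 = true := ex3_c k215_B00pm_011_s3 k216_B00pm_011_s3

theorem t5205_B00pm_011_s3 : ∃ t, chk3 f_B00pm_011_s3 t 114 246 3 = true := ex3_b k214_B00pm_011_s3 t5204_B00pm_011_s3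

theorem t5206_B00pm_011_s3 : ∃ t, chk3 f_B00pm_011_s3 t 114 123 3 = true := ex3_b t5205_B00pm_011_s3 k217_B00pm_011_s3

theorem t5207_B00pm_011_s3 : ∃ t, chk3 f_B00pm_011_s3 t 114 61 3 = true := ex3_b k213_B00pm_011_s3 t5206_B00pm_011_s3

theorem t5208_B00pm_011_s3 : ∃ t, chk3 f_B00pm_011_s3 t 57 61 3 = true := ex3_a t5207_B00pm_011_s3 t5203_B00pm_011_s3

theorem t5209_B00pm_011_s3 : ∃ t, chk3 f_B00pm_011_s3 t 115 247 11 = true := ex3_b k211_B00pm_011_s3 k212_B00pm_011_s3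

theorem t5210_B00pm_011_s3 : ∃ t, chk3 f_B00pm_011_s3 t 115 247 21 = true := ex3_b k209_B00pm_011_s3 k210_B00pm_011_s3

theorem t5211_B00pm_011_s3 : ∃ t, chk3 f_B00pm_011_s3 t 231 495 20 = true := ex3_c k207_B00pm_011_s3 k208_B00pm_011_s3

theorem t5212_B00pm_011_s3 : ∃ t, chk3 f_B00pm_011_s3 t 115 495 20 = true := ex3_a k206_B00pm_011_s3 t5211_B00pm_011_s3

theorem t5213_B00pm_011_s3 : ∃ t, chk3 f_B00pm_011_s3 t 115 247 20 = true := ex3_b k205_B00pm_011_s3 t5212_B00pm_011_s3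

theorem t5214_B00pm_011_s3 : ∃ t, chk3 f_B00pm_011_s3 t 115 247 10 = true := ex3_c t5213_B00pm_011_s3 t5210_B00pm_011_s3

theorem t5215_B00pm_011_s3 : ∃ t, chk3 f_B00pm_011_s3 t 115 247 5 = true := ex3_c t5214_B00pm_011_s3 t5209_B00pm_011_s3

theorem t5216_B00pm_011_s3 : ∃ t, chk3 f_B00pm_011_s3 t 231 495 9 = true := ex3_a k203_B00pm_011_s3 k204_B00pm_011_s3

theorem t5217_B00pm_011_s3 : ∃ t, chk3 f_B00pm_011_s3 t 115 495 9 = true := ex3_a k202_B00pm_011_s3 t5216_B00pm_011_s3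

theorem t5218_B00pm_011_s3 : ∃ t, chk3 f_B00pm_011_s3 t 230 494 9 = true := ex3_b k199_B00pm_011_s3 k200_B00pm_011_s3

theorem t5219_B00pm_011_s3 : ∃ t, chk3 f_B00pm_011_s3 t 115 494 9 = true := ex3_a t5218_B00pm_011_s3 k201_B00pm_011_s3

theorem t5220_B00pm_011_s3 : ∃ t, chk3 f_B00pm_011_s3 t 115 247 9 = true := ex3_b t5219_B00pm_011_s3 t5217_B00pm_011_s3

theorem t5221_B00pm_011_s3 : ∃ t, chk3 f_B00pm_011_s3 t 115 247 17 = true := ex3_b k197_B00pm_011_s3 k198_B00pm_011_s3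

theorem t5222_B00pm_011_s3 : ∃ t, chk3 f_B00pm_011_s3 t 115 247 33 = true := ex3_b k195_B00pm_011_s3 k196_B00pm_011_s3

theorem t5223_B00pm_011_s3 : ∃ t, chk3 f_B00pm_011_s3 t 115 247 65 = true := ex3_b k193_B00pm_011_s3 k194_B00pm_011_s3

theorem t5224_B00pm_011_s3 : ∃ t, chk3 f_B00pm_011_s3 t 231 495 64 = true := ex3_a k191_B00pm_011_s3 k192_B00pm_011_s3

theorem t5225_B00pm_011_s3 : ∃ t, chk3 f_B00pm_011_s3 t 115 495 64 = true := ex3_a k190_B00pm_011_s3 t5224_B00pm_011_s3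

theorem t5226_B00pm_011_s3 : ∃ t, chk3 f_B00pm_011_s3 t 115 247 64 = true := ex3_b k189_B00pm_011_s3 t5225_B00pm_011_s3

theorem t5227_B00pm_011_s3 : ∃ t, chk3 f_B00pm_011_s3 t 115 247 32 = true := ex3_c t5226_B00pm_011_s3 t5223_B00pm_011_s3

theorem t5228_B00pm_011_s3 : ∃ t, chk3 f_B00pm_011_s3 t 115 247 16 = true := ex3_c t5227_B00pm_011_s3 t5222_B00pm_011_s3

theorem t5229_B00pm_011_s3 : ∃ t, chk3 f_B00pm_011_s3 t 115 247 8 = true := ex3_c t5228_B00pm_011_s3 t5221_B00pm_011_s3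

theorem t5230_B00pm_011_s3 : ∃ t, chk3 f_B00pm_011_s3 t 115 247 4 = true := ex3_c t5229_B00pm_011_s3 t5220_B00pm_011_s3

theorem t5231_B00pm_011_s3 : ∃ t, chk3 f_B00pm_011_s3 t 115 247 2 = true := ex3_c t5230_B00pm_011_s3 t5215_B00pm_011_s3

theorem t5232_B00pm_011_s3 : ∃ t, chk3 f_B00pm_011_s3 t 115 123 2 = true := ex3_b k188_B00pm_011_s3 t5231_B00pm_011_s3

theorem t5233_B00pm_011_s3 : ∃ t, chk3 f_B00pm_011_s3 t 115 61 2 = true := ex3_b k187_B00pm_011_s3 t5232_B00pm_011_s3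

theorem t5234_B00pm_011_s3 : ∃ t, chk3 f_B00pm_011_s3 t 229 247 2 = true := ex3_a k185_B00pm_011_s3 k186_B00pm_011_s3

theorem t5235_B00pm_011_s3 : ∃ t, chk3 f_B00pm_011_s3 t 229 493 2 = true := ex3_c k183_B00pm_011_s3 k184_B00pm_011_s3

theorem t5236_B00pm_011_s3 : ∃ t, chk3 f_B00pm_011_s3 t 229 246 2 = true := ex3_b k182_B00pm_011_s3 t5235_B00pm_011_s3

theorem t5237_B00pm_011_s3 : ∃ t, chk3 f_B00pm_011_s3 t 229 123 2 = true := ex3_b t5236_B00pm_011_s3 t5234_B00pm_011_s3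

theorem t5238_B00pm_011_s3 : ∃ t, chk3 f_B00pm_011_s3 t 228 123 5 = true := ex3_a k180_B00pm_011_s3 k181_B00pm_011_s3

theorem t5239_B00pm_011_s3 : ∃ t, chk3 f_B00pm_011_s3 t 228 123 9 = true := ex3_a k178_B00pm_011_s3 k179_B00pm_011_s3

theorem t5240_B00pm_011_s3 : ∃ t, chk3 f_B00pm_011_s3 t 228 123 8 = true := ex3_a k176_B00pm_011_s3 k177_B00pm_011_s3

theorem t5241_B00pm_011_s3 : ∃ t, chk3 f_B00pm_011_s3 t 228 123 4 = true := ex3_c t5240_B00pm_011_s3 t5239_B00pm_011_s3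

theorem t5242_B00pm_011_s3 : ∃ t, chk3 f_B00pm_011_s3 t 228 123 2 = true := ex3_c t5241_B00pm_011_s3 t5238_B00pm_011_s3

theorem t5243_B00pm_011_s3 : ∃ t, chk3 f_B00pm_011_s3 t 114 123 2 = true := ex3_a t5242_B00pm_011_s3 t5237_B00pm_011_s3

theorem t5244_B00pm_011_s3 : ∃ t, chk3 f_B00pm_011_s3 t 114 61 2 = true := ex3_b k175_B00pm_011_s3 t5243_B00pm_011_s3

theorem t5245_B00pm_011_s3 : ∃ t, chk3 f_B00pm_011_s3 t 57 61 2 = true := ex3_a t5244_B00pm_011_s3 t5233_B00pm_011_s3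

theorem t5246_B00pm_011_s3 : ∃ t, chk3 f_B00pm_011_s3 t 57 61 1 = true := ex3_c t5245_B00pm_011_s3 t5208_B00pm_011_s3

theorem t5247_B00pm_011_s3 : ∃ t, chk3 f_B00pm_011_s3 t 227 492 3 = true := ex3_c k171_B00pm_011_s3 k172_B00pm_011_s3

theorem t5248_B00pm_011_s3 : ∃ t, chk3 f_B00pm_011_s3 t 227 246 3 = true := ex3_b t5247_B00pm_011_s3 k173_B00pm_011_s3

theorem t5249_B00pm_011_s3 : ∃ t, chk3 f_B00pm_011_s3 t 113 246 3 = true := ex3_a k170_B00pm_011_s3 t5248_B00pm_011_s3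

theorem t5250_B00pm_011_s3 : ∃ t, chk3 f_B00pm_011_s3 t 113 123 3 = true := ex3_b t5249_B00pm_011_s3 k174_B00pm_011_s3

theorem t5251_B00pm_011_s3 : ∃ t, chk3 f_B00pm_011_s3 t 113 61 3 = true := ex3_b k169_B00pm_011_s3 t5250_B00pm_011_s3

theorem t5252_B00pm_011_s3 : ∃ t, chk3 f_B00pm_011_s3 t 112 61 3 = true := ex3_b k167_B00pm_011_s3 k168_B00pm_011_s3

theorem t5253_B00pm_011_s3 : ∃ t, chk3 f_B00pm_011_s3 t 56 61 3 = true := ex3_a t5252_B00pm_011_s3 t5251_B00pm_011_s3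

theorem t5254_B00pm_011_s3 : ∃ t, chk3 f_B00pm_011_s3 t 455 492 5 = true := ex3_b k163_B00pm_011_s3 k164_B00pm_011_s3

theorem t5255_B00pm_011_s3 : ∃ t, chk3 f_B00pm_011_s3 t 227 492 5 = true := ex3_a k162_B00pm_011_s3 t5254_B00pm_011_s3

theorem t5256_B00pm_011_s3 : ∃ t, chk3 f_B00pm_011_s3 t 113 492 5 = true := ex3_a k161_B00pm_011_s3 t5255_B00pm_011_s3

theorem t5257_B00pm_011_s3 : ∃ t, chk3 f_B00pm_011_s3 t 113 246 5 = true := ex3_b t5256_B00pm_011_s3 k165_B00pm_011_s3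

theorem t5258_B00pm_011_s3 : ∃ t, chk3 f_B00pm_011_s3 t 113 123 5 = true := ex3_b t5257_B00pm_011_s3 k166_B00pm_011_s3

theorem t5259_B00pm_011_s3 : ∃ t, chk3 f_B00pm_011_s3 t 113 122 5 = true := ex3_b k159_B00pm_011_s3 k160_B00pm_011_s3

theorem t5260_B00pm_011_s3 : ∃ t, chk3 f_B00pm_011_s3 t 113 61 5 = true := ex3_b t5259_B00pm_011_s3 t5258_B00pm_011_s3

theorem t5261_B00pm_011_s3 : ∃ t, chk3 f_B00pm_011_s3 t 455 492 4 = true := ex3_b k155_B00pm_011_s3 k156_B00pm_011_s3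

theorem t5262_B00pm_011_s3 : ∃ t, chk3 f_B00pm_011_s3 t 227 492 4 = true := ex3_a k154_B00pm_011_s3 t5261_B00pm_011_s3

theorem t5263_B00pm_011_s3 : ∃ t, chk3 f_B00pm_011_s3 t 113 492 4 = true := ex3_a k153_B00pm_011_s3 t5262_B00pm_011_s3

theorem t5264_B00pm_011_s3 : ∃ t, chk3 f_B00pm_011_s3 t 113 246 4 = true := ex3_b t5263_B00pm_011_s3 k157_B00pm_011_s3

theorem t5265_B00pm_011_s3 : ∃ t, chk3 f_B00pm_011_s3 t 113 123 4 = true := ex3_b t5264_B00pm_011_s3 k158_B00pm_011_s3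

theorem t5266_B00pm_011_s3 : ∃ t, chk3 f_B00pm_011_s3 t 113 245 4 = true := ex3_c k151_B00pm_011_s3 k152_B00pm_011_s3

theorem t5267_B00pm_011_s3 : ∃ t, chk3 f_B00pm_011_s3 t 113 122 4 = true := ex3_b k150_B00pm_011_s3 t5266_B00pm_011_s3

theorem t5268_B00pm_011_s3 : ∃ t, chk3 f_B00pm_011_s3 t 113 61 4 = true := ex3_b t5267_B00pm_011_s3 t5265_B00pm_011_s3

theorem t5269_B00pm_011_s3 : ∃ t, chk3 f_B00pm_011_s3 t 113 61 2 = true := ex3_c t5268_B00pm_011_s3 t5260_B00pm_011_s3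

theorem t5270_B00pm_011_s3 : ∃ t, chk3 f_B00pm_011_s3 t 112 61 5 = true := ex3_a k148_B00pm_011_s3 k149_B00pm_011_s3

theorem t5271_B00pm_011_s3 : ∃ t, chk3 f_B00pm_011_s3 t 112 61 9 = true := ex3_a k146_B00pm_011_s3 k147_B00pm_011_s3

theorem t5272_B00pm_011_s3 : ∃ t, chk3 f_B00pm_011_s3 t 112 61 16 = true := ex3_a k143_B00pm_011_s3 k144_B00pm_011_s3

theorem t5273_B00pm_011_s3 : ∃ t, chk3 f_B00pm_011_s3 t 112 61 8 = true := ex3_c t5272_B00pm_011_s3 k145_B00pm_011_s3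

theorem t5274_B00pm_011_s3 : ∃ t, chk3 f_B00pm_011_s3 t 112 61 4 = true := ex3_c t5273_B00pm_011_s3 t5271_B00pm_011_s3

theorem t5275_B00pm_011_s3 : ∃ t, chk3 f_B00pm_011_s3 t 112 61 2 = true := ex3_c t5274_B00pm_011_s3 t5270_B00pm_011_s3

theorem t5276_B00pm_011_s3 : ∃ t, chk3 f_B00pm_011_s3 t 56 61 2 = true := ex3_a t5275_B00pm_011_s3 t5269_B00pm_011_s3

theorem t5277_B00pm_011_s3 : ∃ t, chk3 f_B00pm_011_s3 t 56 61 1 = true := ex3_c t5276_B00pm_011_s3 t5253_B00pm_011_s3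

theorem t5278_B00pm_011_s3 : ∃ t, chk3 f_B00pm_011_s3 t 28 61 1 = true := ex3_a t5277_B00pm_011_s3 t5246_B00pm_011_s3

theorem t5279_B00pm_011_s3 : ∃ t, chk3 f_B00pm_011_s3 t 28 30 1 = true := ex3_b k142_B00pm_011_s3 t5278_B00pm_011_s3

theorem t5280_B00pm_011_s3 : ∃ t, chk3 f_B00pm_011_s3 t 28 15 1 = true := ex3_b t5279_B00pm_011_s3 t5199_B00pm_011_s3

theorem t5281_B00pm_011_s3 : ∃ t, chk3 f_B00pm_011_s3 t 14 15 1 = true := ex3_a t5280_B00pm_011_s3 t5177_B00pm_011_s3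

theorem t5282_B00pm_011_s3 : ∃ t, chk3 f_B00pm_011_s3 t 14 7 1 = true := ex3_b k141_B00pm_011_s3 t5281_B00pm_011_s3

theorem t5283_B00pm_011_s3 : ∃ t, chk3 f_B00pm_011_s3 t 7 7 1 = true := ex3_a t5282_B00pm_011_s3 t2792_B00pm_011_s3

theorem t5284_B00pm_011_s3 : ∃ t, chk3 f_B00pm_011_s3 t 7 3 1 = true := ex3_b k140_B00pm_011_s3 t5283_B00pm_011_s3

theorem t5285_B00pm_011_s3 : ∃ t, chk3 f_B00pm_011_s3 t 7 1 1 = true := ex3_b k139_B00pm_011_s3 t5284_B00pm_011_s3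

theorem t5286_B00pm_011_s3 : ∃ t, chk3 f_B00pm_011_s3 t 55 122 3 = true := ex3_a k135_B00pm_011_s3 k136_B00pm_011_s3

theorem t5287_B00pm_011_s3 : ∃ t, chk3 f_B00pm_011_s3 t 55 61 3 = true := ex3_b t5286_B00pm_011_s3 k137_B00pm_011_s3

theorem t5288_B00pm_011_s3 : ∃ t, chk3 f_B00pm_011_s3 t 27 61 3 = true := ex3_a k134_B00pm_011_s3 t5287_B00pm_011_s3

theorem t5289_B00pm_011_s3 : ∃ t, chk3 f_B00pm_011_s3 t 54 121 6 = true := ex3_c k130_B00pm_011_s3 k131_B00pm_011_s3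

theorem t5290_B00pm_011_s3 : ∃ t, chk3 f_B00pm_011_s3 t 54 121 3 = true := ex3_c t5289_B00pm_011_s3 k132_B00pm_011_s3

theorem t5291_B00pm_011_s3 : ∃ t, chk3 f_B00pm_011_s3 t 54 60 3 = true := ex3_b k129_B00pm_011_s3 t5290_B00pm_011_s3

theorem t5292_B00pm_011_s3 : ∃ t, chk3 f_B00pm_011_s3 t 27 60 3 = true := ex3_a t5291_B00pm_011_s3 k133_B00pm_011_s3

theorem t5293_B00pm_011_s3 : ∃ t, chk3 f_B00pm_011_s3 t 27 30 3 = true := ex3_b t5292_B00pm_011_s3 t5288_B00pm_011_s3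

theorem t5294_B00pm_011_s3 : ∃ t, chk3 f_B00pm_011_s3 t 111 122 5 = true := ex3_a k126_B00pm_011_s3 k127_B00pm_011_s3

theorem t5295_B00pm_011_s3 : ∃ t, chk3 f_B00pm_011_s3 t 55 122 5 = true := ex3_a k125_B00pm_011_s3 t5294_B00pm_011_s3

theorem t5296_B00pm_011_s3 : ∃ t, chk3 f_B00pm_011_s3 t 55 61 5 = true := ex3_b t5295_B00pm_011_s3 k128_B00pm_011_s3

theorem t5297_B00pm_011_s3 : ∃ t, chk3 f_B00pm_011_s3 t 27 61 5 = true := ex3_a k124_B00pm_011_s3 t5296_B00pm_011_s3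

theorem t5298_B00pm_011_s3 : ∃ t, chk3 f_B00pm_011_s3 t 54 243 5 = true := ex3_a k121_B00pm_011_s3 k122_B00pm_011_s3

theorem t5299_B00pm_011_s3 : ∃ t, chk3 f_B00pm_011_s3 t 108 242 5 = true := ex3_a k118_B00pm_011_s3 k119_B00pm_011_s3

theorem t5300_B00pm_011_s3 : ∃ t, chk3 f_B00pm_011_s3 t 54 242 5 = true := ex3_a t5299_B00pm_011_s3 k120_B00pm_011_s3

theorem t5301_B00pm_011_s3 : ∃ t, chk3 f_B00pm_011_s3 t 54 121 5 = true := ex3_b t5300_B00pm_011_s3 t5298_B00pm_011_s3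

theorem t5302_B00pm_011_s3 : ∃ t, chk3 f_B00pm_011_s3 t 54 60 5 = true := ex3_b k117_B00pm_011_s3 t5301_B00pm_011_s3

theorem t5303_B00pm_011_s3 : ∃ t, chk3 f_B00pm_011_s3 t 27 60 5 = true := ex3_a t5302_B00pm_011_s3 k123_B00pm_011_s3

theorem t5304_B00pm_011_s3 : ∃ t, chk3 f_B00pm_011_s3 t 27 30 5 = true := ex3_b t5303_B00pm_011_s3 t5297_B00pm_011_s3

theorem t5305_B00pm_011_s3 : ∃ t, chk3 f_B00pm_011_s3 t 111 122 9 = true := ex3_a k114_B00pm_011_s3 k115_B00pm_011_s3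

theorem t5306_B00pm_011_s3 : ∃ t, chk3 f_B00pm_011_s3 t 55 122 9 = true := ex3_a k113_B00pm_011_s3 t5305_B00pm_011_s3

theorem t5307_B00pm_011_s3 : ∃ t, chk3 f_B00pm_011_s3 t 55 61 9 = true := ex3_b t5306_B00pm_011_s3 k116_B00pm_011_s3

theorem t5308_B00pm_011_s3 : ∃ t, chk3 f_B00pm_011_s3 t 27 61 9 = true := ex3_a k112_B00pm_011_s3 t5307_B00pm_011_s3

theorem t5309_B00pm_011_s3 : ∃ t, chk3 f_B00pm_011_s3 t 54 121 9 = true := ex3_b k109_B00pm_011_s3 k110_B00pm_011_s3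

theorem t5310_B00pm_011_s3 : ∃ t, chk3 f_B00pm_011_s3 t 54 60 9 = true := ex3_b k108_B00pm_011_s3 t5309_B00pm_011_s3

theorem t5311_B00pm_011_s3 : ∃ t, chk3 f_B00pm_011_s3 t 27 60 9 = true := ex3_a t5310_B00pm_011_s3 k111_B00pm_011_s3

theorem t5312_B00pm_011_s3 : ∃ t, chk3 f_B00pm_011_s3 t 27 30 9 = true := ex3_b t5311_B00pm_011_s3 t5308_B00pm_011_s3

theorem t5313_B00pm_011_s3 : ∃ t, chk3 f_B00pm_011_s3 t 111 122 8 = true := ex3_a k105_B00pm_011_s3 k106_B00pm_011_s3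

theorem t5314_B00pm_011_s3 : ∃ t, chk3 f_B00pm_011_s3 t 55 122 8 = true := ex3_a k104_B00pm_011_s3 t5313_B00pm_011_s3

theorem t5315_B00pm_011_s3 : ∃ t, chk3 f_B00pm_011_s3 t 55 61 8 = true := ex3_b t5314_B00pm_011_s3 k107_B00pm_011_s3

theorem t5316_B00pm_011_s3 : ∃ t, chk3 f_B00pm_011_s3 t 27 61 8 = true := ex3_a k103_B00pm_011_s3 t5315_B00pm_011_s3

theorem t5317_B00pm_011_s3 : ∃ t, chk3 f_B00pm_011_s3 t 54 243 8 = true := ex3_b k100_B00pm_011_s3 k101_B00pm_011_s3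

theorem t5318_B00pm_011_s3 : ∃ t, chk3 f_B00pm_011_s3 t 108 242 8 = true := ex3_b k97_B00pm_011_s3 k98_B00pm_011_s3

theorem t5319_B00pm_011_s3 : ∃ t, chk3 f_B00pm_011_s3 t 54 242 8 = true := ex3_a t5318_B00pm_011_s3 k99_B00pm_011_s3

theorem t5320_B00pm_011_s3 : ∃ t, chk3 f_B00pm_011_s3 t 54 121 8 = true := ex3_b t5319_B00pm_011_s3 t5317_B00pm_011_s3

theorem t5321_B00pm_011_s3 : ∃ t, chk3 f_B00pm_011_s3 t 54 60 8 = true := ex3_b k96_B00pm_011_s3 t5320_B00pm_011_s3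

theorem t5322_B00pm_011_s3 : ∃ t, chk3 f_B00pm_011_s3 t 27 60 8 = true := ex3_a t5321_B00pm_011_s3 k102_B00pm_011_s3

theorem t5323_B00pm_011_s3 : ∃ t, chk3 f_B00pm_011_s3 t 27 30 8 = true := ex3_b t5322_B00pm_011_s3 t5316_B00pm_011_s3

theorem t5324_B00pm_011_s3 : ∃ t, chk3 f_B00pm_011_s3 t 27 30 4 = true := ex3_c t5323_B00pm_011_s3 t5312_B00pm_011_s3

theorem t5325_B00pm_011_s3 : ∃ t, chk3 f_B00pm_011_s3 t 27 30 2 = true := ex3_c t5324_B00pm_011_s3 t5304_B00pm_011_s3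

theorem t5326_B00pm_011_s3 : ∃ t, chk3 f_B00pm_011_s3 t 27 30 1 = true := ex3_c t5325_B00pm_011_s3 t5293_B00pm_011_s3

theorem t5327_B00pm_011_s3 : ∃ t, chk3 f_B00pm_011_s3 t 214 241 2 = true := ex3_a k90_B00pm_011_s3 k91_B00pm_011_s3

theorem t5328_B00pm_011_s3 : ∃ t, chk3 f_B00pm_011_s3 t 214 120 2 = true := ex3_b k89_B00pm_011_s3 t5327_B00pm_011_s3

theorem t5329_B00pm_011_s3 : ∃ t, chk3 f_B00pm_011_s3 t 107 120 2 = true := ex3_a t5328_B00pm_011_s3 k92_B00pm_011_s3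

theorem t5330_B00pm_011_s3 : ∃ t, chk3 f_B00pm_011_s3 t 107 60 2 = true := ex3_b t5329_B00pm_011_s3 k93_B00pm_011_s3

theorem t5331_B00pm_011_s3 : ∃ t, chk3 f_B00pm_011_s3 t 107 60 1 = true := ex3_c t5330_B00pm_011_s3 k94_B00pm_011_s3

theorem t5332_B00pm_011_s3 : ∃ t, chk3 f_B00pm_011_s3 t 213 482 2 = true := ex3_c k84_B00pm_011_s3 k85_B00pm_011_s3

theorem t5333_B00pm_011_s3 : ∃ t, chk3 f_B00pm_011_s3 t 213 241 2 = true := ex3_b t5332_B00pm_011_s3 k86_B00pm_011_s3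

theorem t5334_B00pm_011_s3 : ∃ t, chk3 f_B00pm_011_s3 t 106 241 2 = true := ex3_a k83_B00pm_011_s3 t5333_B00pm_011_s3

theorem t5335_B00pm_011_s3 : ∃ t, chk3 f_B00pm_011_s3 t 212 481 2 = true := ex3_a k80_B00pm_011_s3 k81_B00pm_011_s3

theorem t5336_B00pm_011_s3 : ∃ t, chk3 f_B00pm_011_s3 t 212 240 2 = true := ex3_b k79_B00pm_011_s3 t5335_B00pm_011_s3

theorem t5337_B00pm_011_s3 : ∃ t, chk3 f_B00pm_011_s3 t 106 240 2 = true := ex3_a t5336_B00pm_011_s3 k82_B00pm_011_s3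

theorem t5338_B00pm_011_s3 : ∃ t, chk3 f_B00pm_011_s3 t 106 120 2 = true := ex3_b t5337_B00pm_011_s3 t5334_B00pm_011_s3

theorem t5339_B00pm_011_s3 : ∃ t, chk3 f_B00pm_011_s3 t 106 120 1 = true := ex3_c t5338_B00pm_011_s3 k87_B00pm_011_s3

theorem t5340_B00pm_011_s3 : ∃ t, chk3 f_B00pm_011_s3 t 106 60 1 = true := ex3_b t5339_B00pm_011_s3 k88_B00pm_011_s3

theorem t5341_B00pm_011_s3 : ∃ t, chk3 f_B00pm_011_s3 t 53 60 1 = true := ex3_a t5340_B00pm_011_s3 t5331_B00pm_011_s3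

theorem t5342_B00pm_011_s3 : ∃ t, chk3 f_B00pm_011_s3 t 211 240 4 = true := ex3_a k73_B00pm_011_s3 k74_B00pm_011_s3

theorem t5343_B00pm_011_s3 : ∃ t, chk3 f_B00pm_011_s3 t 211 240 2 = true := ex3_c t5342_B00pm_011_s3 k75_B00pm_011_s3

theorem t5344_B00pm_011_s3 : ∃ t, chk3 f_B00pm_011_s3 t 210 480 2 = true := ex3_a k70_B00pm_011_s3 k71_B00pm_011_s3

theorem t5345_B00pm_011_s3 : ∃ t, chk3 f_B00pm_011_s3 t 210 240 2 = true := ex3_b t5344_B00pm_011_s3 k72_B00pm_011_s3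

theorem t5346_B00pm_011_s3 : ∃ t, chk3 f_B00pm_011_s3 t 105 240 2 = true := ex3_a t5345_B00pm_011_s3 t5343_B00pm_011_s3

theorem t5347_B00pm_011_s3 : ∃ t, chk3 f_B00pm_011_s3 t 105 240 1 = true := ex3_c t5346_B00pm_011_s3 k76_B00pm_011_s3

theorem t5348_B00pm_011_s3 : ∃ t, chk3 f_B00pm_011_s3 t 105 120 1 = true := ex3_b t5347_B00pm_011_s3 k77_B00pm_011_s3

theorem t5349_B00pm_011_s3 : ∃ t, chk3 f_B00pm_011_s3 t 104 120 1 = true := ex3_b k68_B00pm_011_s3 k69_B00pm_011_s3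

theorem t5350_B00pm_011_s3 : ∃ t, chk3 f_B00pm_011_s3 t 52 120 1 = true := ex3_a t5349_B00pm_011_s3 t5348_B00pm_011_s3

theorem t5351_B00pm_011_s3 : ∃ t, chk3 f_B00pm_011_s3 t 52 60 1 = true := ex3_b t5350_B00pm_011_s3 k78_B00pm_011_s3

theorem t5352_B00pm_011_s3 : ∃ t, chk3 f_B00pm_011_s3 t 26 60 1 = true := ex3_a t5351_B00pm_011_s3 t5341_B00pm_011_s3

theorem t5353_B00pm_011_s3 : ∃ t, chk3 f_B00pm_011_s3 t 26 30 1 = true := ex3_b t5352_B00pm_011_s3 k95_B00pm_011_s3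

theorem t5354_B00pm_011_s3 : ∃ t, chk3 f_B00pm_011_s3 t 13 30 1 = true := ex3_a t5353_B00pm_011_s3 t5326_B00pm_011_s3

theorem t5355_B00pm_011_s3 : ∃ t, chk3 f_B00pm_011_s3 t 13 15 1 = true := ex3_b t5354_B00pm_011_s3 k138_B00pm_011_s3

theorem t5356_B00pm_011_s3 : ∃ t, chk3 f_B00pm_011_s3 t 104 239 4 = true := ex3_b k61_B00pm_011_s3 k62_B00pm_011_s3

theorem t5357_B00pm_011_s3 : ∃ t, chk3 f_B00pm_011_s3 t 104 239 2 = true := ex3_c t5356_B00pm_011_s3 k63_B00pm_011_s3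

theorem t5358_B00pm_011_s3 : ∃ t, chk3 f_B00pm_011_s3 t 104 119 2 = true := ex3_b k60_B00pm_011_s3 t5357_B00pm_011_s3

theorem t5359_B00pm_011_s3 : ∃ t, chk3 f_B00pm_011_s3 t 104 59 2 = true := ex3_b k59_B00pm_011_s3 t5358_B00pm_011_s3

theorem t5360_B00pm_011_s3 : ∃ t, chk3 f_B00pm_011_s3 t 52 59 2 = true := ex3_a t5359_B00pm_011_s3 k64_B00pm_011_s3

theorem t5361_B00pm_011_s3 : ∃ t, chk3 f_B00pm_011_s3 t 26 59 2 = true := ex3_a t5360_B00pm_011_s3 k65_B00pm_011_s3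

theorem t5362_B00pm_011_s3 : ∃ t, chk3 f_B00pm_011_s3 t 26 59 1 = true := ex3_c t5361_B00pm_011_s3 k66_B00pm_011_s3

theorem t5363_B00pm_011_s3 : ∃ t, chk3 f_B00pm_011_s3 t 26 29 1 = true := ex3_b k58_B00pm_011_s3 t5362_B00pm_011_s3

theorem t5364_B00pm_011_s3 : ∃ t, chk3 f_B00pm_011_s3 t 26 14 1 = true := ex3_b k57_B00pm_011_s3 t5363_B00pm_011_s3

theorem t5365_B00pm_011_s3 : ∃ t, chk3 f_B00pm_011_s3 t 13 14 1 = true := ex3_a t5364_B00pm_011_s3 k67_B00pm_011_s3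

theorem t5366_B00pm_011_s3 : ∃ t, chk3 f_B00pm_011_s3 t 13 7 1 = true := ex3_b t5365_B00pm_011_s3 t5355_B00pm_011_s3

theorem t5367_B00pm_011_s3 : ∃ t, chk3 f_B00pm_011_s3 t 25 59 6 = true := ex3_c k53_B00pm_011_s3 k54_B00pm_011_s3

theorem t5368_B00pm_011_s3 : ∃ t, chk3 f_B00pm_011_s3 t 25 59 3 = true := ex3_c t5367_B00pm_011_s3 k55_B00pm_011_s3

theorem t5369_B00pm_011_s3 : ∃ t, chk3 f_B00pm_011_s3 t 25 29 3 = true := ex3_b k52_B00pm_011_s3 t5368_B00pm_011_s3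

theorem t5370_B00pm_011_s3 : ∃ t, chk3 f_B00pm_011_s3 t 25 14 3 = true := ex3_b k51_B00pm_011_s3 t5369_B00pm_011_s3

theorem t5371_B00pm_011_s3 : ∃ t, chk3 f_B00pm_011_s3 t 25 7 3 = true := ex3_b t5370_B00pm_011_s3 k56_B00pm_011_s3

theorem t5372_B00pm_011_s3 : ∃ t, chk3 f_B00pm_011_s3 t 51 120 2 = true := ex3_a k46_B00pm_011_s3 k47_B00pm_011_s3

theorem t5373_B00pm_011_s3 : ∃ t, chk3 f_B00pm_011_s3 t 51 60 2 = true := ex3_b t5372_B00pm_011_s3 k48_B00pm_011_s3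

theorem t5374_B00pm_011_s3 : ∃ t, chk3 f_B00pm_011_s3 t 25 60 2 = true := ex3_a k45_B00pm_011_s3 t5373_B00pm_011_s3

theorem t5375_B00pm_011_s3 : ∃ t, chk3 f_B00pm_011_s3 t 25 30 2 = true := ex3_b t5374_B00pm_011_s3 k49_B00pm_011_s3

theorem t5376_B00pm_011_s3 : ∃ t, chk3 f_B00pm_011_s3 t 25 15 2 = true := ex3_b t5375_B00pm_011_s3 k50_B00pm_011_s3

theorem t5377_B00pm_011_s3 : ∃ t, chk3 f_B00pm_011_s3 t 25 59 10 = true := ex3_a k42_B00pm_011_s3 k43_B00pm_011_s3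

theorem t5378_B00pm_011_s3 : ∃ t, chk3 f_B00pm_011_s3 t 25 59 5 = true := ex3_c t5377_B00pm_011_s3 k44_B00pm_011_s3

theorem t5379_B00pm_011_s3 : ∃ t, chk3 f_B00pm_011_s3 t 51 59 9 = true := ex3_a k40_B00pm_011_s3 k41_B00pm_011_s3

theorem t5380_B00pm_011_s3 : ∃ t, chk3 f_B00pm_011_s3 t 25 59 9 = true := ex3_a k39_B00pm_011_s3 t5379_B00pm_011_s3

theorem t5381_B00pm_011_s3 : ∃ t, chk3 f_B00pm_011_s3 t 51 119 8 = true := ex3_a k37_B00pm_011_s3 k38_B00pm_011_s3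

theorem t5382_B00pm_011_s3 : ∃ t, chk3 f_B00pm_011_s3 t 25 119 8 = true := ex3_a k36_B00pm_011_s3 t5381_B00pm_011_s3

theorem t5383_B00pm_011_s3 : ∃ t, chk3 f_B00pm_011_s3 t 25 59 8 = true := ex3_b k35_B00pm_011_s3 t5382_B00pm_011_s3

theorem t5384_B00pm_011_s3 : ∃ t, chk3 f_B00pm_011_s3 t 25 59 4 = true := ex3_c t5383_B00pm_011_s3 t5380_B00pm_011_s3

theorem t5385_B00pm_011_s3 : ∃ t, chk3 f_B00pm_011_s3 t 25 59 2 = true := ex3_c t5384_B00pm_011_s3 t5378_B00pm_011_s3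

theorem t5386_B00pm_011_s3 : ∃ t, chk3 f_B00pm_011_s3 t 25 29 2 = true := ex3_b k34_B00pm_011_s3 t5385_B00pm_011_s3

theorem t5387_B00pm_011_s3 : ∃ t, chk3 f_B00pm_011_s3 t 25 14 2 = true := ex3_b k33_B00pm_011_s3 t5386_B00pm_011_s3

theorem t5388_B00pm_011_s3 : ∃ t, chk3 f_B00pm_011_s3 t 25 7 2 = true := ex3_b t5387_B00pm_011_s3 t5376_B00pm_011_s3

theorem t5389_B00pm_011_s3 : ∃ t, chk3 f_B00pm_011_s3 t 25 7 1 = true := ex3_c t5388_B00pm_011_s3 t5371_B00pm_011_s3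

theorem t5390_B00pm_011_s3 : ∃ t, chk3 f_B00pm_011_s3 t 99 118 2 = true := ex3_b k28_B00pm_011_s3 k29_B00pm_011_s3

theorem t5391_B00pm_011_s3 : ∃ t, chk3 f_B00pm_011_s3 t 99 59 2 = true := ex3_b t5390_B00pm_011_s3 k30_B00pm_011_s3

theorem t5392_B00pm_011_s3 : ∃ t, chk3 f_B00pm_011_s3 t 99 29 2 = true := ex3_b k27_B00pm_011_s3 t5391_B00pm_011_s3

theorem t5393_B00pm_011_s3 : ∃ t, chk3 f_B00pm_011_s3 t 99 29 1 = true := ex3_c t5392_B00pm_011_s3 k31_B00pm_011_s3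

theorem t5394_B00pm_011_s3 : ∃ t, chk3 f_B00pm_011_s3 t 98 117 2 = true := ex3_b k23_B00pm_011_s3 k24_B00pm_011_s3

theorem t5395_B00pm_011_s3 : ∃ t, chk3 f_B00pm_011_s3 t 98 117 1 = true := ex3_c t5394_B00pm_011_s3 k25_B00pm_011_s3

theorem t5396_B00pm_011_s3 : ∃ t, chk3 f_B00pm_011_s3 t 98 58 1 = true := ex3_b k22_B00pm_011_s3 t5395_B00pm_011_s3

theorem t5397_B00pm_011_s3 : ∃ t, chk3 f_B00pm_011_s3 t 98 29 1 = true := ex3_b t5396_B00pm_011_s3 k26_B00pm_011_s3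

theorem t5398_B00pm_011_s3 : ∃ t, chk3 f_B00pm_011_s3 t 49 29 1 = true := ex3_a t5397_B00pm_011_s3 t5393_B00pm_011_s3

theorem t5399_B00pm_011_s3 : ∃ t, chk3 f_B00pm_011_s3 t 48 58 1 = true := ex3_c k19_B00pm_011_s3 k20_B00pm_011_s3

theorem t5400_B00pm_011_s3 : ∃ t, chk3 f_B00pm_011_s3 t 48 29 1 = true := ex3_b t5399_B00pm_011_s3 k21_B00pm_011_s3

theorem t5401_B00pm_011_s3 : ∃ t, chk3 f_B00pm_011_s3 t 24 29 1 = true := ex3_a t5400_B00pm_011_s3 t5398_B00pm_011_s3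

theorem t5402_B00pm_011_s3 : ∃ t, chk3 f_B00pm_011_s3 t 24 14 1 = true := ex3_b k18_B00pm_011_s3 t5401_B00pm_011_s3

theorem t5403_B00pm_011_s3 : ∃ t, chk3 f_B00pm_011_s3 t 24 7 1 = true := ex3_b t5402_B00pm_011_s3 k32_B00pm_011_s3

theorem t5404_B00pm_011_s3 : ∃ t, chk3 f_B00pm_011_s3 t 12 7 1 = true := ex3_a t5403_B00pm_011_s3 t5389_B00pm_011_s3

theorem t5405_B00pm_011_s3 : ∃ t, chk3 f_B00pm_011_s3 t 6 7 1 = true := ex3_a t5404_B00pm_011_s3 t5366_B00pm_011_s3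

theorem t5406_B00pm_011_s3 : ∃ t, chk3 f_B00pm_011_s3 t 6 3 1 = true := ex3_b k17_B00pm_011_s3 t5405_B00pm_011_s3

theorem t5407_B00pm_011_s3 : ∃ t, chk3 f_B00pm_011_s3 t 6 1 1 = true := ex3_b k16_B00pm_011_s3 t5406_B00pm_011_s3

theorem t5408_B00pm_011_s3 : ∃ t, chk3 f_B00pm_011_s3 t 3 1 1 = true := ex3_a t5407_B00pm_011_s3 t5285_B00pm_011_s3

theorem t5409_B00pm_011_s3 : ∃ t, chk3 f_B00pm_011_s3 t 23 58 1 = true := ex3_b k12_B00pm_011_s3 k13_B00pm_011_s3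

theorem t5410_B00pm_011_s3 : ∃ t, chk3 f_B00pm_011_s3 t 23 29 1 = true := ex3_b t5409_B00pm_011_s3 k14_B00pm_011_s3

theorem t5411_B00pm_011_s3 : ∃ t, chk3 f_B00pm_011_s3 t 23 28 1 = true := ex3_a k10_B00pm_011_s3 k11_B00pm_011_s3

theorem t5412_B00pm_011_s3 : ∃ t, chk3 f_B00pm_011_s3 t 23 14 1 = true := ex3_b t5411_B00pm_011_s3 t5410_B00pm_011_s3

theorem t5413_B00pm_011_s3 : ∃ t, chk3 f_B00pm_011_s3 t 22 14 1 = true := ex3_a k8_B00pm_011_s3 k9_B00pm_011_s3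

theorem t5414_B00pm_011_s3 : ∃ t, chk3 f_B00pm_011_s3 t 11 14 1 = true := ex3_a t5413_B00pm_011_s3 t5412_B00pm_011_s3

theorem t5415_B00pm_011_s3 : ∃ t, chk3 f_B00pm_011_s3 t 10 28 1 = true := ex3_a k5_B00pm_011_s3 k6_B00pm_011_s3

theorem t5416_B00pm_011_s3 : ∃ t, chk3 f_B00pm_011_s3 t 10 14 1 = true := ex3_b t5415_B00pm_011_s3 k7_B00pm_011_s3

theorem t5417_B00pm_011_s3 : ∃ t, chk3 f_B00pm_011_s3 t 5 14 1 = true := ex3_a t5416_B00pm_011_s3 t5414_B00pm_011_s3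

theorem t5418_B00pm_011_s3 : ∃ t, chk3 f_B00pm_011_s3 t 5 7 1 = true := ex3_b t5417_B00pm_011_s3 k15_B00pm_011_s3

theorem t5419_B00pm_011_s3 : ∃ t, chk3 f_B00pm_011_s3 t 2 7 1 = true := ex3_a k4_B00pm_011_s3 t5418_B00pm_011_s3

theorem t5420_B00pm_011_s3 : ∃ t, chk3 f_B00pm_011_s3 t 2 13 1 = true := ex3_a k2_B00pm_011_s3 k3_B00pm_011_s3

theorem t5421_B00pm_011_s3 : ∃ t, chk3 f_B00pm_011_s3 t 2 6 1 = true := ex3_b k1_B00pm_011_s3 t5420_B00pm_011_s3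

theorem t5422_B00pm_011_s3 : ∃ t, chk3 f_B00pm_011_s3 t 2 3 1 = true := ex3_b t5421_B00pm_011_s3 t5419_B00pm_011_s3

theorem t5423_B00pm_011_s3 : ∃ t, chk3 f_B00pm_011_s3 t 2 1 1 = true := ex3_b k0_B00pm_011_s3 t5422_B00pm_011_s3

theorem t5424_B00pm_011_s3 : ∃ t, chk3 f_B00pm_011_s3 t 1 1 1 = true := ex3_a t5423_B00pm_011_s3 t5408_B00pm_011_s3

theorem c_B00pm_011_s3 : CertNX 0 536870912 536870912 536870912 1046898278 26843546 3 false true false .pnn 0 1 1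
    ndN0q0 ndN0q1 pcN1 cut_B00pm_011_s3 xt_B00pm_011_s3 :=
  certNX2 (N0 := 3) (fam := false) (s1 := true) (s2 := false) (a := 0) (b := 1) (c := 1) (cn := .pnn) (n1 := ndN0q0) (n2 := ndN0q1) (pc := pcN1) (cut := cut_B00pm_011_s3) (xt := xt_B00pm_011_s3) (P1 := 0) (W1 := 536870912) (P2 := 536870912) (W2 := 536870912) (P3 := 1046898278) (W3 := 26843546)
    rfl (fun _ => rfl) t5424_B00pm_011_s3

theorem s_B00pm_011_s3 {κ x : ℝ} (hκ : κ * h0 = kenE x) (hx : 39 / 40 ≤ x) (hx' : x < 1)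
    (H : CutVB (VND 3 κ) (DD x) tKN tL pcN (Cut.of [[⟨0, 0, 0, 67108864⟩, ⟨1, 1, 0, 67108864⟩, ⟨2, 1, 0, 67108864⟩]]) 0 1 1 0 0 (sgb true) (sgb false) x) :
    AltVB (VND 3 κ) (DD x) tKN tL pcN [⟨4, 0, 0, 3154116608⟩] 0 1 1 0 0 (sgb true) (sgb false) x :=
  strip_altVBN (d := 3154116608) false rfl hκ (κ0 hκ hx) (x0 hx) hx' (covN00 hx hx') (covN01 hx hx') (x1 hx) (x2 hx') c_B00pm_011_s3 H ((ok hx hx').extBN (T := tt) (sideN hx hx') hκ (κ0 hκ hx) rfl rfl (.O 0 true) (.O 1 false) (Or.inr rfl))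

end Pool.Agent.Strip051.G.IE1.Tab.StN.C
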