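import Pool.Agent.Strip051.G.IE1.Tab

/-! # Certificates N37 (generated) -/

set_option linter.all false
set_option maxRecDepth 100000

namespace Pool.Agent.Strip051.G.IE1.Tab.C.NB00

open Pool.Agent.Strip051.PB Pool.Agent.Strip051.PB.T
open Pool.Agent.Strip051.G.IE1.Tab

noncomputable def cut_pp_012 : Cut := Cut.of [[⟨0, 0, 0, 67108864⟩, ⟨1, 1, 0, 67108864⟩, ⟨2, 1, 0, 67108864⟩, ⟨3, 0, 0, 1233125376⟩]]

noncomputable def f_pp_012 : ℕ → ℕ → ℕ → ℕ → Bool := onCell 536870912 536870912 0 536870912 1046898278 26843546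
    (rowNX 3 2 false true true .pnp 0 1 2 (qsf 0 536870912 0 536870912 1) ndN0q0 ndN0q2 pcN1 cut_pp_012 Ext.none)

def k0_pp_012 : ∃ t, chk3 f_pp_012 t 2 1 1 = true :=
  ⟨(b (a (b (l 2) (l 3)) (b (a (a (a (l 2) (b (c (c (l 72041365511) (l 16777216)) (c (l 16777216) (l 16777216))) (b (a (l 2) (b (c (l 264241152007) (l 16777216)) (c (l 252497100807) (l 238538457095)))) (l 3)))) (b (c (c (c (l 16777216) (l 16777216)) (c (l 16777216) (l 16777216))) (c (c (l 16777216) (l 16777216)) (l 16777216))) (c (c (b (c (l 30232543239) (l 16777216)) (a (l 263234519047) (b (l 16777216) (l 251960229895)))) (b (a (l 16777216) (l 16777216)) (a (l 256792068103) (b (l 16777216) (l 244444037127))))) (c (b (a (l 16777216) (l 16777216)) (a (l 249275875335) (l 193441300487))) (b (l 16777216) (a (l 260550164487) (l 183240753159))))))) (b (c (a (c (b (l 16777216) (l 16777216)) (l 16777216)) (c (b (l 16777216) (l 16777216)) (l 16777216))) (a (c (l 16777216) (l 16777216)) (c (l 16777216) (l 16777216)))) (c (c (a (b (l 16777216) (a (l 30232543239)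 (l 16777216))) (b (l 16777216) (l 16777216))) (a (c (l 16777216) (l 16777216)) (b (l 16777216) (l 16777216)))) (c (a (b (l 16777216) (l 16777216)) (l 16777216)) (a (b (l 16777216) (l 16777216)) (l 16777216)))))) (a (l 3) (b (a (b (c (a (c (l 256792068103) (l 248202133511)) (c (b (l 16777216) (l 237464715271)) (l 187535720455))) (c (a (l 238538457095) (l 177335173127)) (l 188072591367))) (l 3)) (c (c (b (l 43117445127) (a (l 243370295303) (b (l 16777216) (l 216526749703)))) (b (l 16777216) (a (l 233706618887) (b (l 16777216) (l 206863073287))))) (c (b (l 16777216) (a (l 222969200647) (l 159081562119))) (b (l 16777216) (l 172503334919))))) (l 3))))) (l 3)), by decide +kernel⟩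

def k1_pp_012 : ∃ t, chk3 f_pp_012 t 12 2 1 = true :=
  ⟨(b (b (c (a (b (l 16777168) (c (l 16777176) (l 16777176))) (b (l 16739424) (a (l 16759960) (l 16726720)))) (a (b (l 16777168) (c (l 16777176) (l 16777176))) (b (l 16738096) (a (l 16759352) (l 16724944))))) (a (c (c (b (l 16777184) (l 16777192)) (c (l 16777184) (l 16777184))) (c (l 16777184) (l 16777184))) (c (b (c (l 16706864) (l 16727336)) (c (l 16754360) (l 16753960))) (b (c (l 16747808) (l 16747296)) (c (l 16753552) (l 16753144)))))) (b (c (a (c (c (l 51707374375) (l 16777208)) (b (l 16777200) (l 16777208))) (c (b (l 16760088) (l 16765760)) (b (l 16759784) (l 16765560)))) (a (c (b (l 16777200) (l 16777208)) (b (l 16777200) (l 16777208))) (c (b (l 16759488) (l 16765360)) (l 16751680)))) (b (a (c (a (b (c (l 204178718727) (l 194515042311)) (l 3)) (c (b (l 16777208) (l 185388237543)) (b (l 16777208) (l 176798302951)))) (c (a (l 204178718727) (l 136532981671)) (a (l 191293816839) (l 16777208)))) (c (c (a (l 16774936) (l 16766376)) (a (l 16774904) (l 16766184)))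 (c (l 16771176) (l 16771072)))) (a (l 3) (c (a (b (c (l 161229040007) (l 155323459975)) (c (l 271287582711) (l 268066357239))) (c (b (l 16772464) (l 138680452679)) (b (l 16772384) (l 134385485335)))) (c (a (l 176798294407) (l 104857573255)) (a (l 168745230711) (l 16773776)))))))), by decide +kernel⟩

def k2_pp_012 : ∃ t, chk3 f_pp_012 t 13 2 1 = true :=
  ⟨(b (a (b (c (c (l 16663616) (l 16661640)) (c (l 16659624) (l 16657584))) (c (c (b (l 16662072) (a (l 16711248) (l 16678520))) (b (l 16681408) (l 16631056))) (b (a (l 16697600) (l 16658104)) (a (l 16708336) (l 16674160))))) (a (c (b (l 16592168) (c (l 16611104) (l 16629544))) (b (l 16585672) (b (l 16614736) (l 16635080)))) (c (b (c (l 16488672) (l 16483640)) (c (l 16510728) (l 16527416))) (b (l 16413032) (c (l 16523072) (l 16518656)))))) (a (c (b (c (b (l 16711064) (l 16705944)) (b (l 16709912) (l 16726040))) (c (b (a (l 16751992) (l 16731912)) (a (l 16765128) (l 16749952))) (b (l 16742040) (a (l 16764920) (l 16749472))))) (b (c (l 16675008) (l 16694928))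 (c (b (l 16741424) (a (l 16764704) (l 16748992))) (b (l 16740800) (l 16757224))))) (a (c (b (b (c (l 16658856) (l 16656792)) (l 16661488)) (c (b (l 16706256) (l 16729064)) (b (l 16705016) (l 16728224)))) (b (b (l 16653632) (l 16679136)) (c (b (l 16703760) (l 16727376)) (l 16693528)))) (c (b (a (b (c (a (l 16625112) (l 16585760)) (l 16539744)) (c (l 16613752) (l 16632240))) (b (c (l 16524960) (l 16520560)) (l 16530392))) (a (b (c (l 16623080) (l 16642096)) (c (l 16653176) (l 16672720))) (c (b (l 16586480) (l 16619440)) (l 16557968)))) (b (b (a (c (l 16599624) (l 16596544)) (l 16513832)) (a (l 16586496) (l 16543432))) (a (c (b (l 16661080) (l 16671264)) (b (l 16659064) (l 16690760))) (c (l 16596832) (l 16593696)))))))), by decide +kernel⟩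

def k3_pp_012 : ∃ t, chk3 f_pp_012 t 6 12 1 = true :=
  ⟨(b (a (b (a (l 3) (c (c (l 231022264231) (l 225653555111)) (c (l 258402680743) (l 256255197095)))) (l 3)) (a (c (a (b (c (a (l 16775864) (l 16772536)) (l 101099492007)) (c (b (l 178408908231) (l 3)) (l 188609461623))) (c (b (l 16763392) (b (l 16770080) (l 82309010791))) (b (l 16763152) (l 63518526551)))) (c (a (b (l 16773968) (l 188072583159)) (b (l 16762904) (l 16771488))) (a (b (l 16773912) (l 185925099175)) (l 59760385063)))) (a (c (c (b (l 16746072) (l 16757368)) (l 16730312)) (c (l 16729856) (l 16750368))) (c (c (a (a (l 16735824) (l 16692920)) (l 16631224)) (a (a (l 16735104) (l 16712784)) (l 16650016))) (a (b (a (l 16726840) (l 16702688)) (c (l 16709936) (l 16730104))) (c (l 16647800) (l 16645552))))))) (a (l 3) (b (a (a (l 3) (c (c (a (l 238538457079) (l 129553652855)) (a (l 244444037111) (l 135459227591))) (c (l 158544675911) (l 158007804647)))) (a (c (c (a (l 16771928) (l 16764584)) (c (l 16768192) (l 16768112))) (c (l 16767992) (l 16767832)))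 (c (a (c (a (l 16756352) (l 16717048)) (a (l 16755984) (l 16737336))) (c (b (l 16672712) (a (l 16701640) (l 16667512))) (b (l 16670888) (l 16662992)))) (a (c (l 16704360) (l 16724800)) (c (l 16635160) (l 16654392)))))) (a (l 3) (a (c (c (a (l 198810009127) (b (l 16773144) (l 123111203911))) (c (l 119353098151) (l 120426839943))) (c (a (l 216526743959) (l 83382751783)) (l 126869282903))) (c (c (a (a (l 16769904) (b (l 16729072) (a (l 16767120) (l 16729520)))) (a (b (l 16692272) (l 16715336)) (l 16670288))) (a (a (l 16769776) (a (l 16762912) (l 16724368))) (a (b (l 16712128) (l 16714640)) (l 16690160)))) (a (c (a (l 16769648) (l 16712080)) (a (l 16769520) (l 16753624))) (b (c (l 16682120) (l 16701816)) (c (l 16710848) (l 16731064)))))))))), by decide +kernel⟩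

def k4_pp_012 : ∃ t, chk3 f_pp_012 t 6 13 1 = true :=
  ⟨(a (l 3) (a (l 3) (b (a (l 3) (a (b (b (a (b (c (c (l 16776792) (l 16776784)) (l 124184948023)) (l 3)) (c (c (b (a (l 16773864) (l 16765400)) (a (l 175724505319) (l 16776080))) (b (l 16749528) (a (l 16748008) (l 16776072)))) (c (b (l 16770384) (l 16754752)) (b (l 16770280) (l 16775696))))) (l 3)) (l 3)) (c (b (c (b (c (l 16744280) (l 16744216)) (c (l 81235167111) (l 82845778503))) (b (l 16744120) (c (l 16711616) (l 16732568)))) (b (c (a (l 3) (l 257865754007)) (l 279340557383)) (l 3))) (c (b (b (l 16764968) (l 16711568)) (l 300815357127)) (b (b (l 16764832) (l 16753472)) (l 319605812599)))))) (l 3)))), by decide +kernel⟩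

def k5_pp_012 : ∃ t, chk3 f_pp_012 t 6 7 1 = true :=
  ⟨(l 3), by decide +kernel⟩

def k6_pp_012 : ∃ t, chk3 f_pp_012 t 14 4 1 = true :=
  ⟨(a (c (b (c (l 16146672) (l 16179080)) (c (b (l 16267472) (l 16207952)) (b (l 16258584) (l 16283376)))) (b (c (l 16211344) (l 16201520)) (c (l 16178280) (l 16253232)))) (c (b (a (c (l 15964144) (l 15949960)) (b (l 15817784) (l 15859480))) (a (b (c (l 16009040) (l 15995648)) (c (a (l 16077792) (l 16011272)) (l 16033968))) (b (l 15912064) (c (l 15983160) (l 15969552))))) (b (a (c (l 15935568) (l 15920960)) (c (l 15815608) (l 15799040))) (a (b (l 15975160) (c (l 16021064) (l 16007952))) (b (l 15882056) (l 15948728)))))), by decide +kernel⟩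

def k7_pp_012 : ∃ t, chk3 f_pp_012 t 28 5 1 = true :=
  ⟨(b (c (a (b (c (l 16358848) (l 16394224)) (c (b (l 16375800) (l 16434432)) (l 16355544))) (b (c (l 16232104) (l 16222600)) (c (b (l 16251904) (a (l 16305864) (a (l 16243312) (l 16207936)))) (b (l 16242744) (a (l 16297640) (l 16217008)))))) (a (b (c (l 16387560) (l 16380792)) (c (l 16412216) (l 16405880))) (b (l 16208056) (c (b (l 16233440) (l 16248520)) (l 16212824))))) (c (a (b (c (l 16459336) (l 16453784)) (c (b (l 16484128) (l 16461544)) (a (l 16530728) (l 16447672)))) (b (c (a (l 16333592) (b (l 16255792) (l 16298376))) (a (l 16325848) (l 16270976))) (c (a (b (l 16374392) (l 16421872)) (l 16381952)) (a (l 16373304) (l 16375200))))) (a (b (c (l 16448160) (l 16442448)) (c (l 16442872) (l 16479736))) (b (c (a (l 16318000) (l 16262216)) (l 16244264)) (c (a (l 16387656) (l 16368344)) (l 16330528)))))), by decide +kernel⟩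

def k8_pp_012 : ∃ t, chk3 f_pp_012 t 29 5 1 = true :=
  ⟨(b (c (a (b (c (a (l 16112192) (l 16074280)) (a (l 16100600) (l 16062120))) (b (c (l 16142608) (l 16131640)) (c (a (l 16189056) (l 16179616)) (l 16174184)))) (b (c (l 16058288) (l 16046072)) (c (l 16145376) (l 16134776)))) (a (b (c (l 16072664) (l 16060488)) (c (b (l 16120504) (l 16163840)) (l 16133456))) (c (b (l 16033664) (l 16124008)) (l 16067736)))) (c (a (b (c (b (a (l 16234648) (l 16228176)) (l 16283368)) (b (a (l 16225312) (l 16218864)) (l 16275000))) (c (l 16347544) (l 16361728))) (b (c (b (a (l 16221552) (l 16215832)) (a (l 16272696) (b (l 16255656) (l 16283528)))) (b (l 16167152) (a (l 16264376) (l 16262320)))) (c (a (l 16359352) (l 16292552)) (a (l 16352632) (l 16348848))))) (a (b (c (b (l 16212368) (l 16266512)) (l 16207752)) (c (l 16354832) (l 16347832))) (b (c (a (l 16209656) (b (l 16197272) (l 16254000))) (b (l 16190152) (l 16246192))) (c (a (l 16345808) (l 16342120)) (l 16336280)))))), by decide +kernel⟩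

def k9_pp_012 : ∃ t, chk3 f_pp_012 t 30 2 1 = true :=
  ⟨(b (c (b (c (a (l 15813640) (l 15783264)) (a (l 15797312) (l 15766808))) (c (a (l 15947936) (l 15905024)) (a (l 15912696) (l 15890784)))) (b (c (l 15702240) (l 15748224)) (c (a (l 15898208) (l 15876304)) (a (l 15883488) (l 15861592))))) (b (c (b (a (c (l 16040224) (l 16028040)) (l 16019680)) (a (c (l 16132544) (l 16122072)) (c (l 16123560) (l 16113328)))) (b (a (l 16009392) (l 15995216)) (a (l 16106032) (l 16055704)))) (a (b (c (c (b (l 16209744) (l 16265864)) (l 16229448)) (c (l 16220784) (l 16211968))) (c (a (b (c (b (l 16310496) (l 16338896)) (l 16316792)) (c (l 16382312) (l 16376376))) (b (c (b (l 16309936) (l 16340896)) (l 16319152)) (c (l 16382368) (l 16376616)))) (a (c (b (l 16309648) (l 16370328)) (l 16331856)) (c (b (l 16312232) (l 16370760)) (b (l 16305184) (l 16364784)))))) (b (c (c (b (l 16205216) (l 16264464)) (l 16226832)) (c (l 16218504) (l 16210016))) (b (c (c (l 16327384) (l 16320896)) (c (l 16314288) (l 16307552))) (a (c (c (b (l 16375176)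 (l 16404400)) (b (l 16369472) (l 16399232))) (c (l 16378072) (l 16372400))) (a (c (b (l 16374992) (c (l 16412152) (l 16407264))) (c (l 16384728) (l 16379320))) (c (l 16394736) (l 16384392))))))))), by decide +kernel⟩

def k10_pp_012 : ∃ t, chk3 f_pp_012 t 31 2 1 = true :=
  ⟨(b (c (b (b (l 15705600) (l 15761568)) (b (a (l 15839256) (l 15821208)) (a (l 15917656) (l 15904984)))) (b (c (l 15709360) (l 15692336)) (b (a (l 15809064) (l 15791336)) (a (l 15890336) (l 15878152))))) (b (c (a (b (l 16008936) (l 16113664)) (b (l 16002096) (l 16113128))) (a (b (l 15984960) (l 16093520)) (b (l 15978792) (l 16093848)))) (c (b (a (c (l 16236424) (l 16228672)) (c (l 16242408) (l 16235184))) (a (c (b (l 16333872) (l 16404152)) (b (l 16327896) (l 16399448))) (b (l 16342544) (l 16364800)))) (b (a (c (l 16220776) (l 16212728)) (c (l 16227816) (l 16220288))) (a (c (l 16295472) (l 16352816)) (c (l 16372856) (l 16367904))))))), by decide +kernel⟩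

def k11_pp_012 : ∃ t, chk3 f_pp_012 t 14 12 1 = true :=
  ⟨(a (c (b (a (b (a (l 16557856) (c (l 16500496) (l 16495688))) (a (c (b (l 16576216) (l 16594680)) (l 16563432)) (c (l 16557400) (l 16553632)))) (c (b (l 16477424) (l 16542440)) (l 16442688))) (a (a (b (c (b (l 16619776) (l 16651872)) (l 16613128)) (c (l 16663120) (l 16682952))) (c (b (l 16624904) (l 16675176)) (b (l 16622384) (l 16674008)))) (b (c (l 16590200) (l 16608600)) (c (a (l 16666832) (l 16659280)) (a (l 16665648) (l 16679072)))))) (b (a (a (b (l 16550144) (c (l 16581056) (l 16577664))) (b (l 16467368) (l 16547872))) (c (l 16501080) (l 16496488))) (a (b (c (a (l 16631648) (l 16619832)) (l 16581248)) (c (l 16656080) (l 16675856))) (b (c (l 16605992) (l 16603336)) (c (l 16639408) (l 16659144)))))) (c (c (b (a (l 16430712) (b (l 16450128) (l 16517144))) (a (b (l 16596680) (a (l 16652744) (l 16668432))) (b (l 16588144) (l 16642336)))) (b (a (l 16489160) (l 16416544)) (a (b (l 16594136) (l 16659136)) (b (l 16585768) (l 16662336))))) (b (a (c (l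 16484624) (l 16480008)) (c (l 16433112) (l 16470576))) (a (b (c (l 16591560) (l 16588928)) (a (l 16628840) (l 16644664))) (c (b (l 16583344) (l 16661344)) (l 16557824)))))), by decide +kernel⟩

def k12_pp_012 : ∃ t, chk3 f_pp_012 t 14 26 1 = true :=
  ⟨(a (c (a (a (b (c (b (b (l 16750648) (l 16759560)) (l 16744736)) (b (l 16735592) (l 16765640))) (a (b (c (a (l 133311673559) (l 16754224)) (l 131164184903)) (l 3)) (c (b (l 16771440) (c (l 138680337415) (l 145659658615))) (b (l 16771400) (l 211694836823))))) (b (c (b (l 16730168) (l 16754920)) (b (l 16727392) (l 16754784))) (c (b (l 16742344) (c (l 45264858423) (l 16751208))) (b (l 16763224) (a (l 16732528) (l 16768976)))))) (b (c (b (a (l 16719880) (l 16729856)) (a (l 16743760) (l 16732056))) (b (b (l 16730632) (l 16731672)) (l 16737880))) (c (a (b (l 16752160) (l 16739712)) (b (l 16719536) (l 16749080))) (a (b (l 16752000) (l 16760576)) (b (l 16719288) (l 16748888)))))) (a (b (c (b (a (l 16756416) (l 16748200)) (l 16739336)) (b (l 16730912) (l 16760208))) (c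 (a (b (l 16731632) (l 248738894743)) (b (l 16763136) (l 16751160))) (a (b (l 16773544) (l 265918763191)) (l 43117366743)))) (b (c (b (l 16714584) (l 16737616)) (b (l 16735352) (l 16737344))) (c (c (l 16729432) (l 16729344)) (a (l 16755872) (l 16743984)))))) (c (a (b (c (b (b (l 16714872) (l 16685984)) (l 16692280)) (b (l 16689504) (l 16691800))) (c (a (c (l 16711496) (l 16711328)) (c (l 16698392) (l 16698168))) (a (l 16711088) (l 16697832)))) (b (c (a (b (l 16689336) (l 16691896)) (l 16653712)) (b (l 16680936) (l 16662584))) (c (a (l 16684104) (l 16668664)) (a (l 16683512) (l 16688880))))) (a (b (c (b (l 16710048) (l 16691320)) (b (l 16709616) (l 16690832))) (c (a (l 16710752) (l 16697384)) (b (l 16699640) (l 16708568)))) (b (c (b (l 16680192) (l 16682768)) (b (l 16679440) (l 16681976))) (c (a (l 16703888) (l 16688112)) (a (l 16703288) (l 16687344))))))), by decide +kernel⟩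

def k13_pp_012 : ∃ t, chk3 f_pp_012 t 14 54 1 = true :=
  ⟨(a (a (a (l 3) (b (c (c (a (l 258939477143) (b (l 16754424) (l 145659683975))) (a (l 272898117655) (l 130090420551))) (c (l 160155109911) (l 110226110791))) (l 3))) (c (c (a (b (c (l 16748440) (l 16748416)) (a (b (l 129016697367) (l 3)) (c (l 59223489063) (l 60297230375)))) (b (l 16736800) (c (l 16745632) (l 16745600)))) (a (b (l 16748384) (c (a (l 242296504407) (l 16732944)) (l 84456333303))) (c (l 16741000) (l 16740944)))) (c (a (b (l 16769304) (c (l 91972523319) (l 16689104))) (l 16751352)) (a (b (l 16769248) (l 87677550487)) (l 16761728))))) (c (a (c (a (b (l 16724656) (a (l 16736592) (l 16730400))) (b (l 16711720) (l 16720760))) (a (b (l 16724424) (l 16754368)) (c (l 16715880) (l 16715720)))) (a (c (c (l 16702376) (l 16702160)) (c (l 16701936) (l 16701712))) (c (b (l 16703640) (l 16692096)) (l 16686648)))) (a (c (a (l 16728576) (l 16715488)) (a (l 16749344) (l 16715168))) (c (a (l 16701384) (l 16686048)) (a (l 16700928) (l 16706416)))))), by decide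 +kernel⟩

def k14_pp_012 : ∃ t, chk3 f_pp_012 t 14 55 1 = true :=
  ⟨(a (a (l 3) (a (a (l 3) (b (c (c (b (l 257865746567) (l 3)) (l 240148908183)) (c (l 250349513911) (l 16660400))) (l 3))) (b (c (a (c (b (c (l 16733784) (l 16754752)) (a (l 3) (l 135996027191))) (b (l 16733768) (l 154249592215))) (c (c (l 16751768) (l 16751752)) (b (l 16770272) (l 16754112)))) (c (c (l 67276486199) (l 16711392)) (l 66739611271))) (a (l 3) (b (c (c (c (l 219747945751) (l 190756881031)) (l 197736202103)) (c (l 16718880) (l 16760064))) (l 3)))))) (c (a (c (a (b (c (l 16742616) (l 16742568)) (b (c (l 16749536) (l 16749512)) (a (a (l 232632844039) (c (l 16755248) (l 16755240))) (l 16750984)))) (b (c (l 16729976) (l 16729880)) (c (b (l 16736952) (l 16741624)) (l 16739184)))) (a (b (a (l 16766488) (l 16739328)) (a (c (b (l 16773480) (l 116668657751)) (l 103246880279)) (l 16748576))) (b (l 16729728) (b (l 16736768) (l 16741480))))) (c (a (b (c (l 16716432) (l 16716264)) (c (l 16725880) (l 16725760))) (b (a (l 16726360) (l 16718720))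 (c (l 16711448) (l 16711256)))) (a (b (l 16716024) (c (l 16725640) (l 16725512))) (b (l 16701184) (c (l 16711064) (l 16710864)))))) (a (c (a (b (l 16763368) (c (l 50633520631) (l 16710384))) (b (l 16729520) (l 16738960))) (a (b (l 16763264) (l 47949162087)) (l 16733928))) (a (c (b (l 16715696) (l 16725328)) (l 16720072)) (c (c (l 16705608) (l 16705392)) (c (l 16705168) (l 16704952))))))), by decide +kernel⟩

def k15_pp_012 : ∃ t, chk3 f_pp_012 t 28 14 1 = true :=
  ⟨(l 3), by decide +kernel⟩

def k16_pp_012 : ∃ t, chk3 f_pp_012 t 58 28 1 = true :=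
  ⟨(b (a (a (l 3) (b (c (c (c (b (a (l 111299972887) (l 16775192)) (l 237464654839)) (b (l 64055327511) (l 240685878647))) (b (c (l 64592197591) (l 16733968)) (a (l 3) (l 139217230455)))) (c (c (l 123647913207) (l 127406006967)) (l 133311583399))) (l 3))) (b (c (c (a (b (l 16759912) (c (a (l 90898898103) (l 16773544)) (l 50633575431))) (c (l 16745392) (l 16766320))) (a (c (b (l 16770360) (l 16733528)) (l 16730992)) (b (l 16742920) (l 16768696)))) (c (c (l 36138046631) (l 16748696)) (l 30769335399))) (a (b (a (l 3) (c (c (c (b (l 16755672) (l 239612163975)) (l 210084282359)) (c (l 115058058391) (l 16726616))) (c (l 16726264) (l 16767744)))) (l 3)) (c (c (c (b (a (l 16759568) (l 16771936)) (a (l 229948479975) (a (b (l 16776472) (l 129553601367)) (l 76940275735)))) (b (l 16752688) (a (l 232632833271) (c (l 90898890999) (l 16744888))))) (c (b (l 16752672) (a (l 235317186567) (l 93583244231))) (b (l 16773632) (l 111299926391)))) (c (c (b (l 16773616) (l 113984277831)) (l 16712440)) (l 103783722039)))))) (l 3)),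 by decide +kernel⟩

def k17_pp_012 : ∃ t, chk3 f_pp_012 t 118 28 1 = true :=
  ⟨(b (c (c (c (a (b (l 16738800) (a (l 27011290743) (l 16757280))) (b (l 16731968) (b (l 16739312) (l 16744232)))) (b (a (l 16738736) (l 16731864)) (a (b (l 16746032) (l 16750920)) (l 16752160)))) (b (c (b (l 16732904) (l 16737768)) (l 16735216)) (c (a (l 16748408) (l 16741616)) (a (l 16748376) (l 16741560))))) (c (b (c (l 16735128) (l 16735048)) (c (l 16745008) (l 16744968))) (c (b (l 16734960) (l 16765888)) (l 16739728)))) (a (b (b (c (c (a (b (c (a (l 110226259431) (l 16755528)) (l 65129100311)) (c (l 237464676423) (l 239612158855))) (c (b (l 16773928) (c (l 53854824887) (l 16758136))) (c (l 45264888423) (l 16754336)))) (c (a (b (l 16755696) (l 135459147639)) (l 16754328)) (b (l 16754896) (l 74792727943)))) (c (c (l 60834080599) (l 16734072)) (l 16713088))) (a (l 3) (b (c (a (l 3) (b (c (c (l 16762592) (l 16754688)) (l 102710085575)) (l 3))) (c (l 128479833527) (l 16761232))) (l 3)))) (l 3)) (b (c (c (b (c (c (l 16749192) (l 16749176))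 (l 16759640)) (c (a (b (c (l 16765160) (l 16754672)) (a (l 232095979031) (c (l 88751433895) (l 89825175063)))) (b (l 16751224) (l 16769472))) (a (b (l 16754664) (a (l 234243461799) (l 91435787783))) (l 16762944)))) (c (b (l 16749128) (b (l 16752952) (a (l 105931271399) (l 16774688)))) (b (l 16770064) (c (l 50633560423) (l 16733560))))) (c (c (b (l 16770040) (l 47949204535)) (l 16730848)) (b (l 16769960) (l 16733544)))) (a (l 3) (b (c (c (a (b (c (b (l 94120150391) (l 3)) (l 107005028743)) (l 3)) (b (c (c (l 51707354999) (l 16755512)) (l 16766000)) (c (b (l 225116666839) (l 3)) (l 232095977159)))) (b (c (l 66202836919) (l 16755704)) (c (l 238001541367) (l 132237912279)))) (c (c (l 110763070759) (l 16723376)) (l 183240692615))) (l 3)))))), by decide +kernel⟩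

def k18_pp_012 : ∃ t, chk3 f_pp_012 t 119 56 1 = true :=
  ⟨(c (b (c (a (c (l 16745824) (l 16745696)) (c (l 16738448) (l 16738280))) (a (l 16724520) (l 16717056))) (c (a (c (l 16745224) (l 16734648)) (c (b (l 16745976) (l 16730048)) (l 16727368))) (a (c (l 16734560) (l 16734464)) (c (l 16727240) (l 16727112))))) (c (b (c (l 16720656) (l 16720504)) (c (l 16736672) (l 16730664))) (b (l 16720272) (c (l 16730552) (l 16730448))))), by decide +kernel⟩

def k19_pp_012 : ∃ t, chk3 f_pp_012 t 119 114 1 = true :=
  ⟨(a (c (c (b (c (l 16752760) (l 16742216)) (c (a (l 16759528) (l 16745552)) (c (l 16747288) (l 16747272)))) (c (b (l 16742152) (l 16747248)) (l 16744616))) (c (c (l 16744568) (l 16744520)) (l 16744440))) (c (c (c (b (a (l 16757864) (l 16754272)) (a (l 16762960) (l 16748920))) (b (l 16735032) (a (l 16762896) (l 16738352)))) (c (b (l 16734936) (l 16740096)) (a (l 16739184) (l 16735560)))) (c (c (l 16737320) (l 16737232)) (l 16737112)))), by decide +kernel⟩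

def k20_pp_012 : ∃ t, chk3 f_pp_012 t 119 115 1 = true :=
  ⟨(c (b (c (c (a (a (b (l 16763336) (a (b (l 16768784) (a (l 211158002023) (l 94120157895))) (l 16770272))) (c (l 16761136) (l 16750640))) (a (l 16763496) (b (l 16742312) (l 16760632)))) (a (a (b (l 16773800) (c (a (l 88214560695) (l 16775504)) (l 55465433575))) (l 16761112)) (a (l 16747080) (l 16759272)))) (c (a (a (b (l 16773792) (l 54391691255)) (l 16750600)) (a (l 16747040) (l 16743488))) (a (a (l 16754248) (l 16750576)) (l 16745240)))) (a (a (b (c (a (l 3) (c (b (c (l 90362053207) (l 73719054551)) (a (l 3) (l 209547389159))) (b (l 91435794583) (l 211157993847)))) (c (l 220821686791) (l 117742410071))) (l 3)) (c (a (b (c (c (b (l 16775696) (l 62444773111)) (l 69424094023)) (l 51707353927)) (c (c (l 226190397703) (l 227264139031)) (l 229411621911))) (c (b (l 16764112) (a (b (l 75329683335) (l 207936776391)) (b (l 16776096) (c (l 89288319495) (l 16765328))))) (b (l 16753616) (c (l 84993334231) (l 86067075735))))) (c (b (l 16754568) (a (l 232095975447)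 (l 88214558967))) (c (l 86603909383) (l 16734456))))) (c (c (a (b (l 16761480) (c (l 16769328) (l 16764072))) (a (c (l 16749616) (l 16749600)) (b (l 16757160) (c (l 16759784) (l 16749288))))) (a (c (l 16762760) (l 16752264)) (a (l 16749576) (c (l 16747952) (l 16747936))))) (c (a (l 16762736) (a (l 16749544) (l 16747904))) (c (l 16750496) (l 16750488)))))) (c (a (c (b (l 16752456) (a (l 233706561911) (l 89825133543))) (b (l 16773408) (l 107004930023))) (c (b (l 16745192) (l 16750472)) (l 16747760))) (a (c (b (l 16773392) (l 16702008)) (l 16712568)) (c (l 16747720) (l 16768656))))), by decide +kernel⟩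

def k21_pp_012 : ∃ t, chk3 f_pp_012 t 29 29 1 = true :=
  ⟨(a (l 3) (a (l 3) (a (l 3) (b (b (b (c (c (a (b (b (c (a (c (a (l 103783826103) (l 16766504)) (l 171429585319)) (l 16775624)) (a (l 72645311895) (l 16775616))) (a (c (l 235317206455) (l 207936768039)) (c (c (a (l 86603964663) (l 16776504)) (l 62444773111)) (l 61371030631)))) (a (l 3) (b (c (c (l 217600474119) (l 218674215623)) (l 220821698775)) (l 3)))) (b (c (a (l 16769256) (a (l 16762672) (l 16769992))) (a (l 16753520) (l 16767632))) (c (a (b (c (l 62981652263) (l 16766040)) (a (l 231559117719) (c (l 84456481159) (l 85530222615)))) (a (b (l 16775128) (l 16771224)) (a (l 16764632) (l 16764768)))) (a (c (a (l 90898914087) (l 16764344)) (l 82845849431)) (a (l 16775792) (l 16770008)))))) (a (b (c (c (l 67276574823) (l 66739703255)) (l 65129089863)) (c (l 232632829735) (l 235854053559))) (c (b (l 16763184) (a (l 84456461671) (l 16770272))) (a (l 73182170615) (l 16753192))))) (c (c (a (b (l 16734736) (l 129016676199)) (b (l 16773640) (l 16755456))) (a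 (l 174113882967) (l 16754144))) (c (l 56002215527) (l 16713104)))) (a (l 3) (a (l 3) (b (b (c (c (b (c (a (l 90898936455) (a (l 16776768) (l 16770840))) (a (l 16764768) (a (l 16776768) (l 16776080)))) (a (l 3) (c (a (b (l 16766344) (c (l 115595001623) (l 16762936))) (b (l 16771512) (l 16777144))) (a (b (l 16776816) (l 16762832)) (l 66202885351))))) (c (a (l 105394435479) (a (l 16767848) (l 16771384))) (a (l 16771760) (b (l 16776552) (l 16756120))))) (c (c (l 67276595527) (l 16776368)) (l 16755360))) (a (l 3) (a (l 3) (c (c (c (l 263771372455) (l 115058104903)) (c (l 16746816) (l 16767448))) (c (l 16745968) (l 16766248)))))) (l 3))))) (l 3)) (l 3))))), by decide +kernel⟩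

def k22_pp_012 : ∃ t, chk3 f_pp_012 t 14 15 1 = true :=
  ⟨(l 3), by decide +kernel⟩

def k23_pp_012 : ∃ t, chk3 f_pp_012 t 60 6 1 = true :=
  ⟨(b (c (b (c (a (l 16455152) (l 16449832)) (a (l 16471920) (l 16445712))) (b (c (l 16549880) (l 16547512)) (a (l 16608736) (l 16614080)))) (b (c (a (l 16467640) (l 16462480)) (a (l 16463272) (l 16458184))) (c (a (l 16569296) (l 16555576)) (a (l 16567568) (l 16553752))))) (b (c (b (c (a (l 16668248) (l 16666680)) (a (l 16667408) (l 16665976))) (a (c (l 16685680) (l 16685000)) (c (l 16688384) (l 16687928)))) (b (c (a (l 16666568) (l 16665264)) (a (l 16665728) (l 16664560))) (c (a (l 16684320) (l 16687464)) (a (l 16683632) (l 16687008))))) (c (a (b (c (a (l 16683120) (l 16709104)) (l 16685400)) (c (a (b (l 16719632) (l 16730104)) (l 16698696)) (a (l 16703392) (l 16698384)))) (b (c (l 16692464) (l 16691968)) (c (b (l 16671744) (l 16672072)) (a (l 16679976) (l 16684360))))) (b (a (c (l 16705904) (l 16705440)) (c (l 16691456) (l 16690912))) (a (c (b (l 16722648) (l 16709304))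 (b (l 16722352) (l 16709072))) (c (a (l 16700352) (l 16683544)) (l 16669920))))))), by decide +kernel⟩

def k24_pp_012 : ∃ t, chk3 f_pp_012 t 61 6 1 = true :=
  ⟨(b (c (a (b (c (b (l 16445136) (l 16501712)) (l 16427736)) (c (l 16553376) (l 16551704))) (c (a (b (b (l 16454552) (l 16509392)) (l 16536896)) (b (c (c (a (l 16490280) (b (c (a (l 16465968) (l 16468032)) (l 16466296)) (l 16482864))) (l 16470440)) (l 16469192)) (c (c (a (l 16610448) (l 16513408)) (l 16592680)) (l 16592256)))) (b (b (a (l 16450448) (l 16458904)) (l 16512056)) (l 16500528)))) (a (b (c (l 16444728) (l 16461632)) (c (l 16549984) (l 16548216))) (b (a (c (l 16401168) (l 16449816)) (c (l 16442256) (l 16459696))) (c (l 16520144) (l 16518736))))) (c (a (a (b (b (l 16661168) (l 16677848)) (b (l 16652928) (c (l 16656200) (l 16650008)))) (b (b (l 16655760) (l 16670880)) (b (l 16664072) (b (l 16661504) (c (l 16672336) (l 16671432)))))) (b (c (a (b (l 16645176) (l 16672248)) (c (b (b (l 16577304) (l 16606880)) (l 16587344)) (l 16636408))) (b (l 16612344)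 (l 16640368))) (c (a (b (l 16666208) (b (l 16675416) (l 16674072))) (a (b (l 16679440) (l 16670912)) (c (c (b (l 16610056) (c (l 16600448) (l 16644696))) (l 16608880)) (l 16608448)))) (b (a (l 16665512) (l 16667096)) (b (l 16623912) (l 16616320)))))) (b (a (b (c (l 16657648) (l 16656936)) (c (l 16673320) (l 16672784))) (b (b (l 16585224) (l 16594464)) (c (l 16660632) (l 16659928)))) (a (a (b (l 16672424) (c (l 16649024) (l 16668984))) (b (l 16662384) (c (b (l 16659960) (l 16670496)) (l 16645080)))) (a (b (b (l 16664040) (l 16621160)) (c (l 16621536) (l 16641920))) (b (c (l 16666344) (l 16665608)) (l 16612960))))))), by decide +kernel⟩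

def k25_pp_012 : ∃ t, chk3 f_pp_012 t 124 12 1 = true :=
  ⟨(c (a (b (c (a (c (c (b (b (l 16454744) (l 16486864)) (l 16531792)) (b (c (a (l 16468888) (l 16449800)) (l 16469168)) (l 16487664))) (l 16455384)) (b (b (l 16454768) (c (c (a (l 16490304) (l 16450352)) (l 16469104)) (c (c (l 16468320) (l 16488848)) (l 16488240)))) (c (c (a (l 16537288) (l 16519376)) (l 16515336)) (c (l 16492536) (l 16533704))))) (b (l 16466720) (l 16529296))) (c (c (c (a (l 16544888) (l 16514136)) (a (l 16519848) (l 16550888))) (b (l 16530864) (l 16592472))) (l 16584656))) (b (b (b (l 16455552) (a (c (c (c (l 16494840) (a (l 16493280) (l 16474048))) (c (a (l 16492328) (l 16494160)) (l 16471272))) (l 16490248)) (b (l 16485184) (b (l 16499768) (c (c (l 16511304) (c (a (l 16509440) (l 16511224)) (l 16509496))) (l 16486728)))))) (c (c (a (c (l 16543824) (c (l 16501464) (l 16542592))) (l 16526824)) (c (a (l 16498984) (a (l 16545864) (l 16506544))) (a (l 16518448) (l 16482536)))) (c (l 16478208) (l 16539944)))) (c (c (a (c (l 16576416)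 (l 16524672)) (l 16568192)) (c (a (l 16536048) (b (l 16551936) (l 16581680))) (a (l 16553952) (l 16528712)))) (c (l 16535504) (l 16598168))))) (b (b (c (l 16465872) (l 16462136)) (c (l 16532352) (l 16529808))) (b (l 16555200) (l 16579968)))), by decide +kernel⟩

def k26_pp_012 : ∃ t, chk3 f_pp_012 t 124 13 1 = true :=
  ⟨(c (c (b (c (a (c (a (b (l 16602152) (l 16604248)) (b (l 16564568) (l 16580936))) (b (a (l 16585696) (l 16570664)) (a (l 16631144) (l 16588928)))) (b (a (c (l 16574544) (l 16554528)) (l 16565600)) (a (c (l 16582664) (l 16563080)) (l 16563904)))) (a (a (l 16597728) (b (l 16553640) (l 16573280))) (c (a (b (l 16560000) (l 16570312)) (b (a (l 16568312) (l 16539816)) (l 16541920))) (b (a (l 16584424) (l 16527552)) (a (l 16595896) (l 16569312)))))) (c (a (c (a (b (l 16605416) (l 16587192)) (b (l 16570816) (a (l 16578600) (l 16540728)))) (a (b (l 16591720) (c (l 16574400) (l 16618096))) (b (l 16601608) (l 16540568)))) (a (c (b (l 16565800) (l 16543744)) (b (l 16546552) (a (l 16553344) (l 16536800))))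 (b (l 16544184) (l 16521920)))) (a (b (l 16558216) (a (l 16617584) (c (l 16548240) (l 16590744)))) (a (c (b (l 16576456) (l 16514536)) (b (l 16582160) (l 16542320))) (c (b (l 16542960) (a (l 16527784) (l 16511624))) (b (l 16550952) (l 16488136))))))) (b (b (a (l 16600192) (b (l 16553416) (l 16560152))) (a (l 16621544) (c (l 16562616) (l 16582752)))) (a (b (l 16620424) (l 16602760)) (b (l 16526320) (c (a (l 16563088) (l 16514920)) (l 16548184)))))) (b (b (b (l 16582472) (l 16589920)) (c (l 16577568) (l 16575768))) (b (l 16549384) (c (l 16573296) (l 16570712))))), by decide +kernel⟩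

def k27_pp_012 : ∃ t, chk3 f_pp_012 t 125 12 2 = true :=
  ⟨(c (b (b (l 16482712) (a (c (l 16532464) (a (c (l 16551352) (a (l 16528768) (l 16510216))) (l 16534464))) (c (l 16520600) (l 16519904)))) (a (c (l 16577552) (c (l 16575376) (a (b (l 16557240) (l 16550992)) (l 16590920)))) (b (l 16587008) (l 16507152)))) (b (b (l 16479504) (a (c (a (c (c (l 16549848) (l 16507272)) (l 16527632)) (c (a (l 16511800) (l 16493280)) (a (l 16489752) (l 16534384)))) (l 16508064)) (a (c (c (l 16559456) (a (l 16495048) (l 16497456))) (c (c (l 16495576) (a (l 16535968) (l 16538528))) (l 16536680))) (c (l 16563728) (b (l 16543216) (c (a (l 16560160) (l 16562688)) (c (l 16539872) (l 16581472)))))))) (c (a (c (a (l 16539816) (b (l 16562672) (l 16541152))) (a (l 16583224) (l 16508848))) (a (c (l 16581216) (b (l 16568240) (l 16509752))) (l 16549328))) (a (l 16556920) (c (a (a (l 16543832) (l 16516360)) (b (l 16558992) (b (l 16557304) (l 16520576)))) (a (l 16562304) (b (c (l 16601336) (l 16601920)) (a (l 16523712) (l 16514656))))))))),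 by decide +kernel⟩

def k28_pp_012 : ∃ t, chk3 f_pp_012 t 125 13 2 = true :=
  ⟨(a (c (b (c (b (l 16525704) (l 16534216)) (b (a (c (l 16550544) (b (l 16552256) (l 16551080))) (l 16535088)) (a (c (l 16538640) (l 16538968)) (l 16516680)))) (c (b (l 16514672) (l 16492808)) (a (c (l 16484344) (b (l 16518096) (a (l 16501928) (l 16486168)))) (l 16462136)))) (b (c (a (b (c (b (l 16556040) (l 16555584)) (l 16536400)) (c (l 16544528) (l 16547968))) (c (b (b (l 16497040) (l 16529432)) (l 16514528)) (b (b (l 16521136) (l 16533176)) (l 16519200)))) (b (b (l 16550024) (l 16545888)) (l 16534480))) (c (b (a (c (l 16525088) (l 16529440)) (c (l 16492936) (l 16498896))) (a (c (l 16440408) (l 16508600)) (c (a (l 16475792) (l 16460448)) (l 16413296)))) (b (l 16515384) (l 16493952))))) (c (b (b (b (l 16494848) (l 16501568)) (l 16487520)) (b (l 16467112) (l 16402392))) (c (b (a (c (l 16501216) (b (b (l 16499288) (l 16505208)) (l 16489784))) (l 16478992)) (a (c (l 16455368) (b (l 16467480) (a (l 16449376) (l 16434464)))) (l 16432624)))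 (b (c (a (b (c (l 16493264) (l 16495392)) (c (l 16492208) (l 16495144))) (b (b (l 16496688) (l 16480664)) (l 16464736))) (a (b (l 16516904) (l 16495976)) (b (c (l 16468728) (l 16491520)) (c (l 16466440) (l 16469016))))) (c (a (b (c (l 16470632) (l 16474408)) (c (l 16446632) (l 16451272))) (b (l 16441728) (a (l 16422680) (l 16408224)))) (a (l 16463480) (b (c (l 16444016) (l 16447376)) (c (l 16419120) (l 16423296))))))))), by decide +kernel⟩

def k29_pp_012 : ∃ t, chk3 f_pp_012 t 125 6 3 = true :=
  ⟨(b (b (b (l 16474544) (c (a (l 16548448) (c (l 16517128) (l 16558144))) (l 16529912))) (c (c (b (l 16603744) (l 16515528)) (l 16523064)) (l 16501176))) (b (c (b (a (l 16544448) (l 16460696)) (l 16485664)) (b (l 16476944) (l 16503240))) (c (b (l 16465360) (a (l 16491104) (l 16436200))) (b (l 16482440) (l 16459184))))), by decide +kernel⟩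

def k30_pp_012 : ∃ t, chk3 f_pp_012 t 63 6 2 = true :=
  ⟨(b (a (b (b (l 16490776) (b (l 16551904) (c (a (l 16569512) (l 16598032)) (a (c (l 16589688) (a (c (l 16587224) (a (l 16585824) (l 16588328))) (l 16591696))) (l 16576120))))) (c (b (a (l 16588880) (b (l 16582072) (l 16543416))) (a (l 16495720) (l 16493472))) (a (c (b (l 16587624) (l 16492680)) (a (c (l 16513904) (b (l 16570344) (l 16458032))) (l 16456544))) (b (a (l 16548560) (l 16510952)) (l 16426632))))) (b (b (l 16482176) (a (l 16503384) (l 16538744))) (b (c (b (l 16505264) (l 16476456)) (a (l 16458320) (l 16475584))) (c (l 16421736) (l 16375128))))) (a (c (b (b (b (l 16383368) (l 16430888)) (l 16394752)) (b (l 16372816) (a (l 16395944) (l 16343296)))) (b (a (c (b (l 16457832) (l 16434728)) (c (l 16420904) (a (b (l 16400960) (l 16439384)) (l 16427792)))) (b (c (l 16410256) (l 16406760)) (l 16384056))) (a (c (b (l 16412440) (l 16387688)) (a (c (l 16404272) (b (l 16415688) (l 16368496))) (l 16380592))) (b (l 16360456) (l 16334336))))) (b (b (c (l 16340136)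 (l 16249944)) (c (l 16314176) (l 16307280))) (b (c (l 16288888) (l 16281392)) (a (l 16242720) (l 16231000)))))), by decide +kernel⟩

def k31_pp_012 : ∃ t, chk3 f_pp_012 t 63 12 3 = true :=
  ⟨(b (b (c (l 16450952) (l 16469080)) (b (a (l 16548192) (l 16548336)) (a (c (a (c (c (a (a (l 16585344) (l 16525048)) (l 16528376)) (a (l 16586120) (c (l 16530760) (l 16590872)))) (l 16587840)) (a (a (c (l 16572808) (l 16593216)) (l 16595056)) (l 16597664))) (l 16570040)) (l 16551360)))) (a (c (a (c (c (a (b (a (l 16615376) (l 16568016)) (a (l 16506920) (l 16475096))) (b (l 16539016) (l 16458160))) (a (l 16493248) (a (b (l 16605256) (l 16506960)) (c (l 16451336) (l 16451912))))) (l 16441016)) (a (c (c (l 16459328) (b (b (l 16586728) (l 16529032)) (l 16476024))) (c (a (b (l 16551016) (l 16503368)) (c (l 16411832) (l 16433088))) (l 16458152))) (c (b (l 16530488) (l 16474296)) (c (b (b (l 16552392) (l 16527992)) (l 16472216)) (a (b (l 16513744) (l 16478096)) (b (c (l 16525016) (l 16503928)) (l 16423360))))))) (b (a (l 16606240)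 (l 16515088)) (l 16421152))) (c (a (c (b (l 16477584) (l 16438152)) (a (b (c (l 16530080) (c (l 16529624) (l 16487400))) (l 16364040)) (l 16350736))) (b (l 16451560) (l 16387536))) (a (c (c (a (b (a (c (l 16492944) (l 16555704)) (c (l 16523160) (l 16501960))) (c (l 16383360) (l 16425000))) (b (l 16463552) (l 16421544))) (a (l 16435512) (b (a (l 16447744) (b (l 16547000) (l 16451336))) (c (l 16357640) (l 16420112))))) (l 16401512)) (a (c (c (l 16388120) (b (l 16439376) (l 16395472))) (c (a (b (l 16444416) (l 16400448)) (c (l 16380088) (a (l 16361592) (l 16334480)))) (l 16406112))) (c (l 16363224) (a (c (l 16325656) (b (c (l 16399568) (l 16483056)) (l 16311168))) (c (l 16397256) (c (l 16375440) (a (l 16294040) (b (l 16426880) (l 16357768)))))))))))), by decide +kernel⟩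

def k32_pp_012 : ∃ t, chk3 f_pp_012 t 126 13 3 = true :=
  ⟨(c (a (b (c (c (a (b (c (l 16422536) (l 16465952)) (c (l 16440416) (l 16442576))) (b (l 16396936) (l 16413728))) (a (l 16453840) (a (b (l 16446568) (l 16422520)) (c (l 16418728) (l 16420608))))) (l 16397544)) (c (c (a (b (c (l 16417152) (l 16420032)) (c (l 16391376) (l 16394992))) (b (l 16389352) (l 16362416))) (a (l 16407448) (a (l 16343800) (b (l 16383080) (l 16356192))))) (l 16391880))) (a (c (b (c (l 16402472) (b (l 16392584) (l 16387768))) (c (l 16351768) (b (l 16362728) (l 16335096)))) (b (a (b (l 16399160) (l 16395232)) (c (c (l 16392672) (l 16394000)) (l 16394056))) (c (a (l 16336392) (b (l 16355648) (l 16327920))) (l 16350288)))) (b (c (l 16356816) (c (b (l 16387896) (l 16361488)) (b (a (l 16394072) (c (l 16380352) (l 16380584))) (l 16318896)))) (c (l 16326344) (c (b (l 16335808) (l 16307496)) (b (l 16314320) (a (l 16315496) (l 16299416)))))))) (b (b (l 16381320) (l 16398280)) (b (l 16374104) (l 16347352)))), by decide +kernel⟩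

def k33_pp_012 : ∃ t, chk3 f_pp_012 t 127 13 3 = true :=
  ⟨(c (b (c (b (l 16286992) (l 16301840)) (a (a (b (c (l 16364080) (l 16288800)) (l 16336688)) (l 16303256)) (l 16285416))) (a (a (c (l 16301312) (b (l 16310800) (l 16261296))) (l 16250872)) (b (l 16246400) (l 16218152)))) (a (b (c (a (c (b (c (a (l 16367288) (l 16354096)) (l 16360456)) (c (l 16333616) (l 16333424))) (l 16345960)) (c (b (l 16335536) (l 16307936)) (a (b (l 16340192) (l 16312512)) (c (l 16312864) (l 16249432))))) (l 16330544)) (c (a (c (b (l 16265336) (c (l 16278064) (l 16278152))) (l 16291976)) (c (l 16265552) (c (a (l 16270304) (l 16256184)) (l 16242064)))) (l 16275312))) (c (b (a (b (c (l 16310416) (l 16308448)) (l 16281200)) (l 16268584)) (a (c (l 16239264) (l 16236456)) (l 16211520))) (b (a (c (a (b (l 16313080) (l 16284624)) (c (l 16285680) (a (l 16287960) (l 16281344)))) (l 16290232)) (c (l 16202760) (c (a (b (l 16286112) (l 16256960)) (l 16257648)) (a (l 16269944) (b (a (l 16275488) (l 16268864)) (l 16242552)))))) (a (c (a (l 16240920)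 (c (l 16227784) (l 16226640))) (l 16232496)) (c (b (l 16223088) (l 16194008)) (c (a (b (l 16228472) (l 16197688)) (l 16199440)) (a (l 16211224) (b (l 16213600) (a (l 16186992) (l 16180976))))))))))), by decide +kernel⟩

def k34_pp_012 : ∃ t, chk3 f_pp_012 t 60 56 2 = true :=
  ⟨(a (c (a (b (l 16719752) (c (l 16727984) (l 16727920))) (b (l 16702192) (c (l 16704792) (l 16725528)))) (a (c (b (l 16740568) (l 16727856)) (l 16724800)) (b (l 16701776) (l 16704200)))) (b (c (a (l 16702952) (l 16665056)) (a (l 16702248) (l 16664128))) (a (c (b (l 16703744) (a (l 16709656) (l 16701744))) (b (l 16702976) (a (l 16708920) (l 16700904)))) (c (b (l 16692400) (l 16702656)) (b (l 16691512) (l 16701912)))))), by decide +kernel⟩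

def k35_pp_012 : ∃ t, chk3 f_pp_012 t 60 57 2 = true :=
  ⟨(a (b (c (a (c (b (l 16730856) (l 16732808)) (b (l 16730776) (l 16732720))) (b (a (l 16733440) (l 16721712)) (a (l 16724400) (b (l 16723120) (a (l 16726976) (l 16725088)))))) (a (c (b (l 16730696) (l 16732632)) (l 16731616)) (b (l 16706000) (a (l 16734416) (c (l 16703888) (l 16724552)))))) (b (a (c (c (a (l 16741440) (l 16728264)) (c (l 16734704) (l 16734656))) (c (l 16734576) (l 16734480))) (b (c (a (c (l 16726200) (l 16736448)) (l 16731904)) (a (a (l 16738680) (l 16733240)) (l 16731392))) (c (a (a (c (l 16740928) (l 16740712)) (l 16738584)) (l 16739072)) (a (c (l 16718768) (l 16739520)) (l 16738672))))) (a (c (a (c (b (l 16743040) (l 16754600)) (l 16754016)) (b (c (a (l 16753904) (b (l 16747224) (l 16748800))) (a (l 16753776) (l 16737600))) (a (c (b (l 16754784) (a (l 16757072) (l 16755456))) (b (l 16754656) (l 16756344))) (c (l 16753392) (l 16753256))))) (a (c (l 16743472) (l 16743416)) (c (b (l 16740440) (a (l 16734656) (l 16753120))) (b (l 16729800)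 (a (l 16755496) (l 16752976)))))) (c (b (c (a (l 16745928) (l 16746448)) (l 16740704)) (c (l 16748224) (l 16732392))) (c (a (l 16728392) (l 16728912)) (l 16728440)))))) (b (c (a (b (a (b (l 16710832) (l 16713936)) (l 16711184)) (a (l 16722712) (l 16724720))) (c (l 16701328) (l 16701104))) (a (b (a (c (l 16712384) (l 16712016)) (l 16710472)) (c (l 16723224) (l 16722944))) (c (l 16700872) (l 16700640)))) (c (a (c (b (l 16716664) (l 16730792)) (b (l 16716496) (l 16730728))) (b (l 16721128) (c (l 16718608) (l 16718464)))) (a (c (b (l 16716328) (l 16730664)) (l 16723416)) (c (l 16721424) (l 16721320)))))), by decide +kernel⟩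

def k36_pp_012 : ∃ t, chk3 f_pp_012 t 60 28 3 = true :=
  ⟨(b (a (c (b (a (l 16740304) (l 16701344)) (a (l 16727680) (l 16703712))) (c (b (l 16712112) (l 16715136)) (l 16692656))) (c (b (a (l 16701528) (l 16684144)) (a (b (l 16702184) (l 16683496)) (b (l 16690600) (l 16701144)))) (b (a (l 16700776) (l 16683160)) (a (l 16682048) (l 16674744))))) (a (c (a (b (c (l 16731528) (l 16731440)) (b (c (l 16734376) (l 16734272)) (a (l 16743328) (c (b (l 16750616) (l 16733496)) (l 16732008))))) (b (b (l 16726440) (a (l 16733944) (c (l 16724248) (l 16723944)))) (b (a (c (l 16717104) (l 16737848)) (l 16734592)) (c (l 16728296) (l 16749128))))) (b (a (l 16731304) (c (l 16707000) (l 16706720))) (a (b (l 16734112) (a (l 16743208) (c (l 16731864) (l 16752688)))) (b (a (l 16716528) (l 16734112)) (l 16727944))))) (c (b (a (b (a (l 16711456) (l 16709744)) (l 16722520)) (l 16700288)) (a (c (l 16723288) (l 16723168)) (c (l 16721216) (l 16721104)))) (b (a (b (l 16689480) (l 16721936)) (l 16699800)) (a (c (l 16723040) (l 16722904))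 (l 16720944)))))), by decide +kernel⟩

def k37_pp_012 : ∃ t, chk3 f_pp_012 t 240 116 4 = true :=
  ⟨(b (c (a (b (a (l 16759184) (b (a (l 16764160) (l 16761016)) (a (l 16759784) (l 16763416)))) (b (a (a (l 16751312) (c (l 16763888) (l 16758624))) (l 16764752)) (a (a (b (l 16762272) (c (l 16768328) (l 16763072))) (l 16769064)) (l 16760744)))) (b (b (l 16753904) (l 16762936)) (l 16763496))) (a (b (a (l 16748664) (b (l 16741576) (a (l 16764960) (l 16763336)))) (a (b (c (l 16760248) (l 16749744)) (a (l 16770632) (l 16750680))) (l 16764040))) (b (l 16755736) (l 16747736)))) (a (a (b (b (c (b (c (l 16769528) (l 16764280)) (l 16773640)) (b (l 16764272) (l 16764944))) (c (a (c (b (l 16766416) (l 98415118199)) (l 82845860967)) (l 52781112567)) (c (l 72645312663) (l 16755824)))) (a (l 3) (b (b (c (c (l 87140834615) (l 16764608)) (l 16764544)) (l 3)) (l 3)))) (c (b (b (c (l 16762560) (l 16762552)) (l 16768672)) (b (a (c (l 65666003383) (l 16766208)) (l 16764760)) (a (b (l 258402666471) (l 3)) (c (b (l 16766336) (l 94657022279))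 (l 80161506679))))) (b (b (l 16762536) (l 16752928)) (a (b (l 68350357943) (l 264308237847)) (c (l 67276603975) (l 16760624)))))) (c (b (b (c (l 16763432) (l 16758168)) (c (l 16759120) (l 16748608))) (c (b (l 16766440) (a (l 16769952) (l 16751320))) (b (l 16761176) (l 16768512)))) (b (b (l 16763384) (l 16759064)) (c (l 16767448) (l 16751712)))))), by decide +kernel⟩

def k38_pp_012 : ∃ t, chk3 f_pp_012 t 240 116 5 = true :=
  ⟨(b (a (c (b (a (l 16748624) (b (l 16762464) (l 16743296))) (a (b (l 16749720) (c (l 16751664) (l 16751648))) (l 16748272))) (b (a (l 16769560) (l 16742584)) (a (l 16761416) (l 16769200)))) (c (b (l 16739920) (l 16747712)) (l 16743784))) (c (a (b (b (c (l 16753440) (l 16753432)) (c (l 16754408) (l 16754400))) (a (b (l 108615628695) (l 3)) (c (l 80161481031) (l 16748048)))) (b (b (l 16747616) (l 16748544)) (l 16762176))) (b (a (b (l 16753424) (l 16754392)) (l 16748032)) (a (a (l 263234476727) (l 83919576087)) (l 16751672))))), by decide +kernel⟩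

def k39_pp_012 : ∃ t, chk3 f_pp_012 t 241 116 2 = true :=
  ⟨(c (b (c (a (c (l 16743696) (l 16743680)) (l 16749832)) (a (l 16754136) (l 16739288))) (a (b (c (b (l 16757232) (l 16752976)) (b (l 16741424) (l 16763392))) (c (c (l 16761448) (l 16756184)) (l 16761056))) (c (b (b (l 16755864) (l 16756920)) (c (l 16739288) (l 16760216))) (b (b (l 16755744) (l 16756808)) (l 16739168))))) (b (c (a (l 16743616) (l 16739232)) (l 16742696)) (b (c (a (c (l 16741864) (l 16741824)) (l 16745672)) (b (l 16737984) (l 16739016))) (c (a (l 16745592) (l 16760048)) (l 16752824))))), by decide +kernel⟩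

def k40_pp_012 : ∃ t, chk3 f_pp_012 t 240 117 2 = true :=
  ⟨(a (l 3) (b (b (c (a (a (b (b (c (c (l 83382738839) (l 16765080)) (l 87140834567)) (l 3)) (l 3)) (b (c (c (l 62981649623) (l 16766112)) (l 65666003847)) (c (c (l 258402659543) (l 259476400935)) (l 261087013015)))) (c (b (l 16771768) (a (c (b (l 16766240) (l 90898926343)) (l 76940281815)) (l 16773160))) (b (l 16763888) (c (l 67813475351) (l 16760864))))) (c (a (b (l 69424075127) (l 266992580615)) (b (l 16753392) (l 16760856))) (c (l 65129067591) (l 63518454039)))) (a (l 3) (a (l 3) (b (c (c (b (c (l 79624643063) (l 16765640)) (l 268603209847)) (c (l 91972655495) (l 93583268007))) (c (l 96267621927) (l 16750512))) (l 3))))) (l 3))), by decide +kernel⟩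

def k41_pp_012 : ∃ t, chk3 f_pp_012 t 482 117 2 = true :=
  ⟨(b (c (c (b (a (c (l 16762016) (l 16762000)) (c (l 16758968) (l 16748464))) (a (c (b (a (l 60297296151) (l 16764488)) (a (l 255181434871) (b (l 16766128) (l 86603959351)))) (b (l 55465457095) (a (l 255718305351) (l 74255928263)))) (b (l 16767472) (a (l 16773024) (l 16763648))))) (b (c (l 16760480) (l 16749976)) (b (a (c (l 16765248) (l 16754760)) (l 16751720)) (a (a (l 257865788359) (c (l 75329669431) (l 16756112))) (l 16764400))))) (c (b (l 16760432) (b (l 42043681911) (a (c (l 89825158151) (l 16751008)) (l 16753904)))) (b (l 16749912) (a (l 80161479831) (l 16752776))))) (a (l 3) (b (c (a (b (c (b (c (l 75329676711) (l 16766296)) (l 263771372615)) (b (l 79087772407) (l 109689396871))) (l 3)) (b (c (c (l 57612942647) (l 16765880)) (l 60297296871)) (c (c (l 250886468551) (l 251960209959)) (l 254107692983)))) (c (b (l 67813463127) (l 261623872775)) (b (l 16756056) (l 114521194039)))) (l 3)))), by decide +kernel⟩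

def k42_pp_012 : ∃ t, chk3 f_pp_012 t 483 117 2 = true :=
  ⟨(c (b (b (c (c (l 16754208) (l 16754176)) (l 16759368)) (c (c (a (l 16760240) (l 16746560)) (l 16763880)) (c (l 16758616) (l 16748112)))) (b (c (a (b (l 16771424) (a (c (b (l 16766008) (l 83382735191)) (l 71034703319)) (l 16770264))) (c (l 16761552) (l 16761536))) (a (b (l 16763544) (c (l 63518509831) (l 16760600))) (l 16766760))) (a (a (l 3) (b (c (b (c (l 73182194071) (l 16766648)) (l 258402664647)) (c (l 84993334839) (l 87140817991))) (l 3))) (c (c (b (l 51170492151) (a (l 248738986071) (a (l 75329672423) (l 16766064)))) (b (l 16770200) (a (l 248738985671) (l 68350350007)))) (b (l 52244233959) (a (l 250886468695) (c (l 16761256) (l 16756016)))))))) (b (c (c (l 16756304) (l 16745792)) (l 16756232)) (b (c (a (b (l 16753040) (l 66739734631)) (l 16751000)) (l 42043669175)) (a (c (b (a (l 3) (l 89825172311)) (l 3)) (l 255718285703)) (c (b (l 16754448) (c (l 84993320631) (l 16752432))) (l 75866513351)))))), by decide +kernel⟩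

def k43_pp_012 : ∃ t, chk3 f_pp_012 t 121 58 2 = true :=
  ⟨(b (c (a (b (c (a (l 16732152) (l 16724528)) (a (l 16732048) (l 16724384))) (c (b (a (b (l 16748832) (l 16749960)) (l 16731488)) (a (l 16732400) (l 16746080))) (b (b (l 16734512) (l 16725192)) (a (l 16753240) (l 16745904))))) (b (c (l 16717552) (l 16712080)) (c (b (a (l 16734112) (l 16725824)) (a (l 16738360) (l 16730200))) (b (a (l 16733856) (l 16725512)) (l 16713128))))) (a (b (c (l 16728168) (l 16728040)) (c (b (b (l 16723848) (l 16725008)) (l 16739000)) (b (l 16734728) (l 16728360)))) (b (c (l 16711848) (l 16711608)) (c (b (l 16708504) (l 16733840)) (a (l 16714512) (l 16727096)))))) (a (a (c (b (c (b (l 16752704) (c (l 16752072) (l 16741544))) (b (l 16736864) (l 16751968))) (b (c (c (l 16761920) (l 16756648)) (c (l 16746136) (l 16746104))) (b (c (c (l 16760144) (l 16760128)) (l 16765344)) (c (a (c (l 16764064) (l 16753576)) (l 16760808)) (a (l 16764048) (l 16771264)))))) (c (b (c (l 16739088) (l 16739040)) (b (l 16746064) (a (l 16752376) (l 16749072))))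 (b (l 16738960) (b (l 16746008) (b (l 16749536) (l 16751896)))))) (c (b (c (b (l 16750792) (l 16745032)) (c (l 16732064) (l 16731992))) (c (b (c (l 16749800) (l 16739264)) (c (l 16754560) (l 16754520))) (b (l 16749680) (c (l 16744000) (l 16743968))))) (b (c (l 16742368) (l 16731744)) (c (b (l 16739096) (l 16743912)) (l 16741400))))) (c (b (c (a (c (l 16724688) (l 16724600)) (l 16727168)) (a (l 16734944) (l 16716440))) (c (a (b (l 16742456) (l 16752600)) (b (l 16745176) (l 16739728))) (a (c (l 16744792) (l 16734240)) (c (l 16726576) (l 16726488))))) (b (c (a (l 16724264) (l 16737168)) (c (l 16720152) (l 16720040))) (c (a (c (l 16734176) (l 16734112)) (l 16726352)) (a (l 16734008) (l 16726168))))))), by decide +kernel⟩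

def k44_pp_012 : ∃ t, chk3 f_pp_012 t 120 59 2 = true :=
  ⟨(l 3), by decide +kernel⟩

def k45_pp_012 : ∃ t, chk3 f_pp_012 t 242 118 2 = true :=
  ⟨(a (b (b (c (a (b (c (a (b (c (l 16766632) (l 16766632)) (l 253570827799)) (l 52781106807)) (c (a (l 82845852119) (l 16755096)) (l 71571561655))) (a (l 3) (c (c (l 244444020135) (l 245517761575)) (l 247665244647)))) (c (b (l 16763152) (a (c (a (l 71571577415) (l 16765912)) (l 65665996791)) (l 16764680))) (b (l 16763128) (a (l 67813480103) (l 16754184))))) (c (a (b (l 74255915719) (l 257328907527)) (b (l 16752624) (l 16762896))) (c (b (l 16754328) (l 71034647431)) (l 61370969063)))) (a (l 3) (b (c (a (c (l 269676941719) (l 271287553159)) (c (b (l 65666004263) (l 248202120263)) (c (l 80161498695) (l 81772110679)))) (c (a (l 232095954311) (l 84456465079)) (l 97341337479))) (l 3)))) (l 3)) (b (c (b (c (a (l 16767240) (l 16762840)) (c (l 16759288) (l 16748784))) (c (a (c (b (l 16769840) (a (l 240149054423) (l 61907901719))) (b (l 16764592) (a (l 241759666791) (l 63518514455))))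 (b (l 16761224) (l 16768888))) (b (a (l 16769824) (l 16750704)) (a (a (a (l 268066334631) (l 89288304679)) (l 65665998103)) (l 16763632))))) (c (b (l 16759240) (a (b (l 16754088) (c (l 80698354759) (l 16749088))) (l 16751896))) (b (l 16748704) (a (l 73719030967) (l 16751872))))) (b (b (c (a (a (l 3) (c (b (l 262697630151) (l 3)) (l 267529458215))) (c (a (b (l 62444780439) (l 242296542023)) (l 16770480)) (a (c (l 76940274279) (l 79087757543)) (l 16765232)))) (a (c (l 271287540151) (l 232095919783)) (c (c (l 16758264) (l 16755640)) (l 16755640)))) (b (a (l 3) (c (a (l 3) (c (c (l 78550894999) (l 80161507623)) (l 82845862007))) (c (l 246054631143) (l 101099442375)))) (l 3))) (l 3)))), by decide +kernel⟩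

def k46_pp_012 : ∃ t, chk3 f_pp_012 t 243 118 2 = true :=
  ⟨(a (c (b (b (c (c (l 16752296) (l 16752248)) (l 16757432)) (c (a (l 16764216) (l 16755408)) (c (l 16757168) (l 16746656)))) (b (c (a (b (l 16762672) (a (b (l 16765376) (l 68887225783)) (l 16764272))) (l 16766296)) (a (b (l 16762648) (a (l 62981645319) (l 16753776))) (l 16760360))) (a (b (a (b (c (l 256792051943) (l 258402663895)) (l 3)) (c (b (l 16768776) (c (l 84993340743) (l 86603953239))) (c (l 74255921335) (l 75866533751)))) (l 3)) (c (b (l 16769408) (a (b (c (l 74792800839) (l 76403413511)) (l 270750690903)) (b (l 16765176) (l 65129131655)))) (b (l 16769392) (a (b (l 78550896407) (l 272361302583)) (l 60297292823))))))) (b (c (b (l 16741616) (l 16757096)) (b (l 16741528) (l 16746552))) (b (c (a (b (l 16752136) (l 16765136)) (l 16749840)) (l 39359319975)) (a (b (c (a (l 265381975015) (l 78550887975)) (l 93046371575)) (l 3)) (c (b (l 16753648) (c (l 76403389735) (l 78550873047))) (b (l 16753632) (l 81235226951))))))) (b (c (c (b (l 16744784) (c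 (l 16749880) (l 16739344))) (b (l 16734168) (l 16749760))) (c (c (l 16736616) (l 16736552)) (l 16736464))) (c (b (c (a (l 16756792) (l 16753072)) (c (l 16754904) (l 16744384))) (a (c (b (l 16760608) (l 16763152)) (l 16767088)) (c (l 16763472) (l 16758176)))) (b (c (l 16754816) (l 16744256)) (a (c (l 16761816) (l 16751304)) (c (l 16747640) (l 16747584))))))), by decide +kernel⟩

def k47_pp_012 : ∃ t, chk3 f_pp_012 t 121 119 2 = true :=
  ⟨(a (l 3) (b (a (a (l 3) (a (l 3) (b (b (a (l 3) (c (c (l 252497083831) (l 254644566615)) (c (l 101636324695) (l 16746456)))) (l 3)) (l 3)))) (b (a (c (b (c (a (b (l 16765960) (a (l 98951986615) (l 16767672))) (l 16764816)) (a (c (l 71571568535) (l 73182181255)) (l 16764800))) (a (l 3) (b (c (c (l 70497835335) (l 16764064)) (l 74255931063)) (c (l 263771371159) (l 265381982919))))) (b (c (c (l 65665987015) (l 16755240)) (l 16755232)) (c (c (l 245517754695) (l 247128366839)) (l 249812720535)))) (c (c (a (c (l 49559876167) (l 50633617975)) (l 16767728)) (c (l 50096745223) (l 16768624)))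 (c (b (l 16751568) (l 16764680)) (l 16763344)))) (a (l 3) (b (c (a (b (c (l 242296541735) (c (l 90362045655) (l 92509528999))) (l 3)) (c (b (l 16765744) (a (l 92509537591) (l 16766608))) (c (l 68350345255) (l 69960957671)))) (c (a (l 256792044711) (l 72645311895)) (a (l 104857534855) (l 16755936)))) (l 3))))) (l 3))), by decide +kernel⟩

def k48_pp_012 : ∃ t, chk3 f_pp_012 t 60 58 3 = true :=
  ⟨(a (a (b (c (b (a (c (b (l 16745704) (a (l 16750904) (l 16769160))) (b (l 16745648) (l 16749864))) (c (l 16743720) (l 16764632))) (c (b (b (l 16750552) (l 16751504)) (a (l 182703822359) (l 16772616))) (b (l 16751008) (l 52781003671)))) (b (a (c (l 16748304) (l 16748264)) (l 16743576)) (c (b (l 16750984) (l 16734008)) (l 16711104)))) (a (l 3) (b (c (b (c (l 61907840311) (l 16734832)) (c (l 267529417879) (l 125795400295))) (c (l 16697960) (l 16718392))) (l 3)))) (b (c (b (c (l 16742664) (l 16742624)) (c (b (l 16738400) (l 16742256)) (l 16740224))) (b (l 16742576) (c (l 16740144) (l 16740056)))) (c (b (c (a (b (l 16749880)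 (l 16733464)) (l 16745688)) (a (l 16752152) (l 16745632))) (a (b (c (a (l 3) (l 16726952)) (l 16707896)) (l 3)) (c (b (l 16752592) (a (l 112373679847) (l 16755712))) (l 82845773735)))) (c (b (l 16748944) (a (l 245517668583) (l 16713184))) (b (l 16748904) (l 105394226887)))))) (b (c (b (a (c (l 16727912) (l 16727784)) (c (l 16732344) (l 16732112))) (a (c (b (l 16724056) (l 16749168)) (l 16725936)) (c (l 16710128) (l 16709848)))) (b (a (l 16727592) (l 16710776)) (a (c (l 16725760) (l 16746560)) (c (l 16730536) (l 16730256))))) (c (a (c (b (l 16743176) (c (l 16744904) (l 16744872))) (b (l 16735192) (l 16744824))) (c (b (l 16719880) (c (l 16730056) (l 16729976))) (b (l 16719664) (l 16729856)))) (a (c (b (l 16735072) (l 16744752)) (l 16739752)) (c (l 16724504) (l 16724312)))))), by decide +kernel⟩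

def k49_pp_012 : ∃ t, chk3 f_pp_012 t 60 59 3 = true :=
  ⟨(a (l 3) (b (b (c (c (a (a (b (l 59223484087) (l 263771321911)) (b (l 16748664) (l 16748400))) (a (l 16743952) (l 16736344))) (a (a (a (l 256255140599) (l 89825095911)) (l 16751120)) (l 16740136))) (a (c (b (l 16731224) (l 62981481079)) (l 16670984)) (c (l 16740040) (l 16739944)))) (a (a (l 3) (b (c (c (a (l 190756836487) (l 91435741623)) (l 206862996071)) (c (l 212231704919) (l 16713600))) (l 3))) (c (c (b (a (l 16751584) (l 16744184)) (a (c (l 68350260999) (l 67276516407)) (l 16749424))) (a (b (l 16751560) (l 66202774359)) (l 16746728))) (c (a (l 16712288) (l 16746672)) (l 16708576))))) (b (a (l 3) (a (a (l 3) (b (c (c (l 274508742599) (l 233706508535)) (l 192367444071)) (l 3))) (c (b (c (a (l 87677645959) (l 16752840)) (l 16733784)) (a (l 3) (c (b (l 16740832) (l 3)) (l 105931223479)))) (c (b (l 16754744) (l 242833332887)) (l 184851263943))))) (l 3)))), by decide +kernel⟩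

def k50_pp_012 : ∃ t, chk3 f_pp_012 t 61 28 1 = true :=
  ⟨(a (a (c (b (c (b (l 16661672) (l 16683960)) (b (l 16681744) (l 16683376))) (c (b (l 16708648) (c (l 16702984) (l 16702752))) (b (l 16708432) (c (l 16702512) (l 16702272))))) (b (c (b (l 16680816) (l 16682776)) (b (l 16679856) (l 16703120))) (c (b (l 16708192) (c (l 16702032) (l 16701784))) (b (l 16707944) (l 16701416))))) (c (b (c (l 16662544) (l 16683072)) (c (b (l 16692304) (c (l 16682512) (l 16682128))) (b (l 16691816) (c (l 16681736) (l 16702312))))) (b (c (l 16682608) (l 16682112)) (c (b (l 16691320) (l 16680752)) (b (l 16690824) (l 16700928)))))) (c (a (b (c (a (l 16664768) (l 16660320)) (a (l 16664352) (l 16659448))) (c (b (a (l 16673032) (l 16668024)) (a (a (l 16689464) (l 16679832)) (l 16658296))) (b (a (l 16672232) (l 16666768)) (a (a (l 16688480) (l 16678680)) (l 16656760))))) (b (c (c (a (l 16654216) (c (c (a (l 16633560) (l 16594936)) (l 16605840)) (l 16626696))) (l 16639768)) (l 16617584)) (c (a (b (l 16639840) (l 16629592)) (c (c (c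 (a (b (l 16619080) (a (l 16612688) (c (l 16604440) (l 16605496)))) (b (l 16579640) (c (l 16587680) (a (l 16597384) (l 16586896))))) (b (l 16612128) (a (l 16608832) (a (l 16598144) (l 16569512))))) (l 16606432)) (l 16584560))) (b (l 16623752) (l 16591992))))) (b (c (a (a (l 16684912) (l 16658576)) (l 16615960)) (a (a (l 16684496) (l 16657688)) (l 16635288))) (c (a (b (a (l 16671432) (l 16665496)) (a (a (l 16687488) (l 16677520)) (l 16655216))) (b (l 16621720) (l 16610640))) (a (b (l 16635960) (a (l 16660456) (l 16653648))) (b (l 16619664) (l 16608288))))))), by decide +kernel⟩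

def k51_pp_012 : ∃ t, chk3 f_pp_012 t 122 58 2 = true :=
  ⟨(b (c (b (a (c (l 16694432) (l 16715048)) (c (l 16695712) (l 16695216))) (a (c (b (a (l 16717080) (l 16707888)) (l 16717144)) (b (l 16691192) (l 16716768))) (b (a (l 16697984) (l 16687832)) (a (l 16702776) (l 16692752))))) (b (a (c (l 16714696) (l 16714336)) (l 16673488)) (a (c (b (l 16711760) (l 16716392)) (b (l 16711352) (l 16716008))) (c (l 16673640) (l 16694088))))) (a (c (a (b (c (l 16729248) (l 16728952)) (c (c (l 16718632) (l 16718512)) (l 16728824))) (b (c (l 16720384) (l 16720032)) (c (l 16720464) (l 16709688)))) (c (b (a (l 16728648) (l 16719672)) (a (l 16718104) (l 16730368))) (b (l 16702944) (c (l 16713640) (l 16713504))))) (c (b (c (a (l 16711064) (l 16701280)) (l 16684824)) (c (b (l 16693512) (l 16709504)) (a (l 16721544) (l 16711960)))) (b (c (l 16684368) (l 16704880)) (c (a (l 16721192) (l 16711544)) (l 16695096)))))), by decide +kernel⟩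

def k52_pp_012 : ∃ t, chk3 f_pp_012 t 122 118 2 = true :=
  ⟨(a (c (b (c (a (b (l 16747336) (l 16742056)) (c (l 16731176) (l 16720576))) (a (c (l 16739312) (l 16728744)) (b (l 16738704) (l 16744088)))) (b (c (a (c (l 16747320) (l 16736776)) (l 16739176)) (a (l 16747176) (l 16749496))) (a (c (c (l 16752568) (l 16752528)) (c (l 16752480) (l 16741952))) (c (l 16747192) (l 16744432))))) (b (c (a (l 16739104) (l 16720184)) (a (l 16728448) (l 16740928))) (a (c (b (l 16736568) (l 16752376)) (c (l 16739136) (l 16739080))) (c (c (l 16731104) (l 16731024)) (l 16741392))))) (c (b (c (a (l 16722336) (l 16723576)) (a (l 16711568) (l 16723232))) (c (a (a (l 16735520) (l 16731144)) (c (l 16713960) (l 16713824))) (a (c (l 16722712) (l 16722600)) (l 16724112)))) (b (c (b (l 16703888) (l 16709512)) (a (l 16731976) (l 16722536))) (c (a (l 16732928) (l 16713352)) (a (l 16722232) (l 16734048)))))), by decide +kernel⟩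

def k53_pp_012 : ∃ t, chk3 f_pp_012 t 122 238 2 = true :=
  ⟨(a (c (a (c (b (a (c (l 16759720) (l 16759696)) (l 16761144)) (a (b (a (l 16764576) (l 16762728)) (a (b (c (l 66739741655) (l 16766568)) (l 256255180791)) (l 52781105079))) (c (l 16761240) (l 16761224)))) (b (a (l 16764904) (l 16755832)) (a (b (a (l 16764560) (l 16762704)) (a (b (l 70497837383) (l 257865792647)) (l 16769304))) (c (l 16761208) (l 16761192))))) (b (c (c (l 16750016) (l 16749960)) (c (l 16749912) (l 16739368))) (c (a (l 16762632) (l 16753424)) (a (l 16762568) (l 16753336))))) (a (b (c (c (l 16757728) (l 16747216)) (l 16757656)) (c (a (b (l 16753136) (c (a (l 83919586983) (l 16754880)) (l 73719038455))) (l 16761168)) (a (b (l 16753112) (l 76940263271)) (l 16750648)))) (c (b (l 16749776) (c (l 16755304) (l 16744784))) (b (l 16739184) (l 16755216))))) (c (a (c (b (l 16741688) (c (l 16747296) (l 16747232))) (b (l 16741528) (c (l 16747176) (l 16736624)))) (c (b (l 16743408) (l 16738640)) (b (l 16743192) (l 16727976)))) (c (a (b (l 16730888)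 (l 16747016)) (c (l 16724936) (l 16724832))) (a (c (l 16733584) (l 16733512)) (l 16724680))))), by decide +kernel⟩

def k54_pp_012 : ∃ t, chk3 f_pp_012 t 122 478 2 = true :=
  ⟨(a (a (a (a (l 3) (b (c (b (c (l 234243479367) (c (l 85530208839) (l 87677692247))) (l 3)) (c (l 251960209095) (l 101099440007))) (l 3))) (c (b (c (a (b (l 16765520) (c (l 72108445143) (l 73719057831))) (l 16764312)) (a (c (l 65665993207) (l 67276605607)) (l 16764296))) (a (b (c (l 269676948871) (l 271287560439)) (l 3)) (b (c (l 62981647783) (l 66202872919)) (c (l 259476408935) (l 249812731751))))) (b (c (c (l 61907895575) (l 16754760)) (l 16759992)) (c (a (l 274508773927) (b (l 16766336) (l 96804491575))) (a (l 234780282775) (l 85530200775)))))) (c (a (c (b (l 16766696) (a (l 16770368) (l 16763216))) (c (l 16768368) (l 16768024))) (c (c (l 16758928) (l 16758904)) (c (l 16758880) (l 16748368)))) (c (a (b (l 16750904) (l 16769384)) (l 16758824)) (a (l 16762736) (l 16748288))))) (c (a (c (a (l 16760152) (l 16750784)) (a (l 16754832) (l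 16750680))) (c (l 16747000) (l 16744240))) (a (c (c (l 16742232) (l 16742184)) (l 16742120)) (c (l 16733608) (l 16733464))))), by decide +kernel⟩

def k55_pp_012 : ∃ t, chk3 f_pp_012 t 122 479 2 = true :=
  ⟨(a (a (l 3) (a (a (b (b (c (c (c (l 224579807255) (l 226190419815)) (c (l 80698373335) (l 82845856807))) (c (l 86067081687) (l 16752608))) (l 3)) (l 3)) (c (b (c (b (l 16765264) (c (l 67813480695) (l 69424092775))) (b (l 16765256) (l 71571576423))) (b (c (l 263771371575) (l 262697628695)) (l 3))) (b (c (l 66739737479) (l 16755456)) (c (l 269140067495) (l 270750678583))))) (c (c (b (l 16768304) (a (b (l 58686683607) (l 260550158999)) (l 16770096))) (b (l 16763032) (a (b (l 16766096) (l 241222800295)) (l 16764840)))) (c (b (l 16763016) (a (c (l 76940269783) (l 78550882007)) (l 16764832))) (b (l 16752504) (l 72108429623)))))) (a (c (a (c (b (l 16759104) (l 16761904)) (b (l 16759056) (l 16761872))) (c (l 16761688) (l 16761624))) (a (c (l 16765664) (l 16749896)) (c (l 16756312) (l 16745760)))) (c (c (b (l 16748704)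 (l 16751592)) (b (l 16748592) (l 16751496))) (c (c (l 16739472) (l 16739424)) (l 16739344))))), by decide +kernel⟩

def k56_pp_012 : ∃ t, chk3 f_pp_012 t 122 29 3 = true :=
  ⟨(b (b (c (b (a (l 16692816) (l 16693448)) (a (c (l 16692296) (l 16712872)) (c (l 16693552) (l 16693016)))) (b (a (l 16713056) (l 16692424)) (a (l 16691296) (l 16692208)))) (c (a (c (b (l 16723584) (l 16713304)) (b (l 16723248) (l 16713040))) (c (b (l 16704416) (l 16715672)) (l 16688576))) (a (c (l 16707288) (l 16706984)) (c (l 16688144) (l 16708672))))) (c (b (a (b (c (b (l 16721400) (l 16726808)) (l 16723888)) (c (a (l 16739000) (l 16730744)) (c (l 16734856) (l 16734792)))) (c (b (l 16706048) (c (l 16717552) (l 16717432))) (b (l 16726704) (l 16717248)))) (a (b (c (a (b (l 16747120) (a (l 16754464) (l 16750616))) (c (l 16741872) (l 16741832))) (a (l 39896162503) (l 16741760))) (a (b (a (c (l 270750649223) (l 273435000919)) (c (c (l 83382681415) (l 16735176)) (l 16735176))) (l 3)) (c (b (l 16750256) (a (b (l 67276572279) (l 276119369255))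 (l 16753896))) (b (l 16750216) (c (l 63518419831) (l 16713968)))))) (b (c (a (l 16733408) (l 16724480)) (a (l 16733264) (l 16745248))) (a (c (a (l 16746968) (l 16742776)) (l 16744824)) (c (l 16746744) (l 16736128)))))) (b (a (c (b (l 16723688) (l 16734696)) (l 16728952)) (c (b (l 16726376) (l 16717000)) (l 16710840))) (a (b (c (a (l 16749752) (l 16741672)) (l 16745736)) (a (b (c (l 104857441399) (l 16718104)) (l 3)) (c (l 52244124935) (l 16711072)))) (c (b (l 16728680) (a (l 16744752) (l 16736000))) (a (l 16738752) (l 16729800))))))), by decide +kernel⟩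

def k57_pp_012 : ∃ t, chk3 f_pp_012 t 246 29 2 = true :=
  ⟨(b (b (c (b (a (a (l 16682128) (l 16672504)) (l 16650664)) (a (a (l 16682392) (b (l 16670288) (l 16675312))) (b (l 16648296) (l 16653224)))) (b (a (a (l 16680928) (l 16671152)) (l 16648928)) (a (a (l 16681152) (l 16671384)) (l 16648952)))) (c (a (a (b (l 16693352) (l 16704688)) (b (l 16683752) (c (l 16695376) (l 16694832)))) (b (l 16640536) (c (l 16673024) (l 16672280)))) (a (a (b (l 16692256) (l 16703744)) (c (l 16667504) (l 16687880))) (c (l 16644864) (l 16644072))))) (b (a (c (a (b (c (l 16716328) (l 16715928)) (c (l 16727824) (l 16727504))) (b (c (l 16706784) (l 16706312)) (c (l 16697320) (l 16717896)))) (a (c (b (l 16715536) (l 16727176)) (l 16699952)) (b (l 16684624) (c (l 16717496) (l 16717088))))) (c (b (c (l 16663256) (l 16683552)) (c (l 16674552) (l 16673952))) (b (c (l 16682880) (l 16682200)) (c (l 16673352) (l 16693720))))) (a (a (c (b (c (l 16739416) (l 16739168)) (c (b (l 16748184) (l 16754056)) (b (l 16748000) (l 16753904)))) (b (c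 (l 16738920) (l 16738672)) (c (l 16740280) (l 16729624)))) (c (b (c (b (l 16727000) (l 16711856)) (l 16708600)) (c (b (l 16717704) (l 16734072)) (b (l 16717440) (l 16733840)))) (c (b (l 16708280) (b (l 16717176) (l 16723128))) (b (l 16707952) (l 16725128))))) (c (b (c (b (l 16683096) (l 16688816)) (b (l 16682560) (l 16688312))) (c (b (c (l 16694680) (l 16694448)) (a (l 16708080) (l 16703064))) (b (l 16694096) (c (l 16700008) (l 16699792))))) (b (c (l 16684896) (l 16684368)) (c (b (l 16693624) (l 16699472)) (b (l 16693152) (l 16699040)))))))), by decide +kernel⟩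

def k58_pp_012 : ∃ t, chk3 f_pp_012 t 247 58 2 = true :=
  ⟨(c (c (a (b (b (l 16622120) (l 16621944)) (b (l 16632400) (l 16643240))) (b (c (c (a (b (a (l 16604504) (c (l 16596112) (l 16597216))) (a (l 16604176) (c (c (a (l 16598184) (l 16592592)) (b (l 16594264) (l 16598912))) (l 16596808)))) (b (c (l 16578912) (a (l 16588960) (l 16578208))) (c (l 16578176) (a (c (a (l 16590960) (l 16585608)) (l 16589256)) (l 16577536))))) (b (a (l 16600576) (c (a (l 16589824) (l 16581768)) (l 16586040))) (a (l 16600200) (a (l 16589264) (c (c (a (l 16583672) (l 16578560)) (l 16581896)) (l 16581880)))))) (b (l 16592840) (l 16592392))) (c (c (a (a (l 16619696) (c (c (a (b (l 16608376) (l 16618936)) (l 16607864)) (a (l 16614200) (b (l 16604744) (l 16615280)))) (l 16612240))) (a (c (l 16578616) (a (b (l 16601208) (l 16611728)) (c (l 16600816) (a (l 16603848) (l 16606824))))) (b (l 16584520) (l 16594728)))) (a (l 16615696) (a (l 16604616) (c (a (b (l 16593808) (l 16604272)) (c (l 16601560) (l 16600464))) (l 16597136))))) (b (l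 16602600) (l 16613184))))) (b (b (l 16606408) (l 16564128)) (b (l 16595488) (a (l 16642240) (l 16612232))))) (b (b (l 16604520) (c (l 16583816) (l 16603504))) (c (b (l 16615248) (l 16605120)) (b (l 16614032) (l 16624944))))), by decide +kernel⟩

def k59_pp_012 : ∃ t, chk3 f_pp_012 t 247 118 2 = true :=
  ⟨(c (a (b (c (l 16654168) (l 16653232)) (c (b (l 16662432) (l 16667968)) (l 16643352))) (c (c (a (a (l 16650848) (c (c (c (a (a (b (l 16631000) (l 16641760)) (b (l 16628432) (a (l 16639944) (l 16638504)))) (b (l 16623720) (l 16634360))) (c (a (l 16635568) (b (l 16625720) (a (l 16637936) (l 16635088)))) (b (l 16628272) (l 16639016)))) (l 16633568)) (l 16633360))) (c (c (b (l 16587600) (a (l 16604792) (l 16612184))) (a (a (c (b (l 16622208) (b (l 16630232) (a (l 16615960) (l 16634496)))) (l 16627896)) (b (c (l 16616608) (l 16618496)) (c (l 16627200) (b (l 16626496) (c (l 16631728) (l 16632184)))))) (b (l 16608144) (a (c (l 16620448) (l 16623592)) (l 16615264))))) (a (l 16625832) (c (b (c (a (l 16614768) (l 16609416))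 (l 16612960)) (c (a (b (l 16622744) (l 16628088)) (a (l 16621632) (l 16618416))) (a (l 16625616) (b (l 16618976) (l 16624304))))) (l 16618232))))) (b (l 16623856) (l 16634608))) (b (l 16622960) (l 16633768)))) (b (c (l 16595088) (l 16614984)) (c (b (l 16624328) (l 16608888)) (l 16605104)))), by decide +kernel⟩

def k60_pp_012 : ∃ t, chk3 f_pp_012 t 494 119 2 = true :=
  ⟨(c (a (b (c (l 16673456) (l 16683224)) (b (c (l 16692400) (l 16691736)) (c (l 16698064) (l 16697432)))) (b (c (l 16668640) (l 16667792)) (b (c (l 16677000) (l 16676200)) (b (c (a (l 16685048) (l 16677376)) (a (l 16684312) (l 16676576))) (b (a (l 16686800) (c (a (l 16671048) (l 16673904)) (a (l 16670280) (l 16678360)))) (a (a (l 16688840) (c (l 16684288) (l 16686184))) (c (l 16684288) (l 16683544)))))))) (b (c (l 16653744) (l 16652944)) (b (c (l 16662264) (l 16682488)) (a (c (l 16696800) (l 16696168)) (b (c (l 16679680) (l 16678896)) (a (c (l 16686560) (l 16685840)) (c (b (a (l 16679984) (l 16677560)) (l 16682784)) (b (l 16678200) (l 16682032))))))))),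 by decide +kernel⟩

def k61_pp_012 : ∃ t, chk3 f_pp_012 t 990 119 4 = true :=
  ⟨(b (c (c (c (a (l 16657536) (c (a (c (b (c (l 16648200) (l 16648976)) (c (a (l 16655240) (l 16652192)) (a (l 16655592) (l 16642880)))) (l 16651848)) (c (l 16645096) (a (b (l 16635640) (l 16648944)) (c (l 16645864) (l 16646880))))) (l 16649856))) (l 16653480)) (l 16653112)) (l 16652376)) (c (a (b (l 16665464) (b (a (b (l 16670888) (l 16668392)) (b (a (l 16658008) (l 16662312)) (l 16672536))) (l 16680304))) (c (c (b (c (c (a (a (c (b (l 16648856) (b (l 16656152) (b (l 16659808) (a (l 16658888) (l 16652792))))) (l 16661192)) (b (c (l 16656272) (l 16646976)) (b (c (l 16658320) (l 16654272)) (c (l 16650448) (a (l 16659880) (l 16659160)))))) (b (l 16651864) (b (a (l 16645424) (l 16632176)) (l 16658648)))) (a (b (l 16658696) (b (l 16660752) (l 16652592))) (c (b (a (l 16645096) (l 16652664)) (b (a (a (l 16647912) (c (l 16646720) (l 16647168))) (l 16653088)) (a (l 16651120) (l 16660248)))) (b (l 16649472) (a (l 16658776) (a (l 16659336)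 (a (l 16658952) (l 16658640)))))))) (b (l 16656696) (b (l 16659272) (a (l 16652512) (l 16661592))))) (c (c (a (c (a (c (l 16674352) (l 16674768)) (l 16672976)) (a (l 16674856) (b (l 16669272) (l 16679128)))) (l 16670904)) (a (l 16674648) (c (a (b (l 16668968) (l 16678824)) (l 16672528)) (b (l 16668896) (l 16678752))))) (l 16674232))) (b (b (l 16656512) (b (l 16659088) (a (l 16652336) (l 16661416)))) (l 16674080))) (b (b (l 16656152) (b (l 16658736) (l 16661904))) (l 16673768)))) (b (b (l 16659296) (a (l 16665952) (b (a (l 16659432) (l 16645840)) (a (l 16651296) (l 16660368))))) (b (a (b (a (l 16670032) (l 16662032)) (l 16672312)) (l 16668168)) (l 16678824))))), by decide +kernel⟩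

def k62_pp_012 : ∃ t, chk3 f_pp_012 t 990 119 5 = true :=
  ⟨(b (c (l 16651384) (l 16650384)) (b (b (l 16657872) (a (l 16664616) (c (b (l 16657064) (l 16660272)) (l 16661936)))) (b (a (c (b (l 16667968) (l 16671472)) (b (l 16667088) (l 16670624))) (l 16666848)) (l 16677640)))), by decide +kernel⟩

def k63_pp_012 : ∃ t, chk3 f_pp_012 t 991 238 16 = true :=
  ⟨(c (a (c (b (l 16633720) (a (l 16642520) (l 16635576))) (c (a (c (a (l 16644992) (l 16642232)) (l 16644080)) (b (l 16635224) (l 16640584))) (c (a (l 16644120) (a (l 16641192) (l 16638576))) (l 16642168)))) (a (a (c (l 16627728) (c (l 16632752) (b (l 16633296) (a (l 16629024) (l 16616944))))) (b (l 16624992) (b (l 16628944) (b (l 16630920) (l 16632688))))) (b (l 16619832) (b (l 16623744) (b (l 16615456) (l 16629112)))))) (a (l 16642032) (c (a (a (l 16637336) (c (b (l 16631088) (c (b (l 16615272) (b (l 16617288) (a (l 16635368) (l 16628984)))) (b (l 16636800) (l 16629280)))) (l 16637440))) (b (c (c (l 16627280) (l 16628728)) (c (l 16629592) (l 16629848)))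 (c (b (c (l 16631280) (l 16622264)) (a (b (l 16633048) (c (l 16637720) (a (l 16629032) (l 16617736)))) (l 16634680))) (b (c (l 16628376) (l 16633880)) (a (l 16633104) (c (b (a (l 16624912) (l 16623800)) (l 16617656)) (l 16626760))))))) (b (l 16631664) (b (l 16635704) (b (l 16616912) (l 16635256))))))), by decide +kernel⟩

def k64_pp_012 : ∃ t, chk3 f_pp_012 t 991 239 16 = true :=
  ⟨(c (a (c (b (b (a (b (l 16645880) (a (a (l 16649880) (l 16648304)) (l 16646280))) (b (l 16639360) (l 16642928))) (a (b (l 16651608) (l 16656480)) (l 16650192))) (a (b (l 16663824) (l 16673640)) (l 16664840))) (b (a (b (c (c (a (c (b (l 16630096) (l 16649968)) (l 16631056)) (b (l 16627368) (b (l 16639048) (l 16640760)))) (b (l 16639720) (a (l 16652760) (b (l 16645168) (l 16641640))))) (l 16646072)) (c (c (a (l 16658536) (l 16657320)) (l 16658416)) (l 16658448))) (c (b (a (a (b (l 16636072) (l 16644192)) (l 16647800)) (l 16645024)) (l 16655296)) (b (a (b (l 16636904) (l 16640104)) (c (b (a (l 16643200) (l 16623680)) (l 16628504))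 (a (l 16637840) (l 16647872)))) (c (a (l 16657880) (l 16656816)) (l 16657728))))) (a (a (b (l 16668400) (l 16678264)) (c (c (l 16672048) (l 16672952)) (l 16673024))) (c (b (l 16665096) (l 16674928)) (c (a (l 16672624) (l 16671552)) (l 16672472)))))) (c (b (b (l 16634768) (l 16644416)) (l 16659000)) (c (b (b (l 16639872) (l 16649560)) (l 16664216)) (a (a (b (c (l 16650184) (a (b (l 16647256) (l 16656976)) (l 16651352))) (b (l 16665568) (l 16675408))) (l 16637888)) (l 16634984))))) (a (b (b (b (l 16637984) (a (l 16641560) (l 16650304))) (l 16657960)) (l 16672728)) (c (a (c (a (b (l 16652336) (l 16671944)) (b (c (l 16651392) (l 16651960)) (c (b (l 16666096) (l 16675944)) (l 16671608)))) (b (l 16652120) (l 16671744))) (a (c (c (l 16638536) (b (l 16651112) (l 16671072))) (l 16661400)) (c (l 16637464) (c (b (l 16650832) (l 16670464)) (l 16661056))))) (b (l 16651696) (l 16671336))))), by decide +kernel⟩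

def k65_pp_012 : ∃ t, chk3 f_pp_012 t 991 119 17 = true :=
  ⟨(b (b (l 16635120) (b (l 16639176) (a (l 16645728) (b (l 16616560) (l 16634912))))) (b (b (a (b (l 16637600) (l 16650320)) (l 16646488)) (l 16656936)) (l 16671744))), by decide +kernel⟩

def k66_pp_012 : ∃ t, chk3 f_pp_012 t 991 119 9 = true :=
  ⟨(b (b (l 16634264) (b (l 16638344) (a (l 16644936) (b (l 16636696) (l 16639328))))) (b (b (a (b (l 16647304) (a (l 16640424) (l 16649152))) (l 16645696)) (l 16656216)) (l 16671112))), by decide +kernel⟩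

def k67_pp_012 : ∃ t, chk3 f_pp_012 t 991 119 5 = true :=
  ⟨(b (b (l 16632552) (b (l 16636672) (a (l 16643336) (c (l 16639776) (l 16636024))))) (b (b (a (c (b (l 16646264) (l 16649192)) (l 16646968)) (l 16644104)) (l 16654752)) (c (l 16670264) (l 16669408)))), by decide +kernel⟩

def k68_pp_012 : ∃ t, chk3 f_pp_012 t 123 29 3 = true :=
  ⟨(b (b (c (a (b (a (l 16653792) (l 16647160)) (a (a (l 16679896) (l 16669968)) (l 16647144))) (b (l 16601976) (l 16580576))) (a (b (a (l 16673456) (l 16645376)) (a (l 16652616) (l 16645304))) (b (l 16599400) (l 16598920)))) (a (c (a (a (c (l 16697160) (l 16696640)) (c (l 16687288) (l 16686680))) (c (l 16664248) (l 16663440))) (a (a (l 16695848) (l 16685768)) (l 16641256))) (c (c (l 16576288) (l 16596056)) (c (l 16615816) (l 16614600))))) (a (a (b (c (a (c (l 16699592) (l 16720192)) (c (l 16689736) (l 16689288))) (a (l 16703904) (c (l 16709808) (l 16709352)))) (c (a (c (b (l 16738424) (l 16750424)) (b (l 16738176) (l 16750248))) (c (b (l 16728592) (l 16719632)) (b (l 16728264)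 (l 16719384)))) (a (c (l 16722960) (l 16722744)) (c (l 16712968) (l 16712672))))) (c (b (c (l 16666272) (l 16665624)) (c (b (l 16683832) (l 16695624)) (b (l 16704272) (l 16695160)))) (b (c (l 16685936) (l 16685280)) (c (l 16688656) (l 16688152))))) (b (c (c (b (l 16634872) (l 16625064)) (l 16597384)) (c (l 16617296) (l 16616224))) (b (b (c (c (l 16633520) (l 16653528)) (l 16631096)) (c (a (l 16654632) (c (a (l 16652208) (l 16636920)) (l 16622632))) (c (l 16616576) (l 16636608)))) (c (a (b (l 16660400) (a (l 16674232) (b (l 16677720) (c (a (l 16685104) (l 16679592)) (a (l 16684368) (l 16678816)))))) (b (a (b (l 16655960) (c (a (l 16663256) (l 16657048)) (l 16659528))) (b (c (l 16644568) (l 16643504)) (l 16652784))) (b (a (c (a (l 16668272) (l 16665520)) (l 16666256)) (l 16663000)) (l 16674640)))) (a (b (l 16679856) (a (l 16693904) (c (l 16658320) (l 16678512)))) (b (a (c (l 16656832) (l 16655872)) (c (l 16647200) (l 16646168))) (c (l 16647720) (l 16667824))))))))), by decide +kernel⟩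

def k69_pp_012 : ∃ t, chk3 f_pp_012 t 60 30 2 = true :=
  ⟨(l 3), by decide +kernel⟩

def k70_pp_012 : ∃ t, chk3 f_pp_012 t 244 120 2 = true :=
  ⟨(b (b (b (a (l 3) (a (l 3) (a (l 3) (c (a (c (l 265381982711) (l 260550143319)) (b (c (l 16766456) (l 16766456)) (c (l 274508792087) (l 273971920215)))) (c (b (l 80698375479) (l 276656266023)) (l 243907150871)))))) (l 3)) (l 3)) (l 3)), by decide +kernel⟩

def k71_pp_012 : ∃ t, chk3 f_pp_012 t 490 120 2 = true :=
  ⟨(b (a (b (b (c (c (a (c (l 57076065143) (l 58149806631)) (l 16763720)) (c (l 54928579991) (l 56539192551))) (c (a (l 62981644151) (l 16753192)) (l 16764672))) (a (b (c (c (l 264845116471) (l 253570826391)) (c (l 256255180039) (l 101099453751))) (l 3)) (c (c (b (l 16771080) (a (l 268603213671) (l 69960969479))) (b (l 16771072) (a (l 268603212791) (l 73182194519)))) (c (c (l 73182176327) (l 74792788727)) (l 77477142807))))) (l 3)) (b (c (b (c (l 16760704) (l 16760672)) (c (l 16768800) (l 16768776))) (b (c (l 16760632) (l 16750104)) (c (l 16763512) (l 16753008))))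 (b (c (c (a (b (a (b (l 16768632) (l 98951991591)) (l 16766192)) (l 269140079127)) (b (l 16764688) (l 59760423511))) (a (b (c (l 71034702967) (l 72645315703)) (l 265918852423)) (b (l 16764680) (l 62444777735)))) (c (a (b (l 75329669607) (l 267529463927)) (l 59760422359)) (c (l 75866513079) (l 78013996071)))) (a (l 3) (b (c (c (c (l 264308249127) (l 263234506935)) (c (l 243370282823) (l 244980895175))) (c (l 247128378263) (l 95193876807))) (l 3)))))) (l 3)), by decide +kernel⟩

def k72_pp_012 : ∃ t, chk3 f_pp_012 t 491 120 2 = true :=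
  ⟨(b (c (b (c (a (l 16763272) (l 16753808)) (a (l 16763216) (l 16753720))) (a (b (c (l 16767608) (l 16767576)) (c (a (b (l 16770792) (a (l 267529475319) (l 64055393159))) (l 16764232)) (a (b (l 16770784) (b (l 69960967911) (l 242296543927))) (l 16764216)))) (c (b (l 16758192) (l 16766368)) (b (l 16758144) (l 16761088))))) (b (c (a (l 16757912) (l 16753640)) (l 16758352)) (a (c (b (l 16762304) (a (c (l 69424083143) (l 71034695559)) (l 16764200))) (c (l 60834145831) (l 16758496))) (c (l 16764808) (l 16759520))))) (a (b (b (b (c (c (a (l 278803750871) (c (l 65665997879) (l 64592256055))) (a (l 278266878391) (c (l 66202868791) (l 67813480871)))) (a (c (l 278803747719) (l 237464654455)) (c (c (l 16763784) (l 16766408)) (l 16761160)))) (a (l 3) (c (b (c (l 266992604215) (l 249812734311)) (l 3)) (c (l 258402662247) (l 260550144807))))) (l 3)) (l 3)) (b (b (c (c (c (l 50633620119) (l 49559878279)) (c (l 50633620087) (l 16769280))) (c (a (l 56539200855) (l 16762976)) (l 16764008))) (b (c (c (a (a (l 273435050839) (c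 (l 71571580551) (l 71034709447))) (l 16770480)) (a (c (l 233169736759) (l 234780351863)) (l 16765224))) (c (a (a (l 271824436071) (l 76403417815)) (l 16765216)) (c (l 73182171975) (l 16755760)))) (a (l 3) (c (c (a (b (l 73719069175) (c (l 98415118759) (l 98415118343))) (l 16771432)) (a (c (l 105931310695) (l 83919602743)) (l 16771432))) (c (c (l 73719054935) (l 75866538247)) (l 78550892151)))))) (a (l 3) (b (b (c (a (l 3) (c (l 271824440023) (l 265918859079))) (c (l 269140075207) (l 270750686535))) (l 3)) (l 3)))))), by decide +kernel⟩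

def k73_pp_012 : ∃ t, chk3 f_pp_012 t 122 121 2 = true :=
  ⟨(l 3), by decide +kernel⟩

def k74_pp_012 : ∃ t, chk3 f_pp_012 t 246 480 2 = true :=
  ⟨(a (a (c (c (l 16749464) (l 16749360)) (c (l 16759728) (l 16759616))) (c (c (b (l 16738496) (l 16741456)) (c (l 16739832) (l 16729248))) (c (l 16739592) (l 16728912)))) (c (a (c (l 16724392) (l 16724072)) (c (c (l 16708936) (l 16708704)) (l 16708360))) (c (c (l 16705440) (l 16705240)) (l 16704944)))), by decide +kernel⟩

def k75_pp_012 : ∃ t, chk3 f_pp_012 t 246 481 2 = true :=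
  ⟨(a (a (c (c (l 16760632) (l 16760560)) (c (l 16755240) (l 16744680))) (c (a (c (b (l 16748320) (l 16751296)) (c (l 16749712) (l 16749656))) (c (l 16741992) (l 16741808))) (c (a (l 16749568) (l 16731136)) (l 16745448)))) (c (a (c (b (l 16728784) (l 16731720)) (c (l 16730032) (l 16729896))) (b (a (c (l 16727552) (l 16727152)) (c (b (l 16719048) (a (l 16722520) (a (b (l 16708784) (l 16721000)) (l 16719384)))) (b (l 16718584) (a (b (l 16721608) (l 16722480)) (b (a (l 16708320) (l 16707200)) (l 16720344)))))) (a (c (b (a (l 16731680) (b (l 16727408) (a (l 16729112) (l 16722304)))) (a (b (l 16732784) (a (l 16734520) (l 16733152))) (b (a (l 16725104) (l 16729624)) (l 16732336)))) (b (a (l 16731320) (b (l 16727008) (a (l 16728728) (l 16727152)))) (a (b (l 16732424) (a (l 16734176) (l 16732800))) (b (a (l 16729968) (l 16729240)) (l 16731976))))) (c (b (a (b (a (l 16719528) (l 16723856)) (l 16726544)) (l 16724552)) (l 16729968)) (b (a (b (a (l 16719104) (l 16723424)) (l 16726136)) (l 16724128)) (l 16729592)))))) (a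 (c (l 16729680) (l 16718904)) (b (a (c (l 16726752) (l 16726352)) (c (b (l 16718112) (a (l 16721640) (b (l 16717872) (l 16719888)))) (b (l 16717640) (a (l 16721192) (l 16718536))))) (a (c (b (a (l 16730952) (b (l 16726608) (l 16727616))) (a (b (l 16732064) (a (l 16733832) (l 16732440))) (b (l 16729288) (l 16731616)))) (b (l 16728712) (a (l 16732392) (l 16730128)))) (c (b (a (b (l 16723552) (l 16725728)) (l 16723704)) (l 16729208)) (b (l 16723848) (l 16728824)))))))), by decide +kernel⟩

def k76_pp_012 : ∃ t, chk3 f_pp_012 t 492 482 2 = true :=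
  ⟨(a (c (b (c (l 16765096) (l 16759808)) (a (c (l 16769128) (l 16763864)) (c (l 16761768) (l 16761736)))) (c (b (l 16759760) (a (l 16763848) (l 16761704))) (a (l 16762312) (l 16749656)))) (c (a (a (c (b (l 16756224) (l 16764464)) (c (l 16762912) (l 16762880))) (c (l 16759072) (l 16758976))) (c (b (l 16746448) (b (l 16759160) (a (l 16762624) (l 16756088)))) (a (l 16755008) (b (l 16754792) (c (l 16752600) (l 16752520)))))) (c (a (c (l 16758912) (l 16755600)) (c (b (l 16756656) (l 16754440)) (l 16750232))) (b (l 16750000) (a (l 16757064) (l 16754264)))))), by decide +kernel⟩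

def k77_pp_012 : ∃ t, chk3 f_pp_012 t 986 482 2 = true :=
  ⟨(c (b (a (c (l 16749072) (l 16748848)) (c (b (a (l 16742448) (b (l 16738208) (a (l 16739992) (l 16738832)))) (a (b (a (l 16744528) (l 16742752)) (a (l 16745536) (l 16744576))) (l 16742744))) (b (a (l 16742168) (b (l 16737888) (a (l 16739696) (l 16738520)))) (a (b (a (l 16744264) (l 16742480)) (a (c (l 16745344) (l 16745216)) (l 16744312))) (l 16742464))))) (a (c (b (a (l 16753256) (b (a (l 16749936) (l 16748336)) (a (b (l 16750648) (l 16751504)) (l 16750392)))) (a (b (a (l 16755376) (b (l 16753448) (l 16754384))) (a (l 16756832) (l 16756256))) (l 16754408))) (b (a (l 16753064) (b (a (l 16749712) (c (l 16748160) (l 16748040))) (a (c (l 16750992) (l 16750888)) (l 16750176)))) (a (b (a (l 16755200) (b (l 16753256) (l 16754200))) (a (b (l 16756096) (l 16757128)) (l 16756088))) (l 16754224)))) (c (l 16745480) (l 16745272)))) (b (a (c (l 16748624) (l 16748400)) (c (b (a (l 16741888) (b (l 16737576) (a (l 16739392) (l 16738208)))) (a (b (l 16743136) (a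 (l 16745024) (l 16744048))) (l 16742184))) (b (a (l 16741608) (b (l 16737256) (l 16738600))) (a (b (l 16742864) (l 16744368)) (l 16741904))))) (a (c (b (a (l 16752872) (b (a (l 16749496) (l 16747864)) (a (l 16750728) (l 16749960)))) (a (b (a (l 16755024) (l 16753608)) (a (l 16756504) (l 16755920))) (l 16754040))) (b (a (l 16752680) (b (l 16748520) (l 16750200))) (a (b (a (l 16754848) (l 16753416)) (l 16756080)) (l 16753856)))) (c (l 16739816) (l 16750088))))), by decide +kernel⟩

def k78_pp_012 : ∃ t, chk3 f_pp_012 t 987 482 2 = true :=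
  ⟨(c (c (a (b (b (a (b (l 16735736) (l 16738152)) (l 16736136)) (l 16741584)) (l 16749216)) (l 16732152)) (b (b (a (a (b (l 16735408) (l 16737840)) (l 16735808)) (l 16734696)) (l 16740552)) (l 16737760))) (c (b (b (c (l 16735224) (l 16735056)) (l 16740264)) (l 16748016)) (a (b (l 16727688) (l 16748552)) (l 16720848)))), by decide +kernel⟩

def k79_pp_012 : ∃ t, chk3 f_pp_012 t 246 966 2 = true :=
  ⟨(a (a (c (a (c (b (c (l 61907905815) (l 60834163655)) (c (l 266992603031) (l 266455736935))) (b (c (l 61371034567) (l 62444776055)) (c (l 264308252855) (l 246054636167)))) (c (l 50096754519) (l 50096754503))) (c (a (a (b (l 72645323607) (l 3)) (c (l 68350347671) (l 69960960407))) (l 16769976)) (a (c (l 79087746087) (l 80698358103)) (l 16764720)))) (a (c (a (c (c (l 16767472) (l 16767456)) (c (l 16767440) (l 16767424))) (c (b (l 16768056) (b (l 16769184) (a (l 16770920) (b (l 16768848) (l 16769624))))) (b (l 16767992) (a (l 16770496) (b (l 16768120) (b (l 16768776) (l 16768256))))))) (a (c (c (l 16762168) (l 16762152))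 (l 16767368)) (c (b (l 16767920) (b (l 16769056) (a (l 16770824) (c (l 16766576) (l 16769168))))) (b (l 16767848) (b (l 16768992) (a (l 16770768) (l 16766496))))))) (c (b (c (a (b (l 16763736) (a (l 16765472) (b (l 16763320) (l 16763936)))) (b (a (l 16760896) (l 16759704)) (l 16762384))) (a (b (l 16763632) (a (l 16765376) (b (l 16763208) (l 16763824)))) (a (b (b (l 16760464) (l 16760992)) (l 16762480)) (c (l 16758224) (l 16755536))))) (c (a (b (a (b (l 16766072) (l 16766768)) (l 16765504)) (l 16768240)) (l 16766176)) (a (b (a (c (l 16765112) (l 16763752)) (l 16765408)) (l 16768168)) (l 16766088)))) (c (b (a (a (l 16764904) (c (l 16760424) (l 16762992))) (b (a (l 16760632) (l 16759424)) (l 16762144))) (a (b (a (c (l 16766336) (l 16766288)) (l 16765320)) (l 16768096)) (l 16766000))) (b (a (b (l 16763416) (l 16759064)) (b (a (l 16760496) (l 16759280)) (l 16762024))) (a (b (a (l 16766224) (l 16765224)) (l 16768024)) (l 16765912))))))) (c (c (a (l 16751208) (l 16748184)) (a (l 16753712) (l 16748040))) (c (a (l 16750968)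 (l 16737416)) (l 16749296)))), by decide +kernel⟩

def k80_pp_012 : ∃ t, chk3 f_pp_012 t 246 1934 2 = true :=
  ⟨(a (a (a (l 3) (c (a (c (l 270213829319) (l 265918861223)) (c (l 65666004727) (c (l 16766472) (l 16766472)))) (c (a (l 257328925831) (l 68887229703)) (c (l 81772111207) (l 16753752))))) (a (c (a (a (a (c (l 16765800) (l 16771040)) (c (l 16770288) (l 16772896))) (c (b (l 16773656) (b (l 16771848) (l 16770176))) (b (l 16773632) (b (c (l 16769208) (l 16769200)) (l 16770160))))) (b (c (a (b (l 16771648) (l 16772512)) (l 16771384)) (a (b (l 16770128) (l 16769848)) (l 16771336))) (c (l 16774152) (l 16763640)))) (c (a (a (c (l 16773280) (l 16770656)) (b (l 16773600) (c (l 16772360) (l 16769728)))) (b (a (c (l 16769456) (l 16766816)) (l 16771288)) (l 16774104))) (b (a (l 16769288) (c (l 16769096) (l 16761208))) (a (a (l 16774320) (c (l 16764480) (l 16753984))) (l 16774080))))) (c (c (l 16761208) (l 16761168)) (c (l 16761128) (l 16750600))))) (c (c (l 16757368) (l 16761888)) (c (l 16762480) (l 16757168)))),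 by decide +kernel⟩

def k81_pp_012 : ∃ t, chk3 f_pp_012 t 246 1935 2 = true :=
  ⟨(a (a (b (b (b (a (l 3) (c (c (l 283098726599) (l 279340629095)) (c (l 279877498887) (l 238001545639)))) (l 3)) (l 3)) (l 3)) (a (a (a (b (a (b (b (c (c (l 16777144) (l 16777144)) (c (l 16777136) (l 16777136))) (c (c (l 16776392) (c (l 16776344) (l 16776320))) (c (l 90898950151) (l 16776216)))) (l 3)) (c (c (b (l 16771664) (l 16776440)) (b (l 16775592) (l 16776384))) (b (c (l 16774280) (l 16771656)) (c (l 16776328) (l 16776272))))) (l 3)) (c (c (b (l 16771560) (l 16775552)) (b (l 16775488) (l 16770192))) (c (b (l 16774176) (l 16770072)) (c (l 16766632) (l 16756144))))) (c (c (l 53854856119) (c (l 16773584) (l 16773912))) (c (c (l 16771288) (l 16771288)) (l 16773248)))) (c (c (l 16770128) (b (l 16769792) (l 16765200))) (c (c (l 16770104) (l 16764856)) (l 16770088))))) (c (c (b (l 16765960) (l 16761352)) (a (c (l 16767784) (l 16767776)) (l 16764704))) (c (a (l 16770376) (l 16759416)) (c (l 16760928) (l 16750424))))), by decide +kernel⟩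

def k82_pp_012 : ∃ t, chk3 f_pp_012 t 494 240 4 = true :=
  ⟨(b (b (b (a (c (l 16701616) (l 16701008)) (a (c (a (b (l 16691592) (l 16687576)) (l 16679800)) (a (b (l 16690904) (l 16686896)) (l 16689584))) (l 16688776))) (a (a (c (l 16706920) (l 16706360)) (b (c (l 16698848) (l 16698224)) (a (l 16700488) (c (l 16693072) (l 16692440))))) (c (l 16694832) (l 16694168)))) (a (a (b (c (l 16708352) (l 16707800)) (c (a (l 16711744) (b (l 16705168) (l 16704216))) (a (l 16711216) (b (l 16707232) (l 16703672))))) (b (c (a (b (l 16697104) (l 16698624)) (l 16701584)) (a (b (l 16691256) (l 16698032)) (l 16700976))) (c (l 16706928) (l 16706368)))) (c (l 16702304) (l 16701704)))) (a (c (b (a (b (a (b (l 16713280) (l 16709864)) (l 16713024)) (l 16718416)) (l 16714464)) (l 16725256)) (b (a (b (a (b (l 16713176) (l 16714608)) (l 16712512)) (l 16717944)) (l 16713960)) (l 16724840))) (c (l 16717344) (l 16706384)))), by decide +kernel⟩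

def k83_pp_012 : ∃ t, chk3 f_pp_012 t 495 240 4 = true :=
  ⟨(c (c (a (a (b (l 16695376) (l 16715344)) (c (c (a (c (c (a (b (a (l 16694616) (l 16683560)) (a (l 16704040) (l 16703472))) (b (l 16692728) (l 16712616))) (a (l 16683616) (b (b (l 16689008) (l 16698928)) (b (l 16708888) (l 16718872))))) (l 16683416)) (c (b (l 16690632) (l 16689520)) (c (a (b (b (l 16688712) (l 16698632)) (b (l 16708584) (l 16718576))) (b (l 16692280) (l 16712176))) (b (b (l 16688640) (l 16698568)) (b (l 16708520) (l 16718512)))))) (l 16683016)) (l 16682904))) (c (c (b (a (b (l 16671032) (l 16680904)) (l 16678576)) (a (b (l 16690808) (l 16700752)) (l 16677304))) (a (c (a (b (c (a (l 16682560) (l 16691808)) (a (l 16693184) (l 16692728))) (c (a (l 16702472) (l 16690736)) (l 16702368))) (a (b (a (l 16680712) (l 16690296)) (l 16694872)) (l 16677752))) (a (l 16681960) (b (c (a (l 16692400) (l 16680824)) (l 16692256)) (c (a (l 16712312) (l 16700720)) (l 16712168))))) (a (a (c (l 16675760) (c (l 16678440) (b (l 16680568) (l 16700464))))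 (l 16675552)) (l 16667328)))) (a (l 16681520) (c (c (c (a (a (b (l 16691728) (l 16711640)) (b (l 16680296) (l 16700200))) (l 16677024)) (a (l 16680528) (a (b (l 16680024) (l 16699928)) (l 16677808)))) (c (a (l 16680520) (a (l 16680000) (b (l 16690232) (l 16699648)))) (l 16680160))) (l 16680112))))) (b (l 16692976) (l 16712992))) (b (l 16692472) (l 16702128))), by decide +kernel⟩

def k84_pp_012 : ∃ t, chk3 f_pp_012 t 494 241 8 = true :=
  ⟨(b (a (l 16729944) (l 16716544)) (b (l 16743720) (b (l 16740880) (l 16755008)))), by decide +kernel⟩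

def k85_pp_012 : ∃ t, chk3 f_pp_012 t 990 241 16 = true :=
  ⟨(b (c (a (l 16735480) (c (c (a (c (a (b (l 16729192) (l 16728760)) (l 16732640)) (a (l 16734616) (b (l 16728896) (l 16738952)))) (l 16709520)) (a (l 16734424) (a (b (l 16723448) (l 16728264)) (c (l 16711232) (l 16722832))))) (l 16734040))) (l 16734688)) (b (c (a (l 16750632) (c (c (a (c (a (l 16738848) (l 16747752)) (l 16741472)) (l 16745584)) (a (l 16749560) (c (a (l 16727776) (l 16747312)) (l 16738208)))) (l 16749184))) (l 16749864)) (c (a (l 16754800) (c (c (a (b (c (l 16750800) (l 16746440)) (c (a (l 16750048) (l 16758936)) (a (l 16760952) (l 16760248)))) (b (l 16753152) (l 16756752))) (a (l 16748472) (b (c (a (l 16756344) (l 16754896)) (l 16756288)) (c (a (l 16759952) (l 16758504)) (l 16754656))))) (l 16748104))) (l 16754048)))), by decide +kernel⟩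

def k86_pp_012 : ∃ t, chk3 f_pp_012 t 991 241 16 = true :=
  ⟨(b (c (c (a (a (l 16712512) (l 16703216)) (l 16697144)) (a (c (a (c (a (l 16722520) (l 16710768)) (l 16722416)) (a (l 16720136) (l 16728664))) (a (l 16732968) (c (a (l 16711392) (l 16710272)) (l 16711256)))) (a (c (l 16725616) (b (l 16713664) (l 16723704))) (l 16702416)))) (a (l 16732568) (c (c (a (c (a (l 16731696) (l 16709752)) (l 16731528)) (a (c (l 16728960) (l 16709480)) (l 16727848))) (a (l 16731520) (c (a (l 16731000) (l 16709208)) (l 16730816)))) (l 16731144)))) (c (c (b (a (l 16720288) (l 16712112)) (b (l 16723728) (c (l 16725440) (l 16737024)))) (c (a (b (a (c (a (l 16748136) (l 16746848)) (l 16748032)) (l 16723744)) (a (b (c (l 16749728) (l 16755624)) (c (a (l 16759336) (l 16758040)) (l 16759232))) (b (l 16731320) (l 16745400)))) (b (l 16738624) (l 16737472))) (a (b (a (l 16748104) (c (a (l 16747488) (l 16746360)) (l 16747352))) (a (l 16757504) (b (c (l 16749160) (l 16754952)) (c (a (l 16758696) (l 16757552)) (l 16758560))))) (b (a (l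 16733776) (l 16740264)) (b (l 16739328) (a (l 16744952) (l 16751408))))))) (a (b (l 16747720) (l 16746640)) (c (a (a (b (l 16746832) (l 16750992)) (c (b (l 16738200) (b (l 16743168) (c (l 16757032) (l 16757680)))) (b (l 16746480) (l 16755880)))) (c (b (l 16733304) (b (l 16740888) (a (l 16745464) (l 16754104)))) (b (c (l 16735144) (l 16745952)) (b (l 16742816) (c (l 16751584) (l 16757152)))))) (b (l 16746288) (l 16755688)))))), by decide +kernel⟩

def k87_pp_012 : ∃ t, chk3 f_pp_012 t 495 241 17 = true :=
  ⟨(b (l 16712176) (b (l 16748352) (b (l 16755984) (l 16759616)))), by decide +kernel⟩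

def k88_pp_012 : ∃ t, chk3 f_pp_012 t 247 241 9 = true :=
  ⟨(b (a (a (l 16729656) (l 16716240)) (l 16711928)) (b (a (l 16743552) (l 16748200)) (b (a (l 16740776) (l 16755880)) (a (l 16754936) (l 16759528))))), by decide +kernel⟩

def k89_pp_012 : ∃ t, chk3 f_pp_012 t 247 120 5 = true :=
  ⟨(b (a (b (a (a (a (c (l 16708496) (l 16707952)) (b (l 16702800) (b (l 16704976) (c (b (l 16706664) (l 16708368)) (l 16707104))))) (b (c (b (l 16696456) (a (l 16699864) (l 16696480))) (l 16691568)) (a (b (c (l 16702048) (l 16701448)) (l 16705872)) (c (l 16702896) (l 16702304))))) (b (a (c (b (a (l 16690944) (l 16688880)) (l 16694224)) (b (l 16689424) (l 16693560))) (l 16689888)) (c (l 16701096) (l 16700488)))) (b (b (a (a (a (c (b (l 16712248) (l 16714104)) (l 16712800)) (l 16711728)) (l 16710632)) (l 16708464)) (c (l 16715280) (l 16714792))) (c (l 16722960) (l 16722528)))) (c (b (l 16691800) (l 16712112)) (l 16677752))) (b (c (a (a (l 16718880) (l 16715936)) (l 16711592)) (a (l 16717104) (l 16711256))) (b (c (a (l 16732896)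 (l 16747992)) (a (l 16732720) (l 16747784))) (b (c (a (l 16740672) (l 16755736)) (l 16749376)) (c (a (l 16754856) (l 16759416)) (a (l 16744296) (l 16759304))))))), by decide +kernel⟩

def k90_pp_012 : ∃ t, chk3 f_pp_012 t 246 121 4 = true :=
  ⟨(b (a (a (l 3) (b (b (a (a (l 3) (c (l 224579798567) (c (l 223506055959) (l 219747959047)))) (b (c (l 16771280) (l 56539205559)) (c (l 191830681655) (c (l 190756939495) (l 192367552023))))) (l 3)) (l 3))) (b (c (a (b (l 16769512) (a (b (a (l 107005060199) (l 16776800)) (l 227264152247)) (b (l 16765152) (l 61907910679)))) (l 16767536)) (a (b (l 16772112) (a (a (c (l 224042928455) (l 220821702503)) (b (l 16771552) (l 223506060743))) (c (l 55465458951) (l 56002329863)))) (c (l 16767512) (l 16762256)))) (a (b (a (l 3) (a (l 3) (c (l 224579806951) (c (l 224042935383) (l 221895446055))))) (l 3)) (b (c (a (b (l 16771048) (a (l 225653546791) (l 16770448))) (l 16764816)) (a (b (l 16771048) (a (l 224042933431) (l 64055396503))) (l 16770048))) (a (b (c (l 235317212631) (l 232095985719))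 (l 3)) (b (c (a (l 74792808919) (l 16776560)) (a (b (l 16771816) (l 102710096247)) (l 16771312))) (b (c (l 225116675959) (l 224579807031)) (l 3)))))))) (l 3)), by decide +kernel⟩

def k91_pp_012 : ∃ t, chk3 f_pp_012 t 494 121 16 = true :=
  ⟨(b (b (l 16757768) (a (b (l 16762528) (l 53854849479)) (l 16760584))) (b (a (b (a (a (l 235854083095) (l 223506068727)) (b (l 16765576) (a (b (l 16771616) (l 95730770599)) (l 16776768)))) (a (l 3) (b (l 230485378087) (l 3)))) (b (l 16763832) (a (b (l 62981652439) (l 225116680855)) (l 16770472)))) (b (a (l 3) (a (l 3) (b (a (l 227264160183) (l 16770400)) (l 235854084087)))) (l 3)))), by decide +kernel⟩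

def k92_pp_012 : ∃ t, chk3 f_pp_012 t 495 242 32 = true :=
  ⟨(a (a (l 16756208) (c (a (c (c (a (b (l 16759296) (c (l 16763400) (l 16762544))) (l 16753240)) (a (l 16765776) (b (l 16757696) (c (l 16763128) (l 16756976))))) (l 16765584)) (c (b (l 16738440) (l 16753128)) (c (a (a (l 16759832) (b (l 16762456) (l 16762768))) (l 16756736)) (a (l 16765032) (a (l 16754248) (b (l 16762168) (l 16761168))))))) (l 16744240))) (c (a (a (a (b (l 16747664) (b (l 16750800) (l 16756832))) (l 16747672)) (l 16744520)) (b (l 16725744) (l 16729776))) (c (a (a (b (a (l 16756832) (c (l 16760712) (l 16761696))) (c (a (b (l 16765200) (l 16762080)) (l 16759696)) (a (l 16766424) (l 16760688)))) (a (b (l 16749088) (c (l 16762904) (l 16759448))) (l 16738680))) (l 16743912)) (a (a (l 16764112) (a (b (l 16761400) (l 16760392)) (c (b (l 16749736) (l 16759848)) (l 16757904)))) (a (a (b (l 16753856) (c (l 16762496) (b (l 16752640) (l 16759992)))) (l 16738264)) (l 16735120)))))), by decide +kernel⟩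

def k93_pp_012 : ∃ t, chk3 f_pp_012 t 990 486 32 = true :=
  ⟨(a (l 16767880) (c (a (c (c (a (c (a (a (l 16767008) (l 16769320)) (l 16760744)) (a (l 16772280) (b (l 16765600) (l 16770360)))) (l 16759608)) (a (l 16772184) (c (a (b (l 16770688) (l 16770208)) (l 16760520)) (a (l 16771904) (b (l 16770536) (l 16770056)))))) (l 16772000)) (c (c (l 16756384) (a (l 16764640) (l 16757256))) (c (a (c (a (l 16768824) (l 16765528)) (l 16768768)) (b (l 16758104) (l 16768096))) (c (a (l 16771440) (a (l 16765872) (l 16765272))) (l 16765992))))) (l 16761136))), by decide +kernel⟩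

def k94_pp_012 : ∃ t, chk3 f_pp_012 t 990 974 32 = true :=
  ⟨(a (b (l 16765336) (a (b (l 16777008) (l 103783838391)) (l 16771272))) (c (c (a (c (a (c (a (a (l 16773512) (a (l 16772664) (l 16769840))) (l 16763952)) (a (l 16775504) (a (l 16772688) (a (l 16772520) (l 16772336))))) (b (l 16762280) (c (b (l 16773080) (b (a (l 16774024) (c (b (l 16772616) (a (l 16773024) (l 16771232))) (l 16773176))) (b (a (l 16774224) (c (a (c (l 16771832) (l 16773280)) (l 6)) (l 16773376))) (a (c (a (l 16774392) (c (l 16773200) (l 16773968))) (l 16774600)) (l 6))))) (l 16769080)))) (a (l 16775408) (c (a (a (l 16769896) (a (l 16772368) (l 16772200))) (l 16768976)) (a (l 16775128) (a (l 16769728) (l 16772768)))))) (a (b (l 16766328) (c (a (b (l 16769320) (b (a (c (c (b (l 16771848) (c (l 16772128) (l 16772136))) (l 16772360)) (l 16773096)) (a (b (b (l 16769496) (l 6)) (l 6)) (l 6))) (l 6))) (b (c (b (l 16770232) (c (b (a (l 16770464) (c (l 16769960) (l 16770048))) (a (c (l 16770680) (l 16770744)) (l 6))) (l 16770752))) (l 16771344))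 (l 6))) (l 16770992))) (b (b (l 16758664) (b (l 16759056) (c (c (a (l 16768880) (c (b (l 16767512) (a (l 16767944) (c (l 16767528) (l 16767544)))) (l 16768040))) (l 16769320)) (l 16770784)))) (b (b (c (c (a (c (b (a (l 16769104) (l 16767824)) (a (c (l 16769248) (l 16769368)) (l 6))) (l 16769392)) (l 6)) (l 16769584)) (l 16771056)) (l 6)) (l 6))))) (a (l 16764736) (c (a (c (a (b (l 16771496) (l 16773880)) (l 16771360)) (a (l 16774744) (l 16772528))) (a (c (l 16772936) (l 16771560)) (l 16761856))) (a (l 16774648) (c (a (l 16771704) (b (l 16767944) (l 16771640))) (l 16769008)))))) (l 16764352))), by decide +kernel⟩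

def k95_pp_012 : ∃ t, chk3 f_pp_012 t 990 975 32 = true :=
  ⟨(b (c (b (a (l 226727294855) (a (c (a (c (c (a (c (b (l 16775104) (b (a (l 16771608) (c (l 16773736) (l 16776544))) (a (c (a (l 16775776) (l 16775632)) (l 16777064)) (a (b (l 16775424) (l 6)) (l 6))))) (l 16775800)) (b (b (l 16772968) (c (a (l 16773152) (b (l 16774592) (l 6))) (l 16765472))) (a (a (b (b (a (l 16773688) (l 16773568)) (l 6)) (l 6)) (l 6)) (l 6)))) (a (l 16776848) (c (a (l 16771384) (l 16771000)) (l 16773992)))) (l 16776752)) (a (a (b (c (c (c (b (c (b (l 16774440) (l 16774648)) (l 16774664)) (l 6)) (l 16772480)) (l 16770568)) (l 16776360)) (l 6)) (l 6)) (l 6))) (l 16776560)) (l 6))) (a (b (b (b (b (b (l 240149059511) (l 3)) (l 3)) (l 3)) (l 3)) (l 3)) (l 6))) (a (l 228874769047) (l 16771208))) (a (l 3) (l 6))), by decide +kernel⟩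

def k96_pp_012 : ∃ t, chk3 f_pp_012 t 1982 486 64 = true :=
  ⟨(c (b (l 16749888) (b (l 16751440) (a (l 16759880) (c (b (a (l 16760664) (c (b (a (l 16758440) (c (b (l 16757072) (a (l 16752240) (l 16756424))) (l 16757608))) (b (a (l 16758656) (a (b (l 16757864) (l 6)) (l 6))) (a (c (a (l 16756216) (c (l 16753184) (l 16753200))) (l 16759000)) (l 6)))) (l 16759000))) (a (c (b (a (l 16761104) (c (b (l 16759776) (a (l 16760216) (l 6))) (l 16760272))) (a (c (b (c (b (l 16760952) (l 16761112)) (l 16761184)) (a (c (l 16758912) (l 16756360)) (l 6))) (l 16761616)) (l 6))) (l 16761672)) (a (b (b (a (a (b (l 16758464) (l 6)) (l 6)) (l 6)) (l 6)) (l 6)) (l 6)))) (l 16756552))))) (a (c (l 16755976) (a (a (b (l 16763632) (l 16768384)) (l 16747968)) (l 16756840))) (l 16752656))), by decide +kernel⟩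

def k97_pp_012 : ∃ t, chk3 f_pp_012 t 1983 486 64 = true :=
  ⟨(b (c (a (l 16753984) (b (l 16749248) (c (b (a (l 16750096) (b (l 16747856) (a (l 16748632) (c (l 16747144) (l 16748056))))) (b (a (l 16750472) (c (b (a (l 16748344) (a (l 16746976) (l 6))) (a (c (l 16748024) (l 16748704)) (l 6))) (l 16748832))) (b (a (l 16750672) (a (a (b (l 16749344) (l 6)) (l 6)) (l 6))) (a (c (a (l 16750832) (c (a (l 16744616) (l 16746880)) (l 16750016))) (l 16751264)) (l 6))))) (l 16751208)))) (l 16734736)) (b (c (a (c (b (a (l 16755360) (c (b (l 16752616) (a (l 16753416) (c (b (l 16751808) (a (l 16751272) (l 6))) (l 16747352)))) (l 16753712))) (b (a (l 16753136) (c (a (c (b (a (l 16748416) (l 16751968)) (a (l 16753320) (l 6))) (l 16753936)) (l 6)) (l 16754112))) (a (c (b (a (l 16755976) (c (a (l 16752392) (l 16754344)) (l 16755152))) (a (c (l 16755944) (l 16756344)) (l 6))) (l 16756480)) (l 6)))) (l 16756480)) (a (b (b (c (c (b (a (l 16751008) (c (a (l 16748888) (l 6)) (l 16747584))) (a (a (l 16750112) (l 6)) (l 6))) (l 16751456))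 (l 16752904)) (l 6)) (l 6)) (l 6))) (l 16746760)) (a (a (a (a (b (b (b (a (l 16754792) (b (l 16754488) (l 6))) (l 6)) (l 6)) (l 6)) (l 6)) (l 6)) (l 6)) (l 6)))), by decide +kernel⟩

def k98_pp_012 : ∃ t, chk3 f_pp_012 t 991 486 65 = true :=
  ⟨(a (a (c (a (a (l 16760288) (c (c (l 16767632) (l 16770592)) (l 16770592))) (c (a (c (l 16769320) (l 16767488)) (l 16768728)) (a (l 16770408) (c (l 16767352) (l 16770224))))) (l 16770496)) (a (c (a (c (l 16767656) (c (l 16769112) (l 16764584))) (l 16757064)) (c (a (l 16770032) (b (l 16768672) (l 16768176))) (l 16769944))) (c (l 16744968) (c (a (c (l 16768896) (l 16764280)) (l 16757816)) (l 16766240))))) (c (l 16750104) (a (c (l 16744664) (a (a (c (l 16758176) (l 16758720)) (l 16757584)) (l 16766496))) (l 16741344)))), by decide +kernel⟩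

def k99_pp_012 : ∃ t, chk3 f_pp_012 t 991 487 32 = true :=
  ⟨(b (b (a (a (c (a (a (c (c (b (l 16766544) (c (a (b (l 16766736) (c (b (c (l 16766808) (l 16766848)) (l 6)) (l 16767272))) (b (b (l 16766120) (b (l 16764952) (l 6))) (l 6))) (l 16767560))) (l 16768768)) (c (l 16770720) (c (l 16772192) (l 16767816)))) (c (c (a (b (l 16765736) (b (b (b (l 16763432) (a (l 16764944) (l 6))) (l 6)) (l 6))) (b (a (l 16762720) (b (l 16764928) (b (l 16765128) (b (l 16765240) (l 6))))) (l 6))) (l 16767680)) (l 16760136))) (b (c (c (a (c (b (l 16762488) (b (c (a (l 16764064) (c (l 16763688) (l 16763672))) (l 16764208)) (l 6))) (l 16764872)) (b (c (c (b (a (l 16762688) (c (l 16762248) (l 16757040))) (a (c (l 16762968) (l 16762976)) (l 6))) (l 16762976)) (l 16763664)) (l 6))) (l 16765800)) (l 16768728)) (l 6))) (c (c (a (c (a (l 16773440) (l 16770296)) (l 16773360)) (a (c (l 16771984) (l 16770160)) (l 16771384))) (a (l 16773360) (c (a (l 16773080) (l 16767392)) (l 16772984)))) (l 16773176))) (l 6)) (l 6)) (l 6)) (l 6)), by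 decide +kernel⟩

def k100_pp_012 : ∃ t, chk3 f_pp_012 t 495 121 33 = true :=
  ⟨(a (b (l 16755448) (b (l 16767120) (b (a (b (l 16765328) (a (l 74255937703) (l 16776512))) (l 16764352)) (a (b (l 228337897943) (l 3)) (b (l 16771208) (l 6)))))) (b (c (a (l 16763744) (c (c (a (a (l 16752320) (b (l 16749216) (b (l 16752376) (l 16759728)))) (l 16737960)) (a (l 16752160) (a (c (l 16750840) (l 16756640)) (l 16759776)))) (c (a (l 16762648) (a (l 16762104) (a (l 16756400) (l 16755760)))) (l 16762288)))) (l 16742032)) (b (c (a (l 16770120) (c (a (c (a (l 16763920) (a (a (l 16766168) (l 16764552)) (l 16762592))) (l 16758520)) (a (c (l 16766288) (a (a (l 16763232) (l 16764264)) (l 16762344))) (l 16744144))) (a (l 16769008) (a (l 16768456) (c (c (l 16762168) (l 16763984)) (l 16768088)))))) (l 16758888)) (a (l 704626967) (l 6))))), by decide +kernel⟩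

def k101_pp_012 : ∃ t, chk3 f_pp_012 t 247 121 17 = true :=
  ⟨(a (b (b (l 16757736) (a (b (l 16762512) (l 52244236407)) (l 16760560))) (b (a (b (a (a (l 234243469575) (l 223506068407)) (b (l 16765568) (a (b (l 16771600) (l 95730770247)) (l 16776760)))) (a (l 3) (b (l 228874764727) (l 3)))) (b (l 16763816) (a (b (l 61907910615) (l 225116680503)) (l 16770472)))) (a (l 3) (b (a (l 3) (b (a (l 226727288951) (l 16770400)) (l 233706599655))) (l 3))))) (b (a (l 16755424) (l 16742000)) (b (a (l 16767112) (l 16758872)) (a (b (a (b (l 16765328) (a (l 73719066759) (l 16776512))) (l 16764344)) (a (b (l 227801037127) (l 3)) (b (l 16771208) (l 6)))) (b (l 16762080) (l 6)))))), by decide +kernel⟩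

def k102_pp_012 : ∃ t, chk3 f_pp_012 t 247 121 9 = true :=
  ⟨(b (a (b (c (l 16757704) (l 16762920)) (a (b (l 16767736) (c (l 50633623655) (l 50096752727))) (l 16765776))) (b (l 16751752) (c (l 16756056) (l 16756016)))) (a (b (b (a (a (b (a (l 226727284551) (c (l 70497843255) (l 69424101111))) (l 3)) (b (l 16770808) (a (b (l 71571589239) (c (l 95193898983) (l 95193898615))) (l 57076078919)))) (l 16771672)) (a (a (l 3) (b (a (l 3) (l 226727289079)) (l 3))) (c (a (b (l 60834168615) (l 224579809223)) (l 16770464)) (a (b (l 59223555639) (l 224579808855)) (l 16770464))))) (a (l 3) (b (a (l 3) (c (b (a (l 226190417703) (l 16769088)) (l 235317211591)) (b (a (l 225653546471) (l 16770400)) (l 229948501687)))) (l 3)))) (b (a (c (l 16761856) (l 16767080)) (l 16758840)) (a (b (a (a (b (l 16770944) (c (l 72645324727) (l 71571582695))) (l 16773344)) (l 16769576)) (a (b (c (l 227264155223) (l 226727289047)) (l 3)) (b (c (l 16771200) (l 16771200)) (l 6)))) (b (l 16767304) (l 6)))))), by decide +kernel⟩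

def k103_pp_012 : ∃ t, chk3 f_pp_012 t 123 242 5 = true :=
  ⟨(a (a (a (l 3) (b (b (a (a (l 3) (c (a (l 229411631511) (l 214379252295)) (l 218137344455))) (c (b (l 59223559943) (c (l 193978164535) (l 83919601463))) (c (l 74255924279) (l 76403407591)))) (l 3)) (l 3))) (b (c (a (b (l 16769480) (a (b (c (l 72108449383) (l 73719062119)) (l 222432311735)) (c (l 57612942583) (l 16768304)))) (c (l 16762240) (l 16762224))) (a (b (l 16764216) (a (b (l 76403416023) (l 224579794231)) (l 60834167719))) (l 16767448))) (a (b (b (a (l 3) (a (l 3) (c (c (l 79624644407) (l 81235257015)) (l 84456481943)))) (l 3)) (l 3)) (b (c (a (b (l 16771040) (c (l 183777620983) (l 77477153767))) (l 16770032)) (c (a (l 69960960455) (l 16754296)) (l 64592250087))) (a (b (c (l 231022242439) (l 232632853719)) (l 3)) (c (b (c (l 66202873143) (l 67813485703)) (c (l 211694897367) (l 212768638711))) (c (a (l 204715577527) (l 73182187767)) (l 190220069671)))))))) (a (b (c (c (l 16757648) (l 16757624)) (l 16762816)) (c (a (a (c (l 50633623303) (l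 16769584)) (l 16768040)) (l 16765736)) (a (c (l 16768792) (l 16763544)) (l 16760456)))) (c (b (l 16741176) (l 16761208)) (b (l 16741080) (l 16761144))))), by decide +kernel⟩

def k104_pp_012 : ∃ t, chk3 f_pp_012 t 123 243 5 = true :=
  ⟨(a (l 3) (a (b (a (b (a (b (c (a (l 222969187255) (c (l 71571584759) (l 16768024))) (c (l 195588777095) (l 85530212375))) (l 3)) (c (b (l 16770800) (a (c (l 80698383767) (l 82845866887)) (l 58686691479))) (c (l 65129125703) (l 66739738423)))) (b (a (l 3) (a (l 3) (c (l 220284834727) (c (l 94657020071) (l 96804503319))))) (l 3))) (c (b (l 16771648) (a (b (c (l 60297297367) (l 61907909943)) (c (l 221895453943) (l 202031224583))) (l 49559887127))) (b (l 16769008) (a (a (b (l 71034715559) (l 3)) (c (l 67276612167) (l 16765048))) (l 16773064))))) (a (l 3) (b (a (l 3) (a (c (c (l 224042925063) (l 219747955767)) (c (l 219211084167) (l 220284825303))) (b (c (c (l 16769088) (l 16769088)) (l 66739750631)) (c (l 229411636519) (l 228874764503))))) (l 3)))) (b (c (a (c (l 16761824) (l 16761808))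 (l 16764032)) (c (a (l 16761792) (l 16748264)) (l 16760248))) (a (b (c (a (a (b (l 16770944) (c (l 72108453415) (l 73719065943))) (l 16773336)) (l 16769560)) (a (c (l 60297292071) (l 61907904631)) (l 16769544))) (b (a (c (c (l 224579804887) (l 210621155415)) (c (l 211694896727) (l 212768638023))) (b (c (l 16770928) (l 16765672)) (l 6))) (a (l 3) (l 6)))) (b (c (l 16767272) (l 16762000)) (l 6)))))), by decide +kernel⟩

def k105_pp_012 : ∃ t, chk3 f_pp_012 t 61 61 2 = true :=
  ⟨(a (l 3) (a (l 3) (a (l 3) (a (l 3) (l 6))))), by decide +kernel⟩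

def k106_pp_012 : ∃ t, chk3 f_pp_012 t 30 31 2 = true :=
  ⟨(l 3), by decide +kernel⟩

def k107_pp_012 : ∃ t, chk3 f_pp_012 t 60 30 3 = true :=
  ⟨(l 3), by decide +kernel⟩

def k108_pp_012 : ∃ t, chk3 f_pp_012 t 122 60 3 = true :=
  ⟨(b (b (b (a (a (l 3) (a (l 3) (a (l 3) (c (c (l 260550123367) (l 110763063511)) (l 119352994423))))) (c (a (c (b (l 16752144) (c (l 58686620855) (l 16734064))) (l 52244166807)) (c (l 16745176) (l 16745104))) (c (l 43117349463) (l 16728360)))) (a (l 3) (c (a (a (l 3) (b (c (l 80698349959) (l 16755904)) (c (l 268066311399) (l 270750663623)))) (c (a (l 64592241511) (l 16748992)) (l 16751104))) (c (a (l 260013232423) (l 16751072)) (l 60833970999))))) (a (l 3) (a (l 3) (b (c (a (b (c (a (l 192367472599) (l 88751417591)) (l 101636277831)) (l 3)) (c (c (a (l 80698335815) (l 16753944)) (l 76403366407)) (l 79087719975))) (c (a (l 265918815719) (l 16734000)) (l 16705232))) (b (a (l 3) (a (l 3) (c (c (l 275582509719) (l 233706555431)) (l 126332340279)))) (l 3)))))) (l 3)), by decide +kernel⟩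

def k109_pp_012 : ∃ t, chk3 f_pp_012 t 246 240 3 = true :=
  ⟨(a (c (a (c (l 16741552) (l 16741456)) (c (b (l 16728720) (l 16734808)) (l 16731576))) (a (c (l 16741360) (l 16762240)) (c (l 16731400) (l 16731224)))) (c (a (c (l 16715592) (l 16715280)) (b (c (l 16717456) (l 16716992)) (b (a (l 16725744) (c (b (l 16717160) (l 16719616)) (l 16718136))) (c (a (b (l 16728328) (a (l 16732032) (l 16729752))) (l 16725976)) (a (b (l 16727936) (l 16730744)) (l 16725568)))))) (b (l 16703536) (a (l 16717872) (c (b (l 16721536) (a (l 16729224) (l 16725152))) (b (l 16721096) (l 16727208))))))), by decide +kernel⟩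

def k110_pp_012 : ∃ t, chk3 f_pp_012 t 492 241 3 = true :=
  ⟨(c (a (b (c (l 16750712) (l 16750672)) (b (c (c (l 73182163815) (l 16755280)) (l 16755272)) (a (l 3) (b (c (l 16753648) (l 16774472)) (b (c (c (l 112910611543) (l 115594965399)) (l 119889931671)) (l 3)))))) (b (a (c (l 16744976) (l 16744896)) (c (l 16736864) (l 16736712))) (b (a (c (a (l 16751608) (b (l 16767776) (l 16764256))) (a (l 16751576) (l 16747632))) (c (b (a (l 16763784) (b (l 16759864) (l 16761896))) (c (l 16761216) (l 16745448))) (b (a (l 16763680) (l 16760880)) (l 16745384)))) (b (a (c (a (a (l 16754912) (b (l 16773544) (l 16753968))) (c (l 16762440) (l 16751936))) (a (l 16769952) (l 16751912))) (c (l 16771528) (l 16771480))) (c (a (a (b (b (c (l 49559888823) (l 16755896)) (l 16766552)) (l 16762776)) (l 16755552)) (l 16754352)) (b (c (l 16770568) (l 16754840)) (l 16776424))))))) (a (b (l 16761104) (b (c (l 16755272) (l 16776232)) (a (l 3) (b (l 84993333319) (c (l 126332368583) (l 16738656)))))) (b (c (l 16740688) (l 16740576)) (b (c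 (a (l 16749584) (c (l 16743664) (l 16743608))) (a (l 16749536) (l 16743536))) (b (c (a (l 16763752) (l 16771440)) (l 16751968)) (c (l 16755152) (l 16776120))))))), by decide +kernel⟩

def k111_pp_012 : ∃ t, chk3 f_pp_012 t 493 241 3 = true :=
  ⟨(b (c (a (b (a (c (l 16748176) (l 16747944)) (c (b (l 16729136) (a (l 16743488) (l 16741624))) (b (l 16739320) (l 16742472)))) (a (c (b (a (l 16752488) (l 16744040)) (a (b (l 16754048) (l 16755912)) (l 16753672))) (b (l 16729864) (l 16754336))) (c (l 16749872) (l 16749648)))) (c (l 16729216) (l 16721080))) (a (c (b (a (l 16747712) (l 16740904)) (a (l 16731720) (l 16749432))) (b (l 16723336) (l 16730192))) (c (l 16741768) (l 16741488)))) (c (b (c (l 16738680) (l 16738544)) (c (b (l 16746616) (l 16760880)) (b (l 16746544) (l 16750360)))) (c (b (l 16759376) (l 16748400)) (l 16743304)))), by decide +kernel⟩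

def k112_pp_012 : ∃ t, chk3 f_pp_012 t 246 121 3 = true :=
  ⟨(b (b (a (a (l 3) (b (c (c (a (b (l 102710072839) (l 3)) (l 79087761815)) (l 93583243143)) (c (l 16749576) (l 16770208))) (l 3))) (c (a (c (c (l 68887199543) (l 70497811607)) (l 73182165495)) (c (l 16751688) (l 16751656))) (c (l 16753208) (l 16753192)))) (a (l 3) (c (a (c (c (l 226727239479) (l 228337850519)) (l 229948460695)) (c (a (b (l 74255926759) (b (l 170355805495) (l 3))) (c (l 70497816343) (l 72108428423))) (c (l 82845813127) (l 16735176)))) (c (a (l 233169682759) (l 16735176)) (l 16697184))))) (l 3)), by decide +kernel⟩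

def k113_pp_012 : ∃ t, chk3 f_pp_012 t 247 60 3 = true :=
  ⟨(b (b (c (a (b (a (b (c (l 16700096) (l 16699480)) (c (a (l 16707336) (l 16702560)) (a (l 16706776) (l 16701960)))) (c (b (a (l 16691024) (l 16688840)) (l 16699880)) (l 16683944))) (c (b (a (b (l 16710824) (l 16715768)) (l 16710232)) (l 16722104)) (a (l 16697080) (l 16714936)))) (c (l 16679784) (l 16679184))) (a (b (a (c (b (l 16698864) (l 16683256)) (l 16680488)) (c (l 16693776) (l 16693104))) (c (l 16716040) (l 16715560))) (l 16678272))) (c (b (c (c (l 16713920) (l 16713760)) (l 16713520)) (b (c (l 16729560) (l 16729368)) (c (b (l 16737448) (l 16754312)) (b (l 16737328) (l 16741104))))) (b (c (l 16713192) (l 16733840)) (c (b (l 16750144) (l 16739104)) (l 16733984))))) (c (b (a (b (c (l 16747032) (l 16746976)) (c (a (l 16768768) (l 16749928)) (l 16751448))) (c (c (l 16743176) (l 16743136)) (l 16743072))) (b (a (a (b (c (c (a (l 210084280535) (l 16755608)) (l 82308961399)) (l 84993314503)) (c (a (l 3) (l 228337878007)) (l 200957380279))) (c (b (l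 16753264) (c (l 69424077655) (l 71034689895))) (l 66739721175))) (c (c (l 16749736) (l 16749720)) (l 16749688))) (b (a (a (l 3) (c (a (l 3) (b (l 81235248039) (l 232632851847))) (l 216526718103))) (c (a (c (l 16765064) (l 16754576)) (l 16751480)) (l 40433063207))) (a (l 3) (a (b (c (a (l 214916120903) (l 16765944)) (l 65129103991)) (a (l 3) (l 6))) (l 6)))))) (c (b (a (a (l 16750728) (l 16747600)) (l 16742992)) (a (b (c (l 62444681255) (l 16713944)) (l 230485299175)) (b (l 16749648) (c (l 50633557575) (l 16733112))))) (b (a (l 16749112) (l 16763880)) (a (b (l 16713944) (l 233706519303)) (l 16730856)))))), by decide +kernel⟩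

def k114_pp_012 : ∃ t, chk3 f_pp_012 t 61 61 3 = true :=
  ⟨(a (l 3) (a (l 3) (a (l 3) (a (l 3) (l 6))))), by decide +kernel⟩

def k115_pp_012 : ∃ t, chk3 f_pp_012 t 30 31 3 = true :=
  ⟨(l 3), by decide +kernel⟩

def k116_pp_012 : ∃ t, chk3 f_pp_012 t 62 28 8 = true :=
  ⟨(a (a (a (b (c (a (c (l 16594640) (l 16581624)) (l 16577200)) (c (a (l 16606128) (l 16568208)) (l 16599144))) (c (a (c (l 16551032) (b (c (l 16585464) (l 16589048)) (c (l 16574000) (a (l 16583168) (l 16573112))))) (b (l 16559880) (l 16547384))) (c (a (b (l 16590840) (l 16579728)) (b (c (l 16571888) (l 16575136)) (c (l 16560184) (a (l 16568808) (l 16559160))))) (b (l 16583632) (l 16572368))))) (b (c (a (l 16555696) (c (l 16514288) (l 16538584))) (a (c (l 16568424) (l 16554688)) (l 16550904))) (c (a (b (l 16537120) (c (a (l 16524336) (c (l 16510728) (l 16515008))) (l 16528592))) (c (b (a (l 16518232) (l 16511976)) (a (c (l 16503264) (l 16504072)) (l 16497760))) (b (l 16519216) (a (l 16510728) (c (l 16497408) (l 16501376)))))) (c (l 16485904)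 (a (b (c (l 16558176) (l 16561112)) (c (l 16546232) (a (l 16554304) (l 16545056)))) (l 16531168)))))) (b (a (c (b (l 16525848) (l 16512960)) (a (l 16508616) (c (l 16509936) (l 16512520)))) (c (l 16500320) (l 16472960))) (a (c (a (c (l 16497960) (b (l 16481640) (a (c (l 16490304) (l 16490736)) (l 16484808)))) (l 16487064)) (a (b (l 16489376) (c (a (l 16497032) (c (l 16484048) (l 16487656))) (l 16501080))) (c (b (l 16489632) (a (c (l 16477312) (l 16477344)) (l 16471816))) (b (l 16492504) (a (l 16483240) (c (l 16470640) (l 16473848))))))) (c (l 16473488) (a (c (l 16472184) (b (l 16476608) (c (l 16462048) (a (l 16463928) (l 16457768))))) (l 16461152)))))) (b (a (l 16468504) (l 16423944)) (a (b (l 16448832) (a (l 16444320) (l 16425216))) (b (l 16404080) (b (l 16393520) (a (l 16399304) (l 16376872))))))), by decide +kernel⟩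

def k117_pp_012 : ∃ t, chk3 f_pp_012 t 62 28 9 = true :=
  ⟨(a (a (b (a (l 16598488) (c (c (a (l 16578320) (l 16541056)) (l 16571152)) (l 16570632))) (a (l 16556048) (c (c (a (l 16556200) (b (c (l 16544336) (l 16546968)) (c (l 16532152) (a (l 16539672) (l 16530808))))) (l 16548720)) (l 16548096)))) (b (a (c (a (c (l 16541848) (l 16527320)) (l 16524248)) (a (l 16549960) (c (l 16513488) (l 16535968)))) (c (a (l 16482216) (c (l 16484392) (l 16486192))) (c (l 16504008) (a (l 16520528) (l 16501240))))) (c (a (a (c (l 16517376) (b (c (l 16530376) (l 16532712)) (a (l 16503064) (l 16514328)))) (l 16477712)) (a (c (b (l 16479056) (a (l 16469352) (c (l 16457200) (l 16459968)))) (l 16480024)) (c (b (l 16463520) (c (l 16448968) (l 16447776))) (b (l 16465536) (a (l 16455408) (c (l 16443736) (l 16446048))))))) (a (a (l 16526688) (c (b (l 16495960) (c (l 16503600) (l 16505808))) (l 16512168))) (c (l 16435800) (a (b (l 16502616) (c (l 16489152) (l 16491072))) (l 16475368))))))) (a (a (c (b (l 16468352) (b (l 16447448) (b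 (l 16436360) (l 16407728)))) (b (a (c (l 16472936) (l 16479592)) (c (l 16458624) (l 16459616))) (a (c (b (l 16451960) (a (l 16441408) (l 16410616))) (l 16452000)) (c (b (l 16437200) (l 16421888)) (b (l 16438328) (a (l 16427352) (l 16417848))))))) (b (l 16445888) (b (l 16424848) (c (l 16413744) (l 16405768))))) (b (l 16373480) (b (a (l 16405704) (l 16384248)) (a (l 16390824) (b (l 16373232) (a (l 16372224) (b (l 16341720) (l 16344008))))))))), by decide +kernel⟩

def k118_pp_012 : ∃ t, chk3 f_pp_012 t 496 58 8 = true :=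
  ⟨(c (b (a (c (b (l 16556872) (l 16555768)) (b (c (l 16565056) (a (l 16574536) (l 16564240))) (c (a (l 16570512) (l 16557952)) (a (c (a (l 16576328) (l 16571448)) (l 16574488)) (l 16552968))))) (b (l 16537632) (l 16536256))) (a (c (b (l 16565264) (l 16575120)) (c (b (l 16573984) (a (l 16590656) (l 16577640))) (c (a (a (l 16591504) (b (l 16581416) (l 16591744))) (l 16577016)) (a (l 16589640) (b (l 16574696) (l 16584952)))))) (b (l 16545472) (l 16534088)))) (b (c (a (b (l 16571040) (a (l 16574304) (b (b (l 16563712) (l 16565112)) (l 16568936)))) (b (c (l 16551056) (a (l 16559960) (l 16550104))) (b (c (l 16547920) (a (l 16556976) (l 16547000))) (c (l 16552312) (a (l 16561472) (l 16551424)))))) (b (l 16563568) (a (l 16570256) (b (l 16553264) (l 16557752))))) (c (a (a (l 16589480) (a (l 16583904) (c (b (l 16574512) (a (l 16586152) (l 16583744))) (l 16580128)))) (c (a (b (l 16566136) (c (l 16575072) (l 16576400))) (l 16558432)) (c (a (a (l 16576472) (b (l 16566904) (l 16577144))) (l 16562848)) (a (l 16574528) (a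 (b (l 16563248) (l 16573456)) (l 16562544)))))) (a (l 16585408) (c (a (l 16574384) (a (l 16568832) (b (l 16559712) (l 16569904)))) (l 16570480)))))), by decide +kernel⟩

def k119_pp_012 : ∃ t, chk3 f_pp_012 t 497 58 8 = true :=
  ⟨(c (b (a (b (c (a (l 16513840) (c (l 16499816) (l 16504296))) (l 16518424)) (c (a (l 16511944) (c (a (l 16478960) (c (b (l 16471216) (l 16474928)) (l 16474192))) (l 16502264))) (l 16516760))) (c (b (a (c (l 16471264) (l 16493080)) (l 16465736)) (a (c (b (l 16467160) (l 16470872)) (a (l 16472088) (c (l 16476896) (l 16467352)))) (b (l 16461616) (l 16465328)))) (b (a (l 16500056) (c (l 16486328) (l 16490496))) (a (l 16498048) (c (a (l 16465208) (c (l 16459760) (l 16460504))) (l 16488352)))))) (a (a (b (l 16526352) (l 16535592)) (c (c (a (b (l 16487392) (l 16496176)) (b (c (l 16481376) (l 16482560)) (c (a (l 16506480) (l 16510048)) (l 16491280)))) (l 16515208)) (l 16523880))) (c (a (a (c (b (l 16488952) (c (l 16508400) (a (l 16497856) (l 16506736)))) (b (l 16480480) (l 16499704))) (c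 (l 16501280) (b (c (l 16474696) (l 16475672)) (c (a (l 16494480) (l 16503424)) (l 16494840))))) (b (l 16487496) (c (l 16502448) (a (c (l 16501808) (l 16495704)) (l 16499080))))) (a (l 16511072) (c (a (b (l 16473552) (c (l 16491376) (l 16504504))) (b (c (l 16468016) (l 16468784)) (c (l 16487104) (l 16487912)))) (l 16501168)))))) (b (a (c (b (l 16529160) (l 16527840)) (b (c (l 16536912) (a (l 16545248) (l 16535808))) (c (a (c (l 16541096) (l 16543240)) (l 16529864)) (a (l 16544360) (c (l 16533984) (l 16535952)))))) (b (l 16509840) (l 16508240))) (a (c (l 16520968) (a (c (a (c (l 16558968) (l 16567440)) (l 16553920)) (b (l 16554152) (l 16564304))) (c (l 16544208) (a (c (l 16551768) (l 16553432)) (l 16546728))))) (b (l 16517288) (l 16526696))))), by decide +kernel⟩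

def k120_pp_012 : ∃ t, chk3 f_pp_012 t 248 58 9 = true :=
  ⟨(b (a (b (l 16562640) (l 16561912)) (c (c (a (b (l 16541416) (l 16540496)) (b (c (l 16522640) (a (l 16530400) (l 16521360))) (c (a (c (l 16526824) (l 16528632)) (l 16515680)) (a (l 16529384) (c (l 16519616) (l 16521264)))))) (b (l 16533736) (l 16532744))) (b (l 16533040) (l 16532032)))) (a (b (l 16571904) (l 16582272)) (c (a (b (l 16550064) (l 16560216)) (c (c (a (c (l 16541312) (a (l 16545928) (l 16540856))) (l 16529888)) (a (l 16544016) (b (c (l 16529152) (l 16530856)) (c (l 16539056) (l 16540816))))) (l 16540008))) (l 16546776)))), by decide +kernel⟩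

def k121_pp_012 : ∃ t, chk3 f_pp_012 t 498 58 8 = true :=
  ⟨(c (b (a (c (b (l 16480032) (l 16477784)) (b (a (c (l 16479128) (l 16479576)) (l 16473608)) (a (c (l 16455808) (a (l 16468800) (c (l 16453112) (l 16453656)))) (l 16450280)))) (b (l 16469064) (l 16466800))) (a (c (l 16490408) (a (c (b (l 16464056) (l 16488392)) (a (b (l 16466624) (c (l 16489688) (l 16497448))) (b (c (l 16482304) (l 16461896)) (c (l 16469912) (l 16486224))))) (b (l 16458528) (l 16467128)))) (l 16479408))) (b (a (b (c (a (l 16486176) (c (l 16472808) (l 16476600))) (l 16490552)) (c (a (l 16484064) (c (a (l 16469768) (c (l 16446472) (l 16446808))) (l 16474344))) (l 16488664))) (c (b (a (c (l 16465992) (l 16466024)) (l 16460480)) (c (l 16440376) (a (a (b (l 16442696) (l 16446360)) (b (l 16438296) (l 16441936))) (l 16456936)))) (b (a (l 16472208) (c (l 16459240) (l 16462608))) (a (l 16469984) (c (a (b (l 16435792) (l 16439440)) (b (l 16431544) (l 16435160))) (l 16460240)))))) (a (c (a (l 16496960) (c (c (a (b (l 16458456) (l 16482760))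 (l 16469352)) (a (l 16485976) (b (l 16455008) (l 16479296)))) (l 16487032))) (l 16501944)) (c (a (c (l 16475952) (c (a (b (l 16451568) (l 16470592)) (l 16452184)) (a (l 16478888) (b (l 16448128) (l 16467136))))) (l 16470424)) (a (l 16482744) (c (a (b (l 16445784) (c (l 16463672) (l 16476128))) (b (l 16451960) (c (l 16470784) (l 16449728)))) (l 16472800))))))), by decide +kernel⟩

def k122_pp_012 : ∃ t, chk3 f_pp_012 t 499 58 8 = true :=
  ⟨(b (c (b (l 16455656) (l 16453456)) (b (a (c (l 16453792) (a (c (l 16452832) (l 16452448)) (l 16447304))) (l 16442696)) (c (l 16446928) (c (l 16443648) (a (a (a (b (l 16428888) (l 16432512)) (l 16426568)) (l 16443680)) (l 16436992)))))) (a (a (c (b (l 16468512) (b (l 16475056) (l 16458984))) (c (b (l 16461808) (l 16465440)) (c (b (l 16458440) (l 16446272)) (b (a (l 16438832) (l 16434672)) (a (c (a (l 16447152) (l 16445088)) (l 16469016)) (b (l 16441016) (c (l 16445896) (a (l 16456576) (l 16457576))))))))) (b (l 16459624) (b (l 16466104) (b (l 16470008) (l 16476080))))) (b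 (l 16452944) (b (b (l 16458640) (l 16464440)) (l 16474440))))), by decide +kernel⟩

def k123_pp_012 : ∃ t, chk3 f_pp_012 t 498 58 9 = true :=
  ⟨(c (b (a (c (b (l 16501064) (l 16499528)) (b (c (l 16487264) (l 16489888)) (c (a (c (l 16512368) (l 16513856)) (l 16501392)) (a (l 16514280) (c (l 16505080) (l 16506408)))))) (b (l 16481664) (l 16479848))) (a (c (l 16513360) (c (a (b (c (l 16521856) (l 16523392)) (c (l 16531712) (l 16533304))) (l 16515472)) (a (l 16528744) (b (c (l 16514512) (l 16515896)) (c (l 16524320) (l 16525752)))))) (b (l 16488720) (l 16497952)))) (b (a (l 16510504) (c (b (c (a (l 16499432) (l 16488512)) (l 16496024)) (c (a (c (l 16497744) (l 16498928)) (l 16487000)) (a (l 16499064) (c (l 16490368) (l 16491408))))) (l 16495584))) (a (l 16524400) (c (c (a (c (a (l 16514920) (l 16509256)) (l 16513192)) (l 16500952)) (a (l 16513352) (b (l 16500016) (c (l 16509416) (l 16510536))))) (l 16509232))))), by decide +kernel⟩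

def k124_pp_012 : ∃ t, chk3 f_pp_012 t 499 58 18 = true :=
  ⟨(b (a (b (c (a (l 16458144) (c (l 16445640) (l 16448552))) (l 16462296)) (c (a (l 16455816) (c (a (l 16442112) (l 16419800)) (l 16446080))) (l 16460192))) (c (b (a (l 16428976) (l 16434064)) (a (c (l 16437032) (a (l 16427320) (l 16413032))) (l 16431456))) (b (a (l 16444024) (c (l 16411048) (l 16434448))) (a (l 16441576) (c (a (l 16409912) (l 16406264)) (l 16431872)))))) (a (a (b (l 16469648) (b (l 16476320) (b (l 16479672) (l 16482712)))) (c (b (c (a (l 16431872) (l 16427864)) (l 16454288)) (c (b (a (l 16438224) (l 16434192)) (a (c (b (l 16440488) (l 16456080)) (l 16455296)) (c (l 16442144) (b (l 16450952) (l 16445088))))) (b (l 16460720) (b (l 16464592) (l 16470672))))) (b (l 16462448) (b (l 16469088) (l 16476552))))) (b (c (a (c (l 16445096) (a (l 16424912) (l 16421064))) (l 16439528)) (a (l 16449840) (c (a (l 16417944) (l 16414264)) (l 16439992)))) (c (a (b (c (l 16451768) (a (l 16441728) (a (l 16428120) (l 16426968)))) (c (l 16463184) (a (c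 (l 16456296) (l 16462800)) (l 16440536)))) (b (l 16427424) (l 16463840))) (a (b (l 16456648) (l 16468184)) (c (c (b (b (l 16421624) (l 16427176)) (l 16440240)) (b (a (l 16425912) (l 16433584)) (l 16461496))) (b (b (l 16424736) (l 16451296)) (l 16464416)))))))), by decide +kernel⟩

def k125_pp_012 : ∃ t, chk3 f_pp_012 t 499 58 19 = true :=
  ⟨(c (b (b (l 16460272) (l 16458288)) (b (l 16467024) (a (b (l 16486792) (a (l 16498544) (l 16487992))) (b (l 16462928) (l 16476184))))) (b (a (b (c (l 16458096) (l 16481080)) (c (a (l 16483192) (l 16472464)) (a (l 16483784) (l 16475688)))) (b (l 16458152) (l 16456280))) (a (a (c (b (l 16492496) (a (l 16504808) (c (l 16499776) (l 16501272)))) (l 16498080)) (b (c (l 16481600) (l 16484936)) (c (b (l 16488728) (b (l 16492960) (l 16499296))) (b (l 16492160) (a (l 16501344) (c (l 16498008) (l 16499296))))))) (b (l 16465160) (b (a (l 16478904) (l 16468256)) (a (l 16490840) (l 16484128))))))), by decide +kernel⟩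

def k126_pp_012 : ∃ t, chk3 f_pp_012 t 496 118 8 = true :=
  ⟨(c (a (c (b (l 16585056) (b (l 16592576) (l 16576640))) (c (b (a (b (l 16598416) (l 16593120)) (l 16587744)) (a (a (c (l 16613312) (b (l 16613704) (l 16618992))) (l 16608120)) (l 16597936))) (a (b (c (a (l 16607256) (l 16602168)) (l 16605384)) (c (a (l 16617832) (a (l 16615592) (l 16611240))) (l 16615952))) (a (c (l 16600888) (b (l 16598512) (a (l 16612544) (l 16607624)))) (l 16585248))))) (b (b (l 16562312) (l 16546184)) (b (l 16551056) (a (l 16562720) (b (l 16568944) (a (l 16574752) (b (l 16567376) (b (l 16547392) (b (l 16548144) (l 16548920)))))))))) (c (a (a (l 16610464) (a (b (l 16599592) (l 16610120)) (c (c (b (l 16594848) (a (l 16606856) (l 16603984))) (l 16606304)) (l 16600960)))) (a (a (c (c (l 16593728) (b (l 16591160) (a (l 16603112) (l 16600320)))) (l 16597184)) (c (l 16588568) (c (b (l 16587464) (a (l 16599352) (l 16596640))) (l 16593376)))) (a (c (l 16581832) (c (l 16586544) (b (l 16583752) (a (l 16595568) (l 16592944))))) (b (l 16573240)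 (b (l 16580848) (b (l 16584664) (l 16587560))))))) (a (l 16606360) (a (l 16595032) (a (l 16589376) (b (c (c (l 16580016) (l 16580536)) (l 16580384)) (c (c (b (l 16587792) (a (l 16583936) (c (l 16570680) (a (l 16572232) (l 16581632))))) (l 16591016)) (l 16590880)))))))), by decide +kernel⟩

def k127_pp_012 : ∃ t, chk3 f_pp_012 t 496 238 16 = true :=
  ⟨(a (a (c (b (l 16609520) (b (b (l 16591816) (a (l 16617624) (b (l 16611056) (l 16613024)))) (b (a (l 16610112) (l 16616608)) (l 16623288)))) (c (b (a (c (l 16621208) (c (l 16623688) (l 16625048))) (l 16615968)) (b (a (a (c (l 16626904) (l 16627336)) (l 16625224)) (b (l 16619336) (l 16622152))) (a (a (c (l 16632312) (a (c (l 16635336) (l 16633816)) (l 16634992))) (l 16631928)) (l 16629080)))) (b (c (a (l 16625840) (c (l 16620080) (l 16621336))) (l 16623944)) (a (b (a (l 16630928) (c (a (l 16608536) (c (l 16617840) (l 16628696))) (l 16629104))) (a (l 16636368) (c (l 16635704) (l 16635840)))) (c (b (a (c (l 16621088) (b (l 16605240) (a (l 16607832) (l 16617568))))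 (b (l 16601640) (l 16625904))) (c (l 16633280) (a (l 16635312) (l 16633992)))) (b (a (l 16606632) (b (l 16619240) (l 16617304))) (l 16635248))))))) (b (a (c (l 16599248) (c (l 16609096) (c (l 16614032) (a (c (l 16618168) (l 16598112)) (l 16615552))))) (b (l 16597672) (b (l 16599584) (b (l 16580032) (l 16581752))))) (a (c (b (b (b (l 16602712) (l 16604544)) (l 16608080)) (l 16615248)) (c (b (l 16615944) (l 16625296)) (c (b (l 16620936) (l 16630336)) (a (c (b (l 16624384) (l 16633752)) (b (b (l 16617880) (l 16606432)) (l 16634696))) (l 16627864))))) (l 16592416)))) (b (b (a (b (l 16586792) (a (l 16591456) (b (l 16563584) (l 16565048)))) (a (b (b (l 16555456) (l 16562048)) (l 16580920)) (l 16553968))) (a (b (a (b (l 16571776) (l 16573368)) (l 16589296)) (l 16595880)) (l 16565200))) (c (b (l 16592736) (l 16602200)) (l 16589720)))), by decide +kernel⟩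

def k128_pp_012 : ∃ t, chk3 f_pp_012 t 496 239 16 = true :=
  ⟨(c (b (a (b (l 16605752) (l 16615384)) (a (l 16599232) (l 16591744))) (a (b (l 16625048) (l 16634752)) (b (l 16609816) (l 16619408)))) (a (c (a (a (c (l 16634560) (a (c (l 16659080) (b (l 16650544) (l 16670176))) (l 16637032))) (l 16632416)) (b (l 16637912) (l 16657360))) (a (a (a (l 16660656) (c (c (b (l 16650248) (l 16669888)) (l 16660344)) (l 16660296))) (c (a (c (l 16637672) (b (l 16649952) (l 16669584))) (b (l 16647776) (l 16667376))) (a (l 16659968) (b (l 16649696) (l 16669344))))) (a (c (l 16633712) (b (c (l 16647440) (a (l 16649336) (l 16648136))) (c (l 16667040) (a (l 16668976) (l 16667760))))) (l 16631576)))) (b (l 16608936) (l 16628288)))), by decide +kernel⟩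

def k129_pp_012 : ∃ t, chk3 f_pp_012 t 992 119 17 = true :=
  ⟨(b (a (b (l 16623672) (b (b (l 16627080) (l 16618960)) (l 16635464))) (b (c (a (l 16612864) (c (c (b (a (l 16602976) (l 16589592)) (a (c (a (l 16606320) (l 16594448)) (l 16611680)) (b (l 16591592) (l 16604896)))) (b (l 16612992) (b (l 16614992) (l 16606984)))) (l 16614672))) (b (l 16614552) (l 16617800))) (c (c (a (a (l 16630080) (a (l 16629680) (l 16629440))) (c (c (l 16627488) (a (l 16629192) (l 16628144))) (l 16629032))) (l 16629408)) (l 16629184)))) (c (a (l 16659984) (c (b (c (a (l 16649224) (c (l 16646968) (a (l 16648696) (l 16647632)))) (l 16648872)) (c (a (l 16668864) (c (l 16666576) (a (l 16668336) (l 16667256)))) (l 16668528))) (l 16658616))) (l 16659096))), by decide +kernel⟩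

def k130_pp_012 : ∃ t, chk3 f_pp_012 t 993 119 17 = true :=
  ⟨(c (b (a (c (b (a (b (c (l 16605496) (c (l 16586856) (l 16598296))) (c (l 16610600) (a (c (a (l 16613056) (l 16592408)) (l 16604048)) (a (l 16613248) (l 16612032))))) (b (l 16600784) (l 16608056))) (a (c (l 16624624) (c (l 16627000) (a (l 16628528) (l 16627616)))) (l 16622528))) (b (a (b (l 16609088) (l 16603736)) (c (c (b (a (l 16595448) (l 16582264)) (l 16611968)) (b (b (l 16583368) (a (l 16607192) (l 16595128))) (l 16612832))) (b (l 16584800) (l 16613088)))) (c (a (l 16628336) (c (l 16626496) (l 16627376))) (l 16627952)))) (a (c (b (b (l 16595440) (l 16604344)) (l 16618776)) (c (b (b (l 16600320) (l 16609264)) (l 16623760)) (a (b (b (b (l 16591176) (l 16584152)) (l 16612360)) (l 16626896)) (b (c (l 16606112) (b (l 16597328) (l 16590984))) (l 16625824))))) (b (l 16599128) (l 16618352)))) (c (a (a (c (l 16653832) (a (c (b (l 16647376) (l 16667000)) (l 16657840)) (b (l 16646344) (l 16665960)))) (l 16630728)) (l 16624984)) (a (c (a (l 16657656)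 (b (c (l 16645976) (l 16646872)) (c (l 16665592) (l 16666504)))) (l 16657280)) (a (c (l 16652984) (b (c (l 16645456) (l 16646256)) (c (l 16665080) (l 16665896)))) (l 16629880))))) (b (a (b (b (l 16586368) (l 16613552)) (l 16627768)) (a (b (l 16607824) (l 16626816)) (c (c (a (b (l 16606912) (l 16626272)) (b (l 16605928) (l 16625280))) (l 16616520)) (l 16616400)))) (a (l 16657128) (c (a (l 16656216) (c (b (c (l 16644920) (l 16645624)) (c (l 16664544) (l 16665264))) (l 16655544))) (l 16655776))))), by decide +kernel⟩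

def k131_pp_012 : ∃ t, chk3 f_pp_012 t 994 118 16 = true :=
  ⟨(b (c (c (a (l 16535760) (a (a (l 16527576) (b (l 16501208) (l 16521368))) (c (a (c (l 16509688) (l 16515256)) (l 16508288)) (b (l 16497872) (l 16518832))))) (l 16535272)) (l 16544400)) (b (a (l 16530968) (c (c (a (c (c (a (l 16531968) (a (l 16529488) (l 16517600))) (l 16531856)) (l 16534184)) (c (a (c (l 16516296) (a (l 16527728) (l 16515880))) (a (a (l 16515312) (l 16504520)) (l 16514656))) (a (l 16529208) (c (a (l 16515504) (b (l 16502576) (b (l 16514720) (c (l 16516496) (l 16516136))))) (l 16516248))))) (l 16535560)) (l 16544864))) (a (b (a (l 16558840) (b (l 16551528) (b (l 16552416) (l 16532440)))) (b (a (b (l 16560360) (b (l 16540056) (l 16540760))) (l 16535176)) (a (l 16543376) (l 16560704)))) (c (c (a (b (a (b (l 16537104) (l 16518536)) (a (b (l 16513728) (l 16537984)) (c (b (c (b (l 16520088) (a (l 16521312) (l 16520976))) (l 16511528)) (c (l 16524528) (l 16536320))) (l 16531552)))) (c (c (a (l 16543824) (a (l 16542504) (l 16535336)))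 (l 16544520)) (l 16546896))) (c (a (c (b (b (b (a (c (l 16529720) (l 16519096)) (l 16529408)) (l 16520976)) (l 16524408)) (l 16531280)) (b (a (b (l 16520752) (l 16535456)) (c (b (l 16520992) (l 16534632)) (l 16522272))) (a (l 16542328) (l 16533880)))) (l 16534744)) (a (b (l 16524752) (l 16544248)) (c (a (l 16527088) (l 16534408)) (l 16538680))))) (b (b (a (l 16520944) (l 16515840)) (l 16522080)) (l 16549872))) (b (b (a (l 16551328) (l 16546200)) (l 16552488)) (l 16559368)))))), by decide +kernel⟩

def k132_pp_012 : ∃ t, chk3 f_pp_012 t 995 236 16 = true :=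
  ⟨(c (a (c (a (a (c (l 16517672) (c (l 16495864) (l 16511808))) (l 16495056)) (l 16514416)) (a (c (a (l 16519016) (b (l 16492824) (l 16510320))) (l 16520392)) (c (a (c (l 16513496) (l 16507056)) (l 16512120)) (a (l 16515488) (c (l 16505344) (l 16512968)))))) (a (a (c (l 16512808) (c (l 16511048) (c (l 16510168) (l 16502312)))) (l 16510568)) (l 16508960))) (a (l 16524656) (c (a (a (l 16513456) (c (c (l 16500600) (l 16509432)) (l 16511680))) (c (a (c (l 16506848) (l 16496264)) (l 16505480)) (a (l 16508416) (b (l 16482440) (c (l 16496744) (l 16508096)))))) (l 16514544)))), by decide +kernel⟩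

def k133_pp_012 : ∃ t, chk3 f_pp_012 t 995 237 32 = true :=
  ⟨(a (b (c (a (b (c (l 16522648) (a (c (l 16522328) (l 16512072)) (l 16520944))) (c (b (l 16524400) (l 16516512)) (a (c (b (l 16523984) (b (l 16514568) (l 16505744))) (b (l 16513728) (a (l 16515968) (c (l 16514976) (l 16515216))))) (b (l 16512240) (l 16504816))))) (b (l 16519960) (l 16514624))) (a (b (c (a (l 16524560) (c (l 16510344) (l 16522024))) (l 16525984)) (a (l 16523616) (a (b (l 16504344) (l 16507136)) (c (c (b (c (l 16500784) (l 16511464)) (l 16504360)) (l 16514288)) (l 16516608))))) (b (c (a (c (l 16518984) (l 16508624)) (l 16496680)) (a (l 16521016) (c (c (l 16508008) (l 16507008)) (l 16518520)))) (c (a (c (b (l 16510880) (l 16525384)) (b (a (l 16511224) (c (l 16499824) (l 16510440))) (l 16515024))) (l 16502376)) (a (l 16514992) (c (a (l 16512744) (l 16501832)) (l 16524232))))))) (c (a (c (l 16538112) (c (l 16526752) (a (a (l 16537400) (l 16534272)) (l 16536904)))) (l 16538560)) (a (c (c (a (l 16538488) (b (l 16527264) (l 16536432)))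 (l 16539184)) (l 16541536)) (c (a (c (l 16536816) (a (l 16516096) (l 16526160))) (l 16537032)) (c (a (l 16538120) (l 16536152)) (l 16538808)))))) (b (a (b (a (c (l 16508184) (c (l 16495912) (c (l 16505512) (b (l 16494144) (a (l 16506512) (l 16506736)))))) (l 16510464)) (c (l 16525880) (c (l 16524088) (a (c (l 16522936) (l 16512464)) (l 16523152))))) (b (l 16506536) (l 16525728))) (c (l 16540136) (a (c (l 16537816) (a (c (l 16536656) (l 16535360)) (l 16536880))) (l 16538264))))), by decide +kernel⟩

def k134_pp_012 : ∃ t, chk3 f_pp_012 t 995 237 33 = true :=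
  ⟨(a (b (b (l 16530376) (b (a (l 16535488) (l 16530128)) (l 16536280))) (l 16547624)) (c (a (b (b (a (l 16498376) (c (c (b (l 16502936) (a (l 16505680) (l 16494768))) (l 16505392)) (l 16497200))) (c (a (l 16524776) (c (l 16512328) (l 16523816))) (l 16527000))) (c (a (l 16538528) (c (l 16533920) (l 16537560))) (l 16540776))) (c (a (c (b (l 16515872) (l 16536504)) (b (b (b (a (l 16501840) (l 16501112)) (l 16494880)) (l 16512200)) (l 16531168))) (l 16532848)) (a (b (b (l 16505280) (l 16524400)) (l 16538152)) (b (c (a (b (l 16503096) (l 16522584)) (l 16496832)) (l 16497968)) (c (l 16525800) (l 16537192)))))) (b (b (b (l 16499336) (l 16502384)) (l 16529888)) (l 16543712)))), by decide +kernel⟩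

def k135_pp_012 : ∃ t, chk3 f_pp_012 t 497 118 17 = true :=
  ⟨(a (c (b (l 16556608) (b (l 16543064) (b (a (l 16574632) (b (l 16561544) (l 16565120))) (a (b (l 16577904) (l 16581728)) (l 16572088))))) (b (c (a (c (l 16570920) (a (l 16576272) (l 16570632))) (l 16559136)) (a (a (l 16576632) (l 16572608)) (c (l 16563672) (a (l 16568744) (l 16563328))))) (a (c (b (c (l 16578576) (a (l 16563056) (l 16578312))) (a (c (b (l 16585816) (l 16590072)) (b (l 16577424) (a (b (l 16570304) (l 16573320)) (c (l 16570072) (l 16570944))))) (b (l 16580792) (l 16587152)))) (b (a (l 16584392) (l 16577720)) (a (l 16590584) (a (b (l 16585416) (l 16570248)) (b (c (c (l 16562048) (l 16562776)) (l 16583744)) (l 16590544)))))) (b (c (l 16566696) (a (c (l 16574656) (l 16555480)) (l 16569512))) (b (c (l 16573064) (a (c (b (l 16557112) (l 16560216)) (a (l 16561368) (c (l 16559680) (l 16560272)))) (l 16576752))) (c (l 16581656) (c (l 16586400) (a (l 16590040) (l 16587712))))))))) (b (l 16504728) (b (b (a (l 16548888) (b (l 16514632) (l 16538720)))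 (a (b (l 16530656) (l 16554984)) (l 16545360))) (l 16541984)))), by decide +kernel⟩

def k136_pp_012 : ∃ t, chk3 f_pp_012 t 497 238 8 = true :=
  ⟨(a (c (c (a (b (l 16567744) (l 16586448)) (c (a (a (b (l 16560048) (l 16578632)) (c (c (b (a (l 16556312) (l 16555688)) (a (l 16574832) (b (l 16564312) (l 16573600)))) (l 16566720)) (l 16569144))) (a (c (b (c (l 16552936) (a (l 16556136) (l 16555552))) (c (l 16574072) (a (l 16574664) (l 16574064)))) (l 16567344)) (c (b (l 16550504) (l 16574264)) (a (b (l 16556760) (l 16575296)) (c (b (l 16555416) (l 16573936)) (l 16565904)))))) (b (l 16563776) (l 16582432)))) (b (l 16577016) (l 16574920))) (c (b (l 16589936) (l 16609040)) (c (a (c (l 16590368) (a (a (l 16594960) (b (l 16605368) (l 16624728))) (l 16612736))) (l 16605576)) (a (a (l 16615768) (a (l 16615264) (c (b (l 16604800) (l 16624160)) (l 16614952)))) (a (c (l 16588664) (b (l 16604480) (l 16623848))) (b (l 16600544) (l 16619848))))))) (c (c (a (c (a (c (l 16565752) (a (b (c (l 16544896) (a (l 16555800) (l 16555288)))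 (c (l 16573896) (a (l 16574328) (l 16573808)))) (b (l 16555584) (l 16574104)))) (l 16566216)) (a (a (l 16571208) (c (a (b (l 16556408) (l 16574952)) (c (b (l 16555160) (l 16573688)) (l 16565536))) (l 16568400))) (a (c (a (c (l 16564328) (b (l 16555472) (l 16574008))) (b (l 16555216) (l 16573744))) (l 16566608)) (c (l 16564680) (c (b (l 16555216) (a (l 16573856) (l 16573448))) (l 16565624)))))) (c (l 16567824) (a (a (c (l 16565208) (c (l 16564304) (b (l 16555080) (l 16573616)))) (l 16565144)) (l 16565944)))) (a (b (l 16566216) (l 16584936)) (c (a (a (l 16567848) (c (c (b (l 16554952) (l 16573488)) (l 16565256)) (l 16567656))) (c (a (c (l 16564168) (b (l 16554824) (l 16573368))) (l 16564400)) (a (l 16565872) (c (b (l 16554704) (l 16573248)) (l 16564896))))) (l 16571576)))) (b (l 16560856) (l 16579864)))), by decide +kernel⟩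

def k137_pp_012 : ∃ t, chk3 f_pp_012 t 994 239 8 = true :=
  ⟨(c (c (a (b (l 16584312) (l 16603280)) (c (a (a (b (l 16597344) (l 16616184)) (b (c (c (a (l 16593488) (b (l 16582920) (l 16592272))) (l 16594680)) (l 16597160)) (c (c (b (l 16605328) (l 16614096)) (l 16613480)) (l 16616008)))) (c (a (b (c (l 16592704) (a (l 16593312) (l 16592704))) (c (l 16611472) (a (l 16612096) (l 16612136)))) (b (l 16592904) (l 16611680))) (c (a (l 16605192) (b (a (l 16593144) (l 16592576)) (a (l 16611936) (l 16611352)))) (b (l 16595232) (l 16614056))))) (b (l 16601216) (l 16620136)))) (b (l 16593928) (l 16613072))) (c (b (l 16628272) (l 16626664)) (c (a (c (l 16629224) (a (c (a (l 16633920) (l 16653656)) (l 16633816)) (l 16630680))) (l 16644280)) (a (a (l 16654808) (a (l 16633312) (c (b (l 16643656) (l 16663280)) (l 16653976)))) (b (c (l 16639536) (a (l 16643344) (l 16640928))) (c (l 16659104) (a (c (l 16662872) (l 16663304)) (l 16660528)))))))), by decide +kernel⟩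

def k138_pp_012 : ∃ t, chk3 f_pp_012 t 995 239 8 = true :=
  ⟨(c (c (a (c (a (c (l 16603056) (a (b (c (l 16592544) (a (l 16592984) (l 16592456))) (c (l 16611312) (a (l 16611768) (l 16611232)))) (b (l 16592760) (l 16611536)))) (l 16603544)) (c (c (a (a (l 16603528) (b (a (l 16592824) (l 16592336)) (a (l 16611616) (l 16611120)))) (b (l 16592656) (l 16611440))) (a (l 16604272) (a (b (a (l 16592672) (l 16592224)) (a (l 16611464) (l 16611008))) (l 16601688)))) (a (l 16608080) (c (a (l 16603168) (b (a (l 16592520) (l 16592112)) (a (l 16611312) (l 16610896)))) (l 16603912))))) (c (l 16605184) (a (c (l 16602808) (a (c (l 16601624) (b (l 16593592) (a (l 16611168) (l 16610792)))) (l 16601864))) (l 16603296)))) (a (b (l 16603784) (l 16622768)) (c (a (a (l 16605304) (c (c (b (l 16592160) (l 16610960)) (l 16602632)) (l 16605120))) (c (a (c (l 16601496) (b (l 16592040) (l 16610840))) (l 16601744)) (a (l 16603280) (c (b (l 16591920) (l 16610728)) (l 16602280))))) (l 16588208)))) (b (l 16599000) (l 16618272))), by decide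 +kernel⟩

def k139_pp_012 : ∃ t, chk3 f_pp_012 t 248 118 9 = true :=
  ⟨(b (a (l 16592720) (c (c (a (a (l 16574448) (l 16566848)) (c (a (c (l 16556376) (a (l 16561152) (l 16555976))) (l 16544680)) (a (l 16559232) (c (l 16549032) (a (l 16553512) (l 16548560)))))) (l 16562736)) (l 16562104))) (a (b (l 16600632) (a (l 16613560) (l 16598416))) (a (b (c (a (l 16582016) (a (l 16576336) (c (c (c (l 16572704) (l 16572856)) (l 16572704)) (l 16572400)))) (l 16577472)) (a (b (l 16585688) (l 16591208)) (a (l 16585480) (c (c (a (l 16584984) (l 16587096)) (l 16584440)) (l 16583864))))) (c (c (a (c (c (b (b (l 16562728) (a (b (l 16547056) (l 16549832)) (l 16564968))) (l 16580672)) (b (a (b (l 16546576) (b (l 16548592) (l 16551384))) (b (l 16541384) (l 16567872))) (a (l 16583992) (l 16581920)))) (b (a (l 16548512) (b (l 16542776) (l 16558792))) (l 16583672))) (c (b (b (l 16552856) (l 16560912)) (l 16575152)) (a (b (c (b (a (l 16539576) (l 16537184)) (l 16567080)) (b (l 16539704) (l 16568360))) (c (l 16581400) (l 16582704)))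 (c (l 16568704) (b (a (b (l 16537336) (l 16546352)) (l 16561288)) (l 16580872)))))) (b (a (l 16568160) (a (l 16564512) (l 16563064))) (l 16582840))) (b (b (l 16562272) (l 16568640)) (l 16582264)))))), by decide +kernel⟩

def k140_pp_012 : ∃ t, chk3 f_pp_012 t 248 119 9 = true :=
  ⟨(a (b (b (a (b (l 16617576) (a (l 16624096) (l 16616992))) (b (a (l 16606480) (l 16601920)) (l 16611984))) (a (b (a (b (l 16626176) (l 16618064)) (l 16623624)) (l 16633928)) (l 16626376))) (b (l 16647312) (l 16667104))) (c (c (a (b (a (l 16615216) (a (l 16614288) (c (b (l 16603904) (l 16623280)) (l 16613584)))) (a (l 16654304) (c (a (l 16653408) (c (b (l 16642728) (l 16662360)) (l 16652744))) (l 16652968)))) (a (c (b (b (a (c (l 16601632) (l 16603224)) (l 16599592)) (a (c (l 16620968) (l 16622600)) (l 16597928))) (b (a (c (l 16640432) (l 16642104)) (l 16622616)) (c (l 16637208) (a (l 16661736) (l 16659544))))) (b (a (l 16612968) (l 16591296)) (b (l 16641816) (l 16661464)))) (c (b (l 16603856) (l 16642592)) (b (c (a (b (l 16600608)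 (l 16619952)) (l 16606888)) (a (l 16611616) (a (l 16589568) (l 16609160)))) (c (a (b (l 16639424) (l 16659040)) (l 16645736)) (a (l 16650624) (b (l 16638904) (l 16658520)))))))) (b (a (l 16614272) (l 16611792)) (a (l 16653424) (l 16629896)))) (b (l 16612544) (l 16651784)))), by decide +kernel⟩

def k141_pp_012 : ∃ t, chk3 f_pp_012 t 249 118 16 = true :=
  ⟨(a (b (b (a (c (l 16501392) (a (c (l 16492280) (a (c (l 16496208) (l 16504032)) (c (l 16476392) (l 16492728)))) (l 16473632))) (b (a (l 16491472) (l 16467112)) (a (l 16484352) (l 16494688)))) (a (a (c (b (l 16506848) (b (l 16488040) (l 16490864))) (a (c (a (c (l 16485744) (c (l 16484856) (a (l 16495472) (l 16494576)))) (l 16497464)) (a (l 16487720) (c (b (l 16492736) (b (l 16494368) (c (l 16497456) (l 16486416)))) (l 16496696)))) (c (b (l 16502240) (l 16485632)) (b (c (l 16479648) (a (l 16502448) (l 16489272))) (c (b (a (a (l 16492744) (l 16481720)) (l 16502568)) (l 16485688)) (a (l 16495648) (c (b (l 16491456) (l 16485168)) (l 16483752)))))))) (b (a (a (a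 (c (l 16504440) (l 16489304)) (l 16480680)) (l 16480256)) (l 16479976)) (a (l 16505632) (l 16509248)))) (l 16507240))) (a (c (l 16532888) (a (c (a (c (l 16528360) (a (b (l 16515416) (l 16535024)) (l 16527424))) (l 16528800)) (a (a (l 16530152) (c (c (a (l 16526872) (l 16526720)) (l 16527664)) (l 16529952))) (c (b (l 16512792) (l 16536336)) (a (l 16528248) (c (l 16531896) (l 16527320)))))) (b (l 16520072) (l 16538392)))) (l 16534640))) (b (b (l 16495048) (l 16513208)) (l 16540736))), by decide +kernel⟩

def k142_pp_012 : ∃ t, chk3 f_pp_012 t 498 118 17 = true :=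
  ⟨(a (b (a (b (l 16514112) (b (l 16517552) (b (l 16519792) (l 16522680)))) (c (c (c (b (a (l 16489256) (l 16490640)) (b (a (a (l 16478040) (c (l 16487888) (l 16486448))) (b (l 16483384) (l 16476264))) (a (a (l 16505080) (l 16493560)) (l 16504008)))) (b (a (l 16496920) (l 16485448)) (a (b (l 16479656) (l 16507184)) (a (b (l 16490024) (l 16504720)) (c (l 16496456) (l 16498192)))))) (b (l 16498080) (b (l 16502808) (l 16510000)))) (b (l 16506936) (b (l 16511768) (l 16519040))))) (c (a (l 16536808) (c (a (c (a (l 16527896) (b (l 16517696) (l 16536016))) (l 16530048)) (c (l 16526808) (a (l 16527544) (b (l 16517432) (l 16535752))))) (l 16532936))) (l 16545688))) (c (b (a (b (c (a (l 16477528) (l 16476080)) (a (a (l 16469064) (c (c (l 16465096) (l 16475880)) (l 16488336))) (c (b (l 16482848) (l 16465576)) (b (l 16462024) (a (l 16479240) (c (l 16464456) (l 16464640))))))) (c (l 16479416) (a (c (a (l 16499856) (l 16478000)) (l 16501872)) (c (l 16499120) (a (l 16499504) (l 16477752)))))) (b (b (l 16470640) (l 16487696))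 (l 16501216))) (a (c (l 16527728) (a (c (a (l 16527208) (b (l 16517176) (l 16535504))) (l 16529280)) (c (l 16526472) (a (l 16526880) (b (l 16516928) (l 16535264)))))) (l 16528600))) (b (a (b (b (l 16492752) (l 16496152)) (l 16507640)) (c (b (a (c (b (a (l 16459520) (l 16457456)) (a (l 16464712) (l 16463928))) (l 16474408)) (c (l 16460464) (b (a (l 16467216) (l 16465832)) (l 16464168)))) (a (c (l 16499000) (l 16501064)) (c (l 16498792) (l 16498728)))) (b (b (l 16483632) (l 16490248)) (l 16503840)))) (a (l 16535224) (c (a (c (a (l 16526560) (l 16525840)) (l 16528504)) (c (l 16526168) (a (l 16526248) (l 16525616)))) (l 16531368)))))), by decide +kernel⟩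

def k143_pp_012 : ∃ t, chk3 f_pp_012 t 499 118 17 = true :=
  ⟨(c (b (l 16497216) (l 16533760)) (c (b (l 16493736) (l 16530256)) (a (a (c (a (b (a (b (l 16459568) (l 16498544)) (l 16488952)) (a (l 16525944) (l 16525400))) (l 16507592)) (a (b (l 16491248) (l 16527736)) (b (l 16494368) (a (l 16525648) (l 16525192))))) (l 16508552)) (l 16511624)))), by decide +kernel⟩

def k144_pp_012 : ∃ t, chk3 f_pp_012 t 498 118 9 = true :=
  ⟨(c (a (b (c (b (l 16525376) (b (a (l 16535640) (l 16523760)) (a (l 16539752) (l 16531144)))) (a (c (a (c (a (l 16546416) (l 16543736)) (l 16546016)) (b (l 16537288) (b (l 16520056) (c (l 16544560) (a (l 16526904) (l 16525240)))))) (b (l 16541288) (l 16547424))) (c (b (l 16527704) (l 16536824)) (b (c (l 16531736) (l 16533208)) (a (c (b (l 16518048) (l 16545920)) (l 16543464)) (c (l 16538816) (b (l 16536688) (l 16524376)))))))) (c (l 16558096) (c (a (c (b (l 16559624) (l 16578680)) (a (l 16571816) (b (l 16560704) (l 16579784)))) (l 16563880)) (a (l 16571392) (c (a (l 16569672) (l 16566768))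 (a (l 16570464) (l 16569112))))))) (b (b (b (a (l 16510344) (l 16498208)) (a (l 16513896) (l 16504952))) (l 16522184)) (l 16529216))) (a (b (b (l 16536936) (b (l 16541664) (l 16547576))) (l 16570296)) (c (b (a (b (c (a (c (l 16527480) (l 16528000)) (c (l 16522456) (b (l 16501320) (l 16505352)))) (l 16526544)) (c (a (l 16540224) (l 16538288)) (l 16540136))) (c (b (l 16516648) (l 16533728)) (b (a (b (l 16497792) (l 16503936)) (c (l 16518408) (l 16520168))) (c (l 16537496) (l 16538680))))) (c (a (c (a (l 16568536) (l 16565864)) (a (l 16569104) (l 16567960))) (l 16562088)) (a (l 16568656) (c (a (l 16567368) (l 16564920)) (l 16567192))))) (b (b (l 16524336) (l 16539208)) (l 16567768))))), by decide +kernel⟩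

def k145_pp_012 : ∃ t, chk3 f_pp_012 t 499 118 9 = true :=
  ⟨(c (a (c (a (b (l 16475944) (l 16533632)) (c (c (a (b (l 16488864) (a (l 16525368) (l 16525000))) (l 16507312)) (a (b (l 16490424) (l 16526984)) (b (l 16488616) (l 16530360)))) (b (l 16493144) (l 16529824)))) (b (l 16505312) (l 16542376))) (c (a (c (l 16508272) (a (b (c (l 16488376) (l 16489688)) (c (l 16524888) (l 16526264))) (b (l 16488568) (l 16525096)))) (l 16509152)) (a (b (l 16495272) (l 16532072)) (c (a (b (c (l 16487912) (l 16488976)) (c (l 16524456) (l 16525576))) (b (l 16488176) (l 16524736))) (b (l 16491616) (l 16528328)))))) (a (c (b (a (l 16499528) (l 16513672)) (l 16533624)) (a (c (a (b (l 16528328) (l 16566232)) (c (l 16503000) (a (l 16546912) (l 16504368)))) (l 16525944)) (c (b (l 16522448) (l 16560224)) (c (a (l 16503976) (l 16501984)) (l 16503680))))) (c (l 16480128) (b (l 16494240) (a (l 16535288) (l 16549376)))))), by decide +kernel⟩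

def k146_pp_012 : ∃ t, chk3 f_pp_012 t 996 119 4 = true :=
  ⟨(c (c (c (b (l 16569808) (l 16586264)) (a (c (b (a (c (l 16565208) (a (b (l 16554752) (l 16574608)) (l 16564264))) (l 16565672)) (a (a (c (l 16602296) (c (l 16601384) (b (l 16591808) (l 16610616)))) (l 16602232)) (l 16603056))) (b (a (a (l 16567104) (c (c (b (l 16554464) (l 16573016)) (l 16564544)) (l 16566912))) (c (b (l 16554760) (l 16573320)) (a (l 16565160) (c (a (l 16563464) (l 16563392)) (l 16564208))))) (c (a (a (l 16602928) (c (b (l 16591696) (l 16610512)) (l 16601936))) (b (l 16592008) (l 16610824))) (c (a (l 16604480) (a (l 16601776) (b (l 16591488) (l 16610304)))) (b (l 16594904) (l 16613776)))))) (b (b (l 16556840) (l 16576728)) (c (l 16604696) (b (l 16592936) (l 16611768)))))) (c (c (a (b (l 16570816) (l 16608440)) (b (a (c (a (l 16564816) (c (l 16563296) (l 16563880))) (l 16567056)) (c (l 16566312) (a (l 16567096) (b (l 16554208) (l 16572784))))) (a (c (a (b (l 16592840) (l 16611688)) (c (a (l 16603240) (l 16600624)) (l 16603920)))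 (l 16604576)) (c (b (l 16591688) (l 16610520)) (a (b (l 16592512) (l 16611360)) (c (l 16600504) (l 16603448))))))) (b (l 16573632) (l 16590408))) (b (l 16562272) (l 16579384)))) (c (c (b (l 16596104) (l 16613672)) (a (c (c (a (b (b (l 16599552) (l 16618896)) (b (l 16638376) (l 16657992))) (l 16583432)) (a (b (l 16610296) (l 16649312)) (b (b (l 16599008) (l 16618352)) (b (l 16637840) (l 16657456))))) (b (l 16609896) (l 16648936))) (c (b (l 16602120) (l 16640888)) (c (a (b (b (l 16598456) (l 16617808)) (b (l 16637296) (l 16656912))) (l 16582560)) (a (l 16586456) (b (b (l 16597896) (l 16617248)) (b (l 16636736) (l 16656360)))))))) (b (l 16608880) (l 16648000)))), by decide +kernel⟩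

def k147_pp_012 : ∃ t, chk3 f_pp_012 t 997 119 4 = true :=
  ⟨(c (c (b (l 16571640) (l 16609160)) (c (a (c (b (l 16564640) (b (l 16592664) (l 16611512))) (a (b (c (a (l 16566768) (b (l 16553960) (l 16572544))) (l 16566304)) (c (a (b (l 16592192) (l 16611048)) (b (l 16591256) (l 16610104))) (l 16603840))) (b (c (l 16563384) (a (l 16567104) (b (l 16553720) (l 16572312)))) (c (l 16600808) (a (b (l 16591880) (l 16610736)) (b (l 16591032) (l 16609880))))))) (b (l 16565560) (l 16603032))) (a (b (l 16572472) (l 16589264)) (c (a (b (c (a (l 16566792) (b (l 16553496) (l 16572096))) (l 16565544)) (c (a (b (l 16591576) (l 16610440)) (b (l 16590816) (l 16609672))) (l 16603096))) (b (c (l 16563104) (a (l 16567144) (l 16562568))) (c (l 16600568) (a (b (l 16591280) (l 16610152)) (b (l 16590616) (l 16609480)))))) (b (l 16568520) (l 16606192)))))) (c (b (l 16546064) (l 16584400)) (c (c (a (c (a (b (l 16586016) (b (l 16636176) (l 16655800))) (b (l 16604232) (l 16643136))) (a (l 16606064) (b (l 16606416) (l 16624432)))) (b (l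 16600360) (l 16639160))) (a (l 16605656) (b (c (a (l 16605832) (l 16603304)) (l 16584696)) (c (a (l 16623848) (l 16642224)) (a (l 16645264) (l 16623264)))))) (l 16583856)))), by decide +kernel⟩

def k148_pp_012 : ∃ t, chk3 f_pp_012 t 499 119 8 = true :=
  ⟨(c (b (l 16577896) (b (l 16606104) (a (l 16622928) (c (c (b (l 16626056) (a (b (l 16632048) (c (l 16627312) (l 16636232))) (c (b (a (l 16634576) (c (l 16637776) (l 16635448))) (a (c (l 16641808) (l 16639328)) (l 6))) (b (l 16633560) (l 16638728))))) (l 16628360)) (l 16624832))))) (a (c (b (l 16568744) (l 16606296)) (a (c (b (l 16564112) (l 16601608)) (a (b (c (a (l 16565544) (l 16562360)) (l 16564784)) (c (a (b (l 16590992) (l 16609872)) (l 16602464)) (l 16602360))) (b (c (l 16562864) (a (l 16562640) (l 16562168))) (c (l 16600352) (a (b (l 16590720) (l 16609600)) (l 16599664)))))) (b (l 16565056) (l 16602600)))) (b (l 16570592) (l 16608232)))), by decide +kernel⟩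

def k149_pp_012 : ∃ t, chk3 f_pp_012 t 499 119 9 = true :=
  ⟨(c (c (a (a (b (l 16570912) (l 16587744)) (c (a (b (c (a (l 16562368) (l 16561984)) (l 16564056)) (c (b (l 16590448) (l 16609336)) (l 16601648))) (b (b (l 16553200) (l 16574456)) (c (l 16600144) (b (l 16590232) (l 16609128))))) (b (l 16567008) (l 16604712)))) (c (b (l 16564704) (l 16602288)) (a (c (b (b (l 16552944) (l 16571584)) (b (l 16590360) (l 16611888))) (a (b (l 16563352) (l 16600960)) (b (l 16561704) (a (l 16599168) (l 16599064))))) (l 16540192)))) (b (a (l 16580000) (a (l 16548408) (c (a (c (l 16561504) (l 16562680)) (l 16561800)) (l 16544576)))) (a (l 16618144) (c (a (l 16583016) (a (c (l 16599080) (l 16600304)) (l 16578416))) (b (l 16597360) (l 16595440)))))) (c (b (a (l 16571696) (l 16578360)) (a (a (l 16614008) (l 16627584)) (l 16616536))) (c (a (a (b (c (a (l 16604640) (l 16602344)) (l 16604416)) (a (l 16622752) (c (l 16641272) (l 16643048)))) (b (l 16598528) (l 16616392))) (l 16565056)) (a (a (l 16602952) (b (c (a (l 16603432) (l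 16601344)) (l 16603152)) (c (a (l 16642440) (l 16640296)) (l 16642176)))) (b (l 16562568) (a (l 16615464) (l 16629168))))))), by decide +kernel⟩

def k150_pp_012 : ∃ t, chk3 f_pp_012 t 500 58 4 = true :=
  ⟨(b (c (b (l 16433296) (l 16431056)) (c (c (b (l 16422744) (l 16420192)) (a (b (l 16423512) (a (c (l 16423672) (a (l 16402984) (l 16399496))) (l 16418072))) (l 16407312))) (a (a (b (l 16434824) (l 16432440)) (c (b (c (l 16397400) (l 16420320)) (c (c (l 16394432) (l 16394352)) (l 16417632))) (l 16426296))) (c (b (l 16410000) (b (l 16384512) (l 16388032))) (b (a (l 16415608) (c (l 16383728) (l 16406160))) (a (l 16412952) (c (l 16380880) (l 16403368)))))))) (c (b (b (a (l 16441808) (l 16434096)) (a (b (l 16445216) (l 16449416)) (l 16446272))) (b (l 16462160) (l 16480032))) (c (b (a (a (a (c (l 16436176) (c (l 16432800) (l 16410984))) (l 16410896)) (l 16429608)) (b (l 16420848) (l 16432920))) (a (a (c (l 16457016) (c (l 16453592) (a (c (l 16451640) (l 16457640)) (l 16451728)))) (l 16456504)) (l 16459416))) (a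 (b (c (a (l 16435584) (c (b (l 16400544) (a (c (l 16406720) (l 16407208)) (l 16405312))) (b (l 16402624) (b (l 16406000) (l 16432096))))) (l 16440848)) (c (a (a (l 16459072) (l 16455808)) (c (a (l 16451512) (l 16451360)) (l 16453904))) (l 16465352))) (c (b (a (c (l 16421880) (b (l 16393752) (a (l 16424760) (l 16424272)))) (l 16419864)) (a (c (l 16452776) (l 16451224)) (l 16453600))) (b (a (b (l 16419064) (a (l 16430744) (l 16427408))) (c (b (c (l 16388576) (l 16407840)) (l 16403000)) (b (c (l 16409944) (l 16411928)) (l 16425584)))) (a (l 16455816) (c (l 16450776) (l 16452456))))))))), by decide +kernel⟩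

def k151_pp_012 : ∃ t, chk3 f_pp_012 t 500 59 8 = true :=
  ⟨(b (b (l 16507304) (l 16544120)) (a (b (l 16579400) (c (c (b (c (b (l 16611080) (a (l 16619608) (c (b (l 16610064) (c (l 16606896) (l 16625368))) (l 16621104)))) (l 16613504)) (b (c (a (c (b (a (l 16626944) (l 16618576)) (c (l 16614984) (a (l 16631592) (l 6)))) (l 16628664)) (l 6)) (l 16627888)) (l 6))) (l 16619520)) (l 16612512))) (c (a (b (l 16587024) (b (c (b (b (l 16600344) (a (c (l 16616512) (l 16613680)) (l 6))) (l 6)) (l 16613112)) (l 6))) (b (b (l 16579616) (b (l 16593744) (a (l 16592328) (b (l 16601432) (a (b (l 16604752) (l 6)) (l 6)))))) (l 6))) (l 16555792)))), by decide +kernel⟩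

def k152_pp_012 : ∃ t, chk3 f_pp_012 t 500 59 9 = true :=
  ⟨(c (b (c (l 16472296) (a (a (c (l 16507720) (a (b (c (l 16487488) (l 16488296)) (c (l 16524056) (l 16524912))) (b (l 16487808) (l 16524392)))) (l 16508608)) (l 16511656))) (a (c (l 16544592) (c (l 16541056) (a (a (b (c (l 16561136) (l 16562040)) (c (l 16598736) (l 16599688))) (b (l 16561488) (l 16599104))) (l 16560744)))) (l 16546504))) (b (a (c (c (a (b (l 16490872) (l 16527600)) (a (b (l 16492872) (c (l 16523696) (l 16524288))) (l 16505712))) (a (l 16514880) (b (l 16490144) (l 16526888)))) (l 16499400)) (c (a (c (l 16507184) (a (b (l 16487128) (l 16529016)) (l 16505408))) (l 16508080)) (b (a (l 16460720) (c (l 16486944) (l 16488736))) (a (c (l 16505216) (l 16531760)) (c (l 16528872) (l 16504544)))))) (a (c (c (a (a (l 16564256) (b (l 16563152) (l 16579888))) (a (b (c (l 16560800) (l 16561432)) (c (l 16598424) (l 16599104))) (b (l 16561208) (l 16598848)))) (a (l 16547848) (a (l 16563472) (b (l 16562496) (c (l 16598824) (l 16601424)))))) (l 16543312))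 (a (c (a (c (l 16580976) (c (l 16537328) (b (l 16560864) (l 16598552)))) (l 16538952)) (c (a (l 16562688) (b (l 16561864) (c (l 16598288) (l 16600648)))) (l 16567216))) (b (c (l 16563696) (c (a (l 16560504) (l 16560728)) (a (l 16564000) (l 16561264)))) (l 6)))))), by decide +kernel⟩

def k153_pp_012 : ∃ t, chk3 f_pp_012 t 501 29 4 = true :=
  ⟨(b (b (b (c (l 16414296) (c (l 16402248) (l 16393872))) (c (a (b (l 16415416) (l 16420352)) (b (c (b (l 16387832) (l 16390200)) (l 16381888)) (a (l 16417096) (l 16417464)))) (a (a (a (c (l 16407760) (l 16378216)) (l 16401136)) (l 16403832)) (b (l 16389968) (l 16400696))))) (c (a (b (l 16440904) (l 16476544)) (c (b (l 16447328) (l 16483400)) (l 16457744))) (a (c (b (l 16427728) (l 16463248)) (a (b (b (b (l 16394944) (l 16392344)) (l 16426632)) (l 16463960)) (l 16437296))) (l 16444584)))) (b (c (c (a (l 16535888) (b (l 16519976) (c (a (l 16558816) (b (l 16549672) (l 16568552))) (l 16555800)))) (l 16528896)) (c (l 16519920) (a (a (c (l 16510112) (b (l 16487536) (l 16529496)))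 (l 16509848)) (l 16512864)))) (b (c (c (a (c (b (a (l 16583832) (c (c (b (l 16582712) (a (l 16591840) (l 16593608))) (l 16586336)) (l 16584656))) (b (c (b (a (l 16596904) (a (l 16599192) (l 6))) (a (c (l 16603360) (l 16600920)) (l 6))) (l 16597848)) (b (a (a (b (l 16593336) (l 6)) (l 6)) (l 6)) (l 6)))) (l 16589736)) (b (c (a (c (a (b (l 16583184) (b (l 16590960) (l 6))) (b (l 16583680) (l 6))) (l 16586400)) (a (b (b (l 16580544) (l 6)) (l 6)) (l 6))) (l 16583960)) (l 6))) (l 16584944)) (c (l 16575840) (a (c (l 16566864) (b (l 16553104) (l 16571856))) (l 16568744)))) (l 6)))), by decide +kernel⟩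

def k154_pp_012 : ∃ t, chk3 f_pp_012 t 251 29 4 = true :=
  ⟨(b (b (b (a (c (a (c (l 16380704) (l 16375704)) (b (l 16367728) (l 16370472))) (a (l 16384600) (b (l 16377240) (l 16358888)))) (c (l 16364448) (c (l 16380592) (l 16375088)))) (c (a (a (c (l 16413040) (b (l 16378688) (l 16416056))) (l 16410184)) (l 16409184)) (a (b (l 16388784) (l 16405376)) (c (l 16404408) (l 16398864))))) (c (a (c (l 16465416) (b (l 16443104) (l 16479224))) (l 16462408)) (a (b (l 16432088) (l 16468144)) (c (l 16457848) (l 16431352))))) (b (b (c (c (a (l 16520072) (c (b (a (l 16510184) (c (b (l 16505800) (a (l 16515512) (c (l 16519584) (l 16515272)))) (l 16508984))) (a (c (b (a (l 16524512) (l 16525312)) (a (l 16535184) (l 6))) (l 16528288)) (l 6))) (l 16517688))) (a (l 16515840) (l 16515808))) (a (l 16504696) (a (l 16509224) (l 16510592)))) (a (c (c (c (b (a (l 16549040) (c (a (c (b (l 16544184) (l 16555896)) (l 16548552)) (b (c (l 16545816) (l 16543408)) (l 6))) (l 16547808))) (a (c (b (a (l 16563736) (c (l 16545080) (l 16563184)))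 (a (b (l 16571752) (l 6)) (l 6))) (l 16567560)) (l 6))) (a (l 16556984) (l 16556256))) (l 16552976)) (l 16541768)) (l 6))) (l 6))), by decide +kernel⟩

def k155_pp_012 : ∃ t, chk3 f_pp_012 t 124 28 5 = true :=
  ⟨(b (a (l 16582792) (a (l 16540992) (a (l 16520104) (c (b (l 16512712) (l 16469384)) (l 16505192))))) (a (b (l 16566480) (l 16554656)) (c (a (l 16518096) (c (a (l 16497096) (c (b (l 16488200) (c (l 16474592) (l 16476240))) (l 16482488))) (l 16488832))) (l 16501656)))), by decide +kernel⟩

def k156_pp_012 : ∃ t, chk3 f_pp_012 t 124 58 5 = true :=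
  ⟨(a (b (b (l 16545432) (c (l 16545424) (l 16543624))) (c (b (l 16555352) (l 16565656)) (l 16516792))) (a (b (b (l 16501184) (l 16499880)) (c (l 16515392) (l 16513304))) (b (c (c (a (l 16480048) (c (b (c (l 16464304) (l 16466040)) (c (a (l 16468152) (l 16457784)) (l 16464432))) (l 16465048))) (l 16471496)) (l 16469680)) (c (a (b (l 16488112) (b (l 16495400) (l 16502592))) (c (b (c (c (a (l 16477352) (l 16466824)) (l 16473616)) (l 16473496)) (c (c (a (b (c (l 16484728) (l 16485392)) (a (l 16497808) (l 16496280))) (b (a (l 16478496) (l 16473888)) (l 16492480))) (a (l 16491792) (b (a (l 16459688) (l 16477896)) (l 16495536)))) (b (l 16482632) (l 16496304)))) (b (l 16472584) (b (l 16481744) (l 16495456))))) (b (l 16478280) (b (l 16486896) (a (l 16500384) (l 16493760)))))))), by decide +kernel⟩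

def k157_pp_012 : ∃ t, chk3 f_pp_012 t 124 59 5 = true :=
  ⟨(a (b (b (c (l 16534096) (l 16574440)) (a (c (b (l 16599224) (l 16604640)) (l 16600544)) (b (a (l 16575464) (c (b (l 16560976) (l 16567384)) (b (l 16559232) (l 16565696)))) (a (b (a (l 16583368) (l 16578192)) (c (l 16588864) (l 16587352))) (l 16580304))))) (b (a (b (a (c (b (l 16616296) (l 16619392)) (l 16616656)) (b (a (l 16605728) (l 16601768)) (c (l 16610656) (l 16609320)))) (a (b (a (c (l 16626384) (l 16625176)) (l 16624384)) (c (l 16632776) (l 16631616))) (l 16624560))) (c (l 16611560) (l 16610240))) (c (a (l 16635264) (l 16651040)) (c (l 16631920) (l 16631432))))) (b (a (b (b (a (l 16534520) (c (l 16523072) (l 16521024))) (a (b (l 16539288) (l 16545264)) (l 16537056))) (l 16567048)) (c (c (a (l 16503840) (c (a (a (l 16523584) (c (b (l 16524384) (l 16562304)) (l 16543928))) (b (c (l 16520496) (l 16523656)) (c (l 16558296) (c (l 16561464) (l 16562080))))) (l 16543304))) (l 16501792)) (l 16500400))) (a (b (l 16585032) (c (l 16646008) (l 16644984)))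 (c (c (c (a (l 16602136) (c (a (c (a (l 16579688) (b (l 16600320) (l 16639280))) (l 16579376)) (b (l 16575656) (l 16604032))) (a (l 16621256) (a (l 16599376) (b (l 16578640) (a (l 16639192) (l 16617336))))))) (l 16579680)) (l 16579224)) (l 16578312))))), by decide +kernel⟩

def k158_pp_012 : ∃ t, chk3 f_pp_012 t 125 28 5 = true :=
  ⟨(a (c (b (a (c (c (l 16476656) (a (l 16492384) (l 16473632))) (a (l 16492776) (l 16478232))) (c (a (c (l 16446240) (l 16452136)) (c (l 16432648) (l 16432808))) (c (l 16448912) (a (l 16463888) (l 16445616))))) (a (a (c (c (l 16440168) (b (l 16473696) (c (l 16459920) (l 16461312)))) (l 16467264)) (c (b (l 16449656) (l 16435248)) (c (b (l 16459096) (l 16419168)) (l 16452576)))) (c (a (c (b (l 16424632) (a (l 16413256) (l 16404064))) (l 16423600)) (c (l 16402688) (b (l 16410888) (a (l 16399104) (l 16390240))))) (c (b (l 16428288) (l 16413512)) (a (b (l 16444408) (l 16430424)) (b (l 16425264) (l 16410680))))))) (b (a (l 16484216) (l 16435048)) (a (l 16458232) (a (l 16436528) (b (l 16429080)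 (c (l 16415288) (l 16414392))))))) (c (a (c (b (l 16416448) (l 16386496)) (b (a (c (l 16419320) (l 16424320)) (c (l 16406480) (l 16405776))) (a (c (b (l 16397088) (a (l 16384912) (l 16376384))) (l 16394832)) (c (l 16375824) (a (l 16357560) (l 16370448)))))) (b (l 16393496) (b (l 16371440) (b (l 16359752) (l 16355088))))) (b (c (a (c (a (l 16431456) (l 16410280)) (a (l 16435040) (l 16417200))) (a (c (l 16392176) (l 16396184)) (l 16379640))) (a (l 16427384) (c (a (l 16402848) (l 16382032)) (a (l 16405872) (l 16388400))))) (a (c (c (a (b (l 16410736) (l 16395896)) (l 16380312)) (a (b (l 16414776) (l 16400248)) (b (l 16396112) (l 16381016)))) (b (l 16406896) (l 16392208))) (c (a (c (b (l 16369344) (a (l 16356416) (l 16348888))) (l 16365888)) (b (l 16356632) (c (l 16343448) (b (l 16343176) (a (l 16340304) (l 16335896)))))) (a (c (b (l 16381384) (l 16345328)) (b (l 16384816) (l 16370000))) (c (b (l 16359376) (l 16345936)) (b (l 16366568) (b (l 16354992) (a (l 16355080) (l 16347312))))))))))), by decide +kernel⟩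

def k159_pp_012 : ∃ t, chk3 f_pp_012 t 500 58 5 = true :=
  ⟨(c (a (b (c (c (b (l 16443616) (l 16441632)) (b (c (l 16449432) (l 16450896)) (c (a (l 16452992) (l 16442968)) (l 16449160)))) (l 16449360)) (c (b (c (a (l 16456888) (l 16445464)) (a (l 16462184) (c (a (l 16455616) (l 16450488)) (b (l 16452080) (l 16458936))))) (c (a (b (l 16449600) (l 16488720)) (l 16473128)) (a (a (l 16485736) (l 16484696)) (c (l 16481168) (l 16483784))))) (b (l 16458728) (l 16484040)))) (b (c (b (l 16424056) (c (l 16416776) (l 16426864))) (c (b (c (l 16434456) (l 16435664)) (c (a (l 16437720) (l 16428024)) (l 16433792))) (l 16434272))) (a (c (c (b (l 16435144) (l 16466648)) (b (b (l 16439720) (a (l 16452008) (l 16448648))) (l 16477496))) (b (b (l 16444144) (l 16454928)) (l 16482248))) (c (b (l 16431424) (l 16465760)) (c (b (c (b (l 16436432) (l 16451416)) (b (l 16438512) (l 16453552))) (c (l 16479080) (l 16481304))) (b (l 16446008) (l 16481032))))))) (b (l 16439984) (b (b (l 16446808) (l 16456912)) (l 16481208)))), by decide +kernel⟩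

def k160_pp_012 : ∃ t, chk3 f_pp_012 t 500 59 5 = true :=
  ⟨(c (a (c (b (c (c (l 16529248) (b (l 16516200) (l 16522464))) (c (a (b (l 16522440) (l 16560392)) (b (l 16518480) (l 16556312))) (b (l 16521856) (l 16559840)))) (c (a (c (l 16587952) (b (l 16574680) (a (l 16615312) (l 16632984)))) (l 16562928)) (c (a (b (l 16577904) (c (l 16616792) (l 16638312))) (b (l 16573696) (c (l 16632328) (l 16614064)))) (b (l 16572128) (a (l 16638216) (l 16615712)))))) (b (l 16540424) (l 16617656))) (c (b (c (l 16518656) (a (c (l 16530872) (b (l 16517456) (l 16555296))) (l 16527032))) (c (l 16552152) (a (c (l 16586216) (b (l 16572696) (c (l 16631448) (l 16613040)))) (l 16582184)))) (b (c (c (a (l 16496968) (b (l 16516416) (l 16554272))) (l 16496328)) (l 16538032)) (b (c (c (a (l 16596448) (l 16571680)) (l 16595848)) (l 16595712)) (a (l 16614464) (l 6)))))) (b (l 16537928) (l 16594600))), by decide +kernel⟩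

def k161_pp_012 : ∃ t, chk3 f_pp_012 t 501 58 5 = true :=
  ⟨(c (c (b (b (a (c (a (l 16401336) (l 16391944)) (l 16404664)) (c (l 16382840) (a (l 16387008) (l 16377968)))) (a (c (a (c (l 16396256) (l 16400728)) (c (b (l 16365400) (l 16370416)) (b (l 16366384) (l 16392392)))) (l 16402896)) (c (b (l 16379192) (l 16389832)) (a (b (l 16382416) (c (l 16388832) (l 16392968))) (b (c (l 16352976) (l 16374400)) (l 16387544)))))) (a (c (a (b (a (l 16419936) (l 16417008)) (l 16454296)) (c (l 16432008) (b (l 16415264) (l 16451080)))) (l 16401752)) (c (l 16433584) (a (b (l 16416888) (l 16431848)) (c (l 16431224) (b (l 16413920) (l 16449776))))))) (c (b (b (l 16402032) (a (a (c (l 16416032) (l 16420528)) (l 16406984)) (l 16371824))) (a (a (b (c (l 16436896) (a (l 16442976) (l 16440248))) (l 16475480)) (l 16451128)) (l 16441704))) (b (a (b (l 16419544) (a (l 16422224) (c (b (l 16411008) (l 16416488)) (l 16415544)))) (b (l 16399336) (a (b (l 16401232) (l 16410240)) (l 16397688)))) (a (a (b (l 16443368) (l 16479952)) (c (l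 16437496) (l 16460272))) (a (c (l 16452896) (l 16436408)) (l 16449272)))))) (b (b (c (a (l 16419496) (l 16383232)) (l 16410672)) (a (l 16417552) (c (c (a (l 16409776) (b (b (l 16395712) (l 16398776)) (l 16411008))) (l 16407720)) (l 16406608)))) (a (l 16459608) (c (c (c (a (l 16459016) (l 16456288)) (l 16458240)) (l 16457776)) (l 16456824))))), by decide +kernel⟩

def k162_pp_012 : ∃ t, chk3 f_pp_012 t 501 59 5 = true :=
  ⟨(b (c (c (a (c (a (c (b (l 16488056) (l 16503880)) (l 16511536)) (b (c (l 16486160) (l 16487392)) (c (l 16522896) (l 16503240)))) (l 16516936)) (c (b (l 16487832) (l 16524632)) (a (c (b (l 16486752) (l 16523592)) (l 16509848)) (c (l 16503800) (a (l 16505080) (l 16461352)))))) (c (a (a (c (l 16529064) (b (l 16515368) (l 16553232))) (l 16525240)) (l 16515200)) (a (c (a (l 16536440) (a (l 16492672) (l 16532184))) (l 16535752)) (a (c (l 16527248) (b (l 16513240) (l 16551128))) (l 16523440))))) (c (a (l 16535208) (c (c (a (l 16533952) (b (l 16512168) (l 16550064))) (l 16533224)) (l 16532880)))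 (l 16533200))) (b (a (c (c (c (a (c (a (l 16563208) (l 16560680)) (l 16567616)) (c (l 16560152) (a (l 16562440) (l 16560128)))) (l 16573360)) (c (a (c (l 16586152) (l 16570656)) (l 16582176)) (c (a (l 16594000) (l 16569616)) (l 16593344)))) (l 16592592)) (b (c (c (c (l 16552576) (a (c (l 16551560) (l 16556536)) (c (l 16550192) (l 16550976)))) (c (l 16562176) (a (l 16556200) (l 16570840)))) (a (l 16581224) (a (b (l 16575424) (l 6)) (l 6)))) (l 6))) (l 6))), by decide +kernel⟩

def k163_pp_012 : ∃ t, chk3 f_pp_012 t 251 58 5 = true :=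
  ⟨(c (a (b (c (b (a (l 16371904) (l 16345832)) (a (l 16382632) (l 16385752))) (b (a (c (a (l 16372648) (a (l 16365632) (l 16341632))) (l 16375856)) (c (l 16339448) (a (c (l 16359096) (l 16362056)) (b (l 16332104) (l 16336616))))) (a (c (a (c (b (l 16370672) (l 16386696)) (l 16382408)) (c (l 16377608) (l 16377544))) (l 16386840)) (c (l 16379256) (a (l 16378792) (l 16376896)))))) (c (l 16437016) (a (c (a (b (l 16415416) (l 16430416)) (c (l 16430528) (l 16409568))) (l 16439896)) (c (l 16432288) (a (c (l 16429952) (l 16433280)) (c (l 16429928) (l 16429384))))))) (b (b (l 16363224) (l 16386832)) (l 16440136))) (a (c (b (a (b (c (a (l 16390336) (l 16379456)) (a (l 16393312) (l 16385736))) (c (b (b (l 16363240) (l 16391000)) (l 16404488)) (a (l 16402304) (l 16399904)))) (b (c (l 16365368) (b (l 16372056) (l 16374720))) (c (l 16384504) (l 16362256)))) (c (a (a (c (l 16451008) (l 16455192)) (l 16447400)) (l 16438096)) (a (c (a (l 16456488) (l 16454088)) (l 16455696)) (c (l 16445992) (a (l 16452976) (l 16448152))))))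 (b (b (a (l 16389048) (b (l 16376040) (l 16378800))) (a (l 16400632) (l 16397984))) (a (l 16454904) (b (l 16434184) (l 16450216))))) (c (b (a (c (b (a (l 16354184) (l 16352000)) (a (l 16377392) (l 16375912))) (b (l 16359120) (l 16382696))) (c (l 16365896) (b (l 16352120) (a (l 16376056) (l 16375000))))) (a (c (c (l 16387384) (a (l 16431568) (l 16428320))) (l 16436328)) (c (l 16431152) (a (c (l 16427824) (l 16429944)) (l 16428224))))) (a (b (c (b (a (l 16370400) (l 16364976)) (l 16370656)) (b (l 16371616) (l 16395776))) (c (c (l 16444088) (l 16406240)) (l 16429400))) (c (b (l 16347800) (l 16434600)) (b (b (l 16364944) (l 16389528)) (c (l 16442168) (l 16425072)))))))), by decide +kernel⟩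

def k164_pp_012 : ∃ t, chk3 f_pp_012 t 251 59 5 = true :=
  ⟨(b (a (c (c (l 16467936) (a (c (a (c (b (l 16485528) (l 16522416)) (l 16508144)) (c (l 16503232) (b (l 16484952) (l 16521864)))) (l 16513456)) (c (l 16505128) (a (c (b (l 16484400) (l 16521328)) (l 16506440)) (c (l 16502768) (b (l 16483864) (l 16520824))))))) (c (c (a (a (c (l 16525424) (b (l 16511080) (l 16548992))) (l 16521624)) (l 16511712)) (a (c (a (l 16531448) (l 16486944)) (l 16530704)) (c (l 16520256) (a (l 16506824) (l 16522648))))) (a (l 16530104) (c (a (l 16528824) (c (l 16505720) (l 16527696))) (l 16527832))))) (b (c (l 16494856) (c (a (c (a (l 16464288) (l 16483608)) (l 16491392)) (c (l 16485792) (a (l 16484056) (l 16482864)))) (c (a (c (l 16499640) (l 16504008)) (l 16489712)) (a (l 16506408) (c (l 16497752) (l 16501896)))))) (l 6))) (l 6)), by decide +kernel⟩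

def k165_pp_012 : ∃ t, chk3 f_pp_012 t 126 28 2 = true :=
  ⟨(c (b (a (c (l 16372496) (l 16367496)) (a (l 16329752) (l 16303088))) (a (b (a (l 16362320) (b (l 16339320) (l 16335000))) (a (b (a (l 16358360) (l 16327840)) (l 16362568)) (b (l 16342816) (l 16360504)))) (b (a (b (l 16314864) (l 16322520)) (l 16310328)) (l 16357592)))) (a (b (c (l 16360344) (a (c (l 16363472) (a (l 16319792) (l 16352440))) (l 16339544))) (c (b (a (l 16350736) (l 16328896)) (a (b (a (l 16345304) (l 16338184)) (l 16350280)) (l 16342856))) (a (c (b (l 16340528) (l 16336992)) (b (a (c (l 16341424) (l 16344824)) (l 16328880)) (a (c (b (l 16329416) (l 16333480)) (b (l 16333024) (l 16337264))) (b (a (l 16321248) (l 16318280)) (l 16333224))))) (b (l 16318584) (l 16332112))))) (b (a (l 16319400) (b (l 16300680) (l 16287768))) (a (b (b (l 16303800) (l 16311416)) (l 16338032)) (b (l 16301392) (l 16337104)))))), by decide +kernel⟩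

def k166_pp_012 : ∃ t, chk3 f_pp_012 t 252 29 2 = true :=
  ⟨(b (c (b (b (a (l 16380600) (l 16379016)) (c (l 16406696) (l 16401272))) (c (c (a (b (l 16444144) (c (b (a (l 16472112) (c (b (l 16446512) (a (l 16455912) (l 16478928))) (l 16470952))) (b (a (l 16486056) (c (a (l 16488624) (l 6)) (l 16485048))) (a (c (a (l 16496080) (l 16498376)) (l 16494424)) (l 6)))) (l 16479440))) (b (c (a (b (l 16434712) (c (a (l 16453360) (l 16454712)) (l 16452192))) (a (b (l 16434016) (b (l 16448824) (l 6))) (b (l 16434096) (l 6)))) (l 16441752)) (a (a (a (b (b (l 16466208) (l 6)) (l 6)) (l 6)) (l 6)) (l 6)))) (l 16458624)) (l 16454672))) (c (b (b (a (l 16368264) (l 16370264)) (a (l 16392520) (l 16394576))) (a (c (l 16449776) (l 16443096)) (l 16448224))) (a (c (b (l 16369104) (l 16434640)) (b (a (c (b (l 16350984) (a (l 16374784) (l 16374160))) (l 16325096)) (c (l 16364568) (b (l 16349904) (l 16373944)))) (a (c (a (l 16386200) (l 16427472)) (l 16432920)) (c (l 16430064) (a (l 16427016) (l 16426800)))))) (b (b (l 16359336) (l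 16383576)) (l 16437256))))) (b (a (a (a (b (a (c (c (b (b (b (l 16500208) (l 6)) (l 6)) (l 6)) (l 16511024)) (c (l 16499176) (c (l 16486064) (l 16466896)))) (l 6)) (l 6)) (l 6)) (l 6)) (l 6)) (l 6))), by decide +kernel⟩

def k167_pp_012 : ∃ t, chk3 f_pp_012 t 253 29 2 = true :=
  ⟨(b (b (c (c (c (b (a (l 16379552) (c (b (l 16350712) (a (l 16361120) (c (l 16386224) (l 16359072)))) (l 16374928))) (b (a (l 16395520) (a (a (b (l 16368200) (l 6)) (l 6)) (l 6))) (a (a (l 16413736) (a (b (l 16407744) (l 6)) (l 6))) (l 6)))) (l 16387712)) (b (l 16372800) (l 16396872))) (c (b (l 16368280) (l 16392504)) (a (b (l 16362536) (l 16386872)) (l 16374496)))) (a (b (b (c (c (a (a (b (c (l 16427728) (l 16425280)) (l 6)) (l 6)) (l 6)) (l 16425048)) (l 16416648)) (l 6)) (l 6)) (l 6))) (l 6)), by decide +kernel⟩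

def k168_pp_012 : ∃ t, chk3 f_pp_012 t 127 14 2 = true :=
  ⟨(b (b (a (b (c (l 16268856) (l 16260680)) (c (l 16275312) (a (l 16270392) (l 16261056)))) (b (l 16231408) (l 16260328))) (c (c (b (a (l 16306536) (c (b (a (l 16293984) (l 16293080)) (a (l 16313192) (c (b (l 16313752) (l 6)) (l 16310224)))) (l 16298992))) (a (c (b (a (l 16335432) (c (b (l 16328248) (l 16340184)) (l 16331344))) (a (c (a (l 16355080) (c (l 16357560) (l 16353056))) (l 16352800)) (a (a (b (l 16347888) (l 6)) (l 6)) (l 6)))) (l 16340704)) (a (a (b (b (c (l 16327728) (l 16323016)) (l 6)) (l 6)) (l 6)) (l 6)))) (l 16316800)) (a (c (l 16316736) (l 16312848)) (l 16307936)))) (a (a (a (b (b (a (c (b (b (b (l 16363600) (l 6)) (l 6)) (l 6)) (l 16375520)) (l 6)) (l 6)) (l 6)) (l 6)) (l 6)) (l 6))), by decide +kernel⟩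

def k169_pp_012 : ∃ t, chk3 f_pp_012 t 62 28 3 = true :=
  ⟨(a (b (c (l 16488920) (l 16527720)) (c (b (l 16492408) (a (l 16551320) (l 16492112))) (b (l 16530768) (l 16475880)))) (c (b (a (l 16466800) (c (l 16411432) (l 16408728))) (a (b (l 16447120) (l 16432976)) (a (l 16395920) (b (l 16374400) (c (a (l 16368392) (b (l 16357272) (l 16353984))) (l 16359776)))))) (b (l 16433368) (b (l 16412488) (a (l 16427560) (l 16369232)))))), by decide +kernel⟩

def k170_pp_012 : ∃ t, chk3 f_pp_012 t 126 28 3 = true :=
  ⟨(c (a (c (b (c (a (c (a (l 16373864) (l 16353576)) (l 16346368)) (a (l 16318000) (l 16325016))) (a (l 16368288) (a (l 16345120) (c (l 16324928) (l 16329712))))) (a (c (a (b (l 16331592) (c (b (l 16340256) (l 16344792)) (b (l 16343312) (l 16348008)))) (b (c (l 16330232) (l 16336640)) (c (b (l 16322232) (l 16334832)) (b (l 16329040) (l 16341944))))) (b (l 16346176) (b (l 16337744) (l 16345912)))) (c (b (a (c (l 16313544) (l 16315800)) (l 16303504)) (a (c (l 16322032) (l 16324536)) (l 16322304))) (b (a (c (l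 16321752) (l 16324144)) (c (l 16303488) (l 16308944))) (a (c (l 16331040) (l 16333704)) (c (l 16322456) (l 16328440))))))) (b (l 16351728) (b (l 16330720) (a (l 16340888) (l 16330784))))) (c (b (a (c (l 16309144) (a (l 16310728) (l 16297368))) (l 16284512)) (a (c (b (l 16297920) (l 16326600)) (b (a (c (l 16292720) (l 16293816)) (l 16288096)) (a (c (l 16319608) (l 16320912)) (l 16320608)))) (b (l 16291088) (l 16326848)))) (b (a (c (a (l 16315256) (c (l 16296112) (l 16299840))) (l 16308056)) (c (a (l 16282408) (l 16271064)) (a (l 16285216) (c (l 16268688) (b (l 16277160) (l 16263656)))))) (a (c (a (b (c (l 16298720) (l 16300704)) (l 16326976)) (c (b (l 16286808) (l 16319432)) (b (l 16291120) (l 16324232)))) (b (l 16297200) (l 16326608))) (c (a (b (l 16283136) (l 16318632)) (l 16300960)) (a (c (l 16251616) (l 16305840)) (c (l 16298496) (l 16237840)))))))) (b (a (l 16346832) (l 16248240)) (a (b (l 16325464) (b (l 16324688) (l 16336512))) (b (a (l 16292472) (l 16282744)) (l 16320704))))), by decide +kernel⟩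

def k171_pp_012 : ∃ t, chk3 f_pp_012 t 127 28 3 = true :=
  ⟨(c (a (b (a (c (l 16244560) (b (l 16259320) (a (c (l 16258592) (l 16253496)) (l 16251528)))) (b (l 16237648) (l 16251608))) (c (l 16308208) (a (c (l 16303872) (a (l 16298232) (l 16299368))) (l 16302080)))) (b (b (l 16218448) (l 16248064)) (l 16300536))) (a (c (a (b (c (b (c (l 16254656) (l 16254848)) (a (c (l 16253792) (l 16255552)) (c (l 16245848) (l 16246672)))) (l 16254840)) (c (c (a (l 16256960) (l 16295936)) (a (l 16301120) (l 16297104))) (l 16299088))) (c (b (b (l 16230424) (l 16244312)) (c (l 16297600) (l 16275448))) (b (a (b (l 16232432) (l 16242072)) (c (l 16231528) (b (l 16220640) (l 16240368)))) (c (a (l 16295368) (l 16293640)) (a (l 16296744) (l 16293688)))))) (b (b (l 16239720) (l 16246112)) (l 16294992))) (c (c (b (l 16228312) (l 16295544)) (a (b (b (l 16212152) (l 16240696)) (l 16272936)) (l 16256704))) (a (c (b (a (b (l 16211048) (l 16238488)) (c (l 16222280) (l 16179128))) (a (c (l 16292072) (l 16292432)) (c (l 16291616) (l 16290520))))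 (b (l 16222888) (l 16290416))) (c (b (l 16219664) (l 16290072)) (c (a (b (l 16197632) (a (l 16288936) (l 16289000))) (l 16252168)) (a (l 16252216) (b (a (l 16216976) (l 16216240)) (a (l 16287792) (l 16286904)))))))))), by decide +kernel⟩

def k172_pp_012 : ∃ t, chk3 f_pp_012 t 62 58 3 = true :=
  ⟨(a (b (c (b (l 16448952) (a (l 16540896) (l 16480376))) (b (l 16507736) (l 16443528))) (c (a (c (l 16557016) (l 16555296)) (b (l 16489936) (a (l 16515256) (b (l 16483392) (a (l 16497040) (l 16490336)))))) (a (l 16531712) (b (l 16485352) (a (l 16511056) (b (l 16478672) (l 16489888))))))) (c (b (a (b (l 16421976) (a (l 16435056) (b (l 16403576) (l 16412512)))) (a (b (l 16380856) (l 16395824)) (c (b (l 16347944) (l 16393328)) (l 16378120)))) (a (b (a (b (l 16442816) (l 16453048)) (l 16436120)) (l 16475552)) (c (a (l 16452024) (c (l 16401576) (l 16447648))) (l 16447560)))) (b (a (b (l 16416304) (a (l 16429568) (l 16403144))) (b (l 16348264) (l 16387776))) (a (b (a (l 16443720) (l 16430640)) (l 16470728)) (l 16443632))))),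 by decide +kernel⟩

def k173_pp_012 : ∃ t, chk3 f_pp_012 t 62 59 3 = true :=
  ⟨(b (a (a (c (b (l 16530080) (a (c (l 16599136) (l 16597720)) (b (a (l 16572216) (c (l 16561312) (l 16559584))) (a (c (l 16582872) (l 16581312)) (l 16577144))))) (b (l 16568760) (a (l 16595568) (b (a (l 16568928) (l 16556960)) (a (l 16578952) (l 16573928)))))) (b (c (a (b (a (l 16530616) (l 16517936)) (a (c (l 16540016) (l 16538112)) (l 16533192))) (l 16520144)) (a (b (l 16520704) (l 16532880)) (l 16516024))) (c (l 16561336) (l 16557896)))) (c (a (b (l 16513640) (l 16552336)) (a (l 16526656) (a (l 16523632) (b (c (l 16503488) (l 16501504)) (l 6))))) (a (l 16529056) (l 16520688)))) (a (a (c (b (a (b (a (c (l 16615368) (l 16614080)) (c (b (l 16600424) (l 16607968)) (l 16603328))) (a (b (c (l 16622336) (l 16621096)) (l 16629864)) (l 16622112))) (l 16608240)) (c (l 16630696) (l 16650672))) (b (a (b (a (l 16612120) (l 16601232)) (c (l 16622600) (l 16621368))) (l 16605536)) (l 16628208))) (c (c (b (l 16601560) (l 16641472)) (l 16578288))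 (b (l 16598088) (l 16638832)))) (a (b (c (l 16591576) (l 16588688)) (c (l 16631352) (l 16629136))) (l 6)))), by decide +kernel⟩

def k174_pp_012 : ∃ t, chk3 f_pp_012 t 63 29 3 = true :=
  ⟨(b (b (a (c (a (c (c (a (c (a (b (l 16362832) (l 16387416)) (b (l 16353272) (l 16377512))) (a (l 16378568) (b (l 16360720) (l 16385296)))) (c (b (l 16350256) (l 16374368)) (a (b (l 16351632) (l 16375880)) (l 16338960)))) (a (l 16376720) (c (a (b (l 16358592) (l 16383168)) (b (l 16350040) (l 16374304))) (a (l 16373840) (b (l 16356464) (l 16381032)))))) (b (l 16360344) (l 16385264))) (a (c (c (l 16366336) (a (c (l 16359040) (b (l 16348504) (l 16372776))) (l 16360176))) (c (a (c (b (l 16354336) (l 16378896)) (l 16369160)) (c (b (l 16347024) (l 16371320)) (b (l 16352208) (l 16376760)))) (l 16367224))) (c (l 16366712) (c (a (c (l 16357472) (l 16315776)) (l 16358800)) (a (c (l 16341328) (l 16364536)) (c (l 16356384) (c (l 16358752) (l 16361736)))))))) (c (b (l 16353952) (l 16378944)) (l 16363160))) (a (a (a (a (b (c (c (l 16355912)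 (c (l 16349112) (l 16343616))) (l 16345728)) (l 6)) (l 6)) (l 6)) (l 6)) (l 6))) (a (c (a (c (c (a (c (a (c (l 16440216) (l 16443896)) (l 16431288)) (a (l 16445632) (c (l 16438240) (l 16441736)))) (a (c (l 16426480) (l 16429712)) (l 16406512))) (a (l 16443936) (c (a (l 16395584) (l 16428184)) (a (l 16440936) (l 16414456))))) (l 16440280)) (a (a (a (b (c (c (l 16411568) (l 16387576)) (l 16417400)) (l 6)) (l 6)) (l 6)) (l 6))) (c (l 16413264) (l 16431560))) (l 6))) (b (b (a (a (a (a (c (c (c (c (l 16455504) (l 16501712)) (l 16501208)) (l 16499592)) (l 16496344)) (l 6)) (l 6)) (l 6)) (l 6)) (l 6)) (l 6))), by decide +kernel⟩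

def k175_pp_012 : ∃ t, chk3 f_pp_012 t 992 240 8 = true :=
  ⟨(c (c (b (b (l 16644488) (l 16654248)) (b (l 16664056) (l 16673888))) (c (a (a (a (c (l 16674936) (c (l 16677600) (b (l 16689944) (l 16699368)))) (l 16674720)) (l 16671752)) (l 16655336)) (a (c (c (a (a (l 16679288) (b (l 16689656) (l 16688592))) (l 16676184)) (a (l 16679096) (a (b (l 16689360) (l 16709264)) (l 16676944)))) (a (l 16679072) (b (l 16678832) (l 16698744)))) (a (c (l 16673112) (a (c (l 16676712) (b (l 16688744) (l 16708656))) (b (l 16686664) (l 16706544)))) (l 16670928))))) (c (a (l 16678640) (a (b (l 16688616) (l 16708552)) (c (c (a (c (a (l 16676688) (l 16675848)) (l 16677080)) (b (l 16686192) (l 16706072))) (l 16676936)) (l 16676912)))) (l 16677808))), by decide +kernel⟩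

def k176_pp_012 : ∃ t, chk3 f_pp_012 t 992 241 8 = true :=
  ⟨(c (c (b (c (l 16685080) (l 16692328)) (b (l 16703592) (b (l 16711072) (l 16714600)))) (b (c (a (a (a (c (l 16725816) (c (l 16728552) (l 16708920))) (l 16704640)) (l 16701608)) (l 16695560)) (a (c (a (a (l 16730280) (l 16719232)) (c (l 16727112) (a (l 16708336) (l 16727904)))) (a (l 16730088) (l 16718800))) (a (c (l 16723984) (c (l 16705704) (a (l 16707728) (l 16727440)))) (l 16721768)))) (c (b (c (l 16712768) (c (l 16715528) (a (a (l 16733664) (l 16740384)) (l 16734264)))) (a (a (a (c (l 16729272) (b (l 16741360) (l 16750200))) (l 16739560)) (l 16725984)) (l 16730320))) (a (b (c (a (l 16734584) (c (l 16742216) (l 16733136))) (l 16734312)) (c (a (b (l 16752664) (l 16751024)) (b (l 16742536) (c (l 16753384) (l 16749568)))) (b (l 16752392) (l 16756000)))) (b (a (c (l 16739056) (c (l 16741776) (l 16732592))) (l 16736816)) (a (c (l 16727440) (b (c (l 16749360) (l 16740176)) (c (l 16752952) (l 16749024)))) (l 16725184))))))) (a (b (l 16729640) (b (l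 16744808) (l 16754224))) (a (b (l 16707616) (b (l 16743744) (b (l 16751352) (l 16754968)))) (c (b (c (c (c (l 16705248) (a (l 16728072) (l 16705976))) (l 16727936)) (l 16727936)) (c (c (b (c (l 16741328) (l 16732032)) (b (c (l 16748904) (l 16750104)) (c (l 16752504) (l 16743224)))) (b (l 16743072) (l 16747224))) (l 16737288))) (b (l 16727864) (l 16737248)))))), by decide +kernel⟩

def k177_pp_012 : ∃ t, chk3 f_pp_012 t 993 120 8 = true :=
  ⟨(c (b (b (a (l 16634200) (l 16626464)) (b (l 16644936) (l 16654728))) (b (c (b (l 16667880) (l 16677672)) (l 16687144)) (c (b (l 16687504) (b (l 16694896) (l 16698376))) (b (l 16702056) (b (l 16709536) (l 16713064)))))) (a (b (c (c (a (c (l 16672280) (a (c (a (l 16676152) (l 16675400)) (l 16676416)) (b (l 16685704) (l 16684616)))) (l 16670096)) (c (a (l 16676248) (b (c (l 16685344) (l 16675792)) (c (l 16684264) (l 16695696)))) (l 16675880))) (l 16675784)) (b (c (c (a (c (l 16723168) (c (l 16704776) (l 16713712))) (l 16720944)) (c (a (l 16727248) (c (l 16704288) (l 16715744)))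 (l 16726888))) (l 16726832)) (c (c (c (b (l 16736208) (l 16724584)) (a (b (c (l 16740856) (l 16720968)) (b (c (l 16748432) (l 16749528)) (a (l 16742776) (l 16751896)))) (l 16729400))) (c (a (b (l 16742376) (l 16751776)) (b (c (l 16740368) (l 16741352)) (b (c (l 16747952) (l 16748936)) (c (l 16751544) (l 16752536))))) (l 16736232))) (l 16736208)))) (a (b (c (c (l 16666160) (c (l 16671440) (b (c (l 16674344) (l 16685664)) (a (l 16684744) (l 16694096))))) (l 16695752)) (c (b (c (l 16716928) (c (l 16722344) (c (l 16703784) (l 16704648)))) (c (b (l 16731944) (l 16720296)) (c (l 16726376) (b (c (l 16739864) (l 16740744)) (b (l 16741184) (c (l 16751040) (l 16751936))))))) (b (l 16725808) (l 16724680)))) (b (c (l 16655256) (c (c (b (c (l 16673816) (l 16685040)) (c (l 16693712) (l 16704952))) (l 16695112)) (l 16695048))) (c (b (l 16695552) (b (l 16710568) (l 16719888))) (b (c (c (c (l 16703256) (l 16704024)) (l 16725144)) (l 16725104)) (c (c (b (c (l 16739344) (l 16740120)) (b (l 16736688) (c (l 16750528) (l 16751312))))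 (l 16723992)) (l 16723976)))))))), by decide +kernel⟩

def k178_pp_012 : ∃ t, chk3 f_pp_012 t 994 120 16 = true :=
  ⟨(b (c (c (a (b (l 16639896) (l 16659072)) (a (c (a (b (l 16633440) (l 16652520)) (b (c (b (l 16623544) (l 16635656)) (l 16632408)) (a (l 16651088) (b (l 16645528) (l 16655080))))) (b (l 16635928) (l 16655048))) (c (b (a (c (l 16630376) (a (l 16631008) (l 16630384))) (l 16630584)) (a (c (l 16649408) (a (l 16650056) (l 16650072))) (l 16649616))) (a (b (l 16633096) (l 16652176)) (a (b (l 16631696) (l 16650752)) (c (b (l 16630264) (l 16649304)) (l 16641104))))))) (b (l 16622008) (l 16641240))) (b (l 16632344) (l 16651744))) (c (b (a (l 16660968) (c (a (a (l 16673504) (a (l 16672048) (c (b (l 16664672) (l 16674296)) (l 16672848)))) (c (a (c (l 16668568) (b (l 16664184) (l 16673800))) (l 16668784)) (a (l 16671392) (c (a (l 16669072) (l 16668472)) (l 16670336))))) (l 16677672))) (c (a (b (l 16692944) (b (l 16700256) (l 16703680))) (c (a (b (c (a (l 16685328) (l 16683584)) (l 16686144)) (b (c (l 16691760)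 (l 16693416)) (a (l 16696904) (c (a (l 16694520) (b (l 16683080) (c (l 16691192) (l 16694240)))) (l 16695824))))) (a (b (c (l 16683032) (l 16683456)) (b (c (l 16669312) (l 16690720)) (c (c (b (l 16693504) (b (l 16688888) (a (l 16683824) (l 6)))) (a (l 16682976) (l 16683120))) (b (l 16688616) (l 16683872))))) (b (l 16683248) (b (l 16680024) (b (c (b (l 16688592) (c (l 16689584) (l 16693968))) (l 16682872)) (l 6)))))) (b (a (l 16688832) (c (a (l 16684992) (l 16683328)) (l 16685800))) (b (a (l 16696128) (c (l 16691472) (l 16693080))) (a (l 16699536) (c (a (l 16695656) (c (l 16688384) (l 16673200))) (l 16696480))))))) (b (l 16696192) (b (l 16703528) (l 16706968))))) (b (l 16671288) (b (l 16686032) (b (l 16693432) (l 16696912)))))), by decide +kernel⟩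

def k179_pp_012 : ∃ t, chk3 f_pp_012 t 994 120 17 = true :=
  ⟨(b (c (b (l 16646168) (l 16665808)) (c (a (c (l 16668624) (a (a (l 16673512) (b (l 16673120) (l 16682536))) (l 16670136))) (l 16662552)) (a (a (l 16694384) (a (l 16672880) (c (b (l 16683048) (l 16681976)) (l 16693544)))) (c (b (l 16678808) (l 16677680)) (a (a (l 16672208) (b (l 16682472) (l 16702376))) (b (l 16680264) (l 16700128))))))) (c (b (l 16685576) (b (l 16700496) (l 16709752))) (b (c (a (c (l 16698528) (a (c (l 16702720) (l 16724360)) (l 16721056))) (l 16713312)) (a (a (l 16724424) (c (c (l 16702168) (l 16723704)) (l 16723744))) (c (l 16697656) (a (l 16706968) (l 16699168))))) (a (c (c (b (l 16734568) (l 16733432)) (a (b (l 16728520) (b (l 16736112) (c (l 16749992) (l 16750672)))) (b (l 16736144) (l 16735032)))) (a (l 16723288) (c (b (l 16727936) (b (l 16725040) (l 16744360))) (l 16722600)))) (c (l 16714624) (c (b (l 16712728) (b (l 16741272) (l 16744848))) (a (b (l 16716848) (b (l 16745408) (l 16749008))) (b (l 16735240) (b (l 16742816)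 (l 16746400)))))))))), by decide +kernel⟩

def k180_pp_012 : ∃ t, chk3 f_pp_012 t 995 240 8 = true :=
  ⟨(c (c (a (a (c (c (l 16640880) (b (a (c (l 16630224) (a (l 16630688) (l 16630144))) (l 16630448)) (a (c (l 16649256) (a (l 16649736) (l 16649184))) (l 16649488)))) (c (c (a (l 16620432) (b (a (l 16630536) (l 16630032)) (a (l 16649584) (l 16649080)))) (l 16621208)) (l 16623792))) (c (l 16641392) (c (a (b (c (l 16630080) (a (l 16630384) (l 16629920))) (c (l 16649128) (a (l 16649440) (l 16648968)))) (b (l 16630320) (l 16649368))) (c (a (l 16641056) (b (a (l 16630240) (l 16629816)) (a (l 16649296) (l 16648864)))) (l 16641832))))) (c (l 16643072) (a (c (l 16640664) (c (l 16639744) (a (b (a (l 16630096) (l 16629712)) (a (l 16649152) (l 16648768))) (l 16639408)))) (l 16641176)))) (a (b (l 16641880) (l 16661128)) (c (a (a (l 16622312) (c (c (b (l 16629888) (l 16649600)) (l 16640528)) (l 16643104))) (a (c (c (l 16639352) (b (l 16629776) (l 16648840))) (l 16641216)) (c (l 16639608) (c (b (l 16629664) (l 16648728))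 (l 16640184))))) (l 16626344)))) (b (l 16637672) (l 16636240))), by decide +kernel⟩

def k181_pp_012 : ∃ t, chk3 f_pp_012 t 995 482 8 = true :=
  ⟨(c (c (a (c (a (c (l 16669600) (a (c (l 16668432) (a (l 16668920) (l 16668360))) (l 16668664))) (l 16670120)) (a (c (a (l 16671048) (c (a (l 16668776) (l 16668256)) (l 16669992))) (l 16673608)) (c (a (c (l 16668304) (a (l 16668624) (l 16668152))) (l 16668552)) (a (l 16670704) (c (a (l 16668488) (l 16668056)) (l 16669648)))))) (a (c (l 16671264) (c (l 16669408) (a (c (l 16668192) (a (l 16668344) (l 16667960))) (l 16668456)))) (b (l 16666352) (b (l 16673576) (a (l 16678120) (a (l 16678576) (b (l 16677624) (b (l 16679464) (l 6))))))))) (a (l 16659536) (c (a (c (a (l 16670360) (c (a (l 16668216) (l 16667864)) (l 16669304))) (l 16672912)) (c (a (c (l 16668096) (l 16668032)) (l 16668360)) (a (l 16670016) (c (l 16667928) (l 16668968))))) (l 16676256)))) (c (l 16669792) (l 16683992))), by decide +kernel⟩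

def k182_pp_012 : ∃ t, chk3 f_pp_012 t 995 483 8 = true :=
  ⟨(b (c (c (c (a (a (c (l 16684072) (a (c (l 16682896) (l 16683200)) (l 16683136))) (b (l 16682184) (c (b (l 16676008) (a (l 16688664) (a (b (l 16678008) (l 6)) (l 6)))) (l 16686400)))) (a (c (a (b (l 16683696) (c (b (c (l 16683360) (l 16666608)) (l 6)) (l 16688312))) (b (c (c (b (l 16683536) (l 16686608)) (l 16663480)) (l 16683928)) (l 6))) (l 16685136)) (a (b (b (a (l 16682912) (b (l 16672104) (l 6))) (l 6)) (l 6)) (l 6)))) (a (a (a (l 16687336) (c (c (l 16683080) (l 16684480)) (l 16687168))) (c (a (c (l 16682776) (l 16682960)) (l 16683032)) (a (l 16685208) (c (l 16682848) (l 16684144))))) (a (c (l 16683888) (a (c (l 16682672) (l 16682736)) (l 16682936))) (l 16684424)))) (a (l 16695128) (c (a (a (l 16686648) (c (c (l 16682624) (l 16683800)) (l 16686472))) (a (c (l 16682648) (l 16684528)) (l 6))) (l 16690848)))) (c (l 16684544) (l 16698928))) (b (a (c (c (a (c (c (c (b (a (l 16690144) (c (l 16685904) (l 16690568))) (a (c (b (l 16671248) (l 16688528))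 (l 16692416)) (c (l 16692024) (l 16690736)))) (l 16691024)) (a (c (l 16690160) (l 16690472)) (l 16690400))) (a (l 16694624) (c (l 16691120) (l 16694456)))) (a (a (c (a (b (b (l 16679096) (l 6)) (l 6)) (l 6)) (c (l 16690240) (l 16692976))) (l 6)) (l 6))) (l 16702472)) (l 16703184)) (l 6)) (l 6))), by decide +kernel⟩

def k183_pp_012 : ∃ t, chk3 f_pp_012 t 498 240 8 = true :=
  ⟨(c (c (b (l 16637864) (a (l 16654760) (c (b (a (l 16654512) (c (b (l 16655072) (a (c (l 16659848) (l 16658864)) (c (b (l 16660480) (l 6)) (l 16660344)))) (l 16656112))) (a (c (b (a (l 16661776) (c (a (l 16642056) (l 16664072)) (l 16662576))) (b (a (l 16644536) (c (a (l 16667424) (l 6)) (l 16645392))) (a (c (a (l 16647128) (l 16669408)) (l 16667488)) (l 6)))) (l 16663520)) (a (a (a (b (b (l 16661904) (l 6)) (l 6)) (l 6)) (l 6)) (l 6)))) (l 16658000)))) (a (a (c (a (a (c (l 16640176) (c (l 16639256) (b (l 16629552) (l 16648624)))) (l 16640120)) (l 16640968)) (c (a (a (l 16619896) (c (b (l 16629448) (l 16648528)) (l 16618888))) (a (b (l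 16629544) (l 16648624)) (l 16639408))) (a (l 16643344) (a (b (l 16631000) (l 16650104)) (b (c (l 16629256) (l 16630008)) (c (l 16648336) (l 16649104))))))) (a (c (l 16642088) (b (l 16630192) (l 16649280))) (l 16641984))) (l 16644776))) (a (c (a (l 16629048) (c (a (c (a (b (l 16630672) (l 16649784)) (b (c (l 16629072) (l 16629696)) (c (l 16648152) (l 16648800)))) (l 16642624)) (b (c (l 16629480) (a (l 16630352) (c (l 16628896) (l 16629400)))) (c (l 16648576) (a (l 16649464) (c (l 16647992) (l 16648512)))))) (l 16624888))) (l 16617992)) (c (a (c (b (l 16630496) (l 16649600)) (a (c (a (b (l 16630040) (l 16649160)) (b (l 16629080) (c (l 16647848) (l 16648232)))) (l 16641904)) (c (l 16638768) (a (b (l 16629736) (l 16648864)) (b (l 16628864) (l 16647976)))))) (l 16641032)) (a (l 16627560) (c (a (c (a (b (l 16629440) (l 16648576)) (b (l 16628664) (l 16647784))) (l 16641176)) (c (l 16638552) (a (b (l 16629160) (l 16648296)) (b (l 16628472) (l 16647600))))) (l 16644392)))))), by decide +kernel⟩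

def k184_pp_012 : ∃ t, chk3 f_pp_012 t 499 240 8 = true :=
  ⟨(b (c (c (a (c (b (a (l 16639720) (c (b (l 16640072) (a (l 16644344) (c (l 16646672) (l 16645128)))) (l 16641272))) (b (a (l 16646936) (a (b (l 16647552) (a (l 16649744) (l 6))) (l 6))) (a (c (a (l 16651872) (c (b (l 16652616) (l 16656080)) (l 16652696))) (l 16651088)) (l 6)))) (l 16643200)) (a (a (b (b (a (l 16639704) (b (l 16639024) (l 6))) (l 6)) (l 6)) (l 6)) (l 6))) (l 16641792)) (a (c (l 16634808) (a (c (l 16630072) (a (c (a (l 16628880) (l 16628296)) (l 16630880)) (c (l 16628816) (a (l 16628616) (l 16628128))))) (l 16631096))) (l 16636808))) (a (a (b (a (a (c (b (b (l 16640416) (l 6)) (l 6)) (c (l 16647216) (c (l 16643568) (l 16644752)))) (l 6)) (l 6)) (l 6)) (l 6)) (l 6))), by decide +kernel⟩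

def k185_pp_012 : ∃ t, chk3 f_pp_012 t 249 241 8 = true :=
  ⟨(b (a (a (a (c (c (c (b (l 16669304) (a (c (b (l 16676664) (b (c (a (l 16670000) (c (l 16682264) (l 16660008))) (l 16679880)) (l 6))) (l 16677752)) (b (c (c (b (a (l 16655688) (c (l 16678224) (l 16656144))) (a (c (l 16680240) (l 16658072)) (l 6))) (l 16677528)) (l 16676472)) (l 6)))) (l 16671640)) (c (a (c (l 16669216) (b (l 16663392) (l 16673024))) (l 16669744)) (a (c (a (l 16669672) (c (l 16667728) (l 16668640))) (l 16672208)) (c (a (l 16667832) (l 16668176)) (a (l 16669344) (c (l 16667544) (l 16668328))))))) (l 16665136)) (b (c (c (c (c (b (a (l 16669192) (b (l 16669296) (a (l 16671520) (l 6)))) (a (c (b (b (l 16651712) (l 16674184)) (a (l 16675864) (l 6))) (l 16673752)) (l 6))) (l 16670952)) (l 16669088)) (l 16665448)) (c (c (a (c (a (l 16664200) (l 16663032)) (l 16666672)) (c (l 16662984) (a (l 16663888) (l 16662816)))) (l 16669984)) (l 16680464))) (l 6))) (l 6)) (l 6)) (l 6)), by decide +kernel⟩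

def k186_pp_012 : ∃ t, chk3 f_pp_012 t 992 242 32 = true :=
  ⟨(c (b (l 16713352) (a (b (l 16720416) (b (l 16721888) (b (l 16722632) (a (l 16746192) (c (a (l 16741136) (c (b (l 16737992) (a (l 16738776) (a (b (l 16732688) (l 6)) (l 6)))) (l 16739992))) (l 16743896)))))) (b (l 16723912) (a (c (a (b (l 16735752) (c (a (b (l 16736056) (c (b (c (b (l 16733184) (l 16733576)) (l 16730968)) (l 6)) (l 16734424))) (b (c (b (l 16734416) (c (b (l 16729232) (l 16732208)) (l 16734904))) (l 16735472)) (l 6))) (l 16737664))) (a (b (l 16734192) (b (b (a (l 16732456) (b (l 16734488) (l 6))) (l 6)) (l 6))) (b (b (l 16732912) (c (c (b (l 16731856) (c (l 16731048) (l 16732328))) (l 16732920)) (l 16734336))) (l 6)))) (l 16738976)) (b (c (a (c (b (l 16730448) (a (c (b (l 16729600) (c (b (l 16728552) (l 6)) (l 16730152))) (l 16731880)) (a (b (b (l 16727896) (l 6)) (l 6)) (l 6)))) (l 16732536)) (b (c (c (b (a (l 16717832) (c (b (l 16721896) (l 16722296)) (l 16717040))) (a (c (b (l 16723224) (l 6)) (l 16723584)) (l 6))) (l 16726240))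 (l 16730232)) (l 6))) (l 16734328)) (l 6)))))) (a (l 16737448) (l 16729144))), by decide +kernel⟩

def k187_pp_012 : ∃ t, chk3 f_pp_012 t 993 242 32 = true :=
  ⟨(b (c (b (l 16696120) (a (l 16722992) (c (b (a (l 16714576) (c (b (l 16709400) (a (l 16700376) (c (b (a (l 16708776) (l 16705360)) (a (b (l 16698568) (l 16704120)) (l 6))) (l 16698824)))) (l 16711456))) (b (a (l 16715280) (c (a (c (b (a (l 16700792) (c (l 16705184) (l 16700032))) (a (c (l 16706504) (l 16701304)) (l 6))) (l 16706568)) (l 6)) (l 16712160))) (a (c (b (a (l 16715680) (c (a (l 16708568) (c (l 16707832) (l 16707824))) (l 16714112))) (a (c (a (l 16715952) (l 16712472)) (l 16716368)) (l 6))) (l 16716632)) (l 6)))) (l 16716696)))) (l 16704424)) (b (a (c (c (b (a (l 16724560) (c (b (a (l 16720328) (a (l 16708320) (a (l 16715472) (b (l 16717416) (b (l 16712408) (l 6)))))) (b (a (l 16710208) (c (a (c (l 16716232) (l 16708480)) (l 6)) (l 16708640))) (a (c (a (l 16715776) (c (l 16717560) (l 16709760))) (l 16721360)) (l 6)))) (l 16721392))) (a (c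 (b (c (a (l 16724880) (b (l 16721488) (a (c (l 16720792) (l 16723688)) (c (l 16717640) (l 16720232))))) (l 16724792)) (a (c (b (a (l 16725752) (c (l 16723416) (l 16724960))) (a (b (l 16720776) (c (l 16720944) (l 16726304))) (l 6))) (l 16715808)) (l 6))) (l 16726432)) (a (b (b (a (a (b (l 16720192) (l 6)) (l 6)) (l 6)) (l 6)) (l 6)) (l 6)))) (l 16716232)) (l 16732328)) (a (a (a (b (b (b (a (l 16715552) (b (l 16712360) (l 6))) (l 6)) (l 6)) (l 6)) (l 6)) (l 6)) (l 6))) (l 6))), by decide +kernel⟩

def k188_pp_012 : ∃ t, chk3 f_pp_012 t 496 242 33 = true :=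
  ⟨(a (c (a (c (l 16732624) (c (l 16735456) (a (a (b (l 16758872) (l 16759144)) (l 16738392)) (l 16756224)))) (l 16726168)) (a (c (c (a (a (l 16761376) (b (l 16758584) (l 16757536))) (l 16737128)) (a (l 16761192) (a (b (l 16758280) (l 16757240)) (l 16737952)))) (a (l 16761192) (a (l 16760648) (b (l 16758056) (l 16758320))))) (a (c (l 16733896) (a (c (l 16748208) (l 16754520)) (l 16747056))) (l 16731608)))) (b (l 16715544) (c (l 16715688) (l 16723208)))), by decide +kernel⟩

def k189_pp_012 : ∃ t, chk3 f_pp_012 t 496 242 17 = true :=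
  ⟨(c (a (a (l 16760816) (c (c (c (a (l 16753768) (a (l 16747728) (l 16756240))) (a (l 16759744) (a (l 16748640) (l 16747480)))) (l 16748880)) (l 16759376))) (a (a (c (c (l 16733080) (a (c (l 16752464) (l 16758456)) (b (l 16733552) (l 16753432)))) (l 16758304)) (c (l 16730792) (c (a (c (l 16751936) (l 16757768)) (c (l 16755416) (l 16751656))) (l 16757592)))) (c (l 16724568) (c (l 16730176) (a (a (c (l 16746136) (l 16757064)) (b (l 16743032) (l 6))) (l 16731840)))))) (a (l 16760072) (a (l 16757928) (c (a (l 16756872) (c (b (c (l 16742656) (l 16753936)) (l 6)) (l 16756168))) (l 16756504))))), by decide +kernel⟩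

def k190_pp_012 : ∃ t, chk3 f_pp_012 t 496 243 8 = true :=
  ⟨(b (b (a (a (c (a (c (c (c (a (b (l 16746088) (b (b (c (c (a (l 16740576) (c (b (l 16743944) (a (l 16742440) (l 6))) (l 16739768))) (l 16746216)) (l 16747656)) (a (a (b (l 16745072) (l 6)) (l 6)) (l 6))) (l 6))) (b (c (b (l 16742776) (c (b (a (l 16743192) (a (l 16739840) (b (l 16736624) (l 6)))) (a (c (b (l 16740624) (a (l 16741064) (l 6))) (l 16743688)) (l 6))) (l 16743752))) (l 16744928)) (l 6))) (l 16749352)) (l 16734136)) (c (a (c (l 16761936) (c (l 16764816) (c (l 16766088) (l 16766544)))) (l 16740752)) (c (a (l 16766656) (c (c (l 16765816) (l 16766216)) (l 16766288))) (l 16766472)))) (b (b (c (c (c (c (a (c (b (a (l 16740600) (c (l 16738120) (l 16739792))) (b (a (l 16730320) (c (a (l 16734720) (l 6)) (l 16729520))) (a (c (l 16739552) (l 16741144)) (l 6)))) (l 16741152)) (a (a (b (b (c (l 16736176) (l 16739656)) (l 6)) (l 6)) (l 6)) (l 6))) (l 16741528)) (l 16744392)) (l 16750120)) (c (l 16757768) (c (c (l 16762544) (a (l 16764848) (l 16763376)))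 (l 16762216)))) (l 6)) (l 6))) (l 16766080)) (l 6)) (l 6)) (l 6)) (l 6)), by decide +kernel⟩

def k191_pp_012 : ∃ t, chk3 f_pp_012 t 497 121 8 = true :=
  ⟨(a (b (b (c (c (a (c (b (c (b (a (l 16704760) (c (b (l 16699648) (a (l 16701072) (c (l 16696144) (l 16699536)))) (l 16701688))) (b (a (l 16705416) (c (b (a (l 16701408) (c (a (l 16694464) (l 6)) (l 16699880))) (a (c (b (l 16690736) (l 16699528)) (l 16702064)) (l 6))) (l 16702328))) (b (a (l 16705768) (c (a (c (a (l 16699624) (l 6)) (l 16691856)) (l 6)) (l 16692200))) (a (a (l 16706968) (a (l 16700256) (a (b (l 16694208) (l 6)) (l 6)))) (l 6))))) (l 16706856)) (a (b (b (c (c (b (a (l 16701104) (c (a (c (l 16694264) (l 16694232)) (l 6)) (l 16699584))) (a (a (l 16705800) (l 6)) (l 6))) (l 16707208)) (l 16709960)) (l 6)) (l 6)) (l 6))) (l 16713240)) (a (b (b (c (c (b (c (a (l 16686248) (c (b (a (l 16684240) (c (l 16689304) (l 16688944))) (a (c (l 16684776) (l 16684744)) (l 6))) (l 16692616))) (l 16697496)) (a (a (b (l 16693216) (l 6)) (l 6)) (l 6))) (l 16700432))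 (l 16705888)) (l 6)) (l 6)) (l 6))) (l 16699248)) (c (l 16713984) (c (a (a (c (l 16750344) (c (l 16742120) (l 16753296))) (l 16727096)) (l 16741936)) (a (a (l 16753384) (c (c (l 16741568) (l 16752640)) (l 16752688))) (c (l 16726448) (a (l 16746368) (l 6))))))) (l 6)) (l 6)) (l 6)), by decide +kernel⟩

def k192_pp_012 : ∃ t, chk3 f_pp_012 t 249 121 8 = true :=
  ⟨(l 6), by decide +kernel⟩

def k193_pp_012 : ∃ t, chk3 f_pp_012 t 248 120 9 = true :=
  ⟨(a (b (a (l 16677424) (l 16674728)) (b (l 16727296) (b (l 16742536) (l 16744136)))) (c (c (a (b (a (l 16693936) (a (l 16692944) (c (c (b (l 16682136) (l 16681072)) (l 16692312)) (l 16692248)))) (b (a (l 16724016) (a (l 16723008) (b (l 16706712) (l 16716776)))) (a (l 16722904) (a (l 16721880) (a (l 16731848) (b (l 16726696) (b (l 16744776) (l 16743136)))))))) (b (c (a (c (b (l 16656920) (l 16676768)) (a (b (l 16681512) (l 16701424)) (b (l 16679288) (l 16678192)))) (l 16660896)) (a (b (l 16681256) (l 16701176)) (c (a (b (l 16678784) (l 16677688)) (l 16685136)) (a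 (l 16669208) (b (l 16678272) (l 16677184)))))) (b (c (a (c (l 16696760) (a (l 16700496) (l 16698208))) (l 16711680)) (a (l 16700264) (c (a (l 16697712) (l 16715032)) (a (l 16720200) (l 16697200))))) (b (c (a (c (l 16711840) (a (l 16736592) (l 16734280))) (l 16726704)) (a (l 16736368) (c (l 16721400) (a (l 16735328) (l 16712312))))) (b (a (c (c (l 16719408) (a (l 16744184) (l 16741856))) (l 16743968)) (l 6)) (l 6)))))) (b (a (l 16693120) (l 16669512)) (b (l 16700920) (a (l 16722160) (b (l 16735704) (l 16737248)))))) (b (l 16670592) (b (l 16721752) (b (l 16736968) (l 16746408)))))), by decide +kernel⟩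

def k194_pp_012 : ∃ t, chk3 f_pp_012 t 249 120 9 = true :=
  ⟨(b (a (c (a (c (l 16631768) (c (a (c (a (b (l 16677744) (l 16676664)) (l 16684288)) (a (l 16688872) (b (l 16677216) (l 16676136)))) (l 16659232)) (a (l 16688512) (c (a (b (l 16676672) (l 16675592)) (l 16683440)) (a (l 16687536) (b (l 16676120) (l 16696016))))))) (l 16623280)) (a (l 16687664) (c (c (a (c (a (b (l 16675560) (l 16695464)) (l 16682584)) (a (l 16686176) (b (l 16675000) (l 16694896)))) (l 16657536)) (a (l 16685800) (c (a (l 16663384) (l 16681680)) (a (l 16684832) (l 16662800))))) (l 16685032)))) (a (a (c (l 16611880) (c (l 16632280) (c (c (a (l 16662216) (l 16659776)) (l 16662016)) (l 16683104)))) (b (c (c (c (a (c (l 16630320) (l 16630184)) (c (l 16628632) (l 16628152))) (l 16633336)) (l 16643352)) (c (l 16656800) (c (l 16666840) (c (a (l 16672048) (l 16669856)) (l 16671792))))) (l 6))) (b (a (c (c (c (l 16629704) (a (c (l 16627960) (l 16629512)) (l 6))) (l 16635936)) (c (l 16649272) (l 16641632))) (l 6)) (l 6)))) (b (a (a (c (c (l 16682400)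 (c (a (c (a (l 16696688) (l 16714200)) (a (l 16718896) (l 16696160))) (l 16710040)) (a (l 16718552) (c (a (l 16695624) (l 16713368)) (a (l 16717560) (l 16695080)))))) (l 16717776)) (l 6)) (l 6)) (l 6))), by decide +kernel⟩

def k195_pp_012 : ∃ t, chk3 f_pp_012 t 124 121 9 = true :=
  ⟨(a (b (a (l 16750704) (a (a (l 16755024) (a (l 16753976) (l 6))) (l 6))) (a (b (l 16759648) (l 6)) (l 6))) (l 6)), by decide +kernel⟩

def k196_pp_012 : ∃ t, chk3 f_pp_012 t 124 61 4 = true :=
  ⟨(l 6), by decide +kernel⟩

def k197_pp_012 : ∃ t, chk3 f_pp_012 t 125 30 4 = true :=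
  ⟨(l 6), by decide +kernel⟩

def k198_pp_012 : ∃ t, chk3 f_pp_012 t 62 30 5 = true :=
  ⟨(b (a (b (b (c (a (a (l 16675448) (l 16670096)) (a (l 16685880) (a (l 16682088) (a (a (l 16659552) (b (l 6) (l 6))) (l 6))))) (a (a (l 16674824) (l 16690408)) (l 16661672))) (b (a (c (l 16708448) (l 16702816)) (a (l 16715928) (l 6))) (a (b (c (l 16718536) (l 16718280)) (c (b (l 16747208) (l 16729888)) (b (l 16747016) (l 16750696)))) (l 6)))) (a (b (c (a (b (l 16756344) (l 16739600)) (l 16731808)) (a (l 16747848) (l 16752624))) (a (b (c (l 16759576) (l 16754248)) (l 6)) (l 6))) (l 6))) (l 6)) (l 6)), by decide +kernel⟩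

def k199_pp_012 : ∃ t, chk3 f_pp_012 t 63 30 2 = true :=
  ⟨(l 6), by decide +kernel⟩

def k200_pp_012 : ∃ t, chk3 f_pp_012 t 31 31 2 = true :=
  ⟨(l 6), by decide +kernel⟩

def k201_pp_012 : ∃ t, chk3 f_pp_012 t 31 15 3 = true :=
  ⟨(b (a (a (b (a (b (b (c (c (l 16671472) (l 16670824)) (c (l 16691136) (l 16690480))) (c (b (c (l 16702424) (l 16723000)) (c (b (l 16738992) (b (l 16746816) (l 16750528))) (b (l 16738728) (l 16727520)))) (c (b (l 16722608) (l 16722408)) (l 16690720)))) (a (c (b (c (l 16737240) (l 16737120)) (b (c (l 16743688) (l 16764576)) (l 6))) (c (b (l 16757976) (l 16745712)) (l 16741240))) (b (b (c (l 16750296) (l 16749952)) (l 6)) (l 6)))) (b (b (c (c (l 16660968) (l 16681224)) (l 16659176)) (b (c (l 16691448) (l 16711504)) (l 6))) (l 6))) (l 6)) (l 6)) (l 6)) (l 6)), by decide +kernel⟩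

theorem s202_pp_012 : ∃ t, chk3 f_pp_012 t 124 120 9 = true := ex3_a k193_pp_012 k194_pp_012

theorem s203_pp_012 : ∃ t, chk3 f_pp_012 t 124 60 9 = true := ex3_b s202_pp_012 k195_pp_012

theorem s204_pp_012 : ∃ t, chk3 f_pp_012 t 496 242 32 = true := ex3_a k186_pp_012 k187_pp_012

theorem s205_pp_012 : ∃ t, chk3 f_pp_012 t 496 242 16 = true := ex3_c s204_pp_012 k188_pp_012

theorem s206_pp_012 : ∃ t, chk3 f_pp_012 t 496 242 8 = true := ex3_c s205_pp_012 k189_pp_012

theorem s207_pp_012 : ∃ t, chk3 f_pp_012 t 496 121 8 = true := ex3_b s206_pp_012 k190_pp_012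

theorem s208_pp_012 : ∃ t, chk3 f_pp_012 t 248 121 8 = true := ex3_a s207_pp_012 k191_pp_012

theorem s209_pp_012 : ∃ t, chk3 f_pp_012 t 124 121 8 = true := ex3_a s208_pp_012 k192_pp_012

theorem s210_pp_012 : ∃ t, chk3 f_pp_012 t 249 240 8 = true := ex3_a k183_pp_012 k184_pp_012

theorem s211_pp_012 : ∃ t, chk3 f_pp_012 t 249 120 8 = true := ex3_b s210_pp_012 k185_pp_012

theorem s212_pp_012 : ∃ t, chk3 f_pp_012 t 995 241 8 = true := ex3_b k181_pp_012 k182_pp_012

theorem s213_pp_012 : ∃ t, chk3 f_pp_012 t 995 120 8 = true := ex3_b k180_pp_012 s212_pp_012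

theorem s214_pp_012 : ∃ t, chk3 f_pp_012 t 994 120 8 = true := ex3_c k178_pp_012 k179_pp_012

theorem s215_pp_012 : ∃ t, chk3 f_pp_012 t 497 120 8 = true := ex3_a s214_pp_012 s213_pp_012

theorem s216_pp_012 : ∃ t, chk3 f_pp_012 t 992 120 8 = true := ex3_b k175_pp_012 k176_pp_012

theorem s217_pp_012 : ∃ t, chk3 f_pp_012 t 496 120 8 = true := ex3_a s216_pp_012 k177_pp_012

theorem s218_pp_012 : ∃ t, chk3 f_pp_012 t 248 120 8 = true := ex3_a s217_pp_012 s215_pp_012

theorem s219_pp_012 : ∃ t, chk3 f_pp_012 t 124 120 8 = true := ex3_a s218_pp_012 s211_pp_012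

theorem s220_pp_012 : ∃ t, chk3 f_pp_012 t 124 60 8 = true := ex3_b s219_pp_012 s209_pp_012

theorem s221_pp_012 : ∃ t, chk3 f_pp_012 t 124 60 4 = true := ex3_c s220_pp_012 s203_pp_012

theorem s222_pp_012 : ∃ t, chk3 f_pp_012 t 124 30 4 = true := ex3_b s221_pp_012 k196_pp_012

theorem s223_pp_012 : ∃ t, chk3 f_pp_012 t 62 30 4 = true := ex3_a s222_pp_012 k197_pp_012

theorem s224_pp_012 : ∃ t, chk3 f_pp_012 t 62 30 2 = true := ex3_c s223_pp_012 k198_pp_012

theorem s225_pp_012 : ∃ t, chk3 f_pp_012 t 31 30 2 = true := ex3_a s224_pp_012 k199_pp_012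

theorem s226_pp_012 : ∃ t, chk3 f_pp_012 t 31 15 2 = true := ex3_b s225_pp_012 k200_pp_012

theorem s227_pp_012 : ∃ t, chk3 f_pp_012 t 31 15 1 = true := ex3_c s226_pp_012 k201_pp_012

theorem s228_pp_012 : ∃ t, chk3 f_pp_012 t 62 29 3 = true := ex3_b k172_pp_012 k173_pp_012

theorem s229_pp_012 : ∃ t, chk3 f_pp_012 t 31 29 3 = true := ex3_a s228_pp_012 k174_pp_012

theorem s230_pp_012 : ∃ t, chk3 f_pp_012 t 63 28 3 = true := ex3_a k170_pp_012 k171_pp_012

theorem s231_pp_012 : ∃ t, chk3 f_pp_012 t 31 28 3 = true := ex3_a k169_pp_012 s230_pp_012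

theorem s232_pp_012 : ∃ t, chk3 f_pp_012 t 31 14 3 = true := ex3_b s231_pp_012 s229_pp_012

theorem s233_pp_012 : ∃ t, chk3 f_pp_012 t 126 29 2 = true := ex3_a k166_pp_012 k167_pp_012

theorem s234_pp_012 : ∃ t, chk3 f_pp_012 t 126 14 2 = true := ex3_b k165_pp_012 s233_pp_012

theorem s235_pp_012 : ∃ t, chk3 f_pp_012 t 63 14 2 = true := ex3_a s234_pp_012 k168_pp_012

theorem s236_pp_012 : ∃ t, chk3 f_pp_012 t 251 29 5 = true := ex3_b k163_pp_012 k164_pp_012

theorem s237_pp_012 : ∃ t, chk3 f_pp_012 t 501 29 5 = true := ex3_b k161_pp_012 k162_pp_012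

theorem s238_pp_012 : ∃ t, chk3 f_pp_012 t 500 29 5 = true := ex3_b k159_pp_012 k160_pp_012

theorem s239_pp_012 : ∃ t, chk3 f_pp_012 t 250 29 5 = true := ex3_a s238_pp_012 s237_pp_012

theorem s240_pp_012 : ∃ t, chk3 f_pp_012 t 125 29 5 = true := ex3_a s239_pp_012 s236_pp_012

theorem s241_pp_012 : ∃ t, chk3 f_pp_012 t 125 14 5 = true := ex3_b k158_pp_012 s240_pp_012

theorem s242_pp_012 : ∃ t, chk3 f_pp_012 t 124 29 5 = true := ex3_b k156_pp_012 k157_pp_012

theorem s243_pp_012 : ∃ t, chk3 f_pp_012 t 124 14 5 = true := ex3_b k155_pp_012 s242_pp_012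

theorem s244_pp_012 : ∃ t, chk3 f_pp_012 t 62 14 5 = true := ex3_a s243_pp_012 s241_pp_012

theorem s245_pp_012 : ∃ t, chk3 f_pp_012 t 500 59 4 = true := ex3_c k151_pp_012 k152_pp_012

theorem s246_pp_012 : ∃ t, chk3 f_pp_012 t 500 29 4 = true := ex3_b k150_pp_012 s245_pp_012

theorem s247_pp_012 : ∃ t, chk3 f_pp_012 t 250 29 4 = true := ex3_a s246_pp_012 k153_pp_012

theorem s248_pp_012 : ∃ t, chk3 f_pp_012 t 125 29 4 = true := ex3_a s247_pp_012 k154_pp_012

theorem s249_pp_012 : ∃ t, chk3 f_pp_012 t 499 119 4 = true := ex3_c k148_pp_012 k149_pp_012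

theorem s250_pp_012 : ∃ t, chk3 f_pp_012 t 498 119 4 = true := ex3_a k146_pp_012 k147_pp_012

theorem s251_pp_012 : ∃ t, chk3 f_pp_012 t 249 119 4 = true := ex3_a s250_pp_012 s249_pp_012

theorem s252_pp_012 : ∃ t, chk3 f_pp_012 t 249 118 9 = true := ex3_a k144_pp_012 k145_pp_012

theorem s253_pp_012 : ∃ t, chk3 f_pp_012 t 249 118 17 = true := ex3_a k142_pp_012 k143_pp_012

theorem s254_pp_012 : ∃ t, chk3 f_pp_012 t 249 118 8 = true := ex3_c k141_pp_012 s253_pp_012

theorem s255_pp_012 : ∃ t, chk3 f_pp_012 t 249 118 4 = true := ex3_c s254_pp_012 s252_pp_012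

theorem s256_pp_012 : ∃ t, chk3 f_pp_012 t 249 59 4 = true := ex3_b s255_pp_012 s251_pp_012

theorem s257_pp_012 : ∃ t, chk3 f_pp_012 t 248 59 9 = true := ex3_b k139_pp_012 k140_pp_012

theorem s258_pp_012 : ∃ t, chk3 f_pp_012 t 497 239 8 = true := ex3_a k137_pp_012 k138_pp_012

theorem s259_pp_012 : ∃ t, chk3 f_pp_012 t 497 119 8 = true := ex3_b k136_pp_012 s258_pp_012

theorem s260_pp_012 : ∃ t, chk3 f_pp_012 t 995 237 16 = true := ex3_c k133_pp_012 k134_pp_012

theorem s261_pp_012 : ∃ t, chk3 f_pp_012 t 995 118 16 = true := ex3_b k132_pp_012 s260_pp_012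

theorem s262_pp_012 : ∃ t, chk3 f_pp_012 t 497 118 16 = true := ex3_a k131_pp_012 s261_pp_012

theorem s263_pp_012 : ∃ t, chk3 f_pp_012 t 497 118 8 = true := ex3_c s262_pp_012 k135_pp_012

theorem s264_pp_012 : ∃ t, chk3 f_pp_012 t 497 59 8 = true := ex3_b s263_pp_012 s259_pp_012

theorem s265_pp_012 : ∃ t, chk3 f_pp_012 t 496 119 17 = true := ex3_a k129_pp_012 k130_pp_012

theorem s266_pp_012 : ∃ t, chk3 f_pp_012 t 496 119 16 = true := ex3_b k127_pp_012 k128_pp_012

theorem s267_pp_012 : ∃ t, chk3 f_pp_012 t 496 119 8 = true := ex3_c s266_pp_012 s265_pp_012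

theorem s268_pp_012 : ∃ t, chk3 f_pp_012 t 496 59 8 = true := ex3_b k126_pp_012 s267_pp_012

theorem s269_pp_012 : ∃ t, chk3 f_pp_012 t 248 59 8 = true := ex3_a s268_pp_012 s264_pp_012

theorem s270_pp_012 : ∃ t, chk3 f_pp_012 t 248 59 4 = true := ex3_c s269_pp_012 s257_pp_012

theorem s271_pp_012 : ∃ t, chk3 f_pp_012 t 124 59 4 = true := ex3_a s270_pp_012 s256_pp_012

theorem s272_pp_012 : ∃ t, chk3 f_pp_012 t 499 58 9 = true := ex3_c k124_pp_012 k125_pp_012

theorem s273_pp_012 : ∃ t, chk3 f_pp_012 t 249 58 9 = true := ex3_a k123_pp_012 s272_pp_012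

theorem s274_pp_012 : ∃ t, chk3 f_pp_012 t 249 58 8 = true := ex3_a k121_pp_012 k122_pp_012

theorem s275_pp_012 : ∃ t, chk3 f_pp_012 t 249 58 4 = true := ex3_c s274_pp_012 s273_pp_012

theorem s276_pp_012 : ∃ t, chk3 f_pp_012 t 248 58 8 = true := ex3_a k118_pp_012 k119_pp_012

theorem s277_pp_012 : ∃ t, chk3 f_pp_012 t 248 58 4 = true := ex3_c s276_pp_012 k120_pp_012

theorem s278_pp_012 : ∃ t, chk3 f_pp_012 t 124 58 4 = true := ex3_a s277_pp_012 s275_pp_012

theorem s279_pp_012 : ∃ t, chk3 f_pp_012 t 124 29 4 = true := ex3_b s278_pp_012 s271_pp_012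

theorem s280_pp_012 : ∃ t, chk3 f_pp_012 t 62 29 4 = true := ex3_a s279_pp_012 s248_pp_012

theorem s281_pp_012 : ∃ t, chk3 f_pp_012 t 62 28 4 = true := ex3_c k116_pp_012 k117_pp_012

theorem s282_pp_012 : ∃ t, chk3 f_pp_012 t 62 14 4 = true := ex3_b s281_pp_012 s280_pp_012

theorem s283_pp_012 : ∃ t, chk3 f_pp_012 t 62 14 2 = true := ex3_c s282_pp_012 s244_pp_012

theorem s284_pp_012 : ∃ t, chk3 f_pp_012 t 31 14 2 = true := ex3_a s283_pp_012 s235_pp_012

theorem s285_pp_012 : ∃ t, chk3 f_pp_012 t 31 14 1 = true := ex3_c s284_pp_012 s232_pp_012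

theorem s286_pp_012 : ∃ t, chk3 f_pp_012 t 31 7 1 = true := ex3_b s285_pp_012 s227_pp_012

theorem s287_pp_012 : ∃ t, chk3 f_pp_012 t 246 241 3 = true := ex3_a k110_pp_012 k111_pp_012

theorem s288_pp_012 : ∃ t, chk3 f_pp_012 t 246 120 3 = true := ex3_b k109_pp_012 s287_pp_012

theorem s289_pp_012 : ∃ t, chk3 f_pp_012 t 246 60 3 = true := ex3_b s288_pp_012 k112_pp_012

theorem s290_pp_012 : ∃ t, chk3 f_pp_012 t 123 60 3 = true := ex3_a s289_pp_012 k113_pp_012

theorem s291_pp_012 : ∃ t, chk3 f_pp_012 t 61 60 3 = true := ex3_a k108_pp_012 s290_pp_012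

theorem s292_pp_012 : ∃ t, chk3 f_pp_012 t 61 30 3 = true := ex3_b s291_pp_012 k114_pp_012

theorem s293_pp_012 : ∃ t, chk3 f_pp_012 t 30 30 3 = true := ex3_a k107_pp_012 s292_pp_012

theorem s294_pp_012 : ∃ t, chk3 f_pp_012 t 30 15 3 = true := ex3_b s293_pp_012 k115_pp_012

theorem s295_pp_012 : ∃ t, chk3 f_pp_012 t 123 121 5 = true := ex3_b k103_pp_012 k104_pp_012

theorem s296_pp_012 : ∃ t, chk3 f_pp_012 t 991 486 64 = true := ex3_a k96_pp_012 k97_pp_012

theorem s297_pp_012 : ∃ t, chk3 f_pp_012 t 991 486 32 = true := ex3_c s296_pp_012 k98_pp_012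

theorem s298_pp_012 : ∃ t, chk3 f_pp_012 t 991 243 32 = true := ex3_b s297_pp_012 k99_pp_012

theorem s299_pp_012 : ∃ t, chk3 f_pp_012 t 990 487 32 = true := ex3_b k94_pp_012 k95_pp_012

theorem s300_pp_012 : ∃ t, chk3 f_pp_012 t 990 243 32 = true := ex3_b k93_pp_012 s299_pp_012

theorem s301_pp_012 : ∃ t, chk3 f_pp_012 t 495 243 32 = true := ex3_a s300_pp_012 s298_pp_012

theorem s302_pp_012 : ∃ t, chk3 f_pp_012 t 495 121 32 = true := ex3_b k92_pp_012 s301_pp_012

theorem s303_pp_012 : ∃ t, chk3 f_pp_012 t 495 121 16 = true := ex3_c s302_pp_012 k100_pp_012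

theorem s304_pp_012 : ∃ t, chk3 f_pp_012 t 247 121 16 = true := ex3_a k91_pp_012 s303_pp_012

theorem s305_pp_012 : ∃ t, chk3 f_pp_012 t 247 121 8 = true := ex3_c s304_pp_012 k101_pp_012

theorem s306_pp_012 : ∃ t, chk3 f_pp_012 t 247 121 4 = true := ex3_c s305_pp_012 k102_pp_012

theorem s307_pp_012 : ∃ t, chk3 f_pp_012 t 123 121 4 = true := ex3_a k90_pp_012 s306_pp_012

theorem s308_pp_012 : ∃ t, chk3 f_pp_012 t 123 121 2 = true := ex3_c s307_pp_012 s295_pp_012

theorem s309_pp_012 : ∃ t, chk3 f_pp_012 t 495 241 16 = true := ex3_a k85_pp_012 k86_pp_012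

theorem s310_pp_012 : ∃ t, chk3 f_pp_012 t 495 241 8 = true := ex3_c s309_pp_012 k87_pp_012

theorem s311_pp_012 : ∃ t, chk3 f_pp_012 t 247 241 8 = true := ex3_a k84_pp_012 s310_pp_012

theorem s312_pp_012 : ∃ t, chk3 f_pp_012 t 247 241 4 = true := ex3_c s311_pp_012 k88_pp_012

theorem s313_pp_012 : ∃ t, chk3 f_pp_012 t 247 240 4 = true := ex3_a k82_pp_012 k83_pp_012

theorem s314_pp_012 : ∃ t, chk3 f_pp_012 t 247 120 4 = true := ex3_b s313_pp_012 s312_pp_012

theorem s315_pp_012 : ∃ t, chk3 f_pp_012 t 247 120 2 = true := ex3_c s314_pp_012 k89_pp_012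

theorem s316_pp_012 : ∃ t, chk3 f_pp_012 t 246 967 2 = true := ex3_b k80_pp_012 k81_pp_012

theorem s317_pp_012 : ∃ t, chk3 f_pp_012 t 246 483 2 = true := ex3_b k79_pp_012 s316_pp_012

theorem s318_pp_012 : ∃ t, chk3 f_pp_012 t 493 482 2 = true := ex3_a k77_pp_012 k78_pp_012

theorem s319_pp_012 : ∃ t, chk3 f_pp_012 t 246 482 2 = true := ex3_a k76_pp_012 s318_pp_012

theorem s320_pp_012 : ∃ t, chk3 f_pp_012 t 246 241 2 = true := ex3_b s319_pp_012 s317_pp_012

theorem s321_pp_012 : ∃ t, chk3 f_pp_012 t 246 240 2 = true := ex3_b k74_pp_012 k75_pp_012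

theorem s322_pp_012 : ∃ t, chk3 f_pp_012 t 246 120 2 = true := ex3_b s321_pp_012 s320_pp_012

theorem s323_pp_012 : ∃ t, chk3 f_pp_012 t 123 120 2 = true := ex3_a s322_pp_012 s315_pp_012

theorem s324_pp_012 : ∃ t, chk3 f_pp_012 t 123 60 2 = true := ex3_b s323_pp_012 s308_pp_012

theorem s325_pp_012 : ∃ t, chk3 f_pp_012 t 245 120 2 = true := ex3_a k71_pp_012 k72_pp_012

theorem s326_pp_012 : ∃ t, chk3 f_pp_012 t 122 120 2 = true := ex3_a k70_pp_012 s325_pp_012

theorem s327_pp_012 : ∃ t, chk3 f_pp_012 t 122 60 2 = true := ex3_b s326_pp_012 k73_pp_012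

theorem s328_pp_012 : ∃ t, chk3 f_pp_012 t 61 60 2 = true := ex3_a s327_pp_012 s324_pp_012

theorem s329_pp_012 : ∃ t, chk3 f_pp_012 t 61 30 2 = true := ex3_b s328_pp_012 k105_pp_012

theorem s330_pp_012 : ∃ t, chk3 f_pp_012 t 30 30 2 = true := ex3_a k69_pp_012 s329_pp_012

theorem s331_pp_012 : ∃ t, chk3 f_pp_012 t 30 15 2 = true := ex3_b s330_pp_012 k106_pp_012

theorem s332_pp_012 : ∃ t, chk3 f_pp_012 t 30 15 1 = true := ex3_c s331_pp_012 s294_pp_012

theorem s333_pp_012 : ∃ t, chk3 f_pp_012 t 991 119 16 = true := ex3_b k63_pp_012 k64_pp_012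

theorem s334_pp_012 : ∃ t, chk3 f_pp_012 t 991 119 8 = true := ex3_c s333_pp_012 k65_pp_012

theorem s335_pp_012 : ∃ t, chk3 f_pp_012 t 991 119 4 = true := ex3_c s334_pp_012 k66_pp_012

theorem s336_pp_012 : ∃ t, chk3 f_pp_012 t 991 119 2 = true := ex3_c s335_pp_012 k67_pp_012

theorem s337_pp_012 : ∃ t, chk3 f_pp_012 t 990 119 2 = true := ex3_c k61_pp_012 k62_pp_012

theorem s338_pp_012 : ∃ t, chk3 f_pp_012 t 495 119 2 = true := ex3_a s337_pp_012 s336_pp_012

theorem s339_pp_012 : ∃ t, chk3 f_pp_012 t 247 119 2 = true := ex3_a k60_pp_012 s338_pp_012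

theorem s340_pp_012 : ∃ t, chk3 f_pp_012 t 247 59 2 = true := ex3_b k59_pp_012 s339_pp_012

theorem s341_pp_012 : ∃ t, chk3 f_pp_012 t 247 29 2 = true := ex3_b k58_pp_012 s340_pp_012

theorem s342_pp_012 : ∃ t, chk3 f_pp_012 t 123 29 2 = true := ex3_a k57_pp_012 s341_pp_012

theorem s343_pp_012 : ∃ t, chk3 f_pp_012 t 123 29 1 = true := ex3_c s342_pp_012 k68_pp_012

theorem s344_pp_012 : ∃ t, chk3 f_pp_012 t 122 239 2 = true := ex3_b k54_pp_012 k55_pp_012

theorem s345_pp_012 : ∃ t, chk3 f_pp_012 t 122 119 2 = true := ex3_b k53_pp_012 s344_pp_012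

theorem s346_pp_012 : ∃ t, chk3 f_pp_012 t 122 59 2 = true := ex3_b k52_pp_012 s345_pp_012

theorem s347_pp_012 : ∃ t, chk3 f_pp_012 t 122 29 2 = true := ex3_b k51_pp_012 s346_pp_012

theorem s348_pp_012 : ∃ t, chk3 f_pp_012 t 122 29 1 = true := ex3_c s347_pp_012 k56_pp_012

theorem s349_pp_012 : ∃ t, chk3 f_pp_012 t 61 29 1 = true := ex3_a s348_pp_012 s343_pp_012

theorem s350_pp_012 : ∃ t, chk3 f_pp_012 t 61 14 1 = true := ex3_b k50_pp_012 s349_pp_012

theorem s351_pp_012 : ∃ t, chk3 f_pp_012 t 60 29 3 = true := ex3_b k48_pp_012 k49_pp_012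

theorem s352_pp_012 : ∃ t, chk3 f_pp_012 t 121 118 2 = true := ex3_a k45_pp_012 k46_pp_012

theorem s353_pp_012 : ∃ t, chk3 f_pp_012 t 121 59 2 = true := ex3_b s352_pp_012 k47_pp_012

theorem s354_pp_012 : ∃ t, chk3 f_pp_012 t 60 59 2 = true := ex3_a k44_pp_012 s353_pp_012

theorem s355_pp_012 : ∃ t, chk3 f_pp_012 t 241 117 2 = true := ex3_a k41_pp_012 k42_pp_012

theorem s356_pp_012 : ∃ t, chk3 f_pp_012 t 120 117 2 = true := ex3_a k40_pp_012 s355_pp_012

theorem s357_pp_012 : ∃ t, chk3 f_pp_012 t 240 116 2 = true := ex3_c k37_pp_012 k38_pp_012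

theorem s358_pp_012 : ∃ t, chk3 f_pp_012 t 120 116 2 = true := ex3_a s357_pp_012 k39_pp_012

theorem s359_pp_012 : ∃ t, chk3 f_pp_012 t 120 58 2 = true := ex3_b s358_pp_012 s356_pp_012

theorem s360_pp_012 : ∃ t, chk3 f_pp_012 t 60 58 2 = true := ex3_a s359_pp_012 k43_pp_012

theorem s361_pp_012 : ∃ t, chk3 f_pp_012 t 60 29 2 = true := ex3_b s360_pp_012 s354_pp_012

theorem s362_pp_012 : ∃ t, chk3 f_pp_012 t 60 29 1 = true := ex3_c s361_pp_012 s351_pp_012

theorem s363_pp_012 : ∃ t, chk3 f_pp_012 t 60 28 2 = true := ex3_b k34_pp_012 k35_pp_012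

theorem s364_pp_012 : ∃ t, chk3 f_pp_012 t 60 28 1 = true := ex3_c s363_pp_012 k36_pp_012

theorem s365_pp_012 : ∃ t, chk3 f_pp_012 t 60 14 1 = true := ex3_b s364_pp_012 s362_pp_012

theorem s366_pp_012 : ∃ t, chk3 f_pp_012 t 30 14 1 = true := ex3_a s365_pp_012 s350_pp_012

theorem s367_pp_012 : ∃ t, chk3 f_pp_012 t 30 7 1 = true := ex3_b s366_pp_012 s332_pp_012

theorem s368_pp_012 : ∃ t, chk3 f_pp_012 t 15 7 1 = true := ex3_a s367_pp_012 s286_pp_012

theorem s369_pp_012 : ∃ t, chk3 f_pp_012 t 63 13 3 = true := ex3_a k32_pp_012 k33_pp_012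

theorem s370_pp_012 : ∃ t, chk3 f_pp_012 t 63 6 3 = true := ex3_b k31_pp_012 s369_pp_012

theorem s371_pp_012 : ∃ t, chk3 f_pp_012 t 63 6 1 = true := ex3_c k30_pp_012 s370_pp_012

theorem s372_pp_012 : ∃ t, chk3 f_pp_012 t 125 6 2 = true := ex3_b k27_pp_012 k28_pp_012

theorem s373_pp_012 : ∃ t, chk3 f_pp_012 t 125 6 1 = true := ex3_c s372_pp_012 k29_pp_012

theorem s374_pp_012 : ∃ t, chk3 f_pp_012 t 124 6 1 = true := ex3_b k25_pp_012 k26_pp_012

theorem s375_pp_012 : ∃ t, chk3 f_pp_012 t 62 6 1 = true := ex3_a s374_pp_012 s373_pp_012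

theorem s376_pp_012 : ∃ t, chk3 f_pp_012 t 31 6 1 = true := ex3_a s375_pp_012 s371_pp_012

theorem s377_pp_012 : ∃ t, chk3 f_pp_012 t 30 6 1 = true := ex3_a k23_pp_012 k24_pp_012

theorem s378_pp_012 : ∃ t, chk3 f_pp_012 t 15 6 1 = true := ex3_a s377_pp_012 s376_pp_012

theorem s379_pp_012 : ∃ t, chk3 f_pp_012 t 15 3 1 = true := ex3_b s378_pp_012 s368_pp_012

theorem s380_pp_012 : ∃ t, chk3 f_pp_012 t 119 57 1 = true := ex3_b k19_pp_012 k20_pp_012

theorem s381_pp_012 : ∃ t, chk3 f_pp_012 t 119 28 1 = true := ex3_b k18_pp_012 s380_pp_012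

theorem s382_pp_012 : ∃ t, chk3 f_pp_012 t 59 28 1 = true := ex3_a k17_pp_012 s381_pp_012

theorem s383_pp_012 : ∃ t, chk3 f_pp_012 t 29 28 1 = true := ex3_a k16_pp_012 s382_pp_012

theorem s384_pp_012 : ∃ t, chk3 f_pp_012 t 29 14 1 = true := ex3_b s383_pp_012 k21_pp_012

theorem s385_pp_012 : ∃ t, chk3 f_pp_012 t 14 14 1 = true := ex3_a k15_pp_012 s384_pp_012

theorem s386_pp_012 : ∃ t, chk3 f_pp_012 t 14 7 1 = true := ex3_b s385_pp_012 k22_pp_012

theorem s387_pp_012 : ∃ t, chk3 f_pp_012 t 14 27 1 = true := ex3_b k13_pp_012 k14_pp_012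

theorem s388_pp_012 : ∃ t, chk3 f_pp_012 t 14 13 1 = true := ex3_b k12_pp_012 s387_pp_012

theorem s389_pp_012 : ∃ t, chk3 f_pp_012 t 14 6 1 = true := ex3_b k11_pp_012 s388_pp_012

theorem s390_pp_012 : ∃ t, chk3 f_pp_012 t 14 3 1 = true := ex3_b s389_pp_012 s386_pp_012

theorem s391_pp_012 : ∃ t, chk3 f_pp_012 t 7 3 1 = true := ex3_a s390_pp_012 s379_pp_012

theorem s392_pp_012 : ∃ t, chk3 f_pp_012 t 15 2 1 = true := ex3_a k9_pp_012 k10_pp_012

theorem s393_pp_012 : ∃ t, chk3 f_pp_012 t 14 5 1 = true := ex3_a k7_pp_012 k8_pp_012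

theorem s394_pp_012 : ∃ t, chk3 f_pp_012 t 14 2 1 = true := ex3_b k6_pp_012 s393_pp_012

theorem s395_pp_012 : ∃ t, chk3 f_pp_012 t 7 2 1 = true := ex3_a s394_pp_012 s392_pp_012

theorem s396_pp_012 : ∃ t, chk3 f_pp_012 t 7 1 1 = true := ex3_b s395_pp_012 s391_pp_012

theorem s397_pp_012 : ∃ t, chk3 f_pp_012 t 6 6 1 = true := ex3_b k3_pp_012 k4_pp_012

theorem s398_pp_012 : ∃ t, chk3 f_pp_012 t 6 3 1 = true := ex3_b s397_pp_012 k5_pp_012

theorem s399_pp_012 : ∃ t, chk3 f_pp_012 t 6 2 1 = true := ex3_a k1_pp_012 k2_pp_012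

theorem s400_pp_012 : ∃ t, chk3 f_pp_012 t 6 1 1 = true := ex3_b s399_pp_012 s398_pp_012

theorem s401_pp_012 : ∃ t, chk3 f_pp_012 t 3 1 1 = true := ex3_a s400_pp_012 s396_pp_012

theorem s402_pp_012 : ∃ t, chk3 f_pp_012 t 1 1 1 = true := ex3_a k0_pp_012 s401_pp_012

theorem c_pp_012 : CertNX 0 536870912 0 536870912 1046898278 26843546 3 false true true .pnp 0 1 2
    ndN0q0 ndN0q2 pcN1 cut_pp_012 Ext.none :=
  certNX2 (fam := false) (s1 := true) (s2 := true) (a := 0) (b := 1) (c := 2) (cn := .pnp) (n1 := ndN0q0) (n2 := ndN0q2) (pc := pcN1) (cut := cut_pp_012) (xt := Ext.none) (P1 := 0) (W1 := 536870912) (P2 := 0) (W2 := 536870912) (P3 := 1046898278) (W3 := 26843546) (N0 := 3)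
    rfl (fun _ => rfl) s402_pp_012

end Pool.Agent.Strip051.G.IE1.Tab.C.NB00

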