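import Pool.Agent.Strip051.G.IE1.Tab

/-! # Certificates N38 (generated) -/

set_option linter.all false
set_option maxRecDepth 100000

namespace Pool.Agent.Strip051.G.IE1.Tab.C.NB00

open Pool.Agent.Strip051.PB Pool.Agent.Strip051.PB.T
open Pool.Agent.Strip051.G.IE1.Tab

noncomputable def cut_pp_022 : Cut := Cut.of [[⟨0, 0, 0, 67108864⟩, ⟨1, 1, 0, 67108864⟩, ⟨2, 1, 0, 67108864⟩, ⟨3, 0, 0, 1233125376⟩]]

noncomputable def f_pp_022 : ℕ → ℕ → ℕ → ℕ → Bool := onCell 0 536870912 0 536870912 1046898278 26843546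
    (rowNX 3 0 false true true .pp 0 2 2 (qsf 0 536870912 0 536870912 2) ndN0q0 ndN0q2 pcN2 cut_pp_022 Ext.none)

def k0_pp_022 : ∃ t, chk3 f_pp_022 t 32 4 1 = true :=
  ⟨(b (c (a (b (l 15955424) (l 16003296)) (a (b (l 16149480) (l 16198408)) (a (b (l 16245928) (b (l 16277672) (l 16302184))) (b (b (l 16292304) (l 16301264)) (l 16289824))))) (a (c (l 15967832) (c (l 15880512) (a (b (l 15754696) (l 15720848)) (b (l 15995640) (l 16025464))))) (c (a (l 16111480) (b (a (l 16257592) (a (l 16303600) (l 16316160))) (a (l 16174992) (l 16217544)))) (a (c (b (l 16019192) (c (l 16204264) (l 16204448))) (l 16172824)) (b (a (l 16255552) (a (l 16309496) (l 16312744))) (a (b (l 16288840) (l 16209648)) (l 16309376))))))) (c (a (b (l 16086864) (b (l 16172184) (a (l 16175784) (a (l 16275152) (l 16319392))))) (b (a (b (l 16255800) (a (l 16275704) (l 16317344))) (b (l 16315832) (l 16315856))) (b (a (l 16255064) (l 16311520)) (l 16314120)))) (a (a (c (l 16030136) (c (l 16066608) (c (l 16023656) (a (l 15921792) (l 16012256)))))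 (c (b (l 16143920) (b (l 16231992) (l 16183944))) (b (c (l 16144720) (l 16029968)) (b (c (l 16234024) (l 16162040)) (c (a (l 16270144) (l 16321880)) (a (l 16243720) (l 16322432))))))) (c (b (a (b (l 16256432) (l 16148040)) (a (l 16331272) (l 16324016))) (a (b (l 16278336) (l 16325264)) (l 16319928))) (b (a (c (a (l 16168432) (b (l 16184056) (a (l 16256640) (l 16342392)))) (b (l 16256800) (l 16296088))) (b (l 16329472) (l 16329352))) (a (c (a (b (c (l 16324904) (l 16330048)) (l 16332592)) (l 16323720)) (b (l 16322072) (l 16327072))) (l 16320880))))))), by decide +kernel⟩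

def k1_pp_022 : ∃ t, chk3 f_pp_022 t 33 4 1 = true :=
  ⟨(c (b (c (l 16283704) (c (l 16298856) (b (l 16302744) (l 16308424)))) (c (l 16278632) (a (l 16298504) (b (l 16291040) (l 16278344))))) (b (c (c (a (l 16315216) (b (l 16300528) (l 16284304))) (a (b (l 16292632) (l 16257424)) (l 16279568))) (l 16289800)) (c (c (a (l 16311720) (a (l 16225704) (l 16226552))) (a (c (l 16194000) (l 16311032)) (l 16271768))) (l 16283840)))), by decide +kernel⟩

def k2_pp_022 : ∃ t, chk3 f_pp_022 t 17 4 1 = true :=
  ⟨(c (c (a (b (c (l 16275792) (a (l 16286456) (l 16298256))) (c (l 16263040) (a (l 16275416) (b (l 16270968) (l 16275464))))) (b (c (a (a (l 16307360) (l 16265808)) (b (l 16113936) (l 16111552))) (a (a (a (l 16236064) (l 16246984)) (l 16219744)) (l 16191000))) (c (a (a (l 16289992) (l 16225656)) (b (l 16079848) (l 16038824))) (a (b (a (l 16219832) (l 16210032)) (l 16080968)) (l 16168832))))) (a (b (c (a (l 16305496) (c (l 16238632) (l 16246952))) (a (b (l 16286496) (l 16268368)) (l 16234248))) (c (a (l 16294248)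 (a (b (l 16281048) (l 16222896)) (l 16225408))) (a (a (b (l 16299200) (l 16284824)) (l 16230280)) (l 16218912)))) (b (l 16198664) (l 16177832)))) (b (c (l 16217968) (l 16212752)) (c (l 16158360) (l 16194552)))), by decide +kernel⟩

def k3_pp_022 : ∃ t, chk3 f_pp_022 t 16 5 1 = true :=
  ⟨(b (c (a (a (b (b (a (l 16254112) (l 16324120)) (a (a (l 16303336) (l 16330800)) (l 16322808))) (l 16289336)) (l 16242088)) (c (l 16193376) (a (l 16256232) (b (l 16192328) (l 16136432))))) (a (a (b (c (b (a (l 16247880) (l 16320232)) (a (a (l 16298416) (l 16326664)) (l 16318720))) (a (c (b (l 16244840) (l 16210128)) (b (c (l 16245072) (a (l 16208136) (l 16276072))) (a (c (l 16294728) (b (l 16277696) (l 16314960))) (c (l 16326384) (l 16322232))))) (c (b (a (l 16321760) (l 16331568)) (l 16321816)) (a (b (c (b (l 16319200) (l 16331960)) (l 16322616)) (l 16319760)) (l 16326104))))) (c (l 16305512) (c (a (l 16313736) (l 16297928)) (a (a (a (l 16319544) (l 16315208)) (l 16242928)) (l 16289256))))) (c (c (l 16284152) (l 16271784))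 (c (a (c (l 16302376) (l 16302912)) (l 16246672)) (l 16286824)))) (c (a (c (b (l 16285304) (l 16252072)) (c (a (l 16289128) (l 16267464)) (l 16204168))) (c (b (a (l 16280640) (l 16237880)) (a (l 16203672) (l 16201688))) (l 16223360))) (l 16236752)))) (c (c (b (l 16150160) (l 16070712)) (a (l 16154744) (c (l 16070920) (a (l 16167848) (a (l 16164104) (l 16098864)))))) (a (c (a (l 16235568) (b (l 16165800) (l 16084744))) (a (c (l 16151384) (a (c (l 16243680) (b (l 16207456) (l 16148824))) (b (l 16161376) (l 16080552)))) (c (a (c (l 16212336) (l 16128416)) (l 16048872)) (l 16194024)))) (c (a (c (b (l 16205256) (l 16142920)) (c (a (l 16195080) (l 16107992)) (l 16024376))) (c (b (c (l 16146744) (l 16175472)) (c (l 16061096) (l 16110408))) (l 16122776))) (l 16136792))))), by decide +kernel⟩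

def k4_pp_022 : ∃ t, chk3 f_pp_022 t 17 5 1 = true :=
  ⟨(c (a (a (c (b (l 16216168) (b (l 16148704) (l 16084240))) (b (c (l 16159552) (b (a (l 16217960) (l 16217840)) (l 16059200))) (c (b (l 16174696) (l 16109064)) (a (b (l 16130624) (l 16064696)) (l 15926976))))) (c (b (c (l 16216216) (l 16103248)) (c (l 16035080) (b (l 16157848) (a (l 16110400) (l 16098872))))) (b (c (b (l 16074528) (c (l 16149384) (l 16157088))) (l 16163128)) (a (c (c (l 16025216) (l 15961368)) (l 16067400)) (b (l 16089856) (l 15989888)))))) (b (c (a (c (a (l 16233352) (l 16125120)) (b (l 16010096) (c (l 16124928) (l 16127632)))) (c (b (a (l 16170944) (l 16136208)) (a (l 16070952) (l 16108952))) (l 16116120))) (b (l 16138336) (l 16103344))) (c (a (c (b (a (l 16163680) (l 16146456)) (l 16016312)) (b (a (l 15977760) (l 16077544)) (a (l 15928056) (l 16031248)))) (c (b (c (l 16099296) (l 16077528)) (c (l 15965160) (l 16026944))) (l 16039960))) (b (l 16062344) (l 16009864))))) (b (a (c (l 16174736) (l 16168128)) (b (l 16127160) (l 16090808)))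 (b (a (l 16098368) (l 16048224)) (a (c (l 16039136) (l 16029232)) (l 15993792))))), by decide +kernel⟩

def k5_pp_022 : ∃ t, chk3 f_pp_022 t 9 2 1 = true :=
  ⟨(b (a (a (b (c (a (c (l 16168520) (l 16161928)) (b (l 16182776) (l 16182408))) (b (l 16162144) (l 16118376))) (c (a (b (l 16150840) (l 16134552)) (b (l 16179200) (l 16173360))) (b (a (l 16136656) (l 16165496)) (a (l 16119448) (l 16159184))))) (b (c (b (l 16348312) (l 16340048)) (l 16212808)) (c (b (l 16329432) (l 16312752)) (b (l 16343608) (l 16305016))))) (b (a (c (l 16111976) (l 16123288)) (c (b (l 16055560) (l 16110952)) (b (l 16035976) (l 16093320)))) (c (a (b (l 16361776) (l 16396856)) (b (l 16174376) (l 16250600))) (a (b (l 16333248) (l 16370208)) (b (l 16158936) (l 16237768)))))) (a (b (a (c (b (a (l 16117088) (l 16159560)) (a (l 16095824) (l 16131760))) (b (l 16123264) (l 16097000))) (c (b (l 16328056) (l 16287248)) (b (l 16318872) (l 16275976)))) (c (a (b (a (l 16058536) (l 16085384)) (a (l 15997744) (l 16015424))) (b (l 16227736) (l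 16144528))) (a (b (l 16052992) (l 15900568)) (b (l 16213552) (l 16126480))))) (b (b (c (a (l 16470592) (l 16323632)) (a (l 16467368) (l 16314008))) (c (a (l 16425344) (l 16377808)) (a (l 16421080) (a (l 16475648) (l 16436568))))) (c (a (b (l 16349208) (l 16228312)) (b (l 16419640) (a (l 16388656) (l 16449784)))) (a (b (l 16341272) (l 16257688)) (b (l 16437952) (a (l 16421960) (l 16463296)))))))), by decide +kernel⟩

def k6_pp_022 : ∃ t, chk3 f_pp_022 t 5 2 1 = true :=
  ⟨(a (a (b (b (c (b (a (l 15899208) (l 15752120)) (a (l 15975480) (l 15849712))) (b (l 15754792) (l 15781800))) (c (b (a (l 16059912) (l 15955608)) (a (l 16157352) (l 16074736))) (b (l 71972284391) (a (l 16140496) (l 16054320))))) (a (b (c (b (l 16272880) (l 16390896)) (b (l 16259992) (l 16403728))) (c (b (l 16496160) (l 375305548151)) (b (l 16493712) (l 314639119127)))) (b (c (b (l 16212256) (l 16310696)) (b (l 16196576) (l 16363456))) (l 1)))) (b (b (l 1) (l 1)) (l 1))) (l 1)), by decide +kernel⟩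

def k7_pp_022 : ∃ t, chk3 f_pp_022 t 8 12 1 = true :=
  ⟨(a (c (a (b (l 16118176) (l 16024720)) (c (b (l 16034512) (l 15880488)) (a (b (l 16054272) (l 15957848)) (c (b (l 16030408) (l 15939000)) (a (l 15901200) (b (l 16048088) (l 15957264))))))) (a (c (c (l 15979456) (a (l 16082312) (b (l 16093728) (l 15995088)))) (a (c (b (l 16129632) (l 16032728)) (c (a (l 16089944) (b (l 16114960) (l 16016512))) (a (b (l 16051072) (a (l 16043776) (l 16029168))) (l 16065504)))) (c (c (a (l 16054744) (l 15870752)) (b (l 16067856) (l 15967816))) (l 16032736)))) (c (a (c (b (l 16062880) (l 15922864)) (a (c (l 15992288) (a (l 15970008) (l 16008608))) (b (l 16054496) (l 15871304)))) (c (b (a (l 15966816) (l 15899200)) (c (a (l 15966152) (l 15935304)) (l 15766800))) (b (l 16007160) (l 15912600)))) (b (l 16020888) (l 15923392))))) (c (a (a (c (b (l 16011464) (l 15923272)) (c (b (a (l 16042320) (l 16037320)) (a (l 15954176) (l 15947808))) (b (a (c (l 16041328) (l 16006040)) (l 15988160)) (a (c (l 15952432) (l 15916632))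 (l 15897616))))) (c (c (b (l 16021624) (l 15927424)) (b (a (l 16044024) (l 16033944)) (a (l 15951288) (l 15831296)))) (c (b (c (a (l 16030488) (l 15979840)) (l 15976552)) (a (c (l 15936968) (l 15892952)) (l 15874088))) (l 15894576)))) (c (b (c (a (a (l 16047648) (l 16028936)) (c (a (l 16008368) (l 15950896)) (l 15947712))) (a (c (a (l 16021024) (l 15965400)) (l 15962176)) (l 15932424))) (c (a (a (l 15946016) (c (l 15946280) (l 15908280))) (c (a (l 15897360) (l 15793192)) (a (l 15846512) (l 15815608)))) (a (a (c (l 15918536) (l 15869560)) (l 15725040)) (l 15817464)))) (b (l 15933440) (l 15821480)))) (b (a (c (l 15965416) (l 15953792)) (l 15914688)) (c (a (l 15869000) (l 15806616)) (l 15802472))))), by decide +kernel⟩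

def k8_pp_022 : ∃ t, chk3 f_pp_022 t 9 12 1 = true :=
  ⟨(a (c (a (b (a (l 15907880) (l 15916352)) (a (c (l 15790832) (l 15775136)) (b (l 15819808) (l 15742768)))) (b (b (l 16063736) (l 15999296)) (b (l 15925664) (l 15842000)))) (b (a (a (l 15881480) (l 15889656)) (l 15883288)) (a (a (l 15750968) (b (l 15788936) (l 15708656))) (b (l 15898048) (l 15810904))))) (b (c (a (b (l 16218832) (l 16146008)) (b (l 154651312263) (a (l 16249584) (l 1)))) (a (b (l 16202112) (l 16126136)) (c (l 310343673559) (l 16204056)))) (a (b (c (l 16043024) (l 16040672)) (c (l 149281821543) (l 15944872))) (l 1)))), by decide +kernel⟩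

def k9_pp_022 : ∃ t, chk3 f_pp_022 t 16 26 1 = true :=
  ⟨(c (a (b (l 15964648) (c (l 15993912) (l 15983168))) (c (b (a (l 15896968) (l 15866384)) (a (l 15918640) (l 15882784))) (a (b (l 15897880) (l 15919760)) (c (b (l 15877960) (l 15894440)) (a (l 15906368) (b (l 15894568) (l 15888784))))))) (a (c (a (l 15986488) (c (l 15940192) (b (l 15931808) (l 15956280)))) (a (c (b (l 15969808) (l 15994016)) (a (c (l 15990088) (a (b (l 15980768) (l 16005360)) (l 15977376))) (c (b (l 15952488) (l 15955568)) (l 15963208)))) (c (a (c (l 15953416) (b (l 15939192) (l 15963888))) (b (l 15920224) (l 15945200))) (l 15930256)))) (c (a (c (b (l 15861840) (c (l 15929824) (l 15927264))) (c (a (l 15934584) (b (l 15898240) (l 15919016))) (b (l 15875968) (l 15877168)))) (c (c (a (b (l 15905624) (l 15923552)) (b (l 15872064) (l 15887280))) (a (b (l 15885376) (l 15903336)) (l 15853168))) (l 15858232))) (b (l 15858768) (l 15878256))))), by decide +kernel⟩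

def k10_pp_022 : ∃ t, chk3 f_pp_022 t 17 26 1 = true :=
  ⟨(c (a (a (c (b (l 15856552) (c (l 15834624) (l 15874744))) (c (c (b (l 15885472) (l 15896680)) (a (l 15904024) (b (l 15875064) (l 15884976)))) (a (c (b (l 15885968) (l 15898488)) (b (l 15849784) (l 15862312))) (c (b (l 15834344) (l 15844248)) (l 15819544))))) (c (c (b (l 15853496) (l 15859664)) (b (a (l 15878424) (c (l 15879104) (l 15851248))) (a (l 15864840) (c (a (l 15889072) (l 15884000)) (l 15856112))))) (c (a (c (b (l 15863480) (l 15870840)) (b (l 15819056) (l 15826400))) (c (b (l 15803928) (a (l 15819536) (l 15792600))) (l 15786648))) (l 15769944)))) (c (c (a (b (a (c (l 15865840) (l 15829640)) (c (b (l 15864632) (l 15861872)) (l 15824912))) (a (c (l 15868352) (a (l 15860968) (c (l 15860504) (l 15869456)))) (c (a (l 15852880) (c (l 15850736) (l 15854320))) (l 15824968)))) (c (a (b (l 15810856) (l 15808592)) (b (b (l 15747520) (l 15742392)) (c (a (l 15762488) (b (l 15708824) (l 15705976))) (a (l 15715776) (l 15718440))))) (b (a (b (l 15761408)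 (l 15757408)) (l 15725064)) (a (c (a (l 15779352) (l 15724112)) (a (l 15732504) (l 15735032))) (l 15720384))))) (a (c (a (b (l 15838384) (l 15840816)) (b (b (l 15775456) (l 15772616)) (c (l 15780504) (l 15762472)))) (b (a (l 15747016) (l 15754080)) (a (a (l 15802048) (l 15775304)) (l 15754024)))) (b (l 15727968) (l 15724360)))) (b (l 15734192) (l 15690856)))) (c (b (a (l 15795216) (l 15717432)) (a (l 15803792) (l 15715808))) (b (l 15740072) (l 15743336)))), by decide +kernel⟩

def k11_pp_022 : ∃ t, chk3 f_pp_022 t 32 27 2 = true :=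
  ⟨(b (b (l 15944152) (b (l 15952272) (a (c (c (b (l 16054720) (l 16052352)) (l 16005432)) (c (l 16042104) (l 16036800))) (c (a (c (l 16008992) (l 16003296)) (b (l 15979136) (a (l 15980888) (a (l 15969984) (c (a (l 15967664) (l 15943112)) (l 15938744)))))) (a (l 15994624) (b (l 15968472) (a (l 15969128) (l 15955736)))))))) (a (c (b (c (l 15984024) (l 16020432)) (c (l 15953056) (l 15989120))) (b (c (l 16014864) (l 16009264)) (c (l 15983216) (l 15977264)))) (b (a (c (c (b (l 15994280) (l 15981552)) (l 15981520)) (c (l 15975544) (l 15969528))) (c (b (a (c (b (l 15977368) (l 15950704)) (l 15968336)) (a (b (a (l 15965888) (l 15941520)) (c (b (l 15942368) (l 15939816)) (l 15934856))) (b (c (c (l 15940944) (l 15937856)) (l 15933184)) (l 15931112)))) (a (a (b (l 15945696) (c (a (l 15945696) (l 15942680)) (l 15937968))) (b (c (a (l 15944264) (l 15941064)) (l 15936448)) (l 15934768))) (c (l 15930424) (l 15945208)))) (a (b (l 15959384) (a (b (l 15954336) (l 15949584)) (l 15945792))) (b (a (b (l 15952712) (l 15947336))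 (l 15943928)) (l 15937304))))) (a (c (b (a (l 15952992) (a (b (l 15968776) (c (a (l 15948328) (l 15945712)) (l 15961760))) (b (c (a (l 15947048) (l 15944224)) (l 15960384)) (l 15938216)))) (a (b (a (l 15970544) (c (a (l 15949536) (l 15947128)) (l 15942104))) (a (c (a (l 15950680) (l 15948496)) (l 15943360)) (l 15941496))) (c (l 15938072) (l 15952992)))) (b (a (l 15961752) (b (a (l 15956456) (l 15951032)) (l 15949496))) (a (b (l 15955920) (l 15931432)) (l 15943488)))) (c (c (c (l 15946704) (l 15944144)) (l 15939536)) (l 15931184)))))), by decide +kernel⟩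

def k12_pp_022 : ∃ t, chk3 f_pp_022 t 33 27 2 = true :=
  ⟨(a (b (b (c (l 15932424) (l 15933648)) (a (b (l 15947416) (c (a (b (a (b (l 15940896) (c (l 15941928) (l 15935744))) (a (b (l 15935480) (l 15954168)) (l 15930856))) (a (c (b (l 15939064) (l 15957272)) (l 15952408)) (l 15927216))) (c (c (l 15923952) (l 15941792)) (l 15937192))) (a (b (a (l 15951896) (l 15946096)) (l 15943648)) (l 15935824)))) (c (c (b (c (l 15904808) (l 15923128)) (c (l 15922992) (l 15920424))) (b (l 15921840) (l 15919248))) (c (l 15921296) (l 15928280))))) (c (c (b (c (a (l 15937376) (l 15910840)) (a (l 15934472) (l 15908656))) (c (l 15911632) (a (l 15921032) (l 15898656)))) (b (a (l 15929840) (c (l 15907480) (l 15907304))) (a (l 15895888) (c (l 15898176) (l 15898480))))) (c (b (l 15917600) (l 15906752)) (a (l 15918896) (l 15909936))))) (c (b (b (l 15892576) (c (b (b (l 15893040) (c (l 15871800) (l 15893232))) (c (l 15867808) (l 15868448))) (b (a (l 15902872) (c (l 15863816) (l 15886432))) (c (l 15869408) (l 15891832))))) (c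 (b (a (l 15868232) (l 15852856)) (a (l 15861320) (l 15849368))) (b (c (a (l 15869912) (l 15875944)) (a (l 15892072) (l 15857176))) (a (c (l 15884968) (l 15865912)) (l 15854048))))) (b (c (b (l 15904248) (b (l 15885464) (l 15903464))) (c (b (l 15919984) (l 15900112)) (a (l 15891056) (b (l 15920176) (a (l 15935672) (l 15914632)))))) (c (c (a (b (l 15893040) (l 15867392)) (b (l 15886208) (l 15885128))) (a (l 15893696) (l 15899752))) (a (l 15913768) (c (l 15918488) (a (l 15925992) (l 15907672)))))))), by decide +kernel⟩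

def k13_pp_022 : ∃ t, chk3 f_pp_022 t 16 27 6 = true :=
  ⟨(a (b (b (a (l 16018536) (c (l 15969768) (l 15974352))) (b (a (l 16027728) (c (l 15977056) (l 15981664))) (a (c (l 16031464) (l 16026424)) (a (l 15989536) (c (l 15964336) (a (l 15978496) (c (l 15968952) (l 15978808)))))))) (a (c (l 15901640) (l 15938048)) (a (b (c (l 15964600) (l 15965808)) (a (b (l 15951552) (a (l 15945224) (l 15941552))) (b (c (l 15901560) (l 15945656)) (l 15938344)))) (b (a (b (l 15964664) (c (l 15944312) (l 15954048))) (b (c (l 15946768) (c (l 15956704) (a (l 15971416) (l 15966048)))) (c (l 15936752) (l 15943960)))) (c (l 15928776) (l 15933712)))))) (a (b (b (c (c (l 15943776) (a (l 15953000) (l 15947976))) (c (a (l 15960872) (l 15931960)) (l 15849248))) (c (a (b (l 15954696) (a (a (l 15953056) (l 15950656)) (l 15950032))) (c (l 15945296) (b (l 15952184) (l 15949296)))) (a (b (c (l 15966568) (l 15955088)) (a (c (l 15971744) (c (l 15970912) (l 15952408))) (c (l 15963016) (l 15937048)))) (c (a (l 15882656) (l 15915632)) (l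 15912848))))) (c (c (l 15926032) (a (l 15933512) (l 15910856))) (c (a (l 15941224) (c (l 15899896) (l 15902144))) (a (c (l 15934696) (l 15919552)) (l 15893888))))) (b (c (a (c (b (l 15934400) (a (l 15948472) (l 15931616))) (b (l 15914200) (a (c (l 15934152) (l 15908464)) (l 15894072)))) (c (b (c (l 15900624) (l 15877336)) (c (a (l 15914000) (l 15876704)) (l 15878192))) (l 15867632))) (b (l 15875904) (l 15876880))) (c (c (a (a (l 15933480) (l 15919192)) (c (a (l 15904248) (l 15869680)) (l 15869800))) (a (c (a (l 15919064) (l 15885240)) (l 15885560)) (l 15861496))) (l 15865752))))), by decide +kernel⟩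

def k14_pp_022 : ∃ t, chk3 f_pp_022 t 16 27 7 = true :=
  ⟨(a (b (a (c (b (l 16014008) (a (l 16033856) (b (l 16010096) (l 16011216)))) (a (c (b (l 16022736) (l 16031856)) (b (a (l 16025512) (l 16009952)) (a (c (l 16037032) (l 16035056)) (l 16019120)))) (c (b (l 15975616) (a (c (l 16016048) (l 16015384)) (l 16004088))) (l 15996712)))) (c (a (c (b (l 15984560) (l 15990744)) (b (l 15983072) (a (l 15956992) (l 15985120)))) (b (l 15962488) (c (a (l 15939752) (a (l 15969472) (l 15952824))) (l 15957360)))) (b (l 15960280) (b (l 15967640) (l 15966616))))) (a (c (a (l 15985904) (c (l 15966432) (l 15968776))) (a (c (l 15983368) (a (c (l 15986392) (l 15984280)) (l 15950824))) (c (a (c (l 15972496) (l 15971704)) (l 15964248)) (l 15961592)))) (a (c (b (c (l 15969344) (a (l 15976272) (l 15964408))) (c (a (b (l 15955600) (l 15947440)) (b (a (l 15956064) (l 15957384)) (l 15940736))) (a (b (l 15958320) (a (l 15953088) (l 15949152))) (b (a (l 15951736) (l 15940120)) (l 15940656))))) (b (l 15956960) (b (l 15939968) (l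 15931624)))) (b (c (a (c (b (l 15968904) (a (l 15962504) (l 15955008))) (l 15903072)) (b (a (c (l 15936400) (l 15942208)) (l 15938672)) (l 15941184))) (b (a (l 15946384) (l 15934376)) (l 15929536))) (c (c (l 15914752) (l 15921568)) (l 15916648)))))) (b (b (l 15890224) (a (a (b (l 15932400) (a (l 15936840) (l 15923328))) (l 15904488)) (l 15866280))) (c (a (l 15899200) (l 15858536)) (l 15871504)))), by decide +kernel⟩

def k15_pp_022 : ∃ t, chk3 f_pp_022 t 34 27 4 = true :=
  ⟨(b (c (a (b (l 15840552) (b (a (l 15845288) (c (l 15829168) (l 15837304))) (c (l 15834448) (l 15840008)))) (b (l 15840864) (c (b (b (l 15831584) (l 15831216)) (l 15831128)) (l 15849528)))) (a (b (l 15859680) (a (b (c (l 15850136) (l 15882528)) (l 15875528)) (l 15882104))) (b (a (c (l 15883296) (l 15875352)) (c (a (l 15890728) (c (l 15890600) (l 15884008))) (a (l 15877472) (l 15840336)))) (a (c (l 15862336) (a (l 15898992) (c (l 15899560) (l 15898608)))) (c (a (l 15869984) (c (l 15870080) (l 15884576))) (c (a (l 15891712) (l 15858104))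 (l 15845880))))))) (c (c (a (b (c (l 15830520) (l 15832040)) (l 15832864)) (b (l 15833248) (a (l 15832768) (l 15849400)))) (a (a (l 15838368) (b (l 15834080) (l 15837624))) (b (l 15851456) (l 15880912)))) (a (a (c (l 15843856) (l 15856288)) (l 15881640)) (a (c (l 15887192) (a (l 15902632) (c (l 15905432) (l 15904952)))) (c (a (l 15898584) (c (l 15879976) (b (l 15889928) (l 15901672)))) (c (a (l 15900072) (l 15868968)) (l 15855928))))))), by decide +kernel⟩

def k16_pp_022 : ∃ t, chk3 f_pp_022 t 34 27 5 = true :=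
  ⟨(a (c (c (b (b (l 15902560) (a (b (l 15900112) (l 15897848)) (a (l 15907256) (a (l 15889896) (l 15888168))))) (c (l 15898376) (a (l 15900640) (l 15912112)))) (b (b (a (l 15916648) (l 15889872)) (a (l 15917144) (a (c (l 15917656) (l 15904536)) (c (l 15895776) (l 15862888))))) (a (b (l 15913488) (l 15916496)) (a (c (l 15918128) (b (l 15903536) (l 15909168))) (l 15861176))))) (b (a (c (b (l 15905320) (a (l 15922216) (l 15897096))) (b (l 15869144) (a (l 15881176) (l 15852536)))) (b (c (l 15849136) (l 15828880)) (c (a (l 15860920) (l 15790728)) (l 15829256)))) (c (a (a (c (l 15924592) (l 15917072)) (b (l 15894440) (l 15899000))) (c (a (l 15874048) (b (l 15837264) (l 15844920))) (a (b (l 15845416) (l 15851944)) (l 15830360)))) (a (c (l 15873320) (l 15854848)) (l 15832176))))) (c (b (b (a (c (l 15810936) (a (l 15840704) (l 15812624))) (c (a (l 15821128) (l 15793256)) (l 15789672))) (c (a (a (c (l 15905240) (l 15886672)) (l 15860232)) (c (a (l 15833504) (l 15797856)) (a (l 15807288) (l 15787872)))) (a (c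 (a (l 15852984) (l 15816872)) (a (b (l 15826176) (l 15826096)) (l 15806856))) (l 15790736)))) (c (a (a (c (l 15909600) (l 15891512)) (l 15867304)) (c (a (l 15842840) (l 15809712)) (a (l 15817112) (l 15800216)))) (a (c (a (l 15858304) (l 15824680)) (a (l 15832408) (l 15815152))) (l 15802512)))) (b (b (l 15795448) (c (a (l 15809808) (l 15786976)) (l 15794552))) (b (c (l 15803504) (l 15800136)) (c (l 15815416) (l 15812864)))))), by decide +kernel⟩

def k17_pp_022 : ∃ t, chk3 f_pp_022 t 70 54 4 = true :=
  ⟨(c (c (a (b (l 15867792) (l 15847528)) (b (a (c (l 15870472) (b (l 15854552) (l 15852984))) (c (b (l 15848768) (a (l 15872472) (l 15845632))) (l 15851160))) (a (c (l 15872136) (a (l 15879416) (l 15854736))) (a (c (b (l 15873368) (c (l 15875888) (c (l 15879208) (l 15879816)))) (l 15842752)) (c (b (l 15846872) (a (l 15854776) (l 15850056))) (l 15822968)))))) (a (b (a (l 15860816) (c (l 15859456) (l 15868392))) (a (l 15861480) (c (l 15860544) (l 15869608)))) (a (b (c (l 15859848) (l 15828112)) (l 15824688))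 (b (l 15801576) (l 15804152))))) (c (a (b (l 15777256) (c (a (l 15877200) (l 15839336)) (l 15827080))) (b (a (c (l 15794200) (b (l 15748136) (l 15767504))) (c (b (l 15738904) (l 15736960)) (l 15748608))) (c (a (l 15796440) (l 15761480)) (a (l 15770544) (l 15751560))))) (a (b (c (l 15776056) (l 15778904)) (c (a (l 15814640) (l 15779480)) (a (l 15788584) (l 15769520)))) (b (l 15751152) (l 15754336))))), by decide +kernel⟩

def k18_pp_022 : ∃ t, chk3 f_pp_022 t 71 54 4 = true :=
  ⟨(c (a (c (b (b (l 15805512) (b (l 15803952) (a (l 15824384) (l 15781632)))) (a (a (b (l 15837128) (l 15842088)) (a (l 15823944) (l 15813504))) (l 15787520))) (b (a (c (l 15775240) (a (l 15733888) (l 15720240))) (c (b (l 15720632) (b (l 15718944) (c (c (l 15723536) (l 15717464)) (l 15712168)))) (b (l 15731528) (l 15729160)))) (a (c (l 15778824) (b (l 15729576) (a (l 15740056) (l 15727216)))) (c (a (c (l 15734888) (b (l 15719160) (l 15746248))) (c (l 15718064) (l 15734040))) (l 15714016))))) (b (c (b (c (a (l 15758336) (a (l 15708024)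 (c (l 15717448) (l 15712416)))) (a (l 15711592) (l 15713536))) (c (a (l 15755904) (a (b (l 15705984) (l 15705512)) (c (b (a (l 15718016) (l 15711264)) (a (l 15717696) (l 15711064))) (l 15709984)))) (c (a (b (l 15712872) (l 15712160)) (l 15711672)) (b (l 15697160) (b (l 15696168) (l 15696936)))))) (b (l 15715792) (a (b (l 15719496) (c (l 15719880) (l 15717696))) (l 15707784)))) (c (c (a (l 15762976) (c (b (l 15708072) (l 15716424)) (c (l 15703872) (b (l 15718008) (l 15726400))))) (a (c (l 15719448) (l 15710512)) (l 15719824))) (l 15700392)))) (b (b (l 15720424) (b (l 15718600) (a (l 15729168) (c (l 15687944) (l 15683512))))) (a (c (b (l 15713208) (l 15719288)) (l 15712056)) (c (b (l 15692344) (l 15721424)) (b (l 15688056) (l 15696280)))))), by decide +kernel⟩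

def k19_pp_022 : ∃ t, chk3 f_pp_022 t 70 55 4 = true :=
  ⟨(c (a (c (b (b (l 15872640) (l 15856664)) (b (a (l 15858896) (l 15867736)) (l 15872096))) (b (a (l 15867720) (c (l 15868336) (l 15877720))) (a (c (l 15876752) (l 15884592)) (b (c (a (l 15900232) (l 15879616)) (l 15888016)) (c (l 15887872) (l 15897256)))))) (c (b (a (c (l 15860456) (a (l 15867376) (b (l 15861800) (l 15868672)))) (c (a (l 15865408) (l 15861264)) (b (l 15861744) (l 15869584)))) (a (c (l 15898624) (l 15882040)) (c (c (l 15884232) (l 15881384)) (l 15885024)))) (b (a (c (a (l 15880864) (l 15863272)) (l 15840088)) (b (l 15812576) (l 15820368))) (a (c (l 15888576) (l 15857208)) (l 15835888))))) (a (c (a (c (b (l 15883936) (l 15896960)) (l 15861528)) (b (l 15831024) (l 15846048))) (c (a (l 15828024) (b (l 15788576) (l 15803896))) (a (l 15760520) (l 15785920)))) (c (b (a (c (l 15806592) (l 15781016)) (c (a (c (l 15763360) (l 15750544)) (b (l 15741520) (l 15749584))) (l 15743152))) (a (c (l 15823728) (a (c (l 15787192) (l 15774432)) (b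 (l 15764856) (l 15775784)))) (c (c (l 15796544) (l 15766704)) (l 15783704)))) (b (l 15745128) (b (l 15758304) (l 15769464)))))), by decide +kernel⟩

def k20_pp_022 : ∃ t, chk3 f_pp_022 t 71 55 8 = true :=
  ⟨(a (c (b (l 15802360) (a (l 15864768) (b (l 15820928) (l 15834784)))) (a (c (l 15802896) (b (a (b (l 15746848) (l 15755632)) (l 15739040)) (c (l 15792424) (l 15762608)))) (c (b (c (l 15743544) (l 15734656)) (c (l 15788480) (l 15758688))) (l 15741528)))) (b (c (a (c (l 15781272) (c (l 15737840) (l 15728968))) (c (c (b (l 15726584) (b (l 15735424) (a (l 15769760) (c (a (l 15759704) (b (a (l 15751528) (l 15748792)) (l 15754120))) (a (b (l 15751616) (a (l 15756072) (l 15753336))) (l 15749816)))))) (a (l 15726640) (b (l 15734104) (b (l 15743152) (a (l 15750608) (b (l 15747264) (l 15750840))))))) (c (l 15719872) (b (l 15734032) (l 15746152))))) (l 15720056)) (c (a (b (a (l 15794224) (c (l 15769632) (c (l 15748520) (l 15764600)))) (c (a (b (l 15799152) (l 15807296)) (l 15785440)) (a (b (l 15768432) (a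 (l 15779048) (a (l 15773552) (l 15770688)))) (a (c (l 15766016) (b (l 15776536) (l 15785040))) (l 15760104))))) (a (b (c (a (b (l 15752792) (l 15760312)) (c (l 15754920) (b (c (b (l 15759608) (a (l 15764264) (l 15761656))) (l 15758984)) (l 15768360)))) (b (l 15758520) (a (b (l 15764728) (l 15768640)) (l 15765480)))) (c (l 15770576) (l 15778968))) (c (c (a (l 15755552) (l 15750640)) (l 15748776)) (a (c (l 15748232) (l 15747192)) (l 15746688))))) (a (a (a (l 15752088) (c (l 15751672) (l 15749792))) (b (l 15762232) (a (l 15757376) (l 15756328)))) (b (a (b (l 15755624) (a (l 15763776) (c (l 15784408) (l 15761448)))) (c (b (a (l 15754328) (l 15752936)) (l 15761712)) (l 15734632))) (l 15754040)))))), by decide +kernel⟩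

def k21_pp_022 : ∃ t, chk3 f_pp_022 t 71 55 9 = true :=
  ⟨(b (a (c (c (l 15732544) (l 15730664)) (b (l 15723288) (l 15732928))) (l 15714048)) (a (l 15752944) (b (c (a (l 15759968) (a (l 15755464) (l 15731656))) (l 15732192)) (a (a (l 15774600) (l 15751200)) (c (c (l 15750944) (l 15748928)) (b (l 15741464) (l 15750512))))))), by decide +kernel⟩

def k22_pp_022 : ∃ t, chk3 f_pp_022 t 35 27 5 = true :=
  ⟨(b (b (b (l 15730216) (a (a (l 15763728) (l 15739920)) (c (l 15709432) (l 15700632)))) (a (c (l 15759440) (c (l 15753656) (l 15749760))) (c (a (l 15727056) (c (l 15687784) (l 15704624))) (l 15708712)))) (a (c (b (l 15770344) (c (a (l 15796552) (l 15781768)) (l 15786488))) (l 15772472)) (b (c (a (c (l 15745320) (l 15741840)) (c (l 15708080) (l 15725208))) (a (l 15736824) (c (l 15721472) (l 15717856)))) (c (a (c (l 15768624) (l 15765312)) (b (l 15747440) (a (l 15766080) (c (l 15742088) (l 15759256))))) (a (l 15760808) (l 15748032)))))), by decide +kernel⟩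

def k23_pp_022 : ∃ t, chk3 f_pp_022 t 17 27 3 = true :=
  ⟨(a (a (b (b (l 15824352) (c (c (l 15835472) (l 15827992)) (l 15816680))) (c (c (l 15835576) (l 15828016)) (l 15795624))) (b (b (l 15775616) (c (c (l 15788664) (l 15780696)) (l 15768640))) (c (c (b (l 15794576) (c (l 15809920) (l 15806568))) (l 15792728)) (l 15738768)))) (b (b (b (l 15704288) (b (l 15702760) (c (a (a (l 15746840) (l 15722472)) (c (l 15691592) (l 15682648))) (l 15693304)))) (c (a (c (a (l 15754688) (l 15732736)) (l 15735448)) (c (l 15700608) (c (l 15694384) (l 15690080)))) (a (l 15722648) (l 15678880)))) (c (a (c (b (c (l 15759088) (l 15755544)) (l 15777568)) (b (l 15749664) (l 15771288))) (c (b (l 15721368) (a (l 15755200) (l 15741480))) (b (l 15714296) (c (l 15744072) (l 15741216))))) (c (a (l 15751448) (b (l 15706344) (l 15735992))) (l 15685120))))), by decide +kernel⟩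

def k24_pp_022 : ∃ t, chk3 f_pp_022 t 18 26 1 = true :=
  ⟨(a (c (a (b (c (l 15694792) (l 15677032)) (c (b (l 15688680) (l 15663360)) (l 15668504))) (b (b (l 15682648) (l 15673328)) (c (b (l 15656768) (c (l 15654832) (l 15645520))) (l 15655920)))) (b (a (l 15649728) (b (l 15646040) (l 15636176))) (a (l 15640656) (c (l 15637040) (l 15617920))))) (c (b (b (l 15776928) (l 15764320)) (a (c (l 15730952) (l 15713152)) (b (l 15785632) (l 673267684199)))) (b (b (l 15743168) (l 15729904)) (c (l 15725056) (l 15707232))))), by decide +kernel⟩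

def k25_pp_022 : ∃ t, chk3 f_pp_022 t 72 108 4 = true :=
  ⟨(b (l 15658872) (b (b (l 15656672) (c (a (l 15692800) (a (l 15675832) (a (l 15667488) (c (a (b (l 15665600) (c (a (l 15667624) (l 15666312)) (l 15664632))) (c (b (l 15663952) (l 15664368)) (b (l 15661600) (l 15662016)))) (l 15659688))))) (a (l 15662752) (l 15661040)))) (c (a (c (l 15696120) (l 15691616)) (a (l 15678040) (c (b (a (c (a (l 15673912) (a (l 15672000) (l 15670728))) (l 15670312)) (a (c (a (l 15669456) (l 15668192)) (a (l 15667120) (l 15665848))) (l 15665128))) (a (a (c (l 15676384) (l 15674080)) (c (a (l 15674520) (l 15673288)) (l 15671584))) (c (l 15670232) (l 15667896)))) (a (l 15668072) (a (c (b (l 15664144) (l 15666784)) (l 15663112)) (c (b (l 15661608) (l 15664320)) (b (l 15659256) (l 15661976)))))))) (c (l 15655600) (l 15651000))))), by decide +kernel⟩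

def k26_pp_022 : ∃ t, chk3 f_pp_022 t 144 109 4 = true :=
  ⟨(c (c (b (l 15702152) (a (l 15716480) (a (b (l 15707240) (c (b (l 15712432) (l 15715320)) (l 15711720))) (b (a (l 15703904) (c (b (l 15701400) (l 15704232)) (l 15700608))) (b (a (c (l 15709264) (l 15707096)) (c (l 15707224) (l 15705008))) (a (c (l 15712304) (l 15710112)) (l 15709264))))))) (b (l 15697744) (l 15686856))) (l 15674984)), by decide +kernel⟩

def k27_pp_022 : ∃ t, chk3 f_pp_022 t 145 109 8 = true :=
  ⟨(b (b (a (c (a (l 15687632) (a (l 15683984) (c (b (l 15681400) (a (l 15684632) (l 15683456))) (l 15680424)))) (l 15680664)) (c (a (a (c (b (a (l 15679584) (l 15678376)) (l 15681712)) (b (l 15676680) (l 15679408))) (b (c (l 15676592) (l 15674264)) (l 15678248))) (l 15673320)) (a (a (c (l 15675736) (l 15673440)) (c (b (l 15671952) (l 15674768)) (l 15671040))) (a (c (l 15670984) (b (l 15667224) (l 15670128))) (l 15667480))))) (a (c (a (a (l 15693952) (c (b (l 15691416) (a (l 15694704) (l 15693592))) (l 15690528))) (a (c (b (a (l 15689672)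 (l 15688528)) (l 15691936)) (b (l 15686840) (l 15689672))) (c (l 15688280) (b (l 15684544) (l 15687464))))) (a (l 15688344) (a (l 15684872) (c (b (l 15682264) (l 15685184)) (l 15681448))))) (c (l 15681648) (a (a (c (l 15681472) (b (l 15677688) (l 15680696))) (l 15678104)) (l 15674824))))) (a (a (c (b (a (c (b (a (l 15699736) (l 15698648)) (l 15702136)) (b (l 15696976) (l 15699904))) (c (l 15698544) (b (l 15694784) (l 15697816)))) (c (l 15705888) (l 15703624))) (c (b (a (l 15696224) (b (l 15692560) (l 15695568))) (a (b (l 15700752) (l 15703976)) (l 15700392))) (b (l 15692928) (a (l 15721120) (l 15698144))))) (b (c (l 15694312) (b (a (c (l 15690376) (l 15688136)) (l 15687112)) (c (l 15692488) (l 15690208)))) (l 15698664))) (l 15689376))), by decide +kernel⟩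

def k28_pp_022 : ∃ t, chk3 f_pp_022 t 145 109 9 = true :=
  ⟨(b (a (l 15676504) (a (b (l 15666496) (c (a (l 15675768) (b (l 15671968) (l 15675056))) (l 15670088))) (c (c (b (a (l 15666336) (l 15663968)) (l 15671328)) (b (a (l 15664024) (l 15661632)) (a (l 15670104) (l 15667896)))) (l 15641416)))) (a (a (l 15669520) (c (a (b (l 15686328) (c (l 15693936) (l 15691696))) (b (b (l 15682592) (l 15685776)) (l 15690864))) (l 15663064))) (c (l 15661496) (c (l 15658056) (l 15655768))))), by decide +kernel⟩

def k29_pp_022 : ∃ t, chk3 f_pp_022 t 73 54 4 = true :=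
  ⟨(b (a (b (a (l 15652072) (l 15654928)) (b (a (b (l 15649432) (c (a (c (c (l 15660216) (l 15657856)) (a (c (b (l 15656432) (l 15657072)) (l 15654424)) (c (l 15654120) (l 15651744)))) (l 15651448)) (c (a (l 15649552) (a (c (l 15646712) (l 15644320)) (l 15643000))) (a (l 15644784) (a (l 15640728) (l 15638200)))))) (a (b (l 15648560) (c (l 15653808) (a (c (l 15644728) (l 15639928)) (l 15646144)))) (c (l 15660976) (l 15651480)))) (a (a (c (c (l 15662768) (a (c (l 15660464) (b (l 15656720) (l 15659520))) (l 15656816))) (c (a (c (b (l 15654360) (l 15657168)) (l 15653392)) (c (l 15653264) (b (l 15649464) (l 15652352)))) (l 15648600))) (c (l 15655576) (c (c (l 15649624) (l 15647240)) (a (c (l 15646032) (l 15643648)) (c (l 15643680) (l 15641288)))))) (c (l 15662240) (l 15652752))))) (b (l 15676384) (c (c (b (b (l 15680888) (l 15683016)) (l 15688392)) (b (l 15677448) (l 15683752))) (l 15652688)))) (a (a (c (b (c (l 15669680) (l 15664976)) (c (l 15684048) (l 15679400))) (c (a (l 15648264) (l 15665152)) (b (c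 (l 15635752) (l 15633400)) (l 15670056)))) (c (l 15659072) (l 15649720))) (c (c (l 15687520) (l 15682960)) (l 15697064)))), by decide +kernel⟩

def k30_pp_022 : ∃ t, chk3 f_pp_022 t 36 54 5 = true :=
  ⟨(a (b (b (l 15661480) (c (a (c (l 15656696) (l 15652120)) (l 15632400)) (a (l 15645248) (c (l 15625336) (l 15641592))))) (a (c (c (l 15668408) (l 15685032)) (c (l 15680728) (l 15676464))) (c (a (l 15652248) (b (l 15636856) (c (a (l 15654400) (l 15650296)) (l 15647832)))) (c (l 15661912) (l 15657408))))) (b (b (l 15625080) (a (a (c (l 15616184) (l 15627560)) (c (a (b (l 15613480) (l 15618248)) (c (l 15626056) (l 15621280))) (l 15631240))) (a (c (l 15635384) (c (l 15649232) (l 15644472))) (l 15646328)))) (a (c (a (b (c (a (l 15632128) (l 15627616)) (l 15625184)) (a (l 15644000) (l 15661112))) (b (l 15632688) (l 15669544))) (a (b (l 15618152) (c (l 15656056) (l 15651432))) (b (c (l 15646560) (l 15641840)) (l 15660152)))) (c (l 15687856) (l 15678592))))), by decide +kernel⟩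

def k31_pp_022 : ∃ t, chk3 f_pp_022 t 72 110 4 = true :=
  ⟨(a (c (a (a (c (b (l 15729664) (b (c (a (b (l 15739384) (l 15742720)) (b (l 15737656) (l 15741144))) (a (l 15739008) (b (l 15735584) (l 15739024)))) (a (c (l 15748120) (b (l 15744160) (l 15747856))) (l 15745656)))) (c (a (l 15712752) (b (l 15725608) (b (l 15735248) (l 15742440)))) (l 15709816))) (b (c (b (l 15722760) (a (b (l 15728320) (c (l 15732592) (l 15730496))) (c (b (l 15727528) (l 15730904)) (b (l 15725408) (l 15728736))))) (c (l 15722696) (l 15720616))) (c (b (a (b (c (l 15736024) (l 15733880)) (l 15738560)) (l 15735208)) (l 15743616)) (c (b (a (b (l 15731792) (l 15735328)) (l 15731944)) (l 15740344)) (b (a (l 15731488) (l 15729816)) (l 15738184)))))) (a (b (a (c (b (c (b (l 15719312) (l 15722456)) (l 15718744)) (b (c (l 15725776) (l 15723592)) (l 15728176))) (b (l 15715584) (c (b (l 15721456) (l 15724888)) (l 15721048)))) (c (b (c (b (l 15717384) (l 15720648)) (b (l 15715216) (l 15718448))) (l 15724752)) (b (l 15734592) (c (l 15721440)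 (b (l 15717504) (l 15721040)))))) (c (l 15736872) (b (l 15728568) (l 15736560)))) (b (c (b (c (l 15716296) (b (l 15712376) (l 15715784))) (l 15722304)) (b (a (c (b (l 15711112) (l 15714440)) (l 15710600)) (c (l 15710928) (l 15729688))) (l 15717856))) (l 15731872)))) (b (b (l 15689312) (c (c (a (l 15723656) (a (l 15718056) (a (l 15715368) (l 15713680)))) (l 15696904)) (l 15693776))) (a (c (a (l 15734552) (l 15710296)) (l 15707880)) (c (a (l 15707192) (l 15725240)) (a (l 15702952) (l 15699896)))))) (c (c (l 15697504) (l 15693008)) (a (b (a (c (l 15685360) (l 15680952)) (l 15679680)) (l 15718848)) (l 15683240)))), by decide +kernel⟩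

def k32_pp_022 : ∃ t, chk3 f_pp_022 t 72 111 4 = true :=
  ⟨(c (c (a (l 15743392) (l 15736216)) (b (a (l 15729824) (l 15742264)) (l 15746032))) (a (b (a (c (c (l 15728872) (l 15726776)) (b (l 15719456) (l 15728000))) (l 15721080)) (l 15742704)) (l 15725344))), by decide +kernel⟩

def k33_pp_022 : ∃ t, chk3 f_pp_022 t 72 55 5 = true :=
  ⟨(b (a (c (b (l 15705096) (a (l 15722808) (c (l 15697224) (l 15693048)))) (c (l 15705896) (l 15701808))) (c (b (a (c (a (l 15676608) (l 15672960)) (l 15670448)) (c (l 15667800) (l 15663264))) (a (c (l 15691192) (l 15686808)) (l 15704408))) (b (a (l 15684968) (c (l 15679744) (l 15675296))) (a (c (l 15703448) (l 15699168)) (l 15695384))))) (a (c (b (a (c (l 15719640) (l 15715648)) (c (l 15714584) (l 15710344))) (a (c (l 15738016) (l 15733928)) (l 15753504))) (b (a (l 15730760) (c (l 15727152) (l 15723064))) (a (l 15749016) (l 15745024)))) (c (l 15737560) (a (b (l 15720176) (l 15741736)) (l 15726968))))), by decide +kernel⟩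

def k34_pp_022 : ∃ t, chk3 f_pp_022 t 73 55 2 = true :=
  ⟨(a (c (b (c (a (l 15686528) (l 15694856)) (a (l 15677408) (l 15685792))) (c (a (l 15734328) (l 15758256)) (a (l 15720312) (l 15752184)))) (b (a (c (l 15668232) (c (l 15682280) (l 15677688))) (l 15693048)) (c (a (l 15732456) (l 15743432)) (l 15729080)))) (b (c (c (c (l 15747920) (l 15743520)) (l 15736888)) (c (l 15728008) (l 15719064))) (l 1))), by decide +kernel⟩

def k35_pp_022 : ∃ t, chk3 f_pp_022 t 37 27 2 = true :=
  ⟨(a (b (b (b (b (l 15690032) (b (l 15687920) (c (c (c (l 15703016) (l 15698512)) (l 15691736)) (c (l 15703616) (l 15694456))))) (c (c (a (l 15693112) (l 15724832)) (a (l 15684016) (l 15715976))) (c (l 15711960) (l 15702872)))) (a (c (c (c (l 15722640) (l 15718216)) (l 15732520)) (c (l 15723592) (l 15714600))) (l 1))) (l 1)) (l 1)), by decide +kernel⟩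

def k36_pp_022 : ∃ t, chk3 f_pp_022 t 36 54 3 = true :=
  ⟨(b (b (a (l 15633248) (l 15617144)) (c (a (c (l 15645936) (l 15636560)) (a (c (a (l 15617920) (l 15621600)) (l 15610216)) (c (a (l 15637312) (l 15653168)) (a (l 15627736) (l 15643680))))) (a (c (l 15627088) (l 15617504)) (c (a (l 15600520) (l 15626288)) (a (l 15590688) (l 15616688)))))) (a (c (c (a (l 15670160) (l 15650800)) (a (l 15661768) (l 15642088))) (c (l 15643008) (l 15633752))) (c (a (c (a (c (l 15639200) (l 15634632)) (b (l 15634776) (l 15650816))) (a (l 15627848) (b (l 15625432) (l 15641592)))) (c (b (a (l 15651920) (l 15669264)) (l 15678624)) (b (a (l 15642552) (l 15659920)) (l 15669384)))) (a (c (a (l 15618944) (l 15624288)) (l 15612408)) (c (a (b (l 15633392) (l 15650904)) (b (l 15650648) (l 15669504))) (a (l 15632904) (c (l 15653032) (l 15648504)))))))), by decide +kernel⟩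

def k37_pp_022 : ∃ t, chk3 f_pp_022 t 36 55 3 = true :=
  ⟨(b (a (c (a (c (l 15696112) (l 15688776)) (c (b (c (l 15674704) (l 15670440)) (a (l 15692888) (l 15686552))) (b (l 15664416) (a (l 15684976) (l 15678032))))) (c (a (l 15681320) (l 15665032)) (l 15664648))) (c (a (c (a (b (l 15661480) (l 15680800)) (l 15679232)) (a (b (l 15652536) (l 15671776)) (b (l 15659936) (l 15680752)))) (c (l 15710064) (l 15701000))) (a (c (a (b (l 15644120) (l 15663232)) (b (l 15651048) (l 15671704))) (a (l 15645224) (c (l 15654752) (l 15650472)))) (c (l 117069092055) (a (b (c (l 15663976) (l 15659656)) (l 15684040)) (l 208337157847)))))) (a (c (b (a (c (l 15720376) (l 15713232)) (c (a (l 15711672) (l 15706888)) (a (l 15703608) (l 15698192)))) (a (c (a (l 15741400) (l 15736848)) (l 15732200)) (c (l 15731528) (a (l 15724712) (l 15721160))))) (c (a (l 15716000) (b (l 15672480) (a (l 15717200) (l 15712688)))) (a (l 15708800) (b (l 15685928) (c (l 15709544) (l 15705824)))))) (a (c (c (l 15720168) (l 15711216)) (c (a (b (l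 15684816) (l 15709320)) (l 15707840)) (a (b (c (l 15678552) (l 15674568)) (c (l 15702712) (l 15698584))) (b (l 197062879303) (l 1))))) (l 1)))), by decide +kernel⟩

def k38_pp_022 : ∃ t, chk3 f_pp_022 t 37 27 3 = true :=
  ⟨(a (b (b (b (b (l 15674304) (a (a (l 15649600) (c (l 15673608) (c (l 15659520) (l 15650072)))) (c (l 15695576) (c (l 15681744) (l 63918877287))))) (c (c (l 15693728) (a (l 15668024) (l 15700960))) (a (c (a (l 15650400) (l 15666832)) (a (l 15640952) (c (l 15659848) (l 15655160)))) (l 15645272)))) (a (c (l 15701000) (c (l 15687296) (a (b (c (l 15661304) (l 15656728)) (l 15679368)) (l 15687432)))) (l 1))) (l 1)) (l 1)), by decide +kernel⟩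

def k39_pp_022 : ∃ t, chk3 f_pp_022 t 19 13 1 = true :=
  ⟨(b (b (a (a (c (l 582536572295) (l 15831304)) (l 1)) (l 1)) (l 1)) (l 1)), by decide +kernel⟩

def k40_pp_022 : ∃ t, chk3 f_pp_022 t 64 28 2 = true :=
  ⟨(b (b (a (c (c (l 15962464) (l 15977416)) (l 15968312)) (c (b (a (l 15975256) (b (a (l 15972040) (c (a (l 15951760) (l 15949808)) (l 15944560))) (a (c (c (l 15953360) (l 15950320)) (l 15945704)) (l 15944600)))) (a (b (a (l 15973320) (c (l 15952936) (l 15946808))) (a (c (l 15954000) (l 15947880)) (c (l 15950624) (l 15965488)))) (c (b (c (l 15948176) (l 15966304)) (l 15943720)) (l 15960136)))) (b (a (l 15963032) (b (l 15957912) (a (l 15957376) (l 15953144)))) (a (b (l 15959696) (a (l 15959568) (l 15956144))) (l 15950712))))) (a (c (b (a (l 15975712) (b (a (l 15974448) (c (l 15955032) (l 15948920))) (a (c (l 15956040) (l 15949936)) (c (l 15953472) (l 15968360))))) (a (b (c (l 15957232) (l 15951144)) (a (c (l 15958024) (l 15951920)) (b (l 15953728) (l 15973856)))) (c (c (b (l 15954360) (l 15973152))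 (l 15950544)) (l 15945904)))) (b (a (l 15963464) (b (l 15961328) (a (l 15961640) (l 15959040)))) (a (b (l 15962864) (a (l 15963640) (l 15961872))) (l 15957520)))) (c (c (b (a (c (b (l 15951304) (l 15969632)) (l 15947224)) (l 15939896)) (l 15940056)) (l 15957480)) (c (l 15951160) (l 15944792))))) (c (b (c (a (b (a (a (b (l 15957632) (l 15977056)) (l 15953504)) (l 15948320)) (l 15949312)) (c (l 15958392) (l 15936840))) (a (b (l 15967072) (l 15965768)) (l 15933672))) (c (c (l 15943712) (a (l 15949112) (l 15960152))) (c (a (l 15947816) (l 15939152)) (l 15962280)))) (b (a (b (l 15957688) (l 15956328)) (l 15945336)) (l 15954712)))), by decide +kernel⟩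

def k41_pp_022 : ∃ t, chk3 f_pp_022 t 64 29 2 = true :=
  ⟨(b (c (c (b (b (l 15948512) (l 15959144)) (l 16016064)) (b (b (c (l 15949752) (l 15949056)) (c (l 15982488) (l 15982744))) (c (l 16019696) (l 16021392)))) (c (b (b (l 15945512) (l 15980200)) (c (l 15979832) (l 16020832))) (b (l 15967008) (l 16017048)))) (b (c (c (c (l 16070520) (l 16073848)) (l 16078928)) (c (c (l 16083336) (l 16084544)) (c (l 16084248) (l 16082432)))) (l 6))), by decide +kernel⟩

def k42_pp_022 : ∃ t, chk3 f_pp_022 t 65 14 2 = true :=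
  ⟨(b (b (c (b (c (a (b (c (c (l 15938328) (l 15958144)) (l 15956136)) (l 15951696)) (c (l 15935192) (l 15912536))) (a (l 15948712) (l 15929592))) (c (a (c (l 15946832) (l 15924720)) (l 15908472)) (c (a (l 15922712) (l 15906920)) (l 15933136)))) (b (c (l 15932688) (l 15927416)) (c (l 15928456) (l 15923088)))) (c (c (b (l 15916712) (l 15923392)) (b (c (l 15937192) (l 15914896)) (c (l 15945432) (l 15945544)))) (c (b (l 15932128) (c (l 15944672) (l 15942792))) (b (l 15927000) (l 15939504))))) (b (c (b (c (b (l 15933120) (l 15947288)) (c (l 15963120) (l 15964624))) (c (c (l 16008336) (l 16010664)) (l 16014232))) (c (b (c (b (l 15957832) (l 15973968)) (b (l 15957072) (l 15974200))) (c (l 16017888) (l 16019600))) (b (a (l 15963480) (l 15942024)) (a (l 16019376) (c (l 16020944) (l 16022528)))))) (l 6))), by decide +kernel⟩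

def k43_pp_022 : ∃ t, chk3 f_pp_022 t 33 14 2 = true :=
  ⟨(b (c (b (a (c (b (b (l 15884792) (l 15883288)) (b (l 15883384) (l 15885096))) (b (a (c (l 15890936) (l 15888656)) (c (l 15894960) (l 15875232))) (a (c (l 15911688) (l 15889600)) (l 15878344)))) (c (b (a (l 15860408) (l 15851864)) (a (l 15865768) (l 15860608))) (b (l 15861704) (l 15870112)))) (a (c (b (c (l 15890544) (l 15890776)) (c (l 15903824) (l 15904776))) (b (a (l 15896864) (l 15888232)) (c (l 15906480) (l 15929912)))) (c (b (a (l 15877672) (l 15875888)) (a (l 15896408) (c (l 15895712) (l 15921344)))) (b (l 15906104) (l 15928008))))) (c (b (a (b (a (l 15907672) (l 15898376)) (a (l 15909640) (l 15903856))) (b (a (c (l 15869272) (l 15895104)) (c (l 15890136) (l 15906536))) (a (c (l 15898336) (l 15904424)) (l 15910856)))) (a (b (a (c (l 15918360) (l 15919000)) (l 15916112)) (c (l 15933120) (l 15936472))) (b (a (l 15917056) (l 15929016)) (a (l 15938792) (l 15954128))))) (a (b (a (l 15907696) (l 15907352)) (a (b (l 15920288) (l 15938832))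 (b (l 15926000) (c (l 15942232) (l 15951376))))) (a (b (b (l 15915424) (l 15925848)) (b (l 15880528) (l 15967984))) (b (b (c (l 15926136) (l 15878776)) (c (l 15939624) (a (l 15946136) (l 15932664)))) (c (l 15971608) (b (a (l 15966888) (l 15954704)) (a (l 15993960) (l 15982872))))))))) (b (b (a (c (c (b (l 15919344) (l 15936960)) (b (l 15924200) (l 15963608))) (c (b (l 15952656) (l 15971936)) (a (b (l 15957976) (l 15978376)) (c (l 15972600) (l 15983824))))) (a (a (b (c (l 15940352) (l 15949992)) (l 6)) (l 6)) (l 6))) (l 6)) (l 6))), by decide +kernel⟩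

def k44_pp_022 : ∃ t, chk3 f_pp_022 t 34 56 2 = true :=
  ⟨(c (a (c (b (c (l 15840056) (l 15847360)) (c (c (l 15851928) (l 15854384)) (l 15882424))) (a (b (l 15880896) (l 15894376)) (l 15902776))) (a (a (c (b (l 15870680) (c (a (l 15855224) (l 15860672)) (l 15898560))) (l 15919072)) (c (b (l 15880400) (c (l 15891592) (l 15911064))) (c (b (l 15910328) (l 15931152)) (c (l 15935152) (l 15935360))))) (c (c (b (b (l 15860928) (l 15892248)) (l 15912312)) (b (b (l 15901104) (l 15911344)) (l 15931240))) (a (c (b (l 15920328) (l 15943696)) (c (b (l 15922592) (a (l 15951128) (l 15944072))) (l 15910360))) (c (b (c (l 15904176) (a (l 15905360) (l 15916168))) (c (l 15951544) (a (l 15951640) (l 15943128)))) (b (l 15877408) (l 15903368))))))) (c (a (a (c (l 15912336) (l 15932296)) (c (c (l 15928712) (l 15935640)) (a (c (l 15940696) (l 15928792)) (l 15908408)))) (a (c (a (c (l 15937416) (l 15920016)) (l 15898760)) (c (a (l 15887512) (l 15857192)) (a (l 15862320) (l 15848368)))) (c (a (c (l 15877240) (l 15852192))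 (b (l 15832576) (c (a (l 15864928) (l 15854960)) (l 15852480)))) (l 15840336)))) (a (c (a (b (c (l 15885944) (l 15911544)) (a (l 15945432) (l 15926848))) (c (a (l 15898352) (l 15867584)) (a (l 15872984) (l 15858728)))) (a (b (c (l 15887120) (l 15868952)) (c (l 15904464) (l 15886952))) (l 15860448))) (b (l 15832504) (l 15857152))))), by decide +kernel⟩

def k45_pp_022 : ∃ t, chk3 f_pp_022 t 34 57 2 = true :=
  ⟨(b (a (c (c (a (c (l 15872992) (l 15897872)) (c (a (b (l 15887712) (l 15879896)) (b (l 15869000) (l 15884136))) (a (l 15900984) (b (l 15882824) (l 15918368))))) (a (l 15914424) (b (l 15928984) (l 15942640)))) (c (a (l 15951968) (c (l 15965544) (a (l 15966024) (l 15945080)))) (c (a (a (l 15967248) (l 15950344)) (c (l 15920592) (l 15904064))) (a (c (l 15927880) (l 15911224)) (l 15898496))))) (a (c (c (c (l 15915120) (l 15933960)) (c (b (l 15945456) (l 15962336)) (a (l 15966800) (c (l 15976168) (a (l 15979984) (l 15976184)))))) (c (c (a (c (l 15975192) (l 15958312)) (l 15939912)) (a (l 15915432)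 (c (l 15898624) (l 15890256)))) (l 15891728))) (b (c (c (l 15947032) (b (c (c (l 15965768) (l 15965208)) (c (l 15951512) (l 15924688))) (l 6))) (c (c (a (c (l 15912768) (l 15887680)) (c (l 15887072) (l 15877752))) (l 15856888)) (l 15876624))) (l 6)))) (b (a (a (c (c (c (l 15892064) (l 15895840)) (l 15933968)) (c (l 15972664) (c (a (l 15988184) (l 15972536)) (c (l 15949888) (l 15933544))))) (l 6)) (l 6)) (l 6))), by decide +kernel⟩

def k46_pp_022 : ∃ t, chk3 f_pp_022 t 70 56 4 = true :=
  ⟨(c (a (c (b (l 15910240) (l 15940672)) (a (b (a (l 15919792) (l 15903288)) (l 15951128)) (c (b (l 15906152) (l 15937880)) (b (l 15915496) (l 15947384))))) (b (c (a (c (l 15923904) (l 15907472)) (c (a (l 15932224) (c (l 15913968) (l 15928264))) (l 15912560))) (c (l 15896880) (l 15864864))) (c (a (b (c (l 15948280) (l 15931952)) (a (b (l 15942176) (l 15952416)) (c (l 15950848) (b (c (l 15951472) (l 15947496)) (l 15959072))))) (b (c (a (b (l 15932248) (l 15941960)) (c (l 15941224) (l 15934464))) (a (a (l 15929848) (l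 15944056)) (l 15931728))) (c (l 15957016) (l 15960792)))) (a (b (l 15922800) (a (c (l 15965448) (l 15935056)) (l 15935336))) (b (b (l 15885264) (l 15895120)) (b (l 15905840) (l 15917504))))))) (a (c (c (a (b (b (l 15911056) (l 15923368)) (l 15946544)) (l 15900416)) (b (l 15870680) (l 15901240))) (b (a (c (l 15855808) (a (l 15834624) (l 15823672))) (c (a (l 15830320) (l 15819928)) (l 15796184))) (a (c (l 15884872) (a (l 15862616) (l 15853336))) (c (l 15858608) (l 15849104))))) (b (c (c (a (l 15849352) (l 15821440)) (a (l 15823752) (l 15811808))) (l 15790352)) (c (a (c (l 15883584) (a (l 15861248) (l 15852304))) (b (a (l 15846104) (a (l 15819664) (l 15817864))) (c (a (b (l 15866064) (l 15877264)) (l 15863896)) (l 15838544)))) (b (l 15837248) (a (l 15857896) (l 15836120))))))), by decide +kernel⟩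

def k47_pp_022 : ∃ t, chk3 f_pp_022 t 71 56 4 = true :=
  ⟨(c (a (c (b (a (b (a (l 15895152) (l 15877456)) (a (b (l 15907408) (c (l 15911968) (l 15879136))) (b (l 15890416) (l 15900168)))) (b (b (a (l 15855480) (l 15837816)) (a (l 15864088) (l 15847016))) (l 15870456))) (c (l 15936752) (l 15903568))) (b (a (c (b (l 15836528) (b (l 15849096) (l 15858416))) (b (l 15811048) (a (l 15810552) (c (b (l 15798240) (l 15807728)) (l 15798120))))) (c (b (a (c (l 15797032) (l 15784280)) (c (b (l 15778936) (l 15788032)) (l 15778560))) (a (a (l 15812272) (l 15806376)) (l 15801480))) (b (l 15778144) (l 15797216)))) (a (c (b (l 15874088) (l 15897728)) (a (b (a (l 15853296) (l 15847560)) (l 15874344)) (l 15854696))) (c (c (l 15865624) (l 15856744)) (l 15852648))))) (c (c (a (b (l 15843744) (l 15890864)) (c (a (l 15850496) (b (l 15793880) (l 15865128))) (b (l 15791904) (l 15862576)))) (a (b (c (l 15821248) (a (l 15793104) (l 15809336))) (c (l 15868448) (l 15859600))) (b (l 15808720) (l 15858496)))) (b (b (a (l 15776072)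 (l 15794808)) (l 15817584)) (l 15834056)))) (b (a (b (c (l 15777520) (l 15795032)) (a (l 15795152) (c (a (l 15794808) (l 15793896)) (b (l 15785704) (l 15795816))))) (b (a (c (a (l 15772792) (l 15771376)) (b (l 15763536) (l 15773112))) (l 15767632)) (c (l 15813544) (l 15788544)))) (a (b (a (c (b (l 15811408) (l 15822256)) (b (l 15807992) (l 15818680))) (l 15814624)) (c (l 15861896) (l 15837144))) (l 15849184)))), by decide +kernel⟩

def k48_pp_022 : ∃ t, chk3 f_pp_022 t 35 56 5 = true :=
  ⟨(a (c (b (a (c (l 15818312) (l 15816256)) (b (l 15778504) (l 15793928))) (a (c (l 15848408) (l 15846224)) (b (l 15832712) (l 15853064)))) (b (a (l 15813576) (l 15802080)) (a (l 15843768) (l 15837344)))) (b (a (c (b (l 15789896) (a (l 15809600) (l 15785576))) (l 15792448)) (c (b (a (l 15762848) (c (l 15761520) (l 15778560))) (a (c (l 15785136) (l 15802344)) (l 15802928))) (b (a (l 15776736) (l 15772952)) (a (l 15797008) (l 15795016))))) (a (c (b (a (l 15808440) (c (l 15808904) (l 15826272))) (a (c (l 15832872) (l 15850400))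 (l 15832032))) (b (a (l 15823144) (l 15821224)) (a (l 15845632) (l 15845672)))) (c (l 15841344) (a (b (l 15820240) (l 15846760)) (l 15833968)))))), by decide +kernel⟩

def k49_pp_022 : ∃ t, chk3 f_pp_022 t 35 57 2 = true :=
  ⟨(b (a (b (b (b (c (c (a (c (l 15961640) (a (l 15950656) (c (l 15959512) (l 15969128)))) (c (a (a (l 15960720) (l 15965976)) (c (l 15972336) (l 15976112))) (a (a (a (l 15966792) (l 15960528)) (l 15949320)) (l 15926856)))) (a (c (l 15936616) (c (l 15894488) (l 15877048))) (c (a (c (l 15906896) (c (l 15884400) (l 15854672))) (c (l 15863296) (l 15874400))) (a (l 15871208) (l 15850744))))) (a (a (l 15846056) (l 15844376)) (c (l 15846064) (l 15861280)))) (l 6)) (l 6)) (l 6)) (b (c (c (c (a (l 15959576) (c (a (l 15933160) (a (l 15914360) (l 15887032))) (a (c (l 15910800) (l 15881032)) (l 15902784)))) (a (c (a (l 15924136) (c (l 15906152) (l 15876344))) (a (l 15898496) (l 15893280))) (l 15898496))) (l 15869000)) (a (c (l 15879744) (a (b (l 15864432) (l 6)) (l 15873568))) (l 15881672)))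 (a (l 6) (a (l 6) (a (l 6) (l 1)))))) (a (l 6) (a (l 6) (a (l 6) (l 1))))), by decide +kernel⟩

def k50_pp_022 : ∃ t, chk3 f_pp_022 t 17 29 2 = true :=
  ⟨(a (l 6) (a (l 6) (a (l 6) (l 1)))), by decide +kernel⟩

def k51_pp_022 : ∃ t, chk3 f_pp_022 t 32 28 3 = true :=
  ⟨(c (a (b (b (a (l 15956056) (b (a (l 15950648) (a (l 15945952) (l 15942368))) (a (b (l 15947216) (l 15945128)) (l 15938432)))) (a (b (a (l 15951048) (b (l 15948856) (l 15947608))) (a (b (l 15950408) (l 15950016)) (l 15944912))) (l 15935496))) (b (a (l 15944008) (l 15932704)) (l 15942088))) (b (c (b (l 15925232) (l 15920816)) (a (l 15926832) (c (l 15922824) (a (l 15931176) (l 15933360))))) (c (b (l 15924704) (l 15937264)) (a (l 15930240) (c (l 15935120) (a (l 15941256) (l 15947864))))))) (a (b (c (a (b (l 15946896) (b (l 15939944) (a (l 15940352) (l 15935520)))) (b (a (b (l 15944584) (l 15939672)) (b (a (l 15945560) (l 15940952)) (l 15937256))) (a (l 15932848) (l 15930304)))) (a (b (c (l 15944032) (a (c (l 15943520) (l 15941288)) (l 15935616)))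 (c (a (l 15935624) (b (l 15936488) (l 15933400))) (a (c (l 15934152) (a (l 15932456) (l 15909872))) (b (a (l 15931728) (l 15934984)) (l 15926728))))) (b (a (c (c (l 15900656) (b (l 15944848) (l 15918904))) (l 15936184)) (b (a (l 15940160) (l 15939912)) (l 15932784))) (c (a (c (l 15933864) (l 15932952)) (l 15929088)) (l 15924432))))) (c (a (b (l 15934520) (l 15935936)) (c (l 15928856) (l 15930912))) (a (c (b (l 15931488) (l 15932880)) (a (c (l 15930040) (a (b (l 15930056) (l 15929704)) (l 15925952))) (c (l 15926840) (l 15926072)))) (c (a (c (l 15930936) (l 15930000)) (l 15929560)) (l 15923160))))) (c (a (c (b (b (l 15934544) (l 15927696)) (l 15933336)) (b (a (c (l 15937960) (l 15932032)) (l 15926912)) (c (a (l 15939016) (l 15934336)) (l 15929832)))) (c (b (c (l 15927784) (l 15920160)) (c (a (l 15945816) (l 15936376)) (l 15932456))) (b (l 15908744) (l 15921032)))) (b (l 15910336) (l 15918120))))), by decide +kernel⟩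

def k52_pp_022 : ∃ t, chk3 f_pp_022 t 32 29 3 = true :=
  ⟨(b (c (a (b (c (l 15960656) (l 15954584)) (c (l 16011088) (l 16005416))) (c (b (l 15961648) (l 16020832)) (a (b (l 15958968) (l 16016440)) (c (l 15957984) (a (l 16004112) (b (l 15984880) (l 16047896))))))) (a (c (a (l 15972560) (c (l 15976352) (b (l 15953104) (l 16006680)))) (a (c (b (l 15946384) (l 15995640)) (a (c (l 15966552) (b (l 15941480) (l 15989824))) (c (b (l 15943960) (l 15994504)) (l 15967192)))) (c (a (c (l 15976440) (b (l 15950552) (l 16003264))) (b (l 15953512) (l 16008424))) (l 15971128)))) (c (a (c (b (l 15962192) (l 16020000)) (a (c (l 15993376) (b (l 15960344) (l 16017336))) (b (l 15963088) (l 16022232)))) (c (c (a (l 15966896) (a (l 15942496) (l 15995152))) (b (l 15967976) (l 16009248))) (l 15986544))) (b (l 15950560) (l 16011160))))) (b (a (a (c (l 16072592) (c (l 16064488) (c (l 16062152) (a (c (l 16057592) (a (l 16054416) (l 16055680))) (c (l 16062352) (l 16061840)))))) (a (c (l 16077184) (c (l 16072288) (c (c (l 16073904)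 (l 16073232)) (l 16068008)))) (l 6))) (l 6)) (l 6))), by decide +kernel⟩

def k53_pp_022 : ∃ t, chk3 f_pp_022 t 33 14 3 = true :=
  ⟨(b (c (a (c (b (c (l 15919024) (a (l 15922048) (a (l 15935656) (l 15929792)))) (c (l 15944288) (a (l 15943064) (a (l 15963136) (l 15961536))))) (c (a (b (l 15929656) (a (l 15952352) (l 15955080))) (b (c (a (l 15928120) (l 15900976)) (l 15899304)) (c (a (l 15955648) (l 15932792)) (l 15929016)))) (a (b (c (l 15881096) (l 15907848)) (c (a (l 15951344) (l 15932632)) (l 15928952))) (b (l 15891000) (l 15920776))))) (c (b (c (a (a (l 15937232) (l 15927192)) (c (a (l 15916464) (l 15886088)) (l 15884120))) (a (c (a (l 15922784) (l 15893224)) (l 15891400)) (l 15875824))) (c (a (b (l 15953600) (a (l 15987352) (l 15940072))) (a (c (l 15959448) (a (l 15936680) (l 15927408))) (b (l 15915064) (l 15945272)))) (a (c (a (l 15958744) (l 15933392)) (l 15929528)) (l 15921912)))) (b (l 15875840) (l 15918336)))) (b (c (a (l 15891792) (l 15868600)) (l 15872784)) (c (b (l 15902376) (l 15928160))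 (b (l 15895392) (l 15921352))))) (b (b (a (a (c (c (l 15980712) (c (a (l 15992480) (l 15998432)) (a (c (l 15991576) (l 15973024)) (l 15972424)))) (l 15957960)) (c (c (c (l 16000680) (a (l 16009512) (l 16011088))) (c (a (c (l 16002152) (l 15979248)) (l 15978832)) (l 15969088))) (l 15960952))) (a (a (c (c (c (c (l 16022576) (l 16027464)) (c (l 16011168) (l 15985776))) (l 15973272)) (l 15963512)) (l 6)) (l 6))) (l 6)) (l 6))), by decide +kernel⟩

def k54_pp_022 : ∃ t, chk3 f_pp_022 t 34 14 3 = true :=
  ⟨(b (b (c (c (a (b (l 15852712) (c (l 15874576) (l 15871920))) (b (c (l 15829736) (l 15827232)) (l 15855040))) (a (l 15854952) (b (l 15822264) (l 15850856)))) (a (c (l 15847496) (l 15839984)) (b (l 15810720) (l 15840488)))) (b (c (c (a (c (l 15901448) (l 15899992)) (l 15888184)) (a (l 15895936) (c (l 15887600) (l 15886096)))) (a (l 15885432) (a (l 15880104) (l 15855848)))) (a (a (c (c (l 15936624) (l 15933768)) (l 15923864)) (l 6)) (l 6)))) (l 6)), by decide +kernel⟩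

def k55_pp_022 : ∃ t, chk3 f_pp_022 t 35 14 3 = true :=
  ⟨(a (b (b (c (c (b (l 15803984) (a (l 15841192) (l 15833280))) (b (l 15799568) (a (l 15838904) (l 15830344)))) (c (b (l 15793280) (a (l 15833976) (l 15826792))) (l 15803216))) (b (b (c (a (l 15868752) (a (l 15864856) (l 15863136))) (c (l 15862552) (l 15857120))) (l 6)) (l 6))) (l 6)) (a (b (b (c (b (c (l 15787128) (l 15782704)) (c (b (l 15816360) (a (l 15839664) (l 15838896))) (b (l 15811984) (l 15834832)))) (c (b (l 15777840) (c (l 15820432) (l 15818352))) (l 15770272))) (b (b (b (b (c (c (l 15855280) (l 15849816)) (c (l 15846104) (l 15842208))) (l 6)) (l 6)) (l 6)) (l 6))) (l 6)) (b (b (c (b (c (b (l 15768328) (a (l 15790304) (l 15787536))) (b (l 15762352) (l 15783176))) (c (b (a (l 15813112) (l 15812400)) (a (l 15839224) (l 15840592))) (b (a (l 15807032) (l 15805072)) (a (l 15832248) (l 15832880))))) (c (b (l 15767352) (b (c (l 15802072) (l 15799720)) (a (l 15826976) (c (l 15827320) (l 15824144))))) (b (l 15761184) (c (b (l 15797320) (a (l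 15823816) (l 15821576))) (l 15806976))))) (a (b (b (b (c (l 15857424) (c (l 15847176) (l 15842248))) (l 6)) (l 6)) (l 6)) (b (c (l 518648983335) (c (l 502542814535) (b (c (l 15851336) (b (l 15840320) (l 15856040))) (l 15883816)))) (l 1)))) (l 1)))), by decide +kernel⟩

def k56_pp_022 : ∃ t, chk3 f_pp_022 t 8 15 1 = true :=
  ⟨(a (l 6) (a (l 6) (l 1))), by decide +kernel⟩

def k57_pp_022 : ∃ t, chk3 f_pp_022 t 9 7 1 = true :=
  ⟨(b (b (a (a (b (b (a (c (c (c (c (a (l 15786768) (l 15784624)) (a (l 15782672) (l 15780488))) (c (l 15777360) (l 15794176))) (c (c (l 15790008) (l 15785832)) (a (a (b (l 15769952) (l 15793896)) (l 15780144)) (l 15778448)))) (c (a (c (b (a (l 15762128) (l 15759360)) (l 15785376)) (b (a (l 15755032) (l 15751344)) (a (l 15778112) (l 15776632)))) (c (l 15769976) (l 15761496))) (c (a (b (l 15746984) (a (l 15771712) (l 15768912))) (b (a (l 15740720) (l 15738328)) (l 15767296))) (a (c (b (l 15742296) (l 15765776)) (l 15750464)) (b (a (c (l 15735200) (l 15731768)) (c (l 15731992) (l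 15728080))) (a (c (l 15761472) (l 15736808)) (l 15758560))))))) (a (a (c (c (c (l 127269999623) (l 15793960)) (c (l 15785568) (l 15777120))) (c (l 15764328) (l 15747088))) (l 1)) (l 1))) (a (a (c (c (c (c (l 15840280) (l 15836408)) (l 15851520)) (c (l 15843656) (l 15835744))) (c (c (l 15827776) (b (l 15804888) (l 15835448))) (c (b (a (c (l 15798832) (l 15795424)) (l 15796968)) (l 15827560)) (b (a (c (l 15792560) (l 15789688)) (c (l 15791160) (b (l 15780360) (l 15794832)))) (a (c (l 15821104) (b (l 15810208) (l 15825280))) (l 15820568)))))) (b (c (c (c (l 15825576) (l 15817632)) (l 173440965751)) (c (l 15810360) (l 582536455399))) (l 1))) (l 1))) (b (b (a (a (c (c (c (l 15885488) (l 15878104)) (l 280815282679)) (c (l 478920640247) (c (l 15861240) (l 15853640)))) (l 1)) (l 1)) (l 1)) (l 1))) (l 1)) (l 1)) (l 1)) (l 1)), by decide +kernel⟩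

def k58_pp_022 : ∃ t, chk3 f_pp_022 t 5 3 1 = true :=
  ⟨(b (l 1) (l 1)), by decide +kernel⟩

def k59_pp_022 : ∃ t, chk3 f_pp_022 t 3 1 1 = true :=
  ⟨(l 1), by decide +kernel⟩

theorem s60_pp_022 : ∃ t, chk3 f_pp_022 t 17 14 3 = true := ex3_a k54_pp_022 k55_pp_022

theorem s61_pp_022 : ∃ t, chk3 f_pp_022 t 32 14 3 = true := ex3_b k51_pp_022 k52_pp_022

theorem s62_pp_022 : ∃ t, chk3 f_pp_022 t 16 14 3 = true := ex3_a s61_pp_022 k53_pp_022

theorem s63_pp_022 : ∃ t, chk3 f_pp_022 t 8 14 3 = true := ex3_a s62_pp_022 s60_pp_022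

theorem s64_pp_022 : ∃ t, chk3 f_pp_022 t 35 56 4 = true := ex3_a k46_pp_022 k47_pp_022

theorem s65_pp_022 : ∃ t, chk3 f_pp_022 t 35 56 2 = true := ex3_c s64_pp_022 k48_pp_022

theorem s66_pp_022 : ∃ t, chk3 f_pp_022 t 35 28 2 = true := ex3_b s65_pp_022 k49_pp_022

theorem s67_pp_022 : ∃ t, chk3 f_pp_022 t 34 28 2 = true := ex3_b k44_pp_022 k45_pp_022

theorem s68_pp_022 : ∃ t, chk3 f_pp_022 t 17 28 2 = true := ex3_a s67_pp_022 s66_pp_022

theorem s69_pp_022 : ∃ t, chk3 f_pp_022 t 17 14 2 = true := ex3_b s68_pp_022 k50_pp_022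

theorem s70_pp_022 : ∃ t, chk3 f_pp_022 t 64 14 2 = true := ex3_b k40_pp_022 k41_pp_022

theorem s71_pp_022 : ∃ t, chk3 f_pp_022 t 32 14 2 = true := ex3_a s70_pp_022 k42_pp_022

theorem s72_pp_022 : ∃ t, chk3 f_pp_022 t 16 14 2 = true := ex3_a s71_pp_022 k43_pp_022

theorem s73_pp_022 : ∃ t, chk3 f_pp_022 t 8 14 2 = true := ex3_a s72_pp_022 s69_pp_022

theorem s74_pp_022 : ∃ t, chk3 f_pp_022 t 8 14 1 = true := ex3_c s73_pp_022 s63_pp_022

theorem s75_pp_022 : ∃ t, chk3 f_pp_022 t 8 7 1 = true := ex3_b s74_pp_022 k56_pp_022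

theorem s76_pp_022 : ∃ t, chk3 f_pp_022 t 4 7 1 = true := ex3_a s75_pp_022 k57_pp_022

theorem s77_pp_022 : ∃ t, chk3 f_pp_022 t 36 27 3 = true := ex3_b k36_pp_022 k37_pp_022

theorem s78_pp_022 : ∃ t, chk3 f_pp_022 t 18 27 3 = true := ex3_a s77_pp_022 k38_pp_022

theorem s79_pp_022 : ∃ t, chk3 f_pp_022 t 72 55 4 = true := ex3_b k31_pp_022 k32_pp_022

theorem s80_pp_022 : ∃ t, chk3 f_pp_022 t 72 55 2 = true := ex3_c s79_pp_022 k33_pp_022

theorem s81_pp_022 : ∃ t, chk3 f_pp_022 t 36 55 2 = true := ex3_a s80_pp_022 k34_pp_022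

theorem s82_pp_022 : ∃ t, chk3 f_pp_022 t 145 109 4 = true := ex3_c k27_pp_022 k28_pp_022

theorem s83_pp_022 : ∃ t, chk3 f_pp_022 t 72 109 4 = true := ex3_a k26_pp_022 s82_pp_022

theorem s84_pp_022 : ∃ t, chk3 f_pp_022 t 72 54 4 = true := ex3_b k25_pp_022 s83_pp_022

theorem s85_pp_022 : ∃ t, chk3 f_pp_022 t 36 54 4 = true := ex3_a s84_pp_022 k29_pp_022

theorem s86_pp_022 : ∃ t, chk3 f_pp_022 t 36 54 2 = true := ex3_c s85_pp_022 k30_pp_022

theorem s87_pp_022 : ∃ t, chk3 f_pp_022 t 36 27 2 = true := ex3_b s86_pp_022 s81_pp_022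

theorem s88_pp_022 : ∃ t, chk3 f_pp_022 t 18 27 2 = true := ex3_a s87_pp_022 k35_pp_022

theorem s89_pp_022 : ∃ t, chk3 f_pp_022 t 18 27 1 = true := ex3_c s88_pp_022 s78_pp_022

theorem s90_pp_022 : ∃ t, chk3 f_pp_022 t 18 13 1 = true := ex3_b k24_pp_022 s89_pp_022

theorem s91_pp_022 : ∃ t, chk3 f_pp_022 t 9 13 1 = true := ex3_a s90_pp_022 k39_pp_022

theorem s92_pp_022 : ∃ t, chk3 f_pp_022 t 71 55 4 = true := ex3_c k20_pp_022 k21_pp_022

theorem s93_pp_022 : ∃ t, chk3 f_pp_022 t 35 55 4 = true := ex3_a k19_pp_022 s92_pp_022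

theorem s94_pp_022 : ∃ t, chk3 f_pp_022 t 35 54 4 = true := ex3_a k17_pp_022 k18_pp_022

theorem s95_pp_022 : ∃ t, chk3 f_pp_022 t 35 27 4 = true := ex3_b s94_pp_022 s93_pp_022

theorem s96_pp_022 : ∃ t, chk3 f_pp_022 t 35 27 2 = true := ex3_c s95_pp_022 k22_pp_022

theorem s97_pp_022 : ∃ t, chk3 f_pp_022 t 34 27 2 = true := ex3_c k15_pp_022 k16_pp_022

theorem s98_pp_022 : ∃ t, chk3 f_pp_022 t 17 27 2 = true := ex3_a s97_pp_022 s96_pp_022

theorem s99_pp_022 : ∃ t, chk3 f_pp_022 t 17 27 1 = true := ex3_c s98_pp_022 k23_pp_022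

theorem s100_pp_022 : ∃ t, chk3 f_pp_022 t 16 27 3 = true := ex3_c k13_pp_022 k14_pp_022

theorem s101_pp_022 : ∃ t, chk3 f_pp_022 t 16 27 2 = true := ex3_a k11_pp_022 k12_pp_022

theorem s102_pp_022 : ∃ t, chk3 f_pp_022 t 16 27 1 = true := ex3_c s101_pp_022 s100_pp_022

theorem s103_pp_022 : ∃ t, chk3 f_pp_022 t 8 27 1 = true := ex3_a s102_pp_022 s99_pp_022

theorem s104_pp_022 : ∃ t, chk3 f_pp_022 t 8 26 1 = true := ex3_a k9_pp_022 k10_pp_022

theorem s105_pp_022 : ∃ t, chk3 f_pp_022 t 8 13 1 = true := ex3_b s104_pp_022 s103_pp_022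

theorem s106_pp_022 : ∃ t, chk3 f_pp_022 t 4 13 1 = true := ex3_a s105_pp_022 s91_pp_022

theorem s107_pp_022 : ∃ t, chk3 f_pp_022 t 4 12 1 = true := ex3_a k7_pp_022 k8_pp_022

theorem s108_pp_022 : ∃ t, chk3 f_pp_022 t 4 6 1 = true := ex3_b s107_pp_022 s106_pp_022

theorem s109_pp_022 : ∃ t, chk3 f_pp_022 t 4 3 1 = true := ex3_b s108_pp_022 s76_pp_022

theorem s110_pp_022 : ∃ t, chk3 f_pp_022 t 2 3 1 = true := ex3_a s109_pp_022 k58_pp_022

theorem s111_pp_022 : ∃ t, chk3 f_pp_022 t 8 5 1 = true := ex3_a k3_pp_022 k4_pp_022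

theorem s112_pp_022 : ∃ t, chk3 f_pp_022 t 16 4 1 = true := ex3_a k0_pp_022 k1_pp_022

theorem s113_pp_022 : ∃ t, chk3 f_pp_022 t 8 4 1 = true := ex3_a s112_pp_022 k2_pp_022

theorem s114_pp_022 : ∃ t, chk3 f_pp_022 t 8 2 1 = true := ex3_b s113_pp_022 s111_pp_022

theorem s115_pp_022 : ∃ t, chk3 f_pp_022 t 4 2 1 = true := ex3_a s114_pp_022 k5_pp_022

theorem s116_pp_022 : ∃ t, chk3 f_pp_022 t 2 2 1 = true := ex3_a s115_pp_022 k6_pp_022

theorem s117_pp_022 : ∃ t, chk3 f_pp_022 t 2 1 1 = true := ex3_b s116_pp_022 s110_pp_022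

theorem s118_pp_022 : ∃ t, chk3 f_pp_022 t 1 1 1 = true := ex3_a s117_pp_022 k59_pp_022

theorem c_pp_022 : CertNX 0 536870912 0 536870912 1046898278 26843546 3 false true true .pp 0 2 2
    ndN0q0 ndN0q2 pcN2 cut_pp_022 Ext.none :=
  certNX0 (fam := false) (s1 := true) (s2 := true) (a := 0) (b := 2) (c := 2) (cn := .pp) (n1 := ndN0q0) (n2 := ndN0q2) (pc := pcN2) (cut := cut_pp_022) (xt := Ext.none) (P1 := 0) (W1 := 536870912) (P2 := 0) (W2 := 536870912) (P3 := 1046898278) (W3 := 26843546) (N0 := 3)
    rfl s118_pp_022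

noncomputable def f_pp_101 : ℕ → ℕ → ℕ → ℕ → Bool := onCell 536870912 536870912 536870912 536870912 1046898278 26843546
    (rowNX 3 0 false true true .npn 1 0 1 (qsf 536870912 536870912 536870912 536870912 0) ndN0q1 ndN0q1 pcN0 Cut.none Ext.none)

def k0_pp_101 : ∃ t, chk3 f_pp_101 t 1 1 1 = true :=
  ⟨(l 3), by decide +kernel⟩

theorem c_pp_101 : CertNX 536870912 536870912 536870912 536870912 1046898278 26843546 3 false true true .npn 1 0 1
    ndN0q1 ndN0q1 pcN0 Cut.none Ext.none :=
  certNX0 (fam := false) (s1 := true) (s2 := true) (a := 1) (b := 0) (c := 1) (cn := .npn) (n1 := ndN0q1) (n2 := ndN0q1) (pc := pcN0) (cut := Cut.none) (xt := Ext.none) (P1 := 536870912) (W1 := 536870912) (P2 := 536870912) (W2 := 536870912) (P3 := 1046898278) (W3 := 26843546) (N0 := 3)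
    rfl k0_pp_101

noncomputable def f_pp_102 : ℕ → ℕ → ℕ → ℕ → Bool := onCell 0 536870912 0 536870912 1046898278 26843546
    (rowNX 3 2 false true true .npp 1 0 2 (qsf 536870912 536870912 0 536870912 0) ndN0q1 ndN0q2 pcN0 Cut.none Ext.none)

def k0_pp_102 : ∃ t, chk3 f_pp_102 t 1 1 1 = true :=
  ⟨(a (a (l 3) (l 3)) (l 3)), by decide +kernel⟩

theorem c_pp_102 : CertNX 536870912 536870912 0 536870912 1046898278 26843546 3 false true true .npp 1 0 2
    ndN0q1 ndN0q2 pcN0 Cut.none Ext.none :=
  certNX2 (fam := false) (s1 := true) (s2 := true) (a := 1) (b := 0) (c := 2) (cn := .npp) (n1 := ndN0q1) (n2 := ndN0q2) (pc := pcN0) (cut := Cut.none) (xt := Ext.none) (P1 := 536870912) (W1 := 536870912) (P2 := 0) (W2 := 536870912) (P3 := 1046898278) (W3 := 26843546) (N0 := 3)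
    rfl (fun _ => rfl) k0_pp_102

noncomputable def f_pp_112 : ℕ → ℕ → ℕ → ℕ → Bool := onCell 536870912 536870912 0 536870912 1046898278 26843546
    (rowNX 3 0 false true true .dn 1 1 2 (qsf 536870912 536870912 0 536870912 1) ndN0q1 ndN0q2 pcN1 Cut.none Ext.none)

def k0_pp_112 : ∃ t, chk3 f_pp_112 t 1 1 1 = true :=
  ⟨(a (b (a (b (b (b (a (c (a (c (l 16777216) (l 16777216)) (c (a (l 16777216) (b (l 16777216) (l 204715589639))) (c (l 16777216) (l 16777216)))) (a (c (l 16777216) (l 16777216)) (c (a (l 16777216) (l 16777216)) (l 16777216)))) (b (a (c (a (c (a (l 16777216) (l 228874780679)) (l 16777216)) (l 3)) (c (l 224042942471) (l 218674233351))) (l 3)) (l 3))) (a (a (c (c (a (l 16777216) (b (l 16777216) (l 207399944199))) (c (l 20568866823) (l 16777216))) (c (a (l 16777216) (l 16777216)) (l 16777216))) (a (c (b (c (l 205789331463) (l 16777216)) (l 3)) (c (l 218674233351) (l 212231782407))) (l 3))) (l 3))) (a (a (a (b (c (b (c (l 209547427847) (l 16777216)) (l 3)) (c (l 219211104263) (l 211158040583)))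 (l 3)) (l 3)) (l 3)) (l 3))) (l 3)) (l 3)) (l 3)) (l 1)), by decide +kernel⟩

theorem c_pp_112 : CertNX 536870912 536870912 0 536870912 1046898278 26843546 3 false true true .dn 1 1 2
    ndN0q1 ndN0q2 pcN1 Cut.none Ext.none :=
  certNX0 (fam := false) (s1 := true) (s2 := true) (a := 1) (b := 1) (c := 2) (cn := .dn) (n1 := ndN0q1) (n2 := ndN0q2) (pc := pcN1) (cut := Cut.none) (xt := Ext.none) (P1 := 536870912) (W1 := 536870912) (P2 := 0) (W2 := 536870912) (P3 := 1046898278) (W3 := 26843546) (N0 := 3)
    rfl k0_pp_112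

noncomputable def f_pp_202 : ℕ → ℕ → ℕ → ℕ → Bool := onCell 0 536870912 0 536870912 1046898278 26843546
    (rowNX 3 0 false true true .pp 2 0 2 (qsf 0 536870912 0 536870912 0) ndN0q2 ndN0q2 pcN0 Cut.none Ext.none)

def k0_pp_202 : ∃ t, chk3 f_pp_202 t 1 1 1 = true :=
  ⟨(l 3), by decide +kernel⟩

theorem c_pp_202 : CertNX 0 536870912 0 536870912 1046898278 26843546 3 false true true .pp 2 0 2
    ndN0q2 ndN0q2 pcN0 Cut.none Ext.none :=
  certNX0 (fam := false) (s1 := true) (s2 := true) (a := 2) (b := 0) (c := 2) (cn := .pp) (n1 := ndN0q2) (n2 := ndN0q2) (pc := pcN0) (cut := Cut.none) (xt := Ext.none) (P1 := 0) (W1 := 536870912) (P2 := 0) (W2 := 536870912) (P3 := 1046898278) (W3 := 26843546) (N0 := 3)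
    rfl k0_pp_202

noncomputable def f_pm_001 : ℕ → ℕ → ℕ → ℕ → Bool := onCell 0 536870912 536870912 536870912 1046898278 26843546
    (rowNX 3 0 false true false .up 0 0 1 (qsf 0 536870912 536870912 536870912 0) ndN0q0 ndN0q1 pcN0 Cut.none Ext.none)

def k0_pm_001 : ∃ t, chk3 f_pm_001 t 1 2 1 = true :=
  ⟨(a (l 4) (b (l 4) (a (l 4) (b (a (l 4) (b (b (l 4) (b (l 4) (a (l 4) (a (l 4) (a (l 4) (c (b (l 174181059111) (l 16776104)) (l 165591095223))))))) (b (a (l 4) (c (a (c (l 170959837047) (l 170422928439)) (c (b (l 16774000) (l 16770160)) (l 16771344))) (c (a (l 169349186119) (l 16771248)) (a (l 16776752) (l 16771144))))) (a (a (l 4) (a (b (l 4) (c (l 174717930791) (l 169349221671))) (c (b (l 180623508615) (c (l 16777112) (l 16777112))) (c (l 161833042247) (l 160222429671))))) (c (c (a (l 16774808) (l 16765480)) (a (l 16774760) (l 16765272))) (c (a (l 16774720) (l 16765064)) (l 16770488))))))) (b (a (a (l 4) (a (l 4) (c (c (l 170959831047) (l 167201734663)) (c (l 163443638279) (l 160222412807))))) (a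 (c (c (b (a (l 166664863751) (l 16777208)) (l 16777216)) (a (l 35131490311) (l 16777208))) (c (a (l 16777216) (l 16777208)) (a (l 16777216) (l 16777208)))) (a (c (b (c (a (l 16787104) (l 16774400)) (a (l 16776608) (l 16774352))) (c (l 16777200) (l 16777200))) (b (c (a (l 16776592) (l 16774304)) (l 16775288)) (l 16777200))) (c (b (c (l 16766352) (l 16766160)) (a (c (l 16775672) (l 16775648)) (c (l 16771128) (l 16771016)))) (b (l 16765872) (c (l 16772776) (l 16772696))))))) (a (c (c (a (b (l 193508409351) (a (l 172033572871) (l 16777216))) (a (b (l 16777216) (l 16777216)) (l 16777216))) (a (b (l 191897796615) (l 155390574599)) (a (l 47479521287) (l 16777216)))) (a (c (a (l 167738605575) (l 153243090951)) (a (l 162906767367) (l 149484994567))) (c (a (l 16777216) (l 16777216)) (l 54458843143)))) (c (c (a (l 16777216) (l 16777200)) (a (l 16777216) (l 16777200))) (c (a (l 16777216) (l 16777200)) (a (l 16777216) (l 16777200)))))))))), by decide +kernel⟩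

def k1_pm_001 : ∃ t, chk3 f_pm_001 t 1 12 1 = true :=
  ⟨(a (l 4) (b (a (a (l 4) (a (l 4) (c (b (a (l 4) (c (l 166664863751) (l 160759283719))) (c (a (l 157538058247) (l 16777216)) (a (l 151632478215) (l 16777216)))) (c (b (l 160759283719) (a (l 16777216) (l 16777216))) (a (l 152706220039) (l 136600092679)))))) (a (c (a (c (b (l 16777216) (l 16777216)) (b (l 16777216) (l 16777216))) (c (l 16777216) (l 16777216))) (a (c (l 61975035911) (l 16777216)) (c (l 16777216) (l 16777216)))) (c (c (a (l 16777216) (l 16777216)) (a (l 16777216) (l 16777216))) (c (l 16777216) (l 16777216))))) (a (a (b (l 4) (a (l 2) (a (l 4) (c (c (l 155390574599) (l 151632478215)) (c (l 148948123655) (l 146263769095)))))) (c (a (b (a (c (l 167738605575) (l 190287183879)) (c (l 146800640007) (l 16777216))) (c (a (l 16777216) (l 16777216)) (l 72712454151))) (c (c (l 16777216) (l 16777216)) (c (l 16777216) (l 16777216)))) (a (c (b (l 145726898183) (l 16777216)) (b (l 141968801799) (l 16777216))) (c (l 16777216) (l 16777216))))) (c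 (a (c (a (l 16777216) (l 16777216)) (a (l 16777216) (l 16777216))) (c (l 16777216) (l 16777216))) (a (c (a (l 16777216) (l 16777216)) (l 16777216)) (c (l 16777216) (l 16777216))))))), by decide +kernel⟩

def k2_pm_001 : ∃ t, chk3 f_pm_001 t 1 13 1 = true :=
  ⟨(a (l 2) (b (a (a (a (l 2) (a (l 2) (c (c (l 234713251847) (l 224512704519)) (c (l 16777216) (l 16777216))))) (c (c (a (c (l 16777216) (l 16777216)) (l 16777216)) (a (l 16777216) (l 16777216))) (c (a (l 16777216) (l 16777216)) (a (l 16777216) (l 16777216))))) (c (a (c (a (l 16777216) (l 16777216)) (l 16777216)) (c (l 16777216) (l 16777216))) (a (c (l 16777216) (l 16777216)) (c (l 16777216) (l 16777216))))) (a (a (l 2) (a (b (c (l 198742900743) (l 16777216)) (l 2)) (c (b (l 16777216) (l 16721856)) (b (l 16777216) (l 16741616))))) (a (c (b (c (l 16777216) (l 16777216)) (c (l 16743120) (l 16742528))) (b (l 16777216) (l 16741616))) (c (b (l 16777216) (l 16721856)) (b (l 16777216) (l 16741616))))))), by decide +kernel⟩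

def k3_pm_001 : ∃ t, chk3 f_pm_001 t 1 7 1 = true :=
  ⟨(a (l 2) (b (b (a (a (l 2) (a (l 2) (a (l 2) (c (l 16461024) (l 16515016))))) (a (c (c (l 16358368) (l 16479800)) (a (l 16494048) (l 16515016))) (c (b (l 16601104) (l 16447320)) (l 16452104)))) (a (l 2) (a (c (c (l 16211960) (l 16202048)) (l 176192785319)) (c (l 16123112) (l 16186912))))) (a (l 2) (a (b (c (b (l 15903792) (l 2)) (l 174044171847)) (l 2)) (b (c (b (l 15903792) (c (l 15677096) (l 15633576))) (b (l 15873040) (l 15603512))) (b (c (c (b (l 99955989863) (l 15531080)) (b (l 15540440) (l 15407288))) (c (l 15497680) (l 15475392))) (a (l 2) (c (l 44121161767) (b (c (l 15432072) (l 15411984)) (c (l 15392376) (l 15218832))))))))))), by decide +kernel⟩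

theorem s4_pm_001 : ∃ t, chk3 f_pm_001 t 1 6 1 = true := ex3_b k1_pm_001 k2_pm_001

theorem s5_pm_001 : ∃ t, chk3 f_pm_001 t 1 3 1 = true := ex3_b s4_pm_001 k3_pm_001

theorem s6_pm_001 : ∃ t, chk3 f_pm_001 t 1 1 1 = true := ex3_b k0_pm_001 s5_pm_001

theorem c_pm_001 : CertNX 0 536870912 536870912 536870912 1046898278 26843546 3 false true false .up 0 0 1
    ndN0q0 ndN0q1 pcN0 Cut.none Ext.none :=
  certNX0 (fam := false) (s1 := true) (s2 := false) (a := 0) (b := 0) (c := 1) (cn := .up) (n1 := ndN0q0) (n2 := ndN0q1) (pc := pcN0) (cut := Cut.none) (xt := Ext.none) (P1 := 0) (W1 := 536870912) (P2 := 536870912) (W2 := 536870912) (P3 := 1046898278) (W3 := 26843546) (N0 := 3)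
    rfl s6_pm_001

end Pool.Agent.Strip051.G.IE1.Tab.C.NB00

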