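import Pool.Agent.Strip051.G.IE1.Tab

/-! # Certificates N39 (generated) -/

set_option linter.all false
set_option maxRecDepth 100000

namespace Pool.Agent.Strip051.G.IE1.Tab.C.NB00

open Pool.Agent.Strip051.PB Pool.Agent.Strip051.PB.T
open Pool.Agent.Strip051.G.IE1.Tab

noncomputable def cut_pm_011 : Cut := Cut.of [[⟨4, 0, 0, 3154116608⟩], [⟨0, 0, 0, 67108864⟩, ⟨1, 1, 0, 67108864⟩, ⟨2, 1, 0, 67108864⟩]]

noncomputable def f_pm_011 : ℕ → ℕ → ℕ → ℕ → Bool := onCell 536870912 536870912 536870912 536870912 1046898278 26843546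
    (rowNX 3 2 false true false .pnn 0 1 1 (qsf 0 536870912 536870912 536870912 1) ndN0q0 ndN0q1 pcN1 cut_pm_011 Ext.none)

def k0_pm_011 : ∃ t, chk3 f_pm_011 t 2 2 1 = true :=
  ⟨(l 4), by decide +kernel⟩

def k1_pm_011 : ∃ t, chk3 f_pm_011 t 2 6 1 = true :=
  ⟨(b (l 6) (a (a (a (c (b (b (a (c (l 16777216) (l 16777216)) (l 6)) (c (l 16777216) (l 16777216))) (b (c (l 16777216) (l 16777216)) (c (l 16743120) (l 16742528)))) (b (a (c (l 16777216) (l 16777216)) (b (l 6) (l 16777216))) (b (l 16777216) (l 16741616)))) (b (a (b (l 6) (b (l 6) (c (a (l 16777216) (l 16777216)) (l 16777216)))) (l 6)) (c (b (c (l 16777216) (l 16777216)) (c (l 16743120) (l 16742528))) (b (c (l 16777216) (l 16777216)) (c (l 16741920) (l 16741304)))))) (b (l 6) (a (b (b (l 6) (c (c (a (l 16777216) (l 16777216)) (l 16777216)) (c (l 16777216) (l 16777216)))) (c (c (b (l 16751376) (l 16714104)) (b (l 16772256) (l 16713000))) (c (b (l 16772176) (l 16711880)) (l 16741304)))) (b (l 6) (b (a (c (c (l 16751376) (l 16772256)) (a (l 16772128) (l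 6))) (l 6)) (c (c (a (l 16714104) (l 16714104)) (l 16692032)) (c (l 16711880) (l 16710744)))))))) (l 6))), by decide +kernel⟩

def k2_pm_011 : ∃ t, chk3 f_pm_011 t 4 7 1 = true :=
  ⟨(b (c (a (b (c (b (l 16560696) (l 16450192)) (b (l 16599576) (l 16444456))) (c (b (l 16293152) (l 16131624)) (l 16202048))) (b (b (c (a (l 16602640) (b (l 16640224) (l 16565168))) (a (l 16599576) (l 16557632))) (a (l 16447320) (c (l 16450192) (l 16444456)))) (a (b (l 16288904) (l 16125960)) (b (l 16288904) (l 16125960))))) (a (b (a (l 16389184) (b (l 16594904) (l 16435696))) (a (l 16186912) (l 16186912))) (b (c (a (l 16433392) (b (l 16596480) (l 16438648))) (a (l 16470816) (b (l 16593336) (l 16432760)))) (a (b (l 16271704) (l 16103016)) (b (l 16250736) (l 16103016)))))) (b (c (b (a (l 15903792) (c (l 15911384) (l 15896208))) (a (b (l 15695040) (l 15592112)) (b (l 15695040) (l 15592112)))) (a (b (l 15873040) (l 15603512)) (b (l 15831096) (a (l 15603512) (l 15603512))))) (c (b (c (b (a (l 15584616) (c (l 15598112) (l 15575392)))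 (a (l 15531080) (l 15531080))) (a (b (l 15540440) (c (l 15524160) (l 15505120))) (b (l 15540440) (c (l 15482216) (l 15505120))))) (a (c (l 15454616) (b (l 15460560) (l 15412616))) (c (l 15454616) (b (l 15460560) (l 15412616))))) (b (a (c (l 15497680) (l 15475392)) (c (l 15497680) (l 15475392))) (c (b (a (c (l 15442488) (l 15432272)) (c (l 15442488) (l 15432272))) (a (l 15392376) (l 15392376))) (b (a (l 15411984) (l 15411984)) (a (c (l 15373808) (l 15358656)) (c (b (l 15384200) (l 15364136)) (l 15358656))))))))), by decide +kernel⟩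

def k3_pm_011 : ∃ t, chk3 f_pm_011 t 10 28 1 = true :=
  ⟨(a (a (c (b (a (c (l 16602640) (l 16599576)) (c (b (l 16638888) (l 16581760)) (l 16513216))) (a (l 16447320) (c (l 16462064) (l 16456592)))) (a (c (l 16391448) (l 16428872)) (b (c (l 16552448) (l 16591640)) (l 16427256)))) (b (b (l 6) (a (c (c (l 16624416) (l 16621976)) (l 16576312)) (b (a (c (l 16661832) (l 16680344)) (l 6)) (c (l 16596488) (l 16624312))))) (c (c (b (l 16515360) (l 16464992)) (b (l 16532760) (l 16459736))) (c (l 16376312) (l 16434688))))) (b (b (l 6) (a (a (a (b (l 6) (b (l 6) (c (l 16672904) (l 16670416)))) (l 6)) (l 6)) (l 6))) (b (a (c (b (a (c (l 16604472) (l 16623720)) (c (l 16665648) (l 16664200))) (a (l 16598392) (a (l 16586720) (l 16634896)))) (a (c (l 16554376) (l 16594080)) (c (l 16581368) (l 16621544)))) (a (c (c (l 16616008) (l 16635288)) (c (l 16654544) (l 16652800))) (l 6))) (a (c (a (l 16497616) (c (b (l 16588760) (l 16536560)) (l 16495144))) (a (l 16510376) (c (l 16533864) (l 16551560)))) (c (a (a (b (l 16602896)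 (l 16562824)) (l 16564744)) (c (l 16590496) (l 16587656))) (a (c (l 16557512) (l 16575616)) (a (l 16581832) (l 16564304)))))))), by decide +kernel⟩

def k4_pm_011 : ∃ t, chk3 f_pm_011 t 10 29 1 = true :=
  ⟨(c (a (b (a (a (l 16288904) (l 16294328)) (b (l 16367688) (l 16271520))) (a (l 16126232) (b (l 16173864) (l 16085312)))) (b (b (c (a (l 16430504) (a (l 16402352) (b (l 16528672) (l 16483432)))) (a (l 16424824) (a (l 16439792) (l 16437944)))) (a (l 16229048) (a (l 16358160) (c (l 16352664) (l 16388440))))) (b (a (l 16196248) (c (l 16242560) (l 16233464))) (a (b (l 16110608) (l 16064328)) (b (l 16132848) (a (l 16066576) (l 16071616))))))) (a (b (a (l 16274312) (c (l 16307632) (l 16299592))) (a (l 16103304) (b (l 16152664) (l 16060944)))) (b (a (c (l 16276016) (l 16332000)) (a (b (c (l 16477176) (l 16472552)) (l 16344264)) (b (c (l 16496600) (l 16492288)) (c (l 16382184) (l 16375848))))) (b (a (l 16176032) (l 16135688)) (a (l 16064904) (b (l 16110376) (c (l 16051536) (l 16038936)))))))), by decide +kernel⟩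

def k5_pm_011 : ∃ t, chk3 f_pm_011 t 22 14 1 = true :=
  ⟨(b (b (l 6) (b (l 6) (a (c (a (c (b (l 16624456) (l 16577664)) (l 16556200)) (a (c (l 16592688) (l 16611000)) (l 6))) (c (a (l 16595304) (l 16571696)) (a (l 16592424) (l 16610968)))) (l 6)))) (b (a (c (b (a (c (l 16506704) (l 16502376)) (c (l 16491392) (l 16507992))) (a (b (l 16432568) (a (l 16381936) (l 16380928))) (c (l 16404232) (l 16398032)))) (b (c (a (l 16497992) (l 16503560)) (l 16453360)) (a (c (l 16396344) (l 16390216)) (c (l 16391744) (l 16385376))))) (c (a (b (c (b (l 16555816) (l 16495544)) (b (l 16552088) (l 16490776))) (c (l 16403992) (l 16397640))) (b (b (l 6) (c (l 16513616) (l 16509080))) (c (b (l 16445680) (l 16377152)) (l 16342016)))) (a (c (b (l 16496008) (l 16391208)) (b (l 16512616) (l 16384688))) (b (c (l 16476272) (l 16535128)) (c (l 16398520) (l 16392024)))))) (a (c (c (b (a (l 16263048) (b (l 16322216) (l 16263064))) (a (l 16129584) (l 16151816))) (b (a (l 16275784) (l 16262432)) (a (l 16118384) (l 16141072)))) (b (a (c (l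 16267440) (l 16258984)) (c (l 16275144) (l 16266768))) (a (l 16101272) (c (l 16130184) (l 16119144))))) (c (b (a (c (l 16280416) (l 16271904)) (c (l 16272992) (l 16264208))) (a (b (l 16181496) (a (l 16119128) (l 16110328))) (c (l 16132224) (l 16120912)))) (b (c (a (l 16263288) (l 16255312)) (l 16249408)) (a (c (l 16130032) (l 16118928)) (c (l 16109448) (l 16097832)))))))), by decide +kernel⟩

def k6_pm_011 : ∃ t, chk3 f_pm_011 t 23 14 1 = true :=
  ⟨(b (l 6) (b (a (b (a (a (b (l 6) (b (l 6) (c (l 16512592) (l 16503352)))) (l 6)) (l 6)) (c (b (a (c (l 16465280) (l 16459832)) (c (a (l 16486336) (l 6)) (l 16426728))) (a (c (l 16388992) (l 16382184)) (c (l 16410040) (l 16403544)))) (a (c (l 16372688) (l 16408336)) (c (b (l 16484600) (l 16396968)) (l 16392768))))) (a (b (l 6) (b (l 6) (c (c (a (l 16432576) (l 16451064)) (a (l 16426448) (l 16445256))) (c (l 16429400) (l 16423264))))) (l 6))) (a (c (b (a (c (b (l 16312008) (l 16234304)) (l 16201184)) (c (b (l 16324648) (l 16238432)) (b (l 16316616) (l 16228840))))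 (a (c (l 16116096) (l 16104368)) (c (b (l 16151384) (l 16063432)) (b (l 16140200) (l 16050632))))) (b (a (c (l 16255096) (l 16245976)) (c (l 16242648) (l 16254568))) (c (a (l 16092480) (l 16083080)) (a (l 16080432) (l 16070760))))) (c (b (b (a (c (a (l 16340488) (l 16354320)) (l 16339352)) (c (a (l 16370968) (l 16411584)) (a (l 16363696) (l 16383680)))) (a (c (l 16251696) (l 16242280)) (c (a (l 16268368) (l 16282944)) (a (l 16259224) (l 16274048))))) (a (c (b (l 16155408) (l 16058088)) (b (l 16144232) (l 16045120))) (c (b (l 16190032) (l 16061704)) (b (l 16158088) (l 16048752))))) (b (a (c (b (l 16331576) (l 16232744)) (l 16273184)) (c (b (l 16345088) (l 16257088)) (l 16177240))) (a (c (l 16061264) (l 16069840)) (c (b (l 16146976) (l 16035632)) (l 16078792)))))))), by decide +kernel⟩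

def k7_pm_011 : ∃ t, chk3 f_pm_011 t 10 30 1 = true :=
  ⟨(b (c (a (l 15903792) (c (l 15911384) (l 15896208))) (a (l 15873040) (c (l 15880832) (l 15865248)))) (c (b (a (l 15695040) (l 15695040)) (a (l 15592112) (c (l 15602816) (l 15581712)))) (a (l 15603512) (b (l 15656952) (l 15550288))))), by decide +kernel⟩

def k8_pm_011 : ∃ t, chk3 f_pm_011 t 11 60 1 = true :=
  ⟨(a (b (a (c (b (a (l 16009656) (l 16051464)) (l 15938816)) (b (c (l 15993904) (l 15980304)) (l 15909288))) (c (b (a (b (l 16049304) (a (l 15994984) (l 15997800))) (l 16003792)) (a (l 15939800) (b (a (l 15946504) (l 15921864)) (l 15905032)))) (b (a (b (l 16023824) (l 15969144)) (l 15976392)) (a (l 15910320) (a (l 15902696) (l 15879472)))))) (c (a (l 15834968) (c (l 15839880) (l 15823448))) (c (l 15724296) (l 15791328)))) (b (a (c (b (a (l 15975000) (l 15984112)) (a (b (l 15893584) (a (l 15864592) (l 15836616))) (a (b (l 15871832) (l 15813824)) (l 15828888)))) (b (c (l 15941024) (l 15926176)) (a (b (l 15861848) (c (l 15827272) (l 15810440)))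 (c (l 15808544) (l 15791224))))) (c (a (c (b (l 15945184) (l 15819688)) (b (l 15930136) (l 15802328))) (c (b (l 15938632) (l 15802832)) (b (l 15923400) (l 15785088)))) (a (c (l 15849576) (l 15832928)) (c (l 15732440) (l 15820376))))) (a (c (a (b (l 15817712) (l 15776056)) (a (l 15751664) (b (c (l 15749856) (l 15731312)) (l 15697888)))) (a (l 15739872) (b (c (l 15729784) (l 15711104)) (l 15676408)))) (b (c (a (b (a (b (l 15738440) (l 15690672)) (l 15707952)) (c (l 15689224) (l 15669472))) (b (l 15690376) (a (b (l 15623280) (l 15601328)) (c (l 15624176) (l 15603096))))) (a (b (a (c (l 15695856) (l 15676400)) (l 15668872)) (c (l 15649464) (l 15629184))) (b (l 15650560) (c (b (l 15607000) (l 15537160)) (l 15571824))))) (c (a (l 15647280) (c (l 15592048) (l 15570464))) (a (l 15606272) (c (l 15548592) (l 15526416)))))))), by decide +kernel⟩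

def k9_pm_011 : ∃ t, chk3 f_pm_011 t 11 61 1 = true :=
  ⟨(c (a (b (l 15695040) (c (l 15602816) (l 15581712))) (b (a (a (l 15731864) (b (l 15677016) (l 15635104))) (c (l 15567560) (l 15545816))) (a (c (b (l 15588048) (l 15592744)) (l 15578208)) (b (l 15514240) (c (a (l 15567712) (l 15504080)) (l 15512296)))))) (a (b (l 15656952) (l 15550288)) (a (b (a (l 15651608) (l 15615040)) (c (l 15557280) (l 15536056))) (b (c (l 15523776) (l 15501432)) (c (l 15484296) (l 15461512)))))), by decide +kernel⟩

def k10_pm_011 : ∃ t, chk3 f_pm_011 t 5 31 1 = true :=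
  ⟨(c (b (a (c (b (b (c (l 15606032) (l 15567456)) (c (l 15596848) (l 15571064))) (a (l 15531080) (l 15531080))) (b (l 15540440) (c (b (l 15535600) (l 15517776)) (a (l 15505120) (l 15505120))))) (b (c (a (c (b (l 15606032) (l 15596848)) (b (l 15567456) (l 15571064))) (a (c (b (l 15606032) (l 15596848)) (b (l 15567456) (l 15571064))) (b (c (b (a (l 15588320) (l 15533488)) (a (l 15604584) (l 15560720))) (a (l 15539400) (l 15512008))) (c (a (l 15596768) (l 15571352)) (a (l 15570984) (b (l 15532680) (l 15553536))))))) (a (l 15540440) (a (l 15540440) (a (l 15535032) (l 15498000))))) (c (a (l 15531080) (b (c (l 15551720) (a (l 15557728) (l 15553408))) (l 15515424))) (c (b (a (l 15535600) (b (a (l 15530496) (l 15525656)) (l 15492848))) (l 15517760)) (a (l 15505120) (b (l 15501920) (l 15499520))))))) (b (a (c (l 15472336) (a (l 15460560) (l 15460560))) (c (a (l 15472336) (l 15472336)) (b (a (l 15472920) (c (l 15476640) (l 15473048))) (l 15423184)))) (a (a (l 15424288) (l 15424288)) (a (l 15424288) (c (l 15435800)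 (l 15412616)))))) (b (b (a (l 15507600) (a (l 15507600) (a (l 15507600) (a (l 15502016) (l 15463776))))) (a (c (l 15477064) (l 15454328)) (a (l 15465944) (c (l 15474840) (l 15452056))))) (c (b (a (c (b (l 15462816) (l 15435496)) (b (l 15439944) (l 15425288))) (c (b (a (l 15462816) (c (l 15469808) (l 15457888))) (l 15435496)) (b (l 15439944) (a (l 15425288) (l 15425288))))) (a (a (l 15392376) (l 15392376)) (b (c (l 15405376) (l 15398992)) (l 15380480)))) (b (a (l 15411984) (a (l 15411984) (l 15411984))) (a (c (b (l 15384200) (l 15364136)) (b (l 15373864) (l 15308648))) (b (c (a (l 15384200) (l 15384200)) (l 15373864)) (c (l 15364136) (c (l 15354712) (l 15347072))))))))), by decide +kernel⟩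

def k11_pm_011 : ∃ t, chk3 f_pm_011 t 6 2 1 = true :=
  ⟨(l 4), by decide +kernel⟩

def k12_pm_011 : ∃ t, chk3 f_pm_011 t 6 6 1 = true :=
  ⟨(l 4), by decide +kernel⟩

def k13_pm_011 : ∃ t, chk3 f_pm_011 t 12 28 1 = true :=
  ⟨(l 4), by decide +kernel⟩

def k14_pm_011 : ∃ t, chk3 f_pm_011 t 12 58 1 = true :=
  ⟨(l 6), by decide +kernel⟩

def k15_pm_011 : ∃ t, chk3 f_pm_011 t 24 59 1 = true :=
  ⟨(a (b (b (a (a (c (c (b (l 6) (l 16385400)) (l 16364952)) (c (l 16400280) (l 16393568))) (l 6)) (l 6)) (a (c (c (a (l 16300512) (b (l 16351056) (l 16291560))) (a (l 16291920) (l 16313032))) (c (a (l 16283224) (l 16304696)) (l 16284856))) (a (b (l 6) (c (c (l 16314256) (l 16305896)) (c (l 16297424) (l 16288840)))) (l 6)))) (c (a (c (b (a (l 16186408) (l 16201632)) (a (l 16071040) (l 16080680))) (b (a (l 16175728) (l 16191216)) (a (l 16058232) (l 16068032)))) (c (a (b (b (l 16251584) (l 16188584)) (l 16093280)) (b (b (l 16274840) (l 16208848)) (b (l 16142496) (l 16075680)))) (b (a (l 16209936) (b (l 16265752) (l 16198552)))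 (a (l 16080856) (l 16117856))))) (a (c (b (l 16172352) (l 16049832)) (l 15973064)) (c (b (a (l 16199720) (l 16222264)) (a (l 16068272) (l 16084592))) (b (l 16200336) (l 16063352)))))) (b (l 6) (a (b (c (b (a (c (l 16322704) (l 16293128)) (l 6)) (c (a (l 16232640) (c (l 16262504) (l 16257848))) (a (l 16222768) (l 16250808)))) (c (a (l 16248528) (l 16215816)) (l 16190936))) (c (c (a (b (l 16163168) (l 16093208)) (b (l 16187464) (l 16114240))) (a (b (l 16152024) (l 16080768)) (b (l 16176760) (l 16102192)))) (c (a (l 16104384) (l 16127880)) (l 16103704)))) (b (l 6) (a (c (b (c (c (l 16218160) (l 16213096)) (l 16205432)) (c (c (l 16141896) (l 16136136)) (l 16127416))) (c (b (l 16195112) (l 16115672)) (l 16144136))) (b (l 6) (c (a (c (l 16160200) (l 16148992)) (a (c (a (l 16169720) (a (l 16172680) (l 16176744))) (a (l 16158688) (a (l 16161704) (l 16165840)))) (c (l 16190160) (l 16179504)))) (a (c (l 16137640) (l 16126136)) (c (a (l 16108144) (l 16168712)) (a (l 16138808) (l 16157776))))))))))), by decide +kernel⟩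

def k16_pm_011 : ∃ t, chk3 f_pm_011 t 25 59 1 = true :=
  ⟨(a (b (l 6) (b (l 6) (a (a (a (a (b (l 6) (c (c (l 16211416) (l 16201160)) (c (l 16190768) (l 16180232)))) (l 6)) (l 6)) (l 6)) (l 6)))) (l 6)), by decide +kernel⟩

def k17_pm_011 : ∃ t, chk3 f_pm_011 t 48 60 1 = true :=
  ⟨(b (c (a (b (c (l 15963744) (l 15926256)) (c (l 15794592) (l 15776664))) (c (b (a (l 15950544) (l 15960200)) (a (l 15794832) (l 15798312))) (b (a (l 15935496) (l 15945320)) (a (l 15776896) (l 15780440))))) (a (c (b (l 15910848) (l 15758504)) (l 15817400)) (c (b (l 15924808) (l 15760120)) (l 15678488)))) (b (c (a (c (l 15646216) (l 15625528)) (c (a (l 15637488) (l 15634712)) (a (l 15616624) (l 15613792)))) (c (a (l 15604560) (l 15593664)) (l 15555408))) (c (a (b (b (a (c (l 15539888) (l 15517608)) (l 15536256)) (b (a (l 15533960) (a (a (l 15534480) (l 15508488)) (l 15504480))) (c (l 15504120) (l 15502152)))) (l 15499112)) (b (c (l 15493480) (l 15491280)) (a (b (c (b (a (l 15475696) (l 15465704)) (a (l 15468080) (l 15452360))) (b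 (l 15426104) (l 15416184))) (l 15440016)) (b (a (c (a (l 15451784) (l 15449872)) (l 15405088)) (l 15434408)) (b (c (a (l 15429048) (b (l 15420256) (l 15411576))) (c (l 15383872) (l 15371352))) (c (l 15414832) (l 15389792))))))) (a (b (c (a (b (l 15516000) (l 15497496)) (b (l 15502144) (l 15467520))) (a (l 15485952) (l 15460448))) (l 15452136)) (b (l 15496520) (c (b (a (l 15419056) (l 15398752)) (a (l 15403224) (l 15370528))) (a (l 15389048) (b (l 15373664) (l 15344920))))))))), by decide +kernel⟩

def k18_pm_011 : ∃ t, chk3 f_pm_011 t 98 60 1 = true :=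
  ⟨(c (b (c (b (a (b (l 16014896) (l 15931200)) (b (l 16032656) (l 15945648))) (a (l 15825648) (b (l 15858168) (l 15770224)))) (a (b (b (l 16001024) (l 15915776)) (l 15786920)) (b (b (l 16019104) (l 15930496)) (b (l 15841400) (l 15751824))))) (b (c (a (l 15634576) (b (l 15681800) (l 15592904))) (a (l 15613656) (l 15616408))) (a (b (c (l 15505944) (l 15482608)) (a (b (l 15430600) (b (l 15398136) (c (b (l 15394488) (l 15408552)) (b (l 15369056) (l 15362024))))) (l 15394832))) (c (l 15468992) (l 15434288))))) (b (c (b (a (l 15943488) (l 15960184)) (a (l 15768928) (l 15778728))) (b (l 15936440) (l 15755208))) (b (c (l 15593432) (l 15571960)) (a (c (b (l 15458968) (a (l 15370296) (l 15367512))) (l 15324024)) (c (l 15409752) (l 15384880)))))), by decide +kernel⟩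

def k19_pm_011 : ∃ t, chk3 f_pm_011 t 99 60 2 = true :=
  ⟨(b (a (c (b (b (l 16074984) (l 15963568)) (b (l 15872640) (l 15781208))) (b (b (l 16040856) (l 15948752)) (b (l 15856144) (l 15763024)))) (a (c (b (b (l 16072560) (l 15979448)) (b (l 15885840) (l 15791704))) (b (b (l 16059736) (l 15964928)) (c (l 15825888) (l 15817280)))) (c (a (b (a (b (l 16080952) (l 15986712)) (a (b (l 16083568) (l 15988992)) (b (l 16087696) (l 15993176)))) (a (b (l 15891952) (l 15796680)) (b (a (l 15893896) (l 15898128)) (l 15810904)))) (b (b (l 16101696) (l 16007760)) (b (l 15913312) (l 15818344)))) (b (a (c (a (l 16023648) (a (l 16026136) (l 16030344))) (a (l 16016840) (l 15958560))) (b (l 16089416) (l 15993768))) (a (a (l 15827240) (a (l 15839528) (l 15833384))) (b (l 15897584) (l 15800864))))))) (a (b (c (b (l 15689288) (l 15596856)) (b (l 15669392) (l 15575240))) (c (a (l 15457216) (l 15457240)) (c (l 15438984) (l 15426784)))) (a (b (c (b (l 15697064) (l 15601896)) (l 15649752)) (c (c (l 15464032) (l 15452008)) (l 15433816)))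 (c (a (b (a (l 15663136) (b (l 15704296) (l 15607648))) (a (l 15458912) (b (l 15489488) (l 15391760)))) (b (b (l 15722856) (l 15626840)) (b (l 15530288) (l 15433200)))) (a (b (a (l 15632080) (c (l 15640568) (l 15630248))) (b (l 15485816) (l 15386424))) (b (c (l 15659704) (l 15649568)) (l 15457928))))))), by decide +kernel⟩

def k20_pm_011 : ∃ t, chk3 f_pm_011 t 99 60 3 = true :=
  ⟨(b (a (c (b (l 15980552) (l 15791936)) (l 15744048)) (a (c (b (l 15998416) (l 15804240)) (l 15843312)) (c (a (b (c (l 15970376) (l 16005440)) (c (l 15816344) (l 15807688))) (b (l 16028224) (l 15832328))) (a (l 15726776) (l 15851832))))) (a (c (b (l 15601208) (l 15408328)) (l 15481376)) (a (c (b (l 15607880) (l 15409288)) (l 15485280)) (c (a (b (l 15612928) (l 15411576)) (b (l 15634224) (l 15433872))) (a (l 15489032) (l 15511248)))))), by decide +kernel⟩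

def k21_pm_011 : ∃ t, chk3 f_pm_011 t 48 122 1 = true :=
  ⟨(c (c (a (l 15463632) (l 15392328)) (a (l 15439728) (l 15367000))) (c (l 15378624) (l 15353336))), by decide +kernel⟩

def k22_pm_011 : ∃ t, chk3 f_pm_011 t 98 122 2 = true :=
  ⟨(b (b (a (b (b (a (l 15369320) (a (c (l 15369912) (l 15344024)) (b (l 15354464) (c (l 15359296) (l 15333200))))) (l 15355080)) (l 15348088)) (c (b (b (l 15357152) (a (b (a (l 15347328) (l 15341336)) (l 15340064)) (a (b (l 15339424) (l 15328688)) (l 15331992)))) (a (l 15333488) (b (b (a (l 15323488) (c (l 15322936) (l 15309576))) (l 15316168)) (l 15312640)))) (b (a (b (l 15332584) (b (a (l 15321016) (l 15314912)) (l 15313616))) (l 15296216)) (l 15278736)))) (c (l 15328840) (l 15302224))) (c (l 15300992) (l 15273936))), by decide +kernel⟩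

def k23_pm_011 : ∃ t, chk3 f_pm_011 t 99 122 2 = true :=
  ⟨(b (a (b (b (c (l 15340096) (l 15313656)) (a (a (b (b (l 15299520) (c (c (l 15310720) (l 15297248)) (l 15276864))) (l 15285056)) (b (c (l 15305256) (l 15278160)) (c (c (l 15297456) (l 15283856)) (l 15263288)))) (a (b (l 15311488) (c (b (l 15286232) (l 15279752)) (b (l 15258784) (l 15252184)))) (c (a (b (l 15303080) (b (l 15285176) (a (l 15274584) (l 15273272)))) (l 15290168)) (l 15241840))))) (c (a (l 15282440) (l 15264448)) (l 15246304))) (b (a (c (l 15313224) (l 15286296)) (a (c (a (l 15312328) (l 15293488)) (l 15286464)) (c (l 15335568) (l 15309080)))) (a (b (b (c (b (a (a (a (l 15262256) (l 15260592)) (l 15259024)) (l 15257952)) (a (l 15255560) (b (a (l 15250096) (l 15248392)) (l 15246200)))) (b (a (a (l 15233728) (l 15231064)) (l 15229984)) (a (l 15227544) (a (l 15221224) (l 15238912))))) (c (l 15247192) (l 15219024))) (c (l 15240264) (l 15211976))) (b (b (a (a (c (l 15250656) (l 15222544)) (c (l 15252800) (l 15224736))) (c (l 15274320) (l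 15246680))) (a (a (c (l 15236040) (l 15207664)) (c (a (b (b (l 15235200) (l 15232456)) (l 15230720)) (b (c (l 15244560) (l 15230480)) (l 15233288))) (a (b (l 15205768) (l 15202248)) (b (l 15209176) (l 15204864))))) (c (b (c (l 15262680) (l 15248776)) (c (b (l 15256288) (l 15254008)) (l 15241688))) (b (l 15227728) (l 15241520))))) (a (a (c (l 15228448) (l 15199936)) (c (a (l 15224952) (l 15227496)) (a (l 15196376) (l 15198976)))) (c (l 15241672) (l 15213424))))))) (a (c (l 15245288) (l 15217152)) (a (c (l 15217104) (l 15188424)) (a (a (c (l 15205288) (l 15176392)) (c (a (l 15201792) (l 15204256)) (a (l 15172832) (l 15175336)))) (c (l 15218056) (l 15189408)))))), by decide +kernel⟩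

def k24_pm_011 : ∃ t, chk3 f_pm_011 t 49 122 3 = true :=
  ⟨(a (b (b (b (a (c (l 15321784) (l 15295280)) (c (a (l 15298384) (l 15290456)) (l 15267808))) (c (l 15292128) (l 15265080))) (l 15261592)) (l 15232616)) (b (a (b (b (l 15273288) (c (b (l 15250096) (a (l 15240440) (l 15205144))) (l 15215376))) (l 15204064)) (b (a (l 15245176) (c (l 15291696) (l 15243296))) (b (a (c (b (l 15179232) (l 15190488)) (l 15168392)) (a (c (b (l 15174080) (l 15157704)) (l 15157976)) (c (b (l 15218672) (l 15175184)) (l 15177992)))) (a (l 15168784) (a (c (l 15148928) (l 15140592)) (l 15170288)))))) (a (l 15174184) (a (l 15144632) (a (c (l 15124960) (l 15116224)) (l 15145664)))))), by decide +kernel⟩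

def k25_pm_011 : ∃ t, chk3 f_pm_011 t 24 123 1 = true :=
  ⟨(c (a (c (b (l 15386192) (c (l 15406080) (l 15391624))) (l 15366896)) (a (c (b (l 15277592) (c (l 15298120) (l 15282568))) (l 15256144)) (a (c (b (l 15221944) (b (l 15230304) (b (l 15235584) (l 15219656)))) (l 15178440)) (a (c (b (l 15193776) (c (b (l 15209328) (c (c (l 15227104) (l 15218320)) (l 15212560))) (l 15198408))) (b (l 15164736) (l 15176784))) (c (a (b (a (l 15181976) (a (b (l 15176880) (l 15180112)) (l 15180800))) (b (l 15189168) (c (c (a (c (l 15215416) (l 15206600)) (c (b (l 15206592) (l 15217400)) (l 15204192))) (l 15199592)) (l 15188792)))) (b (l 15194000) (c (b (l 15209000) (c (c (l 15226400) (l 15217616)) (l 15211864))) (l 15197896)))) (b (a (a (l 15152712) (a (l 15149152) (l 15151504))) (l 15164976)) (a (l 15163536) (l 15176264)))))))) (a (c (l 15341504) (l 15315752)) (a (c (l 15228520) (l 15200512)) (a (c (l 15170672) (l 15141536)) (a (c (l 15141416) (l 15111720)) (a (c (c (l 15114392) (l 15099520)) (l 15097968)) (c (l 15141280)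 (l 15111584)))))))), by decide +kernel⟩

def k26_pm_011 : ∃ t, chk3 f_pm_011 t 50 120 1 = true :=
  ⟨(b (a (c (a (b (c (a (c (l 16137800) (l 16132008)) (c (l 16181000) (l 16175616))) (a (l 16123248) (l 16167464))) (c (a (c (l 16045720) (l 16039088)) (l 16098248)) (a (l 16029064) (l 16075264)))) (b (a (c (c (l 16223168) (l 16218168)) (l 16210608)) (l 6)) (c (a (l 16132120) (l 16175424)) (a (l 16120448) (l 16164568))))) (c (a (a (l 16000504) (l 16025592)) (a (l 16070576) (l 16093480))) (a (l 16032208) (l 16102864)))) (b (l 6) (a (c (a (c (l 16217656) (l 16207584)) (c (l 16258744) (l 16249440))) (c (l 16155920) (l 16208896))) (l 6)))) (c (b (a (c (a (a (l 15949400) (l 15996720)) (a (l 16043088) (l 16088448))) (a (a (l 15934352) (l 15982560)) (a (l 16029792) (l 16076008)))) (c (a (a (l 16132776) (l 16176016)) (a (l 16218136) (l 16259080))) (a (a (l 16121168) (l 16165216)) (a (l 16208120) (l 16249832))))) (a (c (a (a (l 15855888) (l 15905184)) (a (l 15953568) (l 16001000))) (a (a (l 15839112) (l 15889336)) (a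 (l 15938632) (l 15986960)))) (c (a (a (l 16047440) (l 16092848)) (a (l 16137176) (l 16180384))) (a (a (l 16034272) (l 16080536)) (a (l 16125696) (l 16169712)))))) (c (b (a (a (l 15943768) (l 16039984)) (a (l 16111000) (l 16156448))) (a (a (l 15847808) (l 15948240)) (a (l 16044632) (l 16136632)))) (a (a (l 15879840) (l 15980000)) (a (l 16054968) (l 16104392)))))), by decide +kernel⟩

def k27_pm_011 : ∃ t, chk3 f_pm_011 t 50 121 1 = true :=
  ⟨(c (a (b (c (a (b (a (l 15761856) (l 15813144)) (a (l 15667312) (l 15720592))) (b (a (l 15863560) (l 15913064)) (a (l 15773056) (l 15824656)))) (a (c (b (l 15774104) (l 15679256)) (b (l 15765040) (l 15669312))) (c (b (l 15876360) (l 15785664)) (b (l 15868248) (l 15776728))))) (c (a (b (a (l 15572240) (l 15627528)) (a (l 15476640) (l 15533960))) (b (a (l 15682048) (l 15735760)) (a (l 15590544) (l 15646376)))) (a (b (a (l 15550208) (l 15606560)) (a (l 15452824) (l 15511240))) (b (a (l 15662120) (l 15716848)) (a (l 15568912) (l 15625808)))))) (a (b (c (b (a (l 15961632)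 (l 16009216)) (a (l 15875368) (l 15925136))) (c (b (l 15974856) (l 15888512)) (b (l 15967672) (l 15880544)))) (c (b (a (l 15788624) (l 15840600)) (a (l 15701408) (l 15755600))) (c (b (l 15801688) (l 15714384)) (b (l 15792928) (l 15704832))))) (b (c (b (a (l 16055776) (l 16101264)) (a (l 15973936) (l 16021720))) (c (b (l 16069280) (l 15987480)) (b (l 16062976) (l 15980440)))) (b (c (a (l 15891656) (l 15941744)) (a (l 15875712) (l 15926752))) (c (l 15835240) (l 15818280)))))) (a (a (c (b (c (l 15602672) (l 15697896)) (b (l 15556680) (l 15458536))) (b (l 15683312) (l 15484536))) (c (b (c (l 15688000) (l 15805200)) (b (l 15669904) (l 15576080))) (b (l 15792128) (l 15602112)))) (c (a (b (b (l 15956800) (l 15868488)) (b (l 15779680) (l 15690368))) (b (b (l 16053440) (l 15969792)) (b (l 15885688) (l 15801112)))) (a (b (l 15897112) (l 15716264)) (b (l 15997944) (l 15826688)))))), by decide +kernel⟩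

def k28_pm_011 : ∃ t, chk3 f_pm_011 t 51 60 1 = true :=
  ⟨(b (b (l 6) (a (a (c (b (a (c (l 16298808) (l 16290296)) (l 6)) (c (a (l 16222432) (l 16263256)) (a (l 16212544) (l 16254128)))) (c (a (l 16179128) (l 16199280)) (l 16169808))) (b (l 6) (a (c (c (l 16302816) (l 16294432)) (c (l 16285936) (l 16277336))) (l 6)))) (l 6))) (b (a (c (a (c (b (a (l 16145640) (l 16188856)) (a (l 16068448) (l 16114064))) (a (b (l 16134376) (l 16055784)) (b (l 16178400) (l 16102264)))) (c (a (b (l 16230864) (l 16158528)) (b (l 16271608) (l 16201784))) (a (b (l 16221192) (l 16147560)) (b (l 16262696) (l 16191632))))) (c (a (a (l 16082904) (l 16129000)) (a (l 16173872) (l 16196480))) (a (l 16073272) (l 16143688)))) (a (c (c (b (a (l 16311040) (l 16349104)) (a (l 16243792) (l 16284496))) (a (b (l 16302856) (l 16234424)) (b (l 16341632) (l 16275888)))) (c (b (l 16251584) (l 16246224)) (l 16187800))) (b (l 6) (c (c (a (l 16323840) (l 16361768)) (a (l 16315968) (l 16354592))) (c (l 16285904) (l 16320152)))))) (a (a (c (b (c (a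 (l 15990832) (l 16038864)) (a (l 15976768) (l 16025712))) (c (l 15938152) (l 15923152))) (c (b (l 15987584) (l 15907968)) (l 15933032))) (c (b (c (a (l 16085808) (l 16131600)) (a (l 16073536) (l 16120192))) (c (l 16037000) (l 16023872))) (c (b (l 16085024) (l 16010584)) (l 16034936)))) (c (a (c (b (a (l 16176200) (l 16219560)) (l 16131416)) (a (l 16068088) (l 16134600))) (c (a (l 16167392) (b (l 16302336) (l 16242608))) (a (l 16178848) (l 16200776)))) (c (a (b (l 16177592) (l 16108592)) (b (l 16264880) (l 16201584))) (a (l 16132016) (l 16181888))))))), by decide +kernel⟩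

def k29_pm_011 : ∃ t, chk3 f_pm_011 t 50 244 2 = true :=
  ⟨(b (a (c (a (a (l 15380512) (l 15439864)) (a (l 15498536) (l 15556496))) (a (a (l 15354888) (l 15415384)) (a (l 15475192) (l 15534264)))) (a (c (a (l 15613704) (l 15670136)) (l 15621416)) (c (l 15753216) (l 15734760)))) (a (b (a (c (b (l 15350592) (a (a (a (b (l 15279024) (b (l 15269872) (l 15265128))) (l 15288136)) (l 15311352)) (l 15357144))) (a (c (l 15287152) (l 15273560)) (l 15343176))) (c (l 15459088) (l 15435024))) (b (a (a (c (a (l 15267616) (b (a (a (l 15283656) (l 15311160)) (l 15300904)) (l 15288960))) (b (c (l 15240640) (l 15226816)) (l 15249976))) (c (a (b (l 15324040) (b (l 15315288) (l 15312072))) (l 15348600)) (b (l 15313000) (c (l 15287472) (l 15274104))))) (c (l 15424728) (l 15400016))) (a (c (b (a (l 15274696) (a (l 15309232) (a (l 15327352) (a (l 15336576) (l 15343168))))) (l 15295176)) (a (l 15245848) (l 15273480))) (a (c (b (a (l 15361520) (l 15392304)) (a (l 15375272) (c (l 15387144) (l 15374456)))) (a (b (l 15335600) (l 15328248))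 (l 15339792))) (l 15414616))))) (a (c (l 15544456) (l 15532744)) (c (l 15670752) (l 15650776))))), by decide +kernel⟩

def k30_pm_011 : ∃ t, chk3 f_pm_011 t 50 245 2 = true :=
  ⟨(a (a (c (l 15273816) (l 15246256)) (a (c (l 15327336) (l 15316856)) (b (b (b (a (c (b (c (l 15406720) (l 15394224)) (l 15395040)) (l 15352288)) (c (b (l 15430336) (c (l 15426624) (l 15414328))) (l 15379456))) (c (l 15402232) (l 15377136))) (l 15381096)) (l 15364000)))) (b (a (a (b (b (l 15447760) (c (b (a (l 15440736) (l 15468520)) (l 15449320)) (c (l 15413744) (l 15401600)))) (l 15428544)) (b (c (l 15497848) (l 15495968)) (b (b (c (a (l 15481752) (l 15507928)) (l 15451048)) (l 15457776)) (l 15473504)))) (b (c (l 15608640) (l 15587520)) (a (b (c (l 15526320) (l 15525016)) (c (a (l 15521400) (l 15546968)) (l 15491448))) (b (l 15596704) (c (l 15566376) (l 15565856)))))) (a (c (l 15446320) (l 15422152)) (c (l 15542448) (l 15520144))))), by decide +kernel⟩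

def k31_pm_011 : ∃ t, chk3 f_pm_011 t 51 122 2 = true :=
  ⟨(a (b (b (c (a (l 15860920) (l 15964784)) (a (l 15844512) (l 15950352))) (c (a (l 15783264) (l 15892176)) (a (l 15765448) (l 15876440)))) (b (a (c (l 15705192) (l 15685944)) (c (l 15819184) (l 15802120))) (a (b (a (b (c (l 15607192) (l 15607480)) (l 15607328)) (b (l 15676040) (c (l 15648616) (l 15649720)))) (l 15621152)) (b (a (l 15725248) (l 15784368)) (a (c (l 15686888) (l 15688760)) (b (l 15756624) (l 15723536))))))) (a (b (c (b (l 16064456) (l 15997136)) (b (l 16051920) (l 15983400))) (b (c (l 15929472) (l 15914520)) (a (b (l 15842080) (b (l 15815768) (l 15798224))) (l 15881960)))) (b (c (b (l 16159552) (l 16097792)) (b (l 16148816) (l 16085968))) (c (b (l 16035704) (l 15973304)) (b (l 16022784) (l 15959280)))))), by decide +kernel⟩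

def k32_pm_011 : ∃ t, chk3 f_pm_011 t 25 123 2 = true :=
  ⟨(a (c (b (a (a (l 15226368) (l 15313448)) (a (l 15402752) (l 15515336))) (b (a (l 15295104) (l 15467424)) (b (a (l 15298424) (l 15467576)) (c (c (a (l 15315872) (l 15481672)) (l 15386008)) (l 15376600))))) (a (b (a (l 15219360) (l 15308160)) (l 15270240)) (b (a (l 15399208) (l 15492600)) (l 15443800)))) (b (a (a (c (l 15609352) (l 15588440)) (c (l 15705872) (l 15686824))) (b (a (b (a (l 15783200) (b (l 15840552) (l 15829944))) (l 15796800)) (b (a (b (l 15898040) (l 15883440)) (l 15947232)) (a (l 15874160) (l 15928224)))) (a (l 15790544) (l 15892096)))) (c (b (a (l 15648656) (l 15839544)) (c (a (a (l 15607008) (l 15697144)) (c (l 15756384) (l 15832000))) (a (l 15639040) (l 15825840)))) (a (l 15626224) (l 15818272))))), by decide +kernel⟩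

def k33_pm_011 : ∃ t, chk3 f_pm_011 t 50 61 3 = true :=
  ⟨(b (b (a (b (c (a (l 15359832) (l 15481720)) (l 15396560)) (a (b (c (a (l 15253000) (l 15317032)) (l 15257400)) (c (b (a (l 15225472) (l 15280272)) (l 15243656)) (l 15222848))) (a (b (l 15366960) (b (l 15330544) (c (l 15320800) (l 15294408)))) (l 15405688)))) (c (a (b (l 15600568) (l 15510248)) (b (l 15716064) (l 15630544))) (a (l 15533368) (l 15653504)))) (b (a (a (l 15214672) (c (b (b (a (l 15309528) (l 15362168)) (l 15327696)) (l 15318744)) (l 15302680))) (a (b (c (b (l 15452808) (a (l 15404208) (l 15461776))) (b (l 15428960) (l 15409000))) (c (l 15419032) (l 15394576))) (b (c (l 15566128) (l 15544448)) (c (a (b (l 15502448) (l 15489624)) (l 15553672)) (a (l 15473872) (l 15531800)))))) (a (c (l 15254504) (l 15226928)) (c (a (l 15397672) (l 15497552)) (l 15424544))))) (a (c (b (l 15236000) (l 15242936)) (l 15211640)) (c (a (l 15374552) (l 15488456)) (l 15396480)))), by decide +kernel⟩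

def k34_pm_011 : ∃ t, chk3 f_pm_011 t 51 61 3 = true :=
  ⟨(b (a (b (c (a (b (l 15827904) (l 15747400)) (b (l 15935752) (l 15860504))) (a (l 15770032) (l 15882592))) (b (c (a (l 15666456) (l 15784848)) (l 15707480)) (a (b (c (a (l 15582552) (b (l 15646448) (l 15629608))) (l 15527296)) (l 15579480)) (b (c (l 15727240) (l 15708712)) (c (a (l 15669424) (l 15723632)) (l 15678424)))))) (a (b (c (b (l 16039232) (l 15969496)) (l 15990840)) (b (c (l 15899392) (l 15884072)) (c (a (l 15755984) (l 15858344)) (l 15810792)))) (c (b (b (l 16137960) (l 16074000)) (l 15914424)) (b (l 16094368) (l 15963536))))) (a (c (b (a (l 15567264) (l 15667544)) (l 15605880)) (b (l 15596568) (l 15585264))) (b (b (a (c (b (a (l 15756840) (l 15811400)) (l 15770896)) (l 15762528)) (b (c (a (l 15866832) (l 15925600)) (l 15880584)) (c (l 15879336) (l 15863832)))) (c (l 15816400) (l 15799744))) (c (l 15801632) (l 15784784))))), by decide +kernel⟩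

def k35_pm_011 : ∃ t, chk3 f_pm_011 t 24 124 2 = true :=
  ⟨(c (a (c (b (c (l 15414672) (l 15428544)) (l 15471520)) (b (l 15406608) (c (l 15432480) (l 15428016)))) (b (c (a (c (l 15238920) (l 15320392)) (a (b (l 15224048) (c (l 15309184) (l 15275168))) (a (c (b (l 15249320) (l 15281280)) (l 15184496)) (b (a (c (a (l 15237624) (l 15235184)) (b (l 15204984) (c (l 15216496) (l 15206608)))) (c (l 15248256) (l 15221632))) (a (a (c (l 15269592) (l 15235376)) (c (b (l 15262456) (l 15274832)) (l 15232880))) (c (l 15279840) (l 15245680))))))) (a (l 15297624) (a (l 15220816) (a (b (l 15208792) (l 15217448)) (b (a (l 15195720) (l 15207720)) (a (a (l 15205616) (a (l 15202104) (l 15204096))) (l 15215992))))))) (c (a (l 15363728) (a (l 15287520) (a (b (c (l 15291288) (l 15278064)) (l 15284856)) (b (c (a (l 15278336) (l 15289464)) (a (b (l 15260888) (l 15272560)) (l 15276232))) (a (l 15271856) (l 15282648)))))) (b (a (l 15319392) (a (l 15263584) (a (l 15214368) (c (l 15216840) (l 15192776))))) (a (l 15344648) (a (l 15267888)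 (a (c (l 15274960) (l 15243768)) (c (l 15246320) (l 15215096))))))))) (a (l 15394320) (a (l 15283680) (a (l 15227016) (a (l 15177376) (a (b (l 15177608) (l 15171464)) (l 15175704))))))), by decide +kernel⟩

def k36_pm_011 : ∃ t, chk3 f_pm_011 t 24 125 2 = true :=
  ⟨(c (c (a (l 15458840) (a (l 15353416) (a (l 15298240) (a (l 15270320) (a (l 15257288) (l 15267144)))))) (a (b (l 15465568) (l 15454856)) (b (a (l 15356720) (a (l 15279984) (a (c (l 15277976) (l 15251592)) (b (c (l 15274648) (l 15243072)) (l 15267704))))) (a (l 15348808) (b (l 15257840) (l 15252552)))))) (b (c (a (c (l 15450880) (l 15428600)) (a (c (l 15341184) (l 15318328)) (a (b (l 15262248) (l 15284896)) (a (b (l 15233744) (l 15256400)) (b (c (l 15234640) (l 15191864)) (c (l 15239896) (l 15233520))))))) (a (l 15410192) (a (l 15299064) (a (l 15242152) (a (l 15213360) (l 15184248)))))) (c (a (l 15415168) (a (l 15349944) (a (l 15293640) (a (l 15265152) (l 15235696))))) (a (b (l 15331072) (c (l 15456424) (l 15437864))) (c (a (l 15338000) (a (l 15281264)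 (b (a (l 15244528) (l 15236088)) (l 15258976)))) (a (l 15323256) (b (l 15233664) (b (l 15244704) (l 15260696))))))))), by decide +kernel⟩

def k37_pm_011 : ∃ t, chk3 f_pm_011 t 24 62 3 = true :=
  ⟨(a (c (b (l 15369304) (l 15397096)) (l 15357568)) (c (a (l 15271184) (a (l 15213400) (a (l 15184168) (b (l 15161704) (l 15191128))))) (a (l 15244152) (a (l 15185200) (a (l 15155392) (l 15147168)))))), by decide +kernel⟩

def k38_pm_011 : ∃ t, chk3 f_pm_011 t 24 63 2 = true :=
  ⟨(a (b (c (a (l 15445832) (l 15408000)) (b (a (b (l 15472512) (l 15465392)) (l 15414096)) (l 15427840))) (b (a (l 15432392) (l 15403832)) (l 15416048))) (b (b (c (a (l 15352800) (l 15260248)) (a (l 15340056) (c (l 15271776) (b (a (l 15289632) (l 15235456)) (l 15270336))))) (a (l 15358256) (a (l 15302296) (a (l 15273976) (a (c (l 15269296) (l 15227896)) (c (l 15276736) (l 15256472))))))) (a (b (l 15372960) (l 15367504)) (a (l 15306192) (a (l 15298864) (b (a (l 15275200) (l 15279104)) (a (l 15295280) (l 15294920)))))))), by decide +kernel⟩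

def k39_pm_011 : ∃ t, chk3 f_pm_011 t 24 63 3 = true :=
  ⟨(b (c (a (b (c (a (b (l 15459552) (l 15458544)) (l 15403032)) (l 15403832)) (c (a (l 15435408) (l 15407704)) (a (l 15425200) (b (l 15398904) (l 15403200))))) (b (c (b (c (b (l 15282032) (l 15297176)) (l 15272400)) (c (l 15307048) (a (l 15329008) (l 15254584)))) (l 15266232)) (c (a (l 15337296) (a (l 15279864) (a (l 15250808) (a (l 15237120) (l 15244848))))) (a (c (l 15332568) (l 15322072)) (a (b (l 15265960) (l 15275000)) (b (a (l 15236608) (b (l 15219120) (l 15229536))) (c (l 15246464) (l 15235632)))))))) (a (a (l 15406080) (l 15365760)) (b (l 15246032) (a (l 15300464) (a (l 15241528) (a (l 15211728) (l 15201640))))))) (c (a (b (c (l 15400720) (l 15394288)) (l 15380424)) (b (a (l 15341016) (a (l 15283296) (a (l 15254104) (a (l 15240152) (l 15244184))))) (a (l 15351952) (a (l 15299152) (a (l 15269960) (l 15255520)))))) (a (b (c (b (l 15390184) (l 15377608)) (l 15369056)) (c (l 15364080) (b (l 15353504) (l 15345680)))) (b (c (b (a (l 15323600) (a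 (l 15264976) (l 15229536))) (c (l 15295384) (l 15289616))) (l 15272448)) (a (c (l 15335160) (b (l 15318480) (l 15325128))) (c (a (l 15281520) (l 15244600)) (b (l 15241960) (c (l 15257640) (b (l 15247048) (l 15252720)))))))))), by decide +kernel⟩

def k40_pm_011 : ∃ t, chk3 f_pm_011 t 25 62 2 = true :=
  ⟨(b (a (c (b (b (c (c (a (l 15336360) (l 15498968)) (a (l 15310184) (l 15473592))) (l 15378240)) (c (c (a (l 15365688) (l 15524032)) (a (l 15331960) (l 15491080))) (a (l 15302920) (l 15463232)))) (c (b (c (l 15449160) (a (l 15360232) (l 15515048))) (l 15438328)) (b (c (a (l 15327856) (l 15483440)) (a (l 15304248) (l 15460600))) (c (a (l 15354848) (l 15506064)) (a (l 15324056) (l 15476032)))))) (b (a (l 15278992) (l 15443872)) (a (l 15288416) (l 15444504)))) (c (b (c (b (c (a (l 15669728) (l 15849312)) (a (l 15645184) (l 15825640))) (c (a (l 15690168) (l 15864728)) (a (l 15658032) (l 15833440)))) (a (b (l 15634400) (l 15631408)) (b (l 15816168) (l 15808104)))) (c (b (c (l 15625456) (a (l 15677320) (l 15847656)))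 (l 15647960)) (b (c (a (l 15646520) (l 15817680)) (a (l 15624480) (l 15796480))) (c (a (l 15664416) (l 15830448)) (a (l 15635168) (l 15802008)))))) (b (a (l 15616896) (l 15798736)) (b (l 15549080) (a (l 15605776) (l 15774664)))))) (c (a (b (b (c (l 15424736) (a (l 15352088) (l 15499288))) (l 15415224)) (a (l 15336904) (l 15472272))) (b (b (c (l 15729752) (a (l 15653256) (l 15814512))) (l 15523440)) (a (l 15613456) (l 15760864)))) (b (a (c (b (a (l 15311904) (l 15460576)) (c (l 15373424) (l 15388800))) (a (l 15290920) (l 15438824))) (c (b (a (l 15553160) (c (l 15786408) (l 15767344))) (c (a (l 15638344) (l 15795544)) (a (l 15612888) (l 15770856)))) (a (l 15593408) (l 15755184)))) (c (a (a (l 15336368) (l 15473800)) (a (l 15617112) (l 15703800))) (a (b (c (b (l 15376616) (l 15390680)) (l 15364848)) (c (l 15401056) (l 15235400))) (b (c (a (l 15605320) (l 15758720)) (l 15660128)) (c (l 15684968) (a (l 15593960) (l 15742720))))))))), by decide +kernel⟩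

def k41_pm_011 : ∃ t, chk3 f_pm_011 t 25 62 3 = true :=
  ⟨(c (a (b (a (l 15256448) (l 15420104)) (a (l 15275496) (l 15421008))) (b (a (l 15591656) (l 15771744)) (a (l 15572888) (l 15647720)))) (a (a (l 15238496) (l 15333200)) (a (b (l 15570920) (l 15551872)) (b (l 15754504) (l 15713704))))), by decide +kernel⟩

def k42_pm_011 : ∃ t, chk3 f_pm_011 t 25 63 2 = true :=
  ⟨(b (b (c (a (l 15396480) (l 15659384)) (a (c (l 15388824) (b (l 15393872) (l 15386056))) (b (c (l 15662968) (l 15584608)) (l 15649576)))) (b (a (b (l 15390360) (a (c (l 15338392) (l 15318960)) (c (l 15456248) (l 15439288)))) (l 15473608)) (a (a (c (l 15336664) (l 15314192)) (a (l 15406336) (b (l 15472200) (l 15454752)))) (a (a (c (l 15532944) (l 15514504)) (b (c (l 15604528) (l 15588320)) (l 15569984))) (b (c (a (l 15667552) (l 15731536)) (a (l 15652632) (l 15717920))) (c (l 15671616) (l 15654856))))))) (b (a (a (c (l 15331424) (l 15306120)) (c (l 15406152) (a (l 15362744) (l 15402536)))) (c (a (a (l 15466560) (l 15509048)) (b (l 15614640)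 (l 15538256))) (a (b (l 15491128) (l 15439704)) (b (l 15595304) (l 15516792))))) (b (c (a (a (c (l 15312536) (l 15298920)) (c (b (l 15358776) (l 15367416)) (b (l 15366136) (l 15335600)))) (b (c (a (b (l 15414680) (l 15404064)) (b (l 15495880) (l 15475552))) (c (a (l 15420200) (l 15476384)) (l 15443640))) (c (a (l 15406776) (l 15450784)) (a (l 15396328) (c (l 15442224) (l 15434792)))))) (a (b (l 15324824) (a (c (l 15306184) (l 15292352)) (c (l 15342272) (b (l 15333144) (l 15325376))))) (b (a (l 15401400) (l 15458040)) (c (a (c (l 15384904) (l 15377096)) (b (c (l 15435392) (l 15431464)) (c (l 15419400) (l 15411208)))) (b (l 15398896) (a (l 15360960) (c (l 15403656) (l 15399896)))))))) (b (c (a (l 15314728) (c (l 15394776) (l 15382624))) (a (a (l 15277592) (c (l 15329272) (l 15318104))) (c (l 15370392) (a (l 15346392) (c (l 15378872) (l 15372808)))))) (a (a (l 15287800) (c (l 15334672) (l 15288040))) (c (c (l 15341088) (l 15328552)) (b (l 15339808) (l 15322832)))))))), by decide +kernel⟩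

def k43_pm_011 : ∃ t, chk3 f_pm_011 t 50 63 3 = true :=
  ⟨(b (b (c (c (b (c (l 15377024) (l 15357368)) (c (l 15386448) (l 15371792))) (l 15349248)) (l 15330312)) (c (c (b (b (l 15380816) (a (l 15314848) (l 15437152))) (a (l 15304624) (l 15417200))) (b (b (l 15355128) (a (l 15216936) (c (l 15430904) (l 15412584)))) (a (c (l 15304016) (l 15293480)) (c (l 15417352) (l 15407392))))) (a (b (l 15270624) (l 15269184)) (b (b (l 15398632) (l 15397480)) (l 15384792))))) (b (c (a (c (l 15288824) (l 15281224)) (c (l 15366304) (b (l 15375048) (l 15342064)))) (c (b (a (l 15274120) (l 15364928)) (c (l 15302624) (a (l 15263816) (l 15331392)))) (a (l 15253624) (l 15333512)))) (c (c (b (l 15301896) (b (a (l 15277376) (c (l 15307784) (l 15300208))) (l 15282808))) (b (l 15289184) (a (l 15261712) (b (l 15285680) (b (l 15281608) (l 15273472)))))) (c (b (l 15278760) (b (l 15264608) (l 15255144))) (b (a (l 15240504) (l 15263808)) (c (b (l 15256048) (l 15244840)) (b (l 15247672) (l 15238696)))))))), by decide +kernel⟩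

def k44_pm_011 : ∃ t, chk3 f_pm_011 t 51 63 3 = true :=
  ⟨(b (b (c (c (b (c (a (l 15582448) (l 15726472)) (l 15635432)) (c (l 15652984) (l 15534808))) (l 15624240)) (l 15609440)) (b (c (c (c (l 15635368) (l 15636560)) (c (l 15625376) (l 15610528))) (l 15598104)) (c (c (b (a (l 15551824) (a (l 15650056) (l 15716432))) (a (l 15521696) (l 15647944))) (b (a (c (l 15554240) (l 15537720)) (c (b (l 15692096) (l 15685488)) (b (l 15672944) (l 15669032)))) (c (l 15587656) (a (l 15518792) (l 15646608))))) (a (b (a (l 15488296) (l 15554328)) (l 15495056)) (b (a (l 15621256) (l 15689200)) (l 15624464)))))) (b (c (a (c (l 15450640) (b (l 15472936) (l 15414616))) (c (b (l 15583688) (l 15501040)) (b (l 15579736) (l 15493648)))) (c (b (a (l 15358944) (c (l 15575600) (l 15564832))) (c (a (l 15410056) (l 15489688)) (a (l 15404864) (l 15484896)))) (a (l 15420440) (l 15515200)))) (c (b (a (l 15364368) (l 15415168)) (b (c (c (a (l 15335328) (b (l 15371912) (l 15355312))) (b (a (l 15333240) (l 15366600)) (a (l 15322616) (l 15348888))))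 (b (l 15341560) (c (a (l 15314504) (l 15340040)) (a (l 15307000) (c (l 15335064) (l 15333656)))))) (b (c (l 15320888) (c (l 15311352) (a (l 15296776) (l 15316624)))) (c (l 15303672) (l 15290760))))) (b (c (a (l 15348624) (l 15400192)) (c (b (l 15385104) (l 15347336)) (l 15359344))) (c (b (l 15320712) (b (a (l 15282720) (c (b (l 15311832) (l 15304408)) (l 15295776))) (b (c (l 15285920) (l 15281616)) (a (l 15268768) (l 15279240))))) (b (c (l 15312592) (l 15304512)) (c (b (l 15285720) (l 15265872)) (b (l 15278840) (l 15259096))))))))), by decide +kernel⟩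

def k45_pm_011 : ∃ t, chk3 f_pm_011 t 13 14 1 = true :=
  ⟨(l 6), by decide +kernel⟩

def k46_pm_011 : ∃ t, chk3 f_pm_011 t 52 60 1 = true :=
  ⟨(b (l 6) (b (b (l 6) (b (l 6) (a (a (c (c (l 16402128) (l 16395720)) (c (l 16389248) (l 16382696))) (l 6)) (l 6)))) (a (c (a (c (a (l 16229272) (l 16268584)) (a (l 16242280) (l 16282320))) (c (a (l 16306392) (l 16363616)) (a (l 16320832) (l 16357760)))) (c (a (a (l 16297136) (l 16337920)) (a (l 16377152) (l 16393784))) (a (l 16247016) (l 16326904)))) (b (l 6) (a (c (c (a (l 16439040) (l 16477648)) (a (l 16433464) (l 16472784))) (c (l 16385104) (l 16442688))) (l 6)))))), by decide +kernel⟩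

def k47_pm_011 : ∃ t, chk3 f_pm_011 t 52 122 1 = true :=
  ⟨(a (c (a (b (c (b (l 16249672) (l 16193728)) (b (l 16240640) (l 16183728))) (c (b (l 16137512) (l 16081008)) (b (l 16126528) (l 16069040)))) (b (c (b (l 16334368) (l 16284536)) (b (l 16326920) (l 16276248))) (b (a (l 16205904) (l 16253536)) (l 16095264)))) (a (c (b (a (l 16178864) (l 16225808)) (l 16023208)) (b (l 16192752) (l 16074368))) (c (b (a (l 16271360) (l 16315440)) (l 16127096)) (b (l 16264552) (l 16180216))))) (c (a (b (c (a (l 16371600) (l 16414176)) (a (l 16364896) (l 16408264))) (c (a (l 16281048) (l 16328968)) (a (l 16272832) (l 16321664)))) (b (c (b (l 16497040) (l 16458352)) (a (l 16451680) (l 16493896))) (c (l 16337040) (l 16352040)))) (a (c (b (a (l 16358120) (l 16402304)) (l 16205656)) (b (l 16311016) (l 16281616))) (c (b (a (l 16446520) (l 16489528)) (l 16346024)) (b (l 16421424) (l 16381880)))))), by decide +kernel⟩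

def k48_pm_011 : ∃ t, chk3 f_pm_011 t 52 123 1 = true :=
  ⟨(b (a (c (b (a (b (l 16032104) (a (b (l 15984192) (l 15979200)) (l 16036784))) (c (l 16136488) (l 16125672))) (a (l 15997728) (b (a (l 16081784) (l 16135848)) (l 16099736)))) (b (a (b (l 16006376) (c (a (l 15961176) (l 16017784)) (l 15976104))) (c (l 16114736) (l 16103672))) (a (c (l 15977680) (l 15964088)) (b (c (l 16092056) (l 16080616)) (l 16076824))))) (c (b (a (c (l 16241640) (l 16232832)) (c (l 16344184) (l 16337320))) (a (b (l 16218944) (c (l 16214488) (l 16205240))) (a (l 16295136) (l 16349736)))) (b (c (a (l 16223920) (l 16330392)) (a (l 16214920) (l 16323400))) (a (b (l 16200544) (a (l 16162920) (l 16219248))) (c (l 16311120) (l 16303848)))))) (c (a (c (b (l 16040984) (c (c (l 15971968) (l 16027544)) (l 16022792))) (l 16020816)) (b (a (l 16194848) (c (l 16310672) (l 16261392))) (c (c (c (l 16156624) (l 16234152)) (l 16230888)) (l 16224312)))) (a (c (l 16008056) (l 15995152)) (a (l 16165600) (b (c (l 16233008) (l 16288440)) (l 16267232)))))),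 by decide +kernel⟩

def k49_pm_011 : ∃ t, chk3 f_pm_011 t 53 30 1 = true :=
  ⟨(b (l 6) (b (b (a (a (c (c (b (l 16553888) (l 16541368)) (c (l 16492760) (l 16491152))) (c (c (l 16510504) (l 16508880)) (l 16485456))) (b (l 6) (c (a (l 16578144) (l 16616096)) (c (l 16594288) (l 16592256))))) (l 6)) (a (c (a (c (l 16448896) (l 16444648)) (c (l 16514128) (l 16511496))) (a (c (l 16440360) (l 16457008)) (c (l 16508856) (l 16527176)))) (a (c (c (l 16595192) (l 16594080)) (c (l 16592984) (l 16591896))) (a (c (b (l 16653272) (l 16650152)) (c (l 16650664) (l 16649888))) (b (l 6) (c (l 16618832) (a (l 16645096) (l 16629200)))))))) (a (b (c (a (c (l 16373976) (l 16347944)) (c (l 16492312) (l 16468128))) (c (a (l 16363816) (l 16464896)) (a (l 16400624) (l 16482632)))) (c (b (a (b (a (l 16393504) (l 16448368)) (l 16350760)) (a (l 16455776) (l 16551360))) (c (c (b (l 16337088) (l 16324152)) (l 16347568)) (a (l 16390736) (l 16485808)))) (b (a (c (b (l 16412328) (l 16405712)) (b (l 16407032) (l 16400336))) (c (l 16456048)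 (l 16473760))) (a (l 16382184) (c (l 16482352) (l 16478888)))))) (b (c (a (c (l 16564160) (l 16562704)) (c (l 16575504) (b (l 16605976) (l 16584848)))) (a (c (l 16561256) (l 16559824)) (c (b (l 16604984) (l 16583568)) (l 16572104)))) (c (b (a (l 16587024) (l 16561944)) (c (b (a (l 16544712) (l 16566040)) (a (l 16514688) (c (c (l 16494160) (l 16560616)) (l 16538960)))) (a (b (l 16564304) (l 16574448)) (b (l 16585328) (l 16516584))))) (b (c (l 16539704) (l 16538896)) (a (b (c (l 16563120) (l 16561960)) (l 16551432)) (b (l 16561512) (c (l 16514640) (l 16512608)))))))))), by decide +kernel⟩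

def k50_pm_011 : ∃ t, chk3 f_pm_011 t 27 60 1 = true :=
  ⟨(l 6), by decide +kernel⟩

def k51_pm_011 : ∃ t, chk3 f_pm_011 t 54 61 1 = true :=
  ⟨(a (a (b (b (l 6) (b (l 6) (b (l 6) (c (a (l 16609248) (l 16590096)) (c (l 16575600) (l 16594328)))))) (c (b (a (c (l 16565288) (l 16542144)) (b (c (l 16572032) (l 16548504)) (l 16537112))) (b (l 16482080) (c (c (c (b (l 16503800) (l 16423168)) (l 16496800)) (l 16495456)) (l 16450784)))) (a (b (c (l 16539904) (l 16558552)) (c (l 16504536) (l 16501352))) (b (b (c (l 16545864) (l 16564120)) (l 16509816)) (l 16418024))))) (b (l 6) (b (b (b (a (c (l 16561208) (l 16555384)) (l 6)) (c (a (l 16541912) (c (l 16538264) (l 16534992))) (a (l 16535496) (c (l 16531624) (l 16528176))))) (c (a (c (l 16509472) (l 16505792)) (c (l 16500016) (l 16496112))) (a (c (l 16502024) (l 16498152)) (c (l 16492104) (l 16487992))))) (c (c (a (c (b (l 16470904) (c (l 16411928) (l 16434816))) (l 16450888)) (b (l 16451552) (c (c (b (l 16420568) (l 16366568)) (l 16410272)) (l 16408280)))) (a (l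 16447440) (b (l 16446848) (l 16404240)))) (a (c (l 16442736) (l 16437904)) (c (b (l 16442040) (l 16398744)) (b (l 16437104) (l 16393104)))))))) (b (l 6) (b (b (l 6) (c (c (a (l 16526096) (l 16560408)) (a (l 16522600) (l 16557448))) (c (a (l 16519016) (l 16554416)) (l 16491592)))) (c (c (b (l 16452408) (c (c (b (a (l 16440448) (l 16477112)) (c (a (l 16411768) (l 16447528)) (l 16393240))) (l 16446864)) (l 16403144))) (a (b (l 16471856) (l 16422840)) (l 16483896))) (c (a (b (l 16467440) (l 16417624)) (l 16479664)) (a (l 16396080) (l 16475312))))))), by decide +kernel⟩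

def k52_pm_011 : ∃ t, chk3 f_pm_011 t 55 61 1 = true :=
  ⟨(b (l 6) (b (l 6) (b (a (a (c (c (l 16546464) (l 16543272)) (c (l 16539984) (l 16536608))) (l 6)) (l 6)) (a (c (c (c (c (b (c (l 16487664) (l 16529904)) (c (l 16438392) (l 16506824))) (l 16517920)) (l 16516568)) (l 16471864)) (c (l 16468104) (l 16485200))) (a (b (l 6) (b (l 6) (c (c (c (c (l 16505080) (l 16551376)) (l 16550216)) (l 16547848)) (l 16542976)))) (l 6)))))), by decide +kernel⟩

def k53_pm_011 : ∃ t, chk3 f_pm_011 t 26 124 1 = true :=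
  ⟨(a (c (c (b (c (b (a (c (l 16038488) (l 16015736)) (c (l 16238200) (l 16174456))) (c (a (l 16048448) (l 16242192)) (a (l 16018056) (l 16212728)))) (a (b (l 16007640) (l 15973080)) (b (l 16209744) (l 16127216)))) (c (b (c (l 15919176) (a (l 16026736) (l 16215384))) (l 15910456)) (b (a (c (l 15997632) (l 15977304)) (c (l 16187192) (l 16167776))) (c (a (l 16004816) (l 16188272)) (a (l 15977216) (l 16161560)))))) (b (a (l 15990168) (l 16171152)) (a (b (l 15967024) (l 15952000)) (b (l 16159784) (l 16096616))))) (a (c (l 15835288) (l 15947528)) (c (a (l 16109800) (l 16212288)) (l 16046024)))) (c (a (c (b (c (c (b (l 16386592) (l 16384064)) (b (l 16344840) (l 16376560))) (b (l 16402624) (l 16292528))) (c (b (l 16268880) (l 16362576)) (b (c (l 16345384) (l 16326920)) (c (l 16339776) (l 16314000))))) (b (l 16321800) (b (l 16363272) (l 16251384)))) (c (b (c (b (b (l 16487832) (l 16492024)) (c (l 16507472) (l 16510760))) (a (l 16493176) (l 16499672))) (c (b (l 16458248) (l 16481760)) (b (c (l 16473352) (l 16455904))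 (c (l 16460416) (l 16456584))))) (b (l 16485344) (b (l 16473824) (l 16396416))))) (a (c (b (l 16316536) (l 16300816)) (a (l 16310856) (l 16379360))) (a (c (l 16432768) (l 16451120)) (a (l 16518168) (l 16517280)))))), by decide +kernel⟩

def k54_pm_011 : ∃ t, chk3 f_pm_011 t 26 125 1 = true :=
  ⟨(b (a (c (c (c (l 15817352) (b (a (l 15962688) (l 16098488)) (l 15983648))) (c (b (c (a (l 15956784) (l 16135816)) (l 15817616)) (c (a (l 15960200) (l 16132984)) (a (l 15936320) (l 16109928)))) (a (l 15924736) (l 16102760)))) (a (l 15906616) (l 16088936))) (c (c (b (c (l 16247232) (a (l 16243720) (l 16399384))) (a (l 16303656) (l 16409016))) (a (c (b (c (l 16303360) (l 16307856)) (c (l 16293688) (l 16271504))) (l 16248120)) (c (b (c (l 16418496) (l 16423936)) (c (l 16422272) (l 16401000))) (l 16382784)))) (a (l 16217816) (l 16336216)))) (c (c (a (a (l 15914968) (l 16076336)) (a (l 16224640) (l 16339712))) (b (a (c (a (l 15937392) (l 16104280)) (c (b (l 15912992) (l 15937248)) (l 15940792))) (c (a (l 16237544) (l 16358984))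 (c (a (l 16200824) (l 16344552)) (l 16169768)))) (c (a (l 15992176) (l 16203016)) (a (c (l 15847488) (a (l 15898064) (l 16060544))) (a (c (l 16245536) (l 16188864)) (c (l 16381552) (l 16325720))))))) (a (c (a (l 15881784) (l 16049472)) (l 15846448)) (a (c (l 16204344) (l 16217000)) (c (l 16326264) (l 16363392)))))), by decide +kernel⟩

def k55_pm_011 : ∃ t, chk3 f_pm_011 t 52 63 2 = true :=
  ⟨(b (b (c (l 15881664) (b (c (l 15958304) (a (l 15889784) (l 16045416))) (l 15913504))) (b (c (l 15913192) (l 15906912)) (a (a (b (c (l 15797024) (l 15784752)) (c (l 15772008) (l 15757176))) (b (l 15860536) (c (l 15841544) (b (l 15840528) (l 15812200))))) (b (l 15962736) (a (b (c (l 15921808) (l 15910320)) (l 15891208)) (c (b (l 15990496) (l 15973584)) (b (l 15980384) (l 15962232)))))))) (b (c (a (b (c (l 15730760) (l 15721960)) (c (l 15625712) (l 15615864))) (b (c (l 15852688) (l 15845088)) (c (l 15715640) (l 15706680)))) (a (b (a (l 15679816) (l 15739440)) (a (l 15579248) (l 15623264))) (b (c (l 15837432) (l 15830632))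 (c (l 15697672) (l 15688600))))) (b (c (b (c (b (l 15593856) (a (c (l 15534288) (l 15527896)) (c (l 15594000) (l 15592464)))) (l 15568280)) (c (b (a (l 15510136) (c (l 15566328) (l 15559056))) (l 15502344)) (a (b (c (l 15498120) (l 15490136)) (l 15472008)) (b (c (l 15550024) (l 15543968)) (c (l 15519272) (l 15515048)))))) (b (a (l 15519768) (l 15587184)) (b (a (l 15478984) (l 15533960)) (c (a (c (l 15461416) (l 15452568)) (c (l 15506144) (b (l 15510024) (l 15490488)))) (a (c (l 15446376) (l 15443112)) (l 15492896)))))) (c (b (c (l 15456352) (a (l 15428360) (l 15462032))) (b (l 15404312) (c (l 15357672) (l 15345320)))) (b (c (a (l 15418720) (c (l 15453464) (l 15451776))) (b (a (c (l 15423728) (l 15414896)) (c (b (l 15468072) (l 15452736)) (b (l 15461128) (l 15445616)))) (a (l 15391008) (l 15421160)))) (b (c (l 15386248) (l 15374104)) (a (l 15320120) (l 15354072)))))))), by decide +kernel⟩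

def k56_pm_011 : ∃ t, chk3 f_pm_011 t 53 126 2 = true :=
  ⟨(b (c (l 16066856) (b (c (l 16176064) (c (l 16209512) (l 16084824))) (l 16097608))) (b (c (l 16182200) (l 16139592)) (b (l 16113408) (b (l 16142528) (a (c (a (l 16047336) (l 16119048)) (a (b (l 16044040) (l 16031272)) (b (l 16117640) (l 16108832)))) (a (c (l 16191648) (l 16163680)) (l 16263128))))))), by decide +kernel⟩

def k57_pm_011 : ∃ t, chk3 f_pm_011 t 53 127 4 = true :=
  ⟨(b (b (a (c (l 15923800) (l 15875568)) (b (b (a (l 16149280) (b (l 16255528) (l 16242392))) (l 16159024)) (l 15953672))) (a (c (l 15814400) (l 15806400)) (c (l 15776400) (l 15832368)))) (c (b (b (a (c (a (l 15664736) (l 15705728)) (l 15682024)) (l 15763552)) (a (b (c (l 15624568) (b (l 15624384) (l 15607360))) (l 15575320)) (b (c (a (l 15670224) (l 15701992)) (b (l 15694488) (l 15666224))) (c (l 15632184) (l 15631288))))) (b (a (l 15509600) (l 15549056)) (b (l 15455744) (l 15384504)))) (b (b (a (l 15675056) (l 15755040)) (b (b (l 15653032) (c (a (l 15598040) (l 15659632))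 (l 15626176))) (a (c (l 15571656) (b (l 15572136) (l 15553952))) (c (b (l 15636656) (l 15608872)) (b (l 15627400) (l 15606520)))))) (b (a (l 15498600) (l 15538432)) (b (l 15444200) (l 15393368)))))), by decide +kernel⟩

def k58_pm_011 : ∃ t, chk3 f_pm_011 t 53 127 5 = true :=
  ⟨(b (b (a (c (l 15848272) (a (l 15932960) (l 16005384))) (b (b (a (b (l 16172848) (l 16148256)) (b (l 16249096) (l 16235376))) (l 16108192)) (a (l 16032048) (l 16106480)))) (a (c (l 15798360) (l 15769296)) (c (l 15783440) (l 15734472)))) (b (c (b (a (l 15665720) (l 15746480)) (b (l 15631096) (a (c (b (l 15565864) (l 15546320)) (b (l 15563128) (l 15537672))) (b (l 15623720) (c (a (l 15583552) (l 15609952)) (l 15591928)))))) (a (l 15611352) (l 15535864))) (b (c (b (a (c (l 15513800) (b (l 15520176) (l 15496008))) (c (l 15562320) (b (a (l 15554272) (l 15577992)) (l 15540680)))) (a (l 15465192) (l 15500336))) (b (b (c (a (l 15510360) (c (l 15559624) (l 15559904))) (l 15531232)) (a (c (l 15493160) (l 15483584)) (c (c (l 15537448) (l 15532736))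 (c (l 15527472) (l 15524264))))) (c (l 15473968) (a (l 15453784) (b (l 15503608) (l 15472656)))))) (b (c (l 15432584) (a (l 15408568) (l 15433760))) (a (b (l 15359688) (l 15336312)) (c (l 15388824) (l 15376552))))))), by decide +kernel⟩

def k59_pm_011 : ∃ t, chk3 f_pm_011 t 52 126 3 = true :=
  ⟨(b (c (c (b (c (a (l 15876616) (l 16033376)) (l 15937304)) (c (l 15899440) (a (l 15854816) (l 16005744)))) (l 15901256)) (l 15911784)) (b (c (a (c (l 15834776) (l 15829136)) (c (l 15978720) (l 15911560))) (l 15881888)) (c (a (c (b (a (l 15784416) (l 15855056)) (a (l 15751440) (l 15823816))) (b (a (c (l 15788704) (l 15773344)) (l 15853088)) (c (l 15772408) (b (a (l 15763384) (l 15836888)) (l 15773736))))) (b (c (l 15959752) (l 15958800)) (c (b (a (l 15908040) (l 15979312)) (l 15920008)) (b (c (l 15950528) (a (l 15908712) (l 15980928))) (a (l 15884992) (l 15922240)))))) (a (b (a (l 15758744) (l 15831432)) (a (l 15730776) (b (l 15817512) (l 15788368)))) (b (l 15938672) (b (a (l 15890080) (l 15962952)) (a (l 15863880)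 (l 15944296)))))))), by decide +kernel⟩

def k60_pm_011 : ∃ t, chk3 f_pm_011 t 52 127 3 = true :=
  ⟨(b (c (b (a (c (l 15699328) (b (l 15726296) (l 15669136))) (c (l 15826112) (b (l 15820752) (l 15788800)))) (a (c (l 15586480) (l 15579936)) (c (l 15679992) (l 15674368)))) (c (b (a (a (l 15659136) (l 15615976)) (c (b (l 15859320) (l 15787512)) (l 15812624))) (c (a (l 15576608) (l 15671728)) (a (b (l 15601944) (l 15545176)) (b (l 15706072) (l 15632240))))) (a (l 15492880) (b (l 15806736) (l 15657688))))) (b (c (a (c (l 15475864) (l 15464928)) (c (l 15535856) (l 15525504))) (c (a (l 15456288) (b (l 15555888) (l 15479536))) (c (b (l 15430112) (c (l 15448128) (l 15445640))) (l 15452064)))) (c (b (c (b (c (a (l 15406704) (c (l 15447064) (l 15447088))) (l 15422864)) (c (a (l 15384456) (l 15415496)) (a (l 15376768) (b (l 15413216) (l 15399456))))) (b (l 15414088) (a (b (l 15373840) (c (l 15362392) (l 15354800))) (c (b (l 15409680) (l 15389864)) (l 15394600))))) (c (b (a (l 15351104) (l 15373072)) (a (l 15322304)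 (l 15335520))) (b (c (a (l 15342832) (l 15366328)) (a (l 15337672) (b (l 15366616) (l 15348624)))) (a (l 15309496) (l 15322816))))) (b (c (l 15386104) (c (l 15378472) (a (l 15353216) (l 15389032)))) (b (c (c (c (a (l 15330800) (l 15352424)) (b (l 15346904) (l 15288664))) (b (l 15342264) (a (c (l 15316200) (l 15306928)) (c (l 15335832) (l 15334688))))) (c (l 15327864) (l 15321200))) (b (c (c (l 15315856) (c (l 15312720) (a (l 15301112) (l 15317080)))) (c (a (l 15291848) (l 15306696)) (l 15296648))) (c (c (l 15298968) (l 15292568)) (c (c (l 15285544) (l 15262728)) (c (l 15279288) (l 15276064)))))))))), by decide +kernel⟩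

def k61_pm_011 : ∃ t, chk3 f_pm_011 t 53 126 3 = true :=
  ⟨(b (c (c (b (c (b (l 16156280) (l 16129680)) (l 16162040)) (c (l 16087256) (b (l 16161936) (l 16112936)))) (l 16058136)) (l 16052344)) (b (c (c (c (l 16168848) (l 16088936)) (c (b (l 16146192) (l 16095432)) (l 16173360))) (l 16147008)) (b (c (c (l 16178480) (c (l 16164440) (l 16150984))) (l 16162656)) (c (b (c (l 16161168) (l 15978688)) (a (c (a (l 16035344) (l 16109672)) (a (c (l 16042128) (l 15999408)) (b (l 16124160) (l 16093656)))) (a (c (l 16185088) (c (l 16193144) (l 16193088))) (l 16241496)))) (b (l 16149456) (a (a (b (l 16029344) (l 16016144)) (b (l 16105744) (l 16096792))) (a (l 16154584) (l 16253840)))))))), by decide +kernel⟩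

def k62_pm_011 : ∃ t, chk3 f_pm_011 t 53 254 3 = true :=
  ⟨(b (c (a (a (b (l 15909992) (l 15888144)) (c (l 16002552) (l 15834904))) (b (b (a (c (l 16160312) (c (l 16165008) (l 16169912))) (b (c (l 16249168) (l 16169144)) (c (l 16234424) (l 16239456)))) (c (l 16147176) (l 16151568))) (c (l 16062944) (l 16044360)))) (a (c (c (b (l 15989424) (l 15919976)) (l 15955056)) (l 15866272)) (b (b (a (b (l 16100512) (l 16138064)) (b (c (l 16244872) (l 16240920)) (a (l 16204824) (l 16251072)))) (c (l 16021168) (l 16137064))) (c (c (l 15961168) (l 16055672)) (l 16051520))))) (c (a (c (l 15740704) (l 15652184)) (c (b (l 15951192) (l 15840064)) (b (l 15948768) (l 15834120)))) (c (c (a (l 15713208) (b (l 15948344) (l 15833512))) (a (b (l 15820400) (l 15727728)) (b (l 15925376) (l 15790848)))) (a (l 15763344) (l 15753832))))), by decide +kernel⟩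

def k63_pm_011 : ∃ t, chk3 f_pm_011 t 53 510 3 = true :=
  ⟨(c (a (c (l 15601464) (l 15591744)) (c (l 15547624) (b (l 15720800) (l 15608088)))) (b (c (a (l 15632272) (l 15695200)) (a (l 15623576) (l 15624392))) (c (a (l 15536960) (l 15599856)) (c (c (l 15563808) (a (l 15530688) (l 15594112))) (l 15556160))))), by decide +kernel⟩

def k64_pm_011 : ∃ t, chk3 f_pm_011 t 53 511 3 = true :=
  ⟨(c (b (b (a (c (c (a (l 15477560) (l 15501904)) (l 15485232)) (l 15476920)) (l 15528872)) (b (c (c (a (l 15456928) (c (l 15496272) (l 15491120))) (c (a (l 15450032) (l 15488680)) (l 15468464))) (l 15461368)) (c (c (a (l 15433880) (l 15469568)) (a (l 15429912) (c (l 15464776) (l 15459328)))) (c (a (c (l 15422168) (l 15418568)) (a (l 15443776) (l 15460984))) (l 15432896))))) (c (b (a (l 15396688) (l 15422120)) (b (l 15371032) (l 15344704))) (b (b (c (a (l 15401856) (c (l 15431272) (l 15427608))) (a (c (l 15394808) (l 15389656)) (c (l 15421896) (l 15417296)))) (c (l 15387496) (a (l 15371960) (l 15396224)))) (a (c (l 15340416)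 (l 15334056)) (b (l 15367880) (l 15338480)))))) (b (c (a (l 15442584) (l 15484384)) (c (a (l 15435368) (l 15477472)) (a (l 15427896) (l 15470200)))) (c (b (b (a (c (c (l 15387168) (l 15385848)) (l 15381360)) (l 15412944)) (c (a (c (l 15367144) (l 15361688)) (c (l 15389856) (l 15383944))) (c (a (l 15356912) (l 15358776)) (l 15367928)))) (b (c (a (l 15340792) (l 15358728)) (b (c (a (l 15343296) (l 15362600)) (a (l 15338048) (l 15356688))) (a (l 15329776) (l 15347024)))) (c (l 15322816) (a (l 15310320) (l 15322848))))) (c (b (l 15376416) (c (a (b (b (l 15306448) (l 15324064)) (l 15302024)) (b (b (l 15355216) (l 15340296)) (b (l 15326368) (l 15311456)))) (b (a (l 15320432) (l 15337536)) (b (a (l 15309480) (l 15323000)) (l 15302328))))) (b (c (l 15372584) (l 15368704)) (b (l 15330896) (c (a (l 15296096) (a (l 15304896) (l 15310968))) (a (l 15293392) (l 15305584))))))))), by decide +kernel⟩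

def k65_pm_011 : ∃ t, chk3 f_pm_011 t 108 124 2 = true :=
  ⟨(c (b (a (c (b (b (c (b (l 16432360) (l 16471056)) (l 16462224)) (l 16418480)) (c (l 16459152) (l 16499136))) (b (l 16423928) (l 16469976))) (a (c (b (b (c (l 16379240) (l 16410064)) (c (l 16390904) (l 16408448))) (c (l 16400224) (l 16419040))) (b (b (l 16408304) (l 16409704)) (l 16431376))) (b (c (b (c (l 16371896) (l 16381680)) (c (a (a (l 16356352) (l 16351264)) (l 16350808)) (a (a (l 16373800) (l 16368712)) (l 16368296)))) (b (l 16379704) (a (l 16351456) (l 16369280)))) (c (c (a (a (l 16366480) (l 16360696)) (l 16357656)) (a (l 16361360) (l 16376424))) (a (a (l 16397368) (l 16391560)) (l 16388544)))))) (a (c (b (l 16446288) (l 16519040)) (b (l 16447728) (c (l 16517928) (l 16513976)))) (a (c (b (l 16390264) (l 16466152)) (b (l 16391184) (c (l 16464488) (l 16481312)))) (c (b (c (a (l 16393024) (l 16386344)) (a (l 16354480) (l 16389728))) (l 16407248)) (b (c (a (l 16414240) (l 16407560)) (a (l 16404624) (l 16418920))) (c (a (l 16430016) (l 16422544))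 (a (l 16446760) (l 16439296)))))))) (a (b (b (b (l 16416200) (l 16490040)) (l 16510808)) (l 16468856)) (a (b (b (b (l 16404360) (l 16405816)) (l 16429080)) (l 16433784)) (b (b (b (l 16375328) (a (a (l 16370424) (l 16365224)) (l 16343824))) (a (l 16391632) (l 16385624))) (a (a (l 16401272) (l 16437112)) (l 16433024)))))), by decide +kernel⟩

def k66_pm_011 : ∃ t, chk3 f_pm_011 t 108 125 2 = true :=
  ⟨(b (c (a (c (l 16557392) (l 16483664)) (a (c (l 16530360) (l 16455824)) (c (l 16472888) (a (a (l 16426352) (l 16461984)) (l 16435560))))) (c (a (b (l 16504968) (c (l 16558616) (l 16573056))) (a (b (l 16474968) (c (l 16531824) (l 16546056))) (b (c (l 16433832) (l 16464760)) (c (l 16453104) (l 16488216))))) (a (l 16547352) (a (l 16518304) (a (l 16485128) (l 16497376)))))) (c (a (l 16500480) (a (l 16561664) (l 16505880))) (c (a (l 16475960) (a (l 16526536) (c (l 16512056) (b (l 16509720) (l 16568416))))) (a (b (b (l 16530304) (l 16478656)) (b (l 16481696) (l 16484144))) (a (b (c (l 16556024) (l 16588416)) (c (l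 16602504) (l 16569504))) (c (b (c (l 16539024) (l 16527304)) (l 16525280)) (b (l 16552152) (c (l 16553184) (l 16562008))))))))), by decide +kernel⟩

def k67_pm_011 : ∃ t, chk3 f_pm_011 t 108 62 3 = true :=
  ⟨(b (a (b (b (b (c (a (l 16500848) (l 16447992)) (l 16408264)) (l 16463568)) (l 16485048)) (l 16486816)) (a (b (b (b (c (l 16398976) (l 16393456)) (l 16397832)) (l 16421856)) (l 16470392)) (b (b (b (l 16366344) (a (a (l 16340432) (l 16356040)) (b (l 16354232) (l 16356872)))) (a (a (l 16386344) (l 16380264)) (l 16377104))) (a (a (l 16436912) (l 16430624)) (l 16426392))))) (a (c (l 16452008) (l 16471656)) (a (c (l 16466584) (l 16485984)) (c (b (l 16478688) (l 16505792)) (a (l 16473936) (l 16506008)))))), by decide +kernel⟩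

def k68_pm_011 : ∃ t, chk3 f_pm_011 t 109 62 2 = true :=
  ⟨(b (b (b (c (a (c (b (c (l 16384392) (l 16394312)) (c (a (l 16352400) (l 16357792)) (b (l 16377168) (a (l 16366176) (l 16369416))))) (a (l 16379552) (l 16388096))) (c (c (l 16400312) (l 16392880)) (l 16414368))) (a (b (l 16388168) (a (l 16366488) (l 16372088))) (l 16410392))) (c (c (b (a (c (l 16343280) (l 16365512)) (b (c (l 16357456) (l 16380072)) (c (a (l 16338488) (l 16350728)) (l 16347912)))) (a (l 16339632) (c (a (l 16341832) (l 16345256)) (l 16362376)))) (a (b (l 16373264) (l 16386120)) (a (b (l 16374520) (l 16377336)) (b (l 16389792) (l 16380992))))) (a (a (l 16379792) (l 16372384)) (b (a (l 16370080) (l 16385536)) (l 16376456))))) (c (c (b (c (a (l 16374576) (l 16360592)) (b (l 16366088) (l 16351272))) (l 16378936)) (a (b (c (l 16395840) (l 16407224)) (c (l 16408368) (l 16425176))) (b (c (l 16381968) (l 16372440)) (c (l 16387640) (l 16404544))))) (b (a (l 16405424) (l 16391424)) (c (b (l 16418680) (l 16431752)) (l 16423272))))) (c (b (c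 (l 16416904) (b (c (l 16425240) (l 16384936)) (l 16460776))) (l 16440424)) (b (c (b (c (l 16421488) (l 16452392)) (c (l 16414848) (l 16449976))) (b (l 16451576) (l 16479984))) (c (b (c (l 16487824) (l 16445528)) (l 16524944)) (c (b (b (l 16497632) (l 16502888)) (l 16477016)) (b (l 16508800) (b (l 16506096) (l 16512144)))))))), by decide +kernel⟩

def k69_pm_011 : ∃ t, chk3 f_pm_011 t 109 62 3 = true :=
  ⟨(b (b (b (a (a (b (l 16372592) (c (l 16360376) (l 16354112))) (c (l 16377944) (l 16371944))) (l 16402208)) (a (a (l 16371064) (c (l 16366424) (l 16360304))) (b (a (c (b (l 16364984) (l 16360992)) (l 16357784)) (c (l 16379712) (l 16373736))) (c (l 16370536) (l 16364456))))) (a (c (l 16415416) (l 16410368)) (c (l 16377352) (l 16392880)))) (b (c (l 16421144) (l 16417144)) (c (b (l 16507312) (l 16495368)) (l 16477792)))), by decide +kernel⟩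

def k70_pm_011 : ∃ t, chk3 f_pm_011 t 55 248 1 = true :=
  ⟨(c (b (c (c (c (a (b (c (l 16467768) (l 16458016)) (l 16439480)) (b (a (l 16503432) (l 6)) (l 16508704))) (a (b (l 16483744) (c (l 16456528) (l 16460840))) (b (l 16551568) (c (l 16463416) (l 16530888))))) (a (l 16470976) (l 16540288))) (a (l 16446704) (l 16495864))) (a (b (c (c (c (l 16405280) (l 16386456)) (l 16436784)) (l 16433096)) (c (c (a (c (a (b (l 16355664) (l 16331464)) (b (l 16372256) (l 16362720))) (l 16382056)) (c (b (l 16400440) (c (l 16386040) (l 16388232))) (l 16414736))) (a (c (b (l 16402200) (c (l 16393248) (l 16397576))) (l 16400128)) (c (c (l 16430968) (l 16434200)) (l 16433288)))) (a (a (l 16388328) (l 16403104)) (l 16430176)))) (c (c (c (b (a (l 16459312) (l 16492984)) (c (a (l 16427896) (l 16462584)) (l 16450488))) (b (c (l 16495296) (l 16485064)) (l 16468952))) (c (b (l 16509800) (c (l 16485608) (l 16489024))) (l 16498584))) (l 16475144)))) (a (b (c (l 16442200) (l 16458544)) (a (b (l 16405560) (c (a (l 16382560) (l 16397568))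 (a (l 16376640) (l 16391888)))) (a (c (l 16426728) (l 16421512)) (l 16443160)))) (c (a (l 16495592) (l 16530320)) (a (l 16491480) (l 16526760))))), by decide +kernel⟩

def k71_pm_011 : ∃ t, chk3 f_pm_011 t 55 249 1 = true :=
  ⟨(c (c (a (a (c (b (c (l 16365344) (l 16368728)) (l 16381768)) (b (c (l 16386992) (l 16398592)) (c (b (l 16377464) (l 16377656)) (l 16375496)))) (c (b (b (c (b (a (l 16371920) (l 16386936)) (l 16378752)) (b (l 16392192) (l 16383512))) (c (l 16384312) (l 16381064))) (l 16391504)) (b (b (c (b (c (l 16410856) (l 16419424)) (l 16407080)) (l 16418448)) (c (l 16399400) (l 16415320))) (c (l 16389184) (l 16406464))))) (c (b (a (b (c (b (l 16413888) (l 16406496)) (l 16377712)) (c (l 16403560) (b (c (l 16397248) (l 16404312)) (l 16397624)))) (b (c (l 16445960) (l 16454640)) (c (l 16433288) (b (l 16433040) (c (l 16422528) (l 16423568)))))) (a (l 16406384) (a (l 16420024) (a (l 16427496) (l 16432920))))) (b (a (b (c (b (l 16449168) (l 16435376)) (l 16450216)) (c (l 16418984) (b (l 16437664) (l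 16433736)))) (b (c (l 16477752) (l 16485824)) (c (l 16449136) (a (l 16435504) (l 16473432))))) (c (b (a (l 16405928) (l 16425960)) (l 16386840)) (b (a (l 16427608) (c (l 16444176) (l 16453000))) (l 16425416)))))) (a (b (a (l 16396624) (b (a (l 16407856) (l 16421288)) (l 16413992))) (b (l 16408872) (a (c (l 16409128) (l 16407384)) (l 16416912)))) (b (a (b (l 16447272) (l 16434032)) (b (l 16483240) (l 16464800))) (b (a (l 16432352) (l 16452968)) (c (c (l 16440480) (l 16440720)) (l 16438928)))))) (a (a (c (l 16396512) (l 16390960)) (b (b (c (a (l 16402424) (l 16416056)) (a (l 16396840) (l 16410680))) (l 16406016)) (l 16408712))) (a (b (b (c (l 16442456) (l 16437504)) (c (l 16408048) (l 16423872))) (l 16424496)) (b (b (l 16476848) (c (l 16439304) (l 16455624))) (c (l 16446296) (l 16441464)))))), by decide +kernel⟩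

def k72_pm_011 : ∃ t, chk3 f_pm_011 t 55 125 1 = true :=
  ⟨(c (c (a (b (c (a (l 16423920) (l 16416304)) (b (a (c (l 16393552) (b (l 16391104) (l 16394952))) (c (l 16392608) (l 16394136))) (l 16371704))) (a (l 16474736) (l 16383184))) (b (c (a (l 16422752) (l 16433792)) (b (c (l 16408960) (b (l 16412464) (l 16405736))) (l 16413040))) (a (b (l 16427872) (l 16436264)) (l 16430856)))) (b (c (a (b (a (c (l 16410760) (l 16420704)) (c (l 16409992) (l 16420040))) (c (a (l 16415768) (l 16380344)) (a (l 16429960) (l 16415600)))) (b (c (b (l 16391200) (l 16421928)) (b (l 16438736) (l 16435840))) (c (b (l 16409816) (l 16404104)) (b (l 16429184) (l 16418608))))) (a (a (b (l 16419640) (l 16438848)) (b (l 16418944) (l 16424472))) (b (l 16436024) (l 16411120)))) (c (a (b (c (l 16427352) (a (l 16439856) (l 16392512))) (l 16454136)) (b (c (l 16407600) (b (l 16407576) (l 16402944))) (l 16413736))) (a (b (c (b (l 16397368) (l 16438688)) (l 16426912)) (c (l 16405536) (b (l 16457800) (l 16459200)))) (b (c (b (l 16425448) (l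 16414104)) (l 16428272)) (c (b (l 16405976) (l 16403464)) (b (l 16422192) (b (l 16416544) (l 16410936))))))))) (a (b (a (c (l 16426632) (l 16421832)) (c (l 16418664) (l 16413640))) (c (b (l 16445592) (l 16444000)) (a (l 16466960) (l 16436480)))) (b (a (c (l 16425352) (l 16420368)) (c (l 16436824) (l 16431968))) (c (b (l 16425656) (a (l 16425984) (l 16421880))) (a (l 16420944) (l 16419952)))))), by decide +kernel⟩

def k73_pm_011 : ∃ t, chk3 f_pm_011 t 27 126 2 = true :=
  ⟨(c (a (a (a (l 16358392) (a (l 16420544) (l 16416624))) (b (l 16528784) (l 16487656))) (a (a (l 16469664) (l 16446160)) (b (a (l 16453520) (l 16430984)) (l 16395600)))) (a (a (b (c (a (l 16452392) (a (l 16518808) (l 16537384))) (a (b (l 16470416) (l 16457808)) (a (l 16441552) (b (l 16564968) (l 16562560))))) (a (l 16377848) (a (l 16437752) (l 16433552)))) (b (b (c (l 16523536) (l 16490784)) (l 16533392)) (l 16429496))) (b (b (a (c (l 16486152) (c (l 16473632) (l 16449640))) (c (l 16426256) (a (c (l 16420400) (l 16417064)) (l 16404008))))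 (a (l 16465776) (a (l 16444592) (l 16414496)))) (a (l 16463120) (b (l 16422808) (l 16456800)))))), by decide +kernel⟩

def k74_pm_011 : ∃ t, chk3 f_pm_011 t 27 126 3 = true :=
  ⟨(a (a (c (b (c (b (a (c (l 16461696) (l 16489432)) (a (c (l 16509944) (l 16558968)) (c (l 16528280) (l 16599848)))) (a (c (l 16465992) (l 16435592)) (c (a (l 16531784) (l 16529536)) (a (l 16501688) (l 16499624))))) (a (l 16465672) (a (l 16513000) (l 16532688)))) (c (a (l 16319840) (a (l 16401560) (a (l 16410568) (l 16448120)))) (a (b (l 16322616) (c (l 16365168) (l 16359792))) (a (b (l 16406656) (c (l 16424576) (l 16419480))) (b (c (l 16447680) (l 16499968)) (c (l 16462600) (l 16415736))))))) (a (l 16354256) (a (l 16419976) (l 16397248)))) (c (b (c (b (c (b (l 16515224) (l 16522288)) (l 16526080)) (c (l 16521592) (l 16485568))) (l 16499248)) (c (a (l 16425648) (l 16489936)) (b (c (l 16484760) (l 16537408)) (c (l 16462680) (l 16437168))))) (b (l 16498320) (l 16450792)))) (c (b (a (c (b (c (b (l 16478624) (l 16460056)) (l 16486896))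 (c (l 16452544) (b (l 16500000) (l 16482648)))) (l 16454872)) (c (b (c (b (l 16379720) (a (l 16423632) (l 16404648))) (l 16425656)) (c (a (l 16430352) (l 16399736)) (b (l 16382536) (a (l 16437296) (l 16402144))))) (a (l 16438032) (l 16414296)))) (b (b (c (a (l 16493224) (l 16360528)) (a (l 16480896) (l 16389432))) (c (a (l 16508688) (l 16432488)) (c (a (l 16485064) (l 16387112)) (l 16402152)))) (c (l 16352128) (c (a (l 16481696) (l 16417248)) (a (l 16463232) (b (l 16440304) (l 16420688))))))) (a (b (l 16452576) (l 16477256)) (b (a (l 16434832) (l 16410704)) (a (l 16462664) (l 16414544)))))), by decide +kernel⟩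

def k75_pm_011 : ∃ t, chk3 f_pm_011 t 54 254 2 = true :=
  ⟨(b (a (b (a (b (b (l 16328680) (c (l 16321104) (l 16252712))) (c (l 16286896) (l 16280352))) (b (l 16399616) (a (c (l 16353192) (l 16327040)) (c (a (b (l 16377112) (l 16369224)) (l 16405160)) (a (a (l 16334032) (l 16386368)) (l 16380032)))))) (a (c (l 16193400) (l 16184832)) (a (c (l 16253784) (l 16246368)) (c (a (l 16222008) (l 16306112)) (a (l 16173240) (l 16299688)))))) (b (b (l 16481352) (a (c (c (l 16408824) (l 16406976)) (b (l 16434544) (l 16378800))) (b (l 16528304) (c (l 16477752) (l 16454640))))) (a (c (l 16338704) (l 16312320)) (c (b (l 16401752) (l 16411256)) (c (l 16363800) (l 16341040)))))) (a (a (c (c (l 16012344) (l 16006248)) (c (l 16000120) (l 15993952))) (a (c (c (l 16059568) (l 16053920)) (l 15919560)) (a (c (c (a (l 16079848) (l 16089056)) (l 16016112)) (a (l 15919344) (l 16033624))) (c (l 16017128) (l 16027584))))) (c (c (l 15940688) (l 16041160)) (c (l 16015776) (l 15990368))))), by decide +kernel⟩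

def k76_pm_011 : ∃ t, chk3 f_pm_011 t 54 254 3 = true :=
  ⟨(a (c (b (a (b (b (c (l 16297560) (c (l 16324576) (l 16267320))) (c (l 16278680) (l 16284304))) (l 16100760)) (b (a (b (l 16383176) (b (l 16303056) (l 16332456))) (b (l 16420472) (b (a (a (l 16351496) (l 16403184)) (l 16416816)) (a (l 16346464) (l 16390256))))) (a (l 16226376) (c (l 16202296) (l 16164848))))) (a (c (l 15967304) (l 15943656)) (a (b (l 16106072) (l 15966592)) (a (c (l 15937304) (l 15872416)) (l 15915248))))) (b (a (b (b (b (l 16322552) (c (l 16272072) (l 16310232))) (c (l 16197072) (l 16272272))) (c (c (l 16185712) (l 16175920)) (l 16172624))) (b (b (l 16375992) (a (b (c (l 16362824) (l 16358768)) (l 16330568)) (b (a (a (l 16336320) (l 16398680)) (l 16412568)) (c (a (l 16305264) (l 16391320)) (l 16372016))))) (a (c (l 16161432) (l 16236800)) (c (c (c (l 16233024) (l 16164872)) (l 16262704)) (l 16239192))))) (a (c (c (l 15943248) (b (l 16049488) (l 15918744))) (l 15974896)) (c (a (c (l 16035040) (l 15865096)) (a (c (l 15914480) (b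 (l 16090720) (l 15904552))) (c (l 16081552) (l 15974736)))) (a (l 16025328) (a (l 15988968) (l 16072392))))))) (b (c (b (b (a (l 16472688) (l 16500032)) (a (b (a (l 16422912) (l 16481440)) (c (l 16442848) (l 16408560))) (b (l 16513008) (c (l 16499032) (l 16486432))))) (a (l 16252424) (b (c (l 16440984) (l 16427000)) (l 16366792)))) (b (b (l 16462536) (c (c (b (l 16411496) (a (l 16366320) (l 16465824))) (a (l 16363880) (l 16502888))) (a (b (l 16456296) (l 16420408)) (l 16480800)))) (a (c (c (l 16297456) (l 16351400)) (l 16349328)) (c (c (c (l 16352992) (l 16327152)) (l 16362832)) (l 16319832))))) (c (c (l 15944496) (b (l 16186536) (l 16076776))) (c (c (l 15965464) (b (l 16145712) (l 15994672))) (l 15999344))))), by decide +kernel⟩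

def k77_pm_011 : ∃ t, chk3 f_pm_011 t 110 254 1 = true :=
  ⟨(c (b (b (l 16536784) (b (b (a (c (l 16518392) (a (l 16562936) (l 16600480))) (l 16556968)) (a (a (l 16510728) (l 16516568)) (c (a (l 16584968) (l 16530408)) (a (l 16562976) (l 16528680))))) (c (l 16398008) (l 16396000)))) (c (c (c (l 16168112) (l 16187664)) (l 16143576)) (c (l 16119744) (a (l 16199920) (l 16244240))))) (b (c (b (l 16487184) (b (a (b (a (l 16506264) (l 16554576)) (l 16476192)) (b (l 16548752) (c (l 16501968) (l 16474504)))) (a (l 16437712) (l 16490104)))) (b (l 16461072) (b (a (b (c (c (a (l 16533792) (l 16569304)) (l 16544264)) (l 16522744)) (c (l 16459592) (l 16537600))) (b (l 16502144) (c (c (b (l 16506216) (l 16494208)) (l 16517424)) (l 16495936)))) (c (c (l 16408600) (l 16441576)) (l 16419880))))) (c (b (c (l 16298448) (l 16300464)) (c (l 16203136) (l 16201200))) (b (c (c (l 16282416) (l 16282664)) (l 16318784)) (c (c (l 16224592) (l 16100064)) (l 16197512)))))), by decide +kernel⟩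

def k78_pm_011 : ∃ t, chk3 f_pm_011 t 111 254 1 = true :=
  ⟨(c (b (b (l 16468440) (b (a (a (c (l 16499416) (l 16475896)) (l 16486832)) (l 16444384)) (c (a (c (l 16431464) (l 16451456)) (b (c (l 16432768) (l 16451912)) (a (l 16493632) (l 16450400)))) (a (a (l 16491224) (b (l 16476176) (l 16533568))) (b (c (l 16450056) (l 16448176)) (l 16383912)))))) (c (b (b (l 16405784) (l 16400992)) (c (l 16321120) (l 16340056))) (b (a (l 16436440) (l 16424256)) (c (l 16317048) (l 16315008))))) (b (c (b (l 16394320) (a (b (c (l 16478088) (l 16449304)) (b (c (l 16471584) (l 16444264)) (l 16485904))) (b (l 16432928) (b (c (l 16423744) (l 16395672)) (a (l 16483544) (l 16375640)))))) (b (c (l 16408336) (l 16452408)) (b (a (c (c (b (l 16482872) (l 16466128)) (l 16491816)) (l 16470072)) (l 16405072)) (a (c (c (b (b (l 16451056) (l 16487496)) (l 16497928)) (l 16440464)) (a (l 16503240) (l 16439032))) (c (b (c (b (l 16425088) (l 16388520)) (l 16436000)) (c (l 16387216) (l 16455968))) (b (l 16413672) (l 16433560))))))) (c (b (a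 (l 16396432) (l 16399088)) (c (l 16312976) (l 16312640))) (b (c (c (l 16415560) (l 16414392)) (l 16438248)) (c (c (l 16337232) (c (l 16340928) (l 16317336))) (l 16312176)))))), by decide +kernel⟩

def k79_pm_011 : ∃ t, chk3 f_pm_011 t 54 510 2 = true :=
  ⟨(a (b (a (c (l 15824352) (l 15808472)) (a (c (l 15858776) (l 15843552)) (c (c (l 15889880) (l 15882568)) (a (l 15820744) (l 15880392))))) (c (a (c (b (c (b (l 15750888) (l 15723944)) (l 15728536)) (c (l 15676392) (l 15676656))) (b (l 15727056) (c (b (l 15680656) (l 15654064)) (b (l 15676264) (l 15647304))))) (a (c (b (b (l 15780128) (c (l 15727920) (l 15742048))) (c (l 15699728) (l 15700136))) (b (l 15755064) (c (l 15691448) (b (l 15702728) (l 15668480))))) (c (a (b (b (l 15796232) (c (a (l 15738648) (l 15745512)) (l 15758392))) (c (l 15713728) (a (l 15710064) (l 15716880)))) (b (c (l 15771560) (l 15792384)) (c (l 15730416) (l 15729120)))) (b (l 15779032) (c (a (a (b (l 15714656) (l 15665672)) (l 15707608)) (l 15719560)) (b (l 15724928) (a (a (l 15677624)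 (l 15663232)) (l 15696176)))))))) (c (b (a (l 15718208) (a (l 15746480) (l 15770672))) (a (c (l 15652608) (l 15652816)) (a (c (l 15677984) (l 15676712)) (c (a (a (l 15689736) (l 15697080)) (l 15711040)) (l 15698512))))) (a (l 15677456) (a (l 15703768) (l 15726960)))))) (c (b (c (l 15979512) (l 15973056)) (c (b (c (b (l 15892288) (a (l 15819464) (l 15887080))) (l 15870736)) (c (b (a (l 15791168) (l 15858048)) (l 15785296)) (b (a (l 15783136) (l 15848456)) (l 15784968)))) (b (l 15865096) (c (b (l 15808352) (l 15695072)) (b (l 15808984) (a (l 15736368) (l 15802408))))))) (c (b (l 15966568) (l 15821128)) (l 15739680)))), by decide +kernel⟩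

def k80_pm_011 : ∃ t, chk3 f_pm_011 t 108 511 2 = true :=
  ⟨(b (c (a (c (l 15581072) (l 15570752)) (a (c (l 15597928) (l 15587768)) (c (a (a (l 15605224) (l 15611424)) (l 15623056)) (a (a (l 15595144) (l 15603248)) (l 15616000))))) (c (a (b (c (l 15599560) (b (l 15602832) (l 15576584))) (l 15528768)) (a (b (c (l 15618872) (b (l 15622616) (l 15595168))) (l 15543712)) (b (b (a (c (a (l 15641296) (l 15647736)) (a (l 15631416) (l 15638040))) (c (l 15659592) (l 15650176))) (a (a (l 15606384) (l 15612896)) (l 15625064))) (a (l 15553240) (l 15567936))))) (b (b (a (l 15597872) (a (l 15618568) (l 15638680))) (a (c (l 15568544) (l 15559848)) (a (c (l 15585864) (l 15579384)) (c (a (a (l 15593360) (l 15599648)) (l 15611432)) (a (a (l 15588472) (l 15595256)) (l 15608496)))))) (a (c (l 15520712) (b (l 15533848) (l 15499304))) (a (c (l 15535760) (b (l 15549472) (l 15513296))) (c (a (l 15546056) (l 15561512)) (b (a (a (l 15556176) (l 15562312)) (l 15573976)) (l 15529744)))))))) (c (a (c (l 15454496) (l 15442712)) (a (c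 (l 15462632) (l 15450896)) (c (b (l 15512328) (l 15442096)) (b (l 15501328) (l 15430280))))) (a (c (b (l 15465368) (l 15400440)) (b (l 15454000) (l 15388240))) (a (c (l 15418048) (b (l 15464584) (l 15394280))) (c (b (l 15490264) (l 15418352)) (b (a (l 15472056) (l 15486232)) (b (l 15425808) (l 15389352)))))))), by decide +kernel⟩

def k81_pm_011 : ∃ t, chk3 f_pm_011 t 109 511 2 = true :=
  ⟨(b (c (c (c (l 15695816) (l 15691208)) (c (l 15686600) (b (b (l 15740784) (l 15700216)) (l 15645688)))) (c (b (c (b (a (l 15699224) (l 15763432)) (l 15698472)) (b (c (l 15725056) (l 15726640)) (c (l 15695600) (l 15690944)))) (l 15638456)) (b (c (b (l 15723336) (c (l 15685440) (l 15681608))) (l 15700416)) (b (c (l 15590968) (c (l 15647360) (l 15641688))) (l 15612424))))) (b (c (c (l 15585752) (l 15575472)) (c (l 15565128) (l 15554720))) (c (c (l 15512120) (l 15501000)) (c (l 15489784) (l 15415544))))), by decide +kernel⟩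

def k82_pm_011 : ∃ t, chk3 f_pm_011 t 54 510 3 = true :=
  ⟨(a (c (a (c (l 15732248) (l 15723784)) (a (c (l 15763328) (l 15755152)) (a (b (l 15784928) (l 15705384)) (l 15710120)))) (c (a (b (l 15784704) (l 15651104)) (a (l 15686392) (b (a (l 15840728) (l 15859040)) (l 15702032)))) (a (c (b (l 15780408) (l 15644696)) (l 15707336)) (a (c (b (l 15816920) (l 15671952)) (l 15739376)) (c (b (l 15825056) (c (l 15699024) (l 15697136))) (l 15766072)))))) (c (c (l 15732408) (l 15704368)) (c (b (l 15860840) (l 15790704)) (c (b (l 15920592) (c (l 15788224) (l 15786544))) (l 15837896))))), by decide +kernel⟩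

def k83_pm_011 : ∃ t, chk3 f_pm_011 t 54 1022 3 = true :=
  ⟨(a (c (b (a (l 15566568) (a (l 15586424) (l 15606208))) (a (c (c (b (l 15460000) (l 15496880)) (b (l 15520672) (c (l 15490696) (l 15485016)))) (c (c (l 15496928) (l 15497672)) (l 15493568))) (b (c (a (c (l 15538760) (l 15537072)) (c (b (l 15569048) (a (a (l 15538232) (l 15544392)) (l 15556144))) (l 15554928))) (a (l 15529128) (l 15547112))) (c (a (c (l 15511064) (l 15500936)) (c (a (a (l 15517112) (l 15523216)) (l 15534992)) (a (a (c (l 15509912) (l 15504632)) (l 15512728)) (l 15524320)))) (c (a (l 15494432) (a (a (l 15501416) (l 15507752)) (l 15521136))) (l 15499848)))))) (c (a (l 15518280) (a (l 15536120) (l 15554912))) (c (a (l 15511608) (a (l 15529576) (l 15548504))) (a (l 15504504) (a (l 15522552) (l 15499624)))))) (c (c (b (l 15693608) (c (b (c (l 15637560) (l 15638904)) (c (l 15607448) (l 15603176))) (b (l 15635296) (c (l 15555408) (l 15592888))))) (l 15646872)) (c (l 15637368) (c (l 15631552) (l 15604040))))), by decide +kernel⟩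

def k84_pm_011 : ∃ t, chk3 f_pm_011 t 54 2046 3 = true :=
  ⟨(a (c (c (a (l 15442552) (a (l 15453240) (a (a (l 15458848) (l 15464848)) (l 15476848)))) (c (a (c (l 15439016) (l 15394584)) (a (b (l 15463736) (l 15427248)) (b (a (a (c (l 15471120) (l 15465832)) (l 15474520)) (l 15485992)) (l 15441424)))) (b (b (a (l 15452712) (l 15473128)) (a (l 15434160) (a (l 15445056) (a (a (c (l 15453264) (l 15450624)) (l 15455704)) (l 15467216))))) (a (l 15414928) (a (l 15424648) (a (a (c (l 15427256) (l 15426616)) (l 15434576)) (l 15446072))))))) (c (b (a (l 15435944) (a (l 15447984) (l 15463600))) (c (a (c (l 15407800) (l 15401904)) (a (c (l 15417080) (l 15411328)) (a (a (c (l 15421136) (b (l 15427472) (l 15408376))) (c (l 15426792) (l 15421224))) (c (l 15438176) (l 15432680))))) (c (a (l 15399048) (a (l 15409432) (a (a (l 15414192) (l 15421256)) (l 15432816)))) (a (l 15398536) (l 15415464))))) (a (c (l 15410736) (l 15404472)) (c (l 15429216) (a (l 15415496) (l 15430656)))))) (c (c (c (l 15546880) (c (l 15542944) (l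 15544776))) (c (b (c (l 15558368) (a (l 15521544) (l 15583744))) (l 15517536)) (b (c (a (l 15516616) (l 15579792)) (l 15548736)) (c (l 15516504) (l 15491952))))) (c (c (b (l 15544816) (c (a (l 15476248) (l 15537848)) (a (l 15470960) (l 15533216)))) (l 15520488)) (c (l 15515160) (l 15509400))))), by decide +kernel⟩

def k85_pm_011 : ∃ t, chk3 f_pm_011 t 108 2047 3 = true :=
  ⟨(c (c (a (l 15375896) (a (l 15381968) (b (l 15414088) (l 15377128)))) (c (a (l 15367224) (a (l 15373400) (a (l 15378816) (l 15392552)))) (a (l 15360928) (a (l 15367104) (b (l 15399328) (l 15362072)))))) (c (a (b (c (l 15372968) (b (c (l 15377696) (l 15371728)) (l 15360328))) (c (l 15339032) (l 15332664))) (a (b (c (l 15380696) (b (c (l 15385472) (l 15379616)) (l 15367216))) (c (l 15344072) (l 15337704))) (b (a (c (l 15386840) (b (a (c (l 15388880) (l 15383144)) (c (l 15394424) (l 15388736))) (a (l 15370224) (l 15375728)))) (c (l 15401128) (b (c (l 15405736) (l 15400112)) (l 15387056)))) (c (l 15355800) (b (l 15359888) (l 15340904))))))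 (b (c (b (a (l 15369160) (l 15383928)) (a (c (l 15353176) (l 15343208)) (a (c (l 15359808) (l 15349904)) (a (a (c (l 15362752) (c (l 15361024) (l 15360152))) (c (l 15368208) (l 15366432))) (c (l 15379480) (l 15377792)))))) (a (l 15354608) (a (l 15362104) (l 15375328)))) (a (c (b (c (l 15337432) (l 15291296)) (c (l 15320296) (l 15317080))) (c (b (l 15326800) (l 15313376)) (l 15315144))) (a (c (b (c (l 15343272) (b (l 15343424) (l 15336424))) (c (l 15324816) (l 15321600))) (c (b (l 15332184) (l 15317696)) (l 15320048))) (c (b (c (l 15355696) (a (a (b (l 15346032) (l 15338832)) (b (l 15351424) (l 15344216))) (b (l 15362640) (l 15355456)))) (c (l 15336344) (a (l 15326272) (l 15340048)))) (a (a (c (b (l 15334592) (b (l 15325480) (l 15316504))) (b (l 15336328) (l 15315120))) (c (b (l 15339984) (l 15324912)) (l 15327608))) (c (b (l 15351232) (l 15336048)) (l 15338832))))))))), by decide +kernel⟩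

def k86_pm_011 : ∃ t, chk3 f_pm_011 t 109 2047 3 = true :=
  ⟨(c (b (c (l 15488112) (l 15477032)) (c (l 15449432) (l 15437872))) (c (c (b (c (l 15470080) (l 15469896)) (l 15429336)) (b (b (c (l 15473936) (l 15468432)) (c (l 15454936) (l 15453744))) (c (l 15425192) (l 15422200)))) (c (b (b (l 15467104) (c (a (l 15417144) (l 15478088)) (a (l 15415832) (l 15477256)))) (b (c (l 15431728) (c (l 15429024) (l 15422320))) (b (l 15414360) (l 15404360)))) (b (l 15451712) (b (c (l 15419296) (l 15421344)) (c (b (l 15409488) (l 15399968)) (l 15399152))))))), by decide +kernel⟩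

def k87_pm_011 : ∃ t, chk3 f_pm_011 t 55 510 2 = true :=
  ⟨(c (b (c (a (l 16107248) (l 16178600)) (a (l 16123176) (l 16237912))) (c (b (a (c (a (l 15976568) (l 16051328)) (l 16012184)) (l 16160472)) (a (c (b (a (l 15924512) (c (l 15993992) (l 15989568))) (l 15922552)) (b (a (l 15915768) (l 15986224)) (a (l 15885864) (l 15953312)))) (c (b (a (b (l 16072568) (l 16052376)) (l 16132296)) (a (l 16027904) (b (l 16106168) (l 16086224)))) (b (l 16097504) (a (l 16020832) (l 16005560)))))) (b (l 15934032) (b (l 15978952) (a (c (a (l 15876960) (l 15943968)) (l 15862760)) (c (a (l 16013360) (l 16086264)) (l 16050472))))))) (a (c (l 15830368) (l 15803552)) (c (b (l 16213336) (l 16087968)) (c (l 16042352) (l 16040128))))), by decide +kernel⟩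

def k88_pm_011 : ∃ t, chk3 f_pm_011 t 55 511 2 = true :=
  ⟨(b (c (c (a (c (l 15823928) (l 15819936)) (c (l 15935200) (a (l 15919224) (l 15949488)))) (b (a (b (c (l 15878520) (a (l 15838888) (l 15904880))) (l 15833424)) (c (b (a (l 15980760) (l 16049216)) (l 15970320)) (b (a (l 15971768) (l 16040272)) (l 15971760)))) (a (l 15775176) (l 15906112)))) (c (c (b (a (b (a (l 15829032) (l 15896632)) (a (l 15797896) (l 15864912))) (b (a (l 15966952) (l 16041240)) (a (l 15931800) (l 15999008)))) (l 15771328)) (b (b (l 15932232) (a (a (l 15790024) (l 15855424)) (a (l 15859264) (l 15990832)))) (a (l 15767760) (b (a (l 15888080) (l 15956512)) (l 15876040))))) (b (a (c (c (b (l 15860016) (l 15816632)) (l 15838408)) (l 15835472)) (l 15976712)) (c (a (b (a (l 15750560) (l 15815704)) (l 15740680)) (b (c (l 15875112) (a (l 15878848) (l 15945656))) (l 15872328))) (a (b (c (l 15712352) (l 15729128)) (l 15656680)) (b (a (b (l 15887520) (l 15863560)) (l 15920416)) (c (l 15873328) (l 15765568)))))))) (c (b (c (a (l 15706512)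 (l 15830512)) (a (l 15697400) (l 15822576))) (c (a (b (l 15648672) (l 15609152)) (b (l 15768384) (l 15725920))) (a (l 15617632) (l 15736888)))) (b (c (a (l 15688232) (l 15814600)) (a (l 15679008) (l 15764632))) (c (a (l 15607536) (l 15706944)) (b (l 15533872) (a (l 15578568) (l 15698696))))))), by decide +kernel⟩

def k89_pm_011 : ∃ t, chk3 f_pm_011 t 55 510 3 = true :=
  ⟨(c (a (c (l 15797672) (b (l 16082096) (l 15942424))) (b (c (l 16206064) (l 16181768)) (c (l 16077504) (l 16072232)))) (c (b (a (l 15955232) (c (l 16222808) (l 16182064))) (a (l 15937352) (l 16047592))) (c (b (a (l 16037064) (l 16139376)) (c (l 15822688) (a (l 15934400) (l 16045880)))) (a (l 15928744) (l 16025792))))), by decide +kernel⟩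

def k90_pm_011 : ∃ t, chk3 f_pm_011 t 55 511 6 = true :=
  ⟨(b (c (b (l 15731512) (a (c (b (a (l 15736336) (l 15805448)) (c (l 15714408) (a (l 15698008) (l 15762264)))) (b (l 15767696) (b (l 15737656) (a (l 15682240) (l 15747000))))) (b (l 15905936) (c (c (a (l 15832640) (l 15898456)) (a (l 15827608) (l 15894320))) (c (l 15795216) (l 15860200)))))) (a (l 15781464) (l 15920384))) (b (b (c (c (a (l 15692064) (l 15825040)) (a (c (l 15691624) (l 15668320)) (c (l 15801664) (a (l 15785728) (l 15850848))))) (c (a (c (a (l 15652376) (l 15715928)) (a (l 15646872) (l 15711032))) (c (a (l 15780336) (l 15845720)) (a (l 15776368) (l 15843040)))) (a (c (l 15591928) (l 15677200)) (l 15810160)))) (c (a (l 15649720) (l 15777016)) (c (a (l 15644768) (c (l 15771824) (l 15773272))) (a (c (l 15642304) (a (l 15606080) (l 15669008))) (c (a (l 15737872) (l 15802440)) (a (l 15732640) (l 15797040))))))) (c (a (b (l 15609624) (l 15568200)) (b (l 15733952) (l 15689472))) (c (a (l 15579864) (l 15577584)) (a (b (l 15597224) (l 15555416))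 (b (l 15723032) (l 15678136))))))), by decide +kernel⟩

def k91_pm_011 : ∃ t, chk3 f_pm_011 t 55 511 7 = true :=
  ⟨(c (c (b (l 15718760) (b (b (l 15739472) (b (a (c (l 15642544) (l 15642024)) (l 15773368)) (a (c (l 15624232) (l 15618880)) (c (l 15751168) (l 15747648))))) (a (b (c (l 15593488) (l 15594280)) (l 15550112)) (b (c (l 15721760) (a (l 15688760) (l 15752744))) (l 15673400))))) (b (l 15715080) (b (l 15714064) (b (c (a (a (l 15559064) (l 15621376)) (c (l 15717528) (l 15714656))) (b (a (l 15530528) (l 15724176)) (a (l 15576792) (l 15660368)))) (b (a (l 15556496) (l 15681224)) (a (l 15535264) (l 15658432))))))) (c (b (a (l 15768456) (l 15909656)) (b (l 15709552) (b (c (b (l 15657480) (b (a (l 15575952) (l 15705416)) (a (l 15566536) (l 15692024)))) (a (l 15580960) (l 15708704))) (b (a (c (l 15554672) (c (a (l 15520648) (l 15582488)) (a (l 15513408) (l 15575112)))) (c (c (l 15679560) (l 15678912)) (c (a (l 15644944) (l 15708024)) (a (l 15637472) (l 15679528))))) (c (l 15551000) (b (a (l 15534568) (l 15658896))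 (l 15585760))))))) (b (a (l 15678688) (l 15757632)) (b (c (l 15706904) (l 15703816)) (b (l 15556872) (b (c (a (l 15542152) (l 15667672)) (l 15607464)) (b (c (l 15435968) (l 15544760)) (c (a (l 15521128) (l 15644672)) (l 15558160))))))))), by decide +kernel⟩

def k92_pm_011 : ∃ t, chk3 f_pm_011 t 7 2 1 = true :=
  ⟨(l 1), by decide +kernel⟩

def k93_pm_011 : ∃ t, chk3 f_pm_011 t 7 6 1 = true :=
  ⟨(l 4), by decide +kernel⟩

def k94_pm_011 : ∃ t, chk3 f_pm_011 t 14 14 1 = true :=
  ⟨(l 4), by decide +kernel⟩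

def k95_pm_011 : ∃ t, chk3 f_pm_011 t 28 30 1 = true :=
  ⟨(l 6), by decide +kernel⟩

def k96_pm_011 : ∃ t, chk3 f_pm_011 t 112 124 1 = true :=
  ⟨(b (a (b (l 6) (c (c (c (c (b (l 16524496) (c (l 16495208) (l 16500400))) (b (l 16528024) (l 16519312))) (c (c (l 16505072) (l 16549312)) (l 16548736))) (l 16546752)) (c (l 16543504) (l 16540152)))) (l 6)) (c (c (b (c (c (a (l 16452688) (b (l 16511632) (l 16500000))) (b (l 16442184) (c (l 16477520) (l 16481736)))) (a (c (l 16455264) (l 16488808)) (c (b (l 16544640) (l 16516752)) (l 16501048)))) (c (a (b (b (c (l 16458272) (l 16449040)) (l 16449248)) (l 16447608)) (b (l 16484920) (l 16475776))) (b (c (a (b (l 16460184) (l 16447760)) (l 16487808)) (a (b (l 16482992) (l 16471528)) (l 16510528))) (a (c (l 16438432) (l 16456448)) (c (c (l 16463952) (l 16467112)) (l 16485008)))))) (b (l 16526016) (a (b (l 16482672) (c (l 16429984) (l 16470632))) (b (l 16516312) (c (c (c (l 16458264) (l 16501944)) (l 16501224)) (l 16499768)))))) (b (c (l 16522456) (l 16518784)) (a (b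 (c (l 16478448) (l 16474096)) (c (l 16467344) (l 16462840))) (b (l 16510752) (c (l 16496824) (l 16492776))))))), by decide +kernel⟩

def k97_pm_011 : ∃ t, chk3 f_pm_011 t 112 125 1 = true :=
  ⟨(c (c (b (c (a (l 16448512) (l 16467312)) (b (c (l 16443912) (b (l 16429488) (c (l 16435888) (l 16437840)))) (l 16436872))) (a (c (l 16441336) (l 16429376)) (c (l 16448184) (l 16436144)))) (b (c (b (c (b (c (l 16468440) (l 16476536)) (l 16454624)) (b (l 16477616) (l 16468968))) (c (b (l 16436584) (l 16425048)) (a (l 16439800) (l 16413920)))) (b (l 16472224) (b (l 16460824) (l 16452888)))) (c (b (c (l 16420016) (b (l 16422928) (l 16412432))) (l 16413680)) (b (c (b (l 16441240) (l 16423856)) (l 16441264)) (c (b (l 16409512) (l 16400136)) (b (l 16426080) (l 16409336))))))) (b (a (c (l 16452128) (l 16447472)) (c (l 16471688) (l 16467312))) (c (b (l 16438704) (l 16402904)) (a (l 16423448) (l 16430424))))), by decide +kernel⟩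

def k98_pm_011 : ∃ t, chk3 f_pm_011 t 113 62 1 = true :=
  ⟨(b (b (l 6) (b (a (a (c (c (c (c (l 16528792) (b (l 6) (l 16499504))) (c (l 16511288) (l 16545288))) (l 16566000)) (l 16561568)) (l 6)) (l 6)) (c (c (a (c (b (l 16517208) (l 16508032)) (c (b (l 16520328) (c (l 16496256) (l 16499520))) (b (l 16543416) (l 16517704)))) (c (c (l 16547920) (l 16517488)) (c (b (l 16550368) (l 16488456)) (b (l 16526624) (l 16549360))))) (b (l 16565336) (a (c (a (l 16525424) (l 16541968)) (l 16533104)) (c (l 16523976) (l 16565376))))) (a (c (l 16496704) (l 16514280)) (c (l 16570440) (l 16567536)))))) (c (c (b (b (c (a (b (l 16499808) (l 16493904)) (a (l 16519864) (l 16536184))) (a (c (l 16439712) (b (l 16449384) (l 16473664))) (c (b (l 16517536) (l 16508560)) (b (l 16482048) (c (l 16501352) (l 16503488)))))) (c (a (l 16484848) (l 16509880)) (l 16435376))) (a (c (l 16458696) (l 16446616)) (c (l 16452344) (l 16461216)))) (b (b (c (a (c (b (c (l 16509712) (l 16518024)) (l 16490744)) (b (l 16519248) (l 16505464))) (c (b (c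 (l 16542672) (l 16551128)) (l 16520920)) (b (l 16552472) (l 16514944)))) (a (l 16511136) (l 16543520))) (c (c (b (a (l 16467704) (l 16494640)) (c (l 16460904) (l 16461696))) (b (a (l 16488024) (l 16515288)) (l 16477664))) (a (l 16486080) (l 16511760)))) (c (b (c (l 16447448) (b (l 16432824) (l 16436560))) (l 16427984)) (b (c (b (c (l 16470160) (l 16476776)) (l 16406384)) (l 16448512)) (c (b (l 16427112) (l 16410936)) (b (l 16423120) (l 16378424))))))) (b (a (b (c (b (l 16515192) (l 16502256)) (l 16462560)) (l 16481328)) (a (c (l 16474888) (l 16471200)) (c (l 16490608) (l 16476680)))) (c (b (l 16467152) (a (l 16433504) (l 16444864))) (a (l 16441288) (l 16456512)))))), by decide +kernel⟩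

def k99_pm_011 : ∃ t, chk3 f_pm_011 t 57 124 1 = true :=
  ⟨(l 6), by decide +kernel⟩

def k100_pm_011 : ∃ t, chk3 f_pm_011 t 57 250 1 = true :=
  ⟨(b (a (a (c (c (c (b (l 16565416) (l 16557616)) (c (b (l 16550792) (l 16542576)) (b (l 16557456) (b (l 16540880) (l 16532728))))) (c (c (b (l 16558976) (l 16555344)) (a (l 16527696) (l 16566368))) (l 16557208))) (b (l 16582336) (a (l 16558344) (l 16576440)))) (b (l 6) (c (c (c (l 16592960) (c (l 16577984) (l 16552192))) (c (c (l 16591184) (l 16606768)) (l 16607040))) (l 16604288)))) (l 6)) (a (c (c (a (c (l 16498120) (l 16520728)) (b (c (l 16562040) (l 16542152)) (c (l 16568368) (l 16549200)))) (c (c (a (b (l 16505968) (l 16503320)) (b (b (l 16569832) (l 16535304)) (c (l 16536576) (l 16537552)))) (a (b (c (l 16544928) (l 16552600)) (l 16519096)) (b (c (l 16560520) (b (l 16595704) (l 16584800))) (l 16554168)))) (a (b (l 16553024) (l 16533016)) (b (l 16589928) (l 16526504))))) (a (c (l 16540704) (l 16537408)) (c (b (l 16588096) (l 16566808)) (b (l 16585552) (l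 16563928))))) (a (a (a (c (c (b (l 16597736) (l 16583440)) (c (c (b (l 16586872) (l 16562904)) (b (l 16608448) (l 16579176))) (b (l 16614000) (l 16593704)))) (b (l 16611416) (l 16591184))) (b (l 6) (a (c (c (l 16590984) (c (c (l 16570488) (l 16586824)) (l 16601424))) (l 16599064)) (b (l 6) (c (c (l 16573416) (c (c (l 16571272) (l 16585416)) (l 16602984))) (l 16600712)))))) (b (l 6) (b (l 6) (c (c (l 16582672) (c (c (l 16581096) (l 16614880)) (l 16611536))) (l 16609912))))) (l 6)))), by decide +kernel⟩

def k101_pm_011 : ∃ t, chk3 f_pm_011 t 114 251 1 = true :=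
  ⟨(b (c (c (c (a (l 16510168) (l 16538648)) (l 16467024)) (c (c (l 16493656) (b (c (l 16456720) (l 16507952)) (c (l 16478472) (l 16456976)))) (c (b (c (l 16499944) (l 16506800)) (b (l 16501376) (l 16484408))) (a (l 16502880) (l 16532072))))) (a (l 16498944) (l 16507680))) (c (c (a (l 16470752) (c (l 16495832) (l 16487176))) (c (l 16458984) (c (b (c (l 16457208) (l 16464960)) (l 16438024)) (b (c (l 16477376) (l 16483416)) (c (l 16443400) (l 16455432)))))) (c (a (l 16460728) (l 16481672)) (l 16466232)))), by decide +kernel⟩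

def k102_pm_011 : ∃ t, chk3 f_pm_011 t 115 251 1 = true :=
  ⟨(a (c (c (a (a (c (l 16535088) (l 16523192)) (a (c (l 16541008) (l 16529136)) (c (b (l 16552568) (l 16523048)) (l 16473376)))) (c (b (l 16584264) (l 16556400)) (l 16507216))) (a (c (c (a (l 16510168) (a (l 16516136) (l 16523280))) (b (a (b (l 16542712) (l 16512744)) (a (b (l 16549976) (l 16519152)) (b (l 16515456) (l 16526280)))) (a (l 16480136) (l 16467640)))) (b (c (a (b (l 16562504) (l 16525208)) (a (b (l 16569840) (l 16531664)) (b (c (l 16574640) (l 16581712)) (l 16496872)))) (a (l 16553496) (a (l 16560440) (l 16567784)))) (c (a (l 16457200) (a (l 16462336) (b (l 16503472) (l 16473280)))) (a (b (l 16508824) (l 16471952)) (a (b (l 16514448) (l 16476688)) (b (l 16500392) (l 16441360))))))) (c (c (l 16536072) (b (c (l 16529496) (l 16533680)) (l 16525376))) (b (c (b (l 16566600) (l 16549944)) (l 16578648)) (c (b (l 16536424) (l 16507112)) (b (l 16533544) (l 16496344))))))) (a (c (a (l 16503768) (a (l 16509896) (b (l 16566424) (l 16509720)))) (a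 (l 16521288) (a (l 16527512) (l 16534768)))) (c (b (l 16598608) (l 16543696)) (l 16547456)))) (b (b (a (c (c (c (l 16645680) (l 16653736)) (c (c (l 16638144) (c (l 16611576) (l 16641376))) (c (c (l 16633936) (l 16641232)) (l 16662936)))) (l 16619704)) (l 6)) (c (c (c (l 16607088) (l 16619840)) (c (c (l 16604216) (c (l 16613176) (l 16590816))) (c (l 16562968) (l 16599416)))) (l 16598664))) (c (c (c (l 16572776) (l 16568888)) (c (c (l 16577552) (l 16562776)) (c (b (l 16551664) (l 16545584)) (b (l 16549256) (l 16514272))))) (c (l 16540488) (l 16580752))))), by decide +kernel⟩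

def k103_pm_011 : ∃ t, chk3 f_pm_011 t 56 126 1 = true :=
  ⟨(c (c (a (b (a (l 16421768) (l 16416304)) (a (l 16403664) (l 16384384))) (b (a (l 16413616) (l 16414048)) (a (l 16368240) (l 16354200)))) (b (a (b (c (l 16411032) (a (l 16398520) (l 16395784))) (l 16396776)) (b (c (l 16412112) (c (l 16398152) (b (l 16400496) (l 16385456)))) (l 16384216))) (a (b (l 16389384) (l 16379792)) (b (l 16363224) (l 16338816))))) (c (b (c (b (c (a (b (l 16411000) (l 16395128)) (b (l 16415416) (l 16371528))) (a (l 16410040) (l 16411064))) (a (c (l 16381552) (b (l 16396008) (l 16381264))) (c (b (l 16373968) (l 16360160)) (b (l 16386600) (l 16343776))))) (a (l 16401144) (b (l 16409256) (l 16381072)))) (c (a (b (c (l 16375656) (l 16369616)) (l 16368232)) (b (c (l 16348888) (l 16342592)) (l 16326416))) (b (b (a (l 16381720) (l 16358216)) (c (a (l 16367752) (l 16337120)) (l 16359616))) (c (a (l 16338152) (l 16316824)) (a (b (l 16366600) (l 16313880)) (b (l 16328624) (l 16309656))))))) (a (b (l 16397280) (a (l 16380384) (l 16359696)))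 (b (l 16370120) (l 16271568))))), by decide +kernel⟩

def k104_pm_011 : ∃ t, chk3 f_pm_011 t 57 126 2 = true :=
  ⟨(a (c (b (a (b (l 16436472) (l 16400128)) (b (l 16448576) (l 16403888))) (a (l 16342560) (b (l 16357752) (l 16310000)))) (b (b (c (l 16427760) (c (l 16413608) (b (l 16398904) (l 16396904)))) (l 16363160)) (b (l 16347360) (l 16306976)))) (a (b (c (a (a (l 16433128) (a (l 16435648) (c (l 16423712) (l 16439000)))) (c (l 16438592) (l 16475992))) (a (c (a (l 16420688) (a (l 16423216) (l 16429168))) (c (a (l 16409896) (a (l 16412424) (l 16418296))) (b (a (l 16426592) (a (l 16429992) (b (l 16449168) (l 16419984)))) (l 16382056)))) (c (l 16381960) (b (c (l 16474944) (l 16429568)) (l 16428992))))) (c (a (a (l 16329608) (a (l 16328656) (c (l 16335648) (l 16331576)))) (b (l 16400392) (l 16346272))) (a (a (l 16317576) (a (l 16316584) (l 16321360))) (c (l 16366336) (l 16357168))))) (c (b (b (l 16504928) (l 16458200)) (c (l 16364440) (l 16405600))) (b (c (c (l 16453840) (b (l 16527520) (l 16508560))) (b (c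 (l 16558856) (c (l 16510976) (l 16471576))) (l 16517768))) (c (c (l 16423288) (l 16418080)) (l 16390096)))))), by decide +kernel⟩

def k105_pm_011 : ∃ t, chk3 f_pm_011 t 57 126 3 = true :=
  ⟨(a (c (b (c (b (c (b (l 16393240) (c (l 16400160) (l 16411200))) (l 16426968)) (c (b (l 16377528) (l 16355704)) (b (l 16390432) (c (l 16356824) (l 16366520))))) (b (l 16425216) (l 16380880))) (c (b (b (l 16317248) (l 16320936)) (l 16293880)) (b (c (b (l 16345280) (l 16274512)) (l 16335872)) (c (l 16283872) (b (l 16299752) (l 16272424)))))) (b (a (l 16395480) (l 16403552)) (b (l 16331816) (l 16287056)))) (a (c (b (a (a (c (b (c (b (l 16454552) (l 16418368)) (l 16443920)) (c (l 16374664) (b (l 16399720) (l 16364456)))) (l 16414920)) (c (b (c (b (a (l 16458448) (l 16464816)) (a (l 16421352) (l 16406448))) (l 16408568)) (c (a (l 16376312) (l 16381936)) (b (a (l 16401840) (l 16407656)) (c (l 16364824) (l 16374664))))) (a (l 16417504) (l 16423504)))) (c (b (c (b (l 16499904) (l 16442408)) (l 16489344)) (c (l 16419240) (b (l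 16444704) (l 16409112)))) (l 16460360))) (c (a (b (c (l 16330168) (a (l 16322416) (a (l 16322272) (l 16327336)))) (l 16280208)) (b (c (l 16373072) (l 16366648)) (l 16323720))) (a (b (c (b (a (l 16344320) (l 16326288)) (c (l 16308112) (l 16316160))) (l 16333512)) (b (c (l 16260464) (l 16267776)) (c (l 16256464) (c (l 16253224) (l 16257544))))) (b (c (b (l 16388936) (l 16354536)) (l 16377008)) (c (l 16313744) (b (l 16332608) (l 16299672))))))) (a (a (l 16292624) (b (l 16353696) (l 16280856))) (b (l 16456992) (l 16345336)))) (b (c (c (b (c (b (l 16520560) (l 16465320)) (l 16532536)) (c (l 16424648) (b (l 16491368) (l 16437088)))) (l 16464512)) (l 16483280)) (c (c (b (c (l 16467112) (l 16419120)) (l 16422744)) (b (c (b (l 16461680) (l 16408632)) (l 16472352)) (c (l 16392400) (b (l 16431512) (l 16359000))))) (l 16381232))))), by decide +kernel⟩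

def k106_pm_011 : ∃ t, chk3 f_pm_011 t 112 254 1 = true :=
  ⟨(b (a (c (b (l 16390688) (b (l 16389440) (b (l 16389120) (c (a (l 16371824) (c (l 16382608) (l 16380080))) (a (l 16388304) (l 16376552)))))) (c (b (l 16356048) (b (l 16376256) (b (l 16376200) (c (a (l 16404536) (l 16371160)) (a (l 16397688) (l 16363960)))))) (b (c (l 16368800) (l 16370184)) (b (c (l 16368264) (l 16369352)) (b (c (l 16368128) (l 16369368)) (c (c (a (l 16347256) (l 16355120)) (l 16337568)) (a (l 16393040) (l 16358640)))))))) (c (l 16354936) (c (c (l 16344920) (l 16337192)) (c (c (l 16311272) (l 16335096)) (l 16332808))))) (b (a (c (c (c (l 16362208) (l 16402752)) (c (l 16380352) (l 16378880))) (c (c (l 16376832) (l 16351168)) (c (c (l 16347248) (l 16324456)) (l 16367696)))) (c (b (c (b (c (a (l 16370864) (l 16348536)) (l 16316560)) (l 16394400)) (b (a (l 16364312) (c (l 16342768) (l 16339824))) (l 16389528))) (c (l 16415328) (l 16432624))) (c (b (b (c (a (l 16359336) (l 16336072)) (a (l 16352640) (l 16329120))) (l 16381936)) (l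 16385088)) (b (c (b (c (b (l 16326256) (l 16335872)) (b (l 16331704) (l 16341136))) (c (l 16369792) (l 16374008))) (b (a (l 16346304) (l 16322304)) (l 16372912))) (c (c (l 16438720) (l 16417192)) (l 16440080)))))) (c (c (c (a (l 16472672) (l 16458592)) (l 16429184)) (a (l 16428656) (l 16415136))) (c (c (l 16406896) (b (l 16427024) (l 16425424))) (c (c (l 16425496) (a (l 16414680) (l 16425880))) (l 16405256)))))), by decide +kernel⟩

def k107_pm_011 : ∃ t, chk3 f_pm_011 t 113 254 1 = true :=
  ⟨(b (c (c (l 16318920) (l 16311992)) (c (c (l 16304320) (l 16254152)) (c (c (b (l 16297384) (l 16282360)) (l 16293488)) (l 16290880)))) (c (b (b (b (a (a (c (c (l 16329776) (l 16326704)) (l 16322440)) (l 16307088)) (l 16285048)) (b (a (c (a (l 16336008) (l 16291256)) (a (l 16329992) (l 16305696))) (l 16282024)) (a (c (l 16319392) (l 16334480)) (c (a (a (l 16302272) (l 16290896)) (l 16257136)) (a (l 16290672) (l 16270856)))))) (c (a (l 16333480) (a (l 16328232) (b (c (b (l 16285312) (l 16306768)) (l 16291624)) (l 16339528))))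 (a (l 16391512) (b (a (l 16320424) (l 16265480)) (l 16349936))))) (c (c (c (l 16373808) (l 16373088)) (l 16351016)) (c (l 16370504) (l 16348016)))) (c (b (b (a (b (c (l 16309272) (l 16302000)) (a (l 16310624) (c (l 16307072) (l 16300384)))) (b (l 16270912) (b (l 16268544) (a (l 16260376) (l 16261096))))) (a (l 16342728) (a (l 16335528) (c (l 16261072) (l 16255120))))) (c (l 16346464) (l 16343568))) (b (b (b (a (c (c (l 16291744) (l 16296632)) (l 16294608)) (c (l 16259232) (l 16259704))) (b (a (c (c (l 16275200) (l 16279832)) (l 16298944)) (c (l 16256144) (l 16256720))) (c (a (c (l 16313616) (l 16317560)) (c (l 16259008) (l 16220800))) (a (l 16315888) (l 16261056))))) (c (c (a (l 16374536) (b (l 16281088) (l 16331592))) (a (l 16373672) (b (a (l 16299912) (l 16201752)) (l 16330408)))) (a (l 16375152) (a (l 16324760) (l 16267176))))) (c (c (l 16359328) (c (l 16355240) (l 16356464))) (l 16337496)))))), by decide +kernel⟩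

def k108_pm_011 : ∃ t, chk3 f_pm_011 t 56 510 2 = true :=
  ⟨(c (b (a (c (c (l 16297920) (l 16317832)) (l 16295280)) (c (a (l 16444048) (l 16484424)) (l 16410584))) (c (b (a (l 16249976) (l 16377880)) (a (c (b (a (l 16209136) (l 16285592)) (a (b (l 16175936) (l 16159200)) (b (l 16248504) (l 16209256)))) (b (l 16245848) (a (b (l 16175664) (l 16151240)) (l 16234600)))) (c (b (l 16372112) (b (l 16337464) (a (c (l 16289064) (l 16286288)) (l 16335984)))) (l 16347456)))) (a (l 16159952) (l 16286936)))) (b (a (a (l 16293608) (l 16312536)) (c (l 16409696) (l 16408808))) (a (c (l 16177088) (l 16152304)) (c (l 16305256) (l 16302600))))), by decide +kernel⟩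

def k109_pm_011 : ∃ t, chk3 f_pm_011 t 56 1022 2 = true :=
  ⟨(a (c (c (b (b (c (l 16079048) (a (l 16125424) (b (l 16205024) (l 16184616)))) (l 16113856)) (l 15921240)) (b (c (b (a (l 16118000) (b (l 16199520) (l 16179544))) (l 16114080)) (b (a (l 16111288) (l 16185840)) (a (l 16075760) (l 16145496)))) (l 16041184))) (c (b (b (l 16148592) (c (c (l 16040984) (l 15974048)) (a (l 16062032) (l 16138200)))) (b (c (l 16043088) (a (l 16003832) (l 16009416))) (l 16012592))) (b (l 16120824) (c (b (c (a (l 16017880) (l 16086696)) (a (l 16014152) (l 16084992))) (a (l 15976456) (l 16046776))) (b (a (l 16012648) (l 16086440)) (c (a (l 15974464) (l 16042512)) (a (l 15970224) (l 16037744)))))))) (c (c (b (b (c (a (b (l 16269792) (l 16244088)) (b (c (l 16318360) (l 16314400)) (l 16294720))) (a (b (l 16262136) (l 16244944)) (b (l 16310696) (l 16290816)))) (c (l 16233224) (a (l 16207800) (l 16257624)))) (c (l 16163400) (l 16160984))) (b (c (b (a (b (l 16262928) (l 16237088)) (l 16296368)) (a (l 16210200) (b (l 16265032) (l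 16243184)))) (b (l 16273984) (a (l 16203144) (b (l 16259400) (l 16239008))))) (c (l 16158568) (a (l 16133880) (l 16181984))))) (c (b (c (b (l 16272104) (a (l 16175272) (l 16244792))) (l 16246456)) (b (c (a (l 16159240) (l 16182952)) (a (b (l 16160552) (l 16142840)) (b (l 16207152) (l 16186232)))) (c (l 16130080) (l 16130976)))) (b (l 16243456) (c (c (b (a (l 16146560) (l 16193584)) (l 16067232)) (b (l 16169552) (a (l 16105456) (l 16148552)))) (b (l 16170536) (c (a (l 16101296) (l 16143936)) (a (l 16096744) (l 16140336))))))))), by decide +kernel⟩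

def k110_pm_011 : ∃ t, chk3 f_pm_011 t 56 1023 2 = true :=
  ⟨(b (c (a (c (l 15915968) (l 15951168)) (c (c (l 16049080) (l 16067200)) (l 15937072))) (c (a (l 15944392) (l 16015208)) (a (l 15790776) (c (l 16052824) (a (l 16028872) (l 16074096)))))) (c (a (c (b (l 15890952) (l 15845176)) (l 15753944)) (c (b (l 15998352) (a (l 15931712) (l 15969232))) (b (l 15991968) (l 15943224)))) (a (c (b (l 15876152) (l 15829352)) (b (l 15868688) (l 15821336))) (c (b (l 15985544) (l 15936248)) (b (l 15979096) (l 15929216)))))), by decide +kernel⟩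

def k111_pm_011 : ∃ t, chk3 f_pm_011 t 56 510 3 = true :=
  ⟨(c (a (b (c (l 16267944) (l 16266144)) (c (l 16148472) (l 16144624))) (b (c (l 16407928) (l 16407384)) (c (l 16278968) (l 16276296)))) (b (a (c (c (l 16308336) (l 16268368)) (c (a (l 16331248) (l 16353384)) (l 16307120))) (c (b (l 16480312) (l 16445864)) (c (l 16390888) (l 16430248)))) (a (c (l 16100456) (c (c (l 16184504) (l 16120976)) (l 16201816))) (c (l 16254280) (c (c (l 16318112) (l 16275856)) (l 16315200)))))), by decide +kernel⟩

def k112_pm_011 : ∃ t, chk3 f_pm_011 t 56 511 6 = true :=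
  ⟨(b (c (c (b (a (l 16116992) (l 16240456)) (c (b (l 15982080) (a (a (l 15965384) (l 16033768)) (a (l 16094320) (l 16140160)))) (a (a (l 15899992) (l 16055832)) (l 16143368)))) (a (l 16068120) (l 16189816))) (a (l 16021928) (l 16123536))) (b (c (a (b (c (a (l 15925584) (l 15972936)) (c (a (l 15921696) (l 15988528)) (a (l 15916720) (l 15983536)))) (l 15886608)) (c (b (b (a (l 16063312) (l 16105184)) (l 16061832)) (l 16022880)) (b (b (c (l 16036280) (l 16080168)) (c (l 16059480) (l 15970776))) (a (l 15999040) (l 16042944))))) (b (a (b (l 15958960) (c (c (l 15936328) (l 15933608)) (l 15933880))) (c (c (a (l 16041120) (l 16085696)) (l 16065112)) (l 16063008))) (b (c (a (c (l 15917272) (l 15914200)) (c (l 16011064) (a (l 16006768) (l 16047976)))) (a (c (l 15888016) (l 15907272)) (c (a (l 16003184) (l 16046240)) (l 16025416)))) (c (a (l 15890592) (l 16006848)) (a (c (l 15890408) (l 15886600)) (c (l 15920440) (a (l 15979104) (l 16019952)))))))) (c (a (b (l 15861192) (l 15813256)) (b (l 15930664) (a (l 15902928)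 (l 15941808)))) (a (b (c (l 15855536) (l 15851752)) (c (l 15807496) (l 15803376))) (b (c (l 15967720) (a (l 15944184) (l 15986712))) (c (l 15917120) (l 15913504))))))), by decide +kernel⟩

def k113_pm_011 : ∃ t, chk3 f_pm_011 t 56 511 7 = true :=
  ⟨(b (c (a (l 16016400) (l 16098152)) (c (a (l 16013536) (l 16117096)) (a (c (l 15969392) (l 16052296)) (c (l 16052408) (l 16177544))))) (c (b (c (c (b (l 15875488) (a (a (l 15837616) (l 15925752)) (a (l 15923936) (l 16030032)))) (a (l 15917816) (l 16034600))) (a (l 15915176) (l 16032392))) (c (a (b (b (c (l 15863192) (l 15858688)) (l 15836176)) (l 15799216)) (b (c (a (l 15945160) (l 15986216)) (b (a (l 15951136) (l 15991632)) (l 15949696))) (a (l 15890352) (l 15929848)))) (b (b (c (a (a (l 15821408) (l 15887376)) (c (l 15969072) (l 15970824))) (l 15869984)) (a (c (l 15835600) (c (l 15832136) (l 15829320))) (c (a (l 15928000) (l 15968240)) (c (l 15944208) (l 15899888))))) (b (a (l 15808600) (a (l 15900656) (l 15941672))) (a (l 15784048) (l 15894696)))))) (c (b (a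 (l 15911736) (l 16029480)) (b (b (l 15825376) (c (a (c (l 15827352) (l 15828944)) (c (l 15919880) (l 15942568))) (l 15883960))) (b (b (a (c (l 15811824) (c (l 15808344) (l 15809096))) (c (a (l 15904048) (l 15943784)) (c (l 15921064) (l 15922104)))) (a (c (l 15799664) (c (l 15799320) (l 15796592))) (c (l 15912792) (c (l 15911232) (a (l 15888792) (l 15928504)))))) (b (c (a (l 15787760) (l 15899208)) (a (l 15785712) (a (l 15877680) (l 15917840)))) (a (l 15774600) (l 15885536)))))) (b (a (l 15823952) (c (l 16027944) (l 16025600))) (a (b (l 15836376) (c (b (l 15795928) (b (l 15781592) (l 15730352))) (c (l 15781600) (l 15782968)))) (b (l 15951152) (b (c (a (l 15888904) (l 15929280)) (l 15912672)) (b (c (a (l 15873032) (l 15912344)) (l 15888344)) (c (b (l 15889440) (l 15879904)) (l 15878848)))))))))), by decide +kernel⟩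

def k114_pm_011 : ∃ t, chk3 f_pm_011 t 57 508 1 = true :=
  ⟨(c (a (c (l 16271928) (l 16263992)) (a (a (c (a (l 16248704) (l 16247008)) (l 16239376)) (c (l 16291112) (l 16283200))) (c (l 16372112) (l 16302624)))) (a (c (c (l 16255504) (b (l 16256360) (l 16235168))) (c (c (b (l 16251704) (l 16228304)) (l 16243464)) (l 16240464))) (c (a (a (c (l 16230448) (b (c (l 16235096) (l 16227232)) (l 16206880))) (c (l 16274480) (l 16265680))) (c (l 16378320) (l 16307488))) (a (a (c (c (a (l 16195288) (b (l 16228352) (l 16198552))) (l 16217768)) (l 16214568)) (c (c (b (l 16273536) (l 16244520)) (l 16262640)) (l 16259736))) (c (c (b (l 16356728) (l 16330144)) (l 16368528)) (l 16366312)))))), by decide +kernel⟩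

def k115_pm_011 : ∃ t, chk3 f_pm_011 t 114 509 1 = true :=
  ⟨(c (b (b (l 16240320) (b (a (b (a (c (c (l 16263832) (l 16260112)) (l 16254720)) (l 16240584)) (c (a (c (l 16272912) (l 16269288)) (c (a (l 16252208) (l 16221272)) (l 16244440))) (a (l 16263760) (l 16238768)))) (l 16217576)) (a (c (c (l 16248504) (l 16287016)) (l 16239248)) (c (a (b (c (a (l 16238208) (l 16205600)) (l 16229352)) (l 16250720)) (b (c (l 16192768) (l 16209512)) (a (l 16223824) (b (l 16185192) (l 16212336))))) (a (c (l 16234408) (l 16230384)) (c (l 16210280) (l 16206016))))))) (c (a (c (l 16284104) (l 16344672)) (c (c (l 16263432) (l 16282928)) (l 16238752))) (c (a (l 16363264) (l 16298664)) (l 16181920)))) (c (b (b (l 16224992) (a (b (a (b (l 16244984) (l 16254544)) (c (l 16233632) (l 16226704))) (c (l 16276376) (l 16270400))) (b (l 16202904) (a (c (l 16205248) (l 16198744)) (b (l 16193272) (l 16178288)))))) (c (a (l 16337424) (l 16292536)) (a (l 16333592) (l 16267088)))) (b (b (c (c (l 16211360) (l 16214816)) (l 16212480)) (c (c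 (a (b (b (l 16223416) (l 16229384)) (l 16261632)) (b (l 16188736) (b (l 16192008) (l 16203312)))) (a (b (b (l 16225976) (a (l 16241168) (l 16214824))) (l 16260120)) (b (l 16188728) (b (a (l 16177928) (l 16177824)) (a (l 16219336) (l 16163016)))))) (a (b (a (l 16238040) (l 16216544)) (l 16260696)) (b (l 16188880) (a (l 16208976) (b (l 16178248) (l 16184528))))))) (c (c (l 16231688) (c (l 16227064) (l 16207040))) (l 16166376))))), by decide +kernel⟩

def k116_pm_011 : ∃ t, chk3 f_pm_011 t 115 509 2 = true :=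
  ⟨(a (a (b (b (c (l 16192176) (l 16204616)) (c (b (l 16181760) (b (l 16176560) (a (c (l 16180032) (l 16175696)) (a (l 16170544) (l 16193840))))) (b (l 16194032) (a (l 16192336) (a (l 16184792) (l 16186768)))))) (c (b (a (c (l 16254288) (l 16250440)) (a (c (b (l 16214480) (l 16266784)) (l 16235640)) (b (c (b (a (l 16176760) (l 16182760)) (l 16225992)) (l 16166312)) (l 16241760)))) (a (l 16312760) (a (l 16321448) (c (l 16341840) (l 16338840))))) (a (c (l 16298536) (l 16295080)) (b (a (l 16229072) (b (l 16180760) (l 16255136))) (l 16272352))))) (b (c (l 16249712) (l 16241664)) (c (b (b (c (b (a (c (l 16203328) (l 16222344)) (l 16255672)) (l 16254576)) (b (a (l 16219464) (l 16252256)) (l 16251056))) (c (l 16293256) (l 16290072))) (c (l 16348160) (l 16366624))) (b (b (b (a (l 16213080) (l 16246176)) (l 16244664)) (l 16284456)) (l 16341128))))) (b (c (l 16354912) (l 16348360)) (b (b (b (c (l 16340592) (l 16333864)) (c (c (a (a (l 16272472) (l 16324320)) (l 16354208)) (a (a (l 16290616) (l 16322000)) (l 16373680)))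 (a (a (l 16284696) (l 16316328)) (a (l 16350184) (l 16384752))))) (c (b (a (l 16327424) (c (a (l 16365168) (l 16393984)) (l 16357736))) (c (l 16356264) (l 16375480))) (a (l 16333160) (c (b (l 16374984) (l 16396920)) (l 16381040))))) (c (c (c (l 16374912) (l 16395264)) (l 16373344)) (c (l 16370424) (l 16409216)))))), by decide +kernel⟩

def k117_pm_011 : ∃ t, chk3 f_pm_011 t 115 509 3 = true :=
  ⟨(c (a (b (a (b (l 16192560) (b (l 16183120) (c (a (l 16185168) (l 16179184)) (a (l 16178240) (l 16172184))))) (l 16230320)) (a (b (a (l 16235816) (a (l 16199024) (c (l 16220800) (l 16193960)))) (a (l 16342344) (l 16244600))) (b (b (b (a (l 16203272) (l 16236744)) (l 16235544)) (l 16276200)) (l 16334592)))) (b (l 16338240) (b (b (b (l 16325528) (a (a (l 16275944) (l 16307936)) (l 16339776))) (a (l 16325384) (c (l 16357304) (l 16353040)))) (c (l 16406912) (l 16382712))))) (b (a (a (c (b (c (l 16178408) (l 16181768)) (c (b (l 16168640) (a (l 16168184) (l 16161984))) (b (l 16168544) (a (l 16166224) (a (l 16158224) (l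 16160984)))))) (b (l 16179192) (b (l 16168576) (a (l 16166648) (l 16160448))))) (c (c (l 16220536) (l 16217384)) (l 16217656))) (c (c (l 16329608) (l 16326920)) (l 16327944))) (a (c (a (c (a (l 16279792) (a (l 16264792) (l 16156768))) (a (l 16191576) (b (a (l 16205824) (c (l 16201640) (l 16205248))) (l 16273224)))) (b (c (b (b (l 16209152) (l 16225008)) (l 16266648)) (b (b (c (l 16203912) (l 16209168)) (l 16220808)) (l 16261600))) (c (l 16348360) (l 16342632)))) (a (a (l 16276520) (b (a (l 16206472) (l 16203608)) (l 16316816))) (b (b (b (l 16206776) (l 16221856)) (l 16263208)) (l 16344472)))) (b (a (c (b (c (l 16261840) (c (l 16256568) (l 16282608))) (c (l 16316336) (l 16311480))) (b (b (l 16276328) (l 16280144)) (l 16313432))) (c (b (c (l 16351872) (l 16348784)) (c (l 16367584) (b (l 16310432) (l 16375272)))) (b (l 16350928) (l 16344288)))) (c (c (l 16419760) (l 16330424)) (l 16395680)))))), by decide +kernel⟩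

def k118_pm_011 : ∃ t, chk3 f_pm_011 t 114 510 1 = true :=
  ⟨(c (b (c (c (c (l 16405008) (l 16404600)) (c (l 16404192) (l 16403776))) (c (l 16403136) (l 16402272))) (c (c (c (a (l 16414416) (l 16429560)) (l 16357944)) (c (l 16378088) (l 16377256))) (c (l 16355040) (l 16353376)))) (c (b (c (l 16401384) (l 16400208)) (c (l 16351720) (l 16350064))) (b (c (c (l 16398048) (l 16395152)) (c (c (l 16393400) (l 16416360)) (l 16395016))) (c (l 16329064) (c (c (l 16372560) (l 16330568)) (l 16370296)))))), by decide +kernel⟩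

def k119_pm_011 : ∃ t, chk3 f_pm_011 t 114 511 2 = true :=
  ⟨(c (b (b (c (c (b (a (b (c (l 16365520) (l 16363304)) (c (l 16344584) (l 16343384))) (b (c (l 16416064) (l 16418288)) (c (l 16352952) (l 16390984)))) (a (l 16304768) (l 16336448))) (b (b (l 16390984) (a (c (l 16339424) (l 16337000)) (l 16345840))) (a (b (l 16297720) (l 16290600)) (b (c (l 16367960) (l 16364040)) (l 16341848))))) (b (l 16376176) (b (c (a (l 16290080) (l 16360248)) (l 16337072)) (c (a (l 16292096) (c (l 16340720) (l 16336856))) (a (l 16284392) (l 16332496)))))) (c (c (l 16190448) (l 16230384)) (b (c (l 16235992) (a (l 16254136) (b (l 16311544) (l 16283920)))) (l 16222760)))) (b (c (c (l 16110136) (l 16149592)) (c (l 16147096) (l 16144600))) (c (b (l 16053616) (a (l 16004752) (l 16040672))) (b (l 16068880) (l 16016120))))) (b (b (c (l 16347560) (l 16344400)) (c (c (b (a (b (l 16257480) (l 16238096)) (b (l 16304536) (l 16283880))) (l 16219552)) (b (a (b (l 16257968) (l 16230328)) (l 16204152)) (a (l 16199232) (l 16203288)))) (b (l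 16266344) (b (c (a (l 16202928) (l 16247968)) (l 16226184)) (c (a (l 16183008) (l 16227672)) (c (l 16199160) (l 16195824))))))) (b (c (l 16056952) (c (l 16137064) (b (a (l 16143200) (b (l 16199104) (l 16169496))) (l 16108384)))) (c (b (l 16063152) (l 16009800)) (b (l 16057392) (l 16003416)))))), by decide +kernel⟩

def k120_pm_011 : ∃ t, chk3 f_pm_011 t 114 511 3 = true :=
  ⟨(b (c (c (l 16142008) (l 16201144)) (c (l 16176632) (c (l 16196232) (c (l 16131872) (l 16257224))))) (c (c (b (b (b (c (c (l 16170992) (l 16146392)) (l 16169176)) (c (c (l 16148304) (l 16147168)) (c (l 16142568) (l 16096704)))) (c (l 16105736) (a (l 16086000) (c (l 16126072) (l 16127584))))) (b (l 16051608) (a (l 15978600) (l 16015800)))) (b (b (l 16152368) (b (c (c (l 16092920) (a (l 16089152) (l 16131792))) (l 16111128)) (c (c (l 16088688) (l 16089312)) (c (l 16043008) (a (l 16060336) (l 16101832)))))) (b (c (l 16047248) (c (l 16045064) (a (l 16026392) (l 16067376)))) (c (l 15992496) (l 15989200))))) (c (b (l 16120680) (b (b (c (c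 (a (l 16036048) (l 16075832)) (a (l 16031224) (l 16071656))) (l 16052016)) (c (c (l 16028744) (l 16030048)) (c (c (l 16027648) (l 16025064)) (c (l 16022536) (l 16020944))))) (b (c (l 16001136) (c (l 15998800) (l 15999808))) (c (l 15973344) (l 15970064))))) (c (b (l 16116768) (b (a (l 16015352) (l 16055912)) (b (b (c (c (l 16002848) (l 16000296)) (a (l 15981416) (l 16020536))) (c (l 15990768) (c (l 15987880) (a (l 15966352) (l 16004680))))) (b (c (l 15975368) (c (l 15974160) (l 15974736))) (l 15960760))))) (b (c (l 16115520) (l 16113360)) (b (l 16032464) (c (b (l 15965944) (c (b (l 15971360) (l 15957720)) (a (l 15941440) (l 15957952)))) (c (l 15949576) (l 15972360))))))))), by decide +kernel⟩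

def k121_pm_011 : ∃ t, chk3 f_pm_011 t 230 510 2 = true :=
  ⟨(c (a (a (c (c (l 16381328) (l 16402064)) (l 16359752)) (b (a (c (l 16435592) (l 16455000)) (c (l 16391840) (l 16432224))) (c (a (l 16477232) (l 16480120)) (l 16456720)))) (b (c (b (l 16449456) (l 16529952)) (l 16415208)) (c (l 16441936) (l 16461608)))) (a (c (a (l 16380224) (b (l 16410552) (l 16476728))) (b (l 16373064) (l 16448288))) (b (c (l 16434608) (l 16432952)) (c (l 16460608) (l 16459648))))), by decide +kernel⟩

def k122_pm_011 : ∃ t, chk3 f_pm_011 t 230 511 4 = true :=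
  ⟨(b (c (b (a (b (c (b (l 16457720) (a (c (l 16425224) (l 16422912)) (c (a (l 16434456) (l 16436704)) (l 16434736)))) (l 16443248)) (c (a (l 16389272) (a (l 16378112) (b (l 16372064) (l 16384344)))) (b (a (l 16395920) (a (l 16405096) (c (l 16409136) (l 16407800)))) (a (l 16373456) (c (l 16382008) (l 16383528)))))) (b (c (b (l 16449752) (b (l 16429992) (l 16393440))) (l 16435328)) (c (b (c (l 16399744) (l 16397648)) (l 16370648)) (b (c (l 16393968) (l 16393760)) (c (l 16371368) (l 16370336)))))) (a (c (a (l 16305856) (l 16294984)) (l 16246216)) (c (l 16304608) (l 16302776)))) (b (b (a (l 16441544) (l 16433464)) (b (a (l 16401072) (l 16393472)) (c (a (a (l 16368288) (a (l 16377248) (l 16379440))) (l 16322784)) (l 16369712)))) (a (b (c (a (l 16331528) (l 16300968)) (b (c (l 16326504) (l 16322712)) (l 16321528))) (l 16237512)) (b (c (b (l 16344024) (l 16314288)) (b (l 16336912) (l 16315616))) (l 16273304))))) (c (a (b (c (a (l 16199328) (l 16187448)) (l 16180632)) (b (c (l 16123456) (l 16120824)) (c (l 16069208)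 (l 16066288)))) (b (c (l 16198808) (l 16196496)) (b (l 16117992) (l 16063864)))) (a (b (c (l 16199336) (l 16197072)) (b (l 16116856) (l 16061488))) (b (l 16193016) (b (l 16112640) (l 16057928)))))), by decide +kernel⟩

def k123_pm_011 : ∃ t, chk3 f_pm_011 t 230 511 5 = true :=
  ⟨(b (b (a (l 16326856) (l 16381992)) (c (a (c (b (b (l 16343256) (a (l 16312360) (l 16301032))) (l 16278360)) (b (c (l 16327680) (l 16329032)) (b (a (l 16284008) (l 16293520)) (l 16261040)))) (c (b (b (l 16337704) (l 16309064)) (l 16273888)) (b (l 16322688) (b (l 16281096) (l 16257240))))) (b (a (l 16326968) (l 16320168)) (a (c (b (c (l 16284784) (l 16286112)) (a (l 16255368) (l 16264760))) (c (b (l 16285192) (l 16255088)) (l 16270440))) (c (b (l 16278880) (l 16252816)) (l 16261640)))))) (b (c (a (c (l 16194792) (l 16192520)) (l 16188448)) (a (c (l 16190240) (b (b (c (l 16232376) (l 16228928)) (l 16201808)) (l 16160288))) (c (l 16186680) (b (b (l 16224280) (l 16196416)) (l 16155368))))) (c (a (b (l 16111552) (l 16055536)) (b (l 16107304)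 (l 16051936))) (a (b (l 16106224) (l 16049512)) (b (l 16101952) (l 16045880)))))), by decide +kernel⟩

def k124_pm_011 : ∃ t, chk3 f_pm_011 t 231 255 2 = true :=
  ⟨(b (c (b (c (a (l 16435928) (l 16477560)) (a (l 16456472) (l 16477872))) (b (c (l 16491072) (l 16510336)) (c (l 16390376) (l 16429792)))) (b (c (a (l 16454992) (l 16476496)) (l 16432560)) (c (l 16353528) (l 16394440)))) (c (b (b (c (b (c (a (c (l 16409808) (l 16411592)) (l 16386728)) (l 16397840)) (c (b (c (a (l 16375912) (l 16350312)) (a (l 16372304) (l 16346936))) (a (l 16347952) (l 16327240))) (b (c (l 16336560) (l 16359464)) (c (a (l 16348960) (l 16324488)) (a (l 16345752) (l 16320744)))))) (c (b (l 16396272) (c (b (l 16358600) (l 16309392)) (l 16345008))) (l 16369160))) (c (c (l 16231336) (a (l 16281840) (l 16262592))) (b (c (b (c (l 16310312) (l 16306808)) (l 16281864)) (b (c (l 16303288) (l 16303256)) (c (l 16283032) (l 16280208)))) (l 16242560)))) (b (c (c (l 16130216) (l 16169656)) (c (l 16167152) (l 16164640))) (c (b (l 16094792) (b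 (l 16056696) (l 16030736))) (b (l 16089160) (l 16036784))))) (b (b (c (l 16367312) (l 16364696)) (c (c (b (b (l 16303752) (c (l 16276400) (l 16275296))) (a (l 16254152) (l 16191336))) (b (l 16289448) (b (c (l 16249872) (l 16247464)) (l 16228088)))) (c (b (l 16287640) (b (l 16248696) (c (l 16222856) (l 16219464)))) (l 16259696)))) (b (c (c (l 16162288) (l 16160056)) (b (c (l 16187872) (b (c (l 16195568) (l 16191560)) (l 16171008))) (l 16130336))) (c (b (l 16083632) (l 16030616)) (b (l 16078104) (l 16024392))))))), by decide +kernel⟩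

def k125_pm_011 : ∃ t, chk3 f_pm_011 t 115 510 3 = true :=
  ⟨(c (a (a (b (c (l 16371472) (l 16348608)) (c (l 16447280) (l 16446272))) (b (c (l 16431504) (l 16429760)) (c (l 16458528) (l 16457416)))) (b (c (l 16431648) (l 16409480)) (c (l 16392880) (l 16391328)))) (c (b (a (a (c (l 16408800) (l 16342600)) (l 16361984)) (c (l 16449216) (l 16425280))) (a (a (l 16425944) (l 16457944)) (l 16370440))) (c (b (a (a (a (l 16431024) (l 16355504)) (l 16401288)) (c (l 16423488) (l 16446504))) (a (a (c (l 16448880) (l 16428016)) (c (l 16459840) (l 16459920))) (c (l 16414000) (l 16392992)))) (a (a (l 16347632) (l 16364848)) (b (l 16446120) (l 16411792)))))), by decide +kernel⟩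

def k126_pm_011 : ∃ t, chk3 f_pm_011 t 115 1022 3 = true :=
  ⟨(c (a (a (c (l 16288448) (l 16285392)) (c (l 16323208) (l 16320064))) (c (l 16225280) (l 16242760))) (c (a (a (l 16282408) (l 16317000)) (l 16218376)) (c (a (a (l 16281456) (l 16315984)) (l 16238072)) (a (a (c (l 16217304) (l 16342800)) (l 16207816)) (c (l 16173752) (l 16299136)))))), by decide +kernel⟩

def k127_pm_011 : ∃ t, chk3 f_pm_011 t 115 1023 6 = true :=
  ⟨(a (c (b (c (a (b (b (c (l 16225344) (l 16226840)) (c (l 16202400) (l 16199672))) (l 16157864)) (b (b (l 16218464) (l 16195448)) (l 16152920))) (c (a (b (b (l 16225784) (l 16153592)) (l 16158208)) (b (l 16202480) (l 16154096))) (b (l 16207960) (a (b (l 16170104) (l 16140848)) (l 16153328))))) (a (b (l 16100864) (l 16043400)) (b (l 16096544) (l 16039736)))) (b (b (l 16184240) (c (a (b (c (a (l 16161136) (l 16170224)) (l 16165040)) (c (l 16140504) (l 16119184))) (b (c (l 16160080) (l 16161288)) (l 16136688))) (b (l 16162088) (a (c (a (l 16131192) (l 16140032)) (c (l 16134392) (l 16135536)))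 (c (l 16130232) (l 16129408)))))) (b (c (a (l 16096832) (l 16092472)) (a (c (l 16094808) (b (l 16067824) (l 16079336))) (c (l 16091208) (l 16092840)))) (a (c (l 16039368) (l 16036232)) (c (l 16035664) (l 16032504)))))) (b (c (b (c (b (l 16189608) (c (l 16167952) (l 16163672))) (c (l 16173888) (l 16176088))) (c (l 16128288) (b (c (l 16139872) (l 16135720)) (l 16110696)))) (b (l 16173144) (c (c (b (l 16132448) (l 16111136)) (b (l 16133936) (l 16107600))) (c (b (l 16132664) (l 16103480)) (l 16118056))))) (c (b (l 16072464) (l 16018064)) (b (c (l 16068216) (b (c (l 16081544) (l 16079200)) (l 16052040))) (c (l 16013776) (l 16010528)))))), by decide +kernel⟩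

def k128_pm_011 : ∃ t, chk3 f_pm_011 t 115 1023 7 = true :=
  ⟨(b (c (a (a (l 16175272) (l 16169872)) (l 16141584)) (c (a (l 16169104) (l 16137888)) (a (a (c (l 16170768) (l 16168736)) (l 16142648)) (c (l 16136696) (l 16134576))))) (c (c (b (a (b (a (b (c (l 16111512) (l 16112056)) (c (l 16100256) (l 16054032))) (c (l 16100312) (l 16097912))) (a (c (l 16077952) (l 16057904)) (l 16055048))) (b (c (l 16074592) (l 16072904)) (c (l 16050808) (l 16050328)))) (a (a (b (l 16048880) (l 16019656)) (l 16029280)) (l 16007232))) (b (b (l 16086976) (c (a (a (a (l 16070672) (a (l 16078112) (l 16080192))) (l 16070232)) (l 16045688)) (b (l 16065544) (a (a (b (l 16068840) (l 16062088)) (l 16060568)) (l 16036640))))) (a (b (a (c (l 16046696) (c (l 16045608) (l 16046744))) (c (l 16042760) (l 16043496))) (a (l 16016480) (l 16012872))) (b (c (l 16020032) (l 16020800)) (l 15991376))))) (b (a (a (l 16063424) (l 16079920)) (l 16013176)) (b (c (b (c (a (a (c (l 16050816) (l 16049192)) (l 16045112)) (l 16021704)) (l 16034904)) (a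 (a (c (l 16038120) (c (l 16035368) (a (l 16029104) (l 16037488)))) (c (l 16034248) (c (l 16031280) (l 16029360)))) (c (l 16011680) (c (l 16008408) (l 16001024))))) (a (l 16038016) (l 16013040))) (b (c (a (c (a (l 16022320) (l 16018608)) (a (l 16022128) (l 16018464))) (c (l 15996704) (c (l 15995528) (l 15995888)))) (c (a (a (a (l 16012504) (a (l 16019624) (c (l 16022440) (l 16019968)))) (l 16012792)) (l 15990824)) (l 16003936))) (c (a (a (l 16006784) (l 16003232)) (l 15981984)) (c (b (a (a (c (l 16008904) (l 16008800)) (l 16006976)) (l 15985240)) (a (a (l 16001104) (l 15997576)) (l 15976392))) (a (a (a (l 15997280) (a (l 16004360) (l 16006448))) (l 15997776)) (l 15976440))))))))), by decide +kernel⟩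

def k129_pm_011 : ∃ t, chk3 f_pm_011 t 29 30 2 = true :=
  ⟨(l 6), by decide +kernel⟩

def k130_pm_011 : ∃ t, chk3 f_pm_011 t 29 62 2 = true :=
  ⟨(b (l 6) (b (l 6) (a (a (b (a (a (b (l 6) (c (l 16655760) (c (c (l 16697944) (c (l 16687016) (l 16663944))) (c (l 16657216) (l 16680176))))) (l 6)) (l 6)) (a (c (c (l 16626456) (l 16626872)) (c (c (l 16641328) (l 16623384)) (c (b (l 16631480) (l 16628672)) (b (l 16614544) (l 16597912))))) (b (l 6) (c (a (c (l 16630936) (l 16625824)) (l 16600408)) (c (c (a (l 16639360) (l 16610392)) (a (l 16642312) (l 16636800))) (c (a (l 16652240) (l 16646904)) (b (a (l 16630688) (l 6)) (l 16585560)))))))) (l 6)) (l 6)))), by decide +kernel⟩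

def k131_pm_011 : ∃ t, chk3 f_pm_011 t 58 126 2 = true :=
  ⟨(a (b (c (a (c (l 16573392) (l 16575696)) (b (a (l 16618608) (c (l 16581688) (l 16594856))) (l 16549104))) (c (c (a (l 16569792) (b (a (l 16623432) (l 16581648)) (l 16592976))) (a (c (l 16559528) (l 16575456)) (a (l 16606704) (b (c (l 16620416) (l 16629000)) (l 16603504))))) (b (a (b (c (l 16633104) (l 16591136)) (l 16593848)) (c (l 16615896) (b (a (l 16633520) (l 16596712)) (l 16601992)))) (l 16543976)))) (c (a (c (l 16488968) (l 16512432)) (b (l 16567776) (l 16588608))) (c (c (a (l 16509448) (l 16577768)) (b (l 16498704) (l 16482896))) (b (l 16514040) (l 16500168))))) (b (b (a (c (c (l 16567008) (l 16555880)) (c (c (l 16501176) (c (l 16564136) (l 16594488))) (c (l 16602648) (b (l 16588872) (l 16603816))))) (b (l 6) (a (c (l 16528296) (c (c (l 16527720) (l 16534488)) (l 16572744))) (l 6)))) (c (a (a (c (l 16547896) (l 16560080)) (l 16534360)) (c (a (l 16518440) (l 16498472)) (l 16494280))) (c (c (a (a (l 16565016) (l 16533992)) (l 16478912)) (a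 (c (a (l 16579032) (l 16549912)) (l 16528976)) (c (l 16518904) (l 16525352)))) (a (a (l 16594832) (l 16566008)) (l 16535584))))) (c (a (b (a (l 16572000) (c (l 16509720) (l 16519504))) (l 16517016)) (b (c (l 16464952) (l 16471888)) (a (b (l 16480752) (l 16478984)) (l 16444120)))) (c (a (c (b (l 16485144) (l 16534488)) (b (a (l 16584816) (l 16518016)) (l 16524840))) (c (b (l 16476080) (a (l 16475976) (l 16438392))) (b (c (l 16492208) (l 16496800)) (a (l 16468440) (l 16453408))))) (a (b (l 16526552) (l 16569968)) (b (l 16500232) (l 16475360))))))), by decide +kernel⟩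

def k132_pm_011 : ∃ t, chk3 f_pm_011 t 118 126 2 = true :=
  ⟨(b (a (b (l 6) (b (l 6) (c (a (l 16463624) (a (a (l 16451280) (l 6)) (l 6))) (c (c (l 16450696) (c (l 16473280) (l 16479544))) (l 16487432))))) (l 6)) (c (a (a (c (l 16394760) (l 16357520)) (b (c (l 16428232) (l 16409208)) (l 16386912))) (c (c (b (a (c (b (b (l 6) (a (l 16425960) (c (l 16424496) (l 16415440)))) (a (l 16411368) (c (b (l 16410568) (l 16398144)) (l 16399648)))) (l 16410184)) (b (l 6) (b (a (c (c (l 16410232) (l 16398072)) (l 16390528)) (l 6)) (c (a (c (l 16394024) (l 16385032)) (c (l 16396424) (a (l 16380560) (l 16380448)))) (l 16375216))))) (a (l 16374464) (c (b (a (c (b (l 16379328) (l 16366136)) (l 16368104)) (c (b (l 16377912) (l 16360904)) (b (l 16365824) (l 16351992)))) (a (l 16347744) (c (b (l 16345416) (l 16310456)) (l 16333888)))) (l 16347296)))) (b (a (l 16401824) (l 16381960)) (l 16351824))) (b (a (l 16386272) (l 16322776)) (a (l 16349936) (l 16323024))))) (c (c (a (b (l 16383912) (l 16373064)) (b (a (l 16391432) (l 16370240))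 (a (l 16351920) (l 16325232)))) (c (a (b (l 16445800) (l 16409464)) (b (a (l 16414536) (l 16395616)) (l 16294384))) (a (l 16432480) (b (l 16411464) (l 16362360))))) (b (a (l 16454488) (l 16372432)) (a (l 16414568) (l 16362928)))))), by decide +kernel⟩

def k133_pm_011 : ∃ t, chk3 f_pm_011 t 119 126 2 = true :=
  ⟨(b (l 6) (b (a (a (a (a (b (l 6) (b (l 6) (b (l 6) (c (c (c (c (l 16386640) (l 16360936)) (l 16350048)) (l 16331424)) (c (c (l 16335960) (l 16343056)) (l 16368088)))))) (l 6)) (l 6)) (l 6)) (l 6)) (a (c (c (c (a (c (b (a (c (l 16372224) (b (l 16364672) (l 16347000))) (l 16368160)) (a (c (b (l 16342848) (l 16325016)) (b (l 16330840) (l 16295224))) (c (l 16335568) (b (l 16328520) (l 16310008))))) (b (a (c (b (a (l 16331928) (l 16350624)) (l 16337936)) (l 16340272)) (c (b (l 16351544) (a (l 16332808) (l 16332264))) (b (a (l 16318568) (l 16337408)) (l 16303008)))) (a (l 16317480) (c (b (a (l 16296160) (l 16314272)) (l 16280072)) (l 16303904))))) (c (l 16354512) (b (a (c (l 16345760) (b (l 6) (a (l 16319048)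 (l 16318648)))) (l 16342128)) (a (c (b (l 16314296) (a (l 16295000) (l 16293840))) (b (a (l 16281720) (l 16299952)) (l 16265008))) (c (l 16306856) (b (l 16300192) (a (l 16280112) (l 16279088)))))))) (a (l 16315064) (c (b (b (l 6) (a (l 16308320) (c (a (l 16305408) (l 6)) (l 16275448)))) (a (l 16287552) (c (b (a (l 16267384) (l 16285752)) (l 16250048)) (l 16274296)))) (l 16289096)))) (a (l 16297320) (l 16231024))) (c (c (a (l 16278832) (b (l 16289376) (l 16261888))) (c (b (l 16283160) (l 16274528)) (l 16316376))) (l 16316672))) (b (l 6) (a (c (c (c (l 16323160) (a (c (c (b (l 16286200) (a (l 16265328) (l 16264440))) (b (a (l 16253168) (l 6)) (l 16235184))) (l 16258008)) (b (l 6) (c (c (l 16266696) (a (l 16250664) (l 16249920))) (l 16239520))))) (l 16235544)) (c (c (l 16237712) (c (l 16261768) (l 16267952))) (l 16267872))) (l 6)))))), by decide +kernel⟩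

def k134_pm_011 : ∃ t, chk3 f_pm_011 t 58 508 2 = true :=
  ⟨(a (c (a (l 16486536) (l 16579088)) (c (c (l 16448944) (l 16464448)) (l 16462400))) (c (a (l 16531512) (a (l 16483432) (l 16408664))) (c (a (l 16489152) (c (l 16410248) (a (l 16488008) (l 16434416)))) (a (l 16578936) (l 16441568))))), by decide +kernel⟩

def k135_pm_011 : ∃ t, chk3 f_pm_011 t 58 509 2 = true :=
  ⟨(b (a (a (c (l 16494960) (l 16469400)) (c (l 16571672) (l 16548032))) (a (c (l 16563432) (c (l 16541944) (l 16587696))) (c (l 16458144) (c (l 16414248) (l 16460320))))) (a (b (a (c (b (l 16481008) (b (a (c (c (l 16443920) (l 16443720)) (l 16443568)) (l 16512448)) (a (a (l 16438920) (l 16444064)) (c (a (l 16495664) (l 16528760)) (l 16513928))))) (b (l 16476312) (c (a (b (l 16440032) (l 16447936)) (b (l 16509520) (l 16489688))) (a (l 16378632) (l 16508304))))) (c (l 16557496) (l 16554832))) (c (a (b (a (l 16465008) (c (l 16514288) (l 16536112))) (c (l 16513848) (l 16514520))) (b (b (a (c (l 16541216) (l 16563992)) (a (l 16612600) (l 16668168)))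 (a (l 16578688) (c (l 16591056) (l 16614952)))) (c (l 16571920) (l 16595448)))) (c (a (a (l 16506144) (l 16492144)) (b (a (b (l 16540040) (l 16597816)) (b (l 16629104) (l 16591296))) (l 16572136))) (a (l 16421328) (b (a (l 16543960) (l 16608616)) (l 16611104)))))) (a (b (c (l 16568928) (l 16526768)) (a (c (b (c (l 16583528) (l 16578976)) (c (l 16547368) (l 16563808))) (c (b (l 16560080) (a (l 16619584) (l 16573840))) (b (l 16604952) (l 16589144)))) (c (b (l 16559824) (b (a (l 16553520) (l 16543136)) (l 16506720))) (b (l 16559032) (c (b (l 16515136) (l 16526360)) (l 16512256)))))) (c (b (l 16460400) (b (l 16461528) (a (b (l 16495032) (a (l 16507688) (l 16476912))) (a (l 16402720) (l 16412832))))) (b (c (l 16458296) (l 16461592)) (b (l 16396368) (b (l 16417824) (c (a (c (l 16488072) (l 16493152)) (l 16384136)) (a (l 16492328) (l 16428592)))))))))), by decide +kernel⟩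

def k136_pm_011 : ∃ t, chk3 f_pm_011 t 58 510 2 = true :=
  ⟨(b (a (c (a (c (b (l 16518224) (l 16499952)) (b (l 16519368) (l 16518632))) (a (c (l 16466952) (l 16484752)) (c (l 16447024) (l 16463984)))) (c (a (b (l 16517624) (l 16518840)) (c (l 16442752) (l 16445232))) (a (l 16504552) (l 16444712)))) (c (a (a (c (l 16404648) (l 16441704)) (c (l 16360696) (l 16396840))) (a (c (b (l 16455488) (l 16384352)) (l 16308240)) (b (b (b (a (l 16439888) (l 16410136)) (l 16410136)) (l 16385264)) (c (l 16339320) (l 16331608))))) (a (c (c (l 16376808) (l 16380064)) (l 16358088)) (c (a (c (l 16391184) (l 16395088)) (b (b (c (l 16413432) (l 16397712)) (l 16381904)) (l 16310344))) (a (l 16393648) (b (b (l 16417440) (l 16383464)) (l 16331952))))))) (a (c (a (b (c (l 16427208) (l 16466208)) (c (c (l 16397096) (l 16416280)) (l 16371648))) (c (a (c (l 16375456) (l 16373384)) (b (l 16425536) (l 16341056))) (a (l 16349272) (l 16315544)))) (a (c (c (l 16375600) (l 16396912)) (l 16353512)) (c (c (l 16330840) (l 16331648)) (l 16308840))))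 (c (a (c (a (b (l 16389320) (l 16308952)) (c (l 16273392) (l 16291296))) (a (l 16280720) (l 16265696))) (c (a (b (l 16313032) (l 16241560)) (b (l 16272792) (l 16206120))) (a (l 16228448) (l 16168896)))) (c (a (c (l 16239872) (l 16262160)) (c (a (l 16268120) (l 16229360)) (a (l 16269880) (l 16231432)))) (a (l 16217984) (a (l 16267328) (l 16228664))))))), by decide +kernel⟩

def k137_pm_011 : ∃ t, chk3 f_pm_011 t 58 2044 4 = true :=
  ⟨(a (c (b (a (l 16346624) (l 16291784)) (b (c (a (c (a (l 16324040) (l 16298080)) (l 16267560)) (a (l 16272344) (l 16247184))) (l 16284432)) (a (c (c (a (l 16302528) (l 16279320)) (a (l 16302384) (l 16276592))) (c (a (l 16298896) (l 16273056)) (l 16241456))) (a (c (c (l 16253600) (l 16249976)) (l 16246600)) (c (c (l 16226472) (l 16223384)) (l 16222544)))))) (a (l 16276888) (l 16243944))) (c (a (c (b (l 16235264) (b (l 16205872) (c (a (l 16198912) (l 16171728)) (l 16141848)))) (l 16212576)) (a (l 16169936) (l 16139312))) (a (l 16165992) (a (l 16162952) (l 16131768))))), by decide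 +kernel⟩

def k138_pm_011 : ∃ t, chk3 f_pm_011 t 58 2045 4 = true :=
  ⟨(a (a (c (c (l 16188016) (b (a (l 16224248) (c (l 16242080) (l 16189832))) (l 16203896))) (b (c (b (c (l 16219064) (l 16236672)) (c (l 16237576) (l 16238896))) (b (l 16256376) (c (l 16235992) (l 16232144)))) (c (l 16201376) (l 16180944)))) (c (b (c (c (l 16207064) (a (l 16218184) (l 16195968))) (b (c (a (l 16229480) (l 16203656)) (a (l 16226296) (l 16200024))) (l 16194104))) (c (l 16162976) (l 16160120))) (b (c (b (a (l 16200560) (l 16197016)) (c (l 16192952) (l 16168840))) (b (l 16209040) (c (l 16165136) (l 16184296)))) (c (l 16157248) (b (c (l 16168120) (l 16166208)) (l 16143424)))))) (b (c (a (c (b (c (a (l 16181648) (l 16156072)) (a (l 16180264) (l 16152936))) (l 16147000)) (b (c (a (l 16176760) (l 16149560)) (a (l 16173856) (l 16148352))) (c (l 16146288) (a (l 16157328) (l 16131688))))) (a (c (b (c (l 16128424) (l 16124904)) (l 16109680)) (b (l 16121464) (c (l 16107840) (l 16104672)))) (c (b (c (b (l 16082432) (l 16075688)) (l 16096864))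 (c (l 16083552) (l 16062240))) (b (l 16095632) (c (l 16080496) (l 16076984)))))) (c (b (l 16091632) (a (c (a (l 16154720) (l 16128160)) (a (l 16151112) (l 16125288))) (a (b (l 16106376) (l 16096048)) (l 16073344)))) (a (a (l 16136824) (l 16134144)) (l 16093624)))) (c (a (c (l 16117520) (l 16114296)) (c (l 16069792) (l 16046288))) (a (c (c (l 16111864) (l 16091936)) (b (a (l 16130704) (l 16105064)) (l 16098992))) (c (b (c (l 16074016) (a (l 16084304) (l 16057736))) (l 16053856)) (b (c (a (l 16080824) (l 16054320)) (l 16064744)) (a (l 16064176) (l 16039728)))))))), by decide +kernel⟩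

def k139_pm_011 : ∃ t, chk3 f_pm_011 t 58 1023 4 = true :=
  ⟨(b (a (c (a (c (l 16093672) (l 16132848)) (c (b (l 16119536) (l 16076040)) (l 16094736))) (a (c (l 16130080) (l 16127304)) (c (l 16091696) (l 16088640)))) (c (a (c (b (l 16078192) (l 16038824)) (l 16034200)) (c (a (l 16028008) (l 16007128)) (a (l 16024456) (l 16003424)))) (a (c (l 16051840) (l 16048496)) (c (l 16010352) (l 16006696))))) (a (b (c (a (l 16063240) (l 16009928)) (a (l 16057208) (l 16024472))) (c (a (b (l 16027704) (l 15982512)) (c (l 15988296) (l 15984960))) (a (l 16008416) (l 15979608)))) (b (c (a (c (l 15999416) (l 15996000)) (c (l 15965384) (l 15961752))) (a (l 15990856) (l 15956288))) (c (a (b (l 15947136) (l 15926944)) (b (l 15916448) (l 15898608))) (a (l 15950336) (c (l 15922672) (l 15918992))))))), by decide +kernel⟩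

def k140_pm_011 : ∃ t, chk3 f_pm_011 t 58 1022 5 = true :=
  ⟨(b (a (c (a (l 16315920) (l 16240824)) (a (l 16313168) (l 16258928))) (c (a (l 16141704) (c (l 16144176) (l 16144416))) (a (l 16201640) (l 16140896)))) (a (c (c (b (a (c (l 16241904) (l 16244408)) (l 16196280)) (a (b (c (l 16210920) (l 16207552)) (l 16185976)) (b (c (l 16162840) (l 16160592)) (l 16144080)))) (b (l 16219568) (a (b (c (l 16205112) (l 16206752)) (c (l 16185968) (l 16182792))) (b (l 16161872) (c (l 16140656) (l 16137264)))))) (c (b (l 16217496) (a (c (l 16168528) (l 16190160)) (c (l 16146336) (l 16147712)))) (l 16191848))) (a (c (b (l 16144744) (c (b (a (l 16125232) (l 16101352)) (c (l 16097992) (l 16095888))) (b (l 16114336) (c (l 16093208) (l 16091648))))) (l 16120592)) (c (b (l 16091120) (b (l 16064680) (c (a (l 16059952) (l 16034504)) (c (l 16045312) (l 16046024))))) (l 16069176))))), by decide +kernel⟩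

def k141_pm_011 : ∃ t, chk3 f_pm_011 t 58 1023 5 = true :=
  ⟨(b (c (a (a (c (l 16124856) (l 16122664)) (c (l 16086096) (b (l 16108960) (l 16061688)))) (b (c (a (l 16065800) (l 16023624)) (a (a (l 16077760) (l 16056360)) (b (c (l 16030856) (l 16028008)) (l 16010920)))) (a (l 16024688) (l 15985160)))) (a (b (b (c (a (l 16158984) (l 16073296)) (a (c (l 16153224) (l 16151008)) (l 16067040))) (c (l 16114080) (a (l 16132624) (l 16091304)))) (c (l 16077456) (l 16074616))) (b (c (a (b (c (l 16071688) (l 16068560)) (l 16053432)) (b (a (l 16035264) (l 16012080)) (c (l 16010392) (l 16008280)))) (a (b (l 16066792) (l 16026904)) (b (l 16022752) (c (l 16004864) (l 16002056))))) (c (l 16000968) (a (l 16018736) (l 15980456)))))) (a (c (b (a (l 16051440) (l 16018448)) (a (l 16002000) (l 15972944))) (b (c (l 16030672) (l 16027624)) (a (l 15995528) (l 15966232)))) (c (b (a (l 15984592) (l 15949768)) (a (l 15943432) (l 15913432))) (b (a (l 15978360) (l 15943312)) (a (l 15936480) (l 15906240)))))), by decide +kernel⟩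

def k142_pm_011 : ∃ t, chk3 f_pm_011 t 118 254 2 = true :=
  ⟨(c (a (b (a (l 16388936) (l 16355808)) (a (l 16348656) (l 16324552))) (b (c (l 16253176) (l 16298944)) (a (l 16286864) (l 16249736)))) (c (a (c (b (l 16365464) (l 16258072)) (b (l 16335920) (a (l 16371672) (l 16326720)))) (c (b (l 16299352) (l 16260584)) (c (b (l 16313136) (l 16269944)) (l 16293952)))) (a (b (l 16378040) (l 16348968)) (b (l 16314768) (l 16269248))))), by decide +kernel⟩

def k143_pm_011 : ∃ t, chk3 f_pm_011 t 238 254 8 = true :=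
  ⟨(c (b (a (c (b (a (c (b (l 16308696) (l 16272920)) (l 16296872)) (c (b (l 16304904) (l 16286216)) (b (l 16293000) (l 16256544)))) (c (a (l 16274328) (b (l 16269048) (l 16232416))) (l 16264472))) (l 16273592)) (c (b (a (c (l 16295936) (b (l 16289432) (l 16270032))) (l 16289472)) (a (c (b (l 16263936) (l 16244360)) (b (l 16252152) (l 16214824))) (c (l 16253168) (b (l 16247248) (l 16226944))))) (b (a (c (b (a (l 16257496) (l 16254000)) (l 16240232)) (l 16264624)) (c (b (l 16274040) (a (l 16233200) (l 16231384))) (b (a (l 16241904) (l 16238528)) (l 16223992)))) (a (l 16238336) (c (b (a (l 16215776) (l 16211608)) (l 16197280)) (l 16222280)))))) (a (l 16224896) (c (b (a (c (b (l 16226304) (l 16188784)) (l 16213896)) (c (b (l 16198816) (l 16199296)) (b (l 16208152) (l 16169912)))) (a (l 16186624) (c (b (l 16159344) (l 16141888)) (l 16167632)))) (l 16187968)))) (b (l 16188632) (l 16199264))), by decide +kernel⟩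

def k144_pm_011 : ∃ t, chk3 f_pm_011 t 239 254 16 = true :=
  ⟨(c (b (a (l 16270080) (b (l 16301344) (l 16249920))) (a (b (a (c (l 16207112) (b (l 16180840) (l 16180560))) (l 16197920)) (a (c (b (l 16151328) (l 16129880)) (b (l 16139864) (l 16121648))) (c (l 16157600) (b (l 16131984) (l 16109760))))) (l 16172072))) (b (a (b (a (c (l 16264840) (b (l 16258760) (a (l 16217120) (l 16215424)))) (l 16258736)) (a (c (b (l 16230624) (a (l 16189200) (l 16186680))) (b (a (l 16198976) (l 16194904)) (l 16179792))) (c (l 16219552) (b (l 16214088) (a (l 16171856) (l 16169432)))))) (l 16238600)) (a (b (a (c (b (a (l 16170856) (l 16165960)) (l 16151072)) (l 16176704)) (c (b (l 16162912) (a (l 16141864) (l 16138592))) (b (a (l 16152760) (l 16147952)) (l 16132264)))) (a (l 16146624) (c (b (a (l 16122568) (l 16116888)) (l 16101424)) (l 16127744)))) (b (a (c (l 16170816) (b (l 16145048) (a (l 16123176) (l 16119984)))) (l 16161880)) (a (c (b (l 16112672) (a (l 16091016) (l 16086936))) (b (a (l 16103104) (l 16097496)) (l 16081216)))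 (c (l 16118448) (b (l 16093392) (a (l 16070896) (l 16066880))))))))), by decide +kernel⟩

def k145_pm_011 : ∃ t, chk3 f_pm_011 t 239 254 17 = true :=
  ⟨(b (a (c (b (a (c (b (a (l 16226408) (l 16223152)) (l 16207832)) (l 16232688)) (c (b (l 16243576) (a (l 16201128) (l 16199552))) (b (a (l 16211016) (l 16223608)) (l 16191768)))) (a (l 16203696) (c (b (a (l 16182248) (l 16178280)) (l 16162376)) (l 16187872)))) (l 16206304)) (c (b (a (c (l 16234160) (b (l 16228520) (a (l 16200968) (l 16183792)))) (l 16228456)) (a (c (b (l 16176672) (a (l 16154576) (l 16152272))) (b (a (l 16165600) (l 16180096)) (l 16145024))) (c (l 16186272) (b (l 16160328) (a (c (l 16139416) (l 16134048)) (l 16135184)))))) (b (a (c (b (a (l 16195728) (c (l 16194864) (l 16189296))) (l 16175800)) (l 16201120)) (c (b (l 16213584) (a (c (l 16171568) (l 16166040)) (l 16168144))) (b (a (l 16180560) (l 6)) (l 16159936)))) (a (l 16169312) (c (b (a (l 16149048) (c (l 16147400) (l 16141920))) (l 16127760)) (l 16153768)))))) (a (l 16146848) (c (b (a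 (c (b (a (l 16134720) (l 16130000)) (l 16113504)) (l 16139680)) (c (b (l 16127256) (a (l 16104536) (l 16101432))) (b (a (l 16116752) (c (l 16114128) (l 16108816))) (l 16094792)))) (a (l 16106680) (c (b (a (l 16083672) (l 16078144)) (l 16061032)) (l 16087936)))) (l 16110472)))), by decide +kernel⟩

def k146_pm_011 : ∃ t, chk3 f_pm_011 t 119 254 9 = true :=
  ⟨(a (b (a (l 16251464) (l 16221024)) (l 16165968)) (a (b (l 16191696) (l 16132912)) (c (b (l 16169936) (l 16102944)) (a (l 16164336) (a (l 16121064) (a (l 16115208) (b (l 16145144) (l 16077616)))))))), by decide +kernel⟩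

def k147_pm_011 : ∃ t, chk3 f_pm_011 t 119 254 5 = true :=
  ⟨(c (a (c (b (a (l 16252048) (l 16221768)) (l 16144216)) (c (b (a (l 16268024) (l 16239320)) (l 16197544)) (b (l 16257272) (l 16199824)))) (c (a (b (l 16150680) (l 16132176)) (b (b (l 16181592) (l 16147944)) (b (l 16114176) (l 16080280)))) (c (a (b (l 16211872) (l 16145272)) (a (b (l 16192184) (l 16119888)) (c (l 16075480) (a (l 16084984) (b (c (l 16178392) (l 16181488)) (l 16101528)))))) (b (l 16161272) (l 16131072))))) (a (b (l 16255504) (l 16196856)) (b (a (l 16214216) (l 16188432)) (l 16106728)))), by decide +kernel⟩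

def k148_pm_011 : ∃ t, chk3 f_pm_011 t 236 510 2 = true :=
  ⟨(a (c (b (b (b (c (b (l 16366432) (l 16340240)) (b (l 16357432) (l 16352312))) (l 16313136)) (c (l 16292480) (l 16283800))) (c (b (l 16231016) (l 16169416)) (l 16107904))) (b (c (b (b (c (l 16310920) (b (l 16362416) (l 16356912))) (l 16330152)) (l 16220528)) (b (b (l 16315032) (l 16331784)) (l 16284128))) (c (c (l 16189160) (l 16191560)) (l 16188576)))) (c (a (b (b (b (c (l 16320552) (l 16310728)) (l 16296456)) (c (l 16256768) (l 16247336))) (c (l 16148824) (l 16160784))) (b (b (b (c (l 16300928) (l 16290576)) (c (l 16285848) (l 16275720))) (l 16213552)) (c (b (l 16179880) (l 16122288)) (l 16121216)))) (b (b (c (b (c (l 16298848) (b (l 16308176) (l 16304304))) (c (l 16282800) (l 16288576))) (b (l 16303200) (l 16286656))) (c (c (l 16237088) (l 16241840)) (l 16239432))) (c (c (l 16128176) (l 16089008)) (l 16127744))))), by decide +kernel⟩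

def k149_pm_011 : ∃ t, chk3 f_pm_011 t 236 511 2 = true :=
  ⟨(b (c (b (c (a (l 16107696) (l 16074992)) (a (l 16099560) (l 16066256))) (c (b (c (c (b (a (l 16049680) (l 16020912)) (a (l 16036888) (l 16008896))) (b (c (l 16055192) (l 16055024)) (a (l 16034592) (l 16005584)))) (b (l 16052448) (a (c (l 16052112) (l 16049176)) (b (l 16027024) (l 15997896))))) (c (l 16019488) (b (a (l 16037768) (b (l 15992688) (l 16006112))) (l 16008048)))) (b (l 16038880) (a (c (b (c (l 16033936) (l 16030456)) (l 16016728)) (b (l 16026432) (l 16013976))) (c (b (c (l 15985040) (l 15981912)) (l 15971424)) (b (l 16000184) (l 15987256))))))) (c (b (c (l 16079432) (l 16080104)) (c (b (l 16034800) (b (l 16012456) (a (l 16008760) (l 15982832)))) (l 16019288))) (a (l 16060752) (l 16030064)))) (c (b (c (c (a (l 15985784) (l 15963944)) (a (l 15981920) (l 15959912))) (c (l 15925064) (l 15963032))) (c (b (c (l 15909336) (l 15926456)) (b (l 15885104) (l 15869872))) (b (l 15920648) (c (l 15892432) (l 15888600))))) (b (c (b (c (b (a (l 15996504)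 (l 15971688)) (l 15967704)) (b (c (l 15981672) (l 15979168)) (l 15967696))) (c (l 15945296) (l 15943096))) (b (c (b (a (l 15988856) (l 15965832)) (a (l 15975048) (l 15951192))) (b (l 15974824) (a (l 15969016) (l 15946016)))) (c (l 15939760) (a (l 15949344) (l 15928072))))) (c (b (l 15913888) (l 15882904)) (b (l 15907208) (l 15875480)))))), by decide +kernel⟩

def k150_pm_011 : ∃ t, chk3 f_pm_011 t 237 510 2 = true :=
  ⟨(b (c (b (b (l 16246000) (a (a (c (l 16270096) (l 16259496)) (b (l 16251200) (l 16242704))) (a (b (l 16232088) (l 16226216)) (c (l 16214680) (l 16202584))))) (c (a (l 16220032) (l 16192328)) (a (l 16209528) (l 16180936)))) (b (b (c (l 16241264) (l 16244040)) (b (c (a (c (l 16253552) (l 16260136)) (l 16216840)) (a (l 16257992) (l 16219392))) (c (a (c (l 16243296) (l 16249560)) (c (l 16209056) (l 16216032))) (a (l 16247464) (l 16213672))))) (c (c (l 16172536) (a (l 16212912) (l 16184936))) (l 16175648)))) (c (c (a (b (l 16163264) (l 16106408)) (b (l 16141544) (l 16090664))) (a (b (l 16153160)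 (l 16096704)) (b (l 16130704) (l 16080376)))) (c (c (a (l 16122040) (l 16102624)) (a (l 16125264) (l 16106368))) (a (l 16121936) (l 16102984))))), by decide +kernel⟩

def k151_pm_011 : ∃ t, chk3 f_pm_011 t 237 511 2 = true :=
  ⟨(b (c (b (c (a (a (l 16053144) (l 16047072)) (l 16039672)) (a (l 16041008) (l 16029952))) (c (a (b (b (l 15994304) (c (a (c (l 15987208) (l 15983824)) (a (l 15979616) (l 15978384))) (c (l 15978456) (l 15998240)))) (c (a (l 15986688) (l 15959584)) (b (a (l 15968880) (l 15961792)) (l 15951296)))) (b (c (b (l 16010096) (c (l 15976760) (l 15974128))) (l 15999064)) (b (c (l 15964792) (c (l 15960488) (l 15957184))) (l 15948784)))) (b (a (l 15999624) (l 15992072)) (c (a (b (a (l 15962280) (l 15955496)) (a (l 15951768) (l 15944304))) (b (l 15953160) (l 15942640))) (b (l 15953056) (a (a (l 15945784) (l 15937944)) (l 15936168))))))) (c (a (b (c (l 16037216) (l 16038288)) (c (b (l 15995384) (c (l 15966960) (l 15968040))) (l 15981736))) (c (l 16000592) (l 16001280))) (a (a (l 16009040) (l 16002040))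 (l 15996888)))) (c (b (c (a (a (l 15945136) (a (l 15937648) (l 15915080))) (c (l 15918568) (l 15914288))) (a (c (l 15935216) (a (l 15934688) (l 15927456))) (c (l 15909984) (b (l 15919848) (l 15914000))))) (b (a (c (l 15880720) (l 15872632)) (c (l 15877976) (l 15869792))) (a (c (c (l 15856456) (l 15852528)) (l 15846408)) (c (l 15851888) (l 15843944))))) (b (c (b (c (b (a (a (l 15931416) (l 15922960)) (l 15922024)) (l 15911432)) (a (b (c (l 15925016) (l 15923912)) (l 15934080)) (b (l 15919696) (l 15908872)))) (a (l 15913256) (l 15888848))) (b (b (l 15939400) (c (a (a (l 15933000) (l 15903248)) (l 15903488)) (a (l 15924664) (l 15921952)))) (c (a (l 15909688) (l 15885992)) (b (a (l 15912632) (l 15887688)) (l 15896912))))) (c (a (b (l 15886664) (l 15838824)) (b (l 15862880) (l 15836360))) (b (a (l 15879832) (l 15877056)) (a (l 15852184) (l 15849728))))))), by decide +kernel⟩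

def k152_pm_011 : ∃ t, chk3 f_pm_011 t 238 255 4 = true :=
  ⟨(b (b (b (a (a (b (l 16195928) (c (l 16195440) (l 16182792))) (l 16172960)) (l 16143056)) (a (a (c (l 16170888) (l 16158760)) (b (c (l 16165424) (l 16152624)) (l 16137560))) (b (c (b (c (l 16143808) (l 16137024)) (l 16134880)) (b (l 16126704) (l 16121408))) (c (l 16120352) (l 16107240))))) (a (c (b (l 16117872) (l 16073352)) (b (l 16106256) (l 16062448))) (c (b (l 16092072) (l 16054304)) (a (l 16067160) (l 16055048))))) (b (b (c (a (l 16028736) (l 16016464)) (a (l 16018552) (l 16005784))) (c (b (c (c (a (a (l 15978160) (l 15975328)) (l 15970408)) (l 15993000)) (l 15968352)) (c (c (a (l 15956624) (b (b (l 15979736) (l 15975352)) (l 15967840))) (a (a (l 15955272) (l 15953464)) (c (l 15950888) (l 15949448)))) (a (b (c (l 15955928) (l 15953064)) (l 15945016)) (b (l 15949448) (l 15941872))))) (b (l 15960976) (c (b (a (l 15950056) (l 15966568)) (a (l 15939576) (l 15935840))) (b (l 15964328) (a (l 15933640) (l 15930784))))))) (b (c (a (c (l 15920456)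 (l 15916104)) (c (l 15921800) (l 15917368))) (c (a (l 15911736) (l 15913720)) (b (b (a (l 15924808) (l 15922776)) (l 15934008)) (l 15897856)))) (b (c (l 15887872) (l 15879664)) (c (a (l 15861792) (l 15871664)) (a (l 15853920) (l 15863864))))))), by decide +kernel⟩

def k153_pm_011 : ∃ t, chk3 f_pm_011 t 238 255 5 = true :=
  ⟨(b (b (c (b (b (c (l 16157576) (l 16166640)) (a (c (l 16170808) (a (l 16188856) (l 16169536))) (l 16133808))) (c (b (a (l 16159464) (b (l 16124784) (l 16119336))) (l 16121216)) (b (a (b (l 16171648) (l 16160360)) (c (b (l 16132288) (l 16126512)) (l 16130296))) (c (l 16127480) (l 16128312))))) (b (a (a (l 16189384) (l 16170568)) (l 16140760)) (b (a (l 16164032) (b (l 16130064) (l 16124248))) (l 16124968)))) (c (c (a (l 16081408) (l 16058208)) (a (c (l 16085592) (l 16085824)) (c (l 16062920) (l 16063256)))) (a (l 16082248) (l 16059552)))) (b (c (c (a (l 15992488) (l 15983208)) (a (l 15993528) (c (l 15984904) (l 15984344)))) (a (l 15989128) (l 15980200))) (b (c (b (c (a (b (l 15920760)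 (l 15931896)) (b (l 15919072) (l 15911424))) (b (a (l 15919832) (l 15940376)) (a (l 15909448) (l 15909456)))) (c (l 15894984) (l 15893256))) (b (c (b (l 15937880) (a (l 15904536) (l 15905296))) (l 15928936)) (c (a (l 15889800) (l 15892824)) (b (a (l 15890032) (l 15892048)) (l 15881680))))) (c (b (a (l 15869640) (l 15876144)) (c (l 15853336) (l 15870856))) (b (l 15887296) (l 15864984)))))), by decide +kernel⟩

def k154_pm_011 : ∃ t, chk3 f_pm_011 t 239 510 16 = true :=
  ⟨(b (b (a (c (a (c (l 16109952) (l 16125936)) (c (l 16100328) (l 16089048))) (l 16113504)) (c (l 16107400) (a (c (a (l 16070728) (l 16064224)) (l 16083960)) (c (l 16058744) (a (l 16049808) (l 16043352)))))) (a (b (c (a (b (l 16096528) (l 16091520)) (a (c (l 16083856) (l 16098560)) (c (l 16100936) (l 16069216)))) (l 16100264)) (c (a (l 16100792) (c (a (l 16070176) (l 16066064)) (l 16061992))) (l 16088920))) (c (b (a (l 16069664) (l 16085504)) (a (c (l 16084360) (a (l 16051040) (l 16046304))) (l 16051280))) (b (a (l 16051448) (c (l 16040120)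 (l 16031176))) (a (l 16041400) (c (b (a (l 16032792) (l 16027624)) (l 16024800)) (l 16021360))))))) (a (a (l 16058104) (c (c (b (a (l 16046088) (l 16041608)) (l 16013024)) (l 16046192)) (l 16043784))) (c (a (c (b (l 16038768) (a (l 16007680) (l 16006752))) (b (a (l 16029416) (l 16024584)) (l 16000096))) (c (l 16044120) (b (l 16021208) (a (l 15994320) (l 15993096))))) (a (l 16030416) (c (a (l 16021632) (b (l 16006744) (l 15983640))) (l 16015584)))))), by decide +kernel⟩

def k155_pm_011 : ∃ t, chk3 f_pm_011 t 239 511 16 = true :=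
  ⟨(b (c (b (a (l 16006880) (a (c (a (l 15978344) (l 15977392)) (l 15994976)) (c (l 15979952) (a (l 15969016) (l 15967832))))) (a (b (l 15983576) (b (b (l 15973416) (l 15970304)) (l 15964120))) (a (b (l 15956256) (b (b (l 15968832) (c (l 15966352) (l 15964736))) (l 15960752))) (a (c (b (l 15957032) (b (c (b (l 15970944) (l 15967448)) (l 15964880)) (c (l 15962440) (l 15959216)))) (b (l 15972200) (l 15961072))) (b (a (l 15960080) (l 15955664)) (c (l 15946824) (b (l 15962008) (l 15957104)))))))) (b (l 15996680) (b (l 15955416) (b (b (l 15967928) (l 15942592)) (a (l 15962168) (l 15957400)))))) (a (b (l 15922536) (l 15891112)) (a (l 15919976) (c (b (c (a (l 15925280) (l 15928104)) (l 15944072)) (l 15902528)) (l 15910496))))), by decide +kernel⟩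

def k156_pm_011 : ∃ t, chk3 f_pm_011 t 239 255 17 = true :=
  ⟨(b (b (b (l 16088392) (a (b (b (l 16097880) (l 16093152)) (l 16083688)) (b (l 16056120) (a (l 16035664) (l 16016304))))) (a (l 16045464) (a (l 16025408) (l 16011264)))) (b (b (b (l 15978080) (l 15964776)) (b (l 15951456) (a (c (c (l 15942600) (l 15941096)) (c (l 15939624) (l 15938224))) (a (l 15935928) (b (l 15957024) (l 15972648)))))) (b (a (l 15918024) (l 15918016)) (b (l 15898064) (l 15884472))))), by decide +kernel⟩

def k157_pm_011 : ∃ t, chk3 f_pm_011 t 239 255 9 = true :=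
  ⟨(b (b (b (a (l 16095992) (a (l 16066400) (l 16046872))) (a (b (b (l 16086728) (l 16061224)) (l 16073112)) (a (b (l 16054312) (l 16024408)) (b (l 16013128) (a (l 16009656) (a (l 16023072) (l 15997008))))))) (a (a (l 16042392) (l 16029152)) (a (l 16015312) (a (l 16004512) (l 15997112))))) (b (b (a (l 15991512) (a (l 15979744) (l 15950376))) (c (b (l 15946152) (a (b (l 15960696) (l 15931552)) (c (l 15930632) (l 15949688)))) (a (l 15959336) (l 15930224)))) (b (a (b (c (l 15921960) (b (l 15919960) (l 15933600))) (l 15903792)) (b (c (l 15919744) (a (l 15915208) (l 15913696))) (l 15905624))) (b (c (l 15893928) (l 15889768)) (a (l 15873744) (l 15883560)))))), by decide +kernel⟩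

def k158_pm_011 : ∃ t, chk3 f_pm_011 t 239 255 5 = true :=
  ⟨(b (b (b (c (a (c (l 16094208) (l 16104224)) (c (l 16054784) (l 16065528))) (l 16082152)) (c (c (a (b (b (l 16084680) (l 16080072)) (l 16070704)) (b (l 16042008) (b (l 16014360) (l 16030048)))) (a (b (c (l 16089680) (l 16090928)) (l 16057552)) (b (l 16051336) (c (a (l 16050856) (a (l 16015392) (l 16005416))) (l 16042432))))) (a (b (b (l 16090712) (l 16085512)) (l 16075480)) (b (l 16048488) (a (l 16048224) (l 16028712)))))) (c (c (a (b (l 16047872) (l 16017832)) (a (l 16012288) (l 15997792))) (a (c (l 16038112) (l 16038568)) (c (a (l 16017992) (l 16003760)) (l 16011544)))) (a (l 16034712) (a (l 16014568) (l 16000352))))) (b (c (c (a (l 15972648) (a (l 15963816) (l 15957456))) (a (c (l 15974688) (l 15974208)) (a (l 15965920) (l 15959704)))) (a (l 15970008) (a (l 15961464) (l 15955304)))) (b (c (c (b (a (b (l 15916968) (l 15910816)) (b (l 15914288) (l 15909336))) (l 15899808)) (b (b (l 15916024) (a (l 15908976) (l 15907952))) (a (l 15897928) (l 15900112))))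 (b (a (c (l 15909528) (l 15927688)) (l 15927656)) (c (a (l 15895160) (l 15896864)) (a (c (l 15891808) (l 15889368)) (b (l 15895000) (l 15889992)))))) (b (c (c (l 15886632) (l 15884296)) (c (l 15880856) (l 15877184))) (c (a (l 15866512) (l 15876416)) (a (l 15859280) (l 15869336))))))), by decide +kernel⟩

def k159_pm_011 : ∃ t, chk3 f_pm_011 t 29 30 3 = true :=
  ⟨(l 6), by decide +kernel⟩

def k160_pm_011 : ∃ t, chk3 f_pm_011 t 29 62 3 = true :=
  ⟨(a (b (l 6) (b (l 6) (a (a (b (a (c (l 16653648) (l 16652864)) (l 6)) (c (l 16614976) (l 16635176))) (b (l 6) (b (l 6) (c (a (l 16619552) (l 16613760)) (l 16604792))))) (l 6)))) (l 6)), by decide +kernel⟩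

def k161_pm_011 : ∃ t, chk3 f_pm_011 t 58 126 3 = true :=
  ⟨(c (c (b (a (b (c (b (a (l 16608088) (a (l 16612824) (c (l 16620520) (l 16612984)))) (b (a (l 16607648) (l 16583800)) (l 16557928))) (a (l 16622256) (a (l 16633696) (l 16614584)))) (c (b (l 16544088) (l 16545392)) (b (l 16552688) (b (l 16537168) (l 16524376))))) (b (c (b (a (l 16567848) (l 6)) (c (l 16538104) (a (l 16583288) (l 16548696)))) (a (l 16579424) (l 16547016))) (a (c (b (a (l 16583096) (l 16580576)) (l 16546992)) (b (c (l 16555544) (l 16569568)) (c (l 16543672) (l 16530392)))) (c (b (l 16530744) (l 16539488)) (b (l 16533120) (c (l 16535992) (l 16522592))))))) (a (b (c (l 16525848) (b (l 16507408) (l 16510024))) (l 16492488)) (a (b (b (c (l 16580312) (a (l 16604960) (l 16561536))) (l 16535336)) (l 16556016)) (b (c (l 16509232) (l 16472320)) (l 16439536))))) (b (a (a (l 16558368) (b (l 16592656) (l 16607992))) (a (b (l 16578176) (l 16515424)) (l 16491368))) (c (b (a (b (l 16519480) (c (l 16510056) (l 16498088))) (a (b (a (l 16589696) (l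 16546056)) (c (l 16562152) (l 16550872))) (b (l 16507168) (l 16461344)))) (a (a (l 16503016) (l 16590904)) (a (l 16543200) (b (l 16473960) (l 16483304))))) (a (b (l 16512680) (b (l 16479760) (a (l 16471952) (l 16583304)))) (a (b (l 16544720) (b (l 16552568) (l 16522552))) (b (l 16495944) (b (l 16461616) (a (l 16479288) (l 16459760))))))))) (b (a (a (l 16578648) (a (l 16621696) (l 16597696))) (a (a (l 16562536) (l 16558336)) (l 16530456))) (a (a (l 16490488) (l 16594528)) (a (b (l 16542864) (l 16570976)) (b (l 16493248) (l 16452200)))))), by decide +kernel⟩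

def k162_pm_011 : ∃ t, chk3 f_pm_011 t 59 126 3 = true :=
  ⟨(a (b (a (b (l 6) (b (l 6) (c (c (c (l 16501184) (c (l 16497544) (l 16484048))) (l 16476200)) (l 16472560)))) (l 6)) (c (c (b (c (a (l 16463152) (l 16422752)) (b (a (l 16479144) (c (l 16445384) (l 16440504))) (l 16374576))) (a (l 16420104) (l 16367968))) (b (c (b (a (l 16463272) (c (l 16427808) (l 16421112))) (c (a (l 16458720) (l 16415072)) (a (l 16447144) (l 16403384)))) (a (l 16449192) (l 16408200))) (c (b (a (l 16438960) (l 16368432)) (l 16389576)) (b (a (l 16426352) (l 16355576)) (c (l 16327672) (a (l 16411760) (l 16355984))))))) (a (l 16365232) (b (l 16404424) (l 16356920))))) (b (l 6) (a (b (a (b (l 6) (c (c (l 16381872) (c (c (l 16386544) (l 16374784)) (l 16367784))) (l 16363536))) (l 6)) (c (c (a (l 16332384) (l 16310584)) (c (b (c (l 16348392) (l 16303624)) (l 16312128)) (b (c (l 16313952) (l 16328520)) (c (l 16291888) (b (l 16307920) (l 16298992)))))) (a (l 16320472) (l 16298152)))) (a (b (l 6) (b (l 6) (c (c (l 16269680) (c (l 16278408)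 (c (l 16279024) (b (l 16275384) (l 16263688))))) (l 16259536)))) (l 6))))), by decide +kernel⟩

def k163_pm_011 : ∃ t, chk3 f_pm_011 t 116 127 6 = true :=
  ⟨(b (b (b (a (l 16460032) (l 16553432)) (l 16444144)) (b (l 16448576) (b (a (b (l 16469728) (a (b (l 16390120) (l 16419128)) (c (l 16506640) (l 16482520)))) (l 16570976)) (a (a (l 16458008) (c (l 16508728) (l 16506592))) (b (a (c (l 16543008) (l 16541000)) (c (l 16587264) (l 16585824))) (l 16568296)))))) (b (b (a (c (l 16504160) (l 16483144)) (c (l 16443536) (l 16442696))) (a (c (l 16351352) (l 16349184)) (c (l 16306040) (l 16303224)))) (b (a (c (l 16197720) (l 16214728)) (c (l 16167784) (l 16163320))) (b (c (b (b (l 16129432) (c (a (c (l 16127328) (l 16123936)) (c (l 16085704) (l 16084328))) (l 16104520))) (c (a (l 16093936) (b (l 16066776) (l 16041680))) (a (b (c (l 16101280) (l 16097200)) (l 16077160)) (b (c (l 16061296) (l 16058320)) (l 16041336))))) (b (l 16112328) (c (a (b (c (l 16095896) (l 16096472)) (c (l 16074816) (l 16070632))) (b (l 16058496)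 (c (l 16036904) (l 16032992)))) (c (a (b (l 16095112) (l 16067704)) (l 16042464)) (l 16062472))))) (b (c (c (l 16024568) (l 16021496)) (c (a (l 16035224) (l 16003464)) (b (c (a (l 16047632) (l 16012120)) (a (l 16044024) (l 16008072))) (l 16003376)))) (c (a (l 15988928) (l 15959360)) (c (l 15969304) (a (l 15981024) (l 15951088))))))))), by decide +kernel⟩

def k164_pm_011 : ∃ t, chk3 f_pm_011 t 116 127 14 = true :=
  ⟨(b (b (b (a (l 16453032) (l 16548192)) (c (l 16416336) (l 16484976))) (b (c (l 16421280) (l 16419544)) (b (b (c (l 16450592) (l 16427320)) (a (c (a (l 16387488) (l 16497704)) (a (b (l 16419248) (l 16406696)) (b (l 16490976) (l 16471136)))) (l 16500208))) (a (c (l 16434704) (c (l 16450312) (l 16429744))) (b (c (b (l 16523696) (l 16532616)) (a (b (l 16523824) (l 16582560)) (b (l 16593816) (l 16577544)))) (l 16542448)))))) (b (b (a (c (l 16505672) (l 16487560)) (c (l 16464632) (l 16425144))) (a (l 16327672) (l 16281064))) (b (a (l 16189856) (l 16158928)) (b (l 16020000) (b (b (c (a (c (l 16040000)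 (l 16040984)) (c (l 16004968) (l 16005840))) (l 16021224)) (c (c (l 16003544) (a (l 16017152) (l 15983184))) (c (a (l 16012600) (l 15979008)) (c (a (l 16011328) (l 15978648)) (l 15995880))))) (b (c (l 15976160) (c (l 15975448) (a (l 15989680) (l 15957888)))) (c (l 15951240) (l 15947840)))))))), by decide +kernel⟩

def k165_pm_011 : ∃ t, chk3 f_pm_011 t 116 127 15 = true :=
  ⟨(b (b (a (l 16507720) (l 16606096)) (b (l 16464008) (b (a (b (l 16460952) (a (b (l 16422104) (l 16430600)) (l 16496968))) (l 16586392)) (a (l 16411304) (b (a (l 16535720) (l 16581696)) (l 16584624)))))) (b (b (a (a (l 16470696) (l 16488024)) (c (l 16404688) (l 16464864))) (c (b (c (l 16364912) (l 16365112)) (c (l 16351528) (l 16268432))) (a (l 16389216) (l 16362760)))) (b (c (a (l 16209192) (l 16177880)) (b (l 16189128) (c (l 16112048) (l 16174128)))) (b (c (l 16078784) (c (l 16077368) (l 16075104))) (b (c (l 16006016) (l 16002768)) (b (c (b (c (a (l 15990320) (l 15958552)) (l 15974880)) (c (a (l 15980920) (l 15949576)) (a (c (l 15977632)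 (l 15971160)) (l 15941072)))) (l 15966200)) (c (b (c (l 15952240) (c (l 15952016) (l 15950128))) (c (l 15939672) (l 15937976))) (c (a (b (l 15961088) (l 15951208)) (l 15924112)) (l 15937448))))))))), by decide +kernel⟩

def k166_pm_011 : ∃ t, chk3 f_pm_011 t 117 254 3 = true :=
  ⟨(b (c (b (a (l 16518496) (c (l 16464432) (c (l 16469776) (l 16454840)))) (a (l 16546192) (l 16443848))) (c (c (a (b (l 16544240) (l 16530312)) (b (c (l 16449720) (l 16463600)) (l 16426504))) (l 16417544)) (l 16437200))) (b (c (l 16441088) (c (c (l 16423696) (l 16424160)) (l 16481568))) (c (b (l 16462736) (b (a (a (l 16562256) (l 16560400)) (l 16459496)) (b (a (a (l 16576776) (l 16537080)) (l 16459600)) (a (a (l 16597912) (l 16548128)) (a (l 16468624) (l 16424816)))))) (c (b (c (l 16467624) (l 16427424)) (a (b (c (l 16532192) (a (l 16571728) (l 16568200))) (a (c (l 16590872) (l 16575488)) (c (l 16533616) (l 16496984)))) (b (l 16419696) (b (l 16461704) (a (l 16471032) (l 16426472)))))) (b (l 16483976) (a (b (l 16509456) (a (l 16590672)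 (l 16532624))) (a (l 16467536) (l 16422696)))))))), by decide +kernel⟩

def k167_pm_011 : ∃ t, chk3 f_pm_011 t 117 510 3 = true :=
  ⟨(c (b (a (c (l 16377056) (l 16375376)) (a (a (l 16401896) (l 16335664)) (b (c (l 16315296) (l 16333856)) (l 16326808)))) (a (c (l 16256456) (l 16252968)) (c (l 16160080) (l 16197816)))) (b (c (a (b (l 16439632) (l 16420144)) (b (a (l 16448736) (b (l 16372376) (l 16378976))) (l 16349952))) (a (c (l 16335872) (l 16416592)) (a (l 16304464) (b (b (l 16411472) (l 16378176)) (l 16323136))))) (c (a (l 16230120) (l 16174240)) (c (c (a (l 16314392) (l 16237088)) (a (l 16271920) (l 16194432))) (a (l 16310952) (l 16233184)))))), by decide +kernel⟩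

def k168_pm_011 : ∃ t, chk3 f_pm_011 t 117 511 3 = true :=
  ⟨(b (c (a (c (l 16114192) (l 16130192)) (c (l 16036616) (l 16094016))) (c (a (l 16146248) (l 16088552)) (b (c (l 16113640) (l 16111632)) (c (l 16075016) (a (l 16097728) (l 16044200)))))) (c (c (b (b (c (a (c (l 16053128) (l 16054584)) (l 16010600)) (l 16030136)) (b (c (a (l 16025808) (l 15941160)) (a (a (l 16029096) (l 16008824)) (l 15956736))) (c (l 15965608) (a (l 16003160) (l 15963056))))) (b (c (l 15955872) (l 15952472)) (a (l 15929336) (l 15898824)))) (b (c (b (l 16027080) (a (b (l 16018456) (c (l 15997832) (l 15994848))) (c (l 15965488) (l 15964784)))) (l 16004496)) (b (c (a (l 15969736) (b (l 15942312) (l 15921992))) (a (b (c (l 15975288) (l 15971416)) (l 15953944)) (c (l 15930592) (l 15927088)))) (c (l 15908784) (l 15884128))))) (b (c (l 15978680) (c (l 15994920) (c (l 15993208) (l 15990736)))) (c (b (b (c (c (a (l 15969448) (l 15934232)) (l 15951232)) (l 15948680)) (c (c (l 15913720) (a (l 15948480) (l 15913088))) (c (a (l 15944872) (l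 15910152)) (l 15928040)))) (b (c (l 15912664) (b (c (l 15916240) (l 15912344)) (l 15863552))) (c (l 15892232) (l 15888552)))) (b (c (l 15935320) (l 15931720)) (b (c (c (a (b (l 15920024) (l 15917688)) (l 15884840)) (l 15899072)) (l 15901776)) (b (c (c (l 15891488) (l 15890320)) (l 15882504)) (c (a (l 15895104) (l 15866232)) (l 15875624))))))))), by decide +kernel⟩

def k169_pm_011 : ∃ t, chk3 f_pm_011 t 59 254 3 = true :=
  ⟨(c (a (b (c (a (l 16378128) (l 16314256)) (b (c (l 16361096) (a (l 16397944) (l 16336304))) (l 16317800))) (a (a (l 16368856) (l 16323080)) (l 16266240))) (b (c (a (l 16254432) (a (l 16212752) (l 16186728))) (b (c (a (l 16274000) (l 16222464)) (a (c (l 16280352) (l 16279800)) (c (l 16228632) (b (l 16237744) (l 16220280))))) (a (l 16241760) (l 16161640)))) (a (b (l 16208056) (l 16176088)) (b (c (l 16141384) (l 16140232)) (l 16081240))))) (a (b (c (c (b (c (a (l 16392544) (l 16330688)) (l 16353752)) (c (l 16302008) (a (l 16373112) (l 16305104)))) (l 16300088)) (l 16297488)) (c (c (a (a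 (l 16370120) (l 16323808)) (l 16245320)) (b (a (l 16312016) (l 16257104)) (a (c (l 16342344) (l 16318408)) (c (l 16256240) (l 16253072))))) (a (l 16341440) (l 16258664)))) (c (b (c (b (c (a (b (l 16276376) (l 16266928)) (b (l 16226296) (c (l 16215576) (l 16207896)))) (a (l 16265728) (l 16213640))) (c (a (l 16246360) (b (l 16197128) (l 16178608))) (a (b (l 16244624) (l 16234480)) (b (l 16186888) (c (l 16175416) (l 16168304)))))) (a (l 16248776) (l 16150776))) (c (c (a (l 16192968) (l 16059192)) (b (a (l 16212544) (b (l 16156032) (l 16136408))) (l 16033816))) (b (b (a (l 16211376) (l 16124864)) (c (c (l 16105880) (l 16078704)) (l 16138104))) (c (a (l 16178328) (l 16061384)) (a (l 16154008) (b (l 16107224) (c (l 16093344) (l 16088304)))))))) (a (b (l 16245512) (l 16183520)) (b (l 16126144) (l 16069808)))))), by decide +kernel⟩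

def k170_pm_011 : ∃ t, chk3 f_pm_011 t 118 510 3 = true :=
  ⟨(c (a (b (b (a (b (c (l 16353744) (l 16350968)) (l 16326696)) (b (c (l 16299472) (l 16296192)) (a (l 16288176) (l 16272376)))) (a (l 16278312) (l 16232984))) (a (l 16097560) (c (l 16143600) (l 16138440)))) (b (b (b (l 16237832) (a (c (l 16248736) (l 16244728)) (c (l 16210608) (l 16206240)))) (a (l 16203520) (l 16175032))) (a (c (l 16116568) (l 16111152)) (c (l 16097432) (l 16091840))))) (b (a (a (c (b (b (b (l 16356376) (l 16350520)) (l 16325824)) (l 16276888)) (b (b (l 16348712) (l 16324520)) (l 16273480))) (c (b (b (b (l 16300392) (l 16296088)) (l 16279384)) (l 16230920)) (b (b (l 16292912) (l 16256672)) (l 16143192)))) (c (b (b (l 16235984) (a (b (l 16250200) (l 16239104)) (b (l 16210488) (l 16204376)))) (l 16165904)) (b (b (l 16231448) (a (b (l 16245936) (l 16236824)) (a (l 16172168) (l 16193824)))) (c (c (l 16187040) (l 16182040)) (l 16180232))))) (c (a (a (l 16175880) (l 16134888)) (a (l 16107344) (l 16087840))) (a (c (c (l 16092280) (b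 (l 16186888) (l 16122320))) (l 16129840)) (c (c (l 16033984) (b (l 16125696) (l 16067352))) (l 16092168)))))), by decide +kernel⟩

def k171_pm_011 : ∃ t, chk3 f_pm_011 t 119 510 3 = true :=
  ⟨(c (a (b (b (a (a (b (l 16187008) (l 16179040)) (l 16163312)) (l 16133088)) (a (b (a (l 16164984) (l 16147728)) (l 16132416)) (b (a (l 16128920) (l 16088176)) (l 16100696)))) (a (c (l 16076496) (l 16070712)) (c (l 16053592) (l 16047584)))) (b (b (l 16073664) (a (a (b (l 16088944) (l 16075136)) (b (l 16068872) (l 16057632))) (b (l 16039344) (a (l 16039064) (c (l 16022440) (l 16016120)))))) (a (c (l 16028520) (l 16022280)) (a (l 16004968) (c (l 15993840) (l 15987272)))))) (b (a (c (b (a (b (l 16174232) (l 16144752)) (l 16129200)) (b (a (l 16152736) (b (l 16118040) (l 16111416))) (l 16112152))) (b (a (a (a (l 16182288) (l 16172496)) (l 16157400)) (l 16126464)) (b (a (c (c (l 16153384) (l 16148352)) (l 16146432)) (c (c (b (l 16118232) (l 16112416)) (l 16109928)) (l 16107856))) (c (c (l 16113256) (l 16107616)) (l 16105552)))))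 (c (a (b (l 16088864) (b (b (l 16077576) (l 16071600)) (l 16061256))) (b (l 16007272) (b (l 16033944) (a (l 16033248) (b (l 16015640) (l 16009536)))))) (b (c (c (l 16026464) (l 16063888)) (l 16061664)) (a (b (c (c (b (l 16077456) (l 16072424)) (l 16068896)) (l 16066672)) (c (c (l 16061960) (l 16056200)) (l 16053992))) (b (c (l 15989920) (l 16026256)) (c (c (b (c (l 16028848) (l 16023952)) (l 16020496)) (l 16018080)) (b (l 16018232) (l 16012008)))))))) (c (a (a (l 16066504) (l 16043160)) (a (b (l 16034480) (l 15999968)) (a (l 15996904) (l 15982288)))) (c (a (c (a (l 16065424) (l 16041944)) (b (l 16033984) (a (l 16040744) (l 16020768)))) (c (a (l 15995280) (a (l 15995408) (l 15980712))) (b (a (l 16032552) (c (l 16001048) (l 15997800))) (a (l 15998800) (c (l 15975736) (l 15973816)))))) (a (a (l 16060504) (l 16036888)) (a (l 16011040) (l 15982768))))))), by decide +kernel⟩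

def k172_pm_011 : ∃ t, chk3 f_pm_011 t 118 1022 3 = true :=
  ⟨(c (a (c (a (l 16054856) (l 16023880)) (l 15970480)) (a (c (l 15999792) (l 15993344)) (c (l 15990384) (l 15983840)))) (c (a (l 16006384) (a (l 15986928) (l 15977328))) (c (a (l 16024096) (a (l 15983376) (l 15973712))) (b (a (l 16054184) (l 16005056)) (a (l 15966696) (c (a (l 15950432) (l 15943368)) (l 15945808))))))), by decide +kernel⟩

def k173_pm_011 : ∃ t, chk3 f_pm_011 t 118 1023 3 = true :=
  ⟨(c (a (b (b (l 15958664) (c (c (b (c (l 15940808) (l 15938040)) (l 15926784)) (b (l 15937048) (c (l 15923136) (l 15919792)))) (c (c (l 15924192) (l 15924840)) (l 15922184)))) (c (b (l 15899928) (l 15867792)) (b (b (c (l 15903512) (c (l 15898528) (l 15896088))) (c (l 15886608) (l 15884656))) (c (l 15862280) (l 15858368))))) (b (b (a (l 15924088) (l 15919728)) (c (c (a (b (l 15906768) (l 15895984)) (b (l 15903520) (l 15892640))) (b (l 15903184) (a (l 15890144) (l 15886800)))) (a (c (c (l 15894144) (l 15893368)) (l 15890608)) (l 15889024)))) (b (c (a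 (l 15873280) (l 15870936)) (c (b (a (l 15873936) (l 15870728)) (l 15858504)) (b (a (l 15867792) (l 15865136)) (a (l 15857176) (l 15854296))))) (c (a (l 15844280) (l 15841816)) (a (l 15836304) (l 15833824)))))) (b (c (a (l 15932640) (l 15897848)) (c (a (l 15927432) (l 15892392)) (a (c (l 15925472) (l 15922848)) (c (l 15890304) (a (l 15889320) (l 15884976)))))) (b (c (b (a (l 15893128) (l 15862640)) (c (a (c (l 15880472) (l 15876984)) (a (l 15850960) (l 15848184))) (c (a (l 15874728) (a (l 15848192) (l 15846360))) (l 15860400)))) (a (l 15835584) (c (l 15850160) (c (l 15847280) (l 15845128))))) (c (a (c (b (l 15863360) (l 15847024)) (b (c (l 15861848) (a (l 15863976) (l 15847120))) (l 15843088))) (b (c (l 15837984) (c (l 15835088) (b (l 15834520) (l 15829288)))) (c (l 15822968) (l 15818928)))) (c (a (b (a (l 15859536) (l 15843008)) (b (l 15844072) (l 15835960))) (a (b (l 15826400) (b (l 15819848) (l 15813072))) (b (l 15824192) (b (l 15817080) (l 15810352))))) (a (b (l 15851760) (l 15812336)) (b (l 15825096)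 (a (l 15810208) (l 15807808))))))))), by decide +kernel⟩

def k174_pm_011 : ∃ t, chk3 f_pm_011 t 119 511 6 = true :=
  ⟨(c (b (a (a (l 15982552) (l 15973544)) (a (l 15963248) (l 15930584))) (a (b (b (l 15923608) (c (b (c (l 15888064) (l 15908112)) (a (l 15875728) (l 15879368))) (b (l 15905384) (a (l 15891176) (l 15895312))))) (b (c (l 15881688) (b (l 15884552) (l 15872448))) (b (l 15863376) (l 15852072)))) (b (b (l 15921536) (b (l 15889728) (c (a (l 15882640) (l 15885552)) (c (l 15880920) (l 15900728))))) (b (c (l 15894776) (a (l 15888832) (l 15894648))) (b (l 15881760) (l 15874296)))))) (b (a (a (l 15975928) (l 15966832)) (a (l 15956440) (l 15944632))) (b (a (l 15905416) (a (l 15906904) (l 15907056))) (b (b (c (a (a (l 15876552) (l 15882168)) (a (l 15887552) (l 15892680))) (c (a (l 15875856) (l 15887464)) (l 15880696))) (a (c (l 15868656) (c (l 15866688) (l 15864288))) (c (l 15883992) (a (l 15876400) (l 15883336))))) (a (c (l 15851560) (l 15847616)) (b (c (l 15876128) (l 15872352)) (l 15866688))))))), by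 decide +kernel⟩

def k175_pm_011 : ∃ t, chk3 f_pm_011 t 119 511 7 = true :=
  ⟨(b (c (a (a (l 15969336) (l 15960152)) (a (l 15949656) (a (l 15940864) (l 15934528)))) (c (a (b (l 15984360) (l 15938232)) (b (a (l 15963400) (l 15926376)) (a (l 15928488) (l 15920528)))) (a (c (b (l 15982808) (c (l 15937328) (l 15936632))) (l 15957280)) (c (b (a (l 15961776) (l 15945664)) (c (l 15923720) (a (l 15926848) (l 15918848)))) (a (l 15941848) (l 15929768)))))) (b (c (a (l 15898112) (a (l 15899608) (l 15899752))) (c (a (l 15892640) (l 15894304)) (c (a (l 15890552) (a (l 15892056) (l 15892192))) (a (c (l 15889128) (l 15888416)) (c (b (l 15899136) (l 15883248)) (l 15890072)))))) (c (b (b (a (l 15870264) (l 15881384)) (c (a (c (l 15861432) (l 15858992)) (b (l 15877744) (a (l 15869640) (l 15877384)))) (l 15864792))) (b (a (c (l 15850864) (c (l 15847520) (a (l 15837536) (l 15847320)))) (c (a (l 15864640) (l 15873680)) (c (a (l 15861336) (l 15870416)) (a (l 15857072) (l 15866760))))) (b (a (l 15839624) (c (l 15863040) (l 15859216)))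 (a (l 15833848) (l 15857344))))) (b (c (a (l 15858952) (l 15872048)) (c (l 15862808) (a (l 15853968) (c (l 15868144) (l 15866760))))) (c (a (b (c (l 15819040) (l 15841128)) (b (l 15833344) (l 15827880))) (a (b (l 15854232) (b (l 15849520) (l 15845544))) (b (l 15864032) (b (l 15860392) (l 15857368))))) (a (b (l 15838072) (c (l 15826072) (l 15824440))) (c (b (l 15858056) (l 15849408)) (c (l 15851544) (b (l 15855560) (l 15847496)))))))))), by decide +kernel⟩

def k176_pm_011 : ∃ t, chk3 f_pm_011 t 15 14 1 = true :=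
  ⟨(l 4), by decide +kernel⟩

def k177_pm_011 : ∃ t, chk3 f_pm_011 t 15 30 1 = true :=
  ⟨(l 4), by decide +kernel⟩

def k178_pm_011 : ∃ t, chk3 f_pm_011 t 15 62 1 = true :=
  ⟨(l 6), by decide +kernel⟩

def k179_pm_011 : ∃ t, chk3 f_pm_011 t 15 126 1 = true :=
  ⟨(l 6), by decide +kernel⟩

def k180_pm_011 : ∃ t, chk3 f_pm_011 t 30720 127 2 = true :=
  ⟨(c (c (c (b (b (b (l 16245416) (l 16234336)) (l 16153976)) (b (b (b (l 16087192) (c (l 16076504) (b (l 16029848) (b (l 16020424) (l 16014768))))) (c (l 16036576) (c (l 16014400) (l 16008560)))) (b (c (b (l 15975512) (c (l 15955024) (c (l 15944184) (b (l 15968120) (l 15958328))))) (l 15948624)) (c (c (l 15936216) (l 15934320)) (l 15932632))))) (b (b (c (l 16204712) (b (c (l 16202448) (b (l 6) (l 16154632))) (c (b (l 16143776) (l 16121560)) (l 16147096)))) (c (b (c (l 16135056) (b (l 16110128) (l 16087680))) (c (l 16085968) (l 16079448))) (l 16094032))) (b (b (b (l 16050528) (l 16010216)) (l 16004168)) (b (b (l 15976264) (b (l 15962280) (l 15952328))) (b (l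 15938920) (l 15920048)))))) (b (b (l 16150288) (l 16080952)) (b (b (b (l 16037384) (l 15998096)) (l 15993568)) (b (b (l 15967192) (l 15928104)) (b (l 15912096) (l 15913920)))))) (b (c (c (b (l 16151456) (l 16080224)) (c (b (l 16173464) (l 16095224)) (l 16138416))) (l 16135656)) (b (c (b (c (b (l 16035464) (l 15995720)) (c (b (l 16046072) (l 16004488)) (l 16036072))) (c (l 15990464) (l 15996960))) (b (b (l 16044152) (l 16001888)) (l 15993208))) (b (c (c (l 15954312) (l 15956752)) (l 15952280)) (b (c (c (l 15906760) (l 15905504)) (b (l 15926632) (l 15895512))) (c (l 15886176) (l 15900472))))))), by decide +kernel⟩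

def k181_pm_011 : ∃ t, chk3 f_pm_011 t 30720 127 3 = true :=
  ⟨(b (c (b (c (l 16174528) (b (b (l 6) (l 16189144)) (l 16155296))) (l 16089368)) (c (b (c (c (b (b (l 6) (l 16188720)) (l 16159400)) (b (l 16190248) (b (l 16160384) (l 16144384)))) (l 16167168)) (c (c (l 16088416) (b (l 16113640) (l 16065808))) (b (c (b (l 16116472) (l 16099544)) (l 16102656)) (c (l 16067376) (b (l 16072232) (l 16054192)))))) (l 16120464))) (b (c (b (b (l 16035136) (l 16013312)) (l 15983312)) (c (b (b (l 16029888) (b (l 16013808) (l 16003064))) (l 15974944)) (b (c (c (b (l 16029120) (b (l 16013656) (l 16003544))) (l 16011856)) (l 16009416)) (c (c (l 15973328) (c (l 15973264) (l 15971376))) (l 15967864))))) (c (b (l 15941864) (b (c (b (l 15919488) (l 15887008)) (l 15907056)) (b (c (l 15878608) (b (c (l 15895376) (l 15892136)) (l 15868008))) (b (l 15866264) (l 15881856))))) (c (b (l 15931416) (b (l 15899752) (b (l 15881496) (b (l 15875248) (l 15870352))))) (c (b (l 15927456) (b (l 15894280) (l 15870248))) (b (c (b (l 15937144)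 (c (l 15915304) (l 15914584))) (l 15923360)) (c (l 15879368) (b (l 15889472) (c (l 15868016) (b (l 15873064) (l 15861976))))))))))), by decide +kernel⟩

def k182_pm_011 : ∃ t, chk3 f_pm_011 t 30721 127 1 = true :=
  ⟨(l 14), by decide +kernel⟩

def k183_pm_011 : ∃ t, chk3 f_pm_011 t 15361 127 1 = true :=
  ⟨(l 14), by decide +kernel⟩

def k184_pm_011 : ∃ t, chk3 f_pm_011 t 7681 127 1 = true :=
  ⟨(l 14), by decide +kernel⟩

def k185_pm_011 : ∃ t, chk3 f_pm_011 t 3841 127 1 = true :=
  ⟨(l 14), by decide +kernel⟩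

def k186_pm_011 : ∃ t, chk3 f_pm_011 t 1921 127 1 = true :=
  ⟨(l 14), by decide +kernel⟩

def k187_pm_011 : ∃ t, chk3 f_pm_011 t 961 127 1 = true :=
  ⟨(l 14), by decide +kernel⟩

def k188_pm_011 : ∃ t, chk3 f_pm_011 t 481 127 1 = true :=
  ⟨(l 14), by decide +kernel⟩

def k189_pm_011 : ∃ t, chk3 f_pm_011 t 241 127 1 = true :=
  ⟨(l 14), by decide +kernel⟩

def k190_pm_011 : ∃ t, chk3 f_pm_011 t 121 127 1 = true :=
  ⟨(l 14), by decide +kernel⟩

def k191_pm_011 : ∃ t, chk3 f_pm_011 t 61 127 1 = true :=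
  ⟨(l 14), by decide +kernel⟩

def k192_pm_011 : ∃ t, chk3 f_pm_011 t 31 127 1 = true :=
  ⟨(l 6), by decide +kernel⟩

theorem s193_pm_011 : ∃ t, chk3 f_pm_011 t 30720 127 1 = true := ex3_c k180_pm_011 k181_pm_011

theorem s194_pm_011 : ∃ t, chk3 f_pm_011 t 15360 127 1 = true := ex3_a s193_pm_011 k182_pm_011

theorem s195_pm_011 : ∃ t, chk3 f_pm_011 t 7680 127 1 = true := ex3_a s194_pm_011 k183_pm_011

theorem s196_pm_011 : ∃ t, chk3 f_pm_011 t 3840 127 1 = true := ex3_a s195_pm_011 k184_pm_011

theorem s197_pm_011 : ∃ t, chk3 f_pm_011 t 1920 127 1 = true := ex3_a s196_pm_011 k185_pm_011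

theorem s198_pm_011 : ∃ t, chk3 f_pm_011 t 960 127 1 = true := ex3_a s197_pm_011 k186_pm_011

theorem s199_pm_011 : ∃ t, chk3 f_pm_011 t 480 127 1 = true := ex3_a s198_pm_011 k187_pm_011

theorem s200_pm_011 : ∃ t, chk3 f_pm_011 t 240 127 1 = true := ex3_a s199_pm_011 k188_pm_011

theorem s201_pm_011 : ∃ t, chk3 f_pm_011 t 120 127 1 = true := ex3_a s200_pm_011 k189_pm_011

theorem s202_pm_011 : ∃ t, chk3 f_pm_011 t 60 127 1 = true := ex3_a s201_pm_011 k190_pm_011

theorem s203_pm_011 : ∃ t, chk3 f_pm_011 t 30 127 1 = true := ex3_a s202_pm_011 k191_pm_011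

theorem s204_pm_011 : ∃ t, chk3 f_pm_011 t 15 127 1 = true := ex3_a s203_pm_011 k192_pm_011

theorem s205_pm_011 : ∃ t, chk3 f_pm_011 t 15 63 1 = true := ex3_b k179_pm_011 s204_pm_011

theorem s206_pm_011 : ∃ t, chk3 f_pm_011 t 15 31 1 = true := ex3_b k178_pm_011 s205_pm_011

theorem s207_pm_011 : ∃ t, chk3 f_pm_011 t 15 15 1 = true := ex3_b k177_pm_011 s206_pm_011

theorem s208_pm_011 : ∃ t, chk3 f_pm_011 t 15 7 1 = true := ex3_b k176_pm_011 s207_pm_011

theorem s209_pm_011 : ∃ t, chk3 f_pm_011 t 119 511 3 = true := ex3_c k174_pm_011 k175_pm_011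

theorem s210_pm_011 : ∃ t, chk3 f_pm_011 t 118 511 3 = true := ex3_b k172_pm_011 k173_pm_011

theorem s211_pm_011 : ∃ t, chk3 f_pm_011 t 59 511 3 = true := ex3_a s210_pm_011 s209_pm_011

theorem s212_pm_011 : ∃ t, chk3 f_pm_011 t 59 510 3 = true := ex3_a k170_pm_011 k171_pm_011

theorem s213_pm_011 : ∃ t, chk3 f_pm_011 t 59 255 3 = true := ex3_b s212_pm_011 s211_pm_011

theorem s214_pm_011 : ∃ t, chk3 f_pm_011 t 59 127 3 = true := ex3_b k169_pm_011 s213_pm_011

theorem s215_pm_011 : ∃ t, chk3 f_pm_011 t 117 255 3 = true := ex3_b k167_pm_011 k168_pm_011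

theorem s216_pm_011 : ∃ t, chk3 f_pm_011 t 117 127 3 = true := ex3_b k166_pm_011 s215_pm_011

theorem s217_pm_011 : ∃ t, chk3 f_pm_011 t 116 127 7 = true := ex3_c k164_pm_011 k165_pm_011

theorem s218_pm_011 : ∃ t, chk3 f_pm_011 t 116 127 3 = true := ex3_c k163_pm_011 s217_pm_011

theorem s219_pm_011 : ∃ t, chk3 f_pm_011 t 58 127 3 = true := ex3_a s218_pm_011 s216_pm_011

theorem s220_pm_011 : ∃ t, chk3 f_pm_011 t 29 127 3 = true := ex3_a s219_pm_011 s214_pm_011

theorem s221_pm_011 : ∃ t, chk3 f_pm_011 t 29 126 3 = true := ex3_a k161_pm_011 k162_pm_011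

theorem s222_pm_011 : ∃ t, chk3 f_pm_011 t 29 63 3 = true := ex3_b s221_pm_011 s220_pm_011

theorem s223_pm_011 : ∃ t, chk3 f_pm_011 t 29 31 3 = true := ex3_b k160_pm_011 s222_pm_011

theorem s224_pm_011 : ∃ t, chk3 f_pm_011 t 29 15 3 = true := ex3_b k159_pm_011 s223_pm_011

theorem s225_pm_011 : ∃ t, chk3 f_pm_011 t 239 255 16 = true := ex3_b k154_pm_011 k155_pm_011

theorem s226_pm_011 : ∃ t, chk3 f_pm_011 t 239 255 8 = true := ex3_c s225_pm_011 k156_pm_011

theorem s227_pm_011 : ∃ t, chk3 f_pm_011 t 239 255 4 = true := ex3_c s226_pm_011 k157_pm_011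

theorem s228_pm_011 : ∃ t, chk3 f_pm_011 t 239 255 2 = true := ex3_c s227_pm_011 k158_pm_011

theorem s229_pm_011 : ∃ t, chk3 f_pm_011 t 238 255 2 = true := ex3_c k152_pm_011 k153_pm_011

theorem s230_pm_011 : ∃ t, chk3 f_pm_011 t 119 255 2 = true := ex3_a s229_pm_011 s228_pm_011

theorem s231_pm_011 : ∃ t, chk3 f_pm_011 t 237 255 2 = true := ex3_b k150_pm_011 k151_pm_011

theorem s232_pm_011 : ∃ t, chk3 f_pm_011 t 236 255 2 = true := ex3_b k148_pm_011 k149_pm_011

theorem s233_pm_011 : ∃ t, chk3 f_pm_011 t 118 255 2 = true := ex3_a s232_pm_011 s231_pm_011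

theorem s234_pm_011 : ∃ t, chk3 f_pm_011 t 59 255 2 = true := ex3_a s233_pm_011 s230_pm_011

theorem s235_pm_011 : ∃ t, chk3 f_pm_011 t 239 254 8 = true := ex3_c k144_pm_011 k145_pm_011

theorem s236_pm_011 : ∃ t, chk3 f_pm_011 t 119 254 8 = true := ex3_a k143_pm_011 s235_pm_011

theorem s237_pm_011 : ∃ t, chk3 f_pm_011 t 119 254 4 = true := ex3_c s236_pm_011 k146_pm_011

theorem s238_pm_011 : ∃ t, chk3 f_pm_011 t 119 254 2 = true := ex3_c s237_pm_011 k147_pm_011

theorem s239_pm_011 : ∃ t, chk3 f_pm_011 t 59 254 2 = true := ex3_a k142_pm_011 s238_pm_011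

theorem s240_pm_011 : ∃ t, chk3 f_pm_011 t 59 127 2 = true := ex3_b s239_pm_011 s234_pm_011

theorem s241_pm_011 : ∃ t, chk3 f_pm_011 t 58 511 5 = true := ex3_b k140_pm_011 k141_pm_011

theorem s242_pm_011 : ∃ t, chk3 f_pm_011 t 58 1022 4 = true := ex3_b k137_pm_011 k138_pm_011

theorem s243_pm_011 : ∃ t, chk3 f_pm_011 t 58 511 4 = true := ex3_b s242_pm_011 k139_pm_011

theorem s244_pm_011 : ∃ t, chk3 f_pm_011 t 58 511 2 = true := ex3_c s243_pm_011 s241_pm_011

theorem s245_pm_011 : ∃ t, chk3 f_pm_011 t 58 255 2 = true := ex3_b k136_pm_011 s244_pm_011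

theorem s246_pm_011 : ∃ t, chk3 f_pm_011 t 58 254 2 = true := ex3_b k134_pm_011 k135_pm_011

theorem s247_pm_011 : ∃ t, chk3 f_pm_011 t 58 127 2 = true := ex3_b s246_pm_011 s245_pm_011

theorem s248_pm_011 : ∃ t, chk3 f_pm_011 t 29 127 2 = true := ex3_a s247_pm_011 s240_pm_011

theorem s249_pm_011 : ∃ t, chk3 f_pm_011 t 59 126 2 = true := ex3_a k132_pm_011 k133_pm_011

theorem s250_pm_011 : ∃ t, chk3 f_pm_011 t 29 126 2 = true := ex3_a k131_pm_011 s249_pm_011

theorem s251_pm_011 : ∃ t, chk3 f_pm_011 t 29 63 2 = true := ex3_b s250_pm_011 s248_pm_011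

theorem s252_pm_011 : ∃ t, chk3 f_pm_011 t 29 31 2 = true := ex3_b k130_pm_011 s251_pm_011

theorem s253_pm_011 : ∃ t, chk3 f_pm_011 t 29 15 2 = true := ex3_b k129_pm_011 s252_pm_011

theorem s254_pm_011 : ∃ t, chk3 f_pm_011 t 29 15 1 = true := ex3_c s253_pm_011 s224_pm_011

theorem s255_pm_011 : ∃ t, chk3 f_pm_011 t 115 1023 3 = true := ex3_c k127_pm_011 k128_pm_011

theorem s256_pm_011 : ∃ t, chk3 f_pm_011 t 115 511 3 = true := ex3_b k126_pm_011 s255_pm_011

theorem s257_pm_011 : ∃ t, chk3 f_pm_011 t 115 255 3 = true := ex3_b k125_pm_011 s256_pm_011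

theorem s258_pm_011 : ∃ t, chk3 f_pm_011 t 230 511 2 = true := ex3_c k122_pm_011 k123_pm_011

theorem s259_pm_011 : ∃ t, chk3 f_pm_011 t 230 255 2 = true := ex3_b k121_pm_011 s258_pm_011

theorem s260_pm_011 : ∃ t, chk3 f_pm_011 t 115 255 2 = true := ex3_a s259_pm_011 k124_pm_011

theorem s261_pm_011 : ∃ t, chk3 f_pm_011 t 115 255 1 = true := ex3_c s260_pm_011 s257_pm_011

theorem s262_pm_011 : ∃ t, chk3 f_pm_011 t 114 511 1 = true := ex3_c k119_pm_011 k120_pm_011

theorem s263_pm_011 : ∃ t, chk3 f_pm_011 t 114 255 1 = true := ex3_b k118_pm_011 s262_pm_011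

theorem s264_pm_011 : ∃ t, chk3 f_pm_011 t 57 255 1 = true := ex3_a s263_pm_011 s261_pm_011

theorem s265_pm_011 : ∃ t, chk3 f_pm_011 t 115 509 1 = true := ex3_c k116_pm_011 k117_pm_011

theorem s266_pm_011 : ∃ t, chk3 f_pm_011 t 57 509 1 = true := ex3_a k115_pm_011 s265_pm_011

theorem s267_pm_011 : ∃ t, chk3 f_pm_011 t 57 254 1 = true := ex3_b k114_pm_011 s266_pm_011

theorem s268_pm_011 : ∃ t, chk3 f_pm_011 t 57 127 1 = true := ex3_b s267_pm_011 s264_pm_011

theorem s269_pm_011 : ∃ t, chk3 f_pm_011 t 56 511 3 = true := ex3_c k112_pm_011 k113_pm_011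

theorem s270_pm_011 : ∃ t, chk3 f_pm_011 t 56 255 3 = true := ex3_b k111_pm_011 s269_pm_011

theorem s271_pm_011 : ∃ t, chk3 f_pm_011 t 56 511 2 = true := ex3_b k109_pm_011 k110_pm_011

theorem s272_pm_011 : ∃ t, chk3 f_pm_011 t 56 255 2 = true := ex3_b k108_pm_011 s271_pm_011

theorem s273_pm_011 : ∃ t, chk3 f_pm_011 t 56 255 1 = true := ex3_c s272_pm_011 s270_pm_011

theorem s274_pm_011 : ∃ t, chk3 f_pm_011 t 56 254 1 = true := ex3_a k106_pm_011 k107_pm_011

theorem s275_pm_011 : ∃ t, chk3 f_pm_011 t 56 127 1 = true := ex3_b s274_pm_011 s273_pm_011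

theorem s276_pm_011 : ∃ t, chk3 f_pm_011 t 28 127 1 = true := ex3_a s275_pm_011 s268_pm_011

theorem s277_pm_011 : ∃ t, chk3 f_pm_011 t 57 126 1 = true := ex3_c k104_pm_011 k105_pm_011

theorem s278_pm_011 : ∃ t, chk3 f_pm_011 t 28 126 1 = true := ex3_a k103_pm_011 s277_pm_011

theorem s279_pm_011 : ∃ t, chk3 f_pm_011 t 28 63 1 = true := ex3_b s278_pm_011 s276_pm_011

theorem s280_pm_011 : ∃ t, chk3 f_pm_011 t 57 251 1 = true := ex3_a k101_pm_011 k102_pm_011

theorem s281_pm_011 : ∃ t, chk3 f_pm_011 t 57 125 1 = true := ex3_b k100_pm_011 s280_pm_011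

theorem s282_pm_011 : ∃ t, chk3 f_pm_011 t 57 62 1 = true := ex3_b k99_pm_011 s281_pm_011

theorem s283_pm_011 : ∃ t, chk3 f_pm_011 t 112 62 1 = true := ex3_b k96_pm_011 k97_pm_011

theorem s284_pm_011 : ∃ t, chk3 f_pm_011 t 56 62 1 = true := ex3_a s283_pm_011 k98_pm_011

theorem s285_pm_011 : ∃ t, chk3 f_pm_011 t 28 62 1 = true := ex3_a s284_pm_011 s282_pm_011

theorem s286_pm_011 : ∃ t, chk3 f_pm_011 t 28 31 1 = true := ex3_b s285_pm_011 s279_pm_011

theorem s287_pm_011 : ∃ t, chk3 f_pm_011 t 28 15 1 = true := ex3_b k95_pm_011 s286_pm_011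

theorem s288_pm_011 : ∃ t, chk3 f_pm_011 t 14 15 1 = true := ex3_a s287_pm_011 s254_pm_011

theorem s289_pm_011 : ∃ t, chk3 f_pm_011 t 14 7 1 = true := ex3_b k94_pm_011 s288_pm_011

theorem s290_pm_011 : ∃ t, chk3 f_pm_011 t 7 7 1 = true := ex3_a s289_pm_011 s208_pm_011

theorem s291_pm_011 : ∃ t, chk3 f_pm_011 t 7 3 1 = true := ex3_b k93_pm_011 s290_pm_011

theorem s292_pm_011 : ∃ t, chk3 f_pm_011 t 7 1 1 = true := ex3_b k92_pm_011 s291_pm_011

theorem s293_pm_011 : ∃ t, chk3 f_pm_011 t 55 511 3 = true := ex3_c k90_pm_011 k91_pm_011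

theorem s294_pm_011 : ∃ t, chk3 f_pm_011 t 55 255 3 = true := ex3_b k89_pm_011 s293_pm_011

theorem s295_pm_011 : ∃ t, chk3 f_pm_011 t 55 255 2 = true := ex3_b k87_pm_011 k88_pm_011

theorem s296_pm_011 : ∃ t, chk3 f_pm_011 t 55 255 1 = true := ex3_c s295_pm_011 s294_pm_011

theorem s297_pm_011 : ∃ t, chk3 f_pm_011 t 54 2047 3 = true := ex3_a k85_pm_011 k86_pm_011

theorem s298_pm_011 : ∃ t, chk3 f_pm_011 t 54 1023 3 = true := ex3_b k84_pm_011 s297_pm_011

theorem s299_pm_011 : ∃ t, chk3 f_pm_011 t 54 511 3 = true := ex3_b k83_pm_011 s298_pm_011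

theorem s300_pm_011 : ∃ t, chk3 f_pm_011 t 54 255 3 = true := ex3_b k82_pm_011 s299_pm_011

theorem s301_pm_011 : ∃ t, chk3 f_pm_011 t 54 511 2 = true := ex3_a k80_pm_011 k81_pm_011

theorem s302_pm_011 : ∃ t, chk3 f_pm_011 t 54 255 2 = true := ex3_b k79_pm_011 s301_pm_011

theorem s303_pm_011 : ∃ t, chk3 f_pm_011 t 54 255 1 = true := ex3_c s302_pm_011 s300_pm_011

theorem s304_pm_011 : ∃ t, chk3 f_pm_011 t 27 255 1 = true := ex3_a s303_pm_011 s296_pm_011

theorem s305_pm_011 : ∃ t, chk3 f_pm_011 t 55 254 1 = true := ex3_a k77_pm_011 k78_pm_011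

theorem s306_pm_011 : ∃ t, chk3 f_pm_011 t 54 254 1 = true := ex3_c k75_pm_011 k76_pm_011

theorem s307_pm_011 : ∃ t, chk3 f_pm_011 t 27 254 1 = true := ex3_a s306_pm_011 s305_pm_011

theorem s308_pm_011 : ∃ t, chk3 f_pm_011 t 27 127 1 = true := ex3_b s307_pm_011 s304_pm_011

theorem s309_pm_011 : ∃ t, chk3 f_pm_011 t 27 126 1 = true := ex3_c k73_pm_011 k74_pm_011

theorem s310_pm_011 : ∃ t, chk3 f_pm_011 t 27 63 1 = true := ex3_b s309_pm_011 s308_pm_011

theorem s311_pm_011 : ∃ t, chk3 f_pm_011 t 55 124 1 = true := ex3_b k70_pm_011 k71_pm_011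

theorem s312_pm_011 : ∃ t, chk3 f_pm_011 t 55 62 1 = true := ex3_b s311_pm_011 k72_pm_011

theorem s313_pm_011 : ∃ t, chk3 f_pm_011 t 109 62 1 = true := ex3_c k68_pm_011 k69_pm_011

theorem s314_pm_011 : ∃ t, chk3 f_pm_011 t 108 62 2 = true := ex3_b k65_pm_011 k66_pm_011

theorem s315_pm_011 : ∃ t, chk3 f_pm_011 t 108 62 1 = true := ex3_c s314_pm_011 k67_pm_011

theorem s316_pm_011 : ∃ t, chk3 f_pm_011 t 54 62 1 = true := ex3_a s315_pm_011 s313_pm_011

theorem s317_pm_011 : ∃ t, chk3 f_pm_011 t 27 62 1 = true := ex3_a s316_pm_011 s312_pm_011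

theorem s318_pm_011 : ∃ t, chk3 f_pm_011 t 27 31 1 = true := ex3_b s317_pm_011 s310_pm_011

theorem s319_pm_011 : ∃ t, chk3 f_pm_011 t 53 255 3 = true := ex3_b k63_pm_011 k64_pm_011

theorem s320_pm_011 : ∃ t, chk3 f_pm_011 t 53 127 3 = true := ex3_b k62_pm_011 s319_pm_011

theorem s321_pm_011 : ∃ t, chk3 f_pm_011 t 53 63 3 = true := ex3_b k61_pm_011 s320_pm_011

theorem s322_pm_011 : ∃ t, chk3 f_pm_011 t 52 63 3 = true := ex3_b k59_pm_011 k60_pm_011

theorem s323_pm_011 : ∃ t, chk3 f_pm_011 t 26 63 3 = true := ex3_a s322_pm_011 s321_pm_011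

theorem s324_pm_011 : ∃ t, chk3 f_pm_011 t 53 127 2 = true := ex3_c k57_pm_011 k58_pm_011

theorem s325_pm_011 : ∃ t, chk3 f_pm_011 t 53 63 2 = true := ex3_b k56_pm_011 s324_pm_011

theorem s326_pm_011 : ∃ t, chk3 f_pm_011 t 26 63 2 = true := ex3_a k55_pm_011 s325_pm_011

theorem s327_pm_011 : ∃ t, chk3 f_pm_011 t 26 63 1 = true := ex3_c s326_pm_011 s323_pm_011

theorem s328_pm_011 : ∃ t, chk3 f_pm_011 t 26 62 1 = true := ex3_b k53_pm_011 k54_pm_011

theorem s329_pm_011 : ∃ t, chk3 f_pm_011 t 26 31 1 = true := ex3_b s328_pm_011 s327_pm_011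

theorem s330_pm_011 : ∃ t, chk3 f_pm_011 t 13 31 1 = true := ex3_a s329_pm_011 s318_pm_011

theorem s331_pm_011 : ∃ t, chk3 f_pm_011 t 27 61 1 = true := ex3_a k51_pm_011 k52_pm_011

theorem s332_pm_011 : ∃ t, chk3 f_pm_011 t 27 30 1 = true := ex3_b k50_pm_011 s331_pm_011

theorem s333_pm_011 : ∃ t, chk3 f_pm_011 t 52 61 1 = true := ex3_b k47_pm_011 k48_pm_011

theorem s334_pm_011 : ∃ t, chk3 f_pm_011 t 52 30 1 = true := ex3_b k46_pm_011 s333_pm_011

theorem s335_pm_011 : ∃ t, chk3 f_pm_011 t 26 30 1 = true := ex3_a s334_pm_011 k49_pm_011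

theorem s336_pm_011 : ∃ t, chk3 f_pm_011 t 13 30 1 = true := ex3_a s335_pm_011 s332_pm_011

theorem s337_pm_011 : ∃ t, chk3 f_pm_011 t 13 15 1 = true := ex3_b s336_pm_011 s330_pm_011

theorem s338_pm_011 : ∃ t, chk3 f_pm_011 t 13 7 1 = true := ex3_b k45_pm_011 s337_pm_011

theorem s339_pm_011 : ∃ t, chk3 f_pm_011 t 25 63 3 = true := ex3_a k43_pm_011 k44_pm_011

theorem s340_pm_011 : ∃ t, chk3 f_pm_011 t 25 63 1 = true := ex3_c k42_pm_011 s339_pm_011

theorem s341_pm_011 : ∃ t, chk3 f_pm_011 t 25 62 1 = true := ex3_c k40_pm_011 k41_pm_011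

theorem s342_pm_011 : ∃ t, chk3 f_pm_011 t 25 31 1 = true := ex3_b s341_pm_011 s340_pm_011

theorem s343_pm_011 : ∃ t, chk3 f_pm_011 t 24 63 1 = true := ex3_c k38_pm_011 k39_pm_011

theorem s344_pm_011 : ∃ t, chk3 f_pm_011 t 24 62 2 = true := ex3_b k35_pm_011 k36_pm_011

theorem s345_pm_011 : ∃ t, chk3 f_pm_011 t 24 62 1 = true := ex3_c s344_pm_011 k37_pm_011

theorem s346_pm_011 : ∃ t, chk3 f_pm_011 t 24 31 1 = true := ex3_b s345_pm_011 s343_pm_011

theorem s347_pm_011 : ∃ t, chk3 f_pm_011 t 12 31 1 = true := ex3_a s346_pm_011 s342_pm_011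

theorem s348_pm_011 : ∃ t, chk3 f_pm_011 t 25 61 3 = true := ex3_a k33_pm_011 k34_pm_011

theorem s349_pm_011 : ∃ t, chk3 f_pm_011 t 50 122 2 = true := ex3_b k29_pm_011 k30_pm_011

theorem s350_pm_011 : ∃ t, chk3 f_pm_011 t 25 122 2 = true := ex3_a s349_pm_011 k31_pm_011

theorem s351_pm_011 : ∃ t, chk3 f_pm_011 t 25 61 2 = true := ex3_b s350_pm_011 k32_pm_011

theorem s352_pm_011 : ∃ t, chk3 f_pm_011 t 25 61 1 = true := ex3_c s351_pm_011 s348_pm_011

theorem s353_pm_011 : ∃ t, chk3 f_pm_011 t 50 60 1 = true := ex3_b k26_pm_011 k27_pm_011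

theorem s354_pm_011 : ∃ t, chk3 f_pm_011 t 25 60 1 = true := ex3_a s353_pm_011 k28_pm_011

theorem s355_pm_011 : ∃ t, chk3 f_pm_011 t 25 30 1 = true := ex3_b s354_pm_011 s352_pm_011

theorem s356_pm_011 : ∃ t, chk3 f_pm_011 t 49 122 2 = true := ex3_a k22_pm_011 k23_pm_011

theorem s357_pm_011 : ∃ t, chk3 f_pm_011 t 49 122 1 = true := ex3_c s356_pm_011 k24_pm_011

theorem s358_pm_011 : ∃ t, chk3 f_pm_011 t 24 122 1 = true := ex3_a k21_pm_011 s357_pm_011

theorem s359_pm_011 : ∃ t, chk3 f_pm_011 t 24 61 1 = true := ex3_b s358_pm_011 k25_pm_011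

theorem s360_pm_011 : ∃ t, chk3 f_pm_011 t 99 60 1 = true := ex3_c k19_pm_011 k20_pm_011

theorem s361_pm_011 : ∃ t, chk3 f_pm_011 t 49 60 1 = true := ex3_a k18_pm_011 s360_pm_011

theorem s362_pm_011 : ∃ t, chk3 f_pm_011 t 24 60 1 = true := ex3_a k17_pm_011 s361_pm_011

theorem s363_pm_011 : ∃ t, chk3 f_pm_011 t 24 30 1 = true := ex3_b s362_pm_011 s359_pm_011

theorem s364_pm_011 : ∃ t, chk3 f_pm_011 t 12 30 1 = true := ex3_a s363_pm_011 s355_pm_011

theorem s365_pm_011 : ∃ t, chk3 f_pm_011 t 12 15 1 = true := ex3_b s364_pm_011 s347_pm_011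

theorem s366_pm_011 : ∃ t, chk3 f_pm_011 t 12 59 1 = true := ex3_a k15_pm_011 k16_pm_011

theorem s367_pm_011 : ∃ t, chk3 f_pm_011 t 12 29 1 = true := ex3_b k14_pm_011 s366_pm_011

theorem s368_pm_011 : ∃ t, chk3 f_pm_011 t 12 14 1 = true := ex3_b k13_pm_011 s367_pm_011

theorem s369_pm_011 : ∃ t, chk3 f_pm_011 t 12 7 1 = true := ex3_b s368_pm_011 s365_pm_011

theorem s370_pm_011 : ∃ t, chk3 f_pm_011 t 6 7 1 = true := ex3_a s369_pm_011 s338_pm_011

theorem s371_pm_011 : ∃ t, chk3 f_pm_011 t 6 3 1 = true := ex3_b k12_pm_011 s370_pm_011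

theorem s372_pm_011 : ∃ t, chk3 f_pm_011 t 6 1 1 = true := ex3_b k11_pm_011 s371_pm_011

theorem s373_pm_011 : ∃ t, chk3 f_pm_011 t 3 1 1 = true := ex3_a s372_pm_011 s292_pm_011

theorem s374_pm_011 : ∃ t, chk3 f_pm_011 t 11 30 1 = true := ex3_b k8_pm_011 k9_pm_011

theorem s375_pm_011 : ∃ t, chk3 f_pm_011 t 5 30 1 = true := ex3_a k7_pm_011 s374_pm_011

theorem s376_pm_011 : ∃ t, chk3 f_pm_011 t 5 15 1 = true := ex3_b s375_pm_011 k10_pm_011

theorem s377_pm_011 : ∃ t, chk3 f_pm_011 t 11 14 1 = true := ex3_a k5_pm_011 k6_pm_011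

theorem s378_pm_011 : ∃ t, chk3 f_pm_011 t 10 14 1 = true := ex3_b k3_pm_011 k4_pm_011

theorem s379_pm_011 : ∃ t, chk3 f_pm_011 t 5 14 1 = true := ex3_a s378_pm_011 s377_pm_011

theorem s380_pm_011 : ∃ t, chk3 f_pm_011 t 5 7 1 = true := ex3_b s379_pm_011 s376_pm_011

theorem s381_pm_011 : ∃ t, chk3 f_pm_011 t 2 7 1 = true := ex3_a k2_pm_011 s380_pm_011

theorem s382_pm_011 : ∃ t, chk3 f_pm_011 t 2 3 1 = true := ex3_b k1_pm_011 s381_pm_011

theorem s383_pm_011 : ∃ t, chk3 f_pm_011 t 2 1 1 = true := ex3_b k0_pm_011 s382_pm_011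

theorem s384_pm_011 : ∃ t, chk3 f_pm_011 t 1 1 1 = true := ex3_a s383_pm_011 s373_pm_011

theorem c_pm_011 : CertNX 0 536870912 536870912 536870912 1046898278 26843546 3 false true false .pnn 0 1 1
    ndN0q0 ndN0q1 pcN1 cut_pm_011 Ext.none :=
  certNX2 (fam := false) (s1 := true) (s2 := false) (a := 0) (b := 1) (c := 1) (cn := .pnn) (n1 := ndN0q0) (n2 := ndN0q1) (pc := pcN1) (cut := cut_pm_011) (xt := Ext.none) (P1 := 0) (W1 := 536870912) (P2 := 536870912) (W2 := 536870912) (P3 := 1046898278) (W3 := 26843546) (N0 := 3)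
    rfl (fun _ => rfl) s384_pm_011

end Pool.Agent.Strip051.G.IE1.Tab.C.NB00

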