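import Pool.Agent.Strip051.G.IE1.Tab

/-! # Certificates N40 (generated) -/

set_option linter.all false
set_option maxRecDepth 100000

namespace Pool.Agent.Strip051.G.IE1.Tab.C.NB00

open Pool.Agent.Strip051.PB Pool.Agent.Strip051.PB.T
open Pool.Agent.Strip051.G.IE1.Tab

noncomputable def cut_pm_012 : Cut := Cut.of [[⟨0, 0, 0, 67108864⟩, ⟨1, 1, 0, 67108864⟩, ⟨2, 1, 0, 67108864⟩]]

noncomputable def f_pm_012 : ℕ → ℕ → ℕ → ℕ → Bool := onCell 536870912 536870912 0 536870912 1046898278 26843546
    (rowNX 3 2 false true false .pnp 0 1 2 (qsf 0 536870912 0 536870912 1) ndN0q0 ndN0q2 pcN1 cut_pm_012 Ext.none)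

def k0_pm_012 : ∃ t, chk3 f_pm_012 t 4 1 1 = true :=
  ⟨(a (b (l 2) (b (l 2) (b (a (l 2) (c (b (l 16307688) (l 16019712)) (b (l 16291144) (l 15993040)))) (b (c (b (l 15727072) (c (l 15581728) (l 15636680))) (c (l 15657304) (l 15637840))) (c (b (c (l 15564784) (b (l 15576816) (l 15518816))) (l 15451960)) (b (c (l 15517432) (l 15494456)) (c (b (l 15445872) (l 15394848)) (b (l 15424240) (c (l 15378584) (l 15364344)))))))))) (b (a (l 2) (a (l 2) (b (l 2) (b (l 2) (c (l 16777216) (l 16777216)))))) (b (b (a (l 2) (c (b (l 16777216) (l 16777216)) (c (l 16777216) (l 16777216)))) (c (b (c (l 16627456) (l 16647272)) (c (l 16523608) (l 16519160))) (b (c (l 16646104) (l 16644912)) (c (l 16514656) (l 16510088))))) (b (c (b (c (l 16311768) (l 16303608)) (c (l 16026296) (l 16013144))) (b (c (l 16295336) (l 16286960)) (c (l 15999808) (l 15986288)))) (b (c (b (c (l 15762280) (l 15725464)) (c (b (l 15689752) (l 15650936)) (l 15636680))) (a (l 15647568) (l 15647568))) (c (b (c (l 15564784) (b (l 15576816) (l 15518816)))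 (l 15451960)) (b (c (b (l 15539464) (l 15500240)) (l 15494456)) (c (b (l 15382952) (l 15394848)) (b (l 15424240) (c (l 15378584) (l 15364344))))))))))), by decide +kernel⟩

def k1_pm_012 : ∃ t, chk3 f_pm_012 t 10 1 1 = true :=
  ⟨(b (b (a (a (l 2) (b (c (c (l 16777216) (l 16777216)) (c (l 16777216) (l 16777216))) (c (b (l 16777216) (l 16777216)) (l 16777216)))) (b (c (c (c (l 16777216) (l 16777216)) (c (l 16777216) (l 16777216))) (c (c (l 16777216) (l 16777216)) (l 16777216))) (c (c (l 16777216) (l 16777216)) (c (l 16777216) (l 16777216))))) (c (c (b (l 16777216) (l 16777216)) (b (l 16777216) (l 16777216))) (c (b (l 16777216) (l 16777216)) (b (l 16777216) (l 16777216))))) (b (b (c (c (b (l 16777216) (l 16777216)) (b (l 16777216) (l 16777216))) (c (b (l 16777216) (l 16777216)) (b (l 16777216) (l 16777216)))) (c (b (c (l 16711344) (l 16710184)) (c (l 16523608) (l 16519160))) (b (c (l 16709016) (l 16707832)) (l 16407512)))) (b (c (b (c (l 16311768) (l 16303608)) (b (l 16114816) (l 15922720))) (b (c (l 16295336)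 (l 16286960)) (c (l 15999808) (l 15986288)))) (b (c (b (b (l 15769200) (l 15699432)) (c (b (c (l 15698568) (l 15665056)) (c (l 15661344) (l 15646144))) (l 15636680))) (c (l 15657304) (l 15637840))) (c (b (c (l 15564784) (b (c (l 15587016) (l 15568248)) (l 15518816))) (a (l 15451960) (l 15451960))) (b (c (c (b (l 15544760) (l 15508840)) (l 15512056)) (l 15494456)) (c (b (c (l 15454352) (l 15440872)) (l 15394848)) (b (l 15424240) (c (l 15378584) (b (l 15380408) (l 15353448))))))))))), by decide +kernel⟩

def k2_pm_012 : ∃ t, chk3 f_pm_012 t 11 1 1 = true :=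
  ⟨(b (b (c (b (a (b (a (l 16777216) (l 16777216)) (l 16777216)) (c (l 16777216) (l 16777216))) (c (l 16777216) (l 16777216))) (b (a (c (l 16777216) (l 16777216)) (c (l 16777216) (l 16777216))) (c (l 16777216) (l 16777216)))) (c (b (c (l 16777216) (l 16777216)) (c (l 16777216) (l 16777216))) (b (c (l 16777216) (l 16777216)) (c (l 16777216) (l 16777216))))) (b (b (c (b (c (l 16777216) (l 16777216)) (l 16777216)) (b (c (l 16777216) (l 16777216)) (l 16777216))) (c (b (c (l 16690368) (l 16689216)) (c (l 16523608) (l 16519160))) (b (c (l 16709016) (l 16707832)) (c (l 16514656) (l 16510088))))) (b (c (a (b (l 16307688) (l 15935832)) (b (l 16307688) (a (l 16019712) (l 15851944)))) (b (c (l 16295336) (l 16286960)) (c (l 15832032) (l 15923376)))) (b (c (b (a (l 15727072) (b (l 15769200) (l 15699432))) (c (b (c (l 15635648) (l 15665056)) (c (l 15661344) (a (l 15646144) (l 15646144)))) (c (b (l 15652944) (l 15623872)) (l 15621576)))) (a (l 15647568) (b (l 15697816) (l 15596320)))) (c (b (c (l 15480896) (b (c (l 15587016)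 (l 15568248)) (a (l 15518816) (l 15518816)))) (a (l 15451960) (l 15451960))) (b (c (c (b (l 15544760) (a (l 15508840) (l 15508840))) (l 15512056)) (l 15494456)) (c (b (c (l 15454352) (b (l 15460464) (l 15429768))) (l 15394848)) (b (c (l 15428928) (l 15416736)) (c (b (l 15391608) (l 15365432)) (b (l 15380408) (a (l 15353448) (l 15353448)))))))))))), by decide +kernel⟩

def k3_pm_012 : ∃ t, chk3 f_pm_012 t 6 2 1 = true :=
  ⟨(b (a (c (a (b (c (l 16777160) (l 16777160)) (c (l 16777144) (l 16777144))) (b (c (l 16733088) (l 16732320)) (c (l 16724072) (l 16723144)))) (a (b (l 16777152) (l 16777144)) (b (c (l 16731544) (l 16730744)) (l 16679784)))) (a (c (b (c (l 16638328) (l 16635904)) (c (l 16612576) (l 16609704))) (b (l 16632200) (l 16605312))) (c (a (b (l 16554200) (l 16515600)) (b (c (l 16444960) (l 16439168)) (c (l 16400560) (l 16393992)))) (a (b (l 16546368) (l 16506416)) (b (l 16430304) (l 16383944)))))) (a (a (c (b (l 16777128) (c (l 16777112) (l 16777112))) (b (l 16777128) (b (l 16777112) (l 16777104))))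 (b (c (l 16672384) (l 16712120)) (c (b (l 16664720) (c (l 16637448) (l 16657080))) (b (l 16704192) (l 16634056))))) (a (b (c (l 16521808) (l 16577960)) (c (b (c (l 16499912) (l 16559088)) (l 16447760)) (b (c (l 16555288) (l 16551440)) (l 16523024)))) (b (a (c (l 16476384) (l 16465824)) (c (c (l 16351760) (l 16344344)) (c (l 16336808) (l 16329168)))) (a (c (b (b (l 16448128) (l 16423272)) (c (l 16384224) (l 16377368))) (b (b (l 16436576) (l 16410848)) (l 16366880))) (c (b (b (l 16288168) (l 16266728)) (c (l 16209720) (l 16199824))) (b (l 16209288) (l 16184688)))))))), by decide +kernel⟩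

def k4_pm_012 : ∃ t, chk3 f_pm_012 t 12 6 1 = true :=
  ⟨(b (a (c (c (l 16777088) (l 16777080)) (c (l 16777080) (l 16777080))) (c (b (l 16602920) (c (l 16612152) (l 16631344))) (c (l 16594080) (l 16613328)))) (a (b (c (b (l 16753968) (l 16666920)) (l 16624664)) (c (l 16458608) (l 16491544))) (c (b (c (l 16530504) (l 16550296)) (c (l 16456656) (l 16454512))) (b (b (l 16569144) (l 16612264)) (a (l 16505696) (l 16566344)))))), by decide +kernel⟩

def k5_pm_012 : ∃ t, chk3 f_pm_012 t 13 6 1 = true :=
  ⟨(a (b (c (b (c (l 16477328) (l 16493432)) (c (l 16399704) (l 16436152))) (c (l 16323256) (l 16422776))) (b (c (c (b (l 16408024) (l 16443280)) (b (l 16423328) (l 16459392))) (c (l 16351824) (l 16409296))) (c (a (l 16504640) (b (l 16458864) (l 16401456))) (c (b (l 16476056) (l 16440984)) (l 16350672))))) (b (a (a (c (b (l 16339352) (c (l 16313616) (l 16305528))) (c (l 16323360) (l 16315480))) (c (b (l 16265528) (c (l 16227616) (l 16218032))) (c (l 16240968) (l 16231664)))) (c (b (c (l 16085520) (l 16116128))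 (c (a (l 16113352) (b (l 16001560) (l 15982144))) (a (l 16101776) (b (l 15988032) (l 15968296))))) (b (l 16014912) (c (a (l 16090024) (l 15968440)) (l 16021024))))) (a (b (c (a (c (b (l 16290984) (l 16322672)) (l 16298416)) (b (l 16190696) (c (l 16234320) (l 16225048)))) (a (c (l 16290192) (l 16281848)) (b (l 16170184) (l 16210872)))) (c (a (b (a (l 16375344) (l 16328224)) (a (l 16445864) (l 16442512))) (b (l 16304184) (l 16407832))) (a (b (l 16288064) (l 16351080)) (b (l 16288488) (l 16396496))))) (c (b (b (a (c (b (l 16075744) (l 16097808)) (l 16077392)) (c (l 16003984) (l 15990608))) (c (l 16119216) (l 16108024))) (c (b (l 16209064) (l 16307584)) (b (l 16199704) (l 16300272)))) (b (b (c (a (l 16065272) (l 15977024)) (l 16010680)) (c (l 16096664) (l 16085112))) (c (b (l 16190200) (l 16292840)) (l 16148680))))))), by decide +kernel⟩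

def k6_pm_012 : ∃ t, chk3 f_pm_012 t 12 14 1 = true :=
  ⟨(a (c (b (c (l 16311928) (l 16303776)) (c (b (l 16120760) (l 15930336)) (b (l 16109248) (l 15915504)))) (b (c (l 16295504) (l 16287128)) (c (b (l 16097592) (l 15900472)) (l 15923576)))) (b (c (c (l 16239216) (l 16233624)) (c (l 16269904) (l 16306112))) (c (b (c (l 16165336) (l 16156632)) (a (l 15996272) (a (l 16095056) (l 16113784)))) (b (c (l 16168776) (l 16222752)) (a (l 15969400) (a (l 16072432) (l 16093728))))))), by decide +kernel⟩

def k7_pm_012 : ∃ t, chk3 f_pm_012 t 24 15 1 = true :=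
  ⟨(b (c (b (b (l 15769400) (c (l 15709096) (l 15690320))) (c (b (c (b (l 15694112) (l 15695552)) (l 15665272)) (c (l 15661568) (b (l 15655456) (l 15642224)))) (c (b (l 15653160) (c (l 15628352) (l 15608552))) (l 15621808)))) (c (b (l 15707336) (l 15606728)) (b (l 15688744) (l 15586384)))) (c (b (b (c (l 15591816) (c (b (l 15602320) (l 15578160)) (b (l 15569616) (c (l 15569584) (l 15549704))))) (c (l 15528848) (a (l 15518816) (b (l 15512360) (l 15504528))))) (a (l 15451960) (a (b (l 15473376) (l 15422344)) (b (a (l 15468224) (l 15449208)) (a (l 15393376) (a (l 15365608) (l 15351336))))))) (b (c (b (l 15539704) (c (b (l 15522336) (b (l 15508592) (l 15495088))) (l 15489120))) (l 15494240)) (c (b (b (c (l 15466168) (a (l 15460464) (c (l 15461048) (l 15450872)))) (a (l 15433552) (c (l 15422768) (l 15354040)))) (a (l 15394848) (a (l 15387664) (a (l 15357760) (a (l 15329104) (l 15314184)))))) (b (a (l 15424240) (a (l 15424240) (c (b (l 15431920) (l 15397144)) (l 15398528)))) (a (c (l 15378584) (b (l 15380408)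 (l 15353448))) (c (b (a (l 15390088) (c (l 15352936) (l 15345704))) (a (l 15356312) (l 15296648))) (b (l 15334584) (a (c (l 15347968) (l 15340712)) (c (l 15203936) (b (l 15294968) (l 15268144)))))))))))), by decide +kernel⟩

def k8_pm_012 : ∃ t, chk3 f_pm_012 t 25 15 1 = true :=
  ⟨(b (c (b (a (b (l 15846472) (l 15779256)) (b (a (l 15948944) (l 15986112)) (a (l 15871128) (l 15884152)))) (c (b (a (c (b (l 15774232) (l 15774656)) (l 15744856)) (c (b (l 15848456) (l 15831976)) (l 15811960))) (a (c (l 15626280) (b (c (l 15739328) (l 15713768)) (l 15711336))) (c (l 15769520) (b (l 15774272) (l 15741632))))) (a (b (l 15729136) (c (b (l 15697992) (a (l 15665368) (l 15712088))) (l 15671880))) (b (l 15797312) (c (l 15734376) (l 15711512)))))) (a (b (l 15758792) (a (l 15645728) (l 15683656))) (b (b (a (l 15921192) (l 15959944)) (a (l 15840600) (l 15854184))) (c (l 15739232) (l 15721696))))) (c (b (c (a (b (l 15641688) (l 15547568)) (l 15592912)) (b (c (a (b (a (l 15648912) (l 15679152)) (l 15624456)) (b (l 15682832)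 (l 15638352))) (a (a (b (l 15616704) (l 15601600)) (l 15635320)) (b (l 15650992) (l 15622872)))) (b (a (c (l 15567528) (l 15569632)) (l 15572824)) (l 15519080)))) (b (a (l 15448480) (l 15459888)) (b (l 15386432) (b (l 15332344) (b (l 15315640) (a (l 15297680) (b (l 15336280) (l 15311424)))))))) (b (c (b (a (l 15591736) (l 15611960)) (c (b (a (l 15510552) (l 15562736)) (c (l 15520784) (l 15512160))) (a (l 15508768) (l 15519624)))) (a (l 15527392) (l 15546848))) (c (b (c (l 15434504) (b (c (l 15457568) (l 15447384)) (l 15398096))) (b (l 15350960) (b (l 15315544) (b (l 15298344) (b (l 15289712) (a (l 15276400) (l 15294072))))))) (b (c (b (l 15432096) (c (l 15392424) (l 15382064))) (l 15396304)) (c (b (c (l 15340240) (b (l 15349080) (l 15321192))) (a (l 15279600) (a (l 15294544) (a (l 15302328) (c (l 15311664) (l 15303216)))))) (b (l 15323936) (c (b (l 15289088) (l 15202720)) (a (l 15261592) (c (l 15259792) (l 15276824))))))))))), by decide +kernel⟩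

def k9_pm_012 : ∃ t, chk3 f_pm_012 t 13 14 1 = true :=
  ⟨(a (b (c (a (c (l 16432824) (l 16431056)) (b (a (l 16547000) (l 16537952)) (b (l 16627096) (l 16569880)))) (a (c (l 16429264) (l 16448424)) (b (a (l 16563880) (l 16532720)) (b (l 16604888) (l 16565592))))) (b (c (a (a (l 16316568) (l 16324992)) (l 16362432)) (a (a (l 16284648) (l 16294352)) (b (l 16474928) (l 16355736)))) (c (a (b (l 16248744) (l 16120696)) (l 16158296)) (a (b (l 16232312) (l 16099528)) (l 16076400))))) (b (a (c (a (b (l 16517368) (l 16516216)) (b (l 16521544) (l 16569344))) (a (b (l 16512264) (l 16492152)) (b (l 16515128) (l 16546784)))) (c (b (a (l 16453232) (l 16371560)) (l 16363504)) (c (b (l 16363104) (l 16422544)) (b (l 16378832) (l 16419864))))) (a (a (c (b (a (l 16418336) (l 16334320)) (l 16008336)) (b (c (l 16347824) (l 16363704)) (a (l 16156320) (l 16094872)))) (c (b (l 16373064) (l 16221624)) (b (l 16343736) (l 16162536)))) (b (c (c (l 16373328) (l 16371408)) (b (l 16464272) (l 16377264))) (c (c (l 16214448) (l 16208352))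 (c (l 16181224) (l 16195968))))))), by decide +kernel⟩

def k10_pm_012 : ∃ t, chk3 f_pm_012 t 26 15 1 = true :=
  ⟨(b (c (b (b (a (l 15985752) (l 15982552)) (c (l 15890048) (l 15875168))) (c (b (c (b (l 15849976) (l 15792984)) (l 15814472)) (c (l 15775592) (b (c (l 15787080) (l 15761768)) (l 15748848)))) (c (b (l 15803960) (b (l 15746392) (c (l 15727864) (l 15706192)))) (l 15756856)))) (b (a (b (l 15959600) (l 15852968)) (b (l 15956304) (l 15852480))) (a (l 15733504) (l 15737328)))) (b (c (c (b (l 15671432) (l 15572656)) (b (c (b (c (l 15702104) (l 15686272)) (l 15650032)) (b (l 15660576) (c (l 15642040) (l 15622552)))) (c (l 15566400) (b (l 15593808) (l 15539016))))) (c (b (l 15622824) (a (c (b (l 15571896) (l 15530616)) (l 15529656)) (c (b (l 15540384) (c (l 15548264) (l 15539792))) (l 15540960)))) (a (l 15555488) (l 15565416)))) (c (b (a (l 15472560) (l 15486472)) (b (l 15416400) (b (l 15364648) (b (l 15349128) (b (l 15341328) (b (l 15337424) (a (l 15327344) (b (l 15365848) (l 15345072))))))))) (b (c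 (c (l 15439552) (b (c (a (l 15475600) (l 15489208)) (a (l 15465520) (l 15479192))) (l 15405016))) (c (b (l 15457096) (c (a (l 15413056) (l 15428384)) (l 15410344))) (l 15423192))) (b (c (l 15381896) (c (c (l 15371592) (b (l 15379784) (l 15353528))) (a (l 15347296) (l 15364456)))) (c (b (l 15348896) (b (l 15332912) (b (l 15324888) (a (a (l 15307840) (l 15317688)) (c (l 15337856) (l 15326024)))))) (c (b (l 15330920) (b (l 15314024) (b (l 15305888) (b (l 15301808) (a (l 15291352) (a (l 15305864) (l 15316280))))))) (b (c (a (l 15314248) (l 15332584)) (l 15317352)) (a (c (l 15253232) (c (l 15288136) (l 15283928))) (b (c (l 15314504) (l 15306800)) (b (l 15302656) (c (b (l 15302080) (c (l 15302584) (l 15304056))) (c (l 15299720) (l 15295120)))))))))))))), by decide +kernel⟩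

def k11_pm_012 : ∃ t, chk3 f_pm_012 t 27 30 2 = true :=
  ⟨(b (a (a (b (l 15982448) (c (l 15891928) (l 15877104))) (b (l 16033256) (l 15938864))) (b (l 16073832) (c (l 16075016) (l 16063896)))) (a (c (a (b (c (b (l 15854432) (a (l 15838976) (l 15843336))) (l 15756952)) (c (a (l 15782000) (l 15786976)) (b (c (l 15795120) (l 15769856)) (a (l 15756120) (l 15761360))))) (b (c (b (l 15910768) (l 15899312)) (l 15877696)) (c (l 15845448) (b (l 15848072) (l 15821256))))) (a (c (b (l 15809424) (b (l 15754544) (c (a (l 15735192) (l 15740472)) (l 15716192)))) (l 15764192)) (c (b (l 15867832) (b (l 15815792) (l 15755800))) (l 15825096)))) (c (b (c (b (l 16043888) (l 15888712)) (l 15971752)) (c (l 15923400) (b (c (l 15995952) (l 15971688)) (l 15902208)))) (c (b (l 16005184) (b (l 15957880) (c (l 15924776) (l 15925152)))) (l 15966984))))), by decide +kernel⟩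

def k12_pm_012 : ∃ t, chk3 f_pm_012 t 27 31 2 = true :=
  ⟨(b (a (c (a (b (l 15683992) (l 15588928)) (l 15624016)) (b (a (c (b (a (l 15701280) (a (l 15702928) (l 15711112))) (l 15663712)) (a (b (l 15669648) (l 15645408)) (b (l 15675432) (c (l 15658952) (l 15639552))))) (c (b (l 15769224) (l 15730768)) (b (l 15738272) (c (l 15723384) (l 15704296))))) (a (a (l 15576512) (a (l 15578856) (c (l 15590872) (l 15523712)))) (c (l 15652960) (l 15544464))))) (c (b (l 15876072) (l 15812384)) (b (c (b (c (l 15926976) (l 15828368)) (l 15882544)) (b (l 15888240) (c (l 15813352) (l 15857928)))) (c (l 15809680) (b (c (l 15838832) (l 15836792)) (l 15788336)))))) (b (a (a (a (l 15495792) (a (l 15498672) (l 15508312))) (l 15573328)) (c (l 15742448) (l 15602088))) (a (a (a (b (l 15435424) (b (l 15405952) (b (l 15391088) (c (c (l 15401184) (l 15389328)) (l 15353064))))) (b (l 15443800) (b (l 15393712) (b (l 15379016) (b (l 15371640) (b (l 15367944) (b (l 15366088) (a (l 15381648) (l 15371384))))))))) (b (l 15516376) (b (l 15488640)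 (b (l 15474640) (b (l 15467608) (c (l 15476736) (l 15454880))))))) (b (c (l 15693416) (l 15674936)) (b (a (l 15601544) (l 15717072)) (b (c (l 15655944) (l 15636720)) (c (b (l 15649632) (a (l 15590416) (l 15706472))) (b (l 15630280) (a (l 15570840) (l 15689200)))))))))), by decide +kernel⟩

def k13_pm_012 : ∃ t, chk3 f_pm_012 t 54 30 3 = true :=
  ⟨(a (b (b (l 15914280) (l 15854576)) (c (l 15751408) (l 15734176))) (b (b (l 16009144) (l 15911240)) (l 15805216))), by decide +kernel⟩

def k14_pm_012 : ∃ t, chk3 f_pm_012 t 54 62 3 = true :=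
  ⟨(a (c (b (l 15635920) (c (b (a (l 15589480) (c (a (l 15596160) (l 15605160)) (l 15582960))) (c (l 15497008) (a (l 15547912) (a (l 15550448) (l 15559824))))) (a (l 15548672) (a (l 15551080) (l 15560360))))) (a (l 15572288) (l 15578968))) (c (b (l 15703640) (c (b (c (l 15667504) (l 15650144)) (c (l 15632184) (l 15624120))) (l 15624296))) (l 15646728))), by decide +kernel⟩

def k15_pm_012 : ∃ t, chk3 f_pm_012 t 54 63 3 = true :=
  ⟨(b (c (a (c (a (l 15477392) (l 15464304)) (b (c (a (l 15498344) (a (l 15501176) (l 15510952))) (a (l 15488376) (a (l 15491224) (l 15501048)))) (a (l 15443912) (a (l 15447040) (l 15457192))))) (c (l 15556848) (b (c (l 15577224) (l 15567648)) (l 15525320)))) (a (c (b (l 15477304) (a (l 15392216) (c (a (l 15441760) (l 15451984)) (l 15436792)))) (l 15444624)) (c (b (l 15553264) (c (l 15520608) (l 15510896))) (l 15522400)))) (b (c (a (a (l 15401504) (l 15410136)) (l 15484864)) (a (c (c (l 15374824) (b (a (l 15399280) (a (l 15402680) (l 15413224))) (l 15315456))) (a (l 15375816) (a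 (l 15379312) (l 15390024)))) (c (c (l 15475824) (b (l 15483480) (l 15459328))) (l 15461224)))) (b (c (a (l 15374320) (l 15454984)) (a (c (l 15356736) (c (a (l 15344680) (a (l 15348392) (l 15359352))) (a (l 15338896) (l 15348128)))) (c (l 15438584) (c (l 15431696) (l 15426336))))) (a (b (c (l 15359104) (c (l 15340616) (c (l 15331648) (a (l 15319336) (a (l 15323192) (l 15334336)))))) (b (c (l 15351464) (c (l 15332864) (a (l 15315352) (a (l 15319256) (l 15330448))))) (a (b (l 15330328) (c (l 15321768) (c (l 15324016) (b (l 15309616) (c (l 15312768) (l 15308312)))))) (c (b (l 15352304) (a (l 15325664) (l 15357696))) (b (a (l 15321712) (l 15332880)) (b (l 15325440) (b (l 15324512) (b (l 15324048) (c (l 15330360) (c (l 15320968) (a (l 15311896) (a (a (l 15292744) (l 15318976)) (l 15330112))))))))))))) (b (c (l 15440568) (c (l 15423280) (c (l 15414912) (l 15407696)))) (b (c (l 15433336) (c (l 15415936) (l 15403960))) (c (b (l 15429704) (l 15430280)) (b (l 15406208) (b (l 15404448) (c (l 15410800) (c (l 15402032)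 (c (l 15400776) (l 15395600))))))))))))), by decide +kernel⟩

def k16_pm_012 : ∃ t, chk3 f_pm_012 t 55 15 3 = true :=
  ⟨(b (b (b (a (l 16093208) (l 16184816)) (a (l 15999680) (l 16095024))) (c (l 15894304) (l 15881160))) (b (c (b (l 15857472) (c (b (c (b (l 15825472) (l 15820256)) (l 15808632)) (c (l 15793280) (b (l 15793856) (l 15780600)))) (b (l 15801608) (l 15705696)))) (a (l 15752240) (l 15862344))) (b (c (c (l 15576680) (b (c (b (l 15754336) (l 15735488)) (b (l 15738312) (l 15706960))) (a (l 15637752) (l 15753480)))) (c (b (l 15721376) (c (b (l 15701976) (l 15642472)) (l 15682936))) (l 15693896))) (b (c (l 15657552) (c (c (l 15650592) (b (l 15532360) (l 15635832))) (a (l 15578360) (l 15698448)))) (c (b (l 15630328) (b (l 15617256) (b (l 15610688) (b (l 15607392) (c (l 15612480) (l 15456400)))))) (c (b (l 15616456) (b (l 15602512) (b (l 15595848) (b (l 15592504) (c (l 15595272) (l 15528056)))))) (c (b (c (l 15612800) (l 15609816)) (b (l 15595432) (b (l 15588368) (b (l 15585008) (b (l 15583320) (a (l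 15522800) (l 15645952))))))) (b (l 15606344) (c (b (l 15592568) (l 15482592)) (b (l 15590272) (c (l 15583328) (l 15519120)))))))))))), by decide +kernel⟩

def k17_pm_012 : ∃ t, chk3 f_pm_012 t 14 2 1 = true :=
  ⟨(b (c (a (b (c (l 16180752) (l 16170344)) (c (l 16130232) (l 16118944))) (b (a (c (l 15907056) (l 15891880)) (b (l 15786200) (l 15764736))) (a (b (l 15858384) (l 15838784)) (b (l 15754160) (l 15755296))))) (a (b (c (l 16159792) (l 16149072)) (c (l 16107496) (l 16095864))) (b (a (l 15763808) (c (l 15750792) (l 15733096))) (a (c (l 15827464) (l 15810992)) (c (l 15728936) (l 15710936)))))) (b (a (c (b (l 16064952) (b (l 15850784) (a (l 16140432) (l 15911944)))) (b (l 16061664) (a (l 16103216) (b (l 15937096) (l 15903288))))) (b (c (a (l 15831424) (l 15760536)) (a (l 15798344) (l 15725472))) (c (a (b (l 15823016) (l 15792536)) (l 15738024)) (a (b (l 15789712) (l 15758240)) (l 15702328))))) (a (c (a (b (l 16068776) (b (l 15990288) (l 15835848))) (b (a (l 15896104) (l 15810160)) (a (b (l 15821560) (l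 15792192)) (l 15752312)))) (a (b (l 16043912) (l 15896056)) (b (c (l 15833864) (l 15817520)) (c (l 15756744) (l 15739112))))) (c (b (c (l 15723688) (l 15705648)) (a (c (l 15711472) (l 15693184)) (l 15637808))) (c (b (l 15687336) (l 15641472)) (b (l 15668744) (l 15622168))))))), by decide +kernel⟩

def k18_pm_012 : ∃ t, chk3 f_pm_012 t 15 2 1 = true :=
  ⟨(b (a (c (b (c (l 15726232) (l 15708568)) (a (l 15711912) (l 15669736))) (b (c (l 15690632) (l 15672408)) (c (l 15663376) (l 15644752)))) (b (c (c (l 15655928) (l 15637944)) (c (l 15619664) (l 15601072))) (c (b (a (l 15630624) (l 15592440)) (a (l 15596488) (b (l 15582496) (b (l 15575312) (l 15558592))))) (b (l 15573696) (a (l 15580152) (b (l 15544400) (l 15529192))))))) (a (b (b (c (a (b (l 15715456) (l 15711040)) (b (l 15663472) (l 15632640))) (a (b (l 15679472) (l 15675264)) (b (l 15627032) (l 15597784)))) (c (a (l 15659984) (l 15571744)) (l 15582336))) (c (a (c (b (l 15609176) (l 15563488)) (l 15573288)) (b (l 15501464) (c (l 15445480) (l 15448336))))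 (b (a (l 15564704) (l 15474584)) (a (l 15519856) (l 15423808))))) (b (c (a (b (b (l 15599192) (l 15544448)) (l 15473096)) (b (l 15486552) (l 15385592))) (a (b (l 15542200) (l 15450016)) (c (l 15411872) (l 15396504)))) (c (a (b (c (l 15388528) (l 15388632)) (c (a (l 15345320) (l 15282824)) (l 15323176))) (b (c (l 15304808) (l 15289016)) (c (l 15231944) (a (l 15228256) (l 15202648))))) (a (c (b (l 15385368) (l 15326504)) (l 15341592)) (c (a (l 15203392) (l 15219976)) (a (l 15263128) (b (l 15241512) (l 15175344))))))))), by decide +kernel⟩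

def k19_pm_012 : ∃ t, chk3 f_pm_012 t 14 12 1 = true :=
  ⟨(a (c (b (a (a (c (l 15878936) (l 15927288)) (b (l 15844504) (l 15829896))) (c (b (l 15758496) (l 15745104)) (l 15734248))) (a (c (b (l 15869176) (l 15870176)) (b (l 15853424) (l 15854480))) (c (a (l 15762080) (l 15681744)) (a (l 15744616) (l 15684304))))) (b (a (c (l 15764488) (l 15853624)) (c (l 15716288) (l 15698048))) (a (c (l 15838544) (l 15822352)) (c (a (l 15726880) (l 15665616)) (l 15677992))))) (c (b (c (a (l 15678496) (l 15619240)) (a (l 15659720) (l 15599672))) (c (a (b (l 15662872) (l 15657848)) (b (l 15607584) (l 15605400))) (a (l 15641496) (l 15586912)))) (b (c (a (l 15640672) (l 15579816)) (l 15590288)) (c (a (l 15622208) (l 15566888)) (l 15574440))))), by decide +kernel⟩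

def k20_pm_012 : ∃ t, chk3 f_pm_012 t 14 13 1 = true :=
  ⟨(a (c (a (b (b (c (l 15809352) (l 15878040)) (c (l 15967040) (l 15953344))) (b (c (l 16051632) (l 16039664)) (c (l 16145208) (l 16135152)))) (b (b (a (c (l 15776792) (l 15759688)) (c (l 15714096) (l 15695992))) (a (l 15838528) (c (l 15782744) (l 15766040)))) (a (b (l 15920016) (l 16010832)) (c (l 15823152) (l 15788000))))) (b (a (c (b (l 15862608) (l 15939440)) (l 15822952)) (c (b (l 15626304) (l 15740200)) (b (l 15692032) (l 15765440)))) (a (c (b (l 16027504) (l 16124928)) (l 15980608)) (a (c (l 15945168) (l 15931592)) (c (l 15878440) (l 15863776)))))) (c (b (a (b (c (b (l 15639392) (l 15691024)) (l 15657016)) (c (l 15748792) (l 15731624))) (c (b (b (l 15589320) (l 15643760)) (l 15706208)) (b (l 15607688) (l 15688480)))) (a (c (b (l 15833552) (l 15927936)) (b (l 15818072) (l 15914328))) (c (b (l 15797456) (a (l 15905848) (l 15891472))) (b (l 15781512) (l 15884656))))) (b (c (a (b (l 15638088) (l 15714200)) (b (l 15588104) (l 15670488))) (a (l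 15657424) (l 15609976))) (a (c (b (l 15802360) (l 15900488)) (l 15836072)) (c (b (l 15765328) (l 15870440)) (l 15802112)))))), by decide +kernel⟩

def k21_pm_012 : ∃ t, chk3 f_pm_012 t 30 12 1 = true :=
  ⟨(c (a (c (b (a (l 15563200) (l 15504824)) (a (c (c (l 15533760) (l 15533832)) (l 15550288)) (c (l 15484824) (l 15493312)))) (b (l 15521944) (b (l 15510288) (l 15508392)))) (b (c (b (l 15410504) (l 15392664)) (b (l 15418640) (l 15404408))) (c (b (l 15379056) (a (l 15410560) (l 15328640))) (a (c (l 15430672) (l 15426280)) (c (l 15357312) (l 15366272)))))) (c (b (a (l 15501024) (l 15400272)) (a (l 15488400) (l 15382856))) (b (l 15387200) (a (l 15466984) (l 15359904))))), by decide +kernel⟩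

def k22_pm_012 : ∃ t, chk3 f_pm_012 t 30 13 2 = true :=
  ⟨(a (b (c (a (c (b (b (a (l 15554736) (l 15522184)) (l 15592768)) (a (l 15674728) (l 15641688))) (b (l 15572728) (l 15655640))) (b (c (l 15502032) (b (l 15496192) (l 15531144))) (c (l 15582128) (a (l 15614672) (l 15580760))))) (b (b (l 15513864) (l 15549568)) (a (l 15641824) (l 15590080)))) (c (a (c (b (a (l 15768712) (l 15735400)) (a (c (l 15873072) (l 15874032)) (l 15839296))) (b (l 15750936) (l 15856448))) (c (b (l 15674704) (l 15777568)) (b (a (l 15710320) (l 15676136)) (a (l 15816288) (l 15781928))))) (b (a (l 15738496) (l 15687504)) (a (l 15845504) (l 15795416))))) (b (c (b (b (a (l 15412008) (l 15327496)) (a (l 15445344) (l 15359728))) (a (b (l 15486608) (l 15530328)) (b (l 15400032) (l 15442832)))) (b (a (b (l 15429288) (l 15465016)) (c (l 15372568) (l 15384624))) (a (c (l 15492232) (l 15532416)) (c (l 15455360) (l 15470160))))) (c (b (a (b (l 15576568) (l 15625392)) (b (a (l 15510480) (l 15470600)) (a (l 15562160) (l 15534008)))) (a (b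 (a (l 15699040) (l 15657104)) (a (l 15755360) (l 15724648))) (b (a (l 15627496) (l 15608016)) (l 15695376)))) (a (b (c (a (l 15650208) (l 15615152)) (l 15631056)) (c (a (b (l 15729840) (l 15788456)) (b (l 15697216) (l 15767528))) (b (l 15713464) (l 15779992)))) (b (c (b (l 15529240) (l 15590176)) (a (l 15590792) (b (l 15531448) (l 15599480)))) (c (l 15638816) (a (l 15728800) (l 15719640)))))))), by decide +kernel⟩

def k23_pm_012 : ∃ t, chk3 f_pm_012 t 30 13 3 = true :=
  ⟨(b (a (c (b (l 15511024) (l 15597056)) (b (l 15490048) (l 15577736))) (c (b (l 15403048) (l 15490184)) (b (l 15380488) (l 15469280)))) (a (c (b (l 15695952) (l 15784456)) (b (l 15678512) (l 15790040))) (b (a (c (l 15617264) (l 15598624)) (c (l 15553336) (l 15555056))) (a (c (b (l 15700808) (l 15768248)) (l 15720000)) (c (l 15720256) (l 15703680)))))), by decide +kernel⟩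

def k24_pm_012 : ∃ t, chk3 f_pm_012 t 31 12 1 = true :=
  ⟨(c (a (b (c (a (b (l 15301800) (l 15278384)) (b (l 15235176) (l 15188128))) (a (l 15311320) (c (l 15230080) (l 15239792)))) (c (a (b (l 15259312) (c (l 15236768) (l 15252656))) (b (c (l 15162704) (l 15189640)) (c (b (l 15148616) (a (l 15176168) (l 15151528))) (a (l 15168592) (b (l 15158936) (l 15156088)))))) (a (l 15282896) (b (l 15206072) (a (l 15213304) (c (l 15166912) (l 15181328))))))) (b (a (c (c (l 15154392) (l 15170520)) (c (l 15168056) (l 15170976))) (b (l 15153448) (c (l 15156456) (l 15131824)))) (a (a (c (b (l 15143616) (b (l 15136896) (l 15144784))) (b (l 15150792) (c (l 15147752) (l 15155200)))) (b (c (b (l 15138096) (l 15138576)) (l 15131440)) (c (c (l 15156856) (l 15148816)) (l 15147680)))) (c (b (l 15188032) (l 15214144)) (b (l 15163720) (l 15190408)))))) (a (b (c (c (l 15286080) (l 15285848)) (l 15271672)) (c (a (l 15296472) (b (l 15230368) (l 15223904))) (l 15250248))) (c (a (b (l 15180448) (b (l 15159720) (a (l 15177704) (l 15161984))))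 (b (b (l 15144544) (l 15136280)) (c (l 15162824) (l 15158312)))) (a (b (l 15185568) (l 15180152)) (b (c (l 15136896) (l 15135528)) (c (a (l 15155672) (l 15159480)) (l 15160672))))))), by decide +kernel⟩

def k25_pm_012 : ∃ t, chk3 f_pm_012 t 62 13 2 = true :=
  ⟨(b (a (b (c (a (b (l 15262632) (l 15294040)) (c (b (l 15189392) (a (l 15250912) (l 15209656))) (l 15244160))) (b (l 15278016) (l 15312848))) (c (a (b (l 15333768) (l 15382528)) (c (a (l 15322928) (a (l 15313360) (l 15337048))) (l 15340064))) (b (l 15361216) (l 15418784)))) (c (b (a (a (c (b (b (l 15178504) (l 15205280)) (l 15197216)) (b (l 15194584) (l 15232784))) (b (c (b (l 15163656) (l 15173296)) (l 15156376)) (c (l 15213984) (l 15202504)))) (b (c (l 15204264) (l 15146752)) (l 15194968))) (a (c (c (l 15303176) (l 15335408)) (a (l 15323592) (c (l 15311896) (l 15320128)))) (c (l 15303976) (l 15312560)))) (b (a (b (l 15213600) (l 15258112)) (c (b (l 15177656) (l 15230592)) (l 15221304))) (c (a (l 15341888) (a (l 15328280) (l 15322608))) (l 15356184)))))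 (a (c (c (b (a (l 15466568) (c (a (l 15445680) (l 15437640)) (l 15453768))) (a (l 15612752) (a (l 15598048) (b (l 15551248) (l 15638496))))) (b (l 15483032) (l 15632936))) (b (b (l 15486072) (l 15560400)) (b (l 15638304) (l 15719864)))) (c (a (c (b (c (l 15434696) (a (l 15441816) (l 15439968))) (a (b (l 15546400) (l 15623008)) (l 15583688))) (b (a (l 15458992) (c (l 15446392) (l 15456280))) (a (l 15608456) (c (l 15594976) (l 15606560))))) (b (c (l 15437056) (l 15448352)) (c (l 15584224) (c (l 15594592) (l 15601912))))) (c (a (b (l 15480984) (l 15634272)) (b (a (l 15467072) (l 15461464)) (a (l 15578192) (c (l 15609112) (l 15619168))))) (b (l 15498912) (l 15655976)))))), by decide +kernel⟩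

def k26_pm_012 : ∃ t, chk3 f_pm_012 t 62 13 3 = true :=
  ⟨(b (c (b (a (c (l 15317840) (l 15314136)) (c (l 15256608) (l 15269320))) (a (c (a (l 15428872) (l 15407456)) (l 15416752)) (c (l 15380472) (l 15396296)))) (b (a (l 15296272) (l 15259456)) (l 15396224))) (c (c (a (b (l 15555216) (a (l 15722536) (l 15713672))) (b (l 15527112) (l 15688200))) (a (l 15615456) (b (l 15546248) (l 15710752)))) (b (l 15541024) (l 15707512)))), by decide +kernel⟩

def k27_pm_012 : ∃ t, chk3 f_pm_012 t 63 13 2 = true :=
  ⟨(b (a (c (b (b (c (a (b (l 15152424) (l 15168448)) (l 15160656)) (l 15149576)) (a (l 15214688) (l 15231936))) (a (c (l 15303528) (l 15311432)) (c (l 15327928) (l 15322304)))) (a (b (c (l 15197656) (b (l 15179896) (l 15234776))) (c (l 15320328) (l 15332840))) (b (b (l 15174504) (l 15229040)) (l 15326664)))) (b (c (b (l 15243080) (l 15298832)) (b (l 15219944) (l 15276784))) (c (b (l 15363984) (l 15432536)) (c (l 15381992) (l 15372856))))) (a (c (b (a (c (l 15437560) (l 15448104)) (c (l 15464672) (l 15502656)))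 (a (c (l 15585776) (l 15599064)) (c (l 15615704) (a (l 15602736) (l 15621264))))) (a (c (b (l 15459720) (l 15613512)) (b (a (l 15476488) (l 15472464)) (a (l 15549336) (l 15629408)))) (b (c (l 15463152) (l 15472144)) (c (l 15618144) (l 15629792))))) (a (c (b (l 15514208) (l 15670488)) (b (l 15455160) (c (l 15657896) (l 15652864)))) (b (c (l 15570640) (l 15552128)) (b (l 15681312) (c (l 15771112) (l 15756128))))))), by decide +kernel⟩

def k28_pm_012 : ∃ t, chk3 f_pm_012 t 63 13 3 = true :=
  ⟨(b (a (c (b (c (a (l 15223520) (l 15211840)) (l 15236072)) (c (a (l 15352456) (l 15340704)) (l 15368528))) (b (l 15245736) (l 15382184))) (c (c (b (l 15235360) (l 15367240)) (a (b (l 15218912) (l 15351256)) (l 15309392))) (a (b (l 15231816) (l 15263496)) (c (b (l 15236328) (l 15372904)) (b (l 15238096) (l 15376952)))))) (c (a (a (b (l 15512784) (l 15654352)) (c (b (l 15486680) (a (l 15647760) (l 15645688))) (b (l 15508720) (l 15672944)))) (a (c (b (l 15492752) (l 15654776)) (a (b (l 15499480) (l 15663792)) (l 15582104)))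 (b (l 15533976) (b (l 15657120) (l 15741616))))) (a (c (b (l 15537512) (l 15705312)) (l 15622576)) (a (c (b (l 15520280) (l 15688280)) (l 15620704)) (a (c (l 15495376) (l 15551104)) (c (l 15554912) (b (l 15533568) (c (l 15700152) (l 15704696))))))))), by decide +kernel⟩

def k29_pm_012 : ∃ t, chk3 f_pm_012 t 14 14 1 = true :=
  ⟨(a (b (a (c (b (l 16118512) (l 16190896)) (c (b (l 16232256) (l 16308144)) (b (l 16224008) (l 16323240)))) (c (a (b (l 16111520) (l 16222672)) (b (l 16003784) (c (l 16161208) (l 16152056)))) (a (c (l 16068960) (l 16122400)) (c (b (l 16028544) (l 16142728)) (l 16032672))))) (a (b (c (c (l 16329632) (l 16326808)) (c (l 16323896) (l 16341872))) (c (c (l 16319888) (l 16317248)) (c (l 16314592) (l 16332896)))) (b (c (a (l 16231728) (b (l 16249080) (l 16334800))) (a (c (l 16307448) (l 16322808)) (c (l 16260856) (l 16275000)))) (c (a (l 16395496) (c (l 16416312) (l 16413432))) (a (l 16392064) (c (l 16410472) (l 16407400))))))) (b (c (a (b (c (l 16032520) (l 16020944)) (c (l 16126912) (l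 16138528))) (c (b (a (l 16015768) (l 16004936)) (a (l 16136712) (l 16129584))) (b (l 15998472) (a (l 16127200) (l 16119968))))) (a (c (b (l 16009168) (l 16129000)) (b (l 15997192) (l 16119304))) (c (b (l 15986416) (l 16113856)) (b (l 15974160) (l 16103976))))) (b (c (a (c (b (l 16243760) (l 16332288)) (b (l 16236240) (l 16326472))) (a (c (l 16220048) (l 16234248)) (b (c (l 16233848) (l 16226160)) (c (l 16295872) (l 16332072))))) (a (c (l 16190520) (l 16267464)) (c (b (l 16220080) (a (l 16317336) (l 16326232))) (a (l 16262288) (l 16204376))))) (c (a (c (l 16395880) (l 16392928)) (a (b (l 16388056) (l 16463576)) (c (l 16361368) (l 16380184)))) (a (c (l 16410872) (l 16407760)) (a (c (l 16360680) (l 16378720)) (c (l 16377976) (l 16375720)))))))), by decide +kernel⟩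

def k30_pm_012 : ∃ t, chk3 f_pm_012 t 56 30 1 = true :=
  ⟨(c (b (b (l 16254576) (c (l 16261184) (l 16253760))) (c (b (c (b (l 16213648) (l 16125072)) (l 16166216)) (c (l 16123432) (b (c (l 16195552) (l 16172256)) (l 16127048)))) (c (b (l 16201552) (b (l 16159912) (c (l 16130136) (l 16131504)))) (l 16169064)))) (b (b (l 16200904) (l 16200608)) (c (l 16099328) (l 16090160)))), by decide +kernel⟩

def k31_pm_012 : ∃ t, chk3 f_pm_012 t 56 31 1 = true :=
  ⟨(b (c (c (b (l 16084712) (l 16028816)) (b (c (b (c (l 16136184) (l 16080528)) (l 16096152)) (b (l 16079000) (c (l 16070448) (l 16074104)))) (c (l 16029216) (b (l 15992544) (l 16011984))))) (c (b (l 16074248) (c (b (c (b (l 16045672) (l 16042464)) (l 16030880)) (c (l 16018512) (b (l 16019144) (l 16007920)))) (l 15885672))) (l 15927104))) (c (b (c (l 15966680) (l 15872536)) (b (a (l 15857752) (l 15972352)) (b (a (l 15834920) (l 15988408)) (b (a (l 15823384) (l 15953336)) (b (a (l 15817592) (l 15924944)) (c (a (c (l 15827592) (l 15819784)) (c (l 15953272)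 (l 15925480))) (a (l 15747024) (b (l 15914104) (l 15913840))))))))) (b (c (c (l 15829408) (b (c (l 15807032) (l 15841288)) (l 15784512))) (c (b (l 15955592) (c (b (l 15938768) (l 15860208)) (l 15921720))) (l 15932272))) (b (c (l 15747648) (c (c (l 15869304) (b (a (l 15838920) (l 15960416)) (l 15856544))) (a (l 15820904) (a (l 15914296) (l 15949504))))) (c (b (l 15847016) (b (l 15854888) (b (l 15848184) (b (l 15844792) (b (l 15843088) (a (l 15789912) (l 15898648))))))) (c (b (l 15857472) (b (l 15843488) (b (l 15836688) (b (l 15833248) (b (l 15831512) (a (l 15777632) (l 15887880))))))) (b (c (a (l 15795648) (c (l 15914320) (l 15912040))) (l 15724352)) (c (b (l 15838096) (b (l 15830896) (b (l 15827432) (b (l 15825688) (b (l 15824808) (a (l 15770280) (l 15881128))))))) (b (c (l 15731224) (l 15834360)) (c (a (l 15774992) (a (l 15866976) (l 15907768))) (a (c (l 15771152) (l 15769368)) (c (l 15883480) (l 15860936))))))))))))), by decide +kernel⟩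

def k32_pm_012 : ∃ t, chk3 f_pm_012 t 114 15 1 = true :=
  ⟨(b (c (b (b (l 16438208) (l 16362592)) (c (b (c (b (l 16383744) (l 16381824)) (l 16360128)) (c (l 16342456) (b (l 16282104) (l 16328016)))) (c (b (l 16354976) (b (l 16317576) (c (l 16311256) (l 16292416)))) (l 16326816)))) (b (b (l 16432104) (l 16395472)) (l 16277224))) (b (c (c (b (l 16268264) (l 16193616)) (b (c (b (l 16227960) (l 16262504)) (b (l 16264936) (c (l 16258936) (l 16242408)))) (b (c (l 16217456) (l 16225840)) (l 16179320)))) (c (b (l 16243040) (c (b (c (l 16176056) (l 16203248)) (c (l 16188968) (b (l 16191944) (l 16179280)))) (l 16078472))) (l 16141296))) (c (b (c (l 16121024) (l 16113640)) (b (l 16055224) (b (l 16022096) (b (l 16005360) (b (l 15996952) (b (l 15992736) (b (l 15990624) (c (l 15996776) (l 15984224))))))))) (b (c (c (l 16072696) (b (c (b (l 16154256) (l 16133544)) (b (l 16140096) (l 16127848))) (l 16088600))) (b (l 16121672) (c (c (b (l 16100600) (l 16078576)) (l 16080816)) (l 16075872)))) (c (b (l 16039096) (b (l 16003640)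 (b (l 15986400) (b (l 15977736) (b (l 15973392) (b (l 15971224) (l 15972144))))))) (b (c (c (l 16036576) (b (l 16048736) (l 16020832))) (l 16028568)) (c (b (l 15994976) (b (l 15976800) (b (l 15968008) (b (l 15963600) (b (l 15961392) (l 15962376)))))) (c (b (l 15992000) (b (l 15972312) (b (l 15963104) (b (l 15958664) (b (l 15956440) (b (l 15955328) (l 15955984))))))) (b (l 15989248) (b (l 15967704) (c (l 15962952) (c (l 15959376) (l 15957992))))))))))))), by decide +kernel⟩

def k33_pm_012 : ∃ t, chk3 f_pm_012 t 115 30 1 = true :=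
  ⟨(c (b (b (l 16484504) (c (l 16475936) (l 16472672))) (c (b (c (b (l 16454256) (l 16390640)) (l 16431920)) (c (l 16352328) (b (c (l 16424832) (l 16402632)) (a (l 16399944) (l 16404288))))) (b (l 16426392) (c (b (l 16391920) (c (b (l 16380256) (l 16382784)) (l 16367176))) (l 16376248))))) (b (b (l 16481008) (l 16467816)) (a (l 16371288) (l 16397592)))), by decide +kernel⟩

def k34_pm_012 : ∃ t, chk3 f_pm_012 t 115 31 1 = true :=
  ⟨(b (b (c (c (a (l 16339000) (l 16331008)) (c (b (c (l 16349216) (a (l 16360280) (l 16357016))) (l 16305208)) (b (a (l 16339456) (l 16336152)) (c (a (l 16330712) (l 16317096)) (a (l 16314512) (l 16300824)))))) (c (a (l 16316424) (l 16308072)) (l 16282832))) (c (c (l 16240944) (c (l 16244296) (b (c (l 16280888) (l 16259952)) (l 16222976)))) (c (c (b (c (b (l 16273848) (l 16264752)) (l 16256928)) (c (l 16230968) (b (l 16235880) (l 16218024)))) (b (l 16253056) (l 16211408))) (l 16224760)))) (c (b (c (l 16153568) (l 16146744)) (b (c (l 16069664) (l 16079552)) (b (c (a (l 16048232)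 (l 16047952)) (l 16046872)) (b (c (a (l 16032072) (l 16031736)) (l 16030360)) (b (c (a (l 16023952) (l 16023592)) (l 16022064)) (c (a (c (a (l 16024648) (l 16042392)) (l 16017488)) (b (l 16019512) (l 15997416))) (b (l 16017904) (a (l 16028336) (l 16006456))))))))) (b (c (c (l 16127192) (b (c (b (l 16189120) (l 16165544)) (b (l 16175112) (l 16159976))) (l 16077200))) (c (b (l 16158824) (c (b (l 16131192) (l 16087768)) (l 16111680))) (l 16130504))) (b (c (l 16069688) (c (c (l 16067488) (b (c (l 16081568) (l 16077880)) (l 16052136))) (a (a (l 16072848) (l 16069264)) (l 16048496)))) (b (c (l 16035024) (c (l 16026752) (c (c (l 16025440) (l 15981464)) (l 16021352)))) (c (b (l 16018184) (b (l 16009712) (b (l 16005472) (b (l 16003352) (c (l 16006256) (l 16000336)))))) (b (c (l 16008968) (c (l 16004680) (c (l 16003224) (l 16001864)))) (b (c (l 16000376) (c (l 15995680) (c (l 15993496) (l 15991232)))) (b (c (l 15996072) (l 15989576)) (b (l 15990664) (b (l 15989624) (b (l 15989096) (c (l 15992752) (c (l 15967048)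 (a (c (l 15996776) (a (l 15998128) (l 15994576))) (l 15954880)))))))))))))))), by decide +kernel⟩

def k35_pm_012 : ∃ t, chk3 f_pm_012 t 29 30 1 = true :=
  ⟨(c (b (a (b (c (l 16491232) (l 16489528)) (a (l 16459056) (c (l 16446960) (l 16464432)))) (b (c (l 16396776) (l 16394008)) (c (a (l 16423208) (l 16372104)) (l 16371920)))) (c (b (a (c (b (a (l 16457896) (l 16407096)) (a (c (l 16462288) (l 16443136)) (l 16327512))) (a (l 16389360) (l 16376416))) (c (b (c (l 16315848) (l 16321288)) (c (l 16262152) (l 16242432))) (a (l 16325456) (l 16231424)))) (a (c (a (l 16334160) (l 16307456)) (b (c (l 16305664) (a (l 16391000) (l 16343496))) (c (l 16359552) (l 16330944)))) (c (b (c (l 16302584) (l 16219680)) (l 16245016)) (b (c (l 16225520) (l 16202648)) (c (l 16235048) (l 16164000)))))) (a (b (a (l 16425736) (l 16391304)) (c (b (l 16356176) (c (b (l 16333960) (l 16329248)) (l 16317352))) (l 16332760))) (c (b (l 16314912) (b (l 16253832) (c (b (l 16229632) (l 16224440)) (l 16212320)))) (l 16207344))))) (b (a (b (a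 (l 16508040) (l 16466608)) (a (l 16473752) (l 16417248))) (b (c (l 16412176) (l 16409328)) (c (l 16388016) (l 16383072)))) (a (a (c (l 16321920) (l 16316896)) (l 16258080)) (c (l 16159920) (l 16194456))))), by decide +kernel⟩

def k36_pm_012 : ∃ t, chk3 f_pm_012 t 29 31 2 = true :=
  ⟨(b (b (c (a (l 16185832) (a (l 16191744) (l 16033480))) (c (a (b (c (l 16308560) (l 16211752)) (l 16255960)) (b (c (l 16119264) (b (l 16190904) (l 16184736))) (l 16086568))) (a (b (l 16253352) (c (l 16189392) (l 16235720))) (b (l 16083752) (c (b (l 16153720) (l 16140064)) (l 16106992)))))) (c (a (l 16124888) (a (l 16087616) (b (l 16056512) (l 16008984)))) (a (c (l 16169088) (b (l 16140464) (l 16146304))) (c (l 15956496) (b (c (l 16097448) (l 16075624)) (l 16037120)))))) (b (a (c (l 15972968) (l 16006608)) (a (c (l 15997336) (l 15987504)) (c (a (l 15956432) (b (a (l 15956976) (l 15927800)) (a (l 15902200) (l 15929312)))) (a (l 15945832) (b (l 15944768) (l 15913728)))))) (b (a (c (l 15951056) (l 16001392)) (a (l 15925440) (a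 (a (l 15892616) (l 15870048)) (l 15905888)))) (b (a (c (a (l 16008272) (l 15954424)) (l 15968240)) (a (c (l 15899720) (l 15884944)) (c (l 15872984) (l 15879056)))) (b (a (c (a (l 15991936) (l 15937920)) (l 15951488)) (a (c (a (l 15896712) (l 15850008)) (l 15868856)) (c (l 15889528) (l 15874520)))) (a (b (c (a (l 15983720) (l 15929632)) (l 15943072)) (b (c (a (l 15979608) (l 15925472)) (l 15938848)) (c (a (c (l 15981328) (l 15974792)) (c (l 15885312) (l 15920192))) (b (l 15936736) (a (l 15964144) (l 15908728)))))) (a (b (a (l 15880840) (a (l 15859776) (c (l 15860216) (l 15844656)))) (c (a (c (l 15866648) (l 15859240)) (a (c (l 15866528) (l 15858912)) (b (l 15858136) (c (l 15861344) (l 15853632))))) (b (a (l 15869056) (l 15824368)) (a (l 15867608) (a (l 15825056) (l 15821512)))))) (b (c (l 15887504) (l 15872440)) (b (c (l 15886480) (l 15871400)) (c (c (l 15868976) (l 15861568)) (c (l 15875048) (l 15867544)))))))))))), by decide +kernel⟩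

def k37_pm_012 : ∃ t, chk3 f_pm_012 t 29 62 3 = true :=
  ⟨(c (b (a (l 16244328) (l 16135688)) (c (a (b (c (b (l 16197968) (l 16187976)) (l 16180448)) (c (l 16153728) (b (l 16158424) (l 16140264)))) (b (c (b (l 16089064) (l 16078648)) (l 16070808)) (c (l 16043760) (b (l 16048144) (l 16029552))))) (a (l 16050272) (c (l 16025240) (l 16041048))))) (a (l 16107400) (l 16016760))), by decide +kernel⟩

def k38_pm_012 : ∃ t, chk3 f_pm_012 t 29 126 3 = true :=
  ⟨(c (c (a (l 16027856) (a (l 15986600) (b (l 15958504) (l 15912320)))) (b (a (c (b (l 16110664) (l 16086768)) (b (l 16096264) (l 16080816))) (c (b (l 15999200) (l 15976224)) (b (l 15984264) (a (l 15996776) (l 15942272))))) (a (l 16018728) (a (l 15955360) (a (l 15912648) (b (l 15910408) (l 15896808))))))) (a (c (b (l 16079232) (c (b (l 16051328) (l 16028552)) (l 16031248))) (l 16049792)) (b (l 15943256) (c (a (c (l 15953624) (l 15945896)) (c (b (a (l 15923208) (l 15907912)) (a (l 15900424) (l 15897608))) (a (l 15902672) (l 15894632)))) (a (l 15939928) (l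 15894832)))))), by decide +kernel⟩

def k39_pm_012 : ∃ t, chk3 f_pm_012 t 29 254 3 = true :=
  ⟨(c (a (l 15990000) (a (l 15905392) (a (l 15872688) (l 15885248)))) (c (b (a (c (l 16000232) (l 15998600)) (c (a (l 15914776) (l 15881736)) (a (l 15912736) (a (c (l 15875888) (l 15871704)) (l 15883472))))) (a (l 15971496) (a (l 15885496) (a (l 15854872) (l 15873776))))) (a (c (l 15895256) (l 15975640)) (a (l 15891464) (b (l 15869616) (c (c (a (l 15852784) (l 15871784)) (l 15858528)) (l 15855232))))))), by decide +kernel⟩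

def k40_pm_012 : ∃ t, chk3 f_pm_012 t 29 255 3 = true :=
  ⟨(a (b (c (l 15954848) (c (l 15945384) (c (l 15879088) (l 15938984)))) (b (c (l 15937760) (c (l 15927360) (c (l 15922472) (l 15833704)))) (b (c (l 15929176) (c (l 15918648) (c (l 15913344) (l 15909656)))) (b (c (l 15924872) (c (l 15914280) (l 15906976))) (b (c (l 15922720) (l 15908440)) (b (c (l 15921632) (l 15907376)) (c (a (l 15950144) (l 15893680)) (c (a (l 15939944) (l 15882656)) (c (a (l 15934848) (l 15877136)) (c (l 15905688) (l 15902088))))))))))) (c (a (b (l 15869960) (b (l 15853544) (b (l 15845616) (b (l 15841728) (b (l 15839808) (c (l 15843232) (l 15814608))))))) (b (l 15863936) (b (l 15859296) (b (l 15857160) (b (l 15856096) (b (l 15855560) (a (l 15844000) (l 15867808)))))))) (b (c (a (l 15859272) (l 15853144)) (a (c (c (l 15856944) (l 15854496)) (l 15851824)) (c (c (l 15850760) (b (l 15852128) (l 15846312))) (b (l 15847048) (l 15843232))))) (b (a (c (l 15841928) (c (l 15836424) (c (l 15834344) (l 15832576)))) (c (l 15847728) (c (l 15842240)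 (c (l 15798232) (l 15838416))))) (a (c (b (l 15833880) (b (l 15829936) (b (l 15827984) (a (l 15839720) (l 15816072))))) (c (a (l 15842312) (a (l 15819440) (l 15813264))) (c (a (l 15837224) (l 15812320)) (a (l 15834624) (c (l 15810128) (l 15808728)))))) (c (b (l 15845560) (b (l 15844464) (b (l 15843920) (a (l 15832224) (l 15856336))))) (c (a (l 15829336) (a (l 15846984) (l 15858800))) (c (a (l 15825176) (l 15849304)) (c (b (l 15835896) (l 15834424)) (b (l 15835008) (a (l 15821072) (l 15845600)))))))))))), by decide +kernel⟩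

def k41_pm_012 : ∃ t, chk3 f_pm_012 t 30 28 1 = true :=
  ⟨(c (a (c (a (b (c (a (c (l 15987432) (l 15989256)) (c (l 15949008) (l 15960496))) (l 15972744)) (c (a (c (a (l 16122232) (l 16085616)) (l 16116640)) (b (c (l 16042832) (l 16055472)) (c (l 16120848) (l 16134328)))) (b (l 16067968) (l 16143168)))) (b (b (c (l 15862544) (a (l 15902640) (l 15827760))) (c (a (l 15944704) (l 15912816)) (a (l 15965216) (c (l 15938272) (l 15950352))))) (c (b (l 16009944) (l 16100864)) (a (b (c (l 16041440) (l 16043904)) (l 16133752)) (c (l 16073216) (l 16065664)))))) (b (a (l 15963424) (b (l 15884344) (l 15955104))) (a (b (l 16059960) (l 16115224)) (b (l 16037744) (l 16132048))))) (c (b (a (b (a (l 15825408) (l 15805312)) (l 15900160)) (b (l 15776904) (l 15862192))) (a (b (l 15989480) (l 16082704)) (b (l 15951344) (l 16044456)))) (a (b (c (a (a (l 15906632) (l 15903312)) (l 15790424)) (l 15902080)) (c (a (l 15982872) (c (l 16073976) (l 16087800))) (l 16087936))) (b (c (l 15870616) (a (l 15900984) (l 15871648))) (c (l 16013280)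 (a (l 16026160) (c (l 16074984) (l 16089216)))))))) (a (b (c (a (l 15950848) (b (l 15870432) (l 15942488))) (a (l 15938072) (l 15894856))) (a (c (b (l 16049160) (l 16126784)) (l 16079584)) (c (l 16053968) (l 16064528)))) (b (c (a (l 15892008) (l 15895624)) (a (l 15878400) (l 15882216))) (c (a (l 16080384) (l 16087016)) (a (l 16070160) (l 16077016)))))), by decide +kernel⟩

def k42_pm_012 : ∃ t, chk3 f_pm_012 t 30 29 1 = true :=
  ⟨(c (c (b (a (a (c (a (b (a (l 16192408) (l 16230432)) (l 16311704)) (b (l 16181184) (l 16326168))) (b (l 16233264) (l 16357080))) (c (b (l 16199496) (l 16323944)) (b (a (l 16213168) (l 16185008)) (a (l 16360472) (l 16332840))))) (b (a (l 16119472) (l 16060232)) (a (l 16266544) (l 16228744)))) (a (a (c (a (l 16388360) (l 16382808)) (l 16415520)) (c (l 16360496) (a (l 16399920) (l 16373248)))) (b (a (l 16361080) (l 16323912)) (a (l 16460936) (b (l 16451024) (l 16456480)))))) (b (a (b (a (l 16206560) (l 16234232)) (l 16295032)) (a (c (b (a (l 16217408) (l 16189096)) (a (l 16367584)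 (l 16339808))) (l 16180024)) (c (b (l 16206376) (l 16336552)) (b (a (l 16221928) (l 16193464)) (a (l 16354024) (l 16326096)))))) (a (a (l 16414344) (l 16426984)) (a (c (a (l 16411800) (l 16384976)) (l 16439448)) (c (b (l 16414504) (l 16451720)) (a (l 16403024) (b (l 16427608) (a (l 16473992) (l 16465088))))))))) (b (a (c (a (b (l 16219784) (l 16347624)) (l 16187136)) (b (l 16215608) (l 16347216))) (c (a (b (l 16235040) (l 16367720)) (b (l 16243496) (l 16377904))) (a (l 16211072) (l 16199648)))) (a (c (a (l 16412752) (l 16425624)) (l 16396728)) (a (b (l 16426008) (l 16473184)) (b (l 16438208) (c (a (l 16507816) (l 16486840)) (l 16464976))))))), by decide +kernel⟩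

def k43_pm_012 : ∃ t, chk3 f_pm_012 t 62 28 2 = true :=
  ⟨(a (c (b (a (l 15727400) (c (a (l 15758584) (c (a (l 15743048) (l 15740328)) (l 15757032))) (l 15787624))) (a (b (l 15921992) (l 16015024)) (c (a (l 15934536) (c (b (l 15871440) (l 15962928)) (l 15933928))) (l 15967632)))) (b (b (l 15805184) (l 15894368)) (b (l 15987520) (l 16084744)))) (c (a (c (b (a (c (l 15739920) (a (l 15750544) (l 15748672))) (l 15744872)) (a (c (l 15915320) (b (l 15880872) (l 15973408))) (l 15921624))) (b (a (l 15772736) (c (a (l 15758568) (l 15757568)) (l 15771744))) (a (l 15889728) (c (a (l 15832664) (l 15936728)) (l 15826808))))) (b (a (b (l 15711648) (l 15797088)) (l 15755040)) (b (c (l 15877536) (l 15896816)) (a (c (l 15969576) (l 15990440)) (l 15979264))))) (c (a (b (l 15802512) (l 15986512)) (b (a (c (l 15758784) (l 15796312)) (c (l 15776504) (l 15746272))) (b (a (l 15924224) (c (l 15911992) (l 15924984))) (a (l 15999320) (c (l 16005472) (a (l 16022136) (l 15996184))))))) (b (l 15828160) (b (l 15967264) (l 16001392)))))),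 by decide +kernel⟩

def k44_pm_012 : ∃ t, chk3 f_pm_012 t 124 29 2 = true :=
  ⟨(b (b (c (a (l 16093720) (c (a (l 16079224) (c (b (l 16034144) (l 16088080)) (l 16079408))) (l 16115488))) (l 16083880)) (a (l 16138728) (c (a (l 16226856) (c (c (b (l 16153264) (a (l 16219240) (l 16211408))) (l 16202528)) (l 16214376))) (l 16182296)))) (a (b (c (l 16249680) (l 16343256)) (c (l 16362984) (l 16440120))) (c (a (b (l 16284008) (l 16417472)) (c (c (b (l 16263352) (a (l 16376704) (c (l 16356720) (l 16365608)))) (l 16326712)) (l 16319936))) (b (l 16297912) (c (l 16451568) (l 16480200)))))), by decide +kernel⟩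

def k45_pm_012 : ∃ t, chk3 f_pm_012 t 125 29 2 = true :=
  ⟨(a (b (c (b (c (a (c (l 16059672) (b (l 16045424) (l 16099944))) (l 16043416)) (a (l 16100488) (b (c (l 16057192) (l 16073512)) (c (a (l 16111464) (l 16106296)) (l 16083112))))) (c (a (c (l 16170464) (b (a (l 16165008) (l 16158552)) (l 16210336))) (l 16158912)) (a (b (l 16190280) (l 16240136)) (c (l 16156768) (l 16195224))))) (b (b (l 16130472) (l 16142760)) (b (l 16178416) (l 16289856)))) (c (c (c (b (l 16246712) (b (a (l 16321656) (c (b (l 16282280) (l 16234344)) (l 16302200))) (a (c (b (l 16347240) (l 16340816)) (l 16368232)) (l 6)))) (a (a (l 16259392) (l 16287272)) (b (l 16247712) (l 16333840)))) (a (l 16263408) (c (a (l 16227200) (l 16297928)) (l 16218816)))) (b (l 16313600) (l 16383352)))) (b (c (a (b (a (b (l 16051728) (l 16030336)) (b (l 16048200) (l 16081736))) (l 16063896)) (b (l 16049432) (l 16124224))) (c (b (a (b (a (l 16096152) (l 16024872)) (c (l 16120480) (l 16140776))) (c (l 16077296) (b (l 16076936) (l 16107128)))) (a (l 16130016)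 (c (l 16153784) (l 16148200)))) (b (b (l 16118288) (l 16155424)) (l 16218816)))) (b (c (c (a (b (l 16197568) (b (l 16186192) (a (l 16212984) (l 6)))) (b (a (l 16137448) (b (l 16157392) (l 6))) (l 6))) (l 16190224)) (c (a (l 16215840) (c (l 16239256) (l 16213512))) (l 16306576))) (l 6)))), by decide +kernel⟩

def k46_pm_012 : ∃ t, chk3 f_pm_012 t 252 14 2 = true :=
  ⟨(b (c (b (b (l 15714192) (l 15800368)) (b (a (l 15889112) (b (l 15868464) (a (l 15912936) (l 15911120)))) (b (a (l 15956024) (l 15943352)) (l 15914536)))) (b (c (l 15782448) (a (c (l 15797136) (l 15812208)) (l 15696784))) (c (b (l 15917592) (b (l 15978576) (l 16008528))) (b (a (c (l 15935448) (l 15951944)) (c (l 15932904) (l 15923288))) (a (c (a (l 15962792) (l 16016512)) (l 16037712)) (c (l 16000936) (l 16012984))))))) (b (c (b (b (l 16000680) (l 16029424)) (c (c (a (b (l 16063392) (c (b (l 16089592) (a (l 16115296) (l 16056096))) (l 16106800))) (a (b (l 16045040) (c (b (c (l 16062752) (l 16072688)) (l 6)) (l 16087872))) (b (c (b (l 16003048)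 (c (l 16015016) (l 16022568))) (l 16037792)) (l 6)))) (l 16083320)) (l 16100664))) (c (b (l 16047352) (l 16124184)) (c (a (b (b (l 16063480) (l 16093568)) (l 16135336)) (l 16049104)) (a (b (l 16096688) (l 16175376)) (b (l 16022952) (l 16143600)))))) (a (a (b (b (c (c (c (c (b (l 16129744) (l 6)) (l 16152208)) (l 16163128)) (l 16181336)) (c (l 16206024) (l 16239224))) (l 6)) (l 6)) (l 6)) (l 6)))), by decide +kernel⟩

def k47_pm_012 : ∃ t, chk3 f_pm_012 t 253 14 2 = true :=
  ⟨(b (b (c (a (c (l 15766272) (l 15769752)) (b (l 15749648) (l 15835312))) (a (l 15793120) (b (l 15753360) (c (l 15770560) (l 15846584))))) (c (b (a (b (c (l 15873672) (l 15878480)) (c (l 15883680) (l 15909888))) (l 15898288)) (a (c (l 15937944) (l 15943680)) (l 15943024))) (b (a (l 15877168) (c (l 15897488) (l 15911704))) (c (l 15952968) (l 15970336))))) (b (b (c (c (c (b (a (l 15971968) (a (l 15958120) (b (l 15957216) (a (l 15966488) (l 6))))) (b (a (l 15969600) (c (a (c (l 15971856) (l 15977128)) (l 6)) (l 15979144))) (a (a (l 15986064)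 (b (l 15985048) (l 6))) (l 6)))) (l 16000216)) (a (b (l 15978248) (l 16007440)) (l 15989888))) (c (b (l 15988400) (l 15997264)) (l 16021680))) (a (a (a (c (c (c (b (c (b (l 16002520) (l 6)) (l 16035576)) (l 6)) (l 16058320)) (l 16074072)) (l 16109320)) (l 6)) (l 6)) (l 6))) (l 6))), by decide +kernel⟩

def k48_pm_012 : ∃ t, chk3 f_pm_012 t 127 14 2 = true :=
  ⟨(a (b (b (b (c (l 15795232) (a (l 15770168) (l 15796240))) (a (c (l 15857528) (c (l 15847352) (l 15825288))) (l 15864816))) (c (b (l 15911208) (c (c (b (a (l 15945192) (c (b (l 15949032) (a (l 15958208) (l 15938016))) (l 15953752))) (b (a (l 15941232) (a (a (l 15946064) (l 6)) (l 6))) (a (a (l 15950432) (a (l 15952952) (l 6))) (l 6)))) (l 15958560)) (l 15954088))) (c (l 15924776) (a (l 15919896) (l 15923224))))) (a (a (b (b (b (c (a (b (b (l 15953992) (l 6)) (l 6)) (l 6)) (l 15979080)) (l 6)) (l 6)) (l 6)) (l 6)) (l 6))) (b (b (b (c (a (l 15831608) (l 15843976)) (l 15822600)) (l 15876856)) (c (c (b (c (b (a (l 15917496) (c (b (l 15920672) (a (l 15929928)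 (l 15909400))) (l 15925288))) (b (a (l 15934328) (c (a (l 15916688) (l 6)) (l 15942392))) (a (c (a (l 15944208) (l 15923888)) (l 15945448)) (l 6)))) (l 15930248)) (a (a (c (b (c (b (l 15931000) (l 6)) (l 15960408)) (l 6)) (l 15970376)) (l 6)) (l 6))) (l 15949528)) (l 15940496))) (l 6))), by decide +kernel⟩

def k49_pm_012 : ∃ t, chk3 f_pm_012 t 62 14 3 = true :=
  ⟨(b (c (a (c (b (a (l 15898720) (l 15890208)) (a (l 16048752) (l 15977768))) (b (l 15896880) (l 16091320))) (b (c (l 15864504) (a (l 15896720) (l 15888056))) (c (b (l 16006784) (l 16084984)) (a (l 16071624) (b (l 16033304) (l 16071000)))))) (b (l 15847456) (a (l 16083968) (b (l 16039200) (l 16141856))))) (b (c (a (c (b (a (l 16226736) (l 16198128)) (a (l 16361744) (a (l 16358664) (l 16307064)))) (b (l 16250320) (l 16364216))) (c (b (a (l 16180296) (b (l 16161536) (l 16199624))) (a (l 16269864) (l 16264520))) (b (a (b (l 16223024) (l 16258888)) (b (l 16138648) (l 16240560))) (a (a (l 16334560) (l 16354672)) (l 16285928))))) (a (b (l 16245056) (l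 16360728)) (b (a (l 16249576) (l 16230184)) (l 16235744)))) (a (b (c (c (a (b (l 16491568) (l 16476888)) (a (c (l 16458680) (l 16453784)) (l 16438416))) (a (l 16486032) (l 16465352))) (a (l 16484408) (l 16463448))) (c (c (a (c (l 16474968) (l 16510712)) (l 16484456)) (l 16512360)) (l 16511568))) (c (b (c (l 16328008) (a (l 16417360) (l 16335712))) (a (c (l 16458216) (l 16470864)) (l 6))) (l 16359320))))), by decide +kernel⟩

def k50_pm_012 : ∃ t, chk3 f_pm_012 t 63 14 3 = true :=
  ⟨(b (a (c (b (a (c (l 15834800) (l 15871864)) (c (a (c (l 15816376) (l 15829776)) (l 15820608)) (a (l 15856776) (c (l 15795920) (l 15854728))))) (a (b (c (l 15880896) (l 16015496)) (a (l 16069144) (l 15976808))) (c (a (b (c (l 15945136) (l 15938864)) (c (l 15999296) (l 16014704))) (l 15955880)) (a (l 15953304) (c (l 15933352) (l 15993912)))))) (b (c (a (l 15895000) (l 15864048)) (l 15892680)) (c (a (b (l 16041192) (l 16080256)) (b (l 15988848) (l 16065624))) (b (l 16026784) (l 16098360))))) (c (b (a (a (c (b (l 15777560) (l 15856840))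 (b (l 15796832) (l 15835624))) (b (l 15793728) (l 15857008))) (b (l 15809232) (l 15857712))) (a (c (a (l 15931808) (l 15920408)) (a (l 15891400) (l 15929480))) (c (l 15931360) (l 15926192)))) (a (b (c (b (l 15822088) (a (l 15909504) (l 15882256))) (b (l 15842744) (l 15917112))) (c (a (l 15988504) (l 15912424)) (l 15996112))) (c (b (a (b (l 15806344) (l 15856760)) (l 15828608)) (a (l 15886784) (l 15924312))) (a (b (c (l 15846352) (l 15857112)) (l 15885912)) (b (c (l 15827616) (l 15833216)) (c (l 15924128) (l 15888680)))))))) (a (b (c (a (c (b (l 16027248) (l 16149288)) (l 16112032)) (a (c (b (c (l 16051464) (l 16067576)) (c (l 16131064) (l 16148000))) (l 16098144)) (b (c (l 16032392) (c (l 16053240) (l 16073048))) (l 6)))) (c (b (a (l 16183688) (l 16121256)) (a (l 16267288) (l 16204928))) (l 16158816))) (a (a (c (l 16244328) (l 16318880)) (l 6)) (l 6))) (b (b (b (a (c (c (l 15989112) (a (l 16016664) (l 6))) (c (l 15994376) (l 16061752))) (l 6)) (l 6)) (l 6)) (l 6)))), by decide +kernel⟩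

def k51_pm_012 : ∃ t, chk3 f_pm_012 t 30 60 2 = true :=
  ⟨(a (c (b (a (c (a (l 16390280) (l 16417824)) (l 16445256)) (c (l 16441048) (a (l 16400040) (l 16385776)))) (a (c (a (c (l 16331168) (l 16344680)) (l 16314936)) (l 16340376)) (c (l 16381896) (a (l 16337912) (l 16345496))))) (b (l 16353680) (l 16289664))) (a (b (c (l 16391376) (c (a (l 16388496) (l 16374384)) (l 16422000))) (c (a (l 16344392) (b (l 16405464) (c (l 16386544) (l 16377640)))) (a (l 16260192) (c (c (l 16332824) (a (l 16323480) (l 16317464))) (l 16325792))))) (c (b (a (l 16385248) (l 16456456)) (a (l 16367008) (c (c (a (l 16562392) (b (l 16600008) (c (b (l 16604296) (l 16545184)) (l 16590232)))) (l 16555664)) (l 16518520)))) (b (a (c (l 16354960) (a (l 16376520) (c (l 16348112) (l 16402048)))) (c (l 16426440) (c (l 16431640) (a (l 16397384) (l 16467312))))) (c (l 16369208) (a (c (l 16342592) (l 16356024)) (l 16400064))))))), by decide +kernel⟩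

def k52_pm_012 : ∃ t, chk3 f_pm_012 t 30 122 2 = true :=
  ⟨(a (c (c (a (b (c (a (c (l 16316792) (l 16299880)) (l 16323992)) (a (l 16288248) (l 16269384))) (c (a (c (l 16285024) (l 16292816)) (l 16312632)) (a (l 16272048) (c (l 16280760) (l 16259920))))) (b (c (l 16354376) (l 16314696)) (c (b (l 16351400) (l 16341016)) (b (l 16297224) (l 16296384))))) (a (b (l 16281712) (c (l 16247440) (l 16240680))) (c (b (l 16290904) (a (c (l 16251920) (l 16239656)) (l 16200360))) (a (l 16255024) (l 16257576))))) (a (l 16256072) (l 16248480))) (c (b (a (c (a (c (b (l 16387216) (l 16388416)) (b (l 16354216) (l 16322008))) (c (l 16423720) (l 16405080))) (a (l 16309512) (l 16364328))) (c (c (a (l 16433248) (a (c (b (l 16533816) (l 16536128)) (l 16538040)) (b (c (l 16541288) (l 16549320)) (l 6)))) (l 16409424)) (l 16452944))) (a (c (b (c (l 16347664) (a (l 16322000) (l 16411624))) (c (l 16371920) (l 16390360))) (c (b (l 16275248) (a (l 16302400) (l 16375216))) (l 16288104))) (a (c (c (c (a (l 16491760) (b (l 16511248) (l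 16520128))) (l 16468960)) (l 16432824)) (c (l 16427856) (l 16417712))) (l 6)))) (a (a (c (c (a (l 16212840) (l 16251832)) (l 16258976)) (l 16256152)) (c (l 16248944) (l 16291680))) (c (l 16397576) (a (l 16323824) (l 16344024)))))), by decide +kernel⟩

def k53_pm_012 : ∃ t, chk3 f_pm_012 t 30 123 2 = true :=
  ⟨(a (c (c (a (c (a (l 16202496) (l 16238888)) (a (b (l 16249032) (l 16194512)) (b (b (l 16242888) (l 16243672)) (l 16197632)))) (b (c (l 16265464) (a (l 16267088) (b (l 16262544) (l 16291992)))) (a (l 16223944) (l 16273560)))) (a (b (c (l 16231920) (l 16208776)) (c (l 16199352) (l 16190944))) (b (c (a (c (l 16242016) (l 16223096)) (b (l 16253640) (l 16195048))) (a (l 16203560) (b (a (l 16206520) (c (l 16223192) (l 16209408))) (a (c (l 16205448) (l 16188872)) (l 16198120))))) (a (c (b (c (l 16218528) (l 16212480)) (l 16189752)) (b (l 16193848) (l 16164080))) (c (l 16204360) (b (a (l 16203232) (l 16231768)) (c (l 16227920) (l 16217320)))))))) (c (b (a (l 16196640) (a (l 16191384) (l 16196912))) (a (c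 (b (l 16172456) (l 16167184)) (l 16154832)) (c (b (a (l 16167528) (l 16186144)) (a (l 16164920) (l 16195728))) (a (l 16151984) (l 16176424))))) (a (l 16171024) (a (l 16167400) (l 16184224))))) (a (c (c (c (a (l 16368976) (b (l 16436632) (a (l 16370832) (c (b (l 16445976) (l 6)) (l 16425864))))) (b (b (l 16357856) (l 16396264)) (l 16375480))) (b (c (b (l 16349184) (l 16320568)) (b (l 16282288) (l 16267416))) (c (l 16293984) (b (l 16322688) (l 16265064))))) (c (c (b (a (l 16240984) (l 16308968)) (c (b (a (l 16245304) (l 16318184)) (l 16296672)) (a (b (l 16230296) (l 16236840)) (l 16301392)))) (a (l 16228608) (c (a (l 16269296) (l 16303720)) (l 16278600)))) (l 16249312))) (a (b (a (c (c (c (c (b (l 16507232) (l 16503144)) (l 16509920)) (l 16488832)) (c (l 16428000) (l 16380168))) (c (l 16351512) (l 16317120))) (l 6)) (l 6)) (l 6)))), by decide +kernel⟩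

def k54_pm_012 : ∃ t, chk3 f_pm_012 t 30 124 2 = true :=
  ⟨(a (c (a (c (a (c (a (l 16062696) (l 16109656)) (l 16104592)) (b (c (l 16148984) (l 16134984)) (c (l 16105464) (a (l 16076520) (c (l 16093816) (l 16084032)))))) (b (l 16141920) (a (l 16081312) (l 16063232)))) (c (b (a (a (l 16161696) (l 16189728)) (l 16244984)) (a (l 16150400) (l 16225632))) (a (b (a (l 16144664) (l 16163760)) (c (l 16098688) (l 16118136))) (c (l 16202824) (l 16147784))))) (c (a (b (c (l 16145776) (b (l 16133296) (l 16127048))) (a (l 16093200) (b (l 16107992) (l 16082688)))) (b (c (b (a (a (l 16155264) (l 16167056)) (l 16203008)) (l 16175312)) (b (a (l 16137448) (l 16178256)) (a (l 16141440) (l 16188440)))) (c (l 16150536) (l 16156720)))) (a (b (l 16109584) (c (b (l 16075624) (a (l 16083312) (l 16087664))) (a (l 16071016) (b (l 16074456) (l 16067472))))) (b (b (l 16142928) (c (a (l 16117288) (l 16164496)) (l 16132912))) (c (b (l 16149080) (l 16151968)) (b (l 16127904) (l 16132072))))))) (a (a (c (c (c (b (a (l 16310440) (c (b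 (l 16357728) (l 16333424)) (l 16342256))) (b (a (l 16299944) (l 6)) (a (a (l 16264480) (l 6)) (l 6)))) (b (l 16309200) (l 16288504))) (l 16269336)) (c (c (b (b (c (l 16266744) (l 16251600)) (l 16212720)) (l 16231792)) (b (b (l 16227624) (l 16238064)) (l 16231584))) (b (c (l 16215216) (l 16209064)) (c (b (l 16224072) (l 16227352)) (l 16207112))))) (a (b (a (b (a (c (b (l 16353880) (l 6)) (c (c (l 16294848) (l 16255768)) (l 16240808))) (l 6)) (l 6)) (l 6)) (l 6)) (l 6))) (l 6))), by decide +kernel⟩

def k55_pm_012 : ∃ t, chk3 f_pm_012 t 30 125 2 = true :=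
  ⟨(a (c (a (c (a (a (b (l 16030600) (a (l 15983352) (b (l 15973704) (l 15956952)))) (b (c (l 16038448) (l 16028752)) (c (b (l 16011016) (l 16003152)) (l 15975648)))) (c (b (l 16076584) (l 16060584)) (a (b (l 16040488) (l 16021648)) (l 16060456)))) (a (b (l 16027840) (l 15989824)) (b (l 16048256) (l 16029696)))) (c (b (a (l 16135872) (c (a (l 16207264) (c (b (a (l 16245904) (l 16269552)) (a (l 16245808) (l 6))) (l 16239056))) (l 16198520))) (b (a (l 16125304) (c (a (c (a (l 16196928) (l 6)) (l 16189632)) (l 6)) (l 16188184))) (a (c (a (l 16115216) (c (c (l 16148216) (l 16157928)) (l 16146232))) (l 16104888)) (l 6)))) (c (a (a (l 16077248) (l 16108784)) (l 16164272)) (a (l 16086784) (a (l 16126472) (l 16158392)))))) (a (b (c (a (l 16032200) (l 16052784)) (a (c (l 16041304) (l 16040192)) (c (l 16062024) (b (l 16066248) (l 16058288))))) (a (c (l 15987736) (l 15991624)) (l 16031024))) (c (l 16094000) (b (c (l 16134440) (b (l 16138168) (l 16133672))) (l 16108160))))) (l 6)), by decide +kernel⟩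

def k56_pm_012 : ∃ t, chk3 f_pm_012 t 30 63 2 = true :=
  ⟨(a (a (b (a (c (c (c (a (a (l 15931520) (l 15945544)) (l 15991424)) (l 15966808)) (l 15962000)) (l 15954840)) (c (c (c (b (l 16051392) (a (l 16023624) (c (b (c (b (l 16078096) (l 16068560)) (l 16068440)) (a (c (l 16068800) (l 16034312)) (l 6))) (l 16055032)))) (a (l 16006136) (l 16038032))) (l 16011800)) (l 16005304))) (b (c (c (a (c (a (c (l 15925952) (l 15941672)) (c (b (l 15984928) (a (l 15970464) (c (b (l 15975472) (l 15977016)) (l 15986232)))) (l 15970248))) (l 15951608)) (a (b (c (c (a (l 16005712) (c (l 16047544) (l 16011528))) (l 16008408)) (l 15973264)) (l 6)) (l 6))) (l 15971800)) (l 15961744)) (a (b (c (c (c (a (c (a (l 15930584) (c (l 15929608) (l 15943312))) (l 15933920)) (a (b (c (l 15963448) (l 15955312)) (l 6)) (l 6))) (l 15943920)) (l 15938696)) (l 15928144)) (a (c (b (c (c (c (a (l 15905912) (c (l 15929944) (l 15918784))) (l 15929992)) (l 15927328)) (l 15921976)) (c (c (c (a (c (b (c (l 15907464) (l 15924720)) (c (l 15908560)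 (a (l 15919240) (l 6)))) (l 15922472)) (l 6)) (l 15927568)) (l 15925000)) (l 15919864))) (b (l 15911184) (b (l 15909144) (l 15887536)))) (l 6))) (l 6)))) (a (b (b (c (c (c (b (a (l 16112032) (a (b (l 16143216) (l 6)) (l 6))) (a (c (a (l 16107496) (c (l 16139120) (l 16123832))) (l 16099752)) (l 6))) (l 16098424)) (c (l 16074880) (l 16065440))) (l 16062424)) (l 6)) (l 6)) (l 6))) (l 6)), by decide +kernel⟩

def k57_pm_012 : ∃ t, chk3 f_pm_012 t 60 15 3 = true :=
  ⟨(a (b (b (b (l 16394520) (l 16326928)) (c (l 16206296) (l 16197760))) (b (c (b (a (l 16078224) (l 16079440)) (c (b (b (a (l 16028184) (l 16042200)) (c (a (l 16022104) (l 16048704)) (l 15975984))) (c (a (l 15997944) (l 16038784)) (b (a (l 15996088) (l 16034672)) (l 16009904)))) (b (l 16021288) (a (l 15975568) (l 16016856))))) (b (l 16068528) (l 15938976))) (b (c (c (b (l 15988008) (l 15965424)) (b (c (b (l 15994064) (l 15986648)) (l 15918248)) (l 15964688))) (b (l 15966376) (c (c (b (l 15967176) (l 15961520)) (l 15955280)) (l 15949336)))) (b (c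 (l 15949480) (c (c (l 15945720) (b (c (l 15950768) (l 15946744)) (l 15938304))) (b (l 15939080) (c (c (l 15937368) (l 15933408)) (l 15930360))))) (a (b (c (l 15913904) (c (l 15903760) (c (c (l 15901656) (b (l 15903056) (l 15897760))) (l 15896760)))) (c (b (l 15909792) (b (l 15907720) (b (l 15906688) (l 15906760)))) (c (c (l 15880856) (l 15897456)) (c (l 15893304) (c (b (l 15891832) (l 15888448)) (b (l 15890184) (c (l 15887000) (b (l 15886872) (l 15885040))))))))) (l 6)))))) (b (b (b (l 16384624) (l 16317960)) (b (c (l 16240728) (l 16232856)) (a (l 16155672) (c (l 16177440) (l 16168272))))) (b (c (b (a (l 16102416) (l 16147840)) (c (b (c (b (l 16117864) (l 16124416)) (l 16108240)) (c (l 16115248) (b (l 16090296) (l 16109992)))) (l 16036304))) (b (l 16115720) (l 16089296))) (a (b (b (c (c (l 16064944) (c (l 16066296) (l 16058936))) (l 16045008)) (l 6)) (l 6)) (l 6))))), by decide +kernel⟩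

def k58_pm_012 : ∃ t, chk3 f_pm_012 t 61 15 3 = true :=
  ⟨(a (b (b (b (c (l 16418752) (l 16414368)) (a (l 16311168) (c (l 16300160) (l 16314832)))) (b (a (c (l 16250440) (l 16242720)) (l 16282912)) (c (l 16243400) (l 16235400)))) (b (c (b (l 16224112) (l 6)) (l 16205136)) (l 6))) (b (b (b (a (c (l 16356240) (l 16393792)) (c (l 16425424) (l 16442488))) (c (l 16376744) (l 16371440))) (c (l 16310768) (l 16346728))) (l 6))), by decide +kernel⟩

def k59_pm_012 : ∃ t, chk3 f_pm_012 t 31 15 1 = true :=
  ⟨(a (b (a (b (b (c (c (c (c (a (l 16438648) (a (b (l 16468232) (b (l 16435272) (l 6))) (b (c (a (c (l 16406040) (l 16437872)) (c (l 16405208) (l 16417928))) (l 16376496)) (l 6)))) (a (l 16506520) (b (l 16476008) (l 16436736)))) (l 16446056)) (l 16424464)) (c (c (a (l 16435264) (l 16454152)) (l 16475136)) (l 16473160))) (a (c (c (c (a (b (l 16540512) (a (b (l 16551824) (l 6)) (l 6))) (a (c (b (l 16516728) (l 6)) (l 16599392)) (l 6))) (l 16549488)) (l 16474208)) (c (c (l 16434536) (l 16449344)) (l 16446344)))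 (l 6))) (l 6)) (l 6)) (l 6)) (l 6)), by decide +kernel⟩

theorem s60_pm_012 : ∃ t, chk3 f_pm_012 t 30 15 3 = true := ex3_a k57_pm_012 k58_pm_012

theorem s61_pm_012 : ∃ t, chk3 f_pm_012 t 30 62 2 = true := ex3_b k54_pm_012 k55_pm_012

theorem s62_pm_012 : ∃ t, chk3 f_pm_012 t 30 31 2 = true := ex3_b s61_pm_012 k56_pm_012

theorem s63_pm_012 : ∃ t, chk3 f_pm_012 t 30 61 2 = true := ex3_b k52_pm_012 k53_pm_012

theorem s64_pm_012 : ∃ t, chk3 f_pm_012 t 30 30 2 = true := ex3_b k51_pm_012 s63_pm_012

theorem s65_pm_012 : ∃ t, chk3 f_pm_012 t 30 15 2 = true := ex3_b s64_pm_012 s62_pm_012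

theorem s66_pm_012 : ∃ t, chk3 f_pm_012 t 30 15 1 = true := ex3_c s65_pm_012 s60_pm_012

theorem s67_pm_012 : ∃ t, chk3 f_pm_012 t 15 15 1 = true := ex3_a s66_pm_012 k59_pm_012

theorem s68_pm_012 : ∃ t, chk3 f_pm_012 t 31 14 3 = true := ex3_a k49_pm_012 k50_pm_012

theorem s69_pm_012 : ∃ t, chk3 f_pm_012 t 126 14 2 = true := ex3_a k46_pm_012 k47_pm_012

theorem s70_pm_012 : ∃ t, chk3 f_pm_012 t 63 14 2 = true := ex3_a s69_pm_012 k48_pm_012

theorem s71_pm_012 : ∃ t, chk3 f_pm_012 t 62 29 2 = true := ex3_a k44_pm_012 k45_pm_012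

theorem s72_pm_012 : ∃ t, chk3 f_pm_012 t 62 14 2 = true := ex3_b k43_pm_012 s71_pm_012

theorem s73_pm_012 : ∃ t, chk3 f_pm_012 t 31 14 2 = true := ex3_a s72_pm_012 s70_pm_012

theorem s74_pm_012 : ∃ t, chk3 f_pm_012 t 31 14 1 = true := ex3_c s73_pm_012 s68_pm_012

theorem s75_pm_012 : ∃ t, chk3 f_pm_012 t 30 14 1 = true := ex3_b k41_pm_012 k42_pm_012

theorem s76_pm_012 : ∃ t, chk3 f_pm_012 t 15 14 1 = true := ex3_a s75_pm_012 s74_pm_012

theorem s77_pm_012 : ∃ t, chk3 f_pm_012 t 15 7 1 = true := ex3_b s76_pm_012 s67_pm_012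

theorem s78_pm_012 : ∃ t, chk3 f_pm_012 t 29 127 3 = true := ex3_b k39_pm_012 k40_pm_012

theorem s79_pm_012 : ∃ t, chk3 f_pm_012 t 29 63 3 = true := ex3_b k38_pm_012 s78_pm_012

theorem s80_pm_012 : ∃ t, chk3 f_pm_012 t 29 31 3 = true := ex3_b k37_pm_012 s79_pm_012

theorem s81_pm_012 : ∃ t, chk3 f_pm_012 t 29 31 1 = true := ex3_c k36_pm_012 s80_pm_012

theorem s82_pm_012 : ∃ t, chk3 f_pm_012 t 29 15 1 = true := ex3_b k35_pm_012 s81_pm_012

theorem s83_pm_012 : ∃ t, chk3 f_pm_012 t 115 15 1 = true := ex3_b k33_pm_012 k34_pm_012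

theorem s84_pm_012 : ∃ t, chk3 f_pm_012 t 57 15 1 = true := ex3_a k32_pm_012 s83_pm_012

theorem s85_pm_012 : ∃ t, chk3 f_pm_012 t 56 15 1 = true := ex3_b k30_pm_012 k31_pm_012

theorem s86_pm_012 : ∃ t, chk3 f_pm_012 t 28 15 1 = true := ex3_a s85_pm_012 s84_pm_012

theorem s87_pm_012 : ∃ t, chk3 f_pm_012 t 14 15 1 = true := ex3_a s86_pm_012 s82_pm_012

theorem s88_pm_012 : ∃ t, chk3 f_pm_012 t 14 7 1 = true := ex3_b k29_pm_012 s87_pm_012

theorem s89_pm_012 : ∃ t, chk3 f_pm_012 t 7 7 1 = true := ex3_a s88_pm_012 s77_pm_012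

theorem s90_pm_012 : ∃ t, chk3 f_pm_012 t 63 13 1 = true := ex3_c k27_pm_012 k28_pm_012

theorem s91_pm_012 : ∃ t, chk3 f_pm_012 t 62 13 1 = true := ex3_c k25_pm_012 k26_pm_012

theorem s92_pm_012 : ∃ t, chk3 f_pm_012 t 31 13 1 = true := ex3_a s91_pm_012 s90_pm_012

theorem s93_pm_012 : ∃ t, chk3 f_pm_012 t 31 6 1 = true := ex3_b k24_pm_012 s92_pm_012

theorem s94_pm_012 : ∃ t, chk3 f_pm_012 t 30 13 1 = true := ex3_c k22_pm_012 k23_pm_012

theorem s95_pm_012 : ∃ t, chk3 f_pm_012 t 30 6 1 = true := ex3_b k21_pm_012 s94_pm_012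

theorem s96_pm_012 : ∃ t, chk3 f_pm_012 t 15 6 1 = true := ex3_a s95_pm_012 s93_pm_012

theorem s97_pm_012 : ∃ t, chk3 f_pm_012 t 14 6 1 = true := ex3_b k19_pm_012 k20_pm_012

theorem s98_pm_012 : ∃ t, chk3 f_pm_012 t 7 6 1 = true := ex3_a s97_pm_012 s96_pm_012

theorem s99_pm_012 : ∃ t, chk3 f_pm_012 t 7 3 1 = true := ex3_b s98_pm_012 s89_pm_012

theorem s100_pm_012 : ∃ t, chk3 f_pm_012 t 7 2 1 = true := ex3_a k17_pm_012 k18_pm_012

theorem s101_pm_012 : ∃ t, chk3 f_pm_012 t 7 1 1 = true := ex3_b s100_pm_012 s99_pm_012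

theorem s102_pm_012 : ∃ t, chk3 f_pm_012 t 54 31 3 = true := ex3_b k14_pm_012 k15_pm_012

theorem s103_pm_012 : ∃ t, chk3 f_pm_012 t 54 15 3 = true := ex3_b k13_pm_012 s102_pm_012

theorem s104_pm_012 : ∃ t, chk3 f_pm_012 t 27 15 3 = true := ex3_a s103_pm_012 k16_pm_012

theorem s105_pm_012 : ∃ t, chk3 f_pm_012 t 27 15 2 = true := ex3_b k11_pm_012 k12_pm_012

theorem s106_pm_012 : ∃ t, chk3 f_pm_012 t 27 15 1 = true := ex3_c s105_pm_012 s104_pm_012

theorem s107_pm_012 : ∃ t, chk3 f_pm_012 t 13 15 1 = true := ex3_a k10_pm_012 s106_pm_012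

theorem s108_pm_012 : ∃ t, chk3 f_pm_012 t 13 7 1 = true := ex3_b k9_pm_012 s107_pm_012

theorem s109_pm_012 : ∃ t, chk3 f_pm_012 t 12 15 1 = true := ex3_a k7_pm_012 k8_pm_012

theorem s110_pm_012 : ∃ t, chk3 f_pm_012 t 12 7 1 = true := ex3_b k6_pm_012 s109_pm_012

theorem s111_pm_012 : ∃ t, chk3 f_pm_012 t 6 7 1 = true := ex3_a s110_pm_012 s108_pm_012

theorem s112_pm_012 : ∃ t, chk3 f_pm_012 t 6 6 1 = true := ex3_a k4_pm_012 k5_pm_012

theorem s113_pm_012 : ∃ t, chk3 f_pm_012 t 6 3 1 = true := ex3_b s112_pm_012 s111_pm_012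

theorem s114_pm_012 : ∃ t, chk3 f_pm_012 t 6 1 1 = true := ex3_b k3_pm_012 s113_pm_012

theorem s115_pm_012 : ∃ t, chk3 f_pm_012 t 3 1 1 = true := ex3_a s114_pm_012 s101_pm_012

theorem s116_pm_012 : ∃ t, chk3 f_pm_012 t 5 1 1 = true := ex3_a k1_pm_012 k2_pm_012

theorem s117_pm_012 : ∃ t, chk3 f_pm_012 t 2 1 1 = true := ex3_a k0_pm_012 s116_pm_012

theorem s118_pm_012 : ∃ t, chk3 f_pm_012 t 1 1 1 = true := ex3_a s117_pm_012 s115_pm_012

theorem c_pm_012 : CertNX 0 536870912 0 536870912 1046898278 26843546 3 false true false .pnp 0 1 2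
    ndN0q0 ndN0q2 pcN1 cut_pm_012 Ext.none :=
  certNX2 (fam := false) (s1 := true) (s2 := false) (a := 0) (b := 1) (c := 2) (cn := .pnp) (n1 := ndN0q0) (n2 := ndN0q2) (pc := pcN1) (cut := cut_pm_012) (xt := Ext.none) (P1 := 0) (W1 := 536870912) (P2 := 0) (W2 := 536870912) (P3 := 1046898278) (W3 := 26843546) (N0 := 3)
    rfl (fun _ => rfl) s118_pm_012

end Pool.Agent.Strip051.G.IE1.Tab.C.NB00

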