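import Pool.Agent.Strip051.G.IE1.Tab

/-! # Certificates N41 (generated) -/

set_option linter.all false
set_option maxRecDepth 100000

namespace Pool.Agent.Strip051.G.IE1.Tab.C.NB00

open Pool.Agent.Strip051.PB Pool.Agent.Strip051.PB.T
open Pool.Agent.Strip051.G.IE1.Tab

noncomputable def cut_pm_022 : Cut := Cut.of [[⟨0, 0, 0, 67108864⟩, ⟨1, 1, 0, 67108864⟩, ⟨2, 1, 0, 67108864⟩]]

noncomputable def f_pm_022 : ℕ → ℕ → ℕ → ℕ → Bool := onCell 0 536870912 0 536870912 1046898278 26843546
    (rowNX 3 0 false true false .pp 0 2 2 (qsf 0 536870912 0 536870912 2) ndN0q0 ndN0q2 pcN2 cut_pm_022 Ext.none)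

def k0_pm_022 : ∃ t, chk3 f_pm_022 t 16 4 1 = true :=
  ⟨(b (a (c (a (b (l 15942136) (l 15924688)) (b (a (l 16135272) (a (l 16231280) (b (l 16284896) (l 16279080)))) (a (l 16157376) (b (a (l 16240736) (l 16273152)) (a (b (l 16250768) (l 16259720)) (l 16265896)))))) (a (c (b (l 15927368) (l 15952536)) (c (b (l 15923352) (l 15948864)) (b (a (l 15761968) (l 15981280)) (a (c (l 15875816) (l 15871712)) (l 15943096))))) (c (a (b (l 16132432) (l 16155136)) (b (a (l 16242496) (a (l 16288312) (l 16300944))) (a (b (l 16252192) (l 16265424)) (b (l 16283640) (l 16276120))))) (a (c (b (l 16025312) (c (l 16161472) (l 16140480))) (l 16143632)) (b (a (l 16240160) (a (l 16293904) (l 16297232))) (a (b (l 16250024) (b (l 16260504) (l 16269856))) (b (l 16290832) (l 16283120)))))))) (c (c (b (l 16268576) (l 16251800)) (c (b (l 16283520) (l 16266456)) (a (l 16259752) (b (l 16287272) (l 16228352))))) (c (c (a (b (l 16298176) (l 16258400)) (b (l 16267296) (a (l 16283472) (l 16267464)))) (a (b (l 16257424) (c (l 16287296) (l 16278384)))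 (l 16256848))) (l 16265128)))) (c (a (b (a (l 16044080) (a (l 16177328) (l 16266048))) (a (l 16002136) (l 16185152))) (c (b (l 16256728) (l 16281136)) (a (l 16253600) (b (l 16185632) (l 16280688))))) (a (c (a (b (l 16032192) (l 16077088)) (b (a (l 16218768) (l 16276864)) (a (l 16266608) (l 16284728)))) (a (c (b (l 16029640) (a (l 16078032) (l 16201064))) (a (b (l 15829984) (l 15927200)) (b (l 16044008) (a (l 16107056) (l 16232568))))) (c (a (b (c (l 16225832) (l 16226104)) (c (l 16274184) (l 16274656))) (b (l 16281408) (l 16289296))) (b (l 16237696) (l 16271888))))) (c (a (c (l 16287432) (b (l 16239768) (l 16299320))) (c (b (l 16216904) (l 16291376)) (l 16270880))) (l 16271440))))), by decide +kernel⟩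

def k1_pm_022 : ∃ t, chk3 f_pm_022 t 17 4 1 = true :=
  ⟨(c (b (a (c (c (l 16238472) (a (l 16267896) (b (l 16268696) (l 16253800)))) (c (a (b (l 16294208) (l 16257616)) (a (b (l 16277464) (l 16220008)) (l 16225392))) (a (a (b (l 16290112) (l 16273768)) (l 16224136)) (l 16217792)))) (c (c (a (a (l 16293264) (l 16232344)) (c (l 16109800) (l 16193688))) (a (b (a (l 16221512) (l 16214296)) (l 16088616)) (l 16180760))) (l 16186656))) (a (c (c (b (l 16264816) (l 16315488)) (a (l 16293624) (b (a (l 16301712) (l 16290088)) (l 16345984)))) (a (c (b (l 16270576) (l 16337920)) (a (b (l 16286280) (l 16329472)) (l 16253176))) (c (b (a (l 16245616) (l 16232368)) (l 16204488)) (l 16253000)))) (c (a (c (b (a (l 16298256) (l 16214344)) (l 16343712)) (a (c (l 16219976) (l 16173336)) (b (l 16210072) (l 16275592)))) (c (b (c (a (l 16253864) (l 16173416)) (l 16131440)) (a (l 16235480) (l 16254952))) (l 16149568))) (b (l 16189688) (l 16256360))))) (b (c (b (l 16210448) (l 16197624)) (l 16157568)) (b (a (l 16166536) (l 16180536))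 (a (l 16282696) (l 16249112))))), by decide +kernel⟩

def k2_pm_022 : ∃ t, chk3 f_pm_022 t 9 4 1 = true :=
  ⟨(a (b (a (c (a (c (l 16161432) (l 16154688)) (b (l 16181376) (l 16180712))) (b (l 16138544) (a (l 16138992) (l 16167216)))) (c (b (l 16336768) (l 16329856)) (l 16212872))) (a (c (b (a (b (l 16144824) (l 16168304)) (b (l 16183864) (l 16214512))) (a (c (l 16192400) (l 16234216)) (a (l 16178760) (l 16233656)))) (b (a (l 16141896) (b (l 16170480) (l 16203272))) (a (l 16225896) (l 16295528)))) (b (c (b (l 16387176) (a (l 16331136) (l 16350792))) (l 16232784)) (c (c (l 16269080) (l 16287712)) (l 16322104))))) (b (a (c (b (l 16251744) (l 16219432)) (l 16056176)) (c (b (l 16003608) (l 15950632)) (b (l 15982176) (l 15927280)))) (c (b (a (b (l 16192200) (l 16081200)) (l 15804952)) (a (c (l 16082072) (l 16010736)) (b (l 15829568) (l 15755512)))) (b (a (l 16055112) (l 15863168)) (a (l 15997440) (c (b (l 15808880) (l 15733128)) (l 15759464))))))), by decide +kernel⟩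

def k3_pm_022 : ∃ t, chk3 f_pm_022 t 16 5 1 = true :=
  ⟨(b (c (a (b (a (a (l 16132992) (l 16250936)) (l 16289960)) (l 16290416)) (c (l 16175200) (a (l 16338232) (b (l 16346392) (l 16388088))))) (a (c (a (b (a (l 16167552) (l 16266424)) (l 16289784)) (c (l 16306048) (l 16314880))) (a (b (c (a (l 16184896) (l 16268800)) (a (c (l 16205792) (a (l 16122376) (l 16228424))) (a (l 16215072) (l 16279968)))) (c (l 16290624) (a (c (l 16278424) (l 16276128)) (l 16292616)))) (c (a (b (l 16286272) (l 16320360)) (l 16327056)) (l 16309392)))) (c (a (c (l 16288872) (b (l 16330456) (l 16361056))) (c (b (l 16357624) (l 16399040)) (l 16363816))) (l 16330112)))) (c (a (b (l 16368984) (l 16302712)) (c (b (l 16399232) (a (l 16361504) (l 16351792))) (b (a (l 16396200) (l 16305872)) (a (l 16347528) (c (l 16329256) (l 16319152)))))) (a (a (c (l 16340016) (c (b (l 16343360) (l 16424144)) (a (c (l 16367104) (a (l 16294360) (l 16370968))) (b (l 16348824) (l 16330184))))) (c (b (l 16397664) (a (l 16385736) (l 16315048))) (a (c (c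 (l 16366456) (l 16239096)) (l 16410920)) (b (l 16410336) (l 16267080))))) (c (c (a (b (l 16382640) (l 16332776)) (b (l 16209616) (c (l 16309360) (l 16317640)))) (a (b (a (l 16382512) (l 16367736)) (a (l 16222096) (l 16320160))) (l 16355000))) (b (l 16380168) (l 16331840)))))), by decide +kernel⟩

def k4_pm_022 : ∃ t, chk3 f_pm_022 t 17 5 1 = true :=
  ⟨(c (b (a (a (c (l 16287800) (c (l 16280912) (b (l 16355760) (l 16394360)))) (c (c (l 16357232) (l 16327520)) (c (a (l 16270464) (l 16385520)) (l 16375408)))) (c (b (a (c (l 16406728) (l 16291752)) (c (c (l 16174768) (l 16330600)) (l 16322984))) (a (c (a (l 16390872) (l 16419920)) (l 16297296)) (c (a (c (l 16440680) (l 16410520)) (l 16416128)) (l 16415024)))) (b (l 16327176) (l 16415656)))) (b (a (a (c (l 16372192) (c (l 16343624) (l 16313048))) (c (c (l 16358936) (l 16342072)) (c (l 16255432) (l 16387512)))) (c (a (c (a (b (l 16369144) (l 16341848)) (b (l 16379024) (l 16332024))) (a (c (l 16345960) (l 16378752)) (l 16254568))) (c (a (l 16201208) (l 16351720))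 (l 16342872))) (a (l 16381256) (l 16340104)))) (a (c (a (c (b (l 16362192) (c (l 16368744) (l 16335200))) (l 16317144)) (c (b (a (l 16360912) (l 16333800)) (a (b (l 16345352) (l 16327016)) (l 16286968))) (b (a (l 16295896) (l 16229632)) (a (l 16220192) (c (l 16245672) (l 16239400)))))) (a (c (l 16255800) (a (l 16260384) (l 16323192))) (c (b (a (l 16291096) (l 16310856)) (a (l 16167456) (l 16274376))) (l 16272432)))) (c (a (a (c (c (l 16270632) (l 16193704)) (c (l 16184096) (l 16221688))) (c (l 16088704) (c (l 16218344) (l 16261112)))) (c (c (l 16084560) (l 16168936)) (l 16093496))) (a (l 16208488) (c (b (l 16259704) (l 16197232)) (l 16204112))))))) (b (a (b (l 16342520) (l 16410096)) (b (l 16321880) (l 16412784))) (a (b (l 16378776) (a (l 16327256) (l 16225352))) (b (l 16226352) (l 16228240))))), by decide +kernel⟩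

def k5_pm_022 : ∃ t, chk3 f_pm_022 t 9 5 1 = true :=
  ⟨(a (b (c (c (a (b (a (l 16207192) (l 16356280)) (a (l 16408304) (l 16270152))) (b (l 16182936) (l 16091160))) (a (b (l 16215672) (l 16145600)) (b (a (l 16317032) (l 16168312)) (a (l 16102632) (l 15897488))))) (a (b (l 16254920) (l 16361712)) (b (l 16206728) (l 15948256)))) (c (a (c (b (a (b (l 16336792) (l 16260328)) (l 16162944)) (a (l 16117744) (l 16059288))) (b (a (c (l 16274472) (l 16276216)) (b (l 16173984) (l 16044896))) (a (c (b (l 16201704) (l 16134952)) (l 16050072)) (c (l 15958696) (b (l 16099672) (l 15967784)))))) (c (b (l 15969720) (l 15774784)) (b (c (l 15925320) (a (l 16027376) (l 15882200))) (b (a (l 15869600) (l 15769728)) (l 15670864))))) (c (a (b (l 16206608) (a (l 16133248) (c (l 15949656) (l 16037048)))) (b (c (l 15808944) (l 15944624)) (c (a (l 15684112) (b (l 15760032) (l 15683672))) (a (l 15876928) (l 15716296))))) (a (l 16003632) (l 15859672))))) (b (c (a (c (l 15808520) (b (l 15892472) (l 15789720))) (b (l 15644816) (l 15491456)))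 (a (c (b (l 15923744) (c (l 15694064) (l 15772024))) (l 15834632)) (c (b (l 15389160) (c (l 15470272) (l 15459368))) (b (l 15603328) (l 15231680))))) (c (b (a (l 15477592) (l 15332576)) (a (c (l 15491144) (l 15475104)) (c (l 15180784) (l 15155288)))) (b (c (a (c (a (l 15710256) (l 15544464)) (a (l 15704640) (l 15532856))) (l 15154536)) (a (l 15606512) (c (a (l 15351400) (l 15215792)) (l 15227152)))) (c (a (c (l 15465488) (a (b (l 15581360) (l 15501512)) (l 15368488))) (l 15131288)) (a (c (a (l 15534544) (b (l 15397992) (l 15313080))) (l 15432392)) (c (a (l 15013696) (l 15042000)) (a (l 15125032) (l 14942672))))))))), by decide +kernel⟩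

def k6_pm_022 : ∃ t, chk3 f_pm_022 t 5 2 1 = true :=
  ⟨(a (a (b (b (c (b (a (l 15826416) (l 15658056)) (a (l 15752536) (l 15562880))) (b (l 15668480) (l 15539064))) (b (c (a (l 15673064) (l 15461976)) (l 15382808)) (c (b (a (l 15602152) (l 15375224)) (a (l 15532432) (l 15314120))) (b (a (c (l 15575064) (l 15556488)) (l 15330264)) (a (l 15493160) (l 15266880)))))) (b (c (b (l 15200624) (l 15144560)) (a (c (l 15305240) (b (l 15363568) (c (l 15204968) (l 15191560)))) (b (l 15140144) (l 14970904)))) (c (b (l 14977304) (l 549784853383)) (a (c (l 14966248) (a (b (l 14938624) (l 14909608)) (l 14769768))) (l 1))))) (b (b (l 1) (l 1)) (l 1))) (l 1)), by decide +kernel⟩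

def k7_pm_022 : ∃ t, chk3 f_pm_022 t 16 12 2 = true :=
  ⟨(a (b (b (a (l 16377200) (l 16337112)) (a (l 16338536) (l 16313664))) (c (c (b (a (l 16309904) (l 16299560)) (a (l 16287336) (c (a (l 16288152) (b (l 16296176) (l 16306872))) (l 16252672)))) (l 16266648)) (b (l 16295712) (l 16268752)))) (c (b (a (c (b (l 16332376) (l 16297768)) (l 16316832)) (b (c (l 16316712) (l 16311512)) (c (c (a (l 16343472) (l 16324208)) (a (l 16307200) (l 16309512))) (a (l 16290480) (l 16236448))))) (a (c (a (b (l 16261456) (c (b (l 16318640) (l 16256368)) (b (l 16277448) (l 16255616)))) (b (c (l 16310384) (l 16294552)) (b (c (l 16306464) (l 16288984)) (c (l 16305832) (l 16282328))))) (b (l 16277808) (c (a (b (l 16260888) (l 16246520)) (b (l 16233040) (l 16238880))) (a (l 16249168) (l 16185776))))) (c (b (a (b (c (l 16342896) (l 16299936)) (c (l 16309848) (l 16298184))) (b (l 16308464) (l 16283256))) (c (l 16212144) (a (l 16247784) (l 16233864)))) (b (a (b (l 16268496) (l 16229232)) (c (l 16251968) (l 16223584))) (c (b (a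 (l 16240480) (l 16228312)) (l 16110792)) (a (l 16201344) (b (l 16185704) (l 16175240)))))))) (b (a (l 16302912) (a (l 16279128) (c (l 16248440) (b (l 16262744) (l 16208712))))) (a (b (l 16262392) (a (l 16240000) (l 16169344))) (a (b (l 16205688) (l 16166064)) (c (b (l 16199168) (l 16113344)) (c (l 16136744) (l 16052848)))))))), by decide +kernel⟩

def k8_pm_022 : ∃ t, chk3 f_pm_022 t 16 12 3 = true :=
  ⟨(a (c (b (a (l 16335024) (a (l 16319928) (l 16219096))) (a (l 16287624) (c (l 16266640) (a (l 16265832) (l 16248104))))) (a (c (b (l 16245840) (a (l 16288888) (l 16274120))) (b (a (c (l 16361768) (a (l 16328096) (l 16354520))) (c (a (l 16296104) (l 16320912)) (l 16331088))) (a (c (l 16285576) (a (b (l 16300584) (l 16274184)) (l 16282896))) (c (a (l 16254400) (l 16264352)) (l 16269680))))) (c (b (a (c (l 16309544) (l 16244472)) (l 16272960)) (a (c (l 16257256) (l 16212784)) (c (l 16219368) (l 16247816)))) (b (l 16305664) (l 16251536))))) (c (a (c (b (l 16245016) (b (l 16182496) (a (l 16218560) (c (l 16183760)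 (l 16153992))))) (b (a (c (l 16277528) (l 16283080)) (l 16233792)) (a (a (c (l 16223736) (l 16226120)) (c (l 16150120) (l 16188400))) (b (l 16190024) (c (a (l 16166896) (l 16188416)) (l 16197616)))))) (b (c (a (c (l 16254912) (l 16267432)) (c (b (l 16275120) (l 16220976)) (l 16276832))) (l 16278152)) (c (a (b (c (l 16201248) (a (l 16216336) (l 16222536))) (c (l 16139536) (l 16151904))) (c (a (l 16094216) (l 16159128)) (l 16170376))) (b (l 16214416) (l 16149744))))) (b (l 16217728) (a (b (l 16245896) (l 16181896)) (b (l 16209656) (l 16143968)))))), by decide +kernel⟩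

def k9_pm_022 : ∃ t, chk3 f_pm_022 t 34 12 2 = true :=
  ⟨(a (c (b (b (c (a (c (l 16357760) (l 16323256)) (b (l 16299040) (l 16320912))) (a (l 16289944) (l 16216160))) (b (c (a (l 16306616) (l 16294952)) (l 16098480)) (c (l 16216176) (c (l 16203312) (l 16200104))))) (c (b (c (l 16232824) (l 16145464)) (l 16144544)) (a (b (c (l 16211312) (l 16187432)) (c (l 16138288) (b (l 16161816) (l 16140584)))) (b (c (l 16188248) (l 16127552)) (c (l 16116992) (l 16074728)))))) (b (a (c (l 16103552) (b (l 16155120) (c (l 16202080) (l 16227840)))) (c (b (l 16210880) (l 16168504)) (b (l 16265576) (l 16202016)))) (c (c (b (l 16003040) (a (l 16099480) (c (l 16068472) (b (l 16049808) (l 16036656))))) (a (l 16075616) (b (l 16099656) (a (l 15990728) (l 16037256))))) (c (a (l 16100272) (l 16094072)) (l 16071816))))) (c (b (c (b (l 16209136) (l 16181248)) (c (b (a (l 16237488) (l 16195416)) (a (l 16188368) (l 16137928))) (b (a (l 16194184) (l 16189472)) (a (l 16068848) (l 16144432))))) (c (l 15885888) (c (a (l 15954016) (l 15861872))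 (a (b (c (l 16110440) (l 16095552)) (l 15949824)) (b (l 16063312) (l 15996320)))))) (c (b (c (a (l 16109192) (b (l 16206656) (c (l 16160384) (l 16154880)))) (l 16085584)) (c (a (b (c (l 16048048) (l 16089096)) (c (a (l 16040192) (l 16038128)) (l 16047632))) (b (c (l 16112248) (l 16114128)) (c (l 16040984) (l 16035472)))) (b (a (l 16081592) (l 16103392)) (a (c (b (l 16063568) (l 16048344)) (l 16032720)) (l 15963032))))) (b (l 16196160) (b (l 16092552) (c (b (l 16046360) (a (l 16026472) (l 16014608))) (l 16019448))))))), by decide +kernel⟩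

def k10_pm_022 : ∃ t, chk3 f_pm_022 t 35 12 2 = true :=
  ⟨(c (b (a (a (c (l 16034320) (c (l 16043976) (b (l 16211672) (l 16134488)))) (c (c (l 16012600) (l 16094344)) (c (l 16083928) (l 16162360)))) (c (c (a (l 16041144) (l 16042576)) (a (l 16068544) (l 16060816))) (l 16009112))) (c (a (a (c (l 15945688) (b (l 15985216) (l 15855744))) (c (b (l 15929872) (l 15850680)) (l 15882472))) (c (a (l 15882512) (a (l 15849848) (l 15803512))) (a (b (l 15964824) (l 15885472)) (l 15901536)))) (a (c (a (l 15873352) (b (l 16013704) (l 15905200))) (a (b (l 16077400) (l 15981568)) (l 15994872))) (l 15863800)))) (b (b (c (a (l 16088264) (l 16049488)) (l 16083024)) (c (a (c (l 16137560) (l 16102544)) (l 16062232)) (a (l 16098576) (c (l 16054264) (l 16042272))))) (c (b (a (c (l 16070848) (b (l 16079784) (l 16048328))) (l 15979496)) (a (c (l 15984224) (l 15990536)) (l 15892384))) (b (a (c (a (l 16052552) (l 16035128)) (l 16026096)) (c (l 15964896) (b (l 15993160) (l 15960704)))) (a (b (c (l 15960600) (l 15986696)) (c (l 15968672)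 (a (l 15961184) (l 15942920)))) (c (l 15900528) (b (l 15925568) (l 15886440)))))))), by decide +kernel⟩

def k11_pm_022 : ∃ t, chk3 f_pm_022 t 17 12 3 = true :=
  ⟨(b (a (a (b (l 16253336) (l 16218696)) (l 16187920)) (c (l 16090696) (l 16081984))) (c (a (l 16083400) (c (a (l 15920720) (b (c (l 15964312) (l 15946448)) (c (a (l 15848560) (b (l 15900128) (l 15865096))) (l 15778304)))) (l 15939680))) (l 15982400))), by decide +kernel⟩

def k12_pm_022 : ∃ t, chk3 f_pm_022 t 32 26 2 = true :=
  ⟨(c (b (a (c (b (c (a (l 16277392) (l 16258904)) (l 16268328)) (c (a (l 16309168) (l 16320960)) (l 16293856))) (l 16277016)) (c (b (b (c (l 16219280) (l 16262480)) (a (l 16200880) (c (l 16321816) (l 16273160)))) (a (c (l 16320752) (b (l 16282456) (l 16305280))) (c (a (b (l 16344568) (l 16360168)) (l 16341016)) (b (l 16295712) (l 16317936))))) (b (b (l 16244752) (l 16183224)) (a (l 16270752) (c (a (l 16223616) (l 16261928)) (l 16250120)))))) (a (c (c (b (a (l 16314088) (l 16376704)) (a (l 16372880) (a (b (l 16416696) (l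 16399448)) (b (l 16399960) (l 16435640))))) (b (a (l 16327176) (c (l 16336200) (l 16318896))) (a (c (l 16372712) (l 16357168)) (a (b (l 16359128) (l 16385960)) (l 16359760))))) (a (l 16335832) (b (l 16309072) (c (a (l 16278832) (b (l 16328616) (l 16343920))) (l 16331456))))) (c (b (a (c (a (b (l 16380320) (l 16379656)) (b (l 16380408) (l 16391040))) (a (l 16295568) (l 16344936))) (c (l 16357136) (l 16341224))) (c (l 16315416) (a (l 16360696) (l 16321776)))) (b (a (a (b (l 16293264) (l 16285352)) (b (l 16286752) (l 16277216))) (c (l 16297744) (l 16267040))) (c (a (l 16294016) (l 16294312)) (a (l 16307888) (l 16229504))))))) (b (a (l 16272872) (b (l 16238776) (a (l 16265488) (l 16245192)))) (a (b (l 16311440) (a (l 16346280) (l 16328456))) (b (a (l 16286664) (l 16257752)) (l 16285408))))), by decide +kernel⟩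

def k13_pm_022 : ∃ t, chk3 f_pm_022 t 33 26 2 = true :=
  ⟨(c (b (a (c (b (a (b (c (l 16312856) (l 16277344)) (l 16249128)) (c (l 16273720) (l 16268384))) (c (l 16287392) (a (l 16301680) (l 16275464)))) (c (b (a (b (l 16234424) (l 16235920)) (l 16193656)) (a (l 16226312) (l 16255824))) (b (a (l 16217752) (l 16192832)) (a (l 16228032) (l 16212112))))) (c (b (l 16176096) (l 16186800)) (c (b (a (l 16216800) (l 16182936)) (l 16178928)) (b (a (l 16174728) (l 16158936)) (a (l 16199976) (l 16173184)))))) (c (a (a (b (l 16270936) (l 16314912)) (l 16264640)) (l 16159840)) (a (c (a (b (l 16295872) (l 16254384)) (b (l 16235672) (l 16287024))) (a (b (l 16232464) (c (l 16301360) (l 16274144))) (b (c (l 16259312) (l 16231616)) (c (l 16286176) (l 16270064))))) (c (l 16198896) (a (b (l 16223744) (l 16237336)) (l 16179744)))))) (c (a (b (b (l 16193816) (l 16198512)) (c (a (b (l 16230152) (l 16187016)) (b (l 16203216) (c (l 16246920) (l 16218664)))) (l 16150360))) (b (b (c (a (l 16142480) (l 16111400)) (l 16102160)) (c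 (a (l 16156480) (c (l 16148792) (l 16117928))) (l 16025608))) (c (a (b (c (l 16198784) (l 16171328)) (c (l 16229368) (l 16208768))) (b (c (l 16174984) (l 16152200)) (c (l 16185568) (l 16176328)))) (a (b (l 16147608) (c (l 16181176) (l 16158840))) (b (l 16108176) (c (l 16154136) (l 16126344))))))) (a (b (l 16095800) (l 16197096)) (c (b (l 16086848) (a (l 16133208) (c (l 15999632) (l 16064496)))) (a (l 16104584) (b (l 16053736) (l 16067824))))))), by decide +kernel⟩

def k14_pm_022 : ∃ t, chk3 f_pm_022 t 32 54 4 = true :=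
  ⟨(a (c (a (b (c (b (a (l 16454600) (l 16420136)) (a (l 16441128) (l 16438784))) (a (b (l 16396768) (l 16403320)) (b (l 16404816) (l 16433048)))) (c (a (b (c (l 16513512) (l 16479080)) (l 16494824)) (l 16470928)) (b (l 16414504) (l 16437816)))) (b (b (c (l 16384976) (l 16415088)) (c (l 16455104) (l 16414672))) (c (l 16456832) (c (l 16442856) (l 16412256))))) (b (a (c (b (l 16351680) (a (l 16390160) (l 16343304))) (l 16374440)) (c (b (c (l 16371456) (l 16353120)) (l 16383872)) (l 16350584))) (c (a (b (a (c (l 16410336) (l 16398848)) (l 16402776)) (l 16363456)) (c (l 16433168) (l 16403504))) (a (l 16374008) (c (l 16338408) (l 16366536)))))) (c (c (l 16377864) (b (a (c (l 16416200) (l 16388088)) (l 16372656)) (l 16352624))) (c (b (a (c (l 16390736) (l 16362352)) (c (l 16376424) (l 16364192))) (a (c (l 16380752) (l 16386904)) (l 16362704))) (b (a (c (l 16338040) (l 16322864)) (c (l 16341384) (l 16313760))) (a (c (l 16383960) (l 16334528)) (c (l 16336784) (l 16358640))))))), by decide +kernel⟩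

def k15_pm_022 : ∃ t, chk3 f_pm_022 t 32 55 4 = true :=
  ⟨(c (a (c (a (l 16463712) (l 16450576)) (a (b (b (a (l 16484120) (l 16456760)) (c (l 16499096) (l 16471192))) (b (l 16479992) (l 16504680))) (b (l 16429144) (l 16470616)))) (l 16316784)) (a (c (a (b (c (l 16477264) (l 16426064)) (c (b (l 16472528) (l 16488280)) (l 16458032))) (b (c (b (l 16445640) (l 16459096)) (l 16411104)) (c (l 16486016) (b (l 16441456) (l 16472248))))) (a (b (c (b (l 16413496) (l 16432000)) (l 16412144)) (c (l 16449832) (b (l 16411888) (l 16433248)))) (b (c (l 16407584) (b (l 16387040) (l 16408008))) (c (b (l 16465624) (l 16443696)) (l 16407888))))) (c (a (b (b (l 16390240) (l 16437528)) (l 16436216)) (l 16381960)) (b (a (c (b (l 16419152) (l 16415696)) (l 16403040)) (c (l 16397344) (b (l 16390088) (l 16401976)))) (a (c (l 16405584) (b (l 16416664) (l 16430792))) (l 16400448)))))), by decide +kernel⟩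

def k16_pm_022 : ∃ t, chk3 f_pm_022 t 32 27 5 = true :=
  ⟨(b (a (b (a (l 16371864) (l 16345896)) (l 16375776)) (c (c (b (a (l 16316552) (l 16271704)) (a (l 16273264) (c (l 16331512) (l 16289704)))) (l 16307128)) (l 16303056))) (c (a (c (b (a (l 16408560) (c (l 16362232) (l 16376512))) (a (c (b (l 16421792) (l 16414544)) (l 16424528)) (c (b (l 16407024) (l 16430968)) (b (l 16391576) (l 16365904))))) (l 16399952)) (c (b (a (c (l 16333072) (b (l 16345136) (l 16361216))) (c (l 16355728) (b (l 16337560) (l 16364216)))) (a (c (l 16381312) (l 16354912)) (c (b (l 16383960) (l 16413152)) (b (l 16388312) (l 16364816))))) (b (a (l 16344328) (c (b (l 16316696) (l 16335200)) (l 16314184))) (a (c (b (l 16362552) (l 16360392)) (l 16361168)) (c (b (l 16358848) (l 16385720)) (b (l 16334688) (l 16356048))))))) (a (l 16398080) (a (l 16349112) (b (l 16307152) (c (c (a (l 16334136) (l 16302728)) (l 16323440)) (l 16320800))))))), by decide +kernel⟩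

def k17_pm_022 : ∃ t, chk3 f_pm_022 t 33 27 4 = true :=
  ⟨(a (b (c (l 16219304) (c (a (b (l 16335984) (l 16334760)) (l 16280408)) (a (a (b (l 16327720) (l 16313280)) (b (l 16279424) (l 16337632))) (b (l 16250240) (l 16295168))))) (c (b (l 16236592) (l 16217776)) (a (b (l 16338936) (l 16332672)) (l 16236552)))) (b (c (b (l 16176768) (l 16178264)) (l 16112248)) (c (b (l 16182832) (l 16190624)) (b (l 16128400) (a (l 16218288) (l 16164624)))))), by decide +kernel⟩

def k18_pm_022 : ∃ t, chk3 f_pm_022 t 33 27 10 = true :=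
  ⟨(a (b (c (a (b (c (l 16289688) (l 16266864)) (c (l 16310256) (b (l 16293696) (l 16318600)))) (b (c (l 16280944) (l 16259048)) (c (l 16301384) (l 16249808)))) (b (a (l 16251000) (c (l 16230880) (l 16212688))) (a (c (a (l 16282752) (l 16276144)) (l 16265128)) (c (l 16271784) (l 16244872))))) (c (a (a (b (c (l 16368840) (l 16353864)) (l 16355056)) (b (c (l 16349304) (l 16344224)) (l 16349472))) (b (l 16303776) (l 16299200))) (b (a (c (b (l 16311952) (l 16336816)) (b (l 16285400) (l 16306312))) (c (b (l 16300024) (l 16310360)) (l 16263864))) (b (a (c (l 16314216) (l 16332344)) (c (l 16313896) (l 16310888))) (a (c (l 16326784) (l 16333128)) (l 16313560)))))) (b (c (a (b (c (l 16244960) (l 16237760)) (l 16245432)) (l 16177400)) (a (b (c (l 16218584) (a (l 16194480) (l 16187504))) (c (a (l 16258928) (l 16237520)) (a (l 16237984) (l 16223480)))) (b (c (l 16175392) (l 16154984)) (l 16173488)))) (b (a (a (c (l 16256184) (l 16223880)) (l 16228216)) (l 16167528)) (a (l 16238672) (l 16141912))))), by decide +kernel⟩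

def k19_pm_022 : ∃ t, chk3 f_pm_022 t 33 27 11 = true :=
  ⟨(a (b (a (l 16247384) (c (b (l 16201864) (c (l 16224496) (l 16213008))) (l 16196704))) (c (b (a (c (l 16257608) (l 16268880)) (c (b (l 16247768) (l 16273224)) (a (l 16241440) (l 16229152)))) (a (c (b (l 16302176) (l 16329416)) (b (l 16283512) (l 16299680))) (c (b (l 16293352) (l 16289264)) (a (l 16278600) (l 16274128))))) (a (l 16272312) (b (l 16216976) (c (a (l 16255672) (l 16199440)) (l 16187944)))))) (c (b (a (b (c (l 16164592) (l 16145680)) (c (a (l 16205584) (l 16193168)) (l 16148880))) (b (c (l 16044120) (l 16072912)) (c (l 16113576) (a (l 16141384) (l 16120440))))) (a (b (c (a (l 16249344) (l 16225792)) (a (l 16215632) (l 16198432))) (c (l 16208976) (a (l 16214688) (l 16225808)))) (b (c (l 16168320) (a (l 16174784) (l 16142632))) (l 16162256)))) (b (a (l 16135208) (c (a (b (l 16083304) (l 16105320)) (b (l 16066616) (c (l 16098616) (l 16091456)))) (a (l 16088080) (l 16092240)))) (a (b (c (b (l 16164200) (l 16182360)) (l 16150328)) (c (b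 (l 16185424) (l 16224240)) (b (l 16170096) (a (l 16197448) (l 16182720))))) (b (c (a (l 16145896) (a (l 16114584) (l 16115072))) (a (c (l 16119544) (l 16113856)) (l 16117448))) (c (a (l 16154456) (c (l 16145344) (l 16155104))) (a (b (l 16152280) (c (l 16176088) (l 16170640))) (l 16169104)))))))), by decide +kernel⟩

def k20_pm_022 : ∃ t, chk3 f_pm_022 t 32 13 3 = true :=
  ⟨(c (b (a (b (l 16267056) (b (l 16306168) (a (l 16341744) (l 16323304)))) (b (a (l 16244232) (a (a (l 16188280) (l 16161448)) (b (b (l 16212248) (l 16189248)) (l 16219960)))) (a (b (l 16275688) (l 16290832)) (c (l 16252792) (l 16240000))))) (a (b (a (b (l 16367680) (l 16387520)) (l 16348040)) (l 16394856)) (c (l 16247632) (a (l 16321984) (c (l 16279360) (a (l 16279840) (l 16232736))))))) (c (a (a (b (l 16296968) (b (b (l 16364384) (l 16384400)) (l 16408568))) (b (b (l 16252280) (a (l 16309912) (b (l 16285016) (l 16307424)))) (c (l 16294912) (a (l 16342784) (l 16342088))))) (b (b (a (c (l 16232144) (a (l 16230976) (l 16223768))) (c (b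 (a (l 16202728) (l 16196384)) (a (l 16218336) (l 16205480))) (l 16213664))) (a (c (b (l 16263776) (l 16278960)) (a (b (l 16245400) (l 16282808)) (l 16259080))) (c (l 16189848) (l 16239448)))) (a (c (b (l 16298784) (l 16327992)) (a (c (l 16315320) (l 16318368)) (b (l 16285168) (l 16314136)))) (c (a (c (l 16272632) (l 16258480)) (b (l 16246664) (l 16232528))) (l 16278408))))) (b (a (a (c (l 16209616) (a (c (l 16296728) (b (l 16268176) (l 16324024))) (b (l 16262944) (l 16317768)))) (a (c (b (c (l 16251248) (l 16249928)) (c (l 16304104) (l 16302872))) (l 16236480)) (b (l 16242048) (b (l 16280640) (l 16303184))))) (b (l 16157432) (l 16253592))) (a (a (c (b (b (l 16340272) (l 16381336)) (l 16405576)) (b (a (c (l 16335864) (b (l 16304480) (a (l 16393904) (l 16386328)))) (b (b (l 16310728) (l 16341992)) (l 16374496))) (a (c (l 16414080) (a (l 16418696) (l 16410496))) (c (l 16374832) (l 16394552))))) (c (c (a (a (l 16364664) (l 16354648)) (l 16317240)) (b (l 16314568) (l 16345072))) (l 16350744))) (l 16294968))))),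 by decide +kernel⟩

def k21_pm_022 : ∃ t, chk3 f_pm_022 t 33 13 3 = true :=
  ⟨(c (a (a (b (c (b (l 16187352) (l 16205344)) (b (c (l 16149784) (b (l 16132312) (l 16178096))) (c (l 16188584) (l 16173000)))) (c (l 16242200) (c (b (l 16212208) (l 16217944)) (a (c (l 16231416) (l 16245424)) (l 16208592))))) (c (b (c (l 16148376) (b (l 16131304) (l 16147584))) (c (l 16191768) (b (l 16170032) (a (l 16201800) (l 16182752))))) (b (c (b (l 16077280) (c (l 16153400) (l 16167136))) (l 16161984)) (c (a (c (l 16191664) (l 16209552)) (l 16130776)) (l 16206312))))) (b (c (c (a (b (l 16092152) (l 16107336)) (c (a (l 16077040) (l 16080952)) (l 16070248))) (a (a (b (l 16109328) (l 16124944)) (l 16095472)) (l 16094416))) (l 16109080)) (c (c (b (a (l 16107648) (a (l 16067672) (l 16110752))) (b (a (l 16125560) (c (a (l 16124736) (c (l 16135848) (l 16135352))) (l 16137440))) (a (c (a (l 16166768) (c (b (l 16134968) (l 16152416)) (l 16141144))) (l 16117352)) (c (a (l 16156168) (b (l 16163488) (c (l 16192312) (l 16186936)))) (a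 (c (l 16138976) (l 16162568)) (l 16159544)))))) (a (a (c (l 16153384) (l 16173752)) (a (l 16119664) (l 16156688))) (b (l 16122896) (l 16147640)))) (l 16150328)))) (b (b (l 16130584) (l 16147128)) (b (l 16169744) (l 16195464)))), by decide +kernel⟩

def k22_pm_022 : ∃ t, chk3 f_pm_022 t 34 13 4 = true :=
  ⟨(b (a (b (c (b (l 16078656) (l 16069056)) (c (l 16080360) (b (a (l 16118224) (l 16046608)) (l 16074608)))) (c (a (l 16096960) (l 16040832)) (a (l 16104624) (l 16026944)))) (c (b (b (l 15944504) (l 15938496)) (l 15942840)) (b (b (a (l 15966656) (c (a (l 15903808) (l 15874936)) (l 15925240))) (a (l 15912120) (c (l 15884160) (l 15913040)))) (a (c (l 15952472) (b (l 15944952) (l 15900144))) (c (a (l 15897920) (l 15872496)) (b (l 15910584) (l 15912256))))))) (a (b (c (a (l 16102128) (l 16049968)) (a (c (l 16099528) (l 16096128)) (l 16025200))) (c (a (l 16116104) (b (l 16059552) (l 16068568))) (a (b (l 16099792) (l 16106848)) (l 16035064)))) (c (b (a (l 15987248) (l 15918128)) (b (l 15964576) (l 15975272)))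 (c (a (b (l 15959792) (l 15972472)) (b (a (l 15905808) (c (l 15875216) (l 15879824))) (a (l 15919528) (c (l 15891152) (a (l 15893944) (l 15891288)))))) (a (c (b (l 15945960) (l 15957320)) (a (l 15960200) (b (l 15927832) (a (l 15919576) (l 15932672))))) (b (a (l 15894832) (l 15918312)) (a (c (b (l 15910888) (l 15919224)) (l 15935976)) (l 15931784)))))))), by decide +kernel⟩

def k23_pm_022 : ∃ t, chk3 f_pm_022 t 35 26 4 = true :=
  ⟨(c (a (b (a (c (l 15845760) (a (l 15845256) (c (l 15817040) (l 15826368)))) (c (a (b (l 15799312) (l 15773464)) (b (l 15782208) (l 15777216))) (l 15823264))) (a (c (l 15847968) (a (l 15825936) (c (l 15797120) (l 15806536)))) (c (a (l 15794256) (c (l 15753680) (l 15766720))) (l 15825744)))) (c (a (b (l 15784352) (l 15790704)) (b (b (a (l 15795904) (l 15792768)) (c (l 15765664) (l 15778472))) (c (l 15796320) (l 15809304)))) (a (c (b (a (l 15821584) (l 15824168)) (l 15806480)) (b (b (l 15838416) (l 15833840)) (l 15840992))) (b (l 15803960) (l 15811616))))) (a (a (c (b (b (l 15867208)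 (l 15862704)) (l 15866688)) (b (b (c (l 15906016) (l 15924640)) (l 15884640)) (c (l 15904040) (l 15919232)))) (c (b (b (l 15826384) (l 15864072)) (a (l 15873000) (l 15867992))) (b (l 15881560) (l 15883184)))) (b (l 15822168) (l 15826616)))), by decide +kernel⟩

def k24_pm_022 : ∃ t, chk3 f_pm_022 t 35 27 4 = true :=
  ⟨(c (a (a (c (b (l 15860528) (l 15881104)) (b (a (l 15856336) (c (l 15808480) (l 15837720))) (a (l 15875536) (c (l 15828736) (l 15857664))))) (c (a (b (l 15814040) (c (l 15836968) (l 15808608))) (b (c (l 15769376) (l 15803112)) (c (b (l 15783632) (l 15794248)) (l 15801872)))) (b (l 15839136) (l 15838592)))) (c (a (b (l 15806688) (l 15826216)) (c (a (l 15820232) (b (l 15794864) (l 15814112))) (a (b (l 15810688) (l 15830416)) (l 15830912)))) (a (c (a (l 15852328) (b (l 15826520) (l 15867696))) (a (b (l 15863336) (l 15884008)) (l 15863120))) (l 15837264)))) (a (a (a (c (b (c (l 15857704) (l 15882328)) (c (l 15875608) (l 15899288))) (b (c (l 15912232) (l 15935040)) (c (l 15928272) (b (l 15944368)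 (l 15955544))))) (c (b (l 15878128) (l 15897344)) (c (b (l 15914632) (l 15933000)) (l 15930816)))) (c (c (a (l 15884712) (b (l 15879184) (l 15900336))) (a (b (l 15896016) (l 15916664)) (l 15895464))) (b (l 15893608) (l 15913008)))) (b (l 15840472) (l 15860560)))), by decide +kernel⟩

def k25_pm_022 : ∃ t, chk3 f_pm_022 t 34 26 5 = true :=
  ⟨(c (a (b (c (a (b (l 16013800) (l 16090360)) (b (c (l 16037680) (l 16001216)) (l 16008336))) (a (b (l 15937504) (c (l 16054512) (l 16021768))) (b (c (a (l 16001752) (l 16010040)) (l 16002576)) (c (a (l 16027888) (l 16024848)) (l 16026360))))) (c (a (b (l 16103328) (l 16103448)) (l 16021424)) (a (b (c (l 16080888) (l 16012736)) (c (l 16096696) (a (l 16095408) (l 16070592)))) (c (a (l 16040296) (l 16023056)) (b (l 16027552) (l 16056320)))))) (b (c (a (c (l 15976000) (l 16002448)) (b (l 15979800) (l 15964920))) (a (b (c (a (l 16029816) (l 16036200)) (l 16029904)) (c (l 16028336) (l 16020528))) (l 15999544))) (c (a (a (l 15974624) (l 15966512)) (a (l 15901960) (l 15913056)))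 (a (c (l 16016904) (l 16040464)) (l 15984656))))) (a (b (c (a (b (l 16015520) (c (l 16010432) (l 16019488))) (b (c (l 16009816) (l 16017712)) (c (l 16026240) (l 16024800)))) (a (l 16042008) (l 16021096))) (c (a (c (b (a (l 16029120) (l 16026344)) (a (l 16061472) (l 16062888))) (b (l 16031568) (a (l 16044032) (l 16062280)))) (c (a (l 15977920) (b (l 16067744) (l 16083648))) (b (a (l 16047616) (l 16054384)) (a (l 16082848) (l 16083152))))) (a (c (c (l 16010040) (l 16058528)) (l 16064728)) (b (l 16035312) (c (l 16069496) (l 16046816)))))) (b (c (b (a (c (l 16018704) (l 15996336)) (l 15991248)) (a (c (l 16034448) (l 16019008)) (l 15998264))) (b (l 15975640) (a (l 15993632) (c (l 15984680) (l 15964328))))) (c (b (a (l 16042032) (l 16003136)) (l 16022536)) (b (a (c (l 16026296) (l 16004480)) (l 15952312)) (a (c (l 16047640) (l 16034200)) (l 16005408))))))), by decide +kernel⟩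

def k26_pm_022 : ∃ t, chk3 f_pm_022 t 34 27 5 = true :=
  ⟨(b (c (a (a (a (b (l 16115584) (l 16109368)) (l 16027576)) (c (a (l 16026328) (c (l 15986184) (l 15986368))) (a (l 15996544) (l 16025032)))) (a (c (a (c (l 15953840) (l 15972768)) (l 15962664)) (a (c (l 16007032) (l 16036208)) (c (l 16003944) (l 16016536)))) (c (a (l 15944480) (l 15959440)) (l 15979160)))) (a (c (a (b (c (a (l 16096192) (l 16084584)) (a (l 16081120) (l 16098480))) (c (a (l 16109072) (l 16083328)) (a (c (l 16110024) (l 16112768)) (l 16115592)))) (b (c (l 16081608) (c (l 16078640) (l 16102576))) (c (l 16072992) (l 16098040)))) (a (c (b (a (l 16078832) (c (l 16102024) (l 16094320))) (a (l 16117064) (c (l 16134528) (l 16134816)))) (b (a (l 16087784) (l 16083664)) (a (c (l 16116192) (l 16112480)) (l 16120680)))) (b (c (l 16093064) (b (l 16066776) (l 16085840))) (c (l 16108280) (l 16102016))))) (c (l 16016912) (b (a (l 16052848) (l 16005064)) (l 16024216))))) (c (a (a (c (l 16086344) (b (l 16079064) (l 16054176))) (c (a (l 16026536)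 (l 15992488)) (a (c (b (l 16016000) (l 16019144)) (b (l 16032680) (l 16031568))) (l 15999584)))) (a (a (c (c (l 15963656) (l 15980120)) (c (l 16010600) (l 16034696))) (c (l 15972744) (l 15972904))) (c (a (c (l 15966392) (l 15989592)) (c (b (l 15964392) (l 15972776)) (l 15976480))) (l 15987864)))) (a (c (a (a (c (l 16096976) (l 16112792)) (c (l 16069856) (l 16105352))) (a (c (l 16067000) (l 16097680)) (c (b (l 16061992) (l 16061288)) (l 16076592)))) (a (b (c (a (l 16142920) (l 16142504)) (a (c (l 16157496) (l 16154176)) (l 16148344))) (a (b (a (l 16118816) (l 16137696)) (l 16156264)) (l 16142016))) (b (l 16107744) (l 16100472)))) (b (l 16018648) (l 16018800))))), by decide +kernel⟩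

def k27_pm_022 : ∃ t, chk3 f_pm_022 t 35 13 5 = true :=
  ⟨(a (b (c (b (l 15918112) (l 15909480)) (b (c (b (l 15935616) (l 15924768)) (b (b (l 15868576) (l 15840208)) (a (l 15950528) (l 15912752)))) (b (c (l 15920616) (l 15839320)) (l 15923200)))) (b (c (l 15913888) (l 15904592)) (c (l 15929056) (l 15927936)))) (b (b (b (c (l 15827016) (l 15839592)) (l 15827016)) (c (l 15824048) (l 15830752))) (b (l 15834632) (l 15851168)))), by decide +kernel⟩

def k28_pm_022 : ∃ t, chk3 f_pm_022 t 17 26 3 = true :=
  ⟨(c (a (c (b (l 15916384) (a (l 16048648) (c (a (b (l 15991744) (l 16009728)) (b (c (l 15977520) (l 15957144)) (c (l 15997120) (l 15984664)))) (l 15975856)))) (l 15999768)) (c (b (a (c (b (a (l 15914832) (c (l 15901904) (l 15883024))) (a (c (l 15935744) (l 15915824)) (l 15903440))) (l 15873072)) (c (b (a (l 15867712) (l 15829664)) (l 15833680)) (b (a (l 15852440) (l 15820728)) (a (l 15855984) (l 15820224))))) (a (c (b (a (c (l 15953000) (l 15941224)) (l 15912000)) (a (l 15957232) (l 15909480))) (b (a (l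 15919528) (c (l 15903584) (l 15892712))) (a (c (l 15947240) (l 15929648)) (c (l 15916288) (l 15908168))))) (c (l 15836256) (b (a (l 15864680) (l 15817328)) (l 15837464))))) (b (a (l 15883720) (c (b (l 15815592) (l 15760456)) (l 15807504))) (a (c (b (l 15892576) (a (l 15918136) (c (l 15897960) (l 15881416)))) (l 15891496)) (c (b (a (l 15851840) (l 15817248)) (a (c (l 15866832) (l 15858472)) (l 15813184))) (a (l 15837888) (b (l 15806008) (l 15792736)))))))) (b (l 15911736) (a (l 15998200) (l 15845472)))), by decide +kernel⟩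

def k29_pm_022 : ∃ t, chk3 f_pm_022 t 34 27 6 = true :=
  ⟨(c (a (b (c (b (a (l 16082616) (l 16054176)) (a (l 16100592) (c (b (l 16083024) (l 16096840)) (l 16069552)))) (l 16067864)) (c (b (a (c (b (l 16130608) (l 16145648)) (l 16116984)) (c (l 16110432) (b (l 16094808) (l 16107800)))) (a (c (b (l 16160016) (l 16169576)) (b (a (l 16142008) (l 16140320)) (l 16158656))) (c (l 16115288) (l 16117832)))) (b (a (l 16103712) (c (b (l 16072488) (a (l 16089952) (l 16088224))) (l 16067712))) (a (c (b (l 16121272) (a (l 16139304) (l 16138264))) (l 16117672)) (c (b (l 16106720) (l 16118624)) (b (a (l 16088144) (l 16086304)) (a (l 16111608) (l 16101528)))))))) (b (c (b (a (c (l 16000600) (b (l 16014624) (l 16034376))) (c (l 16011920) (l 16003712))) (a (c (l 16060632) (b (l 16047032) (l 16058928))) (l 16011408))) (b (a (l 16007880) (c (a (l 15991912) (l 15986592)) (l 15973648))) (a (c (b (l 16025824) (l 16044752)) (l 16019688)) (c (l 16010136) (b (l 15995504) (l 16006664)))))) (c (b (a (l 16062208) (l 16005744)) (l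 16031464)) (b (a (c (b (l 16056872) (l 16067384)) (b (l 16043224) (l 16055464))) (l 15993056)) (a (c (l 16070272) (l 16025208)) (l 16014344)))))) (b (c (a (l 16064008) (b (l 15983120) (a (l 16011704) (c (b (l 15975632) (l 15994040)) (l 15973232))))) (l 16023296)) (a (b (l 16079296) (c (a (l 16112048) (l 16057744)) (l 16090080))) (c (b (a (l 16028904) (c (b (l 16004920) (l 16015216)) (b (l 15986304) (l 16003776)))) (a (c (b (a (l 16053640) (l 16049128)) (l 16024064)) (b (l 16035176) (a (l 16051888) (l 16047760)))) (c (l 16022016) (b (l 15993464) (l 16022920))))) (b (l 16001096) (a (l 16031912) (c (b (l 16003608) (a (l 16021848) (l 16008040))) (l 15994200)))))))), by decide +kernel⟩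

def k30_pm_022 : ∃ t, chk3 f_pm_022 t 35 27 6 = true :=
  ⟨(c (b (a (c (b (l 15930144) (l 15929384)) (b (a (c (l 15962592) (l 15953632)) (l 15915536)) (a (l 15964248) (l 15911976)))) (l 15839496)) (a (b (l 15933928) (l 15936064)) (l 15844488))) (b (a (c (b (a (c (l 15943280) (l 15926368)) (c (l 15912872) (l 15903728))) (a (c (b (l 15957104) (l 15965936)) (b (l 15939472) (l 15955152))) (c (l 15920680) (l 15917376)))) (b (l 15905504) (a (l 15933376) (c (l 15888888) (l 15902096))))) (c (b (a (c (l 15866696) (l 15869496)) (l 15819072)) (l 15841992)) (a (b (c (l 15862952) (l 15854928)) (c (l 15871584) (l 15825576))) (b (c (l 15816696) (l 15820328)) (l 15819696))))) (a (c (b (a (c (l 15970800) (b (l 15964696) (l 15971968))) (l 15916432)) (l 15941120)) (b (a (c (b (l 15954008) (l 15963504)) (l 15944704)) (c (l 15921256) (b (l 15913288) (l 15921088)))) (a (c (b (l 15971800) (l 15977064)) (b (l 15962760) (l 15950704))) (c (l 15922448) (l 15918392))))) (b (c (l 15843248) (l 15824520)) (l 15849256))))), by decide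 +kernel⟩

def k31_pm_022 : ∃ t, chk3 f_pm_022 t 17 27 7 = true :=
  ⟨(a (b (l 16016752) (l 16038280)) (c (b (a (l 15902352) (c (b (l 15785768) (a (c (l 15860168) (l 15848768)) (c (l 15822960) (l 15817408)))) (l 15825400))) (a (c (b (a (l 15937264) (c (l 15908696) (l 15897008))) (a (c (l 15895976) (l 15947008)) (c (b (l 15920456) (l 15926568)) (b (l 15912672) (l 15920128))))) (l 15919928)) (c (b (a (c (a (l 15883280) (l 15863264)) (l 15865792)) (c (l 15824088) (b (l 15825824) (l 15824232)))) (a (c (l 15874128) (b (l 15875776) (l 15874104))) (l 15827856))) (b (a (l 15855376) (c (b (l 15819976) (l 15825368)) (l 15816504))) (a (c (b (l 15869384) (l 15875728)) (l 15866584)) (c (l 15825152) (b (l 15824872) (a (l 15842080) (l 15816264))))))))) (b (l 15856056) (a (l 15914360) (b (l 15827968) (a (l 15857496) (c (l 15821032) (l 15814144)))))))), by decide +kernel⟩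

def k32_pm_022 : ∃ t, chk3 f_pm_022 t 18 12 1 = true :=
  ⟨(c (a (b (c (a (l 15965816) (l 15757688)) (c (a (b (l 16054864) (l 15979320)) (l 15908392)) (a (b (l 15990896) (c (l 15987144) (l 15981248))) (b (a (l 15998032) (l 15910912)) (l 15871984))))) (c (a (b (l 15886424) (l 15806912)) (b (l 15786032) (l 15707744))) (a (b (c (l 15891296) (l 15832792)) (l 15734168)) (c (l 15698704) (l 15576736))))) (b (c (l 15492920) (b (l 15695400) (l 15610528))) (c (b (l 15541360) (l 15461080)) (b (l 15525384) (l 15441568))))) (b (a (c (c (a (b (l 16029168) (l 15905392)) (b (l 15882376) (c (l 15854456) (l 15825648)))) (a (l 15984968) (b (l 15925024) (l 15859792)))) (l 15927464)) (c (c (b (a (c (l 15779160) (l 15780016)) (l 15601880)) (l 15394928)) (a (b (l 15769120) (c (l 15557896) (l 15684912))) (b (c (l 15595968) (l 15594288)) (c (l 15512536) (l 15506616))))) (c (a (l 15712568) (b (l 15587272) (l 15452016))) (l 15617280)))) (a (c (c (a (b (c (a (l 15918416) (l 15884824)) (l 15889064)) (c (l 15812048) (a (l 15792808)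 (l 15798256)))) (b (c (l 15789320) (a (l 15833976) (l 15745520))) (l 15699448))) (a (b (l 15871496) (c (b (l 15824136) (l 15786672)) (l 15790856))) (a (b (l 15820552) (c (l 15683240) (l 15736008))) (b (l 15655944) (c (l 15656280) (l 15655392)))))) (a (l 15820680) (c (b (l 15761400) (l 15603312)) (l 15712704)))) (c (c (l 15246880) (a (b (c (l 15604864) (a (l 15649616) (l 15555800))) (c (l 15517704) (l 15513496))) (l 15230448))) (c (a (b (l 15594120) (c (a (l 15486528) (l 15463064)) (l 15433160))) (b (c (a (l 15459512) (l 15370384)) (l 15384072)) (c (l 15325304) (a (l 15279816) (l 15273280))))) (a (l 15537128) (b (l 15403960) (c (a (l 15355456) (l 15265240)) (l 15303568))))))))), by decide +kernel⟩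

def k33_pm_022 : ∃ t, chk3 f_pm_022 t 18 26 2 = true :=
  ⟨(a (a (c (b (b (l 15751688) (l 15749424)) (l 15758040)) (b (b (l 15749112) (l 15741288)) (l 15746136))) (b (c (b (l 15653624) (l 15651456)) (b (l 15639184) (l 15635496))) (c (l 15658904) (l 15642224)))) (b (c (b (l 15404344) (l 15399936)) (l 15254792)) (c (a (l 15490536) (l 15316576)) (l 15382504)))), by decide +kernel⟩

def k34_pm_022 : ∃ t, chk3 f_pm_022 t 18 26 3 = true :=
  ⟨(a (c (c (a (b (b (l 15751000) (l 15746144)) (l 15746032)) (b (l 15632576) (l 15631216))) (a (b (c (b (a (l 15773592) (l 15737256)) (a (l 15773624) (l 15726912))) (b (l 15742176) (a (l 15762400) (l 15726120)))) (c (l 15747600) (a (b (l 15769264) (c (l 15772032) (l 15774368))) (b (l 15722296) (l 15726248))))) (b (a (b (c (l 15684008) (l 15683536)) (l 15669728)) (l 15587600)) (l 15630728)))) (c (a (b (b (l 15727152) (l 15735640)) (c (b (l 15737152) (a (l 15765832) (c (l 15723008) (l 15725088)))) (l 15732096))) (b (b (a (l 15671248) (l 15521880)) (c (a (l 15671280) (l 15580512))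 (l 15617288))) (c (a (b (c (l 15672152) (l 15673760)) (l 15671720)) (l 15582280)) (a (b (l 15667032) (c (l 15668008) (l 15668528))) (b (c (l 15578624) (l 15578392)) (l 15579000)))))) (a (l 15720424) (b (l 15609928) (c (a (l 15660472) (b (l 15574816) (l 15571792))) (l 15610760)))))) (c (b (b (l 15365896) (l 15358272)) (l 15361064)) (c (b (a (c (b (l 15446752) (l 15440496)) (b (a (l 15491264) (l 15395416)) (a (l 15481536) (l 15388472)))) (l 15255168)) (a (b (l 15395408) (l 15440024)) (l 15252528))) (b (a (c (b (l 15434472) (a (l 15478896) (l 15381552))) (l 15426152)) (c (b (a (l 15294872) (l 15202560)) (l 15242128)) (b (l 15177392) (a (l 15281480) (l 15188424))))) (a (c (a (b (l 15475864) (c (l 15481272) (l 15477440))) (b (l 15383192) (l 15385384))) (a (l 15468384) (b (l 15375904) (c (l 15380800) (l 15377056))))) (c (l 15244848) (a (b (l 15261816) (l 15285296)) (l 15190712)))))))), by decide +kernel⟩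

def k35_pm_022 : ∃ t, chk3 f_pm_022 t 36 27 1 = true :=
  ⟨(c (a (c (b (l 15772896) (l 15791280)) (b (l 15758312) (l 15776552))) (a (b (c (l 15712016) (l 15696112)) (a (l 15716512) (l 15704760))) (b (l 15622512) (l 15637976)))) (c (a (b (c (l 15749552) (b (l 15748928) (l 15750992))) (l 15763192)) (b (l 15638992) (l 15654800))) (a (c (b (c (b (a (c (l 15767696) (l 15770544)) (l 15724704)) (a (l 15751032) (l 15728040))) (b (a (l 15765536) (c (l 15677672) (l 15721104))) (a (c (a (l 15784072) (l 15757816)) (l 15768008)) (c (l 15726712) (a (l 15733480) (l 15715000)))))) (c (l 15759344) (b (a (c (l 15775264) (a (l 15787792) (l 15763104))) (l 15730544)) (l 15758608)))) (b (c (b (l 15734000) (a (l 15760640) (c (l 15718056) (l 15720344)))) (l 15732920)) (c (b (a (l 15770824) (c (a (l 15738720) (l 15717936)) (a (l 15737336) (l 15714376)))) (a (c (b (l 15712568) (l 15779952)) (b (l 15774384) (a (l 15791160) (l 15767288)))) (c (l 15735408) (b (l 15730904) (l 15734832))))) (a (l 15765904) (b (l 15721720) (c (a (l 15696992)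 (b (l 15717592) (l 15722160))) (l 15726040))))))) (c (b (a (c (l 15675456) (b (c (l 15674152) (l 15649144)) (l 15675432))) (l 15586544)) (l 15642488)) (b (c (a (b (c (l 15643864) (l 15665704)) (c (a (l 15690776) (l 15655216)) (a (l 15685632) (l 15651392)))) (b (c (l 15579000) (l 15574592)) (l 15581824))) (a (l 15659456) (b (l 15571136) (c (a (l 15601176) (l 15554520)) (l 15574200))))) (c (a (b (a (l 15694144) (l 15659352)) (l 15684400)) (l 15592224)) (a (b (c (a (l 15690008) (l 15655800)) (a (l 15687712) (l 15652320))) (c (l 15681752) (a (b (l 15694352) (l 15698904)) (l 15661376)))) (b (c (l 15584992) (a (l 15605384) (l 15558392))) (l 1))))))))), by decide +kernel⟩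

def k36_pm_022 : ∃ t, chk3 f_pm_022 t 37 27 1 = true :=
  ⟨(a (b (c (c (l 15500136) (l 15480440)) (c (l 15460440) (c (l 15445360) (c (l 15438688) (a (b (c (l 15478448) (l 15474744)) (c (l 15484104) (l 15480480))) (l 309268171719)))))) (l 1)) (l 1)), by decide +kernel⟩

def k37_pm_022 : ∃ t, chk3 f_pm_022 t 19 6 1 = true :=
  ⟨(a (b (c (b (c (l 15330272) (l 15308136)) (c (b (l 15205440) (l 15119648)) (l 15094888))) (c (b (b (c (l 15335736) (l 15327864)) (l 15246304)) (l 15111176)) (b (c (a (b (l 15403784) (c (l 15322312) (l 15313424))) (b (l 15227008) (l 15137512))) (a (l 15349608) (b (l 15212208) (c (l 15127360) (l 15119096))))) (c (b (a (l 15186960) (l 15045864)) (l 15047112)) (a (b (c (l 15050616) (l 15210184)) (c (l 15127944) (a (l 15166064) (l 15073960)))) (b (c (l 15036272) (l 15027904)) (l 14939288))))))) (a (b (b (c (c (l 15142624) (l 15116472)) (c (l 15089928) (c (l 15069760) (b (l 15059264) (l 15052720))))) (l 1)) (l 1)) (l 1))) (b (b (c (c (a (l 15078304) (l 14943192)) (l 14982456)) (c (l 14953464)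 (c (l 14932504) (a (b (l 15033520) (l 14941944)) (l 14844528))))) (l 1)) (l 1))), by decide +kernel⟩

def k38_pm_022 : ∃ t, chk3 f_pm_022 t 16 56 4 = true :=
  ⟨(a (a (c (b (l 16440632) (l 16416208)) (a (c (b (c (l 16496296) (a (b (l 16521048) (l 16558024)) (l 16511424))) (l 16520912)) (b (a (b (l 16474136) (l 16483088)) (c (b (l 16517264) (l 16515296)) (l 16500024))) (b (a (c (l 16520624) (l 16541728)) (c (l 16545112) (l 16518464))) (a (c (l 16572168) (l 16524024)) (l 16526304))))) (c (l 16464768) (b (b (c (l 16456656) (l 16444896)) (a (b (l 16469776) (l 16496280)) (l 16493816))) (b (l 16485112) (l 16505584)))))) (c (b (l 16313536) (a (l 16400152) (l 16355184))) (b (a (l 16398944) (l 16383632)) (l 16345960)))) (a (c (b (l 16265368) (l 16295848)) (a (b (l 16328840) (l 16308408)) (b (l 16254648) (l 16280472)))) (c (b (l 16199640) (a (l 16233088) (l 16187192))) (b (l 16155864) (l 16206600))))), by decide +kernel⟩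

def k39_pm_022 : ∃ t, chk3 f_pm_022 t 32 56 10 = true :=
  ⟨(a (c (b (a (c (b (a (l 16453464) (l 16451352)) (l 16458240)) (b (l 16439960) (a (l 16457384) (l 16451496)))) (c (b (l 16460296) (l 16466096)) (b (l 16408536) (l 16456880)))) (a (c (b (l 16510096) (a (l 16539896) (l 16520488))) (b (a (l 16455560) (l 16477712)) (l 16507440))) (c (b (a (l 16494176) (l 16504376)) (a (l 16510104) (l 16508776))) (a (l 16457464) (b (l 16489688) (l 16487816)))))) (b (a (l 16441312) (c (b (l 16389480) (a (l 16428672) (l 16426520))) (l 16410016))) (a (c (b (a (l 16463448) (l 16453768)) (a (l 16458416) (l 16476904))) (l 16439728)) (c (b (l 16433928) (l 16485064)) (b (a (l 16432464) (l 16426560)) (a (l 16431080) (l 16453368))))))) (a (c (b (c (b (a (l 16464024) (l 16452112)) (l 16443880)) (b (l 16436312) (a (l 16464152) (l 16456208)))) (c (l 16465376) (b (a (l 16482288) (l 16463072)) (l 16475096)))) (b (c (b (l 16405648) (l 16434152)) (b (a (l 16382640) (l 16377288)) (l 16383160))) (c (b (a (l 16463040) (l 16459032)) (a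 (l 16464352) (l 16469824))) (b (l 16412936) (a (l 16460800) (l 16460672)))))) (c (b (c (l 16412368) (b (l 16397152) (l 16421912))) (l 16411448)) (b (c (b (l 16365584) (a (l 16433192) (l 16416896))) (b (l 16384056) (l 16386320))) (c (l 16427568) (b (a (l 16434592) (l 16422152)) (l 16413952))))))), by decide +kernel⟩

def k40_pm_022 : ∃ t, chk3 f_pm_022 t 32 56 11 = true :=
  ⟨(a (b (l 16423048) (c (a (l 16457992) (c (b (l 16420856) (a (l 16438352) (l 16428696))) (l 16424112))) (l 16440320))) (c (a (b (c (b (l 16370688) (l 16363696)) (l 16373272)) (c (b (a (l 16403184) (l 16401032)) (l 16429952)) (b (l 16388912) (a (l 16406840) (l 16400960))))) (b (c (b (a (l 16353776) (l 16351824)) (a (l 16376264) (l 16381208))) (a (l 16351296) (b (l 16330616) (l 16349664)))) (c (a (l 16398040) (b (l 16408688) (l 16404936))) (a (b (l 16375584) (l 16402456)) (b (l 16376040) (l 16406616)))))) (a (l 16381208) (b (l 16337072) (c (a (b (l 16360856) (l 16376936)) (b (l 16349096) (l 16372360))) (a (l 16362792) (l 16344992))))))),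 by decide +kernel⟩

def k41_pm_022 : ∃ t, chk3 f_pm_022 t 33 56 5 = true :=
  ⟨(c (a (b (a (c (l 16357888) (c (l 16372568) (a (b (l 16382168) (l 16394328)) (l 16363264)))) (l 16300944)) (a (l 16360640) (l 16296664))) (a (b (l 16192272) (c (l 16231376) (l 16235016))) (c (b (l 16165208) (l 16173408)) (l 16118792)))) (a (c (b (a (c (b (l 16350632) (a (l 16380232) (l 16365752))) (b (l 16321248) (l 16305784))) (c (b (l 16320016) (l 16322184)) (a (b (l 16317408) (l 16335656)) (b (l 16304704) (l 16311920))))) (a (c (b (l 16339312) (l 16384632)) (b (a (l 16376720) (l 16366160)) (a (l 16397136) (l 16375064)))) (l 16298728))) (a (b (c (b (l 16298952) (l 16276208)) (l 16295440)) (c (b (a (l 16342224) (l 16341712)) (a (l 16372000) (l 16365320))) (b (a (l 16319776) (l 16309216)) (a (l 16339408) (l 16338432))))) (b (c (a (b (l 16283672) (l 16312008)) (b (l 16278128) (l 16299416))) (a (b (l 16258392) (l 16277360)) (b (l 16238592) (l 16266144)))) (c (a (b (l 16334512) (l 16346624)) (l 16288632)) (a (b (l 16305760) (l 16329952))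 (b (l 16289568) (l 16304856))))))) (c (a (b (l 16246640) (l 16238816)) (b (l 16153760) (l 16149824))) (a (b (c (b (l 16196440) (l 16245072)) (b (l 16128640) (a (l 16246736) (l 16217672)))) (c (l 16241496) (b (l 16217744) (l 16240328)))) (a (c (l 16173400) (b (b (c (l 16183680) (l 16186912)) (l 16187336)) (l 16180128))) (c (b (l 16143504) (l 16134232)) (l 16170656))))))), by decide +kernel⟩

def k42_pm_022 : ∃ t, chk3 f_pm_022 t 16 57 2 = true :=
  ⟨(b (b (b (b (a (c (a (c (l 16434760) (c (l 16488232) (a (l 16518696) (l 16503704)))) (c (l 16381184) (l 16364128))) (c (a (a (c (c (l 16514392) (l 16528416)) (c (l 16494024) (l 16473960))) (c (c (l 16522008) (l 16480688)) (c (l 16504728) (l 16470624)))) (c (l 16437592) (a (c (l 16483056) (l 16433200)) (l 16431528)))) (a (c (a (l 16468456) (c (l 16403104) (l 16434504))) (l 16450664)) (c (a (c (l 16448584) (l 16396720)) (c (a (l 16450968) (l 16433328)) (l 16422472))) (a (l 16400792) (c (l 16390392) (l 16346736))))))) (c (a (a (l 16325960) (l 16283376)) (c (l 16217088)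 (l 16212248))) (a (c (a (l 16356448) (l 16293992)) (c (a (l 16386040) (l 16315904)) (a (c (l 16360912) (l 16357056)) (c (l 16328312) (a (l 16344944) (l 16310728)))))) (c (a (l 16234624) (l 16171008)) (a (l 16235488) (c (l 16148504) (a (l 16149344) (c (l 16130176) (l 16160704))))))))) (l 6)) (l 6)) (l 6)) (l 6)), by decide +kernel⟩

def k43_pm_022 : ∃ t, chk3 f_pm_022 t 16 29 2 = true :=
  ⟨(l 6), by decide +kernel⟩

def k44_pm_022 : ∃ t, chk3 f_pm_022 t 34 56 2 = true :=
  ⟨(c (c (a (a (b (l 16130040) (l 16143104)) (b (l 16080360) (l 16095104))) (l 15890472)) (a (a (b (l 16114864) (c (l 16132416) (l 16119288))) (b (l 16047448) (l 16059320))) (a (c (l 15994728) (a (l 15989368) (c (l 15960232) (a (l 15959680) (l 15953064))))) (c (a (l 15943912) (c (l 15916320) (a (l 15918824) (l 15916424)))) (a (c (a (l 15938888) (l 15934488)) (l 15958200)) (l 15956064)))))) (c (a (a (c (l 16097264) (a (l 16098880) (l 16061576))) (c (a (l 16041032) (b (l 16002616) (c (l 16013536) (l 15987168)))) (a (c (l 16030192) (l 16041936))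 (l 16012176)))) (a (c (a (c (b (l 15973912) (l 15985464)) (l 15995672)) (l 15991048)) (a (c (l 16025832) (b (l 16044984) (l 16053616))) (c (b (l 16022472) (l 16034008)) (l 16036256)))) (c (a (c (l 15987632) (a (l 16011712) (l 16010056))) (c (l 15992520) (l 15998872))) (l 16007232)))) (a (a (c (a (c (l 16088920) (b (l 16099024) (l 16097848))) (c (a (l 16067176) (l 16064880)) (l 16097616))) (a (c (l 16131144) (b (l 16167336) (l 16158312))) (c (b (l 16125224) (l 16124448)) (l 16140864)))) (c (c (a (l 16071016) (l 16072032)) (a (b (l 16092272) (l 16099648)) (l 16080944))) (l 16099152))) (b (l 16024240) (l 16032944))))), by decide +kernel⟩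

def k45_pm_022 : ∃ t, chk3 f_pm_022 t 35 56 2 = true :=
  ⟨(c (c (a (a (c (l 15905768) (a (l 15900320) (c (a (l 15879560) (l 15845384)) (a (l 15880152) (l 15881776))))) (c (a (c (l 15860624) (a (l 15857448) (l 15840992))) (c (a (l 15814840) (b (l 15799560) (l 15811920))) (l 15846176))) (b (l 15877288) (l 15869312)))) (c (a (l 15849336) (a (c (l 15853192) (b (l 15847552) (l 15860152))) (c (a (l 15838992) (l 15837496)) (l 15864000)))) (a (a (c (l 15886752) (b (l 15880920) (l 15894032))) (c (b (l 15864232) (l 15877088)) (l 15897680))) (l 15870776)))) (a (c (a (a (c (a (l 15899240) (l 15898856)) (l 15924624)) (l 15922472)) (a (c (l 15920336) (b (l 15935288) (l 15948904))) (c (a (l 15927176) (l 15925736)) (l 15931384)))) (a (a (c (l 15953952) (b (l 15968704) (l 15982832))) (c (b (l 15951992) (l 15965864)) (l 15965112))) (l 15938304))) (l 15884432))) (a (c (l 15952264) (l 15947512)) (l 15874576))), by decide +kernel⟩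

def k46_pm_022 : ∃ t, chk3 f_pm_022 t 17 57 2 = true :=
  ⟨(a (b (b (b (c (c (a (l 16127880) (l 16012000)) (a (a (l 16132328) (l 16068200)) (a (c (l 16011512) (a (l 16005304) (c (l 15976784) (l 15974664)))) (c (a (l 15960160) (c (l 15932200) (l 15914312))) (a (c (l 15933824) (l 15974688)) (l 15972432)))))) (c (a (a (l 16077792) (c (a (l 16051496) (l 16019752)) (a (c (l 16039288) (l 16051056)) (l 16043224)))) (a (c (a (c (l 15994904) (l 16009592)) (l 16006752)) (c (a (l 16038648) (l 16043600)) (a (l 16060840) (l 16050120)))) (c (c (a (l 16004408) (l 16009296)) (a (l 16026448) (l 16015752))) (l 16023000)))) (a (a (c (a (c (l 16095392) (l 16102152)) (l 16091136)) (c (l 16127232) (a (l 16154872) (l 16138160)))) (c (a (l 16049560) (c (l 16081408) (l 16090432))) (l 16103632))) (l 16039736)))) (l 6)) (l 6)) (l 6)) (a (b (b (c (c (a (c (l 15923072) (a (l 15917704) (c (l 15869880) (l 15878176)))) (c (a (c (l 15877272) (l 15859312)) (c (a (l 15852128) (l 15821808)) (l 15841648))) (l 15879680))) (c (a (a (c (l 15896984)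 (l 15942392)) (l 15940096)) (a (c (l 15937816) (l 15959752)) (c (l 15921624) (l 15948920)))) (a (a (c (l 15972072) (l 15994072)) (c (l 15976904) (l 15983304))) (l 15956040)))) (l 15967472)) (l 6)) (l 6)) (c (c (a (b (b (c (l 15865648) (a (c (l 15903584) (l 15904488)) (c (l 15887352) (l 15914576)))) (l 6)) (l 6)) (c (a (c (l 15879856) (a (l 15903936) (l 15881376))) (c (a (l 15886624) (l 15864056)) (l 15890768))) (l 15897848))) (l 15912128)) (l 15902552)))), by decide +kernel⟩

def k47_pm_022 : ∃ t, chk3 f_pm_022 t 17 29 2 = true :=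
  ⟨(a (l 6) (a (l 6) (a (l 6) (l 1)))), by decide +kernel⟩

def k48_pm_022 : ∃ t, chk3 f_pm_022 t 32 56 6 = true :=
  ⟨(a (l 16428864) (c (l 16357024) (a (l 16369384) (c (l 16324952) (a (l 16325760) (l 16298648)))))), by decide +kernel⟩

def k49_pm_022 : ∃ t, chk3 f_pm_022 t 33 56 6 = true :=
  ⟨(c (a (c (a (b (l 16286336) (c (a (l 16317832) (b (l 16291216) (l 16307224))) (l 16300344))) (b (c (b (l 16229232) (l 16179992)) (l 16220664)) (c (b (a (l 16269944) (l 16250304)) (a (l 16293088) (l 16277312))) (b (l 16235488) (a (l 16261944) (l 16238192)))))) (a (l 16280224) (a (l 16230640) (c (c (l 16203056) (l 16201400)) (l 16213664))))) (c (a (b (c (a (l 16156864) (c (l 16169472) (a (l 16174768) (l 16182216)))) (a (c (l 16176088) (l 16172968)) (b (l 16169104) (l 16187872)))) (c (a (b (l 16234104) (l 16252528)) (a (b (l 16199248) (l 16229240)) (c (l 16209672) (l 16217544)))) (a (a (a (l 16214840) (l 16147968)) (b (l 16175952) (l 16225232))) (b (l 16193208) (c (l 16233136) (l 16239296)))))) (c (a (b (b (l 16189624)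 (l 16206000)) (l 16210096)) (b (c (l 16202672) (a (l 16192800) (l 16208488))) (l 16201464))) (b (a (c (a (l 16198288) (l 16207616)) (b (l 16181712) (l 16206016))) (b (l 16191432) (l 16209968))) (a (a (b (l 16231496) (l 16244584)) (b (l 16212624) (l 16239928))) (l 16217920))))) (a (a (c (b (l 16186568) (c (b (l 16192376) (l 16210376)) (l 16210200))) (l 16214832)) (b (a (l 16194880) (l 16190736)) (c (a (b (l 16186792) (l 16229200)) (b (l 16190696) (l 16239072))) (l 16214056)))) (b (c (b (l 16172160) (a (l 16190880) (l 16190344))) (l 16169528)) (c (b (a (l 16217168) (l 16208800)) (a (l 16236144) (l 16222440))) (b (l 16190224) (a (l 16211208) (l 16207920)))))))) (a (c (a (a (l 16277904) (l 16233352)) (c (a (l 16233872) (l 16233536)) (l 16245064))) (a (a (c (l 16275424) (l 16289872)) (l 16273248)) (l 16248936))) (b (l 16183296) (c (a (l 16218808) (c (b (l 16177136) (l 16191104)) (l 16178504))) (l 16196976))))), by decide +kernel⟩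

def k50_pm_022 : ∃ t, chk3 f_pm_022 t 16 57 6 = true :=
  ⟨(b (b (b (b (a (a (l 16448288) (c (l 16375272) (a (l 16387976) (c (l 16342888) (a (l 16343816) (l 16316344)))))) (c (a (c (a (c (a (l 16329472) (l 16318928)) (l 16310024)) (c (l 16301072) (l 16263728))) (a (l 16297464) (c (c (l 16239528) (l 16233576)) (l 16238984)))) (c (a (c (a (l 16261304) (l 16222424)) (a (c (l 16250608) (l 16237240)) (l 16245536))) (c (a (l 16205672) (l 16195672)) (l 16226768))) (a (c (a (l 16226464) (l 16249904)) (a (l 16231768) (l 16228056))) (c (l 16236320) (l 16202376))))) (a (c (a (l 16244064) (c (a (l 16250568) (l 16250112)) (l 16261832))) (a (a (c (l 16292784) (l 16307392)) (l 16290496)) (l 16265792))) (c (a (l 16227520) (c (l 16200480) (l 16187464))) (l 16205560))))) (l 6)) (l 6)) (l 6)) (l 6)), by decide +kernel⟩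

def k51_pm_022 : ∃ t, chk3 f_pm_022 t 16 28 7 = true :=
  ⟨(a (a (c (a (l 16441160) (c (l 16404312) (b (l 16359408) (a (l 16450936) (l 16406768))))) (a (c (b (l 16440472) (l 16436904)) (c (a (l 16447360) (a (c (l 16452424) (l 16430928)) (l 16399712))) (a (a (b (l 16412168) (b (l 16441000) (l 6))) (b (l 16445664) (l 16463360))) (l 16448048)))) (c (c (a (l 16385608) (b (l 16387024) (l 16371472))) (a (b (l 16387064) (b (l 16435816) (l 6))) (l 16409512))) (l 16418616)))) (c (b (a (c (l 16297560) (c (a (l 16363072) (l 16345792)) (l 16316456))) (c (c (a (l 16318488) (l 16305600)) (a (l 16325560) (l 16315728))) (l 16324456))) (b (a (c (l 16324128) (c (a (l 16389816) (l 16372152)) (l 16364080))) (c (c (a (l 16344248) (l 16331032)) (a (l 16351456) (l 16341336))) (l 16350328))) (l 6))) (l 16296560))) (b (l 16140496) (c (l 16258688) (l 16255240)))), by decide +kernel⟩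

def k52_pm_022 : ∃ t, chk3 f_pm_022 t 16 29 3 = true :=
  ⟨(l 6), by decide +kernel⟩

def k53_pm_022 : ∃ t, chk3 f_pm_022 t 17 56 6 = true :=
  ⟨(a (c (a (c (b (a (c (l 16169496) (b (l 16171032) (l 16176384))) (l 16111712)) (l 16138744)) (b (a (c (b (a (l 16164048) (l 16155624)) (l 16171400)) (b (l 16137584) (a (l 16157712) (l 16153744)))) (c (l 16123656) (b (l 16118144) (l 16127672)))) (a (c (l 16178304) (b (a (l 16180576) (l 16168664)) (l 16182416))) (l 16120640)))) (b (a (l 16061032) (l 16008408)) (a (l 16061696) (l 16013616)))) (a (c (b (a (c (l 16132464) (l 16124608)) (c (b (a (l 16103872) (l 16100224)) (a (l 16126496) (l 16114504))) (b (l 16086040) (a (l 16103456) (l 16099800))))) (a (c (b (a (l 16156312) (l 16153264)) (a (c (l 16184936) (l 16170152)) (l 16168656))) (b (l 16138864) (a (l 16157080) (c (l 16156224) (l 16141168))))) (c (b (l 16128800) (l 16134104)) (b (a (c (l 16129120) (l 16114248)) (l 16113752)) (a (l 16141032) (l 16124800)))))) (b (l 16103632) (a (l 16137512) (c (b (l 16101680) (a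 (l 16120912) (l 16093032))) (l 16098888))))) (c (b (a (c (l 16074520) (b (a (l 16073536) (l 16060584)) (l 16075632))) (l 15997848)) (a (c (l 16074232) (b (l 16082104) (l 16080624))) (l 16020720))) (b (a (c (a (l 16061992) (b (l 16047688) (l 16060104))) (l 16045600)) (c (b (a (l 16033848) (l 16017720)) (l 16029792)) (b (a (l 16014768) (l 16007304)) (a (l 16033512) (l 16017392))))) (a (c (b (a (l 16086816) (l 16070984)) (l 16083976)) (b (a (l 16067128) (l 16060176)) (a (l 16024392) (l 16071376)))) (c (l 16027952) (b (l 16031032) (l 16030456)))))))) (c (a (l 15903832) (l 15864816)) (a (b (c (l 15945696) (a (c (l 15974520) (b (l 15977640) (l 15976856))) (l 15922944))) (l 15953392)) (l 15860704)))), by decide +kernel⟩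

def k54_pm_022 : ∃ t, chk3 f_pm_022 t 17 56 7 = true :=
  ⟨(a (a (l 16103712) (c (c (b (a (l 16039928) (c (b (l 15998920) (l 15993928)) (l 15998744))) (a (c (b (l 16051640) (a (l 16068848) (l 16040336))) (l 16052168)) (c (b (a (l 16034192) (l 16017816)) (a (l 16044912) (l 16024944))) (a (l 16025472) (b (l 16009232) (l 16018488)))))) (l 16023752)) (l 16019088))) (c (a (c (b (a (c (b (a (l 15981312) (l 15964912)) (l 15916024)) (b (l 15964000) (l 15972040))) (c (l 15925544) (b (a (l 15938728) (l 15918696)) (l 15925808)))) (a (c (l 15978448) (b (a (l 15991464) (l 15971856)) (a (l 15998976) (l 15972200)))) (l 15932024))) (b (a (l 15956536) (c (b (l 15920424) (a (l 15938920) (l 15919680))) (l 15918272))) (a (c (b (l 15973152) (a (l 15992464) (l 15973288))) (l 15971560)) (c (b (a (l 15946288) (l 15919824)) (l 15933320)) (b (a (l 15940232) (l 15920416)) (a (l 15947328) (l 15921128))))))) (c (b (l 15856104) (l 15862232)) (b (a (c (b (a (l 15893448) (l 15867352)) (l 15880112)) (b (l 15875824) (a (l 15893912) (l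 15867952)))) (l 15830824)) (a (b (l 15881880) (l 15886112)) (l 15838544))))) (a (b (l 15930136) (a (l 15962664) (c (c (b (l 15924168) (l 15929712)) (l 15921416)) (l 15918928)))) (c (b (a (c (l 15872720) (l 15868464)) (c (b (a (l 15842136) (l 15817360)) (l 15831272)) (b (l 15825280) (a (l 15842848) (l 15818616))))) (a (c (b (a (l 15894632) (l 15869584)) (a (l 15896296) (l 15874800))) (b (l 15877752) (a (l 15896128) (l 15829592)))) (c (l 15838408) (b (a (l 15844872) (l 15823288)) (l 15838784))))) (b (l 15842768) (a (l 15879520) (c (b (a (l 15844792) (l 15820368)) (a (l 15847008) (l 15826104))) (b (l 15829712) (a (l 15848456) (l 15823280)))))))))), by decide +kernel⟩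

def k55_pm_022 : ∃ t, chk3 f_pm_022 t 17 57 3 = true :=
  ⟨(b (a (b (b (b (c (c (a (a (l 16147848) (l 16113768)) (l 16040568)) (a (c (a (c (l 16183032) (a (l 16166112) (l 16163688))) (l 16134280)) (a (l 16146928) (c (a (l 16135680) (l 16124704)) (l 16110600)))) (c (l 16048312) (a (c (l 16088008) (l 16085408)) (l 16029920))))) (a (l 16118648) (c (c (a (c (l 16033432) (l 16060360)) (c (l 16038224) (l 16011536))) (l 16038600)) (l 16032896)))) (l 6)) (l 6)) (l 6)) (a (b (b (b (c (l 15956600) (c (c (l 15959176) (a (c (l 15986808) (l 15980272)) (l 15934056))) (a (l 15969616) (c (c (l 15934776) (l 15928776)) (l 15925576))))) (l 6)) (l 6)) (l 6)) (c (l 15882200) (b (c (l 15870240) (a (b (c (c (l 15888728) (a (l 15896936) (l 15876192))) (l 15881784)) (l 6)) (c (l 15844912) (c (a (l 15853104) (l 15832136)) (a (l 15850296) (c (l 15830440) (l 15829000))))))) (a (l 6) (a (l 6) (l 15842744))))))) (a (l 6) (a (l 6) (a (l 6) (a (l 6) (l 1)))))), by decide +kernel⟩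

def k56_pm_022 : ∃ t, chk3 f_pm_022 t 17 29 3 = true :=
  ⟨(a (l 6) (a (l 6) (a (l 6) (l 1)))), by decide +kernel⟩

def k57_pm_022 : ∃ t, chk3 f_pm_022 t 8 15 1 = true :=
  ⟨(a (l 6) (a (l 6) (l 1))), by decide +kernel⟩

def k58_pm_022 : ∃ t, chk3 f_pm_022 t 9 7 1 = true :=
  ⟨(b (b (a (a (a (c (c (b (l 15813248) (b (l 15832152) (l 1))) (b (l 15798832) (l 15824904))) (c (b (l 15784312) (l 15810768)) (b (c (l 15774272) (c (b (a (c (l 15786168) (b (a (l 15792760) (l 15771136)) (l 15786008))) (l 15742488)) (l 15774824)) (b (a (c (b (a (l 15792208) (l 15767792)) (a (l 15793496) (l 15773336))) (b (l 15777048) (l 15779864))) (c (l 15739712) (a (b (l 15744720) (l 15749968)) (l 15705824)))) (a (c (b (l 15788928) (l 15795184)) (b (a (l 15796680) (l 15776096)) (a (c (l 15803496) (l 15802040)) (l 15782568)))) (l 15750264))))) (c (l 15800024) (l 15792648))))) (a (a (b (c (l 15737488) (c (l 15735616) (l 15720000))) (l 1)) (l 1)) (l 1))) (l 1)) (l 1)) (l 1)) (l 1)), by decide +kernel⟩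

def k59_pm_022 : ∃ t, chk3 f_pm_022 t 5 3 1 = true :=
  ⟨(b (l 1) (l 1)), by decide +kernel⟩

def k60_pm_022 : ∃ t, chk3 f_pm_022 t 3 1 1 = true :=
  ⟨(l 1), by decide +kernel⟩

theorem s61_pm_022 : ∃ t, chk3 f_pm_022 t 17 56 3 = true := ex3_c k53_pm_022 k54_pm_022

theorem s62_pm_022 : ∃ t, chk3 f_pm_022 t 17 28 3 = true := ex3_b s61_pm_022 k55_pm_022

theorem s63_pm_022 : ∃ t, chk3 f_pm_022 t 17 14 3 = true := ex3_b s62_pm_022 k56_pm_022

theorem s64_pm_022 : ∃ t, chk3 f_pm_022 t 16 56 6 = true := ex3_a k48_pm_022 k49_pm_022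

theorem s65_pm_022 : ∃ t, chk3 f_pm_022 t 16 28 6 = true := ex3_b s64_pm_022 k50_pm_022

theorem s66_pm_022 : ∃ t, chk3 f_pm_022 t 16 28 3 = true := ex3_c s65_pm_022 k51_pm_022

theorem s67_pm_022 : ∃ t, chk3 f_pm_022 t 16 14 3 = true := ex3_b s66_pm_022 k52_pm_022

theorem s68_pm_022 : ∃ t, chk3 f_pm_022 t 8 14 3 = true := ex3_a s67_pm_022 s63_pm_022

theorem s69_pm_022 : ∃ t, chk3 f_pm_022 t 17 56 2 = true := ex3_a k44_pm_022 k45_pm_022

theorem s70_pm_022 : ∃ t, chk3 f_pm_022 t 17 28 2 = true := ex3_b s69_pm_022 k46_pm_022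

theorem s71_pm_022 : ∃ t, chk3 f_pm_022 t 17 14 2 = true := ex3_b s70_pm_022 k47_pm_022

theorem s72_pm_022 : ∃ t, chk3 f_pm_022 t 32 56 5 = true := ex3_c k39_pm_022 k40_pm_022

theorem s73_pm_022 : ∃ t, chk3 f_pm_022 t 16 56 5 = true := ex3_a s72_pm_022 k41_pm_022

theorem s74_pm_022 : ∃ t, chk3 f_pm_022 t 16 56 2 = true := ex3_c k38_pm_022 s73_pm_022

theorem s75_pm_022 : ∃ t, chk3 f_pm_022 t 16 28 2 = true := ex3_b s74_pm_022 k42_pm_022

theorem s76_pm_022 : ∃ t, chk3 f_pm_022 t 16 14 2 = true := ex3_b s75_pm_022 k43_pm_022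

theorem s77_pm_022 : ∃ t, chk3 f_pm_022 t 8 14 2 = true := ex3_a s76_pm_022 s71_pm_022

theorem s78_pm_022 : ∃ t, chk3 f_pm_022 t 8 14 1 = true := ex3_c s77_pm_022 s68_pm_022

theorem s79_pm_022 : ∃ t, chk3 f_pm_022 t 8 7 1 = true := ex3_b s78_pm_022 k57_pm_022

theorem s80_pm_022 : ∃ t, chk3 f_pm_022 t 4 7 1 = true := ex3_a s79_pm_022 k58_pm_022

theorem s81_pm_022 : ∃ t, chk3 f_pm_022 t 18 27 1 = true := ex3_a k35_pm_022 k36_pm_022

theorem s82_pm_022 : ∃ t, chk3 f_pm_022 t 18 26 1 = true := ex3_c k33_pm_022 k34_pm_022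

theorem s83_pm_022 : ∃ t, chk3 f_pm_022 t 18 13 1 = true := ex3_b s82_pm_022 s81_pm_022

theorem s84_pm_022 : ∃ t, chk3 f_pm_022 t 18 6 1 = true := ex3_b k32_pm_022 s83_pm_022

theorem s85_pm_022 : ∃ t, chk3 f_pm_022 t 9 6 1 = true := ex3_a s84_pm_022 k37_pm_022

theorem s86_pm_022 : ∃ t, chk3 f_pm_022 t 17 27 6 = true := ex3_a k29_pm_022 k30_pm_022

theorem s87_pm_022 : ∃ t, chk3 f_pm_022 t 17 27 3 = true := ex3_c s86_pm_022 k31_pm_022

theorem s88_pm_022 : ∃ t, chk3 f_pm_022 t 17 13 3 = true := ex3_b k28_pm_022 s87_pm_022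

theorem s89_pm_022 : ∃ t, chk3 f_pm_022 t 34 13 5 = true := ex3_b k25_pm_022 k26_pm_022

theorem s90_pm_022 : ∃ t, chk3 f_pm_022 t 17 13 5 = true := ex3_a s89_pm_022 k27_pm_022

theorem s91_pm_022 : ∃ t, chk3 f_pm_022 t 35 13 4 = true := ex3_b k23_pm_022 k24_pm_022

theorem s92_pm_022 : ∃ t, chk3 f_pm_022 t 17 13 4 = true := ex3_a k22_pm_022 s91_pm_022

theorem s93_pm_022 : ∃ t, chk3 f_pm_022 t 17 13 2 = true := ex3_c s92_pm_022 s90_pm_022

theorem s94_pm_022 : ∃ t, chk3 f_pm_022 t 17 13 1 = true := ex3_c s93_pm_022 s88_pm_022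

theorem s95_pm_022 : ∃ t, chk3 f_pm_022 t 16 13 3 = true := ex3_a k20_pm_022 k21_pm_022

theorem s96_pm_022 : ∃ t, chk3 f_pm_022 t 33 27 5 = true := ex3_c k18_pm_022 k19_pm_022

theorem s97_pm_022 : ∃ t, chk3 f_pm_022 t 33 27 2 = true := ex3_c k17_pm_022 s96_pm_022

theorem s98_pm_022 : ∃ t, chk3 f_pm_022 t 32 27 4 = true := ex3_b k14_pm_022 k15_pm_022

theorem s99_pm_022 : ∃ t, chk3 f_pm_022 t 32 27 2 = true := ex3_c s98_pm_022 k16_pm_022

theorem s100_pm_022 : ∃ t, chk3 f_pm_022 t 16 27 2 = true := ex3_a s99_pm_022 s97_pm_022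

theorem s101_pm_022 : ∃ t, chk3 f_pm_022 t 16 26 2 = true := ex3_a k12_pm_022 k13_pm_022

theorem s102_pm_022 : ∃ t, chk3 f_pm_022 t 16 13 2 = true := ex3_b s101_pm_022 s100_pm_022

theorem s103_pm_022 : ∃ t, chk3 f_pm_022 t 16 13 1 = true := ex3_c s102_pm_022 s95_pm_022

theorem s104_pm_022 : ∃ t, chk3 f_pm_022 t 8 13 1 = true := ex3_a s103_pm_022 s94_pm_022

theorem s105_pm_022 : ∃ t, chk3 f_pm_022 t 17 12 2 = true := ex3_a k9_pm_022 k10_pm_022

theorem s106_pm_022 : ∃ t, chk3 f_pm_022 t 17 12 1 = true := ex3_c s105_pm_022 k11_pm_022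

theorem s107_pm_022 : ∃ t, chk3 f_pm_022 t 16 12 1 = true := ex3_c k7_pm_022 k8_pm_022

theorem s108_pm_022 : ∃ t, chk3 f_pm_022 t 8 12 1 = true := ex3_a s107_pm_022 s106_pm_022

theorem s109_pm_022 : ∃ t, chk3 f_pm_022 t 8 6 1 = true := ex3_b s108_pm_022 s104_pm_022

theorem s110_pm_022 : ∃ t, chk3 f_pm_022 t 4 6 1 = true := ex3_a s109_pm_022 s85_pm_022

theorem s111_pm_022 : ∃ t, chk3 f_pm_022 t 4 3 1 = true := ex3_b s110_pm_022 s80_pm_022

theorem s112_pm_022 : ∃ t, chk3 f_pm_022 t 2 3 1 = true := ex3_a s111_pm_022 k59_pm_022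

theorem s113_pm_022 : ∃ t, chk3 f_pm_022 t 8 5 1 = true := ex3_a k3_pm_022 k4_pm_022

theorem s114_pm_022 : ∃ t, chk3 f_pm_022 t 4 5 1 = true := ex3_a s113_pm_022 k5_pm_022

theorem s115_pm_022 : ∃ t, chk3 f_pm_022 t 8 4 1 = true := ex3_a k0_pm_022 k1_pm_022

theorem s116_pm_022 : ∃ t, chk3 f_pm_022 t 4 4 1 = true := ex3_a s115_pm_022 k2_pm_022

theorem s117_pm_022 : ∃ t, chk3 f_pm_022 t 4 2 1 = true := ex3_b s116_pm_022 s114_pm_022

theorem s118_pm_022 : ∃ t, chk3 f_pm_022 t 2 2 1 = true := ex3_a s117_pm_022 k6_pm_022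

theorem s119_pm_022 : ∃ t, chk3 f_pm_022 t 2 1 1 = true := ex3_b s118_pm_022 s112_pm_022

theorem s120_pm_022 : ∃ t, chk3 f_pm_022 t 1 1 1 = true := ex3_a s119_pm_022 k60_pm_022

theorem c_pm_022 : CertNX 0 536870912 0 536870912 1046898278 26843546 3 false true false .pp 0 2 2
    ndN0q0 ndN0q2 pcN2 cut_pm_022 Ext.none :=
  certNX0 (fam := false) (s1 := true) (s2 := false) (a := 0) (b := 2) (c := 2) (cn := .pp) (n1 := ndN0q0) (n2 := ndN0q2) (pc := pcN2) (cut := cut_pm_022) (xt := Ext.none) (P1 := 0) (W1 := 536870912) (P2 := 0) (W2 := 536870912) (P3 := 1046898278) (W3 := 26843546) (N0 := 3)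
    rfl s120_pm_022

end Pool.Agent.Strip051.G.IE1.Tab.C.NB00

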