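import Pool.Agent.Strip051.G.IE1.Tab

/-! # Certificates N42 (generated) -/

set_option linter.all false
set_option maxRecDepth 100000

namespace Pool.Agent.Strip051.G.IE1.Tab.C.NB00

open Pool.Agent.Strip051.PB Pool.Agent.Strip051.PB.T
open Pool.Agent.Strip051.G.IE1.Tab

noncomputable def cut_pm_101 : Cut := Cut.of [[⟨0, 1, 0, 67108864⟩, ⟨1, 0, 0, 67108864⟩, ⟨2, 1, 0, 67108864⟩, ⟨3, 0, 0, 1317011456⟩]]

noncomputable def f_pm_101 : ℕ → ℕ → ℕ → ℕ → Bool := onCell 0 536870912 536870912 536870912 1046898278 26843546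
    (rowNX 3 2 false true false .npn 1 0 1 (qsf 536870912 536870912 536870912 536870912 0) ndN0q1 ndN0q1 pcN0 cut_pm_101 Ext.none)

def k0_pm_101 : ∃ t, chk3 f_pm_101 t 16 8 1 = true :=
  ⟨(l 4), by decide +kernel⟩

def k1_pm_101 : ∃ t, chk3 f_pm_101 t 16 36 1 = true :=
  ⟨(a (a (a (a (c (c (l 181697238807) (l 183307851719)) (c (l 16777136) (c (l 183307878583) (c (l 182771029623) (a (l 182234162807) (l 16777208)))))) (l 4)) (l 4)) (l 4)) (l 4)), by decide +kernel⟩

def k2_pm_101 : ∃ t, chk3 f_pm_101 t 16 37 1 = true :=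
  ⟨(a (c (a (c (l 16750832) (c (l 16750704) (a (l 16747400) (a (l 16753160) (a (l 16755856) (c (l 16757488) (l 16757360))))))) (c (c (c (a (l 16760864) (a (b (a (l 161296173159) (l 16776112)) (l 16755000)) (l 16767120))) (a (a (l 16759792) (a (l 16762104) (b (l 163443566887) (l 16752200)))) (l 16765552))) (a (a (l 27615198055) (a (c (l 26541455623) (l 16761984)) (l 16763264))) (l 16765392))) (c (a (a (a (c (l 16759136) (l 16759064)) (c (l 16760560) (l 16760424))) (l 16762200)) (l 16765184)) (a (l 16760264) (c (b (l 168812375959) (l 16755616)) (a (l 16743320) (l 16766584))))))) (a (c (c (a (l 16747304) (a (a (l 16752288) (l 16733056)) (l 16756216))) (a (l 16747192) (a (l 16752776) (l 16734920)))) (c (a (a (l 16745184) (c (l 16749120) (l 16748968))) (a (l 16731528) (l 16755800))) (a (a (c (l 16745048) (a (l 16743960) (l 16745960))) (l 16706864)) (l 16753824)))) (c (a (c (a (l 16759048) (c (l 16761744) (l 16761688))) (c (a (l 16758880) (l 16761696)) (l 16759920))) (c (l 23857105303) (l 16765048))) (c (l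 16730216) (l 16761592))))) (a (c (a (c (c (l 16769368) (b (l 177939170327) (l 16763008))) (c (a (c (l 16768712) (b (l 177939172935) (l 16761216))) (b (l 4) (l 16764688))) (l 16769160))) (b (l 4) (c (c (c (l 16768760) (a (l 16767792) (a (l 16769912) (l 16771104)))) (a (c (l 16767728) (l 16767704)) (l 16770312))) (l 16768720)))) (c (c (l 16769976) (b (l 180086658087) (l 16765360))) (l 16769912))) (b (l 4) (c (c (c (a (c (a (a (l 16772208) (l 16773184)) (l 16774240)) (l 16772952)) (l 16775744)) (l 16773656)) (l 16773680)) (c (c (l 168812196183) (l 16773680)) (l 16773632)))))), by decide +kernel⟩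

def k3_pm_101 : ∃ t, chk3 f_pm_101 t 16 19 1 = true :=
  ⟨(a (c (a (c (l 16659328) (c (l 16658768) (a (l 16653056) (a (l 16661168) (a (l 16623128) (l 16667264)))))) (c (a (a (c (l 16672624) (l 16630328)) (c (c (l 16677744) (l 16677472)) (c (a (l 16634144) (l 16678008)) (l 16634336)))) (a (c (b (l 16711512) (l 16610024)) (l 16679896)) (l 16683912))) (a (c (a (a (l 16670496) (l 16672496)) (l 16674936)) (l 16671456)) (c (l 16679744) (a (l 16676544) (c (l 16680440) (l 16680320))))))) (a (c (a (c (l 16652656) (l 16652192)) (c (a (a (l 16659464) (l 16661856)) (l 16643688)) (a (l 16659304) (l 16662952)))) (a (c (a (l 16628120) (c (l 16654240) (l 16653576))) (a (c (l 16648568) (a (l 16647032) (l 16628336))) (l 16652872))) (c (a (l 16657968) (l 16662424)) (l 16659848)))) (c (a (c (c (l 16628192) (l 16669560)) (l 16669352)) (c (l 16678288) (l 16678632))) (c (l 16673928) (l 16673352))))) (c (c (a (a (c (l 16689432) (l 16687912)) (c (c (l 16696224) (a (l 16693920) (l 16697416))) (a (c (l 16693336) (l 16693152))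 (l 16655512)))) (c (c (a (a (a (l 16700464) (l 16702432)) (l 16705648)) (l 16712040)) (l 16686952)) (l 16687272))) (a (c (a (a (c (l 16664160) (l 16684696)) (l 16709984)) (l 16695640)) (l 16691512)) (l 16666856))) (c (c (a (l 16691888) (l 16709088)) (a (l 16691976) (l 16708728))) (l 16699456)))), by decide +kernel⟩

def k4_pm_101 : ∃ t, chk3 f_pm_101 t 32 5 2 = true :=
  ⟨(a (b (c (b (l 16528720) (l 16388568)) (c (l 16456288) (a (l 16447192) (a (l 16459584) (b (l 16389976) (l 16356072)))))) (c (l 16072616) (a (l 16140288) (c (l 16166088) (b (l 16118272) (l 16041424)))))) (c (b (a (c (b (c (l 16550400) (l 16466008)) (l 16353072)) (a (l 16309824) (b (a (l 16487544) (l 16552328)) (l 16353832)))) (c (b (c (l 16476536) (l 16558552)) (l 16363784)) (l 16487288))) (a (c (b (l 16272096) (l 16117672)) (a (l 16165400) (b (l 16272440) (l 16117568)))) (b (l 16174952) (l 16104616)))) (a (b (c (a (b (a (l 16522208) (l 16545424)) (l 16344616)) (l 16478528)) (l 16471920)) (c (a (b (l 16260976) (l 16103688)) (l 16184688))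 (l 16173448))) (b (c (l 16482160) (b (a (l 16525632) (l 16487856)) (a (l 16407152) (l 16411616)))) (c (l 16186608) (b (l 16197464) (l 16100128))))))), by decide +kernel⟩

def k5_pm_101 : ∃ t, chk3 f_pm_101 t 32 5 3 = true :=
  ⟨(a (c (b (a (b (l 16392400) (l 16332296)) (c (a (b (l 16466288) (l 16388208)) (l 16399824)) (a (b (l 16526480) (l 16383944)) (b (l 16509040) (l 16387352))))) (a (c (l 16137200) (l 16008976)) (c (a (b (l 16236928) (l 16074576)) (l 16160664)) (a (l 16085176) (l 16088376))))) (a (b (c (a (l 16397856) (b (a (l 16518120) (l 16478672)) (l 16185928))) (a (a (b (a (l 16488824) (l 16385568)) (l 16217096)) (c (l 16335304) (l 16417824))) (b (l 16454184) (l 16371400)))) (c (a (l 16126680) (b (l 16156688) (l 16053184))) (a (c (l 15998176) (a (l 15994264) (l 16123832))) (l 15941568)))) (b (c (b (l 16400576) (l 16340832)) (l 16431744)) (c (b (l 16228664) (l 16063272)) (l 16142896))))) (c (c (b (a (b (a (l 16536688) (l 16477504)) (l 16334904)) (l 16330944)) (a (a (l 16162504) (l 15977512)) (l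 16177768))) (b (b (l 16396408) (l 16339976)) (b (l 16252336) (l 16090760)))) (b (b (l 16458488) (l 16380584)) (c (l 16128432) (l 16166984))))), by decide +kernel⟩

def k6_pm_101 : ∃ t, chk3 f_pm_101 t 33 5 1 = true :=
  ⟨(c (c (c (a (b (a (l 16497112) (b (c (l 16571040) (l 16485720)) (l 16351768))) (b (l 16184312) (l 16071640))) (a (b (b (c (l 16452856) (l 16578984)) (l 16340200)) (b (l 16280456) (l 16147288))) (b (l 16502704) (l 16241720)))) (a (b (c (a (l 16493400) (a (b (l 16566432) (l 16430232)) (l 16460672))) (a (l 16365240) (l 16353360))) (a (l 16094744) (b (l 16182872) (l 16089560)))) (b (l 16476840) (l 16235464)))) (b (c (a (a (a (b (l 16472616) (l 16418616)) (b (l 16540112) (l 16423784))) (l 16501192)) (l 16499288)) (l 16361768)) (a (c (a (b (l 16169200) (l 16073848)) (l 16210312)) (l 16203488)) (l 16218864)))) (b (b (c (c (a (l 16565680) (l 16566832)) (l 16429360)) (l 16574096)) (c (c (l 16359824) (l 16380064)) (l 16439552))) (c (b (c (l 16280152) (l 16300080)) (a (l 16128984) (l 16166152)))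 (l 16174664)))), by decide +kernel⟩

def k7_pm_101 : ∃ t, chk3 f_pm_101 t 17 2 1 = true :=
  ⟨(b (b (l 4) (b (b (l 4) (a (a (a (a (c (c (l 180623487479) (l 182234132807)) (l 182771001095)) (l 4)) (l 4)) (l 4)) (l 4))) (c (c (a (b (a (l 16752336) (b (l 162906704183) (l 16754112))) (l 16641952)) (c (a (b (l 159685465207) (l 16728720)) (b (b (l 4) (a (l 157001082503) (c (l 165591032567) (l 16775784)))) (a (l 16739688) (l 16746496)))) (a (b (b (a (l 176865425511) (l 4)) (a (l 16764288) (l 16769488))) (l 16728888)) (b (l 171496650375) (l 16742912))))) (a (a (c (l 16724552) (a (l 16721296) (l 16728608))) (c (b (b (a (l 16773176) (l 16775784)) (l 16754256)) (l 16713632)) (l 16737712))) (b (a (l 161296070007) (l 173644137255)) (l 16735480)))) (a (a (c (l 16724184) (l 16723240)) (c (l 16737192) (l 16736496))) (b (c (a (l 16770504) (l 175254749255)) (l 172570335191)) (c (l 16734760) (l 16734016))))))) (c (b (a (c (b (c (l 16616880) (l 16617944)) (l 16472912)) (c (a (l 16503152) (b (l 16565928) (l 16509160))) (a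 (b (l 16566864) (l 16483840)) (l 16546312)))) (c (c (a (b (l 16647432) (l 16532680)) (b (a (l 16619680) (l 16565480)) (a (l 16551376) (l 16541792)))) (a (b (c (l 16606048) (l 16626968)) (l 16512552)) (l 16505128))) (b (a (l 16646744) (l 16663904)) (l 16521104)))) (a (c (b (l 16361400) (l 16219232)) (b (c (l 16280632) (l 16321984)) (c (l 16181472) (l 16222624)))) (c (a (c (l 16342672) (b (l 16410800) (l 16279096))) (c (b (l 16377000) (l 16293416)) (l 16374568))) (b (l 16420608) (l 16290248))))) (b (a (c (b (l 16595752) (l 16492784)) (b (l 16613824) (l 16487648))) (b (c (l 16632168) (l 16630008)) (c (l 16537992) (l 16533832)))) (a (c (l 16182552) (l 16278576)) (b (l 16411280) (l 16277512)))))), by decide +kernel⟩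

def k8_pm_101 : ∃ t, chk3 f_pm_101 t 9 2 1 = true :=
  ⟨(b (b (l 4) (b (l 4) (b (a (a (a (a (c (c (l 179549770327) (l 181697233991)) (l 182770966631)) (l 4)) (l 4)) (l 4)) (l 4)) (a (c (a (c (a (l 16755048) (l 16764144)) (a (l 16754656) (l 16763912))) (c (b (l 177939137735) (l 16748176)) (b (l 180086621047) (l 16769008)))) (a (c (a (l 16754264) (l 16763680)) (l 16757632)) (c (l 170959764583) (l 16771416)))) (a (a (a (b (l 4) (c (l 175791658791) (l 16776888))) (l 4)) (l 4)) (l 4)))))) (a (c (b (a (c (b (c (l 16645688) (l 16665880)) (l 16519408)) (b (c (l 16665088) (l 16664296)) (l 16578896))) (b (c (l 16650152) (l 16690968)) (c (l 16611968) (l 16609080)))) (a (c (b (l 16469696) (l 16348808)) (b (l 16464280) (l 16341272))) (b (l 16501032) (l 16383504)))) (b (a (b (c (l 16642128) (l 16661480)) (c (l 16575432) (l 16571928))) (b (c (l 16710808) (l 16709656)) (c (l 16606152) (l 16603176)))) (a (b (l 16414128) (l 16329840)) (b (l 16491328) (l 16369664))))) (b (c (b (a (b (c (a (l 16754992) (l 16764152)) (a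 (l 16754600) (l 16763928))) (c (l 16714824) (l 16671792))) (b (c (b (l 176328522519) (l 16748296)) (b (l 178476005495) (l 16769136))) (c (l 16740456) (l 16739816)))) (a (c (a (l 16633488) (l 16649632)) (a (l 16630984) (l 16647408))) (c (l 16652792) (l 16671960)))) (b (a (a (c (l 16729720) (l 16728888)) (c (l 16741184) (l 16740552))) (b (c (l 170422894551) (l 16750552)) (c (l 16739168) (l 16738504)))) (c (a (l 16594824) (l 16670128)) (a (l 16613360) (l 16668272))))) (c (b (a (a (l 16525920) (l 16546200)) (c (l 16579624) (l 16576176))) (a (c (l 16427088) (l 16420976)) (l 16475928))) (b (a (a (l 16517096) (l 16538096)) (c (l 16572680) (l 16569128))) (a (l 16411640) (l 16465352))))))), by decide +kernel⟩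

def k9_pm_101 : ∃ t, chk3 f_pm_101 t 5 2 1 = true :=
  ⟨(b (l 4) (a (a (b (a (b (c (b (c (l 179012894199) (l 181160377831)) (c (b (l 16769552) (l 16752872)) (l 16760400))) (b (c (l 182770968599) (l 184381580999)) (c (l 16760112) (l 16759808)))) (c (c (l 16681704) (l 16701376)) (c (l 16700056) (l 16698720)))) (b (b (l 4) (c (c (a (l 267395217527) (l 168275435367)) (a (l 16771144) (l 170959789351))) (c (a (l 16771040) (l 16753952)) (l 291554413223)))) (c (c (a (l 16721832) (l 16712952)) (a (l 16720864) (l 16712200))) (c (l 16726224) (l 16725336))))) (c (a (b (c (l 16618296) (l 16615528)) (l 16525488)) (b (c (l 16632920) (l 16651744)) (c (l 16574320) (l 16570784)))) (c (b (a (l 16612712) (l 16649560)) (l 16480472)) (b (l 16566032) (l 16518352))))) (b (b (a (a (a (b (l 1) (c (l 608308284199) (l 617971960263))) (l 1)) (l 1)) (l 1)) (c (c (b (a (l 67679258823) (l 566432322263)) (l 16748256)) (b (a (l 16764184) (l 277058899911)) (l 16747752))) (a (c (l 16749536) (l 16749056)) (c (l 254510295127) (l 260952766775)))))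 (c (b (c (a (l 16692384) (l 16725648)) (a (l 16690904) (l 16724752))) (c (l 16571656) (l 16611480))) (b (c (l 16707432) (l 16685248)) (c (l 16630296) (l 16628112)))))) (b (b (l 1) (b (l 1) (a (a (a (c (l 205118235479) (l 16768160)) (l 1)) (l 1)) (l 1)))) (c (a (c (b (a (l 16751552) (l 16769984)) (l 16732240)) (b (a (l 16751104) (l 16769856)) (l 16742128))) (b (c (l 241088601111) (l 250215406615)) (c (l 16777176) (l 16777176)))) (a (c (b (l 16750632) (l 16741520)) (b (l 16760840) (l 16740896))) (b (c (l 258805341207) (l 267395275799)) (c (l 16777176) (l 16777176)))))))), by decide +kernel⟩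

def k10_pm_101 : ∃ t, chk3 f_pm_101 t 16 24 1 = true :=
  ⟨(a (c (a (c (l 15903432) (c (l 15899264) (a (l 15880512) (l 15910720)))) (c (a (a (l 15942912) (c (l 15959456) (l 15951240))) (l 15959952)) (a (c (l 15893864) (l 15922680)) (c (l 15938296) (l 15928024))))) (a (c (a (l 15875840) (c (l 15839728) (l 15725240))) (a (c (a (l 15863520) (l 15874424)) (a (c (l 15859760) (l 15856968)) (l 15867080))) (c (l 15885624) (l 15882576)))) (c (a (c (l 15910304) (l 15905664)) (l 15926928)) (l 15914168)))) (c (a (c (a (l 15961080) (c (l 15969272) (l 15963736))) (c (a (l 15945824) (l 15965944)) (l 15957888))) (c (c (l 15930472) (l 15997552)) (l 16003840))) (c (l 15814360) (l 15973880)))), by decide +kernel⟩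

def k11_pm_101 : ∃ t, chk3 f_pm_101 t 32 25 1 = true :=
  ⟨(c (c (a (b (l 15765680) (l 15672496)) (a (b (a (l 15809904) (l 15822760)) (a (l 15614184) (b (c (l 15757864) (a (l 15747136) (l 15749432))) (c (l 15713400) (l 15702704))))) (a (b (l 15828552) (b (b (l 15771584) (l 15684312)) (l 15712992))) (l 15647776)))) (a (b (l 15737224) (a (l 15646504) (c (l 15686056) (a (l 15673096) (a (l 15686552) (c (l 15695792) (l 15688816))))))) (a (b (l 15793216) (c (a (a (c (l 15710288) (l 15705928)) (l 15711296)) (l 15711176)) (l 15692760))) (b (l 15798216) (c (l 15709824) (a (l 15671968) (c (l 15698480) (l 15697160)))))))) (a (b (c (a (l 15734248) (c (l 15764128) (l 15752960))) (a (c (l 15725624) (a (l 15693088) (l 15723784))) (l 15699344))) (c (a (b (l 15553560) (l 15609680)) (c (a (a (l 15664648) (l 15545712)) (l 15674600)) (a (l 15613448) (l 15552984)))) (a (c (a (l 15623776) (c (l 15555792) (a (l 15632216) (l 15633576)))) (a (c (a (l 15616208) (l 15622504)) (a (c (l 15613824) (l 15591080)) (l 15617824))) (c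 (l 15628712) (l 15626632)))) (c (a (c (l 15643544) (l 15640304)) (l 15652696)) (l 15644656))))) (c (b (a (l 15770560) (l 15789960)) (a (a (c (l 15674616) (l 15538848)) (c (c (l 15679272) (l 15675192)) (l 15676880))) (l 15590496))) (b (l 15775800) (c (l 15684192) (l 15678088)))))), by decide +kernel⟩

def k12_pm_101 : ∃ t, chk3 f_pm_101 t 33 25 1 = true :=
  ⟨(c (b (a (c (a (l 15828472) (c (l 15836848) (l 15830400))) (l 15719400)) (c (l 15865960) (l 15875440))) (a (c (a (c (l 15744520) (l 15705672)) (a (c (l 15742808) (c (l 15730992) (l 15728744))) (c (b (l 15768040) (l 15722136)) (l 15740632)))) (c (a (a (c (l 15713408) (l 15708368)) (l 15593520)) (l 15739352)) (l 15730584))) (c (b (l 15798224) (c (a (c (l 15693640) (l 15737136)) (l 15765136)) (l 15756968))) (l 15783688)))) (c (b (l 15851424) (a (c (l 15735120) (l 15736160)) (c (l 15766912) (l 15782688)))) (b (l 15841824) (l 15748248)))), by decide +kernel⟩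

def k13_pm_101 : ∃ t, chk3 f_pm_101 t 16 26 1 = true :=
  ⟨(a (c (a (c (l 15515992) (a (l 15486584) (c (l 15531504) (a (l 15516816) (a (l 15532136) (l 15538128)))))) (c (a (a (l 15569112) (c (c (l 15593512) (l 15569336)) (a (l 15432384) (l 15581512)))) (c (b (l 15608368) (l 15530624)) (l 15579672))) (a (c (a (a (l 15535152) (l 15560288)) (l 15560096)) (l 15539032)) (c (l 15558488) (a (l 15539248) (l 15398800)))))) (a (c (a (c (l 15480344) (l 15370632)) (c (a (a (l 15507240) (l 15515048)) (l 15518440)) (a (l 15496608) (l 15499312)))) (a (c (a (l 15460816) (a (l 15473248) (l 15310424))) (a (c (a (l 15452264) (l 15459352)) (a (b (l 15335632) (l 15310104)) (l 15454016))) (c (l 15466280) (l 15463912)))) (c (a (l 15356264) (l 15493432)) (l 15484240)))) (c (a (c (a (l 15518392) (l 15354464)) (l 15346608)) (l 15520984)) (c (l 15529144) (l 15522168))))) (c (a (c (a (c (l 15598136) (l 15577720)) (c (c (l 15600688) (a (l 15591160) (l 15593184))) (a (c (l 15582760) (l 15580192)) (l 15593792)))) (c (a (a (c (l 15562640)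 (l 15556880)) (l 15569440)) (l 15592280)) (l 15582184))) (c (c (a (c (a (l 15603856) (l 15616888)) (l 15612488)) (l 15642792)) (l 15633712)) (l 15642920))) (c (a (c (l 15587368) (l 15588560)) (c (l 15647712) (l 15641784))) (l 15602336)))), by decide +kernel⟩

def k14_pm_101 : ∃ t, chk3 f_pm_101 t 32 27 1 = true :=
  ⟨(c (a (c (b (l 15355712) (l 15119920)) (a (b (l 15322936) (l 15158976)) (a (b (l 15358616) (l 15209256)) (c (l 15228768) (b (l 15354584) (a (l 15228120) (l 15069088))))))) (c (a (a (b (l 15414416) (l 15175184)) (c (b (l 15439312) (a (l 15303648) (l 15293592))) (b (l 15404896) (a (l 15103304) (l 15294648))))) (a (b (l 15395984) (c (l 15152016) (l 15292752))) (l 15369552))) (a (c (a (b (l 15338200) (a (l 15072856) (l 15267184))) (l 15334648)) (l 15308688)) (c (l 15331920) (b (a (l 15379848) (l 15386576)) (a (l 15239160) (l 15204176))))))) (a (c (a (b (l 15312992) (b (l 15177384) (l 15070864))) (a (b (c (l 15349184) (l 15333528)) (a (c (l 15191144) (l 15112616)) (b (l 15191488) (l 15024096))))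 (c (b (l 15357704) (l 15209552)) (b (l 15336136) (l 14974512))))) (a (c (a (b (l 15294088) (l 15113696)) (b (a (l 15307744) (l 15313096)) (a (b (l 15215784) (l 15061504)) (c (l 15152144) (l 15139104))))) (a (b (c (l 15287992) (a (l 15238240) (l 15286296))) (c (a (l 15098936) (l 15029384)) (a (c (l 15094336) (l 14923240)) (l 15105200)))) (b (l 15297584) (c (l 15127840) (l 15123560))))) (b (c (l 15240488) (l 15319408)) (c (b (l 15212520) (l 14996088)) (l 15157552))))) (c (a (c (b (l 15276192) (a (l 15211920) (l 15091496))) (b (l 15352496) (a (l 15133344) (l 15214008)))) (b (l 15382712) (l 15239536))) (b (l 15364208) (c (l 15220840) (l 15210536)))))), by decide +kernel⟩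

def k15_pm_101 : ∃ t, chk3 f_pm_101 t 33 27 1 = true :=
  ⟨(c (c (a (a (b (l 15434280) (l 15259464)) (c (b (l 15401336) (c (l 15316072) (l 15158480))) (a (b (l 15426792) (c (l 15292872) (l 15288912))) (l 15245624)))) (a (c (b (l 15396456) (b (l 15375920) (l 15281160))) (l 15398744)) (l 15347744))) (a (c (a (b (a (l 15403032) (l 15412600)) (a (l 15181400) (l 15275320))) (l 15369192)) (l 15357136)) (l 15342680))) (c (b (a (l 15432824) (l 15495192)) (a (l 15125040) (l 15275216))) (l 15230000))), by decide +kernel⟩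

def k16_pm_101 : ∃ t, chk3 f_pm_101 t 17 6 1 = true :=
  ⟨(b (c (b (a (c (l 16066576) (a (l 16050224) (l 16092872))) (c (a (l 16052352) (c (l 16179616) (l 16176880))) (l 16150296))) (a (c (b (l 15945424) (b (l 15882184) (l 15840056))) (b (l 15950152) (b (l 15887272) (a (c (l 15820608) (l 15822640)) (c (l 15874360) (l 15869968)))))) (c (b (a (l 16023680) (l 16070520)) (a (c (l 15939432) (b (l 15966784) (l 15925352))) (c (a (l 15981992) (l 15965856)) (l 15990264)))) (b (l 16039232) (l 15956496))))) (a (b (l 16058304) (b (l 15935736) (c (l 15852936) (l 15836264)))) (b (l 16133896) (b (l 16019928) (l 15935032))))) (c (a (c (b (l 15683888) (b (l 15585200) (l 15461248))) (b (a (c (l 15704168) (l 15706456)) (c (l 15743672) (l 15759728))) (b (a (l 15520128) (l 15624784)) (a (c (l 15433664) (l 15434848)) (c (l 15504888) (l 15497240)))))) (c (b (a (c (l 15818864) (l 15738280)) (c (a (l 15865584) (l 15830688)) (l 15874784))) (a (c (l 15566264) (b (l 15691888) (l 15574256))) (c (b (a (l 15739960) (l 15771040)) (a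 (l 15627056) (l 15660192))) (l 15692424)))) (b (l 15837936) (b (l 15709016) (l 15589880))))) (a (b (c (l 15721752) (l 15702712)) (b (l 15571264) (l 15396136))) (b (l 15813360) (b (l 15681056) (l 15554840)))))), by decide +kernel⟩

def k17_pm_101 : ∃ t, chk3 f_pm_101 t 32 14 2 = true :=
  ⟨(a (b (c (b (l 14926416) (l 14647624)) (a (l 14667848) (c (l 14776272) (a (l 14721688) (b (l 14825016) (l 14603416)))))) (c (b (l 14413376) (l 14260032)) (a (b (l 14209680) (l 13968136)) (c (l 14233040) (a (l 14114648) (b (l 14280880) (a (l 14039072) (l 14059888)))))))) (b (c (c (a (a (l 14900048) (b (l 15030104) (l 14815840))) (b (b (l 15139816) (l 15031488)) (l 14738504))) (a (a (l 14660896) (b (a (l 15040032) (l 15048104)) (l 14598448))) (l 14892456))) (a (a (c (a (b (l 14983976) (l 14682240)) (l 14630864)) (l 14784840)) (l 14823872)) (c (l 14863584) (b (a (l 14973896) (l 14906968)) (a (l 14657792) (l 14680168)))))) (c (a (a (b (l 14527648) (l 14371608)) (a (c (l 14510160) (b (l 14522224) (l 14347240))) (c (b (l 14612480)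 (l 14472944)) (l 14431720)))) (a (c (b (l 14626896) (l 14485408)) (l 14438800)) (l 14498576))) (a (c (a (b (a (l 14412016) (l 14426496)) (a (l 14199312) (l 14214136))) (l 14320336)) (l 14202560)) (c (l 14339584) (b (a (l 14364440) (l 14389568)) (a (l 14116008) (l 14142920)))))))), by decide +kernel⟩

def k18_pm_101 : ∃ t, chk3 f_pm_101 t 32 14 3 = true :=
  ⟨(a (c (a (b (b (l 14787536) (l 14413360)) (b (l 14051744) (c (l 13783056) (l 13657880)))) (b (c (a (b (l 14866640) (l 14513176)) (l 14715040)) (a (c (l 14569856) (l 14627152)) (c (l 14674240) (l 14650808)))) (c (a (b (l 14177144) (l 13877976)) (l 14057184)) (a (b (l 14088360) (l 13746472)) (b (l 14119624) (l 13784032)))))) (a (b (c (a (l 14517192) (a (l 14363640) (a (l 14566088) (l 14572040)))) (a (c (a (l 14475960) (l 14498712)) (a (b (l 14678816) (l 14233864)) (l 14476280))) (c (l 14527000) (l 14509232)))) (c (a (l 13691584) (b (c (l 13978824) (l 13932472)) (c (l 13595672) (l 13526672)))) (a (c (a (l 13594848) (l 13627800)) (a (b (l 13776296) (l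 13307760)) (l 13571872))) (c (l 13670272) (l 13620640))))) (b (c (b (l 14729488) (l 14417008)) (l 14579752)) (c (b (l 14023488) (l 13643416)) (l 13735104))))) (c (b (b (a (c (a (l 14908488) (l 14927376)) (l 14896040)) (l 14962568)) (a (c (l 14512896) (l 14532056)) (l 14621808))) (a (c (b (l 14250560) (a (l 13945080) (l 13975352))) (b (l 14179496) (l 13853344))) (b (l 14292512) (l 13994656)))) (b (b (l 14691416) (l 14516072)) (b (l 14129984) (l 13756776))))), by decide +kernel⟩

def k19_pm_101 : ∃ t, chk3 f_pm_101 t 33 14 1 = true :=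
  ⟨(c (a (b (c (a (b (c (l 15100584) (l 15062968)) (l 14828816)) (b (b (c (l 15160176) (l 15142536)) (c (l 15029696) (a (l 15017312) (l 15035896)))) (c (l 14847480) (a (l 14818528) (l 14841656))))) (a (c (b (a (c (l 15033808) (l 15020720)) (l 15044480)) (a (l 14742456) (l 14764968))) (l 14830072)) (b (l 15076712) (l 14802032)))) (c (a (b (l 14603096) (l 14438512)) (a (c (l 14562464) (b (l 14581312) (l 14398880))) (c (b (l 14657536) (l 14503024)) (l 14503832)))) (a (c (b (a (l 14478864) (l 14503312)) (a (l 14266048) (l 14290968))) (l 14310688)) (l 14411264)))) (c (a (b (a (c (b (l 15031352) (l 14887192)) (l 14755984)) (b (l 15133104) (l 14905096))) (c (b (l 14728856) (l 14718920)) (l 14549632))) (b (b (l 15162784) (l 14943704)) (l 14629328))) (b (b (l 15140360) (l 14889992)) (l 14448032)))) (b (c (b (a (c (l 15045192) (l 15036088)) (l 15123136)) (a (l 14727600) (l 14699640))) (b (l 15040888) (l 14718912))) (c (b (a (l 14411448) (l 14546616)) (a (l 14126136) (l 14273736))) (b (l 14368064) (l 14032808))))),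 by decide +kernel⟩

def k20_pm_101 : ∃ t, chk3 f_pm_101 t 17 14 1 = true :=
  ⟨(c (b (a (c (b (l 15261000) (a (l 15014080) (l 15100720))) (b (a (l 15217616) (l 15287744)) (a (c (l 14998160) (l 14981528)) (l 15068672)))) (c (a (c (l 15281560) (l 15105400)) (c (a (l 15340664) (l 15375872)) (l 15339016))) (l 15272104))) (a (c (b (a (l 14804504) (l 14901976)) (l 14680264)) (b (a (l 14745816) (c (l 14862496) (l 14822200))) (a (l 14528104) (l 14627016)))) (c (b (a (c (l 15000912) (l 14976144)) (c (l 15057824) (l 15044672))) (a (l 14813688) (a (l 14869784) (l 14901800)))) (b (l 14950608) (l 14742968))))) (b (a (b (l 15199528) (a (l 14905184) (l 14978456))) (l 15199272)) (a (b (a (l 14608200) (l 14705504)) (l 14377512)) (b (l 14825176) (l 14566320))))), by decide +kernel⟩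

def k21_pm_101 : ∃ t, chk3 f_pm_101 t 128 30 1 = true :=
  ⟨(b (c (b (l 14011056) (l 14014464)) (c (a (l 13345880) (b (l 13520664) (l 13353760))) (c (a (l 13026632) (a (l 13100152) (l 13141240))) (a (c (l 12862632) (a (l 12724200) (l 12778768))) (l 12907528))))) (b (c (b (l 14090496) (c (b (l 14482048) (l 14568168)) (l 13855920))) (c (c (l 13355168) (a (l 12990736) (c (l 13166104) (a (l 12989152) (b (l 13075024) (l 13005736)))))) (c (a (b (l 12719256) (l 12611432)) (b (l 12827440) (c (a (l 12789704) (l 12835832)) (a (l 12614640) (l 12662408))))) (c (a (a (l 12378168) (a (l 12430960) (l 12462264))) (b (l 12605168) (l 12470560))) (a (a (c (l 12250000) (a (l 12144736) (l 12182416))) (l 12278448)) (l 12382672)))))) (b (a (b (c (c (l 14866168) (l 13921896)) (c (l 13138616) (c (l 12546104) (c (a (l 12207688) (l 12281080)) (a (c (l 12053104) (l 11949512)) (l 12080600)))))) (l 6)) (c (c (b (l 14651184) (l 14763168)) (l 13968896)) (c (c (l 13413104) (a (l 13016896) (c (l 13155112) (l 12968968)))) (c (a (c (l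 12728432) (l 12528096)) (c (l 12775416) (l 12578240))) (c (l 12361096) (l 12172488)))))) (l 6)))), by decide +kernel⟩

def k22_pm_101 : ∃ t, chk3 f_pm_101 t 129 30 1 = true :=
  ⟨(b (c (c (b (l 14267536) (l 14300768)) (a (l 13885592) (c (l 14028576) (b (l 13897456) (l 13812008))))) (c (c (a (b (l 13677656) (l 13542096)) (l 13650600)) (a (b (l 13497752) (l 13311632)) (b (l 13542816) (l 13365360)))) (c (a (l 13192928) (l 13267352)) (l 13047160)))) (b (c (c (b (l 14391328) (l 14494064)) (c (l 14036056) (a (l 13743072) (b (l 13785816) (b (l 13791512) (a (c (l 13871816) (l 13724160)) (c (a (l 13885312) (l 13890808)) (l 13736712)))))))) (c (c (a (b (l 13474920) (a (l 13440832) (c (l 13547736) (l 13624744)))) (b (l 13522200) (c (l 13574744) (l 13421008)))) (a (a (a (c (l 13220240) (l 13065304)) (l 13158008)) (l 13177912)) (c (l 13288208) (a (l 13130096) (l 13162240))))) (c (b (l 12961456) (a (c (l 12893048) (l 12739232)) (l 12909264))) (l 12637672)))) (a (b (c (c (l 14663432) (l 13985920)) (c (c (a (l 13459200)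 (c (l 13572920) (a (l 13394272) (l 13404176)))) (c (a (a (l 13185128) (l 13200408)) (l 13217368)) (l 13019416))) (c (c (l 12834800) (l 12659544)) (l 12403640)))) (l 6)) (c (c (b (l 14633120) (b (l 14774416) (l 6))) (c (l 14227040) (a (c (l 13972328) (a (l 13797936) (c (l 13848440) (l 13760920)))) (c (a (c (l 14021728) (l 13938448)) (b (l 13935152) (l 14038040))) (l 13806928))))) (c (c (a (a (b (l 13499680) (l 6)) (l 13532072)) (l 13539040)) (c (l 13260496) (a (l 13065024) (l 13097016)))) (c (l 12832640) (l 12498480))))))), by decide +kernel⟩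

def k23_pm_101 : ∃ t, chk3 f_pm_101 t 64 31 1 = true :=
  ⟨(l 6), by decide +kernel⟩

def k24_pm_101 : ∃ t, chk3 f_pm_101 t 65 60 2 = true :=
  ⟨(c (a (a (b (l 14325048) (l 14343248)) (c (b (l 14430392) (a (l 14454712) (l 14464360))) (b (l 14278552) (a (l 14269184) (l 14272504))))) (a (b (l 14365272) (b (l 14361896) (l 14377472))) (l 14355816))) (a (c (a (b (l 14096704) (a (l 14048888) (l 14060680))) (l 14082624)) (l 13885944)) (c (l 14094480) (a (l 13913824) (c (l 13974224) (l 13902520)))))), by decide +kernel⟩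

def k25_pm_101 : ∃ t, chk3 f_pm_101 t 65 61 4 = true :=
  ⟨(c (c (a (b (l 14624480) (b (l 14813248) (b (l 14947016) (c (l 15091576) (l 15011208))))) (b (a (a (b (l 14586440) (a (c (l 14698184) (l 14638360)) (l 14661872))) (l 14608544)) (l 14586800)) (a (a (a (b (c (l 14817512) (l 14750816)) (c (b (l 14936536) (l 15029848)) (c (l 14926888) (l 14889320)))) (c (b (l 14808752) (b (l 14924408) (b (l 14990768) (l 15039752)))) (l 14812056))) (b (l 14755480) (l 14906064))) (b (l 14720120) (l 14859864))))) (a (b (a (l 14505664) (a (l 14510048) (b (l 14479736) (a (l 14552744) (c (l 14581512) (l 14518304)))))) (a (l 14768016) (a (l 14745496) (a (c (l 14771168) (b (l 14628912) (l 14781000))) (c (b (l 14690904) (l 14845544)) (l 14689808)))))) (b (l 14483824) (l 14670688)))) (a (b (a (b (l 14297352) (c (l 14426328) (a (l 14294640) (c (l 14333232) (l 14269056))))) (b (l 14305776) (b (l 14343696) (a (c (a (l 14451600) (c (l 14483536) (l 14417992))) (l 14316504)) (l 14374160))))) (a (c (l 14615080) (a (l 14464736) (c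 (l 14497248) (a (l 14422856) (b (l 14357424) (l 14492256)))))) (a (c (a (l 14602912) (c (b (l 14564760) (l 14714040)) (b (l 14493640) (l 14635488)))) (c (a (b (l 14426720) (l 14565216)) (l 14481912)) (l 14407776))) (b (l 14443432) (l 14575912))))) (b (l 14307360) (l 14457888)))), by decide +kernel⟩

def k26_pm_101 : ∃ t, chk3 f_pm_101 t 65 61 5 = true :=
  ⟨(a (b (c (a (b (l 14061024) (b (l 14084608) (a (c (l 14180008) (a (l 14039712) (l 14041504))) (c (a (l 14184048) (l 14182432)) (l 14039168))))) (l 14075816)) (l 13813400)) (c (a (a (c (c (l 14347576) (l 14457888)) (a (c (l 14189952) (b (l 14056880) (l 14169808))) (b (l 14094584) (l 14208344)))) (c (a (c (b (l 14285624) (l 14416472)) (l 14266128)) (l 14299880)) (l 14138928))) (l 14202752)) (l 13889408))) (c (b (l 14071416) (l 14172456)) (b (b (l 13852264) (b (l 13844280) (a (c (l 13897504) (l 13831312)) (a (c (l 13900568) (l 13785520)) (l 13855560))))) (a (c (l 13959984) (a (l 13811040) (c (l 13849592) (l 13781144)))) (c (a (l 13956936) (c (l 13990456)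 (l 13928528))) (l 13833616)))))), by decide +kernel⟩

def k27_pm_101 : ∃ t, chk3 f_pm_101 t 65 30 3 = true :=
  ⟨(b (b (c (a (c (l 13769040) (l 13619880)) (l 13787024)) (l 13469976)) (c (a (c (a (l 13624720) (l 13659944)) (l 13454464)) (l 13649056)) (l 13253720))) (c (b (a (b (c (l 13572056) (l 13344792)) (c (a (l 13525128) (c (l 13618928) (a (l 13479576) (l 13503376)))) (c (a (b (l 13327096) (l 13536376)) (l 13374936)) (l 13223984)))) (c (b (l 13655480) (c (l 13673464) (l 13568904))) (l 13439080))) (a (c (a (l 13616360) (c (b (l 13627576) (l 13682952)) (a (c (l 13527760) (l 13453080)) (l 13512464)))) (c (a (a (c (l 13332328) (l 13249368)) (l 13317560)) (l 13362800)) (l 13189520))) (a (c (b (l 13657760) (l 13638008)) (l 13357416)) (l 13535448)))) (b (c (a (l 13084072) (l 13234408)) (l 12931288)) (c (a (l 12972824) (l 13131936)) (l 12768920))))), by decide +kernel⟩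

def k28_pm_101 : ∃ t, chk3 f_pm_101 t 65 31 1 = true :=
  ⟨(b (a (l 6) (a (l 6) (b (b (b (c (c (c (c (l 14993248) (l 14835752)) (l 14605216)) (c (l 14297264) (c (a (l 14068976) (l 14066920)) (l 13926760)))) (c (l 13588088) (l 13024720))) (l 6)) (l 6)) (l 6)))) (l 6)), by decide +kernel⟩

def k29_pm_101 : ∃ t, chk3 f_pm_101 t 33 30 2 = true :=
  ⟨(b (a (c (b (a (l 14366632) (c (l 14435656) (l 14316824))) (a (l 14350568) (c (l 14420840) (l 14274992)))) (a (c (a (l 14110000) (l 14130944)) (l 13993312)) (l 14121640))) (a (c (b (l 14411336) (l 14372360)) (l 14185968)) (l 14337584))) (a (c (b (b (a (l 14374568) (c (l 14443248) (l 14274088))) (a (c (l 14521456) (c (l 14353920) (a (l 14248192) (c (l 14263280) (l 14209904))))) (c (a (l 14485824) (b (l 14458416) (a (l 14481280) (c (l 14520160) (l 14424904))))) (a (b (l 14280728) (c (a (l 14342400) (l 14337168)) (l 14244576))) (l 14291408))))) (c (c (b (l 14622896) (l 14734792)) (a (l 14588648) (a (l 14538368) (a (c (l 14544312) (l 14488424)) (c (b (l 14489216)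 (l 14579568)) (l 14482088)))))) (a (c (l 14461496) (a (l 14345912) (c (l 14353704) (a (l 14296600) (l 14288504))))) (a (c (a (l 14426720) (c (l 14443544) (l 14389336))) (c (a (l 14340008) (l 14339344)) (l 14289080))) (c (l 14412728) (l 14318928)))))) (b (a (c (b (l 14145064) (a (c (l 14133360) (a (l 14020752) (l 14027416))) (a (c (l 14132656) (l 14038768)) (l 14094592)))) (l 13899504)) (l 14040720)) (c (a (a (c (l 14214824) (a (c (l 14119096) (l 14055664)) (l 14089928))) (c (a (c (l 14234648) (l 14176976)) (l 14207648)) (l 14100504))) (l 14172680)) (l 13956544)))) (a (b (c (c (b (l 14438792) (a (a (b (l 14451048) (c (l 14510616) (l 14425016))) (l 14458304)) (l 14462320))) (l 14304320)) (l 14092224)) (c (c (c (a (b (a (c (l 14579856) (l 14530400)) (l 14548904)) (c (a (l 14676072) (b (l 14636120) (l 14690208))) (a (l 14621240) (l 14614040)))) (b (l 14546288) (l 14630832))) (l 14501904)) (l 14372360)) (l 14114128))) (b (l 14269864) (c (b (l 14432432) (c (l 14578112) (l 14413352))) (l 14149504)))))), by decide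 +kernel⟩

def k30_pm_101 : ∃ t, chk3 f_pm_101 t 33 30 3 = true :=
  ⟨(b (c (a (c (l 13915016) (l 13792816)) (l 14006200)) (l 13680528)) (a (c (b (c (l 13766752) (b (l 13626936) (a (l 13524664) (l 13618176)))) (c (l 13753136) (a (l 13496760) (l 13589368)))) (b (l 13315952) (l 13207592))) (c (b (c (a (l 13878408) (l 13939784)) (l 13754080)) (c (a (c (l 13898672) (l 13809816)) (c (l 13951944) (l 13865208))) (l 13699232))) (b (l 13511232) (l 13415688))))), by decide +kernel⟩

def k31_pm_101 : ∃ t, chk3 f_pm_101 t 33 31 1 = true :=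
  ⟨(b (b (a (c (b (c (c (c (b (l 14844512) (l 14931664)) (a (b (l 14752104) (l 14838096)) (a (l 14721480) (c (a (l 14722088) (b (l 14665744) (l 14741272))) (a (b (l 14620472) (l 14691152)) (l 14642624)))))) (a (c (l 14647168) (a (l 14522616) (a (l 14493592) (l 14477112)))) (a (a (c (l 14593928) (l 14465928)) (c (c (l 14607752) (l 14545456)) (l 14459984))) (b (l 14480600) (c (l 14594264) (l 14482680)))))) (c (a (a (c (l 14374656) (a (c (l 14269472) (l 14197080)) (l 14229136))) (c (a (c (l 14388248) (l 14322376)) (l 14350416)) (l 14230200))) (l 14292352)) (l 14056512))) (a (l 6) (a (l 6) (b (a (l 6) (c (c (c (l 14918256) (c (c (l 14839872) (l 14808088)) (l 14760328))) (l 14604296)) (l 14258920))) (l 6))))) (c (c (l 13857968) (a (l 13566576) (l 13649624))) (l 13212000))) (c (c (c (c (a (b (a (c (a (l 14812800) (b (l 14759216) (l 14834152))) (a (c (l 14765448) (l 14734296)) (l 14739776))) (l 14753392)) (a (c (a (l 14959112) (l 14936336)) (a (c (l 14914352) (l 14885640)) (l 14883296))) (l 14887408))) (b (l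 14731200) (l 14850712))) (b (b (l 14608912) (l 14670960)) (b (l 14742528) (l 14808176)))) (b (l 14492752) (c (b (l 14628816) (l 14702488)) (b (l 14519168) (l 14584792))))) (c (l 14347048) (l 14153784))) (c (c (a (l 13936048) (l 13978168)) (l 13747832)) (l 13423088)))) (b (a (l 6) (a (l 6) (b (c (c (c (l 14891968) (l 14695936)) (b (l 14356928) (l 6))) (c (l 13951344) (l 13507272))) (l 6)))) (l 6))) (l 6)), by decide +kernel⟩

def k32_pm_101 : ∃ t, chk3 f_pm_101 t 17 30 1 = true :=
  ⟨(c (b (a (c (l 14535552) (a (l 14327280) (l 14418984))) (c (a (l 14648744) (c (l 14745600) (l 14673800))) (l 14525272))) (a (b (c (l 14464696) (a (l 14207000) (l 14281352))) (a (c (b (l 14451856) (l 14647376)) (c (l 14269688) (a (l 14111512) (l 14146032)))) (c (b (l 14484320) (l 14518440)) (c (a (l 14310752) (l 14333792)) (l 14189056))))) (b (c (a (l 14542144) (l 14584056)) (l 14367160)) (c (a (c (l 14671184) (a (l 14471112) (l 14486680))) (c (a (c (l 14631464) (l 14580136)) (c (b (l 14631864) (l 14649488)) (l 14589400)))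 (l 14504352))) (a (l 14301032) (l 14340032)))))) (b (a (l 14082696) (l 14277280)) (a (b (l 13867688) (c (a (l 13895392) (l 13980160)) (l 13639528))) (b (l 14055824) (a (l 13930128) (l 14007600)))))), by decide +kernel⟩

def k33_pm_101 : ∃ t, chk3 f_pm_101 t 34 31 1 = true :=
  ⟨(a (b (c (b (c (c (b (b (l 14631712) (c (l 14730656) (l 14635528))) (b (c (l 14778096) (l 14693480)) (l 14780264))) (b (l 14488120) (c (b (l 14595544) (l 14655048)) (l 14613528)))) (c (b (l 14334336) (l 14398416)) (a (c (l 14234776) (l 14149848)) (l 14212704)))) (b (c (c (l 14847880) (b (l 14658240) (l 14706608))) (c (c (b (l 14512992) (l 14575432)) (l 14444240)) (c (l 14348040) (l 14255544)))) (a (l 6) (c (l 14952712) (c (l 14592368) (c (b (l 14428360) (l 6)) (l 14353976))))))) (c (b (l 13938256) (l 14049376)) (b (l 13575112) (l 13644672)))) (l 6)) (b (c (c (b (c (b (c (l 14687104) (l 14606960)) (l 14721808)) (b (l 14500552) (c (l 14612024) (l 14528600)))) (c (b (l 14784216) (l 14864856)) (b (b (l 14632640) (l 14666432)) (l 14715584))))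 (b (c (c (a (l 14419368) (l 14430464)) (l 14352312)) (l 14238808)) (c (b (c (a (l 14533792) (b (l 14507384) (l 14554792))) (a (b (l 14417760) (l 14464280)) (l 14440512))) (c (a (l 14617632) (l 14601664)) (a (l 14537728) (l 14523624)))) (b (l 14310304) (c (b (l 14416432) (l 14466360)) (b (l 14316176) (l 14367448))))))) (b (l 13850176) (c (l 14085688) (l 13740360)))) (b (b (b (b (c (c (l 14848448) (c (l 14612600) (l 14452672))) (l 13981760)) (l 6)) (l 6)) (l 6)) (l 6)))), by decide +kernel⟩

def k34_pm_101 : ∃ t, chk3 f_pm_101 t 35 62 1 = true :=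
  ⟨(c (c (b (c (a (b (c (l 14688224) (l 14616256)) (l 14710808)) (c (a (l 14714432) (b (c (l 14719176) (l 14684784)) (l 14739936))) (a (b (l 14626584) (l 14685520)) (b (l 14629424) (l 14683544))))) (a (b (c (l 14549680) (l 14488008)) (c (a (l 14614032) (l 14616536)) (l 14535384))) (b (l 14530976) (l 14663536)))) (a (c (l 14777464) (b (c (l 14669136) (a (l 14607096) (l 14601760))) (c (l 14709368) (l 14645776)))) (c (a (c (l 14784160) (l 14729992)) (a (l 14749048) (l 14743016))) (b (l 14623120) (l 14650872))))) (b (a (l 14339608) (l 14363288)) (c (b (c (b (l 14503616) (l 14542320)) (l 14441312)) (a (l 14543688) (l 14530496))) (b (l 14330832) (a (c (l 14428296) (l 14345144)) (l 14390776)))))) (c (a (l 14088584) (l 14134872)) (a (l 13800960) (l 13879592)))), by decide +kernel⟩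

def k35_pm_101 : ∃ t, chk3 f_pm_101 t 35 126 1 = true :=
  ⟨(b (c (c (a (c (b (l 14861984) (a (l 14927256) (l 14887960))) (c (a (l 14792680) (c (l 14782688) (l 14748032))) (l 14705808))) (c (b (a (l 14822048) (l 14799512)) (a (c (l 14890032) (l 14824208)) (c (a (l 14869264) (l 14855784)) (l 14797224)))) (c (l 14728096) (l 14661576)))) (b (c (l 14564976) (l 14432496)) (a (l 14539192) (l 14512128)))) (c (c (a (b (l 14271984) (l 14329600)) (c (l 14333664) (l 14257936))) (l 14131200)) (l 13905928))) (c (c (a (c (a (l 15015120) (l 14962904)) (a (c (l 14896168) (b (c (l 14808896) (l 14769416)) (l 6))) (c (b (a (l 14836208) (l 14818136)) (l 14876688)) (l 14775696)))) (c (a (c (l 14955648) (l 14885608)) (a (l 14893400) (l 14918464))) (b (l 14743064) (l 14781584)))) (b (c (a (c (l 14691064) (l 14612880)) (l 14603016)) (l 14480448)) (a (c (c (l 14741032) (l 14659456)) (l 14537464)) (c (l 14638600) (l 14494600))))) (c (c (a (l 14360864) (l 14344096)) (a (b (l 14178192) (c (l 14266176) (l 14179280))) (c (l 14239840)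 (l 14163048)))) (l 13960824)))), by decide +kernel⟩

def k36_pm_101 : ∃ t, chk3 f_pm_101 t 35 127 1 = true :=
  ⟨(a (a (l 6) (b (b (b (c (c (c (l 15034432) (l 14878832)) (l 14640560)) (c (l 14323552) (l 14002240))) (l 6)) (l 6)) (l 6))) (b (c (c (c (a (c (l 15058888) (a (l 14998056) (l 14971840))) (a (l 14983608) (l 14961168))) (l 14997248)) (c (l 14702824) (b (l 14533392) (l 14577336)))) (c (c (b (l 14385904) (l 14429040)) (b (l 14244720) (c (l 14315736) (l 14243256)))) (c (b (l 14097312) (c (l 14171536) (l 14096408))) (l 13961296)))) (b (c (c (c (a (l 15109224) (c (l 15083704) (l 15011464))) (l 14929056)) (l 14704112)) (c (c (l 14477648) (l 14327312)) (c (c (l 14209896) (l 14134800)) (l 14019112)))) (a (l 6) (c (c (c (c (b (l 15125464) (a (l 6) (c (a (l 15164312) (l 15147368)) (l 15119760)))) (l 15067208)) (l 14957400)) (l 14736592)) (c (l 14439888) (c (l 14216032) (c (l 14101680) (l 14025704))))))))), by decide +kernel⟩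

def k37_pm_101 : ∃ t, chk3 f_pm_101 t 9 6 1 = true :=
  ⟨(a (b (a (c (b (c (l 16219032) (l 16209208)) (a (c (l 16044568) (l 16053024)) (l 16085912))) (b (l 16194312) (a (l 16034024) (l 16061592)))) (c (b (l 16257312) (l 16121728)) (b (l 16239040) (l 16098688)))) (a (a (c (b (c (l 15925160) (l 15910176)) (b (l 15804048) (l 15551688))) (b (l 15887416) (l 15606976))) (b (c (l 15958128) (l 15929304)) (b (l 15848520) (l 15754368)))) (b (c (b (l 16030152) (l 15989296)) (l 15903216)) (b (l 15916280) (c (l 15885264) (l 15849072)))))) (b (c (b (a (c (l 16307864) (l 16299680)) (l 16366416)) (a (l 16048728) (l 16248744))) (b (a (l 16287152) (l 16352000)) (a (l 16153400) (l 16230200)))) (b (a (a (c (b (l 16067880) (l 16048216)) (l 16036872)) (c (l 16098888) (l 16075080))) (c (b (l 16161792) (l 16146544)) (l 16136832))) (a (a (b (l 15978688) (c (l 15990816) (l 15958544))) (b (l 16067032) (l 16027816))) (b (l 16130568) (c (l 16108520) (l 16080680))))))), by decide +kernel⟩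

def k38_pm_101 : ∃ t, chk3 f_pm_101 t 9 14 1 = true :=
  ⟨(a (a (a (b (c (c (l 15430400) (l 15385576)) (l 15317480)) (c (b (l 15116200) (c (l 14979368) (l 14876896))) (a (l 14784512) (l 14875232)))) (b (c (l 15506672) (l 15421488)) (b (l 15163584) (l 14961544)))) (c (b (b (l 15732736) (l 15571544)) (b (l 15408824) (l 15246128))) (b (l 15574120) (l 14971872)))) (b (a (a (c (b (l 15860960) (l 15720944)) (l 15721464)) (c (l 15850792) (l 15785696))) (c (l 15918240) (l 15858128))) (a (a (c (b (l 15577280) (l 15430568)) (l 15379440)) (c (l 15570496) (l 15456632))) (c (l 15636232) (l 15533832))))), by decide +kernel⟩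

def k39_pm_101 : ∃ t, chk3 f_pm_101 t 18 30 1 = true :=
  ⟨(a (b (c (a (l 14725456) (l 14850560)) (a (l 14439864) (l 14595600))) (c (b (l 14630552) (a (c (b (l 14612248) (l 14621064)) (l 14422536)) (b (l 14630432) (l 14632800)))) (b (l 14299296) (a (l 14127816) (l 14291688))))) (a (b (b (l 14930648) (l 14794088)) (b (l 14669288) (c (b (l 14742528) (l 14744128)) (l 14448840)))) (b (c (l 15102928) (l 14902392)) (b (l 14781024) (c (c (b (l 14915800) (l 14919080)) (l 14791328)) (l 14600368)))))), by decide +kernel⟩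

def k40_pm_101 : ∃ t, chk3 f_pm_101 t 18 31 2 = true :=
  ⟨(b (a (c (c (b (b (c (l 14784392) (l 14718056)) (a (l 14745776) (l 14826184))) (a (l 14767912) (l 14833280))) (b (b (l 14635536) (c (l 14704048) (l 14637528))) (b (a (l 14660192) (l 14748904)) (l 14713256)))) (b (a (l 14436040) (l 14557096)) (c (b (c (l 14706472) (l 14556592)) (l 14810432)) (b (l 14471064) (a (l 14451584) (l 14568992)))))) (c (b (c (b (c (l 14960176) (l 14905272)) (a (l 14912832) (l 15004384))) (b (l 14841352) (c (l 14897232) (l 14843712)))) (c (a (l 14909584) (l 14994496)) (b (l 14915320) (l 14890280)))) (b (a (l 14678720) (l 14800696)) (c (b (c (l 14835600) (l 14784240)) (l 14832368)) (b (l 14721448) (a (l 14691072) (l 14816824))))))) (a (b (c (c (a (b (b (l 14806864) (l 14829800)) (l 14873728)) (b (l 14863376) (l 14904064))) (a (b (l 14703296) (b (l 14738768) (l 14767736))) (b (l 14770600) (l 14807000)))) (b (a (c (l 14593832) (l 14482240)) (l 14635048)) (a (c (a (l 14616392) (l 14650048)) (c (l 14543528) (l 14486760))) (c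 (l 14708968) (l 14615496))))) (a (c (a (b (l 14880128) (b (l 14943704) (l 14990032))) (b (l 14884248) (l 14957688))) (b (c (l 14694304) (l 14571008)) (a (l 14696696) (l 14718088)))) (b (c (l 14905424) (c (l 14755736) (l 14656984))) (c (b (l 14948920) (l 14980544)) (b (l 14748640) (l 14780432)))))) (b (b (c (c (a (l 14926744) (l 15003520)) (l 14896904)) (c (l 14834088) (l 14790824))) (c (a (c (l 14956528) (l 14878488)) (l 14995680)) (a (c (l 14800312) (l 14726576)) (c (l 14903384) (l 14846552))))) (b (c (a (l 14956024) (l 15026776)) (a (c (l 14837352) (l 14758968)) (l 14904160))) (c (b (l 15019448) (a (l 15014184) (l 15074480))) (a (l 14929640) (l 14945536))))))), by decide +kernel⟩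

def k41_pm_101 : ∃ t, chk3 f_pm_101 t 18 31 3 = true :=
  ⟨(b (a (c (a (l 14233040) (l 14383944)) (a (l 14010584) (l 14195776))) (c (b (l 14597912) (l 14620768)) (l 14294464))) (b (c (a (b (c (a (l 14405888) (l 14494504)) (l 14309056)) (c (l 14460984) (c (b (l 14372392) (l 14395072)) (l 14322416)))) (b (c (c (l 14720984) (l 14678696)) (l 14615016)) (c (l 14720360) (c (l 14671096) (l 14630872))))) (a (l 14159376) (l 14519216))) (a (b (c (c (a (b (l 14429824) (l 14461272)) (b (l 14544536) (l 14569248))) (b (l 14380728) (a (c (l 14365784) (l 14305216)) (l 14466384)))) (c (b (l 14269464) (c (l 14321720) (l 14265224))) (l 14163232))) (b (c (c (l 14544896) (a (l 14368928) (l 14496664))) (c (a (l 14217784) (l 14394328)) (l 14158080))) (c (a (l 14470576) (l 14578424)) (a (c (l 14276560) (c (l 14177536) (l 14111576))) (c (l 14425960) (c (l 14348512) (l 14296544))))))) (c (b (c (a (l 14678512) (l 14812264)) (b (l 14671488) (l 14685776))) (a (b (l 14675712) (l 14702136)) (l 14825576))) (b (c (b (l 14601840) (c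 (l 14638344) (l 14603424))) (l 14535808)) (c (a (l 14569568) (l 14735968)) (b (l 14566048) (c (l 14614120) (b (l 14570000) (l 14585784)))))))))), by decide +kernel⟩

def k42_pm_101 : ∃ t, chk3 f_pm_101 t 19 30 1 = true :=
  ⟨(b (a (a (c (l 15230712) (l 15056720)) (l 15221024)) (c (l 15359736) (l 15222568))) (b (a (a (c (l 15041648) (l 14837824)) (l 15017504)) (l 15086440)) (a (a (c (b (a (l 14936320) (a (l 14979432) (l 15002784))) (a (l 14938464) (a (l 14979968) (c (l 15051176) (l 14947960))))) (a (l 14710944) (a (l 14766928) (l 14796368)))) (c (b (l 15024592) (c (l 15064832) (l 14967016))) (l 14826728))) (c (c (b (l 15120720) (l 15111528)) (l 15032688)) (l 14907176))))), by decide +kernel⟩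

def k43_pm_101 : ∃ t, chk3 f_pm_101 t 38 62 1 = true :=
  ⟨(c (a (c (b (a (c (b (l 15056312) (l 15075640)) (b (l 14973456) (l 15005352))) (a (c (b (l 15092864) (l 15111992)) (b (l 15013496) (l 15045536))) (c (b (c (l 15128680) (l 15082336)) (l 15128656)) (b (l 15032096) (c (l 15082504) (l 15038568)))))) (a (c (l 15062784) (l 15013296)) (a (c (l 15098216) (l 15053104)) (c (l 15114328) (b (l 15082192) (l 15073928)))))) (b (a (l 14892240) (a (l 14938040) (l 14959504))) (c (b (a (l 14957192) (a (l 15001408) (l 15084824))) (a (l 14975128) (a (l 15019272) (l 15039616)))) (b (a (l 14881368) (l 14941072)) (a (l 14913048) (a (l 14961704) (l 14984256))))))) (b (c (b (c (b (l 15100000) (l 15120584)) (l 15039280)) (c (l 15129608) (b (l 15052432) (l 15074456)))) (l 14968536)) (c (c (l 15113312) (l 15072136)) (c (b (l 15025072) (l 15041408)) (b (l 14957280) (l 14987784)))))) (a (a (l 14733056) (a (l 14791648) (c (l 14869696) (l 14767944)))) (b (l 14821008) (l 14845000)))), by decide +kernel⟩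

def k44_pm_101 : ∃ t, chk3 f_pm_101 t 38 63 1 = true :=
  ⟨(a (c (b (a (c (b (l 15044008) (l 15062112)) (b (l 14948704) (l 14965552))) (a (c (b (l 15080864) (l 15097624)) (b (l 14994928) (l 15012608))) (c (b (c (l 15118064) (l 15075384)) (c (l 15135264) (l 15091768))) (b (l 15016144) (c (l 15050032) (b (l 15005576) (l 15013976))))))) (a (c (b (l 15090344) (l 15124216)) (b (l 14990272) (l 15029280))) (a (c (l 15141104) (b (l 15035312) (l 15073664))) (b (c (l 15140432) (c (l 15077024) (l 15034616))) (c (l 15172296) (l 15093504)))))) (b (c (b (c (a (l 14874328) (a (l 14927816) (l 14952552))) (l 14844456)) (c (a (l 14894192) (l 14960000)) (a (l 14842704) (c (l 14929880) (l 14902424))))) (l 14781448)) (c (a (b (l 14915896) (l 14933384)) (a (b (l 14972520) (l 14988808)) (b (c (l 14995744) (l 14937824)) (b (l 15001416) (l 15025480))))) (c (b (b (l 14853104) (c (l 14882880) (l 14859984))) (a (l 14863032) (a (l 14927328) (l 14956424)))) (b (l 14810568) (b (l 14798128) (a (l 14825776) (a (l 14895552) (c (l 14938088)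 (l 14917456)))))))))) (c (b (c (c (l 15122496) (l 15081968)) (b (l 15017160) (c (l 15048432) (l 15011920)))) (b (c (l 15134560) (l 15052376)) (l 15126584))) (b (c (b (l 14909344) (c (l 14973712) (l 14931376))) (l 14843992)) (c (b (c (l 14994912) (l 14959424)) (l 15011024)) (b (c (l 14912624) (l 14872296)) (c (l 14955680) (b (l 14899112) (l 14926072)))))))), by decide +kernel⟩

def k45_pm_101 : ∃ t, chk3 f_pm_101 t 39 31 1 = true :=
  ⟨(b (c (b (c (b (c (c (l 15169584) (l 15127240)) (l 15083336)) (c (b (l 15162928) (l 15156176)) (b (l 15088848) (l 15103848)))) (l 15016008)) (c (b (c (l 15131648) (a (l 15089232) (l 15116920))) (a (l 15090440) (l 15104024))) (b (c (a (b (l 15021760) (l 15038528)) (l 15065336)) (l 14987448)) (c (a (l 15043280) (l 15061864)) (a (l 14992072) (l 15013984)))))) (b (l 14887304) (a (l 14861096) (l 14898800)))) (c (b (c (b (c (a (l 15109888) (l 15110512)) (l 15073024)) (c (l 15119712) (l 15081040))) (b (a (l 15017648) (l 15066136)) (c (l 15044280) (b (l 15005792) (l 15010976)))))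 (b (c (l 15121520) (c (l 15064336) (l 15025864))) (c (l 15147688) (l 15076136)))) (b (c (b (c (a (l 14960016) (l 14949240)) (l 14912640)) (c (l 14975624) (l 14936424))) (l 14860192)) (c (b (c (l 14992056) (l 14959512)) (b (l 14992064) (l 15012248))) (b (c (b (l 14913400) (l 14922912)) (l 14877440)) (c (l 14952216) (b (l 14898976) (c (l 14932864) (l 14913968))))))))), by decide +kernel⟩

def k46_pm_101 : ∃ t, chk3 f_pm_101 t 5 6 1 = true :=
  ⟨(a (b (a (c (b (c (a (l 16430312) (l 16488840)) (l 16412424)) (a (l 16321760) (l 16330728))) (b (a (l 16415008) (l 16476112)) (a (l 16305776) (l 16380184)))) (c (b (c (l 16534312) (l 16552144)) (c (l 16492592) (l 16509336))) (b (c (l 16569936) (l 16587672)) (l 16460912)))) (b (a (c (b (a (l 16239264) (l 16319312)) (l 16178984)) (b (l 16199816) (l 16244816))) (b (c (l 16482232) (l 16471880)) (c (l 16398232) (l 16450056)))) (a (c (b (l 16263256) (l 16110560)) (b (l 16245216) (l 16213392))) (c (b (l 16460400) (l 16434112)) (b (l 16449280) (l 16418600)))))) (b (a (c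 (b (c (l 16711880) (l 16721408)) (a (l 16660904) (l 16736808))) (b (c (l 16720440) (l 16719448)) (a (l 16656824) (l 16735392)))) (c (c (b (l 16777144) (l 16777112)) (b (l 16777144) (l 16777112))) (c (l 16777128) (l 16777128)))) (a (b (c (b (l 16682248) (l 16650432)) (l 16588912)) (c (b (l 16669192) (l 16618344)) (l 16543760))) (b (c (a (l 16776936) (l 16777216)) (l 16777072)) (c (b (l 16777064) (l 16742688)) (l 16696184)))))), by decide +kernel⟩

def k47_pm_101 : ∃ t, chk3 f_pm_101 t 5 14 1 = true :=
  ⟨(a (b (a (c (a (l 16006136) (l 16092808)) (l 15957720)) (c (l 16197128) (l 16203520))) (a (c (b (l 15840880) (l 15693040)) (l 15538968)) (c (b (l 16019544) (l 15865128)) (l 15887096)))) (a (b (c (l 16302216) (l 16409056)) (c (l 16094640) (l 16084008))) (b (c (l 16481856) (l 16514864)) (c (l 16206864) (l 16186768))))), by decide +kernel⟩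

def k48_pm_101 : ∃ t, chk3 f_pm_101 t 10 30 1 = true :=
  ⟨(b (a (c (a (l 15443432) (l 15528576)) (l 15381640)) (c (l 15651072) (l 15581304))) (a (b (c (l 15287576) (l 15170272)) (c (a (c (b (l 15193248) (l 15183392)) (l 15119832)) (a (b (l 15223104) (l 15212264)) (c (b (l 15290232) (l 15279576)) (l 15231728)))) (a (l 15017200) (a (l 15100008) (l 15152368))))) (b (c (l 15448016) (l 15369232)) (b (a (c (l 15299880) (l 15229584)) (l 15360224)) (c (c (a (l 15329584) (l 15399840)) (l 15321824)) (l 15259184)))))), by decide +kernel⟩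

def k49_pm_101 : ∃ t, chk3 f_pm_101 t 20 62 1 = true :=
  ⟨(c (c (b (b (a (c (c (l 15236272) (l 15197704)) (l 15159688)) (c (a (l 15278144) (c (l 15327608) (l 15292872))) (l 15241048))) (a (c (l 15225200) (l 15176392)) (c (a (l 15282936) (l 15319312)) (a (l 15239384) (l 15278680))))) (a (c (l 15183384) (b (l 15176272) (l 15146752))) (a (c (l 15242240) (l 15219632)) (c (l 15278560) (l 15259016))))) (b (a (l 15104272) (l 15196288)) (c (b (a (l 15131064) (a (l 15200640) (l 15243024))) (a (l 15126600) (l 15218592))) (a (l 15084176) (b (l 15174376) (l 15184680)))))) (a (c (l 15028168) (l 14958456)) (c (l 15135776) (l 15080336)))), by decide +kernel⟩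

def k50_pm_101 : ∃ t, chk3 f_pm_101 t 20 63 1 = true :=
  ⟨(c (b (a (c (b (c (l 15154704) (l 15124048)) (c (l 15146320) (l 15155912))) (b (l 15083720) (b (l 15070696) (c (l 15080064) (l 15049904))))) (c (a (b (l 15204056) (l 15192936)) (b (c (l 15251376) (l 15229680)) (c (l 15242488) (l 15219680)))) (b (c (l 15192200) (l 15173368)) (a (c (l 15155976) (l 15134600)) (c (l 15198944) (l 15180688)))))) (a (c (a (b (l 15117136) (l 15133320)) (l 15190248)) (b (c (l 15082872) (a (l 15028264) (l 15067328))) (a (l 15065720) (l 15084616)))) (c (a (l 15191272) (a (l 15223680) (l 15234912))) (a (b (c (l 15149904) (l 15121912)) (l 15135688)) (b (c (l 15192760) (l 15168304)) (l 15180704)))))) (c (b (b (c (a (l 15039136) (l 15147824)) (l 15051152)) (c (a (l 15027128) (l 15136248)) (a (l 14994144) (l 15111168)))) (a (a (b (c (l 14997952) (l 14968248)) (l 14997136)) (b (l 15028288) (l 15021392))) (a (b (l 15089688) (l 15080832)) (b (c (l 15150488) (l 15132200)) (c (l 15144752) (l 15121856)))))) (c (b (l 15018392) (b (a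 (b (l 14956056) (l 14952760)) (l 15072064)) (a (a (l 14949120) (l 14977664)) (a (l 15043664) (l 15100536))))) (b (l 14987624) (b (l 14984560) (a (b (l 14920792) (c (l 14942488) (l 14925168))) (b (l 15040184) (a (l 15012416) (l 15072792))))))))), by decide +kernel⟩

def k51_pm_101 : ∃ t, chk3 f_pm_101 t 21 31 1 = true :=
  ⟨(b (c (c (b (c (b (c (l 15404416) (l 15372328)) (l 15393408)) (b (l 15344312) (c (l 15369200) (l 15339672)))) (c (l 15346608) (b (l 15354976) (l 15322400)))) (b (l 15307808) (c (b (l 15323560) (l 15316320)) (b (l 15282968) (l 15289080))))) (c (l 15256792) (l 15215208))) (c (b (c (a (c (b (l 15287848) (l 15276856)) (b (l 15269376) (l 15257160))) (c (l 15333352) (l 15280608))) (b (l 15235832) (b (l 15262656) (a (l 15227440) (l 15283776))))) (c (b (a (l 15262816) (l 15310296)) (a (l 15259464) (l 15303560))) (b (c (l 15256152) (a (l 15209360) (l 15265304))) (a (l 15217736) (l 15268040))))) (b (c (c (b (l 15254600) (l 15238704)) (l 15200280)) (l 15188008)) (c (a (c (l 15193368) (l 15175288))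 (c (l 15249072) (l 15234048))) (b (c (l 15182864) (l 15164440)) (c (l 15178040) (b (l 15153728) (l 15153808)))))))), by decide +kernel⟩

def k52_pm_101 : ∃ t, chk3 f_pm_101 t 11 15 1 = true :=
  ⟨(a (b (b (c (l 15815264) (l 15772328)) (b (l 15477784) (b (l 15489544) (c (a (l 15457544) (l 15535952)) (l 15441360))))) (c (b (c (b (c (b (c (l 15538864) (l 15510152)) (l 15523112)) (b (l 15487248) (l 15494440))) (c (l 15466592) (l 15437632))) (b (l 15457608) (c (b (l 15459776) (l 15445688)) (l 15428424)))) (b (c (a (c (l 15387088) (l 15377496)) (l 15439440)) (c (l 15399488) (l 15389128))) (c (b (l 15386552) (l 15374720)) (a (l 15326544) (l 15380864))))) (b (c (l 15412888) (l 15384776)) (b (c (c (b (l 15389296) (l 15366016)) (l 15358240)) (l 15334080)) (c (a (l 15300152) (l 15358544)) (b (l 15300216) (c (l 15299272) (l 15283408)))))))) (b (b (l 15888248) (b (l 15675832) (c (a (b (l 15602672) (c (l 15592544) (l 15570424))) (l 15592112)) (l 15550144)))) (c (b (c (a (b (c (b (l 15605800) (l 15596624)) (l 15575160))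 (l 15467960)) (b (l 15584616) (l 15531080))) (b (l 15540320) (c (b (l 15535488) (l 15517664)) (l 15505008)))) (c (a (a (b (l 15451000) (l 15435480)) (l 15454616)) (l 15454616)) (b (c (l 15463688) (l 15457960)) (a (l 15412440) (l 15412616))))) (b (l 15486896) (b (c (c (l 15442376) (l 15432160)) (l 15411864)) (c (l 15392288) (b (l 15371464) (c (l 15364040) (l 15350488))))))))), by decide +kernel⟩

def k53_pm_101 : ∃ t, chk3 f_pm_101 t 3 2 1 = true :=
  ⟨(b (l 1) (b (l 1) (b (l 1) (a (a (c (c (l 220150628359) (l 232498659335)) (c (l 245383561223) (l 258805334023))) (l 1)) (l 1))))), by decide +kernel⟩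

def k54_pm_101 : ∃ t, chk3 f_pm_101 t 3 6 1 = true :=
  ⟨(a (a (b (c (c (b (l 168611020807) (l 16777216)) (b (l 166463537159) (l 16777216))) (c (b (l 16777216) (l 16777216)) (b (l 16777216) (l 16777216)))) (c (b (c (l 16777216) (l 16777216)) (b (l 16777216) (l 16742824))) (b (c (l 16777216) (l 16777216)) (b (l 16777216) (l 16741616))))) (a (b (a (c (l 364568903687) (l 224445595655)) (l 1)) (c (b (l 16777216) (l 16759864)) (b (l 16777216) (l 16759256)))) (b (l 1) (c (b (l 16777216) (l 16738896)) (b (l 16777216) (l 16759256)))))) (b (l 1) (b (l 1) (a (a (c (l 182569542327) (l 16759256)) (l 1)) (l 1))))), by decide +kernel⟩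

def k55_pm_101 : ∃ t, chk3 f_pm_101 t 3 7 1 = true :=
  ⟨(b (a (a (b (c (l 16419080) (l 16473072)) (c (l 16207000) (l 16186912))) (c (b (l 16419080) (l 16207000)) (b (l 16473072) (l 16186912)))) (a (c (b (b (l 16601104) (l 16447320)) (l 16165056)) (b (l 191695615319) (l 16186912))) (b (l 1) (c (l 271688749447) (l 16082056))))) (a (b (a (b (c (l 15903792) (l 15873040)) (c (b (l 15695040) (l 15592112)) (l 15603512))) (c (b (l 15903792) (b (l 15695040) (l 15592112))) (b (l 15873040) (l 15603512)))) (c (b (a (c (b (c (l 15598112) (l 15575392)) (l 15531080)) (b (l 15540440) (l 15449232))) (c (b (c (l 15598112) (l 15575392)) (l 15531080)) (b (l 15540440) (l 15512144)))) (a (c (l 15454616) (l 15416320)) (c (l 15454616) (b (l 15460560) (l 15412616))))) (b (a (l 15487024) (l 15487024)) (b (c (a (c (l 15442488) (l 15432272)) (l 15432072)) (l 15411984)) (c (a (l 15392376) (l 15392376)) (a (c (l 15373808) (l 15358656)) (c (l 15373808) (l 15358656)))))))) (b (c (b (a (l 15903792) (l 15903792)) (c (a (l 15677096)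 (l 15677096)) (l 15612608))) (a (b (l 15873040) (l 15603512)) (b (l 15873040) (l 15603512)))) (c (b (c (b (a (l 15521696) (l 75192819047)) (a (l 15531080) (l 15531080))) (a (b (l 15540440) (l 15512144)) (b (l 15540440) (l 15512144)))) (a (c (l 15454616) (l 15437296)) (c (l 15454616) (l 15437296)))) (b (a (c (l 15497680) (l 15475392)) (c (l 15497680) (l 15475392))) (c (b (a (l 15432072) (l 15390128)) (a (l 15392376) (l 15392376))) (b (l 15411984) (a (c (l 15373808) (l 15358656)) (c (l 15373808) (l 15358656)))))))))), by decide +kernel⟩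

theorem s56_pm_101 : ∃ t, chk3 f_pm_101 t 3 3 1 = true := ex3_b k54_pm_101 k55_pm_101

theorem s57_pm_101 : ∃ t, chk3 f_pm_101 t 3 1 1 = true := ex3_b k53_pm_101 s56_pm_101

theorem s58_pm_101 : ∃ t, chk3 f_pm_101 t 20 31 1 = true := ex3_b k49_pm_101 k50_pm_101

theorem s59_pm_101 : ∃ t, chk3 f_pm_101 t 10 31 1 = true := ex3_a s58_pm_101 k51_pm_101

theorem s60_pm_101 : ∃ t, chk3 f_pm_101 t 10 15 1 = true := ex3_b k48_pm_101 s59_pm_101

theorem s61_pm_101 : ∃ t, chk3 f_pm_101 t 5 15 1 = true := ex3_a s60_pm_101 k52_pm_101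

theorem s62_pm_101 : ∃ t, chk3 f_pm_101 t 5 7 1 = true := ex3_b k47_pm_101 s61_pm_101

theorem s63_pm_101 : ∃ t, chk3 f_pm_101 t 5 3 1 = true := ex3_b k46_pm_101 s62_pm_101

theorem s64_pm_101 : ∃ t, chk3 f_pm_101 t 38 31 1 = true := ex3_b k43_pm_101 k44_pm_101

theorem s65_pm_101 : ∃ t, chk3 f_pm_101 t 19 31 1 = true := ex3_a s64_pm_101 k45_pm_101

theorem s66_pm_101 : ∃ t, chk3 f_pm_101 t 19 15 1 = true := ex3_b k42_pm_101 s65_pm_101

theorem s67_pm_101 : ∃ t, chk3 f_pm_101 t 18 31 1 = true := ex3_c k40_pm_101 k41_pm_101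

theorem s68_pm_101 : ∃ t, chk3 f_pm_101 t 18 15 1 = true := ex3_b k39_pm_101 s67_pm_101

theorem s69_pm_101 : ∃ t, chk3 f_pm_101 t 9 15 1 = true := ex3_a s68_pm_101 s66_pm_101

theorem s70_pm_101 : ∃ t, chk3 f_pm_101 t 9 7 1 = true := ex3_b k38_pm_101 s69_pm_101

theorem s71_pm_101 : ∃ t, chk3 f_pm_101 t 9 3 1 = true := ex3_b k37_pm_101 s70_pm_101

theorem s72_pm_101 : ∃ t, chk3 f_pm_101 t 35 63 1 = true := ex3_b k35_pm_101 k36_pm_101

theorem s73_pm_101 : ∃ t, chk3 f_pm_101 t 35 31 1 = true := ex3_b k34_pm_101 s72_pm_101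

theorem s74_pm_101 : ∃ t, chk3 f_pm_101 t 17 31 1 = true := ex3_a k33_pm_101 s73_pm_101

theorem s75_pm_101 : ∃ t, chk3 f_pm_101 t 17 15 1 = true := ex3_b k32_pm_101 s74_pm_101

theorem s76_pm_101 : ∃ t, chk3 f_pm_101 t 33 30 1 = true := ex3_c k29_pm_101 k30_pm_101

theorem s77_pm_101 : ∃ t, chk3 f_pm_101 t 33 15 1 = true := ex3_b s76_pm_101 k31_pm_101

theorem s78_pm_101 : ∃ t, chk3 f_pm_101 t 65 61 2 = true := ex3_c k25_pm_101 k26_pm_101

theorem s79_pm_101 : ∃ t, chk3 f_pm_101 t 65 30 2 = true := ex3_b k24_pm_101 s78_pm_101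

theorem s80_pm_101 : ∃ t, chk3 f_pm_101 t 65 30 1 = true := ex3_c s79_pm_101 k27_pm_101

theorem s81_pm_101 : ∃ t, chk3 f_pm_101 t 65 15 1 = true := ex3_b s80_pm_101 k28_pm_101

theorem s82_pm_101 : ∃ t, chk3 f_pm_101 t 64 30 1 = true := ex3_a k21_pm_101 k22_pm_101

theorem s83_pm_101 : ∃ t, chk3 f_pm_101 t 64 15 1 = true := ex3_b s82_pm_101 k23_pm_101

theorem s84_pm_101 : ∃ t, chk3 f_pm_101 t 32 15 1 = true := ex3_a s83_pm_101 s81_pm_101

theorem s85_pm_101 : ∃ t, chk3 f_pm_101 t 16 15 1 = true := ex3_a s84_pm_101 s77_pm_101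

theorem s86_pm_101 : ∃ t, chk3 f_pm_101 t 8 15 1 = true := ex3_a s85_pm_101 s75_pm_101

theorem s87_pm_101 : ∃ t, chk3 f_pm_101 t 32 14 1 = true := ex3_c k17_pm_101 k18_pm_101

theorem s88_pm_101 : ∃ t, chk3 f_pm_101 t 16 14 1 = true := ex3_a s87_pm_101 k19_pm_101

theorem s89_pm_101 : ∃ t, chk3 f_pm_101 t 8 14 1 = true := ex3_a s88_pm_101 k20_pm_101

theorem s90_pm_101 : ∃ t, chk3 f_pm_101 t 8 7 1 = true := ex3_b s89_pm_101 s86_pm_101

theorem s91_pm_101 : ∃ t, chk3 f_pm_101 t 16 27 1 = true := ex3_a k14_pm_101 k15_pm_101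

theorem s92_pm_101 : ∃ t, chk3 f_pm_101 t 16 13 1 = true := ex3_b k13_pm_101 s91_pm_101

theorem s93_pm_101 : ∃ t, chk3 f_pm_101 t 16 25 1 = true := ex3_a k11_pm_101 k12_pm_101

theorem s94_pm_101 : ∃ t, chk3 f_pm_101 t 16 12 1 = true := ex3_b k10_pm_101 s93_pm_101

theorem s95_pm_101 : ∃ t, chk3 f_pm_101 t 16 6 1 = true := ex3_b s94_pm_101 s92_pm_101

theorem s96_pm_101 : ∃ t, chk3 f_pm_101 t 8 6 1 = true := ex3_a s95_pm_101 k16_pm_101

theorem s97_pm_101 : ∃ t, chk3 f_pm_101 t 8 3 1 = true := ex3_b s96_pm_101 s90_pm_101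

theorem s98_pm_101 : ∃ t, chk3 f_pm_101 t 4 3 1 = true := ex3_a s97_pm_101 s71_pm_101

theorem s99_pm_101 : ∃ t, chk3 f_pm_101 t 2 3 1 = true := ex3_a s98_pm_101 s63_pm_101

theorem s100_pm_101 : ∃ t, chk3 f_pm_101 t 32 5 1 = true := ex3_c k4_pm_101 k5_pm_101

theorem s101_pm_101 : ∃ t, chk3 f_pm_101 t 16 5 1 = true := ex3_a s100_pm_101 k6_pm_101

theorem s102_pm_101 : ∃ t, chk3 f_pm_101 t 16 18 1 = true := ex3_b k1_pm_101 k2_pm_101

theorem s103_pm_101 : ∃ t, chk3 f_pm_101 t 16 9 1 = true := ex3_b s102_pm_101 k3_pm_101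

theorem s104_pm_101 : ∃ t, chk3 f_pm_101 t 16 4 1 = true := ex3_b k0_pm_101 s103_pm_101

theorem s105_pm_101 : ∃ t, chk3 f_pm_101 t 16 2 1 = true := ex3_b s104_pm_101 s101_pm_101

theorem s106_pm_101 : ∃ t, chk3 f_pm_101 t 8 2 1 = true := ex3_a s105_pm_101 k7_pm_101

theorem s107_pm_101 : ∃ t, chk3 f_pm_101 t 4 2 1 = true := ex3_a s106_pm_101 k8_pm_101

theorem s108_pm_101 : ∃ t, chk3 f_pm_101 t 2 2 1 = true := ex3_a s107_pm_101 k9_pm_101

theorem s109_pm_101 : ∃ t, chk3 f_pm_101 t 2 1 1 = true := ex3_b s108_pm_101 s99_pm_101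

theorem s110_pm_101 : ∃ t, chk3 f_pm_101 t 1 1 1 = true := ex3_a s109_pm_101 s57_pm_101

theorem c_pm_101 : CertNX 536870912 536870912 536870912 536870912 1046898278 26843546 3 false true false .npn 1 0 1
    ndN0q1 ndN0q1 pcN0 cut_pm_101 Ext.none :=
  certNX2 (fam := false) (s1 := true) (s2 := false) (a := 1) (b := 0) (c := 1) (cn := .npn) (n1 := ndN0q1) (n2 := ndN0q1) (pc := pcN0) (cut := cut_pm_101) (xt := Ext.none) (P1 := 536870912) (W1 := 536870912) (P2 := 536870912) (W2 := 536870912) (P3 := 1046898278) (W3 := 26843546) (N0 := 3)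
    rfl (fun _ => rfl) s110_pm_101

end Pool.Agent.Strip051.G.IE1.Tab.C.NB00

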