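import Pool.Agent.Strip051.G.IE1.Tab

/-! # Certificates N44 (generated) -/

set_option linter.all false
set_option maxRecDepth 100000

namespace Pool.Agent.Strip051.G.IE1.Tab.C.NB00

open Pool.Agent.Strip051.PB Pool.Agent.Strip051.PB.T
open Pool.Agent.Strip051.G.IE1.Tab

noncomputable def f_pm_112 : ℕ → ℕ → ℕ → ℕ → Bool := onCell 536870912 536870912 0 536870912 1046898278 26843546
    (rowNX 3 2 false true false .dn 1 1 2 (qsf 536870912 536870912 0 536870912 1) ndN0q1 ndN0q2 pcN1 Cut.none Ext.none)

def k0_pm_112 : ∃ t, chk3 f_pm_112 t 8 2 1 = true :=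
  ⟨(b (a (b (b (l 3) (c (c (a (l 262697648135) (b (l 260550164487) (c (l 16777216) (l 16777216)))) (a (l 262697648135) (b (l 260550164487) (l 16777216)))) (c (a (l 260550164487) (l 218137362439)) (l 226727297031)))) (c (c (b (a (c (l 16777216) (l 16777216)) (l 16777216)) (l 16777216)) (a (c (l 31306285063) (l 16777216)) (l 16777216))) (c (b (a (l 16777216) (l 16777216)) (l 16777216)) (b (l 43654316039) (l 16777216))))) (b (c (c (b (a (l 268066357255) (c (l 221358587911) (l 222969200647))) (a (c (l 16777216) (l 16777216)) (l 16777216))) (b (c (l 235854102535) (l 235317231623)) (c (l 16777216) (l 16777216)))) (b (a (l 268603228167) (c (l 219747975175) (l 214916136967))) (c (a (l 16777216) (l 16777216)) (l 16777216)))) (c (c (c (l 16777216) (l 16777216)) (c (l 16777216) (l 16777216))) (c (c (l 16777216) (l 16777216)) (c (l 16777216) (l 16777216)))))) (c (b (a (c (c (b (l 16777216) (l 16777216)) (l 16777216)) (c (l 16777216) (l 16777216))) (b (c (a (l 16777216) (l 16777216)) (l 16777216)) (l 16777216)))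 (c (c (l 16777216) (l 16777216)) (l 16777216))) (b (a (c (c (l 16777216) (l 16777216)) (c (l 16777216) (l 16777216))) (b (c (l 16777216) (l 16777216)) (l 16777216))) (c (l 16777216) (l 16777216))))), by decide +kernel⟩

def k1_pm_112 : ∃ t, chk3 f_pm_112 t 9 2 1 = true :=
  ⟨(b (c (b (a (c (a (b (c (l 17347641351) (l 16777216)) (l 16777216)) (a (l 16777216) (l 16777216))) (a (c (l 28085059591) (l 16777216)) (l 16777216))) (c (c (l 16777216) (l 16777216)) (c (l 16777216) (l 16777216)))) (a (c (b (l 16777216) (a (l 16777216) (l 16777216))) (c (l 16777216) (l 16777216))) (c (b (l 16777216) (l 16777216)) (b (l 16777216) (l 16777216))))) (b (a (c (b (a (l 16777216) (l 16777216)) (l 16777216)) (c (l 16777216) (l 16777216))) (c (l 16777216) (l 16777216))) (a (c (b (l 16777216) (l 16777216)) (b (l 16777216) (l 16777216))) (c (b (l 16777216) (l 16777216)) (b (l 16777216) (l 16777216)))))) (c (c (b (l 16777216) (l 16777216)) (b (l 16777216) (l 16777216))) (c (b (l 16777216) (l 16777216)) (b (l 16777216) (l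 16777216))))), by decide +kernel⟩

def k2_pm_112 : ∃ t, chk3 f_pm_112 t 5 2 1 = true :=
  ⟨(a (a (b (c (b (c (b (l 16777216) (l 16777216)) (b (l 16777216) (l 16777216))) (b (c (l 16777216) (l 16777216)) (l 16777216))) (b (c (b (l 16777216) (l 16777216)) (l 16777216)) (c (b (l 16777216) (l 16777216)) (l 16777216)))) (c (b (c (l 16777216) (l 16777216)) (c (l 16777216) (l 16777216))) (b (l 16777216) (l 16777216)))) (b (b (l 1) (l 1)) (l 1))) (l 1)), by decide +kernel⟩

def k3_pm_112 : ∃ t, chk3 f_pm_112 t 2 3 1 = true :=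
  ⟨(a (a (c (b (b (c (l 16777216) (l 16777216)) (b (c (b (l 16754056) (l 16667760)) (b (l 16753656) (l 16665840))) (c (l 16523608) (l 16519160)))) (b (b (c (l 16311768) (l 16303608)) (c (l 16026296) (l 16013144))) (b (b (l 15727072) (c (l 15581728) (l 15636680))) (b (c (l 15564784) (b (l 15576816) (l 15518816))) (l 15451960))))) (b (b (c (l 16777216) (l 16777216)) (b (c (b (l 16753240) (l 16663896)) (l 16697344)) (l 16470432))) (a (b (b (l 16291144) (l 15993040)) (b (l 15647568) (b (l 15508592) (c (l 15420544) (l 52106802535))))) (b (b (l 16291144) (l 15993040)) (b (l 15647568) (l 1)))))) (b (b (c (c (b (l 16777216) (l 16777216)) (b (l 16777216) (l 16777216))) (c (b (l 16777216) (l 16777216)) (b (l 16777216) (l 16777216)))) (c (b (c (l 16627456) (l 16647272)) (c (l 16523608) (l 16519160))) (b (c (l 16646104) (l 16644912)) (l 24728874375)))) (a (b (b (c (l 16307688) (l 16291144)) (l 1)) (l 1)) (l 1)))) (b (l 1) (l 1))), by decide +kernel⟩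

def k4_pm_112 : ∃ t, chk3 f_pm_112 t 3 1 1 = true :=
  ⟨(l 1), by decide +kernel⟩

theorem s5_pm_112 : ∃ t, chk3 f_pm_112 t 4 2 1 = true := ex3_a k0_pm_112 k1_pm_112

theorem s6_pm_112 : ∃ t, chk3 f_pm_112 t 2 2 1 = true := ex3_a s5_pm_112 k2_pm_112

theorem s7_pm_112 : ∃ t, chk3 f_pm_112 t 2 1 1 = true := ex3_b s6_pm_112 k3_pm_112

theorem s8_pm_112 : ∃ t, chk3 f_pm_112 t 1 1 1 = true := ex3_a s7_pm_112 k4_pm_112

theorem c_pm_112 : CertNX 536870912 536870912 0 536870912 1046898278 26843546 3 false true false .dn 1 1 2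
    ndN0q1 ndN0q2 pcN1 Cut.none Ext.none :=
  certNX2 (fam := false) (s1 := true) (s2 := false) (a := 1) (b := 1) (c := 2) (cn := .dn) (n1 := ndN0q1) (n2 := ndN0q2) (pc := pcN1) (cut := Cut.none) (xt := Ext.none) (P1 := 536870912) (W1 := 536870912) (P2 := 0) (W2 := 536870912) (P3 := 1046898278) (W3 := 26843546) (N0 := 3)
    rfl (fun _ => rfl) s8_pm_112

noncomputable def cut_pm_202 : Cut := Cut.of [[⟨0, 1, 0, 67108864⟩, ⟨1, 0, 0, 67108864⟩, ⟨2, 1, 0, 67108864⟩, ⟨3, 0, 0, 1317011456⟩]]

noncomputable def f_pm_202 : ℕ → ℕ → ℕ → ℕ → Bool := onCell 0 536870912 0 536870912 1046898278 26843546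
    (rowNX 3 0 false true false .pp 2 0 2 (qsf 0 536870912 0 536870912 0) ndN0q2 ndN0q2 pcN0 cut_pm_202 Ext.none)

def k0_pm_202 : ∃ t, chk3 f_pm_202 t 1 1 1 = true :=
  ⟨(a (l 3) (b (l 3) (a (l 3) (b (l 3) (b (l 3) (a (l 3) (l 6))))))), by decide +kernel⟩

theorem c_pm_202 : CertNX 0 536870912 0 536870912 1046898278 26843546 3 false true false .pp 2 0 2
    ndN0q2 ndN0q2 pcN0 cut_pm_202 Ext.none :=
  certNX0 (fam := false) (s1 := true) (s2 := false) (a := 2) (b := 0) (c := 2) (cn := .pp) (n1 := ndN0q2) (n2 := ndN0q2) (pc := pcN0) (cut := cut_pm_202) (xt := Ext.none) (P1 := 0) (W1 := 536870912) (P2 := 0) (W2 := 536870912) (P3 := 1046898278) (W3 := 26843546) (N0 := 3)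
    rfl k0_pm_202

noncomputable def f_mm_001 : ℕ → ℕ → ℕ → ℕ → Bool := onCell 0 536870912 0 536870912 1046898278 26843546
    (rowNX 3 1 false false false .up 0 0 1 (qsf 0 536870912 536870912 536870912 0) ndN0q0 ndN0q1 pcN0 Cut.none Ext.none)

def k0_mm_001 : ∃ t, chk3 f_mm_001 t 1 1 1 = true :=
  ⟨(l 3), by decide +kernel⟩

theorem c_mm_001 : CertNX 0 536870912 536870912 536870912 1046898278 26843546 3 false false false .up 0 0 1
    ndN0q0 ndN0q1 pcN0 Cut.none Ext.none :=
  certNX1 (fam := false) (s1 := false) (s2 := false) (a := 0) (b := 0) (c := 1) (cn := .up) (n1 := ndN0q0) (n2 := ndN0q1) (pc := pcN0) (cut := Cut.none) (xt := Ext.none) (P1 := 0) (W1 := 536870912) (P2 := 536870912) (W2 := 536870912) (P3 := 1046898278) (W3 := 26843546) (N0 := 3)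
    rfl (fun _ => rfl) k0_mm_001

noncomputable def f_mm_011 : ℕ → ℕ → ℕ → ℕ → Bool := onCell 0 536870912 536870912 536870912 1046898278 26843546
    (rowNX 3 1 false false false .pnn 0 1 1 (qsf 0 536870912 536870912 536870912 1) ndN0q0 ndN0q1 pcN1 Cut.none Ext.none)

def k0_mm_011 : ∃ t, chk3 f_mm_011 t 1 1 1 = true :=
  ⟨(l 5), by decide +kernel⟩

theorem c_mm_011 : CertNX 0 536870912 536870912 536870912 1046898278 26843546 3 false false false .pnn 0 1 1
    ndN0q0 ndN0q1 pcN1 Cut.none Ext.none :=
  certNX1 (fam := false) (s1 := false) (s2 := false) (a := 0) (b := 1) (c := 1) (cn := .pnn) (n1 := ndN0q0) (n2 := ndN0q1) (pc := pcN1) (cut := Cut.none) (xt := Ext.none) (P1 := 0) (W1 := 536870912) (P2 := 536870912) (W2 := 536870912) (P3 := 1046898278) (W3 := 26843546) (N0 := 3)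
    rfl (fun _ => rfl) k0_mm_011

noncomputable def f_mm_012 : ℕ → ℕ → ℕ → ℕ → Bool := onCell 0 536870912 0 536870912 1046898278 26843546
    (rowNX 3 0 false false false .pnp 0 1 2 (qsf 0 536870912 0 536870912 1) ndN0q0 ndN0q2 pcN1 Cut.none Ext.none)

def k0_mm_012 : ∃ t, chk3 f_mm_012 t 1 1 1 = true :=
  ⟨(l 5), by decide +kernel⟩

theorem c_mm_012 : CertNX 0 536870912 0 536870912 1046898278 26843546 3 false false false .pnp 0 1 2
    ndN0q0 ndN0q2 pcN1 Cut.none Ext.none :=
  certNX0 (fam := false) (s1 := false) (s2 := false) (a := 0) (b := 1) (c := 2) (cn := .pnp) (n1 := ndN0q0) (n2 := ndN0q2) (pc := pcN1) (cut := Cut.none) (xt := Ext.none) (P1 := 0) (W1 := 536870912) (P2 := 0) (W2 := 536870912) (P3 := 1046898278) (W3 := 26843546) (N0 := 3)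
    rfl k0_mm_012

noncomputable def f_mm_022 : ℕ → ℕ → ℕ → ℕ → Bool := onCell 0 536870912 0 536870912 1046898278 26843546
    (rowNX 3 0 false false false .pp 0 2 2 (qsf 0 536870912 0 536870912 2) ndN0q0 ndN0q2 pcN2 Cut.none Ext.none)

def k0_mm_022 : ∃ t, chk3 f_mm_022 t 1 1 1 = true :=
  ⟨(l 5), by decide +kernel⟩

theorem c_mm_022 : CertNX 0 536870912 0 536870912 1046898278 26843546 3 false false false .pp 0 2 2
    ndN0q0 ndN0q2 pcN2 Cut.none Ext.none :=
  certNX0 (fam := false) (s1 := false) (s2 := false) (a := 0) (b := 2) (c := 2) (cn := .pp) (n1 := ndN0q0) (n2 := ndN0q2) (pc := pcN2) (cut := Cut.none) (xt := Ext.none) (P1 := 0) (W1 := 536870912) (P2 := 0) (W2 := 536870912) (P3 := 1046898278) (W3 := 26843546) (N0 := 3)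
    rfl k0_mm_022

noncomputable def f_mm_101 : ℕ → ℕ → ℕ → ℕ → Bool := onCell 536870912 536870912 536870912 536870912 1046898278 26843546
    (rowNX 3 0 false false false .npn 1 0 1 (qsf 536870912 536870912 536870912 536870912 0) ndN0q1 ndN0q1 pcN0 Cut.none Ext.none)

def k0_mm_101 : ∃ t, chk3 f_mm_101 t 1 1 1 = true :=
  ⟨(l 3), by decide +kernel⟩

theorem c_mm_101 : CertNX 536870912 536870912 536870912 536870912 1046898278 26843546 3 false false false .npn 1 0 1
    ndN0q1 ndN0q1 pcN0 Cut.none Ext.none :=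
  certNX0 (fam := false) (s1 := false) (s2 := false) (a := 1) (b := 0) (c := 1) (cn := .npn) (n1 := ndN0q1) (n2 := ndN0q1) (pc := pcN0) (cut := Cut.none) (xt := Ext.none) (P1 := 536870912) (W1 := 536870912) (P2 := 536870912) (W2 := 536870912) (P3 := 1046898278) (W3 := 26843546) (N0 := 3)
    rfl k0_mm_101

noncomputable def f_mm_102 : ℕ → ℕ → ℕ → ℕ → Bool := onCell 536870912 536870912 0 536870912 1046898278 26843546
    (rowNX 3 0 false false false .npp 1 0 2 (qsf 536870912 536870912 0 536870912 0) ndN0q1 ndN0q2 pcN0 Cut.none Ext.none)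

def k0_mm_102 : ∃ t, chk3 f_mm_102 t 1 1 1 = true :=
  ⟨(a (l 5) (l 3)), by decide +kernel⟩

theorem c_mm_102 : CertNX 536870912 536870912 0 536870912 1046898278 26843546 3 false false false .npp 1 0 2
    ndN0q1 ndN0q2 pcN0 Cut.none Ext.none :=
  certNX0 (fam := false) (s1 := false) (s2 := false) (a := 1) (b := 0) (c := 2) (cn := .npp) (n1 := ndN0q1) (n2 := ndN0q2) (pc := pcN0) (cut := Cut.none) (xt := Ext.none) (P1 := 536870912) (W1 := 536870912) (P2 := 0) (W2 := 536870912) (P3 := 1046898278) (W3 := 26843546) (N0 := 3)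
    rfl k0_mm_102

noncomputable def f_mm_112 : ℕ → ℕ → ℕ → ℕ → Bool := onCell 536870912 536870912 0 536870912 1046898278 26843546
    (rowNX 3 2 false false false .dn 1 1 2 (qsf 536870912 536870912 0 536870912 1) ndN0q1 ndN0q2 pcN1 Cut.none Ext.none)

def k0_mm_112 : ∃ t, chk3 f_mm_112 t 1 1 1 = true :=
  ⟨(l 5), by decide +kernel⟩

theorem c_mm_112 : CertNX 536870912 536870912 0 536870912 1046898278 26843546 3 false false false .dn 1 1 2
    ndN0q1 ndN0q2 pcN1 Cut.none Ext.none :=
  certNX2 (fam := false) (s1 := false) (s2 := false) (a := 1) (b := 1) (c := 2) (cn := .dn) (n1 := ndN0q1) (n2 := ndN0q2) (pc := pcN1) (cut := Cut.none) (xt := Ext.none) (P1 := 536870912) (W1 := 536870912) (P2 := 0) (W2 := 536870912) (P3 := 1046898278) (W3 := 26843546) (N0 := 3)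
    rfl (fun _ => rfl) k0_mm_112

noncomputable def f_mm_202 : ℕ → ℕ → ℕ → ℕ → Bool := onCell 0 536870912 0 536870912 1046898278 26843546
    (rowNX 3 0 false false false .pp 2 0 2 (qsf 0 536870912 0 536870912 0) ndN0q2 ndN0q2 pcN0 Cut.none Ext.none)

def k0_mm_202 : ∃ t, chk3 f_mm_202 t 1 1 1 = true :=
  ⟨(l 3), by decide +kernel⟩

theorem c_mm_202 : CertNX 0 536870912 0 536870912 1046898278 26843546 3 false false false .pp 2 0 2
    ndN0q2 ndN0q2 pcN0 Cut.none Ext.none :=
  certNX0 (fam := false) (s1 := false) (s2 := false) (a := 2) (b := 0) (c := 2) (cn := .pp) (n1 := ndN0q2) (n2 := ndN0q2) (pc := pcN0) (cut := Cut.none) (xt := Ext.none) (P1 := 0) (W1 := 536870912) (P2 := 0) (W2 := 536870912) (P3 := 1046898278) (W3 := 26843546) (N0 := 3)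
    rfl k0_mm_202

end Pool.Agent.Strip051.G.IE1.Tab.C.NB00

namespace Pool.Agent.Strip051.G.IE1.Tab.C.NB01

open Pool.Agent.Strip051.PB Pool.Agent.Strip051.PB.T
open Pool.Agent.Strip051.G.IE1.Tab

noncomputable def f_pp_001 : ℕ → ℕ → ℕ → ℕ → Bool := onCell 0 536870912 536870912 536870912 1046898278 26843546
    (rowNX 3 0 false true true .up 0 0 1 (qsf 0 536870912 536870912 536870912 0) ndN0q0 ndN1q1 pcN0 Cut.none Ext.none)

def k0_pp_001 : ∃ t, chk3 f_pp_001 t 1 1 1 = true :=
  ⟨(l 3), by decide +kernel⟩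

theorem c_pp_001 : CertNX 0 536870912 536870912 536870912 1046898278 26843546 3 false true true .up 0 0 1
    ndN0q0 ndN1q1 pcN0 Cut.none Ext.none :=
  certNX0 (fam := false) (s1 := true) (s2 := true) (a := 0) (b := 0) (c := 1) (cn := .up) (n1 := ndN0q0) (n2 := ndN1q1) (pc := pcN0) (cut := Cut.none) (xt := Ext.none) (P1 := 0) (W1 := 536870912) (P2 := 536870912) (W2 := 536870912) (P3 := 1046898278) (W3 := 26843546) (N0 := 3)
    rfl k0_pp_001

noncomputable def f_pp_011 : ℕ → ℕ → ℕ → ℕ → Bool := onCell 0 536870912 536870912 536870912 1046898278 26843546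
    (rowNX 3 0 false true true .pnn 0 1 1 (qsf 0 536870912 536870912 536870912 1) ndN0q0 ndN1q1 pcN1 Cut.none Ext.none)

def k0_pp_011 : ∃ t, chk3 f_pp_011 t 1 1 1 = true :=
  ⟨(l 3), by decide +kernel⟩

theorem c_pp_011 : CertNX 0 536870912 536870912 536870912 1046898278 26843546 3 false true true .pnn 0 1 1
    ndN0q0 ndN1q1 pcN1 Cut.none Ext.none :=
  certNX0 (fam := false) (s1 := true) (s2 := true) (a := 0) (b := 1) (c := 1) (cn := .pnn) (n1 := ndN0q0) (n2 := ndN1q1) (pc := pcN1) (cut := Cut.none) (xt := Ext.none) (P1 := 0) (W1 := 536870912) (P2 := 536870912) (W2 := 536870912) (P3 := 1046898278) (W3 := 26843546) (N0 := 3)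
    rfl k0_pp_011

noncomputable def f_pp_012_a : ℕ → ℕ → ℕ → ℕ → Bool := onCell 536870912 536870912 0 420477299 1046898278 26843546
    (rowNX 3 2 false true true .pnp 0 1 2 (qsf 0 536870912 0 420477299 1) ndN0q0 ndN1q2a pcN1 Cut.none Ext.none)

def k0_pp_012_a : ∃ t, chk3 f_pp_012_a t 2 1 1 = true :=
  ⟨(b (a (l 2) (a (b (a (l 3) (a (l 3) (b (c (a (l 257328938999) (l 230485393399)) (l 218137362423)) (l 3)))) (l 3)) (b (a (a (b (c (c (l 186998849367) (l 180019527511)) (l 166597754711)) (l 3)) (b (c (l 16777208) (l 16777208)) (c (l 257328938679) (l 248739004071)))) (c (b (l 16777208) (a (b (l 159081561767) (l 256255196679)) (c (l 16777048) (l 16777040)))) (b (l 16777208) (c (l 156934077463) (l 145659788311))))) (b (a (l 3) (c (a (l 3) (l 270213839543)) (l 266455743111))) (l 3))))) (l 3)), by decide +kernel⟩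

def k1_pp_012_a : ∃ t, chk3 f_pp_012_a t 6 2 1 = true :=
  ⟨(a (b (a (c (c (l 16777128) (l 16777128)) (c (l 16777128) (l 16777128))) (c (a (l 16768768) (l 16749552)) (a (l 16768472) (l 16748576)))) (a (b (c (a (b (l 174650817239) (l 3)) (c (l 146196656439) (l 16776536))) (c (l 159618428359) (l 148344139191))) (l 3)) (c (b (a (l 16774976) (l 16765848)) (a (b (l 195588776919) (l 3)) (b (l 16773968) (l 195588773207)))) (b (a (l 16774904) (l 16765448)) (a (l 218137359271) (c (l 156397191543) (l 16775408))))))) (a (b (c (b (a (l 16715088) (l 16681992)) (l 16699496)) (b (a (l 16712912) (l 16678648)) (l 16718472))) (c (a (c (l 27011296503) (l 16759240)) (b (l 16729936) (l 16753632))) (b (a (l 16749872) (l 16728280)) (a (l 16767760) (l 16752808))))) (b (b (a (c (l 16646696) (l 16642112)) (a (c (l 16547728) (l 16583088)) (l 16501088))) (a (c (l 16673464) (l 16669824)) (c (a (l 16599112) (l 16536816)) (a (l 16614568) (l 16528384))))) (a (c (b (l 16703400) (l 16733224)) (b (l 16700816) (l 16731688))) (c (a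 (a (l 16673928) (l 16644520)) (l 16581560)) (a (b (l 16656752) (l 16655344)) (l 16596408))))))), by decide +kernel⟩

def k2_pp_012_a : ∃ t, chk3 f_pp_012_a t 6 3 1 = true :=
  ⟨(a (l 3) (b (a (b (c (c (a (l 212768647655) (b (l 16771176) (l 160155284935))) (a (l 212768647575) (l 146733482759))) (a (b (l 194515027415) (l 3)) (c (l 146733503655) (l 155860292679)))) (l 3)) (a (b (c (c (l 16762896) (l 16762656)) (c (l 16762408) (l 16762160))) (b (c (c (l 186461954775) (l 184314470839)) (c (l 185925083447) (l 192367534247))) (l 3))) (a (a (b (c (l 16749008) (l 16748032)) (b (c (l 125258665783) (l 16775192)) (l 3))) (c (b (l 16686896) (b (l 47412313351) (l 207936762007))) (b (l 16706184) (b (l 16759880) (l 219747920455))))) (b (c (l 16624800) (l 16641904)) (c (b (l 16656960) (b (a (l 154249587319) (l 16693848)) (b (l 199883550231) (l 3)))) (b (l 16675200) (b (l 16690520) (l 212231567287)))))))) (l 3))), by decide +kernel⟩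

def k3_pp_012_a : ∃ t, chk3 f_pp_012_a t 14 2 1 = true :=
  ⟨(a (b (b (c (l 16232504) (l 16278504)) (c (a (c (l 16394648) (l 16409312)) (a (l 16287192) (l 16201344))) (a (l 16378696) (l 16226776)))) (a (c (c (l 16476816) (l 16471576)) (b (l 16441376) (l 16485808))) (a (c (l 16344936) (l 16329752)) (c (b (l 16235728) (b (l 16269032) (l 16298456))) (b (l 16216720) (l 16268432)))))) (b (c (a (b (l 16036816) (a (l 16115344) (l 16034896))) (b (l 15924136) (l 15989152))) (a (b (l 16010832) (l 16051160)) (b (l 15894440) (l 15961832)))) (a (c (b (a (b (l 16142144) (l 16165176)) (b (c (l 16084440) (l 16072392)) (l 16121296))) (a (b (l 16203312) (l 16261320)) (l 16216984))) (b (a (l 16130712) (b (l 16053968) (l 16098432))) (a (l 16216400) (l 16197688)))) (c (b (b (l 16055360) (a (l 16112568) (c (l 16112776) (l 16101584)))) (a (l 16208280) (c (l 16205800) (l 16196336)))) (a (b (l 16064704) (l 16188976)) (b (l 16057320) (l 16181856))))))), by decide +kernel⟩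

def k4_pp_012_a : ∃ t, chk3 f_pp_012_a t 14 6 1 = true :=
  ⟨(a (b (a (c (a (l 16560688) (b (l 16484888) (l 16507648))) (c (l 16449128) (l 16465864))) (c (b (a (l 16401328) (l 16351528)) (a (b (l 16431336) (l 16465520)) (l 16431296))) (b (a (l 16388136) (l 16336688)) (a (l 16439424) (l 16419432))))) (a (c (b (a (c (l 16616264) (l 16613456)) (c (b (l 16537824) (l 16572072)) (b (l 16533664) (l 16568536)))) (a (b (c (a (l 16654656) (l 16629832)) (l 16600312)) (b (c (l 16637264) (l 16666864)) (a (l 184851169287) (l 16689048)))) (c (l 16623224) (l 16641992)))) (b (a (l 16567224) (b (l 16527296) (l 16563128))) (a (b (a (l 16649264) (l 16623384)) (c (l 16655784) (l 16675064))) (l 16596688)))) (c (c (b (l 16530008) (b (l 16603104) (l 16613032))) (b (l 16525872) (l 16563936))) (c (b (l 16521680) (l 16603576)) (b (l 16517424) (l 16622200)))))) (b (c (a (b (l 16331504) (l 16415648)) (a (l 16361456) (l 16355504))) (a (b (l 16316336) (l 16403624)) (c (l 16348048) (l 16341176)))) (a (c (b (c (l 16510680) (l 16506488))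 (c (b (l 16585408) (l 16638480)) (l 16588776))) (b (l 16458120) (c (l 16607424) (l 16605064)))) (a (c (b (l 16497688) (l 16559440)) (l 16438536)) (c (b (l 16492488) (l 16575936)) (l 16433856)))))), by decide +kernel⟩

def k5_pp_012_a : ∃ t, chk3 f_pp_012_a t 14 14 1 = true :=
  ⟨(b (a (a (a (a (l 3) (b (b (c (l 182703726839) (l 16711296)) (l 3)) (l 3))) (c (b (c (b (l 16708968) (a (l 173040094375) (l 16712024))) (l 70497680295)) (c (l 127406120151) (l 134385441959))) (b (c (l 16719560) (l 16718808)) (c (l 16721496) (l 16742080))))) (c (b (a (c (b (l 16699936) (l 16726560)) (l 16712544)) (c (l 16662912) (l 16704120))) (c (a (a (l 26474387607) (l 16718448)) (l 16733272)) (a (l 16740184) (l 16733008)))) (b (c (l 16691552) (l 16706520)) (c (a (l 16739904) (l 16732736)) (l 16735504))))) (c (c (a (b (a (l 16676248) (l 16690592)) (a (l 16725688) (l 16717800))) (b (a (l 16685224) (l 16681368)) (a (l 16704184) (l 16668456)))) (a (b (l 16671872) (l 16721768)) (b (l 16661320) (l 16696640)))) (a (b (c (l 16692112)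 (l 16691360)) (c (l 16721504) (l 16721232))) (b (c (l 16681656) (l 16681008)) (c (l 16696152) (l 16695664)))))) (a (a (l 3) (a (c (b (c (l 131164219543) (l 140827895799)) (l 3)) (c (l 169818895319) (l 173040120263))) (c (c (b (b (l 16741400) (a (l 16746344) (l 16744000))) (b (l 137069798391) (l 3))) (b (l 16742664) (l 150491550535))) (c (b (l 16742424) (l 120963650327)) (l 129553558631))))) (c (a (c (b (a (l 16735912) (l 16727832)) (a (b (l 16741712) (a (l 16745216) (l 16742728))) (l 16714768))) (b (l 16710840) (a (l 16742256) (l 16735512)))) (c (a (b (l 16714416) (l 16707768)) (b (l 16678936) (l 16714480))) (a (b (l 16714056) (l 16728512)) (l 16706368)))) (a (c (b (l 16731592) (a (l 16742000) (l 16735280))) (b (l 16731368) (l 16716888))) (c (a (l 16720592) (l 16705920)) (a (l 16720280) (l 16705472))))))), by decide +kernel⟩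

def k6_pp_012_a : ∃ t, chk3 f_pp_012_a t 14 15 1 = true :=
  ⟨(a (l 3) (a (b (a (b (c (c (c (l 121500511863) (l 130627317095)) (l 141901605095)) (c (l 104320640695) (l 16740432))) (l 3)) (c (c (b (b (l 16717896) (a (l 16730232) (l 16738048))) (b (a (l 141364733959) (l 16731816)) (l 139217248743))) (b (l 54391640023) (l 133311651175))) (c (b (l 16738176) (l 108615588167)) (b (l 16737824) (l 16711760))))) (l 3)) (a (b (c (c (b (c (l 16732408) (l 16732256)) (a (b (l 16734288) (l 66202794311)) (l 16730224))) (b (l 16732024) (b (l 16731960) (l 89288233975)))) (c (b (l 16731704) (b (l 16731504) (l 16729544))) (b (l 16731376) (l 16708984)))) (b (c (c (b (a (l 124184842151) (l 68887136151)) (l 125258559287)) (b (a (l 16726520) (l 16725880)) (l 106468081415))) (c (b (l 60297195015) (l 94120049191)) (l 109152428503))) (l 3))) (c (b (c (b (a (l 16727808) (l 16725144)) (a (l 16726856) (l 16702800))) (b (l 16726104) (l 16703768))) (b (b (c (a (l 16723640) (l 16720224)) (l 16700184)) (c (a (l 71034604903) (l 16716568))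 (a (l 85530117847) (l 16715752)))) (a (b (c (l 132774744871) (l 112373648103)) (l 3)) (b (c (a (l 156397066087) (l 108615550935)) (a (l 139754065799) (l 16709880))) (a (l 3) (b (c (c (l 16706072) (l 16705496)) (l 127942894215)) (l 3))))))) (b (c (b (l 16725824) (l 16724264)) (b (l 16725536) (l 16723776))) (b (c (a (b (l 16722280) (l 16717928)) (l 16717032)) (a (l 16719336) (l 16716272))) (c (b (a (l 16699880) (l 91435674455)) (c (l 102709942871) (l 98414974615))) (b (a (l 16709280) (l 16708328)) (l 96267488663))))))))), by decide +kernel⟩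

def k7_pp_012_a : ∃ t, chk3 f_pp_012_a t 15 2 1 = true :=
  ⟨(b (a (c (a (b (l 15898216) (l 15969368)) (l 15917032)) (a (l 15906968) (l 15888640))) (c (a (l 15902192) (l 15891192)) (a (l 15874176) (l 15863744)))) (b (a (c (a (c (l 16074984) (l 16063368)) (l 16059712)) (a (l 16045584) (l 16036576))) (c (a (l 16054520) (l 16053816)) (a (l 16032080) (l 16032272)))) (a (a (c (a (b (c (l 16166416) (l 16156408)) (l 16228392)) (b (b (l 16143440) (l 16176912)) (l 16224680))) (a (b (l 16141088) (l 16210560)) (b (l 16140856) (l 16207104)))) (a (c (b (l 16159048) (c (l 16231304) (l 16222896))) (b (l 16139400) (l 16210016))) (c (b (l 16158200) (c (a (l 16237400) (a (l 16240320) (a (l 16241256) (c (c (l 16202608) (l 16242576)) (l 16239632))))) (l 16230520))) (b (l 16138936) (a (l 16216768) (l 16220528)))))) (a (a (c (a (a (c (a (b (l 16162880) (c (c (l 16244704) (l 16242744)) (l 16239808))) (l 16202824)) (l 16194352)) (l 16198872)) (l 16199656)) (l 16182064)) (c (l 16201752) (l 16184944))) (c (b (l 16164624)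 (l 16250624)) (l 16192152)))))), by decide +kernel⟩

def k8_pp_012_a : ∃ t, chk3 f_pp_012_a t 30 6 2 = true :=
  ⟨(a (b (a (l 16344096) (l 16332384)) (b (l 16403552) (a (l 16558520) (l 16555128)))) (a (b (l 16286872) (l 16429864)) (a (b (l 16291760) (l 16450456)) (a (b (l 16341232) (l 16482112)) (c (c (b (c (b (l 16315960) (l 16387200)) (l 16350048)) (b (l 16446448) (l 16517024))) (l 16284288)) (l 16259992)))))), by decide +kernel⟩

def k9_pp_012_a : ∃ t, chk3 f_pp_012_a t 30 14 2 = true :=
  ⟨(a (b (b (a (l 16641120) (l 16634176)) (a (l 16666408) (l 16637024))) (a (c (b (l 16695704) (l 16678288)) (l 16676520)) (c (b (l 16661632) (l 16661752)) (l 16661208)))) (a (b (b (l 16613888) (l 16634648)) (c (l 16612696) (l 16632416))) (b (a (b (l 16610448) (l 16629544)) (c (b (l 16565784) (l 16606624)) (l 16637384))) (c (a (l 16625600) (c (a (l 16639720) (c (l 16609944) (l 16649384))) (l 16644184))) (l 16592024))))), by decide +kernel⟩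

def k10_pp_012_a : ∃ t, chk3 f_pp_012_a t 30 15 2 = true :=
  ⟨(a (b (a (c (b (c (l 16678640) (l 16678336)) (a (l 16687368) (l 16684312))) (b (l 16677880) (l 16653232))) (c (b (l 16637464) (a (l 16661992) (l 16641432))) (b (l 16657240) (l 16649912)))) (a (b (c (a (b (l 16703880) (l 16699608)) (l 16655048)) (a (l 16679936) (l 16674680))) (c (b (a (l 16673272) (l 16667016)) (a (b (a (l 16696744) (l 16682384)) (a (c (l 151028310775) (l 140827761575)) (c (l 16679128) (l 16678328)))) (c (b (l 16662008) (l 16658032)) (l 16638120)))) (b (a (l 16672040) (l 16665376)) (a (c (b (l 16688448) (l 95193701655)) (l 98414923415)) (c (l 16658160) (l 16657224)))))) (b (c (a (l 16651864) (l 16629464)) (a (l 16650168) (l 16627448))) (a (b (c (l 16641464) (l 16639448)) (c (a (l 16639592) (b (l 16629520) (l 16629200))) (a (l 16637432) (b (l 16627240) (l 16626880))))) (b (c (a (l 16624408) (l 16618776)) (l 16620216)) (c (b (l 16624152) (l 16628960)) (l 16624392))))))) (a (b (b (c (l 16624640) (l 16622992)) (c (a (l 16622688)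 (l 16607776)) (a (l 16620808) (l 16605712)))) (b (a (c (b (l 16613488) (l 16613160)) (b (l 16611312) (l 16610896))) (c (l 16591792) (l 16610640))) (c (a (b (l 16620176) (l 16630048)) (l 16631216)) (a (l 16622928) (l 16629272))))) (b (c (a (b (l 16613720) (a (l 16604856) (l 16622568))) (a (b (l 16631448) (l 16645904)) (c (c (b (a (l 16643896) (l 16656424)) (l 16620512)) (l 16660096)) (l 16659792)))) (b (a (l 16612000) (l 16640048)) (a (l 16570920) (l 16656912)))) (c (a (b (l 16590264) (a (l 16618600) (l 16661704))) (a (b (l 16667584) (l 16686592)) (c (c (b (a (l 16686544) (l 16657720)) (c (b (l 16665672) (l 16667656)) (l 16690848))) (l 16680632)) (l 16659528)))) (b (a (l 16609560) (l 16679072)) (a (a (l 16637856) (l 16660440)) (l 16677520))))))), by decide +kernel⟩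

def k11_pp_012_a : ∃ t, chk3 f_pp_012_a t 30 3 3 = true :=
  ⟨(b (a (a (b (l 16330608) (l 16417320)) (b (l 16318856) (l 16436912))) (a (b (l 16315536) (l 16422688)) (b (l 16242360) (c (l 16431808) (l 16449408))))) (b (a (b (b (a (l 16660528) (l 16631888)) (a (l 16686504) (l 16656432))) (a (c (l 16697072) (l 16696640)) (c (l 16660288) (l 16659336)))) (b (a (b (l 16611168) (l 16632528)) (b (l 16574928) (l 16636944))) (a (c (l 16631128) (l 16629800)) (b (l 16613736) (l 16608024))))) (a (b (a (c (b (l 16698232) (l 16673344)) (b (l 16697592) (l 16672464))) (c (b (l 16656016) (l 16648392)) (l 16609336))) (a (b (c (a (l 16699928) (l 16673312)) (l 16664128)) (c (b (a (l 16691760) (l 16663712)) (a (c (l 16663912) (l 16684144)) (l 16655800))) (b (l 16654952) (a (l 16683024) (l 16653880))))) (b (c (l 16615624) (l 16634664)) (c (a (b (l 16637392) (a (l 16635240) (l 16625448))) (b (l 16617912) (l 16622080))) (a (b (l 16635312) (l 16628696)) (b (l 16615560) (l 16619728))))))) (b (a (b (l 16599488) (c (l 16590352)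 (l 16609264))) (b (a (l 16609344) (l 16617304)) (a (c (l 16590000) (l 16609032)) (l 16634424)))) (a (b (c (a (l 16610360) (l 16608472)) (a (l 16608080) (l 16606256))) (c (b (l 16618832) (l 16628496)) (l 16600528))) (b (c (l 16590680) (l 16589424)) (c (a (l 16605688) (l 16676984)) (a (l 16625104) (l 16676432))))))))), by decide +kernel⟩

def k12_pp_012_a : ∃ t, chk3 f_pp_012_a t 62 6 4 = true :=
  ⟨(c (a (a (b (a (c (l 16295208) (b (l 16318192) (l 16391248))) (c (b (a (l 16324248) (l 16305184)) (l 16403888)) (b (l 16322512) (l 16399032)))) (c (a (l 16464080) (l 16436040)) (b (a (l 16473712) (l 16484336)) (l 16469328)))) (b (a (c (l 16263104) (b (a (l 16325896) (l 16285824)) (l 16407128))) (b (l 16330688) (l 16412160))) (a (c (l 16485280) (l 16441064)) (l 16467872)))) (b (b (a (l 16334928) (l 16340472)) (l 16400832)) (l 16434864))) (a (a (a (l 16247968) (b (c (b (l 16320312) (l 16395360)) (l 16355968)) (l 16421432))) (b (a (c (b (l 16282520) (l 16402800)) (b (l 16322480) (l 16399536))) (c (b (a (l 16327688)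 (l 16287552)) (l 16410472)) (b (c (l 16326944) (l 16304960)) (l 16406672)))) (c (a (l 16433544) (l 16425224)) (a (l 16449344) (l 16439448))))) (a (b (a (c (l 16309408) (b (b (l 16308952) (l 16351392)) (l 16413944))) (b (l 16333976) (l 16418880))) (c (l 16475152) (a (l 16430472) (l 16499712)))) (b (b (l 16337696) (l 16424992)) (l 16482976))))), by decide +kernel⟩

def k13_pp_012_a : ∃ t, chk3 f_pp_012_a t 62 6 5 = true :=
  ⟨(a (b (a (l 16349856) (b (b (l 16238608) (l 16340392)) (l 16399112))) (c (l 16402472) (l 16484952))) (a (c (b (b (a (c (c (l 16328824) (l 16306928)) (l 16326672)) (b (l 16307760) (c (l 16332680) (l 16352008)))) (c (a (l 16410648) (l 16396560)) (a (l 16408080) (l 16414712)))) (c (a (l 16445472) (l 16435824)) (a (l 16462328) (l 16430648)))) (b (b (l 16325752) (l 16409072)) (l 16464992))) (a (c (c (b (l 16356376) (l 16525728)) (b (b (a (l 16332544) (l 16333816)) (l 16400272)) (l 16441288))) (b (c (a (b (l 16330912) (l 16417032)) (a (l 16291032) (l 16355256))) (l 16309464)) (c (b (l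 16427552) (l 16530848)) (l 16496568)))) (c (b (l 16338536) (l 16529936)) (c (b (b (b (l 16308608) (l 16357888)) (l 16425096)) (l 16446864)) (a (b (b (l 16331888) (l 16421368)) (l 16461128)) (b (b (l 16332872) (l 16424792)) (l 16446160)))))))), by decide +kernel⟩

def k14_pp_012_a : ∃ t, chk3 f_pp_012_a t 62 6 3 = true :=
  ⟨(a (b (l 16261032) (l 16439728)) (b (c (b (a (l 16321160) (l 16327408)) (l 16411288)) (l 16318528)) (c (l 16428784) (l 16489680)))), by decide +kernel⟩

def k15_pp_012_a : ∃ t, chk3 f_pp_012_a t 63 12 1 = true :=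
  ⟨(c (a (a (c (b (l 16342824) (l 16434504)) (c (b (l 16338640) (l 16431968)) (a (c (l 16361816) (b (l 16313136) (l 16407448))) (l 16302176)))) (b (l 16343792) (c (l 16423280) (a (l 16438536) (l 16443496))))) (b (l 16350512) (c (l 16436840) (l 16370624)))) (a (c (a (c (b (a (a (l 16331416) (l 16332128)) (l 16333672)) (c (a (a (l 16425608) (l 16407424)) (l 16410896)) (a (l 16425280) (a (l 16429288) (l 16390120))))) (l 16336576)) (b (l 16335496) (c (c (l 16438560) (a (l 16414688) (l 16440472))) (a (c (a (l 16433280) (l 16394072)) (l 16433320)) (c (l 16418680) (a (l 16437440) (l 16377192))))))) (b (l 16327896) (l 16427232))) (b (l 16339936) (c (a (c (l 16447888) (a (c (l 16444512) (l 16401704)) (l 16448816))) (l 16455856)) (a (c (a (c (a (l 16399704) (l 16381240)) (l 16441744)) (c (l 16447528) (a (l 16424656) (l 16364048)))) (l 16442528)) (b (l 16422400) (c (l 16418464) (a (c (c (l 16394320) (l 16477832)) (l 16477264)) (c (l 16482840) (b (l 16466608) (a (l 16495496) (l 16435104)))))))))))), by decide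 +kernel⟩

def k16_pp_012_a : ∃ t, chk3 f_pp_012_a t 63 13 1 = true :=
  ⟨(c (a (c (b (l 16491080) (l 16502512)) (a (c (l 16494800) (a (c (l 16536256) (l 16452568)) (l 16520080))) (b (l 16496128) (l 16509792)))) (b (a (l 16509960) (l 16505872)) (a (l 16476752) (l 16475376)))) (a (c (a (c (c (a (a (l 16467712) (l 16452432)) (l 16458392)) (a (l 16531088) (a (l 16474400) (l 16437800)))) (l 16513176)) (a (c (c (l 16506280) (l 16423112)) (a (l 16438992) (c (a (l 16443568) (l 16446120)) (l 16526544)))) (c (l 16472304) (c (l 16410424) (a (l 16447840) (a (l 16410216) (l 16434008))))))) (l 16416880)) (c (a (c (l 16417840) (c (l 16417040) (b (l 16486536) (l 16450936)))) (b (l 16524840) (l 16471400))) (a (c (c (a (b (l 16461984) (b (l 16557344) (l 16472816))) (b (l 16552376) (l 16504568))) (a (l 16502832) (b (l 16447144) (c (l 16440936) (l 16482904))))) (l 16478968)) (c (b (c (l 16544976) (l 16460816)) (l 16406256)) (a (c (a (l 16418184) (c (l 16451096) (l 16408952))) (l 16496520)) (c (l 16393800) (b (c (a (l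 16523664) (l 16571520)) (l 16443216)) (a (l 16440456) (l 16385592)))))))))), by decide +kernel⟩

def k17_pp_012_a : ∃ t, chk3 f_pp_012_a t 62 14 2 = true :=
  ⟨(a (c (b (c (a (c (b (l 16549472) (a (l 16635936) (l 16615560))) (b (l 16577312) (l 16612216))) (a (b (l 16593240) (l 16584304)) (l 16600056))) (a (b (l 16644072) (l 16637496)) (c (a (l 16575848) (b (l 16604096) (l 16594832))) (a (l 16602104) (l 16543816))))) (a (c (a (c (l 16640872) (l 16619432)) (c (b (l 16630528) (l 16623440)) (l 16585016))) (b (l 16654856) (l 16603144))) (c (a (c (l 16597936) (b (l 16599008) (l 16615080))) (l 16583264)) (c (a (b (l 16629824) (l 16636568)) (b (l 16586032) (l 16581848))) (a (l 16575504) (b (l 16615928) (l 16612784))))))) (b (b (l 16590448) (l 16604296)) (a (l 16662672) (b (l 16628200) (l 16589048))))) (a (c (b (c (l 16569392) (a (b (l 16573280) (l 16563760)) (l 16579760))) (a (c (l 16589664) (b (l 16548600) (l 16536904))) (l 16547176))) (b (c (a (b (l 16538384) (l 16592792)) (c (b (l 16583544) (l 16572856))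 (b (l 16588776) (l 16578872)))) (l 16530184)) (c (a (b (c (l 16577032) (l 16603104)) (l 16526232)) (c (l 16518872) (l 16526136))) (l 16542064)))) (c (b (b (l 16555232) (l 16556808)) (l 16514872)) (a (b (c (b (c (l 16573408) (l 16552128)) (l 16537464)) (c (b (l 16534632) (l 16519648)) (l 16530752))) (c (c (l 16536648) (l 16515208)) (c (a (l 16551264) (l 16533528)) (l 16546408)))) (b (c (l 16509840) (b (c (l 16541440) (a (l 16570552) (l 16561640))) (c (l 16538176) (l 16499384)))) (c (l 16514776) (c (l 16511064) (a (l 16524832) (l 16507376))))))))), by decide +kernel⟩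

def k18_pp_012_a : ∃ t, chk3 f_pp_012_a t 124 15 2 = true :=
  ⟨(c (a (c (b (b (a (c (l 16656976) (l 16650168)) (c (l 16597888) (l 16632048))) (c (a (l 16650800) (l 16589720)) (a (l 16640488) (l 16604144)))) (c (a (b (l 16626752) (a (l 16639312) (l 16657872))) (b (a (l 16635160) (l 16595472)) (a (l 16634176) (c (l 16611616) (l 16615928))))) (c (a (b (l 16637688) (a (l 16690896) (l 16651808))) (l 16617368)) (a (l 16641264) (b (l 16626104) (l 16605592)))))) (c (b (b (l 16633336) (l 16606744)) (a (l 16662184) (a (l 16641120) (b (l 16624528) (l 16614792))))) (b (l 16651688) (l 16626944)))) (c (b (a (c (l 16586792) (b (l 16594424) (l 16564760))) (l 16565576)) (a (c (b (l 16598024) (l 16595920)) (b (a (l 16609376) (l 16591128)) (a (l 16607840) (c (l 16586216) (l 16589648))))) (b (l 16576568) (l 16574296)))) (b (c (a (a (l 16591688) (l 16613624)) (b (l 16569688) (l 16560472))) (a (l 16589600) (a (l 16565408) (l 16587736)))) (a (c (b (l 16573784) (a (l 16584904) (l 16604384))) (b (l 16604192) (a (l 16633752)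 (l 16596984)))) (c (b (a (l 16583288) (l 16565544)) (a (l 16581200) (c (l 16560616) (l 16563120)))) (b (l 16546704) (c (l 16583928) (l 16550144)))))))) (c (b (b (l 16565024) (a (l 16670112) (l 16594088))) (a (l 16626568) (b (l 16569288) (a (l 16625952) (c (l 16575752) (l 16597000)))))) (b (l 16581928) (b (l 16617936) (l 16597576))))), by decide +kernel⟩

def k19_pp_012_a : ∃ t, chk3 f_pp_012_a t 125 15 2 = true :=
  ⟨(a (c (c (b (l 16558672) (b (l 16549000) (l 16546936))) (c (b (l 16549896) (b (l 16538920) (l 16536000))) (b (a (b (l 16565640) (l 16534928)) (l 16534408)) (a (b (a (l 16556912) (l 16539704)) (a (l 16554272) (l 16504968))) (l 16500160))))) (c (b (a (c (a (l 16559728) (l 16561432)) (l 16577152)) (c (b (l 16540328) (l 16530072)) (a (l 16532712) (l 16534744)))) (c (a (b (l 16519240) (c (l 16556264) (l 16521824))) (b (a (l 16530256) (l 16513624)) (a (l 16527072) (l 16509848)))) (a (b (l 16568760) (l 16567688)) (b (l 16512384) (a (l 16521240) (l 16521064)))))) (b (l 16541984) (b (l 16554008)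 (l 16531608))))) (c (b (b (l 16516256) (l 16506704)) (b (l 16458384) (c (l 16502968) (l 16493744)))) (c (b (a (c (l 16509448) (b (l 16514736) (l 16503968))) (l 16487336)) (a (c (l 16495320) (b (a (l 16503344) (l 16487312)) (a (l 16499608) (l 16483056)))) (l 16472984))) (b (c (a (a (l 16526320) (l 16506840)) (b (l 16488864) (l 16477600))) (a (l 16521568) (a (l 16498624) (l 16479480)))) (c (a (c (b (l 16502152) (l 16498824)) (b (l 16508712) (l 16506016))) (b (l 16448552) (a (l 16471904) (l 16456048)))) (a (b (l 16511160) (l 16508720)) (c (a (l 16484368) (l 16461968)) (b (l 16479960) (l 16476616))))))))), by decide +kernel⟩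

def k20_pp_012_a : ∃ t, chk3 f_pp_012_a t 62 7 3 = true :=
  ⟨(b (b (a (b (l 16631192) (l 16623720)) (c (b (l 16564168) (l 16526824)) (l 16489424))) (a (b (l 16639856) (l 16585808)) (c (a (l 16582640) (l 16531640)) (l 16533192)))) (b (c (a (l 16581064) (a (l 16561152) (l 16505808))) (a (l 16579904) (l 16530400))) (c (a (b (l 16595864) (l 16596384)) (a (l 16530456) (b (l 16494728) (l 16491880)))) (b (a (l 16615360) (l 16519912)) (a (l 16594776) (l 16517568)))))), by decide +kernel⟩

def k21_pp_012_a : ∃ t, chk3 f_pp_012_a t 63 7 2 = true :=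
  ⟨(b (a (c (b (b (l 16464072) (l 16490672)) (l 16379592)) (c (b (a (b (l 16544968) (l 16510160)) (l 16441336)) (l 16394584)) (b (a (a (b (l 16507688) (l 16515888)) (l 16471360)) (l 16416952)) (a (a (l 16466208) (l 16464800)) (l 16429416))))) (b (b (l 16409080) (l 16386800)) (c (l 16358968) (l 16352880)))) (a (c (b (a (l 16463040) (l 16410200)) (a (b (l 16451448) (l 16448064)) (b (l 16396976) (a (l 16407064) (l 16381064))))) (b (a (c (l 16455072) (a (c (l 16458728) (l 16414400)) (l 16435648))) (a (l 16415600) (l 16389800))) (a (c (b (l 16442440) (l 16438408)) (a (c (l 16442936) (b (l 16442400) (a (l 16443976) (l 16428848)))) (l 16419584))) (b (l 16388032) (a (l 16397216) (l 16352320)))))) (b (c (l 16327104) (l 16278304)) (b (a (l 16336224) (b (l 16281512) (l 16289976))) (a (b (c (l 16342352) (l 16335432)) (c (l 16364520) (l 16357936))) (c (l 16337352) (l 16330760))))))), by decide +kernel⟩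

def k22_pp_012_a : ∃ t, chk3 f_pp_012_a t 63 14 3 = true :=
  ⟨(a (c (a (b (c (a (c (b (c (l 16529160) (l 16531712)) (l 16496000)) (l 16493840)) (b (c (l 16509536) (a (l 16539496) (l 16505528))) (c (l 16489704) (l 16491208)))) (l 16459920)) (c (c (a (a (l 16498072) (l 16480992)) (l 16459992)) (a (l 16492344) (a (l 16471000) (l 16454376)))) (l 16477720))) (c (b (b (l 16414496) (l 16434184)) (b (l 16413664) (l 16395584))) (b (a (c (b (l 16466752) (l 16465184)) (l 16488416)) (c (l 16397936) (b (l 16441112) (l 16438888)))) (c (a (a (l 16443600) (l 16427528)) (l 16407808)) (a (l 16437152) (l 16365904)))))) (b (b (l 16474656) (l 16477536)) (l 16447776))) (c (b (a (c (l 16406840) (b (l 16362856) (l 16381232))) (l 16374720)) (a (c (l 16374984) (a (l 16383568) (l 16357968))) (l 16319384))) (a (c (b (a (c (b (l 16415176) (l 16412312)) (l 16434792)) (c (l 16367448) (b (l 16388952) (l 16385456)))) (a (c (c (l 16380144) (l 16380424)) (l 16380832)) (c (l 16354464) (c (l 16352632) (l 16352512))))) (b (l 16420048)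 (l 16365120))) (c (b (b (l 16393392) (l 16347464)) (l 16292944)) (a (b (c (c (a (l 16387600) (l 16374816)) (l 16317920)) (l 16379992)) (c (a (l 16331152) (l 16255416)) (l 16323344))) (c (b (l 16355040) (l 16297688)) (b (a (c (l 16318680) (l 16359832)) (c (l 16347344) (l 16262792))) (a (l 16303360) (c (l 16289496) (l 16288712)))))))))), by decide +kernel⟩

def k23_pp_012_a : ∃ t, chk3 f_pp_012_a t 126 15 3 = true :=
  ⟨(c (a (b (c (c (a (a (l 16470592) (l 16430944)) (l 16429696)) (a (l 16464840) (a (l 16442232) (l 16403168)))) (l 16449376)) (c (c (a (c (a (l 16455304) (l 16433520)) (b (l 16450872) (l 16446872))) (b (l 16415024) (a (l 16415824) (l 16401456)))) (a (l 16450720) (c (a (l 16425864) (l 16404912)) (b (l 16421448) (l 16416800))))) (l 16434456))) (a (c (b (c (l 16406664) (l 16402792)) (c (l 16389256) (b (l 16387408) (l 16381552)))) (b (c (a (l 16413552) (l 16396152)) (l 16406992)) (c (a (b (l 16399144) (l 16393992)) (c (l 16376168) (l 16381032))) (l 16390168)))) (c (b (l 16381536) (b (l 16366248)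 (l 16363456))) (b (c (l 16375632) (a (l 16384552) (l 16367952))) (c (b (l 16359552) (a (l 16359744) (l 16349616))) (b (a (l 16369168) (l 16351664)) (a (l 16364152) (c (l 16347256) (b (l 16347504) (l 16351272)))))))))) (b (l 16417712) (b (l 16403456) (a (l 16428320) (l 16371224))))), by decide +kernel⟩

def k24_pp_012_a : ∃ t, chk3 f_pp_012_a t 127 15 3 = true :=
  ⟨(c (b (a (c (l 16342856) (a (l 16330072) (l 16324680))) (l 16284696)) (a (b (c (l 16326744) (a (l 16334704) (l 16307728))) (a (c (l 16347360) (a (a (c (l 16344488) (l 16339104)) (l 16318016)) (l 16335008))) (b (l 16315248) (l 16346840)))) (b (l 16276672) (l 16323856)))) (b (a (c (a (c (c (l 16346888) (l 16347344)) (l 16348016)) (c (l 16320512) (c (l 16297344) (l 16318280)))) (l 16331440)) (c (a (l 16292688) (l 16264592)) (a (c (a (l 16296000) (c (l 16282608) (l 16281560))) (l 16287904)) (c (l 16261368) (a (l 16267264) (c (l 16252744) (l 16251880))))))) (a (c (a (b (c (c (l 16330024) (l 16330640)) (l 16331552)) (c (b (a (l 16332192) (l 16317992))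 (a (c (l 16343992) (l 16346640)) (l 16339496))) (l 16337832))) (c (b (l 16303104) (b (l 16308256) (l 16340048))) (b (c (l 16300656) (l 16300712)) (a (c (l 16302760) (l 16325360)) (c (l 16318680) (l 16318872)))))) (b (l 16314368) (l 16331032))) (c (b (a (a (l 16282128) (l 16271008)) (l 16258472)) (a (l 16298256) (l 16316800))) (a (c (b (a (l 16278480) (c (l 16267448) (l 16266320))) (a (l 16315864) (c (l 16315408) (l 16314360)))) (b (l 16272480) (l 16314504))) (c (b (l 16255096) (l 16313736)) (b (a (c (l 16235280) (l 16255072)) (c (l 16248096) (b (l 16236656) (l 16255720)))) (a (l 16271592) (c (l 16311728) (l 16311008)))))))))), by decide +kernel⟩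

theorem s25_pp_012_a : ∃ t, chk3 f_pp_012_a t 63 15 3 = true := ex3_a k23_pp_012_a k24_pp_012_a

theorem s26_pp_012_a : ∃ t, chk3 f_pp_012_a t 63 7 3 = true := ex3_b k22_pp_012_a s25_pp_012_a

theorem s27_pp_012_a : ∃ t, chk3 f_pp_012_a t 63 7 1 = true := ex3_c k21_pp_012_a s26_pp_012_a

theorem s28_pp_012_a : ∃ t, chk3 f_pp_012_a t 62 15 2 = true := ex3_a k18_pp_012_a k19_pp_012_a

theorem s29_pp_012_a : ∃ t, chk3 f_pp_012_a t 62 7 2 = true := ex3_b k17_pp_012_a s28_pp_012_a

theorem s30_pp_012_a : ∃ t, chk3 f_pp_012_a t 62 7 1 = true := ex3_c s29_pp_012_a k20_pp_012_a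

theorem s31_pp_012_a : ∃ t, chk3 f_pp_012_a t 31 7 1 = true := ex3_a s30_pp_012_a s27_pp_012_a

theorem s32_pp_012_a : ∃ t, chk3 f_pp_012_a t 63 6 1 = true := ex3_b k15_pp_012_a k16_pp_012_a

theorem s33_pp_012_a : ∃ t, chk3 f_pp_012_a t 62 6 2 = true := ex3_c k12_pp_012_a k13_pp_012_a

theorem s34_pp_012_a : ∃ t, chk3 f_pp_012_a t 62 6 1 = true := ex3_c s33_pp_012_a k14_pp_012_a

theorem s35_pp_012_a : ∃ t, chk3 f_pp_012_a t 31 6 1 = true := ex3_a s34_pp_012_a s32_pp_012_a

theorem s36_pp_012_a : ∃ t, chk3 f_pp_012_a t 31 3 1 = true := ex3_b s35_pp_012_a s31_pp_012_a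

theorem s37_pp_012_a : ∃ t, chk3 f_pp_012_a t 30 7 2 = true := ex3_b k9_pp_012_a k10_pp_012_a

theorem s38_pp_012_a : ∃ t, chk3 f_pp_012_a t 30 3 2 = true := ex3_b k8_pp_012_a s37_pp_012_a

theorem s39_pp_012_a : ∃ t, chk3 f_pp_012_a t 30 3 1 = true := ex3_c s38_pp_012_a k11_pp_012_a

theorem s40_pp_012_a : ∃ t, chk3 f_pp_012_a t 15 3 1 = true := ex3_a s39_pp_012_a s36_pp_012_a

theorem s41_pp_012_a : ∃ t, chk3 f_pp_012_a t 15 1 1 = true := ex3_b k7_pp_012_a s40_pp_012_a

theorem s42_pp_012_a : ∃ t, chk3 f_pp_012_a t 14 7 1 = true := ex3_b k5_pp_012_a k6_pp_012_a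

theorem s43_pp_012_a : ∃ t, chk3 f_pp_012_a t 14 3 1 = true := ex3_b k4_pp_012_a s42_pp_012_a

theorem s44_pp_012_a : ∃ t, chk3 f_pp_012_a t 14 1 1 = true := ex3_b k3_pp_012_a s43_pp_012_a

theorem s45_pp_012_a : ∃ t, chk3 f_pp_012_a t 7 1 1 = true := ex3_a s44_pp_012_a s41_pp_012_a

theorem s46_pp_012_a : ∃ t, chk3 f_pp_012_a t 6 1 1 = true := ex3_b k1_pp_012_a k2_pp_012_a

theorem s47_pp_012_a : ∃ t, chk3 f_pp_012_a t 3 1 1 = true := ex3_a s46_pp_012_a s45_pp_012_a

theorem s48_pp_012_a : ∃ t, chk3 f_pp_012_a t 1 1 1 = true := ex3_a k0_pp_012_a s47_pp_012_a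

theorem c_pp_012_a : CertNX 0 536870912 0 420477299 1046898278 26843546 3 false true true .pnp 0 1 2
    ndN0q0 ndN1q2a pcN1 Cut.none Ext.none :=
  certNX2 (fam := false) (s1 := true) (s2 := true) (a := 0) (b := 1) (c := 2) (cn := .pnp) (n1 := ndN0q0) (n2 := ndN1q2a) (pc := pcN1) (cut := Cut.none) (xt := Ext.none) (P1 := 0) (W1 := 536870912) (P2 := 0) (W2 := 420477299) (P3 := 1046898278) (W3 := 26843546) (N0 := 3)
    rfl (fun _ => rfl) s48_pp_012_a

noncomputable def f_pp_012_b : ℕ → ℕ → ℕ → ℕ → Bool := onCell 536870912 536870912 1239849684 370763052 1046898278 26843546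
    (rowNX 3 2 false true true .pnp 0 1 2 (qsf 0 536870912 1239849684 370763052 1) ndN0q0 ndN1q2b pcN1 Cut.none Ext.none)

def k0_pp_012_b : ∃ t, chk3 f_pp_012_b t 2 1 1 = true :=
  ⟨(b (a (l 2) (b (a (b (a (l 3) (a (l 3) (c (c (l 16777216) (l 16777216)) (a (l 16777216) (l 16777216))))) (l 2)) (a (b (c (c (l 16777216) (l 16777216)) (c (l 16777216) (l 16777216))) (b (c (l 16777216) (l 16777216)) (l 2))) (c (c (b (l 16777216) (l 16777216)) (l 16777216)) (c (l 16777216) (l 16777216))))) (b (a (l 2) (a (l 2) (c (l 16777216) (l 16777216)))) (l 2)))) (l 2)), by decide +kernel⟩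

def k1_pp_012_b : ∃ t, chk3 f_pp_012_b t 6 1 1 = true :=
  ⟨(a (b (a (b (c (c (l 16777192) (l 16777192)) (b (l 16777192) (l 16777192))) (b (c (l 16777200) (l 16777200)) (l 2))) (c (b (c (l 16754984) (l 16754592)) (c (l 16760344) (l 16760048))) (b (c (l 16754200) (l 16753800)) (c (l 16759752) (l 16759448))))) (l 2)) (b (a (b (c (b (a (l 16708768) (l 16674976)) (l 16654520)) (b (a (l 16706360) (l 16671384)) (l 16693632))) (c (b (l 16705104) (l 16712696)) (b (l 16702568) (l 16710432)))) (b (a (c (b (l 16635920) (l 16642000)) (b (l 16630960) (l 16637248))) (c (b (l 16536768) (l 16543736)) (b (l 16528328) (l 16535544)))) (a (c (l 16654152) (l 16649832)) (b (l 16547688) (c (l 16562000) (l 16554440)))))) (b (a (c (l 16725944) (l 16724144)) (a (c (l 16677544) (l 16674048)) (c (l 16475480) (l 16489536)))) (l 2)))), by decide +kernel⟩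

def k2_pp_012_b : ∃ t, chk3 f_pp_012_b t 7 1 1 = true :=
  ⟨(a (b (b (a (c (b (c (l 16266464) (l 16278888)) (l 16290424)) (b (l 16202912) (l 16273336))) (b (c (b (a (l 16020536) (b (l 15876056) (l 15845296))) (l 15935680)) (b (a (l 15993976) (l 15772128)) (l 15906144))) (c (l 15941640) (l 15912312)))) (c (a (l 16303608) (l 15955760)) (a (l 16286984) (l 15926928)))) (a (b (c (a (l 16411544) (l 16240640)) (a (l 16398712) (l 16221808))) (l 2)) (b (c (l 15978640) (l 15950608)) (c (a (l 16096520) (l 15919240)) (l 15857320))))) (b (b (b (a (b (c (a (b (l 15818376) (l 15725760)) (l 15738424)) (a (l 15739424) (l 15703256))) (c (a (l 15673664) (b (l 15581592) (l 15512304))) (a (l 15634968) (l 15510560)))) (c (a (l 15498544) (l 15577992)) (b (l 15668056) (l 15436880)))) (a (c (a (l 15672160) (l 15489288)) (l 15539328)) (b (a (c (l 15339560) (l 15289368)) (c (l 15254088) (l 15201648))) (c (a (l 15305248) (l 15133328)) (l 15168616))))) (a (c (b (l 15590440) (l 15601248)) (l 15554648)) (c (b (l 15219080) (l 15230496))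 (l 15170616)))) (b (a (c (l 15620824) (l 15580232)) (c (l 15251536) (l 15197984))) (c (a (l 15652072) (l 15285528)) (a (l 15612584) (l 15233168)))))), by decide +kernel⟩

theorem s3_pp_012_b : ∃ t, chk3 f_pp_012_b t 3 1 1 = true := ex3_a k1_pp_012_b k2_pp_012_b

theorem s4_pp_012_b : ∃ t, chk3 f_pp_012_b t 1 1 1 = true := ex3_a k0_pp_012_b s3_pp_012_b

theorem c_pp_012_b : CertNX 0 536870912 1239849684 370763052 1046898278 26843546 3 false true true .pnp 0 1 2
    ndN0q0 ndN1q2b pcN1 Cut.none Ext.none :=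
  certNX2 (fam := false) (s1 := true) (s2 := true) (a := 0) (b := 1) (c := 2) (cn := .pnp) (n1 := ndN0q0) (n2 := ndN1q2b) (pc := pcN1) (cut := Cut.none) (xt := Ext.none) (P1 := 0) (W1 := 536870912) (P2 := 1239849684) (W2 := 370763052) (P3 := 1046898278) (W3 := 26843546) (N0 := 3)
    rfl (fun _ => rfl) s4_pp_012_b

noncomputable def f_pp_022_a : ℕ → ℕ → ℕ → ℕ → Bool := onCell 0 536870912 0 420477299 1046898278 26843546
    (rowNX 3 0 false true true .pp 0 2 2 (qsf 0 536870912 0 420477299 2) ndN0q0 ndN1q2a pcN2 Cut.none Ext.none)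

def k0_pp_022_a : ∃ t, chk3 f_pp_022_a t 8 2 2 = true :=
  ⟨(a (b (a (b (a (l 16008424) (a (l 16205496) (b (l 16312744) (l 16288576)))) (a (l 16091152) (a (b (l 16271832) (l 16222096)) (b (l 16348816) (l 16352632))))) (a (b (l 16339576) (l 16336976)) (c (l 16304704) (b (l 16327168) (l 16321936))))) (a (b (a (b (l 16029936) (a (l 16208120) (l 16353304))) (b (l 16347736) (l 16333656))) (b (a (b (l 16350384) (l 16346712)) (l 16308848)) (l 16299400))) (c (l 16136984) (a (l 16223080) (b (l 16293128) (l 16152456)))))) (b (a (c (c (l 16297904) (a (l 16311728) (b (l 16323696) (l 16313808)))) (c (a (l 16289056) (b (l 16234520) (a (l 16304208) (l 16255376)))) (a (b (l 16297256) (l 16247536)) (l 16254032)))) (c (a (c (b (l 16310272) (l 16298256)) (a (b (l 16292184) (l 16280560)) (l 16190144))) (c (a (b (l 16227880) (l 16214184)) (l 16163472)) (l 16199200))) (l 16209736))) (a (a (c (l 16176032) (c (b (l 16296928) (l 16237552)) (a (b (l 16295864) (l 16173560)) (b (l 16252384) (l 16191528))))) (c (c (l 16235832)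 (b (l 16280288) (l 16197856))) (c (a (b (l 16249920) (l 16146448)) (l 16083768)) (l 16183416)))) (c (a (c (b (l 16220712) (l 16136848)) (b (a (l 16182208) (l 16190096)) (a (l 16139648) (l 16125864)))) (c (b (c (l 16147016) (l 16167784)) (a (l 16053080) (l 16105904))) (l 16002344))) (b (l 16166008) (l 16106128)))))), by decide +kernel⟩

def k1_pp_022_a : ∃ t, chk3 f_pp_022_a t 16 2 6 = true :=
  ⟨(b (a (a (b (l 15995632) (l 16081312)) (b (a (l 16204760) (a (l 16316128) (b (l 16344936) (l 16337320)))) (a (b (l 16272984) (l 16161872)) (b (a (l 16342952) (l 16341776)) (l 16352616))))) (a (b (c (l 16356176) (l 16269760)) (c (l 16353360) (l 16208240))) (c (b (l 16317464) (l 16249152)) (l 16312024)))) (a (b (a (b (l 16023680) (a (l 16223960) (l 16350264))) (b (a (l 16358920) (l 16353856)) (l 16339984))) (a (b (b (l 16347008) (l 16343080)) (l 16317872)) (l 16276128))) (a (c (b (l 16326800) (l 16272016)) (b (a (l 16342904) (l 16323392)) (a (l 16246264) (l 16267112)))) (c (b (l 16135856) (a (l 16236584) (l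 16196088))) (l 16250576))))), by decide +kernel⟩

def k2_pp_022_a : ∃ t, chk3 f_pp_022_a t 16 2 7 = true :=
  ⟨(b (a (a (c (b (l 15992616) (a (l 16027464) (l 16171944))) (a (c (l 15893568) (b (l 15913928) (l 15938928))) (b (l 16010688) (a (l 16044376) (l 16209280))))) (b (a (c (c (l 16211728) (l 16211960)) (l 16203960)) (b (a (l 16298392) (l 16335432)) (a (l 16329880) (l 16327624)))) (a (c (b (l 16063040) (c (l 16149320) (a (l 16325384) (l 16344360)))) (b (l 16273800) (l 16310784))) (b (a (c (l 16294928) (l 16342456)) (l 16332072)) (l 16347864))))) (b (l 16329216) (l 16324848))) (a (b (a (a (c (b (l 16165952) (l 16221488)) (c (b (l 16165648) (l 16159088)) (a (l 16107856) (b (l 16197176) (l 16188664))))) (c (b (l 16113312) (a (l 16352968) (l 16364096))) (b (a (l 16268720) (l 16295336)) (a (b (c (l 16350904) (l 16351744)) (l 16359912)) (l 16365008))))) (a (c (b (c (l 16358120) (a (l 16350464) (l 16355344))) (l 16347248)) (b (l 16360384) (l 16348848))) (l 16345600))) (a (a (b (c (l 16347216) (c (l 16243256)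 (a (a (l 16263472) (l 16354400)) (l 16351584)))) (c (l 16327656) (c (l 16328344) (l 16326264)))) (c (l 16325040) (l 16253720))) (c (a (c (l 16312168) (l 16312720)) (l 16295848)) (l 16295368)))) (l 16203168))), by decide +kernel⟩

def k3_pp_022_a : ∃ t, chk3 f_pp_022_a t 17 2 3 = true :=
  ⟨(b (b (l 16230128) (l 16165864)) (b (l 16045048) (a (l 16163280) (l 16093680)))), by decide +kernel⟩

def k4_pp_022_a : ∃ t, chk3 f_pp_022_a t 9 2 1 = true :=
  ⟨(a (b (a (a (c (l 16126184) (l 16154776)) (b (l 16180144) (l 16170728))) (c (l 16223960) (l 16216336))) (a (c (b (a (l 16129016) (l 16152768)) (a (l 16079280) (l 16098728))) (b (l 16126896) (l 16071136))) (b (l 16232768) (c (l 16230264) (l 16216600))))) (b (a (b (l 16343296) (l 16364272)) (b (l 16178664) (c (l 16314568) (l 16304152)))) (b (a (l 16343728) (a (l 16387880) (l 16420528))) (a (c (l 16337944) (l 16329912)) (a (l 16414248) (l 16477216)))))), by decide +kernel⟩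

def k5_pp_022_a : ∃ t, chk3 f_pp_022_a t 5 2 1 = true :=
  ⟨(a (b (a (b (c (l 16037024) (l 16080872)) (c (l 154650936439) (l 16149728))) (l 1)) (a (b (c (a (l 16404144) (l 16381520)) (l 113312183175)) (a (b (l 16507024) (l 16494624)) (b (l 16463480) (l 1)))) (l 1))) (l 1)), by decide +kernel⟩

def k6_pp_022_a : ∃ t, chk3 f_pp_022_a t 16 6 1 = true :=
  ⟨(c (a (b (l 16234024) (l 16112704)) (a (b (l 16172136) (l 15982608)) (b (c (l 16131552) (l 16040968)) (c (l 16004576) (c (l 16018560) (a (l 16039656) (l 15930640))))))) (a (a (c (l 16084720) (c (b (l 16251328) (l 16125384)) (a (c (l 16092904) (b (a (l 16222184) (l 16250440)) (l 16026568))) (b (c (l 16195952) (l 16238368)) (l 15934560))))) (c (b (l 16148208) (c (l 16080408) (l 16086512))) (c (a (c (l 16056744) (a (l 16002112) (l 16031976))) (b (l 16207400) (l 16076768))) (l 16078224)))) (c (a (c (b (l 16183152) (l 16010872)) (b (c (l 16085112) (l 16180320)) (a (c (l 16074440) (l 16063720)) (l 15959712)))) (b (c (c (l 16099232) (l 16127800)) (l 16128632))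 (c (a (c (l 16049568) (l 15988200)) (c (l 15888376) (l 15988000))) (l 15994912)))) (b (l 16144384) (l 16009728))))), by decide +kernel⟩

def k7_pp_022_a : ∃ t, chk3 f_pp_022_a t 17 6 1 = true :=
  ⟨(c (a (c (b (a (l 16119000) (c (l 16115256) (l 16022000))) (a (l 15888584) (c (l 15991640) (a (l 16017168) (b (l 16037848) (l 15918040)))))) (b (a (c (l 16144440) (a (l 16101072) (l 16096504))) (c (a (l 16009912) (l 16064648)) (l 16058360))) (a (c (b (l 16052176) (l 15852312)) (a (c (l 16004832) (l 15969456)) (b (l 16003392) (l 15929072)))) (c (a (c (l 15982448) (l 15917856)) (c (l 15903912) (l 15926504))) (l 15930376))))) (c (c (b (a (b (l 16137912) (l 16089416)) (a (l 15931368) (l 16025640))) (a (b (l 15880216) (a (l 15966192) (c (l 15963080) (l 15925200)))) (a (c (l 15955280) (b (l 15946864) (l 15860152))) (c (b (l 15934736) (l 15845440)) (l 15872160))))) (b (a (a (c (l 16106696) (l 16058832)) (l 16042072)) (l 16015144)) (a (a (c (l 15980640) (l 15848152)) (b (l 15952256) (l 15826024))) (l 15875376))))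 (b (l 16019408) (l 15798296)))) (b (a (l 16066944) (l 16003792)) (a (b (l 15972368) (l 15893200)) (l 15861880)))), by decide +kernel⟩

def k8_pp_022_a : ∃ t, chk3 f_pp_022_a t 16 28 1 = true :=
  ⟨(c (a (b (l 16015176) (l 16006696)) (c (b (l 15924056) (l 15913656)) (a (b (l 15942728) (l 15933160)) (c (l 15911160) (a (l 15932080) (b (l 15932544) (l 15919952))))))) (a (c (a (l 16023696) (c (l 15974232) (a (l 15985776) (l 15968728)))) (a (c (l 16019648) (a (c (l 16028752) (a (l 16031672) (l 16016256))) (c (a (l 16009104) (l 16002328)) (l 16001632)))) (a (c (c (l 15989728) (l 15925488)) (l 15978056)) (b (l 15966144) (l 15914224))))) (c (a (c (b (l 15949448) (l 15876720)) (a (c (l 15965672) (b (l 15959048) (l 15949200))) (b (l 15938696) (l 15865744)))) (c (c (a (l 15857184) (b (l 15910400) (l 15897656))) (a (b (l 15926184) (l 15915128)) (l 15877584))) (l 15883808))) (l 15897528)))), by decide +kernel⟩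

def k9_pp_022_a : ∃ t, chk3 f_pp_022_a t 32 29 2 = true :=
  ⟨(a (b (b (l 16045416) (c (c (l 15979152) (l 16036920)) (b (l 16038472) (l 16017488)))) (c (c (l 15941040) (l 15977224)) (c (l 15971432) (l 15965608)))) (b (b (b (l 15987208) (b (l 15989952) (c (l 15994664) (l 15984400)))) (c (c (l 15980720) (l 15974920)) (c (l 15969088) (l 15964480)))) (c (c (l 15895216) (l 15930912)) (c (l 15924624) (l 15919560))))), by decide +kernel⟩

def k10_pp_022_a : ∃ t, chk3 f_pp_022_a t 66 29 2 = true :=
  ⟨(b (c (b (b (l 15938856) (c (l 15939456) (l 15935728))) (c (l 15922656) (l 15918736))) (b (b (l 15940560) (a (l 15945616) (l 15928568))) (c (l 15917288) (l 15925400)))) (c (b (c (l 15903168) (l 15899016)) (a (l 15895840) (a (l 15863112) (a (l 15858224) (b (l 15877984) (b (l 15855080) (l 15853816))))))) (a (c (l 15895536) (l 15895720)) (a (l 15888256) (b (l 15892064) (a (l 15882392) (c (l 15877736) (l 15886728)))))))), by decide +kernel⟩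

def k11_pp_022_a : ∃ t, chk3 f_pp_022_a t 67 29 2 = true :=
  ⟨(b (a (c (b (b (l 15904936) (l 15902800)) (l 15889136)) (b (c (l 15908168) (l 15929992)) (l 15906528))) (c (b (a (l 15890072) (b (b (l 15883856) (l 15884176)) (a (l 15881584) (c (a (l 15856496) (l 15854264)) (l 15878840))))) (a (b (a (l 15882832) (b (l 15880552) (l 15877336))) (a (b (l 15857128) (l 15875288)) (l 15872872))) (c (a (b (l 15874048) (l 15868176)) (l 15845952)) (l 15871280)))) (b (c (a (l 15902392) (b (l 15905832) (a (l 15900736) (l 15902792)))) (a (l 15932048) (b (c (l 15933784) (l 15919352)) (c (l 15929728) (a (l 15925352) (l 15908976)))))) (c (a (b (l 15892912) (a (l 15885736) (l 15886336))) (l 15892072)) (a (b (a (l 15924640) (l 15902344)) (a (l 15918240) (l 15917120))) (c (l 15919856) (l 15905336))))))) (c (a (b (a (c (b (l 15881936) (l 15877088)) (l 15880344)) (b (a (l 15856896) (b (l 15876096) (l 15873640))) (a (b (l 15874520) (l 15851384)) (l 15849120)))) (a (b (a (b (l 15855232) (a (l 15854352) (l 15852928))) (b (l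 15873416) (l 15871496))) (c (l 15849144) (l 15871168))) (c (l 15844208) (l 15866984)))) (c (b (c (l 15841296) (l 15842304)) (l 15835216)) (l 15861520))) (a (b (a (c (l 15882200) (l 15899112)) (b (a (l 15894608) (c (l 15880576) (l 15910480))) (a (l 15889992) (l 15891008)))) (a (b (a (l 15842744) (l 15885224)) (l 15882400)) (l 15885552))) (c (l 15878040) (c (l 15903200) (l 15855568)))))), by decide +kernel⟩

def k12_pp_022_a : ∃ t, chk3 f_pp_022_a t 32 29 3 = true :=
  ⟨(c (b (a (b (l 16030488) (c (l 16021312) (l 16016368))) (c (b (l 15977576) (l 15962976)) (b (a (l 15990376) (c (l 15973520) (l 15976032))) (a (l 15975536) (l 15954920))))) (a (c (l 15959744) (l 15954176)) (c (l 15917592) (a (l 15925576) (c (l 15916040) (l 15918232)))))) (a (c (b (b (l 16026392) (a (l 16027832) (l 16000096))) (a (l 15960992) (l 15940928))) (b (a (c (l 15943688) (b (l 16010960) (a (l 16008864) (l 16012384)))) (c (b (l 16008912) (a (l 16003240) (l 15994376))) (l 15998952))) (a (c (l 15958440) (a (l 15960128) (l 15946376)))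 (c (a (l 15941568) (l 15936992)) (l 15934768))))) (c (c (a (b (b (l 15994456) (l 15979168)) (l 15928960)) (b (b (l 15911672) (l 15957296)) (l 15811608))) (b (a (b (l 15993112) (l 15977720)) (l 15952640)) (a (c (l 15931360) (l 15925696)) (l 15902344)))) (b (b (l 15968864) (l 15953648)) (l 15906840))))), by decide +kernel⟩

def k13_pp_022_a : ∃ t, chk3 f_pp_022_a t 33 29 3 = true :=
  ⟨(c (c (a (a (b (b (l 15955400) (l 15938272)) (l 15906416)) (b (c (l 15941088) (b (l 15953480) (l 15936944))) (a (l 15906936) (b (l 15916064) (c (l 15908896) (b (l 15910760) (l 15834336))))))) (b (a (c (b (l 15938936) (l 15924248)) (b (a (l 15929864) (l 15897288)) (l 15883088))) (b (a (c (l 15910576) (l 15879352)) (b (l 15873920) (a (l 15873352) (l 15864264)))) (a (c (a (b (l 15905912) (l 15899448)) (b (l 15885280) (l 15879024))) (l 15866120)) (c (l 15863768) (l 15854664))))) (a (b (a (c (l 15922416) (a (l 15905352) (l 15887784))) (c (b (a (l 15919792) (l 15907432)) (l 15906496)) (b (l 15831736) (l 15868896)))) (a (c (b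 (l 15895192) (l 15912864)) (a (b (l 15899096) (l 15895800)) (l 15879704))) (c (l 15900728) (l 15863088)))) (c (a (l 15882616) (l 15850616)) (l 15846304))))) (a (b (a (c (b (l 15967520) (l 15950160)) (b (a (l 15967136) (l 15940880)) (l 15938688))) (c (b (a (l 15948736) (l 15918880)) (l 15920944)) (l 15908888))) (a (c (l 15918032) (a (l 15915032) (l 15893008))) (a (c (l 15905584) (l 15879160)) (a (l 15878752) (b (l 15877192) (l 15868392)))))) (b (a (l 15886400) (b (b (l 15869744) (l 15865856)) (a (l 15860928) (l 15849376)))) (a (b (a (l 15869576) (l 15860152)) (a (l 15861264) (l 15852144))) (l 15840912))))) (a (b (b (l 15857432) (l 15903560)) (b (l 15882584) (a (l 15876056) (a (l 15865528) (l 15858688))))) (b (a (b (l 15882672) (l 15867592)) (b (b (l 15859400) (a (l 15862000) (l 15849064))) (a (b (l 15854000) (l 15847392)) (l 15838728)))) (a (b (a (l 15859208) (b (l 15852384) (l 15847456))) (a (l 15850712) (l 15841456))) (l 15830056))))), by decide +kernel⟩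

def k14_pp_022_a : ∃ t, chk3 f_pp_022_a t 32 30 2 = true :=
  ⟨(b (c (c (a (l 15867488) (b (l 15910984) (l 15882112))) (a (l 15924080) (l 15899528))) (a (c (l 15917720) (l 15911312)) (c (l 15892872) (l 15887432)))) (a (c (c (b (l 15890328) (l 15887912)) (l 15902560)) (c (l 15895920) (l 15889240))) (a (c (b (l 15880520) (l 15907096)) (b (l 15888072) (l 15893704))) (b (c (b (l 15896792) (a (l 15900552) (a (l 15878920) (b (l 15876984) (l 15878224))))) (a (l 15885688) (b (l 15883856) (a (l 15887240) (l 15886672))))) (c (a (b (c (l 15887392) (l 15880728)) (a (b (l 15888752) (l 15891184)) (l 15887768))) (b (a (c (l 15885704) (l 15879080)) (l 15879216)) (l 15882920))) (a (b (l 15891816) (b (l 15895600) (l 15897608))) (c (l 15892656) (l 15888536)))))))), by decide +kernel⟩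

def k15_pp_022_a : ∃ t, chk3 f_pp_022_a t 32 31 2 = true :=
  ⟨(a (b (b (c (a (l 15887920) (l 15914712)) (l 15898424)) (a (c (l 15921224) (l 15908072)) (a (c (l 15929560) (l 15916512)) (c (b (c (l 15911760) (l 15905296)) (c (a (l 15942016) (l 15921104)) (l 15893408))) (b (l 15916440) (a (l 15925928) (l 15926072))))))) (c (a (b (b (l 15936456) (a (l 15945192) (a (l 15951776) (c (l 15958224) (l 15951992))))) (a (b (c (l 15962920) (l 15956720)) (a (b (l 15948904) (l 15977144)) (b (l 15972688) (l 15977472)))) (b (a (b (l 15962512) (l 15947056)) (l 15944104)) (l 15952928)))) (b (a (b (a (l 15945640) (b (l 15924448) (l 15928928))) (c (c (l 15938824) (l 15936264)) (l 15931544))) (c (l 15951800) (l 15946424))) (c (l 15968296) (l 15964512)))) (a (b (b (l 15923528) (a (l 15932400) (l 15940544))) (a (b (l 15947280) (a (l 15960816) (l 15962704))) (b (l 15952328) (l 15962016)))) (b (a (b (a (l 15932848) (l 15934584)) (l 15942984)) (l 15936800)) (l 15955096))))) (b (a (b (c (a (b (l 15915504) (a (l 15923104) (b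 (l 15901568) (l 15905248)))) (b (a (l 15917264) (b (l 15894888) (l 15897136))) (c (l 15893584) (l 15918784)))) (a (b (l 15902216) (l 15910216)) (b (a (l 15904000) (l 15903496)) (l 15908832)))) (c (b (a (a (b (l 15908968) (l 15912344)) (l 15908960)) (l 15905352)) (c (l 15915576) (l 15931312))) (b (a (l 15917448) (l 15913600)) (l 15921488)))) (c (c (b (l 15893456) (l 15902984)) (l 15914104)) (l 15905480))) (c (c (b (c (l 15920920) (l 15941688)) (l 15959024)) (b (l 15938936) (c (l 15959552) (l 15958224)))) (c (l 15943176) (l 15937952))))), by decide +kernel⟩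

def k16_pp_022_a : ∃ t, chk3 f_pp_022_a t 33 30 2 = true :=
  ⟨(a (b (a (b (c (l 15867152) (l 15881168)) (c (a (c (l 15872104) (l 15886296)) (b (a (l 15886152) (b (l 15862648) (l 15862664))) (a (b (l 15866056) (l 15866168)) (l 15862104)))) (a (c (l 15880504) (l 15879712)) (b (b (l 15879304) (l 15879504)) (l 15879504))))) (c (b (a (b (c (l 15861632) (l 15856792)) (a (c (l 15862640) (l 15856808)) (c (l 15858688) (l 15854336)))) (b (a (c (b (l 15856712) (l 15855672)) (l 15853656)) (l 15851720)) (l 15872568))) (c (c (l 15876608) (l 15853488)) (l 15852192))) (b (a (b (l 15879600) (a (l 15878664) (l 15878000))) (c (l 15873920) (l 15881848))) (l 15877648)))) (c (a (b (a (b (a (c (l 15876192) (l 15869432)) (b (l 15870000) (l 15891120))) (l 15893424)) (c (l 15867368) (l 15882288))) (c (l 15874216) (l 15890056))) (c (c (l 15857768) (l 15877832)) (c (l 15877376) (l 15877376)))) (a (b (b (a (a (l 15883400) (l 15882272)) (l 15879688)) (l 15882920)) (l 15886376)) (l 15840408)))) (c (a (b (c (c (l 15840896) (l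 15842168)) (l 15843896)) (c (l 15847296) (b (l 15848504) (l 15877808)))) (c (b (l 15832384) (l 15863032)) (b (c (l 15835432) (l 15837592)) (b (l 15865336) (l 15875544))))) (c (b (l 15873464) (a (l 15877952) (c (l 15880480) (l 15895616)))) (a (b (l 15889944) (l 15899216)) (c (l 15904760) (b (l 15893784) (l 15887528))))))), by decide +kernel⟩

def k17_pp_022_a : ∃ t, chk3 f_pp_022_a t 33 31 2 = true :=
  ⟨(c (b (a (c (a (c (l 15907616) (l 15907256)) (l 15875320)) (a (c (l 15905896) (l 15903664)) (c (l 15897912) (l 15899600)))) (c (b (l 15861056) (l 15877448)) (a (l 15898016) (l 15898496)))) (a (c (b (l 15904040) (l 15946312)) (a (b (l 15929600) (l 15951736)) (b (l 15926312) (l 15949904)))) (c (b (l 15898384) (l 15945016)) (b (l 15929632) (l 15956360))))) (c (c (a (b (l 15901608) (a (l 15940192) (l 15943536))) (b (a (l 15903024) (l 15911800)) (a (l 15948376) (l 15960160)))) (a (b (l 15901544) (l 15943112)) (b (a (l 15908008) (l 15928696)) (a (l 15955696) (l 15979480))))) (a (b (l 15909616) (a (l 15941088)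 (l 15953616))) (c (b (l 15932560) (a (l 15968816) (l 16001616))) (a (l 15960528) (b (a (l 15952304) (l 15941776)) (a (l 16006616) (c (l 16012456) (l 15987688))))))))), by decide +kernel⟩

def k18_pp_022_a : ∃ t, chk3 f_pp_022_a t 32 15 6 = true :=
  ⟨(b (a (b (c (l 15904872) (l 15898712)) (c (l 15882512) (l 15876064))) (b (c (l 15885080) (a (l 15887104) (c (l 15888784) (l 15890808)))) (a (c (l 15880864) (l 15881320)) (b (a (l 15889640) (c (l 15883824) (c (l 15893344) (b (l 15901672) (l 15904840))))) (a (b (c (l 15886552) (l 15895768)) (c (l 15891088) (l 15900328))) (c (l 15889720) (c (l 15899256) (l 15908768)))))))) (a (b (b (l 15885216) (a (l 15894744) (a (l 15903288) (b (l 15903624) (l 15912928))))) (a (b (b (l 15910424) (l 15902472)) (a (b (l 15934552) (l 15948776)) (b (l 15939648) (l 15949480)))) (b (a (b (l 15920344) (l 15930144)) (l 15924248)) (l 15942728)))) (b (a (b (a (b (l 15890920) (l 15899032)) (b (a (l 15895424) (l 15898576)) (l 15903056))) (c (l 15909344) (l 15888992))) (c (l 15902696)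 (c (l 15909072) (l 15911112)))) (c (l 15935824) (a (l 15934120) (c (l 15943472) (l 15924648))))))), by decide +kernel⟩

def k19_pp_022_a : ∃ t, chk3 f_pp_022_a t 32 15 14 = true :=
  ⟨(b (a (b (a (l 15899152) (l 15890632)) (a (l 15870472) (l 15873408))) (a (c (b (l 15890168) (l 15884280)) (b (c (l 15892400) (l 15886624)) (a (l 15884504) (l 15885256)))) (b (c (c (l 15893672) (l 15886032)) (l 15874584)) (b (c (a (l 15893040) (a (l 15890744) (l 15880104))) (l 15874720)) (a (c (b (l 15857312) (a (l 15906344) (l 15903328))) (l 15882736)) (c (a (l 15897400) (l 15885024)) (l 15880824))))))) (a (b (a (l 15877360) (a (l 15887040) (b (l 15888288) (a (l 15906216) (b (l 15903024) (l 15911616)))))) (a (b (l 15906792) (a (l 15931264) (l 15934848))) (a (b (b (l 15913824) (l 15923728)) (l 15936928)) (l 15931400)))) (a (b (a (c (b (l 15897976) (l 15912560)) (b (c (l 15903880) (l 15897896)) (c (l 15918504) (l 15912544)))) (c (b (a (l 15906840) (l 15912640)) (l 15912800)) (b (a (b (l 15899728) (l 15905936)) (l 15895160))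 (l 15912576)))) (c (l 15937312) (c (l 15939616) (l 15933880)))) (c (b (c (l 15913984) (l 15906344)) (c (l 15948576) (l 15941000))) (l 15910632))))), by decide +kernel⟩

def k20_pp_022_a : ∃ t, chk3 f_pp_022_a t 32 15 15 = true :=
  ⟨(b (a (a (b (c (l 15896112) (a (l 15810640) (l 15886656))) (c (l 15867176) (a (c (l 15864448) (l 15862064)) (l 15860464)))) (c (a (c (l 15878584) (l 15877600)) (b (l 15889168) (l 15874632))) (l 15871088))) (b (l 15873176) (a (l 15870936) (b (l 15869544) (a (l 15877592) (l 15875672)))))) (a (b (a (c (l 15874048) (a (c (l 15868424) (l 15866032)) (l 15870216))) (a (c (c (l 15887856) (l 15886864)) (l 15881152)) (b (l 15883440) (b (l 15897264) (c (l 15889160) (l 15902496)))))) (a (c (b (l 15903640) (a (l 15926496) (l 15932720))) (a (b (c (l 15896344) (l 15894000)) (c (l 15924984) (a (l 15900360) (l 15924264)))) (b (a (l 15900768) (l 15909952)) (a (c (l 15930016) (l 15929096)) (l 15932328))))) (a (c (b (c (l 15918944) (b (l 15913816) (l 15923776))) (c (l 15937952) (l 15937048)))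 (b (l 15912384) (l 15931472))) (l 15926832)))) (b (a (b (a (l 15886088) (l 15887984)) (l 15899888)) (l 15889776)) (l 15924560)))), by decide +kernel⟩

def k21_pp_022_a : ∃ t, chk3 f_pp_022_a t 33 30 3 = true :=
  ⟨(c (a (c (b (a (b (l 15891312) (a (l 15885232) (b (l 15892744) (l 15893008)))) (a (b (a (l 15900208) (b (l 15905872) (l 15904488))) (l 15895424)) (b (c (l 15904152) (a (l 15911120) (l 15902384))) (l 15899984)))) (a (b (a (b (l 15887696) (l 15889088)) (l 15893576)) (l 15896400)) (c (l 15901640) (l 15906640)))) (c (b (a (b (l 15902784) (a (l 15904024) (b (l 15905384) (l 15905632)))) (b (a (a (l 15878856) (b (l 15892664) (l 15891256))) (l 15871664)) (a (l 15893912) (l 15869592)))) (a (a (b (l 15906784) (l 15910792)) (l 15907952)) (c (l 15895616) (l 15876840)))) (b (a (b (l 15891024) (a (l 15812024) (b (l 15879176) (l 15879416)))) (b (a (l 15869104) (l 15862488)) (l 15863864))) (a (a (b (c (l 15884760) (l 15887072)) (l 15902672)) (l 15881720)) (l 15868512))))) (c (c (a (b (l 15898432) (l 15907712))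 (c (a (l 15888576) (l 15857800)) (b (l 15850784) (l 15865528)))) (a (c (a (l 15895688) (l 15865712)) (l 15864080)) (l 15847696))) (b (l 15844200) (l 15856256)))) (a (b (a (b (l 15867648) (a (l 15868056) (b (l 15864784) (l 15865000)))) (b (a (b (l 15861472) (l 15860168)) (l 15853704)) (l 15855048))) (a (b (c (l 15871432) (l 15864432)) (l 15872544)) (l 15859672))) (b (l 15833248) (l 15845344)))), by decide +kernel⟩

def k22_pp_022_a : ∃ t, chk3 f_pp_022_a t 33 31 3 = true :=
  ⟨(c (a (c (c (b (l 15916608) (l 15959128)) (a (l 15934248) (b (l 15930416) (l 15933896)))) (c (a (b (l 15923504) (l 15963536)) (a (c (l 15948096) (l 15925120)) (b (l 15900520) (l 15947480)))) (a (b (a (l 15917344) (l 15901400)) (c (l 15936056) (l 15941904))) (l 15913680)))) (c (c (a (b (l 15915928) (a (l 15993424) (l 15989752))) (c (a (l 15956384) (b (l 15903888) (l 15961200))) (b (l 15900152) (l 15956248)))) (a (a (c (l 15952832) (l 15885200)) (b (l 15900128) (l 15952360))) (l 15918480))) (b (l 15888416) (l 15942288)))) (b (c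 (l 15885136) (l 15878144)) (c (l 15933904) (l 15927264)))), by decide +kernel⟩

def k23_pp_022_a : ∃ t, chk3 f_pp_022_a t 34 14 4 = true :=
  ⟨(b (b (c (l 15882720) (a (l 15897368) (a (l 15909072) (c (l 15907560) (l 15879896))))) (a (l 15875504) (c (a (l 15859552) (b (l 15869696) (l 15869832))) (a (l 15891808) (c (a (l 15894104) (b (l 15888232) (l 15888248))) (a (l 15880968) (l 15843584))))))) (a (b (b (a (b (b (l 15877440) (c (a (b (l 15853656) (l 15852976)) (l 15844448)) (l 15881712))) (c (l 15844184) (l 15877104))) (c (c (l 15830512) (l 15859768)) (l 15884008))) (c (a (l 15856808) (l 15847472)) (a (l 15868872) (l 15874936)))) (c (a (c (l 15845480) (l 15826000)) (l 15819088)) (a (c (l 15851984) (l 15863600)) (c (l 15859312) (l 15878072))))) (c (b (b (l 15862744) (l 15856104)) (l 15853472)) (b (a (c (l 15860688) (a (l 15897304) (c (l 15898024) (l 15897088)))) (c (a (l 15868440) (l 15883776)) (a (c (l 15890304) (l 15866376)) (l 15839848)))) (a (c (l 15874272) (a (l 15889608) (c (l 15892440) (l 15891912))))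 (c (a (l 15885400) (l 15882024)) (a (l 15873352) (l 15838872)))))))), by decide +kernel⟩

def k24_pp_022_a : ∃ t, chk3 f_pp_022_a t 34 14 5 = true :=
  ⟨(a (a (b (c (l 15916920) (c (b (l 15921640) (l 15907360)) (b (l 15885688) (l 15871304)))) (c (b (b (a (b (l 15910600) (l 15906256)) (l 15912832)) (l 15899504)) (l 15889664)) (b (a (a (b (b (c (l 15932952) (l 15893352)) (l 15908848)) (l 15836720)) (c (l 15918616) (l 15868880))) (c (l 15894976) (l 15850504))) (c (l 15887280) (l 15851048))))) (b (b (c (l 15890200) (l 15860616)) (c (c (l 15909296) (l 15892472)) (l 15823600))) (c (b (c (l 15905080) (a (l 15906040) (l 15877016))) (c (l 15893976) (l 15856048))) (c (b (a (l 15858856) (l 15830688)) (l 15794312)) (l 15822832))))) (b (b (c (a (c (l 15894432) (l 15850208)) (l 15762600)) (l 15817808)) (c (a (c (l 15876992) (l 15832656)) (c (a (l 15824760) (l 15796640)) (l 15792984))) (l 15798416))) (c (a (c (b (a (l 15891592) (l 15858696)) (a (c (l 15896232) (l 15877712)) (l 15853880))) (b (a (l 15839304) (l 15811576))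 (c (l 15828664) (l 15810400)))) (c (b (a (c (l 15832176) (l 15805936)) (c (l 15796712) (l 15786744))) (c (a (l 15829656) (l 15796424)) (a (l 15803744) (l 15786880)))) (b (l 15789496) (l 15788600)))) (b (l 15795016) (l 15791456))))), by decide +kernel⟩

def k25_pp_022_a : ∃ t, chk3 f_pp_022_a t 34 14 3 = true :=
  ⟨(b (b (l 15821560) (a (l 15827416) (b (l 15779632) (c (l 15787600) (l 15772144))))) (b (a (a (a (b (c (b (l 15854824) (l 15850368)) (l 15838848)) (l 15834248)) (c (l 15836024) (l 15821496))) (c (l 15818192) (l 15803272))) (c (c (l 15787280) (l 15779488)) (l 15767792))) (c (c (l 15801232) (l 15793536)) (c (l 15785792) (l 15777992))))), by decide +kernel⟩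

def k26_pp_022_a : ∃ t, chk3 f_pp_022_a t 35 28 4 = true :=
  ⟨(b (c (a (a (c (l 15891864) (l 15897784)) (c (l 15866400) (l 15849072))) (c (a (l 15832840) (a (l 15775464) (l 15749464))) (a (a (l 15792136) (l 15765952)) (l 15745208)))) (a (a (c (l 15864768) (l 15815528)) (c (l 15777520) (l 15778576))) (l 15749336))) (a (c (a (c (l 15849784) (a (l 15863936) (c (l 15862776) (l 15871776)))) (c (b (l 15845144) (a (l 15854296) (c (l 15851376) (l 15855008)))) (b (l 15827688) (l 15826040)))) (a (c (b (l 15844440) (l 15843592)) (b (l 15795080) (b (l 15794864) (a (l 15805544) (l 15777880))))) (c (b (l 15776984) (a (l 15786376) (l 15738088))) (l 15734432)))) (c (a (c (b (l 15810424) (l 15808192)) (b (a (l 15769872) (l 15743112)) (a (c (l 15779384) (l 15753544)) (c (l 15723496) (l 15734464))))) (c (b (a (l 15752184) (l 15704640)) (c (a (l 15761200) (l 15705696)) (a (l 15714536) (l 15716680)))) (l 15698432))) (b (l 15726008) (l 15723584))))), by decide +kernel⟩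

def k27_pp_022_a : ∃ t, chk3 f_pp_022_a t 35 29 4 = true :=
  ⟨(c (c (a (a (b (l 15866096) (l 15866720)) (b (a (l 15850552) (c (l 15848400) (l 15852248))) (a (l 15854264) (c (l 15853960) (l 15858192))))) (a (b (l 15806832) (l 15815624)) (b (c (a (l 15761360) (l 15707048)) (a (l 15714928) (l 15718280))) (a (c (l 15772968) (l 15747888)) (c (b (l 15715904) (a (l 15730800) (l 15719688))) (l 15711424)))))) (a (a (c (b (l 15856736) (l 15857928)) (a (l 15861936) (a (l 15876600) (l 15860496)))) (b (l 15823176) (l 15828680))) (a (a (c (l 15780400) (b (l 15731224) (l 15760952))) (c (b (l 15722992) (l 15754344)) (l 15717008))) (b (l 15720296) (l 15712944))))) (a (c (a (b (l 15839480) (l 15820664)) (b (c (l 15737144) (l 15761312)) (c (l 15764208) (l 15767800)))) (a (b (c (l 15796720) (a (l 15786920) (l 15768136))) (c (l 15799464) (l 15781984))) (l 15734192))) (b (l 15724488) (l 15737280)))), by decide +kernel⟩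

def k28_pp_022_a : ∃ t, chk3 f_pp_022_a t 35 14 5 = true :=
  ⟨(b (b (l 15758080) (b (l 15735520) (b (l 15734368) (a (c (a (l 15772248) (l 15749232)) (l 15752552)) (c (l 15715192) (l 15706664)))))) (c (b (a (c (b (l 15760760) (l 15760208)) (a (l 15766888) (l 15745856))) (l 15717032)) (a (c (l 15765936) (l 15762976)) (l 15731464))) (b (a (c (l 15752320) (l 15748280)) (c (l 15711288) (l 15707280))) (a (c (l 15738736) (l 15756144)) (c (l 15727064) (l 15723968)))))), by decide +kernel⟩

def k29_pp_022_a : ∃ t, chk3 f_pp_022_a t 35 14 3 = true :=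
  ⟨(b (b (l 15733768) (b (l 15710416) (a (c (l 15740120) (l 15723616)) (c (l 15693632) (l 15676096))))) (c (c (b (a (l 15742096) (l 15700968)) (a (l 15750200) (c (l 15720552) (l 15716808)))) (b (l 15712688) (l 15725920))) (b (c (l 15704120) (l 15695496)) (c (l 15717408) (l 15708824))))), by decide +kernel⟩

def k30_pp_022_a : ∃ t, chk3 f_pp_022_a t 34 15 4 = true :=
  ⟨(b (c (a (b (c (l 15819136) (l 15826280)) (a (l 15837632) (l 15860984))) (b (c (l 15852808) (l 15872192)) (c (l 15876880) (l 15897152)))) (a (b (a (c (l 15831120) (l 15864640)) (l 15873304)) (c (l 15876080) (l 15892768))) (a (c (l 15892568) (b (l 15897488) (l 15901176))) (a (c (l 15908448) (b (l 15885552) (l 15913368))) (c (b (l 15895496) (c (l 15929608) (l 15924504))) (l 15866344)))))) (c (a (b (c (l 15887944) (l 15896888)) (a (l 15937688) (b (l 15933360) (c (l 15956768) (l 15969600))))) (b (a (l 15914472) (b (l 15929256) (c (l 15945440) (l 15966408)))) (b (a (c (l 15944872) (l 15966112)) (c (l 15978816) (l 15999248))) (a (c (a (l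 15970904) (l 15989264)) (l 16001136)) (l 16029384))))) (a (b (a (l 15908184) (l 15930080)) (a (l 15916848) (l 15984928))) (b (a (c (l 15946664) (c (l 15963128) (l 15967536))) (c (a (l 15967232) (c (l 15974992) (l 15970376))) (c (l 15914784) (l 15931096)))) (a (c (l 15984648) (c (l 16022472) (a (l 16026056) (l 16031784)))) (c (c (b (l 16014408) (l 16054016)) (a (l 16035896) (b (l 16017336) (l 16058184)))) (c (a (b (l 16015600) (l 16052736)) (l 16012696)) (l 15933544)))))))), by decide +kernel⟩

def k31_pp_022_a : ∃ t, chk3 f_pp_022_a t 34 15 5 = true :=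
  ⟨(b (c (a (a (b (c (l 15882792) (l 15900392)) (c (l 15901128) (l 15919920))) (c (b (c (l 15898192) (l 15883376)) (l 15901360)) (b (a (l 15899288) (l 15875352)) (a (c (l 15931288) (l 15918920)) (l 15899968))))) (c (c (a (b (l 15870208) (l 15916536)) (b (l 15828280) (l 15857832))) (a (b (l 15867880) (l 15893848)) (b (l 15811128) (l 15841136)))) (a (b (c (a (l 15854336) (l 15823088)) (a (l 15828248) (l 15813584))) (c (l 15866720) (l 15849856))) (b (l 15804144) (l 15835008))))) (a (c (a (b (l 15868016) (a (l 15921464) (l 15904232))) (b (c (l 15849688) (l 15831312)) (c (a (l 15887712) (l 15858696)) (l 15856472)))) (a (b (l 15852720) (c (l 15879232) (l 15860776))) (l 15833536))) (b (c (l 15807624) (l 15804272)) (c (l 15838272) (l 15836152))))) (a (c (a (b (c (l 15935776) (l 15914640)) (l 15956960)) (c (b (l 15960560) (l 16016992)) (b (a (l 15961048) (l 15940560)) (a (l 15954576) (l 15999128))))) (c (c (a (b (a (l 15965552) (l 15959376)) (l 16014816)) (b (l 15832008) (l 15974344))) (a (b (a (l 15958616)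 (l 15930320)) (l 15958072)) (b (a (l 15903208) (l 15892440)) (l 15958480)))) (a (b (c (l 15918840) (l 15900608)) (c (a (l 15988496) (l 15963120)) (a (l 15963024) (l 15954760)))) (b (l 15892160) (l 15953744))))) (c (a (c (b (a (l 15959808) (l 15935360)) (a (c (l 16030088) (l 16013920)) (l 15997032))) (b (c (l 15909872) (l 15893576)) (c (a (l 15982648) (l 15957312)) (l 15934592)))) (c (b (c (l 15883192) (l 15887976)) (a (c (l 15979976) (l 15956056)) (c (b (l 15936480) (l 15975624)) (l 15947944)))) (b (l 15882608) (l 15948688)))) (b (c (l 15885400) (l 15885144)) (l 15950912))))), by decide +kernel⟩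

def k32_pp_022_a : ∃ t, chk3 f_pp_022_a t 35 30 2 = true :=
  ⟨(c (a (c (b (a (c (l 15881632) (a (l 15874312) (c (l 15877328) (l 15887320)))) (c (a (l 15872240) (c (l 15873752) (l 15878408))) (l 15848520))) (a (c (l 15912048) (a (l 15925424) (c (l 15930264) (l 15919736)))) (c (a (b (l 15895728) (a (l 15917144) (l 15920384))) (c (b (l 15920336) (l 15923824)) (b (l 15903960) (l 15928088)))) (b (l 15852528) (a (l 15913000) (l 15879960)))))) (a (c (b (l 15837248) (c (l 15905720) (l 15876696))) (b (c (l 15816680) (l 15799624)) (c (l 15807512) (l 15832864)))) (c (c (a (l 15772288) (b (l 15789224) (b (l 15815352) (a (l 15841792) (l 15832536))))) (b (l 15788704) (a (l 15829920) (l 15817872)))) (b (l 15781880) (l 15819024))))) (c (a (c (b (b (l 15831544) (a (l 15865624) (l 15829592))) (b (l 15869032) (l 15896128))) (b (a (c (l 15808848) (l 15784048)) (c (b (l 15750424) (a (l 15791744) (l 15760560))) (l 15749264))) (a (c (l 15849560) (b (a (l 15815432) (l 15784712)) (l 15837904))) (c (a (l 15826832) (l 15818144))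 (l 15793472))))) (b (c (a (c (l 15800776) (b (a (l 15749608) (l 15738936)) (l 15785464))) (c (a (l 15776560) (l 15745776)) (l 15742416))) (b (l 15733088) (l 15752552))) (c (a (c (l 15848928) (a (l 15826808) (l 15818216))) (c (a (l 15826912) (b (l 15782600) (a (l 15814032) (l 15811648)))) (l 15814608))) (l 15812944)))) (b (a (l 15770536) (b (l 15729128) (l 15748496))) (a (b (l 15779248) (l 15826600)) (b (l 15773016) (l 15824192)))))) (a (c (b (l 15785296) (l 15821768)) (b (c (l 15782296) (l 15779784)) (l 15819800))) (b (c (c (l 15761552) (l 15759424)) (l 15756376)) (b (c (a (l 15796848) (l 15789048)) (l 15789760)) (c (a (l 15822952) (l 15818808)) (l 15775960)))))), by decide +kernel⟩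

def k33_pp_022_a : ∃ t, chk3 f_pp_022_a t 70 31 4 = true :=
  ⟨(c (b (a (c (b (l 15947064) (l 15978312)) (a (b (l 15958856) (l 15988360)) (c (b (l 15966096) (l 15998496)) (b (l 15955408) (l 15987360))))) (c (a (c (l 15982064) (l 15986984)) (c (l 15992424) (l 15975864))) (a (b (l 15940720) (l 15975208)) (l 15927552)))) (a (c (b (l 16016224) (l 16060096)) (a (l 16046424) (c (l 16059304) (l 16048344)))) (c (b (a (l 16041512) (a (c (l 16053280) (l 16042712)) (c (b (l 16022584) (c (l 16050368) (l 16064792))) (l 16029928)))) (a (c (b (l 16073856) (l 16099736)) (a (l 16090584) (b (l 16082296) (l 16108552)))) (c (a (l 16103000) (l 16106816)) (b (l 16072584) (l 16100440))))) (b (a (l 16015520) (l 15987968)) (b (a (l 16049544) (l 16024152)) (a (a (c (l 16096104) (l 16066136)) (l 16069728)) (l 16051640))))))) (a (c (b (a (c (b (l 15956120) (l 15984968)) (l 15943216)) (l 15863000)) (c (b (l 16008256) (l 16052576)) (l 16000632))) (b (a (c (l 15910952) (l 15886744)) (c (b (l 15869952) (l 15900640)) (l 15876584)))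 (a (c (l 15982336) (b (l 15936400) (l 15979280))) (c (b (l 15938856) (l 15984200)) (l 15952168))))) (b (c (a (c (l 15909520) (b (l 15868104) (l 15901976))) (c (b (l 15868392) (l 15904656)) (l 15876800))) (b (l 15837896) (l 15872272))) (c (b (c (a (l 15967648) (l 15946536)) (a (l 15942656) (l 15937528))) (a (c (l 16014272) (a (l 15990808) (c (l 15986584) (l 15982088)))) (c (b (a (l 15983528) (l 15978280)) (a (l 16010176) (l 16006288))) (b (l 15952240) (l 15979224))))) (b (l 15934520) (a (l 15979888) (b (l 15950656) (l 15998312)))))))), by decide +kernel⟩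

def k34_pp_022_a : ∃ t, chk3 f_pp_022_a t 71 31 4 = true :=
  ⟨(c (b (a (c (b (l 15928544) (a (l 15981376) (b (l 15941688) (l 15963440)))) (a (c (l 15913144) (c (l 15891072) (l 15882512))) (b (c (l 15871672) (l 15862432)) (c (b (c (l 15903112) (l 15873592)) (a (l 15923216) (l 15896216))) (l 15901600))))) (c (b (a (c (b (l 15889320) (l 15908416)) (b (l 15843376) (a (l 15885360) (a (l 15857584) (l 15855824))))) (c (b (a (c (l 15853608) (l 15841024)) (l 15841256)) (l 15866952)) (b (l 15836496) (l 15878224)))) (a (c (l 15941456) (a (a (l 15919056) (l 15914640)) (l 15912032))) (c (l 15922912) (l 15913256)))) (b (a (l 15842768) (b (l 15834160) (l 15854664))) (a (b (l 15873264) (l 15917520)) (l 15910552))))) (a (c (b (a (b (a (l 16020376) (l 16007008)) (l 16038440)) (l 16000536)) (l 16068112)) (b (a (c (b (l 15964480) (l 15988912)) (b (a (l 15941160) (l 15934880)) (a (l 15964704) (l 15938736)))) (c (a (l 15959560) (l 15954920)) (l 15949008))) (c (a (l 16030312) (l 16035696)) (a (l 16004928) (l 16005208)))))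 (c (c (a (l 16020400) (b (c (l 15978320) (l 15969632)) (c (l 16037472) (l 16028848)))) (a (b (l 15966872) (c (l 16027592) (l 16018928))) (l 15994848))) (l 15988584)))) (b (a (b (l 15837944) (b (l 15887216) (l 15887032))) (b (b (l 15829560) (a (l 15869224) (c (l 15851352) (l 15848256)))) (b (a (l 15868928) (l 15872208)) (c (l 15895880) (l 15913584))))) (a (b (a (b (l 15907648) (c (l 15932712) (l 15930160))) (b (c (l 15912816) (l 15909968)) (l 15937232))) (b (a (l 15978832) (l 15986328)) (l 16011984))) (b (l 15954704) (l 16013744))))), by decide +kernel⟩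

def k35_pp_022_a : ∃ t, chk3 f_pp_022_a t 35 31 5 = true :=
  ⟨(a (b (c (a (l 15877544) (b (l 15857584) (l 15891432))) (b (l 15859616) (l 15891944))) (c (b (a (l 15929080) (l 15931824)) (a (l 15971944) (a (l 15977280) (b (l 15968752) (l 15995040))))) (b (a (l 15929424) (l 15929840)) (a (l 15971416) (l 15977160))))) (b (a (c (b (l 15854712) (l 15892768)) (b (l 15852032) (l 15889424))) (b (c (l 15854648) (l 15850000)) (b (c (a (l 15884592) (l 15886880)) (l 15880592)) (c (a (l 15906936) (l 15910888)) (l 15903560))))) (b (a (c (a (l 15935944) (b (l 15927248) (l 15952384))) (b (l 15921592) (l 15945696))) (c (a (b (l 15931504) (l 15958440)) (l 15951248)) (a (b (l 15926032) (l 15952408)) (l 15923760)))) (a (c (a (b (l 15973560) (l 16001736)) (l 15994896)) (a (b (l 15969216) (l 15996768)) (b (l 15974432) (l 16003904)))) (c (l 16007376) (l 16001008)))))), by decide +kernel⟩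

def k36_pp_022_a : ∃ t, chk3 f_pp_022_a t 17 15 3 = true :=
  ⟨(b (c (a (b (c (l 15810872) (l 15803184)) (c (a (l 15846664) (l 15831544)) (l 15831456))) (b (c (a (c (l 15776776) (l 15773280)) (c (l 15753224) (l 15750600))) (a (l 15767272) (l 15703544))) (c (a (c (l 15817784) (l 15815584)) (b (l 15787096) (l 15815608))) (a (l 15810824) (c (l 15798744) (l 15796472)))))) (a (b (c (l 15795440) (l 15787648)) (c (l 15823896) (l 15816272))) (b (c (l 15748040) (l 15739656)) (c (a (l 15803248) (l 15791560)) (l 15789288))))) (a (c (b (c (a (l 15889224) (b (l 15868440) (l 15898672))) (a (l 15882184) (l 15877576))) (c (a (b (l 15934312) (l 15970488)) (b (l 15933440) (l 15972784))) (a (l 15946736) (b (l 15930808) (l 15972424))))) (b (c (l 15872480) (l 15865216)) (c (l 15942800) (l 15936088)))) (c (b (a (c (c (l 15875328) (l 15875056)) (b (l 15855656) (l 15891184))) (c (b (l 15849120) (a (l 15887808) (c (l 15888912) (l 15886904)))) (a (l 15868384) (l 15865432)))) (a (c (b (l 15930528) (a (l 15972984) (l 15975488)))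 (b (l 15931264) (a (l 15975768) (l 15976648)))) (a (b (c (l 15931088) (l 15930616)) (c (a (l 15979744) (b (l 15969872) (l 15998712))) (b (l 15966608) (l 15993728)))) (b (c (a (l 15934408) (b (l 15924992) (l 15952616))) (a (l 15931512) (b (l 15920896) (l 15947296)))) (b (c (l 15958344) (a (l 15970904) (l 15976784))) (c (l 16010760) (l 16005104))))))) (b (c (a (l 15867312) (b (l 15844256) (c (l 15885560) (l 15884672)))) (l 15817008)) (a (c (b (l 15928608) (l 15975608)) (l 15946368)) (c (a (b (l 15930712) (l 15980224)) (b (l 15932064) (a (b (l 15969144) (l 15997488)) (b (l 15972440) (l 16003328))))) (b (l 15927736) (a (l 15978616) (c (a (l 15982808) (l 15964848)) (l 15962168)))))))))), by decide +kernel⟩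

def k37_pp_022_a : ∃ t, chk3 f_pp_022_a t 9 6 1 = true :=
  ⟨(a (a (c (b (a (l 15990392) (l 15998120)) (a (b (l 15884136) (l 15788528)) (b (l 15882976) (l 15781400)))) (b (l 15971800) (a (l 15808368) (b (l 15855096) (l 15749152))))) (b (c (l 16112744) (l 16093584)) (c (b (l 15984784) (l 15874632)) (b (l 15959968) (l 15845128))))) (b (a (c (l 16220024) (l 16226528)) (c (l 16236368) (l 16246592))) (a (c (b (l 16117832) (l 15912976)) (b (l 16097048) (l 15971000))) (c (b (l 16223896) (l 508448698055)) (b (l 16206200) (l 488584425463)))))), by decide +kernel⟩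

def k38_pp_022_a : ∃ t, chk3 f_pp_022_a t 36 28 2 = true :=
  ⟨(b (a (c (l 15712016) (l 15694784)) (c (l 15700528) (l 15682760))) (b (a (c (l 15686544) (l 15668728)) (c (l 15651872) (l 15654464))) (a (c (c (c (l 15669880) (l 15665480)) (l 15658848)) (c (l 15670944) (l 15662008))) (c (a (c (b (c (a (a (l 15666072) (l 15660800)) (l 15666760)) (a (l 15658864) (l 15662168))) (c (a (a (l 15667256) (l 15662288)) (l 15668736)) (a (l 15660288) (l 15664208)))) (a (l 15653008) (l 15635616))) (c (l 15667552) (c (l 15660824) (l 15656336)))) (a (l 15620184) (c (l 15670600) (l 15661656))))))), by decide +kernel⟩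

def k39_pp_022_a : ∃ t, chk3 f_pp_022_a t 36 29 2 = true :=
  ⟨(a (c (b (c (b (b (c (l 15670968) (l 15687768)) (a (l 15701712) (l 15661760))) (a (l 15684984) (c (a (b (l 15692728) (l 15697120)) (l 15686696)) (l 15665800)))) (c (b (l 15684776) (l 15670648)) (l 15683888))) (c (c (b (a (l 15695648) (l 15702472)) (l 15703152)) (a (b (l 15692112) (l 15705232)) (l 15685144))) (a (b (l 15687096) (l 15700392)) (b (l 15671872) (l 15688048))))) (b (c (l 15678040) (l 15670224)) (c (a (l 15687072) (b (l 15664728) (l 15702016))) (l 15694416)))) (c (b (a (c (a (c (b (l 15669312) (l 15678896)) (l 15648360)) (l 15656080)) (a (b (l 15637576) (l 15647384)) (b (l 15642352) (l 15653488)))) (c (b (l 15696896) (c (l 15690920) (l 15707704))) (b (l 15667256) (l 15701416)))) (a (b (c (l 15673384) (l 15665136)) (c (a (l 15708768) (b (l 15691376) (c (l 15704448) (l 15700376)))) (l 15684336))) (b (b (c (a (l 15712752) (c (l 15712888) (l 15708728))) (l 15693112)) (c (a (a (l 15717176) (l 15706056)) (b (l 15718432) (l 15723952)))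 (a (l 15714048) (l 15712904)))) (c (a (b (c (l 15713904) (l 15709752)) (l 15724032)) (l 15739408)) (a (b (l 15703720) (c (l 15717720) (l 15713656))) (b (l 15724544) (l 15737664))))))) (b (a (c (a (l 15633920) (l 15660168)) (l 15649488)) (c (b (l 15679712) (l 15693120)) (b (l 15671392) (l 15685184)))) (a (c (a (b (l 15653528) (l 15672040)) (l 15691368)) (a (l 15676280) (l 15683944))) (b (c (l 15710808) (l 15703016)) (c (a (l 15722664) (b (l 15737400) (l 15750376))) (b (l 15719280) (l 15731784)))))))), by decide +kernel⟩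

def k40_pp_022_a : ∃ t, chk3 f_pp_022_a t 37 28 2 = true :=
  ⟨(b (c (l 15786704) (l 15770184)) (b (b (l 15749088) (a (b (l 15717960) (c (c (a (l 15715440) (a (l 15736808) (l 15730272))) (l 15721136)) (c (a (l 15676656) (l 15726736)) (l 15703448)))) (c (a (b (a (l 15761936) (a (l 15772360) (l 15779328))) (c (l 15752376) (a (l 15736376) (l 15772280)))) (l 15777408)) (a (c (a (l 15748992) (c (l 15744768) (l 15740528))) (l 15747896)) (c (l 15785952) (a (l 15769976) (l 15784968))))))) (a (c (a (l 15693752) (a (b (l 15714136) (a (l 15715912) (c (l 15728168) (l 15740640)))) (c (b (c (l 15735944) (l 15731680)) (l 15740280)) (b (l 15725272) (c (l 15733904) (l 15729672)))))) (c (a (l 15701592) (l 15732920)) (a (l 15692848) (l 15724352)))) (c (c (l 15797816) (a (a (b (l 15740848) (l 15748136)) (l 15781440)) (l 15805824))) (a (c (a (b (l 15732368) (l 15760688)) (l 15773064)) (a (l 15748448) (b (l 15760712) (l 15768896)))) (c (l 15797624) (l 15789368))))))), by decide +kernel⟩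

def k41_pp_022_a : ∃ t, chk3 f_pp_022_a t 37 29 2 = true :=
  ⟨(c (a (b (a (b (c (a (l 15721904) (b (l 15714312) (c (l 15723536) (l 15719312)))) (l 15721840)) (c (a (b (a (l 15749176) (l 15716152)) (c (l 15722464) (l 15718248))) (b (l 15729768) (l 15760344))) (a (l 15707616) (b (l 15721368) (l 15730920))))) (b (c (a (b (b (l 15729160) (l 15732840)) (l 15738944)) (l 15773128)) (a (b (l 15722520) (c (l 15732576) (l 15728376))) (c (l 15745816) (l 15741608)))) (c (l 15783664) (b (l 15769984) (l 15780888))))) (b (a (a (c (l 15735904) (b (c (l 15724008) (l 15719872)) (l 15733240))) (l 15752000)) (l 15803736)) (c (l 15815104) (l 15806968)))) (b (c (b (l 15816944) (l 15840808)) (b (l 15808816) (l 15832864))) (c (b (l 15869576) (l 15903432)) (b (l 15861872) (l 15896016))))) (a (b (a (c (b (l 15713368) (a (l 15720352) (l 15738744))) (b (l 15705040) (l 15721400))) (b (c (a (l 15738992) (b (l 15752000) (l 15760840))) (b (l 15735176) (l 15743712))) (c (a (b (l 15752312) (l 15762760)) (l 15776472)) (a (l 15749224)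 (l 15768192))))) (a (b (c (a (b (l 15713808) (l 15745968)) (b (l 15754432) (l 15745656))) (a (l 15732272) (b (l 15746312) (l 15758424)))) (c (a (l 15765488) (l 15787640)) (a (b (l 15750480) (l 15764424)) (l 15779368)))) (c (l 15805656) (b (a (l 15772728) (l 15793584)) (l 15813080))))) (b (a (b (c (l 15782784) (a (b (l 15760824) (l 15770528)) (l 15783400))) (l 15801352)) (c (l 15830912) (l 15822920))) (c (b (l 15854120) (l 15888544)) (l 142839197351))))), by decide +kernel⟩

def k42_pp_022_a : ∃ t, chk3 f_pp_022_a t 36 14 3 = true :=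
  ⟨(b (b (a (l 15668264) (l 15655624)) (b (a (l 15641320) (l 15626384)) (c (a (c (a (l 15664008) (l 15641824)) (l 15643792)) (c (a (l 15627344) (l 15652672)) (a (l 15617960) (l 15643584)))) (a (l 15629856) (l 15616696))))) (c (a (b (c (c (l 15664224) (l 15660032)) (l 15653384)) (c (l 15688144) (c (l 15683032) (l 15679120)))) (b (c (a (l 15641496) (l 15670024)) (a (l 15633064) (l 15662144))) (c (a (l 15673448) (b (l 15695768) (l 15718208))) (a (l 15666976) (l 15700064))))) (a (b (l 15639560) (l 15668048)) (c (b (l 15638688) (a (l 15659344) (l 15693240))) (b (l 15629320) (l 15667720)))))), by decide +kernel⟩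

def k43_pp_022_a : ∃ t, chk3 f_pp_022_a t 37 14 3 = true :=
  ⟨(b (b (l 15744960) (b (b (l 15714360) (c (a (c (l 15695168) (l 15686200)) (a (c (l 15739296) (l 15730656)) (c (a (l 15761528) (l 15776624)) (a (l 15753048) (l 15768248))))) (c (a (l 15677168) (l 15737448)) (l 15698928)))) (c (a (c (l 15700112) (l 15691464)) (a (c (a (l 15740008) (l 15756304)) (l 15739840)) (c (a (l 15772784) (l 15789424)) (a (l 15764480) (l 15781176))))) (a (c (l 15682712) (l 15673712)) (c (a (l 15731568) (a (l 15756320) (l 15772976))) (c (l 15741872) (l 15737648))))))) (c (a (b (a (c (l 15704912) (l 15697216)) (b (c (l 15731152) (l 15723240)) (c (a (l 15741200) (l 15760032)) (c (l 15744816) (l 15740984))))) (a (c (b (a (l 15724592) (l 15744368)) (a (l 15749536) (l 15771328))) (b (l 15727416) (a (l 15742368) (l 15763648)))) (b (c (a (l 15764640) (l 15785384)) (a (l 15756920) (l 15777352))) (c (l 15804992) (l 15797032))))) (b (a (c (b (a (l 15757312) (l 15775144)) (l 15789096)) (b (a (l 15749296) (l 15766968)) (a (l 15771192)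 (l 15790712)))) (c (l 15814872) (b (l 15794216) (l 15820584)))) (c (l 15855344) (b (l 15830584) (l 15865848))))) (a (b (c (a (l 15689312) (l 15725048)) (l 15698768)) (c (a (b (l 15720632) (l 15746752)) (b (a (l 15749912) (l 15769872)) (a (l 15778216) (l 15800376)))) (a (l 15725936) (b (l 15752888) (c (a (l 15773088) (l 15794760)) (l 15780528)))))) (b (c (a (b (l 15750376) (a (l 15763568) (l 15782760))) (b (a (l 15776984) (l 15795256)) (l 15812568))) (c (a (b (l 15744472) (l 15767592)) (b (l 15759264) (l 15806640))) (a (l 15751640) (b (l 15776280) (l 15802768))))) (a (c (b (l 15801240) (l 15834928)) (b (c (l 15795520) (a (l 15781184) (l 15802048))) (l 15827272))) (l 15858456)))))), by decide +kernel⟩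

def k44_pp_022_a : ∃ t, chk3 f_pp_022_a t 19 14 1 = true :=
  ⟨(b (a (b (c (c (l 15900000) (l 15885144)) (l 15862456)) (a (a (c (c (b (b (l 15806248) (l 15807144)) (l 15842640)) (b (l 15811792) (l 15826728))) (c (b (c (l 15799528) (a (l 15783664) (l 15798576))) (l 15810624)) (c (b (a (l 15733416) (l 15790368)) (l 15798440)) (b (c (a (l 15769088) (l 15784168)) (l 15772664)) (a (c (l 15783776) (l 15779720)) (l 15798904)))))) (b (a (c (c (l 15828488) (l 15833640)) (c (l 15817632) (c (l 15805464) (l 15755368)))) (l 1)) (l 1))) (l 1))) (l 1)) (b (b (a (a (a (c (c (l 15866400) (l 15850880)) (c (l 15835160) (c (l 15823240) (l 15815280)))) (l 1)) (l 1)) (l 1)) (l 1)) (l 1))), by decide +kernel⟩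

def k45_pp_022_a : ∃ t, chk3 f_pp_022_a t 72 30 1 = true :=
  ⟨(c (c (b (a (c (l 15735728) (b (l 15718136) (l 15740848))) (c (b (l 15716440) (a (b (l 15757552) (l 15750328)) (a (c (c (l 15744368) (l 15742432)) (l 15739632)) (c (l 15742688) (l 15738696))))) (a (l 15744136) (b (l 15727928) (b (l 15747344) (l 15741120)))))) (a (b (c (b (l 15767920) (a (l 15804640) (c (l 15784448) (l 15780928)))) (l 15768912)) (c (a (b (c (l 15801512) (l 15840200)) (c (l 15819720) (l 15816232))) (a (b (l 15800064) (l 15840360)) (l 15810496))) (a (b (l 15814632) (l 15811440)) (b (l 15793320) (l 15812536))))) (b (c (a (b (a (l 15765808) (l 15765464)) (l 15782920)) (l 15774592)) (a (b (l 15758488) (c (l 15777096) (l 15773456))) (c (l 15768504) (l 15785568)))) (c (l 15813304) (b (l 15795016) (l 15837128)))))) (b (c (a (b (l 15733184) (l 15755744)) (b (l 15722888) (l 15748880))) (a (l 15739048) (b (l 15716640) (l 15742416)))) (a (b (c (l 15762592) (l 15778272)) (c (a (l 15817368) (c (l 15818704) (l 15815504))) (l 15811832)))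 (b (c (a (l 15780928) (b (l 15750120) (l 15768056))) (c (l 15775312) (l 15772112))) (c (a (b (l 15786792) (l 15807112)) (l 15819592)) (a (c (l 15812584) (l 15809280)) (b (l 15801336) (l 15822784)))))))) (c (b (c (b (l 15717320) (l 15741928)) (c (l 15725416) (l 15722968))) (b (c (a (l 15774208) (l 15767928)) (l 15767320)) (a (c (l 15807024) (l 15804032)) (c (a (l 15804936) (l 15804984)) (a (l 15800216) (l 15799120)))))) (c (b (l 15717672) (b (l 15762776) (a (l 15801104) (l 15796040)))) (b (l 15709480) (l 15773784))))), by decide +kernel⟩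

def k46_pp_022_a : ∃ t, chk3 f_pp_022_a t 72 31 1 = true :=
  ⟨(b (b (c (c (c (c (l 15856536) (a (l 15870000) (l 15877632))) (a (a (b (c (l 15832704) (l 15829336)) (l 15852888)) (l 15866144)) (l 15871960))) (a (c (a (b (l 15824776) (l 15867072)) (c (l 15860560) (l 15857032))) (a (l 15850440) (b (l 15840912) (l 15863384)))) (c (l 15864344) (a (l 15854944) (l 15858704))))) (c (a (c (a (l 15845464) (l 15846080)) (l 15842312)) (c (a (b (l 15836208) (l 15859856)) (l 15851136)) (a (b (l 15830632) (l 15853384)) (l 15844080)))) (c (a (l 15839784) (a (l 15838400) (b (l 15826344) (l 15850064)))) (c (l 15836136) (l 15833376))))) (c (c (c (c (l 15927400) (l 15923832)) (l 15918448)) (a (c (c (l 15907624) (l 15904088)) (a (b (l 15884016) (l 15909232)) (l 15901288))) (l 15913192))) (c (a (c (a (l 15890680) (l 15894528)) (a (l 15886392) (b (l 15875504) (l 15901304)))) (c (l 15902312) (l 15895304))) (a (c (b (l 15872464) (l 15896480)) (l 15881200)) (c (a (b (l 15873120) (l 15899840)) (l 15890752)) (b (c (l 15871360)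 (l 15869032)) (a (l 15852912) (l 15898680)))))))) (b (c (c (c (c (l 15983832) (l 15980496)) (l 92373805671)) (c (l 15968752) (l 15961984))) (c (a (c (l 15948160) (a (l 15938640) (l 15944784))) (l 15959024)) (a (c (a (b (l 15920456) (l 15947840)) (b (l 15923656) (l 15953640))) (c (a (l 15932288) (l 15935168)) (a (l 15930752) (b (l 15918904) (l 15947160))))) (a (c (l 15945088) (c (l 15940248) (l 503616656935))) (l 15949040))))) (a (c (c (c (l 16036936) (l 16030760)) (c (l 16024512) (l 16018224))) (c (l 288868457959) (c (l 500395559559) (a (b (c (l 15974584) (l 15972888)) (l 495563767111)) (l 533144679911))))) (l 1)))), by decide +kernel⟩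

def k47_pp_022_a : ∃ t, chk3 f_pp_022_a t 146 15 1 = true :=
  ⟨(b (c (b (c (b (a (c (c (a (c (l 15714472) (l 15712496)) (c (l 15713024) (l 15710960))) (b (l 15723456) (l 15715344))) (l 15703048)) (c (c (l 15724040) (b (l 15712872) (l 15747960))) (b (l 15706872) (c (l 15722776) (l 15718688))))) (a (c (a (l 15740128) (l 15760752)) (b (c (l 15725784) (l 15721856)) (l 15739896))) (c (l 15774248) (l 15765808)))) (b (c (a (l 15716440) (l 15726856)) (l 15714248)) (a (c (b (l 15716256) (l 15732016)) (l 15737664)) (c (b (l 15749168) (l 15766208)) (b (l 15741464) (l 15758256)))))) (c (c (a (l 15816552) (l 15832304)) (a (l 15808448) (l 15824320))) (b (a (c (b (l 15749504) (l 15789816)) (b (l 15762832) (l 15781856))) (c (l 15795056) (l 15786896))) (c (l 15830448) (l 15822488))))) (c (b (c (b (l 15707744) (a (l 15730984) (l 15742488))) (b (l 15702136) (l 15731112))) (b (c (a (l 15765048) (l 15779128)) (a (l 15759272) (l 15771976))) (c (a (l 15806312) (l 15823008)) (a (l 15799120) (l 15815232))))) (b (c (c (l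 15712184) (l 15709392)) (l 15703552)) (c (b (a (l 15754304) (l 15766488)) (a (l 15793528) (l 48886730583))) (b (l 15755040) (a (l 15787744) (c (l 15803712) (l 15800928)))))))) (b (b (a (c (c (l 15881832) (l 15866672)) (c (l 15851352) (c (l 15840392) (c (l 15835760) (l 15832984))))) (c (c (l 15910504) (l 15885152)) (c (l 15870088) (c (l 15858672) (b (l 15838072) (l 15865120)))))) (a (b (c (c (l 15900864) (l 15907352)) (c (l 15892672) (l 279204540871))) (l 1)) (l 1))) (l 1))), by decide +kernel⟩

def k48_pp_022_a : ∃ t, chk3 f_pp_022_a t 147 15 1 = true :=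
  ⟨(b (c (b (c (c (l 15794080) (b (c (l 15771488) (l 15767328)) (l 15803472))) (b (c (a (b (l 15742128) (l 15757048)) (l 15772800)) (a (l 15741696) (b (l 15756808) (l 15772736)))) (c (l 15795264) (a (l 15774472) (l 15799792))))) (c (c (b (l 15851176) (l 15896616)) (b (l 15843344) (l 15889168))) (c (l 15857896) (l 15850144)))) (c (b (c (b (a (l 15734408) (l 15756928)) (a (l 15766720) (l 15791728))) (b (c (l 15740664) (l 15737368)) (a (l 15759696) (l 15784032)))) (b (c (l 15819576) (l 60697882135)) (l 15862696))) (b (c (b (l 15733264) (a (l 15753984) (l 15777392))) (c (l 15744576) (l 15740984))) (c (b (a (b (l 15781016) (l 15801520)) (l 15817712)) (l 15851272)) (a (b (l 15785232) (c (l 15831216) (l 15828016))) (b (c (l 15812520) (l 15809336)) (l 15858456))))))) (l 1)), by decide +kernel⟩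

def k49_pp_022_a : ∃ t, chk3 f_pp_022_a t 37 15 1 = true :=
  ⟨(a (b (b (b (c (c (a (l 15820616) (l 15867840)) (c (l 15832352) (l 15824400))) (c (a (c (a (l 15780288) (l 15804240)) (a (l 15772608) (l 15796264))) (l 15836752)) (a (c (a (l 15766016) (l 15788824)) (c (l 15772696) (l 15769344))) (c (l 15824976) (a (c (l 15807016) (l 15803488)) (l 15829528)))))) (c (c (c (l 15886648) (l 15879104)) (c (l 15871512) (l 15863872))) (c (c (l 15856184) (l 15848480)) (a (c (a (l 15801912) (l 15827528)) (c (l 59624118823) (a (l 15793584) (l 15818328)))) (l 15863192))))) (b (a (c (c (c (l 15904264) (l 15896872)) (l 15885688)) (c (l 15870616) (c (l 15859184) (l 249139631319)))) (l 1)) (l 1))) (l 1)) (l 1)), by decide +kernel⟩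

def k50_pp_022_a : ∃ t, chk3 f_pp_022_a t 19 15 1 = true :=
  ⟨(l 1), by decide +kernel⟩

def k51_pp_022_a : ∃ t, chk3 f_pp_022_a t 5 3 1 = true :=
  ⟨(b (a (a (a (b (b (l 154114727207) (l 218002150135)) (l 1)) (l 1)) (l 1)) (l 1)) (l 1)), by decide +kernel⟩

def k52_pp_022_a : ∃ t, chk3 f_pp_022_a t 3 1 1 = true :=
  ⟨(l 1), by decide +kernel⟩

theorem s53_pp_022_a : ∃ t, chk3 f_pp_022_a t 73 15 1 = true := ex3_a k47_pp_022_a k48_pp_022_a

theorem s54_pp_022_a : ∃ t, chk3 f_pp_022_a t 72 15 1 = true := ex3_b k45_pp_022_a k46_pp_022_a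

theorem s55_pp_022_a : ∃ t, chk3 f_pp_022_a t 36 15 1 = true := ex3_a s54_pp_022_a s53_pp_022_a

theorem s56_pp_022_a : ∃ t, chk3 f_pp_022_a t 18 15 1 = true := ex3_a s55_pp_022_a k49_pp_022_a

theorem s57_pp_022_a : ∃ t, chk3 f_pp_022_a t 9 15 1 = true := ex3_a s56_pp_022_a k50_pp_022_a

theorem s58_pp_022_a : ∃ t, chk3 f_pp_022_a t 18 14 3 = true := ex3_a k42_pp_022_a k43_pp_022_a

theorem s59_pp_022_a : ∃ t, chk3 f_pp_022_a t 37 14 2 = true := ex3_b k40_pp_022_a k41_pp_022_a

theorem s60_pp_022_a : ∃ t, chk3 f_pp_022_a t 36 14 2 = true := ex3_b k38_pp_022_a k39_pp_022_a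

theorem s61_pp_022_a : ∃ t, chk3 f_pp_022_a t 18 14 2 = true := ex3_a s60_pp_022_a s59_pp_022_a

theorem s62_pp_022_a : ∃ t, chk3 f_pp_022_a t 18 14 1 = true := ex3_c s61_pp_022_a s58_pp_022_a

theorem s63_pp_022_a : ∃ t, chk3 f_pp_022_a t 9 14 1 = true := ex3_a s62_pp_022_a k44_pp_022_a

theorem s64_pp_022_a : ∃ t, chk3 f_pp_022_a t 9 7 1 = true := ex3_b s63_pp_022_a s57_pp_022_a

theorem s65_pp_022_a : ∃ t, chk3 f_pp_022_a t 9 3 1 = true := ex3_b k37_pp_022_a s64_pp_022_a

theorem s66_pp_022_a : ∃ t, chk3 f_pp_022_a t 35 31 4 = true := ex3_a k33_pp_022_a k34_pp_022_a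

theorem s67_pp_022_a : ∃ t, chk3 f_pp_022_a t 35 31 2 = true := ex3_c s66_pp_022_a k35_pp_022_a

theorem s68_pp_022_a : ∃ t, chk3 f_pp_022_a t 35 15 2 = true := ex3_b k32_pp_022_a s67_pp_022_a

theorem s69_pp_022_a : ∃ t, chk3 f_pp_022_a t 34 15 2 = true := ex3_c k30_pp_022_a k31_pp_022_a

theorem s70_pp_022_a : ∃ t, chk3 f_pp_022_a t 17 15 2 = true := ex3_a s69_pp_022_a s68_pp_022_a

theorem s71_pp_022_a : ∃ t, chk3 f_pp_022_a t 17 15 1 = true := ex3_c s70_pp_022_a k36_pp_022_a

theorem s72_pp_022_a : ∃ t, chk3 f_pp_022_a t 35 14 4 = true := ex3_b k26_pp_022_a k27_pp_022_a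

theorem s73_pp_022_a : ∃ t, chk3 f_pp_022_a t 35 14 2 = true := ex3_c s72_pp_022_a k28_pp_022_a

theorem s74_pp_022_a : ∃ t, chk3 f_pp_022_a t 35 14 1 = true := ex3_c s73_pp_022_a k29_pp_022_a

theorem s75_pp_022_a : ∃ t, chk3 f_pp_022_a t 34 14 2 = true := ex3_c k23_pp_022_a k24_pp_022_a

theorem s76_pp_022_a : ∃ t, chk3 f_pp_022_a t 34 14 1 = true := ex3_c s75_pp_022_a k25_pp_022_a

theorem s77_pp_022_a : ∃ t, chk3 f_pp_022_a t 17 14 1 = true := ex3_a s76_pp_022_a s74_pp_022_a

theorem s78_pp_022_a : ∃ t, chk3 f_pp_022_a t 17 7 1 = true := ex3_b s77_pp_022_a s71_pp_022_a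

theorem s79_pp_022_a : ∃ t, chk3 f_pp_022_a t 33 15 3 = true := ex3_b k21_pp_022_a k22_pp_022_a

theorem s80_pp_022_a : ∃ t, chk3 f_pp_022_a t 32 15 7 = true := ex3_c k19_pp_022_a k20_pp_022_a

theorem s81_pp_022_a : ∃ t, chk3 f_pp_022_a t 32 15 3 = true := ex3_c k18_pp_022_a s80_pp_022_a

theorem s82_pp_022_a : ∃ t, chk3 f_pp_022_a t 16 15 3 = true := ex3_a s81_pp_022_a s79_pp_022_a

theorem s83_pp_022_a : ∃ t, chk3 f_pp_022_a t 33 15 2 = true := ex3_b k16_pp_022_a k17_pp_022_a

theorem s84_pp_022_a : ∃ t, chk3 f_pp_022_a t 32 15 2 = true := ex3_b k14_pp_022_a k15_pp_022_a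

theorem s85_pp_022_a : ∃ t, chk3 f_pp_022_a t 16 15 2 = true := ex3_a s84_pp_022_a s83_pp_022_a

theorem s86_pp_022_a : ∃ t, chk3 f_pp_022_a t 16 15 1 = true := ex3_c s85_pp_022_a s82_pp_022_a

theorem s87_pp_022_a : ∃ t, chk3 f_pp_022_a t 16 29 3 = true := ex3_a k12_pp_022_a k13_pp_022_a

theorem s88_pp_022_a : ∃ t, chk3 f_pp_022_a t 33 29 2 = true := ex3_a k10_pp_022_a k11_pp_022_a

theorem s89_pp_022_a : ∃ t, chk3 f_pp_022_a t 16 29 2 = true := ex3_a k9_pp_022_a s88_pp_022_a

theorem s90_pp_022_a : ∃ t, chk3 f_pp_022_a t 16 29 1 = true := ex3_c s89_pp_022_a s87_pp_022_a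

theorem s91_pp_022_a : ∃ t, chk3 f_pp_022_a t 16 14 1 = true := ex3_b k8_pp_022_a s90_pp_022_a

theorem s92_pp_022_a : ∃ t, chk3 f_pp_022_a t 16 7 1 = true := ex3_b s91_pp_022_a s86_pp_022_a

theorem s93_pp_022_a : ∃ t, chk3 f_pp_022_a t 8 7 1 = true := ex3_a s92_pp_022_a s78_pp_022_a

theorem s94_pp_022_a : ∃ t, chk3 f_pp_022_a t 8 6 1 = true := ex3_a k6_pp_022_a k7_pp_022_a

theorem s95_pp_022_a : ∃ t, chk3 f_pp_022_a t 8 3 1 = true := ex3_b s94_pp_022_a s93_pp_022_a

theorem s96_pp_022_a : ∃ t, chk3 f_pp_022_a t 4 3 1 = true := ex3_a s95_pp_022_a s65_pp_022_a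

theorem s97_pp_022_a : ∃ t, chk3 f_pp_022_a t 2 3 1 = true := ex3_a s96_pp_022_a k51_pp_022_a

theorem s98_pp_022_a : ∃ t, chk3 f_pp_022_a t 16 2 3 = true := ex3_c k1_pp_022_a k2_pp_022_a

theorem s99_pp_022_a : ∃ t, chk3 f_pp_022_a t 8 2 3 = true := ex3_a s98_pp_022_a k3_pp_022_a

theorem s100_pp_022_a : ∃ t, chk3 f_pp_022_a t 8 2 1 = true := ex3_c k0_pp_022_a s99_pp_022_a

theorem s101_pp_022_a : ∃ t, chk3 f_pp_022_a t 4 2 1 = true := ex3_a s100_pp_022_a k4_pp_022_a

theorem s102_pp_022_a : ∃ t, chk3 f_pp_022_a t 2 2 1 = true := ex3_a s101_pp_022_a k5_pp_022_a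

theorem s103_pp_022_a : ∃ t, chk3 f_pp_022_a t 2 1 1 = true := ex3_b s102_pp_022_a s97_pp_022_a

theorem s104_pp_022_a : ∃ t, chk3 f_pp_022_a t 1 1 1 = true := ex3_a s103_pp_022_a k52_pp_022_a

theorem c_pp_022_a : CertNX 0 536870912 0 420477299 1046898278 26843546 3 false true true .pp 0 2 2
    ndN0q0 ndN1q2a pcN2 Cut.none Ext.none :=
  certNX0 (fam := false) (s1 := true) (s2 := true) (a := 0) (b := 2) (c := 2) (cn := .pp) (n1 := ndN0q0) (n2 := ndN1q2a) (pc := pcN2) (cut := Cut.none) (xt := Ext.none) (P1 := 0) (W1 := 536870912) (P2 := 0) (W2 := 420477299) (P3 := 1046898278) (W3 := 26843546) (N0 := 3)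
    rfl s104_pp_022_a

noncomputable def f_pp_022_b : ℕ → ℕ → ℕ → ℕ → Bool := onCell 0 536870912 1073741824 536870912 1046898278 26843546
    (rowNX 3 1 false true true .pp 0 2 2 (qsf 0 536870912 1239849684 370763052 2) ndN0q0 ndN1q2b pcN2 Cut.none Ext.none)

def k0_pp_022_b : ∃ t, chk3 f_pp_022_b t 1 4 1 = true :=
  ⟨(a (a (a (b (l 1) (b (b (l 1) (a (l 1) (c (a (l 1) (a (l 1) (a (l 1) (l 16017864)))) (l 15891512)))) (a (a (l 1) (a (l 1) (a (l 1) (b (l 1) (c (l 215317341239) (l 228202265895)))))) (c (a (c (a (l 16107232) (c (l 16228568) (l 16116600))) (c (a (l 16092936) (l 261488188551)) (a (l 229812731191) (l 16241424)))) (c (c (a (l 16178704) (l 291553069287)) (a (c (l 16132400) (l 16240984)) (l 16298432))) (l 16282880))) (l 267393711895))))) (b (a (a (l 1) (b (l 1) (l 198674560935))) (a (b (l 1) (a (l 16405216) (l 16263216))) (b (l 258803893911) (l 272762255095)))) (a (a (b (c (b (l 16113664) (l 16037560)) (l 249676862807)) (c (l 16153472) (l 16276480))) (b (b (l 16278936) (l 16284672)) (b (l 16190600)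 (l 16016104)))) (b (a (b (l 16253016) (l 16109216)) (b (l 16026864) (l 15913120))) (a (l 15863632) (l 15639560)))))) (b (a (a (b (c (l 15805816) (l 15931352)) (c (l 15883632) (l 15857552))) (b (c (l 15700400) (l 15666256)) (l 15549336))) (a (b (c (l 15391272) (l 15344600)) (l 15253912)) (b (a (l 15152568) (l 15114064)) (l 15033416)))) (a (b (a (b (l 15774432) (l 15669688)) (l 15316568)) (a (l 15410328) (l 15134616))) (a (b (l 15146888) (l 14883704)) (b (l 14941832) (l 14697376)))))) (a (b (a (c (l 15101824) (l 15043016)) (c (l 15124568) (l 15066560))) (a (b (l 14924312) (l 14679136)) (b (l 14925352) (l 14675904)))) (b (a (l 14977200) (l 15095000)) (a (b (l 14926640) (l 14671896)) (l 14772160))))), by decide +kernel⟩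

def k1_pp_022_b : ∃ t, chk3 f_pp_022_b t 8 10 1 = true :=
  ⟨(b (a (c (b (a (l 16218040) (c (l 16283920) (a (l 16320408) (c (l 16338408) (l 66604385623))))) (a (l 15962792) (c (l 16036832) (a (l 16047136) (l 15942440))))) (b (a (a (l 1) (a (l 1) (c (l 16158648) (l 16138296)))) (c (a (c (l 16208224) (c (l 258804107815) (l 16270808))) (c (a (l 16188192) (l 16249160)) (l 16341128))) (l 16334888))) (a (c (a (l 16045464) (b (l 16117240) (l 15955600))) (a (c (b (l 16170504) (l 15917304)) (b (a (l 1) (l 319470433047)) (a (l 15755144) (l 15913232)))) (c (a (b (c (l 16198624) (l 16198792)) (l 15877456)) (l 16007264)) (l 16071552)))) (c (a (c (l 15995144) (b (l 16137704) (l 15916328))) (c (l 15972656) (l 16137472))) (l 16118864))))) (c (b (a (c (a (l 16283768) (c (l 16211728) (l 16198432))) (a (c (l 16259096) (a (l 16213272) (l 16268536))) (c (c (l 16187384) (l 16230560)) (l 16237000)))) (c (c (a (l 16056896) (c (l 16043416) (l 16112496))) (a (c (l 16155992) (l 16181256)) (l 16139024))) (l 16139632))) (a (c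 (a (l 16168504) (l 15970296)) (a (c (l 16175672) (l 16052520)) (l 15978088))) (c (c (a (l 16237024) (l 16144384)) (l 16020296)) (l 16236936)))) (b (l 16163208) (l 16101944)))) (a (c (a (l 15139576) (c (l 15350472) (a (l 15425160) (b (l 15698608) (l 15267328))))) (a (c (b (l 15432728) (l 15118344)) (a (c (l 15288000) (a (c (l 15290088) (l 15073528)) (l 15050176))) (c (a (c (l 15350304) (l 15346464)) (l 15331136)) (l 15343400)))) (c (a (c (l 15300288) (b (l 15584392) (l 15196696))) (b (l 15567064) (l 15252992))) (l 15413648)))) (c (a (c (b (l 15544960) (l 15344464)) (c (a (l 15456856) (l 15339768)) (a (l 15285216) (l 15547800)))) (c (a (c (l 15536088) (l 15391528)) (b (l 15696112) (l 15495632))) (l 15609896))) (l 15316568)))), by decide +kernel⟩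

def k2_pp_022_b : ∃ t, chk3 f_pp_022_b t 9 10 1 = true :=
  ⟨(b (b (a (a (c (l 15953296) (l 16039200)) (l 15830480)) (l 15238560)) (a (a (c (l 16137432) (l 16188280)) (l 15922360)) (l 15597296))) (a (a (c (l 15489136) (l 15615472)) (l 15722136)) (b (l 16014416) (l 16109696)))), by decide +kernel⟩

def k3_pp_022_b : ∃ t, chk3 f_pp_022_b t 4 11 1 = true :=
  ⟨(a (b (a (c (a (l 14519560) (c (l 14645776) (a (l 14590768) (l 14662264)))) (a (c (l 14385712) (a (c (l 14411064) (a (l 14374168) (l 14399344))) (c (l 14259584) (l 14453640)))) (c (a (c (l 14579072) (l 14563528)) (l 14635488)) (l 14553664)))) (c (a (c (a (l 14758240) (l 14694040)) (c (a (l 14764512) (l 14810712)) (l 14751600))) (c (c (a (l 14934608) (l 14960264)) (l 14906536)) (l 14849928))) (l 14746272))) (a (c (a (l 14098480) (c (l 14246064) (l 14222064))) (a (c (l 14035216) (a (c (l 13965480) (l 13938544)) (c (l 14032592) (l 14012424)))) (c (a (c (l 14160032) (l 14140104)) (l 14223016)) (l 14128056)))) (c (a (c (l 14408192) (c (l 14185064)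 (l 14358544))) (c (c (l 14580024) (l 14538792)) (l 14476184))) (l 14351528)))) (b (a (a (c (l 14979760) (l 14927864)) (l 15230584)) (l 15503608)) (a (a (c (l 14627104) (l 14559576)) (l 14887520)) (l 15354448)))), by decide +kernel⟩

def k4_pp_022_b : ∃ t, chk3 f_pp_022_b t 5 5 1 = true :=
  ⟨(b (b (b (a (a (l 15171328) (l 14913896)) (a (l 14681128) (l 14509376))) (a (l 15209432) (a (l 14890880) (l 14729272)))) (a (b (l 15627400) (l 16085224)) (a (l 15601552) (l 15455728)))) (b (a (a (l 16077304) (l 16405112)) (a (l 16447952) (l 16344712))) (a (l 15959048) (l 16523360)))), by decide +kernel⟩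

def k5_pp_022_b : ∃ t, chk3 f_pp_022_b t 3 5 1 = true :=
  ⟨(a (b (b (b (a (l 14491544) (l 14486648)) (a (l 14712472) (l 14707704))) (a (l 15441344) (l 15438232))) (b (a (l 16333464) (l 16332424)) (l 16776592))) (b (b (b (l 14476824) (l 2)) (l 2)) (l 2))), by decide +kernel⟩

def k6_pp_022_b : ∃ t, chk3 f_pp_022_b t 1 3 1 = true :=
  ⟨(a (a (b (a (a (c (b (c (l 14184888) (l 14149840)) (l 14169840)) (a (c (l 14034608) (a (c (l 13964856) (l 13916936)) (b (l 14007128) (l 14007128)))) (c (b (a (l 14133304) (l 14222448)) (l 14018904)) (l 14127464)))) (c (c (a (b (l 14407656) (l 14407656)) (b (l 14555336) (l 14555336))) (a (b (l 14371352) (l 14371352)) (l 14475664))) (l 14350976))) (a (c (a (l 14626616) (l 14919768)) (l 14707832)) (b (l 15354008) (l 15354008)))) (a (a (c (b (l 14169840) (l 14169840)) (a (c (l 14034608) (b (l 13981696) (l 13981696))) (b (l 13928776) (l 14117520)))) (c (a (c (l 14407656) (l 14371352)) (l 14317176)) (l 14350976))) (a (b (l 14693480) (l 14693480)) (l 15354008)))) (b (a (b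 (l 15979656) (l 15979656)) (a (l 16496704) (l 16754176))) (a (l 15769944) (l 2)))) (b (a (c (l 16777216) (l 16777216)) (l 2)) (l 2))), by decide +kernel⟩

theorem s7_pp_022_b : ∃ t, chk3 f_pp_022_b t 4 10 1 = true := ex3_a k1_pp_022_b k2_pp_022_b

theorem s8_pp_022_b : ∃ t, chk3 f_pp_022_b t 4 5 1 = true := ex3_b s7_pp_022_b k3_pp_022_b

theorem s9_pp_022_b : ∃ t, chk3 f_pp_022_b t 2 5 1 = true := ex3_a s8_pp_022_b k4_pp_022_b

theorem s10_pp_022_b : ∃ t, chk3 f_pp_022_b t 1 5 1 = true := ex3_a s9_pp_022_b k5_pp_022_b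

theorem s11_pp_022_b : ∃ t, chk3 f_pp_022_b t 1 2 1 = true := ex3_b k0_pp_022_b s10_pp_022_b

theorem s12_pp_022_b : ∃ t, chk3 f_pp_022_b t 1 1 1 = true := ex3_b s11_pp_022_b k6_pp_022_b

theorem c_pp_022_b : CertNX 0 536870912 1239849684 370763052 1046898278 26843546 3 false true true .pp 0 2 2
    ndN0q0 ndN1q2b pcN2 Cut.none Ext.none :=
  certNX1 (fam := false) (s1 := true) (s2 := true) (a := 0) (b := 2) (c := 2) (cn := .pp) (n1 := ndN0q0) (n2 := ndN1q2b) (pc := pcN2) (cut := Cut.none) (xt := Ext.none) (P1 := 0) (W1 := 536870912) (P2 := 1239849684) (W2 := 370763052) (P3 := 1046898278) (W3 := 26843546) (N0 := 3)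
    rfl (fun _ => rfl) s12_pp_022_b

end Pool.Agent.Strip051.G.IE1.Tab.C.NB01

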