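import Pool.Agent.Strip051.G.IE1.Tab

/-! # Certificates N46 (generated) -/

set_option linter.all false
set_option maxRecDepth 100000

namespace Pool.Agent.Strip051.G.IE1.Tab.C.NB01

open Pool.Agent.Strip051.PB Pool.Agent.Strip051.PB.T
open Pool.Agent.Strip051.G.IE1.Tab

noncomputable def f_pm_102_a : ℕ → ℕ → ℕ → ℕ → Bool := onCell 536870912 536870912 0 420477299 1046898278 26843546
    (rowNX 3 0 false true false .npp 1 0 2 (qsf 536870912 536870912 0 420477299 0) ndN0q1 ndN1q2a pcN0 Cut.none Ext.none)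

def k0_pm_102_a : ∃ t, chk3 f_pm_102_a t 2 2 1 = true :=
  ⟨(a (l 2) (a (a (a (b (l 2) (l 271757344551)) (a (b (l 2) (l 16776040)) (b (c (b (l 16777208) (l 16777048)) (c (l 16777112) (l 16777112))) (b (c (l 16776536) (l 16776512)) (l 16775520))))) (b (b (c (a (c (l 16777208) (l 16777208)) (c (l 16777208) (l 16777208))) (c (l 16777208) (l 16777208))) (c (c (l 16777048) (l 16777040)) (c (l 16777040) (l 16777040)))) (c (b (c (a (l 16776544) (l 16776544)) (a (l 16776528) (l 16776528))) (l 16775544)) (b (c (l 16776520) (l 16776504)) (l 16775488))))) (a (b (b (c (a (b (l 239612198919) (l 16777208)) (b (l 3) (l 230485393303))) (a (b (l 247665262599) (l 16777208)) (l 249275875319))) (c (c (l 16777048) (l 16777040)) (c (l 16777040) (l 16777040)))) (c (b (c (l 16776544) (l 16776528)) (c (a (l 16775560) (l 16775560)) (a (l 16775536) (l 16775536)))) (b (c (l 16776520) (l 16776504)) (c (l 16775504) (l 16775472))))) (b (b (l 3) (c (a (b (c (l 219211103911) (l 16777120)) (l 16776960)) (c (l 232096005815)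 (l 233169747623))) (a (c (l 16777040) (l 16777040)) (b (l 3) (l 209547426999))))) (c (b (c (l 16776544) (l 16776528)) (c (a (l 16775560) (l 16775560)) (a (l 16775536) (l 16775536)))) (b (c (l 16776520) (l 16776504)) (c (l 16775504) (l 16775472)))))))), by decide +kernel⟩

def k1_pm_102_a : ∃ t, chk3 f_pm_102_a t 2 3 1 = true :=
  ⟨(a (b (a (l 2) (a (l 2) (a (l 16772600) (l 16772600)))) (b (a (l 2) (c (b (a (l 2) (l 16766240)) (l 16649936)) (a (l 16685344) (l 16706320)))) (c (a (l 196594242711) (b (l 16494840) (l 16306984))) (a (l 109084257463) (l 16218672))))) (b (a (c (a (l 16772680) (l 16772680)) (l 16772528)) (b (a (l 16773840) (a (l 16773840) (b (c (l 16774400) (l 16774296)) (l 16773304)))) (c (l 16771384) (l 16771176)))) (b (a (c (b (l 16766240) (l 16649936)) (b (l 16765848) (l 16645456))) (c (b (l 16766240) (l 16649936)) (b (l 16765848) (l 16645456)))) (a (c (b (l 16494840) (l 16306984)) (b (l 16484896) (l 16290416))) (c (b (l 16494840) (l 16306984)) (b (l 16484896) (l 16290416))))))),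 by decide +kernel⟩

def k2_pm_102_a : ∃ t, chk3 f_pm_102_a t 6 2 1 = true :=
  ⟨(a (a (b (l 3) (b (c (a (c (l 37748733687) (l 16776528)) (b (l 250886487063) (c (l 16776360) (l 16776344)))) (a (c (l 16776520) (l 16776504)) (b (l 246591519735) (l 53854861095)))) (c (c (a (l 16775560) (l 16775560)) (l 16775536)) (c (l 16775504) (l 16775472))))) (b (l 3) (a (b (c (l 246054648503) (l 243370293895)) (c (c (l 57076084055) (l 16775536)) (c (l 16775504) (l 16775472)))) (b (l 3) (c (b (l 224042939767) (c (l 16775232) (l 16775200))) (b (l 223506068183) (l 65129147559))))))) (b (l 3) (b (l 3) (a (b (l 3) (a (c (l 211158036583) (l 212768648359)) (l 3))) (l 3))))), by decide +kernel⟩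

def k3_pm_102_a : ∃ t, chk3 f_pm_102_a t 12 3 1 = true :=
  ⟨(b (b (c (a (c (a (l 16773928) (l 16773928)) (a (l 16773864) (l 16773864))) (a (c (l 16773928) (l 16773864)) (c (l 16773928) (l 16773864)))) (a (c (a (l 16773808) (l 16773808)) (a (l 16773752) (l 16773752))) (a (c (l 16773808) (l 16773752)) (c (l 16773808) (l 16773752))))) (a (l 16771280) (b (c (c (l 16772168) (l 16772080)) (c (l 16771992) (l 16771896))) (a (l 16770496) (c (l 16770608) (l 16770376)))))) (b (c (b (a (l 16766240) (l 16766240)) (l 16628968)) (b (a (l 16765848) (l 16765848)) (l 16645456))) (a (c (l 16273912) (l 16302552)) (b (l 16489856) (l 16298680))))), by decide +kernel⟩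

def k4_pm_102_a : ∃ t, chk3 f_pm_102_a t 13 6 1 = true :=
  ⟨(a (c (b (a (c (l 71571594583) (l 16773864)) (b (a (l 192904423127) (l 3)) (c (l 74255949255) (l 16773344)))) (a (c (b (l 16772168) (l 16770664)) (l 16771328)) (c (l 16771432) (l 16771328)))) (b (a (c (l 16773808) (l 16773752)) (b (l 200420616503) (c (l 16773272) (l 16773208)))) (a (c (l 16771224) (l 16771120)) (c (l 16771224) (l 16771120))))) (b (b (l 3) (a (a (c (l 182703874567) (l 184851356791)) (l 3)) (l 3))) (a (c (c (b (l 86603979879) (l 16770664)) (b (l 84456493687) (l 16770552))) (c (b (l 16771992) (l 16770440)) (b (l 16771896) (l 16770320)))) (b (a (a (c (l 170892713639) (l 170892710247)) (c (l 206863039687) (l 185925057847))) (l 3)) (c (a (c (l 16753296) (l 16774232)) (b (c (l 162302592695) (l 16696440)) (a (l 16736976) (c (l 65128938967) (l 16680960))))) (a (c (l 16774192) (l 16774160)) (b (l 158544490487) (c (l 16676696) (l 16696664))))))))), by decide +kernel⟩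

def k5_pm_102_a : ∃ t, chk3 f_pm_102_a t 13 14 1 = true :=
  ⟨(b (a (c (c (a (l 16766336) (l 16724392)) (a (l 16766144) (l 16745168))) (c (a (l 16765944) (l 16744976)) (a (l 16765752) (l 16744784)))) (a (c (c (b (l 16769976) (l 16748144)) (b (l 16769848) (l 16747640))) (c (l 16724008) (l 16723808))) (c (a (b (c (l 16773640) (l 16773600)) (a (l 16747888) (b (l 16736680) (l 16696448)))) (b (a (c (b (l 16737904) (l 16719768)) (l 16718656)) (b (c (l 16712864) (l 16711760)) (l 16723760))) (a (b (l 16711120) (l 16718368)) (c (l 16712800) (l 16711656))))) (a (b (c (l 16773552) (l 16773504)) (a (l 16746856) (b (l 16757000) (l 16716856)))) (b (a (b (l 16736200) (l 16718192)) (b (l 16710080) (l 16721952))) (c (l 16674888) (l 16673824))))))) (a (c (l 16649936) (l 16645456)) (b (a (c (c (l 16685448) (l 16683840)) (c (l 16682208) (l 16680552))) (a (c (a (c (l 16685376) (l 16683688)) (l 16671032)) (a (c (l 16681984) (l 16680256)) (l 16689592))) (c (c (a (l 16689488) (l 16682888)) (l 16644216)) (c (l 16663752)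 (l 16683280))))) (a (a (l 16611624) (a (l 16611624) (a (l 16611624) (c (l 16614480) (l 16608744))))) (a (c (a (l 16614408) (c (l 16601944) (l 16620560))) (a (l 16608592) (b (l 16636160) (l 16597888)))) (c (c (l 16631976) (l 16651952)) (c (l 16650936) (l 16649904)))))))), by decide +kernel⟩

def k6_pm_102_a : ∃ t, chk3 f_pm_102_a t 13 15 1 = true :=
  ⟨(a (a (c (l 16399736) (l 16386440)) (b (l 16489856) (c (b (l 16358408) (l 16256064)) (l 16290368)))) (a (b (b (l 16532792) (a (l 16446080) (c (a (l 16451680) (l 16449856)) (l 16438120)))) (a (b (c (l 16357920) (l 16342944)) (c (a (l 16233592) (l 16251200)) (l 16232888))) (b (c (l 16331536) (l 16334736)) (c (l 16243872) (l 16219960))))) (b (a (b (c (a (l 16536144) (l 16541440)) (l 16549592)) (c (l 16447552) (l 16431312))) (c (b (c (l 16581280) (l 16577616)) (l 16486832)) (b (c (l 16573904) (l 16570144)) (l 16472120)))) (c (a (b (l 16346480) (l 16237536)) (b (l 16385008) (l 16275128))) (a (l 16265200) (l 16284136)))))), by decide +kernel⟩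

def k7_pm_102_a : ∃ t, chk3 f_pm_102_a t 7 2 1 = true :=
  ⟨(l 3), by decide +kernel⟩

def k8_pm_102_a : ∃ t, chk3 f_pm_102_a t 14 6 1 = true :=
  ⟨(a (b (l 3) (a (b (l 3) (b (l 3) (a (c (a (c (a (l 57612719415) (l 16682272)) (l 98414889831)) (c (l 174650578791) (l 170892479255))) (a (b (l 164986886167) (l 16687904)) (l 168744990791))) (l 3)))) (l 3))) (l 3)), by decide +kernel⟩

def k9_pm_102_a : ∃ t, chk3 f_pm_102_a t 14 14 1 = true :=
  ⟨(b (a (b (a (c (a (c (a (l 16693208) (b (l 16710504) (l 16722992))) (b (l 16686168) (l 16698992))) (c (b (l 98951860919) (a (l 16710512) (l 101099393303))) (b (l 168208207175) (l 102709985719)))) (a (c (a (l 16712104) (l 16694208)) (a (l 16711048) (l 16714240))) (c (l 150491449895) (l 147270222999)))) (l 3)) (a (c (a (c (a (l 16709736) (l 16716552)) (a (l 16708560) (l 16715552))) (c (a (l 16726992) (b (l 16739416) (l 16733360))) (l 32916828311))) (a (c (l 16690448) (l 16689336)) (c (l 16730216) (l 16729584)))) (a (c (b (c (l 102710020663) (l 146733434935))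 (c (l 108078735287) (l 101636283815))) (c (l 133311646247) (l 125258581431))) (l 3)))) (l 3)) (a (a (a (c (c (b (l 16695704) (l 16678648)) (l 16644048)) (c (l 16684440) (l 16682864))) (c (c (b (l 16696432) (l 16701808)) (b (l 16716392) (l 16700464))) (c (b (l 16715368) (l 16699112)) (l 16664208)))) (c (a (b (c (a (l 16732040) (b (l 16743472) (l 16737328))) (l 47949206023)) (c (l 16700728) (l 16720752))) (b (c (a (b (l 105931261255) (l 16744544)) (l 163913334375)) (a (l 107541861255) (l 204178652423))) (c (a (l 16713696) (b (l 68887183943) (l 16738640))) (a (l 16734072) (l 16741216))))) (a (c (b (l 16734912) (l 16719800)) (b (l 16734368) (l 16718832))) (c (b (l 227264084599) (l 96804420439)) (b (l 196125535959) (l 16736456)))))) (a (a (b (l 3) (c (c (a (b (l 108615616567) (l 61907865495)) (l 163376466615)) (a (l 124721731959) (l 205789268359))) (c (l 219211000599) (l 186998731079)))) (l 3)) (l 3)))), by decide +kernel⟩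

def k10_pm_102_a : ∃ t, chk3 f_pm_102_a t 28 15 1 = true :=
  ⟨(b (a (c (a (b (c (l 16636264) (l 16634512)) (b (c (l 16568448) (l 16563536)) (l 16516648))) (b (l 16661888) (b (l 16627392) (a (l 16560688) (l 16592704))))) (a (b (c (l 16632728) (l 16630920)) (b (l 16535080) (l 16503344))) (b (l 16680688) (c (l 16596312) (l 16592264))))) (c (a (b (c (l 16705784) (l 16704520)) (c (l 16671000) (l 16669536))) (b (c (l 16702496) (l 16722536)) (c (l 16707168) (l 16705984)))) (c (a (l 16673376) (b (l 16721600) (l 16704792))) (a (l 16693176) (b (l 16720656) (l 16703592)))))) (a (b (a (c (l 16438040) (l 16419936)) (a (b (l 16500608) (l 16444208)) (b (c (l 16538688) (l 16524808)) (l 16474544)))) (c (a (l 16326112) (l 16380448)) (a (l 16302680) (l 16359552)))) (b (c (a (b (a (c (l 16574960) (l 16568888)) (l 16607552)) (a (l 16514688) (c (l 16552680) (l 16545200)))) (c (a (l 16618536) (l 16657424)) (l 16633920))) (c (a (b (l 16581488) (l 16456744)) (l 16630064)) (a (b (l 16575984) (l 16511672)) (l 16626168))))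 (a (c (b (l 16471752) (l 16409888)) (l 16421056)) (b (c (a (c (b (l 16543744) (l 16512528)) (l 16519264)) (c (l 16508960) (l 16558784))) (a (c (l 16510232) (l 16501096)) (c (l 16550856) (l 16542832)))) (b (a (l 16486896) (c (c (l 16517904) (l 16507864)) (l 16492584))) (c (l 16461160) (l 16440000)))))))), by decide +kernel⟩

def k11_pm_102_a : ∃ t, chk3 f_pm_102_a t 58 15 1 = true :=
  ⟨(b (a (c (b (c (a (l 16713416) (b (l 40969905575) (l 16736744))) (a (l 16733760) (l 46875479431))) (c (a (l 16718968) (l 16725344)) (l 16721264))) (b (c (a (l 16733128) (l 16738928)) (l 93046314391)) (c (l 16720288) (l 16719304)))) (a (c (b (c (b (l 111299979015) (l 122574252615)) (l 109689355703)) (c (b (l 16734408) (l 16726824)) (l 16729904))) (b (c (l 161765834199) (l 173576983815)) (c (l 16729176) (l 16728440)))) (b (l 3) (c (c (b (l 123647988727) (l 16731032)) (l 104320614679)) (c (l 107541838983) (l 98415032311)))))) (a (c (b (c (l 16684120) (l 16704104)) (a (b (l 16604568) (c (b (l 16558464) (a (l 16514088)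 (l 16534832))) (b (l 16549576) (l 16513912)))) (c (l 16617968) (l 16612072)))) (b (c (l 16703120) (l 16702128)) (b (l 16574224) (a (b (l 16536064) (c (l 16503320) (l 16492608))) (l 16564784))))) (c (b (b (c (l 16721360) (l 16720376)) (c (l 16712496) (l 16711320))) (c (b (a (l 16694640) (l 16701120)) (l 16652408)) (b (l 16698952) (l 16649272)))) (b (c (a (l 16712888) (l 16716728)) (a (l 16711744) (l 16715680))) (c (b (l 16697808) (l 16646112)) (b (l 16696672) (l 16642912))))))), by decide +kernel⟩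

def k12_pm_102_a : ∃ t, chk3 f_pm_102_a t 59 15 1 = true :=
  ⟨(b (a (a (b (l 3) (b (l 3) (c (c (l 124721722039) (l 146733428311)) (c (l 152639007223) (l 16731880))))) (l 3)) (l 3)) (b (a (c (a (c (b (a (l 16725480) (l 16726400)) (l 16714840)) (b (l 16725016) (l 16713760))) (c (b (l 120963610039) (a (l 16716344) (l 16718304))) (b (l 147807154295) (l 94656906423)))) (c (a (b (l 16724216) (l 16712672)) (b (l 151028378391) (l 16715240))) (a (b (l 16723408) (l 16711576)) (b (l 148880893671) (l 16714248))))) (b (l 3) (a (c (c (a (l 94120048839) (l 153712727447)) (a (l 110226174503) (l 157470822263))) (c (a (l 115594881575) (l 159618304327)) (l 146196519175))) (l 3)))) (c (a (c (a (b (l 16700112) (l 16681096)) (b (l 16702048) (l 16682832))) (b (a (l 16698720) (l 16700728)) (a (l 16679480) (l 16681136)))) (a (c (b (a (l 16705808) (b (l 16708168) (l 16704952))) (b (l 16693184) (l 16682296))) (b (a (l 16704608) (b (l 16712408) (l 16703752))) (b (l 16691712) (l 16680592)))) (b (c (a (b (l 147270283591)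 (a (l 16708280) (l 76403314599))) (b (l 3) (l 149954616311))) (a (b (l 154249590487) (l 107541800503)) (l 156397057463))) (c (a (b (l 16699608) (l 16688536)) (b (a (l 16703552) (c (l 94656899591) (l 104320573719))) (c (l 16694280) (l 16693576)))) (b (a (l 16698296) (c (l 107541790007) (l 111836755943))) (c (l 16689968) (l 16689216))))))) (a (c (a (l 16666976) (b (l 16699392) (l 16679424))) (b (l 16675496) (l 16676456))) (c (a (b (a (l 16703384) (l 103783691511)) (l 16684648)) (b (a (l 118279214775) (l 159081414695)) (a (l 16691296) (b (l 111836753975) (l 16691072))))) (a (b (l 16682816) (l 16683032)) (b (a (l 111836761751) (l 161228896391)) (a (l 16689840) (l 91435629303))))))))), by decide +kernel⟩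

def k13_pm_102_a : ∃ t, chk3 f_pm_102_a t 15 3 1 = true :=
  ⟨(b (l 3) (a (b (l 3) (a (b (l 3) (a (a (b (l 3) (b (l 3) (a (c (c (b (l 161228867367) (c (a (l 86603806551) (b (l 148343965287) (l 91435640279))) (a (l 16693328) (l 111299858215)))) (b (l 163376369511) (c (a (l 16692640) (l 117205436471)) (l 113984205559)))) (c (c (l 120963521831) (l 124184745943)) (l 113447325287))) (b (l 3) (c (c (c (l 159618240391) (l 160691980663)) (l 161765699143)) (c (l 156933858407) (l 16675728))))))) (l 3)) (l 3))) (l 3))) (l 3))), by decide +kernel⟩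

theorem s14_pm_102_a : ∃ t, chk3 f_pm_102_a t 29 15 1 = true := ex3_a k11_pm_102_a k12_pm_102_a

theorem s15_pm_102_a : ∃ t, chk3 f_pm_102_a t 14 15 1 = true := ex3_a k10_pm_102_a s14_pm_102_a

theorem s16_pm_102_a : ∃ t, chk3 f_pm_102_a t 14 7 1 = true := ex3_b k9_pm_102_a s15_pm_102_a

theorem s17_pm_102_a : ∃ t, chk3 f_pm_102_a t 14 3 1 = true := ex3_b k8_pm_102_a s16_pm_102_a

theorem s18_pm_102_a : ∃ t, chk3 f_pm_102_a t 7 3 1 = true := ex3_a s17_pm_102_a k13_pm_102_a

theorem s19_pm_102_a : ∃ t, chk3 f_pm_102_a t 7 1 1 = true := ex3_b k7_pm_102_a s18_pm_102_a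

theorem s20_pm_102_a : ∃ t, chk3 f_pm_102_a t 13 7 1 = true := ex3_b k5_pm_102_a k6_pm_102_a

theorem s21_pm_102_a : ∃ t, chk3 f_pm_102_a t 13 3 1 = true := ex3_b k4_pm_102_a s20_pm_102_a

theorem s22_pm_102_a : ∃ t, chk3 f_pm_102_a t 6 3 1 = true := ex3_a k3_pm_102_a s21_pm_102_a

theorem s23_pm_102_a : ∃ t, chk3 f_pm_102_a t 6 1 1 = true := ex3_b k2_pm_102_a s22_pm_102_a

theorem s24_pm_102_a : ∃ t, chk3 f_pm_102_a t 3 1 1 = true := ex3_a s23_pm_102_a s19_pm_102_a

theorem s25_pm_102_a : ∃ t, chk3 f_pm_102_a t 2 1 1 = true := ex3_b k0_pm_102_a k1_pm_102_a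

theorem s26_pm_102_a : ∃ t, chk3 f_pm_102_a t 1 1 1 = true := ex3_a s25_pm_102_a s24_pm_102_a

theorem c_pm_102_a : CertNX 536870912 536870912 0 420477299 1046898278 26843546 3 false true false .npp 1 0 2
    ndN0q1 ndN1q2a pcN0 Cut.none Ext.none :=
  certNX0 (fam := false) (s1 := true) (s2 := false) (a := 1) (b := 0) (c := 2) (cn := .npp) (n1 := ndN0q1) (n2 := ndN1q2a) (pc := pcN0) (cut := Cut.none) (xt := Ext.none) (P1 := 536870912) (W1 := 536870912) (P2 := 0) (W2 := 420477299) (P3 := 1046898278) (W3 := 26843546) (N0 := 3)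
    rfl s26_pm_102_a

noncomputable def f_pm_102_b : ℕ → ℕ → ℕ → ℕ → Bool := onCell 0 536870912 1239849684 370763052 1046898278 26843546
    (rowNX 3 2 false true false .npp 1 0 2 (qsf 536870912 536870912 1239849684 370763052 0) ndN0q1 ndN1q2b pcN0 Cut.none Ext.none)

def k0_pm_102_b : ∃ t, chk3 f_pm_102_b t 1 1 1 = true :=
  ⟨(a (l 3) (b (a (l 3) (a (l 3) (a (l 3) (b (b (c (a (c (l 176798302215) (l 253570842631)) (c (b (l 16777216) (l 236927844359)) (l 126332436487))) (c (a (l 255181455367) (l 16777216)) (l 114521276423))) (l 3)) (l 3))))) (a (l 3) (l 3)))), by decide +kernel⟩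

theorem c_pm_102_b : CertNX 536870912 536870912 1239849684 370763052 1046898278 26843546 3 false true false .npp 1 0 2
    ndN0q1 ndN1q2b pcN0 Cut.none Ext.none :=
  certNX2 (fam := false) (s1 := true) (s2 := false) (a := 1) (b := 0) (c := 2) (cn := .npp) (n1 := ndN0q1) (n2 := ndN1q2b) (pc := pcN0) (cut := Cut.none) (xt := Ext.none) (P1 := 536870912) (W1 := 536870912) (P2 := 1239849684) (W2 := 370763052) (P3 := 1046898278) (W3 := 26843546) (N0 := 3)
    rfl (fun _ => rfl) k0_pm_102_b

noncomputable def f_pm_112_a : ℕ → ℕ → ℕ → ℕ → Bool := onCell 536870912 536870912 0 420477299 1046898278 26843546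
    (rowNX 3 0 false true false .dn 1 1 2 (qsf 536870912 536870912 0 420477299 1) ndN0q1 ndN1q2a pcN1 Cut.none Ext.none)

def k0_pm_112_a : ∃ t, chk3 f_pm_112_a t 1 1 1 = true :=
  ⟨(a (a (b (b (b (a (a (c (l 16777208) (l 16777208)) (a (l 16777208) (c (l 16777208) (l 16777208)))) (c (a (c (a (l 16777208) (l 16777208)) (l 16777208)) (c (l 16777208) (l 16777208))) (a (c (l 16777208) (l 16777208)) (c (l 16777208) (l 16777208))))) (a (c (l 16777048) (l 16777040)) (a (c (l 16777048) (l 16777040)) (b (c (c (l 16777120) (l 16777120)) (c (l 16777120) (l 16777120))) (l 16776960))))) (c (a (c (l 16776072) (l 16776056)) (a (l 16776064) (l 16776064))) (a (l 16776024) (a (l 16776024) (l 16776024))))) (b (a (a (c (l 16772680) (l 16772528)) (c (l 16772680) (l 16772528))) (c (a (l 16772680) (l 16772680)) (l 16772528))) (b (a (c (b (l 16766240) (l 16649936)) (b (l 16765848) (l 16645456))) (c (b (l 16724296) (l 16649936)) (b (l 16765848) (l 16645456)))) (c (a (b (l 16494840) (l 16306984)) (b (l 16494840) (l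 16306984))) (a (l 16218672) (l 16218672)))))) (a (b (b (a (c (b (c (l 16777208) (l 16777208)) (c (l 16777048) (l 16777040))) (b (c (l 16777208) (l 16777208)) (c (l 16777040) (l 16777040)))) (l 1)) (a (a (l 16776040) (a (l 16776040) (b (c (l 16776536) (l 16776512)) (l 1)))) (l 1))) (b (c (l 16772680) (l 16772528)) (l 1))) (l 1))) (l 1)), by decide +kernel⟩

theorem c_pm_112_a : CertNX 536870912 536870912 0 420477299 1046898278 26843546 3 false true false .dn 1 1 2
    ndN0q1 ndN1q2a pcN1 Cut.none Ext.none :=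
  certNX0 (fam := false) (s1 := true) (s2 := false) (a := 1) (b := 1) (c := 2) (cn := .dn) (n1 := ndN0q1) (n2 := ndN1q2a) (pc := pcN1) (cut := Cut.none) (xt := Ext.none) (P1 := 536870912) (W1 := 536870912) (P2 := 0) (W2 := 420477299) (P3 := 1046898278) (W3 := 26843546) (N0 := 3)
    rfl k0_pm_112_a

noncomputable def f_pm_112_b : ℕ → ℕ → ℕ → ℕ → Bool := onCell 536870912 536870912 536870912 536870912 1046898278 26843546
    (rowNX 3 1 false true false .dn 1 1 2 (qsf 536870912 536870912 1239849684 370763052 1) ndN0q1 ndN1q2b pcN1 Cut.none Ext.none)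

def k0_pm_112_b : ∃ t, chk3 f_pm_112_b t 1 2 1 = true :=
  ⟨(a (a (a (b (b (l 1) (b (a (l 1) (b (l 1) (c (l 186327757127) (l 16776280)))) (c (c (l 200286357543) (l 226056161303)) (a (l 16756080) (l 267395266071))))) (c (c (l 219076883751) (l 238404236583)) (b (l 274374587575) (l 16777216)))) (b (b (b (a (l 1) (a (l 1) (c (l 173979726151) (l 180959047943)))) (c (c (a (l 183643362439) (l 16776944)) (a (l 184717103927) (l 16776936))) (c (l 170221586455) (l 171832198519)))) (c (b (c (l 202433885607) (l 206191981991)) (c (l 16777216) (l 16777216))) (b (c (l 16777032) (l 16777032)) (a (l 16777216) (l 16777216))))) (b (c (c (b (l 16777216) (l 16777216)) (l 16777216)) (c (l 16777216) (l 16777216))) (c (l 16777216) (l 16777216))))) (b (c (c (b (a (b (a (l 16776944) (l 16777216)) (l 16777216)) (b (l 152639111175) (l 16777216))) (a (l 16777216) (l 16777216))) (b (a (b (a (l 16776936) (l 16777216)) (l 16777216)) (b (l 136532983815) (l 16777216))) (a (l 16777216) (l 16777216)))) (b (a (c (b (l 16777032)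 (l 16777216)) (b (l 16777032) (l 16777216))) (b (c (l 118279372807) (l 16777216)) (l 16777216))) (b (a (l 16777216) (l 16777216)) (l 16777216)))) (b (c (a (l 16777216) (l 16777216)) (a (l 16777216) (l 16777216))) (a (c (l 16777216) (l 16777216)) (l 16777216))))) (a (a (b (b (l 3) (c (l 407115923463) (l 388862312455))) (b (c (l 119353114631) (l 16777216)) (l 16777216))) (b (l 3) (b (l 3) (a (l 16777216) (l 2))))) (l 3))), by decide +kernel⟩

def k1_pm_112_b : ∃ t, chk3 f_pm_112_b t 1 3 1 = true :=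
  ⟨(a (b (a (b (a (b (l 16777152) (l 16732352)) (c (l 16758304) (l 16757640))) (a (b (l 16640056) (l 16424840)) (b (l 16654240) (l 16468840)))) (b (c (b (l 16777176) (l 16747688)) (b (l 16777176) (l 16746656))) (a (l 16595016) (b (l 16690944) (l 2))))) (b (a (a (l 15800744) (l 15895056)) (a (l 16078160) (l 2))) (a (a (b (l 15450616) (l 15062352)) (b (l 15492776) (l 2))) (l 2)))) (b (a (b (a (b (l 16777200) (l 2)) (l 2)) (l 2)) (l 2)) (l 2))), by decide +kernel⟩

theorem s2_pm_112_b : ∃ t, chk3 f_pm_112_b t 1 1 1 = true := ex3_b k0_pm_112_b k1_pm_112_b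

theorem c_pm_112_b : CertNX 536870912 536870912 1239849684 370763052 1046898278 26843546 3 false true false .dn 1 1 2
    ndN0q1 ndN1q2b pcN1 Cut.none Ext.none :=
  certNX1 (fam := false) (s1 := true) (s2 := false) (a := 1) (b := 1) (c := 2) (cn := .dn) (n1 := ndN0q1) (n2 := ndN1q2b) (pc := pcN1) (cut := Cut.none) (xt := Ext.none) (P1 := 536870912) (W1 := 536870912) (P2 := 1239849684) (W2 := 370763052) (P3 := 1046898278) (W3 := 26843546) (N0 := 3)
    rfl (fun _ => rfl) s2_pm_112_b

noncomputable def f_pm_113 : ℕ → ℕ → ℕ → ℕ → Bool := onCell 536870912 536870912 536870912 536870912 1046898278 26843546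
    (rowNX 3 1 false true false .nn 1 1 3 (qsf 536870912 536870912 1610612736 469762048 1) ndN0q1 ndN1q3 pcN1 Cut.none Ext.none)

def k0_pm_113 : ∃ t, chk3 f_pm_113 t 1 2 1 = true :=
  ⟨(a (a (l 1) (b (l 1) (b (l 1) (a (l 1) (l 16777216))))) (a (a (b (l 1) (b (c (l 287259492359) (l 16777216)) (l 16777216))) (b (l 3) (b (l 3) (a (l 16777216) (l 3))))) (l 3))), by decide +kernel⟩

def k1_pm_113 : ∃ t, chk3 f_pm_113 t 2 3 1 = true :=
  ⟨(b (a (b (l 1) (a (l 1) (b (l 1) (l 16468840)))) (b (c (b (l 16777176) (l 16747688)) (b (l 16777176) (l 16746656))) (a (l 16574048) (b (l 16690944) (b (l 16639304) (l 16541744)))))) (b (a (a (l 15821712) (l 15895056)) (a (l 16078160) (l 16119992))) (a (a (b (l 15450616) (l 15062352)) (b (l 15492776) (l 15113696))) (a (l 15358536) (l 15420488))))), by decide +kernel⟩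

def k2_pm_113 : ∃ t, chk3 f_pm_113 t 3 6 1 = true :=
  ⟨(a (b (a (b (l 16777200) (l 16760496)) (a (l 16774136) (l 172503048823))) (a (b (l 16717896) (b (l 16675952) (l 16585848))) (b (l 16616912) (b (l 16716392) (l 16521696))))) (a (b (a (l 356112661943) (l 3)) (b (a (l 16516504) (l 3)) (a (b (l 16508608) (l 16461928)) (b (l 16196896) (l 392082137047))))) (l 3))), by decide +kernel⟩

def k3_pm_113 : ∃ t, chk3 f_pm_113 t 6 7 1 = true :=
  ⟨(b (a (b (l 16252592) (l 15794480)) (b (a (l 16387784) (l 16409848)) (a (l 16046952) (l 16066088)))) (b (b (a (l 15748752) (a (l 15788872) (l 15795432))) (a (l 15576848) (b (l 15658648) (c (l 15432896) (l 15558160))))) (a (l 15320024) (b (c (b (c (a (l 15542512) (l 15630256)) (l 15517528)) (c (l 15551768) (a (l 15440184) (b (l 15470440) (l 15434272))))) (a (l 15446496) (l 15448912))) (a (l 15303672) (c (b (l 15390880) (l 15319288)) (b (c (b (l 15371952) (c (l 15341536) (l 15328496))) (l 15326488)) (c (l 15279064) (b (l 15270640) (c (l 15240368) (l 15226360))))))))))),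 by decide +kernel⟩

def k4_pm_113 : ∃ t, chk3 f_pm_113 t 7 14 1 = true :=
  ⟨(a (b (a (l 16231224) (a (l 16034416) (l 15887832))) (a (l 15895920) (a (l 15717744) (l 15593088)))) (a (a (b (l 15566832) (b (l 15476032) (l 15340112))) (a (b (l 3) (b (l 3) (l 15160456))) (l 3))) (l 3))), by decide +kernel⟩

def k5_pm_113 : ∃ t, chk3 f_pm_113 t 14 15 1 = true :=
  ⟨(b (b (a (l 15615320) (l 15381256)) (b (a (l 15459288) (l 15216304)) (c (a (l 15423376) (l 15229600)) (l 15177824)))) (b (c (b (c (a (c (l 15411744) (l 15383368)) (c (b (l 15288136) (l 15274120)) (b (l 15223960) (l 15215680)))) (l 14977504)) (c (a (l 15333264) (l 15202576)) (a (b (l 15299600) (l 15268872)) (c (b (l 15139688) (l 15117592)) (l 14860224))))) (a (l 15233752) (l 14956928))) (c (a (b (l 15242976) (l 15179896)) (b (c (l 15151832) (l 15043680)) (l 15050328))) (b (c (b (a (l 15181672) (l 14946520)) (c (l 14917968) (a (l 15134928) (l 14888032)))) (l 14956400)) (c (a (l 15097312) (l 14870648)) (b (a (l 15056656) (c (l 14794256)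 (l 14734328))) (c (l 14893616) (a (l 15009320) (b (l 14706864) (l 14691224)))))))))), by decide +kernel⟩

def k6_pm_113 : ∃ t, chk3 f_pm_113 t 30 15 1 = true :=
  ⟨(a (b (b (l 15160440) (b (l 15004416) (c (l 15091096) (l 14774464)))) (b (c (b (c (c (b (l 15225904) (l 15233072)) (b (l 15124968) (l 15136968))) (l 14994376)) (c (l 15170984) (c (b (l 15040448) (l 15036152)) (b (l 14935800) (l 14935632))))) (l 14714416)) (c (b (c (l 15164512) (l 14965088)) (l 15064712)) (b (c (b (l 14748112) (c (l 14804064) (l 14698008))) (l 14546176)) (c (l 14724000) (b (c (l 14540976) (l 14449544)) (c (l 14539168) (l 623939443991)))))))) (a (b (b (l 15001008) (b (l 14861008) (c (l 15009552) (l 14599728)))) (b (c (b (c (c (b (l 15207064) (l 15236256)) (b (l 15079816) (l 15111360))) (l 14916736)) (c (l 15195976) (b (b (l 14930608) (l 14943496)) (b (l 721115148647) (l 14956888))))) (l 14559712)) (b (a (b (c (l 15087072) (l 851573984919)) (l 2)) (l 2)) (l 2)))) (b (b (c (a (l 15087168) (l 21639728775)) (l 14769800))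 (c (b (l 15007256) (a (l 14987560) (b (l 14997456) (c (l 15144976) (l 14893760))))) (l 14539008))) (b (c (b (c (c (b (c (a (l 15255768) (l 15405744)) (l 15200040)) (a (l 15264848) (l 751180568151))) (b (l 15096040) (b (l 15127488) (l 15156848)))) (l 14911312)) (b (b (c (l 756549224055) (l 14943752)) (l 2)) (l 2))) (l 14500464)) (l 2))))), by decide +kernel⟩

def k7_pm_113 : ∃ t, chk3 f_pm_113 t 31 15 1 = true :=
  ⟨(a (b (a (c (b (a (a (c (l 415703114439) (l 15002672)) (l 3)) (l 3)) (c (b (a (c (a (l 15195800) (l 15223912)) (l 15082008)) (c (l 447915336919) (a (l 15105920) (l 3)))) (c (a (c (b (l 15261456) (a (l 15284688) (l 15324600))) (l 15203024)) (c (b (l 15308000) (l 844595963063)) (a (l 15255312) (l 15279336)))) (a (l 15098088) (a (l 15132272) (c (l 15207416) (l 15120576)))))) (b (l 14922072) (l 14915232)))) (b (l 14743744) (b (l 14580672) (l 14512624)))) (b (l 3) (b (l 3) (b (b (l 3) (l 2)) (l 2))))) (a (a (b (b (b (c (c (c (c (c (l 15397080) (l 15350608)) (l 746885448887)) (l 15155856))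 (l 14940192)) (l 14507432)) (l 2)) (l 2)) (l 2)) (l 2)) (l 2))) (b (l 3) (l 2))), by decide +kernel⟩

theorem s8_pm_113 : ∃ t, chk3 f_pm_113 t 15 15 1 = true := ex3_a k6_pm_113 k7_pm_113

theorem s9_pm_113 : ∃ t, chk3 f_pm_113 t 7 15 1 = true := ex3_a k5_pm_113 s8_pm_113

theorem s10_pm_113 : ∃ t, chk3 f_pm_113 t 7 7 1 = true := ex3_b k4_pm_113 s9_pm_113

theorem s11_pm_113 : ∃ t, chk3 f_pm_113 t 3 7 1 = true := ex3_a k3_pm_113 s10_pm_113

theorem s12_pm_113 : ∃ t, chk3 f_pm_113 t 3 3 1 = true := ex3_b k2_pm_113 s11_pm_113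

theorem s13_pm_113 : ∃ t, chk3 f_pm_113 t 1 3 1 = true := ex3_a k1_pm_113 s12_pm_113

theorem s14_pm_113 : ∃ t, chk3 f_pm_113 t 1 1 1 = true := ex3_b k0_pm_113 s13_pm_113

theorem c_pm_113 : CertNX 536870912 536870912 1610612736 469762048 1046898278 26843546 3 false true false .nn 1 1 3
    ndN0q1 ndN1q3 pcN1 Cut.none Ext.none :=
  certNX1 (fam := false) (s1 := true) (s2 := false) (a := 1) (b := 1) (c := 3) (cn := .nn) (n1 := ndN0q1) (n2 := ndN1q3) (pc := pcN1) (cut := Cut.none) (xt := Ext.none) (P1 := 536870912) (W1 := 536870912) (P2 := 1610612736) (W2 := 469762048) (P3 := 1046898278) (W3 := 26843546) (N0 := 3)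
    rfl (fun _ => rfl) s14_pm_113

noncomputable def f_pm_123 : ℕ → ℕ → ℕ → ℕ → Bool := onCell 1073741824 536870912 1610612736 469762048 1046898278 26843546
    (rowNX 3 2 false true false .npn 1 2 3 (qsf 536870912 536870912 1610612736 469762048 2) ndN0q1 ndN1q3 pcN2 Cut.none Ext.none)

def k0_pm_123 : ∃ t, chk3 f_pm_123 t 1 1 1 = true :=
  ⟨(b (a (b (a (b (a (c (l 14904648) (l 14838920)) (l 1)) (a (a (l 14953800) (l 14919464)) (a (l 14915848) (l 14709520)))) (l 1)) (a (a (b (a (l 15044424) (l 14961056)) (a (l 15147040) (l 15008208))) (a (c (l 14952256) (l 14888192)) (c (l 14731904) (l 14660112)))) (a (a (a (l 14522280) (l 14745576)) (b (l 15470568) (l 15461720))) (a (a (l 16132760) (l 16547512)) (l 16816392))))) (l 1)) (b (a (a (a (a (b (l 15263184) (l 15394920)) (b (l 15061584) (l 15122048))) (a (b (l 14925424) (l 14929504)) (l 14674104))) (a (a (a (l 14489632) (l 14714128)) (b (l 15451640) (l 15440208))) (a (c (l 16344024) (l 16328824)) (l 16776608)))) (a (a (a (l 16777216) (l 16772416))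 (l 16775144)) (l 1))) (a (a (a (b (a (b (l 15503896) (l 15565792)) (l 15190816)) (b (a (a (b (l 15653744) (c (a (l 15688520) (a (l 15660336) (l 15629696))) (a (c (l 15598952) (l 15537800)) (l 15526368)))) (l 15502936)) (l 15242320)) (a (a (c (a (c (l 15620408) (l 15514304)) (c (a (l 15640432) (l 15636472)) (l 15426320))) (a (c (a (l 15380160) (l 15427304)) (a (l 15263160) (l 15321784))) (c (l 15463904) (l 15374616)))) (c (a (b (l 15580968) (l 15584288)) (l 15522456)) (a (c (l 15466712) (l 15395224)) (l 15403688)))) (a (b (l 15346720) (c (c (l 15455376) (l 15401408)) (l 15320304))) (l 15179832))))) (b (a (l 14934144) (l 14654120)) (a (b (l 14936568) (l 14929584)) (l 14629720)))) (a (a (a (l 14271312) (l 14665048)) (b (l 15427240) (l 15403752))) (a (l 16067384) (b (l 16776616) (l 16766144))))) (a (a (l 16767352) (b (l 16777112) (l 16766728))) (a (l 16767352) (l 16767352)))))), by decide +kernel⟩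

theorem c_pm_123 : CertNX 536870912 536870912 1610612736 469762048 1046898278 26843546 3 false true false .npn 1 2 3
    ndN0q1 ndN1q3 pcN2 Cut.none Ext.none :=
  certNX2 (fam := false) (s1 := true) (s2 := false) (a := 1) (b := 2) (c := 3) (cn := .npn) (n1 := ndN0q1) (n2 := ndN1q3) (pc := pcN2) (cut := Cut.none) (xt := Ext.none) (P1 := 536870912) (W1 := 536870912) (P2 := 1610612736) (W2 := 469762048) (P3 := 1046898278) (W3 := 26843546) (N0 := 3)
    rfl (fun _ => rfl) k0_pm_123

noncomputable def f_pm_133 : ℕ → ℕ → ℕ → ℕ → Bool := onCell 536870912 536870912 1610612736 469762048 1046898278 26843546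
    (rowNX 3 0 false true false .dn 1 3 3 (qsf 536870912 536870912 1610612736 469762048 3) ndN0q1 ndN1q3 pcN3 Cut.none Ext.none)

def k0_pm_133 : ∃ t, chk3 f_pm_133 t 1 1 1 = true :=
  ⟨(l 1), by decide +kernel⟩

theorem c_pm_133 : CertNX 536870912 536870912 1610612736 469762048 1046898278 26843546 3 false true false .dn 1 3 3
    ndN0q1 ndN1q3 pcN3 Cut.none Ext.none :=
  certNX0 (fam := false) (s1 := true) (s2 := false) (a := 1) (b := 3) (c := 3) (cn := .dn) (n1 := ndN0q1) (n2 := ndN1q3) (pc := pcN3) (cut := Cut.none) (xt := Ext.none) (P1 := 536870912) (W1 := 536870912) (P2 := 1610612736) (W2 := 469762048) (P3 := 1046898278) (W3 := 26843546) (N0 := 3)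
    rfl k0_pm_133

noncomputable def f_pm_202_a : ℕ → ℕ → ℕ → ℕ → Bool := onCell 0 536870912 0 420477299 1046898278 26843546
    (rowNX 3 0 false true false .pp 2 0 2 (qsf 0 536870912 0 420477299 0) ndN0q2 ndN1q2a pcN0 Cut.none Ext.none)

def k0_pm_202_a : ∃ t, chk3 f_pm_202_a t 1 1 1 = true :=
  ⟨(l 3), by decide +kernel⟩

theorem c_pm_202_a : CertNX 0 536870912 0 420477299 1046898278 26843546 3 false true false .pp 2 0 2
    ndN0q2 ndN1q2a pcN0 Cut.none Ext.none :=
  certNX0 (fam := false) (s1 := true) (s2 := false) (a := 2) (b := 0) (c := 2) (cn := .pp) (n1 := ndN0q2) (n2 := ndN1q2a) (pc := pcN0) (cut := Cut.none) (xt := Ext.none) (P1 := 0) (W1 := 536870912) (P2 := 0) (W2 := 420477299) (P3 := 1046898278) (W3 := 26843546) (N0 := 3)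
    rfl k0_pm_202_a

noncomputable def f_pm_202_b : ℕ → ℕ → ℕ → ℕ → Bool := onCell 0 536870912 1239849684 370763052 1046898278 26843546
    (rowNX 3 0 false true false .pp 2 0 2 (qsf 0 536870912 1239849684 370763052 0) ndN0q2 ndN1q2b pcN0 Cut.none Ext.none)

def k0_pm_202_b : ∃ t, chk3 f_pm_202_b t 1 1 1 = true :=
  ⟨(l 3), by decide +kernel⟩

theorem c_pm_202_b : CertNX 0 536870912 1239849684 370763052 1046898278 26843546 3 false true false .pp 2 0 2
    ndN0q2 ndN1q2b pcN0 Cut.none Ext.none :=
  certNX0 (fam := false) (s1 := true) (s2 := false) (a := 2) (b := 0) (c := 2) (cn := .pp) (n1 := ndN0q2) (n2 := ndN1q2b) (pc := pcN0) (cut := Cut.none) (xt := Ext.none) (P1 := 0) (W1 := 536870912) (P2 := 1239849684) (W2 := 370763052) (P3 := 1046898278) (W3 := 26843546) (N0 := 3)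
    rfl k0_pm_202_b

noncomputable def f_pm_203 : ℕ → ℕ → ℕ → ℕ → Bool := onCell 0 536870912 0 536870912 1046898278 26843546
    (rowNX 3 1 false true false .up 2 0 3 (qsf 0 536870912 1610612736 469762048 0) ndN0q2 ndN1q3 pcN0 Cut.none Ext.none)

def k0_pm_203 : ∃ t, chk3 f_pm_203 t 1 1 1 = true :=
  ⟨(l 3), by decide +kernel⟩

theorem c_pm_203 : CertNX 0 536870912 1610612736 469762048 1046898278 26843546 3 false true false .up 2 0 3
    ndN0q2 ndN1q3 pcN0 Cut.none Ext.none :=
  certNX1 (fam := false) (s1 := true) (s2 := false) (a := 2) (b := 0) (c := 3) (cn := .up) (n1 := ndN0q2) (n2 := ndN1q3) (pc := pcN0) (cut := Cut.none) (xt := Ext.none) (P1 := 0) (W1 := 536870912) (P2 := 1610612736) (W2 := 469762048) (P3 := 1046898278) (W3 := 26843546) (N0 := 3)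
    rfl (fun _ => rfl) k0_pm_203

noncomputable def f_pm_213 : ℕ → ℕ → ℕ → ℕ → Bool := onCell 0 536870912 1610612736 469762048 1046898278 26843546
    (rowNX 3 0 false true false .pnn 2 1 3 (qsf 0 536870912 1610612736 469762048 1) ndN0q2 ndN1q3 pcN1 Cut.none Ext.none)

def k0_pm_213 : ∃ t, chk3 f_pm_213 t 1 1 1 = true :=
  ⟨(a (l 3) (l 3)), by decide +kernel⟩

theorem c_pm_213 : CertNX 0 536870912 1610612736 469762048 1046898278 26843546 3 false true false .pnn 2 1 3
    ndN0q2 ndN1q3 pcN1 Cut.none Ext.none :=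
  certNX0 (fam := false) (s1 := true) (s2 := false) (a := 2) (b := 1) (c := 3) (cn := .pnn) (n1 := ndN0q2) (n2 := ndN1q3) (pc := pcN1) (cut := Cut.none) (xt := Ext.none) (P1 := 0) (W1 := 536870912) (P2 := 1610612736) (W2 := 469762048) (P3 := 1046898278) (W3 := 26843546) (N0 := 3)
    rfl k0_pm_213

noncomputable def f_mm_001 : ℕ → ℕ → ℕ → ℕ → Bool := onCell 0 536870912 536870912 536870912 1046898278 26843546
    (rowNX 3 0 false false false .up 0 0 1 (qsf 0 536870912 536870912 536870912 0) ndN0q0 ndN1q1 pcN0 Cut.none Ext.none)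

def k0_mm_001 : ∃ t, chk3 f_mm_001 t 1 1 1 = true :=
  ⟨(l 3), by decide +kernel⟩

theorem c_mm_001 : CertNX 0 536870912 536870912 536870912 1046898278 26843546 3 false false false .up 0 0 1
    ndN0q0 ndN1q1 pcN0 Cut.none Ext.none :=
  certNX0 (fam := false) (s1 := false) (s2 := false) (a := 0) (b := 0) (c := 1) (cn := .up) (n1 := ndN0q0) (n2 := ndN1q1) (pc := pcN0) (cut := Cut.none) (xt := Ext.none) (P1 := 0) (W1 := 536870912) (P2 := 536870912) (W2 := 536870912) (P3 := 1046898278) (W3 := 26843546) (N0 := 3)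
    rfl k0_mm_001

noncomputable def f_mm_011 : ℕ → ℕ → ℕ → ℕ → Bool := onCell 0 536870912 536870912 536870912 1046898278 26843546
    (rowNX 3 0 false false false .pnn 0 1 1 (qsf 0 536870912 536870912 536870912 1) ndN0q0 ndN1q1 pcN1 Cut.none Ext.none)

def k0_mm_011 : ∃ t, chk3 f_mm_011 t 1 1 1 = true :=
  ⟨(l 3), by decide +kernel⟩

theorem c_mm_011 : CertNX 0 536870912 536870912 536870912 1046898278 26843546 3 false false false .pnn 0 1 1
    ndN0q0 ndN1q1 pcN1 Cut.none Ext.none :=
  certNX0 (fam := false) (s1 := false) (s2 := false) (a := 0) (b := 1) (c := 1) (cn := .pnn) (n1 := ndN0q0) (n2 := ndN1q1) (pc := pcN1) (cut := Cut.none) (xt := Ext.none) (P1 := 0) (W1 := 536870912) (P2 := 536870912) (W2 := 536870912) (P3 := 1046898278) (W3 := 26843546) (N0 := 3)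
    rfl k0_mm_011

noncomputable def f_mm_012_a : ℕ → ℕ → ℕ → ℕ → Bool := onCell 0 536870912 0 420477299 1046898278 26843546
    (rowNX 3 0 false false false .pnp 0 1 2 (qsf 0 536870912 0 420477299 1) ndN0q0 ndN1q2a pcN1 Cut.none Ext.none)

def k0_mm_012_a : ∃ t, chk3 f_mm_012_a t 1 1 1 = true :=
  ⟨(l 5), by decide +kernel⟩

theorem c_mm_012_a : CertNX 0 536870912 0 420477299 1046898278 26843546 3 false false false .pnp 0 1 2
    ndN0q0 ndN1q2a pcN1 Cut.none Ext.none :=
  certNX0 (fam := false) (s1 := false) (s2 := false) (a := 0) (b := 1) (c := 2) (cn := .pnp) (n1 := ndN0q0) (n2 := ndN1q2a) (pc := pcN1) (cut := Cut.none) (xt := Ext.none) (P1 := 0) (W1 := 536870912) (P2 := 0) (W2 := 420477299) (P3 := 1046898278) (W3 := 26843546) (N0 := 3)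
    rfl k0_mm_012_a

noncomputable def f_mm_012_b : ℕ → ℕ → ℕ → ℕ → Bool := onCell 0 536870912 1239849684 370763052 1046898278 26843546
    (rowNX 3 0 false false false .pnp 0 1 2 (qsf 0 536870912 1239849684 370763052 1) ndN0q0 ndN1q2b pcN1 Cut.none Ext.none)

def k0_mm_012_b : ∃ t, chk3 f_mm_012_b t 1 1 1 = true :=
  ⟨(l 5), by decide +kernel⟩

theorem c_mm_012_b : CertNX 0 536870912 1239849684 370763052 1046898278 26843546 3 false false false .pnp 0 1 2
    ndN0q0 ndN1q2b pcN1 Cut.none Ext.none :=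
  certNX0 (fam := false) (s1 := false) (s2 := false) (a := 0) (b := 1) (c := 2) (cn := .pnp) (n1 := ndN0q0) (n2 := ndN1q2b) (pc := pcN1) (cut := Cut.none) (xt := Ext.none) (P1 := 0) (W1 := 536870912) (P2 := 1239849684) (W2 := 370763052) (P3 := 1046898278) (W3 := 26843546) (N0 := 3)
    rfl k0_mm_012_b

noncomputable def f_mm_022_a : ℕ → ℕ → ℕ → ℕ → Bool := onCell 0 536870912 0 420477299 1046898278 26843546
    (rowNX 3 0 false false false .pp 0 2 2 (qsf 0 536870912 0 420477299 2) ndN0q0 ndN1q2a pcN2 Cut.none Ext.none)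

def k0_mm_022_a : ∃ t, chk3 f_mm_022_a t 1 1 1 = true :=
  ⟨(l 5), by decide +kernel⟩

theorem c_mm_022_a : CertNX 0 536870912 0 420477299 1046898278 26843546 3 false false false .pp 0 2 2
    ndN0q0 ndN1q2a pcN2 Cut.none Ext.none :=
  certNX0 (fam := false) (s1 := false) (s2 := false) (a := 0) (b := 2) (c := 2) (cn := .pp) (n1 := ndN0q0) (n2 := ndN1q2a) (pc := pcN2) (cut := Cut.none) (xt := Ext.none) (P1 := 0) (W1 := 536870912) (P2 := 0) (W2 := 420477299) (P3 := 1046898278) (W3 := 26843546) (N0 := 3)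
    rfl k0_mm_022_a

noncomputable def f_mm_022_b : ℕ → ℕ → ℕ → ℕ → Bool := onCell 0 536870912 1239849684 370763052 1046898278 26843546
    (rowNX 3 0 false false false .pp 0 2 2 (qsf 0 536870912 1239849684 370763052 2) ndN0q0 ndN1q2b pcN2 Cut.none Ext.none)

def k0_mm_022_b : ∃ t, chk3 f_mm_022_b t 1 1 1 = true :=
  ⟨(l 5), by decide +kernel⟩

theorem c_mm_022_b : CertNX 0 536870912 1239849684 370763052 1046898278 26843546 3 false false false .pp 0 2 2
    ndN0q0 ndN1q2b pcN2 Cut.none Ext.none :=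
  certNX0 (fam := false) (s1 := false) (s2 := false) (a := 0) (b := 2) (c := 2) (cn := .pp) (n1 := ndN0q0) (n2 := ndN1q2b) (pc := pcN2) (cut := Cut.none) (xt := Ext.none) (P1 := 0) (W1 := 536870912) (P2 := 1239849684) (W2 := 370763052) (P3 := 1046898278) (W3 := 26843546) (N0 := 3)
    rfl k0_mm_022_b

noncomputable def f_mm_023 : ℕ → ℕ → ℕ → ℕ → Bool := onCell 0 536870912 1610612736 469762048 1046898278 26843546
    (rowNX 3 0 false false false .up 0 2 3 (qsf 0 536870912 1610612736 469762048 2) ndN0q0 ndN1q3 pcN2 Cut.none Ext.none)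

def k0_mm_023 : ∃ t, chk3 f_mm_023 t 1 1 1 = true :=
  ⟨(l 5), by decide +kernel⟩

theorem c_mm_023 : CertNX 0 536870912 1610612736 469762048 1046898278 26843546 3 false false false .up 0 2 3
    ndN0q0 ndN1q3 pcN2 Cut.none Ext.none :=
  certNX0 (fam := false) (s1 := false) (s2 := false) (a := 0) (b := 2) (c := 3) (cn := .up) (n1 := ndN0q0) (n2 := ndN1q3) (pc := pcN2) (cut := Cut.none) (xt := Ext.none) (P1 := 0) (W1 := 536870912) (P2 := 1610612736) (W2 := 469762048) (P3 := 1046898278) (W3 := 26843546) (N0 := 3)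
    rfl k0_mm_023

noncomputable def f_mm_033 : ℕ → ℕ → ℕ → ℕ → Bool := onCell 0 536870912 1610612736 469762048 1046898278 26843546
    (rowNX 3 0 false false false .pnn 0 3 3 (qsf 0 536870912 1610612736 469762048 3) ndN0q0 ndN1q3 pcN3 Cut.none Ext.none)

def k0_mm_033 : ∃ t, chk3 f_mm_033 t 1 1 1 = true :=
  ⟨(l 5), by decide +kernel⟩

theorem c_mm_033 : CertNX 0 536870912 1610612736 469762048 1046898278 26843546 3 false false false .pnn 0 3 3
    ndN0q0 ndN1q3 pcN3 Cut.none Ext.none :=
  certNX0 (fam := false) (s1 := false) (s2 := false) (a := 0) (b := 3) (c := 3) (cn := .pnn) (n1 := ndN0q0) (n2 := ndN1q3) (pc := pcN3) (cut := Cut.none) (xt := Ext.none) (P1 := 0) (W1 := 536870912) (P2 := 1610612736) (W2 := 469762048) (P3 := 1046898278) (W3 := 26843546) (N0 := 3)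
    rfl k0_mm_033

noncomputable def f_mm_101 : ℕ → ℕ → ℕ → ℕ → Bool := onCell 536870912 536870912 536870912 536870912 1046898278 26843546
    (rowNX 3 0 false false false .npn 1 0 1 (qsf 536870912 536870912 536870912 536870912 0) ndN0q1 ndN1q1 pcN0 Cut.none Ext.none)

def k0_mm_101 : ∃ t, chk3 f_mm_101 t 1 1 1 = true :=
  ⟨(l 3), by decide +kernel⟩

theorem c_mm_101 : CertNX 536870912 536870912 536870912 536870912 1046898278 26843546 3 false false false .npn 1 0 1
    ndN0q1 ndN1q1 pcN0 Cut.none Ext.none :=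
  certNX0 (fam := false) (s1 := false) (s2 := false) (a := 1) (b := 0) (c := 1) (cn := .npn) (n1 := ndN0q1) (n2 := ndN1q1) (pc := pcN0) (cut := Cut.none) (xt := Ext.none) (P1 := 536870912) (W1 := 536870912) (P2 := 536870912) (W2 := 536870912) (P3 := 1046898278) (W3 := 26843546) (N0 := 3)
    rfl k0_mm_101

noncomputable def f_mm_102_a : ℕ → ℕ → ℕ → ℕ → Bool := onCell 536870912 536870912 0 420477299 1046898278 26843546
    (rowNX 3 0 false false false .npp 1 0 2 (qsf 536870912 536870912 0 420477299 0) ndN0q1 ndN1q2a pcN0 Cut.none Ext.none)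

def k0_mm_102_a : ∃ t, chk3 f_mm_102_a t 1 1 1 = true :=
  ⟨(l 5), by decide +kernel⟩

theorem c_mm_102_a : CertNX 536870912 536870912 0 420477299 1046898278 26843546 3 false false false .npp 1 0 2
    ndN0q1 ndN1q2a pcN0 Cut.none Ext.none :=
  certNX0 (fam := false) (s1 := false) (s2 := false) (a := 1) (b := 0) (c := 2) (cn := .npp) (n1 := ndN0q1) (n2 := ndN1q2a) (pc := pcN0) (cut := Cut.none) (xt := Ext.none) (P1 := 536870912) (W1 := 536870912) (P2 := 0) (W2 := 420477299) (P3 := 1046898278) (W3 := 26843546) (N0 := 3)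
    rfl k0_mm_102_a

noncomputable def f_mm_102_b : ℕ → ℕ → ℕ → ℕ → Bool := onCell 536870912 536870912 1239849684 370763052 1046898278 26843546
    (rowNX 3 0 false false false .npp 1 0 2 (qsf 536870912 536870912 1239849684 370763052 0) ndN0q1 ndN1q2b pcN0 Cut.none Ext.none)

def k0_mm_102_b : ∃ t, chk3 f_mm_102_b t 1 1 1 = true :=
  ⟨(l 5), by decide +kernel⟩

theorem c_mm_102_b : CertNX 536870912 536870912 1239849684 370763052 1046898278 26843546 3 false false false .npp 1 0 2
    ndN0q1 ndN1q2b pcN0 Cut.none Ext.none :=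
  certNX0 (fam := false) (s1 := false) (s2 := false) (a := 1) (b := 0) (c := 2) (cn := .npp) (n1 := ndN0q1) (n2 := ndN1q2b) (pc := pcN0) (cut := Cut.none) (xt := Ext.none) (P1 := 536870912) (W1 := 536870912) (P2 := 1239849684) (W2 := 370763052) (P3 := 1046898278) (W3 := 26843546) (N0 := 3)
    rfl k0_mm_102_b

noncomputable def f_mm_112_a : ℕ → ℕ → ℕ → ℕ → Bool := onCell 536870912 536870912 0 420477299 1046898278 26843546
    (rowNX 3 0 false false false .dn 1 1 2 (qsf 536870912 536870912 0 420477299 1) ndN0q1 ndN1q2a pcN1 Cut.none Ext.none)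

def k0_mm_112_a : ∃ t, chk3 f_mm_112_a t 1 1 1 = true :=
  ⟨(l 5), by decide +kernel⟩

theorem c_mm_112_a : CertNX 536870912 536870912 0 420477299 1046898278 26843546 3 false false false .dn 1 1 2
    ndN0q1 ndN1q2a pcN1 Cut.none Ext.none :=
  certNX0 (fam := false) (s1 := false) (s2 := false) (a := 1) (b := 1) (c := 2) (cn := .dn) (n1 := ndN0q1) (n2 := ndN1q2a) (pc := pcN1) (cut := Cut.none) (xt := Ext.none) (P1 := 536870912) (W1 := 536870912) (P2 := 0) (W2 := 420477299) (P3 := 1046898278) (W3 := 26843546) (N0 := 3)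
    rfl k0_mm_112_a

noncomputable def f_mm_112_b : ℕ → ℕ → ℕ → ℕ → Bool := onCell 536870912 536870912 1239849684 370763052 1046898278 26843546
    (rowNX 3 0 false false false .dn 1 1 2 (qsf 536870912 536870912 1239849684 370763052 1) ndN0q1 ndN1q2b pcN1 Cut.none Ext.none)

def k0_mm_112_b : ∃ t, chk3 f_mm_112_b t 1 1 1 = true :=
  ⟨(l 5), by decide +kernel⟩

theorem c_mm_112_b : CertNX 536870912 536870912 1239849684 370763052 1046898278 26843546 3 false false false .dn 1 1 2
    ndN0q1 ndN1q2b pcN1 Cut.none Ext.none :=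
  certNX0 (fam := false) (s1 := false) (s2 := false) (a := 1) (b := 1) (c := 2) (cn := .dn) (n1 := ndN0q1) (n2 := ndN1q2b) (pc := pcN1) (cut := Cut.none) (xt := Ext.none) (P1 := 536870912) (W1 := 536870912) (P2 := 1239849684) (W2 := 370763052) (P3 := 1046898278) (W3 := 26843546) (N0 := 3)
    rfl k0_mm_112_b

noncomputable def f_mm_113 : ℕ → ℕ → ℕ → ℕ → Bool := onCell 536870912 536870912 1610612736 469762048 1046898278 26843546
    (rowNX 3 0 false false false .nn 1 1 3 (qsf 536870912 536870912 1610612736 469762048 1) ndN0q1 ndN1q3 pcN1 Cut.none Ext.none)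

def k0_mm_113 : ∃ t, chk3 f_mm_113 t 1 1 1 = true :=
  ⟨(l 5), by decide +kernel⟩

theorem c_mm_113 : CertNX 536870912 536870912 1610612736 469762048 1046898278 26843546 3 false false false .nn 1 1 3
    ndN0q1 ndN1q3 pcN1 Cut.none Ext.none :=
  certNX0 (fam := false) (s1 := false) (s2 := false) (a := 1) (b := 1) (c := 3) (cn := .nn) (n1 := ndN0q1) (n2 := ndN1q3) (pc := pcN1) (cut := Cut.none) (xt := Ext.none) (P1 := 536870912) (W1 := 536870912) (P2 := 1610612736) (W2 := 469762048) (P3 := 1046898278) (W3 := 26843546) (N0 := 3)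
    rfl k0_mm_113

noncomputable def f_mm_123 : ℕ → ℕ → ℕ → ℕ → Bool := onCell 536870912 536870912 1610612736 469762048 1046898278 26843546
    (rowNX 3 0 false false false .npn 1 2 3 (qsf 536870912 536870912 1610612736 469762048 2) ndN0q1 ndN1q3 pcN2 Cut.none Ext.none)

def k0_mm_123 : ∃ t, chk3 f_mm_123 t 1 1 1 = true :=
  ⟨(l 5), by decide +kernel⟩

theorem c_mm_123 : CertNX 536870912 536870912 1610612736 469762048 1046898278 26843546 3 false false false .npn 1 2 3
    ndN0q1 ndN1q3 pcN2 Cut.none Ext.none :=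
  certNX0 (fam := false) (s1 := false) (s2 := false) (a := 1) (b := 2) (c := 3) (cn := .npn) (n1 := ndN0q1) (n2 := ndN1q3) (pc := pcN2) (cut := Cut.none) (xt := Ext.none) (P1 := 536870912) (W1 := 536870912) (P2 := 1610612736) (W2 := 469762048) (P3 := 1046898278) (W3 := 26843546) (N0 := 3)
    rfl k0_mm_123

noncomputable def f_mm_133 : ℕ → ℕ → ℕ → ℕ → Bool := onCell 536870912 536870912 1610612736 469762048 1046898278 26843546
    (rowNX 3 0 false false false .dn 1 3 3 (qsf 536870912 536870912 1610612736 469762048 3) ndN0q1 ndN1q3 pcN3 Cut.none Ext.none)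

def k0_mm_133 : ∃ t, chk3 f_mm_133 t 1 1 1 = true :=
  ⟨(l 1), by decide +kernel⟩

theorem c_mm_133 : CertNX 536870912 536870912 1610612736 469762048 1046898278 26843546 3 false false false .dn 1 3 3
    ndN0q1 ndN1q3 pcN3 Cut.none Ext.none :=
  certNX0 (fam := false) (s1 := false) (s2 := false) (a := 1) (b := 3) (c := 3) (cn := .dn) (n1 := ndN0q1) (n2 := ndN1q3) (pc := pcN3) (cut := Cut.none) (xt := Ext.none) (P1 := 536870912) (W1 := 536870912) (P2 := 1610612736) (W2 := 469762048) (P3 := 1046898278) (W3 := 26843546) (N0 := 3)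
    rfl k0_mm_133

noncomputable def f_mm_202_a : ℕ → ℕ → ℕ → ℕ → Bool := onCell 0 536870912 0 420477299 1046898278 26843546
    (rowNX 3 0 false false false .pp 2 0 2 (qsf 0 536870912 0 420477299 0) ndN0q2 ndN1q2a pcN0 Cut.none Ext.none)

def k0_mm_202_a : ∃ t, chk3 f_mm_202_a t 1 1 1 = true :=
  ⟨(l 3), by decide +kernel⟩

theorem c_mm_202_a : CertNX 0 536870912 0 420477299 1046898278 26843546 3 false false false .pp 2 0 2
    ndN0q2 ndN1q2a pcN0 Cut.none Ext.none :=
  certNX0 (fam := false) (s1 := false) (s2 := false) (a := 2) (b := 0) (c := 2) (cn := .pp) (n1 := ndN0q2) (n2 := ndN1q2a) (pc := pcN0) (cut := Cut.none) (xt := Ext.none) (P1 := 0) (W1 := 536870912) (P2 := 0) (W2 := 420477299) (P3 := 1046898278) (W3 := 26843546) (N0 := 3)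
    rfl k0_mm_202_a

noncomputable def f_mm_202_b : ℕ → ℕ → ℕ → ℕ → Bool := onCell 0 536870912 1239849684 370763052 1046898278 26843546
    (rowNX 3 0 false false false .pp 2 0 2 (qsf 0 536870912 1239849684 370763052 0) ndN0q2 ndN1q2b pcN0 Cut.none Ext.none)

def k0_mm_202_b : ∃ t, chk3 f_mm_202_b t 1 1 1 = true :=
  ⟨(l 3), by decide +kernel⟩

theorem c_mm_202_b : CertNX 0 536870912 1239849684 370763052 1046898278 26843546 3 false false false .pp 2 0 2
    ndN0q2 ndN1q2b pcN0 Cut.none Ext.none :=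
  certNX0 (fam := false) (s1 := false) (s2 := false) (a := 2) (b := 0) (c := 2) (cn := .pp) (n1 := ndN0q2) (n2 := ndN1q2b) (pc := pcN0) (cut := Cut.none) (xt := Ext.none) (P1 := 0) (W1 := 536870912) (P2 := 1239849684) (W2 := 370763052) (P3 := 1046898278) (W3 := 26843546) (N0 := 3)
    rfl k0_mm_202_b

noncomputable def f_mm_203 : ℕ → ℕ → ℕ → ℕ → Bool := onCell 0 536870912 1610612736 469762048 1046898278 26843546
    (rowNX 3 0 false false false .up 2 0 3 (qsf 0 536870912 1610612736 469762048 0) ndN0q2 ndN1q3 pcN0 Cut.none Ext.none)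

def k0_mm_203 : ∃ t, chk3 f_mm_203 t 1 1 1 = true :=
  ⟨(l 3), by decide +kernel⟩

theorem c_mm_203 : CertNX 0 536870912 1610612736 469762048 1046898278 26843546 3 false false false .up 2 0 3
    ndN0q2 ndN1q3 pcN0 Cut.none Ext.none :=
  certNX0 (fam := false) (s1 := false) (s2 := false) (a := 2) (b := 0) (c := 3) (cn := .up) (n1 := ndN0q2) (n2 := ndN1q3) (pc := pcN0) (cut := Cut.none) (xt := Ext.none) (P1 := 0) (W1 := 536870912) (P2 := 1610612736) (W2 := 469762048) (P3 := 1046898278) (W3 := 26843546) (N0 := 3)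
    rfl k0_mm_203

noncomputable def f_mm_213 : ℕ → ℕ → ℕ → ℕ → Bool := onCell 0 536870912 1610612736 469762048 1046898278 26843546
    (rowNX 3 0 false false false .pnn 2 1 3 (qsf 0 536870912 1610612736 469762048 1) ndN0q2 ndN1q3 pcN1 Cut.none Ext.none)

def k0_mm_213 : ∃ t, chk3 f_mm_213 t 1 1 1 = true :=
  ⟨(l 3), by decide +kernel⟩

theorem c_mm_213 : CertNX 0 536870912 1610612736 469762048 1046898278 26843546 3 false false false .pnn 2 1 3
    ndN0q2 ndN1q3 pcN1 Cut.none Ext.none :=
  certNX0 (fam := false) (s1 := false) (s2 := false) (a := 2) (b := 1) (c := 3) (cn := .pnn) (n1 := ndN0q2) (n2 := ndN1q3) (pc := pcN1) (cut := Cut.none) (xt := Ext.none) (P1 := 0) (W1 := 536870912) (P2 := 1610612736) (W2 := 469762048) (P3 := 1046898278) (W3 := 26843546) (N0 := 3)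
    rfl k0_mm_213

end Pool.Agent.Strip051.G.IE1.Tab.C.NB01

namespace Pool.Agent.Strip051.G.IE1.Tab.C.NB02

open Pool.Agent.Strip051.PB Pool.Agent.Strip051.PB.T
open Pool.Agent.Strip051.G.IE1.Tab

noncomputable def f_pp_001 : ℕ → ℕ → ℕ → ℕ → Bool := onCell 0 536870912 536870912 536870912 1046898278 26843546
    (rowNX 3 0 false true true .up 0 0 1 (qsf 0 536870912 536870912 536870912 0) ndN0q0 ndN2q1 pcN0 Cut.none Ext.none)

def k0_pp_001 : ∃ t, chk3 f_pp_001 t 1 1 1 = true :=
  ⟨(l 3), by decide +kernel⟩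

theorem c_pp_001 : CertNX 0 536870912 536870912 536870912 1046898278 26843546 3 false true true .up 0 0 1
    ndN0q0 ndN2q1 pcN0 Cut.none Ext.none :=
  certNX0 (fam := false) (s1 := true) (s2 := true) (a := 0) (b := 0) (c := 1) (cn := .up) (n1 := ndN0q0) (n2 := ndN2q1) (pc := pcN0) (cut := Cut.none) (xt := Ext.none) (P1 := 0) (W1 := 536870912) (P2 := 536870912) (W2 := 536870912) (P3 := 1046898278) (W3 := 26843546) (N0 := 3)
    rfl k0_pp_001

noncomputable def f_pp_011 : ℕ → ℕ → ℕ → ℕ → Bool := onCell 0 536870912 536870912 536870912 1046898278 26843546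
    (rowNX 3 0 false true true .pnn 0 1 1 (qsf 0 536870912 536870912 536870912 1) ndN0q0 ndN2q1 pcN1 Cut.none Ext.none)

def k0_pp_011 : ∃ t, chk3 f_pp_011 t 1 1 1 = true :=
  ⟨(l 3), by decide +kernel⟩

theorem c_pp_011 : CertNX 0 536870912 536870912 536870912 1046898278 26843546 3 false true true .pnn 0 1 1
    ndN0q0 ndN2q1 pcN1 Cut.none Ext.none :=
  certNX0 (fam := false) (s1 := true) (s2 := true) (a := 0) (b := 1) (c := 1) (cn := .pnn) (n1 := ndN0q0) (n2 := ndN2q1) (pc := pcN1) (cut := Cut.none) (xt := Ext.none) (P1 := 0) (W1 := 536870912) (P2 := 536870912) (W2 := 536870912) (P3 := 1046898278) (W3 := 26843546) (N0 := 3)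
    rfl k0_pp_011

noncomputable def f_pp_012_a : ℕ → ℕ → ℕ → ℕ → Bool := onCell 536870912 536870912 0 420477299 1046898278 26843546
    (rowNX 3 2 false true true .pnp 0 1 2 (qsf 0 536870912 0 420477299 1) ndN0q0 ndN2q2a pcN1 Cut.none Ext.none)

def k0_pp_012_a : ∃ t, chk3 f_pp_012_a t 2 1 1 = true :=
  ⟨(l 3), by decide +kernel⟩

def k1_pp_012_a : ∃ t, chk3 f_pp_012_a t 6 1 1 = true :=
  ⟨(b (a (l 3) (b (a (l 3) (a (b (c (l 249812012103) (l 243906406823)) (l 3)) (a (b (c (a (l 16427720) (l 16435696)) (l 16419888)) (l 3)) (b (c (l 16474008) (l 16463736)) (c (b (l 255180706327) (l 3)) (l 266454909479)))))) (l 3))) (l 3)), by decide +kernel⟩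

def k2_pp_012_a : ∃ t, chk3 f_pp_012_a t 14 1 1 = true :=
  ⟨(b (b (a (c (a (b (l 16535328) (a (b (l 16492016) (l 246053945703)) (b (l 16547640) (l 82845283367)))) (b (l 16620816) (c (l 16515992) (l 16535504)))) (a (b (l 16549816) (a (l 213841652807) (l 16505560))) (b (l 16640608) (l 16512272)))) (a (b (c (l 16499040) (l 16491640)) (c (a (l 16528168) (b (l 16495512) (l 16487208))) (a (l 16587352) (l 16444560)))) (b (c (l 16376448) (l 16386584)) (c (b (l 16449016) (a (l 16500944) (l 16494648))) (b (l 16440280) (l 16490648)))))) (a (a (b (c (c (l 186998237383) (l 190219517191)) (l 214378543047)) (l 3)) (b (c (c (a (l 142974941943) (l 16595440)) (l 93582803751)) (c (l 16522184) (l 16541304))) (a (l 3) (b (c (l 153175657495) (l 16619424)) (l 3))))) (b (a (c (a (b (l 16615392) (a (l 16635736) (l 16599224))) (b (l 16531904) (l 16577984))) (a (b (l 16612592) (l 16594416)) (b (l 16547776) (l 16573784)))) (a (c (l 16532992) (l 16549192)) (c (l 16526776) (l 16543080)))) (a (c (b (a (a (b (l 16633104)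 (l 16614880)) (l 16618560)) (l 16611320)) (a (a (l 160155012535) (l 16629064)) (l 16625024))) (b (a (a (l 16612592) (l 16615608)) (l 16608328)) (a (l 16648008) (l 16644232)))) (a (c (b (l 16603736) (l 16638800)) (l 16608824)) (c (b (l 16597488) (l 16632552)) (l 16592168))))))) (b (a (l 3) (a (a (l 3) (b (b (c (l 112373520023) (l 16661544)) (l 3)) (l 3))) (a (b (c (b (l 16626624) (l 105931011575)) (b (l 16646016) (l 16631080))) (l 3)) (b (c (b (l 16634312) (l 16618128)) (b (l 16632496) (l 16615320))) (b (c (l 107541571079) (l 16602576)) (l 3)))))) (l 3))), by decide +kernel⟩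

def k3_pp_012_a : ∃ t, chk3 f_pp_012_a t 30 2 1 = true :=
  ⟨(a (b (c (b (l 16362968) (b (l 16411600) (l 16436872))) (b (l 16351624) (l 16342920))) (b (c (a (l 16503608) (l 16491064)) (a (l 16519408) (l 16485008))) (c (a (b (l 16572032) (l 16605592)) (l 16508008)) (a (l 16586288) (l 16545936))))) (b (a (c (b (l 16338352) (l 16402280)) (b (l 16326696) (l 16393216))) (a (c (b (l 16337440) (l 16398496)) (l 16244960)) (c (b (l 16266896) (l 16309160)) (l 16333248)))) (a (b (c (l 16465296) (l 16458648)) (c (l 16518296) (l 16513456))) (c (b (c (a (l 16460224) (l 16456968)) (l 16465736)) (a (l 16508480) (c (l 16508408) (l 16526576)))) (b (l 16461024) (l 16513552)))))), by decide +kernel⟩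

def k4_pp_012_a : ∃ t, chk3 f_pp_012_a t 62 2 1 = true :=
  ⟨(c (b (a (c (c (a (b (c (l 16356736) (l 16370720)) (c (l 16382704) (l 16394784))) (b (l 16369056) (a (l 16416936) (l 16464376)))) (a (b (l 16365520) (l 16430720)) (b (c (l 16323264) (l 16380440)) (a (l 16404064) (c (l 16463368) (l 16454576)))))) (b (l 16368248) (l 16414456))) (a (c (c (l 16350704) (b (l 16376856) (b (l 16446256) (l 16493464)))) (c (b (a (l 16388000) (c (l 16399840) (l 16394632))) (a (l 16416624) (c (l 16473736) (l 16445864)))) (b (l 16386888) (l 16457656)))) (c (b (l 16405632) (l 16456208)) (c (b (l 16406144) (l 16449144)) (b (c (a (l 16400304) (l 16408544)) (l 16317800)) (b (a (l 16406840) (l 16415184)) (c (l 16502720) (l 16499624)))))))) (a (c (b (c (a (a (l 16456264) (l 16515984)) (l 16530144)) (a (l 16494832) (a (l 16512824) (l 16529040)))) (c (a (c (l 16485104) (l 16556224)) (l 16545304)) (a (l 16548448) (c (l 16499904) (l 16573112))))) (b (l 16501408) (l 16556576))) (c (b (c (l 16541160) (a (l 16541704) (l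 16549000))) (c (l 16566248) (a (l 16568296) (l 16554360)))) (b (c (a (a (l 16527864) (l 16542432)) (l 16553688)) (a (l 16527096) (c (l 16552328) (l 16548832)))) (a (c (a (l 16581088) (l 16522568)) (l 16578664)) (c (l 16548904) (a (l 16493528) (l 16522576)))))))) (b (b (c (l 16376880) (l 16372224)) (a (l 16429952) (c (l 16442088) (l 16460112)))) (b (a (l 16497744) (l 16533744)) (a (l 16554272) (l 16544880))))), by decide +kernel⟩

def k5_pp_012_a : ∃ t, chk3 f_pp_012_a t 63 2 1 = true :=
  ⟨(c (b (a (c (b (l 16422408) (l 16495688)) (b (a (c (l 16415040) (l 16351496)) (l 16426024)) (a (c (l 16489480) (l 16385472)) (l 16502200)))) (b (l 16446792) (l 16525048))) (a (b (c (l 16561520) (a (l 16541976) (l 16548808))) (c (l 16527504) (a (l 16490672) (l 16512864)))) (b (l 16518312) (l 16480912)))) (b (a (c (a (c (b (c (a (l 16410368) (l 16417720)) (l 16349008)) (c (a (l 16486640) (l 16495672)) (a (l 16482488) (l 16492992)))) (b (l 16409032) (l 16485368))) (c (b (l 16403632) (l 16481752)) (b (c (a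 (l 16420744) (l 16427424)) (l 16380576)) (c (a (l 16499408) (l 16507280)) (l 16438712))))) (l 16328968)) (a (c (c (l 16373896) (b (l 16414552) (l 16495008))) (c (a (b (l 16409968) (l 16470016)) (c (l 16355448) (b (l 16416088) (l 16519136)))) (l 16433880))) (c (l 16366840) (c (b (l 16447152) (l 16530128)) (a (c (b (l 16379712) (l 16462744)) (l 16465464)) (c (l 16389368) (b (b (l 16370272) (l 16462712)) (l 16407232)))))))) (a (c (a (b (c (a (l 16560736) (l 16559240)) (l 16560136)) (c (c (l 16485960) (l 16529456)) (l 16531800))) (c (b (l 16545864) (l 16508576)) (b (a (l 16549728) (l 16538896)) (a (l 16512064) (l 16458544))))) (b (l 16556192) (l 16518808))) (c (b (a (l 16525632) (l 16504448)) (a (c (l 16488752) (l 16485880)) (l 16464840))) (a (a (b (l 16528560) (l 16489280)) (c (b (c (l 16518400) (l 16517800)) (c (l 16478816) (l 16477928))) (l 16391968))) (c (b (l 16502560) (l 16462088)) (b (a (l 16507712) (c (l 16496296) (l 16495872))) (a (c (l 16445864) (l 16465856)) (c (l 16455120) (l 16412568)))))))))),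 by decide +kernel⟩

def k6_pp_012_a : ∃ t, chk3 f_pp_012_a t 30 6 1 = true :=
  ⟨(a (b (c (a (b (l 16636984) (l 16622384)) (b (l 16596504) (l 16628576))) (a (l 16585632) (l 16590048))) (c (b (a (l 16610200) (l 16629472)) (a (c (l 16603112) (l 16601256)) (l 16602352))) (b (a (l 16607128) (l 16627640)) (c (l 56001930967) (l 74255536887))))) (a (b (c (b (l 16560464) (l 16589608)) (l 16572464)) (c (b (l 16618816) (l 16640368)) (b (l 16617032) (l 16639000)))) (c (b (c (a (l 16542392) (c (l 16543848) (l 16583792))) (l 16572392)) (c (a (l 16618104) (b (l 16616224) (c (l 16571584) (l 16614296)))) (b (l 16614304) (l 16626784)))) (b (l 16549296) (b (l 16613064) (l 16625552)))))), by decide +kernel⟩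

def k7_pp_012_a : ∃ t, chk3 f_pp_012_a t 30 14 1 = true :=
  ⟨(b (a (a (b (b (c (l 16599848) (l 16595744)) (l 3)) (l 3)) (c (b (c (b (l 16622008) (l 16601744)) (l 16599992)) (c (l 16608888) (l 16628880))) (b (c (l 16619536) (l 16618088)) (l 16606392)))) (c (a (b (c (l 16620440) (l 16640592)) (a (l 16624016) (l 16624352))) (b (c (a (l 16642560) (c (c (a (l 16623032) (l 16564488)) (l 16615800)) (l 16615360))) (l 16607168)) (c (a (l 16637440) (c (c (l 16580904) (l 16645584)) (l 16645312))) (l 16606768)))) (a (b (l 16613104) (l 16613128)) (b (c (l 16627192) (l 16626240)) (l 16605824))))) (a (a (l 3) (b (c (c (l 16634912) (l 16634312)) (l 212231482935)) (l 3))) (c (a (c (b (l 16585728) (a (l 16586496) (l 16582720))) (b (l 16605360) (l 16550752))) (c (a (b (l 16607000) (l 16551712)) (a (l 16586464) (c (c (b (l 16598976) (l 16544032)) (l 16599104)) (l 16598600)))) (a (b (l 16605408) (l 16570280)) (l 16570248)))) (a (c (l 77476703479) (l 16564232)) (c (a (l 16544112) (l 16568712)) (l 16554640)))))),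 by decide +kernel⟩

def k8_pp_012_a : ∃ t, chk3 f_pp_012_a t 30 15 1 = true :=
  ⟨(a (l 3) (a (a (l 3) (b (b (c (c (l 16524328) (l 16542112)) (l 240148515783)) (l 3)) (l 3))) (a (b (c (b (c (a (l 16529560) (l 16539176)) (a (l 16526160) (l 16535984))) (c (a (b (a (l 16498672) (l 16499888)) (l 102709512519)) (l 120963148695)) (a (b (l 92508969927) (l 16484696)) (l 16488968)))) (b (c (l 16506832) (l 16524392)) (c (a (b (l 16491536) (l 16480256)) (l 16506048)) (l 65665371287)))) (a (l 3) (b (b (c (l 117741924583) (l 16496224)) (l 3)) (l 3)))) (c (b (b (c (a (l 16533976) (c (c (a (l 16548784) (c (l 16566712) (l 16580160))) (l 16574456)) (l 16573536))) (l 16521168)) (c (c (a (l 16539728) (c (a (l 16559912) (c (l 16580272) (l 16572520))) (l 16565016))) (l 16551032)) (l 16548720))) (c (c (a (b (l 16530624) (l 3)) (a (b (l 16529208) (l 105930808727)) (c (b (c (l 16571440) (l 16563456)) (c (l 16522872) (l 16551424))) (l 104857102151)))) (b (l 16541760) (l 16508608))) (b (l 16539200) (l 149417310007))))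 (b (b (c (l 16560416) (l 16557672)) (c (l 16545600) (l 16542416))) (b (c (l 16535736) (l 16532216)) (c (l 16501896) (l 16518952)))))))), by decide +kernel⟩

def k9_pp_012_a : ∃ t, chk3 f_pp_012_a t 62 6 1 = true :=
  ⟨(a (c (c (b (c (a (c (a (l 16597352) (l 16573616)) (l 16511560)) (a (l 16521312) (l 16553632))) (a (l 16601288) (a (l 16535912) (c (l 16552832) (l 16563544))))) (c (a (c (a (l 16540848) (b (l 16559160) (l 16553104))) (a (l 16551864) (l 16528848))) (b (l 16523776) (a (l 16499848) (l 16531480)))) (a (b (l 16590144) (l 16586520)) (a (b (l 16564856) (l 16517944)) (c (l 16491400) (l 16504216)))))) (b (l 16546848) (b (l 16576640) (l 16530392)))) (b (l 16587328) (l 16529728))) (c (c (b (a (c (l 16546784) (l 16476576)) (l 16528456)) (a (c (l 16528392) (a (b (l 16526704) (l 16498528)) (l 16513464))) (l 16467320))) (c (a (b (a (l 16533128) (c (l 16531640) (l 16540104))) (a (c (l 16512576) (l 16540976)) (c (l 16489616) (l 16499792)))) (b (l 16476864) (b (l 16501736) (l 16472888)))) (a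 (b (l 16551704) (l 16533896)) (b (c (a (l 16526696) (l 16510096)) (a (l 16533168) (l 16514832))) (b (c (l 16438896) (l 16463248)) (c (a (l 16502760) (l 16483720)) (a (l 16510920) (l 16489704)))))))) (b (c (l 16538152) (l 16536200)) (c (l 16497928) (l 16516288))))), by decide +kernel⟩

def k10_pp_012_a : ∃ t, chk3 f_pp_012_a t 63 6 1 = true :=
  ⟨(c (a (b (c (l 16498296) (a (c (l 16503728) (l 16436368)) (l 16481648))) (a (c (l 16490096) (c (l 16482376) (a (l 16456840) (l 16470248)))) (b (l 16466168) (c (l 16458056) (l 16450832))))) (b (l 16447936) (b (l 16425816) (a (l 16394640) (l 16366632))))) (a (c (a (c (b (a (c (l 16481944) (l 16507808)) (c (l 16488248) (l 16490952))) (c (a (l 16417464) (l 16464208)) (a (l 16486312) (l 16425552)))) (b (l 16500776) (l 16478568))) (c (b (l 16476008) (b (l 16456984) (a (l 16431432) (l 16437192)))) (b (c (a (l 16478944) (l 16466152)) (l 16431872)) (a (b (l 16459952) (l 16386456)) (c (l 16416856) (b (l 16446976) (l 16432024))))))) (b (l 16486336) (b (l 16467584)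 (l 16455336)))) (c (b (a (c (l 16455408) (l 16451648)) (l 16429624)) (a (b (l 16391480) (c (l 16408720) (l 16361784))) (b (l 16404888) (l 16358296)))) (a (b (c (a (l 16433872) (c (l 16443768) (l 16442592))) (l 16448536)) (c (a (b (l 16434320) (c (l 16391296) (l 16413872))) (c (l 16342304) (b (l 16421432) (l 16368792)))) (l 16390216))) (c (b (l 16426048) (b (l 16400688) (l 16353264))) (b (a (c (l 16388912) (l 16429576)) (c (l 16418344) (b (l 16426312) (l 16388576)))) (a (c (b (l 16387416) (a (l 16370536) (l 16358240))) (l 16382808)) (c (l 16320760) (b (a (l 16396368) (l 16386920)) (a (l 16343664) (l 16329184))))))))))), by decide +kernel⟩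

def k11_pp_012_a : ∃ t, chk3 f_pp_012_a t 124 14 1 = true :=
  ⟨(c (c (b (c (b (a (a (c (l 16559704) (l 16571920)) (c (l 16509384) (l 16547104))) (a (c (l 16536328) (l 16518704)) (l 16529160))) (a (a (a (l 16558960) (l 16546120)) (c (l 16558016) (l 16575608))) (a (c (l 16563632) (l 16546288)) (l 16556520)))) (b (a (c (l 16544664) (l 16587272)) (a (c (l 16534272) (l 16565344)) (c (l 16506952) (l 16542200)))) (a (l 16574080) (a (c (l 16562656) (l 16594296)) (c (l 16555432) (l 16549488)))))) (a (c (a (c (a (l 16559384) (l 16599632)) (a (l 16587640) (c (l 16578928) (l 16594184)))) (c (b (l 16584432) (b (l 16622560) (l 16627312))) (b (l 16602976) (l 16587896)))) (a (l 16590560) (b (l 16615920) (c (l 16581952) (l 16631872))))) (c (a (b (c (l 16610632) (l 16572680)) (c (l 16649136) (l 16590552))) (b (l 16601288) (l 16630432))) (c (a (b (l 16589960) (l 16605920)) (b (l 16558520) (l 16587824))) (b (a (l 16622264) (l 16574408)) (a (l 16632872) (l 16625472))))))) (b (b (c (l 16509496) (l 16571720))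 (c (l 16538792) (l 16601248))) (a (l 16578496) (a (l 16621072) (b (l 16584848) (l 16636680)))))) (b (b (l 16569216) (l 16578344)) (b (l 16606960) (a (l 16579784) (l 16642504))))), by decide +kernel⟩

def k12_pp_012_a : ∃ t, chk3 f_pp_012_a t 124 15 1 = true :=
  ⟨(c (c (a (a (c (b (c (b (l 16576704) (l 16570880)) (c (a (l 16546392) (l 16564728)) (l 16552256))) (c (b (l 16541488) (b (l 16554200) (l 117742012583))) (b (a (l 16575384) (c (l 16594464) (l 16588024))) (a (l 16563248) (c (l 16561536) (l 16575880)))))) (b (l 16593408) (b (l 16580584) (l 16568304)))) (c (b (b (c (l 16624280) (l 16599232)) (c (l 16598376) (l 16593576))) (a (c (b (l 16644568) (l 16612704)) (b (l 16592616) (c (l 16608584) (l 16573224)))) (c (b (l 16644520) (c (l 16659832) (l 16652648))) (l 16591848)))) (c (b (b (l 16603248) (l 16576112)) (c (a (l 133848201127) (b (l 16618008) (l 16585040))) (l 16558408))) (b (l 16618736) (l 16578936))))) (c (b (a (c (l 16643064) (a (l 16635152) (l 16615544))) (l 16622704)) (a (c (b (l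 16681168) (l 16649552)) (b (c (l 16639136) (l 16629864)) (a (l 16634448) (l 16633832)))) (b (l 16696352) (l 16664528)))) (b (a (c (b (l 16622368) (l 16616712)) (a (l 16637992) (l 16611096))) (c (b (l 16609760) (l 16635208)) (c (l 16635648) (l 16615568)))) (a (c (b (l 16587256) (b (l 16599888) (l 16577608))) (b (l 16612760) (a (l 16613304) (l 16607656)))) (c (b (l 16633544) (a (l 16635480) (l 16654944))) (b (l 16610776) (a (l 16606816) (l 16652632)))))))) (c (b (a (l 16563336) (b (l 16618312) (l 16612096))) (a (b (l 16592312) (l 16579856)) (a (l 16604112) (a (l 16644568) (b (l 16643776) (l 16631584)))))) (b (b (l 16591392) (l 16584808)) (b (l 16575440) (l 16541888))))) (c (b (b (l 16590424) (l 16583632)) (b (l 16574008) (b (l 16585720) (l 16557536)))) (b (l 16564976) (b (l 16572080) (l 16537832))))), by decide +kernel⟩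

def k13_pp_012_a : ∃ t, chk3 f_pp_012_a t 125 14 1 = true :=
  ⟨(c (a (c (b (c (b (l 16523648) (l 16550616)) (b (a (c (l 16514560) (l 16516080)) (l 16507376)) (a (l 16481312) (l 16533872)))) (c (l 16531344) (a (c (l 16548696) (a (l 16537280) (l 16520768))) (l 16572224)))) (b (c (b (c (a (l 16528960) (l 16504160)) (a (l 16537248) (l 16515536))) (a (l 16497280) (c (l 16530712) (l 16542728)))) (b (l 16529768) (l 16557808))) (c (c (a (b (l 16554784) (l 16577440)) (a (l 16555448) (l 16559424))) (a (l 16554088) (l 16519216))) (a (l 16596176) (l 16569744))))) (c (b (b (l 16503896) (l 16500040)) (l 16507512)) (b (c (b (a (c (l 16492648) (l 16492168)) (l 16485248)) (a (c (l 16514520) (l 16514136)) (l 16498848))) (b (c (a (l 16458024) (l 16479968)) (a (l 16508696) (l 16444448))) (a (c (l 16459488) (l 16531640)) (c (l 16493456) (l 16479272))))) (c (a (c (l 16543768) (l 16501560)) (l 16523008)) (c (a (a (l 16566048) (l 16543744)) (l 16496472)) (a (l 16562472) (a (l 16537896) (l 16516064)))))))) (b (b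 (c (l 16513832) (l 16510904)) (c (l 16472256) (l 16532544))) (c (a (l 16560216) (l 16546952)) (l 16508992)))), by decide +kernel⟩

def k14_pp_012_a : ∃ t, chk3 f_pp_012_a t 125 15 1 = true :=
  ⟨(c (c (b (a (c (l 16597912) (a (c (l 16614840) (b (l 16584016) (l 16609176))) (l 16615184))) (b (l 16580128) (l 16584008))) (a (c (b (l 16660872) (l 16679816)) (a (c (l 16651864) (b (l 16617112) (a (l 16657744) (l 16680592)))) (l 16610040))) (b (l 16591600) (l 16603232)))) (a (c (b (a (c (c (l 16608544) (l 16596904)) (l 16623088)) (c (b (l 16578992) (l 16582896)) (b (l 16592976) (c (l 16614944) (l 16602832))))) (a (c (b (l 16634456) (c (l 16649128) (l 16636880))) (b (l 16662992) (l 16629824))) (c (b (l 16611512) (a (l 16652144) (l 16654120))) (b (l 16605944) (a (l 16655408) (l 16670184)))))) (b (l 16587768) (b (l 16652408) (l 16620944)))) (a (b (c (c (l 16585808) (b (l 16573720) (l 16577336))) (c (a (l 16568120) (l 16544624)) (l 16585784))) (c (c (l 16621896) (b (l 16584696) (a (l 16624584) (l 16627472))))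 (c (c (a (l 16603856) (l 16618992)) (b (l 16603256) (l 16636616))) (l 16603456)))) (c (b (l 16564848) (l 16600736)) (b (c (a (l 16544872) (l 16549552)) (a (l 16560208) (l 16516256))) (c (b (l 16578632) (a (l 16617784) (l 16621632))) (a (b (l 16623008) (l 16614144)) (b (l 16578144) (l 16589616))))))))) (b (c (b (l 16544936) (l 16550120)) (l 16556280)) (a (b (l 16652176) (b (l 16665240) (l 16658048))) (c (b (l 16591848) (l 16604568)) (l 16586776))))), by decide +kernel⟩

def k15_pp_012_a : ∃ t, chk3 f_pp_012_a t 63 7 2 = true :=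
  ⟨(b (b (a (c (b (a (l 16476472) (l 16430792)) (l 16452464)) (a (b (c (l 16467736) (a (c (l 16467312) (l 16464728)) (l 16452088))) (c (l 16470144) (a (l 16470952) (l 16449752)))) (b (l 16422680) (l 16417992)))) (b (c (l 16348016) (l 16341856)) (l 16339112))) (a (c (a (l 16502232) (l 16448304)) (a (c (l 16492968) (a (l 16430568) (l 16472072))) (l 16439864))) (c (l 16362136) (l 16356016)))) (a (c (b (a (l 16543936) (l 16488344)) (b (l 16492512) (a (l 16595344) (b (l 16550216) (l 16549048))))) (a (b (c (l 16534488) (a (c (l 16534984) (l 16469336)) (l 16512952))) (c (b (l 16574832) (l 16606832)) (a (c (l 16591152) (b (l 16551376) (l 16541304))) (l 16547920)))) (b (l 16417160) (b (l 16519408) (a (l 16565512) (l 16520016)))))) (b (c (l 16399240) (l 16330704)) (b (a (l 16464208) (b (l 16396760) (l 16423392))) (a (b (a (l 16502960) (l 16481512)) (l 16513496)) (c (l 16496768) (l 16493064))))))), by decide +kernel⟩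

def k16_pp_012_a : ∃ t, chk3 f_pp_012_a t 63 14 3 = true :=
  ⟨(a (c (a (b (c (b (a (c (a (l 16479848) (l 16464272)) (l 16476440)) (c (l 16445256) (l 16406984))) (c (a (l 16474032) (l 16442624)) (l 16398856))) (b (l 16463344) (l 16465744))) (c (c (a (a (l 16509392) (l 16488216)) (l 16464656)) (a (l 16504592) (a (l 16480560) (l 16460200)))) (l 16489080))) (c (b (b (l 16372576) (l 16409472)) (b (l 16423112) (l 16418864))) (b (b (c (a (l 16423760) (l 16395320)) (l 16348288)) (c (a (l 16418728) (l 16389824)) (l 16406024))) (c (a (l 16398720) (l 16411056)) (a (l 16445608) (l 16412216)))))) (b (b (l 16413576) (l 16434376)) (l 16457272))) (c (b (c (b (l 16336592) (l 16330560)) (a (b (l 16359016) (l 16353176)) (l 16260152))) (a (c (l 16379896) (a (l 16387648) (l 16361304))) (l 16320200))) (c (a (b (a (b (l 16326520) (l 16362648)) (c (b (l 16342328) (l 16336176)) (b (l 16340464) (l 16334256)))) (a (c (l 16383584) (l 16385544)) (c (l 16356648) (l 16312808)))) (b (b (l 16301232) (l 16294544)) (l 16314224)))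 (a (b (l 16308848) (l 16368912)) (c (b (a (b (a (l 16318472) (l 16305856)) (l 16285440)) (b (l 16284560) (l 16277592))) (a (a (l 16332072) (l 16319128)) (l 16297040))) (b (a (l 16307504) (b (a (l 16290784) (l 16275968)) (a (l 16283912) (l 16268864)))) (a (l 16324408) (a (l 16303648) (c (l 16288376) (l 16287672)))))))))), by decide +kernel⟩

def k17_pp_012_a : ∃ t, chk3 f_pp_012_a t 126 15 3 = true :=
  ⟨(c (a (c (b (c (a (a (l 16551936) (l 16487728)) (l 16484232)) (a (l 16547328) (c (l 16466552) (l 16514968)))) (a (c (c (a (l 16565960) (l 16561520)) (b (l 16585776) (l 16597424))) (l 16584408)) (c (b (l 16544896) (l 16555528)) (a (b (l 16563080) (l 16595416)) (b (l 16540904) (l 16530736)))))) (b (l 16531576) (l 16526536))) (a (c (b (c (l 16482960) (l 16477968)) (c (l 16538256) (b (l 16517264) (l 16548608)))) (b (c (a (l 16492456) (l 16451200)) (l 16486800)) (c (a (b (l 16532608) (l 16564576)) (b (l 16511600) (l 16501112))) (l 16543304)))) (c (b (l 16458144) (b (l 16497248) (l 16531456))) (b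 (c (l 16450552) (a (l 16462224) (l 16443224))) (c (b (l 16489464) (b (l 16512280) (l 16491696))) (a (b (l 16501816) (l 16513232)) (b (l 16482176) (c (l 16514456) (l 16455832))))))))) (b (l 16457320) (b (l 16519304) (a (l 16604184) (l 16481328))))), by decide +kernel⟩

def k18_pp_012_a : ∃ t, chk3 f_pp_012_a t 127 15 3 = true :=
  ⟨(c (b (a (c (l 16418752) (a (l 16405888) (l 16399840))) (l 16357312)) (a (b (c (l 16457112) (a (l 16465560) (l 16438008))) (a (c (l 16494400) (b (l 16447320) (b (l 16469336) (l 16537648)))) (b (l 16473080) (l 16523448)))) (b (l 16383432) (l 16489064)))) (a (c (b (a (c (c (l 16421776) (l 16423152)) (l 16425200)) (c (l 16395144) (c (l 16392616) (l 16393256)))) (a (b (c (a (l 16468872) (l 16452640)) (l 16464344)) (c (b (a (l 16491704) (l 16476520)) (a (l 16480384) (l 16517048))) (l 16508440))) (c (b (l 16433328) (b (l 16466808) (l 16517624))) (b (a (l 16438560) (l 16423000)) (a (c (l 16450240) (l 16495160)) (c (l 16486256) (l 16487240))))))) (b (l 16408312) (b (l 16447304)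 (l 16460152)))) (b (c (a (l 16366680) (l 16337144)) (a (c (a (l 16370184) (c (l 16356144) (l 16355168))) (l 16362536)) (c (l 16334176) (a (l 16341232) (c (l 16325376) (l 16324752)))))) (c (b (a (a (l 16412048) (l 16400592)) (l 16386984)) (a (l 16445032) (l 16483376))) (a (c (b (a (l 16408880) (c (l 16397200) (l 16396280))) (a (l 16484488) (c (l 16483392) (l 16482640)))) (b (l 16403560) (l 16483984))) (c (b (l 16384264) (l 16481240)) (b (a (c (l 16386240) (l 16385248)) (c (l 16377328) (l 16313904))) (a (l 16440520) (c (l 16479448) (l 16458192)))))))))), by decide +kernel⟩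

theorem s19_pp_012_a : ∃ t, chk3 f_pp_012_a t 63 15 3 = true := ex3_a k17_pp_012_a k18_pp_012_a

theorem s20_pp_012_a : ∃ t, chk3 f_pp_012_a t 63 7 3 = true := ex3_b k16_pp_012_a s19_pp_012_a

theorem s21_pp_012_a : ∃ t, chk3 f_pp_012_a t 63 7 1 = true := ex3_c k15_pp_012_a s20_pp_012_a

theorem s22_pp_012_a : ∃ t, chk3 f_pp_012_a t 125 7 1 = true := ex3_b k13_pp_012_a k14_pp_012_a

theorem s23_pp_012_a : ∃ t, chk3 f_pp_012_a t 124 7 1 = true := ex3_b k11_pp_012_a k12_pp_012_a

theorem s24_pp_012_a : ∃ t, chk3 f_pp_012_a t 62 7 1 = true := ex3_a s23_pp_012_a s22_pp_012_a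

theorem s25_pp_012_a : ∃ t, chk3 f_pp_012_a t 31 7 1 = true := ex3_a s24_pp_012_a s21_pp_012_a

theorem s26_pp_012_a : ∃ t, chk3 f_pp_012_a t 31 6 1 = true := ex3_a k9_pp_012_a k10_pp_012_a

theorem s27_pp_012_a : ∃ t, chk3 f_pp_012_a t 31 3 1 = true := ex3_b s26_pp_012_a s25_pp_012_a

theorem s28_pp_012_a : ∃ t, chk3 f_pp_012_a t 30 7 1 = true := ex3_b k7_pp_012_a k8_pp_012_a

theorem s29_pp_012_a : ∃ t, chk3 f_pp_012_a t 30 3 1 = true := ex3_b k6_pp_012_a s28_pp_012_a

theorem s30_pp_012_a : ∃ t, chk3 f_pp_012_a t 15 3 1 = true := ex3_a s29_pp_012_a s27_pp_012_a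

theorem s31_pp_012_a : ∃ t, chk3 f_pp_012_a t 31 2 1 = true := ex3_a k4_pp_012_a k5_pp_012_a

theorem s32_pp_012_a : ∃ t, chk3 f_pp_012_a t 15 2 1 = true := ex3_a k3_pp_012_a s31_pp_012_a

theorem s33_pp_012_a : ∃ t, chk3 f_pp_012_a t 15 1 1 = true := ex3_b s32_pp_012_a s30_pp_012_a

theorem s34_pp_012_a : ∃ t, chk3 f_pp_012_a t 7 1 1 = true := ex3_a k2_pp_012_a s33_pp_012_a

theorem s35_pp_012_a : ∃ t, chk3 f_pp_012_a t 3 1 1 = true := ex3_a k1_pp_012_a s34_pp_012_a

theorem s36_pp_012_a : ∃ t, chk3 f_pp_012_a t 1 1 1 = true := ex3_a k0_pp_012_a s35_pp_012_a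

theorem c_pp_012_a : CertNX 0 536870912 0 420477299 1046898278 26843546 3 false true true .pnp 0 1 2
    ndN0q0 ndN2q2a pcN1 Cut.none Ext.none :=
  certNX2 (fam := false) (s1 := true) (s2 := true) (a := 0) (b := 1) (c := 2) (cn := .pnp) (n1 := ndN0q0) (n2 := ndN2q2a) (pc := pcN1) (cut := Cut.none) (xt := Ext.none) (P1 := 0) (W1 := 536870912) (P2 := 0) (W2 := 420477299) (P3 := 1046898278) (W3 := 26843546) (N0 := 3)
    rfl (fun _ => rfl) s36_pp_012_a

noncomputable def f_pp_012_b : ℕ → ℕ → ℕ → ℕ → Bool := onCell 536870912 536870912 1239849684 370763052 1046898278 26843546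
    (rowNX 3 2 false true true .pnp 0 1 2 (qsf 0 536870912 1239849684 370763052 1) ndN0q0 ndN2q2b pcN1 Cut.none Ext.none)

def k0_pp_012_b : ∃ t, chk3 f_pp_012_b t 2 1 1 = true :=
  ⟨(l 3), by decide +kernel⟩

def k1_pp_012_b : ∃ t, chk3 f_pp_012_b t 6 2 1 = true :=
  ⟨(a (l 3) (a (l 3) (a (b (b (c (c (l 170892040983) (l 16473480)) (b (l 16491344) (l 16609864))) (l 3)) (l 3)) (b (b (c (b (a (l 16445408) (l 16551248)) (a (l 16620576) (l 16659608))) (b (a (l 16498936) (l 16543776)) (l 16572544))) (c (b (l 16639088) (l 16739024)) (b (l 16701192) (l 16737680)))) (c (b (l 16741120) (l 16742768)) (b (l 16739848) (l 16741560))))))), by decide +kernel⟩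

def k2_pp_012_b : ∃ t, chk3 f_pp_012_b t 14 2 1 = true :=
  ⟨(b (a (b (c (c (a (l 16535752) (l 16493568)) (a (l 16555960) (l 16511528))) (c (a (l 16555192) (l 16529448)) (a (l 16554392) (l 16526352)))) (b (a (c (l 16610776) (l 16605368)) (c (l 16437448) (l 16425904))) (c (l 16405312) (l 16458096)))) (b (a (c (b (l 16431112) (l 16342960)) (l 16185264)) (c (b (b (a (l 16338944) (l 16295872)) (l 16241936)) (l 16171384)) (b (b (a (l 16325520) (l 16281096)) (l 16224720)) (l 16151184)))) (c (b (a (l 16261640) (l 16085416)) (a (l 16223168) (l 16044296))) (b (l 16005192) (l 16110384))))) (a (c (b (l 16369464) (l 16419352)) (b (l 16380512) (l 16430680))) (a (c (l 16231968) (l 16212792)) (c (l 16051712) (l 16026200))))), by decide +kernel⟩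

def k3_pp_012_b : ∃ t, chk3 f_pp_012_b t 30 2 1 = true :=
  ⟨(b (a (b (b (c (a (b (l 16272128) (l 16133520)) (l 16171312)) (a (l 16039576) (l 16152456))) (c (a (l 16032008) (l 15813664)) (a (l 16006896) (l 15911176)))) (c (b (l 15888656) (l 15844160)) (b (l 15857824) (l 15811368)))) (b (a (b (c (l 16156376) (l 16137408)) (c (b (l 15921840) (l 15815648)) (b (l 15893352) (l 15782792)))) (c (a (b (l 16154544) (b (l 15913872) (l 15770816))) (c (b (l 16044160) (l 15684656)) (l 15765736))) (b (l 16141496) (b (l 15889936) (l 15737728))))) (c (a (b (l 15738768) (l 15691400)) (b (c (a (l 15683264) (l 15653400)) (l 15649296)) (c (l 15619840) (l 15599480)))) (b (a (l 15702680) (l 15620000)) (l 15505560))))) (a (c (b (l 15846344) (l 15849576)) (b (l 15813632) (l 15816968))) (a (c (b (l 15691480) (l 15691640)) (l 15653416)) (c (c (b (l 15619384) (l 15618752)) (l 15598664)) (l 15567736))))), by decide +kernel⟩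

def k4_pp_012_b : ∃ t, chk3 f_pp_012_b t 62 4 1 = true :=
  ⟨(c (b (a (c (b (c (a (c (l 16023576) (l 16079624)) (a (l 16094328) (l 16203000))) (a (l 16178512) (c (a (l 16190936) (l 16200032)) (l 16085128)))) (c (a (c (l 15872688) (l 15864024)) (l 15773240)) (a (l 15855544) (c (l 15703016) (l 15863256))))) (b (l 16114352) (l 15847904))) (a (c (c (l 15831104) (b (l 15994696) (l 15812680))) (c (c (a (b (l 16196264) (l 15865640)) (b (l 16204264) (l 15872256))) (b (l 16090912) (l 15862696))) (l 15790304))) (c (b (l 16211960) (l 15881496)) (c (b (l 16061976) (l 15873528)) (b (c (a (l 16118560) (l 16208920)) (a (l 16198128) (l 16121432))) (c (a (l 15865456) (l 15870448)) (l 15716184))))))) (b (a (c (a (c (a (l 15640592) (c (l 15638392) (l 15627288))) (l 15622792)) (c (b (l 15656688) (l 15579760)) (a (b (l 15641424) (l 15571664)) (b (l 15641544) (l 15559024))))) (b (l 15633960) (l 15561472))) (a (c (c (l 15599568) (b (l 15641808) (l 15536576))) (c (a (b (l 15627168) (l 15528024)) (b (l 15631696)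 (l 15516584))) (l 15565928))) (c (l 15581856) (c (b (l 15634568) (l 15502112)) (b (c (l 15627008) (l 15620920)) (a (l 15492296) (l 15484288))))))) (a (c (c (a (l 15585032) (l 15554696)) (a (l 15567736) (l 15519736))) (l 15535504)) (c (c (l 15498584) (l 15383584)) (c (a (l 15495376) (l 15461640)) (a (l 15480376) (l 15449048))))))) (b (c (b (l 16053808) (l 15840600)) (b (l 16171168) (l 15825440))) (b (c (a (l 15580248) (l 15549064)) (l 15551232)) (c (l 15480424) (l 15457896))))), by decide +kernel⟩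

def k5_pp_012_b : ∃ t, chk3 f_pp_012_b t 63 4 1 = true :=
  ⟨(c (b (a (c (b (l 16162760) (l 15890480)) (c (b (l 16137160) (l 15880952)) (a (c (l 15894912) (b (l 16150344) (l 15870704))) (l 15795904)))) (b (l 16117296) (l 15898376))) (a (b (c (l 15577016) (a (c (l 15561432) (a (l 15552840) (l 15550864))) (l 15556488))) (c (l 15425328) (a (l 15418512) (l 15385312)))) (b (l 15572784) (b (l 15376072) (l 15342792))))) (a (c (a (b (c (c (a (b (l 16124376) (l 15864784)) (l 15787488)) (b (l 15998720) (l 15799552))) (l 15901992)) (b (c (c (a (l 15544040) (l 15544240)) (l 15434152)) (l 15529984)) (c (l 15338840) (l 15388304)))) (b (c (b (l 16093504) (l 15871000)) (c (a (b (l 16130512) (l 15864360)) (l 15852784)) (b (l 16067984) (l 15862224)))) (c (b (l 15541928) (l 15368136)) (b (c (l 15450744) (l 15529008)) (a (l 15363312) (l 15347632)))))) (b (l 15772488) (b (l 15516008) (l 15354640)))) (c (b (a (a (b (l 16036352) (l 15830712)) (l 15820104)) (l 15848000)) (b (c (l 15547680) (l 15327912)) (a (c (l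 15340024) (l 15328056)) (l 15312264)))) (b (a (c (a (b (l 16094104) (l 15862400)) (c (l 15876760) (a (l 15852096) (l 15812480)))) (l 15972512)) (c (b (l 16170392) (l 15871712)) (c (a (b (l 16060144) (l 15864528)) (l 15922720)) (a (l 16020216) (b (l 15980096) (l 15781128)))))) (a (b (c (a (l 15524272) (c (l 15528928) (l 15523792))) (l 15514616)) (c (a (l 15320416) (c (l 15310616) (l 15304360))) (l 15302856))) (c (b (l 15529560) (l 15293408)) (b (a (l 15517848) (c (l 15522984) (l 15517784))) (a (c (l 15286448) (l 15280096)) (c (l 15276784) (l 15270320)))))))))), by decide +kernel⟩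

def k6_pp_012_b : ∃ t, chk3 f_pp_012_b t 31 5 1 = true :=
  ⟨(c (a (c (a (c (a (b (l 15585472) (l 15586176)) (l 15556224)) (a (l 15567696) (b (l 15541312) (l 15542256)))) (b (c (l 15499240) (l 15489192)) (l 15495024))) (a (l 15535664) (c (a (b (l 15496128) (l 15497296)) (l 15463408)) (a (l 15481168) (b (l 15449928) (l 15451304)))))) (c (b (l 15390392) (l 15391880)) (a (c (l 15408176) (b (l 15396344) (l 15397880))) (l 15332144)))) (a (c (l 15481024) (l 15458496)) (c (a (c (a (b (l 15402744) (l 15404296)) (l 15367488)) (a (l 15389808) (b (l 15354608) (l 15356304)))) (c (l 15313456) (l 15301056))) (a (l 15354064) (c (a (c (l 15288656) (l 15303376)) (l 15270024)) (a (l 15293696) (b (a (l 15264912) (l 15246680)) (l 15257856)))))))), by decide +kernel⟩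

def k7_pp_012_b : ∃ t, chk3 f_pp_012_b t 3 3 1 = true :=
  ⟨(a (b (l 3) (l 2)) (a (a (b (c (b (l 16405336) (l 16453040)) (a (l 16591784) (l 16417304))) (l 2)) (c (b (a (l 16248160) (l 16065456)) (a (l 16267656) (l 16082256))) (b (b (l 16129816) (l 16138320)) (l 197667407143)))) (a (a (b (c (l 15855280) (l 15822872)) (c (l 15864232) (l 15832128))) (c (b (a (l 15691920) (l 15607344)) (a (l 15692360) (l 15605488))) (b (l 15609432) (l 15608656)))) (c (a (c (a (b (c (a (l 15587440) (l 15559232)) (l 15558048)) (c (l 15575152) (l 15559864))) (b (l 15496944) (l 15500040))) (a (l 15536272) (b (c (a (l 15499408) (l 15466904)) (l 15469312)) (c (l 15486392) (l 15472552))))) (b (c (l 15394616) (a (l 15405976) (l 15336224))) (c (l 15399040) (l 15376312)))) (a (b (l 15471104) (l 15472656)) (a (c (b (c (a (l 15407096) (l 15371304)) (l 15376184)) (c (l 15392240) (l 15380608))) (l 15359672)) (c (b (l 15311632) (l 15317192)) (b (c (a (l 15310304) (l 15274624)) (l 15237336)) (a (l 15307856) (l 15273736)))))))))),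 by decide +kernel⟩

theorem s8_pp_012_b : ∃ t, chk3 f_pp_012_b t 31 4 1 = true := ex3_a k4_pp_012_b k5_pp_012_b

theorem s9_pp_012_b : ∃ t, chk3 f_pp_012_b t 31 2 1 = true := ex3_b s8_pp_012_b k6_pp_012_b

theorem s10_pp_012_b : ∃ t, chk3 f_pp_012_b t 15 2 1 = true := ex3_a k3_pp_012_b s9_pp_012_b

theorem s11_pp_012_b : ∃ t, chk3 f_pp_012_b t 7 2 1 = true := ex3_a k2_pp_012_b s10_pp_012_b

theorem s12_pp_012_b : ∃ t, chk3 f_pp_012_b t 3 2 1 = true := ex3_a k1_pp_012_b s11_pp_012_b

theorem s13_pp_012_b : ∃ t, chk3 f_pp_012_b t 3 1 1 = true := ex3_b s12_pp_012_b k7_pp_012_b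

theorem s14_pp_012_b : ∃ t, chk3 f_pp_012_b t 1 1 1 = true := ex3_a k0_pp_012_b s13_pp_012_b

theorem c_pp_012_b : CertNX 0 536870912 1239849684 370763052 1046898278 26843546 3 false true true .pnp 0 1 2
    ndN0q0 ndN2q2b pcN1 Cut.none Ext.none :=
  certNX2 (fam := false) (s1 := true) (s2 := true) (a := 0) (b := 1) (c := 2) (cn := .pnp) (n1 := ndN0q0) (n2 := ndN2q2b) (pc := pcN1) (cut := Cut.none) (xt := Ext.none) (P1 := 0) (W1 := 536870912) (P2 := 1239849684) (W2 := 370763052) (P3 := 1046898278) (W3 := 26843546) (N0 := 3)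
    rfl (fun _ => rfl) s14_pp_012_b

end Pool.Agent.Strip051.G.IE1.Tab.C.NB02

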