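import Pool.Agent.Strip051.G.IE1.Tab

/-! # Certificates N47 (generated) -/

set_option linter.all false
set_option maxRecDepth 100000

namespace Pool.Agent.Strip051.G.IE1.Tab.C.NB02

open Pool.Agent.Strip051.PB Pool.Agent.Strip051.PB.T
open Pool.Agent.Strip051.G.IE1.Tab

noncomputable def f_pp_022_a : ℕ → ℕ → ℕ → ℕ → Bool := onCell 0 536870912 0 420477299 1046898278 26843546
    (rowNX 3 0 false true true .pp 0 2 2 (qsf 0 536870912 0 420477299 2) ndN0q0 ndN2q2a pcN2 Cut.none Ext.none)

def k0_pp_022_a : ∃ t, chk3 f_pp_022_a t 8 4 1 = true :=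
  ⟨(a (c (a (a (l 15753920) (b (l 15936176) (b (l 16010600) (l 15991264)))) (b (c (l 16051736) (l 16022024)) (c (l 15999192) (a (l 16020232) (l 15993072))))) (a (c (a (l 15755056) (b (a (l 15934080) (l 15979168)) (a (l 15938120) (b (l 16058928) (l 16033096))))) (a (c (l 15622632) (b (a (l 15629288) (l 15771472)) (a (l 15524160) (l 15834728)))) (b (a (c (l 15928904) (l 15926624)) (l 15870496)) (a (c (b (l 15943816) (c (l 16003632) (l 16002824))) (l 15973632)) (b (l 16054976) (l 16028552)))))) (b (c (a (c (l 16083280) (l 16061408)) (l 16005904)) (l 16043992)) (c (a (c (l 16029432) (l 15965040)) (l 15824504)) (l 15987944))))) (c (a (a (c (l 15992976) (c (l 15870568) (b (l 16026592) (l 15907616)))) (c (c (l 15986616) (b (l 16027576) (l 15971384))) (c (b (l 15998400) (l 15815784)) (l 15927552)))) (c (a (c (b (l 16007248) (l 15950392)) (b (l 15928208) (a (l 15931480) (l 15873320)))) (c (b (l 15858040) (c (l 15871296) (l 15848616))) (l 15860496))) (l 15870688))) (b (l 15926064) (l 15824496)))), by decide +kernel⟩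

def k1_pp_022_a : ∃ t, chk3 f_pp_022_a t 8 10 1 = true :=
  ⟨(a (c (a (a (b (l 15913400) (a (l 15976896) (l 16037640))) (b (l 16019632) (l 16012176))) (c (l 15956072) (a (l 15976896) (l 15948064)))) (a (a (c (b (l 15897456) (l 15962512)) (a (c (l 15889344) (a (l 15852256) (b (l 15852264) (l 15751528)))) (c (b (l 15962576) (l 16024144)) (b (l 15804048) (a (l 15953328) (l 16031512)))))) (c (a (l 16018000) (l 16007712)) (a (c (c (l 16022504) (l 15916888)) (l 16012256)) (l 16002496)))) (c (a (c (l 15985304) (l 15920376)) (c (l 15890608) (l 15927048))) (l 15941584)))) (c (c (a (c (l 15913992) (a (l 15929872) (l 15924048))) (c (a (l 15860184) (a (c (l 15864744) (l 15814136)) (l 15790472))) (a (c (l 15789400) (l 15832712)) (l 15782840)))) (a (a (c (l 15945280) (l 15797800)) (c (a (l 15913184) (l 15859040)) (l 15852392))) (l 15792744))) (a (l 15858912) (l 15771720)))), by decide +kernel⟩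

def k2_pp_022_a : ∃ t, chk3 f_pp_022_a t 16 11 1 = true :=
  ⟨(c (a (b (a (l 16044568) (l 16000824)) (c (b (l 15876264) (l 15928800)) (b (l 15930344) (l 15918360)))) (a (b (b (l 15962928) (c (l 15947544) (l 15951128))) (c (l 15827480) (l 15850024))) (b (c (b (l 15920784) (l 15906528)) (c (l 15923192) (a (l 15947008) (l 15918664)))) (c (l 15812776) (c (l 15824600) (l 15702496)))))) (a (b (c (a (l 16032096) (l 15997080)) (a (c (l 16029248) (a (a (l 15970184) (l 16035576)) (l 16015008))) (c (a (l 16001688) (l 15989720)) (l 15988184)))) (c (a (l 15962896) (c (l 15922296) (l 15885344))) (a (c (l 15959352) (a (c (l 15993256) (b (l 16024216) (l 15948304))) (c (l 15919256) (l 15960432)))) (c (a (c (l 15941592) (l 15940344)) (l 15912016)) (l 15914048))))) (c (b (a (c (l 15961928) (c (l 15904936) (l 15957280))) (c (c (a (l 15957040) (l 15918384)) (l 15815504)) (l 15898464))) (a (c (l 15876648) (a (l 15811064) (l 15859512))) (c (c (l 15770896) (l 15818936)) (l 15796544)))) (b (b (l 15924688) (l 15909448)) (l 15821376))))),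 by decide +kernel⟩

def k3_pp_022_a : ∃ t, chk3 f_pp_022_a t 17 11 2 = true :=
  ⟨(a (c (b (a (b (l 15905016) (b (l 15896192) (a (l 15877472) (l 15846056)))) (a (b (l 15897152) (a (b (l 15895448) (l 15865072)) (l 15882656))) (b (l 15897736) (c (l 15872000) (l 15829952))))) (a (a (b (l 15820768) (a (l 15748464) (b (l 15761136) (l 15726448)))) (b (a (b (l 15830168) (l 15794152)) (l 15811608)) (l 15746072))) (c (l 15774192) (a (l 15799664) (c (l 15799368) (l 15771456)))))) (a (b (c (b (l 15927792) (a (l 15922768) (b (l 15918216) (a (l 15905584) (l 15886568))))) (b (l 15884912) (a (c (l 15921368) (l 15885744)) (b (l 15868400) (l 15799312))))) (a (c (b (l 15856400) (a (l 15780576) (l 15783856))) (b (l 15840776) (a (l 15692688) (c (l 15770120) (l 15725392))))) (c (b (a (b (l 15868200) (l 15831608)) (l 15832752)) (l 15768496)) (b (a (c (l 15805320) (l 15779736)) (l 15771600)) (l 15717088))))) (b (b (c (a (l 15894880) (l 15840216)) (l 15833568)) (c (a (a (c (l 15883032) (l 15852184)) (l 15752720)) (l 15809832))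 (b (l 15819280) (l 15787792)))) (c (c (a (l 15784648) (l 15724080)) (l 15682640)) (l 15707792))))) (a (c (b (c (b (a (l 15903616) (c (l 15896968) (l 15859072))) (a (l 15870680) (l 15836224))) (b (a (c (l 15876568) (l 15827744)) (l 15801680)) (a (c (l 15842920) (l 15793896)) (l 15764456)))) (c (a (l 15766216) (c (l 15785656) (l 15747144))) (c (a (l 15758960) (l 15696344)) (a (l 15709480) (l 15676208))))) (b (b (l 15790408) (l 15756560)) (l 15611400))) (c (c (b (a (c (l 15739568) (b (l 15790552) (l 15751944))) (b (c (l 15772544) (l 15753056)) (l 15726616))) (c (a (l 15736000) (l 15674312)) (a (l 15684632) (l 15654280)))) (b (b (l 15757472) (l 15719016)) (l 15654936))) (b (b (l 15746128) (l 15707200)) (l 15642072))))), by decide +kernel⟩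

def k4_pp_022_a : ∃ t, chk3 f_pp_022_a t 17 11 3 = true :=
  ⟨(b (b (a (l 15839968) (b (l 15752840) (a (l 15704280) (l 15656848)))) (a (a (a (l 15854904) (b (l 15841096) (l 15813640))) (b (a (l 15774160) (l 15789920)) (l 15770056))) (c (a (l 15741656) (l 15691216)) (l 15680256)))) (a (a (a (b (l 15786520) (c (l 15654152) (l 15701568))) (b (a (l 15763648) (l 15750080)) (l 15686208))) (c (l 15695944) (l 15679968))) (c (a (l 15657720) (l 15624672)) (a (l 15640864) (l 15607032))))), by decide +kernel⟩

def k5_pp_022_a : ∃ t, chk3 f_pp_022_a t 9 4 1 = true :=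
  ⟨(a (a (c (b (l 15840232) (a (l 15790528) (l 15784680))) (b (l 15821880) (l 15759312))) (b (l 15940552) (l 15830064))) (a (b (l 16084408) (c (l 16016576) (l 15994424))) (b (c (l 16207672) (l 16192136)) (c (l 16099648) (l 16101424))))), by decide +kernel⟩

def k6_pp_022_a : ∃ t, chk3 f_pp_022_a t 36 5 1 = true :=
  ⟨(b (a (c (l 15739224) (l 15708648)) (a (l 15701640) (b (l 15738736) (b (l 15723744) (c (b (l 15731712) (l 15725608)) (l 15696040)))))) (c (b (a (c (b (b (l 15725168) (l 15711160)) (l 15681416)) (b (l 15702128) (l 15664808))) (a (c (b (l 15693440) (l 15660872)) (l 15640456)) (b (b (l 15716568) (a (l 15693360) (l 15708896))) (a (b (l 15678808) (c (l 15673984) (l 15656848))) (b (c (l 15703520) (l 15686920)) (l 15682144)))))) (a (c (b (l 15647280) (c (l 15623688) (l 15614760))) (b (l 15629912) (l 15601128))) (a (b (a (l 15621168) (b (l 15634768) (a (l 15618088) (l 15627392)))) (a (b (c (l 15612680) (l 15594360)) (c (l 15601840) (l 15583296))) (c (c (l 15618752) (l 15609864)) (l 15596040)))) (b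 (b (a (a (l 15648496) (l 15657064)) (l 15669600)) (l 15649104)) (c (l 15641152) (l 15623696)))))) (b (b (a (c (l 15686000) (l 15669656)) (a (l 15651584) (c (l 15684776) (l 15668096)))) (a (l 15639224) (a (l 15617216) (a (l 15595512) (b (l 15661544) (l 15647904)))))) (a (c (b (l 15612176) (l 15582744)) (l 15578336)) (a (b (a (l 15584824) (b (l 15598888) (l 15586200))) (a (b (l 15566352) (l 15554896)) (l 15567960))) (b (c (l 15628664) (l 15610736)) (l 15596240))))))), by decide +kernel⟩

def k7_pp_022_a : ∃ t, chk3 f_pp_022_a t 37 5 1 = true :=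
  ⟨(b (b (l 15820752) (b (l 15802944) (a (a (b (l 15747168) (b (l 15742704) (c (a (l 15747312) (l 15762280)) (a (l 15715784) (l 15731168))))) (c (c (l 15796376) (l 15781472)) (l 15758520))) (c (c (c (l 15844128) (l 15837080)) (l 15826288)) (l 15804352))))) (c (b (a (b (a (a (c (b (l 15745984) (l 15732288)) (l 15723056)) (l 15745808)) (c (l 15775768) (l 15760464))) (c (c (l 15740200) (l 15732632)) (l 15720504))) (c (c (l 15813064) (l 15806352)) (l 15795424))) (c (a (c (l 15707680) (l 15700632)) (c (l 15776448) (l 15770880))) (a (l 15688400) (c (l 15764424) (l 15756984))))) (b (a (a (b (c (l 15714464) (l 15698216)) (l 15679304)) (l 15724200)) (l 15772512)) (c (l 15707960) (l 15691144))))), by decide +kernel⟩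

def k8_pp_022_a : ∃ t, chk3 f_pp_022_a t 19 5 1 = true :=
  ⟨(c (b (b (a (l 15958304) (l 16054696)) (a (a (b (l 15907624) (c (l 15898768) (l 15885496))) (c (l 15963432) (c (l 15954424) (l 15948248)))) (c (a (l 16019544) (c (b (l 16047784) (l 16037216)) (l 16037520))) (a (c (l 16011232) (l 16005616)) (l 16029376))))) (a (a (c (b (l 15871632) (l 15843248)) (b (c (l 15862568) (l 15855904)) (c (l 15836008) (l 15830168)))) (c (b (l 15934176) (l 15892384)) (b (c (l 15926392) (l 15920808)) (l 15884152)))) (b (c (a (a (l 15981552) (l 16011016)) (c (l 16027368) (l 16022360))) (a (l 15987016) (c (l 16017560) (l 16012984)))) (a (c (c (a (l 15968800) (l 16003072)) (a (l 15964608) (l 15998568))) (c (l 15977816) (l 15974256))) (c (a (c (l 16018760) (l 16013752)) (b (l 16027240) (c (l 16034120) (l 16028696)))) (a (l 16007448) (c (l 16021160) (l 16016744)))))))) (b (b (a (l 15933600) (l 16032640)) (a (c (a (l 15878800) (l 15938752)) (l 15853584)) (c (a (c (l 15999864) (l 15993960)) (c (l 16021200) (l 16015560))) (l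 15912168)))) (a (a (c (b (l 15845208) (l 15819536)) (l 15815920)) (c (b (l 15911304) (l 15894568)) (l 15887824))) (c (b (a (c (l 15979728) (l 15974080)) (l 16006136)) (a (c (l 15970744) (l 15966184)) (c (l 16007240) (l 16003456)))) (a (l 15959360) (b (l 15995408) (l 15996448))))))), by decide +kernel⟩

def k9_pp_022_a : ∃ t, chk3 f_pp_022_a t 10 4 1 = true :=
  ⟨(a (b (c (l 16246576) (l 16231224)) (c (a (l 16141008) (l 16150416)) (l 16042592))) (l 1)), by decide +kernel⟩

def k10_pp_022_a : ∃ t, chk3 f_pp_022_a t 20 10 1 = true :=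
  ⟨(b (b (c (l 16079528) (l 16057192)) (a (a (l 16046232) (b (l 16052456) (b (l 16044824) (c (c (a (l 16057160) (l 16058624)) (a (l 16045672) (l 16047064))) (c (l 16013976) (l 16023152)))))) (a (c (c (l 16067912) (l 16056392)) (b (a (l 16041640) (a (l 16041792) (l 16042056))) (c (l 16019832) (a (l 16027336) (l 16029984))))) (l 1)))) (a (c (a (c (a (l 16044536) (b (l 16050224) (c (l 16048832) (l 16043240)))) (c (a (l 16036192) (l 16039864)) (l 16032624))) (c (a (b (c (l 16056320) (l 16050608)) (l 16052168)) (l 16058040)) (a (b (l 16041984) (l 16040784)) (b (l 16046040) (l 16047656))))) (c (a (c (l 16027152) (l 16021648)) (a (c (l 16033048) (l 16027472)) (c (l 16037808) (l 16032136)))) (a (l 16013088) (c (a (l 16021984) (l 16026568)) (l 16018832))))) (a (c (c (l 16067920) (l 16056368)) (c (a (l 16041200) (l 16048360)) (a (c (l 16032480) (b (l 16024776) (l 16029304))) (l 16036576)))) (l 1)))), by decide +kernel⟩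

def k11_pp_022_a : ∃ t, chk3 f_pp_022_a t 20 11 1 = true :=
  ⟨(b (a (c (a (c (a (b (l 16037224) (c (l 16039288) (l 16033832))) (b (c (l 16047816) (l 16042192)) (l 16047384))) (a (c (l 16028560) (l 16023456)) (b (l 16033968) (l 15994224)))) (c (l 16061784) (a (b (l 16042544) (l 16047792)) (l 16056000)))) (c (a (c (a (l 16018792) (l 16026880)) (l 16018208)) (a (c (l 16036272) (b (l 16028776) (l 16033672))) (l 16044456))) (a (c (l 16013304) (l 16008016)) (c (a (l 16025968) (l 16036056)) (a (l 16020888) (b (l 16026960) (l 16034912))))))) (a (c (c (l 16085504) (l 16074232)) (c (l 16062808) (c (l 16054144) (l 16048480)))) (l 1))) (a (c (a (c (a (b (c (l 16042488) (l 16036888)) (l 16047416)) (l 16058656)) (b (a (l 16028872) (l 16042288)) (c (l 16047384) (l 16041832)))) (c (l 16083288) (l 16072048))) (c (a (a (b (l 16019752) (c (l 16028160) (l 16023792))) (b (c (l 16033888) (l 16028848)) (l 16041800))) (c (l 16063528) (l 16057872))) (a (c (a (l 16016352) (b (l 16024504) (l 16034088))) (a (l 16011816) (l 16024408)))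 (a (b (c (l 16037376) (l 16032344)) (l 16048528)) (l 16058104))))) (l 1))), by decide +kernel⟩

def k12_pp_022_a : ∃ t, chk3 f_pp_022_a t 21 5 1 = true :=
  ⟨(l 1), by decide +kernel⟩

def k13_pp_022_a : ∃ t, chk3 f_pp_022_a t 11 2 1 = true :=
  ⟨(l 1), by decide +kernel⟩

def k14_pp_022_a : ∃ t, chk3 f_pp_022_a t 16 12 2 = true :=
  ⟨(a (c (b (l 15766376) (c (l 15653360) (l 15644976))) (b (l 15795376) (l 15590976))) (b (a (c (l 15711448) (l 15709912)) (a (c (b (l 15708904) (l 15591648)) (b (l 15724104) (l 15647216))) (c (b (a (l 15692376) (b (l 15700832) (l 15665120))) (a (b (l 15637272) (l 15604392)) (l 15617784))) (c (b (l 15704104) (a (l 15630280) (l 15636912))) (b (c (l 15728536) (l 15659448)) (a (l 15636888) (l 15651960))))))) (a (b (c (l 15596456) (l 15592528)) (a (c (l 15533368) (l 15520752)) (c (b (a (l 15530920) (l 15521896)) (a (l 15496360) (l 15493976))) (b (a (l 15524536) (l 15521152)) (a (l 15489256) (l 15492640)))))) (c (b (a (a (b (l 15582312) (l 15548576)) (l 15499176)) (l 15563040))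 (c (l 15513536) (l 15512280))) (a (b (a (b (l 15589624) (l 15555192)) (l 15576760)) (l 15520480)) (c (l 15552328) (c (l 15575568) (l 15568592)))))))), by decide +kernel⟩

def k15_pp_022_a : ∃ t, chk3 f_pp_022_a t 16 13 2 = true :=
  ⟨(a (b (b (c (l 15531392) (l 15512712)) (a (c (l 15482976) (l 15462704)) (a (c (l 15439392) (l 15418184)) (c (b (c (l 15436816) (l 15426184)) (a (b (l 15388024) (l 15372472)) (l 15378104))) (b (l 15390472) (a (l 15380088) (l 15378656))))))) (a (b (c (l 15405368) (l 15383504)) (a (c (l 15342504) (l 15319376)) (c (b (a (l 15341008) (b (l 15317024) (l 15303272))) (a (c (c (l 15296944) (l 15291040)) (l 15303120)) (c (l 15317696) (l 15305864)))) (b (a (l 15317832) (l 15308576)) (a (l 15285192) (l 15287960)))))) (b (a (c (b (a (l 15389272) (b (l 15364392) (l 15349216))) (a (b (l 15340704) (l 15326112)) (l 15333584))) (b (l 15362064) (a (l 15332216) (l 15331584)))) (c (c (l 15355408) (l 15365112)) (l 15349408))) (c (c (c (l 15325808) (l 15320024)) (l 15332272)) (c (l 15320584) (l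 15310088)))))) (b (a (b (a (c (b (a (l 15483688) (l 15472008)) (a (l 15448600) (l 15444624))) (b (l 15464584) (a (l 15431936) (l 15431752)))) (c (l 15459112) (l 15454560))) (c (c (l 15421560) (l 15413192)) (c (l 15407272) (l 15410872)))) (c (c (b (l 15474264) (l 15424816)) (b (l 15472576) (l 15443784))) (c (b (l 15481280) (l 15452160)) (a (l 15466952) (c (l 15500808) (l 15493424)))))) (c (c (a (b (l 15372312) (l 15356840)) (b (l 15408096) (l 15404128))) (a (b (l 15384600) (l 15368928)) (b (l 15426856) (l 15422800)))) (c (a (b (l 15378360) (l 15362496)) (b (l 15435024) (l 15430880))) (a (b (l 15381640) (l 15365576)) (a (l 15426776) (c (l 15472400) (l 15464832)))))))), by decide +kernel⟩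

def k16_pp_022_a : ∃ t, chk3 f_pp_022_a t 16 12 3 = true :=
  ⟨(a (c (c (l 15474336) (a (l 15728176) (b (l 15758784) (l 15594224)))) (a (c (l 15640360) (a (c (l 15734248) (l 15519528)) (c (l 15618696) (l 15700504)))) (c (c (a (l 15687064) (l 15642768)) (l 15435568)) (l 15657496)))) (c (a (b (c (l 15713960) (c (l 15654528) (l 15705552))) (c (a (l 15566096) (b (l 15581760) (a (l 15521352) (l 15484368)))) (a (l 15442456) (b (l 15578760) (a (c (l 15517640) (l 15489624)) (l 15488944)))))) (b (a (c (c (l 15659448) (a (l 15692112) (l 15657712))) (l 15653040)) (a (b (l 15694960) (c (c (l 15634800) (l 15602528)) (l 15595872))) (b (l 15579200) (l 15594936)))) (c (a (a (b (c (l 15600384) (l 15577296)) (l 15525952)) (c (l 15456640) (l 15522520))) (c (l 15543144) (l 15514784))) (b (a (l 15541680) (l 15532944)) (l 15483792))))) (b (a (l 15685152) (b (l 15666240) (a (l 15600576) (l 15579152)))) (a (b (l 15562872) (a (l 15495664) (l 15474816))) (b (a (l 15527424) (l 15518544)) (l 15468584)))))), by decide +kernel⟩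

def k17_pp_022_a : ∃ t, chk3 f_pp_022_a t 16 13 3 = true :=
  ⟨(a (c (b (a (l 15483160) (a (l 15443136) (b (l 15463344) (a (l 15352144) (b (c (l 15398160) (l 15400880)) (l 15371416)))))) (a (b (l 15361600) (a (l 15295944) (b (l 15290776) (l 15263760)))) (a (b (b (l 15345944) (a (l 15311152) (l 15315952))) (l 15289328)) (c (l 15325496) (b (l 15339528) (l 15313704)))))) (a (a (c (l 15316688) (c (l 15373384) (b (l 15472016) (l 15116104)))) (c (b (l 15457856) (b (l 15335296) (a (l 15263776) (l 15265896)))) (b (l 15419816) (b (l 15317000) (c (a (l 15213968) (l 15260472)) (l 15252576)))))) (b (a (c (c (l 15440112) (l 15436320)) (l 15422256)) (b (l 15446664) (c (a (l 15279168) (l 15296560)) (l 15362552)))) (b (c (a (c (a (l 15326856) (l 15325192)) (a (l 15326904) (l 15322512))) (l 15332464)) (a (l 15308864) (l 15312368))) (c (a (c (l 15284336) (l 15279752)) (l 15306344)) (l 15275224)))))) (c (a (b (c (a (b (b (l 15469568) (l 15437456)) (l 15401896)) (c (l 15449024) (l 15452184))) (a (b (c (a (l 15465848) (l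 15464328)) (a (l 15455936) (l 15436296))) (c (l 15410232) (l 15396384))) (c (l 15350192) (l 15410336)))) (c (c (l 15375888) (a (l 15360968) (l 15399416))) (c (a (l 15366240) (l 15339064)) (a (l 15352144) (l 15356968))))) (c (b (c (a (l 15472816) (l 15404664)) (a (l 15450672) (l 15438800))) (c (a (l 15432280) (c (l 15443808) (l 15419536))) (a (c (l 15415416) (l 15392936)) (l 15409832)))) (b (l 15426088) (l 15390912)))) (b (a (b (a (l 15379816) (l 15417920)) (l 15372984)) (l 15409952)) (c (b (l 15365312) (l 15354768)) (l 15347328))))), by decide +kernel⟩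

def k18_pp_022_a : ∃ t, chk3 f_pp_022_a t 34 12 2 = true :=
  ⟨(c (b (a (b (a (c (l 15673384) (l 15684048)) (l 15686024)) (l 15524968)) (c (l 15671064) (a (l 15690072) (c (l 15700728) (l 15672280))))) (c (a (b (l 15571512) (l 15533536)) (l 15599056)) (a (l 15547304) (a (l 15569920) (c (l 15633480) (l 15604656)))))) (a (b (c (a (b (l 15713536) (l 15654136)) (c (l 15694136) (l 15676536))) (a (b (c (l 15710400) (l 15673664)) (c (l 15650528) (l 15613480))) (l 15606480))) (c (a (l 15581472) (c (l 15604280) (l 15586200))) (c (a (l 15577280) (l 15544304)) (l 15429152)))) (c (b (c (a (l 15674176) (l 15624368)) (l 15493120)) (c (a (l 15595328) (l 15556360)) (a (l 15549824) (l 15535240)))) (b (l 15601320) (l 15526896))))), by decide +kernel⟩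

def k19_pp_022_a : ∃ t, chk3 f_pp_022_a t 35 12 2 = true :=
  ⟨(b (c (c (a (a (c (l 15699360) (l 15704568)) (c (l 15708760) (l 15669816))) (c (a (l 15669216) (l 15617504)) (a (l 15617472) (l 15597144)))) (a (c (a (l 15670832) (l 15618584)) (a (l 15620872) (l 15598024))) (l 15592280))) (c (a (l 15594392) (l 15583040)) (l 15536968))) (a (c (c (a (c (l 15643344) (l 15648240)) (c (l 15663088) (l 15623880))) (c (a (l 15614176) (l 15572368)) (a (l 15563888) (l 15551536)))) (c (l 15542232) (l 15532480))) (c (a (c (a (c (l 15648296) (l 15585816)) (b (l 15602896) (b (l 15596240) (c (l 15614816) (a (l 15568960) (l 15544088)))))) (b (l 15564168) (b (l 15556456) (l 15553584)))) (b (a (c (l 15588608) (l 15566432)) (b (l 15576736) (c (c (a (l 15583592) (l 15557216)) (l 15551056)) (l 15543848)))) (c (a (c (b (a (l 15597552) (l 15565592)) (l 15587560)) (b (l 15546384) (l 15562264))) (c (l 15571416) (l 15562232))) (a (b (l 15539144) (l 15554968)) (l 15555128))))) (b (a (l 15549744) (a (l 15551976) (b (l 15555864) (l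 15550296)))) (a (b (l 15541864) (a (l 15537472) (l 15540784))) (a (b (l 15545512) (l 15540256)) (l 15540408))))))), by decide +kernel⟩

def k20_pp_022_a : ∃ t, chk3 f_pp_022_a t 17 12 3 = true :=
  ⟨(a (b (c (a (b (a (l 15646584) (l 15631592)) (l 15581024)) (l 15587768)) (a (b (l 15621856) (l 15562632)) (l 15569496))) (c (c (a (l 15515600) (l 15517072)) (l 15505952)) (c (l 15496016) (l 15486000)))) (b (c (a (l 15571360) (l 15559536)) (a (l 15552640) (l 15540456))) (a (c (l 15517688) (l 15497744)) (b (a (l 15520360) (a (l 15522584) (b (l 15526576) (l 15499808)))) (c (a (b (l 15522152) (l 15519096)) (b (l 15524616) (l 15518872))) (a (l 15500120) (l 15459176))))))), by decide +kernel⟩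

def k21_pp_022_a : ∃ t, chk3 f_pp_022_a t 34 13 2 = true :=
  ⟨(c (b (c (a (b (l 15505440) (l 15488160)) (b (l 15569280) (l 15562872))) (a (b (l 15521696) (l 15504200)) (a (c (l 15566968) (l 15578744)) (c (l 15604432) (l 15575416))))) (a (c (b (l 15482632) (l 15489840)) (b (l 15498568) (l 15505792))) (a (b (c (l 15541632) (l 15571064)) (a (l 15558784) (b (c (l 15565792) (l 15594960)) (c (b (l 15573792) (a (l 15551536) (l 15563008))) (a (l 15602000) (c (l 15607200) (l 15594728))))))) (b (c (b (l 15591528) (a (l 15584872) (b (l 15610008) (l 15612952)))) (a (l 15553696) (b (l 15593336) (c (a (l 15605360) (l 15629200)) (l 15579712))))) (c (b (a (b (l 15591568) (l 15595096)) (l 15614160)) (b (l 15605384) (l 15605592))) (a (b (c (l 15617840) (a (l 15608368) (l 15603264))) (c (l 15622456) (l 15608096))) (c (c (l 15614120) (l 15627984)) (l 15583528)))))))) (b (c (a (a (l 15518712) (c (l 15552912) (l 15534528))) (c (a (l 15555008) (l 15484992)) (a (l 15509264) (l 15505616)))) (a (c (a (l 15514000) (l 15492344))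 (a (l 15476208) (l 15470640))) (l 15491496))) (a (c (a (b (l 15501064) (l 15505496)) (c (l 15547448) (b (l 15525264) (l 15535312)))) (c (a (b (l 15496168) (l 15500592)) (b (l 15483000) (l 15493064))) (a (l 15459144) (l 15464952)))) (a (c (b (c (l 15554104) (l 15508320)) (c (a (l 15576560) (b (l 15562312) (l 15571952))) (a (l 15522880) (b (l 15513888) (a (l 15522904) (l 15522504)))))) (b (l 15484176) (b (l 15494528) (a (l 15498904) (l 15510488))))) (b (c (a (l 15523152) (b (l 15520376) (a (l 15525616) (l 15526992)))) (b (l 15501952) (l 15508288))) (b (c (a (c (a (l 15548640) (l 15541568)) (l 15519272)) (l 15530504)) (a (l 15511672) (l 15517160))) (c (c (c (l 15552688) (l 15533944)) (l 15524736)) (l 15517152)))))))), by decide +kernel⟩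

def k22_pp_022_a : ∃ t, chk3 f_pp_022_a t 35 13 4 = true :=
  ⟨(b (a (a (c (b (l 15625752) (b (l 15625768) (a (l 15624256) (c (l 15640664) (a (l 15623208) (l 15643672)))))) (a (c (l 15607488) (l 15547272)) (b (l 15563840) (c (l 15587712) (a (l 15539584) (b (l 15536936) (l 15540280))))))) (c (b (a (l 15637056) (b (l 15628448) (c (a (l 15641760) (l 15658520)) (l 15601784)))) (a (b (c (a (l 15655184) (l 15641208)) (l 15628456)) (c (c (l 15634584) (l 15638840)) (l 15628440))) (c (b (a (l 15662224) (l 15655312)) (l 15652360)) (l 15598608)))) (b (a (l 15553560) (b (l 15528648) (a (l 15549440) (l 15548944)))) (b (a (c (a (l 15569752) (l 15561272)) (l 15519296)) (l 15485648)) (c (a (l 15566536) (l 15550136)) (l 15518984)))))) (c (a (b (c (a (b (l 15641888) (l 15638928)) (l 15607472)) (a (b (a (l 15583224) (l 15573624)) (l 15576880)) (a (l 15563136) (l 15557384)))) (c (l 15614688) (c (l 15571016) (l 15553464)))) (c (c (l 15572112) (l 15513480)) (l 15527048))) (b (a (b (a (l 15529976) (l 15551568)) (l 15526472))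 (l 15545952)) (l 15520016)))) (a (c (c (a (b (b (a (l 15621416) (l 15641440)) (l 15631064)) (l 15629152)) (c (l 15630592) (a (l 15632864) (l 15620056)))) (a (b (a (b (l 15637072) (l 15618544)) (b (l 15642512) (l 15620376))) (a (l 15618272) (l 15640880))) (b (l 15609184) (l 15608808)))) (a (b (a (b (a (l 15592000) (c (l 15612920) (l 15550384))) (c (l 15617848) (l 15557640))) (c (l 15590264) (c (l 15546456) (l 15514944)))) (c (l 15603696) (l 15553368))) (c (b (l 15558624) (c (l 15566144) (l 15548688))) (b (l 15537712) (l 15540200))))) (c (c (a (l 15608624) (c (b (l 15564688) (l 15566688)) (b (l 15527488) (l 15529688)))) (a (b (c (l 15566560) (l 15528896)) (c (l 15566792) (l 15529680))) (l 15543088))) (b (l 15518352) (l 15522072))))), by decide +kernel⟩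

def k23_pp_022_a : ∃ t, chk3 f_pp_022_a t 35 13 5 = true :=
  ⟨(b (a (b (a (l 15517088) (b (l 15528880) (a (l 15526072) (l 15531856)))) (a (b (l 15517008) (a (l 15516176) (l 15524240))) (b (a (l 15527840) (l 15509504)) (l 15527488)))) (b (a (b (a (l 15536200) (l 15536792)) (l 15511640)) (l 15531080)) (l 15505656))) (a (b (a (b (a (l 15521120) (l 15504472)) (l 15523848)) (l 15525168)) (l 15505144)) (c (c (l 15514864) (l 15510592)) (l 15503072)))), by decide +kernel⟩

def k24_pp_022_a : ∃ t, chk3 f_pp_022_a t 17 13 3 = true :=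
  ⟨(a (b (c (c (b (l 15476168) (l 15463704)) (b (l 15465848) (l 15453216))) (c (l 15447864) (l 15437304))) (a (c (c (l 15445672) (l 15434944)) (b (l 15416424) (l 15423744))) (b (c (a (l 15468552) (b (l 15486552) (l 15492936))) (a (l 15447488) (l 15468480))) (b (a (l 15468504) (a (c (l 15496344) (l 15475680)) (l 15491576))) (a (c (a (l 15483408) (l 15495128)) (l 15468032)) (c (l 15501848) (l 15481216))))))) (b (a (a (b (l 15486688) (c (b (l 15496784) (l 15499784)) (l 15477296))) (b (c (b (l 15508896) (l 15508744)) (l 15488080)) (b (a (c (l 15507744) (l 15487376)) (l 15500208)) (c (l 15507320) (l 15486872))))) (b (a (b (a (c (l 15516312) (l 15496136)) (l 15506760)) (l 15502408)) (l 15500768)) (c (l 15506368) (l 15485832)))) (b (a (a (b (a (c (l 15500880) (l 15480336)) (l 15494976)) (c (l 15503592) (l 15483032))) (l 15494568)) (c (l 15506096) (l 15485440))) (c (l 15509072) (l 15488432))))), by decide +kernel⟩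

def k25_pp_022_a : ∃ t, chk3 f_pp_022_a t 32 14 2 = true :=
  ⟨(b (b (a (c (b (a (a (l 15271416) (c (a (l 15270624) (b (l 15316136) (l 15287464))) (l 15259488))) (l 15275280)) (b (a (a (c (a (l 15274064) (l 15273160)) (l 15241184)) (l 15273912)) (c (l 15296136) (l 15284064))) (c (b (l 15261776) (l 15284536)) (l 15250536)))) (a (b (a (l 15268248) (l 15262208)) (b (a (l 15243640) (l 15249360)) (l 15241576))) (l 15268280))) (c (c (c (l 15312800) (l 15306928)) (l 15319056)) (c (l 15307192) (l 15296520)))) (c (c (a (l 15305408) (l 15360232)) (a (l 15293400) (l 15348680))) (c (a (l 15281320) (l 15337056)) (a (l 15269152) (l 15326608))))) (c (c (b (a (l 15357432) (l 15424360)) (a (l 15430400) (l 15509360))) (b (a (l 15345872) (l 15413360)) (a (l 15419472) (l 15499104)))) (c (b (a (l 15334240) (l 15402288)) (a (l 15408480) (l 15488776))) (b (a (l 15322528) (l 15392408)) (a (l 15397408) (l 15479648)))))), by decide +kernel⟩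

def k26_pp_022_a : ∃ t, chk3 f_pp_022_a t 33 14 2 = true :=
  ⟨(b (c (b (c (a (b (l 15354112) (l 15357832)) (b (l 15410024) (l 15440440))) (a (b (l 15345168) (l 15369872)) (b (l 15428704) (l 15438224)))) (c (a (l 15417800) (l 15488008)) (a (l 15409192) (l 15486192)))) (c (b (a (l 15361168) (b (l 15436808) (l 15446384))) (a (l 15403032) (l 15494768))) (a (b (l 15364184) (l 15406392)) (a (b (l 15432024) (l 15483088)) (b (c (l 15486360) (l 15478816)) (c (l 15543088) (l 15535784))))))) (a (c (b (c (l 15493672) (l 15485720)) (a (c (l 15569704) (l 15560080)) (b (l 15581432) (a (l 15624504) (c (c (l 15649840) (l 15646488)) (l 15644680)))))) (b (c (l 15480224) (l 15484248)) (a (c (l 15553176) (l 15550160)) (a (l 15590664) (b (l 15591760) (c (l 15644224) (l 15650040))))))) (c (b (a (c (l 15552200) (l 15550384)) (b (a (l 15561632) (b (l 15572736) (c (b (l 15568840) (l 15578984)) (l 15594248)))) (a (a (b (l 15592352) (l 15616488)) (b (l 15603256) (l 15602360))) (c (b (l 15592128) (l 15629368)) (l 15621792)))))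 (a (b (c (a (l 15616008) (b (l 15624984) (l 15625496))) (a (l 15614648) (b (l 15624384) (l 15625360)))) (a (b (c (a (l 15629944) (l 15637264)) (l 15653256)) (l 15674976)) (l 15674176))) (c (b (l 15650048) (l 15685480)) (l 15670800)))) (b (a (c (l 15551296) (l 15569744)) (c (b (a (l 15569232) (l 15600848)) (a (b (l 15605704) (l 15627872)) (l 15640240))) (b (a (l 15595752) (c (l 15626616) (a (l 15614328) (l 15612008)))) (a (c (l 15638736) (a (l 15647368) (l 15655688))) (c (l 15666256) (l 15650544)))))) (a (b (a (c (l 15614016) (l 15628408)) (c (b (l 15626552) (l 15648688)) (l 15661328))) (a (c (l 15663184) (l 15678008)) (l 15690936))) (c (l 15685760) (c (l 15709576) (l 15702984)))))))), by decide +kernel⟩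

def k27_pp_022_a : ∃ t, chk3 f_pp_022_a t 32 14 3 = true :=
  ⟨(c (b (a (b (a (b (l 15242000) (a (l 15215712) (l 15223216))) (l 15244056)) (l 15250992)) (c (b (l 15288896) (l 15319224)) (b (a (l 15268176) (l 15302936)) (a (l 15295592) (l 15336616))))) (c (a (b (l 15310736) (l 15386264)) (b (l 15385584) (l 15473576))) (a (l 15251624) (a (l 15400440) (b (l 15406648) (l 15414600)))))) (b (a (c (b (a (b (l 15223552) (l 15201352)) (l 15230776)) (l 15236032)) (a (b (c (b (l 15216000) (l 15193632)) (a (b (l 15209536) (l 15180664)) (l 15153824))) (c (l 15210680) (l 15203032))) (c (b (l 15221080) (l 15242408)) (l 15225800)))) (c (a (c (b (l 15267104) (l 15294672)) (b (l 15262408) (l 15290088))) (b (c (l 15300856) (l 15283952)) (l 15224512))) (b (l 15260944) (l 15291976)))) (a (c (a (l 15304792) (c (l 15348272) (l 15347872))) (a (c (l 15297712) (a (c (l 15282792) (l 15279120)) (l 15298712))) (c (a (c (l 15334088) (l 15331888)) (l 15356000)) (l 15335176)))) (c (a (c (l 15400192) (c (l 15337856) (l 15393880))) (c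 (b (l 15405208) (l 15497640)) (l 15433368))) (l 15403400))))), by decide +kernel⟩

def k28_pp_022_a : ∃ t, chk3 f_pp_022_a t 33 14 3 = true :=
  ⟨(b (c (a (a (c (b (l 15345488) (l 15385016)) (c (b (l 15353312) (l 15393080)) (b (l 15339120) (l 15379048)))) (c (c (b (l 15392864) (l 15438328)) (b (l 15395672) (l 15441320))) (c (b (l 15377208) (l 15423040)) (l 15374712)))) (c (b (c (a (l 15437504) (c (l 15457816) (l 15433560))) (a (c (l 15420632) (l 15398144)) (l 15423872))) (c (a (l 15488888) (c (l 15514960) (l 15490824))) (a (l 15466704) (l 15481320)))) (b (l 15400560) (l 15455424)))) (b (c (l 15359296) (l 15347856)) (c (l 15408624) (l 15397584)))) (b (c (a (c (c (l 15488504) (a (l 15463432) (l 15523008))) (c (a (l 15469088) (l 15505080)) (a (l 15455384) (l 15481528)))) (c (a (c (l 15576104) (c (l 15559680) (l 15537480))) (c (a (b (l 15571888) (c (l 15626152) (l 15598680))) (b (b (l 15557328) (l 15579592)) (l 15607784))) (b (l 15547824) (l 15591104)))) (a (l 15525600) (b (l 15540416) (a (l 15579544) (l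 15590392)))))) (a (l 15447856) (a (l 15510456) (b (l 15525472) (a (l 15565120) (l 15576088)))))) (a (c (c (a (l 15557632) (a (l 15605168) (c (l 15641928) (b (l 15613040) (l 15648744))))) (a (c (l 15566816) (l 15532552)) (c (a (l 15601704) (b (l 15579208) (l 15636136))) (l 15585040)))) (a (l 15526288) (b (l 15545008) (l 15602456)))) (c (c (a (c (b (a (l 15649824) (b (l 15651968) (l 15674432))) (a (l 15699736) (l 15703832))) (a (b (l 15626712) (a (l 15656216) (l 15669640))) (b (b (l 15613184) (l 15635744)) (l 15665272)))) (c (a (l 15679104) (l 15663232)) (l 15649944))) (a (b (a (l 15593792) (l 15610984)) (l 15648192)) (l 15643176))) (a (b (a (l 15579544) (l 15596968)) (l 15634632)) (l 15629544)))))), by decide +kernel⟩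

def k29_pp_022_a : ∃ t, chk3 f_pp_022_a t 34 14 4 = true :=
  ⟨(b (a (b (a (c (l 15488640) (l 15497112)) (b (c (l 15523608) (l 15547608)) (a (c (l 15526200) (l 15547688)) (c (b (a (l 15538536) (l 15528984)) (a (b (l 15523120) (l 15528776)) (l 15533600))) (b (l 15573760) (l 15580432)))))) (a (a (b (l 15520640) (b (l 15551872) (c (l 15549648) (l 15574592)))) (b (c (l 15538296) (l 15550160)) (c (b (a (l 15543360) (l 15549488)) (l 15561752)) (b (l 15579104) (l 15595440))))) (b (a (c (b (a (l 15522824) (l 15531536)) (c (l 15540808) (l 15544120))) (b (l 15569968) (l 15585976))) (c (l 15569312) (l 15599760))) (c (l 15590952) (l 15617808))))) (c (b (a (b (a (b (l 15557168) (a (l 15535448) (l 15567088))) (l 15580080)) (c (l 15565112) (l 15582928))) (b (l 15606232) (l 15609368))) (c (l 15614224) (l 15634680))) (b (a (b (a (b (l 15590152) (l 15594688)) (l 15610072)) (a (l 15598968) (l 15614144))) (c (c (l 15631304) (l 15629864)) (l 15599152))) (a (c (l 15635440) (l 15647888)) (c (c (l 15669032) (l 15668856)) (c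 (l 15655024) (l 15627448))))))) (a (a (b (c (b (a (b (a (l 15566120) (l 15592184)) (l 15605200)) (l 15604296)) (l 15610512)) (b (a (l 15601552) (l 15618352)) (l 15644376))) (c (l 15682064) (l 15698760))) (c (b (c (l 15628168) (l 15639688)) (l 15702208)) (b (l 15665168) (l 15737160)))) (c (b (l 15683736) (l 15753552)) (a (a (b (l 15696896) (l 15769480)) (c (l 15742160) (b (l 15721224) (l 15795216)))) (c (a (l 15761952) (c (l 15775096) (l 15771240))) (b (c (l 15719408) (l 15693296)) (l 15778536))))))), by decide +kernel⟩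

def k30_pp_022_a : ∃ t, chk3 f_pp_022_a t 34 14 5 = true :=
  ⟨(b (a (b (c (a (l 15524400) (b (c (l 15570248) (l 15551872)) (a (c (l 15573056) (l 15572464)) (c (b (l 15595552) (l 15602256)) (b (l 15564448) (l 15571176)))))) (a (c (l 15519600) (l 15481744)) (b (l 15501608) (a (c (l 15523768) (l 15496560)) (a (b (l 15509672) (l 15517992)) (l 15515104)))))) (c (a (b (l 15564800) (a (l 15590656) (a (l 15613752) (l 15625056)))) (a (b (c (l 15602872) (a (l 15584456) (l 15605392))) (l 15631024)) (c (l 15635784) (l 15604840)))) (a (c (a (c (l 15589736) (l 15539528)) (b (l 15566056) (a (l 15609312) (l 15600464)))) (b (a (l 15519656) (l 15520088)) (a (l 15562096) (a (l 15557016) (l 15555920))))) (a (b (c (a (l 15556704) (l 15549360)) (l 15526752)) (l 15573136)) (l 15552600))))) (b (c (a (c (b (a (a (l 15597184) (l 15594840)) (l 15577488)) (l 15588384)) (b (a (a (l 15542224) (l 15535272)) (l 15529112)) (l 15542704))) (c (c (l 15557344) (l 15538600)) (l 15529392))) (b (a (a (l 15510048) (l 15516056)) (l 15519448))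 (l 15521576))) (c (c (a (l 15624352) (l 15591504)) (a (l 15578816) (l 15570368))) (l 15558984)))) (a (c (a (b (a (l 15624360) (l 15666912)) (l 15728952)) (c (b (l 15689208) (l 15764704)) (a (l 15717440) (l 15705840)))) (a (c (b (a (b (l 15601080) (l 15676800)) (l 15651864)) (l 15725440)) (b (a (b (l 15600776) (l 15634696)) (l 15606248)) (l 15688440))) (c (b (l 15629616) (l 15705824)) (l 15645696)))) (c (c (a (b (l 15689896) (a (l 15777656) (l 15761560))) (b (c (l 15665352) (l 15647624)) (c (l 15741672) (l 15725592)))) (a (b (l 15644632) (c (l 15729784) (l 15711368))) (l 15677720))) (b (l 15626640) (l 15707232))))), by decide +kernel⟩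

def k31_pp_022_a : ∃ t, chk3 f_pp_022_a t 70 14 2 = true :=
  ⟨(c (c (b (b (a (c (l 15631384) (a (l 15622072) (c (l 15631840) (l 15642712)))) (c (a (l 15632248) (c (l 15640112) (l 15624696))) (l 15613728))) (a (c (l 15667336) (a (l 15679304) (l 15682032))) (c (a (l 15690864) (l 15689528)) (l 15652520)))) (a (c (l 15764568) (a (l 15776760) (b (l 15744936) (l 15819056)))) (c (a (b (l 15754184) (l 15828656)) (c (b (l 15763952) (l 15839336)) (l 15786256))) (b (l 15717112) (l 15792896))))) (c (b (a (b (c (a (l 15639512) (l 15613896)) (l 15595832)) (l 15648456)) (b (c (a (l 15582632) (l 15538232)) (b (l 15532568) (l 15537824))) (c (l 15611464) (l 15595728)))) (b (a (l 15711656) (c (l 15676584) (l 15661208))) (a (l 15785984) (c (l 15752952) (l 15737960))))) (b (b (a (c (a (l 15577008) (l 15555272)) (l 15549048)) (l 15527864)) (a (c (l 15607992) (l 15590968)) (l 15590576))) (a (a (b (l 15671376) (l 15745968)) (b (l 15657984) (l 15733632))) (l 15694600))))) (b (b (c (l 15540096) (l 15530192)) (c (l 15583728)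 (l 15575632))) (c (b (c (l 15654128) (l 15652984)) (l 15732560)) (b (l 15648328) (l 15731952))))), by decide +kernel⟩

def k32_pp_022_a : ∃ t, chk3 f_pp_022_a t 71 14 2 = true :=
  ⟨(c (c (a (b (c (b (l 15615576) (l 15656000)) (a (b (b (l 15570608) (l 15576048)) (l 15613632)) (b (c (l 15539720) (l 15552696)) (l 15599584)))) (b (c (l 15722080) (c (l 15681016) (l 15665752))) (c (l 15799296) (c (a (l 15767400) (l 15747616)) (l 15743928))))) (b (b (c (c (b (l 15551104) (a (l 15588544) (l 15545112))) (b (l 15535240) (a (l 15543944) (l 15558192)))) (b (l 15550728) (l 15557544))) (c (c (a (l 15627176) (l 15605528)) (a (l 15603784) (l 15597880))) (l 15597184))) (a (c (c (l 15733288) (b (l 15671680) (l 15750712))) (l 15703648)) (c (b (c (l 15674144) (l 15666856)) (c (b (l 15732696) (l 15777288)) (l 15747576))) (l 15707384))))) (b (b (a (l 15530944) (l 15532808)) (l 15595888)) (b (l 15664864) (l 15745096)))) (b (b (c (b (l 15524880) (l 15554216)) (l 15542536)) (c (l 15595904) (l 15591976))) (c (b (l 15667376) (l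 15749208)) (b (l 15667240) (l 15752848))))), by decide +kernel⟩

def k33_pp_022_a : ∃ t, chk3 f_pp_022_a t 17 14 3 = true :=
  ⟨(b (a (a (a (b (c (l 15451848) (l 15430320)) (c (b (l 15493096) (a (l 15527408) (l 15539440))) (b (l 15472256) (a (l 15507176) (l 15519448))))) (b (b (l 15464392) (c (a (l 15483600) (b (l 15493240) (l 15500080))) (a (l 15462656) (l 15475216)))) (b (c (a (l 15514104) (l 15519968)) (l 15496160)) (l 15537184)))) (b (a (b (a (c (l 15494664) (l 15473920)) (l 15490384)) (l 15493056)) (c (l 15506504) (l 15485872))) (c (l 15544144) (l 15524112)))) (c (b (c (l 15526120) (l 15515928)) (c (l 15574688) (l 15564888))) (b (l 15500496) (l 15550040)))) (a (c (b (a (a (b (l 15569104) (l 15603488)) (l 15596600)) (l 15612632)) (c (l 15685024) (l 15676232))) (b (a (b (l 15554568) (l 15590064)) (l 15593744)) (l 15662920))) (c (c (b (l 15650904) (a (l 15726576) (l 15752432))) (b (l 15642144) (l 15732520))) (c (l 15635568) (l 15668584))))), by decide +kernel⟩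

def k34_pp_022_a : ∃ t, chk3 f_pp_022_a t 16 30 2 = true :=
  ⟨(a (c (b (c (a (l 15525712) (l 15616608)) (a (l 15515624) (l 15607296))) (a (c (l 15644824) (l 15635784)) (a (c (l 15721720) (l 15713376)) (b (a (l 15720560) (b (l 15728184) (a (l 15757032) (l 15766480)))) (a (b (l 15773568) (c (l 15809032) (l 15801744))) (c (c (l 15806400) (l 15804200)) (l 15798472))))))) (b (c (a (l 15505472) (l 15597920)) (a (l 15495248) (l 15589744))) (a (c (l 15626680) (l 15617520)) (a (c (l 15704936) (l 15696440)) (b (a (l 15703952) (c (l 15731760) (l 15726184))) (a (b (l 15757944) (l 15790440)) (l 15788544))))))) (a (c (b (a (b (l 15649832) (a (c (l 15705696) (l 15697224)) (b (c (l 15711144) (l 15702936)) (c (l 15737512) (l 15729856))))) (b (a (b (l 15668808) (c (a (l 15675720) (l 15681928)) (l 15692744))) (c (c (l 15697552) (l 15695464)) (l 15693976))) (c (c (l 15714392) (l 15734256)) (l 15732616)))) (a (b (a (b (c (l 15751736) (l 15743864)) (l 15773192)) (l 15767448)) (c (l 15813072) (l 15809640))) (c (l 15799464)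 (l 15802136)))) (b (a (b (l 15638416) (a (l 15688696) (b (l 15698320) (l 15725584)))) (a (b (c (l 15676472) (l 15614680)) (l 15727136)) (c (l 15715328) (l 15679808)))) (a (a (b (c (l 15749040) (l 15746992)) (l 15798856)) (l 15785176)) (l 15806416)))) (c (c (b (c (l 15732648) (l 15737120)) (l 15821312)) (b (c (l 15740488) (l 15742896)) (c (l 15830952) (l 15836120)))) (c (b (l 15753800) (a (l 15829672) (l 15866944))) (c (l 15648368) (a (l 15809584) (b (l 15787568) (l 15886960)))))))), by decide +kernel⟩

def k35_pp_022_a : ∃ t, chk3 f_pp_022_a t 64 31 2 = true :=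
  ⟨(c (a (b (c (c (b (l 15724656) (l 15800568)) (l 15758720)) (l 15752704)) (b (c (b (l 15861480) (a (l 15891504) (a (l 15914848) (b (l 15918632) (c (l 15939168) (l 15935784)))))) (l 15876328)) (c (a (b (a (l 15929720) (c (l 15944616) (l 15942168))) (a (b (l 15963520) (a (l 15981120) (l 15985776))) (c (b (l 15975080) (l 15990664)) (l 15980840)))) (b (b (a (c (l 15947720) (l 15945016)) (l 15955624)) (c (l 15967344) (l 15966000))) (l 15989000))) (b (a (l 15928832) (l 15951400)) (a (c (a (b (l 15957064) (l 15977616)) (l 15975976)) (l 15968440)) (l 15981616)))))) (b (b (l 15774208) (c (c (a (l 15844760) (b (c (b (l 15843928) (l 15864560)) (l 15852608)) (a (b (l 15877520) (a (l 15895080) (l 15899328))) (a (b (l 15886432) (l 15901544)) (l 15896296))))) (a (l 15841928) (l 15867120))) (a (l 15836448) (b (l 15844472) (l 15881392))))) (b (a (a (c (b (c (l 15902384) (l 15897024)) (c (b (l 15930288) (l 15945200)) (l 15871248))) (l 15910456)) (c (b (b (c (b (l 15900864) (l 15910120)) (l 15901040)) (c (l 15921504)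 (l 15917240))) (l 15941896)) (l 15919184))) (c (c (c (l 15932920) (l 15934192)) (l 15930992)) (l 15927456))) (c (c (l 15984600) (l 15987216)) (l 15980744))))) (b (b (l 15729952) (a (l 15780600) (a (l 15825408) (b (l 15833528) (l 15870928))))) (a (b (c (l 15869344) (l 15862312)) (a (b (l 15919032) (l 15960712)) (b (l 15941872) (l 15974536)))) (b (a (b (l 15887432) (l 15922608)) (l 15917584)) (l 15973872))))), by decide +kernel⟩

def k36_pp_022_a : ∃ t, chk3 f_pp_022_a t 65 31 2 = true :=
  ⟨(c (b (a (b (b (a (l 15796440) (c (l 15823928) (l 15816656))) (b (a (l 15825856) (l 15843968)) (c (a (c (a (l 15844488) (b (l 15851976) (l 15838472))) (l 15846120)) (l 15859360)) (l 15846912)))) (c (c (b (a (c (a (b (l 15863624) (l 15858784)) (l 15876256)) (l 15872416)) (l 15879544)) (l 15902960)) (l 15887656)) (l 15883096))) (c (c (b (l 15849808) (l 15900464)) (l 15875912)) (l 15872872))) (c (c (b (l 15947976) (l 16002568)) (b (a (c (l 15944136) (l 15943544)) (l 15956456)) (a (l 16002232) (l 16014424)))) (c (b (l 15950256)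 (a (c (l 16002760) (l 16003168)) (l 16017224))) (l 15978848)))) (b (a (b (a (b (l 15780952) (l 15819744)) (b (l 15805320) (l 15836248))) (b (l 15858544) (l 15887408))) (l 15863784)) (c (l 15975144) (l 15970216)))), by decide +kernel⟩

def k37_pp_022_a : ∃ t, chk3 f_pp_022_a t 33 31 2 = true :=
  ⟨(c (c (b (a (c (l 15825800) (b (l 15867504) (l 15918160))) (c (b (l 15888960) (l 15942944)) (l 15923664))) (a (c (l 15998352) (b (l 15973312) (l 16032064))) (c (l 16028472) (l 16038584)))) (b (a (a (l 15887592) (l 15904848)) (c (l 15932448) (l 15940768))) (c (a (b (l 15979112) (l 16037480)) (l 16046752)) (a (l 16013432) (l 16057064))))) (c (a (b (l 15898280) (a (l 16006296) (l 16031992))) (b (a (l 15938744) (l 15850504)) (a (l 15955208) (l 16097576)))) (a (b (l 15906064) (l 15967440)) (a (b (l 15962424) (l 16090168)) (c (b (l 16007112) (l 16133920)) (b (a (l 16005184) (l 16007008)) (a (l 16135920) (l 16075216)))))))), by decide +kernel⟩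

def k38_pp_022_a : ∃ t, chk3 f_pp_022_a t 32 15 6 = true :=
  ⟨(b (b (a (c (l 15484952) (l 15474912)) (c (l 15584624) (a (l 15553976) (c (l 15615896) (l 15616664))))) (a (c (l 15608296) (l 15599328)) (a (c (l 15689000) (l 15687680)) (a (b (l 15704528) (c (l 15766144) (l 15732296))) (b (c (l 15725912) (c (l 15734328) (l 15722136))) (c (l 15785928) (c (l 15794736) (l 15803768)))))))) (a (b (a (l 15724224) (b (l 15742608) (a (l 15810520) (b (l 15819184) (l 15857232))))) (a (b (b (l 15829784) (l 15874360)) (a (b (l 15905808) (l 15948208)) (l 15945192))) (b (a (b (l 15873624) (l 15909400)) (l 15904688)) (l 15961856)))) (c (b (a (b (a (l 15788440) (l 15810040)) (l 15863168)) (l 15860416)) (l 15968376)) (a (b (b (a (l 15784184) (l 15810960)) (l 15863360)) (l 15955048)) (c (l 15926552) (c (l 15934864) (l 15789912))))))), by decide +kernel⟩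

def k39_pp_022_a : ∃ t, chk3 f_pp_022_a t 32 30 7 = true :=
  ⟨(a (c (a (l 15499768) (b (l 15493584) (l 15580288))) (a (c (l 15493952) (a (c (l 15476416) (l 15347328)) (c (l 15482624) (l 15501944)))) (c (a (c (l 15539776) (l 15538016)) (l 15484392)) (l 15545176)))) (c (a (c (b (l 15554728) (l 15689304)) (b (c (l 15555800) (l 15549248)) (c (l 15544016) (l 15684552)))) (b (c (c (l 15618576) (l 15610296)) (l 15597888)) (b (c (a (l 15705784) (a (l 15724392) (l 15726272))) (l 15699824)) (c (a (c (l 15782688) (a (l 15770016) (l 15770240))) (l 15727680)) (l 15765136))))) (b (l 15564296) (a (l 15673704) (b (l 15693432) (a (l 15752104) (l 15768960))))))), by decide +kernel⟩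

def k40_pp_022_a : ∃ t, chk3 f_pp_022_a t 32 31 7 = true :=
  ⟨(a (c (b (a (l 15711936) (a (l 15760112) (b (l 15753592) (a (l 15830120) (b (l 15823608) (l 15859968)))))) (a (b (l 15841048) (a (l 15915976) (l 15935816))) (a (b (b (l 15866464) (l 15902704)) (l 15950384)) (l 15892408)))) (a (b (c (l 15707496) (a (c (l 15688272) (l 15685472)) (l 15653000))) (c (b (l 15774528) (a (l 15911104) (l 15933696))) (a (c (b (l 15818232) (l 15909544)) (b (l 15815712) (a (c (l 15902568) (l 15901392)) (b (l 15894472) (l 15935528))))) (a (b (l 15840672) (c (c (l 15930176) (l 15929712)) (l 15926912))) (b (l 15861216) (l 15936896)))))) (b (c (a (c (l 15760200) (l 15758920)) (b (l 15751240) (a (l 15827816) (l 15841072)))) (b (l 15726960) (l 15809264))) (c (a (c (b (l 15863128) (l 15951488)) (b (a (l 15859504) (l 15890336)) (l 15950608))) (l 15933160)) (b (l 15884632) (l 15951400)))))) (a (c (b (c (b (a (l 15788832) (a (l 15814496) (l 15829216))) (a (l 15858952) (l 15872768))) (c (a (b (l 15794368) (l 15864712)) (b (a (l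 15813488) (l 15813456)) (l 15874272))) (a (b (l 15788136) (l 15858632)) (l 15832336)))) (c (l 15958384) (c (a (l 15956984) (l 15966664)) (l 15955064)))) (b (b (a (l 15775688) (l 15798576)) (l 15852416)) (l 15945656))) (c (c (c (a (l 15930584) (l 15808704)) (a (l 15815352) (l 15920744))) (l 15912536)) (l 15907496)))), by decide +kernel⟩

def k41_pp_022_a : ∃ t, chk3 f_pp_022_a t 33 15 3 = true :=
  ⟨(c (a (b (c (b (a (b (l 15645160) (a (l 15690840) (l 15659176))) (a (b (a (l 15690336) (l 15707160)) (l 15743416)) (c (l 15742928) (b (l 15720408) (l 15764768))))) (a (b (a (l 15751240) (l 15772688)) (l 15813720)) (c (l 15824808) (l 15829456)))) (b (b (a (c (l 15654912) (l 15642000)) (a (c (c (l 15697736) (l 15674240)) (l 15662376)) (l 15682600))) (a (c (a (l 15708280) (b (l 15720688) (l 15748480))) (a (l 15699264) (b (l 15693616) (l 15721528)))) (c (a (l 15740848) (l 15731584)) (l 15717656)))) (a (c (a (b (l 15769064) (l 15820568)) (l 15809200)) (a (b (c (l 15767536) (l 15748552)) (l 15812024)) (l 15782504)))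 (c (c (l 15818160) (l 15799200)) (l 15790600))))) (c (c (b (l 15913032) (l 16038104)) (a (l 15960768) (b (l 15939592) (l 15961824)))) (c (a (b (l 15906968) (l 16031600)) (c (a (l 15993064) (l 15941256)) (b (l 15909912) (l 16037672)))) (a (c (a (l 15962696) (l 15957160)) (b (l 15885064) (l 16010344))) (l 15965016))))) (c (b (c (a (b (l 15761792) (l 15858632)) (c (a (l 15818384) (l 15801848)) (l 15792808))) (a (c (a (l 15796304) (l 15780792)) (l 15771728)) (l 15784256))) (c (a (b (l 15929336) (a (l 16100936) (l 16108568))) (c (a (l 16048728) (l 15909264)) (b (l 15959552) (l 16092048)))) (a (c (a (l 16021728) (l 15946264)) (b (l 15934744) (l 16064912))) (l 16017272)))) (b (l 15769720) (b (l 15935824) (l 16068136))))) (b (a (b (a (b (l 15615736) (a (l 15669112) (l 15690104))) (b (a (l 15651280) (l 15666048)) (l 15707128))) (a (b (a (l 15730824) (l 15741776)) (l 15787920)) (l 15780840))) (b (l 15708456) (l 15809064))) (c (b (l 15907344) (l 15995864)) (b (l 15900536) (l 16032096))))), by decide +kernel⟩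

def k42_pp_022_a : ∃ t, chk3 f_pp_022_a t 34 15 8 = true :=
  ⟨(b (a (b (l 15728888) (a (l 15847352) (l 15871432))) (b (l 15835264) (c (b (l 15892320) (l 15942208)) (l 15941936)))) (b (a (c (b (l 15928424) (l 15984136)) (b (l 15941832) (l 15996712))) (a (c (l 16001800) (l 16026776)) (b (l 16031560) (c (a (l 16065568) (l 16091680)) (l 16103584))))) (a (a (l 16066456) (b (l 16063568) (c (l 16116872) (l 16133696)))) (b (a (c (l 16028376) (l 16116424)) (c (l 16146288) (a (l 16154800) (l 16182952)))) (a (c (a (l 16145040) (l 16173896)) (l 16099840)) (l 16231888)))))), by decide +kernel⟩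

def k43_pp_022_a : ∃ t, chk3 f_pp_022_a t 35 30 8 = true :=
  ⟨(a (b (a (c (l 15886448) (a (l 15899000) (l 15905088))) (c (a (l 15914976) (c (l 15926544) (l 15912560))) (l 15880584))) (c (a (b (l 15957992) (l 16010216)) (c (b (a (l 15984912) (l 16002184)) (a (l 16041128) (l 16062040))) (a (l 15957296) (l 16017064)))) (a (a (l 15996576) (c (l 16010712) (l 16002488))) (a (l 15952296) (l 15971784))))) (b (a (c (b (l 15865088) (l 15915256)) (a (c (l 15856568) (l 15834112)) (c (b (l 15813936) (l 15863784)) (l 15831784)))) (c (a (c (l 15870152) (b (l 15819248) (l 15873320))) (c (l 15856528) (l 15847968))) (l 15843720))) (c (a (b (l 15971432) (l 16033888)) (a (c (l 15989544) (l 15964864)) (b (c (l 15945552) (l 15937112)) (c (a (l 16009664) (b (l 15991376) (c (b (l 15996512) (l 16014112)) (l 16022240)))) (l 16002128))))) (a (a (c (l 15964888) (b (l 15910984) (l 15971344))) (c (l 15952272) (l 15944008))) (l 15962272))))), by decide +kernel⟩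

def k44_pp_022_a : ∃ t, chk3 f_pp_022_a t 70 31 8 = true :=
  ⟨(b (a (c (b (a (l 16055312) (l 16081824)) (l 16134624)) (b (a (l 16078584) (c (a (l 16091672) (l 16101152)) (l 16086592))) (a (a (l 16135072) (l 16147528)) (c (l 16162512) (l 16152560))))) (c (a (c (l 16139680) (l 16145344)) (c (l 16162528) (l 16146704))) (b (c (l 16089456) (l 16058776)) (l 16143320)))) (a (c (b (l 16206944) (l 16221048)) (c (l 16196648) (a (l 16255544) (l 16264496)))) (b (c (a (l 16249752) (a (c (l 16269784) (l 16260232)) (b (l 16244896) (c (b (l 16286960) (l 16307936)) (l 16273128))))) (a (l 16225640) (b (l 16190504) (l 16229504)))) (c (a (b (a (l 16303016) (c (l 16314096) (l 16318304))) (a (l 16344600) (l 16316984))) (a (b (c (l 16330792) (l 16320624)) (l 16368816)) (l 16350624))) (a (b (l 16284272) (a (c (l 16343496) (l 16314504)) (l 16323744))) (b (a (l 16273976) (l 16267536)) (l 16315528))))))), by decide +kernel⟩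

def k45_pp_022_a : ∃ t, chk3 f_pp_022_a t 71 31 8 = true :=
  ⟨(b (a (c (b (l 16100392) (a (a (l 16184872) (l 16176344)) (b (a (l 16149000) (l 16140760)) (a (l 16187096) (l 16180456))))) (c (a (l 16097736) (b (l 16051992) (b (a (l 16103984) (l 16103016)) (a (c (l 16146680) (l 16134592)) (c (l 16143560) (l 16139152)))))) (b (l 16042120) (a (l 16109592) (b (l 16096928) (a (l 16130464) (l 16138648))))))) (c (b (a (c (b (l 16071376) (a (l 16111272) (l 16103600))) (b (l 16047680) (a (l 16081792) (b (l 16071984) (l 16091048))))) (c (b (a (b (l 16051776) (l 16070232)) (l 16061776)) (l 16101864)) (b (a (l 16050048) (l 16058120)) (l 16092472)))) (a (c (l 16167360) (a (b (c (l 16125192) (l 16112904)) (l 16160928)) (l 16142168))) (c (l 16163696) (l 16154600)))) (b (b (l 16046360) (c (a (a (l 16071328) (l 16078600)) (l 16091728)) (l 16082800))) (a (b (a (b (l 16098592) (l 16117736)) (l 16117112)) (l 16153304)) (l 16152536))))) (c (a (b (a (b (a (b (l 16231160) (l 16250952)) (l 16234472)) (l 16280016)) (l 16247552))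 (l 16342568)) (c (a (l 16298368) (b (l 16250432) (l 16342272))) (a (b (l 16228464) (l 16319672)) (l 16287280)))) (a (b (a (c (b (l 16169000) (l 16231456)) (b (a (l 16164248) (c (l 16165648) (l 16161384))) (a (c (l 16209872) (l 16197680)) (l 16206256)))) (c (a (l 16203872) (l 16206384)) (l 16155704))) (c (a (l 16298904) (l 16296960)) (a (l 16274144) (l 16288088)))) (l 16213552)))), by decide +kernel⟩

def k46_pp_022_a : ∃ t, chk3 f_pp_022_a t 17 30 9 = true :=
  ⟨(a (c (a (b (l 15790744) (l 15882216)) (a (l 15896632) (a (l 15929248) (b (l 15892336) (l 15989680))))) (b (a (l 15809136) (a (l 15869832) (l 15863400))) (a (l 15903224) (a (l 15965232) (l 15898144))))) (a (c (b (a (l 15872280) (c (l 15841256) (l 15826680))) (a (l 15971288) (a (c (l 15949928) (l 15927720)) (c (b (l 15905184) (l 15960976)) (l 15926360))))) (a (b (c (l 15834248) (l 15819552)) (c (l 15933912) (l 15919656))) (l 15831688))) (b (a (l 15832256) (b (l 15818576) (l 15871120))) (a (b (l 15910624) (l 15970264)) (l 15961392))))), by decide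 +kernel⟩

def k47_pp_022_a : ∃ t, chk3 f_pp_022_a t 17 31 9 = true :=
  ⟨(a (a (b (l 15894192) (c (a (l 16084168) (l 16126144)) (l 15983088))) (c (b (a (l 16052864) (c (l 16092816) (l 16074848))) (a (b (l 16142872) (l 16167120)) (a (b (l 16179832) (l 16229080)) (b (c (l 16199680) (l 16196216)) (c (l 16274600) (l 16269992)))))) (b (a (l 16032264) (c (l 16085688) (l 16062336))) (c (a (l 16196488) (b (l 16157768) (a (c (l 16217928) (l 16254304)) (l 16246120)))) (a (l 16182024) (l 16190760)))))) (a (b (a (c (a (c (l 16109560) (l 16084576)) (l 16077088)) (a (c (l 16054416) (l 16032440)) (c (b (l 16007296) (l 16069824)) (l 16032216)))) (c (a (c (l 16071184) (b (l 16013880) (l 16081352))) (c (l 16059752) (l 16051752))) (l 16047472))) (a (c (a (c (b (l 16209792) (l 16287104)) (l 16138216)) (l 16220408)) (b (a (c (l 16151992) (l 16128960)) (l 16117752)) (c (a (l 16228800) (l 16219960)) (l 16209464)))) (b (c (a (c (l 16179808) (l 16156152)) (a (l 16123360) (l 16146856))) (l 16155112)) (c (b (a (l 16227392) (c (a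 (l 16228432) (c (l 16230736) (l 16226480))) (a (l 16217736) (l 16226168)))) (a (c (l 16279232) (a (l 16253624) (b (l 16243128) (l 16264320)))) (c (a (l 16250704) (l 16274488)) (l 16265736)))) (c (a (l 16227320) (b (l 16222160) (a (l 16260136) (l 16270080)))) (l 16235704)))))) (b (a (b (l 16036184) (l 16108280)) (b (a (l 16056040) (l 16070488)) (a (b (l 16111176) (l 16150992)) (b (l 16128312) (l 16170816))))) (a (b (c (a (b (l 16158000) (a (b (l 16183208) (l 16203448)) (b (l 16191720) (l 16213000)))) (b (c (a (l 16170000) (l 16179608)) (l 16174088)) (l 16217832))) (a (l 16177632) (l 16194952))) (b (a (c (l 16241328) (b (l 16228968) (l 16251432))) (l 16262624)) (l 16297688))) (b (c (l 16227520) (l 16225104)) (c (l 16318776) (l 16318584))))))), by decide +kernel⟩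

def k48_pp_022_a : ∃ t, chk3 f_pp_022_a t 34 15 5 = true :=
  ⟨(b (c (a (a (b (l 15815248) (c (l 15903856) (l 15924648))) (c (b (l 15830400) (l 15948144)) (b (a (l 15844912) (l 15834992)) (c (l 15865600) (l 15931168))))) (c (a (b (a (l 15864368) (l 15848016)) (l 15845344)) (b (c (l 15827440) (l 15812616)) (c (l 15925760) (l 15911384)))) (a (b (c (l 15819096) (l 15802416)) (c (l 15917768) (l 15903096))) (l 15857712)))) (a (c (a (b (l 15812592) (l 15851536)) (b (l 15795856) (c (l 15905592) (l 15888304)))) (a (b (l 15775960) (l 15857280)) (l 15826832))) (b (l 15800040) (c (l 15904992) (l 15905704))))) (c (a (b (c (l 15970232) (a (l 16035816) (a (l 16055888) (l 16045368)))) (a (l 16144216) (c (l 16178144) (a (l 16178536) (l 16169152))))) (a (a (c (b (l 16070016) (l 16131000)) (b (l 16026088) (l 16109056))) (c (l 15991536) (b (l 16016704) (l 16121752)))) (c (b (c (l 16037680) (l 16023768)) (a (c (l 16171152) (l 16149352)) (c (b (l 16121232) (l 16191424)) (l 16150472)))) (b (l 16021840) (l 16149896))))) (a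 (c (a (b (a (l 15993728) (l 16031592)) (a (l 16098832) (l 16156928))) (b (a (l 15952816) (l 16007096)) (c (l 16143200) (l 16129552)))) (a (b (c (l 16002200) (l 15984320)) (c (a (l 16138304) (l 16122624)) (a (l 16114096) (l 16115912)))) (b (l 15998744) (l 16128024)))) (b (l 16021168) (l 16149920))))), by decide +kernel⟩

def k49_pp_022_a : ∃ t, chk3 f_pp_022_a t 35 15 5 = true :=
  ⟨(b (a (c (b (l 15822640) (l 15924960)) (b (l 15826640) (l 15932528))) (b (c (l 15843328) (l 15849016)) (c (a (l 15944800) (b (l 15930696) (l 15993072))) (a (l 15951216) (l 15965848))))) (a (b (c (a (l 16033904) (b (l 16018136) (l 16083672))) (l 16050824)) (c (a (b (l 16131912) (l 16206184)) (b (l 16156024) (l 16215032))) (b (l 16151048) (a (l 16212232) (l 16238744))))) (b (b (c (a (l 16037408) (l 16061880)) (l 16032176)) (a (c (l 16107912) (l 16110344)) (c (a (l 16129456) (b (l 16125240) (l 16166192))) (a (l 16128784) (l 16143928))))) (c (a (b (a (l 16177528) (l 16172864)) (a (b (l 16239296) (l 16283920)) (l 16282096))) (b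 (a (l 16212136) (l 16232432)) (l 16315088))) (a (b (l 16186400) (a (l 16261056) (b (l 16256448) (l 16302296)))) (b (a (l 16167968) (l 16228768)) (l 16311560))))))), by decide +kernel⟩

def k50_pp_022_a : ∃ t, chk3 f_pp_022_a t 17 15 3 = true :=
  ⟨(b (c (a (c (b (l 15777440) (a (l 15865624) (l 15903208))) (b (l 15769424) (l 15877552))) (c (b (a (l 15825712) (l 15853288)) (a (l 15894728) (l 15965032))) (b (a (l 15819760) (l 15852608)) (a (l 15935504) (l 15948880))))) (a (b (c (l 15761344) (l 15753216)) (c (l 15870384) (l 15863168))) (b (c (l 15829328) (l 15821680)) (c (a (l 15929504) (l 15968968)) (l 15942864))))) (a (c (c (b (a (l 15985568) (b (l 15993944) (l 16058160))) (a (b (l 16085144) (l 16155600)) (b (l 16125416) (l 16195688)))) (b (l 15917496) (a (l 16117512) (b (l 16128112) (l 16201904))))) (b (c (l 15995392) (l 15989224)) (c (l 16074472) (l 16090472)))) (c (b (a (c (l 16059576) (b (l 16031096) (l 16098552))) (c (b (l 16058672) (a (l 16116232) (l 16139016))) (a (l 16091512) (l 16108800)))) (a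 (c (b (l 16159808) (l 16212312)) (b (l 16169064) (l 16200256))) (c (a (b (l 16189320) (a (l 16262616) (l 16278640))) (b (a (l 16209208) (l 16205408)) (a (l 16276888) (l 16319136)))) (a (b (l 16196592) (b (l 16253672) (l 16295504))) (b (a (l 16212168) (l 16184328)) (a (b (l 16273656) (l 16319216)) (l 16316432))))))) (b (c (a (l 16062624) (b (l 16069352) (l 16117992))) (l 16037904)) (a (c (b (l 16172136) (l 16249216)) (l 16208552)) (c (a (b (l 16204960) (l 16282208)) (b (l 16226088) (a (l 16237416) (b (l 16292248) (l 16338360))))) (b (l 16217248) (a (l 16286888) (c (a (l 16304440) (l 16317624)) (l 16312840)))))))))), by decide +kernel⟩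

def k51_pp_022_a : ∃ t, chk3 f_pp_022_a t 18 12 1 = true :=
  ⟨(a (c (a (b (a (b (c (l 15600360) (l 15581888)) (c (a (l 15584080) (b (l 15586656) (b (l 15560040) (l 15555808)))) (a (l 15565216) (b (l 15567760) (l 15559680))))) (b (c (a (b (l 15601072) (b (l 15573512) (l 15569112))) (b (a (l 15577616) (l 15575064)) (l 15566168))) (a (l 15556592) (l 15510200))) (c (c (b (l 15584696) (l 15575536)) (l 15550088)) (l 15556624)))) (c (b (a (b (a (a (l 15554072) (l 15552768)) (l 15570192)) (l 15543288)) (l 15559120)) (c (l 15533096) (l 15526032))) (b (a (b (l 15552952) (l 15545400)) (l 15540816)) (l 15532672)))) (c (b (c (a (l 15584176) (l 15616976)) (a (l 15576008) (l 15609904))) (c (l 15572944) (b (l 15572344) (l 15563640)))) (b (l 15579064) (c (a (l 15540272) (l 15579520)) (l 15550344))))) (a (b (a (b (l 15553528) (a (l 15536256) (b (l 15538856) (l 15530480)))) (b (c (a (l 15558624) (l 15554056)) (a (l 15539416) (l 15534728))) (c (l 15537168) (l 15517448)))) (b (a (c (l 15529240) (l 15509336)) (l 15510880))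 (l 15502400))) (b (c (l 15559928) (l 15540536)) (c (l 15535480) (l 15515432))))) (c (a (c (b (c (l 15674312) (l 15668736)) (c (l 15654520) (l 15650832))) (b (c (l 15661760) (l 15653352)) (c (b (l 15648568) (l 15644744)) (l 15639088)))) (c (b (l 15748760) (l 15737640)) (b (c (l 15741824) (l 15735520)) (c (l 15733376) (l 15729264))))) (b (c (l 15597728) (l 15664120)) (c (a (l 15625760) (l 15656152)) (l 15654680))))), by decide +kernel⟩

def k52_pp_022_a : ∃ t, chk3 f_pp_022_a t 18 13 1 = true :=
  ⟨(c (a (c (a (b (c (c (l 15542472) (l 15519752)) (b (l 15518032) (l 15514744))) (b (a (l 15518312) (c (l 15538584) (l 15536536))) (c (c (l 15545392) (l 15544768)) (l 15543880)))) (b (a (b (l 15520008) (l 15518456)) (l 15580520)) (c (b (l 15565848) (l 15575608)) (b (l 15564040) (l 15574680))))) (b (a (b (l 15504704) (l 15524104)) (c (b (l 15553664) (l 15555456)) (b (l 15545504) (l 15548952)))) (a (c (b (l 15511608) (l 15520592)) (c (l 15531664) (l 15527376))) (c (b (l 15562136) (l 15573856)) (b (l 15536736) (a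 (l 15548096) (l 15596408))))))) (c (b (a (c (l 15651432) (l 15649240)) (b (c (l 15741344) (l 15739200)) (c (a (l 15725024) (l 15775000)) (l 15747840)))) (a (b (c (l 15662296) (l 15660848)) (c (a (l 15650872) (l 15705728)) (a (l 15649696) (l 15702920)))) (b (c (a (l 15739464) (l 15794168)) (a (l 15736560) (l 15789776))) (a (c (l 15763128) (l 15758696)) (c (b (l 15814224) (c (l 15832056) (l 15829208))) (l 15817096)))))) (b (c (a (l 15647008) (l 15741400)) (a (b (l 15640512) (l 15647320)) (l 15740080))) (a (c (l 15667288) (l 15666768)) (b (c (l 15761528) (l 15760568)) (c (a (l 15756000) (l 15812712)) (l 15783160))))))) (a (c (b (a (l 15504120) (l 15531880)) (a (l 15514664) (c (b (l 15549968) (l 15566432)) (l 15548000)))) (b (a (l 15483456) (l 15511568)) (a (l 15493984) (l 15532872)))) (c (b (c (a (l 15636576) (l 15736960)) (a (l 15627840) (l 15731392))) (c (a (b (l 15655536) (l 15674880)) (b (l 15760496) (l 15782720))) (a (l 15658544) (l 15748064)))) (b (l 15624520) (c (a (l 15650168) (l 15764432)) (l 15698960)))))),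 by decide +kernel⟩

def k53_pp_022_a : ∃ t, chk3 f_pp_022_a t 38 12 1 = true :=
  ⟨(c (c (b (a (l 15826040) (c (b (l 15907112) (l 15906736)) (l 15902928))) (a (c (b (l 15823768) (l 15827376)) (l 15822208)) (b (c (l 15911336) (l 15907224)) (a (l 15895312) (c (l 15946416) (l 15941352)))))) (b (c (l 15860232) (a (l 15816776) (l 15896928))) (a (c (l 15819696) (l 15817680)) (c (b (l 15903936) (l 15913488)) (l 15905920))))) (c (b (c (a (l 15811160) (l 15893592)) (l 15846128)) (c (a (l 15814392) (l 15903792)) (a (l 15809096) (l 15901304)))) (b (l 15835392) (c (l 15849128) (l 15842064))))), by decide +kernel⟩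

def k54_pp_022_a : ∃ t, chk3 f_pp_022_a t 76 13 1 = true :=
  ⟨(c (b (c (b (c (l 15837096) (l 15833384)) (a (c (l 15827208) (l 15822768)) (c (b (l 15875336) (l 15886872)) (l 15875880)))) (c (b (l 15830680) (l 15846184)) (b (l 15829032) (l 15843984)))) (c (b (a (c (b (l 15843808) (l 15857656)) (l 15845432)) (c (b (a (l 15886040) (l 15915576)) (l 15918184)) (b (l 15895416) (l 15911976)))) (a (c (b (a (l 15858632) (l 15889768)) (l 15894560)) (b (l 15868648) (a (l 15871568) (l 15904088)))) (c (l 15949624) (l 15942928)))) (b (a (c (l 15841120) (l 15838456)) (c (b (l 15890304) (l 15906336)) (l 15894104))) (a (c (b (l 15863400) (l 15882248)) (b (l 15859088) (l 15877016))) (c (b (l 15925424) (l 15947864)) (b (l 15919784) (l 15941592))))))) (c (b (c (l 15834688) (l 15832624)) (b (c (l 15864760) (l 15863792)) (a (c (l 15866328) (l 15864664)) (c (b (l 15915064) (l 15935944)) (b (l 15912848) (l 15931648)))))) (b (l 15824224) (c (b (l 15861968) (a (l 15863688) (l 15920936))) (l 15872160))))), by decide +kernel⟩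

def k55_pp_022_a : ∃ t, chk3 f_pp_022_a t 77 13 1 = true :=
  ⟨(c (b (c (b (a (c (l 15913104) (l 15908000)) (c (b (l 15960376) (l 15972720)) (b (l 15954928) (l 15966856)))) (a (c (b (l 15929864) (l 15944416)) (b (l 15924328) (l 15938400))) (c (l 15995952) (l 15989696)))) (b (a (l 15902440) (c (l 15955728) (l 15951368))) (a (c (l 15926136) (l 15921880)) (c (l 15983808) (l 15936376))))) (c (b (c (l 16002920) (a (l 15965024) (l 16028328))) (c (l 16048648) (l 16042728))) (b (a (c (b (l 15949264) (l 15968616)) (b (l 15943800) (l 15962600))) (l 16019200)) (c (l 16036760) (l 16030768))))) (b (c (b (c (l 15923896) (l 15922376)) (a (l 15918536) (c (l 15973504) (l 15970320)))) (c (b (l 15920160) (l 15942440)) (l 15926240))) (c (b (a (c (b (l 15939240) (l 15957152)) (l 15945312)) (c (l 16010336) (l 16005056))) (a (c (l 15990896) (l 15985416)) (l 16055992))) (b (c (a (l 15943680) (b (l 15991000) (l 16010608))) (a (l 15940928) (b (l 15988432) (l 15965080)))) (c (a (b (l 15969696) (l 15992296)) (l 16047392)) (a (c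 (l 194379023287) (l 15935112)) (b (l 16029432) (l 16055616)))))))), by decide +kernel⟩

def k56_pp_022_a : ∃ t, chk3 f_pp_022_a t 39 12 1 = true :=
  ⟨(c (b (a (c (a (b (l 15964392) (l 15968456)) (b (l 16002824) (c (l 15991768) (l 16007696)))) (c (b (l 15977432) (l 15983272)) (l 15976544))) (c (b (a (c (l 16025472) (l 16020248)) (l 16040808)) (a (c (l 16036960) (l 16031392)) (l 16055976))) (b (a (l 16013384) (c (l 16032392) (l 16027136))) (a (c (l 16026088) (l 16021056)) (l 16044560))))) (a (c (b (a (c (l 15980600) (l 15975560)) (c (l 16026656) (a (l 16011240) (l 16030800)))) (a (c (b (l 15992168) (l 16002616)) (b (l 15986776) (l 15996872))) (l 16045080))) (b (a (l 15969368) (c (l 16016056) (l 16011320))) (a (c (l 15986696) (l 15982168)) (c (l 16036504) (l 16031192))))) (b (c (l 16064640) (c (l 16056120) (l 16050648))) (c (l 16090896) (l 16079832))))) (c (b (a (c (l 15973816) (l 15970472)) (b (a (l 16006192) (c (l 16022440) (l 16018864))) (a (l 16015832) (c (l 16036344) (l 16031664))))) (a (a (c (l 15971600)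 (l 15969688)) (b (l 16007104) (c (l 16026296) (l 16022688)))) (b (a (c (l 16032960) (l 16028840)) (l 16054768)) (a (l 16054672) (l 16083168))))) (b (a (l 15963672) (c (b (l 16008360) (l 16019784)) (l 16009520))) (b (a (l 15979248) (a (c (l 16025888) (l 16022648)) (c (l 16047224) (l 16001120)))) (a (c (l 15997736) (l 15994120)) (a (c (l 16047624) (b (l 16037432) (l 16049976))) (l 153577053015))))))), by decide +kernel⟩

def k57_pp_022_a : ∃ t, chk3 f_pp_022_a t 39 13 1 = true :=
  ⟨(b (b (c (c (a (c (l 16049576) (l 16043728)) (l 16124192)) (a (a (c (l 16010680) (l 16005304)) (l 16062512)) (l 16113688))) (a (c (a (c (l 16000472) (l 15997128)) (c (l 16054120) (l 16048976))) (a (c (l 15995120) (l 15992192)) (c (l 16045104) (a (l 16030704) (l 16052000))))) (c (l 16103056) (a (c (l 16078872) (l 16074248)) (l 1))))) (a (c (c (c (l 16084352) (l 16078760)) (c (l 16073136) (l 16067480))) (c (a (c (l 16032472) (l 16027296)) (l 16088688)) (a (c (l 16023536) (b (l 16011912) (l 16028112))) (c (l 16080552) (a (l 16063160)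 (l 16088320)))))) (l 1))) (b (a (a (c (c (l 16094464) (l 16083424)) (c (l 16072240) (c (l 16063896) (b (l 16047696) (l 16070696))))) (l 1)) (l 1)) (l 1))), by decide +kernel⟩

def k58_pp_022_a : ∃ t, chk3 f_pp_022_a t 36 14 2 = true :=
  ⟨(b (c (a (b (c (b (l 15553064) (b (l 15558432) (a (l 15562920) (l 15566040)))) (l 15535880)) (c (l 15603216) (l 15604200))) (b (b (a (l 15541920) (l 15610648)) (a (c (l 15552048) (l 15552096)) (c (b (l 15597768) (l 15626984)) (l 15621920)))) (c (a (a (l 15609792) (b (l 15587776) (l 15625336))) (b (l 15653832) (l 15694048))) (a (l 15618440) (b (l 15651568) (l 15690592)))))) (b (a (c (l 15556528) (b (l 15527408) (l 15559440))) (a (b (l 15562104) (l 15573368)) (l 15616560))) (a (c (l 15605288) (l 15605432)) (c (a (l 15619440) (l 15670688)) (l 15646376))))) (a (c (b (c (a (l 15672072) (b (l 15639176) (l 15681112))) (a (l 15674248) (l 15681368))) (c (a (b (l 15734232) (l 15781960)) (l 15774424)) (a (l 15759040) (b (l 15746936) (l 15797144))))) (b (c (l 15680056) (l 15682760))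 (c (a (l 15761856) (l 15772560)) (l 15770608)))) (c (b (a (c (a (l 15690264) (l 15711720)) (a (l 15688216) (l 15708320))) (c (b (l 15738488) (l 15786424)) (l 15757848))) (a (c (a (l 15788536) (b (l 15785528) (c (l 15841048) (l 15838640)))) (a (l 15784504) (l 15808216))) (c (b (a (l 15820592) (b (l 15842688) (l 15871128))) (a (b (l 15862448) (l 15892840)) (l 15917256))) (b (a (l 15816296) (l 15851856)) (a (b (l 15857432) (l 15887016)) (l 15910864)))))) (b (c (a (a (l 15688704) (l 15707440)) (l 15713480)) (a (l 15700224) (l 15755128))) (a (c (a (l 15782376) (l 15804816)) (a (l 15782928) (l 15803912))) (c (b (l 15830024) (a (l 15868104) (l 15905504))) (b (l 15827664) (l 15883360)))))))), by decide +kernel⟩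

def k59_pp_022_a : ∃ t, chk3 f_pp_022_a t 37 28 2 = true :=
  ⟨(c (b (a (a (c (b (l 15666800) (l 15682272)) (b (l 15664520) (l 15678784))) (c (l 15735024) (b (l 15721624) (l 15739096)))) (a (b (c (l 15787088) (l 15781992)) (c (a (b (l 15785240) (l 15776008)) (b (l 15795960) (l 15830032))) (b (l 15795896) (l 15808040)))) (b (c (a (b (l 15807616) (l 15817920)) (l 15866808)) (a (l 15828200) (l 15860312))) (c (b (l 15867744) (l 15882448)) (a (b (l 15843776) (l 15857584)) (l 15885272)))))) (a (a (c (l 15737480) (l 15732968)) (c (b (b (l 15769424) (l 15791000)) (a (c (l 15809656) (l 15806944)) (b (l 15830424) (l 15855256)))) (b (l 15775160) (a (l 15803384) (l 15837040))))) (a (c (b (a (b (l 15817936) (l 15841224)) (l 15864656)) (l 15897408)) (b (a (l 15823824) (l 15857872)) (a (l 15872144) (l 15908704)))) (c (l 15944496) (l 15937640))))) (b (a (c (b (l 15692144) (a (l 15677648) (l 15735592))) (l 15699456)) (a (c (l 15787272) (l 15784672)) (a (b (l 15821256) (c (l 15845024) (l 15840112))) (b (l 15852392) (c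 (l 15878616) (l 15872840)))))) (a (c (a (l 15730384) (b (l 15770696) (l 15815504))) (a (l 15729816) (l 15790472))) (a (c (b (l 15793696) (a (l 15866232) (l 15901904))) (b (l 15831184) (l 15878992))) (c (b (l 15904752) (l 15957680)) (b (l 15856752) (l 15951104))))))), by decide +kernel⟩

def k60_pp_022_a : ∃ t, chk3 f_pp_022_a t 37 29 2 = true :=
  ⟨(c (a (a (b (c (b (a (l 15788392) (b (l 15788960) (l 15834864))) (a (b (l 15825232) (l 15851856)) (l 15875600))) (b (l 15800712) (a (l 15833584) (b (l 15855504) (l 15883024))))) (b (c (l 15914944) (c (l 15909944) (l 15864984))) (l 15974512))) (b (c (b (c (l 15878520) (l 15875152)) (l 15933152)) (b (a (b (l 15839120) (l 15864912)) (l 15888448)) (l 15926320))) (c (l 16025704) (l 16019552)))) (b (c (a (l 15980736) (l 16056720)) (l 96668485143)) (c (c (l 16020176) (l 16059576)) (l 227665210407)))) (a (b (a (c (b (l 15796440) (l 15847016)) (l 15819000)) (c (b (a (l 15847160) (l 15882464)) (a (l 15900832) (l 15938848))) (b (l 15860440) (a (l 15895768) (l 15932824)))))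 (a (c (b (a (l 15883760) (l 15921472)) (l 15964944)) (b (l 15877296) (a (l 15939232) (l 15978872)))) (c (l 16013360) (b (l 15974696) (l 16040584))))) (b (c (b (l 15850784) (l 16036632)) (a (b (l 15932344) (l 15991176)) (l 16038976))) (c (l 243771322247) (l 16024456))))), by decide +kernel⟩

def k61_pp_022_a : ∃ t, chk3 f_pp_022_a t 18 14 3 = true :=
  ⟨(a (b (c (b (a (l 15541448) (c (a (l 15563816) (l 15615896)) (l 15582728))) (a (c (l 15601632) (l 15593632)) (c (a (l 15620888) (l 15673760)) (l 15643576)))) (b (a (l 15521224) (l 15568128)) (a (l 15579040) (l 15631240)))) (c (a (c (b (l 15682824) (l 15774408)) (b (l 15678416) (l 15774216))) (c (b (l 15729888) (a (l 15796152) (l 15855376))) (b (a (l 15702840) (l 15759496)) (a (l 15799816) (l 15857664))))) (a (b (l 15665472) (l 15765104)) (c (b (l 15726656) (l 15744536)) (l 15707344))))) (b (c (b (a (c (l 15700248) (l 15698536)) (c (b (l 15804320) (a (l 15792384) (l 15853192))) (l 15750696))) (a (c (l 15761048) (l 15760824)) (a (c (b (l 15828504) (l 15875096))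 (l 15851336)) (c (b (l 15893368) (l 15945168)) (b (l 15890480) (l 15940248)))))) (b (c (a (l 15692864) (l 15811544)) (l 15745832)) (a (l 15734640) (c (a (l 15851288) (b (l 15889656) (l 15937824))) (a (l 15848744) (l 15912024)))))) (c (a (b (a (c (l 15818824) (l 15820624)) (b (l 15858640) (c (l 15910392) (l 15909128)))) (a (c (b (l 15895736) (l 15912816)) (b (l 15895360) (l 15889760))) (c (b (l 15969352) (l 16034664)) (b (l 15902536) (l 16029400))))) (b (a (c (b (l 15927032) (l 15985216)) (b (l 15923688) (l 15980048))) (c (l 16032984) (l 16027328))) (c (l 16103136) (l 15993104)))) (a (b (c (l 15789168) (l 15849248)) (c (a (l 15883744) (b (l 15964464) (l 15942088))) (a (l 15924288) (b (l 15963936) (a (l 16004256) (l 15978608)))))) (b (c (a (b (l 15923216) (l 15977264)) (b (l 15992048) (l 16052848))) (c (a (l 15928312) (b (l 15989536) (l 16049272))) (a (l 15948088) (b (l 15988144) (l 16047400))))) (a (c (l 308732631943) (b (a (l 16015384) (l 16053584)) (l 16102552))) (l 16131848))))))), by decide +kernel⟩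

def k62_pp_022_a : ∃ t, chk3 f_pp_022_a t 36 30 2 = true :=
  ⟨(b (a (c (c (a (l 15863600) (b (l 15856040) (a (l 15910048) (b (l 15906672) (l 15939480))))) (b (l 15864312) (a (l 15890144) (a (l 15906936) (l 15918952))))) (c (a (b (l 15834584) (l 15889720)) (b (l 15850504) (l 15910080))) (a (l 15865664) (l 15880616)))) (c (a (c (b (a (b (l 15836840) (l 15888464)) (b (l 15884696) (l 15917176))) (a (l 15938440) (l 15969000))) (b (a (l 15868944) (b (l 15879416) (l 15911048))) (a (b (l 15915616) (l 15949440)) (l 15962424)))) (c (l 15997056) (b (a (l 15935288) (l 15976600)) (l 16026160)))) (a (c (b (a (l 15865552) (l 15891000)) (a (l 15928216) (l 15956696))) (b (l 15875616) (a (l 15924800) (l 15952096)))) (c (b (a (l 15929768) (l 15970184)) (l 16020024)) (b (a (l 15925344) (l 15964712)) (l 16014368)))))) (c (a (a (c (b (a (l 15948632) (c (l 15962208) (l 15960440))) (c (c (a (b (a (l 15974120) (l 16002360)) (l 16034672)) (l 16034128)) (b (l 16006080) (b (l 16033112) (l 16052208)))) (a (l 16014824) (l 16030688))))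 (b (l 15952464) (a (l 16012912) (b (l 16009120) (l 16045736))))) (c (b (a (b (l 15958416) (l 15993544)) (l 15992696)) (c (l 16061184) (l 16057832))) (b (a (b (l 15954472) (l 15988664)) (l 15987016)) (l 16053640)))) (c (c (a (b (l 16027888) (a (l 16088832) (l 16121128))) (b (l 16108416) (l 16144632))) (a (l 16000000) (l 16144216))) (a (a (l 16042392) (l 16074688)) (l 16035512)))) (a (a (c (b (l 15950608) (l 16017944)) (b (l 15951464) (l 16017496))) (c (b (a (l 15968600) (l 15961496)) (a (l 15997880) (l 16057032))) (b (l 15973208) (a (l 16036432) (l 16052280))))) (a (b (a (c (l 15998208) (l 15993480)) (c (l 16029872) (l 16024032))) (a (l 16072904) (l 16106032))) (c (l 16093280) (l 16130040)))))), by decide +kernel⟩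

def k63_pp_022_a : ∃ t, chk3 f_pp_022_a t 36 30 3 = true :=
  ⟨(c (a (b (c (l 15877552) (c (l 15880176) (l 15882368))) (c (b (l 15965080) (a (l 16018744) (a (l 16034936) (l 16048720)))) (b (l 15969456) (a (l 16024224) (l 16022504))))) (b (a (c (a (l 15894280) (b (l 15886632) (l 15948912))) (l 15909024)) (c (b (a (l 15922832) (l 15960344)) (a (l 15988368) (l 16029832))) (b (l 15942032) (a (l 15985960) (l 16025336))))) (a (c (b (a (l 15989928) (l 16019264)) (a (l 16065136) (l 16097864))) (b (a (l 15990256) (l 16016128)) (a (l 16061504) (l 16092896)))) (c (l 15999048) (b (l 16079704) (l 16161024)))))) (a (c (b (l 15880736) (b (l 15972640) (l 16037536))) (b (l 15875216) (l 16003592))) (a (b (c (l 15827056) (l 15909768)) (c (b (l 15963904) (a (l 16061576) (l 16089816))) (a (l 16028672) (c (l 15928192) (l 16053824))))) (b (c (b (l 15943656) (l 15985496)) (l 15933168)) (c (b (a (l 16055240) (l 16096672)) (l 16156296)) (b (c (l 16012800) (l 16012264)) (a (c (l 16130696) (l 16129792)) (l 16174712)))))))), by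 decide +kernel⟩

def k64_pp_022_a : ∃ t, chk3 f_pp_022_a t 72 31 1 = true :=
  ⟨(c (c (b (c (c (b (l 16120768) (l 16205400)) (b (c (b (l 16099360) (l 16140168)) (l 16118192)) (a (l 16182600) (l 16222648)))) (b (a (c (l 16097160) (l 16095000)) (l 16134256)) (c (b (l 16179120) (l 16223448)) (l 16198504)))) (c (b (l 184179101031) (l 353293614951)) (c (b (a (l 16269576) (l 16227640)) (l 359736062231)) (b (l 16288592) (a (l 324839451463) (l 1)))))) (b (a (b (c (a (l 16083568) (l 16100456)) (a (l 16081520) (l 16097016))) (c (l 16174752) (a (l 16161048) (l 16180144)))) (c (l 16171920) (b (l 16124208) (l 16211024)))) (c (b (l 16243760) (l 381747763975)) (b (l 16281824) (l 398390756151))))) (a (b (c (c (b (a (l 16081680) (l 16094920)) (a (l 16158776) (l 16176448))) (b (l 16091776) (a (l 16159840) (l 16174240)))) (c (b (l 16097256) (b (l 16151312) (l 16189848))) (l 16115192))) (c (b (c (l 16256544) (a (l 16243256) (l 16263248))) (l 385505839127)) (c (b (a (b (l 16222224) (l 16264448)) (l 16239952)) (l 16283840))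 (a (b (l 16162024) (b (c (l 16310008) (l 16311016)) (l 16337248))) (b (c (l 16260760) (l 16261320)) (l 16271360)))))) (b (c (b (c (a (l 16110832) (l 16128800)) (a (l 16109240) (l 16125024))) (c (l 16206504) (l 16202544))) (c (b (a (l 16112408) (l 16124160)) (a (l 16127648) (l 16208424))) (b (l 16078672) (c (a (l 16191048) (l 16206704)) (a (l 16191896) (l 16206360)))))) (b (c (l 400538124103) (c (l 16292112) (c (l 16289832) (l 455298915111)))) (l 1))))), by decide +kernel⟩

def k65_pp_022_a : ∃ t, chk3 f_pp_022_a t 73 31 1 = true :=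
  ⟨(a (b (b (c (c (c (c (a (l 16168760) (l 16201896)) (a (l 16168096) (l 16201448))) (l 16180272)) (a (l 16156048) (l 16190032))) (c (a (l 16146088) (l 16180576)) (c (a (l 16139912) (l 16173424)) (a (c (l 16138640) (l 16138472)) (l 401611588247))))) (b (a (c (c (c (l 16231168) (l 16228184)) (l 16221584)) (c (l 16212680) (l 419865345431))) (l 1)) (l 1))) (l 1)) (l 1)), by decide +kernel⟩

def k66_pp_022_a : ∃ t, chk3 f_pp_022_a t 37 15 1 = true :=
  ⟨(a (b (b (c (c (c (c (l 134786499143) (l 15973680)) (c (l 16012960) (l 16031272))) (c (b (l 16074720) (l 16148208)) (b (l 16069040) (l 16143144)))) (c (a (b (c (l 16021424) (l 15995984)) (c (l 16094656) (l 16089304))) (l 315712094535)) (c (a (b (a (l 15995584) (l 16033112)) (l 16085168)) (l 16133240)) (a (b (c (l 16014600) (l 16014176)) (a (l 205653498679) (l 16060080))) (b (a (l 223907127479) (l 16111624)) (l 16167096)))))) (a (b (c (c (b (l 16170280) (c (l 299606234007) (l 16207216))) (l 16096440)) (c (l 16170728) (c (l 16163448) (l 16075632)))) (l 1)) (l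 1))) (l 1)) (l 1)), by decide +kernel⟩

def k67_pp_022_a : ∃ t, chk3 f_pp_022_a t 19 7 1 = true :=
  ⟨(a (b (b (a (c (c (b (c (b (l 15952304) (b (l 15972296) (l 15988296))) (b (l 15945560) (l 15973688))) (c (a (l 16017096) (l 16089528)) (l 94521084375))) (b (a (b (c (l 15904512) (l 15898624)) (c (l 15931448) (l 15924864))) (c (l 15987912) (l 15981472))) (c (l 16041480) (l 16035504)))) (c (b (a (c (b (l 15893584) (l 15918936)) (b (l 15891072) (l 15914232))) (b (c (l 15960656) (l 15954976)) (l 15986960))) (c (l 15966640) (a (l 15986304) (l 16061256)))) (b (c (a (b (l 15890120) (l 15912064)) (b (l 15951208) (l 15978328))) (a (l 15898904) (b (l 15948472) (a (l 15956472) (l 15990584))))) (a (c (b (l 15954424) (l 16008416)) (b (a (l 15934072) (l 15967144)) (a (l 15985432) (l 16021848)))) (c (l 16055488) (l 359735334359)))))) (a (b (c (c (c (l 324838884151) (l 16064088)) (c (l 16058296) (l 16052480))) (c (l 16043664) (b (c (l 16019152) (l 16014312)) (l 16048040)))) (l 1)) (l 1))) (a (b (a (b (c (c (l 177199450135)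 (l 16088280)) (c (l 16077112) (l 16045208))) (l 1)) (l 1)) (l 1)) (l 1))) (l 1)) (l 1)), by decide +kernel⟩

def k68_pp_022_a : ∃ t, chk3 f_pp_022_a t 5 3 1 = true :=
  ⟨(b (b (a (a (a (a (b (c (c (c (l 16082280) (l 16076680)) (c (l 16071048) (l 16065424))) (c (b (c (l 16050424) (l 16045168)) (l 16067664)) (c (a (b (l 16030880) (l 16047896)) (l 16059696)) (b (a (l 16026808) (l 16044344)) (a (l 16043336) (l 16065616)))))) (b (c (c (l 16115560) (l 16104896)) (c (l 16094096) (l 139081547047))) (l 1))) (l 1)) (l 1)) (l 1)) (l 1)) (l 1)) (l 1)), by decide +kernel⟩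

def k69_pp_022_a : ∃ t, chk3 f_pp_022_a t 3 1 1 = true :=
  ⟨(l 1), by decide +kernel⟩

theorem s70_pp_022_a : ∃ t, chk3 f_pp_022_a t 36 31 1 = true := ex3_a k64_pp_022_a k65_pp_022_a

theorem s71_pp_022_a : ∃ t, chk3 f_pp_022_a t 36 30 1 = true := ex3_c k62_pp_022_a k63_pp_022_a

theorem s72_pp_022_a : ∃ t, chk3 f_pp_022_a t 36 15 1 = true := ex3_b s71_pp_022_a s70_pp_022_a

theorem s73_pp_022_a : ∃ t, chk3 f_pp_022_a t 18 15 1 = true := ex3_a s72_pp_022_a k66_pp_022_a

theorem s74_pp_022_a : ∃ t, chk3 f_pp_022_a t 37 14 2 = true := ex3_b k59_pp_022_a k60_pp_022_a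

theorem s75_pp_022_a : ∃ t, chk3 f_pp_022_a t 18 14 2 = true := ex3_a k58_pp_022_a s74_pp_022_a

theorem s76_pp_022_a : ∃ t, chk3 f_pp_022_a t 18 14 1 = true := ex3_c s75_pp_022_a k61_pp_022_a

theorem s77_pp_022_a : ∃ t, chk3 f_pp_022_a t 18 7 1 = true := ex3_b s76_pp_022_a s73_pp_022_a

theorem s78_pp_022_a : ∃ t, chk3 f_pp_022_a t 9 7 1 = true := ex3_a s77_pp_022_a k67_pp_022_a

theorem s79_pp_022_a : ∃ t, chk3 f_pp_022_a t 39 6 1 = true := ex3_b k56_pp_022_a k57_pp_022_a

theorem s80_pp_022_a : ∃ t, chk3 f_pp_022_a t 38 13 1 = true := ex3_a k54_pp_022_a k55_pp_022_a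

theorem s81_pp_022_a : ∃ t, chk3 f_pp_022_a t 38 6 1 = true := ex3_b k53_pp_022_a s80_pp_022_a

theorem s82_pp_022_a : ∃ t, chk3 f_pp_022_a t 19 6 1 = true := ex3_a s81_pp_022_a s79_pp_022_a

theorem s83_pp_022_a : ∃ t, chk3 f_pp_022_a t 18 6 1 = true := ex3_b k51_pp_022_a k52_pp_022_a

theorem s84_pp_022_a : ∃ t, chk3 f_pp_022_a t 9 6 1 = true := ex3_a s83_pp_022_a s82_pp_022_a

theorem s85_pp_022_a : ∃ t, chk3 f_pp_022_a t 9 3 1 = true := ex3_b s84_pp_022_a s78_pp_022_a

theorem s86_pp_022_a : ∃ t, chk3 f_pp_022_a t 17 15 5 = true := ex3_a k48_pp_022_a k49_pp_022_a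

theorem s87_pp_022_a : ∃ t, chk3 f_pp_022_a t 17 15 9 = true := ex3_b k46_pp_022_a k47_pp_022_a

theorem s88_pp_022_a : ∃ t, chk3 f_pp_022_a t 35 31 8 = true := ex3_a k44_pp_022_a k45_pp_022_a

theorem s89_pp_022_a : ∃ t, chk3 f_pp_022_a t 35 15 8 = true := ex3_b k43_pp_022_a s88_pp_022_a

theorem s90_pp_022_a : ∃ t, chk3 f_pp_022_a t 17 15 8 = true := ex3_a k42_pp_022_a s89_pp_022_a

theorem s91_pp_022_a : ∃ t, chk3 f_pp_022_a t 17 15 4 = true := ex3_c s90_pp_022_a s87_pp_022_a

theorem s92_pp_022_a : ∃ t, chk3 f_pp_022_a t 17 15 2 = true := ex3_c s91_pp_022_a s86_pp_022_a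

theorem s93_pp_022_a : ∃ t, chk3 f_pp_022_a t 17 15 1 = true := ex3_c s92_pp_022_a k50_pp_022_a

theorem s94_pp_022_a : ∃ t, chk3 f_pp_022_a t 32 15 7 = true := ex3_b k39_pp_022_a k40_pp_022_a

theorem s95_pp_022_a : ∃ t, chk3 f_pp_022_a t 32 15 3 = true := ex3_c k38_pp_022_a s94_pp_022_a

theorem s96_pp_022_a : ∃ t, chk3 f_pp_022_a t 16 15 3 = true := ex3_a s95_pp_022_a k41_pp_022_a

theorem s97_pp_022_a : ∃ t, chk3 f_pp_022_a t 32 31 2 = true := ex3_a k35_pp_022_a k36_pp_022_a

theorem s98_pp_022_a : ∃ t, chk3 f_pp_022_a t 16 31 2 = true := ex3_a s97_pp_022_a k37_pp_022_a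

theorem s99_pp_022_a : ∃ t, chk3 f_pp_022_a t 16 15 2 = true := ex3_b k34_pp_022_a s98_pp_022_a

theorem s100_pp_022_a : ∃ t, chk3 f_pp_022_a t 16 15 1 = true := ex3_c s99_pp_022_a s96_pp_022_a

theorem s101_pp_022_a : ∃ t, chk3 f_pp_022_a t 8 15 1 = true := ex3_a s100_pp_022_a s93_pp_022_a

theorem s102_pp_022_a : ∃ t, chk3 f_pp_022_a t 35 14 2 = true := ex3_a k31_pp_022_a k32_pp_022_a

theorem s103_pp_022_a : ∃ t, chk3 f_pp_022_a t 34 14 2 = true := ex3_c k29_pp_022_a k30_pp_022_a

theorem s104_pp_022_a : ∃ t, chk3 f_pp_022_a t 17 14 2 = true := ex3_a s103_pp_022_a s102_pp_022_a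

theorem s105_pp_022_a : ∃ t, chk3 f_pp_022_a t 17 14 1 = true := ex3_c s104_pp_022_a k33_pp_022_a

theorem s106_pp_022_a : ∃ t, chk3 f_pp_022_a t 16 14 3 = true := ex3_a k27_pp_022_a k28_pp_022_a

theorem s107_pp_022_a : ∃ t, chk3 f_pp_022_a t 16 14 2 = true := ex3_a k25_pp_022_a k26_pp_022_a

theorem s108_pp_022_a : ∃ t, chk3 f_pp_022_a t 16 14 1 = true := ex3_c s107_pp_022_a s106_pp_022_a

theorem s109_pp_022_a : ∃ t, chk3 f_pp_022_a t 8 14 1 = true := ex3_a s108_pp_022_a s105_pp_022_a

theorem s110_pp_022_a : ∃ t, chk3 f_pp_022_a t 8 7 1 = true := ex3_b s109_pp_022_a s101_pp_022_a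

theorem s111_pp_022_a : ∃ t, chk3 f_pp_022_a t 35 13 2 = true := ex3_c k22_pp_022_a k23_pp_022_a

theorem s112_pp_022_a : ∃ t, chk3 f_pp_022_a t 17 13 2 = true := ex3_a k21_pp_022_a s111_pp_022_a

theorem s113_pp_022_a : ∃ t, chk3 f_pp_022_a t 17 13 1 = true := ex3_c s112_pp_022_a k24_pp_022_a

theorem s114_pp_022_a : ∃ t, chk3 f_pp_022_a t 17 12 2 = true := ex3_a k18_pp_022_a k19_pp_022_a

theorem s115_pp_022_a : ∃ t, chk3 f_pp_022_a t 17 12 1 = true := ex3_c s114_pp_022_a k20_pp_022_a

theorem s116_pp_022_a : ∃ t, chk3 f_pp_022_a t 17 6 1 = true := ex3_b s115_pp_022_a s113_pp_022_a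

theorem s117_pp_022_a : ∃ t, chk3 f_pp_022_a t 16 6 3 = true := ex3_b k16_pp_022_a k17_pp_022_a

theorem s118_pp_022_a : ∃ t, chk3 f_pp_022_a t 16 6 2 = true := ex3_b k14_pp_022_a k15_pp_022_a

theorem s119_pp_022_a : ∃ t, chk3 f_pp_022_a t 16 6 1 = true := ex3_c s118_pp_022_a s117_pp_022_a

theorem s120_pp_022_a : ∃ t, chk3 f_pp_022_a t 8 6 1 = true := ex3_a s119_pp_022_a s116_pp_022_a

theorem s121_pp_022_a : ∃ t, chk3 f_pp_022_a t 8 3 1 = true := ex3_b s120_pp_022_a s110_pp_022_a

theorem s122_pp_022_a : ∃ t, chk3 f_pp_022_a t 4 3 1 = true := ex3_a s121_pp_022_a s85_pp_022_a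

theorem s123_pp_022_a : ∃ t, chk3 f_pp_022_a t 2 3 1 = true := ex3_a s122_pp_022_a k68_pp_022_a

theorem s124_pp_022_a : ∃ t, chk3 f_pp_022_a t 20 5 1 = true := ex3_b k10_pp_022_a k11_pp_022_a

theorem s125_pp_022_a : ∃ t, chk3 f_pp_022_a t 10 5 1 = true := ex3_a s124_pp_022_a k12_pp_022_a

theorem s126_pp_022_a : ∃ t, chk3 f_pp_022_a t 10 2 1 = true := ex3_b k9_pp_022_a s125_pp_022_a

theorem s127_pp_022_a : ∃ t, chk3 f_pp_022_a t 5 2 1 = true := ex3_a s126_pp_022_a k13_pp_022_a

theorem s128_pp_022_a : ∃ t, chk3 f_pp_022_a t 18 5 1 = true := ex3_a k6_pp_022_a k7_pp_022_a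

theorem s129_pp_022_a : ∃ t, chk3 f_pp_022_a t 9 5 1 = true := ex3_a s128_pp_022_a k8_pp_022_a

theorem s130_pp_022_a : ∃ t, chk3 f_pp_022_a t 9 2 1 = true := ex3_b k5_pp_022_a s129_pp_022_a

theorem s131_pp_022_a : ∃ t, chk3 f_pp_022_a t 17 11 1 = true := ex3_c k3_pp_022_a k4_pp_022_a

theorem s132_pp_022_a : ∃ t, chk3 f_pp_022_a t 8 11 1 = true := ex3_a k2_pp_022_a s131_pp_022_a

theorem s133_pp_022_a : ∃ t, chk3 f_pp_022_a t 8 5 1 = true := ex3_b k1_pp_022_a s132_pp_022_a

theorem s134_pp_022_a : ∃ t, chk3 f_pp_022_a t 8 2 1 = true := ex3_b k0_pp_022_a s133_pp_022_a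

theorem s135_pp_022_a : ∃ t, chk3 f_pp_022_a t 4 2 1 = true := ex3_a s134_pp_022_a s130_pp_022_a

theorem s136_pp_022_a : ∃ t, chk3 f_pp_022_a t 2 2 1 = true := ex3_a s135_pp_022_a s127_pp_022_a

theorem s137_pp_022_a : ∃ t, chk3 f_pp_022_a t 2 1 1 = true := ex3_b s136_pp_022_a s123_pp_022_a

theorem s138_pp_022_a : ∃ t, chk3 f_pp_022_a t 1 1 1 = true := ex3_a s137_pp_022_a k69_pp_022_a

theorem c_pp_022_a : CertNX 0 536870912 0 420477299 1046898278 26843546 3 false true true .pp 0 2 2
    ndN0q0 ndN2q2a pcN2 Cut.none Ext.none :=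
  certNX0 (fam := false) (s1 := true) (s2 := true) (a := 0) (b := 2) (c := 2) (cn := .pp) (n1 := ndN0q0) (n2 := ndN2q2a) (pc := pcN2) (cut := Cut.none) (xt := Ext.none) (P1 := 0) (W1 := 536870912) (P2 := 0) (W2 := 420477299) (P3 := 1046898278) (W3 := 26843546) (N0 := 3)
    rfl s138_pp_022_a

noncomputable def f_pp_022_b : ℕ → ℕ → ℕ → ℕ → Bool := onCell 0 536870912 1073741824 536870912 1046898278 26843546
    (rowNX 3 1 false true true .pp 0 2 2 (qsf 0 536870912 1239849684 370763052 2) ndN0q0 ndN2q2b pcN2 Cut.none Ext.none)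

def k0_pp_022_b : ∃ t, chk3 f_pp_022_b t 4 4 1 = true :=
  ⟨(a (b (l 1) (b (a (l 1) (a (l 1) (c (a (l 1) (a (l 1) (b (l 1) (l 444023571671)))) (l 423622500135)))) (a (a (l 1) (a (l 1) (a (l 1) (b (l 1) (c (l 446708175271) (l 413422159735)))))) (c (a (c (a (l 441339367303) (c (l 378525575975) (b (l 468183082007) (l 16075512)))) (b (a (l 1) (a (l 1) (l 15889984))) (a (c (l 15988816) (l 344165855703)) (c (l 15963472) (l 16050192))))) (c (a (b (c (l 363493234167) (a (l 383894203991) (l 15950680))) (c (l 16198800) (l 16059064))) (c (c (l 15912536) (l 15933232)) (l 16003776))) (l 15848952))) (a (b (l 15898616) (l 16000472)) (l 15836840)))))) (b (a (b (l 1) (a (l 1) (b (l 1) (c (l 456908605655) (l 357050564151))))) (b (a (l 1) (a (l 1) (c (l 373157346551) (l 338260705767)))) (a (b (c (l 403758670727) (l 341481601895)) (c (l 15904384) (l 15971952))) (b (a (c (l 16087760) (l 16135504)) (l 16235784)) (l 16223352))))) (a (a (b (a (b (l 1) (c (l 15856992) (l 15831464))) (b (l 388725875687) (l 15926640))) (c (b (l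 15985216) (l 16225304)) (l 15936976))) (b (b (c (l 15841248) (l 15883264)) (l 15996400)) (b (l 16158664) (l 15946392)))) (b (a (b (l 16119440) (l 16078912)) (b (l 16059688) (l 15887216))) (a (b (l 15929984) (l 15726224)) (b (l 15683144) (l 15485712))))))), by decide +kernel⟩

def k1_pp_022_b : ∃ t, chk3 f_pp_022_b t 5 4 1 = true :=
  ⟨(b (a (b (a (a (b (c (l 356514426407) (l 322691524823)) (c (l 190084459655) (l 16129040))) (b (c (l 192768859191) (l 16151528)) (l 16329920))) (b (a (l 16352320) (l 16213392)) (c (l 16011336) (l 16017288)))) (a (b (a (l 16303824) (l 16151832)) (c (l 15962304) (l 15967496))) (b (c (l 15769840) (l 15787272)) (a (l 15802840) (l 15628816))))) (a (c (b (a (l 15788888) (l 15725224)) (l 15519600)) (b (a (l 15807064) (l 15735496)) (l 15477496))) (b (a (c (l 15675632) (l 15637336)) (l 15614776)) (c (a (l 15320160) (l 15281464)) (l 15248904))))) (a (b (a (b (a (l 15996368) (l 15776840)) (a (l 15744888) (l 15570376))) (c (l 15459944) (l 15417792))) (a (c (l 15375784) (l 15332576))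 (c (l 15106384) (l 15051912)))) (a (b (c (l 15190856) (l 15137248)) (c (l 14861648) (l 14796504))) (c (b (a (l 15008216) (l 14972288)) (l 14680400)) (b (l 14927472) (l 14607000)))))), by decide +kernel⟩

def k2_pp_022_b : ∃ t, chk3 f_pp_022_b t 8 10 1 = true :=
  ⟨(a (c (b (b (a (l 484826360295) (a (l 15971792) (a (l 798359227175) (l 15957488)))) (a (l 15760176) (a (l 15931176) (c (l 15998880) (b (l 16112880) (l 15913144)))))) (a (l 15228600) (c (l 15391632) (a (l 15340992) (l 15266320))))) (b (b (a (a (l 1) (a (l 1) (c (l 16014336) (l 15968152)))) (c (a (c (l 15981800) (b (l 15937368) (l 15971504))) (b (l 15980536) (l 16064672))) (l 16055664))) (a (c (a (l 15799344) (l 15789568)) (a (c (l 15730480) (a (c (l 15774656) (l 15518384)) (l 15575176))) (c (a (l 15636760) (l 15872800)) (l 15840856)))) (c (a (c (l 15938184) (l 15789256)) (b (l 16073272) (l 15890648))) (l 15952656)))) (a (c (a (l 15155064) (l 15219824)) (a (c (l 15139976) (a (c (l 15109256) (l 15101520)) (l 15141704))) (c (a (l 15034472) (l 15255688))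 (l 15214536)))) (c (a (c (l 15340688) (l 15102128)) (c (l 15244008) (l 15401704))) (l 15346064))))) (b (c (b (a (c (b (l 16009272) (l 16085712)) (a (c (l 16238904) (l 16115744)) (c (l 16187744) (l 16255896)))) (c (c (a (l 16209456) (l 16056072)) (a (l 16146656) (l 16190032))) (l 16232416))) (a (c (a (l 16091128) (l 15930648)) (a (c (l 16117808) (l 15993664)) (l 15937272))) (c (a (c (l 16276552) (l 16180152)) (l 15973304)) (l 16231144)))) (b (l 16075352) (l 15994936))) (c (a (c (b (l 15588448) (l 15219536)) (a (c (l 15445464) (b (l 15713608) (l 15342928))) (b (l 15666224) (l 15372096)))) (c (b (b (a (l 15859680) (c (l 15994696) (l 15988504))) (a (l 15698168) (l 15816560))) (c (l 15363496) (l 15500312))) (l 15561832))) (b (l 15642368) (l 15368200))))), by decide +kernel⟩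

def k3_pp_022_b : ∃ t, chk3 f_pp_022_b t 9 10 1 = true :=
  ⟨(b (a (b (a (c (a (l 16100488) (l 15992312)) (l 15969656)) (l 15743048)) (a (c (l 15968272) (l 16016632)) (l 15814864))) (b (a (l 15508992) (l 15299256)) (a (l 15675424) (l 15475416)))) (a (a (c (a (l 15699600) (l 15680872)) (l 15538488)) (b (l 16131488) (l 15786360))) (b (a (l 16064960) (l 15916800)) (a (l 16062224) (l 16307560))))), by decide +kernel⟩

def k4_pp_022_b : ∃ t, chk3 f_pp_022_b t 4 11 1 = true :=
  ⟨(a (b (a (c (a (l 14486336) (c (l 14650496) (a (l 14592912) (l 14676064)))) (a (c (a (l 14391464) (l 14480960)) (a (c (l 14365040) (a (l 14320072) (l 14362344))) (c (a (l 14390904) (l 14486568)) (l 14435680)))) (c (c (a (l 14581264) (l 14621176)) (b (l 14670256) (l 14398816))) (l 14558712)))) (c (a (c (a (l 14775936) (l 14606520)) (a (c (l 14782488) (l 14749632)) (l 14606672))) (c (c (a (l 14951408) (l 14976624)) (l 14776504)) (l 14866968))) (l 14764280))) (a (c (a (l 14098432) (c (l 14246096) (l 14222096))) (a (c (l 14035168) (a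 (c (l 13965416) (a (l 13921688) (l 13951440))) (c (l 14032624) (l 14012448)))) (c (a (c (l 14160056) (l 14140136)) (l 14223048)) (l 14128088)))) (c (a (c (l 14408216) (c (a (l 14371336) (l 14426128)) (l 14358568))) (c (c (l 14454216) (l 14538816)) (l 14476208))) (l 14351552)))) (b (a (a (c (l 14995720) (l 14944544)) (l 15246000)) (c (l 15450912) (l 15479712))) (a (a (c (l 14627128) (l 14559600)) (l 14887536)) (l 15249608)))), by decide +kernel⟩

def k5_pp_022_b : ∃ t, chk3 f_pp_022_b t 5 5 1 = true :=
  ⟨(b (b (a (b (c (l 14751992) (l 14924872)) (a (l 15271104) (l 15027576))) (b (a (l 14597544) (c (l 14467712) (l 14386840))) (a (l 14808816) (l 14648848)))) (a (b (a (l 15743520) (l 15512848)) (a (l 16108624) (l 15975016))) (a (l 15316568) (l 15150944)))) (b (a (a (b (l 16212736) (l 15950344)) (l 16247808)) (a (l 16198824) (b (l 16104328) (l 16543080)))) (a (a (l 15795352) (l 16158536)) (a (l 16497000) (l 16754424))))), by decide +kernel⟩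

def k6_pp_022_b : ∃ t, chk3 f_pp_022_b t 3 2 1 = true :=
  ⟨(a (b (b (a (c (b (l 15642128) (l 15284264)) (b (l 15602288) (l 15231856))) (c (b (l 15656616) (l 15290040)) (l 15294464))) (a (c (b (l 14972432) (l 14664184)) (b (l 14909088) (l 14590016))) (c (l 14813128) (l 14744184)))) (b (b (b (a (l 14412256) (l 14411504)) (a (l 14634856) (l 14634376))) (a (l 15159560) (l 15390184))) (b (a (b (l 16093400) (l 16533024)) (l 16316296)) (l 16776568)))) (b (b (a (c (l 15331712) (l 15432928)) (c (l 15451368) (l 15448248))) (a (c (l 14812704) (l 14743752)) (c (l 14812168) (l 14743200)))) (b (b (b (c (l 14450200) (l 14368520)) (l 2)) (l 2)) (l 2)))), by decide +kernel⟩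

def k7_pp_022_b : ∃ t, chk3 f_pp_022_b t 1 3 1 = true :=
  ⟨(a (a (a (c (a (b (b (a (l 14097888) (l 14233760)) (l 14127904)) (l 14148872)) (b (c (a (b (l 14407656) (l 14407656)) (b (l 14429512) (l 14555336))) (a (b (c (l 14394232) (l 14358000)) (l 14371352)) (l 14475664))) (a (c (l 14407656) (l 14371352)) (l 14526896)))) (a (b (a (c (l 14034608) (a (b (c (l 13964856) (l 13937912)) (l 13759664)) (b (l 14007128) (l 14007128)))) (c (a (c (l 14159440) (l 14139512)) (l 14222448)) (l 14127464))) (a (c (l 14034608) (a (l 13780640) (l 14007128))) (c (a (l 14133304) (l 14222448)) (l 14127464)))) (b (l 14350976) (l 14350976)))) (b (a (a (b (l 14589296) (l 14589296)) (l 14887040)) (b (l 15354008) (l 15354008))) (a (a (l 14589296) (l 14887040)) (l 15354008)))) (b (a (b (l 15958688) (l 15979656)) (a (l 16496704) (l 16754176))) (a (l 15979656) (l 2)))) (b (a (c (l 16777216) (l 16777216)) (l 2)) (l 2))), by decide +kernel⟩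

theorem s8_pp_022_b : ∃ t, chk3 f_pp_022_b t 4 10 1 = true := ex3_a k2_pp_022_b k3_pp_022_b

theorem s9_pp_022_b : ∃ t, chk3 f_pp_022_b t 4 5 1 = true := ex3_b s8_pp_022_b k4_pp_022_b

theorem s10_pp_022_b : ∃ t, chk3 f_pp_022_b t 2 5 1 = true := ex3_a s9_pp_022_b k5_pp_022_b

theorem s11_pp_022_b : ∃ t, chk3 f_pp_022_b t 2 4 1 = true := ex3_a k0_pp_022_b k1_pp_022_b

theorem s12_pp_022_b : ∃ t, chk3 f_pp_022_b t 2 2 1 = true := ex3_b s11_pp_022_b s10_pp_022_b

theorem s13_pp_022_b : ∃ t, chk3 f_pp_022_b t 1 2 1 = true := ex3_a s12_pp_022_b k6_pp_022_b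

theorem s14_pp_022_b : ∃ t, chk3 f_pp_022_b t 1 1 1 = true := ex3_b s13_pp_022_b k7_pp_022_b

theorem c_pp_022_b : CertNX 0 536870912 1239849684 370763052 1046898278 26843546 3 false true true .pp 0 2 2
    ndN0q0 ndN2q2b pcN2 Cut.none Ext.none :=
  certNX1 (fam := false) (s1 := true) (s2 := true) (a := 0) (b := 2) (c := 2) (cn := .pp) (n1 := ndN0q0) (n2 := ndN2q2b) (pc := pcN2) (cut := Cut.none) (xt := Ext.none) (P1 := 0) (W1 := 536870912) (P2 := 1239849684) (W2 := 370763052) (P3 := 1046898278) (W3 := 26843546) (N0 := 3)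
    rfl (fun _ => rfl) s14_pp_022_b

noncomputable def f_pp_023 : ℕ → ℕ → ℕ → ℕ → Bool := onCell 0 536870912 1073741824 536870912 1046898278 26843546
    (rowNX 3 1 false true true .up 0 2 3 (qsf 0 536870912 1610612736 469762048 2) ndN0q0 ndN2q3 pcN2 Cut.none Ext.none)

def k0_pp_023 : ∃ t, chk3 f_pp_023 t 1 1 1 = true :=
  ⟨(b (a (b (l 1) (a (l 1) (b (l 1) (b (l 1) (a (l 1) (l 437045780375)))))) (b (a (b (l 1) (a (l 1) (l 331278406855))) (b (a (l 308194311703) (c (l 15430392) (l 15448248))) (a (c (l 14812704) (l 14743752)) (c (l 14812168) (l 14743200))))) (b (b (a (a (l 1) (b (l 14411504) (l 14634376))) (b (c (l 14450200) (l 14368520)) (a (l 14633440) (l 14632072)))) (a (a (l 15138584) (l 15390184)) (a (l 15389856) (l 15389264)))) (b (a (a (l 1184369759399) (l 16316296)) (a (l 16316320) (l 16316272))) (a (l 16776568) (l 16776568)))))) (b (a (a (a (l 1) (a (l 1) (l 350606910247))) (a (l 251287042823) (a (l 16496704) (l 16754176)))) (a (c (l 16777216) (l 16777216)) (l 16777072))) (a (a (a (a (b (l 1) (c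 (l 14169840) (a (c (l 14034608) (l 13981696)) (l 14117520)))) (c (a (c (l 14407656) (l 14371352)) (l 14526896)) (l 14350976))) (a (a (l 14589296) (l 14887040)) (l 15354008))) (a (l 15979656) (l 16627952))) (a (l 16777072) (b (l 16748840) (a (l 16749152) (l 16727976))))))), by decide +kernel⟩

theorem c_pp_023 : CertNX 0 536870912 1610612736 469762048 1046898278 26843546 3 false true true .up 0 2 3
    ndN0q0 ndN2q3 pcN2 Cut.none Ext.none :=
  certNX1 (fam := false) (s1 := true) (s2 := true) (a := 0) (b := 2) (c := 3) (cn := .up) (n1 := ndN0q0) (n2 := ndN2q3) (pc := pcN2) (cut := Cut.none) (xt := Ext.none) (P1 := 0) (W1 := 536870912) (P2 := 1610612736) (W2 := 469762048) (P3 := 1046898278) (W3 := 26843546) (N0 := 3)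
    rfl (fun _ => rfl) k0_pp_023

noncomputable def f_pp_033 : ℕ → ℕ → ℕ → ℕ → Bool := onCell 0 536870912 1610612736 536870912 1046898278 26843546
    (rowNX 3 1 false true true .pnn 0 3 3 (qsf 0 536870912 1610612736 469762048 3) ndN0q0 ndN2q3 pcN3 Cut.none Ext.none)

def k0_pp_033 : ∃ t, chk3 f_pp_033 t 1 1 1 = true :=
  ⟨(a (b (a (b (a (c (a (l 118676286951) (c (a (l 14407656) (l 14555336)) (a (l 14371352) (l 14475664)))) (a (a (c (l 14034608) (b (l 13981696) (l 13981696))) (b (l 14117520) (l 14117520))) (l 14350976))) (a (b (l 14693480) (l 14693480)) (b (l 15354008) (l 15354008)))) (a (c (a (b (l 14169840) (l 14169840)) (b (c (l 14331352) (l 14422488)) (c (a (l 14407664) (l 14555368)) (l 14422512)))) (c (a (a (l 14034608) (b (l 14165704) (l 14165704))) (l 14370920)) (a (a (b (l 13981696) (l 13981696)) (l 14127464)) (l 14329096)))) (c (b (a (l 14728656) (l 15378712)) (a (l 14728760) (l 15378880))) (b (l 15013352) (l 14803800))))) (b (a (b (l 15979656) (l 15979680)) (b (l 16627976) (l 16628144))) (a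 (b (l 15979840) (b (l 15977144) (l 15951272))) (b (a (l 16494144) (l 16722416)) (b (l 16449032) (l 4)))))) (a (b (b (a (l 4) (l 4)) (l 4)) (l 4)) (b (l 4) (l 2)))) (b (a (b (b (a (l 16777016) (l 16749152)) (a (l 16749152) (l 16727976))) (b (b (a (l 16741048) (l 16659592)) (a (l 16720736) (l 2))) (a (b (l 16659592) (l 2)) (l 2)))) (b (b (a (l 16727976) (l 16594816)) (a (l 16594816) (l 2))) (l 2))) (l 2))), by decide +kernel⟩

theorem c_pp_033 : CertNX 0 536870912 1610612736 469762048 1046898278 26843546 3 false true true .pnn 0 3 3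
    ndN0q0 ndN2q3 pcN3 Cut.none Ext.none :=
  certNX1 (fam := false) (s1 := true) (s2 := true) (a := 0) (b := 3) (c := 3) (cn := .pnn) (n1 := ndN0q0) (n2 := ndN2q3) (pc := pcN3) (cut := Cut.none) (xt := Ext.none) (P1 := 0) (W1 := 536870912) (P2 := 1610612736) (W2 := 469762048) (P3 := 1046898278) (W3 := 26843546) (N0 := 3)
    rfl (fun _ => rfl) k0_pp_033

noncomputable def f_pp_101 : ℕ → ℕ → ℕ → ℕ → Bool := onCell 536870912 536870912 536870912 536870912 1046898278 26843546
    (rowNX 3 0 false true true .npn 1 0 1 (qsf 536870912 536870912 536870912 536870912 0) ndN0q1 ndN2q1 pcN0 Cut.none Ext.none)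

def k0_pp_101 : ∃ t, chk3 f_pp_101 t 1 1 1 = true :=
  ⟨(l 3), by decide +kernel⟩

theorem c_pp_101 : CertNX 536870912 536870912 536870912 536870912 1046898278 26843546 3 false true true .npn 1 0 1
    ndN0q1 ndN2q1 pcN0 Cut.none Ext.none :=
  certNX0 (fam := false) (s1 := true) (s2 := true) (a := 1) (b := 0) (c := 1) (cn := .npn) (n1 := ndN0q1) (n2 := ndN2q1) (pc := pcN0) (cut := Cut.none) (xt := Ext.none) (P1 := 536870912) (W1 := 536870912) (P2 := 536870912) (W2 := 536870912) (P3 := 1046898278) (W3 := 26843546) (N0 := 3)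
    rfl k0_pp_101

noncomputable def f_pp_102_a : ℕ → ℕ → ℕ → ℕ → Bool := onCell 536870912 536870912 0 420477299 1046898278 26843546
    (rowNX 3 0 false true true .npp 1 0 2 (qsf 536870912 536870912 0 420477299 0) ndN0q1 ndN2q2a pcN0 Cut.none Ext.none)

def k0_pp_102_a : ∃ t, chk3 f_pp_102_a t 1 1 1 = true :=
  ⟨(l 3), by decide +kernel⟩

theorem c_pp_102_a : CertNX 536870912 536870912 0 420477299 1046898278 26843546 3 false true true .npp 1 0 2
    ndN0q1 ndN2q2a pcN0 Cut.none Ext.none :=
  certNX0 (fam := false) (s1 := true) (s2 := true) (a := 1) (b := 0) (c := 2) (cn := .npp) (n1 := ndN0q1) (n2 := ndN2q2a) (pc := pcN0) (cut := Cut.none) (xt := Ext.none) (P1 := 536870912) (W1 := 536870912) (P2 := 0) (W2 := 420477299) (P3 := 1046898278) (W3 := 26843546) (N0 := 3)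
    rfl k0_pp_102_a

noncomputable def f_pp_102_b : ℕ → ℕ → ℕ → ℕ → Bool := onCell 536870912 536870912 0 536870912 1046898278 26843546
    (rowNX 3 1 false true true .npp 1 0 2 (qsf 536870912 536870912 1239849684 370763052 0) ndN0q1 ndN2q2b pcN0 Cut.none Ext.none)

def k0_pp_102_b : ∃ t, chk3 f_pp_102_b t 1 1 1 = true :=
  ⟨(l 3), by decide +kernel⟩

theorem c_pp_102_b : CertNX 536870912 536870912 1239849684 370763052 1046898278 26843546 3 false true true .npp 1 0 2
    ndN0q1 ndN2q2b pcN0 Cut.none Ext.none :=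
  certNX1 (fam := false) (s1 := true) (s2 := true) (a := 1) (b := 0) (c := 2) (cn := .npp) (n1 := ndN0q1) (n2 := ndN2q2b) (pc := pcN0) (cut := Cut.none) (xt := Ext.none) (P1 := 536870912) (W1 := 536870912) (P2 := 1239849684) (W2 := 370763052) (P3 := 1046898278) (W3 := 26843546) (N0 := 3)
    rfl (fun _ => rfl) k0_pp_102_b

noncomputable def f_pp_112_a : ℕ → ℕ → ℕ → ℕ → Bool := onCell 536870912 536870912 0 420477299 1046898278 26843546
    (rowNX 3 0 false true true .dn 1 1 2 (qsf 536870912 536870912 0 420477299 1) ndN0q1 ndN2q2a pcN1 Cut.none Ext.none)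

def k0_pp_112_a : ∃ t, chk3 f_pp_112_a t 1 1 1 = true :=
  ⟨(l 3), by decide +kernel⟩

theorem c_pp_112_a : CertNX 536870912 536870912 0 420477299 1046898278 26843546 3 false true true .dn 1 1 2
    ndN0q1 ndN2q2a pcN1 Cut.none Ext.none :=
  certNX0 (fam := false) (s1 := true) (s2 := true) (a := 1) (b := 1) (c := 2) (cn := .dn) (n1 := ndN0q1) (n2 := ndN2q2a) (pc := pcN1) (cut := Cut.none) (xt := Ext.none) (P1 := 536870912) (W1 := 536870912) (P2 := 0) (W2 := 420477299) (P3 := 1046898278) (W3 := 26843546) (N0 := 3)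
    rfl k0_pp_112_a

noncomputable def f_pp_112_b : ℕ → ℕ → ℕ → ℕ → Bool := onCell 536870912 536870912 536870912 536870912 1046898278 26843546
    (rowNX 3 1 false true true .dn 1 1 2 (qsf 536870912 536870912 1239849684 370763052 1) ndN0q1 ndN2q2b pcN1 Cut.none Ext.none)

def k0_pp_112_b : ∃ t, chk3 f_pp_112_b t 1 1 1 = true :=
  ⟨(b (l 3) (b (a (b (l 3) (l 3)) (l 3)) (a (a (a (c (b (b (l 16456408) (l 16172728)) (b (b (l 15866320) (b (l 15692536) (l 15604544))) (b (c (b (l 15567984) (l 15502320)) (b (l 15536784) (l 15481128))) (l 15350384)))) (b (b (l 16510240) (l 16151456)) (b (l 15591368) (b (l 15473696) (b (c (l 15388496) (l 15365416)) (c (l 15322640) (l 15086984))))))) (b (b (c (l 16523408) (l 16514472)) (c (l 16186760) (l 16165968))) (b (b (l 15858416) (l 2)) (l 2)))) (b (b (l 3) (l 2)) (l 2))) (l 2)))), by decide +kernel⟩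

theorem c_pp_112_b : CertNX 536870912 536870912 1239849684 370763052 1046898278 26843546 3 false true true .dn 1 1 2
    ndN0q1 ndN2q2b pcN1 Cut.none Ext.none :=
  certNX1 (fam := false) (s1 := true) (s2 := true) (a := 1) (b := 1) (c := 2) (cn := .dn) (n1 := ndN0q1) (n2 := ndN2q2b) (pc := pcN1) (cut := Cut.none) (xt := Ext.none) (P1 := 536870912) (W1 := 536870912) (P2 := 1239849684) (W2 := 370763052) (P3 := 1046898278) (W3 := 26843546) (N0 := 3)
    rfl (fun _ => rfl) k0_pp_112_b

noncomputable def f_pp_113 : ℕ → ℕ → ℕ → ℕ → Bool := onCell 536870912 536870912 1610612736 469762048 1046898278 26843546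
    (rowNX 3 2 false true true .nn 1 1 3 (qsf 536870912 536870912 1610612736 469762048 1) ndN0q1 ndN2q3 pcN1 Cut.none Ext.none)

def k0_pp_113 : ∃ t, chk3 f_pp_113 t 2 1 1 = true :=
  ⟨(b (a (l 3) (l 3)) (l 3)), by decide +kernel⟩

def k1_pp_113 : ∃ t, chk3 f_pp_113 t 3 2 1 = true :=
  ⟨(a (l 3) (a (a (b (b (l 3) (l 3)) (l 3)) (b (b (c (l 16188824) (l 16168112)) (a (l 16279288) (l 16100232))) (b (a (l 3) (l 16109976)) (l 365238474807)))) (c (a (a (b (l 15876864) (l 200418508151)) (b (a (l 15692992) (l 15602864)) (a (l 15693872) (l 15599176)))) (c (a (a (b (b (l 15568720) (l 15570560)) (b (l 15572648) (l 15575008))) (b (l 15504472) (l 15510712))) (b (l 15405440) (l 15414480))) (a (c (a (l 15543080) (b (l 15491784) (l 15499376))) (b (l 15505744) (l 15509744))) (b (l 15383336) (l 15393256))))) (a (b (a (l 15845192) (l 15607552)) (a (l 15799104) (l 15606000))) (a (b (l 15474872) (l 15477992)) (b (a (c (b (l 15389000) (l 15392592)) (l 15367928)) (c (l 15325256) (b (l 15170912) (l 15091968)))) (a (c (a (l 15420048)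 (l 15278936)) (l 15376672)) (c (l 15336656) (a (l 15324904) (b (l 15290800) (l 15297576))))))))))), by decide +kernel⟩

def k2_pp_113 : ∃ t, chk3 f_pp_113 t 6 3 1 = true :=
  ⟨(b (l 3) (a (l 2) (l 3))), by decide +kernel⟩

def k3_pp_113 : ∃ t, chk3 f_pp_113 t 7 6 1 = true :=
  ⟨(a (l 3) (a (a (b (l 402282000887) (l 3)) (b (a (l 15675592) (c (l 15595816) (l 15554160))) (a (b (l 15675888) (l 3)) (c (l 217597871047) (l 15550928))))) (a (c (a (c (b (c (l 15589248) (l 15569400)) (c (l 15551160) (l 15571984))) (l 15539232)) (c (b (l 15516392) (l 15520856)) (b (l 15370472) (a (l 15517016) (l 15492016))))) (b (l 15480824) (l 15483008))) (c (a (c (l 15452448) (l 15415464)) (l 15385728)) (a (c (a (b (l 15428128) (l 15434472)) (b (l 15392048) (l 15230752))) (l 15387864)) (c (l 15351256) (c (a (l 15347696) (l 15317136)) (b (l 15314088) (l 15280152))))))))), by decide +kernel⟩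

def k4_pp_113 : ∃ t, chk3 f_pp_113 t 14 7 1 = true :=
  ⟨(l 3), by decide +kernel⟩

def k5_pp_113 : ∃ t, chk3 f_pp_113 t 30 7 1 = true :=
  ⟨(b (a (l 3) (a (l 3) (b (c (l 539720020151) (l 15431952)) (l 3)))) (l 3)), by decide +kernel⟩

def k6_pp_113 : ∃ t, chk3 f_pp_113 t 31 14 1 = true :=
  ⟨(a (c (a (b (c (a (c (l 232629924743) (l 15511184)) (b (l 15573240) (l 15514920))) (l 15484848)) (c (a (l 601996771079) (c (l 15414344) (l 15372336))) (l 15302832))) (c (b (b (l 15523752) (l 15492056)) (l 15373360)) (c (b (a (l 15504088) (l 15492928)) (a (l 15345656) (l 15351000))) (b (a (l 15473608) (l 15474976)) (l 15125632))))) (b (a (l 15442024) (l 15432848)) (l 227797481687))) (c (b (a (a (l 15463184) (l 15435776)) (l 15395736)) (a (c (l 15356304) (l 15325224)) (l 15331248))) (a (c (b (a (l 15433344) (c (l 15414184) (l 15403376))) (a (l 15286944) (c (l 15299608) (l 15281368)))) (b (l 15389760) (l 15241704))) (c (b (l 15361904) (l 15282856)) (b (a (l 15347008) (l 15237040)) (a (c (l 15238840) (l 15243144)) (c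 (l 15259448) (a (l 15242624) (l 15243520))))))))), by decide +kernel⟩

def k7_pp_113 : ∃ t, chk3 f_pp_113 t 31 15 1 = true :=
  ⟨(b (a (a (l 3) (c (c (b (l 15333912) (a (l 697560498119) (l 15220064))) (a (c (b (l 15220624) (l 711518948391)) (l 15117696)) (c (l 15190536) (b (l 15180144) (l 15101872))))) (l 243903282759))) (c (a (c (l 15221848) (a (l 14984792) (l 15146136))) (l 15179048)) (a (c (a (b (l 15122288) (l 15024272)) (c (l 15094928) (l 14951944))) (l 14985408)) (c (l 15077448) (a (c (a (l 15022688) (l 15022552)) (l 14984416)) (c (l 15029136) (a (l 14989696) (l 14997072)))))))) (a (b (a (l 3) (a (l 3) (c (c (l 745341845447) (c (l 753931630487) (b (l 15058416) (l 787217487847)))) (l 14849528)))) (l 3)) (c (a (b (a (c (l 15188344) (l 246588611783)) (l 15123448)) (a (c (l 302960234135) (a (l 823724735367) (l 15023816))) (b (l 15113816) (l 15107520)))) (b (l 15115936) (b (l 15107400) (l 15108056)))) (a (c (a (b (c (a (l 14978840) (l 14986080)) (l 14903688)) (c (a (l 819966258839) (c (l 14925168) (l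 14871496))) (l 14781976))) (c (b (l 14981048) (l 14903696)) (b (l 14921112) (a (l 14815136) (c (l 14852816) (l 14806888)))))) (b (l 14813576) (l 14660224))) (c (b (l 14955032) (a (a (l 14873448) (l 14878584)) (l 14887096))) (a (c (b (l 14865560) (a (l 14754944) (c (l 14785888) (l 14747440)))) (l 14741064)) (c (l 14826552) (a (b (l 14817992) (l 14696616)) (c (l 14785072) (l 14753688)))))))))), by decide +kernel⟩

theorem s8_pp_113 : ∃ t, chk3 f_pp_113 t 31 7 1 = true := ex3_b k6_pp_113 k7_pp_113

theorem s9_pp_113 : ∃ t, chk3 f_pp_113 t 15 7 1 = true := ex3_a k5_pp_113 s8_pp_113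

theorem s10_pp_113 : ∃ t, chk3 f_pp_113 t 7 7 1 = true := ex3_a k4_pp_113 s9_pp_113

theorem s11_pp_113 : ∃ t, chk3 f_pp_113 t 7 3 1 = true := ex3_b k3_pp_113 s10_pp_113

theorem s12_pp_113 : ∃ t, chk3 f_pp_113 t 3 3 1 = true := ex3_a k2_pp_113 s11_pp_113

theorem s13_pp_113 : ∃ t, chk3 f_pp_113 t 3 1 1 = true := ex3_b k1_pp_113 s12_pp_113

theorem s14_pp_113 : ∃ t, chk3 f_pp_113 t 1 1 1 = true := ex3_a k0_pp_113 s13_pp_113

theorem c_pp_113 : CertNX 536870912 536870912 1610612736 469762048 1046898278 26843546 3 false true true .nn 1 1 3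
    ndN0q1 ndN2q3 pcN1 Cut.none Ext.none :=
  certNX2 (fam := false) (s1 := true) (s2 := true) (a := 1) (b := 1) (c := 3) (cn := .nn) (n1 := ndN0q1) (n2 := ndN2q3) (pc := pcN1) (cut := Cut.none) (xt := Ext.none) (P1 := 536870912) (W1 := 536870912) (P2 := 1610612736) (W2 := 469762048) (P3 := 1046898278) (W3 := 26843546) (N0 := 3)
    rfl (fun _ => rfl) s14_pp_113

end Pool.Agent.Strip051.G.IE1.Tab.C.NB02

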