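import Pool.Agent.Strip051.G.IE1.Tab

/-! # Certificates N48 (generated) -/

set_option linter.all false
set_option maxRecDepth 100000

namespace Pool.Agent.Strip051.G.IE1.Tab.C.NB02

open Pool.Agent.Strip051.PB Pool.Agent.Strip051.PB.T
open Pool.Agent.Strip051.G.IE1.Tab

noncomputable def f_pp_123 : ℕ → ℕ → ℕ → ℕ → Bool := onCell 1073741824 536870912 1610612736 469762048 1046898278 26843546
    (rowNX 3 2 false true true .npn 1 2 3 (qsf 536870912 536870912 1610612736 469762048 2) ndN0q1 ndN2q3 pcN2 Cut.none Ext.none)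

def k0_pp_123 : ∃ t, chk3 f_pp_123 t 4 2 1 = true :=
  ⟨(a (a (b (b (c (l 15714256) (l 15676944)) (c (a (a (l 15895792) (l 15791760)) (l 15563160)) (a (a (l 15738744) (l 15756784)) (l 15585376)))) (c (a (a (l 15847792) (c (l 15786648) (l 15767728))) (b (l 15619088) (l 15644160))) (a (a (c (l 15822752) (l 15803728)) (c (l 15746992) (l 15725888))) (b (l 15598648) (l 15598800))))) (b (c (l 15314104) (l 15262752)) (a (c (c (l 15453088) (l 15428984)) (b (l 15385040) (l 15399488))) (b (l 15206648) (a (c (l 15294528) (l 15242168)) (l 15167192)))))) (b (b (l 1) (c (l 14811856) (l 14742872))) (c (a (l 14975120) (l 14658408)) (a (l 14911864) (l 14584040))))), by decide +kernel⟩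

def k1_pp_123 : ∃ t, chk3 f_pp_123 t 8 3 1 = true :=
  ⟨(a (b (c (a (a (b (l 15785232) (l 15735312)) (b (l 15743984) (l 15696680))) (b (l 15642912) (l 15641400))) (a (a (c (l 15667664) (b (l 15734776) (l 15679920))) (c (l 15691824) (l 15663592))) (b (l 15591968) (l 15584080)))) (b (a (c (a (b (l 15693896) (b (l 15667912) (l 15605032))) (b (l 15695824) (c (l 15685640) (l 15657272)))) (c (a (b (l 15662352) (l 15591696)) (l 15634592)) (b (l 15564776) (a (a (l 15548600) (l 15575784)) (l 15583432))))) (c (a (l 15662728) (l 15614904)) (a (l 15593840) (l 15550688)))) (a (c (a (b (c (c (l 15295416) (l 15332000)) (l 15442864)) (c (b (c (l 15448488) (l 15401344)) (a (l 15378552) (l 15464008))) (c (b (l 15353264) (a (l 15278456) (l 15376920))) (a (b (l 15273440) (l 15213728)) (l 15340392))))) (c (a (b (c (l 15586744) (l 15564864)) (c (l 15548768) (b (l 15512272) (l 15508976)))) (b (l 15609944) (c (l 15596840) (l 15556400)))) (b (l 15543896) (l 15424176)))) (a (b (c (l 15281096) (a (l 15287808) (l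 15355864))) (c (a (l 15160344) (l 15263520)) (a (b (l 15105472) (l 14987008)) (l 15151736)))) (b (c (l 15485088) (l 15425216)) (c (l 15368344) (l 15268992))))) (c (b (a (l 15607832) (l 15601424)) (a (c (a (l 15611872) (l 15634304)) (l 15542752)) (l 15605056))) (b (a (l 15507704) (l 15519808)) (a (l 15419624) (l 15476120))))))) (b (c (a (b (l 15468160) (l 15490896)) (b (c (l 15274264) (l 15247456)) (l 15133712))) (a (b (l 15418688) (l 15439120)) (b (l 15207536) (l 15248520)))) (b (c (a (l 15516744) (l 15516336)) (a (l 15462192) (l 15296712))) (a (c (b (c (l 15554096) (l 15516856)) (c (l 15600080) (l 15550184))) (b (l 15476720) (l 15493536))) (b (c (l 15391040) (l 15341064)) (c (a (l 15488928) (l 15407184)) (l 15403608))))))), by decide +kernel⟩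

def k2_pp_123 : ∃ t, chk3 f_pp_123 t 9 3 1 = true :=
  ⟨(a (b (a (c (b (a (l 15113248) (l 15019808)) (a (l 15136152) (l 15034608))) (b (l 15011816) (l 14922024))) (b (l 14860536) (b (l 14859648) (l 14858912)))) (a (b (c (a (l 15200816) (l 15084888)) (a (l 15145432) (l 15025736))) (c (b (l 15213784) (a (l 15325968) (l 15235784))) (b (l 15159856) (l 15246264)))) (b (c (a (l 14966424) (l 14863800)) (a (l 14902440) (l 14795720))) (c (b (a (l 15035816) (l 14886536)) (l 15051792)) (b (l 14892440) (l 15004720)))))) (b (l 14617192) (b (l 14613432) (a (a (c (b (l 14779080) (l 14821984)) (b (l 14709024) (l 14766640))) (l 14674840)) (l 14560440))))), by decide +kernel⟩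

def k3_pp_123 : ∃ t, chk3 f_pp_123 t 5 1 1 = true :=
  ⟨(b (b (l 1) (a (a (a (c (l 14447016) (l 14365224)) (l 99886747431)) (c (l 15412608) (l 15364712))) (a (c (l 16324128) (l 16308224)) (l 16776568)))) (a (b (a (a (l 14401320) (l 14626616)) (b (l 15387552) (l 15386448))) (a (a (b (l 14396840) (l 14419312)) (b (l 14622976) (l 14646352))) (b (l 15385200) (l 15410232)))) (a (b (c (l 16323864) (l 16307952)) (b (l 16315512) (l 16236512))) (b (l 16776512) (b (l 16776264) (l 16745416)))))), by decide +kernel⟩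

def k4_pp_123 : ∃ t, chk3 f_pp_123 t 3 1 1 = true :=
  ⟨(b (l 1) (a (b (c (l 16777160) (l 16777152)) (c (b (l 16776896) (l 16746504)) (b (l 16776888) (l 16745432)))) (b (l 1) (a (l 16747760) (l 16747760))))), by decide +kernel⟩

theorem s5_pp_123 : ∃ t, chk3 f_pp_123 t 4 3 1 = true := ex3_a k1_pp_123 k2_pp_123

theorem s6_pp_123 : ∃ t, chk3 f_pp_123 t 4 1 1 = true := ex3_b k0_pp_123 s5_pp_123

theorem s7_pp_123 : ∃ t, chk3 f_pp_123 t 2 1 1 = true := ex3_a s6_pp_123 k3_pp_123

theorem s8_pp_123 : ∃ t, chk3 f_pp_123 t 1 1 1 = true := ex3_a s7_pp_123 k4_pp_123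

theorem c_pp_123 : CertNX 536870912 536870912 1610612736 469762048 1046898278 26843546 3 false true true .npn 1 2 3
    ndN0q1 ndN2q3 pcN2 Cut.none Ext.none :=
  certNX2 (fam := false) (s1 := true) (s2 := true) (a := 1) (b := 2) (c := 3) (cn := .npn) (n1 := ndN0q1) (n2 := ndN2q3) (pc := pcN2) (cut := Cut.none) (xt := Ext.none) (P1 := 536870912) (W1 := 536870912) (P2 := 1610612736) (W2 := 469762048) (P3 := 1046898278) (W3 := 26843546) (N0 := 3)
    rfl (fun _ => rfl) s8_pp_123

noncomputable def f_pp_133 : ℕ → ℕ → ℕ → ℕ → Bool := onCell 536870912 536870912 1610612736 469762048 1046898278 26843546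
    (rowNX 3 0 false true true .dn 1 3 3 (qsf 536870912 536870912 1610612736 469762048 3) ndN0q1 ndN2q3 pcN3 Cut.none Ext.none)

def k0_pp_133 : ∃ t, chk3 f_pp_133 t 1 1 1 = true :=
  ⟨(l 1), by decide +kernel⟩

theorem c_pp_133 : CertNX 536870912 536870912 1610612736 469762048 1046898278 26843546 3 false true true .dn 1 3 3
    ndN0q1 ndN2q3 pcN3 Cut.none Ext.none :=
  certNX0 (fam := false) (s1 := true) (s2 := true) (a := 1) (b := 3) (c := 3) (cn := .dn) (n1 := ndN0q1) (n2 := ndN2q3) (pc := pcN3) (cut := Cut.none) (xt := Ext.none) (P1 := 536870912) (W1 := 536870912) (P2 := 1610612736) (W2 := 469762048) (P3 := 1046898278) (W3 := 26843546) (N0 := 3)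
    rfl k0_pp_133

noncomputable def f_pp_202_a : ℕ → ℕ → ℕ → ℕ → Bool := onCell 0 536870912 0 420477299 1046898278 26843546
    (rowNX 3 0 false true true .pp 2 0 2 (qsf 0 536870912 0 420477299 0) ndN0q2 ndN2q2a pcN0 Cut.none Ext.none)

def k0_pp_202_a : ∃ t, chk3 f_pp_202_a t 1 1 1 = true :=
  ⟨(l 3), by decide +kernel⟩

theorem c_pp_202_a : CertNX 0 536870912 0 420477299 1046898278 26843546 3 false true true .pp 2 0 2
    ndN0q2 ndN2q2a pcN0 Cut.none Ext.none :=
  certNX0 (fam := false) (s1 := true) (s2 := true) (a := 2) (b := 0) (c := 2) (cn := .pp) (n1 := ndN0q2) (n2 := ndN2q2a) (pc := pcN0) (cut := Cut.none) (xt := Ext.none) (P1 := 0) (W1 := 536870912) (P2 := 0) (W2 := 420477299) (P3 := 1046898278) (W3 := 26843546) (N0 := 3)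
    rfl k0_pp_202_a

noncomputable def f_pp_202_b : ℕ → ℕ → ℕ → ℕ → Bool := onCell 0 536870912 1239849684 370763052 1046898278 26843546
    (rowNX 3 0 false true true .pp 2 0 2 (qsf 0 536870912 1239849684 370763052 0) ndN0q2 ndN2q2b pcN0 Cut.none Ext.none)

def k0_pp_202_b : ∃ t, chk3 f_pp_202_b t 1 1 1 = true :=
  ⟨(l 3), by decide +kernel⟩

theorem c_pp_202_b : CertNX 0 536870912 1239849684 370763052 1046898278 26843546 3 false true true .pp 2 0 2
    ndN0q2 ndN2q2b pcN0 Cut.none Ext.none :=
  certNX0 (fam := false) (s1 := true) (s2 := true) (a := 2) (b := 0) (c := 2) (cn := .pp) (n1 := ndN0q2) (n2 := ndN2q2b) (pc := pcN0) (cut := Cut.none) (xt := Ext.none) (P1 := 0) (W1 := 536870912) (P2 := 1239849684) (W2 := 370763052) (P3 := 1046898278) (W3 := 26843546) (N0 := 3)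
    rfl k0_pp_202_b

noncomputable def f_pp_203 : ℕ → ℕ → ℕ → ℕ → Bool := onCell 0 536870912 1610612736 469762048 1046898278 26843546
    (rowNX 3 0 false true true .up 2 0 3 (qsf 0 536870912 1610612736 469762048 0) ndN0q2 ndN2q3 pcN0 Cut.none Ext.none)

def k0_pp_203 : ∃ t, chk3 f_pp_203 t 1 1 1 = true :=
  ⟨(l 3), by decide +kernel⟩

theorem c_pp_203 : CertNX 0 536870912 1610612736 469762048 1046898278 26843546 3 false true true .up 2 0 3
    ndN0q2 ndN2q3 pcN0 Cut.none Ext.none :=
  certNX0 (fam := false) (s1 := true) (s2 := true) (a := 2) (b := 0) (c := 3) (cn := .up) (n1 := ndN0q2) (n2 := ndN2q3) (pc := pcN0) (cut := Cut.none) (xt := Ext.none) (P1 := 0) (W1 := 536870912) (P2 := 1610612736) (W2 := 469762048) (P3 := 1046898278) (W3 := 26843546) (N0 := 3)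
    rfl k0_pp_203

noncomputable def f_pp_213 : ℕ → ℕ → ℕ → ℕ → Bool := onCell 0 536870912 1610612736 469762048 1046898278 26843546
    (rowNX 3 0 false true true .pnn 2 1 3 (qsf 0 536870912 1610612736 469762048 1) ndN0q2 ndN2q3 pcN1 Cut.none Ext.none)

def k0_pp_213 : ∃ t, chk3 f_pp_213 t 1 1 1 = true :=
  ⟨(l 3), by decide +kernel⟩

theorem c_pp_213 : CertNX 0 536870912 1610612736 469762048 1046898278 26843546 3 false true true .pnn 2 1 3
    ndN0q2 ndN2q3 pcN1 Cut.none Ext.none :=
  certNX0 (fam := false) (s1 := true) (s2 := true) (a := 2) (b := 1) (c := 3) (cn := .pnn) (n1 := ndN0q2) (n2 := ndN2q3) (pc := pcN1) (cut := Cut.none) (xt := Ext.none) (P1 := 0) (W1 := 536870912) (P2 := 1610612736) (W2 := 469762048) (P3 := 1046898278) (W3 := 26843546) (N0 := 3)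
    rfl k0_pp_213

noncomputable def f_pm_001 : ℕ → ℕ → ℕ → ℕ → Bool := onCell 0 536870912 536870912 536870912 1046898278 26843546
    (rowNX 3 0 false true false .up 0 0 1 (qsf 0 536870912 536870912 536870912 0) ndN0q0 ndN2q1 pcN0 Cut.none Ext.none)

def k0_pm_001 : ∃ t, chk3 f_pm_001 t 1 1 1 = true :=
  ⟨(l 4), by decide +kernel⟩

theorem c_pm_001 : CertNX 0 536870912 536870912 536870912 1046898278 26843546 3 false true false .up 0 0 1
    ndN0q0 ndN2q1 pcN0 Cut.none Ext.none :=
  certNX0 (fam := false) (s1 := true) (s2 := false) (a := 0) (b := 0) (c := 1) (cn := .up) (n1 := ndN0q0) (n2 := ndN2q1) (pc := pcN0) (cut := Cut.none) (xt := Ext.none) (P1 := 0) (W1 := 536870912) (P2 := 536870912) (W2 := 536870912) (P3 := 1046898278) (W3 := 26843546) (N0 := 3)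
    rfl k0_pm_001

noncomputable def f_pm_011 : ℕ → ℕ → ℕ → ℕ → Bool := onCell 0 536870912 536870912 536870912 1046898278 26843546
    (rowNX 3 0 false true false .pnn 0 1 1 (qsf 0 536870912 536870912 536870912 1) ndN0q0 ndN2q1 pcN1 Cut.none Ext.none)

def k0_pm_011 : ∃ t, chk3 f_pm_011 t 1 1 1 = true :=
  ⟨(l 4), by decide +kernel⟩

theorem c_pm_011 : CertNX 0 536870912 536870912 536870912 1046898278 26843546 3 false true false .pnn 0 1 1
    ndN0q0 ndN2q1 pcN1 Cut.none Ext.none :=
  certNX0 (fam := false) (s1 := true) (s2 := false) (a := 0) (b := 1) (c := 1) (cn := .pnn) (n1 := ndN0q0) (n2 := ndN2q1) (pc := pcN1) (cut := Cut.none) (xt := Ext.none) (P1 := 0) (W1 := 536870912) (P2 := 536870912) (W2 := 536870912) (P3 := 1046898278) (W3 := 26843546) (N0 := 3)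
    rfl k0_pm_011

noncomputable def f_pm_012_a : ℕ → ℕ → ℕ → ℕ → Bool := onCell 536870912 536870912 0 420477299 1046898278 26843546
    (rowNX 3 2 false true false .pnp 0 1 2 (qsf 0 536870912 0 420477299 1) ndN0q0 ndN2q2a pcN1 Cut.none Ext.none)

def k0_pm_012_a : ∃ t, chk3 f_pm_012_a t 2 1 1 = true :=
  ⟨(b (a (l 2) (b (a (c (a (l 16406712) (l 16406712)) (l 16393704)) (c (l 16406712) (l 16393704))) (c (a (l 16405288) (l 16405288)) (a (l 16392232) (l 16392232))))) (b (a (a (l 2) (c (l 16558624) (l 16550952))) (a (c (l 16537656) (l 16550952)) (c (l 16558624) (l 16550952)))) (a (a (b (l 2) (c (l 16250576) (l 16232768))) (b (c (b (l 16748360) (l 16622824)) (b (l 16747344) (l 16617384))) (c (l 16229608) (l 16190824)))) (b (c (a (b (l 16748360) (l 16622824)) (l 16588736)) (a (b (l 16747344) (l 16617384)) (l 16565552))) (c (a (l 16208640) (l 16166696)) (a (l 16190824) (l 16169856))))))), by decide +kernel⟩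

def k1_pm_012_a : ∃ t, chk3 f_pm_012_a t 6 1 1 = true :=
  ⟨(b (a (b (a (l 16400352) (l 16384552)) (a (c (l 16405440) (l 16392400)) (c (l 16453112) (l 16446920)))) (a (b (l 16118584) (b (l 16173832) (l 16174200))) (b (a (c (l 16015128) (l 15987824)) (c (l 15766912) (l 15730432))) (a (b (l 15930368) (c (l 15933880) (l 15903688))) (c (l 15616256) (l 15617928)))))) (a (b (a (c (l 16558800) (l 16551144)) (c (l 16477744) (l 16511808))) (b (a (b (l 16748040) (l 16620272)) (b (l 16420400) (l 16538536))) (a (c (l 16166872) (l 16191016)) (b (l 16312512) (c (l 16277944) (l 16261592)))))) (b (a (c (l 16204848) (l 16206232)) (a (c (a (l 16023520) (l 15895864)) (a (l 15996616) (l 15864408))) (c (b (l 15638624) (l 15660496)) (l 15462232)))) (a (b (b (c (l 16309072) (l 16292560)) (l 16235024)) (b (c (l 16491360) (l 16485064)) (a (l 16327128) (a (l 16409856) (l 16413288))))) (b (a (b (a (l 16090224) (l 15952184)) (a (l 16195000) (l 16063808))) (b (c (l 15710456) (l 15694672)) (c (l 15890336) (l 15859888))))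 (a (b (a (c (l 16351920) (l 16338832)) (l 16256016)) (a (l 16416504) (l 16396744))) (b (c (l 16115440) (l 16094128)) (c (l 16255152) (l 16245024))))))))), by decide +kernel⟩

def k2_pm_012_a : ∃ t, chk3 f_pm_012_a t 7 2 1 = true :=
  ⟨(a (a (b (c (a (l 15461208) (l 15146240)) (l 15063976)) (b (c (l 14989720) (l 15120952)) (c (a (l 15303752) (l 14961304)) (l 14908464)))) (b (b (a (l 14917560) (l 14739920)) (c (a (l 14842936) (l 14690184)) (l 14698680))) (b (c (a (l 14777000) (l 14659136)) (l 14647512)) (c (a (l 14779592) (l 14693656)) (l 14664592))))) (a (b (c (a (c (b (l 14667952) (l 14579880)) (l 14600544)) (b (l 14486880) (l 14347440))) (a (l 14542728) (l 14396248))) (c (b (a (c (l 14547168) (l 14523976)) (c (l 14349016) (l 14357184))) (a (c (l 14582008) (l 14561392)) (c (l 14378056) (l 14392096)))) (b (l 14388120) (l 14426496)))) (b (a (c (b (c (l 14294920) (l 14302336)) (c (a (l 14231096) (l 14134656)) (l 14195928))) (l 14214304)) (c (b (c (l 14177536) (l 14149368)) (c (l 14044288) (l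 14036816))) (c (a (l 14107880) (l 14039448)) (a (l 14102112) (l 14018960))))) (a (c (b (c (a (l 14182432) (l 14061384)) (l 14150672)) (c (a (l 14205992) (l 14103664)) (l 14179880))) (b (l 14141416) (l 14177440))) (c (b (a (c (l 14012856) (l 13998448)) (l 13991904)) (a (c (a (l 14040944) (l 14023152)) (l 14024224)) (c (l 14043664) (l 13998856)))) (a (b (l 13993712) (c (l 14035856) (l 14039608))) (b (c (l 13934240) (l 13915928)) (c (l 13966416) (l 13951600))))))))), by decide +kernel⟩

def k3_pm_012_a : ∃ t, chk3 f_pm_012_a t 14 3 1 = true :=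
  ⟨(b (a (b (a (c (l 15286264) (l 15233064)) (c (a (l 15031552) (l 14916816)) (l 14915800))) (a (c (l 15343232) (l 15292496)) (c (l 15099344) (l 15040272)))) (c (b (a (l 14857856) (l 14785520)) (a (l 15006296) (l 14944912))) (b (l 14752576) (l 14912688)))) (b (a (a (b (c (l 15476656) (l 15431168)) (c (l 15669312) (l 15631392))) (b (c (l 15240456) (l 15208704)) (c (l 15457136) (l 15412088)))) (c (b (b (l 15107752) (l 15194632)) (a (l 15381728) (l 15341632))) (b (l 14969392) (l 15313768)))) (a (a (b (c (l 15902104) (l 15873464)) (c (l 16173216) (l 16155600))) (c (b (l 15694632) (l 15867144)) (b (l 15658928) (l 15884376)))) (c (b (a (l 15630112) (l 15602352)) (a (l 15919832) (l 15905848))) (b (l 15578184) (a (l 15893384) (l 15879048))))))), by decide +kernel⟩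

def k4_pm_012_a : ∃ t, chk3 f_pm_012_a t 15 6 1 = true :=
  ⟨(a (c (a (b (a (l 14709672) (l 14624808)) (c (a (l 14888632) (l 14796872)) (l 14827624))) (b (c (l 14468448) (l 14489632)) (c (l 14630880) (a (l 14711920) (l 14616072))))) (b (a (l 14603760) (l 14451232)) (a (l 14777256) (l 14629016)))) (c (a (b (a (c (l 14292576) (l 14332880)) (c (a (l 14210168) (l 14165488)) (l 14213888))) (a (c (l 14453096) (l 14503520)) (c (a (c (l 14362104) (l 14376280)) (l 14326464)) (l 14278544)))) (b (a (c (l 14122456) (a (l 14133656) (l 14094224))) (l 14118880)) (a (c (b (l 14213664) (l 14341048)) (a (l 14303224) (l 14267584))) (b (l 14242152) (l 14378240))))) (c (a (b (l 14294192) (l 14472824)) (a (b (l 14135248) (a (l 14340720) (l 14286912))) (b (l 14067824) (b (l 14195616) (l 14336192))))) (a (l 14304096) (b (a (l 14145360) (a (l 14067888) (l 14036768))) (a (l 14334184) (a (l 14265664) (c (l 14248808) (l 14247216))))))))), by decide +kernel⟩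

def k5_pm_012_a : ∃ t, chk3 f_pm_012_a t 30 7 1 = true :=
  ⟨(b (c (a (b (c (b (l 14937392) (l 15070992)) (l 15018328)) (c (a (l 15294496) (l 15206824)) (l 15245192))) (b (c (b (l 14771352) (l 14864632)) (b (l 14807072) (l 14903456))) (c (l 15044520) (a (l 15138376) (l 15046760))))) (b (a (l 14973440) (l 14830752)) (a (l 15206792) (l 15071632)))) (c (a (b (c (a (l 15560768) (l 15476640)) (l 15519056)) (c (a (c (l 15827872) (l 15875408)) (b (l 15706160) (l 15820920))) (l 15737344))) (b (c (a (l 15375544) (l 15280928)) (a (l 15419680) (b (l 15260032) (l 15434112)))) (c (b (l 15571144) (l 15798720)) (a (b (l 15673376) (l 15880824)) (l 15556008))))) (a (b (l 15488416) (b (l 15727736) (l 15909448))) (b (a (l 15395248) (l 15349840)) (b (l 15651312) (l 15869304)))))), by decide +kernel⟩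

def k6_pm_012_a : ∃ t, chk3 f_pm_012_a t 31 14 1 = true :=
  ⟨(c (a (b (a (b (l 14621832) (l 14717816)) (c (b (a (l 14511064) (l 14468008)) (a (l 14606552) (l 14573920))) (b (l 14530784) (l 14636464)))) (a (c (a (l 14901600) (l 14811344)) (l 14947144)) (c (a (c (l 14807984) (l 14829640)) (l 14803928)) (a (l 14878072) (l 14846144))))) (b (a (c (b (l 14449504) (l 14573232)) (a (b (l 14459112) (l 14583312)) (l 14508648))) (b (l 14515984) (l 14649312))) (a (c (l 14811320) (a (l 14825904) (l 14818920))) (l 14896520)))) (a (b (c (b (l 14626208) (l 14731984)) (l 14670688)) (c (a (l 14984304) (l 14923344)) (l 14949288))) (a (b (c (b (l 14488384) (l 14618848)) (l 14580632)) (c (l 14827000) (l 14902624))) (c (b (b (l 14478240) (l 14615592)) (l 14639400)) (b (a (l 14543936) (c (l 14542248) (l 14544400))) (c (l 14706720) (l 14799488))))))), by decide +kernel⟩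

def k7_pm_012_a : ∃ t, chk3 f_pm_012_a t 31 15 1 = true :=
  ⟨(a (c (a (b (b (l 15087776) (l 15256560)) (b (l 15397304) (l 15510672))) (b (c (a (c (l 15155856) (l 15182032)) (l 15158688)) (c (l 15100824) (l 15242232))) (c (a (c (l 15560048) (l 15486336)) (l 15568544)) (b (l 15510056) (l 15587024))))) (b (c (a (l 15330000) (l 15294424)) (l 15311328)) (c (a (l 15690416) (l 15576872)) (l 15746024)))) (c (b (a (c (a (l 15154912) (l 15179744)) (a (l 15171304) (l 15188296))) (c (l 15279552) (l 15258256))) (a (c (a (l 15568176) (b (l 15485344) (l 15706360))) (a (c (l 15600320) (l 15586048)) (l 15466184))) (b (a (l 15546352) (l 15611376)) (a (c (l 15757312) (l 15745776)) (l 15789496))))) (a (c (b (a (l 15256520) (l 15232472)) (a (l 15689792) (b (l 15551640) (l 15635424)))) (b (l 15288864) (l 15564496))) (c (b (a (l 15227624) (l 15270664)) (a (b (l 15549272) (a (l 15681672) (l 15757040))) (l 15569336))) (b (a (l 15262608) (c (l 15263176) (l 15273192))) (a (c (l 15502376) (l 15718032)) (a (c (l 15647888)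 (l 15649576)) (b (l 15509912) (l 15769328))))))))), by decide +kernel⟩

theorem s8_pm_012_a : ∃ t, chk3 f_pm_012_a t 31 7 1 = true := ex3_b k6_pm_012_a k7_pm_012_a

theorem s9_pm_012_a : ∃ t, chk3 f_pm_012_a t 15 7 1 = true := ex3_a k5_pm_012_a s8_pm_012_a

theorem s10_pm_012_a : ∃ t, chk3 f_pm_012_a t 15 3 1 = true := ex3_b k4_pm_012_a s9_pm_012_a

theorem s11_pm_012_a : ∃ t, chk3 f_pm_012_a t 7 3 1 = true := ex3_a k3_pm_012_a s10_pm_012_a

theorem s12_pm_012_a : ∃ t, chk3 f_pm_012_a t 7 1 1 = true := ex3_b k2_pm_012_a s11_pm_012_a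

theorem s13_pm_012_a : ∃ t, chk3 f_pm_012_a t 3 1 1 = true := ex3_a k1_pm_012_a s12_pm_012_a

theorem s14_pm_012_a : ∃ t, chk3 f_pm_012_a t 1 1 1 = true := ex3_a k0_pm_012_a s13_pm_012_a

theorem c_pm_012_a : CertNX 0 536870912 0 420477299 1046898278 26843546 3 false true false .pnp 0 1 2
    ndN0q0 ndN2q2a pcN1 Cut.none Ext.none :=
  certNX2 (fam := false) (s1 := true) (s2 := false) (a := 0) (b := 1) (c := 2) (cn := .pnp) (n1 := ndN0q0) (n2 := ndN2q2a) (pc := pcN1) (cut := Cut.none) (xt := Ext.none) (P1 := 0) (W1 := 536870912) (P2 := 0) (W2 := 420477299) (P3 := 1046898278) (W3 := 26843546) (N0 := 3)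
    rfl (fun _ => rfl) s14_pm_012_a

noncomputable def f_pm_012_b : ℕ → ℕ → ℕ → ℕ → Bool := onCell 536870912 536870912 1239849684 370763052 1046898278 26843546
    (rowNX 3 2 false true false .pnp 0 1 2 (qsf 0 536870912 1239849684 370763052 1) ndN0q0 ndN2q2b pcN1 Cut.none Ext.none)

def k0_pm_012_b : ∃ t, chk3 f_pm_012_b t 1 2 1 = true :=
  ⟨(a (a (l 2) (a (b (b (c (c (l 16560944) (l 16557168)) (l 16551400)) (l 2)) (l 2)) (b (b (c (l 16496144) (l 16551400)) (c (l 16750728) (l 16749800))) (c (l 16777216) (l 16777216))))) (a (a (b (a (b (c (l 16559176) (l 16551528)) (l 16729408)) (b (c (l 16569704) (l 16564440)) (l 16612552))) (a (c (l 16777112) (l 16777112)) (c (l 16701024) (l 16698352)))) (b (a (b (c (l 16356920) (l 16341824)) (l 16439624)) (b (a (c (l 16163504) (l 16141200)) (c (l 15941216) (l 15910920))) (c (l 16045208) (l 16025208)))) (a (c (l 16535424) (l 16526936)) (b (l 16090752) (l 16197768))))) (a (b (b (a (c (b (l 15416152) (l 15566256)) (l 15363112)) (c (b (a (l 15060264) (l 14848096))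 (l 15059632)) (b (l 14894400) (l 14998312)))) (a (c (l 15703272) (l 15665376)) (c (l 15208056) (l 15152712)))) (a (b (l 15763248) (l 15832080)) (c (l 15326424) (l 15275448)))) (b (a (b (c (a (b (c (l 14679864) (l 14654552)) (l 14683400)) (b (l 14493712) (l 14432352))) (b (a (l 14598080) (l 14447608)) (l 14511472))) (c (b (l 14637776) (l 14713056)) (l 14624960))) (b (c (a (b (c (l 14307408) (l 14311536)) (l 14222192)) (b (a (l 14186648) (l 14160048)) (l 14084688))) (a (l 14244696) (c (a (l 14122920) (l 14054160)) (l 14072120)))) (c (a (b (l 14191072) (l 14233768)) (b (l 14001504) (l 13959592))) (a (b (l 14163072) (l 14204896)) (b (a (l 13975856) (l 13904016)) (a (l 13954352) (l 13826120))))))) (a (c (b (l 14761824) (l 14835168)) (b (l 14711200) (l 14784328))) (c (a (l 14203112) (l 14037992)) (a (l 14295840) (b (a (l 14005112) (l 13856744)) (l 14017320))))))))), by decide +kernel⟩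

def k1_pm_012_b : ∃ t, chk3 f_pm_012_b t 1 3 1 = true :=
  ⟨(a (l 2) (a (a (l 2) (b (a (c (l 16567608) (l 16560248)) (a (l 16419392) (b (l 16269144) (l 16318016)))) (l 2))) (a (b (a (b (l 15910416) (l 15999592)) (c (l 15488592) (l 15443336))) (a (l 2) (b (l 15614704) (l 2)))) (a (b (c (b (l 14919600) (l 15015576)) (l 14917840)) (b (c (l 15123608) (l 15071960)) (c (l 15241544) (l 15189752)))) (b (c (a (l 14517008) (l 14226888)) (a (l 14475544) (b (l 14110320) (l 14216752)))) (c (a (l 14759344) (l 14471504)) (a (l 14707104) (l 14406128)))))))), by decide +kernel⟩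

theorem s2_pm_012_b : ∃ t, chk3 f_pm_012_b t 1 1 1 = true := ex3_b k0_pm_012_b k1_pm_012_b

theorem c_pm_012_b : CertNX 0 536870912 1239849684 370763052 1046898278 26843546 3 false true false .pnp 0 1 2
    ndN0q0 ndN2q2b pcN1 Cut.none Ext.none :=
  certNX2 (fam := false) (s1 := true) (s2 := false) (a := 0) (b := 1) (c := 2) (cn := .pnp) (n1 := ndN0q0) (n2 := ndN2q2b) (pc := pcN1) (cut := Cut.none) (xt := Ext.none) (P1 := 0) (W1 := 536870912) (P2 := 1239849684) (W2 := 370763052) (P3 := 1046898278) (W3 := 26843546) (N0 := 3)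
    rfl (fun _ => rfl) s2_pm_012_b

noncomputable def f_pm_022_a : ℕ → ℕ → ℕ → ℕ → Bool := onCell 0 536870912 0 420477299 1046898278 26843546
    (rowNX 3 0 false true false .pp 0 2 2 (qsf 0 536870912 0 420477299 2) ndN0q0 ndN2q2a pcN2 Cut.none Ext.none)

def k0_pm_022_a : ∃ t, chk3 f_pm_022_a t 16 4 1 = true :=
  ⟨(c (a (b (a (l 16263216) (l 15953200)) (a (l 16166840) (b (l 15896568) (a (l 16003016) (l 15935224))))) (b (c (l 15898336) (l 15726048)) (c (l 15821152) (a (l 15858824) (l 15714000))))) (c (a (a (l 15994344) (b (a (l 16109504) (l 15925800)) (a (l 15889760) (b (l 15955696) (l 15908184))))) (b (a (c (l 15913552) (l 15906344)) (l 15800496)) (a (c (l 15838760) (l 15767872)) (c (l 15693680) (l 15723296))))) (a (a (c (b (l 16252600) (l 16151656)) (b (a (l 16281008) (l 16205472)) (a (l 16010728) (l 16041152)))) (b (a (c (l 16081920) (l 16097568)) (l 15914512)) (a (c (b (l 16037392) (c (l 15972440) (l 15969120))) (l 15980272)) (b (l 15943312) (l 15894808))))) (b (l 15853192) (l 15771160))))),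 by decide +kernel⟩

def k1_pm_022_a : ∃ t, chk3 f_pm_022_a t 16 5 1 = true :=
  ⟨(c (a (b (a (b (l 16064888) (a (l 16082312) (l 16005080))) (b (l 15935872) (l 15910048))) (b (a (l 15884208) (l 15880496)) (l 15911728))) (a (b (l 15795920) (l 15727568)) (b (c (l 15684592) (l 15611048)) (c (l 15615688) (a (l 15604696) (c (l 15549800) (l 15521728))))))) (a (b (a (b (c (l 16074840) (c (l 16024808) (a (l 16070424) (l 15914296)))) (c (a (l 16071208) (l 15991440)) (a (c (l 16065456) (c (l 16061288) (l 15934480))) (c (l 15980768) (a (l 15913680) (l 15953640)))))) (c (a (l 15850976) (l 15864248)) (a (c (b (c (l 15933832) (l 15930304)) (l 15911504)) (l 15918296)) (l 15849864)))) (c (a (b (l 15996416) (l 15963464)) (l 15838008)) (c (a (b (l 15861112) (l 15953360)) (a (l 15738248) (l 15785176))) (a (a (b (c (l 16019456) (a (l 15994568) (l 15999984))) (l 15944528)) (l 15934144)) (l 15820440))))) (c (b (a (c (l 15765400) (l 15693712)) (c (l 15610288) (l 15639304))) (a (c (l 15694816) (a (l 15715104) (l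 15647832))) (b (l 15488696) (a (l 15519400) (l 15505656))))) (b (l 15690960) (l 15619584))))), by decide +kernel⟩

def k2_pm_022_a : ∃ t, chk3 f_pm_022_a t 17 2 1 = true :=
  ⟨(b (c (a (c (b (c (l 15677664) (l 15480608)) (a (l 15636096) (c (l 15517472) (l 15496248)))) (a (c (b (l 15695032) (l 15600432)) (b (l 15699840) (l 15604416))) (b (l 15436360) (c (a (l 15519752) (l 15500792)) (l 15523872))))) (a (c (b (c (l 15525536) (l 15541504)) (c (l 15435928) (a (l 15452880) (l 15465896)))) (l 15348432)) (c (c (b (c (l 15516336) (l 15543128)) (c (a (l 15421440) (l 15454024)) (l 15449208))) (l 15498064)) (l 15484096)))) (a (b (l 15652880) (l 15553528)) (b (l 15518944) (l 15422568)))) (c (c (a (b (a (l 15549144) (c (l 15449320) (l 15427216))) (a (l 15507344) (c (b (l 15434496) (l 15446392)) (l 15412184)))) (b (c (a (c (a (l 15386616) (l 15361664)) (l 15379024)) (c (a (l 15387264) (b (l 15422128) (l 15441016))) (a (l 15397832) (l 15405376)))) (a (c (l 15392712) (l 15417272)) (l 15391000))) (a (c (b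 (c (a (l 15385544) (l 15375232)) (l 15369344)) (a (c (l 15419064) (l 15369296)) (c (b (l 15406760) (l 15428280)) (l 15390976)))) (a (l 15386144) (b (l 15395768) (b (l 15393584) (l 15396352))))) (c (b (a (c (l 15416832) (l 15402344)) (c (b (l 15456040) (l 15457544)) (l 15426280))) (a (c (l 15411864) (b (l 15423584) (l 15443240))) (c (l 15438272) (l 15435200)))) (b (a (l 15384608) (l 15368552)) (a (l 15389200) (c (l 15398560) (l 15349936)))))))) (a (b (a (c (l 15511784) (a (l 15535400) (l 15499872))) (c (a (l 15441816) (l 15439648)) (l 15454168))) (a (c (l 15321896) (a (l 15395488) (l 15466856))) (c (c (l 15417504) (l 15438456)) (l 15439776)))) (b (l 15394016) (a (l 15399072) (l 15346448))))) (b (a (l 15476200) (l 15362904)) (a (l 15443536) (a (l 15367912) (l 15313824)))))), by decide +kernel⟩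

def k3_pm_022_a : ∃ t, chk3 f_pm_022_a t 18 4 1 = true :=
  ⟨(c (a (c (b (a (l 15538392) (c (a (l 15559208) (l 15513496)) (l 15475528))) (a (c (b (l 15500688) (c (l 15466288) (l 15421040))) (l 15421040)) (b (c (a (l 15489096) (l 15435992)) (l 15397864)) (c (l 15253712) (a (l 15366872) (l 15326776)))))) (b (l 15479960) (a (l 15405056) (l 15335736)))) (c (b (c (l 15311856) (a (l 15369296) (l 15226280))) (c (a (l 15278568) (l 15091616)) (a (b (l 15286376) (l 15224912)) (l 15101024)))) (b (c (l 15137312) (l 15227360)) (c (a (l 15200592) (b (l 15105488) (l 15041312))) (l 15102232))))) (a (b (l 15451368) (a (l 15374376) (l 15303000))) (l 15131720))), by decide +kernel⟩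

def k4_pm_022_a : ∃ t, chk3 f_pm_022_a t 18 5 1 = true :=
  ⟨(c (a (b (c (a (c (b (a (l 15437400) (l 15429008)) (a (c (l 15454112) (l 15413984)) (l 15410608))) (b (l 15366504) (a (l 15358384) (l 15344320)))) (c (b (l 15361168) (l 15326344)) (b (c (l 15333416) (l 15291568)) (c (l 15312904) (l 15285616))))) (a (l 15329984) (l 15247312))) (c (c (a (b (l 15396816) (l 15370424)) (l 15257728)) (a (b (c (l 15369832) (l 15327584)) (c (l 15362816) (l 15338208))) (b (a (l 15315632) (l 15245888)) (l 15251312)))) (a (b (l 15294048) (l 15280832)) (c (b (c (l 15245352) (l 15206096)) (c (l 15173688) (l 15191264))) (l 15182192))))) (c (b (c (l 15071160) (a (b (l 15182704) (l 15148376)) (l 14983016))) (b (a (l 15092720) (l 14911272)) (l 14967368))) (b (b (c (a (l 15146256) (l 14997688)) (l 15024856)) (c (a (l 14970136) (l 14961976)) (a (l 15063736) (l 14929968)))) (c (a (b (c (l 15105344) (l 15083536)) (l 14982496)) (b (l 14910408) (l 14879984))) (b (a (l 15041648) (l 14712440)) (a (c (l 15045880) (l 15013112))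 (c (l 14884192) (l 14870096)))))))) (b (a (a (l 15297080) (l 15207528)) (l 14965240)) (a (l 15198264) (c (c (b (l 14936592) (l 14754864)) (l 14906672)) (l 14884352))))), by decide +kernel⟩

def k5_pm_022_a : ∃ t, chk3 f_pm_022_a t 19 2 1 = true :=
  ⟨(c (b (c (b (a (l 14961480) (l 14631872)) (a (l 14828232) (l 14497584))) (a (b (c (a (l 15045288) (l 14872160)) (l 14701064)) (c (a (b (l 14954960) (l 14883904)) (l 14737896)) (a (l 14657064) (c (l 14738216) (l 14722656))))) (b (l 14508464) (a (l 14547728) (l 14407616))))) (b (a (c (a (l 14797696) (l 14621752)) (c (b (l 14728520) (l 14685232)) (a (b (l 14807320) (l 14749608)) (b (l 14625616) (l 14586280))))) (c (l 14385200) (l 14362384))) (a (a (c (l 14713568) (c (l 14709728) (b (c (l 14732784) (l 14731792)) (l 14686344)))) (c (l 14539904) (l 14526928))) (c (l 14306640) (l 14272336))))) (b (c (a (b (l 14888680) (c (l 14776512) (l 14747064))) (b (c (a (l 14668712) (l 14525048)) (l 14571752)) (c (a (b (l 14572952) (l 14499816)) (l 14387064)) (a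 (l 14497160) (l 14370824))))) (l 14587032)) (b (c (a (c (a (l 14761744) (b (l 14613056) (l 14573256))) (l 14638592)) (c (a (b (l 14242136) (l 14388848)) (l 14269192)) (a (l 14393600) (b (l 14266248) (l 14222496))))) (a (l 14611696) (l 14225512))) (c (a (c (a (b (l 14705864) (c (l 14685808) (l 14668552))) (b (c (l 14531240) (l 14530176)) (l 14486464))) (b (l 14587672) (a (l 14638448) (l 14472632)))) (c (a (l 14325048) (l 14172400)) (a (b (c (l 14329632) (l 14324416)) (c (l 14292544) (l 14279568))) (b (l 14178496) (l 14137448))))) (a (l 14536392) (c (a (l 14284696) (b (l 14151176) (c (l 14121352) (l 14106408)))) (l 14176160))))))), by decide +kernel⟩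

def k6_pm_022_a : ∃ t, chk3 f_pm_022_a t 5 2 1 = true :=
  ⟨(a (a (b (c (b (l 14259704) (a (l 14238160) (l 14001248))) (c (a (b (c (l 14337088) (a (l 14379392) (l 14256080))) (c (l 14194040) (a (l 14134000) (l 14111520)))) (l 14001728)) (a (b (l 14279040) (c (a (l 14220176) (l 13960224)) (l 14126792))) (b (c (l 14042568) (a (l 14080976) (l 13954488))) (c (l 13896592) (a (l 13934016) (l 13806224))))))) (c (b (c (l 14026056) (l 13979920)) (c (l 13941616) (l 13893432))) (c (b (a (c (l 14070120) (l 14051720)) (l 13807848)) (l 13847984)) (b (a (c (a (b (l 14114976) (l 14068112)) (b (l 13988848) (l 13939048))) (a (l 14077664) (l 13936696))) (c (l 13771760) (b (l 13684664) (l 13718688)))) (a (c (a (b (l 14023776) (l 13982560)) (l 13873984)) (a (b (l 13997184) (c (l 13964096) (l 13949432))) (b (l 13867352) (l 13826176)))) (l 13665016)))))) (b (l 1) (l 1))) (l 1)), by decide +kernel⟩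

def k7_pm_022_a : ∃ t, chk3 f_pm_022_a t 16 6 1 = true :=
  ⟨(c (b (a (b (l 15873568) (l 15830744)) (a (b (l 15667608) (l 15651712)) (c (b (l 15585904) (l 15603008)) (a (l 15570688) (c (l 15542008) (l 15513144)))))) (a (b (a (l 15852888) (l 15742912)) (a (l 15834904) (c (l 15776632) (l 15758424)))) (c (b (c (a (l 15694528) (c (b (l 15652488) (a (l 15688760) (l 15699264))) (l 15639992))) (l 15647976)) (c (a (c (b (l 15740216) (a (l 15780920) (l 15798736))) (l 15734264)) (b (c (a (l 15749232) (l 15744112)) (a (l 15685976) (l 15682136))) (a (c (l 15797304) (l 15736872)) (l 15722920)))) (a (l 15713920) (b (a (l 15656648) (l 15626912)) (a (l 15680024) (l 15616368)))))) (a (l 15675392) (b (l 15568032) (a (l 15630040) (c (l 15598232) (l 15484840)))))))) (a (c (b (a (l 15904616) (a (l 15793136) (l 15674344))) (a (l 15767584) (b (a (l 15733992) (l 15683528)) (l 15735640)))) (b (a (c (l 15893408) (a (c (l 15927160) (l 15883504)) (l 15770960))) (c (a (c (l 15777152) (l 15772672)) (l 15699568)) (l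 15735944))) (a (c (b (l 15821088) (l 15801736)) (a (c (l 15838344) (b (l 15852040) (a (l 15826368) (l 15800144)))) (b (l 15780864) (c (l 15769304) (l 15764328))))) (c (c (a (l 15729384) (l 15683408)) (b (l 15694904) (l 15718048))) (l 15705928))))) (b (c (a (c (b (l 15632872) (l 15616136)) (a (b (l 15649392) (l 15618552)) (b (l 15585240) (l 15579896)))) (c (a (b (l 15536288) (l 15549720)) (l 15518256)) (l 15543672))) (l 15579160)) (c (a (c (l 15650656) (c (a (l 15648824) (l 15621920)) (l 15639360))) (b (c (l 15481128) (l 15573432)) (c (a (c (l 15597984) (l 15607672)) (c (l 15555584) (l 15591784))) (l 15601384)))) (b (l 15589888) (a (l 15653832) (l 15588320))))))), by decide +kernel⟩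

def k8_pm_022_a : ∃ t, chk3 f_pm_022_a t 34 6 2 = true :=
  ⟨(b (c (c (b (a (l 15533904) (c (a (l 15509856) (l 15496304)) (l 15446600))) (a (c (b (l 15571608) (l 15575256)) (l 15549696)) (b (a (c (l 15562352) (l 15486024)) (c (l 15536144) (l 15471216))) (a (c (l 15595408) (l 15521216)) (l 15513552))))) (a (l 15505120) (c (b (l 15412440) (a (l 15452048) (b (l 15404456) (l 15428064)))) (b (l 15413456) (a (l 15425944) (l 15368672)))))) (a (c (l 15478776) (a (l 15488720) (l 15483360))) (a (c (c (l 15410080) (l 15438432)) (l 15465520)) (b (l 15433856) (l 15439848))))) (c (b (b (a (c (c (a (l 15653424) (l 15648648)) (a (l 15590728) (l 15580688))) (a (l 15552888) (l 15506904))) (c (c (l 15568800) (l 15530592)) (c (a (l 15483888) (l 15464936)) (a (l 15435424) (l 15429096))))) (a (c (a (c (l 15694792) (l 15632600)) (c (l 15668600) (l 15624192))) (a (l 15569976) (l 15530120))) (c (l 15545312) (c (a (l 15525608) (l 15489592)) (a (l 15455016) (l 15470408)))))) (c (a (b (a (l 15691520) (l 15651456))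 (l 15672392)) (l 15521448)) (a (b (c (a (l 15616240) (l 15597304)) (l 15549760)) (c (a (l 15666840) (l 15629000)) (a (l 15597448) (l 15571864)))) (c (a (l 15551952) (l 15488160)) (a (b (l 15479368) (l 15529712)) (b (l 15496496) (l 15513720))))))) (a (c (b (a (l 15518352) (l 15395632)) (a (l 15537776) (c (l 15494224) (l 15491856)))) (b (a (c (l 15508992) (l 15531304)) (l 15506392)) (a (l 15536000) (l 15520928)))) (c (c (b (a (l 15445288) (l 15450320)) (a (b (l 15462376) (c (l 15503160) (l 15487824))) (b (c (l 15497488) (l 15477288)) (l 15504144)))) (b (l 15460840) (a (l 15489512) (l 15481080)))) (l 15468520))))), by decide +kernel⟩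

def k9_pm_022_a : ∃ t, chk3 f_pm_022_a t 35 6 2 = true :=
  ⟨(c (b (c (c (a (b (a (b (l 15460672) (l 15479352)) (b (l 15437968) (l 15432992))) (a (l 15471584) (l 15402224))) (a (l 15391288) (l 15371896))) (a (b (a (b (l 15392520) (l 15426064)) (b (l 15424904) (l 15442112))) (a (b (l 15447744) (l 15459768)) (l 15439464))) (b (a (l 15448656) (l 15423504)) (l 15401840)))) (a (b (a (c (b (l 15382152) (l 15394208)) (l 15411512)) (c (b (l 15407216) (l 15426824)) (l 15398960))) (c (a (b (l 15415512) (l 15447512)) (b (l 15453392) (l 15470600))) (a (l 15426464) (l 15437736)))) (b (c (l 15373640) (b (l 15370264) (l 15391264))) (c (l 15415680) (b (l 15400376) (l 15407752)))))) (c (a (b (a (l 15439504) (l 15384736)) (a (l 15401112) (l 15352792))) (c (a (l 15320208) (l 15312288)) (a (l 15371240) (l 15332232)))) (a (a (b (c (l 15464680) (b (l 15467664) (l 15490824))) (c (l 15446664) (l 15498024))) (b (c (l 15461712) (l 15464328)) (l 15436976))) (b (l 15357184) (l 15361328))))) (b (b (a (l 15395656) (l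 15333144)) (c (a (l 15403256) (c (b (l 15370416) (l 15381264)) (l 15336976))) (l 15351152))) (b (c (a (c (b (l 15440512) (l 15436328)) (l 15409712)) (c (b (l 15391592) (l 15397504)) (b (l 15365176) (l 15378480)))) (a (l 15388800) (c (b (l 15323992) (l 15352784)) (l 15313304)))) (c (a (c (b (l 15474040) (l 15484920)) (b (l 15363808) (l 15446112))) (b (l 15382136) (l 15371160))) (a (c (b (l 15406144) (l 15357880)) (l 15398888)) (c (b (l 15367784) (l 15379504)) (b (l 15344352) (l 15318104)))))))), by decide +kernel⟩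

def k10_pm_022_a : ∃ t, chk3 f_pm_022_a t 17 6 3 = true :=
  ⟨(b (a (a (l 15481432) (b (l 15421648) (l 15430072))) (b (l 15328816) (l 15323656))) (a (b (a (l 15507032) (l 15437704)) (l 15487088)) (c (b (l 15334968) (l 15305944)) (l 15317080)))), by decide +kernel⟩

def k11_pm_022_a : ∃ t, chk3 f_pm_022_a t 32 14 2 = true :=
  ⟨(c (b (c (b (a (l 15864360) (c (l 15839016) (l 15809472))) (a (l 15924856) (a (l 15799704) (c (l 15933792) (l 15871944))))) (b (l 15829144) (l 15881568))) (b (a (c (c (l 15927184) (l 15995464)) (l 15982936)) (c (a (c (l 15977576) (b (l 15946832) (l 16005928))) (b (c (l 16017728) (l 15955504)) (l 15991208))) (a (l 15941472) (b (l 15897752) (l 15944624))))) (a (c (c (a (l 16073312) (b (l 16129512) (l 16150360))) (a (l 16097280) (b (l 16061176) (l 16127712)))) (a (l 16077016) (b (l 16027248) (l 16010448)))) (c (a (b (c (l 16127752) (l 16076920)) (l 16125512)) (c (l 16104008) (l 16095032))) (a (c (b (l 16014056) (l 16073496)) (l 16015752)) (c (l 15929256) (l 15998736)))))))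 (b (b (l 15818448) (l 15870680)) (a (l 16014416) (b (l 15913064) (l 15989104))))), by decide +kernel⟩

def k12_pm_022_a : ∃ t, chk3 f_pm_022_a t 33 14 2 = true :=
  ⟨(c (b (a (b (c (a (c (l 15850232) (l 15788472)) (c (b (l 15843184) (l 15866608)) (b (l 15774688) (l 15814224)))) (a (l 15759624) (a (l 15740496) (l 15665816)))) (c (a (c (b (l 15914304) (l 15958176)) (b (l 15847896) (l 15910104))) (l 15820456)) (a (a (l 15821936) (l 15709104)) (c (l 15773352) (l 15777784))))) (c (b (c (l 15792952) (l 15709256)) (l 15813576)) (b (c (a (l 15732312) (l 15727824)) (l 15661960)) (c (l 15714120) (a (l 15759088) (l 15753224)))))) (c (a (b (c (l 15971680) (l 15858352)) (l 16019920)) (l 15874560)) (a (b (c (a (l 15838128) (l 15929112)) (l 15780472)) (c (a (l 16043944) (l 16015784)) (a (b (l 15960920) (l 16031400)) (l 15987224)))) (b (c (l 15869808) (a (l 15866840) (l 15839032))) (c (l 15920008) (l 15903280)))))) (b (a (b (l 15719912) (l 15767632)) (c (b (l 15642864) (l 15549944)) (a (l 15660688) (l 15608808))))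 (c (a (b (l 15848288) (c (a (l 15951336) (l 15934656)) (l 15917904))) (b (c (a (l 15810256) (c (l 15810008) (l 15781136))) (l 15755256)) (c (a (b (l 15898768) (l 15951616)) (l 15887136)) (a (l 15867712) (c (l 15854696) (l 15824864)))))) (a (l 15862848) (c (b (l 15726912) (l 15806768)) (l 15753064)))))), by decide +kernel⟩

def k13_pm_022_a : ∃ t, chk3 f_pm_022_a t 64 15 2 = true :=
  ⟨(b (c (b (c (a (c (b (l 16255424) (a (l 16324936) (l 16316120))) (b (l 16186288) (l 16223216))) (c (l 16153440) (b (l 16200152) (l 16265416)))) (a (c (b (l 16145552) (l 16118208)) (l 16160840)) (c (b (l 16135640) (l 16203864)) (l 16134272)))) (c (c (l 16305872) (a (l 16255008) (l 16313744))) (c (a (b (l 16269056) (l 16330048)) (l 16182120)) (a (l 16242680) (b (l 16217408) (l 16237328)))))) (b (l 16139048) (l 16168576))) (c (c (b (l 16312024) (a (l 16511856) (l 16449608))) (b (a (c (b (l 16401056) (b (l 16454616) (l 16482864))) (b (l 16360856) (l 16362088))) (c (l 16376664) (b (l 16367864) (l 16394392)))) (c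 (l 16435800) (b (a (l 16466248) (l 16471672)) (l 16449224))))) (c (b (c (b (l 16258024) (a (l 16387032) (c (l 16402984) (l 16365832)))) (l 16310416)) (c (a (b (l 16400528) (c (l 16565560) (l 16494352))) (b (l 16402528) (l 16482336))) (b (l 16297304) (c (a (l 16478824) (l 16487496)) (l 16398368))))) (b (l 16325192) (l 16329848))))), by decide +kernel⟩

def k14_pm_022_a : ∃ t, chk3 f_pm_022_a t 65 15 2 = true :=
  ⟨(c (b (c (b (c (l 16179104) (l 16059856)) (l 16236752)) (b (c (a (b (l 16147784) (l 16211432)) (l 16163336)) (a (l 16122160) (b (l 16085616) (l 16157288)))) (c (a (l 16246624) (l 16245328)) (a (b (l 16227480) (l 16292712)) (l 16176840))))) (b (c (l 16296312) (c (l 16331696) (a (l 16288992) (l 16325808)))) (l 16308432))) (b (c (b (c (l 16066536) (l 16072488)) (c (a (l 16143336) (b (l 16114112) (l 16239840))) (l 16109416))) (l 16112056)) (c (b (c (a (b (l 16232432) (l 16383272)) (l 16219608)) (a (l 16174424) (b (c (l 16272144) (l 16236328)) (l 16268480)))) (c (b (l 16354264) (l 16439568))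 (b (a (c (l 16426304) (l 16393248)) (l 16375312)) (b (l 16364472) (l 16394488))))) (b (c (a (l 16273848) (l 16188056)) (l 16252200)) (c (b (a (l 16362088) (c (l 16370864) (l 16336600))) (c (a (l 16412656) (l 16445848)) (a (l 16420488) (l 16402320)))) (a (l 16377816) (b (l 16314600) (l 16341888)))))))), by decide +kernel⟩

def k15_pm_022_a : ∃ t, chk3 f_pm_022_a t 33 15 2 = true :=
  ⟨(c (b (c (a (l 16095344) (l 15979976)) (a (b (c (l 16097192) (a (l 16111704) (l 16079816))) (a (l 16190936) (l 16126192))) (l 15958920))) (a (b (l 16165120) (l 16201752)) (b (c (l 16091216) (l 16095736)) (l 16183152)))) (b (c (a (b (c (a (b (l 16030208) (l 16104344)) (b (l 16028184) (l 16085272))) (a (l 16024544) (b (l 15968384) (l 16001104)))) (c (a (b (l 16164072) (l 16222672)) (l 16150008)) (a (b (l 16108120) (l 16059272)) (b (l 16101096) (l 16159664))))) (b (c (a (l 16019264) (l 15957536)) (a (c (l 15999736) (l 15912920)) (l 15936288))) (c (l 16044112) (a (l 16065328) (l 16012120))))) (a (c (b (l 15989256)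 (a (l 16105456) (c (b (l 16050432) (l 16127960)) (l 16064840)))) (l 16023576)) (a (b (l 15807160) (c (b (c (l 16037696) (l 15995936)) (l 16061032)) (l 15991088))) (c (b (c (l 15903248) (l 15770728)) (l 15926536)) (b (c (l 15842744) (l 15842192)) (c (b (l 15938360) (l 16000256)) (a (l 15942320) (l 15963808)))))))) (c (b (a (c (l 16246416) (a (b (l 16247000) (l 16306744)) (l 16227304))) (l 16107768)) (a (a (l 16242264) (l 16286912)) (l 16181608))) (c (a (b (a (b (l 16194840) (c (l 16284152) (l 16250584))) (b (l 16056448) (l 16242112))) (a (b (l 16295464) (l 16397528)) (l 16311496))) (b (a (l 16091632) (l 16065648)) (l 16183896))) (a (b (a (l 16194896) (b (l 16124632) (c (l 16213248) (l 16174880)))) (a (b (c (l 16308120) (l 16274296)) (c (l 16380960) (l 16338112))) (b (c (l 16282544) (l 16235312)) (l 16285712)))) (b (a (b (c (l 16104240) (l 16063824)) (l 16108480)) (c (l 16010432) (a (l 16055664) (l 16080816)))) (a (l 16182240) (l 16155568)))))))), by decide +kernel⟩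

def k16_pm_022_a : ∃ t, chk3 f_pm_022_a t 16 14 3 = true :=
  ⟨(a (c (b (a (l 15861520) (b (l 15766968) (l 15735608))) (a (l 16003688) (a (b (l 15912384) (l 15990640)) (a (l 15917208) (l 15901240))))) (b (a (c (l 15848888) (a (c (l 15860904) (b (l 15831144) (l 15886008))) (b (l 15803736) (l 15858088)))) (c (a (c (l 15795056) (l 15706504)) (b (l 15730240) (l 15783032))) (l 15773200))) (a (c (a (l 16011704) (l 15891648)) (a (c (l 16006280) (a (l 16013304) (l 15997784))) (c (a (l 15980424) (l 15957784)) (l 15967384)))) (c (a (c (b (l 15896464) (l 15975416)) (b (l 15892184) (l 15971440))) (b (l 15813776) (l 15932144))) (l 15829128))))) (c (a (b (c (b (a (l 15714408) (c (l 15669880) (l 15658792))) (a (l 15764184) (l 15724544))) (b (a (l 15697192) (c (l 15665400) (l 15676688))) (a (c (l 15744856) (l 15748144)) (l 15711672)))) (c (l 15848000) (c (a (l 15850616) (l 15815872)) (l 15838544)))) (b (c (b (a (l 15626720) (l 15593688)) (c (l 15653496) (l 15659224))) (l 15645720)) (c (a (l 15668224) (l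 15738864)) (l 15771088)))) (b (b (a (l 15683064) (l 15610616)) (l 15693672)) (l 15799504)))), by decide +kernel⟩

def k17_pm_022_a : ∃ t, chk3 f_pm_022_a t 16 15 3 = true :=
  ⟨(a (c (b (a (b (l 16130352) (l 16222040)) (c (l 16103800) (l 16048240))) (a (l 16374808) (c (l 16299144) (a (l 16312056) (l 16202040))))) (a (c (b (a (l 16082792) (l 16106208)) (l 16200440)) (b (a (c (b (l 16136600) (l 16230464)) (b (a (c (l 16144432) (l 16143952)) (l 16128280)) (a (l 16239440) (l 16221912)))) (c (b (l 15973480) (l 16149744)) (l 16141728))) (a (c (l 16365456) (a (c (l 16395600) (l 16290792)) (l 16273480))) (c (a (c (l 16353632) (l 16352400)) (l 16331240)) (l 16343952))))) (c (a (c (b (l 16104376) (l 16302824)) (b (l 16100904) (c (l 16234648) (l 16300448)))) (b (l 16060216) (c (l 16151584) (l 16264496)))) (l 16037256)))) (c (a (c (b (l 15925848) (b (c (l 16149800) (l 16146144)) (a (l 16156008) (c (b (l 16208072) (c (l 16257496) (l 16260856))) (l 16193336))))) (b (a (c (l 16013616) (l 16018312)) (l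 15915304)) (c (a (l 16207632) (l 16086888)) (a (l 16150408) (l 16185392))))) (b (c (c (a (l 15925904) (b (l 15855520) (c (l 15864072) (l 15957680)))) (l 15837312)) (l 15932088)) (c (c (a (b (c (l 15950504) (l 16067768)) (c (a (l 16139672) (l 16137584)) (b (a (l 16153720) (l 16169680)) (a (l 16237712) (l 16242600))))) (a (b (c (l 16016536) (l 16074760)) (c (l 16196424) (l 16085792))) (b (c (b (l 16060128) (l 16127912)) (l 16060904)) (l 16106912)))) (b (a (l 16076840) (l 16061536)) (a (c (a (l 16190648) (b (l 16162072) (l 16244408))) (l 16198560)) (b (c (l 16167392) (l 16141312)) (c (l 16231808) (l 16218176)))))) (b (l 16071792) (l 16117232))))) (b (l 15963640) (l 16159176)))), by decide +kernel⟩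

def k18_pm_022_a : ∃ t, chk3 f_pm_022_a t 17 14 4 = true :=
  ⟨(a (b (c (b (a (l 15667352) (l 15504080)) (l 15603208)) (a (b (c (l 15643192) (a (l 15651864) (l 15605344))) (c (l 15696152) (l 15677096))) (b (a (l 15547760) (l 15488192)) (l 15433104)))) (c (a (l 15743792) (l 15600360)) (a (b (l 15719544) (l 15768912)) (a (l 15620400) (c (l 15543496) (l 15573104)))))) (b (a (c (b (a (l 15383464) (l 15343136)) (l 15379264)) (c (a (l 15428848) (b (l 15400936) (l 15428744))) (b (l 15450208) (l 15467296)))) (c (a (c (l 15325920) (l 15326424)) (b (l 15313376) (l 15347352))) (l 15367528))) (c (a (a (l 15495360) (c (l 15440592) (l 15470808))) (c (a (l 15431720) (l 15437712)) (l 15374792))) (a (a (c (l 15516176) (l 15560288)) (l 15518264)) (l 15465432))))), by decide +kernel⟩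

def k19_pm_022_a : ∃ t, chk3 f_pm_022_a t 17 14 5 = true :=
  ⟨(a (b (c (a (a (b (l 15563840) (c (l 15621616) (l 15593352))) (b (c (c (l 15561752) (l 15520816)) (l 15513200)) (c (l 15614752) (c (l 15587688) (l 15570528))))) (c (b (a (c (l 15543672) (l 15540344)) (l 15548464)) (a (l 15592576) (l 15574120))) (b (a (l 15507912) (l 15535408)) (a (c (l 15611104) (l 15604888)) (l 15589560))))) (a (a (b (l 15552192) (l 15594744)) (b (l 15536688) (l 15581072))) (b (l 15498304) (c (a (l 15572520) (l 15563632)) (l 15536144))))) (c (a (c (b (a (l 15747408) (l 15685216)) (l 15772216)) (a (b (c (l 15708128) (l 15666936)) (l 15660736)) (b (a (l 15590560) (l 15678488)) (l 15753448)))) (c (a (l 15651328) (l 15625176)) (a (b (l 15656896) (l 15727264)) (l 15654912)))) (a (c (a (b (l 15656456) (c (a (l 15749544) (l 15755648)) (l 15743312))) (b (c (l 15594712) (l 15661192)) (c (l 15773872) (a (l 15773616) (l 15773320))))) (a (l 15692448) (b (l 15651912) (c (l 15759208) (l 15729280))))) (b (c (a (l 15648544)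 (l 15637992)) (a (l 15626376) (l 15552288))) (c (l 15717640) (a (b (l 15706464) (l 15753048)) (l 15694152))))))) (b (c (b (a (c (l 15475616) (l 15480912)) (l 15364928)) (l 15443080)) (a (b (c (a (l 15480864) (l 15453096)) (a (l 15435496) (l 15427280))) (c (l 15507136) (a (l 15509592) (l 15479944)))) (b (c (l 15371336) (a (l 15398568) (l 15362240))) (l 15395912)))) (a (c (l 15565832) (b (c (l 15552752) (a (l 15583792) (l 15541912))) (l 15604992))) (l 15476384)))), by decide +kernel⟩

def k20_pm_022_a : ∃ t, chk3 f_pm_022_a t 17 15 2 = true :=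
  ⟨(a (c (b (a (c (l 15867224) (l 15834584)) (c (l 15737776) (a (l 15739688) (c (l 15676896) (l 15699480))))) (a (b (l 15976552) (l 16010448)) (c (l 15917760) (a (b (l 15861000) (l 15959960)) (c (l 15855752) (l 15876120)))))) (b (c (c (a (l 15805528) (a (l 15753728) (l 15742224))) (a (a (b (l 15864256) (l 15912976)) (l 15828384)) (a (l 15801712) (l 15761520)))) (a (c (a (b (c (l 15861064) (a (l 15854136) (l 15868760))) (l 15920616)) (b (c (l 15848112) (l 15864280)) (l 15904928))) (b (a (c (a (l 15847424) (l 15870880)) (l 15849832)) (b (l 15827592) (l 15876568))) (a (c (l 15925904) (a (l 15934608) (l 15972056))) (l 15935928)))) (b (c (l 15773296) (a (l 15811984) (l 15755088))) (l 15839976)))) (c (a (a (b (l 15980888) (l 16066040)) (c (l 15954080) (b (l 15923232) (l 16013608)))) (a (c (l 15814304) (l 15832136)) (b (l 15870112) (l 15948336)))) (a (a (c (b (l 15998056) (l 16071752)) (b (c (l 16039656) (l 16065344)) (l 16115728))) (b (l 15919376) (l 15976496))) (l 15897664))))) (c (c (a (b (a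 (c (l 15641232) (l 15629616)) (c (l 15588544) (l 15616904))) (c (b (l 15751584) (l 15788992)) (a (l 15813880) (l 15802632)))) (b (c (a (l 15583424) (l 15591248)) (l 15589392)) (c (a (l 15767360) (l 15670360)) (a (l 15767808) (l 15787048))))) (a (b (a (c (l 15655040) (l 15696360)) (c (l 15657520) (l 15670072))) (c (a (l 15838648) (l 15844320)) (a (l 15878912) (l 15856408)))) (b (l 15614168) (l 15800848)))) (b (b (l 15555752) (l 15692288)) (b (l 15779904) (l 15880512))))), by decide +kernel⟩

def k21_pm_022_a : ∃ t, chk3 f_pm_022_a t 17 14 3 = true :=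
  ⟨(c (a (b (l 15534208) (c (a (l 15700024) (b (l 15588952) (c (a (l 15689064) (c (l 15680200) (l 15665568))) (l 15656792)))) (l 15651824))) (b (c (b (a (l 15402192) (c (b (l 15351120) (l 15362368)) (l 15325440))) (a (c (l 15428456) (l 15439720)) (c (a (l 15425264) (l 15386640)) (l 15279104)))) (l 15309936)) (c (a (b (c (a (l 15519808) (l 15529592)) (l 15523904)) (c (a (l 15619904) (l 15596600)) (a (l 15495904) (l 15481888)))) (b (c (l 15447272) (a (l 15475032) (l 15435376))) (c (l 15508864) (l 15504424)))) (a (c (b (l 15497744) (l 15584904)) (l 15527864)) (b (c (l 15393040) (l 15412280)) (c (a (l 15532400) (b (l 15477152) (l 15499160))) (l 15388632))))))) (b (l 15435848) (l 15494640))), by decide +kernel⟩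

def k22_pm_022_a : ∃ t, chk3 f_pm_022_a t 34 15 6 = true :=
  ⟨(b (c (a (b (c (a (l 15838664) (c (l 15828856) (l 15801424))) (l 15812736)) (c (a (b (l 15914608) (l 15900000)) (b (l 15901680) (l 15952704))) (a (l 15921056) (b (l 15861432) (l 15888736))))) (b (c (a (b (l 15772600) (l 15821424)) (l 15758424)) (a (l 15760608) (c (l 15746664) (l 15734160)))) (c (a (l 15882728) (l 15826424)) (a (b (l 15847080) (l 15898088)) (b (l 15813280) (l 15855872)))))) (a (l 15850576) (b (l 15727120) (c (a (l 15841144) (b (l 15794200) (l 15843240))) (l 15810736))))) (c (b (a (c (a (b (l 16039112) (l 16090856)) (l 16002696)) (a (b (l 16002528) (c (l 16078752) (l 16063272))) (b (l 15942320) (l 16036928)))) (c (l 15924856) (a (b (l 15945128) (l 15981320)) (l 15906184)))) (a (c (l 16116760) (a (b (l 16024768) (l 16181664)) (l 16094696))) (l 16014624))) (a (b (c (a (l 16012312) (b (l 15949312) (l 15935416))) (l 15987096)) (c (c (a (b (l 16111888) (l 16175664)) (l 15999352)) (a (l 16007264) (b (l 16069728) (l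 16130104)))) (a (l 16112984) (b (l 16046736) (c (l 16119576) (l 16101256)))))) (b (c (a (b (l 15908992) (l 15899176)) (b (l 15892264) (l 15927320))) (a (l 15938552) (b (l 15877224) (l 15886760)))) (b (c (l 15929920) (a (l 15979400) (c (l 15974096) (l 15979488)))) (c (l 16043448) (a (c (l 16080552) (l 16074576)) (l 16020664)))))))), by decide +kernel⟩

def k23_pm_022_a : ∃ t, chk3 f_pm_022_a t 35 15 6 = true :=
  ⟨(b (c (a (b (c (l 15674128) (a (b (l 15687152) (l 15729016)) (l 15648560))) (l 15742600)) (l 15611472)) (a (b (c (a (l 15686240) (b (l 15631928) (l 15675216))) (l 15653480)) (c (a (b (l 15758568) (l 15802296)) (l 15721552)) (a (l 15761864) (b (l 15703760) (l 15749088))))) (b (b (c (l 15511312) (a (l 15577624) (l 15538400))) (c (l 15592464) (a (l 15620440) (l 15566224)))) (c (l 15649296) (a (b (l 15649248) (l 15694416)) (l 15627152)))))) (c (b (l 15779160) (l 15873144)) (a (b (c (l 15831568) (a (b (l 15817176) (l 15831848)) (l 15802696))) (l 15920048)) (l 15782016)))), by decide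 +kernel⟩

def k24_pm_022_a : ∃ t, chk3 f_pm_022_a t 17 15 7 = true :=
  ⟨(a (b (l 15798760) (a (l 16032352) (c (b (l 15898992) (c (a (l 16033400) (b (l 15968560) (c (l 16026752) (l 16019216)))) (l 16000256))) (l 15943336)))) (b (c (a (a (l 15697560) (l 15555312)) (a (b (l 15572672) (c (b (l 15649864) (l 15694800)) (l 15654744))) (b (l 15412072) (c (b (c (l 15602368) (l 15605880)) (l 15641568)) (l 15530480))))) (l 15625192)) (c (a (b (c (a (c (l 15850168) (l 15844456)) (b (l 15783768) (c (l 15826896) (l 15830704)))) (l 15814016)) (c (a (b (c (l 15919032) (l 15923968)) (l 15968792)) (l 15895472)) (b (a (l 15918080) (c (l 15845064) (l 15869104))) (a (l 15885080) (c (l 15920168) (l 15832552)))))) (b (c (a (b (l 15689240) (l 15776632)) (l 15706952)) (a (b (l 15730144) (c (l 15774032) (l 15775360))) (b (c (l 15682872) (l 15676112)) (l 15726216)))) (c (l 15825032) (a (b (c (l 15825256) (l 15820496)) (l 15871520)) (l 15800432))))) (a (a (l 15878064) (b (l 15782808) (l 15866200))) (b (c (a (l 15743304)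 (b (l 15678352) (c (l 15721384) (l 15721112)))) (l 15714904)) (c (a (b (l 15686808) (c (l 15868904) (l 15864552))) (b (c (l 15772392) (l 15725672)) (l 15822288))) (a (l 15835088) (b (l 15764592) (c (a (l 15828968) (l 15808400)) (l 15814992)))))))))), by decide +kernel⟩

def k25_pm_022_a : ∃ t, chk3 f_pm_022_a t 9 6 2 = true :=
  ⟨(a (b (a (c (a (c (l 15311600) (b (l 15229872) (l 15305224))) (b (l 15205616) (l 15173472))) (c (a (b (c (b (l 15312608) (l 15317504)) (l 15290592)) (c (l 15314176) (b (l 15295552) (l 15302456)))) (b (c (l 15224152) (a (l 15245456) (l 15177072))) (c (l 15191856) (l 15196688)))) (a (b (l 15250504) (c (l 15190880) (l 15239976))) (b (c (a (l 15205248) (l 15152256)) (l 15151536)) (c (a (l 15226816) (l 15151672)) (a (l 15202328) (l 15132152))))))) (c (b (l 14935120) (l 14906224)) (c (b (l 14911544) (l 14908424)) (b (a (c (l 15032600) (l 15014536)) (l 14832360)) (a (c (l 15001880) (l 15002992)) (l 14808080)))))) (a (c (a (b (l 15274480) (l 15263984)) (b (l 15155864) (l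 15146416))) (c (b (a (c (l 15292712) (l 15297104)) (l 15161808)) (a (l 15271824) (l 15143032))) (b (a (c (b (l 15285912) (l 15292368)) (b (l 15262280) (l 15271944))) (c (l 15164680) (a (l 15192656) (l 15130208)))) (a (b (c (l 15292080) (l 15281792)) (l 15268952)) (l 15149856))))) (c (b (l 14892168) (l 14891736)) (b (c (l 14879952) (l 14883720)) (l 14871224))))) (b (a (c (l 14571720) (b (l 14562008) (l 14531848))) (c (l 14249640) (l 14207920))) (a (b (l 14532872) (l 14528920)) (a (l 14266864) (l 14124792))))), by decide +kernel⟩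

def k26_pm_022_a : ∃ t, chk3 f_pm_022_a t 9 6 6 = true :=
  ⟨(a (b (a (a (l 15227024) (b (l 15130344) (l 15123160))) (c (b (a (l 14996104) (c (l 14833432) (l 14814760))) (a (c (b (l 14991352) (l 14991216)) (l 14971144)) (c (l 14800912) (b (l 14808008) (l 14785088))))) (b (l 14871208) (a (l 14941920) (l 14780768))))) (a (b (a (l 15224000) (c (c (a (l 15192728) (l 15117896)) (l 15136248)) (l 15107928))) (c (a (c (b (l 15261144) (a (l 15294248) (l 15259744))) (l 15185256)) (b (c (l 15159568) (a (l 15188176) (l 15111184))) (c (l 15150312) (a (l 15199008) (l 15101208))))) (a (l 15220384) (c (b (l 15128696) (l 14968728)) (l 15119912))))) (c (b (a (a (b (l 15024728) (l 15022264)) (b (l 14935480) (l 14915616))) (l 14779384)) (a (l 14956536) (l 14760880))) (b (a (c (l 14953072) (l 14932800)) (c (b (l 14597624) (l 14765872)) (b (l 14764808) (a (l 14811824) (l 14709168))))) (a (c (b (a (l 15006960) (l 14903168)) (l 14947648)) (b (l 14941888) (a (l 14995472) (l 14892256)))) (b (c (l 14761056) (l 14751728))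 (l 14751984))))))) (b (a (c (b (a (c (l 14645840) (a (l 14692544) (l 14591288))) (l 14455640)) (l 14517128)) (b (a (l 14622200) (c (l 14440888) (a (l 14483328) (l 14384152)))) (a (c (b (l 14602688) (l 14595728)) (b (l 14599672) (l 14579200))) (l 14406256)))) (b (a (l 14256888) (l 14108008)) (l 14156512))) (a (a (b (b (c (l 14587088) (l 14577800)) (l 14576320)) (l 14571064)) (l 14390192)) (l 14131328)))), by decide +kernel⟩

def k27_pm_022_a : ∃ t, chk3 f_pm_022_a t 9 6 7 = true :=
  ⟨(a (b (l 14828512) (a (l 15144264) (c (b (l 14830384) (a (l 14929488) (c (b (l 14525256) (a (l 14787432) (l 14694552))) (b (l 14734056) (l 14724512))))) (l 14811208)))) (b (a (c (b (l 14500256) (a (l 14578624) (c (b (l 14394616) (l 14386856)) (l 14373552)))) (l 14469744)) (c (a (b (c (l 14001384) (l 14217616)) (c (l 14206128) (a (l 14239008) (l 14149200)))) (b (l 14078816) (l 14050600))) (a (b (l 14213392) (c (a (l 14224544) (l 14135520)) (l 14166896))) (b (c (l 14059328) (l 14045192)) (c (l 14032664) (b (l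 14025320) (l 14013512))))))) (a (b (c (a (c (b (l 14558488) (l 14557256)) (l 14541472)) (c (l 14372128) (b (l 14363024) (l 14358080)))) (a (l 14536016) (c (b (l 14349600) (l 14344288)) (l 14335232)))) (c (a (c (l 14550792) (b (a (l 14588704) (l 14495912)) (l 14540344))) (l 14357240)) (a (c (b (l 14526760) (a (l 14576592) (l 14482344))) (l 14515024)) (c (b (l 14341464) (l 14339744)) (b (l 14328576) (a (l 14375696) (l 14280592))))))) (c (l 14102032) (b (a (c (b (l 14166264) (l 14158736)) (b (l 14152720) (l 14103880))) (l 14006208)) (a (l 14145936) (l 1))))))), by decide +kernel⟩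

def k28_pm_022_a : ∃ t, chk3 f_pm_022_a t 18 14 2 = true :=
  ⟨(a (b (a (c (l 15279432) (b (l 15267224) (l 15299128))) (b (l 15150488) (l 15183536))) (a (c (l 15391008) (l 15378544)) (l 15277416))) (b (b (l 14886392) (l 14922936)) (l 15014648))), by decide +kernel⟩

def k29_pm_022_a : ∃ t, chk3 f_pm_022_a t 36 14 3 = true :=
  ⟨(c (b (c (a (b (c (a (l 15307640) (l 15253920)) (a (l 15289296) (l 15253920))) (c (l 15303768) (a (l 15333624) (l 15279272)))) (b (l 15142328) (l 15173672))) (a (b (c (l 15250376) (l 15227272)) (c (a (l 15316720) (l 15279392)) (l 15279208))) (b (c (a (l 15192456) (l 15093560)) (a (l 15177416) (l 15093096))) (c (l 15169432) (a (l 15217688) (l 15119768)))))) (c (a (l 15360616) (l 15254488)) (a (b (c (a (l 15381968) (l 15327336)) (a (l 15367488) (l 15327608))) (c (l 15408944) (a (b (l 15422072) (l 15445000)) (l 15382896)))) (b (a (l 15221088) (l 15176856)) (l 15282832))))) (b (a (l 15232072) (b (l 15101240) (c (c (l 15093264) (l 15142016)) (l 15132048)))) (c (a (c (b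 (l 15331168) (a (l 15425784) (b (l 15366936) (l 15391856)))) (l 15355232)) (b (c (a (l 15265928) (l 15126992)) (l 15163208)) (c (a (l 15282056) (l 15233288)) (a (b (l 15305656) (l 15332176)) (c (l 15228920) (l 15223568)))))) (a (l 15342776) (a (l 15271920) (b (l 15148472) (l 15098280))))))), by decide +kernel⟩

def k30_pm_022_a : ∃ t, chk3 f_pm_022_a t 37 14 3 = true :=
  ⟨(c (b (b (c (l 14855848) (a (c (l 14952824) (a (l 14989760) (l 14896432))) (l 14748976))) (l 14887792)) (l 14975808)) (b (c (a (b (c (a (l 14987688) (l 14864040)) (l 14924408)) (c (a (l 15015320) (l 14920960)) (a (l 15012328) (l 14909960)))) (b (c (l 14741776) (a (l 14779600) (l 14685568))) (l 14706408))) (a (b (l 14909576) (l 14951976)) (b (c (l 14675568) (l 14715840)) (c (a (l 14803976) (l 14709240)) (l 14743624))))) (c (a (b (c (l 15023400) (a (c (l 15067696) (l 15060744)) (l 14967816))) (l 15082784)) (l 14860024)) (a (b (c (a (l 15060208) (c (l 14960528) (l 14954760))) (l 14998320)) (c (a (b (l 15103488) (l 15138736))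 (l 15024464)) (a (l 15113216) (b (l 14997992) (l 15033696))))) (b (c (a (l 14862840) (l 14767384)) (a (l 14832008) (b (l 14741976) (l 14773120)))) (c (l 14880720) (a (b (l 14902192) (l 14937912)) (l 14825104)))))))), by decide +kernel⟩

def k31_pm_022_a : ∃ t, chk3 f_pm_022_a t 18 15 1 = true :=
  ⟨(b (c (a (a (c (l 15543640) (l 15525328)) (l 15428240)) (l 15159968)) (c (a (a (c (l 15514176) (b (l 15474984) (l 15550672))) (l 15398256)) (l 15121664)) (a (c (a (b (c (a (b (l 15483592) (l 15513720)) (l 15448528)) (a (l 15487752) (b (l 15428880) (l 15419192)))) (c (l 15549440) (a (b (c (l 15548696) (l 15550128)) (l 15589744)) (l 15522312)))) (b (c (l 15348800) (a (b (l 15371576) (l 15409392)) (l 15298472))) (l 15427904))) (a (b (l 15461624) (c (a (l 15561072) (b (l 15493352) (c (l 15540768) (l 15535856)))) (l 15530960))) (b (c (a (b (l 15368072) (l 15275752)) (b (l 15229416) (l 15311272))) (a (l 15378272) (l 15239008))) (c (a (b (c (l 15446088) (l 15441568)) (l 15486688)) (l 15375056)) (a (b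 (l 15436352) (c (l 15482312) (l 15477936))) (b (c (l 15347720) (l 15343472)) (l 15389736))))))) (a (c (l 15197120) (b (c (l 15147104) (a (b (l 15167312) (l 15123080)) (l 15090816))) (l 15226840))) (l 1))))) (a (c (a (c (l 15727512) (l 15711824)) (l 15526832)) (c (a (l 15696264) (l 15584392)) (c (a (b (l 15636072) (l 15736152)) (l 15570984)) (a (b (c (a (b (c (l 15630216) (l 15624392)) (c (l 15677664) (l 15674472))) (l 15481672)) (a (c (l 15622088) (l 15645400)) (b (c (l 15578480) (l 15574536)) (c (l 15628104) (l 15603608))))) (c (l 15731968) (a (b (c (l 15701272) (l 15718576)) (c (l 15776312) (l 15731064))) (l 15705128)))) (b (a (c (l 15556888) (b (c (l 15529088) (l 15462544)) (l 15576888))) (l 1)) (l 1)))))) (l 1))), by decide +kernel⟩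

def k32_pm_022_a : ∃ t, chk3 f_pm_022_a t 19 7 1 = true :=
  ⟨(a (b (c (b (b (l 14532904) (l 14566648)) (l 14652344)) (b (c (l 14494824) (c (l 14470864) (a (b (c (a (l 14579344) (l 14483672)) (a (l 14567928) (l 14472832))) (c (l 14566536) (a (l 14540160) (l 14508016)))) (b (l 14335320) (l 1))))) (c (l 14600328) (l 14396912)))) (l 1)) (l 1)), by decide +kernel⟩

def k33_pm_022_a : ∃ t, chk3 f_pm_022_a t 5 3 1 = true :=
  ⟨(b (b (a (a (a (c (l 13974704) (c (l 13903576) (c (l 13867920) (a (b (c (l 13929392) (l 13915432)) (l 13894560)) (l 1))))) (l 1)) (l 1)) (l 1)) (l 1)) (l 1)), by decide +kernel⟩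

def k34_pm_022_a : ∃ t, chk3 f_pm_022_a t 3 1 1 = true :=
  ⟨(l 1), by decide +kernel⟩

theorem s35_pm_022_a : ∃ t, chk3 f_pm_022_a t 18 14 3 = true := ex3_a k29_pm_022_a k30_pm_022_a

theorem s36_pm_022_a : ∃ t, chk3 f_pm_022_a t 18 14 1 = true := ex3_c k28_pm_022_a s35_pm_022_a

theorem s37_pm_022_a : ∃ t, chk3 f_pm_022_a t 18 7 1 = true := ex3_b s36_pm_022_a k31_pm_022_a

theorem s38_pm_022_a : ∃ t, chk3 f_pm_022_a t 9 7 1 = true := ex3_a s37_pm_022_a k32_pm_022_a

theorem s39_pm_022_a : ∃ t, chk3 f_pm_022_a t 9 6 3 = true := ex3_c k26_pm_022_a k27_pm_022_a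

theorem s40_pm_022_a : ∃ t, chk3 f_pm_022_a t 9 6 1 = true := ex3_c k25_pm_022_a s39_pm_022_a

theorem s41_pm_022_a : ∃ t, chk3 f_pm_022_a t 9 3 1 = true := ex3_b s40_pm_022_a s38_pm_022_a

theorem s42_pm_022_a : ∃ t, chk3 f_pm_022_a t 17 15 6 = true := ex3_a k22_pm_022_a k23_pm_022_a

theorem s43_pm_022_a : ∃ t, chk3 f_pm_022_a t 17 15 3 = true := ex3_c s42_pm_022_a k24_pm_022_a

theorem s44_pm_022_a : ∃ t, chk3 f_pm_022_a t 17 7 3 = true := ex3_b k21_pm_022_a s43_pm_022_a

theorem s45_pm_022_a : ∃ t, chk3 f_pm_022_a t 17 14 2 = true := ex3_c k18_pm_022_a k19_pm_022_a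

theorem s46_pm_022_a : ∃ t, chk3 f_pm_022_a t 17 7 2 = true := ex3_b s45_pm_022_a k20_pm_022_a

theorem s47_pm_022_a : ∃ t, chk3 f_pm_022_a t 17 7 1 = true := ex3_c s46_pm_022_a s44_pm_022_a

theorem s48_pm_022_a : ∃ t, chk3 f_pm_022_a t 16 7 3 = true := ex3_b k16_pm_022_a k17_pm_022_a

theorem s49_pm_022_a : ∃ t, chk3 f_pm_022_a t 32 15 2 = true := ex3_a k13_pm_022_a k14_pm_022_a

theorem s50_pm_022_a : ∃ t, chk3 f_pm_022_a t 16 15 2 = true := ex3_a s49_pm_022_a k15_pm_022_a

theorem s51_pm_022_a : ∃ t, chk3 f_pm_022_a t 16 14 2 = true := ex3_a k11_pm_022_a k12_pm_022_a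

theorem s52_pm_022_a : ∃ t, chk3 f_pm_022_a t 16 7 2 = true := ex3_b s51_pm_022_a s50_pm_022_a

theorem s53_pm_022_a : ∃ t, chk3 f_pm_022_a t 16 7 1 = true := ex3_c s52_pm_022_a s48_pm_022_a

theorem s54_pm_022_a : ∃ t, chk3 f_pm_022_a t 8 7 1 = true := ex3_a s53_pm_022_a s47_pm_022_a

theorem s55_pm_022_a : ∃ t, chk3 f_pm_022_a t 17 6 2 = true := ex3_a k8_pm_022_a k9_pm_022_a

theorem s56_pm_022_a : ∃ t, chk3 f_pm_022_a t 17 6 1 = true := ex3_c s55_pm_022_a k10_pm_022_a

theorem s57_pm_022_a : ∃ t, chk3 f_pm_022_a t 8 6 1 = true := ex3_a k7_pm_022_a s56_pm_022_a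

theorem s58_pm_022_a : ∃ t, chk3 f_pm_022_a t 8 3 1 = true := ex3_b s57_pm_022_a s54_pm_022_a

theorem s59_pm_022_a : ∃ t, chk3 f_pm_022_a t 4 3 1 = true := ex3_a s58_pm_022_a s41_pm_022_a

theorem s60_pm_022_a : ∃ t, chk3 f_pm_022_a t 2 3 1 = true := ex3_a s59_pm_022_a k33_pm_022_a

theorem s61_pm_022_a : ∃ t, chk3 f_pm_022_a t 18 2 1 = true := ex3_b k3_pm_022_a k4_pm_022_a

theorem s62_pm_022_a : ∃ t, chk3 f_pm_022_a t 9 2 1 = true := ex3_a s61_pm_022_a k5_pm_022_a

theorem s63_pm_022_a : ∃ t, chk3 f_pm_022_a t 16 2 1 = true := ex3_b k0_pm_022_a k1_pm_022_a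

theorem s64_pm_022_a : ∃ t, chk3 f_pm_022_a t 8 2 1 = true := ex3_a s63_pm_022_a k2_pm_022_a

theorem s65_pm_022_a : ∃ t, chk3 f_pm_022_a t 4 2 1 = true := ex3_a s64_pm_022_a s62_pm_022_a

theorem s66_pm_022_a : ∃ t, chk3 f_pm_022_a t 2 2 1 = true := ex3_a s65_pm_022_a k6_pm_022_a

theorem s67_pm_022_a : ∃ t, chk3 f_pm_022_a t 2 1 1 = true := ex3_b s66_pm_022_a s60_pm_022_a

theorem s68_pm_022_a : ∃ t, chk3 f_pm_022_a t 1 1 1 = true := ex3_a s67_pm_022_a k34_pm_022_a

theorem c_pm_022_a : CertNX 0 536870912 0 420477299 1046898278 26843546 3 false true false .pp 0 2 2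
    ndN0q0 ndN2q2a pcN2 Cut.none Ext.none :=
  certNX0 (fam := false) (s1 := true) (s2 := false) (a := 0) (b := 2) (c := 2) (cn := .pp) (n1 := ndN0q0) (n2 := ndN2q2a) (pc := pcN2) (cut := Cut.none) (xt := Ext.none) (P1 := 0) (W1 := 536870912) (P2 := 0) (W2 := 420477299) (P3 := 1046898278) (W3 := 26843546) (N0 := 3)
    rfl s68_pm_022_a

noncomputable def f_pm_022_b : ℕ → ℕ → ℕ → ℕ → Bool := onCell 0 536870912 1073741824 536870912 1046898278 26843546
    (rowNX 3 1 false true false .pp 0 2 2 (qsf 0 536870912 1239849684 370763052 2) ndN0q0 ndN2q2b pcN2 Cut.none Ext.none)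

def k0_pm_022_b : ∃ t, chk3 f_pm_022_b t 4 8 1 = true :=
  ⟨(a (l 1) (b (b (l 1) (b (l 1) (a (l 1) (c (a (l 1) (l 223904183831)) (c (c (l 14698608) (l 317856659879)) (l 14754624)))))) (b (a (l 1) (a (b (l 1) (c (c (l 14977080) (l 248600663415)) (l 382281439383))) (c (c (l 312487916423) (b (l 14670640) (l 14729928))) (c (c (b (l 14662336) (l 14713328)) (l 14659048)) (l 14630752))))) (c (a (a (l 1) (c (l 15331440) (b (l 1) (c (l 15323880) (l 15276648))))) (c (a (l 308730370487) (l 14878024)) (c (b (l 387650158183) (l 452074783207)) (a (l 405367069703) (l 14841464))))) (a (l 320005426151) (a (l 14962256) (l 14782576))))))), by decide +kernel⟩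

def k1_pm_022_b : ∃ t, chk3 f_pm_022_b t 4 9 1 = true :=
  ⟨(b (b (a (l 1) (a (c (c (a (c (a (l 1) (l 15586816)) (b (l 1) (l 231958943607))) (b (l 302288537415) (c (l 15425192) (l 15385280)))) (a (l 237864465943) (l 397851489335))) (a (l 15545304) (l 15284096))) (c (c (c (l 15069800) (a (l 15183136) (l 15032504))) (l 15053376)) (l 15006440)))) (a (b (l 1) (b (l 1) (a (l 1) (a (l 1) (a (l 1) (a (l 1) (c (l 15574072) (l 15541744)))))))) (a (c (a (c (b (c (a (l 15626368) (l 15585136)) (l 15564872)) (l 396241563127)) (l 15551320)) (c (b (c (l 15455480) (l 15398184)) (l 15423400)) (l 15388992))) (a (l 15524808) (l 15357920))) (c (c (c (b (l 15213928) (l 15194736)) (l 15164352)) (l 15144288)) (l 15106064))))) (a (b (a (l 1) (c (a (a (l 1) (a (l 1) (c (l 15499912) (l 15650784)))) (c (a (c (l 280814385543) (a (l 15577904) (l 15607776))) (c (l 15492376) (l 15602368))) (l 15609648))) (a (l 15705456) (l 15584912)))) (a (a (l 1) (a (l 1) (a (l 1) (a (l 1) (c (l 256655556487) (l 15762048)))))) (c (a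 (c (a (l 15760184) (c (l 15711752) (l 15692760))) (a (c (l 15726360) (l 335038545095)) (l 433285791863))) (c (a (c (l 15681456) (l 15698072)) (l 15565080)) (l 15713488))) (a (l 15725608) (l 15692312))))) (a (a (c (b (l 15581256) (l 15698136)) (l 15601936)) (b (l 15415176) (l 15538048))) (c (b (l 15189200) (l 15281456)) (b (l 15140224) (l 15236304)))))), by decide +kernel⟩

def k2_pm_022_b : ∃ t, chk3 f_pm_022_b t 5 4 1 = true :=
  ⟨(b (a (b (c (a (b (a (l 14415520) (l 14233488)) (a (l 296918245303) (l 14374256))) (l 14187664)) (c (b (a (l 432746001287) (l 14038488)) (b (a (l 14271784) (l 14169528)) (c (l 14345768) (l 14329544)))) (b (a (c (b (l 14218984) (l 173437307783)) (b (a (l 1) (l 14079424)) (l 14233360))) (c (l 14006096) (l 13979752))) (a (b (l 14296032) (l 14363640)) (l 14171296))))) (c (c (a (b (l 14584200) (l 14760048)) (b (l 14434544) (l 14581264))) (b (a (l 14564536) (l 14411432)) (a (c (l 14750920) (l 14720704)) (l 14447320)))) (b (c (a (c (l 14546208) (l 14515160)) (l 14271664))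 (l 14403520)) (a (l 14659424) (l 14472304))))) (c (b (a (l 14021312) (l 13857984)) (b (a (l 14210616) (l 14022880)) (c (l 14251584) (a (l 14307664) (l 14126528))))) (c (c (b (a (l 13969408) (l 13801240)) (a (l 14211896) (l 14023592))) (b (a (b (l 13876040) (l 14021432)) (b (l 13715328) (l 13830472))) (l 13898952))) (b (b (a (c (l 13853328) (b (l 13790160) (l 13873528))) (c (l 13690792) (b (l 13634888) (l 13694432)))) (a (l 13987520) (l 13793408))) (l 13800176))))) (b (a (c (b (c (a (c (l 14934408) (l 14907392)) (l 14698312)) (a (l 14851568) (l 14629464))) (c (a (b (l 14984344) (l 14952008)) (l 14731432)) (l 14785304))) (b (l 14488616) (l 14652584))) (c (b (c (a (l 14456600) (l 14288368)) (l 14296696)) (a (l 14475712) (l 14313672))) (a (l 14343040) (l 14170960)))) (a (c (l 14821680) (l 14548112)) (a (l 14436272) (l 14276112))))), by decide +kernel⟩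

def k3_pm_022_b : ∃ t, chk3 f_pm_022_b t 8 10 1 = true :=
  ⟨(a (c (b (b (a (l 16026832) (a (l 15854072) (c (l 15936280) (l 15847648)))) (a (l 16083112) (c (l 16221888) (l 15994360)))) (a (l 15575400) (a (l 15630160) (b (b (l 16103968) (l 15904544)) (l 15655720))))) (b (b (a (a (l 1) (a (l 1) (c (l 15975352) (l 15942128)))) (c (a (c (l 15890864) (a (l 15802520) (l 15907016))) (c (l 15809288) (l 15903232))) (l 15916320))) (a (c (a (l 16252792) (l 16115232)) (a (c (l 16163568) (a (l 383894685399) (l 16066848))) (c (a (l 16030688) (l 16206016)) (l 16212752)))) (c (a (c (l 16202384) (l 16072432)) (l 16039752)) (l 16198328)))) (a (a (c (l 15732776) (c (l 15643800) (c (a (l 15724992) (l 15574448)) (b (l 15871744) (l 15610488))))) (c (b (l 15939312) (l 15631344)) (c (a (c (l 15710272) (l 15624896)) (l 15605224)) (l 15759928)))) (c (b (a (c (l 15987480) (b (l 16113088) (l 15903064))) (b (l 16109168) (l 15903896))) (a (c (l 15645760) (l 15641120)) (l 15647776))) (l 15714128))))) (b (c (b (a (c (a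 (l 15906984) (l 15746000)) (a (c (l 15876664) (l 15882888)) (l 15748280))) (c (a (c (l 15848688) (l 15865976)) (l 15751824)) (l 15881992))) (a (c (l 16011360) (a (c (l 16162800) (l 16129520)) (l 16034888))) (c (c (l 15946728) (l 16063840)) (l 16166584)))) (b (l 15875456) (l 16127832))) (a (c (c (b (b (l 16108608) (l 15916696)) (l 15671192)) (b (c (a (l 16036336) (l 15998360)) (a (l 15974480) (l 15980224))) (a (l 15474520) (l 15695736)))) (l 15554344)) (c (c (b (a (c (l 16061056) (l 16025464)) (l 15913448)) (c (l 15779080) (l 15750952))) (l 15764384)) (l 15706408))))), by decide +kernel⟩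

def k4_pm_022_b : ∃ t, chk3 f_pm_022_b t 9 10 1 = true :=
  ⟨(a (b (b (a (c (l 15862136) (l 15835336)) (l 15692768)) (a (c (l 16127384) (l 16112224)) (l 15891512))) (a (b (c (l 16033720) (l 16028312)) (l 15671400)) (l 15881664))) (b (b (l 15272848) (l 15590072)) (c (l 15876608) (l 15820464)))), by decide +kernel⟩

def k5_pm_022_b : ∃ t, chk3 f_pm_022_b t 4 11 1 = true :=
  ⟨(a (a (c (b (a (l 15189080) (c (l 15240736) (a (l 15208976) (l 15253560)))) (a (l 14805016) (c (l 14910280) (l 14901056)))) (b (a (c (a (l 15146368) (l 15164976)) (a (c (l 15131696) (a (l 14945968) (l 15114064))) (c (a (l 14972192) (l 15161328)) (l 15137640)))) (c (a (c (l 15207160) (l 14967568)) (l 15029816)) (l 15187728))) (a (c (l 14764936) (a (c (l 14716040) (a (l 14684856) (l 14705360))) (c (l 14660224) (l 14752752)))) (c (a (c (l 14859208) (l 14846880)) (l 14908064)) (l 14837152))))) (b (c (a (c (l 15321880) (c (a (l 15333080) (l 15364288)) (l 15318784))) (c (c (l 15421120) (l 15431672)) (l 15383944))) (l 15313472))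 (c (a (c (l 15037536) (a (l 14751808) (l 15046736))) (c (c (l 15170896) (l 15136464)) (l 15084136))) (l 14998344)))) (b (a (a (c (l 15477856) (l 15448992)) (l 15709560)) (a (l 15981928) (l 16223896))) (a (a (c (l 15192784) (l 15151760)) (l 15430368)) (l 15717216)))), by decide +kernel⟩

def k6_pm_022_b : ∃ t, chk3 f_pm_022_b t 5 5 1 = true :=
  ⟨(b (b (b (a (l 14685200) (a (l 14590712) (l 14428904))) (a (l 15104056) (a (l 14856800) (l 14702056)))) (a (a (l 15639000) (l 15571472)) (a (l 15383328) (l 15251984)))) (b (a (a (l 16236736) (l 16081312)) (a (l 15932248) (l 15836512))) (a (l 16109680) (a (l 16272432) (l 16201016))))), by decide +kernel⟩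

def k7_pm_022_b : ∃ t, chk3 f_pm_022_b t 3 2 1 = true :=
  ⟨(b (b (a (c (b (a (l 13905872) (l 14016712)) (c (l 14209352) (b (l 14108688) (a (l 14173448) (l 14278888))))) (b (c (a (b (l 13776544) (l 13890824)) (l 13947480)) (a (b (c (l 13739472) (l 13710744)) (l 13842584)) (b (l 13840560) (l 13956728)))) (a (c (l 14056024) (l 14007600)) (l 14146800)))) (c (b (l 14234552) (a (c (l 14389136) (l 14344104)) (l 14519592))) (b (a (c (l 14085328) (l 14035384)) (l 14079480)) (a (l 14281768) (l 14441904))))) (a (b (c (a (b (c (l 14333616) (l 14262448)) (l 14356800)) (b (l 14403032) (l 14452408))) (a (l 14219824) (l 14326464))) (a (l 14304368) (l 14374440))) (b (c (a (b (l 14527784) (l 14567624)) (l 14687784)) (l 14533528)) (a (l 14458640) (l 2))))) (b (a (b (b (a (l 14428752) (l 14451872)) (a (l 14697472) (l 14712112))) (a (l 15263192) (l 15300208))) (b (b (a (l 14479560) (l 2)) (l 2)) (l 2))) (a (b (a (l 15876144) (l 15954256)) (l 16084608)) (l 2)))), by decide +kernel⟩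

def k8_pm_022_b : ∃ t, chk3 f_pm_022_b t 1 3 1 = true :=
  ⟨(a (b (a (a (b (a (c (a (l 14450888) (b (l 14682608) (l 14453240))) (a (c (l 14232048) (c (a (l 14341160) (l 14167928)) (b (l 14282192) (l 14215056)))) (c (c (a (l 14508352) (l 14577552)) (l 14262920)) (l 14481472)))) (c (a (c (b (l 14826992) (l 14612040)) (b (c (l 14820920) (l 14789624)) (l 14559736))) (c (b (l 14950200) (l 14747216)) (l 14775984))) (l 14671744))) (a (c (b (c (l 14207952) (l 14047648)) (l 14169840)) (a (c (l 13963352) (b (a (l 13869424) (l 14032288)) (l 13981696))) (c (b (c (l 14209248) (l 14190200)) (l 14165704)) (l 14139680)))) (c (c (a (l 14187624) (b (l 14575024) (l 14555336))) (a (b (l 14392920) (l 14371352)) (l 14485880))) (l 14361960)))) (b (a (c (a (l 14904592) (l 15179000)) (l 14884880)) (b (l 15675328) (l 15508408))) (a (c (a (l 14635992) (l 14928448)) (l 14717352)) (b (l 15369648) (l 15354008))))) (b (a (a (l 15890064) (l 16321808)) (a (l 16548496) (l 16492320))) (a (b (l 15949392) (l 15979656)) (a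 (l 16500600) (l 2))))) (b (a (a (a (l 4) (c (c (a (l 14407656) (l 14555336)) (l 14422488)) (l 14350976))) (a (c (l 14728656) (l 14707832)) (l 15312064))) (a (l 15832856) (l 2))) (a (l 4) (l 2)))) (b (a (b (a (l 16515048) (l 2)) (l 2)) (l 2)) (l 2))), by decide +kernel⟩

theorem s9_pm_022_b : ∃ t, chk3 f_pm_022_b t 4 10 1 = true := ex3_a k3_pm_022_b k4_pm_022_b

theorem s10_pm_022_b : ∃ t, chk3 f_pm_022_b t 4 5 1 = true := ex3_b s9_pm_022_b k5_pm_022_b

theorem s11_pm_022_b : ∃ t, chk3 f_pm_022_b t 2 5 1 = true := ex3_a s10_pm_022_b k6_pm_022_b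

theorem s12_pm_022_b : ∃ t, chk3 f_pm_022_b t 4 4 1 = true := ex3_b k0_pm_022_b k1_pm_022_b

theorem s13_pm_022_b : ∃ t, chk3 f_pm_022_b t 2 4 1 = true := ex3_a s12_pm_022_b k2_pm_022_b

theorem s14_pm_022_b : ∃ t, chk3 f_pm_022_b t 2 2 1 = true := ex3_b s13_pm_022_b s11_pm_022_b

theorem s15_pm_022_b : ∃ t, chk3 f_pm_022_b t 1 2 1 = true := ex3_a s14_pm_022_b k7_pm_022_b

theorem s16_pm_022_b : ∃ t, chk3 f_pm_022_b t 1 1 1 = true := ex3_b s15_pm_022_b k8_pm_022_b

theorem c_pm_022_b : CertNX 0 536870912 1239849684 370763052 1046898278 26843546 3 false true false .pp 0 2 2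
    ndN0q0 ndN2q2b pcN2 Cut.none Ext.none :=
  certNX1 (fam := false) (s1 := true) (s2 := false) (a := 0) (b := 2) (c := 2) (cn := .pp) (n1 := ndN0q0) (n2 := ndN2q2b) (pc := pcN2) (cut := Cut.none) (xt := Ext.none) (P1 := 0) (W1 := 536870912) (P2 := 1239849684) (W2 := 370763052) (P3 := 1046898278) (W3 := 26843546) (N0 := 3)
    rfl (fun _ => rfl) s16_pm_022_b

noncomputable def f_pm_023 : ℕ → ℕ → ℕ → ℕ → Bool := onCell 0 536870912 1073741824 536870912 1046898278 26843546
    (rowNX 3 1 false true false .up 0 2 3 (qsf 0 536870912 1610612736 469762048 2) ndN0q0 ndN2q3 pcN2 Cut.none Ext.none)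

def k0_pm_023 : ∃ t, chk3 f_pm_023 t 1 1 1 = true :=
  ⟨(b (b (a (l 1) (b (a (l 1) (c (b (l 14234552) (a (l 273832389863) (l 14519592))) (b (a (l 1) (l 14121424)) (a (l 14281768) (l 14441904))))) (a (b (l 1) (a (l 1) (l 14374440))) (b (c (a (l 183638437927) (l 14687784)) (l 14533528)) (a (l 14458640) (l 14557976)))))) (a (a (l 1) (b (l 1) (b (l 1) (a (l 1) (l 523481603063))))) (b (a (a (b (l 1) (l 15263192)) (b (a (l 368858968759) (l 252894872487)) (l 15300208))) (b (b (a (l 14479560) (l 14512176)) (l 14551440)) (a (l 15344360) (l 15396224)))) (a (b (a (l 15876144) (l 15954256)) (l 16084608)) (b (a (l 16047168) (l 16156136)) (l 16503760)))))) (a (b (a (a (l 1) (b (l 1) (a (l 1) (l 364565569671)))) (b (a (l 613675271223) (a (l 16548496) (l 16492320))) (a (b (l 15949392) (l 15979656)) (a (l 16500600) (l 16756864))))) (b (a (a (b (l 1) (l 4)) (a (c (l 14728656) (l 14707832)) (l 15312064))) (a (l 15853824) (l 16627952))) (a (l 4) (a (l 15979656) (l 16627952))))) (b (a (b (a (l 16515048) (l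 16559072)) (c (l 16769128) (l 16768848))) (b (a (l 16611160) (l 16672176)) (l 16772816))) (a (c (l 16777072) (l 16777072)) (b (a (l 16777016) (l 16749152)) (a (l 16749152) (l 16727976))))))), by decide +kernel⟩

theorem c_pm_023 : CertNX 0 536870912 1610612736 469762048 1046898278 26843546 3 false true false .up 0 2 3
    ndN0q0 ndN2q3 pcN2 Cut.none Ext.none :=
  certNX1 (fam := false) (s1 := true) (s2 := false) (a := 0) (b := 2) (c := 3) (cn := .up) (n1 := ndN0q0) (n2 := ndN2q3) (pc := pcN2) (cut := Cut.none) (xt := Ext.none) (P1 := 0) (W1 := 536870912) (P2 := 1610612736) (W2 := 469762048) (P3 := 1046898278) (W3 := 26843546) (N0 := 3)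
    rfl (fun _ => rfl) k0_pm_023

noncomputable def f_pm_033 : ℕ → ℕ → ℕ → ℕ → Bool := onCell 1610612736 536870912 1610612736 469762048 1046898278 26843546
    (rowNX 3 2 false true false .pnn 0 3 3 (qsf 0 536870912 1610612736 469762048 3) ndN0q0 ndN2q3 pcN3 Cut.none Ext.none)

def k0_pm_033 : ∃ t, chk3 f_pm_033 t 1 1 1 = true :=
  ⟨(a (b (a (l 4) (l 4)) (a (b (a (b (a (l 16670288) (l 4)) (l 16761328)) (l 4)) (a (b (l 16776896) (l 16745904)) (c (l 16735136) (l 65732541575)))) (b (l 4) (a (l 4) (l 4))))) (l 4)), by decide +kernel⟩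

theorem c_pm_033 : CertNX 0 536870912 1610612736 469762048 1046898278 26843546 3 false true false .pnn 0 3 3
    ndN0q0 ndN2q3 pcN3 Cut.none Ext.none :=
  certNX2 (fam := false) (s1 := true) (s2 := false) (a := 0) (b := 3) (c := 3) (cn := .pnn) (n1 := ndN0q0) (n2 := ndN2q3) (pc := pcN3) (cut := Cut.none) (xt := Ext.none) (P1 := 0) (W1 := 536870912) (P2 := 1610612736) (W2 := 469762048) (P3 := 1046898278) (W3 := 26843546) (N0 := 3)
    rfl (fun _ => rfl) k0_pm_033

noncomputable def f_pm_101 : ℕ → ℕ → ℕ → ℕ → Bool := onCell 0 536870912 536870912 536870912 1046898278 26843546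
    (rowNX 3 2 false true false .npn 1 0 1 (qsf 536870912 536870912 536870912 536870912 0) ndN0q1 ndN2q1 pcN0 Cut.none Ext.none)

def k0_pm_101 : ∃ t, chk3 f_pm_101 t 1 2 1 = true :=
  ⟨(l 4), by decide +kernel⟩

def k1_pm_101 : ∃ t, chk3 f_pm_101 t 1 6 1 = true :=
  ⟨(l 4), by decide +kernel⟩

def k2_pm_101 : ∃ t, chk3 f_pm_101 t 4 14 1 = true :=
  ⟨(b (l 4) (b (l 4) (a (a (a (c (a (l 14986088) (a (l 15050840) (l 14972632))) (a (c (a (l 14919968) (l 14964560)) (a (c (l 14895768) (l 14880816)) (l 14937920))) (c (l 15037472) (l 15011736)))) (l 4)) (l 4)) (l 4)))), by decide +kernel⟩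

def k3_pm_101 : ∃ t, chk3 f_pm_101 t 4 15 1 = true :=
  ⟨(b (a (a (a (c (c (a (l 14521112) (a (l 14557952) (l 14625376))) (a (l 14452480) (a (l 14525528) (l 14596960)))) (a (c (a (l 14392928) (a (l 14419440) (l 14438744))) (a (c (l 14361264) (a (l 14182944) (l 14232712))) (l 14362296))) (c (l 14407440) (l 14503184)))) (c (a (c (l 14580744) (l 14676344)) (l 14789768)) (c (l 14692776) (l 14662224)))) (c (a (c (l 14939048) (l 14913584)) (c (l 15113936) (l 15095176))) (a (l 14875072) (l 15066392)))) (l 4)) (a (a (a (c (a (b (c (l 13910872) (a (l 14037520) (l 14039928))) (c (l 13939896) (b (a (l 13913200) (l 13910104)) (l 13843976)))) (b (c (a (l 14033720) (l 14178352)) (a (l 14077840) (l 14104872))) (c (a (b (l 13989616) (l 13905984)) (b (l 14002272) (l 13928472))) (a (b (l 13947720) (l 13861544)) (b (l 13967224) (l 13878872)))))) (a (b (c (a (l 13982880) (l 13979696)) (a (c (l 13945064) (l 13687816)) (l 13891224))) (c (a (b (l 13851024) (l 13787064)) (b (l 13871576) (c (l 13807496) (l 13778376))))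 (a (c (a (l 13779832) (l 13781864)) (c (l 244907201287) (l 13750928))) (c (l 13792688) (l 13775968))))) (c (b (l 14048608) (a (b (l 13895000) (l 13806376)) (l 13867504))) (l 13941504)))) (c (a (b (c (l 14249384) (l 14179056)) (c (b (l 14043680) (a (l 13948920) (l 13961528))) (a (l 13937464) (l 13958368)))) (b (l 14314624) (c (l 14019976) (l 14011672)))) (b (l 14174760) (a (l 13861024) (l 13909976))))) (c (a (a (b (l 14430992) (l 14052208)) (l 14363192)) (c (l 14314312) (l 14490528))) (a (l 14027720) (l 14440320)))) (a (a (c (l 14691656) (l 14637624)) (l 14845712)) (a (l 14956344) (l 4))))), by decide +kernel⟩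

def k4_pm_101 : ∃ t, chk3 f_pm_101 t 5 7 1 = true :=
  ⟨(l 4), by decide +kernel⟩

def k5_pm_101 : ∃ t, chk3 f_pm_101 t 3 7 1 = true :=
  ⟨(l 4), by decide +kernel⟩

theorem s6_pm_101 : ∃ t, chk3 f_pm_101 t 4 7 1 = true := ex3_b k2_pm_101 k3_pm_101

theorem s7_pm_101 : ∃ t, chk3 f_pm_101 t 2 7 1 = true := ex3_a s6_pm_101 k4_pm_101

theorem s8_pm_101 : ∃ t, chk3 f_pm_101 t 1 7 1 = true := ex3_a s7_pm_101 k5_pm_101

theorem s9_pm_101 : ∃ t, chk3 f_pm_101 t 1 3 1 = true := ex3_b k1_pm_101 s8_pm_101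

theorem s10_pm_101 : ∃ t, chk3 f_pm_101 t 1 1 1 = true := ex3_b k0_pm_101 s9_pm_101

theorem c_pm_101 : CertNX 536870912 536870912 536870912 536870912 1046898278 26843546 3 false true false .npn 1 0 1
    ndN0q1 ndN2q1 pcN0 Cut.none Ext.none :=
  certNX2 (fam := false) (s1 := true) (s2 := false) (a := 1) (b := 0) (c := 1) (cn := .npn) (n1 := ndN0q1) (n2 := ndN2q1) (pc := pcN0) (cut := Cut.none) (xt := Ext.none) (P1 := 536870912) (W1 := 536870912) (P2 := 536870912) (W2 := 536870912) (P3 := 1046898278) (W3 := 26843546) (N0 := 3)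
    rfl (fun _ => rfl) s10_pm_101

noncomputable def f_pm_102_a : ℕ → ℕ → ℕ → ℕ → Bool := onCell 536870912 536870912 0 420477299 1046898278 26843546
    (rowNX 3 0 false true false .npp 1 0 2 (qsf 536870912 536870912 0 420477299 0) ndN0q1 ndN2q2a pcN0 Cut.none Ext.none)

def k0_pm_102_a : ∃ t, chk3 f_pm_102_a t 2 1 1 = true :=
  ⟨(b (a (l 2) (b (a (c (l 16406712) (l 16393704)) (c (l 16406712) (l 16393704))) (a (c (l 16363344) (l 16392232)) (b (l 16376848) (l 16419808))))) (b (a (a (l 2) (c (l 16558624) (l 16550952))) (a (c (l 16453768) (l 16509008)) (b (l 16496440) (l 16614008)))) (a (b (a (l 2) (c (l 16714568) (l 16712360))) (a (c (l 16271552) (l 16232768)) (c (l 16271552) (l 16253744)))) (b (a (b (l 16747840) (l 16620104)) (b (l 16747840) (l 16620104))) (a (c (l 16271552) (l 16253744)) (b (l 16394240) (l 16133224))))))), by decide +kernel⟩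

def k1_pm_102_a : ∃ t, chk3 f_pm_102_a t 6 2 1 = true :=
  ⟨(a (b (a (l 16400216) (a (b (c (l 16426720) (l 16414416)) (l 16381160)) (c (b (l 16426720) (l 16387984)) (b (l 16414416) (l 16374328))))) (b (a (l 16376848) (l 16376848)) (a (l 16419808) (l 16419808)))) (a (b (c (b (a (l 16426720) (l 16426720)) (a (l 16387984) (l 16387984))) (b (l 16414416) (a (l 16374328) (l 16374328)))) (b (a (l 16376848) (c (l 16383744) (l 16369936))) (l 16419808))) (b (a (c (b (l 16426720) (c (l 16391352) (l 16384616))) (b (l 16414416) (l 16374328))) (c (b (a (l 80160883959) (l 172502779847)) (a (c (l 16394480) (l 16387808)) (c (l 16432016) (l 16426144)))) (b (a (l 16417680) (l 210620449639)) (a (l 16377616) (l 16417176))))) (c (b (a (c (l 16387144) (l 16380344)) (a (l 16386968) (l 16425656))) (a (c (l 16429000) (l 16422928)) (a (c (l 16432288) (l 16426280)) (l 16469104)))) (b (a (l 16369936) (a (l 16373296) (l 16413624))) (a (c (l 16416768) (l 16410512)) (a (l 16417096) (l 16458600)))))))), by decide +kernel⟩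

def k2_pm_102_a : ∃ t, chk3 f_pm_102_a t 6 3 1 = true :=
  ⟨(b (a (a (l 16533816) (l 16428960)) (a (b (l 16496440) (l 16614008)) (a (l 16491872) (a (l 16432560) (b (c (l 16504112) (l 16496320)) (l 16661824)))))) (a (b (a (b (l 16747840) (l 16620104)) (b (l 16747840) (l 16620104))) (a (l 16136800) (b (l 16394240) (l 16133224)))) (b (a (b (l 16705896) (l 16620104)) (a (b (l 16726872) (l 16620104)) (c (b (l 16595152) (a (l 16563792) (b (l 16602408) (l 16579112)))) (b (l 16699680) (a (l 16622040) (b (l 16640008) (l 16574360))))))) (a (b (l 16394240) (a (l 16133224) (b (l 16203240) (b (l 16099792) (l 16027696))))) (a (b (a (l 16394240) (b (l 16454664) (c (l 16277960) (l 16325392)))) (a (b (a (l 16203240) (l 16161320)) (a (c (l 16034568) (l 16052000)) (l 16065168))) (b (c (l 16212952) (l 16192960)) (l 16065560)))) (b (a (b (a (l 16433384) (l 16461952)) (l 16335544)) (l 16360608)) (c (a (l 16084232) (l 16189720)) (l 16046424)))))))), by decide +kernel⟩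

def k3_pm_102_a : ∃ t, chk3 f_pm_102_a t 7 2 1 = true :=
  ⟨(a (b (b (l 3) (a (a (c (c (b (l 16515352) (l 104856898951)) (l 102709393767)) (a (l 16446768) (l 103246359191))) (l 3)) (l 3))) (a (b (a (c (c (a (l 16477456) (l 16527368)) (l 16498112)) (c (l 16493752) (l 16489320))) (c (c (a (l 86066624663) (l 105394077639)) (l 107541509879)) (a (l 72107966807) (l 104320327991)))) (a (c (c (l 16526576) (l 16544056)) (c (l 16540504) (l 16536888))) (a (c (c (l 16604544) (l 16623840)) (l 16558336)) (c (b (l 16615080) (a (l 16659976) (b (l 16656552) (l 16653904)))) (b (l 16639872) (c (l 16587104) (l 16607432))))))) (a (b (l 3) (b (a (a (b (l 3) (c (l 113447211847) (l 16634904))) (l 3)) (l 3)) (a (c (a (b (l 16642032) (l 16648120)) (b (l 16643800) (l 16651320))) (a (l 16622616) (l 16624664))) (c (b (l 3) (l 112910392327)) (l 104320420567))))) (l 3)))) (l 3)), by decide +kernel⟩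

def k4_pm_102_a : ∃ t, chk3 f_pm_102_a t 14 6 1 = true :=
  ⟨(a (b (a (c (b (l 16558880) (a (l 16623224) (l 16614552))) (b (l 16553744) (a (l 16618632) (l 16591520)))) (b (c (a (a (l 16667928) (l 16651464)) (a (b (l 16669600) (l 16663632)) (l 16653416))) (a (a (l 16665952) (l 16671712)) (b (l 16617960) (l 16654192)))) (a (c (b (l 16647624) (l 16672584)) (a (l 16653368) (l 16665968))) (c (b (l 16649928) (l 16644864)) (b (l 16647288) (l 16641872)))))) (a (a (l 16717944) (a (b (l 16724000) (l 16676216)) (b (c (l 16604592) (l 16623680)) (l 16632304)))) (b (a (c (a (b (l 16664736) (l 16644152)) (b (l 16640264) (l 16633784))) (b (l 16640088) (a (l 16640488) (l 16629832)))) (c (l 16648176) (l 16645096))) (a (l 16645632) (c (c (l 16644400) (l 16643040)) (b (l 16657424) (l 16667832))))))) (b (b (a (c (a (a (l 16629512) (l 16656872)) (c (l 128479647607) (l 16648688))) (a (a (l 16648280) (l 16655080)) (c (l 16648208) (l 16668688)))) (a (a (c (l 113984112791) (l 16646056)) (l 3)) (l 3))) (a (c (a (l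 16660824) (c (l 16673848) (l 16673328))) (a (l 16658856) (l 16651536))) (c (a (c (l 127942715879) (l 16616632)) (l 120426482135)) (a (l 98951678311) (l 108615315607))))) (a (c (b (a (l 16674656) (l 16679264)) (a (l 16689864) (l 16684328))) (b (a (l 16672944) (l 16678088)) (a (l 16688408) (l 16683000)))) (c (b (a (l 16609496) (c (l 120963337735) (l 16586560))) (a (l 16624776) (c (l 16611344) (l 16609480)))) (b (a (l 16617496) (c (l 16605768) (l 16603960))) (a (l 16643112) (l 16585640))))))), by decide +kernel⟩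

def k5_pm_102_a : ∃ t, chk3 f_pm_102_a t 28 7 1 = true :=
  ⟨(b (b (a (b (a (c (l 16689752) (l 16686992)) (l 16651144)) (a (c (l 16629416) (l 16645912)) (l 16625848))) (b (c (l 16637256) (l 16654808)) (c (l 16630672) (l 16625888)))) (a (c (l 16498280) (l 16553616)) (c (a (l 16545712) (l 16556160)) (l 16498336)))) (b (a (c (a (l 16427984) (l 16400800)) (l 16381376)) (c (a (l 16387408) (l 16370248)) (l 16247632))) (a (c (b (l 16255480) (l 16103480)) (l 15969336)) (b (c (l 16175016) (l 16199448)) (c (a (l 16081624) (l 16072896)) (l 16054056)))))), by decide +kernel⟩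

def k6_pm_102_a : ∃ t, chk3 f_pm_102_a t 29 7 1 = true :=
  ⟨(b (a (b (c (b (a (c (l 16702864) (l 16702248)) (l 16687960)) (a (l 16646480) (c (l 16652528) (l 16694080)))) (b (a (l 16701312) (l 16686496)) (a (l 16675384) (l 16651560)))) (a (c (l 16544576) (l 16579944)) (b (a (l 16656104) (c (b (l 16702992) (l 16676744)) (l 16687120))) (l 16516096)))) (b (c (b (a (l 16628184) (c (l 16614704) (l 16612776))) (a (l 16658048) (l 16601608))) (b (c (l 16586704) (l 16605960)) (c (l 16617232) (l 16615976)))) (a (b (c (a (l 16687912) (l 16718016)) (l 16648752)) (a (a (l 16647312) (c (l 16628504) (l 16667376))) (c (b (l 16700336) (l 16637160)) (l 16621840)))) (c (c (l 16623800) (l 16634056)) (c (l 16654768) (l 16675456)))))) (a (b (a (c (l 16331600) (l 16402640)) (c (b (l 16515312) (l 16408152)) (l 16368712))) (a (b (c (l 16235792) (l 16217560)) (c (l 16043168) (l 16062784))) (b (c (a (l 16265168) (l 16292984)) (l 16260832)) (c (a (l 16111704) (l 16137784)) (l 16102464))))) (b (a (b (a (l 16546208)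 (c (b (l 16643960) (l 16592168)) (l 16569648))) (c (a (l 16461384) (l 16502744)) (l 16427976))) (b (c (a (b (a (l 16673800) (l 16682568)) (a (l 16630792) (l 16650480))) (b (l 16681160) (l 16652088))) (a (b (l 16651456) (l 16573568)) (l 16639888))) (a (l 16520176) (c (b (a (l 16611720) (l 16618736)) (l 16536160)) (b (a (l 16606136) (l 16613488)) (l 16549408)))))) (b (a (c (l 16301168) (l 16327696)) (c (l 16422288) (l 16409552))) (c (a (l 16184648) (l 16239936)) (a (l 16164216) (l 16242664))))))), by decide +kernel⟩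

def k7_pm_102_a : ∃ t, chk3 f_pm_102_a t 15 6 1 = true :=
  ⟨(a (a (b (l 3) (a (c (b (l 184314110759) (c (a (l 16599400) (l 16606720)) (l 16580608))) (b (l 193977780551) (c (l 16599704) (l 16597792)))) (l 3))) (l 3)) (l 3)), by decide +kernel⟩

def k8_pm_102_a : ∃ t, chk3 f_pm_102_a t 15 14 1 = true :=
  ⟨(a (a (a (b (c (b (c (b (l 16604096) (l 16606000)) (l 16603128)) (c (l 16614032) (l 16633512))) (b (c (l 16601144) (l 16599120)) (l 16610248))) (c (b (a (l 16658936) (l 16646904)) (c (l 16619632) (l 16639672))) (c (c (l 16616016) (l 16615776)) (l 16615416)))) (b (b (a (c (c (l 155323105031) (l 16593640)) (l 162302417223)) (l 3)) (c (c (a (l 16625368) (l 153712541431)) (l 149954411207)) (c (l 16607464) (l 16606456)))) (c (b (c (a (l 16663424) (l 16620240)) (b (l 16639128) (l 16641856))) (c (a (l 16644192) (l 16622512)) (l 16568216))) (c (b (l 16629360) (l 16608472)) (a (l 16620088) (l 16576040)))))) (a (b (l 3) (b (a (c (c (l 151028156455) (l 157470604423)) (l 161228695927)) (l 3)) (c (a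 (c (b (l 16593176) (l 16593328)) (l 85529816983)) (c (l 146196198263) (l 153712386375))) (c (a (l 16599456) (l 16556616)) (l 145659291783))))) (l 3))) (l 3)), by decide +kernel⟩

def k9_pm_102_a : ∃ t, chk3 f_pm_102_a t 15 30 1 = true :=
  ⟨(a (a (c (a (b (c (l 16613144) (l 16611080)) (a (b (l 16604496) (a (l 16530768) (l 16563416))) (l 16538328))) (b (c (a (l 16595016) (l 16573432)) (l 16538904)) (c (a (l 16535616) (l 16514056)) (l 16478184)))) (a (a (b (l 16644296) (c (l 16533496) (l 16551136))) (b (l 16614592) (l 16552088))) (c (b (l 16578032) (l 16515992)) (b (l 16575176) (l 16511816))))) (a (a (c (b (c (l 16514056) (l 16552880)) (c (l 16496896) (l 16492480))) (c (b (l 16549712) (l 16488008)) (l 16474152))) (c (b (c (b (l 132774386519) (a (l 16532400) (l 16526048))) (b (l 141901185191) (l 16525296))) (b (c (l 16500448) (l 16496280)) (c (a (l 16470952) (b (l 16475280) (l 16462208))) (a (l 16466104) (l 16464624))))) (b (c (l 63517965767) (l 16530392)) (c (b (l 16492040) (l 16460792)) (l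 16430704))))) (a (a (c (b (c (l 140290531815) (l 149954199431)) (b (c (a (l 16495168) (b (l 16503008) (l 16494304))) (a (l 16490984) (l 138679865239))) (c (a (l 16472536) (l 16483552)) (a (l 16467832) (l 16479088))))) (b (c (l 16522016) (l 16518472)) (b (c (a (l 16486728) (l 16490624)) (l 16484400)) (c (l 16468712) (l 16463984))))) (b (l 3) (b (l 3) (c (c (a (l 16501104) (l 16516736)) (l 133848029671)) (c (l 16500256) (l 16496144)))))) (l 3)))) (l 3)), by decide +kernel⟩

def k10_pm_102_a : ∃ t, chk3 f_pm_102_a t 15 62 1 = true :=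
  ⟨(a (a (a (a (a (l 16466808) (b (c (c (l 16520352) (l 16515832)) (l 16508952)) (l 16439688))) (c (b (c (l 16506048) (l 16501328)) (a (b (l 16476608) (l 16439200)) (c (l 16458416) (l 16452784)))) (b (l 16494152) (a (l 16447456) (l 16444208))))) (c (c (a (l 16464456) (l 16442824)) (a (l 16459032) (l 16437112))) (c (l 16441776) (l 16436072)))) (b (a (c (a (c (l 16445352) (l 16439848)) (c (a (l 16440344) (l 16445048)) (a (l 16434840) (l 16439688)))) (a (c (l 16434272) (l 16428624)) (c (l 16431544) (l 16425960)))) (a (c (a (c (l 16457752) (l 16452696)) (c (l 107541319463) (l 16489072))) (c (a (l 16447568) (l 16484664)) (l 16418712))) (a (c (c (a (l 16522592) (l 16538304)) (l 132774326151)) (c (l 16522384) (l 16518640))) (l 3)))) (a (c (a (c (a (l 16411216) (l 16408480)) (a (l 16404968) (l 16402232))) (c (l 16413856) (l 16407800))) (a (c (l 16397296) (l 16390904)) (c (l 16401672) (l 16395464)))) (c (a (a (c (l 16431328) (l 16425696)) (c (l 16468304) (l 16463400))) (a (c (b (l 16519136) (l 16506424))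 (b (l 16515248) (l 16502256))) (c (c (a (a (l 16540976) (c (l 136532486359) (l 16549056))) (l 3)) (l 124721307559)) (l 132237494727)))) (a (c (a (l 16419984) (l 16458432)) (l 16433192)) (a (c (l 16504512) (l 16500360)) (c (l 142974905495) (l 16540728)))))))) (l 3)), by decide +kernel⟩

def k11_pm_102_a : ∃ t, chk3 f_pm_102_a t 30 63 1 = true :=
  ⟨(a (b (a (a (l 16350488) (a (l 16370232) (c (l 16393456) (l 16379736)))) (c (a (a (b (l 16413144) (c (l 16388520) (l 16381584))) (l 16391552)) (c (a (l 16385760) (l 16377464)) (l 16374560))) (a (a (c (l 16387184) (l 16380360)) (l 16377880)) (c (l 16367544) (l 16360448))))) (a (c (l 16284352) (l 16266728)) (a (a (l 16313144) (c (b (c (l 16356736) (l 16349240)) (a (l 16311904) (l 16321592))) (b (l 16337824) (l 16301376)))) (c (a (b (l 16348048) (l 16320112)) (l 16328872)) (a (c (l 16319464) (l 16311440)) (l 16312960)))))) (a (c (a (c (b (l 16372312) (l 16328696)) (b (l 16365296) (l 16320816))) (c (b (l 16379120) (l 16336680)) (b (l 16372344) (l 16329048))))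 (a (c (l 16315384) (l 16328752)) (c (b (l 16365488) (l 16321328)) (b (l 16358544) (l 16313512))))) (c (a (c (b (a (l 16397912) (l 16435968)) (a (a (l 16350304) (l 16363592)) (b (l 16407144) (l 16388496)))) (b (a (l 16391568) (l 16430376)) (a (l 16349656) (l 16392056)))) (a (c (b (l 16461824) (l 16449656)) (b (l 16478120) (l 16444272))) (c (c (c (b (a (l 16502464) (c (a (l 16505072) (l 16564112)) (a (l 16541696) (l 16532568)))) (a (l 16492536) (c (l 16527504) (l 16519264)))) (b (l 105930763351) (l 16504336))) (b (a (l 16520392) (l 16544632)) (l 16502720))) (b (b (l 16494320) (l 16523104)) (l 16499456))))) (a (b (c (a (l 16385144) (l 16424712)) (l 16377216)) (a (c (l 16342392) (l 16335032)) (c (l 16385608) (l 16379064)))) (b (a (c (l 16473376) (l 16468560)) (c (a (l 16513456) (l 16538528)) (l 16521456))) (c (l 16404032) (l 16461952))))))), by decide +kernel⟩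

def k12_pm_102_a : ∃ t, chk3 f_pm_102_a t 31 63 1 = true :=
  ⟨(a (a (a (a (b (a (c (c (c (b (l 3) (c (a (l 16529504) (l 16586648)) (l 16563160))) (l 16563872)) (l 16561560)) (c (l 16558432) (l 16555256))) (l 3)) (c (c (c (c (a (a (l 16529768) (l 16570384)) (l 16576928)) (a (l 16544928) (c (b (l 121500136007) (l 16528216)) (l 115057663527)))) (l 106467678727)) (a (l 16540688) (l 16542952))) (c (a (l 16537088) (l 16560776)) (l 16523456)))) (a (c (c (c (c (l 132237627623) (b (l 3) (c (l 16605048) (l 124184509847)))) (l 129016354327)) (l 137069423463)) (c (l 147806835671) (l 16579912))) (l 3))) (l 3)) (l 3)) (l 3)), by decide +kernel⟩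

theorem s13_pm_102_a : ∃ t, chk3 f_pm_102_a t 15 63 1 = true := ex3_a k11_pm_102_a k12_pm_102_a

theorem s14_pm_102_a : ∃ t, chk3 f_pm_102_a t 15 31 1 = true := ex3_b k10_pm_102_a s13_pm_102_a

theorem s15_pm_102_a : ∃ t, chk3 f_pm_102_a t 15 15 1 = true := ex3_b k9_pm_102_a s14_pm_102_a

theorem s16_pm_102_a : ∃ t, chk3 f_pm_102_a t 15 7 1 = true := ex3_b k8_pm_102_a s15_pm_102_a

theorem s17_pm_102_a : ∃ t, chk3 f_pm_102_a t 15 3 1 = true := ex3_b k7_pm_102_a s16_pm_102_a

theorem s18_pm_102_a : ∃ t, chk3 f_pm_102_a t 14 7 1 = true := ex3_a k5_pm_102_a k6_pm_102_a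

theorem s19_pm_102_a : ∃ t, chk3 f_pm_102_a t 14 3 1 = true := ex3_b k4_pm_102_a s18_pm_102_a

theorem s20_pm_102_a : ∃ t, chk3 f_pm_102_a t 7 3 1 = true := ex3_a s19_pm_102_a s17_pm_102_a

theorem s21_pm_102_a : ∃ t, chk3 f_pm_102_a t 7 1 1 = true := ex3_b k3_pm_102_a s20_pm_102_a

theorem s22_pm_102_a : ∃ t, chk3 f_pm_102_a t 6 1 1 = true := ex3_b k1_pm_102_a k2_pm_102_a

theorem s23_pm_102_a : ∃ t, chk3 f_pm_102_a t 3 1 1 = true := ex3_a s22_pm_102_a s21_pm_102_a

theorem s24_pm_102_a : ∃ t, chk3 f_pm_102_a t 1 1 1 = true := ex3_a k0_pm_102_a s23_pm_102_a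

theorem c_pm_102_a : CertNX 536870912 536870912 0 420477299 1046898278 26843546 3 false true false .npp 1 0 2
    ndN0q1 ndN2q2a pcN0 Cut.none Ext.none :=
  certNX0 (fam := false) (s1 := true) (s2 := false) (a := 1) (b := 0) (c := 2) (cn := .npp) (n1 := ndN0q1) (n2 := ndN2q2a) (pc := pcN0) (cut := Cut.none) (xt := Ext.none) (P1 := 536870912) (W1 := 536870912) (P2 := 0) (W2 := 420477299) (P3 := 1046898278) (W3 := 26843546) (N0 := 3)
    rfl s24_pm_102_a

noncomputable def f_pm_102_b : ℕ → ℕ → ℕ → ℕ → Bool := onCell 536870912 536870912 1239849684 370763052 1046898278 26843546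
    (rowNX 3 0 false true false .npp 1 0 2 (qsf 536870912 536870912 1239849684 370763052 0) ndN0q1 ndN2q2b pcN0 Cut.none Ext.none)

def k0_pm_102_b : ∃ t, chk3 f_pm_102_b t 2 1 1 = true :=
  ⟨(a (l 2) (b (b (a (b (c (l 16559056) (l 16551400)) (l 2)) (b (c (l 16559056) (l 16551400)) (l 16750264))) (a (l 2) (l 16777216))) (l 2))), by decide +kernel⟩

def k1_pm_102_b : ∃ t, chk3 f_pm_102_b t 3 1 1 = true :=
  ⟨(a (b (b (a (a (b (l 16513288) (l 16750264)) (b (c (c (b (l 16503208) (l 16616928)) (b (l 16498432) (l 16614128))) (c (b (l 16493584) (l 16611296)) (l 16465568))) (c (b (c (l 16723808) (l 16722872)) (l 16777184)) (b (l 16700480) (l 16777184))))) (a (c (b (c (b (l 16503208) (l 16616928)) (b (l 16498432) (l 16614128))) (b (c (l 16723808) (l 16722872)) (l 16777184))) (b (c (b (l 16493584) (l 16611296)) (b (l 16488656) (l 16608408))) (b (l 16700480) (l 16777184)))) (b (a (c (b (c (l 16503208) (l 16498432)) (l 16615528)) (b (l 16491120) (l 16609856))) (b (l 3) (c (l 635822445335) (l 489256676727))))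 (c (a (b (l 16723344) (l 16777184)) (b (l 16635928) (l 16679928))) (a (b (l 16721448) (l 16777184)) (b (l 16655904) (l 16678720))))))) (a (a (l 16777216) (a (b (c (l 16777216) (l 16777216)) (l 16777216)) (c (b (l 16777216) (l 16777216)) (b (l 16777216) (l 16777216))))) (a (c (c (l 16777216) (b (l 16777216) (l 16777216))) (b (c (l 16777216) (l 16777216)) (l 16777216))) (c (b (a (l 16777216) (l 16679912)) (a (l 16777216) (l 16721856))) (b (a (l 16777216) (l 16668216)) (a (l 16777216) (l 16741616))))))) (a (l 2) (b (b (a (c (l 16777216) (l 16777216)) (c (a (l 16777216) (l 16742824)) (a (l 16777216) (l 16741616)))) (a (l 2) (c (a (l 2) (l 16742824)) (l 16738280)))) (l 2)))) (a (a (b (a (b (l 3) (a (c (l 438790951911) (l 674477273191)) (l 3))) (l 3)) (b (c (a (b (l 16601104) (l 16601104)) (l 447917286519)) (b (l 185387382103) (l 164986287447))) (l 2))) (b (l 3) (b (l 3) (b (l 3) (l 2))))) (l 3))), by decide +kernel⟩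

theorem s2_pm_102_b : ∃ t, chk3 f_pm_102_b t 1 1 1 = true := ex3_a k0_pm_102_b k1_pm_102_b

theorem c_pm_102_b : CertNX 536870912 536870912 1239849684 370763052 1046898278 26843546 3 false true false .npp 1 0 2
    ndN0q1 ndN2q2b pcN0 Cut.none Ext.none :=
  certNX0 (fam := false) (s1 := true) (s2 := false) (a := 1) (b := 0) (c := 2) (cn := .npp) (n1 := ndN0q1) (n2 := ndN2q2b) (pc := pcN0) (cut := Cut.none) (xt := Ext.none) (P1 := 536870912) (W1 := 536870912) (P2 := 1239849684) (W2 := 370763052) (P3 := 1046898278) (W3 := 26843546) (N0 := 3)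
    rfl s2_pm_102_b

noncomputable def f_pm_112_a : ℕ → ℕ → ℕ → ℕ → Bool := onCell 536870912 536870912 0 420477299 1046898278 26843546
    (rowNX 3 0 false true false .dn 1 1 2 (qsf 536870912 536870912 0 420477299 1) ndN0q1 ndN2q2a pcN1 Cut.none Ext.none)

def k0_pm_112_a : ∃ t, chk3 f_pm_112_a t 1 1 1 = true :=
  ⟨(a (a (b (b (a (c (l 16406712) (l 16393704)) (c (l 16406712) (l 16393704))) (a (c (l 16405288) (l 16392232)) (a (c (l 16405288) (l 16392232)) (l 16398760)))) (b (a (c (l 16558624) (l 16550952)) (c (l 16558624) (l 16550952))) (b (a (c (l 16714568) (l 16712360)) (c (l 16714568) (l 16712360))) (a (c (l 16271552) (l 16253744)) (c (l 16271552) (l 16253744)))))) (a (b (a (b (l 16400216) (l 16398760)) (b (l 1) (l 1))) (b (b (l 16496440) (l 1)) (l 1))) (l 1))) (l 1)), by decide +kernel⟩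

theorem c_pm_112_a : CertNX 536870912 536870912 0 420477299 1046898278 26843546 3 false true false .dn 1 1 2
    ndN0q1 ndN2q2a pcN1 Cut.none Ext.none :=
  certNX0 (fam := false) (s1 := true) (s2 := false) (a := 1) (b := 1) (c := 2) (cn := .dn) (n1 := ndN0q1) (n2 := ndN2q2a) (pc := pcN1) (cut := Cut.none) (xt := Ext.none) (P1 := 536870912) (W1 := 536870912) (P2 := 0) (W2 := 420477299) (P3 := 1046898278) (W3 := 26843546) (N0 := 3)
    rfl k0_pm_112_a

noncomputable def f_pm_112_b : ℕ → ℕ → ℕ → ℕ → Bool := onCell 536870912 536870912 536870912 536870912 1046898278 26843546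
    (rowNX 3 1 false true false .dn 1 1 2 (qsf 536870912 536870912 1239849684 370763052 1) ndN0q1 ndN2q2b pcN1 Cut.none Ext.none)

def k0_pm_112_b : ∃ t, chk3 f_pm_112_b t 1 2 1 = true :=
  ⟨(a (a (b (a (b (l 1) (a (b (l 1) (a (l 1) (l 16438280))) (b (a (l 1) (l 16459256)) (c (l 233034737639) (l 16477632))))) (b (a (b (l 1) (a (l 1) (l 16522168))) (b (a (l 1) (l 16522168)) (a (l 16457976) (l 16499064)))) (a (b (c (l 212096772071) (l 16477632)) (l 16531112)) (b (l 16573056) (l 16737064))))) (a (b (a (b (c (l 242698414055) (l 16456664)) (l 16531112)) (b (l 16531112) (l 16737064))) (c (l 16737544) (l 16757864))) (b (c (l 16695608) (l 16757864)) (l 16777216)))) (b (b (a (a (b (a (l 16437008) (l 16499064)) (l 16573056)) (b (l 16573056) (l 16737064))) (a (l 16751144) (l 16777176))) (a (c (l 16758520) (l 16757864)) (l 16777216))) (a (l 16777216) (l 16777216)))) (a (a (b (a (l 16777216) (b (c (a (l 16777216) (l 16777216)) (l 16777216)) (c (l 16777216) (l 16777216)))) (b (l 16777216) (l 16777216)))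 (b (b (c (a (l 16777216) (l 16675976)) (a (l 16777216) (l 16759256))) (c (b (l 16768376) (l 16768376)) (b (l 16768064) (l 16768064)))) (b (c (a (l 16777216) (l 16759864)) (l 16663208)) (a (l 16777216) (l 2))))) (a (b (a (b (c (l 94656221063) (l 16473072)) (c (l 16481992) (l 16494048))) (b (l 3) (c (l 375439042711) (l 16144968)))) (b (a (l 480599288983) (l 2)) (l 2))) (b (l 3) (l 2))))), by decide +kernel⟩

def k1_pm_112_b : ∃ t, chk3 f_pm_112_b t 1 3 1 = true :=
  ⟨(a (b (a (a (b (b (l 16777112) (l 16705264)) (b (l 16563224) (b (l 16449448) (l 16321704)))) (b (l 16682144) (b (l 16582736) (l 16356912)))) (b (a (l 16748480) (l 16752448)) (b (l 16615040) (b (l 16528432) (l 16416520))))) (a (b (a (b (l 16037232) (l 15643728)) (l 15772648)) (a (b (a (l 15188736) (l 15261088)) (a (l 14726344) (l 14833096))) (b (l 15313000) (l 2)))) (b (a (l 15944864) (l 2)) (l 2)))) (b (a (b (a (l 16757040) (l 2)) (l 2)) (l 2)) (l 2))), by decide +kernel⟩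

theorem s2_pm_112_b : ∃ t, chk3 f_pm_112_b t 1 1 1 = true := ex3_b k0_pm_112_b k1_pm_112_b

theorem c_pm_112_b : CertNX 536870912 536870912 1239849684 370763052 1046898278 26843546 3 false true false .dn 1 1 2
    ndN0q1 ndN2q2b pcN1 Cut.none Ext.none :=
  certNX1 (fam := false) (s1 := true) (s2 := false) (a := 1) (b := 1) (c := 2) (cn := .dn) (n1 := ndN0q1) (n2 := ndN2q2b) (pc := pcN1) (cut := Cut.none) (xt := Ext.none) (P1 := 536870912) (W1 := 536870912) (P2 := 1239849684) (W2 := 370763052) (P3 := 1046898278) (W3 := 26843546) (N0 := 3)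
    rfl (fun _ => rfl) s2_pm_112_b

noncomputable def f_pm_113 : ℕ → ℕ → ℕ → ℕ → Bool := onCell 536870912 536870912 536870912 536870912 1046898278 26843546
    (rowNX 3 1 false true false .nn 1 1 3 (qsf 536870912 536870912 1610612736 469762048 1) ndN0q1 ndN2q3 pcN1 Cut.none Ext.none)

def k0_pm_113 : ∃ t, chk3 f_pm_113 t 1 2 1 = true :=
  ⟨(a (a (l 1) (b (l 1) (l 273837719559))) (a (a (b (l 1) (b (l 16777216) (l 16777216))) (b (a (l 1) (b (l 1) (c (l 16759864) (l 16759256)))) (b (c (a (l 16777216) (l 16759864)) (l 16663208)) (a (l 16777216) (l 16759560))))) (a (b (a (b (l 1) (c (l 16481992) (l 16494048))) (b (l 3) (c (l 384565848215) (l 16144968)))) (b (a (l 16351696) (c (l 16207000) (l 16186912))) (a (l 16519464) (l 16154992)))) (b (l 3) (a (a (b (l 3) (l 15888384)) (l 3)) (l 3)))))), by decide +kernel⟩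

def k1_pm_113 : ∃ t, chk3 f_pm_113 t 2 3 1 = true :=
  ⟨(b (b (a (l 1) (a (l 16748480) (l 16752448))) (a (b (l 1) (a (l 1) (l 16377880))) (b (l 16615040) (b (l 16528432) (l 16416520))))) (a (b (a (b (l 1) (l 15643728)) (l 15772648)) (a (b (a (l 15188736) (l 15261088)) (a (l 14726344) (l 14833096))) (b (l 15313000) (l 14905920)))) (b (a (l 15944864) (l 15998384)) (a (b (l 15376552) (l 14984408)) (l 15221776))))), by decide +kernel⟩

def k2_pm_113 : ∃ t, chk3 f_pm_113 t 3 6 1 = true :=
  ⟨(a (b (a (l 16757040) (b (a (l 16777168) (l 16759520)) (a (l 16743712) (l 16733064)))) (a (l 16470104) (a (l 16625880) (b (l 16677600) (b (l 16631920) (l 16542192)))))) (a (b (a (l 16490360) (b (l 16196928) (l 16188336))) (b (a (l 16464912) (l 16166896)) (b (l 16288528) (a (l 16358392) (l 16090016))))) (a (b (a (b (l 15888384) (l 15886368)) (a (l 15675944) (l 3))) (a (b (l 15877280) (b (l 15865512) (l 15820608))) (b (a (l 15673592) (l 295981030551)) (a (l 15605856) (c (b (l 15590864) (l 15560768)) (l 15529432))))))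 (a (b (l 3) (b (l 3) (a (a (a (c (l 15431360) (l 15506432)) (l 3)) (l 3)) (l 3)))) (l 3))))), by decide +kernel⟩

def k3_pm_113 : ∃ t, chk3 f_pm_113 t 6 7 1 = true :=
  ⟨(b (a (l 16039144) (a (l 16111904) (b (l 16300832) (l 15971760)))) (a (l 15189952) (a (l 15436624) (l 15480224)))), by decide +kernel⟩

def k4_pm_113 : ∃ t, chk3 f_pm_113 t 7 14 1 = true :=
  ⟨(b (a (a (l 16127920) (l 15878880)) (a (a (l 15621296) (a (l 15433440) (c (l 15394560) (l 15294408)))) (a (c (a (c (a (l 15275888) (c (l 15435200) (l 15395384))) (l 15340704)) (c (l 351278022695) (a (l 349130470759) (l 3)))) (l 368994564775)) (l 3)))) (a (a (l 15807880) (l 15585016)) (a (a (l 15352488) (a (l 15178328) (c (l 15176040) (l 14997032)))) (a (c (a (c (b (a (l 15292968) (l 15373232)) (a (c (l 15266736) (l 15181096)) (c (l 15275016) (l 15200696)))) (l 15131008)) (c (b (a (l 15262848) (l 15241112)) (a (l 15280984) (l 15206648))) (c (a (b (l 15203656) (l 15133072)) (b (l 15192840) (l 15132168))) (a (l 15092920) (b (l 15140912)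 (l 15062960)))))) (a (l 14975832) (b (l 15019624) (l 14892880)))) (b (l 3) (a (a (a (b (l 3) (c (l 401207554647) (l 14843864))) (l 3)) (l 3)) (l 3))))))), by decide +kernel⟩

def k5_pm_113 : ∃ t, chk3 f_pm_113 t 14 15 1 = true :=
  ⟨(b (b (a (l 15568928) (l 15346256)) (c (b (l 15389928) (a (l 15422928) (l 15236464))) (a (l 15365400) (l 15084032)))) (a (a (l 15237712) (b (c (b (c (l 15322496) (l 15282736)) (c (l 15277064) (b (l 15232384) (l 15198232)))) (l 15155296)) (c (b (l 15178816) (l 15110800)) (b (c (b (l 15098944) (l 15021456)) (l 15014472)) (a (l 15002256) (c (l 14983680) (b (l 14927992) (l 14888712)))))))) (b (c (b (c (a (l 15272152) (b (l 15230760) (l 15212144))) (l 15134584)) (c (l 15188392) (b (l 14908216) (c (l 15096976) (l 15040288))))) (l 14946896)) (c (b (c (l 15132832) (l 15019560)) (l 15019064)) (b (c (b (l 14921760) (c (l 14916096) (l 14856680))) (l 14784232)) (c (l 14832136) (b (c (l 14755560) (l 14693232)) (c (l 14716704) (b (l 14659976) (l 14640336)))))))))), by decide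 +kernel⟩

def k6_pm_113 : ∃ t, chk3 f_pm_113 t 30 15 1 = true :=
  ⟨(a (b (b (l 15132448) (b (l 15002576) (c (l 15095016) (l 14777472)))) (b (c (b (c (c (b (l 15218440) (l 15219928)) (l 15126536)) (l 14988384)) (c (l 15157616) (b (l 14975688) (c (l 15015112) (l 14913592))))) (l 14699504)) (c (b (c (l 15148184) (l 14940528)) (l 15038912)) (b (c (b (l 14739568) (c (l 14771528) (l 14661680))) (l 14509368)) (c (l 14683776) (b (c (l 14517360) (l 14400408)) (c (l 14489144) (l 745272160631)))))))) (b (b (a (l 14977688) (c (l 15070496) (l 14750944))) (c (b (a (l 15039504) (l 15007288)) (a (l 15012440) (c (l 15117336) (l 14882912)))) (b (l 14638456) (l 14564072)))) (b (c (c (b (a (c (b (l 15200736) (l 15225616)) (l 15092064)) (c (b (c (l 15273656) (l 15196872)) (l 15409808)) (b (l 15094328) (l 15136688)))) (a (l 15185712) (c (l 15344624) (l 15191008)))) (b (l 14907048) (b (a (l 14926008) (l 959485825655)) (c (l 15027328) (l 831173536935))))) (a (l 14545984) (l 14490136))) (a (b (b (c (l 15083264)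 (l 1014782647767)) (l 2)) (l 2)) (l 2))))), by decide +kernel⟩

def k7_pm_113 : ∃ t, chk3 f_pm_113 t 31 15 1 = true :=
  ⟨(a (a (b (c (b (c (a (c (l 15225784) (l 15118176)) (c (l 15245448) (l 15146776))) (l 14993680)) (c (b (a (l 15198016) (c (l 15249192) (l 15124088))) (c (a (c (l 61301469527) (l 15206240)) (b (l 15277920) (l 15325360))) (a (l 15101728) (l 15197208)))) (b (l 14925312) (l 14920480)))) (b (l 14736592) (l 157936765831))) (a (a (b (b (c (c (c (b (l 881103388759) (l 2)) (l 947675116807)) (l 14944704)) (l 14502840)) (l 2)) (l 2)) (l 2)) (l 2))) (b (c (c (b (a (c (l 15236480) (l 15161688)) (l 15191728)) (b (a (c (l 15261864) (l 15154888)) (l 15223536)) (c (l 1015858095399) (l 1020689641159)))) (b (a (c (l 15083848) (l 14954760)) (c (l 15072288) (a (l 14972000) (l 14979224)))) (b (a (c (l 15025712) (l 14887280)) (c (l 15050432) (a (l 14912352) (l 14925584)))) (a (c (l 983108352343) (l 14888440)) (l 2))))) (b (l 14727632) (b (l 14581608) (l 14523280)))) (l 2))) (b (b (a (a (c (c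 (b (l 15190488) (l 15202248)) (a (c (l 15061896) (l 14982056)) (l 15016520))) (c (c (a (l 14878608) (c (l 14911184) (l 14854632))) (l 14770536)) (l 14625216))) (b (l 3) (b (l 3) (b (l 3) (l 2))))) (l 3)) (a (a (b (c (c (l 15249592) (l 1080818742839)) (c (c (l 1065249093543) (l 14649104)) (l 14443448))) (l 2)) (l 2)) (l 2))) (l 2))), by decide +kernel⟩

theorem s8_pm_113 : ∃ t, chk3 f_pm_113 t 15 15 1 = true := ex3_a k6_pm_113 k7_pm_113

theorem s9_pm_113 : ∃ t, chk3 f_pm_113 t 7 15 1 = true := ex3_a k5_pm_113 s8_pm_113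

theorem s10_pm_113 : ∃ t, chk3 f_pm_113 t 7 7 1 = true := ex3_b k4_pm_113 s9_pm_113

theorem s11_pm_113 : ∃ t, chk3 f_pm_113 t 3 7 1 = true := ex3_a k3_pm_113 s10_pm_113

theorem s12_pm_113 : ∃ t, chk3 f_pm_113 t 3 3 1 = true := ex3_b k2_pm_113 s11_pm_113

theorem s13_pm_113 : ∃ t, chk3 f_pm_113 t 1 3 1 = true := ex3_a k1_pm_113 s12_pm_113

theorem s14_pm_113 : ∃ t, chk3 f_pm_113 t 1 1 1 = true := ex3_b k0_pm_113 s13_pm_113

theorem c_pm_113 : CertNX 536870912 536870912 1610612736 469762048 1046898278 26843546 3 false true false .nn 1 1 3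
    ndN0q1 ndN2q3 pcN1 Cut.none Ext.none :=
  certNX1 (fam := false) (s1 := true) (s2 := false) (a := 1) (b := 1) (c := 3) (cn := .nn) (n1 := ndN0q1) (n2 := ndN2q3) (pc := pcN1) (cut := Cut.none) (xt := Ext.none) (P1 := 536870912) (W1 := 536870912) (P2 := 1610612736) (W2 := 469762048) (P3 := 1046898278) (W3 := 26843546) (N0 := 3)
    rfl (fun _ => rfl) s14_pm_113

noncomputable def f_pm_123 : ℕ → ℕ → ℕ → ℕ → Bool := onCell 1073741824 536870912 1610612736 469762048 1046898278 26843546
    (rowNX 3 2 false true false .npn 1 2 3 (qsf 536870912 536870912 1610612736 469762048 2) ndN0q1 ndN2q3 pcN2 Cut.none Ext.none)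

def k0_pm_123 : ∃ t, chk3 f_pm_123 t 1 1 1 = true :=
  ⟨(b (a (b (a (b (a (c (a (l 14438888) (l 14551560)) (a (l 14356984) (l 14474808))) (l 1)) (a (a (c (l 14592000) (b (l 14492296) (l 14559552))) (c (l 14633856) (l 14645896))) (a (c (l 14778568) (l 14703880)) (l 14564608)))) (l 1)) (a (a (b (a (l 14692096) (c (l 14811192) (l 14742248))) (a (l 14829896) (l 14853720))) (a (b (a (l 14882736) (l 14872160)) (l 14910792)) (b (l 14667664) (l 14715696)))) (a (a (a (b (l 14532776) (l 14559664)) (l 14557680)) (b (l 15392648) (l 15444856))) (a (b (l 1) (l 16193464)) (l 16445464))))) (l 1)) (a (a (a (b (b (a (l 14985848) (l 14926488)) (a (l 15162856) (l 15009056))) (a (b (b (l 15309616) (l 15399136)) (a (b (l 15479120) (b (l 15456256) (b (a (a (c (l 15597984) (l 15338096)) (l 15468616)) (l 15454768)) (c (a (l 15599144) (b (l 15580096) (l 15597544))) (a (c (l 15381072) (l 15233216)) (l 15356920)))))) (b (l 15381040) (l 15388712)))) (b (l 15103112) (b (l 15172904) (l 15191328))))) (b (a (b (l 14915776)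 (l 14921528)) (l 14702584)) (b (a (l 14928128) (l 14674568)) (a (b (l 14929200) (l 14900432)) (l 14626520))))) (a (a (b (a (b (l 14547192) (l 14521056)) (l 14736824)) (a (b (l 14491424) (l 14431576)) (b (l 14716712) (l 14657576)))) (b (b (l 15474944) (l 15467128)) (b (l 15448376) (l 15400280)))) (a (b (b (l 16303072) (l 16339536)) (b (l 16337888) (l 16303336))) (b (b (l 16657648) (l 16753584)) (b (l 16776512) (l 16745320)))))) (a (b (a (a (l 16698000) (l 16714752)) (l 110629077863)) (a (b (l 16768144) (l 16745904)) (b (l 16772344) (l 16746464)))) (b (l 1) (a (b (l 16776896) (l 16745904)) (l 16747760)))))), by decide +kernel⟩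

theorem c_pm_123 : CertNX 536870912 536870912 1610612736 469762048 1046898278 26843546 3 false true false .npn 1 2 3
    ndN0q1 ndN2q3 pcN2 Cut.none Ext.none :=
  certNX2 (fam := false) (s1 := true) (s2 := false) (a := 1) (b := 2) (c := 3) (cn := .npn) (n1 := ndN0q1) (n2 := ndN2q3) (pc := pcN2) (cut := Cut.none) (xt := Ext.none) (P1 := 536870912) (W1 := 536870912) (P2 := 1610612736) (W2 := 469762048) (P3 := 1046898278) (W3 := 26843546) (N0 := 3)
    rfl (fun _ => rfl) k0_pm_123

noncomputable def f_pm_133 : ℕ → ℕ → ℕ → ℕ → Bool := onCell 536870912 536870912 1610612736 469762048 1046898278 26843546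
    (rowNX 3 0 false true false .dn 1 3 3 (qsf 536870912 536870912 1610612736 469762048 3) ndN0q1 ndN2q3 pcN3 Cut.none Ext.none)

def k0_pm_133 : ∃ t, chk3 f_pm_133 t 1 1 1 = true :=
  ⟨(l 1), by decide +kernel⟩

theorem c_pm_133 : CertNX 536870912 536870912 1610612736 469762048 1046898278 26843546 3 false true false .dn 1 3 3
    ndN0q1 ndN2q3 pcN3 Cut.none Ext.none :=
  certNX0 (fam := false) (s1 := true) (s2 := false) (a := 1) (b := 3) (c := 3) (cn := .dn) (n1 := ndN0q1) (n2 := ndN2q3) (pc := pcN3) (cut := Cut.none) (xt := Ext.none) (P1 := 536870912) (W1 := 536870912) (P2 := 1610612736) (W2 := 469762048) (P3 := 1046898278) (W3 := 26843546) (N0 := 3)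
    rfl k0_pm_133

noncomputable def f_pm_202_a : ℕ → ℕ → ℕ → ℕ → Bool := onCell 0 536870912 0 420477299 1046898278 26843546
    (rowNX 3 0 false true false .pp 2 0 2 (qsf 0 536870912 0 420477299 0) ndN0q2 ndN2q2a pcN0 Cut.none Ext.none)

def k0_pm_202_a : ∃ t, chk3 f_pm_202_a t 1 1 1 = true :=
  ⟨(l 3), by decide +kernel⟩

theorem c_pm_202_a : CertNX 0 536870912 0 420477299 1046898278 26843546 3 false true false .pp 2 0 2
    ndN0q2 ndN2q2a pcN0 Cut.none Ext.none :=
  certNX0 (fam := false) (s1 := true) (s2 := false) (a := 2) (b := 0) (c := 2) (cn := .pp) (n1 := ndN0q2) (n2 := ndN2q2a) (pc := pcN0) (cut := Cut.none) (xt := Ext.none) (P1 := 0) (W1 := 536870912) (P2 := 0) (W2 := 420477299) (P3 := 1046898278) (W3 := 26843546) (N0 := 3)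
    rfl k0_pm_202_a

noncomputable def f_pm_202_b : ℕ → ℕ → ℕ → ℕ → Bool := onCell 0 536870912 1239849684 370763052 1046898278 26843546
    (rowNX 3 0 false true false .pp 2 0 2 (qsf 0 536870912 1239849684 370763052 0) ndN0q2 ndN2q2b pcN0 Cut.none Ext.none)

def k0_pm_202_b : ∃ t, chk3 f_pm_202_b t 1 1 1 = true :=
  ⟨(l 3), by decide +kernel⟩

theorem c_pm_202_b : CertNX 0 536870912 1239849684 370763052 1046898278 26843546 3 false true false .pp 2 0 2
    ndN0q2 ndN2q2b pcN0 Cut.none Ext.none :=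
  certNX0 (fam := false) (s1 := true) (s2 := false) (a := 2) (b := 0) (c := 2) (cn := .pp) (n1 := ndN0q2) (n2 := ndN2q2b) (pc := pcN0) (cut := Cut.none) (xt := Ext.none) (P1 := 0) (W1 := 536870912) (P2 := 1239849684) (W2 := 370763052) (P3 := 1046898278) (W3 := 26843546) (N0 := 3)
    rfl k0_pm_202_b

noncomputable def f_pm_203 : ℕ → ℕ → ℕ → ℕ → Bool := onCell 0 536870912 0 536870912 1046898278 26843546
    (rowNX 3 1 false true false .up 2 0 3 (qsf 0 536870912 1610612736 469762048 0) ndN0q2 ndN2q3 pcN0 Cut.none Ext.none)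

def k0_pm_203 : ∃ t, chk3 f_pm_203 t 1 1 1 = true :=
  ⟨(l 3), by decide +kernel⟩

theorem c_pm_203 : CertNX 0 536870912 1610612736 469762048 1046898278 26843546 3 false true false .up 2 0 3
    ndN0q2 ndN2q3 pcN0 Cut.none Ext.none :=
  certNX1 (fam := false) (s1 := true) (s2 := false) (a := 2) (b := 0) (c := 3) (cn := .up) (n1 := ndN0q2) (n2 := ndN2q3) (pc := pcN0) (cut := Cut.none) (xt := Ext.none) (P1 := 0) (W1 := 536870912) (P2 := 1610612736) (W2 := 469762048) (P3 := 1046898278) (W3 := 26843546) (N0 := 3)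
    rfl (fun _ => rfl) k0_pm_203

noncomputable def f_pm_213 : ℕ → ℕ → ℕ → ℕ → Bool := onCell 0 536870912 1610612736 469762048 1046898278 26843546
    (rowNX 3 0 false true false .pnn 2 1 3 (qsf 0 536870912 1610612736 469762048 1) ndN0q2 ndN2q3 pcN1 Cut.none Ext.none)

def k0_pm_213 : ∃ t, chk3 f_pm_213 t 1 1 1 = true :=
  ⟨(a (l 3) (b (l 3) (a (l 3) (l 3)))), by decide +kernel⟩

theorem c_pm_213 : CertNX 0 536870912 1610612736 469762048 1046898278 26843546 3 false true false .pnn 2 1 3
    ndN0q2 ndN2q3 pcN1 Cut.none Ext.none :=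
  certNX0 (fam := false) (s1 := true) (s2 := false) (a := 2) (b := 1) (c := 3) (cn := .pnn) (n1 := ndN0q2) (n2 := ndN2q3) (pc := pcN1) (cut := Cut.none) (xt := Ext.none) (P1 := 0) (W1 := 536870912) (P2 := 1610612736) (W2 := 469762048) (P3 := 1046898278) (W3 := 26843546) (N0 := 3)
    rfl k0_pm_213

noncomputable def f_mm_001 : ℕ → ℕ → ℕ → ℕ → Bool := onCell 0 536870912 536870912 536870912 1046898278 26843546
    (rowNX 3 0 false false false .up 0 0 1 (qsf 0 536870912 536870912 536870912 0) ndN0q0 ndN2q1 pcN0 Cut.none Ext.none)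

def k0_mm_001 : ∃ t, chk3 f_mm_001 t 1 1 1 = true :=
  ⟨(l 3), by decide +kernel⟩

theorem c_mm_001 : CertNX 0 536870912 536870912 536870912 1046898278 26843546 3 false false false .up 0 0 1
    ndN0q0 ndN2q1 pcN0 Cut.none Ext.none :=
  certNX0 (fam := false) (s1 := false) (s2 := false) (a := 0) (b := 0) (c := 1) (cn := .up) (n1 := ndN0q0) (n2 := ndN2q1) (pc := pcN0) (cut := Cut.none) (xt := Ext.none) (P1 := 0) (W1 := 536870912) (P2 := 536870912) (W2 := 536870912) (P3 := 1046898278) (W3 := 26843546) (N0 := 3)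
    rfl k0_mm_001

noncomputable def f_mm_011 : ℕ → ℕ → ℕ → ℕ → Bool := onCell 0 536870912 536870912 536870912 1046898278 26843546
    (rowNX 3 0 false false false .pnn 0 1 1 (qsf 0 536870912 536870912 536870912 1) ndN0q0 ndN2q1 pcN1 Cut.none Ext.none)

def k0_mm_011 : ∃ t, chk3 f_mm_011 t 1 1 1 = true :=
  ⟨(l 3), by decide +kernel⟩

theorem c_mm_011 : CertNX 0 536870912 536870912 536870912 1046898278 26843546 3 false false false .pnn 0 1 1
    ndN0q0 ndN2q1 pcN1 Cut.none Ext.none :=
  certNX0 (fam := false) (s1 := false) (s2 := false) (a := 0) (b := 1) (c := 1) (cn := .pnn) (n1 := ndN0q0) (n2 := ndN2q1) (pc := pcN1) (cut := Cut.none) (xt := Ext.none) (P1 := 0) (W1 := 536870912) (P2 := 536870912) (W2 := 536870912) (P3 := 1046898278) (W3 := 26843546) (N0 := 3)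
    rfl k0_mm_011

noncomputable def f_mm_012_a : ℕ → ℕ → ℕ → ℕ → Bool := onCell 0 536870912 0 420477299 1046898278 26843546
    (rowNX 3 0 false false false .pnp 0 1 2 (qsf 0 536870912 0 420477299 1) ndN0q0 ndN2q2a pcN1 Cut.none Ext.none)

def k0_mm_012_a : ∃ t, chk3 f_mm_012_a t 1 1 1 = true :=
  ⟨(l 5), by decide +kernel⟩

theorem c_mm_012_a : CertNX 0 536870912 0 420477299 1046898278 26843546 3 false false false .pnp 0 1 2
    ndN0q0 ndN2q2a pcN1 Cut.none Ext.none :=
  certNX0 (fam := false) (s1 := false) (s2 := false) (a := 0) (b := 1) (c := 2) (cn := .pnp) (n1 := ndN0q0) (n2 := ndN2q2a) (pc := pcN1) (cut := Cut.none) (xt := Ext.none) (P1 := 0) (W1 := 536870912) (P2 := 0) (W2 := 420477299) (P3 := 1046898278) (W3 := 26843546) (N0 := 3)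
    rfl k0_mm_012_a

noncomputable def f_mm_012_b : ℕ → ℕ → ℕ → ℕ → Bool := onCell 0 536870912 1239849684 370763052 1046898278 26843546
    (rowNX 3 0 false false false .pnp 0 1 2 (qsf 0 536870912 1239849684 370763052 1) ndN0q0 ndN2q2b pcN1 Cut.none Ext.none)

def k0_mm_012_b : ∃ t, chk3 f_mm_012_b t 1 1 1 = true :=
  ⟨(l 5), by decide +kernel⟩

theorem c_mm_012_b : CertNX 0 536870912 1239849684 370763052 1046898278 26843546 3 false false false .pnp 0 1 2
    ndN0q0 ndN2q2b pcN1 Cut.none Ext.none :=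
  certNX0 (fam := false) (s1 := false) (s2 := false) (a := 0) (b := 1) (c := 2) (cn := .pnp) (n1 := ndN0q0) (n2 := ndN2q2b) (pc := pcN1) (cut := Cut.none) (xt := Ext.none) (P1 := 0) (W1 := 536870912) (P2 := 1239849684) (W2 := 370763052) (P3 := 1046898278) (W3 := 26843546) (N0 := 3)
    rfl k0_mm_012_b

noncomputable def f_mm_022_a : ℕ → ℕ → ℕ → ℕ → Bool := onCell 0 536870912 0 420477299 1046898278 26843546
    (rowNX 3 0 false false false .pp 0 2 2 (qsf 0 536870912 0 420477299 2) ndN0q0 ndN2q2a pcN2 Cut.none Ext.none)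

def k0_mm_022_a : ∃ t, chk3 f_mm_022_a t 1 1 1 = true :=
  ⟨(l 5), by decide +kernel⟩

theorem c_mm_022_a : CertNX 0 536870912 0 420477299 1046898278 26843546 3 false false false .pp 0 2 2
    ndN0q0 ndN2q2a pcN2 Cut.none Ext.none :=
  certNX0 (fam := false) (s1 := false) (s2 := false) (a := 0) (b := 2) (c := 2) (cn := .pp) (n1 := ndN0q0) (n2 := ndN2q2a) (pc := pcN2) (cut := Cut.none) (xt := Ext.none) (P1 := 0) (W1 := 536870912) (P2 := 0) (W2 := 420477299) (P3 := 1046898278) (W3 := 26843546) (N0 := 3)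
    rfl k0_mm_022_a

noncomputable def f_mm_022_b : ℕ → ℕ → ℕ → ℕ → Bool := onCell 0 536870912 1239849684 370763052 1046898278 26843546
    (rowNX 3 0 false false false .pp 0 2 2 (qsf 0 536870912 1239849684 370763052 2) ndN0q0 ndN2q2b pcN2 Cut.none Ext.none)

def k0_mm_022_b : ∃ t, chk3 f_mm_022_b t 1 1 1 = true :=
  ⟨(l 5), by decide +kernel⟩

theorem c_mm_022_b : CertNX 0 536870912 1239849684 370763052 1046898278 26843546 3 false false false .pp 0 2 2
    ndN0q0 ndN2q2b pcN2 Cut.none Ext.none :=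
  certNX0 (fam := false) (s1 := false) (s2 := false) (a := 0) (b := 2) (c := 2) (cn := .pp) (n1 := ndN0q0) (n2 := ndN2q2b) (pc := pcN2) (cut := Cut.none) (xt := Ext.none) (P1 := 0) (W1 := 536870912) (P2 := 1239849684) (W2 := 370763052) (P3 := 1046898278) (W3 := 26843546) (N0 := 3)
    rfl k0_mm_022_b

noncomputable def f_mm_023 : ℕ → ℕ → ℕ → ℕ → Bool := onCell 0 536870912 1610612736 469762048 1046898278 26843546
    (rowNX 3 0 false false false .up 0 2 3 (qsf 0 536870912 1610612736 469762048 2) ndN0q0 ndN2q3 pcN2 Cut.none Ext.none)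

def k0_mm_023 : ∃ t, chk3 f_mm_023 t 1 1 1 = true :=
  ⟨(l 5), by decide +kernel⟩

theorem c_mm_023 : CertNX 0 536870912 1610612736 469762048 1046898278 26843546 3 false false false .up 0 2 3
    ndN0q0 ndN2q3 pcN2 Cut.none Ext.none :=
  certNX0 (fam := false) (s1 := false) (s2 := false) (a := 0) (b := 2) (c := 3) (cn := .up) (n1 := ndN0q0) (n2 := ndN2q3) (pc := pcN2) (cut := Cut.none) (xt := Ext.none) (P1 := 0) (W1 := 536870912) (P2 := 1610612736) (W2 := 469762048) (P3 := 1046898278) (W3 := 26843546) (N0 := 3)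
    rfl k0_mm_023

noncomputable def f_mm_033 : ℕ → ℕ → ℕ → ℕ → Bool := onCell 0 536870912 1610612736 469762048 1046898278 26843546
    (rowNX 3 0 false false false .pnn 0 3 3 (qsf 0 536870912 1610612736 469762048 3) ndN0q0 ndN2q3 pcN3 Cut.none Ext.none)

def k0_mm_033 : ∃ t, chk3 f_mm_033 t 1 1 1 = true :=
  ⟨(l 5), by decide +kernel⟩

theorem c_mm_033 : CertNX 0 536870912 1610612736 469762048 1046898278 26843546 3 false false false .pnn 0 3 3
    ndN0q0 ndN2q3 pcN3 Cut.none Ext.none :=
  certNX0 (fam := false) (s1 := false) (s2 := false) (a := 0) (b := 3) (c := 3) (cn := .pnn) (n1 := ndN0q0) (n2 := ndN2q3) (pc := pcN3) (cut := Cut.none) (xt := Ext.none) (P1 := 0) (W1 := 536870912) (P2 := 1610612736) (W2 := 469762048) (P3 := 1046898278) (W3 := 26843546) (N0 := 3)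
    rfl k0_mm_033

noncomputable def f_mm_101 : ℕ → ℕ → ℕ → ℕ → Bool := onCell 536870912 536870912 536870912 536870912 1046898278 26843546
    (rowNX 3 0 false false false .npn 1 0 1 (qsf 536870912 536870912 536870912 536870912 0) ndN0q1 ndN2q1 pcN0 Cut.none Ext.none)

def k0_mm_101 : ∃ t, chk3 f_mm_101 t 1 1 1 = true :=
  ⟨(l 3), by decide +kernel⟩

theorem c_mm_101 : CertNX 536870912 536870912 536870912 536870912 1046898278 26843546 3 false false false .npn 1 0 1
    ndN0q1 ndN2q1 pcN0 Cut.none Ext.none :=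
  certNX0 (fam := false) (s1 := false) (s2 := false) (a := 1) (b := 0) (c := 1) (cn := .npn) (n1 := ndN0q1) (n2 := ndN2q1) (pc := pcN0) (cut := Cut.none) (xt := Ext.none) (P1 := 536870912) (W1 := 536870912) (P2 := 536870912) (W2 := 536870912) (P3 := 1046898278) (W3 := 26843546) (N0 := 3)
    rfl k0_mm_101

noncomputable def f_mm_102_a : ℕ → ℕ → ℕ → ℕ → Bool := onCell 536870912 536870912 0 420477299 1046898278 26843546
    (rowNX 3 0 false false false .npp 1 0 2 (qsf 536870912 536870912 0 420477299 0) ndN0q1 ndN2q2a pcN0 Cut.none Ext.none)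

def k0_mm_102_a : ∃ t, chk3 f_mm_102_a t 1 1 1 = true :=
  ⟨(l 3), by decide +kernel⟩

theorem c_mm_102_a : CertNX 536870912 536870912 0 420477299 1046898278 26843546 3 false false false .npp 1 0 2
    ndN0q1 ndN2q2a pcN0 Cut.none Ext.none :=
  certNX0 (fam := false) (s1 := false) (s2 := false) (a := 1) (b := 0) (c := 2) (cn := .npp) (n1 := ndN0q1) (n2 := ndN2q2a) (pc := pcN0) (cut := Cut.none) (xt := Ext.none) (P1 := 536870912) (W1 := 536870912) (P2 := 0) (W2 := 420477299) (P3 := 1046898278) (W3 := 26843546) (N0 := 3)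
    rfl k0_mm_102_a

noncomputable def f_mm_102_b : ℕ → ℕ → ℕ → ℕ → Bool := onCell 536870912 536870912 1239849684 370763052 1046898278 26843546
    (rowNX 3 0 false false false .npp 1 0 2 (qsf 536870912 536870912 1239849684 370763052 0) ndN0q1 ndN2q2b pcN0 Cut.none Ext.none)

def k0_mm_102_b : ∃ t, chk3 f_mm_102_b t 1 1 1 = true :=
  ⟨(l 5), by decide +kernel⟩

theorem c_mm_102_b : CertNX 536870912 536870912 1239849684 370763052 1046898278 26843546 3 false false false .npp 1 0 2
    ndN0q1 ndN2q2b pcN0 Cut.none Ext.none :=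
  certNX0 (fam := false) (s1 := false) (s2 := false) (a := 1) (b := 0) (c := 2) (cn := .npp) (n1 := ndN0q1) (n2 := ndN2q2b) (pc := pcN0) (cut := Cut.none) (xt := Ext.none) (P1 := 536870912) (W1 := 536870912) (P2 := 1239849684) (W2 := 370763052) (P3 := 1046898278) (W3 := 26843546) (N0 := 3)
    rfl k0_mm_102_b

noncomputable def f_mm_112_a : ℕ → ℕ → ℕ → ℕ → Bool := onCell 536870912 536870912 0 420477299 1046898278 26843546
    (rowNX 3 0 false false false .dn 1 1 2 (qsf 536870912 536870912 0 420477299 1) ndN0q1 ndN2q2a pcN1 Cut.none Ext.none)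

def k0_mm_112_a : ∃ t, chk3 f_mm_112_a t 1 1 1 = true :=
  ⟨(l 3), by decide +kernel⟩

theorem c_mm_112_a : CertNX 536870912 536870912 0 420477299 1046898278 26843546 3 false false false .dn 1 1 2
    ndN0q1 ndN2q2a pcN1 Cut.none Ext.none :=
  certNX0 (fam := false) (s1 := false) (s2 := false) (a := 1) (b := 1) (c := 2) (cn := .dn) (n1 := ndN0q1) (n2 := ndN2q2a) (pc := pcN1) (cut := Cut.none) (xt := Ext.none) (P1 := 536870912) (W1 := 536870912) (P2 := 0) (W2 := 420477299) (P3 := 1046898278) (W3 := 26843546) (N0 := 3)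
    rfl k0_mm_112_a

noncomputable def f_mm_112_b : ℕ → ℕ → ℕ → ℕ → Bool := onCell 536870912 536870912 1239849684 370763052 1046898278 26843546
    (rowNX 3 0 false false false .dn 1 1 2 (qsf 536870912 536870912 1239849684 370763052 1) ndN0q1 ndN2q2b pcN1 Cut.none Ext.none)

def k0_mm_112_b : ∃ t, chk3 f_mm_112_b t 1 1 1 = true :=
  ⟨(l 5), by decide +kernel⟩

theorem c_mm_112_b : CertNX 536870912 536870912 1239849684 370763052 1046898278 26843546 3 false false false .dn 1 1 2
    ndN0q1 ndN2q2b pcN1 Cut.none Ext.none :=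
  certNX0 (fam := false) (s1 := false) (s2 := false) (a := 1) (b := 1) (c := 2) (cn := .dn) (n1 := ndN0q1) (n2 := ndN2q2b) (pc := pcN1) (cut := Cut.none) (xt := Ext.none) (P1 := 536870912) (W1 := 536870912) (P2 := 1239849684) (W2 := 370763052) (P3 := 1046898278) (W3 := 26843546) (N0 := 3)
    rfl k0_mm_112_b

noncomputable def f_mm_113 : ℕ → ℕ → ℕ → ℕ → Bool := onCell 536870912 536870912 1610612736 469762048 1046898278 26843546
    (rowNX 3 0 false false false .nn 1 1 3 (qsf 536870912 536870912 1610612736 469762048 1) ndN0q1 ndN2q3 pcN1 Cut.none Ext.none)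

def k0_mm_113 : ∃ t, chk3 f_mm_113 t 1 1 1 = true :=
  ⟨(l 5), by decide +kernel⟩

theorem c_mm_113 : CertNX 536870912 536870912 1610612736 469762048 1046898278 26843546 3 false false false .nn 1 1 3
    ndN0q1 ndN2q3 pcN1 Cut.none Ext.none :=
  certNX0 (fam := false) (s1 := false) (s2 := false) (a := 1) (b := 1) (c := 3) (cn := .nn) (n1 := ndN0q1) (n2 := ndN2q3) (pc := pcN1) (cut := Cut.none) (xt := Ext.none) (P1 := 536870912) (W1 := 536870912) (P2 := 1610612736) (W2 := 469762048) (P3 := 1046898278) (W3 := 26843546) (N0 := 3)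
    rfl k0_mm_113

noncomputable def f_mm_123 : ℕ → ℕ → ℕ → ℕ → Bool := onCell 536870912 536870912 1610612736 469762048 1046898278 26843546
    (rowNX 3 0 false false false .npn 1 2 3 (qsf 536870912 536870912 1610612736 469762048 2) ndN0q1 ndN2q3 pcN2 Cut.none Ext.none)

def k0_mm_123 : ∃ t, chk3 f_mm_123 t 1 1 1 = true :=
  ⟨(l 5), by decide +kernel⟩

theorem c_mm_123 : CertNX 536870912 536870912 1610612736 469762048 1046898278 26843546 3 false false false .npn 1 2 3
    ndN0q1 ndN2q3 pcN2 Cut.none Ext.none :=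
  certNX0 (fam := false) (s1 := false) (s2 := false) (a := 1) (b := 2) (c := 3) (cn := .npn) (n1 := ndN0q1) (n2 := ndN2q3) (pc := pcN2) (cut := Cut.none) (xt := Ext.none) (P1 := 536870912) (W1 := 536870912) (P2 := 1610612736) (W2 := 469762048) (P3 := 1046898278) (W3 := 26843546) (N0 := 3)
    rfl k0_mm_123

noncomputable def f_mm_133 : ℕ → ℕ → ℕ → ℕ → Bool := onCell 536870912 536870912 1610612736 469762048 1046898278 26843546
    (rowNX 3 0 false false false .dn 1 3 3 (qsf 536870912 536870912 1610612736 469762048 3) ndN0q1 ndN2q3 pcN3 Cut.none Ext.none)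

def k0_mm_133 : ∃ t, chk3 f_mm_133 t 1 1 1 = true :=
  ⟨(l 1), by decide +kernel⟩

theorem c_mm_133 : CertNX 536870912 536870912 1610612736 469762048 1046898278 26843546 3 false false false .dn 1 3 3
    ndN0q1 ndN2q3 pcN3 Cut.none Ext.none :=
  certNX0 (fam := false) (s1 := false) (s2 := false) (a := 1) (b := 3) (c := 3) (cn := .dn) (n1 := ndN0q1) (n2 := ndN2q3) (pc := pcN3) (cut := Cut.none) (xt := Ext.none) (P1 := 536870912) (W1 := 536870912) (P2 := 1610612736) (W2 := 469762048) (P3 := 1046898278) (W3 := 26843546) (N0 := 3)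
    rfl k0_mm_133

noncomputable def f_mm_202_a : ℕ → ℕ → ℕ → ℕ → Bool := onCell 0 536870912 0 420477299 1046898278 26843546
    (rowNX 3 0 false false false .pp 2 0 2 (qsf 0 536870912 0 420477299 0) ndN0q2 ndN2q2a pcN0 Cut.none Ext.none)

def k0_mm_202_a : ∃ t, chk3 f_mm_202_a t 1 1 1 = true :=
  ⟨(l 3), by decide +kernel⟩

theorem c_mm_202_a : CertNX 0 536870912 0 420477299 1046898278 26843546 3 false false false .pp 2 0 2
    ndN0q2 ndN2q2a pcN0 Cut.none Ext.none :=
  certNX0 (fam := false) (s1 := false) (s2 := false) (a := 2) (b := 0) (c := 2) (cn := .pp) (n1 := ndN0q2) (n2 := ndN2q2a) (pc := pcN0) (cut := Cut.none) (xt := Ext.none) (P1 := 0) (W1 := 536870912) (P2 := 0) (W2 := 420477299) (P3 := 1046898278) (W3 := 26843546) (N0 := 3)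
    rfl k0_mm_202_a

noncomputable def f_mm_202_b : ℕ → ℕ → ℕ → ℕ → Bool := onCell 0 536870912 1239849684 370763052 1046898278 26843546
    (rowNX 3 0 false false false .pp 2 0 2 (qsf 0 536870912 1239849684 370763052 0) ndN0q2 ndN2q2b pcN0 Cut.none Ext.none)

def k0_mm_202_b : ∃ t, chk3 f_mm_202_b t 1 1 1 = true :=
  ⟨(l 3), by decide +kernel⟩

theorem c_mm_202_b : CertNX 0 536870912 1239849684 370763052 1046898278 26843546 3 false false false .pp 2 0 2
    ndN0q2 ndN2q2b pcN0 Cut.none Ext.none :=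
  certNX0 (fam := false) (s1 := false) (s2 := false) (a := 2) (b := 0) (c := 2) (cn := .pp) (n1 := ndN0q2) (n2 := ndN2q2b) (pc := pcN0) (cut := Cut.none) (xt := Ext.none) (P1 := 0) (W1 := 536870912) (P2 := 1239849684) (W2 := 370763052) (P3 := 1046898278) (W3 := 26843546) (N0 := 3)
    rfl k0_mm_202_b

noncomputable def f_mm_203 : ℕ → ℕ → ℕ → ℕ → Bool := onCell 0 536870912 1610612736 469762048 1046898278 26843546
    (rowNX 3 0 false false false .up 2 0 3 (qsf 0 536870912 1610612736 469762048 0) ndN0q2 ndN2q3 pcN0 Cut.none Ext.none)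

def k0_mm_203 : ∃ t, chk3 f_mm_203 t 1 1 1 = true :=
  ⟨(l 3), by decide +kernel⟩

theorem c_mm_203 : CertNX 0 536870912 1610612736 469762048 1046898278 26843546 3 false false false .up 2 0 3
    ndN0q2 ndN2q3 pcN0 Cut.none Ext.none :=
  certNX0 (fam := false) (s1 := false) (s2 := false) (a := 2) (b := 0) (c := 3) (cn := .up) (n1 := ndN0q2) (n2 := ndN2q3) (pc := pcN0) (cut := Cut.none) (xt := Ext.none) (P1 := 0) (W1 := 536870912) (P2 := 1610612736) (W2 := 469762048) (P3 := 1046898278) (W3 := 26843546) (N0 := 3)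
    rfl k0_mm_203

noncomputable def f_mm_213 : ℕ → ℕ → ℕ → ℕ → Bool := onCell 0 536870912 1610612736 469762048 1046898278 26843546
    (rowNX 3 0 false false false .pnn 2 1 3 (qsf 0 536870912 1610612736 469762048 1) ndN0q2 ndN2q3 pcN1 Cut.none Ext.none)

def k0_mm_213 : ∃ t, chk3 f_mm_213 t 1 1 1 = true :=
  ⟨(l 3), by decide +kernel⟩

theorem c_mm_213 : CertNX 0 536870912 1610612736 469762048 1046898278 26843546 3 false false false .pnn 2 1 3
    ndN0q2 ndN2q3 pcN1 Cut.none Ext.none :=
  certNX0 (fam := false) (s1 := false) (s2 := false) (a := 2) (b := 1) (c := 3) (cn := .pnn) (n1 := ndN0q2) (n2 := ndN2q3) (pc := pcN1) (cut := Cut.none) (xt := Ext.none) (P1 := 0) (W1 := 536870912) (P2 := 1610612736) (W2 := 469762048) (P3 := 1046898278) (W3 := 26843546) (N0 := 3)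
    rfl k0_mm_213

end Pool.Agent.Strip051.G.IE1.Tab.C.NB02

namespace Pool.Agent.Strip051.G.IE1.Tab.C.NB03

open Pool.Agent.Strip051.PB Pool.Agent.Strip051.PB.T
open Pool.Agent.Strip051.G.IE1.Tab

noncomputable def f_pp_001 : ℕ → ℕ → ℕ → ℕ → Bool := onCell 0 536870912 0 536870912 1046898278 26843546
    (rowNX 3 1 false true true .up 0 0 1 (qsf 0 536870912 536870912 536870912 0) ndN0q0 ndN3q1 pcN0 Cut.none Ext.none)

def k0_pp_001 : ∃ t, chk3 f_pp_001 t 1 1 1 = true :=
  ⟨(l 3), by decide +kernel⟩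

theorem c_pp_001 : CertNX 0 536870912 536870912 536870912 1046898278 26843546 3 false true true .up 0 0 1
    ndN0q0 ndN3q1 pcN0 Cut.none Ext.none :=
  certNX1 (fam := false) (s1 := true) (s2 := true) (a := 0) (b := 0) (c := 1) (cn := .up) (n1 := ndN0q0) (n2 := ndN3q1) (pc := pcN0) (cut := Cut.none) (xt := Ext.none) (P1 := 0) (W1 := 536870912) (P2 := 536870912) (W2 := 536870912) (P3 := 1046898278) (W3 := 26843546) (N0 := 3)
    rfl (fun _ => rfl) k0_pp_001

noncomputable def cut_pp_011 : Cut := Cut.of [[⟨0, 0, 0, 67108864⟩, ⟨1, 1, 0, 67108864⟩, ⟨2, 1, 0, 67108864⟩]]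

noncomputable def f_pp_011 : ℕ → ℕ → ℕ → ℕ → Bool := onCell 0 536870912 536870912 536870912 1046898278 26843546
    (rowNX 3 0 false true true .pnn 0 1 1 (qsf 0 536870912 536870912 536870912 1) ndN0q0 ndN3q1 pcN1 cut_pp_011 Ext.none)

def k0_pp_011 : ∃ t, chk3 f_pp_011 t 1 1 1 = true :=
  ⟨(b (l 3) (a (b (l 3) (a (a (b (l 3) (a (a (b (l 3) (l 6)) (l 3)) (l 3))) (l 3)) (l 3))) (l 3))), by decide +kernel⟩

theorem c_pp_011 : CertNX 0 536870912 536870912 536870912 1046898278 26843546 3 false true true .pnn 0 1 1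
    ndN0q0 ndN3q1 pcN1 cut_pp_011 Ext.none :=
  certNX0 (fam := false) (s1 := true) (s2 := true) (a := 0) (b := 1) (c := 1) (cn := .pnn) (n1 := ndN0q0) (n2 := ndN3q1) (pc := pcN1) (cut := cut_pp_011) (xt := Ext.none) (P1 := 0) (W1 := 536870912) (P2 := 536870912) (W2 := 536870912) (P3 := 1046898278) (W3 := 26843546) (N0 := 3)
    rfl k0_pp_011

end Pool.Agent.Strip051.G.IE1.Tab.C.NB03

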