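import Pool.Agent.Strip051.G.IE1.Tab

/-! # Certificates N49 (generated) -/

set_option linter.all false
set_option maxRecDepth 100000

namespace Pool.Agent.Strip051.G.IE1.Tab.C.NB03

open Pool.Agent.Strip051.PB Pool.Agent.Strip051.PB.T
open Pool.Agent.Strip051.G.IE1.Tab

noncomputable def cut_pp_012 : Cut := Cut.of [[⟨0, 0, 0, 67108864⟩, ⟨1, 1, 0, 67108864⟩, ⟨2, 1, 0, 67108864⟩, ⟨3, 0, 0, 1233125376⟩]]

noncomputable def f_pp_012 : ℕ → ℕ → ℕ → ℕ → Bool := onCell 536870912 536870912 1073741824 536870912 1046898278 26843546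
    (rowNX 3 2 false true true .pnp 0 1 2 (qsf 0 536870912 1073741824 536870912 1) ndN0q0 ndN3q2 pcN1 cut_pp_012 Ext.none)

def k0_pp_012 : ∃ t, chk3 f_pp_012 t 1 1 1 = true :=
  ⟨(a (l 3) (a (l 3) (a (l 3) (a (l 3) (b (a (l 3) (a (l 3) (b (a (l 3) (a (l 3) (b (a (l 3) (a (l 3) (b (l 6) (b (l 6) (a (l 3) (b (l 6) (c (b (l 6) (b (l 6) (b (l 6) (b (l 6) (l 16633712))))) (c (l 16660104) (l 16638016))))))))) (a (l 3) (a (l 3) (a (l 3) (a (b (l 3) (l 3)) (a (b (l 3) (l 3)) (b (b (c (b (l 16567408) (l 16541760)) (b (l 16565664) (c (l 16537456) (l 16534544)))) (c (l 16485336) (l 16435936))) (b (c (b (b (l 16442016) (l 16403128)) (l 16482024)) (b (c (l 16431704) (b (l 16431064) (l 16381504))) (l 16457320))) (c (c (l 16190416) (l 16269144)) (c (l 16263896) (l 16174632))))))))))))) (a (l 3) (a (l 3) (a (b (l 3) (l 3)) (a (b (l 3) (l 3)) (a (b (l 3) (l 3)) (b (b (c (b (l 16043904) (b (l 15809184) (l 15698104))) (b (l 15936856) (b (l 15776952) (l 15640568)))) (c (l 15641512) (l 15602832))) (b (c (c (l 15567424)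 (l 15546784)) (l 15515136)) (c (b (b (l 15485928) (l 15419872)) (l 15408624)) (b (l 15406448) (l 15360368))))))))))))) (a (l 3) (a (l 3) (a (b (l 3) (l 3)) (b (c (b (l 15416096) (l 15416096)) (c (b (l 15380472) (l 15380472)) (a (l 3) (c (l 15358000) (b (l 15345664) (l 15345664)))))) (c (b (l 15416096) (l 15416088)) (c (l 15380384) (b (c (l 15364128) (l 15350576)) (l 15355856))))))))))))), by decide +kernel⟩

theorem c_pp_012 : CertNX 0 536870912 1073741824 536870912 1046898278 26843546 3 false true true .pnp 0 1 2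
    ndN0q0 ndN3q2 pcN1 cut_pp_012 Ext.none :=
  certNX2 (fam := false) (s1 := true) (s2 := true) (a := 0) (b := 1) (c := 2) (cn := .pnp) (n1 := ndN0q0) (n2 := ndN3q2) (pc := pcN1) (cut := cut_pp_012) (xt := Ext.none) (P1 := 0) (W1 := 536870912) (P2 := 1073741824) (W2 := 536870912) (P3 := 1046898278) (W3 := 26843546) (N0 := 3)
    rfl (fun _ => rfl) k0_pp_012

noncomputable def cut_pp_022 : Cut := Cut.of [[⟨0, 0, 0, 67108864⟩, ⟨1, 1, 0, 67108864⟩, ⟨2, 1, 0, 67108864⟩, ⟨3, 0, 0, 1233125376⟩]]

noncomputable def f_pp_022 : ℕ → ℕ → ℕ → ℕ → Bool := onCell 0 536870912 1073741824 536870912 1046898278 26843546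
    (rowNX 3 1 false true true .pp 0 2 2 (qsf 0 536870912 1073741824 536870912 2) ndN0q0 ndN3q2 pcN2 cut_pp_022 Ext.none)

def k0_pp_022 : ∃ t, chk3 f_pp_022 t 16 32 1 = true :=
  ⟨(l 6), by decide +kernel⟩

def k1_pp_022 : ∃ t, chk3 f_pp_022 t 34 64 1 = true :=
  ⟨(l 6), by decide +kernel⟩

def k2_pp_022 : ∃ t, chk3 f_pp_022 t 35 128 1 = true :=
  ⟨(a (l 6) (a (b (l 6) (c (c (c (c (l 16592184) (a (l 6) (l 16634192))) (l 16671376)) (l 16670856)) (c (l 16670408) (b (l 6) (c (l 16666600) (c (l 16676704) (l 16681504))))))) (c (c (c (c (a (b (c (l 16627848) (l 16627736)) (c (l 16600792) (b (l 16620768) (l 16594032)))) (b (c (a (b (l 16656784) (l 16633160)) (l 16612184)) (l 16638688)) (l 16555976))) (b (a (l 16675880) (l 16638576)) (l 16583264))) (b (a (l 16675616) (l 16617400)) (l 16561888))) (b (b (l 16646120) (l 16635528)) (a (l 16617968) (l 16611840)))) (a (c (b (l 16674400) (b (l 16674392) (l 16604984))) (c (b (l 16652312) (b (l 16654808) (l 16610536))) (b (b (l 6) (c (l 16679280) (c (l 16674288) (l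 16671616)))) (c (l 16629136) (c (l 16635624) (l 16635968)))))) (c (b (b (l 16644584) (l 16662240)) (l 16610784)) (b (c (b (l 16664936) (l 16662040)) (c (b (l 16622384) (l 16663976)) (b (c (b (l 16658144) (l 16667904)) (b (c (l 16636520) (b (b (l 16633072) (l 16656488)) (l 16658960))) (c (l 16665384) (l 16664056)))) (c (l 16682328) (l 16637736))))) (c (l 16613952) (c (l 16642936) (l 16584384))))))))), by decide +kernel⟩

def k3_pp_022 : ∃ t, chk3 f_pp_022 t 35 129 1 = true :=
  ⟨(a (a (l 6) (a (l 6) (a (l 6) (c (a (l 6) (c (c (l 16576808) (l 16617280)) (l 16616648))) (c (l 16581280) (c (l 16639144) (c (l 16651960) (l 16652760)))))))) (c (c (a (c (c (a (b (l 16627456) (l 16563616)) (b (l 16567512) (l 16548696))) (b (a (l 16593544) (c (a (l 16600112) (l 16583136)) (l 16604424))) (a (c (l 16558888) (a (l 16564408) (l 16568424))) (l 16527024)))) (b (l 16565528) (l 16511600))) (c (c (a (l 16459848) (l 16451704)) (l 16525824)) (l 16524768))) (a (b (a (l 16633792) (l 16581848)) (a (b (l 16602864) (l 16555840))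 (l 16561944))) (l 16481496))) (c (a (a (b (l 16636104) (b (l 16588976) (l 16587064))) (b (b (l 16597560) (l 16572432)) (l 16571456))) (c (l 16482872) (l 16488640))) (c (a (b (a (l 16648168) (b (l 16628080) (l 16607640))) (a (l 16575976) (l 16590152))) (l 16522280)) (c (a (b (a (l 16662272) (l 16609880)) (a (l 16589568) (l 16603504))) (l 16534432)) (a (b (a (l 16664016) (a (l 16617912) (l 16608224))) (a (b (l 16621520) (l 16600288)) (l 16602272))) (l 16534952))))))), by decide +kernel⟩

def k4_pp_022 : ∃ t, chk3 f_pp_022 t 34 65 1 = true :=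
  ⟨(b (l 6) (a (l 6) (a (l 6) (a (l 6) (a (l 6) (c (c (c (l 16553112) (l 16449792)) (l 16459768)) (c (l 16533456) (c (l 16559624) (l 16557864))))))))), by decide +kernel⟩

def k5_pp_022 : ∃ t, chk3 f_pp_022 t 35 65 2 = true :=
  ⟨(c (a (a (b (a (l 6) (a (l 6) (c (c (l 16635896) (l 16578152)) (c (l 16565880) (l 16528320))))) (c (b (a (l 16557704) (c (l 16554632) (a (l 16552120) (l 16518592)))) (a (a (l 16546616) (l 16524592)) (l 16442200))) (c (a (a (l 16486528) (l 16469120)) (l 16407936)) (a (b (l 16526088) (c (l 16500144) (a (l 16485912) (l 16468992)))) (b (c (a (l 16511072) (l 16494144)) (l 16495944)) (l 16447944)))))) (c (b (b (a (c (l 16663600) (l 16621152)) (c (c (b (l 16636192) (l 16610296)) (l 16565040)) (l 16539144))) (a (c (a (l 16604656) (l 16579712)) (a (l 16548040) (l 16545848))) (c (l 16529808) (l 16540888)))) (c (a (l 16491424) (l 16391688)) (l 16395192))) (b (c (a (b (l 16563608) (c (l 16509472) (a (l 16494752) (l 16498800)))) (b (c (a (l 16549408) (l 16532472)) (l 16553520)) (l 16436288)))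 (b (a (l 16562736) (l 16553136)) (l 16444424))) (c (c (l 16355720) (l 16362000)) (l 16421464))))) (c (a (b (c (l 16435296) (a (l 16367968) (c (l 16425416) (l 16459160)))) (c (l 16347064) (c (l 16285520) (l 16312720)))) (c (b (a (l 16363376) (l 16334848)) (c (a (l 16327944) (l 16250216)) (l 16159960))) (l 16177472))) (b (l 16379752) (l 16318192)))) (a (b (a (l 16554352) (b (a (l 16566992) (b (l 16570216) (l 16546480))) (a (l 16529336) (l 16502760)))) (a (b (a (l 16512448) (l 16502960)) (a (c (l 16472808) (l 16483448)) (l 16452312))) (l 16430328))) (b (l 16363208) (l 16326816)))), by decide +kernel⟩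

def k6_pp_022 : ∃ t, chk3 f_pp_022 t 35 65 3 = true :=
  ⟨(c (a (b (a (l 16574240) (b (a (l 16582912) (b (l 16584264) (l 16542528))) (a (a (l 16536424) (l 16527160)) (l 16524168)))) (a (b (a (l 16541824) (l 16490080)) (a (l 16514672) (l 16487656))) (l 16460800))) (b (l 16380744) (l 16354992))) (c (a (b (a (l 16601496) (b (a (l 16610224) (l 16558080)) (a (l 16518032) (l 16553312)))) (a (b (a (l 16570672) (l 16518672)) (a (l 16518048) (l 16511536))) (l 16485632))) (l 16265064)) (a (b (a (l 16584352) (b (a (l 16615552) (c (l 16588136) (b (l 16598296) (l 16577072)))) (a (c (l 16585640) (b (l 16595968) (l 16574744))) (l 16554360)))) (a (b (a (l 16569224) (c (l 16562112) (b (l 16572592) (l 16551376)))) (a (c (l 16538536) (l 16495096)) (l 16508232))) (l 16441384))) (c (l 16353192) (l 16309032))))), by decide +kernel⟩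

def k7_pp_022 : ∃ t, chk3 f_pp_022 t 16 66 1 = true :=
  ⟨(l 6), by decide +kernel⟩

def k8_pp_022 : ∃ t, chk3 f_pp_022 t 34 66 1 = true :=
  ⟨(a (a (l 6) (b (l 6) (a (l 6) (c (c (c (l 16380600) (l 16435600)) (c (c (l 16478696) (l 16463304)) (l 16434616))) (c (l 16459408) (l 16463848)))))) (c (c (c (b (a (l 16452264) (b (a (l 16493360) (l 16502240)) (l 16411440))) (a (b (a (l 16407640) (l 16416448)) (a (l 16354024) (l 16366296))) (l 16370344))) (a (b (l 16440576) (a (l 16383240) (b (c (l 16454040) (c (l 16474824) (l 16417400))) (l 16419536)))) (b (c (a (l 16470576) (b (a (l 16536768) (l 16484904)) (l 16475864))) (a (b (l 16525176) (a (l 16460168) (l 16462992))) (l 16358144))) (c (l 16275600) (l 16301272))))) (c (a (b (a (l 6) (c (l 16492032) (l 16456040))) (c (a (b (l 16483216) (c (l 16444560) (l 16454000))) (l 16345800)) (a (a (l 16418312) (b (l 16438040) (l 16388064))) (a (b (l 16405720) (l 16386416)) (l 16388312))))) (b (c (a (b (l 16475632) (c (l 16451904) (a (l 16440216) (l 16423280)))) (b (c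 (a (l 16460600) (l 16443672)) (l 16445456)) (l 16401208))) (b (l 16432352) (l 16416848))) (c (a (l 16374000) (l 16323624)) (l 16345384)))) (b (a (l 16466112) (b (l 16446784) (l 16411808))) (a (a (l 16424920) (l 16386184)) (l 16360776))))) (c (b (a (l 16498248) (b (a (l 16506816) (l 16476176)) (a (l 16416000) (l 16452032)))) (a (b (a (l 16469504) (c (l 16451992) (l 16468640))) (c (l 16420016) (l 16348240))) (l 16387464))) (b (a (c (l 16515264) (l 16511864)) (c (b (l 16456704) (l 16414576)) (b (a (l 16522584) (c (l 16514912) (l 16471568))) (a (c (l 16491232) (l 16468928)) (l 16461808))))) (a (b (a (l 16474960) (c (l 16469040) (b (l 16477904) (l 16456872)))) (a (c (l 16445408) (l 16400456)) (l 16415096))) (l 16348656)))))), by decide +kernel⟩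

def k9_pp_022 : ∃ t, chk3 f_pp_022 t 35 66 1 = true :=
  ⟨(c (c (a (c (a (c (l 16383192) (a (l 16372952) (c (l 16368488) (l 16318024)))) (c (a (l 16312536) (l 16171640)) (l 16153896))) (a (c (a (l 16255440) (l 16298016)) (a (c (l 16340224) (l 16214240)) (c (l 16177368) (l 16298088)))) (c (c (a (l 16288888) (l 16126728)) (a (l 16162184) (l 16225632))) (l 16246568)))) (c (a (c (l 16170112) (c (a (l 16219352) (l 16099792)) (a (l 16112928) (l 16155936)))) (c (a (c (l 16152320) (l 16087336)) (c (l 16033416) (l 16088936))) (l 16106504))) (l 16082240))) (a (l 16132736) (l 16081112))) (c (b (l 16131232) (l 16024544)) (c (l 16128936) (c (l 16126144) (l 16082096))))), by decide +kernel⟩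

def k10_pp_022 : ∃ t, chk3 f_pp_022 t 16 67 1 = true :=
  ⟨(b (l 6) (a (l 6) (a (l 6) (a (l 6) (a (l 6) (a (l 6) (c (c (l 16298680) (c (l 16366680) (l 16346368))) (c (l 16354280) (l 16370840))))))))), by decide +kernel⟩

def k11_pp_022 : ∃ t, chk3 f_pp_022 t 17 67 2 = true :=
  ⟨(a (c (a (a (c (b (l 16318696) (a (l 16197088) (l 16247448))) (b (l 16363280) (a (l 16295216) (l 16289608)))) (b (c (b (a (l 16338320) (l 16277456)) (a (l 16313152) (l 16297664))) (b (l 16393704) (l 16359592))) (l 16263696))) (c (l 16206936) (a (l 16155672) (c (l 16122840) (l 16108032))))) (a (c (a (b (l 16421880) (a (l 16373520) (b (l 16395144) (l 16352360)))) (b (a (c (l 16425288) (b (l 16454752) (a (l 16438976) (l 16425984)))) (c (b (l 16401928) (l 16401112)) (b (l 16407312) (l 16385304)))) (c (l 16334272) (l 16247088)))) (a (c (b (l 16377976) (a (b (l 16424936) (a (l 16407704) (l 16397368))) (b (l 16339832) (l 16359632)))) (b (a (l 6) (l 16407696)) (a (b (l 16398136) (c (l 16380256) (l 16339592))) (b (c (l 16330584) (l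 16369512)) (l 16329064))))) (b (c (a (b (l 16421832) (c (l 16403928) (l 16342496))) (b (c (l 16333376) (l 16393344)) (l 16352992))) (b (l 16404488) (l 16369568))) (c (l 16199144) (l 16297616))))) (c (a (c (l 16118936) (a (l 16236392) (l 16227960))) (c (a (l 16179944) (l 16172176)) (l 16192824))) (l 16241144)))) (c (a (c (a (c (l 16163704) (a (l 16200272) (l 16126976))) (c (c (l 16036088) (a (l 16142024) (l 16097944))) (l 16088456))) (a (c (l 16097880) (c (l 16064368) (l 16094632))) (c (c (l 15969408) (l 15999552)) (l 16042440)))) (c (c (a (l 16017480) (c (a (l 15936696) (l 15755864)) (a (l 15916336) (l 15876968)))) (a (c (l 15854976) (l 15905976)) (l 15898064))) (l 15941296))) (l 15799968))), by decide +kernel⟩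

def k12_pp_022 : ∃ t, chk3 f_pp_022 t 17 67 3 = true :=
  ⟨(a (a (c (b (a (l 16418800) (b (c (l 16399128) (l 16427416)) (c (l 16341152) (l 16385808)))) (a (b (a (l 16386328) (l 16377080)) (a (l 16354608) (l 16328184))) (l 16304088))) (b (a (l 16417872) (b (a (l 16428816) (c (l 16421728) (l 16397864))) (a (b (l 16408024) (l 16387328)) (l 16369168)))) (a (b (a (l 16382384) (l 16331088)) (a (c (l 16350400) (l 16347664)) (l 16322944))) (l 16298960)))) (c (l 16087240) (l 16062392))) (c (c (l 15903960) (l 16050912)) (c (l 16045240) (l 15976584)))), by decide +kernel⟩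

def k13_pp_022 : ∃ t, chk3 f_pp_022 t 9 32 2 = true :=
  ⟨(a (b (a (b (a (c (l 16456304) (l 16454224)) (a (b (l 16518496) (l 16449016)) (l 16439544))) (a (c (l 16401312) (l 16355648)) (c (l 16337728) (a (l 16301272) (l 16320912))))) (b (c (b (l 16453384) (l 16386512)) (l 16310352)) (a (c (l 16302864) (l 16296600)) (b (l 16300872) (a (l 16243240) (a (l 16231792) (c (l 16237216) (l 16230144)))))))) (a (a (c (b (b (l 16340256) (l 16253472)) (l 16162168)) (b (l 16288200) (l 16190976))) (c (b (a (b (l 16247064) (l 16182120)) (l 16194320)) (a (l 16092032) (l 16072408))) (b (c (l 16160760) (l 16204592)) (l 16087800)))) (a (b (c (l 16151232) (l 16170776)) (c (b (l 16080272) (a (l 16030280) (a (l 16020360) (l 16023288)))) (c (l 16057016) (l 16061776)))) (b (a (c (b (l 16181360) (a (l 16122288) (b (l 16131840) (l 16112360)))) (b (l 16177616) (l 16125712))) (c (b (a (l 16179952) (l 16211152)) (l 16182032)) (b (a (l 16176168) (l 16207928)) (l 16183592)))) (b (a (c (a (b (l 16079080) (l 16061680)) (l 16104432))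 (l 16095272)) (l 16185608)) (c (l 16133360) (l 16140048))))))) (b (a (a (b (a (b (l 16408568) (a (l 16346776) (c (l 16351280) (l 16345256)))) (b (a (c (l 16366120) (l 16403120)) (l 16436024)) (l 16404464))) (b (a (a (c (l 16294344) (l 16287256)) (l 16321752)) (l 16398496)) (c (l 16344816) (l 16339768)))) (b (l 16455104) (l 16444312))) (b (a (l 16347704) (l 16293024)) (a (l 16379648) (l 16305752)))) (c (a (a (b (l 16296320) (l 16338192)) (l 16436624)) (a (l 16346200) (l 16318472))) (a (a (l 16261664) (l 16425768)) (b (l 16225216) (l 16255256)))))), by decide +kernel⟩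

def k14_pp_022 : ∃ t, chk3 f_pp_022 t 9 64 6 = true :=
  ⟨(a (b (a (a (b (l 16529944) (l 16499872)) (b (l 16480472) (l 16430656))) (b (l 16444736) (l 16375680))) (a (a (c (l 16376584) (l 16381328)) (c (l 16267632) (l 16313256))) (b (l 16310112) (a (l 16266760) (a (l 16242816) (l 16233664)))))) (b (a (a (b (a (l 16401112) (l 16375248)) (a (l 16340296) (l 16397272))) (b (l 16496896) (l 16491264))) (b (l 16246192) (l 16252504))) (a (a (b (a (a (l 16283448) (l 16315288)) (l 16394208)) (l 16323624)) (l 16448448)) (a (l 16386360) (l 16286480))))), by decide +kernel⟩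

def k15_pp_022 : ∃ t, chk3 f_pp_022 t 18 64 7 = true :=
  ⟨(b (c (a (b (a (l 16508240) (l 16415384)) (a (l 16480856) (l 16431112))) (b (l 16420944) (l 16375400))) (b (c (a (b (a (l 16588680) (l 16515784)) (a (l 16553688) (l 16481376))) (b (l 16457624) (l 16424024))) (b (a (c (a (c (l 16568008) (l 16526664)) (b (l 16524128) (l 16506832))) (b (a (b (b (a (l 16620400) (l 16567144)) (l 16578296)) (l 16571600)) (b (b (a (l 16522000) (l 16517952)) (l 16503904)) (l 16498048))) (a (l 16560032) (l 16486664)))) (c (b (l 16465560) (l 16448656)) (b (c (l 16465616) (b (b (a (l 16490016) (l 16453368)) (l 16446360)) (l 16461776))) (l 16449328)))) (a (a (c (l 16578520) (l 16538584)) (c (l 16484800) (l 16486544))) (c (l 16427168) (l 16428768))))) (a (c (a (l 16530136) (l 16437576)) (a (l 16450176) (c (l 16443096) (l 16442976)))) (c (l 16381320) (c (l 16386512) (l 16386312)))))) (a (c (a (l 16434824) (l 16344576)) (c (a (l 16467072) (l 16354912)) (a (l 16446168) (l 16354536)))) (c (a (l 16307720) (b (l 16300520) (l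 16251840))) (c (a (l 16317608) (b (l 16311320) (l 16241040))) (a (l 16317112) (b (l 16311632) (c (l 16261544) (l 16197352)))))))), by decide +kernel⟩

def k16_pp_022 : ∃ t, chk3 f_pp_022 t 19 64 7 = true :=
  ⟨(b (c (a (b (a (a (l 16397808) (b (l 16418112) (l 16403416))) (l 16453960)) (a (a (a (l 16337088) (l 16338672)) (l 16397304)) (l 16472520))) (b (a (l 16399360) (l 16273712)) (l 16201896))) (b (a (c (a (b (a (l 16412920) (a (l 16401656) (l 16426336))) (a (l 16380152) (l 16382536))) (b (l 16475400) (l 16474168))) (b (c (a (a (l 16391960) (b (l 16397392) (l 16410240))) (l 16433968)) (a (b (b (c (a (l 16424416) (l 16419424)) (b (a (l 16426400) (a (l 16413088) (c (l 16426288) (l 16384408)))) (a (l 16421896) (a (l 16408616) (l 16425200))))) (a (l 16415528) (a (l 16402368) (l 16424392)))) (a (l 16404672) (a (l 16372824) (l 16425288)))) (b (b (b (b (l 16454832) (l 16454240)) (l 16453568)) (l 16453936)) (l 16454968)))) (a (a (c (l 16383080) (l 16384560)) (c (l 16406488) (c (l 16409056) (l 16388016))))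 (c (l 16498616) (l 16458544))))) (c (b (l 16196432) (l 16218568)) (b (c (a (l 16311144) (l 16267216)) (a (b (b (b (a (l 16451536) (l 16359064)) (l 16375248)) (l 16374656)) (l 16373072)) (b (b (b (l 16266240) (l 16267832)) (l 16267320)) (l 16265904)))) (c (l 16233656) (a (l 16388960) (l 16261152)))))) (a (c (a (a (l 16345072) (l 16403176)) (l 16479416)) (a (a (c (l 16350016) (a (l 16347320) (l 16348880))) (c (l 16408272) (l 16408184))) (l 16441328))) (c (l 16232144) (a (l 16299608) (l 16256568)))))) (a (c (a (a (b (l 16267576) (l 16305032)) (l 16407608)) (l 16482968)) (a (c (a (b (a (l 16300552) (l 16332952)) (l 16315400)) (l 16417720)) (a (b (a (l 16279864) (l 16333392)) (l 16313344)) (l 16417808))) (c (l 16494048) (l 16473944)))) (c (l 16208088) (c (l 16170128) (l 16166984))))), by decide +kernel⟩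

def k17_pp_022 : ∃ t, chk3 f_pp_022 t 9 65 3 = true :=
  ⟨(a (c (a (a (l 16103192) (b (l 16195440) (l 16110496))) (a (b (l 16182328) (l 16081592)) (b (a (l 16143480) (b (l 16203288) (l 16197352))) (a (l 16116992) (l 16213696))))) (a (c (a (l 16206792) (l 16119328)) (a (l 16185424) (c (l 16184648) (l 16160568)))) (c (a (b (l 16202376) (l 16057656)) (b (a (l 16162936) (b (l 16223144) (l 16219592))) (a (b (l 16134920) (l 16129256)) (l 16232920)))) (c (a (l 16068936) (b (a (l 16188064) (l 16207816)) (l 16058712))) (a (b (l 16203568) (l 16073512)) (b (a (b (l 16207776) (l 16158760)) (b (a (l 16205976) (l 16238936)) (l 16218728))) (a (b (l 16130544) (l 16123376)) (l 16229440)))))))) (c (a (l 16260064) (a (l 16355520) (l 16258256))) (a (c (l 16259672) (a (l 16300648) (l 16472744))) (c (l 16084160) (a (l 16316680) (l 16215096)))))), by decide +kernel⟩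

def k18_pp_022 : ∃ t, chk3 f_pp_022 t 18 33 1 = true :=
  ⟨(c (a (a (b (c (b (l 16066792) (l 15935784)) (l 15990040)) (c (b (l 15855032) (a (l 15791384) (b (l 15752752) (l 15712480)))) (b (l 15883936) (l 15790976)))) (b (b (c (l 15967944) (l 15980752)) (a (c (l 15868744) (l 15891000)) (c (b (l 15876288) (a (l 15827368) (c (l 15826512) (l 15834616)))) (l 15877624)))) (a (b (a (l 15790248) (b (l 15796608) (c (l 15745624) (l 15772184)))) (a (b (c (l 15715960) (l 15742072)) (l 15720816)) (l 15756888))) (b (b (c (a (l 15745464) (l 15820360)) (l 15833944)) (l 15818856)) (l 15837632))))) (a (b (a (b (b (l 15978712) (a (l 15929128) (c (l 15924624) (l 15938864)))) (c (b (a (c (l 15875000) (l 15878048)) (l 15909464)) (l 15890384)) (l 15919656))) (b (c (b (a (l 15973952) (l 16006080)) (l 15983240)) (b (l 15960200) (l 15998336))) (l 15984384))) (l 15881064)) (c (b (l 16124352) (l 16180792)) (l 16126392)))) (a (c (a (b (l 15976440) (b (l 15904576) (l 15801888))) (b (b (l 16009528) (a (l 15917080) (l 15903072)))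 (b (a (a (l 15822600) (l 15811152)) (l 15855704)) (a (l 15769176) (l 15862944))))) (a (b (l 15914928) (b (l 15894496) (l 15787704))) (b (b (c (l 16018688) (l 16011464)) (a (l 15911600) (b (l 15919664) (l 15871704)))) (b (a (l 15806880) (l 15844736)) (a (l 15712464) (l 15849856)))))) (c (b (a (b (a (l 15990864) (l 15990576)) (a (l 15861592) (l 16043648))) (l 16193752)) (l 16020784)) (b (a (c (b (a (l 15999528) (l 16041592)) (l 15997312)) (b (a (l 15992232) (b (l 16034656) (l 16027752))) (a (l 15938504) (l 16038864)))) (l 16113320)) (l 16035488))))), by decide +kernel⟩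

def k19_pp_022 : ∃ t, chk3 f_pp_022 t 19 33 1 = true :=
  ⟨(c (a (a (c (l 16223616) (l 16314168)) (b (l 16400440) (l 16475904))) (b (c (b (l 16269288) (l 16231864)) (l 16176544)) (a (l 16311040) (b (a (l 16279568) (l 16208680)) (a (l 16253880) (l 16213504)))))) (c (a (b (l 16280240) (l 16338840)) (a (l 16168016) (b (l 16203720) (b (l 16167448) (l 16148128))))) (a (b (l 16268440) (l 16361416)) (b (a (l 16298448) (l 16180216)) (a (l 16317208) (b (l 16153752) (l 16158504))))))), by decide +kernel⟩

def k20_pp_022 : ∃ t, chk3 f_pp_022 t 32 17 2 = true :=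
  ⟨(a (b (l 6) (b (c (c (l 16087784) (l 16111256)) (l 16116216)) (b (a (c (l 16050032) (l 16048112)) (c (b (a (l 16061800) (l 16053088)) (l 15998728)) (b (l 16051320) (l 16011568)))) (a (c (b (a (l 16023248) (l 16014736)) (l 15980064)) (b (l 16008192) (l 15968600))) (l 15938432))))) (b (a (l 6) (b (l 6) (c (l 16165592) (l 16198472)))) (b (c (b (a (l 16120816) (b (a (l 16130584) (l 16121536)) (l 16048768))) (a (c (b (l 16084528) (l 16052488)) (b (l 16099544) (l 16061952))) (l 16018616))) (a (b (l 16134680) (b (l 16094320) (l 16054416))) (b (a (l 16126720) (l 16109480)) (l 16019136)))) (c (l 15810504) (l 15885544))))), by decide +kernel⟩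

def k21_pp_022 : ∃ t, chk3 f_pp_022 t 33 17 2 = true :=
  ⟨(b (c (b (a (c (l 16210304) (l 16201064)) (a (b (l 16253232) (a (b (l 16228880) (l 16204432)) (l 16180904))) (b (a (b (l 16269160) (l 16244616)) (b (l 16265288) (l 16223544))) (l 16163264)))) (a (a (b (l 16182928) (a (l 16126424) (l 16129752))) (b (a (b (l 16192656) (l 16168304)) (b (l 16185744) (l 16144192))) (l 16086096))) (l 16024264))) (a (b (c (l 16274632) (l 16219992)) (a (b (l 16222608) (b (a (l 16189624) (l 16183208)) (l 16083304))) (b (c (b (l 16226864) (l 16190952)) (a (l 16229008) (l 16220272))) (l 16120616)))) (b (a (b (l 16327720) (b (c (l 16270728) (l 16251192)) (c (l 16236512) (l 16254360)))) (c (b (a (l 16308672) (l 16305272)) (l 16219944)) (b (c (a (l 16353968) (l 16353544)) (a (b (l 16392736) (c (l 16365496) (l 16366072))) (b (c (l 16386912) (l 16366832)) (l 16328656)))) (c (l 16262128) (l 16198000))))) (c (l 15983336) (a (l 16138688) (c (l 16095216) (l 15964440))))))) (c (b (a (l 15778896) (c (l 15836560) (l 15855016))) (c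 (a (l 15762256) (l 15641552)) (l 15516984))) (a (a (l 15752008) (l 15590688)) (c (l 15575128) (a (l 15804016) (c (l 15764464) (b (l 15867432) (l 15650168)))))))), by decide +kernel⟩

def k22_pp_022 : ∃ t, chk3 f_pp_022 t 16 68 3 = true :=
  ⟨(a (l 6) (c (a (a (l 6) (a (l 6) (b (l 6) (c (l 16250672) (l 16282584))))) (c (a (c (b (l 16348224) (a (b (l 16339752) (l 16307432)) (b (a (l 16338296) (l 16322112)) (l 16277088)))) (b (a (l 6) (l 16335056)) (a (c (l 16246040) (b (l 16301760) (l 16248304))) (b (c (l 16272848) (l 16284480)) (l 16240984))))) (c (b (a (c (l 16358896) (b (l 16350688) (l 16297256))) (b (c (l 16321512) (l 16333312)) (l 16289816))) (a (l 16175864) (l 16203232))) (b (b (l 16335176) (l 16294032)) (l 16212672)))) (a (b (l 16327152) (b (l 16285224) (l 16243952))) (b (b (l 16332792) (l 16291400)) (l 16209520))))) (a (c (l 16300072) (l 16276440)) (b (a (l 16324208) (b (a (l 16335648) (c (l 16326528) (l 16323784))) (a (c (l 16302608) (l 16278864)) (l 16276424)))) (a (c (b (l 16281624) (l 16240000))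 (b (a (l 16284824) (c (l 16275928) (l 16273896))) (a (c (l 16251776) (l 16249504)) (l 16225104)))) (l 16122280)))))), by decide +kernel⟩

def k23_pp_022 : ∃ t, chk3 f_pp_022 t 16 69 3 = true :=
  ⟨(a (a (l 6) (a (l 6) (a (l 6) (a (l 6) (c (c (l 16205464) (c (l 16219176) (l 16229392))) (c (l 16203584) (l 16199592))))))) (c (a (c (a (b (l 16241784) (a (l 16182040) (l 16175728))) (a (b (a (l 16254424) (b (l 16275416) (l 16240304))) (l 16156072)) (c (l 16126336) (b (b (a (l 16282936) (l 16269488)) (l 16222808)) (l 16136248))))) (a (c (b (l 16255344) (a (l 16202624) (b (a (l 16225568) (l 16214920)) (l 16166792)))) (b (a (l 6) (l 16235856)) (a (c (b (l 16220176) (l 16166768)) (b (l 16202152) (l 16148688))) (b (c (l 16173800) (l 16185080)) (l 16141624))))) (c (b (a (c (b (l 16274512) (l 16242088)) (b (l 16252248) (l 16198776))) (b (c (l 16223616) (l 16235064)) (l 16191584))) (a (c (l 16163544) (l 16141048)) (l 16104656))) (b (b (l 16236448) (l 16195208)) (l 16113536))))) (c (a (c (l 15959960) (a (c (l 16158192)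 (l 16132968)) (l 16096792))) (c (a (l 15941192) (l 16032256)) (l 16040560))) (l 16070312))) (a (b (a (c (l 16227056) (l 16224096)) (c (b (l 16233456) (l 16191952)) (b (a (l 16236344) (c (l 16227568) (l 16225048))) (a (c (l 16203328) (l 16200520)) (l 16176856))))) (a (c (b (l 16185152) (l 16143784)) (b (a (l 16187560) (c (l 16179032) (l 16175928))) (a (c (l 16154696) (l 16151264)) (l 16128296)))) (c (l 16109760) (l 16105528)))) (c (l 16064848) (l 15892352))))), by decide +kernel⟩

def k24_pp_022 : ∃ t, chk3 f_pp_022 t 32 35 6 = true :=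
  ⟨(a (b (l 16106488) (b (a (l 16037064) (a (l 16029384) (l 15906368))) (a (b (l 15996504) (l 15956248)) (l 15919992)))) (b (a (b (l 16131528) (a (b (l 16092736) (l 16060752)) (b (l 16025088) (l 16038856)))) (c (b (a (l 16124344) (l 16111008)) (l 16017784)) (b (a (l 16093560) (c (l 16121896) (a (l 16078672) (l 16088400)))) (c (l 16024888) (a (l 16047416) (l 16022144)))))) (c (l 15879792) (a (l 15910944) (c (l 15853832) (l 15666864)))))), by decide +kernel⟩

def k25_pp_022 : ∃ t, chk3 f_pp_022 t 32 70 7 = true :=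
  ⟨(a (a (l 6) (a (l 6) (a (l 6) (c (l 16104480) (c (l 16106360) (l 16096880)))))) (c (a (c (b (l 16135448) (a (l 16080488) (a (l 16056688) (l 16071712)))) (b (a (l 6) (l 16094920)) (a (a (c (l 16091240) (l 16066528)) (c (l 16046712) (l 16033728))) (c (b (a (l 16102176) (l 16084872)) (l 16044288)) (l 16056928))))) (c (b (a (a (c (l 16153024) (l 16121320)) (c (l 16103792) (l 16105944))) (c (b (a (l 16155808) (l 16135824)) (l 16098088)) (l 16108096))) (c (a (l 16052360) (l 16010944)) (l 16002272))) (b (b (l 16135408) (l 16094096)) (l 16012160)))) (b (a (l 16125776) (c (b (l 16132992) (l 16091504)) (b (a (l 16134960) (l 16126536)) (a (l 16080768) (l 16075720))))) (a (c (b (l 16084024) (l 16042688)) (b (a (l 16085104) (l 16034952)) (a (c (l 16053136) (l 16053560)) (l 16026192)))) (l 15987112))))), by decide +kernel⟩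

def k26_pp_022 : ∃ t, chk3 f_pp_022 t 32 71 7 = true :=
  ⟨(a (c (a (b (l 16028800) (b (l 15966784) (l 15926016))) (b (a (b (l 16041816) (l 16009592)) (c (l 16008008) (b (a (l 16044016) (l 16036184)) (l 15987560)))) (c (l 15914312) (l 15916360)))) (a (b (a (l 6) (a (l 6) (a (l 6) (c (l 16027664) (l 16024928))))) (c (a (b (l 15989672) (l 15957416)) (b (a (l 15987496) (l 15980904)) (l 15932744))) (a (c (c (l 15970584) (l 15928512)) (a (c (l 15973456) (a (l 15973592) (l 15971728))) (b (l 15985320) (l 15949960)))) (c (c (a (l 15963416) (l 15953184)) (b (l 15939336) (l 15931336))) (l 15952912))))) (c (a (c (b (b (l 16043408) (l 16011016)) (l 15932048)) (b (b (l 16042720) (a (l 16017424) (l 16008672))) (l 15931128))) (b (c (b (a (l 16046256) (l 16036424)) (l 15988776)) (l 16005208)) (l 15836368))) (b (b (a (l 16035032) (c (l 16028176) (l 16028888))) (a (c (l 16003160) (l 16004184)) (l 15976464))) (l 15904976))))) (c (c (a (l 15851088) (c (a (l 15879608) (l 15839008)) (l 15808576))) (a (c (a (l 15935352)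 (l 15899248)) (l 15805600)) (l 15838880))) (c (l 15848328) (l 15777936)))), by decide +kernel⟩

def k27_pp_022 : ∃ t, chk3 f_pp_022 t 33 35 3 = true :=
  ⟨(c (a (c (c (l 15736208) (a (l 15912752) (b (l 15915456) (l 15754888)))) (c (a (b (l 15950408) (l 15807648)) (c (a (l 15857280) (l 15803200)) (l 15668072))) (a (a (c (l 15831792) (l 15792200)) (l 15693912)) (l 15827368)))) (c (c (a (b (l 15880808) (l 15702384)) (c (a (l 15760264) (l 15703288)) (l 15651368))) (a (c (a (l 15819464) (l 15763136)) (l 15648640)) (l 15705480))) (l 15668488))) (c (b (l 15734656) (l 15592616)) (a (b (c (l 15965064) (l 15938888)) (c (l 15672880) (l 15727696))) (b (l 15743920) (l 15516296))))), by decide +kernel⟩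

def k28_pp_022 : ∃ t, chk3 f_pp_022 t 34 17 4 = true :=
  ⟨(b (a (b (l 15950776) (l 15775568)) (c (l 15767256) (b (a (l 16019704) (c (l 15989184) (l 15994344))) (a (l 15909200) (c (l 15860048) (l 15843232)))))) (a (b (c (l 15729080) (l 15763928)) (c (b (l 15587544) (a (l 15512520) (b (l 15491112) (l 15448400)))) (a (l 15574776) (l 15545792)))) (a (b (c (l 15666944) (c (l 15706928) (l 15724760))) (a (b (l 15553336) (b (l 15489584) (l 15478400))) (b (c (l 15526968) (c (l 15558848) (l 15568600))) (c (l 15502168) (l 15532432))))) (b (c (l 15642352) (c (a (l 15685848) (b (l 15709112) (b (l 15638928) (l 15599920)))) (a (l 15677232) (l 15625000)))) (c (b (b (l 15556784) (l 15555224)) (l 15570592)) (c (a (l 15574008) (l 15600744)) (a (b (l 15556560) (l 15559424)) (l 15555128)))))))), by decide +kernel⟩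

def k29_pp_022 : ∃ t, chk3 f_pp_022 t 34 17 5 = true :=
  ⟨(b (a (c (a (b (l 16233840) (l 16027928)) (c (b (l 16183032) (l 15983392)) (b (l 16032168) (a (l 16000824) (l 15950944))))) (a (c (b (a (l 16192904) (l 16187736)) (l 15948312)) (b (c (l 16100480) (l 16126512)) (l 15891664))) (c (b (c (l 16090880) (l 16077280)) (l 15850176)) (l 15961408)))) (c (c (a (b (l 16002416) (l 15762680)) (b (a (l 16022848) (l 15974032)) (c (l 15810064) (l 15795800)))) (a (b (l 15886664) (c (l 15876856) (l 15860376))) (l 15827632))) (b (l 16033256) (l 15818648)))) (a (c (a (l 15687336) (b (c (l 15775280) (l 15757736)) (a (l 15572232) (c (l 15561296) (l 15529976))))) (a (c (b (l 15812424) (l 15598248)) (b (l 15775792) (l 15560672))) (c (b (l 15716384) (a (l 15525120) (l 15482024))) (l 15527376)))) (c (b (a (c (l 15703392) (l 15658160)) (c (a (l 15621864) (b (l 15627208) (l 15529488))) (l 15583208))) (a (c (b (a (l 15575296) (l 15529936)) (a (l 15504784) (l 15499248))) (b (a (l 15521520) (l 15481288)) (a (l 15450704) (l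 15450472)))) (c (a (b (l 15498808) (l 15501696)) (l 15506816)) (l 15488176)))) (b (l 15606120) (b (a (l 15481408) (l 15475208)) (l 15458808)))))), by decide +kernel⟩

def k30_pp_022 : ∃ t, chk3 f_pp_022 t 35 34 4 = true :=
  ⟨(a (a (c (a (l 15749816) (c (l 15868224) (a (l 15745840) (l 15684584)))) (b (c (l 15966016) (a (l 15949776) (l 15901592))) (c (l 15775784) (l 15611288)))) (a (c (c (b (l 15944424) (l 15757544)) (l 15728416)) (c (c (l 15792104) (l 15687720)) (l 15768832))) (c (b (c (l 15889288) (l 15865880)) (c (b (l 15770344) (b (l 15701376) (c (l 15653056) (l 15661584)))) (l 15682720))) (b (l 15811184) (b (l 15690384) (a (l 15606384) (l 15595064))))))) (c (b (a (c (l 15827648) (c (l 15727928) (l 15778440))) (c (a (c (l 15748392) (l 15728040)) (b (l 15739560) (b (l 15670192) (a (l 15634672) (l 15604704))))) (b (l 15756336) (l 15668024)))) (b (a (a (a (l 15710984) (l 15679424)) (c (l 15664304) (a (l 15631616) (l 15618232)))) (c (a (b (c (l 15642872) (a (l 15624736) (l 15591632))) (l 15605536)) (l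 15611720)) (l 15608240))) (a (c (a (l 15660072) (l 15643760)) (a (c (l 15617304) (b (l 15596880) (l 15568592))) (l 15586552))) (c (l 15654856) (l 15645064))))) (b (b (l 15797784) (l 15706728)) (b (a (l 15645816) (l 15638328)) (l 15611368))))), by decide +kernel⟩

def k31_pp_022 : ∃ t, chk3 f_pp_022 t 35 35 4 = true :=
  ⟨(a (c (c (b (a (b (l 15648672) (l 15610952)) (a (b (b (l 15631600) (l 15624512)) (l 15665192)) (l 15677872))) (a (l 15639584) (l 15650440))) (b (a (a (b (l 15677184) (l 15617824)) (b (a (l 15661144) (l 15648912)) (l 15634528))) (b (a (l 15634032) (l 15618808)) (l 15645848))) (a (l 15606800) (l 15678616)))) (b (a (c (b (a (l 15666536) (l 15614032)) (a (b (l 15606208) (l 15596424)) (l 15591032))) (b (a (l 15614688) (c (l 15577504) (l 15569728))) (a (b (l 15549488) (l 15536936)) (l 15545920)))) (c (b (a (b (l 15583232) (l 15555032)) (l 15582216)) (l 15602312)) (l 15581264))) (c (a (l 15617192) (l 15629864)) (l 15569736)))) (c (c (a (l 15710392) (b (l 15694536) (l 15745896))) (a (b (l 15643384)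 (l 15689248)) (l 15705656))) (l 15676280))), by decide +kernel⟩

def k32_pp_022 : ∃ t, chk3 f_pp_022 t 35 17 5 = true :=
  ⟨(b (b (a (l 15790928) (a (l 15799440) (c (l 15736072) (l 15723304)))) (a (b (l 15744424) (a (l 15672704) (l 15615312))) (b (a (l 15655096) (b (l 15646448) (l 15642416))) (a (l 15607848) (l 15655592))))) (b (a (a (b (l 15573224) (l 15523352)) (l 15570840)) (l 15651792)) (l 15626664))), by decide +kernel⟩

def k33_pp_022 : ∃ t, chk3 f_pp_022 t 17 17 3 = true :=
  ⟨(b (a (c (b (l 15846616) (l 15704984)) (c (b (l 15985440) (l 15861840)) (b (a (l 16071408) (l 16016272)) (l 15645136)))) (a (c (b (l 15897096) (l 15638536)) (b (l 15801232) (c (l 15667136) (l 15615976)))) (b (c (l 15747832) (b (l 15806960) (l 15658408))) (c (b (a (l 15641232) (l 15633216)) (l 15616000)) (b (a (l 15625456) (c (l 15619240) (l 15609488))) (c (l 15601824) (l 15591376))))))) (c (a (b (a (l 15716760) (l 15486928)) (a (b (l 15553912) (l 15450480)) (b (a (l 15465432) (l 15459152)) (l 15442568)))) (b (a (b (a (l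 15553480) (l 15546312)) (l 15529392)) (l 15633528)) (l 15608112))) (a (b (c (a (l 15703896) (l 15577312)) (a (l 15694448) (b (l 15619176) (l 15511720)))) (a (c (l 15487168) (b (l 15526328) (l 15377320))) (c (b (l 15453792) (l 15426176)) (b (a (l 15435416) (l 15428704)) (l 15410600))))) (b (a (c (b (l 15542512) (l 15514104)) (b (a (l 15527064) (l 15519536)) (l 15501376))) (l 15617688)) (c (l 15593984) (l 15579968)))))), by decide +kernel⟩

def k34_pp_022 : ∃ t, chk3 f_pp_022 t 9 17 2 = true :=
  ⟨(a (a (b (a (b (c (a (b (a (l 15713240) (l 15688912)) (a (b (l 15653160) (l 15645552)) (l 15667592))) (b (b (a (l 15684600) (l 15692480)) (l 15690976)) (l 15710048))) (a (b (l 15727856) (b (l 15683072) (l 15680104))) (c (l 15723328) (l 15710128)))) (c (l 15720528) (l 15732048))) (c (l 15711424) (b (l 15814200) (l 15876184)))) (c (a (b (l 15769320) (l 15811672)) (b (l 15910552) (l 15952056))) (a (l 15783560) (l 15926680)))) (b (c (l 15982560) (b (l 16027816) (l 16088408))) (a (c (l 15968544) (l 16137048)) (b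 (l 16179056) (c (b (l 16309160) (l 16282704)) (a (l 16305872) (l 16364136))))))) (b (a (a (c (l 16352048) (l 16336264)) (b (l 16408232) (c (b (l 16466216) (l 16412352)) (a (l 16505968) (l 16302056))))) (a (b (b (a (l 16395720) (l 16218544)) (a (l 16264904) (l 16244264))) (c (l 16392736) (l 16334256))) (c (l 16325600) (b (l 16242344) (l 16316760))))) (a (b (a (c (b (l 16427616) (l 16383136)) (l 16368184)) (c (l 16501600) (l 16504528))) (c (l 16349888) (l 16434624))) (c (b (l 16392632) (l 16457800)) (l 16370952))))), by decide +kernel⟩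

def k35_pp_022 : ∃ t, chk3 f_pp_022 t 9 17 3 = true :=
  ⟨(a (a (b (b (a (c (b (a (l 15728648) (l 15719816)) (l 15702344)) (b (a (l 15712992) (l 15703968)) (a (l 15660696) (l 15709280)))) (c (l 15834568) (l 15821128))) (c (l 15750576) (a (l 15704280) (l 15832416)))) (c (a (l 15767816) (l 15913600)) (c (a (l 15755864) (l 15903680)) (a (l 15744104) (l 15871920))))) (b (c (l 16089440) (c (l 16082904) (l 16035984))) (b (c (l 16177208) (l 16023520)) (c (a (l 16144088) (b (l 16344760) (l 16273344))) (a (l 16029072) (c (b (l 16341152) (l 16270368)) (b (l 16311984) (l 16239432)))))))) (b (a (a (c (l 16448304) (l 16321200)) (b (l 16315688) (c (a (l 16499480) (l 16398904)) (b (l 16349720) (a (l 16485808) (l 16417744)))))) (b (a (c (a (l 16336296) (l 16259272)) (b (l 16288464) (l 16144872))) (c (l 16217792) (l 16208792))) (c (l 16284424) (a (l 16276624) (l 16299960))))) (a (c (b (a (a (l 16478520) (l 16536512)) (l 16502360)) (l 16390464)) (b (a (c (l 16364624) (a (l 16471376) (l 16510240))) (l 16353976)) (c (b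 (l 16477592) (l 16470624)) (l 16360528)))) (c (l 16304952) (c (c (l 16449784) (l 16385600)) (l 16350064)))))), by decide +kernel⟩

def k36_pp_022 : ∃ t, chk3 f_pp_022 t 5 32 2 = true :=
  ⟨(a (b (a (a (b (c (l 16015976) (l 16046696)) (c (l 16073672) (l 16061744))) (b (a (a (l 15857272) (b (l 15776304) (l 15793312))) (b (a (l 15726176) (l 15711808)) (l 15759400))) (a (a (c (l 15888176) (l 15872664)) (b (l 15820832) (l 15857848))) (l 15821144)))) (b (a (l 15705560) (l 15662888)) (c (l 15776672) (l 15759064)))) (a (a (a (c (l 16162704) (l 16137504)) (b (c (a (l 16048080) (b (l 15970464) (l 15982968))) (l 15887280)) (a (c (l 16055600) (l 16024576)) (c (l 16015720) (l 15983936))))) (b (c (b (l 15902432) (l 15938696)) (l 15896904)) (l 15966144))) (c (b (l 15856024) (l 15923152)) (l 15711528)))) (b (a (b (a (l 15620816) (a (l 15589704) (a (l 15574232) (c (l 15571144) (l 15550480))))) (a (l 15704712) (a (l 15673672) (c (a (l 15665128) (l 15638880)) (l 15630208))))) (a (b (a (l 15515552) (l 15448808)) (c (l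 15550976) (l 15528728))) (b (l 15437216) (l 15495344)))) (a (a (c (l 15826656) (l 15795096)) (a (b (c (a (l 15768360) (l 15755024)) (l 15734552)) (c (a (l 15832536) (l 15806280)) (l 15782224))) (c (l 15645960) (l 15696296)))) (a (c (l 15624552) (l 15588760)) (c (l 15581424) (l 15544704)))))), by decide +kernel⟩

def k37_pp_022 : ∃ t, chk3 f_pp_022 t 10 32 3 = true :=
  ⟨(b (c (a (b (a (l 15866336) (a (b (l 15790680) (l 15804504)) (b (l 15692680) (l 15733568)))) (a (l 16041504) (a (a (l 15827816) (l 15807376)) (l 15788008)))) (b (b (l 15634864) (l 15678432)) (l 15733120))) (b (a (c (a (b (l 16022104) (l 16025992)) (b (a (l 15777952) (l 15678544)) (a (l 15787760) (l 15715816)))) (b (c (a (b (l 16016016) (l 16018040)) (a (b (l 15769664) (l 15772384)) (b (l 15661240) (l 15679104)))) (a (b (c (l 16012720) (b (b (b (l 15989952) (l 15906880)) (l 15927440)) (l 16011024))) (l 15907152)) (b (c (a (l 15765464) (l 15656656)) (a (b (c (l 15763464) (l 15677680)) (l 15763288)) (b (b (b (l 15646304) (l 15649840)) (l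 15652440)) (l 15657368)))) (a (l 15765176) (l 15671432))))) (a (c (l 16011912) (l 16003352)) (a (c (l 15771992) (a (l 15797776) (l 15725224))) (c (l 15699536) (l 15689424)))))) (c (b (l 15619968) (l 15659920)) (b (c (b (l 15602080) (l 15622352)) (b (b (b (a (l 15611856) (l 15566720)) (l 15553384)) (a (l 15625736) (l 15580640))) (l 15614384))) (c (l 15643272) (l 15632816))))) (a (a (c (l 16013728) (c (l 15994368) (l 15989512))) (c (a (a (l 15818272) (l 15776264)) (l 15756632)) (a (c (a (l 15797520) (l 15755224)) (a (l 15791656) (l 15749120))) (l 15736472)))) (c (l 15701016) (c (l 15679480) (l 15672808)))))) (a (c (a (a (l 16096536) (b (l 15954504) (l 15851704))) (l 15836704)) (a (c (a (l 16059424) (b (l 15912496) (a (l 15932320) (l 15890336)))) (a (l 16049488) (b (a (l 15935720) (l 15861104)) (a (l 15925024) (l 15882600))))) (c (l 15775568) (l 15742352)))) (c (l 15812200) (c (l 15771176) (l 15758024))))), by decide +kernel⟩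

def k38_pp_022 : ∃ t, chk3 f_pp_022 t 11 32 3 = true :=
  ⟨(b (c (a (b (a (l 15590232) (l 15546096)) (a (l 15668272) (a (l 15636304) (l 15601680)))) (b (a (l 15446952) (l 15400856)) (l 15474992))) (b (a (c (b (l 15531912) (l 15571416)) (b (c (b (l 15513392) (l 15533768)) (b (b (b (l 15500112) (l 15506200)) (a (l 15536112) (l 15492080))) (l 15525312))) (c (l 15554144) (a (l 15565912) (l 15520448))))) (c (b (a (l 15415400) (l 15368456)) (l 15418144)) (b (c (a (l 15341528) (l 15357136)) (b (b (a (c (l 15391288) (a (l 15381088) (l 15351904))) (l 15320528)) (a (l 15397784) (l 15349984))) (a (l 15403824) (l 15356008)))) (c (l 15399696) (l 15387752))))) (a (a (c (l 15635256) (l 15613656)) (c (l 15562864) (c (l 15498552) (l 15491000)))) (c (l 15439016) (a (l 15438840) (l 15391736)))))) (a (c (a (l 15747760) (a (l 15705832) (l 15646960))) (a (c (l 15705848) (l 15691800)) (c (a (l 15663320) (l 15603544)) (a (l 15648704) (l 15588224))))) (c (l 15514496) (c (l 15469040) (l 15452056))))), by decide +kernel⟩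

def k39_pp_022 : ∃ t, chk3 f_pp_022 t 5 33 1 = true :=
  ⟨(a (c (c (a (a (b (a (b (l 16159920) (a (l 16185408) (l 16145480))) (l 16101600)) (l 16196728)) (l 16067072)) (b (l 16005208) (l 16090016))) (a (a (b (a (b (l 16120048) (l 16053856)) (l 16054832)) (l 16137680)) (l 16057336)) (l 15930344))) (c (a (a (b (a (b (l 16061160) (a (l 16076072) (l 16034648))) (l 15997264)) (l 16093528)) (l 15966400)) (b (l 15897568) (l 15983280))) (a (a (b (a (b (a (l 16068224) (l 15993952)) (a (l 16055152) (l 16012912))) (l 15948760)) (l 16078848)) (l 15984192)) (l 15833824)))) (c (a (a (b (a (l 15926704) (c (b (l 15906704) (l 15925704)) (b (l 15862192) (l 15890144)))) (a (b (l 15967464) (a (l 16026664) (l 16000008))) (l 15940496))) (c (b (l 15830136) (l 15862672)) (l 15787928))) (a (c (l 15706176) (l 15646592)) (l 15631728))) (a (c (a (b (a (l 15844064) (l 15812752)) (a (l 15919664) (l 15860624))) (l 15733848)) (a (b (a (l 15813184) (l 15781176)) (l 15784496)) (l 15703936))) (c (a (l 15589576) (l 15545888)) (l 15429112))))),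 by decide +kernel⟩

def k40_pp_022 : ∃ t, chk3 f_pp_022 t 5 17 1 = true :=
  ⟨(a (c (a (b (c (l 16249520) (b (l 16186104) (l 16261480))) (c (b (l 16340512) (c (l 16407704) (l 16421112))) (l 16296112))) (b (a (c (l 16206624) (l 16161456)) (b (a (l 16117592) (c (l 15988144) (b (l 16047032) (l 16071968)))) (c (a (l 16153112) (l 16137776)) (a (b (l 16141504) (l 16169072)) (l 16095808))))) (a (b (c (a (l 16307432) (b (l 16267496) (l 16287232))) (a (l 16285432) (l 16253688))) (c (a (b (l 16351336) (l 16373408)) (l 16303200)) (a (l 16331560) (l 16293248)))) (c (b (l 16181392) (l 16191976)) (l 16168720))))) (a (b (c (l 16185072) (b (l 16150872) (l 16243408))) (c (b (l 16335120) (l 16372744)) (b (l 16248896) (c (l 16374512) (l 16409960))))) (b (a (c (l 16139968) (l 16130800)) (c (b (l 16002744) (a (l 16141024) (l 16081432))) (b (l 15991560) (a (l 16133648) (l 16073184))))) (a (c (b (a (l 16279032) (l 16246648)) (a (l 16284616) (l 16287032))) (b (a (l 16277240) (l 16160872)) (c (a (l 16246136) (l 16290496)) (l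 16306880)))) (c (l 16159928) (l 16012432)))))) (c (b (a (c (l 15868104) (a (l 15933600) (l 15829880))) (c (l 15727072) (a (l 15693528) (l 15651712)))) (c (a (b (l 15965576) (l 15979104)) (a (l 15777120) (l 15736352))) (a (l 15949936) (l 15727040)))) (a (b (c (l 15875160) (l 15861688)) (c (l 15872160) (l 15848880))) (b (c (l 15640808) (l 15623232)) (c (c (l 15713400) (l 15702352)) (c (l 15705592) (l 15685680))))))), by decide +kernel⟩

def k41_pp_022 : ∃ t, chk3 f_pp_022 t 3 16 1 = true :=
  ⟨(b (c (a (c (b (a (l 15476664) (l 15477056)) (a (l 15582064) (l 15583040))) (b (a (b (l 15425128) (l 15484496)) (b (l 15425352) (l 15485296))) (a (l 15545408) (l 15546464)))) (b (a (b (l 15437160) (l 15497752)) (l 15401064)) (a (c (l 15584064) (l 15547576)) (l 15565408)))) (b (a (c (b (a (l 15400424) (l 15400640)) (a (l 15453104) (l 15453944))) (b (a (c (b (l 15368280) (a (l 15395096) (l 15395344))) (b (c (l 15357072) (b (c (l 15346368) (b (l 15339624) (l 15343888))) (l 15353928))) (a (l 15376224) (l 15376336))))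 (c (b (l 15368384) (l 15396024)) (b (c (l 15357176) (b (b (l 15341632) (l 15346480)) (l 15354032))) (l 15376704)))) (a (c (l 15416808) (l 15392184)) (c (l 15417696) (l 15392552))))) (c (b (a (l 15400864) (l 15401104)) (a (l 15454832) (l 15455800))) (b (c (a (l 15378808) (l 15379048)) (b (c (l 15357720) (a (c (l 15286872) (l 15344856)) (a (l 15263576) (l 15347480)))) (a (l 15376936) (l 15377192)))) (a (c (l 15418648) (l 15392936)) (l 15416416))))) (a (c (a (l 15493168) (l 15494360)) (a (c (l 15447472) (l 15429608)) (c (l 15448808) (l 15430176)))) (c (a (l 15495632) (l 15497000)) (a (l 15445240) (l 15445832)))))) (a (c (a (c (l 15664120) (l 15603944)) (c (l 15664040) (l 15604216))) (c (a (c (l 15555848) (l 15532400)) (c (l 15556416) (l 15533088))) (a (l 15512088) (l 15512392)))) (c (a (c (l 15663960) (l 15604512)) (l 15632200)) (c (a (c (l 15557016) (l 15533816)) (l 15550656)) (l 15513144))))), by decide +kernel⟩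

def k42_pp_022 : ∃ t, chk3 f_pp_022 t 3 17 1 = true :=
  ⟨(a (c (c (b (a (l 15704400) (l 15700600)) (a (l 15729776) (l 15719328))) (b (a (l 15649592) (l 15646272)) (a (l 15700040) (l 15689664)))) (c (b (a (l 15612984) (l 15611528)) (a (c (l 15685976) (l 15682360)) (l 15655480))) (a (b (l 15600744) (l 15676480)) (b (l 15598984) (l 15667920))))) (c (b (c (l 15694152) (a (l 15642760) (l 15638984))) (c (a (l 15708240) (l 15696320)) (a (l 15678656) (l 15662544)))) (a (b (l 15602592) (c (l 15672224) (l 15640072))) (b (l 15601056) (c (l 15666880) (l 15627824)))))), by decide +kernel⟩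

def k43_pp_022 : ∃ t, chk3 f_pp_022 t 16 36 2 = true :=
  ⟨(a (c (b (l 15475072) (a (l 15410496) (l 15285952))) (b (a (l 15734488) (l 15601456)) (a (l 15388064) (l 15262136)))) (c (b (a (l 15450392) (a (l 15404992) (b (l 15434040) (a (l 15284984) (l 15266320))))) (a (a (l 15194240) (b (l 15216840) (b (l 15096800) (c (l 15007848) (l 14996920))))) (a (b (a (l 15175664) (l 15156744)) (b (a (l 15045112) (l 15079856)) (l 15022200))) (b (a (b (l 15153784) (l 15134136)) (l 15157704)) (l 15122120))))) (a (a (b (l 15508472) (l 15174424)) (b (l 15455992) (c (l 15128176) (l 15127936)))) (a (b (l 15413224) (b (c (l 15162472) (l 15177312)) (c (l 15056208) (l 15070080)))) (b (c (l 15303744) (c (l 15388304) (a (l 15400400) (l 15344632)))) (c (b (l 15179584) (l 15129360)) (c (l 15176312) (a (l 15161168) (l 15175912))))))))), by decide +kernel⟩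

def k44_pp_022 : ∃ t, chk3 f_pp_022 t 16 37 2 = true :=
  ⟨(a (b (c (a (l 15059656) (b (l 15042776) (a (l 14912744) (a (l 14869744) (c (l 14855760) (l 14839424)))))) (a (l 15052160) (a (l 14962088) (c (l 14913928) (l 14900176))))) (a (c (b (l 14840256) (a (l 14711040) (a (l 14669816) (c (a (l 14638488) (b (l 14683184) (b (l 14628384) (l 14606480)))) (l 14639776))))) (b (l 14807344) (c (l 14659944) (l 14641944)))) (c (b (a (a (l 14769856) (a (l 14749984) (c (l 14730272) (l 14733952)))) (c (a (b (b (l 14782480) (a (l 14751752) (l 14754104))) (l 14732320)) (l 14772232)) (l 14749696))) (a (a (c (b (b (l 14683688) (a (l 14653072) (l 14655720))) (l 14634176)) (l 14617240)) (c (l 14674408) (l 14656408))) (l 14712616))) (a (b (l 14726184) (c (l 14632520) (l 14614224))) (c (l 14710912) (l 14695296)))))) (a (a (b (c (c (b (l 14946352) (a (b (b (l 14881136) (l 14853144)) (l 14830344)) (l 14869936))) (b (l 14952128) (l 14848696))) (b (l 14935640) (c (l 14835240) (l 14825616)))) (c (l 14792768) (l 14765560))) (c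 (b (a (b (c (l 14935448) (l 14937736)) (l 14893312)) (l 14944752)) (l 14857760)) (b (c (l 14921248) (l 14919120)) (l 14841408)))) (c (c (l 14999464) (l 14993088)) (c (l 14997072) (c (l 15006624) (l 14838144)))))), by decide +kernel⟩

def k45_pp_022 : ∃ t, chk3 f_pp_022 t 32 18 6 = true :=
  ⟨(b (c (b (a (l 15722128) (l 15591920)) (a (l 15371040) (l 15248008))) (a (b (l 15714128) (l 15359904)) (c (b (l 15594032) (l 15247800)) (b (a (l 15619912) (l 15482160)) (l 15161736))))) (a (c (b (l 15030568) (l 14703632)) (b (l 15016360) (l 14686440))) (c (b (l 14770424) (a (b (l 14701168) (l 14596928)) (l 14684360))) (b (a (l 14932232) (c (l 14890680) (l 14825232))) (a (b (l 14690880) (l 14585688)) (c (l 14682512) (l 14679032))))))), by decide +kernel⟩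

def k46_pp_022 : ∃ t, chk3 f_pp_022 t 32 18 7 = true :=
  ⟨(b (c (a (a (b (l 15719520) (l 15381328)) (c (l 15329328) (b (l 15571752) (l 15320296)))) (c (a (b (l 15620264) (l 15269120)) (b (c (l 15483880) (l 15559360)) (l 15068240))) (a (c (a (l 15357304) (l 15197728)) (b (l 15615104) (l 15262008))) (l 15287160)))) (a (c (a (c (l 15344856) (b (b (l 15827928) (l 15644512)) (l 15330768))) (c (a (l 15300848) (b (l 15661416) (l 15305152))) (b (c (l 15589184) (l 15671296)) (c (l 15315328) (l 15312512))))) (a (c (c (b (a (l 15749080) (b (l 15809320) (l 15626472))) (l 15371424)) (a (l 15482672) (l 15367304))) (a (b (a (l 15650896) (l 15737712)) (l 15382776)) (l 15532512))) (b (l 15577488) (l 15307232)))) (b (c (c (l 15575096) (l 15572632)) (l 15479680)) (c (c (l 15223976) (l 15210856)) (l 15215040))))) (a (c (c (b (l 15006912) (l 14674736)) (b (l 15002280) (a (l 14692768) (c (l 14645312) (l 14644408))))) (c (a (c (l 14623856) (c (l 14851544) (l 14850368))) (c (b (a (l 14985392) (l 14959240)) (a (l 14645952)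 (l 14416088))) (b (c (l 14967448) (l 14965048)) (l 14632672)))) (a (c (a (l 14861216) (l 14832120)) (l 14694184)) (l 14790616)))) (c (c (a (b (l 14928736) (b (l 14685728) (l 14579816))) (b (a (l 14896232) (l 14869168)) (a (l 14617320) (l 14682928)))) (b (a (l 14796584) (l 14862744)) (a (c (a (l 14633296) (l 14632744)) (b (l 14676344) (l 14569544))) (b (l 14675872) (l 14627632))))) (b (c (c (l 14883648) (l 14880360)) (l 14874424)) (b (c (c (l 14671744) (l 14669704)) (l 14663048)) (l 14584016)))))), by decide +kernel⟩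

def k47_pp_022 : ∃ t, chk3 f_pp_022 t 33 18 3 = true :=
  ⟨(c (b (a (a (c (l 15133224) (c (b (l 15522216) (l 15181336)) (c (b (l 15514280) (l 15172248)) (l 15178824)))) (c (c (b (l 15470488) (l 15139472)) (b (l 15473560) (a (l 15155896) (l 15130856)))) (c (b (a (l 15475464) (l 15427280)) (a (l 15137256) (l 15094816))) (l 15032256)))) (c (b (a (c (l 15425144) (c (l 15408176) (l 15385616))) (c (a (l 15369784) (l 15321528)) (l 15324272))) (a (c (b (l 15180952) (l 15072992)) (b (a (l 15171592) (l 15128864)) (a (l 15040752) (l 15039096)))) (c (a (c (l 15136864) (l 15108272)) (l 15130976)) (l 15109384)))) (b (l 15344856) (b (l 15132112) (l 15046024))))) (a (c (b (a (b (l 14932736) (l 14826440)) (c (l 14929232) (l 14887912))) (c (l 14803992) (l 14796256))) (b (a (c (b (l 14937624) (l 14830600)) (b (l 14921464) (l 14813952))) (c (a (l 14898448) (l 14906256)) (l 14882904))) (c (a (l 14764048) (l 14828168)) (l 14777696)))) (c (c (a (l 14967424) (l 15019480)) (a (l 14942824) (l 14988520))) (l 14943760)))) (b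 (b (c (b (l 15478672) (a (l 15367864) (l 15248888))) (c (b (l 15384544) (a (l 15355168) (l 15129152))) (l 15337840))) (c (a (b (l 15196392) (l 15030960)) (b (a (l 15112088) (l 15109288)) (l 15031504))) (a (c (c (l 15106136) (b (l 15183152) (l 15018144))) (l 15096864)) (c (b (c (l 15110144) (l 15104984)) (c (l 15021728) (l 15018760))) (l 15066624))))) (b (c (b (a (a (l 14894776) (l 14894312)) (l 14986152)) (c (l 14886872) (l 14796968))) (a (c (c (b (l 14891408) (l 14804896)) (l 14855064)) (l 14849024)) (c (l 14916992) (l 14946328)))) (c (c (l 14827872) (l 14714896)) (c (c (l 14810928) (l 14809408)) (l 14803216)))))), by decide +kernel⟩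

def k48_pp_022 : ∃ t, chk3 f_pp_022 t 17 18 2 = true :=
  ⟨(a (c (c (b (a (b (a (b (l 15387664) (l 15281600)) (b (a (l 15378296) (l 15403656)) (l 15344472))) (l 15250648)) (l 15456240)) (a (l 15122904) (l 15315000))) (a (b (b (a (b (l 15395104) (l 15204184)) (l 15310240)) (l 15264280)) (l 15156536)) (b (a (l 15333040) (c (l 15518480) (l 15488968))) (c (l 15332568) (a (l 15300424) (l 15347160)))))) (a (c (b (b (b (a (l 15421344) (c (l 15439944) (a (l 15421288) (l 15420384)))) (a (l 15313344) (l 15372912))) (c (l 15282048) (l 15190744))) (c (l 15173576) (a (l 15140320) (l 15201408)))) (b (b (a (c (b (a (l 15436248) (l 15399696)) (a (l 15305424) (l 15309392))) (b (a (l 15393032) (l 15352928)) (a (l 15261616) (l 15262208)))) (c (a (b (l 15371848) (l 15315744)) (l 15350968)) (l 15331096))) (c (a (l 15235824) (l 15266232)) (l 15222840))) (c (a (l 15125496) (l 15157576)) (l 15112888)))) (c (c (a (b (l 15419904) (l 15275296)) (b (l 15439984) (l 15297528))) (b (a (l 15373424) (l 15418168)) (l 15254448))) (b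 (l 15379128) (l 15233976))))) (c (b (c (a (a (c (l 15586064) (l 15590560)) (c (l 15660640) (l 15621288))) (c (a (l 15684608) (l 15694752)) (a (l 15632768) (l 15674608)))) (a (c (a (l 15556088) (l 15569648)) (a (l 15505384) (l 15548680))) (l 15638984))) (a (a (c (l 15406104) (c (l 15417056) (l 15365704))) (c (c (l 15524968) (l 15484984)) (l 15361672))) (c (a (c (l 15548648) (b (l 15529608) (l 15464840))) (b (l 15585928) (b (c (l 15542472) (l 15521608)) (l 15471248)))) (b (l 15535872) (b (l 15485696) (l 15433184)))))) (b (c (l 15570984) (l 15561224)) (b (l 15459904) (a (l 15334752) (b (l 15469840) (l 15416584))))))), by decide +kernel⟩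

def k49_pp_022 : ∃ t, chk3 f_pp_022 t 17 18 3 = true :=
  ⟨(b (c (b (a (a (b (a (l 15346128) (l 15341032)) (c (l 15269904) (l 15257400))) (l 15402280)) (l 15585272)) (c (l 15390968) (l 15379608))) (b (a (c (a (b (a (l 15328376) (l 15323280)) (l 15244832)) (l 15385368)) (a (b (a (l 15310944) (l 15305424)) (c (l 15228632) (l 15229000))) (l 15366560))) (c (l 15571952) (l 15552968))) (c (c (l 15371032) (l 15198864)) (c (a (l 15219600) (l 15472832)) (l 15353744))))) (a (c (c (l 15156632) (l 15143144)) (c (c (l 15133808) (c (l 15131392) (l 15123752))) (b (b (l 15133424) (l 15133200)) (l 15081568)))) (c (b (l 15270584) (a (l 15226984) (c (l 15379544) (b (l 15443008) (l 15388512))))) (c (b (c (l 15424720) (l 15417320)) (c (a (l 15297912) (b (l 15436464) (l 15381872))) (c (a (l 15289456) (l 15395312)) (l 15338232)))) (b (l 15410936) (l 15246984)))))), by decide +kernel⟩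

def k50_pp_022 : ∃ t, chk3 f_pp_022 t 9 18 2 = true :=
  ⟨(a (a (b (a (c (l 15757976) (l 15741944)) (b (l 15865584) (c (b (l 15878840) (l 15717392)) (b (l 15864928) (l 15702408))))) (a (b (c (b (l 15670048) (l 15615544)) (b (l 15652360) (l 15596824))) (c (l 15496176) (l 15475200))) (c (b (l 15699592) (l 15518936)) (b (l 15682272) (l 15498176))))) (b (b (a (b (l 16067200) (a (l 16061272) (l 16130608))) (c (l 16243688) (l 16236592))) (c (l 16012944) (l 15980448))) (c (l 15636808) (b (l 15814888) (l 15636872))))) (b (c (a (l 16119440) (l 16189032)) (a (l 16070704) (l 16142776))) (c (a (l 15771168) (b (l 16148320) (l 15992720))) (a (c (l 15907712) (l 15900808)) (c (l 16061296) (l 16055728)))))), by decide +kernel⟩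

def k51_pp_022 : ∃ t, chk3 f_pp_022 t 9 18 3 = true :=
  ⟨(a (b (a (a (c (c (l 15729696) (l 15721448)) (c (c (l 15715224) (l 15711664)) (b (l 15734264) (l 15667816)))) (c (b (l 15909072) (b (l 15766944) (a (l 15761928) (l 15830328)))) (b (c (l 15858768) (l 15883720)) (c (c (l 15722920) (b (l 15838256) (l 15714192))) (l 15776432))))) (b (c (a (b (l 16137904) (l 15951296)) (l 16145520)) (a (b (c (l 16090520) (l 16077096)) (c (c (l 16070824) (l 16068560)) (l 16064464))) (c (c (l 16224880) (l 16223096)) (l 16220296)))) (c (c (l 15992680) (l 15986800)) (c (c (l 15983112) (l 15851264)) (l 15974920))))) (c (a (b (a (c (l 15563440) (l 15470152)) (c (l 15669144) (l 15660304))) (c (l 15470664) (l 15397072))) (c (l 15712192) (l 15537376))) (a (c (b (c (a (l 15589880) (l 15655416)) (a (b (l 15616096) (l 15557208)) (l 15561312))) (c (a (l 15441744) (l 15463976)) (a (l 15430312) (l 15458520)))) (a (b (l 15576984) (l 15426688)) (l 15545168))) (c (c (b (l 15791400) (l 15604184)) (c (l 15693560) (l 15691792))) (l 15686368)))))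 (b (b (c (c (l 16227784) (l 16204920)) (c (c (l 16225344) (a (l 16259544) (l 16435384))) (l 16264008))) (c (a (l 16074448) (l 16132928)) (c (c (l 16016784) (a (l 16147304) (l 16132736))) (l 16157736)))) (c (c (a (l 15893864) (l 16029152)) (c (l 15737296) (a (l 15850048) (l 15880104)))) (c (c (b (a (l 15968952) (l 16120752)) (a (l 15791536) (l 15955360))) (a (l 15878072) (l 16037384))) (l 15806848))))), by decide +kernel⟩

def k52_pp_022 : ∃ t, chk3 f_pp_022 t 16 19 2 = true :=
  ⟨(b (c (b (a (b (a (a (c (a (l 14579064) (b (l 14590616) (b (l 14535256) (a (l 14504832) (l 14507920))))) (l 14551576)) (a (c (b (b (l 14584760) (a (l 14554272) (l 14557208))) (l 14535928)) (l 14517816)) (c (l 14576472) (l 14557576)))) (l 14647272)) (b (a (a (a (c (b (a (l 14490488) (l 14480104)) (a (l 14455368) (l 14458608))) (b (l 14466016) (l 14438840))) (c (l 14486768) (l 14467056))) (l 14525568)) (l 14623120)) (c (b (b (l 14432392) (l 14563416)) (l 14577968)) (l 14550560)))) (b (c (l 14851824) (l 14841696)) (b (c (l 14829112)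 (l 14818776)) (c (l 14831184) (l 14820872))))) (a (c (l 14665120) (l 14647096)) (c (l 14923896) (l 14914488)))) (b (a (b (a (a (c (l 14532528) (l 14513344)) (c (l 14532488) (l 14513288))) (l 14611672)) (b (a (c (l 14471904) (l 14452152)) (l 14587080)) (c (l 14531480) (l 14513016)))) (c (b (l 14841216) (a (l 14734008) (l 14892760))) (a (b (l 14753912) (l 14731144)) (c (l 14912336) (b (l 14922224) (l 14900416)))))) (a (c (l 14628952) (l 14611424)) (c (l 14914744) (c (l 14919192) (l 14671952)))))) (a (c (c (l 14831944) (l 14879104)) (c (l 14863248) (l 14848024))) (c (a (l 15011472) (b (l 15136008) (a (l 15241800) (b (l 15273312) (l 15310280))))) (a (c (l 15058848) (l 15059200)) (b (c (l 15137616) (l 15071560)) (a (l 15184832) (c (l 15297936) (b (l 15295888) (l 15333872))))))))), by decide +kernel⟩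

def k53_pp_022 : ∃ t, chk3 f_pp_022 t 17 19 2 = true :=
  ⟨(a (a (b (c (b (b (l 15074008) (b (l 15052504) (l 15054872))) (l 15145632)) (b (c (a (l 15041944) (c (l 15132184) (l 15111760))) (c (a (l 15033768) (l 15067512)) (b (l 15032104) (l 15011264)))) (c (l 15156728) (c (l 15138632) (l 15105752))))) (c (b (a (l 15116816) (b (l 15288152) (l 15324664))) (l 15330776)) (c (b (a (l 15269480) (b (l 15303592) (l 15340696))) (l 15344792)) (b (a (c (l 15263024) (l 15224048)) (c (l 15270800) (l 15248064))) (a (l 15199952) (l 15299792)))))) (b (c (b (c (l 15208584) (b (l 15137424) (c (l 15236928) (a (l 15203456) (l 15252024))))) (c (b (l 15270288) (l 15318152)) (a (l 15284864) (b (c (l 15331120) (l 15300768)) (l 15346528))))) (b (c (c (a (l 15187672) (l 15211512)) (b (l 15177192) (l 15157472))) (l 15146144)) (c (a (c (l 15265880) (l 15218736)) (b (l 15242344) (l 15278992))) (l 15207864)))) (c (c (l 15357032) (a (l 15368752) (l 15368200))) (c (a (c (l 15350480) (l 15303808)) (l 15300992)) (l 15277896))))) (b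 (c (b (b (a (c (a (l 15374440) (c (l 15447072) (l 15406712))) (a (l 15264440) (l 15324792))) (c (a (c (l 15439256) (l 15386256)) (l 15383760)) (l 15361136))) (a (c (a (b (l 15354256) (l 15328424)) (b (l 15382392) (l 15356600))) (a (c (l 15318296) (b (l 15270816) (l 15265904))) (b (l 15305736) (l 15279712)))) (c (c (a (l 15360704) (l 15311920)) (l 15301280)) (l 15281360)))) (c (a (a (l 15372632) (l 15364272)) (c (l 15341520) (l 15294864))) (a (a (c (l 15341152) (l 15289488)) (l 15287512)) (l 15274944)))) (b (a (b (l 15287328) (b (l 15255112) (l 15240184))) (b (l 15343520) (l 15262616))) (l 15256608))) (c (c (a (c (l 15402040) (l 15381016)) (c (l 15301416) (l 15317864))) (a (c (l 15351440) (l 15308136)) (l 15298216))) (l 15281176)))), by decide +kernel⟩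

def k54_pp_022 : ∃ t, chk3 f_pp_022 t 16 38 3 = true :=
  ⟨(c (a (b (b (a (c (l 14501544) (l 14482488)) (c (l 14588616) (l 14580528))) (b (c (l 14499528) (a (l 14412568) (l 14555368))) (c (l 14496544) (a (l 14405592) (l 14536264))))) (c (l 14595904) (a (l 14506504) (l 14656864)))) (b (c (a (a (l 14634240) (c (l 14787056) (l 14766064))) (c (a (l 14829496) (b (l 14936176) (l 14914520))) (a (b (l 14857664) (l 14835408)) (l 14893824)))) (c (a (a (l 14637528) (b (l 14777312) (l 14754448))) (l 14851536)) (b (l 14792512) (b (l 14768680) (l 14728952))))) (c (a (l 14821616) (c (l 14982104) (l 14963000))) (a (c (l 14818552) (l 14802272)) (l 14934224))))) (a (b (a (c (c (b (l 14469384) (b (l 14398984) (l 14391960))) (b (a (l 14452456) (c (l 14460056) (l 14457016))) (b (a (l 14359944) (l 14421352)) (c (l 14388112) (c (l 14384208) (l 14381416)))))) (a (c (b (l 14442184) (l 14347008)) (a (b (l 14439440) (b (l 14327624) (l 14307152))) (b (l 14417200) (l 14340784)))) (c (a (b (l 14431216) (l 14390616)) (l 14446048))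 (l 14420656)))) (c (c (a (b (l 14533040) (b (l 14507480) (l 14509304))) (b (l 14610968) (b (l 14585880) (l 14587824)))) (b (c (l 14563040) (l 14554424)) (b (c (l 14538336) (l 14528248)) (c (a (l 14508216) (l 14570784)) (l 14530728))))) (l 14528376))) (c (c (a (l 14493592) (a (l 14611464) (l 14690296))) (a (c (l 14489448) (l 14481128)) (c (l 14490720) (l 14633520)))) (a (a (c (l 14439760) (a (l 14410392) (l 14444688))) (c (l 14512104) (l 14504304))) (l 14618672)))) (b (c (c (b (l 14776968) (b (l 14753408) (l 14757248))) (b (l 14765400) (c (b (l 14745936) (l 14747000)) (l 14743512)))) (l 14744248)) (c (c (l 14855744) (c (l 14843160) (l 14843256))) (l 14833152))))), by decide +kernel⟩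

def k55_pp_022 : ∃ t, chk3 f_pp_022 t 16 39 3 = true :=
  ⟨(a (c (c (l 14834824) (a (l 14749568) (c (l 14898760) (l 14897424)))) (c (a (c (l 14592128) (c (l 14730368) (l 14730992))) (c (a (c (l 14858040) (l 14848792)) (c (l 14935480) (l 14920312))) (c (a (l 14848360) (l 14911120)) (l 14876016)))) (a (a (c (l 14687880) (l 14614952)) (l 14537880)) (l 14862648)))) (c (c (a (l 14928904) (a (c (l 15184480) (l 15056136)) (b (l 15158688) (c (l 15284544) (l 15254960))))) (a (c (l 14906592) (l 14853624)) (b (l 15090568) (c (l 15223160) (l 15156336))))) (c (c (b (l 15007512) (a (l 15092176) (b (l 15185048) (l 15241632)))) (b (l 15003056) (l 15144552))) (b (l 14992104) (l 15134664))))), by decide +kernel⟩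

def k56_pp_022 : ∃ t, chk3 f_pp_022 t 17 19 3 = true :=
  ⟨(a (b (b (c (c (b (l 15076656) (l 15056152)) (b (l 15062440) (l 15041752))) (c (c (b (l 15054328) (b (l 15032024) (l 15033992))) (c (b (l 15043840) (b (l 15021624) (l 15025456))) (l 15032168))) (l 15023080))) (c (c (a (l 15084192) (l 15194888)) (a (l 15070104) (l 15160848))) (c (c (a (l 15059112) (b (l 15150688) (l 15198840))) (l 15105544)) (l 15074216)))) (c (c (b (a (l 15213216) (l 15256928)) (l 15275272)) (b (a (b (l 15180960) (l 15235024)) (l 15249512)) (c (l 15267136) (l 15258640)))) (b (c (c (a (c (l 15190288) (l 15189192)) (l 15229472)) (l 15199328)) (l 15168728)) (l 15244856)))) (b (b (c (c (b (a (l 15268808) (l 15325712)) (b (l 15245920) (l 15224352))) (b (a (l 15256328) (l 15313728)) (b (l 15233216) (l 15211448)))) (c (c (b (a (l 15248672) (l 15304912)) (b (l 15159912) (a (l 15197400) (l 15203392)))) (a (l 15212976) (l 15256080))) (a (l 15203280) (l 15246664)))) (c (c (l 15237760) (l 15229832)) (c (c (l 15209864) (l 15209016)) (l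 15199320)))) (c (c (l 15262896) (c (l 15259320) (l 15244648))) (c (c (l 15236928) (l 15235016)) (l 15225616))))), by decide +kernel⟩

def k57_pp_022 : ∃ t, chk3 f_pp_022 t 9 19 2 = true :=
  ⟨(a (b (c (a (b (a (b (l 15363536) (l 15284696)) (b (l 15388672) (l 15312080))) (a (l 15278888) (l 15306872))) (b (b (l 15530456) (l 15457208)) (l 15452912))) (b (a (b (l 15352776) (b (l 15287568) (l 15259640))) (c (l 15477528) (l 15466688))) (a (l 15268144) (l 15430712)))) (c (a (a (l 15281368) (l 15330664)) (l 15477208)) (a (c (l 15298664) (l 15286520)) (l 15392880)))) (b (b (c (a (b (l 15718704) (l 15628872)) (a (b (l 15855168) (l 15789536)) (b (l 15910896) (b (l 15864032) (l 15849800))))) (a (c (l 15670400) (l 15661200)) (b (a (l 15839888) (l 15896576)) (a (l 15752000) (b (l 15848768) (l 15834264)))))) (a (c (l 15646648) (l 15627760)) (c (a (b (l 15785256) (l 15803992)) (l 15889616)) (a (c (l 15784680) (l 15776480)) (l 15874968))))) (c (a (b (a (l 15614640) (b (l 15708264) (l 15727424))) (a (b (l 15629392) (l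 15649008)) (l 15773728))) (a (l 15864104) (l 15993792))) (c (a (b (l 15592704) (l 15488272)) (l 15929992)) (a (b (l 15625472) (l 15563496)) (l 15923336)))))), by decide +kernel⟩

def k58_pp_022 : ∃ t, chk3 f_pp_022 t 9 19 3 = true :=
  ⟨(a (b (b (c (b (c (l 15310112) (a (l 15323064) (l 15486896))) (c (a (l 15254712) (l 15418112)) (a (b (l 15258376) (l 15231208)) (c (l 15409616) (l 15195616))))) (c (c (c (b (l 15395584) (b (l 15328792) (a (l 15217496) (l 15386168)))) (b (l 15390928) (l 15314384))) (l 15328544)) (l 15256752))) (c (c (l 15122512) (c (l 15263176) (a (l 15234472) (l 15396840)))) (a (c (c (l 15221472) (l 15220592)) (l 15210928)) (l 15385416)))) (c (c (a (l 15274296) (l 15445112)) (c (a (l 15268344) (l 15430264)) (a (c (l 15256856) (l 15254024)) (l 15420496)))) (l 15202704))) (b (b (c (c (a (l 15442216) (b (l 15857360) (a (l 15760416) (l 15831224)))) (b (a (l 15682064) (c (l 15852504) (l 15845496))) (a (c (l 15609280) (b (l 15615760) (l 15589272))) (b (c (l 15801352) (l 15791728)) (c (l 15740832)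 (a (l 15734848) (l 15812592))))))) (a (l 15628480) (a (l 15773736) (l 15841552)))) (c (c (a (l 15613440) (a (l 15768224) (l 15863880))) (a (c (l 15608896) (l 15596264)) (c (a (l 15762584) (l 15857088)) (a (l 15755072) (l 15854544))))) (a (l 15589216) (l 15799584)))) (c (a (c (b (a (l 15580896) (l 15692912)) (c (l 15682800) (a (l 15608672) (l 15743480)))) (c (b (l 15501888) (l 15480608)) (l 15526792))) (c (c (l 15923080) (l 15873232)) (c (l 15843160) (l 15908200)))) (a (b (l 15613808) (l 15658560)) (l 15899688))))), by decide +kernel⟩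

def k59_pp_022 : ∃ t, chk3 f_pp_022 t 10 18 1 = true :=
  ⟨(c (a (b (a (c (l 16303912) (l 16279664)) (b (a (l 16438032) (c (l 16385320) (l 16383496))) (c (a (b (l 16446072) (l 16380544)) (l 16475256)) (a (b (l 16442640) (l 16375656)) (l 16472368))))) (a (c (b (a (l 16199928) (b (l 16268200) (l 16204744))) (a (b (l 16089672) (l 16028496)) (l 16130904))) (b (c (l 16068016) (l 16105848)) (a (b (l 16078848) (l 16016416)) (l 16120768)))) (c (l 16133392) (b (l 16317456) (l 16251784))))) (b (c (a (l 16291808) (l 16270512)) (c (l 16214152) (l 16212032))) (c (l 16332448) (b (l 16453536) (l 16397560))))) (a (b (c (a (c (l 16382040) (l 16359400)) (b (c (l 16376104) (l 16375304)) (c (a (l 16408032) (l 16470176)) (a (l 16385800) (l 16470240))))) (c (a (c (l 16297672) (b (l 16527000) (l 16355056))) (b (c (l 16353112) (b (l 16478560) (l 16536416))) (c (a (l 16402752) (l 16465536)) (l 16438312)))) (a (l 16439904) (b (l 16499512) (l 16436968))))) (c (c (a (b (l 16122680) (l 15912480)) (l 16247288)) (a (b (a (l 16183048)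 (l 16055512)) (c (l 16035432) (a (l 16032800) (l 16104552)))) (c (l 16208800) (b (l 16330584) (l 16237632))))) (c (b (a (c (a (l 16174176) (l 16214616)) (l 16197152)) (c (l 16326168) (l 16327320))) (l 15925176)) (a (b (l 16193984) (l 16063744)) (l 16278768))))) (b (c (c (l 16188912) (b (l 16247136) (l 16334592))) (c (c (b (l 16264016) (l 16445984)) (l 16330824)) (l 16308200))) (c (c (l 16331160) (c (l 16310928) (b (l 16491776) (l 16473616)))) (l 16431336))))), by decide +kernel⟩

def k60_pp_022 : ∃ t, chk3 f_pp_022 t 11 18 1 = true :=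
  ⟨(c (c (a (b (l 16039640) (b (l 16309264) (l 16418224))) (b (l 15887888) (l 16107624))) (b (a (l 15966368) (l 15767928)) (a (b (l 16302224) (l 16413152)) (l 15928984)))) (b (a (c (c (l 16105312) (b (l 16027744) (l 16105008))) (b (l 15853240) (l 16160488))) (c (c (l 15881248) (c (l 15870616) (l 15851368))) (a (l 15885808) (l 15840856)))) (c (c (a (b (l 16294328) (l 16403952)) (b (l 16068880) (l 16164464))) (a (c (l 16226200) (l 16222360)) (b (l 15910384) (l 16179848)))) (a (l 16346416) (l 16116480))))), by decide +kernel⟩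

def k61_pp_022 : ∃ t, chk3 f_pp_022 t 5 19 1 = true :=
  ⟨(a (c (b (b (c (a (b (l 16008680) (b (l 16084712) (l 16077472))) (l 16209528)) (a (b (l 15977072) (b (l 16073456) (l 16024120))) (b (l 16407672) (l 16233216)))) (c (a (l 16097664) (l 16419312)) (a (l 16024304) (l 16373488)))) (c (a (l 16050088) (l 16445696)) (c (a (l 16169944) (l 16549664)) (a (l 16065760) (c (l 16532464) (l 16468232)))))) (c (b (b (c (a (b (l 16094832) (l 15874752)) (b (l 16429152) (c (l 16418904) (l 16250688)))) (a (b (c (l 16091992) (l 16083728)) (c (b (l 16060144) (l 16051216)) (a (l 15958952) (l 16147000)))) (c (b (l 16441456) (a (l 16326112) (l 16501584))) (l 16429392)))) (c (a (l 15979144) (l 16265168)) (a (c (l 16091328) (l 16093624)) (l 16452448)))) (c (a (b (l 15938896) (a (l 16143384) (l 16318952))) (c (l 16440104) (l 16481384))) (a (c (l 16092960) (l 16198744)) (l 16547840)))) (b (a (b (l 16063904) (l 16086904)) (l 16228320)) (a (l 16193600) (l 16546904))))) (a (b (c (b (c (l 16489984) (b (l 16488432) (l 16526440)))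 (c (l 16463312) (l 16364136))) (c (c (b (b (l 16484088) (b (l 16522808) (l 16531616))) (l 16466760)) (l 16478488)) (l 16454560))) (c (c (l 16294496) (c (l 16240344) (c (l 16238192) (l 16289688)))) (c (c (c (l 16290856) (l 16280904)) (l 16278136)) (l 16272536)))) (b (c (c (b (l 16209744) (l 16246488)) (b (c (l 16287392) (b (l 16262208) (l 16274024))) (c (l 16239632) (l 16231048)))) (c (c (b (b (l 16267224) (c (l 16303304) (l 16296592))) (l 16243272)) (l 16250176)) (l 16180488))) (c (c (l 16080160) (c (l 16040784) (l 15847352))) (l 16049656))))), by decide +kernel⟩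

def k62_pp_022 : ∃ t, chk3 f_pp_022 t 3 9 1 = true :=
  ⟨(a (a (b (c (c (b (l 15873176) (l 16098120)) (b (l 15857352) (c (l 16089232) (l 15991304)))) (c (b (c (l 15778480) (b (l 15793480) (l 15836528))) (c (b (l 16028200) (l 16118544)) (c (l 16063712) (l 16069664)))) (b (l 15825048) (l 16062000)))) (c (b (c (b (l 16206984) (l 16174432)) (b (c (l 16214992) (b (l 16197504) (l 16004544))) (c (l 16156928) (l 16173592)))) (c (c (l 16004440) (l 15981608)) (c (l 15848544) (l 15748720)))) (b (b (c (c (a (c (l 16237144) (l 16227392)) (l 16194448)) (l 16206192)) (l 16198768)) (l 16147840)) (l 15966840)))) (b (c (c (b (l 15849064) (l 16051048)) (b (l 15658208) (c (l 16016272) (l 15881760)))) (c (b (c (l 15780888) (b (l 15781960) (l 15871120))) (c (a (l 16034728) (l 16008976)) (l 16022248))) (l 15786288))) (c (b (c (b (l 16153816) (l 16079976)) (b (c (l 15917320) (b (l 16147072) (l 16109496))) (c (l 16097088) (l 16091608)))) (c (c (l 15900304) (l 15913528)) (c (l 15918760) (l 15894240)))) (b (b (l 16132576) (l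 16066752)) (l 15874992))))) (a (b (c (c (b (l 15823440) (l 15989320)) (b (c (l 15785440) (l 15791024)) (c (l 15979232) (l 15881320)))) (b (c (b (l 15769616) (l 15773448)) (l 15772680)) (l 15966664))) (c (b (c (b (c (l 16090224) (l 16056776)) (l 15927200)) (c (b (l 15903784) (l 16016328)) (l 16034384))) (c (c (l 15828872) (l 15832472)) (l 15802456))) (b (b (l 16056792) (l 15980288)) (l 15776904)))) (b (b (a (b (c (l 15691688) (l 15748984)) (l 2)) (l 2)) (l 2)) (l 2)))), by decide +kernel⟩

def k63_pp_022 : ∃ t, chk3 f_pp_022 t 8 20 2 = true :=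
  ⟨(a (b (a (c (b (l 15113480) (a (l 15202664) (b (l 15281016) (l 15330728)))) (b (l 15086992) (a (l 15177496) (b (l 15258240) (l 15204168))))) (c (a (b (b (l 15254656) (l 15304120)) (l 15336920)) (l 15290272)) (a (b (c (l 15241128) (l 15159672)) (l 15328344)) (c (l 15337024) (a (l 15342456) (l 15358616)))))) (b (c (a (a (b (l 15298496) (l 15329064)) (l 15342120)) (l 15336648)) (a (a (b (l 15275344) (l 15306616)) (l 15320784)) (c (l 15337576) (l 15334328)))) (c (b (b (a (l 15332968) (l 15320104)) (l 15303464)) (l 15253128)) (a (b (b (l 15311264) (l 15286744)) (l 15234688)) (c (b (l 15308416) (l 15245504)) (b (b (l 15317520) (l 15292256)) (l 15241456))))))) (b (c (a (c (l 15371896) (a (l 15362480) (l 15395976))) (c (a (l 15418096) (c (l 15398400) (l 15352208))) (a (c (l 15385608) (l 15342576)) (l 15332976)))) (a (c (a (l 15372200) (c (l 15371464) (l 15333248))) (a (c (l 15355896) (l 15324216)) (l 15313664))) (l 15253640))) (c (a (b (c (l 15375064) (a (l 15366016) (l 15399296))) (c (b (l 15345656) (l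 15285712)) (a (l 15306192) (b (b (l 15381552) (l 15357448)) (l 15309488))))) (b (c (a (l 15421032) (c (l 15401104) (l 15355008))) (a (c (l 15388688) (l 15345752)) (l 15335920))) (c (a (b (b (l 15402992) (l 15379416)) (l 15332688)) (c (a (l 15354896) (l 15306872)) (b (l 15324944) (l 15267184)))) (a (c (a (l 15343344) (l 15296856)) (l 15160320)) (l 15276688))))) (b (a (c (a (l 15375920) (l 15300920)) (a (l 15348704) (l 15317368))) (l 15319792)) (a (c (a (b (l 15325280) (l 15284704)) (b (c (l 15177240) (l 15306768)) (l 15273224))) (a (b (b (l 15331184) (l 15306344)) (l 15256672)) (l 15256656))) (b (b (l 15301200) (l 15277216)) (l 15233816))))))), by decide +kernel⟩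

def k64_pp_022 : ∃ t, chk3 f_pp_022 t 8 21 2 = true :=
  ⟨(b (a (c (a (l 15086888) (l 14974880)) (a (l 14934720) (c (l 15077072) (c (l 15083072) (l 14836856))))) (c (a (c (l 15125464) (a (l 15112456) (l 15148904))) (a (c (b (l 15238912) (a (l 15126400) (l 15045696))) (b (l 15068400) (a (c (l 15093536) (l 15040944)) (l 15051088)))) (c (b (a (c (l 15235688) (l 15182024)) (l 15190976)) (a (l 15127976) (l 15113712))) (b (l 15164168) (l 15075672))))) (a (a (c (l 15119984) (c (l 15102032) (l 15070784))) (c (c (l 15122768) (l 15083448)) (l 15066144))) (c (b (l 15147776) (l 15045176)) (b (a (l 15131656) (l 15120232)) (a (l 14945568) (l 15046272))))))) (a (c (c (l 14794992) (l 14719880)) (c (a (l 14785448) (l 14803552)) (a (l 14751952) (c (l 14808016) (a (l 14776048) (l 14814656)))))) (c (a (a (b (l 14911256) (b (l 14813728) (l 14757696))) (c (b (l 14962592) (l 14868480)) (b (a (l 14961816) (l 14974392)) (l 14868360)))) (c (a (a (l 14991832) (l 15012000)) (c (l 15035048) (l 14987160))) (a (c (l 14896184) (l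 14914072)) (l 14965376)))) (a (c (a (b (l 14919696) (a (l 14788200) (c (l 14825544) (l 14805344)))) (b (a (l 14714320) (l 14903736)) (c (l 14840128) (l 14800744)))) (a (b (c (l 14902216) (l 14864280)) (c (a (l 14776568) (l 14757048)) (l 14739816))) (b (l 14808032) (l 14772536)))) (c (l 14735200) (c (l 14904968) (l 14902120))))))), by decide +kernel⟩

def k65_pp_022 : ∃ t, chk3 f_pp_022 t 16 20 3 = true :=
  ⟨(b (a (c (c (b (l 15069408) (a (l 15158416) (l 15244736))) (a (c (l 15070800) (l 15066576)) (b (c (l 15133240) (l 15132704)) (c (l 15248072) (c (l 15269560) (l 15091984)))))) (c (a (c (l 14967672) (l 15054776)) (c (b (a (l 15084560) (l 15159960)) (a (l 15242328) (l 15290048))) (a (l 15161128) (l 15207272)))) (a (a (c (l 15012888) (l 15004480)) (l 15070800)) (l 15167168)))) (c (c (a (b (a (l 15244048) (c (l 15303872) (l 15306440))) (l 15327040)) (c (a (l 15347632) (l 15332736)) (l 15320680))) (a (c (b (a (l 15251416) (l 15287736)) (a (l 15336072) (l 15331200))) (b (a (l 15090152) (l 15261984)) (c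 (l 15315048) (l 15305376)))) (c (l 15302136) (l 15285872)))) (b (a (l 15222480) (l 15266960)) (l 15288376)))) (c (b (a (c (a (l 15268920) (l 15308552)) (a (c (l 15263328) (b (l 15238720) (l 15272496))) (c (l 15310304) (l 15303720)))) (c (a (l 15325696) (c (l 15343104) (l 15329288))) (c (a (a (l 15329144) (l 15321144)) (l 15298656)) (l 15305992)))) (a (c (b (b (l 15297312) (l 15274272)) (l 15223896)) (c (b (b (l 15292848) (l 15266544)) (l 15211984)) (l 15138504))) (c (a (b (b (l 15310464) (l 15285560)) (l 15233688)) (c (b (b (l 15326000) (l 15300704)) (l 15249912)) (b (b (l 15310432) (l 15283752)) (l 15230608)))) (a (b (c (b (l 15241992) (l 15280048)) (l 15281568)) (l 15220832)) (l 15238104))))) (a (a (c (b (l 15249344) (l 15234560)) (b (a (c (l 15225256) (l 15217936)) (c (l 15265656) (l 15261608))) (a (c (l 15226648) (l 15219376)) (l 15215592)))) (c (b (c (l 15277136) (l 15294016)) (c (l 15216072) (l 15232696))) (b (l 15282768) (l 15221072)))) (b (l 15284872) (l 15222048))))), by decide +kernel⟩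

def k66_pp_022 : ∃ t, chk3 f_pp_022 t 17 20 3 = true :=
  ⟨(b (c (c (c (l 15304288) (l 15305384)) (c (a (l 15295504) (l 15285920)) (b (l 15268544) (l 15296048)))) (l 15271872)) (c (b (c (c (l 15312848) (l 15301088)) (c (l 15290248) (l 15290504))) (c (b (b (c (l 15292888) (l 15279728)) (l 15259000)) (l 15207880)) (l 15231704))) (b (l 15275920) (l 15213424)))), by decide +kernel⟩

def k67_pp_022 : ∃ t, chk3 f_pp_022 t 8 21 3 = true :=
  ⟨(a (c (a (c (b (c (l 15046144) (l 15035864)) (c (l 14753288) (l 14752552))) (b (c (l 15028976) (l 15032128)) (l 14745224))) (c (b (a (c (l 15063312) (l 14966464)) (c (a (l 15088056) (l 15072416)) (l 14823640))) (a (c (l 14776680) (l 14775248)) (l 14791912))) (a (b (l 14920392) (l 14741680)) (l 14895208)))) (a (c (a (l 14874992) (c (a (l 14885104) (l 14891744)) (l 14875760))) (a (c (a (l 14863768) (l 14862832)) (a (l 14854808) (l 14856936))) (l 14861624))) (l 14662104))) (a (b (c (c (c (l 15046344) (l 15036736)) (l 15034232)) (l 15013168)) (c (b (l 14844384) (l 14732440))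 (b (l 14812368) (l 14698192)))) (b (b (c (c (c (l 15120904) (l 15118176)) (l 15108200)) (l 15088080)) (c (l 15009704) (l 14980888))) (c (l 14882728) (l 14851384))))), by decide +kernel⟩

def k68_pp_022 : ∃ t, chk3 f_pp_022 t 9 40 1 = true :=
  ⟨(a (c (a (c (a (l 15337240) (l 15365936)) (c (l 15334608) (l 15323032))) (c (b (a (l 15453752) (b (l 15549936) (l 15570024))) (a (b (l 15469904) (l 15490176)) (l 15617552))) (a (c (l 15307312) (l 15359672)) (b (c (l 15547616) (l 15537792)) (l 15599384))))) (c (c (a (c (l 15319032) (l 15309480)) (b (c (l 15478392) (l 15323720)) (a (c (l 15451696) (l 15438808)) (l 15496808)))) (c (a (l 15253992) (b (l 15462848) (l 15511832))) (a (l 15296704) (l 15300208)))) (a (l 15281872) (b (l 15447760) (l 15494424))))) (c (c (a (l 15597200) (l 16015192)) (c (a (l 15795776) (l 16070752)) (a (l 15688568) (l 15883184)))) (c (c (a (c (l 15741680) (l 15709848)) (c (l 16016760) (l 16055840))) (l 15790352)) (l 15717904)))), by decide +kernel⟩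

def k69_pp_022 : ∃ t, chk3 f_pp_022 t 9 41 1 = true :=
  ⟨(a (b (c (a (c (a (l 15339920) (b (l 15377256) (l 15374192))) (a (l 15317200) (c (l 15361592) (l 15350416)))) (c (l 15588000) (c (l 15574232) (l 15570088)))) (c (c (a (a (l 15296048) (c (l 15341536) (l 15336344))) (c (l 15554192) (l 15553304))) (a (l 15309856) (l 15546256))) (a (l 15292480) (l 15532032)))) (c (c (a (a (b (b (l 15321272) (l 15300592)) (l 15265624)) (b (b (l 15375360) (l 15365632)) (l 15341272))) (b (l 15575640) (l 15568048))) (a (b (a (b (l 15298288) (l 15280192)) (b (l 15252456) (l 15348688))) (c (l 15286936) (a (l 15239056) (l 15315824)))) (c (l 15505824) (b (b (l 15582000) (l 15571568)) (l 15544984))))) (c (c (c (a (b (b (a (l 15282168) (l 15336560)) (l 15293888)) (l 15263184)) (b (l 15565720) (l 15537584))) (a (a (l 15246440) (l 15313824)) (l 15547832))) (a (a (l 15237360) (l 15305200)) (l 15540792))) (a (a (l 15219048) (l 15287800)) (l 15526576))))) (b (c (c (l 15768760) (c (l 15949760) (a (l 15872704) (l 16078296)))) (a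 (c (c (l 15751120) (l 15856392)) (l 15846424)) (l 16069464))) (c (b (c (b (l 15883536) (l 15958240)) (c (b (l 15980904) (l 15994720)) (b (a (l 15880776) (l 16126664)) (l 15836696)))) (c (l 15914344) (c (l 15910560) (l 15769680)))) (c (l 15844536) (l 15875816))))), by decide +kernel⟩

def k70_pp_022 : ∃ t, chk3 f_pp_022 t 9 21 1 = true :=
  ⟨(c (c (a (a (b (a (l 15173544) (l 15257888)) (a (l 15029960) (l 15118752))) (b (l 15486184) (c (l 15352512) (l 15344360)))) (b (a (l 15784528) (l 15931016)) (c (l 15666224) (a (l 15646272) (l 15916240))))) (a (b (c (a (b (l 15231672) (l 15164704)) (l 15475352)) (a (c (l 15040832) (l 15007552)) (c (l 15459560) (l 15451064)))) (c (a (b (l 15091248) (l 15012560)) (l 15326304)) (a (b (l 15071528) (l 14999672)) (l 15317632)))) (b (a (c (l 15733376) (l 15612344)) (c (l 15938112) (l 15951528))) (c (a (l 15630752) (l 15906648)) (l 15766440))))) (a (b (c (a (l 15165312) (l 15445232)) (l 15052664)) (c (l 15054784) (l 15133248))) (b (c (l 15789944) (l 15840152)) (c (l 15754760)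 (l 15739008))))), by decide +kernel⟩

def k71_pp_022 : ∃ t, chk3 f_pp_022 t 5 10 1 = true :=
  ⟨(b (b (a (c (c (a (l 16137264) (l 16337600)) (c (a (l 16261152) (l 16218872)) (a (b (l 16123520) (l 16162608)) (c (l 16334344) (l 16340592))))) (a (c (c (c (l 16144536) (l 16338568)) (l 16336856)) (l 16333408)) (l 16199296))) (c (c (a (l 15975272) (c (l 15862048) (l 15842232))) (c (a (l 15933608) (l 15647912)) (a (l 15841424) (l 15838144)))) (a (l 15998960) (l 15817792)))) (c (c (a (b (a (l 16413464) (l 16206592)) (a (b (l 16289032) (l 16388808)) (b (b (l 16189176) (l 16198248)) (l 16224936)))) (b (a (l 15792680) (c (l 15746152) (l 15749328))) (b (a (c (l 15954368) (l 15947424)) (c (l 15753696) (l 15696632))) (a (l 15985464) (l 15722120))))) (a (b (c (a (l 16353920) (l 16145088)) (a (l 16172848) (l 16210608))) (c (b (b (a (l 16420656) (l 16196952)) (l 16171784)) (l 16117384)) (a (a (b (l 16135024) (l 16301216)) (l 16416304)) (l 16209256)))) (a (b (c (l 15954216) (l 15936280)) (a (l 16018472) (l 15897168)))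 (b (l 15731432) (l 15758864))))) (a (b (a (l 16260576) (l 16152056)) (a (l 16185928) (l 16200288))) (b (a (l 15919392) (l 15704160)) (a (l 15937176) (l 15732312)))))) (b (c (a (c (a (c (l 16316448) (l 16149568)) (c (l 16331960) (l 16254904))) (c (a (b (l 16317248) (l 16275784)) (l 16242368)) (l 16245272))) (c (c (a (l 16061600) (l 15912696)) (a (l 16028552) (l 15913848))) (l 15740736))) (a (a (l 16114800) (l 16320360)) (a (l 16071888) (l 15879872)))) (a (c (c (a (a (l 15894600) (c (l 16274400) (l 16265008))) (c (l 16446064) (l 16440392))) (a (l 16181928) (l 16502848))) (c (l 16094560) (l 16131920))) (a (c (c (b (l 16168824) (l 16343544)) (l 16284576)) (l 16273664)) (c (l 16081232) (l 16100408)))))), by decide +kernel⟩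

def k72_pp_022 : ∃ t, chk3 f_pp_022 t 16 22 1 = true :=
  ⟨(c (c (b (a (l 14527096) (b (a (l 14596648) (b (l 14645872) (l 14588088))) (a (b (l 14472976) (l 14434336)) (l 14517608)))) (a (b (a (l 14310432) (a (l 14313128) (l 14324512))) (a (a (l 14164784) (l 14176920)) (l 14212360))) (b (c (l 14403216) (l 14390040)) (l 14307552)))) (b (a (c (l 14501064) (l 14477544)) (c (b (a (l 14576520) (l 14552856)) (a (l 14443064) (l 14510368))) (b (a (l 14567864) (c (l 14619384) (l 14618696))) (a (l 14437096) (l 14501768))))) (a (b (c (a (l 14279016) (l 14288968)) (l 14265040)) (a (c (l 14138400) (l 14116008)) (l 14166928))) (c (b (l 14383320) (l 14292136)) (a (l 14282856) (l 14366832)))))) (a (c (b (c (l 14463848) (l 14449800)) (a (l 14155568) (b (a (l 14234096) (l 14256640)) (l 14132928)))) (b (a (c (l 14426480) (a (l 14403528) (l 14401072))) (c (c (l 14440144) (l 14431968)) (l 14414568))) (a (c (l 14125496) (a (l 13862264) (l 13994544))) (c (a (c (l 14158712) (l 14148920)) (l 14180472)) (l 14140536))))) (c (b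 (a (c (b (l 14561840) (l 14426912)) (b (l 14546056) (a (l 14405624) (l 14419376)))) (c (b (a (l 14588440) (l 14597384)) (l 14485200)) (l 14501112))) (c (a (l 14271080) (l 14348864)) (a (l 14189408) (l 14306704)))) (b (b (l 14516248) (l 14394480)) (l 14241640))))), by decide +kernel⟩

def k73_pp_022 : ∃ t, chk3 f_pp_022 t 17 22 1 = true :=
  ⟨(c (c (c (a (b (l 14698208) (l 14528192)) (b (a (l 14837976) (c (l 14880520) (l 14831816))) (a (l 14670400) (c (l 14711320) (l 14663624))))) (a (b (a (l 14651152) (l 14560648)) (a (l 14477320) (l 14575624))) (c (a (b (l 14801304) (l 14630280)) (l 14497544)) (b (l 14780832) (l 14607536))))) (a (a (c (b (c (l 14663872) (l 14651192)) (l 14477384)) (b (c (a (l 14623728) (l 14626888)) (l 14596768)) (l 14442232))) (c (b (c (l 14717464) (l 14673216)) (l 14532272)) (l 14566984))) (b (c (l 14759520) (l 14745248)) (l 14581544)))) (c (b (l 14657536) (l 14480072)) (l 14302504))), by decide +kernel⟩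

def k74_pp_022 : ∃ t, chk3 f_pp_022 t 9 22 1 = true :=
  ⟨(c (a (a (b (c (c (l 14950136) (l 14912504)) (c (l 14893408) (l 14880576))) (c (a (l 14708944) (l 14797992)) (l 14719648))) (c (b (c (l 15205344) (l 15188640)) (l 15033576)) (l 15089320))) (c (b (c (l 15434072) (l 15377384)) (c (l 15422760) (l 15480560))) (b (l 15622704) (l 15463936)))) (a (b (a (l 14840536) (l 15129712)) (a (l 14666256) (l 14959192))) (b (l 15405576) (l 15409184)))), by decide +kernel⟩

def k75_pp_022 : ∃ t, chk3 f_pp_022 t 4 23 1 = true :=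
  ⟨(a (c (a (b (a (b (b (b (b (l 14106776) (l 14098336)) (l 14097888)) (l 14097888)) (l 14097888)) (c (b (b (b (l 14250360) (l 14245512)) (l 14245512)) (l 14245512)) (c (l 14230760) (l 14216560)))) (c (l 14184888) (a (l 14074792) (l 14221496)))) (c (a (b (b (b (c (l 14425008) (c (l 14421408) (l 14400928))) (l 14407656)) (l 14407656)) (l 14407656)) (c (b (b (a (b (l 14568432) (l 14566096)) (c (l 14612944) (l 14562624))) (l 14558544)) (l 14579520)) (b (a (l 14515032) (l 14537144)) (l 14538280)))) (a (c (a (l 14371080) (b (l 14426176) (l 14425568))) (a (b (l 14334144) (l 14333528)) (l 14370008))) (l 14475976)))) (a (a (c (b (a (l 13998296) (l 14068520)) (l 14034608)) (a (c (l 13965344) (a (c (l 13929936) (l 13916336)) (l 13951120))) (c (c (l 14042808) (l 14032600)) (l 14012144)))) (c (c (a (l 14159768) (b (l 14238840) (l 14238208))) (a (c (l 14152032) (l 14132624)) (l 14195200))) (l 14127800))) (c (l 14371216) (l 14329400)))) (a (c (a (b (b (b (a (l 14590520) (l 14681904)) (l 14626616)) (l 14626616)) (l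 14626616)) (l 14920064)) (b (l 14603584) (l 14707832))) (c (b (l 15295344) (l 15378688)) (l 15203896)))), by decide +kernel⟩

def k76_pp_022 : ∃ t, chk3 f_pp_022 t 5 11 1 = true :=
  ⟨(b (a (c (b (c (a (c (l 16051872) (l 16051752)) (l 16134040)) (l 15965672)) (a (l 15901984) (l 16251472))) (a (b (l 16026432) (l 15872288)) (b (l 16376592) (l 16234256)))) (c (b (a (l 16504720) (l 16318344)) (a (l 16575184) (l 16622536))) (b (a (l 16498344) (l 16345856)) (a (l 16569832) (l 16617320))))) (a (a (c (l 15812248) (l 15778256)) (c (l 16169160) (l 16147744))) (c (a (b (l 16501984) (l 16501568)) (l 16754760)) (a (l 16492080) (l 16753976))))), by decide +kernel⟩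

def k77_pp_022 : ∃ t, chk3 f_pp_022 t 3 5 1 = true :=
  ⟨(a (b (b (b (c (a (c (c (l 15696592) (a (l 15790248) (l 15753024))) (c (a (l 15796928) (l 15732592)) (l 15747912))) (c (c (l 15682024) (l 15679960)) (l 15648512))) (a (l 15725472) (l 15618928))) (c (c (a (b (c (l 15669336) (l 15671416)) (c (a (l 15689168) (l 15688216)) (l 15693016))) (b (c (l 15576896) (l 15555440)) (l 15606736))) (b (l 15589944) (l 15463672))) (a (b (l 15613272) (l 15650072)) (b (l 15507048) (l 15555104))))) (c (a (b (c (c (l 15861128) (l 15843016)) (l 15830824)) (l 16065672)) (b (l 15757744) (l 16002008))) (a (b (l 15806016) (l 16040696)) (b (l 15721968) (l 15974800))))) (a (b (c (b (l 16319288) (l 16600816)) (b (l 16303216) (l 16594624))) (c (l 16776696) (l 16776672))) (b (b (c (l 16277216) (l 16259664)) (l 2)) (l 2)))) (a (b (b (b (c (c (c (l 15579000) (l 15553424)) (l 15537448)) (l 15504944)) (l 2)) (l 2)) (l 2)) (l 2))), by decide +kernel⟩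

def k78_pp_022 : ∃ t, chk3 f_pp_022 t 1 3 1 = true :=
  ⟨(a (a (a (c (a (b (b (c (l 14184888) (a (l 14074792) (l 14221496))) (c (l 14184888) (l 14149840))) (b (l 14169840) (l 14169840))) (b (b (c (a (l 14407656) (c (l 14579520) (l 14538280))) (a (c (a (l 14370760) (l 14425568)) (l 14358000)) (l 14475664))) (c (a (l 14407656) (l 14555336)) (a (c (l 14394232) (l 14358000)) (l 14475664)))) (a (c (l 14407656) (b (l 14371352) (l 14371352))) (b (l 14526896) (l 14526896))))) (b (a (c (a (b (l 14034608) (l 14034608)) (b (c (a (l 14159440) (l 14238208)) (l 14166544)) (c (l 14185872) (l 14166544)))) (a (c (a (l 13964856) (b (l 14031984) (l 14031984))) (a (b (l 13937912) (l 13937912)) (l 14011808))) (l 14127464))) (b (l 14350976) (l 14350976))) (a (a (c (l 14034608) (b (a (l 13948408) (l 14007128)) (l 13981696))) (c (b (a (l 14133304) (l 14222448)) (l 14165704)) (l 14127464))) (l 14350976)))) (b (c (a (b (a (l 14626616) (l 14919768)) (a (l 14626616) (l 14919768))) (b (l 15378688) (l 15378688))) (b (a (l 14707832)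 (l 15329432)) (a (l 14707832) (l 15329432)))) (a (a (l 14589296) (l 14887040)) (l 15354008)))) (b (b (a (c (l 15867664) (l 15965880)) (c (a (l 16501568) (l 16754576)) (a (l 16491856) (l 16753784)))) (a (b (l 15728000) (l 15979656)) (a (b (l 16496704) (l 2)) (l 2)))) (a (l 15895768) (l 2)))) (a (b (b (c (l 16777216) (l 16777216)) (l 2)) (l 2)) (l 2))), by decide +kernel⟩

theorem s79_pp_022 : ∃ t, chk3 f_pp_022 t 8 22 1 = true := ex3_a k72_pp_022 k73_pp_022

theorem s80_pp_022 : ∃ t, chk3 f_pp_022 t 4 22 1 = true := ex3_a s79_pp_022 k74_pp_022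

theorem s81_pp_022 : ∃ t, chk3 f_pp_022 t 4 11 1 = true := ex3_b s80_pp_022 k75_pp_022

theorem s82_pp_022 : ∃ t, chk3 f_pp_022 t 2 11 1 = true := ex3_a s81_pp_022 k76_pp_022

theorem s83_pp_022 : ∃ t, chk3 f_pp_022 t 9 20 1 = true := ex3_b k68_pp_022 k69_pp_022

theorem s84_pp_022 : ∃ t, chk3 f_pp_022 t 9 10 1 = true := ex3_b s83_pp_022 k70_pp_022

theorem s85_pp_022 : ∃ t, chk3 f_pp_022 t 8 20 3 = true := ex3_a k65_pp_022 k66_pp_022

theorem s86_pp_022 : ∃ t, chk3 f_pp_022 t 8 10 3 = true := ex3_b s85_pp_022 k67_pp_022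

theorem s87_pp_022 : ∃ t, chk3 f_pp_022 t 8 10 2 = true := ex3_b k63_pp_022 k64_pp_022

theorem s88_pp_022 : ∃ t, chk3 f_pp_022 t 8 10 1 = true := ex3_c s87_pp_022 s86_pp_022

theorem s89_pp_022 : ∃ t, chk3 f_pp_022 t 4 10 1 = true := ex3_a s88_pp_022 s84_pp_022

theorem s90_pp_022 : ∃ t, chk3 f_pp_022 t 2 10 1 = true := ex3_a s89_pp_022 k71_pp_022

theorem s91_pp_022 : ∃ t, chk3 f_pp_022 t 2 5 1 = true := ex3_b s90_pp_022 s82_pp_022

theorem s92_pp_022 : ∃ t, chk3 f_pp_022 t 1 5 1 = true := ex3_a s91_pp_022 k77_pp_022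

theorem s93_pp_022 : ∃ t, chk3 f_pp_022 t 5 18 1 = true := ex3_a k59_pp_022 k60_pp_022

theorem s94_pp_022 : ∃ t, chk3 f_pp_022 t 5 9 1 = true := ex3_b s93_pp_022 k61_pp_022

theorem s95_pp_022 : ∃ t, chk3 f_pp_022 t 9 19 1 = true := ex3_c k57_pp_022 k58_pp_022

theorem s96_pp_022 : ∃ t, chk3 f_pp_022 t 16 19 3 = true := ex3_b k54_pp_022 k55_pp_022

theorem s97_pp_022 : ∃ t, chk3 f_pp_022 t 8 19 3 = true := ex3_a s96_pp_022 k56_pp_022

theorem s98_pp_022 : ∃ t, chk3 f_pp_022 t 8 19 2 = true := ex3_a k52_pp_022 k53_pp_022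

theorem s99_pp_022 : ∃ t, chk3 f_pp_022 t 8 19 1 = true := ex3_c s98_pp_022 s97_pp_022

theorem s100_pp_022 : ∃ t, chk3 f_pp_022 t 4 19 1 = true := ex3_a s99_pp_022 s95_pp_022

theorem s101_pp_022 : ∃ t, chk3 f_pp_022 t 9 18 1 = true := ex3_c k50_pp_022 k51_pp_022

theorem s102_pp_022 : ∃ t, chk3 f_pp_022 t 17 18 1 = true := ex3_c k48_pp_022 k49_pp_022

theorem s103_pp_022 : ∃ t, chk3 f_pp_022 t 32 18 3 = true := ex3_c k45_pp_022 k46_pp_022

theorem s104_pp_022 : ∃ t, chk3 f_pp_022 t 16 18 3 = true := ex3_a s103_pp_022 k47_pp_022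

theorem s105_pp_022 : ∃ t, chk3 f_pp_022 t 16 18 2 = true := ex3_b k43_pp_022 k44_pp_022

theorem s106_pp_022 : ∃ t, chk3 f_pp_022 t 16 18 1 = true := ex3_c s105_pp_022 s104_pp_022

theorem s107_pp_022 : ∃ t, chk3 f_pp_022 t 8 18 1 = true := ex3_a s106_pp_022 s102_pp_022

theorem s108_pp_022 : ∃ t, chk3 f_pp_022 t 4 18 1 = true := ex3_a s107_pp_022 s101_pp_022

theorem s109_pp_022 : ∃ t, chk3 f_pp_022 t 4 9 1 = true := ex3_b s108_pp_022 s100_pp_022

theorem s110_pp_022 : ∃ t, chk3 f_pp_022 t 2 9 1 = true := ex3_a s109_pp_022 s94_pp_022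

theorem s111_pp_022 : ∃ t, chk3 f_pp_022 t 1 9 1 = true := ex3_a s110_pp_022 k62_pp_022

theorem s112_pp_022 : ∃ t, chk3 f_pp_022 t 3 8 1 = true := ex3_b k41_pp_022 k42_pp_022

theorem s113_pp_022 : ∃ t, chk3 f_pp_022 t 5 32 3 = true := ex3_a k37_pp_022 k38_pp_022

theorem s114_pp_022 : ∃ t, chk3 f_pp_022 t 5 32 1 = true := ex3_c k36_pp_022 s113_pp_022

theorem s115_pp_022 : ∃ t, chk3 f_pp_022 t 5 16 1 = true := ex3_b s114_pp_022 k39_pp_022

theorem s116_pp_022 : ∃ t, chk3 f_pp_022 t 5 8 1 = true := ex3_b s115_pp_022 k40_pp_022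

theorem s117_pp_022 : ∃ t, chk3 f_pp_022 t 9 17 1 = true := ex3_c k34_pp_022 k35_pp_022

theorem s118_pp_022 : ∃ t, chk3 f_pp_022 t 35 17 4 = true := ex3_b k30_pp_022 k31_pp_022

theorem s119_pp_022 : ∃ t, chk3 f_pp_022 t 35 17 2 = true := ex3_c s118_pp_022 k32_pp_022

theorem s120_pp_022 : ∃ t, chk3 f_pp_022 t 34 17 2 = true := ex3_c k28_pp_022 k29_pp_022

theorem s121_pp_022 : ∃ t, chk3 f_pp_022 t 17 17 2 = true := ex3_a s120_pp_022 s119_pp_022

theorem s122_pp_022 : ∃ t, chk3 f_pp_022 t 17 17 1 = true := ex3_c s121_pp_022 k33_pp_022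

theorem s123_pp_022 : ∃ t, chk3 f_pp_022 t 32 35 7 = true := ex3_b k25_pp_022 k26_pp_022

theorem s124_pp_022 : ∃ t, chk3 f_pp_022 t 32 35 3 = true := ex3_c k24_pp_022 s123_pp_022

theorem s125_pp_022 : ∃ t, chk3 f_pp_022 t 16 35 3 = true := ex3_a s124_pp_022 k27_pp_022

theorem s126_pp_022 : ∃ t, chk3 f_pp_022 t 16 34 3 = true := ex3_b k22_pp_022 k23_pp_022

theorem s127_pp_022 : ∃ t, chk3 f_pp_022 t 16 17 3 = true := ex3_b s126_pp_022 s125_pp_022

theorem s128_pp_022 : ∃ t, chk3 f_pp_022 t 16 17 2 = true := ex3_a k20_pp_022 k21_pp_022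

theorem s129_pp_022 : ∃ t, chk3 f_pp_022 t 16 17 1 = true := ex3_c s128_pp_022 s127_pp_022

theorem s130_pp_022 : ∃ t, chk3 f_pp_022 t 8 17 1 = true := ex3_a s129_pp_022 s122_pp_022

theorem s131_pp_022 : ∃ t, chk3 f_pp_022 t 4 17 1 = true := ex3_a s130_pp_022 s117_pp_022

theorem s132_pp_022 : ∃ t, chk3 f_pp_022 t 9 33 1 = true := ex3_a k18_pp_022 k19_pp_022

theorem s133_pp_022 : ∃ t, chk3 f_pp_022 t 9 64 7 = true := ex3_a k15_pp_022 k16_pp_022

theorem s134_pp_022 : ∃ t, chk3 f_pp_022 t 9 64 3 = true := ex3_c k14_pp_022 s133_pp_022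

theorem s135_pp_022 : ∃ t, chk3 f_pp_022 t 9 32 3 = true := ex3_b s134_pp_022 k17_pp_022

theorem s136_pp_022 : ∃ t, chk3 f_pp_022 t 9 32 1 = true := ex3_c k13_pp_022 s135_pp_022

theorem s137_pp_022 : ∃ t, chk3 f_pp_022 t 9 16 1 = true := ex3_b s136_pp_022 s132_pp_022

theorem s138_pp_022 : ∃ t, chk3 f_pp_022 t 17 67 1 = true := ex3_c k11_pp_022 k12_pp_022

theorem s139_pp_022 : ∃ t, chk3 f_pp_022 t 8 67 1 = true := ex3_a k10_pp_022 s138_pp_022

theorem s140_pp_022 : ∃ t, chk3 f_pp_022 t 17 66 1 = true := ex3_a k8_pp_022 k9_pp_022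

theorem s141_pp_022 : ∃ t, chk3 f_pp_022 t 8 66 1 = true := ex3_a k7_pp_022 s140_pp_022

theorem s142_pp_022 : ∃ t, chk3 f_pp_022 t 8 33 1 = true := ex3_b s141_pp_022 s139_pp_022

theorem s143_pp_022 : ∃ t, chk3 f_pp_022 t 35 65 1 = true := ex3_c k5_pp_022 k6_pp_022

theorem s144_pp_022 : ∃ t, chk3 f_pp_022 t 17 65 1 = true := ex3_a k4_pp_022 s143_pp_022

theorem s145_pp_022 : ∃ t, chk3 f_pp_022 t 35 64 1 = true := ex3_b k2_pp_022 k3_pp_022

theorem s146_pp_022 : ∃ t, chk3 f_pp_022 t 17 64 1 = true := ex3_a k1_pp_022 s145_pp_022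

theorem s147_pp_022 : ∃ t, chk3 f_pp_022 t 17 32 1 = true := ex3_b s146_pp_022 s144_pp_022

theorem s148_pp_022 : ∃ t, chk3 f_pp_022 t 8 32 1 = true := ex3_a k0_pp_022 s147_pp_022

theorem s149_pp_022 : ∃ t, chk3 f_pp_022 t 8 16 1 = true := ex3_b s148_pp_022 s142_pp_022

theorem s150_pp_022 : ∃ t, chk3 f_pp_022 t 4 16 1 = true := ex3_a s149_pp_022 s137_pp_022

theorem s151_pp_022 : ∃ t, chk3 f_pp_022 t 4 8 1 = true := ex3_b s150_pp_022 s131_pp_022

theorem s152_pp_022 : ∃ t, chk3 f_pp_022 t 2 8 1 = true := ex3_a s151_pp_022 s116_pp_022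

theorem s153_pp_022 : ∃ t, chk3 f_pp_022 t 1 8 1 = true := ex3_a s152_pp_022 s112_pp_022

theorem s154_pp_022 : ∃ t, chk3 f_pp_022 t 1 4 1 = true := ex3_b s153_pp_022 s111_pp_022

theorem s155_pp_022 : ∃ t, chk3 f_pp_022 t 1 2 1 = true := ex3_b s154_pp_022 s92_pp_022

theorem s156_pp_022 : ∃ t, chk3 f_pp_022 t 1 1 1 = true := ex3_b s155_pp_022 k78_pp_022

theorem c_pp_022 : CertNX 0 536870912 1073741824 536870912 1046898278 26843546 3 false true true .pp 0 2 2
    ndN0q0 ndN3q2 pcN2 cut_pp_022 Ext.none :=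
  certNX1 (fam := false) (s1 := true) (s2 := true) (a := 0) (b := 2) (c := 2) (cn := .pp) (n1 := ndN0q0) (n2 := ndN3q2) (pc := pcN2) (cut := cut_pp_022) (xt := Ext.none) (P1 := 0) (W1 := 536870912) (P2 := 1073741824) (W2 := 536870912) (P3 := 1046898278) (W3 := 26843546) (N0 := 3)
    rfl (fun _ => rfl) s156_pp_022

noncomputable def f_pp_023 : ℕ → ℕ → ℕ → ℕ → Bool := onCell 0 536870912 1073741824 536870912 1046898278 26843546
    (rowNX 3 1 false true true .up 0 2 3 (qsf 0 536870912 1610612736 536870912 2) ndN0q0 ndN3q3 pcN2 Cut.none Ext.none)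

def k0_pp_023 : ∃ t, chk3 f_pp_023 t 1 4 1 = true :=
  ⟨(a (l 1) (b (a (l 1) (a (b (l 1) (b (l 1) (b (l 1) (c (l 15551016) (l 15680672))))) (b (b (c (b (l 15463984) (l 15565408)) (b (c (b (l 15401104) (l 15455800)) (b (c (l 15379048) (b (a (l 1) (c (l 15357576) (l 15326512))) (l 15377192))) (l 71971204743))) (c (l 15497000) (l 15445832)))) (c (l 15632200) (c (l 15529688) (l 15513136)))) (c (b (c (l 15692248) (l 15638984)) (c (l 15696320) (l 15662544))) (b (l 15601056) (c (l 15666880) (l 15627824))))))) (b (a (l 1) (b (c (c (a (l 15823440) (l 15795848)) (a (l 443486428791) (c (l 15766632) (l 15771032)))) (c (a (c (l 405905429543) (l 15785576)) (b (l 15753456) (l 15808224))) (l 15757064))) (c (c (a (l 15989320) (c (l 15921632) (l 15928040))) (a (c (l 15979232) (l 15881320)) (c (l 15937632) (l 15894216)))) (a (l 15966664) (l 15910240))))) (b (a (l 1) (a (c (c (b (c (l 16090224) (l 16056776)) (l 15906232)) (c (b (l 15903784) (l 16016328)) (l 16034384))) (l 98815759911)) (c (c (b (c (l 16004440) (l 15934728))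 (l 15779080)) (l 15952144)) (b (l 15974944) (l 15886824))))) (a (a (l 1) (a (l 1) (c (c (l 15725112) (l 15875944)) (l 15852320)))) (c (c (a (c (l 15828872) (l 15832472)) (c (l 15739688) (l 15712840))) (l 15747928)) (a (l 15776904) (l 15670688)))))))), by decide +kernel⟩

def k1_pp_023 : ∃ t, chk3 f_pp_023 t 1 5 1 = true :=
  ⟨(a (b (l 1) (a (l 1) (a (l 1) (b (l 1) (b (l 1) (l 410202333847)))))) (b (b (a (a (l 1) (c (b (c (c (l 15682024) (l 15679960)) (l 15648512)) (b (a (l 1) (l 15524184)) (l 15596544))) (b (l 15618928) (b (l 15507048) (l 15555104))))) (b (c (c (a (c (l 15579000) (l 15553424)) (l 15440240)) (l 15474160)) (a (l 15504944) (l 15381264))) (c (b (a (l 15440200) (l 15320752)) (a (l 15498184) (l 15391192))) (a (b (l 15393272) (l 15453296)) (b (l 15269632) (l 15342544)))))) (a (c (a (b (l 1) (l 16044696)) (b (l 15757744) (l 16002008))) (a (l 470330231543) (l 151428779559))) (c (a (b (l 15670560) (l 15933528)) (b (l 15575536) (l 15858704))) (a (l 15572800) (b (l 15533352) (l 15826464)))))) (b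 (a (c (b (a (l 16319288) (l 16277216)) (a (l 16600816) (l 16584256))) (b (l 181494426311) (l 176663487943))) (b (c (a (l 16231848) (l 16182176)) (l 16060056)) (c (a (l 16566368) (l 16545960)) (a (l 16558968) (l 16537864))))) (c (a (a (l 16776696) (l 16776648)) (b (l 16775960) (l 16777216))) (a (l 16776648) (l 16860456)))))), by decide +kernel⟩

def k2_pp_023 : ∃ t, chk3 f_pp_023 t 1 3 1 = true :=
  ⟨(b (b (a (a (l 1) (a (c (l 15804752) (l 15965880)) (c (l 360810194135) (l 300143775991)))) (a (c (l 16777216) (l 16777216)) (a (l 16777216) (l 16777208)))) (a (b (a (l 1) (a (l 174514502407) (a (l 16496704) (l 16754176)))) (a (a (l 1) (a (l 1) (l 15354008))) (a (l 15979656) (l 16627952)))) (a (l 16777216) (l 16777176)))) (a (a (a (a (b (l 1) (c (l 14169840) (a (c (l 14034608) (l 13981696)) (l 14012664)))) (c (c (a (l 14407656) (l 185249072007)) (b (l 206723642791) (l 14422488))) (l 14350976))) (a (a (l 14589296) (l 14887040)) (l 15354008))) (a (l 15874800) (a (l 16496704) (l 16754176)))) (a (l 16777176)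 (b (a (l 16777168) (l 16725920)) (a (l 16725920) (l 16698240)))))), by decide +kernel⟩

theorem s3_pp_023 : ∃ t, chk3 f_pp_023 t 1 2 1 = true := ex3_b k0_pp_023 k1_pp_023

theorem s4_pp_023 : ∃ t, chk3 f_pp_023 t 1 1 1 = true := ex3_b s3_pp_023 k2_pp_023

theorem c_pp_023 : CertNX 0 536870912 1610612736 536870912 1046898278 26843546 3 false true true .up 0 2 3
    ndN0q0 ndN3q3 pcN2 Cut.none Ext.none :=
  certNX1 (fam := false) (s1 := true) (s2 := true) (a := 0) (b := 2) (c := 3) (cn := .up) (n1 := ndN0q0) (n2 := ndN3q3) (pc := pcN2) (cut := Cut.none) (xt := Ext.none) (P1 := 0) (W1 := 536870912) (P2 := 1610612736) (W2 := 536870912) (P3 := 1046898278) (W3 := 26843546) (N0 := 3)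
    rfl (fun _ => rfl) s4_pp_023

noncomputable def f_pp_033 : ℕ → ℕ → ℕ → ℕ → Bool := onCell 0 536870912 1610612736 536870912 1046898278 26843546
    (rowNX 3 1 false true true .pnn 0 3 3 (qsf 0 536870912 1610612736 536870912 3) ndN0q0 ndN3q3 pcN3 Cut.none Ext.none)

def k0_pp_033 : ∃ t, chk3 f_pp_033 t 1 1 1 = true :=
  ⟨(a (b (a (b (a (a (c (l 14169840) (a (c (l 14034608) (a (l 13948408) (l 14007128))) (b (l 14117520) (l 14117520)))) (c (a (c (l 14407656) (l 14371352)) (l 14526896)) (l 14350976))) (a (a (l 14589296) (l 14887040)) (l 15354008))) (a (b (a (c (l 14169840) (a (c (l 14034608) (l 13981696)) (l 14033632))) (c (a (c (l 14407656) (l 14371352)) (l 14526896)) (l 14350976))) (c (a (l 14169840) (c (a (l 14407656) (l 14555328)) (l 14422480))) (a (a (c (l 14034608) (l 13981696)) (c (l 14165704) (l 14127464))) (l 14350968)))) (b (a (c (l 14728656) (l 14707832)) (l 15354000)) (a (c (l 14728624) (l 14707800)) (l 15353960))))) (b (a (b (l 15979656) (l 15979648)) (b (l 16627944) (l 16627912))) (b (a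 (l 15958640) (a (l 16491936) (l 16702264))) (a (b (l 15974968) (a (l 15788312) (l 16117424))) (b (a (l 16454448) (l 16674464)) (a (l 16426144) (l 4))))))) (a (b (b (a (c (a (l 13918152) (c (a (l 14407608) (l 14555288)) (l 14338552))) (a (c (a (l 14034584) (l 14165664)) (b (l 13998976) (l 13894080))) (l 14350928))) (b (a (l 14609536) (l 15347456)) (l 4))) (l 4)) (l 4)) (b (b (a (b (a (l 4) (l 4)) (l 4)) (l 4)) (l 4)) (a (b (l 4) (l 2)) (l 2))))) (b (a (b (b (a (l 16777168) (l 16725920)) (a (b (l 16771984) (l 16724152)) (l 16866008))) (b (a (b (l 16714168) (l 16692928)) (b (l 16633808) (l 16741960))) (a (b (a (l 16685896) (l 16754848)) (l 4)) (l 16743800)))) (b (b (a (l 16698240) (b (l 16633808) (l 16741960))) (a (b (l 16633808) (l 16741960)) (l 16743800))) (a (b (l 16743800) (l 2)) (l 2)))) (a (b (a (b (l 4) (l 2)) (l 2)) (l 2)) (l 2)))), by decide +kernel⟩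

theorem c_pp_033 : CertNX 0 536870912 1610612736 536870912 1046898278 26843546 3 false true true .pnn 0 3 3
    ndN0q0 ndN3q3 pcN3 Cut.none Ext.none :=
  certNX1 (fam := false) (s1 := true) (s2 := true) (a := 0) (b := 3) (c := 3) (cn := .pnn) (n1 := ndN0q0) (n2 := ndN3q3) (pc := pcN3) (cut := Cut.none) (xt := Ext.none) (P1 := 0) (W1 := 536870912) (P2 := 1610612736) (W2 := 536870912) (P3 := 1046898278) (W3 := 26843546) (N0 := 3)
    rfl (fun _ => rfl) k0_pp_033

noncomputable def f_pp_101 : ℕ → ℕ → ℕ → ℕ → Bool := onCell 536870912 536870912 536870912 536870912 1046898278 26843546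
    (rowNX 3 0 false true true .npn 1 0 1 (qsf 536870912 536870912 536870912 536870912 0) ndN0q1 ndN3q1 pcN0 Cut.none Ext.none)

def k0_pp_101 : ∃ t, chk3 f_pp_101 t 1 1 1 = true :=
  ⟨(a (l 3) (l 5)), by decide +kernel⟩

theorem c_pp_101 : CertNX 536870912 536870912 536870912 536870912 1046898278 26843546 3 false true true .npn 1 0 1
    ndN0q1 ndN3q1 pcN0 Cut.none Ext.none :=
  certNX0 (fam := false) (s1 := true) (s2 := true) (a := 1) (b := 0) (c := 1) (cn := .npn) (n1 := ndN0q1) (n2 := ndN3q1) (pc := pcN0) (cut := Cut.none) (xt := Ext.none) (P1 := 536870912) (W1 := 536870912) (P2 := 536870912) (W2 := 536870912) (P3 := 1046898278) (W3 := 26843546) (N0 := 3)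
    rfl k0_pp_101

noncomputable def f_pp_102 : ℕ → ℕ → ℕ → ℕ → Bool := onCell 536870912 536870912 0 536870912 1046898278 26843546
    (rowNX 3 1 false true true .npp 1 0 2 (qsf 536870912 536870912 1073741824 536870912 0) ndN0q1 ndN3q2 pcN0 Cut.none Ext.none)

def k0_pp_102 : ∃ t, chk3 f_pp_102 t 1 1 1 = true :=
  ⟨(l 3), by decide +kernel⟩

theorem c_pp_102 : CertNX 536870912 536870912 1073741824 536870912 1046898278 26843546 3 false true true .npp 1 0 2
    ndN0q1 ndN3q2 pcN0 Cut.none Ext.none :=
  certNX1 (fam := false) (s1 := true) (s2 := true) (a := 1) (b := 0) (c := 2) (cn := .npp) (n1 := ndN0q1) (n2 := ndN3q2) (pc := pcN0) (cut := Cut.none) (xt := Ext.none) (P1 := 536870912) (W1 := 536870912) (P2 := 1073741824) (W2 := 536870912) (P3 := 1046898278) (W3 := 26843546) (N0 := 3)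
    rfl (fun _ => rfl) k0_pp_102

noncomputable def f_pp_112 : ℕ → ℕ → ℕ → ℕ → Bool := onCell 536870912 536870912 536870912 536870912 1046898278 26843546
    (rowNX 3 1 false true true .dn 1 1 2 (qsf 536870912 536870912 1073741824 536870912 1) ndN0q1 ndN3q2 pcN1 Cut.none Ext.none)

def k0_pp_112 : ∃ t, chk3 f_pp_112 t 1 1 1 = true :=
  ⟨(b (l 3) (b (l 3) (a (b (l 3) (b (l 3) (a (a (b (l 3) (c (l 232629955479) (b (l 3) (c (l 15392368) (b (l 3) (l 15355848)))))) (l 2)) (l 2)))) (l 2)))), by decide +kernel⟩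

theorem c_pp_112 : CertNX 536870912 536870912 1073741824 536870912 1046898278 26843546 3 false true true .dn 1 1 2
    ndN0q1 ndN3q2 pcN1 Cut.none Ext.none :=
  certNX1 (fam := false) (s1 := true) (s2 := true) (a := 1) (b := 1) (c := 2) (cn := .dn) (n1 := ndN0q1) (n2 := ndN3q2) (pc := pcN1) (cut := Cut.none) (xt := Ext.none) (P1 := 536870912) (W1 := 536870912) (P2 := 1073741824) (W2 := 536870912) (P3 := 1046898278) (W3 := 26843546) (N0 := 3)
    rfl (fun _ => rfl) k0_pp_112

noncomputable def cut_pp_113 : Cut := Cut.of [[⟨0, 1, 0, 67108864⟩, ⟨1, 1, 0, 67108864⟩, ⟨2, 2, 0, 67108864⟩, ⟨3, 0, 0, 1233125376⟩]]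

noncomputable def f_pp_113 : ℕ → ℕ → ℕ → ℕ → Bool := onCell 536870912 536870912 536870912 536870912 1046898278 26843546
    (rowNX 3 1 false true true .nn 1 1 3 (qsf 536870912 536870912 1610612736 536870912 1) ndN0q1 ndN3q3 pcN1 cut_pp_113 Ext.none)

def k0_pp_113 : ∃ t, chk3 f_pp_113 t 1 1 1 = true :=
  ⟨(b (l 3) (b (l 3) (b (a (l 3) (l 3)) (b (a (l 3) (l 3)) (b (a (l 3) (a (l 3) (l 3))) (b (a (l 3) (a (l 3) (l 3))) (b (a (a (l 3) (l 3)) (a (l 3) (a (l 3) (l 3)))) (b (a (a (l 3) (l 3)) (a (a (l 3) (l 3)) (a (l 3) (l 3)))) (a (a (c (a (l 15412096) (l 15412096)) (a (l 15363008) (l 15363008))) (c (l 15411872) (a (l 15363000) (l 15362992)))) (a (a (c (l 15412088) (c (l 15376232) (l 15350960))) (c (a (l 15412168) (l 15398920)) (a (l 15363088) (c (l 15360576) (c (l 15341160) (l 15223024)))))) (a (b (l 3) (a (c (l 15238944) (c (l 15157072) (l 15080152))) (c (a (l 15154696) (l 15139480)) (c (l 14977896) (a (l 14925336) (l 14817640)))))) (a (a (a (b (l 3) (b (l 3) (c (l 15146552) (l 14786088)))) (l 6)) (l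 6)) (l 6))))))))))))), by decide +kernel⟩

theorem c_pp_113 : CertNX 536870912 536870912 1610612736 536870912 1046898278 26843546 3 false true true .nn 1 1 3
    ndN0q1 ndN3q3 pcN1 cut_pp_113 Ext.none :=
  certNX1 (fam := false) (s1 := true) (s2 := true) (a := 1) (b := 1) (c := 3) (cn := .nn) (n1 := ndN0q1) (n2 := ndN3q3) (pc := pcN1) (cut := cut_pp_113) (xt := Ext.none) (P1 := 536870912) (W1 := 536870912) (P2 := 1610612736) (W2 := 536870912) (P3 := 1046898278) (W3 := 26843546) (N0 := 3)
    rfl (fun _ => rfl) k0_pp_113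

end Pool.Agent.Strip051.G.IE1.Tab.C.NB03

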