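import Pool.Agent.Strip051.G.IE1.Tab

/-! # Certificates N50 (generated) -/

set_option linter.all false
set_option maxRecDepth 100000

namespace Pool.Agent.Strip051.G.IE1.Tab.C.NB03

open Pool.Agent.Strip051.PB Pool.Agent.Strip051.PB.T
open Pool.Agent.Strip051.G.IE1.Tab

noncomputable def cut_pp_123 : Cut := Cut.of [[⟨0, 1, 0, 67108864⟩, ⟨1, 1, 0, 67108864⟩, ⟨2, 2, 0, 67108864⟩, ⟨3, 0, 0, 1233125376⟩]]

noncomputable def f_pp_123 : ℕ → ℕ → ℕ → ℕ → Bool := onCell 1073741824 536870912 1610612736 536870912 1046898278 26843546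
    (rowNX 3 2 false true true .npn 1 2 3 (qsf 536870912 536870912 1610612736 536870912 2) ndN0q1 ndN3q3 pcN2 cut_pp_123 Ext.none)

def k0_pp_123 : ∃ t, chk3 f_pp_123 t 8 2 1 = true :=
  ⟨(a (a (c (b (a (b (l 15463792) (l 15401248)) (b (l 15566192) (c (l 15587176) (l 15550960)))) (b (a (l 15464552) (l 15506128)) (a (a (l 15438144) (l 15503120)) (c (l 15590208) (l 15554256))))) (a (b (c (a (b (l 15401072) (l 15401328)) (b (l 15456568) (l 15457712))) (a (c (b (l 15379128) (l 15379392)) (a (c (l 15357744) (b (b (l 15347504) (l 15347528)) (b (l 15347552) (l 15347576)))) (b (l 15377408) (l 15377704)))) (b (l 15416752) (l 15417240)))) (c (a (b (l 15401600) (l 15401904)) (b (l 15458992) (l 15460472))) (c (a (b (l 15379672) (l 15379992)) (b (l 15423048) (l 15427624))) (a (a (c (l 15358264) (a (b (l 15343856) (l 15343896)) (l 15351416))) (b (l 15378040) (l 15378440))) (l 15389560))))) (b (c (b (l 15497928) (l 15499512)) (b (l 15446256) (l 15446984))) (c (b (l 15501288) (l 15503336)) (b (l 15447856)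 (l 15448912)))))) (b (c (c (l 15642816) (l 15605136)) (c (b (l 15550776) (l 15530104)) (l 58012898535))) (c (c (b (l 15663616) (l 15663488)) (l 15605936)) (c (b (l 15551408) (l 15509864)) (l 15514968))))) (b (c (c (a (l 15688856) (b (l 15695784) (l 15682736))) (a (b (l 15637952) (l 15633736)) (b (l 15662136) (l 15649984)))) (a (b (l 15600672) (l 15598712)) (c (b (l 15666800) (l 15659304)) (l 15620944)))) (c (a (c (l 15678056) (b (l 15627968) (c (l 15621176) (l 15606144)))) (c (b (l 15668232) (c (l 15659760) (l 15631560))) (b (l 15615424) (l 15566712)))) (a (b (l 15596264) (l 15593104)) (b (c (l 15648760) (l 15598960)) (l 15592256)))))), by decide +kernel⟩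

def k1_pp_123 : ∃ t, chk3 f_pp_123 t 8 6 1 = true :=
  ⟨(a (a (c (a (b (a (l 15438496) (l 15504816)) (b (a (l 15439624) (l 15506008)) (b (l 15426216) (a (l 15420640) (l 15499896))))) (b (c (l 15592120) (l 15556328)) (c (a (l 15574112) (l 15615528)) (a (l 15543912) (l 15577008))))) (a (c (b (a (l 15402272) (l 15462256)) (a (b (l 15403392) (b (l 15404168) (l 15380264))) (b (l 15463512) (c (l 15470064) (l 15450568))))) (c (a (b (l 15380368) (b (l 15381360) (a (l 15354200) (l 15392232)))) (b (l 15431920) (b (l 15432288) (l 15427304)))) (a (b (a (a (a (l 15345792) (b (l 15358520) (l 15358640))) (l 15361352)) (l 15378944)) (a (b (a (a (l 15345528) (l 15358784)) (l 15366136)) (c (l 15342416) (a (a (a (l 15322712) (l 15328192)) (l 15335088)) (l 15343688)))) (b (l 15379032) (l 15284680)))) (b (l 15396560) (b (l 15397160) (l 15391992)))))) (c (b (l 15472096) (a (b (l 15498384) (l 15499024)) (l 15523440))) (b (l 15450264) (c (b (l 15460344) (l 15460312)) (l 15438632)))))) (c (a (b (l 15624232)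 (c (l 15653664) (l 15601520))) (c (l 15674080) (l 15592744))) (c (b (a (l 15537840) (l 15561168)) (a (c (l 15550800) (l 15518232)) (l 15561392))) (b (l 15516288) (l 15499944))))) (c (a (c (b (l 15667624) (l 15623368)) (a (b (l 15613944) (l 15637544)) (b (l 15552096) (c (l 15608624) (l 15592120))))) (c (b (a (l 15637288) (l 15491384)) (a (c (l 15626352) (l 15608896)) (c (l 15598824) (l 15587848)))) (b (c (l 15608136) (l 15598664)) (a (l 15625248) (l 15566760))))) (a (b (l 15588944) (a (l 15573608) (l 15569160))) (b (l 15572728) (l 15549200))))), by decide +kernel⟩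

def k2_pp_123 : ∃ t, chk3 f_pp_123 t 32 14 1 = true :=
  ⟨(c (c (b (a (b (l 15400200) (l 15330688)) (a (l 15310904) (l 15542240))) (a (b (l 15310224) (a (l 15264920) (l 15382496))) (a (b (l 15462392) (l 15482448)) (l 15540856)))) (a (b (a (l 15074896) (l 15327992)) (a (b (l 15172560) (l 15146792)) (b (l 15293632) (l 15279880)))) (b (a (l 15368920) (l 15449488)) (a (b (l 15389560) (l 15385728)) (l 15457544))))) (a (c (b (a (b (l 15270976) (l 15155176)) (c (l 15332792) (l 15302536))) (a (b (l 15085784) (a (l 14988544) (l 15068520))) (c (b (l 15234160) (l 15199064)) (b (l 15188952) (l 15139552))))) (a (a (c (b (l 15143280) (b (l 14985896) (l 14894472))) (b (c (b (l 15193752) (l 15050000)) (a (a (a (l 15082648) (l 15090912)) (l 15102272)) (l 15119696))) (c (b (l 14950168) (l 14845288)) (a (b (c (l 14915360) (a (l 14893816) (l 14911744))) (a (a (l 14775608) (l 14789648)) (l 14804312))) (l 14884280))))) (b (c (l 15202048) (c (l 15175320) (l 15150320))) (c (b (l 15056576) (l 14977024)) (c (l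 14966760) (l 14929712))))) (b (c (b (l 15328784) (l 15208936)) (l 15179784)) (c (b (l 15138216) (c (l 15091208) (l 15054416))) (b (l 15077448) (l 14998928)))))) (b (c (a (b (l 15440320) (l 15345256)) (b (l 15488440) (l 15404704))) (c (b (l 15365480) (l 15285976)) (l 15335216))) (c (c (b (l 15361896) (l 15345800)) (a (l 15255504) (l 15326768))) (c (b (l 15213872) (a (l 15170432) (l 15258816))) (l 15193840)))))), by decide +kernel⟩

def k3_pp_123 : ∃ t, chk3 f_pp_123 t 33 14 1 = true :=
  ⟨(c (b (a (c (b (l 15644648) (l 15609696)) (b (l 15590848) (l 15544704))) (c (l 15660168) (l 15596016))) (a (c (b (l 15611240) (l 15641120)) (a (l 15514496) (l 15555880))) (c (l 15675584) (l 15594656)))) (b (c (a (c (l 15446072) (b (l 15504608) (l 15443720))) (b (l 15560544) (l 15534528))) (b (l 15510888) (l 15464208))) (c (a (c (l 15460840) (b (l 15417944) (l 15410912))) (a (l 15503776) (l 15539528))) (l 15323488)))), by decide +kernel⟩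

def k4_pp_123 : ∃ t, chk3 f_pp_123 t 16 15 1 = true :=
  ⟨(b (b (a (a (b (c (a (c (b (l 15295048) (l 15310968)) (l 15138536)) (c (l 15422944) (l 15349304))) (c (a (a (l 14926968) (l 15022816)) (c (l 15179128) (l 15101912))) (a (c (a (l 14795952) (l 14899280)) (a (c (l 14665240) (a (a (a (l 14633480) (l 14651352)) (l 14671584)) (l 14709872))) (c (l 14830528) (l 14778664)))) (c (c (l 15040232) (l 14993928)) (c (l 14945656) (l 14911176)))))) (a (l 6) (a (l 6) (c (c (l 15499640) (l 15331952)) (c (l 15147472) (c (l 14993688) (l 14892464))))))) (c (c (a (b (l 15524672) (a (l 15550240) (l 15594824))) (l 15663712)) (a (b (l 15400856) (l 15419912)) (l 15496576))) (c (c (a (l 15294048) (l 15388712)) (a (b (l 15223912) (l 15203600)) (l 15307856))) (c (a (c (l 15141008) (a (l 15058544) (l 15130048))) (l 15234240)) (l 15110056))))) (c (c (a (a (l 15680912) (l 15724608)) (l 15759984)) (a (a (l 15562856) (l 15610728)) (l 15656792))) (c (a (c (l 15486160) (a (l 15381168) (l 15455376))) (l 15497104))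 (l 15423336)))) (a (a (l 6) (a (l 6) (a (l 6) (c (c (l 15795264) (l 15616536)) (c (l 15409232) (l 15211480)))))) (c (c (a (a (l 15828512) (l 15862120)) (l 15886696)) (a (a (c (l 15710416) (l 15622464)) (l 15713920)) (a (l 15746296) (l 15768608)))) (a (c (c (l 15559920) (a (c (l 15452656) (l 15407320)) (l 15512544))) (l 15362504)) (c (l 15634368) (l 15525760)))))) (b (b (a (l 6) (a (l 6) (c (c (l 16070864) (l 15923288)) (l 15715184)))) (l 6)) (l 6))), by decide +kernel⟩

def k5_pp_123 : ∃ t, chk3 f_pp_123 t 17 7 1 = true :=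
  ⟨(a (a (b (c (b (c (l 15659992) (c (l 15613128) (b (l 15592016) (l 15587112)))) (c (l 15686920) (c (l 15635704) (b (l 15597728) (l 15624800))))) (b (l 15557536) (l 15561904))) (b (c (c (b (l 15769736) (l 15885808)) (c (l 15746224) (l 15703672))) (l 15598000)) (b (c (c (c (l 16161664) (l 16097968)) (c (l 16032296) (l 15976840))) (l 15851112)) (l 6)))) (b (c (b (c (l 15638136) (c (l 15601456) (l 15587304))) (c (l 15673928) (b (l 15618232) (l 15646528)))) (b (l 15561576) (l 15589032))) (b (c (c (c (l 15813648) (l 15774288)) (l 15726040)) (l 15651056)) (b (c (a (c (l 16096392) (l 15984960)) (l 15971344)) (l 15859232)) (a (l 6) (c (l 16327560) (l 16262776))))))) (b (c (c (b (a (c (l 15616344) (l 15594648)) (c (l 15572864) (l 15559248))) (a (c (l 15648480) (l 15626968)) (l 15589448))) (b (l 15561680) (l 15595240))) (b (l 15530184) (a (l 15583984) (l 15552592)))) (b (c (c (a (c (l 15757128) (l 15730032)) (l 15674224)) (l 15676440)) (a (l 15644464) (l 15604360))) (c (a (b (l 15964192) (c (l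 16304608) (l 16301280))) (b (l 15876408) (c (l 16190840) (l 16169608)))) (b (l 15798968) (a (b (l 16051816) (l 16327760)) (l 15969768))))))), by decide +kernel⟩

def k6_pp_123 : ∃ t, chk3 f_pp_123 t 9 2 1 = true :=
  ⟨(a (b (b (a (a (a (c (l 15703072) (l 15713048)) (l 1)) (l 1)) (l 1)) (c (a (c (l 15763296) (c (l 15749928) (l 15746504))) (c (c (l 15892904) (l 15904104)) (c (l 15901672) (l 15894864)))) (a (l 15727168) (l 15875616)))) (c (a (b (c (c (l 15718312) (l 15722560)) (c (l 15723032) (l 15675360))) (c (a (l 15666672) (l 15673496)) (c (l 15655032) (l 15678080)))) (b (c (c (l 15805832) (l 15805984)) (l 15834704)) (c (c (l 15596912) (l 15775552)) (l 15762464)))) (a (b (l 15692888) (l 15654080)) (b (l 15809976) (l 15735848))))) (b (b (l 1) (a (c (c (a (c (l 15956616) (l 15900672)) (l 15734248)) (l 15922184)) (l 75730094823)) (b (l 1) (c (l 15671216) (l 15632400))))) (c (a (b (a (c (c (b (l 15922952) (l 15864312)) (l 15880432)) (l 15868728)) (l 15786784)) (a (l 15774328) (l 15671584)))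 (b (l 15584960) (l 15456864))) (a (b (a (l 15844904) (l 15752016)) (a (l 15739120) (l 15632776))) (b (l 15543112) (l 15410520)))))), by decide +kernel⟩

def k7_pp_123 : ∃ t, chk3 f_pp_123 t 9 3 1 = true :=
  ⟨(b (a (c (a (b (c (c (l 15513304) (l 15518576)) (l 15638880)) (a (c (c (l 15604376) (l 15586632)) (l 15571056)) (l 15603056))) (b (l 15499480) (c (l 15599200) (l 15578640)))) (a (b (l 15609000) (l 15554848)) (b (l 15649976) (l 15547208)))) (c (a (b (a (l 15614224) (l 15538584)) (a (l 15515088) (l 15380088))) (b (l 15309328) (l 15050136))) (a (b (a (l 15616816) (l 15495112)) (a (l 15470792) (l 15331056))) (b (l 15257808) (l 15076352))))) (a (b (c (a (b (l 15550736) (a (l 15558720) (l 15545264))) (b (l 15501296) (c (l 15479616) (l 15467512)))) (a (b (l 15508192) (a (l 15535256) (l 15523360))) (b (l 15457024) (l 15448880)))) (a (b (c (a (l 15602920) (l 15461216)) (a (l 15567200) (l 15523968))) (b (c (a (l 15791912) (l 15699440)) (l 15619616)) (c (a (l 16040552) (l 15903784)) (a (l 15936120)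 (l 15815144))))) (b (c (c (a (l 15462464) (l 15347368)) (l 15281168)) (a (l 15445304) (l 15331464))) (c (a (b (l 15568088) (l 15733480)) (b (l 15400080) (l 15531024))) (a (l 15327880) (l 15234704)))))) (b (a (c (a (b (l 15391184) (l 15335344)) (b (l 15240976) (l 15173920))) (a (b (l 15343048) (l 15305216)) (l 15170176))) (c (b (l 14979672) (l 14902368)) (b (l 14917064) (l 14855976)))) (a (b (a (c (c (l 15209832) (l 15203600)) (l 15189792)) (c (l 15022848) (l 15011560))) (a (c (b (l 15197024) (l 15297200)) (b (l 15139272) (l 15222232))) (c (l 14801528) (l 14911248)))) (a (b (c (l 14832080) (l 14813768)) (c (b (l 14706056) (l 14778504)) (b (l 14651408) (l 14695208)))) (b (c (l 14641856) (l 14616104)) (b (c (l 14551088) (l 14493720)) (l 14562016)))))))), by decide +kernel⟩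

def k8_pp_123 : ∃ t, chk3 f_pp_123 t 5 1 1 = true :=
  ⟨(a (b (a (b (a (b (l 1) (c (l 15448360) (l 15401712))) (l 1)) (a (c (b (l 15318768) (l 15152440)) (b (l 15267576) (l 15117112))) (c (a (b (l 15233592) (l 15090816)) (b (l 15327896) (l 15201664))) (b (a (l 15179408) (l 15277024)) (a (l 15031624) (l 15146360)))))) (b (l 1) (c (b (a (l 15540296) (l 15850856)) (a (l 15430544) (l 15766680))) (b (l 127806083495) (a (l 15383280) (l 15731208)))))) (a (b (a (c (b (l 14985472) (l 14599016)) (b (l 14944296) (l 14739640))) (b (c (a (l 14927128) (l 15057128)) (a (l 14862192) (l 14996752))) (a (c (l 14733736) (l 14662016)) (c (b (l 14933584) (l 14836032)) (l 14729896))))) (a (b (b (c (l 14635480) (l 14560544)) (c (a (l 14625472) (l 14478688)) (a (l 14569680) (l 14415848)))) (b (c (a (l 14514240) (l 14427224)) (a (l 14482776) (l 14391112))) (l 14393768))) (b (a (b (c (l 14567824) (l 14490464)) (c (l 14572816) (l 14512464))) (b (c (l 14785696) (l 14715624)) (l 14793296))) (b (l 14655504) (l 14610936)))))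 (b (b (c (a (l 15305192) (b (l 15696720) (l 15655392))) (a (l 15253472) (l 15572208))) (a (c (b (l 15203240) (l 15165144)) (b (l 15147752) (l 15107864))) (b (a (l 15497040) (l 15728152)) (l 15610192)))) (b (a (b (l 15119864) (l 15180752)) (l 15654000)) (b (l 15420048) (l 15315160)))))) (b (b (l 1) (a (c (a (b (l 16189888) (l 16090944)) (b (l 1) (l 16537520))) (b (l 126197141607) (a (l 16110496) (l 16529024)))) (c (a (l 16796912) (l 16777216)) (l 159484381127)))) (b (a (b (a (c (l 16101624) (l 16077536)) (b (l 16527416) (l 16527984))) (l 16308168)) (c (l 16776616) (l 16776592))) (a (b (b (l 16312568) (l 16321064)) (b (l 16283720) (a (l 16087184) (l 16527528)))) (b (l 16729104) (l 16685304)))))), by decide +kernel⟩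

def k9_pp_123 : ∃ t, chk3 f_pp_123 t 3 1 1 = true :=
  ⟨(b (b (l 1) (a (a (c (l 16777216) (l 16777216)) (l 1)) (l 1))) (a (b (c (l 16777168) (l 16777168)) (b (a (l 16729592) (l 16729592)) (a (l 16685896) (l 16685896)))) (b (l 324303585511) (b (l 16729592) (a (l 16685896) (l 16685896)))))), by decide +kernel⟩

theorem s10_pp_123 : ∃ t, chk3 f_pp_123 t 9 1 1 = true := ex3_b k6_pp_123 k7_pp_123

theorem s11_pp_123 : ∃ t, chk3 f_pp_123 t 16 14 1 = true := ex3_a k2_pp_123 k3_pp_123

theorem s12_pp_123 : ∃ t, chk3 f_pp_123 t 16 7 1 = true := ex3_b s11_pp_123 k4_pp_123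

theorem s13_pp_123 : ∃ t, chk3 f_pp_123 t 8 7 1 = true := ex3_a s12_pp_123 k5_pp_123

theorem s14_pp_123 : ∃ t, chk3 f_pp_123 t 8 3 1 = true := ex3_b k1_pp_123 s13_pp_123

theorem s15_pp_123 : ∃ t, chk3 f_pp_123 t 8 1 1 = true := ex3_b k0_pp_123 s14_pp_123

theorem s16_pp_123 : ∃ t, chk3 f_pp_123 t 4 1 1 = true := ex3_a s15_pp_123 s10_pp_123

theorem s17_pp_123 : ∃ t, chk3 f_pp_123 t 2 1 1 = true := ex3_a s16_pp_123 k8_pp_123

theorem s18_pp_123 : ∃ t, chk3 f_pp_123 t 1 1 1 = true := ex3_a s17_pp_123 k9_pp_123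

theorem c_pp_123 : CertNX 536870912 536870912 1610612736 536870912 1046898278 26843546 3 false true true .npn 1 2 3
    ndN0q1 ndN3q3 pcN2 cut_pp_123 Ext.none :=
  certNX2 (fam := false) (s1 := true) (s2 := true) (a := 1) (b := 2) (c := 3) (cn := .npn) (n1 := ndN0q1) (n2 := ndN3q3) (pc := pcN2) (cut := cut_pp_123) (xt := Ext.none) (P1 := 536870912) (W1 := 536870912) (P2 := 1610612736) (W2 := 536870912) (P3 := 1046898278) (W3 := 26843546) (N0 := 3)
    rfl (fun _ => rfl) s18_pp_123

noncomputable def f_pp_133 : ℕ → ℕ → ℕ → ℕ → Bool := onCell 536870912 536870912 1610612736 536870912 1046898278 26843546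
    (rowNX 3 0 false true true .dn 1 3 3 (qsf 536870912 536870912 1610612736 536870912 3) ndN0q1 ndN3q3 pcN3 Cut.none Ext.none)

def k0_pp_133 : ∃ t, chk3 f_pp_133 t 1 1 1 = true :=
  ⟨(a (b (l 1) (b (l 1) (a (b (l 1) (a (l 16680000) (l 1))) (l 1)))) (l 1)), by decide +kernel⟩

theorem c_pp_133 : CertNX 536870912 536870912 1610612736 536870912 1046898278 26843546 3 false true true .dn 1 3 3
    ndN0q1 ndN3q3 pcN3 Cut.none Ext.none :=
  certNX0 (fam := false) (s1 := true) (s2 := true) (a := 1) (b := 3) (c := 3) (cn := .dn) (n1 := ndN0q1) (n2 := ndN3q3) (pc := pcN3) (cut := Cut.none) (xt := Ext.none) (P1 := 536870912) (W1 := 536870912) (P2 := 1610612736) (W2 := 536870912) (P3 := 1046898278) (W3 := 26843546) (N0 := 3)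
    rfl k0_pp_133

noncomputable def f_pp_202 : ℕ → ℕ → ℕ → ℕ → Bool := onCell 0 536870912 1073741824 536870912 1046898278 26843546
    (rowNX 3 0 false true true .pp 2 0 2 (qsf 0 536870912 1073741824 536870912 0) ndN0q2 ndN3q2 pcN0 Cut.none Ext.none)

def k0_pp_202 : ∃ t, chk3 f_pp_202 t 1 1 1 = true :=
  ⟨(l 3), by decide +kernel⟩

theorem c_pp_202 : CertNX 0 536870912 1073741824 536870912 1046898278 26843546 3 false true true .pp 2 0 2
    ndN0q2 ndN3q2 pcN0 Cut.none Ext.none :=
  certNX0 (fam := false) (s1 := true) (s2 := true) (a := 2) (b := 0) (c := 2) (cn := .pp) (n1 := ndN0q2) (n2 := ndN3q2) (pc := pcN0) (cut := Cut.none) (xt := Ext.none) (P1 := 0) (W1 := 536870912) (P2 := 1073741824) (W2 := 536870912) (P3 := 1046898278) (W3 := 26843546) (N0 := 3)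
    rfl k0_pp_202

noncomputable def f_pp_203 : ℕ → ℕ → ℕ → ℕ → Bool := onCell 0 536870912 0 536870912 1046898278 26843546
    (rowNX 3 1 false true true .up 2 0 3 (qsf 0 536870912 1610612736 536870912 0) ndN0q2 ndN3q3 pcN0 Cut.none Ext.none)

def k0_pp_203 : ∃ t, chk3 f_pp_203 t 1 1 1 = true :=
  ⟨(l 3), by decide +kernel⟩

theorem c_pp_203 : CertNX 0 536870912 1610612736 536870912 1046898278 26843546 3 false true true .up 2 0 3
    ndN0q2 ndN3q3 pcN0 Cut.none Ext.none :=
  certNX1 (fam := false) (s1 := true) (s2 := true) (a := 2) (b := 0) (c := 3) (cn := .up) (n1 := ndN0q2) (n2 := ndN3q3) (pc := pcN0) (cut := Cut.none) (xt := Ext.none) (P1 := 0) (W1 := 536870912) (P2 := 1610612736) (W2 := 536870912) (P3 := 1046898278) (W3 := 26843546) (N0 := 3)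
    rfl (fun _ => rfl) k0_pp_203

noncomputable def cut_pp_213 : Cut := Cut.of [[⟨0, 1, 0, 67108864⟩, ⟨1, 1, 0, 67108864⟩, ⟨2, 2, 0, 67108864⟩, ⟨3, 0, 0, 1233125376⟩]]

noncomputable def f_pp_213 : ℕ → ℕ → ℕ → ℕ → Bool := onCell 0 536870912 1610612736 536870912 1046898278 26843546
    (rowNX 3 0 false true true .pnn 2 1 3 (qsf 0 536870912 1610612736 536870912 1) ndN0q2 ndN3q3 pcN1 cut_pp_213 Ext.none)

def k0_pp_213 : ∃ t, chk3 f_pp_213 t 1 1 1 = true :=
  ⟨(b (l 3) (a (l 3) (b (l 3) (a (l 3) (b (l 3) (a (l 3) (b (l 3) (a (l 3) (l 6))))))))), by decide +kernel⟩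

theorem c_pp_213 : CertNX 0 536870912 1610612736 536870912 1046898278 26843546 3 false true true .pnn 2 1 3
    ndN0q2 ndN3q3 pcN1 cut_pp_213 Ext.none :=
  certNX0 (fam := false) (s1 := true) (s2 := true) (a := 2) (b := 1) (c := 3) (cn := .pnn) (n1 := ndN0q2) (n2 := ndN3q3) (pc := pcN1) (cut := cut_pp_213) (xt := Ext.none) (P1 := 0) (W1 := 536870912) (P2 := 1610612736) (W2 := 536870912) (P3 := 1046898278) (W3 := 26843546) (N0 := 3)
    rfl k0_pp_213

noncomputable def f_pm_001 : ℕ → ℕ → ℕ → ℕ → Bool := onCell 0 536870912 536870912 536870912 1046898278 26843546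
    (rowNX 3 0 false true false .up 0 0 1 (qsf 0 536870912 536870912 536870912 0) ndN0q0 ndN3q1 pcN0 Cut.none Ext.none)

def k0_pm_001 : ∃ t, chk3 f_pm_001 t 1 1 1 = true :=
  ⟨(l 4), by decide +kernel⟩

theorem c_pm_001 : CertNX 0 536870912 536870912 536870912 1046898278 26843546 3 false true false .up 0 0 1
    ndN0q0 ndN3q1 pcN0 Cut.none Ext.none :=
  certNX0 (fam := false) (s1 := true) (s2 := false) (a := 0) (b := 0) (c := 1) (cn := .up) (n1 := ndN0q0) (n2 := ndN3q1) (pc := pcN0) (cut := Cut.none) (xt := Ext.none) (P1 := 0) (W1 := 536870912) (P2 := 536870912) (W2 := 536870912) (P3 := 1046898278) (W3 := 26843546) (N0 := 3)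
    rfl k0_pm_001

noncomputable def f_pm_011 : ℕ → ℕ → ℕ → ℕ → Bool := onCell 0 536870912 536870912 536870912 1046898278 26843546
    (rowNX 3 0 false true false .pnn 0 1 1 (qsf 0 536870912 536870912 536870912 1) ndN0q0 ndN3q1 pcN1 Cut.none Ext.none)

def k0_pm_011 : ∃ t, chk3 f_pm_011 t 1 1 1 = true :=
  ⟨(l 4), by decide +kernel⟩

theorem c_pm_011 : CertNX 0 536870912 536870912 536870912 1046898278 26843546 3 false true false .pnn 0 1 1
    ndN0q0 ndN3q1 pcN1 Cut.none Ext.none :=
  certNX0 (fam := false) (s1 := true) (s2 := false) (a := 0) (b := 1) (c := 1) (cn := .pnn) (n1 := ndN0q0) (n2 := ndN3q1) (pc := pcN1) (cut := Cut.none) (xt := Ext.none) (P1 := 0) (W1 := 536870912) (P2 := 536870912) (W2 := 536870912) (P3 := 1046898278) (W3 := 26843546) (N0 := 3)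
    rfl k0_pm_011

noncomputable def cut_pm_012 : Cut := Cut.of [[⟨0, 0, 0, 67108864⟩, ⟨1, 1, 0, 67108864⟩, ⟨2, 1, 0, 67108864⟩]]

noncomputable def f_pm_012 : ℕ → ℕ → ℕ → ℕ → Bool := onCell 536870912 536870912 1073741824 536870912 1046898278 26843546
    (rowNX 3 2 false true false .pnp 0 1 2 (qsf 0 536870912 1073741824 536870912 1) ndN0q0 ndN3q2 pcN1 cut_pm_012 Ext.none)

def k0_pm_012 : ∃ t, chk3 f_pm_012 t 2 1 1 = true :=
  ⟨(b (b (b (a (c (b (a (b (c (l 15526408) (l 15494680)) (l 15631264)) (b (a (l 15507848) (l 15507848)) (l 15631264))) (a (l 15736560) (l 15736560))) (b (a (b (c (l 15452208) (l 15407896)) (l 15528320)) (b (c (l 15452208) (l 15407896)) (l 15528320))) (a (l 15673728) (l 15673728)))) (b (c (a (b (a (l 15507848) (b (l 15464376) (l 15557560))) (l 15631264)) (b (b (a (l 15464376) (l 15464376)) (a (l 15557560) (l 15557560))) (a (l 15631264) (l 15631264)))) (a (b (b (c (l 15423496) (l 15382248)) (l 15467560)) (l 15528320)) (b (a (c (l 15452208) (l 15407896)) (b (c (l 15423496)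 (l 15382248)) (l 15467560))) (c (l 15543528) (l 15508528))))) (c (a (l 15736560) (b (l 15696000) (l 15767872))) (a (l 15673728) (l 15673728))))) (a (a (b (c (l 16166656) (l 16145160)) (l 2)) (b (c (l 16145680) (l 16124192)) (c (l 16544584) (l 16536416)))) (b (a (c (l 16103744) (l 16103224)) (c (l 16082768) (l 16124192))) (c (a (l 16544584) (l 16544584)) (a (l 16536416) (l 16536416)))))) (b (a (a (l 2) (a (l 2) (b (l 16296768) (l 2)))) (b (c (a (l 16305016) (l 16305016)) (a (l 16288440) (l 16288440))) (c (l 16404944) (l 16391880)))) (a (l 2) (b (c (l 16652752) (l 16648384)) (c (l 16777040) (l 16777032)))))) (a (l 2) (b (a (l 2) (c (l 16777216) (l 16777216))) (l 2)))), by decide +kernel⟩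

def k1_pm_012 : ∃ t, chk3 f_pm_012 t 12 4 1 = true :=
  ⟨(b (a (b (b (c (b (a (l 15464376) (a (l 15458608) (b (l 15377232) (l 15465672)))) (a (l 15557560) (c (l 15574544) (l 15537448)))) (c (b (a (l 15423496) (a (l 15417544) (b (l 15339864) (l 15421624)))) (l 15485640)) (b (a (l 15382248) (b (a (l 15360360) (c (l 15317776) (l 15296120))) (l 15364352))) (l 15431216)))) (c (l 15631504) (c (l 15543776) (l 15508784)))) (c (b (l 15696232) (l 15768096)) (l 15673960))) (b (b (c (b (b (a (l 15359824) (c (l 15388264) (l 15363992))) (a (l 15452432) (l 15467968))) (a (b (l 15538144) (l 15606496)) (l 15504064))) (b (b (c (a (l 15321936) (b (l 15314808) (l 15361720))) (b (a (c (l 15278000) (l 15261016)) (c (l 15295528) (b (l 15269800) (l 15287360)))) (l 15294600))) (c (l 15415840) (l 15368200))) (c (a (l 15501176) (l 15519136)) (a (l 15447096) (l 15465456))))) (c (a (b (l 15678304) (l 15737960)) (l 15683096)) (a (c (l 15530800) (l 15581200)) (b (l 15610552) (l 15725488))))) (a (c (l 15758248) (l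 15762016)) (b (c (l 15895296) (l 15852472)) (l 15877280))))) (b (a (c (l 16124912) (l 16145368)) (b (l 15978176) (l 16287176))) (a (b (l 16593280) (l 16489216)) (b (l 16465232) (l 16613568))))), by decide +kernel⟩

def k2_pm_012 : ∃ t, chk3 f_pm_012 t 13 8 2 = true :=
  ⟨(a (b (b (b (b (b (a (l 15307640) (a (l 15363360) (l 15394176))) (l 15424616)) (c (l 15505464) (l 15482248))) (c (l 15611576) (l 15596704))) (c (l 15781656) (l 15765208))) (b (c (l 16014056) (l 15963216)) (a (l 16131648) (l 16198288)))) (b (b (b (b (a (a (c (a (l 15436272) (a (l 15439904) (l 15450456))) (a (l 15413368) (a (l 15417088) (l 15427856)))) (c (l 15519944) (l 15498784))) (a (c (l 15633072) (l 15614128)) (c (l 15685648) (l 15731856)))) (a (a (c (l 15530800) (l 15487112)) (l 15597840)) (c (l 15777328) (l 15759440)))) (a (b (a (c (l 15556768) (l 15589952)) (l 15681368)) (a (c (l 15696928) (l 15658512)) (l 15750392))) (c (b (l 15779696) (l 15938160)) (l 15701488)))) (a (a (c (l 15763184) (l 15789160)) (l 15890320))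 (c (l 15892744) (l 16007288)))) (a (a (b (l 16014040) (l 16213048)) (b (l 16084840) (l 16279992))) (b (l 16071872) (l 16259400))))), by decide +kernel⟩

def k3_pm_012 : ∃ t, chk3 f_pm_012 t 13 8 3 = true :=
  ⟨(a (b (b (b (b (b (c (a (l 15333376) (b (l 15340144) (l 15362640))) (b (c (a (l 15301504) (l 15321432)) (a (c (l 15291904) (l 15284184)) (c (l 15312032) (a (l 15299240) (l 15309784))))) (c (l 15334160) (l 15315168)))) (c (l 15388632) (c (l 15365736) (l 15341480)))) (c (l 15429584) (l 15361720))) (c (l 15544840) (l 15491704))) (c (l 15625632) (l 15678040))) (b (l 15888360) (a (l 16103184) (l 16172664)))) (b (b (b (b (a (a (c (b (a (l 15365232) (a (l 15369056) (l 15380064))) (l 15415296)) (c (b (a (l 15346696) (a (l 15350584) (l 15361752))) (l 15392800)) (b (a (b (c (l 15324184) (l 15296800)) (l 15337936)) (b (b (c (l 15327176) (a (l 15316968) (a (a (c (l 15318544) (l 15315400)) (l 15324040)) (l 15335168)))) (l 15333616)) (l 15347472))) (l 15368824)))) (c (b (l 15452440) (l 15496896))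 (b (b (c (l 15422032) (c (l 15413280) (c (l 15411448) (l 15403248)))) (l 15434808)) (l 15461984)))) (c (b (a (l 15570312) (l 15648616)) (l 15673584)) (b (c (a (l 15554800) (l 15634824)) (b (b (c (l 15589344) (c (l 15504832) (l 15561376))) (l 15594920)) (l 15608272))) (c (l 15654832) (l 15633384))))) (a (a (c (a (l 15472344) (l 15481520)) (a (l 15425896) (l 15435248))) (c (l 15557840) (l 15513064))) (c (l 15565400) (l 15503048)))) (a (a (c (l 15570576) (l 15517960)) (c (l 15650136) (l 15599088))) (c (l 15822744) (l 15754080)))) (a (a (c (l 15733944) (l 15702968)) (l 15798280)) (c (l 15893912) (l 15951640)))) (a (a (l 15862736) (l 16039352)) (c (l 16073824) (l 16067816))))), by decide +kernel⟩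

def k4_pm_012 : ∃ t, chk3 f_pm_012 t 13 9 1 = true :=
  ⟨(a (b (b (a (l 16285848) (c (l 16382792) (l 16439976))) (l 16274856)) (b (c (l 16314384) (l 16342408)) (l 16352960))) (b (a (a (b (b (l 16430696) (l 16501696)) (l 16220712)) (b (l 16413656) (l 16086320))) (b (b (l 16304688) (l 16201024)) (c (l 15954264) (l 15927456)))) (a (b (a (b (l 16114056) (l 16113288)) (l 15949328)) (l 15897240)) (b (b (c (l 15693952) (l 15656648)) (l 15649328)) (l 15726880))))), by decide +kernel⟩

def k5_pm_012 : ∃ t, chk3 f_pm_012 t 6 5 1 = true :=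
  ⟨(a (b (b (a (b (l 16352256) (l 16242832)) (b (l 16468360) (l 16350688))) (a (l 16398568) (l 16493952))) (b (a (l 16650680) (l 16672512)) (a (l 16777064) (l 16618000)))) (b (a (b (b (l 16479472) (l 16524816)) (l 16481080)) (b (a (a (b (l 16280096) (l 16354288)) (l 15932872)) (b (l 15830992) (l 15894488))) (a (l 16084688) (l 15826888)))) (a (b (l 16348584) (l 16294024)) (b (a (l 16050088) (l 15687024)) (a (l 15996648) (l 15639064)))))), by decide +kernel⟩

def k6_pm_012 : ∃ t, chk3 f_pm_012 t 28 32 1 = true :=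
  ⟨(c (b (a (b (c (a (c (l 15869256) (l 15861800)) (b (a (l 15930208) (l 15972256)) (l 15999688))) (a (l 15830952) (b (l 15937432) (l 15986960)))) (c (a (l 15951384) (l 16068944)) (l 15954312))) (b (a (c (b (c (l 16027240) (l 16021160)) (l 16079512)) (l 15938272)) (c (a (b (a (l 16067488) (l 16064240)) (l 16121040)) (b (l 16044632) (l 16099872))) (b (a (l 16054768) (l 16032936)) (l 16099728)))) (a (c (l 16162576) (l 16151944)) (c (l 16152288) (l 16184136))))) (a (c (b (l 16010640) (l 16166824)) (l 15977632)) (a (c (b (l 16158288) (l 16343080)) (l 16151304)) (c (b (a (l 16313176) (l 16292464)) (l 16398632)) (b (l 16286160) (l 16373688)))))) (b (b (b (b (a (c (a (l 15800384) (l 15910576)) (c (a (l 15788240) (l 15899960)) (b (c (a (l 15775608) (l 15887256)) (a (c (l 15772536) (l 15770312)) (c (l 15884568) (l 15882592)))) (l 15754992)))) (a (c (l 15985336) (c (l 15975728) (c (l 15970880) (c (l 15929088) (l 15964008))))) (b (b (b (c (l 16003464) (c (l 15994040) (c (l 15989304) (c (l 15986944)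 (a (a (l 15999648) (l 15996096)) (l 15974920)))))) (l 16000144)) (l 16005416)) (c (l 16023192) (l 16009488))))) (a (c (l 15878296) (a (l 15801720) (l 15897120))) (a (c (l 16013024) (l 15996504)) (c (l 16045120) (c (l 16036112) (l 16023712)))))) (a (c (l 15851144) (c (l 15856760) (l 15858568))) (a (c (l 16056512) (l 16032144)) (c (l 16088528) (c (l 16075520) (l 16057936)))))) (a (c (b (l 15936848) (l 15992744)) (c (l 15945536) (l 15922720))) (a (c (l 16133040) (l 16099144)) (c (l 16123832) (l 16069504))))) (a (c (l 16040448) (l 15997296)) (a (c (l 16196392) (l 16156536)) (c (l 16247576) (l 16187648)))))), by decide +kernel⟩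

def k7_pm_012 : ∃ t, chk3 f_pm_012 t 28 33 1 = true :=
  ⟨(c (a (c (l 16073632) (l 16150584)) (a (c (l 16330856) (l 16348224)) (c (b (l 16401680) (l 16578312)) (l 16362720)))) (a (c (l 16083568) (l 16145776)) (a (l 16235768) (c (b (l 16374312) (l 16518176)) (l 16346616))))), by decide +kernel⟩

def k8_pm_012 : ∃ t, chk3 f_pm_012 t 28 17 1 = true :=
  ⟨(a (b (c (l 16245368) (l 16287640)) (b (l 16294544) (l 16259600))) (b (c (a (l 16374600) (c (l 16391896) (l 16418640))) (l 16254040)) (c (a (l 16227672) (l 16189648)) (l 16138880)))), by decide +kernel⟩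

def k9_pm_012 : ∃ t, chk3 f_pm_012 t 29 32 2 = true :=
  ⟨(b (c (a (b (c (b (a (l 16007800) (l 15932904)) (l 16036584)) (a (l 16009632) (l 15892272))) (l 15992128)) (a (b (b (a (l 15909088) (a (l 15888096) (c (l 15862488) (l 15854960)))) (l 15951760)) (l 16036880)) (b (b (c (l 15905192) (l 15897944)) (a (l 15905176) (l 15944592))) (a (l 15998288) (l 15995248))))) (a (b (b (a (l 15992496) (l 15895176)) (l 16021288)) (a (l 16133408) (l 16079112))) (b (a (b (a (l 15894624) (a (l 15873208) (l 15864768))) (l 15937952)) (a (b (l 15875184) (l 15911856)) (l 15915048))) (a (l 16023736) (a (b (l 15957416) (l 16010032)) (b (l 15962744) (l 15998096))))))) (a (c (b (a (l 16253680) (l 16201032)) (l 16325016)) (b (l 16167352) (l 16298600))) (b (a (c (l 16147304) (l 16127592)) (b (c (l 16068656) (l 16008472)) (l 16065512))) (c (l 16218776) (l 16190312))))), by decide +kernel⟩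

def k10_pm_012 : ∃ t, chk3 f_pm_012 t 29 32 3 = true :=
  ⟨(b (b (a (c (b (b (a (l 15964632) (l 15908144)) (l 15964792)) (l 16008544)) (b (b (c (a (l 15954640) (l 15897328)) (b (c (a (l 15941520) (l 15883872)) (c (l 15891864) (l 15908200))) (l 15923272))) (c (l 15954600) (l 15941384))) (c (l 15994352) (l 15975960)))) (a (c (b (a (l 15880280) (b (l 15840576) (l 15866136))) (l 15923616)) (b (c (b (a (l 15853384) (l 15828768)) (l 15868688)) (b (c (l 15793744) (a (l 15842512) (a (l 15819968) (l 15813056)))) (l 15854648))) (c (l 15908192) (l 15888968)))) (c (b (a (l 15860256) (l 15884032)) (a (l 15897016) (l 15916128))) (b (c (b (l 15852184) (l 15868336)) (b (c (l 15846328) (b (a (l 15825520) (c (l 15851224) (l 15848384))) (l 15842960))) (c (l 15860224) (l 15850360)))) (c (a (l 15881208) (l 15900568)) (a (l 15861720) (l 15881248))))))) (a (c (a (l 16114032) (l 16058688)) (l 15988624)) (a (c (l 15939336) (l 15965680)) (c (a (b (l 15918624) (l 15983632)) (b (l 15945008) (l 15950488))) (a (c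 (l 15932864) (l 15909776)) (c (l 15908664) (b (l 15894544) (l 15914816)))))))) (a (c (l 16149320) (l 16129776)) (c (a (l 16129424) (b (a (l 16049384) (l 16023632)) (l 16113072))) (a (l 16087288) (b (c (l 15974688) (l 15980136)) (l 16069936)))))), by decide +kernel⟩

def k11_pm_012 : ∃ t, chk3 f_pm_012 t 29 33 1 = true :=
  ⟨(c (a (b (c (l 16326744) (l 16327832)) (c (l 16481712) (l 16449904))) (b (c (l 16264728) (l 16242808)) (l 16344776))) (a (b (c (l 16297112) (l 16336344)) (c (l 16391496) (l 16405248))) (b (c (l 16147088) (l 16163208)) (c (l 16320040) (l 16331920))))), by decide +kernel⟩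

def k12_pm_012 : ∃ t, chk3 f_pm_012 t 29 17 1 = true :=
  ⟨(b (c (a (b (c (l 16481904) (l 16517848)) (l 16375096)) (a (b (l 16486040) (l 16371480)) (l 16310520))) (a (b (l 16508384) (l 16385416)) (a (l 16338184) (l 16357568)))) (c (a (l 16170216) (b (l 16225800) (l 16135280))) (a (l 16182784) (a (l 16187160) (l 16132936))))), by decide +kernel⟩

def k13_pm_012 : ∃ t, chk3 f_pm_012 t 14 9 1 = true :=
  ⟨(b (b (a (a (l 15876360) (c (l 15722272) (l 15800224))) (c (a (l 15837584) (l 15829184)) (a (l 15808888) (l 15800272)))) (a (a (c (l 15700304) (l 15664752)) (c (l 15457040) (l 15413184))) (a (l 15174392) (l 15230696)))) (a (b (a (b (l 15380688) (l 15306688)) (c (b (l 15148896) (l 15071456)) (l 14884992))) (a (l 15186232) (c (l 15046832) (l 14987592)))) (b (c (b (l 15044136) (l 14961504)) (b (l 14985064) (l 14899456))) (c (l 14933304) (l 14870624))))), by decide +kernel⟩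

def k14_pm_012 : ∃ t, chk3 f_pm_012 t 30 64 1 = true :=
  ⟨(a (a (c (b (c (c (a (c (a (c (b (a (c (a (l 15914672) (c (l 15926240) (l 15921160))) (l 15936768)) (c (b (l 15939112) (l 15946912)) (b (a (l 15918808) (l 6)) (l 15959024)))) (l 15978344)) (l 15957520)) (b (b (l 6) (a (c (c (l 15974600) (l 15958744)) (l 15969832)) (l 6))) (c (b (a (l 15998648) (c (l 16030984) (l 15994208))) (l 16023696)) (l 16001992)))) (l 15967680)) (b (l 6) (a (a (b (l 6) (c (c (l 16059752) (l 16036024)) (l 16023616))) (l 6)) (l 6)))) (l 15946408)) (b (l 15962488) (l 15994272))) (c (c (a (a (l 16020472) (l 16028936)) (c (b (b (a (c (a (l 16069288) (l 16095040)) (l 16061448)) (l 6)) (a (l 16085872) (c (l 16125504) (l 16118248)))) (a (l 16107752) (c (l 16118472) (l 16139616)))) (l 16087952))) (l 16050944)) (l 15999072))) (b (b (a (c (l 15922384) (c (l 15911528) (b (b (c (l 15893416) (l 15889096)) (l 15897800)) (l 15884896)))) (l 6)) (c (l 15980888) (c (l 15966176) (l 15905488)))) (c (b (l 15988552) (l 16030888))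 (c (l 15991192) (l 15968600))))) (b (l 6) (b (l 6) (a (a (c (c (c (c (c (l 16173968) (l 16142768)) (l 16156048)) (l 16132000)) (l 16121336)) (c (l 16096888) (l 16038064))) (l 6)) (l 6))))) (l 6)), by decide +kernel⟩

def k15_pm_012 : ∃ t, chk3 f_pm_012 t 30 65 1 = true :=
  ⟨(a (c (b (c (a (c (a (c (a (l 16089296) (l 16116656)) (l 16095144)) (c (l 16173160) (l 16149056))) (b (l 16097512) (l 16127080))) (a (c (c (b (a (l 16179424) (c (l 16285856) (l 16254856))) (l 16207528)) (l 16221264)) (b (l 16178912) (l 16205328))) (b (l 6) (a (a (b (l 6) (c (l 16248880) (l 16248568))) (l 6)) (l 6))))) (a (b (l 16082584) (l 16107304)) (l 16196688))) (a (c (c (a (a (l 16171800) (l 16158368)) (c (l 16228152) (l 16200952))) (l 16175200)) (a (l 16136984) (l 16161336))) (c (c (c (a (l 16303104) (b (c (a (l 16366448) (l 16421952)) (l 16347512)) (l 16395144))) (l 16308688)) (l 16187096)) (l 16234912)))) (c (a (b (a (l 16013496) (l 16083040)) (a (l 16086960) (l 16111736))) (l 16152136)) (a (b (c (a (l 15993048)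 (l 16042256)) (l 16002872)) (a (l 16043312) (l 16068520))) (c (l 16136416) (l 16124464))))) (b (l 6) (b (l 6) (a (a (c (c (c (c (a (l 16425488) (l 6)) (l 16420048)) (l 16386544)) (l 16325088)) (l 16231520)) (l 6)) (l 6))))), by decide +kernel⟩

def k16_pm_012 : ∃ t, chk3 f_pm_012 t 31 32 1 = true :=
  ⟨(l 6), by decide +kernel⟩

def k17_pm_012 : ∃ t, chk3 f_pm_012 t 15 33 1 = true :=
  ⟨(b (a (c (a (a (c (c (a (l 16266712) (l 16218672)) (l 16288064)) (l 16230424)) (a (c (c (l 16299528) (b (l 16278216) (l 16334464))) (l 16225360)) (c (b (l 16329848) (l 16302240)) (l 16300720)))) (a (c (c (b (b (a (c (l 16397688) (l 16456384)) (l 6)) (a (l 16451808) (c (l 16490328) (l 16515952)))) (a (l 16517720) (c (l 16498992) (l 16580368)))) (l 16383920)) (c (a (l 16368736) (l 16413984)) (l 16363224))) (b (l 6) (a (a (a (b (l 6) (c (l 16463080) (l 16465592))) (l 6)) (l 6)) (l 6))))) (a (a (c (l 16091688) (l 16148656)) (c (b (l 16208608) (l 16206472)) (b (l 16178120) (l 16228384)))) (c (a (l 16323176)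 (l 16408912)) (l 16226664)))) (l 6)) (a (c (a (c (a (a (l 16405576) (l 16370992)) (c (l 16407632) (l 16360608))) (l 16367784)) (c (a (b (l 16374480) (l 16450016)) (c (b (c (a (b (l 16453656) (l 16503808)) (b (l 6) (l 16360072))) (a (l 16600104) (l 16408032))) (a (l 16538792) (l 16307224))) (l 16519464))) (a (a (l 16323272) (l 16323336)) (l 16383376)))) (a (a (l 16280824) (a (l 16342296) (l 16259416))) (a (a (b (l 16327872) (l 16383008)) (l 16289152)) (l 16408296)))) (b (l 6) (a (a (a (c (c (c (c (b (l 6) (l 16283552)) (l 16310200)) (l 16466192)) (l 16549792)) (l 16502864)) (l 6)) (l 6)) (l 6))))), by decide +kernel⟩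

def k18_pm_012 : ∃ t, chk3 f_pm_012 t 15 34 1 = true :=
  ⟨(a (c (a (c (a (a (l 16410176) (l 16363048)) (a (l 16330992) (l 16313928))) (l 16408816)) (a (c (l 16234800) (b (a (l 16463792) (l 16389336)) (l 16389184))) (b (c (a (l 16373200) (l 16356536)) (a (a (l 16404856) (l 16425776)) (l 16430056))) (c (l 16279264) (c (l 16353016) (l 16423808)))))) (a (b (l 16442168) (l 16420952)) (b (a (l 16440944) (l 16436544)) (l 16391272)))) (a (c (a (c (b (c (a (b (l 16209632) (l 16302696)) (c (b (a (l 16236072) (l 6)) (a (l 16220504) (c (l 16162072) (l 16191024)))) (b (l 16211488) (l 16243936)))) (l 16364928)) (a (l 16241552) (l 16056184))) (b (l 16338408) (b (l 16329648) (l 16304296)))) (a (c (a (c (b (b (l 6) (c (l 16130304) (l 16185568))) (l 16048552)) (l 16097432)) (b (l 6) (c (l 15996152) (l 16147448)))) (l 16210504)) (b (l 6) (c (c (c (b (a (l 16041232) (l 6)) (l 16006256)) (l 15993160)) (l 16105280)) (c (l 16142176) (l 16221416)))))) (c (a (b (l 16476936) (b (a (l 16528176) (l 16451928))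 (l 16341408))) (b (l 16304672) (l 16257064))) (b (l 16436144) (b (l 16392816) (l 16305504))))) (b (l 6) (b (l 6) (a (a (a (b (l 6) (c (c (l 15919720) (l 16103032)) (l 16173792))) (l 6)) (l 6)) (l 6)))))), by decide +kernel⟩

def k19_pm_012 : ∃ t, chk3 f_pm_012 t 15 35 1 = true :=
  ⟨(a (c (a (c (a (b (l 16166360) (l 15986272)) (c (l 16109936) (l 16053776))) (l 16098184)) (c (b (l 16127000) (l 15983464)) (a (l 16101312) (l 16009664)))) (a (b (l 16281704) (l 16054032)) (l 15995864))) (a (c (a (c (b (l 15871176) (l 15871424)) (l 16022056)) (c (b (a (c (l 16000536) (l 15933552)) (l 15949536)) (a (c (l 15833520) (l 15878944)) (l 15846808))) (b (a (l 16146888) (l 16002768)) (l 15796976)))) (a (c (l 15948896) (l 16161360)) (c (b (l 16007136) (l 16043752)) (b (l 16252152) (l 16076152))))) (c (c (b (a (c (a (c (l 15795528) (l 15933232)) (c (b (b (l 6) (l 15891408)) (l 15878864)) (l 15849248))) (l 15954320)) (a (a (c (b (l 6) (l 15902152)) (l 15953552)) (l 6)) (l 6))) (a (a (l 15831360) (l 15770856))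 (c (b (a (l 15881448) (a (l 15897712) (l 6))) (l 15855560)) (l 15883880)))) (a (a (b (l 16022704) (l 15812496)) (l 15917056)) (l 15930824))) (a (c (a (l 15883544) (c (l 15919896) (l 15986816))) (b (l 16151632) (l 15858088))) (c (a (c (l 15920024) (l 15943040)) (l 15937024)) (a (c (l 15983920) (l 16018264)) (c (l 15939896) (a (l 15965648) (l 15819704))))))))), by decide +kernel⟩

def k20_pm_012 : ∃ t, chk3 f_pm_012 t 30 9 1 = true :=
  ⟨(b (c (a (b (c (a (l 15730632) (l 15501088)) (l 15762560)) (a (l 15305856) (l 15093984))) (b (c (b (l 15733576) (l 15436808)) (a (l 15518192) (l 15509712))) (c (l 14975856) (a (l 15150696) (l 15055080))))) (b (a (b (l 15870536) (l 15606296)) (b (l 15816784) (l 15506000))) (a (l 15228216) (l 15088904)))) (c (a (b (c (b (l 14747760) (l 14828624)) (l 14868784)) (l 14728952)) (b (b (c (l 14676544) (l 14730112)) (l 14607368)) (l 14577192))) (b (b (l 14725248) (l 14695624)) (l 14664696)))), by decide +kernel⟩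

def k21_pm_012 : ∃ t, chk3 f_pm_012 t 31 9 1 = true :=
  ⟨(b (a (c (a (b (c (l 15287576) (l 15576848)) (b (l 15052800) (l 14763800))) (b (c (a (c (l 15416032) (l 15451736)) (l 15423784)) (a (l 15524888) (l 15326128))) (c (b (l 14953776) (l 14559968)) (l 14655408)))) (b (c (a (l 15598928) (l 15476528)) (l 15630608)) (c (a (l 15007760) (l 14944960)) (l 14976912)))) (b (c (a (c (a (l 15421320) (l 15346480)) (a (l 15307144) (l 15470936))) (b (a (l 15672616) (l 15725992)) (l 15395816))) (a (c (a (l 15560272) (b (l 15640568) (l 15363304))) (l 15377392)) (c (a (b (a (l 15665696) (l 15681384)) (l 15357920)) (l 15423736)) (a (c (b (l 15729936) (l 15399736)) (l 15509104)) (a (c (l 15394352) (l 15315368)) (b (l 15666208) (l 15375328))))))) (c (a (c (l 14796512) (a (l 14821000) (l 14812544))) (l 14881840)) (a (c (l 14670336) (l 14927872)) (c (a (l 14852416) (l 14898664)) (a (l 14890992) (c (l 14888136) (l 14856664)))))))) (a (c (b (a (b (l 14510960) (l 14418096)) (b (c (a (l 14378384) (l 14340128))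 (l 14421528)) (c (l 14261704) (l 14318032)))) (a (l 14387712) (c (l 14231584) (l 14287048)))) (b (b (c (l 14541016) (l 14535280)) (l 14429848)) (l 14397872))) (c (b (a (b (c (l 14334568) (a (l 14352688) (l 14339232))) (c (l 14184384) (l 14218328))) (b (l 14427168) (l 14275240))) (a (c (l 14166648) (l 14178856)) (l 14206040))) (a (b (c (b (l 14400472) (l 14266200)) (b (l 14439272) (l 14302392))) (c (l 14225768) (l 14261048))) (b (c (b (l 14392336) (l 14236304)) (a (b (l 14395488) (l 14237512)) (b (l 14144648) (l 14236024)))) (c (l 14165432) (a (l 14174648) (l 14151352)))))))), by decide +kernel⟩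

def k22_pm_012 : ∃ t, chk3 f_pm_012 t 7 5 1 = true :=
  ⟨(a (b (a (b (a (b (l 15421944) (l 15513648)) (b (c (l 15066208) (l 15008248)) (b (l 15100488) (l 15124536)))) (a (l 15424384) (l 14959008))) (c (b (b (l 14898264) (b (l 14886360) (l 14864456))) (l 14695920)) (b (b (l 14834816) (a (l 14863608) (l 14756320))) (l 14583816)))) (a (b (a (l 15282272) (l 14876416)) (a (l 15237648) (l 14833816))) (b (c (l 14548392) (l 14470888)) (c (l 14498384) (l 14418248))))) (b (a (b (c (a (b (l 14753472) (b (l 14725696) (l 14671760))) (b (l 14538464) (b (l 14510512) (l 14454952)))) (b (l 14624848) (b (l 14595960) (l 14539024)))) (c (a (a (l 14459472) (l 14329216)) (c (l 14117968) (l 14157552))) (a (l 14334840) (l 14119960)))) (b (a (c (b (a (l 14348840) (l 14223264)) (b (l 14198968) (a (l 14264168) (l 14137688)))) (b (l 14356792) (l 14171288))) (c (b (a (l 14033848) (l 14159600)) (a (b (l 14110240) (l 14051672)) (l 14099896))) (a (c (b (l 14184632) (l 14124616)) (l 14104240)) (c (b (l 14118040) (l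 14056912)) (b (l 14082232) (b (l 14093352) (l 14030344))))))) (a (c (b (l 13750136) (l 13530048)) (l 13916776)) (c (a (l 13643872) (l 13716992)) (a (l 13524080) (c (l 13662760) (l 13575584))))))) (a (b (c (a (l 14146600) (b (l 13822248) (l 13718072))) (a (l 14073104) (l 13743448))) (c (a (l 14088976) (l 13699416)) (l 13839408))) (b (a (c (a (l 13484312) (c (l 13295296) (l 13327096))) (b (l 13522568) (l 13331504))) (c (a (c (l 13196384) (l 13186968)) (l 13192736)) (a (c (l 13210000) (l 13221776)) (c (l 13122120) (l 13106904))))) (a (c (c (l 13251600) (l 13285712)) (l 13285408)) (c (b (a (l 12966184) (l 12907560)) (l 12959392)) (a (l 12969696) (c (l 12829704) (l 12702048))))))))), by decide +kernel⟩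

def k23_pm_012 : ∃ t, chk3 f_pm_012 t 3 3 1 = true :=
  ⟨(a (a (b (a (c (l 16777024) (l 16777024)) (b (l 16628360) (l 16644448))) (l 2)) (b (a (b (l 16322368) (l 16366392)) (b (a (l 16040128) (l 15701008)) (a (l 16107960) (l 15797840)))) (a (l 2) (b (a (l 2) (l 15913248)) (l 2))))) (a (b (a (b (a (l 15314376) (l 14923144)) (c (l 15278296) (l 15225680))) (b (c (l 14584680) (l 14507576)) (l 14432808))) (a (b (l 15324192) (l 2)) (b (l 14850800) (l 15047080)))) (a (b (c (b (a (l 14175072) (l 13792136)) (l 13869352)) (b (l 13929400) (l 14072200))) (b (c (l 14294176) (l 14244880)) (c (l 14499304) (l 14449424)))) (b (c (a (b (b (l 13335048) (l 13406880)) (l 13532120)) (b (l 12961776) (l 13207600))) (a (b (l 13381200) (l 13534448)) (b (a (l 13067416) (c (l 12911936) (l 12888040))) (a (l 13228256) (l 13065568))))) (c (a (b (l 13727000) (l 13958576)) (b (l 13405048) (l 13640224))) (a (l 13666552) (b (l 13270200) (l 13586080)))))))), by decide +kernel⟩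

theorem s24_pm_012 : ∃ t, chk3 f_pm_012 t 15 9 1 = true := ex3_a k20_pm_012 k21_pm_012

theorem s25_pm_012 : ∃ t, chk3 f_pm_012 t 15 17 1 = true := ex3_b k18_pm_012 k19_pm_012

theorem s26_pm_012 : ∃ t, chk3 f_pm_012 t 30 32 1 = true := ex3_b k14_pm_012 k15_pm_012

theorem s27_pm_012 : ∃ t, chk3 f_pm_012 t 15 32 1 = true := ex3_a s26_pm_012 k16_pm_012

theorem s28_pm_012 : ∃ t, chk3 f_pm_012 t 15 16 1 = true := ex3_b s27_pm_012 k17_pm_012

theorem s29_pm_012 : ∃ t, chk3 f_pm_012 t 15 8 1 = true := ex3_b s28_pm_012 s25_pm_012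

theorem s30_pm_012 : ∃ t, chk3 f_pm_012 t 15 4 1 = true := ex3_b s29_pm_012 s24_pm_012

theorem s31_pm_012 : ∃ t, chk3 f_pm_012 t 29 32 1 = true := ex3_c k9_pm_012 k10_pm_012

theorem s32_pm_012 : ∃ t, chk3 f_pm_012 t 29 16 1 = true := ex3_b s31_pm_012 k11_pm_012

theorem s33_pm_012 : ∃ t, chk3 f_pm_012 t 29 8 1 = true := ex3_b s32_pm_012 k12_pm_012

theorem s34_pm_012 : ∃ t, chk3 f_pm_012 t 28 16 1 = true := ex3_b k6_pm_012 k7_pm_012

theorem s35_pm_012 : ∃ t, chk3 f_pm_012 t 28 8 1 = true := ex3_b s34_pm_012 k8_pm_012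

theorem s36_pm_012 : ∃ t, chk3 f_pm_012 t 14 8 1 = true := ex3_a s35_pm_012 s33_pm_012

theorem s37_pm_012 : ∃ t, chk3 f_pm_012 t 14 4 1 = true := ex3_b s36_pm_012 k13_pm_012

theorem s38_pm_012 : ∃ t, chk3 f_pm_012 t 7 4 1 = true := ex3_a s37_pm_012 s30_pm_012

theorem s39_pm_012 : ∃ t, chk3 f_pm_012 t 7 2 1 = true := ex3_b s38_pm_012 k22_pm_012

theorem s40_pm_012 : ∃ t, chk3 f_pm_012 t 13 8 1 = true := ex3_c k2_pm_012 k3_pm_012

theorem s41_pm_012 : ∃ t, chk3 f_pm_012 t 13 4 1 = true := ex3_b s40_pm_012 k4_pm_012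

theorem s42_pm_012 : ∃ t, chk3 f_pm_012 t 6 4 1 = true := ex3_a k1_pm_012 s41_pm_012

theorem s43_pm_012 : ∃ t, chk3 f_pm_012 t 6 2 1 = true := ex3_b s42_pm_012 k5_pm_012

theorem s44_pm_012 : ∃ t, chk3 f_pm_012 t 3 2 1 = true := ex3_a s43_pm_012 s39_pm_012

theorem s45_pm_012 : ∃ t, chk3 f_pm_012 t 3 1 1 = true := ex3_b s44_pm_012 k23_pm_012

theorem s46_pm_012 : ∃ t, chk3 f_pm_012 t 1 1 1 = true := ex3_a k0_pm_012 s45_pm_012

theorem c_pm_012 : CertNX 0 536870912 1073741824 536870912 1046898278 26843546 3 false true false .pnp 0 1 2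
    ndN0q0 ndN3q2 pcN1 cut_pm_012 Ext.none :=
  certNX2 (fam := false) (s1 := true) (s2 := false) (a := 0) (b := 1) (c := 2) (cn := .pnp) (n1 := ndN0q0) (n2 := ndN3q2) (pc := pcN1) (cut := cut_pm_012) (xt := Ext.none) (P1 := 0) (W1 := 536870912) (P2 := 1073741824) (W2 := 536870912) (P3 := 1046898278) (W3 := 26843546) (N0 := 3)
    rfl (fun _ => rfl) s46_pm_012

noncomputable def cut_pm_022 : Cut := Cut.of [[⟨0, 0, 0, 67108864⟩, ⟨1, 1, 0, 67108864⟩, ⟨2, 1, 0, 67108864⟩]]

noncomputable def f_pm_022 : ℕ → ℕ → ℕ → ℕ → Bool := onCell 1073741824 536870912 1073741824 536870912 1046898278 26843546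
    (rowNX 3 2 false true false .pp 0 2 2 (qsf 0 536870912 1073741824 536870912 2) ndN0q0 ndN3q2 pcN2 cut_pm_022 Ext.none)

def k0_pm_022 : ∃ t, chk3 f_pm_022 t 16 4 1 = true :=
  ⟨(b (a (a (b (l 6) (b (l 6) (b (l 6) (b (l 6) (b (l 6) (c (c (c (c (a (l 15879472) (l 15878072)) (l 15906432)) (l 15920360)) (l 15912984)) (c (l 15900696) (c (l 15892840) (c (a (l 15865272) (c (l 15918712) (l 15915568))) (a (c (l 15864128) (l 15860872)) (l 15913928))))))))))) (l 4)) (l 4)) (a (b (a (c (b (c (b (c (b (c (a (l 15825560) (l 15826736)) (l 15845472)) (l 15729904)) (l 15788552)) (l 15401672)) (l 15500480)) (l 15069696)) (c (b (l 15525664) (l 15029288)) (c (b (l 15451496) (l 15010200)) (b (c (a (l 15588368) (a (l 15635592) (l 1750968190519))) (a (a (b (l 15646688) (l 15330216)) (c (l 15436888) (l 15603088))) (l 15519888))) (c (a (l 14952552) (a (l 15028768) (l 15013832))) (a (c (l 14948472) (l 14943280)) (l 15047120))))))) (a (c (b (c (b (l 4) (l 15615760)) (l 15724016)) (l 15050216)) (c (b (l 15709120)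 (l 15160568)) (b (c (l 15603384) (l 1790696720071)) (c (l 14921904) (a (l 75929760535) (l 15170648)))))) (l 4))) (c (b (b (l 14680776) (l 14524824)) (l 14419432)) (c (b (b (l 14632744) (l 14472688)) (l 14364720)) (c (a (b (l 14429552) (l 14244064)) (b (c (l 14639248) (a (l 14578336) (b (l 14770648) (l 14606144)))) (c (l 14438360) (l 14425776)))) (a (b (c (b (l 14499216) (l 14337072)) (a (b (l 14439440) (l 14276680)) (l 14460064))) (c (l 14231216) (a (l 14173312) (l 14264400)))) (b (b (l 14697904) (l 14533496)) (l 14412920))))))) (a (b (l 4) (b (l 4) (c (l 14682448) (c (l 14611168) (c (l 14492240) (l 14611096)))))) (l 4)))), by decide +kernel⟩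

def k1_pm_022 : ∃ t, chk3 f_pm_022 t 16 5 1 = true :=
  ⟨(b (c (b (b (a (l 14328400) (l 73244543271)) (b (l 70559768215) (l 14360960))) (a (l 13869616) (l 14122456))) (b (c (a (b (l 14271616) (l 14203072)) (c (b (l 14623040) (b (l 14539280) (l 14467784))) (a (b (l 14504848) (l 14409760)) (b (l 500593935607) (b (l 14609784) (l 14533416)))))) (a (c (a (l 14137648) (b (c (l 14327992) (l 14315008)) (b (l 14280344) (l 14215552)))) (a (b (c (l 14156800) (l 14143088)) (c (l 14091600) (b (l 14110320) (l 14045208)))) (b (l 14301496) (l 14230000)))) (b (a (c (l 14324016) (l 14462688)) (l 14661416)) (a (b (l 14412392) (l 14346992)) (l 14522080))))) (c (a (l 13800344) (c (l 14095520) (a (l 14003360) (l 14030376)))) (a (c (a (l 13697312) (l 13713040)) (a (c (l 13680840) (l 13665080)) (l 13817200))) (a (l 13778912) (l 14099384)))))) (c (b (a (l 13332128) (l 13581696)) (a (l 12985872) (l 13197240))) (b (c (a (l 13246776) (c (l 13541032) (a (l 13444536) (l 13595272)))) (a (c (a (l 13136304) (l 13276264))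 (a (l 12854488) (l 13249096))) (l 13364472))) (c (a (l 12889448) (c (l 13145968) (a (l 13046568) (l 13193800)))) (a (c (a (l 12781936) (l 12890256)) (a (c (l 12758464) (l 12738256)) (l 12859048))) (l 12938416)))))), by decide +kernel⟩

def k2_pm_022 : ∃ t, chk3 f_pm_022 t 17 2 1 = true :=
  ⟨(b (l 4) (a (b (b (l 4) (c (a (l 14336624) (a (l 243969102823) (l 4))) (c (c (a (l 258464392119) (l 247727252631)) (l 14350168)) (l 14316520)))) (c (b (c (l 13856624) (b (l 13972592) (l 13709576))) (c (l 13470072) (c (l 13455488) (l 13441056)))) (b (c (c (a (l 13766864) (l 13890344)) (l 13772168)) (l 13730376)) (c (c (a (l 13367456) (l 13487472)) (l 13367248)) (l 13319512))))) (b (l 4) (c (c (b (l 14171976) (l 13765544)) (a (b (c (l 14108504) (l 14064584)) (c (l 13702240) (l 13654672))) (b (l 4) (c (l 13826528) (l 13735880))))) (b (l 14030184) (l 13603848)))))), by decide +kernel⟩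

def k3_pm_022 : ∃ t, chk3 f_pm_022 t 9 2 1 = true :=
  ⟨(b (l 4) (b (l 4) (a (b (l 4) (a (a (c (c (l 371743501319) (l 13887432)) (l 13800912)) (l 4)) (l 4))) (l 4)))), by decide +kernel⟩

def k4_pm_022 : ∃ t, chk3 f_pm_022 t 5 2 1 = true :=
  ⟨(l 4), by decide +kernel⟩

def k5_pm_022 : ∃ t, chk3 f_pm_022 t 4 3 1 = true :=
  ⟨(a (c (b (a (b (b (l 13025336) (l 13073664)) (l 13177312)) (c (b (b (a (l 13271472) (l 13527424)) (l 13352928)) (l 13433864)) (a (b (b (l 13241360) (l 13223704)) (l 13318432)) (b (b (c (l 13514344) (l 13460840)) (c (l 13406632) (l 13352696))) (c (l 13480208) (l 13428360)))))) (a (l 13439456) (c (l 13643448) (a (l 13559560) (b (l 13590656) (l 13756976)))))) (b (a (c (a (l 12968032) (b (c (l 13045680) (a (l 12975080) (l 13056496))) (c (l 13167120) (l 13130624)))) (a (b (c (l 12850016) (a (l 12786176) (l 12847856))) (c (l 12990352) (l 12952536))) (b (a (l 12923976) (l 12985456)) (l 13085416)))) (b (a (c (b (c (a (l 13167240) (l 13258936)) (l 13157992)) (l 13170320))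 (l 13104824)) (b (l 13353736) (l 13243560))) (c (a (l 13266160) (l 13352640)) (l 13240736)))) (a (c (a (l 13309328) (b (l 13305512) (l 13498120))) (a (b (c (l 13162088) (l 13126360)) (l 13350160)) (l 13349128))) (a (b (l 13356840) (l 13561904)) (l 13559368))))) (b (a (c (b (a (c (b (c (l 13836480) (l 13725872)) (c (l 13653536) (l 13604432))) (b (l 13688952) (l 13503248))) (c (a (c (b (l 14010536) (l 13784616)) (l 13789360)) (l 13928696)) (l 13811336))) (a (c (l 13470656) (l 13522960)) (c (c (l 13496080) (l 13659616)) (l 13616624)))) (b (a (l 13463416) (l 13735248)) (a (l 13427760) (l 13533616)))) (b (a (b (l 4) (l 13912712)) (l 4)) (b (a (l 13722704) (l 14069840)) (a (l 13704512) (l 13956312))))) (a (c (a (c (b (l 13764280) (l 13916232)) (l 13739976)) (c (b (l 13835696) (l 13972392)) (l 13805152))) (b (l 13607864) (l 13766048))) (b (c (l 13934680) (l 13834672)) (l 13980368))))), by decide +kernel⟩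

def k6_pm_022 : ∃ t, chk3 f_pm_022 t 5 3 1 = true :=
  ⟨(a (b (a (a (b (l 4) (b (l 4) (l 14324064))) (l 4)) (l 4)) (a (a (b (l 14286520) (l 14316104)) (b (l 14612456) (l 14623912))) (b (b (a (l 14966456) (l 4)) (a (l 14925528) (l 15166424))) (c (l 15100072) (l 15041008))))) (b (l 4) (b (l 4) (a (c (l 15498344) (l 15453368)) (b (l 4) (l 15833640)))))), by decide +kernel⟩

def k7_pm_022 : ∃ t, chk3 f_pm_022 t 3 1 1 = true :=
  ⟨(l 4), by decide +kernel⟩

theorem s8_pm_022 : ∃ t, chk3 f_pm_022 t 2 3 1 = true := ex3_a k5_pm_022 k6_pm_022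

theorem s9_pm_022 : ∃ t, chk3 f_pm_022 t 16 2 1 = true := ex3_b k0_pm_022 k1_pm_022

theorem s10_pm_022 : ∃ t, chk3 f_pm_022 t 8 2 1 = true := ex3_a s9_pm_022 k2_pm_022

theorem s11_pm_022 : ∃ t, chk3 f_pm_022 t 4 2 1 = true := ex3_a s10_pm_022 k3_pm_022

theorem s12_pm_022 : ∃ t, chk3 f_pm_022 t 2 2 1 = true := ex3_a s11_pm_022 k4_pm_022

theorem s13_pm_022 : ∃ t, chk3 f_pm_022 t 2 1 1 = true := ex3_b s12_pm_022 s8_pm_022

theorem s14_pm_022 : ∃ t, chk3 f_pm_022 t 1 1 1 = true := ex3_a s13_pm_022 k7_pm_022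

theorem c_pm_022 : CertNX 0 536870912 1073741824 536870912 1046898278 26843546 3 false true false .pp 0 2 2
    ndN0q0 ndN3q2 pcN2 cut_pm_022 Ext.none :=
  certNX2 (fam := false) (s1 := true) (s2 := false) (a := 0) (b := 2) (c := 2) (cn := .pp) (n1 := ndN0q0) (n2 := ndN3q2) (pc := pcN2) (cut := cut_pm_022) (xt := Ext.none) (P1 := 0) (W1 := 536870912) (P2 := 1073741824) (W2 := 536870912) (P3 := 1046898278) (W3 := 26843546) (N0 := 3)
    rfl (fun _ => rfl) s14_pm_022

noncomputable def f_pm_023 : ℕ → ℕ → ℕ → ℕ → Bool := onCell 0 536870912 1073741824 536870912 1046898278 26843546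
    (rowNX 3 1 false true false .up 0 2 3 (qsf 0 536870912 1610612736 536870912 2) ndN0q0 ndN3q3 pcN2 Cut.none Ext.none)

def k0_pm_023 : ∃ t, chk3 f_pm_023 t 1 1 1 = true :=
  ⟨(b (b (a (l 1) (a (b (l 1) (b (l 1) (a (l 1) (l 13954856)))) (b (c (b (l 13489088) (c (l 13801584) (b (l 13677856) (l 97737669655)))) (a (b (l 1) (l 13560528)) (b (c (l 13508576) (b (l 13378432) (l 13526168))) (l 13763792)))) (b (c (c (b (l 13884592) (l 13971760)) (l 93979884231)) (l 67673053431)) (a (l 14064152) (l 14192696)))))) (a (a (l 1) (b (l 1) (l 4))) (b (a (a (b (l 1) (l 15059208)) (b (b (l 14320224) (l 14631592)) (l 15107480))) (b (b (a (l 14356440) (l 14398936)) (l 14668440)) (a (l 15165904) (l 15234264)))) (a (b (a (l 15479976) (l 15577024)) (a (l 15844848) (l 15945400))) (b (a (l 15701096) (l 15846024)) (a (l 16085704) (l 16249384))))))) (b (a (l 4) (c (b (a (b (l 16225080) (l 16518960)) (l 16506736)) (a (l 16764648) (l 16768992))) (b (a (a (l 16338648) (l 16380552)) (l 16497208)) (a (l 16764200)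 (l 16768704))))) (a (l 4) (a (c (l 26004685559) (b (l 16777208) (l 16777176))) (b (a (l 16777168) (l 16725920)) (a (l 16725920) (l 16698240))))))), by decide +kernel⟩

theorem c_pm_023 : CertNX 0 536870912 1610612736 536870912 1046898278 26843546 3 false true false .up 0 2 3
    ndN0q0 ndN3q3 pcN2 Cut.none Ext.none :=
  certNX1 (fam := false) (s1 := true) (s2 := false) (a := 0) (b := 2) (c := 3) (cn := .up) (n1 := ndN0q0) (n2 := ndN3q3) (pc := pcN2) (cut := Cut.none) (xt := Ext.none) (P1 := 0) (W1 := 536870912) (P2 := 1610612736) (W2 := 536870912) (P3 := 1046898278) (W3 := 26843546) (N0 := 3)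
    rfl (fun _ => rfl) k0_pm_023

noncomputable def f_pm_033 : ℕ → ℕ → ℕ → ℕ → Bool := onCell 1610612736 536870912 1610612736 536870912 1046898278 26843546
    (rowNX 3 2 false true false .pnn 0 3 3 (qsf 0 536870912 1610612736 536870912 3) ndN0q0 ndN3q3 pcN3 Cut.none Ext.none)

def k0_pm_033 : ∃ t, chk3 f_pm_033 t 1 1 1 = true :=
  ⟨(a (b (l 4) (b (a (a (b (l 4) (l 16777152)) (l 4)) (l 4)) (b (a (c (l 16730632) (l 16687056)) (l 4)) (a (a (l 16685896) (l 16685896)) (a (c (l 16691672) (l 16686984)) (l 4)))))) (l 4)), by decide +kernel⟩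

theorem c_pm_033 : CertNX 0 536870912 1610612736 536870912 1046898278 26843546 3 false true false .pnn 0 3 3
    ndN0q0 ndN3q3 pcN3 Cut.none Ext.none :=
  certNX2 (fam := false) (s1 := true) (s2 := false) (a := 0) (b := 3) (c := 3) (cn := .pnn) (n1 := ndN0q0) (n2 := ndN3q3) (pc := pcN3) (cut := Cut.none) (xt := Ext.none) (P1 := 0) (W1 := 536870912) (P2 := 1610612736) (W2 := 536870912) (P3 := 1046898278) (W3 := 26843546) (N0 := 3)
    rfl (fun _ => rfl) k0_pm_033

noncomputable def f_pm_101 : ℕ → ℕ → ℕ → ℕ → Bool := onCell 536870912 536870912 536870912 536870912 1046898278 26843546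
    (rowNX 3 0 false true false .npn 1 0 1 (qsf 536870912 536870912 536870912 536870912 0) ndN0q1 ndN3q1 pcN0 Cut.none Ext.none)

def k0_pm_101 : ∃ t, chk3 f_pm_101 t 1 1 1 = true :=
  ⟨(l 4), by decide +kernel⟩

theorem c_pm_101 : CertNX 536870912 536870912 536870912 536870912 1046898278 26843546 3 false true false .npn 1 0 1
    ndN0q1 ndN3q1 pcN0 Cut.none Ext.none :=
  certNX0 (fam := false) (s1 := true) (s2 := false) (a := 1) (b := 0) (c := 1) (cn := .npn) (n1 := ndN0q1) (n2 := ndN3q1) (pc := pcN0) (cut := Cut.none) (xt := Ext.none) (P1 := 536870912) (W1 := 536870912) (P2 := 536870912) (W2 := 536870912) (P3 := 1046898278) (W3 := 26843546) (N0 := 3)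
    rfl k0_pm_101

end Pool.Agent.Strip051.G.IE1.Tab.C.NB03

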