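import Pool.Agent.Strip051.G.IE1.Tab

/-! # Certificates N51 (generated) -/

set_option linter.all false
set_option maxRecDepth 100000

namespace Pool.Agent.Strip051.G.IE1.Tab.C.NB03

open Pool.Agent.Strip051.PB Pool.Agent.Strip051.PB.T
open Pool.Agent.Strip051.G.IE1.Tab

noncomputable def cut_pm_102 : Cut := Cut.of [[⟨0, 1, 0, 67108864⟩, ⟨1, 0, 0, 67108864⟩, ⟨2, 1, 0, 67108864⟩, ⟨3, 0, 0, 1317011456⟩]]

noncomputable def f_pm_102 : ℕ → ℕ → ℕ → ℕ → Bool := onCell 536870912 536870912 0 536870912 1046898278 26843546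
    (rowNX 3 1 false true false .npp 1 0 2 (qsf 536870912 536870912 1073741824 536870912 0) ndN0q1 ndN3q2 pcN0 cut_pm_102 Ext.none)

def k0_pm_102 : ∃ t, chk3 f_pm_102 t 2 2 1 = true :=
  ⟨(a (l 1) (b (l 1) (b (l 1) (b (l 1) (a (l 1) (b (l 1) (c (a (l 1) (l 294771748343)) (l 282423103447)))))))), by decide +kernel⟩

def k1_pm_102 : ∃ t, chk3 f_pm_102 t 2 6 1 = true :=
  ⟨(a (a (l 1) (b (l 1) (a (l 1) (b (l 1) (c (l 390871404583) (l 14709672)))))) (b (a (a (l 1) (b (l 1) (c (l 373691535399) (l 14877448)))) (a (a (b (l 1) (c (l 264170557655) (b (l 15121448) (l 15286744)))) (b (l 294234817047) (c (b (l 15399000) (l 15563208)) (b (l 15307712) (l 15478632))))) (a (b (b (l 15128600) (c (l 15399000) (l 15244800))) (c (b (l 15500296) (l 15667520)) (l 15381152))) (b (c (b (l 15294144) (b (l 15538544) (l 15600776))) (b (l 237327097159) (l 15478632))) (c (l 15700672) (l 15633800)))))) (a (b (a (c (l 382281469991) (l 14625792)) (a (b (l 323762997703) (c (l 15399000) (l 15202856))) (c (b (l 15399000)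 (l 15563208)) (b (l 15118968) (l 15478632))))) (a (c (b (l 344164323543) (a (l 15399000) (l 15563208))) (b (a (l 15121448) (l 15223824)) (a (l 15244800) (l 15478632)))) (a (c (b (l 15563208) (l 15667520)) (l 15360184)) (c (l 15700672) (l 15633800))))) (b (a (b (c (a (l 15563208) (l 15667520)) (l 15506984)) (c (l 15700672) (l 15633800))) (b (a (l 15709632) (c (l 15692520) (l 15843288))) (a (c (l 15755432) (l 15843288)) (l 16155904)))) (a (b (a (l 15709632) (c (l 15776408) (l 15843288))) (a (c (l 15797376) (l 15843288)) (l 16155904))) (b (a (l 16155904) (l 16464920)) (a (l 16464920) (l 16540528)))))))), by decide +kernel⟩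

def k2_pm_102 : ∃ t, chk3 f_pm_102 t 4 7 1 = true :=
  ⟨(a (b (a (l 1) (b (l 1) (c (l 424157401127) (l 412346112007)))) (a (b (c (l 427915497511) (l 435431561223)) (c (a (l 366712776023) (b (l 15399000) (l 15563208))) (a (b (l 15121448) (l 446169881927)) (b (l 15098000) (l 15478632))))) (b (c (a (l 365639160023) (b (l 15399000) (l 15563208))) (a (b (l 15121448) (l 15139944)) (b (l 15181880) (l 15478632)))) (c (a (l 204578513607) (l 15700672)) (b (l 15465040) (l 15633800)))))) (b (a (b (c (l 408588144679) (l 372617664519)) (c (a (l 357049225431) (b (l 15399000) (l 15563208))) (a (b (l 15121448) (l 15181880)) (b (l 15265768) (l 15478632))))) (b (c (b (l 368323514583) (a (l 15399000) (l 15563208))) (a (b (l 15121448) (l 15265768)) (b (l 15244800) (l 15478632)))) (b (c (a (l 15563208) (l 15667520)) (l 15527960)) (c (l 15700672) (l 15633800))))) (a (b (a (b (c (l 15563208) (l 15478632)) (l 15649688)) (c (l 15700672) (l 15633800))) (a (b (l 15709632) (c (l 15881264) (l 15843288))) (b (l 15716560)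 (l 16155904)))) (b (a (b (l 15709632) (l 15695584)) (b (l 15695584) (l 16155904))) (a (b (l 16155904) (l 16402000)) (b (l 16381032) (l 16540528))))))), by decide +kernel⟩

def k3_pm_102 : ∃ t, chk3 f_pm_102 t 5 7 1 = true :=
  ⟨(b (a (b (a (a (c (b (l 15563208) (l 15667520)) (l 15381152)) (c (l 15700672) (l 15633800))) (a (b (l 15709632) (l 15611704)) (b (c (l 15818344) (l 15843288)) (l 16155904)))) (a (a (b (l 15709632) (l 15674616)) (b (l 15632672) (l 16155904))) (a (b (l 16155904) (l 16381032)) (b (l 16464920) (l 16540528))))) (b (a (b (a (l 16155904) (l 16464920)) (a (l 16464920) (l 16540528))) (a (l 16455400) (l 16359456))) (a (b (l 16455400) (l 16359456)) (a (l 16308648) (l 16305672))))) (a (a (b (a (b (l 16155904) (l 16381032)) (b (l 16381032) (l 16540528))) (a (l 16476376) (l 16359456))) (b (a (l 16476376) (l 16359456)) (a (l 16245728) (l 16347608)))) (a (b (a (l 16224760) (l 16326640)) (l 16527416)) (b (l 16527416) (a (l 16693712) (l 16755272)))))), by decide +kernel⟩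

def k4_pm_102 : ∃ t, chk3 f_pm_102 t 6 4 1 = true :=
  ⟨(a (l 1) (b (l 1) (a (l 1) (a (l 1) (a (l 1) (b (l 1) (b (l 1) (b (l 1) (b (l 1) (c (l 474086952631) (l 14834488))))))))))), by decide +kernel⟩

def k5_pm_102 : ∃ t, chk3 f_pm_102 t 12 10 1 = true :=
  ⟨(a (l 1) (a (l 1) (b (l 1) (b (l 1) (a (l 1) (a (l 1) (b (l 1) (c (l 15203064) (l 15131512))))))))), by decide +kernel⟩

def k6_pm_102 : ∃ t, chk3 f_pm_102 t 13 20 1 = true :=
  ⟨(b (a (l 1) (b (a (l 1) (a (a (l 1) (c (c (l 15014712) (l 14942256)) (l 340942399911))) (c (b (c (l 201356394775) (l 15043280)) (a (l 15118928) (l 15235480))) (c (b (l 14974128) (a (l 15021728) (l 15140480))) (b (a (l 14845856) (l 14951912)) (a (l 14949456) (l 15068448))))))) (a (a (l 1) (b (l 1) (c (l 374228897127) (l 14906216)))) (c (a (a (c (l 15118184) (l 15055808)) (b (l 15115280) (l 15222800))) (c (b (l 15315304) (l 15414456)) (b (l 15258192) (l 15357912)))) (a (c (a (l 14992160) (b (l 15019808) (l 15129456))) (a (l 308193331415) (b (l 14948656) (l 15059048))))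 (a (b (c (l 15134128) (l 15062832)) (l 15201296)) (l 15259480))))))) (a (b (l 1) (b (l 1) (a (l 1) (a (l 1) (c (l 308730778631) (l 15019904)))))) (c (a (b (a (b (l 1) (l 336647984967)) (c (b (l 15150720) (l 15245312)) (l 15084624))) (a (b (c (l 15152480) (l 15146072)) (c (l 15274256) (l 15229224))) (b (c (l 15342624) (l 15294120)) (c (l 15422144) (l 15371016))))) (b (a (c (a (l 15314776) (l 15400128)) (a (l 15261080) (l 15343632))) (c (l 15343448) (l 15468752))) (a (c (a (l 15462344) (l 15541592)) (l 15341120)) (l 15585728)))) (a (a (b (l 329668235943) (c (b (l 15096336) (l 15176456)) (b (l 14958584) (l 15119776)))) (b (c (b (l 15037520) (l 14989840)) (b (l 14975824) (c (l 15092360) (l 15059856)))) (b (c (b (l 15213408) (l 15259176)) (l 15168864)) (l 15275440)))) (b (a (a (a (c (l 15094808) (l 15110400)) (l 15182584)) (l 15239912)) (l 15383232)) (c (l 15217000) (l 15393168))))))), by decide +kernel⟩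

def k7_pm_102 : ∃ t, chk3 f_pm_102 t 13 21 1 = true :=
  ⟨(a (b (a (b (l 1) (a (l 1) (a (l 1) (c (l 287256000807) (l 15071584))))) (c (b (a (c (l 15122792) (l 15079712)) (c (l 15254816) (l 15211744))) (a (c (l 15273848) (l 15233984)) (b (c (l 15372080) (l 15329864)) (l 15419944)))) (b (a (l 15010576) (c (l 15037296) (b (l 15074072) (l 15147504)))) (c (a (l 15188720) (l 15197752)) (a (l 15075520) (l 15246128)))))) (c (a (b (c (a (l 15167336) (l 15293904)) (a (l 15129976) (l 15256984))) (a (l 15192528) (b (l 15385616) (l 15451288)))) (b (a (b (l 15345864) (l 15435024)) (c (l 15530568) (l 15472096))) (a (c (l 15541688) (l 15485104)) (l 15578224)))) (a (a (b (l 15070648) (c (l 15241296) (l 15196376))) (c (b (l 15214816) (l 15344568)) (b (l 15167336) (l 15292456)))) (b (c (a (l 15323152) (l 15409136)) (l 15309240)) (l 15431096))))) (b (a (c (b (a (b (c (l 15357136) (l 15311976)) (l 15385264)) (c (l 15513128) (l 15450600))) (a (c (l 15520984) (l 15460528)) (l 15564808))) (b (c (a (b (l 15253640)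 (l 15321672)) (l 15383544)) (l 15125080)) (l 15406456))) (c (a (c (l 15631568) (l 15564456)) (c (l 15725896) (l 15665608))) (l 15467832))) (a (c (c (l 15656064) (l 15598408)) (l 15527176)) (c (a (l 15700720) (l 15791424)) (l 15687408))))), by decide +kernel⟩

def k8_pm_102 : ∃ t, chk3 f_pm_102 t 6 22 1 = true :=
  ⟨(b (a (a (l 1) (c (a (c (b (l 1) (l 15119440)) (l 289403065703)) (b (c (l 15277272) (l 15244464)) (a (l 15343752) (c (l 15474360) (l 15436040))))) (a (l 15001736) (b (c (l 15207544) (l 15166328)) (c (l 15231048) (l 15272096)))))) (a (c (a (b (a (c (l 15456096) (l 15310208)) (l 15461000)) (c (l 15531040) (l 15535648))) (c (l 15665912) (l 15610432))) (a (b (c (l 15295176) (l 15350600)) (l 15461056)) (l 15542528))) (a (c (l 15640464) (l 15657328)) (a (b (l 15742960) (a (l 15702768) (l 15791744))) (b (c (b (l 15854808) (l 15912280)) (l 15865664)) (l 16029056)))))) (a (a (a (l 1) (b (l 1) (c (l 15134296) (l 15161736)))) (c (a (b (c (l 15323744) (l 15295456)) (a (l 15391760) (c (l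 15513096) (l 15479808)))) (b (a (c (l 15493400) (l 15457656)) (l 15554008)) (c (l 15620616) (l 15565240)))) (a (b (a (l 15191112) (l 15237576)) (c (l 15386352) (l 15347384))) (b (c (l 15440920) (l 15394840)) (l 15495096))))) (a (c (a (l 15487880) (l 15730640)) (l 15623064)) (a (b (a (l 15741048) (c (l 15694080) (l 15804792))) (a (c (l 15737120) (l 15806456)) (l 15974064))) (c (l 16151632) (l 16178312)))))), by decide +kernel⟩

def k9_pm_102 : ∃ t, chk3 f_pm_102 t 6 23 1 = true :=
  ⟨(a (a (b (c (b (a (l 1) (c (l 15342200) (l 15338144))) (c (l 15130352) (l 15141176))) (a (l 15121096) (b (b (l 15265720) (l 15317848)) (l 15276544)))) (c (a (a (l 15350880) (l 15349360)) (b (a (l 15507848) (l 15581760)) (l 15600776))) (a (c (l 15349072) (l 15314000)) (l 15457656)))) (b (c (a (b (b (a (l 15487904) (l 15570136)) (l 15519408)) (l 15600776)) (b (l 15627552) (l 15686896))) (a (b (c (l 15392568) (l 15432800)) (l 15507048)) (l 15578000))) (c (a (l 15667520) (l 15736560)) (l 15633800)))) (a (b (a (c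 (b (l 15715552) (l 15751640)) (l 15673672)) (b (a (l 15746616) (c (b (l 15808712) (l 15864920)) (l 15808144))) (a (c (l 15843216) (l 15808184)) (l 15974688)))) (a (a (b (l 15746672) (l 15762992)) (b (l 15721048) (l 15974688))) (l 16155904))) (a (b (c (l 16166656) (l 16145160)) (a (l 16420472) (l 16347904))) (b (a (b (l 16338600) (l 16511032)) (b (l 16515552) (l 16579808))) (a (l 16574264) (l 16530216)))))), by decide +kernel⟩

def k10_pm_102 : ∃ t, chk3 f_pm_102 t 28 8 1 = true :=
  ⟨(l 1), by decide +kernel⟩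

def k11_pm_102 : ∃ t, chk3 f_pm_102 t 56 9 1 = true :=
  ⟨(b (l 1) (a (b (l 1) (c (b (b (l 1) (l 526163598135)) (b (a (l 15034056) (l 15135448)) (a (l 15129480) (l 15251240)))) (b (l 377986311575) (c (b (l 14981872) (a (l 15027168) (l 15154824))) (b (a (l 14848872) (l 14957944)) (a (l 14954736) (l 15081328))))))) (b (b (l 1) (c (c (l 434358085719) (b (l 1) (l 14967792))) (l 397850549431))) (c (b (b (a (l 15045760) (l 15085984)) (a (l 15141912) (l 15269280))) (c (b (l 15354000) (l 15461528)) (b (l 15295832) (l 15405960)))) (b (c (b (l 14949376) (a (l 15036480) (l 15171536))) (b (a (l 14853136) (b (l 14933320) (l 14993632))) (a (l 14940576) (l 15096648)))) (b (c (a (l 15162872) (l 15295864)) (l 14940856)) (l 15219768))))))), by decide +kernel⟩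

def k12_pm_102 : ∃ t, chk3 f_pm_102 t 57 9 1 = true :=
  ⟨(a (b (l 1) (b (b (b (l 1) (b (l 1) (b (l 1) (c (l 15052984) (l 14888664))))) (c (b (a (l 15059512) (b (l 15133656) (l 15189008))) (a (l 214778410295) (l 15289832))) (b (a (l 14898664) (c (l 15053944) (b (l 14940608) (l 15003792)))) (c (a (l 15047624) (l 15190896)) (a (b (l 14936768) (l 14998464)) (l 15114736)))))) (c (b (c (b (l 15377024) (l 15488888)) (b (l 15318640) (l 15434440))) (b (c (l 15584400) (l 15527760)) (l 15628560))) (b (a (b (c (l 15180864) (l 15105320)) (l 15268368)) (a (l 15163256) (l 15374104))) (c (l 15502168) (l 15445928)))))) (b (b (l 1) (b (l 1) (b (l 1) (c (c (l 813926389847) (l 758628404199)) (l 601861341591))))) (b (b (c (b (c (a (l 15059560) (b (l 15118896) (l 15199056))) (a (l 14962408) (l 15052304))) (b (a (c (l 15161160) (l 15079984)) (l 15256848)) (b (b (a (a (l 15199320) (l 15201856)) (l 15320640)) (l 15263512)) (l 15142328)))) (b (a (l 14815280) (c (l 14814600) (b (l 14825016) (l 14917128)))) (b (a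 (c (l 14997912) (l 14912504)) (c (l 15148336) (l 15064952))) (a (c (l 15089184) (b (b (l 14977024) (l 14998192)) (l 15026920))) (c (l 15254352) (l 15175968)))))) (c (b (a (l 15301128) (l 15444736)) (c (l 15455968) (l 15445240))) (a (b (c (l 15201672) (l 15124936)) (l 15297760)) (b (l 15314048) (l 15437752))))) (c (b (c (b (l 15617480) (l 15695192)) (l 15601752)) (l 15758464)) (c (l 15372640) (l 15585112)))))), by decide +kernel⟩

def k13_pm_102 : ∃ t, chk3 f_pm_102 t 58 8 1 = true :=
  ⟨(l 1), by decide +kernel⟩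

def k14_pm_102 : ∃ t, chk3 f_pm_102 t 58 18 1 = true :=
  ⟨(a (b (l 1) (a (b (l 1) (c (b (c (l 824126943959) (l 14857000)) (c (b (l 15081288) (l 15160888)) (l 15020088))) (b (l 14659328) (c (l 14914016) (b (l 14738456) (l 14853832)))))) (b (b (l 1) (b (l 1) (c (l 856339278823) (l 14624984)))) (c (b (c (b (l 15048968) (l 15127688)) (l 14970720)) (c (l 15270712) (l 15179040))) (b (c (l 14848136) (b (l 14652944) (l 14770744))) (c (l 15081040) (l 14971776))))))) (b (a (l 1) (b (l 1) (b (l 1) (b (l 1) (c (l 910563216183) (c (l 14574000) (l 14383112))))))) (c (b (b (c (a (l 886403930791) (b (l 15003200) (l 15078928))) (a (l 14769040) (l 14885624))) (a (c (b (l 15022648) (l 15100112)) (l 14925696)) (c (l 15223496) (l 15098352)))) (b (c (a (l 15244136) (l 15413432)) (a (l 15136384) (l 15318040))) (c (a (l 15431272) (l 15577976)) (a (l 15350840) (l 15504640))))) (b (b (c (a (l 839695573463) (l 195449959063)) (a (l 14422144) (c (l 14599544) (l 197060142039)))) (c (a (l 14785064) (c (l 15001704)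 (l 14935112))) (a (b (l 14568624) (l 14688992)) (c (l 14860568) (l 14785192))))) (b (c (a (b (l 14960176) (l 15086544)) (l 15209256)) (a (l 14812840) (l 15095880))) (c (l 15313000) (l 15239392))))))), by decide +kernel⟩

def k15_pm_102 : ∃ t, chk3 f_pm_102 t 58 19 1 = true :=
  ⟨(b (b (c (b (a (c (a (l 15302552) (l 15454704)) (a (l 15225800) (l 15388272))) (c (a (l 15592200) (l 15712312)) (l 15592400))) (b (a (c (l 15466824) (l 15453600)) (c (l 15742392) (l 15699752))) (a (b (c (l 15356552) (l 15475848)) (l 15420992)) (c (l 15781000) (l 15744720))))) (b (a (c (a (l 15142008) (l 15308720)) (a (l 15048576) (l 15224896))) (c (l 15522568) (l 15456088))) (b (c (a (l 15383864) (l 15643624)) (l 15459592)) (c (a (l 15465376) (l 15700400)) (l 15545384))))) (c (a (c (b (l 15652680) (l 15731688)) (l 15642976)) (l 15714520)) (c (l 15470984) (l 15673672)))) (c (b (a (l 15760440) (l 15640288)) (c (l 15650536) (l 15599512))) (b (l 15626936) (l 15555560)))), by decide +kernel⟩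

def k16_pm_102 : ∃ t, chk3 f_pm_102 t 59 8 1 = true :=
  ⟨(a (l 1) (a (l 1) (b (l 1) (b (l 1) (b (l 1) (b (l 1) (b (l 1) (b (l 1) (c (c (c (b (l 1) (l 766145120151)) (l 14921752)) (l 14700024)) (c (l 14402064) (l 14288400))))))))))), by decide +kernel⟩

def k17_pm_102 : ∃ t, chk3 f_pm_102 t 118 18 1 = true :=
  ⟨(b (b (a (l 1) (b (l 1) (a (l 1) (b (l 1) (c (l 949754834471) (c (l 14487144) (l 14246024))))))) (c (b (c (a (l 941701681383) (l 505225888503)) (l 538511508647)) (c (a (l 502004717015) (l 15203248)) (a (l 14851224) (l 15038712)))) (c (b (c (a (l 14539272) (l 14666488)) (b (l 364563738871) (l 14545808))) (b (c (l 14753368) (l 143910222631)) (a (l 14714392) (l 14937376)))) (b (a (l 14258584) (c (l 220682352663) (b (l 14267120) (l 14400200)))) (a (c (l 14526296) (l 14320512)) (c (l 14731816) (l 14635776))))))) (c (b (b (c (a (l 15209560) (l 15397240)) (a (l 15065560) (l 15268632))) (c (a (l 15401848) (l 15568288)) (a (l 15290424) (l 15466368)))) (c (b (a (l 15569792) (l 15710560))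 (l 15761568)) (b (l 15428088) (l 15700912)))) (b (b (c (a (c (l 14954600) (l 14879136)) (l 15126352)) (a (c (l 14794696) (l 14709416)) (l 14979072))) (c (l 15212432) (l 15129344))) (c (b (l 15457624) (l 15628912)) (l 15471824))))), by decide +kernel⟩

def k18_pm_102 : ∃ t, chk3 f_pm_102 t 119 18 1 = true :=
  ⟨(b (c (b (b (c (b (a (l 1) (l 544954370135)) (l 467108121959)) (a (l 971229178231) (l 410736230071))) (c (a (l 510057782391) (l 15218088)) (a (l 14803176) (l 15006496)))) (b (c (a (l 15205656) (l 15412504)) (a (l 15018680) (l 15245616))) (c (a (l 15400464) (l 15588184)) (a (l 15253408) (l 15454464))))) (b (a (b (c (c (l 14460744) (b (l 1) (l 14351944))) (l 827346018791)) (c (b (l 14500896) (l 14613664)) (c (b (l 14314128) (l 14441664)) (c (l 14292088) (l 14228224))))) (c (b (b (l 14458064) (l 14571320)) (c (l 14844328) (b (l 14655240) (l 14810040)))) (b (c (b (l 14247296) (l 14377512)) (b (l 14098664) (l 14240080))) (c (b (l 14535984) (l 14696080)) (l 14496328))))) (b (c (a (c (l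 14875152) (b (l 14701248) (l 14850744))) (l 15064736)) (a (c (l 14672352) (l 14564600)) (l 14878320))) (c (l 14985880) (l 15035984))))) (c (b (b (c (a (l 15574160) (l 15738040)) (l 15289104)) (c (l 15722736) (l 15699368))) (c (b (l 15886088) (l 15879944)) (l 15826192))) (b (c (b (l 15415288) (l 15601392)) (l 15346312)) (b (l 15734216) (l 15774336))))), by decide +kernel⟩

def k19_pm_102 : ∃ t, chk3 f_pm_102 t 59 19 1 = true :=
  ⟨(b (b (c (b (c (a (l 15835064) (l 15705640)) (l 15556624)) (b (c (l 15559712) (l 15585392)) (c (l 15427088) (l 15471672)))) (b (a (l 15739096) (l 15590736)) (b (l 15486968) (l 15374048)))) (c (c (l 15516072) (l 15397080)) (l 15409000))) (a (c (c (l 15476248) (l 15428600)) (l 15386448)) (b (c (b (l 15353800) (a (l 15358208) (c (l 15312952) (l 15273192)))) (l 15239744)) (a (c (b (l 15329456) (l 15312304)) (l 15268616)) (c (b (a (l 15287744) (l 15291920)) (l 15313808)) (l 15251576)))))), by decide +kernel⟩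

def k20_pm_102 : ∃ t, chk3 f_pm_102 t 30 8 1 = true :=
  ⟨(b (a (l 1) (l 6)) (a (b (a (l 1) (l 6)) (b (a (a (l 1) (l 6)) (l 6)) (b (a (a (a (l 1) (l 6)) (l 6)) (l 6)) (b (a (a (a (a (l 1) (l 6)) (l 6)) (l 6)) (l 6)) (a (c (c (c (c (c (b (a (l 484824943655) (l 6)) (b (l 415031868247) (l 15367664))) (l 15315168)) (l 15267104)) (l 15170776)) (a (l 14841448) (l 15107544))) (a (c (l 14561024) (c (l 14348400) (a (l 14119400) (l 14267160)))) (c (l 14858864) (l 14595152)))) (b (l 6) (b (l 6) (c (c (a (l 15621960) (l 15858312)) (l 15555032)) (l 15257848))))))))) (b (l 6) (b (l 6) (b (l 6) (b (l 6) (b (l 6) (b (l 6) (c (a (c (l 16204000) (l 16082008)) (c (a (l 16533464) (l 16596688)) (l 16559808))) (a (l 15890752) (l 16502720))))))))))), by decide +kernel⟩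

def k21_pm_102 : ∃ t, chk3 f_pm_102 t 31 8 1 = true :=
  ⟨(b (l 6) (b (l 6) (b (l 6) (b (l 6) (b (l 6) (b (l 6) (b (l 6) (b (l 6) (b (l 6) (c (a (c (a (c (a (c (l 16708088) (l 16673776)) (l 16681200)) (a (l 16642280) (l 16599200))) (c (l 16665120) (a (l 16665264) (l 16639208)))) (a (l 16605208) (c (a (c (l 16640440) (l 16614288)) (l 16635728)) (a (l 16600640) (a (l 16601320) (l 16611024)))))) (c (a (a (l 16632560) (l 16609616)) (c (l 16625960) (l 16640040))) (a (a (l 16602416) (l 16624120)) (l 16639208)))) (a (a (l 16583616) (l 16601664)) (a (c (a (c (a (l 16606024) (l 16592904)) (l 16616224)) (c (l 16631392) (a (l 16589680) (c (l 16640776) (l 16636312))))) (l 16620144)) (c (a (c (l 16632928) (l 16616648)) (l 16645232)) (a (c (a (l 16595304) (c (l 16640984) (l 16620352))) (l 16634880)) (c (l 16625136) (a (c (a (l 16644032) (l 16623008)) (l 16642936)) (c (l 16648664) (a (l 16645080) (c (l 16649984) (l 16649512)))))))))))))))))))), by decide +kernel⟩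

def k22_pm_102 : ∃ t, chk3 f_pm_102 t 30 36 1 = true :=
  ⟨(c (a (b (b (a (c (b (a (l 15198024) (l 15437848)) (l 15413488)) (a (l 15011712) (l 15280672))) (c (a (b (l 15675056) (l 15760000)) (l 15944232)) (a (l 15541888) (l 15797064)))) (a (c (a (l 15440760) (l 15662344)) (a (l 15255144) (l 15500800))) (c (a (l 15876368) (l 16081688)) (l 15850704)))) (a (b (c (a (l 15617920) (l 15818872)) (a (l 15469584) (l 15690184))) (c (a (l 15771216) (l 15946072)) (l 15747552))) (b (c (l 16094904) (l 15997608)) (l 16048696)))) (b (a (b (c (l 16271928) (l 16167168)) (c (a (l 16273424) (l 16364056)) (l 16220520))) (a (b (c (l 16450928) (l 16478320)) (c (l 16360808) (l 16328192))) (c (b (l 16491376) (l 16377872)) (l 16318800)))) (a (b (a (l 16289816) (c (l 16140128) (l 16126584))) (c (a (l 16065176) (l 16078400)) (a (l 16050176) (l 16044096)))) (a (c (l 16068832) (l 15955296)) (c (b (l 16255648) (l 16123016)) (l 16100608)))))) (a (b (a (b (c (a (c (l 14831160) (b (l 14626776) (l 14787352))) (l 15062744))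 (a (b (c (l 14494680) (l 14353616)) (l 14600288)) (l 14838648))) (c (a (l 15055384) (l 15321872)) (l 14991856))) (c (b (l 15489992) (l 15712768)) (b (l 15314968) (l 15585912)))) (a (c (b (l 15424128) (l 15627104)) (l 15296776)) (c (l 15807736) (l 15920664)))) (b (a (b (l 15951304) (a (l 16063600) (l 16246792))) (a (b (c (l 16416144) (l 16447056)) (l 16250152)) (l 16288496))) (a (b (a (l 16222856) (a (l 16179784) (l 16158248))) (a (l 15966608) (l 16008808))) (b (l 16183072) (l 16051040)))))), by decide +kernel⟩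

def k23_pm_102 : ∃ t, chk3 f_pm_102 t 30 37 1 = true :=
  ⟨(c (a (b (a (c (b (l 15965032) (l 16030584)) (l 15890528)) (a (c (l 15973744) (l 15958576)) (a (l 15752240) (b (l 15990912) (c (l 15809712) (l 15771936)))))) (a (c (l 15575016) (l 15558408)) (a (b (l 15679768) (a (l 15549136) (c (b (l 15577184) (l 15485392)) (l 15434040)))) (c (b (a (l 15577360) (l 15664344)) (l 15460240)) (b (a (l 15623552) (l 15608080)) (l 15470552)))))) (b (a (a (c (b (a (l 15979352) (l 15956968)) (l 15789776)) (b (a (l 15921040) (l 15899936)) (l 15755904))) (c (l 15865264) (l 15816016))) (c (a (b (l 15969120) (l 15844888)) (c (a (l 15961296) (l 15950576)) (l 15949816))) (b (l 15954184) (l 15841064)))) (a (c (b (l 15685560) (c (l 15578496) (l 15549640))) (b (l 15639736) (l 15523856))) (c (a (b (l 15730264) (l 15624320)) (c (a (l 15743224) (c (l 15686736) (l 15777704))) (l 15746696))) (b (l 15737000) (l 15640304)))))) (a (b (a (c (l 15824672) (l 15824848)) (b (l 15982600) (a (l 15839224) (l 15712744)))) (a (l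 15509336) (a (b (l 15647984) (a (l 15476592) (l 15435640))) (b (a (l 15584080) (l 15570920)) (l 15432512))))) (b (a (a (b (a (l 15881640) (l 15863760)) (l 15720280)) (l 15804488)) (b (l 15928896) (l 15815360))) (a (b (l 15606352) (l 15489888)) (b (l 15709360) (l 15610048)))))), by decide +kernel⟩

def k24_pm_102 : ∃ t, chk3 f_pm_102 t 62 36 1 = true :=
  ⟨(c (b (c (c (a (a (a (l 16320864) (c (l 16449528) (l 16430440))) (a (l 16403872) (l 16510232))) (b (l 16567064) (l 16503992))) (a (a (l 16346656) (a (l 16345248) (a (l 16385848) (l 16436968)))) (a (a (l 16403056) (l 16508624)) (l 16436352)))) (a (a (l 16334160) (a (l 16409152) (l 16314120))) (a (c (a (a (l 16391728) (l 16382608)) (c (l 16435144) (l 16431184))) (l 16429816)) (c (a (l 16417976) (l 16546456)) (a (c (l 16423192) (l 16510728)) (c (l 16509704) (l 16433152))))))) (c (a (a (c (a (l 16096184) (c (l 16301056) (l 16280944))) (b (l 16293016) (l 16172984))) (c (a (l 16204872) (l 16345176)) (a (b (l 16327912) (l 16218632)) (c (l 16284640)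 (l 16251520))))) (a (c (l 16330240) (b (l 16308688) (l 16260368))) (b (l 16414176) (l 16273000)))) (a (a (l 16166208) (b (l 16306424) (l 16206344))) (a (c (a (l 16241848) (c (l 16355552) (l 16333280))) (l 16303440)) (c (a (l 16354008) (l 16392240)) (a (c (l 16317528) (l 16341408)) (c (l 16396760) (l 16319528)))))))) (b (a (b (l 16514968) (l 16387272)) (a (l 16444528) (c (l 16451176) (l 16488816)))) (a (b (l 16270264) (l 16162416)) (a (l 16292992) (a (l 16332744) (l 16338880)))))), by decide +kernel⟩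

def k25_pm_102 : ∃ t, chk3 f_pm_102 t 63 36 2 = true :=
  ⟨(b (a (c (b (a (b (l 16611296) (l 16549896)) (c (l 16561280) (l 16570032))) (a (a (l 16506672) (l 16455176)) (l 16457272))) (a (a (c (l 16543808) (l 16494184)) (a (l 16552992) (l 16451608))) (b (l 16552040) (l 16540336)))) (b (a (c (c (l 16599648) (l 16613568)) (l 16612544)) (b (c (a (l 16639344) (a (l 16627664) (l 16640832))) (a (l 16636640) (l 16613384))) (a (c (l 16593576) (l 16612792)) (l 16653816)))) (a (a (c (b (l 16578768) (l 16566896)) (b (l 16575536) (l 16564408))) (b (c (l 16584352) (l 16602968)) (l 16614056))) (l 16556296)))) (a (a (c (b (a (l 16432088) (b (l 16465976) (l 16433368))) (a (b (l 16380432) (l 16357728)) (b (a (l 16399768) (l 16420384)) (l 16405176)))) (b (a (l 16353272) (b (l 16473264) (l 16441608))) (a (c (l 16336512) (a (l 16380784) (l 16378120))) (b (l 16377008) (l 16414184))))) (b (a (b (c (l 16487768) (l 16489976)) (c (l 16467120) (l 16469904))) (b (c (l 16521000) (l 16520208)) (l 16519288))) (c (l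 16493728) (l 16496280)))) (b (a (b (l 16518600) (l 16549088)) (b (l 16551944) (l 16553912))) (c (l 16530152) (l 16508488))))), by decide +kernel⟩

def k26_pm_102 : ∃ t, chk3 f_pm_102 t 126 36 3 = true :=
  ⟨(a (b (b (c (c (a (l 16480808) (c (l 16582888) (l 16510824))) (l 16556584)) (l 16575312)) (c (c (a (l 16424544) (a (l 16503056) (c (l 16539984) (l 16531424)))) (l 16463368)) (l 16460184))) (b (c (c (a (l 16353312) (b (c (l 16485768) (l 16413192)) (c (l 16453776) (l 16443976)))) (b (l 16453896) (l 16420544))) (a (l 16418048) (l 16379408))) (c (a (c (a (l 16356216) (b (l 16394840) (c (l 16380208) (l 16362440)))) (l 16362528)) (c (a (b (c (l 16421432) (l 16402296)) (l 16405216)) (c (l 16444544) (l 16435576))) (b (l 16407016) (l 16402184)))) (a (l 16357528) (b (l 16402592) (l 16397712)))))) (b (a (c (c (a (l 16469688) (l 16574872)) (a (l 16454832) (c (l 16534304) (l 16563072)))) (l 16492944)) (c (c (l 16578912) (c (l 16545096) (a (l 16574280) (l 16546480)))) (l 16572792))) (c (c (b (b (a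 (l 16496432) (l 16527336)) (a (a (l 16472984) (l 16489544)) (l 16525792))) (l 16481000)) (a (b (b (l 16454496) (c (a (l 16459488) (l 16490368)) (l 16466968))) (l 16451280)) (b (b (c (l 16493192) (a (l 16513680) (l 16541968))) (c (l 16533600) (l 16528704))) (c (l 16538536) (l 16533672))))) (b (b (a (l 16484752) (l 16520136)) (l 16450864)) (l 16492040))))), by decide +kernel⟩

def k27_pm_102 : ∃ t, chk3 f_pm_102 t 127 36 3 = true :=
  ⟨(b (b (c (a (a (c (l 16608384) (l 16613528)) (l 16619632)) (a (b (l 16635360) (l 16611496)) (b (l 16612352) (l 16673832)))) (a (c (a (c (l 16553344) (l 16610080)) (c (l 16623704) (a (l 16622312) (l 16607176)))) (l 16614760)) (c (a (b (l 16636960) (a (l 16604936) (l 16639696))) (b (l 16611640) (l 16673416))) (a (c (a (b (l 16637200) (l 16606144)) (b (c (l 16640528) (l 16640712)) (c (l 16620896) (l 16600112)))) (b (l 16636768) (l 16612888))) (c (b (a (l 16625000) (l 16658808)) (l 16653112)) (a (b (c (a (l 16644056) (l 16626432)) (l 16645944)) (l 16617800)) (c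 (l 16631096) (a (l 16603456) (l 16614392))))))))) (c (a (b (a (l 16539176) (a (l 16593832) (l 16609872))) (a (a (c (l 16555120) (l 16540008)) (l 16578608)) (l 16614432))) (l 16597472)) (a (c (a (b (l 16519864) (c (a (l 16541096) (l 16541560)) (l 16566720))) (c (b (a (l 16598120) (l 16614496)) (l 16618496)) (b (a (l 16577888) (c (l 16618592) (l 16595280))) (l 16555848)))) (a (l 16551816) (l 16548072))) (c (a (l 16597976) (l 16625800)) (a (c (c (l 16577736) (l 16598984)) (l 16661024)) (c (l 16603640) (c (a (l 16641392) (l 16628488)) (l 16562128)))))))) (c (a (c (b (l 16544200) (l 16596128)) (a (b (l 16508184) (l 16591160)) (l 16582192))) (b (l 16519272) (l 16558456))) (a (c (a (b (b (l 16515056) (l 16545064)) (l 16550216)) (c (b (l 16601616) (l 16654312)) (b (a (l 16587280) (l 16598320)) (l 16612840)))) (l 16508952)) (c (a (b (l 16574832) (l 16614152)) (l 16530992)) (a (a (l 16579592) (c (c (l 16608568) (l 16562880)) (l 16605928))) (c (l 16508376) (a (c (l 16526896) (l 16589192)) (c (l 16551976)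 (b (l 16543392) (l 16539528)))))))))), by decide +kernel⟩

def k28_pm_102 : ∃ t, chk3 f_pm_102 t 62 37 2 = true :=
  ⟨(a (c (b (a (c (a (c (l 16048760) (l 16014696)) (c (l 16102728) (l 16062448))) (b (l 16064088) (l 15965232))) (c (a (c (l 16135344) (l 16096776)) (l 16131312)) (a (c (l 16083872) (l 16062088)) (c (l 16141592) (l 16113184))))) (a (c (b (c (a (l 15895296) (l 15957968)) (l 15834208)) (b (a (l 15814608) (c (l 15901032) (l 15869104))) (a (c (l 15790416) (l 15765688)) (l 15870480)))) (b (l 15875520) (a (l 15773504) (b (l 15843872) (l 15828368))))) (c (b (a (b (l 16011688) (c (l 15987000) (l 15976344))) (b (l 16055216) (l 16041512))) (l 15995496)) (c (b (a (l 15963712) (b (l 16050280) (l 16036976))) (l 15939088)) (b (a (l 15943072) (l 16017240)) (l 15958008)))))) (b (a (l 15998760) (l 16029016)) (a (b (l 15862336) (b (l 15804240) (l 15779496))) (b (a (l 15932024) (b (l 15997624) (l 15984128))) (l 15937752))))) (c (b (b (a (c (l 16217568) (l 16221184)) (a (b (l 16268512) (l 16241368))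 (b (l 16299272) (l 16291464)))) (a (a (c (l 16133272) (b (l 16151808) (l 16101664))) (b (l 16161136) (l 16171144))) (l 16264008))) (a (c (l 16130624) (a (l 16106152) (l 16177648))) (a (l 16234600) (b (l 16299816) (l 16310304))))) (b (a (b (c (a (l 16177688) (l 16205984)) (l 16179568)) (c (a (b (l 16119048) (l 16005728)) (c (b (l 16190776) (l 16180000)) (l 16100664))) (a (l 16089232) (l 16145552)))) (c (b (a (b (l 16282632) (l 16235056)) (l 16312808)) (l 16276408)) (b (a (c (b (l 16266504) (l 16197784)) (l 16235808)) (b (c (l 16319376) (l 16210344)) (l 16303448))) (a (l 16206720) (l 16306000))))) (a (c (a (l 16073008) (c (l 16177232) (l 16154192))) (l 16096416)) (c (a (l 16249576) (l 16323264)) (a (c (l 16233280) (l 16214696)) (a (l 16295216) (b (l 16334088) (l 16343872))))))))), by decide +kernel⟩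

def k29_pm_102 : ∃ t, chk3 f_pm_102 t 62 37 3 = true :=
  ⟨(a (b (b (l 16062472) (l 15969440)) (b (a (l 15838072) (b (l 15952136) (l 15928840))) (a (b (l 15778416) (l 15753016)) (l 15915216)))) (b (a (b (l 16166368) (b (l 16113456) (l 16092728))) (b (a (l 16225048) (b (l 16280584) (l 16272808))) (l 16238056))) (a (l 16081456) (a (l 16203656) (c (l 16250960) (l 16284952)))))), by decide +kernel⟩

def k30_pm_102 : ∃ t, chk3 f_pm_102 t 63 37 1 = true :=
  ⟨(c (a (a (a (c (b (b (l 16353776) (l 16357512)) (l 16363168)) (b (c (l 16342392) (a (l 16364448) (l 16390920))) (c (l 16371432) (l 16341384)))) (c (l 16418696) (l 16428128))) (c (b (l 16502528) (l 16513528)) (b (l 16505360) (l 16516736)))) (a (c (l 16548688) (l 16547960)) (b (c (l 16514248) (l 16533088)) (c (l 16500016) (l 16518344))))) (a (a (c (a (b (c (a (l 16339784) (c (l 16383136) (l 16365400))) (l 16347160)) (c (a (l 16348064) (l 16391232)) (l 16355672))) (c (c (l 16440280) (l 16367560)) (l 16416656))) (b (a (l 16342016) (l 16406664))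 (l 16380824))) (c (c (b (l 16469320) (l 16501944)) (a (c (l 16426576) (l 16478512)) (c (l 16554104) (l 16486448)))) (l 16465904))) (c (a (c (l 16549304) (a (l 16544328) (l 16622136))) (a (l 16550248) (l 16517064))) (a (c (a (c (l 16526200) (l 16603992)) (c (l 16597408) (a (l 16635528) (l 16576848)))) (l 16572952)) (c (b (l 16485696) (l 16449104)) (a (c (c (a (l 16561864) (l 16567736)) (l 16502728)) (l 16544904)) (c (l 16470784) (a (c (l 16489064) (l 16530288)) (c (l 16493208) (a (l 16502904) (l 16462536))))))))))), by decide +kernel⟩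

def k31_pm_102 : ∃ t, chk3 f_pm_102 t 30 76 1 = true :=
  ⟨(a (c (a (b (c (l 15514032) (l 15454384)) (a (c (l 15257256) (l 15259696)) (c (b (l 15309200) (a (l 15259648) (c (l 15213896) (l 15199136)))) (b (l 15251136) (a (l 15202104) (l 15162832)))))) (b (c (a (a (b (l 15428840) (l 15337664)) (l 15373392)) (l 15396880)) (a (a (l 15266376) (l 15319872)) (l 15349792))) (c (b (a (l 15268064) (l 15307320)) (b (l 15250864) (l 15257144))) (b (l 15240744) (l 15210192))))) (a (b (l 15407552) (b (l 15261336) (a (l 15240544) (a (l 15158848) (l 15119776))))) (b (a (a (l 15287544) (l 15279528)) (l 15311400)) (b (l 15199624) (l 15168880))))) (c (a (c (b (c (l 15464032) (l 15438792)) (b (l 15373424) (c (l 15352840) (l 15333344)))) (b (l 15416504) (b (l 15340648) (l 15313272)))) (c (b (a (c (l 15533720) (l 15516984)) (a (b (l 15616536) (l 15581008)) (c (a (l 15650832) (l 15689008)) (l 15659224)))) (a (b (a (l 15433264) (l 15488016)) (a (c (l 15421392) (l 15408904)) (l 15486736))) (b (l 15605664) (c (l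 15619456) (l 15607088))))) (b (a (l 15500248) (b (l 15624704) (l 15598280))) (a (b (l 15437872) (l 15428584)) (l 15587464))))) (a (b (l 15380464) (b (l 15302552) (l 15274400))) (b (a (l 15466248) (b (l 15594008) (l 15566864))) (a (b (l 15402176) (a (l 15353744) (l 15428760))) (l 15555760)))))), by decide +kernel⟩

def k32_pm_102 : ∃ t, chk3 f_pm_102 t 30 77 1 = true :=
  ⟨(a (a (a (c (b (l 15287304) (c (a (l 15302752) (l 15260880)) (l 15237584))) (l 15211680)) (c (b (a (c (l 15241488) (l 15190376)) (l 15208280)) (l 15240384)) (b (l 15148752) (l 15177624)))) (c (c (b (l 15280832) (l 15314976)) (l 15262416)) (l 15222552))) (a (a (b (c (l 15328456) (l 15274672)) (c (a (l 15354424) (l 15391496)) (l 15325256))) (b (c (a (b (l 15355272) (l 15378624)) (l 15408416)) (l 15341240)) (l 15442472))) (c (a (l 15544800) (c (l 15653480) (l 15696240))) (l 15584216)))), by decide +kernel⟩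

def k33_pm_102 : ∃ t, chk3 f_pm_102 t 30 39 1 = true :=
  ⟨(a (a (b (a (c (b (c (a (l 15280744) (l 15270488)) (l 15238688)) (l 15282640)) (l 15214864)) (c (l 15297520) (l 15241048))) (c (a (b (l 15317776) (b (l 15346904) (l 15377560))) (b (a (l 15343512) (l 15373344)) (l 15435944))) (b (l 15290288) (l 15354328)))) (b (a (b (l 15286816) (c (a (l 15342528) (l 15374584)) (l 15310632))) (b (c (a (l 15345984) (l 15380440)) (l 15315280)) (l 15417248))) (l 15419032))) (a (c (b (l 15544696) (l 15707976)) (l 15544840)) (c (a (l 15661472) (c (c (l 15759832) (l 15939280)) (l 15928376))) (l 15703544)))), by decide +kernel⟩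

def k34_pm_102 : ∃ t, chk3 f_pm_102 t 62 38 1 = true :=
  ⟨(c (a (b (c (a (c (a (b (l 15759488) (b (l 15749248) (l 15758296))) (b (l 15860984) (c (l 15872888) (l 15841568)))) (b (l 15777496) (b (l 15768552) (l 15778096)))) (c (b (l 15967288) (b (l 15984928) (l 15933064))) (a (b (l 15911920) (b (l 15907168) (l 15917928))) (b (l 16012888) (c (l 16029256) (l 16001648)))))) (b (l 15804896) (b (l 15840640) (l 15851152)))) (c (a (c (a (l 15856184) (l 15916296)) (l 15875416)) (c (l 15981536) (a (l 16010712) (l 16070336)))) (l 15862952))) (c (a (b (c (b (l 16130640) (l 16139264)) (b (l 16139464) (a (l 16110200) (l 16191152)))) (c (l 16229968) (l 16176888))) (b (a (l 16145600) (b (l 16295320) (a (l 16312496) (l 16341408)))) (a (a (l 16325472) (l 16338112)) (l 16395160)))) (a (b (c (a (b (l 16069976) (l 16077160)) (c (l 16164408) (l 16162400))) (l 16016864)) (c (a (l 16170992) (l 16229656)) (l 16198920))) (b (a (c (l 16181864) (c (l 16186696) (l 16231136))) (c (b (l 16333144) (l 16341720)) (b (a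 (l 16311064) (l 16348768)) (a (l 16239400) (l 16359760))))) (c (a (a (l 16342280) (l 16381192)) (l 16413280)) (a (a (l 16310552) (l 16257800)) (l 16326280))))))) (a (b (b (l 15821928) (l 15674208)) (l 15924848)) (a (b (l 15981168) (l 16186656)) (a (b (l 16220584) (l 16277872)) (b (c (b (l 16303136) (l 16312008)) (l 16298880)) (l 16361616)))))), by decide +kernel⟩

def k35_pm_102 : ∃ t, chk3 f_pm_102 t 63 38 2 = true :=
  ⟨(a (a (c (b (l 16386264) (l 16448440)) (b (c (l 16413840) (a (l 16399256) (l 16449840))) (a (l 16370768) (l 16505104)))) (b (c (l 16483032) (l 16486624)) (a (l 16486872) (c (l 16532960) (l 16555616))))) (b (a (c (l 16566040) (l 16586888)) (b (l 16451608) (c (a (l 16534432) (b (l 16467176) (l 16467744))) (l 16437176)))) (a (b (c (l 16531216) (l 16550728)) (c (b (l 16554288) (l 16622832)) (l 16571016))) (a (b (b (l 16503832) (l 16550760)) (l 16599248)) (l 16463592))))), by decide +kernel⟩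

def k36_pm_102 : ∃ t, chk3 f_pm_102 t 63 38 3 = true :=
  ⟨(a (c (a (b (c (a (l 16345256) (l 16389016)) (l 16403264)) (c (a (l 16413472) (l 16449912)) (l 16468496))) (c (b (l 16472120) (a (l 16537664) (l 16606312))) (b (c (a (l 16507448) (l 16572336)) (l 16449968)) (a (l 16496648) (c (l 16593960) (a (l 16595648) (l 16584440))))))) (b (l 16337048) (a (l 16465352) (b (l 16539568) (l 16547272))))) (c (b (a (c (l 16606008) (l 16517344)) (a (l 16538136) (l 16425624))) (a (b (a (l 16593504) (l 16556520)) (a (c (l 16635312) (l 16567152)) (l 16619408))) (a (b (l 16495344) (l 16618808)) (l 16481816)))) (a (b (c (a (l 16564464) (c (l 16584280) (l 16520448))) (l 16559544)) (c (a (b (l 16569112) (c (b (l 16549776) (l 16613608)) (l 16610368))) (c (b (l 16530296) (l 16593752)) (b (a (l 16560952) (b (l 16554056) (l 16530912))) (l 16530032)))) (b (l 16521816) (b (l 16545264) (l 16627184))))) (b (c (a (l 16513056) (b (l 16469608) (l 16437400))) (a (c (c (l 16448496) (l 16489792)) (l 16531808)) (a (c (l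 16477744) (c (a (l 16484608) (l 16446816)) (l 16476328))) (c (b (l 16449080) (l 16439296)) (c (b (l 16447928) (b (l 16434616) (l 16438952))) (b (l 16447680) (b (l 16434336) (a (l 16442592) (c (l 16431968) (l 16431832)))))))))) (c (a (b (b (a (l 16524824) (l 16502680)) (l 16543440)) (l 16574080)) (l 16480368)) (a (a (b (b (l 16501752) (l 16521144)) (l 16572280)) (c (c (l 16462808) (a (l 16462520) (l 16459344))) (l 16463224))) (c (l 16457968) (a (c (l 16437776) (l 16479136)) (c (l 16477296) (l 16435376)))))))))), by decide +kernel⟩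

def k37_pm_102 : ∃ t, chk3 f_pm_102 t 62 39 1 = true :=
  ⟨(a (c (c (a (c (a (l 15926736) (l 15959560)) (l 16007824)) (c (a (l 16128832) (b (l 16263104) (l 16384840))) (a (l 16112576) (c (b (l 16260256) (l 16361944)) (l 16128448))))) (b (l 16028600) (l 16013864))) (b (l 16073752) (l 16146872))) (c (c (b (a (a (l 16308184) (l 16273560)) (b (l 16403088) (a (l 16476968) (l 16484280)))) (a (a (b (l 16421464) (c (l 16446432) (l 16456400))) (b (a (l 16470408) (l 16494008)) (l 16444680))) (b (l 16423552) (l 16428512)))) (b (a (c (a (l 16303864) (a (l 16377840) (l 16360664))) (l 16269856)) (a (c (l 16364480) (c (l 16370872) (l 16437328))) (c (l 16505808) (b (l 16484744) (l 16439296))))) (b (a (a (l 16391968) (c (a (l 16468288) (l 16482400)) (l 16457208))) (c (l 16481584) (a (l 16456624) (l 16498928)))) (a (a (l 16400440) (c (l 16426784) (l 16441264))) (c (l 16443816) (l 16434328)))))) (b (a (b (l 16288952) (l 16355504)) (a (l 16389576) (c (l 16459400) (l 16455448)))) (a (a (l 16389336) (b (l 16430392)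 (l 16435120))) (a (l 16406984) (l 16437984)))))), by decide +kernel⟩

def k38_pm_102 : ∃ t, chk3 f_pm_102 t 63 39 1 = true :=
  ⟨(c (a (b (a (c (b (l 16482328) (b (l 16525632) (l 16501200))) (b (a (l 16498088) (l 16555944)) (a (c (l 16526760) (l 16519416)) (l 16522072)))) (b (a (c (l 16542112) (l 16547848)) (l 16545560)) (l 16426520))) (c (l 16372808) (a (l 16357712) (l 16374456)))) (b (b (l 16478264) (c (l 16444024) (l 16440248))) (c (l 16322944) (l 16316920)))) (a (c (b (a (c (a (b (l 16520832) (c (l 16489768) (l 16517536))) (b (c (l 16569936) (l 16518928)) (l 16488248))) (b (l 16526056) (l 16511568))) (c (b (a (l 16559976) (l 16575208)) (l 16495680)) (a (b (b (l 16561376) (l 16549096)) (l 16484776)) (b (l 16496928) (l 16427120))))) (a (c (l 16340088) (l 16410160)) (c (l 16379064) (a (l 16389464) (l 16329024))))) (b (b (a (l 16523824) (b (l 16577080) (l 16553576))) (a (l 16467248) (l 16486584))) (l 16387024))) (a (c (a (b (b (l 16518976) (l 16444848)) (l 16344488)) (l 16198792)) (c (c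 (b (a (l 16432624) (l 16435960)) (a (l 16345704) (l 16323040))) (b (b (l 16469856) (l 16350040)) (l 16267280))) (b (l 16438872) (l 16326472)))) (a (c (l 16244168) (c (b (l 16396976) (l 16299544)) (a (b (l 16400872) (l 16303072)) (c (b (c (l 16457152) (l 16415136)) (l 16292152)) (l 16236344))))) (c (l 16229456) (c (l 16204632) (b (c (l 16402680) (a (l 16340624) (c (l 16419464) (l 16334784)))) (c (l 16277888) (a (l 16279192) (l 16207848)))))))))), by decide +kernel⟩

def k39_pm_102 : ∃ t, chk3 f_pm_102 t 14 20 1 = true :=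
  ⟨(a (b (a (c (b (a (c (b (l 15333488) (l 15436760)) (b (l 15275768) (l 15380528))) (c (b (l 15553728) (l 15627072)) (l 15528960))) (a (c (b (l 15525568) (l 15596304)) (l 15497352)) (l 15681688))) (b (a (a (b (c (l 15147376) (l 15074600)) (l 15220544)) (l 15199480)) (l 15343976)) (c (l 15518296) (l 15468712)))) (c (b (a (l 15719152) (l 15746992)) (l 15568736)) (l 15578816))) (b (c (a (c (l 15737920) (l 15683544)) (l 15675632)) (l 15494472)) (c (a (c (l 15802304) (l 15754040)) (c (l 15634408) (l 15625064))) (a (l 15719920) (l 15596304))))) (b (a (c (b (l 15455200) (c (l 15519808) (l 15484896))) (l 15472544)) (a (b (c (b (l 15379152) (a (l 15385624) (l 15331192))) (l 15319896)) (a (b (l 15339040) (c (a (l 15342816) (l 15357400)) (l 15316800))) (b (a (c (l 15332432) (l 15282472)) (l 15323856)) (l 15382304)))) (b (a (a (b (l 15280832) (a (l 15290120) (l 15306000))) (b (l 15284432) (l 15337040))) (b (a (l 15313760) (l 15353224)) (l 15411440))) (l 15489976)))) (a (b (a (c (l 15511584) (l 15464072))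 (b (a (l 15414888) (c (l 15397488) (l 15350360))) (a (l 15410984) (l 15405408)))) (a (c (b (a (l 15510048) (l 15473240)) (l 15530696)) (b (l 15450880) (l 15489040))) (b (a (l 15442512) (l 15466624)) (a (l 15514440) (l 15560840))))) (a (b (a (c (l 15446288) (l 15400344)) (l 15510088)) (l 15535088)) (b (l 15654248) (l 15734896)))))), by decide +kernel⟩

def k40_pm_102 : ∃ t, chk3 f_pm_102 t 14 21 1 = true :=
  ⟨(a (b (a (c (b (l 15822144) (l 15831368)) (l 15796296)) (b (a (l 15678184) (c (b (l 15566400) (l 15646784)) (l 15595080))) (a (c (b (l 15716000) (l 15754568)) (l 15708912)) (l 15722152)))) (a (b (a (l 15857056) (c (b (l 15814544) (l 15853656)) (l 15815312))) (a (c (b (l 15899920) (l 15940768)) (l 15913584)) (l 15934400))) (a (l 15900640) (b (l 15862632) (l 16010464))))) (a (b (a (b (l 15606976) (c (l 15778040) (l 15743608))) (b (c (l 15698064) (l 15660360)) (l 15866480))) (b (a (l 15923784) (l 16037904)) (a (l 16089864) (c (l 16137576) (l 16114696))))) (b (b (c (a (l 15848032) (l 16002904))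 (l 15894560)) (a (l 15898368) (c (b (l 16088056) (l 16096976)) (l 16060496)))) (b (a (c (l 16080888) (l 16077744)) (l 16043264)) (l 16019152))))), by decide +kernel⟩

def k41_pm_102 : ∃ t, chk3 f_pm_102 t 30 10 1 = true :=
  ⟨(b (a (b (c (a (l 15543904) (l 15682592)) (b (l 15564640) (l 15727760))) (b (c (a (l 15838640) (l 15980344)) (l 15878120)) (a (c (l 15859520) (l 15957184)) (c (b (a (l 16044888) (l 16065968)) (l 16050824)) (l 16016504))))) (b (a (c (b (l 15858888) (l 15934120)) (l 15794136)) (c (b (a (l 16003032) (c (a (l 16111432) (l 16074272)) (l 16132792))) (a (b (l 16098136) (l 16112696)) (a (l 16153768) (l 16174512)))) (b (l 16045808) (a (l 16076048) (l 16140992))))) (a (b (c (a (b (l 16055920) (l 16072456)) (l 16064376)) (l 16028040)) (l 15983944)) (c (b (l 16061296) (c (l 15965808) (l 15951464))) (l 15984192))))) (a (b (b (a (c (b (l 16067296) (l 16073408)) (l 16037584)) (l 15984280)) (l 15955344)) (c (l 15797848) (l 15806192))) (a (b (l 15685584) (l 15609704)) (b (a (l 15764712)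 (c (l 15778760) (l 15743136))) (c (b (l 15592288) (a (l 15479256) (b (l 15490128) (l 15456064)))) (b (l 15549984) (l 15435840))))))), by decide +kernel⟩

def k42_pm_102 : ∃ t, chk3 f_pm_102 t 62 20 1 = true :=
  ⟨(c (a (b (c (a (b (c (a (b (l 16237144) (l 16269184)) (b (l 16259664) (l 16316856))) (b (l 16250248) (l 16261928))) (c (l 16103184) (l 16196296))) (c (b (a (b (l 16379600) (l 16341552)) (l 16378584)) (l 16265080)) (a (b (l 16239344) (l 16226536)) (l 16227608)))) (b (a (l 16241880) (l 16315336)) (l 16201512))) (c (a (c (a (l 15885744) (b (l 16138352) (l 16025544))) (l 16037808)) (a (c (l 16037288) (l 16061656)) (c (b (l 16164992) (l 16038152)) (b (l 16149424) (l 16021368))))) (a (l 16027320) (b (l 16106896) (l 15982392))))) (a (b (c (a (c (l 16215872) (b (l 16389576) (l 16271872))) (l 16112360)) (c (a (b (l 16359432) (l 16240640)) (l 16092168)) (l 16171720))) (c (c (l 15942848) (b (l 16127360) (l 15989336))) (c (b (l 16089680) (l 15971304)) (l 16012176)))) (c (b (l 16195168) (l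 15962200)) (c (b (l 16250040) (l 15992208)) (b (l 16134104) (l 15873648)))))) (b (a (b (a (l 16229080) (l 16304344)) (l 16187400)) (a (b (l 16272144) (l 16203568)) (l 16149984))) (a (b (l 16080336) (l 15958840)) (b (l 16043456) (l 15899152))))), by decide +kernel⟩

def k43_pm_102 : ∃ t, chk3 f_pm_102 t 63 20 1 = true :=
  ⟨(c (a (c (b (b (l 16249528) (l 16106424)) (b (l 15964792) (l 15819608))) (b (a (l 16015832) (l 16150544)) (a (l 15749240) (l 15855432)))) (b (c (l 15902576) (l 16039008)) (b (l 15858112) (a (b (l 15770984) (a (l 15706984) (l 15689400))) (b (a (l 15733208) (l 15715616)) (l 15685816)))))) (a (c (c (a (b (l 16016176) (l 15766488)) (b (l 16152032) (l 15852728))) (a (l 15831424) (b (a (l 16162368) (l 16034952)) (a (l 15862200) (l 15835736))))) (b (l 16116856) (l 15856320))) (c (b (a (l 15928800) (l 16048816)) (b (l 15734160) (a (a (l 15727528) (l 15700944)) (b (l 15699888) (l 15658280))))) (a (b (c (a (l 16064208) (c (l 16082008) (l 16080024))) (l 16084760)) (a (l 15621640)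 (c (b (l 15756736) (b (l 15723984) (a (l 15653848) (l 15648352)))) (l 15652776)))) (b (c (l 16000208) (a (c (l 15902600) (l 16047440)) (c (l 16026128) (a (l 16027352) (l 15911920))))) (c (b (l 15800680) (b (l 15688240) (l 15646032))) (b (a (l 15802704) (c (l 15781184) (l 15776448))) (a (b (l 15683904) (c (l 15636584) (l 15632680))) (c (b (l 15669360) (l 15639296)) (b (a (l 15665232) (l 15637784)) (l 15633888))))))))))), by decide +kernel⟩

def k44_pm_102 : ∃ t, chk3 f_pm_102 t 62 21 1 = true :=
  ⟨(c (a (b (c (a (c (c (l 15827088) (l 15800832)) (l 15781640)) (c (a (l 15661040) (l 15807400)) (a (l 15787656) (l 15788400)))) (a (l 15767480) (l 15751832))) (c (a (b (a (l 15591592) (c (b (l 15650984) (l 15588016)) (l 15576136))) (a (l 15506496) (c (l 15552656) (l 15507680)))) (b (c (b (l 15634032) (l 15593504)) (a (l 15516536) (b (l 15605040) (l 15574032)))) (c (l 15569672) (l 15543520)))) (b (a (l 15562232) (l 15550504)) (l 15491072)))) (c (b (b (c (l 15790568) (l 15787728)) (a (a (l 15691944)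 (l 15660688)) (b (l 15647400) (l 15605824)))) (a (c (l 15575448) (l 15579232)) (l 15569776))) (b (a (c (a (l 15735632) (b (l 15803800) (l 15652272))) (l 15705872)) (b (c (l 15762336) (l 15746416)) (c (b (l 15651560) (l 15609376)) (b (l 15634568) (l 15591976))))) (a (a (l 15534048) (l 15551712)) (c (l 15572808) (l 15555064)))))) (b (a (a (l 15741232) (l 15724768)) (b (l 15734976) (a (l 15603520) (b (l 15593520) (l 15549888))))) (a (b (a (l 15529984) (l 15517544)) (l 15456456)) (l 15505688)))), by decide +kernel⟩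

def k45_pm_102 : ∃ t, chk3 f_pm_102 t 63 21 1 = true :=
  ⟨(c (a (b (b (a (c (l 15633528) (a (l 15703472) (l 15678600))) (b (c (l 15682320) (l 15670296)) (c (l 15620344) (l 15628488)))) (c (l 15616872) (a (l 15604056) (l 15606880)))) (c (l 15578048) (l 15547368))) (b (a (c (l 15648944) (l 15630144)) (l 15655168)) (l 15601408))) (a (c (b (a (b (c (a (l 15693816) (l 15653840)) (l 15662816)) (c (l 15553848) (l 15574168))) (c (b (b (l 15664904) (l 15622496)) (l 15600584)) (b (a (b (l 15666784) (l 15613920)) (b (l 15648168) (l 15617400))) (l 15591968)))) (a (l 15545976) (c (l 15562736) (l 15553768)))) (b (b (a (l 15648512) (l 15555640)) (l 15565000)) (l 15523952))) (c (a (b (a (l 15614808) (l 15616632)) (l 15566576)) (l 15603968)) (a (c (a (b (l 15603576) (l 15552832)) (c (l 15585416) (l 15581096))) (l 15567256)) (c (l 15590984) (a (c (l 15579384) (l 15575216)) (c (l 15587472) (a (l 15578760) (l 15583952))))))))), by decide +kernel⟩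

def k46_pm_102 : ∃ t, chk3 f_pm_102 t 14 11 1 = true :=
  ⟨(b (a (b (a (l 15971272) (b (a (l 16108680) (l 16097280)) (a (l 16249064) (c (l 16254688) (l 16236000))))) (a (b (l 16321152) (a (l 16433184) (l 16373840))) (b (a (c (l 16334088) (l 16318296)) (l 16231176)) (l 16245592)))) (b (a (b (a (c (l 16189368) (l 16168320)) (l 16106064)) (l 16104472)) (l 15889128)) (a (l 16011648) (b (l 15788528) (a (l 15772096) (l 15566416)))))) (a (a (b (b (a (l 16501712) (l 16397280)) (l 16411512)) (l 16335184)) (b (l 16167240) (l 15906672))) (a (b (b (l 15914136) (l 15790072)) (a (l 15852488) (l 15855840))) (b (b (a (c (l 15735920) (l 15697968)) (l 15643320)) (l 15717800)) (l 15801488))))), by decide +kernel⟩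

def k47_pm_102 : ∃ t, chk3 f_pm_102 t 30 11 1 = true :=
  ⟨(b (a (b (a (l 15711712) (a (l 15545424) (b (l 15555720) (l 15469272)))) (a (b (c (l 15603984) (l 15561080)) (l 15553992)) (l 15471376))) (a (b (b (c (a (l 15500384) (l 15440952)) (l 15427984)) (l 15406792)) (l 15392824)) (a (b (l 15383488) (l 15348336)) (a (l 15379728) (c (b (l 15438128) (l 15389048)) (l 15362888)))))) (a (c (l 15639176) (l 15597528)) (a (l 15461200) (b (a (l 15371384) (c (b (l 15374768) (l 15407448)) (l 15351680))) (c (l 15506424) (l 15460928)))))), by decide +kernel⟩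

def k48_pm_102 : ∃ t, chk3 f_pm_102 t 31 22 1 = true :=
  ⟨(a (c (c (a (a (c (a (l 15350080) (l 15484400)) (l 15433088)) (c (l 15501288) (c (l 15483464) (l 15458184)))) (c (l 15494288) (a (l 15497920) (l 15492200)))) (a (b (l 15448984) (l 15395856)) (c (a (l 15475136) (l 15494832)) (a (l 15443216) (l 15476344))))) (b (a (l 15413152) (l 15449400)) (l 15376984))) (c (c (a (b (l 15529544) (l 15482648)) (b (l 15567072) (l 15523928))) (a (c (l 15497872) (l 15492480)) (l 15524488))) (a (c (a (c (l 15478016) (l 15455280)) (c (l 15489776) (l 15480104))) (l 15447568)) (c (a (l 15496592) (l 15514712)) (a (c (a (l 15480976) (l 15485000)) (l 15470480)) (c (l 15500448) (a (l 15480968) (c (l 15497504) (l 15491440))))))))), by decide +kernel⟩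

def k49_pm_102 : ∃ t, chk3 f_pm_102 t 31 23 1 = true :=
  ⟨(a (c (b (c (a (c (a (b (l 15434848) (l 15481728)) (b (l 15460296) (l 15499536))) (a (l 15418688) (b (l 15433072) (l 15472720)))) (a (c (l 15468600) (l 15471352)) (l 15460976))) (a (l 15405096) (c (a (l 15448312) (l 15462424)) (a (l 15416136) (l 15443608))))) (a (c (a (c (a (l 15543784) (l 15565704)) (l 15519264)) (b (l 15513352) (c (l 15589456) (l 15563592)))) (l 15499560)) (c (b (a (c (l 15530808) (l 15534224)) (l 15507856)) (l 15530752)) (a (b (l 15502352) (l 15525784)) (c (l 15513176) (l 15494904)))))) (b (b (l 15361040) (l 15398336)) (a (l 15465408) (b (l 15447416) (l 15465592))))) (c (b (a (b (c (l 15459480) (l 15447424)) (c (b (l 15441872) (b (l 15442424) (l 15447792))) (a (l 15455344) (l 15444424)))) (b (a (c (l 15462320) (l 15461240)) (b (l 15475160) (l 15472000))) (c (l 15445544) (l 15422568)))) (c (l 15454448) (a (l 15460336) (l 15412616)))) (b (a (c (a (b (l 15421856) (l 15352256)) (b (c (l 15440888) (l 15430728)) (c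 (l 15435768) (b (l 15429664) (l 15424768))))) (b (l 15398264) (l 15400688))) (c (b (a (l 15443624) (l 15448904)) (l 15402536)) (a (a (b (l 15422040) (l 15396688)) (b (c (l 15430384) (l 15420168)) (l 15294816))) (c (b (l 15433640) (l 15375560)) (b (a (l 15419520) (c (l 15427008) (l 15420592))) (a (l 15364736) (l 15357592))))))) (a (c (a (l 15453816) (l 15338376)) (l 15411744)) (c (l 15392376) (a (l 15371568) (c (l 15364136) (l 15350584)))))))), by decide +kernel⟩

def k50_pm_102 : ∃ t, chk3 f_pm_102 t 6 3 1 = true :=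
  ⟨(b (b (a (b (a (c (a (a (b (l 15412712) (l 15648688)) (l 15536208)) (l 15511936)) (c (l 61770701431) (l 15561800))) (a (b (l 15709632) (a (b (l 15746672) (l 15825904)) (l 15655592))) (b (c (a (l 15623968) (l 15776376)) (l 15675512)) (l 16155904)))) (a (a (b (l 15709632) (a (l 15772320) (l 15865304))) (b (a (l 15646488) (l 15781424)) (l 16155904))) (a (b (l 16155904) (a (l 16420472) (l 16536648))) (b (a (l 16420472) (l 16536648)) (l 16540528))))) (a (b (a (b (l 16155904) (a (l 16420472) (l 16536648))) (b (a (l 16420472) (l 16494704)) (l 16540528))) (a (l 16476376) (l 16359456))) (b (a (b (l 16540528) (l 16419832)) (a (l 16390216) (l 16299064))) (a (b (l 16296768) (l 16287728)) (b (l 16255520) (l 16429184)))))) (a (b (a (b (a (l 16155904) (l 16464920)) (a (l 16464920) (l 16540528))) (a (l 16476376) (l 16359456))) (a (a (l 16476376) (l 16317512)) (a (b (l 16296768) (l 16287728)) (l 16347608)))) (a (b (a (b (l 16296768) (l 16287728)) (b (l 16287728) (l 16398440))) (l 16527416)) (b (l 16501272)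 (a (l 16546912) (b (l 16720296) (l 16742104))))))) (a (b (a (b (a (b (l 16296768) (l 16287728)) (l 16347608)) (l 16527416)) (b (l 16527416) (b (l 16588856) (l 16755272)))) (b (a (a (l 16693712) (l 16755272)) (l 16777128)) (l 16777160))) (b (b (a (a (l 16525944) (l 16755272)) (l 16759504)) (l 16705272)) (l 16768224)))), by decide +kernel⟩

def k51_pm_102 : ∃ t, chk3 f_pm_102 t 14 3 1 = true :=
  ⟨(b (b (a (b (a (b (l 16204024) (l 16157936)) (b (a (l 16093120) (l 16035200)) (l 16156184))) (l 16337480)) (b (l 15996344) (a (b (l 16181688) (l 16254504)) (b (a (l 16120616) (l 16062080)) (l 16114320))))) (a (b (a (b (l 16509056) (l 16574864)) (b (l 16417048) (l 16441368))) (l 16519408)) (l 16196888))) (a (l 16498496) (b (l 16196936) (l 16196936)))), by decide +kernel⟩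

def k52_pm_102 : ∃ t, chk3 f_pm_102 t 15 6 1 = true :=
  ⟨(a (a (b (b (b (l 15779920) (a (l 15921096) (l 15807376))) (l 15888288)) (b (l 15888384) (c (l 15903792) (l 15873040)))) (b (b (c (b (a (l 15656336) (b (a (l 15580304) (l 15574448)) (l 15591792))) (a (l 15694832) (l 15592112))) (b (a (l 15616568) (l 15538544)) (l 15603352))) (c (a (l 15695040) (l 15592112)) (l 15603512))) (c (a (l 15695040) (l 15592112)) (b (l 15603512) (l 15603512))))) (c (a (b (c (a (b (c (a (l 15605896) (l 15596848)) (l 15575264)) (l 15584616)) (b (l 15531080) (l 15531080))) (a (l 15540376) (c (l 15524160) (l 15505120)))) (c (a (c (l 15598112) (l 15575392)) (l 15531080)) (a (l 15540440) (c (l 15524160) (l 15505120))))) (b (c (l 15433640) (a (l 15460560) (l 15412616))) (c (l 15433640) (a (l 15460560) (l 15412616))))) (a (b (b (l 15424000) (l 15487024)) (c (l 15497680) (l 15475392))) (c (a (b (c (a (l 15462816) (l 15435496)) (l 15432272)) (c (a (l 15462816) (l 15435496)) (l 15432272))) (b (l 15392376) (l 15392376)))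 (a (b (l 15411984) (l 15411984)) (b (a (c (l 15384200) (l 15373864)) (c (l 15364136) (a (l 15353568) (l 15345680)))) (c (a (l 15384200) (l 15364136)) (a (l 15373864) (l 15350584))))))))), by decide +kernel⟩

def k53_pm_102 : ∃ t, chk3 f_pm_102 t 15 7 1 = true :=
  ⟨(a (c (b (a (a (l 15973048) (l 15834968)) (a (l 15695040) (l 15592112))) (a (l 15903792) (a (l 15695040) (l 15592112)))) (b (a (l 15873040) (l 15603512)) (a (l 15873040) (l 15603512)))) (c (a (c (a (b (l 15584616) (l 15584616)) (b (l 15531080) (l 15531080))) (a (l 15540440) (b (l 15470208) (l 15512144)))) (b (c (l 15454616) (a (l 15460560) (l 15412616))) (c (l 15454616) (l 15437296)))) (a (b (l 15487024) (l 15487024)) (c (a (b (c (l 15442488) (l 15432272)) (l 15348184)) (b (l 15392376) (l 15392376))) (a (b (l 15411984) (l 15411984)) (b (a (l 15371568) (c (l 15364136) (l 15350584))) (a (l 15371568) (l 15355864)))))))), by decide +kernel⟩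

theorem s54_pm_102 : ∃ t, chk3 f_pm_102 t 15 3 1 = true := ex3_b k52_pm_102 k53_pm_102

theorem s55_pm_102 : ∃ t, chk3 f_pm_102 t 7 3 1 = true := ex3_a k51_pm_102 s54_pm_102

theorem s56_pm_102 : ∃ t, chk3 f_pm_102 t 3 3 1 = true := ex3_a k50_pm_102 s55_pm_102

theorem s57_pm_102 : ∃ t, chk3 f_pm_102 t 31 11 1 = true := ex3_b k48_pm_102 k49_pm_102

theorem s58_pm_102 : ∃ t, chk3 f_pm_102 t 15 11 1 = true := ex3_a k47_pm_102 s57_pm_102

theorem s59_pm_102 : ∃ t, chk3 f_pm_102 t 7 11 1 = true := ex3_a k46_pm_102 s58_pm_102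

theorem s60_pm_102 : ∃ t, chk3 f_pm_102 t 31 21 1 = true := ex3_a k44_pm_102 k45_pm_102

theorem s61_pm_102 : ∃ t, chk3 f_pm_102 t 31 20 1 = true := ex3_a k42_pm_102 k43_pm_102

theorem s62_pm_102 : ∃ t, chk3 f_pm_102 t 31 10 1 = true := ex3_b s61_pm_102 s60_pm_102

theorem s63_pm_102 : ∃ t, chk3 f_pm_102 t 15 10 1 = true := ex3_a k41_pm_102 s62_pm_102

theorem s64_pm_102 : ∃ t, chk3 f_pm_102 t 14 10 1 = true := ex3_b k39_pm_102 k40_pm_102

theorem s65_pm_102 : ∃ t, chk3 f_pm_102 t 7 10 1 = true := ex3_a s64_pm_102 s63_pm_102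

theorem s66_pm_102 : ∃ t, chk3 f_pm_102 t 7 5 1 = true := ex3_b s65_pm_102 s59_pm_102

theorem s67_pm_102 : ∃ t, chk3 f_pm_102 t 31 39 1 = true := ex3_a k37_pm_102 k38_pm_102

theorem s68_pm_102 : ∃ t, chk3 f_pm_102 t 63 38 1 = true := ex3_c k35_pm_102 k36_pm_102

theorem s69_pm_102 : ∃ t, chk3 f_pm_102 t 31 38 1 = true := ex3_a k34_pm_102 s68_pm_102

theorem s70_pm_102 : ∃ t, chk3 f_pm_102 t 31 19 1 = true := ex3_b s69_pm_102 s67_pm_102

theorem s71_pm_102 : ∃ t, chk3 f_pm_102 t 30 38 1 = true := ex3_b k31_pm_102 k32_pm_102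

theorem s72_pm_102 : ∃ t, chk3 f_pm_102 t 30 19 1 = true := ex3_b s71_pm_102 k33_pm_102

theorem s73_pm_102 : ∃ t, chk3 f_pm_102 t 15 19 1 = true := ex3_a s72_pm_102 s70_pm_102

theorem s74_pm_102 : ∃ t, chk3 f_pm_102 t 62 37 1 = true := ex3_c k28_pm_102 k29_pm_102

theorem s75_pm_102 : ∃ t, chk3 f_pm_102 t 31 37 1 = true := ex3_a s74_pm_102 k30_pm_102

theorem s76_pm_102 : ∃ t, chk3 f_pm_102 t 63 36 3 = true := ex3_a k26_pm_102 k27_pm_102

theorem s77_pm_102 : ∃ t, chk3 f_pm_102 t 63 36 1 = true := ex3_c k25_pm_102 s76_pm_102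

theorem s78_pm_102 : ∃ t, chk3 f_pm_102 t 31 36 1 = true := ex3_a k24_pm_102 s77_pm_102

theorem s79_pm_102 : ∃ t, chk3 f_pm_102 t 31 18 1 = true := ex3_b s78_pm_102 s75_pm_102

theorem s80_pm_102 : ∃ t, chk3 f_pm_102 t 30 18 1 = true := ex3_b k22_pm_102 k23_pm_102

theorem s81_pm_102 : ∃ t, chk3 f_pm_102 t 15 18 1 = true := ex3_a s80_pm_102 s79_pm_102

theorem s82_pm_102 : ∃ t, chk3 f_pm_102 t 15 9 1 = true := ex3_b s81_pm_102 s73_pm_102

theorem s83_pm_102 : ∃ t, chk3 f_pm_102 t 15 8 1 = true := ex3_a k20_pm_102 k21_pm_102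

theorem s84_pm_102 : ∃ t, chk3 f_pm_102 t 15 4 1 = true := ex3_b s83_pm_102 s82_pm_102

theorem s85_pm_102 : ∃ t, chk3 f_pm_102 t 59 18 1 = true := ex3_a k17_pm_102 k18_pm_102

theorem s86_pm_102 : ∃ t, chk3 f_pm_102 t 59 9 1 = true := ex3_b s85_pm_102 k19_pm_102

theorem s87_pm_102 : ∃ t, chk3 f_pm_102 t 59 4 1 = true := ex3_b k16_pm_102 s86_pm_102

theorem s88_pm_102 : ∃ t, chk3 f_pm_102 t 58 9 1 = true := ex3_b k14_pm_102 k15_pm_102

theorem s89_pm_102 : ∃ t, chk3 f_pm_102 t 58 4 1 = true := ex3_b k13_pm_102 s88_pm_102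

theorem s90_pm_102 : ∃ t, chk3 f_pm_102 t 29 4 1 = true := ex3_a s89_pm_102 s87_pm_102

theorem s91_pm_102 : ∃ t, chk3 f_pm_102 t 28 9 1 = true := ex3_a k11_pm_102 k12_pm_102

theorem s92_pm_102 : ∃ t, chk3 f_pm_102 t 28 4 1 = true := ex3_b k10_pm_102 s91_pm_102

theorem s93_pm_102 : ∃ t, chk3 f_pm_102 t 14 4 1 = true := ex3_a s92_pm_102 s90_pm_102

theorem s94_pm_102 : ∃ t, chk3 f_pm_102 t 7 4 1 = true := ex3_a s93_pm_102 s84_pm_102

theorem s95_pm_102 : ∃ t, chk3 f_pm_102 t 7 2 1 = true := ex3_b s94_pm_102 s66_pm_102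

theorem s96_pm_102 : ∃ t, chk3 f_pm_102 t 6 11 1 = true := ex3_b k8_pm_102 k9_pm_102

theorem s97_pm_102 : ∃ t, chk3 f_pm_102 t 13 10 1 = true := ex3_b k6_pm_102 k7_pm_102

theorem s98_pm_102 : ∃ t, chk3 f_pm_102 t 6 10 1 = true := ex3_a k5_pm_102 s97_pm_102

theorem s99_pm_102 : ∃ t, chk3 f_pm_102 t 6 5 1 = true := ex3_b s98_pm_102 s96_pm_102

theorem s100_pm_102 : ∃ t, chk3 f_pm_102 t 6 2 1 = true := ex3_b k4_pm_102 s99_pm_102

theorem s101_pm_102 : ∃ t, chk3 f_pm_102 t 3 2 1 = true := ex3_a s100_pm_102 s95_pm_102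

theorem s102_pm_102 : ∃ t, chk3 f_pm_102 t 3 1 1 = true := ex3_b s101_pm_102 s56_pm_102

theorem s103_pm_102 : ∃ t, chk3 f_pm_102 t 2 7 1 = true := ex3_a k2_pm_102 k3_pm_102

theorem s104_pm_102 : ∃ t, chk3 f_pm_102 t 2 3 1 = true := ex3_b k1_pm_102 s103_pm_102

theorem s105_pm_102 : ∃ t, chk3 f_pm_102 t 2 1 1 = true := ex3_b k0_pm_102 s104_pm_102

theorem s106_pm_102 : ∃ t, chk3 f_pm_102 t 1 1 1 = true := ex3_a s105_pm_102 s102_pm_102

theorem c_pm_102 : CertNX 536870912 536870912 1073741824 536870912 1046898278 26843546 3 false true false .npp 1 0 2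
    ndN0q1 ndN3q2 pcN0 cut_pm_102 Ext.none :=
  certNX1 (fam := false) (s1 := true) (s2 := false) (a := 1) (b := 0) (c := 2) (cn := .npp) (n1 := ndN0q1) (n2 := ndN3q2) (pc := pcN0) (cut := cut_pm_102) (xt := Ext.none) (P1 := 536870912) (W1 := 536870912) (P2 := 1073741824) (W2 := 536870912) (P3 := 1046898278) (W3 := 26843546) (N0 := 3)
    rfl (fun _ => rfl) s106_pm_102

noncomputable def f_pm_112 : ℕ → ℕ → ℕ → ℕ → Bool := onCell 536870912 536870912 1073741824 536870912 1046898278 26843546
    (rowNX 3 0 false true false .dn 1 1 2 (qsf 536870912 536870912 1073741824 536870912 1) ndN0q1 ndN3q2 pcN1 Cut.none Ext.none)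

def k0_pm_112 : ∃ t, chk3 f_pm_112 t 2 1 1 = true :=
  ⟨(b (b (b (a (a (b (c (b (l 15382024) (l 15631264)) (c (l 15479488) (l 15458480))) (c (l 15736560) (l 15673728))) (a (b (l 1) (l 15709632)) (l 1))) (l 1)) (a (b (c (a (l 16166656) (l 16166656)) (a (l 16145160) (l 16145160))) (c (a (l 16544584) (l 16544584)) (a (l 16536416) (l 16536416)))) (b (l 1) (c (l 184716605575) (l 257731044423))))) (b (a (b (c (l 16137240) (l 16183584)) (c (l 16404944) (l 16391880))) (b (c (l 169683472199) (l 118143810535)) (a (l 16398440) (l 16398440)))) (a (b (a (l 16650576) (l 16650576)) (c (l 16777040) (l 16777032))) (b (c (l 16652752) (l 16648384)) (a (l 16777040) (l 16777040)))))) (a (b (a (b (a (b (l 16777112) (l 16707112)) (l 16777152)) (a (b (l 16501944) (a (l 15922296) (l 16296848))) (b (l 16711208) (l 16518448)))) (a (b (l 16777216) (l 16736544)) (l 16777184))) (a (b (a (b (a (l 15541528) (l 15869136)) (l 15102672)) (b (a (l 16049000) (l 16327736)) (a (l 15618904) (l 15930712)))) (a (b (a (l 14563896)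 (l 14854024)) (a (c (l 14042264) (l 14001280)) (l 14309376))) (b (l 15297920) (l 14579632)))) (b (a (b (l 16536376) (a (l 16158344) (l 16361192))) (l 16630576)) (a (b (l 15605056) (l 15395568)) (b (l 16307848) (l 15810200)))))) (b (a (l 16777216) (l 16777216)) (a (b (l 16753120) (a (b (l 16576728) (l 16355560)) (l 16659032))) (b (l 16777216) (a (l 16750760) (l 16777168))))))), by decide +kernel⟩

def k1_pm_112 : ∃ t, chk3 f_pm_112 t 3 1 1 = true :=
  ⟨(b (a (b (l 1) (b (l 1) (b (l 1) (a (l 16777040) (l 1))))) (l 1)) (a (a (b (b (l 16777216) (l 16777216)) (b (l 16777216) (l 16777216))) (b (a (l 16777216) (l 16759560)) (a (l 16777216) (l 16759560)))) (a (b (a (l 16519464) (l 1)) (a (l 16519464) (l 16196936))) (b (l 1) (b (a (a (c (l 15903792) (l 511669436855)) (l 1)) (l 1)) (a (c (a (l 15903792) (a (l 15695040) (l 15592112))) (a (l 15873040) (l 15603512))) (a (c (c (a (l 15584616) (l 15531080)) (l 79487558279)) (l 15487024)) (b (l 1) (c (l 15447504) (a (c (l 15432072) (l 15411984)) (c (l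 15392376) (l 15365632)))))))))))), by decide +kernel⟩

theorem s2_pm_112 : ∃ t, chk3 f_pm_112 t 1 1 1 = true := ex3_a k0_pm_112 k1_pm_112

theorem c_pm_112 : CertNX 536870912 536870912 1073741824 536870912 1046898278 26843546 3 false true false .dn 1 1 2
    ndN0q1 ndN3q2 pcN1 Cut.none Ext.none :=
  certNX0 (fam := false) (s1 := true) (s2 := false) (a := 1) (b := 1) (c := 2) (cn := .dn) (n1 := ndN0q1) (n2 := ndN3q2) (pc := pcN1) (cut := Cut.none) (xt := Ext.none) (P1 := 536870912) (W1 := 536870912) (P2 := 1073741824) (W2 := 536870912) (P3 := 1046898278) (W3 := 26843546) (N0 := 3)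
    rfl s2_pm_112

noncomputable def cut_pm_113 : Cut := Cut.of [[⟨0, 1, 0, 67108864⟩, ⟨1, 1, 0, 67108864⟩, ⟨2, 2, 0, 67108864⟩, ⟨3, 0, 0, 1233125376⟩]]

noncomputable def f_pm_113 : ℕ → ℕ → ℕ → ℕ → Bool := onCell 536870912 536870912 536870912 536870912 1046898278 26843546
    (rowNX 3 1 false true false .nn 1 1 3 (qsf 536870912 536870912 1610612736 536870912 1) ndN0q1 ndN3q3 pcN1 cut_pm_113 Ext.none)

def k0_pm_113 : ∃ t, chk3 f_pm_113 t 1 2 1 = true :=
  ⟨(a (a (l 1) (b (l 1) (a (l 1) (l 16777216)))) (a (b (a (l 1) (l 195991509767)) (a (l 16777216) (l 16768224))) (a (b (a (l 16519464) (b (l 16196936) (c (l 16144088) (l 16186912)))) (a (l 16519464) (b (a (l 16280288) (l 16114464)) (l 16196936)))) (b (a (c (b (a (l 15903792) (l 15627536)) (a (l 15903792) (l 15627536))) (b (a (l 15873040) (l 15603512)) (b (l 15737344) (l 15737344)))) (c (a (c (a (b (l 15584616) (l 15584616)) (l 15531080)) (b (l 15525640) (l 15525640))) (b (c (l 15454616) (l 15437296)) (c (l 15454616) (l 15437296)))) (a (b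 (l 15487024) (l 15487024)) (c (a (b (l 15432072) (l 15432072)) (b (l 15392376) (l 15392376))) (a (l 15411984) (b (a (l 15371568) (l 15355864)) (a (l 15371568) (l 15355864)))))))) (a (c (a (l 15903792) (b (l 15627536) (l 15627536))) (b (l 15737344) (l 15737344))) (c (a (c (a (l 15584616) (l 15531080)) (b (l 15525640) (l 15525640))) (b (l 15447504) (l 15447504))) (a (b (l 15487024) (l 15487024)) (c (a (b (l 15432072) (l 15432072)) (l 15392376)) (a (l 15411984) (b (a (l 15371568) (l 15355864)) (a (l 15371568) (l 15355864)))))))))))), by decide +kernel⟩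

def k1_pm_113 : ∃ t, chk3 f_pm_113 t 2 3 1 = true :=
  ⟨(b (b (a (l 1) (a (l 16728720) (l 16739584))) (a (b (l 1) (a (l 1) (l 16096848))) (a (b (l 16496312) (l 16267792)) (b (l 16557528) (l 16383224))))) (a (b (b (a (l 1) (l 15641872)) (a (l 14994928) (l 15215280))) (b (a (l 14358120) (l 14713080)) (a (c (l 14008760) (l 13878528)) (c (l 14312560) (l 14259408))))) (b (a (b (l 15863344) (l 15470624)) (b (l 16044944) (l 15670872))) (a (b (l 15065296) (a (l 14539928) (l 14724896))) (b (l 15285904) (l 14787136)))))), by decide +kernel⟩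

def k2_pm_113 : ∃ t, chk3 f_pm_113 t 3 6 1 = true :=
  ⟨(a (a (b (l 16746232) (b (l 16595600) (l 16447712))) (b (l 16597176) (a (l 16558280) (l 16443048)))) (a (b (a (l 16501304) (b (l 16196896) (l 16168872))) (a (l 16367488) (b (l 16117536) (b (l 16080024) (l 16004232))))) (a (b (a (l 15877888) (c (l 15557464) (l 15595392))) (a (b (l 15830000) (l 15520168)) (b (a (l 15629496) (l 15532840)) (b (l 15545904) (a (l 15553152) (l 15464984)))))) (b (a (c (a (c (l 15579704) (l 15535184)) (c (l 15527552) (l 15508360))) (l 15482056)) (c (a (l 15464736) (l 15423552)) (a (c (a (l 15451240) (l 15420216)) (l 15409376)) (c (l 15391560) (a (l 15370264) (c (l 15363712) (l 15350144))))))) (a (c (b (a (l 15539760) (c (l 15512176) (l 15491408))) (a (b (l 15527944) (c (l 15509904) (l 15455944))) (c (l 15445168) (b (l 15482296) (l 15422800))))) (b (l 15459008) (l 15358336))) (c (b (a (l 15454992) (l 15420328)) (a (b (l 15449904) (l 15418048)) (b (l 15418632) (l 15390904)))) (a (b (c (l 15271616) (l 15397176))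 (c (b (l 15349200) (a (l 15390976) (l 15284368))) (l 15368352))) (c (b (l 15387848) (b (l 15385736) (l 15352248))) (b (a (l 15364128) (c (l 15361744) (l 15348104))) (a (b (l 15360544) (l 15321704)) (c (l 15342872) (b (l 15346872) (l 15310000))))))))))))), by decide +kernel⟩

def k3_pm_113 : ∃ t, chk3 f_pm_113 t 6 7 1 = true :=
  ⟨(b (a (l 15910040) (a (l 16014944) (l 16046200))) (a (b (l 15406168) (l 15038192)) (a (l 15320992) (l 15252704)))), by decide +kernel⟩

def k4_pm_113 : ∃ t, chk3 f_pm_113 t 7 14 1 = true :=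
  ⟨(a (a (l 15886704) (a (l 15714224) (b (l 15728616) (l 15458408)))) (a (a (b (l 15546648) (l 15294448)) (b (a (l 15365000) (l 15280008)) (a (l 15127056) (c (l 15156248) (l 14944304))))) (a (c (b (a (c (l 15366160) (l 15286584)) (c (l 15330584) (a (l 15286432) (l 15276888)))) (a (c (b (l 15249120) (a (l 15202648) (l 15208808))) (l 15092672)) (c (b (l 15222728) (l 15192504)) (b (a (l 15137560) (l 15132376)) (a (l 15070712) (l 15137200)))))) (b (l 15189560) (b (l 14983704) (l 14864128)))) (c (b (a (c (l 15289360) (l 15244328)) (b (l 15291392) (l 15200992))) (a (b (a (l 15158472) (l 15148440)) (c (l 15181352) (l 15105600))) (b (l 15148880) (b (l 15132576) (l 15131368))))) (b (a (c (a (l 15199200) (c (l 15199000) (l 15172112))) (l 15128296)) (c (a (l 15167952) (l 15158112)) (a (c (l 15125296) (l 15098528)) (c (l 15118136) (a (l 15087552) (c (l 15094904) (l 15080200))))))) (a (c (a (b (l 15021528) (l 14938152)) (c (l 15004384) (b (l 14993192) (l 14907488)))) (l 14859968)) (c (b (l 15012776)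 (a (l 14937640) (l 14941840))) (a (c (a (l 14894256) (c (l 14908968) (l 14881928))) (l 14835528)) (c (b (l 14945392) (l 14846096)) (c (a (l 14853512) (l 14852344)) (b (l 14884912) (l 14762424)))))))))))), by decide +kernel⟩

def k5_pm_113 : ∃ t, chk3 f_pm_113 t 7 30 1 = true :=
  ⟨(a (a (l 15414808) (b (l 15306280) (a (l 15214888) (b (l 15155544) (l 15090952))))) (b (a (a (l 15104368) (a (l 14954224) (c (l 15053400) (l 14729792)))) (a (c (a (c (a (l 15167528) (l 15183760)) (l 14981056)) (c (l 15184288) (a (l 15007080) (c (l 15067608) (l 14969392))))) (l 14720248)) (a (c (c (b (l 15190880) (l 15212392)) (a (l 15014776) (l 15018128))) (c (a (c (l 14879920) (l 14773824)) (c (l 14880984) (a (l 14785968) (l 14789224)))) (l 14629912))) (a (c (b (l 15125056) (l 15346864)) (c (a (l 14832976) (l 14832592)) (c (a (l 14686336) (c (l 14710728) (l 14660424))) (l 14580368)))) (b (c (c (l 15228056) (l 15051464)) (c (l 14872664) (c (l 14739136) (a (l 14645264) (c (l 14671800) (l 14625392)))))) (l 6))))))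 (b (a (a (l 15000688) (a (l 14858552) (l 14804824))) (a (c (a (c (a (l 15156736) (l 15186280)) (l 14928152)) (c (a (l 15201272) (l 15225688)) (a (l 14967712) (c (l 15056152) (l 14925032))))) (l 14592152)) (a (a (a (a (c (l 15116968) (l 14597056)) (l 6)) (l 6)) (l 6)) (l 6)))) (a (a (c (l 15098808) (l 14780376)) (c (a (l 15015024) (l 15002888)) (l 14567256))) (a (c (a (c (c (a (l 15252936) (l 15304424)) (l 15135736)) (l 14925304)) (a (a (c (l 15263528) (l 14964360)) (l 6)) (l 6))) (l 14531024)) (l 6)))))), by decide +kernel⟩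

def k6_pm_113 : ∃ t, chk3 f_pm_113 t 7 31 1 = true :=
  ⟨(a (a (l 15104600) (a (l 15000440) (b (c (b (c (b (l 15223176) (l 15198704)) (l 15089048)) (c (l 15158792) (c (l 15061704) (l 14995592)))) (l 14867752)) (c (b (l 15033960) (l 14975456)) (b (c (b (l 14838064) (c (l 14835040) (l 14760632))) (l 14671320)) (c (l 14738016) (b (l 14598896) (c (l 14593216) (l 14510352))))))))) (b (a (c (c (b (a (c (l 15207848) (l 15118072)) (a (c (l 15202896) (l 15084648)) (c (b (l 15380560) (l 15275504)) (b (l 15092064) (l 15128888))))) (a (l 15144272) (a (l 15175192) (c (l 15338360) (l 15182176))))) (b (a (l 14982240) (l 14901936)) (a (b (l 14959064) (c (l 14994168) (l 14891712))) (a (b (l 14911576) (a (l 14916976) (l 14919568))) (b (l 14936072) (l 6)))))) (a (l 14685344) (a (l 14531776) (l 14479904)))) (b (b (b (a (a (c (c (c (a (l 15307000) (l 6)) (l 15180168)) (l 14950408)) (l 14512952)) (l 6)) (l 6)) (l 6)) (l 6)) (l 6))) (a (a (c (b (c (l 15131544) (l 14915376)) (l 15013760)) (b (c (b (l 14709336)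 (c (l 14738544) (l 14624856))) (l 14471632)) (c (l 14644344) (b (c (l 14473256) (l 14351848)) (c (l 14440456) (b (l 14320056) (l 14301304))))))) (a (b (b (c (l 15068760) (l 14478848)) (l 6)) (l 6)) (l 6))) (l 6)))), by decide +kernel⟩

theorem s7_pm_113 : ∃ t, chk3 f_pm_113 t 7 15 1 = true := ex3_b k5_pm_113 k6_pm_113

theorem s8_pm_113 : ∃ t, chk3 f_pm_113 t 7 7 1 = true := ex3_b k4_pm_113 s7_pm_113

theorem s9_pm_113 : ∃ t, chk3 f_pm_113 t 3 7 1 = true := ex3_a k3_pm_113 s8_pm_113

theorem s10_pm_113 : ∃ t, chk3 f_pm_113 t 3 3 1 = true := ex3_b k2_pm_113 s9_pm_113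

theorem s11_pm_113 : ∃ t, chk3 f_pm_113 t 1 3 1 = true := ex3_a k1_pm_113 s10_pm_113

theorem s12_pm_113 : ∃ t, chk3 f_pm_113 t 1 1 1 = true := ex3_b k0_pm_113 s11_pm_113

theorem c_pm_113 : CertNX 536870912 536870912 1610612736 536870912 1046898278 26843546 3 false true false .nn 1 1 3
    ndN0q1 ndN3q3 pcN1 cut_pm_113 Ext.none :=
  certNX1 (fam := false) (s1 := true) (s2 := false) (a := 1) (b := 1) (c := 3) (cn := .nn) (n1 := ndN0q1) (n2 := ndN3q3) (pc := pcN1) (cut := cut_pm_113) (xt := Ext.none) (P1 := 536870912) (W1 := 536870912) (P2 := 1610612736) (W2 := 536870912) (P3 := 1046898278) (W3 := 26843546) (N0 := 3)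
    rfl (fun _ => rfl) s12_pm_113

noncomputable def cut_pm_123 : Cut := Cut.of [[⟨0, 1, 0, 67108864⟩, ⟨1, 1, 0, 67108864⟩, ⟨2, 2, 0, 67108864⟩, ⟨3, 0, 0, 1233125376⟩]]

noncomputable def f_pm_123 : ℕ → ℕ → ℕ → ℕ → Bool := onCell 1073741824 536870912 1610612736 536870912 1046898278 26843546
    (rowNX 3 2 false true false .npn 1 2 3 (qsf 536870912 536870912 1610612736 536870912 2) ndN0q1 ndN3q3 pcN2 cut_pm_123 Ext.none)

def k0_pm_123 : ∃ t, chk3 f_pm_123 t 4 2 1 = true :=
  ⟨(a (b (c (a (l 13897208) (c (l 14069712) (a (l 13983440) (l 14007912)))) (a (b (c (l 13686264) (a (l 13592536) (l 13674048))) (c (l 13956576) (l 13756680))) (b (l 13819752) (l 14066296)))) (b (c (a (l 14331496) (c (l 14455600) (l 14412264))) (a (c (l 14268816) (l 14223368)) (l 14351480))) (a (b (c (l 14572824) (a (l 14468736) (l 14527080))) (l 14662976)) (c (b (l 14668920) (l 14783928)) (b (l 14595624) (l 14714104)))))) (b (a (c (b (a (l 14055288) (l 1)) (a (l 14271408) (l 14297936))) (b (l 13953456) (l 14172488)))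 (b (l 1) (l 14227880))) (a (b (c (a (l 14521704) (l 14521336)) (l 14426280)) (a (b (l 14691600) (l 14849360)) (l 14513456))) (b (l 14382984) (l 14562144))))), by decide +kernel⟩

def k1_pm_123 : ∃ t, chk3 f_pm_123 t 8 3 1 = true :=
  ⟨(b (b (a (l 14848728) (l 14857344)) (a (b (l 15050832) (l 15195072)) (l 14988384))) (b (a (b (a (l 15321856) (l 15248504)) (a (l 15320104) (l 15270504))) (b (l 15073504) (a (l 15174256) (l 15053776)))) (b (b (a (b (a (a (a (c (l 15585640) (a (l 15168800) (l 15198032))) (l 15401064)) (l 15402936)) (l 15364528)) (a (c (a (a (l 15646384) (l 15651552)) (a (l 15651208) (l 15640248))) (a (c (l 15298288) (a (l 15004784) (l 15121408))) (c (l 15390352) (l 15221472)))) (a (c (l 15605000) (l 15334216)) (l 15429928)))) (l 15220728)) (a (a (a (b (c (l 15698448) (c (l 15254128) (a (l 14866616) (l 15033112)))) (l 6)) (c (c (l 16065360) (a (l 15634616) (l 15662856))) (c (l 15420168) (l 15193608)))) (c (a (c (l 15851448) (l 15676480)) (b (l 15666152) (l 15799272))) (a (c (l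 15503512) (l 15337232)) (b (l 15407120) (l 15502064))))) (a (b (l 15439056) (c (c (l 15739472) (l 15618352)) (l 15445384))) (l 15315336)))) (b (a (a (l 6) (b (c (a (l 15989008) (l 15968080)) (a (l 15559440) (l 15630504))) (a (l 6) (c (l 16178608) (l 15831688))))) (a (c (a (c (l 16073232) (l 15934760)) (c (l 15958616) (l 15844000))) (a (l 15721208) (l 15575544))) (c (a (c (l 15819752) (l 15723240)) (b (l 15543472) (l 15729304))) (a (l 15559392) (b (l 15349992) (l 15538304)))))) (a (l 6) (a (a (b (c (l 16335264) (l 16133904)) (l 6)) (c (c (l 16437832) (l 16339168)) (b (l 16061464) (l 16355472)))) (c (c (a (b (l 16185768) (l 16377192)) (b (l 15993216) (l 16176296))) (b (l 16021984) (l 16079600))) (a (b (l 15944088) (l 16231408)) (b (l 15805248) (l 16101432)))))))))), by decide +kernel⟩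

def k2_pm_123 : ∃ t, chk3 f_pm_123 t 9 3 1 = true :=
  ⟨(b (a (b (a (l 14917008) (l 14892968)) (l 14919680)) (b (b (l 14698520) (l 14719776)) (l 14700088))) (b (a (b (l 14924928) (l 14834432)) (l 14607592)) (b (a (a (l 15034128) (l 14850312)) (l 14592672)) (b (a (a (b (l 15264680) (c (a (l 15562936) (b (l 15351296) (l 15430160))) (a (l 15390928) (l 15245344)))) (l 15053968)) (l 14680280)) (b (a (a (c (a (l 15804736) (l 15601064)) (a (l 15658144) (l 15478520))) (a (c (b (l 15338096) (l 15438024)) (b (l 15215760) (l 15346688))) (b (l 15109648) (c (l 15219824) (l 15134664))))) (a (a (l 14984984) (l 14832432)) (l 14614752))) (a (a (c (a (l 16003168) (l 15841560)) (a (l 15966240) (l 15807664))) (c (a (l 15646248) (l 15263776)) (a (l 15609248) (l 15261568)))) (a (a (c (b (a (l 15152528) (l 15051664)) (l 15245712)) (b (a (l 15091232) (l 14988496)) (l 15193936))) (c (b (l 14926608) (l 14994152)) (b (l 14860224) (l 14933648)))) (a (c (l 14798920) (l 14729408)) (l 14604112))))))))), by decide +kernel⟩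

def k3_pm_123 : ∃ t, chk3 f_pm_123 t 5 1 1 = true :=
  ⟨(b (b (a (a (a (b (l 1) (l 14393232)) (l 1)) (l 1)) (l 1)) (a (a (a (b (l 14441712) (l 14497760)) (l 14655216)) (b (l 15252880) (l 15335136))) (a (b (l 15807392) (l 15969352)) (b (l 1) (l 16293744))))) (a (b (a (a (b (l 14551608) (l 14531032)) (b (l 14771136) (l 14755840))) (b (l 15179656) (l 15468280))) (a (a (b (l 14442032) (b (l 14385648) (l 14419728))) (b (l 14667640) (b (l 14611056) (l 14635840)))) (b (l 15402192) (b (l 15357152) (l 15310824))))) (b (a (b (l 16093888) (b (l 16307112) (l 16339552))) (b (l 16490616) (b (l 16656416) (l 16750280)))) (a (b (l 16147376) (a (l 15808096) (l 16292256))) (b (l 16729016) (b (l 16694400) (l 16762960))))))), by decide +kernel⟩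

def k4_pm_123 : ∃ t, chk3 f_pm_123 t 3 1 1 = true :=
  ⟨(b (a (a (b (l 1) (a (l 163240987527) (l 1))) (l 1)) (l 1)) (a (b (a (b (l 16586800) (a (l 16688000) (l 16708136))) (c (l 16770432) (l 16770192))) (a (b (b (l 16761696) (l 16697744)) (l 16685896)) (b (b (l 16771664) (l 16701944)) (b (l 16695072) (l 16763544))))) (b (a (c (l 16777168) (l 16777168)) (l 1)) (a (b (l 16729592) (l 16811720)) (b (l 16729592) (l 16685896)))))), by decide +kernel⟩

theorem s5_pm_123 : ∃ t, chk3 f_pm_123 t 4 3 1 = true := ex3_a k1_pm_123 k2_pm_123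

theorem s6_pm_123 : ∃ t, chk3 f_pm_123 t 4 1 1 = true := ex3_b k0_pm_123 s5_pm_123

theorem s7_pm_123 : ∃ t, chk3 f_pm_123 t 2 1 1 = true := ex3_a s6_pm_123 k3_pm_123

theorem s8_pm_123 : ∃ t, chk3 f_pm_123 t 1 1 1 = true := ex3_a s7_pm_123 k4_pm_123

theorem c_pm_123 : CertNX 536870912 536870912 1610612736 536870912 1046898278 26843546 3 false true false .npn 1 2 3
    ndN0q1 ndN3q3 pcN2 cut_pm_123 Ext.none :=
  certNX2 (fam := false) (s1 := true) (s2 := false) (a := 1) (b := 2) (c := 3) (cn := .npn) (n1 := ndN0q1) (n2 := ndN3q3) (pc := pcN2) (cut := cut_pm_123) (xt := Ext.none) (P1 := 536870912) (W1 := 536870912) (P2 := 1610612736) (W2 := 536870912) (P3 := 1046898278) (W3 := 26843546) (N0 := 3)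
    rfl (fun _ => rfl) s8_pm_123

noncomputable def f_pm_133 : ℕ → ℕ → ℕ → ℕ → Bool := onCell 536870912 536870912 1610612736 536870912 1046898278 26843546
    (rowNX 3 0 false true false .dn 1 3 3 (qsf 536870912 536870912 1610612736 536870912 3) ndN0q1 ndN3q3 pcN3 Cut.none Ext.none)

def k0_pm_133 : ∃ t, chk3 f_pm_133 t 1 1 1 = true :=
  ⟨(a (b (l 1) (b (l 1) (a (a (b (l 1) (l 16680000)) (l 1)) (l 1)))) (l 1)), by decide +kernel⟩

theorem c_pm_133 : CertNX 536870912 536870912 1610612736 536870912 1046898278 26843546 3 false true false .dn 1 3 3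
    ndN0q1 ndN3q3 pcN3 Cut.none Ext.none :=
  certNX0 (fam := false) (s1 := true) (s2 := false) (a := 1) (b := 3) (c := 3) (cn := .dn) (n1 := ndN0q1) (n2 := ndN3q3) (pc := pcN3) (cut := Cut.none) (xt := Ext.none) (P1 := 536870912) (W1 := 536870912) (P2 := 1610612736) (W2 := 536870912) (P3 := 1046898278) (W3 := 26843546) (N0 := 3)
    rfl k0_pm_133

noncomputable def cut_pm_202 : Cut := Cut.of [[⟨0, 1, 0, 67108864⟩, ⟨1, 0, 0, 67108864⟩, ⟨2, 1, 0, 67108864⟩, ⟨3, 0, 0, 1317011456⟩]]

noncomputable def f_pm_202 : ℕ → ℕ → ℕ → ℕ → Bool := onCell 0 536870912 1073741824 536870912 1046898278 26843546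
    (rowNX 3 0 false true false .pp 2 0 2 (qsf 0 536870912 1073741824 536870912 0) ndN0q2 ndN3q2 pcN0 cut_pm_202 Ext.none)

def k0_pm_202 : ∃ t, chk3 f_pm_202 t 1 1 1 = true :=
  ⟨(a (l 3) (a (l 3) (a (l 3) (b (a (l 3) (a (l 3) (a (b (l 3) (l 3)) (a (b (l 3) (l 3)) (a (b (b (l 3) (l 3)) (b (l 3) (l 3))) (a (b (b (l 3) (l 3)) (b (l 3) (l 3))) (a (b (b (b (l 3) (l 3)) (l 3)) (b (l 3) (l 3))) (b (b (b (l 6) (b (l 6) (b (l 6) (b (l 6) (c (b (l 6) (b (l 6) (c (l 16651688) (l 16656616)))) (c (l 16658448) (l 16636320))))))) (a (b (l 3) (l 3)) (a (b (l 3) (l 3)) (b (b (c (b (l 16545816) (l 16540456)) (b (b (l 16641928) (l 16591464)) (c (l 16536120) (l 16533192)))) (c (l 16483848) (c (l 16478248) (l 16474456)))) (b (c (b (b (l 16440528) (l 137069100327)) (l 16480576)) (b (c (l 16430184) (b (l 16429512) (b (l 16416288) (l 16427528)))) (l 16455816))) (c (b (l 16427008) (l 16287304)) (c (l 16265072) (l 16154856)))))))) (b (b (a (l 3) (c (b (l 16046176) (b (l 15811392) (l 15700280))) (b (l 15960232)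 (b (l 15779296) (l 15663848))))) (c (l 15645104) (l 118813699175))) (b (c (c (l 15570944) (l 15550376)) (l 15518792)) (c (b (b (l 15489480) (l 15422312)) (l 15409464)) (b (l 15409528) (l 15361192))))))))))))) (a (l 3) (a (l 3) (a (b (l 3) (l 3)) (a (b (l 3) (l 3)) (b (c (b (l 15418760) (l 15418760)) (c (b (l 15383080) (l 15383080)) (c (l 15365432) (b (l 132234993351) (l 15353448))))) (c (b (l 15418760) (l 15418760)) (c (l 15383080) (b (l 15357680) (l 15357680))))))))))))), by decide +kernel⟩

theorem c_pm_202 : CertNX 0 536870912 1073741824 536870912 1046898278 26843546 3 false true false .pp 2 0 2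
    ndN0q2 ndN3q2 pcN0 cut_pm_202 Ext.none :=
  certNX0 (fam := false) (s1 := true) (s2 := false) (a := 2) (b := 0) (c := 2) (cn := .pp) (n1 := ndN0q2) (n2 := ndN3q2) (pc := pcN0) (cut := cut_pm_202) (xt := Ext.none) (P1 := 0) (W1 := 536870912) (P2 := 1073741824) (W2 := 536870912) (P3 := 1046898278) (W3 := 26843546) (N0 := 3)
    rfl k0_pm_202

noncomputable def f_pm_203 : ℕ → ℕ → ℕ → ℕ → Bool := onCell 0 536870912 1610612736 536870912 1046898278 26843546
    (rowNX 3 0 false true false .up 2 0 3 (qsf 0 536870912 1610612736 536870912 0) ndN0q2 ndN3q3 pcN0 Cut.none Ext.none)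

def k0_pm_203 : ∃ t, chk3 f_pm_203 t 1 1 1 = true :=
  ⟨(a (l 3) (a (l 3) (b (a (l 3) (b (b (a (l 3) (a (l 3) (a (l 3) (c (l 15429304) (c (l 15394848) (l 177332036151)))))) (l 2)) (l 2))) (l 2)))), by decide +kernel⟩

theorem c_pm_203 : CertNX 0 536870912 1610612736 536870912 1046898278 26843546 3 false true false .up 2 0 3
    ndN0q2 ndN3q3 pcN0 Cut.none Ext.none :=
  certNX0 (fam := false) (s1 := true) (s2 := false) (a := 2) (b := 0) (c := 3) (cn := .up) (n1 := ndN0q2) (n2 := ndN3q3) (pc := pcN0) (cut := Cut.none) (xt := Ext.none) (P1 := 0) (W1 := 536870912) (P2 := 1610612736) (W2 := 536870912) (P3 := 1046898278) (W3 := 26843546) (N0 := 3)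
    rfl k0_pm_203

noncomputable def cut_pm_213 : Cut := Cut.of [[⟨0, 1, 0, 67108864⟩, ⟨1, 1, 0, 67108864⟩, ⟨2, 2, 0, 67108864⟩, ⟨3, 0, 0, 1233125376⟩]]

noncomputable def f_pm_213 : ℕ → ℕ → ℕ → ℕ → Bool := onCell 0 536870912 1610612736 536870912 1046898278 26843546
    (rowNX 3 0 false true false .pnn 2 1 3 (qsf 0 536870912 1610612736 536870912 1) ndN0q2 ndN3q3 pcN1 cut_pm_213 Ext.none)

def k0_pm_213 : ∃ t, chk3 f_pm_213 t 1 1 1 = true :=
  ⟨(a (l 3) (a (l 3) (b (a (l 3) (a (l 3) (a (l 3) (a (b (l 3) (l 3)) (b (c (b (l 15429304) (l 15429304)) (c (l 15394848) (b (l 177868907063) (l 195048776247)))) (c (l 15429304) (c (l 15394848) (b (l 15329312) (l 229945385527))))))))) (a (l 3) (a (l 3) (a (b (l 3) (l 3)) (a (b (l 3) (l 3)) (a (b (l 3) (b (l 3) (l 3))) (a (b (b (l 3) (l 3)) (b (l 3) (l 3))) (b (b (c (l 15413456) (l 15364752)) (b (c (l 15413504) (l 15364816)) (c (l 15400912) (b (l 15364832) (l 278800613015))))) (b (b (c (l 15249160) (c (l 15168848) (c (l 15128160) (l 15100232)))) (c (b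 (l 15169168) (l 15156544)) (c (l 14997640) (b (l 14944752) (c (l 14874464) (l 14810288)))))) (b (b (a (l 3) (a (l 3) (b (c (l 15151984) (l 14793752)) (l 6)))) (l 6)) (l 6))))))))))))), by decide +kernel⟩

theorem c_pm_213 : CertNX 0 536870912 1610612736 536870912 1046898278 26843546 3 false true false .pnn 2 1 3
    ndN0q2 ndN3q3 pcN1 cut_pm_213 Ext.none :=
  certNX0 (fam := false) (s1 := true) (s2 := false) (a := 2) (b := 1) (c := 3) (cn := .pnn) (n1 := ndN0q2) (n2 := ndN3q3) (pc := pcN1) (cut := cut_pm_213) (xt := Ext.none) (P1 := 0) (W1 := 536870912) (P2 := 1610612736) (W2 := 536870912) (P3 := 1046898278) (W3 := 26843546) (N0 := 3)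
    rfl k0_pm_213

noncomputable def f_mm_001 : ℕ → ℕ → ℕ → ℕ → Bool := onCell 0 536870912 0 536870912 1046898278 26843546
    (rowNX 3 1 false false false .up 0 0 1 (qsf 0 536870912 536870912 536870912 0) ndN0q0 ndN3q1 pcN0 Cut.none Ext.none)

def k0_mm_001 : ∃ t, chk3 f_mm_001 t 1 1 1 = true :=
  ⟨(l 3), by decide +kernel⟩

theorem c_mm_001 : CertNX 0 536870912 536870912 536870912 1046898278 26843546 3 false false false .up 0 0 1
    ndN0q0 ndN3q1 pcN0 Cut.none Ext.none :=
  certNX1 (fam := false) (s1 := false) (s2 := false) (a := 0) (b := 0) (c := 1) (cn := .up) (n1 := ndN0q0) (n2 := ndN3q1) (pc := pcN0) (cut := Cut.none) (xt := Ext.none) (P1 := 0) (W1 := 536870912) (P2 := 536870912) (W2 := 536870912) (P3 := 1046898278) (W3 := 26843546) (N0 := 3)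
    rfl (fun _ => rfl) k0_mm_001

noncomputable def f_mm_011 : ℕ → ℕ → ℕ → ℕ → Bool := onCell 0 536870912 536870912 536870912 1046898278 26843546
    (rowNX 3 1 false false false .pnn 0 1 1 (qsf 0 536870912 536870912 536870912 1) ndN0q0 ndN3q1 pcN1 Cut.none Ext.none)

def k0_mm_011 : ∃ t, chk3 f_mm_011 t 1 1 1 = true :=
  ⟨(l 5), by decide +kernel⟩

theorem c_mm_011 : CertNX 0 536870912 536870912 536870912 1046898278 26843546 3 false false false .pnn 0 1 1
    ndN0q0 ndN3q1 pcN1 Cut.none Ext.none :=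
  certNX1 (fam := false) (s1 := false) (s2 := false) (a := 0) (b := 1) (c := 1) (cn := .pnn) (n1 := ndN0q0) (n2 := ndN3q1) (pc := pcN1) (cut := Cut.none) (xt := Ext.none) (P1 := 0) (W1 := 536870912) (P2 := 536870912) (W2 := 536870912) (P3 := 1046898278) (W3 := 26843546) (N0 := 3)
    rfl (fun _ => rfl) k0_mm_011

noncomputable def f_mm_012 : ℕ → ℕ → ℕ → ℕ → Bool := onCell 0 536870912 1073741824 536870912 1046898278 26843546
    (rowNX 3 0 false false false .pnp 0 1 2 (qsf 0 536870912 1073741824 536870912 1) ndN0q0 ndN3q2 pcN1 Cut.none Ext.none)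

def k0_mm_012 : ∃ t, chk3 f_mm_012 t 1 1 1 = true :=
  ⟨(l 5), by decide +kernel⟩

theorem c_mm_012 : CertNX 0 536870912 1073741824 536870912 1046898278 26843546 3 false false false .pnp 0 1 2
    ndN0q0 ndN3q2 pcN1 Cut.none Ext.none :=
  certNX0 (fam := false) (s1 := false) (s2 := false) (a := 0) (b := 1) (c := 2) (cn := .pnp) (n1 := ndN0q0) (n2 := ndN3q2) (pc := pcN1) (cut := Cut.none) (xt := Ext.none) (P1 := 0) (W1 := 536870912) (P2 := 1073741824) (W2 := 536870912) (P3 := 1046898278) (W3 := 26843546) (N0 := 3)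
    rfl k0_mm_012

noncomputable def f_mm_022 : ℕ → ℕ → ℕ → ℕ → Bool := onCell 0 536870912 1073741824 536870912 1046898278 26843546
    (rowNX 3 0 false false false .pp 0 2 2 (qsf 0 536870912 1073741824 536870912 2) ndN0q0 ndN3q2 pcN2 Cut.none Ext.none)

def k0_mm_022 : ∃ t, chk3 f_mm_022 t 1 1 1 = true :=
  ⟨(l 5), by decide +kernel⟩

theorem c_mm_022 : CertNX 0 536870912 1073741824 536870912 1046898278 26843546 3 false false false .pp 0 2 2
    ndN0q0 ndN3q2 pcN2 Cut.none Ext.none :=
  certNX0 (fam := false) (s1 := false) (s2 := false) (a := 0) (b := 2) (c := 2) (cn := .pp) (n1 := ndN0q0) (n2 := ndN3q2) (pc := pcN2) (cut := Cut.none) (xt := Ext.none) (P1 := 0) (W1 := 536870912) (P2 := 1073741824) (W2 := 536870912) (P3 := 1046898278) (W3 := 26843546) (N0 := 3)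
    rfl k0_mm_022

noncomputable def f_mm_023 : ℕ → ℕ → ℕ → ℕ → Bool := onCell 0 536870912 1610612736 536870912 1046898278 26843546
    (rowNX 3 0 false false false .up 0 2 3 (qsf 0 536870912 1610612736 536870912 2) ndN0q0 ndN3q3 pcN2 Cut.none Ext.none)

def k0_mm_023 : ∃ t, chk3 f_mm_023 t 1 1 1 = true :=
  ⟨(l 5), by decide +kernel⟩

theorem c_mm_023 : CertNX 0 536870912 1610612736 536870912 1046898278 26843546 3 false false false .up 0 2 3
    ndN0q0 ndN3q3 pcN2 Cut.none Ext.none :=
  certNX0 (fam := false) (s1 := false) (s2 := false) (a := 0) (b := 2) (c := 3) (cn := .up) (n1 := ndN0q0) (n2 := ndN3q3) (pc := pcN2) (cut := Cut.none) (xt := Ext.none) (P1 := 0) (W1 := 536870912) (P2 := 1610612736) (W2 := 536870912) (P3 := 1046898278) (W3 := 26843546) (N0 := 3)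
    rfl k0_mm_023

noncomputable def f_mm_033 : ℕ → ℕ → ℕ → ℕ → Bool := onCell 0 536870912 1610612736 536870912 1046898278 26843546
    (rowNX 3 0 false false false .pnn 0 3 3 (qsf 0 536870912 1610612736 536870912 3) ndN0q0 ndN3q3 pcN3 Cut.none Ext.none)

def k0_mm_033 : ∃ t, chk3 f_mm_033 t 1 1 1 = true :=
  ⟨(l 5), by decide +kernel⟩

theorem c_mm_033 : CertNX 0 536870912 1610612736 536870912 1046898278 26843546 3 false false false .pnn 0 3 3
    ndN0q0 ndN3q3 pcN3 Cut.none Ext.none :=
  certNX0 (fam := false) (s1 := false) (s2 := false) (a := 0) (b := 3) (c := 3) (cn := .pnn) (n1 := ndN0q0) (n2 := ndN3q3) (pc := pcN3) (cut := Cut.none) (xt := Ext.none) (P1 := 0) (W1 := 536870912) (P2 := 1610612736) (W2 := 536870912) (P3 := 1046898278) (W3 := 26843546) (N0 := 3)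
    rfl k0_mm_033

noncomputable def cut_mm_101 : Cut := Cut.of [[⟨0, 1, 0, 67108864⟩, ⟨1, 0, 0, 67108864⟩, ⟨2, 1, 0, 67108864⟩]]

noncomputable def f_mm_101 : ℕ → ℕ → ℕ → ℕ → Bool := onCell 536870912 536870912 536870912 536870912 1046898278 26843546
    (rowNX 3 0 false false false .npn 1 0 1 (qsf 536870912 536870912 536870912 536870912 0) ndN0q1 ndN3q1 pcN0 cut_mm_101 Ext.none)

def k0_mm_101 : ∃ t, chk3 f_mm_101 t 1 1 1 = true :=
  ⟨(a (l 3) (a (l 3) (a (l 3) (a (l 3) (b (l 1) (b (l 1) (b (l 1) (b (a (l 3) (l 1)) (l 6))))))))), by decide +kernel⟩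

theorem c_mm_101 : CertNX 536870912 536870912 536870912 536870912 1046898278 26843546 3 false false false .npn 1 0 1
    ndN0q1 ndN3q1 pcN0 cut_mm_101 Ext.none :=
  certNX0 (fam := false) (s1 := false) (s2 := false) (a := 1) (b := 0) (c := 1) (cn := .npn) (n1 := ndN0q1) (n2 := ndN3q1) (pc := pcN0) (cut := cut_mm_101) (xt := Ext.none) (P1 := 536870912) (W1 := 536870912) (P2 := 536870912) (W2 := 536870912) (P3 := 1046898278) (W3 := 26843546) (N0 := 3)
    rfl k0_mm_101

noncomputable def f_mm_102 : ℕ → ℕ → ℕ → ℕ → Bool := onCell 536870912 536870912 0 536870912 1046898278 26843546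
    (rowNX 3 1 false false false .npp 1 0 2 (qsf 536870912 536870912 1073741824 536870912 0) ndN0q1 ndN3q2 pcN0 Cut.none Ext.none)

def k0_mm_102 : ∃ t, chk3 f_mm_102 t 1 1 1 = true :=
  ⟨(l 3), by decide +kernel⟩

theorem c_mm_102 : CertNX 536870912 536870912 1073741824 536870912 1046898278 26843546 3 false false false .npp 1 0 2
    ndN0q1 ndN3q2 pcN0 Cut.none Ext.none :=
  certNX1 (fam := false) (s1 := false) (s2 := false) (a := 1) (b := 0) (c := 2) (cn := .npp) (n1 := ndN0q1) (n2 := ndN3q2) (pc := pcN0) (cut := Cut.none) (xt := Ext.none) (P1 := 536870912) (W1 := 536870912) (P2 := 1073741824) (W2 := 536870912) (P3 := 1046898278) (W3 := 26843546) (N0 := 3)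
    rfl (fun _ => rfl) k0_mm_102

noncomputable def f_mm_112 : ℕ → ℕ → ℕ → ℕ → Bool := onCell 536870912 536870912 536870912 536870912 1046898278 26843546
    (rowNX 3 1 false false false .dn 1 1 2 (qsf 536870912 536870912 1073741824 536870912 1) ndN0q1 ndN3q2 pcN1 Cut.none Ext.none)

def k0_mm_112 : ∃ t, chk3 f_mm_112 t 1 1 1 = true :=
  ⟨(l 5), by decide +kernel⟩

theorem c_mm_112 : CertNX 536870912 536870912 1073741824 536870912 1046898278 26843546 3 false false false .dn 1 1 2
    ndN0q1 ndN3q2 pcN1 Cut.none Ext.none :=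
  certNX1 (fam := false) (s1 := false) (s2 := false) (a := 1) (b := 1) (c := 2) (cn := .dn) (n1 := ndN0q1) (n2 := ndN3q2) (pc := pcN1) (cut := Cut.none) (xt := Ext.none) (P1 := 536870912) (W1 := 536870912) (P2 := 1073741824) (W2 := 536870912) (P3 := 1046898278) (W3 := 26843546) (N0 := 3)
    rfl (fun _ => rfl) k0_mm_112

noncomputable def f_mm_113 : ℕ → ℕ → ℕ → ℕ → Bool := onCell 536870912 536870912 1610612736 536870912 1046898278 26843546
    (rowNX 3 0 false false false .nn 1 1 3 (qsf 536870912 536870912 1610612736 536870912 1) ndN0q1 ndN3q3 pcN1 Cut.none Ext.none)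

def k0_mm_113 : ∃ t, chk3 f_mm_113 t 1 1 1 = true :=
  ⟨(l 5), by decide +kernel⟩

theorem c_mm_113 : CertNX 536870912 536870912 1610612736 536870912 1046898278 26843546 3 false false false .nn 1 1 3
    ndN0q1 ndN3q3 pcN1 Cut.none Ext.none :=
  certNX0 (fam := false) (s1 := false) (s2 := false) (a := 1) (b := 1) (c := 3) (cn := .nn) (n1 := ndN0q1) (n2 := ndN3q3) (pc := pcN1) (cut := Cut.none) (xt := Ext.none) (P1 := 536870912) (W1 := 536870912) (P2 := 1610612736) (W2 := 536870912) (P3 := 1046898278) (W3 := 26843546) (N0 := 3)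
    rfl k0_mm_113

noncomputable def f_mm_123 : ℕ → ℕ → ℕ → ℕ → Bool := onCell 536870912 536870912 1610612736 536870912 1046898278 26843546
    (rowNX 3 0 false false false .npn 1 2 3 (qsf 536870912 536870912 1610612736 536870912 2) ndN0q1 ndN3q3 pcN2 Cut.none Ext.none)

def k0_mm_123 : ∃ t, chk3 f_mm_123 t 1 1 1 = true :=
  ⟨(l 5), by decide +kernel⟩

theorem c_mm_123 : CertNX 536870912 536870912 1610612736 536870912 1046898278 26843546 3 false false false .npn 1 2 3
    ndN0q1 ndN3q3 pcN2 Cut.none Ext.none :=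
  certNX0 (fam := false) (s1 := false) (s2 := false) (a := 1) (b := 2) (c := 3) (cn := .npn) (n1 := ndN0q1) (n2 := ndN3q3) (pc := pcN2) (cut := Cut.none) (xt := Ext.none) (P1 := 536870912) (W1 := 536870912) (P2 := 1610612736) (W2 := 536870912) (P3 := 1046898278) (W3 := 26843546) (N0 := 3)
    rfl k0_mm_123

noncomputable def f_mm_133 : ℕ → ℕ → ℕ → ℕ → Bool := onCell 536870912 536870912 1610612736 536870912 1046898278 26843546
    (rowNX 3 0 false false false .dn 1 3 3 (qsf 536870912 536870912 1610612736 536870912 3) ndN0q1 ndN3q3 pcN3 Cut.none Ext.none)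

def k0_mm_133 : ∃ t, chk3 f_mm_133 t 1 1 1 = true :=
  ⟨(l 5), by decide +kernel⟩

theorem c_mm_133 : CertNX 536870912 536870912 1610612736 536870912 1046898278 26843546 3 false false false .dn 1 3 3
    ndN0q1 ndN3q3 pcN3 Cut.none Ext.none :=
  certNX0 (fam := false) (s1 := false) (s2 := false) (a := 1) (b := 3) (c := 3) (cn := .dn) (n1 := ndN0q1) (n2 := ndN3q3) (pc := pcN3) (cut := Cut.none) (xt := Ext.none) (P1 := 536870912) (W1 := 536870912) (P2 := 1610612736) (W2 := 536870912) (P3 := 1046898278) (W3 := 26843546) (N0 := 3)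
    rfl k0_mm_133

noncomputable def f_mm_202 : ℕ → ℕ → ℕ → ℕ → Bool := onCell 0 536870912 1073741824 536870912 1046898278 26843546
    (rowNX 3 0 false false false .pp 2 0 2 (qsf 0 536870912 1073741824 536870912 0) ndN0q2 ndN3q2 pcN0 Cut.none Ext.none)

def k0_mm_202 : ∃ t, chk3 f_mm_202 t 1 1 1 = true :=
  ⟨(l 3), by decide +kernel⟩

theorem c_mm_202 : CertNX 0 536870912 1073741824 536870912 1046898278 26843546 3 false false false .pp 2 0 2
    ndN0q2 ndN3q2 pcN0 Cut.none Ext.none :=
  certNX0 (fam := false) (s1 := false) (s2 := false) (a := 2) (b := 0) (c := 2) (cn := .pp) (n1 := ndN0q2) (n2 := ndN3q2) (pc := pcN0) (cut := Cut.none) (xt := Ext.none) (P1 := 0) (W1 := 536870912) (P2 := 1073741824) (W2 := 536870912) (P3 := 1046898278) (W3 := 26843546) (N0 := 3)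
    rfl k0_mm_202

noncomputable def f_mm_203 : ℕ → ℕ → ℕ → ℕ → Bool := onCell 0 536870912 0 536870912 1046898278 26843546
    (rowNX 3 1 false false false .up 2 0 3 (qsf 0 536870912 1610612736 536870912 0) ndN0q2 ndN3q3 pcN0 Cut.none Ext.none)

def k0_mm_203 : ∃ t, chk3 f_mm_203 t 1 1 1 = true :=
  ⟨(l 3), by decide +kernel⟩

theorem c_mm_203 : CertNX 0 536870912 1610612736 536870912 1046898278 26843546 3 false false false .up 2 0 3
    ndN0q2 ndN3q3 pcN0 Cut.none Ext.none :=
  certNX1 (fam := false) (s1 := false) (s2 := false) (a := 2) (b := 0) (c := 3) (cn := .up) (n1 := ndN0q2) (n2 := ndN3q3) (pc := pcN0) (cut := Cut.none) (xt := Ext.none) (P1 := 0) (W1 := 536870912) (P2 := 1610612736) (W2 := 536870912) (P3 := 1046898278) (W3 := 26843546) (N0 := 3)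
    rfl (fun _ => rfl) k0_mm_203

noncomputable def f_mm_213 : ℕ → ℕ → ℕ → ℕ → Bool := onCell 0 536870912 1610612736 536870912 1046898278 26843546
    (rowNX 3 0 false false false .pnn 2 1 3 (qsf 0 536870912 1610612736 536870912 1) ndN0q2 ndN3q3 pcN1 Cut.none Ext.none)

def k0_mm_213 : ∃ t, chk3 f_mm_213 t 1 1 1 = true :=
  ⟨(b (l 3) (a (l 3) (l 5))), by decide +kernel⟩

theorem c_mm_213 : CertNX 0 536870912 1610612736 536870912 1046898278 26843546 3 false false false .pnn 2 1 3
    ndN0q2 ndN3q3 pcN1 Cut.none Ext.none :=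
  certNX0 (fam := false) (s1 := false) (s2 := false) (a := 2) (b := 1) (c := 3) (cn := .pnn) (n1 := ndN0q2) (n2 := ndN3q3) (pc := pcN1) (cut := Cut.none) (xt := Ext.none) (P1 := 0) (W1 := 536870912) (P2 := 1610612736) (W2 := 536870912) (P3 := 1046898278) (W3 := 26843546) (N0 := 3)
    rfl k0_mm_213

end Pool.Agent.Strip051.G.IE1.Tab.C.NB03

namespace Pool.Agent.Strip051.G.IE1.Tab.C.NB05

open Pool.Agent.Strip051.PB Pool.Agent.Strip051.PB.T
open Pool.Agent.Strip051.G.IE1.Tab

noncomputable def f_pp_001 : ℕ → ℕ → ℕ → ℕ → Bool := onCell 0 536870912 0 536870912 1046898278 26843546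
    (rowNX 3 1 false true true .up 0 0 1 (qsf 0 536870912 536870912 469762048 0) ndN0q0 ndN5q1 pcN0 Cut.none Ext.none)

def k0_pp_001 : ∃ t, chk3 f_pp_001 t 1 1 1 = true :=
  ⟨(l 3), by decide +kernel⟩

theorem c_pp_001 : CertNX 0 536870912 536870912 469762048 1046898278 26843546 3 false true true .up 0 0 1
    ndN0q0 ndN5q1 pcN0 Cut.none Ext.none :=
  certNX1 (fam := false) (s1 := true) (s2 := true) (a := 0) (b := 0) (c := 1) (cn := .up) (n1 := ndN0q0) (n2 := ndN5q1) (pc := pcN0) (cut := Cut.none) (xt := Ext.none) (P1 := 0) (W1 := 536870912) (P2 := 536870912) (W2 := 469762048) (P3 := 1046898278) (W3 := 26843546) (N0 := 3)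
    rfl (fun _ => rfl) k0_pp_001

noncomputable def f_pp_011 : ℕ → ℕ → ℕ → ℕ → Bool := onCell 0 536870912 536870912 469762048 1046898278 26843546
    (rowNX 3 0 false true true .pnn 0 1 1 (qsf 0 536870912 536870912 469762048 1) ndN0q0 ndN5q1 pcN1 Cut.none Ext.none)

def k0_pp_011 : ∃ t, chk3 f_pp_011 t 1 1 1 = true :=
  ⟨(a (l 3) (l 3)), by decide +kernel⟩

theorem c_pp_011 : CertNX 0 536870912 536870912 469762048 1046898278 26843546 3 false true true .pnn 0 1 1
    ndN0q0 ndN5q1 pcN1 Cut.none Ext.none :=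
  certNX0 (fam := false) (s1 := true) (s2 := true) (a := 0) (b := 1) (c := 1) (cn := .pnn) (n1 := ndN0q0) (n2 := ndN5q1) (pc := pcN1) (cut := Cut.none) (xt := Ext.none) (P1 := 0) (W1 := 536870912) (P2 := 536870912) (W2 := 469762048) (P3 := 1046898278) (W3 := 26843546) (N0 := 3)
    rfl k0_pp_011

noncomputable def f_pp_012 : ℕ → ℕ → ℕ → ℕ → Bool := onCell 0 536870912 536870912 536870912 1046898278 26843546
    (rowNX 3 1 false true true .pnp 0 1 2 (qsf 0 536870912 1073741824 536870912 1) ndN0q0 ndN5q2 pcN1 Cut.none Ext.none)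

def k0_pp_012 : ∃ t, chk3 f_pp_012 t 1 1 1 = true :=
  ⟨(b (l 3) (l 3)), by decide +kernel⟩

theorem c_pp_012 : CertNX 0 536870912 1073741824 536870912 1046898278 26843546 3 false true true .pnp 0 1 2
    ndN0q0 ndN5q2 pcN1 Cut.none Ext.none :=
  certNX1 (fam := false) (s1 := true) (s2 := true) (a := 0) (b := 1) (c := 2) (cn := .pnp) (n1 := ndN0q0) (n2 := ndN5q2) (pc := pcN1) (cut := Cut.none) (xt := Ext.none) (P1 := 0) (W1 := 536870912) (P2 := 1073741824) (W2 := 536870912) (P3 := 1046898278) (W3 := 26843546) (N0 := 3)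
    rfl (fun _ => rfl) k0_pp_012

end Pool.Agent.Strip051.G.IE1.Tab.C.NB05

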