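import Pool.Agent.Strip051.G.IE1.Tab

/-! # Certificates N52 (generated) -/

set_option linter.all false
set_option maxRecDepth 100000

namespace Pool.Agent.Strip051.G.IE1.Tab.C.NB05

open Pool.Agent.Strip051.PB Pool.Agent.Strip051.PB.T
open Pool.Agent.Strip051.G.IE1.Tab

noncomputable def f_pp_022 : ℕ → ℕ → ℕ → ℕ → Bool := onCell 0 536870912 1073741824 536870912 1046898278 26843546
    (rowNX 3 1 false true true .pp 0 2 2 (qsf 0 536870912 1073741824 536870912 2) ndN0q0 ndN5q2 pcN2 Cut.none Ext.none)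

def k0_pp_022 : ∃ t, chk3 f_pp_022 t 1 8 1 = true :=
  ⟨(b (l 3) (a (a (l 3) (l 3)) (b (l 3) (a (b (l 3) (b (a (l 3) (a (l 3) (c (l 16213104) (l 16193224)))) (a (a (l 3) (c (l 16269824) (l 16251944))) (c (a (l 16261936) (l 16248296)) (l 339469019719))))) (a (b (b (l 3) (a (l 3) (c (l 16151784) (l 16129736)))) (c (c (b (l 16175992) (l 16224008)) (l 312625238263)) (c (l 16098752) (l 16109384)))) (a (b (b (l 3) (c (l 16146392) (l 16124072))) (c (b (l 16175504) (l 16185512)) (b (l 16154056) (l 16164552)))) (l 2))))))), by decide +kernel⟩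

def k1_pp_022 : ∃ t, chk3 f_pp_022 t 4 36 1 = true :=
  ⟨(b (l 3) (b (a (l 3) (a (a (a (l 3) (c (l 16002952) (l 15978920))) (c (l 16116536) (l 16077760))) (a (c (l 16295712) (l 16264920)) (c (l 16415360) (l 301888414535))))) (a (a (b (l 3) (c (a (l 16056520) (c (l 16342368) (a (l 16402920) (c (l 16522448) (a (l 16543448) (l 16459064)))))) (a (c (a (l 16140768) (c (l 16291256) (l 16256832))) (a (c (l 16137824) (a (c (l 16095528) (a (l 16072440) (l 16109200))) (c (l 16130872) (l 16172552)))) (c (a (c (l 16260616) (l 16260384)) (l 16340144)) (l 16290648)))) (c (a (c (l 16353296) (a (c (l 16433392) (l 16424080)) (l 16500664))) (c (a (l 16455368) (l 16441376)) (l 16526688))) (l 16478824))))) (c (a (c (a (l 16343392) (c (l 16228472) (a (l 16239136) (l 16173048)))) (a (c (l 16250904) (a (l 73718085863) (l 16347544))) (c (a (c (l 16244592) (l 16277016)) (l 16215400)) (l 16254400)))) (c (a (c (c (l 16021416) (l 15989688)) (c (a (l 16112192) (l 16085344)) (l 16119648))) (c (a (c (l 15987592) (l 16024056))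 (c (l 126867545559) (l 15975168))) (l 16001912))) (l 16057560))) (a (l 16230856) (l 16020568)))) (a (a (c (a (a (c (b (l 15938016) (l 15980168)) (l 15952936)) (l 16032456)) (l 16159216)) (a (a (b (l 15905088) (l 15949336)) (l 16009840)) (l 16141280))) (c (l 16247160) (l 16235352))) (c (a (l 16399648) (l 16337136)) (a (l 16374768) (l 16308920))))))), by decide +kernel⟩

def k2_pp_022 : ∃ t, chk3 f_pp_022 t 16 37 1 = true :=
  ⟨(c (a (b (c (l 16101936) (l 16116424)) (b (c (l 16225976) (l 16219656)) (c (l 16200568) (l 16173320)))) (c (b (c (l 16339256) (l 16344552)) (b (l 16340000) (l 16332400))) (b (a (l 16362264) (c (l 16477352) (a (l 16518816) (l 16393520)))) (a (c (l 16390712) (l 16361760)) (c (l 16427776) (a (l 16489184) (l 16345312))))))) (a (c (b (a (l 16141224) (c (l 16292400) (l 16174176))) (a (l 16118104) (c (l 16288520) (a (l 16252984) (l 16272736))))) (a (c (b (l 16096472) (a (l 16096144) (l 16153784))) (b (a (c (l 16095992) (a (l 16030864) (l 16109880))) (c (a (l 16154456) (l 16199488))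 (l 16173576))) (a (c (l 16094568) (a (c (l 16073352) (l 16071504)) (l 16108352))) (c (a (l 16068568) (l 16197072)) (l 16171384))))) (c (b (a (c (l 16261904) (l 16261712)) (l 16299784)) (a (c (l 16258704) (l 16153704)) (c (l 16277792) (l 16328592)))) (b (l 16292056) (l 16288456))))) (c (a (c (b (l 16312784) (b (l 16351992) (l 16345528))) (b (c (a (l 16435000) (l 16504616)) (l 16354224)) (c (a (l 16408976) (l 16477680)) (a (l 16357816) (l 16479760))))) (b (c (c (a (l 16506968) (l 16427784)) (l 16404544)) (l 16502040)) (c (c (a (l 16477440) (l 16379184)) (a (l 16490712) (l 16439472))) (l 16472880)))) (b (l 16438272) (l 16347792))))), by decide +kernel⟩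

def k3_pp_022 : ∃ t, chk3 f_pp_022 t 17 37 1 = true :=
  ⟨(c (a (c (b (a (l 16276792) (c (l 16205944) (a (l 16216168) (l 16088064)))) (a (b (l 16339496) (l 16332304)) (c (l 16061432) (a (l 16196072) (b (l 16133880) (l 16131552)))))) (a (c (b (a (l 16363928) (l 16289384)) (b (l 16268376) (l 16303360))) (b (a (c (l 16359944) (l 16385864)) (l 16322736)) (c (a (l 16335032) (l 16295560)) (l 16310784)))) (b (c (c (a (l 16221400) (l 16189008)) (l 16224544)) (l 16230896)) (c (a (c (l 16201064) (l 16232176)) (b (l 16174592) (l 16171816))) (l 16211232))))) (b (c (a (c (a (l 16076184) (c (a (l 16014720) (l 15986656)) (l 16029608))) (a (c (l 16091064) (l 16126152)) (c (l 16065360) (l 16075976)))) (a (c (b (c (l 15975064) (l 16011088)) (c (a (l 15990296) (l 16034584)) (a (l 15971712) (l 16066272)))) (b (l 16019992) (l 16063920))) (b (c (c (a (b (l 15966936) (l 15994792)) (l 15975264)) (l 15994936)) (l 16011648)) (l 15966320)))) (a (l 16101896) (b (a (l 16011552) (l 16003088)) (l 15930472)))) (c (a (b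 (c (a (l 16020032) (a (b (l 16016288) (l 15962880)) (b (l 16030464) (l 16099856)))) (a (c (l 16076512) (l 16110984)) (b (a (l 16070952) (l 16081384)) (l 16020936)))) (a (c (a (l 16098552) (l 16049080)) (c (l 16002912) (a (l 16142560) (l 16174728)))) (c (l 16131320) (l 16221288)))) (c (a (c (l 16079576) (l 16052840)) (c (l 16133400) (l 16249768))) (l 16155992))) (a (b (a (l 16118408) (l 16110432)) (l 16087672)) (l 16131048))))) (a (b (c (l 16293600) (l 16287816)) (b (l 16144008) (l 16222336))) (b (a (l 16045456) (b (a (l 15994376) (b (l 15955688) (l 16002032))) (a (b (l 16009888) (l 16057208)) (l 16116504)))) (b (a (a (l 16104616) (b (l 16065336) (l 16114224))) (l 16163200)) (a (a (l 16158872) (l 16235800)) (l 16331688)))))), by decide +kernel⟩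

def k4_pp_022 : ∃ t, chk3 f_pp_022 t 9 37 1 = true :=
  ⟨(a (c (a (b (a (c (l 16087856) (l 16164016)) (l 16133120)) (b (a (l 16274112) (l 16374152)) (a (l 16385080) (l 16332064)))) (b (b (l 16353160) (l 16405656)) (b (l 16244936) (l 16207704)))) (b (a (a (l 16026464) (l 16145152)) (b (l 16347328) (l 16401776))) (a (b (a (l 16309624) (l 16369720)) (l 16193096)) (b (l 16255672) (l 16191072))))) (b (c (a (c (l 16236104) (l 16273992)) (c (b (l 16322192) (l 16199184)) (l 16117304))) (a (b (l 16408592) (l 16293600)) (b (l 16222104) (l 15987152)))) (c (a (l 16092696) (l 15782144)) (a (l 16114280) (l 15901640))))), by decide +kernel⟩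

def k5_pp_022 : ∃ t, chk3 f_pp_022 t 16 38 1 = true :=
  ⟨(c (a (b (c (l 16056136) (l 16049696)) (l 16110728)) (b (c (b (l 16360560) (l 16303784)) (a (l 16311344) (a (l 16489208) (c (l 16421704) (l 16337648))))) (c (l 16280592) (a (l 16408072) (a (l 16439896) (c (l 16375360) (l 16333344))))))) (a (c (b (a (l 16118304) (c (l 16265912) (a (l 16230680) (l 16291464)))) (a (l 16135992) (l 16117640))) (a (c (b (l 16052640) (l 16133696)) (b (a (c (l 16074096) (a (l 15988488) (l 16087552))) (c (a (l 16131184) (l 16175304)) (l 16149864))) (a (c (l 16093016) (l 16068568)) (l 16097512)))) (b (c (a (c (l 16236336) (l 16194208)) (l 16230480)) (l 16265600)) (c (a (c (l 16252752) (l 16252720)) (l 16308800)) (l 16281824))))) (c (a (c (b (b (l 16373656) (l 16316896)) (l 16358952)) (a (b (c (l 16384912) (l 16396616)) (l 16351464)) (b (l 16366616) (l 16484448)))) (b (c (c (a (l 16467632) (l 16413216)) (l 16345648)) (l 16463464)) (c (a (l 16404336) (c (l 16345472) (l 16383872))) (l 16414696)))) (b (l 16385480)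 (l 16436400))))), by decide +kernel⟩

def k6_pp_022 : ∃ t, chk3 f_pp_022 t 16 39 1 = true :=
  ⟨(c (a (b (l 16151224) (l 16088432)) (a (b (a (l 16402512) (l 16403512)) (b (a (l 16401880) (c (l 16389832) (l 16424736))) (a (b (l 16375920) (l 16301848)) (l 16239128)))) (b (a (b (l 16404968) (a (l 16301168) (l 16362160))) (c (b (l 16350576) (l 16420184)) (c (l 16263952) (a (l 16239856) (l 16272136))))) (c (l 16094104) (c (l 16132384) (b (l 16182600) (l 16076120))))))) (a (c (a (l 16159816) (a (l 16268008) (b (l 16344752) (l 16343720)))) (a (c (l 16074280) (a (c (l 16118624) (b (l 16112656) (l 16115288))) (b (l 16161368) (l 16184080)))) (c (a (c (l 16274832) (l 16212088)) (b (l 16349144) (l 16348312))) (l 16282288)))) (c (a (b (c (l 16375520) (a (l 16432344) (l 16443768))) (c (a (l 16277872) (b (l 16312864) (l 16295272))) (a (b (l 16432088) (c (l 16376744) (l 16367568))) (b (l 16318000) (l 16299080))))) (b (c (a (b (l 16383904) (c (l 16390648) (l 16340000))) (b (c (l 16255952) (l 16399040)) (l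 16388360))) (b (l 16410328) (l 16457616))) (c (c (c (l 16027536) (l 16019464)) (l 16009248)) (l 16199392)))) (b (a (l 16447880) (b (l 16408368) (l 16414336))) (a (b (l 16410000) (l 16267864)) (l 16152792)))))), by decide +kernel⟩

def k7_pp_022 : ∃ t, chk3 f_pp_022 t 17 38 1 = true :=
  ⟨(c (a (c (b (a (b (l 16331944) (l 16248552)) (a (b (l 16178560) (a (l 16194760) (b (l 16230224) (l 16299096)))) (b (c (l 16197360) (a (l 16039200) (l 16128792))) (c (l 16333664) (l 16200576))))) (a (b (a (l 16344664) (l 16217504)) (a (b (l 16344184) (l 16380296)) (l 16427512))) (a (l 16240352) (c (l 16436456) (l 16295088))))) (b (a (c (a (l 16333544) (b (l 16263608) (l 16244424))) (a (c (l 16329600) (l 16354408)) (l 16212200))) (b (c (a (c (l 16200520) (l 16231144)) (c (l 16099768) (l 16236832))) (l 16205032)) (a (c (c (b (l 16227336) (l 16274008)) (b (l 16257840) (l 16283600))) (l 16277640)) (l 16223256)))) (a (c (a (b (l 16305936) (l 16309744)) (b (a (l 16270832) (l 16251824)) (l 16336736))) (a (b (l 16268688)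 (c (l 16243048) (a (l 16330080) (l 16363024)))) (b (l 16198400) (l 16411040)))) (a (c (c (l 16307640) (l 16338544)) (l 16476400)) (l 16233648))))) (b (c (a (c (b (l 16080840) (b (l 16248136) (l 16304072))) (a (c (l 16139768) (l 16153592)) (b (l 16303640) (l 16358352)))) (c (c (a (l 16300280) (l 16138800)) (b (l 16349592) (l 16155440))) (l 16209336))) (b (l 16298056) (l 16234680))) (c (a (c (a (l 16282928) (l 16118280)) (c (c (c (l 16103288) (l 16094592)) (l 16095120)) (l 16096928))) (c (a (c (l 16183240) (l 16113064)) (l 15976056)) (l 16110952))) (l 16029744)))) (a (b (a (l 16225640) (b (a (l 16233568) (l 16225936)) (a (l 16229008) (l 16348304)))) (a (b (a (l 16334064) (l 16327168)) (l 16235800)) (l 16399016))) (b (b (l 16273488) (l 16229800)) (l 16039392)))), by decide +kernel⟩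

def k8_pp_022 : ∃ t, chk3 f_pp_022 t 17 39 1 = true :=
  ⟨(c (a (a (c (b (l 16193056) (l 16018080)) (c (b (l 16159072) (l 15916600)) (b (a (l 16219872) (l 16200728)) (a (l 15951792) (l 15998648))))) (c (c (b (l 16183544) (l 15911312)) (b (a (l 16207968) (l 16051328)) (l 15711048))) (c (b (a (c (l 16154288) (b (l 16317360) (l 16158008))) (l 16075832)) (a (l 15797824) (l 15820064))) (l 15778992)))) (c (a (b (c (c (l 15961880) (l 15881136)) (a (c (l 16102688) (l 16054672)) (l 15959376))) (c (a (l 15819120) (l 15723184)) (a (l 15545656) (l 15649808)))) (c (b (a (c (l 15930456) (l 15879816)) (l 15767264)) (a (c (l 15627592) (l 15575480)) (l 15487648))) (l 15410040))) (b (l 15893560) (l 15581104)))) (a (b (a (l 16234048) (l 16161496)) (l 15821408)) (b (l 15873544) (l 15552120)))), by decide +kernel⟩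

def k9_pp_022 : ∃ t, chk3 f_pp_022 t 9 19 1 = true :=
  ⟨(a (b (a (b (c (a (c (l 16066280) (l 16122096)) (b (l 16161584) (l 15992840))) (a (l 16090104) (l 15993504))) (c (a (l 15926424) (l 15779176)) (l 15823032))) (b (c (b (l 16042200) (l 15878440)) (l 15850312)) (c (l 15670968) (l 15633680)))) (c (a (a (b (l 15633816) (l 15333528)) (b (l 15492296) (l 15198200))) (b (l 15392768) (l 15108016))) (a (b (l 15522232) (l 15213648)) (l 15071304)))) (b (b (a (c (b (l 15896896) (l 15739808)) (l 15764912)) (c (a (b (l 15794096) (l 15642048)) (b (l 15701080) (a (l 15584560) (l 15589664)))) (a (l 15681312) (b (l 15663448) (l 15551600))))) (a (c (l 15540680) (l 15497608)) (c (a (b (l 15520424) (a (l 15413208) (l 15443544))) (l 15530392)) (a (l 15440552) (l 15486280))))) (a (b (c (a (l 15302720) (b (l 15321072) (l 15228456))) (a (l 15250864) (l 15230272))) (c (a (b (l 15104688) (l 15007256)) (l 15151808)) (a (l 15003344) (l 15093888)))) (c (b (a (l 15366120) (l 15478624)) (l 15361024)) (b (l 15374680)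 (l 15310480)))))), by decide +kernel⟩

def k10_pp_022 : ∃ t, chk3 f_pp_022 t 5 18 1 = true :=
  ⟨(b (b (b (a (l 3) (a (c (l 16452688) (l 16426328)) (c (a (l 16366064) (l 16325736)) (a (l 16351960) (l 16309832))))) (a (a (a (l 3) (c (a (l 16316512) (l 16218488)) (a (l 16302248) (a (l 326583944279) (l 16215096))))) (c (l 16373128) (l 16257440))) (a (c (l 16494864) (l 16449096)) (c (a (l 16403368) (l 16359384)) (a (l 16390576) (l 16344664)))))) (a (a (a (c (c (l 16158768) (l 16235376)) (c (l 16186056) (l 16115680))) (c (a (b (l 16188368) (c (l 16103864) (l 16092640))) (l 16169920)) (a (b (c (l 16173992) (l 16164232)) (c (l 16081272) (l 16069736))) (b (l 16163288) (l 16134296))))) (c (l 16294608) (c (l 16369192) (l 16299952)))) (a (c (a (l 16616416) (l 16499616)) (a (l 16550248) (l 16473584))) (c (a (b (l 16438216) (l 16479984)) (b (l 16395848) (l 16440256))) (a (b (l 16426656) (l 16469904)) (b (l 16382416) (l 16428392))))))) (a (a (b (c (a (b (a (l 16157376) (l 15959048)) (a (l 16016096) (c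 (l 15952384) (l 15938304)))) (b (l 16083504) (l 16048536))) (a (b (a (l 16137056) (l 15955232)) (a (l 15990352) (c (l 15924032) (l 15909576)))) (b (l 16039064) (l 16023624)))) (c (a (a (b (l 15880528) (l 15775464)) (l 15859352)) (l 15992888)) (a (a (b (l 15849616) (l 15740544)) (l 15827448)) (l 15965696)))) (b (c (b (l 16337240) (l 16305552)) (b (l 16239056) (l 16289856))) (c (l 16252200) (l 16234208)))) (a (c (b (b (l 16569400) (l 16624896)) (l 16534336)) (b (b (l 16504224) (l 16600096)) (l 16507016))) (c (a (b (l 16555440) (l 16652520)) (b (l 16517016) (l 16638040))) (b (a (l 16548016) (l 16507856)) (l 16546600)))))), by decide +kernel⟩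

def k11_pp_022 : ∃ t, chk3 f_pp_022 t 5 19 1 = true :=
  ⟨(b (a (b (c (a (b (l 15652152) (l 15777240)) (l 16174616)) (a (b (l 15808040) (l 15763664)) (l 16153424))) (c (a (l 15764912) (l 16123136)) (l 15728752))) (b (a (c (l 16379856) (l 16391280)) (c (a (l 16671640) (l 16771848)) (a (l 16712104) (l 16771656)))) (a (c (l 16457752) (l 16446376)) (a (l 16687352) (l 16687720))))) (a (a (c (b (l 15716008) (l 15663296)) (b (l 15678224) (l 15623464))) (b (l 16064544) (c (l 16038056) (l 16011608)))) (a (b (c (l 16415624) (l 16402856)) (c (l 16373224) (l 16380792))) (b (a (l 16626728) (l 16614888)) (l 16602960))))), by decide +kernel⟩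

def k12_pp_022 : ∃ t, chk3 f_pp_022 t 3 9 1 = true :=
  ⟨(a (b (b (b (c (a (b (c (l 293835145671) (l 16305648)) (c (l 16345632) (l 16338064))) (b (l 16278016) (a (l 16318904) (l 16306640)))) (a (b (a (l 16301616) (l 16287592)) (c (l 16330400) (l 16322624))) (b (l 16260432) (c (l 16299496) (l 16291184))))) (b (c (a (c (l 16383336) (l 16376432)) (a (l 16365816) (l 16350984))) (a (c (l 16369432) (l 16362344)) (l 16323568))) (c (a (a (l 16434600) (l 16423128)) (l 16408552)) (a (a (l 16422536) (l 16410656)) (l 16395568))))) (c (a (b (l 16509472) (l 16635608)) (b (l 16497120) (l 16631632))) (a (b (l 16500040) (l 16630624)) (l 16407920)))) (b (c (b (a (l 16732160) (l 16777184)) (a (l 16685496) (l 16697384))) (b (a (l 16753024) (l 16777184)) (a (l 16682272) (l 16694584)))) (a (b (c (l 16640744) (l 16635960)) (l 16649632)) (c (l 16699400) (l 16696664))))) (a (b (b (c (b (b (a (l 16249096) (l 16234144)) (l 16284704)) (l 16359096)) (b (b (l 16200784) (l 16267360)) (l 16344368))) (a (b (l 16419520)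 (l 16604952)) (b (l 16475656) (l 16581080)))) (b (b (c (l 16768480) (l 16768168)) (l 16728408)) (l 16760648))) (a (b (b (b (c (l 16240192) (l 16179336)) (l 2)) (l 2)) (l 2)) (l 2)))), by decide +kernel⟩

def k13_pp_022 : ∃ t, chk3 f_pp_022 t 16 40 1 = true :=
  ⟨(c (a (b (a (l 16156456) (b (a (l 16258120) (l 16205688)) (a (l 16194360) (l 16123840)))) (a (b (a (l 16110968) (l 16101984)) (l 16036624)) (b (l 16006616) (l 15892144)))) (b (a (l 15883584) (c (l 15887416) (c (l 15899992) (l 15778392)))) (a (b (l 15827904) (l 15722768)) (c (l 15608512) (b (l 15556824) (l 15563016)))))) (a (c (b (a (l 16146592) (a (l 16068600) (b (a (l 16294584) (l 16274752)) (l 16129088)))) (a (b (l 16076856) (l 16045368)) (b (l 15939640) (l 15884888)))) (b (a (c (l 16145072) (a (l 15956752) (l 16107928))) (c (a (c (l 16116992) (b (l 16264360) (l 16135040))) (b (c (l 16263744) (l 16272656)) (l 16130816))) (b (l 16254416) (l 16148880)))) (a (c (b (a (l 16094424) (l 16112304)) (l 16021672)) (a (a (b (l 16072816) (l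 16087696)) (b (l 16043048) (l 15987832))) (a (b (l 15950488) (l 16029992)) (l 15904448)))) (c (a (c (l 15991704) (l 15885824)) (l 15816008)) (l 15933784))))) (c (b (a (c (l 15976032) (a (c (l 16140624) (l 16067432)) (l 15992712))) (c (c (l 15784256) (l 15853520)) (l 15873456))) (a (c (l 15693272) (b (l 15638080) (l 15718248))) (c (b (l 15557520) (l 15562344)) (l 15582496)))) (b (l 15899024) (l 15659944))))), by decide +kernel⟩

def k14_pp_022 : ∃ t, chk3 f_pp_022 t 17 40 1 = true :=
  ⟨(c (a (c (b (a (l 15734112) (c (l 15594560) (a (l 15651000) (l 15564328)))) (a (l 15470928) (a (l 15291280) (l 15296712)))) (b (a (c (l 15711848) (a (l 15742152) (l 15666552))) (c (a (l 15514520) (l 15498840)) (l 15521920))) (a (c (l 15361032) (a (l 15426496) (l 15401208))) (c (a (l 15217904) (l 15251056)) (l 15268328))))) (b (c (a (c (a (l 15508040) (l 15290408)) (a (c (l 15477504) (l 15426464)) (l 15339888))) (c (c (a (l 15325592) (l 15197880)) (l 14995984)) (l 15206160))) (l 15270456)) (c (a (c (l 15159184)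 (a (l 15224096) (l 15108816))) (c (c (l 14908176) (l 15006896)) (l 14984832))) (l 15038136)))) (b (a (l 15589144) (l 15232520)) (a (l 15320856) (l 14993600)))), by decide +kernel⟩

def k15_pp_022 : ∃ t, chk3 f_pp_022 t 16 41 1 = true :=
  ⟨(c (b (a (l 15752800) (c (l 15521360) (a (l 15595672) (c (l 15448056) (l 15448064))))) (b (a (l 15720192) (c (l 15430480) (a (l 15502200) (c (l 15356944) (l 15356136))))) (a (b (l 15747512) (a (l 15785688) (a (l 15690928) (l 15539144)))) (b (c (l 15414952) (a (l 15486704) (l 15188512))) (c (a (a (l 15522120) (l 15438448)) (a (l 15359992) (l 15286352))) (a (l 15475240) (c (l 15329280) (a (l 15375512) (l 15309808))))))))) (b (a (c (a (l 15933952) (l 15756448)) (a (c (l 15929752) (a (c (l 15972816) (l 15948136)) (l 15870736))) (c (a (l 15728080) (l 15712328)) (l 15741656)))) (c (a (c (l 15598208) (l 15424472)) (c (l 15314640) (l 15408760))) (l 15479488))) (a (c (b (a (l 15834928) (l 15659352)) (b (l 15523824) (a (l 15809472) (c (l 15631528) (l 15633960)))))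 (b (a (c (l 15829424) (a (l 15783888) (l 15770024))) (c (a (l 15692128) (l 15614440)) (l 15642408))) (a (c (b (l 15814688) (l 15803728)) (b (a (l 15853096) (l 15755040)) (a (c (l 15845792) (l 15820584)) (l 15701952)))) (b (c (a (l 15676944) (l 15598984)) (l 15626984)) (c (a (c (l 15675160) (l 15672752)) (l 15587512)) (l 15615536)))))) (b (c (a (c (l 15503496) (l 15328920)) (c (l 15200928) (l 15315184))) (l 15383648)) (c (b (a (c (l 15487840) (l 15459968)) (c (l 15331600) (l 15298952))) (a (c (l 15455288) (a (l 15350680) (l 15430440))) (c (a (c (l 15381000) (l 15358608)) (l 15196176)) (l 15286952)))) (b (l 15367488) (l 15355520))))))), by decide +kernel⟩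

def k16_pp_022 : ∃ t, chk3 f_pp_022 t 17 41 1 = true :=
  ⟨(c (b (a (c (a (l 15309488) (c (l 15191376) (l 15194008))) (a (c (l 15323192) (l 15148352)) (c (a (l 15204104) (l 15093192)) (l 15107280)))) (c (a (c (a (l 15119176) (l 15036424)) (c (l 14930056) (l 14990024))) (c (c (a (l 14955504) (l 14836424)) (l 14858712)) (l 14835624))) (l 14884776))) (a (c (b (c (l 15160912) (a (l 15225752) (l 15044712))) (b (c (l 15144624) (a (l 15209544) (l 15091056))) (c (a (a (l 15215424) (l 15150632)) (l 15077192)) (a (l 15197584) (a (l 15124096) (c (l 15069080) (l 15037576))))))) (b (a (c (l 15234048) (a (l 15253712) (l 15147784))) (c (a (l 15116464) (l 15006552)) (l 15019344))) (b (c (a (l 15217728) (a (l 15099864) (l 14989776))) (a (l 15167800) (l 15002536))) (a (c (a (l 15246864) (a (l 15202640) (l 15159248))) (a (c (l 15240424) (l 15201464)) (l 15119056))) (c (c (a (l 15104128) (l 14986592)) (l 14991152)) (l 14990144)))))) (b (c (c (a (b (l 14993168) (l 14975928)) (c (a (l 14873576) (l 14755504))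 (l 14776912))) (a (c (a (l 15001216) (l 14882040)) (l 14905456)) (l 14753272))) (l 14800264)) (c (b (c (a (a (l 15018376) (l 14936480)) (c (a (l 14856656) (l 14738456)) (l 14759856))) (a (c (l 14870960) (l 14888544)) (l 14736120))) (c (a (b (b (b (l 14970416) (a (l 15027872) (b (l 14942712) (l 14948608)))) (l 14978264)) (l 14958656)) (c (a (l 14844192) (b (b (b (l 14738640) (l 14746824)) (l 14745888)) (l 14726872))) (a (a (l 14769760) (l 14723176)) (l 14701200)))) (a (a (c (l 14972072) (l 14918704)) (a (c (l 14876360) (l 14846824)) (l 14817376))) (l 14723488)))) (b (l 14783048) (l 14770360)))))) (b (a (l 15154024) (l 14835976)) (b (a (l 15063072) (l 14749168)) (b (l 14719512) (a (l 15033648) (l 14718584)))))), by decide +kernel⟩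

def k17_pp_022 : ∃ t, chk3 f_pp_022 t 16 21 1 = true :=
  ⟨(c (a (b (a (l 15577032) (l 15400712)) (l 14795696)) (a (b (l 15114208) (l 14792024)) (c (b (l 15090256) (l 14655928)) (a (l 14883656) (b (l 14799520) (l 14505776)))))) (a (c (a (l 15205200) (c (l 15122976) (l 14890072))) (a (c (l 15129448) (a (c (l 15333312) (l 15095984)) (c (l 15118616) (l 15240432)))) (c (a (c (l 15177008) (l 15130304)) (l 15030088)) (l 15113912)))) (c (a (b (c (l 15229248) (l 14989224)) (c (l 14770216) (l 14693504))) (c (b (l 14846808) (l 14586112)) (l 14814040))) (l 14870912)))), by decide +kernel⟩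

def k18_pp_022 : ∃ t, chk3 f_pp_022 t 17 21 1 = true :=
  ⟨(c (a (c (b (a (l 14963960) (c (l 14853528) (l 14601360))) (a (b (l 14643928) (a (l 14465144) (l 14455904))) (c (b (a (l 14568464) (l 14571680)) (l 14509696)) (b (a (l 14588752) (b (l 14573792) (l 14531376))) (l 14505792))))) (b (a (c (l 14972856) (a (l 14989032) (l 14885184))) (c (c (l 14698656) (l 14783568)) (l 14759928))) (a (b (c (l 14648088) (l 14613624)) (c (a (l 14480880) (l 14459440)) (a (l 14451840) (l 14395288)))) (c (b (a (c (l 14564872) (l 14514440)) (l 14483744)) (c (l 14474704) (l 14432064))) (l 14452304))))) (c (b (a (c (b (a (l 14889648) (l 14808872)) (a (a (l 14700544) (l 14681344)) (b (c (l 14693984) (l 14650080)) (l 14625896)))) (a (c (l 14755184) (l 14700768)) (b (l 14726872) (b (l 14583792) (l 14521136))))) (c (b (a (c (l 14738376) (l 14682072)) (b (a (l 14674584) (l 14623832)) (l 14604136))) (a (a (l 14631232) (l 14617344)) (l 14623784))) (b (l 14645560) (l 14579312)))) (a (c (c (l 14603048) (l 14578256)) (c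 (a (l 14563200) (l 14549312)) (l 14518760))) (c (c (l 14631072) (l 14602112)) (l 14577256)))) (b (a (b (l 14726360) (l 14552912)) (b (l 14617880) (l 14550664))) (l 14516272)))) (a (b (l 14795408) (a (b (l 14538208) (l 14356600)) (l 14401776))) (b (b (l 14623432) (l 14504888)) (l 14457112)))), by decide +kernel⟩

def k19_pp_022 : ∃ t, chk3 f_pp_022 t 9 10 1 = true :=
  ⟨(b (b (a (a (b (c (c (a (l 15053256) (l 14928736)) (l 14855824)) (l 14913304)) (c (a (l 14828840) (l 14715200)) (l 14701088))) (b (a (c (l 14860968) (l 14793096)) (c (b (l 14877856) (l 14809184)) (l 14700128))) (c (a (b (l 14721568) (l 14684640)) (l 14814040)) (l 14597712)))) (b (c (a (b (l 15028720) (l 15031456)) (l 15332744)) (a (l 14968600) (l 15281048))) (c (l 15135304) (l 15163528)))) (a (b (a (c (a (l 14683080) (b (l 14611296) (l 14589944))) (a (l 14609640) (l 14533600))) (c (l 14796472) (l 14726088))) (b (a (c (a (b (l 14609792) (l 14601560)) (l 14618544)) (a (l 14534392) (l 14542232))) (l 14751456)) (a (b (c (a (c (l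 14611824) (l 14595416)) (l 14675528)) (l 14571992)) (a (c (a (b (b (b (l 14623048) (b (l 14629352) (l 14614920))) (l 14635896)) (l 14627440)) (l 14612576)) (l 14555560)) (c (a (l 14673728) (l 14752144)) (l 14640584)))) (b (l 14891904) (c (l 14959816) (l 14896112)))))) (b (c (l 15178520) (l 15230224)) (b (c (l 15308960) (l 15300496)) (b (c (l 15399952) (l 15351592)) (c (a (l 15283296) (l 15576072)) (l 15383920))))))) (a (a (c (a (c (l 14632152) (l 14616224)) (l 14728512)) (l 14608632)) (l 14941160)) (a (l 15267032) (l 15561888)))), by decide +kernel⟩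

def k20_pp_022 : ∃ t, chk3 f_pp_022 t 4 11 1 = true :=
  ⟨(a (a (c (b (a (b (l 14430576) (a (b (l 14324696) (b (l 14169408) (l 14081104))) (b (a (l 14218856) (l 14185856)) (l 14134744)))) (b (a (b (l 14464608) (a (l 14287504) (c (l 14253304) (l 14247008)))) (c (b (a (l 14376984) (l 14333160)) (l 14303120)) (b (a (l 14366280) (c (l 14350656) (l 14354496))) (l 14281904)))) (c (l 14257616) (a (l 14189864) (l 14269856))))) (a (c (l 14100144) (l 14075264)) (c (l 14245552) (a (l 14177696) (l 14257832))))) (b (a (c (a (b (l 14604056) (l 14174728)) (b (l 14451368) (a (l 14116368) (l 14118368)))) (a (c (b (l 14580824) (l 14144944)) (b (a (l 14601464) (l 14515256)) (a (l 14116904) (l 14082536)))) (b (c (l 14211624) (l 14405112)) (c (a (c (l 14097672) (l 14087560)) (l 14091088)) (l 14071760))))) (c (a (b (c (b (l 14434576) (l 14252448)) (a (l 14354256) (l 14115032))) (c (l 14171848) (l 14152056))) (b (c (b (a (l 14351672) (l 14315392)) (l 14262704)) (l 14268656)) (l 14234768))) (b (a (l 14287952) (l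 14236136)) (l 14140360)))) (a (c (a (l 13997976) (l 14067912)) (a (c (l 13965440) (a (l 13921776) (l 13950824))) (c (l 14032024) (l 14011848)))) (c (a (c (l 14159488) (l 14139560)) (l 14222488)) (l 14127512))))) (c (b (a (c (a (l 14392024) (c (l 14496552) (l 14492512))) (a (c (l 14392408) (a (l 14347328) (l 14353752))) (c (l 14447936) (l 14392296)))) (c (c (a (l 14589128) (l 14624320)) (a (l 14537720) (l 14560920))) (l 14499912))) (a (c (c (l 14422680) (l 14298264)) (c (a (l 14370808) (l 14425616)) (l 14358048))) (c (c (a (l 14566144) (l 14600256)) (l 14538328)) (l 14475720)))) (b (l 14312296) (l 14351032)))) (a (b (a (c (l 14652640) (l 14586224)) (l 14915432)) (a (c (l 14626664) (l 14559120)) (l 14887096))) (b (l 15237792) (l 15228240)))), by decide +kernel⟩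

def k21_pp_022 : ∃ t, chk3 f_pp_022 t 5 5 1 = true :=
  ⟨(b (b (b (a (b (a (c (l 15654832) (l 15614616)) (l 16034344)) (a (l 15672496) (l 16070968))) (a (c (l 16282584) (l 16333080)) (a (l 16592360) (l 16684072)))) (b (a (a (l 15732320) (l 16125008)) (a (l 16445776) (l 16763920))) (a (b (a (l 15793296) (l 16178224)) (b (a (l 15835264) (l 16212688)) (c (l 15812064) (l 15871456)))) (b (a (l 16512304) (l 16682432)) (a (b (l 16560760) (l 16577464)) (b (l 16633072) (l 16603232))))))) (a (a (l 15864256) (l 16231880)) (a (l 16571480) (l 16618104)))) (b (a (a (l 15827352) (l 16191208)) (a (l 16529080) (l 16712088))) (a (a (l 15795008) (l 16158240)) (a (l 16496760) (l 16754232))))), by decide +kernel⟩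

def k22_pp_022 : ∃ t, chk3 f_pp_022 t 3 5 1 = true :=
  ⟨(a (a (b (b (b (b (l 16695624) (l 16766072)) (b (l 16694304) (b (l 16610376) (b (l 16568616) (l 16544152))))) (l 16570640)) (b (l 16688088) (c (l 16775880) (l 16776368)))) (b (b (b (c (l 16745096) (l 16743968)) (b (l 16610016) (b (l 16529488) (b (l 16497952) (l 16480784))))) (l 16522392)) (b (b (l 16626728) (l 2)) (l 2)))) (b (b (b (a (l 16661616) (l 2)) (l 2)) (l 2)) (l 2))), by decide +kernel⟩

def k23_pp_022 : ∃ t, chk3 f_pp_022 t 1 3 1 = true :=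
  ⟨(a (a (a (c (a (b (b (a (l 14097888) (c (l 14245512) (l 14221496))) (a (l 14097888) (l 14233760))) (b (l 13960128) (l 14169840))) (b (c (a (b (l 14407656) (l 14407656)) (b (c (l 14579520) (l 14538280)) (l 14492424))) (c (a (b (l 14352288) (l 14394232)) (l 14485688)) (b (l 14415584) (l 14415584)))) (a (c (l 14407656) (b (l 14371352) (l 14371352))) (b (l 14484952) (l 14526896))))) (b (a (a (c (b (l 14034608) (l 14034608)) (a (c (l 13964856) (a (l 13921136) (l 13950784))) (b (l 13902272) (l 14007128)))) (a (c (c (l 14159440) (l 14118544)) (l 14092968)) (b (l 14193528) (l 14193528)))) (b (l 14350976) (l 14350976))) (a (a (c (l 14034608) (b (a (l 13948408) (l 14007128)) (l 13897816))) (c (b (a (l 14133304) (l 14222448)) (l 14165704)) (l 14127464))) (l 14350976)))) (a (b (b (a (c (l 14626616) (l 14559064)) (l 14887040)) (c (a (l 14626616) (l 14919768)) (l 14707832))) (a (c (l 14626616) (l 14559064)) (l 14887040))) (b (b (l 15354008) (c (b (l 15378688) (l 15378688)) (l 15329432))) (b (l 15354008)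 (l 2))))) (b (b (a (c (l 15930576) (l 15923944)) (c (a (l 16501568) (l 16754576)) (a (l 16491856) (l 16753784)))) (b (a (c (l 15993496) (l 15965880)) (c (l 16630544) (l 16625376))) (a (l 15979656) (l 2)))) (a (b (l 15769944) (l 2)) (l 2)))) (b (a (a (b (c (l 16777216) (l 16777216)) (l 2)) (l 2)) (l 2)) (l 2))), by decide +kernel⟩

theorem s24_pp_022 : ∃ t, chk3 f_pp_022 t 8 21 1 = true := ex3_a k17_pp_022 k18_pp_022

theorem s25_pp_022 : ∃ t, chk3 f_pp_022 t 8 41 1 = true := ex3_a k15_pp_022 k16_pp_022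

theorem s26_pp_022 : ∃ t, chk3 f_pp_022 t 8 40 1 = true := ex3_a k13_pp_022 k14_pp_022

theorem s27_pp_022 : ∃ t, chk3 f_pp_022 t 8 20 1 = true := ex3_b s26_pp_022 s25_pp_022

theorem s28_pp_022 : ∃ t, chk3 f_pp_022 t 8 10 1 = true := ex3_b s27_pp_022 s24_pp_022

theorem s29_pp_022 : ∃ t, chk3 f_pp_022 t 4 10 1 = true := ex3_a s28_pp_022 k19_pp_022

theorem s30_pp_022 : ∃ t, chk3 f_pp_022 t 4 5 1 = true := ex3_b s29_pp_022 k20_pp_022

theorem s31_pp_022 : ∃ t, chk3 f_pp_022 t 2 5 1 = true := ex3_a s30_pp_022 k21_pp_022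

theorem s32_pp_022 : ∃ t, chk3 f_pp_022 t 1 5 1 = true := ex3_a s31_pp_022 k22_pp_022

theorem s33_pp_022 : ∃ t, chk3 f_pp_022 t 5 9 1 = true := ex3_b k10_pp_022 k11_pp_022

theorem s34_pp_022 : ∃ t, chk3 f_pp_022 t 17 19 1 = true := ex3_b k7_pp_022 k8_pp_022

theorem s35_pp_022 : ∃ t, chk3 f_pp_022 t 16 19 1 = true := ex3_b k5_pp_022 k6_pp_022

theorem s36_pp_022 : ∃ t, chk3 f_pp_022 t 8 19 1 = true := ex3_a s35_pp_022 s34_pp_022

theorem s37_pp_022 : ∃ t, chk3 f_pp_022 t 4 19 1 = true := ex3_a s36_pp_022 k9_pp_022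

theorem s38_pp_022 : ∃ t, chk3 f_pp_022 t 8 37 1 = true := ex3_a k2_pp_022 k3_pp_022

theorem s39_pp_022 : ∃ t, chk3 f_pp_022 t 4 37 1 = true := ex3_a s38_pp_022 k4_pp_022

theorem s40_pp_022 : ∃ t, chk3 f_pp_022 t 4 18 1 = true := ex3_b k1_pp_022 s39_pp_022

theorem s41_pp_022 : ∃ t, chk3 f_pp_022 t 4 9 1 = true := ex3_b s40_pp_022 s37_pp_022

theorem s42_pp_022 : ∃ t, chk3 f_pp_022 t 2 9 1 = true := ex3_a s41_pp_022 s33_pp_022

theorem s43_pp_022 : ∃ t, chk3 f_pp_022 t 1 9 1 = true := ex3_a s42_pp_022 k12_pp_022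

theorem s44_pp_022 : ∃ t, chk3 f_pp_022 t 1 4 1 = true := ex3_b k0_pp_022 s43_pp_022

theorem s45_pp_022 : ∃ t, chk3 f_pp_022 t 1 2 1 = true := ex3_b s44_pp_022 s32_pp_022

theorem s46_pp_022 : ∃ t, chk3 f_pp_022 t 1 1 1 = true := ex3_b s45_pp_022 k23_pp_022

theorem c_pp_022 : CertNX 0 536870912 1073741824 536870912 1046898278 26843546 3 false true true .pp 0 2 2
    ndN0q0 ndN5q2 pcN2 Cut.none Ext.none :=
  certNX1 (fam := false) (s1 := true) (s2 := true) (a := 0) (b := 2) (c := 2) (cn := .pp) (n1 := ndN0q0) (n2 := ndN5q2) (pc := pcN2) (cut := Cut.none) (xt := Ext.none) (P1 := 0) (W1 := 536870912) (P2 := 1073741824) (W2 := 536870912) (P3 := 1046898278) (W3 := 26843546) (N0 := 3)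
    rfl (fun _ => rfl) s46_pp_022

noncomputable def f_pp_023 : ℕ → ℕ → ℕ → ℕ → Bool := onCell 1073741824 536870912 0 1230186008 1046898278 26843546
    (rowNX 3 2 false true true .up 0 2 3 (qsf 0 536870912 0 1230186008 2) ndN0q0 ndN5q3 pcN2 Cut.none Ext.none)

def k0_pp_023 : ∃ t, chk3 f_pp_023 t 1 2 1 = true :=
  ⟨(a (l 2) (a (l 2) (b (a (l 2) (l 16746096)) (b (l 16705992) (l 16730136))))), by decide +kernel⟩

def k1_pp_023 : ∃ t, chk3 f_pp_023 t 1 6 1 = true :=
  ⟨(b (a (l 2) (a (a (l 2) (l 16777168)) (l 16777168))) (a (a (l 2) (a (l 2) (a (l 2) (c (l 16776760) (l 16776744))))) (a (c (a (l 16777200) (l 16777200)) (a (l 16777200) (l 16777200))) (c (l 16777200) (l 16777200))))), by decide +kernel⟩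

def k2_pp_023 : ∃ t, chk3 f_pp_023 t 1 14 1 = true :=
  ⟨(a (a (l 2) (a (b (a (l 2) (a (l 2) (c (c (l 16342840) (l 301820912791)) (l 287862410119)))) (b (a (l 2) (c (a (l 16327480) (l 16400216)) (c (a (l 16301056) (l 16415944)) (l 16368048)))) (a (a (l 16507152) (a (l 16371880) (a (l 16309616) (a (l 16309672) (l 16314696))))) (a (l 16363568) (c (l 16458712) (l 16434736)))))) (a (c (b (a (c (l 16466504) (l 16485024)) (l 16666864)) (a (b (l 16501576) (l 16565968)) (l 16675272))) (b (a (l 16501216) (l 16667912)) (a (l 16555528) (l 16685728)))) (c (c (l 16776896) (l 16776904)) (l 16776888))))) (a (c (a (l 16777216) (l 16777216)) (a (l 16777216) (l 16777216))) (a (b (l 16777216) (c (l 16722304) (l 16594544))) (b (a (l 16767392) (l 16659792)) (b (l 16491152) (l 16147904)))))), by decide +kernel⟩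

def k3_pp_023 : ∃ t, chk3 f_pp_023 t 1 30 1 = true :=
  ⟨(a (a (a (l 2) (a (b (l 2) (a (c (l 16230984) (l 16212480)) (c (l 16447992) (l 16439352)))) (a (a (c (l 16726864) (l 16725088)) (l 16765600)) (c (l 16713056) (l 16710800))))) (a (a (a (a (l 16616088) (l 16535760)) (a (l 16445264) (a (l 16379552) (a (l 16370552) (l 16368776))))) (l 16453712)) (a (c (a (b (l 16588248) (l 16609440)) (l 16700560)) (a (l 16579792) (l 16702968))) (c (l 16776992) (l 16777008))))) (a (a (c (l 16777216) (l 16777216)) (a (l 16775624) (b (l 16775208) (l 16671544)))) (a (a (b (l 16671912) (l 16404552)) (l 15980496)) (b (a (l 16055944) (l 15673648)) (a (l 15676448) (l 15134176)))))), by decide +kernel⟩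

def k4_pp_023 : ∃ t, chk3 f_pp_023 t 1 31 1 = true :=
  ⟨(a (a (a (a (l 3) (a (l 3) (a (a (b (c (l 16064088) (l 16038896)) (l 3)) (c (b (l 16127328) (l 16142720)) (b (l 16104024) (l 16120208)))) (c (c (b (l 16167264) (l 16130976)) (b (l 16156008) (l 16161840))) (c (b (l 16145168) (l 16151104)) (b (l 16134176) (l 16140208))))))) (a (b (a (c (l 16226640) (l 16208728)) (c (l 16456912) (l 16448584))) (a (a (a (c (l 16216224) (l 16196464)) (l 16251112)) (a (l 16307104) (l 16369512))) (c (l 16488032) (l 16480064)))) (a (a (c (l 16758960) (b (l 16749640) (l 16766216))) (l 16743272)) (c (l 16771224) (l 16771016))))) (a (a (a (c (l 16670944) (l 16667216)) (a (l 16544528) (a (l 16474304) (b (l 16365952) (l 16321896))))) (l 16508936)) (a (c (l 16675608) (l 16672040)) (c (l 16777024) (l 16777032))))) (a (a (a (c (l 16770472) (l 16770240)) (b (l 16772552) (a (l 16703360) (l 16593712)))) (a (b (a (l 16722240) (l 16622504)) (l 16207240)) (b (l 16368184) (l 16004880)))) (a (b (a (l 16042592) (l 15655072))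 (a (l 15522760) (b (l 15259672) (a (l 15072216) (l 14709584))))) (b (a (l 15068288) (c (b (a (l 14887216) (l 14655584)) (a (l 14641784) (c (l 14488120) (l 14463448)))) (l 14608936))) (a (c (b (a (l 14836888) (l 14623328)) (a (l 14600632) (c (l 14253880) (l 14430408)))) (l 14432992)) (c (b (a (c (l 14456856) (l 14448832)) (c (l 14358024) (b (l 14338872) (l 14271704)))) (a (c (l 14339712) (b (l 14325664) (l 14255344))) (l 14177200))) (b (l 14110136) (a (l 14141072) (c (b (l 14143544) (l 14073000)) (l 14049712)))))))))), by decide +kernel⟩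

theorem s5_pp_023 : ∃ t, chk3 f_pp_023 t 1 15 1 = true := ex3_b k3_pp_023 k4_pp_023

theorem s6_pp_023 : ∃ t, chk3 f_pp_023 t 1 7 1 = true := ex3_b k2_pp_023 s5_pp_023

theorem s7_pp_023 : ∃ t, chk3 f_pp_023 t 1 3 1 = true := ex3_b k1_pp_023 s6_pp_023

theorem s8_pp_023 : ∃ t, chk3 f_pp_023 t 1 1 1 = true := ex3_b k0_pp_023 s7_pp_023

theorem c_pp_023 : CertNX 0 536870912 0 1230186008 1046898278 26843546 3 false true true .up 0 2 3
    ndN0q0 ndN5q3 pcN2 Cut.none Ext.none :=
  certNX2 (fam := false) (s1 := true) (s2 := true) (a := 0) (b := 2) (c := 3) (cn := .up) (n1 := ndN0q0) (n2 := ndN5q3) (pc := pcN2) (cut := Cut.none) (xt := Ext.none) (P1 := 0) (W1 := 536870912) (P2 := 0) (W2 := 1230186008) (P3 := 1046898278) (W3 := 26843546) (N0 := 3)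
    rfl (fun _ => rfl) s8_pp_023

noncomputable def f_pp_033 : ℕ → ℕ → ℕ → ℕ → Bool := onCell 0 536870912 0 1230186008 1046898278 26843546
    (rowNX 3 0 false true true .pnn 0 3 3 (qsf 0 536870912 0 1230186008 3) ndN0q0 ndN5q3 pcN3 Cut.none Ext.none)

def k0_pp_033 : ∃ t, chk3 f_pp_033 t 1 2 1 = true :=
  ⟨(b (a (l 4) (a (a (c (l 16754832) (l 16743304)) (b (l 16759448) (l 16753712))) (a (l 16746096) (l 16746096)))) (b (a (a (l 4) (a (l 4) (c (l 16327048) (a (l 16413960) (l 16669968))))) (a (a (c (l 16713816) (l 16692592)) (l 16705992)) (a (l 16705992) (l 16705992)))) (a (a (a (l 4) (a (l 4) (b (l 4) (b (l 4) (l 15353784))))) (a (c (c (l 15968472) (l 15949840)) (c (l 15931264) (l 15912456))) (a (b (l 16429856) (l 16484352)) (l 16708352)))) (a (a (b (l 16701296) (l 16763048)) (l 16730136)) (l 16730136))))), by decide +kernel⟩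

def k1_pp_033 : ∃ t, chk3 f_pp_033 t 1 3 1 = true :=
  ⟨(b (b (a (a (a (a (b (l 4) (c (c (l 14184808) (l 14149752)) (c (a (l 14034528) (l 14165632)) (a (l 13750928) (l 14127384))))) (c (c (a (l 14407616) (l 14534328)) (a (l 14724954679) (l 14475624))) (c (l 14370848) (l 14329016)))) (c (a (a (l 14626576) (l 14919736)) (l 15315728)) (a (b (l 14707816) (l 14707752)) (b (l 15329416) (l 15329352))))) (a (b (c (l 15993480) (l 15965864)) (a (l 15794872) (l 16158112))) (a (l 16496656) (l 16754136)))) (a (a (l 16777168) (l 16777168)) (l 16777168))) (a (a (a (c (a (b (l 14169808) (l 14169840)) (b (a (c (l 14407632) (l 14371320)) (l 14526864)) (a (c (l 14407656) (l 14371352)) (l 14526896)))) (a (b (a (c (l 14034568) (l 13981656)) (l 14012624)) (a (c (l 14034608) (l 13981696)) (l 13928776))) (b (l 14350944) (l 14350976)))) (a (b (a (l 14589264) (l 14887008)) (l 14609592)) (b (l 15353976) (l 15354008)))) (a (a (l 15794936) (l 16158168)) (l 16627936))) (a (l 16777200) (l 1)))) (a (a (a (a (b (b (c (l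 14169840) (a (c (l 14034608) (l 13981696)) (l 14117520))) (c (l 14169840) (a (c (l 14034608) (l 13981696)) (l 14117520)))) (c (b (l 14169840) (l 14169840)) (a (c (l 14034608) (b (l 13981696) (a (l 13948408) (l 14007128)))) (c (b (l 14165704) (l 14123768)) (l 14127464))))) (b (c (a (c (l 14407656) (l 14371352)) (l 14401064)) (l 14350976)) (a (c (c (l 14239888) (b (l 14371352) (l 14371352))) (l 14284544)) (c (b (l 14526896) (l 14526896)) (l 14415232))))) (b (a (a (l 14589296) (l 14887040)) (l 15354008)) (a (c (a (l 14626616) (l 14919768)) (b (l 14707832) (l 14707832))) (b (l 15354008) (l 1))))) (b (a (l 15916744) (a (l 16496704) (l 16754176))) (a (b (l 73045900039) (l 1)) (l 1)))) (l 1))), by decide +kernel⟩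

theorem s2_pp_033 : ∃ t, chk3 f_pp_033 t 1 1 1 = true := ex3_b k0_pp_033 k1_pp_033

theorem c_pp_033 : CertNX 0 536870912 0 1230186008 1046898278 26843546 3 false true true .pnn 0 3 3
    ndN0q0 ndN5q3 pcN3 Cut.none Ext.none :=
  certNX0 (fam := false) (s1 := true) (s2 := true) (a := 0) (b := 3) (c := 3) (cn := .pnn) (n1 := ndN0q0) (n2 := ndN5q3) (pc := pcN3) (cut := Cut.none) (xt := Ext.none) (P1 := 0) (W1 := 536870912) (P2 := 0) (W2 := 1230186008) (P3 := 1046898278) (W3 := 26843546) (N0 := 3)
    rfl s2_pp_033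

noncomputable def f_pp_101 : ℕ → ℕ → ℕ → ℕ → Bool := onCell 0 536870912 536870912 469762048 1046898278 26843546
    (rowNX 3 2 false true true .npn 1 0 1 (qsf 536870912 536870912 536870912 469762048 0) ndN0q1 ndN5q1 pcN0 Cut.none Ext.none)

def k0_pp_101 : ∃ t, chk3 f_pp_101 t 1 1 1 = true :=
  ⟨(l 3), by decide +kernel⟩

theorem c_pp_101 : CertNX 536870912 536870912 536870912 469762048 1046898278 26843546 3 false true true .npn 1 0 1
    ndN0q1 ndN5q1 pcN0 Cut.none Ext.none :=
  certNX2 (fam := false) (s1 := true) (s2 := true) (a := 1) (b := 0) (c := 1) (cn := .npn) (n1 := ndN0q1) (n2 := ndN5q1) (pc := pcN0) (cut := Cut.none) (xt := Ext.none) (P1 := 536870912) (W1 := 536870912) (P2 := 536870912) (W2 := 469762048) (P3 := 1046898278) (W3 := 26843546) (N0 := 3)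
    rfl (fun _ => rfl) k0_pp_101

noncomputable def f_pp_102 : ℕ → ℕ → ℕ → ℕ → Bool := onCell 536870912 536870912 0 536870912 1046898278 26843546
    (rowNX 3 1 false true true .npp 1 0 2 (qsf 536870912 536870912 1073741824 536870912 0) ndN0q1 ndN5q2 pcN0 Cut.none Ext.none)

def k0_pp_102 : ∃ t, chk3 f_pp_102 t 1 1 1 = true :=
  ⟨(l 3), by decide +kernel⟩

theorem c_pp_102 : CertNX 536870912 536870912 1073741824 536870912 1046898278 26843546 3 false true true .npp 1 0 2
    ndN0q1 ndN5q2 pcN0 Cut.none Ext.none :=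
  certNX1 (fam := false) (s1 := true) (s2 := true) (a := 1) (b := 0) (c := 2) (cn := .npp) (n1 := ndN0q1) (n2 := ndN5q2) (pc := pcN0) (cut := Cut.none) (xt := Ext.none) (P1 := 536870912) (W1 := 536870912) (P2 := 1073741824) (W2 := 536870912) (P3 := 1046898278) (W3 := 26843546) (N0 := 3)
    rfl (fun _ => rfl) k0_pp_102

noncomputable def f_pp_112 : ℕ → ℕ → ℕ → ℕ → Bool := onCell 536870912 536870912 1073741824 536870912 1046898278 26843546
    (rowNX 3 0 false true true .dn 1 1 2 (qsf 536870912 536870912 1073741824 536870912 1) ndN0q1 ndN5q2 pcN1 Cut.none Ext.none)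

def k0_pp_112 : ∃ t, chk3 f_pp_112 t 1 1 1 = true :=
  ⟨(a (l 3) (l 3)), by decide +kernel⟩

theorem c_pp_112 : CertNX 536870912 536870912 1073741824 536870912 1046898278 26843546 3 false true true .dn 1 1 2
    ndN0q1 ndN5q2 pcN1 Cut.none Ext.none :=
  certNX0 (fam := false) (s1 := true) (s2 := true) (a := 1) (b := 1) (c := 2) (cn := .dn) (n1 := ndN0q1) (n2 := ndN5q2) (pc := pcN1) (cut := Cut.none) (xt := Ext.none) (P1 := 536870912) (W1 := 536870912) (P2 := 1073741824) (W2 := 536870912) (P3 := 1046898278) (W3 := 26843546) (N0 := 3)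
    rfl k0_pp_112

noncomputable def cut_pp_113 : Cut := Cut.of [[⟨0, 1, 0, 67108864⟩, ⟨1, 1, 0, 67108864⟩, ⟨2, 2, 0, 67108864⟩, ⟨3, 0, 0, 1233125376⟩]]

noncomputable def f_pp_113 : ℕ → ℕ → ℕ → ℕ → Bool := onCell 536870912 536870912 0 1230186008 1046898278 26843546
    (rowNX 3 2 false true true .nn 1 1 3 (qsf 536870912 536870912 0 1230186008 1) ndN0q1 ndN5q3 pcN1 cut_pp_113 Ext.none)

def k0_pp_113 : ∃ t, chk3 f_pp_113 t 1 1 1 = true :=
  ⟨(b (a (l 2) (a (l 2) (b (a (l 2) (a (l 2) (l 6))) (l 3)))) (a (b (l 3) (b (l 3) (l 3))) (b (a (l 3) (l 3)) (l 3)))), by decide +kernel⟩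

theorem c_pp_113 : CertNX 536870912 536870912 0 1230186008 1046898278 26843546 3 false true true .nn 1 1 3
    ndN0q1 ndN5q3 pcN1 cut_pp_113 Ext.none :=
  certNX2 (fam := false) (s1 := true) (s2 := true) (a := 1) (b := 1) (c := 3) (cn := .nn) (n1 := ndN0q1) (n2 := ndN5q3) (pc := pcN1) (cut := cut_pp_113) (xt := Ext.none) (P1 := 536870912) (W1 := 536870912) (P2 := 0) (W2 := 1230186008) (P3 := 1046898278) (W3 := 26843546) (N0 := 3)
    rfl (fun _ => rfl) k0_pp_113

noncomputable def cut_pp_123 : Cut := Cut.of [[⟨0, 1, 0, 67108864⟩, ⟨1, 1, 0, 67108864⟩, ⟨2, 2, 0, 67108864⟩, ⟨3, 0, 0, 1233125376⟩]]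

noncomputable def f_pp_123 : ℕ → ℕ → ℕ → ℕ → Bool := onCell 1073741824 536870912 0 1230186008 1046898278 26843546
    (rowNX 3 2 false true true .npn 1 2 3 (qsf 536870912 536870912 0 1230186008 2) ndN0q1 ndN5q3 pcN2 cut_pp_123 Ext.none)

def k0_pp_123 : ∃ t, chk3 f_pp_123 t 8 4 1 = true :=
  ⟨(a (l 6) (b (a (l 6) (a (c (b (l 16303640) (a (l 6) (b (l 16405416) (l 6)))) (b (l 16453384) (l 16355416))) (b (c (l 16127344) (l 16253768)) (c (b (l 16267264) (b (l 16255032) (l 16247120))) (l 16226272))))) (b (a (l 6) (c (c (a (c (l 16312288) (a (l 16329408) (l 16261984))) (c (a (l 16270056) (l 16207504)) (l 16232984))) (a (c (l 16123512) (b (l 16308136) (l 16188640))) (l 16174336))) (a (c (l 16195632) (l 16132720)) (l 16076664)))) (a (a (b (l 6) (c (c (l 16154576) (c (l 16056336) (l 15997312))) (a (l 15854088) (l 15890568)))) (c (c (b (l 16251376) (l 16129288)) (c (b (l 16163744) (l 16049488)) (l 15850000))) (c (b (a (l 16077856) (l 16079352)) (a (l 15957224) (l 15973992))) (l 15778248)))) (c (a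 (c (c (l 16159976) (b (l 16157312) (l 16063232))) (c (l 16047648) (b (l 16089072) (l 15999224)))) (c (c (a (l 16103168) (l 16060424)) (l 16048576)) (c (l 16024560) (b (l 16032056) (l 15960336))))) (a (c (b (l 16045432) (l 15983840)) (l 15937304)) (l 15930648))))))), by decide +kernel⟩

def k1_pp_123 : ∃ t, chk3 f_pp_123 t 32 5 1 = true :=
  ⟨(b (b (l 6) (l 3)) (l 3)), by decide +kernel⟩

def k2_pp_123 : ∃ t, chk3 f_pp_123 t 132 5 1 = true :=
  ⟨(a (b (b (l 6) (c (a (b (b (b (l 6) (c (l 15651328) (c (l 15581424) (c (l 15537408) (l 15484488))))) (l 3)) (l 3)) (b (c (b (c (l 15710664) (l 15660592)) (c (l 15661392) (l 15620168))) (c (c (l 15610664) (b (a (l 15599408) (l 15609728)) (l 15571872))) (b (c (a (l 15554280) (l 15557904)) (l 15507856)) (c (l 15529128) (l 15482520))))) (a (l 3) (b (c (l 15611376) (c (l 15563464) (l 15489528))) (l 3))))) (b (c (l 15400160) (l 15270296)) (l 337856675143)))) (l 3)) (b (b (a (l 6) (b (l 6) (c (c (l 15814056) (c (c (l 15737368) (l 15688304)) (l 15621040)))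 (l 15424272)))) (c (a (c (b (c (b (c (l 15745136) (l 15719104)) (l 15683240)) (l 15665864)) (b (l 15692416) (l 15603544))) (c (b (a (c (l 15630384) (b (c (l 15629928) (l 15605352)) (l 15585240))) (c (l 15642488) (l 15604376))) (c (l 15583464) (b (l 15562896) (l 15547456)))) (b (c (a (c (l 15559136) (l 15534480)) (c (l 15563016) (l 15543248))) (l 15514536)) (c (b (l 15516096) (l 15503272)) (l 15479824))))) (c (b (c (b (l 15753128) (l 15706688)) (l 15689192)) (b (l 15654376) (l 15627744))) (c (c (c (b (l 15665048) (l 15611336)) (b (a (l 15645824) (l 15650152)) (l 15596368))) (b (a (l 15606848) (b (l 15628072) (l 15595168))) (l 15644648))) (b (c (l 15565824) (l 15534432)) (l 15511560))))) (b (c (l 15445216) (l 15323800)) (l 15382168)))) (b (a (l 3) (b (c (c (l 15597680) (c (b (c (l 15578624) (l 15539768)) (l 3)) (l 15491208))) (l 15398000)) (l 3))) (l 3)))), by decide +kernel⟩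

def k3_pp_123 : ∃ t, chk3 f_pp_123 t 133 10 1 = true :=
  ⟨(b (b (l 6) (b (l 6) (c (c (c (a (l 15839176) (l 15871264)) (a (c (l 15799952) (a (l 15763696) (l 15775696))) (c (a (l 15822640) (l 15830680)) (a (l 15782296) (l 15787696))))) (c (a (c (a (l 15724048) (l 15730416)) (l 15683688)) (a (l 15721704) (l 15733912))) (l 15642088))) (a (l 15448096) (l 15487640))))) (c (c (c (b (a (l 15757768) (l 15799776)) (a (l 15688376) (b (l 15747312) (l 15720944)))) (a (a (b (a (l 15706800) (l 15716864)) (c (l 15659288) (c (l 15649824) (l 15641032)))) (c (l 15706544) (b (l 15715032) (c (l 15669192) (l 15651552))))) (c (b (l 15867560) (b (l 15716816) (l 15693192))) (a (l 15687880) (a (l 15690952) (l 15694144)))))) (c (b (a (c (a (c (l 15678048) (l 15652832)) (l 15670952)) (a (c (l 15627384) (l 15607120)) (l 15632120))) (l 15670848)) (a (a (c (l 15612576) (c (l 15577448) (l 15559968))) (c (c (l 15627800) (l 15605232)) (l 15582680))) (b (l 15630008) (l 15611968)))) (b (l 15592512) (l 15554000)))) (c (b (a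 (l 15484824) (l 15516752)) (a (l 15467448) (l 15501408))) (b (l 15397216) (l 15397672))))), by decide +kernel⟩

def k4_pp_123 : ∃ t, chk3 f_pp_123 t 133 11 1 = true :=
  ⟨(b (a (c (a (b (c (b (l 15629560) (l 15609048)) (c (c (l 15579816) (b (l 15547432) (l 15534040))) (l 15508776))) (a (l 3) (c (l 15594800) (l 15523128)))) (c (c (l 15632408) (c (l 15623192) (b (b (l 15631240) (l 15614560)) (l 15640080)))) (c (c (b (l 15583208) (l 15562088)) (l 15541528)) (l 15516384)))) (b (l 15426312) (l 15434984))) (c (c (c (b (l 15683696) (l 15650424)) (a (c (b (c (l 15664104) (l 15655160)) (l 15631200)) (l 15611664)) (b (b (l 15660872) (c (l 15660000) (l 15622096))) (c (l 15640504) (l 15603720))))) (c (a (c (b (a (l 15608256) (l 15592504)) (l 15568064)) (l 15556848)) (l 15579896)) (l 15538896))) (b (l 15464328) (l 15468384)))) (b (c (a (l 3) (a (b (c (l 360943003831) (l 15543016)) (l 3)) (c (c (l 15645448) (c (l 15628984) (l 15594224))) (l 15556536)))) (l 15469280)) (l 3))), by decide +kernel⟩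

def k5_pp_123 : ∃ t, chk3 f_pp_123 t 67 10 1 = true :=
  ⟨(b (b (a (l 6) (c (c (a (l 16021360) (l 16027408)) (l 15881576)) (c (l 15749888) (l 15633312)))) (c (c (a (b (c (a (l 15949112) (l 15959336)) (l 15879088)) (a (a (b (l 15865424) (c (l 15877464) (l 15804448))) (l 15861368)) (l 15872504))) (l 15913376)) (a (l 15748272) (l 15785504))) (a (c (c (l 15643256) (l 15581128)) (l 15495816)) (l 15615472)))) (c (c (c (a (b (a (c (l 15841336) (b (l 15832272) (l 15794856))) (c (l 15857320) (l 15884872))) (a (c (l 15775856) (l 15750960)) (c (l 15793992) (l 15760640)))) (b (l 15857752) (a (c (l 15801504) (l 15774368)) (l 15803032)))) (a (b (a (c (l 15775696) (l 15741304)) (l 15839136)) (a (c (l 15716184) (l 15684352)) (l 15719440))) (l 15771304))) (a (b (l 15677640) (l 15634192)) (l 15778936))) (a (c (b (l 15561944) (l 15541568)) (l 15461472)) (b (l 15573104) (l 15562264))))), by decide +kernel⟩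

def k6_pp_123 : ∃ t, chk3 f_pp_123 t 67 11 1 = true :=
  ⟨(c (c (b (a (a (c (b (l 15757400) (c (l 15692296) (c (l 15703816) (l 15669768)))) (b (l 15660160) (c (c (l 15651776) (l 15634080)) (l 15679168)))) (c (b (c (l 15747120) (l 15714712)) (l 15698072)) (l 15744104))) (c (a (b (l 15804968) (l 15706296)) (l 15735784)) (l 15691136))) (a (c (b (a (c (l 15674648) (a (l 15659040) (l 15663584))) (c (l 15672792) (l 15558544))) (a (a (l 15670952) (a (l 15638600) (l 15620880))) (b (a (l 15678144) (l 15679280)) (a (l 15692768) (l 15692024))))) (b (a (c (l 15567624) (l 15605656)) (l 15634616)) (a (a (l 15607936) (a (l 15630616) (l 15633696))) (b (l 15638344) (l 15654360))))) (b (c (l 15674400) (l 15666896)) (c (a (c (a (l 15696216) (b (l 15693312) (l 15701584))) (l 15614920)) (l 15701288)) (l 15672840))))) (b (b (a (l 15608704) (l 15650600)) (l 15615672)) (b (l 15609944) (a (l 15608408) (l 15647656))))) (b (b (a (l 15507288) (l 15558640)) (a (l 15515192) (l 15560576))) (b (a (l 15528352) (l 15573024))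 (a (l 15564168) (l 15607680))))), by decide +kernel⟩

def k7_pp_123 : ∃ t, chk3 f_pp_123 t 17 10 1 = true :=
  ⟨(a (c (c (b (a (a (l 16083576) (l 15987256)) (l 15984088)) (a (a (l 15825368) (l 15846840)) (b (l 15885760) (l 15844152)))) (b (a (a (b (l 15904896) (l 15813528)) (b (l 15921808) (l 15838360))) (c (l 15913576) (l 15878824))) (a (a (l 15726936) (b (l 15776800) (l 15743024))) (a (b (l 15799456) (l 15764400)) (l 15798048))))) (b (a (b (a (l 15745584) (l 15786264)) (a (l 15665896) (l 15713848))) (c (a (l 15813016) (l 15838312)) (l 15767480))) (a (b (a (l 15625264) (l 15667520)) (l 15637760)) (c (b (l 15751040) (l 15724976)) (l 15699824))))) (c (b (c (a (l 15982408) (c (l 15931392) (l 15902800))) (a (c (l 15913136) (l 15886096)) (c (l 15882680) (b (l 15900816) (l 15845136))))) (c (a (l 15856880) (c (l 15841816) (l 15826056))) (a (l 15811360) (c (l 15816272) (l 15800400))))) (b (a (c (b (l 15903168) (l 15833464)) (l 15815880)) (c (a (l 15874000) (l 15868984)) (l 15796840))) (a (c (b (l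 15785256) (l 15760536)) (l 15752408)) (c (b (l 15810584) (l 15790096)) (l 15786376)))))), by decide +kernel⟩

def k8_pp_123 : ∃ t, chk3 f_pp_123 t 17 11 1 = true :=
  ⟨(c (a (b (a (a (b (a (l 15715672) (l 15731064)) (a (l 15690616) (l 15707208))) (b (l 15757536) (l 15736632))) (b (c (l 15812000) (l 15753152)) (l 15775160))) (a (a (b (l 15687384) (l 15693000)) (b (l 15665720) (l 15728648))) (b (c (l 15790592) (l 15747160)) (a (l 15758808) (l 15779096))))) (b (a (b (c (l 15821928) (l 15786896)) (a (l 15785952) (l 15792920))) (c (b (l 15809736) (l 15805984)) (b (l 15795424) (l 15792592)))) (a (b (l 15793064) (l 15797816)) (a (l 15795648) (l 15804712))))) (a (b (a (a (b (l 15606528) (l 15604504)) (l 15652968)) (b (a (l 15696632) (l 15715648)) (l 15713024))) (a (a (b (l 15611648) (l 15632160)) (b (l 15663824) (l 15670824))) (b (l 15717760) (l 15717144)))) (b (a (c (b (l 15761904) (l 15747144)) (b (l 15749160) (l 15742392))) (b (c (l 15774072) (l 15784328)) (c (l 15784320) (l 15779976)))) (a (b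 (l 15754848) (l 15754456)) (c (b (l 15764088) (l 15754536)) (l 15758912)))))), by decide +kernel⟩

def k9_pp_123 : ∃ t, chk3 f_pp_123 t 9 4 1 = true :=
  ⟨(a (b (c (a (b (a (l 16118912) (l 15986144)) (a (l 16135272) (l 16024656))) (b (a (l 15819112) (l 15619160)) (a (l 15879744) (l 15701984)))) (a (b (a (l 16094376) (l 15956976)) (a (l 16107680) (l 15993544))) (b (a (l 15784112) (l 15577160)) (a (l 15843656) (l 15659752))))) (a (a (c (c (b (c (l 16144544) (l 16134216)) (c (l 16039536) (a (l 16017248) (l 16009344)))) (b (l 16099840) (l 15970520))) (b (l 16013488) (l 15908664))) (c (b (l 16043512) (c (c (l 15988784) (l 15973152)) (l 15940000))) (b (l 15950472) (l 15890256)))) (c (b (c (l 15857536) (l 15842576)) (c (l 15860544) (l 15820944))) (b (c (l 15799192) (l 15768736)) (a (l 15829064) (l 15727936)))))) (b (a (a (c (b (l 15387040) (l 15491712)) (b (l 15336920) (l 15442184))) (b (c (l 15115240) (l 15054744)) (c (l 15227032) (l 15168304)))) (c (b (a (l 14857416) (l 14674848)) (a (l 14948448)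 (l 14683896))) (b (a (l 14788120) (l 14598320)) (a (l 14880672) (l 14607768))))) (a (c (a (b (c (l 15591440) (l 15571800)) (c (l 15650488) (l 15614552))) (b (l 15327504) (l 15397608))) (a (b (l 15522760) (l 15587624)) (b (l 15269312) (l 15359512)))) (c (b (l 14921792) (c (l 15069128) (l 15032296))) (b (l 14859552) (l 15008408)))))), by decide +kernel⟩

def k10_pp_123 : ∃ t, chk3 f_pp_123 t 18 10 1 = true :=
  ⟨(c (a (b (a (c (c (l 15906912) (l 15892800)) (c (l 15867376) (b (l 15890616) (l 15857560)))) (c (c (l 15911320) (l 15847128)) (c (l 15858608) (l 15880352)))) (c (a (l 15847936) (b (l 15873168) (l 15876752))) (a (c (l 15831432) (b (l 15834840) (l 15823280))) (c (b (l 15879848) (l 15867800)) (b (l 15869208) (l 15876296)))))) (b (a (c (c (l 15742616) (l 15870760)) (l 15851624)) (l 15785552)) (a (c (c (b (l 15864248) (l 15876720)) (b (l 15876008) (l 15880088))) (c (b (l 15867592) (l 15886552)) (l 15875104))) (c (c (b (l 15846416) (l 15893816)) (b (l 15832936) (l 15895032))) (l 15854304)))))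 (a (b (a (l 15831328) (l 15853320)) (c (a (c (a (l 15682504) (b (l 15840168) (l 15854752))) (l 15802632)) (b (l 15864264) (a (c (l 15872792) (l 15863968)) (l 15864424)))) (l 15845440))) (b (a (l 15832400) (l 15771680)) (a (l 15865856) (l 15839432))))), by decide +kernel⟩

def k11_pp_123 : ∃ t, chk3 f_pp_123 t 18 11 1 = true :=
  ⟨(a (b (c (c (a (l 15855736) (l 15937960)) (a (b (l 15838056) (l 15855888)) (b (c (l 15883472) (l 15887448)) (l 15945440)))) (a (c (b (c (l 15829248) (l 15737888)) (c (l 15836176) (l 15838248))) (b (l 15856224) (l 15861960))) (c (b (c (c (l 15893824) (l 15892024)) (l 15887152)) (a (l 15865048) (c (l 15972632) (l 16015152)))) (l 15924752)))) (c (a (b (l 15867168) (l 15881504)) (c (l 15999008) (l 15985904))) (a (c (b (l 15826616) (l 15657648)) (b (l 15843200) (l 15842848))) (c (b (c (l 15950536) (l 15961856)) (c (l 15987712) (l 15948376))) (c (l 15971192) (l 15967920)))))) (c (b (a (c (b (l 15938680) (l 16024176)) (c (l 15854648) (b (l 15946816) (l 16015440)))) (c (c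 (l 16004816) (l 15801600)) (c (b (l 15971904) (l 16056840)) (b (l 15961944) (l 16061992))))) (c (l 16073800) (a (c (l 16075624) (l 16056992)) (c (l 16115544) (b (l 16102448) (l 16133680)))))) (b (c (a (b (l 15935480) (c (c (l 16022336) (l 16014000)) (l 16014256))) (l 16008840)) (l 15994280)) (c (a (c (b (c (l 16042160) (l 16047872)) (l 16064976)) (b (l 16067488) (a (l 16075824) (l 16139056)))) (c (b (c (l 16103472) (l 16095784)) (c (l 16144336) (l 16150016))) (b (l 16092464) (l 16129240)))) (b (l 16064304) (a (l 16111000) (l 16131632))))))), by decide +kernel⟩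

def k12_pp_123 : ∃ t, chk3 f_pp_123 t 19 5 1 = true :=
  ⟨(b (a (a (c (b (c (l 15693880) (l 15683048)) (c (a (c (l 15862680) (l 15840152)) (l 15819120)) (l 15818416))) (b (l 15441824) (l 15803056))) (c (b (l 15507672) (l 15694848)) (b (l 15489864) (l 15672752)))) (c (b (l 15217664) (l 15431568)) (b (l 15202880) (l 15417928)))) (c (a (a (b (c (c (a (l 16013512) (b (l 15966640) (l 16050920))) (a (l 16030416) (b (l 15952248) (l 16069672)))) (c (a (l 16032736) (l 16005936)) (l 16010472))) (c (b (c (l 16131408) (l 16068552)) (l 16195064)) (a (c (l 16146416) (l 16101160)) (c (b (l 16134520) (l 16181440)) (b (l 16116104) (l 16198544)))))) (b (c (c (l 15858048) (l 15915168)) (l 15896056)) (c (c (l 16034536) (l 16047560)) (c (l 15937864) (b (l 16000640) (l 16083504)))))) (b (c (c (l 15630496) (l 15637040)) (l 15630184)) (c (c (b (l 15783176) (l 15841560)) (b (l 15763520) (l 15852784))) (b (l 15743824) (c (l 15835112) (l 15815736)))))) (a (a (b (l 15983304) (a (b (l 16108896) (c (c (l 16191088) (l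 16169320)) (l 16161440))) (l 16138544))) (b (l 15889744) (l 16022568))) (b (l 15616128) (l 15759232))))), by decide +kernel⟩

def k13_pp_123 : ∃ t, chk3 f_pp_123 t 5 2 1 = true :=
  ⟨(a (a (b (a (b (a (b (l 14473008) (c (l 14499920) (l 14417592))) (l 14344256)) (b (c (a (l 14552480) (b (l 14390008) (l 14418288))) (a (l 14482824) (l 14235048))) (c (c (l 14668960) (l 14627152)) (l 14597144)))) (b (l 14599984) (a (c (b (l 14409896) (b (l 14533672) (l 14594888))) (b (l 14442720) (l 14469640))) (b (l 14718064) (b (l 14731024) (c (l 14782808) (l 14742832))))))) (a (b (c (b (l 14845520) (l 15071976)) (b (l 14817312) (l 15050016))) (c (b (l 15286728) (b (l 15412008) (l 15495264))) (b (l 15254792) (l 15411216)))) (b (a (c (b (l 14736880) (l 14951616)) (b (l 14704544) (l 14924600))) (b (c (l 14825528) (l 14839736)) (c (l 15061576) (l 15038192)))) (c (a (b (l 15154216) (l 15310496)) (b (l 15237984) (l 15367856))) (a (b (l 15117008) (l 15261488)) (b (l 15203504) (l 15320808))))))) (b (b (l 15368472)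 (b (l 15362144) (l 15372184))) (b (a (c (b (a (l 15060560) (l 15287144)) (a (l 15208664) (l 15368632))) (b (a (l 15038576) (l 15272464)) (l 15267472))) (b (l 15630688) (c (l 15448912) (l 15660056)))) (a (c (b (l 15439272) (l 15542848)) (b (l 15411680) (l 15501880))) (b (c (l 15754392) (l 15738320)) (c (l 15826424) (l 15795328))))))) (a (b (b (l 16196864) (l 16131448)) (b (b (l 16301672) (l 16285080)) (a (b (c (l 16136072) (l 16126232)) (c (l 16163264) (l 16143552))) (b (a (l 16409008) (l 16587080)) (c (l 16549552) (l 16543744)))))) (b (b (l 16758808) (l 16753096)) (b (l 16705416) (a (b (l 16700224) (l 16762072)) (l 16730136)))))), by decide +kernel⟩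

def k14_pp_123 : ∃ t, chk3 f_pp_123 t 3 2 1 = true :=
  ⟨(a (b (a (l 16746096) (l 16746096)) (c (b (l 16713816) (l 16731112)) (b (l 16692592) (l 16729176)))) (b (a (l 16746096) (l 16746096)) (b (l 16705992) (l 16730136)))), by decide +kernel⟩

def k15_pp_123 : ∃ t, chk3 f_pp_123 t 8 6 1 = true :=
  ⟨(b (a (a (l 3) (a (l 3) (c (c (a (b (a (a (l 3) (b (c (l 15695384) (l 15649512)) (l 3))) (c (c (l 15709568) (l 15681216)) (l 15658512))) (l 3)) (c (c (a (b (l 15660864) (l 15701808)) (l 15687736)) (b (l 15692336) (l 15692032))) (l 15681232))) (b (l 285780611287) (l 15647480))) (b (a (l 15596040) (l 15618432)) (l 15614048))))) (a (a (c (b (a (b (l 15699176) (l 15703472)) (l 15741696)) (a (b (l 15706488) (l 15707336)) (l 15757992))) (b (a (l 15651016) (l 15688312)) (a (l 15660088) (l 15713840)))) (c (b (a (c (l 15797120) (l 15756912)) (b (l 15795768) (l 15813360))) (a (l 15804024) (l 15833848))) (b (a (l 15727032) (l 15761224)) (l 15746496)))) (a (b (c (l 15829944) (l 15788592)) (c (a (l 15821168)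 (l 15860464)) (a (l 15823824) (l 15845488)))) (b (c (l 15843632) (l 15808504)) (c (l 15891152) (l 15857968)))))) (b (a (b (l 3) (l 3)) (a (c (a (a (l 15711216) (l 15772984)) (a (l 15838488) (l 15869384))) (a (a (l 15668984) (l 15731128)) (a (l 15798912) (l 15829960)))) (a (c (a (l 15898384) (l 15920552)) (a (l 15861568) (l 15886608))) (a (c (l 15936360) (l 15904936)) (l 15925960))))) (a (l 3) (a (a (c (a (l 15711184) (l 15781704)) (a (l 15668952) (l 15743072))) (c (a (l 15851624) (l 15914736)) (a (l 15814384) (l 15880104)))) (a (c (l 15954064) (l 15920624)) (c (a (l 15973680) (l 15987336)) (l 15949440))))))), by decide +kernel⟩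

def k16_pp_123 : ∃ t, chk3 f_pp_123 t 8 7 1 = true :=
  ⟨(b (a (l 3) (a (a (a (l 3) (b (c (l 15781704) (l 15743072)) (l 3))) (c (b (a (l 15865816) (l 15930824)) (c (l 15917208) (l 15898728))) (b (a (l 15831104) (l 15897888)) (l 297592191207)))) (b (a (c (a (b (l 15966968) (l 15987720)) (l 16009176)) (a (l 15963176) (l 15979792))) (c (l 16029240) (l 16001688))) (a (a (c (b (l 16002864) (l 16020232)) (l 15939688)) (b (l 16027392) (c (l 16064512) (l 16038032)))) (c (l 16074688) (l 16048984)))))) (a (l 3) (b (a (a (l 3) (b (c (l 561195848711) (l 15854216)) (l 3))) (a (c (a (b (l 16042320) (l 16056216)) (b (l 16081152) (l 16105960))) (a (b (l 16015608) (l 16030472)) (b (l 16055528) (l 16081560)))) (c (a (b (l 16103464) (l 16124456)) (l 16126432)) (a (b (l 16079072) (l 16100896)) (l 16103288))))) (a (l 3) (b (a (c (a (l 16064088) (l 16127328)) (a (l 16038896) (l 16104024))) (c (a (l 16143568) (l 16164456)) (a (l 16120832) (l 16142728)))) (l 1)))))), by decide +kernel⟩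

def k17_pp_123 : ∃ t, chk3 f_pp_123 t 18 6 1 = true :=
  ⟨(a (b (c (b (a (l 15910720) (c (l 16068224) (l 16055024))) (l 16043360)) (b (c (a (b (l 15793000) (l 15911832)) (c (b (l 16030120) (l 16061064)) (l 16033776))) (a (l 15872032) (l 15988912))) (l 16017528))) (b (l 16032856) (a (c (l 16066936) (l 16041920)) (l 16191960)))) (b (c (b (c (a (l 16189216) (l 16265648)) (a (l 16179064) (c (l 16258952) (l 16254456)))) (a (l 16205040) (c (l 16392160) (l 16384288)))) (b (a (c (b (c (l 16136960) (l 16103128)) (c (l 16191856) (l 16194088))) (b (l 16147392) (l 16191040))) (c (c (b (l 16198528) (l 16284336)) (b (a (l 16226368) (l 16283992)) (l 16003472))) (c (l 16260712) (l 16249256)))) (b (c (a (l 16228776) (c (l 16351944) (l 16363904))) (a (l 16211928) (l 16256672))) (a (l 16258784) (c (l 16400896) (l 16344288)))))) (b (b (b (l 16359384) (l 16368464)) (l 16382752)) (l 16411208)))), by decide +kernel⟩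

def k18_pp_123 : ∃ t, chk3 f_pp_123 t 38 6 1 = true :=
  ⟨(b (c (a (c (b (l 16317272) (l 16486184)) (b (c (l 16311264) (b (a (l 16250280) (l 16263616)) (l 16348352))) (b (l 16432280) (l 16519200)))) (b (c (l 16209392) (c (l 16192288) (b (l 16172232) (l 16239080)))) (b (l 16346880) (l 16432008)))) (c (c (a (b (b (a (l 16260904) (a (l 16283520) (l 16277888))) (a (l 16326288) (l 16347552))) (b (l 16427792) (l 16515256))) (b (b (c (l 16166336) (l 16154816)) (c (l 16251944) (l 16258784))) (b (l 16325648) (l 16427624)))) (a (b (a (b (l 16264752) (l 16375024)) (b (l 16260728) (c (l 16358544) (l 16295272)))) (a (b (l 16403224) (l 16495456)) (a (l 16392312) (b (l 16463152) (l 16522640))))) (b (b (l 16150776) (l 16299464)) (b (l 16311320) (l 16405592))))) (a (b (a (c (l 16321960) (l 16282472)) (l 16298648)) (a (b (l 16439128) (l 16482144)) (a (l 16457440) (b (l 16485872) (l 16537480))))) (b (l 16189448) (c (l 16401728) (l 16388336)))))) (a (b (b (c (l 16573456) (c (l 16568104) (a (l 16524744) (c (l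 16593560) (l 16602760))))) (l 16607016)) (l 16630856)) (b (c (b (l 16527352) (l 16581736)) (c (c (b (l 16522512) (l 16581832)) (l 16543336)) (b (l 16537648) (l 16564288)))) (l 16632096)))), by decide +kernel⟩

def k19_pp_123 : ∃ t, chk3 f_pp_123 t 39 6 1 = true :=
  ⟨(b (c (b (c (c (l 15955264) (l 15815216)) (c (b (l 15939576) (l 16012320)) (b (c (l 15922072) (l 15909656)) (a (l 16099424) (l 15939264))))) (c (l 16164248) (c (b (l 16087704) (l 16202584)) (b (c (l 16094840) (l 16103736)) (l 16176864))))) (c (b (b (l 15900256) (c (a (c (l 16093360) (l 16080664)) (l 15918200)) (l 15993888))) (c (b (a (c (l 16181048) (l 16188208)) (l 15973128)) (c (l 16183432) (l 15973024))) (b (l 16147760) (l 16106768)))) (b (l 15935112) (l 16056512)))) (c (b (c (l 16361896) (b (l 16293880) (l 16395416))) (b (l 16460760) (l 16493584))) (c (b (b (c (a (l 16363816) (l 16197064)) (l 16213696)) (a (c (l 16462152) (l 16466096)) (l 16097008))) (c (b (l 16459408) (a (l 16563296) (l 16459928))) (l 16452616))) (b (b (l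 16329488) (a (l 16468976) (l 16328088))) (b (c (l 16433584) (l 16451000)) (l 16478096)))))), by decide +kernel⟩

def k20_pp_123 : ∃ t, chk3 f_pp_123 t 9 7 1 = true :=
  ⟨(b (a (a (b (a (c (l 16103704) (l 16079984)) (c (l 16248864) (l 16230256))) (a (c (l 16145224) (l 16122968)) (c (l 16281240) (l 16263776)))) (b (l 16448728) (a (c (l 16426472) (l 16414120)) (l 16556224)))) (a (a (b (l 16662480) (c (l 16695528) (l 16692656))) (b (l 16676432) (l 16720832))) (b (l 16572368) (l 16641848)))) (b (a (a (c (a (l 16184760) (l 16311568)) (a (l 16163896) (l 16295176))) (a (c (l 16452712) (l 16441280)) (c (l 16596512) (l 16590152)))) (a (a (c (l 16726864) (l 16725088)) (l 16765600)) (l 64457886807))) (b (a (a (c (l 16226640) (l 16208728)) (l 1)) (l 1)) (l 1)))), by decide +kernel⟩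

def k21_pp_123 : ∃ t, chk3 f_pp_123 t 20 6 1 = true :=
  ⟨(a (b (c (b (c (c (b (l 15632912) (l 15711328)) (b (l 15611800) (l 15723112))) (b (l 15586616) (c (l 15708392) (l 15684448)))) (c (c (l 15837312) (l 15838616)) (c (b (l 15814448) (l 15889936)) (b (a (l 15881024) (l 15708616)) (a (l 15972112) (l 15831136)))))) (b (l 15608728) (c (c (b (l 15778608) (a (l 16041768) (l 15804472))) (l 15822784)) (l 15810384)))) (b (c (c (l 16038016) (c (l 16027376) (b (l 15981624) (l 16077016)))) (c (a (c (b (l 15960968) (l 16146152)) (l 16138032)) (c (b (l 15990816) (l 16047656)) (l 16015120))) (l 16052264))) (c (c (l 16268216) (b (l 16195184) (l 16300264))) (c (a (b (l 16203480) (l 16216248)) (b (l 16003728) (l 16147784))) (b (l 16210248) (l 16212288)))))) (b (c (a (b (c (c (l 15524064) (l 15498408)) (l 15481720)) (c (c (l 15692968) (l 15704944)) (c (l 15702728) (l 15671048)))) (b (l 15524144) (c (a (c (l 15696592) (l 15696352)) (l 15739904)) (l 15681440)))) (a (b (l 15447760) (l 15646936)) (b (l 15480168)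 (l 15652720)))) (c (a (b (c (l 15862088) (c (l 15859688) (b (l 15833176) (l 15907912)))) (c (l 16073952) (c (l 16064776) (l 16050600)))) (b (c (c (l 15855240) (b (l 15816288) (l 15895856))) (c (a (l 15841288) (l 15873864)) (b (l 15802776) (l 15898064)))) (c (l 16029304) (b (c (l 15977680) (l 15940080)) (l 16057768))))) (b (b (l 15786064) (c (c (a (l 15973632) (l 15761712)) (l 15882432)) (l 15870800))) (a (c (b (l 16038840) (l 16072112)) (l 16055312)) (c (a (b (c (l 15959344) (l 15995184)) (l 16046664)) (l 16034856)) (l 16012616))))))), by decide +kernel⟩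

def k22_pp_123 : ∃ t, chk3 f_pp_123 t 21 6 1 = true :=
  ⟨(b (c (a (b (l 15673096) (c (c (l 15844208) (l 15818312)) (l 15805800))) (b (l 15919968) (l 16024608))) (a (l 15603128) (l 15944472))) (c (b (a (c (c (l 15958968) (l 15966984)) (b (l 15911904) (c (l 16005760) (l 16079160)))) (c (c (l 16149416) (a (l 16095064) (l 16182256))) (l 16123656))) (a (c (l 16082664) (b (c (l 16057144) (l 16118776)) (c (l 16133200) (l 16119648)))) (c (a (l 16187200) (l 16275376)) (a (l 16207568) (l 16313152))))) (b (a (l 15926072) (l 16106520)) (c (a (c (l 16118928) (l 16113816)) (l 16251712)) (l 16133176))))), by decide +kernel⟩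

def k23_pp_123 : ∃ t, chk3 f_pp_123 t 11 6 1 = true :=
  ⟨(a (b (a (c (l 16249928) (l 16231424)) (c (l 16572080) (l 16564712))) (c (b (a (l 16348384) (l 16608728)) (a (c (l 16363272) (l 16442576)) (l 16653616))) (a (l 16367784) (l 16615768)))) (c (b (a (l 16776056) (l 16777168)) (l 16776760)) (b (l 16776640) (l 16776744)))), by decide +kernel⟩

def k24_pp_123 : ∃ t, chk3 f_pp_123 t 5 7 1 = true :=
  ⟨(b (b (a (a (a (b (c (l 16352408) (c (c (l 16351224) (l 16312128)) (l 16330568))) (l 16417488)) (a (c (b (l 16172680) (l 16267144)) (c (c (l 16113736) (l 16213368)) (b (l 16200872) (l 16236496)))) (b (c (l 16036512) (c (c (l 16133056) (l 16086448)) (l 16133952))) (a (c (l 16218128) (c (l 16203472) (l 16143192))) (c (a (l 16229456) (l 16243264)) (a (l 16143648) (c (l 16229272) (l 16220784)))))))) (c (a (b (c (l 16205664) (l 16195696)) (l 16180528)) (c (l 16342840) (b (l 16318672) (l 16338112)))) (a (c (b (l 16190992) (l 16218736)) (l 16244040)) (c (l 16332840) (l 16333248))))) (a (c (a (c (l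 16466504) (l 16485024)) (l 16666864)) (a (l 16501216) (l 16667912))) (c (l 16776896) (l 16776840)))) (a (a (a (l 16380016) (a (l 16347896) (a (l 16286680) (a (l 16290480) (b (l 16286360) (l 16314696)))))) (b (c (a (l 16327480) (l 16400216)) (c (a (l 16301056) (l 16415944)) (l 16368048))) (a (l 16363568) (l 1)))) (l 1))) (a (b (a (a (l 104185710711) (l 1)) (l 1)) (l 1)) (l 1))), by decide +kernel⟩

def k25_pp_123 : ∃ t, chk3 f_pp_123 t 3 3 1 = true :=
  ⟨(b (b (a (a (c (l 16777168) (l 16777168)) (l 16777168)) (l 16777168)) (a (c (a (l 16777200) (l 16777200)) (a (l 16777200) (l 16777200))) (l 1))) (l 1)), by decide +kernel⟩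

theorem s26_pp_123 : ∃ t, chk3 f_pp_123 t 10 6 1 = true := ex3_a k21_pp_123 k22_pp_123

theorem s27_pp_123 : ∃ t, chk3 f_pp_123 t 5 6 1 = true := ex3_a s26_pp_123 k23_pp_123

theorem s28_pp_123 : ∃ t, chk3 f_pp_123 t 5 3 1 = true := ex3_b s27_pp_123 k24_pp_123

theorem s29_pp_123 : ∃ t, chk3 f_pp_123 t 19 6 1 = true := ex3_a k18_pp_123 k19_pp_123

theorem s30_pp_123 : ∃ t, chk3 f_pp_123 t 9 6 1 = true := ex3_a k17_pp_123 s29_pp_123

theorem s31_pp_123 : ∃ t, chk3 f_pp_123 t 9 3 1 = true := ex3_b s30_pp_123 k20_pp_123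

theorem s32_pp_123 : ∃ t, chk3 f_pp_123 t 8 3 1 = true := ex3_b k15_pp_123 k16_pp_123

theorem s33_pp_123 : ∃ t, chk3 f_pp_123 t 4 3 1 = true := ex3_a s32_pp_123 s31_pp_123

theorem s34_pp_123 : ∃ t, chk3 f_pp_123 t 2 3 1 = true := ex3_a s33_pp_123 s28_pp_123

theorem s35_pp_123 : ∃ t, chk3 f_pp_123 t 1 3 1 = true := ex3_a s34_pp_123 k25_pp_123

theorem s36_pp_123 : ∃ t, chk3 f_pp_123 t 18 5 1 = true := ex3_b k10_pp_123 k11_pp_123

theorem s37_pp_123 : ∃ t, chk3 f_pp_123 t 9 5 1 = true := ex3_a s36_pp_123 k12_pp_123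

theorem s38_pp_123 : ∃ t, chk3 f_pp_123 t 9 2 1 = true := ex3_b k9_pp_123 s37_pp_123

theorem s39_pp_123 : ∃ t, chk3 f_pp_123 t 17 5 1 = true := ex3_b k7_pp_123 k8_pp_123

theorem s40_pp_123 : ∃ t, chk3 f_pp_123 t 67 5 1 = true := ex3_b k5_pp_123 k6_pp_123

theorem s41_pp_123 : ∃ t, chk3 f_pp_123 t 133 5 1 = true := ex3_b k3_pp_123 k4_pp_123

theorem s42_pp_123 : ∃ t, chk3 f_pp_123 t 66 5 1 = true := ex3_a k2_pp_123 s41_pp_123

theorem s43_pp_123 : ∃ t, chk3 f_pp_123 t 33 5 1 = true := ex3_a s42_pp_123 s40_pp_123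

theorem s44_pp_123 : ∃ t, chk3 f_pp_123 t 16 5 1 = true := ex3_a k1_pp_123 s43_pp_123

theorem s45_pp_123 : ∃ t, chk3 f_pp_123 t 8 5 1 = true := ex3_a s44_pp_123 s39_pp_123

theorem s46_pp_123 : ∃ t, chk3 f_pp_123 t 8 2 1 = true := ex3_b k0_pp_123 s45_pp_123

theorem s47_pp_123 : ∃ t, chk3 f_pp_123 t 4 2 1 = true := ex3_a s46_pp_123 s38_pp_123

theorem s48_pp_123 : ∃ t, chk3 f_pp_123 t 2 2 1 = true := ex3_a s47_pp_123 k13_pp_123

theorem s49_pp_123 : ∃ t, chk3 f_pp_123 t 1 2 1 = true := ex3_a s48_pp_123 k14_pp_123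

theorem s50_pp_123 : ∃ t, chk3 f_pp_123 t 1 1 1 = true := ex3_b s49_pp_123 s35_pp_123

theorem c_pp_123 : CertNX 536870912 536870912 0 1230186008 1046898278 26843546 3 false true true .npn 1 2 3
    ndN0q1 ndN5q3 pcN2 cut_pp_123 Ext.none :=
  certNX2 (fam := false) (s1 := true) (s2 := true) (a := 1) (b := 2) (c := 3) (cn := .npn) (n1 := ndN0q1) (n2 := ndN5q3) (pc := pcN2) (cut := cut_pp_123) (xt := Ext.none) (P1 := 536870912) (W1 := 536870912) (P2 := 0) (W2 := 1230186008) (P3 := 1046898278) (W3 := 26843546) (N0 := 3)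
    rfl (fun _ => rfl) s50_pp_123

noncomputable def f_pp_133 : ℕ → ℕ → ℕ → ℕ → Bool := onCell 536870912 536870912 0 1230186008 1046898278 26843546
    (rowNX 3 0 false true true .dn 1 3 3 (qsf 536870912 536870912 0 1230186008 3) ndN0q1 ndN5q3 pcN3 Cut.none Ext.none)

def k0_pp_133 : ∃ t, chk3 f_pp_133 t 1 1 1 = true :=
  ⟨(b (a (b (a (a (l 16745448) (l 1)) (l 1)) (l 1)) (l 1)) (l 1)), by decide +kernel⟩

theorem c_pp_133 : CertNX 536870912 536870912 0 1230186008 1046898278 26843546 3 false true true .dn 1 3 3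
    ndN0q1 ndN5q3 pcN3 Cut.none Ext.none :=
  certNX0 (fam := false) (s1 := true) (s2 := true) (a := 1) (b := 3) (c := 3) (cn := .dn) (n1 := ndN0q1) (n2 := ndN5q3) (pc := pcN3) (cut := Cut.none) (xt := Ext.none) (P1 := 536870912) (W1 := 536870912) (P2 := 0) (W2 := 1230186008) (P3 := 1046898278) (W3 := 26843546) (N0 := 3)
    rfl k0_pp_133

noncomputable def f_pp_202 : ℕ → ℕ → ℕ → ℕ → Bool := onCell 0 536870912 1073741824 536870912 1046898278 26843546
    (rowNX 3 0 false true true .pp 2 0 2 (qsf 0 536870912 1073741824 536870912 0) ndN0q2 ndN5q2 pcN0 Cut.none Ext.none)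

def k0_pp_202 : ∃ t, chk3 f_pp_202 t 1 1 1 = true :=
  ⟨(l 3), by decide +kernel⟩

theorem c_pp_202 : CertNX 0 536870912 1073741824 536870912 1046898278 26843546 3 false true true .pp 2 0 2
    ndN0q2 ndN5q2 pcN0 Cut.none Ext.none :=
  certNX0 (fam := false) (s1 := true) (s2 := true) (a := 2) (b := 0) (c := 2) (cn := .pp) (n1 := ndN0q2) (n2 := ndN5q2) (pc := pcN0) (cut := Cut.none) (xt := Ext.none) (P1 := 0) (W1 := 536870912) (P2 := 1073741824) (W2 := 536870912) (P3 := 1046898278) (W3 := 26843546) (N0 := 3)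
    rfl k0_pp_202

noncomputable def f_pp_203 : ℕ → ℕ → ℕ → ℕ → Bool := onCell 0 536870912 0 1230186008 1046898278 26843546
    (rowNX 3 0 false true true .up 2 0 3 (qsf 0 536870912 0 1230186008 0) ndN0q2 ndN5q3 pcN0 Cut.none Ext.none)

def k0_pp_203 : ∃ t, chk3 f_pp_203 t 1 1 1 = true :=
  ⟨(b (l 2) (l 3)), by decide +kernel⟩

theorem c_pp_203 : CertNX 0 536870912 0 1230186008 1046898278 26843546 3 false true true .up 2 0 3
    ndN0q2 ndN5q3 pcN0 Cut.none Ext.none :=
  certNX0 (fam := false) (s1 := true) (s2 := true) (a := 2) (b := 0) (c := 3) (cn := .up) (n1 := ndN0q2) (n2 := ndN5q3) (pc := pcN0) (cut := Cut.none) (xt := Ext.none) (P1 := 0) (W1 := 536870912) (P2 := 0) (W2 := 1230186008) (P3 := 1046898278) (W3 := 26843546) (N0 := 3)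
    rfl k0_pp_203

noncomputable def cut_pp_213 : Cut := Cut.of [[⟨0, 1, 0, 67108864⟩, ⟨1, 1, 0, 67108864⟩, ⟨2, 2, 0, 67108864⟩, ⟨3, 0, 0, 1233125376⟩]]

noncomputable def f_pp_213 : ℕ → ℕ → ℕ → ℕ → Bool := onCell 0 536870912 0 1230186008 1046898278 26843546
    (rowNX 3 0 false true true .pnn 2 1 3 (qsf 0 536870912 0 1230186008 1) ndN0q2 ndN5q3 pcN1 cut_pp_213 Ext.none)

def k0_pp_213 : ∃ t, chk3 f_pp_213 t 1 1 1 = true :=
  ⟨(b (a (l 3) (b (a (l 3) (a (l 3) (b (l 6) (l 3)))) (l 3))) (l 3)), by decide +kernel⟩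

theorem c_pp_213 : CertNX 0 536870912 0 1230186008 1046898278 26843546 3 false true true .pnn 2 1 3
    ndN0q2 ndN5q3 pcN1 cut_pp_213 Ext.none :=
  certNX0 (fam := false) (s1 := true) (s2 := true) (a := 2) (b := 1) (c := 3) (cn := .pnn) (n1 := ndN0q2) (n2 := ndN5q3) (pc := pcN1) (cut := cut_pp_213) (xt := Ext.none) (P1 := 0) (W1 := 536870912) (P2 := 0) (W2 := 1230186008) (P3 := 1046898278) (W3 := 26843546) (N0 := 3)
    rfl k0_pp_213

noncomputable def f_pm_001 : ℕ → ℕ → ℕ → ℕ → Bool := onCell 0 536870912 536870912 469762048 1046898278 26843546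
    (rowNX 3 0 false true false .up 0 0 1 (qsf 0 536870912 536870912 469762048 0) ndN0q0 ndN5q1 pcN0 Cut.none Ext.none)

def k0_pm_001 : ∃ t, chk3 f_pm_001 t 1 1 1 = true :=
  ⟨(l 4), by decide +kernel⟩

theorem c_pm_001 : CertNX 0 536870912 536870912 469762048 1046898278 26843546 3 false true false .up 0 0 1
    ndN0q0 ndN5q1 pcN0 Cut.none Ext.none :=
  certNX0 (fam := false) (s1 := true) (s2 := false) (a := 0) (b := 0) (c := 1) (cn := .up) (n1 := ndN0q0) (n2 := ndN5q1) (pc := pcN0) (cut := Cut.none) (xt := Ext.none) (P1 := 0) (W1 := 536870912) (P2 := 536870912) (W2 := 469762048) (P3 := 1046898278) (W3 := 26843546) (N0 := 3)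
    rfl k0_pm_001

noncomputable def f_pm_011 : ℕ → ℕ → ℕ → ℕ → Bool := onCell 0 536870912 536870912 469762048 1046898278 26843546
    (rowNX 3 0 false true false .pnn 0 1 1 (qsf 0 536870912 536870912 469762048 1) ndN0q0 ndN5q1 pcN1 Cut.none Ext.none)

def k0_pm_011 : ∃ t, chk3 f_pm_011 t 1 1 1 = true :=
  ⟨(l 4), by decide +kernel⟩

theorem c_pm_011 : CertNX 0 536870912 536870912 469762048 1046898278 26843546 3 false true false .pnn 0 1 1
    ndN0q0 ndN5q1 pcN1 Cut.none Ext.none :=
  certNX0 (fam := false) (s1 := true) (s2 := false) (a := 0) (b := 1) (c := 1) (cn := .pnn) (n1 := ndN0q0) (n2 := ndN5q1) (pc := pcN1) (cut := Cut.none) (xt := Ext.none) (P1 := 0) (W1 := 536870912) (P2 := 536870912) (W2 := 469762048) (P3 := 1046898278) (W3 := 26843546) (N0 := 3)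
    rfl k0_pm_011

noncomputable def f_pm_012 : ℕ → ℕ → ℕ → ℕ → Bool := onCell 0 536870912 536870912 536870912 1046898278 26843546
    (rowNX 3 1 false true false .pnp 0 1 2 (qsf 0 536870912 1073741824 536870912 1) ndN0q0 ndN5q2 pcN1 Cut.none Ext.none)

def k0_pm_012 : ∃ t, chk3 f_pm_012 t 2 2 1 = true :=
  ⟨(b (l 1) (b (l 1) (b (l 1) (l 4)))), by decide +kernel⟩

def k1_pm_012 : ∃ t, chk3 f_pm_012 t 3 4 1 = true :=
  ⟨(a (a (l 1) (b (l 1) (a (l 1) (b (l 1) (a (l 1) (l 16103896)))))) (a (b (a (l 1) (a (l 1) (b (l 1) (l 16250696)))) (b (a (a (l 1) (l 16208760)) (l 219074707447)) (c (a (l 15964064) (l 15543856)) (l 242159664183)))) (b (a (b (a (l 1) (l 16271672)) (l 15719128)) (c (l 45128132535) (l 15672112))) (a (c (b (l 15543856) (l 15157904)) (l 15296864)) (c (l 14978664) (l 14915536)))))), by decide +kernel⟩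

def k2_pm_012 : ∃ t, chk3 f_pm_012 t 3 5 1 = true :=
  ⟨(a (b (a (b (l 1) (a (l 1) (b (l 1) (c (l 16437312) (l 16498640))))) (a (b (b (l 1) (l 563746692999)) (c (a (l 16248944) (l 16040376)) (l 15956592))) (b (c (l 196526215335) (l 15902920)) (c (l 82708874743) (l 15644872))))) (a (b (a (b (l 1) (c (l 413422923543) (l 391411193239))) (a (c (b (l 16539272) (l 16479912)) (l 16341168)) (b (l 16236912) (l 16150168)))) (a (l 4) (b (a (c (l 16427752) (l 16423248)) (c (l 16167016) (l 16198408))) (a (l 4) (c (l 16070528) (l 16100992)))))) (b (a (c (a (l 16065632) (l 15798576)) (l 15695848)) (c (a (l 15541792) (l 15295816)) (l 15372912))) (a (c (a (l 15737608) (l 15614216)) (a (l 15883632) (l 15581192))) (c (a (l 15334640) (l 15068032)) (l 15149072)))))) (b (a (a (b (c (l 15498136) (l 15518664)) (c (l 15236288) (l 15183544))) (b (c (l 15164352) (l 15107864)) (c (l 14831352) (l 14763520)))) (a (b (c (l 14807624) (l 14738504)) (a (l 14529904) (b (l 14451608) (c (l 14443960) (l 14448888))))) (b (a (l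 14528464) (b (l 14451608) (c (l 14527840) (l 14448888)))) (a (b (c (l 14527840) (l 14448888)) (l 14857912)) (l 15112928))))) (a (a (b (c (l 14947664) (l 14885816)) (a (c (l 14815368) (l 14750544)) (b (l 14603464) (c (a (l 14641352) (l 14697816)) (l 14626888))))) (b (a (l 14591032) (b (l 14465320) (a (l 14431248) (l 14411640)))) (a (b (c (a (l 14538896) (l 14607048)) (l 14525424)) (l 14937160)) (c (l 14922744) (l 15096656))))) (a (b (a (b (c (l 14318128) (l 14448888)) (l 14857912)) (l 15112928)) (a (l 15522344) (l 15867864))) (b (a (l 15543320) (l 15888840)) (a (b (l 16283960) (l 16652944)) (b (l 16652944) (l 16776552)))))))), by decide +kernel⟩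

def k3_pm_012 : ∃ t, chk3 f_pm_012 t 2 3 1 = true :=
  ⟨(b (l 4) (l 4)), by decide +kernel⟩

def k4_pm_012 : ∃ t, chk3 f_pm_012 t 6 6 1 = true :=
  ⟨(a (b (b (l 4) (l 4)) (l 4)) (a (b (b (b (c (a (l 15817200) (l 15518544)) (l 15403728)) (a (c (l 220349395239) (l 15684384)) (c (l 15474360) (l 15441064)))) (a (l 4) (b (c (l 15287672) (l 15401888)) (a (l 4) (b (c (l 15439640) (l 15408864)) (l 15653872)))))) (l 4)) (a (b (b (c (b (l 15215368) (l 15155088)) (l 15136520)) (b (b (a (l 15198320) (l 15073312)) (a (l 15191624) (l 15406856))) (b (l 15602232) (l 15830992)))) (b (b (b (l 15862112) (l 15618960)) (c (l 15232832) (l 15186432))) (b (b (l 14792840) (l 4)) (l 4)))) (b (b (b (l 14898784) (b (a (l 14914040) (l 14863280)) (a (c (l 15005704) (l 14952496)) (l 15088904)))) (b (c (l 15436552) (l 15487672)) (b (l 15981048) (l 15949984)))) (b (b (l 15458032) (l 14948992)) (b (b (c (l 14554576) (l 14477632)) (l 14294696)) (l 14042880))))))), by decide +kernel⟩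

def k5_pm_012 : ∃ t, chk3 f_pm_012 t 7 12 1 = true :=
  ⟨(a (b (a (a (b (c (a (l 14787728) (l 14830160)) (l 14668328)) (l 15132536)) (b (l 15051792) (l 15575272))) (a (b (l 15443032) (l 15924344)) (b (l 15852816) (b (l 16197664) (l 16422720))))) (a (b (a (b (l 15678832) (l 16018440)) (l 15954200)) (b (l 16057752) (l 15785752))) (a (b (l 16256784) (a (l 15881264) (l 15888200))) (b (b (l 16628664) (l 16358400)) (l 15939080))))) (b (a (b (a (l 16283960) (l 16652944)) (a (l 16443904) (l 16775976))) (l 16776640)) (b (a (l 16496384) (c (l 16558696) (l 16557080))) (a (l 16012576) (a (l 16090264) (b (c (l 16275528) (l 16188856)) (a (l 15878136) (c (a (l 16174584) (l 16307232)) (l 16194728))))))))), by decide +kernel⟩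

def k6_pm_012 : ∃ t, chk3 f_pm_012 t 7 26 1 = true :=
  ⟨(a (a (b (a (l 15374664) (c (l 15304408) (l 15253632))) (a (c (l 14800968) (l 14732440)) (l 14717640))) (a (b (l 15315352) (l 14752480)) (l 15130824))) (a (l 15198184) (a (a (b (l 15653320) (c (b (a (l 15361296) (l 15428720)) (a (l 15214520) (l 15347136))) (b (l 15366848) (l 15101688)))) (b (b (a (l 15789208) (l 15814736)) (c (a (l 15639928) (l 15723464)) (l 15642888))) (b (c (a (l 15535272) (l 15702240)) (l 15562480)) (c (a (l 15658448) (c (l 15796520) (l 15801200))) (c (l 15668664) (l 15606088)))))) (a (b (b (c (l 15718408) (l 15923920)) (c (a (l 15856664) (l 16047336)) (l 15895304))) (b (c (a (c (l 15924824) (l 15923000)) (b (l 16000904) (l 15968160))) (a (l 15894744) (l 16061200))) (c (a (b (l 15878328) (a (l 15938536) (l 15991592))) (l 16022336)) (a (l 15895760) (l 16001144))))) (b (b (c (b (l 16088552) (l 15956168)) (l 16169656)) (c (c (a (l 16190120) (l 16228176)) (b (l 16205736) (l 16168408))) (a (l 16163160) (l 16207808))))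 (b (a (c (c (l 16124456) (l 16105200)) (l 16104912)) (l 16168680)) (l 16073168))))))), by decide +kernel⟩

def k7_pm_012 : ∃ t, chk3 f_pm_012 t 7 27 1 = true :=
  ⟨(a (a (b (b (l 14354936) (l 14194544)) (l 14004528)) (b (b (a (l 14318672) (l 14464088)) (l 14224152)) (l 14052512))) (b (a (a (l 14565824) (a (l 14707040) (b (a (l 14865704) (b (a (l 14948912) (l 14997528)) (c (l 14952120) (l 14887192)))) (c (a (l 14780928) (l 14952472)) (a (l 14709264) (l 14889000)))))) (b (b (a (a (a (l 15110624) (l 15357936)) (c (a (l 15671960) (a (l 15783776) (l 15865832))) (l 15605808))) (a (a (c (l 15936952) (l 15923120)) (l 15995856)) (l 16002464))) (a (a (a (l 14941736) (c (b (l 15418928) (l 15506120)) (l 15385152))) (c (a (b (l 15678736) (l 15597776)) (c (l 15831824) (l 15677864))) (a (l 15675160) (l 15660000)))) (l 15946440))) (a (a (c (b (a (l 15213680) (l 15497544)) (a (l 15337008) (a (l 15492368) (l 15422968)))) (a (l 15181160) (l 15507952))) (b (a (c (a (l 15634360) (l 15783664)) (l 15724208)) (c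 (l 15786184) (l 15774168))) (a (c (l 15681512) (l 15652856)) (l 15743024)))) (l 15807656)))) (a (a (l 14249344) (b (a (a (l 14427392) (c (l 14567096) (l 14487832))) (a (b (l 14526504) (l 14752560)) (c (b (l 15101424) (l 15148272)) (l 14991712)))) (a (c (a (l 14307952) (b (l 14519128) (l 14583024))) (a (l 14262880) (l 14460128))) (c (b (a (l 14921520) (c (l 15130664) (l 15143048))) (a (l 14910544) (a (l 15095040) (l 15211432)))) (a (l 14851272) (b (l 15113880) (l 15171784))))))) (a (a (b (b (c (a (l 15302312) (c (l 15574432) (l 15532888))) (a (l 15297272) (l 15523744))) (c (a (a (l 15295392) (l 15308584)) (l 15473256)) (a (l 15370920) (l 15443816)))) (a (c (c (l 15314320) (c (l 15314160) (l 15276272))) (c (l 15270464) (l 15267784))) (l 15372296))) (l 15486384)) (l 15509184))))), by decide +kernel⟩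

def k8_pm_012 : ∃ t, chk3 f_pm_012 t 6 14 1 = true :=
  ⟨(a (l 4) (a (l 4) (b (b (c (l 13782968) (l 13677616)) (c (b (l 13599704) (c (l 13583656) (l 13527112))) (l 13476760))) (l 4)))), by decide +kernel⟩

def k9_pm_012 : ∃ t, chk3 f_pm_012 t 7 56 1 = true :=
  ⟨(a (a (l 13742008) (l 13787528)) (a (a (a (l 13862792) (a (b (l 13987848) (c (b (l 13918480) (l 13857120)) (l 13720760))) (b (c (c (l 14148984) (l 14102600)) (l 14035928)) (c (b (l 14086744) (l 14174288)) (l 14023264))))) (a (b (a (c (b (l 14304800) (l 14379776)) (l 14243272)) (c (b (l 14733840) (c (l 14767536) (l 14756600))) (l 14664048))) (c (a (c (b (l 14566112) (l 14557760)) (b (l 14508904) (l 14553800))) (c (b (a (l 14713072) (l 14933528)) (l 14825120)) (b (l 14822528) (l 14770456)))) (a (b (l 14374568) (l 14500376)) (b (l 14751168) (l 14745280))))) (b (a (c (c (b (a (l 14922784) (l 14887560)) (c (l 15044552) (l 14995608))) (b (l 15046256) (l 14986704))) (b (l 14986088) (l 14962424))) (b (c (l 15151416) (l 15101504)) (l 15095136)))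 (b (a (c (l 14934064) (l 14883480)) (l 14989912)) (l 14879296))))) (l 15086136))), by decide +kernel⟩

def k10_pm_012 : ∃ t, chk3 f_pm_012 t 7 57 1 = true :=
  ⟨(a (b (a (l 13567576) (l 13559128)) (c (c (l 13565264) (b (l 13508464) (l 13508520))) (l 13421648))) (a (a (b (a (a (l 13541736) (c (b (l 13691160) (l 13627592)) (b (l 13580328) (l 13515664)))) (a (b (c (l 13864984) (l 13763112)) (a (l 13816064) (c (l 14160776) (l 13972616)))) (c (b (c (l 14363392) (l 14318168)) (a (l 14313760) (b (l 14440656) (c (l 14572160) (l 14511016))))) (b (l 14204216) (l 14370096))))) (b (a (a (a (l 13394144) (c (l 13439592) (l 13364184))) (c (b (l 13621512) (l 13729024)) (l 13557432))) (c (b (a (l 13898352) (a (l 14302696) (l 14510720))) (a (c (l 14202416) (l 14175936)) (c (l 14485608) (l 14426640)))) (a (l 14038792) (c (l 14405704) (l 14378296))))) (a (a (c (c (l 13596600) (l 13540280)) (l 13456864)) (c (b (l 13842688) (l 14032648)) (l 13797064))) (c (a (c (b (l 14232208) (l 14169280)) (l 14292880)) (l 14448376))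 (a (a (l 14127704) (l 14323792)) (a (l 14371800) (l 14443128))))))) (b (a (a (c (c (b (a (l 14497928) (l 14713152)) (l 14603600)) (b (l 14610280) (c (l 14594944) (l 14554448)))) (b (l 14335104) (c (l 14540336) (l 14526448)))) (b (b (c (l 14740160) (l 14693000)) (l 14730392)) (l 14649856))) (l 14719920)) (l 14534168))) (l 14691784))), by decide +kernel⟩

def k11_pm_012 : ∃ t, chk3 f_pm_012 t 14 29 1 = true :=
  ⟨(b (a (c (c (a (c (l 179005976647) (l 13486816)) (l 13592328)) (c (l 13371576) (l 13503712))) (l 13432224)) (a (c (c (l 13618888) (l 13557624)) (l 13464776)) (b (a (l 13506424) (a (l 13503520) (b (a (l 13478216) (c (l 13564840) (l 13448488))) (c (a (l 13613456) (l 13683224)) (l 13546424))))) (a (l 13585848) (c (b (c (l 13786568) (a (l 13631408) (l 13767688))) (a (c (l 13822240) (l 13718328)) (a (l 13902752) (c (l 14094688) (l 14045096))))) (b (a (l 13549072) (l 13686112)) (a (l 13635832) (c (l 13918768) (l 13846536))))))))) (c (b (a (c (a (c (l 13518720) (l 13453040)) (l 13588424))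 (a (l 13342896) (l 13502920))) (a (l 13665512) (c (a (l 13857176) (b (a (l 13860304) (l 14151672)) (l 14143272))) (a (l 13645280) (b (a (l 13818688) (a (l 14040488) (l 14154664))) (l 14105656)))))) (a (c (a (b (l 13434328) (l 13393104)) (l 13439400)) (c (c (a (l 13225800) (l 13552936)) (a (l 13286240) (l 13495128))) (l 13529072))) (c (a (l 13773680) (b (l 14095696) (l 14072944))) (a (l 13714464) (a (b (l 13874112) (l 13977496)) (l 14058912)))))) (a (a (l 13220976) (l 13399408)) (a (l 13573248) (b (a (a (l 13621936) (b (l 13642960) (l 13725008))) (b (a (l 13752968) (a (l 13944688) (l 14086208))) (b (l 13910840) (l 14038928)))) (b (a (l 13802024) (l 14011632)) (l 13915912))))))), by decide +kernel⟩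

def k12_pm_012 : ∃ t, chk3 f_pm_012 t 15 29 1 = true :=
  ⟨(a (a (a (a (b (b (c (b (a (l 13641864) (l 13827296)) (a (l 13853792) (l 14070320))) (b (l 13616832) (l 13838600))) (a (c (b (l 14069392) (c (l 14223008) (l 14186936))) (b (l 13937680) (l 14114600))) (c (c (b (l 14252960) (l 14275904)) (b (l 14214872) (l 14220056))) (b (l 14135984) (l 14170808))))) (b (b (a (c (c (l 14232008) (l 14178488)) (l 14126384)) (l 14214984)) (l 14164240)) (l 14091648))) (b (b (c (b (a (l 14067576) (l 14181888)) (c (a (l 14185472) (l 14362456)) (a (l 14172904) (l 14300072)))) (b (l 14044248) (a (l 14114400) (l 14253736)))) (b (c (c (l 14325384) (b (l 14278400) (l 14288032))) (a (l 14213456) (l 14238336))) (l 14271000))) (l 14151528))) (b (b (a (c (a (b (c (l 14355616) (l 14337992)) (l 14352800)) (l 14374696)) (b (c (l 14323080) (l 14296600)) (b (l 14300552) (l 14322896)))) (l 14410848)) (l 14311720)) (l 14168792))) (l 14299816)) (l 14373496)), by decide +kernel⟩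

def k13_pm_012 : ∃ t, chk3 f_pm_012 t 6 15 1 = true :=
  ⟨(l 4), by decide +kernel⟩

def k14_pm_012 : ∃ t, chk3 f_pm_012 t 14 15 1 = true :=
  ⟨(a (b (c (c (b (a (l 13361072) (b (l 13519808) (l 13428520))) (l 13214040)) (b (a (a (l 4) (b (c (l 13305424) (l 13212456)) (c (l 13214992) (c (l 13189608) (l 13132280))))) (a (b (l 13392696) (l 13300520)) (b (l 13521448) (l 13424504)))) (b (c (l 13291056) (c (l 13298536) (l 13265712))) (l 13144808)))) (b (a (l 13190992) (a (l 13213840) (l 13352752))) (c (c (b (c (b (l 13271488) (l 13236152)) (l 13220472)) (c (l 13149312) (b (l 13154960) (l 13105208)))) (b (l 13195552) (l 13084480))) (l 13090648)))) (c (c (b (b (l 13051064) (l 12903120)) (l 12741976)) (b (b (l 13071784) (l 12738592)) (b (l 12737320) (l 12648944)))) (c (b (b (c (l 13087248) (b (c (l 13023752) (l 12986784)) (c (l 13045000) (l 12900088)))) (a (l 12794400) (a (l 12697688) (l 12971264)))) (b (l 12646528) (l 12597728))) (b (b (l 13013608) (c (c (b (a (l 12798624) (l 12775912)) (l 12921200))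 (l 12947216)) (l 12922472))) (c (b (c (l 12771464) (b (l 12817280) (l 12721808))) (l 12385272)) (b (b (l 12790736) (l 12703040)) (c (b (l 12616112) (l 12518376)) (b (l 12605816) (l 12282904))))))))) (b (a (c (b (c (a (l 13635728) (b (l 13848368) (l 13758592))) (a (l 13608480) (b (l 13809192) (l 13747376)))) (c (l 13362312) (b (a (l 13470488) (l 13587512)) (l 13383064)))) (a (b (l 13502968) (b (l 13395328) (a (l 13255824) (l 13331696)))) (b (l 13714432) (b (l 13515864) (l 13356808))))) (b (b (b (c (c (l 14020752) (l 13976968)) (l 13904432)) (c (l 13670104) (l 13832928))) (c (c (l 13799656) (l 13789528)) (l 13713040))) (l 13496152))) (b (a (b (c (l 13146616) (c (c (l 13200568) (l 13185216)) (l 13137712))) (b (c (l 12997288) (l 12999584)) (l 12915624))) (l 13098224)) (c (l 12807840) (l 12764944))))), by decide +kernel⟩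

def k15_pm_012 : ∃ t, chk3 f_pm_012 t 15 15 1 = true :=
  ⟨(b (c (l 13829936) (l 13781952)) (b (c (l 13279864) (l 13293400)) (c (l 13006320) (l 12960744)))), by decide +kernel⟩

theorem s16_pm_012 : ∃ t, chk3 f_pm_012 t 7 15 1 = true := ex3_a k14_pm_012 k15_pm_012

theorem s17_pm_012 : ∃ t, chk3 f_pm_012 t 3 15 1 = true := ex3_a k13_pm_012 s16_pm_012

theorem s18_pm_012 : ∃ t, chk3 f_pm_012 t 7 29 1 = true := ex3_a k11_pm_012 k12_pm_012

theorem s19_pm_012 : ∃ t, chk3 f_pm_012 t 7 28 1 = true := ex3_b k9_pm_012 k10_pm_012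

theorem s20_pm_012 : ∃ t, chk3 f_pm_012 t 7 14 1 = true := ex3_b s19_pm_012 s18_pm_012

theorem s21_pm_012 : ∃ t, chk3 f_pm_012 t 3 14 1 = true := ex3_a k8_pm_012 s20_pm_012

theorem s22_pm_012 : ∃ t, chk3 f_pm_012 t 3 7 1 = true := ex3_b s21_pm_012 s17_pm_012

theorem s23_pm_012 : ∃ t, chk3 f_pm_012 t 7 13 1 = true := ex3_b k6_pm_012 k7_pm_012

theorem s24_pm_012 : ∃ t, chk3 f_pm_012 t 7 6 1 = true := ex3_b k5_pm_012 s23_pm_012

theorem s25_pm_012 : ∃ t, chk3 f_pm_012 t 3 6 1 = true := ex3_a k4_pm_012 s24_pm_012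

theorem s26_pm_012 : ∃ t, chk3 f_pm_012 t 3 3 1 = true := ex3_b s25_pm_012 s22_pm_012

theorem s27_pm_012 : ∃ t, chk3 f_pm_012 t 1 3 1 = true := ex3_a k3_pm_012 s26_pm_012

theorem s28_pm_012 : ∃ t, chk3 f_pm_012 t 3 2 1 = true := ex3_b k1_pm_012 k2_pm_012

theorem s29_pm_012 : ∃ t, chk3 f_pm_012 t 1 2 1 = true := ex3_a k0_pm_012 s28_pm_012

theorem s30_pm_012 : ∃ t, chk3 f_pm_012 t 1 1 1 = true := ex3_b s29_pm_012 s27_pm_012

theorem c_pm_012 : CertNX 0 536870912 1073741824 536870912 1046898278 26843546 3 false true false .pnp 0 1 2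
    ndN0q0 ndN5q2 pcN1 Cut.none Ext.none :=
  certNX1 (fam := false) (s1 := true) (s2 := false) (a := 0) (b := 1) (c := 2) (cn := .pnp) (n1 := ndN0q0) (n2 := ndN5q2) (pc := pcN1) (cut := Cut.none) (xt := Ext.none) (P1 := 0) (W1 := 536870912) (P2 := 1073741824) (W2 := 536870912) (P3 := 1046898278) (W3 := 26843546) (N0 := 3)
    rfl (fun _ => rfl) s30_pm_012

noncomputable def f_pm_022 : ℕ → ℕ → ℕ → ℕ → Bool := onCell 1073741824 536870912 1073741824 536870912 1046898278 26843546
    (rowNX 3 2 false true false .pp 0 2 2 (qsf 0 536870912 1073741824 536870912 2) ndN0q0 ndN5q2 pcN2 Cut.none Ext.none)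

def k0_pm_022 : ∃ t, chk3 f_pm_022 t 1 1 1 = true :=
  ⟨(a (b (l 4) (b (l 4) (a (a (c (b (a (l 12856816) (a (l 13079240) (l 4))) (a (l 13024080) (c (l 13291480) (a (l 13163544) (l 13311152))))) (a (c (a (l 12787968) (b (c (l 12856200) (l 12815864)) (l 12986584))) (a (b (c (l 12633896) (l 12528840)) (l 12708592)) (b (l 12767040) (l 12925072)))) (a (b (c (l 13004120) (l 12917280)) (l 12876376)) (l 13148712)))) (b (l 4) (a (c (c (a (l 13522336) (l 13640616)) (l 13363520)) (l 13373896)) (a (l 13641888) (l 4))))) (l 4)))) (l 4)), by decide +kernel⟩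

theorem c_pm_022 : CertNX 0 536870912 1073741824 536870912 1046898278 26843546 3 false true false .pp 0 2 2
    ndN0q0 ndN5q2 pcN2 Cut.none Ext.none :=
  certNX2 (fam := false) (s1 := true) (s2 := false) (a := 0) (b := 2) (c := 2) (cn := .pp) (n1 := ndN0q0) (n2 := ndN5q2) (pc := pcN2) (cut := Cut.none) (xt := Ext.none) (P1 := 0) (W1 := 536870912) (P2 := 1073741824) (W2 := 536870912) (P3 := 1046898278) (W3 := 26843546) (N0 := 3)
    rfl (fun _ => rfl) k0_pm_022

noncomputable def f_pm_023 : ℕ → ℕ → ℕ → ℕ → Bool := onCell 1073741824 536870912 0 1230186008 1046898278 26843546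
    (rowNX 3 2 false true false .up 0 2 3 (qsf 0 536870912 0 1230186008 2) ndN0q0 ndN5q3 pcN2 Cut.none Ext.none)

def k0_pm_023 : ∃ t, chk3 f_pm_023 t 1 1 1 = true :=
  ⟨(b (a (l 2) (a (l 2) (b (a (l 2) (l 16746096)) (a (b (l 16705992) (l 16730136)) (b (l 16705992) (l 16730136)))))) (a (a (b (l 2) (b (l 2) (b (a (l 2) (a (c (a (l 13793816) (l 13959240)) (l 13791264)) (l 13986456))) (a (c (a (l 13292240) (c (l 13516936) (a (l 13410120) (l 13528552)))) (a (c (a (l 13160496) (l 13253592)) (a (l 13098512) (l 13196000))) (c (l 13390304) (l 13329168)))) (a (c (a (c (l 13699344) (l 13587760)) (l 13734464)) (l 13536096)) (a (l 13720584) (l 13958600))))))) (b (a (l 2) (a (l 2) (b (l 2) (l 16266976)))) (a (b (a (a (l 14266512) (l 14669648)) (b (l 15213704) (l 15137840))) (a (a (b (l 14315744) (l 14276248)) (b (l 14622760) (l 14603272))) (b (l 14963672) (a (l 14920688) (l 4))))) (b (a (b (l 15723472) (l 15573680)) (b (l 16028728) (l 15885016))) (b (a (l 15471592) (l 15829504)) (l 4)))))) (b (a (b (a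 (l 2) (l 16769600)) (a (a (l 16397680) (l 16574096)) (a (l 16754648) (l 16777200)))) (c (a (l 16777184) (l 16777184)) (a (l 16777184) (l 16777184)))) (a (b (b (a (a (l 16248168) (l 16511744)) (a (l 16750144) (l 4))) (a (a (l 16185472) (l 4)) (l 4))) (l 4)) (l 4))))), by decide +kernel⟩

theorem c_pm_023 : CertNX 0 536870912 0 1230186008 1046898278 26843546 3 false true false .up 0 2 3
    ndN0q0 ndN5q3 pcN2 Cut.none Ext.none :=
  certNX2 (fam := false) (s1 := true) (s2 := false) (a := 0) (b := 2) (c := 3) (cn := .up) (n1 := ndN0q0) (n2 := ndN5q3) (pc := pcN2) (cut := Cut.none) (xt := Ext.none) (P1 := 0) (W1 := 536870912) (P2 := 0) (W2 := 1230186008) (P3 := 1046898278) (W3 := 26843546) (N0 := 3)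
    rfl (fun _ => rfl) k0_pm_023

noncomputable def f_pm_033 : ℕ → ℕ → ℕ → ℕ → Bool := onCell 1610612736 536870912 0 1230186008 1046898278 26843546
    (rowNX 3 2 false true false .pnn 0 3 3 (qsf 0 536870912 0 1230186008 3) ndN0q0 ndN5q3 pcN3 Cut.none Ext.none)

def k0_pm_033 : ∃ t, chk3 f_pm_033 t 1 1 1 = true :=
  ⟨(b (a (a (a (b (l 16746096) (b (l 16705992) (l 16730136))) (b (l 16746096) (c (l 16868728) (l 16858816)))) (b (a (c (l 16754832) (l 16743304)) (l 4)) (l 4))) (l 4)) (b (a (a (b (a (l 16777168) (l 4)) (l 4)) (l 4)) (l 4)) (l 4))), by decide +kernel⟩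

theorem c_pm_033 : CertNX 0 536870912 0 1230186008 1046898278 26843546 3 false true false .pnn 0 3 3
    ndN0q0 ndN5q3 pcN3 Cut.none Ext.none :=
  certNX2 (fam := false) (s1 := true) (s2 := false) (a := 0) (b := 3) (c := 3) (cn := .pnn) (n1 := ndN0q0) (n2 := ndN5q3) (pc := pcN3) (cut := Cut.none) (xt := Ext.none) (P1 := 0) (W1 := 536870912) (P2 := 0) (W2 := 1230186008) (P3 := 1046898278) (W3 := 26843546) (N0 := 3)
    rfl (fun _ => rfl) k0_pm_033

noncomputable def f_pm_101 : ℕ → ℕ → ℕ → ℕ → Bool := onCell 536870912 536870912 536870912 469762048 1046898278 26843546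
    (rowNX 3 0 false true false .npn 1 0 1 (qsf 536870912 536870912 536870912 469762048 0) ndN0q1 ndN5q1 pcN0 Cut.none Ext.none)

def k0_pm_101 : ∃ t, chk3 f_pm_101 t 1 1 1 = true :=
  ⟨(l 4), by decide +kernel⟩

theorem c_pm_101 : CertNX 536870912 536870912 536870912 469762048 1046898278 26843546 3 false true false .npn 1 0 1
    ndN0q1 ndN5q1 pcN0 Cut.none Ext.none :=
  certNX0 (fam := false) (s1 := true) (s2 := false) (a := 1) (b := 0) (c := 1) (cn := .npn) (n1 := ndN0q1) (n2 := ndN5q1) (pc := pcN0) (cut := Cut.none) (xt := Ext.none) (P1 := 536870912) (W1 := 536870912) (P2 := 536870912) (W2 := 469762048) (P3 := 1046898278) (W3 := 26843546) (N0 := 3)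
    rfl k0_pm_101

noncomputable def f_pm_102 : ℕ → ℕ → ℕ → ℕ → Bool := onCell 536870912 536870912 0 536870912 1046898278 26843546
    (rowNX 3 1 false true false .npp 1 0 2 (qsf 536870912 536870912 1073741824 536870912 0) ndN0q1 ndN5q2 pcN0 Cut.none Ext.none)

def k0_pm_102 : ∃ t, chk3 f_pm_102 t 2 4 1 = true :=
  ⟨(l 1), by decide +kernel⟩

def k1_pm_102 : ∃ t, chk3 f_pm_102 t 6 8 1 = true :=
  ⟨(l 1), by decide +kernel⟩

def k2_pm_102 : ∃ t, chk3 f_pm_102 t 7 16 1 = true :=
  ⟨(a (l 1) (b (a (l 1) (a (b (l 1) (b (l 1) (a (l 1) (b (l 1) (c (c (l 16755808) (l 516502762295)) (l 15902264)))))) (b (a (a (l 1) (b (l 1) (c (l 16687064) (c (c (l 16753648) (c (l 16743432) (l 16746032))) (l 16630432))))) (c (l 16535688) (b (c (l 16751616) (a (b (l 1) (c (l 505765561639) (l 16758728))) (c (l 16774560) (b (c (l 16772600) (l 16735016)) (l 16687456))))) (c (c (l 16729352) (l 16632064)) (c (a (l 16701816) (l 16705144)) (l 170221119927)))))) (c (b (c (b (l 16732040) (l 16585536)) (a (l 16557328) (l 16665912)))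 (c (l 16636784) (a (l 16751336) (l 16627752)))) (c (a (c (a (b (l 16738736) (l 16518384)) (l 16704960)) (l 245919895607)) (b (l 16553776) (l 16609368))) (a (l 16737288) (a (c (l 16604528) (l 16640392)) (c (l 16586672) (l 16577016))))))))) (a (a (l 1) (a (l 1) (b (l 1) (c (l 16401736) (l 15682864))))) (c (b (a (c (a (b (l 1) (c (l 16686864) (l 16702720))) (b (l 16770808) (l 16777968))) (c (a (l 448857093815) (b (l 16707112) (l 16537152))) (l 488585576167))) (c (a (l 16641344) (l 16508816)) (a (l 16486704) (l 16488080)))) (a (c (a (c (l 16625944) (l 16445360)) (l 16616704)) (a (l 16207112) (l 16486080))) (b (c (l 16484168) (l 16405816)) (a (l 16450336) (l 16354224))))) (a (b (c (l 16574880) (l 16724640)) (l 16126304)) (a (c (b (c (l 16531568) (l 16553248)) (c (l 16342800) (l 16439256))) (l 16506648)) (c (b (l 16461656) (c (l 16323048) (l 16314960))) (a (l 16321888) (c (l 16355768) (l 16267000)))))))))), by decide +kernel⟩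

def k3_pm_102 : ∃ t, chk3 f_pm_102 t 7 17 1 = true :=
  ⟨(a (a (l 1) (b (l 1) (b (l 1) (c (a (l 1) (l 15862864)) (l 15541376))))) (a (a (b (a (l 1) (c (l 518649725255) (l 15423536))) (c (c (l 415570555527) (l 15825832)) (l 15585064))) (c (b (a (l 468184137335) (c (l 16254728) (l 16108032))) (c (a (l 16155544) (l 16177080)) (l 16220672))) (b (b (l 15695128) (l 15813832)) (l 16166256)))) (c (b (a (c (a (b (l 16406376) (l 16358480)) (l 16353040)) (a (l 16371040) (b (l 16257976) (l 16222296)))) (c (b (l 16191880) (l 16073304)) (b (a (l 16317120) (l 16003568)) (c (a (l 16160592) (l 16029480)) (l 16020872))))) (a (c (b (a (l 16205672) (c (l 16173608) (l 16089016))) (a (c (a (l 16169880) (l 15997440)) (l 16119456)) (c (l 15748720) (l 15992016)))) (a (l 16125208) (c (l 15859040) (l 16033488)))) (c (b (c (l 15972424) (l 15860768)) (c (l 15724200) (l 15793992))) (a (l 15710680) (l 15797616))))) (b (a (l 16305448) (c (a (c (a (l 16257896) (l 16193504)) (l 16113432)) (l 15938608)) (a (l 16208696) (a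 (l 15912512) (c (l 16045448) (l 15996000)))))) (a (b (l 16170312) (l 16014328)) (a (c (a (l 15943640) (l 15833496)) (l 15888056)) (c (l 15784328) (a (l 15791168) (l 15587224))))))))), by decide +kernel⟩

def k4_pm_102 : ∃ t, chk3 f_pm_102 t 6 9 1 = true :=
  ⟨(b (l 1) (a (l 1) (a (l 1) (b (l 1) (l 416106024247))))), by decide +kernel⟩

def k5_pm_102 : ∃ t, chk3 f_pm_102 t 7 18 1 = true :=
  ⟨(a (b (a (l 1) (c (a (l 15850312) (l 15745120)) (l 356513810391))) (a (l 694205103927) (a (l 15622256) (l 15769608)))) (a (b (b (a (l 15836584) (c (l 15925040) (l 16086576))) (a (l 15973720) (a (l 15940704) (c (l 15768360) (l 15732752))))) (a (b (l 16021248) (a (l 15890288) (l 15596832))) (a (b (l 15580928) (l 15415952)) (c (b (l 15503592) (l 15231600)) (l 15312640))))) (c (b (a (c (a (b (c (l 15938472) (l 15918768)) (l 15562168)) (b (l 15790048) (l 15524664))) (a (l 15585720) (c (l 15527544) (l 15635400)))) (c (b (l 15588552) (l 15310720)) (a (l 15459336) (l 15363736)))) (a (c (a (c (l 15088136) (l 15251240))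 (l 15020976)) (a (l 15211848) (c (l 15050056) (l 15068968)))) (c (b (l 14988000) (l 14720232)) (a (l 14919712) (l 14687912))))) (b (a (b (l 15713944) (l 15524768)) (a (c (c (l 15357816) (l 15473720)) (l 15453856)) (c (l 15342592) (c (a (l 15356720) (l 15290416)) (l 15139888))))) (a (l 15095288) (a (c (c (l 14852152) (l 14878800)) (l 14850816)) (c (l 14731640) (a (l 14726576) (l 14591768))))))))), by decide +kernel⟩

def k6_pm_102 : ∃ t, chk3 f_pm_102 t 7 19 1 = true :=
  ⟨(a (b (a (b (l 15481888) (l 15656272)) (b (l 15776704) (l 15785088))) (a (l 15615528) (a (l 15705584) (c (l 15542560) (l 15530704))))) (a (b (b (a (b (l 15517640) (b (l 15480064) (l 15296432))) (c (a (l 14957464) (b (l 15018936) (l 14879160))) (l 14913856))) (a (l 15265392) (c (a (l 14973056) (l 14751392)) (l 14794608)))) (a (c (l 15130592) (l 15074992)) (c (a (l 14744352) (c (l 14527056) (l 14500704))) (l 14556488)))) (b (c (a (b (c (a (c (b (l 14919608) (l 14777424)) (l 14672560)) (b (l 14734648) (l 14587456))) (a (l 14774128)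 (c (l 14516616) (l 14615312)))) (c (a (l 14631928) (l 14451176)) (a (l 14570400) (l 14418624)))) (b (b (c (l 14482304) (l 14446152)) (c (b (l 14362392) (l 14295968)) (b (l 14322760) (a (l 14337816) (l 14168344))))) (c (l 14202096) (l 14136384)))) (a (b (l 14638392) (l 14426896)) (a (c (b (c (l 14421768) (l 14402112)) (l 14187536)) (l 14216200)) (b (c (b (l 14321744) (l 14158376)) (a (l 14231728) (l 14151976))) (c (l 14022792) (l 13758784)))))) (a (c (c (a (c (b (l 14495304) (l 14343312)) (l 14356280)) (c (l 14235784) (l 14216368))) (a (l 14325392) (c (l 14196664) (l 14163840)))) (l 14180976)) (c (a (c (b (l 14127264) (l 13954600)) (a (l 14050576) (l 13942800))) (b (c (l 13942840) (l 13892120)) (a (l 13796392) (l 13669128)))) (a (c (a (l 14000976) (c (l 13911336) (l 13886256))) (l 13881840)) (c (b (l 13843376) (l 13653816)) (a (b (l 13834472) (l 13652000)) (c (l 13652928) (l 13559392)))))))))), by decide +kernel⟩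

def k7_pm_102 : ∃ t, chk3 f_pm_102 t 2 5 1 = true :=
  ⟨(b (l 1) (a (l 1) (a (l 1) (b (l 1) (a (l 1) (l 16306128)))))), by decide +kernel⟩

def k8_pm_102 : ∃ t, chk3 f_pm_102 t 6 5 1 = true :=
  ⟨(b (a (b (l 1) (a (l 1) (l 370472712695))) (b (a (b (l 1) (l 15838368)) (a (l 241085841975) (c (l 15569936) (l 15453888)))) (a (c (l 15706472) (l 15674552)) (a (l 15441920) (l 15322168))))) (b (a (a (l 204043495991) (l 208337117751)) (a (c (l 15488776) (l 15432856)) (a (l 15187000) (c (b (l 15154864) (l 14998888)) (l 15013272))))) (a (a (l 189546828007) (c (l 15543768) (l 15500456))) (a (b (l 15224072) (l 15036696)) (c (b (a (l 14977608) (l 14833928)) (l 14738712)) (l 14607888)))))), by decide +kernel⟩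

def k9_pm_102 : ∃ t, chk3 f_pm_102 t 14 10 1 = true :=
  ⟨(b (a (b (l 15558528) (a (l 15471064) (b (l 15515384) (c (l 15478432) (l 15440920))))) (b (c (a (l 15627376) (l 15239424)) (a (l 15617136) (l 15237088))) (c (a (b (l 15436352) (l 15303744)) (l 14862920)) (a (l 15339392) (l 14933936))))) (c (a (b (a (l 15396600) (l 15374216)) (a (l 15258656) (l 15215984))) (a (b (l 15111176) (l 14872592)) (b (l 14615752) (c (l 14516384) (l 14479416))))) (a (b (l 15342464) (l 15206856)) (a (l 14944320) (l 14490136))))), by decide +kernel⟩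

def k10_pm_102 : ∃ t, chk3 f_pm_102 t 30 10 1 = true :=
  ⟨(b (b (a (c (l 14828112) (l 14761824)) (c (a (l 14423360) (c (c (l 14182568) (l 14215744)) (l 14179888))) (l 14233848))) (a (c (b (l 14589624) (a (l 14587328) (l 14294952))) (l 14452312)) (c (a (b (l 14198832) (l 13813568)) (b (c (l 14014704) (l 13957000)) (c (l 13857688) (l 13806856)))) (b (l 13993848) (l 13837896))))) (a (b (c (c (l 14219080) (l 14256192)) (l 14190000)) (c (a (l 14059008) (l 13725432)) (l 13960792))) (b (c (a (c (l 13912592) (l 13864368)) (b (c (l 13742152) (l 13691048)) (l 13594064))) (l 13661448)) (a (b (c (l 13729208) (l 13616136)) (a (l 13661888) (l 13610600))) (c (b (a (l 13542160) (l 13559184)) (l 13713392)) (l 13538880)))))), by decide +kernel⟩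

def k11_pm_102 : ∃ t, chk3 f_pm_102 t 31 20 1 = true :=
  ⟨(a (c (b (a (c (c (a (l 14152632) (l 14080376)) (l 13829720)) (l 14022384)) (c (b (c (l 13998720) (l 13979032)) (l 13823488)) (c (a (l 13915000) (l 13833392)) (l 13583632)))) (a (c (b (c (l 13748000) (l 13835216)) (a (c (l 13772080) (l 13716704)) (l 13658160))) (b (l 13777080) (l 13630776))) (c (b (c (l 13662048) (l 13639168)) (l 13485424)) (b (a (l 13660296) (l 13542616)) (l 13259800))))) (b (a (l 13942592) (l 13755712)) (b (l 13597640) (l 13438832)))) (c (b (a (b (c (l 13785064) (l 13745128)) (l 13570288)) (l 13431456)) (b (b (a (l 13432104) (a (l 13262728) (b (l 13198920) (l 13206888)))) (a (l 13323976) (a (a (l 13227128) (l 13223976)) (l 13261848)))) (a (a (b (l 13322000) (c (a (l 13332752) (l 13327224)) (l 13285168))) (c (l 13310528) (l 13273648))) (l 13371640)))) (b (a (c (a (l 13652488) (l 13531344)) (l 13530192)) (c (l 13341528) (a (l 13332440) (l 13214200)))) (a (b (c (l 13293360) (l 13232448)) (c (a (l 13236808) (l 13209672))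 (l 13168368))) (b (c (l 13166024) (a (l 13087960) (c (l 13091384) (l 13055840)))) (c (l 13278896) (a (l 13176584) (l 13241504)))))))), by decide +kernel⟩

def k12_pm_102 : ∃ t, chk3 f_pm_102 t 31 21 1 = true :=
  ⟨(a (c (c (b (a (b (c (l 13597304) (l 13555960)) (a (b (l 13536872) (c (l 13532216) (l 13495552))) (c (l 13546408) (l 13522472)))) (a (b (c (b (l 13467872) (l 13463304)) (l 13436416)) (l 13571088)) (a (l 13520368) (l 13531848)))) (a (c (l 13816712) (l 13776984)) (l 13916112))) (b (a (b (l 13492784) (l 13468960)) (b (a (l 13396048) (l 13386712)) (l 13542360))) (a (l 13716240) (l 13865400)))) (b (a (l 13404080) (b (l 13293072) (l 13439056))) (l 13700552))) (c (b (c (l 13664624) (l 13611784)) (c (l 14104752) (l 14060160))) (a (c (a (l 13687248) (l 13618032)) (l 13655416)) (c (l 13847584) (a (l 13666632) (c (l 13841656) (l 13792016))))))), by decide +kernel⟩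

def k13_pm_102 : ∃ t, chk3 f_pm_102 t 14 11 1 = true :=
  ⟨(b (a (c (b (a (l 15104536) (l 14993736)) (a (l 14940824) (l 14787984))) (b (l 15054376) (l 14891800))) (b (c (a (l 14652048) (c (l 14310384) (l 14271344))) (a (l 14598560) (l 14212776))) (a (c (c (l 14472760) (l 14443112)) (l 14398128)) (c (b (a (l 14243576) (b (l 14119024) (l 14151752))) (a (c (l 14257384) (l 14219920)) (l 14284656))) (b (l 14128984) (l 14192464)))))) (a (b (c (b (l 14789216) (l 14713968)) (l 14728608)) (a (l 14603056) (c (a (b (l 14622104) (l 14648040)) (b (l 14552136) (l 14713144))) (l 14637704)))) (b (a (b (c (a (l 14421160) (b (l 14299648) (l 14348816))) (l 14330344)) (c (a (l 14446712) (l 14498760)) (l 14421816))) (l 14511208)) (c (l 14870744) (l 14808184))))), by decide +kernel⟩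

def k14_pm_102 : ∃ t, chk3 f_pm_102 t 15 11 1 = true :=
  ⟨(b (a (a (b (c (a (b (l 14035176) (b (l 13995664) (l 14026608))) (b (l 13866096) (l 14005104))) (a (l 13952480) (l 13845264))) (l 14240904)) (c (a (l 14152112) (b (l 14025536) (l 14445760))) (l 14097400))) (a (c (c (a (b (l 14026792) (l 14639776)) (l 14395224)) (a (l 14360472) (b (l 14303824) (l 14744416)))) (l 14370008)) (c (b (a (l 14458872) (l 14615504)) (a (l 14758704) (l 15072736))) (a (b (c (l 14393088) (l 14352008)) (c (l 14706256) (l 14821032))) (c (b (l 14558488) (l 15029720)) (b (a (l 14464960) (l 14305096)) (a (l 14941120) (l 15043816)))))))) (a (a (c (l 14890744) (l 14842448)) (c (a (l 14984744) (l 15030472)) (l 14962760))) (a (c (a (b (c (l 15059232) (l 15004112)) (b (l 15340752) (l 15313824))) (b (c (l 15201008) (l 15175096)) (c (l 15487752) (l 15467880)))) (b (l 15036272) (l 15221832))) (c (b (a (b (l 15230568) (l 15399368)) (l 15378648)) (l 15446872)) (a (b (c (a (l 15259544) (l 15075888)) (l 15246208)) (c (l 15431200)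 (l 15411096))) (c (b (l 15345272) (l 15392376)) (b (a (b (l 15274816) (l 15369752)) (c (l 15345552) (l 15247928))) (l 15365632)))))))), by decide +kernel⟩

def k15_pm_102 : ∃ t, chk3 f_pm_102 t 2 3 1 = true :=
  ⟨(a (b (a (l 1) (b (l 1) (a (l 1) (b (l 1) (l 16264320))))) (a (b (a (l 1) (b (l 1) (c (l 16417440) (l 16404808)))) (a (b (c (l 16417440) (l 16404808)) (l 15886904)) (c (l 15561360) (l 15714056)))) (b (a (b (l 16201408) (l 15949816)) (b (l 15949816) (l 15522248))) (a (c (l 15347064) (l 15296864)) (c (l 14978664) (l 14915536)))))) (b (a (b (a (l 1) (b (l 1) (l 16411120))) (a (b (l 16411120) (l 15949816)) (b (l 15949816) (l 15522248)))) (b (a (b (l 16411120) (l 15949816)) (b (l 15949816) (l 15522248))) (b (a (l 15522248) (l 15129544)) (a (l 15129544) (l 14772512))))) (b (a (a (b (l 15522248) (l 15129544)) (c (l 14978664) (l 14915536))) (b (a (l 14772512) (b (l 14528464) (a (l 14451608) (c (l 14360072) (l 14448888))))) (a (a (l 14528464) (b (l 14451608) (c (l 14464928) (l 14448888))))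 (b (a (c (l 14422984) (l 14448888)) (l 14857912)) (l 15008064))))) (a (a (b (l 14772512) (a (l 14528464) (b (l 14451608) (l 14257768)))) (b (a (l 14528464) (b (l 14451608) (c (l 14527840) (l 14448888)))) (b (a (c (l 14527840) (l 14448888)) (l 14857912)) (l 14987096)))) (b (b (a (a (c (l 14485904) (l 14448888)) (l 14857912)) (l 15501376)) (a (l 15050008) (l 15867864))) (b (a (l 15459432) (a (l 16283960) (l 16590024))) (a (l 15867864) (a (l 16611000) (l 16776552))))))))), by decide +kernel⟩

def k16_pm_102 : ∃ t, chk3 f_pm_102 t 6 3 1 = true :=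
  ⟨(b (b (b (a (a (l 15522248) (l 15129544)) (a (l 14772512) (a (l 14528464) (b (l 14482256) (c (a (l 14430752) (l 14477792)) (l 14377536)))))) (a (a (l 15129544) (l 14772512)) (a (a (l 14528464) (b (l 14451608) (c (b (l 14447664) (l 14552000)) (l 14448888)))) (a (b (c (b (l 14447664) (l 14552000)) (l 14448888)) (l 14857912)) (c (l 15170056) (l 15117768)))))) (a (b (a (c (l 14807016) (l 14737856)) (a (l 14528464) (b (l 14451608) (a (l 14406872) (l 14513032))))) (a (b (l 14528464) (a (l 14451608) (c (l 14276184) (l 14448888)))) (a (b (a (l 14406872) (l 14513032)) (l 14857912)) (l 14945152)))) (b (a (b (a (b (l 14406872) (l 14429144)) (l 14857912)) (l 14945152)) (a (c (l 15626384) (l 15585984)) (l 15962008))) (a (a (l 15375544) (l 15909808)) (a (b (l 16304928) (l 16652944)) (b (l 16658952) (l 16741792))))))) (a (b (b (a (b (a (c (l 14297160) (l 14448888)) (l 14857912)) (l 15029040)) (b (l 15438456) (a (l 15844568) (l 16304928)))) (a (b (l 15459432) (c (l 16089624) (l 16065488))) (b (a (l 16304928)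 (l 16652944)) (l 16527688)))) (b (a (b (a (l 16262984) (l 16652944)) (l 16569632)) (l 16776896)) (l 16777008))) (b (a (b (a (b (l 16304928) (l 16652944)) (l 16506712)) (l 16776896)) (l 16759432)) (l 16768224)))), by decide +kernel⟩

def k17_pm_102 : ∃ t, chk3 f_pm_102 t 7 3 1 = true :=
  ⟨(a (b (b (b (a (a (b (c (a (l 14556032) (l 14693096)) (l 14617680)) (l 15010512)) (l 14910704)) (c (l 15363968) (l 15421448))) (a (a (l 15717024) (l 15917552)) (a (b (l 15911528) (l 16184144)) (b (l 16013384) (l 16113928))))) (a (b (b (a (l 16262512) (l 16350248)) (a (l 16511528) (l 16441016))) (l 16519240)) (l 16196768))) (b (a (l 16519464) (l 16196936)) (l 16104936))) (a (b (b (b (a (b (l 15483488) (l 15782368)) (b (a (l 15528568) (l 15507376)) (l 15606896))) (a (l 15888016) (l 15607488))) (a (l 15888384) (l 15607488))) (a (l 15888384) (l 15586520))) (c (b (a (a (b (l 15399304) (l 15567328)) (c (l 15531080) (l 15491176))) (b (l 15447504) (l 15447504))) (a (a (l 15567328) (c (l 15531080) (l 15512144)))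 (l 15447504))) (b (a (b (l 15486784) (l 15487024)) (a (b (l 15239408) (l 15407176)) (c (l 15392376) (b (l 15365632) (l 15365632))))) (a (l 15487024) (a (l 15407176) (c (l 15392376) (l 15365632)))))))), by decide +kernel⟩

theorem s18_pm_102 : ∃ t, chk3 f_pm_102 t 3 3 1 = true := ex3_a k16_pm_102 k17_pm_102

theorem s19_pm_102 : ∃ t, chk3 f_pm_102 t 1 3 1 = true := ex3_a k15_pm_102 s18_pm_102

theorem s20_pm_102 : ∃ t, chk3 f_pm_102 t 7 11 1 = true := ex3_a k13_pm_102 k14_pm_102

theorem s21_pm_102 : ∃ t, chk3 f_pm_102 t 31 10 1 = true := ex3_b k11_pm_102 k12_pm_102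

theorem s22_pm_102 : ∃ t, chk3 f_pm_102 t 15 10 1 = true := ex3_a k10_pm_102 s21_pm_102

theorem s23_pm_102 : ∃ t, chk3 f_pm_102 t 7 10 1 = true := ex3_a k9_pm_102 s22_pm_102

theorem s24_pm_102 : ∃ t, chk3 f_pm_102 t 7 5 1 = true := ex3_b s23_pm_102 s20_pm_102

theorem s25_pm_102 : ∃ t, chk3 f_pm_102 t 3 5 1 = true := ex3_a k8_pm_102 s24_pm_102

theorem s26_pm_102 : ∃ t, chk3 f_pm_102 t 1 5 1 = true := ex3_a k7_pm_102 s25_pm_102

theorem s27_pm_102 : ∃ t, chk3 f_pm_102 t 7 9 1 = true := ex3_b k5_pm_102 k6_pm_102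

theorem s28_pm_102 : ∃ t, chk3 f_pm_102 t 3 9 1 = true := ex3_a k4_pm_102 s27_pm_102

theorem s29_pm_102 : ∃ t, chk3 f_pm_102 t 7 8 1 = true := ex3_b k2_pm_102 k3_pm_102

theorem s30_pm_102 : ∃ t, chk3 f_pm_102 t 3 8 1 = true := ex3_a k1_pm_102 s29_pm_102

theorem s31_pm_102 : ∃ t, chk3 f_pm_102 t 3 4 1 = true := ex3_b s30_pm_102 s28_pm_102

theorem s32_pm_102 : ∃ t, chk3 f_pm_102 t 1 4 1 = true := ex3_a k0_pm_102 s31_pm_102

theorem s33_pm_102 : ∃ t, chk3 f_pm_102 t 1 2 1 = true := ex3_b s32_pm_102 s26_pm_102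

theorem s34_pm_102 : ∃ t, chk3 f_pm_102 t 1 1 1 = true := ex3_b s33_pm_102 s19_pm_102

theorem c_pm_102 : CertNX 536870912 536870912 1073741824 536870912 1046898278 26843546 3 false true false .npp 1 0 2
    ndN0q1 ndN5q2 pcN0 Cut.none Ext.none :=
  certNX1 (fam := false) (s1 := true) (s2 := false) (a := 1) (b := 0) (c := 2) (cn := .npp) (n1 := ndN0q1) (n2 := ndN5q2) (pc := pcN0) (cut := Cut.none) (xt := Ext.none) (P1 := 536870912) (W1 := 536870912) (P2 := 1073741824) (W2 := 536870912) (P3 := 1046898278) (W3 := 26843546) (N0 := 3)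
    rfl (fun _ => rfl) s34_pm_102

end Pool.Agent.Strip051.G.IE1.Tab.C.NB05

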