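import Pool.Agent.Strip051.G.IE1.Tab

/-! # Certificates N53 (generated) -/

set_option linter.all false
set_option maxRecDepth 100000

namespace Pool.Agent.Strip051.G.IE1.Tab.C.NB05

open Pool.Agent.Strip051.PB Pool.Agent.Strip051.PB.T
open Pool.Agent.Strip051.G.IE1.Tab

noncomputable def f_pm_112 : ℕ → ℕ → ℕ → ℕ → Bool := onCell 536870912 536870912 1073741824 536870912 1046898278 26843546
    (rowNX 3 0 false true false .dn 1 1 2 (qsf 536870912 536870912 1073741824 536870912 1) ndN0q1 ndN5q2 pcN1 Cut.none Ext.none)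

def k0_pm_112 : ∃ t, chk3 f_pm_112 t 2 2 1 = true :=
  ⟨(b (a (b (a (c (l 15439000) (l 15500560)) (c (l 15522880) (l 15500560))) (a (c (l 14807016) (l 14737856)) (c (l 14807016) (l 14737856)))) (b (l 1) (a (c (l 14807016) (l 14737856)) (l 1)))) (b (a (b (a (b (l 14377320) (l 14597512)) (b (l 14377320) (l 14597512))) (a (c (l 15386528) (l 15337712)) (l 15152464))) (b (a (b (l 14377320) (l 14597512)) (l 1)) (c (a (l 15386528) (l 15365552)) (l 15086056)))) (a (b (a (b (l 16077472) (l 16526792)) (c (l 16208200) (l 16254824))) (c (l 16776560) (l 16776544))) (b (a (c (l 16208200) (l 16275792)) (c (l 16208200) (l 16275792))) (c (l 16776560) (l 16776544)))))), by decide +kernel⟩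

def k1_pm_112 : ∃ t, chk3 f_pm_112 t 2 3 1 = true :=
  ⟨(b (a (a (b (a (b (l 16776528) (a (b (b (a (a (l 16692536) (l 16752400)) (l 16776128)) (a (l 16581240) (l 16726312))) (b (c (l 16519768) (l 16542384)) (c (a (l 16403744) (l 16565856)) (l 16451248)))) (b (l 16775728) (b (a (l 16735480) (l 16777000)) (a (l 16662000) (l 16747792)))))) (l 16775536)) (b (a (b (a (c (a (b (b (l 16370776) (l 16349736)) (l 16285024)) (l 16415936)) (a (b (l 16361416) (l 16277504)) (b (l 16474584) (l 16401224)))) (l 16589880)) (l 16320088)) (l 16687448)) (a (a (b (l 16021416) (l 15725984)) (l 16135736)) (l 16428064)))) (b (l 16777216) (a (b (l 16777088) (l 16692368)) (l 16777136)))) (a (b (l 16777216) (l 16777216)) (l 16777216))) (a (a (b (a (b (a (l 15151824) (l 15481792)) (a (l 14582760) (l 14868472))) (b (a (b (l 16059560) (l 15781328)) (l 16169832)) (a (l 15237248) (l 15633520)))) (a (b (c (l 14252456) (l 14196624)) (a (b (l 13563600) (l 13056040)) (c (l 13858104) (l 13816584)))) (b (a (l 14688584) (l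 14972080)) (c (l 14371336) (l 14316528))))) (b (a (b (l 16447792) (a (l 15750344) (l 16206552))) (b (l 16697664) (l 16469024))) (b (a (a (l 15329192) (l 15706496)) (a (l 15910088) (l 16246024))) (a (l 14821232) (a (l 15427960) (l 15784864)))))) (a (b (a (l 16728120) (l 16777152)) (a (b (l 16491832) (a (l 16010960) (l 16288400))) (l 16603304))) (b (l 16777216) (l 16748264))))), by decide +kernel⟩

def k2_pm_112 : ∃ t, chk3 f_pm_112 t 3 1 1 = true :=
  ⟨(b (a (b (l 1) (b (l 1) (b (l 1) (a (l 16776552) (l 1))))) (l 1)) (b (a (a (l 16777216) (l 16663360)) (a (b (l 1) (l 225517992919)) (l 1))) (a (a (l 16777216) (a (l 16777216) (l 16759560))) (b (a (l 16251736) (a (l 571261533863) (l 1))) (a (l 16293680) (a (l 15483688) (a (c (l 15525080) (l 15487024)) (c (l 15447504) (a (l 15407176) (l 15376032)))))))))), by decide +kernel⟩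

theorem s3_pm_112 : ∃ t, chk3 f_pm_112 t 2 1 1 = true := ex3_b k0_pm_112 k1_pm_112

theorem s4_pm_112 : ∃ t, chk3 f_pm_112 t 1 1 1 = true := ex3_a s3_pm_112 k2_pm_112

theorem c_pm_112 : CertNX 536870912 536870912 1073741824 536870912 1046898278 26843546 3 false true false .dn 1 1 2
    ndN0q1 ndN5q2 pcN1 Cut.none Ext.none :=
  certNX0 (fam := false) (s1 := true) (s2 := false) (a := 1) (b := 1) (c := 2) (cn := .dn) (n1 := ndN0q1) (n2 := ndN5q2) (pc := pcN1) (cut := Cut.none) (xt := Ext.none) (P1 := 536870912) (W1 := 536870912) (P2 := 1073741824) (W2 := 536870912) (P3 := 1046898278) (W3 := 26843546) (N0 := 3)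
    rfl s4_pm_112

noncomputable def cut_pm_113 : Cut := Cut.of [[⟨0, 1, 0, 67108864⟩, ⟨1, 1, 0, 67108864⟩, ⟨2, 2, 0, 67108864⟩, ⟨3, 0, 0, 1233125376⟩]]

noncomputable def f_pm_113 : ℕ → ℕ → ℕ → ℕ → Bool := onCell 536870912 536870912 0 1230186008 1046898278 26843546
    (rowNX 3 0 false true false .nn 1 1 3 (qsf 536870912 536870912 0 1230186008 1) ndN0q1 ndN5q3 pcN1 cut_pm_113 Ext.none)

def k0_pm_113 : ∃ t, chk3 f_pm_113 t 2 2 1 = true :=
  ⟨(l 2), by decide +kernel⟩

def k1_pm_113 : ∃ t, chk3 f_pm_113 t 6 2 1 = true :=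
  ⟨(l 2), by decide +kernel⟩

def k2_pm_113 : ∃ t, chk3 f_pm_113 t 7 4 1 = true :=
  ⟨(a (l 2) (a (l 2) (b (l 6) (l 6)))), by decide +kernel⟩

def k3_pm_113 : ∃ t, chk3 f_pm_113 t 14 5 1 = true :=
  ⟨(b (a (l 2) (b (l 2) (a (l 2) (l 14624288)))) (a (b (l 2) (l 14751400)) (b (l 14706184) (l 14936952)))), by decide +kernel⟩

def k4_pm_113 : ∃ t, chk3 f_pm_113 t 15 20 1 = true :=
  ⟨(a (a (l 2) (c (a (l 15312832) (b (l 15542984) (l 15326528))) (b (a (l 2) (c (l 14745016) (a (l 2) (b (l 2) (c (l 14339680) (a (l 14067768) (b (l 14073696) (l 14083584)))))))) (a (c (l 14625704) (b (l 2) (a (l 14231016) (c (l 14313680) (b (l 14101832) (a (l 14119632) (l 14108584))))))) (c (b (l 14676880) (a (l 14631824) (c (l 14771336) (b (l 14561320) (l 14554408))))) (b (a (c (l 14308088) (a (l 14067680) (b (l 14069184) (l 14081624)))) (c (b (l 14335488) (a (l 14329336) (l 14344056))) (b (a (l 14081976) (l 14096000)) (l 14103320)))) (a (c (b (l 14311040) (a (l 14309784) (l 14321704))) (b (l 14091616) (l 14106952)))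 (c (b (l 14340024) (l 14345576)) (l 14127528))))))))) (b (l 6) (a (a (a (a (c (l 15373072) (b (b (l 6) (c (l 14708640) (l 14244320))) (c (c (l 14794312) (l 14580576)) (l 14256328)))) (l 6)) (l 6)) (l 6)) (l 6)))), by decide +kernel⟩

def k5_pm_113 : ∃ t, chk3 f_pm_113 t 15 42 1 = true :=
  ⟨(a (a (a (l 2) (c (l 15052216) (c (l 14598264) (b (l 14278952) (a (l 14311704) (c (l 14370880) (b (l 14206696) (l 14225256)))))))) (c (a (l 15122616) (c (l 15352616) (b (a (l 14998544) (l 15029272)) (a (c (l 15043816) (l 14870496)) (c (l 15069216) (b (l 14904184) (l 14889920))))))) (a (c (b (l 14605656) (a (c (l 14685592) (l 14523672)) (c (l 14690040) (b (l 14517656) (l 14521848))))) (b (a (c (l 14338096) (b (l 14152376) (l 14167744))) (c (b (l 14322456) (l 14331728)) (l 14138880))) (a (c (b (l 14353880) (l 14367240)) (l 14196464)) (l 14261504)))) (c (b (a (c (l 14712728) (b (l 14521136) (l 14519568))) (c (b (l 14748616) (l 14737704)) (l 14548816))) (a (c (b (l 14699848) (l 14695048)) (l 14521920))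 (l 14636136))) (b (a (c (l 14325760) (l 14133112)) (l 14256856)) (l 14270704)))))) (a (a (a (c (c (c (l 15489120) (b (l 15340664) (l 15429376))) (b (c (l 15150744) (b (l 14972112) (l 14950216))) (c (l 15154480) (l 14918120)))) (b (c (l 14672416) (l 14282848)) (l 14482336))) (l 6)) (l 6)) (l 6))), by decide +kernel⟩

def k6_pm_113 : ∃ t, chk3 f_pm_113 t 15 43 1 = true :=
  ⟨(c (b (a (a (l 14992800) (a (c (l 15217168) (a (l 14912536) (c (l 14996888) (l 14842408)))) (c (a (l 15237880) (c (l 15337736) (b (l 15195832) (l 15170736)))) (a (c (b (l 15013680) (l 14998024)) (l 14847800)) (c (l 15026520) (l 14869008)))))) (a (a (c (a (c (a (l 15358472) (l 15376496)) (a (l 15195320) (l 15201544))) (c (a (l 15386616) (l 6)) (l 15221216))) (l 15013488)) (l 6)) (l 6))) (a (a (a (l 14961016) (l 15018432)) (a (c (l 15180752) (c (a (l 14973168) (b (l 14979216) (l 14971496))) (a (b (l 14837224) (l 14838784)) (l 14834144)))) (c (a (c (l 15258472) (l 15118480)) (c (b (l 15291992) (l 15263368)) (l 15134032)))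 (a (l 14904304) (l 14919752))))) (a (a (c (a (c (a (l 15292808) (l 15309712)) (l 15143560)) (c (l 15314776) (l 15167960))) (l 14940040)) (c (l 15232392) (a (l 14970192) (l 14986680)))) (a (l 15276704) (l 15117040))))) (a (a (a (a (l 14496160) (a (l 14496784) (c (l 14620704) (b (l 14354416) (c (l 14454328) (l 14334280)))))) (c (b (a (l 14612048) (c (l 14686496) (b (l 14538568) (l 14550704)))) (a (c (l 14699200) (b (l 14567000) (l 14583000))) (c (b (l 14698152) (l 14707376)) (l 14570728)))) (b (a (c (l 14411288) (b (l 14265184) (l 14287184))) (c (b (l 14393168) (l 14410488)) (l 14258304))) (a (c (b (l 14439544) (l 14460000)) (l 14323592)) (l 14373280))))) (a (c (b (a (c (l 14690072) (b (l 14535888) (l 14546232))) (c (b (l 14687344) (l 14688984)) (l 14532512))) (a (l 14632232) (l 14620904))) (l 14325400)) (c (l 14622832) (l 14319856)))) (a (a (l 14513136) (l 14556384)) (a (c (a (l 14736304) (c (l 14823264) (l 14700536))) (l 14484896)) (c (l 14799120) (a (l 14545000) (c (l 14655256) (l 14546880)))))))),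 by decide +kernel⟩

def k7_pm_113 : ∃ t, chk3 f_pm_113 t 30 11 1 = true :=
  ⟨(b (a (a (l 14828120) (c (b (c (b (l 15137016) (a (l 15132136) (c (l 15195368) (l 15086400)))) (b (a (l 14900608) (c (l 14967000) (b (l 14842664) (l 14852224)))) (a (c (l 15164160) (l 14870336)) (l 14922728)))) (c (b (a (a (l 15138408) (l 15142912)) (c (l 15192296) (l 15092504))) (a (l 15153696) (l 15148608))) (b (l 14945080) (l 14971192)))) (b (c (b (a (c (b (l 14720168) (l 14737520)) (l 14613328)) (l 14666576)) (l 14706224)) (l 14459360)) (l 14672072)))) (c (b (a (c (b (a (l 15153512) (c (l 15215104) (l 15089808))) (a (c (l 15197280) (l 15084472)) (l 15130648))) (b (a (c (l 14969056) (l 14844096)) (l 14898216)) (l 14907336))) (b (c (c (a (l 15213864) (l 15225456)) (l 15091296)) (l 14897152)) (a (l 15002336) (l 15014312)))) (a (c (b (a (l 15133824) (l 15114600)) (l 15122056)) (l 14925840)) (l 15007984))) (b (a (l 14540160) (l 14526776)) (a (l 14625488) (l 14610968))))) (a (a (l 15005064) (b (b (a (l 14925192)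 (l 14908976)) (l 14956816)) (l 15019864))) (a (b (l 14891336) (l 14969472)) (b (l 14874504) (l 14947816))))), by decide +kernel⟩

def k8_pm_113 : ∃ t, chk3 f_pm_113 t 31 11 1 = true :=
  ⟨(b (a (c (a (b (c (a (b (l 15184352) (l 15159112)) (l 15186720)) (l 14926248)) (c (l 15151520) (l 14947352))) (c (b (l 15184064) (l 15159552)) (b (a (l 14966576) (l 14986848)) (a (l 14991704) (l 15010608))))) (b (a (l 14573448) (l 14634896)) (l 14697752))) (c (a (b (a (l 15087312) (l 15090376)) (a (l 15085248) (l 15086072))) (b (l 15100272) (l 15095576))) (a (a (b (l 14693640) (l 14783008)) (c (b (c (l 14870816) (l 14779592)) (l 14876168)) (l 14682592))) (c (b (l 14859400) (l 14909552)) (a (b (c (l 14718136) (l 14633480)) (l 14758360)) (c (l 14791328) (b (l 14676248) (l 14765864)))))))) (a (c (a (b (c (l 15344656) (l 14988568)) (l 15114864)) (c (l 15166704) (b (l 15029992) (l 15080328)))) (b (l 14791128) (l 14887736))) (c (a (b (l 15096888) (l 15135576)) (l 15129416)) (a (c (a (l 14961808) (c (l 15003016)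 (l 14954808))) (l 14859568)) (c (l 15002184) (a (l 14892760) (c (l 14949592) (l 14905760)))))))), by decide +kernel⟩

def k9_pm_113 : ∃ t, chk3 f_pm_113 t 2 3 1 = true :=
  ⟨(b (a (l 2) (b (l 2) (a (l 2) (a (l 2) (b (l 2) (b (l 2) (l 14342128))))))) (b (a (l 2) (a (b (a (l 2) (l 13516248)) (a (b (l 2) (a (l 13704712) (l 13695256))) (b (a (l 13919736) (l 14185256)) (a (b (l 14124384) (l 14317712)) (l 14557536))))) (b (a (b (l 14051856) (a (l 14171264) (l 14458752))) (b (a (l 14461872) (l 14764432)) (a (l 14765984) (l 15072096)))) (a (b (a (l 14485688) (l 14802208)) (l 15020872)) (b (l 15248864) (l 15590072)))))) (a (b (a (l 2) (a (b (l 2) (a (l 13361936) (b (l 13470896) (l 13618752)))) (b (a (l 13520616) (b (l 13649192) (l 13796160))) (a (b (l 13703360) (l 13924056)) (c (l 14178896) (l 14143704)))))) (a (b (a (l 2) (a (l 13057032) (b (l 13316160) (l 13265360)))) (a (b (a (l 2) (l 13183784)) (a (l 13127176) (c (l 13392072) (l 13353352)))) (b (a (c (l 13439448) (l 13394360)) (l 13735080))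 (c (l 13874960) (l 13893072))))) (b (a (a (b (l 13458640) (l 13786672)) (b (l 13849928) (l 14174584))) (a (l 14370200) (l 14685560))) (a (a (l 14281832) (l 14593800)) (l 14941128))))) (b (a (b (a (a (b (l 13897184) (l 14102432)) (l 14341640)) (l 14757152)) (a (a (l 14501912) (l 14814384)) (l 15253120))) (a (b (l 15406120) (l 15795872)) (b (l 15948608) (l 16289576)))) (a (b (a (l 15137448) (l 15505320)) (a (b (l 15504504) (l 15825656)) (b (l 16005112) (l 16309968)))) (b (a (l 16208040) (l 16536440)) (l 16616152))))))), by decide +kernel⟩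

def k10_pm_113 : ∃ t, chk3 f_pm_113 t 6 6 1 = true :=
  ⟨(b (a (l 2) (a (b (l 2) (l 14546928)) (b (l 171358042599) (l 63447567447)))) (a (b (a (b (l 2) (l 14350232)) (l 228266168167)) (a (b (l 14610576) (a (l 14774784) (l 15017856))) (b (l 15084344) (l 15353504)))) (b (a (l 14932056) (l 15530984)) (a (l 15419840) (l 16040520))))), by decide +kernel⟩

def k11_pm_113 : ∃ t, chk3 f_pm_113 t 7 6 1 = true :=
  ⟨(a (b (a (b (l 15040480) (l 15376904)) (b (l 15189880) (l 15488616))) (b (a (l 15767096) (b (l 15741720) (l 15906664))) (a (b (l 16084128) (l 16254800)) (a (l 16105344) (l 16004136))))) (b (a (b (a (b (a (l 15156528) (l 15115272)) (l 15252288)) (a (l 15113896) (c (l 15178944) (l 15002408)))) (a (l 15455136) (a (b (l 15294392) (l 15435320)) (b (l 15269696) (b (l 15372456) (l 15432224)))))) (b (a (c (a (c (l 15266352) (l 15166800)) (c (l 15273832) (l 15210728))) (l 15073448)) (c (a (l 15086496) (b (l 15231320) (l 15323920))) (a (c (a (l 15171336) (l 15076784)) (l 15116936)) (c (b (l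 15152768) (l 15271512)) (b (a (l 15076504) (l 15108984)) (a (l 15218656) (l 15159504))))))) (a (c (b (a (l 15371960) (c (l 15409280) (a (l 15373776) (l 15386800)))) (a (c (l 15401984) (l 15429992)) (c (l 15461064) (l 15434112)))) (b (l 15280936) (l 15374792))) (c (b (a (l 15364720) (l 15373248)) (l 15399192)) (a (b (c (a (l 15349104) (l 15340512)) (l 15305864)) (l 15339152)) (c (l 15338296) (a (l 15307200) (l 15302608)))))))) (a (a (b (l 15708832) (l 15820920)) (b (a (l 15560952) (c (l 15510456) (l 15453296))) (a (l 15635472) (b (l 15528624) (l 15561472))))) (a (b (c (a (l 15503544) (c (l 15485632) (l 15462520))) (l 15421632)) (c (a (c (l 15570032) (l 15524792)) (c (l 15523552) (l 15504080))) (l 15472408))) (c (b (l 15420360) (l 15444872)) (a (c (b (l 15394376) (l 15428480)) (l 15388464)) (b (c (l 15368216) (l 15339656)) (c (l 15391440) (l 15364648))))))))), by decide +kernel⟩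

def k12_pm_113 : ∃ t, chk3 f_pm_113 t 3 7 1 = true :=
  ⟨(a (b (a (b (a (b (a (l 15065928) (l 15310776)) (l 15382224)) (l 15638552)) (a (b (l 15796360) (l 16020024)) (b (l 16224792) (l 16425352)))) (b (a (b (l 16047288) (l 16308864)) (b (l 16280232) (l 16539656))) (a (b (l 16501336) (l 16626744)) (l 16677888)))) (b (a (a (b (l 16372664) (l 16564248)) (b (l 16599120) (l 16719568))) (a (l 16744424) (l 16758400))) (a (a (l 16733600) (l 16774784)) (l 16768224)))) (b (a (b (a (l 16398784) (l 16158448)) (a (l 16501960) (l 16196920))) (a (a (b (l 15882304) (l 15888384)) (a (l 15675656) (l 15571184))) (c (a (b (a (l 15567328) (c (l 15531080) (l 15512144))) (a (l 15567328) (c (l 15531080) (l 15512144)))) (b (l 15447504) (l 15447504))) (a (b (l 15487024) (l 15487024)) (a (b (l 15407176) (l 15407176)) (c (l 15392376) (a (l 15371568) (l 15355864)))))))) (a (a (l 16519464) (l 16196936)) (a (a (l 15888384) (c (l 15627536) (l 15603512))) (c (a (c (a (l 15584616) (l 15531080)) (l 15525640)) (b (c (l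 15454616) (l 15437296)) (b (l 15447504) (l 15447504)))) (a (l 15487024) (b (c (a (l 15432072) (l 15392376)) (a (l 15411984) (l 15365632))) (a (l 15407176) (b (l 15229232) (l 15376032)))))))))), by decide +kernel⟩

theorem s13_pm_113 : ∃ t, chk3 f_pm_113 t 3 6 1 = true := ex3_a k10_pm_113 k11_pm_113

theorem s14_pm_113 : ∃ t, chk3 f_pm_113 t 3 3 1 = true := ex3_b s13_pm_113 k12_pm_113

theorem s15_pm_113 : ∃ t, chk3 f_pm_113 t 1 3 1 = true := ex3_a k9_pm_113 s14_pm_113

theorem s16_pm_113 : ∃ t, chk3 f_pm_113 t 15 11 1 = true := ex3_a k7_pm_113 k8_pm_113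

theorem s17_pm_113 : ∃ t, chk3 f_pm_113 t 15 21 1 = true := ex3_b k5_pm_113 k6_pm_113

theorem s18_pm_113 : ∃ t, chk3 f_pm_113 t 15 10 1 = true := ex3_b k4_pm_113 s17_pm_113

theorem s19_pm_113 : ∃ t, chk3 f_pm_113 t 15 5 1 = true := ex3_b s18_pm_113 s16_pm_113

theorem s20_pm_113 : ∃ t, chk3 f_pm_113 t 7 5 1 = true := ex3_a k3_pm_113 s19_pm_113

theorem s21_pm_113 : ∃ t, chk3 f_pm_113 t 7 2 1 = true := ex3_b k2_pm_113 s20_pm_113

theorem s22_pm_113 : ∃ t, chk3 f_pm_113 t 3 2 1 = true := ex3_a k1_pm_113 s21_pm_113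

theorem s23_pm_113 : ∃ t, chk3 f_pm_113 t 1 2 1 = true := ex3_a k0_pm_113 s22_pm_113

theorem s24_pm_113 : ∃ t, chk3 f_pm_113 t 1 1 1 = true := ex3_b s23_pm_113 s15_pm_113

theorem c_pm_113 : CertNX 536870912 536870912 0 1230186008 1046898278 26843546 3 false true false .nn 1 1 3
    ndN0q1 ndN5q3 pcN1 cut_pm_113 Ext.none :=
  certNX0 (fam := false) (s1 := true) (s2 := false) (a := 1) (b := 1) (c := 3) (cn := .nn) (n1 := ndN0q1) (n2 := ndN5q3) (pc := pcN1) (cut := cut_pm_113) (xt := Ext.none) (P1 := 536870912) (W1 := 536870912) (P2 := 0) (W2 := 1230186008) (P3 := 1046898278) (W3 := 26843546) (N0 := 3)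
    rfl s24_pm_113

noncomputable def cut_pm_123 : Cut := Cut.of [[⟨0, 1, 0, 67108864⟩, ⟨1, 1, 0, 67108864⟩, ⟨2, 2, 0, 67108864⟩, ⟨3, 0, 0, 1233125376⟩]]

noncomputable def f_pm_123 : ℕ → ℕ → ℕ → ℕ → Bool := onCell 1073741824 536870912 0 1230186008 1046898278 26843546
    (rowNX 3 2 false true false .npn 1 2 3 (qsf 536870912 536870912 0 1230186008 2) ndN0q1 ndN5q3 pcN2 cut_pm_123 Ext.none)

def k0_pm_123 : ∃ t, chk3 f_pm_123 t 2 8 1 = true :=
  ⟨(a (a (a (l 6) (b (a (a (l 6) (a (l 6) (c (l 16593424) (l 16579040)))) (c (a (l 16257000) (l 16068840)) (a (l 16430792) (l 16218176)))) (a (a (b (l 6) (c (l 16581032) (l 16419304))) (c (c (l 16559608) (l 16494248)) (l 16388064))) (c (c (a (l 16342472) (l 16125808)) (l 16079304)) (a (l 16230488) (l 16045472)))))) (a (a (c (b (a (l 16063504) (l 15907152)) (a (l 15932176) (l 15741768))) (b (a (l 16040000) (l 15878128)) (a (l 15872120) (l 15687216)))) (b (c (a (l 15716800) (l 15493816)) (a (l 15681072) (l 15450224))) (c (a (b (l 15582408) (l 15464640))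 (b (l 15339312) (l 15274864))) (a (b (l 15542608) (l 15391040)) (b (l 15290632) (l 15201824)))))) (a (a (b (c (a (l 15307496) (b (l 15223464) (l 15129912))) (a (l 15256624) (l 15032016))) (b (c (a (l 15177304) (l 15088040)) (a (l 15122584) (l 15029504))) (l 15072368))) (b (c (b (l 15021184) (l 14991136)) (b (l 14959600) (l 14928584))) (l 14925032))) (a (b (c (l 14836728) (l 14767992)) (l 14770920)) (l 14629792))))) (a (a (a (l 14440888) (l 14637808)) (l 15400464)) (a (l 16223688) (l 16758856)))), by decide +kernel⟩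

def k1_pm_123 : ∃ t, chk3 f_pm_123 t 2 9 1 = true :=
  ⟨(a (b (a (a (a (l 6) (a (a (l 6) (a (l 6) (b (l 6) (c (l 16367480) (l 16031792))))) (a (b (l 6) (c (l 16361624) (l 16056432))) (c (l 16415648) (l 16092968))))) (a (c (c (l 16343144) (a (l 16316328) (l 16207864))) (a (l 16130992) (l 16033680))) (c (a (c (l 16149240) (l 16053128)) (b (l 15981000) (l 15591176))) (a (l 15890744) (b (l 15816072) (l 15644880)))))) (a (a (a (c (b (l 15775032) (l 15675544)) (b (l 15635928) (l 15494016))) (b (c (l 15576888) (l 15454368)) (l 15424496))) (a (b (c (l 15396656) (l 15285016)) (l 15275608)) (l 15160392))) (l 14785720))) (a (b (a (a (a (l 6) (a (l 6) (a (l 6) (c (l 16254000) (l 15714472))))) (c (a (c (a (l 16343168) (l 16316792)) (l 16131176)) (l 16201072)) (a (c (l 15908296) (l 15692576)) (l 15864904)))) (a (c (a (l 16123760) (l 15887544)) (a (l 15836824) (l 15740544))) (c (a (l 15763168) (l 15615352)) (a (l 15622424) (l 15496104))))) (a (a (a (a (l 6) (a (l 6) (b (l 6) (c (l 16116192) (l 15336032)))))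 (c (c (a (l 16278344) (l 16216064)) (l 15953944)) (c (l 15649472) (l 15349560)))) (c (a (l 16070360) (l 16027504)) (a (l 15647648) (l 15691680)))) (a (a (c (l 15938320) (l 15654560)) (c (l 15820064) (l 15571864))) (l 15534400)))) (a (l 15211720) (l 14696608)))) (a (a (a (l 14426072) (l 14648840)) (l 15401888)) (a (l 16188616) (l 16753128)))), by decide +kernel⟩

def k2_pm_123 : ∃ t, chk3 f_pm_123 t 3 4 1 = true :=
  ⟨(a (a (l 16871928) (l 16746048)) (a (l 16746096) (l 16746096))), by decide +kernel⟩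

def k3_pm_123 : ∃ t, chk3 f_pm_123 t 1 5 1 = true :=
  ⟨(a (a (a (b (a (b (b (a (c (a (c (b (l 16273928) (l 16156728)) (l 15817192)) (a (c (l 16085576) (l 15800096)) (l 15928544))) (a (c (a (l 15364600) (l 15437736)) (a (l 14888800) (l 15074192))) (c (l 15537624) (l 15279008)))) (c (a (c (l 15999584) (l 15806256)) (l 15844568)) (a (c (l 15611592) (l 15425144)) (l 15533352)))) (a (a (b (c (a (l 15911832) (l 15852352)) (c (l 15583288) (a (l 14922552) (l 15078664)))) (l 15461912)) (a (c (l 15770960) (l 15287800)) (l 15551392))) (l 15546328))) (a (b (l 15388360) (l 15276248)) (l 15333104))) (b (l 15407264) (l 15189848))) (a (b (a (l 15173184) (l 15163992)) (b (l 15140744) (l 15132704))) (b (l 15059544) (l 15029192)))) (b (a (b (l 15038312) (a (l 14983640) (l 14834296))) (b (l 14636720) (l 14602704))) (a (b (l 14874312) (l 14912160)) (l 14643096)))) (a (a (a (b (l 14412216) (l 14463984)) (b (l 14637656) (l 14689456))) (b (l 15378392) (l 15417272))) (a (b (l 16232840) (l 16107400)) (b (l 16705416)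 (b (l 16700728) (l 16739440)))))) (a (a (b (l 16702480) (b (l 16689904) (l 16737024))) (b (l 16705216) (l 16726720))) (a (b (l 16705992) (l 16730136)) (b (l 16705992) (l 16730136))))), by decide +kernel⟩

def k4_pm_123 : ∃ t, chk3 f_pm_123 t 2 3 1 = true :=
  ⟨(a (b (a (b (a (b (a (l 15091896) (l 15041976)) (l 14906992)) (l 14924104)) (b (a (l 14721680) (c (l 14806432) (l 14737376))) (a (b (a (l 14544824) (l 14594368)) (c (l 14484848) (l 14383536))) (c (a (l 14614024) (l 14640592)) (l 14558928))))) (b (a (l 14789208) (b (l 14706216) (l 14711912))) (b (a (b (l 14872624) (a (l 14849592) (l 14806120))) (l 14643144)) (a (a (l 14582088) (l 14625648)) (l 14477264))))) (a (b (c (a (l 14076880) (c (l 14216136) (b (l 14311312) (l 13766496)))) (a (b (c (l 14170216) (l 14122352)) (c (l 13843000) (a (l 13759792) (l 13825192)))) (b (l 14248224) (l 13948376)))) (c (a (l 13238440) (c (l 34923396551) (a (l 13554520) (b (l 13794832) (l 13528552))))) (a (b (c (l 13457856) (a (l 13424312) (l 13505920)))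 (c (a (l 13160496) (l 13253592)) (a (l 13098512) (l 13196000)))) (b (l 13548328) (c (l 13390304) (l 13329168)))))) (b (a (c (b (a (l 14422352) (l 14427432)) (a (l 14158400) (l 14191400))) (b (l 14322576) (l 14054752))) (b (l 14312312) (l 14147976))) (a (c (b (a (l 13793816) (l 13959240)) (a (c (l 13699344) (l 13587760)) (l 1))) (b (l 13791264) (l 13536096))) (b (l 13986456) (l 1)))))) (b (a (b (a (a (b (l 14540960) (l 14557176)) (l 14768960)) (b (l 15473624) (l 15440760))) (a (a (l 14495432) (l 14732800)) (b (l 15365648) (l 15289976)))) (a (b (b (l 16302528) (l 16170816)) (b (l 16023960) (l 15874240))) (b (l 16450656) (l 16266976)))) (a (b (a (a (b (l 14417888) (l 14366352)) (l 14669648)) (b (l 15213704) (l 15137840))) (a (a (b (l 14315744) (l 1)) (l 1)) (l 1))) (b (b (a (l 15723472) (l 16028728)) (l 1)) (l 1))))), by decide +kernel⟩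

def k5_pm_123 : ∃ t, chk3 f_pm_123 t 3 3 1 = true :=
  ⟨(b (b (a (a (a (l 16591976) (l 16663752)) (l 16769600)) (a (l 16777168) (l 1))) (a (a (a (l 16397680) (l 16574096)) (a (l 16754648) (l 1))) (l 1))) (l 1)), by decide +kernel⟩

theorem s6_pm_123 : ∃ t, chk3 f_pm_123 t 1 3 1 = true := ex3_a k4_pm_123 k5_pm_123

theorem s7_pm_123 : ∃ t, chk3 f_pm_123 t 2 4 1 = true := ex3_b k0_pm_123 k1_pm_123

theorem s8_pm_123 : ∃ t, chk3 f_pm_123 t 1 4 1 = true := ex3_a s7_pm_123 k2_pm_123

theorem s9_pm_123 : ∃ t, chk3 f_pm_123 t 1 2 1 = true := ex3_b s8_pm_123 k3_pm_123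

theorem s10_pm_123 : ∃ t, chk3 f_pm_123 t 1 1 1 = true := ex3_b s9_pm_123 s6_pm_123

theorem c_pm_123 : CertNX 536870912 536870912 0 1230186008 1046898278 26843546 3 false true false .npn 1 2 3
    ndN0q1 ndN5q3 pcN2 cut_pm_123 Ext.none :=
  certNX2 (fam := false) (s1 := true) (s2 := false) (a := 1) (b := 2) (c := 3) (cn := .npn) (n1 := ndN0q1) (n2 := ndN5q3) (pc := pcN2) (cut := cut_pm_123) (xt := Ext.none) (P1 := 536870912) (W1 := 536870912) (P2 := 0) (W2 := 1230186008) (P3 := 1046898278) (W3 := 26843546) (N0 := 3)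
    rfl (fun _ => rfl) s10_pm_123

noncomputable def f_pm_133 : ℕ → ℕ → ℕ → ℕ → Bool := onCell 536870912 536870912 0 1230186008 1046898278 26843546
    (rowNX 3 0 false true false .dn 1 3 3 (qsf 536870912 536870912 0 1230186008 3) ndN0q1 ndN5q3 pcN3 Cut.none Ext.none)

def k0_pm_133 : ∃ t, chk3 f_pm_133 t 1 1 1 = true :=
  ⟨(b (a (b (a (a (l 16745448) (l 1)) (l 1)) (l 1)) (l 1)) (l 1)), by decide +kernel⟩

theorem c_pm_133 : CertNX 536870912 536870912 0 1230186008 1046898278 26843546 3 false true false .dn 1 3 3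
    ndN0q1 ndN5q3 pcN3 Cut.none Ext.none :=
  certNX0 (fam := false) (s1 := true) (s2 := false) (a := 1) (b := 3) (c := 3) (cn := .dn) (n1 := ndN0q1) (n2 := ndN5q3) (pc := pcN3) (cut := Cut.none) (xt := Ext.none) (P1 := 536870912) (W1 := 536870912) (P2 := 0) (W2 := 1230186008) (P3 := 1046898278) (W3 := 26843546) (N0 := 3)
    rfl k0_pm_133

noncomputable def f_pm_202 : ℕ → ℕ → ℕ → ℕ → Bool := onCell 0 536870912 0 536870912 1046898278 26843546
    (rowNX 3 1 false true false .pp 2 0 2 (qsf 0 536870912 1073741824 536870912 0) ndN0q2 ndN5q2 pcN0 Cut.none Ext.none)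

def k0_pm_202 : ∃ t, chk3 f_pm_202 t 2 1 1 = true :=
  ⟨(l 3), by decide +kernel⟩

def k1_pm_202 : ∃ t, chk3 f_pm_202 t 12 8 1 = true :=
  ⟨(l 3), by decide +kernel⟩

def k2_pm_202 : ∃ t, chk3 f_pm_202 t 26 8 1 = true :=
  ⟨(l 3), by decide +kernel⟩

def k3_pm_202 : ∃ t, chk3 f_pm_202 t 27 64 2 = true :=
  ⟨(b (a (a (l 3) (c (l 16113216) (l 16104112))) (a (c (l 16127992) (l 16119592)) (c (l 16151216) (l 16146568)))) (a (l 180555070199) (a (c (l 16148608) (b (l 16166552) (c (l 16199928) (l 16198136)))) (c (l 16206464) (b (l 16192040) (c (l 16214080) (l 16195152))))))), by decide +kernel⟩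

def k4_pm_202 : ∃ t, chk3 f_pm_202 t 27 64 6 = true :=
  ⟨(b (b (a (b (l 193439752487) (l 16079752)) (a (l 16050064) (l 16128184))) (a (l 16106304) (c (a (l 16129648) (l 16165056)) (a (a (l 16119488) (l 16131936)) (b (l 16163800) (c (l 16179456) (a (l 16167008) (l 16196456)))))))) (a (l 187534319655) (a (c (b (l 16098776) (l 16200408)) (b (a (l 16157680) (l 16166792)) (a (l 16199600) (l 16213976)))) (b (c (l 16110856) (a (l 16165896) (c (l 16211672) (l 16211152)))) (c (l 16203240) (c (l 16231352) (l 16191680))))))), by decide +kernel⟩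

def k5_pm_202 : ∃ t, chk3 f_pm_202 t 27 64 7 = true :=
  ⟨(c (b (b (a (b (l 16056240) (l 16072608)) (b (l 16096048) (a (a (c (l 16091296) (l 16089024)) (l 16093960)) (l 16096720)))) (a (l 16102312) (a (b (a (a (l 16105376) (l 16110504)) (c (l 16127232) (l 16114056))) (c (a (l 16127376) (l 16141384)) (l 16091016))) (b (c (c (l 16160616) (l 16159472)) (l 16135352)) (c (l 16093560) (l 16168808)))))) (b (a (l 16143120) (c (a (a (l 16160536) (l 16172232)) (b (l 16190472) (l 16206296))) (l 16111016))) (c (l 185386877031) (c (l 186460638119) (b (l 16153608) (l 185923799175)))))) (b (c (b (a (b (l 16052280) (l 16070968)) (b (l 16098864) (b (c (l 16085864) (l 16109144)) (c (l 16094024) (l 16117480))))) (a (c (l 16102824) (l 195050372695)) (a (c (l 16060368) (l 16124520)) (l 16164000)))) (b (b (a (c (l 204177097991) (c (l 204713978791) (b (l 205787685239) (l 203640260711)))) (c (l 16102432) (b (l 16103240) (l 16109192)))) (a (c (l 16071704) (b (c (l 200955905063) (l 16065224)) (l 16075936))) (c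 (l 16115720) (a (l 16034376) (l 16147224))))) (c (b (c (l 197734731527) (a (l 196124109399) (l 16133120))) (a (l 193976658647) (l 16126472))) (a (l 16100944) (l 16137592))))) (c (c (b (a (l 192902971671) (l 16175752)) (c (b (l 16113208) (l 186460643943)) (b (l 188608087159) (l 186460676423)))) (b (c (b (l 192903002999) (l 190755529543)) (a (l 193976708535) (l 16112440))) (l 188608105703))) (a (l 16160136) (l 16192544))))), by decide +kernel⟩

def k6_pm_202 : ∃ t, chk3 f_pm_202 t 27 65 1 = true :=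
  ⟨(b (c (a (l 181092065975) (a (a (a (l 16256072) (l 16216752)) (b (c (l 16233688) (l 16174680)) (l 16279112))) (c (b (l 16247464) (c (l 16276064) (l 16279368))) (c (b (l 16226920) (l 16289096)) (l 16236456))))) (c (b (a (l 188071331063) (c (a (l 16243896) (l 16265136)) (a (l 16247792) (c (l 16269952) (l 16270744))))) (c (a (l 16259048) (a (l 16283104) (l 16311152))) (l 177870835335))) (c (b (c (l 182165750615) (b (c (l 16240336) (c (l 16156128) (l 183776350343))) (c (l 181628905735) (l 182165752135)))) (b (c (l 179481451879) (c (c (l 180018367767) (l 180555201783)) (l 16230328))) (a (l 3) (c (c (l 16318088) (l 16318336)) (l 16243952))))) (a (l 16240016) (l 16210448))))) (a (l 3) (c (c (a (l 16269728) (c (l 16295496) (l 16348112))) (c (a (l 16337424) (l 16359976)) (a (l 16257224) (l 16286008)))) (c (c (a (l 16345512) (l 16374848)) (c (l 16319536) (b (l 16345456) (c (l 16392808) (b (l 16384152) (l 16400888)))))) (c (c (b (b (c (l 16340728) (b (l 16329376) (l 16334952))) (c (l 16359048)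 (l 16346728))) (b (c (b (l 16370664) (l 16375584)) (l 16364848)) (l 16302384))) (l 16353952)) (l 16352048)))))), by decide +kernel⟩

def k7_pm_202 : ∃ t, chk3 f_pm_202 t 27 33 1 = true :=
  ⟨(a (l 3) (c (c (b (b (a (a (l 16402488) (l 16411696)) (a (l 16425016) (l 16417168))) (a (c (l 16438904) (a (l 16471312) (l 16467040))) (b (l 16490288) (l 16481488)))) (c (a (l 16459216) (l 16453072)) (a (l 16472848) (l 16467144)))) (b (b (a (a (l 16386448) (l 16376664)) (a (l 16436352) (l 16411848))) (c (l 16482400) (l 16407456))) (b (c (l 16451952) (l 16475592)) (c (a (l 16458584) (l 16455552)) (c (l 16430840) (b (c (l 16464312) (b (l 16470872) (l 16433984))) (c (b (l 16432240) (l 16420192)) (l 16441088)))))))) (c (b (c (c (b (l 16354920) (l 16527616)) (b (l 16383688) (b (l 16464432) (c (l 16520128) (l 16510208))))) (b (c (b (l 16433344) (c (l 16458816) (b (l 16426968) (l 16479520)))) (b (c (b (l 16426872) (l 16442040)) (b (l 16350504) (l 16364632))) (c (a (l 174113067847) (l 16454424)) (l 16455352))))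 (c (b (b (c (l 16508080) (l 16446536)) (c (l 16497760) (l 16501280))) (c (b (l 16527216) (l 16539928)) (l 16527984))) (l 16508384)))) (c (c (b (b (c (l 16545032) (l 16478904)) (c (b (l 16510192) (l 16492768)) (l 16514240))) (b (c (l 16477376) (b (l 16500512) (l 16487440))) (c (b (l 16401136) (l 16435696)) (l 16461648)))) (b (b (c (l 16551680) (b (l 16544648) (l 16561176))) (c (b (l 16537304) (l 16524144)) (l 16535024))) (l 16479536))) (l 16473816))) (b (b (l 16391968) (l 16507016)) (l 16451512))))), by decide +kernel⟩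

def k8_pm_202 : ∃ t, chk3 f_pm_202 t 54 17 1 = true :=
  ⟨(l 3), by decide +kernel⟩

def k9_pm_202 : ∃ t, chk3 f_pm_202 t 55 17 4 = true :=
  ⟨(c (c (b (b (a (l 16335328) (l 16330264)) (l 168206987319)) (b (b (l 16098368) (a (b (l 16039544) (l 174112293751)) (b (l 16032712) (c (l 15995728) (l 16006112))))) (b (a (l 15993600) (l 15983096)) (a (b (l 15982072) (l 15964448)) (b (c (l 15961416) (l 15978232)) (c (l 15949000) (l 15953560))))))) (b (b (b (l 16355792) (l 167133573255)) (l 16211920)) (b (b (a (b (l 16108296) (l 174112415367)) (b (l 16102064) (c (l 16063168) (l 16069536)))) (a (l 16054000) (l 16044200))) (b (a (a (l 3) (l 15986968)) (b (c (l 16020832) (l 16037736)) (l 16009128))) (l 15962952))))) (b (b (b (a (l 16333200) (l 16350536)) (l 16324008)) (b (c (l 16240712) (b (l 16246752) (c (l 16205184) (a (l 16209336) (l 16204096))))) (c (b (l 16172696) (a (l 16142304) (c (l 16133224) (l 16135632)))) (b (c (a (l 16175128) (l 16169520)) (l 16183640)) (l 16166376))))) (b (b (c (a (l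 16116368) (l 16044448)) (a (a (l 3) (l 16150520)) (b (l 16109528) (l 16131080)))) (c (a (a (l 3) (l 16089072)) (b (l 16047200) (l 16069400))) (l 16086816))) (l 15990512)))), by decide +kernel⟩

def k10_pm_202 : ∃ t, chk3 f_pm_202 t 55 17 5 = true :=
  ⟨(b (b (c (b (b (l 16407552) (c (l 16368952) (l 16311536))) (c (b (l 16322368) (c (l 16280152) (b (l 16283600) (l 16265336)))) (b (c (l 16270392) (l 168744160967)) (c (l 16284736) (l 16305976))))) (b (c (b (c (l 16387912) (b (l 16396400) (l 16384296))) (c (b (l 16359568) (l 16349136)) (l 16374568))) (b (a (l 16361384) (a (l 16354760) (l 16413384))) (b (c (l 16377504) (l 16405768)) (l 169281163623)))) (c (b (c (l 16340096) (b (l 16321920) (l 16331240))) (c (b (l 16287648) (l 16276128)) (l 16327864))) (l 16344032)))) (c (b (c (b (c (a (l 16244216) (l 16218480)) (l 16250408)) (l 16227768)) (a (a (l 16280576) (l 16256432)) (b (c (l 16272440) (l 16268152)) (c (l 16256424) (l 16261472))))) (c (a (a (l 3) (l 16192320)) (b (c (l 16207480) (l 16224360))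 (l 16194184))) (l 16209296))) (l 16239984))) (a (l 16062072) (l 16048408))), by decide +kernel⟩

def k11_pm_202 : ∃ t, chk3 f_pm_202 t 55 17 3 = true :=
  ⟨(b (b (b (c (l 16384408) (l 16401512)) (l 16338240)) (l 16168160)) (a (l 16046160) (l 16032000))), by decide +kernel⟩

def k12_pm_202 : ∃ t, chk3 f_pm_202 t 6 9 1 = true :=
  ⟨(a (l 3) (a (l 3) (a (l 3) (a (a (l 3) (b (b (c (b (b (c (l 176259627111) (l 15921976)) (l 15987816)) (l 16117112)) (b (b (l 15901992) (l 15963456)) (l 16097496))) (l 3)) (l 3))) (b (b (b (c (b (c (l 15896488) (l 15882608)) (c (a (l 15907216) (l 15833104)) (l 15862192))) (b (l 15861432) (a (l 15872648) (l 15794880)))) (c (c (l 15867648) (l 15959952)) (l 15793920))) (c (c (l 15947432) (l 16105904)) (c (l 16075464) (l 15981936)))) (b (c (b (l 16226840) (l 16364184)) (b (l 16235360) (l 16335072))) (c (l 172502508695) (b (l 16430288) (l 16455256))))))))), by decide +kernel⟩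

def k13_pm_202 : ∃ t, chk3 f_pm_202 t 6 5 1 = true :=
  ⟨(b (a (l 3) (b (a (l 3) (a (l 3) (b (c (c (l 16110384) (l 16207800)) (l 104319231991)) (l 3)))) (l 3))) (l 3)), by decide +kernel⟩

def k14_pm_202 : ∃ t, chk3 f_pm_202 t 14 16 4 = true :=
  ⟨(b (b (a (b (a (a (l 16178024) (l 16210600)) (a (l 16195952) (l 16250512))) (a (l 16268600) (c (l 16290136) (l 16231952)))) (a (b (l 16356328) (a (l 16310136) (l 16490448))) (l 16514248))) (b (b (a (a (l 16248016) (c (l 16418776) (a (l 16401888) (l 16410328)))) (a (c (l 16496568) (l 16535832)) (l 16644576))) (a (a (c (l 16290088) (a (l 16308960) (l 16366656))) (c (l 16367824) (c (a (l 16425728) (l 16446496)) (l 16353720)))) (a (a (c (b (l 16523096) (l 16545152)) (c (l 16534816) (l 16531328))) (l 16580728)) (c (l 16601616) (l 16603712))))) (a (a (a (c (l 16291520) (l 16369608)) (c (l 16397984) (l 16407904))) (c (b (l 16428936) (l 16487896)) (a (l 16452320) (l 16479464)))) (a (c (c (a (l 16505088) (l 16489008)) (l 16464656)) (a (l 16540976) (l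 16612368))) (l 16576912))))) (a (b (b (a (b (l 16362480) (c (l 16434472) (l 16404600))) (c (l 16525112) (l 16524328))) (c (a (a (b (l 16514872) (l 16557720)) (l 16505728)) (l 16486464)) (a (a (l 16418624) (l 16559680)) (l 16555416)))) (a (c (b (a (l 16553672) (l 16542552)) (l 16429512)) (l 16379992)) (c (l 16369128) (l 16446728)))) (b (b (c (a (a (l 16582336) (l 16627144)) (l 16530920)) (a (a (l 16565304) (l 16431120)) (l 16566416))) (c (a (b (l 16617104) (l 16590016)) (a (b (l 16563256) (l 16545312)) (l 16500584))) (a (a (l 16619952) (l 16489160)) (l 16439272)))) (a (c (l 16419456) (l 16468176)) (b (b (l 16476776) (l 16434032)) (l 16365048)))))), by decide +kernel⟩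

def k15_pm_202 : ∃ t, chk3 f_pm_202 t 14 16 5 = true :=
  ⟨(c (b (a (b (a (b (a (l 16178608) (l 16209968)) (a (l 16251960) (l 16305824))) (a (b (l 16245992) (l 16325344)) (l 16342528))) (b (b (a (a (l 16290216) (l 16349224)) (c (a (l 16390784) (l 16393000)) (a (l 16346368) (l 16455328)))) (a (l 16343408) (a (l 16423720) (l 16464200)))) (a (l 16272536) (a (l 16446032) (l 16417472))))) (b (l 16330384) (a (a (b (l 16506200) (l 16516936)) (l 16498472)) (a (l 16560552) (l 16526416))))) (a (b (b (a (b (l 16446864) (l 16433256)) (c (l 16521584) (l 16523472))) (l 16465704)) (a (c (l 16375184) (l 16370192)) (l 16439576))) (b (b (b (c (l 16405344) (l 16450520)) (l 16420640)) (l 16525704)) (a (l 16409808) (l 16334640))))) (b (a (a (b (b (a (l 16181624) (b (l 16188224) (l 16239096))) (a (b (l 16242096) (l 16271800)) (b (l 16290488) (c (l 16332976) (b (l 16328368) (l 16339904)))))) (b (a (l 16311072) (l 16296192)) (a (l 16334680) (l 16355736)))) (b (b (l 16281176) (b (l 16357408) (a (a (c (l 16367800)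 (l 16346152)) (l 16389608)) (l 16421744)))) (b (b (a (l 16350256) (l 16439232)) (a (l 16403568) (l 16442040))) (b (c (l 16440416) (l 16387704)) (l 16382840))))) (b (b (l 16397616) (b (l 16514128) (a (l 16481336) (l 16653632)))) (b (l 16597072) (a (l 16502632) (l 16611840))))) (a (a (b (b (l 16436456) (l 16501928)) (c (l 16343344) (b (l 16527224) (b (l 16420168) (a (l 16431808) (l 16427104)))))) (b (l 16443512) (b (l 16518944) (l 16367984)))) (b (l 16396376) (b (l 16376000) (l 16182536)))))), by decide +kernel⟩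

def k16_pm_202 : ∃ t, chk3 f_pm_202 t 14 32 3 = true :=
  ⟨(a (b (c (b (a (b (l 16175608) (c (a (l 16095664) (l 16235456)) (b (l 16213552) (c (l 16232576) (c (l 16152456) (l 16253176)))))) (l 16275712)) (a (b (a (c (c (l 16252632) (b (l 16247336) (l 16263192))) (c (b (c (l 16248256) (l 16245480)) (l 16254776)) (l 16190496))) (c (c (l 16275232) (b (l 16293640) (l 16265872))) (l 16290080))) (c (a (c (l 16274640) (l 16274328)) (c (l 16241704) (l 16313456))) (c (l 16218304) (l 16192376)))) (c (l 16226576) (b (l 16355512) (l 16367808))))) (b (c (b (l 16243248) (c (l 16261416) (l 16235800))) (b (c (l 16121096) (c (l 16122528) (l 16165360))) (c (l 16276352) (l 16281488)))) (c (b (b (l 16293280) (l 16197984)) (l 16306488)) (l 16329160)))) (b (c (a (c (c (a (l 16314256) (b (l 16338496) (l 16358496))) (b (l 16211072) (l 16344088))) (b (l 16188272) (l 16349496))) (c (b (b (l 16391840) (l 16324400)) (b (l 16313216) (l 16389328))) (l 16409080))) (c (b (l 16302672) (c (l 16348840) (l 16312176))) (l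 16340656))) (c (c (a (l 16367928) (l 16417432)) (a (l 16331296) (l 16458568))) (c (a (b (c (l 16354168) (l 16394336)) (l 16332288)) (l 16498560)) (l 16321712))))) (b (c (b (a (l 16296192) (l 16429904)) (c (b (l 16291264) (l 16482064)) (b (l 16347104) (l 16359688)))) (b (c (b (a (l 16393432) (l 16549880)) (a (b (l 16423784) (l 16395456)) (b (l 16579768) (l 16572264)))) (b (c (a (l 16334808) (l 16459272)) (a (b (l 16307984) (l 16406904)) (c (l 16459464) (l 16474608)))) (a (l 16344240) (l 16459456)))) (c (c (b (l 16377664) (l 16487968)) (l 16378528)) (l 16409896)))) (c (b (c (b (l 16530880) (l 16356648)) (b (l 16361240) (l 16584896))) (l 16388224)) (a (l 16406120) (l 16481272))))), by decide +kernel⟩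

def k17_pm_202 : ∃ t, chk3 f_pm_202 t 14 33 3 = true :=
  ⟨(a (a (c (b (c (c (l 16401808) (a (b (l 16459032) (c (l 16565704) (l 16416568))) (l 16377760))) (b (c (b (l 16478208) (a (l 16479192) (l 16525264))) (b (l 16414416) (c (a (l 16491072) (l 16526808)) (l 16479616)))) (c (b (c (l 16554248) (l 16462560)) (a (l 16466856) (l 16576624))) (l 16563152)))) (c (b (c (b (l 16543744) (c (l 16501736) (l 16508112))) (b (c (l 16548072) (l 16535472)) (c (l 16495648) (l 16519360)))) (c (a (b (l 16475616) (l 16450096)) (b (b (l 16478440) (l 16443280)) (l 16418400))) (l 16459592))) (l 16477416))) (b (c (a (l 16450072) (l 16485544)) (l 16372864)) (l 16454784))) (c (b (c (c (l 16470776) (l 16370080)) (b (l 16477272) (b (l 16595456) (l 16511440)))) (c (c (b (l 16515248) (b (l 16387960) (l 16409968))) (b (b (l 16510344) (l 16495576)) (l 16432112))) (b (l 16490944) (l 16433496)))) (b (a (l 16380600) (l 16585664)) (b (l 16450464) (l 16388296))))) (c (b (c (l 16308568) (a (l 16381072) (l 16451552))) (a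 (b (c (b (l 16489912) (l 16384632)) (l 16440224)) (c (l 16299120) (l 16384640))) (l 16310824))) (a (b (l 16552648) (l 16376336)) (l 16327208)))), by decide +kernel⟩

def k18_pm_202 : ∃ t, chk3 f_pm_202 t 14 34 2 = true :=
  ⟨(c (a (a (b (a (l 16301464) (b (l 16371144) (l 16314448))) (c (l 16169760) (b (l 16225136) (c (b (l 16166744) (c (l 16126480) (b (l 16133504) (l 16120864)))) (b (c (b (l 16169008) (l 16154808)) (l 16175752)) (l 16152368)))))) (b (b (l 16346120) (a (l 16284000) (l 16293304))) (b (c (l 16228720) (a (l 16193424) (l 16208000))) (c (l 16145144) (c (b (l 16151720) (l 16070720)) (b (l 16068960) (l 16125048))))))) (b (a (c (l 16295704) (l 16242376)) (l 16119416)) (c (a (l 16148096) (l 16076824)) (b (a (l 16181480) (l 16094224)) (a (l 16102776) (a (l 16041320) (l 15988144))))))) (b (a (b (c (a (l 16242776) (l 16349312)) (c (a (b (a (l 16387744) (l 16384056)) (l 16350184)) (l 16323976)) (a (a (l 16391600) (b (l 16396992) (l 16366672))) (a (l 16371072) (l 16358736))))) (c (c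 (a (l 16289224) (l 16289816)) (b (c (l 16304136) (l 16265552)) (a (l 16284032) (l 16269576)))) (c (a (b (l 16331168) (l 16304680)) (a (a (l 16197128) (l 16295952)) (l 16287352))) (l 16307488)))) (a (a (c (l 16169824) (b (c (l 16346760) (l 16323424)) (l 16269952))) (c (l 16159688) (b (l 16297104) (l 16184056)))) (c (l 16156080) (b (l 16184936) (l 16141456))))) (a (a (c (b (c (l 16227720) (l 16122344)) (a (c (a (a (b (l 16165080) (l 16184368)) (l 16190040)) (l 16184672)) (l 16197568)) (l 16154760))) (l 16226800)) (c (b (a (c (l 16152240) (b (l 16244408) (l 16213936))) (l 16209736)) (c (b (c (l 16165656) (l 16173032)) (l 16075488)) (l 16156080))) (l 16191352))) (c (b (a (c (l 16178288) (a (l 16199864) (l 16157408))) (l 16040704)) (c (a (l 16104912) (l 15965976)) (l 15949144))) (a (l 16083056) (a (l 16067952) (l 15995408))))))), by decide +kernel⟩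

def k19_pm_202 : ∃ t, chk3 f_pm_202 t 14 35 2 = true :=
  ⟨(c (b (c (a (b (c (a (l 16087712) (l 16065800)) (a (b (l 16094280) (c (l 16055208) (b (l 16064544) (l 16055096)))) (b (l 16076632) (l 16039848)))) (a (a (a (c (b (l 16026280) (c (l 15989096) (l 15998360))) (l 16034456)) (l 16021984)) (c (l 16002272) (l 16019408))) (c (b (l 16003776) (l 15969960)) (l 15999736)))) (b (a (l 16031688) (l 15948256)) (a (b (l 15974872) (a (c (l 15954336) (l 15966816)) (l 15921776))) (l 15869656)))) (a (b (b (c (a (a (a (l 16063680) (l 16100952)) (l 16094256)) (l 16080456)) (a (c (l 16129616) (b (l 16150552) (l 16139160))) (l 15994104))) (a (c (l 16087672) (c (b (l 16055648) (l 16044408)) (l 16116120))) (c (l 16055656) (l 16070008)))) (a (c (a (a (b (c (l 16070072) (l 16085288)) (l 16055352)) (l 16056192)) (l 16043648)) (l 16067176)) (c (b (l 16031752) (l 16005120)) (l 16020496)))) (b (a (l 15990528) (c (l 15941584) (l 15938176))) (a (b (l 15985432) (a (l 15975672) (l 15928952))) (l 15780360))))) (c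 (b (a (c (a (a (l 15969024) (l 15955480)) (l 15935008)) (a (a (b (c (l 16004480) (a (l 16023880) (l 16015272))) (c (b (l 15994672) (l 15984056)) (l 15992384))) (l 15980744)) (l 15869968))) (a (c (l 15892936) (a (a (l 15930808) (l 15916408)) (l 15878200))) (c (l 15796656) (l 15796632)))) (a (c (a (a (b (c (l 15943264) (b (l 15964184) (l 15953784))) (c (b (l 15934176) (l 15924048)) (l 15931976))) (l 15919320)) (b (l 15904584) (l 15879432))) (a (l 15942688) (l 15895000))) (a (a (c (b (l 15873488) (l 15844616)) (l 15860040)) (l 15811576)) (l 15730208)))) (a (a (l 15969968) (l 15923192)) (a (l 15868448) (l 15674744))))) (a (a (b (l 16093640) (l 15960608)) (b (l 16046952) (l 15913064))) (a (b (l 15998752) (l 15857480)) (b (l 15745576) (l 15729688))))), by decide +kernel⟩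

def k20_pm_202 : ∃ t, chk3 f_pm_202 t 14 17 3 = true :=
  ⟨(b (a (b (a (c (l 16234752) (l 16292648)) (b (c (l 16326368) (l 16346096)) (l 16302240))) (a (l 16217400) (a (l 16184240) (l 16171552)))) (c (a (b (c (b (l 16223704) (l 16251968)) (l 16159784)) (l 16081232)) (b (l 16131824) (a (l 16056312) (l 15994208)))) (a (b (a (l 16259872) (l 16266448)) (l 15988880)) (b (l 16160896) (l 16012808))))) (a (a (a (b (l 16080816) (l 15944240)) (l 15992456)) (b (l 16030504) (l 15892464))) (a (b (l 15980912) (l 15835144)) (b (a (l 15828360) (l 15759368)) (a (l 15750016) (l 15682464)))))), by decide +kernel⟩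

def k21_pm_202 : ∃ t, chk3 f_pm_202 t 14 36 1 = true :=
  ⟨(a (a (c (b (a (c (b (l 15860552) (l 15767664)) (b (l 15845944) (l 15751248))) (c (b (l 15829992) (l 15713664)) (l 15629760))) (a (b (b (c (l 15726040) (l 15708784)) (l 15681960)) (l 15768208)) (b (a (c (b (l 15644048) (l 15596264)) (l 15601576)) (l 15571888)) (a (c (l 15599808) (l 15580008)) (c (l 15507632) (l 15486080)))))) (b (a (b (l 15823608) (l 15726136)) (b (l 15791432) (l 15627424))) (a (b (b (l 15619488) (l 15688984)) (l 15734816)) (b (a (b (l 15596344) (l 15546200)) (l 15531064)) (a (l 15549728) (b (l 15451504) (l 15442720))))))) (c (b (c (l 15536680) (l 15686736)) (c (a (l 15385072) (l 15385280)) (l 15279240))) (b (l 15470856) (a (l 15307760) (l 15324864))))) (b (c (a (a (c (l 15529680) (l 15615456)) (c (b (l 15677584) (l 15474648)) (l 15536880))) (l 15307912)) (a (a (l 15502312) (b (l 15631368) (l 15418584))) (l 15453424))) (c (a (b (c (a (l 15379040) (l 15278384)) (l 15302648)) (c (l 15163312) (l 15135224))) (a (a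 (c (l 14937800) (l 15097824)) (l 15092728)) (l 15076280))) (a (b (a (l 15318312) (l 15212912)) (l 15092288)) (a (a (l 15011968) (l 15033712)) (l 15016704)))))), by decide +kernel⟩

def k22_pm_202 : ∃ t, chk3 f_pm_202 t 14 37 1 = true :=
  ⟨(a (a (c (a (c (l 15869240) (l 15918440)) (b (c (a (l 15693896) (l 15571560)) (l 15607912)) (c (l 15750864) (l 15733536)))) (a (l 15708704) (b (b (l 15443040) (l 15568808)) (l 15581208)))) (c (b (a (b (c (a (l 15410144) (l 15301600)) (l 15337336)) (l 15385760)) (b (c (l 15191528) (l 15163928)) (c (a (l 15187576) (l 15069608)) (l 15105872)))) (a (c (a (l 15568072) (l 15415976)) (l 15474672)) (c (l 15188664) (l 15160776)))) (b (a (b (l 15132264) (l 15337352)) (b (l 15121752) (l 15020008))) (a (a (a (l 15552648) (l 15473280)) (l 15356152)) (l 15118152))))) (a (c (b (c (a (b (l 15077584) (l 14944240)) (l 14863336)) (a (l 14979344) (l 14829624))) (a (c (b (a (l 14937824) (l 14806536)) (l 14897552)) (l 14858064)) (c (b (l 14648448) (a (l 14640712) (l 14491672)))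 (b (l 14610704) (l 14533784))))) (b (a (l 14869032) (l 14778088)) (a (b (l 14730776) (l 14813368)) (b (l 14553008) (l 14473872))))) (c (b (a (c (b (l 14809880) (l 14627416)) (b (l 14775232) (l 14589360))) (b (l 14750584) (c (l 14548408) (l 14508912)))) (a (c (l 14395920) (l 14353536)) (c (b (a (l 14344896) (l 14316008)) (a (l 14177440) (l 14102688))) (b (l 14292768) (l 14094352))))) (b (a (b (l 14722264) (l 14531176)) (b (l 14678736) (l 14448544))) (a (l 14288760) (b (l 14226368) (l 14022440))))))), by decide +kernel⟩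

def k23_pm_202 : ∃ t, chk3 f_pm_202 t 14 19 1 = true :=
  ⟨(a (b (b (a (c (c (l 15871288) (l 15984328)) (l 15713088)) (c (a (a (c (l 15650160) (l 15673440)) (c (l 15550024) (l 15528672))) (c (l 15306408) (l 15280504))) (a (a (b (l 15613536) (l 15679896)) (l 15475072)) (l 15240912)))) (a (c (l 15906896) (l 15886312)) (a (c (a (l 15861816) (l 15716344)) (a (l 15830520) (l 15638328))) (l 15478688)))) (a (c (b (l 16055080) (l 16272984)) (b (c (l 16169712) (l 16099168)) (l 16243024))) (a (c (b (l 15900944) (l 16167856)) (b (l 15811240) (l 16148040))) (a (c (b (l 15814808) (l 16016968)) (b (l 15739536) (l 15991280))) (l 15712728))))) (b (b (c (a (c (b (l 14764504) (a (l 15003144) (l 14632536))) (b (l 14728696) (l 14783592))) (b (a (c (a (l 14307168) (l 14152864)) (l 14191904)) (c (l 13976168) (l 13926056))) (c (a (l 14245616) (b (l 13885144) (a (l 13965816) (l 13785512)))) (b (l 14013600) (l 14025000))))) (a (a (l 14808816) (l 14467264)) (b (a (l 14122552) (l 13849464)) (a (l 14131048) (b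 (l 13754128) (l 13747824)))))) (a (c (l 14800552) (l 14925168)) (c (a (l 14425536) (l 14034040)) (l 14138608)))) (c (a (a (l 15539280) (l 15197000)) (b (l 14518552) (l 14787784))) (a (a (l 15495328) (l 15140240)) (l 14431704))))), by decide +kernel⟩

def k24_pm_202 : ∃ t, chk3 f_pm_202 t 30 16 1 = true :=
  ⟨(b (c (b (c (a (l 16572064) (a (l 16617496) (l 16525504))) (c (a (l 16659904) (l 16547728)) (b (l 16674664) (b (l 16621552) (a (l 16577320) (l 16582384)))))) (c (b (b (a (l 16571432) (c (l 16589080) (l 16526440))) (a (c (l 16522528) (l 16468976)) (c (a (l 16535088) (l 16550336)) (a (l 16512232) (l 16546144))))) (a (c (l 16382432) (l 16492024)) (c (a (l 16415312) (l 16513992)) (l 16512984)))) (b (c (b (a (l 16543432) (c (l 16558808) (l 16548392))) (l 16557848)) (l 16552264)) (c (a (l 16509776) (l 16525072)) (a (l 16515976) (l 16455912)))))) (b (c (b (a (l 16533616) (b (l 16709904) (l 16573976))) (b (a (c (l 16612560) (l 16616896)) (c (l 16615264) (l 16619440))) (c (l 16588568) (c (l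 16601384) (l 16604904))))) (b (c (b (a (l 16686952) (l 16691352)) (b (a (l 16654832) (l 16657760)) (c (l 16637680) (l 16644496)))) (b (c (a (l 16534488) (b (l 16695296) (l 16674656))) (a (c (l 16511024) (l 16551352)) (b (c (l 16692416) (l 16669896)) (l 16673816)))) (c (a (l 16648360) (l 16650696)) (l 16640328)))) (c (b (a (l 16622200) (l 16624576)) (l 16591848)) (l 16506328)))) (a (c (b (c (l 16560896) (l 16552104)) (l 16487088)) (c (l 16490920) (l 16482080))) (c (b (c (l 16564824) (l 16514016)) (l 16489912)) (l 16407000))))) (c (c (b (c (a (c (l 16451136) (l 16426744)) (a (l 16320176) (l 16459792))) (a (b (l 16471440) (l 16385120)) (b (l 16386232) (a (l 16425792) (l 16332096))))) (a (a (l 16192272) (l 16292504)) (c (a (l 16196192) (l 16355624)) (l 16304840)))) (b (c (b (a (l 16387520) (c (l 16386864) (l 16472832))) (l 16304136)) (l 16409664)) (a (l 16257928) (l 16267360)))) (c (b (c (l 16378264) (l 16249200)) (c (l 16194504) (l 16203824))) (l 16058896)))), by decide +kernel⟩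

def k25_pm_202 : ∃ t, chk3 f_pm_202 t 30 17 1 = true :=
  ⟨(c (b (c (a (a (b (l 16173768) (l 15989232)) (b (l 16161656) (l 15774792))) (a (b (l 16175536) (c (l 16029632) (l 15969168))) (l 15933648))) (b (a (c (l 16120248) (l 16078376)) (l 15891072)) (a (c (a (b (l 15993072) (l 15911696)) (l 15824352)) (l 15943056)) (l 15858624)))) (c (b (a (a (l 15825592) (c (l 15815320) (l 15791696))) (a (c (l 15850808) (l 15613216)) (c (l 15868624) (b (l 15869272) (l 15792984))))) (c (a (a (b (b (l 15736328) (l 15700936)) (l 15602720)) (l 15657840)) (a (l 15458200) (b (l 15735576) (l 15658512)))) (a (l 15513992) (a (l 15648720) (l 15677376))))) (a (b (l 15674216) (a (l 15652616) (l 15609760))) (c (a (l 15674216) (b (l 15802688) (l 15670800))) (l 15716632))))) (b (b (l 15886784) (c (l 15867592) (l 15903096))) (a (b (l 15628320) (a (l 15566088) (l 15603864))) (b (l 15757904) (l 15626648))))), by decide +kernel⟩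

def k26_pm_202 : ∃ t, chk3 f_pm_202 t 31 16 2 = true :=
  ⟨(b (b (a (c (l 16698512) (a (b (l 16719600) (c (l 16654960) (b (l 16658496) (a (l 16599200) (l 16620040))))) (l 16695616))) (l 16595552)) (a (c (b (b (l 16589080) (c (l 16431168) (b (l 16469416) (l 16541048)))) (a (l 16491576) (l 16423840))) (b (c (b (a (c (l 16586424) (l 16586424)) (l 16578416)) (l 16537480)) (a (l 16581176) (l 16589856))) (c (l 16516208) (a (c (l 16511440) (l 16498288)) (b (l 16548864) (l 16479848)))))) (b (c (l 16561264) (l 16592864)) (c (l 16527400) (l 16555680))))) (c (b (b (a (l 16423184) (l 16442776)) (a (c (l 16451400) (l 16393368)) (a (c (l 16459912) (l 16390664)) (l 16471144)))) (b (a (l 16284440) (c (l 16288272) (l 16382168))) (l 16244072))) (a (c (b (b (a (c (l 16517392) (l 16487976)) (l 16413568)) (l 16424304)) (l 16296136)) (a (l 16329800) (l 16329216))) (b (b (b (l 16519720) (l 16404384)) (l 16424680)) (l 16288992))))), by decide +kernel⟩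

def k27_pm_202 : ∃ t, chk3 f_pm_202 t 31 16 3 = true :=
  ⟨(b (a (b (b (c (c (l 16721784) (l 16706472)) (c (l 16700088) (b (l 16711872) (l 16677208)))) (c (a (b (b (l 16645752) (l 16631448)) (c (l 16608872) (l 16622304))) (c (l 16646200) (l 16642096))) (c (b (l 16590088) (l 16620416)) (l 16623616)))) (c (a (b (c (l 16537712) (l 16570832)) (l 16505424)) (b (c (b (l 16615408) (a (l 16593104) (l 16600912))) (l 16523864)) (c (c (l 16552784) (l 16534248)) (l 16504824)))) (c (b (l 16536392) (l 16473616)) (l 16507768)))) (a (c (b (b (l 16585552) (c (l 16652736) (c (l 16657296) (l 16656032)))) (c (l 16553576) (a (l 16560592) (l 16560728)))) (b (b (c (l 16553824) (b (l 16733168) (l 16698056))) (c (l 16653088) (l 16639816))) (l 16491712))) (c (b (b (l 16745392) (l 16665920)) (l 16572160)) (b (c (b (b (l 16754880) (l 16714616)) (l 16666952)) (b (c (b (l 16748296) (l 16713480)) (l 16515704)) (l 16652160))) (c (l 16527848) (l 16496088)))))) (a (c (b (c (l 16293720) (l 16307736)) (c (a (l 16226848)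 (l 16246640)) (l 16221384))) (l 16280288)) (c (b (a (c (l 16419440) (a (l 16312328) (l 16398256))) (l 16414168)) (c (l 16167640) (a (l 16233960) (l 16245792)))) (a (b (l 16382440) (l 16228192)) (c (l 16175600) (a (l 16315320) (l 16258392))))))), by decide +kernel⟩

def k28_pm_202 : ∃ t, chk3 f_pm_202 t 31 17 1 = true :=
  ⟨(a (c (b (c (l 16092088) (a (c (l 15948344) (l 15940304)) (b (l 16113664) (l 15952752)))) (c (b (l 15835656) (c (b (l 15718408) (c (l 15636272) (l 15633752))) (l 15692816))) (a (c (b (l 15815448) (l 15686744)) (l 15725824)) (l 15726616)))) (b (c (a (l 15995840) (l 16010872)) (l 15988496)) (c (l 15452008) (l 15684488)))) (b (c (c (l 16093280) (b (l 16121008) (l 15958200))) (c (a (l 15907984) (l 16017704)) (a (l 16002912) (c (l 16011768) (l 16003224))))) (c (c (b (l 15838416) (c (l 15682992) (l 15666136))) (l 15729584)) (c (a (l 15712008) (l 15717104)) (a (l 15695440) (c (l 15705296) (l 15694040))))))), by decide +kernel⟩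

def k29_pm_202 : ∃ t, chk3 f_pm_202 t 15 18 1 = true :=
  ⟨(c (b (b (a (a (c (a (l 15426184) (l 15424304)) (l 15274880)) (c (a (c (l 15256968) (l 15431568)) (l 15340296)) (a (l 15417248) (c (l 15431624) (l 15408928))))) (c (a (c (b (l 15523552) (l 15377680)) (l 15315656)) (b (l 15526664) (l 15405224))) (a (a (c (l 15330272) (l 15438072)) (l 15438136)) (l 15435496)))) (a (b (a (l 15149848) (c (a (l 15227952) (l 15243816)) (l 15193760))) (a (l 14933168) (c (a (l 15056352) (l 15089032)) (l 15022272)))) (a (c (a (l 15159808) (l 15144616)) (a (c (l 15144424) (l 15121840)) (l 15135112))) (c (l 15157832) (l 15152344))))) (a (a (b (a (l 14632880) (l 14663832)) (a (l 14180840) (l 14225032))) (b (c (a (c (l 14778936) (l 14737256)) (a (l 14648696) (l 14841776))) (b (l 14841824) (l 14643928))) (c (a (c (l 14317616) (l 14313960)) (c (l 14441336) (l 14415080))) (l 14327864)))) (a (b (c (a (l 14842920) (l 14844360)) (a (b (l 14902576) (l 14735488)) (l 14812672))) (c (a (l 14484368) (l 14407872)) (a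 (a (l 14434912) (l 14472168)) (l 14398272)))) (b (l 14643520) (l 14529984))))) (b (a (b (a (c (l 15168176) (l 15234088)) (b (l 15465208) (l 15312104))) (a (l 15000824) (l 15012336))) (a (c (a (l 15224832) (c (l 15060600) (l 15249736))) (l 15211888)) (c (b (l 15310512) (l 15115224)) (a (l 15238120) (c (l 15251736) (l 15236384)))))) (a (a (b (l 14572784) (l 14110616)) (b (l 14682864) (l 14251824))) (a (a (b (l 14746192) (l 14368568)) (b (l 14561400) (a (l 14421904) (l 14327512)))) (c (a (c (l 14641872) (l 14620944)) (l 14637368)) (a (l 14589272) (c (l 14619584) (l 14598384)))))))), by decide +kernel⟩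

def k30_pm_202 : ∃ t, chk3 f_pm_202 t 30 19 1 = true :=
  ⟨(b (a (b (c (a (b (c (a (l 13862600) (l 13857464)) (l 13811808)) (c (a (b (l 13688048) (l 13651568)) (b (l 13679704) (b (l 13598824) (l 13578320)))) (b (l 13644176) (l 13567096)))) (c (b (l 13905216) (l 13682568)) (l 13740720))) (a (b (l 13732040) (b (l 13559768) (l 13480528))) (l 13658848))) (a (b (c (a (l 13671376) (a (l 13527776) (b (l 13516152) (l 13553704)))) (a (l 13559120) (l 13417336))) (c (l 13712888) (l 13601904))) (a (b (l 13458688) (c (b (a (a (l 13466288) (l 13454912)) (l 13462544)) (l 13466360)) (l 13368288))) (c (l 13515656) (l 13397344))))) (c (b (c (a (b (c (l 14026568) (l 13977864)) (c (b (l 13855488) (l 13761544)) (l 13757832))) (b (l 13973120) (c (l 13902104) (b (l 13917880) (l 13823552))))) (b (l 13991120) (b (l 13817768) (l 13721856)))) (c (a (c (l 13643080) (l 13590776)) (c (l 13729800) (l 13696824))) (l 13596904))) (b (l 13645648) (l 13500184)))) (a (a (c (l 14070360) (l 13993680)) (c (b (a (l 13665272)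 (a (l 13556824) (b (b (l 13438672) (l 13469224)) (l 13549976)))) (l 13887904)) (b (a (l 13552104) (l 13420920)) (l 13782456)))) (c (a (b (c (a (b (c (b (l 13501576) (a (l 13489232) (l 13484112))) (l 13461024)) (l 13502552)) (b (l 13513600) (a (l 13472208) (c (b (l 13496360) (l 13510080)) (l 13441264))))) (b (l 13428120) (l 13435152))) (c (a (b (l 13626032) (l 13754424)) (c (l 13528040) (l 13573944))) (l 13586360))) (b (c (c (l 13531096) (a (l 13498864) (l 13536024))) (l 13463000)) (c (c (c (l 13541688) (c (l 13537248) (l 13530824))) (a (l 13519920) (l 13476552))) (a (l 13450792) (l 13414152))))) (b (a (b (l 13337000) (l 13344056)) (l 13355680)) (a (l 13499144) (l 13337736)))))), by decide +kernel⟩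

def k31_pm_202 : ∃ t, chk3 f_pm_202 t 31 19 1 = true :=
  ⟨(b (b (c (a (c (b (l 14214152) (b (l 14048192) (l 13955072))) (a (b (l 14129928) (b (l 13961920) (l 13866768))) (b (l 14209744) (l 13997696)))) (b (c (l 14300504) (l 14257784)) (b (c (l 14170816) (l 14125432)) (a (l 13995240) (l 14099728))))) (a (a (l 13931920) (b (l 14139544) (c (l 13950976) (l 13893024)))) (a (c (b (l 14207960) (b (l 14072752) (l 13992208))) (b (l 14162992) (b (l 14025272) (l 13942808)))) (c (l 14144976) (b (l 14183216) (c (l 14028144) (l 14001240))))))) (c (a (c (l 13818016) (a (l 13730816) (l 13806816))) (a (l 13923440) (l 13880352))) (a (l 13679632) (c (a (l 13849792) (l 13908544)) (a (l 13797480) (c (l 13869968) (l 13841096))))))) (c (a (a (c (b (l 13583680) (c (b (l 13457912) (a (l 13441192) (l 13422600))) (l 13416424))) (b (l 13531432) (c (b (l 13416600) (l 13387944)) (l 13373152)))) (c (l 13545976) (l 13498288))) (b (c (l 13771944) (l 13716680)) (l 13531488))) (a (a (b (l 13426208) (l 13282376)) (l 13406800))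 (c (a (l 13510672) (l 13598576)) (a (l 13452592) (c (l 13555344) (l 13523480))))))), by decide +kernel⟩

def k32_pm_202 : ∃ t, chk3 f_pm_202 t 28 5 1 = true :=
  ⟨(c (b (b (a (b (a (l 16345440) (l 16442808)) (b (l 16299440) (a (l 16234328) (l 16332808)))) (b (a (l 16272448) (c (l 16002712) (l 16098912))) (a (l 16410832) (l 16438016)))) (b (a (l 16352312) (b (a (l 16398688) (l 16501992)) (l 16479936))) (l 16387496))) (b (a (l 153175136279) (l 16245640)) (b (a (l 153711825591) (b (l 16297240) (l 16257696))) (a (l 16363584) (l 16250656))))) (b (b (b (a (a (l 16318152) (l 16376848)) (a (l 16241504) (b (a (l 16181904) (l 16071200)) (l 16243640)))) (a (b (l 16245920) (c (l 108614325303) (a (l 16149440) (l 16294832)))) (a (l 16321712) (l 16371080)))) (a (c (l 16278728) (b (l 16335904) (l 16481144))) (b (b (a (b (l 16378824) (l 16384944)) (l 16411560)) (l 16451328)) (l 16513352)))) (b (a (a (l 16464928) (l 16403592)) (c (l 16343496) (l 16338736))) (b (a (l 100561574199) (b (l 16280784) (l 16239464)))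 (l 115056939255))))), by decide +kernel⟩

def k33_pm_202 : ∃ t, chk3 f_pm_202 t 29 5 1 = true :=
  ⟨(b (b (b (a (a (a (c (l 16015008) (l 15927776)) (l 15893960)) (l 15499256)) (a (l 15180824) (l 14705560))) (a (a (c (a (l 16260392) (l 16141616)) (b (l 16102840) (l 16235984))) (c (l 15978808) (l 15913608))) (b (l 15315120) (a (l 15858848) (l 15538952))))) (a (a (b (c (b (l 16570304) (l 16578056)) (b (l 16462688) (b (l 16503456) (l 16568672)))) (c (l 16573512) (l 16569936))) (b (a (c (l 16253264) (b (l 16406552) (l 16444576))) (l 16180840)) (c (l 16429816) (b (l 16420192) (l 16426984))))) (a (b (l 15988272) (b (l 16162032) (l 16301920))) (b (l 15778888) (b (l 16060936) (l 16155832)))))) (b (b (c (a (l 16369616) (l 16149400)) (a (l 16294544) (l 15961328))) (c (a (l 16225768) (l 16010904)) (a (l 16207328) (l 15942728)))) (b (c (a (b (l 16139024) (l 16118624)) (b (l 15927000) (l 15923392))) (a (b (l 16116776) (l 16095464)) (b (l 15897104) (l 15893344)))) (c (a (l 16114816) (l 15922720)) (l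 15972072))))), by decide +kernel⟩

def k34_pm_202 : ∃ t, chk3 f_pm_202 t 15 20 1 = true :=
  ⟨(a (b (c (a (a (l 14636608) (l 14309504)) (a (c (a (l 14111864) (c (b (l 13857632) (l 14135000)) (l 13939928))) (l 13973376)) (c (b (a (c (l 13748976) (l 13705264)) (l 13636032)) (a (l 13942848) (l 13790376))) (b (l 13532704) (l 13585376))))) (a (l 14368552) (a (l 13896376) (b (l 13512768) (l 13739016))))) (c (a (b (l 14633504) (a (l 15237280) (l 14940360))) (c (a (b (l 14449280) (l 14475248)) (b (l 14052808) (c (l 14444320) (l 14417376)))) (b (l 14244088) (l 14512416)))) (a (b (l 14780256) (l 15027936)) (b (l 14163800) (l 14439520))))) (b (a (c (a (c (b (l 13512264) (l 13683200)) (a (l 13588760) (l 13508568))) (b (c (b (a (l 13363000) (l 13344112)) (l 13390336)) (l 13334544)) (l 13490016))) (a (l 13447248) (b (c (a (l 13287744) (l 13246784)) (l 13203208)) (l 13370192)))) (c (b (a (a (l 13291688) (l 13325072)) (l 13375328)) (a (l 13333472) (b (l 13395608) (a (l 13249744) (l 13350144))))) (a (c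 (b (a (l 13223328) (l 13235976)) (l 13243888)) (b (l 13172128) (l 13180096))) (c (l 13223168) (b (l 13216984) (a (c (l 13105992) (l 13072920)) (l 13064792))))))) (c (a (a (c (b (l 13879632) (l 14123480)) (b (a (l 13880344) (l 13775240)) (a (l 14155152) (l 14008320)))) (b (l 13660584) (c (l 13879816) (l 13837304)))) (b (l 13413440) (l 13599864))) (a (b (a (l 13733648) (l 13546728)) (a (l 13988680) (c (l 13786072) (l 13723552)))) (c (a (l 13379032) (l 13329920)) (a (l 13445624) (c (l 13283464) (l 13248896)))))))), by decide +kernel⟩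

def k35_pm_202 : ∃ t, chk3 f_pm_202 t 15 21 1 = true :=
  ⟨(b (a (c (a (a (l 15561088) (l 15291456)) (c (a (c (l 15093136) (l 15053728)) (c (l 14846096) (l 14822912))) (l 14867320))) (a (l 15210528) (l 14847560))) (c (a (a (c (l 14554792) (l 14519592)) (c (b (l 14134352) (l 14409784)) (l 14069240))) (b (l 13824912) (a (l 14152176) (l 13967824)))) (a (a (l 14440432) (c (b (l 14050112) (l 14336048)) (l 14138200))) (a (c (b (l 13834648) (l 14085024)) (b (l 13781408) (l 14036472))) (c (l 13771760) (l 13653040)))))) (a (a (a (b (l 15830936) (l 15948024)) (c (l 15695520) (l 15657752))) (c (c (a (l 15452040) (l 15193248)) (l 15367904)) (l 15319552))) (c (a (c (l 14933064) (a (l 15029144) (l 14777040))) (a (l 14536072) (l 14305528))) (a (a (l 14964720) (l 14552488)) (c (a (a (l 14547808) (l 14419824)) (l 14258304)) (a (l 14439072) (c (l 14224904) (a (l 14251856) (l 14144704))))))))), by decide +kernel⟩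

def k36_pm_202 : ∃ t, chk3 f_pm_202 t 15 11 1 = true :=
  ⟨(b (a (c (a (a (l 15901984) (l 15707008)) (b (c (a (b (l 15753616) (l 15806280)) (b (l 15602408) (l 15722344))) (a (l 15744608) (l 15584952))) (c (l 15716784) (l 15688944)))) (b (a (l 15727400) (b (l 15610000) (l 15689936))) (l 15710872))) (c (a (b (a (c (l 15475392) (l 15437288)) (l 15252368)) (c (l 15532872) (a (l 15613112) (l 15518584)))) (b (l 14923328) (b (l 15256072) (l 15400784)))) (a (b (a (l 15406696) (l 15073936)) (a (l 15566320) (c (l 15437096) (l 15470624)))) (a (c (b (l 14990632) (b (l 15322448) (l 15441896))) (b (l 14959720) (b (l 15298272) (l 15420184)))) (a (c (l 15005528) (b (l 14775576) (c (l 15246056) (l 15233360)))) (b (l 14531296) (l 14947392))))))) (a (c (a (l 15727280) (c (l 15665776) (l 15636848))) (l 15647760)) (c (a (c (l 15564896) (a (l 15576952) (l 15518920))) (l 15451552)) (a (c (l 15517552) (l 15494584)) (c (a (l 15445960) (l 15394344)) (a (l 15424328) (c (l 15378072) (l 15363824)))))))), by decide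 +kernel⟩

def k37_pm_202 : ∃ t, chk3 f_pm_202 t 3 3 1 = true :=
  ⟨(a (b (l 3) (l 3)) (b (a (b (b (c (a (c (l 132236854935) (l 16303608)) (a (c (l 16120576) (l 16109064)) (l 15922720))) (a (c (l 16295336) (l 16286960)) (c (l 15999808) (l 15986288)))) (a (c (a (l 3) (l 16250656)) (l 106467004663)) (c (a (l 16114816) (l 15922720)) (c (l 15999808) (l 15986288))))) (a (c (b (l 121499429847) (l 129015623927)) (a (l 3) (l 123110006775))) (c (b (a (l 16114816) (l 15922720)) (a (l 16114816) (l 15922720))) (b (l 15993040) (l 15993040))))) (a (c (b (a (b (a (l 15769200) (l 15699432)) (c (l 15762280) (l 15725464))) (c (a (l 15689752) (l 15650936)) (l 15636680))) (a (b (l 15727072) (l 15727072)) (c (b (l 15581728) (l 15665608)) (l 15636680)))) (b (a (b (l 15697816) (l 15697816)) (l 15596320)) (b (l 15647568) (l 15647568)))) (c (a (c (l 15564784) (a (b (l 15576816) (l 15576816)) (l 15518816))) (l 15451960)) (a (b (l 15508592) (l 15508592)) (c (b (l 15420544) (l 15420544)) (a (l 15424240) (b (l 15371256)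 (l 15371256)))))))) (b (a (a (c (a (l 3) (l 16250656)) (l 129552453879)) (c (a (l 16114816) (l 15922720)) (a (l 16091488) (l 15892640)))) (a (c (a (b (l 15727072) (l 15727072)) (c (a (l 15689752) (l 15650936)) (l 15636680))) (b (l 15647568) (l 15647568))) (c (a (c (l 15564784) (a (l 15576816) (l 15518816))) (l 15451960)) (a (c (l 15517432) (l 15494456)) (c (l 15420544) (l 15392720)))))) (a (a (l 3) (b (c (l 16019712) (l 15993040)) (l 2))) (a (c (a (l 15727072) (c (l 15665608) (l 15636680))) (b (l 15647568) (l 15647568))) (c (c (l 15516256) (a (l 15539776) (l 15440800))) (a (c (l 15517432) (l 15494456)) (c (l 15420544) (a (l 15424240) (l 15371256)))))))))), by decide +kernel⟩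

theorem s38_pm_202 : ∃ t, chk3 f_pm_202 t 15 10 1 = true := ex3_b k34_pm_202 k35_pm_202

theorem s39_pm_202 : ∃ t, chk3 f_pm_202 t 15 5 1 = true := ex3_b s38_pm_202 k36_pm_202

theorem s40_pm_202 : ∃ t, chk3 f_pm_202 t 14 5 1 = true := ex3_a k32_pm_202 k33_pm_202

theorem s41_pm_202 : ∃ t, chk3 f_pm_202 t 7 5 1 = true := ex3_a s40_pm_202 s39_pm_202

theorem s42_pm_202 : ∃ t, chk3 f_pm_202 t 15 19 1 = true := ex3_a k30_pm_202 k31_pm_202

theorem s43_pm_202 : ∃ t, chk3 f_pm_202 t 15 9 1 = true := ex3_b k29_pm_202 s42_pm_202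

theorem s44_pm_202 : ∃ t, chk3 f_pm_202 t 31 16 1 = true := ex3_c k26_pm_202 k27_pm_202

theorem s45_pm_202 : ∃ t, chk3 f_pm_202 t 31 8 1 = true := ex3_b s44_pm_202 k28_pm_202

theorem s46_pm_202 : ∃ t, chk3 f_pm_202 t 30 8 1 = true := ex3_b k24_pm_202 k25_pm_202

theorem s47_pm_202 : ∃ t, chk3 f_pm_202 t 15 8 1 = true := ex3_a s46_pm_202 s45_pm_202

theorem s48_pm_202 : ∃ t, chk3 f_pm_202 t 15 4 1 = true := ex3_b s47_pm_202 s43_pm_202

theorem s49_pm_202 : ∃ t, chk3 f_pm_202 t 14 18 1 = true := ex3_b k21_pm_202 k22_pm_202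

theorem s50_pm_202 : ∃ t, chk3 f_pm_202 t 14 9 1 = true := ex3_b s49_pm_202 k23_pm_202

theorem s51_pm_202 : ∃ t, chk3 f_pm_202 t 14 17 2 = true := ex3_b k18_pm_202 k19_pm_202

theorem s52_pm_202 : ∃ t, chk3 f_pm_202 t 14 17 1 = true := ex3_c s51_pm_202 k20_pm_202

theorem s53_pm_202 : ∃ t, chk3 f_pm_202 t 14 16 3 = true := ex3_b k16_pm_202 k17_pm_202

theorem s54_pm_202 : ∃ t, chk3 f_pm_202 t 14 16 2 = true := ex3_c k14_pm_202 k15_pm_202

theorem s55_pm_202 : ∃ t, chk3 f_pm_202 t 14 16 1 = true := ex3_c s54_pm_202 s53_pm_202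

theorem s56_pm_202 : ∃ t, chk3 f_pm_202 t 14 8 1 = true := ex3_b s55_pm_202 s52_pm_202

theorem s57_pm_202 : ∃ t, chk3 f_pm_202 t 14 4 1 = true := ex3_b s56_pm_202 s50_pm_202

theorem s58_pm_202 : ∃ t, chk3 f_pm_202 t 7 4 1 = true := ex3_a s57_pm_202 s48_pm_202

theorem s59_pm_202 : ∃ t, chk3 f_pm_202 t 7 2 1 = true := ex3_b s58_pm_202 s41_pm_202

theorem s60_pm_202 : ∃ t, chk3 f_pm_202 t 55 17 2 = true := ex3_c k9_pm_202 k10_pm_202

theorem s61_pm_202 : ∃ t, chk3 f_pm_202 t 55 17 1 = true := ex3_c s60_pm_202 k11_pm_202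

theorem s62_pm_202 : ∃ t, chk3 f_pm_202 t 27 17 1 = true := ex3_a k8_pm_202 s61_pm_202

theorem s63_pm_202 : ∃ t, chk3 f_pm_202 t 27 64 3 = true := ex3_c k4_pm_202 k5_pm_202

theorem s64_pm_202 : ∃ t, chk3 f_pm_202 t 27 64 1 = true := ex3_c k3_pm_202 s63_pm_202

theorem s65_pm_202 : ∃ t, chk3 f_pm_202 t 27 32 1 = true := ex3_b s64_pm_202 k6_pm_202

theorem s66_pm_202 : ∃ t, chk3 f_pm_202 t 27 16 1 = true := ex3_b s65_pm_202 k7_pm_202

theorem s67_pm_202 : ∃ t, chk3 f_pm_202 t 27 8 1 = true := ex3_b s66_pm_202 s62_pm_202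

theorem s68_pm_202 : ∃ t, chk3 f_pm_202 t 13 8 1 = true := ex3_a k2_pm_202 s67_pm_202

theorem s69_pm_202 : ∃ t, chk3 f_pm_202 t 6 8 1 = true := ex3_a k1_pm_202 s68_pm_202

theorem s70_pm_202 : ∃ t, chk3 f_pm_202 t 6 4 1 = true := ex3_b s69_pm_202 k12_pm_202

theorem s71_pm_202 : ∃ t, chk3 f_pm_202 t 6 2 1 = true := ex3_b s70_pm_202 k13_pm_202

theorem s72_pm_202 : ∃ t, chk3 f_pm_202 t 3 2 1 = true := ex3_a s71_pm_202 s59_pm_202

theorem s73_pm_202 : ∃ t, chk3 f_pm_202 t 3 1 1 = true := ex3_b s72_pm_202 k37_pm_202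

theorem s74_pm_202 : ∃ t, chk3 f_pm_202 t 1 1 1 = true := ex3_a k0_pm_202 s73_pm_202

theorem c_pm_202 : CertNX 0 536870912 1073741824 536870912 1046898278 26843546 3 false true false .pp 2 0 2
    ndN0q2 ndN5q2 pcN0 Cut.none Ext.none :=
  certNX1 (fam := false) (s1 := true) (s2 := false) (a := 2) (b := 0) (c := 2) (cn := .pp) (n1 := ndN0q2) (n2 := ndN5q2) (pc := pcN0) (cut := Cut.none) (xt := Ext.none) (P1 := 0) (W1 := 536870912) (P2 := 1073741824) (W2 := 536870912) (P3 := 1046898278) (W3 := 26843546) (N0 := 3)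
    rfl (fun _ => rfl) s74_pm_202

noncomputable def f_pm_203 : ℕ → ℕ → ℕ → ℕ → Bool := onCell 0 536870912 0 1230186008 1046898278 26843546
    (rowNX 3 0 false true false .up 2 0 3 (qsf 0 536870912 0 1230186008 0) ndN0q2 ndN5q3 pcN0 Cut.none Ext.none)

def k0_pm_203 : ∃ t, chk3 f_pm_203 t 1 1 1 = true :=
  ⟨(b (l 2) (a (l 3) (b (l 2) (a (l 3) (b (l 2) (b (a (a (l 3) (l 2)) (l 2)) (a (a (l 3) (c (a (b (l 16114816) (l 16114816)) (l 15996120)) (b (l 183238786359) (a (l 16091488) (l 15892640))))) (b (a (c (a (l 15727072) (l 2)) (l 15647568)) (l 2)) (a (c (a (l 15727072) (l 15586928)) (l 15647568)) (c (a (c (l 15564784) (l 15539776)) (l 15451960)) (a (l 15508592) (c (l 15420544) (l 15392720))))))))))))), by decide +kernel⟩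

theorem c_pm_203 : CertNX 0 536870912 0 1230186008 1046898278 26843546 3 false true false .up 2 0 3
    ndN0q2 ndN5q3 pcN0 Cut.none Ext.none :=
  certNX0 (fam := false) (s1 := true) (s2 := false) (a := 2) (b := 0) (c := 3) (cn := .up) (n1 := ndN0q2) (n2 := ndN5q3) (pc := pcN0) (cut := Cut.none) (xt := Ext.none) (P1 := 0) (W1 := 536870912) (P2 := 0) (W2 := 1230186008) (P3 := 1046898278) (W3 := 26843546) (N0 := 3)
    rfl k0_pm_203

noncomputable def cut_pm_213 : Cut := Cut.of [[⟨0, 1, 0, 67108864⟩, ⟨1, 1, 0, 67108864⟩, ⟨2, 2, 0, 67108864⟩, ⟨3, 0, 0, 1233125376⟩]]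

noncomputable def f_pm_213 : ℕ → ℕ → ℕ → ℕ → Bool := onCell 0 536870912 0 1230186008 1046898278 26843546
    (rowNX 3 0 false true false .pnn 2 1 3 (qsf 0 536870912 0 1230186008 1) ndN0q2 ndN5q3 pcN1 cut_pm_213 Ext.none)

def k0_pm_213 : ∃ t, chk3 f_pm_213 t 2 1 1 = true :=
  ⟨(b (l 3) (l 3)), by decide +kernel⟩

def k1_pm_213 : ∃ t, chk3 f_pm_213 t 6 1 1 = true :=
  ⟨(b (l 3) (b (l 3) (l 3))), by decide +kernel⟩

def k2_pm_213 : ∃ t, chk3 f_pm_213 t 14 1 1 = true :=
  ⟨(b (b (l 3) (l 3)) (b (b (l 3) (a (l 3) (b (l 3) (c (l 490329001367) (l 439326211383))))) (b (a (l 3) (b (c (l 223504158103) (l 211692944695)) (a (l 3) (b (l 15907656) (l 15907656))))) (a (b (l 3) (l 3)) (b (c (a (l 197734772599) (l 15922720)) (a (l 177870491703) (l 15892640))) (b (c (a (l 16114816) (l 15922720)) (l 184312528183)) (l 1))))))), by decide +kernel⟩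

def k3_pm_213 : ∃ t, chk3 f_pm_213 t 15 4 1 = true :=
  ⟨(a (l 3) (l 6)), by decide +kernel⟩

def k4_pm_213 : ∃ t, chk3 f_pm_213 t 15 10 1 = true :=
  ⟨(a (b (l 3) (l 3)) (a (b (a (a (l 3) (l 6)) (l 6)) (c (c (b (a (b (a (l 3) (b (l 15681304) (l 15657296))) (l 217061719127)) (b (l 15600536) (a (l 15576480) (l 15528904)))) (a (b (l 196123676663) (l 15595184)) (b (l 15517272) (l 15490032)))) (a (a (b (a (l 3) (l 3)) (c (c (l 15593864) (l 298128998935)) (l 15508304))) (b (c (b (l 219745909655) (l 15561944)) (a (c (l 744268696887) (l 15491264)) (c (l 15521368) (l 15472048)))) (c (l 15526504) (c (l 15488776) (l 15449616))))) (b (a (c (l 15529312) (b (l 15464152) (l 15440208))) (l 15408376)) (b (l 15617896) (l 15394480))))) (c (a (b (l 285243965031) (l 15408664)) (b (c (a (c (b (l 15402944) (l 15385992)) (l 15344720)) (b (l 6) (l 15297856))) (a (l 15290128) (l 15210512))) (c (a (l 15354616) (l 15290184)) (l 15254048)))) (b (a (l 304570770839) (l 15135112)) (l 15240976))))) (b (l 6) (b (a (a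 (c (a (l 15475152) (l 6)) (c (c (l 15211568) (l 15124520)) (l 14980264))) (l 6)) (l 6)) (c (a (b (l 15344528) (l 15325584)) (l 15433536)) (c (a (c (l 15166296) (a (l 15144544) (l 15049632))) (l 14938104)) (a (a (l 15034240) (l 14935384)) (c (a (l 14864640) (l 14743656)) (a (l 14780248) (l 14647992)))))))))), by decide +kernel⟩

def k5_pm_213 : ∃ t, chk3 f_pm_213 t 15 11 1 = true :=
  ⟨(a (a (l 3) (a (b (l 3) (b (l 3) (c (c (c (a (l 3) (l 650852887671)) (l 665885228679)) (l 15633008)) (l 15597768)))) (b (a (b (l 3) (l 3)) (c (c (b (l 964386028311) (l 15608248)) (c (b (l 617030454327) (l 15581552)) (l 15520528))) (l 727625116519))) (c (c (b (c (l 15626600) (a (l 15617960) (l 15591264))) (a (c (l 15660920) (l 15569208)) (l 15608064))) (b (c (l 316918950791) (l 15537376)) (a (l 15587968) (l 15567488)))) (b (l 15488208) (l 15527032)))))) (b (c (a (c (b (a (l 15562560) (l 15456568)) (l 15486784)) (a (c (b (a (l 15607848) (l 15496544)) (l 15479272)) (b (a (l 15487384) (l 15452056)) (l 15462224)))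 (b (l 15377984) (l 15368544)))) (b (l 15243040) (l 15231568))) (a (a (b (l 15366048) (l 15374248)) (c (c (b (a (l 15348872) (l 15288344)) (l 15320640)) (l 15266472)) (l 15203072))) (c (a (c (l 15178560) (a (l 15024744) (l 15090520))) (l 14995264)) (a (b (l 15034112) (l 15076672)) (c (b (l 14878536) (l 14934720)) (a (l 14894344) (b (l 14756016) (l 14833560)))))))) (c (a (c (b (l 15476808) (l 15493544)) (a (b (c (l 15497936) (l 15465960)) (c (l 15521928) (l 15496016))) (b (l 15374792) (l 15407632)))) (b (l 15239592) (l 15275136))) (c (a (a (l 15435672) (b (l 15320296) (l 15367296))) (a (c (l 15240712) (b (l 15178376) (l 15239328))) (l 15092832))) (a (l 15340376) (a (l 15162728) (c (l 15039320) (a (l 15040608) (l 14962952))))))))), by decide +kernel⟩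

def k6_pm_213 : ∃ t, chk3 f_pm_213 t 15 6 1 = true :=
  ⟨(b (b (a (a (l 3) (c (a (c (c (a (l 15693768) (l 15694440)) (l 15664352)) (l 15647256)) (c (b (a (c (l 15678800) (l 15652920)) (l 15635232)) (l 15646752)) (b (a (l 15613184) (l 15602664)) (l 15616416)))) (b (l 15592232) (l 15592896)))) (c (a (a (c (b (l 15574840) (l 15582064)) (b (c (l 15504800) (l 15526256)) (l 15565736))) (b (c (l 15490424) (l 15472704)) (l 15507752))) (b (l 15347928) (l 15407256))) (a (a (a (l 15524608) (l 15451144)) (b (a (l 15455504) (l 15301480)) (l 15461144))) (b (c (a (l 15346464) (l 15233360)) (a (l 15311376) (l 15188672))) (c (a (l 15408696) (l 15328848)) (a (l 15382704) (c (l 15306960) (l 15288944)))))))) (a (c (a (a (l 3) (l 15699336)) (c (a (c (l 15697288) (l 15663688)) (l 15604776)) (l 305644792791))) (a (l 15697760) (l 15592760))) (c (a (c (l 15553768) (a (l 15567400) (l 15503152))) (l 15424768)) (a (c (l 15440800) (l 15479376)) (c (l 15346944) (a (l 15395424) (l 15330104))))))) (a (c (a (b (a (l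 15769224) (l 15699400)) (l 15727072)) (b (c (a (l 15689448) (l 15649960)) (l 15635944)) (c (a (l 15689752) (l 15650936)) (l 15636680)))) (b (a (l 15697808) (l 15595488)) (l 15647568))) (c (a (b (c (l 15561392) (a (l 15574368) (l 15514056))) (c (l 15564784) (l 15434920))) (b (l 15441424) (l 15451944))) (a (b (c (l 15513424) (l 15490136)) (l 15508592)) (b (c (l 15408680) (a (l 15414536) (l 15355440))) (c (l 15420520) (l 15371728))))))), by decide +kernel⟩

def k7_pm_213 : ∃ t, chk3 f_pm_213 t 15 7 1 = true :=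
  ⟨(b (a (c (a (b (l 15727072) (l 15727072)) (b (c (l 15644640) (l 15636680)) (c (l 15665608) (l 15636680)))) (b (l 15647568) (l 15647568))) (c (a (c (l 15564784) (a (l 15576816) (l 15518816))) (b (l 15451960) (l 15451960))) (a (b (l 15508592) (l 15508592)) (c (b (l 15420544) (l 15420544)) (b (l 15392720) (l 15392720)))))) (c (a (b (a (b (l 15727072) (l 15727072)) (c (l 15665608) (l 15636680))) (a (b (l 15727072) (l 15727072)) (c (l 15665608) (l 15636680)))) (b (a (c (l 15564784) (l 15539776)) (l 15451960)) (a (c (l 15564784) (l 15539776)) (l 15451960)))) (a (b (b (l 15647568) (l 15647568)) (b (l 15647568) (l 15647568))) (b (a (c (l 15517432) (l 15494456)) (c (l 15420544) (l 15308832))) (a (c (l 15517432) (l 15494456)) (c (l 15420544) (a (l 15424240) (l 15371256)))))))), by decide +kernel⟩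

theorem s8_pm_213 : ∃ t, chk3 f_pm_213 t 15 3 1 = true := ex3_b k6_pm_213 k7_pm_213

theorem s9_pm_213 : ∃ t, chk3 f_pm_213 t 15 5 1 = true := ex3_b k4_pm_213 k5_pm_213

theorem s10_pm_213 : ∃ t, chk3 f_pm_213 t 15 2 1 = true := ex3_b k3_pm_213 s9_pm_213

theorem s11_pm_213 : ∃ t, chk3 f_pm_213 t 15 1 1 = true := ex3_b s10_pm_213 s8_pm_213

theorem s12_pm_213 : ∃ t, chk3 f_pm_213 t 7 1 1 = true := ex3_a k2_pm_213 s11_pm_213

theorem s13_pm_213 : ∃ t, chk3 f_pm_213 t 3 1 1 = true := ex3_a k1_pm_213 s12_pm_213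

theorem s14_pm_213 : ∃ t, chk3 f_pm_213 t 1 1 1 = true := ex3_a k0_pm_213 s13_pm_213

theorem c_pm_213 : CertNX 0 536870912 0 1230186008 1046898278 26843546 3 false true false .pnn 2 1 3
    ndN0q2 ndN5q3 pcN1 cut_pm_213 Ext.none :=
  certNX0 (fam := false) (s1 := true) (s2 := false) (a := 2) (b := 1) (c := 3) (cn := .pnn) (n1 := ndN0q2) (n2 := ndN5q3) (pc := pcN1) (cut := cut_pm_213) (xt := Ext.none) (P1 := 0) (W1 := 536870912) (P2 := 0) (W2 := 1230186008) (P3 := 1046898278) (W3 := 26843546) (N0 := 3)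
    rfl s14_pm_213

noncomputable def f_mm_001 : ℕ → ℕ → ℕ → ℕ → Bool := onCell 0 536870912 0 536870912 1046898278 26843546
    (rowNX 3 1 false false false .up 0 0 1 (qsf 0 536870912 536870912 469762048 0) ndN0q0 ndN5q1 pcN0 Cut.none Ext.none)

def k0_mm_001 : ∃ t, chk3 f_mm_001 t 1 1 1 = true :=
  ⟨(l 3), by decide +kernel⟩

theorem c_mm_001 : CertNX 0 536870912 536870912 469762048 1046898278 26843546 3 false false false .up 0 0 1
    ndN0q0 ndN5q1 pcN0 Cut.none Ext.none :=
  certNX1 (fam := false) (s1 := false) (s2 := false) (a := 0) (b := 0) (c := 1) (cn := .up) (n1 := ndN0q0) (n2 := ndN5q1) (pc := pcN0) (cut := Cut.none) (xt := Ext.none) (P1 := 0) (W1 := 536870912) (P2 := 536870912) (W2 := 469762048) (P3 := 1046898278) (W3 := 26843546) (N0 := 3)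
    rfl (fun _ => rfl) k0_mm_001

noncomputable def f_mm_011 : ℕ → ℕ → ℕ → ℕ → Bool := onCell 0 536870912 536870912 536870912 1046898278 26843546
    (rowNX 3 1 false false false .pnn 0 1 1 (qsf 0 536870912 536870912 469762048 1) ndN0q0 ndN5q1 pcN1 Cut.none Ext.none)

def k0_mm_011 : ∃ t, chk3 f_mm_011 t 1 1 1 = true :=
  ⟨(l 5), by decide +kernel⟩

theorem c_mm_011 : CertNX 0 536870912 536870912 469762048 1046898278 26843546 3 false false false .pnn 0 1 1
    ndN0q0 ndN5q1 pcN1 Cut.none Ext.none :=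
  certNX1 (fam := false) (s1 := false) (s2 := false) (a := 0) (b := 1) (c := 1) (cn := .pnn) (n1 := ndN0q0) (n2 := ndN5q1) (pc := pcN1) (cut := Cut.none) (xt := Ext.none) (P1 := 0) (W1 := 536870912) (P2 := 536870912) (W2 := 469762048) (P3 := 1046898278) (W3 := 26843546) (N0 := 3)
    rfl (fun _ => rfl) k0_mm_011

noncomputable def f_mm_012 : ℕ → ℕ → ℕ → ℕ → Bool := onCell 0 536870912 1073741824 536870912 1046898278 26843546
    (rowNX 3 0 false false false .pnp 0 1 2 (qsf 0 536870912 1073741824 536870912 1) ndN0q0 ndN5q2 pcN1 Cut.none Ext.none)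

def k0_mm_012 : ∃ t, chk3 f_mm_012 t 1 1 1 = true :=
  ⟨(l 5), by decide +kernel⟩

theorem c_mm_012 : CertNX 0 536870912 1073741824 536870912 1046898278 26843546 3 false false false .pnp 0 1 2
    ndN0q0 ndN5q2 pcN1 Cut.none Ext.none :=
  certNX0 (fam := false) (s1 := false) (s2 := false) (a := 0) (b := 1) (c := 2) (cn := .pnp) (n1 := ndN0q0) (n2 := ndN5q2) (pc := pcN1) (cut := Cut.none) (xt := Ext.none) (P1 := 0) (W1 := 536870912) (P2 := 1073741824) (W2 := 536870912) (P3 := 1046898278) (W3 := 26843546) (N0 := 3)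
    rfl k0_mm_012

noncomputable def f_mm_022 : ℕ → ℕ → ℕ → ℕ → Bool := onCell 0 536870912 1073741824 536870912 1046898278 26843546
    (rowNX 3 0 false false false .pp 0 2 2 (qsf 0 536870912 1073741824 536870912 2) ndN0q0 ndN5q2 pcN2 Cut.none Ext.none)

def k0_mm_022 : ∃ t, chk3 f_mm_022 t 1 1 1 = true :=
  ⟨(l 5), by decide +kernel⟩

theorem c_mm_022 : CertNX 0 536870912 1073741824 536870912 1046898278 26843546 3 false false false .pp 0 2 2
    ndN0q0 ndN5q2 pcN2 Cut.none Ext.none :=
  certNX0 (fam := false) (s1 := false) (s2 := false) (a := 0) (b := 2) (c := 2) (cn := .pp) (n1 := ndN0q0) (n2 := ndN5q2) (pc := pcN2) (cut := Cut.none) (xt := Ext.none) (P1 := 0) (W1 := 536870912) (P2 := 1073741824) (W2 := 536870912) (P3 := 1046898278) (W3 := 26843546) (N0 := 3)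
    rfl k0_mm_022

noncomputable def f_mm_023 : ℕ → ℕ → ℕ → ℕ → Bool := onCell 0 536870912 0 1230186008 1046898278 26843546
    (rowNX 3 0 false false false .up 0 2 3 (qsf 0 536870912 0 1230186008 2) ndN0q0 ndN5q3 pcN2 Cut.none Ext.none)

def k0_mm_023 : ∃ t, chk3 f_mm_023 t 1 1 1 = true :=
  ⟨(l 5), by decide +kernel⟩

theorem c_mm_023 : CertNX 0 536870912 0 1230186008 1046898278 26843546 3 false false false .up 0 2 3
    ndN0q0 ndN5q3 pcN2 Cut.none Ext.none :=
  certNX0 (fam := false) (s1 := false) (s2 := false) (a := 0) (b := 2) (c := 3) (cn := .up) (n1 := ndN0q0) (n2 := ndN5q3) (pc := pcN2) (cut := Cut.none) (xt := Ext.none) (P1 := 0) (W1 := 536870912) (P2 := 0) (W2 := 1230186008) (P3 := 1046898278) (W3 := 26843546) (N0 := 3)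
    rfl k0_mm_023

noncomputable def f_mm_033 : ℕ → ℕ → ℕ → ℕ → Bool := onCell 0 536870912 0 1230186008 1046898278 26843546
    (rowNX 3 0 false false false .pnn 0 3 3 (qsf 0 536870912 0 1230186008 3) ndN0q0 ndN5q3 pcN3 Cut.none Ext.none)

def k0_mm_033 : ∃ t, chk3 f_mm_033 t 1 1 1 = true :=
  ⟨(l 5), by decide +kernel⟩

theorem c_mm_033 : CertNX 0 536870912 0 1230186008 1046898278 26843546 3 false false false .pnn 0 3 3
    ndN0q0 ndN5q3 pcN3 Cut.none Ext.none :=
  certNX0 (fam := false) (s1 := false) (s2 := false) (a := 0) (b := 3) (c := 3) (cn := .pnn) (n1 := ndN0q0) (n2 := ndN5q3) (pc := pcN3) (cut := Cut.none) (xt := Ext.none) (P1 := 0) (W1 := 536870912) (P2 := 0) (W2 := 1230186008) (P3 := 1046898278) (W3 := 26843546) (N0 := 3)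
    rfl k0_mm_033

noncomputable def f_mm_101 : ℕ → ℕ → ℕ → ℕ → Bool := onCell 0 536870912 536870912 469762048 1046898278 26843546
    (rowNX 3 2 false false false .npn 1 0 1 (qsf 536870912 536870912 536870912 469762048 0) ndN0q1 ndN5q1 pcN0 Cut.none Ext.none)

def k0_mm_101 : ∃ t, chk3 f_mm_101 t 1 1 1 = true :=
  ⟨(l 3), by decide +kernel⟩

theorem c_mm_101 : CertNX 536870912 536870912 536870912 469762048 1046898278 26843546 3 false false false .npn 1 0 1
    ndN0q1 ndN5q1 pcN0 Cut.none Ext.none :=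
  certNX2 (fam := false) (s1 := false) (s2 := false) (a := 1) (b := 0) (c := 1) (cn := .npn) (n1 := ndN0q1) (n2 := ndN5q1) (pc := pcN0) (cut := Cut.none) (xt := Ext.none) (P1 := 536870912) (W1 := 536870912) (P2 := 536870912) (W2 := 469762048) (P3 := 1046898278) (W3 := 26843546) (N0 := 3)
    rfl (fun _ => rfl) k0_mm_101

noncomputable def f_mm_102 : ℕ → ℕ → ℕ → ℕ → Bool := onCell 536870912 536870912 0 536870912 1046898278 26843546
    (rowNX 3 1 false false false .npp 1 0 2 (qsf 536870912 536870912 1073741824 536870912 0) ndN0q1 ndN5q2 pcN0 Cut.none Ext.none)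

def k0_mm_102 : ∃ t, chk3 f_mm_102 t 1 1 1 = true :=
  ⟨(l 3), by decide +kernel⟩

theorem c_mm_102 : CertNX 536870912 536870912 1073741824 536870912 1046898278 26843546 3 false false false .npp 1 0 2
    ndN0q1 ndN5q2 pcN0 Cut.none Ext.none :=
  certNX1 (fam := false) (s1 := false) (s2 := false) (a := 1) (b := 0) (c := 2) (cn := .npp) (n1 := ndN0q1) (n2 := ndN5q2) (pc := pcN0) (cut := Cut.none) (xt := Ext.none) (P1 := 536870912) (W1 := 536870912) (P2 := 1073741824) (W2 := 536870912) (P3 := 1046898278) (W3 := 26843546) (N0 := 3)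
    rfl (fun _ => rfl) k0_mm_102

noncomputable def f_mm_112 : ℕ → ℕ → ℕ → ℕ → Bool := onCell 536870912 536870912 1073741824 536870912 1046898278 26843546
    (rowNX 3 2 false false false .dn 1 1 2 (qsf 536870912 536870912 1073741824 536870912 1) ndN0q1 ndN5q2 pcN1 Cut.none Ext.none)

def k0_mm_112 : ∃ t, chk3 f_mm_112 t 1 1 1 = true :=
  ⟨(l 5), by decide +kernel⟩

theorem c_mm_112 : CertNX 536870912 536870912 1073741824 536870912 1046898278 26843546 3 false false false .dn 1 1 2
    ndN0q1 ndN5q2 pcN1 Cut.none Ext.none :=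
  certNX2 (fam := false) (s1 := false) (s2 := false) (a := 1) (b := 1) (c := 2) (cn := .dn) (n1 := ndN0q1) (n2 := ndN5q2) (pc := pcN1) (cut := Cut.none) (xt := Ext.none) (P1 := 536870912) (W1 := 536870912) (P2 := 1073741824) (W2 := 536870912) (P3 := 1046898278) (W3 := 26843546) (N0 := 3)
    rfl (fun _ => rfl) k0_mm_112

noncomputable def f_mm_113 : ℕ → ℕ → ℕ → ℕ → Bool := onCell 536870912 536870912 0 1230186008 1046898278 26843546
    (rowNX 3 0 false false false .nn 1 1 3 (qsf 536870912 536870912 0 1230186008 1) ndN0q1 ndN5q3 pcN1 Cut.none Ext.none)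

def k0_mm_113 : ∃ t, chk3 f_mm_113 t 1 1 1 = true :=
  ⟨(b (l 5) (l 5)), by decide +kernel⟩

theorem c_mm_113 : CertNX 536870912 536870912 0 1230186008 1046898278 26843546 3 false false false .nn 1 1 3
    ndN0q1 ndN5q3 pcN1 Cut.none Ext.none :=
  certNX0 (fam := false) (s1 := false) (s2 := false) (a := 1) (b := 1) (c := 3) (cn := .nn) (n1 := ndN0q1) (n2 := ndN5q3) (pc := pcN1) (cut := Cut.none) (xt := Ext.none) (P1 := 536870912) (W1 := 536870912) (P2 := 0) (W2 := 1230186008) (P3 := 1046898278) (W3 := 26843546) (N0 := 3)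
    rfl k0_mm_113

noncomputable def f_mm_123 : ℕ → ℕ → ℕ → ℕ → Bool := onCell 536870912 536870912 0 1230186008 1046898278 26843546
    (rowNX 3 0 false false false .npn 1 2 3 (qsf 536870912 536870912 0 1230186008 2) ndN0q1 ndN5q3 pcN2 Cut.none Ext.none)

def k0_mm_123 : ∃ t, chk3 f_mm_123 t 1 1 1 = true :=
  ⟨(b (l 5) (l 5)), by decide +kernel⟩

theorem c_mm_123 : CertNX 536870912 536870912 0 1230186008 1046898278 26843546 3 false false false .npn 1 2 3
    ndN0q1 ndN5q3 pcN2 Cut.none Ext.none :=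
  certNX0 (fam := false) (s1 := false) (s2 := false) (a := 1) (b := 2) (c := 3) (cn := .npn) (n1 := ndN0q1) (n2 := ndN5q3) (pc := pcN2) (cut := Cut.none) (xt := Ext.none) (P1 := 536870912) (W1 := 536870912) (P2 := 0) (W2 := 1230186008) (P3 := 1046898278) (W3 := 26843546) (N0 := 3)
    rfl k0_mm_123

noncomputable def f_mm_133 : ℕ → ℕ → ℕ → ℕ → Bool := onCell 1610612736 536870912 0 1230186008 1046898278 26843546
    (rowNX 3 2 false false false .dn 1 3 3 (qsf 536870912 536870912 0 1230186008 3) ndN0q1 ndN5q3 pcN3 Cut.none Ext.none)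

def k0_mm_133 : ∃ t, chk3 f_mm_133 t 1 1 1 = true :=
  ⟨(l 5), by decide +kernel⟩

theorem c_mm_133 : CertNX 536870912 536870912 0 1230186008 1046898278 26843546 3 false false false .dn 1 3 3
    ndN0q1 ndN5q3 pcN3 Cut.none Ext.none :=
  certNX2 (fam := false) (s1 := false) (s2 := false) (a := 1) (b := 3) (c := 3) (cn := .dn) (n1 := ndN0q1) (n2 := ndN5q3) (pc := pcN3) (cut := Cut.none) (xt := Ext.none) (P1 := 536870912) (W1 := 536870912) (P2 := 0) (W2 := 1230186008) (P3 := 1046898278) (W3 := 26843546) (N0 := 3)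
    rfl (fun _ => rfl) k0_mm_133

noncomputable def f_mm_202 : ℕ → ℕ → ℕ → ℕ → Bool := onCell 0 536870912 1073741824 536870912 1046898278 26843546
    (rowNX 3 0 false false false .pp 2 0 2 (qsf 0 536870912 1073741824 536870912 0) ndN0q2 ndN5q2 pcN0 Cut.none Ext.none)

def k0_mm_202 : ∃ t, chk3 f_mm_202 t 1 1 1 = true :=
  ⟨(l 3), by decide +kernel⟩

theorem c_mm_202 : CertNX 0 536870912 1073741824 536870912 1046898278 26843546 3 false false false .pp 2 0 2
    ndN0q2 ndN5q2 pcN0 Cut.none Ext.none :=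
  certNX0 (fam := false) (s1 := false) (s2 := false) (a := 2) (b := 0) (c := 2) (cn := .pp) (n1 := ndN0q2) (n2 := ndN5q2) (pc := pcN0) (cut := Cut.none) (xt := Ext.none) (P1 := 0) (W1 := 536870912) (P2 := 1073741824) (W2 := 536870912) (P3 := 1046898278) (W3 := 26843546) (N0 := 3)
    rfl k0_mm_202

noncomputable def f_mm_203 : ℕ → ℕ → ℕ → ℕ → Bool := onCell 0 536870912 0 1230186008 1046898278 26843546
    (rowNX 3 0 false false false .up 2 0 3 (qsf 0 536870912 0 1230186008 0) ndN0q2 ndN5q3 pcN0 Cut.none Ext.none)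

def k0_mm_203 : ∃ t, chk3 f_mm_203 t 1 1 1 = true :=
  ⟨(b (l 2) (l 3)), by decide +kernel⟩

theorem c_mm_203 : CertNX 0 536870912 0 1230186008 1046898278 26843546 3 false false false .up 2 0 3
    ndN0q2 ndN5q3 pcN0 Cut.none Ext.none :=
  certNX0 (fam := false) (s1 := false) (s2 := false) (a := 2) (b := 0) (c := 3) (cn := .up) (n1 := ndN0q2) (n2 := ndN5q3) (pc := pcN0) (cut := Cut.none) (xt := Ext.none) (P1 := 0) (W1 := 536870912) (P2 := 0) (W2 := 1230186008) (P3 := 1046898278) (W3 := 26843546) (N0 := 3)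
    rfl k0_mm_203

noncomputable def f_mm_213 : ℕ → ℕ → ℕ → ℕ → Bool := onCell 0 536870912 0 1230186008 1046898278 26843546
    (rowNX 3 0 false false false .pnn 2 1 3 (qsf 0 536870912 0 1230186008 1) ndN0q2 ndN5q3 pcN1 Cut.none Ext.none)

def k0_mm_213 : ∃ t, chk3 f_mm_213 t 1 1 1 = true :=
  ⟨(b (a (l 3) (l 5)) (l 3)), by decide +kernel⟩

theorem c_mm_213 : CertNX 0 536870912 0 1230186008 1046898278 26843546 3 false false false .pnn 2 1 3
    ndN0q2 ndN5q3 pcN1 Cut.none Ext.none :=
  certNX0 (fam := false) (s1 := false) (s2 := false) (a := 2) (b := 1) (c := 3) (cn := .pnn) (n1 := ndN0q2) (n2 := ndN5q3) (pc := pcN1) (cut := Cut.none) (xt := Ext.none) (P1 := 0) (W1 := 536870912) (P2 := 0) (W2 := 1230186008) (P3 := 1046898278) (W3 := 26843546) (N0 := 3)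
    rfl k0_mm_213

end Pool.Agent.Strip051.G.IE1.Tab.C.NB05

namespace Pool.Agent.Strip051.G.IE1.Tab.C.NB06

open Pool.Agent.Strip051.PB Pool.Agent.Strip051.PB.T
open Pool.Agent.Strip051.G.IE1.Tab

noncomputable def f_pp_001 : ℕ → ℕ → ℕ → ℕ → Bool := onCell 0 536870912 0 536870912 1046898278 26843546
    (rowNX 3 1 false true true .up 0 0 1 (qsf 0 536870912 536870912 469762048 0) ndN0q0 ndN6q1 pcN0 Cut.none Ext.none)

def k0_pp_001 : ∃ t, chk3 f_pp_001 t 1 1 1 = true :=
  ⟨(l 3), by decide +kernel⟩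

theorem c_pp_001 : CertNX 0 536870912 536870912 469762048 1046898278 26843546 3 false true true .up 0 0 1
    ndN0q0 ndN6q1 pcN0 Cut.none Ext.none :=
  certNX1 (fam := false) (s1 := true) (s2 := true) (a := 0) (b := 0) (c := 1) (cn := .up) (n1 := ndN0q0) (n2 := ndN6q1) (pc := pcN0) (cut := Cut.none) (xt := Ext.none) (P1 := 0) (W1 := 536870912) (P2 := 536870912) (W2 := 469762048) (P3 := 1046898278) (W3 := 26843546) (N0 := 3)
    rfl (fun _ => rfl) k0_pp_001

noncomputable def f_pp_011 : ℕ → ℕ → ℕ → ℕ → Bool := onCell 0 536870912 536870912 469762048 1046898278 26843546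
    (rowNX 3 0 false true true .pnn 0 1 1 (qsf 0 536870912 536870912 469762048 1) ndN0q0 ndN6q1 pcN1 Cut.none Ext.none)

def k0_pp_011 : ∃ t, chk3 f_pp_011 t 1 1 1 = true :=
  ⟨(b (l 3) (l 3)), by decide +kernel⟩

theorem c_pp_011 : CertNX 0 536870912 536870912 469762048 1046898278 26843546 3 false true true .pnn 0 1 1
    ndN0q0 ndN6q1 pcN1 Cut.none Ext.none :=
  certNX0 (fam := false) (s1 := true) (s2 := true) (a := 0) (b := 1) (c := 1) (cn := .pnn) (n1 := ndN0q0) (n2 := ndN6q1) (pc := pcN1) (cut := Cut.none) (xt := Ext.none) (P1 := 0) (W1 := 536870912) (P2 := 536870912) (W2 := 469762048) (P3 := 1046898278) (W3 := 26843546) (N0 := 3)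
    rfl k0_pp_011

noncomputable def f_pp_012 : ℕ → ℕ → ℕ → ℕ → Bool := onCell 0 536870912 536870912 536870912 1046898278 26843546
    (rowNX 3 1 false true true .pnp 0 1 2 (qsf 0 536870912 1073741824 536870912 1) ndN0q0 ndN6q2 pcN1 Cut.none Ext.none)

def k0_pp_012 : ∃ t, chk3 f_pp_012 t 1 1 1 = true :=
  ⟨(l 3), by decide +kernel⟩

theorem c_pp_012 : CertNX 0 536870912 1073741824 536870912 1046898278 26843546 3 false true true .pnp 0 1 2
    ndN0q0 ndN6q2 pcN1 Cut.none Ext.none :=
  certNX1 (fam := false) (s1 := true) (s2 := true) (a := 0) (b := 1) (c := 2) (cn := .pnp) (n1 := ndN0q0) (n2 := ndN6q2) (pc := pcN1) (cut := Cut.none) (xt := Ext.none) (P1 := 0) (W1 := 536870912) (P2 := 1073741824) (W2 := 536870912) (P3 := 1046898278) (W3 := 26843546) (N0 := 3)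
    rfl (fun _ => rfl) k0_pp_012

noncomputable def f_pp_022 : ℕ → ℕ → ℕ → ℕ → Bool := onCell 0 536870912 1073741824 536870912 1046898278 26843546
    (rowNX 3 1 false true true .pp 0 2 2 (qsf 0 536870912 1073741824 536870912 2) ndN0q0 ndN6q2 pcN2 Cut.none Ext.none)

def k0_pp_022 : ∃ t, chk3 f_pp_022 t 1 4 1 = true :=
  ⟨(b (l 3) (l 3)), by decide +kernel⟩

def k1_pp_022 : ∃ t, chk3 f_pp_022 t 2 40 1 = true :=
  ⟨(l 3), by decide +kernel⟩

def k2_pp_022 : ∃ t, chk3 f_pp_022 t 2 82 1 = true :=
  ⟨(l 3), by decide +kernel⟩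

def k3_pp_022 : ∃ t, chk3 f_pp_022 t 4 166 1 = true :=
  ⟨(l 3), by decide +kernel⟩

def k4_pp_022 : ∃ t, chk3 f_pp_022 t 4 334 1 = true :=
  ⟨(b (l 3) (a (a (a (c (c (l 15657424) (l 15642200)) (c (a (l 15713472) (l 15550152)) (a (c (l 15706272) (c (l 15532544) (l 15693656))) (c (a (l 15536344) (l 15506872)) (l 15530664))))) (b (l 3) (c (a (l 15407048) (c (l 15264072) (l 15240904))) (c (a (c (l 15400160) (l 15371432)) (c (l 15257104) (l 15223744))) (l 15284416))))) (a (c (c (c (l 15098464) (a (l 15156552) (l 15050856))) (c (a (l 15164224) (c (l 15023744) (l 14983776))) (a (c (l 15146384) (l 15113672)) (l 14961568)))) (l 14997520)) (l 3))) (l 3))), by decide +kernel⟩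

def k5_pp_022 : ∃ t, chk3 f_pp_022 t 4 2680 1 = true :=
  ⟨(a (a (c (a (l 15632192) (c (l 15326472) (a (l 15389896) (l 15251736)))) (a (c (l 15530936) (a (c (l 15687528) (a (l 15721336) (l 15630024))) (c (a (l 15559856) (l 15488656)) (l 15512176)))) (c (a (c (l 15389624) (l 15381768)) (c (l 15246824) (l 15213360))) (l 15273760)))) (c (a (c (c (l 15082560) (a (l 15140296) (l 15035008))) (c (a (l 15147816) (c (l 15007776) (l 14967736))) (a (l 15118192) (l 14945416)))) (c (c (a (l 14927368) (c (l 14779824) (l 14730496))) (a (c (l 14891152) (l 14845624)) (l 14706552))) (l 14746336))) (c (l 14850960) (l 14818456)))) (a (a (c (a (a (l 14603032) (l 14604088)) (l 3)) (l 14567112)) (l 3)) (l 3))), by decide +kernel⟩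

def k6_pp_022 : ∃ t, chk3 f_pp_022 t 4 2681 1 = true :=
  ⟨(b (a (a (c (a (l 15626864) (c (l 15321448) (a (l 15384704) (l 15246672)))) (a (c (l 15525456) (a (c (l 15681904) (a (l 15715632) (l 15624384))) (c (a (l 15554336) (l 15483200)) (l 15506632)))) (c (a (c (l 15384360) (l 15376456)) (c (l 15241688) (l 15208176))) (l 15268440)))) (c (a (c (c (l 15077800) (a (l 15135424) (l 15030256))) (c (a (l 15142896) (a (l 15035120) (l 14931768))) (a (l 15113232) (l 14940576)))) (c (c (a (l 14922784) (a (l 14804752) (l 14698328))) (a (a (l 14917264) (l 14811584)) (l 14702040))) (l 14741704))) (c (l 14846112) (l 14813520)))) (a (a (c (a (a (l 14599408) (l 14604088)) (l 14679896)) (l 14565976)) (c (l 14919768) (l 14854400))) (l 3))) (a (a (c (a (a (l 15707552) (l 15540016)) (c (l 15255184) (a (l 15381248) (c (l 15249464) (a (l 15291432) (l 15232664)))))) (a (c (a (l 15685752) (c (l 15522224) (l 15523568))) (a (c (l 15678160) (a (c (l 15715776) (l 15710904)) (l 15557720))) (c (a (c (l 15560424) (l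 15557448)) (l 15479560)) (l 15502936)))) (c (a (c (l 15380856) (a (l 15355664) (l 15337608))) (c (a (l 15263008) (l 15202144)) (l 15204720))) (l 15264888)))) (c (a (c (c (l 15074624) (a (l 15132176) (c (l 15041648) (l 15025960)))) (c (a (l 15139624) (c (a (l 15048552) (l 14937888)) (l 14959728))) (a (a (c (l 15170400) (l 15131088)) (l 15055816)) (l 14937344)))) (c (c (a (c (l 14938560) (l 14852376)) (c (a (l 14816688) (l 14684168)) (l 14723032))) (a (c (a (l 14930672) (l 14818064)) (l 14837888)) (l 14699040))) (l 14738616))) (c (l 14800944) (l 14810224)))) (a (a (c (a (a (c (l 14616272) (l 14578576)) (l 14604088)) (l 14679896)) (a (l 14524416) (l 14606096))) (c (l 14919768) (l 14854400))) (c (a (l 15234864) (l 15520216)) (l 15224576))))), by decide +kernel⟩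

def k7_pp_022 : ∃ t, chk3 f_pp_022 t 4 1341 1 = true :=
  ⟨(a (a (c (a (l 15614456) (c (l 15309720) (a (l 15372608) (l 15234872)))) (a (c (l 15596576) (a (c (l 15668808) (a (l 15702344) (l 15611248))) (c (l 15289800) (l 15493712)))) (c (a (c (l 15372096) (l 15364072)) (l 15134912)) (l 15256024)))) (c (a (c (c (l 15066696) (a (l 15124072) (l 15019184))) (c (a (l 15131440) (l 14958784)) (a (l 15101656) (l 14929288)))) (c (c (a (l 14912104) (c (l 14764992) (l 14715584))) (a (c (l 14875776) (l 14830168)) (l 14691536))) (l 14730896))) (l 14819392))) (a (a (c (a (a (l 14593392) (l 14604088)) (l 14679896)) (l 14564752)) (l 14887040)) (a (l 15207664) (l 15498032)))), by decide +kernel⟩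

def k8_pp_022 : ∃ t, chk3 f_pp_022 t 4 671 1 = true :=
  ⟨(a (a (c (a (l 15593208) (c (l 15289664) (a (l 15351920) (l 15214672)))) (a (c (l 15574728) (a (c (l 15646392) (a (l 15679592) (l 15588752))) (c (l 15267904) (l 15471608)))) (c (a (c (l 15351104) (l 15342888)) (l 15114328)) (l 15234792)))) (c (a (c (c (l 15047696) (a (l 15104648) (l 15000248))) (c (a (l 15111824) (l 14939656)) (a (l 15081856) (l 14909984)))) (c (c (a (l 14893824) (c (l 14747232) (l 14697736))) (a (c (l 14857360) (l 14811664)) (l 14673560))) (l 14712416))) (l 14799872))) (a (a (c (a (l 14721104) (l 14679896)) (l 14562768)) (l 14887040)) (a (l 15207664) (l 15498032)))), by decide +kernel⟩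

def k9_pp_022 : ∃ t, chk3 f_pp_022 t 5 83 1 = true :=
  ⟨(b (l 3) (b (a (a (l 3) (c (l 3139787292439) (l 3774368667559))) (b (a (l 3) (c (l 16754576) (l 16753776))) (c (a (l 16501568) (l 16649720)) (a (l 16491856) (l 16690864))))) (b (b (b (a (c (l 15762808) (l 15861024)) (c (a (l 16501568) (l 16754576)) (a (l 16491856) (l 16753784)))) (b (a (c (l 15804752) (l 15882000)) (c (a (l 16501568) (l 16754576)) (a (l 16491856) (l 16753784)))) (a (c (a (l 15811992) (l 16168920)) (a (l 15777984) (l 16147496))) (c (a (l 16501568) (a (l 16731480) (l 16777216))) (a (l 16491856) (a (l 16729864) (l 16777216))))))) (a (a (l 15794952) (l 16158184)) (a (l 16496704) (l 16712232)))) (a (a (l 15794952) (l 16158184)) (a (l 16496704) (l 16712232)))))), by decide +kernel⟩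

def k10_pp_022 : ∃ t, chk3 f_pp_022 t 2 21 1 = true :=
  ⟨(a (a (a (c (a (b (l 15334752) (l 14925168)) (c (b (l 15065552) (l 14659928)) (a (l 14908504) (c (l 14790520) (a (l 14825144) (l 14772176)))))) (a (c (a (l 15180184) (a (l 15064744) (l 14891080))) (a (c (l 15144424) (a (c (l 15196384) (l 15021296)) (l 14896336))) (c (a (c (l 15057840) (l 15052488)) (l 14981768)) (l 14997384)))) (c (a (c (l 14733488) (a (c (l 14940280) (l 14924400)) (l 14835400))) (c (b (l 14728648) (l 14565896)) (l 14732336))) (l 14779680)))) (c (a (c (b (a (l 14885120) (c (l 14789984) (l 14725912))) (a (b (l 14590496) (l 14433576)) (c (b (l 14537240) (l 14475824)) (b (a (l 14546088) (l 14520176)) (l 14471568))))) (b (a (c (l 14892816) (a (l 14904368) (l 14808200))) (c (a (l 14789768) (l 14689560)) (l 14694432))) (a (c (b (l 14593832) (l 14413592)) (a (l 14464376) (l 14438040))) (c (b (a (l 14503944) (l 14444768)) (l 14426768)) (l 14412376))))) (c (b (a (c (b (l 14764128) (a (l 14646192) (b (l 14625320) (l 14566160))))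 (a (c (l 14701960) (l 14647272)) (b (l 14673472) (l 14527760)))) (c (a (b (c (l 14692200) (l 14635664)) (c (l 14610120) (l 14553176))) (b (b (l 14622448) (l 14563256)) (l 14581856))) (b (l 14599848) (l 14537736)))) (a (c (l 14566872) (a (l 14508576) (l 14500544))) (c (l 14600208) (l 14536552)))) (b (a (l 14425616) (b (l 14571464) (l 14508448))) (l 14476256)))) (a (b (l 14720368) (a (l 14404832) (l 14360816))) (b (b (l 14569048) (l 14458992)) (l 14415848))))) (a (a (c (a (l 14567984) (l 14679896)) (l 14559464)) (l 14887040)) (a (l 15207664) (l 15498032)))) (a (a (l 15794952) (l 16158184)) (a (l 16475728) (a (l 16730672) (l 16777216))))), by decide +kernel⟩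

def k11_pp_022 : ∃ t, chk3 f_pp_022 t 2 11 1 = true :=
  ⟨(a (a (a (c (b (a (b (l 14515960) (a (l 14215656) (l 14169016))) (b (a (b (l 14418040) (l 14259760)) (c (b (l 14342304) (l 14280672)) (b (a (l 14331264) (l 14307744)) (l 14258992)))) (c (l 14246088) (l 14222088)))) (a (l 14098272) (c (l 14245512) (l 14221496)))) (a (b (b (c (l 14465672) (a (c (l 14507416) (l 14234328)) (c (l 14366128) (l 14349336)))) (c (a (l 14149432) (b (l 14133216) (l 14069096))) (a (c (l 14119256) (a (l 14108952) (l 14060968))) (c (a (l 14026280) (l 14078200)) (l 14056184))))) (c (l 14035000) (a (c (l 13965344) (l 13938400)) (l 14007128)))) (c (b (a (c (b (l 14310808) (l 14160248)) (b (a (l 14312544) (l 14268600)) (l 14140328))) (b (a (b (l 14294712) (l 14208880)) (l 14260288)) (l 14222448))) (a (c (l 14159440) (l 14139512)) (l 14222448))) (b (b (l 14243096) (l 14128080)) (l 14127464))))) (c (a (a (c (l 14370976) (c (l 14371016) (b (l 14334000) (l 14333528)))) (c (c (l 14474656) (l 14470376)) (c (l 14404600)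 (l 14369696)))) (c (c (a (l 14545120) (b (l 14600208) (l 14600208))) (a (b (l 14514432) (l 14514432)) (l 14536552))) (l 14475664))) (l 14351176))) (a (a (c (l 14626616) (l 14559064)) (l 14887040)) (c (l 15378688) (l 15329432)))) (a (a (l 15794952) (l 16158184)) (a (b (l 16496704) (l 16496712)) (b (a (l 16730632) (l 16776584)) (l 16754224))))), by decide +kernel⟩

def k12_pp_022 : ∃ t, chk3 f_pp_022 t 3 5 1 = true :=
  ⟨(a (a (c (b (b (b (l 3) (b (l 3) (b (b (l 1493742649271) (c (l 16777200) (l 16777200))) (b (b (l 16777200) (a (l 16777208) (l 16777208))) (b (b (b (l 16777216) (b (l 16777216) (c (l 16777216) (l 16777216)))) (l 16777216)) (l 16777216)))))) (a (l 16776680) (l 16772728))) (a (l 16776992) (l 16770088))) (b (b (b (l 3) (b (l 3) (b (b (l 16777216) (l 695952473927)) (b (b (l 16777200) (a (l 16777208) (l 16777208))) (b (b (b (l 16777216) (b (l 16777216) (c (l 16777216) (l 16777216)))) (l 16777216)) (l 16777216)))))) (l 16772128)) (l 16775752))) (b (b (b (l 3) (b (b (l 3) (c (c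 (l 16777200) (l 16777200)) (l 1054045372071))) (b (b (c (l 16777176) (l 16777168)) (c (l 16777160) (l 16777152))) (b (b (c (l 16777176) (l 16777176)) (b (c (l 16777200) (l 16777200)) (c (l 16776088) (l 16776048)))) (b (b (b (c (c (l 16773144) (l 16773072)) (l 16772960)) (a (b (c (l 16776568) (l 16776544)) (b (b (c (l 16775320) (l 16775248)) (c (l 16774192) (l 16774088))) (l 16773960))) (b (c (l 16767488) (l 16767152)) (l 16756400)))) (c (l 16763528) (l 16763048))) (c (l 16762944) (l 16762440))))))) (c (l 16751552) (l 16750656))) (c (l 16764584) (l 16764144)))) (a (b (b (b (l 3) (l 2)) (l 2)) (l 2)) (l 2))), by decide +kernel⟩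

def k13_pp_022 : ∃ t, chk3 f_pp_022 t 1 3 1 = true :=
  ⟨(a (a (a (c (a (b (b (a (l 14097888) (l 14233760)) (l 14169840)) (b (l 14169840) (l 14169840))) (b (a (c (b (l 14407656) (l 14407656)) (b (c (l 14394232) (l 14358000)) (l 14371352))) (b (c (l 14366592) (l 14475664)) (l 14526896))) (a (c (l 14407656) (l 14329408)) (l 14526896)))) (b (a (a (c (l 14034608) (a (c (l 13964856) (l 13937912)) (l 14007128))) (c (a (b (l 14133304) (l 14133304)) (l 14222448)) (l 14127464))) (l 14267096)) (a (a (c (l 14034608) (b (l 13981696) (l 13981696))) (c (b (l 14165704) (l 14165704)) (l 14127464))) (l 14350976)))) (b (a (a (b (l 14589296) (l 14589296)) (b (l 14887040) (l 14887040))) (b (l 15354008) (l 15354008))) (a (a (l 14589296) (l 14887040)) (l 15333040)))) (b (a (b (a (l 15794952) (l 16158184)) (l 15979656)) (a (l 16391840) (l 16754176))) (a (b (l 15979656) (l 2)) (l 2)))) (b (a (b (a (l 16777216) (l 2)) (l 2)) (l 2)) (l 2))), by decide +kernel⟩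

theorem s14_pp_022 : ∃ t, chk3 f_pp_022 t 4 1340 1 = true := ex3_b k5_pp_022 k6_pp_022

theorem s15_pp_022 : ∃ t, chk3 f_pp_022 t 4 670 1 = true := ex3_b s14_pp_022 k7_pp_022

theorem s16_pp_022 : ∃ t, chk3 f_pp_022 t 4 335 1 = true := ex3_b s15_pp_022 k8_pp_022

theorem s17_pp_022 : ∃ t, chk3 f_pp_022 t 4 167 1 = true := ex3_b k4_pp_022 s16_pp_022

theorem s18_pp_022 : ∃ t, chk3 f_pp_022 t 4 83 1 = true := ex3_b k3_pp_022 s17_pp_022

theorem s19_pp_022 : ∃ t, chk3 f_pp_022 t 2 83 1 = true := ex3_a s18_pp_022 k9_pp_022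

theorem s20_pp_022 : ∃ t, chk3 f_pp_022 t 2 41 1 = true := ex3_b k2_pp_022 s19_pp_022

theorem s21_pp_022 : ∃ t, chk3 f_pp_022 t 2 20 1 = true := ex3_b k1_pp_022 s20_pp_022

theorem s22_pp_022 : ∃ t, chk3 f_pp_022 t 2 10 1 = true := ex3_b s21_pp_022 k10_pp_022

theorem s23_pp_022 : ∃ t, chk3 f_pp_022 t 2 5 1 = true := ex3_b s22_pp_022 k11_pp_022

theorem s24_pp_022 : ∃ t, chk3 f_pp_022 t 1 5 1 = true := ex3_a s23_pp_022 k12_pp_022

theorem s25_pp_022 : ∃ t, chk3 f_pp_022 t 1 2 1 = true := ex3_b k0_pp_022 s24_pp_022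

theorem s26_pp_022 : ∃ t, chk3 f_pp_022 t 1 1 1 = true := ex3_b s25_pp_022 k13_pp_022

theorem c_pp_022 : CertNX 0 536870912 1073741824 536870912 1046898278 26843546 3 false true true .pp 0 2 2
    ndN0q0 ndN6q2 pcN2 Cut.none Ext.none :=
  certNX1 (fam := false) (s1 := true) (s2 := true) (a := 0) (b := 2) (c := 2) (cn := .pp) (n1 := ndN0q0) (n2 := ndN6q2) (pc := pcN2) (cut := Cut.none) (xt := Ext.none) (P1 := 0) (W1 := 536870912) (P2 := 1073741824) (W2 := 536870912) (P3 := 1046898278) (W3 := 26843546) (N0 := 3)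
    rfl (fun _ => rfl) s26_pp_022

noncomputable def f_pp_023 : ℕ → ℕ → ℕ → ℕ → Bool := onCell 1073741824 536870912 0 1230186008 1046898278 26843546
    (rowNX 3 2 false true true .up 0 2 3 (qsf 0 536870912 0 1230186008 2) ndN0q0 ndN6q3 pcN2 Cut.none Ext.none)

def k0_pp_023 : ∃ t, chk3 f_pp_023 t 2 2 1 = true :=
  ⟨(l 2), by decide +kernel⟩

def k1_pp_023 : ∃ t, chk3 f_pp_023 t 4 3 1 = true :=
  ⟨(b (l 2) (b (l 2) (l 3))), by decide +kernel⟩

def k2_pp_023 : ∃ t, chk3 f_pp_023 t 10 3 1 = true :=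
  ⟨(b (l 2) (b (a (b (l 2) (b (l 2) (a (a (l 3) (a (b (l 2) (l 3)) (c (l 16776952) (l 16776944)))) (a (a (c (l 16776720) (l 16776696)) (c (c (l 16771872) (l 16771784)) (a (l 16776680) (l 16772360)))) (a (a (c (c (l 16759312) (l 16759000)) (c (l 16758688) (l 16758360))) (l 16701456)) (a (c (l 16679344) (l 16675904)) (c (l 16645512) (l 16640888)))))))) (c (b (l 16611800) (l 16632584)) (b (l 16605992) (l 16649216)))) (b (a (a (a (l 3) (a (l 3) (b (c (l 16777160) (l 16777152)) (l 3)))) (a (c (a (c (l 16777024) (l 16777024)) (c (l 16776920) (l 16776912))) (a (c (l 16777016) (l 16777016)) (c (l 16776912) (l 16776904)))) (a (a (c (c (l 16772912) (l 16772840)) (c (l 16772760) (l 16772680))) (c (c (b (l 16759824) (l 16772720)) (b (l 16759520) (l 16772640))) (c (b (l 16759208) (l 16772560)) (b (l 16758896) (l 16772480))))) (b (a (c (l 16713272) (l 16711024)) (c (l 16675024) (l 16671432))) (a (a (c (a (l 16768936) (l 16760368)) (l 16763256)) (l 16714928)) (c (l 16704848) (l 16702304))))))) (c (l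 16674928) (l 16693040))) (a (a (l 3) (a (a (c (l 1007874473655) (l 997137055415)) (c (c (l 16777136) (l 16777136)) (c (l 16777128) (l 16777128)))) (a (a (c (l 16777104) (l 16777096)) (c (c (l 16777120) (l 16777112)) (c (l 16777112) (l 16777112)))) (b (a (a (c (l 16775288) (l 16775224)) (a (c (l 16771792) (l 16771608)) (c (l 16762464) (l 16761944)))) (c (l 16735080) (l 16733600))) (a (a (c (l 16777168) (l 16777168)) (a (c (l 16777200) (l 16777200)) (c (l 16775088) (l 16775008)))) (a (a (a (c (l 16771496) (l 16771296)) (a (c (l 16764800) (l 16764368)) (l 16753176))) (l 16747872)) (l 16747840))))))) (c (l 16739304) (l 16737976)))))), by decide +kernel⟩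

def k3_pp_023 : ∃ t, chk3 f_pp_023 t 11 3 1 = true :=
  ⟨(b (b (l 2) (a (l 2) (c (l 16777152) (l 16777152)))) (b (c (a (b (l 16715264) (l 16730056)) (l 16777128)) (a (b (l 16713088) (l 16728400)) (l 16777128))) (c (a (b (l 16745072) (l 16760480)) (l 16777176)) (b (l 16759824) (l 16731144))))), by decide +kernel⟩

def k4_pp_023 : ∃ t, chk3 f_pp_023 t 3 1 1 = true :=
  ⟨(b (a (l 2) (b (b (l 431744498167) (l 16702872)) (b (l 16728152) (c (l 16755968) (l 16755072))))) (b (a (a (b (l 2) (c (l 16777200) (l 16777200))) (b (c (l 16777152) (l 16777144)) (c (l 16777200) (l 16777200)))) (b (a (l 16777152) (l 16777152)) (c (l 16777200) (l 16777200)))) (b (a (c (a (l 16777216) (l 16777216)) (a (l 16777216) (l 16777216))) (b (a (l 16777216) (a (l 16767392) (l 16659792))) (a (b (l 16773112) (l 16703088)) (b (l 16491152) (l 16147904))))) (a (b (a (l 16777216) (b (l 16775912) (a (l 16774808) (l 16671544)))) (a (b (l 16774136) (a (l 16766616) (l 16533072))) (b (a (l 16660832) (l 16389160)) (a (l 16354040)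 (l 16004880))))) (b (a (b (a (l 16671912) (l 16401592)) (l 16067152)) (b (l 15740248) (a (l 15676448) (l 15155152)))) (a (b (a (l 16042592) (l 15655072)) (a (l 15606648) (b (l 15259672) (a (l 15072216) (l 14709584))))) (b (a (l 15131200) (c (c (a (l 14855984) (a (l 14654856) (l 14315544))) (l 14547016)) (l 14608936))) (a (c (b (a (l 14836888) (l 14623328)) (a (l 14600632) (c (l 14463592) (l 14430408)))) (l 14663680)) (c (b (a (c (l 14477832) (l 14448832)) (c (l 14358024) (l 14297056))) (a (c (l 14339712) (l 14283672)) (l 14177200))) (b (l 14277904) (a (l 14183016) (c (l 14108000) (l 14049712))))))))))))), by decide +kernel⟩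

theorem s5_pp_023 : ∃ t, chk3 f_pp_023 t 5 3 1 = true := ex3_a k2_pp_023 k3_pp_023

theorem s6_pp_023 : ∃ t, chk3 f_pp_023 t 2 3 1 = true := ex3_a k1_pp_023 s5_pp_023

theorem s7_pp_023 : ∃ t, chk3 f_pp_023 t 2 1 1 = true := ex3_b k0_pp_023 s6_pp_023

theorem s8_pp_023 : ∃ t, chk3 f_pp_023 t 1 1 1 = true := ex3_a s7_pp_023 k4_pp_023

theorem c_pp_023 : CertNX 0 536870912 0 1230186008 1046898278 26843546 3 false true true .up 0 2 3
    ndN0q0 ndN6q3 pcN2 Cut.none Ext.none :=
  certNX2 (fam := false) (s1 := true) (s2 := true) (a := 0) (b := 2) (c := 3) (cn := .up) (n1 := ndN0q0) (n2 := ndN6q3) (pc := pcN2) (cut := Cut.none) (xt := Ext.none) (P1 := 0) (W1 := 536870912) (P2 := 0) (W2 := 1230186008) (P3 := 1046898278) (W3 := 26843546) (N0 := 3)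
    rfl (fun _ => rfl) s8_pp_023

noncomputable def f_pp_033 : ℕ → ℕ → ℕ → ℕ → Bool := onCell 0 536870912 0 1230186008 1046898278 26843546
    (rowNX 3 0 false true true .pnn 0 3 3 (qsf 0 536870912 0 1230186008 3) ndN0q0 ndN6q3 pcN3 Cut.none Ext.none)

def k0_pp_033 : ∃ t, chk3 f_pp_033 t 1 2 1 = true :=
  ⟨(b (b (a (l 4) (a (c (l 16578344) (a (l 16722840) (l 16722840))) (a (l 16721712) (l 16721712)))) (a (a (l 4) (a (l 4) (c (l 16556472) (l 16422832)))) (a (a (c (l 16707792) (l 16694888)) (l 16702872)) (a (l 16702872) (l 16702872))))) (b (a (a (a (l 4) (a (l 4) (c (l 15361392) (l 15284800)))) (a (c (a (l 15791328) (l 16144304)) (a (l 15731936) (l 16099768))) (a (b (l 16468008) (l 16465752)) (l 16706656)))) (a (a (c (l 16732104) (l 16721576)) (l 16728152)) (l 16728152))) (b (a (a (a (a (l 4) (c (a (l 4) (l 14507256)) (l 14320424))) (a (c (l 14708168) (l 14676944)) (l 15327512))) (a (a (l 15767608) (l 16129904)) (l 16450336))) (a (a (l 16742256) (l 16742256)) (l 16742256))) (a (a (a (a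 (b (l 4) (c (l 14127800) (a (c (l 14034480) (l 13981560)) (l 14117384)))) (c (a (c (l 14403912) (l 14366848)) (l 14522696)) (l 14345304))) (a (c (l 14724360) (l 14702120)) (l 15348920))) (a (a (l 15789768) (l 16152912)) (l 16622512))) (a (l 16771008) (l 106333943607)))))), by decide +kernel⟩

def k1_pp_033 : ∃ t, chk3 f_pp_033 t 1 3 1 = true :=
  ⟨(b (a (a (a (b (c (a (b (a (l 14097840) (l 14233704)) (l 14169744)) (b (a (c (l 14407608) (l 14371296)) (l 14526848)) (a (l 14358560) (l 14526816)))) (a (b (a (c (l 14034544) (l 13981632)) (l 14117448)) (a (c (l 14034480) (l 13981560)) (l 14096432))) (b (l 14350912) (l 14350888)))) (a (c (b (l 14169800) (l 14169840)) (a (c (l 14034576) (b (l 13981640) (l 13981696))) (c (l 14144712) (l 14127440)))) (c (a (c (l 14407640) (l 14371336)) (l 14526880)) (l 14350960)))) (b (b (a (a (l 14589240) (l 14886992)) (l 15353968)) (a (l 14693400) (l 15353936))) (a (a (l 14589280) (l 14887024)) (l 15353992)))) (b (a (b (l 15979608) (l 15979576)) (a (l 16496640)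 (l 16754120))) (a (b (l 15979624) (l 15958688)) (a (l 16496680) (l 16754160))))) (a (b (a (l 16777152) (l 16777152)) (c (l 16777200) (l 16777200))) (b (c (l 16777152) (l 16777144)) (l 1)))) (a (a (a (b (a (c (l 14169840) (a (c (l 14034608) (a (l 13948408) (l 14007128))) (b (l 14096544) (l 14117520)))) (c (a (c (l 14407656) (l 14371352)) (c (l 14555336) (l 14475664))) (l 14350976))) (a (c (b (l 14169840) (l 14169840)) (a (c (l 14034608) (b (l 13981696) (l 13981696))) (b (l 14117520) (l 14117520)))) (a (c (c (l 14407656) (l 14182608)) (l 14284544)) (b (l 14411392) (l 14474304))))) (b (a (b (l 14693480) (l 14693480)) (b (l 15354008) (l 15354008))) (a (b (l 14693480) (l 14693480)) (l 112236225319)))) (b (a (b (l 15979656) (l 15979656)) (b (l 16627952) (l 1))) (a (b (l 15979656) (l 1)) (l 1)))) (l 1))), by decide +kernel⟩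

theorem s2_pp_033 : ∃ t, chk3 f_pp_033 t 1 1 1 = true := ex3_b k0_pp_033 k1_pp_033

theorem c_pp_033 : CertNX 0 536870912 0 1230186008 1046898278 26843546 3 false true true .pnn 0 3 3
    ndN0q0 ndN6q3 pcN3 Cut.none Ext.none :=
  certNX0 (fam := false) (s1 := true) (s2 := true) (a := 0) (b := 3) (c := 3) (cn := .pnn) (n1 := ndN0q0) (n2 := ndN6q3) (pc := pcN3) (cut := Cut.none) (xt := Ext.none) (P1 := 0) (W1 := 536870912) (P2 := 0) (W2 := 1230186008) (P3 := 1046898278) (W3 := 26843546) (N0 := 3)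
    rfl s2_pp_033

noncomputable def f_pp_101 : ℕ → ℕ → ℕ → ℕ → Bool := onCell 0 536870912 536870912 469762048 1046898278 26843546
    (rowNX 3 2 false true true .npn 1 0 1 (qsf 536870912 536870912 536870912 469762048 0) ndN0q1 ndN6q1 pcN0 Cut.none Ext.none)

def k0_pp_101 : ∃ t, chk3 f_pp_101 t 1 1 1 = true :=
  ⟨(l 3), by decide +kernel⟩

theorem c_pp_101 : CertNX 536870912 536870912 536870912 469762048 1046898278 26843546 3 false true true .npn 1 0 1
    ndN0q1 ndN6q1 pcN0 Cut.none Ext.none :=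
  certNX2 (fam := false) (s1 := true) (s2 := true) (a := 1) (b := 0) (c := 1) (cn := .npn) (n1 := ndN0q1) (n2 := ndN6q1) (pc := pcN0) (cut := Cut.none) (xt := Ext.none) (P1 := 536870912) (W1 := 536870912) (P2 := 536870912) (W2 := 469762048) (P3 := 1046898278) (W3 := 26843546) (N0 := 3)
    rfl (fun _ => rfl) k0_pp_101

noncomputable def f_pp_102 : ℕ → ℕ → ℕ → ℕ → Bool := onCell 536870912 536870912 1073741824 536870912 1046898278 26843546
    (rowNX 3 0 false true true .npp 1 0 2 (qsf 536870912 536870912 1073741824 536870912 0) ndN0q1 ndN6q2 pcN0 Cut.none Ext.none)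

def k0_pp_102 : ∃ t, chk3 f_pp_102 t 1 1 1 = true :=
  ⟨(l 3), by decide +kernel⟩

theorem c_pp_102 : CertNX 536870912 536870912 1073741824 536870912 1046898278 26843546 3 false true true .npp 1 0 2
    ndN0q1 ndN6q2 pcN0 Cut.none Ext.none :=
  certNX0 (fam := false) (s1 := true) (s2 := true) (a := 1) (b := 0) (c := 2) (cn := .npp) (n1 := ndN0q1) (n2 := ndN6q2) (pc := pcN0) (cut := Cut.none) (xt := Ext.none) (P1 := 536870912) (W1 := 536870912) (P2 := 1073741824) (W2 := 536870912) (P3 := 1046898278) (W3 := 26843546) (N0 := 3)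
    rfl k0_pp_102

noncomputable def f_pp_112 : ℕ → ℕ → ℕ → ℕ → Bool := onCell 536870912 536870912 1073741824 536870912 1046898278 26843546
    (rowNX 3 0 false true true .dn 1 1 2 (qsf 536870912 536870912 1073741824 536870912 1) ndN0q1 ndN6q2 pcN1 Cut.none Ext.none)

def k0_pp_112 : ∃ t, chk3 f_pp_112 t 1 1 1 = true :=
  ⟨(l 3), by decide +kernel⟩

theorem c_pp_112 : CertNX 536870912 536870912 1073741824 536870912 1046898278 26843546 3 false true true .dn 1 1 2
    ndN0q1 ndN6q2 pcN1 Cut.none Ext.none :=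
  certNX0 (fam := false) (s1 := true) (s2 := true) (a := 1) (b := 1) (c := 2) (cn := .dn) (n1 := ndN0q1) (n2 := ndN6q2) (pc := pcN1) (cut := Cut.none) (xt := Ext.none) (P1 := 536870912) (W1 := 536870912) (P2 := 1073741824) (W2 := 536870912) (P3 := 1046898278) (W3 := 26843546) (N0 := 3)
    rfl k0_pp_112

noncomputable def cut_pp_113 : Cut := Cut.of [[⟨0, 1, 0, 67108864⟩, ⟨1, 1, 0, 67108864⟩, ⟨2, 2, 0, 67108864⟩, ⟨3, 0, 0, 1233125376⟩]]

noncomputable def f_pp_113 : ℕ → ℕ → ℕ → ℕ → Bool := onCell 536870912 536870912 0 1230186008 1046898278 26843546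
    (rowNX 3 2 false true true .nn 1 1 3 (qsf 536870912 536870912 0 1230186008 1) ndN0q1 ndN6q3 pcN1 cut_pp_113 Ext.none)

def k0_pp_113 : ∃ t, chk3 f_pp_113 t 1 1 1 = true :=
  ⟨(b (a (l 2) (a (l 2) (b (a (l 2) (a (l 2) (l 6))) (l 3)))) (a (b (b (l 2) (l 3)) (b (a (l 2) (l 3)) (l 3))) (b (l 3) (l 3)))), by decide +kernel⟩

theorem c_pp_113 : CertNX 536870912 536870912 0 1230186008 1046898278 26843546 3 false true true .nn 1 1 3
    ndN0q1 ndN6q3 pcN1 cut_pp_113 Ext.none :=
  certNX2 (fam := false) (s1 := true) (s2 := true) (a := 1) (b := 1) (c := 3) (cn := .nn) (n1 := ndN0q1) (n2 := ndN6q3) (pc := pcN1) (cut := cut_pp_113) (xt := Ext.none) (P1 := 536870912) (W1 := 536870912) (P2 := 0) (W2 := 1230186008) (P3 := 1046898278) (W3 := 26843546) (N0 := 3)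
    rfl (fun _ => rfl) k0_pp_113

end Pool.Agent.Strip051.G.IE1.Tab.C.NB06

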