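import Pool.Agent.Strip051.G.IE1.StNb0
import Pool.Agent.Strip051.G.IE1.StNb1
import Pool.Agent.Strip051.G.IE1.StNb2
import Pool.Agent.Strip051.G.IE1.StNb3
import Pool.Agent.Strip051.G.IE1.StNb4
import Pool.Agent.Strip051.G.IE1.StNb5

/-! # Strips StNbZ (generated) -/

set_option linter.all false
set_option maxRecDepth 100000

namespace Pool.Agent.Strip051.G.IE1.Tab.StN.C

open Pool.Agent.Strip051.PB Pool.Agent.Strip051.PB.T
open Pool.Agent.StripNear Pool.Agent.Strip051.LC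
open Pool.Agent.Strip051.G.IE1.Tab Pool.Agent.Strip051.G.IE1.Tab.St Pool.Agent.Strip051.G.IE1.Tab.StN

theorem t434_B07mm_202_s1 : ∃ t, chk3 f_B07mm_202_s1 t 1 3 1 = true := ex3_a k432_B07mm_202_s1 k433_B07mm_202_s1

theorem t435_B07mm_202_s1 : ∃ t, chk3 f_B07mm_202_s1 t 57 40 2 = true := ex3_a k424_B07mm_202_s1 k425_B07mm_202_s1

theorem t436_B07mm_202_s1 : ∃ t, chk3 f_B07mm_202_s1 t 57 20 2 = true := ex3_b t435_B07mm_202_s1 k426_B07mm_202_s1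

theorem t437_B07mm_202_s1 : ∃ t, chk3 f_B07mm_202_s1 t 28 20 2 = true := ex3_a k423_B07mm_202_s1 t436_B07mm_202_s1

theorem t438_B07mm_202_s1 : ∃ t, chk3 f_B07mm_202_s1 t 28 10 2 = true := ex3_b t437_B07mm_202_s1 k427_B07mm_202_s1

theorem t439_B07mm_202_s1 : ∃ t, chk3 f_B07mm_202_s1 t 14 10 2 = true := ex3_a t438_B07mm_202_s1 k428_B07mm_202_s1

theorem t440_B07mm_202_s1 : ∃ t, chk3 f_B07mm_202_s1 t 7 10 2 = true := ex3_a t439_B07mm_202_s1 k429_B07mm_202_s1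

theorem t441_B07mm_202_s1 : ∃ t, chk3 f_B07mm_202_s1 t 7 10 1 = true := ex3_c t440_B07mm_202_s1 k430_B07mm_202_s1

theorem t442_B07mm_202_s1 : ∃ t, chk3 f_B07mm_202_s1 t 7 5 1 = true := ex3_b t441_B07mm_202_s1 k431_B07mm_202_s1

theorem t443_B07mm_202_s1 : ∃ t, chk3 f_B07mm_202_s1 t 6 22 1 = true := ex3_a k420_B07mm_202_s1 k421_B07mm_202_s1

theorem t444_B07mm_202_s1 : ∃ t, chk3 f_B07mm_202_s1 t 6 11 1 = true := ex3_b t443_B07mm_202_s1 k422_B07mm_202_s1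

theorem t445_B07mm_202_s1 : ∃ t, chk3 f_B07mm_202_s1 t 13 21 1 = true := ex3_a k418_B07mm_202_s1 k419_B07mm_202_s1

theorem t446_B07mm_202_s1 : ∃ t, chk3 f_B07mm_202_s1 t 13 10 1 = true := ex3_b k417_B07mm_202_s1 t445_B07mm_202_s1

theorem t447_B07mm_202_s1 : ∃ t, chk3 f_B07mm_202_s1 t 6 10 1 = true := ex3_a k416_B07mm_202_s1 t446_B07mm_202_s1

theorem t448_B07mm_202_s1 : ∃ t, chk3 f_B07mm_202_s1 t 6 5 1 = true := ex3_b t447_B07mm_202_s1 t444_B07mm_202_s1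

theorem t449_B07mm_202_s1 : ∃ t, chk3 f_B07mm_202_s1 t 3 5 1 = true := ex3_a t448_B07mm_202_s1 t442_B07mm_202_s1

theorem t450_B07mm_202_s1 : ∃ t, chk3 f_B07mm_202_s1 t 1 5 1 = true := ex3_a k415_B07mm_202_s1 t449_B07mm_202_s1

theorem t451_B07mm_202_s1 : ∃ t, chk3 f_B07mm_202_s1 t 58 39 5 = true := ex3_a k410_B07mm_202_s1 k411_B07mm_202_s1

theorem t452_B07mm_202_s1 : ∃ t, chk3 f_B07mm_202_s1 t 29 39 5 = true := ex3_a t451_B07mm_202_s1 k412_B07mm_202_s1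

theorem t453_B07mm_202_s1 : ∃ t, chk3 f_B07mm_202_s1 t 233 78 4 = true := ex3_b k405_B07mm_202_s1 k406_B07mm_202_s1

theorem t454_B07mm_202_s1 : ∃ t, chk3 f_B07mm_202_s1 t 116 78 4 = true := ex3_a k404_B07mm_202_s1 t453_B07mm_202_s1

theorem t455_B07mm_202_s1 : ∃ t, chk3 f_B07mm_202_s1 t 116 39 4 = true := ex3_b t454_B07mm_202_s1 k407_B07mm_202_s1

theorem t456_B07mm_202_s1 : ∃ t, chk3 f_B07mm_202_s1 t 58 39 4 = true := ex3_a t455_B07mm_202_s1 k408_B07mm_202_s1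

theorem t457_B07mm_202_s1 : ∃ t, chk3 f_B07mm_202_s1 t 29 39 4 = true := ex3_a t456_B07mm_202_s1 k409_B07mm_202_s1

theorem t458_B07mm_202_s1 : ∃ t, chk3 f_B07mm_202_s1 t 29 39 2 = true := ex3_c t457_B07mm_202_s1 t452_B07mm_202_s1

theorem t459_B07mm_202_s1 : ∃ t, chk3 f_B07mm_202_s1 t 29 39 1 = true := ex3_c t458_B07mm_202_s1 k413_B07mm_202_s1

theorem t460_B07mm_202_s1 : ∃ t, chk3 f_B07mm_202_s1 t 57 39 1 = true := ex3_c k402_B07mm_202_s1 k403_B07mm_202_s1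

theorem t461_B07mm_202_s1 : ∃ t, chk3 f_B07mm_202_s1 t 28 39 1 = true := ex3_a k401_B07mm_202_s1 t460_B07mm_202_s1

theorem t462_B07mm_202_s1 : ∃ t, chk3 f_B07mm_202_s1 t 14 39 1 = true := ex3_a t461_B07mm_202_s1 t459_B07mm_202_s1

theorem t463_B07mm_202_s1 : ∃ t, chk3 f_B07mm_202_s1 t 29 38 3 = true := ex3_a k399_B07mm_202_s1 k400_B07mm_202_s1

theorem t464_B07mm_202_s1 : ∃ t, chk3 f_B07mm_202_s1 t 118 76 5 = true := ex3_a k395_B07mm_202_s1 k396_B07mm_202_s1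

theorem t465_B07mm_202_s1 : ∃ t, chk3 f_B07mm_202_s1 t 118 38 5 = true := ex3_b t464_B07mm_202_s1 k397_B07mm_202_s1

theorem t466_B07mm_202_s1 : ∃ t, chk3 f_B07mm_202_s1 t 59 38 5 = true := ex3_a t465_B07mm_202_s1 k398_B07mm_202_s1

theorem t467_B07mm_202_s1 : ∃ t, chk3 f_B07mm_202_s1 t 236 76 4 = true := ex3_a k390_B07mm_202_s1 k391_B07mm_202_s1

theorem t468_B07mm_202_s1 : ∃ t, chk3 f_B07mm_202_s1 t 118 76 4 = true := ex3_a t467_B07mm_202_s1 k392_B07mm_202_s1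

theorem t469_B07mm_202_s1 : ∃ t, chk3 f_B07mm_202_s1 t 118 38 4 = true := ex3_b t468_B07mm_202_s1 k393_B07mm_202_s1

theorem t470_B07mm_202_s1 : ∃ t, chk3 f_B07mm_202_s1 t 59 38 4 = true := ex3_a t469_B07mm_202_s1 k394_B07mm_202_s1

theorem t471_B07mm_202_s1 : ∃ t, chk3 f_B07mm_202_s1 t 59 38 2 = true := ex3_c t470_B07mm_202_s1 t466_B07mm_202_s1

theorem t472_B07mm_202_s1 : ∃ t, chk3 f_B07mm_202_s1 t 235 154 4 = true := ex3_a k386_B07mm_202_s1 k387_B07mm_202_s1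

theorem t473_B07mm_202_s1 : ∃ t, chk3 f_B07mm_202_s1 t 235 154 2 = true := ex3_c t472_B07mm_202_s1 k388_B07mm_202_s1

theorem t474_B07mm_202_s1 : ∃ t, chk3 f_B07mm_202_s1 t 235 77 2 = true := ex3_b t473_B07mm_202_s1 k389_B07mm_202_s1

theorem t475_B07mm_202_s1 : ∃ t, chk3 f_B07mm_202_s1 t 234 155 2 = true := ex3_a k384_B07mm_202_s1 k385_B07mm_202_s1

theorem t476_B07mm_202_s1 : ∃ t, chk3 f_B07mm_202_s1 t 234 77 2 = true := ex3_b k383_B07mm_202_s1 t475_B07mm_202_s1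

theorem t477_B07mm_202_s1 : ∃ t, chk3 f_B07mm_202_s1 t 117 77 2 = true := ex3_a t476_B07mm_202_s1 t474_B07mm_202_s1

theorem t478_B07mm_202_s1 : ∃ t, chk3 f_B07mm_202_s1 t 58 77 2 = true := ex3_a k382_B07mm_202_s1 t477_B07mm_202_s1

theorem t479_B07mm_202_s1 : ∃ t, chk3 f_B07mm_202_s1 t 58 38 2 = true := ex3_b k381_B07mm_202_s1 t478_B07mm_202_s1

theorem t480_B07mm_202_s1 : ∃ t, chk3 f_B07mm_202_s1 t 29 38 2 = true := ex3_a t479_B07mm_202_s1 t471_B07mm_202_s1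

theorem t481_B07mm_202_s1 : ∃ t, chk3 f_B07mm_202_s1 t 29 38 1 = true := ex3_c t480_B07mm_202_s1 t463_B07mm_202_s1

theorem t482_B07mm_202_s1 : ∃ t, chk3 f_B07mm_202_s1 t 14 38 1 = true := ex3_a k380_B07mm_202_s1 t481_B07mm_202_s1

theorem t483_B07mm_202_s1 : ∃ t, chk3 f_B07mm_202_s1 t 14 19 1 = true := ex3_b t482_B07mm_202_s1 t462_B07mm_202_s1

theorem t484_B07mm_202_s1 : ∃ t, chk3 f_B07mm_202_s1 t 7 19 1 = true := ex3_a t483_B07mm_202_s1 k414_B07mm_202_s1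

theorem t485_B07mm_202_s1 : ∃ t, chk3 f_B07mm_202_s1 t 120 146 3 = true := ex3_a k373_B07mm_202_s1 k374_B07mm_202_s1

theorem t486_B07mm_202_s1 : ∃ t, chk3 f_B07mm_202_s1 t 120 73 3 = true := ex3_b t485_B07mm_202_s1 k375_B07mm_202_s1

theorem t487_B07mm_202_s1 : ∃ t, chk3 f_B07mm_202_s1 t 60 73 3 = true := ex3_a t486_B07mm_202_s1 k376_B07mm_202_s1

theorem t488_B07mm_202_s1 : ∃ t, chk3 f_B07mm_202_s1 t 243 72 3 = true := ex3_b k371_B07mm_202_s1 k372_B07mm_202_s1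

theorem t489_B07mm_202_s1 : ∃ t, chk3 f_B07mm_202_s1 t 121 72 3 = true := ex3_a k370_B07mm_202_s1 t488_B07mm_202_s1

theorem t490_B07mm_202_s1 : ∃ t, chk3 f_B07mm_202_s1 t 60 72 3 = true := ex3_a k369_B07mm_202_s1 t489_B07mm_202_s1

theorem t491_B07mm_202_s1 : ∃ t, chk3 f_B07mm_202_s1 t 60 36 3 = true := ex3_b t490_B07mm_202_s1 t487_B07mm_202_s1

theorem t492_B07mm_202_s1 : ∃ t, chk3 f_B07mm_202_s1 t 30 36 3 = true := ex3_a t491_B07mm_202_s1 k377_B07mm_202_s1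

theorem t493_B07mm_202_s1 : ∃ t, chk3 f_B07mm_202_s1 t 15 36 3 = true := ex3_a t492_B07mm_202_s1 k378_B07mm_202_s1

theorem t494_B07mm_202_s1 : ∃ t, chk3 f_B07mm_202_s1 t 15 18 3 = true := ex3_b t493_B07mm_202_s1 k379_B07mm_202_s1

theorem t495_B07mm_202_s1 : ∃ t, chk3 f_B07mm_202_s1 t 120 37 4 = true := ex3_c k363_B07mm_202_s1 k364_B07mm_202_s1

theorem t496_B07mm_202_s1 : ∃ t, chk3 f_B07mm_202_s1 t 60 37 4 = true := ex3_a t495_B07mm_202_s1 k365_B07mm_202_s1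

theorem t497_B07mm_202_s1 : ∃ t, chk3 f_B07mm_202_s1 t 30 37 4 = true := ex3_a t496_B07mm_202_s1 k366_B07mm_202_s1

theorem t498_B07mm_202_s1 : ∃ t, chk3 f_B07mm_202_s1 t 15 37 4 = true := ex3_a t497_B07mm_202_s1 k367_B07mm_202_s1

theorem t499_B07mm_202_s1 : ∃ t, chk3 f_B07mm_202_s1 t 15 37 2 = true := ex3_c t498_B07mm_202_s1 k368_B07mm_202_s1

theorem t500_B07mm_202_s1 : ∃ t, chk3 f_B07mm_202_s1 t 120 147 5 = true := ex3_a k358_B07mm_202_s1 k359_B07mm_202_s1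

theorem t501_B07mm_202_s1 : ∃ t, chk3 f_B07mm_202_s1 t 241 146 5 = true := ex3_b k356_B07mm_202_s1 k357_B07mm_202_s1

theorem t502_B07mm_202_s1 : ∃ t, chk3 f_B07mm_202_s1 t 120 146 5 = true := ex3_a k355_B07mm_202_s1 t501_B07mm_202_s1

theorem t503_B07mm_202_s1 : ∃ t, chk3 f_B07mm_202_s1 t 120 73 5 = true := ex3_b t502_B07mm_202_s1 t500_B07mm_202_s1

theorem t504_B07mm_202_s1 : ∃ t, chk3 f_B07mm_202_s1 t 60 73 5 = true := ex3_a t503_B07mm_202_s1 k360_B07mm_202_s1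

theorem t505_B07mm_202_s1 : ∃ t, chk3 f_B07mm_202_s1 t 30 73 5 = true := ex3_a t504_B07mm_202_s1 k361_B07mm_202_s1

theorem t506_B07mm_202_s1 : ∃ t, chk3 f_B07mm_202_s1 t 15 73 5 = true := ex3_a t505_B07mm_202_s1 k362_B07mm_202_s1

theorem t507_B07mm_202_s1 : ∃ t, chk3 f_B07mm_202_s1 t 241 147 4 = true := ex3_c k350_B07mm_202_s1 k351_B07mm_202_s1

theorem t508_B07mm_202_s1 : ∃ t, chk3 f_B07mm_202_s1 t 120 147 4 = true := ex3_a k349_B07mm_202_s1 t507_B07mm_202_s1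

theorem t509_B07mm_202_s1 : ∃ t, chk3 f_B07mm_202_s1 t 483 293 4 = true := ex3_c k347_B07mm_202_s1 k348_B07mm_202_s1

theorem t510_B07mm_202_s1 : ∃ t, chk3 f_B07mm_202_s1 t 241 293 4 = true := ex3_a k346_B07mm_202_s1 t509_B07mm_202_s1

theorem t511_B07mm_202_s1 : ∃ t, chk3 f_B07mm_202_s1 t 241 146 4 = true := ex3_b k345_B07mm_202_s1 t510_B07mm_202_s1

theorem t512_B07mm_202_s1 : ∃ t, chk3 f_B07mm_202_s1 t 120 146 4 = true := ex3_a k344_B07mm_202_s1 t511_B07mm_202_s1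

theorem t513_B07mm_202_s1 : ∃ t, chk3 f_B07mm_202_s1 t 120 73 4 = true := ex3_b t512_B07mm_202_s1 t508_B07mm_202_s1

theorem t514_B07mm_202_s1 : ∃ t, chk3 f_B07mm_202_s1 t 60 73 4 = true := ex3_a t513_B07mm_202_s1 k352_B07mm_202_s1

theorem t515_B07mm_202_s1 : ∃ t, chk3 f_B07mm_202_s1 t 30 73 4 = true := ex3_a t514_B07mm_202_s1 k353_B07mm_202_s1

theorem t516_B07mm_202_s1 : ∃ t, chk3 f_B07mm_202_s1 t 15 73 4 = true := ex3_a t515_B07mm_202_s1 k354_B07mm_202_s1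

theorem t517_B07mm_202_s1 : ∃ t, chk3 f_B07mm_202_s1 t 15 73 2 = true := ex3_c t516_B07mm_202_s1 t506_B07mm_202_s1

theorem t518_B07mm_202_s1 : ∃ t, chk3 f_B07mm_202_s1 t 243 144 5 = true := ex3_b k339_B07mm_202_s1 k340_B07mm_202_s1

theorem t519_B07mm_202_s1 : ∃ t, chk3 f_B07mm_202_s1 t 243 72 5 = true := ex3_b t518_B07mm_202_s1 k341_B07mm_202_s1

theorem t520_B07mm_202_s1 : ∃ t, chk3 f_B07mm_202_s1 t 485 145 5 = true := ex3_b k337_B07mm_202_s1 k338_B07mm_202_s1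

theorem t521_B07mm_202_s1 : ∃ t, chk3 f_B07mm_202_s1 t 242 145 5 = true := ex3_a k336_B07mm_202_s1 t520_B07mm_202_s1

theorem t522_B07mm_202_s1 : ∃ t, chk3 f_B07mm_202_s1 t 242 72 5 = true := ex3_b k335_B07mm_202_s1 t521_B07mm_202_s1

theorem t523_B07mm_202_s1 : ∃ t, chk3 f_B07mm_202_s1 t 121 72 5 = true := ex3_a t522_B07mm_202_s1 t519_B07mm_202_s1

theorem t524_B07mm_202_s1 : ∃ t, chk3 f_B07mm_202_s1 t 60 72 5 = true := ex3_a k334_B07mm_202_s1 t523_B07mm_202_s1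

theorem t525_B07mm_202_s1 : ∃ t, chk3 f_B07mm_202_s1 t 30 72 5 = true := ex3_a t524_B07mm_202_s1 k342_B07mm_202_s1

theorem t526_B07mm_202_s1 : ∃ t, chk3 f_B07mm_202_s1 t 15 72 5 = true := ex3_a t525_B07mm_202_s1 k343_B07mm_202_s1

theorem t527_B07mm_202_s1 : ∃ t, chk3 f_B07mm_202_s1 t 243 144 9 = true := ex3_a k329_B07mm_202_s1 k330_B07mm_202_s1

theorem t528_B07mm_202_s1 : ∃ t, chk3 f_B07mm_202_s1 t 243 72 9 = true := ex3_b t527_B07mm_202_s1 k331_B07mm_202_s1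

theorem t529_B07mm_202_s1 : ∃ t, chk3 f_B07mm_202_s1 t 243 72 4 = true := ex3_c k328_B07mm_202_s1 t528_B07mm_202_s1

theorem t530_B07mm_202_s1 : ∃ t, chk3 f_B07mm_202_s1 t 485 145 4 = true := ex3_c k326_B07mm_202_s1 k327_B07mm_202_s1

theorem t531_B07mm_202_s1 : ∃ t, chk3 f_B07mm_202_s1 t 242 145 4 = true := ex3_a k325_B07mm_202_s1 t530_B07mm_202_s1

theorem t532_B07mm_202_s1 : ∃ t, chk3 f_B07mm_202_s1 t 242 72 4 = true := ex3_b k324_B07mm_202_s1 t531_B07mm_202_s1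

theorem t533_B07mm_202_s1 : ∃ t, chk3 f_B07mm_202_s1 t 121 72 4 = true := ex3_a t532_B07mm_202_s1 t529_B07mm_202_s1

theorem t534_B07mm_202_s1 : ∃ t, chk3 f_B07mm_202_s1 t 60 72 4 = true := ex3_a k323_B07mm_202_s1 t533_B07mm_202_s1

theorem t535_B07mm_202_s1 : ∃ t, chk3 f_B07mm_202_s1 t 30 72 4 = true := ex3_a t534_B07mm_202_s1 k332_B07mm_202_s1

theorem t536_B07mm_202_s1 : ∃ t, chk3 f_B07mm_202_s1 t 15 72 4 = true := ex3_a t535_B07mm_202_s1 k333_B07mm_202_s1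

theorem t537_B07mm_202_s1 : ∃ t, chk3 f_B07mm_202_s1 t 15 72 2 = true := ex3_c t536_B07mm_202_s1 t526_B07mm_202_s1

theorem t538_B07mm_202_s1 : ∃ t, chk3 f_B07mm_202_s1 t 15 36 2 = true := ex3_b t537_B07mm_202_s1 t517_B07mm_202_s1

theorem t539_B07mm_202_s1 : ∃ t, chk3 f_B07mm_202_s1 t 15 18 2 = true := ex3_b t538_B07mm_202_s1 t499_B07mm_202_s1

theorem t540_B07mm_202_s1 : ∃ t, chk3 f_B07mm_202_s1 t 15 18 1 = true := ex3_c t539_B07mm_202_s1 t494_B07mm_202_s1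

theorem t541_B07mm_202_s1 : ∃ t, chk3 f_B07mm_202_s1 t 119 37 3 = true := ex3_b k321_B07mm_202_s1 k322_B07mm_202_s1

theorem t542_B07mm_202_s1 : ∃ t, chk3 f_B07mm_202_s1 t 59 37 3 = true := ex3_a k320_B07mm_202_s1 t541_B07mm_202_s1

theorem t543_B07mm_202_s1 : ∃ t, chk3 f_B07mm_202_s1 t 238 75 5 = true := ex3_b k317_B07mm_202_s1 k318_B07mm_202_s1

theorem t544_B07mm_202_s1 : ∃ t, chk3 f_B07mm_202_s1 t 119 75 5 = true := ex3_a t543_B07mm_202_s1 k319_B07mm_202_s1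

theorem t545_B07mm_202_s1 : ∃ t, chk3 f_B07mm_202_s1 t 119 75 9 = true := ex3_a k315_B07mm_202_s1 k316_B07mm_202_s1

theorem t546_B07mm_202_s1 : ∃ t, chk3 f_B07mm_202_s1 t 238 75 8 = true := ex3_b k312_B07mm_202_s1 k313_B07mm_202_s1

theorem t547_B07mm_202_s1 : ∃ t, chk3 f_B07mm_202_s1 t 119 75 8 = true := ex3_a t546_B07mm_202_s1 k314_B07mm_202_s1

theorem t548_B07mm_202_s1 : ∃ t, chk3 f_B07mm_202_s1 t 119 75 4 = true := ex3_c t547_B07mm_202_s1 t545_B07mm_202_s1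

theorem t549_B07mm_202_s1 : ∃ t, chk3 f_B07mm_202_s1 t 119 75 2 = true := ex3_c t548_B07mm_202_s1 t544_B07mm_202_s1

theorem t550_B07mm_202_s1 : ∃ t, chk3 f_B07mm_202_s1 t 118 75 2 = true := ex3_c k310_B07mm_202_s1 k311_B07mm_202_s1

theorem t551_B07mm_202_s1 : ∃ t, chk3 f_B07mm_202_s1 t 59 75 2 = true := ex3_a t550_B07mm_202_s1 t549_B07mm_202_s1

theorem t552_B07mm_202_s1 : ∃ t, chk3 f_B07mm_202_s1 t 239 149 4 = true := ex3_a k307_B07mm_202_s1 k308_B07mm_202_s1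

theorem t553_B07mm_202_s1 : ∃ t, chk3 f_B07mm_202_s1 t 239 74 4 = true := ex3_b k306_B07mm_202_s1 t552_B07mm_202_s1

theorem t554_B07mm_202_s1 : ∃ t, chk3 f_B07mm_202_s1 t 119 74 4 = true := ex3_a k305_B07mm_202_s1 t553_B07mm_202_s1

theorem t555_B07mm_202_s1 : ∃ t, chk3 f_B07mm_202_s1 t 59 74 4 = true := ex3_a k304_B07mm_202_s1 t554_B07mm_202_s1

theorem t556_B07mm_202_s1 : ∃ t, chk3 f_B07mm_202_s1 t 59 74 2 = true := ex3_c t555_B07mm_202_s1 k309_B07mm_202_s1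

theorem t557_B07mm_202_s1 : ∃ t, chk3 f_B07mm_202_s1 t 59 37 2 = true := ex3_b t556_B07mm_202_s1 t551_B07mm_202_s1

theorem t558_B07mm_202_s1 : ∃ t, chk3 f_B07mm_202_s1 t 59 37 1 = true := ex3_c t557_B07mm_202_s1 t542_B07mm_202_s1

theorem t559_B07mm_202_s1 : ∃ t, chk3 f_B07mm_202_s1 t 29 37 1 = true := ex3_a k303_B07mm_202_s1 t558_B07mm_202_s1

theorem t560_B07mm_202_s1 : ∃ t, chk3 f_B07mm_202_s1 t 14 37 1 = true := ex3_a k302_B07mm_202_s1 t559_B07mm_202_s1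

theorem t561_B07mm_202_s1 : ∃ t, chk3 f_B07mm_202_s1 t 29 36 1 = true := ex3_b k300_B07mm_202_s1 k301_B07mm_202_s1

theorem t562_B07mm_202_s1 : ∃ t, chk3 f_B07mm_202_s1 t 14 36 1 = true := ex3_a k299_B07mm_202_s1 t561_B07mm_202_s1

theorem t563_B07mm_202_s1 : ∃ t, chk3 f_B07mm_202_s1 t 14 18 1 = true := ex3_b t562_B07mm_202_s1 t560_B07mm_202_s1

theorem t564_B07mm_202_s1 : ∃ t, chk3 f_B07mm_202_s1 t 7 18 1 = true := ex3_a t563_B07mm_202_s1 t540_B07mm_202_s1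

theorem t565_B07mm_202_s1 : ∃ t, chk3 f_B07mm_202_s1 t 7 9 1 = true := ex3_b t564_B07mm_202_s1 t484_B07mm_202_s1

theorem t566_B07mm_202_s1 : ∃ t, chk3 f_B07mm_202_s1 t 3 9 1 = true := ex3_a k298_B07mm_202_s1 t565_B07mm_202_s1

theorem t567_B07mm_202_s1 : ∃ t, chk3 f_B07mm_202_s1 t 244 71 3 = true := ex3_b k293_B07mm_202_s1 k294_B07mm_202_s1

theorem t568_B07mm_202_s1 : ∃ t, chk3 f_B07mm_202_s1 t 122 71 3 = true := ex3_a t567_B07mm_202_s1 k295_B07mm_202_s1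

theorem t569_B07mm_202_s1 : ∃ t, chk3 f_B07mm_202_s1 t 61 71 3 = true := ex3_a t568_B07mm_202_s1 k296_B07mm_202_s1

theorem t570_B07mm_202_s1 : ∃ t, chk3 f_B07mm_202_s1 t 30 71 3 = true := ex3_a k292_B07mm_202_s1 t569_B07mm_202_s1

theorem t571_B07mm_202_s1 : ∃ t, chk3 f_B07mm_202_s1 t 493 140 3 = true := ex3_c k288_B07mm_202_s1 k289_B07mm_202_s1

theorem t572_B07mm_202_s1 : ∃ t, chk3 f_B07mm_202_s1 t 492 140 3 = true := ex3_b k286_B07mm_202_s1 k287_B07mm_202_s1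

theorem t573_B07mm_202_s1 : ∃ t, chk3 f_B07mm_202_s1 t 246 140 3 = true := ex3_a t572_B07mm_202_s1 t571_B07mm_202_s1

theorem t574_B07mm_202_s1 : ∃ t, chk3 f_B07mm_202_s1 t 246 70 3 = true := ex3_b t573_B07mm_202_s1 k290_B07mm_202_s1

theorem t575_B07mm_202_s1 : ∃ t, chk3 f_B07mm_202_s1 t 123 70 3 = true := ex3_a t574_B07mm_202_s1 k291_B07mm_202_s1

theorem t576_B07mm_202_s1 : ∃ t, chk3 f_B07mm_202_s1 t 245 141 3 = true := ex3_b k284_B07mm_202_s1 k285_B07mm_202_s1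

theorem t577_B07mm_202_s1 : ∃ t, chk3 f_B07mm_202_s1 t 245 70 3 = true := ex3_b k283_B07mm_202_s1 t576_B07mm_202_s1

theorem t578_B07mm_202_s1 : ∃ t, chk3 f_B07mm_202_s1 t 122 70 3 = true := ex3_a k282_B07mm_202_s1 t577_B07mm_202_s1

theorem t579_B07mm_202_s1 : ∃ t, chk3 f_B07mm_202_s1 t 61 70 3 = true := ex3_a t578_B07mm_202_s1 t575_B07mm_202_s1

theorem t580_B07mm_202_s1 : ∃ t, chk3 f_B07mm_202_s1 t 30 70 3 = true := ex3_a k281_B07mm_202_s1 t579_B07mm_202_s1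

theorem t581_B07mm_202_s1 : ∃ t, chk3 f_B07mm_202_s1 t 30 35 3 = true := ex3_b t580_B07mm_202_s1 t570_B07mm_202_s1

theorem t582_B07mm_202_s1 : ∃ t, chk3 f_B07mm_202_s1 t 494 279 3 = true := ex3_c k278_B07mm_202_s1 k279_B07mm_202_s1

theorem t583_B07mm_202_s1 : ∃ t, chk3 f_B07mm_202_s1 t 494 139 3 = true := ex3_b k277_B07mm_202_s1 t582_B07mm_202_s1

theorem t584_B07mm_202_s1 : ∃ t, chk3 f_B07mm_202_s1 t 247 139 3 = true := ex3_a t583_B07mm_202_s1 k280_B07mm_202_s1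

theorem t585_B07mm_202_s1 : ∃ t, chk3 f_B07mm_202_s1 t 247 138 3 = true := ex3_c k275_B07mm_202_s1 k276_B07mm_202_s1

theorem t586_B07mm_202_s1 : ∃ t, chk3 f_B07mm_202_s1 t 247 69 3 = true := ex3_b t585_B07mm_202_s1 t584_B07mm_202_s1

theorem t587_B07mm_202_s1 : ∃ t, chk3 f_B07mm_202_s1 t 123 69 3 = true := ex3_a k274_B07mm_202_s1 t586_B07mm_202_s1

theorem t588_B07mm_202_s1 : ∃ t, chk3 f_B07mm_202_s1 t 61 69 3 = true := ex3_a k273_B07mm_202_s1 t587_B07mm_202_s1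

theorem t589_B07mm_202_s1 : ∃ t, chk3 f_B07mm_202_s1 t 61 34 3 = true := ex3_b k272_B07mm_202_s1 t588_B07mm_202_s1

theorem t590_B07mm_202_s1 : ∃ t, chk3 f_B07mm_202_s1 t 30 34 3 = true := ex3_a k271_B07mm_202_s1 t589_B07mm_202_s1

theorem t591_B07mm_202_s1 : ∃ t, chk3 f_B07mm_202_s1 t 30 17 3 = true := ex3_b t590_B07mm_202_s1 t581_B07mm_202_s1

theorem t592_B07mm_202_s1 : ∃ t, chk3 f_B07mm_202_s1 t 15 17 3 = true := ex3_a t591_B07mm_202_s1 k297_B07mm_202_s1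

theorem t593_B07mm_202_s1 : ∃ t, chk3 f_B07mm_202_s1 t 7 17 3 = true := ex3_a k270_B07mm_202_s1 t592_B07mm_202_s1

theorem t594_B07mm_202_s1 : ∃ t, chk3 f_B07mm_202_s1 t 244 143 5 = true := ex3_c k265_B07mm_202_s1 k266_B07mm_202_s1

theorem t595_B07mm_202_s1 : ∃ t, chk3 f_B07mm_202_s1 t 244 142 5 = true := ex3_a k263_B07mm_202_s1 k264_B07mm_202_s1

theorem t596_B07mm_202_s1 : ∃ t, chk3 f_B07mm_202_s1 t 244 71 5 = true := ex3_b t595_B07mm_202_s1 t594_B07mm_202_s1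

theorem t597_B07mm_202_s1 : ∃ t, chk3 f_B07mm_202_s1 t 122 71 5 = true := ex3_a t596_B07mm_202_s1 k267_B07mm_202_s1

theorem t598_B07mm_202_s1 : ∃ t, chk3 f_B07mm_202_s1 t 61 71 5 = true := ex3_a t597_B07mm_202_s1 k268_B07mm_202_s1

theorem t599_B07mm_202_s1 : ∃ t, chk3 f_B07mm_202_s1 t 30 71 5 = true := ex3_a k262_B07mm_202_s1 t598_B07mm_202_s1

theorem t600_B07mm_202_s1 : ∃ t, chk3 f_B07mm_202_s1 t 493 140 5 = true := ex3_c k258_B07mm_202_s1 k259_B07mm_202_s1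

theorem t601_B07mm_202_s1 : ∃ t, chk3 f_B07mm_202_s1 t 492 281 5 = true := ex3_a k256_B07mm_202_s1 k257_B07mm_202_s1

theorem t602_B07mm_202_s1 : ∃ t, chk3 f_B07mm_202_s1 t 492 140 5 = true := ex3_b k255_B07mm_202_s1 t601_B07mm_202_s1

theorem t603_B07mm_202_s1 : ∃ t, chk3 f_B07mm_202_s1 t 246 140 5 = true := ex3_a t602_B07mm_202_s1 t600_B07mm_202_s1

theorem t604_B07mm_202_s1 : ∃ t, chk3 f_B07mm_202_s1 t 246 70 5 = true := ex3_b t603_B07mm_202_s1 k260_B07mm_202_s1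

theorem t605_B07mm_202_s1 : ∃ t, chk3 f_B07mm_202_s1 t 123 70 5 = true := ex3_a t604_B07mm_202_s1 k261_B07mm_202_s1

theorem t606_B07mm_202_s1 : ∃ t, chk3 f_B07mm_202_s1 t 491 141 5 = true := ex3_b k253_B07mm_202_s1 k254_B07mm_202_s1

theorem t607_B07mm_202_s1 : ∃ t, chk3 f_B07mm_202_s1 t 245 141 5 = true := ex3_a k252_B07mm_202_s1 t606_B07mm_202_s1

theorem t608_B07mm_202_s1 : ∃ t, chk3 f_B07mm_202_s1 t 122 141 5 = true := ex3_a k251_B07mm_202_s1 t607_B07mm_202_s1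

theorem t609_B07mm_202_s1 : ∃ t, chk3 f_B07mm_202_s1 t 122 70 5 = true := ex3_b k250_B07mm_202_s1 t608_B07mm_202_s1

theorem t610_B07mm_202_s1 : ∃ t, chk3 f_B07mm_202_s1 t 61 70 5 = true := ex3_a t609_B07mm_202_s1 t605_B07mm_202_s1

theorem t611_B07mm_202_s1 : ∃ t, chk3 f_B07mm_202_s1 t 30 70 5 = true := ex3_a k249_B07mm_202_s1 t610_B07mm_202_s1

theorem t612_B07mm_202_s1 : ∃ t, chk3 f_B07mm_202_s1 t 30 35 5 = true := ex3_b t611_B07mm_202_s1 t599_B07mm_202_s1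

theorem t613_B07mm_202_s1 : ∃ t, chk3 f_B07mm_202_s1 t 122 71 9 = true := ex3_a k246_B07mm_202_s1 k247_B07mm_202_s1

theorem t614_B07mm_202_s1 : ∃ t, chk3 f_B07mm_202_s1 t 61 71 9 = true := ex3_a t613_B07mm_202_s1 k248_B07mm_202_s1

theorem t615_B07mm_202_s1 : ∃ t, chk3 f_B07mm_202_s1 t 30 71 9 = true := ex3_a k245_B07mm_202_s1 t614_B07mm_202_s1

theorem t616_B07mm_202_s1 : ∃ t, chk3 f_B07mm_202_s1 t 244 143 8 = true := ex3_c k241_B07mm_202_s1 k242_B07mm_202_s1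

theorem t617_B07mm_202_s1 : ∃ t, chk3 f_B07mm_202_s1 t 122 143 8 = true := ex3_a t616_B07mm_202_s1 k243_B07mm_202_s1

theorem t618_B07mm_202_s1 : ∃ t, chk3 f_B07mm_202_s1 t 61 143 8 = true := ex3_a t617_B07mm_202_s1 k244_B07mm_202_s1

theorem t619_B07mm_202_s1 : ∃ t, chk3 f_B07mm_202_s1 t 243 287 32 = true := ex3_a k237_B07mm_202_s1 k238_B07mm_202_s1

theorem t620_B07mm_202_s1 : ∃ t, chk3 f_B07mm_202_s1 t 243 287 16 = true := ex3_c t619_B07mm_202_s1 k239_B07mm_202_s1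

theorem t621_B07mm_202_s1 : ∃ t, chk3 f_B07mm_202_s1 t 243 286 16 = true := ex3_c k235_B07mm_202_s1 k236_B07mm_202_s1

theorem t622_B07mm_202_s1 : ∃ t, chk3 f_B07mm_202_s1 t 243 143 16 = true := ex3_b t621_B07mm_202_s1 t620_B07mm_202_s1

theorem t623_B07mm_202_s1 : ∃ t, chk3 f_B07mm_202_s1 t 121 143 16 = true := ex3_a k234_B07mm_202_s1 t622_B07mm_202_s1

theorem t624_B07mm_202_s1 : ∃ t, chk3 f_B07mm_202_s1 t 121 143 8 = true := ex3_c t623_B07mm_202_s1 k240_B07mm_202_s1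

theorem t625_B07mm_202_s1 : ∃ t, chk3 f_B07mm_202_s1 t 60 143 8 = true := ex3_a k233_B07mm_202_s1 t624_B07mm_202_s1

theorem t626_B07mm_202_s1 : ∃ t, chk3 f_B07mm_202_s1 t 30 143 8 = true := ex3_a t625_B07mm_202_s1 t618_B07mm_202_s1

theorem t627_B07mm_202_s1 : ∃ t, chk3 f_B07mm_202_s1 t 488 285 34 = true := ex3_c k227_B07mm_202_s1 k228_B07mm_202_s1

theorem t628_B07mm_202_s1 : ∃ t, chk3 f_B07mm_202_s1 t 488 285 17 = true := ex3_c t627_B07mm_202_s1 k229_B07mm_202_s1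

theorem t629_B07mm_202_s1 : ∃ t, chk3 f_B07mm_202_s1 t 244 285 17 = true := ex3_a t628_B07mm_202_s1 k230_B07mm_202_s1

theorem t630_B07mm_202_s1 : ∃ t, chk3 f_B07mm_202_s1 t 244 284 70 = true := ex3_b k224_B07mm_202_s1 k225_B07mm_202_s1

theorem t631_B07mm_202_s1 : ∃ t, chk3 f_B07mm_202_s1 t 244 284 35 = true := ex3_c t630_B07mm_202_s1 k226_B07mm_202_s1

theorem t632_B07mm_202_s1 : ∃ t, chk3 f_B07mm_202_s1 t 244 284 34 = true := ex3_a k222_B07mm_202_s1 k223_B07mm_202_s1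

theorem t633_B07mm_202_s1 : ∃ t, chk3 f_B07mm_202_s1 t 244 284 17 = true := ex3_c t632_B07mm_202_s1 t631_B07mm_202_s1

theorem t634_B07mm_202_s1 : ∃ t, chk3 f_B07mm_202_s1 t 244 142 17 = true := ex3_b t633_B07mm_202_s1 t629_B07mm_202_s1

theorem t635_B07mm_202_s1 : ∃ t, chk3 f_B07mm_202_s1 t 122 142 17 = true := ex3_a t634_B07mm_202_s1 k231_B07mm_202_s1

theorem t636_B07mm_202_s1 : ∃ t, chk3 f_B07mm_202_s1 t 61 142 17 = true := ex3_a t635_B07mm_202_s1 k232_B07mm_202_s1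

theorem t637_B07mm_202_s1 : ∃ t, chk3 f_B07mm_202_s1 t 30 142 17 = true := ex3_a k221_B07mm_202_s1 t636_B07mm_202_s1

theorem t638_B07mm_202_s1 : ∃ t, chk3 f_B07mm_202_s1 t 244 142 16 = true := ex3_a k217_B07mm_202_s1 k218_B07mm_202_s1

theorem t639_B07mm_202_s1 : ∃ t, chk3 f_B07mm_202_s1 t 122 142 16 = true := ex3_a t638_B07mm_202_s1 k219_B07mm_202_s1

theorem t640_B07mm_202_s1 : ∃ t, chk3 f_B07mm_202_s1 t 61 142 16 = true := ex3_a t639_B07mm_202_s1 k220_B07mm_202_s1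

theorem t641_B07mm_202_s1 : ∃ t, chk3 f_B07mm_202_s1 t 121 142 16 = true := ex3_c k215_B07mm_202_s1 k216_B07mm_202_s1

theorem t642_B07mm_202_s1 : ∃ t, chk3 f_B07mm_202_s1 t 60 142 16 = true := ex3_a k214_B07mm_202_s1 t641_B07mm_202_s1

theorem t643_B07mm_202_s1 : ∃ t, chk3 f_B07mm_202_s1 t 30 142 16 = true := ex3_a t642_B07mm_202_s1 t640_B07mm_202_s1

theorem t644_B07mm_202_s1 : ∃ t, chk3 f_B07mm_202_s1 t 30 142 8 = true := ex3_c t643_B07mm_202_s1 t637_B07mm_202_s1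

theorem t645_B07mm_202_s1 : ∃ t, chk3 f_B07mm_202_s1 t 30 71 8 = true := ex3_b t644_B07mm_202_s1 t626_B07mm_202_s1

theorem t646_B07mm_202_s1 : ∃ t, chk3 f_B07mm_202_s1 t 30 71 4 = true := ex3_c t645_B07mm_202_s1 t615_B07mm_202_s1

theorem t647_B07mm_202_s1 : ∃ t, chk3 f_B07mm_202_s1 t 492 560 39 = true := ex3_c k207_B07mm_202_s1 k208_B07mm_202_s1

theorem t648_B07mm_202_s1 : ∃ t, chk3 f_B07mm_202_s1 t 492 280 39 = true := ex3_b t647_B07mm_202_s1 k209_B07mm_202_s1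

theorem t649_B07mm_202_s1 : ∃ t, chk3 f_B07mm_202_s1 t 492 140 39 = true := ex3_b t648_B07mm_202_s1 k210_B07mm_202_s1

theorem t650_B07mm_202_s1 : ∃ t, chk3 f_B07mm_202_s1 t 246 140 39 = true := ex3_a t649_B07mm_202_s1 k211_B07mm_202_s1

theorem t651_B07mm_202_s1 : ∃ t, chk3 f_B07mm_202_s1 t 492 281 38 = true := ex3_c k204_B07mm_202_s1 k205_B07mm_202_s1

theorem t652_B07mm_202_s1 : ∃ t, chk3 f_B07mm_202_s1 t 492 140 38 = true := ex3_b k203_B07mm_202_s1 t651_B07mm_202_s1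

theorem t653_B07mm_202_s1 : ∃ t, chk3 f_B07mm_202_s1 t 246 140 38 = true := ex3_a t652_B07mm_202_s1 k206_B07mm_202_s1

theorem t654_B07mm_202_s1 : ∃ t, chk3 f_B07mm_202_s1 t 246 140 19 = true := ex3_c t653_B07mm_202_s1 t650_B07mm_202_s1

theorem t655_B07mm_202_s1 : ∃ t, chk3 f_B07mm_202_s1 t 246 70 19 = true := ex3_b t654_B07mm_202_s1 k212_B07mm_202_s1

theorem t656_B07mm_202_s1 : ∃ t, chk3 f_B07mm_202_s1 t 123 70 19 = true := ex3_a t655_B07mm_202_s1 k213_B07mm_202_s1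

theorem t657_B07mm_202_s1 : ∃ t, chk3 f_B07mm_202_s1 t 245 281 38 = true := ex3_b k199_B07mm_202_s1 k200_B07mm_202_s1

theorem t658_B07mm_202_s1 : ∃ t, chk3 f_B07mm_202_s1 t 245 281 19 = true := ex3_c t657_B07mm_202_s1 k201_B07mm_202_s1

theorem t659_B07mm_202_s1 : ∃ t, chk3 f_B07mm_202_s1 t 245 140 19 = true := ex3_b k198_B07mm_202_s1 t658_B07mm_202_s1

theorem t660_B07mm_202_s1 : ∃ t, chk3 f_B07mm_202_s1 t 122 140 19 = true := ex3_a k197_B07mm_202_s1 t659_B07mm_202_s1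

theorem t661_B07mm_202_s1 : ∃ t, chk3 f_B07mm_202_s1 t 122 70 19 = true := ex3_b t660_B07mm_202_s1 k202_B07mm_202_s1

theorem t662_B07mm_202_s1 : ∃ t, chk3 f_B07mm_202_s1 t 61 70 19 = true := ex3_a t661_B07mm_202_s1 t656_B07mm_202_s1

theorem t663_B07mm_202_s1 : ∃ t, chk3 f_B07mm_202_s1 t 491 564 37 = true := ex3_c k192_B07mm_202_s1 k193_B07mm_202_s1

theorem t664_B07mm_202_s1 : ∃ t, chk3 f_B07mm_202_s1 t 491 282 37 = true := ex3_b t663_B07mm_202_s1 k194_B07mm_202_s1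

theorem t665_B07mm_202_s1 : ∃ t, chk3 f_B07mm_202_s1 t 245 282 37 = true := ex3_a k191_B07mm_202_s1 t664_B07mm_202_s1

theorem t666_B07mm_202_s1 : ∃ t, chk3 f_B07mm_202_s1 t 245 141 37 = true := ex3_b t665_B07mm_202_s1 k195_B07mm_202_s1

theorem t667_B07mm_202_s1 : ∃ t, chk3 f_B07mm_202_s1 t 122 141 37 = true := ex3_a k190_B07mm_202_s1 t666_B07mm_202_s1

theorem t668_B07mm_202_s1 : ∃ t, chk3 f_B07mm_202_s1 t 245 140 37 = true := ex3_a k188_B07mm_202_s1 k189_B07mm_202_s1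

theorem t669_B07mm_202_s1 : ∃ t, chk3 f_B07mm_202_s1 t 122 140 37 = true := ex3_a k187_B07mm_202_s1 t668_B07mm_202_s1

theorem t670_B07mm_202_s1 : ∃ t, chk3 f_B07mm_202_s1 t 122 70 37 = true := ex3_b t669_B07mm_202_s1 t667_B07mm_202_s1

theorem t671_B07mm_202_s1 : ∃ t, chk3 f_B07mm_202_s1 t 61 70 37 = true := ex3_a t670_B07mm_202_s1 k196_B07mm_202_s1

theorem t672_B07mm_202_s1 : ∃ t, chk3 f_B07mm_202_s1 t 492 140 36 = true := ex3_b k182_B07mm_202_s1 k183_B07mm_202_s1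

theorem t673_B07mm_202_s1 : ∃ t, chk3 f_B07mm_202_s1 t 246 140 36 = true := ex3_a t672_B07mm_202_s1 k184_B07mm_202_s1

theorem t674_B07mm_202_s1 : ∃ t, chk3 f_B07mm_202_s1 t 123 140 36 = true := ex3_a t673_B07mm_202_s1 k185_B07mm_202_s1

theorem t675_B07mm_202_s1 : ∃ t, chk3 f_B07mm_202_s1 t 123 70 36 = true := ex3_b t674_B07mm_202_s1 k186_B07mm_202_s1

theorem t676_B07mm_202_s1 : ∃ t, chk3 f_B07mm_202_s1 t 490 283 36 = true := ex3_b k179_B07mm_202_s1 k180_B07mm_202_s1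

theorem t677_B07mm_202_s1 : ∃ t, chk3 f_B07mm_202_s1 t 245 283 36 = true := ex3_a t676_B07mm_202_s1 k181_B07mm_202_s1

theorem t678_B07mm_202_s1 : ∃ t, chk3 f_B07mm_202_s1 t 245 282 36 = true := ex3_a k177_B07mm_202_s1 k178_B07mm_202_s1

theorem t679_B07mm_202_s1 : ∃ t, chk3 f_B07mm_202_s1 t 245 141 36 = true := ex3_b t678_B07mm_202_s1 t677_B07mm_202_s1

theorem t680_B07mm_202_s1 : ∃ t, chk3 f_B07mm_202_s1 t 122 141 36 = true := ex3_a k176_B07mm_202_s1 t679_B07mm_202_s1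

theorem t681_B07mm_202_s1 : ∃ t, chk3 f_B07mm_202_s1 t 122 70 36 = true := ex3_b k175_B07mm_202_s1 t680_B07mm_202_s1

theorem t682_B07mm_202_s1 : ∃ t, chk3 f_B07mm_202_s1 t 61 70 36 = true := ex3_a t681_B07mm_202_s1 t675_B07mm_202_s1

theorem t683_B07mm_202_s1 : ∃ t, chk3 f_B07mm_202_s1 t 61 70 18 = true := ex3_c t682_B07mm_202_s1 t671_B07mm_202_s1

theorem t684_B07mm_202_s1 : ∃ t, chk3 f_B07mm_202_s1 t 61 70 9 = true := ex3_c t683_B07mm_202_s1 t662_B07mm_202_s1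

theorem t685_B07mm_202_s1 : ∃ t, chk3 f_B07mm_202_s1 t 492 561 35 = true := ex3_c k169_B07mm_202_s1 k170_B07mm_202_s1

theorem t686_B07mm_202_s1 : ∃ t, chk3 f_B07mm_202_s1 t 492 280 35 = true := ex3_b k168_B07mm_202_s1 t685_B07mm_202_s1

theorem t687_B07mm_202_s1 : ∃ t, chk3 f_B07mm_202_s1 t 492 140 35 = true := ex3_b t686_B07mm_202_s1 k171_B07mm_202_s1

theorem t688_B07mm_202_s1 : ∃ t, chk3 f_B07mm_202_s1 t 246 140 35 = true := ex3_a t687_B07mm_202_s1 k172_B07mm_202_s1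

theorem t689_B07mm_202_s1 : ∃ t, chk3 f_B07mm_202_s1 t 246 140 34 = true := ex3_a k166_B07mm_202_s1 k167_B07mm_202_s1

theorem t690_B07mm_202_s1 : ∃ t, chk3 f_B07mm_202_s1 t 246 140 17 = true := ex3_c t689_B07mm_202_s1 t688_B07mm_202_s1

theorem t691_B07mm_202_s1 : ∃ t, chk3 f_B07mm_202_s1 t 123 140 17 = true := ex3_a t690_B07mm_202_s1 k173_B07mm_202_s1

theorem t692_B07mm_202_s1 : ∃ t, chk3 f_B07mm_202_s1 t 123 70 17 = true := ex3_b t691_B07mm_202_s1 k174_B07mm_202_s1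

theorem t693_B07mm_202_s1 : ∃ t, chk3 f_B07mm_202_s1 t 245 141 17 = true := ex3_b k164_B07mm_202_s1 k165_B07mm_202_s1

theorem t694_B07mm_202_s1 : ∃ t, chk3 f_B07mm_202_s1 t 244 141 17 = true := ex3_c k162_B07mm_202_s1 k163_B07mm_202_s1

theorem t695_B07mm_202_s1 : ∃ t, chk3 f_B07mm_202_s1 t 122 141 17 = true := ex3_a t694_B07mm_202_s1 t693_B07mm_202_s1

theorem t696_B07mm_202_s1 : ∃ t, chk3 f_B07mm_202_s1 t 491 563 34 = true := ex3_c k159_B07mm_202_s1 k160_B07mm_202_s1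

theorem t697_B07mm_202_s1 : ∃ t, chk3 f_B07mm_202_s1 t 491 281 34 = true := ex3_b k158_B07mm_202_s1 t696_B07mm_202_s1

theorem t698_B07mm_202_s1 : ∃ t, chk3 f_B07mm_202_s1 t 491 281 17 = true := ex3_c t697_B07mm_202_s1 k161_B07mm_202_s1

theorem t699_B07mm_202_s1 : ∃ t, chk3 f_B07mm_202_s1 t 245 281 17 = true := ex3_a k157_B07mm_202_s1 t698_B07mm_202_s1

theorem t700_B07mm_202_s1 : ∃ t, chk3 f_B07mm_202_s1 t 245 280 17 = true := ex3_c k155_B07mm_202_s1 k156_B07mm_202_s1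

theorem t701_B07mm_202_s1 : ∃ t, chk3 f_B07mm_202_s1 t 245 140 17 = true := ex3_b t700_B07mm_202_s1 t699_B07mm_202_s1

theorem t702_B07mm_202_s1 : ∃ t, chk3 f_B07mm_202_s1 t 122 140 17 = true := ex3_a k154_B07mm_202_s1 t701_B07mm_202_s1

theorem t703_B07mm_202_s1 : ∃ t, chk3 f_B07mm_202_s1 t 122 70 17 = true := ex3_b t702_B07mm_202_s1 t695_B07mm_202_s1

theorem t704_B07mm_202_s1 : ∃ t, chk3 f_B07mm_202_s1 t 61 70 17 = true := ex3_a t703_B07mm_202_s1 t692_B07mm_202_s1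

theorem t705_B07mm_202_s1 : ∃ t, chk3 f_B07mm_202_s1 t 246 140 16 = true := ex3_a k150_B07mm_202_s1 k151_B07mm_202_s1

theorem t706_B07mm_202_s1 : ∃ t, chk3 f_B07mm_202_s1 t 246 70 16 = true := ex3_b t705_B07mm_202_s1 k152_B07mm_202_s1

theorem t707_B07mm_202_s1 : ∃ t, chk3 f_B07mm_202_s1 t 123 70 16 = true := ex3_a t706_B07mm_202_s1 k153_B07mm_202_s1

theorem t708_B07mm_202_s1 : ∃ t, chk3 f_B07mm_202_s1 t 490 283 32 = true := ex3_b k146_B07mm_202_s1 k147_B07mm_202_s1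

theorem t709_B07mm_202_s1 : ∃ t, chk3 f_B07mm_202_s1 t 245 283 32 = true := ex3_a t708_B07mm_202_s1 k148_B07mm_202_s1

theorem t710_B07mm_202_s1 : ∃ t, chk3 f_B07mm_202_s1 t 245 283 16 = true := ex3_c t709_B07mm_202_s1 k149_B07mm_202_s1

theorem t711_B07mm_202_s1 : ∃ t, chk3 f_B07mm_202_s1 t 491 282 33 = true := ex3_b k144_B07mm_202_s1 k145_B07mm_202_s1

theorem t712_B07mm_202_s1 : ∃ t, chk3 f_B07mm_202_s1 t 491 282 16 = true := ex3_c k143_B07mm_202_s1 t711_B07mm_202_s1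

theorem t713_B07mm_202_s1 : ∃ t, chk3 f_B07mm_202_s1 t 490 282 33 = true := ex3_b k141_B07mm_202_s1 k142_B07mm_202_s1

theorem t714_B07mm_202_s1 : ∃ t, chk3 f_B07mm_202_s1 t 490 282 16 = true := ex3_c k140_B07mm_202_s1 t713_B07mm_202_s1

theorem t715_B07mm_202_s1 : ∃ t, chk3 f_B07mm_202_s1 t 245 282 16 = true := ex3_a t714_B07mm_202_s1 t712_B07mm_202_s1

theorem t716_B07mm_202_s1 : ∃ t, chk3 f_B07mm_202_s1 t 245 141 16 = true := ex3_b t715_B07mm_202_s1 t710_B07mm_202_s1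

theorem t717_B07mm_202_s1 : ∃ t, chk3 f_B07mm_202_s1 t 244 141 16 = true := ex3_b k138_B07mm_202_s1 k139_B07mm_202_s1

theorem t718_B07mm_202_s1 : ∃ t, chk3 f_B07mm_202_s1 t 122 141 16 = true := ex3_a t717_B07mm_202_s1 t716_B07mm_202_s1

theorem t719_B07mm_202_s1 : ∃ t, chk3 f_B07mm_202_s1 t 122 140 16 = true := ex3_a k136_B07mm_202_s1 k137_B07mm_202_s1

theorem t720_B07mm_202_s1 : ∃ t, chk3 f_B07mm_202_s1 t 122 70 16 = true := ex3_b t719_B07mm_202_s1 t718_B07mm_202_s1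

theorem t721_B07mm_202_s1 : ∃ t, chk3 f_B07mm_202_s1 t 61 70 16 = true := ex3_a t720_B07mm_202_s1 t707_B07mm_202_s1

theorem t722_B07mm_202_s1 : ∃ t, chk3 f_B07mm_202_s1 t 61 70 8 = true := ex3_c t721_B07mm_202_s1 t704_B07mm_202_s1

theorem t723_B07mm_202_s1 : ∃ t, chk3 f_B07mm_202_s1 t 61 70 4 = true := ex3_c t722_B07mm_202_s1 t684_B07mm_202_s1

theorem t724_B07mm_202_s1 : ∃ t, chk3 f_B07mm_202_s1 t 60 70 9 = true := ex3_b k134_B07mm_202_s1 k135_B07mm_202_s1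

theorem t725_B07mm_202_s1 : ∃ t, chk3 f_B07mm_202_s1 t 60 141 8 = true := ex3_c k132_B07mm_202_s1 k133_B07mm_202_s1

theorem t726_B07mm_202_s1 : ∃ t, chk3 f_B07mm_202_s1 t 60 70 8 = true := ex3_b k131_B07mm_202_s1 t725_B07mm_202_s1

theorem t727_B07mm_202_s1 : ∃ t, chk3 f_B07mm_202_s1 t 60 70 4 = true := ex3_c t726_B07mm_202_s1 t724_B07mm_202_s1

theorem t728_B07mm_202_s1 : ∃ t, chk3 f_B07mm_202_s1 t 30 70 4 = true := ex3_a t727_B07mm_202_s1 t723_B07mm_202_s1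

theorem t729_B07mm_202_s1 : ∃ t, chk3 f_B07mm_202_s1 t 30 35 4 = true := ex3_b t728_B07mm_202_s1 t646_B07mm_202_s1

theorem t730_B07mm_202_s1 : ∃ t, chk3 f_B07mm_202_s1 t 30 35 2 = true := ex3_c t729_B07mm_202_s1 t612_B07mm_202_s1

theorem t731_B07mm_202_s1 : ∃ t, chk3 f_B07mm_202_s1 t 15 35 2 = true := ex3_a t730_B07mm_202_s1 k269_B07mm_202_s1

theorem t732_B07mm_202_s1 : ∃ t, chk3 f_B07mm_202_s1 t 494 139 11 = true := ex3_b k127_B07mm_202_s1 k128_B07mm_202_s1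

theorem t733_B07mm_202_s1 : ∃ t, chk3 f_B07mm_202_s1 t 247 139 11 = true := ex3_a t732_B07mm_202_s1 k129_B07mm_202_s1

theorem t734_B07mm_202_s1 : ∃ t, chk3 f_B07mm_202_s1 t 247 69 11 = true := ex3_b k126_B07mm_202_s1 t733_B07mm_202_s1

theorem t735_B07mm_202_s1 : ∃ t, chk3 f_B07mm_202_s1 t 123 69 11 = true := ex3_a k125_B07mm_202_s1 t734_B07mm_202_s1

theorem t736_B07mm_202_s1 : ∃ t, chk3 f_B07mm_202_s1 t 61 69 11 = true := ex3_a k124_B07mm_202_s1 t735_B07mm_202_s1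

theorem t737_B07mm_202_s1 : ∃ t, chk3 f_B07mm_202_s1 t 30 69 11 = true := ex3_a k123_B07mm_202_s1 t736_B07mm_202_s1

theorem t738_B07mm_202_s1 : ∃ t, chk3 f_B07mm_202_s1 t 30 34 11 = true := ex3_b k122_B07mm_202_s1 t737_B07mm_202_s1

theorem t739_B07mm_202_s1 : ∃ t, chk3 f_B07mm_202_s1 t 247 139 21 = true := ex3_a k120_B07mm_202_s1 k121_B07mm_202_s1

theorem t740_B07mm_202_s1 : ∃ t, chk3 f_B07mm_202_s1 t 123 139 21 = true := ex3_a k119_B07mm_202_s1 t739_B07mm_202_s1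

theorem t741_B07mm_202_s1 : ∃ t, chk3 f_B07mm_202_s1 t 493 558 40 = true := ex3_c k114_B07mm_202_s1 k115_B07mm_202_s1

theorem t742_B07mm_202_s1 : ∃ t, chk3 f_B07mm_202_s1 t 493 279 40 = true := ex3_b t741_B07mm_202_s1 k116_B07mm_202_s1

theorem t743_B07mm_202_s1 : ∃ t, chk3 f_B07mm_202_s1 t 246 279 40 = true := ex3_a k113_B07mm_202_s1 t742_B07mm_202_s1

theorem t744_B07mm_202_s1 : ∃ t, chk3 f_B07mm_202_s1 t 246 279 20 = true := ex3_c t743_B07mm_202_s1 k117_B07mm_202_s1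

theorem t745_B07mm_202_s1 : ∃ t, chk3 f_B07mm_202_s1 t 123 279 20 = true := ex3_a t744_B07mm_202_s1 k118_B07mm_202_s1

theorem t746_B07mm_202_s1 : ∃ t, chk3 f_B07mm_202_s1 t 494 556 83 = true := ex3_b k109_B07mm_202_s1 k110_B07mm_202_s1

theorem t747_B07mm_202_s1 : ∃ t, chk3 f_B07mm_202_s1 t 494 556 41 = true := ex3_c k108_B07mm_202_s1 t746_B07mm_202_s1

theorem t748_B07mm_202_s1 : ∃ t, chk3 f_B07mm_202_s1 t 494 278 41 = true := ex3_b t747_B07mm_202_s1 k111_B07mm_202_s1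

theorem t749_B07mm_202_s1 : ∃ t, chk3 f_B07mm_202_s1 t 247 278 41 = true := ex3_a t748_B07mm_202_s1 k112_B07mm_202_s1

theorem t750_B07mm_202_s1 : ∃ t, chk3 f_B07mm_202_s1 t 123 278 41 = true := ex3_a k107_B07mm_202_s1 t749_B07mm_202_s1

theorem t751_B07mm_202_s1 : ∃ t, chk3 f_B07mm_202_s1 t 246 278 40 = true := ex3_a k104_B07mm_202_s1 k105_B07mm_202_s1

theorem t752_B07mm_202_s1 : ∃ t, chk3 f_B07mm_202_s1 t 123 278 40 = true := ex3_a t751_B07mm_202_s1 k106_B07mm_202_s1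

theorem t753_B07mm_202_s1 : ∃ t, chk3 f_B07mm_202_s1 t 123 278 20 = true := ex3_c t752_B07mm_202_s1 t750_B07mm_202_s1

theorem t754_B07mm_202_s1 : ∃ t, chk3 f_B07mm_202_s1 t 123 139 20 = true := ex3_b t753_B07mm_202_s1 t745_B07mm_202_s1

theorem t755_B07mm_202_s1 : ∃ t, chk3 f_B07mm_202_s1 t 123 139 10 = true := ex3_c t754_B07mm_202_s1 t740_B07mm_202_s1

theorem t756_B07mm_202_s1 : ∃ t, chk3 f_B07mm_202_s1 t 495 277 42 = true := ex3_b k101_B07mm_202_s1 k102_B07mm_202_s1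

theorem t757_B07mm_202_s1 : ∃ t, chk3 f_B07mm_202_s1 t 494 277 42 = true := ex3_c k99_B07mm_202_s1 k100_B07mm_202_s1

theorem t758_B07mm_202_s1 : ∃ t, chk3 f_B07mm_202_s1 t 247 277 42 = true := ex3_a t757_B07mm_202_s1 t756_B07mm_202_s1

theorem t759_B07mm_202_s1 : ∃ t, chk3 f_B07mm_202_s1 t 247 277 21 = true := ex3_c t758_B07mm_202_s1 k103_B07mm_202_s1

theorem t760_B07mm_202_s1 : ∃ t, chk3 f_B07mm_202_s1 t 247 138 21 = true := ex3_b k98_B07mm_202_s1 t759_B07mm_202_s1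

theorem t761_B07mm_202_s1 : ∃ t, chk3 f_B07mm_202_s1 t 123 138 21 = true := ex3_a k97_B07mm_202_s1 t760_B07mm_202_s1

theorem t762_B07mm_202_s1 : ∃ t, chk3 f_B07mm_202_s1 t 494 277 41 = true := ex3_a k94_B07mm_202_s1 k95_B07mm_202_s1

theorem t763_B07mm_202_s1 : ∃ t, chk3 f_B07mm_202_s1 t 494 277 20 = true := ex3_c k93_B07mm_202_s1 t762_B07mm_202_s1

theorem t764_B07mm_202_s1 : ∃ t, chk3 f_B07mm_202_s1 t 247 277 20 = true := ex3_a t763_B07mm_202_s1 k96_B07mm_202_s1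

theorem t765_B07mm_202_s1 : ∃ t, chk3 f_B07mm_202_s1 t 247 138 20 = true := ex3_b k92_B07mm_202_s1 t764_B07mm_202_s1

theorem t766_B07mm_202_s1 : ∃ t, chk3 f_B07mm_202_s1 t 123 138 20 = true := ex3_a k91_B07mm_202_s1 t765_B07mm_202_s1

theorem t767_B07mm_202_s1 : ∃ t, chk3 f_B07mm_202_s1 t 123 138 10 = true := ex3_c t766_B07mm_202_s1 t761_B07mm_202_s1

theorem t768_B07mm_202_s1 : ∃ t, chk3 f_B07mm_202_s1 t 123 69 10 = true := ex3_b t767_B07mm_202_s1 t755_B07mm_202_s1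

theorem t769_B07mm_202_s1 : ∃ t, chk3 f_B07mm_202_s1 t 122 138 10 = true := ex3_c k88_B07mm_202_s1 k89_B07mm_202_s1

theorem t770_B07mm_202_s1 : ∃ t, chk3 f_B07mm_202_s1 t 122 69 10 = true := ex3_b t769_B07mm_202_s1 k90_B07mm_202_s1

theorem t771_B07mm_202_s1 : ∃ t, chk3 f_B07mm_202_s1 t 61 69 10 = true := ex3_a t770_B07mm_202_s1 t768_B07mm_202_s1

theorem t772_B07mm_202_s1 : ∃ t, chk3 f_B07mm_202_s1 t 30 69 10 = true := ex3_a k87_B07mm_202_s1 t771_B07mm_202_s1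

theorem t773_B07mm_202_s1 : ∃ t, chk3 f_B07mm_202_s1 t 61 137 10 = true := ex3_a k85_B07mm_202_s1 k86_B07mm_202_s1

theorem t774_B07mm_202_s1 : ∃ t, chk3 f_B07mm_202_s1 t 61 68 10 = true := ex3_b k84_B07mm_202_s1 t773_B07mm_202_s1

theorem t775_B07mm_202_s1 : ∃ t, chk3 f_B07mm_202_s1 t 30 68 10 = true := ex3_a k83_B07mm_202_s1 t774_B07mm_202_s1

theorem t776_B07mm_202_s1 : ∃ t, chk3 f_B07mm_202_s1 t 30 34 10 = true := ex3_b t775_B07mm_202_s1 t772_B07mm_202_s1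

theorem t777_B07mm_202_s1 : ∃ t, chk3 f_B07mm_202_s1 t 30 34 5 = true := ex3_c t776_B07mm_202_s1 t738_B07mm_202_s1

theorem t778_B07mm_202_s1 : ∃ t, chk3 f_B07mm_202_s1 t 15 34 5 = true := ex3_a t777_B07mm_202_s1 k130_B07mm_202_s1

theorem t779_B07mm_202_s1 : ∃ t, chk3 f_B07mm_202_s1 t 493 279 19 = true := ex3_c k79_B07mm_202_s1 k80_B07mm_202_s1

theorem t780_B07mm_202_s1 : ∃ t, chk3 f_B07mm_202_s1 t 246 279 19 = true := ex3_a k78_B07mm_202_s1 t779_B07mm_202_s1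

theorem t781_B07mm_202_s1 : ∃ t, chk3 f_B07mm_202_s1 t 123 279 19 = true := ex3_a t780_B07mm_202_s1 k81_B07mm_202_s1

theorem t782_B07mm_202_s1 : ∃ t, chk3 f_B07mm_202_s1 t 989 556 38 = true := ex3_c k73_B07mm_202_s1 k74_B07mm_202_s1

theorem t783_B07mm_202_s1 : ∃ t, chk3 f_B07mm_202_s1 t 494 556 38 = true := ex3_a k72_B07mm_202_s1 t782_B07mm_202_s1

theorem t784_B07mm_202_s1 : ∃ t, chk3 f_B07mm_202_s1 t 494 278 38 = true := ex3_b t783_B07mm_202_s1 k75_B07mm_202_s1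

theorem t785_B07mm_202_s1 : ∃ t, chk3 f_B07mm_202_s1 t 247 278 38 = true := ex3_a t784_B07mm_202_s1 k76_B07mm_202_s1

theorem t786_B07mm_202_s1 : ∃ t, chk3 f_B07mm_202_s1 t 123 278 38 = true := ex3_a k71_B07mm_202_s1 t785_B07mm_202_s1

theorem t787_B07mm_202_s1 : ∃ t, chk3 f_B07mm_202_s1 t 123 278 19 = true := ex3_c t786_B07mm_202_s1 k77_B07mm_202_s1

theorem t788_B07mm_202_s1 : ∃ t, chk3 f_B07mm_202_s1 t 123 139 19 = true := ex3_b t787_B07mm_202_s1 t781_B07mm_202_s1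

theorem t789_B07mm_202_s1 : ∃ t, chk3 f_B07mm_202_s1 t 493 558 74 = true := ex3_a k66_B07mm_202_s1 k67_B07mm_202_s1

theorem t790_B07mm_202_s1 : ∃ t, chk3 f_B07mm_202_s1 t 493 558 37 = true := ex3_c t789_B07mm_202_s1 k68_B07mm_202_s1

theorem t791_B07mm_202_s1 : ∃ t, chk3 f_B07mm_202_s1 t 493 279 37 = true := ex3_b t790_B07mm_202_s1 k69_B07mm_202_s1

theorem t792_B07mm_202_s1 : ∃ t, chk3 f_B07mm_202_s1 t 493 559 36 = true := ex3_a k64_B07mm_202_s1 k65_B07mm_202_s1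

theorem t793_B07mm_202_s1 : ∃ t, chk3 f_B07mm_202_s1 t 493 279 36 = true := ex3_b k63_B07mm_202_s1 t792_B07mm_202_s1

theorem t794_B07mm_202_s1 : ∃ t, chk3 f_B07mm_202_s1 t 493 279 18 = true := ex3_c t793_B07mm_202_s1 t791_B07mm_202_s1

theorem t795_B07mm_202_s1 : ∃ t, chk3 f_B07mm_202_s1 t 492 279 18 = true := ex3_c k61_B07mm_202_s1 k62_B07mm_202_s1

theorem t796_B07mm_202_s1 : ∃ t, chk3 f_B07mm_202_s1 t 246 279 18 = true := ex3_a t795_B07mm_202_s1 t794_B07mm_202_s1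

theorem t797_B07mm_202_s1 : ∃ t, chk3 f_B07mm_202_s1 t 123 279 18 = true := ex3_a t796_B07mm_202_s1 k70_B07mm_202_s1

theorem t798_B07mm_202_s1 : ∃ t, chk3 f_B07mm_202_s1 t 494 278 18 = true := ex3_a k58_B07mm_202_s1 k59_B07mm_202_s1

theorem t799_B07mm_202_s1 : ∃ t, chk3 f_B07mm_202_s1 t 247 278 18 = true := ex3_a t798_B07mm_202_s1 k60_B07mm_202_s1

theorem t800_B07mm_202_s1 : ∃ t, chk3 f_B07mm_202_s1 t 493 278 37 = true := ex3_b k56_B07mm_202_s1 k57_B07mm_202_s1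

theorem t801_B07mm_202_s1 : ∃ t, chk3 f_B07mm_202_s1 t 493 278 18 = true := ex3_c k55_B07mm_202_s1 t800_B07mm_202_s1

theorem t802_B07mm_202_s1 : ∃ t, chk3 f_B07mm_202_s1 t 246 278 18 = true := ex3_a k54_B07mm_202_s1 t801_B07mm_202_s1

theorem t803_B07mm_202_s1 : ∃ t, chk3 f_B07mm_202_s1 t 123 278 18 = true := ex3_a t802_B07mm_202_s1 t799_B07mm_202_s1

theorem t804_B07mm_202_s1 : ∃ t, chk3 f_B07mm_202_s1 t 123 139 18 = true := ex3_b t803_B07mm_202_s1 t797_B07mm_202_s1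

theorem t805_B07mm_202_s1 : ∃ t, chk3 f_B07mm_202_s1 t 123 139 9 = true := ex3_c t804_B07mm_202_s1 t788_B07mm_202_s1

theorem t806_B07mm_202_s1 : ∃ t, chk3 f_B07mm_202_s1 t 495 554 39 = true := ex3_b k51_B07mm_202_s1 k52_B07mm_202_s1

theorem t807_B07mm_202_s1 : ∃ t, chk3 f_B07mm_202_s1 t 495 277 39 = true := ex3_b t806_B07mm_202_s1 k53_B07mm_202_s1

theorem t808_B07mm_202_s1 : ∃ t, chk3 f_B07mm_202_s1 t 495 277 19 = true := ex3_c k50_B07mm_202_s1 t807_B07mm_202_s1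

theorem t809_B07mm_202_s1 : ∃ t, chk3 f_B07mm_202_s1 t 494 277 39 = true := ex3_b k48_B07mm_202_s1 k49_B07mm_202_s1

theorem t810_B07mm_202_s1 : ∃ t, chk3 f_B07mm_202_s1 t 494 277 77 = true := ex3_b k46_B07mm_202_s1 k47_B07mm_202_s1

theorem t811_B07mm_202_s1 : ∃ t, chk3 f_B07mm_202_s1 t 494 277 38 = true := ex3_c k45_B07mm_202_s1 t810_B07mm_202_s1

theorem t812_B07mm_202_s1 : ∃ t, chk3 f_B07mm_202_s1 t 494 277 19 = true := ex3_c t811_B07mm_202_s1 t809_B07mm_202_s1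

theorem t813_B07mm_202_s1 : ∃ t, chk3 f_B07mm_202_s1 t 247 277 19 = true := ex3_a t812_B07mm_202_s1 t808_B07mm_202_s1

theorem t814_B07mm_202_s1 : ∃ t, chk3 f_B07mm_202_s1 t 247 138 19 = true := ex3_b k44_B07mm_202_s1 t813_B07mm_202_s1

theorem t815_B07mm_202_s1 : ∃ t, chk3 f_B07mm_202_s1 t 247 138 9 = true := ex3_c k43_B07mm_202_s1 t814_B07mm_202_s1

theorem t816_B07mm_202_s1 : ∃ t, chk3 f_B07mm_202_s1 t 246 138 19 = true := ex3_c k41_B07mm_202_s1 k42_B07mm_202_s1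

theorem t817_B07mm_202_s1 : ∃ t, chk3 f_B07mm_202_s1 t 246 138 9 = true := ex3_c k40_B07mm_202_s1 t816_B07mm_202_s1

theorem t818_B07mm_202_s1 : ∃ t, chk3 f_B07mm_202_s1 t 123 138 9 = true := ex3_a t817_B07mm_202_s1 t815_B07mm_202_s1

theorem t819_B07mm_202_s1 : ∃ t, chk3 f_B07mm_202_s1 t 123 69 9 = true := ex3_b t818_B07mm_202_s1 t805_B07mm_202_s1

theorem t820_B07mm_202_s1 : ∃ t, chk3 f_B07mm_202_s1 t 122 139 18 = true := ex3_a k37_B07mm_202_s1 k38_B07mm_202_s1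

theorem t821_B07mm_202_s1 : ∃ t, chk3 f_B07mm_202_s1 t 122 139 9 = true := ex3_c t820_B07mm_202_s1 k39_B07mm_202_s1

theorem t822_B07mm_202_s1 : ∃ t, chk3 f_B07mm_202_s1 t 122 69 9 = true := ex3_b k36_B07mm_202_s1 t821_B07mm_202_s1

theorem t823_B07mm_202_s1 : ∃ t, chk3 f_B07mm_202_s1 t 61 69 9 = true := ex3_a t822_B07mm_202_s1 t819_B07mm_202_s1

theorem t824_B07mm_202_s1 : ∃ t, chk3 f_B07mm_202_s1 t 61 34 9 = true := ex3_b k35_B07mm_202_s1 t823_B07mm_202_s1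

theorem t825_B07mm_202_s1 : ∃ t, chk3 f_B07mm_202_s1 t 990 556 8 = true := ex3_a k30_B07mm_202_s1 k31_B07mm_202_s1

theorem t826_B07mm_202_s1 : ∃ t, chk3 f_B07mm_202_s1 t 495 556 8 = true := ex3_a t825_B07mm_202_s1 k32_B07mm_202_s1

theorem t827_B07mm_202_s1 : ∃ t, chk3 f_B07mm_202_s1 t 495 278 8 = true := ex3_b t826_B07mm_202_s1 k33_B07mm_202_s1

theorem t828_B07mm_202_s1 : ∃ t, chk3 f_B07mm_202_s1 t 495 139 8 = true := ex3_b t827_B07mm_202_s1 k34_B07mm_202_s1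

theorem t829_B07mm_202_s1 : ∃ t, chk3 f_B07mm_202_s1 t 988 279 8 = true := ex3_b k27_B07mm_202_s1 k28_B07mm_202_s1

theorem t830_B07mm_202_s1 : ∃ t, chk3 f_B07mm_202_s1 t 494 279 8 = true := ex3_a t829_B07mm_202_s1 k29_B07mm_202_s1

theorem t831_B07mm_202_s1 : ∃ t, chk3 f_B07mm_202_s1 t 989 557 8 = true := ex3_a k25_B07mm_202_s1 k26_B07mm_202_s1

theorem t832_B07mm_202_s1 : ∃ t, chk3 f_B07mm_202_s1 t 989 278 8 = true := ex3_b k24_B07mm_202_s1 t831_B07mm_202_s1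

theorem t833_B07mm_202_s1 : ∃ t, chk3 f_B07mm_202_s1 t 494 278 8 = true := ex3_a k23_B07mm_202_s1 t832_B07mm_202_s1

theorem t834_B07mm_202_s1 : ∃ t, chk3 f_B07mm_202_s1 t 494 139 8 = true := ex3_b t833_B07mm_202_s1 t830_B07mm_202_s1

theorem t835_B07mm_202_s1 : ∃ t, chk3 f_B07mm_202_s1 t 247 139 8 = true := ex3_a t834_B07mm_202_s1 t828_B07mm_202_s1

theorem t836_B07mm_202_s1 : ∃ t, chk3 f_B07mm_202_s1 t 495 277 8 = true := ex3_a k21_B07mm_202_s1 k22_B07mm_202_s1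

theorem t837_B07mm_202_s1 : ∃ t, chk3 f_B07mm_202_s1 t 495 138 8 = true := ex3_b k20_B07mm_202_s1 t836_B07mm_202_s1

theorem t838_B07mm_202_s1 : ∃ t, chk3 f_B07mm_202_s1 t 247 138 8 = true := ex3_a k19_B07mm_202_s1 t837_B07mm_202_s1

theorem t839_B07mm_202_s1 : ∃ t, chk3 f_B07mm_202_s1 t 247 69 8 = true := ex3_b t838_B07mm_202_s1 t835_B07mm_202_s1

theorem t840_B07mm_202_s1 : ∃ t, chk3 f_B07mm_202_s1 t 246 69 8 = true := ex3_b k17_B07mm_202_s1 k18_B07mm_202_s1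

theorem t841_B07mm_202_s1 : ∃ t, chk3 f_B07mm_202_s1 t 123 69 8 = true := ex3_a t840_B07mm_202_s1 t839_B07mm_202_s1

theorem t842_B07mm_202_s1 : ∃ t, chk3 f_B07mm_202_s1 t 123 34 8 = true := ex3_b k16_B07mm_202_s1 t841_B07mm_202_s1

theorem t843_B07mm_202_s1 : ∃ t, chk3 f_B07mm_202_s1 t 122 34 8 = true := ex3_a k14_B07mm_202_s1 k15_B07mm_202_s1

theorem t844_B07mm_202_s1 : ∃ t, chk3 f_B07mm_202_s1 t 61 34 8 = true := ex3_a t843_B07mm_202_s1 t842_B07mm_202_s1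

theorem t845_B07mm_202_s1 : ∃ t, chk3 f_B07mm_202_s1 t 61 34 4 = true := ex3_c t844_B07mm_202_s1 t824_B07mm_202_s1

theorem t846_B07mm_202_s1 : ∃ t, chk3 f_B07mm_202_s1 t 60 69 9 = true := ex3_b k12_B07mm_202_s1 k13_B07mm_202_s1

theorem t847_B07mm_202_s1 : ∃ t, chk3 f_B07mm_202_s1 t 60 34 9 = true := ex3_b k11_B07mm_202_s1 t846_B07mm_202_s1

theorem t848_B07mm_202_s1 : ∃ t, chk3 f_B07mm_202_s1 t 60 34 4 = true := ex3_c k10_B07mm_202_s1 t847_B07mm_202_s1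

theorem t849_B07mm_202_s1 : ∃ t, chk3 f_B07mm_202_s1 t 30 34 4 = true := ex3_a t848_B07mm_202_s1 t845_B07mm_202_s1

theorem t850_B07mm_202_s1 : ∃ t, chk3 f_B07mm_202_s1 t 15 34 4 = true := ex3_a t849_B07mm_202_s1 k82_B07mm_202_s1

theorem t851_B07mm_202_s1 : ∃ t, chk3 f_B07mm_202_s1 t 15 34 2 = true := ex3_c t850_B07mm_202_s1 t778_B07mm_202_s1

theorem t852_B07mm_202_s1 : ∃ t, chk3 f_B07mm_202_s1 t 15 17 2 = true := ex3_b t851_B07mm_202_s1 t731_B07mm_202_s1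

theorem t853_B07mm_202_s1 : ∃ t, chk3 f_B07mm_202_s1 t 59 35 2 = true := ex3_c k8_B07mm_202_s1 k9_B07mm_202_s1

theorem t854_B07mm_202_s1 : ∃ t, chk3 f_B07mm_202_s1 t 29 35 2 = true := ex3_a k7_B07mm_202_s1 t853_B07mm_202_s1

theorem t855_B07mm_202_s1 : ∃ t, chk3 f_B07mm_202_s1 t 14 35 2 = true := ex3_a k6_B07mm_202_s1 t854_B07mm_202_s1

theorem t856_B07mm_202_s1 : ∃ t, chk3 f_B07mm_202_s1 t 14 34 2 = true := ex3_b k4_B07mm_202_s1 k5_B07mm_202_s1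

theorem t857_B07mm_202_s1 : ∃ t, chk3 f_B07mm_202_s1 t 14 17 2 = true := ex3_b t856_B07mm_202_s1 t855_B07mm_202_s1

theorem t858_B07mm_202_s1 : ∃ t, chk3 f_B07mm_202_s1 t 7 17 2 = true := ex3_a t857_B07mm_202_s1 t852_B07mm_202_s1

theorem t859_B07mm_202_s1 : ∃ t, chk3 f_B07mm_202_s1 t 7 17 1 = true := ex3_c t858_B07mm_202_s1 t593_B07mm_202_s1

theorem t860_B07mm_202_s1 : ∃ t, chk3 f_B07mm_202_s1 t 7 16 1 = true := ex3_a k2_B07mm_202_s1 k3_B07mm_202_s1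

theorem t861_B07mm_202_s1 : ∃ t, chk3 f_B07mm_202_s1 t 7 8 1 = true := ex3_b t860_B07mm_202_s1 t859_B07mm_202_s1

theorem t862_B07mm_202_s1 : ∃ t, chk3 f_B07mm_202_s1 t 3 8 1 = true := ex3_a k1_B07mm_202_s1 t861_B07mm_202_s1

theorem t863_B07mm_202_s1 : ∃ t, chk3 f_B07mm_202_s1 t 3 4 1 = true := ex3_b t862_B07mm_202_s1 t566_B07mm_202_s1

theorem t864_B07mm_202_s1 : ∃ t, chk3 f_B07mm_202_s1 t 1 4 1 = true := ex3_a k0_B07mm_202_s1 t863_B07mm_202_s1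

theorem t865_B07mm_202_s1 : ∃ t, chk3 f_B07mm_202_s1 t 1 2 1 = true := ex3_b t864_B07mm_202_s1 t450_B07mm_202_s1

theorem t866_B07mm_202_s1 : ∃ t, chk3 f_B07mm_202_s1 t 1 1 1 = true := ex3_b t865_B07mm_202_s1 t434_B07mm_202_s1

theorem c_B07mm_202_s1 : CertNX 0 536870912 1073741824 536870912 1046898278 26843546 3 false false false .pp 2 0 2
    ndN0q2 ndN7q2 pcN0 cut_B07mm_202_s1 xt_B07mm_202_s1 :=
  certNX1 (N0 := 3) (fam := false) (s1 := false) (s2 := false) (a := 2) (b := 0) (c := 2) (cn := .pp) (n1 := ndN0q2) (n2 := ndN7q2) (pc := pcN0) (cut := cut_B07mm_202_s1) (xt := xt_B07mm_202_s1) (P1 := 0) (W1 := 536870912) (P2 := 1073741824) (W2 := 536870912) (P3 := 1046898278) (W3 := 26843546)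
    rfl (fun _ => rfl) t866_B07mm_202_s1

theorem s_B07mm_202_s1 {κ x : ℝ} (hκ : κ * h0 = kenE x) (hx : 39 / 40 ≤ x) (hx' : x < 1)
    (H : CutVB (VND 3 κ) (DD x) tKN tL pcN (Cut.of [[⟨0, 1, 0, 67108864⟩, ⟨1, 0, 0, 67108864⟩, ⟨2, 1, 0, 67108864⟩]]) 2 0 2 0 7 (sgb false) (sgb false) x) :
    AltVB (VND 3 κ) (DD x) tKN tL pcN [⟨3, 0, 0, 1140850688⟩] 2 0 2 0 7 (sgb false) (sgb false) x :=
  strip_altVBN (d := 1140850688) true rfl hκ (κ0 hκ hx) (x0 hx) hx' (covN02 hx hx') (covN72 hx hx') (x1 hx) (x2 hx') c_B07mm_202_s1 H ((ok hx hx').extBN (T := tt) (sideN hx hx') hκ (κ0 hκ hx) rfl rfl (.O 2 false) (.N 2 false) (Or.inl rfl))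

end Pool.Agent.Strip051.G.IE1.Tab.StN.C
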