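import Pool.Agent.Strip051.G.IE1.StNcD

/-! # Strips StNc16 (generated) -/

set_option linter.all false
set_option maxRecDepth 100000

namespace Pool.Agent.Strip051.G.IE1.Tab.StN.C

open Pool.Agent.Strip051.PB Pool.Agent.Strip051.PB.T
open Pool.Agent.StripNear Pool.Agent.Strip051.LC
open Pool.Agent.Strip051.G.IE1.Tab Pool.Agent.Strip051.G.IE1.Tab.St Pool.Agent.Strip051.G.IE1.Tab.StN

def k1257_B07pp_022_s1 : ∃ t, chk3 f_B07pp_022_s1 t 21453 15 1 = true :=
  ⟨(a (a (a (a (c (b (l 16563800) (l 16601264)) (c (l 16577504) (l 16574040))) (c (b (l 16563432) (l 16600824)) (c (l 16577088) (l 16573616)))) (a (a (c (b (l 16563104) (l 16600432)) (c (l 16576720) (l 16573240))) (c (b (l 16562824) (l 16600096)) (c (l 16576408) (l 16572920)))) (a (a (c (b (l 16562560) (l 16599784)) (c (l 16576112) (l 16572616))) (a (c (b (l 16562392) (l 16599584)) (c (l 16575920) (l 16572424))) (c (b (l 16562240) (l 16599400)) (c (l 16575752) (l 16572256))))) (a (a (a (c (b (l 16562104) (l 16599232)) (c (l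 16575592) (l 16572088))) (a (c (b (l 16562000) (l 16599112)) (c (l 16575472) (l 16571976))) (c (b (l 16561880) (l 16598968)) (c (l 16575344) (l 16571840))))) (a (a (a (c (b (l 16561840) (l 16598920)) (c (l 16575296) (l 16571792))) (a (c (b (l 16561816) (l 16598888)) (c (l 16575264) (l 16571760))) (c (b (l 16561792) (l 16598864)) (c (l 16575240) (l 16571736))))) (a (a (a (c (b (l 16561760) (l 16598816)) (c (l 16575200) (l 16571696))) (c (b (l 16561736) (l 16598792)) (c (l 16575176) (l 16571672)))) (a (c (b (l 16561736) (l 16598792)) (c (l 16575176) (l 16571672))) (c (b (l 16561736) (l 16598792)) (c (l 16575176) (l 16571672))))) (c (b (l 16561736) (l 16598792)) (c (l 16575176) (l 16571672))))) (c (b (l 16561736) (l 16598792)) (c (l 16575176) (l 16571672))))) (c (b (l 16561736) (l 16598792)) (c (l 16575184) (l 16571672))))))) (c (b (l 16561752) (l 16598808)) (c (l 16575192) (l 16571688)))) (c (b (l 16561800) (l 16598848)) (c (l 16575240) (l 16571728)))), by decide +kernel⟩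

def k1258_B07pp_022_s1 : ∃ t, chk3 f_B07pp_022_s1 t 10727 15 1 = true :=
  ⟨(c (b (l 16561944) (l 16598976)) (c (l 16575376) (l 16571872))), by decide +kernel⟩

def k1259_B07pp_022_s1 : ∃ t, chk3 f_B07pp_022_s1 t 1341 15 1 = true :=
  ⟨(a (a (c (b (l 16562304) (l 16599280)) (c (l 16575720) (l 16572224))) (a (c (b (l 16562664) (l 16599584)) (c (l 16576064) (l 16572568))) (a (c (b (l 16562840) (l 16599736)) (c (l 16576232) (l 16572744))) (c (b (l 16562960) (l 16599840)) (c (l 16576344) (l 16572856)))))) (c (b (l 16563496) (l 16600296)) (c (l 16576856) (l 16573376)))), by decide +kernel⟩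

def k1260_B07pp_022_s1 : ∃ t, chk3 f_B07pp_022_s1 t 671 15 1 = true :=
  ⟨(c (b (l 16565872) (l 16602328)) (c (l 16579104) (l 16575664))), by decide +kernel⟩

def k1261_B07pp_022_s1 : ∃ t, chk3 f_B07pp_022_s1 t 21 3 1 = true :=
  ⟨(a (b (l 6) (b (b (l 6) (c (l 16566320) (l 16558920))) (c (b (l 16513456) (l 16629088)) (c (l 16525024) (l 16605984))))) (b (l 6) (b (l 6) (l 6)))), by decide +kernel⟩

def k1262_B07pp_022_s1 : ∃ t, chk3 f_B07pp_022_s1 t 11 3 1 = true :=
  ⟨(l 6), by decide +kernel⟩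

def k1263_B07pp_022_s1 : ∃ t, chk3 f_B07pp_022_s1 t 3 1 1 = true :=
  ⟨(l 6), by decide +kernel⟩

end Pool.Agent.Strip051.G.IE1.Tab.StN.C
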