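import Pool.Agent.Strip051.G.IE1.StNc0
import Pool.Agent.Strip051.G.IE1.StNc1
import Pool.Agent.Strip051.G.IE1.StNc2
import Pool.Agent.Strip051.G.IE1.StNc3
import Pool.Agent.Strip051.G.IE1.StNc4
import Pool.Agent.Strip051.G.IE1.StNc5
import Pool.Agent.Strip051.G.IE1.StNc6
import Pool.Agent.Strip051.G.IE1.StNc7
import Pool.Agent.Strip051.G.IE1.StNc8
import Pool.Agent.Strip051.G.IE1.StNc9
import Pool.Agent.Strip051.G.IE1.StNc10
import Pool.Agent.Strip051.G.IE1.StNc11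
import Pool.Agent.Strip051.G.IE1.StNc12
import Pool.Agent.Strip051.G.IE1.StNc13
import Pool.Agent.Strip051.G.IE1.StNc14
import Pool.Agent.Strip051.G.IE1.StNc15
import Pool.Agent.Strip051.G.IE1.StNc16

/-! # Strips StNcZ (generated) -/

set_option linter.all false
set_option maxRecDepth 100000

namespace Pool.Agent.Strip051.G.IE1.Tab.StN.C

open Pool.Agent.Strip051.PB Pool.Agent.Strip051.PB.T
open Pool.Agent.StripNear Pool.Agent.Strip051.LC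
open Pool.Agent.Strip051.G.IE1.Tab Pool.Agent.Strip051.G.IE1.Tab.St Pool.Agent.Strip051.G.IE1.Tab.StN

theorem t1264_B07pp_022_s1 : ∃ t, chk3 f_B07pp_022_s1 t 10726 15 1 = true := ex3_a k1256_B07pp_022_s1 k1257_B07pp_022_s1

theorem t1265_B07pp_022_s1 : ∃ t, chk3 f_B07pp_022_s1 t 5363 15 1 = true := ex3_a t1264_B07pp_022_s1 k1258_B07pp_022_s1

theorem t1266_B07pp_022_s1 : ∃ t, chk3 f_B07pp_022_s1 t 2681 15 1 = true := ex3_a k1255_B07pp_022_s1 t1265_B07pp_022_s1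

theorem t1267_B07pp_022_s1 : ∃ t, chk3 f_B07pp_022_s1 t 1340 15 1 = true := ex3_a k1254_B07pp_022_s1 t1266_B07pp_022_s1

theorem t1268_B07pp_022_s1 : ∃ t, chk3 f_B07pp_022_s1 t 670 15 1 = true := ex3_a t1267_B07pp_022_s1 k1259_B07pp_022_s1

theorem t1269_B07pp_022_s1 : ∃ t, chk3 f_B07pp_022_s1 t 335 15 1 = true := ex3_a t1268_B07pp_022_s1 k1260_B07pp_022_s1

theorem t1270_B07pp_022_s1 : ∃ t, chk3 f_B07pp_022_s1 t 167 15 1 = true := ex3_a k1253_B07pp_022_s1 t1269_B07pp_022_s1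

theorem t1271_B07pp_022_s1 : ∃ t, chk3 f_B07pp_022_s1 t 83 15 1 = true := ex3_a k1252_B07pp_022_s1 t1270_B07pp_022_s1

theorem t1272_B07pp_022_s1 : ∃ t, chk3 f_B07pp_022_s1 t 83 7 1 = true := ex3_b k1251_B07pp_022_s1 t1271_B07pp_022_s1

theorem t1273_B07pp_022_s1 : ∃ t, chk3 f_B07pp_022_s1 t 41 7 1 = true := ex3_a k1250_B07pp_022_s1 t1272_B07pp_022_s1

theorem t1274_B07pp_022_s1 : ∃ t, chk3 f_B07pp_022_s1 t 41 3 1 = true := ex3_b k1249_B07pp_022_s1 t1273_B07pp_022_s1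

theorem t1275_B07pp_022_s1 : ∃ t, chk3 f_B07pp_022_s1 t 40 7 1 = true := ex3_c k1247_B07pp_022_s1 k1248_B07pp_022_s1

theorem t1276_B07pp_022_s1 : ∃ t, chk3 f_B07pp_022_s1 t 40 3 1 = true := ex3_b k1246_B07pp_022_s1 t1275_B07pp_022_s1

theorem t1277_B07pp_022_s1 : ∃ t, chk3 f_B07pp_022_s1 t 20 3 1 = true := ex3_a t1276_B07pp_022_s1 t1274_B07pp_022_s1

theorem t1278_B07pp_022_s1 : ∃ t, chk3 f_B07pp_022_s1 t 10 3 1 = true := ex3_a t1277_B07pp_022_s1 k1261_B07pp_022_s1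

theorem t1279_B07pp_022_s1 : ∃ t, chk3 f_B07pp_022_s1 t 5 3 1 = true := ex3_a t1278_B07pp_022_s1 k1262_B07pp_022_s1

theorem t1280_B07pp_022_s1 : ∃ t, chk3 f_B07pp_022_s1 t 5 1 1 = true := ex3_b k1245_B07pp_022_s1 t1279_B07pp_022_s1

theorem t1281_B07pp_022_s1 : ∃ t, chk3 f_B07pp_022_s1 t 39 6 1 = true := ex3_b k1242_B07pp_022_s1 k1243_B07pp_022_s1

theorem t1282_B07pp_022_s1 : ∃ t, chk3 f_B07pp_022_s1 t 38 13 1 = true := ex3_c k1240_B07pp_022_s1 k1241_B07pp_022_s1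

theorem t1283_B07pp_022_s1 : ∃ t, chk3 f_B07pp_022_s1 t 38 12 1 = true := ex3_a k1238_B07pp_022_s1 k1239_B07pp_022_s1

theorem t1284_B07pp_022_s1 : ∃ t, chk3 f_B07pp_022_s1 t 38 6 1 = true := ex3_b t1283_B07pp_022_s1 t1282_B07pp_022_s1

theorem t1285_B07pp_022_s1 : ∃ t, chk3 f_B07pp_022_s1 t 19 6 1 = true := ex3_a t1284_B07pp_022_s1 t1281_B07pp_022_s1

theorem t1286_B07pp_022_s1 : ∃ t, chk3 f_B07pp_022_s1 t 19 3 1 = true := ex3_b t1285_B07pp_022_s1 k1244_B07pp_022_s1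

theorem t1287_B07pp_022_s1 : ∃ t, chk3 f_B07pp_022_s1 t 37 12 2 = true := ex3_c k1233_B07pp_022_s1 k1234_B07pp_022_s1

theorem t1288_B07pp_022_s1 : ∃ t, chk3 f_B07pp_022_s1 t 37 6 2 = true := ex3_b t1287_B07pp_022_s1 k1235_B07pp_022_s1

theorem t1289_B07pp_022_s1 : ∃ t, chk3 f_B07pp_022_s1 t 37 3 2 = true := ex3_b t1288_B07pp_022_s1 k1236_B07pp_022_s1

theorem t1290_B07pp_022_s1 : ∃ t, chk3 f_B07pp_022_s1 t 37 3 1 = true := ex3_c t1289_B07pp_022_s1 k1237_B07pp_022_s1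

theorem t1291_B07pp_022_s1 : ∃ t, chk3 f_B07pp_022_s1 t 18 3 1 = true := ex3_a k1232_B07pp_022_s1 t1290_B07pp_022_s1

theorem t1292_B07pp_022_s1 : ∃ t, chk3 f_B07pp_022_s1 t 9 3 1 = true := ex3_a t1291_B07pp_022_s1 t1286_B07pp_022_s1

theorem t1293_B07pp_022_s1 : ∃ t, chk3 f_B07pp_022_s1 t 4 3 1 = true := ex3_a k1231_B07pp_022_s1 t1292_B07pp_022_s1

theorem t1294_B07pp_022_s1 : ∃ t, chk3 f_B07pp_022_s1 t 37 11 1 = true := ex3_b k1228_B07pp_022_s1 k1229_B07pp_022_s1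

theorem t1295_B07pp_022_s1 : ∃ t, chk3 f_B07pp_022_s1 t 36 11 3 = true := ex3_a k1226_B07pp_022_s1 k1227_B07pp_022_s1

theorem t1296_B07pp_022_s1 : ∃ t, chk3 f_B07pp_022_s1 t 73 11 2 = true := ex3_b k1224_B07pp_022_s1 k1225_B07pp_022_s1

theorem t1297_B07pp_022_s1 : ∃ t, chk3 f_B07pp_022_s1 t 72 22 2 = true := ex3_b k1221_B07pp_022_s1 k1222_B07pp_022_s1

theorem t1298_B07pp_022_s1 : ∃ t, chk3 f_B07pp_022_s1 t 72 11 2 = true := ex3_b t1297_B07pp_022_s1 k1223_B07pp_022_s1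

theorem t1299_B07pp_022_s1 : ∃ t, chk3 f_B07pp_022_s1 t 36 11 2 = true := ex3_a t1298_B07pp_022_s1 t1296_B07pp_022_s1

theorem t1300_B07pp_022_s1 : ∃ t, chk3 f_B07pp_022_s1 t 36 11 1 = true := ex3_c t1299_B07pp_022_s1 t1295_B07pp_022_s1

theorem t1301_B07pp_022_s1 : ∃ t, chk3 f_B07pp_022_s1 t 18 11 1 = true := ex3_a t1300_B07pp_022_s1 t1294_B07pp_022_s1

theorem t1302_B07pp_022_s1 : ∃ t, chk3 f_B07pp_022_s1 t 37 10 1 = true := ex3_b k1219_B07pp_022_s1 k1220_B07pp_022_s1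

theorem t1303_B07pp_022_s1 : ∃ t, chk3 f_B07pp_022_s1 t 36 21 1 = true := ex3_c k1217_B07pp_022_s1 k1218_B07pp_022_s1

theorem t1304_B07pp_022_s1 : ∃ t, chk3 f_B07pp_022_s1 t 36 20 1 = true := ex3_c k1215_B07pp_022_s1 k1216_B07pp_022_s1

theorem t1305_B07pp_022_s1 : ∃ t, chk3 f_B07pp_022_s1 t 36 10 1 = true := ex3_b t1304_B07pp_022_s1 t1303_B07pp_022_s1

theorem t1306_B07pp_022_s1 : ∃ t, chk3 f_B07pp_022_s1 t 18 10 1 = true := ex3_a t1305_B07pp_022_s1 t1302_B07pp_022_s1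

theorem t1307_B07pp_022_s1 : ∃ t, chk3 f_B07pp_022_s1 t 18 5 1 = true := ex3_b t1306_B07pp_022_s1 t1301_B07pp_022_s1

theorem t1308_B07pp_022_s1 : ∃ t, chk3 f_B07pp_022_s1 t 9 5 1 = true := ex3_a t1307_B07pp_022_s1 k1230_B07pp_022_s1

theorem t1309_B07pp_022_s1 : ∃ t, chk3 f_B07pp_022_s1 t 36 39 4 = true := ex3_a k1209_B07pp_022_s1 k1210_B07pp_022_s1

theorem t1310_B07pp_022_s1 : ∃ t, chk3 f_B07pp_022_s1 t 36 39 2 = true := ex3_c t1309_B07pp_022_s1 k1211_B07pp_022_s1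

theorem t1311_B07pp_022_s1 : ∃ t, chk3 f_B07pp_022_s1 t 36 38 5 = true := ex3_a k1207_B07pp_022_s1 k1208_B07pp_022_s1

theorem t1312_B07pp_022_s1 : ∃ t, chk3 f_B07pp_022_s1 t 36 38 2 = true := ex3_c k1206_B07pp_022_s1 t1311_B07pp_022_s1

theorem t1313_B07pp_022_s1 : ∃ t, chk3 f_B07pp_022_s1 t 36 19 2 = true := ex3_b t1312_B07pp_022_s1 t1310_B07pp_022_s1

theorem t1314_B07pp_022_s1 : ∃ t, chk3 f_B07pp_022_s1 t 36 19 1 = true := ex3_c t1313_B07pp_022_s1 k1212_B07pp_022_s1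

theorem t1315_B07pp_022_s1 : ∃ t, chk3 f_B07pp_022_s1 t 18 19 1 = true := ex3_a t1314_B07pp_022_s1 k1213_B07pp_022_s1

theorem t1316_B07pp_022_s1 : ∃ t, chk3 f_B07pp_022_s1 t 36 37 3 = true := ex3_c k1203_B07pp_022_s1 k1204_B07pp_022_s1

theorem t1317_B07pp_022_s1 : ∃ t, chk3 f_B07pp_022_s1 t 36 18 3 = true := ex3_b k1202_B07pp_022_s1 t1316_B07pp_022_s1

theorem t1318_B07pp_022_s1 : ∃ t, chk3 f_B07pp_022_s1 t 36 18 1 = true := ex3_c k1201_B07pp_022_s1 t1317_B07pp_022_s1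

theorem t1319_B07pp_022_s1 : ∃ t, chk3 f_B07pp_022_s1 t 18 18 1 = true := ex3_a t1318_B07pp_022_s1 k1205_B07pp_022_s1

theorem t1320_B07pp_022_s1 : ∃ t, chk3 f_B07pp_022_s1 t 18 9 1 = true := ex3_b t1319_B07pp_022_s1 t1315_B07pp_022_s1

theorem t1321_B07pp_022_s1 : ∃ t, chk3 f_B07pp_022_s1 t 9 9 1 = true := ex3_a t1320_B07pp_022_s1 k1214_B07pp_022_s1

theorem t1322_B07pp_022_s1 : ∃ t, chk3 f_B07pp_022_s1 t 9 4 1 = true := ex3_b k1200_B07pp_022_s1 t1321_B07pp_022_s1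

theorem t1323_B07pp_022_s1 : ∃ t, chk3 f_B07pp_022_s1 t 9 2 1 = true := ex3_b t1322_B07pp_022_s1 t1308_B07pp_022_s1

theorem t1324_B07pp_022_s1 : ∃ t, chk3 f_B07pp_022_s1 t 71 21 3 = true := ex3_b k1197_B07pp_022_s1 k1198_B07pp_022_s1

theorem t1325_B07pp_022_s1 : ∃ t, chk3 f_B07pp_022_s1 t 71 10 3 = true := ex3_b k1196_B07pp_022_s1 t1324_B07pp_022_s1

theorem t1326_B07pp_022_s1 : ∃ t, chk3 f_B07pp_022_s1 t 71 5 3 = true := ex3_b t1325_B07pp_022_s1 k1199_B07pp_022_s1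

theorem t1327_B07pp_022_s1 : ∃ t, chk3 f_B07pp_022_s1 t 70 42 3 = true := ex3_a k1192_B07pp_022_s1 k1193_B07pp_022_s1

theorem t1328_B07pp_022_s1 : ∃ t, chk3 f_B07pp_022_s1 t 70 21 3 = true := ex3_b t1327_B07pp_022_s1 k1194_B07pp_022_s1

theorem t1329_B07pp_022_s1 : ∃ t, chk3 f_B07pp_022_s1 t 70 20 3 = true := ex3_b k1190_B07pp_022_s1 k1191_B07pp_022_s1

theorem t1330_B07pp_022_s1 : ∃ t, chk3 f_B07pp_022_s1 t 70 10 3 = true := ex3_b t1329_B07pp_022_s1 t1328_B07pp_022_s1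

theorem t1331_B07pp_022_s1 : ∃ t, chk3 f_B07pp_022_s1 t 70 5 3 = true := ex3_b t1330_B07pp_022_s1 k1195_B07pp_022_s1

theorem t1332_B07pp_022_s1 : ∃ t, chk3 f_B07pp_022_s1 t 35 5 3 = true := ex3_a t1331_B07pp_022_s1 t1326_B07pp_022_s1

theorem t1333_B07pp_022_s1 : ∃ t, chk3 f_B07pp_022_s1 t 71 44 4 = true := ex3_a k1185_B07pp_022_s1 k1186_B07pp_022_s1

theorem t1334_B07pp_022_s1 : ∃ t, chk3 f_B07pp_022_s1 t 71 22 4 = true := ex3_b t1333_B07pp_022_s1 k1187_B07pp_022_s1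

theorem t1335_B07pp_022_s1 : ∃ t, chk3 f_B07pp_022_s1 t 71 22 2 = true := ex3_c t1334_B07pp_022_s1 k1188_B07pp_022_s1

theorem t1336_B07pp_022_s1 : ∃ t, chk3 f_B07pp_022_s1 t 71 11 2 = true := ex3_b t1335_B07pp_022_s1 k1189_B07pp_022_s1

theorem t1337_B07pp_022_s1 : ∃ t, chk3 f_B07pp_022_s1 t 142 43 4 = true := ex3_a k1181_B07pp_022_s1 k1182_B07pp_022_s1

theorem t1338_B07pp_022_s1 : ∃ t, chk3 f_B07pp_022_s1 t 142 43 2 = true := ex3_c t1337_B07pp_022_s1 k1183_B07pp_022_s1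

theorem t1339_B07pp_022_s1 : ∃ t, chk3 f_B07pp_022_s1 t 71 43 2 = true := ex3_a t1338_B07pp_022_s1 k1184_B07pp_022_s1

theorem t1340_B07pp_022_s1 : ∃ t, chk3 f_B07pp_022_s1 t 71 21 2 = true := ex3_b k1180_B07pp_022_s1 t1339_B07pp_022_s1

theorem t1341_B07pp_022_s1 : ∃ t, chk3 f_B07pp_022_s1 t 71 10 2 = true := ex3_b k1179_B07pp_022_s1 t1340_B07pp_022_s1

theorem t1342_B07pp_022_s1 : ∃ t, chk3 f_B07pp_022_s1 t 71 5 2 = true := ex3_b t1341_B07pp_022_s1 t1336_B07pp_022_s1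

theorem t1343_B07pp_022_s1 : ∃ t, chk3 f_B07pp_022_s1 t 283 85 4 = true := ex3_b k1174_B07pp_022_s1 k1175_B07pp_022_s1

theorem t1344_B07pp_022_s1 : ∃ t, chk3 f_B07pp_022_s1 t 282 85 4 = true := ex3_b k1172_B07pp_022_s1 k1173_B07pp_022_s1

theorem t1345_B07pp_022_s1 : ∃ t, chk3 f_B07pp_022_s1 t 141 85 4 = true := ex3_a t1344_B07pp_022_s1 t1343_B07pp_022_s1

theorem t1346_B07pp_022_s1 : ∃ t, chk3 f_B07pp_022_s1 t 141 85 2 = true := ex3_c t1345_B07pp_022_s1 k1176_B07pp_022_s1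

theorem t1347_B07pp_022_s1 : ∃ t, chk3 f_B07pp_022_s1 t 282 84 2 = true := ex3_c k1169_B07pp_022_s1 k1170_B07pp_022_s1

theorem t1348_B07pp_022_s1 : ∃ t, chk3 f_B07pp_022_s1 t 141 84 2 = true := ex3_a t1347_B07pp_022_s1 k1171_B07pp_022_s1

theorem t1349_B07pp_022_s1 : ∃ t, chk3 f_B07pp_022_s1 t 141 42 2 = true := ex3_b t1348_B07pp_022_s1 t1346_B07pp_022_s1

theorem t1350_B07pp_022_s1 : ∃ t, chk3 f_B07pp_022_s1 t 281 84 4 = true := ex3_b k1165_B07pp_022_s1 k1166_B07pp_022_s1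

theorem t1351_B07pp_022_s1 : ∃ t, chk3 f_B07pp_022_s1 t 140 84 4 = true := ex3_a k1164_B07pp_022_s1 t1350_B07pp_022_s1

theorem t1352_B07pp_022_s1 : ∃ t, chk3 f_B07pp_022_s1 t 140 42 4 = true := ex3_b t1351_B07pp_022_s1 k1167_B07pp_022_s1

theorem t1353_B07pp_022_s1 : ∃ t, chk3 f_B07pp_022_s1 t 140 42 2 = true := ex3_c t1352_B07pp_022_s1 k1168_B07pp_022_s1

theorem t1354_B07pp_022_s1 : ∃ t, chk3 f_B07pp_022_s1 t 70 42 2 = true := ex3_a t1353_B07pp_022_s1 t1349_B07pp_022_s1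

theorem t1355_B07pp_022_s1 : ∃ t, chk3 f_B07pp_022_s1 t 70 21 2 = true := ex3_b t1354_B07pp_022_s1 k1177_B07pp_022_s1

theorem t1356_B07pp_022_s1 : ∃ t, chk3 f_B07pp_022_s1 t 140 167 4 = true := ex3_a k1160_B07pp_022_s1 k1161_B07pp_022_s1

theorem t1357_B07pp_022_s1 : ∃ t, chk3 f_B07pp_022_s1 t 140 83 4 = true := ex3_b k1159_B07pp_022_s1 t1356_B07pp_022_s1

theorem t1358_B07pp_022_s1 : ∃ t, chk3 f_B07pp_022_s1 t 140 83 2 = true := ex3_c t1357_B07pp_022_s1 k1162_B07pp_022_s1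

theorem t1359_B07pp_022_s1 : ∃ t, chk3 f_B07pp_022_s1 t 140 41 2 = true := ex3_b k1158_B07pp_022_s1 t1358_B07pp_022_s1

theorem t1360_B07pp_022_s1 : ∃ t, chk3 f_B07pp_022_s1 t 70 41 2 = true := ex3_a t1359_B07pp_022_s1 k1163_B07pp_022_s1

theorem t1361_B07pp_022_s1 : ∃ t, chk3 f_B07pp_022_s1 t 70 20 2 = true := ex3_b k1157_B07pp_022_s1 t1360_B07pp_022_s1

theorem t1362_B07pp_022_s1 : ∃ t, chk3 f_B07pp_022_s1 t 70 10 2 = true := ex3_b t1361_B07pp_022_s1 t1355_B07pp_022_s1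

theorem t1363_B07pp_022_s1 : ∃ t, chk3 f_B07pp_022_s1 t 70 5 2 = true := ex3_b t1362_B07pp_022_s1 k1178_B07pp_022_s1

theorem t1364_B07pp_022_s1 : ∃ t, chk3 f_B07pp_022_s1 t 35 5 2 = true := ex3_a t1363_B07pp_022_s1 t1342_B07pp_022_s1

theorem t1365_B07pp_022_s1 : ∃ t, chk3 f_B07pp_022_s1 t 35 5 1 = true := ex3_c t1364_B07pp_022_s1 t1332_B07pp_022_s1

theorem t1366_B07pp_022_s1 : ∃ t, chk3 f_B07pp_022_s1 t 69 40 3 = true := ex3_a k1152_B07pp_022_s1 k1153_B07pp_022_s1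

theorem t1367_B07pp_022_s1 : ∃ t, chk3 f_B07pp_022_s1 t 69 20 3 = true := ex3_b t1366_B07pp_022_s1 k1154_B07pp_022_s1

theorem t1368_B07pp_022_s1 : ∃ t, chk3 f_B07pp_022_s1 t 69 10 3 = true := ex3_b t1367_B07pp_022_s1 k1155_B07pp_022_s1

theorem t1369_B07pp_022_s1 : ∃ t, chk3 f_B07pp_022_s1 t 69 5 3 = true := ex3_b t1368_B07pp_022_s1 k1156_B07pp_022_s1

theorem t1370_B07pp_022_s1 : ∃ t, chk3 f_B07pp_022_s1 t 34 5 3 = true := ex3_a k1151_B07pp_022_s1 t1369_B07pp_022_s1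

theorem t1371_B07pp_022_s1 : ∃ t, chk3 f_B07pp_022_s1 t 138 80 5 = true := ex3_a k1144_B07pp_022_s1 k1145_B07pp_022_s1

theorem t1372_B07pp_022_s1 : ∃ t, chk3 f_B07pp_022_s1 t 138 40 5 = true := ex3_b t1371_B07pp_022_s1 k1146_B07pp_022_s1

theorem t1373_B07pp_022_s1 : ∃ t, chk3 f_B07pp_022_s1 t 69 40 5 = true := ex3_a t1372_B07pp_022_s1 k1147_B07pp_022_s1

theorem t1374_B07pp_022_s1 : ∃ t, chk3 f_B07pp_022_s1 t 69 20 5 = true := ex3_b t1373_B07pp_022_s1 k1148_B07pp_022_s1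

theorem t1375_B07pp_022_s1 : ∃ t, chk3 f_B07pp_022_s1 t 69 10 5 = true := ex3_b t1374_B07pp_022_s1 k1149_B07pp_022_s1

theorem t1376_B07pp_022_s1 : ∃ t, chk3 f_B07pp_022_s1 t 279 82 4 = true := ex3_b k1140_B07pp_022_s1 k1141_B07pp_022_s1

theorem t1377_B07pp_022_s1 : ∃ t, chk3 f_B07pp_022_s1 t 139 82 4 = true := ex3_a k1139_B07pp_022_s1 t1376_B07pp_022_s1

theorem t1378_B07pp_022_s1 : ∃ t, chk3 f_B07pp_022_s1 t 139 41 4 = true := ex3_b t1377_B07pp_022_s1 k1142_B07pp_022_s1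

theorem t1379_B07pp_022_s1 : ∃ t, chk3 f_B07pp_022_s1 t 278 81 4 = true := ex3_a k1136_B07pp_022_s1 k1137_B07pp_022_s1

theorem t1380_B07pp_022_s1 : ∃ t, chk3 f_B07pp_022_s1 t 139 81 4 = true := ex3_a t1379_B07pp_022_s1 k1138_B07pp_022_s1

theorem t1381_B07pp_022_s1 : ∃ t, chk3 f_B07pp_022_s1 t 139 40 4 = true := ex3_b k1135_B07pp_022_s1 t1380_B07pp_022_s1

theorem t1382_B07pp_022_s1 : ∃ t, chk3 f_B07pp_022_s1 t 139 20 4 = true := ex3_b t1381_B07pp_022_s1 t1378_B07pp_022_s1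

theorem t1383_B07pp_022_s1 : ∃ t, chk3 f_B07pp_022_s1 t 138 40 9 = true := ex3_b k1132_B07pp_022_s1 k1133_B07pp_022_s1

theorem t1384_B07pp_022_s1 : ∃ t, chk3 f_B07pp_022_s1 t 138 80 8 = true := ex3_a k1129_B07pp_022_s1 k1130_B07pp_022_s1

theorem t1385_B07pp_022_s1 : ∃ t, chk3 f_B07pp_022_s1 t 138 40 8 = true := ex3_b t1384_B07pp_022_s1 k1131_B07pp_022_s1

theorem t1386_B07pp_022_s1 : ∃ t, chk3 f_B07pp_022_s1 t 138 40 4 = true := ex3_c t1385_B07pp_022_s1 t1383_B07pp_022_s1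

theorem t1387_B07pp_022_s1 : ∃ t, chk3 f_B07pp_022_s1 t 138 20 4 = true := ex3_b t1386_B07pp_022_s1 k1134_B07pp_022_s1

theorem t1388_B07pp_022_s1 : ∃ t, chk3 f_B07pp_022_s1 t 69 20 4 = true := ex3_a t1387_B07pp_022_s1 t1382_B07pp_022_s1

theorem t1389_B07pp_022_s1 : ∃ t, chk3 f_B07pp_022_s1 t 69 10 4 = true := ex3_b t1388_B07pp_022_s1 k1143_B07pp_022_s1

theorem t1390_B07pp_022_s1 : ∃ t, chk3 f_B07pp_022_s1 t 69 10 2 = true := ex3_c t1389_B07pp_022_s1 t1375_B07pp_022_s1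

theorem t1391_B07pp_022_s1 : ∃ t, chk3 f_B07pp_022_s1 t 69 5 2 = true := ex3_b t1390_B07pp_022_s1 k1150_B07pp_022_s1

theorem t1392_B07pp_022_s1 : ∃ t, chk3 f_B07pp_022_s1 t 34 5 2 = true := ex3_a k1128_B07pp_022_s1 t1391_B07pp_022_s1

theorem t1393_B07pp_022_s1 : ∃ t, chk3 f_B07pp_022_s1 t 34 5 1 = true := ex3_c t1392_B07pp_022_s1 t1370_B07pp_022_s1

theorem t1394_B07pp_022_s1 : ∃ t, chk3 f_B07pp_022_s1 t 17 5 1 = true := ex3_a t1393_B07pp_022_s1 t1365_B07pp_022_s1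

theorem t1395_B07pp_022_s1 : ∃ t, chk3 f_B07pp_022_s1 t 8 5 1 = true := ex3_a k1127_B07pp_022_s1 t1394_B07pp_022_s1

theorem t1396_B07pp_022_s1 : ∃ t, chk3 f_B07pp_022_s1 t 35 39 2 = true := ex3_a k1124_B07pp_022_s1 k1125_B07pp_022_s1

theorem t1397_B07pp_022_s1 : ∃ t, chk3 f_B07pp_022_s1 t 35 38 5 = true := ex3_a k1122_B07pp_022_s1 k1123_B07pp_022_s1

theorem t1398_B07pp_022_s1 : ∃ t, chk3 f_B07pp_022_s1 t 70 77 4 = true := ex3_c k1119_B07pp_022_s1 k1120_B07pp_022_s1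

theorem t1399_B07pp_022_s1 : ∃ t, chk3 f_B07pp_022_s1 t 70 38 4 = true := ex3_b k1118_B07pp_022_s1 t1398_B07pp_022_s1

theorem t1400_B07pp_022_s1 : ∃ t, chk3 f_B07pp_022_s1 t 35 38 4 = true := ex3_a t1399_B07pp_022_s1 k1121_B07pp_022_s1

theorem t1401_B07pp_022_s1 : ∃ t, chk3 f_B07pp_022_s1 t 35 38 2 = true := ex3_c t1400_B07pp_022_s1 t1397_B07pp_022_s1

theorem t1402_B07pp_022_s1 : ∃ t, chk3 f_B07pp_022_s1 t 35 19 2 = true := ex3_b t1401_B07pp_022_s1 t1396_B07pp_022_s1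

theorem t1403_B07pp_022_s1 : ∃ t, chk3 f_B07pp_022_s1 t 35 19 1 = true := ex3_c t1402_B07pp_022_s1 k1126_B07pp_022_s1

theorem t1404_B07pp_022_s1 : ∃ t, chk3 f_B07pp_022_s1 t 69 39 3 = true := ex3_a k1116_B07pp_022_s1 k1117_B07pp_022_s1

theorem t1405_B07pp_022_s1 : ∃ t, chk3 f_B07pp_022_s1 t 69 19 3 = true := ex3_b k1115_B07pp_022_s1 t1404_B07pp_022_s1

theorem t1406_B07pp_022_s1 : ∃ t, chk3 f_B07pp_022_s1 t 137 78 3 = true := ex3_c k1112_B07pp_022_s1 k1113_B07pp_022_s1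

theorem t1407_B07pp_022_s1 : ∃ t, chk3 f_B07pp_022_s1 t 68 78 3 = true := ex3_a k1111_B07pp_022_s1 t1406_B07pp_022_s1

theorem t1408_B07pp_022_s1 : ∃ t, chk3 f_B07pp_022_s1 t 68 39 3 = true := ex3_b t1407_B07pp_022_s1 k1114_B07pp_022_s1

theorem t1409_B07pp_022_s1 : ∃ t, chk3 f_B07pp_022_s1 t 273 77 6 = true := ex3_b k1107_B07pp_022_s1 k1108_B07pp_022_s1

theorem t1410_B07pp_022_s1 : ∃ t, chk3 f_B07pp_022_s1 t 136 77 6 = true := ex3_a k1106_B07pp_022_s1 t1409_B07pp_022_s1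

theorem t1411_B07pp_022_s1 : ∃ t, chk3 f_B07pp_022_s1 t 136 38 6 = true := ex3_b k1105_B07pp_022_s1 t1410_B07pp_022_s1

theorem t1412_B07pp_022_s1 : ∃ t, chk3 f_B07pp_022_s1 t 136 38 3 = true := ex3_c t1411_B07pp_022_s1 k1109_B07pp_022_s1

theorem t1413_B07pp_022_s1 : ∃ t, chk3 f_B07pp_022_s1 t 68 38 3 = true := ex3_a t1412_B07pp_022_s1 k1110_B07pp_022_s1

theorem t1414_B07pp_022_s1 : ∃ t, chk3 f_B07pp_022_s1 t 68 19 3 = true := ex3_b t1413_B07pp_022_s1 t1408_B07pp_022_s1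

theorem t1415_B07pp_022_s1 : ∃ t, chk3 f_B07pp_022_s1 t 34 19 3 = true := ex3_a t1414_B07pp_022_s1 t1405_B07pp_022_s1

theorem t1416_B07pp_022_s1 : ∃ t, chk3 f_B07pp_022_s1 t 276 79 2 = true := ex3_c k1101_B07pp_022_s1 k1102_B07pp_022_s1

theorem t1417_B07pp_022_s1 : ∃ t, chk3 f_B07pp_022_s1 t 138 79 2 = true := ex3_a t1416_B07pp_022_s1 k1103_B07pp_022_s1

theorem t1418_B07pp_022_s1 : ∃ t, chk3 f_B07pp_022_s1 t 69 79 2 = true := ex3_a t1417_B07pp_022_s1 k1104_B07pp_022_s1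

theorem t1419_B07pp_022_s1 : ∃ t, chk3 f_B07pp_022_s1 t 137 79 5 = true := ex3_b k1099_B07pp_022_s1 k1100_B07pp_022_s1

theorem t1420_B07pp_022_s1 : ∃ t, chk3 f_B07pp_022_s1 t 68 79 5 = true := ex3_a k1098_B07pp_022_s1 t1419_B07pp_022_s1

theorem t1421_B07pp_022_s1 : ∃ t, chk3 f_B07pp_022_s1 t 137 79 8 = true := ex3_c k1095_B07pp_022_s1 k1096_B07pp_022_s1

theorem t1422_B07pp_022_s1 : ∃ t, chk3 f_B07pp_022_s1 t 137 79 4 = true := ex3_c t1421_B07pp_022_s1 k1097_B07pp_022_s1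

theorem t1423_B07pp_022_s1 : ∃ t, chk3 f_B07pp_022_s1 t 68 79 4 = true := ex3_a k1094_B07pp_022_s1 t1422_B07pp_022_s1

theorem t1424_B07pp_022_s1 : ∃ t, chk3 f_B07pp_022_s1 t 68 79 2 = true := ex3_c t1423_B07pp_022_s1 t1420_B07pp_022_s1

theorem t1425_B07pp_022_s1 : ∃ t, chk3 f_B07pp_022_s1 t 34 79 2 = true := ex3_a t1424_B07pp_022_s1 t1418_B07pp_022_s1

theorem t1426_B07pp_022_s1 : ∃ t, chk3 f_B07pp_022_s1 t 137 78 5 = true := ex3_b k1091_B07pp_022_s1 k1092_B07pp_022_s1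

theorem t1427_B07pp_022_s1 : ∃ t, chk3 f_B07pp_022_s1 t 68 78 5 = true := ex3_a k1090_B07pp_022_s1 t1426_B07pp_022_s1

theorem t1428_B07pp_022_s1 : ∃ t, chk3 f_B07pp_022_s1 t 34 78 5 = true := ex3_a t1427_B07pp_022_s1 k1093_B07pp_022_s1

theorem t1429_B07pp_022_s1 : ∃ t, chk3 f_B07pp_022_s1 t 137 157 4 = true := ex3_a k1087_B07pp_022_s1 k1088_B07pp_022_s1

theorem t1430_B07pp_022_s1 : ∃ t, chk3 f_B07pp_022_s1 t 68 157 4 = true := ex3_a k1086_B07pp_022_s1 t1429_B07pp_022_s1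

theorem t1431_B07pp_022_s1 : ∃ t, chk3 f_B07pp_022_s1 t 34 157 4 = true := ex3_a t1430_B07pp_022_s1 k1089_B07pp_022_s1

theorem t1432_B07pp_022_s1 : ∃ t, chk3 f_B07pp_022_s1 t 274 156 4 = true := ex3_b k1082_B07pp_022_s1 k1083_B07pp_022_s1

theorem t1433_B07pp_022_s1 : ∃ t, chk3 f_B07pp_022_s1 t 137 156 4 = true := ex3_a t1432_B07pp_022_s1 k1084_B07pp_022_s1

theorem t1434_B07pp_022_s1 : ∃ t, chk3 f_B07pp_022_s1 t 68 156 4 = true := ex3_a k1081_B07pp_022_s1 t1433_B07pp_022_s1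

theorem t1435_B07pp_022_s1 : ∃ t, chk3 f_B07pp_022_s1 t 34 156 4 = true := ex3_a t1434_B07pp_022_s1 k1085_B07pp_022_s1

theorem t1436_B07pp_022_s1 : ∃ t, chk3 f_B07pp_022_s1 t 34 78 4 = true := ex3_b t1435_B07pp_022_s1 t1431_B07pp_022_s1

theorem t1437_B07pp_022_s1 : ∃ t, chk3 f_B07pp_022_s1 t 34 78 2 = true := ex3_c t1436_B07pp_022_s1 t1428_B07pp_022_s1

theorem t1438_B07pp_022_s1 : ∃ t, chk3 f_B07pp_022_s1 t 34 39 2 = true := ex3_b t1437_B07pp_022_s1 t1425_B07pp_022_s1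

theorem t1439_B07pp_022_s1 : ∃ t, chk3 f_B07pp_022_s1 t 139 76 4 = true := ex3_c k1077_B07pp_022_s1 k1078_B07pp_022_s1

theorem t1440_B07pp_022_s1 : ∃ t, chk3 f_B07pp_022_s1 t 139 38 4 = true := ex3_b t1439_B07pp_022_s1 k1079_B07pp_022_s1

theorem t1441_B07pp_022_s1 : ∃ t, chk3 f_B07pp_022_s1 t 138 76 8 = true := ex3_b k1073_B07pp_022_s1 k1074_B07pp_022_s1

theorem t1442_B07pp_022_s1 : ∃ t, chk3 f_B07pp_022_s1 t 138 76 4 = true := ex3_c t1441_B07pp_022_s1 k1075_B07pp_022_s1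

theorem t1443_B07pp_022_s1 : ∃ t, chk3 f_B07pp_022_s1 t 138 38 4 = true := ex3_b t1442_B07pp_022_s1 k1076_B07pp_022_s1

theorem t1444_B07pp_022_s1 : ∃ t, chk3 f_B07pp_022_s1 t 69 38 4 = true := ex3_a t1443_B07pp_022_s1 t1440_B07pp_022_s1

theorem t1445_B07pp_022_s1 : ∃ t, chk3 f_B07pp_022_s1 t 69 38 2 = true := ex3_c t1444_B07pp_022_s1 k1080_B07pp_022_s1

theorem t1446_B07pp_022_s1 : ∃ t, chk3 f_B07pp_022_s1 t 275 76 8 = true := ex3_c k1068_B07pp_022_s1 k1069_B07pp_022_s1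

theorem t1447_B07pp_022_s1 : ∃ t, chk3 f_B07pp_022_s1 t 274 76 8 = true := ex3_c k1066_B07pp_022_s1 k1067_B07pp_022_s1

theorem t1448_B07pp_022_s1 : ∃ t, chk3 f_B07pp_022_s1 t 137 76 8 = true := ex3_a t1447_B07pp_022_s1 t1446_B07pp_022_s1

theorem t1449_B07pp_022_s1 : ∃ t, chk3 f_B07pp_022_s1 t 137 76 4 = true := ex3_c t1448_B07pp_022_s1 k1070_B07pp_022_s1

theorem t1450_B07pp_022_s1 : ∃ t, chk3 f_B07pp_022_s1 t 137 38 4 = true := ex3_b t1449_B07pp_022_s1 k1071_B07pp_022_s1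

theorem t1451_B07pp_022_s1 : ∃ t, chk3 f_B07pp_022_s1 t 137 38 2 = true := ex3_c t1450_B07pp_022_s1 k1072_B07pp_022_s1

theorem t1452_B07pp_022_s1 : ∃ t, chk3 f_B07pp_022_s1 t 547 155 5 = true := ex3_a k1064_B07pp_022_s1 k1065_B07pp_022_s1

theorem t1453_B07pp_022_s1 : ∃ t, chk3 f_B07pp_022_s1 t 273 155 5 = true := ex3_a k1063_B07pp_022_s1 t1452_B07pp_022_s1

theorem t1454_B07pp_022_s1 : ∃ t, chk3 f_B07pp_022_s1 t 273 77 5 = true := ex3_b k1062_B07pp_022_s1 t1453_B07pp_022_s1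

theorem t1455_B07pp_022_s1 : ∃ t, chk3 f_B07pp_022_s1 t 136 77 5 = true := ex3_a k1061_B07pp_022_s1 t1454_B07pp_022_s1

theorem t1456_B07pp_022_s1 : ∃ t, chk3 f_B07pp_022_s1 t 272 76 5 = true := ex3_b k1058_B07pp_022_s1 k1059_B07pp_022_s1

theorem t1457_B07pp_022_s1 : ∃ t, chk3 f_B07pp_022_s1 t 136 76 5 = true := ex3_a t1456_B07pp_022_s1 k1060_B07pp_022_s1

theorem t1458_B07pp_022_s1 : ∃ t, chk3 f_B07pp_022_s1 t 136 38 5 = true := ex3_b t1457_B07pp_022_s1 t1455_B07pp_022_s1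

theorem t1459_B07pp_022_s1 : ∃ t, chk3 f_B07pp_022_s1 t 273 155 9 = true := ex3_a k1056_B07pp_022_s1 k1057_B07pp_022_s1

theorem t1460_B07pp_022_s1 : ∃ t, chk3 f_B07pp_022_s1 t 273 77 9 = true := ex3_b k1055_B07pp_022_s1 t1459_B07pp_022_s1

theorem t1461_B07pp_022_s1 : ∃ t, chk3 f_B07pp_022_s1 t 136 77 9 = true := ex3_a k1054_B07pp_022_s1 t1460_B07pp_022_s1

theorem t1462_B07pp_022_s1 : ∃ t, chk3 f_B07pp_022_s1 t 136 38 9 = true := ex3_b k1053_B07pp_022_s1 t1461_B07pp_022_s1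

theorem t1463_B07pp_022_s1 : ∃ t, chk3 f_B07pp_022_s1 t 136 77 17 = true := ex3_a k1051_B07pp_022_s1 k1052_B07pp_022_s1

theorem t1464_B07pp_022_s1 : ∃ t, chk3 f_B07pp_022_s1 t 136 38 17 = true := ex3_b k1050_B07pp_022_s1 t1463_B07pp_022_s1

theorem t1465_B07pp_022_s1 : ∃ t, chk3 f_B07pp_022_s1 t 273 152 16 = true := ex3_a k1046_B07pp_022_s1 k1047_B07pp_022_s1

theorem t1466_B07pp_022_s1 : ∃ t, chk3 f_B07pp_022_s1 t 273 76 16 = true := ex3_b t1465_B07pp_022_s1 k1048_B07pp_022_s1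

theorem t1467_B07pp_022_s1 : ∃ t, chk3 f_B07pp_022_s1 t 273 38 16 = true := ex3_b t1466_B07pp_022_s1 k1049_B07pp_022_s1

theorem t1468_B07pp_022_s1 : ∃ t, chk3 f_B07pp_022_s1 t 272 304 16 = true := ex3_a k1041_B07pp_022_s1 k1042_B07pp_022_s1

theorem t1469_B07pp_022_s1 : ∃ t, chk3 f_B07pp_022_s1 t 272 152 16 = true := ex3_b t1468_B07pp_022_s1 k1043_B07pp_022_s1

theorem t1470_B07pp_022_s1 : ∃ t, chk3 f_B07pp_022_s1 t 272 76 16 = true := ex3_b t1469_B07pp_022_s1 k1044_B07pp_022_s1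

theorem t1471_B07pp_022_s1 : ∃ t, chk3 f_B07pp_022_s1 t 272 38 16 = true := ex3_b t1470_B07pp_022_s1 k1045_B07pp_022_s1

theorem t1472_B07pp_022_s1 : ∃ t, chk3 f_B07pp_022_s1 t 136 38 16 = true := ex3_a t1471_B07pp_022_s1 t1467_B07pp_022_s1

theorem t1473_B07pp_022_s1 : ∃ t, chk3 f_B07pp_022_s1 t 136 38 8 = true := ex3_c t1472_B07pp_022_s1 t1464_B07pp_022_s1

theorem t1474_B07pp_022_s1 : ∃ t, chk3 f_B07pp_022_s1 t 136 38 4 = true := ex3_c t1473_B07pp_022_s1 t1462_B07pp_022_s1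

theorem t1475_B07pp_022_s1 : ∃ t, chk3 f_B07pp_022_s1 t 136 38 2 = true := ex3_c t1474_B07pp_022_s1 t1458_B07pp_022_s1

theorem t1476_B07pp_022_s1 : ∃ t, chk3 f_B07pp_022_s1 t 68 38 2 = true := ex3_a t1475_B07pp_022_s1 t1451_B07pp_022_s1

theorem t1477_B07pp_022_s1 : ∃ t, chk3 f_B07pp_022_s1 t 34 38 2 = true := ex3_a t1476_B07pp_022_s1 t1445_B07pp_022_s1

theorem t1478_B07pp_022_s1 : ∃ t, chk3 f_B07pp_022_s1 t 34 19 2 = true := ex3_b t1477_B07pp_022_s1 t1438_B07pp_022_s1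

theorem t1479_B07pp_022_s1 : ∃ t, chk3 f_B07pp_022_s1 t 34 19 1 = true := ex3_c t1478_B07pp_022_s1 t1415_B07pp_022_s1

theorem t1480_B07pp_022_s1 : ∃ t, chk3 f_B07pp_022_s1 t 17 19 1 = true := ex3_a t1479_B07pp_022_s1 t1403_B07pp_022_s1

theorem t1481_B07pp_022_s1 : ∃ t, chk3 f_B07pp_022_s1 t 71 36 3 = true := ex3_c k1038_B07pp_022_s1 k1039_B07pp_022_s1

theorem t1482_B07pp_022_s1 : ∃ t, chk3 f_B07pp_022_s1 t 71 18 3 = true := ex3_b t1481_B07pp_022_s1 k1040_B07pp_022_s1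

theorem t1483_B07pp_022_s1 : ∃ t, chk3 f_B07pp_022_s1 t 70 36 6 = true := ex3_b k1034_B07pp_022_s1 k1035_B07pp_022_s1

theorem t1484_B07pp_022_s1 : ∃ t, chk3 f_B07pp_022_s1 t 70 36 3 = true := ex3_c t1483_B07pp_022_s1 k1036_B07pp_022_s1

theorem t1485_B07pp_022_s1 : ∃ t, chk3 f_B07pp_022_s1 t 70 18 3 = true := ex3_b t1484_B07pp_022_s1 k1037_B07pp_022_s1

theorem t1486_B07pp_022_s1 : ∃ t, chk3 f_B07pp_022_s1 t 35 18 3 = true := ex3_a t1485_B07pp_022_s1 t1482_B07pp_022_s1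

theorem t1487_B07pp_022_s1 : ∃ t, chk3 f_B07pp_022_s1 t 69 36 6 = true := ex3_b k1030_B07pp_022_s1 k1031_B07pp_022_s1

theorem t1488_B07pp_022_s1 : ∃ t, chk3 f_B07pp_022_s1 t 69 36 3 = true := ex3_c t1487_B07pp_022_s1 k1032_B07pp_022_s1

theorem t1489_B07pp_022_s1 : ∃ t, chk3 f_B07pp_022_s1 t 69 18 3 = true := ex3_b t1488_B07pp_022_s1 k1033_B07pp_022_s1

theorem t1490_B07pp_022_s1 : ∃ t, chk3 f_B07pp_022_s1 t 68 18 3 = true := ex3_b k1028_B07pp_022_s1 k1029_B07pp_022_s1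

theorem t1491_B07pp_022_s1 : ∃ t, chk3 f_B07pp_022_s1 t 34 18 3 = true := ex3_a t1490_B07pp_022_s1 t1489_B07pp_022_s1

theorem t1492_B07pp_022_s1 : ∃ t, chk3 f_B07pp_022_s1 t 17 18 3 = true := ex3_a t1491_B07pp_022_s1 t1486_B07pp_022_s1

theorem t1493_B07pp_022_s1 : ∃ t, chk3 f_B07pp_022_s1 t 70 37 5 = true := ex3_b k1025_B07pp_022_s1 k1026_B07pp_022_s1

theorem t1494_B07pp_022_s1 : ∃ t, chk3 f_B07pp_022_s1 t 35 37 5 = true := ex3_a t1493_B07pp_022_s1 k1027_B07pp_022_s1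

theorem t1495_B07pp_022_s1 : ∃ t, chk3 f_B07pp_022_s1 t 35 18 5 = true := ex3_b k1024_B07pp_022_s1 t1494_B07pp_022_s1

theorem t1496_B07pp_022_s1 : ∃ t, chk3 f_B07pp_022_s1 t 35 37 4 = true := ex3_a k1022_B07pp_022_s1 k1023_B07pp_022_s1

theorem t1497_B07pp_022_s1 : ∃ t, chk3 f_B07pp_022_s1 t 35 18 4 = true := ex3_b k1021_B07pp_022_s1 t1496_B07pp_022_s1

theorem t1498_B07pp_022_s1 : ∃ t, chk3 f_B07pp_022_s1 t 35 18 2 = true := ex3_c t1497_B07pp_022_s1 t1495_B07pp_022_s1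

theorem t1499_B07pp_022_s1 : ∃ t, chk3 f_B07pp_022_s1 t 69 74 5 = true := ex3_c k1018_B07pp_022_s1 k1019_B07pp_022_s1

theorem t1500_B07pp_022_s1 : ∃ t, chk3 f_B07pp_022_s1 t 69 37 5 = true := ex3_b t1499_B07pp_022_s1 k1020_B07pp_022_s1

theorem t1501_B07pp_022_s1 : ∃ t, chk3 f_B07pp_022_s1 t 68 37 5 = true := ex3_a k1016_B07pp_022_s1 k1017_B07pp_022_s1

theorem t1502_B07pp_022_s1 : ∃ t, chk3 f_B07pp_022_s1 t 34 37 5 = true := ex3_a t1501_B07pp_022_s1 t1500_B07pp_022_s1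

theorem t1503_B07pp_022_s1 : ∃ t, chk3 f_B07pp_022_s1 t 69 36 5 = true := ex3_c k1014_B07pp_022_s1 k1015_B07pp_022_s1

theorem t1504_B07pp_022_s1 : ∃ t, chk3 f_B07pp_022_s1 t 137 73 5 = true := ex3_c k1012_B07pp_022_s1 k1013_B07pp_022_s1

theorem t1505_B07pp_022_s1 : ∃ t, chk3 f_B07pp_022_s1 t 136 73 10 = true := ex3_a k1009_B07pp_022_s1 k1010_B07pp_022_s1

theorem t1506_B07pp_022_s1 : ∃ t, chk3 f_B07pp_022_s1 t 136 73 5 = true := ex3_c t1505_B07pp_022_s1 k1011_B07pp_022_s1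

theorem t1507_B07pp_022_s1 : ∃ t, chk3 f_B07pp_022_s1 t 68 73 5 = true := ex3_a t1506_B07pp_022_s1 t1504_B07pp_022_s1

theorem t1508_B07pp_022_s1 : ∃ t, chk3 f_B07pp_022_s1 t 68 72 11 = true := ex3_a k1007_B07pp_022_s1 k1008_B07pp_022_s1

theorem t1509_B07pp_022_s1 : ∃ t, chk3 f_B07pp_022_s1 t 68 72 5 = true := ex3_c k1006_B07pp_022_s1 t1508_B07pp_022_s1

theorem t1510_B07pp_022_s1 : ∃ t, chk3 f_B07pp_022_s1 t 68 36 5 = true := ex3_b t1509_B07pp_022_s1 t1507_B07pp_022_s1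

theorem t1511_B07pp_022_s1 : ∃ t, chk3 f_B07pp_022_s1 t 34 36 5 = true := ex3_a t1510_B07pp_022_s1 t1503_B07pp_022_s1

theorem t1512_B07pp_022_s1 : ∃ t, chk3 f_B07pp_022_s1 t 34 18 5 = true := ex3_b t1511_B07pp_022_s1 t1502_B07pp_022_s1

theorem t1513_B07pp_022_s1 : ∃ t, chk3 f_B07pp_022_s1 t 69 75 9 = true := ex3_a k1004_B07pp_022_s1 k1005_B07pp_022_s1

theorem t1514_B07pp_022_s1 : ∃ t, chk3 f_B07pp_022_s1 t 69 37 9 = true := ex3_b k1003_B07pp_022_s1 t1513_B07pp_022_s1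

theorem t1515_B07pp_022_s1 : ∃ t, chk3 f_B07pp_022_s1 t 69 37 8 = true := ex3_b k1001_B07pp_022_s1 k1002_B07pp_022_s1

theorem t1516_B07pp_022_s1 : ∃ t, chk3 f_B07pp_022_s1 t 69 37 4 = true := ex3_c t1515_B07pp_022_s1 t1514_B07pp_022_s1

theorem t1517_B07pp_022_s1 : ∃ t, chk3 f_B07pp_022_s1 t 137 75 9 = true := ex3_b k999_B07pp_022_s1 k1000_B07pp_022_s1

theorem t1518_B07pp_022_s1 : ∃ t, chk3 f_B07pp_022_s1 t 137 74 9 = true := ex3_b k997_B07pp_022_s1 k998_B07pp_022_s1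

theorem t1519_B07pp_022_s1 : ∃ t, chk3 f_B07pp_022_s1 t 137 37 9 = true := ex3_b t1518_B07pp_022_s1 t1517_B07pp_022_s1

theorem t1520_B07pp_022_s1 : ∃ t, chk3 f_B07pp_022_s1 t 273 74 9 = true := ex3_b k994_B07pp_022_s1 k995_B07pp_022_s1

theorem t1521_B07pp_022_s1 : ∃ t, chk3 f_B07pp_022_s1 t 272 148 9 = true := ex3_c k991_B07pp_022_s1 k992_B07pp_022_s1

theorem t1522_B07pp_022_s1 : ∃ t, chk3 f_B07pp_022_s1 t 272 74 9 = true := ex3_b t1521_B07pp_022_s1 k993_B07pp_022_s1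

theorem t1523_B07pp_022_s1 : ∃ t, chk3 f_B07pp_022_s1 t 136 74 9 = true := ex3_a t1522_B07pp_022_s1 t1520_B07pp_022_s1

theorem t1524_B07pp_022_s1 : ∃ t, chk3 f_B07pp_022_s1 t 136 37 9 = true := ex3_b t1523_B07pp_022_s1 k996_B07pp_022_s1

theorem t1525_B07pp_022_s1 : ∃ t, chk3 f_B07pp_022_s1 t 68 37 9 = true := ex3_a t1524_B07pp_022_s1 t1519_B07pp_022_s1

theorem t1526_B07pp_022_s1 : ∃ t, chk3 f_B07pp_022_s1 t 137 75 17 = true := ex3_b k989_B07pp_022_s1 k990_B07pp_022_s1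

theorem t1527_B07pp_022_s1 : ∃ t, chk3 f_B07pp_022_s1 t 137 151 16 = true := ex3_a k987_B07pp_022_s1 k988_B07pp_022_s1

theorem t1528_B07pp_022_s1 : ∃ t, chk3 f_B07pp_022_s1 t 137 75 16 = true := ex3_b k986_B07pp_022_s1 t1527_B07pp_022_s1

theorem t1529_B07pp_022_s1 : ∃ t, chk3 f_B07pp_022_s1 t 137 75 8 = true := ex3_c t1528_B07pp_022_s1 t1526_B07pp_022_s1

theorem t1530_B07pp_022_s1 : ∃ t, chk3 f_B07pp_022_s1 t 273 151 8 = true := ex3_c k984_B07pp_022_s1 k985_B07pp_022_s1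

theorem t1531_B07pp_022_s1 : ∃ t, chk3 f_B07pp_022_s1 t 1088 303 32 = true := ex3_b k978_B07pp_022_s1 k979_B07pp_022_s1

theorem t1532_B07pp_022_s1 : ∃ t, chk3 f_B07pp_022_s1 t 544 303 32 = true := ex3_a t1531_B07pp_022_s1 k980_B07pp_022_s1

theorem t1533_B07pp_022_s1 : ∃ t, chk3 f_B07pp_022_s1 t 544 303 16 = true := ex3_c t1532_B07pp_022_s1 k981_B07pp_022_s1

theorem t1534_B07pp_022_s1 : ∃ t, chk3 f_B07pp_022_s1 t 272 303 16 = true := ex3_a t1533_B07pp_022_s1 k982_B07pp_022_s1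

theorem t1535_B07pp_022_s1 : ∃ t, chk3 f_B07pp_022_s1 t 272 302 16 = true := ex3_c k976_B07pp_022_s1 k977_B07pp_022_s1

theorem t1536_B07pp_022_s1 : ∃ t, chk3 f_B07pp_022_s1 t 272 151 16 = true := ex3_b t1535_B07pp_022_s1 t1534_B07pp_022_s1

theorem t1537_B07pp_022_s1 : ∃ t, chk3 f_B07pp_022_s1 t 272 151 8 = true := ex3_c t1536_B07pp_022_s1 k983_B07pp_022_s1

theorem t1538_B07pp_022_s1 : ∃ t, chk3 f_B07pp_022_s1 t 136 151 8 = true := ex3_a t1537_B07pp_022_s1 t1530_B07pp_022_s1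

theorem t1539_B07pp_022_s1 : ∃ t, chk3 f_B07pp_022_s1 t 272 150 17 = true := ex3_b k973_B07pp_022_s1 k974_B07pp_022_s1

theorem t1540_B07pp_022_s1 : ∃ t, chk3 f_B07pp_022_s1 t 136 150 17 = true := ex3_a t1539_B07pp_022_s1 k975_B07pp_022_s1

theorem t1541_B07pp_022_s1 : ∃ t, chk3 f_B07pp_022_s1 t 273 150 16 = true := ex3_b k971_B07pp_022_s1 k972_B07pp_022_s1

theorem t1542_B07pp_022_s1 : ∃ t, chk3 f_B07pp_022_s1 t 272 150 16 = true := ex3_b k969_B07pp_022_s1 k970_B07pp_022_s1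

theorem t1543_B07pp_022_s1 : ∃ t, chk3 f_B07pp_022_s1 t 136 150 16 = true := ex3_a t1542_B07pp_022_s1 t1541_B07pp_022_s1

theorem t1544_B07pp_022_s1 : ∃ t, chk3 f_B07pp_022_s1 t 136 150 8 = true := ex3_c t1543_B07pp_022_s1 t1540_B07pp_022_s1

theorem t1545_B07pp_022_s1 : ∃ t, chk3 f_B07pp_022_s1 t 136 75 8 = true := ex3_b t1544_B07pp_022_s1 t1538_B07pp_022_s1

theorem t1546_B07pp_022_s1 : ∃ t, chk3 f_B07pp_022_s1 t 68 75 8 = true := ex3_a t1545_B07pp_022_s1 t1529_B07pp_022_s1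

theorem t1547_B07pp_022_s1 : ∃ t, chk3 f_B07pp_022_s1 t 136 149 17 = true := ex3_a k966_B07pp_022_s1 k967_B07pp_022_s1

theorem t1548_B07pp_022_s1 : ∃ t, chk3 f_B07pp_022_s1 t 136 149 16 = true := ex3_a k964_B07pp_022_s1 k965_B07pp_022_s1

theorem t1549_B07pp_022_s1 : ∃ t, chk3 f_B07pp_022_s1 t 136 149 8 = true := ex3_c t1548_B07pp_022_s1 t1547_B07pp_022_s1

theorem t1550_B07pp_022_s1 : ∃ t, chk3 f_B07pp_022_s1 t 136 148 8 = true := ex3_c k962_B07pp_022_s1 k963_B07pp_022_s1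

theorem t1551_B07pp_022_s1 : ∃ t, chk3 f_B07pp_022_s1 t 136 74 8 = true := ex3_b t1550_B07pp_022_s1 t1549_B07pp_022_s1

theorem t1552_B07pp_022_s1 : ∃ t, chk3 f_B07pp_022_s1 t 68 74 8 = true := ex3_a t1551_B07pp_022_s1 k968_B07pp_022_s1

theorem t1553_B07pp_022_s1 : ∃ t, chk3 f_B07pp_022_s1 t 68 37 8 = true := ex3_b t1552_B07pp_022_s1 t1546_B07pp_022_s1

theorem t1554_B07pp_022_s1 : ∃ t, chk3 f_B07pp_022_s1 t 68 37 4 = true := ex3_c t1553_B07pp_022_s1 t1525_B07pp_022_s1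

theorem t1555_B07pp_022_s1 : ∃ t, chk3 f_B07pp_022_s1 t 34 37 4 = true := ex3_a t1554_B07pp_022_s1 t1516_B07pp_022_s1

theorem t1556_B07pp_022_s1 : ∃ t, chk3 f_B07pp_022_s1 t 136 147 9 = true := ex3_a k958_B07pp_022_s1 k959_B07pp_022_s1

theorem t1557_B07pp_022_s1 : ∃ t, chk3 f_B07pp_022_s1 t 68 147 9 = true := ex3_a t1556_B07pp_022_s1 k960_B07pp_022_s1

theorem t1558_B07pp_022_s1 : ∃ t, chk3 f_B07pp_022_s1 t 68 73 9 = true := ex3_b k957_B07pp_022_s1 t1557_B07pp_022_s1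

theorem t1559_B07pp_022_s1 : ∃ t, chk3 f_B07pp_022_s1 t 68 73 4 = true := ex3_c k956_B07pp_022_s1 t1558_B07pp_022_s1

theorem t1560_B07pp_022_s1 : ∃ t, chk3 f_B07pp_022_s1 t 68 36 4 = true := ex3_b k955_B07pp_022_s1 t1559_B07pp_022_s1

theorem t1561_B07pp_022_s1 : ∃ t, chk3 f_B07pp_022_s1 t 34 36 4 = true := ex3_a t1560_B07pp_022_s1 k961_B07pp_022_s1

theorem t1562_B07pp_022_s1 : ∃ t, chk3 f_B07pp_022_s1 t 34 18 4 = true := ex3_b t1561_B07pp_022_s1 t1555_B07pp_022_s1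

theorem t1563_B07pp_022_s1 : ∃ t, chk3 f_B07pp_022_s1 t 34 18 2 = true := ex3_c t1562_B07pp_022_s1 t1512_B07pp_022_s1

theorem t1564_B07pp_022_s1 : ∃ t, chk3 f_B07pp_022_s1 t 17 18 2 = true := ex3_a t1563_B07pp_022_s1 t1498_B07pp_022_s1

theorem t1565_B07pp_022_s1 : ∃ t, chk3 f_B07pp_022_s1 t 17 18 1 = true := ex3_c t1564_B07pp_022_s1 t1492_B07pp_022_s1

theorem t1566_B07pp_022_s1 : ∃ t, chk3 f_B07pp_022_s1 t 17 9 1 = true := ex3_b t1565_B07pp_022_s1 t1480_B07pp_022_s1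

theorem t1567_B07pp_022_s1 : ∃ t, chk3 f_B07pp_022_s1 t 17 17 3 = true := ex3_a k953_B07pp_022_s1 k954_B07pp_022_s1

theorem t1568_B07pp_022_s1 : ∃ t, chk3 f_B07pp_022_s1 t 17 8 3 = true := ex3_b k952_B07pp_022_s1 t1567_B07pp_022_s1

theorem t1569_B07pp_022_s1 : ∃ t, chk3 f_B07pp_022_s1 t 17 8 1 = true := ex3_c k951_B07pp_022_s1 t1568_B07pp_022_s1

theorem t1570_B07pp_022_s1 : ∃ t, chk3 f_B07pp_022_s1 t 17 4 1 = true := ex3_b t1569_B07pp_022_s1 t1566_B07pp_022_s1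

theorem t1571_B07pp_022_s1 : ∃ t, chk3 f_B07pp_022_s1 t 135 75 6 = true := ex3_a k947_B07pp_022_s1 k948_B07pp_022_s1

theorem t1572_B07pp_022_s1 : ∃ t, chk3 f_B07pp_022_s1 t 135 75 3 = true := ex3_c t1571_B07pp_022_s1 k949_B07pp_022_s1

theorem t1573_B07pp_022_s1 : ∃ t, chk3 f_B07pp_022_s1 t 135 37 3 = true := ex3_b k946_B07pp_022_s1 t1572_B07pp_022_s1

theorem t1574_B07pp_022_s1 : ∃ t, chk3 f_B07pp_022_s1 t 135 18 3 = true := ex3_b k945_B07pp_022_s1 t1573_B07pp_022_s1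

theorem t1575_B07pp_022_s1 : ∃ t, chk3 f_B07pp_022_s1 t 135 9 3 = true := ex3_b t1574_B07pp_022_s1 k950_B07pp_022_s1

theorem t1576_B07pp_022_s1 : ∃ t, chk3 f_B07pp_022_s1 t 269 148 6 = true := ex3_a k939_B07pp_022_s1 k940_B07pp_022_s1

theorem t1577_B07pp_022_s1 : ∃ t, chk3 f_B07pp_022_s1 t 269 148 3 = true := ex3_c t1576_B07pp_022_s1 k941_B07pp_022_s1

theorem t1578_B07pp_022_s1 : ∃ t, chk3 f_B07pp_022_s1 t 134 148 3 = true := ex3_a k938_B07pp_022_s1 t1577_B07pp_022_s1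

theorem t1579_B07pp_022_s1 : ∃ t, chk3 f_B07pp_022_s1 t 134 74 3 = true := ex3_b t1578_B07pp_022_s1 k942_B07pp_022_s1

theorem t1580_B07pp_022_s1 : ∃ t, chk3 f_B07pp_022_s1 t 134 37 3 = true := ex3_b t1579_B07pp_022_s1 k943_B07pp_022_s1

theorem t1581_B07pp_022_s1 : ∃ t, chk3 f_B07pp_022_s1 t 537 147 6 = true := ex3_b k934_B07pp_022_s1 k935_B07pp_022_s1

theorem t1582_B07pp_022_s1 : ∃ t, chk3 f_B07pp_022_s1 t 268 147 6 = true := ex3_a k933_B07pp_022_s1 t1581_B07pp_022_s1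

theorem t1583_B07pp_022_s1 : ∃ t, chk3 f_B07pp_022_s1 t 536 146 6 = true := ex3_b k930_B07pp_022_s1 k931_B07pp_022_s1

theorem t1584_B07pp_022_s1 : ∃ t, chk3 f_B07pp_022_s1 t 268 146 6 = true := ex3_a t1583_B07pp_022_s1 k932_B07pp_022_s1

theorem t1585_B07pp_022_s1 : ∃ t, chk3 f_B07pp_022_s1 t 268 73 6 = true := ex3_b t1584_B07pp_022_s1 t1582_B07pp_022_s1

theorem t1586_B07pp_022_s1 : ∃ t, chk3 f_B07pp_022_s1 t 268 73 3 = true := ex3_c t1585_B07pp_022_s1 k936_B07pp_022_s1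

theorem t1587_B07pp_022_s1 : ∃ t, chk3 f_B07pp_022_s1 t 134 73 3 = true := ex3_a t1586_B07pp_022_s1 k937_B07pp_022_s1

theorem t1588_B07pp_022_s1 : ∃ t, chk3 f_B07pp_022_s1 t 134 36 3 = true := ex3_b k929_B07pp_022_s1 t1587_B07pp_022_s1

theorem t1589_B07pp_022_s1 : ∃ t, chk3 f_B07pp_022_s1 t 134 18 3 = true := ex3_b t1588_B07pp_022_s1 t1580_B07pp_022_s1

theorem t1590_B07pp_022_s1 : ∃ t, chk3 f_B07pp_022_s1 t 134 9 3 = true := ex3_b t1589_B07pp_022_s1 k944_B07pp_022_s1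

theorem t1591_B07pp_022_s1 : ∃ t, chk3 f_B07pp_022_s1 t 67 9 3 = true := ex3_a t1590_B07pp_022_s1 t1575_B07pp_022_s1

theorem t1592_B07pp_022_s1 : ∃ t, chk3 f_B07pp_022_s1 t 66 73 3 = true := ex3_c k925_B07pp_022_s1 k926_B07pp_022_s1

theorem t1593_B07pp_022_s1 : ∃ t, chk3 f_B07pp_022_s1 t 534 290 6 = true := ex3_a k920_B07pp_022_s1 k921_B07pp_022_s1

theorem t1594_B07pp_022_s1 : ∃ t, chk3 f_B07pp_022_s1 t 534 145 6 = true := ex3_b t1593_B07pp_022_s1 k922_B07pp_022_s1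

theorem t1595_B07pp_022_s1 : ∃ t, chk3 f_B07pp_022_s1 t 267 145 6 = true := ex3_a t1594_B07pp_022_s1 k923_B07pp_022_s1

theorem t1596_B07pp_022_s1 : ∃ t, chk3 f_B07pp_022_s1 t 133 145 6 = true := ex3_a k919_B07pp_022_s1 t1595_B07pp_022_s1

theorem t1597_B07pp_022_s1 : ∃ t, chk3 f_B07pp_022_s1 t 133 145 3 = true := ex3_c t1596_B07pp_022_s1 k924_B07pp_022_s1

theorem t1598_B07pp_022_s1 : ∃ t, chk3 f_B07pp_022_s1 t 266 144 13 = true := ex3_b k915_B07pp_022_s1 k916_B07pp_022_s1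

theorem t1599_B07pp_022_s1 : ∃ t, chk3 f_B07pp_022_s1 t 266 288 12 = true := ex3_a k912_B07pp_022_s1 k913_B07pp_022_s1

theorem t1600_B07pp_022_s1 : ∃ t, chk3 f_B07pp_022_s1 t 266 144 12 = true := ex3_b t1599_B07pp_022_s1 k914_B07pp_022_s1

theorem t1601_B07pp_022_s1 : ∃ t, chk3 f_B07pp_022_s1 t 266 144 6 = true := ex3_c t1600_B07pp_022_s1 t1598_B07pp_022_s1

theorem t1602_B07pp_022_s1 : ∃ t, chk3 f_B07pp_022_s1 t 133 144 6 = true := ex3_a t1601_B07pp_022_s1 k917_B07pp_022_s1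

theorem t1603_B07pp_022_s1 : ∃ t, chk3 f_B07pp_022_s1 t 133 144 3 = true := ex3_c t1602_B07pp_022_s1 k918_B07pp_022_s1

theorem t1604_B07pp_022_s1 : ∃ t, chk3 f_B07pp_022_s1 t 133 72 3 = true := ex3_b t1603_B07pp_022_s1 t1597_B07pp_022_s1

theorem t1605_B07pp_022_s1 : ∃ t, chk3 f_B07pp_022_s1 t 66 72 3 = true := ex3_a k911_B07pp_022_s1 t1604_B07pp_022_s1

theorem t1606_B07pp_022_s1 : ∃ t, chk3 f_B07pp_022_s1 t 66 36 3 = true := ex3_b t1605_B07pp_022_s1 t1592_B07pp_022_s1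

theorem t1607_B07pp_022_s1 : ∃ t, chk3 f_B07pp_022_s1 t 66 18 3 = true := ex3_b t1606_B07pp_022_s1 k927_B07pp_022_s1

theorem t1608_B07pp_022_s1 : ∃ t, chk3 f_B07pp_022_s1 t 66 9 3 = true := ex3_b t1607_B07pp_022_s1 k928_B07pp_022_s1

theorem t1609_B07pp_022_s1 : ∃ t, chk3 f_B07pp_022_s1 t 33 9 3 = true := ex3_a t1608_B07pp_022_s1 t1591_B07pp_022_s1

theorem t1610_B07pp_022_s1 : ∃ t, chk3 f_B07pp_022_s1 t 16 9 3 = true := ex3_a k910_B07pp_022_s1 t1609_B07pp_022_s1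

theorem t1611_B07pp_022_s1 : ∃ t, chk3 f_B07pp_022_s1 t 135 152 5 = true := ex3_c k905_B07pp_022_s1 k906_B07pp_022_s1

theorem t1612_B07pp_022_s1 : ∃ t, chk3 f_B07pp_022_s1 t 135 76 5 = true := ex3_b t1611_B07pp_022_s1 k907_B07pp_022_s1

theorem t1613_B07pp_022_s1 : ∃ t, chk3 f_B07pp_022_s1 t 67 76 5 = true := ex3_a k904_B07pp_022_s1 t1612_B07pp_022_s1

theorem t1614_B07pp_022_s1 : ∃ t, chk3 f_B07pp_022_s1 t 135 76 4 = true := ex3_c k902_B07pp_022_s1 k903_B07pp_022_s1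

theorem t1615_B07pp_022_s1 : ∃ t, chk3 f_B07pp_022_s1 t 67 76 4 = true := ex3_a k901_B07pp_022_s1 t1614_B07pp_022_s1

theorem t1616_B07pp_022_s1 : ∃ t, chk3 f_B07pp_022_s1 t 67 76 2 = true := ex3_c t1615_B07pp_022_s1 t1613_B07pp_022_s1

theorem t1617_B07pp_022_s1 : ∃ t, chk3 f_B07pp_022_s1 t 33 76 2 = true := ex3_a k900_B07pp_022_s1 t1616_B07pp_022_s1

theorem t1618_B07pp_022_s1 : ∃ t, chk3 f_B07pp_022_s1 t 33 38 2 = true := ex3_b t1617_B07pp_022_s1 k908_B07pp_022_s1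

theorem t1619_B07pp_022_s1 : ∃ t, chk3 f_B07pp_022_s1 t 33 19 2 = true := ex3_b t1618_B07pp_022_s1 k909_B07pp_022_s1

theorem t1620_B07pp_022_s1 : ∃ t, chk3 f_B07pp_022_s1 t 135 37 23 = true := ex3_b k898_B07pp_022_s1 k899_B07pp_022_s1

theorem t1621_B07pp_022_s1 : ∃ t, chk3 f_B07pp_022_s1 t 135 18 23 = true := ex3_b k897_B07pp_022_s1 t1620_B07pp_022_s1

theorem t1622_B07pp_022_s1 : ∃ t, chk3 f_B07pp_022_s1 t 268 73 23 = true := ex3_b k893_B07pp_022_s1 k894_B07pp_022_s1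

theorem t1623_B07pp_022_s1 : ∃ t, chk3 f_B07pp_022_s1 t 134 73 23 = true := ex3_a t1622_B07pp_022_s1 k895_B07pp_022_s1

theorem t1624_B07pp_022_s1 : ∃ t, chk3 f_B07pp_022_s1 t 134 36 23 = true := ex3_b k892_B07pp_022_s1 t1623_B07pp_022_s1

theorem t1625_B07pp_022_s1 : ∃ t, chk3 f_B07pp_022_s1 t 134 18 23 = true := ex3_b t1624_B07pp_022_s1 k896_B07pp_022_s1

theorem t1626_B07pp_022_s1 : ∃ t, chk3 f_B07pp_022_s1 t 67 18 23 = true := ex3_a t1625_B07pp_022_s1 t1621_B07pp_022_s1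

theorem t1627_B07pp_022_s1 : ∃ t, chk3 f_B07pp_022_s1 t 267 145 23 = true := ex3_a k888_B07pp_022_s1 k889_B07pp_022_s1

theorem t1628_B07pp_022_s1 : ∃ t, chk3 f_B07pp_022_s1 t 133 145 23 = true := ex3_a k887_B07pp_022_s1 t1627_B07pp_022_s1

theorem t1629_B07pp_022_s1 : ∃ t, chk3 f_B07pp_022_s1 t 266 144 23 = true := ex3_b k884_B07pp_022_s1 k885_B07pp_022_s1

theorem t1630_B07pp_022_s1 : ∃ t, chk3 f_B07pp_022_s1 t 133 144 23 = true := ex3_a t1629_B07pp_022_s1 k886_B07pp_022_s1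

theorem t1631_B07pp_022_s1 : ∃ t, chk3 f_B07pp_022_s1 t 133 72 23 = true := ex3_b t1630_B07pp_022_s1 t1628_B07pp_022_s1

theorem t1632_B07pp_022_s1 : ∃ t, chk3 f_B07pp_022_s1 t 133 36 23 = true := ex3_b t1631_B07pp_022_s1 k890_B07pp_022_s1

theorem t1633_B07pp_022_s1 : ∃ t, chk3 f_B07pp_022_s1 t 66 36 23 = true := ex3_a k883_B07pp_022_s1 t1632_B07pp_022_s1

theorem t1634_B07pp_022_s1 : ∃ t, chk3 f_B07pp_022_s1 t 66 18 23 = true := ex3_b t1633_B07pp_022_s1 k891_B07pp_022_s1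

theorem t1635_B07pp_022_s1 : ∃ t, chk3 f_B07pp_022_s1 t 33 18 23 = true := ex3_a t1634_B07pp_022_s1 t1626_B07pp_022_s1

theorem t1636_B07pp_022_s1 : ∃ t, chk3 f_B07pp_022_s1 t 135 37 22 = true := ex3_b k881_B07pp_022_s1 k882_B07pp_022_s1

theorem t1637_B07pp_022_s1 : ∃ t, chk3 f_B07pp_022_s1 t 135 18 22 = true := ex3_b k880_B07pp_022_s1 t1636_B07pp_022_s1

theorem t1638_B07pp_022_s1 : ∃ t, chk3 f_B07pp_022_s1 t 134 74 22 = true := ex3_b k877_B07pp_022_s1 k878_B07pp_022_s1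

theorem t1639_B07pp_022_s1 : ∃ t, chk3 f_B07pp_022_s1 t 134 37 22 = true := ex3_b t1638_B07pp_022_s1 k879_B07pp_022_s1

theorem t1640_B07pp_022_s1 : ∃ t, chk3 f_B07pp_022_s1 t 268 73 22 = true := ex3_b k874_B07pp_022_s1 k875_B07pp_022_s1

theorem t1641_B07pp_022_s1 : ∃ t, chk3 f_B07pp_022_s1 t 134 73 22 = true := ex3_a t1640_B07pp_022_s1 k876_B07pp_022_s1

theorem t1642_B07pp_022_s1 : ∃ t, chk3 f_B07pp_022_s1 t 134 36 22 = true := ex3_b k873_B07pp_022_s1 t1641_B07pp_022_s1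

theorem t1643_B07pp_022_s1 : ∃ t, chk3 f_B07pp_022_s1 t 134 18 22 = true := ex3_b t1642_B07pp_022_s1 t1639_B07pp_022_s1

theorem t1644_B07pp_022_s1 : ∃ t, chk3 f_B07pp_022_s1 t 67 18 22 = true := ex3_a t1643_B07pp_022_s1 t1637_B07pp_022_s1

theorem t1645_B07pp_022_s1 : ∃ t, chk3 f_B07pp_022_s1 t 267 145 22 = true := ex3_a k869_B07pp_022_s1 k870_B07pp_022_s1

theorem t1646_B07pp_022_s1 : ∃ t, chk3 f_B07pp_022_s1 t 133 145 22 = true := ex3_a k868_B07pp_022_s1 t1645_B07pp_022_s1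

theorem t1647_B07pp_022_s1 : ∃ t, chk3 f_B07pp_022_s1 t 266 144 22 = true := ex3_b k865_B07pp_022_s1 k866_B07pp_022_s1

theorem t1648_B07pp_022_s1 : ∃ t, chk3 f_B07pp_022_s1 t 133 144 22 = true := ex3_a t1647_B07pp_022_s1 k867_B07pp_022_s1

theorem t1649_B07pp_022_s1 : ∃ t, chk3 f_B07pp_022_s1 t 133 72 22 = true := ex3_b t1648_B07pp_022_s1 t1646_B07pp_022_s1

theorem t1650_B07pp_022_s1 : ∃ t, chk3 f_B07pp_022_s1 t 133 36 22 = true := ex3_b t1649_B07pp_022_s1 k871_B07pp_022_s1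

theorem t1651_B07pp_022_s1 : ∃ t, chk3 f_B07pp_022_s1 t 66 36 22 = true := ex3_a k864_B07pp_022_s1 t1650_B07pp_022_s1

theorem t1652_B07pp_022_s1 : ∃ t, chk3 f_B07pp_022_s1 t 66 18 22 = true := ex3_b t1651_B07pp_022_s1 k872_B07pp_022_s1

theorem t1653_B07pp_022_s1 : ∃ t, chk3 f_B07pp_022_s1 t 33 18 22 = true := ex3_a t1652_B07pp_022_s1 t1644_B07pp_022_s1

theorem t1654_B07pp_022_s1 : ∃ t, chk3 f_B07pp_022_s1 t 33 18 11 = true := ex3_c t1653_B07pp_022_s1 t1635_B07pp_022_s1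

theorem t1655_B07pp_022_s1 : ∃ t, chk3 f_B07pp_022_s1 t 135 37 21 = true := ex3_b k862_B07pp_022_s1 k863_B07pp_022_s1

theorem t1656_B07pp_022_s1 : ∃ t, chk3 f_B07pp_022_s1 t 135 72 21 = true := ex3_b k859_B07pp_022_s1 k860_B07pp_022_s1

theorem t1657_B07pp_022_s1 : ∃ t, chk3 f_B07pp_022_s1 t 135 36 21 = true := ex3_b t1656_B07pp_022_s1 k861_B07pp_022_s1

theorem t1658_B07pp_022_s1 : ∃ t, chk3 f_B07pp_022_s1 t 135 18 21 = true := ex3_b t1657_B07pp_022_s1 t1655_B07pp_022_s1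

theorem t1659_B07pp_022_s1 : ∃ t, chk3 f_B07pp_022_s1 t 134 74 21 = true := ex3_b k856_B07pp_022_s1 k857_B07pp_022_s1

theorem t1660_B07pp_022_s1 : ∃ t, chk3 f_B07pp_022_s1 t 134 37 21 = true := ex3_b t1659_B07pp_022_s1 k858_B07pp_022_s1

theorem t1661_B07pp_022_s1 : ∃ t, chk3 f_B07pp_022_s1 t 268 73 21 = true := ex3_b k853_B07pp_022_s1 k854_B07pp_022_s1

theorem t1662_B07pp_022_s1 : ∃ t, chk3 f_B07pp_022_s1 t 134 73 21 = true := ex3_a t1661_B07pp_022_s1 k855_B07pp_022_s1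

theorem t1663_B07pp_022_s1 : ∃ t, chk3 f_B07pp_022_s1 t 134 145 21 = true := ex3_a k851_B07pp_022_s1 k852_B07pp_022_s1

theorem t1664_B07pp_022_s1 : ∃ t, chk3 f_B07pp_022_s1 t 268 289 21 = true := ex3_a k848_B07pp_022_s1 k849_B07pp_022_s1

theorem t1665_B07pp_022_s1 : ∃ t, chk3 f_B07pp_022_s1 t 268 144 21 = true := ex3_b k847_B07pp_022_s1 t1664_B07pp_022_s1

theorem t1666_B07pp_022_s1 : ∃ t, chk3 f_B07pp_022_s1 t 134 144 21 = true := ex3_a t1665_B07pp_022_s1 k850_B07pp_022_s1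

theorem t1667_B07pp_022_s1 : ∃ t, chk3 f_B07pp_022_s1 t 134 72 21 = true := ex3_b t1666_B07pp_022_s1 t1663_B07pp_022_s1

theorem t1668_B07pp_022_s1 : ∃ t, chk3 f_B07pp_022_s1 t 134 36 21 = true := ex3_b t1667_B07pp_022_s1 t1662_B07pp_022_s1

theorem t1669_B07pp_022_s1 : ∃ t, chk3 f_B07pp_022_s1 t 134 18 21 = true := ex3_b t1668_B07pp_022_s1 t1660_B07pp_022_s1

theorem t1670_B07pp_022_s1 : ∃ t, chk3 f_B07pp_022_s1 t 67 18 21 = true := ex3_a t1669_B07pp_022_s1 t1658_B07pp_022_s1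

theorem t1671_B07pp_022_s1 : ∃ t, chk3 f_B07pp_022_s1 t 267 145 21 = true := ex3_a k843_B07pp_022_s1 k844_B07pp_022_s1

theorem t1672_B07pp_022_s1 : ∃ t, chk3 f_B07pp_022_s1 t 133 145 21 = true := ex3_a k842_B07pp_022_s1 t1671_B07pp_022_s1

theorem t1673_B07pp_022_s1 : ∃ t, chk3 f_B07pp_022_s1 t 267 288 43 = true := ex3_a k839_B07pp_022_s1 k840_B07pp_022_s1

theorem t1674_B07pp_022_s1 : ∃ t, chk3 f_B07pp_022_s1 t 267 144 43 = true := ex3_b t1673_B07pp_022_s1 k841_B07pp_022_s1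

theorem t1675_B07pp_022_s1 : ∃ t, chk3 f_B07pp_022_s1 t 133 144 43 = true := ex3_a k838_B07pp_022_s1 t1674_B07pp_022_s1

theorem t1676_B07pp_022_s1 : ∃ t, chk3 f_B07pp_022_s1 t 267 577 85 = true := ex3_a k835_B07pp_022_s1 k836_B07pp_022_s1

theorem t1677_B07pp_022_s1 : ∃ t, chk3 f_B07pp_022_s1 t 534 576 85 = true := ex3_c k832_B07pp_022_s1 k833_B07pp_022_s1

theorem t1678_B07pp_022_s1 : ∃ t, chk3 f_B07pp_022_s1 t 267 576 85 = true := ex3_a t1677_B07pp_022_s1 k834_B07pp_022_s1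

theorem t1679_B07pp_022_s1 : ∃ t, chk3 f_B07pp_022_s1 t 267 288 85 = true := ex3_b t1678_B07pp_022_s1 t1676_B07pp_022_s1

theorem t1680_B07pp_022_s1 : ∃ t, chk3 f_B07pp_022_s1 t 267 144 85 = true := ex3_b t1679_B07pp_022_s1 k837_B07pp_022_s1

theorem t1681_B07pp_022_s1 : ∃ t, chk3 f_B07pp_022_s1 t 1067 1152 85 = true := ex3_a k827_B07pp_022_s1 k828_B07pp_022_s1

theorem t1682_B07pp_022_s1 : ∃ t, chk3 f_B07pp_022_s1 t 1067 576 85 = true := ex3_b t1681_B07pp_022_s1 k829_B07pp_022_s1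

theorem t1683_B07pp_022_s1 : ∃ t, chk3 f_B07pp_022_s1 t 2133 1152 170 = true := ex3_b k823_B07pp_022_s1 k824_B07pp_022_s1

theorem t1684_B07pp_022_s1 : ∃ t, chk3 f_B07pp_022_s1 t 2133 1152 85 = true := ex3_c t1683_B07pp_022_s1 k825_B07pp_022_s1

theorem t1685_B07pp_022_s1 : ∃ t, chk3 f_B07pp_022_s1 t 1066 1152 85 = true := ex3_a k822_B07pp_022_s1 t1684_B07pp_022_s1

theorem t1686_B07pp_022_s1 : ∃ t, chk3 f_B07pp_022_s1 t 1066 576 85 = true := ex3_b t1685_B07pp_022_s1 k826_B07pp_022_s1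

theorem t1687_B07pp_022_s1 : ∃ t, chk3 f_B07pp_022_s1 t 533 576 85 = true := ex3_a t1686_B07pp_022_s1 t1682_B07pp_022_s1

theorem t1688_B07pp_022_s1 : ∃ t, chk3 f_B07pp_022_s1 t 533 288 85 = true := ex3_b t1687_B07pp_022_s1 k830_B07pp_022_s1

theorem t1689_B07pp_022_s1 : ∃ t, chk3 f_B07pp_022_s1 t 533 144 85 = true := ex3_b t1688_B07pp_022_s1 k831_B07pp_022_s1

theorem t1690_B07pp_022_s1 : ∃ t, chk3 f_B07pp_022_s1 t 266 144 85 = true := ex3_a k821_B07pp_022_s1 t1689_B07pp_022_s1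

theorem t1691_B07pp_022_s1 : ∃ t, chk3 f_B07pp_022_s1 t 133 144 85 = true := ex3_a t1690_B07pp_022_s1 t1680_B07pp_022_s1

theorem t1692_B07pp_022_s1 : ∃ t, chk3 f_B07pp_022_s1 t 535 289 84 = true := ex3_b k819_B07pp_022_s1 k820_B07pp_022_s1

theorem t1693_B07pp_022_s1 : ∃ t, chk3 f_B07pp_022_s1 t 534 578 84 = true := ex3_a k816_B07pp_022_s1 k817_B07pp_022_s1

theorem t1694_B07pp_022_s1 : ∃ t, chk3 f_B07pp_022_s1 t 534 289 84 = true := ex3_b t1693_B07pp_022_s1 k818_B07pp_022_s1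

theorem t1695_B07pp_022_s1 : ∃ t, chk3 f_B07pp_022_s1 t 267 289 84 = true := ex3_a t1694_B07pp_022_s1 t1692_B07pp_022_s1

theorem t1696_B07pp_022_s1 : ∃ t, chk3 f_B07pp_022_s1 t 133 289 84 = true := ex3_a k815_B07pp_022_s1 t1695_B07pp_022_s1

theorem t1697_B07pp_022_s1 : ∃ t, chk3 f_B07pp_022_s1 t 1068 1155 84 = true := ex3_c k811_B07pp_022_s1 k812_B07pp_022_s1

theorem t1698_B07pp_022_s1 : ∃ t, chk3 f_B07pp_022_s1 t 1068 577 84 = true := ex3_b k810_B07pp_022_s1 t1697_B07pp_022_s1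

theorem t1699_B07pp_022_s1 : ∃ t, chk3 f_B07pp_022_s1 t 534 577 84 = true := ex3_a t1698_B07pp_022_s1 k813_B07pp_022_s1

theorem t1700_B07pp_022_s1 : ∃ t, chk3 f_B07pp_022_s1 t 534 288 84 = true := ex3_b k809_B07pp_022_s1 t1699_B07pp_022_s1

theorem t1701_B07pp_022_s1 : ∃ t, chk3 f_B07pp_022_s1 t 267 288 84 = true := ex3_a t1700_B07pp_022_s1 k814_B07pp_022_s1

theorem t1702_B07pp_022_s1 : ∃ t, chk3 f_B07pp_022_s1 t 533 577 169 = true := ex3_b k807_B07pp_022_s1 k808_B07pp_022_s1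

theorem t1703_B07pp_022_s1 : ∃ t, chk3 f_B07pp_022_s1 t 533 1154 168 = true := ex3_c k804_B07pp_022_s1 k805_B07pp_022_s1

theorem t1704_B07pp_022_s1 : ∃ t, chk3 f_B07pp_022_s1 t 533 577 168 = true := ex3_b t1703_B07pp_022_s1 k806_B07pp_022_s1

theorem t1705_B07pp_022_s1 : ∃ t, chk3 f_B07pp_022_s1 t 533 577 84 = true := ex3_c t1704_B07pp_022_s1 t1702_B07pp_022_s1

theorem t1706_B07pp_022_s1 : ∃ t, chk3 f_B07pp_022_s1 t 1067 1153 169 = true := ex3_a k802_B07pp_022_s1 k803_B07pp_022_s1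

theorem t1707_B07pp_022_s1 : ∃ t, chk3 f_B07pp_022_s1 t 1067 576 169 = true := ex3_b k801_B07pp_022_s1 t1706_B07pp_022_s1

theorem t1708_B07pp_022_s1 : ∃ t, chk3 f_B07pp_022_s1 t 1067 576 84 = true := ex3_c k800_B07pp_022_s1 t1707_B07pp_022_s1

theorem t1709_B07pp_022_s1 : ∃ t, chk3 f_B07pp_022_s1 t 1066 576 84 = true := ex3_c k798_B07pp_022_s1 k799_B07pp_022_s1

theorem t1710_B07pp_022_s1 : ∃ t, chk3 f_B07pp_022_s1 t 533 576 84 = true := ex3_a t1709_B07pp_022_s1 t1708_B07pp_022_s1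

theorem t1711_B07pp_022_s1 : ∃ t, chk3 f_B07pp_022_s1 t 533 288 84 = true := ex3_b t1710_B07pp_022_s1 t1705_B07pp_022_s1

theorem t1712_B07pp_022_s1 : ∃ t, chk3 f_B07pp_022_s1 t 266 288 84 = true := ex3_a k797_B07pp_022_s1 t1711_B07pp_022_s1

theorem t1713_B07pp_022_s1 : ∃ t, chk3 f_B07pp_022_s1 t 133 288 84 = true := ex3_a t1712_B07pp_022_s1 t1701_B07pp_022_s1

theorem t1714_B07pp_022_s1 : ∃ t, chk3 f_B07pp_022_s1 t 133 144 84 = true := ex3_b t1713_B07pp_022_s1 t1696_B07pp_022_s1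

theorem t1715_B07pp_022_s1 : ∃ t, chk3 f_B07pp_022_s1 t 133 144 42 = true := ex3_c t1714_B07pp_022_s1 t1691_B07pp_022_s1

theorem t1716_B07pp_022_s1 : ∃ t, chk3 f_B07pp_022_s1 t 133 144 21 = true := ex3_c t1715_B07pp_022_s1 t1675_B07pp_022_s1

theorem t1717_B07pp_022_s1 : ∃ t, chk3 f_B07pp_022_s1 t 133 72 21 = true := ex3_b t1716_B07pp_022_s1 t1672_B07pp_022_s1

theorem t1718_B07pp_022_s1 : ∃ t, chk3 f_B07pp_022_s1 t 133 36 21 = true := ex3_b t1717_B07pp_022_s1 k845_B07pp_022_s1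

theorem t1719_B07pp_022_s1 : ∃ t, chk3 f_B07pp_022_s1 t 66 36 21 = true := ex3_a k796_B07pp_022_s1 t1718_B07pp_022_s1

theorem t1720_B07pp_022_s1 : ∃ t, chk3 f_B07pp_022_s1 t 66 18 21 = true := ex3_b t1719_B07pp_022_s1 k846_B07pp_022_s1

theorem t1721_B07pp_022_s1 : ∃ t, chk3 f_B07pp_022_s1 t 33 18 21 = true := ex3_a t1720_B07pp_022_s1 t1670_B07pp_022_s1

theorem t1722_B07pp_022_s1 : ∃ t, chk3 f_B07pp_022_s1 t 135 75 20 = true := ex3_a k794_B07pp_022_s1 k795_B07pp_022_s1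

theorem t1723_B07pp_022_s1 : ∃ t, chk3 f_B07pp_022_s1 t 135 37 20 = true := ex3_b k793_B07pp_022_s1 t1722_B07pp_022_s1

theorem t1724_B07pp_022_s1 : ∃ t, chk3 f_B07pp_022_s1 t 135 146 20 = true := ex3_a k790_B07pp_022_s1 k791_B07pp_022_s1

theorem t1725_B07pp_022_s1 : ∃ t, chk3 f_B07pp_022_s1 t 135 73 20 = true := ex3_b t1724_B07pp_022_s1 k792_B07pp_022_s1

theorem t1726_B07pp_022_s1 : ∃ t, chk3 f_B07pp_022_s1 t 135 145 20 = true := ex3_c k788_B07pp_022_s1 k789_B07pp_022_s1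

theorem t1727_B07pp_022_s1 : ∃ t, chk3 f_B07pp_022_s1 t 135 72 20 = true := ex3_b k787_B07pp_022_s1 t1726_B07pp_022_s1

theorem t1728_B07pp_022_s1 : ∃ t, chk3 f_B07pp_022_s1 t 135 36 20 = true := ex3_b t1727_B07pp_022_s1 t1725_B07pp_022_s1

theorem t1729_B07pp_022_s1 : ∃ t, chk3 f_B07pp_022_s1 t 135 18 20 = true := ex3_b t1728_B07pp_022_s1 t1723_B07pp_022_s1

theorem t1730_B07pp_022_s1 : ∃ t, chk3 f_B07pp_022_s1 t 537 292 40 = true := ex3_b k780_B07pp_022_s1 k781_B07pp_022_s1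

theorem t1731_B07pp_022_s1 : ∃ t, chk3 f_B07pp_022_s1 t 536 584 40 = true := ex3_a k777_B07pp_022_s1 k778_B07pp_022_s1

theorem t1732_B07pp_022_s1 : ∃ t, chk3 f_B07pp_022_s1 t 536 292 40 = true := ex3_b t1731_B07pp_022_s1 k779_B07pp_022_s1

theorem t1733_B07pp_022_s1 : ∃ t, chk3 f_B07pp_022_s1 t 268 292 40 = true := ex3_a t1732_B07pp_022_s1 t1730_B07pp_022_s1

theorem t1734_B07pp_022_s1 : ∃ t, chk3 f_B07pp_022_s1 t 134 292 40 = true := ex3_a t1733_B07pp_022_s1 k782_B07pp_022_s1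

theorem t1735_B07pp_022_s1 : ∃ t, chk3 f_B07pp_022_s1 t 134 146 40 = true := ex3_b t1734_B07pp_022_s1 k783_B07pp_022_s1

theorem t1736_B07pp_022_s1 : ∃ t, chk3 f_B07pp_022_s1 t 134 146 20 = true := ex3_c t1735_B07pp_022_s1 k784_B07pp_022_s1

theorem t1737_B07pp_022_s1 : ∃ t, chk3 f_B07pp_022_s1 t 134 73 20 = true := ex3_b t1736_B07pp_022_s1 k785_B07pp_022_s1

theorem t1738_B07pp_022_s1 : ∃ t, chk3 f_B07pp_022_s1 t 537 291 20 = true := ex3_c k774_B07pp_022_s1 k775_B07pp_022_s1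

theorem t1739_B07pp_022_s1 : ∃ t, chk3 f_B07pp_022_s1 t 1072 583 80 = true := ex3_b k769_B07pp_022_s1 k770_B07pp_022_s1

theorem t1740_B07pp_022_s1 : ∃ t, chk3 f_B07pp_022_s1 t 536 583 80 = true := ex3_a t1739_B07pp_022_s1 k771_B07pp_022_s1

theorem t1741_B07pp_022_s1 : ∃ t, chk3 f_B07pp_022_s1 t 536 583 40 = true := ex3_c t1740_B07pp_022_s1 k772_B07pp_022_s1

theorem t1742_B07pp_022_s1 : ∃ t, chk3 f_B07pp_022_s1 t 536 582 40 = true := ex3_c k767_B07pp_022_s1 k768_B07pp_022_s1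

theorem t1743_B07pp_022_s1 : ∃ t, chk3 f_B07pp_022_s1 t 536 291 40 = true := ex3_b t1742_B07pp_022_s1 t1741_B07pp_022_s1

theorem t1744_B07pp_022_s1 : ∃ t, chk3 f_B07pp_022_s1 t 536 291 20 = true := ex3_c t1743_B07pp_022_s1 k773_B07pp_022_s1

theorem t1745_B07pp_022_s1 : ∃ t, chk3 f_B07pp_022_s1 t 268 291 20 = true := ex3_a t1744_B07pp_022_s1 t1738_B07pp_022_s1

theorem t1746_B07pp_022_s1 : ∃ t, chk3 f_B07pp_022_s1 t 134 291 20 = true := ex3_a t1745_B07pp_022_s1 k776_B07pp_022_s1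

theorem t1747_B07pp_022_s1 : ∃ t, chk3 f_B07pp_022_s1 t 268 290 41 = true := ex3_c k764_B07pp_022_s1 k765_B07pp_022_s1

theorem t1748_B07pp_022_s1 : ∃ t, chk3 f_B07pp_022_s1 t 134 290 41 = true := ex3_a t1747_B07pp_022_s1 k766_B07pp_022_s1

theorem t1749_B07pp_022_s1 : ∃ t, chk3 f_B07pp_022_s1 t 134 290 40 = true := ex3_a k762_B07pp_022_s1 k763_B07pp_022_s1

theorem t1750_B07pp_022_s1 : ∃ t, chk3 f_B07pp_022_s1 t 134 290 20 = true := ex3_c t1749_B07pp_022_s1 t1748_B07pp_022_s1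

theorem t1751_B07pp_022_s1 : ∃ t, chk3 f_B07pp_022_s1 t 134 145 20 = true := ex3_b t1750_B07pp_022_s1 t1746_B07pp_022_s1

theorem t1752_B07pp_022_s1 : ∃ t, chk3 f_B07pp_022_s1 t 134 289 41 = true := ex3_c k760_B07pp_022_s1 k761_B07pp_022_s1

theorem t1753_B07pp_022_s1 : ∃ t, chk3 f_B07pp_022_s1 t 134 144 41 = true := ex3_b k759_B07pp_022_s1 t1752_B07pp_022_s1

theorem t1754_B07pp_022_s1 : ∃ t, chk3 f_B07pp_022_s1 t 134 289 40 = true := ex3_c k757_B07pp_022_s1 k758_B07pp_022_s1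

theorem t1755_B07pp_022_s1 : ∃ t, chk3 f_B07pp_022_s1 t 134 144 40 = true := ex3_b k756_B07pp_022_s1 t1754_B07pp_022_s1

theorem t1756_B07pp_022_s1 : ∃ t, chk3 f_B07pp_022_s1 t 134 144 20 = true := ex3_c t1755_B07pp_022_s1 t1753_B07pp_022_s1

theorem t1757_B07pp_022_s1 : ∃ t, chk3 f_B07pp_022_s1 t 134 72 20 = true := ex3_b t1756_B07pp_022_s1 t1751_B07pp_022_s1

theorem t1758_B07pp_022_s1 : ∃ t, chk3 f_B07pp_022_s1 t 134 36 20 = true := ex3_b t1757_B07pp_022_s1 t1737_B07pp_022_s1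

theorem t1759_B07pp_022_s1 : ∃ t, chk3 f_B07pp_022_s1 t 134 18 20 = true := ex3_b t1758_B07pp_022_s1 k786_B07pp_022_s1

theorem t1760_B07pp_022_s1 : ∃ t, chk3 f_B07pp_022_s1 t 67 18 20 = true := ex3_a t1759_B07pp_022_s1 t1729_B07pp_022_s1

theorem t1761_B07pp_022_s1 : ∃ t, chk3 f_B07pp_022_s1 t 535 145 83 = true := ex3_b k752_B07pp_022_s1 k753_B07pp_022_s1

theorem t1762_B07pp_022_s1 : ∃ t, chk3 f_B07pp_022_s1 t 267 145 83 = true := ex3_a k751_B07pp_022_s1 t1761_B07pp_022_s1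

theorem t1763_B07pp_022_s1 : ∃ t, chk3 f_B07pp_022_s1 t 535 581 82 = true := ex3_a k748_B07pp_022_s1 k749_B07pp_022_s1

theorem t1764_B07pp_022_s1 : ∃ t, chk3 f_B07pp_022_s1 t 1070 1161 82 = true := ex3_c k745_B07pp_022_s1 k746_B07pp_022_s1

theorem t1765_B07pp_022_s1 : ∃ t, chk3 f_B07pp_022_s1 t 1070 580 82 = true := ex3_b k744_B07pp_022_s1 t1764_B07pp_022_s1

theorem t1766_B07pp_022_s1 : ∃ t, chk3 f_B07pp_022_s1 t 535 580 82 = true := ex3_a t1765_B07pp_022_s1 k747_B07pp_022_s1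

theorem t1767_B07pp_022_s1 : ∃ t, chk3 f_B07pp_022_s1 t 535 290 82 = true := ex3_b t1766_B07pp_022_s1 t1763_B07pp_022_s1

theorem t1768_B07pp_022_s1 : ∃ t, chk3 f_B07pp_022_s1 t 535 145 82 = true := ex3_b t1767_B07pp_022_s1 k750_B07pp_022_s1

theorem t1769_B07pp_022_s1 : ∃ t, chk3 f_B07pp_022_s1 t 1069 580 164 = true := ex3_b k739_B07pp_022_s1 k740_B07pp_022_s1

theorem t1770_B07pp_022_s1 : ∃ t, chk3 f_B07pp_022_s1 t 1069 290 164 = true := ex3_b t1769_B07pp_022_s1 k741_B07pp_022_s1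

theorem t1771_B07pp_022_s1 : ∃ t, chk3 f_B07pp_022_s1 t 534 290 164 = true := ex3_a k738_B07pp_022_s1 t1770_B07pp_022_s1

theorem t1772_B07pp_022_s1 : ∃ t, chk3 f_B07pp_022_s1 t 534 290 82 = true := ex3_c t1771_B07pp_022_s1 k742_B07pp_022_s1

theorem t1773_B07pp_022_s1 : ∃ t, chk3 f_B07pp_022_s1 t 534 145 82 = true := ex3_b t1772_B07pp_022_s1 k743_B07pp_022_s1

theorem t1774_B07pp_022_s1 : ∃ t, chk3 f_B07pp_022_s1 t 267 145 82 = true := ex3_a t1773_B07pp_022_s1 t1768_B07pp_022_s1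

theorem t1775_B07pp_022_s1 : ∃ t, chk3 f_B07pp_022_s1 t 267 145 41 = true := ex3_c t1774_B07pp_022_s1 t1762_B07pp_022_s1

theorem t1776_B07pp_022_s1 : ∃ t, chk3 f_B07pp_022_s1 t 1071 582 81 = true := ex3_b k735_B07pp_022_s1 k736_B07pp_022_s1

theorem t1777_B07pp_022_s1 : ∃ t, chk3 f_B07pp_022_s1 t 535 582 81 = true := ex3_a k734_B07pp_022_s1 t1776_B07pp_022_s1

theorem t1778_B07pp_022_s1 : ∃ t, chk3 f_B07pp_022_s1 t 535 291 81 = true := ex3_b t1777_B07pp_022_s1 k737_B07pp_022_s1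

theorem t1779_B07pp_022_s1 : ∃ t, chk3 f_B07pp_022_s1 t 1070 1163 81 = true := ex3_c k731_B07pp_022_s1 k732_B07pp_022_s1

theorem t1780_B07pp_022_s1 : ∃ t, chk3 f_B07pp_022_s1 t 1070 1162 81 = true := ex3_c k729_B07pp_022_s1 k730_B07pp_022_s1

theorem t1781_B07pp_022_s1 : ∃ t, chk3 f_B07pp_022_s1 t 1070 581 81 = true := ex3_b t1780_B07pp_022_s1 t1779_B07pp_022_s1

theorem t1782_B07pp_022_s1 : ∃ t, chk3 f_B07pp_022_s1 t 535 581 81 = true := ex3_a t1781_B07pp_022_s1 k733_B07pp_022_s1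

theorem t1783_B07pp_022_s1 : ∃ t, chk3 f_B07pp_022_s1 t 535 290 81 = true := ex3_b k728_B07pp_022_s1 t1782_B07pp_022_s1

theorem t1784_B07pp_022_s1 : ∃ t, chk3 f_B07pp_022_s1 t 535 145 81 = true := ex3_b t1783_B07pp_022_s1 t1778_B07pp_022_s1

theorem t1785_B07pp_022_s1 : ∃ t, chk3 f_B07pp_022_s1 t 534 290 81 = true := ex3_c k725_B07pp_022_s1 k726_B07pp_022_s1

theorem t1786_B07pp_022_s1 : ∃ t, chk3 f_B07pp_022_s1 t 534 145 81 = true := ex3_b t1785_B07pp_022_s1 k727_B07pp_022_s1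

theorem t1787_B07pp_022_s1 : ∃ t, chk3 f_B07pp_022_s1 t 267 145 81 = true := ex3_a t1786_B07pp_022_s1 t1784_B07pp_022_s1

theorem t1788_B07pp_022_s1 : ∃ t, chk3 f_B07pp_022_s1 t 535 583 160 = true := ex3_b k722_B07pp_022_s1 k723_B07pp_022_s1

theorem t1789_B07pp_022_s1 : ∃ t, chk3 f_B07pp_022_s1 t 535 583 80 = true := ex3_c t1788_B07pp_022_s1 k724_B07pp_022_s1

theorem t1790_B07pp_022_s1 : ∃ t, chk3 f_B07pp_022_s1 t 535 582 161 = true := ex3_a k720_B07pp_022_s1 k721_B07pp_022_s1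

theorem t1791_B07pp_022_s1 : ∃ t, chk3 f_B07pp_022_s1 t 535 582 80 = true := ex3_c k719_B07pp_022_s1 t1790_B07pp_022_s1

theorem t1792_B07pp_022_s1 : ∃ t, chk3 f_B07pp_022_s1 t 535 291 80 = true := ex3_b t1791_B07pp_022_s1 t1789_B07pp_022_s1

theorem t1793_B07pp_022_s1 : ∃ t, chk3 f_B07pp_022_s1 t 535 145 80 = true := ex3_b k718_B07pp_022_s1 t1792_B07pp_022_s1

theorem t1794_B07pp_022_s1 : ∃ t, chk3 f_B07pp_022_s1 t 267 145 80 = true := ex3_a k717_B07pp_022_s1 t1793_B07pp_022_s1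

theorem t1795_B07pp_022_s1 : ∃ t, chk3 f_B07pp_022_s1 t 267 145 40 = true := ex3_c t1794_B07pp_022_s1 t1787_B07pp_022_s1

theorem t1796_B07pp_022_s1 : ∃ t, chk3 f_B07pp_022_s1 t 267 145 20 = true := ex3_c t1795_B07pp_022_s1 t1775_B07pp_022_s1

theorem t1797_B07pp_022_s1 : ∃ t, chk3 f_B07pp_022_s1 t 133 145 20 = true := ex3_a k716_B07pp_022_s1 t1796_B07pp_022_s1

theorem t1798_B07pp_022_s1 : ∃ t, chk3 f_B07pp_022_s1 t 535 289 83 = true := ex3_b k714_B07pp_022_s1 k715_B07pp_022_s1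

theorem t1799_B07pp_022_s1 : ∃ t, chk3 f_B07pp_022_s1 t 1069 1158 83 = true := ex3_c k711_B07pp_022_s1 k712_B07pp_022_s1

theorem t1800_B07pp_022_s1 : ∃ t, chk3 f_B07pp_022_s1 t 1069 579 83 = true := ex3_b t1799_B07pp_022_s1 k713_B07pp_022_s1

theorem t1801_B07pp_022_s1 : ∃ t, chk3 f_B07pp_022_s1 t 534 579 83 = true := ex3_a k710_B07pp_022_s1 t1800_B07pp_022_s1

theorem t1802_B07pp_022_s1 : ∃ t, chk3 f_B07pp_022_s1 t 2136 578 167 = true := ex3_b k706_B07pp_022_s1 k707_B07pp_022_s1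

theorem t1803_B07pp_022_s1 : ∃ t, chk3 f_B07pp_022_s1 t 1068 578 167 = true := ex3_a t1802_B07pp_022_s1 k708_B07pp_022_s1

theorem t1804_B07pp_022_s1 : ∃ t, chk3 f_B07pp_022_s1 t 1068 578 166 = true := ex3_b k704_B07pp_022_s1 k705_B07pp_022_s1

theorem t1805_B07pp_022_s1 : ∃ t, chk3 f_B07pp_022_s1 t 1068 578 83 = true := ex3_c t1804_B07pp_022_s1 t1803_B07pp_022_s1

theorem t1806_B07pp_022_s1 : ∃ t, chk3 f_B07pp_022_s1 t 534 578 83 = true := ex3_a t1805_B07pp_022_s1 k709_B07pp_022_s1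

theorem t1807_B07pp_022_s1 : ∃ t, chk3 f_B07pp_022_s1 t 534 289 83 = true := ex3_b t1806_B07pp_022_s1 t1801_B07pp_022_s1

theorem t1808_B07pp_022_s1 : ∃ t, chk3 f_B07pp_022_s1 t 267 289 83 = true := ex3_a t1807_B07pp_022_s1 t1798_B07pp_022_s1

theorem t1809_B07pp_022_s1 : ∃ t, chk3 f_B07pp_022_s1 t 1069 579 165 = true := ex3_b k701_B07pp_022_s1 k702_B07pp_022_s1

theorem t1810_B07pp_022_s1 : ∃ t, chk3 f_B07pp_022_s1 t 534 579 165 = true := ex3_a k700_B07pp_022_s1 t1809_B07pp_022_s1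

theorem t1811_B07pp_022_s1 : ∃ t, chk3 f_B07pp_022_s1 t 534 579 82 = true := ex3_c k699_B07pp_022_s1 t1810_B07pp_022_s1

theorem t1812_B07pp_022_s1 : ∃ t, chk3 f_B07pp_022_s1 t 534 289 82 = true := ex3_b k698_B07pp_022_s1 t1811_B07pp_022_s1

theorem t1813_B07pp_022_s1 : ∃ t, chk3 f_B07pp_022_s1 t 267 289 82 = true := ex3_a t1812_B07pp_022_s1 k703_B07pp_022_s1

theorem t1814_B07pp_022_s1 : ∃ t, chk3 f_B07pp_022_s1 t 267 289 41 = true := ex3_c t1813_B07pp_022_s1 t1808_B07pp_022_s1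

theorem t1815_B07pp_022_s1 : ∃ t, chk3 f_B07pp_022_s1 t 133 289 41 = true := ex3_a k697_B07pp_022_s1 t1814_B07pp_022_s1

theorem t1816_B07pp_022_s1 : ∃ t, chk3 f_B07pp_022_s1 t 533 577 83 = true := ex3_c k694_B07pp_022_s1 k695_B07pp_022_s1

theorem t1817_B07pp_022_s1 : ∃ t, chk3 f_B07pp_022_s1 t 266 577 83 = true := ex3_a k693_B07pp_022_s1 t1816_B07pp_022_s1

theorem t1818_B07pp_022_s1 : ∃ t, chk3 f_B07pp_022_s1 t 133 577 83 = true := ex3_a t1817_B07pp_022_s1 k696_B07pp_022_s1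

theorem t1819_B07pp_022_s1 : ∃ t, chk3 f_B07pp_022_s1 t 133 288 83 = true := ex3_b k692_B07pp_022_s1 t1818_B07pp_022_s1

theorem t1820_B07pp_022_s1 : ∃ t, chk3 f_B07pp_022_s1 t 133 288 41 = true := ex3_c k691_B07pp_022_s1 t1819_B07pp_022_s1

theorem t1821_B07pp_022_s1 : ∃ t, chk3 f_B07pp_022_s1 t 133 144 41 = true := ex3_b t1820_B07pp_022_s1 t1815_B07pp_022_s1

theorem t1822_B07pp_022_s1 : ∃ t, chk3 f_B07pp_022_s1 t 133 289 40 = true := ex3_c k689_B07pp_022_s1 k690_B07pp_022_s1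

theorem t1823_B07pp_022_s1 : ∃ t, chk3 f_B07pp_022_s1 t 133 288 81 = true := ex3_c k687_B07pp_022_s1 k688_B07pp_022_s1

theorem t1824_B07pp_022_s1 : ∃ t, chk3 f_B07pp_022_s1 t 534 288 80 = true := ex3_b k684_B07pp_022_s1 k685_B07pp_022_s1

theorem t1825_B07pp_022_s1 : ∃ t, chk3 f_B07pp_022_s1 t 267 288 80 = true := ex3_a t1824_B07pp_022_s1 k686_B07pp_022_s1

theorem t1826_B07pp_022_s1 : ∃ t, chk3 f_B07pp_022_s1 t 133 288 80 = true := ex3_a k683_B07pp_022_s1 t1825_B07pp_022_s1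

theorem t1827_B07pp_022_s1 : ∃ t, chk3 f_B07pp_022_s1 t 133 288 40 = true := ex3_c t1826_B07pp_022_s1 t1823_B07pp_022_s1

theorem t1828_B07pp_022_s1 : ∃ t, chk3 f_B07pp_022_s1 t 133 144 40 = true := ex3_b t1827_B07pp_022_s1 t1822_B07pp_022_s1

theorem t1829_B07pp_022_s1 : ∃ t, chk3 f_B07pp_022_s1 t 133 144 20 = true := ex3_c t1828_B07pp_022_s1 t1821_B07pp_022_s1

theorem t1830_B07pp_022_s1 : ∃ t, chk3 f_B07pp_022_s1 t 133 72 20 = true := ex3_b t1829_B07pp_022_s1 t1797_B07pp_022_s1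

theorem t1831_B07pp_022_s1 : ∃ t, chk3 f_B07pp_022_s1 t 133 36 20 = true := ex3_b t1830_B07pp_022_s1 k754_B07pp_022_s1

theorem t1832_B07pp_022_s1 : ∃ t, chk3 f_B07pp_022_s1 t 66 36 20 = true := ex3_a k682_B07pp_022_s1 t1831_B07pp_022_s1

theorem t1833_B07pp_022_s1 : ∃ t, chk3 f_B07pp_022_s1 t 66 18 20 = true := ex3_b t1832_B07pp_022_s1 k755_B07pp_022_s1

theorem t1834_B07pp_022_s1 : ∃ t, chk3 f_B07pp_022_s1 t 33 18 20 = true := ex3_a t1833_B07pp_022_s1 t1760_B07pp_022_s1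

theorem t1835_B07pp_022_s1 : ∃ t, chk3 f_B07pp_022_s1 t 33 18 10 = true := ex3_c t1834_B07pp_022_s1 t1721_B07pp_022_s1

theorem t1836_B07pp_022_s1 : ∃ t, chk3 f_B07pp_022_s1 t 33 18 5 = true := ex3_c t1835_B07pp_022_s1 t1654_B07pp_022_s1

theorem t1837_B07pp_022_s1 : ∃ t, chk3 f_B07pp_022_s1 t 270 75 9 = true := ex3_b k679_B07pp_022_s1 k680_B07pp_022_s1

theorem t1838_B07pp_022_s1 : ∃ t, chk3 f_B07pp_022_s1 t 135 75 9 = true := ex3_a t1837_B07pp_022_s1 k681_B07pp_022_s1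

theorem t1839_B07pp_022_s1 : ∃ t, chk3 f_B07pp_022_s1 t 135 148 19 = true := ex3_a k676_B07pp_022_s1 k677_B07pp_022_s1

theorem t1840_B07pp_022_s1 : ∃ t, chk3 f_B07pp_022_s1 t 135 74 19 = true := ex3_b t1839_B07pp_022_s1 k678_B07pp_022_s1

theorem t1841_B07pp_022_s1 : ∃ t, chk3 f_B07pp_022_s1 t 271 149 36 = true := ex3_a k673_B07pp_022_s1 k674_B07pp_022_s1

theorem t1842_B07pp_022_s1 : ∃ t, chk3 f_B07pp_022_s1 t 270 298 36 = true := ex3_a k670_B07pp_022_s1 k671_B07pp_022_s1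

theorem t1843_B07pp_022_s1 : ∃ t, chk3 f_B07pp_022_s1 t 270 149 36 = true := ex3_b t1842_B07pp_022_s1 k672_B07pp_022_s1

theorem t1844_B07pp_022_s1 : ∃ t, chk3 f_B07pp_022_s1 t 135 149 36 = true := ex3_a t1843_B07pp_022_s1 t1841_B07pp_022_s1

theorem t1845_B07pp_022_s1 : ∃ t, chk3 f_B07pp_022_s1 t 135 149 18 = true := ex3_c t1844_B07pp_022_s1 k675_B07pp_022_s1

theorem t1846_B07pp_022_s1 : ∃ t, chk3 f_B07pp_022_s1 t 135 297 37 = true := ex3_a k668_B07pp_022_s1 k669_B07pp_022_s1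

theorem t1847_B07pp_022_s1 : ∃ t, chk3 f_B07pp_022_s1 t 270 296 37 = true := ex3_c k665_B07pp_022_s1 k666_B07pp_022_s1

theorem t1848_B07pp_022_s1 : ∃ t, chk3 f_B07pp_022_s1 t 135 296 37 = true := ex3_a t1847_B07pp_022_s1 k667_B07pp_022_s1

theorem t1849_B07pp_022_s1 : ∃ t, chk3 f_B07pp_022_s1 t 135 148 37 = true := ex3_b t1848_B07pp_022_s1 t1846_B07pp_022_s1

theorem t1850_B07pp_022_s1 : ∃ t, chk3 f_B07pp_022_s1 t 540 595 36 = true := ex3_a k661_B07pp_022_s1 k662_B07pp_022_s1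

theorem t1851_B07pp_022_s1 : ∃ t, chk3 f_B07pp_022_s1 t 540 297 36 = true := ex3_b k660_B07pp_022_s1 t1850_B07pp_022_s1

theorem t1852_B07pp_022_s1 : ∃ t, chk3 f_B07pp_022_s1 t 270 297 36 = true := ex3_a t1851_B07pp_022_s1 k663_B07pp_022_s1

theorem t1853_B07pp_022_s1 : ∃ t, chk3 f_B07pp_022_s1 t 270 148 36 = true := ex3_b k659_B07pp_022_s1 t1852_B07pp_022_s1

theorem t1854_B07pp_022_s1 : ∃ t, chk3 f_B07pp_022_s1 t 135 148 36 = true := ex3_a t1853_B07pp_022_s1 k664_B07pp_022_s1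

theorem t1855_B07pp_022_s1 : ∃ t, chk3 f_B07pp_022_s1 t 135 148 18 = true := ex3_c t1854_B07pp_022_s1 t1849_B07pp_022_s1

theorem t1856_B07pp_022_s1 : ∃ t, chk3 f_B07pp_022_s1 t 135 74 18 = true := ex3_b t1855_B07pp_022_s1 t1845_B07pp_022_s1

theorem t1857_B07pp_022_s1 : ∃ t, chk3 f_B07pp_022_s1 t 135 74 9 = true := ex3_c t1856_B07pp_022_s1 t1840_B07pp_022_s1

theorem t1858_B07pp_022_s1 : ∃ t, chk3 f_B07pp_022_s1 t 135 37 9 = true := ex3_b t1857_B07pp_022_s1 t1838_B07pp_022_s1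

theorem t1859_B07pp_022_s1 : ∃ t, chk3 f_B07pp_022_s1 t 270 295 19 = true := ex3_a k656_B07pp_022_s1 k657_B07pp_022_s1

theorem t1860_B07pp_022_s1 : ∃ t, chk3 f_B07pp_022_s1 t 270 147 19 = true := ex3_b k655_B07pp_022_s1 t1859_B07pp_022_s1

theorem t1861_B07pp_022_s1 : ∃ t, chk3 f_B07pp_022_s1 t 135 147 19 = true := ex3_a t1860_B07pp_022_s1 k658_B07pp_022_s1

theorem t1862_B07pp_022_s1 : ∃ t, chk3 f_B07pp_022_s1 t 271 147 18 = true := ex3_c k653_B07pp_022_s1 k654_B07pp_022_s1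

theorem t1863_B07pp_022_s1 : ∃ t, chk3 f_B07pp_022_s1 t 270 147 18 = true := ex3_c k651_B07pp_022_s1 k652_B07pp_022_s1

theorem t1864_B07pp_022_s1 : ∃ t, chk3 f_B07pp_022_s1 t 135 147 18 = true := ex3_a t1863_B07pp_022_s1 t1862_B07pp_022_s1

theorem t1865_B07pp_022_s1 : ∃ t, chk3 f_B07pp_022_s1 t 135 147 9 = true := ex3_c t1864_B07pp_022_s1 t1861_B07pp_022_s1

theorem t1866_B07pp_022_s1 : ∃ t, chk3 f_B07pp_022_s1 t 135 146 38 = true := ex3_b k648_B07pp_022_s1 k649_B07pp_022_s1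

theorem t1867_B07pp_022_s1 : ∃ t, chk3 f_B07pp_022_s1 t 135 146 19 = true := ex3_c t1866_B07pp_022_s1 k650_B07pp_022_s1

theorem t1868_B07pp_022_s1 : ∃ t, chk3 f_B07pp_022_s1 t 135 146 9 = true := ex3_c k647_B07pp_022_s1 t1867_B07pp_022_s1

theorem t1869_B07pp_022_s1 : ∃ t, chk3 f_B07pp_022_s1 t 135 73 9 = true := ex3_b t1868_B07pp_022_s1 t1865_B07pp_022_s1

theorem t1870_B07pp_022_s1 : ∃ t, chk3 f_B07pp_022_s1 t 135 72 9 = true := ex3_c k645_B07pp_022_s1 k646_B07pp_022_s1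

theorem t1871_B07pp_022_s1 : ∃ t, chk3 f_B07pp_022_s1 t 135 36 9 = true := ex3_b t1870_B07pp_022_s1 t1869_B07pp_022_s1

theorem t1872_B07pp_022_s1 : ∃ t, chk3 f_B07pp_022_s1 t 135 18 9 = true := ex3_b t1871_B07pp_022_s1 t1858_B07pp_022_s1

theorem t1873_B07pp_022_s1 : ∃ t, chk3 f_B07pp_022_s1 t 134 74 19 = true := ex3_a k642_B07pp_022_s1 k643_B07pp_022_s1

theorem t1874_B07pp_022_s1 : ∃ t, chk3 f_B07pp_022_s1 t 134 37 19 = true := ex3_b t1873_B07pp_022_s1 k644_B07pp_022_s1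

theorem t1875_B07pp_022_s1 : ∃ t, chk3 f_B07pp_022_s1 t 539 295 38 = true := ex3_b k639_B07pp_022_s1 k640_B07pp_022_s1

theorem t1876_B07pp_022_s1 : ∃ t, chk3 f_B07pp_022_s1 t 269 295 38 = true := ex3_a k638_B07pp_022_s1 t1875_B07pp_022_s1

theorem t1877_B07pp_022_s1 : ∃ t, chk3 f_B07pp_022_s1 t 269 295 19 = true := ex3_c t1876_B07pp_022_s1 k641_B07pp_022_s1

theorem t1878_B07pp_022_s1 : ∃ t, chk3 f_B07pp_022_s1 t 538 589 76 = true := ex3_c k633_B07pp_022_s1 k634_B07pp_022_s1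

theorem t1879_B07pp_022_s1 : ∃ t, chk3 f_B07pp_022_s1 t 538 589 38 = true := ex3_c t1878_B07pp_022_s1 k635_B07pp_022_s1

theorem t1880_B07pp_022_s1 : ∃ t, chk3 f_B07pp_022_s1 t 538 588 38 = true := ex3_c k631_B07pp_022_s1 k632_B07pp_022_s1

theorem t1881_B07pp_022_s1 : ∃ t, chk3 f_B07pp_022_s1 t 538 294 38 = true := ex3_b t1880_B07pp_022_s1 t1879_B07pp_022_s1

theorem t1882_B07pp_022_s1 : ∃ t, chk3 f_B07pp_022_s1 t 538 294 19 = true := ex3_c t1881_B07pp_022_s1 k636_B07pp_022_s1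

theorem t1883_B07pp_022_s1 : ∃ t, chk3 f_B07pp_022_s1 t 269 294 19 = true := ex3_a t1882_B07pp_022_s1 k637_B07pp_022_s1

theorem t1884_B07pp_022_s1 : ∃ t, chk3 f_B07pp_022_s1 t 269 147 19 = true := ex3_b t1883_B07pp_022_s1 t1877_B07pp_022_s1

theorem t1885_B07pp_022_s1 : ∃ t, chk3 f_B07pp_022_s1 t 269 293 39 = true := ex3_c k629_B07pp_022_s1 k630_B07pp_022_s1

theorem t1886_B07pp_022_s1 : ∃ t, chk3 f_B07pp_022_s1 t 269 293 19 = true := ex3_c k628_B07pp_022_s1 t1885_B07pp_022_s1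

theorem t1887_B07pp_022_s1 : ∃ t, chk3 f_B07pp_022_s1 t 269 146 19 = true := ex3_b k627_B07pp_022_s1 t1886_B07pp_022_s1

theorem t1888_B07pp_022_s1 : ∃ t, chk3 f_B07pp_022_s1 t 269 73 19 = true := ex3_b t1887_B07pp_022_s1 t1884_B07pp_022_s1

theorem t1889_B07pp_022_s1 : ∃ t, chk3 f_B07pp_022_s1 t 537 146 79 = true := ex3_b k624_B07pp_022_s1 k625_B07pp_022_s1

theorem t1890_B07pp_022_s1 : ∃ t, chk3 f_B07pp_022_s1 t 537 73 79 = true := ex3_b t1889_B07pp_022_s1 k626_B07pp_022_s1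

theorem t1891_B07pp_022_s1 : ∃ t, chk3 f_B07pp_022_s1 t 1073 585 79 = true := ex3_b k620_B07pp_022_s1 k621_B07pp_022_s1

theorem t1892_B07pp_022_s1 : ∃ t, chk3 f_B07pp_022_s1 t 536 585 79 = true := ex3_a k619_B07pp_022_s1 t1891_B07pp_022_s1

theorem t1893_B07pp_022_s1 : ∃ t, chk3 f_B07pp_022_s1 t 1072 1169 79 = true := ex3_b k616_B07pp_022_s1 k617_B07pp_022_s1

theorem t1894_B07pp_022_s1 : ∃ t, chk3 f_B07pp_022_s1 t 1072 584 79 = true := ex3_b k615_B07pp_022_s1 t1893_B07pp_022_s1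

theorem t1895_B07pp_022_s1 : ∃ t, chk3 f_B07pp_022_s1 t 536 584 79 = true := ex3_a t1894_B07pp_022_s1 k618_B07pp_022_s1

theorem t1896_B07pp_022_s1 : ∃ t, chk3 f_B07pp_022_s1 t 536 292 79 = true := ex3_b t1895_B07pp_022_s1 t1892_B07pp_022_s1

theorem t1897_B07pp_022_s1 : ∃ t, chk3 f_B07pp_022_s1 t 536 146 79 = true := ex3_b t1896_B07pp_022_s1 k622_B07pp_022_s1

theorem t1898_B07pp_022_s1 : ∃ t, chk3 f_B07pp_022_s1 t 536 73 79 = true := ex3_b t1897_B07pp_022_s1 k623_B07pp_022_s1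

theorem t1899_B07pp_022_s1 : ∃ t, chk3 f_B07pp_022_s1 t 268 73 79 = true := ex3_a t1898_B07pp_022_s1 t1890_B07pp_022_s1

theorem t1900_B07pp_022_s1 : ∃ t, chk3 f_B07pp_022_s1 t 268 587 78 = true := ex3_c k612_B07pp_022_s1 k613_B07pp_022_s1

theorem t1901_B07pp_022_s1 : ∃ t, chk3 f_B07pp_022_s1 t 537 586 78 = true := ex3_c k610_B07pp_022_s1 k611_B07pp_022_s1

theorem t1902_B07pp_022_s1 : ∃ t, chk3 f_B07pp_022_s1 t 1073 1172 78 = true := ex3_b k607_B07pp_022_s1 k608_B07pp_022_s1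

theorem t1903_B07pp_022_s1 : ∃ t, chk3 f_B07pp_022_s1 t 1073 586 78 = true := ex3_b t1902_B07pp_022_s1 k609_B07pp_022_s1

theorem t1904_B07pp_022_s1 : ∃ t, chk3 f_B07pp_022_s1 t 536 586 78 = true := ex3_a k606_B07pp_022_s1 t1903_B07pp_022_s1

theorem t1905_B07pp_022_s1 : ∃ t, chk3 f_B07pp_022_s1 t 268 586 78 = true := ex3_a t1904_B07pp_022_s1 t1901_B07pp_022_s1

theorem t1906_B07pp_022_s1 : ∃ t, chk3 f_B07pp_022_s1 t 268 293 78 = true := ex3_b t1905_B07pp_022_s1 t1900_B07pp_022_s1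

theorem t1907_B07pp_022_s1 : ∃ t, chk3 f_B07pp_022_s1 t 536 585 157 = true := ex3_a k603_B07pp_022_s1 k604_B07pp_022_s1

theorem t1908_B07pp_022_s1 : ∃ t, chk3 f_B07pp_022_s1 t 536 585 78 = true := ex3_c k602_B07pp_022_s1 t1907_B07pp_022_s1

theorem t1909_B07pp_022_s1 : ∃ t, chk3 f_B07pp_022_s1 t 536 292 78 = true := ex3_b k601_B07pp_022_s1 t1908_B07pp_022_s1

theorem t1910_B07pp_022_s1 : ∃ t, chk3 f_B07pp_022_s1 t 268 292 78 = true := ex3_a t1909_B07pp_022_s1 k605_B07pp_022_s1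

theorem t1911_B07pp_022_s1 : ∃ t, chk3 f_B07pp_022_s1 t 268 146 78 = true := ex3_b t1910_B07pp_022_s1 t1906_B07pp_022_s1

theorem t1912_B07pp_022_s1 : ∃ t, chk3 f_B07pp_022_s1 t 268 73 78 = true := ex3_b t1911_B07pp_022_s1 k614_B07pp_022_s1

theorem t1913_B07pp_022_s1 : ∃ t, chk3 f_B07pp_022_s1 t 268 73 39 = true := ex3_c t1912_B07pp_022_s1 t1899_B07pp_022_s1

theorem t1914_B07pp_022_s1 : ∃ t, chk3 f_B07pp_022_s1 t 1075 588 77 = true := ex3_b k597_B07pp_022_s1 k598_B07pp_022_s1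

theorem t1915_B07pp_022_s1 : ∃ t, chk3 f_B07pp_022_s1 t 1075 294 77 = true := ex3_b t1914_B07pp_022_s1 k599_B07pp_022_s1

theorem t1916_B07pp_022_s1 : ∃ t, chk3 f_B07pp_022_s1 t 1075 147 77 = true := ex3_b t1915_B07pp_022_s1 k600_B07pp_022_s1

theorem t1917_B07pp_022_s1 : ∃ t, chk3 f_B07pp_022_s1 t 537 147 77 = true := ex3_a k596_B07pp_022_s1 t1916_B07pp_022_s1

theorem t1918_B07pp_022_s1 : ∃ t, chk3 f_B07pp_022_s1 t 268 147 77 = true := ex3_a k595_B07pp_022_s1 t1917_B07pp_022_s1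

theorem t1919_B07pp_022_s1 : ∃ t, chk3 f_B07pp_022_s1 t 1074 1175 77 = true := ex3_b k592_B07pp_022_s1 k593_B07pp_022_s1

theorem t1920_B07pp_022_s1 : ∃ t, chk3 f_B07pp_022_s1 t 1074 587 77 = true := ex3_b k591_B07pp_022_s1 t1919_B07pp_022_s1

theorem t1921_B07pp_022_s1 : ∃ t, chk3 f_B07pp_022_s1 t 537 587 77 = true := ex3_a t1920_B07pp_022_s1 k594_B07pp_022_s1

theorem t1922_B07pp_022_s1 : ∃ t, chk3 f_B07pp_022_s1 t 537 293 77 = true := ex3_b k590_B07pp_022_s1 t1921_B07pp_022_s1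

theorem t1923_B07pp_022_s1 : ∃ t, chk3 f_B07pp_022_s1 t 536 293 77 = true := ex3_c k588_B07pp_022_s1 k589_B07pp_022_s1

theorem t1924_B07pp_022_s1 : ∃ t, chk3 f_B07pp_022_s1 t 268 293 77 = true := ex3_a t1923_B07pp_022_s1 t1922_B07pp_022_s1

theorem t1925_B07pp_022_s1 : ∃ t, chk3 f_B07pp_022_s1 t 268 146 77 = true := ex3_b k587_B07pp_022_s1 t1924_B07pp_022_s1

theorem t1926_B07pp_022_s1 : ∃ t, chk3 f_B07pp_022_s1 t 268 73 77 = true := ex3_b t1925_B07pp_022_s1 t1918_B07pp_022_s1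

theorem t1927_B07pp_022_s1 : ∃ t, chk3 f_B07pp_022_s1 t 1075 294 153 = true := ex3_b k584_B07pp_022_s1 k585_B07pp_022_s1

theorem t1928_B07pp_022_s1 : ∃ t, chk3 f_B07pp_022_s1 t 1075 147 153 = true := ex3_b t1927_B07pp_022_s1 k586_B07pp_022_s1

theorem t1929_B07pp_022_s1 : ∃ t, chk3 f_B07pp_022_s1 t 537 147 153 = true := ex3_a k583_B07pp_022_s1 t1928_B07pp_022_s1

theorem t1930_B07pp_022_s1 : ∃ t, chk3 f_B07pp_022_s1 t 537 294 152 = true := ex3_b k580_B07pp_022_s1 k581_B07pp_022_s1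

theorem t1931_B07pp_022_s1 : ∃ t, chk3 f_B07pp_022_s1 t 537 147 152 = true := ex3_b t1930_B07pp_022_s1 k582_B07pp_022_s1

theorem t1932_B07pp_022_s1 : ∃ t, chk3 f_B07pp_022_s1 t 537 147 76 = true := ex3_c t1931_B07pp_022_s1 t1929_B07pp_022_s1

theorem t1933_B07pp_022_s1 : ∃ t, chk3 f_B07pp_022_s1 t 268 147 76 = true := ex3_a k579_B07pp_022_s1 t1932_B07pp_022_s1

theorem t1934_B07pp_022_s1 : ∃ t, chk3 f_B07pp_022_s1 t 268 146 76 = true := ex3_a k577_B07pp_022_s1 k578_B07pp_022_s1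

theorem t1935_B07pp_022_s1 : ∃ t, chk3 f_B07pp_022_s1 t 268 73 76 = true := ex3_b t1934_B07pp_022_s1 t1933_B07pp_022_s1

theorem t1936_B07pp_022_s1 : ∃ t, chk3 f_B07pp_022_s1 t 268 73 38 = true := ex3_c t1935_B07pp_022_s1 t1926_B07pp_022_s1

theorem t1937_B07pp_022_s1 : ∃ t, chk3 f_B07pp_022_s1 t 268 73 19 = true := ex3_c t1936_B07pp_022_s1 t1913_B07pp_022_s1

theorem t1938_B07pp_022_s1 : ∃ t, chk3 f_B07pp_022_s1 t 134 73 19 = true := ex3_a t1937_B07pp_022_s1 t1888_B07pp_022_s1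

theorem t1939_B07pp_022_s1 : ∃ t, chk3 f_B07pp_022_s1 t 134 291 39 = true := ex3_a k575_B07pp_022_s1 k576_B07pp_022_s1

theorem t1940_B07pp_022_s1 : ∃ t, chk3 f_B07pp_022_s1 t 134 290 39 = true := ex3_a k573_B07pp_022_s1 k574_B07pp_022_s1

theorem t1941_B07pp_022_s1 : ∃ t, chk3 f_B07pp_022_s1 t 134 145 39 = true := ex3_b t1940_B07pp_022_s1 t1939_B07pp_022_s1

theorem t1942_B07pp_022_s1 : ∃ t, chk3 f_B07pp_022_s1 t 134 144 39 = true := ex3_b k571_B07pp_022_s1 k572_B07pp_022_s1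

theorem t1943_B07pp_022_s1 : ∃ t, chk3 f_B07pp_022_s1 t 134 72 39 = true := ex3_b t1942_B07pp_022_s1 t1941_B07pp_022_s1

theorem t1944_B07pp_022_s1 : ∃ t, chk3 f_B07pp_022_s1 t 536 290 38 = true := ex3_c k566_B07pp_022_s1 k567_B07pp_022_s1

theorem t1945_B07pp_022_s1 : ∃ t, chk3 f_B07pp_022_s1 t 536 145 38 = true := ex3_b t1944_B07pp_022_s1 k568_B07pp_022_s1

theorem t1946_B07pp_022_s1 : ∃ t, chk3 f_B07pp_022_s1 t 268 145 38 = true := ex3_a t1945_B07pp_022_s1 k569_B07pp_022_s1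

theorem t1947_B07pp_022_s1 : ∃ t, chk3 f_B07pp_022_s1 t 134 145 38 = true := ex3_a t1946_B07pp_022_s1 k570_B07pp_022_s1

theorem t1948_B07pp_022_s1 : ∃ t, chk3 f_B07pp_022_s1 t 268 289 38 = true := ex3_c k563_B07pp_022_s1 k564_B07pp_022_s1

theorem t1949_B07pp_022_s1 : ∃ t, chk3 f_B07pp_022_s1 t 268 144 38 = true := ex3_b k562_B07pp_022_s1 t1948_B07pp_022_s1

theorem t1950_B07pp_022_s1 : ∃ t, chk3 f_B07pp_022_s1 t 134 144 38 = true := ex3_a t1949_B07pp_022_s1 k565_B07pp_022_s1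

theorem t1951_B07pp_022_s1 : ∃ t, chk3 f_B07pp_022_s1 t 134 72 38 = true := ex3_b t1950_B07pp_022_s1 t1947_B07pp_022_s1

theorem t1952_B07pp_022_s1 : ∃ t, chk3 f_B07pp_022_s1 t 134 72 19 = true := ex3_c t1951_B07pp_022_s1 t1943_B07pp_022_s1

theorem t1953_B07pp_022_s1 : ∃ t, chk3 f_B07pp_022_s1 t 134 36 19 = true := ex3_b t1952_B07pp_022_s1 t1938_B07pp_022_s1

theorem t1954_B07pp_022_s1 : ∃ t, chk3 f_B07pp_022_s1 t 134 18 19 = true := ex3_b t1953_B07pp_022_s1 t1874_B07pp_022_s1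

theorem t1955_B07pp_022_s1 : ∃ t, chk3 f_B07pp_022_s1 t 1078 592 37 = true := ex3_c k555_B07pp_022_s1 k556_B07pp_022_s1

theorem t1956_B07pp_022_s1 : ∃ t, chk3 f_B07pp_022_s1 t 539 592 37 = true := ex3_a t1955_B07pp_022_s1 k557_B07pp_022_s1

theorem t1957_B07pp_022_s1 : ∃ t, chk3 f_B07pp_022_s1 t 539 296 37 = true := ex3_b t1956_B07pp_022_s1 k558_B07pp_022_s1

theorem t1958_B07pp_022_s1 : ∃ t, chk3 f_B07pp_022_s1 t 1077 592 74 = true := ex3_b k551_B07pp_022_s1 k552_B07pp_022_s1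

theorem t1959_B07pp_022_s1 : ∃ t, chk3 f_B07pp_022_s1 t 538 592 74 = true := ex3_a k550_B07pp_022_s1 t1958_B07pp_022_s1

theorem t1960_B07pp_022_s1 : ∃ t, chk3 f_B07pp_022_s1 t 538 592 37 = true := ex3_c t1959_B07pp_022_s1 k553_B07pp_022_s1

theorem t1961_B07pp_022_s1 : ∃ t, chk3 f_B07pp_022_s1 t 538 296 37 = true := ex3_b t1960_B07pp_022_s1 k554_B07pp_022_s1

theorem t1962_B07pp_022_s1 : ∃ t, chk3 f_B07pp_022_s1 t 269 296 37 = true := ex3_a t1961_B07pp_022_s1 t1957_B07pp_022_s1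

theorem t1963_B07pp_022_s1 : ∃ t, chk3 f_B07pp_022_s1 t 269 148 37 = true := ex3_b t1962_B07pp_022_s1 k559_B07pp_022_s1

theorem t1964_B07pp_022_s1 : ∃ t, chk3 f_B07pp_022_s1 t 539 594 73 = true := ex3_a k547_B07pp_022_s1 k548_B07pp_022_s1

theorem t1965_B07pp_022_s1 : ∃ t, chk3 f_B07pp_022_s1 t 539 297 73 = true := ex3_b t1964_B07pp_022_s1 k549_B07pp_022_s1

theorem t1966_B07pp_022_s1 : ∃ t, chk3 f_B07pp_022_s1 t 269 297 73 = true := ex3_a k546_B07pp_022_s1 t1965_B07pp_022_s1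

theorem t1967_B07pp_022_s1 : ∃ t, chk3 f_B07pp_022_s1 t 1079 595 72 = true := ex3_b k544_B07pp_022_s1 k545_B07pp_022_s1

theorem t1968_B07pp_022_s1 : ∃ t, chk3 f_B07pp_022_s1 t 539 595 72 = true := ex3_a k543_B07pp_022_s1 t1967_B07pp_022_s1

theorem t1969_B07pp_022_s1 : ∃ t, chk3 f_B07pp_022_s1 t 539 594 72 = true := ex3_b k541_B07pp_022_s1 k542_B07pp_022_s1

theorem t1970_B07pp_022_s1 : ∃ t, chk3 f_B07pp_022_s1 t 539 297 72 = true := ex3_b t1969_B07pp_022_s1 t1968_B07pp_022_s1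

theorem t1971_B07pp_022_s1 : ∃ t, chk3 f_B07pp_022_s1 t 269 297 72 = true := ex3_a k540_B07pp_022_s1 t1970_B07pp_022_s1

theorem t1972_B07pp_022_s1 : ∃ t, chk3 f_B07pp_022_s1 t 269 297 36 = true := ex3_c t1971_B07pp_022_s1 t1966_B07pp_022_s1

theorem t1973_B07pp_022_s1 : ∃ t, chk3 f_B07pp_022_s1 t 1078 593 73 = true := ex3_b k537_B07pp_022_s1 k538_B07pp_022_s1

theorem t1974_B07pp_022_s1 : ∃ t, chk3 f_B07pp_022_s1 t 539 593 73 = true := ex3_a t1973_B07pp_022_s1 k539_B07pp_022_s1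

theorem t1975_B07pp_022_s1 : ∃ t, chk3 f_B07pp_022_s1 t 539 296 73 = true := ex3_b k536_B07pp_022_s1 t1974_B07pp_022_s1

theorem t1976_B07pp_022_s1 : ∃ t, chk3 f_B07pp_022_s1 t 539 296 36 = true := ex3_c k535_B07pp_022_s1 t1975_B07pp_022_s1

theorem t1977_B07pp_022_s1 : ∃ t, chk3 f_B07pp_022_s1 t 538 296 73 = true := ex3_b k533_B07pp_022_s1 k534_B07pp_022_s1

theorem t1978_B07pp_022_s1 : ∃ t, chk3 f_B07pp_022_s1 t 538 296 36 = true := ex3_c k532_B07pp_022_s1 t1977_B07pp_022_s1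

theorem t1979_B07pp_022_s1 : ∃ t, chk3 f_B07pp_022_s1 t 269 296 36 = true := ex3_a t1978_B07pp_022_s1 t1976_B07pp_022_s1

theorem t1980_B07pp_022_s1 : ∃ t, chk3 f_B07pp_022_s1 t 269 148 36 = true := ex3_b t1979_B07pp_022_s1 t1972_B07pp_022_s1

theorem t1981_B07pp_022_s1 : ∃ t, chk3 f_B07pp_022_s1 t 269 148 18 = true := ex3_c t1980_B07pp_022_s1 t1963_B07pp_022_s1

theorem t1982_B07pp_022_s1 : ∃ t, chk3 f_B07pp_022_s1 t 269 74 18 = true := ex3_b t1981_B07pp_022_s1 k560_B07pp_022_s1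

theorem t1983_B07pp_022_s1 : ∃ t, chk3 f_B07pp_022_s1 t 269 37 18 = true := ex3_b t1982_B07pp_022_s1 k561_B07pp_022_s1

theorem t1984_B07pp_022_s1 : ∃ t, chk3 f_B07pp_022_s1 t 538 591 75 = true := ex3_a k529_B07pp_022_s1 k530_B07pp_022_s1

theorem t1985_B07pp_022_s1 : ∃ t, chk3 f_B07pp_022_s1 t 538 1183 74 = true := ex3_a k527_B07pp_022_s1 k528_B07pp_022_s1

theorem t1986_B07pp_022_s1 : ∃ t, chk3 f_B07pp_022_s1 t 538 591 74 = true := ex3_b k526_B07pp_022_s1 t1985_B07pp_022_s1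

theorem t1987_B07pp_022_s1 : ∃ t, chk3 f_B07pp_022_s1 t 538 591 37 = true := ex3_c t1986_B07pp_022_s1 t1984_B07pp_022_s1

theorem t1988_B07pp_022_s1 : ∃ t, chk3 f_B07pp_022_s1 t 269 591 37 = true := ex3_a t1987_B07pp_022_s1 k531_B07pp_022_s1

theorem t1989_B07pp_022_s1 : ∃ t, chk3 f_B07pp_022_s1 t 1076 590 75 = true := ex3_b k522_B07pp_022_s1 k523_B07pp_022_s1

theorem t1990_B07pp_022_s1 : ∃ t, chk3 f_B07pp_022_s1 t 538 590 75 = true := ex3_a t1989_B07pp_022_s1 k524_B07pp_022_s1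

theorem t1991_B07pp_022_s1 : ∃ t, chk3 f_B07pp_022_s1 t 538 590 37 = true := ex3_c k521_B07pp_022_s1 t1990_B07pp_022_s1

theorem t1992_B07pp_022_s1 : ∃ t, chk3 f_B07pp_022_s1 t 269 590 37 = true := ex3_a t1991_B07pp_022_s1 k525_B07pp_022_s1

theorem t1993_B07pp_022_s1 : ∃ t, chk3 f_B07pp_022_s1 t 269 295 37 = true := ex3_b t1992_B07pp_022_s1 t1988_B07pp_022_s1

theorem t1994_B07pp_022_s1 : ∃ t, chk3 f_B07pp_022_s1 t 269 147 37 = true := ex3_b k520_B07pp_022_s1 t1993_B07pp_022_s1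

theorem t1995_B07pp_022_s1 : ∃ t, chk3 f_B07pp_022_s1 t 538 147 36 = true := ex3_a k517_B07pp_022_s1 k518_B07pp_022_s1

theorem t1996_B07pp_022_s1 : ∃ t, chk3 f_B07pp_022_s1 t 269 147 36 = true := ex3_a t1995_B07pp_022_s1 k519_B07pp_022_s1

theorem t1997_B07pp_022_s1 : ∃ t, chk3 f_B07pp_022_s1 t 269 147 18 = true := ex3_c t1996_B07pp_022_s1 t1994_B07pp_022_s1

theorem t1998_B07pp_022_s1 : ∃ t, chk3 f_B07pp_022_s1 t 269 146 37 = true := ex3_b k515_B07pp_022_s1 k516_B07pp_022_s1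

theorem t1999_B07pp_022_s1 : ∃ t, chk3 f_B07pp_022_s1 t 538 293 36 = true := ex3_c k512_B07pp_022_s1 k513_B07pp_022_s1

theorem t2000_B07pp_022_s1 : ∃ t, chk3 f_B07pp_022_s1 t 269 293 36 = true := ex3_a t1999_B07pp_022_s1 k514_B07pp_022_s1

theorem t2001_B07pp_022_s1 : ∃ t, chk3 f_B07pp_022_s1 t 269 146 36 = true := ex3_b k511_B07pp_022_s1 t2000_B07pp_022_s1

theorem t2002_B07pp_022_s1 : ∃ t, chk3 f_B07pp_022_s1 t 269 146 18 = true := ex3_c t2001_B07pp_022_s1 t1998_B07pp_022_s1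

theorem t2003_B07pp_022_s1 : ∃ t, chk3 f_B07pp_022_s1 t 269 73 18 = true := ex3_b t2002_B07pp_022_s1 t1997_B07pp_022_s1

theorem t2004_B07pp_022_s1 : ∃ t, chk3 f_B07pp_022_s1 t 538 145 18 = true := ex3_c k508_B07pp_022_s1 k509_B07pp_022_s1

theorem t2005_B07pp_022_s1 : ∃ t, chk3 f_B07pp_022_s1 t 538 72 18 = true := ex3_b k507_B07pp_022_s1 t2004_B07pp_022_s1

theorem t2006_B07pp_022_s1 : ∃ t, chk3 f_B07pp_022_s1 t 269 72 18 = true := ex3_a t2005_B07pp_022_s1 k510_B07pp_022_s1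

theorem t2007_B07pp_022_s1 : ∃ t, chk3 f_B07pp_022_s1 t 269 36 18 = true := ex3_b t2006_B07pp_022_s1 t2003_B07pp_022_s1

theorem t2008_B07pp_022_s1 : ∃ t, chk3 f_B07pp_022_s1 t 269 18 18 = true := ex3_b t2007_B07pp_022_s1 t1983_B07pp_022_s1

theorem t2009_B07pp_022_s1 : ∃ t, chk3 f_B07pp_022_s1 t 537 294 75 = true := ex3_b k503_B07pp_022_s1 k504_B07pp_022_s1

theorem t2010_B07pp_022_s1 : ∃ t, chk3 f_B07pp_022_s1 t 537 147 75 = true := ex3_b t2009_B07pp_022_s1 k505_B07pp_022_s1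

theorem t2011_B07pp_022_s1 : ∃ t, chk3 f_B07pp_022_s1 t 268 147 75 = true := ex3_a k502_B07pp_022_s1 t2010_B07pp_022_s1

theorem t2012_B07pp_022_s1 : ∃ t, chk3 f_B07pp_022_s1 t 268 73 75 = true := ex3_b k501_B07pp_022_s1 t2011_B07pp_022_s1

theorem t2013_B07pp_022_s1 : ∃ t, chk3 f_B07pp_022_s1 t 537 146 74 = true := ex3_b k498_B07pp_022_s1 k499_B07pp_022_s1

theorem t2014_B07pp_022_s1 : ∃ t, chk3 f_B07pp_022_s1 t 268 146 74 = true := ex3_a k497_B07pp_022_s1 t2013_B07pp_022_s1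

theorem t2015_B07pp_022_s1 : ∃ t, chk3 f_B07pp_022_s1 t 268 73 74 = true := ex3_b t2014_B07pp_022_s1 k500_B07pp_022_s1

theorem t2016_B07pp_022_s1 : ∃ t, chk3 f_B07pp_022_s1 t 268 73 37 = true := ex3_c t2015_B07pp_022_s1 t2012_B07pp_022_s1

theorem t2017_B07pp_022_s1 : ∃ t, chk3 f_B07pp_022_s1 t 268 585 73 = true := ex3_a k493_B07pp_022_s1 k494_B07pp_022_s1

theorem t2018_B07pp_022_s1 : ∃ t, chk3 f_B07pp_022_s1 t 536 1168 73 = true := ex3_c k489_B07pp_022_s1 k490_B07pp_022_s1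

theorem t2019_B07pp_022_s1 : ∃ t, chk3 f_B07pp_022_s1 t 536 584 73 = true := ex3_b t2018_B07pp_022_s1 k491_B07pp_022_s1

theorem t2020_B07pp_022_s1 : ∃ t, chk3 f_B07pp_022_s1 t 268 584 73 = true := ex3_a t2019_B07pp_022_s1 k492_B07pp_022_s1

theorem t2021_B07pp_022_s1 : ∃ t, chk3 f_B07pp_022_s1 t 268 292 73 = true := ex3_b t2020_B07pp_022_s1 t2017_B07pp_022_s1

theorem t2022_B07pp_022_s1 : ∃ t, chk3 f_B07pp_022_s1 t 268 146 73 = true := ex3_b t2021_B07pp_022_s1 k495_B07pp_022_s1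

theorem t2023_B07pp_022_s1 : ∃ t, chk3 f_B07pp_022_s1 t 268 73 73 = true := ex3_b t2022_B07pp_022_s1 k496_B07pp_022_s1

theorem t2024_B07pp_022_s1 : ∃ t, chk3 f_B07pp_022_s1 t 537 586 72 = true := ex3_a k485_B07pp_022_s1 k486_B07pp_022_s1

theorem t2025_B07pp_022_s1 : ∃ t, chk3 f_B07pp_022_s1 t 537 293 72 = true := ex3_b t2024_B07pp_022_s1 k487_B07pp_022_s1

theorem t2026_B07pp_022_s1 : ∃ t, chk3 f_B07pp_022_s1 t 537 146 72 = true := ex3_b k484_B07pp_022_s1 t2025_B07pp_022_s1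

theorem t2027_B07pp_022_s1 : ∃ t, chk3 f_B07pp_022_s1 t 537 73 72 = true := ex3_b t2026_B07pp_022_s1 k488_B07pp_022_s1

theorem t2028_B07pp_022_s1 : ∃ t, chk3 f_B07pp_022_s1 t 536 585 145 = true := ex3_a k480_B07pp_022_s1 k481_B07pp_022_s1

theorem t2029_B07pp_022_s1 : ∃ t, chk3 f_B07pp_022_s1 t 536 585 144 = true := ex3_b k478_B07pp_022_s1 k479_B07pp_022_s1

theorem t2030_B07pp_022_s1 : ∃ t, chk3 f_B07pp_022_s1 t 536 585 72 = true := ex3_c t2029_B07pp_022_s1 t2028_B07pp_022_s1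

theorem t2031_B07pp_022_s1 : ∃ t, chk3 f_B07pp_022_s1 t 1072 1169 72 = true := ex3_a k475_B07pp_022_s1 k476_B07pp_022_s1

theorem t2032_B07pp_022_s1 : ∃ t, chk3 f_B07pp_022_s1 t 1072 584 72 = true := ex3_b k474_B07pp_022_s1 t2031_B07pp_022_s1

theorem t2033_B07pp_022_s1 : ∃ t, chk3 f_B07pp_022_s1 t 536 584 72 = true := ex3_a t2032_B07pp_022_s1 k477_B07pp_022_s1

theorem t2034_B07pp_022_s1 : ∃ t, chk3 f_B07pp_022_s1 t 536 292 72 = true := ex3_b t2033_B07pp_022_s1 t2030_B07pp_022_s1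

theorem t2035_B07pp_022_s1 : ∃ t, chk3 f_B07pp_022_s1 t 536 146 72 = true := ex3_b t2034_B07pp_022_s1 k482_B07pp_022_s1

theorem t2036_B07pp_022_s1 : ∃ t, chk3 f_B07pp_022_s1 t 536 73 72 = true := ex3_b t2035_B07pp_022_s1 k483_B07pp_022_s1

theorem t2037_B07pp_022_s1 : ∃ t, chk3 f_B07pp_022_s1 t 268 73 72 = true := ex3_a t2036_B07pp_022_s1 t2027_B07pp_022_s1

theorem t2038_B07pp_022_s1 : ∃ t, chk3 f_B07pp_022_s1 t 268 73 36 = true := ex3_c t2037_B07pp_022_s1 t2023_B07pp_022_s1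

theorem t2039_B07pp_022_s1 : ∃ t, chk3 f_B07pp_022_s1 t 268 73 18 = true := ex3_c t2038_B07pp_022_s1 t2016_B07pp_022_s1

theorem t2040_B07pp_022_s1 : ∃ t, chk3 f_B07pp_022_s1 t 537 291 37 = true := ex3_c k472_B07pp_022_s1 k473_B07pp_022_s1

theorem t2041_B07pp_022_s1 : ∃ t, chk3 f_B07pp_022_s1 t 536 583 74 = true := ex3_b k469_B07pp_022_s1 k470_B07pp_022_s1

theorem t2042_B07pp_022_s1 : ∃ t, chk3 f_B07pp_022_s1 t 536 583 37 = true := ex3_c t2041_B07pp_022_s1 k471_B07pp_022_s1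

theorem t2043_B07pp_022_s1 : ∃ t, chk3 f_B07pp_022_s1 t 536 582 37 = true := ex3_c k467_B07pp_022_s1 k468_B07pp_022_s1

theorem t2044_B07pp_022_s1 : ∃ t, chk3 f_B07pp_022_s1 t 536 291 37 = true := ex3_b t2043_B07pp_022_s1 t2042_B07pp_022_s1

theorem t2045_B07pp_022_s1 : ∃ t, chk3 f_B07pp_022_s1 t 268 291 37 = true := ex3_a t2044_B07pp_022_s1 t2040_B07pp_022_s1

theorem t2046_B07pp_022_s1 : ∃ t, chk3 f_B07pp_022_s1 t 268 290 37 = true := ex3_a k465_B07pp_022_s1 k466_B07pp_022_s1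

theorem t2047_B07pp_022_s1 : ∃ t, chk3 f_B07pp_022_s1 t 268 145 37 = true := ex3_b t2046_B07pp_022_s1 t2045_B07pp_022_s1

theorem t2048_B07pp_022_s1 : ∃ t, chk3 f_B07pp_022_s1 t 1072 583 73 = true := ex3_b k461_B07pp_022_s1 k462_B07pp_022_s1

theorem t2049_B07pp_022_s1 : ∃ t, chk3 f_B07pp_022_s1 t 1072 583 36 = true := ex3_c k460_B07pp_022_s1 t2048_B07pp_022_s1

theorem t2050_B07pp_022_s1 : ∃ t, chk3 f_B07pp_022_s1 t 1072 291 36 = true := ex3_b k459_B07pp_022_s1 t2049_B07pp_022_s1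

theorem t2051_B07pp_022_s1 : ∃ t, chk3 f_B07pp_022_s1 t 536 291 36 = true := ex3_a t2050_B07pp_022_s1 k463_B07pp_022_s1

theorem t2052_B07pp_022_s1 : ∃ t, chk3 f_B07pp_022_s1 t 536 145 36 = true := ex3_b k458_B07pp_022_s1 t2051_B07pp_022_s1

theorem t2053_B07pp_022_s1 : ∃ t, chk3 f_B07pp_022_s1 t 268 145 36 = true := ex3_a t2052_B07pp_022_s1 k464_B07pp_022_s1

theorem t2054_B07pp_022_s1 : ∃ t, chk3 f_B07pp_022_s1 t 268 145 18 = true := ex3_c t2053_B07pp_022_s1 t2047_B07pp_022_s1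

theorem t2055_B07pp_022_s1 : ∃ t, chk3 f_B07pp_022_s1 t 268 72 18 = true := ex3_b k457_B07pp_022_s1 t2054_B07pp_022_s1

theorem t2056_B07pp_022_s1 : ∃ t, chk3 f_B07pp_022_s1 t 268 36 18 = true := ex3_b t2055_B07pp_022_s1 t2039_B07pp_022_s1

theorem t2057_B07pp_022_s1 : ∃ t, chk3 f_B07pp_022_s1 t 268 18 18 = true := ex3_b t2056_B07pp_022_s1 k506_B07pp_022_s1

theorem t2058_B07pp_022_s1 : ∃ t, chk3 f_B07pp_022_s1 t 134 18 18 = true := ex3_a t2057_B07pp_022_s1 t2008_B07pp_022_s1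

theorem t2059_B07pp_022_s1 : ∃ t, chk3 f_B07pp_022_s1 t 134 18 9 = true := ex3_c t2058_B07pp_022_s1 t1954_B07pp_022_s1

theorem t2060_B07pp_022_s1 : ∃ t, chk3 f_B07pp_022_s1 t 67 18 9 = true := ex3_a t2059_B07pp_022_s1 t1872_B07pp_022_s1

theorem t2061_B07pp_022_s1 : ∃ t, chk3 f_B07pp_022_s1 t 271 75 35 = true := ex3_b k455_B07pp_022_s1 k456_B07pp_022_s1

theorem t2062_B07pp_022_s1 : ∃ t, chk3 f_B07pp_022_s1 t 135 75 35 = true := ex3_a k454_B07pp_022_s1 t2061_B07pp_022_s1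

theorem t2063_B07pp_022_s1 : ∃ t, chk3 f_B07pp_022_s1 t 542 150 69 = true := ex3_b k450_B07pp_022_s1 k451_B07pp_022_s1

theorem t2064_B07pp_022_s1 : ∃ t, chk3 f_B07pp_022_s1 t 271 150 69 = true := ex3_a t2063_B07pp_022_s1 k452_B07pp_022_s1

theorem t2065_B07pp_022_s1 : ∃ t, chk3 f_B07pp_022_s1 t 271 75 69 = true := ex3_b t2064_B07pp_022_s1 k453_B07pp_022_s1

theorem t2066_B07pp_022_s1 : ∃ t, chk3 f_B07pp_022_s1 t 270 300 69 = true := ex3_a k446_B07pp_022_s1 k447_B07pp_022_s1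

theorem t2067_B07pp_022_s1 : ∃ t, chk3 f_B07pp_022_s1 t 270 150 69 = true := ex3_b t2066_B07pp_022_s1 k448_B07pp_022_s1

theorem t2068_B07pp_022_s1 : ∃ t, chk3 f_B07pp_022_s1 t 270 75 69 = true := ex3_b t2067_B07pp_022_s1 k449_B07pp_022_s1

theorem t2069_B07pp_022_s1 : ∃ t, chk3 f_B07pp_022_s1 t 135 75 69 = true := ex3_a t2068_B07pp_022_s1 t2065_B07pp_022_s1

theorem t2070_B07pp_022_s1 : ∃ t, chk3 f_B07pp_022_s1 t 271 301 68 = true := ex3_a k443_B07pp_022_s1 k444_B07pp_022_s1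

theorem t2071_B07pp_022_s1 : ∃ t, chk3 f_B07pp_022_s1 t 271 150 68 = true := ex3_b k442_B07pp_022_s1 t2070_B07pp_022_s1

theorem t2072_B07pp_022_s1 : ∃ t, chk3 f_B07pp_022_s1 t 271 75 68 = true := ex3_b t2071_B07pp_022_s1 k445_B07pp_022_s1

theorem t2073_B07pp_022_s1 : ∃ t, chk3 f_B07pp_022_s1 t 541 600 68 = true := ex3_b k437_B07pp_022_s1 k438_B07pp_022_s1

theorem t2074_B07pp_022_s1 : ∃ t, chk3 f_B07pp_022_s1 t 541 300 68 = true := ex3_b t2073_B07pp_022_s1 k439_B07pp_022_s1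

theorem t2075_B07pp_022_s1 : ∃ t, chk3 f_B07pp_022_s1 t 541 150 68 = true := ex3_b t2074_B07pp_022_s1 k440_B07pp_022_s1

theorem t2076_B07pp_022_s1 : ∃ t, chk3 f_B07pp_022_s1 t 541 75 68 = true := ex3_b t2075_B07pp_022_s1 k441_B07pp_022_s1

theorem t2077_B07pp_022_s1 : ∃ t, chk3 f_B07pp_022_s1 t 270 75 68 = true := ex3_a k436_B07pp_022_s1 t2076_B07pp_022_s1

theorem t2078_B07pp_022_s1 : ∃ t, chk3 f_B07pp_022_s1 t 135 75 68 = true := ex3_a t2077_B07pp_022_s1 t2072_B07pp_022_s1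

theorem t2079_B07pp_022_s1 : ∃ t, chk3 f_B07pp_022_s1 t 135 75 34 = true := ex3_c t2078_B07pp_022_s1 t2069_B07pp_022_s1

theorem t2080_B07pp_022_s1 : ∃ t, chk3 f_B07pp_022_s1 t 135 75 17 = true := ex3_c t2079_B07pp_022_s1 t2062_B07pp_022_s1

theorem t2081_B07pp_022_s1 : ∃ t, chk3 f_B07pp_022_s1 t 543 604 33 = true := ex3_a k432_B07pp_022_s1 k433_B07pp_022_s1

theorem t2082_B07pp_022_s1 : ∃ t, chk3 f_B07pp_022_s1 t 543 302 33 = true := ex3_b t2081_B07pp_022_s1 k434_B07pp_022_s1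

theorem t2083_B07pp_022_s1 : ∃ t, chk3 f_B07pp_022_s1 t 271 302 33 = true := ex3_a k431_B07pp_022_s1 t2082_B07pp_022_s1

theorem t2084_B07pp_022_s1 : ∃ t, chk3 f_B07pp_022_s1 t 271 151 33 = true := ex3_b t2083_B07pp_022_s1 k435_B07pp_022_s1

theorem t2085_B07pp_022_s1 : ∃ t, chk3 f_B07pp_022_s1 t 542 603 33 = true := ex3_c k428_B07pp_022_s1 k429_B07pp_022_s1

theorem t2086_B07pp_022_s1 : ∃ t, chk3 f_B07pp_022_s1 t 542 602 67 = true := ex3_a k426_B07pp_022_s1 k427_B07pp_022_s1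

theorem t2087_B07pp_022_s1 : ∃ t, chk3 f_B07pp_022_s1 t 542 602 33 = true := ex3_c k425_B07pp_022_s1 t2086_B07pp_022_s1

theorem t2088_B07pp_022_s1 : ∃ t, chk3 f_B07pp_022_s1 t 542 301 33 = true := ex3_b t2087_B07pp_022_s1 t2085_B07pp_022_s1

theorem t2089_B07pp_022_s1 : ∃ t, chk3 f_B07pp_022_s1 t 271 301 33 = true := ex3_a t2088_B07pp_022_s1 k430_B07pp_022_s1

theorem t2090_B07pp_022_s1 : ∃ t, chk3 f_B07pp_022_s1 t 271 150 33 = true := ex3_b k424_B07pp_022_s1 t2089_B07pp_022_s1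

theorem t2091_B07pp_022_s1 : ∃ t, chk3 f_B07pp_022_s1 t 271 75 33 = true := ex3_b t2090_B07pp_022_s1 t2084_B07pp_022_s1

theorem t2092_B07pp_022_s1 : ∃ t, chk3 f_B07pp_022_s1 t 541 300 33 = true := ex3_c k420_B07pp_022_s1 k421_B07pp_022_s1

theorem t2093_B07pp_022_s1 : ∃ t, chk3 f_B07pp_022_s1 t 541 150 33 = true := ex3_b t2092_B07pp_022_s1 k422_B07pp_022_s1

theorem t2094_B07pp_022_s1 : ∃ t, chk3 f_B07pp_022_s1 t 541 75 33 = true := ex3_b t2093_B07pp_022_s1 k423_B07pp_022_s1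

theorem t2095_B07pp_022_s1 : ∃ t, chk3 f_B07pp_022_s1 t 270 75 33 = true := ex3_a k419_B07pp_022_s1 t2094_B07pp_022_s1

theorem t2096_B07pp_022_s1 : ∃ t, chk3 f_B07pp_022_s1 t 135 75 33 = true := ex3_a t2095_B07pp_022_s1 t2091_B07pp_022_s1

theorem t2097_B07pp_022_s1 : ∃ t, chk3 f_B07pp_022_s1 t 271 605 65 = true := ex3_a k416_B07pp_022_s1 k417_B07pp_022_s1

theorem t2098_B07pp_022_s1 : ∃ t, chk3 f_B07pp_022_s1 t 271 302 65 = true := ex3_b k415_B07pp_022_s1 t2097_B07pp_022_s1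

theorem t2099_B07pp_022_s1 : ∃ t, chk3 f_B07pp_022_s1 t 271 151 65 = true := ex3_b t2098_B07pp_022_s1 k418_B07pp_022_s1

theorem t2100_B07pp_022_s1 : ∃ t, chk3 f_B07pp_022_s1 t 271 75 65 = true := ex3_b k414_B07pp_022_s1 t2099_B07pp_022_s1

theorem t2101_B07pp_022_s1 : ∃ t, chk3 f_B07pp_022_s1 t 135 75 65 = true := ex3_a k413_B07pp_022_s1 t2100_B07pp_022_s1

theorem t2102_B07pp_022_s1 : ∃ t, chk3 f_B07pp_022_s1 t 271 303 64 = true := ex3_b k411_B07pp_022_s1 k412_B07pp_022_s1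

theorem t2103_B07pp_022_s1 : ∃ t, chk3 f_B07pp_022_s1 t 271 151 64 = true := ex3_b k410_B07pp_022_s1 t2102_B07pp_022_s1

theorem t2104_B07pp_022_s1 : ∃ t, chk3 f_B07pp_022_s1 t 271 75 64 = true := ex3_b k409_B07pp_022_s1 t2103_B07pp_022_s1

theorem t2105_B07pp_022_s1 : ∃ t, chk3 f_B07pp_022_s1 t 135 75 64 = true := ex3_a k408_B07pp_022_s1 t2104_B07pp_022_s1

theorem t2106_B07pp_022_s1 : ∃ t, chk3 f_B07pp_022_s1 t 135 75 32 = true := ex3_c t2105_B07pp_022_s1 t2101_B07pp_022_s1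

theorem t2107_B07pp_022_s1 : ∃ t, chk3 f_B07pp_022_s1 t 135 75 16 = true := ex3_c t2106_B07pp_022_s1 t2096_B07pp_022_s1

theorem t2108_B07pp_022_s1 : ∃ t, chk3 f_B07pp_022_s1 t 135 75 8 = true := ex3_c t2107_B07pp_022_s1 t2080_B07pp_022_s1

theorem t2109_B07pp_022_s1 : ∃ t, chk3 f_B07pp_022_s1 t 271 299 35 = true := ex3_c k406_B07pp_022_s1 k407_B07pp_022_s1

theorem t2110_B07pp_022_s1 : ∃ t, chk3 f_B07pp_022_s1 t 271 149 35 = true := ex3_b k405_B07pp_022_s1 t2109_B07pp_022_s1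

theorem t2111_B07pp_022_s1 : ∃ t, chk3 f_B07pp_022_s1 t 541 299 70 = true := ex3_b k402_B07pp_022_s1 k403_B07pp_022_s1

theorem t2112_B07pp_022_s1 : ∃ t, chk3 f_B07pp_022_s1 t 1081 598 70 = true := ex3_b k399_B07pp_022_s1 k400_B07pp_022_s1

theorem t2113_B07pp_022_s1 : ∃ t, chk3 f_B07pp_022_s1 t 540 598 70 = true := ex3_a k398_B07pp_022_s1 t2112_B07pp_022_s1

theorem t2114_B07pp_022_s1 : ∃ t, chk3 f_B07pp_022_s1 t 540 299 70 = true := ex3_b t2113_B07pp_022_s1 k401_B07pp_022_s1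

theorem t2115_B07pp_022_s1 : ∃ t, chk3 f_B07pp_022_s1 t 270 299 70 = true := ex3_a t2114_B07pp_022_s1 t2111_B07pp_022_s1

theorem t2116_B07pp_022_s1 : ∃ t, chk3 f_B07pp_022_s1 t 270 299 35 = true := ex3_c t2115_B07pp_022_s1 k404_B07pp_022_s1

theorem t2117_B07pp_022_s1 : ∃ t, chk3 f_B07pp_022_s1 t 540 597 71 = true := ex3_a k395_B07pp_022_s1 k396_B07pp_022_s1

theorem t2118_B07pp_022_s1 : ∃ t, chk3 f_B07pp_022_s1 t 540 597 70 = true := ex3_b k393_B07pp_022_s1 k394_B07pp_022_s1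

theorem t2119_B07pp_022_s1 : ∃ t, chk3 f_B07pp_022_s1 t 540 597 35 = true := ex3_c t2118_B07pp_022_s1 t2117_B07pp_022_s1

theorem t2120_B07pp_022_s1 : ∃ t, chk3 f_B07pp_022_s1 t 270 597 35 = true := ex3_a t2119_B07pp_022_s1 k397_B07pp_022_s1

theorem t2121_B07pp_022_s1 : ∃ t, chk3 f_B07pp_022_s1 t 1080 596 71 = true := ex3_b k389_B07pp_022_s1 k390_B07pp_022_s1

theorem t2122_B07pp_022_s1 : ∃ t, chk3 f_B07pp_022_s1 t 540 596 71 = true := ex3_a t2121_B07pp_022_s1 k391_B07pp_022_s1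

theorem t2123_B07pp_022_s1 : ∃ t, chk3 f_B07pp_022_s1 t 540 596 35 = true := ex3_c k388_B07pp_022_s1 t2122_B07pp_022_s1

theorem t2124_B07pp_022_s1 : ∃ t, chk3 f_B07pp_022_s1 t 270 596 35 = true := ex3_a t2123_B07pp_022_s1 k392_B07pp_022_s1

theorem t2125_B07pp_022_s1 : ∃ t, chk3 f_B07pp_022_s1 t 270 298 35 = true := ex3_b t2124_B07pp_022_s1 t2120_B07pp_022_s1

theorem t2126_B07pp_022_s1 : ∃ t, chk3 f_B07pp_022_s1 t 270 149 35 = true := ex3_b t2125_B07pp_022_s1 t2116_B07pp_022_s1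

theorem t2127_B07pp_022_s1 : ∃ t, chk3 f_B07pp_022_s1 t 135 149 35 = true := ex3_a t2126_B07pp_022_s1 t2110_B07pp_022_s1

theorem t2128_B07pp_022_s1 : ∃ t, chk3 f_B07pp_022_s1 t 1082 599 69 = true := ex3_b k384_B07pp_022_s1 k385_B07pp_022_s1

theorem t2129_B07pp_022_s1 : ∃ t, chk3 f_B07pp_022_s1 t 541 599 69 = true := ex3_a t2128_B07pp_022_s1 k386_B07pp_022_s1

theorem t2130_B07pp_022_s1 : ∃ t, chk3 f_B07pp_022_s1 t 541 299 69 = true := ex3_b k383_B07pp_022_s1 t2129_B07pp_022_s1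

theorem t2131_B07pp_022_s1 : ∃ t, chk3 f_B07pp_022_s1 t 270 299 69 = true := ex3_a k382_B07pp_022_s1 t2130_B07pp_022_s1

theorem t2132_B07pp_022_s1 : ∃ t, chk3 f_B07pp_022_s1 t 270 299 34 = true := ex3_c k381_B07pp_022_s1 t2131_B07pp_022_s1

theorem t2133_B07pp_022_s1 : ∃ t, chk3 f_B07pp_022_s1 t 270 149 34 = true := ex3_b k380_B07pp_022_s1 t2132_B07pp_022_s1

theorem t2134_B07pp_022_s1 : ∃ t, chk3 f_B07pp_022_s1 t 135 149 34 = true := ex3_a t2133_B07pp_022_s1 k387_B07pp_022_s1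

theorem t2135_B07pp_022_s1 : ∃ t, chk3 f_B07pp_022_s1 t 135 149 17 = true := ex3_c t2134_B07pp_022_s1 t2127_B07pp_022_s1

theorem t2136_B07pp_022_s1 : ∃ t, chk3 f_B07pp_022_s1 t 135 148 35 = true := ex3_a k378_B07pp_022_s1 k379_B07pp_022_s1

theorem t2137_B07pp_022_s1 : ∃ t, chk3 f_B07pp_022_s1 t 540 296 34 = true := ex3_c k373_B07pp_022_s1 k374_B07pp_022_s1

theorem t2138_B07pp_022_s1 : ∃ t, chk3 f_B07pp_022_s1 t 270 296 34 = true := ex3_a t2137_B07pp_022_s1 k375_B07pp_022_s1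

theorem t2139_B07pp_022_s1 : ∃ t, chk3 f_B07pp_022_s1 t 270 148 34 = true := ex3_b t2138_B07pp_022_s1 k376_B07pp_022_s1

theorem t2140_B07pp_022_s1 : ∃ t, chk3 f_B07pp_022_s1 t 135 148 34 = true := ex3_a t2139_B07pp_022_s1 k377_B07pp_022_s1

theorem t2141_B07pp_022_s1 : ∃ t, chk3 f_B07pp_022_s1 t 135 148 17 = true := ex3_c t2140_B07pp_022_s1 t2136_B07pp_022_s1

theorem t2142_B07pp_022_s1 : ∃ t, chk3 f_B07pp_022_s1 t 135 74 17 = true := ex3_b t2141_B07pp_022_s1 t2135_B07pp_022_s1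

theorem t2143_B07pp_022_s1 : ∃ t, chk3 f_B07pp_022_s1 t 271 299 32 = true := ex3_a k370_B07pp_022_s1 k371_B07pp_022_s1

theorem t2144_B07pp_022_s1 : ∃ t, chk3 f_B07pp_022_s1 t 271 149 32 = true := ex3_b k369_B07pp_022_s1 t2143_B07pp_022_s1

theorem t2145_B07pp_022_s1 : ∃ t, chk3 f_B07pp_022_s1 t 271 149 16 = true := ex3_c t2144_B07pp_022_s1 k372_B07pp_022_s1

theorem t2146_B07pp_022_s1 : ∃ t, chk3 f_B07pp_022_s1 t 271 148 16 = true := ex3_c k367_B07pp_022_s1 k368_B07pp_022_s1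

theorem t2147_B07pp_022_s1 : ∃ t, chk3 f_B07pp_022_s1 t 271 74 16 = true := ex3_b t2146_B07pp_022_s1 t2145_B07pp_022_s1

theorem t2148_B07pp_022_s1 : ∃ t, chk3 f_B07pp_022_s1 t 541 298 32 = true := ex3_c k363_B07pp_022_s1 k364_B07pp_022_s1

theorem t2149_B07pp_022_s1 : ∃ t, chk3 f_B07pp_022_s1 t 541 149 32 = true := ex3_b t2148_B07pp_022_s1 k365_B07pp_022_s1

theorem t2150_B07pp_022_s1 : ∃ t, chk3 f_B07pp_022_s1 t 541 149 16 = true := ex3_c t2149_B07pp_022_s1 k366_B07pp_022_s1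

theorem t2151_B07pp_022_s1 : ∃ t, chk3 f_B07pp_022_s1 t 540 596 64 = true := ex3_a k357_B07pp_022_s1 k358_B07pp_022_s1

theorem t2152_B07pp_022_s1 : ∃ t, chk3 f_B07pp_022_s1 t 540 298 64 = true := ex3_b t2151_B07pp_022_s1 k359_B07pp_022_s1

theorem t2153_B07pp_022_s1 : ∃ t, chk3 f_B07pp_022_s1 t 540 298 32 = true := ex3_c t2152_B07pp_022_s1 k360_B07pp_022_s1

theorem t2154_B07pp_022_s1 : ∃ t, chk3 f_B07pp_022_s1 t 540 298 16 = true := ex3_c t2153_B07pp_022_s1 k361_B07pp_022_s1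

theorem t2155_B07pp_022_s1 : ∃ t, chk3 f_B07pp_022_s1 t 540 149 16 = true := ex3_b t2154_B07pp_022_s1 k362_B07pp_022_s1

theorem t2156_B07pp_022_s1 : ∃ t, chk3 f_B07pp_022_s1 t 270 149 16 = true := ex3_a t2155_B07pp_022_s1 t2150_B07pp_022_s1

theorem t2157_B07pp_022_s1 : ∃ t, chk3 f_B07pp_022_s1 t 541 297 33 = true := ex3_c k355_B07pp_022_s1 k356_B07pp_022_s1

theorem t2158_B07pp_022_s1 : ∃ t, chk3 f_B07pp_022_s1 t 540 297 33 = true := ex3_c k353_B07pp_022_s1 k354_B07pp_022_s1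

theorem t2159_B07pp_022_s1 : ∃ t, chk3 f_B07pp_022_s1 t 270 297 33 = true := ex3_a t2158_B07pp_022_s1 t2157_B07pp_022_s1

theorem t2160_B07pp_022_s1 : ∃ t, chk3 f_B07pp_022_s1 t 270 296 33 = true := ex3_c k351_B07pp_022_s1 k352_B07pp_022_s1

theorem t2161_B07pp_022_s1 : ∃ t, chk3 f_B07pp_022_s1 t 270 148 33 = true := ex3_b t2160_B07pp_022_s1 t2159_B07pp_022_s1

theorem t2162_B07pp_022_s1 : ∃ t, chk3 f_B07pp_022_s1 t 270 595 65 = true := ex3_a k349_B07pp_022_s1 k350_B07pp_022_s1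

theorem t2163_B07pp_022_s1 : ∃ t, chk3 f_B07pp_022_s1 t 270 297 65 = true := ex3_b k348_B07pp_022_s1 t2162_B07pp_022_s1

theorem t2164_B07pp_022_s1 : ∃ t, chk3 f_B07pp_022_s1 t 540 297 64 = true := ex3_b k345_B07pp_022_s1 k346_B07pp_022_s1

theorem t2165_B07pp_022_s1 : ∃ t, chk3 f_B07pp_022_s1 t 270 297 64 = true := ex3_a t2164_B07pp_022_s1 k347_B07pp_022_s1

theorem t2166_B07pp_022_s1 : ∃ t, chk3 f_B07pp_022_s1 t 270 297 32 = true := ex3_c t2165_B07pp_022_s1 t2163_B07pp_022_s1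

theorem t2167_B07pp_022_s1 : ∃ t, chk3 f_B07pp_022_s1 t 270 148 32 = true := ex3_b k344_B07pp_022_s1 t2166_B07pp_022_s1

theorem t2168_B07pp_022_s1 : ∃ t, chk3 f_B07pp_022_s1 t 270 148 16 = true := ex3_c t2167_B07pp_022_s1 t2161_B07pp_022_s1

theorem t2169_B07pp_022_s1 : ∃ t, chk3 f_B07pp_022_s1 t 270 74 16 = true := ex3_b t2168_B07pp_022_s1 t2156_B07pp_022_s1

theorem t2170_B07pp_022_s1 : ∃ t, chk3 f_B07pp_022_s1 t 135 74 16 = true := ex3_a t2169_B07pp_022_s1 t2147_B07pp_022_s1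

theorem t2171_B07pp_022_s1 : ∃ t, chk3 f_B07pp_022_s1 t 135 74 8 = true := ex3_c t2170_B07pp_022_s1 t2142_B07pp_022_s1

theorem t2172_B07pp_022_s1 : ∃ t, chk3 f_B07pp_022_s1 t 135 37 8 = true := ex3_b t2171_B07pp_022_s1 t2108_B07pp_022_s1

theorem t2173_B07pp_022_s1 : ∃ t, chk3 f_B07pp_022_s1 t 135 147 35 = true := ex3_b k342_B07pp_022_s1 k343_B07pp_022_s1

theorem t2174_B07pp_022_s1 : ∃ t, chk3 f_B07pp_022_s1 t 135 147 34 = true := ex3_b k340_B07pp_022_s1 k341_B07pp_022_s1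

theorem t2175_B07pp_022_s1 : ∃ t, chk3 f_B07pp_022_s1 t 135 147 17 = true := ex3_c t2174_B07pp_022_s1 t2173_B07pp_022_s1

theorem t2176_B07pp_022_s1 : ∃ t, chk3 f_B07pp_022_s1 t 135 73 17 = true := ex3_b k339_B07pp_022_s1 t2175_B07pp_022_s1

theorem t2177_B07pp_022_s1 : ∃ t, chk3 f_B07pp_022_s1 t 135 36 17 = true := ex3_b k338_B07pp_022_s1 t2176_B07pp_022_s1

theorem t2178_B07pp_022_s1 : ∃ t, chk3 f_B07pp_022_s1 t 270 73 16 = true := ex3_a k335_B07pp_022_s1 k336_B07pp_022_s1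

theorem t2179_B07pp_022_s1 : ∃ t, chk3 f_B07pp_022_s1 t 270 36 16 = true := ex3_b k334_B07pp_022_s1 t2178_B07pp_022_s1

theorem t2180_B07pp_022_s1 : ∃ t, chk3 f_B07pp_022_s1 t 135 36 16 = true := ex3_a t2179_B07pp_022_s1 k337_B07pp_022_s1

theorem t2181_B07pp_022_s1 : ∃ t, chk3 f_B07pp_022_s1 t 135 36 8 = true := ex3_c t2180_B07pp_022_s1 t2177_B07pp_022_s1

theorem t2182_B07pp_022_s1 : ∃ t, chk3 f_B07pp_022_s1 t 135 18 8 = true := ex3_b t2181_B07pp_022_s1 t2172_B07pp_022_s1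

theorem t2183_B07pp_022_s1 : ∃ t, chk3 f_B07pp_022_s1 t 1079 74 71 = true := ex3_b k331_B07pp_022_s1 k332_B07pp_022_s1

theorem t2184_B07pp_022_s1 : ∃ t, chk3 f_B07pp_022_s1 t 1079 74 35 = true := ex3_c k330_B07pp_022_s1 t2183_B07pp_022_s1

theorem t2185_B07pp_022_s1 : ∃ t, chk3 f_B07pp_022_s1 t 539 74 35 = true := ex3_a k329_B07pp_022_s1 t2184_B07pp_022_s1

theorem t2186_B07pp_022_s1 : ∃ t, chk3 f_B07pp_022_s1 t 269 74 35 = true := ex3_a k328_B07pp_022_s1 t2185_B07pp_022_s1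

theorem t2187_B07pp_022_s1 : ∃ t, chk3 f_B07pp_022_s1 t 269 37 35 = true := ex3_b t2186_B07pp_022_s1 k333_B07pp_022_s1

theorem t2188_B07pp_022_s1 : ∃ t, chk3 f_B07pp_022_s1 t 539 294 35 = true := ex3_c k325_B07pp_022_s1 k326_B07pp_022_s1

theorem t2189_B07pp_022_s1 : ∃ t, chk3 f_B07pp_022_s1 t 539 147 35 = true := ex3_b t2188_B07pp_022_s1 k327_B07pp_022_s1

theorem t2190_B07pp_022_s1 : ∃ t, chk3 f_B07pp_022_s1 t 538 294 70 = true := ex3_b k321_B07pp_022_s1 k322_B07pp_022_s1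

theorem t2191_B07pp_022_s1 : ∃ t, chk3 f_B07pp_022_s1 t 538 294 35 = true := ex3_c t2190_B07pp_022_s1 k323_B07pp_022_s1

theorem t2192_B07pp_022_s1 : ∃ t, chk3 f_B07pp_022_s1 t 538 147 35 = true := ex3_b t2191_B07pp_022_s1 k324_B07pp_022_s1

theorem t2193_B07pp_022_s1 : ∃ t, chk3 f_B07pp_022_s1 t 269 147 35 = true := ex3_a t2192_B07pp_022_s1 t2189_B07pp_022_s1

theorem t2194_B07pp_022_s1 : ∃ t, chk3 f_B07pp_022_s1 t 539 146 35 = true := ex3_b k319_B07pp_022_s1 k320_B07pp_022_s1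

theorem t2195_B07pp_022_s1 : ∃ t, chk3 f_B07pp_022_s1 t 538 146 35 = true := ex3_b k317_B07pp_022_s1 k318_B07pp_022_s1

theorem t2196_B07pp_022_s1 : ∃ t, chk3 f_B07pp_022_s1 t 269 146 35 = true := ex3_a t2195_B07pp_022_s1 t2194_B07pp_022_s1

theorem t2197_B07pp_022_s1 : ∃ t, chk3 f_B07pp_022_s1 t 269 73 35 = true := ex3_b t2196_B07pp_022_s1 t2193_B07pp_022_s1

theorem t2198_B07pp_022_s1 : ∃ t, chk3 f_B07pp_022_s1 t 269 36 35 = true := ex3_b k316_B07pp_022_s1 t2197_B07pp_022_s1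

theorem t2199_B07pp_022_s1 : ∃ t, chk3 f_B07pp_022_s1 t 269 18 35 = true := ex3_b t2198_B07pp_022_s1 t2187_B07pp_022_s1

theorem t2200_B07pp_022_s1 : ∃ t, chk3 f_B07pp_022_s1 t 269 74 34 = true := ex3_b k313_B07pp_022_s1 k314_B07pp_022_s1

theorem t2201_B07pp_022_s1 : ∃ t, chk3 f_B07pp_022_s1 t 269 37 34 = true := ex3_b t2200_B07pp_022_s1 k315_B07pp_022_s1

theorem t2202_B07pp_022_s1 : ∃ t, chk3 f_B07pp_022_s1 t 269 590 69 = true := ex3_a k310_B07pp_022_s1 k311_B07pp_022_s1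

theorem t2203_B07pp_022_s1 : ∃ t, chk3 f_B07pp_022_s1 t 269 295 69 = true := ex3_b t2202_B07pp_022_s1 k312_B07pp_022_s1

theorem t2204_B07pp_022_s1 : ∃ t, chk3 f_B07pp_022_s1 t 269 591 68 = true := ex3_a k308_B07pp_022_s1 k309_B07pp_022_s1

theorem t2205_B07pp_022_s1 : ∃ t, chk3 f_B07pp_022_s1 t 538 1181 68 = true := ex3_c k305_B07pp_022_s1 k306_B07pp_022_s1

theorem t2206_B07pp_022_s1 : ∃ t, chk3 f_B07pp_022_s1 t 538 590 68 = true := ex3_b k304_B07pp_022_s1 t2205_B07pp_022_s1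

theorem t2207_B07pp_022_s1 : ∃ t, chk3 f_B07pp_022_s1 t 269 590 68 = true := ex3_a t2206_B07pp_022_s1 k307_B07pp_022_s1

theorem t2208_B07pp_022_s1 : ∃ t, chk3 f_B07pp_022_s1 t 269 295 68 = true := ex3_b t2207_B07pp_022_s1 t2204_B07pp_022_s1

theorem t2209_B07pp_022_s1 : ∃ t, chk3 f_B07pp_022_s1 t 269 295 34 = true := ex3_c t2208_B07pp_022_s1 t2203_B07pp_022_s1

theorem t2210_B07pp_022_s1 : ∃ t, chk3 f_B07pp_022_s1 t 538 589 69 = true := ex3_b k301_B07pp_022_s1 k302_B07pp_022_s1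

theorem t2211_B07pp_022_s1 : ∃ t, chk3 f_B07pp_022_s1 t 538 589 34 = true := ex3_c k300_B07pp_022_s1 t2210_B07pp_022_s1

theorem t2212_B07pp_022_s1 : ∃ t, chk3 f_B07pp_022_s1 t 538 294 34 = true := ex3_b k299_B07pp_022_s1 t2211_B07pp_022_s1

theorem t2213_B07pp_022_s1 : ∃ t, chk3 f_B07pp_022_s1 t 269 294 34 = true := ex3_a t2212_B07pp_022_s1 k303_B07pp_022_s1

theorem t2214_B07pp_022_s1 : ∃ t, chk3 f_B07pp_022_s1 t 269 147 34 = true := ex3_b t2213_B07pp_022_s1 t2209_B07pp_022_s1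

theorem t2215_B07pp_022_s1 : ∃ t, chk3 f_B07pp_022_s1 t 269 73 34 = true := ex3_b k298_B07pp_022_s1 t2214_B07pp_022_s1

theorem t2216_B07pp_022_s1 : ∃ t, chk3 f_B07pp_022_s1 t 269 36 34 = true := ex3_b k297_B07pp_022_s1 t2215_B07pp_022_s1

theorem t2217_B07pp_022_s1 : ∃ t, chk3 f_B07pp_022_s1 t 269 18 34 = true := ex3_b t2216_B07pp_022_s1 t2201_B07pp_022_s1

theorem t2218_B07pp_022_s1 : ∃ t, chk3 f_B07pp_022_s1 t 269 18 17 = true := ex3_c t2217_B07pp_022_s1 t2199_B07pp_022_s1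

theorem t2219_B07pp_022_s1 : ∃ t, chk3 f_B07pp_022_s1 t 537 587 71 = true := ex3_a k293_B07pp_022_s1 k294_B07pp_022_s1

theorem t2220_B07pp_022_s1 : ∃ t, chk3 f_B07pp_022_s1 t 537 586 71 = true := ex3_b k291_B07pp_022_s1 k292_B07pp_022_s1

theorem t2221_B07pp_022_s1 : ∃ t, chk3 f_B07pp_022_s1 t 537 293 71 = true := ex3_b t2220_B07pp_022_s1 t2219_B07pp_022_s1

theorem t2222_B07pp_022_s1 : ∃ t, chk3 f_B07pp_022_s1 t 1073 586 143 = true := ex3_b k288_B07pp_022_s1 k289_B07pp_022_s1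

theorem t2223_B07pp_022_s1 : ∃ t, chk3 f_B07pp_022_s1 t 1073 293 143 = true := ex3_b t2222_B07pp_022_s1 k290_B07pp_022_s1

theorem t2224_B07pp_022_s1 : ∃ t, chk3 f_B07pp_022_s1 t 536 293 143 = true := ex3_a k287_B07pp_022_s1 t2223_B07pp_022_s1

theorem t2225_B07pp_022_s1 : ∃ t, chk3 f_B07pp_022_s1 t 1073 586 142 = true := ex3_b k284_B07pp_022_s1 k285_B07pp_022_s1

theorem t2226_B07pp_022_s1 : ∃ t, chk3 f_B07pp_022_s1 t 1073 293 142 = true := ex3_b t2225_B07pp_022_s1 k286_B07pp_022_s1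

theorem t2227_B07pp_022_s1 : ∃ t, chk3 f_B07pp_022_s1 t 536 293 142 = true := ex3_a k283_B07pp_022_s1 t2226_B07pp_022_s1

theorem t2228_B07pp_022_s1 : ∃ t, chk3 f_B07pp_022_s1 t 536 293 71 = true := ex3_c t2227_B07pp_022_s1 t2224_B07pp_022_s1

theorem t2229_B07pp_022_s1 : ∃ t, chk3 f_B07pp_022_s1 t 268 293 71 = true := ex3_a t2228_B07pp_022_s1 t2221_B07pp_022_s1

theorem t2230_B07pp_022_s1 : ∃ t, chk3 f_B07pp_022_s1 t 536 585 143 = true := ex3_a k280_B07pp_022_s1 k281_B07pp_022_s1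

theorem t2231_B07pp_022_s1 : ∃ t, chk3 f_B07pp_022_s1 t 536 292 143 = true := ex3_b k279_B07pp_022_s1 t2230_B07pp_022_s1

theorem t2232_B07pp_022_s1 : ∃ t, chk3 f_B07pp_022_s1 t 536 292 71 = true := ex3_c k278_B07pp_022_s1 t2231_B07pp_022_s1

theorem t2233_B07pp_022_s1 : ∃ t, chk3 f_B07pp_022_s1 t 268 292 71 = true := ex3_a t2232_B07pp_022_s1 k282_B07pp_022_s1

theorem t2234_B07pp_022_s1 : ∃ t, chk3 f_B07pp_022_s1 t 268 146 71 = true := ex3_b t2233_B07pp_022_s1 t2229_B07pp_022_s1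

theorem t2235_B07pp_022_s1 : ∃ t, chk3 f_B07pp_022_s1 t 268 73 71 = true := ex3_b t2234_B07pp_022_s1 k295_B07pp_022_s1

theorem t2236_B07pp_022_s1 : ∃ t, chk3 f_B07pp_022_s1 t 1075 588 70 = true := ex3_b k274_B07pp_022_s1 k275_B07pp_022_s1

theorem t2237_B07pp_022_s1 : ∃ t, chk3 f_B07pp_022_s1 t 1075 294 70 = true := ex3_b t2236_B07pp_022_s1 k276_B07pp_022_s1

theorem t2238_B07pp_022_s1 : ∃ t, chk3 f_B07pp_022_s1 t 1075 147 70 = true := ex3_b t2237_B07pp_022_s1 k277_B07pp_022_s1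

theorem t2239_B07pp_022_s1 : ∃ t, chk3 f_B07pp_022_s1 t 537 147 70 = true := ex3_a k273_B07pp_022_s1 t2238_B07pp_022_s1

theorem t2240_B07pp_022_s1 : ∃ t, chk3 f_B07pp_022_s1 t 268 147 70 = true := ex3_a k272_B07pp_022_s1 t2239_B07pp_022_s1

theorem t2241_B07pp_022_s1 : ∃ t, chk3 f_B07pp_022_s1 t 1074 1175 70 = true := ex3_c k269_B07pp_022_s1 k270_B07pp_022_s1

theorem t2242_B07pp_022_s1 : ∃ t, chk3 f_B07pp_022_s1 t 1074 587 70 = true := ex3_b k268_B07pp_022_s1 t2241_B07pp_022_s1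

theorem t2243_B07pp_022_s1 : ∃ t, chk3 f_B07pp_022_s1 t 537 587 70 = true := ex3_a t2242_B07pp_022_s1 k271_B07pp_022_s1

theorem t2244_B07pp_022_s1 : ∃ t, chk3 f_B07pp_022_s1 t 537 293 70 = true := ex3_b k267_B07pp_022_s1 t2243_B07pp_022_s1

theorem t2245_B07pp_022_s1 : ∃ t, chk3 f_B07pp_022_s1 t 536 293 70 = true := ex3_c k265_B07pp_022_s1 k266_B07pp_022_s1

theorem t2246_B07pp_022_s1 : ∃ t, chk3 f_B07pp_022_s1 t 268 293 70 = true := ex3_a t2245_B07pp_022_s1 t2244_B07pp_022_s1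

theorem t2247_B07pp_022_s1 : ∃ t, chk3 f_B07pp_022_s1 t 268 146 70 = true := ex3_b k264_B07pp_022_s1 t2246_B07pp_022_s1

theorem t2248_B07pp_022_s1 : ∃ t, chk3 f_B07pp_022_s1 t 268 73 70 = true := ex3_b t2247_B07pp_022_s1 t2240_B07pp_022_s1

theorem t2249_B07pp_022_s1 : ∃ t, chk3 f_B07pp_022_s1 t 268 73 35 = true := ex3_c t2248_B07pp_022_s1 t2235_B07pp_022_s1

theorem t2250_B07pp_022_s1 : ∃ t, chk3 f_B07pp_022_s1 t 268 36 35 = true := ex3_b k263_B07pp_022_s1 t2249_B07pp_022_s1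

theorem t2251_B07pp_022_s1 : ∃ t, chk3 f_B07pp_022_s1 t 268 18 35 = true := ex3_b t2250_B07pp_022_s1 k296_B07pp_022_s1

theorem t2252_B07pp_022_s1 : ∃ t, chk3 f_B07pp_022_s1 t 1075 294 139 = true := ex3_b k259_B07pp_022_s1 k260_B07pp_022_s1

theorem t2253_B07pp_022_s1 : ∃ t, chk3 f_B07pp_022_s1 t 1075 147 139 = true := ex3_b t2252_B07pp_022_s1 k261_B07pp_022_s1

theorem t2254_B07pp_022_s1 : ∃ t, chk3 f_B07pp_022_s1 t 537 147 139 = true := ex3_a k258_B07pp_022_s1 t2253_B07pp_022_s1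

theorem t2255_B07pp_022_s1 : ∃ t, chk3 f_B07pp_022_s1 t 1075 294 138 = true := ex3_b k255_B07pp_022_s1 k256_B07pp_022_s1

theorem t2256_B07pp_022_s1 : ∃ t, chk3 f_B07pp_022_s1 t 1075 147 138 = true := ex3_b t2255_B07pp_022_s1 k257_B07pp_022_s1

theorem t2257_B07pp_022_s1 : ∃ t, chk3 f_B07pp_022_s1 t 537 147 138 = true := ex3_a k254_B07pp_022_s1 t2256_B07pp_022_s1

theorem t2258_B07pp_022_s1 : ∃ t, chk3 f_B07pp_022_s1 t 537 147 69 = true := ex3_c t2257_B07pp_022_s1 t2254_B07pp_022_s1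

theorem t2259_B07pp_022_s1 : ∃ t, chk3 f_B07pp_022_s1 t 1075 589 68 = true := ex3_b k251_B07pp_022_s1 k252_B07pp_022_s1

theorem t2260_B07pp_022_s1 : ∃ t, chk3 f_B07pp_022_s1 t 537 589 68 = true := ex3_a k250_B07pp_022_s1 t2259_B07pp_022_s1

theorem t2261_B07pp_022_s1 : ∃ t, chk3 f_B07pp_022_s1 t 537 294 68 = true := ex3_b k249_B07pp_022_s1 t2260_B07pp_022_s1

theorem t2262_B07pp_022_s1 : ∃ t, chk3 f_B07pp_022_s1 t 537 147 68 = true := ex3_b t2261_B07pp_022_s1 k253_B07pp_022_s1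

theorem t2263_B07pp_022_s1 : ∃ t, chk3 f_B07pp_022_s1 t 537 147 34 = true := ex3_c t2262_B07pp_022_s1 t2258_B07pp_022_s1

theorem t2264_B07pp_022_s1 : ∃ t, chk3 f_B07pp_022_s1 t 268 147 34 = true := ex3_a k248_B07pp_022_s1 t2263_B07pp_022_s1

theorem t2265_B07pp_022_s1 : ∃ t, chk3 f_B07pp_022_s1 t 536 146 34 = true := ex3_b k245_B07pp_022_s1 k246_B07pp_022_s1

theorem t2266_B07pp_022_s1 : ∃ t, chk3 f_B07pp_022_s1 t 268 146 34 = true := ex3_a t2265_B07pp_022_s1 k247_B07pp_022_s1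

theorem t2267_B07pp_022_s1 : ∃ t, chk3 f_B07pp_022_s1 t 268 73 34 = true := ex3_b t2266_B07pp_022_s1 t2264_B07pp_022_s1

theorem t2268_B07pp_022_s1 : ∃ t, chk3 f_B07pp_022_s1 t 268 36 34 = true := ex3_b k244_B07pp_022_s1 t2267_B07pp_022_s1

theorem t2269_B07pp_022_s1 : ∃ t, chk3 f_B07pp_022_s1 t 268 18 34 = true := ex3_b t2268_B07pp_022_s1 k262_B07pp_022_s1

theorem t2270_B07pp_022_s1 : ∃ t, chk3 f_B07pp_022_s1 t 268 18 17 = true := ex3_c t2269_B07pp_022_s1 t2251_B07pp_022_s1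

theorem t2271_B07pp_022_s1 : ∃ t, chk3 f_B07pp_022_s1 t 134 18 17 = true := ex3_a t2270_B07pp_022_s1 t2218_B07pp_022_s1

theorem t2272_B07pp_022_s1 : ∃ t, chk3 f_B07pp_022_s1 t 539 592 67 = true := ex3_b k238_B07pp_022_s1 k239_B07pp_022_s1

theorem t2273_B07pp_022_s1 : ∃ t, chk3 f_B07pp_022_s1 t 269 592 67 = true := ex3_a k237_B07pp_022_s1 t2272_B07pp_022_s1

theorem t2274_B07pp_022_s1 : ∃ t, chk3 f_B07pp_022_s1 t 269 296 67 = true := ex3_b t2273_B07pp_022_s1 k240_B07pp_022_s1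

theorem t2275_B07pp_022_s1 : ∃ t, chk3 f_B07pp_022_s1 t 539 593 66 = true := ex3_b k235_B07pp_022_s1 k236_B07pp_022_s1

theorem t2276_B07pp_022_s1 : ∃ t, chk3 f_B07pp_022_s1 t 269 593 66 = true := ex3_a k234_B07pp_022_s1 t2275_B07pp_022_s1

theorem t2277_B07pp_022_s1 : ∃ t, chk3 f_B07pp_022_s1 t 1077 592 66 = true := ex3_b k231_B07pp_022_s1 k232_B07pp_022_s1

theorem t2278_B07pp_022_s1 : ∃ t, chk3 f_B07pp_022_s1 t 538 592 66 = true := ex3_a k230_B07pp_022_s1 t2277_B07pp_022_s1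

theorem t2279_B07pp_022_s1 : ∃ t, chk3 f_B07pp_022_s1 t 269 592 66 = true := ex3_a t2278_B07pp_022_s1 k233_B07pp_022_s1

theorem t2280_B07pp_022_s1 : ∃ t, chk3 f_B07pp_022_s1 t 269 296 66 = true := ex3_b t2279_B07pp_022_s1 t2276_B07pp_022_s1

theorem t2281_B07pp_022_s1 : ∃ t, chk3 f_B07pp_022_s1 t 269 296 33 = true := ex3_c t2280_B07pp_022_s1 t2274_B07pp_022_s1

theorem t2282_B07pp_022_s1 : ∃ t, chk3 f_B07pp_022_s1 t 269 148 33 = true := ex3_b t2281_B07pp_022_s1 k241_B07pp_022_s1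

theorem t2283_B07pp_022_s1 : ∃ t, chk3 f_B07pp_022_s1 t 269 74 33 = true := ex3_b t2282_B07pp_022_s1 k242_B07pp_022_s1

theorem t2284_B07pp_022_s1 : ∃ t, chk3 f_B07pp_022_s1 t 269 37 33 = true := ex3_b t2283_B07pp_022_s1 k243_B07pp_022_s1

theorem t2285_B07pp_022_s1 : ∃ t, chk3 f_B07pp_022_s1 t 538 1183 67 = true := ex3_c k227_B07pp_022_s1 k228_B07pp_022_s1

theorem t2286_B07pp_022_s1 : ∃ t, chk3 f_B07pp_022_s1 t 538 1182 67 = true := ex3_a k225_B07pp_022_s1 k226_B07pp_022_s1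

theorem t2287_B07pp_022_s1 : ∃ t, chk3 f_B07pp_022_s1 t 538 591 67 = true := ex3_b t2286_B07pp_022_s1 t2285_B07pp_022_s1

theorem t2288_B07pp_022_s1 : ∃ t, chk3 f_B07pp_022_s1 t 538 590 67 = true := ex3_a k223_B07pp_022_s1 k224_B07pp_022_s1

theorem t2289_B07pp_022_s1 : ∃ t, chk3 f_B07pp_022_s1 t 538 295 67 = true := ex3_b t2288_B07pp_022_s1 t2287_B07pp_022_s1

theorem t2290_B07pp_022_s1 : ∃ t, chk3 f_B07pp_022_s1 t 269 295 67 = true := ex3_a t2289_B07pp_022_s1 k229_B07pp_022_s1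

theorem t2291_B07pp_022_s1 : ∃ t, chk3 f_B07pp_022_s1 t 269 295 33 = true := ex3_c k222_B07pp_022_s1 t2290_B07pp_022_s1

theorem t2292_B07pp_022_s1 : ∃ t, chk3 f_B07pp_022_s1 t 269 147 33 = true := ex3_b k221_B07pp_022_s1 t2291_B07pp_022_s1

theorem t2293_B07pp_022_s1 : ∃ t, chk3 f_B07pp_022_s1 t 269 73 33 = true := ex3_b k220_B07pp_022_s1 t2292_B07pp_022_s1

theorem t2294_B07pp_022_s1 : ∃ t, chk3 f_B07pp_022_s1 t 269 36 33 = true := ex3_b k219_B07pp_022_s1 t2293_B07pp_022_s1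

theorem t2295_B07pp_022_s1 : ∃ t, chk3 f_B07pp_022_s1 t 269 18 33 = true := ex3_b t2294_B07pp_022_s1 t2284_B07pp_022_s1

theorem t2296_B07pp_022_s1 : ∃ t, chk3 f_B07pp_022_s1 t 539 594 65 = true := ex3_b k214_B07pp_022_s1 k215_B07pp_022_s1

theorem t2297_B07pp_022_s1 : ∃ t, chk3 f_B07pp_022_s1 t 539 297 65 = true := ex3_b t2296_B07pp_022_s1 k216_B07pp_022_s1

theorem t2298_B07pp_022_s1 : ∃ t, chk3 f_B07pp_022_s1 t 269 297 65 = true := ex3_a k213_B07pp_022_s1 t2297_B07pp_022_s1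

theorem t2299_B07pp_022_s1 : ∃ t, chk3 f_B07pp_022_s1 t 1079 595 64 = true := ex3_b k211_B07pp_022_s1 k212_B07pp_022_s1

theorem t2300_B07pp_022_s1 : ∃ t, chk3 f_B07pp_022_s1 t 539 595 64 = true := ex3_a k210_B07pp_022_s1 t2299_B07pp_022_s1

theorem t2301_B07pp_022_s1 : ∃ t, chk3 f_B07pp_022_s1 t 539 594 64 = true := ex3_a k208_B07pp_022_s1 k209_B07pp_022_s1

theorem t2302_B07pp_022_s1 : ∃ t, chk3 f_B07pp_022_s1 t 539 297 64 = true := ex3_b t2301_B07pp_022_s1 t2300_B07pp_022_s1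

theorem t2303_B07pp_022_s1 : ∃ t, chk3 f_B07pp_022_s1 t 269 297 64 = true := ex3_a k207_B07pp_022_s1 t2302_B07pp_022_s1

theorem t2304_B07pp_022_s1 : ∃ t, chk3 f_B07pp_022_s1 t 269 297 32 = true := ex3_c t2303_B07pp_022_s1 t2298_B07pp_022_s1

theorem t2305_B07pp_022_s1 : ∃ t, chk3 f_B07pp_022_s1 t 1078 593 65 = true := ex3_b k204_B07pp_022_s1 k205_B07pp_022_s1

theorem t2306_B07pp_022_s1 : ∃ t, chk3 f_B07pp_022_s1 t 1078 593 32 = true := ex3_c k203_B07pp_022_s1 t2305_B07pp_022_s1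

theorem t2307_B07pp_022_s1 : ∃ t, chk3 f_B07pp_022_s1 t 1078 296 32 = true := ex3_b k202_B07pp_022_s1 t2306_B07pp_022_s1

theorem t2308_B07pp_022_s1 : ∃ t, chk3 f_B07pp_022_s1 t 539 296 32 = true := ex3_a t2307_B07pp_022_s1 k206_B07pp_022_s1

theorem t2309_B07pp_022_s1 : ∃ t, chk3 f_B07pp_022_s1 t 538 296 32 = true := ex3_c k200_B07pp_022_s1 k201_B07pp_022_s1

theorem t2310_B07pp_022_s1 : ∃ t, chk3 f_B07pp_022_s1 t 269 296 32 = true := ex3_a t2309_B07pp_022_s1 t2308_B07pp_022_s1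

theorem t2311_B07pp_022_s1 : ∃ t, chk3 f_B07pp_022_s1 t 269 148 32 = true := ex3_b t2310_B07pp_022_s1 t2304_B07pp_022_s1

theorem t2312_B07pp_022_s1 : ∃ t, chk3 f_B07pp_022_s1 t 269 74 32 = true := ex3_b t2311_B07pp_022_s1 k217_B07pp_022_s1

theorem t2313_B07pp_022_s1 : ∃ t, chk3 f_B07pp_022_s1 t 269 37 32 = true := ex3_b t2312_B07pp_022_s1 k218_B07pp_022_s1

theorem t2314_B07pp_022_s1 : ∃ t, chk3 f_B07pp_022_s1 t 538 73 32 = true := ex3_a k197_B07pp_022_s1 k198_B07pp_022_s1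

theorem t2315_B07pp_022_s1 : ∃ t, chk3 f_B07pp_022_s1 t 538 36 32 = true := ex3_b k196_B07pp_022_s1 t2314_B07pp_022_s1

theorem t2316_B07pp_022_s1 : ∃ t, chk3 f_B07pp_022_s1 t 269 36 32 = true := ex3_a t2315_B07pp_022_s1 k199_B07pp_022_s1

theorem t2317_B07pp_022_s1 : ∃ t, chk3 f_B07pp_022_s1 t 269 18 32 = true := ex3_b t2316_B07pp_022_s1 t2313_B07pp_022_s1

theorem t2318_B07pp_022_s1 : ∃ t, chk3 f_B07pp_022_s1 t 269 18 16 = true := ex3_c t2317_B07pp_022_s1 t2295_B07pp_022_s1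

theorem t2319_B07pp_022_s1 : ∃ t, chk3 f_B07pp_022_s1 t 268 73 67 = true := ex3_b k193_B07pp_022_s1 k194_B07pp_022_s1

theorem t2320_B07pp_022_s1 : ∃ t, chk3 f_B07pp_022_s1 t 268 73 33 = true := ex3_c k192_B07pp_022_s1 t2319_B07pp_022_s1

theorem t2321_B07pp_022_s1 : ∃ t, chk3 f_B07pp_022_s1 t 268 73 32 = true := ex3_b k190_B07pp_022_s1 k191_B07pp_022_s1

theorem t2322_B07pp_022_s1 : ∃ t, chk3 f_B07pp_022_s1 t 268 73 16 = true := ex3_c t2321_B07pp_022_s1 t2320_B07pp_022_s1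

theorem t2323_B07pp_022_s1 : ∃ t, chk3 f_B07pp_022_s1 t 268 36 16 = true := ex3_b k189_B07pp_022_s1 t2322_B07pp_022_s1

theorem t2324_B07pp_022_s1 : ∃ t, chk3 f_B07pp_022_s1 t 268 18 16 = true := ex3_b t2323_B07pp_022_s1 k195_B07pp_022_s1

theorem t2325_B07pp_022_s1 : ∃ t, chk3 f_B07pp_022_s1 t 134 18 16 = true := ex3_a t2324_B07pp_022_s1 t2318_B07pp_022_s1

theorem t2326_B07pp_022_s1 : ∃ t, chk3 f_B07pp_022_s1 t 134 18 8 = true := ex3_c t2325_B07pp_022_s1 t2271_B07pp_022_s1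

theorem t2327_B07pp_022_s1 : ∃ t, chk3 f_B07pp_022_s1 t 67 18 8 = true := ex3_a t2326_B07pp_022_s1 t2182_B07pp_022_s1

theorem t2328_B07pp_022_s1 : ∃ t, chk3 f_B07pp_022_s1 t 67 18 4 = true := ex3_c t2327_B07pp_022_s1 t2060_B07pp_022_s1

theorem t2329_B07pp_022_s1 : ∃ t, chk3 f_B07pp_022_s1 t 535 292 19 = true := ex3_a k184_B07pp_022_s1 k185_B07pp_022_s1

theorem t2330_B07pp_022_s1 : ∃ t, chk3 f_B07pp_022_s1 t 267 292 19 = true := ex3_a k183_B07pp_022_s1 t2329_B07pp_022_s1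

theorem t2331_B07pp_022_s1 : ∃ t, chk3 f_B07pp_022_s1 t 1071 292 18 = true := ex3_c k181_B07pp_022_s1 k182_B07pp_022_s1

theorem t2332_B07pp_022_s1 : ∃ t, chk3 f_B07pp_022_s1 t 535 292 18 = true := ex3_a k180_B07pp_022_s1 t2331_B07pp_022_s1

theorem t2333_B07pp_022_s1 : ∃ t, chk3 f_B07pp_022_s1 t 267 292 18 = true := ex3_a k179_B07pp_022_s1 t2332_B07pp_022_s1

theorem t2334_B07pp_022_s1 : ∃ t, chk3 f_B07pp_022_s1 t 267 292 9 = true := ex3_c t2333_B07pp_022_s1 t2330_B07pp_022_s1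

theorem t2335_B07pp_022_s1 : ∃ t, chk3 f_B07pp_022_s1 t 267 146 9 = true := ex3_b t2334_B07pp_022_s1 k186_B07pp_022_s1

theorem t2336_B07pp_022_s1 : ∃ t, chk3 f_B07pp_022_s1 t 267 146 8 = true := ex3_c k177_B07pp_022_s1 k178_B07pp_022_s1

theorem t2337_B07pp_022_s1 : ∃ t, chk3 f_B07pp_022_s1 t 267 146 4 = true := ex3_c t2336_B07pp_022_s1 t2335_B07pp_022_s1

theorem t2338_B07pp_022_s1 : ∃ t, chk3 f_B07pp_022_s1 t 267 73 4 = true := ex3_b t2337_B07pp_022_s1 k187_B07pp_022_s1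

theorem t2339_B07pp_022_s1 : ∃ t, chk3 f_B07pp_022_s1 t 133 73 4 = true := ex3_a k176_B07pp_022_s1 t2338_B07pp_022_s1

theorem t2340_B07pp_022_s1 : ∃ t, chk3 f_B07pp_022_s1 t 535 291 79 = true := ex3_b k174_B07pp_022_s1 k175_B07pp_022_s1

theorem t2341_B07pp_022_s1 : ∃ t, chk3 f_B07pp_022_s1 t 535 145 79 = true := ex3_b k173_B07pp_022_s1 t2340_B07pp_022_s1

theorem t2342_B07pp_022_s1 : ∃ t, chk3 f_B07pp_022_s1 t 267 145 79 = true := ex3_a k172_B07pp_022_s1 t2341_B07pp_022_s1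

theorem t2343_B07pp_022_s1 : ∃ t, chk3 f_B07pp_022_s1 t 267 145 78 = true := ex3_c k170_B07pp_022_s1 k171_B07pp_022_s1

theorem t2344_B07pp_022_s1 : ∃ t, chk3 f_B07pp_022_s1 t 267 145 39 = true := ex3_c t2343_B07pp_022_s1 t2342_B07pp_022_s1

theorem t2345_B07pp_022_s1 : ∃ t, chk3 f_B07pp_022_s1 t 267 145 77 = true := ex3_a k168_B07pp_022_s1 k169_B07pp_022_s1

theorem t2346_B07pp_022_s1 : ∃ t, chk3 f_B07pp_022_s1 t 535 1161 76 = true := ex3_a k164_B07pp_022_s1 k165_B07pp_022_s1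

theorem t2347_B07pp_022_s1 : ∃ t, chk3 f_B07pp_022_s1 t 535 580 76 = true := ex3_b k163_B07pp_022_s1 t2346_B07pp_022_s1

theorem t2348_B07pp_022_s1 : ∃ t, chk3 f_B07pp_022_s1 t 535 290 76 = true := ex3_b t2347_B07pp_022_s1 k166_B07pp_022_s1

theorem t2349_B07pp_022_s1 : ∃ t, chk3 f_B07pp_022_s1 t 535 145 76 = true := ex3_b t2348_B07pp_022_s1 k167_B07pp_022_s1

theorem t2350_B07pp_022_s1 : ∃ t, chk3 f_B07pp_022_s1 t 1069 1160 152 = true := ex3_b k157_B07pp_022_s1 k158_B07pp_022_s1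

theorem t2351_B07pp_022_s1 : ∃ t, chk3 f_B07pp_022_s1 t 1069 580 152 = true := ex3_b t2350_B07pp_022_s1 k159_B07pp_022_s1

theorem t2352_B07pp_022_s1 : ∃ t, chk3 f_B07pp_022_s1 t 1069 580 76 = true := ex3_c t2351_B07pp_022_s1 k160_B07pp_022_s1

theorem t2353_B07pp_022_s1 : ∃ t, chk3 f_B07pp_022_s1 t 1069 290 76 = true := ex3_b t2352_B07pp_022_s1 k161_B07pp_022_s1

theorem t2354_B07pp_022_s1 : ∃ t, chk3 f_B07pp_022_s1 t 534 290 76 = true := ex3_a k156_B07pp_022_s1 t2353_B07pp_022_s1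

theorem t2355_B07pp_022_s1 : ∃ t, chk3 f_B07pp_022_s1 t 534 145 76 = true := ex3_b t2354_B07pp_022_s1 k162_B07pp_022_s1

theorem t2356_B07pp_022_s1 : ∃ t, chk3 f_B07pp_022_s1 t 267 145 76 = true := ex3_a t2355_B07pp_022_s1 t2349_B07pp_022_s1

theorem t2357_B07pp_022_s1 : ∃ t, chk3 f_B07pp_022_s1 t 267 145 38 = true := ex3_c t2356_B07pp_022_s1 t2345_B07pp_022_s1

theorem t2358_B07pp_022_s1 : ∃ t, chk3 f_B07pp_022_s1 t 267 145 19 = true := ex3_c t2357_B07pp_022_s1 t2344_B07pp_022_s1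

theorem t2359_B07pp_022_s1 : ∃ t, chk3 f_B07pp_022_s1 t 1070 1163 150 = true := ex3_a k151_B07pp_022_s1 k152_B07pp_022_s1

theorem t2360_B07pp_022_s1 : ∃ t, chk3 f_B07pp_022_s1 t 535 1163 150 = true := ex3_a t2359_B07pp_022_s1 k153_B07pp_022_s1

theorem t2361_B07pp_022_s1 : ∃ t, chk3 f_B07pp_022_s1 t 535 1163 75 = true := ex3_c t2360_B07pp_022_s1 k154_B07pp_022_s1

theorem t2362_B07pp_022_s1 : ∃ t, chk3 f_B07pp_022_s1 t 1070 1162 151 = true := ex3_a k148_B07pp_022_s1 k149_B07pp_022_s1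

theorem t2363_B07pp_022_s1 : ∃ t, chk3 f_B07pp_022_s1 t 535 1162 151 = true := ex3_a t2362_B07pp_022_s1 k150_B07pp_022_s1

theorem t2364_B07pp_022_s1 : ∃ t, chk3 f_B07pp_022_s1 t 535 1162 75 = true := ex3_c k147_B07pp_022_s1 t2363_B07pp_022_s1

theorem t2365_B07pp_022_s1 : ∃ t, chk3 f_B07pp_022_s1 t 535 581 75 = true := ex3_b t2364_B07pp_022_s1 t2361_B07pp_022_s1

theorem t2366_B07pp_022_s1 : ∃ t, chk3 f_B07pp_022_s1 t 535 580 75 = true := ex3_a k145_B07pp_022_s1 k146_B07pp_022_s1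

theorem t2367_B07pp_022_s1 : ∃ t, chk3 f_B07pp_022_s1 t 535 290 75 = true := ex3_b t2366_B07pp_022_s1 t2365_B07pp_022_s1

theorem t2368_B07pp_022_s1 : ∃ t, chk3 f_B07pp_022_s1 t 535 145 75 = true := ex3_b t2367_B07pp_022_s1 k155_B07pp_022_s1

theorem t2369_B07pp_022_s1 : ∃ t, chk3 f_B07pp_022_s1 t 1069 580 151 = true := ex3_b k141_B07pp_022_s1 k142_B07pp_022_s1

theorem t2370_B07pp_022_s1 : ∃ t, chk3 f_B07pp_022_s1 t 1069 290 151 = true := ex3_b t2369_B07pp_022_s1 k143_B07pp_022_s1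

theorem t2371_B07pp_022_s1 : ∃ t, chk3 f_B07pp_022_s1 t 534 290 151 = true := ex3_a k140_B07pp_022_s1 t2370_B07pp_022_s1

theorem t2372_B07pp_022_s1 : ∃ t, chk3 f_B07pp_022_s1 t 534 290 75 = true := ex3_c k139_B07pp_022_s1 t2371_B07pp_022_s1

theorem t2373_B07pp_022_s1 : ∃ t, chk3 f_B07pp_022_s1 t 534 145 75 = true := ex3_b t2372_B07pp_022_s1 k144_B07pp_022_s1

theorem t2374_B07pp_022_s1 : ∃ t, chk3 f_B07pp_022_s1 t 267 145 75 = true := ex3_a t2373_B07pp_022_s1 t2368_B07pp_022_s1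

theorem t2375_B07pp_022_s1 : ∃ t, chk3 f_B07pp_022_s1 t 535 1165 74 = true := ex3_c k136_B07pp_022_s1 k137_B07pp_022_s1

theorem t2376_B07pp_022_s1 : ∃ t, chk3 f_B07pp_022_s1 t 1070 1164 74 = true := ex3_c k133_B07pp_022_s1 k134_B07pp_022_s1

theorem t2377_B07pp_022_s1 : ∃ t, chk3 f_B07pp_022_s1 t 535 1164 74 = true := ex3_a t2376_B07pp_022_s1 k135_B07pp_022_s1

theorem t2378_B07pp_022_s1 : ∃ t, chk3 f_B07pp_022_s1 t 535 582 74 = true := ex3_b t2377_B07pp_022_s1 t2375_B07pp_022_s1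

theorem t2379_B07pp_022_s1 : ∃ t, chk3 f_B07pp_022_s1 t 535 291 74 = true := ex3_b t2378_B07pp_022_s1 k138_B07pp_022_s1

theorem t2380_B07pp_022_s1 : ∃ t, chk3 f_B07pp_022_s1 t 1070 581 74 = true := ex3_b k130_B07pp_022_s1 k131_B07pp_022_s1

theorem t2381_B07pp_022_s1 : ∃ t, chk3 f_B07pp_022_s1 t 1070 290 74 = true := ex3_b k129_B07pp_022_s1 t2380_B07pp_022_s1

theorem t2382_B07pp_022_s1 : ∃ t, chk3 f_B07pp_022_s1 t 535 290 74 = true := ex3_a t2381_B07pp_022_s1 k132_B07pp_022_s1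

theorem t2383_B07pp_022_s1 : ∃ t, chk3 f_B07pp_022_s1 t 535 145 74 = true := ex3_b t2382_B07pp_022_s1 t2379_B07pp_022_s1

theorem t2384_B07pp_022_s1 : ∃ t, chk3 f_B07pp_022_s1 t 267 145 74 = true := ex3_a k128_B07pp_022_s1 t2383_B07pp_022_s1

theorem t2385_B07pp_022_s1 : ∃ t, chk3 f_B07pp_022_s1 t 267 145 37 = true := ex3_c t2384_B07pp_022_s1 t2374_B07pp_022_s1

theorem t2386_B07pp_022_s1 : ∃ t, chk3 f_B07pp_022_s1 t 535 583 147 = true := ex3_b k126_B07pp_022_s1 k127_B07pp_022_s1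

theorem t2387_B07pp_022_s1 : ∃ t, chk3 f_B07pp_022_s1 t 535 583 73 = true := ex3_c k125_B07pp_022_s1 t2386_B07pp_022_s1

theorem t2388_B07pp_022_s1 : ∃ t, chk3 f_B07pp_022_s1 t 535 291 73 = true := ex3_b k124_B07pp_022_s1 t2387_B07pp_022_s1

theorem t2389_B07pp_022_s1 : ∃ t, chk3 f_B07pp_022_s1 t 535 145 73 = true := ex3_b k123_B07pp_022_s1 t2388_B07pp_022_s1

theorem t2390_B07pp_022_s1 : ∃ t, chk3 f_B07pp_022_s1 t 267 145 73 = true := ex3_a k122_B07pp_022_s1 t2389_B07pp_022_s1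

theorem t2391_B07pp_022_s1 : ∃ t, chk3 f_B07pp_022_s1 t 535 145 72 = true := ex3_a k120_B07pp_022_s1 k121_B07pp_022_s1

theorem t2392_B07pp_022_s1 : ∃ t, chk3 f_B07pp_022_s1 t 267 145 72 = true := ex3_a k119_B07pp_022_s1 t2391_B07pp_022_s1

theorem t2393_B07pp_022_s1 : ∃ t, chk3 f_B07pp_022_s1 t 267 145 36 = true := ex3_c t2392_B07pp_022_s1 t2390_B07pp_022_s1

theorem t2394_B07pp_022_s1 : ∃ t, chk3 f_B07pp_022_s1 t 267 145 18 = true := ex3_c t2393_B07pp_022_s1 t2385_B07pp_022_s1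

theorem t2395_B07pp_022_s1 : ∃ t, chk3 f_B07pp_022_s1 t 267 145 9 = true := ex3_c t2394_B07pp_022_s1 t2358_B07pp_022_s1

theorem t2396_B07pp_022_s1 : ∃ t, chk3 f_B07pp_022_s1 t 535 289 78 = true := ex3_b k116_B07pp_022_s1 k117_B07pp_022_s1

theorem t2397_B07pp_022_s1 : ∃ t, chk3 f_B07pp_022_s1 t 535 289 39 = true := ex3_c t2396_B07pp_022_s1 k118_B07pp_022_s1

theorem t2398_B07pp_022_s1 : ∃ t, chk3 f_B07pp_022_s1 t 534 1156 78 = true := ex3_a k111_B07pp_022_s1 k112_B07pp_022_s1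

theorem t2399_B07pp_022_s1 : ∃ t, chk3 f_B07pp_022_s1 t 534 578 78 = true := ex3_b t2398_B07pp_022_s1 k113_B07pp_022_s1

theorem t2400_B07pp_022_s1 : ∃ t, chk3 f_B07pp_022_s1 t 534 289 78 = true := ex3_b t2399_B07pp_022_s1 k114_B07pp_022_s1

theorem t2401_B07pp_022_s1 : ∃ t, chk3 f_B07pp_022_s1 t 534 289 39 = true := ex3_c t2400_B07pp_022_s1 k115_B07pp_022_s1

theorem t2402_B07pp_022_s1 : ∃ t, chk3 f_B07pp_022_s1 t 267 289 39 = true := ex3_a t2401_B07pp_022_s1 t2397_B07pp_022_s1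

theorem t2403_B07pp_022_s1 : ∃ t, chk3 f_B07pp_022_s1 t 535 288 39 = true := ex3_c k109_B07pp_022_s1 k110_B07pp_022_s1

theorem t2404_B07pp_022_s1 : ∃ t, chk3 f_B07pp_022_s1 t 534 577 79 = true := ex3_a k107_B07pp_022_s1 k108_B07pp_022_s1

theorem t2405_B07pp_022_s1 : ∃ t, chk3 f_B07pp_022_s1 t 1068 1155 78 = true := ex3_c k104_B07pp_022_s1 k105_B07pp_022_s1

theorem t2406_B07pp_022_s1 : ∃ t, chk3 f_B07pp_022_s1 t 534 1155 78 = true := ex3_a t2405_B07pp_022_s1 k106_B07pp_022_s1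

theorem t2407_B07pp_022_s1 : ∃ t, chk3 f_B07pp_022_s1 t 534 577 78 = true := ex3_b k103_B07pp_022_s1 t2406_B07pp_022_s1

theorem t2408_B07pp_022_s1 : ∃ t, chk3 f_B07pp_022_s1 t 534 577 39 = true := ex3_c t2407_B07pp_022_s1 t2404_B07pp_022_s1

theorem t2409_B07pp_022_s1 : ∃ t, chk3 f_B07pp_022_s1 t 534 576 39 = true := ex3_c k101_B07pp_022_s1 k102_B07pp_022_s1

theorem t2410_B07pp_022_s1 : ∃ t, chk3 f_B07pp_022_s1 t 534 288 39 = true := ex3_b t2409_B07pp_022_s1 t2408_B07pp_022_s1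

theorem t2411_B07pp_022_s1 : ∃ t, chk3 f_B07pp_022_s1 t 267 288 39 = true := ex3_a t2410_B07pp_022_s1 t2403_B07pp_022_s1

theorem t2412_B07pp_022_s1 : ∃ t, chk3 f_B07pp_022_s1 t 267 144 39 = true := ex3_b t2411_B07pp_022_s1 t2402_B07pp_022_s1

theorem t2413_B07pp_022_s1 : ∃ t, chk3 f_B07pp_022_s1 t 535 579 38 = true := ex3_c k99_B07pp_022_s1 k100_B07pp_022_s1

theorem t2414_B07pp_022_s1 : ∃ t, chk3 f_B07pp_022_s1 t 535 289 38 = true := ex3_b k98_B07pp_022_s1 t2413_B07pp_022_s1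

theorem t2415_B07pp_022_s1 : ∃ t, chk3 f_B07pp_022_s1 t 534 1158 77 = true := ex3_a k95_B07pp_022_s1 k96_B07pp_022_s1

theorem t2416_B07pp_022_s1 : ∃ t, chk3 f_B07pp_022_s1 t 534 579 77 = true := ex3_b t2415_B07pp_022_s1 k97_B07pp_022_s1

theorem t2417_B07pp_022_s1 : ∃ t, chk3 f_B07pp_022_s1 t 1068 1156 155 = true := ex3_a k91_B07pp_022_s1 k92_B07pp_022_s1

theorem t2418_B07pp_022_s1 : ∃ t, chk3 f_B07pp_022_s1 t 1068 578 155 = true := ex3_b t2417_B07pp_022_s1 k93_B07pp_022_s1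

theorem t2419_B07pp_022_s1 : ∃ t, chk3 f_B07pp_022_s1 t 1068 1157 154 = true := ex3_c k89_B07pp_022_s1 k90_B07pp_022_s1

theorem t2420_B07pp_022_s1 : ∃ t, chk3 f_B07pp_022_s1 t 1068 578 154 = true := ex3_b k88_B07pp_022_s1 t2419_B07pp_022_s1

theorem t2421_B07pp_022_s1 : ∃ t, chk3 f_B07pp_022_s1 t 1068 578 77 = true := ex3_c t2420_B07pp_022_s1 t2418_B07pp_022_s1

theorem t2422_B07pp_022_s1 : ∃ t, chk3 f_B07pp_022_s1 t 534 578 77 = true := ex3_a t2421_B07pp_022_s1 k94_B07pp_022_s1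

theorem t2423_B07pp_022_s1 : ∃ t, chk3 f_B07pp_022_s1 t 534 289 77 = true := ex3_b t2422_B07pp_022_s1 t2416_B07pp_022_s1

theorem t2424_B07pp_022_s1 : ∃ t, chk3 f_B07pp_022_s1 t 1069 1159 153 = true := ex3_a k86_B07pp_022_s1 k87_B07pp_022_s1

theorem t2425_B07pp_022_s1 : ∃ t, chk3 f_B07pp_022_s1 t 1069 1159 76 = true := ex3_c k85_B07pp_022_s1 t2424_B07pp_022_s1

theorem t2426_B07pp_022_s1 : ∃ t, chk3 f_B07pp_022_s1 t 1069 579 76 = true := ex3_b k84_B07pp_022_s1 t2425_B07pp_022_s1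

theorem t2427_B07pp_022_s1 : ∃ t, chk3 f_B07pp_022_s1 t 1068 579 76 = true := ex3_c k82_B07pp_022_s1 k83_B07pp_022_s1

theorem t2428_B07pp_022_s1 : ∃ t, chk3 f_B07pp_022_s1 t 534 579 76 = true := ex3_a t2427_B07pp_022_s1 t2426_B07pp_022_s1

theorem t2429_B07pp_022_s1 : ∃ t, chk3 f_B07pp_022_s1 t 534 289 76 = true := ex3_b k81_B07pp_022_s1 t2428_B07pp_022_s1

theorem t2430_B07pp_022_s1 : ∃ t, chk3 f_B07pp_022_s1 t 534 289 38 = true := ex3_c t2429_B07pp_022_s1 t2423_B07pp_022_s1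

theorem t2431_B07pp_022_s1 : ∃ t, chk3 f_B07pp_022_s1 t 267 289 38 = true := ex3_a t2430_B07pp_022_s1 t2414_B07pp_022_s1

theorem t2432_B07pp_022_s1 : ∃ t, chk3 f_B07pp_022_s1 t 267 288 38 = true := ex3_a k79_B07pp_022_s1 k80_B07pp_022_s1

theorem t2433_B07pp_022_s1 : ∃ t, chk3 f_B07pp_022_s1 t 267 144 38 = true := ex3_b t2432_B07pp_022_s1 t2431_B07pp_022_s1

theorem t2434_B07pp_022_s1 : ∃ t, chk3 f_B07pp_022_s1 t 267 144 19 = true := ex3_c t2433_B07pp_022_s1 t2412_B07pp_022_s1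

theorem t2435_B07pp_022_s1 : ∃ t, chk3 f_B07pp_022_s1 t 534 144 37 = true := ex3_a k76_B07pp_022_s1 k77_B07pp_022_s1

theorem t2436_B07pp_022_s1 : ∃ t, chk3 f_B07pp_022_s1 t 534 144 18 = true := ex3_c k75_B07pp_022_s1 t2435_B07pp_022_s1

theorem t2437_B07pp_022_s1 : ∃ t, chk3 f_B07pp_022_s1 t 267 144 18 = true := ex3_a t2436_B07pp_022_s1 k78_B07pp_022_s1

theorem t2438_B07pp_022_s1 : ∃ t, chk3 f_B07pp_022_s1 t 267 144 9 = true := ex3_c t2437_B07pp_022_s1 t2434_B07pp_022_s1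

theorem t2439_B07pp_022_s1 : ∃ t, chk3 f_B07pp_022_s1 t 267 72 9 = true := ex3_b t2438_B07pp_022_s1 t2395_B07pp_022_s1

theorem t2440_B07pp_022_s1 : ∃ t, chk3 f_B07pp_022_s1 t 267 145 35 = true := ex3_a k73_B07pp_022_s1 k74_B07pp_022_s1

theorem t2441_B07pp_022_s1 : ∃ t, chk3 f_B07pp_022_s1 t 267 145 17 = true := ex3_c k72_B07pp_022_s1 t2440_B07pp_022_s1

theorem t2442_B07pp_022_s1 : ∃ t, chk3 f_B07pp_022_s1 t 534 145 16 = true := ex3_b k69_B07pp_022_s1 k70_B07pp_022_s1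

theorem t2443_B07pp_022_s1 : ∃ t, chk3 f_B07pp_022_s1 t 267 145 16 = true := ex3_a t2442_B07pp_022_s1 k71_B07pp_022_s1

theorem t2444_B07pp_022_s1 : ∃ t, chk3 f_B07pp_022_s1 t 267 145 8 = true := ex3_c t2443_B07pp_022_s1 t2441_B07pp_022_s1

theorem t2445_B07pp_022_s1 : ∃ t, chk3 f_B07pp_022_s1 t 534 144 8 = true := ex3_b k66_B07pp_022_s1 k67_B07pp_022_s1

theorem t2446_B07pp_022_s1 : ∃ t, chk3 f_B07pp_022_s1 t 267 144 8 = true := ex3_a t2445_B07pp_022_s1 k68_B07pp_022_s1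

theorem t2447_B07pp_022_s1 : ∃ t, chk3 f_B07pp_022_s1 t 267 72 8 = true := ex3_b t2446_B07pp_022_s1 t2444_B07pp_022_s1

theorem t2448_B07pp_022_s1 : ∃ t, chk3 f_B07pp_022_s1 t 267 72 4 = true := ex3_c t2447_B07pp_022_s1 t2439_B07pp_022_s1

theorem t2449_B07pp_022_s1 : ∃ t, chk3 f_B07pp_022_s1 t 1067 289 38 = true := ex3_b k62_B07pp_022_s1 k63_B07pp_022_s1

theorem t2450_B07pp_022_s1 : ∃ t, chk3 f_B07pp_022_s1 t 533 289 38 = true := ex3_a k61_B07pp_022_s1 t2449_B07pp_022_s1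

theorem t2451_B07pp_022_s1 : ∃ t, chk3 f_B07pp_022_s1 t 533 289 19 = true := ex3_c t2450_B07pp_022_s1 k64_B07pp_022_s1

theorem t2452_B07pp_022_s1 : ∃ t, chk3 f_B07pp_022_s1 t 533 576 159 = true := ex3_a k58_B07pp_022_s1 k59_B07pp_022_s1

theorem t2453_B07pp_022_s1 : ∃ t, chk3 f_B07pp_022_s1 t 533 1153 158 = true := ex3_a k56_B07pp_022_s1 k57_B07pp_022_s1

theorem t2454_B07pp_022_s1 : ∃ t, chk3 f_B07pp_022_s1 t 1066 1152 158 = true := ex3_a k53_B07pp_022_s1 k54_B07pp_022_s1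

theorem t2455_B07pp_022_s1 : ∃ t, chk3 f_B07pp_022_s1 t 533 1152 158 = true := ex3_a t2454_B07pp_022_s1 k55_B07pp_022_s1

theorem t2456_B07pp_022_s1 : ∃ t, chk3 f_B07pp_022_s1 t 533 576 158 = true := ex3_b t2455_B07pp_022_s1 t2453_B07pp_022_s1

theorem t2457_B07pp_022_s1 : ∃ t, chk3 f_B07pp_022_s1 t 533 576 79 = true := ex3_c t2456_B07pp_022_s1 t2452_B07pp_022_s1

theorem t2458_B07pp_022_s1 : ∃ t, chk3 f_B07pp_022_s1 t 533 288 79 = true := ex3_b t2457_B07pp_022_s1 k60_B07pp_022_s1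

theorem t2459_B07pp_022_s1 : ∃ t, chk3 f_B07pp_022_s1 t 1067 1154 157 = true := ex3_a k50_B07pp_022_s1 k51_B07pp_022_s1

theorem t2460_B07pp_022_s1 : ∃ t, chk3 f_B07pp_022_s1 t 1067 577 157 = true := ex3_b t2459_B07pp_022_s1 k52_B07pp_022_s1

theorem t2461_B07pp_022_s1 : ∃ t, chk3 f_B07pp_022_s1 t 533 577 157 = true := ex3_a k49_B07pp_022_s1 t2460_B07pp_022_s1

theorem t2462_B07pp_022_s1 : ∃ t, chk3 f_B07pp_022_s1 t 533 1154 156 = true := ex3_a k46_B07pp_022_s1 k47_B07pp_022_s1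

theorem t2463_B07pp_022_s1 : ∃ t, chk3 f_B07pp_022_s1 t 533 577 156 = true := ex3_b t2462_B07pp_022_s1 k48_B07pp_022_s1

theorem t2464_B07pp_022_s1 : ∃ t, chk3 f_B07pp_022_s1 t 533 577 78 = true := ex3_c t2463_B07pp_022_s1 t2461_B07pp_022_s1

theorem t2465_B07pp_022_s1 : ∃ t, chk3 f_B07pp_022_s1 t 1067 1153 78 = true := ex3_b k44_B07pp_022_s1 k45_B07pp_022_s1

theorem t2466_B07pp_022_s1 : ∃ t, chk3 f_B07pp_022_s1 t 1067 576 78 = true := ex3_b k43_B07pp_022_s1 t2465_B07pp_022_s1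

theorem t2467_B07pp_022_s1 : ∃ t, chk3 f_B07pp_022_s1 t 1066 576 78 = true := ex3_c k41_B07pp_022_s1 k42_B07pp_022_s1

theorem t2468_B07pp_022_s1 : ∃ t, chk3 f_B07pp_022_s1 t 533 576 78 = true := ex3_a t2467_B07pp_022_s1 t2466_B07pp_022_s1

theorem t2469_B07pp_022_s1 : ∃ t, chk3 f_B07pp_022_s1 t 533 288 78 = true := ex3_b t2468_B07pp_022_s1 t2464_B07pp_022_s1

theorem t2470_B07pp_022_s1 : ∃ t, chk3 f_B07pp_022_s1 t 533 288 39 = true := ex3_c t2469_B07pp_022_s1 t2458_B07pp_022_s1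

theorem t2471_B07pp_022_s1 : ∃ t, chk3 f_B07pp_022_s1 t 533 577 77 = true := ex3_c k39_B07pp_022_s1 k40_B07pp_022_s1

theorem t2472_B07pp_022_s1 : ∃ t, chk3 f_B07pp_022_s1 t 533 288 77 = true := ex3_b k38_B07pp_022_s1 t2471_B07pp_022_s1

theorem t2473_B07pp_022_s1 : ∃ t, chk3 f_B07pp_022_s1 t 533 288 38 = true := ex3_c k37_B07pp_022_s1 t2472_B07pp_022_s1

theorem t2474_B07pp_022_s1 : ∃ t, chk3 f_B07pp_022_s1 t 533 288 19 = true := ex3_c t2473_B07pp_022_s1 t2470_B07pp_022_s1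

theorem t2475_B07pp_022_s1 : ∃ t, chk3 f_B07pp_022_s1 t 533 144 19 = true := ex3_b t2474_B07pp_022_s1 t2451_B07pp_022_s1

theorem t2476_B07pp_022_s1 : ∃ t, chk3 f_B07pp_022_s1 t 266 144 19 = true := ex3_a k36_B07pp_022_s1 t2475_B07pp_022_s1

theorem t2477_B07pp_022_s1 : ∃ t, chk3 f_B07pp_022_s1 t 1066 288 18 = true := ex3_b k32_B07pp_022_s1 k33_B07pp_022_s1

theorem t2478_B07pp_022_s1 : ∃ t, chk3 f_B07pp_022_s1 t 533 288 18 = true := ex3_a t2477_B07pp_022_s1 k34_B07pp_022_s1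

theorem t2479_B07pp_022_s1 : ∃ t, chk3 f_B07pp_022_s1 t 266 288 18 = true := ex3_a k31_B07pp_022_s1 t2478_B07pp_022_s1

theorem t2480_B07pp_022_s1 : ∃ t, chk3 f_B07pp_022_s1 t 266 144 18 = true := ex3_b t2479_B07pp_022_s1 k35_B07pp_022_s1

theorem t2481_B07pp_022_s1 : ∃ t, chk3 f_B07pp_022_s1 t 266 144 9 = true := ex3_c t2480_B07pp_022_s1 t2476_B07pp_022_s1

theorem t2482_B07pp_022_s1 : ∃ t, chk3 f_B07pp_022_s1 t 266 72 9 = true := ex3_b t2481_B07pp_022_s1 k65_B07pp_022_s1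

theorem t2483_B07pp_022_s1 : ∃ t, chk3 f_B07pp_022_s1 t 533 289 8 = true := ex3_c k28_B07pp_022_s1 k29_B07pp_022_s1

theorem t2484_B07pp_022_s1 : ∃ t, chk3 f_B07pp_022_s1 t 266 289 8 = true := ex3_a k27_B07pp_022_s1 t2483_B07pp_022_s1

theorem t2485_B07pp_022_s1 : ∃ t, chk3 f_B07pp_022_s1 t 2132 576 8 = true := ex3_b k22_B07pp_022_s1 k23_B07pp_022_s1

theorem t2486_B07pp_022_s1 : ∃ t, chk3 f_B07pp_022_s1 t 1066 576 8 = true := ex3_a t2485_B07pp_022_s1 k24_B07pp_022_s1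

theorem t2487_B07pp_022_s1 : ∃ t, chk3 f_B07pp_022_s1 t 1066 288 8 = true := ex3_b t2486_B07pp_022_s1 k25_B07pp_022_s1

theorem t2488_B07pp_022_s1 : ∃ t, chk3 f_B07pp_022_s1 t 533 288 8 = true := ex3_a t2487_B07pp_022_s1 k26_B07pp_022_s1

theorem t2489_B07pp_022_s1 : ∃ t, chk3 f_B07pp_022_s1 t 266 288 8 = true := ex3_a k21_B07pp_022_s1 t2488_B07pp_022_s1

theorem t2490_B07pp_022_s1 : ∃ t, chk3 f_B07pp_022_s1 t 266 144 8 = true := ex3_b t2489_B07pp_022_s1 t2484_B07pp_022_s1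

theorem t2491_B07pp_022_s1 : ∃ t, chk3 f_B07pp_022_s1 t 266 72 8 = true := ex3_b t2490_B07pp_022_s1 k30_B07pp_022_s1

theorem t2492_B07pp_022_s1 : ∃ t, chk3 f_B07pp_022_s1 t 266 72 4 = true := ex3_c t2491_B07pp_022_s1 t2482_B07pp_022_s1

theorem t2493_B07pp_022_s1 : ∃ t, chk3 f_B07pp_022_s1 t 133 72 4 = true := ex3_a t2492_B07pp_022_s1 t2448_B07pp_022_s1

theorem t2494_B07pp_022_s1 : ∃ t, chk3 f_B07pp_022_s1 t 133 36 4 = true := ex3_b t2493_B07pp_022_s1 t2339_B07pp_022_s1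

theorem t2495_B07pp_022_s1 : ∃ t, chk3 f_B07pp_022_s1 t 66 36 4 = true := ex3_a k20_B07pp_022_s1 t2494_B07pp_022_s1

theorem t2496_B07pp_022_s1 : ∃ t, chk3 f_B07pp_022_s1 t 66 18 4 = true := ex3_b t2495_B07pp_022_s1 k188_B07pp_022_s1

theorem t2497_B07pp_022_s1 : ∃ t, chk3 f_B07pp_022_s1 t 33 18 4 = true := ex3_a t2496_B07pp_022_s1 t2328_B07pp_022_s1

theorem t2498_B07pp_022_s1 : ∃ t, chk3 f_B07pp_022_s1 t 33 18 2 = true := ex3_c t2497_B07pp_022_s1 t1836_B07pp_022_s1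

theorem t2499_B07pp_022_s1 : ∃ t, chk3 f_B07pp_022_s1 t 33 9 2 = true := ex3_b t2498_B07pp_022_s1 t1619_B07pp_022_s1

theorem t2500_B07pp_022_s1 : ∃ t, chk3 f_B07pp_022_s1 t 16 9 2 = true := ex3_a k19_B07pp_022_s1 t2499_B07pp_022_s1

theorem t2501_B07pp_022_s1 : ∃ t, chk3 f_B07pp_022_s1 t 16 9 1 = true := ex3_c t2500_B07pp_022_s1 t1610_B07pp_022_s1

theorem t2502_B07pp_022_s1 : ∃ t, chk3 f_B07pp_022_s1 t 133 71 10 = true := ex3_c k14_B07pp_022_s1 k15_B07pp_022_s1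

theorem t2503_B07pp_022_s1 : ∃ t, chk3 f_B07pp_022_s1 t 133 35 10 = true := ex3_b k13_B07pp_022_s1 t2502_B07pp_022_s1

theorem t2504_B07pp_022_s1 : ∃ t, chk3 f_B07pp_022_s1 t 66 35 10 = true := ex3_a k12_B07pp_022_s1 t2503_B07pp_022_s1

theorem t2505_B07pp_022_s1 : ∃ t, chk3 f_B07pp_022_s1 t 66 35 5 = true := ex3_c t2504_B07pp_022_s1 k16_B07pp_022_s1

theorem t2506_B07pp_022_s1 : ∃ t, chk3 f_B07pp_022_s1 t 33 35 5 = true := ex3_a t2505_B07pp_022_s1 k17_B07pp_022_s1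

theorem t2507_B07pp_022_s1 : ∃ t, chk3 f_B07pp_022_s1 t 33 17 5 = true := ex3_b k11_B07pp_022_s1 t2506_B07pp_022_s1

theorem t2508_B07pp_022_s1 : ∃ t, chk3 f_B07pp_022_s1 t 67 17 4 = true := ex3_c k9_B07pp_022_s1 k10_B07pp_022_s1

theorem t2509_B07pp_022_s1 : ∃ t, chk3 f_B07pp_022_s1 t 266 71 9 = true := ex3_b k6_B07pp_022_s1 k7_B07pp_022_s1

theorem t2510_B07pp_022_s1 : ∃ t, chk3 f_B07pp_022_s1 t 266 35 9 = true := ex3_b k5_B07pp_022_s1 t2509_B07pp_022_s1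

theorem t2511_B07pp_022_s1 : ∃ t, chk3 f_B07pp_022_s1 t 133 35 9 = true := ex3_a t2510_B07pp_022_s1 k8_B07pp_022_s1

theorem t2512_B07pp_022_s1 : ∃ t, chk3 f_B07pp_022_s1 t 133 35 4 = true := ex3_c k4_B07pp_022_s1 t2511_B07pp_022_s1

theorem t2513_B07pp_022_s1 : ∃ t, chk3 f_B07pp_022_s1 t 133 17 4 = true := ex3_b k3_B07pp_022_s1 t2512_B07pp_022_s1

theorem t2514_B07pp_022_s1 : ∃ t, chk3 f_B07pp_022_s1 t 66 17 4 = true := ex3_a k2_B07pp_022_s1 t2513_B07pp_022_s1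

theorem t2515_B07pp_022_s1 : ∃ t, chk3 f_B07pp_022_s1 t 33 17 4 = true := ex3_a t2514_B07pp_022_s1 t2508_B07pp_022_s1

theorem t2516_B07pp_022_s1 : ∃ t, chk3 f_B07pp_022_s1 t 33 17 2 = true := ex3_c t2515_B07pp_022_s1 t2507_B07pp_022_s1

theorem t2517_B07pp_022_s1 : ∃ t, chk3 f_B07pp_022_s1 t 33 8 2 = true := ex3_b k1_B07pp_022_s1 t2516_B07pp_022_s1

theorem t2518_B07pp_022_s1 : ∃ t, chk3 f_B07pp_022_s1 t 16 8 2 = true := ex3_a k0_B07pp_022_s1 t2517_B07pp_022_s1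

theorem t2519_B07pp_022_s1 : ∃ t, chk3 f_B07pp_022_s1 t 16 8 1 = true := ex3_c t2518_B07pp_022_s1 k18_B07pp_022_s1

theorem t2520_B07pp_022_s1 : ∃ t, chk3 f_B07pp_022_s1 t 16 4 1 = true := ex3_b t2519_B07pp_022_s1 t2501_B07pp_022_s1

theorem t2521_B07pp_022_s1 : ∃ t, chk3 f_B07pp_022_s1 t 8 4 1 = true := ex3_a t2520_B07pp_022_s1 t1570_B07pp_022_s1

theorem t2522_B07pp_022_s1 : ∃ t, chk3 f_B07pp_022_s1 t 8 2 1 = true := ex3_b t2521_B07pp_022_s1 t1395_B07pp_022_s1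

theorem t2523_B07pp_022_s1 : ∃ t, chk3 f_B07pp_022_s1 t 4 2 1 = true := ex3_a t2522_B07pp_022_s1 t1323_B07pp_022_s1

theorem t2524_B07pp_022_s1 : ∃ t, chk3 f_B07pp_022_s1 t 4 1 1 = true := ex3_b t2523_B07pp_022_s1 t1293_B07pp_022_s1

theorem t2525_B07pp_022_s1 : ∃ t, chk3 f_B07pp_022_s1 t 2 1 1 = true := ex3_a t2524_B07pp_022_s1 t1280_B07pp_022_s1

theorem t2526_B07pp_022_s1 : ∃ t, chk3 f_B07pp_022_s1 t 1 1 1 = true := ex3_a t2525_B07pp_022_s1 k1263_B07pp_022_s1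

theorem c_B07pp_022_s1 : CertNX 0 536870912 1073741824 536870912 1046898278 26843546 3 false true true .pp 0 2 2
    ndN0q0 ndN7q2 pcN2 cut_B07pp_022_s1 xt_B07pp_022_s1 :=
  certNX2 (N0 := 3) (fam := false) (s1 := true) (s2 := true) (a := 0) (b := 2) (c := 2) (cn := .pp) (n1 := ndN0q0) (n2 := ndN7q2) (pc := pcN2) (cut := cut_B07pp_022_s1) (xt := xt_B07pp_022_s1) (P1 := 0) (W1 := 536870912) (P2 := 1073741824) (W2 := 536870912) (P3 := 1046898278) (W3 := 26843546)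
    rfl (fun _ => rfl) t2526_B07pp_022_s1

theorem s_B07pp_022_s1 {κ x : ℝ} (hκ : κ * h0 = kenE x) (hx : 39 / 40 ≤ x) (hx' : x < 1)
    (H : CutVB (VND 3 κ) (DD x) tKN tL pcN (Cut.of [[⟨0, 0, 0, 67108864⟩, ⟨1, 1, 0, 67108864⟩, ⟨2, 1, 0, 67108864⟩]]) 0 2 2 0 7 (sgb true) (sgb true) x) :
    AltVB (VND 3 κ) (DD x) tKN tL pcN [⟨3, 0, 0, 1140850688⟩] 0 2 2 0 7 (sgb true) (sgb true) x :=
  strip_altVBN (d := 1140850688) true rfl hκ (κ0 hκ hx) (x0 hx) hx' (covN00 hx hx') (covN72 hx hx') (x1 hx) (x2 hx') c_B07pp_022_s1 H ((ok hx hx').extBN (T := tt) (sideN hx hx') hκ (κ0 hκ hx) rfl rfl (.O 0 true) (.N 2 true) rfl)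

end Pool.Agent.Strip051.G.IE1.Tab.StN.C
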