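import Pool.Agent.Strip051.G.IE1.Tab

/-! # Certificates N54 (generated) -/

set_option linter.all false
set_option maxRecDepth 100000

namespace Pool.Agent.Strip051.G.IE1.Tab.C.NB06

open Pool.Agent.Strip051.PB Pool.Agent.Strip051.PB.T
open Pool.Agent.Strip051.G.IE1.Tab

noncomputable def cut_pp_123 : Cut := Cut.of [[⟨0, 1, 0, 67108864⟩, ⟨1, 1, 0, 67108864⟩, ⟨2, 2, 0, 67108864⟩, ⟨3, 0, 0, 1233125376⟩]]

noncomputable def f_pp_123 : ℕ → ℕ → ℕ → ℕ → Bool := onCell 1073741824 536870912 0 1230186008 1046898278 26843546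
    (rowNX 3 2 false true true .npn 1 2 3 (qsf 536870912 536870912 0 1230186008 2) ndN0q1 ndN6q3 pcN2 cut_pp_123 Ext.none)

def k0_pp_123 : ∃ t, chk3 f_pp_123 t 16 4 1 = true :=
  ⟨(l 6), by decide +kernel⟩

def k1_pp_123 : ∃ t, chk3 f_pp_123 t 17 8 1 = true :=
  ⟨(a (l 6) (b (b (c (c (a (c (l 16466008) (a (l 16495776) (l 16439800))) (l 16300976)) (l 16325048)) (a (l 16471792) (l 16276664))) (a (l 6) (c (c (c (a (l 16389656) (c (l 16304688) (l 16304200))) (a (l 16387128) (l 16305464))) (b (l 16325808) (c (l 16354592) (l 16343696)))) (l 16323208)))) (a (l 6) (b (a (l 6) (c (c (c (l 16346696) (l 16334928)) (c (l 16330672) (b (l 16327696) (l 16338000)))) (c (c (a (l 16260568) (l 16274504)) (l 16344184)) (l 16317240)))) (c (c (a (b (l 16431792) (l 16445688)) (l 16306664)) (b (l 16394904) (l 16353312))) (c (b (a (c (l 16416896) (l 16403920)) (c (l 16356176) (l 16361704))) (a (b (l 16427064) (l 16429944)) (c (l 16390392) (l 16394840)))) (b (c (l 16367888) (l 16381704)) (c (a (l 16335504) (l 16365808))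 (l 16360624))))))))), by decide +kernel⟩

def k2_pp_123 : ∃ t, chk3 f_pp_123 t 34 9 1 = true :=
  ⟨(b (l 6) (b (a (l 6) (b (a (l 6) (a (b (l 6) (a (l 6) (c (c (l 16480480) (l 16425496)) (c (l 16383376) (l 16336776))))) (c (c (b (a (l 16504800) (l 16506000)) (a (l 16483944) (l 16489256))) (b (a (l 16449208) (l 16451528)) (a (l 16451040) (l 16437136)))) (c (b (l 16411312) (a (l 16389736) (l 16398840))) (b (l 16369224) (a (l 16345000) (l 16356168))))))) (a (b (b (l 6) (b (l 6) (l 3))) (l 3)) (c (a (a (a (b (b (l 6) (c (c (l 310478553255) (l 301351692551)) (l 16393160))) (l 3)) (b (c (c (l 16470472) (l 16440800)) (l 16402704)) (c (c (l 367386815799) (l 365776164935)) (l 362018010487)))) (c (b (b (l 16465352) (l 16456136)) (c (b (l 16461296) (l 365776230791)) (b (l 16432928) (l 362554955687)))) (b (l 16408840) (b (l 16397984) (l 359333676935))))) (c (b (l 16470400) (c (l 16467840) (a (l 16437152) (l 16444264)))) (a (l 16410160) (l 16418048)))) (a (b (c (a (l 268065574663) (l 16366888)) (l 244443091511))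 (c (a (l 355575467047) (l 263233719927)) (l 335711076039))) (c (c (l 16385160) (l 16365784)) (l 16330112))))))) (b (a (l 3) (a (l 3) (a (l 3) (c (b (c (a (c (b (l 363091878983) (l 373292392887)) (l 364165556903)) (c (l 285245607863) (l 275045012183))) (a (l 359870542455) (l 16400120))) (c (a (l 3) (c (l 373829256151) (l 368460491863))) (l 364165459431))) (b (c (a (l 353428021207) (l 16362112)) (l 16306640)) (c (l 355575455447) (l 16282968))))))) (l 3)))), by decide +kernel⟩

def k3_pp_123 : ∃ t, chk3 f_pp_123 t 35 18 1 = true :=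
  ⟨(b (a (a (l 6) (c (c (l 16449656) (l 16517768)) (l 16467144))) (a (c (l 16433320) (l 16435576)) (b (b (c (l 16409288) (c (l 16400960) (l 16387488))) (l 16375816)) (c (l 16447352) (l 16409696))))) (a (a (b (a (l 6) (c (c (l 16554680) (l 16503472)) (b (l 16453624) (l 16440880)))) (c (c (a (l 16532896) (l 16531296)) (l 16480752)) (c (l 16442792) (l 16407128)))) (a (c (b (c (l 16526864) (l 16500672)) (l 16506408)) (b (c (l 16462896) (l 16432256)) (l 16431080))) (c (c (b (l 16538296) (l 16520832)) (l 16485584)) (b (l 16442728) (l 16427352))))) (a (c (b (l 16496608) (c (a (l 16512016) (l 16503376)) (l 16468360))) (b (l 16428024) (c (l 16437408) (l 16410216)))) (c (l 16466632) (l 16405960))))), by decide +kernel⟩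

def k4_pp_123 : ∃ t, chk3 f_pp_123 t 140 19 1 = true :=
  ⟨(a (b (c (b (c (a (l 16501440) (l 16503568)) (a (l 16450112) (l 16453640))) (c (b (a (l 16477552) (l 16483552)) (a (l 16463976) (l 16469168))) (b (a (l 16429824) (l 16437688)) (l 16422424)))) (b (c (a (l 16412824) (l 16417776)) (l 16376832)) (c (b (a (l 16393712) (l 16403472)) (l 16387248)) (b (l 16357240) (l 16345200))))) (b (c (c (b (c (l 16465008) (l 16441384)) (a (c (b (l 16450680) (l 368997444071)) (l 271286902391)) (l 16444408))) (a (b (l 16409104) (l 16396720)) (l 16411800))) (c (a (l 253033216103) (l 16377304)) (l 233705672551))) (b (c (a (l 371144808327) (c (b (l 271286947223) (l 375439863271)) (l 260549431991))) (c (l 342153643655) (l 16303376))) (l 3)))) (b (c (b (c (l 16507016) (l 16459408)) (c (b (l 16488424) (a (b (l 16477248) (l 16470232)) (l 16479144))) (b (l 16444576) (a (l 16432040) (l 16439432))))) (b (l 16406976) (b (l 16393320) (c (a (l 16399312) (l 16408384)) (l 16365272))))) (c (b (c (a (c (l 16467184) (l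 16445264)) (b (l 16465968) (l 16456576))) (a (l 16419128) (l 16424272))) (c (b (a (b (l 16443008) (l 16437648)) (l 16447144)) (a (l 374902992615) (l 258402047063))) (b (l 16410336) (l 359870568167)))) (b (c (a (l 16386264) (l 16392768)) (l 16348800)) (c (b (l 16378128) (l 338932453223)) (l 225652595991)))))), by decide +kernel⟩

def k5_pp_123 : ∃ t, chk3 f_pp_123 t 141 19 1 = true :=
  ⟨(b (c (c (a (b (l 16509472) (l 16488304)) (l 16496672)) (a (l 16456352) (l 16456984))) (a (l 16407536) (l 16410928))) (c (a (b (c (b (a (l 16492128) (l 16475776)) (a (l 16461600) (l 16464816))) (b (a (l 16435432) (l 16441504)) (l 16428984))) (c (c (l 16460280) (l 16443528)) (l 16421552))) (b (b (l 16457960) (c (a (l 16467976) (l 16465912)) (l 16437400))) (c (b (a (l 16459968) (l 16458120)) (l 16453352)) (a (l 16427736) (l 16425088))))) (a (b (c (b (a (l 16405656) (l 16413128)) (l 16399640)) (b (l 16373544) (l 16362440))) (c (l 16391984) (l 16354656))) (b (c (b (l 16414208) (l 16410344)) (l 16379800)) (c (a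 (l 16399816) (l 16397648)) (l 16361456)))))), by decide +kernel⟩

def k6_pp_123 : ∃ t, chk3 f_pp_123 t 71 19 1 = true :=
  ⟨(b (c (a (c (b (l 16492400) (l 16479248)) (l 16446376)) (b (a (l 16459976) (l 16453928)) (l 16447984))) (a (a (l 16408136) (l 16402040)) (b (c (l 16414120) (l 16388600)) (l 16394280)))) (a (c (b (c (l 16464696) (l 16434232)) (a (c (b (l 16458400) (a (l 16450736) (l 16450496))) (b (l 16430592) (l 16422952))) (c (l 16451712) (l 16425592)))) (b (l 16392520) (a (c (b (l 16404752) (l 16396640)) (b (l 16371288) (l 16362760))) (c (l 16400744) (l 16368888))))) (c (c (l 16489600) (l 16421184)) (l 16383120)))), by decide +kernel⟩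

def k7_pp_123 : ∃ t, chk3 f_pp_123 t 8 5 1 = true :=
  ⟨(a (l 3) (b (a (l 3) (b (b (b (a (a (a (l 3) (a (l 3) (c (l 370071060391) (l 342690510423)))) (a (c (c (b (a (l 258938909527) (l 16444616)) (l 371681763367)) (b (l 245517094695) (l 359333665527))) (c (b (l 16358792) (l 16362984)) (l 216525786311))) (c (c (a (l 246590912807) (l 16444768)) (l 16417728)) (c (l 16389352) (l 16354072))))) (c (a (a (c (l 16443832) (l 16418432)) (c (b (l 16443144) (l 16439064)) (b (l 16418336) (l 16415264)))) (a (b (l 16427656) (c (l 16436936) (l 16414336))) (l 16422160))) (a (a (c (l 16391504) (l 16357864)) (c (b (l 16393064) (l 16389472)) (l 16356776))) (a (c (l 16372312) (l 16362864)) (l 16374128))))) (a (a (l 3) (a (l 3) (c (c (b (l 346448868327) (l 3)) (l 344301315031)) (c (l 325510664743) (l 16327856))))) (c (a (a (c (b (l 16437616) (l 336248328695)) (b (l 16413736) (l 16406080))) (c (l 16434528) (l 16411968))) (a (c (l 16430040) (l 16408408)) (c (b (l 16431216) (l 16425768)) (b (l 16410640) (l 16405688)))))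 (a (a (c (l 16380392) (l 16347160)) (l 16369664)) (a (c (l 16383032) (l 16352896)) (c (l 16383704) (l 16355128))))))) (a (l 3) (b (a (a (c (c (l 348059389479) (l 342153773207)) (l 323363159143)) (c (c (b (l 16428768) (l 16439088)) (l 234779688919)) (c (l 16372144) (l 16341304)))) (c (a (c (l 16427896) (l 16407520)) (c (l 16425632) (l 16406328))) (a (c (l 16381424) (l 16352432)) (l 16367824)))) (a (l 3) (a (c (c (l 335711434919) (l 333563920007)) (c (l 16367736) (l 16339768))) (c (c (l 218673600775) (l 16405928)) (c (l 16381272) (l 16355232)))))))) (b (b (b (a (l 3) (a (l 3) (a (l 3) (c (l 334100819159) (l 16367688))))) (l 3)) (l 3)) (l 3)))) (l 3))), by decide +kernel⟩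

def k8_pp_123 : ∃ t, chk3 f_pp_123 t 18 16 1 = true :=
  ⟨(a (c (c (b (l 16053072) (b (l 16171024) (a (c (l 16258256) (l 16256792)) (c (l 16185208) (l 16176144))))) (a (l 16179600) (l 16075800))) (a (b (l 16122272) (l 16205464)) (b (l 15995056) (l 16119584)))) (c (c (a (l 15952328) (l 15783480)) (a (l 15937232) (l 15765240))) (c (a (l 15921824) (l 15746632)) (a (l 15905544) (l 15727112))))), by decide +kernel⟩

def k9_pp_123 : ∃ t, chk3 f_pp_123 t 18 17 1 = true :=
  ⟨(a (b (c (a (c (c (l 16191320) (b (l 16285304) (l 16312288))) (a (c (l 16301624) (b (l 16286584) (l 16315064))) (c (l 16275344) (b (l 16265136) (l 16313416))))) (c (c (b (l 16243464) (l 16279376)) (b (l 16243032) (l 16284384))) (b (l 16223720) (c (a (l 16299296) (l 16275616)) (a (l 16293672) (l 16261728)))))) (a (a (c (c (a (l 16241520) (l 16239520)) (l 16289704)) (l 16281832)) (l 16273032)) (l 16235616))) (c (a (c (l 16374080) (c (l 16369232) (b (l 16339464) (l 16385328)))) (b (c (l 16289512) (c (l 16286816) (a (l 16340040)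 (l 16332088)))) (c (l 16397568) (c (l 16392592) (l 16358344))))) (c (b (a (c (c (l 16341648) (a (l 16339152) (l 16347368))) (a (l 16313856) (l 16324376))) (a (c (b (l 16321464) (l 16357600)) (l 16331736)) (l 16316464))) (a (a (c (l 16375752) (l 16296384)) (c (l 16380848) (c (l 16325032) (l 16395632)))) (c (c (l 16383320) (a (l 16386480) (l 16388152))) (a (a (l 16303568) (l 16289184)) (a (l 16311256) (l 16376504)))))) (a (c (b (l 16350656) (l 16275296)) (l 16354272)) (a (l 16320880) (l 16337848)))))) (b (c (c (a (c (b (l 16157184) (l 16185464)) (a (l 16197504) (l 16155192))) (c (a (l 16117192) (l 16042248)) (l 16068472))) (l 16077568)) (a (l 16153912) (l 16037448))) (a (c (c (c (l 16167208) (b (l 16224424) (l 16356032))) (c (b (a (l 16308600) (l 16279112)) (l 16267896)) (a (b (l 16304912) (l 16369120)) (b (l 16262424) (l 16355632))))) (c (a (c (b (l 16292288) (b (l 16347304) (l 16395288))) (l 16325576)) (l 16297328)) (l 16302592))) (c (c (c (b (l 16132648) (l 16289360)) (b (l 16097192) (l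 16169728))) (b (l 16198328) (c (c (l 16305720) (l 16308328)) (c (l 16302248) (l 16290464))))) (l 16124256))))), by decide +kernel⟩

def k10_pp_123 : ∃ t, chk3 f_pp_123 t 18 36 1 = true :=
  ⟨(c (a (c (a (b (l 16429456) (l 16448560)) (b (l 16453064) (l 16484752))) (a (a (l 16395384) (l 16362688)) (b (l 16447520) (l 16376544)))) (a (c (l 16413320) (c (l 16473800) (b (l 16358864) (l 16510912)))) (c (c (l 16441432) (l 16429472)) (c (b (l 16230592) (l 16483288)) (b (c (l 16387728) (l 16395880)) (l 16383784)))))) (c (b (a (a (a (b (l 16400656) (l 16408544)) (c (l 16434632) (b (l 16418592) (l 16440976)))) (c (a (l 16443400) (l 16438160)) (a (c (l 16438680) (l 16406208)) (c (b (l 16428080) (l 16457600)) (l 16370584))))) (c (a (c (l 16427376) (a (l 16435536) (l 16431232))) (b (l 16361040) (c (l 16417256) (l 16412560)))) (a (a (c (b (l 16427056) (l 16454904)) (l 16362816)) (c (b (l 16402168) (l 16451160)) (l 16419584))) (l 16381688)))) (a (b (a (a (l 16421888) (l 16449688)) (c (l 16489680) (a (l 16480720)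 (l 16488704)))) (a (l 16444376) (a (l 16490304) (l 16520904)))) (a (c (a (l 16511488) (l 16497264)) (c (a (l 16505048) (b (l 16480904) (l 16519280))) (a (l 16380104) (b (l 16384016) (l 16510696))))) (c (c (l 16473368) (a (l 16485208) (l 16475264))) (c (a (b (l 16474624) (l 16505552)) (b (l 16441056) (l 16496848))) (b (l 16449768) (a (l 16509792) (l 16400048)))))))) (a (a (c (a (c (l 16398584) (l 16332176)) (b (b (l 16411776) (l 16430920)) (l 16437296))) (b (l 16346728) (l 16400152))) (b (c (c (l 16358744) (l 16442864)) (l 16435888)) (c (a (c (l 16474816) (l 16446752)) (b (l 16478888) (l 16422032))) (l 16340016)))) (a (c (b (l 16340728) (a (l 16389800) (l 16363688))) (l 16463184)) (c (a (l 16292632) (l 16402800)) (l 16411432)))))), by decide +kernel⟩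

def k11_pp_123 : ∃ t, chk3 f_pp_123 t 18 37 1 = true :=
  ⟨(a (a (c (l 16481592) (l 16438528)) (a (l 16510968) (b (c (l 16493400) (b (c (l 16530784) (c (l 16508416) (l 16515496))) (l 16540816))) (l 16551040)))) (a (a (b (c (l 16441976) (c (b (l 16557560) (l 16568280)) (c (c (l 16523648) (l 16454808)) (l 16503136)))) (l 16586008)) (b (c (c (l 16587224) (l 16586728)) (c (c (l 16583560) (b (l 16554056) (l 16589416))) (c (b (l 16479240) (a (l 16550064) (l 16556104))) (l 16488768)))) (b (c (l 16614096) (c (l 16603184) (c (l 16514312) (l 16588728)))) (l 16621328)))) (c (c (b (l 16573160) (l 16649320)) (b (l 16529312) (a (l 16643384) (l 16656976)))) (c (b (c (a (l 16574760) (l 16553528)) (c (a (l 16567632) (b (l 16528304) (l 16576544))) (a (b (l 16537568) (l 16583144)) (b (l 16533352) (l 16564456))))) (c (l 16641296) (a (b (l 16623696) (l 16634920)) (b (l 16616840) (l 16657448))))) (b (c (c (a (l 16445464) (l 16420736)) (l 16457520)) (l 16518168)) (c (a (c (l 16610272) (c (l 16615704) (l 16546464)))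 (b (c (l 16499680) (l 16560184)) (l 16585448))) (c (a (l 16551152) (l 16642920)) (l 16630936)))))))), by decide +kernel⟩

def k12_pp_123 : ∃ t, chk3 f_pp_123 t 18 19 1 = true :=
  ⟨(b (a (a (c (a (b (l 16464800) (l 16412192)) (l 16496856)) (a (b (l 16417544) (l 16408704)) (l 16460920))) (l 16511064)) (a (l 16610064) (a (l 16659848) (b (c (l 16608008) (b (c (l 16669464) (c (l 16601144) (l 16658808))) (l 16677112))) (l 16692168))))) (a (a (c (a (l 16441656) (b (l 16479656) (l 16470336))) (a (l 16398168) (b (l 16446056) (l 16437160)))) (c (a (l 16514992) (l 16557952)) (a (l 16490504) (l 16542240)))) (a (l 16604632) (l 16660392)))), by decide +kernel⟩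

def k13_pp_123 : ∃ t, chk3 f_pp_123 t 19 8 1 = true :=
  ⟨(a (b (c (a (c (a (l 15635568) (l 15525248)) (l 15413256)) (c (l 15321736) (l 15296008))) (a (b (l 15404488) (l 15545096)) (b (l 15126176) (l 15385160)))) (c (c (b (a (l 15926336) (l 15687848)) (a (c (a (b (l 16140616) (l 16230736)) (a (l 16114840) (l 15905688))) (b (l 16087768) (a (l 16244616) (a (l 16197784) (l 16146704))))) (c (l 15843728) (l 15918952)))) (a (b (l 15910040) (l 16135088)) (l 15786264))) (a (c (l 15777848) (l 15761856)) (c (l 15769184) (l 15748992))))) (b (c (b (c (a (l 14924272) (l 14718192)) (a (l 14891864) (l 14682008))) (c (l 15036088) (l 15004456))) (b (a (b (l 14791304) (l 14900496)) (b (l 14602496) (l 14628496))) (l 14955336))) (c (c (l 15318664) (l 15376408)) (c (l 15352200) (l 15324792))))), by decide +kernel⟩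

def k14_pp_123 : ∃ t, chk3 f_pp_123 t 19 36 1 = true :=
  ⟨(a (a (c (a (c (c (l 16392584) (l 16285544)) (c (b (l 16340072) (l 16428776)) (b (l 16345368) (l 16414440)))) (c (b (c (l 16252248) (a (l 16298072) (l 16267560))) (l 16327776)) (c (a (b (l 16312952) (l 16400296)) (b (l 16273000) (l 16369384))) (b (l 16275368) (a (l 16418920) (l 16284600)))))) (c (c (b (l 16301160) (a (c (l 16448840) (l 16448792)) (c (a (l 16417592) (l 16373672)) (l 16390336)))) (l 16351864)) (l 16338520))) (c (c (c (b (l 16104168) (l 16204840)) (b (l 16075304) (l 16162520))) (b (l 16089504) (c (l 16055968) (c (l 16224416) (l 16207240))))) (l 16129320))) (c (c (a (c (b (l 15859784) (l 15955744)) (b (l 15832448) (l 15970168))) (c (l 15540520) (l 15630296))) (a (c (c (l 15896808) (l 15883424)) (l 15878664)) (l 15616992))) (l 15531264))), by decide +kernel⟩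

def k15_pp_123 : ∃ t, chk3 f_pp_123 t 19 37 1 = true :=
  ⟨(c (a (a (c (a (l 16592416) (l 16498368)) (a (b (l 16543576) (l 16641088)) (c (l 16560712) (a (l 16542496) (l 16493808))))) (c (l 16301608) (c (b (l 16267488) (l 16438784)) (b (l 16074128) (l 16399504))))) (c (c (a (l 16116488) (b (l 15812480) (l 15937544))) (a (b (l 16055160) (l 16182840)) (b (l 15828296) (l 15921672)))) (a (c (b (l 16010488) (l 16161848)) (b (a (l 16143992) (l 15994064)) (l 16024536))) (c (b (l 15823240) (l 15937272)) (b (l 15800320) (c (l 15944048) (l 15935992))))))) (a (a (c (b (a (c (l 16443608) (c (b (l 16517200) (l 16551072)) (b (c (l 16508464) (l 16502064)) (l 16556728)))) (a (c (l 16451872) (b (l 16482472) (c (l 16541552) (l 16538800)))) (c (c (l 16485272) (l 16492432)) (c (l 16468728) (l 16472608))))) (a (c (l 16634384) (c (l 16627656) (b (l 16591704) (l 16646376)))) (c (l 16600816) (a (b (l 16540616) (l 16635432)) (c (l 16573352) (b (l 16559312) (l 16597336))))))) (a (c (c (b (l 16556040) (c (l 16601088)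 (l 16610264))) (l 16574744)) (l 16581128)) (b (l 16480840) (c (a (c (l 16589200) (l 16628112)) (c (a (b (l 16602312) (l 16616504)) (l 16594376)) (l 16603128))) (a (l 16614064) (l 16571496)))))) (c (c (c (b (l 16336544) (l 16415576)) (b (a (l 16397360) (l 16249440)) (a (l 16479040) (l 16359936)))) (b (l 16307600) (a (c (b (l 16465192) (l 16502616)) (b (c (l 16460992) (l 16451256)) (l 16507400))) (c (b (l 16329160) (l 16383648)) (a (l 16221144) (l 16312136)))))) (a (c (b (l 16364560) (c (b (l 16447736) (l 16518968)) (l 16472720))) (l 16415008)) (l 16281576)))) (c (a (b (l 16045568) (c (c (l 16179360) (a (l 16239136) (l 16094024))) (a (c (c (l 16226368) (l 16217408)) (l 16212600)) (l 16083776)))) (l 15845872)) (l 15951712)))), by decide +kernel⟩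

def k16_pp_123 : ∃ t, chk3 f_pp_123 t 38 19 1 = true :=
  ⟨(a (a (b (b (c (c (l 16715152) (l 16710920)) (c (b (l 16693280) (l 16701232)) (c (c (l 16652224) (l 16682896)) (c (l 16680304) (l 16688552))))) (l 16722096)) (l 16721288)) (b (b (c (c (l 16718472) (l 16714656)) (c (b (c (l 16680240) (l 16670616)) (l 16716464)) (a (c (b (l 16657616) (l 16700896)) (b (l 16690280) (l 16715712))) (c (b (c (l 16649272) (l 16651432)) (c (l 16706312) (l 16707192))) (c (l 16675488) (l 16694104)))))) (a (l 16745416) (c (l 16737688) (a (l 16739600) (b (c (l 16716872) (c (l 16686096) (l 16705744))) (l 16721192)))))) (l 16741680))) (b (b (c (c (l 16547320) (l 16539008)) (c (b (c (l 16504200) (c (l 16484872) (a (l 16549504) (l 16425336)))) (c (l 16554112) (a (l 16609408) (l 16473568)))) (c (c (a (c (l 16552240) (l 16479424)) (l 16316304)) (l 16471240)) (l 16500968)))) (c (c (l 16632432) (l 16620672)) (c (a (b (l 16654344) (l 16661320)) (b (l 16528992) (l 16572608))) (c (a (l 16573136) (b (l 16398424) (l 16552736)))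 (c (l 16530992) (l 16600344)))))) (l 16652784))), by decide +kernel⟩

def k17_pp_123 : ∃ t, chk3 f_pp_123 t 39 19 1 = true :=
  ⟨(b (c (c (a (l 16152384) (l 16136272)) (a (b (l 16146784) (l 16316840)) (c (l 16085720) (b (l 15960072) (l 16174600))))) (c (a (b (c (b (l 16175176) (l 16281696)) (c (a (b (l 16303240) (l 16343576)) (b (l 16177512) (l 16224048))) (a (b (l 16176488) (l 16344976)) (l 16031696)))) (a (b (c (l 16411800) (l 16397024)) (l 16461416)) (c (l 16314008) (c (l 16296400) (b (l 16267504) (l 16327920)))))) (c (b (c (l 16050496) (a (l 16094240) (l 15992216))) (a (l 16198280) (l 16111696))) (b (a (c (b (l 16043256) (l 16114368)) (l 16068664)) (l 15973304)) (c (b (a (l 16168384) (l 16088368)) (l 16181416)) (a (b (l 16173736) (l 16226120)) (l 16051344)))))) (a (a (c (b (l 16183208) (b (l 16305416) (b (l 16399440) (l 16430696)))) (l 16234968)) (b (l 16181864) (c (c (l 16220976) (l 16315808)) (l 16308568)))) (c (b (l 16014176) (l 15973432)) (l 16076896))))) (b (c (a (c (l 16473864)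 (l 16412840)) (c (l 16343072) (l 16324184))) (c (b (a (a (l 16491600) (l 16399240)) (c (l 16265768) (c (l 16253352) (l 16105216)))) (a (a (l 16515088) (l 16439488)) (c (l 16336744) (a (l 16371152) (l 16279472))))) (a (c (c (l 16296440) (a (l 16478208) (l 16276008))) (c (l 16318664) (l 16451304))) (c (a (b (l 16299976) (l 16216968)) (l 16155344)) (l 16206560))))) (a (l 16532864) (c (c (l 16433272) (l 16411408)) (c (c (l 16397504) (c (a (l 16426536) (l 16369080)) (l 16178824))) (c (c (l 16355696) (l 16245008)) (l 16275792))))))), by decide +kernel⟩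

def k18_pp_123 : ∃ t, chk3 f_pp_123 t 36 10 1 = true :=
  ⟨(a (b (b (a (c (a (a (c (l 16433288) (l 16413200)) (l 16424208)) (l 16432648)) (a (a (c (l 16391016) (l 16363744)) (l 16380440)) (l 16391888))) (c (l 16453744) (l 16419136))) (c (a (b (a (c (l 16423272) (l 16405056)) (c (l 16434128) (l 16417664))) (c (l 16427544) (l 16410872))) (a (b (l 16434552) (c (l 16436104) (l 16421568))) (c (l 16453312) (l 16440080)))) (a (b (a (c (l 16381688) (l 16355592)) (c (l 16396232) (l 16372128))) (c (l 16388520) (l 16364840))) (b (a (l 16396816) (l 16413008)) (c (a (l 16401704) (l 16418584)) (l 16390744)))))) (a (b (c (b (a (c (l 16429568) (l 16413464)) (l 16428008)) (a (l 316920838199) (c (l 16435200) (l 16422128)))) (b (a (l 191293036071) (l 16392296)) (a (l 16374960) (l 16398296)))) (l 3)) (c (b (a (c (l 16442152) (l 16429872)) (c (l 16446088) (l 16435288))) (b (c (l 326584640823) (l 16436744)) (l 285782318503))) (b (a (c (l 16414160) (l 16398104)) (c (l 16421272) (l 16406928))) (b (c (l 16427792)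 (l 16418720)) (l 16422120)))))) (a (b (c (b (l 16489488) (l 16464920)) (b (l 16463208) (l 16436728))) (c (c (b (b (l 16466792) (l 16461512)) (b (l 16463520) (l 230484688087))) (b (b (l 16457616) (l 16454208)) (b (l 16459400) (l 16455080)))) (b (a (b (l 16427664) (l 16434928)) (c (l 16452440) (l 16441928))) (b (l 16451928) (c (l 16452496) (l 16449872)))))) (b (c (b (l 16528696) (l 16501208)) (b (l 16510392) (l 16480416))) (c (b (a (b (l 16480640) (l 16478808)) (l 16493976)) (b (c (l 16480600) (l 16477952)) (c (l 16467528) (l 16463352)))) (b (a (b (l 16462328) (l 16467208)) (l 16482920)) (b (c (l 16476040) (l 16474096)) (c (l 16459624) (l 16455848)))))))), by decide +kernel⟩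

def k19_pp_123 : ∃ t, chk3 f_pp_123 t 37 10 1 = true :=
  ⟨(b (a (c (b (a (l 16576080) (l 16623432)) (a (l 16544240) (l 16590864))) (b (a (l 16565728) (l 16620312)) (l 16533984))) (b (l 16675560) (c (a (l 16639136) (l 16658968)) (a (l 16637256) (l 16667504))))) (a (c (b (a (l 16520408) (l 16558680)) (a (c (b (l 16500232) (l 16495280)) (b (l 16494904) (l 16490976))) (l 16533632))) (b (l 16497792) (a (c (b (l 16491472) (l 16487160)) (b (l 16487984) (l 16483296))) (l 16525480)))) (c (b (l 16542288) (l 16613000)) (b (l 16574976) (l 16606432))))), by decide +kernel⟩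

def k20_pp_123 : ∃ t, chk3 f_pp_123 t 18 11 1 = true :=
  ⟨(a (b (a (l 3) (a (b (a (l 3) (b (c (l 16452144) (l 16444632)) (l 3))) (l 3)) (a (b (c (l 16477024) (l 16470192)) (l 3)) (b (c (l 16495024) (l 16488296)) (c (l 16525080) (l 16521328)))))) (l 3)) (b (b (a (c (a (a (l 16511240) (l 16526928)) (c (l 16557208) (l 16554200))) (a (a (l 16504640) (l 16520472)) (c (l 16551144) (l 16548048)))) (a (a (c (l 16587968) (l 16582384)) (l 16607688)) (a (l 16632824) (l 16659128)))) (a (c (a (b (l 16549928) (l 16564992)) (l 16593464)) (a (b (l 16545152) (l 16561888)) (l 16589408))) (c (a (c (l 16627752) (l 16625848)) (c (l 16668704) (l 16667080))) (a (c (l 16623920) (l 16621960)) (c (l 16665432) (l 16663760)))))) (b (a (a (l 3) (c (l 16618416) (l 16615584))) (c (a (l 16663080) (l 16696424)) (a (l 16661880) (l 16695016)))) (a (l 3) (c (a (l 16669112) (l 16715560)) (a (l 16665328) (l 16713416))))))), by decide +kernel⟩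

def k21_pp_123 : ∃ t, chk3 f_pp_123 t 19 5 1 = true :=
  ⟨(b (a (a (b (a (c (l 16694376) (l 16699720)) (b (l 16727272) (l 16741248))) (c (a (l 16694008) (b (l 16771008) (l 16763736))) (a (l 16698032) (b (l 16766192) (l 16762144))))) (b (b (l 16678520) (l 16738104)) (b (l 16708160) (a (l 16735624) (l 16706120))))) (a (b (l 16646784) (a (l 16625544) (l 16749024))) (b (l 16567664) (l 16688384)))) (b (a (a (c (a (l 16707576) (l 16758616)) (a (l 16705104) (l 16758032))) (l 16711288)) (a (b (a (l 16668296) (l 16640248)) (l 16659328)) (b (a (l 16636848) (l 16660640)) (a (l 16595808) (l 16571440))))) (a (b (a (a (c (a (l 16721928) (l 16740616)) (a (l 16720512) (l 16739472))) (a (c (l 16761680) (l 16761128)) (l 16769104))) (l 16743616)) (a (c (a (l 16748968) (a (l 16770496) (l 16768816))) (a (l 16748000) (a (l 16770288) (l 16768520)))) (a (c (l 16762560) (l 16762040)) (l 16743112)))) (a (b (l 16677600) (l 16699184)) (l 16562264))))), by decide +kernel⟩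

def k22_pp_123 : ∃ t, chk3 f_pp_123 t 20 8 1 = true :=
  ⟨(b (a (a (c (b (l 14511712) (b (l 14552520) (l 14675168))) (b (l 14451488) (l 14527712))) (b (l 14345680) (c (b (l 14384712) (l 14431616)) (b (l 14296472) (l 14344856))))) (a (b (l 14468856) (b (l 14445808) (c (l 14496008) (l 14410248)))) (l 14719944))) (a (c (c (b (l 14769760) (l 15032136)) (l 14869504)) (c (l 14836632) (l 14800488))) (a (c (b (l 14461528) (l 14867816)) (b (l 14528416) (l 14798904))) (c (b (a (l 14724360) (l 14824408)) (l 14968384)) (b (a (l 14646984) (l 14749984)) (l 14902152)))))), by decide +kernel⟩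

def k23_pp_123 : ∃ t, chk3 f_pp_123 t 40 9 1 = true :=
  ⟨(c (b (b (c (l 15306384) (l 15283264)) (c (c (a (b (l 15628504) (l 15737472)) (l 15296040)) (b (l 15510432) (a (l 15753800) (l 15574512)))) (a (c (c (l 15685696) (l 15662736)) (l 15655856)) (l 15476912)))) (b (c (b (c (l 15712520) (a (l 15865608) (l 15711288))) (c (l 15940144) (l 15911880))) (c (b (a (l 15876456) (l 15718152)) (a (l 16000120) (l 15831240))) (a (b (c (l 15883224) (l 15877752)) (l 15989968)) (b (l 15685472) (l 15841720))))) (a (c (l 16114168) (b (l 16141424) (l 16281160))) (c (l 16054624) (c (l 16032544) (b (l 15946384) (l 16097160))))))) (b (c (l 15401392) (l 15371824)) (c (b (b (l 15753504) (c (a (c (l 15996456) (a (l 16037920) (l 15952000))) (a (c (l 15867048) (l 15850264)) (l 15765640))) (a (a (c (b (l 15987832) (l 16066000)) (l 16016984)) (l 15929984)) (l 15796312)))) (b (c (a (b (l 16076504) (l 16149744)) (c (l 15951632) (a (l 15992680) (l 15914944)))) (a (c (b (a (l 16119592) (l 16044744)) (l 16137712)) (c (l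 16009328) (l 16098544))) (a (c (l 15789224) (l 16031160)) (l 15823576)))) (a (b (c (l 16223632) (c (l 16217696) (l 16177816))) (a (l 16329120) (l 16240440))) (c (a (l 16128336) (l 16028552)) (c (b (l 16042080) (l 16104312)) (l 15984200)))))) (b (l 15802304) (a (c (b (l 16033280) (a (b (l 16247952) (l 16321224)) (l 16189304))) (l 15961624)) (c (l 15825040) (l 16010400))))))), by decide +kernel⟩

def k24_pp_123 : ∃ t, chk3 f_pp_123 t 41 9 1 = true :=
  ⟨(b (c (a (c (l 15273576) (l 15250496)) (c (l 15315816) (l 15293128))) (a (l 15187688) (l 15188944))) (c (c (a (b (c (b (l 15614200) (l 15715744)) (b (l 15611872) (l 15726248))) (l 15728776)) (b (c (a (a (l 15649912) (l 15659784)) (l 15683928)) (b (l 15591136) (a (l 15705424) (l 15717656)))) (a (c (l 15860896) (l 15820320)) (l 15791696)))) (a (b (c (b (l 15587920) (l 15734608)) (l 15639784)) (c (b (l 15832520) (l 15967152)) (b (l 15842240) (l 15940640)))) (b (l 15631600) (a (c (a (l 15842288) (l 15846704)) (b (l 15708616) (l 15893200))) (c (l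 15867320) (b (l 15796976) (l 15911984))))))) (b (a (l 15606880) (l 15592792)) (c (a (c (c (b (l 15834320) (l 15941976)) (b (l 15813432) (a (l 15968648) (l 15925464)))) (b (l 15805792) (c (a (l 15908896) (l 15965896)) (l 15982568)))) (c (b (l 15775808) (b (l 15858000) (a (l 15880392) (l 15925424)))) (l 15821136))) (l 15727584))))), by decide +kernel⟩

def k25_pp_123 : ∃ t, chk3 f_pp_123 t 21 4 1 = true :=
  ⟨(b (b (l 15355936) (b (a (b (l 15071600) (c (l 15053632) (l 15052672))) (l 15559704)) (a (c (a (l 15109912) (l 15270520)) (a (l 15047032) (l 15212848))) (c (l 15403504) (l 15376728))))) (a (c (b (c (l 15473744) (l 15452832)) (b (c (a (c (l 15729928) (l 15709496)) (l 15794920)) (l 15733912)) (c (c (l 15682288) (a (l 15906688) (l 15976488))) (b (l 15869584) (a (c (l 15948368) (c (l 15942224) (l 15926448))) (c (l 16000792) (l 15981456))))))) (b (l 15414176) (l 15685928))) (b (c (a (l 15662008) (l 15807536)) (a (l 15617376) (l 15767728))) (c (c (a (b (l 15894104) (c (l 16056304) (l 16036192)))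 (l 16069272)) (l 15998088)) (l 15966872))))), by decide +kernel⟩

def k26_pp_123 : ∃ t, chk3 f_pp_123 t 11 4 1 = true :=
  ⟨(a (b (a (l 16038176) (l 16478448)) (a (b (c (b (l 16050768) (l 16113928)) (b (l 16019520) (l 16082536))) (c (l 16242312) (l 16207400))) (b (a (l 16129840) (l 16564288)) (c (l 16532464) (l 16505760))))) (b (l 16721072) (c (l 16707256) (l 16694352)))), by decide +kernel⟩

def k27_pp_123 : ∃ t, chk3 f_pp_123 t 20 5 1 = true :=
  ⟨(a (b (b (b (b (a (c (c (l 16384312) (l 16362896)) (c (c (l 16351064) (c (a (l 16382808) (l 16324864)) (l 16213560))) (c (l 16310920) (l 16312888)))) (c (c (l 16260968) (l 16241400)) (c (c (l 16227856) (a (l 16019128) (l 15954336))) (a (c (b (l 16200856) (l 16270832)) (l 16257408)) (l 16106352))))) (a (l 16440712) (b (c (l 16312264) (c (a (l 16322800) (l 16268432)) (c (l 16272000) (l 16276920)))) (l 16350936)))) (l 16295480)) (a (l 16680904) (l 16592792))) (b (a (b (l 16711088) (l 16556976)) (l 16656552)) (a (b (a (l 16525248) (l 16509288)) (l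 16522336)) (b (l 16539952) (a (l 16465712) (l 16468144)))))) (b (b (b (a (c (c (l 16005880) (b (l 16085688) (l 16209824))) (c (b (c (a (l 16104688) (l 16030000)) (c (l 15899088) (l 16062960))) (c (l 16199952) (c (l 16043464) (l 16198040)))) (b (l 15907136) (c (c (l 15996216) (l 16191864)) (l 16194800))))) (c (c (l 16075896) (c (l 16067912) (b (l 15950440) (l 16112376)))) (c (c (a (b (l 15923656) (l 16108704)) (b (l 15923400) (l 16101312))) (a (a (l 15886680) (l 16039728)) (l 16058568))) (a (a (l 16009288) (l 16049400)) (l 16057536))))) (a (b (c (l 16089488) (a (l 16310032) (b (c (l 16231504) (l 16213576)) (l 16273808)))) (l 16357544)) (a (b (c (l 16220280) (c (a (l 16208280) (l 16205176)) (a (l 16173384) (l 16193672)))) (l 16285776)) (c (a (l 16201312) (l 16171432)) (a (b (c (l 15962088) (l 16205920)) (l 16278216)) (c (c (b (l 16221952) (l 16280968)) (l 16234632)) (b (l 16221432) (l 16263408)))))))) (a (l 16491032) (a (l 16414480) (a (l 16396200) (l 16389024))))) (a (b (l 16678224) (l 16486472))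 (b (a (l 16616536) (a (l 16574904) (l 16550800))) (a (l 16682448) (a (l 16755152) (l 16713664))))))), by decide +kernel⟩

def k28_pp_123 : ∃ t, chk3 f_pp_123 t 21 5 1 = true :=
  ⟨(b (b (c (a (b (b (c (l 15996176) (c (l 16053136) (a (l 16025248) (l 16058504)))) (c (l 16149776) (c (l 16142712) (a (l 16112800) (l 16145264))))) (c (l 16194752) (a (b (l 16217184) (l 16296528)) (b (l 16237224) (l 16322576))))) (c (b (b (a (l 16145496) (l 16230776)) (l 16158672)) (a (l 16314056) (l 16351328))) (c (a (b (l 16001160) (l 16303880)) (l 16120912)) (b (l 16087992) (l 16103104))))) (a (b (c (c (a (c (l 15957160) (l 16089904)) (l 16141360)) (l 16024408)) (l 16087136)) (c (b (c (l 16079568) (l 16205768)) (a (l 16017408) (l 16084336))) (b (l 16223416) (l 16114792)))) (c (b (l 16209904) (l 16157976)) (l 16216576)))) (b (a (a (l 16364136) (b (c (l 16371592) (c (l 16300672) (l 16356656))) (l 16410200))) (c (b (a (l 16408448) (l 16433216)) (l 16437648)) (a (c (c (l 16404368) (l 16398648)) (l 16406656)) (l 16266256))))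 (a (l 16442072) (a (l 16481408) (b (c (l 16501232) (l 16439784)) (l 16524144)))))) (b (l 16560216) (l 16678808))), by decide +kernel⟩

def k29_pp_123 : ∃ t, chk3 f_pp_123 t 11 5 1 = true :=
  ⟨(b (a (b (c (a (a (b (l 16127432) (l 16177200)) (l 16477352)) (l 16621416)) (a (a (l 16365544) (l 16435080)) (l 16590192))) (c (b (a (a (l 16310616) (l 16533712)) (l 16651864)) (a (c (l 16572224) (l 16555064)) (l 16664536))) (a (b (l 16517368) (l 16557640)) (l 16657712)))) (a (a (c (l 16730816) (l 16720288)) (l 16728152)) (l 16728152))) (b (a (a (l 16627000) (c (l 16686608) (l 16686200))) (a (c (l 16742576) (l 16741344)) (l 16742256))) (a (l 16720800) (l 16770912)))), by decide +kernel⟩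

def k30_pp_123 : ∃ t, chk3 f_pp_123 t 3 2 1 = true :=
  ⟨(a (b (a (b (l 16721712) (a (l 16702872) (l 16702872))) (b (l 16721712) (l 16702872))) (c (a (b (l 16732104) (c (l 16756184) (l 16755632))) (b (l 16732104) (l 16755968))) (b (a (l 16721576) (l 16721576)) (a (b (l 16741672) (l 16770896)) (l 16755072))))) (b (b (a (l 16721712) (l 16721712)) (l 16702872)) (b (l 16728152) (c (l 16755968) (l 16755072))))), by decide +kernel⟩

def k31_pp_123 : ∃ t, chk3 f_pp_123 t 4 3 1 = true :=
  ⟨(a (l 3) (b (b (a (b (b (a (l 3) (a (l 3) (a (l 3) (c (l 16726368) (l 16724584))))) (l 3)) (l 3)) (b (a (a (c (a (b (l 336785724311) (l 508584461623)) (b (l 16776984) (l 16777096))) (a (b (l 299204758999) (l 16751512)) (b (l 16776984) (l 16777096)))) (c (a (b (l 16769872) (l 16774176)) (b (l 16763616) (l 16771400))) (a (b (l 16769608) (l 16774072)) (b (l 16763136) (l 16771200))))) (a (b (l 16729016) (c (a (l 16765296) (l 16746360)) (a (l 16764872) (l 16745280)))) (l 16675848))) (a (a (a (l 3) (a (l 3) (b (l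 569787807671) (l 3)))) (c (c (l 523616894439) (l 509658250455)) (c (l 494625864791) (l 477445995479)))) (a (c (a (b (l 16773336) (l 16775384)) (b (l 16766952) (l 16774048))) (a (b (l 16773200) (l 16775320)) (b (l 16766592) (l 16773936)))) (b (a (c (l 16750040) (l 16749088)) (l 16713896)) (c (a (l 16768392) (l 16752920)) (a (l 16768080) (l 16752064)))))))) (a (l 3) (b (a (l 3) (a (a (b (c (l 16776808) (l 16776800)) (l 3)) (c (b (l 16775736) (l 16776880)) (b (l 16775688) (l 16776872)))) (c (a (l 16775296) (b (l 16769560) (l 16775048))) (a (l 16775224) (b (l 16769288) (l 16774968)))))) (a (l 3) (a (l 3) (c (a (l 608442512423) (l 321216575527)) (a (l 584820192279) (l 16776464)))))))) (b (b (a (l 3) (l 3)) (l 3)) (l 3)))), by decide +kernel⟩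

def k32_pp_123 : ∃ t, chk3 f_pp_123 t 10 6 1 = true :=
  ⟨(b (a (a (a (b (l 16587256) (l 16672328)) (b (a (l 16512392) (l 16467680)) (c (l 16579976) (l 16573056)))) (a (b (a (b (l 16431376) (l 16431016)) (b (l 16476856) (l 16410056))) (a (l 16497792) (l 16442640))) (b (a (b (l 16567600) (l 16337152)) (a (l 16622296) (l 16689520))) (a (b (a (l 16390848) (l 16414320)) (l 16419952)) (b (b (l 16487312) (l 16467960)) (a (b (l 16397560) (l 16429272)) (l 16498560))))))) (b (l 16663400) (l 16532056))) (a (a (a (c (b (a (b (l 16754784) (l 16770400)) (c (l 16737304) (l 16736608))) (a (l 16775864) (c (l 16770624) (l 16770512)))) (b (a (b (l 16754000) (l 16770160)) (b (l 16713312) (l 16749456))) (a (l 16775816) (c (l 16770392) (l 16770280))))) (a (b (l 16648616) (c (b (c (l 16754504) (l 16754112)) (l 16770584)) (c (l 16758856) (l 16758536)))) (b (l 16641040) (b (l 16707632) (a (c (l 16761976) (l 16761440)) (l 16739328)))))) (a (b (c (l 16561536) (l 16553960)) (c (l 16647792) (l 16643248))) (a (b (c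 (l 16481776) (l 16471408)) (c (l 16561328) (l 16553752))) (a (b (b (l 16440528) (l 16473368)) (c (l 16528784) (l 16520064))) (b (a (a (a (l 16454584) (a (l 16456464) (b (l 16452272) (l 16460072)))) (l 16460288)) (l 16464552)) (c (b (l 16500048) (l 16529080)) (l 16463424))))))) (b (a (b (l 16522736) (l 16504112)) (l 16564208)) (c (l 16570248) (l 16562984))))), by decide +kernel⟩

def k33_pp_123 : ∃ t, chk3 f_pp_123 t 10 7 1 = true :=
  ⟨(b (b (a (a (a (c (a (b (l 16776968) (l 16777216)) (c (l 16776664) (l 16776656))) (a (l 596094482135) (c (l 16776648) (l 16776632)))) (c (a (c (l 16776264) (l 16776248)) (c (b (l 16769536) (l 16776248)) (l 16769080))) (a (l 16776224) (c (l 16768936) (l 16768792))))) (a (b (a (a (c (l 16757080) (l 16756376)) (l 16729016)) (l 16662136)) (a (c (c (l 16766800) (l 16766616)) (c (l 16766432) (l 16766240))) (a (c (l 16744584) (l 16743440)) (l 16711032)))) (a (c (l 16619592) (l 16635768)) (a (c (l 16595528) (l 16589152)) (c (b (l 16558080) (l 16566144)) (b (l 16550392)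 (l 16580440))))))) (c (l 16611800) (l 16605992))) (a (a (a (a (l 3) (a (l 3) (c (l 823727750663) (l 783462432263)))) (c (a (c (l 16777032) (l 16777024)) (c (l 16776776) (l 16776768))) (a (c (l 16777024) (l 16777024)) (c (l 16776760) (l 16776752))))) (a (c (a (c (l 16776600) (l 16776592)) (b (a (l 16770256) (b (l 16744040) (l 16764048))) (a (l 16776696) (l 52110026311)))) (a (c (l 16776584) (l 16776568)) (b (a (l 16770016) (l 16753952)) (a (l 16776680) (l 16772360))))) (a (b (c (l 16700080) (l 16697376)) (a (b (c (l 16752128) (l 16751248)) (l 1)) (l 16701456))) (a (c (l 16641568) (l 16658512)) (c (b (l 16595264) (l 16645512)) (b (l 16610584) (l 16640888))))))) (c (l 16632584) (l 16649216)))) (b (a (a (a (l 3) (l 1)) (l 1)) (l 1)) (l 1))), by decide +kernel⟩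

def k34_pp_123 : ∃ t, chk3 f_pp_123 t 11 3 1 = true :=
  ⟨(b (b (a (b (l 16755136) (l 16760592)) (c (l 16777128) (l 16777120))) (a (b (a (l 16687816) (l 16750928)) (c (l 16705336) (l 16702816))) (c (l 16777152) (l 16777152)))) (b (b (a (a (l 16686256) (l 16742864)) (l 16777120)) (l 1)) (l 1))), by decide +kernel⟩

def k35_pp_123 : ∃ t, chk3 f_pp_123 t 3 3 1 = true :=
  ⟨(b (a (b (c (a (l 16777152) (l 16777152)) (a (c (l 16777144) (l 16777144)) (l 16777144))) (c (a (l 16777200) (l 16777200)) (a (l 16777200) (l 16777200)))) (b (a (l 16777152) (l 1)) (l 1))) (l 1)), by decide +kernel⟩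

theorem s36_pp_123 : ∃ t, chk3 f_pp_123 t 10 3 1 = true := ex3_b k32_pp_123 k33_pp_123

theorem s37_pp_123 : ∃ t, chk3 f_pp_123 t 5 3 1 = true := ex3_a s36_pp_123 k34_pp_123

theorem s38_pp_123 : ∃ t, chk3 f_pp_123 t 2 3 1 = true := ex3_a k31_pp_123 s37_pp_123

theorem s39_pp_123 : ∃ t, chk3 f_pp_123 t 1 3 1 = true := ex3_a s38_pp_123 k35_pp_123

theorem s40_pp_123 : ∃ t, chk3 f_pp_123 t 10 5 1 = true := ex3_a k27_pp_123 k28_pp_123

theorem s41_pp_123 : ∃ t, chk3 f_pp_123 t 5 5 1 = true := ex3_a s40_pp_123 k29_pp_123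

theorem s42_pp_123 : ∃ t, chk3 f_pp_123 t 20 9 1 = true := ex3_a k23_pp_123 k24_pp_123

theorem s43_pp_123 : ∃ t, chk3 f_pp_123 t 20 4 1 = true := ex3_b k22_pp_123 s42_pp_123

theorem s44_pp_123 : ∃ t, chk3 f_pp_123 t 10 4 1 = true := ex3_a s43_pp_123 k25_pp_123

theorem s45_pp_123 : ∃ t, chk3 f_pp_123 t 5 4 1 = true := ex3_a s44_pp_123 k26_pp_123

theorem s46_pp_123 : ∃ t, chk3 f_pp_123 t 5 2 1 = true := ex3_b s45_pp_123 s41_pp_123

theorem s47_pp_123 : ∃ t, chk3 f_pp_123 t 18 10 1 = true := ex3_a k18_pp_123 k19_pp_123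

theorem s48_pp_123 : ∃ t, chk3 f_pp_123 t 18 5 1 = true := ex3_b s47_pp_123 k20_pp_123

theorem s49_pp_123 : ∃ t, chk3 f_pp_123 t 9 5 1 = true := ex3_a s48_pp_123 k21_pp_123

theorem s50_pp_123 : ∃ t, chk3 f_pp_123 t 19 19 1 = true := ex3_a k16_pp_123 k17_pp_123

theorem s51_pp_123 : ∃ t, chk3 f_pp_123 t 19 18 1 = true := ex3_b k14_pp_123 k15_pp_123

theorem s52_pp_123 : ∃ t, chk3 f_pp_123 t 19 9 1 = true := ex3_b s51_pp_123 s50_pp_123

theorem s53_pp_123 : ∃ t, chk3 f_pp_123 t 19 4 1 = true := ex3_b k13_pp_123 s52_pp_123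

theorem s54_pp_123 : ∃ t, chk3 f_pp_123 t 18 18 1 = true := ex3_b k10_pp_123 k11_pp_123

theorem s55_pp_123 : ∃ t, chk3 f_pp_123 t 18 9 1 = true := ex3_b s54_pp_123 k12_pp_123

theorem s56_pp_123 : ∃ t, chk3 f_pp_123 t 18 8 1 = true := ex3_b k8_pp_123 k9_pp_123

theorem s57_pp_123 : ∃ t, chk3 f_pp_123 t 18 4 1 = true := ex3_b s56_pp_123 s55_pp_123

theorem s58_pp_123 : ∃ t, chk3 f_pp_123 t 9 4 1 = true := ex3_a s57_pp_123 s53_pp_123

theorem s59_pp_123 : ∃ t, chk3 f_pp_123 t 9 2 1 = true := ex3_b s58_pp_123 s49_pp_123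

theorem s60_pp_123 : ∃ t, chk3 f_pp_123 t 70 19 1 = true := ex3_a k4_pp_123 k5_pp_123

theorem s61_pp_123 : ∃ t, chk3 f_pp_123 t 35 19 1 = true := ex3_a s60_pp_123 k6_pp_123

theorem s62_pp_123 : ∃ t, chk3 f_pp_123 t 35 9 1 = true := ex3_b k3_pp_123 s61_pp_123

theorem s63_pp_123 : ∃ t, chk3 f_pp_123 t 17 9 1 = true := ex3_a k2_pp_123 s62_pp_123

theorem s64_pp_123 : ∃ t, chk3 f_pp_123 t 17 4 1 = true := ex3_b k1_pp_123 s63_pp_123

theorem s65_pp_123 : ∃ t, chk3 f_pp_123 t 8 4 1 = true := ex3_a k0_pp_123 s64_pp_123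

theorem s66_pp_123 : ∃ t, chk3 f_pp_123 t 8 2 1 = true := ex3_b s65_pp_123 k7_pp_123

theorem s67_pp_123 : ∃ t, chk3 f_pp_123 t 4 2 1 = true := ex3_a s66_pp_123 s59_pp_123

theorem s68_pp_123 : ∃ t, chk3 f_pp_123 t 2 2 1 = true := ex3_a s67_pp_123 s46_pp_123

theorem s69_pp_123 : ∃ t, chk3 f_pp_123 t 1 2 1 = true := ex3_a s68_pp_123 k30_pp_123

theorem s70_pp_123 : ∃ t, chk3 f_pp_123 t 1 1 1 = true := ex3_b s69_pp_123 s39_pp_123

theorem c_pp_123 : CertNX 536870912 536870912 0 1230186008 1046898278 26843546 3 false true true .npn 1 2 3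
    ndN0q1 ndN6q3 pcN2 cut_pp_123 Ext.none :=
  certNX2 (fam := false) (s1 := true) (s2 := true) (a := 1) (b := 2) (c := 3) (cn := .npn) (n1 := ndN0q1) (n2 := ndN6q3) (pc := pcN2) (cut := cut_pp_123) (xt := Ext.none) (P1 := 536870912) (W1 := 536870912) (P2 := 0) (W2 := 1230186008) (P3 := 1046898278) (W3 := 26843546) (N0 := 3)
    rfl (fun _ => rfl) s70_pp_123

noncomputable def f_pp_133 : ℕ → ℕ → ℕ → ℕ → Bool := onCell 536870912 536870912 0 1230186008 1046898278 26843546
    (rowNX 3 0 false true true .dn 1 3 3 (qsf 536870912 536870912 0 1230186008 3) ndN0q1 ndN6q3 pcN3 Cut.none Ext.none)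

def k0_pp_133 : ∃ t, chk3 f_pp_133 t 1 1 1 = true :=
  ⟨(b (a (b (a (b (l 3782825621431) (l 1)) (l 1)) (l 1)) (l 1)) (l 1)), by decide +kernel⟩

theorem c_pp_133 : CertNX 536870912 536870912 0 1230186008 1046898278 26843546 3 false true true .dn 1 3 3
    ndN0q1 ndN6q3 pcN3 Cut.none Ext.none :=
  certNX0 (fam := false) (s1 := true) (s2 := true) (a := 1) (b := 3) (c := 3) (cn := .dn) (n1 := ndN0q1) (n2 := ndN6q3) (pc := pcN3) (cut := Cut.none) (xt := Ext.none) (P1 := 536870912) (W1 := 536870912) (P2 := 0) (W2 := 1230186008) (P3 := 1046898278) (W3 := 26843546) (N0 := 3)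
    rfl k0_pp_133

noncomputable def f_pp_202 : ℕ → ℕ → ℕ → ℕ → Bool := onCell 0 536870912 1073741824 536870912 1046898278 26843546
    (rowNX 3 0 false true true .pp 2 0 2 (qsf 0 536870912 1073741824 536870912 0) ndN0q2 ndN6q2 pcN0 Cut.none Ext.none)

def k0_pp_202 : ∃ t, chk3 f_pp_202 t 1 1 1 = true :=
  ⟨(l 5), by decide +kernel⟩

theorem c_pp_202 : CertNX 0 536870912 1073741824 536870912 1046898278 26843546 3 false true true .pp 2 0 2
    ndN0q2 ndN6q2 pcN0 Cut.none Ext.none :=
  certNX0 (fam := false) (s1 := true) (s2 := true) (a := 2) (b := 0) (c := 2) (cn := .pp) (n1 := ndN0q2) (n2 := ndN6q2) (pc := pcN0) (cut := Cut.none) (xt := Ext.none) (P1 := 0) (W1 := 536870912) (P2 := 1073741824) (W2 := 536870912) (P3 := 1046898278) (W3 := 26843546) (N0 := 3)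
    rfl k0_pp_202

noncomputable def f_pp_203 : ℕ → ℕ → ℕ → ℕ → Bool := onCell 0 536870912 0 1230186008 1046898278 26843546
    (rowNX 3 0 false true true .up 2 0 3 (qsf 0 536870912 0 1230186008 0) ndN0q2 ndN6q3 pcN0 Cut.none Ext.none)

def k0_pp_203 : ∃ t, chk3 f_pp_203 t 1 1 1 = true :=
  ⟨(b (l 2) (a (l 3) (l 3))), by decide +kernel⟩

theorem c_pp_203 : CertNX 0 536870912 0 1230186008 1046898278 26843546 3 false true true .up 2 0 3
    ndN0q2 ndN6q3 pcN0 Cut.none Ext.none :=
  certNX0 (fam := false) (s1 := true) (s2 := true) (a := 2) (b := 0) (c := 3) (cn := .up) (n1 := ndN0q2) (n2 := ndN6q3) (pc := pcN0) (cut := Cut.none) (xt := Ext.none) (P1 := 0) (W1 := 536870912) (P2 := 0) (W2 := 1230186008) (P3 := 1046898278) (W3 := 26843546) (N0 := 3)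
    rfl k0_pp_203

noncomputable def cut_pp_213 : Cut := Cut.of [[⟨0, 1, 0, 67108864⟩, ⟨1, 1, 0, 67108864⟩, ⟨2, 2, 0, 67108864⟩, ⟨3, 0, 0, 1233125376⟩]]

noncomputable def f_pp_213 : ℕ → ℕ → ℕ → ℕ → Bool := onCell 0 536870912 0 1230186008 1046898278 26843546
    (rowNX 3 0 false true true .pnn 2 1 3 (qsf 0 536870912 0 1230186008 1) ndN0q2 ndN6q3 pcN1 cut_pp_213 Ext.none)

def k0_pp_213 : ∃ t, chk3 f_pp_213 t 1 1 1 = true :=
  ⟨(b (a (l 3) (b (a (l 3) (a (l 3) (b (l 6) (l 3)))) (l 3))) (b (l 3) (l 3))), by decide +kernel⟩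

theorem c_pp_213 : CertNX 0 536870912 0 1230186008 1046898278 26843546 3 false true true .pnn 2 1 3
    ndN0q2 ndN6q3 pcN1 cut_pp_213 Ext.none :=
  certNX0 (fam := false) (s1 := true) (s2 := true) (a := 2) (b := 1) (c := 3) (cn := .pnn) (n1 := ndN0q2) (n2 := ndN6q3) (pc := pcN1) (cut := cut_pp_213) (xt := Ext.none) (P1 := 0) (W1 := 536870912) (P2 := 0) (W2 := 1230186008) (P3 := 1046898278) (W3 := 26843546) (N0 := 3)
    rfl k0_pp_213

noncomputable def f_pm_001 : ℕ → ℕ → ℕ → ℕ → Bool := onCell 0 536870912 536870912 469762048 1046898278 26843546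
    (rowNX 3 0 false true false .up 0 0 1 (qsf 0 536870912 536870912 469762048 0) ndN0q0 ndN6q1 pcN0 Cut.none Ext.none)

def k0_pm_001 : ∃ t, chk3 f_pm_001 t 1 1 1 = true :=
  ⟨(l 4), by decide +kernel⟩

theorem c_pm_001 : CertNX 0 536870912 536870912 469762048 1046898278 26843546 3 false true false .up 0 0 1
    ndN0q0 ndN6q1 pcN0 Cut.none Ext.none :=
  certNX0 (fam := false) (s1 := true) (s2 := false) (a := 0) (b := 0) (c := 1) (cn := .up) (n1 := ndN0q0) (n2 := ndN6q1) (pc := pcN0) (cut := Cut.none) (xt := Ext.none) (P1 := 0) (W1 := 536870912) (P2 := 536870912) (W2 := 469762048) (P3 := 1046898278) (W3 := 26843546) (N0 := 3)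
    rfl k0_pm_001

noncomputable def f_pm_011 : ℕ → ℕ → ℕ → ℕ → Bool := onCell 0 536870912 536870912 469762048 1046898278 26843546
    (rowNX 3 0 false true false .pnn 0 1 1 (qsf 0 536870912 536870912 469762048 1) ndN0q0 ndN6q1 pcN1 Cut.none Ext.none)

def k0_pm_011 : ∃ t, chk3 f_pm_011 t 1 1 1 = true :=
  ⟨(l 4), by decide +kernel⟩

theorem c_pm_011 : CertNX 0 536870912 536870912 469762048 1046898278 26843546 3 false true false .pnn 0 1 1
    ndN0q0 ndN6q1 pcN1 Cut.none Ext.none :=
  certNX0 (fam := false) (s1 := true) (s2 := false) (a := 0) (b := 1) (c := 1) (cn := .pnn) (n1 := ndN0q0) (n2 := ndN6q1) (pc := pcN1) (cut := Cut.none) (xt := Ext.none) (P1 := 0) (W1 := 536870912) (P2 := 536870912) (W2 := 469762048) (P3 := 1046898278) (W3 := 26843546) (N0 := 3)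
    rfl k0_pm_011

noncomputable def f_pm_012 : ℕ → ℕ → ℕ → ℕ → Bool := onCell 0 536870912 1073741824 536870912 1046898278 26843546
    (rowNX 3 0 false true false .pnp 0 1 2 (qsf 0 536870912 1073741824 536870912 1) ndN0q0 ndN6q2 pcN1 Cut.none Ext.none)

def k0_pm_012 : ∃ t, chk3 f_pm_012 t 1 1 1 = true :=
  ⟨(l 4), by decide +kernel⟩

theorem c_pm_012 : CertNX 0 536870912 1073741824 536870912 1046898278 26843546 3 false true false .pnp 0 1 2
    ndN0q0 ndN6q2 pcN1 Cut.none Ext.none :=
  certNX0 (fam := false) (s1 := true) (s2 := false) (a := 0) (b := 1) (c := 2) (cn := .pnp) (n1 := ndN0q0) (n2 := ndN6q2) (pc := pcN1) (cut := Cut.none) (xt := Ext.none) (P1 := 0) (W1 := 536870912) (P2 := 1073741824) (W2 := 536870912) (P3 := 1046898278) (W3 := 26843546) (N0 := 3)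
    rfl k0_pm_012

noncomputable def f_pm_022 : ℕ → ℕ → ℕ → ℕ → Bool := onCell 0 536870912 1073741824 536870912 1046898278 26843546
    (rowNX 3 0 false true false .pp 0 2 2 (qsf 0 536870912 1073741824 536870912 2) ndN0q0 ndN6q2 pcN2 Cut.none Ext.none)

def k0_pm_022 : ∃ t, chk3 f_pm_022 t 1 1 1 = true :=
  ⟨(l 4), by decide +kernel⟩

theorem c_pm_022 : CertNX 0 536870912 1073741824 536870912 1046898278 26843546 3 false true false .pp 0 2 2
    ndN0q0 ndN6q2 pcN2 Cut.none Ext.none :=
  certNX0 (fam := false) (s1 := true) (s2 := false) (a := 0) (b := 2) (c := 2) (cn := .pp) (n1 := ndN0q0) (n2 := ndN6q2) (pc := pcN2) (cut := Cut.none) (xt := Ext.none) (P1 := 0) (W1 := 536870912) (P2 := 1073741824) (W2 := 536870912) (P3 := 1046898278) (W3 := 26843546) (N0 := 3)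
    rfl k0_pm_022

noncomputable def f_pm_023 : ℕ → ℕ → ℕ → ℕ → Bool := onCell 0 536870912 0 1230186008 1046898278 26843546
    (rowNX 3 0 false true false .up 0 2 3 (qsf 0 536870912 0 1230186008 2) ndN0q0 ndN6q3 pcN2 Cut.none Ext.none)

def k0_pm_023 : ∃ t, chk3 f_pm_023 t 1 1 1 = true :=
  ⟨(b (a (l 2) (a (l 2) (a (b (l 2) (b (a (l 2) (l 16728152)) (l 4))) (b (b (l 16721712) (l 16702872)) (b (c (l 16732104) (l 16721576)) (a (l 4) (l 16755512))))))) (b (l 4) (l 4))), by decide +kernel⟩

theorem c_pm_023 : CertNX 0 536870912 0 1230186008 1046898278 26843546 3 false true false .up 0 2 3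
    ndN0q0 ndN6q3 pcN2 Cut.none Ext.none :=
  certNX0 (fam := false) (s1 := true) (s2 := false) (a := 0) (b := 2) (c := 3) (cn := .up) (n1 := ndN0q0) (n2 := ndN6q3) (pc := pcN2) (cut := Cut.none) (xt := Ext.none) (P1 := 0) (W1 := 536870912) (P2 := 0) (W2 := 1230186008) (P3 := 1046898278) (W3 := 26843546) (N0 := 3)
    rfl k0_pm_023

noncomputable def f_pm_033 : ℕ → ℕ → ℕ → ℕ → Bool := onCell 1610612736 536870912 0 1230186008 1046898278 26843546
    (rowNX 3 2 false true false .pnn 0 3 3 (qsf 0 536870912 0 1230186008 3) ndN0q0 ndN6q3 pcN3 Cut.none Ext.none)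

def k0_pm_033 : ∃ t, chk3 f_pm_033 t 1 1 1 = true :=
  ⟨(b (a (b (a (c (b (l 16725144) (l 16707792)) (a (l 16691120) (l 16691120))) (a (b (l 16721712) (l 4)) (l 4))) (a (a (b (l 16728152) (l 4)) (l 4)) (l 4))) (l 4)) (l 4)), by decide +kernel⟩

theorem c_pm_033 : CertNX 0 536870912 0 1230186008 1046898278 26843546 3 false true false .pnn 0 3 3
    ndN0q0 ndN6q3 pcN3 Cut.none Ext.none :=
  certNX2 (fam := false) (s1 := true) (s2 := false) (a := 0) (b := 3) (c := 3) (cn := .pnn) (n1 := ndN0q0) (n2 := ndN6q3) (pc := pcN3) (cut := Cut.none) (xt := Ext.none) (P1 := 0) (W1 := 536870912) (P2 := 0) (W2 := 1230186008) (P3 := 1046898278) (W3 := 26843546) (N0 := 3)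
    rfl (fun _ => rfl) k0_pm_033

noncomputable def f_pm_101 : ℕ → ℕ → ℕ → ℕ → Bool := onCell 536870912 536870912 536870912 469762048 1046898278 26843546
    (rowNX 3 0 false true false .npn 1 0 1 (qsf 536870912 536870912 536870912 469762048 0) ndN0q1 ndN6q1 pcN0 Cut.none Ext.none)

def k0_pm_101 : ∃ t, chk3 f_pm_101 t 1 1 1 = true :=
  ⟨(l 4), by decide +kernel⟩

theorem c_pm_101 : CertNX 536870912 536870912 536870912 469762048 1046898278 26843546 3 false true false .npn 1 0 1
    ndN0q1 ndN6q1 pcN0 Cut.none Ext.none :=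
  certNX0 (fam := false) (s1 := true) (s2 := false) (a := 1) (b := 0) (c := 1) (cn := .npn) (n1 := ndN0q1) (n2 := ndN6q1) (pc := pcN0) (cut := Cut.none) (xt := Ext.none) (P1 := 536870912) (W1 := 536870912) (P2 := 536870912) (W2 := 469762048) (P3 := 1046898278) (W3 := 26843546) (N0 := 3)
    rfl k0_pm_101

noncomputable def f_pm_102 : ℕ → ℕ → ℕ → ℕ → Bool := onCell 536870912 536870912 0 536870912 1046898278 26843546
    (rowNX 3 1 false true false .npp 1 0 2 (qsf 536870912 536870912 1073741824 536870912 0) ndN0q1 ndN6q2 pcN0 Cut.none Ext.none)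

def k0_pm_102 : ∃ t, chk3 f_pm_102 t 2 1 1 = true :=
  ⟨(l 4), by decide +kernel⟩

def k1_pm_102 : ∃ t, chk3 f_pm_102 t 3 4 1 = true :=
  ⟨(a (l 4) (b (b (a (l 1) (a (a (l 1) (b (l 1) (b (l 1) (c (l 13704232) (l 13608576))))) (b (b (a (l 1) (c (l 13619288) (b (a (l 1) (c (l 13533928) (c (l 13489112) (b (l 13449560) (l 13463816))))) (c (a (c (l 13547648) (l 13522432)) (l 13559648)) (c (l 13498136) (l 13466440)))))) (a (b (l 1) (c (c (l 13578512) (l 13616752)) (l 156255984631))) (c (c (l 13690384) (b (l 13629256) (l 13662752))) (c (a (c (l 13594080) (l 13565320)) (l 13603176)) (l 13500456))))) (c (a (c (b (a (l 13718520) (l 13730152)) (l 13765560)) (a (l 13665696) (l 13659792))) (b (c (l 13754544) (l 13703952)) (l 13781432))) (a (l 13590392) (c (a (l 13649448) (l 13677152)) (l 13599264))))))) (a (a (l 1) (a (l 1) (b (l 1) (b (l 1) (l 14134184))))) (a (a (c (b (l 13935896) (l 14034536)) (l 13896264)) (c (b (l 13651960) (l 13767288)) (l 13739592))) (c (a (c (b (l 13834040) (a (l 13930280) (l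 13935736))) (b (l 13777512) (l 13870176))) (b (l 13845368) (l 13928144))) (a (l 13741144) (c (a (l 13792856) (l 13816624)) (a (l 13743896) (l 13761696)))))))) (a (b (a (b (l 1) (l 14487304)) (c (l 14337408) (l 14270520))) (a (l 14562920) (l 14509112))) (b (a (c (a (l 14191304) (l 14023888)) (l 14026192)) (c (a (c (l 14065288) (l 14019696)) (l 14041816)) (a (l 13940928) (a (l 13858056) (c (l 13972056) (l 13919232)))))) (a (a (l 14347728) (l 13890040)) (a (c (a (l 14152488) (l 14076888)) (l 14003320)) (c (l 13959392) (a (l 13888240) (l 13805480))))))))), by decide +kernel⟩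

def k2_pm_102 : ∃ t, chk3 f_pm_102 t 3 5 1 = true :=
  ⟨(a (a (l 4) (a (l 4) (b (l 4) (b (l 14847720) (l 14832264))))) (a (b (b (a (l 14848024) (l 14673168)) (a (l 15007576) (l 14649336))) (b (a (l 15001832) (a (l 14601480) (l 14391152))) (a (l 14915944) (b (l 14638064) (l 14959936))))) (b (a (b (a (l 14397048) (l 14047608)) (a (l 14187968) (b (l 13852400) (l 13860048)))) (b (a (c (a (l 13955024) (l 13840400)) (l 13786552)) (c (b (l 13766168) (l 13792240)) (a (l 13593200) (b (l 13601728) (l 13617616))))) (a (c (a (l 13941072) (c (l 14054040) (l 14006176))) (l 13890144)) (c (l 14255248) (a (l 14054632) (l 14248240)))))) (a (b (a (l 14289464) (l 14307112)) (a (l 14967624) (l 15036400))) (b (a (c (l 14502872) (l 14554088)) (c (l 14939440) (a (l 14775840) (l 14946360)))) (a (c (a (l 15258056) (l 15200464)) (l 15217464)) (c (l 15377024) (a (l 15319152) (l 15350616))))))))), by decide +kernel⟩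

def k3_pm_102 : ∃ t, chk3 f_pm_102 t 3 3 1 = true :=
  ⟨(a (b (a (l 4) (b (a (l 4) (b (l 14720040) (a (l 14876904) (l 15290400)))) (a (b (l 4) (l 15928456)) (b (l 15944376) (l 16562880))))) (b (a (l 4) (a (b (l 16567944) (l 16776920)) (l 16759440))) (a (l 4) (l 16768224)))) (a (b (b (a (b (l 15052264) (l 15893664)) (b (l 15512944) (l 16030792))) (a (b (l 16369600) (l 16519264)) (l 16196784))) (c (l 16363888) (l 16349328))) (b (a (b (b (a (l 15646488) (l 15541320)) (l 15693152)) (l 15693400)) (a (c (b (l 15524864) (l 15525080)) (l 15486912)) (c (l 15447504) (a (l 15407176) (l 15376032))))) (a (a (l 15888384) (l 15607488)) (a (b (l 15477032) (l 15414120)) (c (l 15447504) (b (l 15395384) (l 15395384)))))))), by decide +kernel⟩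

theorem s4_pm_102 : ∃ t, chk3 f_pm_102 t 3 2 1 = true := ex3_b k1_pm_102 k2_pm_102

theorem s5_pm_102 : ∃ t, chk3 f_pm_102 t 3 1 1 = true := ex3_b s4_pm_102 k3_pm_102

theorem s6_pm_102 : ∃ t, chk3 f_pm_102 t 1 1 1 = true := ex3_a k0_pm_102 s5_pm_102

theorem c_pm_102 : CertNX 536870912 536870912 1073741824 536870912 1046898278 26843546 3 false true false .npp 1 0 2
    ndN0q1 ndN6q2 pcN0 Cut.none Ext.none :=
  certNX1 (fam := false) (s1 := true) (s2 := false) (a := 1) (b := 0) (c := 2) (cn := .npp) (n1 := ndN0q1) (n2 := ndN6q2) (pc := pcN0) (cut := Cut.none) (xt := Ext.none) (P1 := 536870912) (W1 := 536870912) (P2 := 1073741824) (W2 := 536870912) (P3 := 1046898278) (W3 := 26843546) (N0 := 3)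
    rfl (fun _ => rfl) s6_pm_102

noncomputable def f_pm_112 : ℕ → ℕ → ℕ → ℕ → Bool := onCell 536870912 536870912 1073741824 536870912 1046898278 26843546
    (rowNX 3 0 false true false .dn 1 1 2 (qsf 536870912 536870912 1073741824 536870912 1) ndN0q1 ndN6q2 pcN1 Cut.none Ext.none)

def k0_pm_112 : ∃ t, chk3 f_pm_112 t 1 1 1 = true :=
  ⟨(a (b (l 4) (b (l 4) (a (l 4) (a (l 4) (l 4))))) (b (a (a (l 4) (l 1)) (l 1)) (a (a (b (l 315378106327) (b (b (l 16766896) (a (l 16594912) (l 16753184))) (b (a (l 16363472) (l 16670144)) (a (l 16082328) (l 16591720))))) (b (c (l 16768376) (l 16768064)) (b (l 16768224) (a (b (l 16767296) (l 16762240)) (l 16908376))))) (a (b (b (l 1) (l 16335624)) (b (l 16146880) (l 16356592))) (b (l 1) (b (a (l 15693400) (l 1)) (a (l 15693400) (c (l 293698854311) (l 224979262887))))))))), by decide +kernel⟩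

theorem c_pm_112 : CertNX 536870912 536870912 1073741824 536870912 1046898278 26843546 3 false true false .dn 1 1 2
    ndN0q1 ndN6q2 pcN1 Cut.none Ext.none :=
  certNX0 (fam := false) (s1 := true) (s2 := false) (a := 1) (b := 1) (c := 2) (cn := .dn) (n1 := ndN0q1) (n2 := ndN6q2) (pc := pcN1) (cut := Cut.none) (xt := Ext.none) (P1 := 536870912) (W1 := 536870912) (P2 := 1073741824) (W2 := 536870912) (P3 := 1046898278) (W3 := 26843546) (N0 := 3)
    rfl k0_pm_112

noncomputable def cut_pm_113 : Cut := Cut.of [[⟨0, 1, 0, 67108864⟩, ⟨1, 1, 0, 67108864⟩, ⟨2, 2, 0, 67108864⟩, ⟨3, 0, 0, 1233125376⟩]]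

noncomputable def f_pm_113 : ℕ → ℕ → ℕ → ℕ → Bool := onCell 536870912 536870912 0 1230186008 1046898278 26843546
    (rowNX 3 0 false true false .nn 1 1 3 (qsf 536870912 536870912 0 1230186008 1) ndN0q1 ndN6q3 pcN1 cut_pm_113 Ext.none)

def k0_pm_113 : ∃ t, chk3 f_pm_113 t 2 2 1 = true :=
  ⟨(l 2), by decide +kernel⟩

def k1_pm_113 : ∃ t, chk3 f_pm_113 t 6 2 1 = true :=
  ⟨(l 2), by decide +kernel⟩

def k2_pm_113 : ∃ t, chk3 f_pm_113 t 14 4 1 = true :=
  ⟨(l 2), by decide +kernel⟩

def k3_pm_113 : ∃ t, chk3 f_pm_113 t 30 4 1 = true :=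
  ⟨(l 2), by decide +kernel⟩

def k4_pm_113 : ∃ t, chk3 f_pm_113 t 31 8 1 = true :=
  ⟨(a (l 2) (l 6)), by decide +kernel⟩

def k5_pm_113 : ∃ t, chk3 f_pm_113 t 62 9 1 = true :=
  ⟨(b (l 2) (a (b (l 2) (b (b (l 2) (l 15283840)) (l 15411000))) (c (c (l 16679688) (b (l 16261488) (a (l 15717296) (l 15773840)))) (b (c (l 15307984) (a (l 1029814610743) (c (b (l 14628712) (l 14548136)) (b (a (l 14073704) (l 14091160)) (a (l 14067744) (l 14091424)))))) (c (a (l 14986416) (b (l 15098096) (c (l 15155856) (a (l 14797824) (l 14817416))))) (a (b (c (l 14447008) (a (l 14034992) (l 14056144))) (a (l 14221896) (a (l 14242000) (l 14255328)))) (b (c (a (l 14483824) (l 14506200)) (l 14090896)) (l 14281312)))))))), by decide +kernel⟩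

def k6_pm_113 : ∃ t, chk3 f_pm_113 t 63 18 1 = true :=
  ⟨(a (b (a (l 2) (a (a (l 2) (l 6)) (l 6))) (c (l 16755288) (c (a (l 15915016) (c (l 16319808) (a (l 15612216) (l 15635104)))) (a (c (l 14872104) (b (l 14182656) (a (l 14130080) (c (l 14316656) (l 13989576))))) (c (b (l 15011960) (a (l 14832824) (c (l 15017720) (l 14695296)))) (b (a (c (l 14408736) (l 14015080)) (c (l 14438856) (l 14047320))) (l 14196304))))))) (a (b (l 6) (b (a (b (l 6) (l 6)) (l 6)) (c (l 16767944) (c (c (l 16139856) (c (l 15671000) (a (l 15355056) (l 15359648)))) (a (l 14560136) (l 14572800)))))) (l 6))), by decide +kernel⟩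

def k7_pm_113 : ∃ t, chk3 f_pm_113 t 63 19 1 = true :=
  ⟨(c (c (b (l 16573496) (a (l 16537896) (a (l 16510152) (c (l 16634384) (b (l 16454824) (l 16149456)))))) (a (b (l 16392016) (a (l 15806832) (c (l 15993432) (b (l 15746272) (a (l 15539408) (l 15537280)))))) (b (a (b (l 16595696) (c (l 16444544) (l 15998584))) (c (b (l 16720312) (l 16402160)) (b (a (l 16308416) (l 16281088)) (l 15969344)))) (a (b (c (l 16118432) (l 15736696)) (c (l 15859112) (l 15529736))) (b (c (l 16082640) (l 15713960)) (l 15670760)))))) (a (c (b (a (c (l 15635376) (b (l 15224624) (l 15061736))) (c (b (l 15804328) (l 15553872)) (b (a (l 15260624) (c (l 15412272) (l 15142320))) (a (c (l 15208240) (l 14973208)) (l 15106832))))) (a (c (b (l 15340064) (a (l 15186808) (l 15201104))) (b (a (l 14928168) (l 14944496)) (l 14841040))) (b (c (c (l 15456496) (l 15262616)) (l 14968344)) (c (l 15206064) (l 14867976))))) (b (a (c (b (a (l 14664200) (l 14690584)) (a (l 14584544) (l 14606440))) (b (a (c (l 14252288) (l 13976664))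 (l 14141752)) (l 14127656))) (c (b (a (l 14713648) (l 14734568)) (l 14635232)) (l 14176144))) (a (l 14326368) (l 14359872)))) (c (b (a (c (b (a (l 15809752) (l 15804848)) (l 15554144)) (b (a (l 15284024) (l 15285840)) (l 15112432))) (b (c (l 15788416) (l 15282272)) (l 15325216))) (c (l 15269776) (l 14924624))) (a (a (l 14411736) (l 14418416)) (c (l 14639000) (l 14242240)))))), by decide +kernel⟩

def k8_pm_113 : ∃ t, chk3 f_pm_113 t 14 5 1 = true :=
  ⟨(b (a (l 2) (b (l 2) (a (l 2) (l 14392328)))) (a (b (l 2) (b (l 14377240) (l 14519672))) (b (a (l 14391856) (l 14529992)) (a (l 14629120) (l 14741160))))), by decide +kernel⟩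

def k9_pm_113 : ∃ t, chk3 f_pm_113 t 15 5 1 = true :=
  ⟨(b (a (a (b (l 2) (l 14535968)) (b (a (l 14722272) (l 14817128)) (a (l 14613488) (l 14667296)))) (b (a (a (c (l 15432656) (l 14423888)) (a (c (l 15542136) (l 14488024)) (b (c (b (c (l 16097320) (l 15503616)) (l 15617648)) (a (l 14550832) (b (c (c (l 15050768) (l 14745904)) (l 14286040)) (l 14551312)))) (c (l 15403712) (l 14501200))))) (c (b (a (c (a (l 15994728) (b (l 16106120) (c (l 16012000) (l 15754128)))) (a (b (c (l 15669624) (a (l 15376464) (l 15379440))) (c (l 15503904) (l 15245776))) (b (c (l 15665904) (l 15375952)) (l 15371320)))) (c (c (b (a (l 16227120) (l 16183944)) (a (l 15987600) (l 15951024))) (b (a (l 15938776) (l 15905408)) (l 15722600))) (b (c (l 15640904) (l 15359200)) (l 15352448)))) (a (a (l 15415808) (b (c (c (l 15814168) (l 15586848)) (l 15250384)) (l 15351448))) (c (b (a (l 15827912) (l 15652920)) (l 15521840)) (l 15183136)))) (a (c (b (a (c (b (l 15076064) (l 14983032)) (l 14734856)) (l 14890232)) (l 14760144))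 (l 14319440)) (c (b (l 14898144) (l 14778936)) (a (b (l 14351488) (l 14351928)) (b (l 14375592) (l 14375088))))))) (a (c (a (l 15086952) (c (l 15290272) (l 14970032))) (l 14437832)) (a (c (l 15135576) (c (l 14675192) (l 14367704))) (c (b (l 15194184) (l 15076824)) (a (c (l 14701840) (l 14403952)) (c (l 14714944) (b (l 14411888) (l 14464176))))))))) (a (a (b (l 14625480) (l 14786720)) (b (a (l 14641528) (l 14658576)) (a (l 14755224) (l 14750288)))) (a (c (b (a (l 14954392) (c (l 15087352) (l 14877752))) (a (l 14962328) (c (l 15053208) (l 14916832)))) (b (l 14515248) (l 14667832))) (c (b (l 14993880) (l 15002096)) (b (a (c (l 14691472) (l 14494760)) (c (l 14731088) (l 14548448))) (a (l 14723864) (c (l 14841536) (l 14724536)))))))), by decide +kernel⟩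

def k10_pm_113 : ∃ t, chk3 f_pm_113 t 1 6 1 = true :=
  ⟨(a (a (l 2) (b (l 2) (a (l 2) (b (l 2) (a (l 2) (b (l 2) (a (l 2) (l 13241536)))))))) (a (b (a (l 2) (a (b (l 2) (b (l 14053664) (a (l 14020848) (l 14309720)))) (b (a (l 669573258023) (b (l 14478976) (l 14641592))) (b (a (l 14490504) (l 14789568)) (a (l 14631904) (l 14929472)))))) (a (b (a (l 13397360) (b (l 13545904) (a (l 13720672) (l 13859624)))) (a (b (a (l 13367704) (c (l 13623064) (l 13551344))) (a (b (l 13419000) (l 13521160)) (c (l 13841032) (l 13814384)))) (b (a (l 13701944) (l 14226800)) (a (l 14148488) (l 14567536))))) (b (a (b (a (l 14147624) (l 14471912)) (a (l 14338168) (l 14705760))) (b (l 14969296) (l 15165080))) (a (b (l 14779920) (l 15028760)) (b (l 15383872) (l 15626440)))))) (a (b (b (a (b (l 14670504) (l 14838112)) (l 14936976)) (a (a (b (l 14954488) (l 15133632)) (l 15158232)) (l 15285008))) (b (a (b (l 15374464) (l 15541448)) (b (l 15550768) (a (l 15724720) (l 15743432)))) (a (b (l 15751088) (l 15972632)) (b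 (l 15822280) (l 15967440))))) (b (a (a (b (l 15006272) (l 15289144)) (b (l 14924800) (a (l 15212928) (l 15188672)))) (b (a (c (a (l 15085360) (c (l 15150016) (l 15067960))) (l 14901856)) (c (l 15133768) (a (l 14956528) (c (l 15049232) (l 14980752))))) (a (c (a (b (l 15238632) (l 15341032)) (b (l 15245672) (l 15319376))) (l 15168176)) (c (l 15171880) (a (b (l 15151424) (l 15215120)) (c (l 15216952) (l 15173688))))))) (a (b (a (l 15552544) (a (l 15443592) (l 15377664))) (a (l 15751408) (l 15536072))) (b (a (c (l 15391480) (l 15329640)) (c (l 15366672) (a (l 15297688) (l 15295880)))) (a (c (b (l 15479440) (l 15519912)) (l 15453288)) (c (l 15439832) (a (l 15396984) (l 15373040)))))))))), by decide +kernel⟩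

def k11_pm_113 : ∃ t, chk3 f_pm_113 t 4 7 1 = true :=
  ⟨(l 4), by decide +kernel⟩

def k12_pm_113 : ∃ t, chk3 f_pm_113 t 5 28 1 = true :=
  ⟨(a (a (l 2) (a (l 2) (l 12762656))) (a (b (l 12910680) (a (b (l 12806520) (l 12826304)) (b (l 12980344) (l 13108664)))) (b (a (b (l 13082136) (l 13147136)) (b (l 13327392) (l 13477760))) (a (c (l 13430048) (l 13412664)) (l 13825736))))), by decide +kernel⟩

def k13_pm_113 : ∃ t, chk3 f_pm_113 t 5 58 1 = true :=
  ⟨(a (a (l 2) (a (l 4) (b (b (a (l 2) (l 12680984)) (c (l 12707592) (a (c (l 12576960) (c (l 12534160) (a (l 4) (c (l 12521384) (b (l 12483944) (l 12519664)))))) (b (l 12639928) (c (l 12692408) (a (c (l 12626024) (c (l 12624616) (l 12617104))) (l 12742672))))))) (c (a (l 12749016) (b (c (l 12789088) (a (l 12712768) (l 12813336))) (l 12910696))) (c (a (l 12666376) (b (a (l 12696944) (l 12839720)) (b (l 12845272) (c (l 12845432) (l 12718960))))) (a (a (l 4) (a (l 4) (b (c (l 12610592) (l 12571272)) (l 4)))) (a (b (c (c (l 12701776) (l 12525896))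 (l 12667360)) (a (l 4) (l 12737776))) (c (b (b (l 12824152) (c (l 12840560) (l 12825976))) (l 12849368)) (l 12874504))))))))) (a (b (a (l 12898456) (l 13300784)) (c (a (a (b (c (l 12961472) (l 12992560)) (c (l 13083304) (l 13131464))) (b (l 13220344) (c (l 13354864) (l 13396552)))) (a (l 13298912) (l 13771232))) (a (a (c (b (c (l 13024896) (l 12986136)) (c (b (l 13181072) (l 13051488)) (b (a (b (l 12981216) (l 12953848)) (l 13187992)) (l 12860784)))) (b (l 12866104) (l 13095592))) (b (l 13231216) (c (c (b (l 13367216) (l 13448088)) (l 13364344)) (l 13320448)))) (l 13591960)))) (l 13795760))), by decide +kernel⟩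

def k14_pm_113 : ∃ t, chk3 f_pm_113 t 10 59 1 = true :=
  ⟨(b (b (a (l 4) (a (l 4) (a (l 4) (a (l 4) (c (l 12981136) (c (c (l 12947200) (l 12925368)) (l 12856928))))))) (l 4)) (l 4)), by decide +kernel⟩

def k15_pm_113 : ∃ t, chk3 f_pm_113 t 22 59 1 = true :=
  ⟨(a (c (b (c (b (l 13134424) (l 13373384)) (b (a (l 13168168) (a (l 13193424) (l 13425848))) (c (a (l 13168128) (l 13231616)) (a (c (l 13162872) (l 13157216)) (a (l 13135256) (l 13430424)))))) (b (c (b (l 13470552) (l 13367840)) (c (a (l 13268960) (a (l 13318328) (l 13463224))) (a (b (l 13230832) (l 13268952)) (a (l 13263704) (l 13391392))))) (a (l 4) (c (c (l 13485952) (a (l 13364448) (l 13458360))) (a (b (l 13272160) (l 13194160)) (l 13376712)))))) (b (c (a (c (b (c (l 12935976) (a (l 13009592) (l 13143488))) (l 13120160)) (b (l 12879696) (l 13061848))) (b (b (l 13412096) (a (l 13252448) (l 13403488))) (l 13330488))) (l 13270024)) (b (a (l 13133496) (l 13396424)) (l 13246552)))) (a (c (b (b (a (l 13468256) (l 13679344)) (b (l 13621584)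 (c (l 13708368) (l 13660584)))) (c (b (a (b (l 13622968) (l 13604296)) (l 13689784)) (l 13579848)) (b (b (l 13599168) (l 13565248)) (l 13497512)))) (b (b (l 13644328) (l 13564032)) (b (l 13198736) (l 13392768)))) (c (b (a (b (l 13844008) (b (c (l 13931416) (l 13885184)) (l 13819032))) (c (b (b (l 14023424) (l 14046920)) (l 14022208)) (b (l 13976312) (l 13891328)))) (b (l 13700256) (l 13446008))) (b (b (a (l 13821232) (l 13907080)) (a (l 13764136) (b (l 13935088) (l 13774368)))) (l 13495960))))), by decide +kernel⟩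

def k16_pm_113 : ∃ t, chk3 f_pm_113 t 23 118 1 = true :=
  ⟨(a (b (l 14161648) (a (c (c (a (l 13879104) (l 14152344)) (b (l 14134776) (a (l 13961848) (l 14091896)))) (b (l 13908120) (a (b (l 14016696) (l 13778064)) (b (l 14043104) (l 14042672))))) (a (b (l 14248448) (c (a (c (l 14196200) (l 14019536)) (l 14291832)) (b (a (l 14181448) (l 14247096)) (a (l 14166360) (l 14219232))))) (l 14329520)))) (l 14460992)), by decide +kernel⟩

def k17_pm_113 : ∃ t, chk3 f_pm_113 t 23 238 1 = true :=
  ⟨(a (a (c (c (a (l 13800304) (b (l 13909136) (l 13767144))) (a (l 13756032) (l 13743400))) (a (l 13520440) (b (l 13557904) (b (l 13538632) (l 13496440))))) (a (b (a (c (l 13898344) (l 13948136)) (b (c (a (l 14163152) (l 14275728)) (l 14176912)) (c (l 13910120) (l 13927360)))) (c (c (l 13740672) (l 13621008)) (b (l 13626272) (l 13509280)))) (b (a (c (c (b (l 14354560) (l 14188840)) (b (l 14297880) (l 14175400))) (b (l 14253808) (l 14116824))) (c (b (l 14367616) (c (l 14348496) (l 14328296))) (b (l 14301408)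 (l 14279664)))) (b (c (a (l 14026664) (c (l 14185808) (l 14160544))) (l 14005352)) (c (a (l 13703432) (l 13892920)) (l 13691024)))))) (a (c (b (l 14455200) (a (b (c (a (l 14373440) (l 14458848)) (c (l 14385256) (l 14373552))) (c (a (l 14166912) (l 14251352)) (l 14187720))) (b (l 14502224) (a (b (l 14493784) (l 14460568)) (l 14555040))))) (b (a (a (b (l 14378328) (l 14337064)) (l 14418848)) (l 14466856)) (a (b (c (l 14349328) (l 14316608)) (l 14127120)) (c (b (l 14480168) (l 14457496)) (b (l 14447136) (l 14437392)))))) (l 14688848))), by decide +kernel⟩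

def k18_pm_113 : ∃ t, chk3 f_pm_113 t 23 239 1 = true :=
  ⟨(a (a (l 13521288) (b (a (l 13477608) (c (c (l 13530640) (b (l 13571040) (l 13480448))) (b (l 13488760) (l 13398952)))) (l 13443200))) (b (b (a (a (c (a (l 13813768) (l 14108304)) (l 13819760)) (c (c (a (l 14299144) (l 14548752)) (l 14450808)) (l 14375392))) (a (c (c (l 14697384) (c (l 14689880) (l 14649616))) (l 14620336)) (l 14857096))) (a (a (a (c (l 13560152) (l 13446352)) (l 13745832)) (c (a (l 14137448) (l 14355144)) (l 14082680))) (c (a (c (a (l 14496488) (l 14774576)) (l 14657000)) (l 14857208)) (a (l 14608104) (l 14803080))))) (b (a (c (a (a (l 13508048) (l 13619648)) (l 14034512)) (a (l 13471064) (l 13873680))) (c (a (a (l 14418064) (l 14573448)) (a (l 14808312) (l 14933576))) (a (l 14407544) (l 14812752)))) (a (a (a (l 13483208) (l 13568760)) (a (l 13660296) (l 13837192))) (a (a (l 14096192) (l 14484408)) (c (c (l 14706544) (l 14710544)) (l 14668432))))))), by decide +kernel⟩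

def k19_pm_113 : ∃ t, chk3 f_pm_113 t 5 15 1 = true :=
  ⟨(a (l 4) (b (b (a (a (a (l 4) (b (c (c (c (l 13552624) (l 13523368)) (l 13358224)) (l 13340968)) (l 4))) (c (b (a (c (l 13395328) (l 13469376)) (b (l 13400144) (l 13557408))) (c (b (l 13607712) (l 13667744)) (b (l 13546088) (l 13617440)))) (b (l 13388232) (l 13503600)))) (b (b (a (a (c (l 13553368) (l 13435704)) (l 13527288)) (b (a (a (l 13593416) (b (a (l 13649336) (l 13760072)) (l 13730232))) (a (b (a (l 13906744) (l 14151296)) (l 13688976)) (c (b (a (l 14424040) (l 14721592)) (l 14364064)) (l 14316400)))) (a (l 13743352) (a (a (l 13890792) (a (l 13938880) (l 13949664))) (b (l 14063520) (l 13885968)))))) (a (a (c (a (l 13592416) (l 13627920)) (l 13502256)) (l 13672712)) (l 13972528))) (a (l 13827328) (l 14139160)))) (a (a (l 4) (l 13895048)) (a (b (l 14019768) (a (l 14291064) (l 14429176))) (b (a (b (l 14109768) (l 14258160)) (l 14216320)) (l 14672984))))) (a (l 4) (b (b (a (l 14678200) (l 15127136)) (a (l 14756216) (l 15329928)))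 (a (l 4) (b (a (l 15326808) (l 15533888)) (l 15568616))))))), by decide +kernel⟩

def k20_pm_113 : ∃ t, chk3 f_pm_113 t 3 14 1 = true :=
  ⟨(a (b (a (a (b (a (l 13750320) (l 14192024)) (l 14352192)) (b (l 14676680) (l 14992192))) (a (b (l 15307704) (l 15702120)) (b (l 15947376) (l 16237024)))) (a (a (b (l 14703384) (b (l 15037224) (a (b (l 15044728) (a (a (b (l 15000248) (c (c (l 15046728) (b (l 15018288) (l 15019344))) (b (l 14981920) (l 15000880)))) (l 15163968)) (l 15337976))) (l 15586696)))) (b (l 15456488) (a (l 15808936) (l 16104312)))) (a (b (l 15970840) (l 16404672)) (l 16557024)))) (a (b (a (l 16237128) (l 16108952)) (a (l 16475592) (l 16196888))) (a (b (a (l 15874440) (l 15607272)) (l 15693400)) (a (c (b (l 15525080) (l 15525080)) (l 15487024)) (c (l 15447504) (b (l 15395384) (l 15395384))))))), by decide +kernel⟩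

def k21_pm_113 : ∃ t, chk3 f_pm_113 t 24 120 1 = true :=
  ⟨(a (b (b (b (a (c (a (a (l 14857584) (l 15038760)) (l 15227856)) (a (l 14967256) (l 15179832))) (l 15450248)) (a (c (a (c (l 14870752) (l 14846616)) (a (l 15043976) (l 15209144))) (a (l 14757496) (l 15178880))) (a (c (l 15386368) (l 15353416)) (l 15552176)))) (a (a (c (b (l 14708680) (l 14460096)) (l 14460048)) (c (b (c (l 15072280) (l 15072352)) (l 14975112)) (l 14951800))) (c (c (a (b (l 15360896) (l 15256040)) (l 15565048)) (c (a (l 15379464) (l 15567896)) (a (l 15374056) (l 15532312)))) (c (a (l 15357544) (l 15529984)) (a (l 15332648) (l 15531704)))))) (b (a (a (b (l 14339624) (l 14149360)) (b (l 14714848) (l 14565160))) (c (a (b (l 15206808) (l 14998288)) (c (b (l 15569096) (l 15426360)) (l 15532232))) (a (l 15008128) (l 15479960)))) (a (a (l 14335888) (b (l 14527312) (l 14498184))) (a (a (l 14692960) (l 14847984)) (c (b (l 15321632) (l 15113304)) (l 15120704)))))) (b (l 15832408) (a (c (a (b (b (l 15743680) (a (l 15609024)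 (l 15787272))) (b (l 15599288) (l 15538544))) (b (l 15863920) (c (b (l 15905464) (l 15735256)) (l 15860272)))) (a (b (l 15708256) (l 15533904)) (b (a (l 15827232) (l 15928640)) (l 15841888)))) (b (l 16016104) (a (c (c (l 15978336) (l 15951592)) (l 15953576)) (l 16084968)))))), by decide +kernel⟩

def k22_pm_113 : ∃ t, chk3 f_pm_113 t 24 121 1 = true :=
  ⟨(a (b (a (l 14478632) (a (b (b (l 14721280) (l 14698032)) (l 14728024)) (b (c (b (l 14980584) (l 14937104)) (l 14715808)) (a (l 14853488) (l 14888080))))) (l 14735256)) (b (a (b (c (a (l 15350000) (b (l 15698816) (l 15591336))) (l 15187456)) (a (l 15126232) (c (l 15391992) (l 15343768)))) (c (b (a (b (l 15948904) (l 15834928)) (b (l 16069472) (l 16044784))) (l 15712432)) (b (a (l 15907840) (l 16047144)) (a (l 15640736) (l 15929360))))) (a (a (l 15151528) (b (l 15322672) (l 15342552))) (c (l 15657360) (b (a (l 15491912) (l 15750952)) (l 15588912)))))), by decide +kernel⟩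

def k23_pm_113 : ∃ t, chk3 f_pm_113 t 25 60 1 = true :=
  ⟨(b (l 16254080) (b (a (a (a (c (b (l 16140408) (l 16108720)) (b (l 16127776) (l 16135304))) (b (l 16231216) (c (l 16169288) (l 16223184)))) (l 16327544)) (l 16471472)) (a (a (b (c (l 16157248) (l 16160976)) (l 16118448)) (c (l 16347144) (l 16352720))) (a (l 16466648) (l 16600120))))), by decide +kernel⟩

def k24_pm_113 : ∃ t, chk3 f_pm_113 t 12 61 1 = true :=
  ⟨(a (a (b (l 14964384) (l 15386640)) (b (a (l 15468248) (b (a (l 15605600) (l 15773536)) (l 15854784))) (l 16031944))) (a (b (b (a (l 16039176) (b (l 16351272) (l 16256328))) (l 16270840)) (l 16521344)) (b (b (l 16578096) (a (l 16677096) (l 16752760))) (l 16759416)))), by decide +kernel⟩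

def k25_pm_113 : ∃ t, chk3 f_pm_113 t 13 30 1 = true :=
  ⟨(b (a (l 16652192) (l 16755600)) (a (b (a (l 16770536) (l 16777216)) (l 16777216)) (l 16759560))), by decide +kernel⟩

def k26_pm_113 : ∃ t, chk3 f_pm_113 t 6 31 1 = true :=
  ⟨(a (b (a (a (b (l 15840592) (l 15997696)) (b (a (l 16355296) (l 16615136)) (l 16600360))) (b (l 16758872) (l 16742128))) (a (b (l 16219136) (l 16140712)) (a (l 16663544) (l 16743472)))) (a (l 16777216) (l 16759560))), by decide +kernel⟩

def k27_pm_113 : ∃ t, chk3 f_pm_113 t 7 15 1 = true :=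
  ⟨(a (b (l 16356592) (l 16314648)) (a (a (l 15888384) (l 15607488)) (c (a (l 15525080) (l 15447504)) (a (l 15487024) (l 15395384))))), by decide +kernel⟩

theorem s28_pm_113 : ∃ t, chk3 f_pm_113 t 24 60 1 = true := ex3_b k21_pm_113 k22_pm_113

theorem s29_pm_113 : ∃ t, chk3 f_pm_113 t 12 60 1 = true := ex3_a s28_pm_113 k23_pm_113

theorem s30_pm_113 : ∃ t, chk3 f_pm_113 t 12 30 1 = true := ex3_b s29_pm_113 k24_pm_113

theorem s31_pm_113 : ∃ t, chk3 f_pm_113 t 6 30 1 = true := ex3_a s30_pm_113 k25_pm_113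

theorem s32_pm_113 : ∃ t, chk3 f_pm_113 t 6 15 1 = true := ex3_b s31_pm_113 k26_pm_113

theorem s33_pm_113 : ∃ t, chk3 f_pm_113 t 3 15 1 = true := ex3_a s32_pm_113 k27_pm_113

theorem s34_pm_113 : ∃ t, chk3 f_pm_113 t 3 7 1 = true := ex3_b k20_pm_113 s33_pm_113

theorem s35_pm_113 : ∃ t, chk3 f_pm_113 t 23 119 1 = true := ex3_b k17_pm_113 k18_pm_113

theorem s36_pm_113 : ∃ t, chk3 f_pm_113 t 23 59 1 = true := ex3_b k16_pm_113 s35_pm_113

theorem s37_pm_113 : ∃ t, chk3 f_pm_113 t 11 59 1 = true := ex3_a k15_pm_113 s36_pm_113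

theorem s38_pm_113 : ∃ t, chk3 f_pm_113 t 5 59 1 = true := ex3_a k14_pm_113 s37_pm_113

theorem s39_pm_113 : ∃ t, chk3 f_pm_113 t 5 29 1 = true := ex3_b k13_pm_113 s38_pm_113

theorem s40_pm_113 : ∃ t, chk3 f_pm_113 t 5 14 1 = true := ex3_b k12_pm_113 s39_pm_113

theorem s41_pm_113 : ∃ t, chk3 f_pm_113 t 5 7 1 = true := ex3_b s40_pm_113 k19_pm_113

theorem s42_pm_113 : ∃ t, chk3 f_pm_113 t 2 7 1 = true := ex3_a k11_pm_113 s41_pm_113

theorem s43_pm_113 : ∃ t, chk3 f_pm_113 t 1 7 1 = true := ex3_a s42_pm_113 s34_pm_113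

theorem s44_pm_113 : ∃ t, chk3 f_pm_113 t 1 3 1 = true := ex3_b k10_pm_113 s43_pm_113

theorem s45_pm_113 : ∃ t, chk3 f_pm_113 t 7 5 1 = true := ex3_a k8_pm_113 k9_pm_113

theorem s46_pm_113 : ∃ t, chk3 f_pm_113 t 63 9 1 = true := ex3_b k6_pm_113 k7_pm_113

theorem s47_pm_113 : ∃ t, chk3 f_pm_113 t 31 9 1 = true := ex3_a k5_pm_113 s46_pm_113

theorem s48_pm_113 : ∃ t, chk3 f_pm_113 t 31 4 1 = true := ex3_b k4_pm_113 s47_pm_113

theorem s49_pm_113 : ∃ t, chk3 f_pm_113 t 15 4 1 = true := ex3_a k3_pm_113 s48_pm_113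

theorem s50_pm_113 : ∃ t, chk3 f_pm_113 t 7 4 1 = true := ex3_a k2_pm_113 s49_pm_113

theorem s51_pm_113 : ∃ t, chk3 f_pm_113 t 7 2 1 = true := ex3_b s50_pm_113 s45_pm_113

theorem s52_pm_113 : ∃ t, chk3 f_pm_113 t 3 2 1 = true := ex3_a k1_pm_113 s51_pm_113

theorem s53_pm_113 : ∃ t, chk3 f_pm_113 t 1 2 1 = true := ex3_a k0_pm_113 s52_pm_113

theorem s54_pm_113 : ∃ t, chk3 f_pm_113 t 1 1 1 = true := ex3_b s53_pm_113 s44_pm_113

theorem c_pm_113 : CertNX 536870912 536870912 0 1230186008 1046898278 26843546 3 false true false .nn 1 1 3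
    ndN0q1 ndN6q3 pcN1 cut_pm_113 Ext.none :=
  certNX0 (fam := false) (s1 := true) (s2 := false) (a := 1) (b := 1) (c := 3) (cn := .nn) (n1 := ndN0q1) (n2 := ndN6q3) (pc := pcN1) (cut := cut_pm_113) (xt := Ext.none) (P1 := 536870912) (W1 := 536870912) (P2 := 0) (W2 := 1230186008) (P3 := 1046898278) (W3 := 26843546) (N0 := 3)
    rfl s54_pm_113

noncomputable def cut_pm_123 : Cut := Cut.of [[⟨0, 1, 0, 67108864⟩, ⟨1, 1, 0, 67108864⟩, ⟨2, 2, 0, 67108864⟩, ⟨3, 0, 0, 1233125376⟩]]

noncomputable def f_pm_123 : ℕ → ℕ → ℕ → ℕ → Bool := onCell 1073741824 536870912 0 1230186008 1046898278 26843546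
    (rowNX 3 2 false true false .npn 1 2 3 (qsf 536870912 536870912 0 1230186008 2) ndN0q1 ndN6q3 pcN2 cut_pm_123 Ext.none)

def k0_pm_123 : ∃ t, chk3 f_pm_123 t 8 8 1 = true :=
  ⟨(b (a (l 6) (a (b (a (l 6) (c (l 16544360) (l 16632824))) (c (a (a (l 16704152) (l 16702408)) (l 16505008)) (a (l 16645824) (l 16525928)))) (c (c (a (l 16359600) (l 16114336)) (a (l 16410248) (l 16186984))) (a (l 16191872) (l 15962744))))) (b (a (a (l 6) (a (a (l 6) (c (a (l 6) (c (l 16534928) (l 16586784))) (l 16541808))) (c (c (a (l 16635232) (l 16645000)) (l 16605960)) (l 16546952)))) (a (c (a (l 16625208) (l 16549152)) (a (l 16501424) (l 16365352))) (c (a (l 16048504) (c (l 16036392) (l 16045384))) (a (l 16170224) (l 15951888))))) (a (a (a (l 6) (a (l 6) (b (l 6) (c (c (l 16487760) (l 16440152)) (l 16245672))))) (c (a (c (a (c (l 16546976) (l 16552528)) (l 16474120)) (a (l 16466872) (l 16490976))) (c (l 16579720) (l 16500224))) (c (l 16398816) (l 16336576)))) (a (c (a (l 16514232) (c (l 16469536) (l 16353152)))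 (a (l 16320768) (l 16174696))) (a (b (c (l 16215144) (l 16032024)) (l 16077328)) (l 15932312)))))), by decide +kernel⟩

def k1_pm_123 : ∃ t, chk3 f_pm_123 t 8 9 1 = true :=
  ⟨(a (b (a (c (a (c (b (l 16347952) (b (l 16313960) (l 16292568))) (b (a (l 16330576) (c (l 16372192) (b (l 16382288) (l 16354752)))) (a (b (l 16275728) (c (l 16292384) (l 16291328))) (b (c (l 16343216) (l 16345080)) (l 16380656))))) (c (b (a (l 16419200) (c (l 16485688) (l 16489888))) (b (a (l 16309760) (l 16472032)) (l 16522672))) (b (a (c (b (l 16427360) (l 16423464)) (l 16419944)) (l 16368608)) (b (a (l 16376824) (l 16317616)) (l 16265352))))) (a (a (b (b (l 6) (c (c (l 16310384) (l 16303712)) (l 15408528))) (c (b (l 16225736) (l 16138976)) (b (l 15318800) (l 15220776)))) (c (b (c (a (l 16360160) (l 16352216)) (l 16124688)) (b (l 16095680) (l 15966800))) (b (l 15690120) (l 15482872)))) (c (b (l 16195144) (l 16008536)) (b (l 15942848) (l 15704576))))) (c (b (a (c (a (l 16420624) (l 16477504)) (l 16384592)) (a (l 16439392)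 (l 16425712))) (a (l 16336240) (l 16279096))) (b (a (c (l 16246696) (l 16099160)) (c (l 16256112) (l 16128104))) (l 15960200)))) (a (c (a (b (c (a (l 16394976) (l 16333512)) (b (l 16311216) (l 16262984))) (a (a (l 16252688) (l 16256232)) (l 16119720))) (b (l 16254376) (l 15987760))) (a (l 15327704) (l 15465480))) (a (b (l 15922184) (l 15690232)) (l 15777392)))) (a (b (a (b (c (l 16375024) (l 16121472)) (l 16037768)) (l 16008128)) (l 15673528)) (b (l 15790080) (l 15485152)))), by decide +kernel⟩

def k2_pm_123 : ∃ t, chk3 f_pm_123 t 8 5 1 = true :=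
  ⟨(b (a (b (a (b (a (c (l 15800312) (l 14950864)) (l 15429248)) (l 15186736)) (l 15368600)) (a (b (l 15009576) (l 14866248)) (l 15037456))) (b (l 15278408) (l 15035200))) (a (b (a (l 14709968) (l 14815720)) (a (l 14589112) (l 14703144))) (b (l 14982184) (a (l 14770288) (b (l 14844312) (l 14798352)))))), by decide +kernel⟩

def k3_pm_123 : ∃ t, chk3 f_pm_123 t 9 2 1 = true :=
  ⟨(b (b (a (a (b (c (a (b (l 16052968) (l 15942432)) (b (l 15888712) (b (l 15775968) (l 15697000)))) (a (b (l 16027840) (l 15913352)) (b (l 15857816) (b (l 15741104) (l 15659224))))) (b (c (a (c (l 15855104) (l 15839704)) (b (l 15667216) (l 15654616))) (a (a (l 15802544) (l 15714680)) (l 15419888))) (l 15692704))) (b (a (b (c (l 15690400) (l 15652536)) (c (b (l 15544680) (l 15504144)) (b (l 15501576) (l 15459048)))) (b (c (c (l 15463976) (l 15441360)) (l 15237448)) (b (c (l 15340784) (l 15289856)) (l 15299952)))) (l 15381896))) (b (b (a (a (c (b (l 15215584) (a (l 15221368) (l 15125368))) (b (l 15205064) (a (l 15166832)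 (l 15067056)))) (b (c (l 15018920) (l 14956712)) (l 14961072))) (a (c (l 14849896) (l 14779736)) (l 14648768))) (l 14898800)) (l 14905504))) (a (a (l 15387984) (l 15145432)) (b (l 14811560) (l 14714528)))) (b (a (b (l 15030624) (a (l 14968040) (l 14881016))) (b (l 14676216) (l 14674952))) (a (b (a (l 14905760) (l 14876720)) (a (b (l 14902240) (l 14856696)) (b (l 14885296) (l 14810792)))) (b (l 14684336) (b (l 14674704) (l 14592192)))))), by decide +kernel⟩

def k4_pm_123 : ∃ t, chk3 f_pm_123 t 5 2 1 = true :=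
  ⟨(b (a (a (b (a (b (l 14454864) (l 14498392)) (l 14678672)) (a (l 14459008) (l 14677656))) (b (l 15204576) (l 15408344))) (a (b (a (l 16103496) (l 16501888)) (l 16284656)) (b (l 16721128) (l 16702304)))) (a (a (a (b (l 14487640) (b (l 14528760) (l 14512640))) (b (l 14713032) (l 14574112))) (b (b (l 15435264) (l 15444488)) (b (l 15414384) (l 15348424)))) (a (b (b (l 16314544) (l 16152912)) (l 15870200)) (b (b (l 16721960) (l 16633864)) (l 16371680))))), by decide +kernel⟩

def k5_pm_123 : ∃ t, chk3 f_pm_123 t 3 2 1 = true :=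
  ⟨(a (b (a (b (l 16721712) (l 16691728)) (b (l 16721656) (l 16701648))) (a (b (a (l 16651624) (l 16663888)) (a (l 16449488) (l 16584072))) (b (l 16722896) (a (l 16736056) (l 16755512))))) (b (a (b (l 16721712) (l 16702872)) (b (l 16721712) (l 16702872))) (b (a (l 16728152) (l 16728152)) (c (l 16755968) (l 16692152))))), by decide +kernel⟩

def k6_pm_123 : ∃ t, chk3 f_pm_123 t 1 3 1 = true :=
  ⟨(a (a (b (a (a (b (b (b (a (l 14523648) (b (l 14641664) (l 14589704))) (c (l 14473424) (a (l 14395824) (l 14412816)))) (c (l 14199432) (c (l 14133992) (l 13833576)))) (c (l 13612728) (c (b (l 13735016) (l 13289456)) (a (b (l 13656352) (l 13236720)) (l 13510064))))) (b (c (b (a (l 14617560) (l 14568792)) (c (l 14296736) (l 14018656))) (b (a (l 14542432) (l 14556840)) (l 14184832))) (c (c (l 13770584) (a (l 13682544) (b (l 13940064) (l 13593472)))) (b (l 13817368) (l 13445440))))) (a (c (b (a (c (l 14534728) (l 14476368)) (b (l 14634448) (l 14348536))) (a (b (l 14022080) (l 13588352)) (b (l 14057120)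 (l 13762552)))) (b (l 14339648) (l 13744208))) (b (b (l 14445624) (l 14245536)) (b (l 14041640) (l 13852824))))) (b (a (a (a (c (l 12877072) (c (l 12777368) (b (l 12815264) (b (l 12580512) (l 4))))) (c (l 12989168) (b (c (l 12976824) (l 12915168)) (l 4)))) (b (c (c (l 13286344) (a (l 13153616) (l 13302944))) (a (l 12908112) (l 13164776))) (l 4))) (b (a (b (c (a (l 13408984) (l 13602600)) (l 13378152)) (l 4)) (l 4)) (l 4))) (l 4))) (b (a (b (a (a (l 14424808) (l 14688088)) (l 15215528)) (a (a (l 14304336) (l 14617408)) (b (l 15078376) (l 15040616)))) (b (a (l 15713744) (b (l 16103208) (l 15914872))) (b (a (l 15480056) (l 15830664)) (l 4)))) (l 4))) (b (b (a (a (a (b (l 16286352) (l 16194168)) (b (l 16522536) (l 16499272))) (c (l 16847992) (a (l 16749856) (l 16777144)))) (l 4)) (l 4)) (l 1))), by decide +kernel⟩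

theorem s7_pm_123 : ∃ t, chk3 f_pm_123 t 8 4 1 = true := ex3_b k0_pm_123 k1_pm_123

theorem s8_pm_123 : ∃ t, chk3 f_pm_123 t 8 2 1 = true := ex3_b s7_pm_123 k2_pm_123

theorem s9_pm_123 : ∃ t, chk3 f_pm_123 t 4 2 1 = true := ex3_a s8_pm_123 k3_pm_123

theorem s10_pm_123 : ∃ t, chk3 f_pm_123 t 2 2 1 = true := ex3_a s9_pm_123 k4_pm_123

theorem s11_pm_123 : ∃ t, chk3 f_pm_123 t 1 2 1 = true := ex3_a s10_pm_123 k5_pm_123

theorem s12_pm_123 : ∃ t, chk3 f_pm_123 t 1 1 1 = true := ex3_b s11_pm_123 k6_pm_123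

theorem c_pm_123 : CertNX 536870912 536870912 0 1230186008 1046898278 26843546 3 false true false .npn 1 2 3
    ndN0q1 ndN6q3 pcN2 cut_pm_123 Ext.none :=
  certNX2 (fam := false) (s1 := true) (s2 := false) (a := 1) (b := 2) (c := 3) (cn := .npn) (n1 := ndN0q1) (n2 := ndN6q3) (pc := pcN2) (cut := cut_pm_123) (xt := Ext.none) (P1 := 536870912) (W1 := 536870912) (P2 := 0) (W2 := 1230186008) (P3 := 1046898278) (W3 := 26843546) (N0 := 3)
    rfl (fun _ => rfl) s12_pm_123

noncomputable def f_pm_133 : ℕ → ℕ → ℕ → ℕ → Bool := onCell 536870912 536870912 0 1230186008 1046898278 26843546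
    (rowNX 3 0 false true false .dn 1 3 3 (qsf 536870912 536870912 0 1230186008 3) ndN0q1 ndN6q3 pcN3 Cut.none Ext.none)

def k0_pm_133 : ∃ t, chk3 f_pm_133 t 1 1 1 = true :=
  ⟨(b (a (b (a (a (b (l 16721432) (l 1)) (l 1)) (l 1)) (l 1)) (l 1)) (l 1)), by decide +kernel⟩

theorem c_pm_133 : CertNX 536870912 536870912 0 1230186008 1046898278 26843546 3 false true false .dn 1 3 3
    ndN0q1 ndN6q3 pcN3 Cut.none Ext.none :=
  certNX0 (fam := false) (s1 := true) (s2 := false) (a := 1) (b := 3) (c := 3) (cn := .dn) (n1 := ndN0q1) (n2 := ndN6q3) (pc := pcN3) (cut := Cut.none) (xt := Ext.none) (P1 := 536870912) (W1 := 536870912) (P2 := 0) (W2 := 1230186008) (P3 := 1046898278) (W3 := 26843546) (N0 := 3)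
    rfl k0_pm_133

noncomputable def f_pm_202 : ℕ → ℕ → ℕ → ℕ → Bool := onCell 0 536870912 0 536870912 1046898278 26843546
    (rowNX 3 1 false true false .pp 2 0 2 (qsf 0 536870912 1073741824 536870912 0) ndN0q2 ndN6q2 pcN0 Cut.none Ext.none)

def k0_pm_202 : ∃ t, chk3 f_pm_202 t 4 32 2 = true :=
  ⟨(b (a (c (a (a (b (l 15768304) (c (l 15803112) (l 15808032))) (l 15907512)) (l 16026400)) (b (l 16001544) (c (l 15934256) (a (l 15795784) (l 15843600))))) (a (a (c (l 16161576) (b (l 16212128) (b (l 16165680) (c (l 16130216) (l 16089704))))) (l 16210304)) (c (l 16437512) (l 16343720)))) (c (a (a (a (b (c (b (l 15761288) (l 15581488)) (b (l 15763400) (c (l 15641336) (l 15715088)))) (c (b (l 15611200) (l 15604376)) (l 15473672))) (b (c (c (l 15811832) (l 15816360)) (l 15811080)) (a (c (b (l 15726664) (l 15657840)) (l 15661480)) (l 15715040)))) (b (b (l 15949152) (c (l 15914752) (l 15905944))) (l 15687232))) (a (b (b (l 15942672) (c (c (l 16097920) (l 15973680)) (a (l 16037880) (l 16029336))))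 (a (l 15944328) (a (l 16020144) (l 15982528)))) (b (l 16263312) (l 16190024)))) (c (a (a (a (b (a (b (a (l 15632496) (l 15757216)) (l 15679584)) (l 15746096)) (a (l 15580624) (l 15600552))) (l 15577920)) (b (l 15704760) (l 15771560))) (a (b (b (a (l 16085368) (l 16055616)) (l 16069872)) (l 15963112)) (l 16143824))) (a (b (a (b (l 15777720) (l 15602368)) (l 15892352)) (a (b (l 15497744) (l 15571168)) (l 15734968))) (a (b (l 16081040) (b (l 15934592) (l 15812784))) (l 16033496)))))), by decide +kernel⟩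

def k1_pm_202 : ∃ t, chk3 f_pm_202 t 4 32 3 = true :=
  ⟨(b (c (b (a (c (l 16015520) (l 15834704)) (a (a (a (l 16168184) (l 16260328)) (l 16341120)) (l 16364928))) (a (c (b (l 15731328) (l 15903264)) (b (l 15867320) (l 15818408))) (a (a (b (c (l 16154848) (l 16167264)) (c (l 16118648) (l 16099624))) (l 16241584)) (l 16187400)))) (b (b (a (c (l 16050624) (c (l 15885784) (a (l 15930536) (l 15964616)))) (a (c (l 16316968) (c (l 16069888) (b (l 16108248) (l 16309280)))) (l 16302608))) (a (c (a (l 15899336) (l 15952216)) (l 15788384)) (a (a (a (c (l 16111200) (l 16193368)) (l 16227664)) (l 16330288)) (l 16292744)))) (a (c (b (l 15813456) (l 15885736)) (l 15922096)) (a (c (a (l 16028664) (l 16237016)) (l 16146856)) (l 16376304))))) (c (a (b (c (b (l 15829000) (l 15636928)) (l 15652376)) (c (l 15643064) (l 15711504))) (a (b (c (b (l 16093680) (l 15820648)) (c (l 15935968) (l 16070504))) (l 15821600)) (b (l 16294416) (l 16187448)))) (a (c (l 15727344) (l 15769976)) (a (c (l 15913200) (l 16041560))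 (l 16263680))))), by decide +kernel⟩

def k2_pm_202 : ∃ t, chk3 f_pm_202 t 4 33 1 = true :=
  ⟨(c (a (b (c (a (b (c (a (l 15516408) (l 15571576)) (a (l 15502792) (b (l 15571224) (l 15506648)))) (c (a (l 15432288) (b (l 15479600) (l 15428320))) (b (l 15453064) (l 15418296)))) (b (l 15669560) (c (b (l 15521448) (l 15400080)) (l 15516680)))) (b (c (a (b (c (l 15529096) (l 15523080)) (l 15486528)) (l 15623136)) (l 15582592)) (a (l 15447256) (l 15567128)))) (c (a (c (a (l 15336904) (l 15352056)) (l 15339208)) (c (b (l 15272984) (l 15376104)) (l 15422440))) (a (b (l 15284872) (c (l 15307696) (l 15305936))) (l 15381792)))) (c (b (a (b (c (l 15870064) (l 15844512)) (c (l 15723368) (l 15635984))) (a (b (l 15964232) (a (c (l 15852112) (l 15849656)) (l 15910528))) (l 16023920))) (a (c (l 15451576) (l 15599896)) (c (b (a (l 15730928) (l 15886704)) (l 15750384)) (l 15809776)))) (b (b (c (a (b (l 15797280) (l 15803832)) (b (l 16074952) (l 15954144))) (l 15827296)) (a (l 15750168) (l 15959992))) (a (l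 15633784) (l 15843704))))) (a (a (b (c (c (l 15492680) (l 15498232)) (l 15492432)) (c (c (a (b (c (l 15351152) (l 15345768)) (c (l 15282224) (l 15272648))) (l 15366040)) (l 15318280)) (l 15300752))) (c (b (l 15646744) (l 15277160)) (l 15556728))) (c (c (b (l 15706912) (a (l 15659256) (l 15702760))) (b (a (l 15847560) (l 15884936)) (l 15673920))) (a (l 15751080) (l 15702288))))), by decide +kernel⟩

def k3_pm_202 : ∃ t, chk3 f_pm_202 t 5 16 1 = true :=
  ⟨(b (c (b (a (a (b (l 16186960) (l 16254736)) (b (l 16003528) (l 15853416))) (a (a (l 15886000) (l 15911408)) (l 15859784))) (a (c (b (a (l 16372664) (l 16096816)) (l 16264944)) (b (l 16046496) (l 16175912))) (b (a (c (b (l 15895584) (l 15913496)) (l 15865208)) (c (l 15840120) (l 15832192))) (c (a (l 15988696) (l 15824904)) (a (l 15995312) (l 15827224)))))) (b (a (c (b (a (l 16152960) (l 15964792)) (a (l 16092496) (b (l 15989840) (l 16041064)))) (b (c (a (l 16140272) (l 15907560)) (b (a (l 16103600) (l 15925176)) (l 15907024))) (a (l 16253296)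 (l 15903048)))) (c (b (l 15895768) (b (l 15779808) (a (l 15864104) (l 15839672)))) (b (c (l 15879608) (b (l 15857256) (l 15861528))) (c (l 15853864) (l 15839968))))) (a (c (b (l 16006624) (l 16369696)) (l 16207048)) (c (a (b (l 15796664) (l 15972200)) (b (l 15824464) (l 15801240))) (a (l 15917696) (l 15784016)))))) (c (a (b (c (a (b (l 16321088) (l 16109352)) (l 16238104)) (a (l 16123944) (l 16350808))) (a (l 15944016) (l 16124624))) (b (a (c (b (l 16120088) (l 16224264)) (b (l 16111472) (l 16215648))) (c (b (l 15867736) (l 15799320)) (b (l 15749152) (l 15911592)))) (a (l 16236816) (l 15911680)))) (a (c (a (l 16025112) (l 16316240)) (l 16120344)) (a (c (l 16064552) (l 16216312)) (b (c (l 15852608) (l 15827360)) (l 16015520)))))), by decide +kernel⟩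

def k4_pm_202 : ∃ t, chk3 f_pm_202 t 4 17 4 = true :=
  ⟨(b (b (a (b (a (l 15254888) (l 15326096)) (a (a (a (l 15161960) (l 15179072)) (l 15200208)) (l 15273120))) (a (l 15438632) (l 15658920))) (a (a (c (a (l 15085016) (l 15122912)) (b (c (l 15125632) (l 15020800)) (a (c (l 15037216) (l 14935160)) (l 15073080)))) (c (a (l 15145088) (l 15207424)) (a (b (l 15170552) (l 15112320)) (l 15210616)))) (a (a (l 15069568) (l 15358936)) (l 15517344)))) (a (b (b (c (a (c (l 15020336) (b (l 15032288) (a (l 14990208) (l 15012704)))) (l 15087008)) (a (c (a (l 14982360) (a (l 15002024) (l 15020200))) (a (l 14783640) (b (l 15008616) (l 14968552)))) (a (c (l 15053296) (l 15043464)) (l 15108632)))) (c (a (c (a (l 14951976) (a (l 14969576) (l 14983248))) (a (l 14924072) (l 14955008))) (a (l 15002568) (l 15049120))) (a (c (a (l 14889024) (b (l 14948104) (l 14909632))) (l 14907496)) (a (l 14978872) (a (l 15020496) (l 15057920)))))) (c (b (a (c (a (l 14867784) (l 14902000)) (a (l 14829920) (b (l 14892096) (l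 14853752)))) (a (l 14935616) (c (l 14992552) (l 14983840)))) (a (a (b (l 14782264) (l 14742856)) (c (b (l 14836968) (l 14796592)) (l 14802904))) (a (b (l 14878496) (b (l 14851776) (l 14833888))) (c (l 14929200) (l 14919944))))) (a (a (l 14773328) (l 14823040)) (a (l 14872376) (l 14955952))))) (b (a (c (a (l 15153904) (l 15209056)) (c (a (l 15111264) (l 15215072)) (l 14974240))) (l 15316936)) (c (a (b (a (l 15057912) (l 15141112)) (a (b (l 15009840) (l 14974040)) (l 15080768))) (b (l 15282936) (a (c (l 15166104) (l 15163136)) (l 15267872)))) (a (a (l 14977952) (l 15091472)) (l 15219912)))))), by decide +kernel⟩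

def k5_pm_202 : ∃ t, chk3 f_pm_202 t 4 17 5 = true :=
  ⟨(b (a (b (a (c (b (l 15247728) (c (l 15176144) (b (l 15185072) (l 15064624)))) (b (c (l 15241104) (l 15232168)) (c (a (a (b (l 15149560) (l 15107728)) (l 15147608)) (l 15183824)) (l 15133056)))) (c (l 15308832) (b (l 15343360) (l 15275912)))) (a (c (b (c (a (b (l 15118576) (l 15077248)) (l 15129496)) (a (b (l 15072352) (l 15052496)) (l 15092248))) (a (c (b (l 15032472) (l 14990824)) (l 14998520)) (l 15047032))) (a (l 15024408) (l 15091904))) (b (c (a (c (l 15166336) (l 15149112)) (l 15235376)) (l 15106280)) (a (a (l 15078960) (l 14961416)) (l 15108344))))) (a (b (l 15483704) (c (l 15063304) (l 15332480))) (b (c (l 15691640) (l 15621488)) (l 15391312)))) (a (b (a (a (l 14904872) (l 14929832)) (c (c (l 15029888) (l 15010120)) (l 14996920))) (a (a (l 14747328) (l 14797688)) (a (l 14847656) (l 14926992)))) (a (b (l 15126856) (a (b (l 15037976) (l 14953792)) (l 15064952))) (l 15299112)))), by decide +kernel⟩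

def k6_pm_202 : ∃ t, chk3 f_pm_202 t 4 17 3 = true :=
  ⟨(b (a (a (b (c (a (b (l 15206584) (l 15097152)) (l 15174272)) (a (l 15112608) (l 15162888))) (a (l 14987360) (l 15007768))) (c (b (l 15297776) (a (l 15092008) (l 15171864))) (l 14980696))) (a (l 15201272) (c (l 15532240) (l 15596464)))) (a (a (c (b (l 14884696) (l 14642480)) (b (l 14852536) (l 14733712))) (b (c (l 14949632) (l 14955744)) (a (l 14797448) (l 14873056)))) (a (b (l 15130224) (c (l 14941936) (l 14937576))) (l 15261440)))), by decide +kernel⟩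

def k7_pm_202 : ∃ t, chk3 f_pm_202 t 5 17 1 = true :=
  ⟨(c (a (b (b (a (l 15912144) (c (l 16169328) (l 16210848))) (a (c (l 15737552) (a (l 15513656) (l 15832040))) (l 15942064))) (a (c (b (c (l 15600008) (a (l 15556352) (l 15668264))) (c (b (l 15507944) (l 15439760)) (l 15469872))) (b (l 15605848) (l 15453280))) (b (l 15866080) (b (l 15749752) (c (c (l 15534448) (l 15674528)) (l 15659984)))))) (b (a (c (l 16358128) (l 16225536)) (c (l 16386032) (l 16166048))) (a (c (l 15848608) (l 16081408)) (b (l 16292608) (l 16160280))))) (a (b (a (b (l 15934320) (l 15740192)) (l 16082488)) (a (b (l 15575800) (l 15419496)) (b (l 15847872) (l 15671440)))) (b (a (l 16361168) (l 16294960)) (a (l 16065736) (l 16411136))))), by decide +kernel⟩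

def k8_pm_202 : ∃ t, chk3 f_pm_202 t 4 36 1 = true :=
  ⟨(c (a (b (a (a (a (b (c (l 14687800) (l 14672624)) (c (l 14769824) (l 14734720))) (b (l 14725632) (l 14808256))) (c (b (l 14796312) (l 14904008)) (l 14819984))) (a (b (c (l 14855024) (l 14821376)) (c (l 14989472) (l 14958176))) (b (l 14888152) (l 14988288)))) (a (a (a (b (c (l 14846840) (l 14813096)) (l 14900544)) (b (l 14900952) (l 14975944))) (c (l 15077584) (l 15047864))) (a (b (c (l 15159464) (l 15131152)) (l 15167056)) (b (l 15164856) (a (l 15368040) (l 15346248)))))) (b (a (c (a (b (l 14961328) (l 15013344)) (b (l 15057952) (l 15057952))) (a (l 14815736) (l 15030576))) (c (c (b (l 15162776) (l 15174752)) (l 15154056)) (l 15133880))) (a (a (b (l 15144928) (l 15302128)) (b (l 15125424) (l 15262760))) (c (b (l 15209168) (l 15300080)) (l 15227040))))) (a (b (a (a (a (b (l 14617368) (l 14681040)) (l 14698728)) (l 14768568)) (a (b (l 14770064) (l 14910344)) (l 14872760))) (a (a (b (a (l 14761480) (l 14835032)) (l 14871152)) (l 15002416))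 (a (b (l 15087872) (l 15240704)) (b (l 15108136) (l 15303720))))) (a (b (a (b (l 14882208) (l 14938888)) (l 14965896)) (a (l 15164816) (l 15136192))) (b (l 15100928) (l 15163688))))), by decide +kernel⟩

def k9_pm_202 : ∃ t, chk3 f_pm_202 t 4 37 1 = true :=
  ⟨(a (c (a (a (a (l 15034888) (b (c (l 15093672) (l 15064256)) (l 15212240))) (b (l 15117736) (a (b (l 15277464) (l 15329256)) (l 15446480)))) (b (a (l 15300704) (b (a (l 15489968) (l 15550240)) (a (l 15701032) (l 15730944)))) (a (l 15592488) (b (a (l 15813808) (l 15889112)) (l 15986624))))) (a (a (a (l 14995344) (b (l 15019264) (l 15157264))) (b (l 15189680) (a (l 15249432) (l 15399744)))) (b (a (l 15422472) (b (l 15500032) (l 15684296))) (a (l 15616000) (b (l 15842008) (l 15958840)))))) (a (b (a (c (l 15587920) (l 15546088)) (c (l 15458904) (l 15451848))) (c (a (a (b (l 15932176) (l 16051424)) (l 15979440)) (l 15881736)) (a (a (l 15895072) (l 15951392)) (l 15850248)))) (c (b (a (b (l 15386872) (l 15520544)) (l 15462040)) (a (b (l 15669520)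 (l 15844304)) (l 15522992))) (b (a (l 15407816) (l 15409288)) (a (l 15719552) (l 15673160)))))), by decide +kernel⟩

def k10_pm_202 : ∃ t, chk3 f_pm_202 t 5 18 1 = true :=
  ⟨(b (a (c (b (a (c (l 15379528) (l 15355400)) (c (l 15524352) (l 15588464))) (a (l 15369920) (l 15563824))) (a (b (l 15318232) (l 15320640)) (b (l 15494536) (l 15521968)))) (c (a (l 15845192) (l 16145440)) (l 15802952))) (a (b (a (c (l 15485032) (l 15448232)) (c (l 15563496) (l 15542728))) (c (l 15710848) (l 15670432))) (a (b (c (l 15763184) (l 15728408)) (c (l 15784128) (l 15749400))) (l 15984952)))), by decide +kernel⟩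

def k11_pm_202 : ∃ t, chk3 f_pm_202 t 2 19 1 = true :=
  ⟨(b (b (a (c (a (a (a (l 15283440) (a (c (l 15434856) (l 15411424)) (c (l 15557184) (l 15535896)))) (c (b (l 15931104) (l 15910240)) (b (l 15916328) (l 15980464)))) (a (a (b (a (l 16243032) (l 16313536)) (a (l 16406800) (c (l 16464112) (l 16480352)))) (l 16137144)) (a (l 15954248) (b (l 15918336) (b (l 16033968) (l 16108104)))))) (a (a (a (l 15230920) (a (l 15375600) (l 15503344))) (b (l 15893744) (l 15875688))) (a (a (b (l 16196736) (a (l 16393800) (l 16452152))) (l 16225416)) (b (l 15905128) (b (l 16086720) (l 16172256)))))) (a (a (b (l 15765760) (c (b (l 15978480) (l 16035088)) (l 15879416))) (c (l 15928712) (l 15898912))) (a (c (b (l 15873816) (l 15961240)) (l 15887648)) (l 15966576)))) (a (a (a (a (c (l 15382656) (l 15333592)) (a (l 15454400) (c (l 15563856) (l 15521256)))) (c (l 15951256) (l 15922272))) (a (a (l 16298176) (a (l 16531032) (l 16504296))) (l 16302008))) (a (a (c (l 15956672) (l 16086904)) (l 15967520)) (a (l 16009152)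 (l 16005760))))) (a (a (a (a (c (l 15478048) (l 15497440)) (c (b (l 15579784) (l 15633648)) (b (l 15537712) (l 15593440)))) (a (a (c (b (l 15672824) (l 15690440)) (b (l 15634056) (l 15652288))) (l 15788976)) (l 16003568))) (a (a (l 16292104) (b (a (l 16556872) (l 16586048)) (l 16496720))) (b (l 16458568) (a (l 16634040) (l 16529584))))) (a (c (b (a (a (l 16239768) (l 16168472)) (l 16128288)) (a (l 16331776) (l 16223528))) (b (a (l 16192272) (l 16110360)) (a (l 16317520) (l 16206128)))) (c (a (l 16119144) (l 16121168)) (l 16102400))))), by decide +kernel⟩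

def k12_pm_202 : ∃ t, chk3 f_pm_202 t 3 64 1 = true :=
  ⟨(a (c (a (c (l 15910720) (b (l 15910248) (l 15860248))) (a (c (l 15857616) (l 15790192)) (b (l 15662432) (c (l 15649392) (b (l 15631320) (l 15616320)))))) (a (c (b (l 15884296) (c (l 15847440) (l 15842776))) (b (c (b (l 15877248) (l 15857664)) (c (l 15776440) (l 15855120))) (c (l 15835000) (l 15821352)))) (c (b (a (l 15830328) (l 15618696)) (b (a (l 15798144) (c (l 15610792) (l 15603168))) (c (l 15691840) (l 15647320)))) (b (c (a (l 15708840) (b (l 15604912) (l 15536456))) (b (a (l 15602480) (c (l 15595240) (l 15358352))) (a (l 15794664) (l 15588976)))) (c (a (l 15779576) (l 15587472)) (l 15664320)))))) (a (c (a (l 15311072) (l 14831872)) (c (b (l 15012488) (a (l 15272808) (l 14782720))) (a (c (l 15011000) (l 15205152)) (b (c (l 14732800) (l 14713168)) (l 14747440))))) (c (a (c (l 14329360) (l 14293464)) (c (l 13899696) (a (l 13762392) (l 13728408)))) (a (c (b (l 14203128) (l 14225256)) (b (c (l 14166488) (l 14142184)) (l 14180296)))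 (c (a (b (l 13886008) (c (l 13925008) (l 13897768))) (b (l 13662912) (c (l 13702328) (l 13675288)))) (c (b (a (l 13844544) (a (l 13678568) (l 13562832))) (a (l 13871568) (l 13645616))) (b (a (l 13817664) (b (l 13579472) (l 13593448))) (l 13722088)))))))), by decide +kernel⟩

def k13_pm_202 : ∃ t, chk3 f_pm_202 t 3 65 1 = true :=
  ⟨(a (c (b (a (c (b (l 15846888) (l 15826712)) (l 15828952)) (a (c (l 15702096) (l 15775024)) (c (b (l 15624112) (l 15606176)) (l 15600192)))) (c (a (l 15812408) (l 15676056)) (a (l 15812608) (c (l 15675064) (l 15585456))))) (c (a (b (l 15736208) (l 15786784)) (b (a (l 15764152) (c (l 15593432) (l 15580280))) (l 15643656))) (a (l 15772736) (l 15477184)))) (a (c (a (b (l 15330320) (c (l 15354608) (a (l 15434144) (l 15250896)))) (c (l 14884120) (b (l 14840328) (l 14873752)))) (c (a (b (l 15298224) (l 15309584)) (l 14821184)) (a (l 15264784) (l 14778448)))) (c (a (c (a (l 14468496) (b (l 14248808) (l 14276440))) (c (l 14349272) (l 14299504))) (a (c (l 14049552) (c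 (l 14016896) (l 13968464))) (b (l 13790088) (l 13712072)))) (a (c (l 14265592) (l 14214256)) (c (a (l 13951504) (c (l 13748560) (l 13717024))) (a (l 13894504) (l 13667224))))))), by decide +kernel⟩

def k14_pm_202 : ∃ t, chk3 f_pm_202 t 3 33 1 = true :=
  ⟨(a (c (a (b (c (b (l 15802328) (a (l 15787728) (l 15784024))) (b (l 15786872) (l 15752240))) (a (c (l 15616280) (l 15778608)) (l 15711352))) (b (c (b (l 15665144) (c (l 15652272) (l 15640960))) (a (l 15688280) (l 15537992))) (c (l 15467704) (l 15546144)))) (a (a (c (b (l 15726472) (l 15741280)) (l 15728064)) (l 15529360)) (c (a (l 15630928) (l 15457760)) (l 15519784)))) (a (c (a (b (a (c (b (l 15444848) (l 15421984)) (b (l 15422176) (l 15382848))) (l 15279176)) (a (l 15342224) (l 15247840))) (b (c (l 14946816) (l 14908704)) (l 14955280))) (a (a (c (l 15317800) (l 15286560)) (l 15179408)) (l 14849664))) (c (a (a (b (l 14250112) (l 14525416)) (b (c (l 14327520) (l 14269968)) (l 14341776))) (c (b (l 14006120) (l 14057616)) (a (c (l 14097472)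 (l 14062800)) (l 13860032)))) (a (l 14305384) (a (l 13995792) (c (l 13801848) (l 13741832))))))), by decide +kernel⟩

def k15_pm_202 : ∃ t, chk3 f_pm_202 t 3 17 1 = true :=
  ⟨(a (a (b (c (a (c (l 16053120) (l 15806768)) (c (l 15598936) (b (l 15656856) (l 15749480)))) (a (l 15967952) (b (l 15617552) (l 15721192)))) (b (c (a (l 16140472) (l 15812248)) (l 15971016)) (c (c (a (l 16523104) (l 16145760)) (l 16273160)) (l 16158864)))) (c (c (b (a (l 15563088) (l 15382640)) (a (b (a (l 15646208) (l 15428616)) (l 15650704)) (b (l 15259872) (l 15036192)))) (b (a (b (l 15547160) (l 15483936)) (l 15337736)) (a (l 15382752) (l 15220400)))) (b (a (l 15479128) (l 15292464)) (a (b (l 15490400) (l 15643152)) (l 15179584))))) (a (c (b (a (c (l 15194840) (b (l 15188960) (l 15106440))) (l 14841288)) (c (a (b (l 15069592) (l 14997440)) (b (l 14828464) (l 14756640))) (a (l 14994680) (l 14756432)))) (b (a (l 15098528) (l 14822456)) (a (l 14947712) (l 14703024)))) (a (c (b (a (l 14564352) (c (l 14425896) (l 14360648)))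 (a (l 14511200) (c (l 14447256) (l 14391928)))) (b (l 14378984) (l 14368208))) (c (c (b (l 14113016) (l 14180680)) (a (b (l 14155464) (l 14229728)) (l 13985864))) (a (l 13977312) (c (l 13935776) (l 13881432))))))), by decide +kernel⟩

def k16_pm_202 : ∃ t, chk3 f_pm_202 t 3 9 1 = true :=
  ⟨(a (b (a (b (c (a (l 16422808) (l 16318328)) (a (l 16478328) (l 16413472))) (a (l 16279088) (l 16594816))) (b (a (c (l 15803864) (l 15923472)) (b (c (l 15279264) (l 15226808)) (l 15417536))) (a (l 16088704) (l 15705192)))) (a (b (a (b (l 16167520) (l 16090944)) (b (l 16462064) (l 16330016))) (a (l 16100664) (l 16191120))) (a (b (b (l 16520688) (l 16681088)) (l 16385096)) (b (l 15885960) (l 16404552))))) (b (a (b (a (b (c (l 14913520) (l 14847792)) (l 14873376)) (c (l 14621928) (l 14567280))) (a (a (l 15207440) (l 14883096)) (a (l 14624136) (l 14404000)))) (a (c (a (l 14327816) (l 14150496)) (l 14211528)) (c (a (c (l 14224216) (l 14174816)) (l 14090224)) (a (l 14106280) (c (l 14021312) (b (l 13997128)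 (l 13958040))))))) (a (a (b (l 15383256) (l 15801712)) (b (b (a (l 14778304) (l 14393800)) (l 14763208)) (l 15063480))) (a (b (a (b (l 14149624) (l 14153712)) (l 14051488)) (a (l 14384768) (c (l 14070088) (l 14022736)))) (c (a (a (l 13995056) (l 13950680)) (l 13898856)) (a (l 13879768) (c (l 13823256) (l 13765408)))))))), by decide +kernel⟩

def k17_pm_202 : ∃ t, chk3 f_pm_202 t 2 10 1 = true :=
  ⟨(a (a (b (a (c (a (l 331414778839) (l 15718992)) (a (l 15717072) (l 15790296))) (b (a (c (a (l 15775504) (l 15808448)) (a (l 15740320) (l 15774432))) (c (l 15944440) (l 15915208))) (a (c (l 15914952) (l 15884648)) (c (b (l 15944280) (l 15989024)) (b (l 15915032) (l 15961344)))))) (a (a (l 3) (c (l 16171240) (l 16149896))) (c (a (l 16180952) (l 15995464)) (a (l 16159968) (l 16080232))))) (b (a (b (l 16142960) (c (l 16213104) (l 16236712))) (b (a (a (l 16630136) (l 16703088)) (b (l 16655184) (l 16743048))) (b (a (l 16595976) (l 16771320)) (l 16398904)))) (a (a (b (c (l 16182232) (l 16161344)) (c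 (l 16316896) (l 16300728))) (b (l 16330112) (l 16386856))) (a (l 16374560) (b (l 16647328) (l 16595312)))))) (b (b (a (a (l 16523816) (c (a (l 16387064) (l 16153592)) (b (l 16304376) (l 16403544)))) (c (a (l 16297800) (l 16242792)) (a (l 16278040) (l 16220848)))) (a (a (b (l 16721480) (a (l 16725256) (l 16763544))) (b (c (l 16522784) (l 16515784)) (l 16636984))) (a (b (c (l 16390448) (l 16422152)) (c (a (l 16521952) (l 16475592)) (l 16505024))) (c (l 16322808) (l 16381440))))) (a (a (b (a (l 16642056) (l 16747736)) (a (l 16701016) (l 16763824))) (b (l 16720824) (l 16650632))) (b (a (c (b (l 16443776) (l 16615160)) (a (l 16601168) (l 16560952))) (c (l 16478840) (l 16476496))) (a (l 16696608) (c (l 16620328) (l 16619032))))))), by decide +kernel⟩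

def k18_pm_202 : ∃ t, chk3 f_pm_202 t 2 11 1 = true :=
  ⟨(a (a (a (l 3) (b (b (c (l 16438584) (l 16426664)) (c (l 16593896) (l 16587440))) (c (b (l 16661016) (l 16777216)) (b (l 16690960) (l 16777216))))) (b (a (b (c (l 16434240) (l 16466344)) (c (l 16651960) (l 16647560))) (b (l 16592032) (c (l 16695704) (l 16692840)))) (b (a (c (l 16756416) (l 16755680)) (a (c (l 16774184) (l 16774080)) (l 16776768))) (c (l 16777216) (l 16777216))))) (a (b (b (a (l 16710872) (l 16769984)) (a (l 16736848) (l 16774912))) (c (l 16777104) (l 16777096))) (b (a (b (l 16756400) (l 16776432)) (c (l 16715240) (l 16535640))) (a (l 16777216) (l 16777208))))), by decide +kernel⟩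

def k19_pm_202 : ∃ t, chk3 f_pm_202 t 3 5 1 = true :=
  ⟨(a (b (a (b (a (c (b (l 16243064) (l 16319656)) (b (l 16204040) (l 16331056))) (l 16265600)) (c (b (l 16458352) (l 16517664)) (b (l 16432112) (l 16579936)))) (b (a (l 16194000) (b (l 16629480) (l 16518176))) (l 16573344))) (c (b (a (a (l 16700632) (l 16678224)) (l 16691304)) (a (l 16777144) (l 16618080))) (b (a (a (l 16700312) (l 16671728)) (l 16582904)) (a (l 16777144) (l 16612472))))) (b (a (b (a (b (l 16155392) (l 16443048)) (l 15391224)) (a (l 16542584) (a (l 16289960) (l 15968840)))) (a (b (a (l 14976016) (c (l 14611192) (l 14583280))) (a (l 15630992) (l 15092112))) (b (c (a (a (l 14379880) (l 14187000)) (l 13949472)) (a (l 14114368) (b (c (l 13708400) (l 13647736)) (l 13966104)))) (c (a (l 15006928) (l 14627816)) (a (l 14944920) (c (l 14571488) (l 14526744))))))) (a (b (a (l 16387160) (l 16099784)) (l 16155816)) (a (b (a (l 15803936) (c (l 15703272) (l 15652072))) (l 15666848)) (b (c (a (l 15253760) (l 15243800)) (a (l 15463296)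 (c (l 15205872) (l 15089752)))) (c (l 15500808) (a (l 15508744) (l 15405936)))))))), by decide +kernel⟩

def k20_pm_202 : ∃ t, chk3 f_pm_202 t 1 3 1 = true :=
  ⟨(a (b (a (b (b (a (a (l 3) (c (l 16777216) (l 16777216))) (c (c (l 16777216) (l 16777216)) (c (l 16777216) (l 16777216)))) (a (l 3) (c (a (l 16777216) (l 16777216)) (a (l 16777216) (l 16777216))))) (a (l 3) (a (b (c (l 16777216) (l 16777216)) (l 3)) (c (b (l 16777216) (l 16777216)) (b (l 16777216) (l 16777216)))))) (c (a (b (c (l 16777216) (l 16777216)) (c (b (l 16777216) (l 16777216)) (l 80094429191))) (b (l 16777216) (l 16777216))) (c (a (b (l 16777216) (l 16777216)) (l 16777216)) (a (b (l 16777216) (l 16777216)) (l 16777216))))) (b (b (a (l 2) (a (l 2) (a (l 2) (l 16777216)))) (l 2)) (l 2))) (a (b (a (b (a (l 16777216) (l 16777216)) (a (l 16777216) (l 16777216))) (b (l 16552264) (a (l 16709592) (l 16516872)))) (b (a (l 16777216) (a (l 16709592) (l 16516872))) (l 2))) (a (b (b (a (l 16299392) (l 16006360)) (a (l 16299392) (l 16006360)))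 (b (a (l 16299392) (l 16006360)) (l 15945968))) (b (b (a (l 15666704) (c (l 15501008) (l 15322048))) (a (c (l 15703248) (l 15647568)) (c (l 15501008) (l 15196216)))) (a (b (l 15415048) (l 15666704)) (c (b (l 15501008) (l 15501008)) (b (l 15301080) (l 15447880)))))))), by decide +kernel⟩

theorem s21_pm_202 : ∃ t, chk3 f_pm_202 t 2 5 1 = true := ex3_b k17_pm_202 k18_pm_202

theorem s22_pm_202 : ∃ t, chk3 f_pm_202 t 1 5 1 = true := ex3_a s21_pm_202 k19_pm_202

theorem s23_pm_202 : ∃ t, chk3 f_pm_202 t 3 32 1 = true := ex3_b k12_pm_202 k13_pm_202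

theorem s24_pm_202 : ∃ t, chk3 f_pm_202 t 3 16 1 = true := ex3_b s23_pm_202 k14_pm_202

theorem s25_pm_202 : ∃ t, chk3 f_pm_202 t 3 8 1 = true := ex3_b s24_pm_202 k15_pm_202

theorem s26_pm_202 : ∃ t, chk3 f_pm_202 t 3 4 1 = true := ex3_b s25_pm_202 k16_pm_202

theorem s27_pm_202 : ∃ t, chk3 f_pm_202 t 4 18 1 = true := ex3_b k8_pm_202 k9_pm_202

theorem s28_pm_202 : ∃ t, chk3 f_pm_202 t 2 18 1 = true := ex3_a s27_pm_202 k10_pm_202

theorem s29_pm_202 : ∃ t, chk3 f_pm_202 t 2 9 1 = true := ex3_b s28_pm_202 k11_pm_202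

theorem s30_pm_202 : ∃ t, chk3 f_pm_202 t 4 17 2 = true := ex3_c k4_pm_202 k5_pm_202

theorem s31_pm_202 : ∃ t, chk3 f_pm_202 t 4 17 1 = true := ex3_c s30_pm_202 k6_pm_202

theorem s32_pm_202 : ∃ t, chk3 f_pm_202 t 2 17 1 = true := ex3_a s31_pm_202 k7_pm_202

theorem s33_pm_202 : ∃ t, chk3 f_pm_202 t 4 32 1 = true := ex3_c k0_pm_202 k1_pm_202

theorem s34_pm_202 : ∃ t, chk3 f_pm_202 t 4 16 1 = true := ex3_b s33_pm_202 k2_pm_202

theorem s35_pm_202 : ∃ t, chk3 f_pm_202 t 2 16 1 = true := ex3_a s34_pm_202 k3_pm_202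

theorem s36_pm_202 : ∃ t, chk3 f_pm_202 t 2 8 1 = true := ex3_b s35_pm_202 s32_pm_202

theorem s37_pm_202 : ∃ t, chk3 f_pm_202 t 2 4 1 = true := ex3_b s36_pm_202 s29_pm_202

theorem s38_pm_202 : ∃ t, chk3 f_pm_202 t 1 4 1 = true := ex3_a s37_pm_202 s26_pm_202

theorem s39_pm_202 : ∃ t, chk3 f_pm_202 t 1 2 1 = true := ex3_b s38_pm_202 s22_pm_202

theorem s40_pm_202 : ∃ t, chk3 f_pm_202 t 1 1 1 = true := ex3_b s39_pm_202 k20_pm_202

theorem c_pm_202 : CertNX 0 536870912 1073741824 536870912 1046898278 26843546 3 false true false .pp 2 0 2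
    ndN0q2 ndN6q2 pcN0 Cut.none Ext.none :=
  certNX1 (fam := false) (s1 := true) (s2 := false) (a := 2) (b := 0) (c := 2) (cn := .pp) (n1 := ndN0q2) (n2 := ndN6q2) (pc := pcN0) (cut := Cut.none) (xt := Ext.none) (P1 := 0) (W1 := 536870912) (P2 := 1073741824) (W2 := 536870912) (P3 := 1046898278) (W3 := 26843546) (N0 := 3)
    rfl (fun _ => rfl) s40_pm_202

noncomputable def f_pm_203 : ℕ → ℕ → ℕ → ℕ → Bool := onCell 0 536870912 0 1230186008 1046898278 26843546
    (rowNX 3 0 false true false .up 2 0 3 (qsf 0 536870912 0 1230186008 0) ndN0q2 ndN6q3 pcN0 Cut.none Ext.none)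

def k0_pm_203 : ∃ t, chk3 f_pm_203 t 1 1 1 = true :=
  ⟨(b (l 2) (b (l 2) (a (b (a (l 3) (b (l 2) (b (l 2) (a (a (l 3) (c (l 140827951111) (l 16777216))) (a (c (l 16777216) (l 16777216)) (l 2)))))) (a (b (l 3) (a (l 3) (a (l 3) (b (c (l 169818980359) (l 16777216)) (c (l 126869307399) (l 16777216)))))) (b (a (c (a (b (l 162839658503) (l 134385500167)) (b (l 16777216) (l 16777216))) (a (b (l 16777216) (l 16777216)) (b (l 16777216) (l 16777216)))) (c (c (a (l 16777216) (l 16777216)) (a (l 16777216) (l 16777216))) (c (a (l 16777216) (l 16777216)) (a (l 16777216) (l 16777216))))) (a (a (c (b (l 16777216) (l 16777216)) (b (l 16777216) (l 16777216))) (c (b (l 16777216) (l 16777216)) (b (l 16777216) (l 16777216)))) (a (c (b (l 16777216) (l 16777216)) (b (l 16777216) (l 16777216))) (b (c (l 16777216) (l 16777216)) (l 16777216))))))) (b (l 2) (a (a (a (b (b (c (l 16777216) (l 16777216)) (l 16777216)) (l 16777216)) (b (l 16777216) (l 16777216))) (b (l 16615176) (a (l 16709592) (l 16516872)))) (b (a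 (l 37679880775) (l 2)) (a (a (l 16299392) (l 16006360)) (a (l 15666704) (c (l 15501008) (l 15447880)))))))))), by decide +kernel⟩

theorem c_pm_203 : CertNX 0 536870912 0 1230186008 1046898278 26843546 3 false true false .up 2 0 3
    ndN0q2 ndN6q3 pcN0 Cut.none Ext.none :=
  certNX0 (fam := false) (s1 := true) (s2 := false) (a := 2) (b := 0) (c := 3) (cn := .up) (n1 := ndN0q2) (n2 := ndN6q3) (pc := pcN0) (cut := Cut.none) (xt := Ext.none) (P1 := 0) (W1 := 536870912) (P2 := 0) (W2 := 1230186008) (P3 := 1046898278) (W3 := 26843546) (N0 := 3)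
    rfl k0_pm_203

end Pool.Agent.Strip051.G.IE1.Tab.C.NB06

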