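import Pool.Agent.Strip051.G.IE1.Tab

/-! # Certificates N55 (generated) -/

set_option linter.all false
set_option maxRecDepth 100000

namespace Pool.Agent.Strip051.G.IE1.Tab.C.NB06

open Pool.Agent.Strip051.PB Pool.Agent.Strip051.PB.T
open Pool.Agent.Strip051.G.IE1.Tab

noncomputable def cut_pm_213 : Cut := Cut.of [[⟨0, 1, 0, 67108864⟩, ⟨1, 1, 0, 67108864⟩, ⟨2, 2, 0, 67108864⟩, ⟨3, 0, 0, 1233125376⟩]]

noncomputable def f_pm_213 : ℕ → ℕ → ℕ → ℕ → Bool := onCell 0 536870912 0 1230186008 1046898278 26843546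
    (rowNX 3 0 false true false .pnn 2 1 3 (qsf 0 536870912 0 1230186008 1) ndN0q2 ndN6q3 pcN1 cut_pm_213 Ext.none)

def k0_pm_213 : ∃ t, chk3 f_pm_213 t 2 2 1 = true :=
  ⟨(l 3), by decide +kernel⟩

def k1_pm_213 : ∃ t, chk3 f_pm_213 t 6 4 1 = true :=
  ⟨(l 3), by decide +kernel⟩

def k2_pm_213 : ∃ t, chk3 f_pm_213 t 14 4 1 = true :=
  ⟨(b (l 3) (a (l 3) (b (a (l 3) (l 6)) (a (a (l 3) (b (l 3) (c (c (b (a (l 3) (c (l 342153930983) (l 349670083239))) (a (l 337322047687) (b (l 231021672471) (l 16403192)))) (b (l 366313069543) (a (l 346985662135) (l 16398232)))) (c (b (l 380808523959) (a (l 340543315175) (l 16340208))) (b (l 393693349767) (l 246053974807)))))) (b (b (a (l 3) (l 6)) (b (a (a (l 3) (a (l 3) (c (c (c (l 316384124647) (l 323900258663)) (l 336248213799)) (c (l 340006347303) (l 16308016))))) (l 6)) (a (c (a (c (l 351817597799) (l 367923639367)) (c (a (b (l 329805855319) (l 243906579655)) (a (l 229947934231) (l 16443576))) (l 249275219527))) (c (a (l 385103434855) (l 249812023575))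 (l 270213137447))) (c (c (a (a (l 16411584) (l 16397280)) (l 6)) (l 16348968)) (c (l 16271808) (l 16208896)))))) (c (a (c (b (a (b (c (l 263233869351) (l 266455046711)) (l 220821118327)) (b (l 16407960) (l 16382080))) (l 16362040)) (b (a (l 244443405335) (l 16344856)) (l 16315056))) (b (a (c (l 16361664) (l 16303496)) (c (l 16328640) (l 16261872))) (l 16257248))) (a (b (c (a (l 245517096247) (l 16297888)) (l 231021509303)) (l 16304232)) (b (a (l 16228256) (l 16163488)) (l 16130704))))))))), by decide +kernel⟩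

def k3_pm_213 : ∃ t, chk3 f_pm_213 t 15 4 1 = true :=
  ⟨(b (l 6) (b (l 6) (a (a (a (b (l 6) (c (b (l 16238560) (l 16172584)) (b (l 16077824) (l 16009784)))) (l 6)) (l 6)) (a (l 6) (a (b (l 6) (c (c (b (c (a (l 6) (l 16353088)) (l 16120864)) (l 16061352)) (l 15762472)) (c (c (l 15491880) (l 15304440)) (l 15022728)))) (c (b (b (l 6) (c (c (l 16692728) (a (l 16435336) (l 16637512))) (c (a (l 16147792) (l 16269888)) (l 15875344)))) (c (b (c (l 16548120) (a (l 16207488) (l 16328672))) (c (a (l 16242168) (l 16355856)) (l 16036120))) (c (b (l 15972024) (l 15780552)) (l 15601600)))) (c (b (l 15469504) (l 15199920)) (c (a (l 14953592) (l 14780088)) (a (l 14681712) (l 14442992)))))))))), by decide +kernel⟩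

def k4_pm_213 : ∃ t, chk3 f_pm_213 t 6 5 1 = true :=
  ⟨(a (l 3) (b (a (l 3) (b (l 3) (b (l 3) (a (l 3) (a (l 3) (c (b (l 3) (l 332490203031)) (l 349133272007))))))) (b (a (l 3) (b (a (l 3) (c (b (a (l 480129730151) (b (l 210620554951) (l 16449008))) (l 229947835095)) (b (a (l 516100067399) (l 226189713111)) (l 16473112)))) (c (a (l 290614418775) (l 16489624)) (a (l 295983112263) (l 16485312))))) (a (b (a (l 3) (c (l 318531908199) (l 333564289127))) (a (c (l 345375658183) (l 364702982871)) (c (l 16667080) (l 16662936)))) (c (b (a (l 16580040) (l 16480048)) (l 16521744)) (b (l 16480920) (l 16510864))))))), by decide +kernel⟩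

def k5_pm_213 : ∃ t, chk3 f_pm_213 t 14 10 1 = true :=
  ⟨(a (b (a (l 3) (a (b (l 3) (b (l 3) (c (c (l 277729478167) (l 290614203127)) (l 284171746791)))) (b (a (l 3) (c (b (l 3) (l 352891284279)) (l 388324702983))) (c (b (c (l 241222237927) (l 241759088167)) (c (l 16391096) (l 16367432))) (b (l 241222167527) (l 16321656)))))) (a (b (c (a (l 385640496231) (b (l 358796884039) (l 237464017607))) (a (l 410336508055) (l 344301204935))) (c (b (a (l 246590906871) (l 16410160)) (l 16463840)) (a (l 229947832071) (l 16378904)))) (c (a (b (c (l 16401720) (l 16383000)) (l 16355536)) (b (l 16342688) (l 16304160))) (b (a (l 16348704) (l 16288704)) (l 16291248))))) (b (a (b (c (a (b (a (l 370608057287) (c (l 311015487127) (l 317457889767))) (a (c (l 16427696) (l 16402568)) (l 16385880))) (b (c (l 16387968) (l 16352360)) (l 16326496))) (c (a (b (l 357186176103) (l 232095209527)) (l 16332152)) (a (b (l 370607783287) (l 16318808)) (l 16244824)))) (c (a (c (l 16358208) (l 16349456)) (l 16263952))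 (a (b (l 16293800) (l 16255640)) (l 16177424)))) (c (b (a (l 16307072) (l 16176760)) (l 16273232)) (b (a (l 16161664) (l 16045600)) (l 16006608)))) (a (c (b (a (l 16286544) (l 16202000)) (l 16201472)) (b (l 16170576) (l 16137448))) (c (b (l 16054848) (l 16002456)) (l 15921496))))), by decide +kernel⟩

def k6_pm_213 : ∃ t, chk3 f_pm_213 t 15 10 1 = true :=
  ⟨(a (b (a (c (a (b (l 16081936) (l 15973456)) (b (l 16012008) (l 15894072))) (b (a (l 15917672) (l 15811720)) (l 15757824))) (c (a (a (b (l 15977392) (l 15852888)) (b (l 6) (c (l 15896704) (l 15759704)))) (b (l 6) (c (a (l 15871920) (l 15839240)) (l 15754752)))) (b (l 15663136) (l 15549328)))) (c (a (a (l 15857816) (l 15769496)) (c (a (c (l 15795216) (l 15726768)) (b (l 15745800) (l 15666616))) (b (l 15657616) (l 15594616)))) (a (b (l 15687800) (l 15647040)) (l 15456232)))) (b (a (c (a (c (l 15849368) (b (l 15945320) (l 15618672))) (b (l 15764720) (l 15597408))) (a (l 15400080) (c (b (l 15413968) (l 15294584)) (l 15114336))))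 (c (b (a (b (l 15753912) (l 15640544)) (c (b (c (l 16074784) (l 15846792)) (l 15787648)) (l 15441056))) (l 15453232)) (a (c (b (a (l 15275888) (l 15178832)) (l 15111320)) (b (l 14911416) (l 14846360))) (c (b (l 15016696) (l 14900024)) (b (c (l 14696320) (l 14478088)) (c (l 14644584) (l 14469976))))))) (c (a (a (c (l 15607600) (b (l 15520984) (l 15455208))) (b (l 15477304) (l 15396264))) (b (l 15305048) (l 15211912))) (a (b (a (l 15286976) (l 15130232)) (l 15060040)) (b (c (a (l 15046768) (l 14843576)) (a (l 14830680) (l 14572528))) (c (a (l 15017768) (l 14827912)) (a (l 14842344) (a (l 14666720) (l 14546648))))))))), by decide +kernel⟩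

def k7_pm_213 : ∃ t, chk3 f_pm_213 t 7 11 1 = true :=
  ⟨(a (b (a (b (a (c (b (a (l 16423416) (l 16379920)) (a (l 16416544) (l 16366968))) (b (l 16392992) (l 16384560))) (c (l 16298080) (l 16269848))) (a (c (l 16385400) (l 16373904)) (c (b (l 16278552) (l 16270016)) (b (l 16256520) (l 16248560))))) (a (b (c (l 16164864) (l 16112968)) (c (l 16093896) (l 16095432))) (b (l 15919264) (l 15894352)))) (a (c (b (l 16316464) (l 16304520)) (b (l 16295888) (l 16281776))) (b (a (a (l 16147432) (l 16050704)) (b (l 15885528) (l 15881536))) (a (l 16085336) (l 15875664))))) (a (b (a (c (a (l 15764832) (l 15671824)) (l 15609752)) (c (a (c (l 15655480) (l 15565168)) (c (b (l 15607328) (l 15565392)) (l 15493384))) (l 15408840))) (a (b (c (l 15679592) (l 15605184)) (a (l 15700640) (b (l 15604032) (l 15616984)))) (b (c (a (l 15586272) (l 15506712)) (l 15418464)) (c (l 15345112) (l 15453840))))) (b (c (a (c (l 15641400) (a (b (l 15410832) (l 15386800)) (l 15272928))) (b (l 15155480) (l 15128344)))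 (a (b (a (l 15240152) (l 15103096)) (l 15181976)) (a (c (l 15013832) (l 14885072)) (c (l 14844320) (l 14690112))))) (c (a (c (l 15400288) (a (l 15393760) (l 15280448))) (l 15143808)) (a (l 15230480) (c (l 15011560) (a (l 14996344) (l 14838992)))))))), by decide +kernel⟩

def k8_pm_213 : ∃ t, chk3 f_pm_213 t 1 6 1 = true :=
  ⟨(a (a (l 3) (b (l 3) (a (l 3) (b (l 3) (a (l 3) (c (c (l 158544691159) (l 16777216)) (l 171966463959))))))) (a (b (a (b (a (l 3) (a (l 3) (c (l 241222822167) (l 250349627719)))) (a (c (l 389399183207) (l 381882990423)) (c (l 206326202135) (l 199883751175)))) (b (a (c (a (b (l 16753888) (l 16753912)) (l 16666720)) (a (l 217063474567) (l 16662592))) (c (l 16520376) (l 16510208))) (a (c (a (l 16753928) (l 16666872)) (l 16708504)) (c (l 16521352) (l 16512312))))) (a (b (c (a (c (l 170892721959) (l 16777184)) (b (l 16777168) (l 16777200))) (a (c (l 16777184) (l 16777184)) (l 16777184))) (c (a (c (l 16777216) (l 16777216)) (l 16777216)) (c (l 16777216) (l 16777216))))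 (c (b (a (l 16710792) (l 16521416)) (a (l 16710760) (l 16521384))) (b (a (l 16708456) (l 16512408)) (a (l 16708424) (l 16512376)))))) (b (a (b (a (c (l 16301472) (l 16280816)) (c (a (l 16098752) (l 15895488)) (a (l 16067248) (l 15853344)))) (a (b (c (l 16304704) (l 16286968)) (l 16278296)) (b (a (l 16090976) (l 15884408)) (l 16000272)))) (a (b (a (b (l 15654688) (l 15658664)) (c (b (l 15346200) (l 15584104)) (l 15500416))) (c (a (l 15699432) (l 15602864)) (l 15601760))) (b (c (a (c (l 15455744) (a (l 15466896) (l 15376736))) (l 15255056)) (a (b (l 15333920) (l 15380624)) (c (b (l 15137648) (l 15228040)) (a (l 15188568) (l 15069880))))) (c (a (l 15432584) (l 15339312)) (a (l 15417040) (c (l 15289496) (l 15249248))))))) (a (a (b (a (l 16356312) (l 16241392)) (l 16299392)) (b (l 16006272) (l 16006360))) (a (b (c (a (l 15724904) (l 15620824)) (l 15640184)) (l 15498936)) (b (c (a (l 15528896) (l 15410408)) (a (l 15485016) (l 15357680))) (c (l 15396088) (a (l 15508592) (l 15406136))))))))),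 by decide +kernel⟩

def k9_pm_213 : ∃ t, chk3 f_pm_213 t 1 7 1 = true :=
  ⟨(a (a (b (l 3) (l 1)) (b (a (b (l 3) (a (l 3) (c (b (l 182167011335) (l 140827951111)) (b (l 16777216) (l 16777216))))) (b (c (a (b (l 166597754887) (l 148881014791)) (b (l 16777216) (l 16777216))) (a (b (l 16777216) (l 161765916679)) (b (l 16777216) (l 16777216)))) (c (b (a (l 152102240263) (l 16777216)) (a (l 16777216) (l 16777216))) (b (a (l 16777216) (l 16777216)) (c (l 16777216) (l 16777216)))))) (b (b (a (l 1) (b (c (l 1153769144327) (l 16777216)) (l 1))) (l 1)) (l 1)))) (b (a (a (a (b (c (b (l 16777216) (l 16777216)) (b (l 16777216) (l 16777216))) (c (b (l 16777216) (l 16777216)) (b (l 16777216) (l 16777216)))) (b (c (l 16777216) (l 16777216)) (b (c (l 16777216) (l 16777216)) (l 16777216)))) (a (b (c (l 16710760) (l 16708424)) (l 16709592)) (l 16516872))) (a (a (l 16299392) (l 16006360)) (b (a (l 15624760) (c (l 15501008) (l 15363992))) (a (l 15666704) (c (l 15501008) (l 15405936)))))) (b (a (a (a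 (b (c (l 16777216) (l 16777216)) (l 1)) (l 16777216)) (l 16615176)) (a (a (l 16299392) (l 16006360)) (a (l 15666704) (c (l 15501008) (l 15447880))))) (a (l 1) (a (l 724270605447) (a (l 15666704) (c (l 15501008) (l 15447880)))))))), by decide +kernel⟩

theorem s10_pm_213 : ∃ t, chk3 f_pm_213 t 1 3 1 = true := ex3_b k8_pm_213 k9_pm_213

theorem s11_pm_213 : ∃ t, chk3 f_pm_213 t 7 10 1 = true := ex3_a k5_pm_213 k6_pm_213

theorem s12_pm_213 : ∃ t, chk3 f_pm_213 t 7 5 1 = true := ex3_b s11_pm_213 k7_pm_213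

theorem s13_pm_213 : ∃ t, chk3 f_pm_213 t 3 5 1 = true := ex3_a k4_pm_213 s12_pm_213

theorem s14_pm_213 : ∃ t, chk3 f_pm_213 t 7 4 1 = true := ex3_a k2_pm_213 k3_pm_213

theorem s15_pm_213 : ∃ t, chk3 f_pm_213 t 3 4 1 = true := ex3_a k1_pm_213 s14_pm_213

theorem s16_pm_213 : ∃ t, chk3 f_pm_213 t 3 2 1 = true := ex3_b s15_pm_213 s13_pm_213

theorem s17_pm_213 : ∃ t, chk3 f_pm_213 t 1 2 1 = true := ex3_a k0_pm_213 s16_pm_213

theorem s18_pm_213 : ∃ t, chk3 f_pm_213 t 1 1 1 = true := ex3_b s17_pm_213 s10_pm_213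

theorem c_pm_213 : CertNX 0 536870912 0 1230186008 1046898278 26843546 3 false true false .pnn 2 1 3
    ndN0q2 ndN6q3 pcN1 cut_pm_213 Ext.none :=
  certNX0 (fam := false) (s1 := true) (s2 := false) (a := 2) (b := 1) (c := 3) (cn := .pnn) (n1 := ndN0q2) (n2 := ndN6q3) (pc := pcN1) (cut := cut_pm_213) (xt := Ext.none) (P1 := 0) (W1 := 536870912) (P2 := 0) (W2 := 1230186008) (P3 := 1046898278) (W3 := 26843546) (N0 := 3)
    rfl s18_pm_213

noncomputable def f_mm_001 : ℕ → ℕ → ℕ → ℕ → Bool := onCell 0 536870912 0 536870912 1046898278 26843546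
    (rowNX 3 1 false false false .up 0 0 1 (qsf 0 536870912 536870912 469762048 0) ndN0q0 ndN6q1 pcN0 Cut.none Ext.none)

def k0_mm_001 : ∃ t, chk3 f_mm_001 t 1 1 1 = true :=
  ⟨(l 3), by decide +kernel⟩

theorem c_mm_001 : CertNX 0 536870912 536870912 469762048 1046898278 26843546 3 false false false .up 0 0 1
    ndN0q0 ndN6q1 pcN0 Cut.none Ext.none :=
  certNX1 (fam := false) (s1 := false) (s2 := false) (a := 0) (b := 0) (c := 1) (cn := .up) (n1 := ndN0q0) (n2 := ndN6q1) (pc := pcN0) (cut := Cut.none) (xt := Ext.none) (P1 := 0) (W1 := 536870912) (P2 := 536870912) (W2 := 469762048) (P3 := 1046898278) (W3 := 26843546) (N0 := 3)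
    rfl (fun _ => rfl) k0_mm_001

noncomputable def f_mm_011 : ℕ → ℕ → ℕ → ℕ → Bool := onCell 0 536870912 536870912 536870912 1046898278 26843546
    (rowNX 3 1 false false false .pnn 0 1 1 (qsf 0 536870912 536870912 469762048 1) ndN0q0 ndN6q1 pcN1 Cut.none Ext.none)

def k0_mm_011 : ∃ t, chk3 f_mm_011 t 1 1 1 = true :=
  ⟨(l 5), by decide +kernel⟩

theorem c_mm_011 : CertNX 0 536870912 536870912 469762048 1046898278 26843546 3 false false false .pnn 0 1 1
    ndN0q0 ndN6q1 pcN1 Cut.none Ext.none :=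
  certNX1 (fam := false) (s1 := false) (s2 := false) (a := 0) (b := 1) (c := 1) (cn := .pnn) (n1 := ndN0q0) (n2 := ndN6q1) (pc := pcN1) (cut := Cut.none) (xt := Ext.none) (P1 := 0) (W1 := 536870912) (P2 := 536870912) (W2 := 469762048) (P3 := 1046898278) (W3 := 26843546) (N0 := 3)
    rfl (fun _ => rfl) k0_mm_011

noncomputable def f_mm_012 : ℕ → ℕ → ℕ → ℕ → Bool := onCell 0 536870912 1073741824 536870912 1046898278 26843546
    (rowNX 3 0 false false false .pnp 0 1 2 (qsf 0 536870912 1073741824 536870912 1) ndN0q0 ndN6q2 pcN1 Cut.none Ext.none)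

def k0_mm_012 : ∃ t, chk3 f_mm_012 t 1 1 1 = true :=
  ⟨(l 5), by decide +kernel⟩

theorem c_mm_012 : CertNX 0 536870912 1073741824 536870912 1046898278 26843546 3 false false false .pnp 0 1 2
    ndN0q0 ndN6q2 pcN1 Cut.none Ext.none :=
  certNX0 (fam := false) (s1 := false) (s2 := false) (a := 0) (b := 1) (c := 2) (cn := .pnp) (n1 := ndN0q0) (n2 := ndN6q2) (pc := pcN1) (cut := Cut.none) (xt := Ext.none) (P1 := 0) (W1 := 536870912) (P2 := 1073741824) (W2 := 536870912) (P3 := 1046898278) (W3 := 26843546) (N0 := 3)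
    rfl k0_mm_012

noncomputable def f_mm_022 : ℕ → ℕ → ℕ → ℕ → Bool := onCell 0 536870912 1073741824 536870912 1046898278 26843546
    (rowNX 3 0 false false false .pp 0 2 2 (qsf 0 536870912 1073741824 536870912 2) ndN0q0 ndN6q2 pcN2 Cut.none Ext.none)

def k0_mm_022 : ∃ t, chk3 f_mm_022 t 1 1 1 = true :=
  ⟨(l 5), by decide +kernel⟩

theorem c_mm_022 : CertNX 0 536870912 1073741824 536870912 1046898278 26843546 3 false false false .pp 0 2 2
    ndN0q0 ndN6q2 pcN2 Cut.none Ext.none :=
  certNX0 (fam := false) (s1 := false) (s2 := false) (a := 0) (b := 2) (c := 2) (cn := .pp) (n1 := ndN0q0) (n2 := ndN6q2) (pc := pcN2) (cut := Cut.none) (xt := Ext.none) (P1 := 0) (W1 := 536870912) (P2 := 1073741824) (W2 := 536870912) (P3 := 1046898278) (W3 := 26843546) (N0 := 3)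
    rfl k0_mm_022

noncomputable def f_mm_023 : ℕ → ℕ → ℕ → ℕ → Bool := onCell 0 536870912 0 1230186008 1046898278 26843546
    (rowNX 3 0 false false false .up 0 2 3 (qsf 0 536870912 0 1230186008 2) ndN0q0 ndN6q3 pcN2 Cut.none Ext.none)

def k0_mm_023 : ∃ t, chk3 f_mm_023 t 1 1 1 = true :=
  ⟨(l 5), by decide +kernel⟩

theorem c_mm_023 : CertNX 0 536870912 0 1230186008 1046898278 26843546 3 false false false .up 0 2 3
    ndN0q0 ndN6q3 pcN2 Cut.none Ext.none :=
  certNX0 (fam := false) (s1 := false) (s2 := false) (a := 0) (b := 2) (c := 3) (cn := .up) (n1 := ndN0q0) (n2 := ndN6q3) (pc := pcN2) (cut := Cut.none) (xt := Ext.none) (P1 := 0) (W1 := 536870912) (P2 := 0) (W2 := 1230186008) (P3 := 1046898278) (W3 := 26843546) (N0 := 3)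
    rfl k0_mm_023

noncomputable def f_mm_033 : ℕ → ℕ → ℕ → ℕ → Bool := onCell 0 536870912 0 1230186008 1046898278 26843546
    (rowNX 3 0 false false false .pnn 0 3 3 (qsf 0 536870912 0 1230186008 3) ndN0q0 ndN6q3 pcN3 Cut.none Ext.none)

def k0_mm_033 : ∃ t, chk3 f_mm_033 t 1 1 1 = true :=
  ⟨(l 5), by decide +kernel⟩

theorem c_mm_033 : CertNX 0 536870912 0 1230186008 1046898278 26843546 3 false false false .pnn 0 3 3
    ndN0q0 ndN6q3 pcN3 Cut.none Ext.none :=
  certNX0 (fam := false) (s1 := false) (s2 := false) (a := 0) (b := 3) (c := 3) (cn := .pnn) (n1 := ndN0q0) (n2 := ndN6q3) (pc := pcN3) (cut := Cut.none) (xt := Ext.none) (P1 := 0) (W1 := 536870912) (P2 := 0) (W2 := 1230186008) (P3 := 1046898278) (W3 := 26843546) (N0 := 3)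
    rfl k0_mm_033

noncomputable def f_mm_101 : ℕ → ℕ → ℕ → ℕ → Bool := onCell 0 536870912 536870912 469762048 1046898278 26843546
    (rowNX 3 2 false false false .npn 1 0 1 (qsf 536870912 536870912 536870912 469762048 0) ndN0q1 ndN6q1 pcN0 Cut.none Ext.none)

def k0_mm_101 : ∃ t, chk3 f_mm_101 t 1 1 1 = true :=
  ⟨(l 3), by decide +kernel⟩

theorem c_mm_101 : CertNX 536870912 536870912 536870912 469762048 1046898278 26843546 3 false false false .npn 1 0 1
    ndN0q1 ndN6q1 pcN0 Cut.none Ext.none :=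
  certNX2 (fam := false) (s1 := false) (s2 := false) (a := 1) (b := 0) (c := 1) (cn := .npn) (n1 := ndN0q1) (n2 := ndN6q1) (pc := pcN0) (cut := Cut.none) (xt := Ext.none) (P1 := 536870912) (W1 := 536870912) (P2 := 536870912) (W2 := 469762048) (P3 := 1046898278) (W3 := 26843546) (N0 := 3)
    rfl (fun _ => rfl) k0_mm_101

noncomputable def f_mm_102 : ℕ → ℕ → ℕ → ℕ → Bool := onCell 536870912 536870912 1073741824 536870912 1046898278 26843546
    (rowNX 3 0 false false false .npp 1 0 2 (qsf 536870912 536870912 1073741824 536870912 0) ndN0q1 ndN6q2 pcN0 Cut.none Ext.none)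

def k0_mm_102 : ∃ t, chk3 f_mm_102 t 1 1 1 = true :=
  ⟨(l 3), by decide +kernel⟩

theorem c_mm_102 : CertNX 536870912 536870912 1073741824 536870912 1046898278 26843546 3 false false false .npp 1 0 2
    ndN0q1 ndN6q2 pcN0 Cut.none Ext.none :=
  certNX0 (fam := false) (s1 := false) (s2 := false) (a := 1) (b := 0) (c := 2) (cn := .npp) (n1 := ndN0q1) (n2 := ndN6q2) (pc := pcN0) (cut := Cut.none) (xt := Ext.none) (P1 := 536870912) (W1 := 536870912) (P2 := 1073741824) (W2 := 536870912) (P3 := 1046898278) (W3 := 26843546) (N0 := 3)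
    rfl k0_mm_102

noncomputable def f_mm_112 : ℕ → ℕ → ℕ → ℕ → Bool := onCell 536870912 536870912 1073741824 536870912 1046898278 26843546
    (rowNX 3 0 false false false .dn 1 1 2 (qsf 536870912 536870912 1073741824 536870912 1) ndN0q1 ndN6q2 pcN1 Cut.none Ext.none)

def k0_mm_112 : ∃ t, chk3 f_mm_112 t 1 1 1 = true :=
  ⟨(l 3), by decide +kernel⟩

theorem c_mm_112 : CertNX 536870912 536870912 1073741824 536870912 1046898278 26843546 3 false false false .dn 1 1 2
    ndN0q1 ndN6q2 pcN1 Cut.none Ext.none :=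
  certNX0 (fam := false) (s1 := false) (s2 := false) (a := 1) (b := 1) (c := 2) (cn := .dn) (n1 := ndN0q1) (n2 := ndN6q2) (pc := pcN1) (cut := Cut.none) (xt := Ext.none) (P1 := 536870912) (W1 := 536870912) (P2 := 1073741824) (W2 := 536870912) (P3 := 1046898278) (W3 := 26843546) (N0 := 3)
    rfl k0_mm_112

noncomputable def f_mm_113 : ℕ → ℕ → ℕ → ℕ → Bool := onCell 536870912 536870912 0 1230186008 1046898278 26843546
    (rowNX 3 0 false false false .nn 1 1 3 (qsf 536870912 536870912 0 1230186008 1) ndN0q1 ndN6q3 pcN1 Cut.none Ext.none)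

def k0_mm_113 : ∃ t, chk3 f_mm_113 t 1 1 1 = true :=
  ⟨(b (l 5) (a (l 5) (b (l 5) (l 3)))), by decide +kernel⟩

theorem c_mm_113 : CertNX 536870912 536870912 0 1230186008 1046898278 26843546 3 false false false .nn 1 1 3
    ndN0q1 ndN6q3 pcN1 Cut.none Ext.none :=
  certNX0 (fam := false) (s1 := false) (s2 := false) (a := 1) (b := 1) (c := 3) (cn := .nn) (n1 := ndN0q1) (n2 := ndN6q3) (pc := pcN1) (cut := Cut.none) (xt := Ext.none) (P1 := 536870912) (W1 := 536870912) (P2 := 0) (W2 := 1230186008) (P3 := 1046898278) (W3 := 26843546) (N0 := 3)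
    rfl k0_mm_113

noncomputable def f_mm_123 : ℕ → ℕ → ℕ → ℕ → Bool := onCell 1073741824 536870912 0 1230186008 1046898278 26843546
    (rowNX 3 2 false false false .npn 1 2 3 (qsf 536870912 536870912 0 1230186008 2) ndN0q1 ndN6q3 pcN2 Cut.none Ext.none)

def k0_mm_123 : ∃ t, chk3 f_mm_123 t 1 1 1 = true :=
  ⟨(b (l 5) (l 5)), by decide +kernel⟩

theorem c_mm_123 : CertNX 536870912 536870912 0 1230186008 1046898278 26843546 3 false false false .npn 1 2 3
    ndN0q1 ndN6q3 pcN2 Cut.none Ext.none :=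
  certNX2 (fam := false) (s1 := false) (s2 := false) (a := 1) (b := 2) (c := 3) (cn := .npn) (n1 := ndN0q1) (n2 := ndN6q3) (pc := pcN2) (cut := Cut.none) (xt := Ext.none) (P1 := 536870912) (W1 := 536870912) (P2 := 0) (W2 := 1230186008) (P3 := 1046898278) (W3 := 26843546) (N0 := 3)
    rfl (fun _ => rfl) k0_mm_123

noncomputable def f_mm_133 : ℕ → ℕ → ℕ → ℕ → Bool := onCell 1610612736 536870912 0 1230186008 1046898278 26843546
    (rowNX 3 2 false false false .dn 1 3 3 (qsf 536870912 536870912 0 1230186008 3) ndN0q1 ndN6q3 pcN3 Cut.none Ext.none)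

def k0_mm_133 : ∃ t, chk3 f_mm_133 t 1 1 1 = true :=
  ⟨(l 5), by decide +kernel⟩

theorem c_mm_133 : CertNX 536870912 536870912 0 1230186008 1046898278 26843546 3 false false false .dn 1 3 3
    ndN0q1 ndN6q3 pcN3 Cut.none Ext.none :=
  certNX2 (fam := false) (s1 := false) (s2 := false) (a := 1) (b := 3) (c := 3) (cn := .dn) (n1 := ndN0q1) (n2 := ndN6q3) (pc := pcN3) (cut := Cut.none) (xt := Ext.none) (P1 := 536870912) (W1 := 536870912) (P2 := 0) (W2 := 1230186008) (P3 := 1046898278) (W3 := 26843546) (N0 := 3)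
    rfl (fun _ => rfl) k0_mm_133

noncomputable def f_mm_202 : ℕ → ℕ → ℕ → ℕ → Bool := onCell 0 536870912 0 536870912 1046898278 26843546
    (rowNX 3 1 false false false .pp 2 0 2 (qsf 0 536870912 1073741824 536870912 0) ndN0q2 ndN6q2 pcN0 Cut.none Ext.none)

def k0_mm_202 : ∃ t, chk3 f_mm_202 t 8 16 2 = true :=
  ⟨(a (b (a (b (b (c (c (l 15821152) (l 15819728)) (l 15772056)) (c (a (l 15771216) (l 15738768)) (c (b (l 15776776) (l 15745312)) (b (l 15761032) (c (l 15662072) (a (l 15760856) (l 15730304))))))) (b (c (c (l 15662944) (b (l 15693976) (l 15637544))) (c (a (c (l 15623976) (l 15638344)) (l 15642512)) (a (b (l 15694560) (l 15627056)) (l 15637712)))) (c (c (l 15556120) (l 15555928)) (c (l 15493088) (b (l 15568632) (l 15524456)))))) (b (b (c (l 15793624) (l 15735392)) (c (l 15702280) (c (l 15699472) (a (b (l 15744464) (l 15691200)) (l 15683600))))) (c (b (b (l 15620656) (a (l 15578184) (l 15567456))) (a (l 15518920) (l 15517552))) (b (a (c (l 15606880) (l 15607456)) (c (l 15589248)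 (l 15592216))) (a (l 15534504) (l 15525840)))))) (c (b (b (a (c (l 15471968) (l 15475720)) (l 15379384)) (a (c (l 15401152) (l 15399888)) (a (b (l 15414192) (l 15379592)) (l 15379792)))) (a (b (a (l 15361992) (l 15337800)) (l 15273648)) (c (l 15280776) (l 15275960)))) (b (b (c (b (a (l 15491104) (l 15482512)) (l 15447608)) (l 15459408)) (c (l 15377808) (l 15376368))) (c (a (l 15304208) (l 15278400)) (b (l 15299168) (c (l 15263304) (b (l 15278616) (a (l 15245608) (l 15236024))))))))) (a (b (b (b (a (l 15778296) (l 15781768)) (c (l 15694648) (a (l 15631744) (l 15683496)))) (b (c (l 15480744) (l 15598880)) (c (l 15532376) (l 15525960)))) (a (c (b (b (l 15457272) (l 15381776)) (l 15233568)) (b (b (l 15449600) (l 15375872)) (c (l 15277520) (b (l 15317512) (a (l 15251712) (l 3)))))) (l 3))) (l 3))), by decide +kernel⟩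

def k1_mm_202 : ∃ t, chk3 f_mm_202 t 8 32 3 = true :=
  ⟨(b (a (b (c (a (l 15843016) (c (l 15788840) (c (l 15786936) (l 15703464)))) (c (b (l 15847208) (c (l 15790560) (l 15790424))) (c (l 15591896) (l 15718312)))) (b (c (b (c (l 15658520) (c (l 15654040) (l 15752176))) (c (c (a (l 15754752) (l 15714464)) (a (l 15778568) (l 15664352))) (l 15726936))) (c (l 15733072) (l 15741952))) (c (c (a (a (l 15743968) (c (l 15720336) (l 15706344))) (a (c (l 15691968) (l 15686152)) (l 15656656))) (c (l 15673264) (l 15674240))) (c (l 15678824) (l 15683816))))) (a (c (b (c (l 15761632) (b (l 15778976) (b (l 15745152) (l 76401030951)))) (a (c (b (l 15688784) (l 15647072)) (b (a (l 15691000) (l 15686712)) (l 15591736))) (l 15654720))) (c (b (b (l 15774104) (c (b (l 15740312) (l 15719264)) (b (l 15738416) (l 15717944)))) (c (l 15649544) (l 15671144))) (b (c (b (l 15708856) (l 15728200)) (b (c (l 15771960) (b (l 15763768) (l 15758624))) (c (b (l 15737176) (l 15717056)) (l 15725336)))) (c (b (c (l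 15689360) (l 15688024)) (l 15585896)) (l 15662760))))) (l 3))) (c (b (a (a (c (b (l 15629736) (l 15599320)) (l 15624456)) (c (b (l 15620552) (l 15555856)) (l 15593496))) (l 78548258199)) (c (a (l 15525272) (l 15535144)) (c (l 75863734903) (c (l 15470416) (l 77474308119))))) (c (b (a (c (l 15602760) (b (l 15635064) (l 15580280))) (c (l 81769417207) (a (c (b (l 15617320) (l 15575728)) (l 15444032)) (l 3)))) (c (c (b (l 15467576) (a (l 15502264) (l 15388312))) (b (a (l 15539792) (l 15487520)) (l 15392832))) (a (l 15513408) (l 15518968)))) (a (l 15552056) (l 15555640))))), by decide +kernel⟩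

def k2_mm_202 : ∃ t, chk3 f_mm_202 t 8 33 3 = true :=
  ⟨(c (b (c (c (l 74789746599) (b (l 75863617735) (b (l 15420992) (c (l 15391688) (l 76937184647))))) (c (c (b (l 15468736) (b (l 76937260935) (a (l 15345712) (l 15359296)))) (b (a (l 15458152) (l 81232295463)) (a (b (l 15379512) (l 15337392)) (l 81768961735)))) (b (c (b (l 15419352) (a (l 15431480) (l 15438680))) (a (l 15446496) (l 15348424))) (l 79084645559)))) (b (c (c (b (l 75863442663) (c (l 15242696) (l 15311536))) (c (b (l 76937108903) (a (l 15274440) (l 15288608))) (b (a (l 15207584) (l 15323704)) (l 15283864)))) (a (l 15281288) (l 15289800))) (c (c (b (c (l 15279056) (a (l 15178896) (l 15254000))) (a (a (l 15223728) (l 15054176)) (l 81231832007))) (l 15231752)) (l 15222480)))) (a (b (a (l 15394112) (l 15189888)) (a (l 15246896) (l 15217240))) (l 86600576247))), by decide +kernel⟩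

def k3_mm_202 : ∃ t, chk3 f_mm_202 t 9 16 1 = true :=
  ⟨(l 3), by decide +kernel⟩

def k4_mm_202 : ∃ t, chk3 f_mm_202 t 5 16 1 = true :=
  ⟨(l 3), by decide +kernel⟩

def k5_mm_202 : ∃ t, chk3 f_mm_202 t 16 17 4 = true :=
  ⟨(b (c (b (a (a (l 15189776) (l 15163872)) (b (l 15184712) (l 15118168))) (c (l 15051360) (l 15060096))) (b (a (l 15186304) (l 15100504)) (b (b (l 15104504) (c (l 15079288) (c (l 15086144) (l 15083112)))) (c (b (l 15058864) (c (l 15036136) (l 72104728615))) (b (c (l 14992984) (l 15035504)) (l 14992512)))))) (b (c (b (c (l 14971320) (b (l 15009616) (c (l 14986736) (a (l 14967456) (l 14967288))))) (a (c (b (a (l 14957976) (l 14931488)) (c (l 14928888) (l 14912160))) (c (l 14890312) (l 14882376))) (a (c (c (l 14913672) (l 14924536)) (l 14885224)) (l 14901248)))) (c (b (b (b (a (l 14996224) (l 14994968)) (l 14977816)) (l 14935992)) (a (c (b (l 14881472) (a (l 14735064) (l 14824736))) (b (a (l 14871096) (l 14855792)) (l 14818040))) (a (b (l 14854880) (l 14804824))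 (l 14829656)))) (b (a (a (l 14923048) (b (c (l 14940440) (l 14917144)) (c (l 14886456) (l 14875872)))) (a (b (l 14917472) (l 14866968)) (l 14889472))) (l 14844512)))) (a (c (b (c (l 14841072) (a (a (l 14806152) (b (c (l 14828952) (l 14805808)) (l 14772544))) (b (l 14807400) (l 14759360)))) (c (b (a (c (l 14774968) (l 14751680)) (l 14748304)) (c (b (l 14705600) (l 14682120)) (l 14707376))) (l 14716752))) (l 14736080)) (a (c (b (c (l 14826800) (b (l 14794232) (l 14723952))) (c (b (l 14714792) (l 14666360)) (l 14689880))) (l 14710528)) (l 3))))), by decide +kernel⟩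

def k6_mm_202 : ∃ t, chk3 f_mm_202 t 16 17 5 = true :=
  ⟨(b (b (c (b (c (l 15200568) (l 15207704)) (b (c (l 15166472) (b (l 15152912) (l 15107296))) (c (l 15136944) (l 15110272)))) (b (c (b (a (l 15226192) (l 15153832)) (a (l 15181256) (l 15169936))) (b (a (l 15204664) (c (l 15190368) (l 15166792))) (a (l 15153568) (c (l 15133512) (l 15123320))))) (c (a (l 15035424) (c (b (l 15124832) (l 15068656)) (b (l 15100816) (l 15058232)))) (l 15088992)))) (c (b (c (b (c (l 15110488) (l 15094280)) (l 15050792)) (c (b (l 15066688) (a (l 15014544) (l 15005736))) (b (a (l 15054160) (l 15036984)) (l 15004888)))) (c (c (b (l 15007408) (a (l 14949472) (l 14938032))) (b (a (l 14981584) (l 14968152)) (l 14946440))) (l 14957088))) (l 14978992))) (a (b (l 14843160) (l 14709592)) (l 78009613863))), by decide +kernel⟩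

def k7_mm_202 : ∃ t, chk3 f_mm_202 t 16 17 3 = true :=
  ⟨(b (c (b (a (l 15130080) (l 15098384)) (l 14956336)) (b (l 15078584) (l 14925896))) (a (b (l 14793296) (l 14655720)) (l 14714672))), by decide +kernel⟩

def k8_mm_202 : ∃ t, chk3 f_mm_202 t 17 17 1 = true :=
  ⟨(a (a (a (b (a (b (c (c (l 15145232) (c (l 15051744) (b (l 15067512) (l 3)))) (l 15064304)) (l 3)) (l 3)) (l 3)) (l 3)) (l 3)) (l 3)), by decide +kernel⟩

def k9_mm_202 : ∃ t, chk3 f_mm_202 t 9 17 1 = true :=
  ⟨(l 3), by decide +kernel⟩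

def k10_mm_202 : ∃ t, chk3 f_mm_202 t 5 17 1 = true :=
  ⟨(l 3), by decide +kernel⟩

def k11_mm_202 : ∃ t, chk3 f_mm_202 t 2 9 1 = true :=
  ⟨(a (a (a (a (b (b (c (b (b (b (c (l 14669312) (l 14632544)) (c (l 14657912) (l 14620848))) (l 14669392)) (a (l 14782768) (c (l 14727184) (l 14691304)))) (b (a (b (l 14587568) (l 14625488)) (l 14560208)) (a (l 14712640) (l 14636480)))) (c (a (c (l 14992888) (l 14961664)) (l 14887632)) (a (l 14913944) (l 14864544)))) (b (c (a (l 15079464) (l 3)) (l 15190248)) (l 3))) (b (b (a (c (b (b (l 78546491415) (l 14605544)) (l 14680080)) (b (l 14530720) (l 14606288))) (l 3)) (l 3)) (l 3))) (l 3)) (l 3)) (l 3)), by decide +kernel⟩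

def k12_mm_202 : ∃ t, chk3 f_mm_202 t 3 4 1 = true :=
  ⟨(l 3), by decide +kernel⟩

def k13_mm_202 : ∃ t, chk3 f_mm_202 t 1 5 1 = true :=
  ⟨(a (l 3) (l 3)), by decide +kernel⟩

def k14_mm_202 : ∃ t, chk3 f_mm_202 t 1 3 1 = true :=
  ⟨(l 3), by decide +kernel⟩

theorem s15_mm_202 : ∃ t, chk3 f_mm_202 t 16 17 2 = true := ex3_c k5_mm_202 k6_mm_202

theorem s16_mm_202 : ∃ t, chk3 f_mm_202 t 16 17 1 = true := ex3_c s15_mm_202 k7_mm_202

theorem s17_mm_202 : ∃ t, chk3 f_mm_202 t 8 17 1 = true := ex3_a s16_mm_202 k8_mm_202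

theorem s18_mm_202 : ∃ t, chk3 f_mm_202 t 4 17 1 = true := ex3_a s17_mm_202 k9_mm_202

theorem s19_mm_202 : ∃ t, chk3 f_mm_202 t 2 17 1 = true := ex3_a s18_mm_202 k10_mm_202

theorem s20_mm_202 : ∃ t, chk3 f_mm_202 t 8 16 3 = true := ex3_b k1_mm_202 k2_mm_202

theorem s21_mm_202 : ∃ t, chk3 f_mm_202 t 8 16 1 = true := ex3_c k0_mm_202 s20_mm_202

theorem s22_mm_202 : ∃ t, chk3 f_mm_202 t 4 16 1 = true := ex3_a s21_mm_202 k3_mm_202

theorem s23_mm_202 : ∃ t, chk3 f_mm_202 t 2 16 1 = true := ex3_a s22_mm_202 k4_mm_202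

theorem s24_mm_202 : ∃ t, chk3 f_mm_202 t 2 8 1 = true := ex3_b s23_mm_202 s19_mm_202

theorem s25_mm_202 : ∃ t, chk3 f_mm_202 t 2 4 1 = true := ex3_b s24_mm_202 k11_mm_202

theorem s26_mm_202 : ∃ t, chk3 f_mm_202 t 1 4 1 = true := ex3_a s25_mm_202 k12_mm_202

theorem s27_mm_202 : ∃ t, chk3 f_mm_202 t 1 2 1 = true := ex3_b s26_mm_202 k13_mm_202

theorem s28_mm_202 : ∃ t, chk3 f_mm_202 t 1 1 1 = true := ex3_b s27_mm_202 k14_mm_202

theorem c_mm_202 : CertNX 0 536870912 1073741824 536870912 1046898278 26843546 3 false false false .pp 2 0 2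
    ndN0q2 ndN6q2 pcN0 Cut.none Ext.none :=
  certNX1 (fam := false) (s1 := false) (s2 := false) (a := 2) (b := 0) (c := 2) (cn := .pp) (n1 := ndN0q2) (n2 := ndN6q2) (pc := pcN0) (cut := Cut.none) (xt := Ext.none) (P1 := 0) (W1 := 536870912) (P2 := 1073741824) (W2 := 536870912) (P3 := 1046898278) (W3 := 26843546) (N0 := 3)
    rfl (fun _ => rfl) s28_mm_202

noncomputable def f_mm_203 : ℕ → ℕ → ℕ → ℕ → Bool := onCell 0 536870912 0 1230186008 1046898278 26843546
    (rowNX 3 0 false false false .up 2 0 3 (qsf 0 536870912 0 1230186008 0) ndN0q2 ndN6q3 pcN0 Cut.none Ext.none)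

def k0_mm_203 : ∃ t, chk3 f_mm_203 t 1 1 1 = true :=
  ⟨(b (l 2) (a (l 3) (l 3))), by decide +kernel⟩

theorem c_mm_203 : CertNX 0 536870912 0 1230186008 1046898278 26843546 3 false false false .up 2 0 3
    ndN0q2 ndN6q3 pcN0 Cut.none Ext.none :=
  certNX0 (fam := false) (s1 := false) (s2 := false) (a := 2) (b := 0) (c := 3) (cn := .up) (n1 := ndN0q2) (n2 := ndN6q3) (pc := pcN0) (cut := Cut.none) (xt := Ext.none) (P1 := 0) (W1 := 536870912) (P2 := 0) (W2 := 1230186008) (P3 := 1046898278) (W3 := 26843546) (N0 := 3)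
    rfl k0_mm_203

noncomputable def f_mm_213 : ℕ → ℕ → ℕ → ℕ → Bool := onCell 0 536870912 0 1230186008 1046898278 26843546
    (rowNX 3 0 false false false .pnn 2 1 3 (qsf 0 536870912 0 1230186008 1) ndN0q2 ndN6q3 pcN1 Cut.none Ext.none)

def k0_mm_213 : ∃ t, chk3 f_mm_213 t 1 1 1 = true :=
  ⟨(b (a (l 3) (b (l 5) (l 3))) (b (l 3) (l 3))), by decide +kernel⟩

theorem c_mm_213 : CertNX 0 536870912 0 1230186008 1046898278 26843546 3 false false false .pnn 2 1 3
    ndN0q2 ndN6q3 pcN1 Cut.none Ext.none :=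
  certNX0 (fam := false) (s1 := false) (s2 := false) (a := 2) (b := 1) (c := 3) (cn := .pnn) (n1 := ndN0q2) (n2 := ndN6q3) (pc := pcN1) (cut := Cut.none) (xt := Ext.none) (P1 := 0) (W1 := 536870912) (P2 := 0) (W2 := 1230186008) (P3 := 1046898278) (W3 := 26843546) (N0 := 3)
    rfl k0_mm_213

end Pool.Agent.Strip051.G.IE1.Tab.C.NB06

namespace Pool.Agent.Strip051.G.IE1.Tab.C.NB07

open Pool.Agent.Strip051.PB Pool.Agent.Strip051.PB.T
open Pool.Agent.Strip051.G.IE1.Tab

noncomputable def f_pp_001 : ℕ → ℕ → ℕ → ℕ → Bool := onCell 0 536870912 0 536870912 1046898278 26843546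
    (rowNX 3 1 false true true .up 0 0 1 (qsf 0 536870912 536870912 536870912 0) ndN0q0 ndN7q1 pcN0 Cut.none Ext.none)

def k0_pp_001 : ∃ t, chk3 f_pp_001 t 1 1 1 = true :=
  ⟨(l 3), by decide +kernel⟩

theorem c_pp_001 : CertNX 0 536870912 536870912 536870912 1046898278 26843546 3 false true true .up 0 0 1
    ndN0q0 ndN7q1 pcN0 Cut.none Ext.none :=
  certNX1 (fam := false) (s1 := true) (s2 := true) (a := 0) (b := 0) (c := 1) (cn := .up) (n1 := ndN0q0) (n2 := ndN7q1) (pc := pcN0) (cut := Cut.none) (xt := Ext.none) (P1 := 0) (W1 := 536870912) (P2 := 536870912) (W2 := 536870912) (P3 := 1046898278) (W3 := 26843546) (N0 := 3)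
    rfl (fun _ => rfl) k0_pp_001

noncomputable def cut_pp_011 : Cut := Cut.of [[⟨0, 0, 0, 67108864⟩, ⟨1, 1, 0, 67108864⟩, ⟨2, 1, 0, 67108864⟩]]

noncomputable def f_pp_011 : ℕ → ℕ → ℕ → ℕ → Bool := onCell 0 536870912 536870912 536870912 1046898278 26843546
    (rowNX 3 1 false true true .pnn 0 1 1 (qsf 0 536870912 536870912 536870912 1) ndN0q0 ndN7q1 pcN1 cut_pp_011 Ext.none)

def k0_pp_011 : ∃ t, chk3 f_pp_011 t 1 1 1 = true :=
  ⟨(b (l 3) (b (l 3) (a (a (b (l 3) (b (l 3) (a (a (l 6) (l 3)) (l 2)))) (l 3)) (l 2)))), by decide +kernel⟩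

theorem c_pp_011 : CertNX 0 536870912 536870912 536870912 1046898278 26843546 3 false true true .pnn 0 1 1
    ndN0q0 ndN7q1 pcN1 cut_pp_011 Ext.none :=
  certNX1 (fam := false) (s1 := true) (s2 := true) (a := 0) (b := 1) (c := 1) (cn := .pnn) (n1 := ndN0q0) (n2 := ndN7q1) (pc := pcN1) (cut := cut_pp_011) (xt := Ext.none) (P1 := 0) (W1 := 536870912) (P2 := 536870912) (W2 := 536870912) (P3 := 1046898278) (W3 := 26843546) (N0 := 3)
    rfl (fun _ => rfl) k0_pp_011

noncomputable def cut_pp_012 : Cut := Cut.of [[⟨0, 0, 0, 67108864⟩, ⟨1, 1, 0, 67108864⟩, ⟨2, 1, 0, 67108864⟩]]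

noncomputable def f_pp_012 : ℕ → ℕ → ℕ → ℕ → Bool := onCell 0 536870912 536870912 536870912 1046898278 26843546
    (rowNX 3 1 false true true .pnp 0 1 2 (qsf 0 536870912 1073741824 536870912 1) ndN0q0 ndN7q2 pcN1 cut_pp_012 Ext.none)

def k0_pp_012 : ∃ t, chk3 f_pp_012 t 1 1 1 = true :=
  ⟨(b (l 3) (a (b (l 3) (a (b (l 3) (b (l 3) (a (a (l 6) (l 3)) (l 3)))) (l 3))) (l 3))), by decide +kernel⟩

theorem c_pp_012 : CertNX 0 536870912 1073741824 536870912 1046898278 26843546 3 false true true .pnp 0 1 2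
    ndN0q0 ndN7q2 pcN1 cut_pp_012 Ext.none :=
  certNX1 (fam := false) (s1 := true) (s2 := true) (a := 0) (b := 1) (c := 2) (cn := .pnp) (n1 := ndN0q0) (n2 := ndN7q2) (pc := pcN1) (cut := cut_pp_012) (xt := Ext.none) (P1 := 0) (W1 := 536870912) (P2 := 1073741824) (W2 := 536870912) (P3 := 1046898278) (W3 := 26843546) (N0 := 3)
    rfl (fun _ => rfl) k0_pp_012

noncomputable def cut_pp_022 : Cut := Cut.of [[⟨3, 0, 0, 1140850688⟩], [⟨0, 0, 0, 67108864⟩, ⟨1, 1, 0, 67108864⟩, ⟨2, 1, 0, 67108864⟩]]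

noncomputable def f_pp_022 : ℕ → ℕ → ℕ → ℕ → Bool := onCell 0 536870912 1073741824 536870912 1046898278 26843546
    (rowNX 3 1 false true true .pp 0 2 2 (qsf 0 536870912 1073741824 536870912 2) ndN0q0 ndN7q2 pcN2 cut_pp_022 Ext.none)

def k0_pp_022 : ∃ t, chk3 f_pp_022 t 2 8 1 = true :=
  ⟨(a (a (b (l 6) (b (l 6) (b (l 6) (b (l 6) (a (a (a (c (c (c (l 16587248) (b (a (l 16578696) (l 6)) (c (l 16567856) (a (l 16544560) (l 16516936))))) (c (c (a (c (l 16550504) (l 16470456)) (a (l 16491296) (l 6))) (a (c (l 16475352) (l 16542432)) (l 16541504))) (l 16538752))) (c (l 16537008) (c (a (l 16534544) (l 16531704)) (a (c (l 16532168) (a (c (l 16532112) (l 16511464)) (l 16513400))) (c (a (c (l 16528168) (l 16527272)) (l 6)) (l 16529080)))))) (l 6)) (l 6)) (l 6)))))) (l 6)) (l 6)), by decide +kernel⟩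

def k1_pp_022 : ∃ t, chk3 f_pp_022 t 32 36 1 = true :=
  ⟨(c (c (b (a (c (b (l 16508504) (c (l 16538784) (a (l 16546008) (l 16418632)))) (c (b (a (l 16540472) (l 16453344)) (a (l 16398496) (b (l 16439200) (l 16416512)))) (a (b (c (l 16510720) (l 16485240)) (c (l 16417024) (l 16384448))) (b (l 16396592) (l 16353800))))) (a (c (b (c (l 16581664) (b (l 16527800) (l 16538376))) (c (l 16456992) (l 16371144))) (c (c (b (l 16541976) (l 16398040)) (b (l 16461128) (l 16416864))) (b (c (l 16433456) (l 16501976)) (l 16426536)))) (b (b (l 6) (c (c (l 16551960) (l 16501160)) (c (l 16436288) (l 16482832)))) (c (c (l 16413904) (l 16326248)) (l 16411296))))) (c (a (c (b (b (l 16457840) (a (l 16470792) (l 16431072))) (a (l 16352136) (l 16330944))) (b (a (b (l 16497496) (l 16410416)) (l 16318136)) (a (l 16265704) (l 16242696)))) (c (b (a (l 16382624) (l 16339184)) (a (l 16287960) (l 16211192))) (b (a (l 16294672) (l 16309392)) (a (l 16278856) (l 16291168))))) (a (c (b (a (c (l 16413000) (l 16373792))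 (l 16274488)) (a (l 16221760) (l 16287088))) (b (a (l 16299736) (l 16351976)) (l 16279648))) (l 16219016)))) (b (a (c (b (c (a (a (l 16423032) (l 16428456)) (c (l 16461584) (l 16495960))) (l 16495048)) (l 16360960)) (l 16455968)) (l 16460816)) (l 16313648))) (c (a (l 16274376) (c (l 16255696) (a (l 16291560) (b (c (l 16441592) (l 16373096)) (l 16273720))))) (a (c (a (l 16332496) (b (l 16384336) (l 16297648))) (a (c (l 16266288) (a (c (l 16328432) (b (l 16383576) (l 16294040))) (c (l 16202592) (l 16369032)))) (c (a (c (l 16305200) (l 16241088)) (l 16218872)) (l 16368440)))) (c (a (c (l 16198992) (c (a (l 16318144) (l 16256824)) (l 16196936))) (c (b (a (l 16367976) (l 16369720)) (l 16202712)) (l 16368568))) (l 16304312))))), by decide +kernel⟩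

def k2_pp_022 : ∃ t, chk3 f_pp_022 t 33 36 1 = true :=
  ⟨(b (b (l 6) (a (c (c (c (c (a (l 16370008) (c (l 16382712) (l 16424432))) (a (l 16340504) (l 16435256))) (l 16430472)) (l 16415944)) (c (c (c (l 16397768) (a (l 16396928) (l 16379424))) (a (c (l 16386392) (l 16329552)) (c (a (l 16385568) (l 16399776)) (l 16403880)))) (l 16401624))) (l 6))) (c (a (c (c (c (b (a (c (l 16352416) (l 16373024)) (l 16370568)) (l 16300200)) (l 16329920)) (l 16325616)) (l 16309968)) (c (a (l 16324736) (l 16263536)) (a (l 16271856) (c (l 16256456) (c (l 16270424) (b (l 16300296) (a (l 16223720) (l 16241704)))))))) (c (a (c (a (l 16294792) (c (l 16281480) (l 16272752))) (a (c (l 16278488) (l 16200136)) (c (a (l 16278192) (l 16292544)) (l 16295968)))) (c (a (c (l 16141104) (a (l 16276696) (l 16292864))) (c (a (c (l 16273120) (l 16293512)) (b (l 16331288) (l 16271968))) (l 16304736))) (l 16195456))) (a (l 16292264) (b (l 16327704) (l 16260800)))))), by decide +kernel⟩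

def k3_pp_022 : ∃ t, chk3 f_pp_022 t 17 36 1 = true :=
  ⟨(a (b (l 6) (b (l 6) (c (a (c (l 16334160) (c (a (l 16275656) (c (l 16311816) (l 16321576))) (a (c (l 16270776) (l 16296544)) (l 16292280)))) (a (c (c (l 16401728) (l 16366576)) (c (c (l 16372704) (l 16405584)) (l 16417696))) (l 6))) (c (l 16324920) (l 16383168))))) (l 6)), by decide +kernel⟩

def k4_pp_022 : ∃ t, chk3 f_pp_022 t 9 36 1 = true :=
  ⟨(l 6), by decide +kernel⟩

def k5_pp_022 : ∃ t, chk3 f_pp_022 t 16 37 1 = true :=
  ⟨(c (b (c (a (c (a (b (c (a (l 16300800) (l 16258272)) (a (l 16191288) (l 16227912))) (c (a (l 16208184) (l 16132344)) (l 16093072))) (c (b (a (l 16181968) (l 16228592)) (l 16159824)) (l 16188272))) (a (l 16158240) (l 16185176))) (a (l 16197248) (a (l 16219408) (l 16251552)))) (a (l 16174688) (a (l 16114872) (a (l 16186368) (c (l 16223160) (c (l 16195280) (l 16111328))))))) (a (a (c (c (c (b (a (l 16104248) (l 16088888)) (l 16021720)) (l 16048592)) (l 16044680)) (l 16037136)) (l 16055424)) (a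 (a (l 16082848) (l 16117328)) (c (l 16200464) (c (l 16177032) (a (l 16134120) (l 16171936))))))) (a (c (a (l 16094248) (a (l 16095968) (c (l 16104192) (b (l 16154512) (l 16025784))))) (a (c (a (l 16085104) (l 16085168)) (a (c (l 16080112) (a (l 15889552) (l 16081024))) (c (a (l 15955616) (l 16077128)) (l 16078120)))) (c (a (c (l 16081960) (c (l 16034336) (l 16078480))) (c (b (l 16145664) (l 15953360)) (l 16087632))) (l 16083112)))) (c (a (c (c (b (l 16157728) (l 16072432)) (a (l 15996216) (b (l 16141104) (l 16071480)))) (c (a (b (l 16139840) (l 16034944)) (b (a (l 16141104) (l 16161264)) (l 16079520))) (a (b (l 16144672) (a (l 16024832) (l 16052560))) (l 16089256)))) (b (c (a (c (a (l 16144256) (l 16163952)) (a (l 16052624) (l 16190240))) (c (a (l 16194792) (l 16237792)) (l 16228024))) (l 16208792)) (c (a (c (l 16119784) (l 16131344)) (c (l 16183096) (l 16200272))) (l 16171504)))) (b (a (l 16155880) (l 16182112)) (a (l 16068624) (l 16165512)))))), by decide +kernel⟩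

def k6_pp_022 : ∃ t, chk3 f_pp_022 t 17 37 1 = true :=
  ⟨(c (a (c (a (b (l 16225288) (l 16277712)) (c (b (l 16390032) (l 16358760)) (b (a (l 16342408) (c (l 16381520) (l 16400304))) (a (l 16310472) (c (l 16350048) (l 16368360)))))) (c (a (b (a (l 16249816) (c (l 16286544) (l 16275104))) (a (l 16221544) (c (l 16255552) (l 16264800)))) (a (c (b (l 16348336) (l 16316152)) (b (l 16359680) (l 16326736))) (b (c (l 16393144) (l 16447584)) (l 16322336)))) (a (b (a (c (l 16202936) (l 16228240)) (c (l 16304256) (l 16337504))) (a (c (l 16216584) (l 16241288)) (c (l 16293264) (l 16305208)))) (b (l 16419480) (l 16387120))))) (c (a (a (c (b (l 16392840) (l 16404400)) (c (b (l 16431000) (l 16421120)) (b (l 16425648) (l 16414944)))) (c (c (b (l 16433688) (l 16425520)) (a (l 16358168) (l 16461264))) (b (c (l 16457184) (l 16553776)) (l 16409616)))) (c (a (c (l 16414424) (b (l 16508728) (l 16500096))) (b (l 6) (c (l 16437136) (l 16504784)))) (b (l 16556464) (l 16527056)))) (b (l 16453304) (l 16443728))))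 (c (a (b (a (l 16308144) (l 16416504)) (a (l 16275960) (l 16383960))) (b (l 16473160) (l 16463416))) (a (b (l 16254408) (l 16283872)) (b (l 16472072) (l 16462168))))), by decide +kernel⟩

def k7_pp_022 : ∃ t, chk3 f_pp_022 t 9 37 1 = true :=
  ⟨(b (l 6) (a (a (c (a (c (l 16435992) (l 16432584)) (b (l 6) (a (l 16364960) (l 16370992)))) (a (c (l 16428968) (l 16425288)) (c (l 16348280) (l 16364256)))) (l 6)) (l 6))), by decide +kernel⟩

def k8_pp_022 : ∃ t, chk3 f_pp_022 t 16 19 2 = true :=
  ⟨(b (a (b (a (b (l 15946312) (l 15894672)) (b (l 15983840) (l 15965632))) (a (l 15933520) (l 16030272))) (a (b (c (l 16082456) (b (l 16065224) (l 16058704))) (l 16104648)) (b (c (l 16178536) (c (l 16155400) (a (l 16112736) (c (l 16147360) (l 16126184))))) (c (l 16227904) (c (l 16206064) (a (l 16165816) (l 16201088))))))) (a (b (l 16089624) (l 16168000)) (a (c (l 16187216) (l 16130032)) (c (l 16246128) (c (l 16248256) (a (l 16275632) (l 16180152))))))), by decide +kernel⟩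

def k9_pp_022 : ∃ t, chk3 f_pp_022 t 16 19 3 = true :=
  ⟨(a (b (c (b (a (l 15840424) (a (b (l 15940096) (l 15915536)) (c (l 15976600) (b (l 15965224) (l 15958488))))) (a (l 15915888) (c (l 16014048) (l 16000728)))) (a (c (b (b (l 15916704) (l 15842256)) (l 15904176)) (b (a (c (l 15880976) (a (l 15794112) (l 15881336))) (c (b (l 15913840) (a (l 15855296) (l 15861384))) (l 15885088))) (a (c (l 15876208) (a (l 15863104) (l 15881624))) (l 15816064)))) (b (c (a (c (l 15831328) (b (l 15920584) (l 15895832))) (b (l 15955984) (l 15949280))) (l 15935704)) (c (a (c (l 15969184) (l 15965368)) (l 16016264)) (l 15992088))))) (c (a (l 16089584) (b (l 16014336) (a (l 16220192) (l 16238224)))) (a (c (l 15996784) (a (c (l 16053552) (l 15863624)) (c (l 15975816) (l 16098304)))) (c (a (c (l 16146824) (l 16039104)) (l 16042200)) (l 16169184))))) (b (c (a (c (b (a (l 16017936) (c (l 16058944) (l 16049824))) (l 16079200)) (b (c (a (l 16000856) (b (l 16060872) (l 16054488))) (b (l 16038120) (l 15905936)))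 (a (c (l 16061136) (l 16065416)) (l 16094344)))) (b (c (a (c (l 16098592) (b (l 16113184) (l 16106640))) (c (b (l 16165008) (l 16137336)) (l 16178368))) (l 16149600)) (c (a (c (l 16152376) (l 16163672)) (l 16106880)) (l 16202024)))) (b (l 16027536) (l 16146928))) (c (a (c (b (l 16183184) (l 16276840)) (a (c (l 16163672) (l 16105704)) (l 16065904))) (c (a (c (l 16179888) (l 16149656)) (c (l 16170968) (l 16376632))) (l 16290888))) (l 16117968)))), by decide +kernel⟩

def k10_pp_022 : ∃ t, chk3 f_pp_022 t 17 38 1 = true :=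
  ⟨(c (a (c (b (a (l 16151352) (c (b (l 16335808) (l 16327024)) (b (a (l 16289344) (l 16298776)) (a (l 16282536) (b (l 16330448) (l 16310760)))))) (a (l 16300096) (c (l 16368880) (a (l 16326560) (l 16288224))))) (b (a (c (a (l 16200432) (c (l 16234576) (l 16201640))) (a (c (l 16153544) (l 16177688)) (c (l 16229464) (l 16283056)))) (c (a (b (c (l 16294840) (l 16325848)) (c (l 16287968) (l 16318648))) (b (l 16361432) (a (l 16337392) (l 16348488)))) (b (l 16363368) (l 16354232)))) (c (a (l 16125048) (c (a (l 16332272) (l 16367376)) (l 16285064))) (a (a (c (l 16242800) (l 16266696)) (l 16276880)) (l 16397112))))) (b (c (a (c (a (b (l 16381360) (b (l 16370024) (l 16369056))) (c (b (l 16424192) (b (l 16413056) (l 16411624))) (b (l 16450744) (l 16375688)))) (c (b (a (l 16397728) (l 16487008)) (a (l 16323080) (l 16369600))) (b (l 16380112) (b (l 16389352) (l 16346120))))) (c (a (c (l 16371664) (b (l 16519184) (b (l 16528696) (l 16502320)))) (b (l 16409752) (b (l 16440824) (l 16386424))))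 (b (l 16505672) (l 16467848)))) (b (l 16462152) (a (l 16416896) (l 16466520)))) (c (a (c (a (l 16363536) (l 16312168)) (a (a (l 16310168) (l 16373464)) (l 16380488))) (c (a (c (l 16492848) (l 16424240)) (c (a (l 16437200) (l 16400960)) (l 16406152))) (l 16427376))) (c (l 16302416) (l 16322448))))) (b (a (a (c (l 16254104) (l 16247896)) (b (l 16357848) (b (l 16347992) (l 16349648)))) (b (l 16418088) (b (l 16427360) (l 16384368)))) (a (c (l 16284736) (l 16301616)) (b (l 16386456) (l 16317240))))), by decide +kernel⟩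

def k11_pp_022 : ∃ t, chk3 f_pp_022 t 17 39 1 = true :=
  ⟨(c (a (c (a (l 16266552) (c (l 16353520) (b (l 16287168) (l 16259440)))) (a (a (c (l 16324392) (b (l 16215672) (l 16339832))) (c (l 16212656) (l 16265456))) (c (a (b (l 16255776) (l 16257512)) (b (l 16428624) (l 16297312))) (l 16306912)))) (c (a (c (b (a (l 16477632) (l 16360328)) (a (l 16393448) (l 16370680))) (a (c (l 16240376) (b (l 16417408) (l 16302176))) (b (l 16336472) (l 16304072)))) (c (b (a (c (l 16427984) (b (l 16399104) (l 16359176))) (l 16271624)) (a (c (l 16349952) (l 16301632)) (l 16287568))) (b (l 16353160) (l 16279176)))) (b (a (l 16404440) (l 16350272)) (l 16287320)))) (b (a (l 16284712) (a (l 16400192) (l 16302320))) (a (l 16207664) (l 16279992)))), by decide +kernel⟩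

def k12_pp_022 : ∃ t, chk3 f_pp_022 t 9 19 1 = true :=
  ⟨(b (a (a (c (b (a (b (l 16347632) (c (b (l 16401872) (l 16392472)) (l 16352608))) (b (c (l 16366584) (l 16361848)) (b (l 16366024) (l 16344136)))) (a (c (l 16357264) (l 16353120)) (l 16336824))) (b (a (b (l 16403288) (b (l 16392576) (l 16382976))) (b (c (l 16357032) (l 16352120)) (c (l 16358728) (l 16354056)))) (a (l 16346536) (l 16327048)))) (b (c (b (c (l 16450576) (l 16447112)) (b (l 16411560) (a (l 16421920) (l 16480832)))) (b (c (l 16443584) (l 16439992)) (c (l 16384696) (l 16423336)))) (c (a (l 16391968) (l 16449304)) (l 16329520)))) (a (b (a (b (l 6) (b (l 6) (c (l 16538936) (l 16535296)))) (l 6)) (c (a (l 16505912) (l 16561808)) (a (l 16501312) (l 16558952)))) (a (b (l 6) (c (l 16597624) (l 16595696))) (l 6)))) (a (a (c (b (a (l 16311072) (l 16295832)) (a (l 16256552) (l 16254096))) (b (a (l 16301512) (l 16285096)) (a (l 16245448) (l 16242360)))) (c (b (l 16334560) (l 16337680)) (b (l 16368144) (l 16328424)))) (c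 (a (b (l 16443992) (l 16444408)) (b (a (l 16565216) (l 16581288)) (l 16466328))) (a (b (l 16438920) (l 16438280)) (b (a (l 16562544) (l 16578832)) (l 16462544)))))), by decide +kernel⟩

def k13_pp_022 : ∃ t, chk3 f_pp_022 t 5 9 1 = true :=
  ⟨(b (l 6) (b (l 6) (a (b (a (a (c (l 16581624) (l 16578568)) (l 6)) (l 6)) (a (c (a (l 16535648) (l 16535744)) (a (l 16531224) (l 16530416))) (a (a (c (l 16537072) (l 16531112)) (l 6)) (l 6)))) (l 6)))), by decide +kernel⟩

def k14_pp_022 : ∃ t, chk3 f_pp_022 t 3 4 1 = true :=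
  ⟨(l 6), by decide +kernel⟩

def k15_pp_022 : ∃ t, chk3 f_pp_022 t 8 40 2 = true :=
  ⟨(a (a (b (l 16297584) (l 16222696)) (c (b (l 16284448) (l 16133504)) (a (l 16087784) (b (c (l 16334584) (l 16238392)) (a (l 16179136) (l 16005968)))))) (a (c (a (b (l 16278592) (l 16135984)) (c (l 16105512) (b (l 16177504) (l 16165368)))) (a (c (b (a (l 16322096) (l 16285072)) (l 16141144)) (b (a (c (l 16323448) (l 16289728)) (l 16212672)) (a (l 16071280) (l 16118176)))) (c (a (b (c (l 16282928) (l 16240904)) (l 16107280)) (l 15976912)) (l 16115152)))) (c (a (c (b (l 16216664) (l 16149408)) (a (b (l 16173608) (l 16083592)) (l 15945904))) (c (a (c (l 16163888) (l 16052008)) (b (l 16199704) (l 16094424))) (l 16134800))) (l 15989112)))), by decide +kernel⟩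

def k16_pp_022 : ∃ t, chk3 f_pp_022 t 16 41 2 = true :=
  ⟨(b (a (l 16063080) (c (l 15957392) (a (l 16014176) (c (l 15994944) (l 15874680))))) (b (a (l 15937744) (c (l 15857112) (a (l 15860648) (c (l 15864664) (l 15827056))))) (a (b (l 15844336) (a (l 15817776) (a (l 15763016) (l 15735352)))) (b (c (l 15776352) (a (l 15777472) (c (l 15784584) (l 15788152)))) (c (a (l 15725904) (l 15720472)) (a (l 15725432) (c (l 15731312) (a (l 15743344) (l 15649008))))))))), by decide +kernel⟩

def k17_pp_022 : ∃ t, chk3 f_pp_022 t 17 41 2 = true :=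
  ⟨(b (a (c (a (l 15995064) (c (l 16018816) (l 16029872))) (a (c (l 16019248) (a (l 15988160) (l 15978248))) (c (c (l 15926200) (l 15975040)) (l 15960216)))) (c (a (c (l 15996664) (a (l 15949952) (l 15969808))) (c (a (l 15949384) (l 15965688)) (l 15952024))) (l 15948544))) (b (a (c (a (l 15870792) (c (l 15895840) (l 15863768))) (a (c (l 15893208) (a (l 15839784) (l 15851176))) (c (a (l 15802424) (l 15848816)) (l 15833656)))) (c (a (c (l 15832504) (a (l 15763432) (l 15846584))) (c (a (l 15785816) (l 15844464)) (l 15829400))) (l 15823720))) (a (a (c (b (l 15789944) (l 15715080)) (b (c (l 15811176) (a (l 15799384) (l 15767872))) (c (a (l 15760888) (a (l 15771760) (l 15659904))) (c (a (l 15758312) (l 15719712)) (l 15587560))))) (c (b (c (l 15813624) (l 15822688)) (c (l 15758712) (a (l 15777120) (c (l 15790768) (l 15762896))))) (b (c (a (l 15802904) (l 15764528)) (l 15748976)) (c (a (c (l 15762080) (l 15717584)) (c (l 15715560) (l 15695392))) (l 15692416))))) (c (b (c (a (l 15832544)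 (c (l 15761632) (l 15759400))) (a (c (l 15761216) (l 15762216)) (l 15743176))) (c (a (a (a (l 15791760) (l 15754120)) (c (l 15779888) (l 15762496))) (a (c (l 15761312) (b (l 15651816) (l 15691392))) (a (c (l 15715184) (l 15690136)) (l 15692560)))) (a (a (c (l 15763032) (l 15692680)) (c (l 15648928) (l 15691864))) (l 15685392)))) (b (l 15736944) (l 15678848)))))), by decide +kernel⟩

def k18_pp_022 : ∃ t, chk3 f_pp_022 t 8 40 3 = true :=
  ⟨(a (a (a (c (l 16238920) (c (l 16150600) (c (a (l 16274920) (l 16150360)) (b (l 16137120) (l 16168304))))) (c (b (l 16288000) (l 16169152)) (c (a (c (l 16284968) (l 16181008)) (l 16106328)) (l 16282032)))) (c (a (c (b (l 16381608) (l 16178952)) (a (c (l 16214144) (l 16121032)) (b (l 16369752) (l 16145640)))) (a (c (b (l 16285464) (l 16107184)) (l 16184696)) (b (c (l 16244912) (l 16303872)) (l 15985104)))) (b (l 16354688) (l 16173240)))) (b (a (a (l 16232720) (l 16209944)) (l 16182472)) (a (l 16076352) (l 16069432)))), by decide +kernel⟩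

def k19_pp_022 : ∃ t, chk3 f_pp_022 t 8 41 3 = true :=
  ⟨(a (b (a (c (a (l 16130840) (l 15963856)) (a (c (l 16129584) (a (c (l 16144080) (l 16057320)) (l 16018592))) (c (a (l 15869320) (l 16058016)) (l 16061736)))) (c (a (c (l 16002104) (a (l 15956248) (l 15989824))) (c (a (l 15925680) (l 15994304)) (l 15972400))) (l 15987192))) (a (b (c (a (l 15958264) (l 15813448)) (a (c (l 15954632) (a (c (l 15967632) (l 15963952)) (l 15884264))) (c (a (c (l 15913872) (l 15912608)) (l 15884552)) (l 15886368)))) (c (b (a (l 15862656) (l 15800720)) (a (l 15799456) (a (l 15749104) (a (l 15735048) (l 15703544))))) (b (a (c (l 15857680) (a (l 15762144) (l 15827816))) (c (a (l 15743512) (l 15786760)) (l 15787456))) (a (c (l 15793592) (a (c (l 15806432) (a (l 15811120) (l 15790992))) (c (l 15708008) (l 15769392)))) (c (a (c (l 15750472) (l 15748448)) (l 15643104)) (l 15725000)))))) (b (c (a (c (l 15867392) (a (l 15769976) (l 15861288))) (c (c (l 15812024) (l 15860360)) (l 15838416))) (l 15836776))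 (c (b (a (c (l 15783024) (c (l 15787256) (l 15775872))) (c (c (l 15793504) (l 15778544)) (l 15756016))) (a (c (a (l 15730640) (c (l 15742248) (l 15747080))) (c (a (l 15741768) (l 15730656)) (l 15638576))) (c (a (c (l 15751600) (l 15710088)) (c (l 15668088) (l 15703744))) (l 15701184)))) (b (l 15751280) (l 15696432)))))) (a (b (l 15952328) (b (l 15822392) (b (l 15736560) (c (l 15686728) (l 15670824))))) (b (l 15932008) (b (l 15803528) (b (l 15714136) (l 15654280)))))), by decide +kernel⟩

def k20_pp_022 : ∃ t, chk3 f_pp_022 t 9 20 1 = true :=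
  ⟨(b (a (a (c (b (a (l 16172536) (l 16186536)) (a (l 16068152) (l 16085984))) (b (a (l 16158560) (l 16172632)) (l 16059432))) (b (c (b (l 16307712) (l 16281000)) (b (l 16297736) (l 16270232))) (c (l 16068360) (l 16076176)))) (b (c (a (l 16407728) (l 16470088)) (a (l 16400760) (l 16465352))) (a (c (b (l 16379536) (l 16329992)) (b (l 16371896) (l 16321424))) (c (l 16436224) (l 16430736))))) (b (a (a (c (a (l 15939416) (l 15959696)) (l 15927032)) (c (l 16093624) (l 16075704))) (a (b (c (l 16304304) (l 16293936)) (c (l 16237696) (l 16224560))) (b (c (l 16363440) (l 16378080)) (c (a (l 16363768) (l 16405496)) (l 16313368))))) (b (a (a (c (a (l 15817048) (l 15838248)) (l 15800248)) (c (l 15973704) (l 15950872))) (c (a (l 16151552) (l 16301904)) (a (l 16134728) (l 16290240)))) (c (b (a (a (a (l 15728968) (l 15748888)) (l 15882704)) (a (l 16058872) (l 16208112))) (c (a (a (a (l 15678296) (l 15697104)) (l 15828664)) (a (l 16002168) (l 16149344))) (a (a (a (l 15661760) (l 15680592)) (l 15814232))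 (a (l 15990520) (l 16140064))))) (a (b (a (l 15707848) (l 15856008)) (a (a (l 15636256) (l 15655320)) (l 15771192))) (a (b (l 16037968) (l 15951736)) (b (l 16192152) (a (l 16102344) (l 16149232))))))))), by decide +kernel⟩

def k21_pp_022 : ∃ t, chk3 f_pp_022 t 4 21 1 = true :=
  ⟨(a (a (c (a (b (l 15528200) (l 15516024)) (c (b (l 15633680) (l 15486024)) (a (l 15560688) (c (l 15564216) (a (l 15575584) (l 15584608)))))) (a (c (a (l 15589296) (c (l 15562928) (l 15502032))) (a (c (l 15454864) (c (a (l 15580648) (l 15479400)) (b (l 15523040) (l 15477968)))) (c (a (c (l 15565376) (l 15562560)) (l 15557080)) (l 15545648)))) (c (a (c (l 15563384) (a (l 15420632) (l 15557736))) (c (a (l 15382464) (l 15452976)) (l 15529704))) (l 15524280)))) (c (a (c (c (l 15407688) (a (l 15574448) (b (l 15671784) (l 15518344)))) (a (c (b (l 15661808) (l 15508952)) (a (c (l 15587984) (l 15550872)) (l 15540208))) (c (a (c (l 15590552) (l 15545288)) (l 15535024)) (l 15518304)))) (c (a (c (b (l 15680408) (l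 15526600)) (a (c (l 15590584) (l 15540416)) (l 15530552))) (c (a (c (l 15588208) (l 15536240)) (l 15442864)) (l 15509752))) (l 15501848))) (a (c (l 15511584) (l 15492592)) (l 15472464)))) (a (a (c (a (b (l 15569888) (l 15410936)) (b (l 15587752) (l 15427536))) (b (l 15541480) (l 15375896))) (c (b (l 15718896) (l 15557128)) (b (l 15685696) (l 15517768)))) (c (a (b (l 15892312) (l 15729088)) (b (l 16039680) (l 15875704))) (a (b (l 15864616) (l 15695056)) (b (l 16016640) (l 15846168)))))), by decide +kernel⟩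

def k22_pp_022 : ∃ t, chk3 f_pp_022 t 5 40 1 = true :=
  ⟨(a (a (c (b (a (l 16496176) (l 16495200)) (a (l 16461880) (l 16460536))) (b (a (l 16490696) (l 16488736)) (a (l 16455608) (l 16453224)))) (c (b (c (a (l 16498040) (l 16501192)) (l 16474264)) (a (l 16461312) (c (l 16467112) (l 16462624)))) (b (c (l 16491328) (l 16487368)) (c (l 16435144) (l 16430728))))) (b (l 6) (a (c (a (c (l 16465808) (l 16504080)) (c (l 16639816) (l 16638496))) (a (c (l 16521336) (l 16517568)) (l 16573576))) (l 6)))), by decide +kernel⟩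

def k23_pp_022 : ∃ t, chk3 f_pp_022 t 10 41 1 = true :=
  ⟨(b (a (c (b (l 16437384) (a (l 16418768) (l 16423456))) (b (l 16430080) (a (l 16411464) (l 16415400)))) (c (a (b (l 16438376) (l 16424968)) (b (l 16449272) (l 16450080))) (a (l 16423392) (b (l 16439952) (l 16441128))))) (b (a (c (a (b (l 16392808) (l 16343328)) (b (l 16412512) (l 16385240))) (a (b (l 16384520) (l 16332696)) (b (l 16404240) (l 16375744)))) (c (a (l 16407992) (b (l 16453752) (l 16452560))) (a (l 16398536) (b (l 16445232) (l 16444072))))) (b (a (c (b (l 16302832) (l 16285232)) (b (l 16311800) (l 16271360))) (a (c (b (l 16382240) (l 16358904)) (b (l 16371688) (l 16347208))) (c (b (l 16449472) (l 16447520)) (b (l 16440864) (l 16438840))))) (a (c (a (l 16188768) (l 16263808)) (c (l 16224920) (l 16216736))) (a (c (l 16253032) (l 16302128)) (b (c (b (b (l 16443912) (b (l 16438056) (c (l 16305040) (l 16363152)))) (l 16424280)) (b (b (l 16435040) (b (l 16428856) (a (l 16372192) (l 16423816)))) (l 16414320))) (c (l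 16423320) (l 16413312)))))))), by decide +kernel⟩

def k24_pp_022 : ∃ t, chk3 f_pp_022 t 11 41 1 = true :=
  ⟨(a (b (c (c (b (l 16555672) (l 16575120)) (l 16438880)) (c (l 16458464) (l 16457056))) (b (c (a (l 16545640) (l 16560680)) (b (l 16518648) (l 16527816))) (b (c (a (l 16528296) (l 16547248)) (c (l 16541552) (l 16540520))) (c (b (b (b (l 16580840) (b (l 16557704) (a (a (l 16493232) (l 16628464)) (l 16558760)))) (l 16537832)) (l 16541784)) (b (b (b (l 16578688) (b (l 16576440) (a (l 16505120) (l 16574944)))) (l 16556616)) (l 16560728)))))) (a (b (c (c (l 16535616) (l 16553680)) (b (l 16614248) (l 16571064))) (b (c (b (l 16544200) (l 16530960)) (c (l 16530280) (l 16526200))) (b (c (b (l 16524760) (l 16518576)) (c (l 16513624) (l 16509248))) (c (b (b (b (l 16513680) (b (l 16510608) (a (l 16523824) (l 16492440)))) (l 16508376)) (l 16512872)) (b (b (b (l 16504840) (b (l 16501664) (l 16498944))) (l 16499352)) (l 16504000)))))) (b (a (c (l 16547248) (l 16582592)) (l 6)) (b (c (l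 16512816) (l 16525240)) (b (c (l 16493016) (l 16504744)) (c (b (b (b (l 16505784) (b (l 16502088) (l 16498936))) (l 16499040)) (l 16503432)) (b (b (b (l 16496256) (b (l 16492432) (l 16489168))) (l 16489280)) (l 16493824)))))))), by decide +kernel⟩

def k25_pp_022 : ∃ t, chk3 f_pp_022 t 5 21 1 = true :=
  ⟨(a (a (b (c (a (l 16104192) (l 16158744)) (a (l 16082936) (l 16138968))) (c (a (l 15940656) (b (l 16054224) (l 16010984))) (a (l 15912808) (l 15926464)))) (b (c (a (b (l 16267704) (l 16227688)) (l 16299552)) (a (l 16132184) (l 16351544))) (c (a (l 16193800) (l 16359600)) (a (l 16174656) (l 16346432))))) (a (c (b (a (l 16561352) (l 16632376)) (l 16460880)) (c (l 16399256) (l 16397512))) (c (a (c (l 16542936) (l 16540160)) (b (l 16551184) (l 16630832))) (a (c (l 16558320) (l 16597408)) (l 16544336))))), by decide +kernel⟩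

def k26_pp_022 : ∃ t, chk3 f_pp_022 t 4 11 1 = true :=
  ⟨(a (a (c (b (a (l 15152608) (c (l 15244464) (a (l 15240424) (c (l 15241416) (l 15240072))))) (a (l 14931232) (c (l 14903032) (a (l 14891632) (l 14888080))))) (b (a (c (a (l 15260320) (l 15220104)) (a (c (l 15247360) (a (l 15135256) (l 15223360))) (c (a (l 15124552) (l 15230064)) (l 15215392)))) (c (a (c (l 15238776) (c (l 15239384) (l 15225560))) (b (l 15118464) (l 15131720))) (l 15190096))) (a (c (l 14811184) (a (c (l 14884576) (a (l 14873728) (l 14857376))) (c (a (l 14867312) (l 14868480)) (l 14850088)))) (c (a (c (l 14884904) (l 14872696)) (c (l 14878616) (l 14842080))) (l 14828248))))) (c (b (a (c (a (l 15246400) (c (l 15265592) (l 15269568))) (a (c (l 15260144) (a (l 15245304) (l 15209944))) (c (c (l 15160544) (l 15205784)) (l 15185560)))) (c (a (c (l 15152360) (a (l 15142152) (l 15200440))) (c (a (l 15100240) (l 15197376)) (l 15177776))) (l 15166320))) (a (c (c (l 14916816) (a (l 14910288) (l 14930632))) (c (a (l 14916040)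 (l 14890752)) (a (l 14884624) (l 14839832)))) (c (c (a (l 14944608) (l 14756600)) (a (l 14813120) (l 14842984))) (l 14825312)))) (b (c (l 15157352) (l 15131680)) (c (l 14807360) (l 14774744))))) (a (b (c (a (a (l 15155672) (l 15171056)) (b (l 15387240) (l 15210144))) (a (b (l 15200928) (l 15017472)) (l 15165768))) (a (c (a (l 14821552) (l 14839936)) (l 14763752)) (c (b (l 15044048) (l 14946272)) (b (l 14983888) (l 14882024))))) (b (c (a (b (l 15558488) (l 15381928)) (b (l 15705608) (l 15488608))) (a (b (l 15517608) (l 15333776)) (b (l 15669152) (l 15530480)))) (c (a (b (l 15261536) (l 15234864)) (l 15520304)) (a (b (l 15208344) (l 15180552)) (l 15476032)))))), by decide +kernel⟩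

def k27_pp_022 : ∃ t, chk3 f_pp_022 t 5 11 1 = true :=
  ⟨(a (b (a (c (b (a (l 15684904) (l 15973960)) (l 15837312)) (b (a (l 15777520) (l 15946480)) (l 15804504))) (c (b (l 16230520) (l 16189272)) (b (l 16212096) (l 16168840)))) (c (a (l 15812048) (l 16168968)) (a (l 15778056) (l 16147544)))) (a (b (c (a (l 16453024) (l 16608544)) (a (l 16442128) (l 16603152))) (c (l 16501600) (l 16491888))) (c (b (a (l 16721312) (l 16726152)) (l 16754600)) (b (a (l 16720728) (l 16724360)) (l 16753808))))), by decide +kernel⟩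

def k28_pp_022 : ∃ t, chk3 f_pp_022 t 3 5 1 = true :=
  ⟨(a (a (b (a (b (b (l 6) (b (l 6) (b (c (c (l 16573360) (l 16569800)) (c (l 16566192) (l 16562528))) (b (a (c (l 16535120) (l 16526624)) (l 6)) (b (a (c (b (b (l 16524952) (b (l 16520608) (l 16516896))) (l 16516680)) (b (b (l 16516096) (b (l 16511600) (l 16507760))) (l 16507536))) (l 6)) (c (l 16529704) (l 16521016))))))) (c (b (l 16553280) (l 16647616)) (c (l 16608448) (l 16605512)))) (b (l 6) (c (c (l 16619984) (l 16617608)) (c (l 16636168) (l 16633720))))) (c (b (c (l 16738584) (l 16737904)) (l 16777176)) (b (c (l 16737224) (l 16736528)) (c (l 16777176) (l 16777176))))) (a (b (b (l 6) (c (c (l 16626456) (l 16645536)) (c (l 16643608) (l 16662624)))) (b (c (l 16752936) (l 16752088)) (l 2))) (b (b (l 6) (b (l 6) (l 2))) (l 2)))) (b (b (l 6) (l 2)) (l 2))), by decide +kernel⟩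

def k29_pp_022 : ∃ t, chk3 f_pp_022 t 4 3 1 = true :=
  ⟨(a (b (a (c (b (a (b (l 14598680) (l 14293008)) (b (c (l 14586664) (l 14570288)) (c (l 14325776) (a (l 14276808) (l 14310584))))) (a (b (l 14115272) (l 14097888)) (c (l 14245512) (l 14221496)))) (b (a (c (b (l 14552264) (l 14236536)) (a (c (l 14366696) (b (l 14512512) (l 14184520))) (b (l 14347800) (l 14175464)))) (c (a (c (l 14235800) (b (l 14538064) (l 14241528))) (b (l 14539880) (l 14276448))) (b (l 14491824) (l 14213392)))) (a (c (l 13877600) (a (c (l 13977032) (l 13950224)) (l 14009488))) (c (c (l 14060048) (l 14166544)) (l 14127464))))) (c (b (a (c (b (b (l 14674616) (l 14529920)) (b (l 14433744) (l 14407656))) (b (c (a (l 14604392) (l 14585968)) (l 14556960)) (a (c (l 14391880) (l 14354880)) (l 14415408)))) (b (c (a (c (l 14662816) (l 14612232)) (b (l 14677072) (l 14596048))) (l 14558008)) (c (c (l 14579520) (l 14538280)) (l 14475664)))) (c (a (l 14407656) (c (l 14579520) (l 14538280))) (a (c (l 14394232) (l 14358000))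 (l 14475664)))) (b (b (a (l 14488984) (l 14500288)) (a (l 14302792) (l 14415232))) (l 14350976)))) (a (c (b (c (l 14184888) (l 14149840)) (l 14169840)) (c (a (l 14034608) (b (l 14165704) (l 14165704))) (a (b (l 13981696) (l 13981696)) (l 14127464)))) (c (a (c (l 14407656) (b (l 14371352) (l 14371352))) (b (l 14505920) (l 14526896))) (l 14350976)))) (b (a (b (c (a (b (b (l 14653072) (l 14626616)) (l 14626616)) (l 14919768)) (b (a (l 14577328) (l 14854400)) (l 14707832))) (c (a (l 14626616) (l 14919768)) (l 14707832))) (b (c (b (l 15378688) (l 15378688)) (b (l 15329432) (l 15329432))) (c (l 15378688) (l 15329432)))) (a (c (b (l 14602832) (l 14728656)) (b (l 14707832) (l 14707832))) (b (c (l 15378688) (l 15329432)) (l 2))))), by decide +kernel⟩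

def k30_pp_022 : ∃ t, chk3 f_pp_022 t 5 3 1 = true :=
  ⟨(b (a (c (b (a (l 15811992) (l 16168920)) (l 15762808)) (b (a (l 15777984) (l 16147496)) (l 15840056))) (b (a (c (l 16501568) (l 16491856)) (c (l 16754576) (l 16753784))) (a (c (l 16501568) (l 16491856)) (l 2)))) (a (b (c (a (l 15811992) (l 2)) (l 114988912487)) (l 2)) (l 2))), by decide +kernel⟩

def k31_pp_022 : ∃ t, chk3 f_pp_022 t 3 3 1 = true :=
  ⟨(b (b (a (a (a (c (l 16777216) (l 16777216)) (l 2)) (l 2)) (l 2)) (l 2)) (l 2)), by decide +kernel⟩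

theorem s32_pp_022 : ∃ t, chk3 f_pp_022 t 2 3 1 = true := ex3_a k29_pp_022 k30_pp_022

theorem s33_pp_022 : ∃ t, chk3 f_pp_022 t 1 3 1 = true := ex3_a s32_pp_022 k31_pp_022

theorem s34_pp_022 : ∃ t, chk3 f_pp_022 t 2 11 1 = true := ex3_a k26_pp_022 k27_pp_022

theorem s35_pp_022 : ∃ t, chk3 f_pp_022 t 5 41 1 = true := ex3_a k23_pp_022 k24_pp_022

theorem s36_pp_022 : ∃ t, chk3 f_pp_022 t 5 20 1 = true := ex3_b k22_pp_022 s35_pp_022

theorem s37_pp_022 : ∃ t, chk3 f_pp_022 t 5 10 1 = true := ex3_b s36_pp_022 k25_pp_022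

theorem s38_pp_022 : ∃ t, chk3 f_pp_022 t 8 20 3 = true := ex3_b k18_pp_022 k19_pp_022

theorem s39_pp_022 : ∃ t, chk3 f_pp_022 t 8 41 2 = true := ex3_a k16_pp_022 k17_pp_022

theorem s40_pp_022 : ∃ t, chk3 f_pp_022 t 8 20 2 = true := ex3_b k15_pp_022 s39_pp_022

theorem s41_pp_022 : ∃ t, chk3 f_pp_022 t 8 20 1 = true := ex3_c s40_pp_022 s38_pp_022

theorem s42_pp_022 : ∃ t, chk3 f_pp_022 t 4 20 1 = true := ex3_a s41_pp_022 k20_pp_022

theorem s43_pp_022 : ∃ t, chk3 f_pp_022 t 4 10 1 = true := ex3_b s42_pp_022 k21_pp_022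

theorem s44_pp_022 : ∃ t, chk3 f_pp_022 t 2 10 1 = true := ex3_a s43_pp_022 s37_pp_022

theorem s45_pp_022 : ∃ t, chk3 f_pp_022 t 2 5 1 = true := ex3_b s44_pp_022 s34_pp_022

theorem s46_pp_022 : ∃ t, chk3 f_pp_022 t 1 5 1 = true := ex3_a s45_pp_022 k28_pp_022

theorem s47_pp_022 : ∃ t, chk3 f_pp_022 t 17 19 1 = true := ex3_b k10_pp_022 k11_pp_022

theorem s48_pp_022 : ∃ t, chk3 f_pp_022 t 16 19 1 = true := ex3_c k8_pp_022 k9_pp_022

theorem s49_pp_022 : ∃ t, chk3 f_pp_022 t 8 19 1 = true := ex3_a s48_pp_022 s47_pp_022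

theorem s50_pp_022 : ∃ t, chk3 f_pp_022 t 4 19 1 = true := ex3_a s49_pp_022 k12_pp_022

theorem s51_pp_022 : ∃ t, chk3 f_pp_022 t 8 37 1 = true := ex3_a k5_pp_022 k6_pp_022

theorem s52_pp_022 : ∃ t, chk3 f_pp_022 t 4 37 1 = true := ex3_a s51_pp_022 k7_pp_022

theorem s53_pp_022 : ∃ t, chk3 f_pp_022 t 16 36 1 = true := ex3_a k1_pp_022 k2_pp_022

theorem s54_pp_022 : ∃ t, chk3 f_pp_022 t 8 36 1 = true := ex3_a s53_pp_022 k3_pp_022

theorem s55_pp_022 : ∃ t, chk3 f_pp_022 t 4 36 1 = true := ex3_a s54_pp_022 k4_pp_022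

theorem s56_pp_022 : ∃ t, chk3 f_pp_022 t 4 18 1 = true := ex3_b s55_pp_022 s52_pp_022

theorem s57_pp_022 : ∃ t, chk3 f_pp_022 t 4 9 1 = true := ex3_b s56_pp_022 s50_pp_022

theorem s58_pp_022 : ∃ t, chk3 f_pp_022 t 2 9 1 = true := ex3_a s57_pp_022 k13_pp_022

theorem s59_pp_022 : ∃ t, chk3 f_pp_022 t 2 4 1 = true := ex3_b k0_pp_022 s58_pp_022

theorem s60_pp_022 : ∃ t, chk3 f_pp_022 t 1 4 1 = true := ex3_a s59_pp_022 k14_pp_022

theorem s61_pp_022 : ∃ t, chk3 f_pp_022 t 1 2 1 = true := ex3_b s60_pp_022 s46_pp_022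

theorem s62_pp_022 : ∃ t, chk3 f_pp_022 t 1 1 1 = true := ex3_b s61_pp_022 s33_pp_022

theorem c_pp_022 : CertNX 0 536870912 1073741824 536870912 1046898278 26843546 3 false true true .pp 0 2 2
    ndN0q0 ndN7q2 pcN2 cut_pp_022 Ext.none :=
  certNX1 (fam := false) (s1 := true) (s2 := true) (a := 0) (b := 2) (c := 2) (cn := .pp) (n1 := ndN0q0) (n2 := ndN7q2) (pc := pcN2) (cut := cut_pp_022) (xt := Ext.none) (P1 := 0) (W1 := 536870912) (P2 := 1073741824) (W2 := 536870912) (P3 := 1046898278) (W3 := 26843546) (N0 := 3)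
    rfl (fun _ => rfl) s62_pp_022

noncomputable def f_pp_023 : ℕ → ℕ → ℕ → ℕ → Bool := onCell 1073741824 536870912 0 1230186008 1046898278 26843546
    (rowNX 3 2 false true true .up 0 2 3 (qsf 0 536870912 0 1230186008 2) ndN0q0 ndN7q3 pcN2 Cut.none Ext.none)

def k0_pp_023 : ∃ t, chk3 f_pp_023 t 4 1 1 = true :=
  ⟨(b (l 2) (b (l 2) (b (l 2) (l 3)))), by decide +kernel⟩

def k1_pp_023 : ∃ t, chk3 f_pp_023 t 5 2 1 = true :=
  ⟨(l 2), by decide +kernel⟩

def k2_pp_023 : ∃ t, chk3 f_pp_023 t 10 6 1 = true :=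
  ⟨(l 2), by decide +kernel⟩

def k3_pp_023 : ∃ t, chk3 f_pp_023 t 40 7 1 = true :=
  ⟨(b (l 3) (b (l 3) (a (b (l 3) (b (l 3) (c (a (l 3) (c (l 594483871223) (l 556902907383))) (c (l 596631354375) (l 574082776071))))) (a (b (l 3) (c (c (b (l 560661003639) (l 16776976)) (b (l 520932556071) (l 16776976))) (c (b (l 16777176) (l 16776968)) (l 342691412343)))) (c (b (c (b (l 748565823319) (l 491404655831)) (b (l 736754663255) (l 16777136))) (c (c (l 16776808) (l 16776808)) (c (l 16776800) (l 16776800)))) (b (c (b (l 16777216) (l 16777136)) (l 448991853495)) (c (c (l 16776792) (l 16776792)) (l 16776784)))))))), by decide +kernel⟩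

def k4_pp_023 : ∃ t, chk3 f_pp_023 t 82 7 1 = true :=
  ⟨(b (l 3) (b (b (a (l 3) (a (a (l 3) (l 3)) (c (c (b (l 952576769975) (l 16777192)) (b (l 16777216) (l 16777192))) (c (l 625085513367) (l 16777200))))) (a (b (l 3) (c (c (l 635286060503) (l 583746452951)) (c (l 16777184) (l 16777184)))) (c (c (a (b (l 16777184) (l 16777104)) (l 16777088)) (a (l 16777136) (l 16777080))) (c (a (l 16777136) (l 16777080)) (a (l 16777136) (l 16777080)))))) (c (a (b (c (c (l 16777008) (l 16777008)) (c (l 16777000) (l 16777000))) (c (c (l 16776656) (l 16776656)) (c (l 16776648) (l 16776640)))) (b (c (c (l 16776912) (l 16776912)) (c (l 16776904) (l 16776904))) (c (a (l 16776144) (b (l 16776792) (a (l 16773376) (l 16768128)))) (a (l 16776128) (b (l 16776784) (a (l 16773304) (l 16767968))))))) (a (b (c (c (l 16777000) (l 16777000)) (l 16776992)) (c (l 16776632) (l 16776624))) (b (c (c (l 16776904) (l 16776896)) (c (l 16776896) (l 16776896))) (c (a (l 16776104) (b (l 16776776) (l 16768960))) (a (l 16776088)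 (b (l 16776768) (l 16768816))))))))), by decide +kernel⟩

def k5_pp_023 : ∃ t, chk3 f_pp_023 t 83 14 1 = true :=
  ⟨(b (l 2) (b (l 2) (a (c (c (a (c (l 974051606439) (l 971367251879)) (c (l 88147492711) (l 16777200))) (a (l 964387930023) (c (l 16777200) (l 16777200)))) (c (a (l 945060577111) (c (l 16777200) (l 16777200))) (a (l 883857293143) (c (l 16777200) (l 16777192))))) (a (a (c (c (l 16777200) (l 16777200)) (c (l 16777200) (l 16777200))) (c (c (c (l 16777208) (l 16777208)) (c (l 16777208) (l 16777208))) (c (c (l 16777208) (l 16777208)) (b (l 16777208) (l 16777208))))) (a (a (a (c (c (l 16777216) (l 16777216)) (c (l 16777216) (l 16777216))) (a (c (c (l 16777216) (l 16777216)) (c (l 16777216) (l 16777216))) (a (a (c (c (l 16777216) (l 16777216)) (c (l 16777216) (l 16777216))) (c (c (c (l 16777216) (l 16777216)) (c (l 16777216) (l 16777216))) (c (l 16777216) (l 16777216)))) (c (c (l 16777216) (l 16777216)) (c (l 16777216) (l 16777216)))))) (c (c (l 16777216) (l 16777216)) (c (l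 16777216) (l 16777216)))) (c (c (l 16777216) (l 16777216)) (l 10301210631))))))), by decide +kernel⟩

def k6_pp_023 : ∃ t, chk3 f_pp_023 t 166 30 1 = true :=
  ⟨(c (b (c (a (c (l 16777168) (l 16777168)) (c (l 16777152) (l 16777152))) (a (c (l 16777168) (l 16777168)) (c (l 16777152) (l 16777152)))) (c (a (l 16777072) (c (l 16777104) (l 16777104))) (a (l 16777064) (c (l 16777104) (l 16777104))))) (b (c (a (c (l 16777168) (l 16777168)) (l 16777152)) (a (l 16777160) (l 16777152))) (c (a (l 16777064) (l 16777096)) (a (l 16777064) (l 16777096))))), by decide +kernel⟩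

def k7_pp_023 : ∃ t, chk3 f_pp_023 t 167 30 1 = true :=
  ⟨(b (a (a (c (c (l 16777176) (l 16777176)) (c (l 16777176) (l 16777176))) (a (c (c (l 16777200) (l 16777200)) (c (l 16777200) (l 16777200))) (c (c (l 16777216) (l 16777216)) (c (l 16777216) (l 16777216))))) (a (a (a (c (c (b (l 16777216) (l 16775280)) (b (l 16777216) (l 16775240))) (c (b (l 16777216) (l 16775208)) (l 16775032))) (a (c (c (b (l 16777216) (b (l 16774960) (l 16769096))) (b (l 16777216) (l 16771416))) (c (b (l 16777216) (l 16771312)) (b (l 16777216) (l 16771216)))) (a (a (c (c (b (l 16776056) (l 16765440)) (b (l 16776032) (l 16765232))) (c (b (l 16776016) (l 16765024)) (l 16770008))) (c (b (c (c (l 16775072) (l 16775056)) (b (l 16777216) (l 16774472))) (l 16759616)) (b (c (b (l 16777216) (l 16774424)) (l 16774952)) (l 16759000)))) (c (b (l 16774968) (l 16757384)) (c (l 16766880) (l 16766704)))))) (c (b (l 16775000) (l 16757632)) (c (l 16767016) (l 16766840)))) (c (b (l 16775128) (l 16758296)) (c (l 16767392)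 (l 16767224))))) (a (a (c (c (b (l 16777160) (l 16775144)) (c (l 16774920) (l 16774904))) (c (c (l 16774880) (l 16774864)) (l 16774832))) (a (c (c (b (l 16777192) (l 16771040)) (b (l 16777192) (l 16770928))) (c (b (l 16777192) (l 16770824)) (l 16771688))) (c (c (b (a (l 16775680) (l 16772872)) (l 16758440)) (b (l 16773016) (l 16758112))) (c (b (l 16772944) (l 16757776)) (b (l 16772864) (l 16757440)))))) (a (a (a (c (b (c (l 16765280) (l 16765072)) (l 16741960)) (c (l 16711680) (l 16732248))) (c (c (b (l 16747056) (l 16725440)) (l 16714552)) (c (l 16713824) (l 16734064)))) (c (c (l 16726592) (l 16725712)) (l 16724360))) (c (c (l 16727600) (l 16726736)) (l 16725408))))), by decide +kernel⟩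

def k8_pp_023 : ∃ t, chk3 f_pp_023 t 83 31 1 = true :=
  ⟨(c (a (b (a (c (l 16776968) (l 16776960)) (c (b (a (l 16777040) (l 16774664)) (a (l 16772688) (l 16763128))) (b (a (l 16777040) (l 16774624)) (a (l 16772608) (l 16762888))))) (a (c (b (a (l 16773808) (l 16767856)) (l 16745376)) (b (a (l 16773752) (l 16767688)) (l 16747488))) (b (a (c (l 16753064) (l 16752640)) (l 16734136)) (l 16712696)))) (a (b (b (a (c (b (l 16771472) (l 16762696)) (b (l 16771376) (l 16762440))) (l 16740224)) (a (l 16741488) (l 16715368))) (c (l 16644720) (l 16664112))) (a (a (a (b (c (l 16707832) (l 16706624)) (c (l 16661240) (l 16659216))) (b (c (b (l 16703664) (l 16681704)) (b (l 16702384) (l 16680040))) (c (b (l 16659544) (l 16637152)) (b (l 16657488) (l 16634712))))) (b (c (l 16684480) (l 16682864)) (c (l 16641616) (l 16639248)))) (b (c (l 16685960) (l 16684368)) (c (l 16643576) (l 16641248)))))) (a (b (a (c (l 16776952) (l 16776952)) (c (b (a (l 16777040) (l 16774576)) (a (l 16772528) (l 16762640)))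 (b (l 16774104) (a (l 16772440) (l 16762384))))) (a (c (b (a (l 16773688) (l 16767528)) (l 16746968)) (b (l 16768656) (l 16746440))) (a (c (l 16736424) (l 16735712)) (l 16675536)))) (b (a (b (a (c (l 16766112) (l 16765920)) (l 16738920)) (l 16702112)) (a (a (a (l 16704768) (c (l 16668728) (l 16688176))) (l 16680384)) (l 16681936))) (a (c (l 16683480) (l 16681856)) (a (a (a (l 16656120) (c (b (l 16655408) (l 16632232)) (l 16641480))) (l 16635632)) (l 16637680)))))), by decide +kernel⟩

def k9_pp_023 : ∃ t, chk3 f_pp_023 t 21 7 1 = true :=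
  ⟨(b (b (b (l 2) (c (l 445703520263) (l 453219713031))) (c (c (b (l 16777216) (l 16777216)) (b (l 16777216) (l 16777216))) (c (b (l 16777216) (l 16777216)) (b (l 16777216) (l 16777216))))) (b (c (b (c (b (l 16775808) (l 16769768)) (b (l 16775784) (l 16769640))) (c (l 16746744) (l 16746216))) (b (c (b (l 16775752) (l 16769512)) (b (l 16775728) (l 16769376))) (c (l 16745672) (l 16745128)))) (c (b (c (l 16694584) (l 16714480)) (c (l 16662840) (l 16682176))) (b (c (l 16713392) (l 16712280)) (c (l 16680528) (l 16678848)))))), by decide +kernel⟩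

def k10_pp_023 : ∃ t, chk3 f_pp_023 t 11 3 1 = true :=
  ⟨(b (a (l 2) (b (l 2) (b (l 2) (c (l 16777216) (l 16777216))))) (b (b (b (c (l 388795203591) (l 353898594311)) (c (c (l 16777216) (l 16777216)) (a (l 16777216) (l 16777216)))) (c (c (a (l 16777216) (l 16777216)) (a (l 16777216) (l 16777216))) (c (l 16777216) (l 16777216)))) (b (c (b (c (l 16776832) (l 16776824)) (a (l 16770760) (l 16777208))) (b (a (l 16776472) (l 16777216)) (a (l 16770528) (l 16777208)))) (c (a (b (l 16759624) (l 16748424)) (c (l 16777184) (l 16777184))) (a (b (l 16759000) (l 16726440)) (c (l 16777184) (l 16777184))))))), by decide +kernel⟩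

def k11_pp_023 : ∃ t, chk3 f_pp_023 t 6 1 1 = true :=
  ⟨(b (l 2) (b (b (a (l 2) (c (l 16777216) (l 16777216))) (c (b (a (l 16777216) (l 16777216)) (a (l 16777216) (l 16777216))) (b (l 300211503111) (a (l 16777216) (l 16777216))))) (b (c (b (a (l 16777216) (l 16777216)) (a (c (l 16777216) (l 16777216)) (l 16777216))) (b (a (l 16777216) (l 16777216)) (a (l 16777216) (l 16777216)))) (b (a (c (b (l 16777216) (l 16777216)) (b (l 16777216) (l 16777216))) (b (c (l 16775936) (l 16775888)) (a (l 16774808) (c (l 16673376) (l 16669720))))) (a (b (c (l 16774184) (l 16774080)) (a (c (l 16766800) (l 16766432)) (c (l 16640344) (l 16614552)))) (b (a (c (l 16662848) (l 16658824)) (l 16284304)) (c (l 16004120) (l 15983536)))))))), by decide +kernel⟩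

def k12_pp_023 : ∃ t, chk3 f_pp_023 t 7 1 1 = true :=
  ⟨(b (b (a (l 2) (b (l 16688176) (l 16657680))) (b (a (b (l 2) (l 16777216)) (l 16716936)) (c (l 16777216) (l 16777216)))) (b (b (c (b (l 16777216) (l 16777216)) (b (l 16777216) (l 16777216))) (b (c (l 16777216) (l 16777216)) (c (l 16777216) (l 16777216)))) (b (b (a (c (l 16777216) (l 16777216)) (b (l 16758280) (a (l 16762896) (l 16606104)))) (a (b (l 16773112) (a (l 16774160) (l 16662176))) (b (c (l 16496112) (l 16486208)) (l 15959160)))) (b (a (b (c (l 16535168) (l 16526640)) (a (l 16341632) (l 16059120))) (b (a (l 16055944) (l 15673648)) (a (l 15676448) (l 15155152)))) (a (b (a (l 16042592) (l 15655072)) (a (l 15417904) (c (b (l 15285968) (l 14851584)) (l 15049240)))) (b (a (l 14984400) (c (b (l 14565784) (a (l 14641784) (l 14302392))) (l 14608936))) (a (c (b (a (l 14836888) (l 14623328)) (a (l 14600632) (c (l 14463592) (l 14430408)))) (l 14663680)) (c (b (a (c (l 14477832) (l 14448832)) (c (l 14358024) (l 14297056))) (c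 (l 14271400) (a (l 14283672) (l 14159816)))) (b (l 14277904) (a (l 14183016) (c (l 14108000) (l 14049712)))))))))))), by decide +kernel⟩

theorem s13_pp_023 : ∃ t, chk3 f_pp_023 t 3 1 1 = true := ex3_a k11_pp_023 k12_pp_023

theorem s14_pp_023 : ∃ t, chk3 f_pp_023 t 83 30 1 = true := ex3_a k6_pp_023 k7_pp_023

theorem s15_pp_023 : ∃ t, chk3 f_pp_023 t 83 15 1 = true := ex3_b s14_pp_023 k8_pp_023

theorem s16_pp_023 : ∃ t, chk3 f_pp_023 t 83 7 1 = true := ex3_b k5_pp_023 s15_pp_023

theorem s17_pp_023 : ∃ t, chk3 f_pp_023 t 41 7 1 = true := ex3_a k4_pp_023 s16_pp_023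

theorem s18_pp_023 : ∃ t, chk3 f_pp_023 t 20 7 1 = true := ex3_a k3_pp_023 s17_pp_023

theorem s19_pp_023 : ∃ t, chk3 f_pp_023 t 10 7 1 = true := ex3_a s18_pp_023 k9_pp_023

theorem s20_pp_023 : ∃ t, chk3 f_pp_023 t 10 3 1 = true := ex3_b k2_pp_023 s19_pp_023

theorem s21_pp_023 : ∃ t, chk3 f_pp_023 t 5 3 1 = true := ex3_a s20_pp_023 k10_pp_023

theorem s22_pp_023 : ∃ t, chk3 f_pp_023 t 5 1 1 = true := ex3_b k1_pp_023 s21_pp_023

theorem s23_pp_023 : ∃ t, chk3 f_pp_023 t 2 1 1 = true := ex3_a k0_pp_023 s22_pp_023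

theorem s24_pp_023 : ∃ t, chk3 f_pp_023 t 1 1 1 = true := ex3_a s23_pp_023 s13_pp_023

theorem c_pp_023 : CertNX 0 536870912 0 1230186008 1046898278 26843546 3 false true true .up 0 2 3
    ndN0q0 ndN7q3 pcN2 Cut.none Ext.none :=
  certNX2 (fam := false) (s1 := true) (s2 := true) (a := 0) (b := 2) (c := 3) (cn := .up) (n1 := ndN0q0) (n2 := ndN7q3) (pc := pcN2) (cut := Cut.none) (xt := Ext.none) (P1 := 0) (W1 := 536870912) (P2 := 0) (W2 := 1230186008) (P3 := 1046898278) (W3 := 26843546) (N0 := 3)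
    rfl (fun _ => rfl) s24_pp_023

noncomputable def f_pp_033 : ℕ → ℕ → ℕ → ℕ → Bool := onCell 0 536870912 0 1230186008 1046898278 26843546
    (rowNX 3 0 false true true .pnn 0 3 3 (qsf 0 536870912 0 1230186008 3) ndN0q0 ndN7q3 pcN3 Cut.none Ext.none)

def k0_pp_033 : ∃ t, chk3 f_pp_033 t 2 2 1 = true :=
  ⟨(a (b (l 4) (a (b (b (l 4) (a (l 4) (c (a (l 4) (l 14527304)) (l 14351272)))) (a (c (b (a (l 14093304) (l 14233016)) (b (l 14169184) (l 14169840))) (b (a (c (l 14027032) (a (l 13935664) (l 14000088))) (c (l 14164040) (l 14125184))) (a (c (l 14035000) (b (l 13980072) (l 13981728))) (l 14117504)))) (c (b (a (c (l 14407680) (l 14371328)) (l 14526896)) (a (c (l 14407648) (l 14371336)) (l 14526888))) (b (l 14350928) (l 14350968))))) (a (b (b (l 4) (a (l 14589296) (l 14887048))) (b (c (l 14728672) (l 14707840)) (l 14546680))) (b (c (l 15372272) (l 15314688)) (b (l 15354024) (l 15354016)))))) (b (a (b (l 4) (c (l 15879656) (l 15747904))) (b (c (l 162368964039) (l 169885116135)) (c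 (l 16383792) (a (l 16381288) (l 16633088))))) (a (b (c (b (l 15981960) (l 15993504)) (b (l 15939184) (l 15965896))) (b (a (l 15794952) (l 16158184)) (l 15979656))) (b (b (a (l 16472768) (l 16722488)) (l 16523096)) (a (l 16496704) (l 16754176)))))), by decide +kernel⟩

def k1_pp_033 : ∃ t, chk3 f_pp_033 t 2 3 1 = true :=
  ⟨(b (a (a (b (a (c (b (a (l 14097856) (l 14233720)) (l 14169800)) (b (a (c (l 14034560) (l 13981648)) (l 14117472)) (a (c (l 14034544) (l 13981632)) (l 14117480)))) (c (c (a (l 14407640) (l 14555328)) (b (l 14422464) (l 14422472))) (l 14350952))) (a (c (b (l 14169832) (l 14169840)) (c (a (l 14034600) (l 14165704)) (b (l 13852184) (l 13894136)))) (c (c (a (l 14407656) (l 14555336)) (l 14380544)) (l 14350976)))) (b (a (b (l 14693472) (l 14630560)) (l 15186240)) (a (c (l 14644768) (l 14707832)) (b (l 15354008) (l 15354008))))) (b (a (b (l 15979656) (l 15979656)) (c (l 16588600) (l 16541488))) (a (b (l 15979656) (l 15979656)) (b (l 16627952) (l 16627952))))) (a (a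 (b (c (a (l 14085960) (c (a (l 14407656) (l 14555336)) (a (l 14371352) (l 14475664)))) (a (a (c (l 14034608) (b (l 13981696) (l 13981696))) (b (l 14117520) (l 14117520))) (l 14350976))) (c (a (b (l 14169840) (l 14169840)) (b (c (l 14373296) (l 14422488)) (c (l 299065509047) (l 14422488)))) (a (a (c (l 14034608) (a (l 13948408) (l 14007128))) (b (l 14117520) (l 14117520))) (l 14350976)))) (b (c (a (b (l 14728656) (l 14728656)) (l 15378688)) (b (l 15013328) (l 15013328))) (c (a (b (l 14728656) (l 14728656)) (l 322152801255)) (b (l 15013328) (l 260948786567))))) (b (a (b (l 15937712) (c (l 15993496) (l 15965880))) (b (c (l 16630544) (l 16625376)) (l 1))) (a (b (l 235717786375) (l 1)) (l 1))))), by decide +kernel⟩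

def k2_pp_033 : ∃ t, chk3 f_pp_033 t 3 1 1 = true :=
  ⟨(b (b (b (a (c (a (l 16689552) (l 16689552)) (a (l 16687512) (l 16687512))) (a (l 16688176) (l 16688176))) (a (a (b (l 16648912) (l 16677568)) (l 16636704)) (a (l 16657680) (l 16657680)))) (a (b (a (b (l 16743968) (l 16777216)) (l 16758880)) (a (l 16777216) (c (l 16777216) (l 16777216)))) (b (c (l 16759192) (l 16758560)) (c (l 16777216) (l 16777216))))) (b (a (b (c (b (l 16777216) (l 16777216)) (b (l 16777216) (l 16777216))) (b (a (l 16777216) (l 16777216)) (l 251826012167))) (b (c (l 225519337479) (l 204581371911)) (l 1))) (l 1))), by decide +kernel⟩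

theorem s3_pp_033 : ∃ t, chk3 f_pp_033 t 2 1 1 = true := ex3_b k0_pp_033 k1_pp_033

theorem s4_pp_033 : ∃ t, chk3 f_pp_033 t 1 1 1 = true := ex3_a s3_pp_033 k2_pp_033

theorem c_pp_033 : CertNX 0 536870912 0 1230186008 1046898278 26843546 3 false true true .pnn 0 3 3
    ndN0q0 ndN7q3 pcN3 Cut.none Ext.none :=
  certNX0 (fam := false) (s1 := true) (s2 := true) (a := 0) (b := 3) (c := 3) (cn := .pnn) (n1 := ndN0q0) (n2 := ndN7q3) (pc := pcN3) (cut := Cut.none) (xt := Ext.none) (P1 := 0) (W1 := 536870912) (P2 := 0) (W2 := 1230186008) (P3 := 1046898278) (W3 := 26843546) (N0 := 3)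
    rfl s4_pp_033

noncomputable def f_pp_101 : ℕ → ℕ → ℕ → ℕ → Bool := onCell 536870912 536870912 536870912 536870912 1046898278 26843546
    (rowNX 3 0 false true true .npn 1 0 1 (qsf 536870912 536870912 536870912 536870912 0) ndN0q1 ndN7q1 pcN0 Cut.none Ext.none)

def k0_pp_101 : ∃ t, chk3 f_pp_101 t 1 1 1 = true :=
  ⟨(a (l 3) (l 5)), by decide +kernel⟩

theorem c_pp_101 : CertNX 536870912 536870912 536870912 536870912 1046898278 26843546 3 false true true .npn 1 0 1
    ndN0q1 ndN7q1 pcN0 Cut.none Ext.none :=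
  certNX0 (fam := false) (s1 := true) (s2 := true) (a := 1) (b := 0) (c := 1) (cn := .npn) (n1 := ndN0q1) (n2 := ndN7q1) (pc := pcN0) (cut := Cut.none) (xt := Ext.none) (P1 := 536870912) (W1 := 536870912) (P2 := 536870912) (W2 := 536870912) (P3 := 1046898278) (W3 := 26843546) (N0 := 3)
    rfl k0_pp_101

noncomputable def f_pp_102 : ℕ → ℕ → ℕ → ℕ → Bool := onCell 536870912 536870912 1073741824 536870912 1046898278 26843546
    (rowNX 3 0 false true true .npp 1 0 2 (qsf 536870912 536870912 1073741824 536870912 0) ndN0q1 ndN7q2 pcN0 Cut.none Ext.none)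

def k0_pp_102 : ∃ t, chk3 f_pp_102 t 1 1 1 = true :=
  ⟨(a (l 3) (b (l 5) (l 3))), by decide +kernel⟩

theorem c_pp_102 : CertNX 536870912 536870912 1073741824 536870912 1046898278 26843546 3 false true true .npp 1 0 2
    ndN0q1 ndN7q2 pcN0 Cut.none Ext.none :=
  certNX0 (fam := false) (s1 := true) (s2 := true) (a := 1) (b := 0) (c := 2) (cn := .npp) (n1 := ndN0q1) (n2 := ndN7q2) (pc := pcN0) (cut := Cut.none) (xt := Ext.none) (P1 := 536870912) (W1 := 536870912) (P2 := 1073741824) (W2 := 536870912) (P3 := 1046898278) (W3 := 26843546) (N0 := 3)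
    rfl k0_pp_102

noncomputable def f_pp_112 : ℕ → ℕ → ℕ → ℕ → Bool := onCell 536870912 536870912 1073741824 536870912 1046898278 26843546
    (rowNX 3 0 false true true .dn 1 1 2 (qsf 536870912 536870912 1073741824 536870912 1) ndN0q1 ndN7q2 pcN1 Cut.none Ext.none)

def k0_pp_112 : ∃ t, chk3 f_pp_112 t 1 1 1 = true :=
  ⟨(a (l 3) (b (l 5) (l 3))), by decide +kernel⟩

theorem c_pp_112 : CertNX 536870912 536870912 1073741824 536870912 1046898278 26843546 3 false true true .dn 1 1 2
    ndN0q1 ndN7q2 pcN1 Cut.none Ext.none :=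
  certNX0 (fam := false) (s1 := true) (s2 := true) (a := 1) (b := 1) (c := 2) (cn := .dn) (n1 := ndN0q1) (n2 := ndN7q2) (pc := pcN1) (cut := Cut.none) (xt := Ext.none) (P1 := 536870912) (W1 := 536870912) (P2 := 1073741824) (W2 := 536870912) (P3 := 1046898278) (W3 := 26843546) (N0 := 3)
    rfl k0_pp_112

noncomputable def cut_pp_113 : Cut := Cut.of [[⟨0, 1, 0, 67108864⟩, ⟨1, 1, 0, 67108864⟩, ⟨2, 2, 0, 67108864⟩, ⟨3, 0, 0, 1233125376⟩]]

noncomputable def f_pp_113 : ℕ → ℕ → ℕ → ℕ → Bool := onCell 536870912 536870912 0 1230186008 1046898278 26843546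
    (rowNX 3 2 false true true .nn 1 1 3 (qsf 536870912 536870912 0 1230186008 1) ndN0q1 ndN7q3 pcN1 cut_pp_113 Ext.none)

def k0_pp_113 : ∃ t, chk3 f_pp_113 t 1 1 1 = true :=
  ⟨(b (a (l 2) (a (l 2) (b (a (l 2) (a (l 2) (l 6))) (l 3)))) (a (a (b (l 2) (b (l 2) (l 3))) (b (a (l 2) (b (l 2) (l 3))) (l 3))) (b (a (l 3) (l 3)) (l 3)))), by decide +kernel⟩

theorem c_pp_113 : CertNX 536870912 536870912 0 1230186008 1046898278 26843546 3 false true true .nn 1 1 3
    ndN0q1 ndN7q3 pcN1 cut_pp_113 Ext.none :=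
  certNX2 (fam := false) (s1 := true) (s2 := true) (a := 1) (b := 1) (c := 3) (cn := .nn) (n1 := ndN0q1) (n2 := ndN7q3) (pc := pcN1) (cut := cut_pp_113) (xt := Ext.none) (P1 := 536870912) (W1 := 536870912) (P2 := 0) (W2 := 1230186008) (P3 := 1046898278) (W3 := 26843546) (N0 := 3)
    rfl (fun _ => rfl) k0_pp_113

end Pool.Agent.Strip051.G.IE1.Tab.C.NB07

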