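import Pool.Agent.Strip051.G.IE1.Tab

/-! # Certificates N56 (generated) -/

set_option linter.all false
set_option maxRecDepth 100000

namespace Pool.Agent.Strip051.G.IE1.Tab.C.NB07

open Pool.Agent.Strip051.PB Pool.Agent.Strip051.PB.T
open Pool.Agent.Strip051.G.IE1.Tab

noncomputable def cut_pp_123 : Cut := Cut.of [[⟨0, 1, 0, 67108864⟩, ⟨1, 1, 0, 67108864⟩, ⟨2, 2, 0, 67108864⟩, ⟨3, 0, 0, 1233125376⟩]]

noncomputable def f_pp_123 : ℕ → ℕ → ℕ → ℕ → Bool := onCell 1073741824 536870912 0 1230186008 1046898278 26843546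
    (rowNX 3 2 false true true .npn 1 2 3 (qsf 536870912 536870912 0 1230186008 2) ndN0q1 ndN7q3 pcN2 cut_pp_123 Ext.none)

def k0_pp_123 : ∃ t, chk3 f_pp_123 t 16 4 1 = true :=
  ⟨(l 6), by decide +kernel⟩

def k1_pp_123 : ∃ t, chk3 f_pp_123 t 17 8 1 = true :=
  ⟨(a (l 6) (b (b (c (b (a (c (c (l 16506248) (l 16486544)) (l 16478944)) (l 16209048)) (a (l 6) (c (c (a (l 16391728) (l 16261328)) (l 16345248)) (a (c (l 16380520) (l 16374432)) (l 16284928))))) (a (l 16358120) (l 16212176))) (a (l 6) (a (l 6) (a (l 6) (b (a (l 6) (c (c (l 16301648) (b (l 16287256) (l 16317880))) (l 16286536))) (c (c (l 16364440) (c (l 16358920) (l 16348200))) (c (c (b (l 16343384) (l 16357544)) (l 16363704)) (l 16348200)))))))) (a (l 6) (a (b (l 6) (a (b (l 6) (c (c (l 16631976) (l 16626808)) (l 16622768))) (c (b (c (l 16472800) (l 16550656)) (c (l 16559376) (l 16596568))) (b (l 16523576) (l 16549760))))) (b (b (c (c (b (l 16414928) (l 16435488)) (l 16419248)) (c (b (c (l 16399904) (l 16378848)) (a (l 16429816) (l 16406328)))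 (b (l 16397064) (a (l 16420096) (l 16398624))))) (c (l 16463648) (l 16451576))) (b (c (l 16513488) (l 16503432)) (c (a (b (l 16565032) (l 16594688)) (b (l 16548128) (l 16572112))) (b (a (l 16556928) (l 16539728)) (l 16574416))))))))), by decide +kernel⟩

def k2_pp_123 : ∃ t, chk3 f_pp_123 t 34 9 1 = true :=
  ⟨(b (l 6) (l 3)), by decide +kernel⟩

def k3_pp_123 : ∃ t, chk3 f_pp_123 t 140 18 1 = true :=
  ⟨(b (l 6) (l 3)), by decide +kernel⟩

def k4_pp_123 : ∃ t, chk3 f_pp_123 t 282 18 1 = true :=
  ⟨(b (b (l 6) (a (l 6) (b (l 6) (b (a (l 6) (b (a (l 6) (c (c (c (l 16775496) (l 16773216)) (c (l 16773160) (l 16773128))) (c (l 16773072) (l 16773000)))) (b (a (b (l 6) (l 3)) (c (c (c (b (a (c (l 290078064215) (l 350207603287)) (l 16776192)) (b (c (l 349670730263) (l 350744472167)) (l 453286819655))) (b (a (l 351281344999) (l 16776104)) (a (l 3) (l 362018764391)))) (c (b (l 16776320) (l 355576307975)) (l 357186920263))) (c (l 359871274551) (l 16776088)))) (l 3)))) (l 3))))) (l 3)), by decide +kernel⟩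

def k5_pp_123 : ∃ t, chk3 f_pp_123 t 566 72 1 = true :=
  ⟨(l 6), by decide +kernel⟩

def k6_pp_123 : ∃ t, chk3 f_pp_123 t 566 73 1 = true :=
  ⟨(b (c (c (a (c (b (l 6) (l 16739808)) (l 16732976)) (c (l 16727336) (l 16725520))) (b (l 16743752) (c (l 16735088) (l 16734896)))) (c (c (l 16728688) (l 16728448)) (l 16728080))) (c (b (c (b (a (c (a (l 16760088) (l 16767488)) (l 16758096)) (c (l 16763856) (l 16763032))) (a (b (c (a (b (l 16763648) (c (l 16775736) (l 16775664))) (l 16772552)) (a (b (l 16773920) (l 16775592)) (l 16772232))) (a (c (b (a (l 362555635943) (b (l 16776296) (l 229948521607))) (l 374366795719)) (b (a (l 352355086375) (l 16776456)) (l 364703114487))) (c (b (l 16764424) (a (b (l 16776552) (l 306184191463)) (l 16775792))) (c (l 89825212519) (l 16775368))))) (c (l 16771880) (l 16749160)))) (b (c (l 16755264) (l 16744672)) (a (c (b (l 16773464) (a (l 355576308951) (l 16775352))) (b (l 16773432) (l 230485390551))) (c (l 16749088) (l 16770000))))) (c (b (a (b (b (a (l 3) (c (a (l 359871278247)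 (b (l 197199395975) (l 350744474855))) (l 338933317207))) (l 3)) (l 3)) (b (c (a (b (l 16775504) (a (b (l 285246225703) (l 351818216215)) (l 105394469879))) (l 16763408)) (a (b (l 16775384) (a (l 352891957879) (l 16776272))) (l 16773680))) (a (c (b (l 392620407015) (l 3)) (l 374903665623)) (c (b (c (l 118279371399) (l 16775960)) (a (l 351818214871) (b (l 16776576) (l 312089771543)))) (b (l 16775912) (l 312089771175)))))) (a (l 3) (c (l 388325434231) (l 392620400775)))) (c (b (a (l 377051145463) (b (a (l 164450269095) (l 16773648)) (a (l 357186918999) (l 222432327719)))) (l 397452234247)) (b (a (l 379198628503) (b (l 16774608) (l 358797531175))) (l 403357813175))))) (c (b (a (b (l 16747320) (c (b (l 16773400) (l 16775608)) (l 16774248))) (l 16745256)) (b (a (l 364166229591) (c (l 294373021495) (l 16774928))) (l 413021487911))) (b (b (l 16744312) (a (l 224042932679) (l 16769776))) (c (l 365776826551) (l 366850567191)))))), by decide +kernel⟩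

def k7_pp_123 : ∃ t, chk3 f_pp_123 t 566 37 1 = true :=
  ⟨(l 3), by decide +kernel⟩

def k8_pp_123 : ∃ t, chk3 f_pp_123 t 567 18 1 = true :=
  ⟨(b (b (b (l 6) (b (a (l 6) (c (l 16701384) (l 16697816))) (c (c (b (l 16694432) (l 16721184)) (b (l 16712832) (l 16718888))) (c (b (l 16711688) (l 16717856)) (l 16712984))))) (b (c (c (c (l 16718560) (l 16716544)) (b (l 16729712) (l 16744128))) (c (l 16715280) (l 16735528))) (c (c (b (c (b (l 16756640) (l 16742440)) (l 16738088)) (b (c (a (a (l 16773008) (l 16749664)) (l 16767048)) (a (l 16771504) (l 16766488))) (a (a (b (c (a (c (l 360408154311) (l 351818213575)) (b (l 16776104) (l 334101479063))) (b (a (l 289541192903) (l 16776040)) (l 353965696855))) (l 3)) (b (c (c (l 16775104) (l 16775000)) (l 16774920)) (c (b (a (l 351818215479) (c (l 16776552) (l 16776520))) (l 386714826583)) (b (l 287393708855) (l 367924339847))))) (c (b (l 16750544) (a (b (l 16774944) (a (b (l 16776592) (l 317458480631)) (l 16775832))) (l 16773304))) (b (l 16771208) (a (b (l 16774816)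 (l 154249722327)) (l 16773096))))))) (c (b (l 16737912) (b (l 16768928) (a (b (a (l 356113180679) (l 16774904)) (l 373293052135)) (l 16775264)))) (b (l 16758728) (b (l 16768848) (a (b (l 198273135591) (l 359871270487)) (l 16772608)))))) (c (b (l 16737504) (b (l 16768736) (c (a (l 360945011831) (l 16772568)) (l 270213826263)))) (b (l 16758144) (c (l 144049167719) (l 16770592))))))) (a (l 3) (b (b (b (b (c (c (b (a (b (c (c (l 348596994391) (l 346986381095)) (l 363092505719)) (l 3)) (c (b (l 16775528) (a (l 336785833607) (l 16776352))) (b (l 16775432) (l 231022262903)))) (a (l 3) (c (l 375977405031) (l 377051149175)))) (c (a (l 377588018199) (a (l 357186918567) (l 327122149543))) (l 359871267735))) (c (c (l 362018751031) (l 363629363431)) (l 365776846551))) (l 3)) (l 3)) (l 3)) (l 3)))), by decide +kernel⟩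

def k9_pp_123 : ∃ t, chk3 f_pp_123 t 71 36 2 = true :=
  ⟨(a (a (b (a (b (l 16651536) (b (l 16691640) (b (l 16702192) (c (l 16711168) (l 16708800))))) (c (l 16654432) (l 16672208))) (b (c (b (a (a (l 16723712) (l 16717528)) (c (l 16712576) (l 16710312))) (c (l 16731344) (l 16729488))) (b (a (l 16717800) (l 16709416)) (l 16728856))) (c (a (b (c (l 16750240) (l 16749008)) (c (a (l 16754712) (l 16760328)) (l 16741136))) (c (b (l 16740288) (l 16752952)) (l 16724504))) (a (c (b (l 16748760) (l 16741000)) (l 16734176)) (b (l 16738440) (l 16751728)))))) (b (c (l 16638968) (l 16656776)) (b (c (b (l 16675320) (a (b (l 16711832) (l 16717960)) (l 16685544))) (b (l 16694136) (a (l 16712648) (l 16704760)))) (c (a (c (l 16736568) (l 16735408)) (b (b (l 16714976) (l 16722984)) (l 16732432))) (a (l 16734848) (b (l 16716512) (l 16731312))))))) (a (a (b (l 16621888) (b (l 16686640) (c (b (b (l 16706624) (l 16712584)) (l 16721816)) (b (l 16708608) (l 16720576))))) (b (l 16632592) (b (l 16676408) (b (l 16698336) (c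 (l 16696024) (l 16710424)))))) (b (l 16596336) (b (l 16661152) (a (c (l 16697088) (l 16695568)) (l 16684536)))))), by decide +kernel⟩

def k10_pp_123 : ∃ t, chk3 f_pp_123 t 568 148 2 = true :=
  ⟨(a (b (b (c (c (b (l 16772696) (a (b (a (l 183240751959) (l 16775536)) (c (l 319605960151) (l 315847867671))) (l 16774480))) (b (l 16751504) (a (b (l 16775936) (l 314237254951)) (l 16774352)))) (c (b (l 16772432) (a (l 224042940487) (l 16774328))) (l 93583307063))) (b (c (a (c (l 392083534231) (l 396378501159)) (c (b (a (l 297594253959) (l 16776104)) (a (l 3) (l 336785833591))) (b (l 196662524391) (l 355039438967)))) (c (l 357723788231) (l 360408142695))) (l 3))) (l 3)) (b (c (b (c (l 16748392) (l 16769024)) (c (b (c (l 16773912) (l 16773768)) (a (b (a (l 352891957287) (l 180556397383)) (l 389936052023)) (b (l 16774912) (a (l 235317230375) (l 16775808))))) (b (l 16773696) (a (l 355576309015) (l 87677729031))))) (b (l 16758432) (c (b (l 16773664) (a (l 357723792087) (l 16775400))) (b (l 16773632) (l 293836153799)))))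 (b (c (a (l 3) (b (c (c (l 381346117447) (l 371145570007)) (l 356113178407)) (l 3))) (c (l 380809241671) (l 404431561223))) (l 3)))), by decide +kernel⟩

def k11_pp_123 : ∃ t, chk3 f_pp_123 t 569 148 2 = true :=
  ⟨(c (b (c (c (l 16767936) (l 16767440)) (b (l 16761496) (l 16746792))) (b (a (b (c (a (b (l 16775488) (a (l 333027737207) (l 16776320))) (l 16752856)) (a (b (l 16775424) (l 227264166535)) (l 16773704))) (a (c (l 377051149463) (l 378124890999)) (c (b (a (l 176261430055) (l 16775480)) (a (l 353965698487) (l 231022263047))) (b (l 16775920) (l 312626642135))))) (c (b (l 16770176) (l 16773200)) (l 16771496))) (a (c (l 396378497703) (l 400136593383)) (b (c (a (b (a (l 292225547383) (l 16776056)) (l 353428826407)) (l 16774960)) (a (b (l 16776288) (l 356113180823)) (l 16774888))) (a (l 3) (c (b (a (l 353965699143) (l 16776488)) (l 393157277543)) (l 356650050855))))))) (b (c (l 16743536) (l 16743424)) (b (a (c (b (l 98415146231) (l 358260660743)) (b (l 16774632) (l 360945014775))) (c (l 16771448)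 (l 16771392))) (a (l 408189656007) (c (b (a (l 358260664471) (l 16774864)) (l 359871271143)) (l 360945012231)))))), by decide +kernel⟩

def k12_pp_123 : ∃ t, chk3 f_pp_123 t 284 149 2 = true :=
  ⟨(l 3), by decide +kernel⟩

def k13_pp_123 : ∃ t, chk3 f_pp_123 t 285 74 2 = true :=
  ⟨(a (b (c (b (c (l 16734232) (l 16754568)) (a (b (c (l 16766784) (l 16766472)) (c (a (b (l 16772552) (c (l 95193921719) (l 16775392))) (l 16750640)) (b (l 16771152) (l 16776128)))) (c (l 16743912) (l 16764560)))) (b (l 16733296) (a (c (l 16769464) (l 16769400)) (l 16753904)))) (b (a (b (c (b (c (a (b (l 339470182791) (l 3)) (b (l 16775392) (a (l 322827189655) (l 16776248)))) (a (l 357186920455) (l 155323463639))) (c (a (l 3) (l 377588020439)) (l 399062854823))) (c (b (l 358797532983) (l 403894692615)) (l 362018751671))) (l 3)) (c (b (c (b (l 16772480) (a (b (l 16775880) (a (l 355039440727) (l 16776608))) (l 16774280))) (b (l 16772352) (a (l 212768651255) (l 16774208)))) (b (a (c (l 399062856183) (l 377588013159)) (c (b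 (a (l 254107712375) (l 16775936)) (l 364703121703)) (l 284709353911))) (l 3))) (b (c (b (l 16772312) (l 142438560775)) (l 16773512)) (c (l 377588017863) (l 363629362279))))) (l 3))) (c (c (b (b (l 16745208) (l 16736480)) (b (a (b (l 16748096) (a (b (l 16774832) (c (l 323900926023) (l 355039438439))) (c (l 16773880) (l 16773784)))) (l 16768464)) (b (a (a (l 3) (c (l 377051137847) (l 377588019047))) (b (a (c (l 148344141703) (l 16775680)) (l 16773520)) (a (l 377588020583) (b (l 16775744) (l 292225546967))))) (l 402820945335)))) (b (l 16729760) (b (a (b (l 16768880) (b (l 16773528) (a (l 357723792983) (l 16775264)))) (l 16745976)) (b (a (l 381346113319) (b (a (l 16775664) (l 16773448)) (a (l 359334403447) (l 196125652983)))) (l 406579040791))))) (a (b (l 16737192) (b (b (l 16747800) (c (b (l 16773496) (l 219747972247)) (l 156934074247))) (c (l 386714816919) (l 388862299687)))) (b (l 16726848) (b (c (l 16745888) (l 16766768)) (b (c (b (l 16774480) (l 360408144935)) (l 278803765495)) (l 414095236439))))))),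 by decide +kernel⟩

def k14_pp_123 : ∃ t, chk3 f_pp_123 t 142 75 2 = true :=
  ⟨(l 3), by decide +kernel⟩

def k15_pp_123 : ∃ t, chk3 f_pp_123 t 143 74 2 = true :=
  ⟨(b (a (c (c (b (l 16730152) (l 16721504)) (l 16714648)) (a (l 16719192) (l 16729936))) (c (b (a (l 16713216) (l 16705664)) (a (l 16727032) (l 16715792))) (b (a (l 16712000) (l 16704360)) (a (l 16726080) (l 16714680))))) (a (c (b (a (c (l 16738728) (l 16759400)) (l 16728536)) (a (b (a (c (l 16771328) (l 16771224)) (l 16761032)) (a (b (c (a (b (l 156934076727) (l 342691413607)) (l 16774640)) (a (l 241222809879) (l 16774600))) (a (l 3) (c (b (l 229948520743) (l 356650051591)) (l 358260664359)))) (c (a (l 16775272) (l 16771200)) (l 16772336)))) (c (l 16751440) (l 16740744)))) (a (b (l 16748672) (a (b (l 16771144) (c (b (l 170355848183) (l 362018755239)) (l 362555625767))) (c (l 16769176) (l 16769104)))) (c (l 16734328) (l 16734136)))) (c (c (a (l 16724776) (l 16735704)) (l 16719416)) (c (l 16719088) (l 16718752))))), by decide +kernel⟩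

def k16_pp_123 : ∃ t, chk3 f_pp_123 t 143 75 2 = true :=
  ⟨(a (b (b (b (a (a (l 3) (c (c (b (a (l 356113179239) (l 118816241527)) (l 400136597399)) (b (a (l 359334404791) (l 16775520)) (l 404431564359))) (c (l 362018753239) (l 364166235975)))) (c (b (c (l 16748576) (l 16748472)) (a (c (a (b (l 16775536) (l 270213839335)) (l 16773824)) (l 102710113527)) (l 16759560))) (a (c (l 16773240) (l 16773208)) (l 16768344)))) (a (l 3) (c (a (b (c (a (l 379198626695) (b (l 16775968) (l 317995351191))) (l 359871273703)) (c (l 409263401479) (l 413021497399))) (c (b (l 16773128) (a (b (l 16776296) (l 357723793831)) (l 16774888))) (b (l 16773080) (a (l 293836159511) (l 16774864))))) (a (c (l 363092492503) (l 365776847047)) (c (l 126869303319) (l 16774000)))))) (b (a (l 3) (a (l 3) (a (l 3) (b (c (c (l 357186922039) (l 360408147463)) (l 364166243239)) (l 3))))) (l 3))) (l 3)) (a (b (c (c (b (c (l 16743192) (l 16743088)) (b (a (b (l 16774120) (a (l 358260662663) (l 16775696))) (l 16749760)) (a (l 408726529495) (b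 (a (l 198273136487) (l 16774032)) (a (l 384030464599) (l 240149067879)))))) (b (l 16743000) (b (a (b (l 16774088) (l 282561861543)) (l 16770664)) (a (l 412484625351) (b (l 16774888) (l 361481886135)))))) (b (c (l 16742880) (l 16742768)) (b (a (c (b (l 16774064) (l 284709353047)) (l 16774632)) (l 16749608)) (a (l 419463946423) (c (b (l 16774864) (l 363629369271)) (l 277193154599)))))) (l 3)) (b (c (b (l 16733024) (a (c (l 16768760) (l 16768680)) (l 16753208))) (c (l 16759848) (l 16759688))) (b (c (b (a (c (b (a (l 305647319719) (l 16775040)) (l 378661761559)) (b (l 201494361095) (l 363092496647))) (c (l 16772760) (l 16772720))) (a (l 3) (c (b (a (l 359871275239) (l 16775776)) (l 412484627831)) (l 362555623271)))) (c (b (a (l 363629367191) (l 16772688)) (l 384567337031)) (b (a (l 365776850359) (l 16772640)) (l 369534934583)))) (l 3))))), by decide +kernel⟩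

def k17_pp_123 : ∃ t, chk3 f_pp_123 t 142 18 3 = true :=
  ⟨(b (a (b (a (b (l 16667744) (c (b (l 16688552) (l 16704648)) (l 16675840))) (l 16648416)) (b (c (b (a (l 16716744) (l 16708216)) (l 16727992)) (b (a (l 16715672) (l 16706992)) (l 16727120))) (c (a (c (l 16733976) (l 16733784)) (l 16723512)) (a (l 16733480) (l 16743904))))) (b (l 16611600) (b (c (b (l 16692656) (a (l 16711496) (l 16703472))) (b (l 16691152) (a (l 16710336) (l 16702160)))) (c (a (l 16734096) (b (l 16715440) (l 16730496))) (a (l 16733336) (l 16699608)))))) (b (a (b (c (c (b (a (b (l 16771112) (a (l 363629361511) (l 16774368))) (l 16743312)) (a (l 413021484727) (b (a (l 293836150615) (l 16771344)) (l 364166226759)))) (b (a (b (l 16771056) (l 363092489127)) (l 16764168)) (a (l 419463934359) (b (l 158544684695) (l 365776838983))))) (b (a (c (l 278803754407) (l 284172463111)) (l 16743024)) (a (l 429664479703) (c (l 363092482599) (l 362555610807))))) (l 3)) (b (c (a (c (l 16760328) (l 16760184)) (l 16728928)) (c (l 16754792) (l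 16754592))) (a (b (c (a (c (l 382956722279) (l 368461188951)) (b (c (l 16773480) (l 16773448)) (l 367387458039))) (c (l 366313703335) (l 366850573415))) (l 3)) (c (c (b (b (l 16766080) (l 16771912)) (b (l 364703100567) (l 422685165351))) (b (l 16768792) (l 368461183255))) (b (c (l 16768720) (l 16768648)) (l 370608665847)))))) (l 3))), by decide +kernel⟩

def k18_pp_123 : ∃ t, chk3 f_pp_123 t 143 18 3 = true :=
  ⟨(a (b (b (l 16632488) (b (l 16677936) (a (c (b (l 16707384) (l 16719568)) (b (l 16706144) (l 16718552))) (b (l 16695408) (c (l 16709232) (l 16708024)))))) (b (c (a (b (l 16739504) (b (l 16758840) (c (b (l 16768480) (l 242833411255)) (l 123648073431)))) (c (l 16700064) (l 16720728))) (b (l 16712584) (a (b (l 16758512) (c (l 16770456) (l 16770392))) (l 16733440)))) (b (a (c (c (l 392620383287) (l 394767865335)) (l 397989088391)) (c (b (c (b (l 16770656) (l 325511533127)) (l 247665243943)) (l 428053870983)) (b (b (l 16770512) (l 365776844743)) (l 418927039063)))) (l 3)))) (b (b (l 16611464)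 (b (l 16656920) (c (a (l 16694120) (l 16682032)) (l 16666552)))) (b (b (c (b (a (l 16710840) (l 16703064)) (l 16718456)) (b (a (l 16709664) (l 16701752)) (l 16717416))) (c (a (l 16744408) (l 16734000)) (l 16717584))) (a (b (c (b (l 16742584) (c (b (l 16772344) (l 367924324919)) (l 329269614807))) (b (l 16763312) (c (l 331417098391) (l 16772784)))) (l 3)) (b (c (b (l 16753152) (l 16765816)) (l 16759144)) (b (c (c (b (l 260550150503) (l 371682417703)) (l 368998060359)) (l 368998060231)) (l 3))))))), by decide +kernel⟩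

def k19_pp_123 : ∃ t, chk3 f_pp_123 t 35 19 1 = true :=
  ⟨(l 3), by decide +kernel⟩

def k20_pp_123 : ∃ t, chk3 f_pp_123 t 8 5 1 = true :=
  ⟨(l 3), by decide +kernel⟩

def k21_pp_123 : ∃ t, chk3 f_pp_123 t 18 16 1 = true :=
  ⟨(a (c (b (b (a (l 16139368) (l 16013152)) (a (c (c (l 16226448) (l 16212344)) (l 16204784)) (l 16117392))) (b (c (a (c (l 16175296) (a (l 16291056) (l 16277472))) (c (a (l 16250888) (l 16218688)) (a (l 16250768) (l 16200952)))) (a (b (l 16257336) (c (l 16296008) (a (l 16301208) (l 16280192)))) (l 16214112))) (a (c (c (l 16352152) (l 16341848)) (c (a (l 16338192) (l 16334056)) (b (a (l 16327952) (l 16325112)) (l 16323376)))) (c (c (l 16312560) (a (l 16321936) (l 16305496))) (c (a (l 16327496) (l 16251544)) (b (l 16287120) (a (l 16349504) (l 16335824)))))))) (b (a (l 15963472) (l 15912984)) (c (b (l 16239720) (a (c (b (c (l 16318248) (l 16317632)) (a (l 16350672) (c (l 16355376) (l 16355576)))) (a (l 16313256) (l 16327696))) (b (l 16280248) (c (c (l 16330136) (l 16331440))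 (l 16328416))))) (a (l 16290200) (l 16244592))))) (c (b (c (a (l 15929232) (l 15753840)) (l 15619344)) (c (a (c (b (l 16142056) (a (l 16274016) (l 16245592))) (b (l 16127160) (b (l 16229632) (l 16207032)))) (b (l 16003008) (c (b (l 16117736) (l 16131160)) (c (l 16176408) (l 16161896))))) (a (b (l 16118480) (c (b (l 16221880) (l 16145840)) (l 16248216))) (l 16070456)))) (b (c (l 15622784) (l 15604880)) (c (a (l 16173240) (l 16057600)) (a (l 16162104) (l 16044272)))))), by decide +kernel⟩

def k22_pp_123 : ∃ t, chk3 f_pp_123 t 18 68 1 = true :=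
  ⟨(c (a (a (c (a (l 16411984) (l 16419320)) (b (l 16390384) (l 16419336))) (c (l 16419480) (c (l 16405056) (b (l 16248008) (l 16433376))))) (a (c (c (l 16391032) (l 16266456)) (c (b (l 16218152) (l 16392992)) (c (l 16252864) (a (l 16390160) (l 16375712))))) (c (a (c (l 16333184) (l 16266256)) (c (l 16289672) (l 16195824))) (c (c (l 16156856) (b (l 16270440) (l 16356520))) (b (l 16271824) (c (l 16360440) (l 16354904))))))) (a (a (a (c (b (c (l 16377856) (l 16291360)) (c (l 16411192) (l 16329416))) (a (b (l 16383672) (l 16358384)) (l 16367912))) (c (c (b (l 16382096) (l 16424120)) (c (b (l 16338840) (l 16420376)) (l 16361792))) (c (l 16386528) (l 16403176)))) (c (c (b (c (l 16382176) (a (l 16389104) (l 16380560))) (a (l 16424736) (l 16421896))) (a (c (b (l 16332136) (l 16423472)) (l 16319480)) (b (l 16371336) (c (b (l 16416224) (l 16436888)) (l 16411968))))) (a (c (l 16399912) (l 16398056)) (l 16392656)))) (a (c (c (b (c (l 16335104) (l 16340912)) (c (l 16409960) (a (l 16421976) (l 16398936)))) (a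 (a (c (l 16219528) (l 16385656)) (l 16376256)) (l 16356744))) (l 16364960)) (l 16259040)))), by decide +kernel⟩

def k23_pp_123 : ∃ t, chk3 f_pp_123 t 18 69 1 = true :=
  ⟨(c (a (c (a (b (l 16454824) (l 16477056)) (b (l 16486328) (l 16525656))) (a (b (l 16427232) (l 16469992)) (b (l 16479568) (l 16457400)))) (c (a (l 16487968) (l 16455328)) (a (b (l 16319704) (l 16534432)) (c (l 16329848) (b (c (l 16418960) (l 16426792)) (l 16486880)))))) (a (a (c (b (a (b (l 16424232) (l 16439368)) (a (l 16451248) (l 16464152))) (a (l 16456976) (b (l 16472672) (l 16488808)))) (c (a (l 16406080) (c (l 16458232) (l 16390928))) (a (l 16427448) (l 16415232)))) (a (c (b (c (l 16473520) (b (l 16459584) (l 16481480))) (b (l 16501504) (l 16510104))) (b (l 16320208) (c (l 16473312) (l 16495648)))) (c (b (c (l 16479384) (c (l 16472448) (l 16386256))) (b (l 16513192) (l 16538488))) (c (b (l 16418488) (b (l 16500336) (l 16509040))) (l 16389240))))) (c (b (a (c (a (l 16466648) (l 16437088)) (a (c (l 16469560) (b (l 16462304)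 (l 16484880))) (c (b (l 16447544) (l 16478712)) (l 16308960)))) (c (c (l 16413024) (a (l 16450336) (l 16410264))) (a (a (c (l 16451432) (l 16443504)) (l 16431240)) (l 16407768)))) (a (c (c (l 16533664) (l 16532568)) (a (b (l 16513336) (l 16546544)) (c (l 16520008) (b (l 16509016) (l 16535560))))) (c (a (l 16504752) (l 16407200)) (a (c (l 16512056) (b (l 16499928) (l 16532200))) (c (b (l 16472264) (l 16516592)) (b (l 16469616) (l 16516464))))))) (c (a (c (a (l 16354576) (b (l 16457616) (l 16455824))) (l 16362944)) (a (b (l 16434992) (l 16351848)) (l 16446336))) (a (l 16463288) (l 16458024)))))), by decide +kernel⟩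

def k24_pp_123 : ∃ t, chk3 f_pp_123 t 18 35 1 = true :=
  ⟨(a (b (a (c (l 16514416) (l 16504880)) (a (l 16546800) (b (c (l 16535480) (a (l 16552136) (c (l 16559600) (c (l 16524104) (l 16551440))))) (l 16585024)))) (a (a (c (c (l 16501304) (l 16497464)) (c (l 16514552) (l 16531584))) (l 16573416)) (c (l 16609240) (l 16603176)))) (b (b (c (a (c (l 16553016) (l 16464912)) (c (l 16591000) (l 16544576))) (a (a (c (l 16537992) (c (l 16488472) (l 16490056))) (c (b (l 16575896) (l 16612296)) (a (c (b (l 16541616) (l 16536864)) (l 16535304)) (c (l 16437728) (l 16590248))))) (c (a (c (l 16591320) (b (l 16563768) (l 16609344))) (c (l 16574416) (c (l 16566072) (b (l 16555248) (l 16587592))))) (c (c (a (l 16451880) (c (l 16596512) (l 16600264))) (a (l 16529288) (l 16535744))) (l 16519816))))) (a (a (l 16613160) (c (l 16548432) (b (c (l 16628016) (c (c (l 16629448) (l 16593472)) (l 16602352))) (l 16645368)))) (c (c (l 16663808) (a (l 16660288) (l 16668240))) (c (c (l 16660320) (a (l 16657728) (b (l 16639944)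 (l 16684256)))) (c (a (c (l 16627232) (c (l 16654480) (l 16647832))) (a (b (l 16632048) (l 16680296)) (c (l 16625448) (l 16645728)))) (c (a (l 16652648) (l 16679480)) (l 16581360))))))) (a (l 16656584) (a (l 16699064) (b (c (l 16602736) (b (c (l 16706640) (c (c (l 16708792) (l 16694232)) (l 16703808))) (l 16725336))) (l 16737032)))))), by decide +kernel⟩

def k25_pp_123 : ∃ t, chk3 f_pp_123 t 36 36 1 = true :=
  ⟨(a (a (c (b (a (l 16608424) (l 16611328)) (c (l 16663120) (l 16661072))) (b (a (l 16602328) (l 16605336)) (c (l 16659000) (l 16656896)))) (c (b (b (l 16615776) (l 16636416)) (l 16666208)) (b (b (l 16609936) (l 16631336)) (l 16662200)))) (a (c (b (l 16606280) (l 16678800)) (b (b (l 16628888) (l 16653080)) (l 16675264))) (b (l 16663104) (c (l 16679704) (l 16676984))))), by decide +kernel⟩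

def k26_pp_123 : ∃ t, chk3 f_pp_123 t 144 37 1 = true :=
  ⟨(c (b (a (b (b (l 16694808) (c (a (l 16709568) (l 16706008)) (a (l 16708360) (l 16704736)))) (c (a (l 16727336) (b (l 16715568) (l 16727536))) (a (l 16726440) (b (l 16714464) (l 16726648))))) (b (l 16694952) (c (b (l 16712936) (a (l 16721632) (l 16719864))) (b (l 16711784) (a (l 16720632) (l 16718840)))))) (a (a (b (c (b (l 16745152) (l 16735960)) (l 16729576)) (b (c (a (b (l 16767976) (a (c (l 126332433559) (l 16774744)) (l 16772736))) (l 16755944)) (c (l 16772968) (l 16768304))) (c (c (b (a (l 379198626087) (b (l 16773608) (l 216526746967))) (l 414095235927)) (b (a (l 364166234311) (l 160155300087)) (l 418390202535))) (b (c (a (l 367387459447) (l 16774360)) (l 366313716343)) (l 425369523383))))) (c (b (l 16743944) (b (l 16739320) (a (b (l 16749552) (c (b (l 16774544) (l 356650049575)) (l 213305520567))) (l 16758520)))) (b (l 16743352) (b (l 16759992) (b (l 16747280) (c (l 156934073223) (l 16773000))))))) (b (c (a (l 16738088) (l 16732840))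 (l 16713096)) (c (c (a (l 16737320) (l 16752056)) (l 16733872)) (c (l 16733672) (l 16733472)))))) (b (b (a (b (l 16691840) (c (a (l 16707136) (l 16703440)) (l 16705120))) (l 16691984)) (a (c (a (l 16725536) (b (l 16713352) (l 16725744))) (a (l 16724624) (l 16716760))) (c (b (l 16710616) (l 16718408)) (b (l 16709432) (l 16717368))))) (a (c (c (b (l 16746384) (a (b (l 16768224) (l 371682412471)) (l 16773560))) (b (l 16746112) (b (l 16763672) (a (l 373293024615) (l 16770312))))) (b (l 16724728) (b (l 16763496) (a (l 374903636439) (l 16770224))))) (c (b (l 16733296) (l 16733168)) (b (l 16732512) (l 16732760)))))), by decide +kernel⟩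

def k27_pp_123 : ∃ t, chk3 f_pp_123 t 145 37 1 = true :=
  ⟨(c (b (c (l 16701440) (l 16700080)) (a (b (c (b (l 16724856) (l 16730920)) (b (l 16723912) (l 16730088))) (c (l 16744584) (l 16744000))) (c (b (l 16725496) (b (l 16733928) (l 16741512))) (b (l 16724568) (b (l 16733152) (l 16740872)))))) (b (c (l 16698704) (l 16697312)) (a (b (c (b (l 16722968) (l 16729248)) (b (l 16722000) (l 16728392))) (c (l 16743408) (l 16742808))) (c (b (l 16723632) (b (l 16732368) (l 16740224))) (b (l 16722680) (l 16712944)))))), by decide +kernel⟩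

def k28_pp_123 : ∃ t, chk3 f_pp_123 t 73 37 1 = true :=
  ⟨(a (c (b (l 16705512) (a (b (l 16721840) (c (l 16714976) (l 16714240))) (l 16728096))) (b (l 16702944) (a (b (l 16719848) (c (l 16734464) (l 16733712))) (l 16726336)))) (c (b (l 16720368) (l 16733384)) (b (l 16718368) (l 16731840)))), by decide +kernel⟩

def k29_pp_123 : ∃ t, chk3 f_pp_123 t 36 152 1 = true :=
  ⟨(a (a (a (a (l 3) (b (b (c (c (a (l 420000818071) (c (b (l 16775248) (l 367924340775)) (l 253033968775))) (c (l 366313712967) (l 369534938103))) (c (l 373293033975) (l 16773392))) (l 3)) (l 3))) (c (a (b (c (a (b (l 16772696) (c (l 356113175175) (l 360945013079))) (c (l 16771200) (l 16771144))) (b (l 16770592) (a (l 366850592567) (l 16773528)))) (a (l 3) (b (c (c (l 358260656503) (l 363092494567)) (l 368998074247)) (l 3)))) (c (b (l 16744824) (c (b (l 16772536) (a (l 360945009671) (l 16774896))) (b (l 16772496) (a (l 365776847591) (l 16774872))))) (b (l 16765592) (b (l 98952014167) (c (l 363629362983) (l 367924329575)))))) (c (b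 (a (b (l 16770472) (l 270750701063)) (l 16765384)) (a (l 381346081623) (c (l 324437779783) (l 16773096)))) (c (a (l 374366755607) (l 16768848)) (l 329269593895))))) (c (c (a (c (l 16760968) (l 16760824)) (l 16751824)) (a (c (l 16739704) (l 16739560)) (l 16751368))) (c (a (l 16760304) (l 16750904)) (a (l 16739040) (l 16750440))))) (c (c (a (a (a (l 16747264) (l 16743816)) (l 16722664)) (l 16724760)) (a (a (l 16743872) (l 16743040)) (l 16745184))) (c (a (a (l 16743280) (l 16742440)) (l 16744632)) (a (a (l 16742680) (l 16741824)) (l 16744072))))), by decide +kernel⟩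

def k30_pp_123 : ∃ t, chk3 f_pp_123 t 36 153 1 = true :=
  ⟨(a (a (a (l 3) (a (l 3) (c (c (c (l 426443253415) (l 431811961063)) (l 409800251415)) (c (l 453286792279) (l 467245432951))))) (c (a (c (b (a (b (a (c (l 236390970807) (l 16775304)) (l 16772640)) (a (l 426443269351) (c (l 288467449879) (l 16775616)))) (l 16769928)) (a (l 435033193959) (a (c (l 386177951655) (l 365239969335)) (b (l 16774120) (l 358260662951))))) (a (b (c (b (l 16773760) (l 367387455719)) (l 322827168983)) (l 446844351927)) (b (l 16769792) (c (l 364703096983) (l 369534934871))))) (c (a (c (l 16768000) (l 16767920)) (l 16763192)) (c (l 16765304) (l 16765200)))) (a (c (a (b (l 323364039159) (l 460266122615)) (b (l 16769664) (l 375440514487))) (b (l 327122123719) (l 386714779223))) (c (l 68350368055) (l 16764824))))) (c (a (c (a (l 16757608) (l 16752712)) (a (l 16757256) (l 16752272))) (c (a (l 16728720) (l 16751328)) (a (l 16749200) (l 16750880)))) (a (c (a (l 16756904) (l 16751832)) (l 16732696)) (c (a (l 16748712) (l 16750424))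 (a (l 16748216) (l 16749960)))))), by decide +kernel⟩

def k31_pp_123 : ∃ t, chk3 f_pp_123 t 36 77 1 = true :=
  ⟨(a (a (l 3) (a (l 3) (b (c (a (b (c (b (a (l 362018752519) (l 243907161255)) (l 427517009351)) (b (l 364703105399) (l 417316444599))) (l 3)) (c (b (c (l 16772760) (l 16772720)) (c (l 392620400951) (l 398525980535))) (b (l 166060876087) (b (l 369534941287) (l 424295763559))))) (c (b (a (l 380272349591) (l 16772576)) (l 413558355111)) (b (l 374366765399) (l 397989062103)))) (l 3)))) (c (a (a (b (c (a (a (c (l 203641837255) (l 16771928)) (l 16770032)) (l 16746024)) (a (b (l 16768056) (l 272898184391)) (l 16766808))) (c (a (c (l 400673454007) (l 406042162087)) (b (c (l 331417109639) (l 326048400471)) (l 402284073367))) (b (a (l 380809215831) (l 322290304007)) (l 455971154343)))) (c (b (l 16762192) (a (b (l 16771024) (c (l 335712076807) (l 324437787207))) (l 16748912))) (b (l 16761920) (c (l 290614894519) (l 323900900455))))) (a (c (b (l 16758008) (l 16765784)) (l 16740560)) (c (b (l 16754808)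 (l 16762240)) (b (l 16754416) (l 16761984))))) (a (a (c (b (a (l 16770616) (l 16766624)) (c (l 413558357463) (l 388862250535))) (b (l 16768288) (l 393694086983))) (c (c (l 204715564279) (l 16765992)) (b (l 16761376) (l 16770696)))) (a (c (l 16761256) (l 16760976)) (c (b (l 16754016) (l 16761720)) (l 16734984)))))), by decide +kernel⟩

def k32_pp_123 : ∃ t, chk3 f_pp_123 t 36 39 1 = true :=
  ⟨(a (l 3) (a (b (a (l 3) (b (c (c (b (a (l 444696873335) (c (l 339470169927) (l 349670716903))) (l 454897410247)) (b (a (l 462413611959) (l 362555618407)) (l 472077276919))) (c (b (l 386714787191) (l 490330885383)) (l 403357758055))) (l 3))) (l 3)) (a (b (b (c (c (a (c (l 328732749223) (l 324974652135)) (l 16772040)) (c (l 323900907143) (l 321753423239))) (c (l 320679680631) (l 16772328))) (a (l 3) (c (c (b (l 354502550855) (l 3)) (l 428590745911)) (c (l 397989069287) (l 407115872887))))) (l 3)) (b (c (c (b (l 16768568) (a (b (l 16774528) (l 359871257863)) (l 16773544))) (b (l 16768416) (c (l 321216548215) (l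 319069064167)))) (c (b (l 16768264) (l 317458450679)) (l 260013257063))) (b (c (c (a (l 3) (l 409263380775)) (l 430738217223)) (c (l 443623116839) (l 425369456999))) (l 3)))))), by decide +kernel⟩

def k33_pp_123 : ∃ t, chk3 f_pp_123 t 74 9 1 = true :=
  ⟨(b (b (b (l 16653936) (a (c (l 16728096) (l 16726424)) (l 16745792))) (c (b (a (l 16741360) (l 16768280)) (l 16716872)) (b (a (l 16740168) (l 16768144)) (l 16716336)))) (c (b (a (b (l 16753152) (c (a (b (l 16757096) (l 16759384)) (l 16740168)) (a (b (l 16756760) (l 16759080)) (l 16760880)))) (b (l 16768376) (l 16766112))) (a (b (c (a (b (l 16765576) (l 16770696)) (l 16744560)) (a (l 16746920) (l 16765336))) (a (b (c (a (b (l 16775384) (l 371682414119)) (l 309942275319)) (a (l 366313702983) (l 16774488))) (c (l 465097954679) (l 442549373943))) (c (b (l 16772304) (c (l 330343348231) (l 343765120647))) (b (l 16772216) (a (l 373293021415) (l 16775120)))))) (b (c (a (b (l 16764000) (l 16766800)) (l 16746376)) (a (b (l 16763792) (l 16766632)) (l 16767208)))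 (c (a (l 16771720) (l 16770152)) (a (l 16771632) (l 16770040)))))) (b (a (b (l 16752352) (c (a (b (l 16756416) (l 16758768)) (l 16760616)) (a (l 16735944) (l 16760344)))) (c (l 16766648) (l 16766520))) (a (b (c (a (l 16767728) (l 16765136)) (a (l 16767568) (l 16764936))) (c (a (b (l 314774092807) (l 456508015207)) (b (l 16772136) (l 311015993047))) (a (b (l 16774024) (l 503215735879)) (l 320679664375)))) (b (c (a (l 16763880) (l 16767064)) (a (l 16763664) (l 16766920))) (c (l 16770688) (l 16770592))))))), by decide +kernel⟩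

def k34_pp_123 : ∃ t, chk3 f_pp_123 t 75 9 1 = true :=
  ⟨(a (b (b (l 16686264) (c (b (l 16741560) (l 16740800)) (b (l 16740456) (l 16739664)))) (c (b (l 16755760) (b (c (a (l 16771400) (l 16768008)) (l 16750040)) (c (a (b (l 16767728) (l 16770360)) (b (l 16770776) (l 16768944))) (a (l 16768176) (l 16769808))))) (b (l 16755136) (b (c (l 16749984) (l 16749936)) (c (a (l 16768040) (l 16769712)) (a (l 16767904) (l 16769624))))))) (b (b (l 16718096) (b (l 16719328) (c (l 16707472) (l 16705144)))) (c (b (l 16726992) (b (l 16752408) (a (c (l 16772056) (l 16772016)) (l 16764944)))) (b (l 16725352) (b (l 16751648) (a (c (l 16771976) (l 16771936)) (l 16764624))))))), by decide +kernel⟩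

def k35_pp_123 : ∃ t, chk3 f_pp_123 t 19 16 1 = true :=
  ⟨(a (b (c (a (c (l 15545464) (l 15523768)) (l 15063296)) (a (c (l 15500384) (l 15476536)) (l 15215944))) (c (a (c (l 15770320) (l 15838192)) (c (l 15699088) (l 15678536))) (a (c (l 15906400) (l 15890216)) (l 15648240)))) (b (c (b (a (l 14871464) (l 14693400)) (l 14860384)) (b (a (l 14825648) (l 14619040)) (l 14894728))) (c (c (l 15292488) (l 15264160)) (l 14970312)))), by decide +kernel⟩

def k36_pp_123 : ∃ t, chk3 f_pp_123 t 38 17 2 = true :=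
  ⟨(c (b (a (b (c (a (l 16167376) (a (l 16221504) (l 16019416))) (a (b (l 16216400) (l 16296632)) (a (l 16229368) (l 16142904)))) (a (l 16329528) (a (l 16145664) (c (l 16364224) (l 16280112))))) (b (c (b (l 15958056) (l 16071632)) (l 16009192)) (c (l 15947248) (b (l 16135784) (l 16226616))))) (a (b (a (l 16605768) (l 16571336)) (a (l 16739768) (b (l 16721160) (l 16751936)))) (b (l 16349408) (b (l 16540248) (l 16639592))))) (a (b (a (c (b (l 16159248) (l 16241144)) (b (l 16240072) (c (l 16420104) (l 16408280)))) (b (l 16178960) (c (a (l 16303088) (b (l 16321416) (l 16393688))) (b (a (l 16349712) (l 16303712)) (a (l 16439520) (l 16348616)))))) (b (c (l 16524248) (a (l 16602040) (a (l 16577592) (l 16535576)))) (a (l 16632528) (b (l 16720944) (l 16752968))))) (b (b (l 15986048) (c (b (l 16154600) (l 16138600)) (b (l 16133064) (l 16042440)))) (b (c (l 16175144) (b (l 16122416) (l 16374560))) (b (l 16535592) (l 16594416)))))), by decide +kernel⟩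

def k37_pp_123 : ∃ t, chk3 f_pp_123 t 76 17 3 = true :=
  ⟨(b (c (b (l 16201392) (c (b (l 16347048) (a (c (l 16469712) (l 16474408)) (a (l 16428680) (l 16398152)))) (l 16390424))) (l 16161872)) (b (c (b (a (c (l 16478904) (c (l 16553328) (c (l 16559488) (b (l 16527640) (l 16580168))))) (c (a (l 16485384) (c (l 16495504) (l 16505528))) (b (l 16487088) (c (a (l 16559784) (l 16529288)) (a (l 16558968) (l 16520360)))))) (a (c (l 16647264) (c (l 16646416) (b (l 16613616) (l 16669408)))) (c (l 16607792) (a (b (l 16604016) (l 16648384)) (b (a (l 16594656) (l 16503904)) (l 16617520)))))) (a (c (c (b (l 16547696) (c (b (l 16619896) (l 16663624)) (l 16648432))) (l 16577112)) (l 16610984)) (c (b (l 16510032) (a (c (b (l 16643112) (l 16652920)) (l 16657176)) (c (b (l 16570888) (c (l 16626568) (l 16628744))) (l 16595840)))) (l 16559048)))) (b (a (c (b (l 16717504) (l 16745272)) (c (c (l 16558432) (c (l 16733872) (l 16662048))) (c (l 16709464) (l 16736536)))) (c (c (l 16719616) (b (l 16689368) (l 16742056)))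 (c (c (b (a (l 16700952) (l 16667864)) (l 16741496)) (a (b (l 16703120) (l 16764776)) (a (l 16706976) (l 16685320)))) (a (c (l 16749712) (l 16744728)) (l 16664768))))) (a (l 16762696) (c (a (l 16751184) (l 16754920)) (c (c (b (l 16752760) (l 16738920)) (a (l 16763832) (l 16763792))) (a (b (l 16752592) (l 16732696)) (c (c (l 16755216) (l 16758368)) (l 16752104))))))))), by decide +kernel⟩

def k38_pp_123 : ∃ t, chk3 f_pp_123 t 77 17 3 = true :=
  ⟨(b (l 15877320) (c (b (b (c (c (l 16343032) (a (l 16407584) (l 16257960))) (l 16323464)) (c (a (l 16402456) (l 16281688)) (c (a (l 16500096) (b (l 16333592) (l 16395016))) (a (b (l 16469256) (l 16528640)) (l 16357584))))) (b (c (c (l 16533216) (l 16521432)) (c (a (l 16595256) (l 16454080)) (a (b (l 16566032) (l 16623880)) (b (l 16444240) (l 16481952))))) (c (l 16635320) (a (b (l 16673184) (l 16715608)) (l 16546184))))) (b (c (a (b (l 16388864) (c (l 16451248) (l 16492512))) (l 16302008)) (l 16367840)) (c (b (c (a (c (l 16556544) (l 16607880)) (c (l 16329032)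 (l 16413232))) (l 16445760)) (a (b (l 16561920) (c (l 16715856) (l 16705040))) (c (l 16382040) (l 16466856)))) (b (l 16498440) (a (c (l 16698416) (l 16703248)) (l 16564752))))))), by decide +kernel⟩

def k39_pp_123 : ∃ t, chk3 f_pp_123 t 39 17 1 = true :=
  ⟨(c (b (b (c (l 15601472) (l 15577440)) (c (c (a (b (l 15902576) (l 15974304)) (l 15697632)) (a (b (l 15877192) (l 15989440)) (l 15662168))) (a (c (c (l 15933096) (l 15916544)) (l 15910576)) (l 15646576)))) (c (b (a (c (l 16122048) (l 15956656)) (c (l 15770088) (c (l 15862312) (l 15869552)))) (c (l 16204352) (l 16199040))) (c (a (b (c (l 16109712) (l 16117624)) (l 16323752)) (b (b (l 15814840) (l 15918552)) (l 15956448))) (a (b (b (l 15997608) (l 16042560)) (a (l 16385576) (l 16234928))) (b (b (l 15795008) (l 15918320)) (b (l 15967552) (l 16090960))))))) (b (c (l 15658504) (l 15637768)) (c (a (c (b (b (l 16055448) (c (l 16176472) (a (l 16237144) (l 16090848)))) (a (b (l 16320248) (l 16433656)) (b (l 16181488) (l 16288616)))) (b (l 16101344) (c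 (b (a (l 16333728) (b (l 16166584) (l 16228832))) (a (l 16424448) (l 16290064))) (b (a (b (l 16299384) (l 16360952)) (l 16190088)) (a (b (l 16399240) (l 16452944)) (b (l 16278808) (l 16317872))))))) (b (l 15834424) (a (c (b (c (l 16076792) (l 16071472)) (l 16159472)) (b (l 16056984) (c (l 16172152) (b (l 16134856) (l 16197824))))) (b (l 15927104) (c (l 16044192) (c (b (l 16004904) (l 16067272)) (l 16027952))))))) (a (b (l 16092008) (c (c (b (l 16167512) (a (l 16269824) (l 16226336))) (l 16148656)) (l 16255680))) (l 15924392))))), by decide +kernel⟩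

def k40_pp_123 : ∃ t, chk3 f_pp_123 t 38 9 1 = true :=
  ⟨(a (b (b (c (l 16636760) (l 16634968)) (a (c (l 16686544) (l 16683496)) (c (l 16669440) (l 16665792)))) (b (c (a (l 16695304) (a (l 16668360) (l 16657464))) (a (l 16692544) (a (l 16664656) (l 16653384)))) (c (a (l 16737920) (a (l 16716776) (l 16707936))) (a (l 16736656) (a (l 16714768) (l 16705632)))))) (b (b (b (b (c (c (l 16683440) (l 16679856)) (c (c (l 16680632) (a (a (l 16763520) (l 16712640)) (l 16639000))) (c (c (a (l 16639888) (l 16617992)) (l 16669752)) (c (l 16626832) (l 16678984))))) (l 16720392)) (l 16750320)) (l 16601304)) (b (a (b (l 16659488) (l 16663296)) (b (l 16698672) (l 16650256))) (c (l 16712352) (l 16710248))))), by decide +kernel⟩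

def k41_pp_123 : ∃ t, chk3 f_pp_123 t 39 9 1 = true :=
  ⟨(a (b (b (b (b (c (c (l 16441624) (l 16477560)) (c (c (l 16453104) (a (b (l 16507064) (l 16554480)) (b (l 16370416) (l 16425832)))) (a (c (b (l 16357072) (l 16540976)) (b (l 16494728) (l 16467592))) (c (c (l 16306728) (l 16390008)) (l 16400152))))) (a (c (l 16578904) (a (l 16611816) (c (l 16553904) (c (l 16405456) (l 16480512))))) (c (l 16425960) (c (l 16438968) (c (l 16299664) (l 16324200)))))) (l 16592480)) (l 16671968)) (b (a (l 16641608) (l 16746952)) (a (c (l 16700936) (l 16698456)) (b (b (l 16699096) (l 16669504)) (l 16666384))))) (b (b (b (c (c (l 16160240) (b (l 16214832) (l 16301768))) (c (b (c (c (l 16208360) (l 16192304)) (c (a (l 16260208) (l 16131368)) (a (b (l 16237816) (l 16287464)) (b (l 16118032) (l 16159048))))) (c (l 16316848) (a (b (l 16345848) (l 16396848)) (b (l 16208952) (l 16267120))))) (c (b (c (c (l 16074448) (l 16161920)) (l 16222928)) (a (b (l 16282688) (l 16322992)) (l 16030320))) (b (l 16203992) (a (l 16250096)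 (l 16240112)))))) (b (c (c (l 16390008) (l 16381120)) (c (a (a (l 16463624) (l 16402264)) (l 16328928)) (c (c (l 16227816) (l 16363064)) (c (l 16316800) (l 16367000))))) (l 16433968))) (l 16462048)) (b (l 16661352) (b (l 16710096) (c (l 16555520) (l 16571808)))))), by decide +kernel⟩

def k42_pp_123 : ∃ t, chk3 f_pp_123 t 18 5 1 = true :=
  ⟨(b (a (l 3) (b (b (b (a (a (a (l 3) (c (c (l 448454934679) (l 464561057943)) (c (l 480130310263) (l 559587201063)))) (c (a (b (c (a (l 359871246567) (l 317995334599)) (l 364166211639)) (c (l 492478365783) (l 518248166919))) (c (b (l 16774336) (a (l 367924307895) (l 322290299687))) (b (l 16774288) (l 368998047655)))) (c (a (b (l 377587983367) (l 545091709831)) (l 313163468695)) (a (l 413558284679) (l 315847821511))))) (c (a (c (a (l 16773688) (l 16772232)) (a (l 16773632) (l 16772160))) (c (a (l 16770584) (b (l 16770504) (l 16770240))) (a (l 16770496) (l 16769936)))) (a (c (a (l 16773584) (l 16772088)) (l 16772800)) (c (a (l 16770408) (l 16769848)) (a (l 16770312)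 (l 16769752)))))) (a (a (l 3) (a (l 3) (c (c (l 509121343319) (l 536501755751)) (c (l 564955909975) (l 590725709591))))) (a (a (b (c (c (a (l 375440499175) (l 326048394311)) (l 373293013287)) (c (l 387788526519) (l 16774448))) (l 3)) (c (c (b (l 16775288) (a (l 385641045159) (l 332490844007))) (b (l 16775264) (l 379198592167))) (c (b (l 16775240) (l 392083492503)) (l 312626593639)))) (c (c (c (l 16773728) (l 16773704)) (a (l 16774456) (l 16772736))) (c (a (l 16774416) (l 16772680)) (l 16773576)))))) (a (l 3) (a (l 3) (b (c (a (b (c (l 365776819687) (l 385104171239)) (l 3)) (c (b (l 16775544) (l 372219270327)) (b (l 16775520) (l 389936009287)))) (c (a (l 428590670231) (l 302426046583)) (a (l 435033118295) (l 16753472)))) (l 3))))) (l 3))) (l 3)), by decide +kernel⟩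

def k43_pp_123 : ∃ t, chk3 f_pp_123 t 76 10 1 = true :=
  ⟨(a (b (c (b (a (b (c (b (l 16770072) (l 16769472)) (b (l 16770008) (l 16769376))) (c (l 16770552) (l 16770464))) (c (b (l 16766008) (b (l 16766696) (l 16764512))) (b (l 16765864) (l 16765232)))) (b (a (c (a (l 16774936) (l 16773056)) (a (l 16774904) (l 16773000))) (c (b (l 16763032) (l 16741624)) (l 16762640))) (a (b (c (a (l 413558332967) (b (l 16775216) (l 386177937495))) (a (l 429664459319) (l 294373006167))) (l 3)) (c (b (a (l 16771112) (l 16768664)) (l 365776852519)) (b (l 16769904) (l 379735496183)))))) (b (a (b (c (l 16751920) (l 16772872)) (c (l 16770376) (l 16770280))) (c (b (l 16765728) (l 16765048)) (b (l 16765584) (l 16764864)))) (b (a (c (l 16773904) (l 16773856)) (c (l 16762384) (l 16762128))) (a (b (c (a (l 16770552) (l 16775768)) (l 397452196215)) (l 3)) (c (b (l 16769768) (l 16775736)) (b (l 16769640) (l 16775712))))))) (l 3)) (b (c (b (b (a (l 16755456) (l 16750608)) (a (c (l 16745584) (l 16766408)) (c (l 16744904) (l 16765728))))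 (b (a (c (l 16738568) (l 16759224)) (c (l 16764096) (l 16763880))) (c (a (b (l 16771336) (l 16775672)) (l 16775040)) (a (l 16752520) (l 16775008))))) (b (b (l 16752504) (a (c (l 16766264) (l 16766112)) (c (l 16765576) (l 16765424)))) (b (a (c (l 16758912) (l 16758592)) (c (l 16763656) (l 16763432))) (c (a (l 16773424) (l 16774968)) (a (l 16773360) (l 16774936)))))) (b (c (c (b (a (l 424832663031) (l 334101472519)) (l 566029713415)) (b (a (l 438254428599) (l 279877510199)) (l 585357066247))) (a (c (l 488183430823) (l 490330914471)) (b (c (l 16776264) (l 16776248)) (l 621864287607)))) (l 3)))), by decide +kernel⟩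

def k44_pp_123 : ∃ t, chk3 f_pp_123 t 77 10 1 = true :=
  ⟨(b (b (c (b (l 16757424) (a (l 16761680) (l 16764384))) (a (l 16727752) (l 16758808))) (c (a (b (c (a (l 16765104) (l 16768408)) (a (l 16764912) (l 16768280))) (c (l 16772728) (l 16772648))) (b (l 16766616) (c (a (l 16770000) (l 16765848)) (a (l 16769880) (l 16765648))))) (a (b (c (l 16745640) (l 16766448)) (c (l 16772568) (l 16772488))) (b (l 16766312) (c (a (l 16769752) (l 16765448)) (l 16745896)))))) (b (c (a (b (c (l 16774544) (l 16774496)) (c (a (l 432885725047) (l 16776264)) (l 393694147159))) (b (c (l 16772288) (l 16772200)) (c (l 16774752) (l 16774712)))) (a (b (c (l 16774448) (l 16774400)) (c (l 391009792583) (l 16776424))) (b (c (l 16772120) (l 16772032)) (c (l 16774664) (l 16774624))))) (a (a (l 3) (b (b (c (l 593410129399) (l 616495578455)) (l 3)) (l 3))) (c (b (c (a (l 436106950759) (l 16776240)) (l 389936051751)) (c (l 559050391479) (l 623474900919))) (b (c (l 384567342279) (l 16776416)) (c (l 629917351863) (l 634749188759))))))),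 by decide +kernel⟩

def k45_pp_123 : ∃ t, chk3 f_pp_123 t 38 11 1 = true :=
  ⟨(l 3), by decide +kernel⟩

def k46_pp_123 : ∃ t, chk3 f_pp_123 t 39 10 1 = true :=
  ⟨(a (b (b (c (l 16709448) (l 16707192)) (c (a (b (l 16740400) (l 16749440)) (l 16713432)) (a (b (l 16739152) (l 16748472)) (l 16711208)))) (c (b (a (c (b (a (l 16769272) (l 16764640)) (l 16773128)) (b (a (l 16769136) (l 16764416)) (l 16773056))) (a (b (l 16732168) (a (l 16771056) (l 16769392))) (c (l 16752552) (l 16752120)))) (a (a (c (l 255718324007) (l 257865807655)) (c (l 16775352) (l 16775320))) (c (l 16774304) (l 16774248)))) (b (a (c (b (a (l 16769000) (l 16764192)) (l 16772984)) (b (l 16765536) (l 16772912))) (c (b (l 16745176) (l 16765216)) (b (l 16744616) (l 16765008)))) (a (c (l 270750709319) (l 16775528)) (c (l 16774200) (l 16774144)))))) (b (b (c (a (l 16643536) (l 16601896)) (a (l 16638936) (l 16595832))) (c (l 16612072) (l 16628736))) (c (b (a (c (l 16728464) (l 16727616)) (l 16689944)) (a (c (b (a (l 16769720) (l 16763456))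 (l 16773416)) (b (a (l 16769584) (l 16763216)) (l 16773344))) (b (l 16738752) (c (a (l 16769416) (l 16761488)) (a (l 16769280) (l 16761216)))))) (b (a (c (l 16726752) (l 16725880)) (l 16686880)) (a (c (b (a (l 16769456) (l 16762968)) (l 16773280)) (b (l 16764432) (l 16773208))) (b (l 16737400) (c (a (l 16769136) (l 16760936)) (l 16763208)))))))), by decide +kernel⟩

def k47_pp_123 : ∃ t, chk3 f_pp_123 t 39 11 1 = true :=
  ⟨(a (b (b (c (c (a (b (l 564419100519) (l 3)) (b (l 247128390135) (l 548849842647))) (a (l 597168226183) (b (l 16776344) (l 543481133527)))) (a (c (l 591799517063) (l 583209582471)) (c (b (l 16776328) (l 534354328007)) (l 425369528615)))) (l 3)) (l 3)) (b (c (b (a (c (b (l 16775144) (l 16776288)) (l 16775680)) (c (b (l 16772952) (l 16775264)) (l 16773056))) (a (b (c (l 519321942327) (l 510195136807)) (l 3)) (c (b (l 16776208) (l 469929818871)) (b (l 16776192) (l 16776896))))) (b (a (c (l 16775656) (l 16775624)) (c (l 16772984) (l 16772904))) (a (c (l 560661001991) (l 543481132151))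 (c (l 365239990519) (l 16776464))))) (a (l 3) (a (l 3) (b (b (c (l 677161991831) (l 638507285847)) (l 3)) (l 3)))))), by decide +kernel⟩

def k48_pp_123 : ∃ t, chk3 f_pp_123 t 10 8 1 = true :=
  ⟨(b (a (a (b (a (c (b (l 14526936) (l 14567288)) (b (l 14445400) (l 14483952))) (b (l 14348376) (b (l 14328472) (c (l 14390744) (l 14300360))))) (c (c (a (l 14891304) (l 14641496)) (l 14660208)) (c (l 14685376) (l 14646672)))) (b (l 14592560) (b (a (c (b (l 14498328) (l 14563720)) (l 14337992)) (b (l 14689112) (c (l 14740704) (l 14660896)))) (a (c (l 14709032) (l 14630152)) (c (l 14825144) (l 14750880)))))) (a (b (l 15112048) (b (l 15069320) (c (a (l 15001952) (l 15219808)) (a (l 14932608) (l 15158096))))) (l 15577368))) (a (a (c (b (c (l 15197480) (l 15166408)) (c (a (b (c (l 15419656) (l 15403432)) (c (l 15816488) (l 15716456))) (b (c (l 15438208) (l 15401240)) (c (l 15619384) (l 15484336)))) (a (c (b (c (l 15607528) (l 15594848)) (c (l 15806344) (l 15813392))) (b (l 15586640) (b (l 15765728) (l 15843152))))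 (b (l 15382000) (c (b (l 15565912) (l 15685480)) (b (l 15547168) (l 15678808))))))) (c (b (l 15136320) (a (b (l 15570080) (c (a (b (l 15799096) (b (l 15878872) (l 15947832))) (l 15734864)) (l 15785712))) (l 15471608))) (b (l 15105776) (l 15556192)))) (c (b (a (l 15006616) (l 14933112)) (c (b (a (l 15317048) (l 15341488)) (a (c (l 15390592) (l 15349264)) (c (a (l 15271640) (l 15533080)) (l 15507648)))) (a (l 15392904) (l 15401616)))) (a (b (l 14937936) (l 15354072)) (b (l 15013480) (l 15362776))))) (c (b (a (a (l 15201488) (l 15333384)) (a (l 15500304) (l 15693800))) (a (l 15455072) (l 15769096))) (a (b (a (l 15139136) (l 15276688)) (l 15491464)) (b (a (l 15448272) (l 15648712)) (l 15729672)))))), by decide +kernel⟩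

def k49_pp_123 : ∃ t, chk3 f_pp_123 t 20 72 1 = true :=
  ⟨(a (c (c (c (l 15951904) (l 15933688)) (c (a (l 16029624) (l 15819856)) (a (b (l 15949312) (l 16076904)) (b (l 15784848) (l 15874544))))) (c (c (a (c (b (l 15954808) (l 16072064)) (b (a (l 16008056) (l 15914576)) (l 16054856))) (c (b (l 15785440) (l 15880112)) (b (c (l 15769744) (l 15763712)) (a (l 15925440) (l 15847592))))) (a (c (a (b (l 16016376) (l 16105712)) (b (c (l 15908008) (l 15897952)) (l 16010168))) (b (a (l 15909768) (l 15894928)) (a (b (l 16083808) (l 16132536)) (l 15901336)))) (b (l 15757896) (c (a (l 15933024) (l 15727344)) (l 15843192))))) (a (b (l 15940432) (c (c (l 15896168) (l 16084784)) (l 16062344))) (l 15802992)))) (a (c (c (c (l 15715648) (l 15702088)) (c (c (l 15707080) (l 15712696)) (b (l 15676472) (l 15766608)))) (b (l 15622080) (c (c (c (l 15767328) (l 15741440)) (l 15734312)) (l 15719936)))) (c (c (a (c (l 15670496) (a (l 15670912) (l 15678008))) (l 15572864)) (b (l 15622600) (c (a (l 15716720) (l 15735176)) (a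 (l 15690176) (l 15713656))))) (l 15635896)))), by decide +kernel⟩

def k50_pp_123 : ∃ t, chk3 f_pp_123 t 20 73 1 = true :=
  ⟨(a (a (c (c (l 16053720) (b (l 16196856) (l 16267504))) (b (c (c (l 16189000) (a (b (l 16195936) (l 16252384)) (b (l 16092792) (l 16157480)))) (c (a (b (l 16177264) (l 16243896)) (l 16046760)) (a (l 16186928) (l 16127192)))) (c (a (b (l 16281920) (l 16317928)) (l 16230488)) (c (l 16095320) (l 16052912))))) (c (c (l 16090704) (b (l 16009456) (l 16130624))) (c (b (c (c (l 15998264) (l 15983424)) (c (a (l 16028384) (l 15944848)) (a (l 15975632) (l 15920704)))) (c (l 16121640) (a (b (l 16124400) (l 16183176)) (b (l 16026584) (l 16090992))))) (c (b (l 15843984) (a (b (l 16108344) (l 16146688)) (l 16046136))) (l 15887864))))) (a (c (c (l 15930168) (b (c (l 15866744) (l 15850888)) (l 15966496))) (c (c (b (c (l 15851816) (a (l 15877728) (l 15830968))) (a (l 15989472) (l 15911712))) (c (a (b (l 15884112) (l 15974008)) (l 15653168)) (a (l 15761536) (l 15905296)))) (c (l 15771464) (l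 15878288)))) (c (c (l 15642392) (a (b (c (l 15791992) (l 15794664)) (l 15880472)) (b (l 15793096) (l 15879840)))) (c (a (a (c (b (l 15799552) (l 15874432)) (l 15682968)) (c (b (l 15792056) (l 15873360)) (l 15866104))) (b (l 15787104) (c (l 15800224) (l 15912864)))) (l 15810464))))), by decide +kernel⟩

def k51_pp_123 : ∃ t, chk3 f_pp_123 t 20 37 1 = true :=
  ⟨(a (a (l 16402624) (b (b (c (c (l 16215496) (l 16203528)) (c (a (b (l 16215368) (l 16253048)) (l 16165032)) (c (c (l 16172888) (l 16103648)) (l 16133464)))) (l 16267576)) (l 16344544))) (b (a (c (c (l 16102440) (b (l 16082416) (l 16146176))) (c (c (b (l 16072456) (l 16138664)) (a (c (b (l 16096800) (l 16165752)) (l 16096680)) (b (l 15926128) (l 16105960)))) (c (c (b (a (l 15902184) (l 15998600)) (l 16117752)) (b (l 16059432) (l 16112888))) (b (l 16072672) (l 16117712))))) (a (c (c (l 16044864) (l 16010720)) (a (c (b (c (l 15972224) (l 15909696)) (l 16062904)) (c (b (l 15974504) (l 15966256)) (l 16022344))) (c (c (l 15990896) (l 15960048)) (l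 15983808)))) (c (c (l 16029664) (l 16014576)) (c (c (l 15808536) (l 15982656)) (l 15995144))))) (a (l 16231752) (b (a (c (l 16131000) (b (c (l 16106968) (a (l 16084392) (l 16081136))) (l 16133248))) (c (a (l 16139416) (l 16148640)) (a (c (l 16121624) (l 16101168)) (c (l 16131064) (l 16116656))))) (a (l 16181248) (a (l 16178016) (l 16188288))))))), by decide +kernel⟩

def k52_pp_123 : ∃ t, chk3 f_pp_123 t 20 19 1 = true :=
  ⟨(a (a (b (l 16598416) (l 16603184)) (b (l 16499248) (l 16706664))) (a (b (l 16386696) (l 16595544)) (a (b (l 16303864) (l 16502304)) (a (l 16372312) (b (l 16278808) (l 16437928)))))), by decide +kernel⟩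

def k53_pp_123 : ∃ t, chk3 f_pp_123 t 21 9 1 = true :=
  ⟨(b (a (c (b (b (c (c (l 15574752) (a (l 15745000) (l 15794264))) (l 15744672)) (c (a (l 15826496) (l 15868200)) (a (c (l 15875640) (b (l 15844752) (l 15915512))) (b (l 15883080) (c (l 15963736) (l 15955704)))))) (b (a (c (l 16037200) (b (l 15973728) (l 16061136))) (c (l 16055672) (c (l 16040848) (b (l 16019416) (l 16070424))))) (c (l 16186768) (a (l 16166456) (b (l 16148248) (l 16218024)))))) (b (c (a (c (l 15624704) (l 15768488)) (l 15830792)) (l 15781568)) (b (c (c (a (l 15775872) (l 16072664)) (l 15935568)) (l 16025600)) (c (c (a (l 16023328) (b (l 16116968) (l 16209992))) (a (c (l 16155824) (l 16119952)) (l 16108448))) (a (c (l 16144624) (l 16148216)) (l 16183864)))))) (c (b (c (b (l 15930792) (c (l 16049664) (a (l 16005160) (l 16074072)))) (l 15967280)) (c (a (b (l 16093864) (l 16216904)) (b (l 16166936) (l 16254480))) (a (c (b (l 16098336) (l 16208952)) (l 16021520)) (l 16008152)))) (b (l 15943936) (c (a (l 16069256) (l 16218456)) (l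 16166536))))) (b (a (a (l 16288632) (b (b (c (l 16266712) (c (l 16211176) (l 16240224))) (l 16300904)) (l 16348120))) (c (c (b (l 16336640) (l 16395256)) (a (b (l 16312664) (l 16382784)) (l 16244264))) (a (c (c (l 16319040) (l 16267648)) (l 16293880)) (b (l 16200240) (l 16282480))))) (l 16454000))), by decide +kernel⟩

def k54_pp_123 : ∃ t, chk3 f_pp_123 t 80 5 1 = true :=
  ⟨(b (c (b (b (b (l 16525120) (a (l 16555000) (l 16525112))) (l 16559168)) (b (l 16602336) (l 16673040))) (b (b (b (l 16539560) (l 16476456)) (l 16551528)) (b (l 16617904) (l 16691088)))) (a (b (c (b (c (b (a (l 16768424) (l 16757568)) (l 16772032)) (b (a (l 16768272) (l 16757224)) (l 16771936))) (c (l 16775768) (l 16775744))) (b (c (b (a (l 16768120) (l 16756880)) (l 16771848)) (b (l 16760864) (l 16771752))) (c (l 16775712) (l 16775688)))) (b (c (c (b (l 16776784) (l 648707832727)) (b (l 16776776) (l 626696125335))) (c (l 479056624039) (l 457581786247))) (l 3))) (b (c (b (b (l 16724984) (a (c (l 16766128) (l 16765936)) (c (l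 16749976) (l 16749496)))) (c (a (l 16775360) (b (l 16770640) (l 16775464))) (a (l 16775328) (l 16770704)))) (b (b (l 16723152) (c (a (l 16765736) (l 16749016)) (l 16756560))) (a (l 16775272) (c (l 16770592) (l 16770472))))) (c (b (c (l 16776392) (l 16776376)) (c (b (l 559587261479) (l 832854556663)) (l 632064833367))) (b (c (l 16776368) (l 16776352)) (c (l 600926320791) (l 567103452999))))))), by decide +kernel⟩

def k55_pp_123 : ∃ t, chk3 f_pp_123 t 81 5 1 = true :=
  ⟨(b (b (b (c (l 16422824) (l 16459048)) (c (a (l 16472224) (b (l 16481672) (l 16448280))) (a (l 16483240) (b (l 16471328) (l 16436736))))) (c (b (l 16522192) (l 16576064)) (b (l 16513240) (l 16590712)))) (b (b (c (a (l 16696088) (l 16645200)) (a (l 16693240) (l 16640568))) (c (b (a (a (a (l 16765640) (l 16756520)) (l 16737896)) (l 16699632)) (c (a (a (l 16773528) (l 16767192)) (l 16736512)) (a (a (l 16773464) (l 16767016)) (l 16735800)))) (c (a (b (l 16749200) (a (l 16773400) (l 16766840))) (l 16706528)) (a (b (l 16748712) (l 16746424))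 (l 16715968))))) (c (a (b (c (l 16775952) (l 16775928)) (c (b (l 16776576) (l 16776936)) (l 16776736))) (b (c (a (b (l 16770680) (l 16775992)) (b (l 16758264) (l 16772856))) (a (l 16760232) (b (l 16757936) (l 16772776)))) (c (l 16776408) (l 16776392)))) (a (b (c (l 16775904) (l 16775888)) (c (l 16776728) (l 16776720))) (b (c (a (l 16770600) (b (l 16757600) (l 16772704))) (a (l 16770488) (l 16741928))) (c (l 16776384) (l 16776368))))))), by decide +kernel⟩

def k56_pp_123 : ∃ t, chk3 f_pp_123 t 41 10 1 = true :=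
  ⟨(a (b (b (l 16538328) (a (b (l 16529824) (c (l 16441592) (l 16429816))) (l 16525720))) (b (a (c (l 16447888) (l 16436328)) (c (b (l 16424264) (l 16413464)) (b (l 16411880) (l 16400696)))) (c (l 16445424) (l 16477200)))) (b (a (b (l 16681232) (l 16490152)) (b (a (l 16639256) (l 16559152)) (a (l 16665672) (l 16638856)))) (a (c (b (a (l 16416016) (l 16495752)) (a (l 16418936) (l 16421656))) (b (a (l 16425048) (l 16485872)) (a (l 16406360) (l 16409176)))) (b (a (l 16554488) (c (l 16630384) (l 16646936))) (a (a (b (l 16436608) (l 16415960)) (c (l 16469136) (l 16458320))) (a (a (a (l 16497640) (l 16527440)) (l 16546824)) (l 16552464))))))), by decide +kernel⟩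

def k57_pp_123 : ∃ t, chk3 f_pp_123 t 41 11 1 = true :=
  ⟨(a (b (c (a (b (l 16590504) (l 16662688)) (b (l 16532456) (l 16603080))) (b (l 16489440) (l 16521184))) (c (a (b (a (b (l 16730616) (c (l 16763408) (l 16763168))) (l 16719312)) (a (c (l 16774328) (l 16774280)) (b (c (l 16766248) (l 16766056)) (l 16775512)))) (b (l 16672408) (a (b (l 16740624) (c (l 16767480) (l 16767312))) (l 16724512)))) (a (b (a (c (l 16747456) (l 16746944)) (l 16717280)) (a (c (l 16774224) (l 16774176)) (c (b (l 16765864) (l 16775472)) (l 16767312)))) (b (l 16668728) (a (b (l 16739344) (c (l 16767136) (l 16766960))) (l 16722664)))))) (b (a (c (b (l 16477440) (l 16542760)) (b (l 16466920) (l 16534528))) (a (c (b (b (l 16446048) (l 16470800)) (l 16511816)) (b (l 16446768) (l 16502504))) (a (a (a (c (l 16479304) (l 16468848)) (a (c (b (l 16456896) (l 16496496)) (l 16469008)) (c (b (b (l 16457632) (l 16458816)) (l 16493168)) (b (l 16450192) (l 16483192))))) (c (b (l 16461848) (l 16492544)) (l 16470000))) (c (b (l 16466392)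 (l 16495024)) (l 16452824))))) (a (c (b (l 16585920) (l 16586040)) (b (l 16600912) (l 16645192))) (a (c (b (l 16565696) (l 16597704)) (b (l 16558272) (l 16613104))) (a (a (a (c (l 16573296) (l 16566136)) (a (c (l 16566776) (l 16559384)) (c (b (l 16538896) (l 16583848)) (l 16532784)))) (c (l 16559464) (l 16551816))) (c (l 16561176) (l 16553592))))))), by decide +kernel⟩

def k58_pp_123 : ∃ t, chk3 f_pp_123 t 21 5 1 = true :=
  ⟨(c (b (b (l 16625712) (a (l 16581632) (l 16734224))) (b (a (b (l 16441528) (l 16524576)) (b (l 16624232) (l 16593208))) (a (l 16561104) (l 16627472)))) (b (b (l 16620992) (a (l 16577712) (l 16732720))) (b (a (b (l 16495600) (l 16515704)) (b (l 16618864) (l 16586744))) (a (l 16575224) (l 16622216))))), by decide +kernel⟩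

def k59_pp_123 : ∃ t, chk3 f_pp_123 t 11 2 1 = true :=
  ⟨(b (a (b (b (l 16121560) (a (b (b (l 15989704) (c (l 16002280) (l 15970824))) (c (l 16059904) (l 16032024))) (b (l 16424328) (c (l 16421088) (l 16406864))))) (b (a (c (b (l 16189792) (a (c (l 16125688) (l 16299432)) (l 16298992))) (b (l 16166672) (l 16292616))) (c (b (l 16464688) (l 16528368)) (l 16477416))) (b (c (a (c (b (l 16395248) (l 16481088)) (b (l 16329848) (l 16409800))) (l 16562472)) (a (b (l 16393528) (l 16468072)) (l 16565128))) (a (a (l 16522184) (c (l 16537208) (l 16537744))) (c (l 16622752) (l 16618648)))))) (b (b (l 16729008) (c (l 16661552) (l 16652944))) (b (c (l 16650592) (l 16646160)) (a (c (l 16678792) (l 16675360)) (l 16677568))))) (a (b (b (c (l 16684864) (l 16681352)) (c (l 16773448) (l 16773312))) (b (b (l 16672216) (a (l 16605192) (l 16742464))) (c (a (l 16680424) (l 16740816)) (l 16624840)))) (b (b (c (l 16744400) (b (l 16723376) (l 16765544))) (l 16777168)) (c (b (l 16777176) (l 16777120)) (b (l 16777176) (l 16777120)))))),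 by decide +kernel⟩

def k60_pp_123 : ∃ t, chk3 f_pp_123 t 3 2 1 = true :=
  ⟨(b (a (b (b (l 16729656) (l 16612120)) (c (a (l 16638784) (l 16659752)) (a (l 16655616) (l 16655616)))) (b (a (l 16688176) (l 16688176)) (c (l 16659752) (l 16655616)))) (a (b (c (a (b (l 16744544) (l 16777216)) (a (l 16759192) (l 16759192))) (a (b (l 16743400) (l 16777216)) (b (l 16743400) (l 16777216)))) (c (a (b (l 16777216) (l 16777216)) (l 16777216)) (a (b (l 16777216) (l 16777216)) (l 16777216)))) (b (a (b (l 16743968) (l 16777216)) (l 16716936)) (c (l 16777216) (l 16777216))))), by decide +kernel⟩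

def k61_pp_123 : ∃ t, chk3 f_pp_123 t 4 3 1 = true :=
  ⟨(b (l 3) (b (l 3) (l 3))), by decide +kernel⟩

def k62_pp_123 : ∃ t, chk3 f_pp_123 t 40 6 1 = true :=
  ⟨(a (l 3) (b (b (a (b (c (c (l 783999303591) (l 752860790023)) (c (l 719037922567) (l 683067571463))) (l 3)) (c (b (c (a (l 16777040) (l 16776888)) (l 408189664631)) (c (l 898889678807) (l 872046132711))) (b (c (l 16776928) (l 16776920)) (c (l 835002039623) (l 795273592135))))) (l 3)) (l 3))), by decide +kernel⟩

def k63_pp_123 : ∃ t, chk3 f_pp_123 t 82 6 1 = true :=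
  ⟨(b (b (c (a (b (c (l 16776704) (l 16776696)) (c (a (l 16777112) (l 16777008)) (a (l 16777104) (l 16777000)))) (a (c (b (l 16775904) (l 16776928)) (l 16775592)) (b (a (c (l 16772560) (l 16772472)) (b (a (l 16768552) (l 16761960)) (l 16775856))) (c (l 16776904) (l 16776904))))) (a (b (c (l 16776688) (l 16776680)) (c (l 16777024) (l 16777024))) (b (a (c (l 16775856) (l 16775832)) (c (b (l 16766848) (l 16775584)) (b (l 16766664) (l 16775552)))) (c (l 16776896) (l 16776888))))) (a (b (c (c (l 967072284631) (l 960092962455)) (c (l 931638804119) (l 889226001735))) (l 3)) (a (c (b (c (l 16777136) (l 16777136)) (c (l 1416433238023) (l 1368114855863))) (b (c (l 16777136) (l 16777136)) (l 1285973606327))) (c (c (b (l 16777072) (b (l 16777184) (l 1202758614951))) (b (l 16777072) (l 887078518583))) (c (b (l 16777072) (l 850034425655)) (b (l 16777064) (l 16777192))))))) (l 3)), by decide +kernel⟩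

def k64_pp_123 : ∃ t, chk3 f_pp_123 t 166 6 1 = true :=
  ⟨(b (a (b (c (b (b (l 16737752) (c (a (l 16771472) (l 16760856)) (a (l 16771376) (l 16760576)))) (c (b (l 16774152) (l 16776976)) (b (l 16774104) (l 16776968)))) (b (b (l 16736368) (c (a (l 16771272) (l 16760280)) (l 16764240))) (c (l 16773800) (l 16773744)))) (c (c (c (l 338396446631) (l 16777104)) (b (l 16777048) (l 16777152))) (c (b (l 16777048) (l 16777152)) (b (l 16777048) (l 16777152))))) (b (b (c (l 16714936) (l 16712744)) (a (c (c (b (l 16767776) (l 16776352)) (b (l 16767608) (l 16776336))) (c (l 16748304) (l 16769136))) (c (b (l 16749120) (c (l 16770704) (l 16770592))) (b (l 16748136) (c (l 16770480) (l 16770360)))))) (c (c (c (l 16777120) (l 16777120)) (c (l 16777112) (l 16777112))) (c (c (l 16777112) (l 16777112)) (c (l 16777112) (l 16777112)))))) (b (a (b (c (c (b (l 1084110143399) (l 3)) (l 1235507740503)) (c (l 1234433998679) (l 16777208))) (l 3)) (c (a (b (c (l 16777200) (l 16777200)) (l 3)) (c (b (l 16777192) (l 1537766064055))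 (b (l 16777184) (l 1539913547703)))) (c (b (c (l 16777184) (l 16777184)) (l 1541524160343)) (b (l 16777184) (l 1520586194775))))) (l 3))), by decide +kernel⟩

def k65_pp_123 : ∃ t, chk3 f_pp_123 t 167 12 1 = true :=
  ⟨(c (a (b (b (l 16628872) (a (a (b (l 16732520) (l 16760232)) (l 16733864)) (l 16711792))) (a (c (b (b (b (l 16770312) (l 16774576)) (l 16777160)) (l 16777168)) (b (b (l 16771128) (l 16777152)) (l 16777168))) (a (b (c (b (l 16759072) (l 16773928)) (b (l 16758760) (l 16773872))) (c (l 16777200) (l 16777200))) (b (b (l 16741440) (c (l 16765224) (l 16765016))) (c (b (l 16774776) (l 16777216)) (b (l 16774728) (l 16777216))))))) (a (a (a (b (l 16667824) (b (l 16737120) (c (b (l 16769704) (l 16776528)) (b (l 16769576) (l 16776520))))) (a (b (l 16658080) (b (l 16725016) (b (l 16758024) (c (b (l 16772968) (l 16776256)) (l 16773616))))) (b (b (l 16628112) (l 16671744)) (b (l 16714824) (b (l 16746840) (a (a (c (l 16770184) (l 16770056)) (b (l 16759720) (c (l 16770424) (l 16770304)))) (l 16762616)))))))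 (b (l 16646408) (b (l 16710144) (l 16751976)))) (b (l 16647128) (b (l 16710136) (l 16751488))))) (a (b (a (a (c (l 16717944) (l 16716920)) (l 16704864)) (l 16641784)) (a (b (b (c (l 16771024) (l 16770920)) (l 16777152)) (c (l 16777168) (l 16777168))) (a (b (c (l 16765856) (l 16765656)) (c (l 16777200) (l 16777200))) (b (b (l 16740184) (a (l 16769512) (l 16760408))) (c (l 16774536) (l 16774488)))))) (a (a (a (b (l 16663984) (b (l 16735712) (c (b (l 16769440) (l 16776504)) (l 16771032)))) (b (b (l 16605808) (l 16651680)) (b (l 16676000) (a (b (l 16757344) (c (l 16773552) (l 16773488))) (a (a (c (l 16759896) (l 16759592)) (b (l 16742760) (c (l 16764848) (l 16764632)))) (l 16751280)))))) (b (l 16641816) (b (l 16707792) (l 16751088)))) (b (l 16642560) (b (l 16707776) (l 16750584)))))), by decide +kernel⟩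

def k66_pp_123 : ∃ t, chk3 f_pp_123 t 334 13 1 = true :=
  ⟨(a (b (c (c (b (l 16777192) (c (l 16777208) (l 16777208))) (b (l 16777192) (l 16777208))) (c (b (l 16777192) (l 16777208)) (b (l 16777192) (l 16777208)))) (a (l 3) (b (b (c (l 2404812586999) (l 16777216)) (l 3)) (l 3)))) (b (c (c (c (b (l 16777208) (l 16777216)) (b (l 16777208) (l 16777216))) (c (b (l 16777208) (l 16777216)) (l 16777208))) (c (c (l 16777208) (l 16777208)) (b (l 16777208) (l 16777216)))) (c (a (b (c (l 2105775489015) (l 16777216)) (l 3)) (c (b (c (l 16777216) (l 16777216)) (l 7901296984071)) (b (l 16777216) (l 7707486584839)))) (c (b (b (l 16777216) (l 16777216)) (l 7346709331975)) (b (b (l 16777216) (l 16777216)) (l 7061094006775)))))), by decide +kernel⟩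

def k67_pp_123 : ∃ t, chk3 f_pp_123 t 335 13 1 = true :=
  ⟨(a (a (a (b (c (c (c (l 16777216) (l 16777216)) (c (l 16777216) (l 16777216))) (c (l 16777216) (l 16777216))) (c (c (b (l 16777216) (l 4164675436551)) (b (l 16777216) (l 16777216))) (c (b (l 16777216) (l 16777216)) (b (l 16777216) (l 16777216))))) (a (b (c (c (c (l 16777216) (l 16777216)) (c (l 16777216) (l 16777216))) (c (l 16777216) (l 16777216))) (c (c (b (l 16777216) (b (l 16777216) (l 16777216))) (b (l 16777216) (l 16777216))) (c (b (l 16777216) (l 16777216)) (b (l 16777216) (l 16777216))))) (a (a (b (c (c (b (l 16777216) (l 16777216)) (b (l 16777216) (l 16777216))) (c (l 16777000) (l 16776992))) (c (c (b (l 16777216) (l 16777216)) (b (l 16777216) (l 16777216))) (c (l 16777216) (l 16777216)))) (b (c (c (b (b (b (l 16776288) (l 16777216)) (l 16777216)) (l 16777216)) (b (b (l 16776224) (l 16777216)) (l 16777216))) (c (b (b (l 16776208) (l 16777216)) (l 16777216)) (b (l 16776080) (l 16777216)))) (c (c (b (l 16777216) (l 16777216)) (b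 (l 16777216) (l 16777216))) (c (b (l 16777216) (l 16777216)) (l 16777216))))) (b (c (b (c (l 16776232) (l 16776216)) (l 16777216)) (c (l 16776080) (l 16776056))) (c (c (l 16777216) (l 16777216)) (c (l 16777216) (l 16777216))))))) (b (c (b (c (l 16776128) (l 16776104)) (l 16777216)) (b (l 16776080) (l 16777216))) (c (c (l 16777216) (l 16777216)) (c (l 16777216) (l 16777216))))) (b (c (b (c (l 16775920) (l 16775896)) (l 16777216)) (b (l 16775864) (l 16777216))) (c (c (l 16777216) (l 16777216)) (c (l 16777216) (l 16777216))))), by decide +kernel⟩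

def k68_pp_123 : ∃ t, chk3 f_pp_123 t 21 6 1 = true :=
  ⟨(b (b (c (c (a (l 16657784) (l 16681832)) (l 16625160)) (a (l 16589600) (l 16677624))) (c (b (a (l 16711440) (l 16720256)) (a (l 16726424) (l 16746072))) (b (l 16712760) (a (l 16746352) (l 16744976))))) (b (c (b (a (b (c (l 16771936) (l 16771848)) (l 16776920)) (l 16770216)) (c (l 16777216) (l 16777216))) (b (a (b (l 16771704) (l 16776912)) (l 16769968)) (l 16777216))) (c (c (c (l 16777216) (l 16777216)) (b (l 16777216) (l 16777216))) (c (b (l 16777216) (l 16777216)) (l 16777216))))), by decide +kernel⟩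

def k69_pp_123 : ∃ t, chk3 f_pp_123 t 40 7 1 = true :=
  ⟨(b (l 3) (b (l 3) (l 1))), by decide +kernel⟩

def k70_pp_123 : ∃ t, chk3 f_pp_123 t 82 14 1 = true :=
  ⟨(l 3), by decide +kernel⟩

def k71_pp_123 : ∃ t, chk3 f_pp_123 t 83 28 1 = true :=
  ⟨(a (l 3) (b (a (l 3) (a (a (a (b (l 3) (c (c (l 16777216) (l 16777216)) (l 4729463635975))) (a (b (l 3) (c (c (l 16777216) (l 16777216)) (c (l 16777216) (l 16777216)))) (c (c (b (b (l 16777216) (l 16777216)) (c (l 16777216) (l 16777216))) (b (b (l 16777216) (l 16777216)) (b (l 16777216) (l 16777216)))) (c (b (l 16777216) (l 16777216)) (b (l 16777216) (l 16777216)))))) (c (c (l 16777216) (l 16777216)) (c (l 16777216) (l 16777216)))) (c (c (l 16777216) (l 16777216)) (c (l 16777216) (l 16777216))))) (a (a (l 3) (c (c (c (b (l 16777216) (l 16777216)) (l 1511996260359)) (c (l 1507701293063) (l 16777216))) (c (c (l 16777216) (l 16777216)) (b (l 16777216) (l 16777216))))) (a (a (a (c (c (l 16777216) (l 16777216)) (c (l 16777216) (l 16777216))) (a (c (c (l 16777216)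 (l 16777216)) (c (l 16777216) (l 16777216))) (a (a (c (c (l 16777216) (l 16777216)) (c (l 16777216) (l 16777216))) (c (c (c (l 16777216) (l 16777216)) (l 16777216)) (c (l 16777216) (l 16777216)))) (c (c (l 16777216) (l 16777216)) (l 16777216))))) (c (c (l 16777216) (l 16777216)) (l 16777216))) (c (c (l 16777216) (l 16777216)) (l 16777216)))))), by decide +kernel⟩

def k72_pp_123 : ∃ t, chk3 f_pp_123 t 83 29 1 = true :=
  ⟨(b (a (a (l 3) (c (c (c (l 1496427003863) (l 1460456652727)) (l 1407843303351)) (c (l 1338586955703) (l 1270404349879)))) (a (a (c (c (c (l 16777216) (l 16777216)) (c (l 16777216) (l 16777216))) (c (l 16777216) (l 16777208))) (c (c (c (l 16777216) (l 16777216)) (c (l 16777216) (l 16777216))) (c (b (l 16777216) (l 16777216)) (b (l 16777216) (l 16777216))))) (a (a (a (c (c (l 16777216) (l 16777216)) (c (l 16777216) (l 16777216))) (a (c (c (l 16777216) (l 16777216)) (c (l 16777216) (l 16777216))) (a (a (c (c (l 16777216) (l 16777216)) (c (l 16777216) (l 16777216))) (c (c (c (l 16777216)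 (l 16777216)) (l 16777216)) (c (l 16777216) (l 16777216)))) (c (c (l 16777216) (l 16777216)) (l 16777216))))) (c (c (l 16777216) (l 16777216)) (l 16777216))) (c (c (l 16777216) (l 16777216)) (l 16777216))))) (b (a (a (l 3) (c (c (c (l 16777208) (l 16777208)) (l 745344597927)) (c (l 16777208) (l 16777208)))) (a (c (a (c (l 16777200) (l 16777200)) (c (b (l 16777208) (l 1)) (l 16777208))) (a (c (l 16777200) (l 16777200)) (c (l 16777208) (l 16777208)))) (b (c (a (a (a (c (l 16777216) (l 16777216)) (a (c (l 16777216) (l 16777216)) (a (a (l 16777216) (c (l 16777216) (l 16777216))) (l 16777216)))) (l 16777216)) (l 16777216)) (a (a (a (l 16777216) (a (l 16777216) (c (c (l 16777216) (l 16777216)) (c (l 16777216) (l 16777216))))) (l 16777216)) (l 16777216))) (l 1)))) (l 1))), by decide +kernel⟩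

def k73_pp_123 : ∃ t, chk3 f_pp_123 t 41 15 1 = true :=
  ⟨(l 1), by decide +kernel⟩

def k74_pp_123 : ∃ t, chk3 f_pp_123 t 21 7 1 = true :=
  ⟨(b (b (c (b (b (c (l 16777216) (l 16777216)) (c (l 16777216) (l 16777216))) (c (l 16777216) (l 16777216))) (b (c (l 16777216) (l 16777216)) (c (l 16777216) (l 16777216)))) (c (c (b (l 16777216) (l 16777216)) (b (l 16777216) (l 16777216))) (c (b (l 16777216) (l 16777216)) (b (l 16777216) (l 16777216))))) (l 1)), by decide +kernel⟩

def k75_pp_123 : ∃ t, chk3 f_pp_123 t 11 3 1 = true :=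
  ⟨(b (a (b (c (b (l 16689736) (c (l 16753560) (l 16753144))) (b (l 16730080) (l 16710576))) (b (c (b (l 16769544) (a (l 16776336) (l 16776432))) (b (l 16769272) (l 16775760))) (c (c (l 16777216) (l 16777216)) (c (l 16777216) (l 16777216))))) (b (c (b (l 16777136) (l 16777168)) (b (l 16777136) (l 16777168))) (b (c (l 16777200) (l 16777200)) (c (l 16777216) (l 16777216))))) (b (b (c (b (a (l 16777216) (l 16777216)) (c (l 16777216) (l 16777216))) (c (a (l 16777216) (l 16777216)) (a (l 16777216) (l 16777216)))) (l 1)) (l 1))), by decide +kernel⟩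

def k76_pp_123 : ∃ t, chk3 f_pp_123 t 3 3 1 = true :=
  ⟨(b (a (a (b (c (b (l 16777216) (l 16777216)) (b (l 16777216) (l 16777216))) (c (b (l 16777216) (l 16777216)) (b (l 16777216) (l 16777216)))) (b (c (l 16777216) (l 16777216)) (a (b (l 16777216) (l 1)) (l 1)))) (a (b (b (l 16777216) (l 1)) (l 1)) (l 1))) (l 1)), by decide +kernel⟩

theorem s77_pp_123 : ∃ t, chk3 f_pp_123 t 83 14 1 = true := ex3_b k71_pp_123 k72_pp_123

theorem s78_pp_123 : ∃ t, chk3 f_pp_123 t 41 14 1 = true := ex3_a k70_pp_123 s77_pp_123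

theorem s79_pp_123 : ∃ t, chk3 f_pp_123 t 41 7 1 = true := ex3_b s78_pp_123 k73_pp_123

theorem s80_pp_123 : ∃ t, chk3 f_pp_123 t 20 7 1 = true := ex3_a k69_pp_123 s79_pp_123

theorem s81_pp_123 : ∃ t, chk3 f_pp_123 t 10 7 1 = true := ex3_a s80_pp_123 k74_pp_123

theorem s82_pp_123 : ∃ t, chk3 f_pp_123 t 167 13 1 = true := ex3_a k66_pp_123 k67_pp_123

theorem s83_pp_123 : ∃ t, chk3 f_pp_123 t 167 6 1 = true := ex3_b k65_pp_123 s82_pp_123

theorem s84_pp_123 : ∃ t, chk3 f_pp_123 t 83 6 1 = true := ex3_a k64_pp_123 s83_pp_123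

theorem s85_pp_123 : ∃ t, chk3 f_pp_123 t 41 6 1 = true := ex3_a k63_pp_123 s84_pp_123

theorem s86_pp_123 : ∃ t, chk3 f_pp_123 t 20 6 1 = true := ex3_a k62_pp_123 s85_pp_123

theorem s87_pp_123 : ∃ t, chk3 f_pp_123 t 10 6 1 = true := ex3_a s86_pp_123 k68_pp_123

theorem s88_pp_123 : ∃ t, chk3 f_pp_123 t 10 3 1 = true := ex3_b s87_pp_123 s81_pp_123

theorem s89_pp_123 : ∃ t, chk3 f_pp_123 t 5 3 1 = true := ex3_a s88_pp_123 k75_pp_123

theorem s90_pp_123 : ∃ t, chk3 f_pp_123 t 2 3 1 = true := ex3_a k61_pp_123 s89_pp_123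

theorem s91_pp_123 : ∃ t, chk3 f_pp_123 t 1 3 1 = true := ex3_a s90_pp_123 k76_pp_123

theorem s92_pp_123 : ∃ t, chk3 f_pp_123 t 41 5 1 = true := ex3_b k56_pp_123 k57_pp_123

theorem s93_pp_123 : ∃ t, chk3 f_pp_123 t 40 5 1 = true := ex3_a k54_pp_123 k55_pp_123

theorem s94_pp_123 : ∃ t, chk3 f_pp_123 t 20 5 1 = true := ex3_a s93_pp_123 s92_pp_123

theorem s95_pp_123 : ∃ t, chk3 f_pp_123 t 10 5 1 = true := ex3_a s94_pp_123 k58_pp_123

theorem s96_pp_123 : ∃ t, chk3 f_pp_123 t 20 36 1 = true := ex3_b k49_pp_123 k50_pp_123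

theorem s97_pp_123 : ∃ t, chk3 f_pp_123 t 20 18 1 = true := ex3_b s96_pp_123 k51_pp_123

theorem s98_pp_123 : ∃ t, chk3 f_pp_123 t 20 9 1 = true := ex3_b s97_pp_123 k52_pp_123

theorem s99_pp_123 : ∃ t, chk3 f_pp_123 t 10 9 1 = true := ex3_a s98_pp_123 k53_pp_123

theorem s100_pp_123 : ∃ t, chk3 f_pp_123 t 10 4 1 = true := ex3_b k48_pp_123 s99_pp_123

theorem s101_pp_123 : ∃ t, chk3 f_pp_123 t 10 2 1 = true := ex3_b s100_pp_123 s95_pp_123

theorem s102_pp_123 : ∃ t, chk3 f_pp_123 t 5 2 1 = true := ex3_a s101_pp_123 k59_pp_123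

theorem s103_pp_123 : ∃ t, chk3 f_pp_123 t 39 5 1 = true := ex3_b k46_pp_123 k47_pp_123

theorem s104_pp_123 : ∃ t, chk3 f_pp_123 t 38 10 1 = true := ex3_a k43_pp_123 k44_pp_123

theorem s105_pp_123 : ∃ t, chk3 f_pp_123 t 38 5 1 = true := ex3_b s104_pp_123 k45_pp_123

theorem s106_pp_123 : ∃ t, chk3 f_pp_123 t 19 5 1 = true := ex3_a s105_pp_123 s103_pp_123

theorem s107_pp_123 : ∃ t, chk3 f_pp_123 t 9 5 1 = true := ex3_a k42_pp_123 s106_pp_123

theorem s108_pp_123 : ∃ t, chk3 f_pp_123 t 19 9 1 = true := ex3_a k40_pp_123 k41_pp_123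

theorem s109_pp_123 : ∃ t, chk3 f_pp_123 t 38 17 3 = true := ex3_a k37_pp_123 k38_pp_123

theorem s110_pp_123 : ∃ t, chk3 f_pp_123 t 38 17 1 = true := ex3_c k36_pp_123 s109_pp_123

theorem s111_pp_123 : ∃ t, chk3 f_pp_123 t 19 17 1 = true := ex3_a s110_pp_123 k39_pp_123

theorem s112_pp_123 : ∃ t, chk3 f_pp_123 t 19 8 1 = true := ex3_b k35_pp_123 s111_pp_123

theorem s113_pp_123 : ∃ t, chk3 f_pp_123 t 19 4 1 = true := ex3_b s112_pp_123 s108_pp_123

theorem s114_pp_123 : ∃ t, chk3 f_pp_123 t 37 9 1 = true := ex3_a k33_pp_123 k34_pp_123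

theorem s115_pp_123 : ∃ t, chk3 f_pp_123 t 36 76 1 = true := ex3_b k29_pp_123 k30_pp_123

theorem s116_pp_123 : ∃ t, chk3 f_pp_123 t 36 38 1 = true := ex3_b s115_pp_123 k31_pp_123

theorem s117_pp_123 : ∃ t, chk3 f_pp_123 t 36 19 1 = true := ex3_b s116_pp_123 k32_pp_123

theorem s118_pp_123 : ∃ t, chk3 f_pp_123 t 72 37 1 = true := ex3_a k26_pp_123 k27_pp_123

theorem s119_pp_123 : ∃ t, chk3 f_pp_123 t 36 37 1 = true := ex3_a s118_pp_123 k28_pp_123

theorem s120_pp_123 : ∃ t, chk3 f_pp_123 t 36 18 1 = true := ex3_b k25_pp_123 s119_pp_123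

theorem s121_pp_123 : ∃ t, chk3 f_pp_123 t 36 9 1 = true := ex3_b s120_pp_123 s117_pp_123

theorem s122_pp_123 : ∃ t, chk3 f_pp_123 t 18 9 1 = true := ex3_a s121_pp_123 s114_pp_123

theorem s123_pp_123 : ∃ t, chk3 f_pp_123 t 18 34 1 = true := ex3_b k22_pp_123 k23_pp_123

theorem s124_pp_123 : ∃ t, chk3 f_pp_123 t 18 17 1 = true := ex3_b s123_pp_123 k24_pp_123

theorem s125_pp_123 : ∃ t, chk3 f_pp_123 t 18 8 1 = true := ex3_b k21_pp_123 s124_pp_123

theorem s126_pp_123 : ∃ t, chk3 f_pp_123 t 18 4 1 = true := ex3_b s125_pp_123 s122_pp_123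

theorem s127_pp_123 : ∃ t, chk3 f_pp_123 t 9 4 1 = true := ex3_a s126_pp_123 s113_pp_123

theorem s128_pp_123 : ∃ t, chk3 f_pp_123 t 9 2 1 = true := ex3_b s127_pp_123 s107_pp_123

theorem s129_pp_123 : ∃ t, chk3 f_pp_123 t 71 18 3 = true := ex3_a k17_pp_123 k18_pp_123

theorem s130_pp_123 : ∃ t, chk3 f_pp_123 t 143 37 2 = true := ex3_b k15_pp_123 k16_pp_123

theorem s131_pp_123 : ∃ t, chk3 f_pp_123 t 284 148 2 = true := ex3_a k10_pp_123 k11_pp_123

theorem s132_pp_123 : ∃ t, chk3 f_pp_123 t 284 74 2 = true := ex3_b s131_pp_123 k12_pp_123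

theorem s133_pp_123 : ∃ t, chk3 f_pp_123 t 142 74 2 = true := ex3_a s132_pp_123 k13_pp_123

theorem s134_pp_123 : ∃ t, chk3 f_pp_123 t 142 37 2 = true := ex3_b s133_pp_123 k14_pp_123

theorem s135_pp_123 : ∃ t, chk3 f_pp_123 t 71 37 2 = true := ex3_a s134_pp_123 s130_pp_123

theorem s136_pp_123 : ∃ t, chk3 f_pp_123 t 71 18 2 = true := ex3_b k9_pp_123 s135_pp_123

theorem s137_pp_123 : ∃ t, chk3 f_pp_123 t 71 18 1 = true := ex3_c s136_pp_123 s129_pp_123

theorem s138_pp_123 : ∃ t, chk3 f_pp_123 t 566 36 1 = true := ex3_b k5_pp_123 k6_pp_123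

theorem s139_pp_123 : ∃ t, chk3 f_pp_123 t 566 18 1 = true := ex3_b s138_pp_123 k7_pp_123

theorem s140_pp_123 : ∃ t, chk3 f_pp_123 t 283 18 1 = true := ex3_a s139_pp_123 k8_pp_123

theorem s141_pp_123 : ∃ t, chk3 f_pp_123 t 141 18 1 = true := ex3_a k4_pp_123 s140_pp_123

theorem s142_pp_123 : ∃ t, chk3 f_pp_123 t 70 18 1 = true := ex3_a k3_pp_123 s141_pp_123

theorem s143_pp_123 : ∃ t, chk3 f_pp_123 t 35 18 1 = true := ex3_a s142_pp_123 s137_pp_123

theorem s144_pp_123 : ∃ t, chk3 f_pp_123 t 35 9 1 = true := ex3_b s143_pp_123 k19_pp_123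

theorem s145_pp_123 : ∃ t, chk3 f_pp_123 t 17 9 1 = true := ex3_a k2_pp_123 s144_pp_123

theorem s146_pp_123 : ∃ t, chk3 f_pp_123 t 17 4 1 = true := ex3_b k1_pp_123 s145_pp_123

theorem s147_pp_123 : ∃ t, chk3 f_pp_123 t 8 4 1 = true := ex3_a k0_pp_123 s146_pp_123

theorem s148_pp_123 : ∃ t, chk3 f_pp_123 t 8 2 1 = true := ex3_b s147_pp_123 k20_pp_123

theorem s149_pp_123 : ∃ t, chk3 f_pp_123 t 4 2 1 = true := ex3_a s148_pp_123 s128_pp_123

theorem s150_pp_123 : ∃ t, chk3 f_pp_123 t 2 2 1 = true := ex3_a s149_pp_123 s102_pp_123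

theorem s151_pp_123 : ∃ t, chk3 f_pp_123 t 1 2 1 = true := ex3_a s150_pp_123 k60_pp_123

theorem s152_pp_123 : ∃ t, chk3 f_pp_123 t 1 1 1 = true := ex3_b s151_pp_123 s91_pp_123

theorem c_pp_123 : CertNX 536870912 536870912 0 1230186008 1046898278 26843546 3 false true true .npn 1 2 3
    ndN0q1 ndN7q3 pcN2 cut_pp_123 Ext.none :=
  certNX2 (fam := false) (s1 := true) (s2 := true) (a := 1) (b := 2) (c := 3) (cn := .npn) (n1 := ndN0q1) (n2 := ndN7q3) (pc := pcN2) (cut := cut_pp_123) (xt := Ext.none) (P1 := 536870912) (W1 := 536870912) (P2 := 0) (W2 := 1230186008) (P3 := 1046898278) (W3 := 26843546) (N0 := 3)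
    rfl (fun _ => rfl) s152_pp_123

noncomputable def f_pp_133 : ℕ → ℕ → ℕ → ℕ → Bool := onCell 536870912 536870912 0 1230186008 1046898278 26843546
    (rowNX 3 0 false true true .dn 1 3 3 (qsf 536870912 536870912 0 1230186008 3) ndN0q1 ndN7q3 pcN3 Cut.none Ext.none)

def k0_pp_133 : ∃ t, chk3 f_pp_133 t 1 1 1 = true :=
  ⟨(b (a (b (a (b (a (l 16687712) (l 1)) (l 1)) (l 1)) (l 1)) (l 1)) (l 1)), by decide +kernel⟩

theorem c_pp_133 : CertNX 536870912 536870912 0 1230186008 1046898278 26843546 3 false true true .dn 1 3 3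
    ndN0q1 ndN7q3 pcN3 Cut.none Ext.none :=
  certNX0 (fam := false) (s1 := true) (s2 := true) (a := 1) (b := 3) (c := 3) (cn := .dn) (n1 := ndN0q1) (n2 := ndN7q3) (pc := pcN3) (cut := Cut.none) (xt := Ext.none) (P1 := 536870912) (W1 := 536870912) (P2 := 0) (W2 := 1230186008) (P3 := 1046898278) (W3 := 26843546) (N0 := 3)
    rfl k0_pp_133

noncomputable def f_pp_202 : ℕ → ℕ → ℕ → ℕ → Bool := onCell 0 536870912 1073741824 536870912 1046898278 26843546
    (rowNX 3 0 false true true .pp 2 0 2 (qsf 0 536870912 1073741824 536870912 0) ndN0q2 ndN7q2 pcN0 Cut.none Ext.none)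

def k0_pp_202 : ∃ t, chk3 f_pp_202 t 1 1 1 = true :=
  ⟨(l 5), by decide +kernel⟩

theorem c_pp_202 : CertNX 0 536870912 1073741824 536870912 1046898278 26843546 3 false true true .pp 2 0 2
    ndN0q2 ndN7q2 pcN0 Cut.none Ext.none :=
  certNX0 (fam := false) (s1 := true) (s2 := true) (a := 2) (b := 0) (c := 2) (cn := .pp) (n1 := ndN0q2) (n2 := ndN7q2) (pc := pcN0) (cut := Cut.none) (xt := Ext.none) (P1 := 0) (W1 := 536870912) (P2 := 1073741824) (W2 := 536870912) (P3 := 1046898278) (W3 := 26843546) (N0 := 3)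
    rfl k0_pp_202

noncomputable def f_pp_203 : ℕ → ℕ → ℕ → ℕ → Bool := onCell 0 536870912 0 1230186008 1046898278 26843546
    (rowNX 3 0 false true true .up 2 0 3 (qsf 0 536870912 0 1230186008 0) ndN0q2 ndN7q3 pcN0 Cut.none Ext.none)

def k0_pp_203 : ∃ t, chk3 f_pp_203 t 1 1 1 = true :=
  ⟨(b (l 2) (a (l 5) (b (l 2) (l 3)))), by decide +kernel⟩

theorem c_pp_203 : CertNX 0 536870912 0 1230186008 1046898278 26843546 3 false true true .up 2 0 3
    ndN0q2 ndN7q3 pcN0 Cut.none Ext.none :=
  certNX0 (fam := false) (s1 := true) (s2 := true) (a := 2) (b := 0) (c := 3) (cn := .up) (n1 := ndN0q2) (n2 := ndN7q3) (pc := pcN0) (cut := Cut.none) (xt := Ext.none) (P1 := 0) (W1 := 536870912) (P2 := 0) (W2 := 1230186008) (P3 := 1046898278) (W3 := 26843546) (N0 := 3)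
    rfl k0_pp_203

noncomputable def cut_pp_213 : Cut := Cut.of [[⟨0, 1, 0, 67108864⟩, ⟨1, 1, 0, 67108864⟩, ⟨2, 2, 0, 67108864⟩, ⟨3, 0, 0, 1233125376⟩]]

noncomputable def f_pp_213 : ℕ → ℕ → ℕ → ℕ → Bool := onCell 0 536870912 0 1230186008 1046898278 26843546
    (rowNX 3 0 false true true .pnn 2 1 3 (qsf 0 536870912 0 1230186008 1) ndN0q2 ndN7q3 pcN1 cut_pp_213 Ext.none)

def k0_pp_213 : ∃ t, chk3 f_pp_213 t 1 1 1 = true :=
  ⟨(a (b (l 3) (l 5)) (b (b (a (l 3) (a (l 3) (b (l 6) (l 3)))) (l 3)) (b (l 3) (l 3)))), by decide +kernel⟩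

theorem c_pp_213 : CertNX 0 536870912 0 1230186008 1046898278 26843546 3 false true true .pnn 2 1 3
    ndN0q2 ndN7q3 pcN1 cut_pp_213 Ext.none :=
  certNX0 (fam := false) (s1 := true) (s2 := true) (a := 2) (b := 1) (c := 3) (cn := .pnn) (n1 := ndN0q2) (n2 := ndN7q3) (pc := pcN1) (cut := cut_pp_213) (xt := Ext.none) (P1 := 0) (W1 := 536870912) (P2 := 0) (W2 := 1230186008) (P3 := 1046898278) (W3 := 26843546) (N0 := 3)
    rfl k0_pp_213

noncomputable def f_pm_001 : ℕ → ℕ → ℕ → ℕ → Bool := onCell 0 536870912 536870912 536870912 1046898278 26843546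
    (rowNX 3 0 false true false .up 0 0 1 (qsf 0 536870912 536870912 536870912 0) ndN0q0 ndN7q1 pcN0 Cut.none Ext.none)

def k0_pm_001 : ∃ t, chk3 f_pm_001 t 1 1 1 = true :=
  ⟨(l 4), by decide +kernel⟩

theorem c_pm_001 : CertNX 0 536870912 536870912 536870912 1046898278 26843546 3 false true false .up 0 0 1
    ndN0q0 ndN7q1 pcN0 Cut.none Ext.none :=
  certNX0 (fam := false) (s1 := true) (s2 := false) (a := 0) (b := 0) (c := 1) (cn := .up) (n1 := ndN0q0) (n2 := ndN7q1) (pc := pcN0) (cut := Cut.none) (xt := Ext.none) (P1 := 0) (W1 := 536870912) (P2 := 536870912) (W2 := 536870912) (P3 := 1046898278) (W3 := 26843546) (N0 := 3)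
    rfl k0_pm_001

noncomputable def f_pm_011 : ℕ → ℕ → ℕ → ℕ → Bool := onCell 0 536870912 536870912 536870912 1046898278 26843546
    (rowNX 3 0 false true false .pnn 0 1 1 (qsf 0 536870912 536870912 536870912 1) ndN0q0 ndN7q1 pcN1 Cut.none Ext.none)

def k0_pm_011 : ∃ t, chk3 f_pm_011 t 1 1 1 = true :=
  ⟨(l 4), by decide +kernel⟩

theorem c_pm_011 : CertNX 0 536870912 536870912 536870912 1046898278 26843546 3 false true false .pnn 0 1 1
    ndN0q0 ndN7q1 pcN1 Cut.none Ext.none :=
  certNX0 (fam := false) (s1 := true) (s2 := false) (a := 0) (b := 1) (c := 1) (cn := .pnn) (n1 := ndN0q0) (n2 := ndN7q1) (pc := pcN1) (cut := Cut.none) (xt := Ext.none) (P1 := 0) (W1 := 536870912) (P2 := 536870912) (W2 := 536870912) (P3 := 1046898278) (W3 := 26843546) (N0 := 3)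
    rfl k0_pm_011

noncomputable def f_pm_012 : ℕ → ℕ → ℕ → ℕ → Bool := onCell 0 536870912 1073741824 536870912 1046898278 26843546
    (rowNX 3 0 false true false .pnp 0 1 2 (qsf 0 536870912 1073741824 536870912 1) ndN0q0 ndN7q2 pcN1 Cut.none Ext.none)

def k0_pm_012 : ∃ t, chk3 f_pm_012 t 1 1 1 = true :=
  ⟨(l 4), by decide +kernel⟩

theorem c_pm_012 : CertNX 0 536870912 1073741824 536870912 1046898278 26843546 3 false true false .pnp 0 1 2
    ndN0q0 ndN7q2 pcN1 Cut.none Ext.none :=
  certNX0 (fam := false) (s1 := true) (s2 := false) (a := 0) (b := 1) (c := 2) (cn := .pnp) (n1 := ndN0q0) (n2 := ndN7q2) (pc := pcN1) (cut := Cut.none) (xt := Ext.none) (P1 := 0) (W1 := 536870912) (P2 := 1073741824) (W2 := 536870912) (P3 := 1046898278) (W3 := 26843546) (N0 := 3)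
    rfl k0_pm_012

noncomputable def f_pm_022 : ℕ → ℕ → ℕ → ℕ → Bool := onCell 0 536870912 1073741824 536870912 1046898278 26843546
    (rowNX 3 0 false true false .pp 0 2 2 (qsf 0 536870912 1073741824 536870912 2) ndN0q0 ndN7q2 pcN2 Cut.none Ext.none)

def k0_pm_022 : ∃ t, chk3 f_pm_022 t 1 1 1 = true :=
  ⟨(l 4), by decide +kernel⟩

theorem c_pm_022 : CertNX 0 536870912 1073741824 536870912 1046898278 26843546 3 false true false .pp 0 2 2
    ndN0q0 ndN7q2 pcN2 Cut.none Ext.none :=
  certNX0 (fam := false) (s1 := true) (s2 := false) (a := 0) (b := 2) (c := 2) (cn := .pp) (n1 := ndN0q0) (n2 := ndN7q2) (pc := pcN2) (cut := Cut.none) (xt := Ext.none) (P1 := 0) (W1 := 536870912) (P2 := 1073741824) (W2 := 536870912) (P3 := 1046898278) (W3 := 26843546) (N0 := 3)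
    rfl k0_pm_022

noncomputable def f_pm_023 : ℕ → ℕ → ℕ → ℕ → Bool := onCell 0 536870912 0 1230186008 1046898278 26843546
    (rowNX 3 0 false true false .up 0 2 3 (qsf 0 536870912 0 1230186008 2) ndN0q0 ndN7q3 pcN2 Cut.none Ext.none)

def k0_pm_023 : ∃ t, chk3 f_pm_023 t 1 1 1 = true :=
  ⟨(b (a (l 2) (a (l 2) (a (b (l 2) (l 4)) (b (b (l 16688176) (c (l 16659752) (l 16655616))) (l 4))))) (l 4)), by decide +kernel⟩

theorem c_pm_023 : CertNX 0 536870912 0 1230186008 1046898278 26843546 3 false true false .up 0 2 3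
    ndN0q0 ndN7q3 pcN2 Cut.none Ext.none :=
  certNX0 (fam := false) (s1 := true) (s2 := false) (a := 0) (b := 2) (c := 3) (cn := .up) (n1 := ndN0q0) (n2 := ndN7q3) (pc := pcN2) (cut := Cut.none) (xt := Ext.none) (P1 := 0) (W1 := 536870912) (P2 := 0) (W2 := 1230186008) (P3 := 1046898278) (W3 := 26843546) (N0 := 3)
    rfl k0_pm_023

noncomputable def f_pm_033 : ℕ → ℕ → ℕ → ℕ → Bool := onCell 1610612736 536870912 0 1230186008 1046898278 26843546
    (rowNX 3 2 false true false .pnn 0 3 3 (qsf 0 536870912 0 1230186008 3) ndN0q0 ndN7q3 pcN3 Cut.none Ext.none)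

def k0_pm_033 : ∃ t, chk3 f_pm_033 t 1 1 1 = true :=
  ⟨(b (a (b (b (a (a (l 16688176) (c (l 16689552) (l 16687512))) (c (l 96871286359) (l 94187021447))) (a (c (l 16659752) (l 16655616)) (l 4))) (l 4)) (l 4)) (l 4)), by decide +kernel⟩

theorem c_pm_033 : CertNX 0 536870912 0 1230186008 1046898278 26843546 3 false true false .pnn 0 3 3
    ndN0q0 ndN7q3 pcN3 Cut.none Ext.none :=
  certNX2 (fam := false) (s1 := true) (s2 := false) (a := 0) (b := 3) (c := 3) (cn := .pnn) (n1 := ndN0q0) (n2 := ndN7q3) (pc := pcN3) (cut := Cut.none) (xt := Ext.none) (P1 := 0) (W1 := 536870912) (P2 := 0) (W2 := 1230186008) (P3 := 1046898278) (W3 := 26843546) (N0 := 3)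
    rfl (fun _ => rfl) k0_pm_033

noncomputable def f_pm_101 : ℕ → ℕ → ℕ → ℕ → Bool := onCell 536870912 536870912 536870912 536870912 1046898278 26843546
    (rowNX 3 0 false true false .npn 1 0 1 (qsf 536870912 536870912 536870912 536870912 0) ndN0q1 ndN7q1 pcN0 Cut.none Ext.none)

def k0_pm_101 : ∃ t, chk3 f_pm_101 t 1 1 1 = true :=
  ⟨(l 4), by decide +kernel⟩

theorem c_pm_101 : CertNX 536870912 536870912 536870912 536870912 1046898278 26843546 3 false true false .npn 1 0 1
    ndN0q1 ndN7q1 pcN0 Cut.none Ext.none :=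
  certNX0 (fam := false) (s1 := true) (s2 := false) (a := 1) (b := 0) (c := 1) (cn := .npn) (n1 := ndN0q1) (n2 := ndN7q1) (pc := pcN0) (cut := Cut.none) (xt := Ext.none) (P1 := 536870912) (W1 := 536870912) (P2 := 536870912) (W2 := 536870912) (P3 := 1046898278) (W3 := 26843546) (N0 := 3)
    rfl k0_pm_101

noncomputable def f_pm_102 : ℕ → ℕ → ℕ → ℕ → Bool := onCell 536870912 536870912 1073741824 536870912 1046898278 26843546
    (rowNX 3 0 false true false .npp 1 0 2 (qsf 536870912 536870912 1073741824 536870912 0) ndN0q1 ndN7q2 pcN0 Cut.none Ext.none)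

def k0_pm_102 : ∃ t, chk3 f_pm_102 t 1 1 1 = true :=
  ⟨(a (l 4) (b (l 4) (a (l 4) (a (l 4) (a (l 4) (b (l 4) (b (l 4) (c (l 15400488) (l 15427032))))))))), by decide +kernel⟩

theorem c_pm_102 : CertNX 536870912 536870912 1073741824 536870912 1046898278 26843546 3 false true false .npp 1 0 2
    ndN0q1 ndN7q2 pcN0 Cut.none Ext.none :=
  certNX0 (fam := false) (s1 := true) (s2 := false) (a := 1) (b := 0) (c := 2) (cn := .npp) (n1 := ndN0q1) (n2 := ndN7q2) (pc := pcN0) (cut := Cut.none) (xt := Ext.none) (P1 := 536870912) (W1 := 536870912) (P2 := 1073741824) (W2 := 536870912) (P3 := 1046898278) (W3 := 26843546) (N0 := 3)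
    rfl k0_pm_102

noncomputable def f_pm_112 : ℕ → ℕ → ℕ → ℕ → Bool := onCell 536870912 536870912 1073741824 536870912 1046898278 26843546
    (rowNX 3 0 false true false .dn 1 1 2 (qsf 536870912 536870912 1073741824 536870912 1) ndN0q1 ndN7q2 pcN1 Cut.none Ext.none)

def k0_pm_112 : ∃ t, chk3 f_pm_112 t 1 1 1 = true :=
  ⟨(a (l 4) (b (l 4) (a (l 4) (a (l 4) (a (l 4) (b (l 1) (b (l 1) (c (l 15379520) (l 15427032))))))))), by decide +kernel⟩

theorem c_pm_112 : CertNX 536870912 536870912 1073741824 536870912 1046898278 26843546 3 false true false .dn 1 1 2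
    ndN0q1 ndN7q2 pcN1 Cut.none Ext.none :=
  certNX0 (fam := false) (s1 := true) (s2 := false) (a := 1) (b := 1) (c := 2) (cn := .dn) (n1 := ndN0q1) (n2 := ndN7q2) (pc := pcN1) (cut := Cut.none) (xt := Ext.none) (P1 := 536870912) (W1 := 536870912) (P2 := 1073741824) (W2 := 536870912) (P3 := 1046898278) (W3 := 26843546) (N0 := 3)
    rfl k0_pm_112

noncomputable def cut_pm_113 : Cut := Cut.of [[⟨0, 1, 0, 67108864⟩, ⟨1, 1, 0, 67108864⟩, ⟨2, 2, 0, 67108864⟩, ⟨3, 0, 0, 1233125376⟩]]

noncomputable def f_pm_113 : ℕ → ℕ → ℕ → ℕ → Bool := onCell 536870912 536870912 0 1230186008 1046898278 26843546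
    (rowNX 3 0 false true false .nn 1 1 3 (qsf 536870912 536870912 0 1230186008 1) ndN0q1 ndN7q3 pcN1 cut_pm_113 Ext.none)

def k0_pm_113 : ∃ t, chk3 f_pm_113 t 2 2 1 = true :=
  ⟨(l 2), by decide +kernel⟩

def k1_pm_113 : ∃ t, chk3 f_pm_113 t 6 2 1 = true :=
  ⟨(l 2), by decide +kernel⟩

def k2_pm_113 : ∃ t, chk3 f_pm_113 t 7 4 1 = true :=
  ⟨(a (l 2) (a (l 2) (a (b (l 2) (b (l 2) (c (a (l 16038960) (c (l 16612688) (l 15893096))) (l 14574216)))) (a (b (l 2) (b (b (a (l 2) (c (l 16787744) (c (l 16784656) (c (l 15424928) (b (l 14328504) (a (l 14209336) (l 14241640))))))) (c (l 16761920) (b (c (l 16140624) (a (l 14503152) (c (l 14973688) (a (c (l 14350696) (l 13947352)) (l 14195176))))) (l 15090840)))) (c (l 16455400) (c (l 15159256) (l 14287968))))) (b (b (l 6) (b (l 6) (c (l 16725160) (c (l 16684000) (a (c (l 16489584) (b (l 14879736) (a (l 14523144) (c (l 14956984) (l 14166056))))) (b (l 6) (c (a (l 16134008) (c (l 16462880) (l 15749600))) (a (c (l 15000040) (l 14243000)) (l 14676512))))))))) (c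 (b (b (l 16724648) (c (l 16725032) (a (l 16746080) (l 16699128)))) (b (b (b (c (l 16725576) (l 16468648)) (l 16731720)) (l 16648696)) (l 16149952))) (b (c (b (a (l 16749288) (c (l 16700880) (b (l 16700424) (c (l 16426352) (l 15979552))))) (a (c (l 16329048) (b (l 15808856) (a (l 15494664) (l 15503312)))) (c (b (l 16523136) (a (l 16111968) (l 16088056))) (b (a (l 15804760) (l 15792216)) (l 15502656))))) (b (a (c (b (a (l 15605392) (l 15628440)) (a (l 15262968) (c (l 15524952) (l 15053248)))) (b (a (c (l 14679856) (l 14060624)) (l 14425192)) (l 14399696))) (c (b (a (c (l 15927352) (l 15350656)) (l 15635608)) (l 15308296)) (a (l 14423728) (l 14471224)))) (a (c (b (a (c (l 15222136) (l 14828896)) (l 15048416)) (a (l 14854000) (l 14875488))) (l 14240672)) (c (l 14977712) (l 14314760))))) (a (c (l 15209488) (l 14359144)) (b (c (b (l 15531120) (l 15319656)) (l 14477680)) (l 14720280)))))))))), by decide +kernel⟩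

def k3_pm_113 : ∃ t, chk3 f_pm_113 t 7 5 1 = true :=
  ⟨(a (b (a (l 2) (b (l 2) (a (l 2) (l 14188056)))) (b (a (l 2) (a (b (l 2) (l 14192992)) (l 14322880))) (a (b (l 13930016) (a (l 13859216) (l 14038160))) (b (a (l 14233808) (c (l 14581192) (l 14306128))) (a (l 14259984) (l 14487912)))))) (b (a (a (b (l 2) (l 14346968)) (b (c (l 15047040) (l 14150624)) (c (l 14803744) (l 14145496)))) (c (a (b (c (a (l 15550048) (l 15692896)) (l 15112616)) (c (a (l 15139672) (l 15205136)) (l 14819768))) (b (l 15514376) (l 15068672))) (a (b (l 14324664) (l 14281168)) (a (c (b (l 14713680) (l 14544224)) (l 14185840)) (c (b (l 14759768) (l 14583832)) (b (l 14250152) (l 14253256))))))) (a (b (a (l 14435840) (c (l 14722408) (l 14238592))) (a (b (l 14547624) (l 14628600)) (c (l 14755872) (l 14410880)))) (a (c (b (c (a (l 14954744) (l 14987848)) (l 14723024)) (c (l 15013496) (l 14767768))) (b (l 14349328) (l 14513256))) (c (b (l 14897416) (l 14902232)) (b (a (l 14419224) (c (l 14589896) (l 14375216))) (a (l 14580520)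 (l 14642968)))))))), by decide +kernel⟩

def k4_pm_113 : ∃ t, chk3 f_pm_113 t 2 6 1 = true :=
  ⟨(b (l 2) (l 4)), by decide +kernel⟩

def k5_pm_113 : ∃ t, chk3 f_pm_113 t 6 12 1 = true :=
  ⟨(a (l 2) (b (a (l 2) (b (l 13629072) (a (l 13516760) (l 13733944)))) (a (b (l 13219496) (a (l 13076816) (c (l 13326000) (l 13262080)))) (b (a (c (l 13552232) (l 13482168)) (l 13810976)) (c (a (l 13648704) (l 14027808)) (l 13811480)))))), by decide +kernel⟩

def k6_pm_113 : ∃ t, chk3 f_pm_113 t 12 13 1 = true :=
  ⟨(a (b (b (l 2) (b (l 2) (l 4))) (l 4)) (a (b (b (l 2) (a (b (l 2) (l 4)) (b (l 12675072) (c (b (l 12691272) (l 12740904)) (c (b (l 12611864) (l 12681376)) (a (b (c (l 12539608) (c (l 12523664) (b (l 12491432) (l 12521672)))) (l 4)) (c (b (l 12610888) (l 12489120)) (b (c (b (l 12584304) (l 12635224)) (l 12598304)) (l 12622320))))))))) (l 4)) (b (b (l 12845712) (b (l 12665184) (b (a (a (c (l 12740176) (c (l 12714432) (c (l 12722968) (l 12713240)))) (l 12830072)) (l 12983592)) (c (a (c (l 12843952) (l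 12849008)) (l 12819920)) (c (a (c (l 12870336) (l 12887136)) (a (l 12893608) (l 13187504))) (a (a (c (c (l 12829136) (l 12669808)) (l 12794416)) (b (l 12899432) (l 12874976))) (l 13074736))))))) (b (b (c (a (b (l 12938136) (l 12955608)) (c (l 12984464) (b (l 13197976) (l 13163424)))) (c (c (a (l 12924488) (b (b (l 13226080) (l 13072096)) (a (l 12845856) (l 12906808)))) (a (b (c (l 12911360) (a (l 12793480) (l 12909520))) (c (l 12856416) (l 12888576))) (b (b (a (l 12945696) (l 13239184)) (l 13025992)) (l 12946504)))) (a (a (l 12779936) (l 12898056)) (l 13190136)))) (b (a (l 4) (c (c (l 13148104) (l 13125616)) (c (c (l 12976720) (l 13042992)) (l 12993952)))) (l 4))) (l 4))))), by decide +kernel⟩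

def k7_pm_113 : ∃ t, chk3 f_pm_113 t 52 13 1 = true :=
  ⟨(b (b (c (l 13118016) (l 12939024)) (c (l 13317872) (l 13308888))) (c (b (c (b (a (b (l 13406832) (l 13337928)) (l 13698576)) (a (l 13424152) (a (c (l 13540792) (l 13546968)) (b (l 13814632) (a (l 13599728) (l 13652808)))))) (b (b (a (l 13444872) (l 13676872)) (a (a (l 13243456) (l 13409088)) (c (l 13763872) (l 13738064)))) (a (c (b (l 13400480) (l 13344248)) (b (c (l 13249464) (l 13373832)) (l 13108280))) (b (b (l 13732112) (a (l 13504880) (l 13676584))) (a (a (l 13386992) (l 13477192)) (a (l 13540224) (l 13586432))))))) (b (b (c (a (l 13426544) (a (l 13412896) (l 13513520))) (c (a (c (l 13425296) (l 13301688)) (l 13451408)) (l 13312936))) (a (l 4) (c (l 13532312) (l 13430536)))) (l 4))) (b (a (c (b (a (b (l 13205232) (c (l 13004032) (l 13163048))) (l 13515496)) (l 13190368)) (b (b (l 13361848) (l 13297296)) (l 13255352))) (b (b (l 13607192) (l 13608912)) (b (l 13350176) (a (l 13343128) (l 13406528))))) (l 13315608)))), by decide +kernel⟩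

def k8_pm_113 : ∃ t, chk3 f_pm_113 t 53 13 1 = true :=
  ⟨(b (b (c (l 13462792) (l 13446728)) (l 13743760)) (a (c (b (a (b (l 13871960) (b (c (b (l 13963184) (l 13849992)) (l 13879384)) (a (l 13659024) (l 13692104)))) (b (b (l 13960960) (l 14032032)) (b (c (l 14046952) (l 14001912)) (l 13717280)))) (c (b (c (l 13653488) (l 13626584)) (l 13584424)) (b (l 13564536) (l 13494064)))) (b (b (l 13836720) (b (b (a (l 13842952) (l 13948248)) (l 13791576)) (l 13418432))) (l 13492968))) (b (b (l 14083104) (a (b (c (c (l 14093704) (l 14052040)) (a (l 13979944) (l 14029176))) (c (l 13802944) (l 13688952))) (c (b (b (l 14226024) (l 14143176)) (b (a (l 13992072) (l 14164560)) (l 13780048))) (b (l 14062656) (b (a (l 13737784) (l 14099160)) (l 13697448)))))) (c (c (b (l 13622896) (l 13595232)) (b (l 13552352) (l 13541640))) (b (l 13461384) (l 13454832)))))), by decide +kernel⟩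

def k9_pm_113 : ∃ t, chk3 f_pm_113 t 27 26 1 = true :=
  ⟨(b (c (l 14080400) (l 14033920)) (l 14235920)), by decide +kernel⟩

def k10_pm_113 : ∃ t, chk3 f_pm_113 t 27 54 1 = true :=
  ⟨(b (l 14443480) (b (l 14500816) (a (a (c (a (b (c (l 14211168) (l 14182008)) (a (l 13764880) (b (l 14076656) (l 13743152)))) (b (l 14339864) (b (c (l 14281392) (c (a (l 14276016) (l 14363040)) (a (l 14258536) (l 14322664)))) (a (l 14085040) (c (b (l 14343016) (l 14192048)) (l 14266288)))))) (a (a (b (l 14126728) (l 13688112)) (b (c (l 14164416) (l 14115216)) (b (l 13972224) (l 13658072)))) (a (b (a (b (l 14282944) (l 14246880)) (l 14304944)) (b (l 14199672) (l 13889048))) (b (l 14330544) (b (c (l 14302256) (l 14278440)) (l 14186632)))))) (a (b (l 14422336) (b (l 14436504) (c (a (a (b (l 14395976) (l 14275528)) (l 14411824)) (l 14431760)) (a (l 14307664) (a (l 14363560) (l 14431032)))))) (l 14498472))) (l 14720944)))), by decide +kernel⟩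

def k11_pm_113 : ∃ t, chk3 f_pm_113 t 54 55 1 = true :=
  ⟨(b (a (b (b (a (c (l 13729096) (c (l 13672664) (l 13637080))) (a (c (l 13708808) (b (l 13587472) (l 13462824))) (c (b (l 14092984) (l 13632000)) (b (l 13819040) (l 13518928))))) (a (l 13501344) (a (l 13466712) (b (b (l 13480024) (l 13439952)) (l 13434512))))) (l 13479888)) (b (a (a (b (c (c (l 14102064) (l 14100240)) (b (l 14097584) (l 13741600))) (a (b (l 13479104) (l 13410496)) (b (l 13485632) (l 13425504)))) (b (c (b (c (a (l 14386344) (l 14457120)) (l 14372584)) (b (l 14208840) (l 14107648))) (b (l 14324840) (l 14039816))) (b (c (l 13844584) (l 13660224)) (c (l 13523512) (l 13407720))))) (a (b (c (b (l 14468144) (b (a (l 14323944) (l 14482784)) (l 14257648))) (b (l 14397712) (l 14328576))) (b (c (c (l 14154896) (l 14102480)) (l 13954384)) (c (l 13731440) (l 13625584)))) (b (b (l 14542064) (c (c (l 14531208) (l 14475640)) (l 14445728))) (c (b (b (l 14474848) (l 14310904)) (b (l 14227768) (l 13998920))) (b (l 14359120) (l 13976136))))))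 (a (l 13482392) (b (a (b (l 13541320) (l 13518112)) (b (l 13729056) (l 13631768))) (l 13610344))))) (a (b (a (l 13525512) (l 13556040)) (l 13618224)) (l 13683088))), by decide +kernel⟩

def k12_pm_113 : ∃ t, chk3 f_pm_113 t 55 55 1 = true :=
  ⟨(b (b (b (l 14802392) (a (b (a (c (a (b (l 14610424) (l 14567976)) (l 14680648)) (a (l 14530744) (l 14628280))) (l 14809440)) (a (c (a (c (l 14399064) (l 14393080)) (b (l 14654432) (l 14652040))) (a (l 14336016) (l 14610400))) (a (c (l 14773568) (l 14715152)) (l 14865944)))) (l 14963112))) (a (a (a (b (b (c (l 14193296) (l 14009784)) (l 13790160)) (b (l 13723848) (l 13712640))) (b (c (c (l 14410504) (l 14232824)) (b (l 14369152) (l 14048008))) (b (l 13858712) (l 13816224)))) (b (a (c (b (c (l 14744752) (l 14728400)) (c (l 14532048) (l 14493400))) (b (l 14677360) (l 14356736))) (c (c (b (l 14859920) (l 14812320)) (b (l 14811288) (l 14785304))) (b (l 14788240) (l 14715216)))) (b (c (a (l 14180512) (l 14546032)) (l 14234800)) (a (l 13931496) (l 14179464)))))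 (a (b (b (l 14966680) (c (c (l 14961544) (a (l 14883464) (l 14974184))) (c (l 14893288) (l 14880600)))) (c (a (c (l 14632464) (l 14644336)) (b (c (l 14963336) (l 14953864)) (l 14774272))) (b (a (l 14684424) (l 14918064)) (l 14570112)))) (b (l 15071808) (c (b (l 15078168) (a (c (l 15034416) (l 15019552)) (l 15134088))) (c (b (l 15033168) (l 15028344)) (b (l 15024624) (l 15005960)))))))) (a (b (a (l 13821328) (b (b (c (l 14148688) (l 13916856)) (l 13924984)) (l 13961072))) (l 13953848)) (b (c (a (c (l 14296832) (l 14276240)) (b (b (a (l 14824728) (c (l 15101064) (l 15076752))) (a (l 14539376) (l 14868112))) (c (l 14430144) (l 14409208)))) (b (a (b (l 14265312) (l 14105096)) (b (l 14898312) (l 14581160))) (a (a (l 13991456) (l 14096744)) (b (l 14339432) (l 14230080))))) (a (l 14114408) (b (b (a (l 14182624) (l 14282664)) (l 14225360)) (l 14238080)))))), by decide +kernel⟩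

def k13_pm_113 : ∃ t, chk3 f_pm_113 t 7 12 1 = true :=
  ⟨(a (b (a (b (a (l 13876128) (l 14083408)) (a (l 13915656) (l 14167488))) (b (c (l 14545816) (l 14339104)) (l 14530656))) (a (b (c (l 14265880) (l 14163976)) (l 14378096)) (b (l 14629664) (l 14746032)))) (a (b (a (l 14706880) (b (l 14697096) (l 14748736))) (a (l 14875688) (b (l 14829672) (l 14969984)))) (b (a (c (a (l 14948640) (c (l 15036664) (l 14938312))) (l 14736128)) (c (l 15027312) (a (l 14816368) (l 14843192)))) (a (c (b (l 15063024) (l 15084712)) (l 14960320)) (c (b (l 15153576) (l 15194816)) (b (a (l 15010600) (l 15051696)) (l 15090976))))))), by decide +kernel⟩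

def k14_pm_113 : ∃ t, chk3 f_pm_113 t 7 26 1 = true :=
  ⟨(a (a (b (l 14541304) (l 14734816)) (b (l 14927840) (l 15205408))) (a (a (b (l 15151216) (l 15352280)) (b (l 15120560) (l 15244368))) (a (c (l 15264984) (l 15181448)) (c (l 15293184) (l 15214952))))), by decide +kernel⟩

def k15_pm_113 : ∃ t, chk3 f_pm_113 t 7 27 1 = true :=
  ⟨(a (a (b (l 15061728) (b (a (a (l 15168856) (l 15331576)) (l 15535480)) (a (a (b (a (c (b (c (b (l 15236728) (a (l 15025168) (l 15241840))) (b (a (l 15163304) (l 15247688)) (l 15172832))) (c (l 14974832) (l 14986088))) (b (b (c (l 15172112) (l 15159312)) (l 15120152)) (b (l 14893120) (l 14640800)))) (b (a (b (l 15335528) (c (l 15327720) (l 15273280))) (l 15392968)) (b (c (c (a (l 15311832) (l 15407496)) (l 15319592)) (l 15286280)) (c (a (l 15125824) (l 15358808)) (l 15196120))))) (a (b (c (l 14410608) (b (l 14435680) (l 14364320))) (l 14364976)) (b (c (b (a (l 14879168) (l 15174256)) (l 14691104)) (b (l 14911376) (l 14691000))) (c (l 14711776) (c (l 14562200) (l 14513344))))))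 (b (a (b (l 15452808) (b (l 15502600) (c (c (l 15500992) (l 15449296)) (l 15424616)))) (l 15562520)) (a (b (c (b (c (a (l 15305976) (l 15555376)) (l 15448232)) (a (l 15216480) (l 15355528))) (b (l 15399296) (l 15202536))) (a (b (l 14906568) (l 14717456)) (b (l 15266016) (l 14945576)))) (c (b (a (b (l 15587280) (l 15561384)) (l 15640272)) (a (b (l 15411472) (l 15279848)) (b (l 15615136) (l 15445720)))) (b (b (l 15550912) (l 15551216)) (b (l 15472064) (l 15216320))))))) (b (l 15681192) (b (l 15739704) (a (b (a (c (c (l 15704392) (l 15656664)) (l 15633192)) (l 15754568)) (c (a (a (l 15525312) (l 15679584)) (l 15738024)) (a (l 15601192) (l 15684448)))) (l 15785712))))))) (b (a (l 15443904) (l 15554120)) (l 15737424))) (a (a (l 15594944) (l 15450208)) (a (c (l 15461976) (l 15415056)) (c (l 15431224) (l 15376896))))), by decide +kernel⟩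

def k16_pm_113 : ∃ t, chk3 f_pm_113 t 2 7 1 = true :=
  ⟨(l 4), by decide +kernel⟩

def k17_pm_113 : ∃ t, chk3 f_pm_113 t 6 7 1 = true :=
  ⟨(b (a (l 4) (b (b (b (a (a (l 4) (a (l 4) (c (l 13677856) (l 13568928)))) (a (l 13699448) (a (l 14032704) (l 14205504)))) (a (l 4) (a (l 14012664) (a (l 14207008) (b (l 14219688) (l 14385016)))))) (a (l 4) (a (b (l 14242088) (l 4)) (b (l 14590600) (l 14948672))))) (b (a (l 4) (a (l 4) (l 4))) (l 4)))) (l 4)), by decide +kernel⟩

def k18_pm_113 : ∃ t, chk3 f_pm_113 t 7 14 1 = true :=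
  ⟨(b (a (a (b (b (a (a (l 14445304) (b (a (b (c (b (l 14765968) (l 14734936)) (b (l 14669128) (l 14635424))) (l 14656128)) (c (c (l 15013344) (l 14991384)) (b (l 14942600) (l 14816144)))) (l 14764672))) (a (b (b (b (c (a (l 15326512) (a (l 15706928) (l 15763264))) (a (l 15430400) (l 15676880))) (c (a (l 15454488) (a (l 15584448) (l 15732776))) (a (l 15248480) (l 15617712)))) (a (c (l 15124936) (l 15035176)) (c (l 15554912) (l 15404168)))) (c (l 15239576) (b (a (l 14963592) (l 15145272)) (l 14948664)))) (b (b (a (b (l 15800720) (c (l 15792552) (l 15730008))) (l 15822176)) (c (a (a (l 15579560) (l 15740256)) (l 15759080)) (c (a (l 15708664) (l 15783824)) (a (l 15667320) (l 15764544))))) (b (c (l 15756248) (a (l 15419992) (l 15720040))) (a (l 15143728) (l 15711608)))))) (a (a (l 14564232) (l 14888768)) (a (l 15176208) (c (l 15576304) (l 15528832))))) (a (b (a (l 14858200) (l 15155496)) (l 15182488)) (b (a (l 15435416) (l 15687288)) (l 15836448)))) (b (a (b (b (l 15862384) (a (c (l 15856304) (l 15817616))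 (l 15872416))) (b (a (a (l 15601472) (l 16074112)) (l 15949440)) (c (l 15855856) (l 15757336)))) (b (l 15906624) (a (l 16015608) (l 15998368)))) (a (b (b (l 15890352) (l 16038176)) (l 16158016)) (b (a (l 16144056) (l 16076272)) (l 16114464))))) (a (b (l 15662880) (l 15693400)) (c (l 15484376) (l 15427032)))) (a (a (a (b (b (l 15215384) (a (l 4) (l 15261592))) (l 4)) (b (b (l 15801304) (l 15583288)) (b (l 15481672) (l 15530064)))) (b (a (b (l 16174520) (l 15967432)) (b (l 16114464) (l 16061232))) (a (l 15714816) (l 15932864)))) (a (b (l 15693400) (a (l 15836344) (l 15595752))) (c (l 15484376) (l 15322176))))), by decide +kernel⟩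

def k19_pm_113 : ∃ t, chk3 f_pm_113 t 7 15 1 = true :=
  ⟨(a (a (l 4) (b (b (a (l 15747336) (l 15793040)) (l 16082704)) (l 4))) (b (b (a (a (l 15754856) (l 15589832)) (a (l 15474656) (l 15415576))) (a (a (l 15830040) (l 15598456)) (a (l 15477032) (l 15415576)))) (a (l 15609520) (c (l 15358544) (l 15427032))))), by decide +kernel⟩

theorem s20_pm_113 : ∃ t, chk3 f_pm_113 t 7 7 1 = true := ex3_b k18_pm_113 k19_pm_113

theorem s21_pm_113 : ∃ t, chk3 f_pm_113 t 3 7 1 = true := ex3_a k17_pm_113 s20_pm_113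

theorem s22_pm_113 : ∃ t, chk3 f_pm_113 t 1 7 1 = true := ex3_a k16_pm_113 s21_pm_113

theorem s23_pm_113 : ∃ t, chk3 f_pm_113 t 7 13 1 = true := ex3_b k14_pm_113 k15_pm_113

theorem s24_pm_113 : ∃ t, chk3 f_pm_113 t 7 6 1 = true := ex3_b k13_pm_113 s23_pm_113

theorem s25_pm_113 : ∃ t, chk3 f_pm_113 t 27 55 1 = true := ex3_a k11_pm_113 k12_pm_113

theorem s26_pm_113 : ∃ t, chk3 f_pm_113 t 27 27 1 = true := ex3_b k10_pm_113 s25_pm_113

theorem s27_pm_113 : ∃ t, chk3 f_pm_113 t 27 13 1 = true := ex3_b k9_pm_113 s26_pm_113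

theorem s28_pm_113 : ∃ t, chk3 f_pm_113 t 26 13 1 = true := ex3_a k7_pm_113 k8_pm_113

theorem s29_pm_113 : ∃ t, chk3 f_pm_113 t 13 13 1 = true := ex3_a s28_pm_113 s27_pm_113

theorem s30_pm_113 : ∃ t, chk3 f_pm_113 t 6 13 1 = true := ex3_a k6_pm_113 s29_pm_113

theorem s31_pm_113 : ∃ t, chk3 f_pm_113 t 6 6 1 = true := ex3_b k5_pm_113 s30_pm_113

theorem s32_pm_113 : ∃ t, chk3 f_pm_113 t 3 6 1 = true := ex3_a s31_pm_113 s24_pm_113

theorem s33_pm_113 : ∃ t, chk3 f_pm_113 t 1 6 1 = true := ex3_a k4_pm_113 s32_pm_113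

theorem s34_pm_113 : ∃ t, chk3 f_pm_113 t 1 3 1 = true := ex3_b s33_pm_113 s22_pm_113

theorem s35_pm_113 : ∃ t, chk3 f_pm_113 t 7 2 1 = true := ex3_b k2_pm_113 k3_pm_113

theorem s36_pm_113 : ∃ t, chk3 f_pm_113 t 3 2 1 = true := ex3_a k1_pm_113 s35_pm_113

theorem s37_pm_113 : ∃ t, chk3 f_pm_113 t 1 2 1 = true := ex3_a k0_pm_113 s36_pm_113

theorem s38_pm_113 : ∃ t, chk3 f_pm_113 t 1 1 1 = true := ex3_b s37_pm_113 s34_pm_113

theorem c_pm_113 : CertNX 536870912 536870912 0 1230186008 1046898278 26843546 3 false true false .nn 1 1 3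
    ndN0q1 ndN7q3 pcN1 cut_pm_113 Ext.none :=
  certNX0 (fam := false) (s1 := true) (s2 := false) (a := 1) (b := 1) (c := 3) (cn := .nn) (n1 := ndN0q1) (n2 := ndN7q3) (pc := pcN1) (cut := cut_pm_113) (xt := Ext.none) (P1 := 536870912) (W1 := 536870912) (P2 := 0) (W2 := 1230186008) (P3 := 1046898278) (W3 := 26843546) (N0 := 3)
    rfl s38_pm_113

noncomputable def cut_pm_123 : Cut := Cut.of [[⟨0, 1, 0, 67108864⟩, ⟨1, 1, 0, 67108864⟩, ⟨2, 2, 0, 67108864⟩, ⟨3, 0, 0, 1233125376⟩]]

noncomputable def f_pm_123 : ℕ → ℕ → ℕ → ℕ → Bool := onCell 1073741824 536870912 0 1230186008 1046898278 26843546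
    (rowNX 3 2 false true false .npn 1 2 3 (qsf 536870912 536870912 0 1230186008 2) ndN0q1 ndN7q3 pcN2 cut_pm_123 Ext.none)

def k0_pm_123 : ∃ t, chk3 f_pm_123 t 16 8 1 = true :=
  ⟨(b (b (l 6) (a (l 6) (a (a (l 6) (b (l 6) (c (c (l 16449304) (l 16596568)) (l 16593192)))) (c (c (a (c (l 16631632) (l 16625088)) (l 16679792)) (l 16660896)) (c (l 16659920) (l 16654064)))))) (b (a (a (a (l 6) (b (l 6) (c (l 16323768) (a (l 6) (b (l 6) (c (l 16247256) (l 16157256))))))) (c (c (a (l 16363128) (l 16439192)) (a (l 16223784) (c (l 16445992) (l 16385512)))) (c (a (b (l 6) (l 16277200)) (l 16425096)) (l 16406544)))) (c (a (c (a (l 16495344) (c (l 16568792) (l 16558328))) (a (c (l 16499296) (l 16493216)) (l 16539120))) (c (a (l 16581696) (l 16615632)) (l 16563808))) (a (c (l 16507144) (l 16497912)) (c (l 16522576) (l 16480392))))) (c (c (a (a (b (l 16246208) (l 16212984)) (a (b (l 16317776) (l 16327456)) (l 16367232))) (a (b (a (l 16464472) (l 16484864)) (l 16552728)) (l 16485432))) (a (a (b (l 16244024) (a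 (l 16167328) (l 16246824))) (a (c (l 16311792) (b (l 16322184) (l 16335776))) (b (l 16333344) (l 16423512)))) (a (b (l 16350808) (l 16425560)) (l 16444936)))) (a (a (c (c (a (l 16109664) (b (l 16264352) (a (l 16217328) (l 16266016)))) (a (b (l 16214992) (a (l 16141848) (l 16170432))) (b (l 16261672) (l 16227056)))) (a (c (b (a (l 16196664) (l 16188624)) (l 16108376)) (b (l 15540376) (l 15395712))) (b (l 16013848) (l 15884128)))) (c (a (b (l 16296336) (l 16252456)) (l 16303528)) (b (l 16230232) (l 16092152)))) (a (c (l 16349168) (l 16259920)) (l 16296680)))))), by decide +kernel⟩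

def k1_pm_123 : ∃ t, chk3 f_pm_123 t 16 9 1 = true :=
  ⟨(b (a (c (a (b (c (l 16300272) (a (l 16252768) (l 16275904))) (c (l 16467376) (a (l 16267488) (b (l 16430864) (l 16436792))))) (b (c (a (l 16438096) (l 16434360)) (a (l 16269584) (l 16395624))) (c (a (l 16520152) (l 16535136)) (l 16248448)))) (a (b (c (a (c (l 16246328) (l 16235840)) (l 16235288)) (l 15570760)) (l 15591736)) (l 15832352))) (c (a (b (l 16370576) (l 16262312)) (l 16274496)) (l 15914448))) (a (c (a (b (c (a (l 16607568) (l 16580264)) (l 16216576)) (c (l 16248640) (l 15711512))) (b (l 16139584) (l 15799688))) (b (l 15313520) (l 15011152))) (b (a (l 15753392) (l 15730248)) (l 15483928)))), by decide +kernel⟩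

def k2_pm_123 : ∃ t, chk3 f_pm_123 t 17 4 1 = true :=
  ⟨(b (b (a (c (c (a (b (b (l 6) (l 16735656)) (l 16693800)) (l 16623032)) (a (b (l 16744488) (l 16661064)) (b (l 16633112) (l 16585520)))) (b (a (l 16663736) (l 16619128)) (a (l 16604512) (l 16467672)))) (c (c (a (b (l 16441440) (l 16349248)) (b (l 16220488) (b (l 16132216) (l 16075640)))) (b (l 16217008) (a (l 16340024) (l 16088952)))) (b (a (l 16398824) (l 16194576)) (a (l 16246696) (b (l 16103008) (l 15995608)))))) (b (a (c (a (c (l 16617952) (l 16543352)) (b (l 16433096) (l 16463688))) (a (l 16431368) (l 16277216))) (a (b (c (l 16079936) (l 16125888)) (l 16175344)) (l 16026816))) (a (l 16275880) (l 15962328)))) (b (a (l 15963416) (l 15709864)) (a (l 15522024) (l 15384960)))), by decide +kernel⟩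

def k3_pm_123 : ∃ t, chk3 f_pm_123 t 8 5 1 = true :=
  ⟨(b (a (b (a (b (a (c (l 15509480) (l 14629784)) (l 15163696)) (l 14870816)) (b (l 15243880) (l 15041104))) (a (b (l 14665576) (l 14497696)) (l 14770784))) (b (b (l 15215392) (l 15083560)) (a (l 14866072) (l 14914080)))) (b (a (b (a (l 14357080) (l 14551688)) (c (a (l 14331864) (l 14493320)) (a (l 14113592) (l 14339016)))) (c (b (a (l 14742848) (l 14796648)) (a (l 14556712) (l 14584816))) (b (a (l 14612208) (l 14703872)) (l 14479816)))) (a (c (l 14132384) (a (c (l 13946848) (l 13866672)) (c (l 14099936) (l 14041600)))) (c (a (l 14249528) (c (l 14318632) (l 14280704))) (a (l 14156256) (l 14198296)))))), by decide +kernel⟩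

def k4_pm_123 : ∃ t, chk3 f_pm_123 t 9 2 1 = true :=
  ⟨(b (b (b (b (a (a (c (a (l 16023040) (l 15678424)) (a (l 15996656) (l 15792024))) (c (a (c (l 15406568) (l 15596496)) (b (l 15482048) (c (l 15368424) (l 15343520)))) (b (a (l 15670920) (l 15436096)) (a (l 15434504) (c (l 15318360) (l 15292784)))))) (b (a (a (c (a (l 15284856) (b (l 15208440) (l 15129728))) (a (l 15232704) (l 15110056))) (c (l 14791552) (l 14959576))) (a (c (l 14846488) (l 14776392)) (l 14647216))) (a (a (a (c (l 15215560) (l 15159600)) (l 15094232)) (l 14975288)) (l 14745064)))) (a (a (a (c (b (l 15896040) (l 15843832)) (b (l 15864808) (l 15800856))) (b (c (l 15447904) (l 15661000)) (l 15664656))) (a (a (b (c (l 15557880) (l 15513816)) (l 15539040)) (l 15448968)) (l 15324096))) (l 14927152))) (a (b (l 15585904) (l 15517552)) (l 14956344))) (a (b (l 15354440) (l 15161192)) (b (l 14819360) (l 14726320)))) (b (a (b (a (l 15078760) (l 14966552)) (b (l 14955664) (a (l 14907320) (b (l 14894032) (l 14831992))))) (b (l 14711288) (b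 (l 14705288) (l 14631416)))) (a (c (b (a (l 14707808) (l 14663432)) (a (l 14337648) (l 14333424))) (b (l 14600920) (l 14226392))) (b (l 14459880) (l 14228144))))), by decide +kernel⟩

def k5_pm_123 : ∃ t, chk3 f_pm_123 t 5 2 1 = true :=
  ⟨(b (a (b (a (a (b (l 14474808) (l 14553480)) (b (l 14668056) (l 14743512))) (b (l 15426544) (l 15420976))) (a (a (b (l 14491160) (l 14484552)) (l 14693808)) (l 15340888))) (b (a (b (l 16232648) (l 16245600)) (b (l 16729072) (l 16653496))) (a (b (l 16242736) (l 16214408)) (b (l 16648344) (l 16634384))))) (a (b (a (a (b (l 14533272) (l 14530920)) (b (l 14755312) (l 14752608))) (b (l 15209448) (l 15369296))) (a (a (l 14401384) (l 14685824)) (b (l 15261968) (l 15152264)))) (a (b (b (a (l 16035120) (l 16361472)) (l 16014792)) (b (l 15799736) (l 15582488))) (b (l 16417264) (b (l 16089128) (l 15886928)))))), by decide +kernel⟩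

def k6_pm_123 : ∃ t, chk3 f_pm_123 t 3 2 1 = true :=
  ⟨(b (b (a (a (l 16688176) (b (l 16729656) (l 16653568))) (a (b (l 16729656) (l 16654064)) (l 16688176))) (a (a (b (l 16632416) (l 16607200)) (a (l 16651904) (l 16657680))) (a (l 16657680) (l 16657680)))) (b (a (a (a (l 16477176) (l 16597832)) (a (l 16740352) (l 16758880))) (c (l 16727736) (a (l 16758560) (l 16758560)))) (a (b (a (a (l 16273872) (l 16518784)) (a (l 16750424) (l 4))) (a (a (l 16185024) (l 4)) (l 4))) (l 4)))), by decide +kernel⟩

def k7_pm_123 : ∃ t, chk3 f_pm_123 t 1 3 1 = true :=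
  ⟨(b (a (b (a (a (a (c (b (l 13751296) (l 13320144)) (a (c (l 13413232) (b (l 13576240) (l 13144104))) (c (b (l 13716288) (l 13265880)) (b (l 13664984) (l 13208464))))) (c (c (l 13630704) (a (l 13607064) (b (l 13886880) (l 13486728)))) (b (l 13744344) (l 13147576)))) (a (c (b (a (l 13963088) (l 13996744)) (c (a (l 13645240) (l 13655568)) (l 13534504))) (b (l 13845360) (l 13485376))) (b (l 13991816) (a (l 13681128) (l 13938112))))) (a (a (a (b (l 14311088) (l 14270864)) (b (l 14618752) (l 4))) (b (l 15061080) (l 4))) (a (b (l 15462272) (l 4)) (l 4)))) (b (a (a (c (a (l 12925408) (c (l 13229376) (a (l 13084712) (l 13259272)))) (a (c (a (l 12762720) (c (l 12906712) (l 12867000))) (a (c (l 12715232) (l 12674072)) (l 12818760))) (b (l 12846432) (l 4)))) (a (l 4) (l 4))) (l 4)) (l 4))) (l 4)) (l 4)), by decide +kernel⟩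

theorem s8_pm_123 : ∃ t, chk3 f_pm_123 t 16 4 1 = true := ex3_b k0_pm_123 k1_pm_123

theorem s9_pm_123 : ∃ t, chk3 f_pm_123 t 8 4 1 = true := ex3_a s8_pm_123 k2_pm_123

theorem s10_pm_123 : ∃ t, chk3 f_pm_123 t 8 2 1 = true := ex3_b s9_pm_123 k3_pm_123

theorem s11_pm_123 : ∃ t, chk3 f_pm_123 t 4 2 1 = true := ex3_a s10_pm_123 k4_pm_123

theorem s12_pm_123 : ∃ t, chk3 f_pm_123 t 2 2 1 = true := ex3_a s11_pm_123 k5_pm_123

theorem s13_pm_123 : ∃ t, chk3 f_pm_123 t 1 2 1 = true := ex3_a s12_pm_123 k6_pm_123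

theorem s14_pm_123 : ∃ t, chk3 f_pm_123 t 1 1 1 = true := ex3_b s13_pm_123 k7_pm_123

theorem c_pm_123 : CertNX 536870912 536870912 0 1230186008 1046898278 26843546 3 false true false .npn 1 2 3
    ndN0q1 ndN7q3 pcN2 cut_pm_123 Ext.none :=
  certNX2 (fam := false) (s1 := true) (s2 := false) (a := 1) (b := 2) (c := 3) (cn := .npn) (n1 := ndN0q1) (n2 := ndN7q3) (pc := pcN2) (cut := cut_pm_123) (xt := Ext.none) (P1 := 536870912) (W1 := 536870912) (P2 := 0) (W2 := 1230186008) (P3 := 1046898278) (W3 := 26843546) (N0 := 3)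
    rfl (fun _ => rfl) s14_pm_123

noncomputable def f_pm_133 : ℕ → ℕ → ℕ → ℕ → Bool := onCell 536870912 536870912 0 1230186008 1046898278 26843546
    (rowNX 3 0 false true false .dn 1 3 3 (qsf 536870912 536870912 0 1230186008 3) ndN0q1 ndN7q3 pcN3 Cut.none Ext.none)

def k0_pm_133 : ∃ t, chk3 f_pm_133 t 1 1 1 = true :=
  ⟨(b (a (b (b (a (a (l 16687712) (l 1)) (l 1)) (l 1)) (l 1)) (l 1)) (l 1)), by decide +kernel⟩

theorem c_pm_133 : CertNX 536870912 536870912 0 1230186008 1046898278 26843546 3 false true false .dn 1 3 3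
    ndN0q1 ndN7q3 pcN3 Cut.none Ext.none :=
  certNX0 (fam := false) (s1 := true) (s2 := false) (a := 1) (b := 3) (c := 3) (cn := .dn) (n1 := ndN0q1) (n2 := ndN7q3) (pc := pcN3) (cut := Cut.none) (xt := Ext.none) (P1 := 536870912) (W1 := 536870912) (P2 := 0) (W2 := 1230186008) (P3 := 1046898278) (W3 := 26843546) (N0 := 3)
    rfl k0_pm_133

end Pool.Agent.Strip051.G.IE1.Tab.C.NB07

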