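import Pool.Agent.Strip051.G.IE1.Tab

/-! # Certificates N57 (generated) -/

set_option linter.all false
set_option maxRecDepth 100000

namespace Pool.Agent.Strip051.G.IE1.Tab.C.NB07

open Pool.Agent.Strip051.PB Pool.Agent.Strip051.PB.T
open Pool.Agent.Strip051.G.IE1.Tab

noncomputable def f_pm_202 : ℕ → ℕ → ℕ → ℕ → Bool := onCell 0 536870912 0 536870912 1046898278 26843546
    (rowNX 3 1 false true false .pp 2 0 2 (qsf 0 536870912 1073741824 536870912 0) ndN0q2 ndN7q2 pcN0 Cut.none Ext.none)

def k0_pm_202 : ∃ t, chk3 f_pm_202 t 2 4 1 = true :=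
  ⟨(b (b (a (a (b (c (b (l 15434048) (c (b (l 15689336) (l 15763336)) (b (l 15675256) (l 15756920)))) (b (c (b (l 15505624) (c (l 15583296) (l 15575216))) (b (a (c (l 15533424) (l 15521136)) (l 15424928)) (l 15559088))) (c (l 15443944) (l 15669240)))) (c (b (c (l 15839304) (l 15839320)) (l 15944440)) (c (l 15852952) (l 15832744)))) (b (c (b (l 15326544) (c (l 15489960) (l 15471016))) (b (c (l 15283624) (l 15024312)) (l 15435376))) (c (l 15473432) (l 15630240)))) (b (c (b (l 14731880) (c (a (l 15146400) (l 14688240)) (b (l 14839096) (l 14928872)))) (b (c (b (l 14631176) (l 14717784)) (b (a (l 14842296) (l 14349072)) (l 14681736))) (c (l 14850120) (l 14812808)))) (b (c (a (l 15302184) (l 14845328)) (l 15000680)) (c (l 15118688) (l 15156384))))) (a (c (b (a (l 16008176) (a (l 15937752) (l 15817856))) (c (a (l 16237144) (l 15868152)) (l 16031296))) (b (a (l 16033168) (l 15841760)) (a (l 16210840) (l 16021928)))) (c (b (a (l 15609656) (l 15232912)) (a (l 15796488) (l 15473112))) (a (l 15661800) (l 15295248)))))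 (b (a (a (c (l 16432168) (l 16423192)) (b (c (l 16212088) (l 16193760)) (l 16363728))) (b (c (l 15830400) (l 15797056)) (a (l 16168984) (l 15864600)))) (a (c (l 16376528) (a (l 16612704) (l 16556272))) (a (b (l 16352184) (l 16496168)) (l 16149016))))), by decide +kernel⟩

def k1_pm_202 : ∃ t, chk3 f_pm_202 t 3 4 1 = true :=
  ⟨(a (b (b (a (b (c (b (l 13923960) (c (l 14107224) (l 13872016))) (b (c (b (l 13804256) (l 13881528)) (b (c (l 13765376) (l 13739224)) (l 13831136))) (c (l 14013320) (l 13964616)))) (c (b (c (l 14283824) (l 14239616)) (l 14436520)) (l 14263448))) (l 4)) (a (c (b (l 14693696) (l 15010168)) (l 14615560)) (a (b (l 4) (b (l 14367040) (l 14553816))) (l 4)))) (b (a (c (l 15388280) (l 15339096)) (a (b (l 14774568) (l 15064072)) (l 4))) (a (l 15786384) (a (l 15390264) (l 14990720))))) (l 4)), by decide +kernel⟩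

def k2_pm_202 : ∃ t, chk3 f_pm_202 t 1 5 1 = true :=
  ⟨(a (b (a (a (b (l 16562672) (c (l 16434520) (l 16536224))) (b (l 16602992) (l 16536040))) (a (b (l 16675824) (l 16595376)) (b (l 16472640) (l 16712280)))) (a (a (b (c (l 16695648) (l 16681736)) (c (l 16777144) (l 16777144))) (b (l 16672728) (c (l 16777080) (l 16777080)))) (b (a (l 16672008) (l 16713040)) (a (l 16777064) (l 16777064))))) (a (b (a (b (l 16153952) (l 16455072)) (b (a (l 15791528) (l 15389144)) (l 15766288))) (a (b (l 16678608) (l 16767808)) (b (a (l 16433640) (l 16090864)) (l 16361344)))) (a (b (b (l 4) (a (l 15358592) (l 4))) (b (a (l 15707968) (l 4)) (a (l 16026768) (l 15572960)))) (l 4)))), by decide +kernel⟩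

def k3_pm_202 : ∃ t, chk3 f_pm_202 t 1 3 1 = true :=
  ⟨(a (a (b (c (b (a (l 16777216) (l 16777216)) (a (l 85463138311) (l 16777216))) (b (a (l 16777216) (l 16777216)) (a (l 16777216) (l 16777216)))) (l 2)) (b (c (b (l 16777216) (l 16777216)) (b (l 16777216) (l 16777216))) (a (l 2) (a (l 2) (b (l 16777216) (l 2)))))) (a (a (b (b (l 16777216) (l 16777216)) (c (l 16777216) (l 16777216))) (b (c (b (l 16616232) (l 16617984)) (b (l 16610544) (l 16612376))) (b (a (l 16709592) (l 16516872)) (l 2)))) (b (a (b (c (l 16038232) (l 41572152279)) (c (l 16166464) (l 16144952))) (b (l 4) (a (c (l 15703248) (l 15647568)) (l 4)))) (a (c (l 15998688) (l 16082040)) (c (a (l 15514504) (l 15501008)) (a (l 15647568) (c (l 15463328) (l 15435024)))))))), by decide +kernel⟩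

theorem s4_pm_202 : ∃ t, chk3 f_pm_202 t 1 4 1 = true := ex3_a k0_pm_202 k1_pm_202

theorem s5_pm_202 : ∃ t, chk3 f_pm_202 t 1 2 1 = true := ex3_b s4_pm_202 k2_pm_202

theorem s6_pm_202 : ∃ t, chk3 f_pm_202 t 1 1 1 = true := ex3_b s5_pm_202 k3_pm_202

theorem c_pm_202 : CertNX 0 536870912 1073741824 536870912 1046898278 26843546 3 false true false .pp 2 0 2
    ndN0q2 ndN7q2 pcN0 Cut.none Ext.none :=
  certNX1 (fam := false) (s1 := true) (s2 := false) (a := 2) (b := 0) (c := 2) (cn := .pp) (n1 := ndN0q2) (n2 := ndN7q2) (pc := pcN0) (cut := Cut.none) (xt := Ext.none) (P1 := 0) (W1 := 536870912) (P2 := 1073741824) (W2 := 536870912) (P3 := 1046898278) (W3 := 26843546) (N0 := 3)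
    rfl (fun _ => rfl) s6_pm_202

noncomputable def f_pm_203 : ℕ → ℕ → ℕ → ℕ → Bool := onCell 0 536870912 0 1230186008 1046898278 26843546
    (rowNX 3 0 false true false .up 2 0 3 (qsf 0 536870912 0 1230186008 0) ndN0q2 ndN7q3 pcN0 Cut.none Ext.none)

def k0_pm_203 : ∃ t, chk3 f_pm_203 t 1 1 1 = true :=
  ⟨(b (l 2) (b (l 2) (b (a (b (l 2) (b (a (l 2) (l 2)) (a (c (a (c (l 16777216) (l 16777216)) (l 16777216)) (a (c (l 16777216) (l 16777216)) (l 16777216))) (c (l 16777216) (l 16777216))))) (l 2)) (b (a (a (a (c (b (b (l 16777216) (l 16777216)) (l 16777216)) (b (a (l 16777216) (l 16777216)) (l 16777216))) (c (l 16777216) (l 16777216))) (c (a (l 16777216) (l 16777216)) (a (l 16777216) (l 16777216)))) (a (a (l 16777216) (c (l 16617984) (l 16612376))) (a (c (l 16166464) (l 16144952)) (l 2)))) (a (a (c (a (b (l 16777216) (l 16777216)) (b (l 16777216) (l 16777216))) (a (b (l 16777216) (l 16777216)) (l 16777216))) (c (l 16777216) (l 16777216))) (a (c (a (l 16777216) (l 16617984)) (a (l 16777216) (l 16612376)))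 (a (b (l 16155688) (l 16155688)) (c (a (l 15703248) (l 15501008)) (a (l 15647568) (l 15447880)))))))))), by decide +kernel⟩

theorem c_pm_203 : CertNX 0 536870912 0 1230186008 1046898278 26843546 3 false true false .up 2 0 3
    ndN0q2 ndN7q3 pcN0 Cut.none Ext.none :=
  certNX0 (fam := false) (s1 := true) (s2 := false) (a := 2) (b := 0) (c := 3) (cn := .up) (n1 := ndN0q2) (n2 := ndN7q3) (pc := pcN0) (cut := Cut.none) (xt := Ext.none) (P1 := 0) (W1 := 536870912) (P2 := 0) (W2 := 1230186008) (P3 := 1046898278) (W3 := 26843546) (N0 := 3)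
    rfl k0_pm_203

noncomputable def cut_pm_213 : Cut := Cut.of [[⟨0, 1, 0, 67108864⟩, ⟨1, 1, 0, 67108864⟩, ⟨2, 2, 0, 67108864⟩, ⟨3, 0, 0, 1233125376⟩]]

noncomputable def f_pm_213 : ℕ → ℕ → ℕ → ℕ → Bool := onCell 0 536870912 0 1230186008 1046898278 26843546
    (rowNX 3 0 false true false .pnn 2 1 3 (qsf 0 536870912 0 1230186008 1) ndN0q2 ndN7q3 pcN1 cut_pm_213 Ext.none)

def k0_pm_213 : ∃ t, chk3 f_pm_213 t 2 2 1 = true :=
  ⟨(b (l 3) (b (l 3) (a (l 3) (a (b (l 3) (a (l 3) (a (l 3) (a (l 3) (b (l 3) (c (l 447381241863) (l 443623145479))))))) (b (a (l 3) (c (c (b (l 461339885543) (a (l 403357826807) (a (l 337859573927) (l 244444031111)))) (b (l 462950498279) (a (l 401747214055) (b (l 344838895959) (l 16774944))))) (c (b (l 464561111015) (a (l 399599730407) (l 315310979847))) (b (l 465634852839) (a (l 396915375847) (l 311016012151)))))) (b (a (a (l 3) (c (b (l 450065596423) (a (l 395841634311) (l 238538457287))) (b (l 448454983687) (l 347523252471)))) (c (a (b (c (l 239075323063) (l 246054644743))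 (l 16776936)) (c (l 16774560) (l 16774520))) (a (c (l 253570829607) (l 16776592)) (l 16774448)))) (a (c (a (c (a (l 381346119687) (l 333027737607)) (l 352891961351)) (c (l 16777216) (l 16777216))) (c (a (l 348596994055) (l 16777216)) (l 311552901127))) (c (c (l 16777072) (l 16777072)) (c (l 16777072) (l 16777064)))))))))), by decide +kernel⟩

def k1_pm_213 : ∃ t, chk3 f_pm_213 t 6 4 1 = true :=
  ⟨(b (l 3) (a (l 3) (b (l 3) (a (l 3) (b (a (l 3) (a (l 3) (b (l 3) (c (c (c (b (l 443623121495) (a (l 418927071543) (b (l 322290295799) (l 16769656)))) (b (l 447381217671) (a (l 422148296919) (l 288467402631)))) (b (l 452749926487) (a (l 427517005879) (b (l 323364037559) (l 16768648))))) (c (b (l 460266118839) (a (l 435033198439) (l 285783046743))) (b (l 468319182103) (l 338933288999))))))) (a (b (l 3) (c (a (c (c (l 444696857975) (l 449528695927)) (l 457044890951)) (c (b (a (l 447381226375) (b (l 391009790567) (l 258939543431))) (c (l 253570826871) (l 253570826887))) (b (a (l 456508031607) (l 344302002631))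 (a (l 272898180663) (l 16759544))))) (c (a (l 466708564231) (b (l 397989065543) (l 251423342807))) (a (l 477445981959) (b (l 367387465319) (l 16765056)))))) (c (a (c (b (b (a (l 3) (b (l 451139325639) (a (l 429127624279) (l 279877508999)))) (a (b (l 424295783815) (l 305110427031)) (l 240149063127))) (b (l 16757664) (l 16741232))) (b (b (c (l 424295775831) (l 428053872071)) (a (b (l 432348847351) (l 284709342791)) (l 16771568))) (l 16746904))) (b (c (a (b (c (l 257865799015) (l 257865799095)) (l 16754224)) (l 16749032)) (b (a (l 256792056855) (l 16755320)) (l 16744616))) (l 16719224))) (c (b (a (b (l 433422580967) (a (l 380809242871) (l 16765368))) (b (l 241759670151) (l 16741664))) (l 210084288215)) (b (a (b (l 442012515271) (l 289541123479)) (l 227801024855)) (l 16724272)))))))))), by decide +kernel⟩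

def k2_pm_213 : ∃ t, chk3 f_pm_213 t 14 8 1 = true :=
  ⟨(a (l 3) (l 6)), by decide +kernel⟩

def k3_pm_213 : ∃ t, chk3 f_pm_213 t 28 36 1 = true :=
  ⟨(l 3), by decide +kernel⟩

def k4_pm_213 : ∃ t, chk3 f_pm_213 t 28 74 1 = true :=
  ⟨(a (l 3) (b (a (l 3) (a (l 3) (b (b (l 3) (a (l 3) (a (l 3) (c (c (c (b (l 418390209975) (a (l 391546665863) (l 280414386839))) (b (l 421074564519) (l 323364060663))) (c (l 373829925191) (l 375440537911))) (c (l 331953988775) (l 16755352)))))) (c (a (c (c (b (l 437180687607) (a (l 422148305207) (c (l 310479148023) (l 309942266599)))) (b (l 439865042119) (a (l 424832659735) (l 309405395655)))) (c (b (l 442549396615) (l 361481872663)) (l 400673467639))) (c (c (b (a (b (a (l 3) (l 364166249735)) (l 284709352535)) (l 236390972471)) (l 16772272)) (b (c (l 294373018871) (l 293836137367)) (l 16771848))) (b (c (l 292762395415) (l 282024994679)) (l 16771200)))) (c (c (l 321753404183) (l 320142812375)) (l 316921586871)))))) (a (a (l 3) (b (l 3) (b (l 3) (c (a (l 3) (c (c (l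 435033204455) (l 437717558951)) (l 442012526167))) (c (l 451139327015) (l 457581777767)))))) (c (a (b (a (l 3) (c (c (b (c (l 417316465719) (l 418927078439)) (a (b (l 431811982263) (l 342154531719)) (l 265918871095))) (b (l 420537691143) (a (l 390472923047) (l 265918870983)))) (c (b (l 423222045655) (l 317995330135)) (l 373293031703)))) (a (c (b (a (l 3) (c (b (l 410874017591) (l 307794804135)) (l 360945023623))) (c (a (b (l 384567343687) (l 273971934999)) (l 16774104)) (l 285783073095))) (c (a (l 387788567479) (l 309405414791)) (l 345912616583))) (c (b (c (l 238538455431) (l 16772960)) (l 16769224)) (c (l 16770472) (l 16770008))))) (c (b (a (c (b (a (b (l 316384728439) (l 16775200)) (l 16773104)) (l 16770912)) (b (l 265381998935) (l 16770392))) (l 16766216)) (l 16761504)) (c (c (l 233169743591) (l 231559130887)) (l 229948518055)))) (a (c (a (c (l 397452219191) (l 399599723751)) (c (l 314774100695) (l 315847863255))) (b (l 413021495703) (l 270750700199))) (c (c (l 16772648) (l 16761208)) (l 16759768))))))),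 by decide +kernel⟩

def k5_pm_213 : ∃ t, chk3 f_pm_213 t 28 75 1 = true :=
  ⟨(a (b (l 3) (b (l 3) (a (l 3) (a (l 3) (c (a (l 3) (c (c (a (l 397989114199) (l 323364039095)) (l 357186905127)) (b (l 413558370199) (l 281488124103)))) (c (l 402820949463) (l 407115916647))))))) (c (a (b (a (b (l 3) (b (l 3) (a (l 3) (c (a (l 442012528055) (c (l 346986380247) (l 348596992983))) (a (l 447918108007) (l 320679700295)))))) (a (b (a (l 3) (b (l 3) (c (c (l 398525986343) (l 400673469975)) (l 403894695415)))) (c (c (b (a (l 374903666983) (l 254644582391)) (l 16772888)) (b (l 308331653623) (l 16772576))) (c (l 273435059015) (l 271824446615)))) (b (c (c (b (a (l 416779596519) (l 297594235031)) (l 257328935863)) (b (a (l 418927080151) (l 289004314775)) (l 256255194023))) (c (l 303499814311) (l 302426093367))) (c (l 16757800) (l 16767000))))) (a (c (c (b (a (b (l 431811979527) (l 332490844119)) (b (l 271287577943) (l 16771488))) (l 233169744887)) (b (a (b (l 433959463127) (l 332490865079)) (l 257865805239)) (l 16774856)))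 (c (b (a (l 388325437527) (l 257328934295)) (l 16767728)) (b (l 312089749239) (l 16767144)))) (c (b (l 16742592) (l 16755408)) (l 16736032)))) (c (a (b (c (l 16776152) (l 16761952)) (l 16745944)) (l 16740464)) (a (a (c (l 16755392) (l 16753952)) (l 16725920)) (l 16734848)))) (a (b (a (b (l 3) (c (l 430201362535) (l 435033200567))) (c (c (a (l 358797516503) (l 264308251687)) (l 303499812775)) (b (l 347523247623) (l 16769168)))) (a (c (c (l 278803743527) (l 282024944183)) (l 278803716551)) (c (l 16754512) (l 16751984)))) (c (c (l 16760536) (l 16737304)) (b (l 16725088) (l 16721912)))))), by decide +kernel⟩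

def k6_pm_213 : ∃ t, chk3 f_pm_213 t 232 18 1 = true :=
  ⟨(b (b (l 3) (b (l 3) (b (l 3) (c (a (a (l 3) (a (l 3) (b (l 3) (b (l 3) (c (c (l 373293049863) (l 375440538743)) (l 329269637687)))))) (c (c (b (a (l 425369530327) (b (a (l 426443274151) (l 329806506551)) (a (l 301352349815) (l 16775376)))) (a (b (a (l 396915374855) (l 286856837495)) (l 249812745063)) (l 16773424))) (b (a (l 428053884855) (b (l 375440527847) (l 274508806055))) (c (l 276119416055) (l 275045674023)))) (c (b (a (l 430738239367) (l 329269619671)) (l 269140095031)) (b (l 376514278887) (l 266992611335))))) (a (c (l 438254427895) (l 444160007783)) (c (c (l 329806490055) (l 317995327047)) (l 319069067879))))))) (b (c (b (a (b (c (c (c (b (a (b (l 436106949159) (l 367387469543)) (l 283098739943)) (l 246591518631)) (b (a (l 395304760951) (l 284172481639)) (l 244980905991))) (b (a (b (l 439865045511) (l 368461216599)) (l 283635610775)) (l 243907164087))) (c (b (a (l 399062857287) (l 272361321607)) (l 16772960)) (l 290614910311))) (c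 (b (l 16769608) (l 16765712)) (l 16766032))) (c (c (l 16765672) (l 16764624)) (c (l 16763560) (l 16762496)))) (c (l 16752296) (l 16748120))) (c (b (a (c (l 275582541927) (l 255718318039)) (l 16760896)) (l 16743912)) (c (l 225653545495) (l 221358578039)))) (c (l 16743096) (l 16705752)))), by decide +kernel⟩

def k7_pm_213 : ∃ t, chk3 f_pm_213 t 233 18 1 = true :=
  ⟨(b (b (l 3) (a (b (l 3) (b (b (a (l 3) (a (a (a (l 3) (l 6)) (l 6)) (l 6))) (a (c (b (a (l 3) (c (a (c (l 416242727543) (l 418927082087)) (c (a (l 390472919079) (l 334638339607)) (l 320679702103))) (c (l 330880248855) (l 332490861575)))) (c (a (c (b (l 404968438711) (l 300278610295)) (l 356113186167)) (c (a (l 16776368) (l 16775440)) (l 232632874759))) (c (l 293836153335) (l 292225540503)))) (c (c (l 323364051335) (l 324974663415)) (l 327122146375))) (c (c (b (c (a (l 246054648119) (l 6)) (l 224579811511)) (c (l 16772872) (l 16772416))) (c (l 16773272) (l 16772928))) (c (l 16772408) (l 16771712))))) (c (c (a (c (a (l 16773000) (l 16771400))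 (l 16774336)) (b (l 16769512) (l 16765440))) (a (c (l 16771232) (l 16770744)) (l 16755112))) (c (a (l 16770008) (l 16763656)) (l 16765456))))) (b (l 6) (b (l 6) (c (c (l 16760760) (l 16757424)) (c (l 16754056) (l 16750664))))))) (c (b (b (c (a (l 16757864) (l 16747552)) (a (l 16754296) (l 16741736))) (l 16731912)) (l 16702440)) (b (a (c (l 16718560) (l 16734456)) (c (l 16724128) (l 16716672))) (l 16678864)))), by decide +kernel⟩

def k8_pm_213 : ∃ t, chk3 f_pm_213 t 117 18 1 = true :=
  ⟨(b (l 6) (b (a (c (b (l 16749528) (l 16707136)) (c (l 16701680) (l 16690744))) (l 6)) (c (l 16703632) (c (l 16632056) (l 16612056))))), by decide +kernel⟩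

def k9_pm_213 : ∃ t, chk3 f_pm_213 t 59 18 1 = true :=
  ⟨(l 6), by decide +kernel⟩

def k10_pm_213 : ∃ t, chk3 f_pm_213 t 14 19 1 = true :=
  ⟨(a (b (a (a (b (a (l 3) (b (l 3) (c (c (b (c (l 413021494983) (l 415705849479)) (a (b (l 420537691623) (l 287393703287)) (l 246054646263))) (c (a (l 407652786503) (l 330880231143)) (l 365776836791))) (c (b (l 425906396535) (l 280951246407)) (l 372756179463))))) (c (c (b (a (a (b (l 441475653527) (l 284709339543)) (c (l 295446745287) (l 289004312615))) (l 16774016)) (l 16753824)) (b (a (b (a (l 448454975239) (l 320679692487)) (l 260550156039)) (l 16761984)) (l 16751280))) (a (c (b (l 341080756471) (l 16756832)) (l 292225527383)) (c (l 16750336) (l 16747832))))) (c (b (b (a (a (c (c (l 427517006935) (l 430201361399)) (l 434496328551)) (b (c (l 433422590247) (l 439328170151)) (c (c (l 288467448295) (l 276119413191)) (l 275582542615)))) (c (a (b (c (a (l 364166248231) (l 286856834231)) (l 330880231719)) (l 16768840)) (l 16776808)) (c (l 258939541479) (l 257328928791))))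 (c (a (c (l 240685934727) (l 240149063783)) (l 16753320)) (c (l 232632869415) (l 230485385975)))) (c (l 16734608) (l 16729640))) (b (b (a (c (b (l 450602454727) (l 337322680231)) (l 403894689303)) (c (l 254644573943) (l 249812735623))) (c (l 227801030887) (l 16753744))) (c (l 16724624) (l 16719560))))) (a (c (b (c (c (l 16742192) (l 16739832)) (b (l 16725016) (l 16726640))) (l 16700584)) (b (c (l 16710504) (l 16726640)) (l 16682568))) (c (b (l 16707224) (l 16666160)) (b (l 16688688) (l 16638416))))) (c (a (a (c (l 16647168) (l 16682240)) (l 16673856)) (b (l 16641568) (l 16597240))) (a (b (a (l 16694296) (l 16676592)) (l 16650448)) (l 16500112)))) (a (b (c (a (b (l 16671072) (l 16626688)) (l 16590352)) (a (l 16592080) (l 16533680))) (c (l 16522344) (l 16457840))) (b (c (a (l 16524880) (l 16456704)) (a (l 16442304) (l 16342976))) (c (l 16372432) (l 16255696))))), by decide +kernel⟩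

def k11_pm_213 : ∃ t, chk3 f_pm_213 t 15 8 1 = true :=
  ⟨(a (l 6) (b (l 6) (b (l 6) (b (l 6) (a (l 6) (a (l 6) (a (l 6) (c (l 16685872) (c (c (l 16680928) (l 16679192)) (c (l 15939656) (l 15019352))))))))))), by decide +kernel⟩

def k12_pm_213 : ∃ t, chk3 f_pm_213 t 30 9 1 = true :=
  ⟨(b (b (l 6) (b (l 6) (a (l 6) (c (a (l 6) (c (l 16476032) (l 16329728))) (l 16151656))))) (a (a (b (l 16392360) (l 16159584)) (c (l 16315360) (l 16048200))) (c (b (a (c (l 16370208) (l 16236656)) (c (l 16350768) (l 16192816))) (c (a (l 16212000) (l 16177616)) (l 16044344))) (b (l 16002784) (l 15820960))))), by decide +kernel⟩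

def k13_pm_213 : ∃ t, chk3 f_pm_213 t 62 9 1 = true :=
  ⟨(a (b (b (l 6) (c (c (c (b (a (l 16602272) (l 16633752)) (l 16527520)) (l 16479168)) (l 16333488)) (l 16025336))) (c (b (c (l 16334544) (l 16134016)) (c (l 16135192) (l 15938408))) (b (l 15810776) (l 15618816)))) (b (c (b (b (l 6) (c (c (l 16672288) (a (l 16642192) (l 16668520))) (c (a (l 16541032) (l 16583864)) (l 16419864)))) (c (c (b (l 16663632) (l 16549336)) (b (a (l 16561480) (l 16622008)) (l 16468608))) (c (b (l 16445488) (l 16326896)) (l 16241792)))) (c (b (l 16351168) (l 16021440)) (l 15838088))) (c (b (c (c (b (l 16486880) (l 16359632)) (l 16281816)) (l 16074032)) (b (l 16038096) (l 15926744))) (b (l 15641392) (b (l 15491864) (l 15399352)))))), by decide +kernel⟩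

def k14_pm_213 : ∃ t, chk3 f_pm_213 t 63 9 1 = true :=
  ⟨(c (a (b (c (b (l 16675424) (c (l 16665120) (b (l 16667648) (l 16589240)))) (a (b (b (l 6) (c (l 16669424) (l 16465040))) (b (l 16420504) (l 16268768))) (b (c (l 16673472) (b (l 16675840) (l 16567480))) (c (b (l 16652720) (l 16452272)) (l 16280416))))) (b (c (b (c (l 16654672) (l 16450056)) (c (l 16480928) (l 16278976))) (b (l 16127920) (l 15976328))) (b (a (l 16023000) (l 16036408)) (l 15888096)))) (b (c (l 16675736) (b (b (l 16679360) (l 16679040)) (c (l 16671072) (b (a (l 16525568) (l 16675048)) (l 16354424))))) (b (b (c (l 16666744) (c (a (l 16365104) (l 16568592)) (l 16094544))) (a (c (l 16543968) (l 16002936)) (l 16446336))) (l 16013680)))) (b (c (a (b (c (a (l 16327312) (b (l 16458432) (l 16277552))) (l 16172720)) (l 15904144)) (b (c (b (a (c (l 16674816) (l 16529144)) (l 16678232)) (a (l 16383320) (l 16678384))) (b (a (l 16187160) (c (l 16595864) (l 16209176))) (l 15983488))) (c (b (l 16204688) (l 15950840)) (l 15646120)))) (a (b (l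 15712456) (l 15429976)) (c (b (a (l 15628688) (l 15504008)) (l 15217800)) (a (l 15040240) (l 14701560))))) (c (b (a (l 15631288) (l 15475336)) (l 15306680)) (a (l 15107712) (b (l 14796248) (l 14643432)))))), by decide +kernel⟩

def k15_pm_213 : ∃ t, chk3 f_pm_213 t 12 10 1 = true :=
  ⟨(b (a (l 3) (b (l 3) (b (l 3) (b (l 3) (c (a (l 3) (c (l 375977410231) (l 379198635703))) (c (l 399599730471) (l 402284085031))))))) (a (b (l 3) (a (l 3) (c (c (b (l 433422598071) (a (l 377051151799) (l 300278593367))) (b (l 436643823543) (l 329806508295))) (c (a (l 426980146759) (l 335175217383)) (l 355576312823))))) (b (b (a (l 3) (c (c (a (l 379735505671) (b (l 282561863191) (l 16770688))) (a (l 353428830951) (l 251960219527))) (c (a (l 355039443671) (l 249812735719)) (l 302962959607)))) (c (c (a (a (l 3) (l 331417122311)) (a (l 225116677383) (l 16763152))) (a (l 358797539559) (l 204178709623))) (a (c (l 359334410439) (l 359871281319)) (c (l 16766832) (l 16766648))))) (b (a (c (c (a (l 308868542551) (l 16770096))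 (l 291688643847)) (c (l 290078030951) (l 286319934391))) (c (l 16737400) (l 16757712))) (c (c (l 16758840) (l 16758520)) (a (l 16765440) (l 16750048))))))), by decide +kernel⟩

def k16_pm_213 : ∃ t, chk3 f_pm_213 t 13 20 1 = true :=
  ⟨(a (b (a (l 3) (b (a (l 3) (a (l 3) (b (l 3) (c (c (l 367924320535) (l 376514276007)) (c (l 352355063415) (l 16753416)))))) (c (c (a (b (l 457044896039) (a (l 426443265575) (l 266455730855))) (b (a (l 336248918343) (l 16764080)) (l 16754648))) (a (b (l 468856055735) (l 336785806295)) (b (l 278803707799) (l 16752952)))) (c (a (a (l 466171702919) (l 386177949463)) (l 243907145591)) (a (l 426980131255) (l 241222790791)))))) (a (c (c (b (c (a (l 468319164935) (b (l 422685165319) (l 287393651335))) (a (l 473687894855) (b (l 427517003415) (l 287930521367)))) (a (b (a (l 396378483207) (b (l 317995336455) (l 16772832))) (a (l 16774368) (l 16772160))) (b (l 16757904) (l 16751040)))) (b (a (l 481740916343) (b (l 403357812183) (l 288467391591))) (a (b (a (l 404431567847) (l 295983609495))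 (a (l 16774320) (l 16771832))) (b (l 16756600) (l 16749296))))) (c (b (a (l 493552117975) (b (l 407115908311) (l 288467390119))) (a (b (a (l 408189641287) (l 294909866007)) (l 260013255511)) (l 16751528))) (a (b (l 505363277687) (a (l 358260635591) (l 263771342407))) (b (l 342154533415) (l 16749960))))) (c (b (c (a (b (l 231022254119) (l 16748248)) (l 16730464)) (a (l 221358576151) (l 16727064))) (c (l 16715504) (l 16711176))) (b (c (a (l 16753120) (l 16723624)) (l 16736224)) (c (l 16706800) (l 16702384)))))) (b (c (c (a (b (a (b (a (l 399599722327) (l 252497090279)) (l 16773496)) (l 16722152)) (l 16702344)) (l 16619704)) (a (b (a (b (a (l 408726527687) (l 252497090183)) (l 16759744)) (l 16740248)) (l 16719040)) (l 16653408))) (c (a (b (a (b (l 319069068071) (l 16758432)) (l 16737352)) (l 16714720)) (l 16666056)) (a (b (a (l 280951156887) (l 16734424)) (l 16710360)) (l 16657656)))) (c (a (b (l 16685448) (l 16653184)) (l 16601944)) (a (b (l 16671856) (l 16635392)) (l 16574776))))), by decide +kernel⟩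

def k17_pm_213 : ∃ t, chk3 f_pm_213 t 13 21 1 = true :=
  ⟨(a (b (c (a (b (a (c (l 16747416) (l 16768232)) (b (l 16747816) (l 16747720))) (a (l 16758520) (l 16748512))) (b (a (l 16715432) (l 16684928)) (a (l 16710440) (l 16674000)))) (a (b (a (c (l 16768080) (l 16767928)) (l 16744464)) (l 16720400)) (b (a (l 16707856) (l 16672944)) (l 16683304)))) (c (a (l 16738736) (l 16689024)) (a (l 16759288) (l 16679528)))) (b (c (a (l 16629400) (l 16555264)) (a (l 16609936) (l 16523936))) (a (c (b (l 16609792) (l 16601632)) (l 16588256)) (c (l 16522344) (l 16492600))))), by decide +kernel⟩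

def k18_pm_213 : ∃ t, chk3 f_pm_213 t 6 11 1 = true :=
  ⟨(a (b (a (b (c (c (a (b (l 377051151479) (l 299204861735)) (b (l 242833417239) (l 16766624))) (a (b (l 377051151463) (l 306721043271)) (l 231022255287))) (a (c (a (l 365239990839) (l 314237233863)) (l 331417120631)) (c (l 227801029687) (l 16768304)))) (c (c (a (l 16770472) (l 16762528)) (l 16766568)) (c (l 16766384) (l 16766192)))) (c (b (c (l 16750624) (l 16750160)) (l 16745528)) (b (a (l 16756544) (l 16741800)) (l 16744416)))) (c (a (b (c (l 16767208) (l 16767032)) (l 16773568)) (b (l 16748512) (l 16758712))) (a (b (l 16766768) (l 16773440)) (b (l 16747512) (l 16758064))))) (b (a (c (b (l 16724976) (l 16720296)) (b (l 16719328) (l 16714576))) (b (a (l 16586536) (b (l 16489984) (l 16482912))) (c (l 16537608) (l 16516832)))) (c (a (b (l 16715568) (l 16712048)) (l 16524040)) (a (b (l 16709728) (l 16706560)) (l 16464048))))), by decide +kernel⟩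

def k19_pm_213 : ∃ t, chk3 f_pm_213 t 7 5 1 = true :=
  ⟨(b (a (b (a (c (b (a (l 16608928) (l 16527304)) (a (l 16524056) (l 16433240))) (b (a (l 16578232) (l 16477368)) (l 16387016))) (b (c (a (l 16418120) (l 16251392)) (a (l 16338144) (l 16120840))) (a (l 16519112) (c (l 16132392) (l 15992928))))) (a (b (c (l 16421616) (l 16366184)) (c (l 16379056) (l 16325392))) (b (c (a (l 16239648) (l 16044280)) (l 16010120)) (a (l 16140104) (l 15915480))))) (a (b (a (b (c (a (l 16107560) (l 16032800)) (l 15872328)) (c (l 15928672) (l 15733288))) (b (c (a (l 16031104) (c (l 16008752) (l 15846168))) (l 15657064)) (c (l 15970696) (l 15511072)))) (c (a (l 15783304) (c (l 15705376) (l 15576664))) (l 15502504))) (c (b (a (c (l 15820280) (a (l 15670816) (l 15554040))) (l 15556960)) (a (c (l 15527392) (l 15356320)) (l 15204272))) (a (b (l 15141360) (l 15103016)) (b (c (a (l 15126408) (l 14911192)) (a (l 14817336) (l 14499464))) (c (l 14835632) (l 14580504))))))) (a (b (a (b (a (b (l 16385440) (a (l 16401480) (l 16344672)))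 (l 16258264)) (l 16280016)) (c (l 16019512) (l 15932672))) (a (l 16283880) (b (l 15874584) (l 15954568)))) (a (b (c (a (l 15669824) (l 15288168)) (l 15435152)) (c (a (l 15640384) (l 15393056)) (l 15396968))) (c (b (a (c (l 15373976) (l 15249552)) (l 15057248)) (a (l 15129672) (l 15060520))) (a (b (l 15067304) (l 15138248)) (b (c (l 14809832) (l 14636352)) (c (l 14902264) (l 14788880)))))))), by decide +kernel⟩

def k20_pm_213 : ∃ t, chk3 f_pm_213 t 2 12 1 = true :=
  ⟨(a (b (l 3) (a (l 3) (a (l 3) (a (b (l 3) (c (b (l 436106952711) (c (l 367924346887) (l 367924346887))) (b (l 450602467335) (l 364703121415)))) (b (c (c (l 420537696263) (l 419463954439)) (l 417316470791)) (c (c (b (l 214379266055) (l 16777216)) (l 223506071559)) (c (l 233169747975) (l 16777216)))))))) (b (a (a (a (l 3) (b (l 3) (c (c (l 376514281479) (l 374903668743)) (b (l 413558374407) (l 342154543111))))) (b (c (a (c (l 406042181639) (l 403357827079)) (c (l 222432329735) (l 232096006151))) (c (l 357186928647) (l 352355090439))) (c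 (c (l 221358587911) (l 230485393415)) (c (l 16777216) (l 16777216))))) (c (a (c (l 16777216) (l 16777216)) (b (l 16777216) (l 16777216))) (a (c (l 16777216) (l 16777216)) (l 16777216)))) (a (c (c (a (b (a (l 348060123143) (l 16777216)) (l 16777216)) (l 16777216)) (b (a (a (l 346986381319) (l 16777216)) (l 16777216)) (l 16777216))) (b (a (c (l 234243489799) (l 244980908039)) (l 16777216)) (c (l 16777216) (l 16777216)))) (c (a (b (l 16777216) (l 16777216)) (l 16777216)) (a (l 16777216) (l 16777216)))))), by decide +kernel⟩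

def k21_pm_213 : ∃ t, chk3 f_pm_213 t 2 13 1 = true :=
  ⟨(a (b (a (a (l 3) (a (l 3) (b (l 3) (b (l 3) (c (c (l 377051152391) (l 377051152391)) (l 375440539655)))))) (c (c (c (a (b (a (l 428590759943) (l 360945025031)) (l 211158040583)) (b (l 16777216) (l 16777216))) (a (b (l 386714828807) (l 212768653319)) (l 209547427847))) (a (b (a (l 429127630855) (l 360945025031)) (a (l 218674233351) (l 16777216))) (b (l 16777216) (l 16777216)))) (a (b (c (a (l 428053889031) (l 359334412295)) (l 382956732423)) (c (l 225653555207) (l 234780360711))) (b (c (l 16777216) (l 16777216)) (l 16777216))))) (c (c (a (a (b (l 440938790919) (a (b (l 3) (l 378661765127)) (b (l 357186928647) (l 16777216)))) (b (a (b (l 400136601607) (l 211694911495)) (l 16777216)) (l 16777216))) (a (b (l 16777216) (l 16777216)) (l 16777216))) (a (a (b (l 441475661831) (a (l 399599730695) (l 214379266055))) (b (a (l 366850605063) (l 16777216)) (l 16777216))) (b (l 16777216) (l 16777216)))) (c (a (a (b (l 440938790919) (a (l 399062859783) (l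 220284846087))) (b (a (l 366313734151) (l 16777216)) (l 16777216))) (b (l 16777216) (l 16777216))) (a (a (b (l 448454983687) (l 365776863239)) (b (l 229411651591) (l 16777216))) (b (l 16777216) (l 16777216)))))) (a (c (b (b (c (l 16777216) (l 16777216)) (a (l 16777216) (l 16777216))) (b (a (l 16777216) (l 16777216)) (l 16777216))) (b (b (c (l 16777216) (l 16777216)) (a (l 16777216) (l 16777216))) (b (c (l 16777216) (l 16777216)) (l 16777216)))) (b (b (a (c (l 16777216) (l 16777216)) (l 16777216)) (c (l 16777216) (l 16777216))) (c (l 16777216) (l 16777216))))), by decide +kernel⟩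

def k22_pm_213 : ∃ t, chk3 f_pm_213 t 3 6 1 = true :=
  ⟨(a (b (b (a (b (a (c (l 16777216) (l 16777216)) (c (l 16773400) (l 16773264))) (c (l 16777216) (l 16777216))) (a (c (l 16710160) (l 16706600)) (l 16510872))) (a (a (c (l 16777216) (l 16777216)) (l 16777216)) (a (l 16709592) (l 16516528)))) (a (c (l 16777216) (l 16777216)) (b (l 16615176) (c (l 16617984) (l 16612376))))) (b (a (b (a (l 16278968) (l 15954144)) (a (l 16294008) (l 15940824))) (b (a (a (l 15614008) (c (l 15529944) (l 15435160))) (c (a (b (l 15353416) (l 15385784)) (l 15170320)) (a (l 15182808) (b (l 14992352) (l 14969184))))) (a (c (l 15641552) (l 15570488)) (c (a (l 15424704) (l 15267872)) (a (l 15355960) (b (l 15155576) (l 15210568))))))) (a (b (a (l 16299392) (l 16006224)) (a (l 16299392) (l 16006360))) (b (a (b (c (l 15687352) (l 15628504)) (l 15666552)) (c (l 15441568) (a (l 15464904) (l 15315008)))) (a (l 15666704) (c (l 15500872) (l 15447720))))))), by decide +kernel⟩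

def k23_pm_213 : ∃ t, chk3 f_pm_213 t 1 7 1 = true :=
  ⟨(a (a (b (b (a (b (c (b (a (c (l 211694911495) (l 16777216)) (l 16777216)) (c (l 16777216) (l 16777216))) (c (a (l 215989878791) (l 16777216)) (a (l 16777216) (l 16777216)))) (c (c (a (l 16777216) (l 16777216)) (l 16777216)) (c (l 16777216) (l 16777216)))) (b (c (c (l 16777216) (l 16777216)) (a (l 16777216) (l 16777216))) (a (c (l 16777216) (l 16777216)) (l 16777216)))) (c (a (b (c (a (l 16777216) (l 16777216)) (l 16777216)) (c (l 16777216) (l 16777216))) (l 16777216)) (a (b (a (l 16777216) (l 16777216)) (c (l 16777216) (l 16777216))) (l 16777216)))) (l 1)) (b (b (c (a (l 16777216) (l 16777216)) (a (l 16777216) (l 16777216))) (a (c (l 16777216) (l 16777216)) (c (l 16777216) (l 16777216)))) (b (a (l 1) (c (l 16777216) (l 16777216))) (l 1)))) (b (b (a (a (c (l 16777216) (l 16777216)) (c (l 16617984) (l 16612376))) (a (l 16155688) (a (l 15666704) (c (l 15501008) (l 15447880))))) (a (a (c (l 16777216) (l 16777216)) (l 16615176)) (a (l 15987912)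 (a (l 15666704) (c (l 15501008) (l 15447880)))))) (b (a (a (l 16777216) (c (l 16617984) (l 16612376))) (a (c (l 16166464) (l 16144952)) (a (l 15645736) (c (l 15501008) (l 15447880))))) (a (l 1) (a (b (l 16155688) (l 1)) (c (a (l 15703248) (l 15501008)) (a (l 15647568) (l 15447880)))))))), by decide +kernel⟩

theorem s24_pm_213 : ∃ t, chk3 f_pm_213 t 2 6 1 = true := ex3_b k20_pm_213 k21_pm_213

theorem s25_pm_213 : ∃ t, chk3 f_pm_213 t 1 6 1 = true := ex3_a s24_pm_213 k22_pm_213

theorem s26_pm_213 : ∃ t, chk3 f_pm_213 t 1 3 1 = true := ex3_b s25_pm_213 k23_pm_213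

theorem s27_pm_213 : ∃ t, chk3 f_pm_213 t 13 10 1 = true := ex3_b k16_pm_213 k17_pm_213

theorem s28_pm_213 : ∃ t, chk3 f_pm_213 t 6 10 1 = true := ex3_a k15_pm_213 s27_pm_213

theorem s29_pm_213 : ∃ t, chk3 f_pm_213 t 6 5 1 = true := ex3_b s28_pm_213 k18_pm_213

theorem s30_pm_213 : ∃ t, chk3 f_pm_213 t 3 5 1 = true := ex3_a s29_pm_213 k19_pm_213

theorem s31_pm_213 : ∃ t, chk3 f_pm_213 t 31 9 1 = true := ex3_a k13_pm_213 k14_pm_213

theorem s32_pm_213 : ∃ t, chk3 f_pm_213 t 15 9 1 = true := ex3_a k12_pm_213 s31_pm_213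

theorem s33_pm_213 : ∃ t, chk3 f_pm_213 t 15 4 1 = true := ex3_b k11_pm_213 s32_pm_213

theorem s34_pm_213 : ∃ t, chk3 f_pm_213 t 116 18 1 = true := ex3_a k6_pm_213 k7_pm_213

theorem s35_pm_213 : ∃ t, chk3 f_pm_213 t 58 18 1 = true := ex3_a s34_pm_213 k8_pm_213

theorem s36_pm_213 : ∃ t, chk3 f_pm_213 t 29 18 1 = true := ex3_a s35_pm_213 k9_pm_213

theorem s37_pm_213 : ∃ t, chk3 f_pm_213 t 28 37 1 = true := ex3_b k4_pm_213 k5_pm_213

theorem s38_pm_213 : ∃ t, chk3 f_pm_213 t 28 18 1 = true := ex3_b k3_pm_213 s37_pm_213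

theorem s39_pm_213 : ∃ t, chk3 f_pm_213 t 14 18 1 = true := ex3_a s38_pm_213 s36_pm_213

theorem s40_pm_213 : ∃ t, chk3 f_pm_213 t 14 9 1 = true := ex3_b s39_pm_213 k10_pm_213

theorem s41_pm_213 : ∃ t, chk3 f_pm_213 t 14 4 1 = true := ex3_b k2_pm_213 s40_pm_213

theorem s42_pm_213 : ∃ t, chk3 f_pm_213 t 7 4 1 = true := ex3_a s41_pm_213 s33_pm_213

theorem s43_pm_213 : ∃ t, chk3 f_pm_213 t 3 4 1 = true := ex3_a k1_pm_213 s42_pm_213

theorem s44_pm_213 : ∃ t, chk3 f_pm_213 t 3 2 1 = true := ex3_b s43_pm_213 s30_pm_213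

theorem s45_pm_213 : ∃ t, chk3 f_pm_213 t 1 2 1 = true := ex3_a k0_pm_213 s44_pm_213

theorem s46_pm_213 : ∃ t, chk3 f_pm_213 t 1 1 1 = true := ex3_b s45_pm_213 s26_pm_213

theorem c_pm_213 : CertNX 0 536870912 0 1230186008 1046898278 26843546 3 false true false .pnn 2 1 3
    ndN0q2 ndN7q3 pcN1 cut_pm_213 Ext.none :=
  certNX0 (fam := false) (s1 := true) (s2 := false) (a := 2) (b := 1) (c := 3) (cn := .pnn) (n1 := ndN0q2) (n2 := ndN7q3) (pc := pcN1) (cut := cut_pm_213) (xt := Ext.none) (P1 := 0) (W1 := 536870912) (P2 := 0) (W2 := 1230186008) (P3 := 1046898278) (W3 := 26843546) (N0 := 3)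
    rfl s46_pm_213

noncomputable def f_mm_001 : ℕ → ℕ → ℕ → ℕ → Bool := onCell 0 536870912 0 536870912 1046898278 26843546
    (rowNX 3 1 false false false .up 0 0 1 (qsf 0 536870912 536870912 536870912 0) ndN0q0 ndN7q1 pcN0 Cut.none Ext.none)

def k0_mm_001 : ∃ t, chk3 f_mm_001 t 1 1 1 = true :=
  ⟨(l 3), by decide +kernel⟩

theorem c_mm_001 : CertNX 0 536870912 536870912 536870912 1046898278 26843546 3 false false false .up 0 0 1
    ndN0q0 ndN7q1 pcN0 Cut.none Ext.none :=
  certNX1 (fam := false) (s1 := false) (s2 := false) (a := 0) (b := 0) (c := 1) (cn := .up) (n1 := ndN0q0) (n2 := ndN7q1) (pc := pcN0) (cut := Cut.none) (xt := Ext.none) (P1 := 0) (W1 := 536870912) (P2 := 536870912) (W2 := 536870912) (P3 := 1046898278) (W3 := 26843546) (N0 := 3)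
    rfl (fun _ => rfl) k0_mm_001

noncomputable def f_mm_011 : ℕ → ℕ → ℕ → ℕ → Bool := onCell 0 536870912 536870912 536870912 1046898278 26843546
    (rowNX 3 1 false false false .pnn 0 1 1 (qsf 0 536870912 536870912 536870912 1) ndN0q0 ndN7q1 pcN1 Cut.none Ext.none)

def k0_mm_011 : ∃ t, chk3 f_mm_011 t 1 1 1 = true :=
  ⟨(l 5), by decide +kernel⟩

theorem c_mm_011 : CertNX 0 536870912 536870912 536870912 1046898278 26843546 3 false false false .pnn 0 1 1
    ndN0q0 ndN7q1 pcN1 Cut.none Ext.none :=
  certNX1 (fam := false) (s1 := false) (s2 := false) (a := 0) (b := 1) (c := 1) (cn := .pnn) (n1 := ndN0q0) (n2 := ndN7q1) (pc := pcN1) (cut := Cut.none) (xt := Ext.none) (P1 := 0) (W1 := 536870912) (P2 := 536870912) (W2 := 536870912) (P3 := 1046898278) (W3 := 26843546) (N0 := 3)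
    rfl (fun _ => rfl) k0_mm_011

noncomputable def f_mm_012 : ℕ → ℕ → ℕ → ℕ → Bool := onCell 0 536870912 1073741824 536870912 1046898278 26843546
    (rowNX 3 0 false false false .pnp 0 1 2 (qsf 0 536870912 1073741824 536870912 1) ndN0q0 ndN7q2 pcN1 Cut.none Ext.none)

def k0_mm_012 : ∃ t, chk3 f_mm_012 t 1 1 1 = true :=
  ⟨(l 5), by decide +kernel⟩

theorem c_mm_012 : CertNX 0 536870912 1073741824 536870912 1046898278 26843546 3 false false false .pnp 0 1 2
    ndN0q0 ndN7q2 pcN1 Cut.none Ext.none :=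
  certNX0 (fam := false) (s1 := false) (s2 := false) (a := 0) (b := 1) (c := 2) (cn := .pnp) (n1 := ndN0q0) (n2 := ndN7q2) (pc := pcN1) (cut := Cut.none) (xt := Ext.none) (P1 := 0) (W1 := 536870912) (P2 := 1073741824) (W2 := 536870912) (P3 := 1046898278) (W3 := 26843546) (N0 := 3)
    rfl k0_mm_012

noncomputable def f_mm_022 : ℕ → ℕ → ℕ → ℕ → Bool := onCell 0 536870912 1073741824 536870912 1046898278 26843546
    (rowNX 3 0 false false false .pp 0 2 2 (qsf 0 536870912 1073741824 536870912 2) ndN0q0 ndN7q2 pcN2 Cut.none Ext.none)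

def k0_mm_022 : ∃ t, chk3 f_mm_022 t 1 1 1 = true :=
  ⟨(l 5), by decide +kernel⟩

theorem c_mm_022 : CertNX 0 536870912 1073741824 536870912 1046898278 26843546 3 false false false .pp 0 2 2
    ndN0q0 ndN7q2 pcN2 Cut.none Ext.none :=
  certNX0 (fam := false) (s1 := false) (s2 := false) (a := 0) (b := 2) (c := 2) (cn := .pp) (n1 := ndN0q0) (n2 := ndN7q2) (pc := pcN2) (cut := Cut.none) (xt := Ext.none) (P1 := 0) (W1 := 536870912) (P2 := 1073741824) (W2 := 536870912) (P3 := 1046898278) (W3 := 26843546) (N0 := 3)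
    rfl k0_mm_022

noncomputable def f_mm_023 : ℕ → ℕ → ℕ → ℕ → Bool := onCell 0 536870912 0 1230186008 1046898278 26843546
    (rowNX 3 0 false false false .up 0 2 3 (qsf 0 536870912 0 1230186008 2) ndN0q0 ndN7q3 pcN2 Cut.none Ext.none)

def k0_mm_023 : ∃ t, chk3 f_mm_023 t 1 1 1 = true :=
  ⟨(l 5), by decide +kernel⟩

theorem c_mm_023 : CertNX 0 536870912 0 1230186008 1046898278 26843546 3 false false false .up 0 2 3
    ndN0q0 ndN7q3 pcN2 Cut.none Ext.none :=
  certNX0 (fam := false) (s1 := false) (s2 := false) (a := 0) (b := 2) (c := 3) (cn := .up) (n1 := ndN0q0) (n2 := ndN7q3) (pc := pcN2) (cut := Cut.none) (xt := Ext.none) (P1 := 0) (W1 := 536870912) (P2 := 0) (W2 := 1230186008) (P3 := 1046898278) (W3 := 26843546) (N0 := 3)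
    rfl k0_mm_023

noncomputable def f_mm_033 : ℕ → ℕ → ℕ → ℕ → Bool := onCell 0 536870912 0 1230186008 1046898278 26843546
    (rowNX 3 0 false false false .pnn 0 3 3 (qsf 0 536870912 0 1230186008 3) ndN0q0 ndN7q3 pcN3 Cut.none Ext.none)

def k0_mm_033 : ∃ t, chk3 f_mm_033 t 1 1 1 = true :=
  ⟨(l 5), by decide +kernel⟩

theorem c_mm_033 : CertNX 0 536870912 0 1230186008 1046898278 26843546 3 false false false .pnn 0 3 3
    ndN0q0 ndN7q3 pcN3 Cut.none Ext.none :=
  certNX0 (fam := false) (s1 := false) (s2 := false) (a := 0) (b := 3) (c := 3) (cn := .pnn) (n1 := ndN0q0) (n2 := ndN7q3) (pc := pcN3) (cut := Cut.none) (xt := Ext.none) (P1 := 0) (W1 := 536870912) (P2 := 0) (W2 := 1230186008) (P3 := 1046898278) (W3 := 26843546) (N0 := 3)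
    rfl k0_mm_033

noncomputable def cut_mm_101 : Cut := Cut.of [[⟨0, 1, 0, 67108864⟩, ⟨1, 0, 0, 67108864⟩, ⟨2, 1, 0, 67108864⟩]]

noncomputable def f_mm_101 : ℕ → ℕ → ℕ → ℕ → Bool := onCell 536870912 536870912 0 536870912 1046898278 26843546
    (rowNX 3 1 false false false .npn 1 0 1 (qsf 536870912 536870912 536870912 536870912 0) ndN0q1 ndN7q1 pcN0 cut_mm_101 Ext.none)

def k0_mm_101 : ∃ t, chk3 f_mm_101 t 1 1 1 = true :=
  ⟨(b (a (l 3) (b (a (l 3) (a (l 3) (a (l 3) (b (b (l 6) (l 3)) (l 2))))) (l 3))) (l 3)), by decide +kernel⟩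

theorem c_mm_101 : CertNX 536870912 536870912 536870912 536870912 1046898278 26843546 3 false false false .npn 1 0 1
    ndN0q1 ndN7q1 pcN0 cut_mm_101 Ext.none :=
  certNX1 (fam := false) (s1 := false) (s2 := false) (a := 1) (b := 0) (c := 1) (cn := .npn) (n1 := ndN0q1) (n2 := ndN7q1) (pc := pcN0) (cut := cut_mm_101) (xt := Ext.none) (P1 := 536870912) (W1 := 536870912) (P2 := 536870912) (W2 := 536870912) (P3 := 1046898278) (W3 := 26843546) (N0 := 3)
    rfl (fun _ => rfl) k0_mm_101

noncomputable def cut_mm_102 : Cut := Cut.of [[⟨0, 1, 0, 67108864⟩, ⟨1, 0, 0, 67108864⟩, ⟨2, 1, 0, 67108864⟩]]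

noncomputable def f_mm_102 : ℕ → ℕ → ℕ → ℕ → Bool := onCell 536870912 536870912 0 536870912 1046898278 26843546
    (rowNX 3 1 false false false .npp 1 0 2 (qsf 536870912 536870912 1073741824 536870912 0) ndN0q1 ndN7q2 pcN0 cut_mm_102 Ext.none)

def k0_mm_102 : ∃ t, chk3 f_mm_102 t 1 1 1 = true :=
  ⟨(b (a (l 3) (b (b (b (a (l 1) (a (l 1) (a (l 3) (l 6)))) (l 3)) (l 3)) (l 3))) (l 3)), by decide +kernel⟩

theorem c_mm_102 : CertNX 536870912 536870912 1073741824 536870912 1046898278 26843546 3 false false false .npp 1 0 2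
    ndN0q1 ndN7q2 pcN0 cut_mm_102 Ext.none :=
  certNX1 (fam := false) (s1 := false) (s2 := false) (a := 1) (b := 0) (c := 2) (cn := .npp) (n1 := ndN0q1) (n2 := ndN7q2) (pc := pcN0) (cut := cut_mm_102) (xt := Ext.none) (P1 := 536870912) (W1 := 536870912) (P2 := 1073741824) (W2 := 536870912) (P3 := 1046898278) (W3 := 26843546) (N0 := 3)
    rfl (fun _ => rfl) k0_mm_102

noncomputable def f_mm_112 : ℕ → ℕ → ℕ → ℕ → Bool := onCell 536870912 536870912 1073741824 536870912 1046898278 26843546
    (rowNX 3 2 false false false .dn 1 1 2 (qsf 536870912 536870912 1073741824 536870912 1) ndN0q1 ndN7q2 pcN1 Cut.none Ext.none)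

def k0_mm_112 : ∃ t, chk3 f_mm_112 t 1 1 1 = true :=
  ⟨(a (l 3) (l 5)), by decide +kernel⟩

theorem c_mm_112 : CertNX 536870912 536870912 1073741824 536870912 1046898278 26843546 3 false false false .dn 1 1 2
    ndN0q1 ndN7q2 pcN1 Cut.none Ext.none :=
  certNX2 (fam := false) (s1 := false) (s2 := false) (a := 1) (b := 1) (c := 2) (cn := .dn) (n1 := ndN0q1) (n2 := ndN7q2) (pc := pcN1) (cut := Cut.none) (xt := Ext.none) (P1 := 536870912) (W1 := 536870912) (P2 := 1073741824) (W2 := 536870912) (P3 := 1046898278) (W3 := 26843546) (N0 := 3)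
    rfl (fun _ => rfl) k0_mm_112

noncomputable def f_mm_113 : ℕ → ℕ → ℕ → ℕ → Bool := onCell 536870912 536870912 0 1230186008 1046898278 26843546
    (rowNX 3 0 false false false .nn 1 1 3 (qsf 536870912 536870912 0 1230186008 1) ndN0q1 ndN7q3 pcN1 Cut.none Ext.none)

def k0_mm_113 : ∃ t, chk3 f_mm_113 t 1 1 1 = true :=
  ⟨(b (l 5) (a (l 5) (b (a (l 5) (l 3)) (l 3)))), by decide +kernel⟩

theorem c_mm_113 : CertNX 536870912 536870912 0 1230186008 1046898278 26843546 3 false false false .nn 1 1 3
    ndN0q1 ndN7q3 pcN1 Cut.none Ext.none :=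
  certNX0 (fam := false) (s1 := false) (s2 := false) (a := 1) (b := 1) (c := 3) (cn := .nn) (n1 := ndN0q1) (n2 := ndN7q3) (pc := pcN1) (cut := Cut.none) (xt := Ext.none) (P1 := 536870912) (W1 := 536870912) (P2 := 0) (W2 := 1230186008) (P3 := 1046898278) (W3 := 26843546) (N0 := 3)
    rfl k0_mm_113

noncomputable def f_mm_123 : ℕ → ℕ → ℕ → ℕ → Bool := onCell 1073741824 536870912 0 1230186008 1046898278 26843546
    (rowNX 3 2 false false false .npn 1 2 3 (qsf 536870912 536870912 0 1230186008 2) ndN0q1 ndN7q3 pcN2 Cut.none Ext.none)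

def k0_mm_123 : ∃ t, chk3 f_mm_123 t 1 1 1 = true :=
  ⟨(b (l 5) (l 5)), by decide +kernel⟩

theorem c_mm_123 : CertNX 536870912 536870912 0 1230186008 1046898278 26843546 3 false false false .npn 1 2 3
    ndN0q1 ndN7q3 pcN2 Cut.none Ext.none :=
  certNX2 (fam := false) (s1 := false) (s2 := false) (a := 1) (b := 2) (c := 3) (cn := .npn) (n1 := ndN0q1) (n2 := ndN7q3) (pc := pcN2) (cut := Cut.none) (xt := Ext.none) (P1 := 536870912) (W1 := 536870912) (P2 := 0) (W2 := 1230186008) (P3 := 1046898278) (W3 := 26843546) (N0 := 3)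
    rfl (fun _ => rfl) k0_mm_123

noncomputable def f_mm_133 : ℕ → ℕ → ℕ → ℕ → Bool := onCell 1610612736 536870912 0 1230186008 1046898278 26843546
    (rowNX 3 2 false false false .dn 1 3 3 (qsf 536870912 536870912 0 1230186008 3) ndN0q1 ndN7q3 pcN3 Cut.none Ext.none)

def k0_mm_133 : ∃ t, chk3 f_mm_133 t 1 1 1 = true :=
  ⟨(l 5), by decide +kernel⟩

theorem c_mm_133 : CertNX 536870912 536870912 0 1230186008 1046898278 26843546 3 false false false .dn 1 3 3
    ndN0q1 ndN7q3 pcN3 Cut.none Ext.none :=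
  certNX2 (fam := false) (s1 := false) (s2 := false) (a := 1) (b := 3) (c := 3) (cn := .dn) (n1 := ndN0q1) (n2 := ndN7q3) (pc := pcN3) (cut := Cut.none) (xt := Ext.none) (P1 := 536870912) (W1 := 536870912) (P2 := 0) (W2 := 1230186008) (P3 := 1046898278) (W3 := 26843546) (N0 := 3)
    rfl (fun _ => rfl) k0_mm_133

noncomputable def cut_mm_202 : Cut := Cut.of [[⟨3, 0, 0, 1140850688⟩], [⟨0, 1, 0, 67108864⟩, ⟨1, 0, 0, 67108864⟩, ⟨2, 1, 0, 67108864⟩]]

noncomputable def f_mm_202 : ℕ → ℕ → ℕ → ℕ → Bool := onCell 0 536870912 0 536870912 1046898278 26843546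
    (rowNX 3 1 false false false .pp 2 0 2 (qsf 0 536870912 1073741824 536870912 0) ndN0q2 ndN7q2 pcN0 cut_mm_202 Ext.none)

def k0_mm_202 : ∃ t, chk3 f_mm_202 t 2 8 1 = true :=
  ⟨(b (b (c (a (b (c (l 15786688) (l 15740144)) (c (b (l 15773272) (l 15953520)) (b (l 15869408) (l 15933664)))) (b (a (l 15813832) (l 15725840)) (c (a (l 15850552) (l 15616008)) (b (a (l 15906256) (l 15816576)) (a (l 15999128) (l 15913232)))))) (a (b (c (b (l 15702240) (a (l 15743752) (l 15821096))) (b (c (l 15621784) (a (l 15639656) (l 15719328))) (a (l 15726360) (l 15805304)))) (c (a (l 15862584) (l 15942040)) (l 15869288))) (b (c (b (l 15689208) (a (l 15814432) (l 15680048))) (b (a (c (l 15723472) (l 15712072)) (c (l 15628728) (l 15448208))) (a (l 15798592) (l 15704352)))) (c (a (l 15936552) (l 15846576)) (l 15752152))))) (c (a (c (b (a (l 16024496) (l 16119096)) (l 16170096)) (a (l 16046584) (l 16143360))) (a (b (c (l 16131440) (l 16112632)) (l 16225496)) (b (c (l 16050816) (l 16028960)) (l 16116472)))) (a (a (l 16010504)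 (l 15981328)) (a (l 15938008) (c (l 16055088) (l 16034864)))))) (a (a (c (b (l 16218592) (l 16363968)) (l 16227888)) (c (b (l 16313776) (l 16365848)) (l 16153584))) (c (a (b (l 16362896) (c (l 16496000) (l 16485328))) (b (b (l 16288600) (a (l 16402280) (c (l 16390856) (a (l 16369328) (l 16343264))))) (c (b (a (l 16471528) (l 16312688)) (c (a (l 16528256) (l 16513944)) (l 16517480))) (b (l 16455080) (l 16516672))))) (a (b (l 16328568) (l 16482088)) (b (b (l 16242768) (a (l 16377176) (l 16348560))) (a (b (l 16452024) (l 16527304)) (b (l 16438488) (l 16503856)))))))), by decide +kernel⟩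

def k1_mm_202 : ∃ t, chk3 f_mm_202 t 2 9 1 = true :=
  ⟨(b (a (c (b (a (l 16477520) (l 16537016)) (l 16544504)) (a (l 16508504) (l 16548096))) (a (a (b (l 16554048) (b (l 16546384) (l 16528872))) (b (b (l 16529688) (c (l 16552224) (l 16549552))) (c (l 16510768) (l 16505296)))) (b (c (b (a (c (l 16539408) (l 16538248)) (l 16529096)) (a (l 16524088) (l 16491304))) (b (a (l 16536136) (l 16526560)) (l 16436480))) (c (b (a (l 16489440) (l 16442576)) (a (l 16437832) (l 16366760))) (a (l 16457440) (b (l 16428864) (l 16355272))))))) (a (a (c (l 16628104) (l 16625976)) (a (l 16611400) (b (b (l 16532000) (l 16555376)) (c (l 16619544) (l 16616672))))) (b (a (b (c (b (l 16480488) (l 16461040)) (a (l 16494136) (l 16434384))) (c (l 16445648) (l 16473944))) (b (a (c (l 16304520) (l 16356808)) (a (c (l 16305768) (l 16288256)) (b (l 16273144) (c (l 16080240) (l 16207312))))) (a (c (l 16365192) (l 16349832)) (c (a (l 16285256) (l 16208352)) (l 16179416))))) (a (c (l 16517568) (l 16461472)) (b (a (c (l 16384832) (l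 16366240)) (c (l 16230408) (l 16209840))) (a (c (a (l 16431392) (l 16364736)) (l 16379672)) (l 16181328))))))), by decide +kernel⟩

def k2_mm_202 : ∃ t, chk3 f_mm_202 t 6 32 2 = true :=
  ⟨(a (a (b (l 15605880) (c (l 15749232) (l 15699832))) (b (l 15523080) (b (l 15591344) (c (l 15451344) (c (l 15691144) (b (l 15664240) (l 15713224))))))) (b (c (a (a (l 15548016) (l 15612112)) (a (c (b (l 15768392) (l 15789800)) (l 15730624)) (c (c (l 15970728) (l 15914920)) (c (l 15856424) (l 15839592))))) (c (a (l 15567824) (l 15759944)) (b (l 15494416) (a (a (l 15479384) (l 15591568)) (l 15641664))))) (c (a (b (b (l 15588088) (c (l 15597432) (a (l 15550328) (l 15637792)))) (a (l 15609648) (l 15679768))) (b (c (a (l 15760616) (c (l 15941104) (l 15874808))) (b (l 15778488) (l 15787888))) (c (a (l 15777184) (c (l 15922176) (l 15887880))) (l 15834632)))) (b (a (a (b (l 15380528) (l 15557464)) (l 15633608)) (c (l 15698240) (l 15787992))) (a (c (l 15655112) (a (l 15616864) (l 15689680))) (c (l 15844944) (l 15844808))))))),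 by decide +kernel⟩

def k3_mm_202 : ∃ t, chk3 f_mm_202 t 6 32 3 = true :=
  ⟨(a (b (c (b (l 15486304) (a (l 15597152) (l 15493392))) (b (c (a (l 15500816) (l 15420216)) (a (l 15486464) (l 15404784))) (c (l 15531168) (l 15512312)))) (b (c (l 15629568) (l 15591448)) (a (l 15754256) (c (l 15655936) (l 15611472))))) (a (b (c (c (b (l 15528392) (b (l 15319648) (l 15546376))) (b (l 15446112) (b (l 15523784) (l 15548944)))) (b (a (c (l 15441968) (l 15426424)) (c (b (l 15534184) (l 15503024)) (b (b (l 15512208) (l 15456536)) (l 15534200)))) (c (b (l 15456056) (l 15531424)) (l 15503936)))) (c (b (c (b (l 15575080) (l 15475184)) (a (l 15529976) (l 15620944))) (l 15512480)) (a (l 15455512) (l 15597160)))) (b (c (b (l 15714744) (c (b (l 15727984) (l 15747680)) (b (l 15724400) (l 15752848)))) (b (c (b (l 15686344) (l 15553200)) (b (c (l 15675168) (b (l 15664680) (l 15674776))) (l 15690496))) (c (l 15727568) (l 15708528)))) (c (b (c (l 15791928) (l 15777480)) (l 15810096)) (l 15754248))))), by decide +kernel⟩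

def k4_mm_202 : ∃ t, chk3 f_mm_202 t 6 33 1 = true :=
  ⟨(c (a (a (b (l 15732552) (b (l 16036384) (l 16100584))) (b (c (b (l 15791656) (c (l 15891288) (l 15671696))) (b (a (l 15802760) (c (l 15755728) (l 15732176))) (l 15839520))) (c (b (l 15767232) (l 16015016)) (l 15924104)))) (a (b (c (b (l 15736160) (c (l 15830856) (l 15820096))) (b (a (l 15698352) (l 15695416)) (l 15774688))) (c (l 15821792) (l 15862496))) (c (b (c (c (l 15853336) (l 15805992)) (b (l 15900752) (l 15945704))) (b (c (l 15959560) (l 15969864)) (l 16014128))) (c (b (b (l 15895768) (l 15916456)) (l 15939992)) (l 15905728))))) (a (c (b (a (l 15865288) (c (l 15765664) (l 15741064))) (a (l 15836032) (l 15754088))) (a (l 15916696) (l 15728680))) (a (c (b (c (l 15705352) (l 15678936)) (l 15814600)) (l 15730584)) (c (b (l 15789824) (a (l 15849160) (l 15918040))) (l 15652232))))), by decide +kernel⟩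

def k5_mm_202 : ∃ t, chk3 f_mm_202 t 6 17 2 = true :=
  ⟨(b (a (a (c (b (l 16205168) (l 16304736)) (b (l 15904288) (c (l 16271840) (l 16263024)))) (c (l 16154608) (b (l 16046288) (l 16164776)))) (c (a (b (l 16045968) (a (l 16153792) (l 16156248))) (b (a (l 16066936) (l 16069296)) (b (l 16118864) (a (l 16178648) (a (l 16181120) (l 16162336)))))) (b (a (l 15979648) (a (c (l 16032240) (l 16005632)) (c (l 16019560) (b (l 15934184) (l 16039312))))) (a (a (l 16091992) (c (l 16065152) (l 16114432))) (b (c (a (l 16104152) (l 16107688)) (l 16089432)) (a (l 16063696) (b (l 16140800) (l 16183024)))))))) (a (c (a (b (l 16407808) (l 16466616)) (c (b (l 16333280) (b (l 16380096) (l 16189424))) (b (a (l 16325328) (l 16223632)) (l 16416808)))) (b (l 16334424) (a (l 16481552) (l 16394224)))) (a (b (c (c (l 16155568) (a (l 16109456) (l 16144920))) (a (l 16225008) (l 16222896))) (c (c (a (l 16342104) (b (b (l 16314416) (l 16342688)) (l 16277536))) (a (l 16319776) (l 16348968))) (a (l 16323296) (l 16349264)))) (c (b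 (c (b (l 16239896) (a (l 16286832) (l 16286720))) (b (a (l 16223184) (c (l 16232440) (l 16231392))) (a (l 16282208) (l 16288512)))) (b (c (c (l 16336704) (l 16318376)) (l 16239216)) (c (l 16315312) (l 16398496)))) (b (a (b (l 16194096) (l 16272800)) (c (l 16244240) (l 16243768))) (a (l 16347664) (l 16372640))))))), by decide +kernel⟩

def k6_mm_202 : ∃ t, chk3 f_mm_202 t 6 17 3 = true :=
  ⟨(a (b (a (b (l 16085408) (l 16255056)) (l 15891024)) (a (l 16343752) (b (l 16275720) (l 16340656)))) (b (c (a (l 16017384) (a (l 15924640) (b (l 15943640) (b (l 16089336) (l 16158648))))) (a (l 16007128) (b (l 15974176) (l 16024136)))) (b (a (c (l 16219696) (l 16209112)) (a (b (l 16202952) (l 16265528)) (c (l 16242736) (l 16236072)))) (a (a (l 16289720) (c (l 16341768) (l 16340320))) (a (b (l 16317240) (l 16382344)) (l 16364280)))))), by decide +kernel⟩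

def k7_mm_202 : ∃ t, chk3 f_mm_202 t 28 16 2 = true :=
  ⟨(b (b (c (a (c (l 16057384) (c (l 15909624) (a (l 15945904) (l 16037696)))) (c (l 16133512) (a (l 16052216) (l 16170832)))) (c (a (l 15939152) (c (a (l 16031224) (l 16084768)) (a (l 16017064) (l 16007064)))) (b (l 15969600) (b (l 15962816) (l 15966264))))) (c (b (c (a (a (l 15882232) (l 16074880)) (l 16098064)) (a (b (c (l 16005912) (l 15942296)) (c (l 15980656) (l 15950584))) (b (c (l 16160000) (l 15951424)) (c (l 16051656) (a (l 16059448) (l 16164696)))))) (a (c (c (l 16028888) (l 16060144)) (l 16009320)) (c (a (l 16097936) (c (l 16164072) (l 16253512))) (c (a (l 16147464) (l 16233896)) (l 16144608))))) (b (c (a (l 15943528) (b (c (l 15957536) (l 16040496)) (l 16077936))) (l 16007992)) (c (l 16066584) (b (l 16057880) (l 16080136)))))) (c (b (c (b (a (c (a (l 16079736) (l 16182120)) (l 16084928)) (c (a (l 16263128) (l 16312424)) (a (l 16226608) (l 16285944)))) (a (c (l 15969736) (b (l 16116344) (l 16134808))) (c (l 16149056) (b (l 16115968)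 (l 16166128))))) (b (a (l 16065720) (b (a (l 16150448) (c (l 16263976) (l 16209144))) (c (l 16140624) (l 16116608)))) (c (a (l 16011472) (b (a (l 16194656) (l 16262632)) (l 16225232))) (l 16132312)))) (c (a (b (a (l 16118568) (l 16066848)) (l 16128664)) (c (b (a (l 16256400) (l 16341472)) (l 16210080)) (a (l 16195664) (l 16235784)))) (a (l 16112120) (l 16139536)))) (b (b (c (b (l 16110808) (l 16127904)) (l 16093224)) (l 16098944)) (a (l 15994752) (c (l 16180424) (l 16161464)))))), by decide +kernel⟩

def k8_mm_202 : ∃ t, chk3 f_mm_202 t 28 16 3 = true :=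
  ⟨(b (b (c (b (l 15835952) (c (b (l 15948608) (l 15968688)) (b (l 15947192) (l 15976648)))) (b (c (b (l 15913976) (c (l 15924288) (l 15923448))) (b (c (l 15903696) (b (l 15851936) (l 15901776))) (l 15853888))) (c (b (l 15946680) (l 15961536)) (l 15934528)))) (c (b (c (l 15888776) (l 16001504)) (l 16033232)) (c (l 15984544) (l 15971720)))) (c (b (c (l 16071088) (l 16038432)) (c (b (c (l 16094352) (l 15937088)) (a (l 16048480) (c (l 16146184) (l 16144888)))) (l 15977552))) (b (l 16022472) (l 16072080)))), by decide +kernel⟩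

def k9_mm_202 : ∃ t, chk3 f_mm_202 t 29 32 1 = true :=
  ⟨(b (a (a (b (l 14) (b (l 14) (c (c (l 16203496) (c (l 16004040) (l 16115760))) (b (l 14) (c (l 16131960) (l 16106760)))))) (l 14)) (l 14)) (a (c (c (c (b (b (l 16235832) (a (l 16196792) (l 16166088))) (b (a (l 16122720) (l 16304792)) (l 16323480))) (b (a (b (l 16237048) (c (l 16255472) (l 16255688))) (b (l 14) (c (l 16311808) (l 16323056)))) (a (c (b (l 16298432) (l 16332776)) (b (l 16278608) (l 16299480))) (c (l 16378672) (b (l 16383880) (l 16411352)))))) (b (c (a (c (b (l 16184744) (l 16218472)) (l 16120328)) (a (c (l 16194064) (l 16246480)) (l 14))) (l 16205856)) (c (c (a (b (l 16224216) (l 16245320)) (b (l 16296952) (l 16272144))) (a (l 16218704) (b (l 16308080) (l 16331080)))) (b (l 16253496) (b (l 16273576) (l 16281184)))))) (c (b (c (l 16168952) (l 16199000)) (l 16229976)) (l 16009808))) (a (b (l 14) (b (l 14) (c (c (l 16299616) (c (c (l 16475016) (l 16407080)) (c (l 16292928) (l 16413216)))) (c (l 16374224) (l 16337080))))) (l 14)))),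 by decide +kernel⟩

def k10_mm_202 : ∃ t, chk3 f_mm_202 t 58 33 1 = true :=
  ⟨(c (c (b (c (b (a (l 16359320) (l 16416264)) (c (l 16409216) (a (l 16249552) (l 16431336)))) (b (a (c (l 16265528) (b (l 16302032) (l 16304016))) (c (l 16449568) (b (l 16426336) (l 16382712)))) (c (a (b (l 16357064) (l 16326464)) (b (l 16419640) (l 16443384))) (a (l 16287696) (l 16304888))))) (c (b (c (a (l 16348256) (l 16476128)) (a (l 16341152) (l 16439008))) (a (c (l 16376592) (l 16286896)) (c (l 16412408) (l 16303504)))) (b (c (a (l 16293832) (l 16286400)) (l 16205120)) (a (l 16265688) (c (l 16279720) (l 16335552)))))) (b (c (b (a (b (c (l 16267024) (l 16262840)) (l 16270112)) (c (b (l 16351072) (l 16342784)) (l 16256104))) (l 16196080)) (l 16220664)) (b (l 16284528) (c (l 16296888) (c (l 16289816) (b (l 16283408) (l 16286576))))))) (b (c (c (b (l 16260200) (l 16199096)) (b (l 16225216) (c (a (l 16210168) (l 16294032)) (l 16246216)))) (l 16099232)) (c (b (c (a (b (l 16220984) (l 16226464)) (l 16285616)) (l 16232592))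 (c (c (b (a (l 16236288) (l 16301664)) (l 16159968)) (l 16220768)) (a (l 16235440) (l 16315696)))) (b (l 16253632) (a (l 16234280) (l 16313824)))))), by decide +kernel⟩

def k11_mm_202 : ∃ t, chk3 f_mm_202 t 59 33 1 = true :=
  ⟨(b (b (a (c (c (c (l 16472744) (c (l 16518256) (b (l 16525928) (l 16468912)))) (c (c (b (l 16415384) (c (l 16499968) (l 16459440))) (b (l 16338536) (l 16427304))) (l 16411776))) (c (c (l 16395480) (c (l 16382152) (l 16372088))) (l 16367808))) (l 14)) (c (c (b (c (l 16531072) (c (l 16481520) (a (l 16456208) (l 16608616)))) (c (l 16443608) (a (c (l 16540520) (l 16456552)) (c (l 16602720) (l 16564272))))) (c (a (c (l 16384224) (l 16413200)) (c (b (l 16525168) (a (l 16521632) (l 16592808))) (b (l 16455464) (l 16463040)))) (l 16369952))) (c (c (b (l 16429592) (a (l 16395872) (l 16425840))) (b (c (l 16294512) (l 16419872)) (a (l 16357192) (c (l 16445392) (l 16486360))))) (a (l 16383224) (b (l 16473392) (l 16461840)))))) (b (c (c (c (a (c (l 16524264) (l 16522760)) (l 16546504))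 (a (c (l 16374432) (c (l 16399992) (l 16381480))) (c (l 16596984) (a (c (l 16561968) (l 16543472)) (l 16584832))))) (c (a (c (l 16399600) (l 16411488)) (c (a (l 16456872) (l 16502816)) (l 16500368))) (l 16409088))) (c (c (c (b (l 16447560) (l 16385784)) (b (c (l 16426472) (a (l 16400016) (l 16492864))) (a (l 16406248) (l 16499432)))) (a (l 16398536) (l 16444224))) (a (l 16396896) (l 16446328)))) (c (a (c (c (c (l 16557160) (l 16461400)) (c (a (l 16454640) (l 16508808)) (l 16353256))) (c (l 16415552) (l 16411736))) (c (c (l 16606736) (c (a (l 16569688) (l 16614448)) (a (l 16464712) (c (l 16619872) (l 16514008))))) (b (c (l 16407776) (l 16496560)) (a (l 16485632) (l 6))))) (c (b (c (c (l 16328560) (l 16341416)) (l 16384496)) (a (l 16416744) (a (l 16485896) (l 6)))) (a (l 16405104) (l 16504440)))))), by decide +kernel⟩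

def k12_mm_202 : ∃ t, chk3 f_mm_202 t 15 16 1 = true :=
  ⟨(b (l 14) (b (a (l 14) (l 6)) (l 6))), by decide +kernel⟩

def k13_mm_202 : ∃ t, chk3 f_mm_202 t 28 17 1 = true :=
  ⟨(b (b (c (c (a (l 16110024) (c (b (a (l 16179696) (l 16215144)) (l 16201528)) (l 16195904))) (c (a (l 16019808) (b (l 16186752) (c (l 16186344) (l 16184320)))) (a (b (l 15999736) (a (l 16058536) (l 16103504))) (c (b (l 16179616) (b (l 16182224) (l 16186504))) (b (b (l 16166288) (l 16175144)) (l 16172560)))))) (a (c (b (l 16053824) (l 16063752)) (l 16054064)) (c (b (a (l 16128592) (l 16191976)) (l 16171200)) (c (l 16169408) (l 16166816))))) (a (c (c (c (l 16165560) (b (l 16132584) (l 16174488))) (c (b (c (l 16127376) (b (l 16112160) (l 16133320))) (l 16068248)) (b (l 16115736) (l 16157816)))) (a (c (l 16062976) (l 16122304)) (c (l 16137280) (l 16129792)))) (c (c (b (l 16199544) (c (l 16211320) (l 16205448))) (b (c (c (l 16191880) (l 16195232)) (l 16179448)) (c (l 16150800) (l 16211888)))) (a (c (l 16142992) (l 16158968)) (l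 16215208))))) (c (c (b (c (a (l 16259424) (b (a (l 16225216) (c (l 16237528) (b (l 16222848) (l 16192912)))) (c (b (l 16257616) (c (l 16281248) (l 16286008))) (b (l 16264000) (l 16301968))))) (a (b (l 16232432) (l 16295968)) (b (a (l 16230240) (c (b (l 16226232) (l 16249328)) (b (a (l 16230392) (l 16251736)) (l 16199592)))) (c (b (c (l 16278808) (l 16265304)) (c (l 16315480) (l 16317584))) (l 16301888))))) (c (b (b (c (l 16258808) (a (l 16276496) (l 16298904))) (c (l 16359168) (a (l 16331016) (l 16377848)))) (c (b (a (l 16333776) (l 16401376)) (c (a (l 16386488) (l 16436792)) (l 16432280))) (l 16416824))) (a (l 16386936) (l 16390936)))) (b (a (l 16263112) (b (l 16249104) (l 16297352))) (a (l 16382752) (l 16386584)))) (b (a (l 16251968) (a (l 16257720) (l 16224680))) (a (l 16374272) (l 16377768))))), by decide +kernel⟩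

def k14_mm_202 : ∃ t, chk3 f_mm_202 t 58 17 1 = true :=
  ⟨(b (b (c (c (c (a (b (c (l 16329184) (l 16278992)) (c (l 16301744) (l 16276088))) (c (b (l 16436624) (l 16378848)) (b (l 16348040) (l 16346304)))) (a (l 16262184) (l 16220928))) (c (b (l 16272088) (l 16215072)) (b (b (c (l 16289568) (l 16248648)) (c (l 16294168) (l 16298080))) (c (l 16263056) (l 16306888))))) (b (a (c (c (l 16250944) (l 16241160)) (l 16239064)) (l 16329304)) (l 16298776))) (c (c (c (a (b (l 16282888) (l 16277784)) (c (b (c (l 16268976) (l 16370176)) (l 16361576)) (l 16350288))) (b (a (l 16266376) (b (l 16342144) (c (l 16342928) (l 16335840)))) (c (b (l 16301840) (a (l 16223248) (l 16339256))) (b (a (l 16183016) (l 16341344)) (l 16315832))))) (c (b (a (l 16226880) (b (a (l 16322144) (c (l 16357160) (l 16352288))) (c (l 16346800) (c (l 16360800) (l 16363064))))) (c (b (c (l 16317664) (a (l 16286776) (l 16366472))) (c (a (l 16291360) (l 16372616)) (l 16332944))) (l 16329344))) (l 16238992))) (a (l 16274360) (l 16355168)))) (b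 (c (b (c (c (c (l 16312224) (b (l 16303840) (c (l 16302856) (l 16306648)))) (a (c (l 16279504) (b (l 16291960) (l 16303960))) (c (l 16356576) (b (l 16372352) (l 16385184))))) (l 16338760)) (c (c (c (a (b (l 16272840) (l 16266312)) (b (l 16343608) (l 16348120))) (a (l 16298168) (l 16364920))) (c (a (b (l 16306128) (l 16329160)) (b (l 16383400) (l 16397152))) (l 16361488))) (l 16357440))) (a (l 16299080) (l 16377560))) (a (c (c (c (b (c (l 16341168) (b (l 16346560) (l 16384296))) (c (b (l 16406920) (l 16382456)) (l 16432184))) (l 16400304)) (l 16395912)) (l 16387008)) (l 6)))), by decide +kernel⟩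

def k15_mm_202 : ∃ t, chk3 f_mm_202 t 59 17 1 = true :=
  ⟨(b (b (a (c (c (c (b (c (a (l 16531880) (l 16581760)) (c (l 16505144) (l 16486816))) (c (a (l 16465104) (c (l 16613648) (l 16540504))) (b (l 16348320) (l 16305992)))) (b (c (b (l 16423144) (a (l 16419816) (l 16436528))) (l 16429536)) (c (l 16377072) (l 16425272)))) (b (b (c (l 16418424) (l 16415880)) (c (l 16417152) (b (l 16419640) (c (l 16420416) (l 16431512))))) (c (b (c (l 16418200) (b (l 16371640) (l 16374056))) (c (l 16415272) (l 16424176))) (c (b (c (l 16426232) (a (l 16411296) (l 16456280))) (c (l 16396624) (l 16441104))) (l 16438176))))) (c (b (l 16425096) (l 16435048)) (l 16426624))) (a (a (b (c (c (c (c (l 16635784) (l 16594200)) (c (l 16455592) (l 16488160))) (c (l 16471896) (b (l 16470096) (c (l 16472312) (l 16444208))))) (c (l 16483104) (l 16479144))) (l 6)) (l 6)) (l 6))) (a (a (c (c (c (c (b (l 16412488) (l 16414384)) (l 16395064)) (b (l 16340136) (c (l 16401648) (l 16412192)))) (c (b (c (b (l 16398464) (l 16410776)) (b (l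 16416808) (l 16428632))) (c (b (l 16427264) (l 6)) (l 16438936))) (l 16431104))) (l 16424608)) (l 6)) (l 6))) (l 6)), by decide +kernel⟩

def k16_mm_202 : ∃ t, chk3 f_mm_202 t 15 17 1 = true :=
  ⟨(l 6), by decide +kernel⟩

def k17_mm_202 : ∃ t, chk3 f_mm_202 t 12 9 1 = true :=
  ⟨(a (b (b (c (b (c (l 16514200) (l 16508512)) (l 16445776)) (b (l 16493160) (l 16440464))) (b (c (a (l 16390848) (l 16324792)) (b (l 16382856) (l 16337944))) (c (a (l 16252568) (l 16056880)) (a (l 16282480) (l 16187240))))) (b (b (c (a (b (l 16212168) (l 16129040)) (l 15927256)) (b (l 16088728) (l 15841224))) (l 15881160)) (a (l 16009384) (b (l 15886112) (c (l 15913248) (l 15882424)))))) (b (b (c (b (c (b (l 16363104) (l 16417960)) (l 16329368)) (a (l 16395040) (l 16196912))) (b (c (l 16436920) (l 16434528)) (a (l 16392888) (l 16273416)))) (b (c (a (l 16180464) (l 16197600)) (a (l 16252664) (l 16178952))) (c (l 15962856) (l 16021456)))) (b (b (c (a (l 15758728) (b (l 15792608) (c (l 15534424) (l 15661712)))) (b (l 15834976)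 (b (l 15734912) (l 15563368)))) (a (l 15763680) (c (a (l 15690464) (l 15675408)) (a (l 15651672) (l 15636040))))) (a (b (c (a (l 15809440) (l 15780296)) (a (l 15774896) (l 15744712))) (c (l 15907656) (l 15876496))) (c (l 15822280) (l 15790944)))))), by decide +kernel⟩

def k18_mm_202 : ∃ t, chk3 f_mm_202 t 13 18 1 = true :=
  ⟨(b (c (b (a (b (c (a (l 16391024) (l 16394312)) (l 16341152)) (a (l 16338416) (l 16355648))) (a (l 16370576) (b (a (l 16399072) (l 16317376)) (c (l 16334928) (l 16328208))))) (a (a (b (l 16297216) (l 16258000)) (l 16261936)) (a (b (a (l 16272336) (l 16256824)) (c (l 16193896) (l 16184256))) (b (c (l 16273152) (l 16265040)) (l 16235472))))) (a (b (a (b (l 16360192) (l 16354912)) (b (l 16378104) (l 16344040))) (a (b (l 16311896) (l 16242104)) (l 16245912))) (b (a (l 16359640) (b (l 16391232) (l 16276016))) (a (b (l 16249560) (a (l 16167616) (l 16161520))) (b (l 16189744) (l 16217384)))))) (c (a (b (a (l 16108624) (b (l 16128512) (c (l 16013080) (l 16021152)))) (a (b (l 15930120)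 (c (l 15817632) (l 15800592))) (b (a (a (l 15899376) (l 15862512)) (l 15950816)) (c (l 15881128) (l 15865192))))) (c (b (a (b (l 16088672) (l 16099976)) (l 16221464)) (a (l 16075296) (l 16174656))) (b (a (b (l 16119576) (l 16088216)) (l 16211976)) (a (l 16062920) (l 16228168))))) (a (b (a (l 16086192) (b (l 16106608) (a (l 15996568) (l 15995960)))) (a (b (l 15900312) (a (l 15783168) (l 15757720))) (b (a (l 15875808) (l 15921504)) (l 15840872)))) (b (a (b (a (l 16084904) (l 16118992)) (l 16070280)) (l 16176552)) (a (l 15981128) (b (l 16207216) (l 16224400))))))), by decide +kernel⟩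

def k19_mm_202 : ∃ t, chk3 f_mm_202 t 13 19 1 = true :=
  ⟨(b (a (b (b (c (a (a (c (l 15698640) (l 15679416)) (c (l 15716024) (l 15697104))) (l 15850880)) (a (a (l 15650080) (l 15668224)) (l 15817688))) (c (a (b (c (l 15653664) (l 15633656)) (a (l 15596488) (l 15694680))) (c (l 15855656) (l 15839176))) (a (a (b (l 15563792) (l 15554344)) (l 15650000)) (l 15814032)))) (c (a (l 15770816) (l 15970792)) (l 15585168))) (c (b (b (c (a (l 16062192) (l 16264688)) (l 15940760)) (c (a (l 16068792) (l 16286224)) (a (l 16056128) (l 16277528)))) (a (l 16177768) (b (l 16350624) (a (l 16373896) (l 16480200))))) (b (b (a (l 16030048) (l 16241896)) (a (l 16036816) (l 16117480))) (a (l 16156328) (b (l 16335592) (a (l 16359752) (l 16470056))))))) (a (c (a (l 16013352) (l 16068072)) (a (l 15986616) (l 16089936))) (a (b (c (l 16332304) (l 16316616)) (c (c (l 16307200) (l 16323064)) (c (l 16338888) (l 16354656)))) (a (b (c (b (l 16445968) (l 16473832)) (b (l 16434552) (l 16423184))) (c (b (a (l 16554128) (l 16585208))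 (l 16603064)) (b (a (l 16546936) (l 16579160)) (l 16576728)))) (a (b (c (b (l 16523192) (l 16574024)) (b (l 16514728) (l 16546528))) (l 6)) (l 6)))))), by decide +kernel⟩

def k20_mm_202 : ∃ t, chk3 f_mm_202 t 7 9 1 = true :=
  ⟨(a (a (a (b (b (c (b (b (c (l 16411496) (l 16406248)) (l 16363272)) (c (l 16330896) (l 16323632))) (b (b (l 16398168) (l 16350376)) (b (l 16320816) (l 16308120)))) (c (b (c (l 16271640) (l 16327096)) (c (b (l 16367472) (l 16401240)) (l 16292696))) (b (b (l 16309936) (l 16324368)) (b (l 16349816) (l 16384968))))) (b (a (b (b (c (l 16378176) (l 16386032)) (c (c (l 16446408) (l 16440680)) (l 16410992))) (a (b (c (l 16487656) (l 16477760)) (l 6)) (l 6))) (a (b (b (c (l 16461464) (l 16450656)) (l 6)) (l 6)) (l 6))) (l 6))) (b (b (c (b (c (b (l 16434632) (l 16411984)) (b (l 16429520) (l 16406256))) (c (b (l 16405872) (l 16413912)) (b (l 16399888) (l 16407960)))) (b (b (l 16421688) (l 16397536)) (b (l 16390776) (l 16356952)))) (a (b (c (c (l 16420104) (l 16414144)) (b (l 16392592)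 (l 16420216))) (l 6)) (l 6))) (l 6))) (b (b (b (a (a (a (b (c (l 16445216) (l 16434968)) (l 6)) (l 6)) (l 6)) (l 6)) (l 6)) (l 6)) (l 6))) (l 6)), by decide +kernel⟩

def k21_mm_202 : ∃ t, chk3 f_mm_202 t 2 10 1 = true :=
  ⟨(a (b (b (a (l 16589360) (c (l 16659016) (l 16663240))) (c (a (l 16578960) (a (l 16608776) (l 16706112))) (a (l 16580136) (a (l 16611040) (l 16706400))))) (a (c (b (l 16533336) (l 16539696)) (b (l 16489032) (l 16581056))) (b (b (c (l 16680384) (l 16642120)) (c (l 16650464) (l 16651816))) (a (c (l 16621176) (l 16619920)) (c (l 16676608) (l 16665864)))))) (b (a (b (a (c (l 16613976) (l 16606520)) (c (a (l 16547944) (b (l 16497648) (l 16503880))) (b (l 16505176) (l 16519288)))) (a (c (b (l 16638200) (a (l 16679768) (l 16635744))) (b (l 16626832) (l 16650032))) (b (c (l 16529960) (l 16519392)) (l 16518296)))) (a (b (c (l 16386024) (a (l 16415384) (l 16306056))) (c (l 16360704) (l 16345832))) (b (b (l 16163536) (c (l 16173064) (l 16151504))) (b (a (l 16210296) (c (l 16165192) (l 16143728)))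 (a (c (l 16264816) (l 16247096)) (l 16161760)))))) (b (a (a (c (l 16702864) (a (l 16731248) (l 16663664))) (l 16530712)) (c (a (b (l 16424184) (l 16479536)) (b (l 16396200) (l 16523840))) (a (b (l 16411912) (l 16469968)) (b (l 16382568) (l 16514592))))) (a (a (l 16742184) (b (l 16647992) (c (l 16714792) (l 16712816)))) (a (a (c (l 16637688) (l 16632888)) (l 16522568)) (c (l 16673040) (l 16669440))))))), by decide +kernel⟩

def k22_mm_202 : ∃ t, chk3 f_mm_202 t 2 11 1 = true :=
  ⟨(a (b (c (a (b (l 16678312) (l 16743960)) (b (l 16719024) (l 16768968))) (a (b (l 16677376) (l 16743712)) (b (l 16712600) (l 16768680)))) (c (a (l 16777144) (b (l 16777208) (l 16777216))) (a (l 16777144) (b (l 16777208) (l 16777216))))) (b (a (b (c (a (l 16773504) (l 16750472)) (a (l 16773368) (l 16771272))) (a (c (l 16773376) (l 16773240)) (c (l 16762216) (l 16761696)))) (c (b (a (l 16733768) (l 16677456)) (a (l 16732104) (l 16707640))) (b (a (l 16732328) (l 16674936)) (a (l 16730528) (l 16705208))))) (a (c (a (l 16775960)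 (l 16777104)) (a (l 16775912) (l 16777096))) (c (a (l 16777024) (b (a (l 16776768) (b (l 16775816) (l 16776856))) (c (l 16777216) (l 16777216)))) (a (l 16777024) (b (a (l 16776752) (b (l 16775768) (l 16776840))) (c (l 16777216) (l 16777216)))))))), by decide +kernel⟩

def k23_mm_202 : ∃ t, chk3 f_mm_202 t 12 5 1 = true :=
  ⟨(b (b (a (b (b (a (c (l 16019264) (l 15992288)) (c (l 15991560) (l 15963504))) (a (c (l 16077840) (l 16053032)) (l 16123384))) (c (b (l 16235416) (l 16366296)) (b (l 16215824) (l 16351344)))) (b (c (l 16157416) (l 16093832)) (c (b (l 16368976) (l 16478600)) (b (l 16354448) (l 16468344))))) (a (b (c (b (l 16486680) (l 16584152)) (b (l 16476208) (l 16577488))) (c (l 16672992) (l 16649872))) (b (c (b (l 16566464) (a (l 16623296) (a (l 16640640) (l 16627128)))) (b (l 16559728) (a (l 16618696) (a (l 16637008) (l 16623944))))) (c (a (b (l 16680592) (l 16722472)) (b (a (l 16684560) (l 16671144)) (l 16694480))) (a (c (l 16614968) (l 16635184)) (b (a (l 16682664) (l 16668656)) (l 16692680)))))))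 (a (b (c (b (a (l 16695504) (b (l 16708352) (l 16697168))) (a (b (l 16679544) (l 16720240)) (b (l 16702744) (l 16698064)))) (b (a (l 16693096) (b (l 16706768) (l 16694824))) (b (a (l 16676192) (l 16700336)) (a (l 16718240) (l 16696056))))) (c (b (b (a (l 16769952) (l 16752672)) (c (l 16773784) (l 16773720))) (c (l 16777216) (l 16777216))) (b (b (a (l 16769696) (l 16751800)) (c (l 16773664) (l 16773600))) (c (l 16777216) (l 16777216))))) (a (b (c (b (b (l 16721696) (l 16724760)) (c (l 16731112) (l 16730440))) (b (c (l 16724608) (l 16724136)) (c (l 16729752) (l 16729056)))) (b (a (b (c (l 16720200) (l 16718928)) (l 6)) (l 6)) (l 6))) (b (b (b (c (l 16710432) (l 16709000)) (c (l 16705272) (l 16704208))) (l 6)) (l 6))))), by decide +kernel⟩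

def k24_mm_202 : ∃ t, chk3 f_mm_202 t 13 5 1 = true :=
  ⟨(b (b (a (b (a (c (l 16294616) (l 16257368)) (b (c (l 16416072) (l 16403640)) (c (c (l 16411288) (l 16428448)) (c (l 16424592) (l 16420712))))) (c (a (b (l 16487648) (a (l 16549992) (b (l 16595352) (l 16626072)))) (b (a (b (l 16572032) (l 16619696)) (b (l 16631576) (l 16656336))) (a (b (l 16646912) (l 16658608)) (l 16674368)))) (a (b (l 16478128) (a (l 16543016) (b (l 16590240) (l 16622200)))) (c (b (a (l 16571984) (l 16616608)) (l 16614096)) (b (a (l 16569392) (l 16635792)) (l 16612640)))))) (a (a (b (c (b (b (l 16515144) (l 16573808)) (b (l 16591528) (l 16639952))) (b (b (l 16506528) (l 16546568)) (b (l 16544840) (l 16636256)))) (b (c (l 16668976) (l 16666328)) (l 6))) (b (c (b (b (a (l 16580824) (l 16606096)) (l 16622232)) (l 16656192)) (b (c (l 16515392) (l 16533720)) (l 16652920))) (l 6))) (l 6))) (a (a (c (b (b (a (l 16572296) (l 16642392)) (a (l 16640880) (l 16657696))) (c (l 16670848) (l 16669424))) (b (b (a (b (l 16598512) (l 16622672))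 (l 16638992)) (a (l 16637360) (l 16654632))) (c (l 16667976) (l 16666520)))) (a (b (c (l 16650816) (l 16648192)) (l 6)) (l 6))) (l 6))) (l 6)), by decide +kernel⟩

def k25_mm_202 : ∃ t, chk3 f_mm_202 t 7 5 1 = true :=
  ⟨(l 6), by decide +kernel⟩

def k26_mm_202 : ∃ t, chk3 f_mm_202 t 1 3 1 = true :=
  ⟨(a (a (b (b (c (a (l 16777216) (a (l 16777216) (l 16777216))) (a (l 16777216) (a (l 16777216) (l 16777216)))) (c (a (b (l 16777216) (l 16777216)) (b (l 16777216) (c (l 203037868039) (l 209480318983)))) (a (b (l 16777216) (l 16777216)) (b (l 16777216) (c (l 16777216) (l 16777216)))))) (l 2)) (a (b (b (c (b (l 16777216) (a (l 16777216) (c (l 16777216) (l 16777216)))) (b (l 16777216) (c (l 16777216) (l 16777216)))) (c (b (a (c (l 16777216) (l 16777216)) (c (l 16777216) (l 16777216))) (a (c (l 16777216) (l 16777216)) (c (l 255114346503) (l 16777216)))) (b (a (c (l 16777216) (l 16777216)) (c (l 16777216) (l 16777216))) (a (c (l 16777216) (l 16777216)) (c (l 16777216) (l 16777216)))))) (l 2)) (b (a (b (c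 (b (c (l 16777216) (l 16777216)) (c (l 16777216) (l 16777216))) (b (c (l 16777216) (l 16777216)) (c (l 16777216) (l 16777216)))) (b (c (c (b (l 16777216) (l 16777216)) (b (l 16777216) (l 16777216))) (c (b (l 16777216) (l 16777216)) (l 16777216))) (l 6))) (b (b (c (c (b (l 16777216) (l 16777216)) (l 16777216)) (c (l 16777216) (l 16777216))) (a (b (c (l 16777216) (l 16777216)) (l 6)) (l 6))) (l 6))) (l 6)))) (a (b (b (b (b (a (a (a (a (c (l 16777216) (l 16777216)) (l 6)) (l 6)) (l 6)) (l 3)) (l 6)) (l 6)) (l 3)) (l 3)) (l 3))), by decide +kernel⟩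

theorem s27_mm_202 : ∃ t, chk3 f_mm_202 t 6 5 1 = true := ex3_a k23_mm_202 k24_mm_202

theorem s28_mm_202 : ∃ t, chk3 f_mm_202 t 3 5 1 = true := ex3_a s27_mm_202 k25_mm_202

theorem s29_mm_202 : ∃ t, chk3 f_mm_202 t 2 5 1 = true := ex3_b k21_mm_202 k22_mm_202

theorem s30_mm_202 : ∃ t, chk3 f_mm_202 t 1 5 1 = true := ex3_a s29_mm_202 s28_mm_202

theorem s31_mm_202 : ∃ t, chk3 f_mm_202 t 13 9 1 = true := ex3_b k18_mm_202 k19_mm_202

theorem s32_mm_202 : ∃ t, chk3 f_mm_202 t 6 9 1 = true := ex3_a k17_mm_202 s31_mm_202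

theorem s33_mm_202 : ∃ t, chk3 f_mm_202 t 3 9 1 = true := ex3_a s32_mm_202 k20_mm_202

theorem s34_mm_202 : ∃ t, chk3 f_mm_202 t 29 17 1 = true := ex3_a k14_mm_202 k15_mm_202

theorem s35_mm_202 : ∃ t, chk3 f_mm_202 t 14 17 1 = true := ex3_a k13_mm_202 s34_mm_202

theorem s36_mm_202 : ∃ t, chk3 f_mm_202 t 7 17 1 = true := ex3_a s35_mm_202 k16_mm_202

theorem s37_mm_202 : ∃ t, chk3 f_mm_202 t 29 33 1 = true := ex3_a k10_mm_202 k11_mm_202

theorem s38_mm_202 : ∃ t, chk3 f_mm_202 t 29 16 1 = true := ex3_b k9_mm_202 s37_mm_202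

theorem s39_mm_202 : ∃ t, chk3 f_mm_202 t 28 16 1 = true := ex3_c k7_mm_202 k8_mm_202

theorem s40_mm_202 : ∃ t, chk3 f_mm_202 t 14 16 1 = true := ex3_a s39_mm_202 s38_mm_202

theorem s41_mm_202 : ∃ t, chk3 f_mm_202 t 7 16 1 = true := ex3_a s40_mm_202 k12_mm_202

theorem s42_mm_202 : ∃ t, chk3 f_mm_202 t 7 8 1 = true := ex3_b s41_mm_202 s36_mm_202

theorem s43_mm_202 : ∃ t, chk3 f_mm_202 t 6 17 1 = true := ex3_c k5_mm_202 k6_mm_202

theorem s44_mm_202 : ∃ t, chk3 f_mm_202 t 6 32 1 = true := ex3_c k2_mm_202 k3_mm_202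

theorem s45_mm_202 : ∃ t, chk3 f_mm_202 t 6 16 1 = true := ex3_b s44_mm_202 k4_mm_202

theorem s46_mm_202 : ∃ t, chk3 f_mm_202 t 6 8 1 = true := ex3_b s45_mm_202 s43_mm_202

theorem s47_mm_202 : ∃ t, chk3 f_mm_202 t 3 8 1 = true := ex3_a s46_mm_202 s42_mm_202

theorem s48_mm_202 : ∃ t, chk3 f_mm_202 t 3 4 1 = true := ex3_b s47_mm_202 s33_mm_202

theorem s49_mm_202 : ∃ t, chk3 f_mm_202 t 2 4 1 = true := ex3_b k0_mm_202 k1_mm_202

theorem s50_mm_202 : ∃ t, chk3 f_mm_202 t 1 4 1 = true := ex3_a s49_mm_202 s48_mm_202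

theorem s51_mm_202 : ∃ t, chk3 f_mm_202 t 1 2 1 = true := ex3_b s50_mm_202 s30_mm_202

theorem s52_mm_202 : ∃ t, chk3 f_mm_202 t 1 1 1 = true := ex3_b s51_mm_202 k26_mm_202

theorem c_mm_202 : CertNX 0 536870912 1073741824 536870912 1046898278 26843546 3 false false false .pp 2 0 2
    ndN0q2 ndN7q2 pcN0 cut_mm_202 Ext.none :=
  certNX1 (fam := false) (s1 := false) (s2 := false) (a := 2) (b := 0) (c := 2) (cn := .pp) (n1 := ndN0q2) (n2 := ndN7q2) (pc := pcN0) (cut := cut_mm_202) (xt := Ext.none) (P1 := 0) (W1 := 536870912) (P2 := 1073741824) (W2 := 536870912) (P3 := 1046898278) (W3 := 26843546) (N0 := 3)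
    rfl (fun _ => rfl) s52_mm_202

noncomputable def f_mm_203 : ℕ → ℕ → ℕ → ℕ → Bool := onCell 0 536870912 0 1230186008 1046898278 26843546
    (rowNX 3 0 false false false .up 2 0 3 (qsf 0 536870912 0 1230186008 0) ndN0q2 ndN7q3 pcN0 Cut.none Ext.none)

def k0_mm_203 : ∃ t, chk3 f_mm_203 t 1 2 1 = true :=
  ⟨(l 2), by decide +kernel⟩

def k1_mm_203 : ∃ t, chk3 f_mm_203 t 1 6 1 = true :=
  ⟨(l 2), by decide +kernel⟩

def k2_mm_203 : ∃ t, chk3 f_mm_203 t 2 14 1 = true :=
  ⟨(b (l 2) (a (b (l 2) (a (c (c (a (l 16777216) (l 333497499655)) (a (l 16777216) (l 16777216))) (c (a (l 16777216) (l 16777216)) (a (l 16777216) (l 16777216)))) (a (c (c (a (b (l 535897833479) (l 16777216)) (c (l 383493603335) (l 383493603335))) (a (b (l 534824091655) (l 16777216)) (b (l 416242728967) (l 358797541383)))) (b (c (l 372756185095) (l 368461217799)) (c (l 213842395143) (l 219211104263)))) (l 3)))) (l 3))), by decide +kernel⟩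

def k3_mm_203 : ∃ t, chk3 f_mm_203 t 2 30 1 = true :=
  ⟨(b (a (a (c (a (c (l 16777216) (l 16777216)) (c (l 16777216) (l 16777216))) (a (c (l 16777216) (l 16777216)) (c (l 16777216) (l 16777216)))) (c (b (a (c (l 16777216) (l 16777216)) (a (c (l 374903668743) (l 371682443271)) (l 3))) (c (a (l 16777216) (a (l 16777216) (l 387788570631))) (a (l 16777216) (a (l 16777216) (l 383493603335))))) (c (a (b (l 16777216) (l 16777216)) (a (b (l 366313734151) (l 16777216)) (l 392620408839))) (a (l 16777216) (a (l 218137362439) (l 385641086983)))))) (l 3)) (a (a (c (c (a (l 16777216) (l 16777216)) (a (l 16777216) (l 16777216))) (c (a (l 16777216) (l 16777216)) (l 16777216))) (a (c (c (l 16777216) (l 16777216)) (c (l 16777216) (l 16777216))) (c (c (c (l 212231782407) (l 211158040583)) (b (l 213305524231) (l 16777216))) (c (b (l 16777216) (l 16777216)) (l 216526749703))))) (a (a (c (c (a (b (l 399062859783) (l 211694911495)) (l 419463954439)) (a (b (l 393694150663) (l 16777216)) (l 412484632583))) (c (b (l 401210343431)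 (l 362555637767)) (a (l 351281348615) (l 397452247047)))) (l 3)) (l 3)))), by decide +kernel⟩

def k4_mm_203 : ∃ t, chk3 f_mm_203 t 2 31 1 = true :=
  ⟨(b (a (c (c (a (l 16777216) (a (l 16777216) (l 16777216))) (a (l 16777216) (a (l 16777216) (l 16777216)))) (c (a (l 16777216) (a (l 16777216) (l 16777216))) (a (l 16777216) (a (l 16777216) (l 16777216))))) (a (a (c (c (b (a (l 16777216) (l 208473686023)) (l 16777216)) (c (l 209010556935) (l 210084298759))) (c (b (l 214916136967) (l 16777216)) (b (l 221358587911) (l 16777216)))) (a (c (b (c (l 417853341703) (l 423758921735)) (c (l 356113186823) (l 354502574087))) (c (b (l 420537696263) (l 350207606791)) (l 362018766855))) (l 3))) (l 3))) (a (a (c (l 16777216) (l 16777216)) (c (c (a (l 16777216) (l 16777216)) (a (l 16777216) (l 16777216))) (c (a (l 16777216) (l 16777216)) (a (l 16777216) (l 16777216))))) (a (a (c (c (l 16777216) (l 16777216)) (c (l 16777216) (l 16777216))) (c (c (a (b (l 16777216) (l 16777216)) (b (l 364166250503) (l 16777216))) (b (a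 (l 16777216) (l 362018766855)) (l 16777216))) (c (b (a (l 16777216) (l 357186928647)) (l 16777216)) (b (l 224042942471) (l 16777216))))) (b (l 3) (a (a (c (c (l 371145572359) (l 368461217799)) (c (l 363092508679) (l 355576315911))) (l 3)) (l 3)))))), by decide +kernel⟩

def k5_mm_203 : ∃ t, chk3 f_mm_203 t 3 7 1 = true :=
  ⟨(l 3), by decide +kernel⟩

theorem s6_mm_203 : ∃ t, chk3 f_mm_203 t 2 15 1 = true := ex3_b k3_mm_203 k4_mm_203

theorem s7_mm_203 : ∃ t, chk3 f_mm_203 t 2 7 1 = true := ex3_b k2_mm_203 s6_mm_203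

theorem s8_mm_203 : ∃ t, chk3 f_mm_203 t 1 7 1 = true := ex3_a s7_mm_203 k5_mm_203

theorem s9_mm_203 : ∃ t, chk3 f_mm_203 t 1 3 1 = true := ex3_b k1_mm_203 s8_mm_203

theorem s10_mm_203 : ∃ t, chk3 f_mm_203 t 1 1 1 = true := ex3_b k0_mm_203 s9_mm_203

theorem c_mm_203 : CertNX 0 536870912 0 1230186008 1046898278 26843546 3 false false false .up 2 0 3
    ndN0q2 ndN7q3 pcN0 Cut.none Ext.none :=
  certNX0 (fam := false) (s1 := false) (s2 := false) (a := 2) (b := 0) (c := 3) (cn := .up) (n1 := ndN0q2) (n2 := ndN7q3) (pc := pcN0) (cut := Cut.none) (xt := Ext.none) (P1 := 0) (W1 := 536870912) (P2 := 0) (W2 := 1230186008) (P3 := 1046898278) (W3 := 26843546) (N0 := 3)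
    rfl s10_mm_203

noncomputable def f_mm_213 : ℕ → ℕ → ℕ → ℕ → Bool := onCell 0 536870912 0 1230186008 1046898278 26843546
    (rowNX 3 0 false false false .pnn 2 1 3 (qsf 0 536870912 0 1230186008 1) ndN0q2 ndN7q3 pcN1 Cut.none Ext.none)

def k0_mm_213 : ∃ t, chk3 f_mm_213 t 1 1 1 = true :=
  ⟨(b (a (l 3) (b (l 5) (l 3))) (b (a (b (l 3) (a (l 3) (l 3))) (l 3)) (a (b (a (b (a (a (c (c (b (a (b (l 398525988871) (l 209547427847)) (l 426980147207)) (b (a (l 16777216) (l 206863073287)) (l 16777216))) (b (a (b (l 399599730695) (l 16777216)) (l 426980147207)) (b (l 211158040583) (l 16777216)))) (b (a (c (l 366850605063) (l 365776863239)) (b (l 3) (l 414095245319))) (c (b (l 215989878791) (l 16777216)) (l 221358587911)))) (a (b (l 3) (c (b (b (l 3) (l 433959469063)) (c (l 372756185095) (l 371682443271))) (c (l 389936054279) (l 387788570631)))) (l 3))) (l 3)) (b (a (c (a (c (l 16777216) (l 16777216)) (a (c (b (l 16777216) (l 16777216)) (l 16777216)) (b (c (l 389399183367) (l 387251699719)) (c (l 212231782407)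 (l 16777216))))) (c (a (l 16777216) (b (l 213305524231) (l 16777216))) (a (l 16777216) (b (l 219211104263) (l 16777216))))) (b (l 3) (a (c (c (l 420000825351) (l 417316470791)) (c (l 413558374407) (l 409800278023))) (l 3)))) (b (a (c (c (a (l 16777216) (l 16777216)) (l 16777216)) (c (l 16777216) (l 16777216))) (a (c (a (c (l 210621169671) (l 211694911495)) (c (l 420537696263) (l 416242728967))) (c (l 373829926919) (l 369534959623))) (l 3))) (l 1)))) (l 3)) (a (l 1) (b (a (l 1) (l 3)) (l 1)))) (l 3)))), by decide +kernel⟩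

theorem c_mm_213 : CertNX 0 536870912 0 1230186008 1046898278 26843546 3 false false false .pnn 2 1 3
    ndN0q2 ndN7q3 pcN1 Cut.none Ext.none :=
  certNX0 (fam := false) (s1 := false) (s2 := false) (a := 2) (b := 1) (c := 3) (cn := .pnn) (n1 := ndN0q2) (n2 := ndN7q3) (pc := pcN1) (cut := Cut.none) (xt := Ext.none) (P1 := 0) (W1 := 536870912) (P2 := 0) (W2 := 1230186008) (P3 := 1046898278) (W3 := 26843546) (N0 := 3)
    rfl k0_mm_213

end Pool.Agent.Strip051.G.IE1.Tab.C.NB07

namespace Pool.Agent.Strip051.G.IE1.Tab.C.NB10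

open Pool.Agent.Strip051.PB Pool.Agent.Strip051.PB.T
open Pool.Agent.Strip051.G.IE1.Tab

noncomputable def f_pp_001 : ℕ → ℕ → ℕ → ℕ → Bool := onCell 67108864 469762048 0 536870912 1046898278 26843546
    (rowNX 3 1 false true true .up 0 0 1 (qsf 67108864 469762048 536870912 536870912 0) ndN1q0 ndN0q1 pcN0 Cut.none Ext.none)

def k0_pp_001 : ∃ t, chk3 f_pp_001 t 1 1 1 = true :=
  ⟨(l 3), by decide +kernel⟩

theorem c_pp_001 : CertNX 67108864 469762048 536870912 536870912 1046898278 26843546 3 false true true .up 0 0 1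
    ndN1q0 ndN0q1 pcN0 Cut.none Ext.none :=
  certNX1 (fam := false) (s1 := true) (s2 := true) (a := 0) (b := 0) (c := 1) (cn := .up) (n1 := ndN1q0) (n2 := ndN0q1) (pc := pcN0) (cut := Cut.none) (xt := Ext.none) (P1 := 67108864) (W1 := 469762048) (P2 := 536870912) (W2 := 536870912) (P3 := 1046898278) (W3 := 26843546) (N0 := 3)
    rfl (fun _ => rfl) k0_pp_001

noncomputable def f_pp_011 : ℕ → ℕ → ℕ → ℕ → Bool := onCell 67108864 469762048 536870912 536870912 1046898278 26843546
    (rowNX 3 0 false true true .pnn 0 1 1 (qsf 67108864 469762048 536870912 536870912 1) ndN1q0 ndN0q1 pcN1 Cut.none Ext.none)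

def k0_pp_011 : ∃ t, chk3 f_pp_011 t 1 1 1 = true :=
  ⟨(b (l 3) (l 3)), by decide +kernel⟩

theorem c_pp_011 : CertNX 67108864 469762048 536870912 536870912 1046898278 26843546 3 false true true .pnn 0 1 1
    ndN1q0 ndN0q1 pcN1 Cut.none Ext.none :=
  certNX0 (fam := false) (s1 := true) (s2 := true) (a := 0) (b := 1) (c := 1) (cn := .pnn) (n1 := ndN1q0) (n2 := ndN0q1) (pc := pcN1) (cut := Cut.none) (xt := Ext.none) (P1 := 67108864) (W1 := 469762048) (P2 := 536870912) (W2 := 536870912) (P3 := 1046898278) (W3 := 26843546) (N0 := 3)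
    rfl k0_pp_011

noncomputable def f_pp_012 : ℕ → ℕ → ℕ → ℕ → Bool := onCell 536870912 536870912 0 536870912 1046898278 26843546
    (rowNX 3 2 false true true .pnp 0 1 2 (qsf 67108864 469762048 0 536870912 1) ndN1q0 ndN0q2 pcN1 Cut.none Ext.none)

def k0_pp_012 : ∃ t, chk3 f_pp_012 t 2 1 1 = true :=
  ⟨(b (b (a (l 2) (c (a (b (a (l 201964126215) (l 16777216)) (a (l 154719485959) (b (l 16777216) (l 16777216)))) (b (l 16777216) (b (l 16777216) (a (l 16777216) (l 16777216))))) (a (b (a (l 183173644295) (l 16777216)) (a (l 16777216) (b (l 16777216) (l 16777216)))) (b (l 16777216) (c (l 16777216) (l 16777216)))))) (b (a (l 2) (a (c (a (c (l 192904429575) (l 189146333191)) (c (l 16777216) (l 16777216))) (c (a (l 183240753159) (l 16777216)) (a (l 16777216) (l 16777216)))) (c (c (l 16777216) (l 16777216)) (c (l 16777216) (l 16777216))))) (a (l 3) (b (a (a (l 3) (c (c (l 237464715271) (l 229948522503)) (l 215453007879))) (c (a (l 16777216) (l 16777216)) (c (l 16777216) (l 16777216)))) (a (l 3) (c (a (l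 237464715271) (l 16777216)) (a (l 226190426119) (l 16777216)))))))) (b (a (l 3) (b (a (l 3) (a (l 3) (b (c (l 242296553479) (l 237464715271)) (l 3)))) (l 3))) (l 3))), by decide +kernel⟩

def k1_pp_012 : ∃ t, chk3 f_pp_012 t 6 2 1 = true :=
  ⟨(b (a (b (a (l 16777152) (l 16688032)) (a (c (l 16777168) (l 16777168)) (c (l 16739648) (l 16738328)))) (a (b (l 16610376) (c (l 16659240) (l 16655096))) (b (c (l 16329296) (l 16361408)) (a (l 16544464) (b (l 16469024) (l 16491368)))))) (a (b (a (c (b (l 16777176) (l 16777184)) (b (l 16777176) (l 16777184))) (c (b (l 16746776) (l 16751176)) (b (l 16745704) (l 16750264)))) (c (a (b (l 16777192) (l 16777200)) (b (l 16757488) (l 16763376))) (a (c (l 16777200) (l 16777200)) (b (l 16756792) (l 16762896))))) (a (b (b (l 16676456) (c (l 16691928) (l 16688936))) (c (b (l 16706448) (l 16723320)) (b (l 16703968) (l 16721424)))) (a (b (b (l 16615184) (l 16634352)) (c (b (l 16656200) (l 16681384)) (b (l 16651952) (l 16678024)))) (b (c (l 16529208) (l 16520504)) (b (c (a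 (l 16604032) (l 16523696)) (a (l 16597952) (l 16514792))) (c (l 16531512) (l 16525096)))))))), by decide +kernel⟩

def k2_pp_012 : ∃ t, chk3 f_pp_012 t 6 3 1 = true :=
  ⟨(b (a (b (c (a (b (c (l 16777208) (l 16777208)) (l 221358587911)) (b (l 16769264) (c (l 109152542711) (l 16753568)))) (a (b (c (l 16777208) (l 16777208)) (l 235317232599)) (b (l 16768984) (c (l 16774496) (l 16774448))))) (b (a (l 3) (b (c (l 195588644087) (l 215452864263)) (l 3))) (l 3))) (b (a (c (b (l 16718864) (l 16756376)) (b (l 16717552) (l 16734672))) (a (c (b (l 16705576) (l 16729824)) (b (l 16703064) (l 16728168))) (c (a (b (l 16666360) (l 16677424)) (b (l 16589112) (l 16624224))) (a (b (l 16662472) (l 16674656)) (b (l 16582504) (l 16618848)))))) (a (a (b (c (b (l 16757392) (l 16646256)) (b (l 16736176) (l 16621464))) (l 3)) (b (c (b (l 16748032) (l 16671088)) (b (l 16747112) (l 16667936))) (c (l 159617701735) (l 190219323159)))) (b (a (c (l 16624640) (b (l 16730768) (l 16679328))) (a (c (b (l 16685256) (l 16621120)) (b (l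 16682728) (l 16618072))) (c (b (l 16641112) (l 16633472)) (b (l 16636280) (l 16628544))))) (a (b (c (l 16554984) (l 16527600)) (a (l 3) (b (c (l 16494400) (l 16483224)) (l 3)))) (b (c (a (a (l 16580728) (l 16590568)) (l 16633224)) (a (a (l 16574160) (l 16583616)) (l 16630368))) (c (a (c (l 16422512) (l 16454856)) (l 16502968)) (a (l 16356360) (l 16485208))))))))) (b (a (l 3) (b (b (a (l 3) (a (l 3) (a (l 3) (c (l 119888939799) (l 16331520))))) (l 3)) (l 3))) (l 3))), by decide +kernel⟩

def k3_pp_012 : ∃ t, chk3 f_pp_012 t 7 2 1 = true :=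
  ⟨(c (a (b (b (a (l 16178160) (l 15818264)) (a (l 16228360) (a (l 15964072) (l 15818112)))) (a (b (l 16278552) (b (a (l 16400872) (l 16233040)) (a (l 16426672) (b (l 16258096) (l 16286304))))) (b (a (l 16033456) (l 15957704)) (a (b (l 16120096) (l 16227184)) (l 16176928))))) (b (a (b (l 15655152) (l 15780888)) (b (c (l 15649528) (l 15631280)) (b (l 15740664) (l 15826368)))) (a (b (l 15878256) (b (l 16134568) (l 16271576))) (b (a (l 15980496) (l 15979008)) (b (l 16066792) (l 16192480)))))) (a (b (b (a (l 16157136) (l 15784616)) (a (l 16209096) (a (l 15935528) (l 15784568)))) (a (b (l 16261048) (b (l 16197752) (a (l 16414368) (l 16132392)))) (b (a (l 16007384) (l 15929312)) (a (b (l 16097192) (l 16208240)) (l 16156696))))) (b (a (b (l 15616696) (l 15747040)) (b (a (l 15605216) (l 15602200)) (b (l 15707240) (l 15796064)))) (a (b (l 15935016) (b (l 16113840) (l 16255936))) (b (a (l 15955376) (l 15954728)) (b (l 16132152) (l 16241368))))))), by decide +kernel⟩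

def k4_pp_012 : ∃ t, chk3 f_pp_012 t 14 6 1 = true :=
  ⟨(b (a (b (c (a (l 16464896) (b (l 16332384) (l 16392440))) (a (l 16453928) (l 16310312))) (a (c (b (l 16506640) (l 16493904)) (b (l 16497168) (l 16507216))) (c (l 16509432) (l 16500424)))) (a (c (b (l 16363880) (l 16522824)) (b (l 16350008) (l 16514856))) (b (c (l 16339184) (l 16368496)) (c (l 16522456) (l 16515872))))) (a (b (c (a (b (l 16609896) (l 16634152)) (b (l 16619320) (l 16644160))) (a (b (l 16604104) (l 16629056)) (b (l 16614312) (l 16639744)))) (c (a (b (l 16657208) (l 16578168)) (b (l 16667392) (l 16690960))) (a (b (l 16653240) (l 16589120)) (b (l 16663520) (l 16688000))))) (b (c (a (b (l 16634480) (l 16658304)) (b (l 16656080) (l 16677312))) (a (b (l 16630608) (l 16654944)) (b (l 16653624) (l 16675272)))) (a (c (b (l 16680456) (l 16703224)) (b (l 16677528) (l 16700752))) (c (b (l 16689104) (l 16649888)) (b (l 16687072) (a (l 16700864) (l 16680296)))))))), by decide +kernel⟩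

def k5_pp_012 : ∃ t, chk3 f_pp_012 t 14 7 1 = true :=
  ⟨(b (b (a (c (b (a (c (l 64591298775) (l 16403920)) (b (l 16638648) (l 16516752))) (a (c (b (l 16260288) (l 3)) (l 131162952647)) (b (c (l 16417840) (l 16466288)) (c (a (l 16358144) (l 16432704)) (l 16312520))))) (a (b (c (l 16411800) (l 16419544)) (l 142974069159)) (b (c (l 16588520) (l 16581240)) (c (l 16237128) (l 16324680))))) (a (b (c (a (l 16722880) (l 16719240)) (a (l 16721584) (l 16717120))) (c (a (b (l 16604768) (l 16471800)) (l 16617392)) (a (l 16411568) (l 16629040)))) (c (b (l 16663432) (a (l 16686400) (l 16658544))) (b (l 16660344) (c (l 16669352) (l 16667440)))))) (a (a (l 3) (a (l 3) (b (a (l 3) (b (b (c (l 16352632) (l 16329720)) (l 3)) (l 3))) (l 3)))) (b (a (c (c (b (a (l 120962770919) (l 16522616)) (a (l 130089328775) (l 119352074567))) (b (l 72644327431) (l 80697112487))) (b (a (l 16376344) (l 16487792)) (a (l 16239368) (l 16345232)))) (c (b (a (l 16620992) (l 16644904)) (a (l 16388472) (l 16601112))) (b (c (l 16613312) (l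 16632712)) (c (l 16514304) (l 16505656))))) (b (a (c (c (a (l 3) (l 195050889255)) (l 125257118407)) (l 120962096775)) (c (a (c (b (l 16398040) (l 107003957719)) (l 16299000)) (c (l 16448576) (l 16456912))) (a (l 16243656) (l 16437704)))) (a (l 3) (c (a (c (l 198272152711) (l 126330961655)) (c (b (l 110225222695) (a (l 147269226391) (l 16252736))) (l 81233994359))) (a (l 123109670103) (c (l 16236352) (l 16254096))))))))) (b (b (b (b (b (a (l 3) (a (l 3) (a (l 3) (a (l 3) (c (b (l 130089500327) (b (l 210083240551) (l 3))) (l 16186776)))))) (l 3)) (l 3)) (l 3)) (l 3)) (l 3))), by decide +kernel⟩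

def k6_pp_012 : ∃ t, chk3 f_pp_012 t 30 6 1 = true :=
  ⟨(a (b (b (c (b (l 16370960) (l 16446888)) (b (l 16358632) (l 16437384))) (c (l 16478184) (l 16472952))) (b (c (b (l 16655536) (l 16650880)) (b (l 16653640) (l 16648400))) (c (b (l 16614656) (l 16576056)) (b (l 16611168) (l 16571480))))) (b (a (b (c (l 16434048) (l 16424592)) (c (l 16546352) (l 16541752))) (b (c (l 16438224) (l 16429248)) (c (a (l 16563288) (a (l 16562080) (b (l 16451832) (l 16588448)))) (l 16536224)))) (a (b (c (l 16616872) (l 16613696)) (c (l 16565760) (l 16559872))) (c (b (c (a (l 16605384) (l 16586448)) (l 16604624)) (c (a (l 16547232) (c (l 16510224) (l 16549848))) (l 16545824))) (b (l 16602072) (l 16541064)))))), by decide +kernel⟩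

def k7_pp_012 : ∃ t, chk3 f_pp_012 t 31 12 1 = true :=
  ⟨(b (c (a (l 16421888) (l 16394616)) (l 16335616)) (a (a (c (c (c (a (c (b (l 16471800) (l 16592032)) (b (l 16512952) (l 16590280))) (b (l 16486768) (l 16590352))) (a (l 16559776) (c (b (l 16443808) (l 16589384)) (b (l 16506008) (l 16588208))))) (b (l 16528016) (l 16586784))) (l 16552920)) (b (l 16514512) (c (c (c (l 16586464) (a (l 16587440) (l 16585416))) (a (c (a (l 16586728) (c (l 16586712) (l 16585904))) (l 16585064)) (c (l 16584800) (c (a (l 16584784) (l 16584032)) (a (l 16584144) (l 16583496)))))) (l 16560784)))) (b (l 16498224) (a (b (l 16560016) (c (c (l 16599728) (a (l 16557776) (l 16597824))) (c (a (c (c (l 16530832) (l 16598608)) (l 16598024)) (c (l 16596872) (b (l 16585920) (a (l 16606464) (l 16605224))))) (l 16595824)))) (c (l 16577704) (l 16574536)))))), by decide +kernel⟩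

def k8_pp_012 : ∃ t, chk3 f_pp_012 t 62 13 1 = true :=
  ⟨(c (c (c (a (b (a (c (l 16553528) (l 16611912)) (a (l 16618584) (l 16618272))) (a (a (c (l 16562960) (l 16555064)) (c (l 16533464) (l 16544064))) (b (l 16563160) (b (l 16529064) (l 16501432))))) (b (l 16614656) (b (l 16599408) (l 16637624)))) (a (b (a (l 16608928) (c (a (l 16613496) (l 16617832)) (l 16612240))) (a (b (l 16568304) (l 16541632)) (a (b (l 16574016) (c (l 16561536) (l 16554184))) (b (l 16538720) (c (l 16565416) (l 16576576)))))) (b (a (l 16595824) (l 16614752)) (a (b (l 16545936) (a (l 16606264) (l 16630728))) (l 16617208))))) (a (b (l 16608536) (b (l 16567680) (a (l 16538680) (l 16520760)))) (b (c (a (c (a (l 16613584) (l 16616944)) (l 16612664)) (l 16615888)) (a (l 16610744) (c (a (l 16614280) (l 16616232)) (a (l 16611776) (l 16614360))))) (a (c (b (a (l 16554632) (c (l 16589552) (l 16583480))) (a (c (l 16576496) (l 16591488)) (c (l 16631400) (l 16623720)))) (b (l 16576912) (l 16604488))) (c (b (l 16589376) (l 16627040)) (a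 (c (b (l 16596416) (l 16652336)) (l 16620840)) (c (l 16589384) (a (l 16638632) (l 16633888))))))))) (b (c (l 16524928) (l 16607344)) (a (b (l 16563736) (l 16508144)) (b (c (l 16592912) (l 16590928)) (c (l 16589712) (l 16630216)))))), by decide +kernel⟩

def k9_pp_012 : ∃ t, chk3 f_pp_012 t 63 13 1 = true :=
  ⟨(c (a (b (c (b (l 16625408) (l 16611648)) (c (b (l 16625184) (l 16633104)) (a (a (l 16617600) (l 16622360)) (l 16555648)))) (c (l 16504552) (a (b (l 16546016) (c (l 16636840) (l 16529296))) (l 16533584)))) (b (b (c (l 16523896) (l 16501760)) (l 16487944)) (c (l 16483912) (l 16459440)))) (a (c (b (a (c (a (b (l 16623896) (l 16585472)) (c (l 16622944) (a (l 16618024) (l 16580800)))) (l 16618928)) (c (b (l 16625432) (l 16623912)) (a (b (l 16624096) (l 16548168)) (c (l 16523184) (b (l 16625584) (l 16644912)))))) (a (c (a (c (l 16524120) (l 16670088)) (c (l 16595776) (l 16534552))) (l 16636840)) (c (l 16467424) (c (a (l 16502672) (l 16554008)) (a (l 16609320) (l 16491400)))))) (b (b (l 16623088)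 (l 16631008)) (l 16519784))) (c (b (a (b (c (l 16631072) (a (l 16633344) (l 16624080))) (l 16494944)) (l 16478152)) (a (c (l 16530992) (a (l 16502472) (l 16512744))) (l 16464984))) (a (b (c (a (b (b (l 16626056) (l 16637440)) (l 16613920)) (c (l 16498040) (b (b (l 16569920) (l 16615280)) (l 16582296)))) (l 16549088)) (c (a (c (l 16458800) (l 16543152)) (c (l 16510680) (l 16383888))) (l 16525616))) (c (b (b (l 16479224) (l 16514352)) (l 16398648)) (b (a (c (a (l 16498560) (b (l 16507464) (l 16521376))) (l 16574464)) (c (l 16502200) (c (a (l 16446584) (l 16535728)) (b (l 16462880) (l 16517480))))) (a (c (a (l 16484328) (l 16384424)) (l 16475488)) (c (l 16443376) (a (l 16429944) (b (l 16460920) (l 16408552))))))))))), by decide +kernel⟩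

def k10_pp_012 : ∃ t, chk3 f_pp_012 t 30 14 2 = true :=
  ⟨(a (b (b (a (l 16627712) (l 16572152)) (a (l 16610480) (l 16548192))) (b (a (b (l 16593888) (l 16559512)) (c (b (a (l 16545064) (l 16516408)) (a (l 16512720) (l 16506016))) (b (l 16505768) (a (l 16507976) (l 16501184))))) (a (a (b (l 16534288) (c (b (l 16450352) (a (c (l 16366112) (l 16357000)) (b (l 16413832) (l 16378840)))) (b (l 16441888) (a (l 16343256) (l 16382944))))) (c (b (l 16486112) (b (l 16490768) (l 16451528))) (b (l 16502464) (l 16481280)))) (c (b (a (l 16499712) (l 16513896)) (l 16516256)) (b (l 16502072) (l 16511856)))))) (b (a (b (l 16522160) (c (b (l 16503296) (a (l 16502832) (l 16500440))) (b (l 16498768) (l 16479048)))) (c (b (a (l 16500280) (a (l 16511696) (b (l 16496608) (l 16535224)))) (a (b (l 16500544) (l 16531424)) (c (a (l 16558056) (l 16525864)) (l 16571048)))) (b (a (l 16495952) (l 16518272)) (a (l 16470672) (l 16568720))))) (a (b (c (b (b (l 16514872) (l 16526080)) (l 16532576)) (b (l 16496096) (l 16528328)))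 (c (b (l 16540992) (l 16549544)) (l 16520472))) (c (a (b (b (l 16564496) (l 16576128)) (b (l 16582712) (l 16589496))) (b (a (l 16614384) (c (b (l 16598320) (l 16631712)) (l 16643888))) (c (a (l 16631536) (c (c (l 16624728) (l 16662384)) (l 16661728))) (l 16645688)))) (b (b (l 16548952) (l 16581944)) (a (l 16583104) (l 16644112))))))), by decide +kernel⟩

def k11_pp_012 : ∃ t, chk3 f_pp_012 t 30 14 3 = true :=
  ⟨(b (a (b (a (l 16622928) (l 16565616)) (a (l 16604680) (l 16540400))) (a (b (l 16514072) (b (l 16491880) (a (l 16491072) (l 16488792)))) (b (a (l 16489352) (l 16491416)) (b (a (l 16489304) (l 16545512)) (l 16509808))))) (a (b (c (a (l 16529656) (b (l 16522376) (a (l 16503192) (l 16496320)))) (a (l 16546992) (b (l 16517968) (a (l 16498368) (l 16491408))))) (a (b (a (l 16528472) (c (l 16497808) (l 16493120))) (a (b (l 16429016) (c (l 16325800) (l 16330200))) (c (l 16479480) (l 16477656)))) (b (c (l 16497200) (l 16492288)) (c (l 16507432) (l 16502968))))) (a (b (b (b (l 16503632) (l 16515248))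 (l 16521880)) (c (l 16537296) (l 16533104))) (b (b (c (l 16567040) (l 16564128)) (c (l 16579184) (l 16597368))) (c (a (l 16579800) (l 16641984)) (a (l 16576464) (l 16639832))))))), by decide +kernel⟩

def k12_pp_012 : ∃ t, chk3 f_pp_012 t 60 15 1 = true :=
  ⟨(b (b (a (c (b (c (b (a (a (a (c (l 235853097975) (l 16270632)) (l 240148081479)) (l 120962654151)) (l 16318896)) (a (c (l 226726215015) (l 131699809111)) (c (b (l 16331240) (l 169281087447)) (l 16235024)))) (a (b (l 95192719223) (l 16151248)) (l 96266427047))) (b (c (c (l 194513997591) (l 188071421351)) (l 123109750439)) (l 3))) (b (c (b (a (l 16255008) (l 16344888)) (l 16055144)) (a (l 126330932311) (l 16272496))) (c (l 113982637415) (l 15950632)))) (c (a (b (c (b (l 16460888) (c (l 16330176) (l 16382272))) (l 16409504)) (c (b (c (l 208472781815) (l 16317360)) (b (l 199882788391) (l 3))) (l 144047827447))) (b (c (l 16412712) (l 16502032)) (c (c (b (l 16420960) (b (l 16383008) (c (b (l 16367176) (c (c (l 213304646759) (l 16354584)) (l 16350704)))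 (l 16350328)))) (l 105930192327)) (l 99487715831)))) (b (c (l 16360720) (l 16391528)) (c (a (l 16200096) (l 16326184)) (l 16090184))))) (a (l 3) (a (l 3) (b (b (b (b (c (c (c (c (c (c (l 16351104) (l 198809098007)) (l 195050968327)) (l 16327888)) (l 16311152)) (l 16277512)) (l 16209480)) (l 3)) (l 3)) (l 3)) (l 3))))) (l 3)), by decide +kernel⟩

def k13_pp_012 : ∃ t, chk3 f_pp_012 t 122 15 1 = true :=
  ⟨(b (b (c (b (c (l 16515864) (l 16554024)) (c (c (b (l 16554144) (a (a (b (l 16452904) (c (l 16430760) (l 16421896))) (l 16509336)) (l 16561712))) (a (l 16478304) (l 16577416))) (a (l 16462560) (l 16572376)))) (b (c (l 16550216) (l 16546368)) (c (l 16397792) (l 16466800)))) (b (c (b (c (c (c (b (c (a (b (c (l 16444864) (l 16437168)) (l 16435016)) (l 16538256)) (a (b (l 16431384) (c (l 16400664) (l 16415912))) (l 16547944))) (a (l 254643868551) (l 16518032))) (c (b (l 89824201431) (a (b (l 233168951751) (l 227263359431)) (b (l 16500320) (l 16488808)))) (a (l 236927068999) (l 16503304)))) (a (l 16385984)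 (l 16493792))) (a (l 16354912) (l 16470880))) (c (b (b (c (c (l 279340039831) (c (l 266455071447) (a (l 207935948823) (l 171965827639)))) (a (l 16341864) (l 16450264))) (a (l 3) (c (c (c (l 231558578503) (l 16490232)) (l 16462656)) (l 192366857623)))) (a (l 3) (c (c (c (l 249275242103) (b (l 253570220167) (l 242295896503))) (l 16448576)) (c (c (b (l 215989153671) (l 16414480)) (b (l 16415832) (l 214378475799))) (l 16396912))))) (a (l 212230776807) (l 16366864)))) (c (a (l 116130498775) (l 16329024)) (a (l 16216128) (l 16353040)))) (a (l 3) (b (b (b (c (c (c (c (l 16447136) (c (l 227263460311) (l 16423472))) (c (l 218136585543) (l 211694042199))) (l 16331160)) (l 152637949911)) (l 3)) (l 3)) (l 3))))) (l 3)), by decide +kernel⟩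

def k14_pp_012 : ∃ t, chk3 f_pp_012 t 123 60 1 = true :=
  ⟨(c (b (c (a (l 16596488) (c (a (l 16642224) (c (a (l 16666128) (l 16664632)) (l 16672864))) (l 16656632))) (l 16540304)) (c (a (a (a (l 16574744) (l 16584856)) (l 16608928)) (a (l 16640696) (c (c (b (l 16658936) (c (c (a (b (l 16716352) (b (l 16706968) (a (l 16732240) (l 178274565943)))) (b (l 16695336) (b (l 16720504) (l 1)))) (a (l 16721552) (b (l 16732720) (l 177200822791)))) (l 16683512))) (l 16667488)) (l 16667056)))) (a (l 16591992) (b (l 16679360) (l 16667472))))) (b (c (l 16558624) (l 16555928)) (a (c (l 16589592) (l 16608128)) (a (l 16678336) (c (l 16644024) (l 16642816)))))), by decide +kernel⟩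

def k15_pp_012 : ∃ t, chk3 f_pp_012 t 246 122 1 = true :=
  ⟨(c (c (c (b (c (b (c (l 16617376) (a (l 16583264) (l 16653072))) (a (l 16597056) (l 16644984))) (b (l 16623768) (a (a (l 16560480) (l 16586496)) (c (l 16625336) (l 16619312))))) (c (a (b (b (l 16586784) (l 16577360)) (a (c (l 16546432) (l 16539808)) (b (c (l 16581192) (l 16572792)) (b (c (l 16565888) (l 16562720)) (c (a (l 16549888) (c (l 16560696) (l 16560192))) (l 16553696)))))) (b (c (c (a (b (l 16633312) (a (l 16616320) (b (l 16631088) (l 16623448)))) (b (a (l 16649640) (l 16660480)) (c (l 16644216) (l 400002149767)))) (a (l 16621200) (l 359736831607))) (l 16620840)) (b (c (a (c (a (l 505228742055) (l 16608416)) (l 16602016)) (l 1)) (l 16605360)) (l 1)))) (b (a (a (l 16537560) (l 16563584)) (c (l 16605080) (b (l 16596648) (l 16584368)))) (a (a (l 16517616) (l 16543168)) (l 16576952))))) (b (l 16582232) (a (b (l 16526840) (c (a (c (l 16491512) (l 16479432)) (b (c (l 16523416) (l 16514488)) (c (l 16511472) (b (l 16500680) (l 16492528)))))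 (a (l 16470168) (l 16497416)))) (b (a (l 16564872) (l 16589424)) (c (b (c (l 16558568) (l 16550160)) (l 1)) (l 16533616)))))) (a (a (l 16508392) (l 16390616)) (b (l 16616872) (b (l 16555448) (l 16511008))))) (a (c (a (l 16478048) (l 16467904)) (l 16317808)) (b (l 16591888) (c (b (l 16526720) (l 16474552)) (l 16447200))))), by decide +kernel⟩

def k16_pp_012 : ∃ t, chk3 f_pp_012 t 247 122 1 = true :=
  ⟨(b (b (c (c (c (c (a (c (a (l 16699744) (c (b (l 16726936) (l 16724016)) (l 16719888))) (l 16681264)) (b (c (a (c (l 16717248) (l 16735648)) (l 1)) (l 16713528)) (l 1))) (l 16678160)) (l 16677128)) (l 16664544)) (a (l 16679928) (l 16733112))) (a (c (c (c (c (a (c (b (l 16670432) (a (l 16677528) (l 1))) (l 16673032)) (l 1)) (b (l 16677936) (l 16663760))) (l 16663464)) (l 16652096)) (l 16608144)) (l 1))) (l 1)), by decide +kernel⟩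

def k17_pp_012 : ∃ t, chk3 f_pp_012 t 123 123 1 = true :=
  ⟨(b (a (a (a (b (b (c (c (c (c (a (l 16506976) (l 16520560)) (c (l 217599967031) (l 16492712))) (c (l 16465136) (l 16439864))) (l 16409032)) (l 16334912)) (a (l 3) (a (b (c (c (c (c (l 283098205207) (c (l 16497312) (l 16487408))) (c (l 16459768) (l 233705966711))) (l 16395264)) (l 16316776)) (l 1)) (l 1)))) (l 3)) (b (b (c (c (c (c (c (a (c (c (b (l 16539608) (l 16528872)) (l 16533872)) (l 16533328)) (l 1)) (l 16537616)) (c (l 403223142055) (l 16518288))) (c (l 16491464) (l 16467024))) (l 16438040)) (l 16368400)) (l 1)) (l 1))) (l 1)) (l 1)) (l 1)), by decide +kernel⟩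

def k18_pp_012 : ∃ t, chk3 f_pp_012 t 123 31 1 = true :=
  ⟨(l 1), by decide +kernel⟩

def k19_pp_012 : ∃ t, chk3 f_pp_012 t 124 14 2 = true :=
  ⟨(b (c (a (c (a (c (b (l 16561088) (l 16608872)) (b (l 16529568) (l 16596880))) (b (c (l 16578184) (l 16585264)) (c (l 16631048) (l 16636024)))) (b (l 16499288) (b (l 16591264) (l 16606456)))) (c (a (c (l 16624552) (a (l 16612576) (l 16609976))) (l 16626424)) (c (a (b (l 16590984) (l 16663632)) (b (l 16650760) (l 16660648))) (b (a (l 16603312) (l 16639088)) (b (l 16592072) (l 16608592)))))) (a (b (l 16559304) (l 16628320)) (b (a (l 16601024) (l 16630280)) (l 16604280)))) (c (b (c (a (a (c (l 16627296) (b (l 16649096) (l 16661848))) (c (a (l 16727048) (l 16675904)) (l 16634240))) (a (c (l 16673736) (b (l 16656256) (l 16677816))) (l 16646136))) (a (b (l 16620280) (l 16654112)) (c (a (l 16650224) (b (l 16624656) (l 16645832))) (a (l 16681000) (b (l 16637728) (l 16659976)))))) (a (c (c (a (l 16667960) (b (l 16716192) (l 16702072))) (a (a (l 16684760) (l 16661112))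 (l 16675280))) (b (l 16640824) (l 16648728))) (c (a (c (l 16683048) (c (l 16661872) (l 16668312))) (b (l 16673528) (a (l 16685560) (l 16633616)))) (a (c (l 16662520) (l 16694872)) (c (a (l 16664536) (b (l 16660776) (l 16646776))) (a (l 16663056) (l 16659136))))))) (b (c (b (l 16607504) (l 16641648)) (l 16634792)) (a (l 16685392) (b (l 16653032) (c (a (l 16742584) (l 16665512)) (l 16704584))))))), by decide +kernel⟩

def k20_pp_012 : ∃ t, chk3 f_pp_012 t 250 14 2 = true :=
  ⟨(b (c (c (l 16604664) (b (l 16562656) (a (c (l 16669824) (l 16629424)) (l 16641936)))) (c (c (a (b (l 16666632) (l 16639872)) (b (l 16690472) (l 16597840))) (b (l 16594176) (a (l 16688648) (l 16606984)))) (l 16569312))) (b (c (c (l 16609168) (a (c (l 16632664) (b (l 16613672) (l 16613504))) (l 16604616))) (c (a (c (b (l 16625400) (l 16626216)) (l 16633488)) (c (b (l 16581376) (l 16601808)) (b (l 16591664) (l 16612984)))) (l 16574016))) (b (c (c (l 16637880) (a (c (l 16638256) (l 16619184)) (l 16610560))) (c (a (c (l 16632936)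 (l 16662848)) (c (l 16565576) (l 16577696))) (l 16624368))) (a (c (c (b (l 16655568) (c (c (a (b (l 16671128) (l 16664136)) (b (l 16648600) (l 1))) (l 16652520)) (l 16666208))) (c (b (l 16643320) (l 16658232)) (b (l 16603408) (a (l 16643104) (l 16652232))))) (c (c (b (l 16617960) (a (l 16641344) (l 16667320))) (b (l 16669376) (l 16643496))) (l 16658592))) (b (c (c (c (c (b (a (l 16642784) (l 16616400)) (a (l 16633208) (l 1))) (l 16643728)) (l 16637248)) (l 16625360)) (c (c (a (l 16625856) (l 16613856)) (a (l 16621928) (l 16626648))) (l 16622664))) (l 1)))))), by decide +kernel⟩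

def k21_pp_012 : ∃ t, chk3 f_pp_012 t 251 14 2 = true :=
  ⟨(b (c (b (l 16633248) (l 16563384)) (a (c (b (l 16618320) (c (l 16608088) (l 16565904))) (c (a (l 16567256) (l 16545432)) (l 16582176))) (c (l 16583720) (a (c (l 16546200) (l 16534024)) (c (l 16549560) (l 16491488)))))) (b (c (b (l 16569288) (l 16569432)) (c (a (c (l 16569416) (b (l 16548744) (l 16568816))) (l 16540872)) (c (a (c (l 16533088) (l 16518904)) (b (l 16536760) (l 16535504))) (a (l 16584480) (c (a (l 16554136) (l 16528856)) (l 16504840)))))) (b (a (c (b (l 16589448) (c (c (c (b (l 16585088) (a (l 16618440) (l 1))) (l 16609664)) (l 16606232)) (l 16596504))) (c (c (l 16580832) (a (l 16564488) (b (l 16561632) (l 16576056)))) (c (a (l 240551267719) (b (l 16570512) (l 16585360))) (l 16556168)))) (b (c (c (a (l 16554896) (b (l 16559232) (l 1))) (l 16565184)) (c (l 16552520) (c (a (l 16550664) (l 16538760)) (a (l 16563320) (l 16524792))))) (l 1))) (l 1)))), by decide +kernel⟩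

def k22_pp_012 : ∃ t, chk3 f_pp_012 t 63 14 2 = true :=
  ⟨(a (b (c (b (l 16499320) (l 16406808)) (c (b (l 16494400) (l 16400368)) (a (a (b (l 16576752) (l 16502736)) (l 16520400)) (l 16432824)))) (b (a (c (b (l 16508008) (c (c (b (a (l 16526200) (a (l 16504792) (a (l 16496160) (l 258804662823)))) (a (a (l 16540832) (b (l 16524056) (l 16539104))) (c (l 228203085463) (l 16508352)))) (l 16523216)) (l 16478016))) (b (c (l 16499696) (a (c (l 16505936) (l 16503480)) (l 16476336))) (a (c (l 16519376) (c (l 16509632) (a (l 16511760) (l 16497560)))) (b (l 16484224) (l 16508712))))) (c (c (b (c (c (b (a (l 16465576) (l 16418048)) (a (b (l 16459376) (l 16467984)) (l 274373834087))) (b (l 16451376) (a (l 16462032) (l 16450592)))) (l 16454912)) (b (a (a (b (l 16437432) (l 1)) (l 1)) (l 1)) (l 1))) (b (b (l 16447992) (l 16452016)) (l 16495408))) (b (a (l 16454048) (l 16433648)) (l 16488832)))) (a (a (b (c (c (b (c (c (l 16537736) (l 16547176)) (l 16560064)) (l 1)) (l 16574208)) (c (l 16566240) (l 238403667943)))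 (l 1)) (l 1)) (l 1)))) (a (b (b (l 16462072) (b (l 16422256) (c (c (c (b (l 16370632) (a (l 16416840) (b (l 16399816) (l 1)))) (l 16410032)) (l 16407928)) (l 16403488)))) (a (b (c (a (b (b (b (l 16415744) (l 1)) (l 1)) (l 1)) (l 1)) (l 16368736)) (l 1)) (l 1))) (b (b (l 16395152) (c (c (b (c (b (l 16372408) (a (l 16376064) (l 16324928))) (l 16369504)) (a (a (b (l 344703776215) (l 1)) (l 1)) (l 1))) (l 363494246727)) (b (l 16362464) (l 16374312)))) (l 1)))), by decide +kernel⟩

def k23_pp_012 : ∃ t, chk3 f_pp_012 t 31 28 3 = true :=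
  ⟨(a (a (b (l 16521128) (l 16572144)) (c (b (l 16623944) (l 16532248)) (l 16534392))) (a (c (a (c (a (c (a (l 16521352) (a (l 16527296) (l 16516296))) (l 16556240)) (c (b (l 16564352) (l 16510048)) (b (l 16524696) (a (l 16524448) (l 16503096))))) (l 16517400)) (a (c (c (l 16506872) (l 16398784)) (c (b (l 16491344) (a (l 16489440) (l 16468752))) (l 16507912))) (c (l 16475480) (c (l 16407584) (b (l 16478632) (a (l 16454056) (l 16434128))))))) (b (l 16529856) (l 16475224))) (c (b (a (c (l 16455816) (l 16388888)) (l 16386720)) (a (a (c (l 16420096) (a (l 16378888) (l 16406184))) (b (l 16395744) (l 16382256))) (b (l 16356080) (l 16368072)))) (a (c (b (a (c (l 16444616) (l 16466312)) (c (l 16432704) (l 16389304))) (a (c (a (l 16417952) (b (l 16414224) (l 16367768))) (l 16412408)) (c (b (l 16390240) (l 16376336)) (b (l 16367552) (a (l 16376960) (l 336650697143)))))) (b (l 16447528) (l 16399192))) (c (b (l 16381864) (a (b (l 16359472) (l 16364904)) (l 16348888))) (b (a (c (a (l 16404640) (l 16367368)) (l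 16395336)) (c (l 16362432) (a (l 16370080) (l 16289480)))) (a (c (a (b (l 16362048) (l 16362504)) (c (l 16355120) (l 350609303815))) (l 16360008)) (b (c (l 16334112) (a (l 16314952) (c (l 16327056) (l 16326320)))) (l 1))))))))), by decide +kernel⟩

def k24_pp_012 : ∃ t, chk3 f_pp_012 t 31 29 3 = true :=
  ⟨(b (a (c (a (l 16634464) (b (l 16537568) (l 16538216))) (b (l 16522408) (l 16544992))) (b (a (c (a (c (c (a (a (l 16520776) (l 16497808)) (l 16469904)) (a (l 16513616) (a (l 16485288) (l 16462952)))) (l 16494656)) (c (a (a (l 16404856) (l 16435704)) (l 16425008)) (a (c (a (l 16450624) (c (l 16430848) (l 16435456))) (l 16445544)) (c (b (l 16411864) (l 16422616)) (a (l 16403048) (b (l 16403896) (l 1))))))) (a (l 16491504) (b (l 16428976) (l 16432864)))) (a (a (a (a (b (c (l 16403944) (l 16398296)) (l 1)) (l 1)) (l 1)) (l 1)) (l 1))) (a (c (a (c (a (c (a (l 16521968) (c (l 16499648) (l 16506992))) (l 16518232)) (c (b (l 16431352) (l 16497680)) (a (l 271152686631) (c (l 16481048) (l 16487408))))) (a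 (l 16516864) (l 16494816))) (a (a (c (l 16478864) (l 16483704)) (l 1)) (l 1))) (a (l 16484456) (l 16477912))) (l 1)))) (a (a (b (l 16669632) (a (l 16687680) (l 16682912))) (b (a (l 16643240) (c (a (l 16596728) (b (l 16560728) (l 1))) (l 270079112407))) (a (b (a (l 16667584) (l 16641496)) (l 16637504)) (l 1)))) (a (c (a (a (a (a (l 241088045271) (l 1)) (l 1)) (l 1)) (l 1)) (l 257194148103)) (l 1)))), by decide +kernel⟩

def k25_pp_012 : ∃ t, chk3 f_pp_012 t 31 15 1 = true :=
  ⟨(a (b (a (b (a (c (c (a (b (c (c (l 16681048) (l 16664496)) (l 16703296)) (c (c (a (a (b (l 16705472) (c (b (l 16707696) (l 1)) (l 16717896))) (b (l 16696224) (l 1))) (b (b (l 16730528) (a (l 190085732935) (l 178811463943))) (l 1))) (b (a (l 16719328) (c (l 16693784) (l 16730176))) (l 175053327223))) (l 177737640663))) (a (c (b (c (l 16720808) (l 16695472)) (b (b (c (a (l 16725240) (a (l 16718048) (l 1))) (l 16726000)) (l 1)) (l 1))) (b (l 16726224) (l 16737368))) (b (c (b (l 16704592) (c (c (b (l 16735272) (a (c (l 16742712)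 (l 16742480)) (l 16709992))) (l 16723792)) (l 16741984))) (c (c (l 199749392663) (l 16739344)) (l 16739248))) (l 1)))) (b (l 16673968) (b (l 16685848) (l 16737104)))) (b (c (l 16673064) (l 16672144)) (b (a (l 16679128) (l 16735792)) (l 16736144)))) (b (b (c (c (c (c (c (a (b (l 16712736) (l 16676736)) (b (a (l 16699472) (l 16658896)) (c (l 16684944) (l 16676848)))) (a (l 16691464) (l 16661256))) (a (a (l 16727224) (l 16664312)) (l 16674600))) (a (c (l 16674784) (l 16708184)) (c (a (l 16681848) (l 16670312)) (a (l 16682208) (l 16708560))))) (a (l 16751392) (a (l 16710136) (l 16682168)))) (a (l 16730128) (l 16706680))) (a (a (c (c (c (c (c (b (l 16686120) (l 1)) (l 16689328)) (l 16700048)) (c (l 16694736) (l 16748064))) (l 16747880)) (l 16726456)) (l 1)) (l 1))) (l 1))) (l 1)) (l 1)) (l 1)) (l 1)), by decide +kernel⟩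

theorem s26_pp_012 : ∃ t, chk3 f_pp_012 t 31 14 3 = true := ex3_b k23_pp_012 k24_pp_012

theorem s27_pp_012 : ∃ t, chk3 f_pp_012 t 125 14 2 = true := ex3_a k20_pp_012 k21_pp_012

theorem s28_pp_012 : ∃ t, chk3 f_pp_012 t 62 14 2 = true := ex3_a k19_pp_012 s27_pp_012

theorem s29_pp_012 : ∃ t, chk3 f_pp_012 t 31 14 2 = true := ex3_a s28_pp_012 k22_pp_012

theorem s30_pp_012 : ∃ t, chk3 f_pp_012 t 31 14 1 = true := ex3_c s29_pp_012 s26_pp_012

theorem s31_pp_012 : ∃ t, chk3 f_pp_012 t 31 7 1 = true := ex3_b s30_pp_012 k25_pp_012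

theorem s32_pp_012 : ∃ t, chk3 f_pp_012 t 123 122 1 = true := ex3_a k15_pp_012 k16_pp_012

theorem s33_pp_012 : ∃ t, chk3 f_pp_012 t 123 61 1 = true := ex3_b s32_pp_012 k17_pp_012

theorem s34_pp_012 : ∃ t, chk3 f_pp_012 t 123 30 1 = true := ex3_b k14_pp_012 s33_pp_012

theorem s35_pp_012 : ∃ t, chk3 f_pp_012 t 123 15 1 = true := ex3_b s34_pp_012 k18_pp_012

theorem s36_pp_012 : ∃ t, chk3 f_pp_012 t 61 15 1 = true := ex3_a k13_pp_012 s35_pp_012

theorem s37_pp_012 : ∃ t, chk3 f_pp_012 t 30 15 1 = true := ex3_a k12_pp_012 s36_pp_012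

theorem s38_pp_012 : ∃ t, chk3 f_pp_012 t 30 14 1 = true := ex3_c k10_pp_012 k11_pp_012

theorem s39_pp_012 : ∃ t, chk3 f_pp_012 t 30 7 1 = true := ex3_b s38_pp_012 s37_pp_012

theorem s40_pp_012 : ∃ t, chk3 f_pp_012 t 15 7 1 = true := ex3_a s39_pp_012 s31_pp_012

theorem s41_pp_012 : ∃ t, chk3 f_pp_012 t 31 13 1 = true := ex3_a k8_pp_012 k9_pp_012

theorem s42_pp_012 : ∃ t, chk3 f_pp_012 t 31 6 1 = true := ex3_b k7_pp_012 s41_pp_012

theorem s43_pp_012 : ∃ t, chk3 f_pp_012 t 15 6 1 = true := ex3_a k6_pp_012 s42_pp_012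

theorem s44_pp_012 : ∃ t, chk3 f_pp_012 t 15 3 1 = true := ex3_b s43_pp_012 s40_pp_012

theorem s45_pp_012 : ∃ t, chk3 f_pp_012 t 14 3 1 = true := ex3_b k4_pp_012 k5_pp_012

theorem s46_pp_012 : ∃ t, chk3 f_pp_012 t 7 3 1 = true := ex3_a s45_pp_012 s44_pp_012

theorem s47_pp_012 : ∃ t, chk3 f_pp_012 t 7 1 1 = true := ex3_b k3_pp_012 s46_pp_012

theorem s48_pp_012 : ∃ t, chk3 f_pp_012 t 6 1 1 = true := ex3_b k1_pp_012 k2_pp_012

theorem s49_pp_012 : ∃ t, chk3 f_pp_012 t 3 1 1 = true := ex3_a s48_pp_012 s47_pp_012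

theorem s50_pp_012 : ∃ t, chk3 f_pp_012 t 1 1 1 = true := ex3_a k0_pp_012 s49_pp_012

theorem c_pp_012 : CertNX 67108864 469762048 0 536870912 1046898278 26843546 3 false true true .pnp 0 1 2
    ndN1q0 ndN0q2 pcN1 Cut.none Ext.none :=
  certNX2 (fam := false) (s1 := true) (s2 := true) (a := 0) (b := 1) (c := 2) (cn := .pnp) (n1 := ndN1q0) (n2 := ndN0q2) (pc := pcN1) (cut := Cut.none) (xt := Ext.none) (P1 := 67108864) (W1 := 469762048) (P2 := 0) (W2 := 536870912) (P3 := 1046898278) (W3 := 26843546) (N0 := 3)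
    rfl (fun _ => rfl) s50_pp_012

end Pool.Agent.Strip051.G.IE1.Tab.C.NB10

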