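import Pool.Agent.Strip051.G.IE1.Tab

/-! # Certificates N58 (generated) -/

set_option linter.all false
set_option maxRecDepth 100000

namespace Pool.Agent.Strip051.G.IE1.Tab.C.NB10

open Pool.Agent.Strip051.PB Pool.Agent.Strip051.PB.T
open Pool.Agent.Strip051.G.IE1.Tab

noncomputable def f_pp_022 : ℕ → ℕ → ℕ → ℕ → Bool := onCell 67108864 469762048 0 536870912 1046898278 26843546
    (rowNX 3 0 false true true .pp 0 2 2 (qsf 67108864 469762048 0 536870912 2) ndN1q0 ndN0q2 pcN2 Cut.none Ext.none)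

def k0_pp_022 : ∃ t, chk3 f_pp_022 t 2 2 1 = true :=
  ⟨(a (a (b (a (b (a (c (a (l 16222328) (b (l 16358560) (l 16357704))) (b (l 16254872) (l 16210752))) (c (c (l 16359656) (l 16377496)) (l 16246840))) (c (a (a (b (l 16250368) (l 16233072)) (b (l 16354368) (l 16349880))) (b (l 16380520) (l 16408672))) (a (b (a (l 16239656) (l 16347280)) (l 16150544)) (l 16241632)))) (c (b (a (c (l 16130584) (l 16122248)) (l 15977312)) (a (b (l 16173744) (l 16197112)) (l 16039008))) (b (a (b (l 16095712) (l 16123808)) (l 15954392)) (a (b (l 16158384) (l 16204216)) (l 16061608))))) (a (b (c (a (b (a (l 16216800) (l 16340648)) (l 16150352)) (b (l 16473736) (l 16431440))) (a (b (l 16177248) (l 16218536)) (l 16334584))) (c (a (b (l 16030200) (a (l 16111576) (l 16215592))) (b (l 16338456) (l 16285744))) (a (b (l 16159360) (l 16097520)) (b (l 16395544) (l 16339288))))) (c (b (a (a (l 16192904) (b (l 16232232) (l 16317280))) (b (l 16190520) (l 16289320))) (a (b (a (l 16503928) (l 16386768)) (a (l 16479064)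 (l 16488560))) (b (l 16414752) (l 16572776)))) (b (a (b (l 16266304) (l 16329016)) (l 16161472)) (b (a (l 16377048) (l 16406736)) (a (l 16436464) (l 16570088))))))) (a (b (b (c (b (l 15780696) (l 15852560)) (b (l 15750320) (l 15824696))) (c (b (l 15930776) (l 16020144)) (b (l 15905632) (l 15998088)))) (b (c (b (l 16125712) (l 16252784)) (b (l 16107280) (l 16238696))) (b (c (l 16344080) (l 16377176)) (c (l 106333403943) (l 16487032))))) (b (b (c (b (l 15399976) (l 15446168)) (b (l 15463912) (l 15576832))) (c (b (l 113847630791) (l 122437818935)) (b (l 15696320) (l 15764584)))) (b (b (c (l 478383562023) (l 15891816)) (l 1)) (l 1))))) (l 1)), by decide +kernel⟩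

def k1_pp_022 : ∃ t, chk3 f_pp_022 t 8 6 1 = true :=
  ⟨(a (b (c (a (b (a (l 16028256) (l 16124752)) (a (l 15910648) (l 15999712))) (b (c (l 16271400) (l 16264472)) (c (l 16137056) (l 16127200)))) (b (a (a (l 16006104) (l 16105888)) (l 16232872)) (a (a (l 15883328) (l 15975368)) (l 16070168)))) (b (c (a (a (b (l 15819808) (l 15815944)) (b (l 15903376) (l 15895920))) (c (b (l 16033872) (l 16021440)) (l 15931936))) (a (b (a (l 15788520) (l 15874864)) (l 15817672)) (b (l 16003344) (l 15989776)))) (b (c (a (a (l 15807912) (l 15884352)) (l 15998456)) (a (l 15807072) (l 15972040))) (b (a (c (a (b (l 15799024) (b (l 15795672) (b (l 15793880) (c (a (c (l 15766696) (l 15779304)) (l 15819240)) (a (l 15766648) (l 15802992)))))) (l 15870600)) (b (l 15796440) (a (a (c (l 15750904) (l 15733672)) (b (l 15781312) (c (l 15787128) (l 15770424)))) (l 15836808)))) (c (l 15980928) (l 15953552))) (a (c (a (a (c (c (l 15801184) (b (l 15786192) (l 15800320))) (c (b (l 15777872) (l 15792104)) (l 15755464)))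 (c (l 15834032) (c (l 15822184) (l 15814104)))) (c (c (l 15892072) (l 15884536)) (l 15873048))) (a (c (a (c (l 15768232) (l 15760152)) (c (l 15806016) (b (l 15789528) (l 15806104)))) (c (a (l 15752048) (l 15706032)) (a (l 15743800) (l 15781864)))) (c (b (l 15806240) (l 15867280)) (a (c (b (l 15817952) (l 15836560)) (b (l 15809944) (l 15807824))) (b (l 15850528) (l 1)))))) (l 1)))))) (a (b (c (b (c (l 16346328) (l 16363448)) (c (l 132102473607) (l 16191424))) (b (c (l 16359520) (l 16376496)) (c (l 16205200) (l 16239832)))) (b (c (c (b (l 16085368) (l 16171272)) (b (l 16180728) (l 16161200))) (b (a (l 16130432) (l 16201816)) (l 255045791287))) (l 1))) (b (b (c (l 16460112) (l 16474712)) (c (l 215854552695) (l 16305264))) (l 1)))), by decide +kernel⟩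

def k2_pp_022 : ∃ t, chk3 f_pp_022 t 9 6 1 = true :=
  ⟨(b (b (a (c (l 361346906695) (l 328060896183)) (l 1)) (l 1)) (l 1)), by decide +kernel⟩

def k3_pp_022 : ∃ t, chk3 f_pp_022 t 4 7 1 = true :=
  ⟨(b (b (a (a (a (b (a (c (c (c (b (l 15854392) (l 15899104)) (b (l 15846544) (l 15891616))) (b (c (l 15838632) (l 15830720)) (l 15880272))) (c (b (a (c (l 15801928) (b (l 15784680) (l 15803920))) (l 15839576)) (c (l 15868832) (l 15861168))) (b (c (a (b (l 15777232) (l 15796440)) (b (l 15817352) (l 15838968))) (a (l 15779200) (b (c (l 15811616) (l 15807832)) (a (l 15820584) (l 15841960))))) (a (c (b (l 15818232) (l 15842936)) (b (c (l 15812728) (l 15809136)) (a (l 15823512) (l 15847168)))) (l 575020311655))))) (b (a (c (c (l 15910744) (l 15895944)) (c (l 15880904) (l 599716354055))) (l 1)) (l 1))) (b (a (a (c (c (l 15926224) (l 15911664)) (c (l 15896888) (l 558914207703))) (l 1)) (l 1)) (l 1))) (l 1)) (l 1)) (l 1)) (l 1)) (l 1)), by decide +kernel⟩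

def k4_pp_022 : ∃ t, chk3 f_pp_022 t 5 3 1 = true :=
  ⟨(l 1), by decide +kernel⟩

def k5_pp_022 : ∃ t, chk3 f_pp_022 t 3 1 1 = true :=
  ⟨(l 1), by decide +kernel⟩

theorem s6_pp_022 : ∃ t, chk3 f_pp_022 t 4 6 1 = true := ex3_a k1_pp_022 k2_pp_022

theorem s7_pp_022 : ∃ t, chk3 f_pp_022 t 4 3 1 = true := ex3_b s6_pp_022 k3_pp_022

theorem s8_pp_022 : ∃ t, chk3 f_pp_022 t 2 3 1 = true := ex3_a s7_pp_022 k4_pp_022

theorem s9_pp_022 : ∃ t, chk3 f_pp_022 t 2 1 1 = true := ex3_b k0_pp_022 s8_pp_022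

theorem s10_pp_022 : ∃ t, chk3 f_pp_022 t 1 1 1 = true := ex3_a s9_pp_022 k5_pp_022

theorem c_pp_022 : CertNX 67108864 469762048 0 536870912 1046898278 26843546 3 false true true .pp 0 2 2
    ndN1q0 ndN0q2 pcN2 Cut.none Ext.none :=
  certNX0 (fam := false) (s1 := true) (s2 := true) (a := 0) (b := 2) (c := 2) (cn := .pp) (n1 := ndN1q0) (n2 := ndN0q2) (pc := pcN2) (cut := Cut.none) (xt := Ext.none) (P1 := 67108864) (W1 := 469762048) (P2 := 0) (W2 := 536870912) (P3 := 1046898278) (W3 := 26843546) (N0 := 3)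
    rfl s10_pp_022

noncomputable def f_pp_101 : ℕ → ℕ → ℕ → ℕ → Bool := onCell 536870912 536870912 536870912 536870912 1046898278 26843546
    (rowNX 3 0 false true true .npn 1 0 1 (qsf 536870912 536870912 536870912 536870912 0) ndN1q1 ndN0q1 pcN0 Cut.none Ext.none)

def k0_pp_101 : ∃ t, chk3 f_pp_101 t 1 1 1 = true :=
  ⟨(l 3), by decide +kernel⟩

theorem c_pp_101 : CertNX 536870912 536870912 536870912 536870912 1046898278 26843546 3 false true true .npn 1 0 1
    ndN1q1 ndN0q1 pcN0 Cut.none Ext.none :=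
  certNX0 (fam := false) (s1 := true) (s2 := true) (a := 1) (b := 0) (c := 1) (cn := .npn) (n1 := ndN1q1) (n2 := ndN0q1) (pc := pcN0) (cut := Cut.none) (xt := Ext.none) (P1 := 536870912) (W1 := 536870912) (P2 := 536870912) (W2 := 536870912) (P3 := 1046898278) (W3 := 26843546) (N0 := 3)
    rfl k0_pp_101

noncomputable def f_pp_102 : ℕ → ℕ → ℕ → ℕ → Bool := onCell 0 536870912 0 536870912 1046898278 26843546
    (rowNX 3 2 false true true .npp 1 0 2 (qsf 536870912 536870912 0 536870912 0) ndN1q1 ndN0q2 pcN0 Cut.none Ext.none)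

def k0_pp_102 : ∃ t, chk3 f_pp_102 t 1 1 1 = true :=
  ⟨(b (a (l 3) (a (l 3) (b (b (a (l 3) (a (b (c (c (l 233706618887) (l 235854102535)) (l 232632877063)) (l 3)) (c (c (a (l 221895458823) (l 197199396871)) (l 213842395143)) (b (l 174113947655) (l 243370295303))))) (l 3)) (l 3)))) (l 3)), by decide +kernel⟩

theorem c_pp_102 : CertNX 536870912 536870912 0 536870912 1046898278 26843546 3 false true true .npp 1 0 2
    ndN1q1 ndN0q2 pcN0 Cut.none Ext.none :=
  certNX2 (fam := false) (s1 := true) (s2 := true) (a := 1) (b := 0) (c := 2) (cn := .npp) (n1 := ndN1q1) (n2 := ndN0q2) (pc := pcN0) (cut := Cut.none) (xt := Ext.none) (P1 := 536870912) (W1 := 536870912) (P2 := 0) (W2 := 536870912) (P3 := 1046898278) (W3 := 26843546) (N0 := 3)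
    rfl (fun _ => rfl) k0_pp_102

noncomputable def f_pp_112 : ℕ → ℕ → ℕ → ℕ → Bool := onCell 536870912 536870912 0 536870912 1046898278 26843546
    (rowNX 3 0 false true true .dn 1 1 2 (qsf 536870912 536870912 0 536870912 1) ndN1q1 ndN0q2 pcN1 Cut.none Ext.none)

def k0_pp_112 : ∃ t, chk3 f_pp_112 t 1 1 1 = true :=
  ⟨(a (b (b (a (a (b (c (c (a (l 16777216) (l 16777216)) (a (l 16777216) (l 16777216))) (c (a (l 16777216) (l 16777216)) (a (l 16777216) (l 16777216)))) (c (b (c (l 16777216) (l 16777216)) (c (l 16777216) (l 16777216))) (b (c (l 16777216) (l 16777216)) (c (l 16777216) (l 16777216))))) (c (b (a (c (l 16777216) (l 16777216)) (c (l 16777216) (l 16777216))) (b (a (c (l 16777216) (l 16777216)) (c (l 193978171399) (l 193441300487))) (a (c (l 211694911495) (l 214379266055)) (l 276119420935)))) (b (a (c (l 16777216) (l 16777216)) (c (l 16777216) (l 16777216))) (a (b (l 16777216) (c (l 214916136967) (l 16777216))) (c (l 232632877063) (l 231022264327)))))) (a (a (b (c (c (b (l 16777216)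 (l 16777216)) (l 162302787591)) (c (l 161229045767) (l 16777216))) (a (b (c (l 254107713543) (l 254644584455)) (l 3)) (l 3))) (b (l 1) (l 1))) (l 1))) (b (a (a (a (c (b (c (l 16777216) (l 16777216)) (l 256792068103)) (b (l 16777216) (l 244980908039))) (b (c (c (l 233706618887) (l 232096006151)) (l 228337909767)) (l 3))) (l 3)) (l 3)) (l 3))) (l 3)) (l 1)), by decide +kernel⟩

theorem c_pp_112 : CertNX 536870912 536870912 0 536870912 1046898278 26843546 3 false true true .dn 1 1 2
    ndN1q1 ndN0q2 pcN1 Cut.none Ext.none :=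
  certNX0 (fam := false) (s1 := true) (s2 := true) (a := 1) (b := 1) (c := 2) (cn := .dn) (n1 := ndN1q1) (n2 := ndN0q2) (pc := pcN1) (cut := Cut.none) (xt := Ext.none) (P1 := 536870912) (W1 := 536870912) (P2 := 0) (W2 := 536870912) (P3 := 1046898278) (W3 := 26843546) (N0 := 3)
    rfl k0_pp_112

noncomputable def f_pp_202_a : ℕ → ℕ → ℕ → ℕ → Bool := onCell 0 420477299 0 536870912 1046898278 26843546
    (rowNX 3 0 false true true .pp 2 0 2 (qsf 0 420477299 0 536870912 0) ndN1q2a ndN0q2 pcN0 Cut.none Ext.none)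

def k0_pp_202_a : ∃ t, chk3 f_pp_202_a t 1 1 1 = true :=
  ⟨(l 3), by decide +kernel⟩

theorem c_pp_202_a : CertNX 0 420477299 0 536870912 1046898278 26843546 3 false true true .pp 2 0 2
    ndN1q2a ndN0q2 pcN0 Cut.none Ext.none :=
  certNX0 (fam := false) (s1 := true) (s2 := true) (a := 2) (b := 0) (c := 2) (cn := .pp) (n1 := ndN1q2a) (n2 := ndN0q2) (pc := pcN0) (cut := Cut.none) (xt := Ext.none) (P1 := 0) (W1 := 420477299) (P2 := 0) (W2 := 536870912) (P3 := 1046898278) (W3 := 26843546) (N0 := 3)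
    rfl k0_pp_202_a

noncomputable def f_pp_202_b : ℕ → ℕ → ℕ → ℕ → Bool := onCell 1239849684 370763052 0 536870912 1046898278 26843546
    (rowNX 3 0 false true true .pp 2 0 2 (qsf 1239849684 370763052 0 536870912 0) ndN1q2b ndN0q2 pcN0 Cut.none Ext.none)

def k0_pp_202_b : ∃ t, chk3 f_pp_202_b t 1 1 1 = true :=
  ⟨(l 3), by decide +kernel⟩

theorem c_pp_202_b : CertNX 1239849684 370763052 0 536870912 1046898278 26843546 3 false true true .pp 2 0 2
    ndN1q2b ndN0q2 pcN0 Cut.none Ext.none :=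
  certNX0 (fam := false) (s1 := true) (s2 := true) (a := 2) (b := 0) (c := 2) (cn := .pp) (n1 := ndN1q2b) (n2 := ndN0q2) (pc := pcN0) (cut := Cut.none) (xt := Ext.none) (P1 := 1239849684) (W1 := 370763052) (P2 := 0) (W2 := 536870912) (P3 := 1046898278) (W3 := 26843546) (N0 := 3)
    rfl k0_pp_202_b

noncomputable def f_pm_001 : ℕ → ℕ → ℕ → ℕ → Bool := onCell 67108864 469762048 536870912 536870912 1046898278 26843546
    (rowNX 3 0 false true false .up 0 0 1 (qsf 67108864 469762048 536870912 536870912 0) ndN1q0 ndN0q1 pcN0 Cut.none Ext.none)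

def k0_pm_001 : ∃ t, chk3 f_pm_001 t 1 1 1 = true :=
  ⟨(b (l 4) (b (a (l 4) (b (a (l 4) (l 4)) (b (a (l 4) (c (a (l 16777216) (l 16777216)) (a (l 16777216) (l 16777216)))) (a (a (l 2) (c (l 173643975927) (l 137136773671))) (a (c (l 16759864) (l 16759256)) (c (l 16759864) (l 16759256))))))) (a (l 2) (b (b (a (a (l 2) (c (l 16461024) (l 16452104))) (c (a (l 16523936) (l 16523936)) (l 16431128))) (a (l 2) (c (l 16144088) (l 16186912)))) (a (l 2) (a (b (b (l 15888384) (l 2)) (l 2)) (b (b (l 15888384) (l 15607488)) (b (c (c (l 15544984) (l 15525640)) (l 15487024)) (c (l 15447504) (b (l 15407176) (l 15376032))))))))))), by decide +kernel⟩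

theorem c_pm_001 : CertNX 67108864 469762048 536870912 536870912 1046898278 26843546 3 false true false .up 0 0 1
    ndN1q0 ndN0q1 pcN0 Cut.none Ext.none :=
  certNX0 (fam := false) (s1 := true) (s2 := false) (a := 0) (b := 0) (c := 1) (cn := .up) (n1 := ndN1q0) (n2 := ndN0q1) (pc := pcN0) (cut := Cut.none) (xt := Ext.none) (P1 := 67108864) (W1 := 469762048) (P2 := 536870912) (W2 := 536870912) (P3 := 1046898278) (W3 := 26843546) (N0 := 3)
    rfl k0_pm_001

noncomputable def f_pm_011 : ℕ → ℕ → ℕ → ℕ → Bool := onCell 536870912 536870912 536870912 536870912 1046898278 26843546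
    (rowNX 3 2 false true false .pnn 0 1 1 (qsf 67108864 469762048 536870912 536870912 1) ndN1q0 ndN0q1 pcN1 Cut.none Ext.none)

def k0_pm_011 : ∃ t, chk3 f_pm_011 t 2 2 1 = true :=
  ⟨(a (l 4) (b (l 1) (l 4))), by decide +kernel⟩

def k1_pm_011 : ∃ t, chk3 f_pm_011 t 2 6 1 = true :=
  ⟨(a (b (l 4) (a (b (l 4) (a (l 4) (l 4))) (l 4))) (l 4)), by decide +kernel⟩

def k2_pm_011 : ∃ t, chk3 f_pm_011 t 4 7 1 = true :=
  ⟨(b (a (b (c (l 16377136) (l 16431128)) (c (l 16207000) (l 16186912))) (b (b (l 4) (c (l 164516560407) (l 16435696))) (c (l 68952860823) (l 16144968)))) (b (c (b (a (l 15903792) (l 15903792)) (a (l 15627536) (l 15627536))) (a (l 15737344) (l 15737344))) (b (c (c (b (l 15584616) (l 15531080)) (b (l 15540440) (l 15512144))) (l 15487024)) (c (l 15447504) (b (c (l 15432072) (l 15411984)) (c (l 15392376) (l 15365632))))))), by decide +kernel⟩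

def k3_pm_011 : ∃ t, chk3 f_pm_011 t 5 7 1 = true :=
  ⟨(b (b (l 4) (a (a (a (c (l 16049832) (l 16135080)) (c (l 97943862967) (l 107607592215))) (b (a (a (l 175253956647) (l 4)) (l 4)) (a (c (l 16334872) (l 16321304)) (c (l 16403416) (l 16437608))))) (b (l 4) (a (a (c (b (l 16571880) (l 16559320)) (l 101702629751)) (b (l 4) (c (a (l 16525264) (l 16487096)) (l 210687462215)))) (l 4))))) (b (a (b (a (a (l 15894832) (l 15953472)) (a (l 16037328) (l 16077424))) (a (b (l 15697192) (l 15583440)) (b (l 15806648) (c (l 15674200) (l 15636160))))) (a (b (a (l 16055768) (b (l 16391912) (l 16273752))) (b (l 15860688) (c (l 15801592) (l 15769096)))) (b (a (b (c (a (l 16517792) (l 16511408)) (l 124251249159)) (b (l 16405168) (l 16301288))) (b (b (l 4) (c (l 16534832) (l 16530096))) (c (l 16532920) (l 16529304)))) (b (a (l 16138176) (a (l 16232792) (l 16299760))) (c (a (l 15946184) (b (l 16106600) (l 16010472))) (a (l 15919768) (l 16032416))))))) (b (a (c (b (a (l 15528552) (c (l 15619272) (l 15575904)))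 (c (l 15534696) (a (l 15512408) (l 15517400)))) (a (l 15489496) (l 15507576))) (b (c (a (c (b (l 15731392) (l 15668192)) (l 15653808)) (c (b (c (l 15893672) (l 15858208)) (l 15600728)) (l 15793952))) (a (l 15624760) (l 15769328))) (c (a (c (b (l 15580376) (l 15523272)) (b (l 15562296) (l 15515272))) (c (b (l 15670128) (l 15556640)) (b (l 15653984) (b (l 15578032) (l 15529656))))) (a (l 15490352) (a (l 15527240) (l 15580016)))))) (b (a (c (l 15466944) (c (l 15432072) (l 15411984))) (c (a (l 15466944) (b (l 15489704) (l 15453888))) (b (a (l 15438720) (l 15447608)) (c (l 15422264) (l 15401280))))) (c (l 15424288) (c (l 15392376) (a (l 15365632) (b (l 15371568) (l 15355864))))))))), by decide +kernel⟩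

def k4_pm_011 : ∃ t, chk3 f_pm_011 t 3 2 1 = true :=
  ⟨(l 1), by decide +kernel⟩

def k5_pm_011 : ∃ t, chk3 f_pm_011 t 6 6 1 = true :=
  ⟨(l 4), by decide +kernel⟩

def k6_pm_011 : ∃ t, chk3 f_pm_011 t 12 14 1 = true :=
  ⟨(l 4), by decide +kernel⟩

def k7_pm_011 : ∃ t, chk3 f_pm_011 t 12 30 1 = true :=
  ⟨(a (b (b (l 4) (a (b (c (l 16539184) (l 16578216)) (c (l 16541616) (l 16537864))) (b (l 4) (a (c (l 16600872) (l 16599008)) (a (l 16618352) (c (l 16626872) (l 16625368))))))) (b (a (l 16141416) (a (l 16317440) (a (l 16350848) (a (l 16369848) (l 16237416))))) (a (c (l 16094248) (l 16073408)) (c (a (l 16109120) (a (l 16123248) (l 16011632))) (l 15992872))))) (b (l 4) (b (b (a (a (c (l 16542688) (l 16560048)) (c (l 16590568) (l 16587648))) (l 4)) (a (a (l 16391800) (l 16401920)) (a (c (l 16472336) (l 16488360)) (c (l 16477432) (l 16515096))))) (c (a (a (l 16081376) (l 16156320)) (a (l 16218384) (b (l 16487480) (l 16422736)))) (a (l 16010368) (a (l 16375720) (l 16425760))))))), by decide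 +kernel⟩

def k8_pm_011 : ∃ t, chk3 f_pm_011 t 12 62 1 = true :=
  ⟨(a (b (c (a (c (b (l 15880024) (c (l 15901960) (l 15879400))) (l 15892416)) (c (b (c (a (l 15983264) (l 15985224)) (l 15948432)) (c (l 15877264) (l 15791448))) (l 15877232))) (a (l 15870656) (l 15854688))) (c (c (a (b (l 15759968) (l 15628656)) (a (l 15679088) (l 15606520))) (a (b (l 15745656) (l 15559984)) (b (c (l 15721184) (l 15691816)) (c (l 15600760) (l 15583376))))) (a (l 15634528) (l 15604608)))) (c (b (a (c (a (b (l 15935024) (l 15821992)) (b (l 16033096) (l 15915480))) (l 15841088)) (c (b (c (b (l 16327856) (l 16290288)) (l 16292280)) (c (l 16175808) (a (l 16202216) (l 16318656)))) (a (l 16213600) (l 16321776)))) (a (a (c (l 15744944) (b (l 15797168) (l 15673432))) (c (l 15884560) (b (l 15952304) (l 15803936)))) (a (c (l 15996456) (b (l 16099712) (l 15928304))) (c (l 16121424) (b (l 16196208) (l 16045464)))))) (a (b (l 15906832) (l 15586888)) (b (l 16090024) (a (l 16021096) (l 16174280)))))), by decide +kernel⟩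

def k9_pm_011 : ∃ t, chk3 f_pm_011 t 12 63 1 = true :=
  ⟨(a (c (b (a (b (b (l 15515472) (l 15481904)) (l 15453888)) (b (b (l 15489112) (a (l 15462008) (l 15401232))) (a (l 15441712) (l 15382216)))) (a (l 15424288) (a (l 15423744) (l 15398672)))) (c (b (b (a (l 15413128) (a (l 15415744) (a (l 15414312) (l 15393872)))) (a (l 15422264) (c (l 15392776) (a (l 15412656) (l 15350944))))) (a (l 15392376) (a (l 15391816) (l 15365944)))) (b (a (l 15432600) (b (l 15314496) (l 15357432))) (b (a (l 15371568) (a (l 15370816) (c (l 15347472) (l 15336752)))) (c (l 15360648) (b (l 15349800) (l 15344696))))))) (a (c (b (b (c (l 15634400) (l 15627528)) (b (l 15556936) (l 15548608))) (l 15568240)) (b (b (c (l 15485992) (l 15583360)) (c (c (l 15544720) (b (l 15534096) (l 15529168))) (l 15513264))) (c (l 15540848) (b (l 15505608) (l 15336328))))) (c (b (b (c (l 15997920) (l 15956456)) (b (l 15932184) (l 15912936))) (l 15905344)) (b (b (c (l 15759464) (l 15969240)) (c (c (l 15709528) (b (l 15922728) (l 15906512)))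 (l 15897240))) (c (l 15888320) (b (l 15785800) (c (l 15875808) (l 15867456)))))))), by decide +kernel⟩

def k10_pm_011 : ∃ t, chk3 f_pm_011 t 13 14 1 = true :=
  ⟨(l 4), by decide +kernel⟩

def k11_pm_011 : ∃ t, chk3 f_pm_011 t 13 30 1 = true :=
  ⟨(b (l 4) (b (a (l 4) (l 4)) (a (a (a (b (c (l 16495376) (l 16511304)) (c (l 16447808) (l 16482392))) (c (b (l 16555464) (l 16530680)) (b (l 16594456) (l 16568288)))) (c (b (a (l 16633984) (l 4)) (a (l 16508568) (c (l 16488456) (l 16549664)))) (a (l 104924202951) (l 117808979207)))) (a (a (a (c (b (l 4) (l 16465672)) (l 16515128)) (l 4)) (l 4)) (l 4))))), by decide +kernel⟩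

def k12_pm_011 : ∃ t, chk3 f_pm_011 t 26 31 1 = true :=
  ⟨(b (c (a (b (c (a (b (c (l 16410512) (l 16443360)) (c (l 16440408) (l 16401976))) (b (c (l 16482224) (l 16536912)) (c (l 16544872) (l 16465480)))) (a (l 16416976) (l 16498072))) (c (a (l 16237192) (a (l 16397664) (l 16509744))) (a (b (l 16282280) (l 16154184)) (b (c (l 16474128) (l 16473240)) (c (l 16474176) (l 16465376)))))) (b (c (b (c (b (l 16431392) (l 16408456)) (l 16456816)) (c (l 16371720) (c (l 16356224) (l 16390272)))) (a (l 16601224) (l 16485840))) (c (a (l 16452288) (l 16342832)) (b (c (b (l 16419592) (l 16337088)) (l 16420688)) (c (l 16322896) (b (l 16312160) (l 16318800))))))) (a (a (b (l 16409928) (l 16317712)) (b (l 16514840) (l 16415152))) (b (a (l 16599680) (l 16502192)) (a (l 16560936) (l 16423736))))) (c (a (b (a (b (l 16220168) (l 16206608)) (b (c (l 16422248) (l 16431064)) (l 16375400))) (l 16180152)) (b (b (c (l 16344160) (l 16269848)) (a (l 16546352) (l 16379656))) (a (l 16546880) (l 16295160)))) (c (b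 (a (b (a (l 16237560) (c (l 16435184) (l 16421888))) (a (c (l 16207176) (l 16141744)) (c (l 16380600) (b (l 16412144) (l 16398960))))) (b (b (l 16270184) (c (l 16275952) (l 16410688))) (c (l 16221544) (b (l 16286528) (l 16230928))))) (a (a (l 16162240) (l 16330432)) (b (b (l 16251408) (l 16413592)) (l 16435936)))) (b (a (a (l 16212960) (l 16360392)) (a (l 16550312) (l 16379784))) (a (b (b (l 16231600) (l 16083472)) (c (l 16237864) (l 16065288))) (b (b (l 16204920) (c (l 16284592) (l 16428968))) (c (l 16390968) (b (l 16342320) (l 16335240))))))))), by decide +kernel⟩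

def k13_pm_011 : ∃ t, chk3 f_pm_011 t 27 62 1 = true :=
  ⟨(b (a (c (a (c (b (c (a (l 16390080) (a (l 16367952) (b (l 16441056) (l 16400400)))) (a (l 16471480) (l 16379304))) (c (a (l 16400416) (l 16277616)) (a (l 16408968) (a (l 16378016) (l 16340768))))) (a (l 16446128) (a (l 16419192) (l 16404112)))) (c (b (c (b (l 16405584) (l 16370824)) (l 16402664)) (c (l 16328216) (l 16231472))) (l 16331912))) (a (a (l 16439576) (l 16340784)) (l 16364976))) (a (c (c (b (c (b (l 4) (l 16273608)) (l 16345856)) (c (l 16281928) (b (l 16311072) (l 16274176)))) (l 107607940823)) (l 16289896)) (b (l 4) (c (c (c (b (a (l 16247344) (l 16180664)) (l 16218160)) (b (l 223571960215) (l 16158968))) (l 107070974983)) (l 16237888))))) (c (a (c (a (a (l 16352776) (a (l 16307880) (l 16285872))) (b (l 16228504) (l 16243088))) (a (b (c (b (l 16295336) (l 16195480)) (l 16349584)) (c (l 16242152) (a (l 16317784) (l 16212512)))) (b (c (l 16280992) (l 16292440)) (c (l 16223224) (l 16224376))))) (c (b (c (l 16230600)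 (b (l 16221944) (l 16204816))) (l 16194472)) (b (c (b (l 16238528) (l 16162768)) (l 16230904)) (c (l 16173320) (b (l 16185888) (l 16159544)))))) (a (a (a (l 16345024) (l 16286280)) (l 16254528)) (b (l 16220368) (l 16174600))))), by decide +kernel⟩

def k14_pm_011 : ∃ t, chk3 f_pm_011 t 27 63 1 = true :=
  ⟨(b (c (a (a (b (c (l 16259632) (l 16159328)) (l 16201288)) (c (l 16168280) (l 16151152))) (b (c (l 16159528) (l 16140400)) (l 16107800))) (a (c (a (b (c (a (l 16270856) (l 16173816)) (l 16236824)) (c (l 16183528) (a (l 16223080) (l 16133800)))) (b (l 16166416) (c (l 16113432) (l 16107408)))) (a (l 16203536) (l 16133856))) (c (b (c (b (l 16138648) (l 16113632)) (l 16131416)) (c (l 16087072) (b (l 16090720) (l 16067056)))) (l 16100552)))) (a (a (c (a (l 16242688) (a (l 16169480) (b (l 16105672) (l 16163968)))) (c (b (a (l 16207552) (a (l 16126088) (l 16066040))) (l 16108736)) (b (b (a (l 16189456) (a (l 16106112) (l 16067704))) (a (l 16193272) (a (l 16130176) (l 16004384)))) (c (a (l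 16253264) (l 16161648)) (a (l 16208808) (a (l 16178080) (b (l 16121968) (l 16158064)))))))) (c (b (l 16095096) (l 16138856)) (c (b (b (l 16072160) (l 16076360)) (l 16124928)) (b (b (l 16060280) (c (l 16067528) (l 16061280))) (c (l 16116560) (l 16007872)))))) (c (b (b (l 16075568) (l 16062760)) (l 16083968)) (c (b (b (l 16053120) (l 16044040)) (l 16068264)) (b (b (l 16040688) (c (c (l 16033208) (l 16029856)) (l 16027944))) (c (l 16058944) (b (l 16045984) (l 16064376)))))))), by decide +kernel⟩

def k15_pm_011 : ∃ t, chk3 f_pm_011 t 7 6 1 = true :=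
  ⟨(l 1), by decide +kernel⟩

def k16_pm_011 : ∃ t, chk3 f_pm_011 t 28 14 1 = true :=
  ⟨(l 4), by decide +kernel⟩

def k17_pm_011 : ∃ t, chk3 f_pm_011 t 28 30 1 = true :=
  ⟨(l 4), by decide +kernel⟩

def k18_pm_011 : ∃ t, chk3 f_pm_011 t 28 62 1 = true :=
  ⟨(b (b (l 4) (a (a (b (l 4) (c (c (c (l 16202864) (c (l 16199064) (l 16216088))) (l 16223744)) (l 16210480))) (l 4)) (l 4))) (b (a (c (c (a (c (l 16154736) (a (l 16156360) (l 16113656))) (c (l 16201384) (b (c (l 16196760) (l 16197416)) (l 16166304)))) (a (c (b (a (l 16178144) (l 16185736)) (c (l 16136232) (l 16149816))) (l 16174632)) (c (b (l 223571864951) (c (l 16159776) (l 16173768))) (l 16201112)))) (a (l 16162568) (l 16189488))) (a (b (l 4) (c (c (l 16272392) (c (c (l 16254552) (l 16269272)) (l 16277760))) (l 16267864))) (l 4))) (a (c (c (a (l 16134552) (a (l 16126384) (l 16148872))) (c (a (l 16111968) (b (l 16126736) (l 16099480))) (a (b (c (l 16121368) (l 16131576)) (l 16098128)) (b (c (l 16133184) (l 16143680)) (c (l 16089832)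 (l 16097248)))))) (a (l 16111536) (c (l 16120568) (l 16109976)))) (c (a (c (l 16228904) (c (l 16206784) (b (c (l 16227024) (l 16238176)) (l 16165120)))) (c (a (a (l 16287896) (l 16343416)) (c (b (c (l 114050609031) (l 16417856)) (l 16388232)) (l 16390432))) (c (a (a (c (l 16288296) (l 16241480)) (c (l 16323160) (l 16318288))) (c (l 16376160) (b (l 16386304) (l 16352672)))) (a (a (b (c (l 16310000) (l 16321656)) (c (l 16260984) (l 16269448))) (b (l 16324016) (l 16301368))) (b (c (l 16397160) (l 16409360)) (l 16334296)))))) (a (l 16209696) (a (a (l 16293152) (l 16329080)) (l 16299840))))))), by decide +kernel⟩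

def k19_pm_011 : ∃ t, chk3 f_pm_011 t 56 63 1 = true :=
  ⟨(c (b (c (a (l 16096224) (b (a (l 16085864) (l 16092760)) (l 16056656))) (b (a (l 16090472) (b (c (l 16082312) (l 16064688)) (l 16056768))) (l 16054112))) (b (b (l 16042408) (l 16030000)) (l 16019592))) (b (c (b (a (c (l 16034928) (l 16080240)) (c (b (c (l 16066488) (l 16074368)) (a (l 16037480) (l 16037768))) (l 16060800))) (c (a (l 16051232) (l 16024136)) (b (a (l 16050576) (l 16020768)) (l 16021352)))) (a (l 16056232) (b (l 16052176) (l 16012928)))) (c (b (b (l 16018440) (l 16009960)) (l 16001784)) (b (b (l 16005112) (c (b (l 16002112) (l 15995384)) (l 15992744))) (c (l 15991352) (b (b (l 15985112) (l 15988112)) (c (l 15986496) (l 15983952)))))))), by decide +kernel⟩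

def k20_pm_011 : ∃ t, chk3 f_pm_011 t 57 63 1 = true :=
  ⟨(c (a (b (c (b (l 16167136) (l 16099000)) (b (b (l 16141352) (l 16128552)) (l 16082744))) (b (c (l 16041120) (l 16029040)) (a (l 15986848) (l 15980368)))) (b (c (a (a (l 16181544) (l 16239960)) (b (c (l 16318424) (l 16332992)) (l 16247688))) (c (a (a (l 16146720) (l 16226424)) (b (l 16321160) (l 16259704))) (a (a (b (l 16215008) (l 16145192)) (l 16153888)) (b (l 16309984) (l 16247888))))) (a (b (c (l 16105560) (l 15968488)) (a (c (l 15995944) (a (l 15978144) (l 15987208))) (c (l 16036000) (l 16023736)))) (c (b (l 16197488) (l 16115320)) (b (l 16186520) (c (l 16106664) (l 16097672))))))) (b (a (c (b (c (b (l 16151536) (l 16112392)) (l 16137880)) (c (l 16067392) (b (l 16075824) (l 16040224)))) (l 16093896)) (c (b (c (a (a (b (l 16229000) (l 16186608)) (b (l 16265536) (l 16223960))) (b (l 16322872) (l 16284240))) (a (l 16233168) (l 16311208))) (c (a (a (l 16135360) (l 16174032)) (l 16238872)) (a (a (b (l 16147440) (l 16106784))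 (b (l 16185992) (l 16146200))) (b (l 16249848) (l 16213096))))) (a (a (l 16167048) (l 16205704)) (l 16268944)))) (a (c (b (b (l 16020632) (l 15999448)) (l 15965104)) (b (c (b (l 16008736) (c (l 15987600) (l 15983904))) (l 15996592)) (c (l 15954024) (b (c (l 15960992) (l 15957080)) (l 15871448))))) (b (c (a (a (l 16058576) (l 16099176)) (l 16170472)) (c (b (a (l 16085792) (l 16176736)) (c (l 16096352) (l 16009216))) (l 16110704))) (c (a (a (l 15970776) (l 16010760)) (l 16089616)) (a (c (a (l 15896792) (l 16000200)) (a (b (c (l 15980984) (l 15977136)) (c (l 15926440) (l 15881648))) (b (l 16025384) (l 15965528)))) (c (l 16080080) (b (l 16103800) (l 16028104))))))))), by decide +kernel⟩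

def k21_pm_011 : ∃ t, chk3 f_pm_011 t 29 14 1 = true :=
  ⟨(l 1), by decide +kernel⟩

def k22_pm_011 : ∃ t, chk3 f_pm_011 t 29 30 2 = true :=
  ⟨(l 4), by decide +kernel⟩

def k23_pm_011 : ∃ t, chk3 f_pm_011 t 29 62 2 = true :=
  ⟨(b (l 4) (a (b (l 4) (a (b (a (a (c (c (c (c (l 16471888) (l 16473584)) (l 16468944)) (l 16455232)) (c (c (l 16438936) (l 16438128)) (l 253100246167))) (l 4)) (l 4)) (c (c (c (a (c (l 16424776) (l 16378136)) (a (l 16514968) (l 16578288))) (a (l 16454104) (c (a (l 16507240) (l 16512288)) (l 16520608)))) (l 16418240)) (c (c (l 16363472) (a (l 16421928) (l 16490072))) (c (l 16391608) (l 131230479431))))) (b (l 4) (a (b (l 4) (c (c (c (a (l 16632944) (l 16626952)) (c (l 16594408) (a (l 16568440) (l 16600584)))) (l 235920622311)) (c (c (l 16562536) (l 16551736)) (l 16508136)))) (l 4))))) (l 4))), by decide +kernel⟩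

def k24_pm_011 : ∃ t, chk3 f_pm_011 t 58 63 2 = true :=
  ⟨(c (b (a (c (c (a (b (c (l 16396824) (l 16397528)) (l 16301240)) (b (l 16433960) (l 16469112))) (a (l 16382832) (c (b (l 16389208) (l 16441680)) (l 16460064)))) (b (l 16445744) (l 16395776))) (b (c (a (c (a (l 16567416) (l 16552720)) (c (l 16559744) (a (l 16541944) (l 16571248)))) (c (c (l 16590976) (a (l 16635536) (l 16595768))) (l 16536040))) (a (a (l 16533840) (l 16547064)) (c (a (c (l 16551768) (l 16600872)) (c (l 16628256) (b (l 16582096) (l 16633176)))) (l 16616768)))) (c (c (b (a (l 16539240) (l 16635232)) (c (l 16489440) (l 16480408))) (a (l 16412216) (l 16586744))) (a (l 16519056) (c (a (l 16540176) (c (l 16638440) (l 16619576))) (l 16598568)))))) (b (a (c (c (l 16220624) (l 16297160)) (l 16341160)) (c (a (c (l 16503264) (l 16485752)) (b (c (l 16600360) (l 16606768)) (l 16537760))) (a (l 16482544) (c (l 16535104) (l 16577656))))) (a (c (l 16082672) (l 16255256)) (b (c (a (l 16446528) (l 16527320)) (l 16402976)) (l 16429912)))))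 (b (b (c (a (c (l 16376168) (l 16324768)) (a (c (l 16544728) (l 16514440)) (c (l 16548888) (c (l 16584608) (l 16601432))))) (b (a (l 16428152) (b (l 16483960) (l 16557656))) (l 16355968))) (c (a (c (l 16391192) (l 16381960)) (c (l 16470248) (l 16405960))) (a (l 16373840) (l 16534712)))) (b (c (a (c (l 16336808) (l 16325160)) (c (l 16482320) (l 16443872))) (l 16265896)) (a (c (c (l 16208192) (l 16152264)) (l 16252792)) (c (c (a (l 16432528) (l 16476712)) (b (l 16353352) (l 16430152))) (l 16375392)))))), by decide +kernel⟩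

def k25_pm_011 : ∃ t, chk3 f_pm_011 t 59 126 2 = true :=
  ⟨(b (a (b (b (l 4) (a (c (a (c (c (l 16624408) (c (l 16595376) (l 16672120))) (c (l 16624256) (l 16639248))) (a (c (c (l 16630008) (l 16572928)) (c (l 16712472) (l 16632464))) (l 1))) (c (c (l 16620664) (c (l 16636856) (l 16652752))) (l 16619632))) (l 1))) (a (c (c (c (a (l 16651616) (c (b (l 16613824) (l 16650272)) (l 16637160))) (a (l 16597912) (c (l 16623728) (l 16589888)))) (c (b (l 16590744) (l 16604856)) (a (l 16659800) (c (l 16631448) (l 16681784))))) (c (c (l 16665344) (c (l 16639328) (l 16657360))) (l 16626032))) (a (a (c (c (c (c (l 16625096) (l 16644192)) (l 16622856)) (c (l 16643848) (l 16620928))) (c (c (l 16685768) (l 16679920)) (l 16668512))) (l 1)) (l 1)))) (l 1)) (a (c (c (a (c (l 16664856) (c (l 16590352) (l 16580248))) (c (a (a (l 16620224) (b (l 449394101239) (l 16630128))) (b (c (l 16602296) (l 16599016)) (a (l 16622680) (l 16557744)))) (a (l 16571528) (l 16605192)))) (a (c (l 16598896) (c (l 16595304) (l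 16674512))) (c (a (a (l 16599816) (l 457447094471)) (b (l 16549480) (l 16527232))) (c (l 456910232887) (a (l 459594717751) (l 453689051111)))))) (c (c (a (l 16668048) (b (l 456910425671) (l 16598000))) (a (l 16619704) (c (l 456373526375) (l 16668040)))) (a (l 16648368) (l 16620984)))) (a (a (c (a (a (b (l 1) (c (l 480532500551) (l 479995601863))) (l 1)) (l 1)) (c (c (l 482680080743) (l 16640928)) (l 16711048))) (l 1)) (l 1)))), by decide +kernel⟩

def k26_pm_011 : ∃ t, chk3 f_pm_011 t 59 127 2 = true :=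
  ⟨(c (b (a (c (a (c (l 16688664) (l 16624312)) (l 16577416)) (a (c (l 16659896) (l 16649568)) (c (b (l 16565256) (l 16586256)) (l 16541320)))) (a (c (c (a (b (c (l 457983964967) (l 16587544)) (l 16579624)) (b (l 475163768839) (c (l 461205097607) (l 16548512)))) (l 16496816)) (c (a (b (l 16551040) (l 16540984)) (l 16525912)) (b (l 447783261751) (l 16485888)))) (b (l 1) (a (c (c (l 469794969367) (l 16521048)) (l 16491088)) (l 1))))) (b (a (c (l 16521448) (a (l 16621560) (l 16540920))) (a (c (l 16543528) (l 16491192)) (c (c (a (c (l 16426248) (l 16495840)) (l 464426138391)) (l 16472264)) (a (l 16451568) (a (l 16433592) (l 1)))))) (a (l 16495552) (a (l 16455872) (a (l 16446792) (a (b (l 16334800) (l 16401896)) (c (b (l 461204812775) (l 16400536)) (b (l 16385640) (l 16361672))))))))) (a (b (c (c (a (l 16660032) (l 16605000)) (a (l 16617976) (l 16628072))) (l 16599480)) (c (c (b (l 16513032) (l 16552368)) (b (a (l 16584192) (l 16649536)) (l 16515088))) (a (l 16571776) (l 16563256)))) (c (a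 (b (b (c (a (l 16567592) (l 16570224)) (c (l 16605904) (l 16631624))) (c (l 16444464) (l 16509488))) (c (b (l 16528000) (l 16509504)) (b (l 16565616) (l 16464032)))) (a (b (c (l 16505544) (l 498786043143)) (b (c (l 16466960) (l 16489984)) (c (l 16435664) (l 16394056)))) (b (l 1) (c (b (l 16441840) (l 16330976)) (b (l 16427776) (b (a (l 16451544) (l 16397512)) (l 16401064))))))) (b (a (l 16553536) (l 16592760)) (b (l 16455792) (a (l 16551392) (l 16400880))))))), by decide +kernel⟩

def k27_pm_011 : ∃ t, chk3 f_pm_011 t 29 30 3 = true :=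
  ⟨(l 4), by decide +kernel⟩

def k28_pm_011 : ∃ t, chk3 f_pm_011 t 58 31 3 = true :=
  ⟨(b (b (l 4) (b (l 4) (a (c (a (l 16458104) (l 16507824)) (l 16406136)) (a (b (l 4) (l 307324484023)) (l 4))))) (c (b (b (a (c (b (c (l 16411656) (l 16442696)) (c (l 16397488) (l 16403216))) (l 16425976)) (b (c (b (l 16500824) (c (l 16540216) (l 16574328))) (l 16559672)) (c (c (l 16543416) (l 16486984)) (l 16558872)))) (c (a (l 16344880) (l 16444120)) (b (a (l 16332544) (l 16427800)) (c (l 16302544) (l 16220792))))) (b (b (a (l 16324280) (l 16461208)) (l 16288960)) (a (l 16246760) (l 16330128)))) (b (a (l 16329072) (a (l 16509472) (b (l 16601928) (l 16567680)))) (b (c (b (a (l 16316184) (l 16455376)) (c (l 16302128) (l 16216232))) (l 16291688)) (b (c (a (l 16261192) (l 16424704)) (a (l 16092384) (b (l 16466392) (l 16356152)))) (c (l 16267360) (c (l 16243192) (a (l 16214624) (l 16374192))))))))), by decide +kernel⟩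

def k29_pm_011 : ∃ t, chk3 f_pm_011 t 59 31 3 = true :=
  ⟨(b (l 4) (a (b (c (b (a (c (b (b (l 4) (c (l 221760841751) (l 16658400))) (c (l 16617120) (b (l 16632144) (l 16622840)))) (b (l 16640328) (l 16654792))) (c (b (l 1) (c (l 16660984) (l 492880748439))) (l 16636288))) (b (c (a (l 16604040) (b (l 16683000) (l 16697272))) (a (c (l 16600336) (l 16650528)) (c (l 445099243431) (l 16699800)))) (c (l 16611208) (c (l 16561024) (a (l 16634496) (l 16642480)))))) (b (a (b (l 16618272) (l 16653768)) (l 16635472)) (a (l 16644992) (l 16640248)))) (b (c (a (l 16567240) (l 16572552)) (c (b (l 16566272) (c (l 16625888) (l 16583144))) (l 16592680))) (c (a (l 16560000) (l 16541600)) (c (b (l 16542312) (l 16614824)) (b (a (c (l 16564760) (l 16616056)) (l 16566376)) (c (l 16592776) (a (l 16560472) (l 16537760)))))))) (b (a (b (l 1) (b (l 1) (c (c (l 16689800) (l 538514761927)) (l 16686064)))) (l 1)) (b (a (c (b (b (l 16605664) (l 16605880)) (l 16576360)) (c (b (c (l 387653923751) (l 16636528)) (c (l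 16580160) (l 294775149783))) (l 16556200))) (b (l 1) (b (l 1) (c (l 16545600) (c (l 16484736) (l 16545864)))))) (c (b (l 281890067751) (a (l 16549256) (b (l 16465712) (l 16445888)))) (c (b (a (l 16567712) (l 16460736)) (a (l 16547152) (l 326450254279))) (c (b (a (l 16524616) (b (l 16516832) (l 16402240))) (b (a (l 16550232) (l 16441112)) (l 16489976))) (b (l 16452496) (b (b (l 16404272) (l 16353712)) (c (l 16468720) (l 16404984))))))))))), by decide +kernel⟩

def k30_pm_011 : ∃ t, chk3 f_pm_011 t 15 7 1 = true :=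
  ⟨(b (l 1) (b (l 1) (b (l 1) (b (l 1) (b (l 1) (b (l 1) (b (l 1) (b (l 1) (a (a (a (a (a (a (c (c (c (l 16306728) (l 16350688)) (c (c (l 16351392) (l 16395624)) (l 16401512))) (l 16394176)) (l 1)) (l 1)) (l 1)) (l 1)) (l 1)) (l 1)))))))))), by decide +kernel⟩

theorem s31_pm_011 : ∃ t, chk3 f_pm_011 t 29 31 3 = true := ex3_a k28_pm_011 k29_pm_011

theorem s32_pm_011 : ∃ t, chk3 f_pm_011 t 29 15 3 = true := ex3_b k27_pm_011 s31_pm_011

theorem s33_pm_011 : ∃ t, chk3 f_pm_011 t 59 63 2 = true := ex3_b k25_pm_011 k26_pm_011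

theorem s34_pm_011 : ∃ t, chk3 f_pm_011 t 29 63 2 = true := ex3_a k24_pm_011 s33_pm_011

theorem s35_pm_011 : ∃ t, chk3 f_pm_011 t 29 31 2 = true := ex3_b k23_pm_011 s34_pm_011

theorem s36_pm_011 : ∃ t, chk3 f_pm_011 t 29 15 2 = true := ex3_b k22_pm_011 s35_pm_011

theorem s37_pm_011 : ∃ t, chk3 f_pm_011 t 29 15 1 = true := ex3_c s36_pm_011 s32_pm_011

theorem s38_pm_011 : ∃ t, chk3 f_pm_011 t 29 7 1 = true := ex3_b k21_pm_011 s37_pm_011

theorem s39_pm_011 : ∃ t, chk3 f_pm_011 t 28 63 1 = true := ex3_a k19_pm_011 k20_pm_011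

theorem s40_pm_011 : ∃ t, chk3 f_pm_011 t 28 31 1 = true := ex3_b k18_pm_011 s39_pm_011

theorem s41_pm_011 : ∃ t, chk3 f_pm_011 t 28 15 1 = true := ex3_b k17_pm_011 s40_pm_011

theorem s42_pm_011 : ∃ t, chk3 f_pm_011 t 28 7 1 = true := ex3_b k16_pm_011 s41_pm_011

theorem s43_pm_011 : ∃ t, chk3 f_pm_011 t 14 7 1 = true := ex3_a s42_pm_011 s38_pm_011

theorem s44_pm_011 : ∃ t, chk3 f_pm_011 t 7 7 1 = true := ex3_a s43_pm_011 k30_pm_011

theorem s45_pm_011 : ∃ t, chk3 f_pm_011 t 7 3 1 = true := ex3_b k15_pm_011 s44_pm_011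

theorem s46_pm_011 : ∃ t, chk3 f_pm_011 t 27 31 1 = true := ex3_b k13_pm_011 k14_pm_011

theorem s47_pm_011 : ∃ t, chk3 f_pm_011 t 13 31 1 = true := ex3_a k12_pm_011 s46_pm_011

theorem s48_pm_011 : ∃ t, chk3 f_pm_011 t 13 15 1 = true := ex3_b k11_pm_011 s47_pm_011

theorem s49_pm_011 : ∃ t, chk3 f_pm_011 t 13 7 1 = true := ex3_b k10_pm_011 s48_pm_011

theorem s50_pm_011 : ∃ t, chk3 f_pm_011 t 12 31 1 = true := ex3_b k8_pm_011 k9_pm_011

theorem s51_pm_011 : ∃ t, chk3 f_pm_011 t 12 15 1 = true := ex3_b k7_pm_011 s50_pm_011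

theorem s52_pm_011 : ∃ t, chk3 f_pm_011 t 12 7 1 = true := ex3_b k6_pm_011 s51_pm_011

theorem s53_pm_011 : ∃ t, chk3 f_pm_011 t 6 7 1 = true := ex3_a s52_pm_011 s49_pm_011

theorem s54_pm_011 : ∃ t, chk3 f_pm_011 t 6 3 1 = true := ex3_b k5_pm_011 s53_pm_011

theorem s55_pm_011 : ∃ t, chk3 f_pm_011 t 3 3 1 = true := ex3_a s54_pm_011 s45_pm_011

theorem s56_pm_011 : ∃ t, chk3 f_pm_011 t 3 1 1 = true := ex3_b k4_pm_011 s55_pm_011

theorem s57_pm_011 : ∃ t, chk3 f_pm_011 t 2 7 1 = true := ex3_a k2_pm_011 k3_pm_011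

theorem s58_pm_011 : ∃ t, chk3 f_pm_011 t 2 3 1 = true := ex3_b k1_pm_011 s57_pm_011

theorem s59_pm_011 : ∃ t, chk3 f_pm_011 t 2 1 1 = true := ex3_b k0_pm_011 s58_pm_011

theorem s60_pm_011 : ∃ t, chk3 f_pm_011 t 1 1 1 = true := ex3_a s59_pm_011 s56_pm_011

theorem c_pm_011 : CertNX 67108864 469762048 536870912 536870912 1046898278 26843546 3 false true false .pnn 0 1 1
    ndN1q0 ndN0q1 pcN1 Cut.none Ext.none :=
  certNX2 (fam := false) (s1 := true) (s2 := false) (a := 0) (b := 1) (c := 1) (cn := .pnn) (n1 := ndN1q0) (n2 := ndN0q1) (pc := pcN1) (cut := Cut.none) (xt := Ext.none) (P1 := 67108864) (W1 := 469762048) (P2 := 536870912) (W2 := 536870912) (P3 := 1046898278) (W3 := 26843546) (N0 := 3)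
    rfl (fun _ => rfl) s60_pm_011

end Pool.Agent.Strip051.G.IE1.Tab.C.NB10

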