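import Pool.Agent.Strip051.G.IE1.Tab

/-! # Certificates N59 (generated) -/

set_option linter.all false
set_option maxRecDepth 100000

namespace Pool.Agent.Strip051.G.IE1.Tab.C.NB10

open Pool.Agent.Strip051.PB Pool.Agent.Strip051.PB.T
open Pool.Agent.Strip051.G.IE1.Tab

noncomputable def f_pm_012 : ℕ → ℕ → ℕ → ℕ → Bool := onCell 536870912 536870912 0 536870912 1046898278 26843546
    (rowNX 3 2 false true false .pnp 0 1 2 (qsf 67108864 469762048 0 536870912 1) ndN1q0 ndN0q2 pcN1 Cut.none Ext.none)

def k0_pm_012 : ∃ t, chk3 f_pm_012 t 2 1 1 = true :=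
  ⟨(a (b (b (l 2) (b (l 2) (c (a (l 2) (l 16777216)) (l 16777216)))) (b (a (l 2) (b (l 16777216) (b (l 16709592) (l 16516872)))) (b (a (c (l 15935776) (l 15914264)) (b (l 16299392) (a (l 16006360) (l 16006360)))) (b (c (b (a (l 15727072) (l 15727072)) (a (l 15649840) (c (l 15665608) (l 15636680)))) (l 15521736)) (c (b (c (l 15564784) (l 15539776)) (l 15451960)) (b (l 15508592) (c (l 15420544) (b (l 15424240) (l 15371256))))))))) (b (b (c (b (l 16777216) (l 16777216)) (b (l 16777216) (l 16777216))) (c (b (l 16777216) (a (l 16777216) (l 16777216))) (b (l 16777216) (l 16777216)))) (b (b (c (l 16777216) (l 16777216)) (b (c (l 16710760) (l 16708424)) (l 16432984))) (b (b (c (l 16307688) (l 16291144)) (a (c (l 16019712) (l 15993040)) (c (l 16019712) (l 15993040)))) (b (c (b (a (l 15727072) (l 15727072)) (a (c (l 15665608) (l 15636680)) (c (l 15623672) (l 15636680)))) (a (l 15647568) (l 15647568))) (c (b (c (l 15564784) (b (l 15576816) (l 15518816))) (l 15451960)) (a (b (l 15508592) (c (l 15420544) (l 15392720)))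 (b (l 15508592) (c (l 15420544) (b (l 15424240) (l 15371256))))))))))), by decide +kernel⟩

def k1_pm_012 : ∃ t, chk3 f_pm_012 t 6 2 1 = true :=
  ⟨(a (b (c (a (l 16777136) (l 16717376)) (a (l 16777128) (l 16715272))) (b (a (l 16777112) (c (l 16701408) (l 16698744))) (a (l 16777080) (l 16593400)))) (c (b (a (l 16595528) (a (l 16494848) (l 16373512))) (a (b (l 16547088) (l 16479024)) (b (a (l 16414544) (l 16259848)) (a (l 16303728) (l 16099096))))) (b (a (l 16589152) (a (l 16484936) (l 16359344))) (a (b (l 16539016) (l 16468552)) (b (a (l 16401816) (l 16241688)) (a (l 16287104) (l 16075296))))))), by decide +kernel⟩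

def k2_pm_012 : ∃ t, chk3 f_pm_012 t 6 6 1 = true :=
  ⟨(a (b (a (l 16756072) (c (l 16655160) (l 16650872))) (a (b (l 16709744) (l 16517040)) (b (l 16567032) (l 16598104)))) (a (b (c (l 16411096) (l 16398248)) (b (l 16310888) (l 16396904))) (b (a (c (a (l 16245696) (l 16145232)) (l 16175408)) (c (l 15941936) (l 15912616))) (a (b (c (l 16138680) (l 16138184)) (a (l 16289112) (l 16118104))) (b (c (b (l 15865008) (l 15911544)) (l 15862856)) (c (l 16042352) (l 16017640))))))), by decide +kernel⟩

def k3_pm_012 : ∃ t, chk3 f_pm_012 t 12 14 1 = true :=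
  ⟨(a (b (l 16299592) (l 15985608)) (b (l 16333560) (b (l 16254928) (l 16068464)))), by decide +kernel⟩

def k4_pm_012 : ∃ t, chk3 f_pm_012 t 24 15 1 = true :=
  ⟨(b (b (a (l 15708848) (b (l 15751928) (c (l 15700032) (l 15662112)))) (c (b (c (b (l 15683128) (l 15682088)) (l 15648416)) (a (l 15631296) (a (l 15631296) (c (b (l 15667352) (l 15643432)) (l 15455784))))) (l 15596832))) (c (b (c (l 15565392) (b (l 15577424) (l 15519464))) (l 15452464)) (b (c (l 15371272) (l 15495112)) (c (b (c (l 15455048) (l 15441576)) (l 15395352)) (b (l 15424960) (c (l 15379096) (l 15301952))))))), by decide +kernel⟩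

def k5_pm_012 : ∃ t, chk3 f_pm_012 t 25 15 1 = true :=
  ⟨(b (b (b (l 15919264) (a (c (c (l 15806904) (a (l 15748136) (l 15836384))) (c (l 15773480) (l 15754176))) (b (l 15943784) (b (l 15929664) (c (a (b (l 15902176) (l 15903120)) (c (l 15983120) (l 15881840))) (a (l 15877448) (l 15810560))))))) (c (c (a (b (a (l 15724520) (c (b (l 15869848) (l 15896480)) (l 15853712))) (b (l 15848600) (a (l 15759088) (l 15938080)))) (b (b (a (b (l 15932032) (c (l 15974848) (l 15952896))) (b (l 15987264) (c (l 16032952) (l 16016728)))) (a (b (c (l 16008464) (l 15971488)) (l 16029728)) (c (b (l 16083112) (l 16114176)) (b (l 16042880) (l 16078952))))) (b (a (l 16067176) (l 16149048)) (a (l 16082280) (l 16203952))))) (a (b (a (l 15726600) (l 15839224)) (b (l 15803128) (a (l 15730352) (l 15913176)))) (b (a (l 15820848) (b (b (b (l 15965880) (l 15991296)) (a (l 15999168) (l 16018728))) (b (a (l 16010600) (l 15954136)) (l 16066760)))) (b (l 16067480) (a (l 15914080) (l 16079752)))))) (a (b (a (l 15702360) (l 15818880)) (a (l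 15692408) (l 15848368))) (b (b (a (l 15904240) (c (b (b (l 15956560) (l 15974280)) (l 15984232)) (l 15844248))) (a (l 15959224) (l 16033640))) (a (b (l 16008856) (l 16049584)) (b (l 16095032) (l 16134792))))))) (b (a (c (b (c (l 15812288) (l 15802248)) (l 15648088)) (b (l 15761512) (c (l 15671768) (l 15710224)))) (b (c (c (l 16122192) (l 15992856)) (l 16087928)) (c (l 16053608) (l 15887848)))) (c (a (l 15590536) (l 15961288)) (b (c (a (c (l 15678024) (l 15603976)) (l 15831216)) (a (l 15653808) (l 15967416))) (c (l 15626432) (a (c (l 15582232) (l 15528160)) (c (l 15905384) (l 15854584)))))))), by decide +kernel⟩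

def k6_pm_012 : ∃ t, chk3 f_pm_012 t 13 14 1 = true :=
  ⟨(a (b (b (l 16514752) (l 16434712)) (b (a (l 16476688) (l 16502048)) (a (l 16280872) (l 16314320)))) (b (a (a (b (l 16388496) (l 16513632)) (l 16353944)) (c (l 16282480) (l 16267512))) (a (a (c (l 16270800) (l 16262152)) (b (l 16605704) (l 16353240))) (b (l 16355696) (l 16326896))))), by decide +kernel⟩

def k7_pm_012 : ∃ t, chk3 f_pm_012 t 26 60 1 = true :=
  ⟨(c (l 15907984) (l 16039464)), by decide +kernel⟩

def k8_pm_012 : ∃ t, chk3 f_pm_012 t 52 122 1 = true :=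
  ⟨(b (a (c (c (b (l 15987432) (l 16004120)) (c (a (l 15983496) (b (l 15968904) (l 15977752))) (a (b (l 15983016) (l 16012480)) (l 15973408)))) (c (b (l 15965544) (b (a (l 15979656) (l 15955616)) (l 15979976))) (b (l 15949808) (l 15947832)))) (b (l 15952152) (a (c (b (l 15962120) (l 15828344)) (c (c (l 15951000) (l 15948592)) (l 15932128))) (b (l 15936264) (c (l 15956928) (c (l 15939560) (l 15917576))))))) (c (b (c (c (a (l 16081392) (l 16045128)) (a (l 16047080) (l 16009360))) (b (a (c (l 16025376) (l 16003520)) (a (l 15998912) (l 15971584))) (a (c (l 16041296) (l 15901656)) (c (l 16021168) (a (l 16022712) (l 16008064)))))) (c (c (a (l 16125248) (l 16124736)) (a (b (l 16068056) (l 16100144)) (c (l 16083944) (l 16070976)))) (b (a (c (l 16057192) (l 16062400)) (c (l 16049168) (a (l 16045808) (l 16033088)))) (a (l 16087672) (c (l 16070464) (l 16077096)))))) (a (c (b (l 15938960) (l 16065712)) (l 16031320)) (c (c (b (a (l 15993848) (l 15950864)) (a (l 16061064) (l 15978528))) (b (l 15980232) (l 16050040)))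 (l 15955688))))), by decide +kernel⟩

def k9_pm_012 : ∃ t, chk3 f_pm_012 t 53 122 1 = true :=
  ⟨(b (b (l 15946336) (a (a (b (l 15934480) (a (c (l 15948480) (c (l 15940064) (l 15912400))) (l 15924504))) (l 15928280)) (l 15925384))) (b (a (a (c (c (l 15972344) (b (l 15941224) (l 15978656))) (c (b (c (l 15930712) (l 15921624)) (c (l 15923832) (l 15963560))) (b (l 15909472) (l 15933680)))) (c (c (l 15847320) (b (l 15926968) (l 15942232))) (c (c (c (l 15872952) (l 15928104)) (c (l 15920272) (l 15862088))) (b (l 15902376) (l 15840408))))) (b (l 15911144) (c (c (l 15872632) (a (l 15919464) (l 15910976))) (c (c (a (l 15908344) (a (l 15897704) (l 15892584))) (l 15888896)) (c (l 15797984) (l 15887288)))))) (c (c (a (a (c (l 16091184) (l 16059152)) (l 16049912)) (b (c (l 15986440) (l 15943192)) (l 16024088))) (a (c (b (l 16005176) (l 16052104)) (a (b (l 16020000) (l 16047432)) (b (l 15989120) (l 16031936)))) (a (b (l 15953912) (c (l 16005632) (l 16007304))) (b (l 15915464) (l 15963136))))) (c (b (a (c (c (a (l 16009624)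 (l 15987240)) (a (l 15984632) (l 15956248))) (l 15866248)) (a (c (l 15949608) (l 15935744)) (c (b (l 15895480) (l 15907584)) (l 15900624)))) (a (a (l 16046552) (c (c (l 16021392) (l 15952216)) (l 15996872))) (c (a (c (l 15999584) (b (l 15982160) (l 16000160))) (a (l 15970552) (l 15941144))) (c (a (l 15927088) (l 15896136)) (l 15914144))))) (a (l 15989528) (a (l 15800464) (c (b (a (l 15832672) (l 15892472)) (l 15932984)) (l 15789992)))))))), by decide +kernel⟩

def k10_pm_012 : ∃ t, chk3 f_pm_012 t 26 123 1 = true :=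
  ⟨(a (b (c (c (a (l 16182712) (b (c (l 16089536) (c (l 16152112) (l 16135896))) (l 16231752))) (l 16154368)) (a (l 16130400) (l 16146312))) (c (c (a (l 16252080) (l 16321664)) (a (l 16171040) (l 16241760))) (a (l 16187384) (l 16279496)))) (c (b (c (c (a (b (c (l 16172904) (l 16165680)) (l 16239216)) (b (l 15967656) (a (l 16219552) (l 16144352)))) (a (b (a (l 16128072) (l 16056232)) (l 16228688)) (a (b (l 16002040) (l 16165360)) (b (l 16081000) (b (l 16158504) (l 16226080)))))) (a (b (b (c (a (l 16093640) (l 16076808)) (a (l 16094712) (c (l 16071968) (l 16075104)))) (l 16131392)) (l 16195160)) (c (b (a (b (l 16061528) (l 16097904)) (b (l 16026768) (l 16079080))) (a (l 16182792) (c (l 16157600) (l 16162608)))) (b (a (b (l 16045728) (l 16101632)) (b (l 16023304) (c (l 16068200) (l 16064288)))) (l 16169760))))) (b (c (l 16194640) (l 16222608)) (c (l 16391184) (a (l 16340032) (l 16404792))))) (b (a (l 16117808) (c (b (c (a (a (l 16077312) (b (b (l 16016160) (l 16050416)) (l 16090256))) (b (c (l 16011728) (b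 (l 15993032) (l 16015840))) (c (c (l 16068112) (l 16068712)) (l 16066696)))) (a (l 16065352) (b (b (c (l 15858784) (l 15960768)) (l 16018920)) (l 16062640)))) (l 16163200)) (l 16098008))) (a (l 16251952) (c (l 16329064) (l 16323640)))))), by decide +kernel⟩

def k11_pm_012 : ∃ t, chk3 f_pm_012 t 26 31 1 = true :=
  ⟨(c (b (b (b (a (c (b (a (l 16305840) (l 16401264)) (l 16349744)) (b (a (l 16213360) (c (l 16403320) (l 16376944))) (l 16353128))) (c (a (b (l 16478352) (l 16502584)) (b (l 16519736) (a (l 16500408) (l 16462304)))) (a (b (l 16289560) (c (l 16520400) (l 16494176))) (b (l 16515224) (b (l 16314968) (l 16293936)))))) (c (l 16361848) (a (l 16343384) (l 16478720)))) (a (c (l 16303552) (l 16288440)) (l 16400696))) (a (l 16222016) (l 16415888))) (b (b (b (a (b (a (l 16249144) (a (l 16348968) (l 16374768))) (l 16326416)) (a (b (a (l 16435736) (l 16461272)) (b (l 16466648) (l 16496272))) (b (l 16495264) (a (l 16420128) (a (l 16471016) (l 16453088)))))) (l 16332184)) (c (a (a (l 16241272) (l 16373512))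 (l 16330480)) (l 16282520))) (c (b (b (a (l 16153784) (l 16329680)) (l 16169816)) (a (l 16242312) (l 16493816))) (b (a (l 16226584) (l 16388000)) (a (c (l 16134072) (l 16044616)) (c (l 16323424) (b (l 16468704) (l 16343152)))))))), by decide +kernel⟩

def k12_pm_012 : ∃ t, chk3 f_pm_012 t 27 60 1 = true :=
  ⟨(a (a (c (l 16047760) (l 16032152)) (l 15966608)) (c (l 16168888) (l 16223744))), by decide +kernel⟩

def k13_pm_012 : ∃ t, chk3 f_pm_012 t 108 122 1 = true :=
  ⟨(b (l 15849192) (c (b (l 15933416) (a (c (c (l 15967920) (l 15926136)) (b (l 15901896) (l 15915440))) (b (l 15919096) (c (a (l 15933816) (l 15935424)) (a (l 15892616) (l 15894888)))))) (b (l 15886424) (b (a (a (b (l 15872944) (c (l 15883344) (l 15853808))) (l 15869392)) (l 15871896)) (a (c (b (a (l 15895696) (l 15879456)) (c (l 15919184) (c (l 15913480) (l 15933984)))) (c (b (c (l 15878656) (l 15878712)) (l 15914632)) (l 15876336))) (a (c (c (l 15880976) (b (l 15868792) (l 15872952))) (c (l 15871632) (l 15862008))) (a (b (l 15862160) (c (l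 15870904) (c (l 15871056) (l 15853328)))) (l 15870536)))))))), by decide +kernel⟩

def k14_pm_012 : ∃ t, chk3 f_pm_012 t 216 123 1 = true :=
  ⟨(c (b (b (c (l 16028488) (b (c (l 15979192) (l 15972840)) (c (l 16051272) (l 16038696)))) (c (c (l 16088080) (c (l 16179664) (l 16124968))) (b (c (l 16098912) (a (l 16108456) (l 16081152))) (l 16165904)))) (c (c (b (l 16294776) (l 16413448)) (l 16361736)) (b (l 16263344) (l 16404656)))) (b (b (c (c (c (b (l 15975480) (b (l 16014672) (l 16040192))) (b (b (l 15949864) (l 15983584)) (b (l 16006288) (l 16045224)))) (c (b (c (b (l 15950400) (l 15977400)) (b (l 15949016) (l 15972976))) (a (l 16036592) (b (l 15993328) (l 16031896)))) (b (l 15842272) (l 16023320)))) (c (l 15883664) (l 15973736))) (l 16119704)) (b (l 16250752) (l 16382376)))), by decide +kernel⟩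

def k15_pm_012 : ∃ t, chk3 f_pm_012 t 217 123 1 = true :=
  ⟨(b (b (c (c (a (l 16014616) (c (l 16007016) (l 15969728))) (b (a (l 15938056) (l 15913912)) (a (l 16013960) (l 15986024)))) (c (a (c (b (l 15927136) (c (l 16002392) (l 15993536))) (c (b (b (l 15904432) (l 15943312)) (b (l 15972376) (l 16005888))) (b (l 15934024) (l 15939832)))) (b (c (l 15903184) (b (l 15880672) (a (l 15920112) (l 15913536)))) (c (b (l 15958632) (l 15934592)) (c (b (l 15958632) (l 15985528)) (a (b (l 15950576) (l 15988768)) (l 15865808)))))) (a (b (c (l 15915616) (l 15899912)) (l 15980648)) (a (c (a (b (l 15907760) (l 15948640)) (b (b (l 15873656) (l 15901664)) (l 15944528))) (b (l 15871960) (l 15959440))) (c (b (b (l 15876720) (l 15907528)) (l 15943120)) (l 15899264)))))) (c (c (a (c (l 16172392) (b (l 16112176) (l 16174344))) (c (l 16154824) (b (l 16090312) (c (l 16184768) (l 16150016))))) (a (c (b (l 16080856) (l 16135640)) (b (l 16063304) (l 16139496))) (c (b (l 16068216) (a (l 16102096) (l 16122456))) (b (a (l 15990928)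 (l 16054912)) (a (l 16126880) (l 16120264)))))) (c (c (b (b (a (l 16039800) (c (l 16029008) (l 16023600))) (l 16074944)) (l 16128048)) (l 16087424)) (l 16079616)))) (c (c (b (b (a (c (l 16244088) (l 16250720)) (c (l 16194104) (l 16107440))) (l 16271760)) (a (l 16414288) (l 16389304))) (b (l 16137352) (a (l 16398152) (l 16373064)))) (a (l 16241584) (b (l 16223752) (l 16371336))))), by decide +kernel⟩

def k16_pm_012 : ∃ t, chk3 f_pm_012 t 109 122 1 = true :=
  ⟨(c (l 16002264) (l 15959160)), by decide +kernel⟩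

def k17_pm_012 : ∃ t, chk3 f_pm_012 t 109 123 2 = true :=
  ⟨(c (b (b (b (c (l 16014120) (l 15971784)) (c (l 16034312) (l 15998056))) (b (l 15981592) (c (l 16166168) (l 16019144)))) (c (b (a (b (l 16242376) (l 16293232)) (b (l 16237640) (l 16295384))) (c (l 16393424) (l 16407672))) (b (b (c (l 16225320) (l 16197592)) (a (l 16311064) (l 16209352))) (l 16417880)))) (a (b (b (b (l 15930144) (l 15970712)) (c (b (l 16054152) (l 16126368)) (c (b (l 16055432) (l 16113896)) (b (l 16052184) (l 16108080))))) (c (b (b (l 16166296) (l 16274272)) (l 16398112)) (l 16303368))) (b (b (b (a (l 15953464) (l 15970456)) (l 15974544)) (b (c (l 16036856) (l 16031128)) (c (l 16122576) (c (l 16116712) (l 16109448))))) (b (b (c (c (l 16190648) (l 16180128)) (b (l 16154456) (l 16202816))) (l 16264280)) (l 16392264))))), by decide +kernel⟩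

def k18_pm_012 : ∃ t, chk3 f_pm_012 t 109 123 3 = true :=
  ⟨(c (b (b (b (b (a (a (l 15897288) (l 15912008)) (l 15947952)) (c (a (l 15918296) (l 15951048)) (c (a (l 15912640) (a (l 15931352) (l 15953480))) (l 15940392)))) (a (c (b (l 15943912) (l 15989392)) (a (c (b (l 15946352) (l 15986736)) (l 15836072)) (b (l 15938320) (b (l 15967280) (l 15987328))))) (c (b (l 15953432) (l 15967816)) (c (c (b (l 15948064) (l 15963448)) (l 15922040)) (l 15957072))))) (a (c (b (c (b (l 16029320) (l 16057480)) (b (l 16022624) (l 16049600))) (c (a (l 16117800) (l 16105728)) (l 16112960))) (b (c (b (a (l 16014192) (l 16014352)) (c (l 16049360) (l 16053704))) (a (l 16035920) (b (l 15902744) (l 16048512)))) (l 16109248))) (b (c (b (l 16006120) (c (l 16050088) (l 16049584))) (a (c (b (l 16010576) (l 16041920)) (b (l 15935560) (l 15951200))) (c (b (l 15996984) (l 16041232)) (c (l 15983904) (l 16018232))))) (b (c (c (l 16087280) (l 16078224)) (c (a (l 16080216) (l 16070232)) (l 15984040))) (c (a (l 16117152) (l 16108648)) (l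 16116656)))))) (l 16275552)) (b (b (b (c (c (l 15933624) (l 15872552)) (l 15819168)) (c (a (a (l 15905736) (l 15938680)) (b (l 15945992) (a (l 15964792) (l 15874904)))) (a (l 15927312) (l 15858432)))) (b (c (a (l 16008792) (c (l 15945264) (l 16000488))) (l 16003272)) (l 16096040))) (l 16269312))), by decide +kernel⟩

def k19_pm_012 : ∃ t, chk3 f_pm_012 t 55 122 1 = true :=
  ⟨(c (c (l 16107728) (l 16117520)) (l 16102416)), by decide +kernel⟩

def k20_pm_012 : ∃ t, chk3 f_pm_012 t 55 246 1 = true :=
  ⟨(c (b (a (a (a (b (l 16018568) (c (l 16036032) (l 15993784))) (l 16037368)) (l 16072856)) (l 16144872)) (b (a (c (c (l 16096464) (a (l 16054784) (l 16079592))) (a (l 16001512) (a (l 16035328) (l 16054744)))) (l 16091168)) (a (c (c (l 16130016) (l 16116688)) (a (b (l 16074048) (l 16120768)) (c (l 16075528) (l 16070104)))) (a (c (l 16071304) (c (l 16092568) (l 16087664))) (l 16130304))))) (a (a (c (a (b (b (l 15981640) (c (l 15982992) (b (l 15971288) (l 15973392)))) (b (c (l 16008976) (b (l 15985440) (b (l 16015320)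 (l 16039464)))) (c (b (l 16075232) (l 16109680)) (c (b (l 16070256) (l 16100056)) (b (c (l 16063896) (l 16059528)) (l 16104024)))))) (b (l 16001112) (b (b (l 15999768) (b (l 16007024) (l 16029768))) (c (b (l 16060944) (l 16106832)) (c (b (l 16058064) (l 16098456)) (c (b (l 16059168) (l 16092152)) (l 16002200))))))) (b (c (l 15997912) (l 15986600)) (b (b (c (c (l 15989912) (l 15990920)) (l 15980312)) (c (a (l 16011384) (b (l 15916560) (l 16025848))) (l 15993320))) (c (c (b (l 16024088) (l 16073208)) (l 16057216)) (l 16061792))))) (b (l 16031888) (b (b (l 16020128) (c (a (l 16021440) (a (l 16033952) (l 16039816))) (c (l 16030736) (l 16021624)))) (c (a (c (c (l 16072096) (l 16069488)) (b (l 16060896) (c (l 16091952) (c (l 16089856) (l 16086552))))) (c (l 16061496) (b (l 16040536) (l 16081000)))) (c (a (c (l 16071240) (l 16058584)) (b (c (l 16042808) (l 16041864)) (l 16051096))) (b (l 15921480) (l 16062944))))))) (a (b (l 16081376) (b (l 16067592) (c (a (c (l 16069792) (b (a (l 16049712) (l 16057200)) (l 16065424)))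 (a (b (l 16072368) (l 16075912)) (l 16082528))) (c (c (l 16078400) (l 15995416)) (l 15942624))))) (l 16124720)))), by decide +kernel⟩

def k21_pm_012 : ∃ t, chk3 f_pm_012 t 55 247 2 = true :=
  ⟨(a (c (c (b (a (l 16246496) (l 16235928)) (b (a (l 16329664) (l 16355128)) (a (l 16431776) (l 16369256)))) (b (b (l 16209344) (a (l 16170288) (l 16291160))) (b (a (l 16321416) (c (l 16360088) (l 16355432))) (l 16446184)))) (c (b (a (b (l 16144792) (c (l 16254720) (l 16242416))) (b (l 16158472) (c (l 16255528) (l 16241200)))) (b (a (l 16340832) (b (l 16212560) (l 16350224))) (l 16426224))) (b (b (c (a (l 16174976) (l 16159240)) (a (l 16166360) (l 16161160))) (a (c (l 16242696) (l 16248888)) (a (l 16144928) (l 16186416)))) (l 16364408)))) (a (c (b (b (l 16107384) (l 16256840)) (b (c (l 16339128) (l 16251648)) (c (l 16347928) (c (l 16417080) (l 16422392))))) (b (b (b (l 16109008) (l 16154200)) (c (l 16230400) (b (l 16198760) (l 16221432)))) (c (b (c (l 16323376) (l 16300448)) (c (l 16407792) (l 16391496))) (b (b (c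 (l 16277272) (l 16270472)) (l 16269648)) (l 16387400))))) (b (b (c (c (l 16183952) (l 16181296)) (c (l 16143872) (l 16138016))) (c (l 16234208) (b (l 16172800) (l 16223952)))) (c (b (l 16326536) (c (l 16416224) (c (l 16426912) (l 16387360)))) (c (b (l 16207640) (c (l 16363448) (l 16312936))) (b (b (l 16274632) (l 16206592)) (b (c (l 16350016) (l 16348208)) (l 16403512)))))))), by decide +kernel⟩

def k22_pm_012 : ∃ t, chk3 f_pm_012 t 110 247 3 = true :=
  ⟨(b (b (b (a (c (c (a (l 16139056) (l 16137688)) (c (a (l 16146488) (l 16132080)) (l 16140120))) (l 16134240)) (c (c (c (l 16132936) (l 16132816)) (c (a (l 16126584) (l 16123456)) (c (a (l 16121656) (l 16119024)) (a (l 16098536) (l 16081008))))) (c (c (l 16056424) (l 16097944)) (l 16112352)))) (c (c (a (c (l 16179528) (l 16184944)) (a (l 16166112) (l 16166176))) (a (l 16181752) (c (a (l 16166976) (l 16155312)) (a (l 16167968) (b (l 16141448) (l 16168528)))))) (l 16166896))) (c (c (a (l 16246168) (b (c (l 16203168) (a (l 16213712) (l 16198328))) (l 16251936)))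 (l 16235360)) (l 16229712))) (l 16232320)), by decide +kernel⟩

def k23_pm_012 : ∃ t, chk3 f_pm_012 t 111 247 3 = true :=
  ⟨(b (a (c (b (b (c (l 16100784) (a (b (l 16093632) (l 16119080)) (c (l 16092320) (l 16089784)))) (c (c (l 16147232) (l 16149576)) (c (a (l 16153344) (l 16136040)) (c (a (l 16147512) (l 16138008)) (a (l 16064136) (l 16141664)))))) (a (c (c (l 16216032) (b (l 16192648) (l 16233400))) (b (c (l 16185288) (c (l 16187424) (l 16189328))) (l 16234216))) (c (b (l 16190472) (l 16225072)) (c (b (l 16182288) (l 16217088)) (b (b (l 16165760) (l 16182952)) (l 16222136)))))) (c (b (a (c (c (l 16099720) (l 16115104)) (l 16110336)) (b (c (l 16083584) (l 16001616)) (c (l 16110984) (l 16120496)))) (c (l 16116640) (l 16201832))) (b (c (l 15986032) (l 16093488)) (l 16198768)))) (c (a (b (a (c (l 16112984) (b (l 16093824) (l 16125064))) (b (l 16109784) (l 16122408))) (c (b (l 16172472) (l 16225216)) (c (b (l 16172856) (l 16214424)) (c (b (l 16172704) (l 16208896)) (b (l 16104392) (l 16102056)))))) (b (b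 (l 16127728) (b (l 16132856) (l 16136360))) (b (c (l 16163472) (b (l 16147576) (l 16173328))) (c (l 16212792) (c (l 16215616) (b (l 16200512) (l 16219816))))))) (c (b (b (l 16080768) (a (b (a (l 16123264) (l 16110528)) (l 16115056)) (l 16135776))) (a (c (b (l 16095792) (l 16187920)) (l 16169928)) (b (b (a (l 16156344) (l 16141720)) (l 16106888)) (c (l 16109936) (l 16188024))))) (b (c (l 16078800) (l 16113744)) (c (l 16114896) (l 16164064)))))) (c (b (b (c (a (c (l 16268448) (l 16275144)) (a (l 16216760) (l 16265272))) (a (l 16272600) (c (a (c (l 16257864) (l 16260800)) (l 16253368)) (a (l 16259472) (b (l 16237464) (l 16267032)))))) (c (a (l 16319496) (c (l 16300880) (a (l 16309104) (l 16298720)))) (l 16311600))) (l 16381152)) (c (a (l 16336048) (l 16325776)) (l 16329080)))), by decide +kernel⟩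

def k24_pm_012 : ∃ t, chk3 f_pm_012 t 27 124 1 = true :=
  ⟨(a (a (c (b (c (a (b (l 16538272) (l 16433448)) (a (l 16424392) (l 16368472))) (a (b (l 16534056) (b (l 16459752) (l 16397328))) (a (b (l 16537616) (l 16413632)) (c (l 16402176) (l 16458424))))) (b (a (l 16345568) (a (c (l 16359704) (l 16301256)) (c (l 16257080) (c (l 16318912) (l 16282816))))) (l 16270560))) (b (a (b (l 16514576) (b (l 16468816) (l 16363952))) (a (b (l 16518176) (l 16420592)) (b (l 16519568) (l 16422768)))) (a (l 16377248) (b (b (a (l 16352208) (l 16310784)) (l 16329256)) (l 16320776))))) (c (b (c (l 16347176) (c (l 16401744) (l 16479152))) (b (c (b (l 16228488) (l 16247784)) (c (b (l 16289456) (l 16265632)) (b (l 16281296) (l 16269872)))) (l 16269400))) (b (c (l 16416832) (l 16414744)) (b (c (b (l 16262144) (l 16277984)) (b (l 16256288) (l 16271528))) (l 16258296))))) (a (c (b (c (l 16357040) (c (l 16369944) (l 16447768))) (b (c (a (l 16139152) (l 16258416)) (b (l 16287096) (c (l 16204776) (l 16040848)))) (a (l 16208272) (c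 (l 16099456) (c (l 16160080) (l 16155088)))))) (b (c (l 16385432) (l 16383496)) (b (b (l 16293176) (a (l 16155672) (l 16201592))) (a (l 16194760) (c (l 16164648) (l 16155928)))))) (c (b (c (b (b (c (a (l 16481400) (l 16418184)) (a (l 16510056) (l 16411168))) (l 16563944)) (l 16431560)) (c (l 16322000) (l 16400288))) (b (c (l 16253952) (l 16066912)) (c (b (a (l 16137344) (l 16109416)) (a (l 16114600) (l 16063552))) (c (b (l 16100552) (l 16072104)) (b (a (l 16110112) (l 16082544)) (l 16020984)))))) (b (c (l 16338136) (l 16336392)) (a (b (l 16244144) (b (b (l 16124200) (l 16099448)) (l 16087752))) (b (l 16234632) (b (l 16083464) (b (l 16034040) (l 16022256))))))))), by decide +kernel⟩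

def k25_pm_012 : ∃ t, chk3 f_pm_012 t 27 125 1 = true :=
  ⟨(c (a (a (c (l 16341128) (l 16307288)) (l 16253184)) (c (l 16136248) (l 16055880))) (a (a (c (c (l 16194064) (l 16322992)) (l 16320192)) (c (l 16216848) (l 16235800))) (c (c (b (l 16109136) (l 16102880)) (l 16108400)) (l 16102504)))), by decide +kernel⟩

def k26_pm_012 : ∃ t, chk3 f_pm_012 t 27 63 1 = true :=
  ⟨(c (a (a (a (l 16320568) (l 16231072)) (l 16207144)) (b (l 16120872) (l 16108088))) (a (a (c (b (c (l 16289704) (b (l 16249312) (l 16278952))) (l 16217784)) (b (a (l 16316472) (l 16228336)) (c (a (l 16291648) (b (l 16224192) (l 16206872))) (b (l 16236248) (a (l 16282408) (a (l 16218928) (l 16187232))))))) (c (b (c (l 16211968) (l 16146680)) (l 16177704)) (b (l 16203312) (c (l 16170256) (b (l 16176072) (l 16156784)))))) (c (b (b (c (l 16103368) (l 16096296)) (l 16098872)) (l 16092656)) (b (l 15944008) (c (b (l 16085792) (l 16081888)) (b (l 16080152) (c (l 16077416) (l 16075632)))))))), by decide +kernel⟩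

def k27_pm_012 : ∃ t, chk3 f_pm_012 t 7 2 1 = true :=
  ⟨(a (b (b (c (a (l 16127920) (l 15757960)) (a (l 16105128) (l 15722192))) (a (b (l 16078152) (l 15812464)) (b (c (l 15718624) (l 15681504)) (c (a (l 15763000) (l 15598104)) (l 15600944))))) (a (b (c (l 15821248) (l 15896232)) (b (c (l 15761304) (l 15725640)) (c (a (l 15788648) (l 15527224)) (l 15621888)))) (b (c (a (l 15605960) (l 15489560)) (l 15367656)) (c (b (l 15442024) (l 15404808)) (b (l 15395512) (l 15357176)))))) (b (b (a (c (l 15582536) (l 15541520)) (c (a (l 15559256) (l 15547272)) (a (l 15518824) (l 15507480)))) (a (b (c (l 15509832) (l 15510104)) (c (a (l 15541416) (l 15488352)) (l 15476936))) (b (c (a (b (l 15532200) (l 15513744)) (b (l 15508768) (l 15472264))) (a (l 15476248) (b (l 15468096) (l 15432640)))) (c (a (l 15432920) (l 15381912)) (a (l 15398920) (l 15345152)))))) (a (b (c (a (l 15435496) (l 15368392)) (l 15364104)) (c (a (c (l 15357240) (l 15342888)) (b (l 15278144) (l 15241104))) (b (l 15285552) (l 15256704)))) (b (c (a (l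 15124840) (b (l 15271640) (l 15169784))) (a (l 15272536) (a (l 15211008) (l 14975888)))) (c (a (b (l 15177712) (a (l 15150256) (l 15070248))) (b (l 15073976) (l 14923816))) (a (b (l 15172336) (l 15114912)) (c (a (l 15041544) (l 14975960)) (a (l 15041312) (l 14964992))))))))), by decide +kernel⟩

def k28_pm_012 : ∃ t, chk3 f_pm_012 t 14 6 1 = true :=
  ⟨(b (a (b (a (c (l 15690408) (l 15652264)) (c (l 15465008) (l 15419096))) (a (c (l 15628752) (l 15588504)) (c (l 15455144) (l 15409072)))) (c (b (l 15393984) (a (l 15411216) (l 15392264))) (b (l 15346176) (l 15354272)))) (a (b (c (a (l 15677832) (l 15486280)) (a (l 15639664) (l 15485144))) (a (c (l 15873320) (l 15842928)) (c (l 15718080) (l 15682520)))) (b (c (a (l 15489256) (b (l 15432168) (l 15525208))) (a (l 15445152) (l 15434136))) (c (a (l 15688624) (b (l 15623568) (l 15722936))) (a (l 15652336) (l 15633704)))))), by decide +kernel⟩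

def k29_pm_012 : ∃ t, chk3 f_pm_012 t 30 6 1 = true :=
  ⟨(b (c (c (a (b (l 15332376) (a (l 15370904) (l 15312384))) (b (l 15207752) (l 15176744))) (a (l 15325768) (b (l 15223208) (l 15198928)))) (b (a (l 15284424) (l 15198432)) (a (l 15293208) (l 15175992)))) (c (a (b (c (a (b (l 15408928) (l 15489984)) (l 15344520)) (l 15396856)) (c (a (l 15616280) (l 15523880)) (l 15567736))) (b (c (l 15058504) (b (l 15200288) (l 15270696))) (c (l 15274848) (a (l 15450064) (l 15353880))))) (b (a (b (l 15323928) (l 15405032)) (l 15215824)) (a (l 15537856) (l 15386264))))), by decide +kernel⟩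

def k30_pm_012 : ∃ t, chk3 f_pm_012 t 31 6 1 = true :=
  ⟨(b (c (a (b (c (a (l 15076488) (l 14985456)) (l 15054216)) (c (a (l 15017632) (l 14921296)) (l 15000288))) (b (c (l 14916128) (l 14901480)) (a (c (l 14854064) (l 14853248)) (c (l 14835280) (l 14825936))))) (a (b (l 15059408) (l 14991072)) (a (c (b (l 14927992) (l 14871824)) (l 14910032)) (c (b (l 14860216) (l 14806352)) (b (l 14853016) (a (l 14810464) (l 14782224))))))) (c (a (b (b (c (a (l 15004208) (c (l 14898360) (l 14908440))) (l 14991304)) (c (a (l 15066872) (a (l 14986768) (l 14943064))) (l 14975056))) (a (b (l 15169136) (c (a (l 15258120) (c (l 15203856) (l 15233360))) (l 15304576))) (c (b (a (c (l 15056016) (l 15073456)) (l 15045592)) (a (c (l 15193104) (l 15213552)) (l 15212456))) (b (a (l 15112944) (l 14974456)) (a (l 15258320) (l 15252656)))))) (b (a (c (b (a (l 14843208) (l 14805528)) (a (l 14914992) (l 14927896))) (b (a (l 14856320) (l 14818360)) (a (l 14932256) (l 14923152)))) (b (c (l 14882688) (l 14852992)) (c (l 15024104) (l 14997128))))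 (a (c (b (l 15072264) (a (l 15227896) (l 15267696))) (a (c (l 15155776) (l 15171928)) (l 15179648))) (c (b (l 15194280) (l 15380296)) (b (l 15170520) (l 15359976)))))) (a (b (c (b (l 15017040) (l 15089472)) (l 15044336)) (c (a (b (l 15227640) (l 15340104)) (b (l 15149608) (l 15312040))) (b (l 15184144) (l 15327136)))) (b (a (c (b (l 14863544) (a (l 14969840) (l 14945344))) (b (l 14879808) (l 14984000))) (c (b (a (l 14812656) (l 14844752)) (l 14982816)) (a (b (l 14822744) (l 14969704)) (c (l 14909336) (l 14910224))))) (a (c (b (l 15117824) (l 15203840)) (l 15243088)) (c (a (c (l 15219768) (l 15227728)) (l 15280152)) (a (c (l 15248112) (l 15263872)) (c (l 15270688) (l 15066976))))))))), by decide +kernel⟩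

def k31_pm_012 : ∃ t, chk3 f_pm_012 t 14 14 1 = true :=
  ⟨(a (b (a (c (l 16111680) (l 16090752)) (c (a (l 15980256) (l 15922304)) (l 15799144))) (a (b (l 16241200) (l 16385248)) (b (a (l 16188384) (l 16097600)) (a (l 16340368) (l 16296208))))) (b (c (a (b (l 15859048) (l 15974096)) (l 15875832)) (a (l 15885736) (l 15846952))) (c (a (l 16063144) (b (l 16060600) (l 16244664))) (b (l 15997584) (l 16204864))))), by decide +kernel⟩

def k32_pm_012 : ∃ t, chk3 f_pm_012 t 28 30 2 = true :=
  ⟨(a (c (b (l 16218672) (b (c (l 16305936) (l 16342192)) (b (l 16273744) (b (a (b (l 16260104) (a (c (l 16243584) (l 16250128)) (l 16296968))) (l 16388480)) (b (a (a (l 16317320) (c (l 16306592) (l 16319936))) (a (l 16338056) (l 16413520))) (a (a (l 16313024) (l 16393896)) (a (b (l 16343184) (l 16394160)) (l 16336888)))))))) (b (l 16342896) (b (l 16335520) (b (l 16300872) (b (a (b (l 16220320) (a (a (b (l 16179496) (l 16216136)) (l 16173480)) (a (l 16242824) (l 16266760)))) (l 16354392)) (a (a (b (c (l 16290104) (a (l 16286168)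 (l 16274520))) (c (c (l 16412696) (l 16345296)) (b (l 16272944) (c (l 16395736) (l 16388968))))) (c (b (l 16223864) (l 16382192)) (b (b (l 16258856) (l 16283736)) (a (l 16374896) (l 16356296))))) (b (a (a (l 16267952) (l 16331712)) (l 16383224)) (a (b (c (l 16343360) (l 16328432)) (c (l 16384456) (l 16362088))) (b (l 16380992) (a (l 16278944) (l 16405152))))))))))) (a (b (l 16525744) (c (b (l 16535624) (l 16460120)) (l 16481592))) (b (l 16437168) (c (b (l 16537272) (l 16499384)) (l 16549176))))), by decide +kernel⟩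

def k33_pm_012 : ∃ t, chk3 f_pm_012 t 56 124 4 = true :=
  ⟨(b (a (c (b (b (a (l 16496160) (l 16476472)) (a (c (l 16559368) (l 16567616)) (c (l 16571856) (l 16575840)))) (b (a (l 16489264) (l 16366592)) (l 16397560))) (b (a (b (c (l 16503224) (l 16506912)) (l 16577008)) (b (l 16509408) (c (l 16579848) (l 16584928)))) (l 16430312))) (b (a (b (l 16470952) (c (l 16566960) (b (l 16558800) (l 16568728)))) (b (b (l 16388120) (l 16474664)) (l 16548904))) (c (a (b (c (l 16517064) (l 16517528)) (l 16358912)) (b (l 16398736) (c (l 16356608) (l 16357520)))) (a (b (c (l 16514472) (l 16508376)) (l 16398496)) (a (b (l 16472040) (l 16417600)) (b (l 16518664) (l 16289904))))))) (b (a (l 16245104) (l 16194896)) (a (b (l 16100264) (a (l 16016352) (l 15995464))) (l 16047912)))), by decide +kernel⟩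

def k34_pm_012 : ∃ t, chk3 f_pm_012 t 57 124 4 = true :=
  ⟨(a (b (b (a (b (a (l 16421344) (l 16489184)) (b (l 16459680) (l 16549264))) (b (l 16532144) (a (l 16505192) (l 16550576)))) (a (b (l 16385184) (c (c (l 16406832) (l 16362472)) (c (l 16338256) (l 16356808)))) (b (c (l 16584384) (l 16599920)) (c (l 16494896) (b (l 16508824) (l 16419528)))))) (b (b (b (a (c (a (l 16378624) (l 16384944)) (l 16290792)) (c (l 16353968) (a (l 16387184) (l 16393624)))) (a (c (l 16309200) (l 16306472)) (c (a (l 16325320) (l 16350152)) (a (l 16335360) (l 16329344))))) (a (l 16229096) (b (c (a (l 16282600) (l 16285464)) (l 16285056)) (l 16225504)))) (l 15859440))) (b (b (l 16593840) (a (b (a (b (l 16576360) (l 16596768)) (l 16592280)) (a (l 16457952) (b (l 16601000) (l 16540168)))) (b (l 16587616) (a (b (l 16589536) (l 16601448)) (l 16595440))))) (b (a (a (b (c (l 16404120) (a (l 16335376) (l 16348256))) (c (b (a (l 16309936) (l 16315512)) (a (l 16257320) (l 16185568))) (b (a (l 16307888) (l 16232272)) (l 16244880)))) (b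 (c (l 16457864) (l 16444944)) (c (b (l 16361136) (l 16202056)) (c (l 16247768) (l 16224072))))) (b (a (l 16470768) (l 16429376)) (c (a (l 16350472) (l 16465656)) (a (b (l 16415600) (l 16278232)) (l 16404080))))) (a (a (l 16035904) (c (b (b (l 16195016) (l 16188352)) (l 16098536)) (l 16148480))) (c (b (a (b (l 16192456) (l 16265528)) (c (l 16264960) (l 16288792))) (c (l 16169288) (l 16205016))) (b (a (b (l 16212152) (l 16249488)) (b (l 16289832) (l 16284136))) (l 16198648))))))), by decide +kernel⟩

def k35_pm_012 : ∃ t, chk3 f_pm_012 t 56 248 5 = true :=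
  ⟨(b (b (a (c (a (c (l 16453992) (l 16424200)) (c (l 16484672) (b (l 16450048) (l 16492384)))) (a (c (b (l 16437168) (l 16493824)) (l 16469096)) (b (c (l 16441000) (l 16433816)) (c (l 16477696) (l 16454032))))) (a (c (l 16474960) (b (l 16418448) (a (l 16479656) (l 16471056)))) (b (c (l 16382424) (l 16400688)) (c (l 16474192) (l 16448888))))) (c (a (a (l 16567504) (c (l 16564728) (l 16565432))) (c (a (l 16504408) (l 16572696)) (a (l 16457536) (l 16556240)))) (a (l 16563552) (a (c (b (l 16522248) (l 16564624)) (b (l 16515280) (l 16568168))) (b (l 16511144) (c (l 16564496) (l 16558592))))))) (a (c (l 16421576) (l 16438712)) (c (b (c (a (l 16498232) (l 16428272)) (a (l 16496736) (b (l 16550040) (l 16501448)))) (a (l 16385264) (l 16404464))) (b (a (l 16513560) (c (b (l 16572712) (l 16516224)) (b (l 16577504) (l 16510272)))) (l 16413016))))), by decide +kernel⟩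

def k36_pm_012 : ∃ t, chk3 f_pm_012 t 57 248 5 = true :=
  ⟨(a (b (a (b (c (a (l 16418200) (l 16485400)) (a (l 16435768) (l 16461656))) (c (l 16381296) (b (l 16454448) (l 16530848)))) (b (l 16524064) (a (c (l 16532888) (l 16505520)) (b (l 16538840) (l 16421224))))) (a (c (c (b (l 16530640) (b (l 16436752) (l 16413840))) (b (l 16475832) (b (l 16466392) (l 16408208)))) (b (c (b (l 16591720) (l 16536528)) (b (l 16590216) (l 16545144))) (b (c (l 16490760) (l 16493856)) (l 16421472)))) (c (b (b (l 16582944) (l 16557784)) (b (l 16488616) (c (l 16427840) (l 16367312)))) (b (a (c (l 16595520) (l 16596432)) (l 16574184)) (c (b (l 16506960) (l 16372712)) (b (l 16513248) (a (l 16456224) (l 16471720)))))))) (b (l 16589864) (b (a (a (c (l 16499656) (b (l 16561056) (l 16585552))) (b (l 16585328) (c (l 16606040) (l 16575800)))) (l 16592736)) (c (a (a (l 16500952) (l 16512320)) (a (l 16551200) (l 16608912))) (a (a (a (l 16441448) (l 16528360)) (b (l 16603624) (l 16539928))) (a (a (l 16581288) (l 16591504)) (a (l 16586776)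 (l 16584624)))))))), by decide +kernel⟩

def k37_pm_012 : ∃ t, chk3 f_pm_012 t 28 249 5 = true :=
  ⟨(a (a (b (c (l 16221224) (l 16226808)) (b (l 16073856) (a (c (l 15992352) (l 15982392)) (l 15966648)))) (c (l 16045280) (l 15919120))) (a (a (c (l 16106968) (l 16002000)) (b (b (c (b (c (l 16384728) (l 16341872)) (c (l 16329720) (l 16312336))) (b (a (l 16384832) (c (l 16408024) (l 16410920))) (l 16330952))) (l 16210784)) (l 15904840))) (a (b (c (c (b (a (b (l 16403912) (l 16351488)) (l 16421048)) (a (l 16263280) (l 16239416))) (a (b (b (l 16396576) (l 16306832)) (l 16249584)) (b (l 16329288) (l 16250792)))) (a (b (b (c (l 16377304) (l 16371672)) (c (l 16362544) (l 16366560))) (l 16259640)) (b (b (c (l 16467384) (l 16473120)) (c (l 16407288) (l 16404448))) (c (l 16314000) (l 16323632))))) (c (l 15913296) (a (l 16068376) (l 16123752)))) (b (a (b (c (l 16490008) (b (l 16538120) (c (l 16463432) (l 16455096)))) (c (c (l 16314368) (b (l 16393952) (l 16347072))) (b (c (l 16409320) (l 16408712)) (l 16348784))))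 (c (b (l 16553456) (b (l 16460848) (l 16342520))) (b (b (l 16599944) (l 16536872)) (c (l 16278344) (b (l 16459064) (l 16412528)))))) (b (a (l 16215984) (c (c (l 16321328) (l 16327520)) (l 16324680))) (l 16008056)))))), by decide +kernel⟩

def k38_pm_012 : ∃ t, chk3 f_pm_012 t 28 125 2 = true :=
  ⟨(b (a (b (a (a (l 15981552) (b (c (l 15897792) (c (l 15916944) (l 15900976))) (l 15917896))) (c (b (a (b (l 15917976) (l 15877256)) (l 15889304)) (a (l 15869944) (b (l 15816168) (l 15803424)))) (b (a (b (l 15887096) (l 15788272)) (l 15864824)) (a (l 15842712) (b (l 15724864) (l 15774080)))))) (l 15893976)) (a (b (c (a (b (l 15892608) (b (l 15808040) (l 15756176))) (l 15844184)) (a (b (l 15868120) (b (l 15779408) (l 15704952))) (l 15797648))) (b (b (c (a (l 15739872) (l 15656056)) (a (l 15708984) (l 15666296))) (a (l 15722248) (c (a (l 15686448) (l 15657768)) (l 15644056)))) (l 15696216))) (b (a (c (a (l 15772504) (l 15914088)) (a (c (l 15833920) (l 15816056)) (l 15784664))) (c (l 15800968) (c (l 16011200) (l 15994112))))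 (b (a (a (c (a (l 15668880) (l 15674224)) (a (l 15637056) (l 15642616))) (c (l 15734080) (l 15703136))) (c (l 15860312) (l 15831240))) (b (a (a (a (l 15609416) (c (l 15615224) (l 15582624))) (c (l 15654632) (l 15622576))) (c (l 15664768) (l 15697464))) (a (l 15620248) (c (a (l 15701096) (l 15764080)) (a (l 15670680) (l 15734568))))))))) (a (l 15911456) (a (l 15728344) (a (a (l 15646328) (l 15665736)) (b (b (a (l 15686832) (c (l 15693160) (l 15727440))) (l 15727400)) (l 15751280)))))), by decide +kernel⟩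

def k39_pm_012 : ∃ t, chk3 f_pm_012 t 28 63 2 = true :=
  ⟨(a (b (l 15949416) (l 15994520)) (a (b (l 15808040) (l 15908328)) (a (a (c (l 15818096) (a (l 15804968) (l 15797104))) (c (l 15839344) (l 15759392))) (c (b (l 15836040) (l 15976560)) (b (l 15817640) (l 15836688)))))), by decide +kernel⟩

def k40_pm_012 : ∃ t, chk3 f_pm_012 t 56 60 3 = true :=
  ⟨(l 16295016), by decide +kernel⟩

def k41_pm_012 : ∃ t, chk3 f_pm_012 t 56 122 3 = true :=
  ⟨(l 16326840), by decide +kernel⟩

def k42_pm_012 : ∃ t, chk3 f_pm_012 t 56 246 3 = true :=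
  ⟨(l 16291080), by decide +kernel⟩

def k43_pm_012 : ∃ t, chk3 f_pm_012 t 56 494 3 = true :=
  ⟨(a (b (l 16207392) (b (a (c (a (l 16170696) (a (l 16188752) (l 16198440))) (c (l 16142744) (l 16073448))) (l 16237640)) (a (c (a (c (l 16206728) (b (l 16190944) (l 16215864))) (b (l 16197728) (l 16208560))) (c (a (c (l 16196248) (l 16202584)) (c (l 16202944) (l 16098928))) (a (l 16191432) (l 16131280)))) (a (a (c (l 16220824) (c (l 16204504) (l 16214136))) (l 16225984)) (l 16252144))))) (l 16343936)), by decide +kernel⟩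

def k44_pm_012 : ∃ t, chk3 f_pm_012 t 112 495 3 = true :=
  ⟨(c (a (b (a (c (b (l 16257296) (l 16283848)) (c (b (l 16257080) (c (l 16295664) (l 16293072))) (b (b (l 16241184) (l 16258736)) (a (l 16299112) (b (l 16279312) (l 16308432)))))) (c (b (l 16246680) (l 16301984)) (c (b (l 16243776) (l 16297392)) (c (b (l 16242376) (l 16291848)) (b (l 16219200) (b (l 16278968) (l 16298344))))))) (c (c (b (l 16345904) (l 16386184)) (b (a (l 16343080) (l 16340728)) (l 16394776))) (a (l 16371008) (b (c (c (l 16336632) (l 16335912)) (c (c (l 16339000) (l 16340808)) (l 16340288))) (l 16390640))))) (a (b (b (b (l 16232056) (l 16246520)) (c (l 16287264) (c (l 16284768) (b (l 16270520) (l 16300480))))) (c (b (l 16344936) (c (l 16388584) (l 16380944))) (c (b (l 16337072) (b (l 16366328) (l 16397616))) (b (b (l 16319928) (a (l 16347968) (l 16339576))) (l 16383880))))) (b (a (c (l 16266448) (b (l 16249504) (l 16274248))) (b (l 16261576) (l 16277552))) (b (c (l 16328240) (c (l 16329928) (b (l 16314128) (l 16340992)))) (c (l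 16365632) (c (c (l 16378960) (l 16375024)) (c (b (l 16361952) (l 16384576)) (b (l 16358504) (l 16388568))))))))) (a (b (c (c (b (c (a (l 16189112) (l 16253432)) (l 16198360)) (c (l 16164424) (l 16269672))) (l 16170768)) (l 16254872)) (l 16364864)) (b (b (c (c (l 16231472) (c (l 16172272) (l 16231120))) (c (l 16226304) (l 16240752))) (c (a (c (l 16180792) (l 16274032)) (b (l 16221760) (l 16212264))) (a (l 16269800) (c (l 16264376) (l 16261280))))) (c (c (b (a (l 16225224) (c (l 16259496) (l 16295360))) (l 16248768)) (l 16272000)) (l 16340240))))), by decide +kernel⟩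

def k45_pm_012 : ∃ t, chk3 f_pm_012 t 113 495 3 = true :=
  ⟨(b (a (a (b (l 16284264) (c (c (l 16295280) (b (l 16288416) (l 16291192))) (c (l 16235800) (l 16248496)))) (l 16318016)) (l 16371000)) (b (a (c (a (c (l 16316384) (b (l 16302016) (l 16328232))) (b (l 16325864) (l 16328584))) (c (a (b (a (l 16295856) (l 16263208)) (c (l 16303424) (l 16330464))) (l 16247368)) (c (l 16189976) (l 16289936)))) (l 16366928)) (a (c (a (c (l 16369488) (c (l 16373776) (b (l 16357952) (l 16380728)))) (b (l 16321688) (c (l 16371288) (l 16310632)))) (c (a (c (c (l 16274128) (l 16332040)) (l 16349944)) (b (a (l 16310816) (l 16274784)) (c (l 16316976) (l 16365944)))) (c (a (l 16351136) (l 16294920)) (l 16340320)))) (a (c (a (l 16355960) (l 16367776)) (c (l 16280120) (c (l 16360520) (l 16353800)))) (l 16382000))))), by decide +kernel⟩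

def k46_pm_012 : ∃ t, chk3 f_pm_012 t 57 30 3 = true :=
  ⟨(a (l 16408592) (l 16416696)), by decide +kernel⟩

def k47_pm_012 : ∃ t, chk3 f_pm_012 t 112 248 3 = true :=
  ⟨(c (b (a (l 16515864) (b (c (c (b (a (l 16430912) (l 16428584)) (c (l 16480832) (l 16484048))) (b (a (l 16436216) (l 16422312)) (l 16483520))) (b (c (c (a (l 16435520) (l 16424440)) (l 16431800)) (l 16431088)) (l 16482464))) (l 16559216))) (l 16438712)) (l 16309512)), by decide +kernel⟩

def k48_pm_012 : ∃ t, chk3 f_pm_012 t 113 496 3 = true :=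
  ⟨(b (b (c (a (c (a (l 16364456) (l 16414016)) (c (a (c (l 16418848) (l 16415256)) (l 16416096)) (a (c (b (l 16402128) (l 16430216)) (b (l 16400232) (l 16431728))) (b (l 16399872) (c (l 16422728) (l 16418864)))))) (a (c (l 16395704) (b (l 16380048) (c (l 16410576) (l 16412208)))) (a (l 16371480) (l 16401576)))) (a (c (c (a (l 16331704) (c (c (l 16311072) (l 16329792)) (l 16348936))) (l 16351056)) (l 16400896)) (c (a (b (a (l 16283728) (a (l 16373184) (l 16312200))) (c (l 16309912) (l 16381328))) (c (l 16358800) (c (l 16395072) (l 16378568)))) (c (a (l 16333096) (l 16373984)) (l 16320648))))) (a (c (c (c (a (l 16469120) (l 16470528)) (a (l 16465256) (l 16464360))) (a (l 16471784) (c (c (l 16459176) (l 16456496)) (a (l 16464512) (b (l 16440928) (l 16472808)))))) (l 16464872)) (c (c (a (l 16459360) (l 16440248)) (b (a (a (l 16421576) (l 16437848)) (l 16357112)) (c (a (l 16467984) (l 16452000)) (a (c (l 16462672) (l 16459464)) (l 16456104))))) (c (c (a (c (b (l 16338984) (l 16375704)) (l 16367136)) (c (l 16369288)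 (l 16404048))) (l 16311096)) (l 16391544))))) (b (c (c (a (a (l 16525312) (c (l 16510656) (l 16510136))) (a (c (l 16511720) (l 16504560)) (l 16503160))) (a (l 16520304) (c (a (c (l 16500400) (l 16499112)) (c (l 16499264) (l 16496432))) (a (b (c (l 16487080) (l 16491512)) (l 16519112)) (c (b (l 16482512) (l 16503216)) (b (l 16479064) (l 16501416))))))) (c (a (l 16519232) (a (l 16504464) (c (c (b (l 16355376) (l 16481208)) (l 16407696)) (l 16431896)))) (l 16508496))) (c (a (l 16573672) (c (c (a (l 16553608) (l 16552432)) (a (l 16557288) (l 16545216))) (a (l 16560440) (b (c (l 16529176) (c (l 16532928) (l 16534992))) (l 16563312))))) (l 16564064)))), by decide +kernel⟩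

def k49_pm_012 : ∃ t, chk3 f_pm_012 t 113 497 3 = true :=
  ⟨(c (b (c (a (l 16513440) (b (c (a (l 16559000) (l 16581296)) (l 16565816)) (l 16509416))) (l 16523808)) (l 16413008)) (l 16402760)), by decide +kernel⟩

def k50_pm_012 : ∃ t, chk3 f_pm_012 t 56 249 3 = true :=
  ⟨(a (b (c (l 16233288) (l 16225904)) (b (l 16074264) (a (b (l 15998824) (l 15905488)) (l 15961736)))) (c (l 15883880) (l 15958496))), by decide +kernel⟩

def k51_pm_012 : ∃ t, chk3 f_pm_012 t 56 125 3 = true :=
  ⟨(b (b (b (a (a (l 15956256) (c (l 15888072) (l 15896040))) (a (c (b (l 15887048) (l 15843984)) (l 15850344)) (l 15850424))) (a (l 15925128) (c (a (l 15834248) (b (l 15779632) (l 15765152))) (a (l 15820848) (l 15679408))))) (l 15818920)) (c (c (l 15883240) (l 15884960)) (l 15876480))), by decide +kernel⟩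

def k52_pm_012 : ∃ t, chk3 f_pm_012 t 114 496 3 = true :=
  ⟨(a (c (b (b (a (c (l 16423520) (b (l 16416784) (l 16420768))) (l 16452704)) (b (a (l 16426864) (l 16450792)) (c (l 16450480) (a (l 16436536) (l 16454912))))) (a (b (c (l 16480824) (c (l 16479720) (a (b (l 16468264) (l 16500184)) (l 16474696)))) (c (l 16545784) (c (c (l 16540088) (l 16536656)) (c (b (l 16522832) (l 16544896)) (b (l 16519128) (l 16545128)))))) (b (c (l 16470840) (b (l 16459520) (l 16475312))) (c (l 16521824) (a (b (l 16512272) (l 16541864)) (b (l 16501776) (l 16534352))))))) (c (b (c (l 16369704) (c (c (l 16449000) (l 16372680)) (l 16349456))) (a (c (b (c (a (l 16395312) (l 16492184)) (a (l 16410344) (l 16442888))) (b (c (a (l 16522832) (l 16515280)) (l 16498720)) (l 16549760))) (b (l 16412224) (l 16518032))) (b (c (l 16404288) (a (b (l 16451680) (l 16466424)) (l 16469320))) (c (c (a (b (l 16513000) (l 16535552)) (l 16506584)) (l 16465808)) (l 16470936))))) (b (c (l 16345152) (l 16380552)) (b (a (l 16428088) (c (l 16381208) (l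 16461056))) (l 16516184))))) (b (l 16503632) (a (a (b (b (l 16473416) (c (l 16481080) (c (c (l 16477224) (l 16466184)) (l 16457688)))) (c (b (l 16493136) (l 16524152)) (c (b (c (l 16490616) (l 16485312)) (c (l 16524400) (l 16523192))) (c (l 16493856) (l 16494864))))) (b (l 16490848) (c (l 16507824) (c (c (l 16510216) (c (l 16483896) (l 16509240))) (c (l 16505008) (l 16499912)))))) (a (b (l 16508944) (b (l 16507080) (c (l 16515768) (c (c (l 16512696) (l 16521048)) (l 16513824))))) (l 16525840))))), by decide +kernel⟩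

def k53_pm_012 : ∃ t, chk3 f_pm_012 t 114 497 3 = true :=
  ⟨(c (a (b (c (c (b (a (l 16591192) (l 16586416)) (a (l 16537592) (l 16553664))) (b (a (l 16586672) (l 16585040)) (a (l 16531768) (l 16558272)))) (c (b (a (b (l 16572200) (l 16575352)) (b (l 16567992) (l 16589032))) (a (l 16531288) (c (l 16554200) (l 16549144)))) (b (a (l 16589840) (c (b (l 16563048) (l 16588128)) (b (l 16559784) (l 16439480)))) (l 16539576)))) (l 16451448)) (b (a (c (b (l 16563200) (c (l 16562544) (l 16566080))) (a (c (b (l 16572696) (l 16570632)) (b (b (l 16555856) (l 16580640)) (c (l 16568896) (l 16563816)))) (b (b (l 16542960) (l 16577376)) (c (l 16574456) (b (l 16592440) (l 16563776)))))) (b (b (l 16477520) (a (l 16564816) (l 16557840))) (c (l 16589984) (a (c (l 16580256) (b (l 16597400) (l 16573968))) (b (l 16584288) (l 16578224)))))) (a (c (b (c (l 16515616) (l 16517864)) (l 16448312)) (l 16477264)) (c (c (b (l 16523720) (l 16455792)) (b (l 16528936) (b (l 16490568) (l 16452336)))) (b (c (b (l 16546808) (l 16500816)) (b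 (a (l 16542320) (l 16555328)) (l 16513512))) (l 16466720)))))) (a (c (b (c (a (l 16559976) (a (l 16573800) (b (c (l 16424112) (l 16552304)) (l 16553296)))) (l 16568808)) (l 16448840)) (l 16507752)) (b (c (a (c (c (b (c (b (l 16551640) (l 16575968)) (l 16474560)) (l 16470176)) (b (l 16471504) (l 16568848))) (b (l 16488528) (l 16568600))) (b (c (b (l 16472672) (l 16457128)) (b (c (l 16530312) (l 16514336)) (l 16568720))) (c (c (b (a (l 16594224) (l 16586360)) (a (l 16574200) (l 16582872))) (b (l 16541712) (l 16598088))) (l 16527920)))) (a (l 16539584) (b (c (b (l 16510408) (l 16557544)) (l 16535928)) (l 16594704)))) (c (c (c (l 16345256) (l 16486200)) (l 16485656)) (l 16484568))))), by decide +kernel⟩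

def k54_pm_012 : ∃ t, chk3 f_pm_012 t 114 249 3 = true :=
  ⟨(c (c (l 16064392) (l 16060064)) (c (l 16055680) (l 16051248))), by decide +kernel⟩

def k55_pm_012 : ∃ t, chk3 f_pm_012 t 115 496 3 = true :=
  ⟨(l 16570752), by decide +kernel⟩

def k56_pm_012 : ∃ t, chk3 f_pm_012 t 115 994 3 = true :=
  ⟨(a (c (b (a (c (l 16560344) (a (l 16550816) (a (l 16559376) (l 16561128)))) (l 16565184)) (a (c (l 16583752) (b (l 16570296) (a (l 16595272) (l 16593616)))) (b (a (l 16568464) (l 16564816)) (l 16575344)))) (a (c (c (a (b (l 16520896) (c (l 16587032) (l 16594304))) (c (a (l 16576776) (l 16583584)) (l 16576720))) (b (l 16543560) (a (l 16596440) (b (l 16571016) (l 16595080))))) (c (b (l 16459104) (a (l 16586520) (b (l 16570664) (l 16593528)))) (b (l 16557344) (l 16552872)))) (c (c (l 16543240) (l 16578536)) (c (l 16579088) (l 16572760))))) (l 16571752)), by decide +kernel⟩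

def k57_pm_012 : ∃ t, chk3 f_pm_012 t 115 995 3 = true :=
  ⟨(b (a (a (c (c (c (l 16555456) (l 16549552)) (c (a (l 16542312) (l 16557792)) (a (b (l 16559888) (l 16536464)) (b (l 16576800) (l 16542960))))) (c (c (a (b (c (l 16564568) (l 16583888)) (l 16530632)) (c (b (l 16573408) (l 16547656)) (a (l 16552168) (l 16510888)))) (a (l 16564720) (c (l 16470288) (l 16576024)))) (l 16477944))) (b (c (a (l 16602800) (l 16577168)) (c (c (l 16581904) (a (l 16593392) (l 16576328))) (a (l 16590528) (l 16572744)))) (c (c (l 16589312) (a (l 16570856) (l 16603896))) (c (c (c (l 16529680) (l 16578760)) (l 16565280)) (l 16592016))))) (a (c (a (l 16578560) (b (l 16568096) (l 16573760))) (c (c (l 16586096) (l 16579728)) (c (l 16580856) (l 16575152)))) (l 16571016))) (a (a (c (c (c (l 16423600) (a (l 16489520) (l 16474408))) (c (a (l 16491584) (l 16501992)) (a (l 16483168) (b (l 16518872) (l 16480712))))) (l 16488168)) (c (a (c (l 16519208) (c (l 16522416) (b (l 16540128) (l 16515448)))) (c (l 16557800) (c (l 16551400) (b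 (l 16568904) (l 16540928))))) (c (c (c (a (b (l 16544528) (l 16508920)) (b (l 16568752) (l 16544768))) (b (l 16465008) (l 16483296))) (l 16431768)) (l 16526320)))) (a (c (c (l 16605648) (a (b (l 16602928) (l 16568000)) (b (l 16581744) (l 16602128)))) (c (a (c (c (l 16575192) (l 16581688)) (l 16588200)) (b (l 16498072) (c (l 16584848) (l 16597856)))) (c (a (l 16594024) (l 16586608)) (l 16596992)))) (c (a (b (l 16575568) (l 16585848)) (b (l 16571408) (l 16577400))) (c (c (l 16588336) (c (l 16583784) (l 16587776))) (c (l 16584104) (l 16578904))))))), by decide +kernel⟩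

def k58_pm_012 : ∃ t, chk3 f_pm_012 t 115 249 3 = true :=
  ⟨(c (b (a (b (a (c (b (b (c (l 16429960) (l 16448784)) (l 16412312)) (l 16364704)) (l 16394176)) (c (c (b (l 16434784) (l 16426240)) (b (c (l 16481024) (l 16483848)) (l 16416464))) (b (c (b (l 16457720) (c (l 16465824) (l 16462528))) (a (l 16461464) (b (l 16515424) (l 16478088)))) (l 16414880)))) (l 16210968)) (b (a (b (c (a (l 16519064) (l 16557376)) (c (a (l 16524664) (l 16550624)) (a (b (l 16541920) (l 16515304)) (b (l 16567112) (l 16543072))))) (c (c (l 16459968) (a (l 16472416) (l 16498648))) (b (c (l 16460048) (c (l 16498208) (l 16494728))) (l 16464608)))) (b (c (l 16604824) (a (c (l 16586696) (b (l 16601384) (l 16567056))) (b (l 16587712) (l 16601048)))) (c (c (l 16537920) (l 16535488)) (c (a (l 16527808) (l 16551664)) (a (b (l 16544344) (l 16514832)) (b (l 16567448) (l 16545712))))))) (c (a (b (c (l 16428440) (l 16420232)) (l 16360064)) (c (b (l 16465032) (l 16430728)) (b (b (l 16480560) (l 16474752)) (l 16425088)))) (a (l 16388040) (b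 (a (l 16467000) (c (b (l 16518160) (l 16483976)) (l 16497920))) (l 16423528)))))) (a (a (l 16076736) (l 16132928)) (l 16158456))) (a (a (l 16007376) (a (l 16107616) (l 16143720))) (b (b (c (a (b (c (c (a (l 16424160) (b (l 16569144) (l 16545128))) (l 16433800)) (l 16494640)) (l 16478384)) (b (a (c (c (l 16579408) (l 16585248)) (l 16590528)) (b (c (l 16587160) (l 16505320)) (c (l 16588944) (l 16600808)))) (c (a (l 16422880) (a (l 16464168) (l 16473280))) (l 16515840)))) (a (l 16508048) (b (c (l 16536312) (l 16603288)) (l 16539976)))) (l 16396896)) (l 16171920)))), by decide +kernel⟩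

def k59_pm_012 : ∃ t, chk3 f_pm_012 t 57 125 3 = true :=
  ⟨(a (b (b (a (b (l 15853120) (c (b (l 15771216) (l 15716264)) (l 15726056))) (c (l 15808352) (l 15794544))) (b (c (a (b (l 15697928) (l 15690024)) (b (l 15591704) (c (l 15628216) (l 15628640)))) (a (l 15687192) (b (l 15639048) (l 15615328)))) (l 15655632))) (c (l 15611360) (l 15684712))) (b (b (a (a (c (l 15820928) (l 15807328)) (c (l 15880368) (l 15867816))) (c (l 15875704) (l 15991144))) (b (a (a (c (c (l 15498552) (l 15624688)) (l 15610456)) (c (l 15685888) (l 15676384))) (c (l 15752888) (l 15808656))) (a (b (a (c (c (l 15572472) (l 15573312)) (l 15559160)) (c (c (l 15604528) (l 15605712)) (l 15591712))) (l 15575904)) (a (c (b (l 15680040) (c (l 15650152) (l 15652704))) (l 15551800)) (c (c (l 15719648) (l 15743560)) (l 15731104)))))) (a (c (c (l 15621056) (l 15620768)) (l 15608720)) (b (b (c (c (l 15575072) (l 15683760)) (a (l 15642272) (l 15695464))) (l 15686712)) (c (l 15713208) (l 15703920)))))), by decide +kernel⟩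

def k60_pm_012 : ∃ t, chk3 f_pm_012 t 28 63 3 = true :=
  ⟨(a (c (b (b (c (l 15912544) (l 15903560)) (l 15937120)) (l 15975624)) (b (b (l 15899840) (l 15923024)) (c (b (l 15951912) (l 15978192)) (b (l 15944944) (c (l 15972912) (l 15970640)))))) (a (c (b (c (l 15781296) (b (l 15742864) (l 15800392))) (l 15886848)) (b (l 15762336) (c (b (l 15847496) (l 15902464)) (b (l 15839504) (c (l 15896600) (l 15893976)))))) (c (b (b (c (l 15728456) (a (a (l 15671848) (l 15690752)) (l 15754384))) (a (a (l 15748888) (l 15767152)) (l 15826120))) (a (a (l 15850496) (l 15873008)) (l 15946440))) (b (a (a (l 15697368) (l 15716232)) (l 15757776)) (a (c (a (b (l 15803560) (l 15872528)) (b (l 15821448) (l 15897976))) (b (a (l 15795144) (l 15813176)) (a (c (l 15866440) (l 15863680)) (c (l 15892040) (l 15889392))))) (c (b (l 15867504) (l 15978352)) (b (l 15880784) (c (l 15972936) (l 15970648))))))))), by decide +kernel⟩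

def k61_pm_012 : ∃ t, chk3 f_pm_012 t 29 30 1 = true :=
  ⟨(c (b (a (b (l 16419520) (l 16489928)) (b (a (l 16400704) (l 16373688)) (c (l 16407752) (l 16467696)))) (c (a (b (c (l 16519024) (l 16537456)) (c (l 16566808) (l 16570448))) (b (c (b (l 16476584) (l 16461784)) (l 16488320)) (c (l 16463304) (c (l 16483880) (l 16433800))))) (a (b (l 16537920) (l 16493568)) (a (b (l 16537008) (l 16446536)) (l 16388304))))) (a (b (l 16447600) (l 16562368)) (b (b (l 16389112) (l 16442096)) (a (l 16522440) (l 16523016))))), by decide +kernel⟩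

def k62_pm_012 : ∃ t, chk3 f_pm_012 t 58 248 2 = true :=
  ⟨(c (l 16614448) (c (l 16616544) (l 16600256))), by decide +kernel⟩

def k63_pm_012 : ∃ t, chk3 f_pm_012 t 58 249 4 = true :=
  ⟨(b (a (b (a (a (b (l 16593560) (l 16603344)) (l 16598792)) (l 16593000)) (a (c (l 16515232) (l 16485408)) (a (b (l 16597808) (l 16603288)) (l 16602256)))) (a (a (b (l 16601512) (l 16600048)) (l 16598472)) (l 16573456))) (b (a (a (a (c (b (l 16443928) (l 16361640)) (b (l 16427432) (l 16281112))) (c (l 16477256) (l 16353744))) (a (l 16509552) (l 16561520))) (a (a (b (l 16602240) (l 16610704)) (l 16551240)) (a (l 16565904) (l 16539632)))) (a (a (c (a (b (l 16238120) (l 16282040)) (b (l 16352256) (l 16292968))) (b (a (l 16334872) (l 16293824)) (l 16308952))) (c (a (b (l 16456480) (l 16365328)) (l 16465144)) (a (c (l 16386976) (l 16366824)) (b (l 16511096) (l 16417528))))) (a (a (l 16415048) (l 16571848)) (a (b (l 16562208) (l 16589448)) (l 16495240)))))), by decide +kernel⟩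

def k64_pm_012 : ∃ t, chk3 f_pm_012 t 58 249 5 = true :=
  ⟨(b (a (a (b (a (c (l 16595184) (a (l 16565856) (l 16604304))) (b (l 16600888) (c (l 16614408) (l 16599384)))) (c (a (l 16468528) (l 16557376)) (b (a (l 16532880) (l 16591936)) (a (c (l 16462160) (l 16442664)) (l 16530792))))) (b (l 16608120) (a (c (l 16600600) (a (l 16539904) (l 16555480))) (b (l 16614088) (c (l 16620944) (l 16615568)))))) (a (a (b (l 16616760) (b (l 16613984) (l 16617544))) (l 16614216)) (l 16588688))) (b (b (a (c (a (a (l 16353144) (l 16469568)) (l 16560328)) (a (a (c (l 16417104) (l 16415920)) (c (l 16465472) (l 16447584))) (a (l 16509656) (l 16589104)))) (a (a (c (l 16624984) (l 16620808)) (l 16588904)) (l 16573656))) (a (c (a (a (l 16289728) (l 16364704)) (a (l 16456360) (l 16540424))) (a (a (l 16360904) (c (l 16423080) (l 16439920))) (a (c (l 16471120) (l 16452672)) (l 16490480)))) (a (c (l 16555600) (a (l 16590720) (l 16611128))) (a (l 16582672) (l 16556424))))) (b (a (c (a (a (l 16310768) (l 16320712)) (a (l 16356088)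 (l 16465864))) (a (l 16336784) (a (c (l 16430472) (l 16442704)) (c (l 16478880) (l 16457800))))) (a (c (l 16582920) (a (c (l 16534352) (l 16546504)) (l 16611504))) (a (c (l 16581704) (l 16585136)) (l 16554632)))) (a (a (l 16265568) (c (a (l 16373048) (l 16369128)) (c (a (l 16372488) (l 16439344)) (l 16414376)))) (a (c (a (l 16437120) (l 16578856)) (a (c (l 16490856) (l 16507120)) (l 16480160))) (a (l 16507536) (c (l 16551448) (l 16558480)))))))), by decide +kernel⟩

def k65_pm_012 : ∃ t, chk3 f_pm_012 t 58 250 2 = true :=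
  ⟨(c (a (b (a (l 15991184) (b (c (a (b (l 16327112) (l 16311272)) (b (l 16400536) (l 16382512))) (a (l 16330584) (b (l 16362216) (l 16370272)))) (l 16268552))) (a (c (l 15951520) (l 15964448)) (a (l 16085616) (l 16164376)))) (b (a (c (b (a (b (l 16477272) (l 16380184)) (l 16490192)) (a (l 16260632) (b (l 16424184) (l 16449120)))) (a (b (c (l 16398576) (l 16379360)) (l 16375240)) (a (b (l 16449624) (l 16440040)) (b (l 16549104) (l 16448648))))) (c (b (l 16585200) (b (l 16445144) (c (l 16461208) (l 16442552)))) (a (b (l 16607688) (b (l 16561800) (l 16532496))) (b (l 16576928) (b (l 16630400) (l 16607416)))))) (a (l 16135024) (a (l 16398048) (b (b (c (l 16581152) (l 16578328)) (l 16542600)) (l 16494312)))))) (a (c (a (b (l 16161224) (l 15951168)) (a (l 16083632) (l 16115464))) (a (b (l 16123960) (l 15928888)) (b (l 16242512) (l 16089040)))) (a (a (b (b (b (c (c (l 16473640) (l 16465208)) (a (l 16433984) (l 16413056))) (l 16421936)) (l 16336648)) (l 16148920)) (b (b (c (b (l 16536776) (c (l 16515104) (l 16505432)))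 (c (b (l 16527152) (l 16492816)) (b (l 16537456) (l 16490032)))) (l 16402928)) (l 16223784))) (b (b (a (c (b (l 16618352) (l 16580384)) (b (l 16538240) (c (l 16570688) (l 16575208)))) (b (l 16518640) (c (l 16605888) (l 16563824)))) (c (a (b (c (l 16560488) (l 16549936)) (l 16515864)) (b (l 16624864) (l 16540112))) (b (a (c (l 16536144) (l 16531184)) (c (l 16615048) (l 16614776))) (l 16538008)))) (c (l 16347240) (l 16370288)))))), by decide +kernel⟩

def k66_pm_012 : ∃ t, chk3 f_pm_012 t 58 251 2 = true :=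
  ⟨(b (a (a (b (a (b (c (l 15807832) (l 15779840)) (l 15786480)) (c (b (l 15877136) (l 15857200)) (b (l 15850216) (l 15830704)))) (l 15821776)) (c (b (a (b (l 15961880) (l 15917656)) (l 16029760)) (b (a (l 15908720) (l 15980360)) (l 15947024))) (b (a (b (l 15936224) (l 15892040)) (l 16005256)) (b (a (l 15883680) (l 15893568)) (l 15923520))))) (c (a (b (l 16185184) (a (b (l 16072344) (l 16061288)) (b (l 16179064) (l 16146768)))) (a (l 16211992) (l 16397768))) (a (b (l 16058432) (c (a (l 16054912) (l 16147888)) (a (l 16037240) (l 16130696)))) (c (l 16125616) (l 16234320))))) (a (c (l 15913064) (l 15890800)) (b (c (a (a (l 16069496) (l 16148000)) (a (b (l 16226344) (l 16226584)) (b (l 16316840) (l 16308632)))) (c (a (l 16074720) (a (l 16218000) (l 16282736))) (a (l 16080016) (a (l 16202960) (l 16289112))))) (c (l 16199608) (l 16182288))))), by decide +kernel⟩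

def k67_pm_012 : ∃ t, chk3 f_pm_012 t 58 63 2 = true :=
  ⟨(c (a (b (a (l 15935472) (l 16059568)) (l 16128824)) (a (l 16138552) (l 16249248))) (a (b (c (a (l 15923600) (l 16048904)) (l 15975376)) (c (c (l 16145720) (l 16133680)) (l 16128856))) (c (b (c (l 16223120) (l 16209952)) (c (l 16308152) (l 16268736))) (l 16055616)))), by decide +kernel⟩

def k68_pm_012 : ∃ t, chk3 f_pm_012 t 59 124 2 = true :=
  ⟨(b (c (l 16459384) (l 16332384)) (a (b (c (l 16512808) (l 16490136)) (b (c (l 16488944) (l 16486792)) (a (a (c (l 16510024) (b (l 16528528) (l 16505120))) (l 16404976)) (c (l 16453536) (l 16472408))))) (c (l 16416256) (l 16281696)))), by decide +kernel⟩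

def k69_pm_012 : ∃ t, chk3 f_pm_012 t 118 250 2 = true :=
  ⟨(a (b (a (c (b (l 16432680) (c (l 16571696) (l 16580864))) (b (b (l 16442592) (c (l 16542488) (l 16556920))) (c (b (l 16573016) (l 16599856)) (c (b (l 16591304) (l 16611920)) (b (l 16593288) (l 16616816)))))) (c (b (l 16480376) (l 16490720)) (b (b (c (l 16490904) (l 16501192)) (c (l 16490320) (l 16503992))) (c (a (l 16540520) (l 16507056)) (b (l 16525896) (c (l 16554136) (l 16559432))))))) (c (c (a (b (l 16524344) (l 16580224)) (b (l 16526952) (l 16524528))) (b (a (b (l 16615384) (l 16625248)) (b (l 16556032) (l 16574328))) (l 16619728))) (b (c (a (b (l 16557560) (l 16614568)) (b (l 16559888) (l 16537264))) (a (l 16610296) (b (c (l 16571672) (l 16579520)) (l 16605328)))) (l 16457352)))) (a (b (b (a (b (l 16463128) (c (l 16453416) (l 16465792))) (l 16448976)) (c (l 16436040) (b (l 16378880) (c (l 16475544) (l 16493600))))) (c (c (b (l 16502824) (a (l 16558840) (l 16529312))) (b (l 16486784) (b (l 16511496) (l 16558688)))) (c (b (b (l 16501072)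 (l 16498464)) (b (a (l 16558552) (l 16521808)) (l 16564608))) (b (a (b (l 16533448) (l 16550936)) (b (l 16505464) (l 16520520))) (l 16572040))))) (b (b (l 16433456) (c (l 16423160) (b (a (l 16438760) (l 16425232)) (l 16413160)))) (b (c (c (l 16443848) (l 16445064)) (c (b (l 16441664) (l 16463864)) (b (l 16442560) (c (l 16477240) (l 16485808))))) (c (b (l 16393392) (c (l 16493672) (l 16489800))) (c (b (l 16478544) (l 16473512)) (b (a (l 16509240) (l 16479440)) (l 16515768)))))))), by decide +kernel⟩

def k70_pm_012 : ∃ t, chk3 f_pm_012 t 118 251 2 = true :=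
  ⟨(c (b (a (l 16370008) (c (a (l 16616328) (b (l 16475696) (l 16562472))) (l 16535984))) (a (a (b (l 16363120) (l 16395120)) (b (l 16504704) (l 16436880))) (a (c (l 16450888) (l 16475328)) (l 16498848)))) (b (a (c (l 16382760) (l 16430016)) (c (l 16458544) (l 16536656))) (b (a (a (c (l 16374240) (l 16381168)) (l 16407128)) (c (l 16576536) (l 16606408))) (a (b (c (l 16300872) (l 16392848)) (l 16422152)) (c (c (l 16480960) (l 16449048)) (l 16443816)))))), by decide +kernel⟩

def k71_pm_012 : ∃ t, chk3 f_pm_012 t 119 125 2 = true :=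
  ⟨(b (b (a (a (a (b (l 16417904) (b (l 16408232) (c (l 16397688) (l 16411008)))) (l 16399840)) (l 16384208)) (l 16289936)) (a (a (c (b (l 16396168) (b (l 16418112) (l 16373864))) (b (b (l 16404784) (c (l 16407608) (l 16428160))) (c (b (l 16426056) (l 16437264)) (a (b (l 16454304) (l 16368064)) (b (l 16429480) (l 16437640)))))) (c (c (b (l 16364176) (l 16375448)) (b (l 16365408) (l 16378784))) (b (c (b (l 16370248) (l 16366544)) (l 16330992)) (c (b (l 16373464) (l 16387784)) (l 16320808))))) (c (a (c (b (l 16339360) (l 16333784)) (a (l 16309320) (l 16339256))) (b (l 16317720) (b (l 16308256) (l 16303376)))) (c (a (l 16263512) (l 16323472)) (a (l 16339120) (l 16336632)))))) (c (a (b (a (b (c (l 16433776) (b (l 16446312) (l 16465192))) (l 16489648)) (c (b (l 16402136) (l 16422008)) (b (a (l 16410880) (l 16386152)) (l 16422400)))) (b (l 16463264) (l 16428840))) (a (b (b (b (l 16344440) (l 16353576)) (c (l 16362728) (b (l 16356856) (l 16366736)))) (l 16388864)) (b (b (a (l 16315232) (l 16295064)) (c (l 16314544)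 (b (l 16310488) (l 16310888)))) (a (l 16339408) (c (l 16279680) (l 16305264)))))) (c (b (a (b (a (b (l 16450928) (l 16469904)) (b (l 16395632) (c (l 16405448) (l 16411456)))) (l 16459856)) (a (b (b (l 16349184) (l 16353680)) (l 16291400)) (a (l 16321408) (b (l 16291032) (l 16295656))))) (a (a (l 16521888) (l 16464000)) (a (l 16391168) (l 16324816)))) (b (a (a (l 16491984) (a (l 16365856) (l 16336016))) (a (b (l 16316968) (l 16377560)) (a (l 16329960) (l 16258560)))) (a (l 16450632) (l 16366376)))))), by decide +kernel⟩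

def k72_pm_012 : ∃ t, chk3 f_pm_012 t 59 63 2 = true :=
  ⟨(b (b (a (a (c (l 16460784) (l 16344480)) (b (c (a (l 16566896) (l 16543576)) (c (a (l 16561000) (l 16518024)) (l 16423472))) (c (l 16623256) (l 16510552)))) (c (a (b (b (a (l 16552152) (l 16494816)) (l 16537296)) (l 16534744)) (b (a (b (l 16415144) (l 16419816)) (a (l 16359288) (l 16321376))) (l 16364352))) (b (a (b (c (a (l 16493584) (l 16455968)) (l 16442096)) (l 16480112)) (c (a (b (l 16416928) (l 16399960)) (c (l 16335920) (l 16326432))) (a (l 16427928) (l 16349920)))) (c (a (l 16494136) (l 16299704)) (l 16431200))))) (a (c (l 16472056) (c (l 16362672) (l 16495280))) (c (a (l 16529504) (a (l 16426032) (l 16355576))) (c (a (l 16446976) (c (l 16383016) (l 16402448))) (l 16433160))))) (a (c (l 16449848) (c (c (l 16496096) (l 16429352)) (l 16530840))) (c (a (l 16476120) (a (l 16430752) (a (l 16386696) (c (l 16372248) (l 16341976))))) (c (a (c (l 16510032) (l 16497200)) (a (c (l 16421144) (l 16452568)) (c (l 16361272) (l 16309680)))) (a (l 16541544)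 (l 16425408)))))), by decide +kernel⟩

def k73_pm_012 : ∃ t, chk3 f_pm_012 t 58 248 3 = true :=
  ⟨(l 16596112), by decide +kernel⟩

def k74_pm_012 : ∃ t, chk3 f_pm_012 t 232 498 3 = true :=
  ⟨(b (a (a (c (b (b (l 16579256) (l 16591528)) (c (l 16586976) (c (l 16585152) (b (l 16600680) (l 16568232))))) (c (b (c (l 16589256) (l 16528568)) (c (l 16501008) (l 16592912))) (b (l 16543288) (l 16592496)))) (c (b (b (l 16574744) (l 16581128)) (c (l 16606960) (b (l 16593568) (l 16600760)))) (c (b (l 16589216) (b (a (l 16609576) (l 16587520)) (l 16539896))) (c (l 16592376) (l 16589296))))) (b (l 16577752) (c (c (l 16590288) (c (a (l 16589800) (l 16583880)) (l 16514432))) (c (c (l 16592888) (l 16553752)) (l 16526864))))) (c (b (b (a (c (l 16552368) (c (l 16552960) (a (l 16547160) (l 16569344)))) (c (l 16611680) (a (l 16600920) (l 16599192)))) (c (a (l 16482520) (l 16587984)) (c (a (a (l 16519728) (l 16543504)) (l 16582936)) (a (a (l 16514000) (l 16548664)) (a (l 16570744) (l 16599936)))))) (a (c (c (l 16470792) (b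 (l 16485296) (l 16477184))) (a (l 16471096) (c (b (l 16521296) (l 16488040)) (l 16501448)))) (b (c (l 16553448) (c (l 16556320) (a (l 16550232) (l 16572384)))) (c (l 16487344) (c (a (l 16522880) (l 16547968)) (a (l 16517464) (l 16551864))))))) (c (b (a (a (l 16420056) (c (l 16470256) (l 16572808))) (a (c (l 16567992) (l 16595408)) (b (b (l 16589968) (l 16612808)) (l 16585208)))) (a (l 16485032) (c (l 16439256) (l 16559592)))) (a (l 16512576) (l 16444768))))), by decide +kernel⟩

def k75_pm_012 : ∃ t, chk3 f_pm_012 t 233 498 3 = true :=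
  ⟨(b (l 16585296) (a (c (b (c (l 16594096) (c (a (l 16594232) (l 16587656)) (l 16600344))) (c (a (l 16589192) (l 16615208)) (c (a (l 16583976) (l 16615424)) (c (l 16561960) (l 16588200))))) (b (c (c (l 16595200) (l 16598384)) (l 16593040)) (c (c (l 16594240) (l 16601976)) (l 16604912)))) (c (b (a (b (l 16584424) (l 16588360)) (l 16586744)) (c (l 16597880) (c (a (l 16598456) (l 16591352)) (l 16602384)))) (c (c (l 16599016) (l 16602656)) (l 16597432))))), by decide +kernel⟩

def k76_pm_012 : ∃ t, chk3 f_pm_012 t 116 499 3 = true :=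
  ⟨(c (a (a (l 16345416) (b (b (c (c (l 16456160) (b (l 16511368) (l 16478904))) (a (l 16476232) (c (c (l 16510808) (l 16506480)) (l 16505968)))) (l 16437592)) (l 16355792))) (c (b (a (c (b (l 16544360) (l 16484008)) (b (b (l 16557688) (l 16516312)) (a (l 16483600) (l 16518936)))) (b (a (l 16591512) (l 16616944)) (c (l 16549488) (b (l 16562056) (l 16543648))))) (a (l 16420744) (b (c (l 16491424) (a (l 16490760) (l 16525048))) (l 16455936)))) (b (b (a (c (c (a (l 16539360) (l 16561056)) (a (l 16540680) (l 16563232))) (c (a (l 16434896) (b (l 16574856) (l 16554208))) (b (l 16495808) (l 16514144)))) (c (b (l 16616608) (l 16586088)) (c (l 16588752) (l 16593600)))) (c (a (a (l 16482800) (c (l 16514408) (l 16511968))) (a (b (l 16555800) (l 16527872)) (c (l 16566216) (l 16568424)))) (a (l 16496872) (a (l 16458064) (b (l 16580848) (l 16555968)))))) (l 16449376)))) (a (l 16268448) (b (c (c (a (l 16417024) (a (l 16494624) (l 16550864))) (l 16415824)) (l 16453392)) (l 16425504)))), by decide +kernel⟩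

def k77_pm_012 : ∃ t, chk3 f_pm_012 t 117 249 3 = true :=
  ⟨(a (b (b (l 16595576) (a (b (l 16590504) (b (l 16588680) (a (c (l 16591720) (a (l 16573464) (l 16586040))) (l 16588944)))) (l 16588272))) (b (c (c (b (a (a (l 16603040) (l 16595832)) (a (l 16589992) (l 16576696))) (a (a (l 16592328) (l 16619664)) (a (l 16598504) (l 16577816)))) (c (a (a (b (l 16602416) (b (l 16606160) (l 16579168))) (l 16587128)) (l 16515232)) (a (b (l 16604464) (l 16512192)) (l 16594864)))) (c (a (b (a (b (l 16597216) (l 16619648)) (l 16599248)) (l 16500056)) (a (c (l 16520032) (l 16599616)) (l 16583464))) (a (b (l 16599352) (l 16610672)) (l 16589960)))) (c (b (a (c (c (l 16556672) (b (l 16568096) (l 16551632))) (a (b (c (l 16561624) (l 16578712)) (l 16533872)) (c (c (l 16573856) (l 16575944)) (l 16507216)))) (c (a (l 16607112) (l 16603912)) (c (a (l 16498144) (l 16603960)) (l 16579128)))) (c (a (a (c (l 16503016) (l 16498936)) (c (l 16535856) (l 16535720))) (c (l 16585872) (a (l 16573120) (l 16605992)))) (a (l 16514216) (c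 (a (b (l 16583416) (l 16559008)) (b (l 16616528) (l 16602264))) (l 16502392))))) (c (a (l 16426224) (c (l 16531496) (l 16617224))) (l 16454680))))) (b (l 16565712) (b (a (a (b (l 16564952) (b (l 16559960) (c (l 16562384) (l 16564456)))) (l 16551048)) (l 16535160)) (c (a (b (c (a (l 16570960) (l 16550248)) (l 16522600)) (c (a (l 16612528) (l 16575096)) (c (l 16520416) (l 16596448)))) (c (c (b (l 16530368) (l 16534144)) (a (l 16529376) (l 16539256))) (l 16538864))) (c (a (c (b (l 16545048) (l 16589824)) (l 16462344)) (c (l 16540368) (l 16515496))) (a (b (l 16558320) (l 16584800)) (l 16490344))))))), by decide +kernel⟩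

def k78_pm_012 : ∃ t, chk3 f_pm_012 t 58 125 3 = true :=
  ⟨(a (b (c (a (b (l 16007712) (c (l 15822216) (l 15930968))) (b (l 16128280) (c (l 15962872) (l 16094136)))) (a (b (l 16125880) (l 15879440)) (b (l 16228008) (l 16044424)))) (b (a (b (c (c (b (a (l 15757696) (l 15829088)) (l 15782296)) (a (l 15764592) (l 15825744))) (a (l 15752968) (l 15814688))) (l 15783328)) (a (c (b (c (l 15848240) (l 15896128)) (c (l 15861624) (l 15868128))) (b (l 15885760) (l 15858256))) (b (c (l 15944728) (l 15982328)) (c (c (l 15936024) (l 15943272)) (l 15933976))))) (c (c (l 15864376) (l 15866344)) (l 15858048)))) (b (a (c (c (b (a (l 16381728) (b (a (l 16507832) (b (b (l 16584952) (l 16559040)) (l 16528856))) (l 16446096))) (l 16165744)) (l 16173840)) (b (l 16317392) (l 16230488))) (b (c (c (b (b (a (c (a (l 16607832) (l 16616152)) (a (l 16612048) (l 16612760))) (c (l 16562392) (a (l 16581312) (l 16545160)))) (a (a (l 16569248) (b (l 16624056) (l 16599304))) (c (a (l 16614096) (l 16584848)) (a (l 16608536) (l 16579576)))))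 (a (l 16531056) (c (a (l 16589688) (b (l 16612736) (l 16611136))) (l 16614504)))) (b (a (b (c (a (l 16540616) (l 16555432)) (l 16568992)) (l 16589304)) (c (b (l 16550768) (l 16474392)) (l 16531728))) (l 16574184))) (a (l 16410640) (c (l 16474400) (l 16583720)))) (c (c (l 16310384) (l 16403184)) (l 16358456)))) (b (a (c (b (l 15958512) (c (b (l 16057000) (l 15913280)) (a (l 16030792) (l 16125944)))) (b (l 16145872) (a (l 16022408) (l 16118648)))) (c (c (c (l 16243184) (l 16207000)) (l 16256384)) (l 16145592))) (b (a (c (c (l 16062832) (l 16070096)) (l 16042976)) (c (c (a (l 16186824) (l 16273704)) (a (l 16195320) (l 16283040))) (a (l 16190112) (l 16278784)))) (c (l 16052848) (l 16156976)))))), by decide +kernel⟩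

def k79_pm_012 : ∃ t, chk3 f_pm_012 t 58 63 3 = true :=
  ⟨(c (b (b (c (l 15809384) (a (l 15744864) (l 16132440))) (a (l 15995600) (l 16224904))) (a (l 16120600) (l 16322448))) (b (b (l 15841880) (a (l 15835368) (l 16132352))) (b (c (b (l 15947048) (l 16131272)) (l 16023456)) (c (l 16189104) (c (l 16059776) (a (l 16106952) (l 16283856))))))), by decide +kernel⟩

def k80_pm_012 : ∃ t, chk3 f_pm_012 t 118 124 3 = true :=
  ⟨(a (a (b (l 16573600) (b (l 16533936) (b (l 16513912) (b (l 16503848) (a (c (c (l 16508120) (l 16497888)) (l 16487560)) (l 16491928)))))) (l 16526064)) (l 16494080)), by decide +kernel⟩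

def k81_pm_012 : ∃ t, chk3 f_pm_012 t 118 250 3 = true :=
  ⟨(b (a (c (b (a (b (c (a (l 16514864) (l 16494760)) (l 16484848)) (c (a (c (l 16549624) (l 16549880)) (l 16516624)) (a (l 16543576) (l 16484552)))) (c (c (b (a (l 16480520) (l 16467704)) (l 16479728)) (l 16464384)) (l 16479960))) (a (a (b (c (b (l 16570736) (l 16583552)) (l 16560992)) (l 16612440)) (c (c (b (l 16553464) (l 16580208)) (b (l 16545752) (l 16576168))) (b (l 16469064) (l 16575528)))) (c (c (a (b (l 16520816) (l 16549200)) (b (l 16489480) (l 16522104))) (a (l 16440216) (l 16463872))) (c (l 16448752) (l 16465512))))) (b (a (b (c (l 16443120) (l 16499904)) (l 16454408)) (c (l 16438096) (l 16473440))) (c (l 16429016) (l 16493960)))) (a (c (c (b (c (l 16362984) (l 16462568)) (b (a (l 16458664) (l 16439944)) (c (a (l 16491736) (l 16461344)) (l 16457600)))) (b (l 16457464) (b (l 16447472) (l 16449904)))) (b (l 16409408) (b (l 16400456) (l 16432952)))) (b (l 16423120) (c (c (c (l 16372336) (l 16425520)) (c (l 16422256) (l 16424152))) (c (l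 16419896) (l 16413816)))))) (a (c (a (l 16441744) (c (c (b (b (a (l 16583872) (l 16547648)) (l 16600408)) (l 16631856)) (l 16599216)) (l 16597280))) (l 16528416)) (c (c (a (b (a (b (c (l 16516984) (l 16469864)) (l 16545520)) (c (b (l 16490880) (l 16515560)) (l 16434192))) (l 16568264)) (c (b (c (l 16390136) (l 16372696)) (c (l 16414640) (l 16504064))) (b (l 16405536) (l 16489736)))) (b (a (l 16426800) (l 16421328)) (l 16519208))) (b (a (l 16474832) (l 16436656)) (l 16496072))))), by decide +kernel⟩

def k82_pm_012 : ∃ t, chk3 f_pm_012 t 118 251 3 = true :=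
  ⟨(b (a (c (c (l 16339000) (l 16455520)) (l 16411464)) (c (c (l 16437824) (l 16547352)) (l 16483224))) (a (c (c (b (a (l 16366528) (l 16469008)) (l 16296992)) (b (l 16301672) (l 16262152))) (b (a (l 16373600) (l 16478496)) (b (l 16342312) (l 16403952)))) (c (c (b (l 16572872) (a (l 16508160) (l 16620408))) (b (l 16585488) (b (l 16504424) (l 16473416)))) (b (l 16585632) (a (l 16517768) (l 16631992)))))), by decide +kernel⟩

def k83_pm_012 : ∃ t, chk3 f_pm_012 t 118 63 3 = true :=
  ⟨(c (b (b (a (c (l 16430152) (l 16404360)) (b (c (a (l 16536928) (l 16620896)) (a (l 16535064) (l 16556824))) (l 16473096))) (l 16383008)) (l 16487048)) (b (a (l 16324656) (b (a (l 16549560) (a (l 16610952) (l 16539864))) (l 16516656))) (c (b (b (l 16432264) (l 16536456)) (l 16589712)) (b (l 16482592) (c (l 16504664) (b (l 16576984) (l 16536192))))))), by decide +kernel⟩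

def k84_pm_012 : ∃ t, chk3 f_pm_012 t 119 31 3 = true :=
  ⟨(b (b (l 16429648) (b (a (b (c (c (a (b (l 16405968) (l 16323880)) (l 16380072)) (l 16393176)) (l 16346112)) (c (c (b (c (a (b (l 16407240) (l 16410560)) (l 16383408)) (a (b (l 16392800) (l 16410080)) (l 16365272))) (c (a (b (l 16369992) (l 16383536)) (l 16359024)) (a (l 16355672) (l 16378480)))) (b (a (b (l 16372272) (l 16403560)) (l 16365064)) (l 16289848))) (b (a (b (l 16382424) (l 16389160)) (l 16357272)) (a (l 16422800) (l 16366200))))) (b (l 16341200) (c (c (a (c (c (l 16281744) (l 16310768)) (l 16278304)) (b (l 16325576) (l 16277688))) (l 16240352)) (a (b (l 16331552) (l 16322528)) (l 16303248))))) (a (a (c (c (b (l 16455048) (l 16566344)) (l 16433672)) (b (l 16476880) (l 16549016))) (c (c (b (c (l 16364376) (l 16428768)) (l 16485848)) (l 16423424)) (l 16438608))) (b (a (c (c (b (c (l 16366640) (l 16347784)) (l 16385424)) (l 16348872)) (l 16349144)) (c (c (b (c (l 16279088) (l 16302216)) (l 16262056)) (l 16296048)) (l 16272832))) (c (c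 (l 16355696) (l 16320592)) (l 16333976)))))) (b (b (b (c (c (a (b (l 16433344) (l 16560408)) (a (l 16395560) (l 16358760))) (a (b (c (l 16413696) (l 16463456)) (l 16542272)) (a (b (l 16412728) (l 16420232)) (b (l 16350328) (l 16316760))))) (a (b (a (l 16588360) (l 16505608)) (l 16551552)) (a (b (l 16421288) (l 16427536)) (b (l 16336728) (l 16344016))))) (c (c (l 16415072) (l 16338000)) (l 16409328))) (c (l 16290088) (b (l 16352344) (c (l 16334624) (l 16454056))))) (b (c (l 16416224) (c (b (a (l 16481120) (l 16328264)) (l 16438320)) (l 16352520))) (c (l 16440016) (c (l 16437472) (c (b (l 16396448) (l 16481064)) (b (l 16458752) (l 16354328)))))))), by decide +kernel⟩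

def k85_pm_012 : ∃ t, chk3 f_pm_012 t 15 28 1 = true :=
  ⟨(a (c (a (c (a (c (l 15814336) (l 15818016)) (c (l 15710224) (l 15736000))) (l 15770960)) (c (b (a (l 15557936) (l 15349280)) (a (l 15533080) (l 15624680))) (a (b (l 15598864) (c (l 15642408) (l 15729952))) (b (a (l 15532632) (l 15496960)) (c (l 15682840) (l 15710480)))))) (a (l 15704744) (b (a (l 15577928) (l 15517352)) (a (l 15708976) (l 15701592))))) (a (c (c (a (b (a (l 15404528) (l 15395384)) (c (l 15588440) (l 15626144))) (c (b (l 15389896) (l 15597424)) (a (b (l 15406264) (l 15616720)) (l 15371576)))) (a (b (l 15470120) (l 15685224)) (a (l 15544032) (b (l 15452128) (a (l 15668264) (l 15646784)))))) (c (a (b (l 15511768) (l 15733840)) (b (l 15518736) (l 15743456))) (b (l 15515368) (l 15743488)))) (c (a (c (b (a (l 15421736) (l 15464008)) (a (l 15632808) (l 15677624))) (a (c (l 15552888) (b (l 15466328) (l 15685528))) (b (l 15473408) (l 15692232)))) (b (c (l 15582904) (l 15566272)) (c (c (b (a (l 15706104) (c (b (l 15761112) (a (l 15794816)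 (l 276520027767))) (l 15779848))) (a (b (l 15701184) (a (l 15819288) (a (l 243770954215) (l 1)))) (a (a (b (l 257192701943) (l 1)) (l 1)) (l 1)))) (b (l 15733216) (l 123511697815))) (a (b (l 15688640) (l 15792064)) (b (l 15762880) (l 15839464)))))) (a (c (a (l 15460008) (c (b (l 15498800) (l 15722448)) (l 15557400))) (b (l 15556256) (l 15788560))) (c (b (a (l 15489072) (l 15590008)) (a (a (c (l 15731480) (l 15753952)) (l 15606896)) (b (l 15748360) (l 15826232)))) (b (a (l 15501384) (c (l 15585264) (l 15532488))) (a (c (l 134785798311) (l 15807232)) (c (b (l 15745976) (l 15825032)) (a (l 15713600) (b (l 15759040) (l 1))))))))))), by decide +kernel⟩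

def k86_pm_012 : ∃ t, chk3 f_pm_012 t 15 58 1 = true :=
  ⟨(a (c (a (c (a (l 15835056) (b (l 15806008) (c (l 15961256) (l 15992304)))) (a (l 15999080) (l 15945552))) (c (b (l 15717560) (l 15942128)) (a (c (l 15827456) (l 15938392)) (c (l 15928056) (l 15959600))))) (a (a (l 15980960) (l 15863128)) (b (l 15864672) (l 16014120)))) (a (c (a (c (b (l 15777112) (l 15920288)) (l 15935192)) (c (a (c (l 15724560) (b (l 15788360) (l 15933328))) (l 15732336)) (a (l 15924032) (b (l 15761704) (l 15931616))))) (c (a (l 15802576) (c (l 15988304) (l 16000648))) (l 16007376))) (a (a (c (c (b (l 15805016) (c (c (a (b (l 15889584) (l 15955896)) (b (c (l 143913031783) (l 15896512)) (a (l 15945336) (l 1)))) (l 15930016)) (l 15947504))) (b (c (l 15836920) (l 15864080)) (c (l 15971232) (a (l 16006360) (l 15997336))))) (c (b (l 15923848) (l 16021432)) (b (l 15973920) (l 16117240)))) (c (c (c (b (c (b (l 129417318759) (a (l 15851056) (b (l 15863184) (l 1)))) (l 15834928)) (a (b (c (l 211021931751) (l 15907312)) (l 1)) (l 1)))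 (b (a (l 15828616) (l 15848128)) (l 15941712))) (b (a (l 15858320) (l 15860168)) (l 15963672))) (c (b (c (a (l 15896448) (l 15890160)) (l 15885232)) (l 274909621815)) (b (l 15866936) (l 16084464))))) (a (b (a (c (a (b (b (c (l 15844640) (l 15836944)) (l 1)) (l 1)) (l 1)) (c (l 290478701143) (l 15858920))) (l 1)) (l 1)) (l 1))))), by decide +kernel⟩

def k87_pm_012 : ∃ t, chk3 f_pm_012 t 15 59 1 = true :=
  ⟨(a (c (a (c (a (a (l 16154864) (l 15988280)) (c (l 16172168) (l 16164448))) (a (l 16210456) (l 16213264))) (c (l 16006384) (a (l 16137392) (l 16087488)))) (a (a (l 16177160) (l 16201072)) (l 16071440))) (a (a (a (c (l 15974592) (l 16204968)) (c (c (b (l 16071272) (b (l 16190824) (l 16165832))) (l 16124920)) (c (b (l 16239296) (l 16366264)) (l 16269568)))) (a (c (c (b (c (l 16054176) (l 16089184)) (c (c (b (a (l 16159704) (l 16114416)) (a (l 16182264) (l 1))) (a (l 16208608) (l 16199424))) (a (l 16241664) (l 16225808)))) (l 197600446471)) (c (b (l 16245664) (l 232497573175)) (l 16230952))) (b (c (c (c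 (c (b (a (l 16023152) (l 16001160)) (a (l 16047032) (l 1))) (l 16063608)) (l 16083016)) (c (a (l 16123424) (l 16111224)) (l 16159192))) (c (l 16125736) (l 16266864))) (l 1)))) (a (a (a (a (b (b (b (c (c (l 16023520) (l 16079432)) (l 16107392)) (l 1)) (l 1)) (l 1)) (l 1)) (l 1)) (l 1)) (l 1)))), by decide +kernel⟩

def k88_pm_012 : ∃ t, chk3 f_pm_012 t 30 30 1 = true :=
  ⟨(c (a (b (c (a (b (l 16329568) (l 16443584)) (b (l 16364312) (l 16479784))) (l 16318968)) (b (c (a (c (b (l 16577736) (l 16520192)) (l 16583144)) (c (l 16500840) (l 16500280))) (l 16562968)) (c (c (a (l 16424488) (l 16474544)) (c (a (l 16494032) (l 16437816)) (b (l 16444152) (l 16418464)))) (c (b (l 16490304) (l 16394896)) (l 16463360))))) (b (b (c (l 16355080) (c (l 16381952) (l 16386704))) (a (c (l 16519184) (l 16572984)) (c (b (l 16521368) (a (l 16580744) (c (l 16435824) (l 16597344)))) (b (l 16578192) (l 16481720))))) (a (c (b (c (b (l 16609672) (l 16609328)) (l 16548056)) (b (c (l 16468592) (c (l 16541576) (l 16492992))) (c (a (l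 16523344) (a (l 16516352) (l 206191320583))) (l 191158758343)))) (b (l 16479024) (c (b (l 16455752) (c (a (l 16425416) (l 16443784)) (l 242698297463))) (l 16421904)))) (b (c (c (b (a (l 16579136) (c (c (a (l 16511640) (l 16494448)) (l 193306457127)) (l 16575048))) (a (c (b (l 16575928) (a (l 16623536) (l 16537640))) (l 16632456)) (l 1))) (b (l 16600784) (l 16471592))) (a (l 16412296) (l 16465216))) (b (a (c (a (c (b (l 16524168) (l 16535840)) (l 16465368)) (l 1)) (l 16405464)) (l 1)) (l 1)))))) (a (b (c (l 16337168) (l 16334376)) (l 16404496)) (b (b (l 16434608) (a (l 16604856) (l 16528488))) (a (b (l 16507744) (l 16395008)) (b (l 277595095591) (l 16451528)))))), by decide +kernel⟩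

def k89_pm_012 : ∃ t, chk3 f_pm_012 t 31 30 1 = true :=
  ⟨(a (a (b (b (c (c (c (a (l 16310352) (c (a (b (l 16314800) (l 16292296)) (b (a (l 16304424) (l 16269280)) (l 1))) (l 16253728))) (l 16303936)) (l 16319720)) (c (a (l 16485440) (l 227666084263)) (l 16482360))) (a (c (c (c (c (b (a (l 16467560) (l 16398872)) (a (l 16430032) (l 1))) (l 16390192)) (l 16496568)) (l 16536528)) (l 264173453783)) (l 1))) (l 1)) (l 1)) (l 1)), by decide +kernel⟩

def k90_pm_012 : ∃ t, chk3 f_pm_012 t 30 124 1 = true :=
  ⟨(a (c (c (a (c (l 16379208) (l 16397992)) (a (l 16353032) (l 16273896))) (b (c (l 16372624) (l 16389664)) (a (c (l 16376856) (l 16368360)) (c (l 16345616) (l 16336792))))) (a (l 16370088) (l 16311696))) (a (a (c (c (c (b (l 177200088215) (c (a (l 16401144) (l 16461656)) (l 16407024))) (l 16400936)) (c (b (c (l 16394480) (l 16374920)) (l 16348608)) (b (l 16354072) (l 287795309815)))) (l 16329360)) (a (b (b (c (c (l 213170467479) (c (l 16403784) (l 16364080))) (l 16356624)) (l 1)) (l 1)) (l 1))) (l 1))),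 by decide +kernel⟩

def k91_pm_012 : ∃ t, chk3 f_pm_012 t 60 250 1 = true :=
  ⟨(a (c (c (c (l 16312848) (l 16299752)) (l 16305352)) (c (l 16259520) (l 16284856))) (c (c (c (a (l 16318072) (c (a (l 16345016) (l 16284416)) (l 16327352))) (l 230886878839)) (c (l 16282768) (l 16291600))) (c (c (b (l 16282120) (l 16248632)) (l 16265648)) (l 16259816)))), by decide +kernel⟩

def k92_pm_012 : ∃ t, chk3 f_pm_012 t 60 251 1 = true :=
  ⟨(a (b (c (c (c (a (c (a (b (l 16282264) (c (l 16287776) (l 16283744))) (b (l 16278872) (l 16275048))) (l 16234464)) (b (l 16274888) (c (l 16279880) (a (l 16252624) (a (l 16248224) (l 16248424)))))) (a (l 16254280) (l 16256448))) (a (c (b (l 16278544) (l 16247288)) (l 16262896)) (l 16218168))) (c (a (c (c (l 16292712) (b (l 16280152) (l 16278440))) (l 16265968)) (c (c (l 16275216) (l 16263800)) (l 16247544))) (a (b (l 16263280) (l 16257872)) (l 16240232)))) (c (c (a (c (c (a (c (b (a (l 16272024) (l 16288808)) (l 16298144)) (l 16279608)) (b (c (l 16287152) (l 16275264)) (l 16286432)))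 (l 16271304)) (l 16267912)) (b (c (a (c (l 16276856) (l 16256696)) (a (l 16259768) (l 16256456))) (l 16237944)) (c (c (l 16273976) (a (c (b (l 16259568) (l 16263280)) (l 16254920)) (c (l 16255520) (a (l 16244696) (l 16241064))))) (l 16239312)))) (a (c (a (l 16278824) (l 16261304)) (l 16278056)) (c (b (l 16237472) (l 16238288)) (b (l 16241672) (l 16243792))))) (c (a (c (l 16289688) (l 16279824)) (c (b (l 16230608) (l 16257168)) (b (l 16232360) (l 16246328)))) (a (l 16271064) (l 16227480))))) (b (c (c (a (l 16260216) (a (c (l 16300632) (l 16246704)) (l 1))) (l 16246104)) (c (c (a (l 16245256) (l 16254920)) (l 16232464)) (l 16226120))) (a (c (a (c (b (c (l 16261016) (b (l 16222928) (l 16219256))) (c (l 16264264) (c (a (l 16227568) (l 16221112)) (l 16221536)))) (c (l 16217392) (l 16199352))) (c (c (a (l 16239560) (b (l 16266472) (l 16267368))) (c (c (l 16228232) (a (l 16191032) (l 354903968087))) (l 16216288))) (c (l 16214896) (l 138544979559)))) (c (c (c (l 16208328) (a (l 16230360) (l 16184568))) (b (l 16213048)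 (a (l 16215328) (l 16182528)))) (b (l 16204264) (l 16199136)))) (l 1)))), by decide +kernel⟩

def k93_pm_012 : ∃ t, chk3 f_pm_012 t 61 125 1 = true :=
  ⟨(l 1), by decide +kernel⟩

def k94_pm_012 : ∃ t, chk3 f_pm_012 t 120 126 1 = true :=
  ⟨(c (c (c (b (a (c (a (b (c (a (l 16310440) (l 16305880)) (l 16303000)) (l 16314640)) (b (l 16296360) (b (l 16301504) (l 16308488)))) (b (l 16291672) (l 16295912))) (c (b (l 16286968) (l 16295840)) (b (l 16243048) (a (b (l 16275416) (l 16281120)) (b (l 16267840) (l 16271856)))))) (a (c (l 16326752) (l 16312160)) (c (a (l 16318280) (a (l 16320608) (l 16266568))) (l 16299112)))) (b (a (b (l 16283312) (l 16284576)) (b (l 16250488) (l 16256560))) (l 16290160))) (b (c (a (b (c (l 16280664) (l 16289744)) (a (l 16296456) (c (l 16270184) (l 16280976)))) (b (l 16246368) (b (l 16228952) (l 16230776)))) (a (b (l 16294528) (l 16296968)) (b (l 16254304) (b (l 16260680) (l 16263632))))) (c (a (c (l 16291176) (l 16307600)) (c (l 16265224) (l 16269104))) (a (l 16314232) (c (l 171831100023)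 (l 16286368)))))) (c (b (b (c (l 16244208) (a (c (l 16304872) (l 16291320)) (l 16259968))) (c (a (l 16300296) (l 16264408)) (a (c (l 16309168) (l 16304200)) (b (l 16249248) (l 16274128))))) (b (l 16252304) (l 16309312))) (b (b (a (l 16285448) (l 16244808)) (a (l 16290040) (l 16253408))) (c (a (l 16293424) (c (b (l 16278864) (l 16297816)) (l 16282552))) (l 16294960))))), by decide +kernel⟩

def k95_pm_012 : ∃ t, chk3 f_pm_012 t 121 126 1 = true :=
  ⟨(a (b (b (c (c (c (a (b (l 16256440) (l 16272120)) (b (b (l 16273872) (l 16195216)) (l 1))) (c (b (a (b (c (l 16227904) (l 16222656)) (l 16229896)) (c (l 16232480) (a (l 16218776) (l 1)))) (l 200285199671)) (l 164314839303))) (c (a (l 16216720) (l 16216528)) (a (l 16228064) (l 16198040)))) (c (c (l 16233144) (l 158409233239)) (l 16218888))) (a (c (c (b (c (l 16281656) (l 16241016)) (a (c (l 16285656) (l 16246928)) (l 1))) (c (l 16214464) (b (l 16237360) (l 16245792)))) (c (c (l 16250224) (b (l 16248040) (l 16257944))) (l 16238944))) (l 1))) (l 1)) (l 1)), by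 decide +kernel⟩

def k96_pm_012 : ∃ t, chk3 f_pm_012 t 61 126 1 = true :=
  ⟨(l 1), by decide +kernel⟩

def k97_pm_012 : ∃ t, chk3 f_pm_012 t 30 127 1 = true :=
  ⟨(a (a (a (c (c (c (c (a (b (l 16351296) (a (l 16335056) (b (l 16366840) (l 447782962695)))) (b (a (l 16346080) (l 16305528)) (c (l 470331524983) (l 468720892039)))) (l 16352504)) (l 202969706327)) (c (c (a (a (l 16304984) (l 430602945399)) (b (l 16293960) (l 16326008))) (a (b (l 16341048) (c (l 16362096) (l 16375704))) (b (l 16317792) (l 16357872)))) (a (l 16362496) (l 16356024)))) (c (b (l 16336296) (l 16373752)) (c (b (b (l 16242552) (l 16340192)) (l 16369664)) (b (l 16311152) (c (b (l 16334480) (l 16377584)) (b (l 16354248) (c (l 16376888) (l 16375592)))))))) (b (b (a (c (c (c (c (l 16344176) (l 16318872)) (l 16298328)) (c (l 16287240) (l 16312368))) (c (l 16309912) (c (c (l 16312032) (l 16311760)) (l 16304760)))) (l 1)) (l 1)) (l 1))) (l 1)) (l 1)), by decide +kernel⟩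

def k98_pm_012 : ∃ t, chk3 f_pm_012 t 31 31 1 = true :=
  ⟨(l 1), by decide +kernel⟩

theorem s99_pm_012 : ∃ t, chk3 f_pm_012 t 60 126 1 = true := ex3_a k94_pm_012 k95_pm_012

theorem s100_pm_012 : ∃ t, chk3 f_pm_012 t 30 126 1 = true := ex3_a s99_pm_012 k96_pm_012

theorem s101_pm_012 : ∃ t, chk3 f_pm_012 t 30 63 1 = true := ex3_b s100_pm_012 k97_pm_012

theorem s102_pm_012 : ∃ t, chk3 f_pm_012 t 60 125 1 = true := ex3_b k91_pm_012 k92_pm_012

theorem s103_pm_012 : ∃ t, chk3 f_pm_012 t 30 125 1 = true := ex3_a s102_pm_012 k93_pm_012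

theorem s104_pm_012 : ∃ t, chk3 f_pm_012 t 30 62 1 = true := ex3_b k90_pm_012 s103_pm_012

theorem s105_pm_012 : ∃ t, chk3 f_pm_012 t 30 31 1 = true := ex3_b s104_pm_012 s101_pm_012

theorem s106_pm_012 : ∃ t, chk3 f_pm_012 t 15 31 1 = true := ex3_a s105_pm_012 k98_pm_012

theorem s107_pm_012 : ∃ t, chk3 f_pm_012 t 15 30 1 = true := ex3_a k88_pm_012 k89_pm_012

theorem s108_pm_012 : ∃ t, chk3 f_pm_012 t 15 15 1 = true := ex3_b s107_pm_012 s106_pm_012

theorem s109_pm_012 : ∃ t, chk3 f_pm_012 t 15 29 1 = true := ex3_b k86_pm_012 k87_pm_012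

theorem s110_pm_012 : ∃ t, chk3 f_pm_012 t 15 14 1 = true := ex3_b k85_pm_012 s109_pm_012

theorem s111_pm_012 : ∃ t, chk3 f_pm_012 t 15 7 1 = true := ex3_b s110_pm_012 s108_pm_012

theorem s112_pm_012 : ∃ t, chk3 f_pm_012 t 118 125 3 = true := ex3_b k81_pm_012 k82_pm_012

theorem s113_pm_012 : ∃ t, chk3 f_pm_012 t 118 62 3 = true := ex3_b k80_pm_012 s112_pm_012

theorem s114_pm_012 : ∃ t, chk3 f_pm_012 t 118 31 3 = true := ex3_b s113_pm_012 k83_pm_012

theorem s115_pm_012 : ∃ t, chk3 f_pm_012 t 59 31 3 = true := ex3_a s114_pm_012 k84_pm_012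

theorem s116_pm_012 : ∃ t, chk3 f_pm_012 t 116 498 3 = true := ex3_a k74_pm_012 k75_pm_012

theorem s117_pm_012 : ∃ t, chk3 f_pm_012 t 116 249 3 = true := ex3_b s116_pm_012 k76_pm_012

theorem s118_pm_012 : ∃ t, chk3 f_pm_012 t 58 249 3 = true := ex3_a s117_pm_012 k77_pm_012

theorem s119_pm_012 : ∃ t, chk3 f_pm_012 t 58 124 3 = true := ex3_b k73_pm_012 s118_pm_012

theorem s120_pm_012 : ∃ t, chk3 f_pm_012 t 58 62 3 = true := ex3_b s119_pm_012 k78_pm_012

theorem s121_pm_012 : ∃ t, chk3 f_pm_012 t 58 31 3 = true := ex3_b s120_pm_012 k79_pm_012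

theorem s122_pm_012 : ∃ t, chk3 f_pm_012 t 29 31 3 = true := ex3_a s121_pm_012 s115_pm_012

theorem s123_pm_012 : ∃ t, chk3 f_pm_012 t 118 125 2 = true := ex3_b k69_pm_012 k70_pm_012

theorem s124_pm_012 : ∃ t, chk3 f_pm_012 t 59 125 2 = true := ex3_a s123_pm_012 k71_pm_012

theorem s125_pm_012 : ∃ t, chk3 f_pm_012 t 59 62 2 = true := ex3_b k68_pm_012 s124_pm_012

theorem s126_pm_012 : ∃ t, chk3 f_pm_012 t 59 31 2 = true := ex3_b s125_pm_012 k72_pm_012

theorem s127_pm_012 : ∃ t, chk3 f_pm_012 t 58 125 2 = true := ex3_b k65_pm_012 k66_pm_012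

theorem s128_pm_012 : ∃ t, chk3 f_pm_012 t 58 249 2 = true := ex3_c k63_pm_012 k64_pm_012

theorem s129_pm_012 : ∃ t, chk3 f_pm_012 t 58 124 2 = true := ex3_b k62_pm_012 s128_pm_012

theorem s130_pm_012 : ∃ t, chk3 f_pm_012 t 58 62 2 = true := ex3_b s129_pm_012 s127_pm_012

theorem s131_pm_012 : ∃ t, chk3 f_pm_012 t 58 31 2 = true := ex3_b s130_pm_012 k67_pm_012

theorem s132_pm_012 : ∃ t, chk3 f_pm_012 t 29 31 2 = true := ex3_a s131_pm_012 s126_pm_012

theorem s133_pm_012 : ∃ t, chk3 f_pm_012 t 29 31 1 = true := ex3_c s132_pm_012 s122_pm_012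

theorem s134_pm_012 : ∃ t, chk3 f_pm_012 t 29 15 1 = true := ex3_b k61_pm_012 s133_pm_012

theorem s135_pm_012 : ∃ t, chk3 f_pm_012 t 115 497 3 = true := ex3_b k56_pm_012 k57_pm_012

theorem s136_pm_012 : ∃ t, chk3 f_pm_012 t 115 248 3 = true := ex3_b k55_pm_012 s135_pm_012

theorem s137_pm_012 : ∃ t, chk3 f_pm_012 t 115 124 3 = true := ex3_b s136_pm_012 k58_pm_012

theorem s138_pm_012 : ∃ t, chk3 f_pm_012 t 114 248 3 = true := ex3_b k52_pm_012 k53_pm_012

theorem s139_pm_012 : ∃ t, chk3 f_pm_012 t 114 124 3 = true := ex3_b s138_pm_012 k54_pm_012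

theorem s140_pm_012 : ∃ t, chk3 f_pm_012 t 57 124 3 = true := ex3_a s139_pm_012 s137_pm_012

theorem s141_pm_012 : ∃ t, chk3 f_pm_012 t 57 62 3 = true := ex3_b s140_pm_012 k59_pm_012

theorem s142_pm_012 : ∃ t, chk3 f_pm_012 t 113 248 3 = true := ex3_b k48_pm_012 k49_pm_012

theorem s143_pm_012 : ∃ t, chk3 f_pm_012 t 56 248 3 = true := ex3_a k47_pm_012 s142_pm_012

theorem s144_pm_012 : ∃ t, chk3 f_pm_012 t 56 124 3 = true := ex3_b s143_pm_012 k50_pm_012

theorem s145_pm_012 : ∃ t, chk3 f_pm_012 t 56 62 3 = true := ex3_b s144_pm_012 k51_pm_012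

theorem s146_pm_012 : ∃ t, chk3 f_pm_012 t 28 62 3 = true := ex3_a s145_pm_012 s141_pm_012

theorem s147_pm_012 : ∃ t, chk3 f_pm_012 t 28 31 3 = true := ex3_b s146_pm_012 k60_pm_012

theorem s148_pm_012 : ∃ t, chk3 f_pm_012 t 56 495 3 = true := ex3_a k44_pm_012 k45_pm_012

theorem s149_pm_012 : ∃ t, chk3 f_pm_012 t 56 247 3 = true := ex3_b k43_pm_012 s148_pm_012

theorem s150_pm_012 : ∃ t, chk3 f_pm_012 t 56 123 3 = true := ex3_b k42_pm_012 s149_pm_012

theorem s151_pm_012 : ∃ t, chk3 f_pm_012 t 56 61 3 = true := ex3_b k41_pm_012 s150_pm_012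

theorem s152_pm_012 : ∃ t, chk3 f_pm_012 t 56 30 3 = true := ex3_b k40_pm_012 s151_pm_012

theorem s153_pm_012 : ∃ t, chk3 f_pm_012 t 28 30 3 = true := ex3_a s152_pm_012 k46_pm_012

theorem s154_pm_012 : ∃ t, chk3 f_pm_012 t 28 15 3 = true := ex3_b s153_pm_012 s147_pm_012

theorem s155_pm_012 : ∃ t, chk3 f_pm_012 t 28 248 5 = true := ex3_a k35_pm_012 k36_pm_012

theorem s156_pm_012 : ∃ t, chk3 f_pm_012 t 28 124 5 = true := ex3_b s155_pm_012 k37_pm_012

theorem s157_pm_012 : ∃ t, chk3 f_pm_012 t 28 124 4 = true := ex3_a k33_pm_012 k34_pm_012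

theorem s158_pm_012 : ∃ t, chk3 f_pm_012 t 28 124 2 = true := ex3_c s157_pm_012 s156_pm_012

theorem s159_pm_012 : ∃ t, chk3 f_pm_012 t 28 62 2 = true := ex3_b s158_pm_012 k38_pm_012

theorem s160_pm_012 : ∃ t, chk3 f_pm_012 t 28 31 2 = true := ex3_b s159_pm_012 k39_pm_012

theorem s161_pm_012 : ∃ t, chk3 f_pm_012 t 28 15 2 = true := ex3_b k32_pm_012 s160_pm_012

theorem s162_pm_012 : ∃ t, chk3 f_pm_012 t 28 15 1 = true := ex3_c s161_pm_012 s154_pm_012

theorem s163_pm_012 : ∃ t, chk3 f_pm_012 t 14 15 1 = true := ex3_a s162_pm_012 s134_pm_012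

theorem s164_pm_012 : ∃ t, chk3 f_pm_012 t 14 7 1 = true := ex3_b k31_pm_012 s163_pm_012

theorem s165_pm_012 : ∃ t, chk3 f_pm_012 t 7 7 1 = true := ex3_a s164_pm_012 s111_pm_012

theorem s166_pm_012 : ∃ t, chk3 f_pm_012 t 15 6 1 = true := ex3_a k29_pm_012 k30_pm_012

theorem s167_pm_012 : ∃ t, chk3 f_pm_012 t 7 6 1 = true := ex3_a k28_pm_012 s166_pm_012

theorem s168_pm_012 : ∃ t, chk3 f_pm_012 t 7 3 1 = true := ex3_b s167_pm_012 s165_pm_012

theorem s169_pm_012 : ∃ t, chk3 f_pm_012 t 7 1 1 = true := ex3_b k27_pm_012 s168_pm_012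

theorem s170_pm_012 : ∃ t, chk3 f_pm_012 t 27 62 1 = true := ex3_b k24_pm_012 k25_pm_012

theorem s171_pm_012 : ∃ t, chk3 f_pm_012 t 27 31 1 = true := ex3_b s170_pm_012 k26_pm_012

theorem s172_pm_012 : ∃ t, chk3 f_pm_012 t 55 247 3 = true := ex3_a k22_pm_012 k23_pm_012

theorem s173_pm_012 : ∃ t, chk3 f_pm_012 t 55 247 1 = true := ex3_c k21_pm_012 s172_pm_012

theorem s174_pm_012 : ∃ t, chk3 f_pm_012 t 55 123 1 = true := ex3_b k20_pm_012 s173_pm_012

theorem s175_pm_012 : ∃ t, chk3 f_pm_012 t 55 61 1 = true := ex3_b k19_pm_012 s174_pm_012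

theorem s176_pm_012 : ∃ t, chk3 f_pm_012 t 109 123 1 = true := ex3_c k17_pm_012 k18_pm_012

theorem s177_pm_012 : ∃ t, chk3 f_pm_012 t 109 61 1 = true := ex3_b k16_pm_012 s176_pm_012

theorem s178_pm_012 : ∃ t, chk3 f_pm_012 t 108 123 1 = true := ex3_a k14_pm_012 k15_pm_012

theorem s179_pm_012 : ∃ t, chk3 f_pm_012 t 108 61 1 = true := ex3_b k13_pm_012 s178_pm_012

theorem s180_pm_012 : ∃ t, chk3 f_pm_012 t 54 61 1 = true := ex3_a s179_pm_012 s177_pm_012

theorem s181_pm_012 : ∃ t, chk3 f_pm_012 t 27 61 1 = true := ex3_a s180_pm_012 s175_pm_012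

theorem s182_pm_012 : ∃ t, chk3 f_pm_012 t 27 30 1 = true := ex3_b k12_pm_012 s181_pm_012

theorem s183_pm_012 : ∃ t, chk3 f_pm_012 t 27 15 1 = true := ex3_b s182_pm_012 s171_pm_012

theorem s184_pm_012 : ∃ t, chk3 f_pm_012 t 26 122 1 = true := ex3_a k8_pm_012 k9_pm_012

theorem s185_pm_012 : ∃ t, chk3 f_pm_012 t 26 61 1 = true := ex3_b s184_pm_012 k10_pm_012

theorem s186_pm_012 : ∃ t, chk3 f_pm_012 t 26 30 1 = true := ex3_b k7_pm_012 s185_pm_012

theorem s187_pm_012 : ∃ t, chk3 f_pm_012 t 26 15 1 = true := ex3_b s186_pm_012 k11_pm_012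

theorem s188_pm_012 : ∃ t, chk3 f_pm_012 t 13 15 1 = true := ex3_a s187_pm_012 s183_pm_012

theorem s189_pm_012 : ∃ t, chk3 f_pm_012 t 13 7 1 = true := ex3_b k6_pm_012 s188_pm_012

theorem s190_pm_012 : ∃ t, chk3 f_pm_012 t 12 15 1 = true := ex3_a k4_pm_012 k5_pm_012

theorem s191_pm_012 : ∃ t, chk3 f_pm_012 t 12 7 1 = true := ex3_b k3_pm_012 s190_pm_012

theorem s192_pm_012 : ∃ t, chk3 f_pm_012 t 6 7 1 = true := ex3_a s191_pm_012 s189_pm_012

theorem s193_pm_012 : ∃ t, chk3 f_pm_012 t 6 3 1 = true := ex3_b k2_pm_012 s192_pm_012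

theorem s194_pm_012 : ∃ t, chk3 f_pm_012 t 6 1 1 = true := ex3_b k1_pm_012 s193_pm_012

theorem s195_pm_012 : ∃ t, chk3 f_pm_012 t 3 1 1 = true := ex3_a s194_pm_012 s169_pm_012

theorem s196_pm_012 : ∃ t, chk3 f_pm_012 t 1 1 1 = true := ex3_a k0_pm_012 s195_pm_012

theorem c_pm_012 : CertNX 67108864 469762048 0 536870912 1046898278 26843546 3 false true false .pnp 0 1 2
    ndN1q0 ndN0q2 pcN1 Cut.none Ext.none :=
  certNX2 (fam := false) (s1 := true) (s2 := false) (a := 0) (b := 1) (c := 2) (cn := .pnp) (n1 := ndN1q0) (n2 := ndN0q2) (pc := pcN1) (cut := Cut.none) (xt := Ext.none) (P1 := 67108864) (W1 := 469762048) (P2 := 0) (W2 := 536870912) (P3 := 1046898278) (W3 := 26843546) (N0 := 3)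
    rfl (fun _ => rfl) s196_pm_012

end Pool.Agent.Strip051.G.IE1.Tab.C.NB10

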