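import Pool.Agent.Strip051.G.IE1.Tab

/-! # Certificates N60 (generated) -/

set_option linter.all false
set_option maxRecDepth 100000

namespace Pool.Agent.Strip051.G.IE1.Tab.C.NB10

open Pool.Agent.Strip051.PB Pool.Agent.Strip051.PB.T
open Pool.Agent.Strip051.G.IE1.Tab

noncomputable def f_pm_022 : ℕ → ℕ → ℕ → ℕ → Bool := onCell 67108864 469762048 0 536870912 1046898278 26843546
    (rowNX 3 0 false true false .pp 0 2 2 (qsf 67108864 469762048 0 536870912 2) ndN1q0 ndN0q2 pcN2 Cut.none Ext.none)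

def k0_pm_022 : ∃ t, chk3 f_pm_022 t 4 4 1 = true :=
  ⟨(a (b (c (c (a (a (a (l 16223064) (b (l 16358088) (l 16338488))) (l 16189288)) (a (l 15885272) (l 15893568))) (a (a (a (l 16260168) (l 16255040)) (l 16227424)) (a (l 15980808) (l 15880720)))) (a (b (a (l 16230768) (l 16359312)) (a (a (l 16247160) (b (l 16345784) (l 16349344))) (l 16280408))) (a (b (l 16069488) (l 16036624)) (l 15861024)))) (a (c (c (a (b (a (l 16306304) (l 16379960)) (a (l 16302232) (l 16376168))) (b (l 16212480) (l 16019760))) (a (b (l 16191416) (l 16278168)) (b (l 16247888) (l 16099424)))) (a (b (l 16144608) (l 16233544)) (l 16044616))) (c (a (c (l 15701280) (b (l 15967248) (l 15659224))) (b (l 15775752) (l 15632832))) (a (b (l 15948136) (l 15807904)) (b (l 15746112) (l 15592496)))))) (a (b (c (b (l 15710528) (l 15637504)) (b (l 15677672) (l 15602048))) (c (b (b (l 15571664) (l 15498664)) (l 15386688)) (b (b (b (l 15547944) (l 15514872)) (l 15415760)) (c (l 15312496) (l 15141704))))) (a (b (c (b (l 15494056)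 (l 15392928)) (l 15296104)) (b (c (b (l 15309280) (l 15237720)) (b (l 15261728) (l 15187504))) (c (l 15121368) (l 15066864)))) (l 1)))), by decide +kernel⟩

def k1_pm_022 : ∃ t, chk3 f_pm_022 t 4 5 1 = true :=
  ⟨(a (b (a (c (a (b (c (a (l 16335288) (l 16256008)) (l 16187880)) (c (a (l 16262448) (l 16073096)) (a (l 16256976) (l 16113392)))) (c (b (l 16016112) (l 15881696)) (b (l 15968320) (c (l 15849752) (l 15868840))))) (a (a (l 16142896) (l 16156920)) (l 15810136))) (c (c (a (l 15631544) (l 15416808)) (a (b (c (l 15697008) (l 15684464)) (l 15414896)) (l 15401616))) (c (a (b (l 15675832) (l 15526216)) (b (l 15453352) (c (l 15309144) (l 15294608)))) (a (l 15578016) (l 15360352))))) (c (a (c (a (b (a (l 15948536) (l 15985536)) (a (l 16006872) (l 15836144))) (b (l 15738720) (l 15578088))) (a (b (a (l 16075272) (l 15916368)) (c (a (l 15929104) (l 15836136)) (a (l 15998240) (l 15835072)))) (b (c (l 15730528) (a (l 15813016) (l 15636608))) (c (l 15577048) (a (l 15529424) (l 15484192))))))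 (a (b (c (l 15399424) (l 15388768)) (c (l 15239328) (l 15222736))) (b (l 15171408) (l 15004624)))) (a (a (b (l 16035360) (l 15639424)) (c (b (l 15711456) (c (a (l 15651864) (l 15300888)) (l 15547744))) (l 15608008))) (c (a (b (c (a (l 15462784) (l 15293384)) (l 15362496)) (c (l 15041368) (a (l 15277096) (l 15111224)))) (b (c (l 15146136) (l 15131608)) (l 14965104))) (a (b (l 15342808) (c (l 15174872) (l 15169200))) (b (l 15038424) (c (a (l 14989720) (l 14896480)) (l 14924432)))))))) (a (b (c (l 15152968) (c (b (l 15197064) (l 15033536)) (b (a (l 15256016) (l 15079760)) (a (c (l 15102640) (l 15086616)) (l 14910456))))) (c (l 14673952) (c (l 14774448) (c (b (l 14838816) (l 14659656)) (a (b (l 14915216) (l 14567656)) (l 14614024)))))) (b (c (l 62842871943) (b (l 14780256) (l 1))) (l 1)))), by decide +kernel⟩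

def k2_pm_022 : ∃ t, chk3 f_pm_022 t 5 2 1 = true :=
  ⟨(l 1), by decide +kernel⟩

def k3_pm_022 : ∃ t, chk3 f_pm_022 t 3 2 1 = true :=
  ⟨(l 1), by decide +kernel⟩

def k4_pm_022 : ∃ t, chk3 f_pm_022 t 8 12 1 = true :=
  ⟨(c (a (a (b (c (a (l 15850096) (l 15674536)) (c (a (l 15856888) (l 15678208)) (a (b (l 15895152) (l 15822552)) (b (l 15706120) (l 15635880))))) (c (a (l 15684688) (l 15510512)) (a (b (l 15727872) (l 15654608)) (l 15506480)))) (b (c (l 15415056) (l 15198472)) (c (l 15249864) (l 15230368)))) (a (b (c (l 15073712) (l 15048000)) (c (l 14901816) (l 14871048))) (b (l 14831856) (l 14651016)))) (a (b (a (c (c (a (l 15738232) (b (l 15709912) (l 15633712))) (l 15741616)) (l 15729208)) (c (c (b (a (l 15537512) (l 15347560)) (l 15269472)) (a (l 15479024) (b (l 15342392) (l 15056032)))) (l 15308832))) (a (c (c (a (b (l 15604176) (c (l 15646176) (l 15648360))) (b (c (l 15550528) (l 15550880)) (l 15455128))) (a (l 15480272) (b (l 15536288) (c (l 15322072) (l 15447368))))) (l 15441424))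 (c (c (l 15179160) (c (b (l 15131544) (l 15168432)) (a (b (l 15350248) (l 15256608)) (l 14986128)))) (c (b (a (l 15341400) (l 14969096)) (a (c (l 15244664) (l 15243624)) (c (l 15059424) (l 15047704)))) (l 15090144))))) (a (c (b (c (l 15033528) (a (b (l 15150392) (l 15063600)) (l 14933584))) (l 14843952)) (b (c (a (b (l 15142920) (l 15041952)) (b (l 14959088) (l 14870648))) (a (l 15080192) (l 14899008))) (c (a (b (c (l 14961976) (l 14951824)) (l 14861496)) (l 14730168)) (a (b (l 14933608) (c (l 14849576) (l 14839160))) (b (c (l 14764760) (l 14754352)) (c (l 14668928) (l 14658552))))))) (c (l 14691856) (b (c (l 14761592) (a (b (l 14835096) (l 14743768)) (l 483749577399))) (b (c (l 14619416) (l 14600784)) (l 1))))))), by decide +kernel⟩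

def k5_pm_022 : ∃ t, chk3 f_pm_022 t 16 13 2 = true :=
  ⟨(a (b (c (a (b (l 15584472) (l 15589616)) (l 15412000)) (a (b (l 15578856) (l 15575104)) (l 15393072))) (a (c (l 15610312) (l 15592776)) (c (l 15430112) (l 15408960)))) (b (c (b (l 15146488) (l 15145600)) (l 15119528)) (c (l 15154320) (l 15128232)))), by decide +kernel⟩

def k6_pm_022 : ∃ t, chk3 f_pm_022 t 16 13 6 = true :=
  ⟨(b (a (c (a (b (l 15575384) (l 15574224)) (l 15385312)) (a (b (c (b (l 15584104) (l 15570152)) (l 15569344)) (c (l 15573072) (b (a (l 15623776) (l 15516712)) (l 15570672)))) (b (c (l 15385408) (b (l 15380968) (l 15377440))) (l 15377648)))) (b (l 15101144) (l 15093560))) (a (a (b (c (l 15574160) (l 15574432)) (l 15584712)) (l 15388824)) (l 15101784))), by decide +kernel⟩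

def k7_pm_022 : ∃ t, chk3 f_pm_022 t 16 13 7 = true :=
  ⟨(b (a (c (a (b (l 15553336) (c (b (l 15563424) (l 15568512)) (l 15557696))) (b (c (b (l 15378872) (l 15365216)) (l 15367168)) (c (b (l 15370400) (l 15372392)) (b (l 15365760) (a (l 15419456) (l 15315176)))))) (a (l 15544480) (l 15225352))) (c (b (a (c (b (l 15186408) (l 15178776)) (b (l 15174040) (l 15169728))) (b (l 14987728) (l 14979768))) (a (c (l 15176664) (b (l 15170328) (l 15170496))) (l 14977664))) (b (a (l 15166800) (c (b (l 14974880) (l 14968488)) (l 14961600))) (a (c (b (l 15159000) (a (l 15208896) (l 15113904))) (l 15151736)) (c (l 14967448) (b (l 14958488) (l 14958872))))))) (a (c (a (b (c (b (a (l 15624288) (l 15519264)) (l 15572208)) (b (l 15563424) (a (l 15620488) (l 15515328)))) (c (l 15579448) (b (a (c (l 15624152) (l 15619416)) (l 15522248)) (l 15577312)))) (b (c (l 15374928) (b (l 15241488) (l 15370432))) (l 15379880))) (a (b (l 15559504) (c (b (a (l 15618840) (c (l 15518800) (l 15513520))) (a (c (l 15622776)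 (l 15618520)) (l 15522096))) (b (l 15560848) (c (l 15418128) (l 15562880))))) (b (c (b (l 15294872) (a (l 15409512) (l 15314576))) (l 15225784)) (c (b (l 15326904) (l 15375688)) (b (a (l 15408120) (c (l 15314976) (l 15311016))) (a (c (l 15419864) (l 15416112)) (l 15319280))))))) (c (l 15082984) (b (a (c (l 15124328) (b (a (l 15203344) (l 15107096)) (a (l 15208528) (l 15111208)))) (l 14965736)) (l 15072552))))), by decide +kernel⟩

def k8_pm_022 : ∃ t, chk3 f_pm_022 t 17 13 1 = true :=
  ⟨(a (b (c (c (b (l 14790456) (l 14783592)) (b (l 14757680) (l 14750768))) (c (l 14720592) (c (l 14695544) (b (a (c (l 14778216) (b (l 14773176) (l 14764144))) (l 14590816)) (l 14674992))))) (l 1)) (l 1)), by decide +kernel⟩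

def k9_pm_022 : ∃ t, chk3 f_pm_022 t 9 6 1 = true :=
  ⟨(a (a (b (b (c (l 14647360) (l 14576216)) (l 1)) (l 1)) (l 1)) (l 1)), by decide +kernel⟩

def k10_pm_022 : ∃ t, chk3 f_pm_022 t 4 7 1 = true :=
  ⟨(b (b (a (a (a (a (c (c (l 15650000) (l 15632688)) (c (l 15615144) (b (c (l 15591128) (c (b (b (l 15535816) (l 15582224)) (l 15589856)) (b (a (c (l 15624408) (l 15620832)) (c (l 15526592) (l 15502096))) (a (c (l 15635264) (b (l 15629344) (l 15634984))) (l 15535168))))) (l 15609832)))) (b (c (l 15443104) (c (l 15411600) (l 99351562695))) (l 1))) (l 1)) (l 1)) (l 1)) (l 1)) (l 1)), by decide +kernel⟩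

def k11_pm_022 : ∃ t, chk3 f_pm_022 t 5 3 1 = true :=
  ⟨(l 1), by decide +kernel⟩

def k12_pm_022 : ∃ t, chk3 f_pm_022 t 3 3 1 = true :=
  ⟨(l 1), by decide +kernel⟩

theorem s13_pm_022 : ∃ t, chk3 f_pm_022 t 16 13 3 = true := ex3_c k6_pm_022 k7_pm_022

theorem s14_pm_022 : ∃ t, chk3 f_pm_022 t 16 13 1 = true := ex3_c k5_pm_022 s13_pm_022

theorem s15_pm_022 : ∃ t, chk3 f_pm_022 t 8 13 1 = true := ex3_a s14_pm_022 k8_pm_022

theorem s16_pm_022 : ∃ t, chk3 f_pm_022 t 8 6 1 = true := ex3_b k4_pm_022 s15_pm_022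

theorem s17_pm_022 : ∃ t, chk3 f_pm_022 t 4 6 1 = true := ex3_a s16_pm_022 k9_pm_022

theorem s18_pm_022 : ∃ t, chk3 f_pm_022 t 4 3 1 = true := ex3_b s17_pm_022 k10_pm_022

theorem s19_pm_022 : ∃ t, chk3 f_pm_022 t 2 3 1 = true := ex3_a s18_pm_022 k11_pm_022

theorem s20_pm_022 : ∃ t, chk3 f_pm_022 t 1 3 1 = true := ex3_a s19_pm_022 k12_pm_022

theorem s21_pm_022 : ∃ t, chk3 f_pm_022 t 4 2 1 = true := ex3_b k0_pm_022 k1_pm_022

theorem s22_pm_022 : ∃ t, chk3 f_pm_022 t 2 2 1 = true := ex3_a s21_pm_022 k2_pm_022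

theorem s23_pm_022 : ∃ t, chk3 f_pm_022 t 1 2 1 = true := ex3_a s22_pm_022 k3_pm_022

theorem s24_pm_022 : ∃ t, chk3 f_pm_022 t 1 1 1 = true := ex3_b s23_pm_022 s20_pm_022

theorem c_pm_022 : CertNX 67108864 469762048 0 536870912 1046898278 26843546 3 false true false .pp 0 2 2
    ndN1q0 ndN0q2 pcN2 Cut.none Ext.none :=
  certNX0 (fam := false) (s1 := true) (s2 := false) (a := 0) (b := 2) (c := 2) (cn := .pp) (n1 := ndN1q0) (n2 := ndN0q2) (pc := pcN2) (cut := Cut.none) (xt := Ext.none) (P1 := 67108864) (W1 := 469762048) (P2 := 0) (W2 := 536870912) (P3 := 1046898278) (W3 := 26843546) (N0 := 3)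
    rfl s24_pm_022

noncomputable def f_pm_101 : ℕ → ℕ → ℕ → ℕ → Bool := onCell 0 536870912 536870912 536870912 1046898278 26843546
    (rowNX 3 2 false true false .npn 1 0 1 (qsf 536870912 536870912 536870912 536870912 0) ndN1q1 ndN0q1 pcN0 Cut.none Ext.none)

def k0_pm_101 : ∃ t, chk3 f_pm_101 t 4 2 1 = true :=
  ⟨(b (l 4) (b (l 4) (a (a (a (c (a (c (l 16667880) (l 16604152)) (c (a (b (l 16746184) (l 16618992)) (l 16687184)) (a (l 16678976) (l 16684328)))) (a (a (c (l 16662472) (c (l 16661528) (a (l 16575296) (l 16663000)))) (c (c (l 16670960) (l 16669784)) (l 59826831639))) (c (a (l 16676712) (l 16683544)) (l 16678944)))) (c (a (c (b (c (l 16755488) (l 16755256)) (l 16635704)) (c (l 16671744) (l 16692872))) (c (l 16705016) (l 16705768))) (c (l 16697736) (l 16696912)))) (c (c (a (l 16720320) (c (l 9361232503) (l 16738872))) (a (b (l 16768928) (l 16678920)) (l 16738520))) (a (l 16719664) (l 16737504)))) (b (l 4) (a (c (a (l 16732888) (l 16749664)) (l 16737592)) (c (l 16764280) (l 16763832))))))),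 by decide +kernel⟩

def k1_pm_101 : ∃ t, chk3 f_pm_101 t 8 6 1 = true :=
  ⟨(a (a (c (b (a (c (l 16357232) (l 16353416)) (c (a (b (l 16473360) (l 16304848)) (l 16398656)) (a (l 16378416) (l 16386464)))) (a (b (l 16046408) (l 15787216)) (c (b (l 16106728) (a (l 15868480) (l 15891936))) (a (l 15955584) (l 15971184))))) (b (a (c (a (l 16340088) (c (l 16359712) (l 16354888))) (a (c (l 16335928) (a (l 16329272) (l 16337248))) (l 16349696))) (c (l 16312856) (l 16372936))) (a (c (b (l 16026240) (a (l 15729832) (l 15774448))) (a (b (l 15998824) (c (l 15709560) (l 15695456))) (b (l 16024056) (l 15745336)))) (c (b (l 16072600) (l 15820720)) (l 15931112))))) (c (b (a (c (a (l 16404152) (l 16411840)) (l 16404336)) (c (l 16430280) (l 16433832))) (a (c (b (l 16132168) (l 15909568)) (l 16004760)) (b (l 16169328) (l 15951072)))) (b (c (l 16418648) (l 16414784)) (b (l 16140776) (l 15905064))))) (b (c (a (c (l 16471896) (l 16473632)) (c (a (l 16511512) (l 16534928)) (l 16520272))) (a (l 16468344) (l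 16513552))) (c (a (b (l 16236512) (l 16035424)) (b (l 16311928) (l 16133248))) (b (l 16260752) (l 16060112))))), by decide +kernel⟩

def k2_pm_101 : ∃ t, chk3 f_pm_101 t 8 14 1 = true :=
  ⟨(a (a (c (a (b (b (l 15416240) (c (l 15195968) (l 15087360))) (c (l 14905568) (l 14445056))) (b (b (c (l 15566696) (l 15501600)) (c (a (l 15300952) (l 15344680)) (a (l 15190240) (l 15233112)))) (c (a (a (l 14990696) (l 15018592)) (l 15042824)) (a (l 14805096) (l 14850432))))) (a (c (b (a (l 15093992) (b (l 15353432) (c (l 15044168) (l 14983512)))) (a (l 14428288) (c (l 14582280) (l 14472312)))) (a (b (b (l 15208720) (c (l 14839896) (a (l 14754016) (l 14801920)))) (c (l 14256768) (a (l 14044400) (l 14170712)))) (b (c (l 15101712) (l 15060960)) (c (l 14365184) (l 14264040))))) (c (b (b (l 15441776) (a (l 15078056) (l 15144640))) (a (l 14604272) (l 14683360))) (b (l 15195408) (l 14473552))))) (c (b (b (a (l 15606912) (l 15674576)) (a (c (a (l 15371104) (l 15401344)) (l 15309744)) (l 15438608))) (a (c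 (a (l 15064840) (l 15092520)) (l 14912328)) (l 14932888))) (b (b (l 15569224) (c (l 15303472) (l 15229328))) (c (l 14869880) (l 14731856))))) (c (b (b (l 15826064) (a (c (l 15580648) (l 15539256)) (a (l 15652992) (l 15703240)))) (a (c (l 15283904) (l 15197272)) (c (a (l 15392888) (l 15449744)) (l 15339568)))) (b (a (l 15504880) (l 15686368)) (a (l 15040768) (l 15206848))))), by decide +kernel⟩

def k3_pm_101 : ∃ t, chk3 f_pm_101 t 32 15 1 = true :=
  ⟨(b (c (b (a (l 14671552) (c (a (l 14895768) (l 14900040)) (a (l 14552104) (l 14581704)))) (a (c (l 15216640) (l 14584056)) (c (a (c (l 15186528) (l 14933464)) (l 14994952)) (a (l 14550464) (l 14534800))))) (a (c (a (l 13930824) (c (a (l 14127600) (l 14159640)) (a (l 13875824) (l 13919248)))) (a (c (a (l 13472376) (l 13551384)) (a (c (l 13256304) (l 13111344)) (l 13281264))) (c (l 13659184) (l 13425552)))) (c (a (c (l 14196880) (l 13992920)) (l 14177504)) (l 13764512)))) (c (b (a (c (b (l 15959824) (l 16054624)) (c (l 15621624) (l 15107904)))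 (c (b (a (c (l 15657952) (l 15331488)) (l 15307152)) (a (l 15993632) (l 15660944))) (c (b (l 14928184) (l 15283760)) (a (l 14808760) (l 14714328))))) (a (c (l 15999344) (c (l 15978048) (l 15964376))) (c (a (l 15970800) (l 15991560)) (a (l 15972624) (l 15703704))))) (a (c (b (a (l 14357896) (c (l 14507176) (l 14041160))) (b (a (l 15795192) (c (l 15445224) (l 14750904))) (a (l 15933120) (c (l 15930344) (l 15810472))))) (b (a (c (l 13448536) (a (l 12738464) (l 12896280))) (l 13345168)) (c (a (b (l 14138920) (b (l 15563680) (l 15906792))) (b (l 14052184) (b (l 14661456) (l 15054432)))) (a (b (a (l 12891920) (l 13089792)) (c (a (l 15151576) (l 14477336)) (l 163839726759))) (l 13762896))))) (b (c (l 14264256) (l 13620968)) (c (b (c (b (l 14852600) (l 15105672)) (l 14555536)) (l 15254352)) (b (l 13939656) (b (l 14323704) (l 14734576)))))))), by decide +kernel⟩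

def k4_pm_101 : ∃ t, chk3 f_pm_101 t 33 15 1 = true :=
  ⟨(b (b (c (a (c (l 14898976) (l 14648536)) (l 14842424)) (l 14371848)) (c (c (a (c (l 15002712) (l 14811880)) (l 14891392)) (a (l 14553728) (l 14613912))) (l 14129776))) (c (b (c (a (b (c (l 15241920) (l 15017240)) (l 15369344)) (b (l 15019080) (l 15174672))) (c (b (l 14772688) (a (l 15014304) (l 14924776))) (l 14666536))) (a (c (l 15877136) (l 15597784)) (c (l 15514960) (l 15150480)))) (b (c (l 14379632) (l 13996224)) (b (c (c (l 14771920) (l 14567032)) (l 14249912)) (c (l 14922056) (b (l 14505288) (l 14753024))))))), by decide +kernel⟩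

def k5_pm_101 : ∃ t, chk3 f_pm_101 t 17 15 1 = true :=
  ⟨(b (c (a (b (l 14957464) (c (l 14923000) (l 14708680))) (c (b (l 15142960) (c (l 15017560) (l 14928712))) (l 14905976))) (a (l 14503912) (l 14684272))) (c (b (c (a (b (l 14978424) (l 15065352)) (b (c (l 15040704) (l 14948512)) (l 15033640))) (a (b (l 14737336) (l 14834224)) (l 14830632))) (a (c (l 15269768) (b (l 14959312) (l 15145896))) (c (l 15155344) (l 14995176)))) (b (a (l 14417120) (l 14561016)) (c (b (a (l 14713824) (l 14762080)) (l 14900912)) (b (l 14535440) (b (l 14662360) (l 14781200))))))), by decide +kernel⟩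

def k6_pm_101 : ∃ t, chk3 f_pm_101 t 9 3 1 = true :=
  ⟨(b (a (b (c (a (l 16558520) (l 16587320)) (l 16564968)) (c (b (l 16381408) (l 16222672)) (b (l 16367344) (l 16199296)))) (b (c (l 16632544) (l 16627464)) (b (l 16456824) (l 16311848)))) (b (a (a (b (c (l 15847976) (l 15771368)) (c (l 15476384) (l 15327800))) (b (l 15865520) (l 15484856))) (b (a (l 15690368) (l 15993968)) (a (l 15557112) (l 15626632)))) (a (b (a (c (b (l 15181344) (l 14959336)) (l 14834552)) (b (l 15182056) (l 14945592))) (c (b (c (b (l 15074912) (l 15086400)) (b (l 14937552) (l 14975768))) (a (l 15073544) (l 15125424))) (b (l 14773088) (b (a (l 14763208) (l 14894448)) (c (l 14986248) (b (l 14851712) (l 14916120))))))) (b (b (l 15311344) (a (b (l 15089448) (l 15013584)) (l 15094248))) (b (c (b (a (l 15117288) (l 15138496)) (c (l 15168552) (l 14927904))) (l 14963432)) (c (l 14911064) (b (c (l 14888536) (l 14966264)) (c (l 15093896) (a (l 15039520) (l 15014512)))))))))), by decide +kernel⟩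

def k7_pm_101 : ∃ t, chk3 f_pm_101 t 5 1 1 = true :=
  ⟨(b (b (l 4) (a (b (l 4) (a (c (l 152169437383) (l 133378956695)) (l 4))) (l 4))) (b (a (b (a (c (l 16690984) (l 16687960)) (c (l 16738608) (l 16737248))) (a (b (l 16551784) (l 16432184)) (b (l 16653832) (l 16571592)))) (b (c (a (l 16768464) (l 16777208)) (a (l 16768152) (l 16777208))) (a (b (l 16741312) (l 16701696)) (b (l 16777176) (l 16759488))))) (b (a (b (a (l 16099560) (l 16272280)) (a (l 15728256) (l 15905272))) (a (b (l 16440568) (l 16098496)) (b (l 16519360) (l 16196792)))) (b (a (b (l 15522664) (a (l 15187336) (l 15335264))) (a (b (l 15788480) (l 15509208)) (b (l 15888240) (l 15607344)))) (a (b (c (c (b (l 15301416) (l 15264248)) (l 15097016)) (l 15142384)) (a (c (l 15156208) (b (l 15021952) (c (l 15067504) (l 15006832)))) (c (l 15252080) (b (l 15165016) (l 14902976))))) (b (b (a (l 15441672) (l 15537392)) (c (a (l 15399920) (l 15505912)) (l 15354720))) (c (a (l 15374600) (l 15447400)) (a (b (l 15316552) (l 15128776))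 (b (l 15407032) (l 15333976)))))))))), by decide +kernel⟩

def k8_pm_101 : ∃ t, chk3 f_pm_101 t 3 1 1 = true :=
  ⟨(b (l 4) (b (a (a (b (c (l 131768254471) (l 105998450695)) (c (l 16768376) (l 16768064))) (b (l 4) (c (l 282964279319) (l 278669308775)))) (a (b (l 1) (c (l 339335828631) (l 344704537127))) (l 1))) (b (a (a (b (l 16519464) (l 16196936)) (b (l 16519464) (l 16196936))) (a (b (l 16519464) (l 16196936)) (b (l 1) (l 16196936)))) (b (a (b (l 15888384) (c (l 15627536) (l 15603512))) (b (l 106868805159) (c (l 15522680) (l 15603512)))) (a (b (c (c (b (l 15584616) (l 15531080)) (l 15525640)) (l 15487024)) (c (l 15447504) (b (l 15302320) (c (l 15392376) (l 15365632))))) (b (c (c (b (l 15584616) (l 15531080)) (l 15525640)) (l 15487024)) (c (l 15447504) (b (l 15344264) (a (l 15376032) (l 15376032)))))))))), by decide +kernel⟩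

theorem s9_pm_101 : ∃ t, chk3 f_pm_101 t 16 15 1 = true := ex3_a k3_pm_101 k4_pm_101

theorem s10_pm_101 : ∃ t, chk3 f_pm_101 t 8 15 1 = true := ex3_a s9_pm_101 k5_pm_101

theorem s11_pm_101 : ∃ t, chk3 f_pm_101 t 8 7 1 = true := ex3_b k2_pm_101 s10_pm_101

theorem s12_pm_101 : ∃ t, chk3 f_pm_101 t 8 3 1 = true := ex3_b k1_pm_101 s11_pm_101

theorem s13_pm_101 : ∃ t, chk3 f_pm_101 t 4 3 1 = true := ex3_a s12_pm_101 k6_pm_101

theorem s14_pm_101 : ∃ t, chk3 f_pm_101 t 4 1 1 = true := ex3_b k0_pm_101 s13_pm_101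

theorem s15_pm_101 : ∃ t, chk3 f_pm_101 t 2 1 1 = true := ex3_a s14_pm_101 k7_pm_101

theorem s16_pm_101 : ∃ t, chk3 f_pm_101 t 1 1 1 = true := ex3_a s15_pm_101 k8_pm_101

theorem c_pm_101 : CertNX 536870912 536870912 536870912 536870912 1046898278 26843546 3 false true false .npn 1 0 1
    ndN1q1 ndN0q1 pcN0 Cut.none Ext.none :=
  certNX2 (fam := false) (s1 := true) (s2 := false) (a := 1) (b := 0) (c := 1) (cn := .npn) (n1 := ndN1q1) (n2 := ndN0q1) (pc := pcN0) (cut := Cut.none) (xt := Ext.none) (P1 := 536870912) (W1 := 536870912) (P2 := 536870912) (W2 := 536870912) (P3 := 1046898278) (W3 := 26843546) (N0 := 3)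
    rfl (fun _ => rfl) s16_pm_101

noncomputable def f_pm_102 : ℕ → ℕ → ℕ → ℕ → Bool := onCell 0 536870912 0 536870912 1046898278 26843546
    (rowNX 3 2 false true false .npp 1 0 2 (qsf 536870912 536870912 0 536870912 0) ndN1q1 ndN0q2 pcN0 Cut.none Ext.none)

def k0_pm_102 : ∃ t, chk3 f_pm_102 t 4 2 1 = true :=
  ⟨(a (l 2) (l 3)), by decide +kernel⟩

def k1_pm_102 : ∃ t, chk3 f_pm_102 t 8 6 1 = true :=
  ⟨(l 2), by decide +kernel⟩

def k2_pm_102 : ∃ t, chk3 f_pm_102 t 16 7 1 = true :=
  ⟨(b (l 2) (a (b (l 2) (a (b (l 2) (c (l 15989080) (b (a (l 2) (c (c (l 15997488) (l 15951712)) (l 15918064))) (c (a (l 15945640) (l 15949560)) (c (a (l 15863816) (l 15941088)) (a (c (a (l 15913000) (l 15920088)) (l 15907896)) (l 15920992))))))) (c (c (a (b (l 16092176) (l 15998648)) (l 16007904)) (b (c (b (l 16146696) (l 16083960)) (b (l 16051680) (l 16086608))) (a (l 15997776) (l 16038688)))) (c (b (c (b (l 16121928) (l 16088112)) (l 16081640)) (c (l 16016344) (b (l 16016592) (l 15934744)))) (b (l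 16051584) (b (l 15988184) (l 15771920))))))) (b (b (a (l 2) (a (l 2) (a (l 2) (c (l 16217800) (l 16249744))))) (c (b (a (l 2) (l 16077648)) (c (a (l 16133656) (l 16285720)) (a (l 16223832) (l 16210648)))) (l 16099152))) (c (c (a (b (l 16051920) (l 16067632)) (b (l 16208448) (l 16050664))) (b (b (a (l 16055848) (l 16172288)) (l 16104224)) (l 15991496))) (b (c (b (l 16111680) (l 16059112)) (l 16066904)) (c (b (c (l 16043824) (l 16023976)) (l 15588336)) (b (l 16010624) (l 15387632)))))))), by decide +kernel⟩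

def k3_pm_102 : ∃ t, chk3 f_pm_102 t 17 7 1 = true :=
  ⟨(b (b (b (l 2) (a (l 2) (a (l 2) (c (c (c (l 16595240) (l 16632064)) (l 16600576)) (l 16504712))))) (b (a (l 2) (c (c (b (b (a (l 16557840) (c (l 16689496) (l 16681832))) (l 16480936)) (a (l 16610824) (l 16584792))) (l 16627168)) (l 16603880))) (c (a (c (l 16499344) (a (l 16434544) (l 16412976))) (c (a (l 16469880) (c (l 16433440) (l 16444280))) (l 16443184))) (a (l 16359384) (l 16435192))))) (b (c (b (a (b (c (l 16368664) (l 16126512)) (c (l 16305872) (a (l 16254616) (l 16244448)))) (c (a (b (l 16329264) (l 16272840)) (c (b (l 16320936) (l 16268336)) (l 16279992))) (l 16209592))) (c (a (l 16060736) (b (l 16261312) (l 16235704))) (a (l 16187304) (l 16212744)))) (a (b (b (l 16286280) (l 16221792)) (l 16166744)) (b (l 16070856) (l 16188216)))) (c (b (c (a (l 16188576) (l 16035784)) (a (b (l 16163688) (l 16107872)) (l 15991584))) (a (l 15712328) (l 15497744))) (b (a (l 15976824) (l 15936760)) (c (b (l 15582944) (l 15237840)) (b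 (l 15483536) (a (l 15136672) (l 15030968)))))))), by decide +kernel⟩

def k4_pm_102 : ∃ t, chk3 f_pm_102 t 18 6 1 = true :=
  ⟨(b (l 2) (a (b (l 2) (a (l 2) (a (b (l 2) (c (b (l 870904507783) (l 16584624)) (l 197131551399))) (b (c (l 301284367063) (l 16460808)) (c (c (l 16343296) (l 16401744)) (l 16311000)))))) (a (b (a (l 2) (a (l 2) (b (l 2) (c (l 16355760) (l 16479136))))) (c (b (b (c (l 16246632) (l 16263080)) (b (l 16126152) (c (l 16030128) (l 16126288)))) (a (b (l 16179456) (l 16325904)) (l 16173432))) (b (b (l 16256144) (b (l 16279296) (l 16050040))) (a (l 16291104) (l 16153824))))) (b (b (a (l 2) (b (l 2) (c (b (b (l 1190879599031) (c (l 16491392) (l 16510224))) (l 16525920)) (b (b (l 16486336) (l 16464976)) (l 16608328))))) (b (c (c (l 16304456) (l 16343832)) (l 16297952)) (c (c (l 16149152) (l 16184320)) (l 16132000)))) (b (c (c (b (l 16056256) (b (l 15852360) (l 15902280))) (b (l 16087216) (b (l 15922168) (l 15887528)))) (b (l 16070416) (b (l 15900624) (l 15864944)))) (c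 (l 15983384) (l 15956464))))))), by decide +kernel⟩

def k5_pm_102 : ∃ t, chk3 f_pm_102 t 19 12 1 = true :=
  ⟨(b (b (l 3) (a (l 3) (a (l 3) (b (l 3) (c (a (l 244443647063) (l 234779934647)) (c (l 233706173815) (l 224042494583))))))) (a (a (b (l 2) (b (a (l 2) (c (b (c (l 16333256) (l 16370208)) (l 218606238391)) (b (l 1317044080967) (l 16422424)))) (c (c (l 250818392007) (l 16332240)) (c (l 16328384) (l 16345456))))) (b (b (l 3) (a (a (c (l 193977418855) (l 192903659575)) (b (l 3) (c (l 16417296) (l 16451584)))) (c (b (l 229947860151) (l 16473624)) (b (l 224579138567) (l 16489016))))) (b (c (a (b (l 16452144) (l 16517008)) (l 16524016)) (a (l 16404800) (l 16520264))) (c (b (l 16506800) (a (l 16604856) (l 16607584))) (b (l 16503928) (a (l 16602496) (l 16584312))))))) (b (a (b (a (c (l 238001048935) (l 234242943895)) (c (b (l 237464289495) (l 206862636215)) (b (l 231558704695) (l 16559392)))) (c (a (b (l 16518024) (l 16562880)) (l 16583960)) (a (l 193440745527) (l 16582688)))) (b (c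 (a (l 16590328) (l 16587472)) (a (l 16588616) (l 16584696))) (c (l 16589040) (l 16586160)))) (a (a (b (c (l 16599704) (l 16597976)) (c (b (l 16604032) (l 16562936)) (b (l 16601600) (l 16558816)))) (b (c (l 16603928) (l 16601568)) (b (c (l 16570240) (l 16566400)) (l 16489584)))) (b (c (b (l 16552432) (a (l 16549384) (l 16533408))) (b (l 16548760) (a (l 16545536) (l 16528016)))) (l 16397376)))))), by decide +kernel⟩

def k6_pm_102 : ∃ t, chk3 f_pm_102 t 19 13 1 = true :=
  ⟨(a (b (b (a (c (b (a (b (l 16448304) (c (l 16439184) (l 16479200))) (b (c (l 16535560) (l 16555240)) (b (a (l 16555160) (l 16581232)) (l 16524936)))) (a (c (l 16389200) (l 16429016)) (c (l 16306560) (l 16343552)))) (b (b (a (l 16483616) (l 16490336)) (a (b (l 16531288) (l 16493288)) (b (a (l 16616176) (l 16599664)) (l 16562968)))) (a (b (l 16487168) (l 16481904)) (l 16294024)))) (b (b (c (a (b (l 16623544) (l 16595536)) (l 16542872)) (a (b (l 16621864) (l 16592728)) (l 16537984))) (l 16425240)) (l 16242656))) (a (c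 (a (c (l 16022816) (l 16076520)) (c (a (l 16067112) (l 16001544)) (l 15812664))) (a (l 15999520) (a (l 16037808) (l 15969032)))) (c (l 15932304) (l 15903704)))) (a (b (c (b (a (l 15820816) (c (l 15655776) (l 15636360))) (a (c (l 15687824) (l 15669000)) (b (a (l 15542376) (l 15494776)) (l 15562536)))) (b (a (l 15788080) (l 15606680)) (b (a (l 15625800) (l 15477096)) (l 15581128)))) (c (a (l 15800664) (l 15693032)) (l 15563656))) (b (b (b (l 15610632) (l 15508664)) (l 15529368)) (l 15677760)))) (b (b (b (c (l 16207944) (l 16236648)) (c (l 16131800) (l 16110656))) (a (l 15730448) (l 15772240))) (b (b (a (b (l 15558040) (l 15525304)) (l 15569536)) (l 15605896)) (l 15729448)))), by decide +kernel⟩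

def k7_pm_102 : ∃ t, chk3 f_pm_102 t 9 7 1 = true :=
  ⟨(a (b (a (c (a (b (b (b (l 16576576) (l 16500448)) (c (b (l 16685216) (l 16630568)) (l 16550672))) (b (c (b (l 16584896) (l 16504424)) (l 16539544)) (l 16336600))) (b (b (b (l 16534760) (l 16543400)) (a (l 16522232) (l 16439952))) (b (l 16283304) (l 16256560)))) (b (b (a (b (l 16571384) (l 16437424)) (b (l 16528648) (l 16534664))) (a (l 16473184) (l 16485128))) (a (b (l 16534344) (l 16365544)) (l 16268968)))) (b (b (c (b (l 16144344) (a (l 16355504) (l 16169296))) (a (l 16257376) (l 16054192))) (c (l 16004904) (l 16180208))) (b (c (a (l 16258504) (l 16109048)) (l 16157584)) (c (l 16075408) (l 16050640))))) (b (c (b (a (a (b (l 16255232) (l 16208832)) (l 16123656)) (l 15913744)) (a (c (l 16129504) (l 16133016)) (l 15888080))) (b (a (a (l 16210744) (l 16107872)) (l 15956512)) (l 16024704))) (c (b (c (l 15776904) (b (l 15844424) (l 15640224))) (l 15380056)) (b (a (l 15722896) (l 15651768)) (c (b (l 15372976) (l 15158056)) (b (l 15305976)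 (l 14821216))))))) (b (a (b (a (b (c (b (l 15898080) (a (l 16030872) (l 15925480))) (a (l 15967120) (b (l 15818872) (l 15918312)))) (a (l 16018728) (a (l 15955864) (l 15928360)))) (b (b (l 15828496) (l 15924240)) (c (l 15953072) (l 15918216)))) (a (c (b (a (l 15997648) (l 15930304)) (l 15899848)) (l 15841408)) (b (l 15909736) (l 15863456)))) (b (c (b (l 15919576) (l 15972984)) (b (l 15887008) (l 15937112))) (b (l 15893800) (l 15902416)))) (b (b (a (a (c (a (l 15856552) (l 15814256)) (l 15811288)) (l 15810736)) (l 15710976)) (c (c (b (l 15884624) (l 15847864)) (l 15864456)) (l 15846328))) (c (b (c (l 15647688) (b (l 15700016) (l 15551984))) (l 15356984)) (b (l 15579784) (c (l 15288912) (b (l 15324344) (l 15114728)))))))), by decide +kernel⟩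

def k8_pm_102 : ∃ t, chk3 f_pm_102 t 5 4 1 = true :=
  ⟨(l 3), by decide +kernel⟩

def k9_pm_102 : ∃ t, chk3 f_pm_102 t 10 5 1 = true :=
  ⟨(b (l 3) (b (l 3) (b (a (l 3) (a (l 3) (c (c (a (l 270212948615) (l 233168774103)) (a (l 280950353415) (l 236389981639))) (c (a (l 290077145239) (l 232094997783)) (l 289540147383))))) (a (a (l 3) (a (l 3) (a (l 3) (c (l 259475683447) (l 252496341735))))) (a (c (a (c (l 247127631559) (l 246590750183)) (c (l 227263308967) (l 231558263111))) (a (b (l 271286776647) (l 222968389543)) (c (l 227800153703) (l 16361768)))) (c (a (c (l 16359048) (l 16352736)) (l 16332784)) (c (l 16334528) (l 16327680)))))))), by decide +kernel⟩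

def k10_pm_102 : ∃ t, chk3 f_pm_102 t 11 5 1 = true :=
  ⟨(a (b (l 3) (a (b (b (l 3) (c (a (c (l 282560869447) (l 294908884391)) (c (l 241221788151) (l 240147981719))) (c (l 297056337735) (l 306183043015)))) (b (c (c (a (l 16299232) (l 16278416)) (l 215451939703)) (c (l 16272888) (l 16264664))) (c (a (l 16308824) (l 16280680)) (a (l 16293496) (l 16263976))))) (b (b (c (a (b (l 3) (l 296519410551)) (c (l 246590416087) (l 244442872711))) (a (l 329805373975) (l 234242296663))) (c (a (c (l 217062569831) (l 16242648)) (c (l 16233192) (l 16223896))) (c (l 211693735415) (l 16214568)))) (c (b (c (l 16246088) (l 16237016)) (a (l 16259392) (l 16244872))) (b (l 16223144) (a (l 16241624) (l 16226328))))))) (b (b (l 3) (a (b (l 3) (a (c (l 314236083367) (l 348058910183)) (c (a (l 261085864487) (l 245516571991)) (l 240147771431)))) (c (c (a (l 250348570999) (l 236390079815)) (l 243906179431)) (c (l 234242257799) (l 222967948583))))) (a (b (b (c (a (c (b (l 232094858279) (l 16222024)) (l 224041753383))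 (a (c (l 16225296) (l 16215696)) (l 16241296))) (a (c (l 16199432) (l 16189504)) (l 16190328))) (c (a (c (l 16228392) (l 16218880)) (l 16221224)) (a (l 16204328) (l 16245136)))) (a (c (b (b (l 16231264) (l 16238136)) (l 16265896)) (b (l 16215168) (l 16247952))) (b (c (l 16236448) (l 16282592)) (l 16333768)))) (c (b (c (l 16317624) (l 16352280)) (l 16393680)) (b (c (l 16344888) (l 16337384)) (l 16423632)))))), by decide +kernel⟩

def k11_pm_102 : ∃ t, chk3 f_pm_102 t 10 12 1 = true :=
  ⟨(a (b (a (b (a (l 3) (a (l 3) (b (l 3) (c (l 243369700519) (l 233169139735))))) (a (c (b (b (l 252496593687) (l 238537952071)) (a (l 212768198743) (l 16550632))) (c (a (l 230484890807) (l 221894930967)) (l 211157487271))) (c (b (c (l 213304953719) (l 16518464)) (l 16529192)) (c (l 203641260759) (l 16496656))))) (b (a (c (c (l 239611548599) (l 239611583335)) (c (l 228874077111) (l 216526038583))) (c (c (l 215989157191) (l 219747244679)) (c (l 213304784663) (l 16441792)))) (a (c (c (l 16507488) (l 16504352))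 (c (l 16501160) (l 16497888))) (c (b (l 16481872) (a (l 16504856) (l 16483392))) (b (l 16474328) (b (l 16490088) (l 16445216))))))) (a (b (a (c (b (l 16559920) (b (l 16560240) (a (l 16562808) (l 16542976)))) (b (l 16555872) (b (l 16556040) (a (l 16558656) (l 16537928))))) (c (b (l 16533336) (b (a (l 16539688) (l 16519232)) (l 16487368))) (b (l 16527976) (b (a (l 16534480) (l 16513104)) (l 16479968))))) (a (a (b (b (c (l 16521040) (l 16515976)) (l 16470032)) (l 16358392)) (l 16319176)) (l 16210432))) (b (b (b (a (c (l 16518616) (l 16512464)) (c (l 16434136) (l 16447016))) (a (c (a (l 16521072) (l 16491184)) (l 16435664)) (l 16416944))) (a (l 16419296) (l 16338872))) (a (l 16240808) (l 16183000))))) (b (b (a (c (c (a (l 16432216) (l 16407800)) (l 16373320)) (c (l 16410136) (l 16404912))) (b (c (a (l 16372880) (l 16344016)) (l 16340856)) (c (a (l 16377640) (l 16342496)) (a (l 16365264) (l 16328456))))) (a (a (c (b (l 16451072) (b (l 16452744) (l 16428480))) (b (l 16442016) (b (l 16443624)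 (l 16418320)))) (b (c (b (l 16417168) (l 16412168)) (l 16358352)) (l 16359848))) (a (c (l 16339152) (l 16325064)) (l 16289744)))) (a (b (c (l 16295184) (l 16279528)) (l 16058832)) (b (l 16231552) (l 16157864))))), by decide +kernel⟩

def k12_pm_102 : ∃ t, chk3 f_pm_102 t 10 13 1 = true :=
  ⟨(a (b (a (b (c (l 16011072) (l 16050272)) (b (l 15796400) (a (l 15636864) (l 15637424)))) (b (a (l 15981944) (l 15954960)) (a (b (l 15746936) (l 15659640)) (b (l 15745776) (l 15712296))))) (a (b (a (l 15639680) (l 15682832)) (l 15790184)) (a (l 15778080) (l 15826912)))) (b (b (a (l 15979440) (b (l 16099904) (l 16038888))) (a (b (a (l 15806960) (l 15887504)) (l 15858688)) (l 15972848))) (a (l 15947152) (l 16102248)))), by decide +kernel⟩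

def k13_pm_102 : ∃ t, chk3 f_pm_102 t 11 6 1 = true :=
  ⟨(a (b (b (a (b (b (c (a (l 16314816) (l 16286600)) (l 16286464)) (l 16281520)) (l 16266360)) (c (l 16284888) (l 16267752))) (a (c (l 16249752) (l 16231400)) (l 16334808))) (b (b (a (b (l 16218144) (l 16201704)) (l 16377608)) (l 16299136)) (a (l 16251216) (l 16385640)))) (b (b (c (l 16345448) (l 16354944)) (a (l 16367640) (l 16560664))) (b (a (b (l 16477480) (l 16525520)) (l 16607384)) (a (l 16466992) (l 16508144))))), by decide +kernel⟩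

def k14_pm_102 : ∃ t, chk3 f_pm_102 t 5 7 1 = true :=
  ⟨(c (a (b (a (b (b (a (l 15947144) (b (l 15944968) (l 15997808))) (a (l 16001744) (l 15975248))) (b (a (l 15991208) (l 16001288)) (l 15995192))) (b (b (l 16030272) (a (l 16125336) (l 16224360))) (b (l 16083424) (l 16035680)))) (b (a (b (a (l 15924440) (l 15870424)) (l 15716504)) (b (a (l 15778800) (l 15729928)) (c (l 15630616) (l 15592872)))) (b (c (l 15493800) (a (l 15468728) (l 15434736))) (l 15180800)))) (b (a (b (b (l 16144344) (a (l 16302904) (l 16320864))) (b (l 16190208) (l 15970496))) (b (l 16378264) (l 16067744))) (b (a (b (l 15750280) (l 15628752)) (b (l 15756032) (l 15666976))) (b (a (l 15441024) (l 15452224)) (l 15324536))))) (a (b (a (b (b (a (l 15914752) (l 15845864)) (a (l 15964648) (l 16000528))) (a (l 15959104) (l 16012488))) (b (b (l 16089360) (l 16139344)) (a (l 16100240) (l 16117120)))) (b (b (a (l 15847424) (l 15722744)) (l 15441072)) (b (a (l 15413160) (l 15384024)) (a (c (l 15192816) (b (l 15201528) (l 15075496)))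 (c (l 15247488) (l 15203648)))))) (b (a (b (b (l 16214392) (l 16235792)) (l 16065000)) (b (l 16332632) (l 16048824))) (a (b (b (l 15722320) (l 15594056)) (b (l 15479192) (c (l 15364904) (l 15332792)))) (b (l 15548856) (b (l 15517864) (c (l 15423024) (l 15395368)))))))), by decide +kernel⟩

def k15_pm_102 : ∃ t, chk3 f_pm_102 t 6 2 1 = true :=
  ⟨(b (a (a (l 3) (a (l 3) (b (l 3) (b (l 3) (c (l 272361064135) (l 248201865255)))))) (a (b (l 3) (b (c (l 283635462535) (l 260550008023)) (c (c (l 198272932087) (l 16707112)) (c (l 16705896) (l 16704656))))) (b (b (l 3) (c (l 323900883255) (l 304573528711))) (c (b (c (l 202567993495) (l 203641734583)) (c (l 16760824) (l 16760544))) (b (c (l 16734656) (l 16755248)) (l 16739136)))))) (a (b (a (c (b (a (b (l 3) (l 354501815943)) (b (l 375440038551) (l 227800397799))) (a (c (l 212767760487) (l 16376120)) (c (l 16525272) (l 16563920)))) (b (a (l 370607890951) (l 236927132999)) (a (c (l 16433152) (l 16427184)) (c (l 16581544) (l 16578144))))) (c (b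 (a (c (l 209010170567) (l 211157648871)) (l 16673752)) (c (l 16670896) (l 16669040))) (b (a (c (l 16637960) (l 16635544)) (l 16670120)) (c (l 16667160) (l 16665248))))) (b (a (c (a (c (l 16512032) (l 16507408)) (b (l 16621088) (l 16638136))) (a (l 16458392) (l 16537688))) (a (c (l 16668288) (l 16664464)) (l 16695024))) (a (a (l 16555344) (l 16652224)) (l 16695552)))) (b (b (c (a (c (l 16716360) (l 16715296)) (a (l 16757144) (l 16775528))) (a (l 16713672) (l 16744376))) (a (c (l 16705000) (l 16724176)) (l 16770584))) (c (l 16673880) (l 16673192))))), by decide +kernel⟩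

def k16_pm_102 : ∃ t, chk3 f_pm_102 t 7 2 1 = true :=
  ⟨(b (b (a (c (a (b (l 282025000967) (c (l 212231782407) (l 216526749703))) (b (c (l 223506071559) (l 226727297031)) (l 16777216))) (a (b (l 276119420935) (l 214379266055)) (b (l 222969200647) (l 16777216)))) (c (a (c (l 16777216) (l 16777216)) (c (l 16777216) (l 16777216))) (a (c (l 16777216) (l 16777216)) (c (l 16777216) (l 16777216))))) (b (c (a (a (l 16777216) (l 16777216)) (a (c (l 16777216) (l 16777216)) (l 16777216))) (a (a (l 16777216) (l 16777216)) (a (l 16777216) (l 16777216)))) (a (c (a (c (l 16777216) (l 16777216)) (l 16777216)) (a (l 16777216) (l 16777216))) (l 16777216)))) (a (a (b (a (c (l 16777216) (l 16777216)) (l 16777216)) (l 16777216)) (c (l 16777216) (l 16777216))) (b (l 16777216) (c (l 16777216) (l 16777216))))), by decide +kernel⟩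

def k17_pm_102 : ∃ t, chk3 f_pm_102 t 3 3 1 = true :=
  ⟨(b (a (b (a (b (a (l 16543880) (l 16712512)) (l 16661440)) (c (a (l 16766120) (l 16777216)) (a (l 16765728) (l 16777216)))) (a (b (l 16600696) (l 16548152)) (b (l 16688840) (l 16516872)))) (b (b (a (l 16777216) (l 16777216)) (l 16777216)) (b (c (l 16710760) (l 16708424)) (c (l 16521384) (l 16512376))))) (b (a (a (b (b (l 16375176) (l 16253840)) (b (l 16110328) (l 15910896))) (c (b (l 16307688) (l 16019712)) (b (l 16291144) (l 15993040)))) (c (b (l 16307688) (a (l 16019712) (l 16019712))) (b (l 16291144) (a (l 15993040) (l 15993040))))) (b (a (c (b (a (l 15727808) (l 15727072)) (c (l 15665608) (l 15636680))) (a (l 15648320) (l 15647568))) (c (b (l 15727072) (l 15586928)) (l 15647568))) (a (c (b (c (l 15564784) (l 15518808)) (l 15451960)) (b (l 15508592) (c (l 15420544) (l 15350776)))) (c (b (c (l 15564784) (l 15539776)) (l 15451960)) (b (l 15508592) (c (l 15420544) (l 15392720)))))))), by decide +kernel⟩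

theorem s18_pm_102 : ∃ t, chk3 f_pm_102 t 3 2 1 = true := ex3_a k15_pm_102 k16_pm_102

theorem s19_pm_102 : ∃ t, chk3 f_pm_102 t 3 1 1 = true := ex3_b s18_pm_102 k17_pm_102

theorem s20_pm_102 : ∃ t, chk3 f_pm_102 t 10 6 1 = true := ex3_b k11_pm_102 k12_pm_102

theorem s21_pm_102 : ∃ t, chk3 f_pm_102 t 5 6 1 = true := ex3_a s20_pm_102 k13_pm_102

theorem s22_pm_102 : ∃ t, chk3 f_pm_102 t 5 3 1 = true := ex3_b s21_pm_102 k14_pm_102

theorem s23_pm_102 : ∃ t, chk3 f_pm_102 t 5 5 1 = true := ex3_a k9_pm_102 k10_pm_102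

theorem s24_pm_102 : ∃ t, chk3 f_pm_102 t 5 2 1 = true := ex3_b k8_pm_102 s23_pm_102

theorem s25_pm_102 : ∃ t, chk3 f_pm_102 t 5 1 1 = true := ex3_b s24_pm_102 s22_pm_102

theorem s26_pm_102 : ∃ t, chk3 f_pm_102 t 19 6 1 = true := ex3_b k5_pm_102 k6_pm_102

theorem s27_pm_102 : ∃ t, chk3 f_pm_102 t 9 6 1 = true := ex3_a k4_pm_102 s26_pm_102

theorem s28_pm_102 : ∃ t, chk3 f_pm_102 t 9 3 1 = true := ex3_b s27_pm_102 k7_pm_102

theorem s29_pm_102 : ∃ t, chk3 f_pm_102 t 8 7 1 = true := ex3_a k2_pm_102 k3_pm_102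

theorem s30_pm_102 : ∃ t, chk3 f_pm_102 t 8 3 1 = true := ex3_b k1_pm_102 s29_pm_102

theorem s31_pm_102 : ∃ t, chk3 f_pm_102 t 4 3 1 = true := ex3_a s30_pm_102 s28_pm_102

theorem s32_pm_102 : ∃ t, chk3 f_pm_102 t 4 1 1 = true := ex3_b k0_pm_102 s31_pm_102

theorem s33_pm_102 : ∃ t, chk3 f_pm_102 t 2 1 1 = true := ex3_a s32_pm_102 s25_pm_102

theorem s34_pm_102 : ∃ t, chk3 f_pm_102 t 1 1 1 = true := ex3_a s33_pm_102 s19_pm_102

theorem c_pm_102 : CertNX 536870912 536870912 0 536870912 1046898278 26843546 3 false true false .npp 1 0 2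
    ndN1q1 ndN0q2 pcN0 Cut.none Ext.none :=
  certNX2 (fam := false) (s1 := true) (s2 := false) (a := 1) (b := 0) (c := 2) (cn := .npp) (n1 := ndN1q1) (n2 := ndN0q2) (pc := pcN0) (cut := Cut.none) (xt := Ext.none) (P1 := 536870912) (W1 := 536870912) (P2 := 0) (W2 := 536870912) (P3 := 1046898278) (W3 := 26843546) (N0 := 3)
    rfl (fun _ => rfl) s34_pm_102

noncomputable def f_pm_112 : ℕ → ℕ → ℕ → ℕ → Bool := onCell 536870912 536870912 0 536870912 1046898278 26843546
    (rowNX 3 2 false true false .dn 1 1 2 (qsf 536870912 536870912 0 536870912 1) ndN1q1 ndN0q2 pcN1 Cut.none Ext.none)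

def k0_pm_112 : ∃ t, chk3 f_pm_112 t 1 1 1 = true :=
  ⟨(a (b (a (b (b (b (a (c (a (l 16777216) (l 16777216)) (a (l 16777216) (l 16777216))) (a (c (l 16777216) (l 16777216)) (l 16777216))) (a (a (c (l 16777216) (l 16777216)) (l 16777216)) (l 16777216))) (c (l 16777216) (l 16777216))) (b (c (l 16777216) (l 16777216)) (c (a (l 16777216) (l 16777216)) (a (l 16777216) (l 16777216))))) (a (b (c (l 16777216) (l 16777216)) (b (l 16777216) (c (l 16777216) (l 16777216)))) (l 1))) (a (b (b (c (l 16777216) (l 16777216)) (b (c (l 16710760) (l 16708424)) (l 16495896))) (b (b (l 16299392) (c (l 33854487463) (l 15951104))) (a (b (b (l 15708848) (l 15432072)) (c (b (l 15548968) (l 15451960)) (b (l 15508592) (l 15259432)))) (l 1)))) (b (l 1) (l 1)))) (l 1)), by decide +kernel⟩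

theorem c_pm_112 : CertNX 536870912 536870912 0 536870912 1046898278 26843546 3 false true false .dn 1 1 2
    ndN1q1 ndN0q2 pcN1 Cut.none Ext.none :=
  certNX2 (fam := false) (s1 := true) (s2 := false) (a := 1) (b := 1) (c := 2) (cn := .dn) (n1 := ndN1q1) (n2 := ndN0q2) (pc := pcN1) (cut := Cut.none) (xt := Ext.none) (P1 := 536870912) (W1 := 536870912) (P2 := 0) (W2 := 536870912) (P3 := 1046898278) (W3 := 26843546) (N0 := 3)
    rfl (fun _ => rfl) k0_pm_112

noncomputable def f_pm_202_a : ℕ → ℕ → ℕ → ℕ → Bool := onCell 0 420477299 0 536870912 1046898278 26843546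
    (rowNX 3 0 false true false .pp 2 0 2 (qsf 0 420477299 0 536870912 0) ndN1q2a ndN0q2 pcN0 Cut.none Ext.none)

def k0_pm_202_a : ∃ t, chk3 f_pm_202_a t 1 1 1 = true :=
  ⟨(l 3), by decide +kernel⟩

theorem c_pm_202_a : CertNX 0 420477299 0 536870912 1046898278 26843546 3 false true false .pp 2 0 2
    ndN1q2a ndN0q2 pcN0 Cut.none Ext.none :=
  certNX0 (fam := false) (s1 := true) (s2 := false) (a := 2) (b := 0) (c := 2) (cn := .pp) (n1 := ndN1q2a) (n2 := ndN0q2) (pc := pcN0) (cut := Cut.none) (xt := Ext.none) (P1 := 0) (W1 := 420477299) (P2 := 0) (W2 := 536870912) (P3 := 1046898278) (W3 := 26843546) (N0 := 3)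
    rfl k0_pm_202_a

noncomputable def f_pm_202_b : ℕ → ℕ → ℕ → ℕ → Bool := onCell 1239849684 370763052 0 536870912 1046898278 26843546
    (rowNX 3 0 false true false .pp 2 0 2 (qsf 1239849684 370763052 0 536870912 0) ndN1q2b ndN0q2 pcN0 Cut.none Ext.none)

def k0_pm_202_b : ∃ t, chk3 f_pm_202_b t 1 1 1 = true :=
  ⟨(l 3), by decide +kernel⟩

theorem c_pm_202_b : CertNX 1239849684 370763052 0 536870912 1046898278 26843546 3 false true false .pp 2 0 2
    ndN1q2b ndN0q2 pcN0 Cut.none Ext.none :=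
  certNX0 (fam := false) (s1 := true) (s2 := false) (a := 2) (b := 0) (c := 2) (cn := .pp) (n1 := ndN1q2b) (n2 := ndN0q2) (pc := pcN0) (cut := Cut.none) (xt := Ext.none) (P1 := 1239849684) (W1 := 370763052) (P2 := 0) (W2 := 536870912) (P3 := 1046898278) (W3 := 26843546) (N0 := 3)
    rfl k0_pm_202_b

noncomputable def f_mm_001 : ℕ → ℕ → ℕ → ℕ → Bool := onCell 67108864 469762048 536870912 536870912 1046898278 26843546
    (rowNX 3 0 false false false .up 0 0 1 (qsf 67108864 469762048 536870912 536870912 0) ndN1q0 ndN0q1 pcN0 Cut.none Ext.none)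

def k0_mm_001 : ∃ t, chk3 f_mm_001 t 1 1 1 = true :=
  ⟨(l 5), by decide +kernel⟩

theorem c_mm_001 : CertNX 67108864 469762048 536870912 536870912 1046898278 26843546 3 false false false .up 0 0 1
    ndN1q0 ndN0q1 pcN0 Cut.none Ext.none :=
  certNX0 (fam := false) (s1 := false) (s2 := false) (a := 0) (b := 0) (c := 1) (cn := .up) (n1 := ndN1q0) (n2 := ndN0q1) (pc := pcN0) (cut := Cut.none) (xt := Ext.none) (P1 := 67108864) (W1 := 469762048) (P2 := 536870912) (W2 := 536870912) (P3 := 1046898278) (W3 := 26843546) (N0 := 3)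
    rfl k0_mm_001

noncomputable def f_mm_011 : ℕ → ℕ → ℕ → ℕ → Bool := onCell 67108864 469762048 536870912 536870912 1046898278 26843546
    (rowNX 3 0 false false false .pnn 0 1 1 (qsf 67108864 469762048 536870912 536870912 1) ndN1q0 ndN0q1 pcN1 Cut.none Ext.none)

def k0_mm_011 : ∃ t, chk3 f_mm_011 t 1 1 1 = true :=
  ⟨(l 5), by decide +kernel⟩

theorem c_mm_011 : CertNX 67108864 469762048 536870912 536870912 1046898278 26843546 3 false false false .pnn 0 1 1
    ndN1q0 ndN0q1 pcN1 Cut.none Ext.none :=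
  certNX0 (fam := false) (s1 := false) (s2 := false) (a := 0) (b := 1) (c := 1) (cn := .pnn) (n1 := ndN1q0) (n2 := ndN0q1) (pc := pcN1) (cut := Cut.none) (xt := Ext.none) (P1 := 67108864) (W1 := 469762048) (P2 := 536870912) (W2 := 536870912) (P3 := 1046898278) (W3 := 26843546) (N0 := 3)
    rfl k0_mm_011

noncomputable def f_mm_012 : ℕ → ℕ → ℕ → ℕ → Bool := onCell 67108864 469762048 0 536870912 1046898278 26843546
    (rowNX 3 0 false false false .pnp 0 1 2 (qsf 67108864 469762048 0 536870912 1) ndN1q0 ndN0q2 pcN1 Cut.none Ext.none)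

def k0_mm_012 : ∃ t, chk3 f_mm_012 t 1 1 1 = true :=
  ⟨(l 5), by decide +kernel⟩

theorem c_mm_012 : CertNX 67108864 469762048 0 536870912 1046898278 26843546 3 false false false .pnp 0 1 2
    ndN1q0 ndN0q2 pcN1 Cut.none Ext.none :=
  certNX0 (fam := false) (s1 := false) (s2 := false) (a := 0) (b := 1) (c := 2) (cn := .pnp) (n1 := ndN1q0) (n2 := ndN0q2) (pc := pcN1) (cut := Cut.none) (xt := Ext.none) (P1 := 67108864) (W1 := 469762048) (P2 := 0) (W2 := 536870912) (P3 := 1046898278) (W3 := 26843546) (N0 := 3)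
    rfl k0_mm_012

noncomputable def f_mm_022 : ℕ → ℕ → ℕ → ℕ → Bool := onCell 67108864 469762048 0 536870912 1046898278 26843546
    (rowNX 3 0 false false false .pp 0 2 2 (qsf 67108864 469762048 0 536870912 2) ndN1q0 ndN0q2 pcN2 Cut.none Ext.none)

def k0_mm_022 : ∃ t, chk3 f_mm_022 t 1 1 1 = true :=
  ⟨(l 5), by decide +kernel⟩

theorem c_mm_022 : CertNX 67108864 469762048 0 536870912 1046898278 26843546 3 false false false .pp 0 2 2
    ndN1q0 ndN0q2 pcN2 Cut.none Ext.none :=
  certNX0 (fam := false) (s1 := false) (s2 := false) (a := 0) (b := 2) (c := 2) (cn := .pp) (n1 := ndN1q0) (n2 := ndN0q2) (pc := pcN2) (cut := Cut.none) (xt := Ext.none) (P1 := 67108864) (W1 := 469762048) (P2 := 0) (W2 := 536870912) (P3 := 1046898278) (W3 := 26843546) (N0 := 3)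
    rfl k0_mm_022

noncomputable def f_mm_101 : ℕ → ℕ → ℕ → ℕ → Bool := onCell 536870912 536870912 536870912 536870912 1046898278 26843546
    (rowNX 3 0 false false false .npn 1 0 1 (qsf 536870912 536870912 536870912 536870912 0) ndN1q1 ndN0q1 pcN0 Cut.none Ext.none)

def k0_mm_101 : ∃ t, chk3 f_mm_101 t 1 1 1 = true :=
  ⟨(l 3), by decide +kernel⟩

theorem c_mm_101 : CertNX 536870912 536870912 536870912 536870912 1046898278 26843546 3 false false false .npn 1 0 1
    ndN1q1 ndN0q1 pcN0 Cut.none Ext.none :=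
  certNX0 (fam := false) (s1 := false) (s2 := false) (a := 1) (b := 0) (c := 1) (cn := .npn) (n1 := ndN1q1) (n2 := ndN0q1) (pc := pcN0) (cut := Cut.none) (xt := Ext.none) (P1 := 536870912) (W1 := 536870912) (P2 := 536870912) (W2 := 536870912) (P3 := 1046898278) (W3 := 26843546) (N0 := 3)
    rfl k0_mm_101

noncomputable def f_mm_102 : ℕ → ℕ → ℕ → ℕ → Bool := onCell 536870912 536870912 0 536870912 1046898278 26843546
    (rowNX 3 0 false false false .npp 1 0 2 (qsf 536870912 536870912 0 536870912 0) ndN1q1 ndN0q2 pcN0 Cut.none Ext.none)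

def k0_mm_102 : ∃ t, chk3 f_mm_102 t 1 1 1 = true :=
  ⟨(l 5), by decide +kernel⟩

theorem c_mm_102 : CertNX 536870912 536870912 0 536870912 1046898278 26843546 3 false false false .npp 1 0 2
    ndN1q1 ndN0q2 pcN0 Cut.none Ext.none :=
  certNX0 (fam := false) (s1 := false) (s2 := false) (a := 1) (b := 0) (c := 2) (cn := .npp) (n1 := ndN1q1) (n2 := ndN0q2) (pc := pcN0) (cut := Cut.none) (xt := Ext.none) (P1 := 536870912) (W1 := 536870912) (P2 := 0) (W2 := 536870912) (P3 := 1046898278) (W3 := 26843546) (N0 := 3)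
    rfl k0_mm_102

noncomputable def f_mm_112 : ℕ → ℕ → ℕ → ℕ → Bool := onCell 536870912 536870912 0 536870912 1046898278 26843546
    (rowNX 3 0 false false false .dn 1 1 2 (qsf 536870912 536870912 0 536870912 1) ndN1q1 ndN0q2 pcN1 Cut.none Ext.none)

def k0_mm_112 : ∃ t, chk3 f_mm_112 t 1 1 1 = true :=
  ⟨(l 5), by decide +kernel⟩

theorem c_mm_112 : CertNX 536870912 536870912 0 536870912 1046898278 26843546 3 false false false .dn 1 1 2
    ndN1q1 ndN0q2 pcN1 Cut.none Ext.none :=
  certNX0 (fam := false) (s1 := false) (s2 := false) (a := 1) (b := 1) (c := 2) (cn := .dn) (n1 := ndN1q1) (n2 := ndN0q2) (pc := pcN1) (cut := Cut.none) (xt := Ext.none) (P1 := 536870912) (W1 := 536870912) (P2 := 0) (W2 := 536870912) (P3 := 1046898278) (W3 := 26843546) (N0 := 3)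
    rfl k0_mm_112

noncomputable def f_mm_202_a : ℕ → ℕ → ℕ → ℕ → Bool := onCell 0 420477299 0 536870912 1046898278 26843546
    (rowNX 3 0 false false false .pp 2 0 2 (qsf 0 420477299 0 536870912 0) ndN1q2a ndN0q2 pcN0 Cut.none Ext.none)

def k0_mm_202_a : ∃ t, chk3 f_mm_202_a t 1 1 1 = true :=
  ⟨(l 3), by decide +kernel⟩

theorem c_mm_202_a : CertNX 0 420477299 0 536870912 1046898278 26843546 3 false false false .pp 2 0 2
    ndN1q2a ndN0q2 pcN0 Cut.none Ext.none :=
  certNX0 (fam := false) (s1 := false) (s2 := false) (a := 2) (b := 0) (c := 2) (cn := .pp) (n1 := ndN1q2a) (n2 := ndN0q2) (pc := pcN0) (cut := Cut.none) (xt := Ext.none) (P1 := 0) (W1 := 420477299) (P2 := 0) (W2 := 536870912) (P3 := 1046898278) (W3 := 26843546) (N0 := 3)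
    rfl k0_mm_202_a

noncomputable def f_mm_202_b : ℕ → ℕ → ℕ → ℕ → Bool := onCell 1239849684 370763052 0 536870912 1046898278 26843546
    (rowNX 3 0 false false false .pp 2 0 2 (qsf 1239849684 370763052 0 536870912 0) ndN1q2b ndN0q2 pcN0 Cut.none Ext.none)

def k0_mm_202_b : ∃ t, chk3 f_mm_202_b t 1 1 1 = true :=
  ⟨(l 3), by decide +kernel⟩

theorem c_mm_202_b : CertNX 1239849684 370763052 0 536870912 1046898278 26843546 3 false false false .pp 2 0 2
    ndN1q2b ndN0q2 pcN0 Cut.none Ext.none :=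
  certNX0 (fam := false) (s1 := false) (s2 := false) (a := 2) (b := 0) (c := 2) (cn := .pp) (n1 := ndN1q2b) (n2 := ndN0q2) (pc := pcN0) (cut := Cut.none) (xt := Ext.none) (P1 := 1239849684) (W1 := 370763052) (P2 := 0) (W2 := 536870912) (P3 := 1046898278) (W3 := 26843546) (N0 := 3)
    rfl k0_mm_202_b

end Pool.Agent.Strip051.G.IE1.Tab.C.NB10

namespace Pool.Agent.Strip051.G.IE1.Tab.C.NB11

open Pool.Agent.Strip051.PB Pool.Agent.Strip051.PB.T
open Pool.Agent.Strip051.G.IE1.Tab

noncomputable def f_pp_001 : ℕ → ℕ → ℕ → ℕ → Bool := onCell 67108864 469762048 536870912 536870912 1046898278 26843546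
    (rowNX 3 0 false true true .up 0 0 1 (qsf 67108864 469762048 536870912 536870912 0) ndN1q0 ndN1q1 pcN0 Cut.none Ext.none)

def k0_pp_001 : ∃ t, chk3 f_pp_001 t 1 1 1 = true :=
  ⟨(l 3), by decide +kernel⟩

theorem c_pp_001 : CertNX 67108864 469762048 536870912 536870912 1046898278 26843546 3 false true true .up 0 0 1
    ndN1q0 ndN1q1 pcN0 Cut.none Ext.none :=
  certNX0 (fam := false) (s1 := true) (s2 := true) (a := 0) (b := 0) (c := 1) (cn := .up) (n1 := ndN1q0) (n2 := ndN1q1) (pc := pcN0) (cut := Cut.none) (xt := Ext.none) (P1 := 67108864) (W1 := 469762048) (P2 := 536870912) (W2 := 536870912) (P3 := 1046898278) (W3 := 26843546) (N0 := 3)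
    rfl k0_pp_001

noncomputable def f_pp_011 : ℕ → ℕ → ℕ → ℕ → Bool := onCell 67108864 469762048 536870912 536870912 1046898278 26843546
    (rowNX 3 0 false true true .pnn 0 1 1 (qsf 67108864 469762048 536870912 536870912 1) ndN1q0 ndN1q1 pcN1 Cut.none Ext.none)

def k0_pp_011 : ∃ t, chk3 f_pp_011 t 1 1 1 = true :=
  ⟨(l 3), by decide +kernel⟩

theorem c_pp_011 : CertNX 67108864 469762048 536870912 536870912 1046898278 26843546 3 false true true .pnn 0 1 1
    ndN1q0 ndN1q1 pcN1 Cut.none Ext.none :=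
  certNX0 (fam := false) (s1 := true) (s2 := true) (a := 0) (b := 1) (c := 1) (cn := .pnn) (n1 := ndN1q0) (n2 := ndN1q1) (pc := pcN1) (cut := Cut.none) (xt := Ext.none) (P1 := 67108864) (W1 := 469762048) (P2 := 536870912) (W2 := 536870912) (P3 := 1046898278) (W3 := 26843546) (N0 := 3)
    rfl k0_pp_011

noncomputable def f_pp_012_a : ℕ → ℕ → ℕ → ℕ → Bool := onCell 536870912 536870912 0 420477299 1046898278 26843546
    (rowNX 3 2 false true true .pnp 0 1 2 (qsf 67108864 469762048 0 420477299 1) ndN1q0 ndN1q2a pcN1 Cut.none Ext.none)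

def k0_pp_012_a : ∃ t, chk3 f_pp_012_a t 2 1 1 = true :=
  ⟨(b (a (l 2) (a (b (a (c (l 150491626519) (l 139217337191)) (c (l 16777120) (l 16777112))) (a (c (l 279877515015) (l 275045676727)) (c (l 235854100231) (l 229948520119)))) (b (a (c (l 16777120) (l 16777112)) (c (l 16777120) (l 16777112))) (c (a (l 188072586439) (l 16776064)) (a (l 182703877239) (l 16776024)))))) (a (l 3) (b (a (l 3) (b (a (l 3) (l 244444030375)) (l 3))) (l 3)))), by decide +kernel⟩

def k1_pp_012_a : ∃ t, chk3 f_pp_012_a t 6 1 1 = true :=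
  ⟨(b (a (b (a (c (l 16777144) (l 16777136)) (b (l 16742560) (c (l 16749112) (l 16748128)))) (a (c (l 16776072) (l 16776032)) (c (l 16760768) (l 16760192)))) (a (a (b (l 16654152) (l 16727136)) (b (l 16656304) (b (l 16685280) (l 16711592)))) (b (a (l 16613560) (l 16511696)) (c (a (l 16644864) (b (l 16456000) (l 16576256))) (a (l 16640960) (b (l 16427432) (l 16569944))))))) (b (c (a (a (l 204715580583) (b (l 16773000) (l 181093238135))) (a (b (l 16747192) (l 16768776)) (a (l 16731384) (a (l 16699416) (l 16624992))))) (a (a (l 210084289383) (b (l 16772880) (l 189146301319))) (a (b (l 16746152) (l 16768512)) (a (l 16729800) (a (l 16696704) (l 16619656)))))) (a (l 3) (b (a (b (c (b (l 16771312) (l 16727208)) (l 171966313223)) (l 3)) (a (b (c (l 16758992) (l 16758368)) (c (l 16651152) (l 16646896))) (b (c (b (l 16648880) (l 16633768)) (a (l 16737760) (l 16665496))) (a (c (l 16533120) (l 16572408)) (c (l 16598088) (l 16614736)))))) (a (l 3) (b (a (l 3) (a (l 3) (c (l 16512304) (l 16521168))))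 (l 3))))))), by decide +kernel⟩

def k2_pp_012_a : ∃ t, chk3 f_pp_012_a t 14 1 1 = true :=
  ⟨(b (b (a (l 16254568) (a (l 15990800) (l 15829080))) (a (b (a (l 16389088) (l 16218128)) (a (l 16422856) (l 16253880))) (b (a (l 16046544) (l 15930992)) (a (c (l 16118080) (l 16095008)) (b (l 16015488) (l 16095112)))))) (b (a (a (b (l 16471088) (b (l 16506160) (a (l 16572760) (l 16503496)))) (b (b (l 16287648) (l 16321704)) (b (a (l 16392008) (l 16364904)) (l 16477824)))) (a (b (b (l 16179016) (l 16264664)) (c (l 16435152) (l 16423840))) (b (c (l 16236384) (l 16218264)) (c (l 16450552) (l 16440440))))) (b (a (b (a (c (b (l 16565760) (l 16605704)) (b (l 16580120) (l 16599688))) (c (l 16590856) (l 16584752))) (c (a (l 16627088) (l 16635072)) (a (l 16621736) (l 16630208)))) (a (b (c (l 16581904) (l 16597792)) (c (l 16646296) (l 16642368))) (b (c (l 16620688) (l 16616888)) (c (l 16640944) (l 16659176))))) (a (b (a (c (b (l 16645768) (l 16552048)) (l 63517999655)) (c (l 16660896) (l 16656752)))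 (a (c (b (l 16418504) (l 3)) (l 176260156327)) (c (b (l 101635897367) (c (l 177334226375) (l 16422744))) (b (l 16592264) (l 16383264))))) (b (a (c (l 16670808) (l 16667208)) (c (a (l 16677160) (l 16667816)) (a (l 16674208) (l 16664784)))) (a (b (c (l 16679376) (l 16675824)) (c (a (l 133311324279) (l 16648528)) (a (l 16584720) (l 16666392)))) (c (b (l 16654552) (l 16629240)) (b (l 16650376) (l 16623896))))))))), by decide +kernel⟩

def k3_pp_012_a : ∃ t, chk3 f_pp_012_a t 15 2 1 = true :=
  ⟨(b (a (a (l 15775872) (l 15777576)) (a (l 15783856) (l 15794776))) (a (b (l 15927912) (l 16078200)) (a (l 15950008) (a (l 16045096) (l 16041152))))), by decide +kernel⟩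

def k4_pp_012_a : ∃ t, chk3 f_pp_012_a t 15 6 1 = true :=
  ⟨(b (a (a (c (l 16152000) (l 16240200)) (b (l 16228552) (a (l 16321944) (a (l 16338736) (c (l 16292616) (l 16343592)))))) (a (a (c (a (a (c (c (l 16166864) (l 16310344)) (l 16305336)) (l 16311440)) (l 16313224)) (l 16297048)) (l 16304016)) (l 16286064))) (a (a (c (l 16440728) (l 16452712)) (a (l 16404328) (c (a (l 16477888) (c (l 16422864) (l 16482040))) (l 16471808)))) (a (c (a (c (a (c (a (l 16427616) (l 16407976)) (l 16486720)) (c (l 16385536) (c (a (l 16488112) (l 16488968)) (l 16423048)))) (l 16440896)) (a (c (c (l 16486872) (l 16381264)) (c (a (l 16420792) (c (l 16463856) (l 16461792))) (l 16480696))) (c (l 16483768) (c (l 16398328) (b (c (l 16335848) (l 16355696)) (c (l 16524360) (l 16480960))))))) (a (l 16477496) (l 16391256))) (c (a (c (l 16438712) (a (b (b (l 16412728) (l 16418536)) (l 16523656)) (l 16435480))) (l 16392408)) (a (c (a (c (a (b (l 16351760) (l 16522176)) (b (l 16307672) (l 16522608))) (l 16474664))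 (b (c (l 16429584) (a (l 16386872) (l 16299864))) (c (l 16500672) (a (l 16521080) (c (l 16521176) (l 16520344)))))) (l 16470880)) (b (l 16417968) (c (a (a (l 16478688) (l 16520376)) (l 16520136)) (a (c (a (l 16518856) (c (l 16518960) (l 16518344))) (l 16517032)) (c (l 16497336) (a (b (l 16368424) (l 16542328)) (c (l 16517664) (a (l 16496144) (l 16517176))))))))))))), by decide +kernel⟩

def k5_pp_012_a : ∃ t, chk3 f_pp_012_a t 30 7 1 = true :=
  ⟨(a (b (b (c (a (l 16627160) (l 16592944)) (l 16614648)) (c (a (l 16650688) (l 16611248)) (a (l 16647984) (l 16607360)))) (b (c (l 16515776) (l 16531624)) (c (b (l 16541208) (l 16467336)) (b (l 16555160) (l 16479808))))) (b (a (b (c (l 16591408) (l 16587600)) (c (l 16571160) (l 16566056))) (a (b (c (l 16576152) (l 16571960)) (l 16527224)) (c (b (l 16579272) (l 16492472)) (l 16521360)))) (c (a (b (l 16524384) (l 16456872)) (b (c (a (l 16501072) (l 16485608)) (l 16499544)) (c (a (b (l 16449704) (l 16411960)) (b (l 16434968) (c (a (l 16429232)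 (l 16451544)) (l 16438896)))) (b (l 16447344) (a (l 16405904) (l 16434784)))))) (b (a (l 16516920) (l 16493488)) (a (l 16446296) (b (l 16439504) (a (l 16396664) (l 16426448)))))))), by decide +kernel⟩

def k6_pp_012_a : ∃ t, chk3 f_pp_012_a t 62 7 2 = true :=
  ⟨(b (a (c (c (a (b (a (l 16586960) (l 16593608)) (a (l 16545128) (l 16575584))) (b (l 16596336) (l 16579696))) (a (b (l 16583048) (l 16560656)) (b (a (l 16588048) (l 16593680)) (a (l 16546816) (l 16575968))))) (b (l 16561968) (l 16560544))) (c (a (c (l 16584992) (b (l 16595512) (l 16578784))) (b (l 16592200) (l 16573728))) (a (c (b (a (l 16589264) (l 16593848)) (a (l 16548648) (l 16576416))) (l 16577344)) (c (b (l 16594888) (l 16578008)) (b (c (l 16593848) (l 16591784)) (c (l 16576496) (l 16573384))))))) (a (c (b (a (c (c (l 16467224) (l 16476600)) (l 16510952)) (c (a (l 16495320) (l 16540312)) (a (l 16478232) (c (l 16518296) (l 16527304))))) (c (a (a (b (c (l 16479120) (l 16466696)) (l 16444096)) (b (c (l 16506856) (l 16490448))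 (c (l 16535680) (l 16517840)))) (a (b (l 16482680) (l 16540888)) (l 16568096))) (a (b (l 16473112) (l 16489592)) (a (b (l 16462624) (l 16519272)) (c (l 16525224) (l 16531592)))))) (b (a (l 16507536) (l 16494776)) (b (a (l 16468904) (l 16509056)) (l 16473352)))) (a (c (b (c (l 16547760) (b (l 16548024) (l 16465168))) (a (c (l 16587488) (c (l 16595848) (l 16551200))) (l 16570352))) (b (c (a (b (l 16535896) (l 16503824)) (c (l 16493704) (l 16505032))) (l 16514632)) (c (a (c (l 16538016) (l 16571024)) (c (l 16608968) (l 16565832))) (l 16563448)))) (c (b (l 16491024) (l 16605424)) (b (b (c (l 16521200) (a (c (l 16549200) (l 16542000)) (l 16482512))) (c (l 16593784) (a (l 16490888) (l 16584912)))) (c (c (l 16656736) (l 16553464)) (c (a (a (l 16625040) (l 16646600)) (l 16673056)) (a (l 16628696) (l 16561296))))))))), by decide +kernel⟩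

def k7_pp_012_a : ∃ t, chk3 f_pp_012_a t 62 7 3 = true :=
  ⟨(b (c (b (l 16584056) (l 16562152)) (b (l 16582288) (l 16559736))) (b (a (l 16506848) (a (l 16531512) (c (l 16526400) (l 16565840)))) (a (b (l 16485968) (l 16509160)) (c (l 16507608) (l 16589512))))), by decide +kernel⟩

def k8_pp_012_a : ∃ t, chk3 f_pp_012_a t 63 7 2 = true :=
  ⟨(b (a (c (b (l 16593472) (l 16542872)) (b (a (c (l 16593128) (l 16593808)) (l 16594136)) (a (c (l 16580864) (a (l 16559008) (l 16584048))) (l 16602608)))) (b (b (l 16593064) (l 16618680)) (c (l 16621280) (l 16599240)))) (a (c (b (l 16582512) (l 16541400)) (c (b (l 16585128) (l 16536920)) (b (a (a (l 16612968) (l 16637312)) (l 16656480)) (a (a (l 16619000) (l 16653216)) (l 16587040))))) (b (l 16436120) (b (l 16480432) (a (l 16533976) (l 16464984)))))), by decide +kernel⟩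

def k9_pp_012_a : ∃ t, chk3 f_pp_012_a t 63 14 3 = true :=
  ⟨(a (c (a (b (c (c (a (l 16593304) (l 16595616)) (l 16592720)) (l 16590464)) (c (a (c (l 16576976) (l 16572488)) (c (l 16586080) (l 16583192))) (l 16577224))) (c (b (l 16594504) (l 16540944)) (b (c (a (l 16594208) (l 16595664)) (l 16593736)) (a (c (l 16593848) (l 16590704)) (c (l 16610424) (l 16609032)))))) (b (l 16590672) (l 16592880))) (c (b (a (a (l 16595312) (l 16597280)) (l 16612736)) (a (a (l 16565256) (l 16637144)) (l 16589480))) (a (c (b (a (l 16594832) (c (l 16597184) (l 16575992))) (a (l 16565448) (c (l 16635656) (l 16614352)))) (b (l 16595224) (l 16640912))) (c (b (b (l 16591784) (l 16625840)) (l 16587944)) (b (a (c (b (l 16590312) (l 16613656)) (l 16603024)) (c (l 16615208) (b (l 16528712) (l 16541024)))) (a (c (l 16540784) (l 16603192)) (c (l 16571000) (l 16444808)))))))), by decide +kernel⟩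

def k10_pp_012_a : ∃ t, chk3 f_pp_012_a t 63 15 3 = true :=
  ⟨(a (c (a (b (c (c (a (l 16609264) (l 16640672)) (a (l 16603400) (l 16637048))) (l 16617376)) (c (c (a (l 16580264) (l 16627720)) (a (l 16687752) (l 16568224))) (l 16673880))) (c (b (l 16612336) (b (l 16594560) (l 16551416))) (b (c (a (l 16644320) (l 16635464)) (l 16569752)) (c (a (l 16534904) (l 16584048)) (a (l 16622608) (b (l 16575504) (l 16573496))))))) (b (l 16625168) (l 16554968))) (c (b (a (a (l 16543360) (l 16574400)) (l 16524792)) (a (c (l 16540696) (a (l 16532704) (l 16521048))) (b (l 16482848) (l 16458120)))) (a (c (a (b (l 16541104) (c (l 16467344) (l 16552832))) (c (b (l 16571544) (l 16518112)) (b (l 16539336) (c (l 16495560) (l 16516936))))) (b (l 16587720) (l 16534384))) (c (b (l 16501048) (b (l 16479240) (l 16454000))) (a (c (b (a (l 16545368) (l 16508384)) (c (l 16398872) (l 16482112))) (l 16447096)) (b (c (l 16503968) (a (l 16512104) (l 16473800))) (a (c (l 16456640) (l 16456192)) (c (l 16432992) (b (l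 16450784) (l 16425168)))))))))), by decide +kernel⟩

theorem s11_pp_012_a : ∃ t, chk3 f_pp_012_a t 63 7 3 = true := ex3_b k9_pp_012_a k10_pp_012_a

theorem s12_pp_012_a : ∃ t, chk3 f_pp_012_a t 63 7 1 = true := ex3_c k8_pp_012_a s11_pp_012_a

theorem s13_pp_012_a : ∃ t, chk3 f_pp_012_a t 62 7 1 = true := ex3_c k6_pp_012_a k7_pp_012_a

theorem s14_pp_012_a : ∃ t, chk3 f_pp_012_a t 31 7 1 = true := ex3_a s13_pp_012_a s12_pp_012_a

theorem s15_pp_012_a : ∃ t, chk3 f_pp_012_a t 15 7 1 = true := ex3_a k5_pp_012_a s14_pp_012_a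

theorem s16_pp_012_a : ∃ t, chk3 f_pp_012_a t 15 3 1 = true := ex3_b k4_pp_012_a s15_pp_012_a

theorem s17_pp_012_a : ∃ t, chk3 f_pp_012_a t 15 1 1 = true := ex3_b k3_pp_012_a s16_pp_012_a

theorem s18_pp_012_a : ∃ t, chk3 f_pp_012_a t 7 1 1 = true := ex3_a k2_pp_012_a s17_pp_012_a

theorem s19_pp_012_a : ∃ t, chk3 f_pp_012_a t 3 1 1 = true := ex3_a k1_pp_012_a s18_pp_012_a

theorem s20_pp_012_a : ∃ t, chk3 f_pp_012_a t 1 1 1 = true := ex3_a k0_pp_012_a s19_pp_012_a

theorem c_pp_012_a : CertNX 67108864 469762048 0 420477299 1046898278 26843546 3 false true true .pnp 0 1 2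
    ndN1q0 ndN1q2a pcN1 Cut.none Ext.none :=
  certNX2 (fam := false) (s1 := true) (s2 := true) (a := 0) (b := 1) (c := 2) (cn := .pnp) (n1 := ndN1q0) (n2 := ndN1q2a) (pc := pcN1) (cut := Cut.none) (xt := Ext.none) (P1 := 67108864) (W1 := 469762048) (P2 := 0) (W2 := 420477299) (P3 := 1046898278) (W3 := 26843546) (N0 := 3)
    rfl (fun _ => rfl) s20_pp_012_a

noncomputable def f_pp_012_b : ℕ → ℕ → ℕ → ℕ → Bool := onCell 536870912 536870912 1239849684 370763052 1046898278 26843546
    (rowNX 3 2 false true true .pnp 0 1 2 (qsf 67108864 469762048 1239849684 370763052 1) ndN1q0 ndN1q2b pcN1 Cut.none Ext.none)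

def k0_pp_012_b : ∃ t, chk3 f_pp_012_b t 1 1 1 = true :=
  ⟨(b (a (a (l 2) (b (a (c (l 16777216) (l 16777216)) (c (l 16777216) (l 16777216))) (a (l 2) (l 16777216)))) (a (a (a (b (l 16777168) (l 16777136)) (l 16741576)) (a (l 16663392) (a (l 16594160) (l 16488216)))) (a (b (a (l 16223496) (l 15821400)) (l 15965272)) (b (a (b (b (a (l 15636704) (l 15576152)) (l 15464616)) (l 15489472)) (b (a (b (l 15570248) (l 15324976)) (l 15434632)) (b (a (l 15208696) (l 15082456)) (l 15104360)))) (a (l 15491096) (l 15104296)))))) (a (l 2) (a (a (l 2) (a (l 16679768) (l 16561296))) (a (a (l 16245752) (l 15883136)) (a (l 15506976) (l 15117776)))))), by decide +kernel⟩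

theorem c_pp_012_b : CertNX 67108864 469762048 1239849684 370763052 1046898278 26843546 3 false true true .pnp 0 1 2
    ndN1q0 ndN1q2b pcN1 Cut.none Ext.none :=
  certNX2 (fam := false) (s1 := true) (s2 := true) (a := 0) (b := 1) (c := 2) (cn := .pnp) (n1 := ndN1q0) (n2 := ndN1q2b) (pc := pcN1) (cut := Cut.none) (xt := Ext.none) (P1 := 67108864) (W1 := 469762048) (P2 := 1239849684) (W2 := 370763052) (P3 := 1046898278) (W3 := 26843546) (N0 := 3)
    rfl (fun _ => rfl) k0_pp_012_b

noncomputable def f_pp_022_a : ℕ → ℕ → ℕ → ℕ → Bool := onCell 67108864 469762048 0 420477299 1046898278 26843546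
    (rowNX 3 0 false true true .pp 0 2 2 (qsf 67108864 469762048 0 420477299 2) ndN1q0 ndN1q2a pcN2 Cut.none Ext.none)

def k0_pp_022_a : ∃ t, chk3 f_pp_022_a t 2 2 1 = true :=
  ⟨(a (a (a (b (a (c (a (l 16225624) (b (l 16365008) (l 16356376))) (a (l 16257688) (l 16272512))) (c (l 16311280) (l 16369056))) (a (c (b (a (l 16228920) (l 16334704)) (l 16127584)) (b (l 16181712) (l 16194816))) (c (b (l 16491688) (l 16401376)) (l 16262256)))) (a (b (c (b (l 16197272) (l 16246832)) (l 16124424)) (c (b (l 16286312) (l 16352584)) (b (l 16318296) (l 16409888)))) (b (l 16040224) (b (l 16266320) (l 16420872))))) (b (a (b (l 16000384) (l 16108368)) (a (b (l 15901144) (l 16045008)) (l 1))) (b (a (l 16207768) (a (l 16201872) (l 1))) (a (b (l 16386272) (l 16476488)) (l 1))))) (l 1)), by decide +kernel⟩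

def k1_pp_022_a : ∃ t, chk3 f_pp_022_a t 8 6 1 = true :=
  ⟨(a (a (b (c (l 16041600) (l 16125592)) (c (a (l 15959608) (l 16045128)) (l 15929208))) (c (b (l 16275696) (l 16088384)) (b (l 16307184) (l 16154320)))) (a (c (b (l 16349320) (c (l 16231488) (l 16246224))) (b (l 16407888) (l 16194736))) (b (l 16523624) (l 16255704)))), by decide +kernel⟩

def k2_pp_022_a : ∃ t, chk3 f_pp_022_a t 8 14 1 = true :=
  ⟨(b (a (c (a (a (l 15820560) (l 15899016)) (l 15911104)) (a (a (l 15789552) (l 15870584)) (l 15991272))) (c (a (c (l 16147960) (l 16159120)) (l 16185112)) (a (l 16102152) (l 16165392)))) (a (b (c (a (a (l 15803776) (l 15878784)) (l 15990744)) (a (l 15802664) (l 15964648))) (c (b (a (a (c (a (l 15790368) (l 15826832)) (l 15792688)) (a (c (l 15863304) (l 15848184)) (l 15892344))) (l 15983544)) (a (a (c (c (l 15818104) (l 15810432)) (l 15798992)) (c (a (l 15868968) (c (a (l 15899608) (l 15917480)) (l 15901432))) (c (l 15876232) (l 15868904)))) (c (a (c (l 15962016) (l 15955216)) (l 16028968))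 (a (a (c (l 15930280) (l 15923280)) (l 15962704)) (l 16016392))))) (a (c (a (c (l 15784336) (l 15776344)) (c (l 15858584) (l 15851160))) (a (l 15764072) (c (l 15843664) (l 15836016)))) (b (l 15956936) (c (a (a (c (l 15916264) (l 15909248)) (c (l 15952528) (l 15945712))) (l 16003616)) (a (c (l 15878832) (l 15913784)) (a (c (l 15975432) (c (l 15970456) (l 15967128))) (l 16008672)))))))) (a (b (c (l 16090560) (l 16110936)) (b (c (l 16059288) (l 16100008)) (l 1))) (l 1)))), by decide +kernel⟩

def k3_pp_022_a : ∃ t, chk3 f_pp_022_a t 16 30 1 = true :=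
  ⟨(b (c (a (a (c (a (c (l 15819856) (l 15812632)) (b (l 15846944) (c (l 15869600) (l 15862552)))) (c (l 15825688) (l 15818952))) (c (a (b (c (l 15888952) (l 15881816)) (c (l 15910472) (l 15903464))) (b (c (l 15927144) (l 15920144)) (l 15947864))) (c (a (l 15843152) (b (l 15913160) (l 15937552))) (a (l 15878336) (b (l 15906208) (l 15930744)))))) (c (c (l 15972640) (l 16029336)) (a (b (a (l 15948080) (l 15986200)) (l 15995608)) (l 16058520)))) (a (c (a (c (l 15812416) (l 15805840)) (a (l 15868616) (b (l 15896248) (c (l 15924024) (l 15917696))))) (a (l 15794632) (c (l 15878752) (l 15871952)))) (c (a (a (b (c (l 15937864) (l 15931208)) (l 15961936)) (b (l 15972992) (l 16003080))) (l 16046424)) (a (c (a (b (l 15924784) (l 15952296)) (b (l 15963144) (l 15993408))) (a (b (l 15918248) (l 15946160)) (b (l 15956712) (l 15987152)))) (c (l 16037240) (l 248603016727)))))) (a (c (a (c (a (b (c (l 15850384) (l 15843488)) (c (a (l 15865840) (l 15889032)) (l 15870688))) (b (c (l 15893888) (l 15886920))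 (c (l 15924168) (l 15917136)))) (a (c (l 15829000) (l 15843688)) (b (c (l 15880088) (l 15873560)) (c (l 15910296) (l 15903656))))) (c (c (l 15975888) (l 15969192)) (a (b (c (l 15923768) (l 15917016)) (l 15953728)) (l 15981712)))) (c (c (a (b (l 15846360) (a (l 15852168) (l 15897440))) (a (b (l 15910488) (l 15943720)) (l 15971856))) (a (l 15855056) (a (b (l 15904632) (l 15937456)) (l 15860624)))) (a (c (l 15849312) (l 15842928)) (c (a (b (l 15899144) (l 15931992)) (b (l 15941848) (l 15977952))) (a (l 15909472) (b (l 15936096) (c (l 15973512) (l 15970624)))))))) (a (a (c (c (l 16039040) (l 16026632)) (c (l 16014032) (b (c (l 15985440) (l 15979392)) (l 16021968)))) (l 1)) (l 1)))), by decide +kernel⟩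

def k4_pp_022_a : ∃ t, chk3 f_pp_022_a t 16 31 1 = true :=
  ⟨(a (a (c (c (b (a (b (c (l 15911056) (l 15904064)) (l 15947752)) (l 15977912)) (c (l 16051832) (l 16045744))) (b (b (a (c (l 15897312) (l 15890824)) (l 15943624)) (c (l 15963944) (l 15936424))) (b (l 16009296) (l 16064864)))) (b (c (b (a (c (l 15885088) (l 15880128)) (c (l 15933704) (l 15927784))) (a (c (l 15924416) (l 15918960)) (l 15974000))) (c (a (l 15853088) (b (l 15922928) (l 15965088))) (b (l 15894400) (a (l 15910304) (c (l 15961200) (l 15958704)))))) (c (b (c (l 15999720) (l 15951640)) (l 16052888)) (c (b (a (l 15918168) (l 16015208)) (l 16043936)) (b (a (c (l 15956600) (l 15954328)) (a (l 15995416) (l 16023272))) (a (c (l 16009920) (l 496637398055)) (l 1))))))) (b (c (c (c (l 16056232) (l 16050184)) (l 15915184)) (c (b (l 15984496) (l 16053376)) (c (b (a (l 15971104) (l 16020952)) (l 16044304)) (a (b (c (l 15966904) (l 15964200)) (l 16011816)) (l 15976408))))) (l 1))) (l 1)), by decide +kernel⟩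

def k5_pp_022_a : ∃ t, chk3 f_pp_022_a t 17 15 1 = true :=
  ⟨(l 1), by decide +kernel⟩

def k6_pp_022_a : ∃ t, chk3 f_pp_022_a t 9 3 1 = true :=
  ⟨(a (b (b (a (l 16481640) (l 16440216)) (b (l 16360240) (l 1))) (l 1)) (l 1)), by decide +kernel⟩

def k7_pp_022_a : ∃ t, chk3 f_pp_022_a t 5 3 1 = true :=
  ⟨(l 1), by decide +kernel⟩

def k8_pp_022_a : ∃ t, chk3 f_pp_022_a t 3 1 1 = true :=
  ⟨(l 1), by decide +kernel⟩

theorem s9_pp_022_a : ∃ t, chk3 f_pp_022_a t 16 15 1 = true := ex3_b k3_pp_022_a k4_pp_022_a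

theorem s10_pp_022_a : ∃ t, chk3 f_pp_022_a t 8 15 1 = true := ex3_a s9_pp_022_a k5_pp_022_a

theorem s11_pp_022_a : ∃ t, chk3 f_pp_022_a t 8 7 1 = true := ex3_b k2_pp_022_a s10_pp_022_a

theorem s12_pp_022_a : ∃ t, chk3 f_pp_022_a t 8 3 1 = true := ex3_b k1_pp_022_a s11_pp_022_a

theorem s13_pp_022_a : ∃ t, chk3 f_pp_022_a t 4 3 1 = true := ex3_a s12_pp_022_a k6_pp_022_a

theorem s14_pp_022_a : ∃ t, chk3 f_pp_022_a t 2 3 1 = true := ex3_a s13_pp_022_a k7_pp_022_a

theorem s15_pp_022_a : ∃ t, chk3 f_pp_022_a t 2 1 1 = true := ex3_b k0_pp_022_a s14_pp_022_a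

theorem s16_pp_022_a : ∃ t, chk3 f_pp_022_a t 1 1 1 = true := ex3_a s15_pp_022_a k8_pp_022_a

theorem c_pp_022_a : CertNX 67108864 469762048 0 420477299 1046898278 26843546 3 false true true .pp 0 2 2
    ndN1q0 ndN1q2a pcN2 Cut.none Ext.none :=
  certNX0 (fam := false) (s1 := true) (s2 := true) (a := 0) (b := 2) (c := 2) (cn := .pp) (n1 := ndN1q0) (n2 := ndN1q2a) (pc := pcN2) (cut := Cut.none) (xt := Ext.none) (P1 := 67108864) (W1 := 469762048) (P2 := 0) (W2 := 420477299) (P3 := 1046898278) (W3 := 26843546) (N0 := 3)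
    rfl s16_pp_022_a

noncomputable def f_pp_022_b : ℕ → ℕ → ℕ → ℕ → Bool := onCell 67108864 469762048 1073741824 536870912 1046898278 26843546
    (rowNX 3 1 false true true .pp 0 2 2 (qsf 67108864 469762048 1239849684 370763052 2) ndN1q0 ndN1q2b pcN2 Cut.none Ext.none)

def k0_pp_022_b : ∃ t, chk3 f_pp_022_b t 1 2 1 = true :=
  ⟨(b (a (a (a (b (b (l 1) (a (l 1) (c (a (l 16076368) (l 16059064)) (l 285110198423)))) (a (b (a (c (b (l 1) (l 16133504)) (l 256656369399)) (c (b (l 16400328) (l 16284952)) (l 16187464))) (c (a (l 16105880) (l 15979128)) (a (l 16184560) (l 15981392)))) (c (b (b (l 15911688) (l 15748104)) (l 15441152)) (b (a (l 15896992) (l 15909304)) (l 15661472))))) (b (b (a (l 324838454231) (l 15537312)) (a (l 15873320) (l 15616168))) (b (a (l 15740048) (l 15526872)) (l 15141744)))) (b (a (b (a (l 15367304) (l 15058456)) (l 15037416)) (l 14951520)) (a (b (l 14926832) (l 14873496)) (l 14803784)))) (b (a (l 14951952) (l 14967608)) (a (l 14803848) (l 14803160)))) (a (b (a (a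 (c (b (b (a (a (l 15908856) (l 15735072)) (l 15447560)) (a (a (l 16055896) (l 15892800)) (l 15618472))) (a (a (b (l 16026032) (l 15645912)) (l 16030968)) (b (l 16050064) (l 16277992)))) (b (b (a (l 15630840) (l 15407856)) (a (l 15789272) (l 15585392))) (a (b (l 15929184) (l 15645008)) (l 15997384)))) (b (b (l 15123080) (l 15310808)) (b (l 15763984) (l 16193968)))) (b (b (a (l 14680712) (l 14519656)) (a (l 14891656) (l 14740296))) (a (l 15534480) (l 15460000)))) (a (a (b (a (a (l 14857440) (l 15215904)) (c (l 15677168) (l 15772368))) (a (a (l 14728232) (l 15060192)) (c (l 15488952) (l 15443736)))) (b (l 16057952) (l 15887664))) (b (a (l 16374440) (l 16339944)) (a (l 16531176) (l 16776608))))) (b (b (b (l 14518616) (l 14739456)) (l 15375792)) (b (l 16339928) (l 16776608))))), by decide +kernel⟩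

def k1_pp_022_b : ∃ t, chk3 f_pp_022_b t 1 3 1 = true :=
  ⟨(a (a (b (a (a (b (c (l 14920576) (l 14846768)) (c (l 14920592) (l 14846784))) (b (l 15256240) (l 15444984))) (b (l 15887280) (l 15887240))) (a (a (b (l 14888424) (l 14888424)) (c (l 15488520) (l 15443280))) (l 15887280))) (b (b (l 16427536) (a (l 16530824) (l 2))) (l 2))) (l 2)), by decide +kernel⟩

theorem s2_pp_022_b : ∃ t, chk3 f_pp_022_b t 1 1 1 = true := ex3_b k0_pp_022_b k1_pp_022_b

theorem c_pp_022_b : CertNX 67108864 469762048 1239849684 370763052 1046898278 26843546 3 false true true .pp 0 2 2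
    ndN1q0 ndN1q2b pcN2 Cut.none Ext.none :=
  certNX1 (fam := false) (s1 := true) (s2 := true) (a := 0) (b := 2) (c := 2) (cn := .pp) (n1 := ndN1q0) (n2 := ndN1q2b) (pc := pcN2) (cut := Cut.none) (xt := Ext.none) (P1 := 67108864) (W1 := 469762048) (P2 := 1239849684) (W2 := 370763052) (P3 := 1046898278) (W3 := 26843546) (N0 := 3)
    rfl (fun _ => rfl) s2_pp_022_b

noncomputable def f_pp_023 : ℕ → ℕ → ℕ → ℕ → Bool := onCell 67108864 469762048 1073741824 536870912 1046898278 26843546
    (rowNX 3 1 false true true .up 0 2 3 (qsf 67108864 469762048 1610612736 469762048 2) ndN1q0 ndN1q3 pcN2 Cut.none Ext.none)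

def k0_pp_023 : ∃ t, chk3 f_pp_023 t 1 1 1 = true :=
  ⟨(b (b (a (l 1) (b (l 301214125639) (a (l 14803848) (l 14803160)))) (a (b (l 1) (a (l 1) (b (l 1229466675271) (l 375842452039)))) (b (b (b (l 14518616) (l 14739456)) (l 15354816)) (b (l 16339928) (l 16776608))))) (a (a (b (a (l 1) (b (l 1) (l 15887240))) (a (a (b (l 14888424) (l 14888424)) (c (l 15488520) (l 15443280))) (l 15887280))) (b (b (l 16427536) (a (l 16530824) (l 16776880))) (a (l 16530888) (l 16777216)))) (b (b (l 16777216) (l 16776544)) (b (l 16766344) (l 16761416))))), by decide +kernel⟩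

theorem c_pp_023 : CertNX 67108864 469762048 1610612736 469762048 1046898278 26843546 3 false true true .up 0 2 3
    ndN1q0 ndN1q3 pcN2 Cut.none Ext.none :=
  certNX1 (fam := false) (s1 := true) (s2 := true) (a := 0) (b := 2) (c := 3) (cn := .up) (n1 := ndN1q0) (n2 := ndN1q3) (pc := pcN2) (cut := Cut.none) (xt := Ext.none) (P1 := 67108864) (W1 := 469762048) (P2 := 1610612736) (W2 := 469762048) (P3 := 1046898278) (W3 := 26843546) (N0 := 3)
    rfl (fun _ => rfl) k0_pp_023

noncomputable def f_pp_033 : ℕ → ℕ → ℕ → ℕ → Bool := onCell 67108864 469762048 1610612736 536870912 1046898278 26843546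
    (rowNX 3 1 false true true .pnn 0 3 3 (qsf 67108864 469762048 1610612736 469762048 3) ndN1q0 ndN1q3 pcN3 Cut.none Ext.none)

def k0_pp_033 : ∃ t, chk3 f_pp_033 t 1 1 1 = true :=
  ⟨(b (b (a (a (a (c (a (l 14920576) (l 15488520)) (a (l 14846768) (l 15443280))) (b (l 15887280) (l 15887280))) (b (l 16658232) (l 16657104))) (b (l 16748512) (a (l 16754520) (l 2)))) (b (a (a (a (c (a (l 14920576) (l 15488520)) (l 14956008)) (l 15887296)) (a (l 16528608) (l 16767512))) (a (l 16730704) (l 2))) (a (l 4) (l 2)))) (a (b (a (l 4) (b (l 4) (l 2))) (a (b (l 4) (l 2)) (l 2))) (l 2))), by decide +kernel⟩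

theorem c_pp_033 : CertNX 67108864 469762048 1610612736 469762048 1046898278 26843546 3 false true true .pnn 0 3 3
    ndN1q0 ndN1q3 pcN3 Cut.none Ext.none :=
  certNX1 (fam := false) (s1 := true) (s2 := true) (a := 0) (b := 3) (c := 3) (cn := .pnn) (n1 := ndN1q0) (n2 := ndN1q3) (pc := pcN3) (cut := Cut.none) (xt := Ext.none) (P1 := 67108864) (W1 := 469762048) (P2 := 1610612736) (W2 := 469762048) (P3 := 1046898278) (W3 := 26843546) (N0 := 3)
    rfl (fun _ => rfl) k0_pp_033

noncomputable def f_pp_101 : ℕ → ℕ → ℕ → ℕ → Bool := onCell 536870912 536870912 536870912 536870912 1046898278 26843546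
    (rowNX 3 0 false true true .npn 1 0 1 (qsf 536870912 536870912 536870912 536870912 0) ndN1q1 ndN1q1 pcN0 Cut.none Ext.none)

def k0_pp_101 : ∃ t, chk3 f_pp_101 t 1 1 1 = true :=
  ⟨(l 3), by decide +kernel⟩

theorem c_pp_101 : CertNX 536870912 536870912 536870912 536870912 1046898278 26843546 3 false true true .npn 1 0 1
    ndN1q1 ndN1q1 pcN0 Cut.none Ext.none :=
  certNX0 (fam := false) (s1 := true) (s2 := true) (a := 1) (b := 0) (c := 1) (cn := .npn) (n1 := ndN1q1) (n2 := ndN1q1) (pc := pcN0) (cut := Cut.none) (xt := Ext.none) (P1 := 536870912) (W1 := 536870912) (P2 := 536870912) (W2 := 536870912) (P3 := 1046898278) (W3 := 26843546) (N0 := 3)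
    rfl k0_pp_101

noncomputable def f_pp_102_a : ℕ → ℕ → ℕ → ℕ → Bool := onCell 0 536870912 0 420477299 1046898278 26843546
    (rowNX 3 2 false true true .npp 1 0 2 (qsf 536870912 536870912 0 420477299 0) ndN1q1 ndN1q2a pcN0 Cut.none Ext.none)

def k0_pp_102_a : ∃ t, chk3 f_pp_102_a t 1 1 1 = true :=
  ⟨(a (l 3) (l 3)), by decide +kernel⟩

theorem c_pp_102_a : CertNX 536870912 536870912 0 420477299 1046898278 26843546 3 false true true .npp 1 0 2
    ndN1q1 ndN1q2a pcN0 Cut.none Ext.none :=
  certNX2 (fam := false) (s1 := true) (s2 := true) (a := 1) (b := 0) (c := 2) (cn := .npp) (n1 := ndN1q1) (n2 := ndN1q2a) (pc := pcN0) (cut := Cut.none) (xt := Ext.none) (P1 := 536870912) (W1 := 536870912) (P2 := 0) (W2 := 420477299) (P3 := 1046898278) (W3 := 26843546) (N0 := 3)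
    rfl (fun _ => rfl) k0_pp_102_a

noncomputable def f_pp_102_b : ℕ → ℕ → ℕ → ℕ → Bool := onCell 536870912 536870912 0 536870912 1046898278 26843546
    (rowNX 3 1 false true true .npp 1 0 2 (qsf 536870912 536870912 1239849684 370763052 0) ndN1q1 ndN1q2b pcN0 Cut.none Ext.none)

def k0_pp_102_b : ∃ t, chk3 f_pp_102_b t 1 1 1 = true :=
  ⟨(a (a (l 1) (l 3)) (l 3)), by decide +kernel⟩

theorem c_pp_102_b : CertNX 536870912 536870912 1239849684 370763052 1046898278 26843546 3 false true true .npp 1 0 2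
    ndN1q1 ndN1q2b pcN0 Cut.none Ext.none :=
  certNX1 (fam := false) (s1 := true) (s2 := true) (a := 1) (b := 0) (c := 2) (cn := .npp) (n1 := ndN1q1) (n2 := ndN1q2b) (pc := pcN0) (cut := Cut.none) (xt := Ext.none) (P1 := 536870912) (W1 := 536870912) (P2 := 1239849684) (W2 := 370763052) (P3 := 1046898278) (W3 := 26843546) (N0 := 3)
    rfl (fun _ => rfl) k0_pp_102_b

noncomputable def f_pp_112_a : ℕ → ℕ → ℕ → ℕ → Bool := onCell 536870912 536870912 0 420477299 1046898278 26843546
    (rowNX 3 0 false true true .dn 1 1 2 (qsf 536870912 536870912 0 420477299 1) ndN1q1 ndN1q2a pcN1 Cut.none Ext.none)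

def k0_pp_112_a : ∃ t, chk3 f_pp_112_a t 1 1 1 = true :=
  ⟨(a (b (a (a (b (a (c (b (l 16777208) (l 192367557991)) (l 158007819111)) (c (a (l 196125654039) (l 218137362247)) (l 199883750247))) (l 3)) (b (b (a (c (l 218674233175) (l 213305524055)) (c (l 280951259127) (l 270213840887))) (l 3)) (l 3))) (l 3)) (l 3)) (l 1)), by decide +kernel⟩

theorem c_pp_112_a : CertNX 536870912 536870912 0 420477299 1046898278 26843546 3 false true true .dn 1 1 2
    ndN1q1 ndN1q2a pcN1 Cut.none Ext.none :=
  certNX0 (fam := false) (s1 := true) (s2 := true) (a := 1) (b := 1) (c := 2) (cn := .dn) (n1 := ndN1q1) (n2 := ndN1q2a) (pc := pcN1) (cut := Cut.none) (xt := Ext.none) (P1 := 536870912) (W1 := 536870912) (P2 := 0) (W2 := 420477299) (P3 := 1046898278) (W3 := 26843546) (N0 := 3)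
    rfl k0_pp_112_a

noncomputable def f_pp_112_b : ℕ → ℕ → ℕ → ℕ → Bool := onCell 536870912 536870912 1239849684 370763052 1046898278 26843546
    (rowNX 3 2 false true true .dn 1 1 2 (qsf 536870912 536870912 1239849684 370763052 1) ndN1q1 ndN1q2b pcN1 Cut.none Ext.none)

def k0_pp_112_b : ∃ t, chk3 f_pp_112_b t 1 1 1 = true :=
  ⟨(b (b (a (a (a (a (l 3) (c (l 270213840903) (l 256255197191))) (a (c (c (l 16777216) (l 16777216)) (l 16777216)) (c (l 16777216) (l 16777216)))) (a (c (l 16777216) (l 16777216)) (a (l 16777216) (l 16777216)))) (l 1)) (a (a (a (l 3) (a (l 258939551751) (l 16777216))) (a (c (l 16777216) (l 16777216)) (l 16777216))) (a (a (a (l 16777136) (l 16742440)) (l 201359496519)) (l 1)))) (a (a (a (l 3) (b (a (l 3) (l 3)) (l 3))) (a (b (a (l 16776672) (l 16777216)) (a (l 3) (l 16746928))) (b (l 16777216) (l 16771192)))) (a (a (a (l 16777184) (l 16748040)) (a (l 16679768) (l 16561296))) (a (l 178809581447) (l 207799170311))))), by decide +kernel⟩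

theorem c_pp_112_b : CertNX 536870912 536870912 1239849684 370763052 1046898278 26843546 3 false true true .dn 1 1 2
    ndN1q1 ndN1q2b pcN1 Cut.none Ext.none :=
  certNX2 (fam := false) (s1 := true) (s2 := true) (a := 1) (b := 1) (c := 2) (cn := .dn) (n1 := ndN1q1) (n2 := ndN1q2b) (pc := pcN1) (cut := Cut.none) (xt := Ext.none) (P1 := 536870912) (W1 := 536870912) (P2 := 1239849684) (W2 := 370763052) (P3 := 1046898278) (W3 := 26843546) (N0 := 3)
    rfl (fun _ => rfl) k0_pp_112_b

noncomputable def f_pp_113 : ℕ → ℕ → ℕ → ℕ → Bool := onCell 536870912 536870912 536870912 536870912 1046898278 26843546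
    (rowNX 3 1 false true true .nn 1 1 3 (qsf 536870912 536870912 1610612736 469762048 1) ndN1q1 ndN1q3 pcN1 Cut.none Ext.none)

def k0_pp_113 : ∃ t, chk3 f_pp_113 t 1 1 1 = true :=
  ⟨(b (b (a (l 1) (l 3)) (a (b (l 1) (a (l 1) (l 16777216))) (a (b (a (l 16762416) (l 3)) (a (l 16762416) (l 16647760))) (a (l 3) (l 3))))) (b (a (b (b (l 274911474247) (a (l 1) (l 16751336))) (a (l 16619608) (b (l 16692104) (b (l 16638616) (l 16537504))))) (a (b (a (l 16755240) (l 16413288)) (b (a (l 16698520) (l 16604520)) (a (l 16601664) (l 16525840)))) (b (a (l 181628897879) (l 269137163735)) (b (a (l 16148488) (l 15557136)) (a (l 16089792) (b (l 15546976) (l 15498176))))))) (a (b (a (l 16075096) (l 16108560)) (a (l 15338824) (l 15384984))) (b (a (b (a (l 16303840) (l 16225648)) (a (l 15955528) (l 15888128))) (a (b (l 15825720) (l 15503144)) (b (l 15289528) (l 15027232)))) (a (a (l 15419024) (l 15359872)) (b (b (a (l 15268520) (l 14865744)) (a (a (l 15220288) (l 14784560)) (b (l 14809944) (l 14792680))))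 (a (l 14878792) (b (c (a (b (l 15011792) (c (l 15123832) (l 14888976))) (b (l 15287096) (l 2))) (l 14489560)) (a (l 14729280) (l 2)))))))))), by decide +kernel⟩

theorem c_pp_113 : CertNX 536870912 536870912 1610612736 469762048 1046898278 26843546 3 false true true .nn 1 1 3
    ndN1q1 ndN1q3 pcN1 Cut.none Ext.none :=
  certNX1 (fam := false) (s1 := true) (s2 := true) (a := 1) (b := 1) (c := 3) (cn := .nn) (n1 := ndN1q1) (n2 := ndN1q3) (pc := pcN1) (cut := Cut.none) (xt := Ext.none) (P1 := 536870912) (W1 := 536870912) (P2 := 1610612736) (W2 := 469762048) (P3 := 1046898278) (W3 := 26843546) (N0 := 3)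
    rfl (fun _ => rfl) k0_pp_113

noncomputable def f_pp_123 : ℕ → ℕ → ℕ → ℕ → Bool := onCell 1073741824 536870912 1610612736 469762048 1046898278 26843546
    (rowNX 3 2 false true true .npn 1 2 3 (qsf 536870912 536870912 1610612736 469762048 2) ndN1q1 ndN1q3 pcN2 Cut.none Ext.none)

def k0_pp_123 : ∃ t, chk3 f_pp_123 t 1 1 1 = true :=
  ⟨(b (a (a (a (b (l 14992960) (l 15041760)) (b (l 14802840) (l 14801032))) (a (a (a (l 14514976) (l 14736768)) (l 15458432)) (a (l 16339728) (l 16776608)))) (l 1)) (a (a (b (a (l 15000496) (l 14798176)) (a (b (l 15128336) (a (l 15158712) (l 15082936))) (a (l 14929272) (l 14682360)))) (a (a (a (b (l 14502136) (l 14496672)) (l 14727016)) (b (l 15452024) (l 15452376))) (a (b (l 16338064) (l 16344336)) (l 16766968)))) (a (a (l 16766256) (l 16767584)) (l 16767296)))), by decide +kernel⟩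

theorem c_pp_123 : CertNX 536870912 536870912 1610612736 469762048 1046898278 26843546 3 false true true .npn 1 2 3
    ndN1q1 ndN1q3 pcN2 Cut.none Ext.none :=
  certNX2 (fam := false) (s1 := true) (s2 := true) (a := 1) (b := 2) (c := 3) (cn := .npn) (n1 := ndN1q1) (n2 := ndN1q3) (pc := pcN2) (cut := Cut.none) (xt := Ext.none) (P1 := 536870912) (W1 := 536870912) (P2 := 1610612736) (W2 := 469762048) (P3 := 1046898278) (W3 := 26843546) (N0 := 3)
    rfl (fun _ => rfl) k0_pp_123

noncomputable def f_pp_133 : ℕ → ℕ → ℕ → ℕ → Bool := onCell 536870912 536870912 1610612736 469762048 1046898278 26843546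
    (rowNX 3 0 false true true .dn 1 3 3 (qsf 536870912 536870912 1610612736 469762048 3) ndN1q1 ndN1q3 pcN3 Cut.none Ext.none)

def k0_pp_133 : ∃ t, chk3 f_pp_133 t 1 1 1 = true :=
  ⟨(l 1), by decide +kernel⟩

theorem c_pp_133 : CertNX 536870912 536870912 1610612736 469762048 1046898278 26843546 3 false true true .dn 1 3 3
    ndN1q1 ndN1q3 pcN3 Cut.none Ext.none :=
  certNX0 (fam := false) (s1 := true) (s2 := true) (a := 1) (b := 3) (c := 3) (cn := .dn) (n1 := ndN1q1) (n2 := ndN1q3) (pc := pcN3) (cut := Cut.none) (xt := Ext.none) (P1 := 536870912) (W1 := 536870912) (P2 := 1610612736) (W2 := 469762048) (P3 := 1046898278) (W3 := 26843546) (N0 := 3)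
    rfl k0_pp_133

noncomputable def f_pp_202_aa : ℕ → ℕ → ℕ → ℕ → Bool := onCell 0 420477299 0 420477299 1046898278 26843546
    (rowNX 3 0 false true true .pp 2 0 2 (qsf 0 420477299 0 420477299 0) ndN1q2a ndN1q2a pcN0 Cut.none Ext.none)

def k0_pp_202_aa : ∃ t, chk3 f_pp_202_aa t 1 1 1 = true :=
  ⟨(l 3), by decide +kernel⟩

theorem c_pp_202_aa : CertNX 0 420477299 0 420477299 1046898278 26843546 3 false true true .pp 2 0 2
    ndN1q2a ndN1q2a pcN0 Cut.none Ext.none :=
  certNX0 (fam := false) (s1 := true) (s2 := true) (a := 2) (b := 0) (c := 2) (cn := .pp) (n1 := ndN1q2a) (n2 := ndN1q2a) (pc := pcN0) (cut := Cut.none) (xt := Ext.none) (P1 := 0) (W1 := 420477299) (P2 := 0) (W2 := 420477299) (P3 := 1046898278) (W3 := 26843546) (N0 := 3)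
    rfl k0_pp_202_aa

noncomputable def f_pp_202_ab : ℕ → ℕ → ℕ → ℕ → Bool := onCell 0 420477299 1239849684 370763052 1046898278 26843546
    (rowNX 3 0 false true true .pp 2 0 2 (qsf 0 420477299 1239849684 370763052 0) ndN1q2a ndN1q2b pcN0 Cut.none Ext.none)

def k0_pp_202_ab : ∃ t, chk3 f_pp_202_ab t 1 1 1 = true :=
  ⟨(l 3), by decide +kernel⟩

theorem c_pp_202_ab : CertNX 0 420477299 1239849684 370763052 1046898278 26843546 3 false true true .pp 2 0 2
    ndN1q2a ndN1q2b pcN0 Cut.none Ext.none :=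
  certNX0 (fam := false) (s1 := true) (s2 := true) (a := 2) (b := 0) (c := 2) (cn := .pp) (n1 := ndN1q2a) (n2 := ndN1q2b) (pc := pcN0) (cut := Cut.none) (xt := Ext.none) (P1 := 0) (W1 := 420477299) (P2 := 1239849684) (W2 := 370763052) (P3 := 1046898278) (W3 := 26843546) (N0 := 3)
    rfl k0_pp_202_ab

noncomputable def f_pp_202_ba : ℕ → ℕ → ℕ → ℕ → Bool := onCell 1239849684 370763052 0 420477299 1046898278 26843546
    (rowNX 3 0 false true true .pp 2 0 2 (qsf 1239849684 370763052 0 420477299 0) ndN1q2b ndN1q2a pcN0 Cut.none Ext.none)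

def k0_pp_202_ba : ∃ t, chk3 f_pp_202_ba t 1 1 1 = true :=
  ⟨(l 3), by decide +kernel⟩

theorem c_pp_202_ba : CertNX 1239849684 370763052 0 420477299 1046898278 26843546 3 false true true .pp 2 0 2
    ndN1q2b ndN1q2a pcN0 Cut.none Ext.none :=
  certNX0 (fam := false) (s1 := true) (s2 := true) (a := 2) (b := 0) (c := 2) (cn := .pp) (n1 := ndN1q2b) (n2 := ndN1q2a) (pc := pcN0) (cut := Cut.none) (xt := Ext.none) (P1 := 1239849684) (W1 := 370763052) (P2 := 0) (W2 := 420477299) (P3 := 1046898278) (W3 := 26843546) (N0 := 3)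
    rfl k0_pp_202_ba

noncomputable def f_pp_202_bb : ℕ → ℕ → ℕ → ℕ → Bool := onCell 1239849684 370763052 1239849684 370763052 1046898278 26843546
    (rowNX 3 0 false true true .pp 2 0 2 (qsf 1239849684 370763052 1239849684 370763052 0) ndN1q2b ndN1q2b pcN0 Cut.none Ext.none)

def k0_pp_202_bb : ∃ t, chk3 f_pp_202_bb t 1 1 1 = true :=
  ⟨(l 3), by decide +kernel⟩

theorem c_pp_202_bb : CertNX 1239849684 370763052 1239849684 370763052 1046898278 26843546 3 false true true .pp 2 0 2
    ndN1q2b ndN1q2b pcN0 Cut.none Ext.none :=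
  certNX0 (fam := false) (s1 := true) (s2 := true) (a := 2) (b := 0) (c := 2) (cn := .pp) (n1 := ndN1q2b) (n2 := ndN1q2b) (pc := pcN0) (cut := Cut.none) (xt := Ext.none) (P1 := 1239849684) (W1 := 370763052) (P2 := 1239849684) (W2 := 370763052) (P3 := 1046898278) (W3 := 26843546) (N0 := 3)
    rfl k0_pp_202_bb

noncomputable def f_pp_203_a : ℕ → ℕ → ℕ → ℕ → Bool := onCell 0 420477299 1610612736 469762048 1046898278 26843546
    (rowNX 3 0 false true true .up 2 0 3 (qsf 0 420477299 1610612736 469762048 0) ndN1q2a ndN1q3 pcN0 Cut.none Ext.none)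

def k0_pp_203_a : ∃ t, chk3 f_pp_203_a t 1 1 1 = true :=
  ⟨(l 3), by decide +kernel⟩

theorem c_pp_203_a : CertNX 0 420477299 1610612736 469762048 1046898278 26843546 3 false true true .up 2 0 3
    ndN1q2a ndN1q3 pcN0 Cut.none Ext.none :=
  certNX0 (fam := false) (s1 := true) (s2 := true) (a := 2) (b := 0) (c := 3) (cn := .up) (n1 := ndN1q2a) (n2 := ndN1q3) (pc := pcN0) (cut := Cut.none) (xt := Ext.none) (P1 := 0) (W1 := 420477299) (P2 := 1610612736) (W2 := 469762048) (P3 := 1046898278) (W3 := 26843546) (N0 := 3)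
    rfl k0_pp_203_a

noncomputable def f_pp_203_b : ℕ → ℕ → ℕ → ℕ → Bool := onCell 1239849684 370763052 1610612736 469762048 1046898278 26843546
    (rowNX 3 0 false true true .up 2 0 3 (qsf 1239849684 370763052 1610612736 469762048 0) ndN1q2b ndN1q3 pcN0 Cut.none Ext.none)

def k0_pp_203_b : ∃ t, chk3 f_pp_203_b t 1 1 1 = true :=
  ⟨(l 3), by decide +kernel⟩

theorem c_pp_203_b : CertNX 1239849684 370763052 1610612736 469762048 1046898278 26843546 3 false true true .up 2 0 3
    ndN1q2b ndN1q3 pcN0 Cut.none Ext.none :=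
  certNX0 (fam := false) (s1 := true) (s2 := true) (a := 2) (b := 0) (c := 3) (cn := .up) (n1 := ndN1q2b) (n2 := ndN1q3) (pc := pcN0) (cut := Cut.none) (xt := Ext.none) (P1 := 1239849684) (W1 := 370763052) (P2 := 1610612736) (W2 := 469762048) (P3 := 1046898278) (W3 := 26843546) (N0 := 3)
    rfl k0_pp_203_b

noncomputable def f_pp_213_a : ℕ → ℕ → ℕ → ℕ → Bool := onCell 0 420477299 1610612736 469762048 1046898278 26843546
    (rowNX 3 0 false true true .pnn 2 1 3 (qsf 0 420477299 1610612736 469762048 1) ndN1q2a ndN1q3 pcN1 Cut.none Ext.none)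

def k0_pp_213_a : ∃ t, chk3 f_pp_213_a t 1 1 1 = true :=
  ⟨(l 3), by decide +kernel⟩

theorem c_pp_213_a : CertNX 0 420477299 1610612736 469762048 1046898278 26843546 3 false true true .pnn 2 1 3
    ndN1q2a ndN1q3 pcN1 Cut.none Ext.none :=
  certNX0 (fam := false) (s1 := true) (s2 := true) (a := 2) (b := 1) (c := 3) (cn := .pnn) (n1 := ndN1q2a) (n2 := ndN1q3) (pc := pcN1) (cut := Cut.none) (xt := Ext.none) (P1 := 0) (W1 := 420477299) (P2 := 1610612736) (W2 := 469762048) (P3 := 1046898278) (W3 := 26843546) (N0 := 3)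
    rfl k0_pp_213_a

noncomputable def f_pp_213_b : ℕ → ℕ → ℕ → ℕ → Bool := onCell 1239849684 370763052 1610612736 469762048 1046898278 26843546
    (rowNX 3 0 false true true .pnn 2 1 3 (qsf 1239849684 370763052 1610612736 469762048 1) ndN1q2b ndN1q3 pcN1 Cut.none Ext.none)

def k0_pp_213_b : ∃ t, chk3 f_pp_213_b t 1 1 1 = true :=
  ⟨(l 3), by decide +kernel⟩

theorem c_pp_213_b : CertNX 1239849684 370763052 1610612736 469762048 1046898278 26843546 3 false true true .pnn 2 1 3
    ndN1q2b ndN1q3 pcN1 Cut.none Ext.none :=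
  certNX0 (fam := false) (s1 := true) (s2 := true) (a := 2) (b := 1) (c := 3) (cn := .pnn) (n1 := ndN1q2b) (n2 := ndN1q3) (pc := pcN1) (cut := Cut.none) (xt := Ext.none) (P1 := 1239849684) (W1 := 370763052) (P2 := 1610612736) (W2 := 469762048) (P3 := 1046898278) (W3 := 26843546) (N0 := 3)
    rfl k0_pp_213_b

noncomputable def f_pp_303 : ℕ → ℕ → ℕ → ℕ → Bool := onCell 1610612736 469762048 1610612736 469762048 1046898278 26843546
    (rowNX 3 0 false true true .npn 3 0 3 (qsf 1610612736 469762048 1610612736 469762048 0) ndN1q3 ndN1q3 pcN0 Cut.none Ext.none)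

def k0_pp_303 : ∃ t, chk3 f_pp_303 t 1 1 1 = true :=
  ⟨(l 3), by decide +kernel⟩

theorem c_pp_303 : CertNX 1610612736 469762048 1610612736 469762048 1046898278 26843546 3 false true true .npn 3 0 3
    ndN1q3 ndN1q3 pcN0 Cut.none Ext.none :=
  certNX0 (fam := false) (s1 := true) (s2 := true) (a := 3) (b := 0) (c := 3) (cn := .npn) (n1 := ndN1q3) (n2 := ndN1q3) (pc := pcN0) (cut := Cut.none) (xt := Ext.none) (P1 := 1610612736) (W1 := 469762048) (P2 := 1610612736) (W2 := 469762048) (P3 := 1046898278) (W3 := 26843546) (N0 := 3)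
    rfl k0_pp_303

noncomputable def f_pp_313 : ℕ → ℕ → ℕ → ℕ → Bool := onCell 1610612736 469762048 1610612736 469762048 1046898278 26843546
    (rowNX 3 0 false true true .dn 3 1 3 (qsf 1610612736 469762048 1610612736 469762048 1) ndN1q3 ndN1q3 pcN1 Cut.none Ext.none)

def k0_pp_313 : ∃ t, chk3 f_pp_313 t 1 1 1 = true :=
  ⟨(l 1), by decide +kernel⟩

theorem c_pp_313 : CertNX 1610612736 469762048 1610612736 469762048 1046898278 26843546 3 false true true .dn 3 1 3
    ndN1q3 ndN1q3 pcN1 Cut.none Ext.none :=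
  certNX0 (fam := false) (s1 := true) (s2 := true) (a := 3) (b := 1) (c := 3) (cn := .dn) (n1 := ndN1q3) (n2 := ndN1q3) (pc := pcN1) (cut := Cut.none) (xt := Ext.none) (P1 := 1610612736) (W1 := 469762048) (P2 := 1610612736) (W2 := 469762048) (P3 := 1046898278) (W3 := 26843546) (N0 := 3)
    rfl k0_pp_313

noncomputable def f_pm_001 : ℕ → ℕ → ℕ → ℕ → Bool := onCell 67108864 469762048 536870912 536870912 1046898278 26843546
    (rowNX 3 0 false true false .up 0 0 1 (qsf 67108864 469762048 536870912 536870912 0) ndN1q0 ndN1q1 pcN0 Cut.none Ext.none)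

def k0_pm_001 : ∃ t, chk3 f_pm_001 t 1 1 1 = true :=
  ⟨(b (l 4) (a (l 4) (l 4))), by decide +kernel⟩

theorem c_pm_001 : CertNX 67108864 469762048 536870912 536870912 1046898278 26843546 3 false true false .up 0 0 1
    ndN1q0 ndN1q1 pcN0 Cut.none Ext.none :=
  certNX0 (fam := false) (s1 := true) (s2 := false) (a := 0) (b := 0) (c := 1) (cn := .up) (n1 := ndN1q0) (n2 := ndN1q1) (pc := pcN0) (cut := Cut.none) (xt := Ext.none) (P1 := 67108864) (W1 := 469762048) (P2 := 536870912) (W2 := 536870912) (P3 := 1046898278) (W3 := 26843546) (N0 := 3)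
    rfl k0_pm_001

noncomputable def f_pm_011 : ℕ → ℕ → ℕ → ℕ → Bool := onCell 67108864 469762048 536870912 536870912 1046898278 26843546
    (rowNX 3 0 false true false .pnn 0 1 1 (qsf 67108864 469762048 536870912 536870912 1) ndN1q0 ndN1q1 pcN1 Cut.none Ext.none)

def k0_pm_011 : ∃ t, chk3 f_pm_011 t 1 1 1 = true :=
  ⟨(b (l 4) (a (l 4) (l 4))), by decide +kernel⟩

theorem c_pm_011 : CertNX 67108864 469762048 536870912 536870912 1046898278 26843546 3 false true false .pnn 0 1 1
    ndN1q0 ndN1q1 pcN1 Cut.none Ext.none :=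
  certNX0 (fam := false) (s1 := true) (s2 := false) (a := 0) (b := 1) (c := 1) (cn := .pnn) (n1 := ndN1q0) (n2 := ndN1q1) (pc := pcN1) (cut := Cut.none) (xt := Ext.none) (P1 := 67108864) (W1 := 469762048) (P2 := 536870912) (W2 := 536870912) (P3 := 1046898278) (W3 := 26843546) (N0 := 3)
    rfl k0_pm_011

noncomputable def f_pm_012_a : ℕ → ℕ → ℕ → ℕ → Bool := onCell 536870912 536870912 0 420477299 1046898278 26843546
    (rowNX 3 2 false true false .pnp 0 1 2 (qsf 67108864 469762048 0 420477299 1) ndN1q0 ndN1q2a pcN1 Cut.none Ext.none)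

def k0_pm_012_a : ∃ t, chk3 f_pm_012_a t 2 1 1 = true :=
  ⟨(b (a (l 2) (a (b (l 16777120) (l 16776040)) (b (l 16777120) (l 16776040)))) (b (a (l 16772600) (l 16772600)) (a (b (c (l 16708728) (l 16706320)) (a (l 16393072) (l 16393072))) (b (c (l 16708728) (l 16706320)) (a (l 16393072) (l 16393072)))))), by decide +kernel⟩

def k1_pm_012_a : ∃ t, chk3 f_pm_012_a t 6 1 1 = true :=
  ⟨(b (a (a (b (l 16777072) (l 16776168)) (b (l 16703296) (l 16678248))) (a (b (l 16554048) (l 16477120)) (b (a (l 16430416) (l 16204776)) (a (l 16300504) (l 16094368))))) (a (b (a (l 16772776) (l 16645736)) (b (a (l 16707680) (l 16558336)) (a (l 16393264) (l 16297472)))) (b (a (l 16387704) (a (l 16054584) (l 15889800))) (a (b (l 16284064) (b (l 16471040) (l 16507296))) (b (a (a (l 16169808) (l 16040056)) (b (l 15774840) (l 15768352))) (a (a (b (l 16269240) (l 16370736)) (b (l 16140224) (l 16309480))) (b (l 15944520) (l 16176936)))))))), by decide +kernel⟩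

def k2_pm_012_a : ∃ t, chk3 f_pm_012_a t 7 2 1 = true :=
  ⟨(a (a (b (b (l 16028624) (l 15908496)) (a (l 15830752) (l 15559920))) (b (b (l 15451424) (l 15471456)) (b (l 15212488) (a (l 15274888) (l 15179136))))) (a (b (a (l 15345096) (l 15280056)) (c (a (l 15175480) (l 15081008)) (l 15089016))) (b (a (c (l 15228568) (l 15198624)) (c (l 15171824) (b (l 15215120) (l 15049776)))) (a (c (b (l 15016640) (l 14925640)) (l 14966000)) (c (b (l 14946608) (l 14832136)) (a (l 14882608) (b (l 14894096) (l 14774608)))))))), by decide +kernel⟩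

def k3_pm_012_a : ∃ t, chk3 f_pm_012_a t 14 3 1 = true :=
  ⟨(b (a (b (a (l 15636664) (l 15337424)) (a (l 15515216) (a (l 15301032) (l 15219056)))) (b (a (l 15196288) (l 15156568)) (c (l 15213680) (l 15159512)))) (a (b (c (b (a (l 15504584) (l 15321776)) (l 15387912)) (a (l 15418960) (l 15337440))) (a (b (l 15775216) (l 15991688)) (b (c (l 15621264) (l 15582384)) (c (l 15833216) (l 15802624))))) (b (c (b (l 15267096) (l 15405776)) (b (l 15215056) (l 15359152))) (c (b (a (l 15589480) (l 15578192)) (a (l 15804048) (l 15775864))) (b (l 15542184) (a (l 15772616) (l 15743576))))))), by decide +kernel⟩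

def k4_pm_012_a : ∃ t, chk3 f_pm_012_a t 15 6 1 = true :=
  ⟨(a (c (a (b (l 15118768) (c (l 15144432) (l 15134096))) (b (l 15005752) (c (l 14989096) (l 15012432)))) (b (l 15029072) (a (l 15092144) (l 14986072)))) (a (c (b (a (l 14901488) (l 14817880)) (a (l 14855784) (c (l 14734032) (l 14759496)))) (b (l 14871256) (l 14830152))) (c (b (a (l 14742504) (l 14717392)) (a (c (l 14663440) (l 14662040)) (l 14648368))) (a (c (l 14717096) (l 14726384)) (c (l 14645416) (b (l 14669120) (l 14604024))))))), by decide +kernel⟩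

def k5_pm_012_a : ∃ t, chk3 f_pm_012_a t 30 7 1 = true :=
  ⟨(b (c (a (a (b (l 15225808) (l 15360648)) (b (a (l 15183328) (l 15144888)) (l 15277112))) (b (c (l 15001904) (l 15032304)) (c (l 15104584) (l 15141416)))) (a (b (l 15147832) (l 15279560)) (b (l 15008832) (l 15122576)))) (c (a (c (b (a (l 15525240) (l 15427608)) (a (l 15713240) (l 15616400))) (l 15404256)) (b (c (l 15252336) (l 15275368)) (c (a (l 15502272) (b (l 15326040) (l 15449416))) (a (l 15546736) (b (l 15391176) (l 15519416)))))) (a (b (l 15441848) (l 15640336)) (b (l 15283320) (a (l 15525144) (l 15461032)))))), by decide +kernel⟩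

def k6_pm_012_a : ∃ t, chk3 f_pm_012_a t 31 7 1 = true :=
  ⟨(b (c (a (b (a (l 14823712) (c (b (l 14700872) (l 14727488)) (l 14746608))) (a (l 14948144) (c (a (l 14834816) (l 14788576)) (l 14852024)))) (b (a (c (l 14643448) (a (l 14663832) (l 14622304))) (c (b (l 14637912) (l 14683008)) (l 14630496))) (a (c (a (l 14754488) (b (l 14683784) (l 14805752))) (a (l 14774392) (l 14753944))) (c (l 14847120) (l 14817240))))) (a (b (l 14806632) (l 14858048)) (a (b (c (l 14671616) (l 14689512)) (c (a (l 14816888) (l 14779080)) (l 14827984))) (b (c (b (l 14582952) (l 14630304)) (a (l 14609752) (b (l 14557904) (l 14614384)))) (c (a (l 14772504) (l 14820552)) (a (l 14789640) (l 14808304))))))) (a (c (b (b (a (l 15056096) (c (a (l 14939944) (l 14910208)) (l 14932248))) (a (c (l 15111144) (l 15177848)) (c (a (c (l 15038712) (l 15060432)) (l 15050840)) (l 15039896)))) (a (c (b (a (l 15244728) (l 15216032)) (l 15401664)) (l 15228312)) (a (c (c (l 15289704) (l 15315320)) (l 15369656)) (c (l 15311712)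 (l 15194312))))) (b (c (a (l 15169312) (b (l 15028600) (l 15162176))) (l 15135416)) (c (a (b (l 15348128) (l 15526704)) (l 15434608)) (l 15377248)))) (c (b (a (c (a (l 14986768) (l 15025640)) (a (l 15014400) (l 15027568))) (c (l 15140208) (l 15115792))) (a (c (a (l 15327248) (l 15370152)) (a (l 15112792) (l 15380096))) (b (c (l 15397464) (l 15377744)) (a (l 15537384) (l 15625296))))) (a (c (b (l 14855640) (a (l 15427376) (l 15277232))) (b (l 15097768) (l 15469752))) (b (c (a (l 15074312) (l 15130152)) (a (l 15100112) (c (l 15119496) (l 15125784)))) (c (b (l 15310920) (a (l 15537568) (l 15599784))) (a (l 15243872) (b (c (l 15392440) (l 15401992)) (c (l 15595976) (l 15607864)))))))))), by decide +kernel⟩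

theorem s7_pm_012_a : ∃ t, chk3 f_pm_012_a t 15 7 1 = true := ex3_a k5_pm_012_a k6_pm_012_a

theorem s8_pm_012_a : ∃ t, chk3 f_pm_012_a t 15 3 1 = true := ex3_b k4_pm_012_a s7_pm_012_a

theorem s9_pm_012_a : ∃ t, chk3 f_pm_012_a t 7 3 1 = true := ex3_a k3_pm_012_a s8_pm_012_a

theorem s10_pm_012_a : ∃ t, chk3 f_pm_012_a t 7 1 1 = true := ex3_b k2_pm_012_a s9_pm_012_a

theorem s11_pm_012_a : ∃ t, chk3 f_pm_012_a t 3 1 1 = true := ex3_a k1_pm_012_a s10_pm_012_a

theorem s12_pm_012_a : ∃ t, chk3 f_pm_012_a t 1 1 1 = true := ex3_a k0_pm_012_a s11_pm_012_a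

theorem c_pm_012_a : CertNX 67108864 469762048 0 420477299 1046898278 26843546 3 false true false .pnp 0 1 2
    ndN1q0 ndN1q2a pcN1 Cut.none Ext.none :=
  certNX2 (fam := false) (s1 := true) (s2 := false) (a := 0) (b := 1) (c := 2) (cn := .pnp) (n1 := ndN1q0) (n2 := ndN1q2a) (pc := pcN1) (cut := Cut.none) (xt := Ext.none) (P1 := 67108864) (W1 := 469762048) (P2 := 0) (W2 := 420477299) (P3 := 1046898278) (W3 := 26843546) (N0 := 3)
    rfl (fun _ => rfl) s12_pm_012_a

noncomputable def f_pm_012_b : ℕ → ℕ → ℕ → ℕ → Bool := onCell 536870912 536870912 1239849684 370763052 1046898278 26843546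
    (rowNX 3 2 false true false .pnp 0 1 2 (qsf 67108864 469762048 1239849684 370763052 1) ndN1q0 ndN1q2b pcN1 Cut.none Ext.none)

def k0_pm_012_b : ∃ t, chk3 f_pm_012_b t 1 1 1 = true :=
  ⟨(b (a (a (l 2) (b (l 16777216) (l 16777216))) (a (a (a (l 16777128) (l 16713888)) (a (l 16584224) (a (l 16476360) (l 16351400)))) (a (b (a (l 16064864) (l 15608608)) (l 15671536)) (b (a (b (a (l 15307752) (b (l 15304768) (l 15148632))) (l 15248632)) (b (a (b (l 15244840) (l 14999680)) (c (l 15079464) (l 15028400))) (a (l 14885480) (b (l 14702792) (l 14630160))))) (a (l 15090496) (a (l 14906456) (l 14650136))))))) (a (l 2) (a (a (l 2) (a (l 16606040) (l 16445992))) (a (a (l 16104448) (l 15713536)) (a (b (l 15281200) (l 15315728)) (b (a (l 14953360) (l 14714968)) (l 14874896))))))), by decide +kernel⟩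

theorem c_pm_012_b : CertNX 67108864 469762048 1239849684 370763052 1046898278 26843546 3 false true false .pnp 0 1 2
    ndN1q0 ndN1q2b pcN1 Cut.none Ext.none :=
  certNX2 (fam := false) (s1 := true) (s2 := false) (a := 0) (b := 1) (c := 2) (cn := .pnp) (n1 := ndN1q0) (n2 := ndN1q2b) (pc := pcN1) (cut := Cut.none) (xt := Ext.none) (P1 := 67108864) (W1 := 469762048) (P2 := 1239849684) (W2 := 370763052) (P3 := 1046898278) (W3 := 26843546) (N0 := 3)
    rfl (fun _ => rfl) k0_pm_012_b

noncomputable def f_pm_022_a : ℕ → ℕ → ℕ → ℕ → Bool := onCell 1073741824 536870912 0 420477299 1046898278 26843546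
    (rowNX 3 2 false true false .pp 0 2 2 (qsf 67108864 469762048 0 420477299 2) ndN1q0 ndN1q2a pcN2 Cut.none Ext.none)

def k0_pm_022_a : ∃ t, chk3 f_pm_022_a t 4 2 1 = true :=
  ⟨(a (a (c (b (l 15095328) (b (l 15000984) (l 14902552))) (b (c (a (l 15060616) (c (l 15273056) (l 15259992))) (a (b (l 15110976) (l 14954472)) (l 15242408))) (c (a (l 14804896) (c (l 15027928) (a (l 14960368) (l 15071688)))) (a (c (l 14782656) (a (l 14711112) (l 14822224))) (l 14991176))))) (c (a (b (l 15321552) (c (b (l 15311240) (l 15263560)) (b (l 15299128) (a (l 15166848) (l 15327632))))) (b (c (b (l 15778888) (l 15669992)) (b (l 15724424) (l 15489280))) (c (b (l 15616416) (l 15633328)) (b (a (l 15514208) (l 15695680)) (c (l 15633928) (l 15613720)))))) (b (a (c (l 15463312) (l 15438856)) (l 15665232)) (a (c (b (l 15278936) (a (l 14918616) (l 15309480))) (l 15236384)) (l 15573496))))) (a (b (a (c (c (c (l 15970696) (l 15835800)) (l 15942120)) (l 16030856)) (c (c (a (b (l 16335048) (l 16250080)) (b (l 16310032)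 (a (l 16293000) (l 16256464)))) (a (l 16277472) (l 16341256))) (a (l 16270752) (l 16336832)))) (b (a (c (c (l 15840712) (l 15953520)) (l 15933472)) (c (c (b (c (a (l 16179688) (l 402148691799)) (l 16211136)) (a (a (l 16125904) (l 16114040)) (l 1))) (l 16170872)) (l 16162008))) (c (b (c (a (a (l 15912616) (c (l 16096576) (l 16074024))) (a (c (a (l 16113032) (l 1)) (l 16146456)) (l 1))) (a (l 15941560) (l 16149368))) (a (c (a (l 15943040) (c (a (l 16078888) (b (l 16134712) (l 1))) (l 16076280))) (l 15821008)) (l 1))) (a (l 15855880) (l 16128776))))) (b (l 1) (l 1)))), by decide +kernel⟩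

def k1_pm_022_a : ∃ t, chk3 f_pm_022_a t 4 12 1 = true :=
  ⟨(a (c (a (a (l 14726776) (c (l 14827856) (l 14950208))) (a (c (l 15309000) (a (l 15201632) (l 15383568))) (c (a (l 15610976) (b (l 15787496) (c (a (l 15778888) (b (l 15866552) (l 15872040))) (l 15849352)))) (a (c (l 15631688) (l 15611432)) (b (l 15774176) (c (l 15773728) (l 15792632))))))) (a (c (a (l 14677568) (a (l 14849256) (c (l 15009848) (l 14958016)))) (a (c (l 14654376) (a (l 14579576) (l 14695376))) (a (l 14820168) (l 14965328)))) (a (c (c (a (l 15201112) (l 15397392)) (l 15270752)) (l 15250720)) (b (l 15629376) (l 15684128))))) (a (a (a (c (a (c (b (l 15915792) (c (b (l 15940104) (l 1)) (l 15962648))) (l 569651468327)) (c (b (c (l 15964704) (l 16009296)) (l 1)) (l 15946400))) (l 15893608)) (l 1)) (l 1)) (l 1))), by decide +kernel⟩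

def k2_pm_022_a : ∃ t, chk3 f_pm_022_a t 4 13 1 = true :=
  ⟨(a (c (b (a (a (l 14694584) (c (l 15011976) (l 14988896))) (a (c (l 15407936) (a (l 15303536) (l 15425464))) (a (c (c (b (l 15682008) (a (l 15673416) (l 523480363495))) (l 15707392)) (c (l 15729416) (c (l 15718256) (l 15687112)))) (a (b (c (a (l 15809216) (l 15840704)) (l 531533496455)) (l 1)) (l 1))))) (a (a (a (l 14632184) (l 14787256)) (c (l 15097792) (l 15076744))) (a (a (c (l 15396664) (l 15398392)) (c (a (l 15544584) (b (l 15620680) (c (a (l 15630520) (l 15654128)) (l 15650592)))) (c (l 15598696) (a (l 15576656) (l 15663552))))) (a (a (c (b (c (c (l 15688440) (l 15698824)) (l 15708184)) (l 1)) (c (l 15737688) (l 15683792))) (l 1)) (l 1))))) (a (c (a (l 14496872) (c (l 14778464) (a (l 14909040) (c (l 15135696) (l 15120728))))) (a (c (a (l 14557616) (c (l 14716120) (a (l 14659824) (l 14748816)))) (a (c (l 14545528) (l 14534456)) (l 14693936))) (a (b (l 14838040) (l 14927232)) (l 15092272)))) (a (c (a (c (c (l 15365368)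 (l 15352856)) (l 15323928)) (b (l 15496456) (c (a (l 15553488) (l 15617408)) (l 15558384)))) (b (l 15356952) (l 15449872))) (b (l 15699328) (l 15738576))))) (l 1)), by decide +kernel⟩

def k3_pm_022_a : ∃ t, chk3 f_pm_022_a t 16 14 1 = true :=
  ⟨(a (c (b (b (c (l 14778384) (l 14745480)) (l 14855496)) (c (l 15071296) (l 15043768))) (c (b (l 14764032) (l 15017968)) (c (a (b (l 14631512) (l 14886632)) (c (l 14883704) (b (l 14847488) (l 14963624)))) (a (b (c (l 14620088) (a (l 14555752) (l 14663168))) (c (l 14877056) (l 14720296))) (b (l 14836688) (l 15101456)))))) (b (c (c (l 14997128) (l 15146648)) (c (c (l 15166640) (a (l 15086928) (c (l 15321648) (l 15306552)))) (a (b (l 15013312) (l 15033264)) (l 15278840)))) (a (c (b (l 15295304) (c (b (l 15411200) (l 15482696)) (l 15431072))) (c (a (l 15294528) (b (l 15327504) (l 15473800))) (c (a (l 15287560) (l 15338232)) (l 15328984)))) (c (c (c (b (a (l 15460648) (a (l 15527424) (b (l 15544152) (l 15586056)))) (a (b (l 15555184) (a (l 15595960)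 (l 1))) (b (c (l 15596992) (l 15610024)) (l 1)))) (b (l 15491416) (l 15473640))) (b (l 15486360) (l 15597592))) (c (c (l 399462547527) (a (c (l 15519912) (l 15381328)) (c (l 419326919111) (l 15569040)))) (l 15510272)))))), by decide +kernel⟩

def k4_pm_022_a : ∃ t, chk3 f_pm_022_a t 16 15 1 = true :=
  ⟨(a (b (c (b (l 15076456) (a (l 15351928) (c (a (l 15518432) (b (l 15573792) (a (l 15631616) (b (l 15651168) (l 1))))) (l 15541328)))) (c (a (l 15230272) (b (l 15360504) (l 15525536))) (c (a (l 15213088) (a (l 15308720) (c (l 15496160) (b (l 15413872) (l 15578936))))) (a (c (l 15079976) (a (l 15141720) (l 15258288))) (a (l 139616575127) (l 15477280)))))) (a (c (b (b (l 15489208) (c (a (l 15542272) (a (l 15620880) (l 15665688))) (l 15572880))) (c (c (a (b (l 15643248) (c (a (l 15715584) (l 244307564631)) (l 15730768))) (b (c (a (l 15666192) (l 15725624)) (l 15722056)) (l 1))) (l 15625416)) (l 15697216))) (c (b (l 15508376) (l 15680880)) (c (b (l 15494904) (l 15669664)) (c (a (l 15530776)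 (b (l 15543376) (l 424695912663))) (a (b (l 15426752) (c (l 15627016) (l 15560600))) (l 416105691255)))))) (a (b (c (c (c (c (a (b (l 15632000) (l 15698168)) (b (l 15667768) (l 1))) (l 265245268007)) (l 15672944)) (l 15660408)) (c (l 15643944) (c (l 15639736) (l 15549032)))) (l 1)) (l 1)))) (a (b (c (c (b (c (c (a (b (l 15520248) (l 15547464)) (b (a (l 15587352) (l 15614200)) (l 15632872))) (a (l 15550200) (l 299604942631))) (l 15576872)) (a (a (b (a (l 15629488) (l 303363184183)) (l 1)) (l 1)) (l 1))) (b (l 15564520) (l 15683080))) (c (a (l 389798950967) (c (l 15653320) (l 411273976903))) (c (c (a (b (l 15529480) (l 15663376)) (l 15450448)) (l 15415440)) (l 15595704)))) (l 1)) (l 1))), by decide +kernel⟩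

def k5_pm_022_a : ∃ t, chk3 f_pm_022_a t 17 7 1 = true :=
  ⟨(a (b (a (b (c (c (b (a (l 15427040) (b (l 15513104) (l 15536048))) (c (a (b (l 15494664) (c (l 15544464) (l 15546064))) (b (c (l 342554560103) (l 15572608)) (l 1))) (l 15548736))) (b (l 15479496) (l 15557400))) (c (c (a (b (l 15441392) (l 15536568)) (b (l 15540704) (l 15610416))) (b (l 15454464) (l 15534088))) (l 15470376))) (a (a (c (c (b (c (b (l 15574408) (l 1)) (l 15592296)) (l 1)) (l 15631728)) (c (c (l 15659104) (l 15623776)) (l 15604208))) (l 1)) (l 1))) (a (b (b (c (c (c (b (l 98278350711) (l 465498074119)) (l 15600504)) (l 15616328)) (c (c (l 15610512) (l 15576448)) (l 15562920))) (l 1)) (l 1)) (l 1))) (l 1)) (l 1)), by decide +kernel⟩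

def k6_pm_022_a : ∃ t, chk3 f_pm_022_a t 9 7 1 = true :=
  ⟨(l 1), by decide +kernel⟩

def k7_pm_022_a : ∃ t, chk3 f_pm_022_a t 5 1 1 = true :=
  ⟨(l 1), by decide +kernel⟩

def k8_pm_022_a : ∃ t, chk3 f_pm_022_a t 3 1 1 = true :=
  ⟨(l 1), by decide +kernel⟩

theorem s9_pm_022_a : ∃ t, chk3 f_pm_022_a t 16 7 1 = true := ex3_b k3_pm_022_a k4_pm_022_a

theorem s10_pm_022_a : ∃ t, chk3 f_pm_022_a t 8 7 1 = true := ex3_a s9_pm_022_a k5_pm_022_a

theorem s11_pm_022_a : ∃ t, chk3 f_pm_022_a t 4 7 1 = true := ex3_a s10_pm_022_a k6_pm_022_a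

theorem s12_pm_022_a : ∃ t, chk3 f_pm_022_a t 4 6 1 = true := ex3_b k1_pm_022_a k2_pm_022_a

theorem s13_pm_022_a : ∃ t, chk3 f_pm_022_a t 4 3 1 = true := ex3_b s12_pm_022_a s11_pm_022_a

theorem s14_pm_022_a : ∃ t, chk3 f_pm_022_a t 4 1 1 = true := ex3_b k0_pm_022_a s13_pm_022_a

theorem s15_pm_022_a : ∃ t, chk3 f_pm_022_a t 2 1 1 = true := ex3_a s14_pm_022_a k7_pm_022_a

theorem s16_pm_022_a : ∃ t, chk3 f_pm_022_a t 1 1 1 = true := ex3_a s15_pm_022_a k8_pm_022_a

theorem c_pm_022_a : CertNX 67108864 469762048 0 420477299 1046898278 26843546 3 false true false .pp 0 2 2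
    ndN1q0 ndN1q2a pcN2 Cut.none Ext.none :=
  certNX2 (fam := false) (s1 := true) (s2 := false) (a := 0) (b := 2) (c := 2) (cn := .pp) (n1 := ndN1q0) (n2 := ndN1q2a) (pc := pcN2) (cut := Cut.none) (xt := Ext.none) (P1 := 67108864) (W1 := 469762048) (P2 := 0) (W2 := 420477299) (P3 := 1046898278) (W3 := 26843546) (N0 := 3)
    rfl (fun _ => rfl) s16_pm_022_a

noncomputable def f_pm_022_b : ℕ → ℕ → ℕ → ℕ → Bool := onCell 67108864 469762048 1073741824 536870912 1046898278 26843546
    (rowNX 3 1 false true false .pp 0 2 2 (qsf 67108864 469762048 1239849684 370763052 2) ndN1q0 ndN1q2b pcN2 Cut.none Ext.none)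

def k0_pm_022_b : ∃ t, chk3 f_pm_022_b t 1 4 1 = true :=
  ⟨(a (a (a (b (b (l 1) (a (l 1) (c (c (l 326448603335) (a (l 15718768) (l 15696224))) (l 273835179143)))) (a (b (c (a (b (l 1) (l 125123257847)) (b (l 16112184) (l 16016920))) (a (l 188473980327) (l 16002312))) (a (c (l 16041824) (l 16096272)) (c (l 15908880) (l 15886744)))) (b (a (c (b (l 15924680) (l 15861168)) (l 15830384)) (b (l 15746984) (l 15713176))) (c (l 15405048) (l 15558824))))) (b (b (c (l 264170548551) (a (l 265244504791) (l 168070235447))) (c (a (l 15463768) (l 15270320)) (a (l 15488648) (l 15222624)))) (a (b (b (l 15575992) (l 15549112)) (l 15351344)) (b (b (l 15329648) (l 15313176)) (l 15131640))))) (b (a (b (c (l 14674832) (a (l 14760624) (l 14407704))) (c (a (l 14966064) (l 14691904)) (l 14760944))) (b (c (l 14449264) (l 14367712)) (c (l 14620952) (l 14546248)))) (a (b (b (c (l 14941056) (l 14872040)) (l 14782368)) (l 14755592)) (b (l 14713776) (l 14583008))))) (b (a (b (c (l 14488072) (l 14407840)) (c (l 14659184)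 (l 14585600))) (a (b (l 14518320) (l 14683656)) (l 14652728))) (b (a (b (l 14748408) (l 14757368)) (l 14845464)) (a (l 14608208) (l 14669912))))), by decide +kernel⟩

def k1_pm_022_b : ∃ t, chk3 f_pm_022_b t 1 5 1 = true :=
  ⟨(a (a (b (a (c (b (a (b (a (l 15984616) (l 15744952)) (a (l 16122112) (l 15914768))) (b (l 15453608) (l 15637424))) (a (a (b (l 16045072) (l 15717800)) (l 16076776)) (b (l 16020416) (l 16348256)))) (b (a (b (l 15768448) (l 15792288)) (b (l 15414080) (l 15605000))) (a (a (l 15664128) (l 16129040)) (l 15974632)))) (b (b (l 15123400) (l 15325352)) (b (l 15728280) (l 16089808)))) (a (c (b (a (a (l 15280112) (l 15588240)) (l 15874160)) (a (l 14943000) (l 15686432))) (b (a (l 15252088) (l 15935088)) (a (l 15067728) (l 15650728)))) (b (l 16177808) (l 16064008)))) (b (b (a (b (l 14676800) (l 14902456)) (l 14633688)) (a (l 15524224) (l 15388528))) (b (a (l 16230352) (l 16118160)) (l 16349352)))) (b (b (b (l 14534872) (l 14762512)) (l 15167760)) (b (l 16099336) (l 16568928)))),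 by decide +kernel⟩

def k2_pm_022_b : ∃ t, chk3 f_pm_022_b t 1 3 1 = true :=
  ⟨(a (b (a (a (a (a (b (l 14766504) (l 14732536)) (b (l 15178192) (l 15064304))) (b (c (l 15597096) (l 15557440)) (c (l 15492656) (l 15447648)))) (b (l 15982160) (l 15890784))) (b (a (l 16600504) (l 16620128)) (a (l 16533304) (l 2)))) (a (b (a (a (l 14699680) (l 15465952)) (l 15887280)) (a (a (l 14888424) (l 2)) (l 2))) (l 2))) (l 2)), by decide +kernel⟩

theorem s3_pm_022_b : ∃ t, chk3 f_pm_022_b t 1 2 1 = true := ex3_b k0_pm_022_b k1_pm_022_b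

theorem s4_pm_022_b : ∃ t, chk3 f_pm_022_b t 1 1 1 = true := ex3_b s3_pm_022_b k2_pm_022_b

theorem c_pm_022_b : CertNX 67108864 469762048 1239849684 370763052 1046898278 26843546 3 false true false .pp 0 2 2
    ndN1q0 ndN1q2b pcN2 Cut.none Ext.none :=
  certNX1 (fam := false) (s1 := true) (s2 := false) (a := 0) (b := 2) (c := 2) (cn := .pp) (n1 := ndN1q0) (n2 := ndN1q2b) (pc := pcN2) (cut := Cut.none) (xt := Ext.none) (P1 := 67108864) (W1 := 469762048) (P2 := 1239849684) (W2 := 370763052) (P3 := 1046898278) (W3 := 26843546) (N0 := 3)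
    rfl (fun _ => rfl) s4_pm_022_b

noncomputable def f_pm_023 : ℕ → ℕ → ℕ → ℕ → Bool := onCell 67108864 469762048 1073741824 536870912 1046898278 26843546
    (rowNX 3 1 false true false .up 0 2 3 (qsf 67108864 469762048 1610612736 469762048 2) ndN1q0 ndN1q3 pcN2 Cut.none Ext.none)

def k0_pm_023 : ∃ t, chk3 f_pm_023 t 1 1 1 = true :=
  ⟨(b (b (a (l 1) (b (a (l 1) (a (l 307118873111) (l 14652728))) (b (a (l 1) (l 14845464)) (l 195986705127)))) (a (a (l 1) (b (l 1) (b (l 1292817341767) (l 16349352)))) (b (b (b (l 14534872) (l 14762512)) (l 15167760)) (b (l 16099336) (l 16568928))))) (a (b (a (a (l 1) (b (l 1) (l 15890784))) (b (l 330745276535) (a (l 16533304) (l 16771016)))) (b (a (a (a (l 14699680) (l 15465952)) (l 15887280)) (l 16658224)) (a (a (a (l 14888424) (l 15465952)) (l 15887280)) (l 16658224)))) (b (b (l 16656968) (l 16772312)) (b (l 16766344) (l 16761416))))), by decide +kernel⟩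

theorem c_pm_023 : CertNX 67108864 469762048 1610612736 469762048 1046898278 26843546 3 false true false .up 0 2 3
    ndN1q0 ndN1q3 pcN2 Cut.none Ext.none :=
  certNX1 (fam := false) (s1 := true) (s2 := false) (a := 0) (b := 2) (c := 3) (cn := .up) (n1 := ndN1q0) (n2 := ndN1q3) (pc := pcN2) (cut := Cut.none) (xt := Ext.none) (P1 := 67108864) (W1 := 469762048) (P2 := 1610612736) (W2 := 469762048) (P3 := 1046898278) (W3 := 26843546) (N0 := 3)
    rfl (fun _ => rfl) k0_pm_023

noncomputable def f_pm_033 : ℕ → ℕ → ℕ → ℕ → Bool := onCell 67108864 469762048 1610612736 536870912 1046898278 26843546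
    (rowNX 3 1 false true false .pnn 0 3 3 (qsf 67108864 469762048 1610612736 469762048 3) ndN1q0 ndN1q3 pcN3 Cut.none Ext.none)

def k0_pm_033 : ∃ t, chk3 f_pm_033 t 1 1 1 = true :=
  ⟨(b (b (b (a (a (a (a (l 14888424) (l 15465952)) (l 15887280)) (l 16658224)) (l 16769488)) (a (a (l 4) (l 1028878809351)) (a (l 16754520) (l 2)))) (a (l 4) (a (b (l 4) (l 2)) (l 2)))) (a (b (a (l 4) (b (l 4) (l 2))) (a (b (l 4) (l 2)) (l 2))) (l 2))), by decide +kernel⟩

theorem c_pm_033 : CertNX 67108864 469762048 1610612736 469762048 1046898278 26843546 3 false true false .pnn 0 3 3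
    ndN1q0 ndN1q3 pcN3 Cut.none Ext.none :=
  certNX1 (fam := false) (s1 := true) (s2 := false) (a := 0) (b := 3) (c := 3) (cn := .pnn) (n1 := ndN1q0) (n2 := ndN1q3) (pc := pcN3) (cut := Cut.none) (xt := Ext.none) (P1 := 67108864) (W1 := 469762048) (P2 := 1610612736) (W2 := 469762048) (P3 := 1046898278) (W3 := 26843546) (N0 := 3)
    rfl (fun _ => rfl) k0_pm_033

noncomputable def f_pm_101 : ℕ → ℕ → ℕ → ℕ → Bool := onCell 0 536870912 536870912 536870912 1046898278 26843546
    (rowNX 3 2 false true false .npn 1 0 1 (qsf 536870912 536870912 536870912 536870912 0) ndN1q1 ndN1q1 pcN0 Cut.none Ext.none)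

def k0_pm_101 : ∃ t, chk3 f_pm_101 t 1 2 1 = true :=
  ⟨(l 4), by decide +kernel⟩

def k1_pm_101 : ∃ t, chk3 f_pm_101 t 1 6 1 = true :=
  ⟨(a (b (a (a (a (a (a (c (l 75933121479) (a (c (l 16748280) (b (l 4) (c (l 16719664) (l 16719272)))) (l 4))) (l 4)) (l 4)) (l 4)) (l 4)) (l 4)) (a (a (a (a (c (a (b (l 16573024) (l 16290720)) (b (c (l 16608440) (l 16597728)) (c (l 16360120) (l 16331280)))) (a (c (a (l 16382688) (b (l 16563424) (l 16262864))) (a (a (b (l 16525744) (l 16183896)) (b (l 16536360) (l 16205144))) (b (l 16550704) (l 16230728)))) (c (b (l 16587216) (l 16303408)) (l 16424624)))) (c (a (c (l 16508744) (l 16493968)) (l 16529288)) (b (l 16622856) (l 16360552)))) (c (b (a (l 16669152) (l 16686400)) (a (l 16464744) (l 16518112))) (b (l 16667752) (l 16466232)))) (a (a (c (l 16619760) (l 16609200)) (l 45331512039)) (b (l 4) (l 16591856)))) (a (a (b (l 4) (l 16582584)) (l 4)) (l 4)))) (l 4)), by decide +kernel⟩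

def k2_pm_101 : ∃ t, chk3 f_pm_101 t 2 7 1 = true :=
  ⟨(a (a (a (b (a (c (a (b (l 15774576) (l 15333336)) (c (a (l 15647408) (l 15674712)) (a (l 15518384) (l 15556696)))) (a (c (b (l 15499320) (l 14999760)) (a (c (l 15137608) (b (l 15458256) (l 14658160))) (l 15181104))) (c (b (l 15739960) (l 15128496)) (l 15302152)))) (c (a (b (l 15928456) (l 15436584)) (b (l 15987856) (l 15501736))) (b (l 15846304) (l 15250120)))) (b (a (c (a (l 15304288) (c (l 15299376) (l 14995976))) (a (c (l 14609056) (a (l 14055032) (l 14193688))) (l 14539888))) (c (a (l 14933896) (l 15152536)) (l 14787088))) (a (c (a (b (l 15291160) (l 15156280)) (b (c (l 15315352) (l 15096944)) (c (a (l 15161120) (l 15177160)) (a (l 15139016) (l 15164840))))) (a (c (a (l 15170232) (b (a (l 14761064) (l 14701464)) (c (l 15107968) (l 15096256)))) (a (a (b (l 13778376) (l 15001024)) (c (l 14888928) (l 14450904))) (c (l 14710248) (l 14398032)))) (c (b (l 14661280) (l 14833088)) (l 14470800)))) (c (b (l 15076832) (a (c (a (l 15208712)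 (l 15224320)) (l 15084568)) (l 15139464))) (b (l 14688704) (l 14472728)))))) (b (c (a (b (l 16058088) (l 15601600)) (b (l 16125360) (l 15702936))) (b (l 16019160) (l 15524064))) (b (c (a (l 15233152) (l 15336944)) (l 15116872)) (c (b (l 15159848) (a (c (l 15200872) (l 15156464)) (c (l 15212664) (l 15223456)))) (a (l 14952208) (l 15083768)))))) (a (a (b (c (l 15960360) (l 15887576)) (b (l 15342616) (c (l 15236488) (l 15136024)))) (b (l 15966928) (b (l 15378376) (l 15186632)))) (b (b (l 16235648) (l 15817104)) (b (l 15426480) (l 15157584))))) (a (b (a (b (l 16287504) (l 15889264)) (c (l 16146864) (l 16120856))) (a (b (l 15504136) (l 15169488)) (l 15298312))) (b (a (l 16141600) (l 16127984)) (a (l 15477792) (l 15561200))))), by decide +kernel⟩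

def k3_pm_101 : ∃ t, chk3 f_pm_101 t 3 7 1 = true :=
  ⟨(a (b (c (l 130692815687) (l 119955355543)) (c (a (l 15582184) (l 15582184)) (l 15435384))) (b (l 4) (c (l 104921815495) (l 101163635223)))), by decide +kernel⟩

theorem s4_pm_101 : ∃ t, chk3 f_pm_101 t 1 7 1 = true := ex3_a k2_pm_101 k3_pm_101

theorem s5_pm_101 : ∃ t, chk3 f_pm_101 t 1 3 1 = true := ex3_b k1_pm_101 s4_pm_101

theorem s6_pm_101 : ∃ t, chk3 f_pm_101 t 1 1 1 = true := ex3_b k0_pm_101 s5_pm_101

theorem c_pm_101 : CertNX 536870912 536870912 536870912 536870912 1046898278 26843546 3 false true false .npn 1 0 1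
    ndN1q1 ndN1q1 pcN0 Cut.none Ext.none :=
  certNX2 (fam := false) (s1 := true) (s2 := false) (a := 1) (b := 0) (c := 1) (cn := .npn) (n1 := ndN1q1) (n2 := ndN1q1) (pc := pcN0) (cut := Cut.none) (xt := Ext.none) (P1 := 536870912) (W1 := 536870912) (P2 := 536870912) (W2 := 536870912) (P3 := 1046898278) (W3 := 26843546) (N0 := 3)
    rfl (fun _ => rfl) s6_pm_101

noncomputable def f_pm_102_a : ℕ → ℕ → ℕ → ℕ → Bool := onCell 0 536870912 0 420477299 1046898278 26843546
    (rowNX 3 2 false true false .npp 1 0 2 (qsf 536870912 536870912 0 420477299 0) ndN1q1 ndN1q2a pcN0 Cut.none Ext.none)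

def k0_pm_102_a : ∃ t, chk3 f_pm_102_a t 2 2 1 = true :=
  ⟨(a (l 2) (a (b (l 3) (a (l 3) (b (l 3) (b (a (l 3) (b (l 3) (c (l 273433893191) (l 288466241959)))) (a (b (l 3) (c (a (l 252496092983) (l 225652482887)) (l 246590382519))) (a (c (b (l 254106613831) (l 16235776)) (l 220820510407)) (c (b (l 221894321207) (l 16212200)) (l 16188808)))))))) (a (b (l 3) (b (a (l 3) (b (l 3) (c (a (l 296519187911) (l 240147711079)) (a (l 324436387831) (l 235315800967))))) (a (b (a (c (l 244979679175) (l 239610871799)) (c (b (l 241758420631) (l 16153440)) (l 221894109911))) (c (a (l 16184120) (l 16160040)) (l 16152216))) (b (c (a (l 206324911831) (l 16110416)) (a (l 16109384) (l 16087416))) (c (a (l 16133080) (l 16112624)) (a (l 16111032) (l 16089512))))))) (a (b (l 3) (a (b (b (l 3) (c (a (l 224041575959) (l 16079544)) (l 215451550567))) (b (c (l 16106848) (l 16083432)) (c (b (l 16115656) (l 16135680)) (l 16104352)))) (b (b (c (l 311014645287) (l 326046885303)) (c (a (l 16106096) (l 16126992)) (l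 16092928))) (c (b (l 16152456) (l 16198288)) (b (l 16130544) (l 16177984)))))) (b (a (l 3) (b (l 3) (c (l 349132688919) (l 362017549527)))) (c (b (b (l 229410283511) (l 16222744)) (l 16247360)) (b (b (l 16167536) (l 16203288)) (l 16272184)))))))), by decide +kernel⟩

def k1_pm_102_a : ∃ t, chk3 f_pm_102_a t 4 6 1 = true :=
  ⟨(a (l 2) (a (l 2) (b (a (l 2) (b (l 2) (a (l 2) (b (l 3) (c (b (l 214378643479) (l 168207741607)) (l 201493701415)))))) (a (b (l 2) (a (l 2) (b (a (l 2) (c (l 880031522023) (l 782857872247))) (b (a (l 2) (c (l 16423896) (l 16416760))) (l 16366776))))) (b (a (a (b (l 2) (c (l 16569448) (l 16566776))) (b (c (l 1383079650951) (l 1316507571015)) (c (l 16524528) (l 16520000)))) (b (c (l 458587783063) (l 16474984)) (a (c (l 16499320) (l 16493680)) (b (l 16480088) (c (l 16466736) (l 16459608)))))) (b (b (a (a (l 16511336) (c (l 16494096) (l 16488128))) (c (a (l 16398848) (l 16404968)) (a (l 16412480) (l 16395296)))) (a (c (a (b (l 16508504) (l 16477680)) (l 16433920))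 (a (b (l 16503088) (l 16471000)) (l 16425480))) (l 16326816))) (l 16016224))))))), by decide +kernel⟩

def k2_pm_102_a : ∃ t, chk3 f_pm_102_a t 10 6 1 = true :=
  ⟨(a (b (a (b (l 3) (c (a (b (l 237464043351) (a (l 217062956599) (l 16449952))) (b (l 219210302007) (l 16426136))) (a (b (l 228874021959) (l 199346151351)) (b (l 209546606663) (l 16417616))))) (a (b (b (l 3) (c (l 233705732391) (l 229947611575))) (c (b (l 16386728) (l 16408400)) (b (l 16376632) (l 16398880)))) (b (c (b (l 240685020487) (l 16342552)) (l 212767642519)) (c (b (l 16367824) (b (l 16387808) (a (l 16400960) (l 16373592)))) (b (l 16356648) (b (l 16377224) (l 16330400))))))) (b (a (b (a (c (l 16461200) (l 16454048)) (a (c (l 16437216) (l 16428904)) (b (l 16427400) (c (l 16423368) (l 16414296))))) (b (c (a (a (l 16465296) (l 16443512)) (l 16328320)) (a (a (l 16458136) (l 16435368)) (l 16359872))) (a (a (c (l 16436776) (l 16428352)) (l 16375768)) (l 16296856)))) (b (c (a (b (a (l 16420296) (l 16405824)) (l 16372424))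 (l 16292176)) (a (b (l 16398584) (l 16361144)) (l 16299312))) (a (l 16246928) (l 16169552)))) (a (a (l 16169264) (l 16084272)) (a (l 16016288) (l 15969096))))) (b (a (a (b (c (b (l 214378262855) (l 16318240)) (l 197735217207)) (b (c (l 16337960) (l 16325272)) (c (b (l 16341128) (l 16311216)) (b (l 16328376) (l 16297168))))) (b (c (l 16283216) (l 16268368)) (b (c (b (l 16302600) (l 16301160)) (l 16282312)) (l 16241960)))) (b (b (c (l 16236480) (l 16219376)) (c (a (l 16260464) (l 16226680)) (a (l 16244272) (l 16208832)))) (a (b (c (l 16252960) (l 16236272)) (l 16186136)) (l 16172696)))) (a (b (a (l 16165704) (l 16121296)) (l 15957248)) (b (l 16097032) (l 16006944))))), by decide +kernel⟩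

def k3_pm_102_a : ∃ t, chk3 f_pm_102_a t 11 6 1 = true :=
  ⟨(a (b (b (a (c (a (b (l 16193136) (l 16193200)) (l 16167672)) (a (l 16172088) (l 16147000))) (a (c (l 16149504) (l 16127864)) (l 16134200))) (a (l 16146336) (l 16168128))) (a (b (l 16126280) (l 16113688)) (b (l 16209688) (l 16262328)))) (b (l 16149384) (a (l 16383616) (l 16534840)))), by decide +kernel⟩

def k4_pm_102_a : ∃ t, chk3 f_pm_102_a t 2 14 1 = true :=
  ⟨(a (a (l 2) (b (a (l 2) (b (a (a (a (l 2) (b (l 2) (c (l 16122688) (l 16211096)))) (l 16105256)) (a (l 16050728) (l 15957712))) (a (a (c (a (l 15979688) (c (l 15989016) (l 15976224))) (a (l 16127888) (l 15956640))) (l 15865992)) (a (l 15778088) (l 15710656))))) (a (a (l 2) (a (b (l 2) (b (l 2) (b (l 2) (l 16025136)))) (c (b (c (l 15959072) (l 16011448)) (b (c (a (l 15993432) (l 15828136)) (l 295377412519)) (l 15914408))) (b (l 15953368) (b (a (l 15961240) (l 15787888)) (l 15885584)))))) (a (a (c (c (b (a (l 15828576) (a (l 15685584) (l 15615872))) (a (l 15703296)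 (l 15579008))) (b (a (l 15812696) (a (l 15666952) (l 15595904))) (a (l 15684936) (l 15558256)))) (b (a (l 15788400) (a (l 15638456) (l 15565344))) (a (l 15656848) (l 15526512)))) (b (b (l 15620344) (b (l 15506144) (l 15486816))) (l 15559080))) (b (b (a (l 15560624) (l 15554296)) (l 15550400)) (l 15629032)))))) (a (a (b (a (b (l 15855160) (b (l 15699256) (a (l 15604496) (l 15608728)))) (b (a (l 15784888) (l 15768336)) (a (l 15654704) (l 15697072)))) (a (a (l 15648320) (l 15686424)) (l 15750664))) (b (a (b (b (l 15843320) (l 15818864)) (l 15833528)) (b (l 15980512) (l 16016552))) (l 15983208))) (a (a (b (l 16170808) (l 16214168)) (l 16349616)) (a (b (l 16497240) (l 16494928)) (l 16546488))))), by decide +kernel⟩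

def k5_pm_102_a : ∃ t, chk3 f_pm_102_a t 2 15 1 = true :=
  ⟨(b (a (a (l 2) (a (a (a (l 2) (c (l 16428872) (l 16485608))) (c (a (l 16225120) (l 16034552)) (a (l 16251392) (l 16009848)))) (a (a (c (a (l 15866952) (l 15704496)) (a (l 15835744) (l 15732360))) (l 15747680)) (l 15783992)))) (a (a (a (l 15827440) (l 15874968)) (l 16052424)) (a (l 16301696) (l 16463440)))) (a (a (b (l 2) (a (l 2) (a (l 2) (a (l 2) (a (l 2) (c (c (l 16659848) (l 16652512)) (l 16636784))))))) (a (a (c (a (b (b (l 2) (l 16665528)) (c (l 16593504) (l 16599024))) (b (l 16475608) (l 16364784))) (a (b (l 16509816) (l 16545824)) (b (l 16493640) (l 16428464)))) (b (c (b (l 16129136) (l 16216904)) (a (l 16300704) (l 16109944))) (a (l 16190880) (l 16083528)))) (a (a (b (c (b (l 15750856) (l 15955776)) (a (l 15968632) (l 15882488))) (a (l 15956736) (a (l 15893632) (l 15865968)))) (c (l 15888120) (l 15854736))) (c (l 15902928) (l 15869296))))) (a (a (a (c (l 15927824) (l 15894184)) (c (a (l 15948936) (l 15974848)) (a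 (l 15915472) (l 15942192)))) (c (a (l 16051176) (l 16155520)) (l 15970864))) (a (c (a (l 16262960) (l 16324640)) (a (l 16241720) (l 16311984))) (a (l 16321912) (l 16372192)))))), by decide +kernel⟩

def k6_pm_102_a : ∃ t, chk3 f_pm_102_a t 3 1 1 = true :=
  ⟨(b (a (a (b (b (a (l 3) (a (c (l 369534568471) (l 357723394679)) (c (l 254644305143) (l 16649448)))) (a (a (b (l 3) (c (l 243369184839) (l 16298144))) (c (l 235316386871) (l 226189558983))) (a (c (a (l 16573536) (l 16630792)) (l 16551872)) (c (l 16658920) (l 16654768))))) (a (b (c (a (b (l 16341960) (l 16376552)) (l 16492496)) (b (l 16343472) (l 16295360))) (a (c (l 16443112) (l 16431392)) (l 16580960))) (b (c (a (l 16608200) (l 16669312)) (a (l 16623976) (l 16665528))) (l 16668984)))) (b (c (a (b (a (l 16682048) (l 16710088)) (l 16701184)) (b (l 16751456) (l 16755632))) (a (b (a (l 16678712) (l 16707736)) (l 16698512)) (b (l 16750552) (l 16754872)))) (a (c (l 16698512) (l 16696496)) (l 16765040)))) (a (b (c (a (b (l 16777208) (l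 16777048)) (l 16777120)) (a (b (l 16777208) (l 16777040)) (l 16777112))) (l 16776040)) (b (l 16777120) (l 16776040)))) (b (a (a (b (a (a (l 16546232) (l 16640824)) (l 16690856)) (l 16538200)) (a (l 16755064) (l 16773576))) (a (l 16772600) (l 16772600))) (a (b (a (l 16613328) (b (l 16767496) (l 16647752))) (a (b (l 16523016) (l 16319928)) (a (l 16267248) (l 16393072)))) (b (a (l 16707520) (l 16707520)) (c (l 16315848) (l 16218672)))))), by decide +kernel⟩

theorem s7_pm_102_a : ∃ t, chk3 f_pm_102_a t 2 7 1 = true := ex3_b k4_pm_102_a k5_pm_102_a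

theorem s8_pm_102_a : ∃ t, chk3 f_pm_102_a t 5 6 1 = true := ex3_a k2_pm_102_a k3_pm_102_a

theorem s9_pm_102_a : ∃ t, chk3 f_pm_102_a t 2 6 1 = true := ex3_a k1_pm_102_a s8_pm_102_a

theorem s10_pm_102_a : ∃ t, chk3 f_pm_102_a t 2 3 1 = true := ex3_b s9_pm_102_a s7_pm_102_a

theorem s11_pm_102_a : ∃ t, chk3 f_pm_102_a t 2 1 1 = true := ex3_b k0_pm_102_a s10_pm_102_a

theorem s12_pm_102_a : ∃ t, chk3 f_pm_102_a t 1 1 1 = true := ex3_a s11_pm_102_a k6_pm_102_a

theorem c_pm_102_a : CertNX 536870912 536870912 0 420477299 1046898278 26843546 3 false true false .npp 1 0 2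
    ndN1q1 ndN1q2a pcN0 Cut.none Ext.none :=
  certNX2 (fam := false) (s1 := true) (s2 := false) (a := 1) (b := 0) (c := 2) (cn := .npp) (n1 := ndN1q1) (n2 := ndN1q2a) (pc := pcN0) (cut := Cut.none) (xt := Ext.none) (P1 := 536870912) (W1 := 536870912) (P2 := 0) (W2 := 420477299) (P3 := 1046898278) (W3 := 26843546) (N0 := 3)
    rfl (fun _ => rfl) s12_pm_102_a

noncomputable def f_pm_102_b : ℕ → ℕ → ℕ → ℕ → Bool := onCell 536870912 536870912 0 536870912 1046898278 26843546
    (rowNX 3 1 false true false .npp 1 0 2 (qsf 536870912 536870912 1239849684 370763052 0) ndN1q1 ndN1q2b pcN0 Cut.none Ext.none)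

def k0_pm_102_b : ∃ t, chk3 f_pm_102_b t 1 1 1 = true :=
  ⟨(a (b (l 1) (b (l 1) (a (l 1) (b (a (l 1) (b (a (l 1) (c (l 16777056) (l 16777048))) (c (l 16776944) (l 16776928)))) (a (b (a (l 1) (l 16777048)) (l 16776936)) (a (l 16777032) (c (l 16777216) (l 16777216)))))))) (a (b (l 1) (a (b (b (l 1) (b (a (l 1) (c (l 441878223479) (l 437046384359))) (c (a (l 16777080) (l 16748048)) (a (l 16777080) (l 16747024))))) (b (c (b (l 16762760) (l 16762672)) (b (l 16762248) (l 16762160))) (c (l 16741704) (l 16762160)))) (a (b (b (a (l 1) (l 3)) (c (b (l 55465245175) (l 16692392)) (b (l 16689584) (l 16689416)))) (b (c (l 16692392) (l 16689416)) (b (l 16690904) (l 16690904)))) (b (l 3) (b (c (l 598241360663) (l 313699760119)) (c (l 16565232) (l 16580232))))))) (b (l 3) (b (l 3) (b (l 3) (a (c (l 519320247111) (l 241221072791)) (l 3))))))), by decide +kernel⟩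

theorem c_pm_102_b : CertNX 536870912 536870912 1239849684 370763052 1046898278 26843546 3 false true false .npp 1 0 2
    ndN1q1 ndN1q2b pcN0 Cut.none Ext.none :=
  certNX1 (fam := false) (s1 := true) (s2 := false) (a := 1) (b := 0) (c := 2) (cn := .npp) (n1 := ndN1q1) (n2 := ndN1q2b) (pc := pcN0) (cut := Cut.none) (xt := Ext.none) (P1 := 536870912) (W1 := 536870912) (P2 := 1239849684) (W2 := 370763052) (P3 := 1046898278) (W3 := 26843546) (N0 := 3)
    rfl (fun _ => rfl) k0_pm_102_b

noncomputable def f_pm_112_a : ℕ → ℕ → ℕ → ℕ → Bool := onCell 536870912 536870912 0 420477299 1046898278 26843546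
    (rowNX 3 2 false true false .dn 1 1 2 (qsf 536870912 536870912 0 420477299 1) ndN1q1 ndN1q2a pcN1 Cut.none Ext.none)

def k0_pm_112_a : ∃ t, chk3 f_pm_112_a t 1 1 1 = true :=
  ⟨(a (b (a (b (l 16777120) (a (l 16776040) (l 16776040))) (a (a (l 16776576) (l 16776576)) (l 1))) (b (a (l 16772600) (l 16772600)) (a (b (c (l 16708728) (l 16706320)) (a (l 16393072) (l 16393072))) (l 1)))) (l 1)), by decide +kernel⟩

theorem c_pm_112_a : CertNX 536870912 536870912 0 420477299 1046898278 26843546 3 false true false .dn 1 1 2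
    ndN1q1 ndN1q2a pcN1 Cut.none Ext.none :=
  certNX2 (fam := false) (s1 := true) (s2 := false) (a := 1) (b := 1) (c := 2) (cn := .dn) (n1 := ndN1q1) (n2 := ndN1q2a) (pc := pcN1) (cut := Cut.none) (xt := Ext.none) (P1 := 536870912) (W1 := 536870912) (P2 := 0) (W2 := 420477299) (P3 := 1046898278) (W3 := 26843546) (N0 := 3)
    rfl (fun _ => rfl) k0_pm_112_a

noncomputable def f_pm_112_b : ℕ → ℕ → ℕ → ℕ → Bool := onCell 536870912 536870912 1239849684 370763052 1046898278 26843546
    (rowNX 3 2 false true false .dn 1 1 2 (qsf 536870912 536870912 1239849684 370763052 1) ndN1q1 ndN1q2b pcN1 Cut.none Ext.none)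

def k0_pm_112_b : ∃ t, chk3 f_pm_112_b t 1 1 1 = true :=
  ⟨(a (a (b (a (b (l 16777216) (c (a (l 16760960) (l 16775376)) (a (l 16760384) (l 16775312)))) (b (l 16777216) (l 16777216))) (a (b (a (b (c (l 16677272) (l 16673768)) (a (l 16262064) (l 16390456))) (b (l 16735424) (c (l 16634848) (l 16629848)))) (a (b (l 287391726423) (l 3)) (b (c (l 16205224) (l 16274184)) (l 284707136631)))) (b (a (c (l 16739952) (l 16738648)) (l 16765512)) (a (b (c (l 16577016) (l 16569992)) (l 125793967143)) (b (l 16694544) (l 16498952)))))) (a (b (l 16777216) (b (l 16776792) (a (b (l 16745360) (l 16661096)) (l 16746928)))) (b (l 16777216) (l 16773552)))) (b (a (b (l 1) (a (l 16747328) (l 239477060279))) (l 1)) (a (a (l 16751120) (a (l 16606040) (l 16445992))) (a (l 203505355047) (a (l 206188512711) (b (l 1) (l 14874896))))))), by decide +kernel⟩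

theorem c_pm_112_b : CertNX 536870912 536870912 1239849684 370763052 1046898278 26843546 3 false true false .dn 1 1 2
    ndN1q1 ndN1q2b pcN1 Cut.none Ext.none :=
  certNX2 (fam := false) (s1 := true) (s2 := false) (a := 1) (b := 1) (c := 2) (cn := .dn) (n1 := ndN1q1) (n2 := ndN1q2b) (pc := pcN1) (cut := Cut.none) (xt := Ext.none) (P1 := 536870912) (W1 := 536870912) (P2 := 1239849684) (W2 := 370763052) (P3 := 1046898278) (W3 := 26843546) (N0 := 3)
    rfl (fun _ => rfl) k0_pm_112_b

noncomputable def f_pm_113 : ℕ → ℕ → ℕ → ℕ → Bool := onCell 536870912 536870912 536870912 536870912 1046898278 26843546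
    (rowNX 3 1 false true false .nn 1 1 3 (qsf 536870912 536870912 1610612736 469762048 1) ndN1q1 ndN1q3 pcN1 Cut.none Ext.none)

def k0_pm_113 : ∃ t, chk3 f_pm_113 t 1 1 1 = true :=
  ⟨(b (a (b (l 1) (l 316787392519)) (a (a (b (l 1) (b (l 246994025095) (l 16762416))) (b (b (l 1) (b (l 1) (l 16647760))) (b (c (l 16649992) (l 16645528)) (l 16647760)))) (b (b (a (c (l 307122019143) (l 16054584)) (l 3)) (a (b (l 15939248) (l 16169936)) (l 413018568247))) (b (a (l 16086048) (l 223503136311)) (a (l 16169936) (l 15561248)))))) (b (a (b (l 141767721559) (b (l 16614240) (l 143377458631))) (a (b (b (l 16467848) (l 16431352)) (a (l 16574736) (l 16492264))) (b (a (b (l 16169904) (l 16145976)) (l 15305000)) (a (b (l 16094816) (a (l 16151640) (l 15864728))) (b (l 15521656) (b (l 15493008) (l 15427936))))))) (a (b (a (l 15927672) (l 15981464)) (a (l 15012880) (l 15219048))) (a (b (a (l 16020944) (l 15962608)) (a (l 15284784) (l 15251776))) (b (a (b (l 15744728) (l 15432168)) (b (l 15224232) (a (l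 15089320) (l 14887304)))) (a (l 14958592) (b (b (l 14843872) (a (l 14817720) (b (l 14781296) (l 14811424)))) (a (l 14707320) (a (a (l 14853952) (l 2)) (l 2)))))))))), by decide +kernel⟩

theorem c_pm_113 : CertNX 536870912 536870912 1610612736 469762048 1046898278 26843546 3 false true false .nn 1 1 3
    ndN1q1 ndN1q3 pcN1 Cut.none Ext.none :=
  certNX1 (fam := false) (s1 := true) (s2 := false) (a := 1) (b := 1) (c := 3) (cn := .nn) (n1 := ndN1q1) (n2 := ndN1q3) (pc := pcN1) (cut := Cut.none) (xt := Ext.none) (P1 := 536870912) (W1 := 536870912) (P2 := 1610612736) (W2 := 469762048) (P3 := 1046898278) (W3 := 26843546) (N0 := 3)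
    rfl (fun _ => rfl) k0_pm_113

noncomputable def f_pm_123 : ℕ → ℕ → ℕ → ℕ → Bool := onCell 1073741824 536870912 1610612736 469762048 1046898278 26843546
    (rowNX 3 2 false true false .npn 1 2 3 (qsf 536870912 536870912 1610612736 469762048 2) ndN1q1 ndN1q3 pcN2 Cut.none Ext.none)

def k0_pm_123 : ∃ t, chk3 f_pm_123 t 1 1 1 = true :=
  ⟨(b (a (a (a (b (a (l 14630952) (l 14755272)) (l 14793992)) (b (a (l 14868544) (l 14671808)) (a (l 14907640) (l 14715952)))) (a (a (a (l 14550280) (l 14771160)) (l 199209478151)) (a (l 16194952) (l 16560456)))) (l 1)) (a (a (b (a (l 14770168) (l 14808144)) (b (a (a (l 15032832) (l 14970896)) (l 14800928)) (a (a (l 15021880) (l 15007448)) (l 14800272)))) (a (a (a (b (l 14546272) (l 14505704)) (b (l 14769040) (l 14729120))) (b (l 15475136) (l 15452448))) (a (b (l 16317720) (l 16332896)) (b (l 16703216) (l 16754992))))) (a (a (b (l 16696448) (l 16742320)) (l 16763872)) (l 220150823479)))), by decide +kernel⟩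

theorem c_pm_123 : CertNX 536870912 536870912 1610612736 469762048 1046898278 26843546 3 false true false .npn 1 2 3
    ndN1q1 ndN1q3 pcN2 Cut.none Ext.none :=
  certNX2 (fam := false) (s1 := true) (s2 := false) (a := 1) (b := 2) (c := 3) (cn := .npn) (n1 := ndN1q1) (n2 := ndN1q3) (pc := pcN2) (cut := Cut.none) (xt := Ext.none) (P1 := 536870912) (W1 := 536870912) (P2 := 1610612736) (W2 := 469762048) (P3 := 1046898278) (W3 := 26843546) (N0 := 3)
    rfl (fun _ => rfl) k0_pm_123

noncomputable def f_pm_133 : ℕ → ℕ → ℕ → ℕ → Bool := onCell 536870912 536870912 1610612736 469762048 1046898278 26843546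
    (rowNX 3 0 false true false .dn 1 3 3 (qsf 536870912 536870912 1610612736 469762048 3) ndN1q1 ndN1q3 pcN3 Cut.none Ext.none)

def k0_pm_133 : ∃ t, chk3 f_pm_133 t 1 1 1 = true :=
  ⟨(l 1), by decide +kernel⟩

theorem c_pm_133 : CertNX 536870912 536870912 1610612736 469762048 1046898278 26843546 3 false true false .dn 1 3 3
    ndN1q1 ndN1q3 pcN3 Cut.none Ext.none :=
  certNX0 (fam := false) (s1 := true) (s2 := false) (a := 1) (b := 3) (c := 3) (cn := .dn) (n1 := ndN1q1) (n2 := ndN1q3) (pc := pcN3) (cut := Cut.none) (xt := Ext.none) (P1 := 536870912) (W1 := 536870912) (P2 := 1610612736) (W2 := 469762048) (P3 := 1046898278) (W3 := 26843546) (N0 := 3)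
    rfl k0_pm_133

noncomputable def f_pm_202_aa : ℕ → ℕ → ℕ → ℕ → Bool := onCell 0 420477299 0 420477299 1046898278 26843546
    (rowNX 3 0 false true false .pp 2 0 2 (qsf 0 420477299 0 420477299 0) ndN1q2a ndN1q2a pcN0 Cut.none Ext.none)

def k0_pm_202_aa : ∃ t, chk3 f_pm_202_aa t 1 1 1 = true :=
  ⟨(l 3), by decide +kernel⟩

theorem c_pm_202_aa : CertNX 0 420477299 0 420477299 1046898278 26843546 3 false true false .pp 2 0 2
    ndN1q2a ndN1q2a pcN0 Cut.none Ext.none :=
  certNX0 (fam := false) (s1 := true) (s2 := false) (a := 2) (b := 0) (c := 2) (cn := .pp) (n1 := ndN1q2a) (n2 := ndN1q2a) (pc := pcN0) (cut := Cut.none) (xt := Ext.none) (P1 := 0) (W1 := 420477299) (P2 := 0) (W2 := 420477299) (P3 := 1046898278) (W3 := 26843546) (N0 := 3)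
    rfl k0_pm_202_aa

noncomputable def f_pm_202_ab : ℕ → ℕ → ℕ → ℕ → Bool := onCell 0 420477299 1239849684 370763052 1046898278 26843546
    (rowNX 3 0 false true false .pp 2 0 2 (qsf 0 420477299 1239849684 370763052 0) ndN1q2a ndN1q2b pcN0 Cut.none Ext.none)

def k0_pm_202_ab : ∃ t, chk3 f_pm_202_ab t 1 1 1 = true :=
  ⟨(l 3), by decide +kernel⟩

theorem c_pm_202_ab : CertNX 0 420477299 1239849684 370763052 1046898278 26843546 3 false true false .pp 2 0 2
    ndN1q2a ndN1q2b pcN0 Cut.none Ext.none :=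
  certNX0 (fam := false) (s1 := true) (s2 := false) (a := 2) (b := 0) (c := 2) (cn := .pp) (n1 := ndN1q2a) (n2 := ndN1q2b) (pc := pcN0) (cut := Cut.none) (xt := Ext.none) (P1 := 0) (W1 := 420477299) (P2 := 1239849684) (W2 := 370763052) (P3 := 1046898278) (W3 := 26843546) (N0 := 3)
    rfl k0_pm_202_ab

noncomputable def f_pm_202_ba : ℕ → ℕ → ℕ → ℕ → Bool := onCell 1239849684 370763052 0 420477299 1046898278 26843546
    (rowNX 3 0 false true false .pp 2 0 2 (qsf 1239849684 370763052 0 420477299 0) ndN1q2b ndN1q2a pcN0 Cut.none Ext.none)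

def k0_pm_202_ba : ∃ t, chk3 f_pm_202_ba t 1 1 1 = true :=
  ⟨(l 3), by decide +kernel⟩

theorem c_pm_202_ba : CertNX 1239849684 370763052 0 420477299 1046898278 26843546 3 false true false .pp 2 0 2
    ndN1q2b ndN1q2a pcN0 Cut.none Ext.none :=
  certNX0 (fam := false) (s1 := true) (s2 := false) (a := 2) (b := 0) (c := 2) (cn := .pp) (n1 := ndN1q2b) (n2 := ndN1q2a) (pc := pcN0) (cut := Cut.none) (xt := Ext.none) (P1 := 1239849684) (W1 := 370763052) (P2 := 0) (W2 := 420477299) (P3 := 1046898278) (W3 := 26843546) (N0 := 3)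
    rfl k0_pm_202_ba

noncomputable def f_pm_202_bb : ℕ → ℕ → ℕ → ℕ → Bool := onCell 1239849684 370763052 1239849684 370763052 1046898278 26843546
    (rowNX 3 0 false true false .pp 2 0 2 (qsf 1239849684 370763052 1239849684 370763052 0) ndN1q2b ndN1q2b pcN0 Cut.none Ext.none)

def k0_pm_202_bb : ∃ t, chk3 f_pm_202_bb t 1 1 1 = true :=
  ⟨(l 3), by decide +kernel⟩

theorem c_pm_202_bb : CertNX 1239849684 370763052 1239849684 370763052 1046898278 26843546 3 false true false .pp 2 0 2
    ndN1q2b ndN1q2b pcN0 Cut.none Ext.none :=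
  certNX0 (fam := false) (s1 := true) (s2 := false) (a := 2) (b := 0) (c := 2) (cn := .pp) (n1 := ndN1q2b) (n2 := ndN1q2b) (pc := pcN0) (cut := Cut.none) (xt := Ext.none) (P1 := 1239849684) (W1 := 370763052) (P2 := 1239849684) (W2 := 370763052) (P3 := 1046898278) (W3 := 26843546) (N0 := 3)
    rfl k0_pm_202_bb

noncomputable def f_pm_203_a : ℕ → ℕ → ℕ → ℕ → Bool := onCell 0 420477299 1610612736 469762048 1046898278 26843546
    (rowNX 3 0 false true false .up 2 0 3 (qsf 0 420477299 1610612736 469762048 0) ndN1q2a ndN1q3 pcN0 Cut.none Ext.none)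

def k0_pm_203_a : ∃ t, chk3 f_pm_203_a t 1 1 1 = true :=
  ⟨(l 3), by decide +kernel⟩

theorem c_pm_203_a : CertNX 0 420477299 1610612736 469762048 1046898278 26843546 3 false true false .up 2 0 3
    ndN1q2a ndN1q3 pcN0 Cut.none Ext.none :=
  certNX0 (fam := false) (s1 := true) (s2 := false) (a := 2) (b := 0) (c := 3) (cn := .up) (n1 := ndN1q2a) (n2 := ndN1q3) (pc := pcN0) (cut := Cut.none) (xt := Ext.none) (P1 := 0) (W1 := 420477299) (P2 := 1610612736) (W2 := 469762048) (P3 := 1046898278) (W3 := 26843546) (N0 := 3)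
    rfl k0_pm_203_a

noncomputable def f_pm_203_b : ℕ → ℕ → ℕ → ℕ → Bool := onCell 1239849684 370763052 1610612736 469762048 1046898278 26843546
    (rowNX 3 0 false true false .up 2 0 3 (qsf 1239849684 370763052 1610612736 469762048 0) ndN1q2b ndN1q3 pcN0 Cut.none Ext.none)

def k0_pm_203_b : ∃ t, chk3 f_pm_203_b t 1 1 1 = true :=
  ⟨(l 3), by decide +kernel⟩

theorem c_pm_203_b : CertNX 1239849684 370763052 1610612736 469762048 1046898278 26843546 3 false true false .up 2 0 3
    ndN1q2b ndN1q3 pcN0 Cut.none Ext.none :=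
  certNX0 (fam := false) (s1 := true) (s2 := false) (a := 2) (b := 0) (c := 3) (cn := .up) (n1 := ndN1q2b) (n2 := ndN1q3) (pc := pcN0) (cut := Cut.none) (xt := Ext.none) (P1 := 1239849684) (W1 := 370763052) (P2 := 1610612736) (W2 := 469762048) (P3 := 1046898278) (W3 := 26843546) (N0 := 3)
    rfl k0_pm_203_b

noncomputable def f_pm_213_a : ℕ → ℕ → ℕ → ℕ → Bool := onCell 0 420477299 1610612736 469762048 1046898278 26843546
    (rowNX 3 0 false true false .pnn 2 1 3 (qsf 0 420477299 1610612736 469762048 1) ndN1q2a ndN1q3 pcN1 Cut.none Ext.none)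

def k0_pm_213_a : ∃ t, chk3 f_pm_213_a t 1 1 1 = true :=
  ⟨(l 3), by decide +kernel⟩

theorem c_pm_213_a : CertNX 0 420477299 1610612736 469762048 1046898278 26843546 3 false true false .pnn 2 1 3
    ndN1q2a ndN1q3 pcN1 Cut.none Ext.none :=
  certNX0 (fam := false) (s1 := true) (s2 := false) (a := 2) (b := 1) (c := 3) (cn := .pnn) (n1 := ndN1q2a) (n2 := ndN1q3) (pc := pcN1) (cut := Cut.none) (xt := Ext.none) (P1 := 0) (W1 := 420477299) (P2 := 1610612736) (W2 := 469762048) (P3 := 1046898278) (W3 := 26843546) (N0 := 3)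
    rfl k0_pm_213_a

noncomputable def f_pm_213_b : ℕ → ℕ → ℕ → ℕ → Bool := onCell 1239849684 370763052 1610612736 469762048 1046898278 26843546
    (rowNX 3 0 false true false .pnn 2 1 3 (qsf 1239849684 370763052 1610612736 469762048 1) ndN1q2b ndN1q3 pcN1 Cut.none Ext.none)

def k0_pm_213_b : ∃ t, chk3 f_pm_213_b t 1 1 1 = true :=
  ⟨(l 3), by decide +kernel⟩

theorem c_pm_213_b : CertNX 1239849684 370763052 1610612736 469762048 1046898278 26843546 3 false true false .pnn 2 1 3
    ndN1q2b ndN1q3 pcN1 Cut.none Ext.none :=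
  certNX0 (fam := false) (s1 := true) (s2 := false) (a := 2) (b := 1) (c := 3) (cn := .pnn) (n1 := ndN1q2b) (n2 := ndN1q3) (pc := pcN1) (cut := Cut.none) (xt := Ext.none) (P1 := 1239849684) (W1 := 370763052) (P2 := 1610612736) (W2 := 469762048) (P3 := 1046898278) (W3 := 26843546) (N0 := 3)
    rfl k0_pm_213_b

noncomputable def f_pm_303 : ℕ → ℕ → ℕ → ℕ → Bool := onCell 1610612736 469762048 1610612736 469762048 1046898278 26843546
    (rowNX 3 0 false true false .npn 3 0 3 (qsf 1610612736 469762048 1610612736 469762048 0) ndN1q3 ndN1q3 pcN0 Cut.none Ext.none)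

def k0_pm_303 : ∃ t, chk3 f_pm_303 t 1 1 1 = true :=
  ⟨(l 3), by decide +kernel⟩

theorem c_pm_303 : CertNX 1610612736 469762048 1610612736 469762048 1046898278 26843546 3 false true false .npn 3 0 3
    ndN1q3 ndN1q3 pcN0 Cut.none Ext.none :=
  certNX0 (fam := false) (s1 := true) (s2 := false) (a := 3) (b := 0) (c := 3) (cn := .npn) (n1 := ndN1q3) (n2 := ndN1q3) (pc := pcN0) (cut := Cut.none) (xt := Ext.none) (P1 := 1610612736) (W1 := 469762048) (P2 := 1610612736) (W2 := 469762048) (P3 := 1046898278) (W3 := 26843546) (N0 := 3)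
    rfl k0_pm_303

noncomputable def f_pm_313 : ℕ → ℕ → ℕ → ℕ → Bool := onCell 1610612736 469762048 1610612736 469762048 1046898278 26843546
    (rowNX 3 0 false true false .dn 3 1 3 (qsf 1610612736 469762048 1610612736 469762048 1) ndN1q3 ndN1q3 pcN1 Cut.none Ext.none)

def k0_pm_313 : ∃ t, chk3 f_pm_313 t 1 1 1 = true :=
  ⟨(l 1), by decide +kernel⟩

theorem c_pm_313 : CertNX 1610612736 469762048 1610612736 469762048 1046898278 26843546 3 false true false .dn 3 1 3
    ndN1q3 ndN1q3 pcN1 Cut.none Ext.none :=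
  certNX0 (fam := false) (s1 := true) (s2 := false) (a := 3) (b := 1) (c := 3) (cn := .dn) (n1 := ndN1q3) (n2 := ndN1q3) (pc := pcN1) (cut := Cut.none) (xt := Ext.none) (P1 := 1610612736) (W1 := 469762048) (P2 := 1610612736) (W2 := 469762048) (P3 := 1046898278) (W3 := 26843546) (N0 := 3)
    rfl k0_pm_313

noncomputable def f_mm_001 : ℕ → ℕ → ℕ → ℕ → Bool := onCell 67108864 469762048 536870912 536870912 1046898278 26843546
    (rowNX 3 0 false false false .up 0 0 1 (qsf 67108864 469762048 536870912 536870912 0) ndN1q0 ndN1q1 pcN0 Cut.none Ext.none)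

def k0_mm_001 : ∃ t, chk3 f_mm_001 t 1 1 1 = true :=
  ⟨(l 3), by decide +kernel⟩

theorem c_mm_001 : CertNX 67108864 469762048 536870912 536870912 1046898278 26843546 3 false false false .up 0 0 1
    ndN1q0 ndN1q1 pcN0 Cut.none Ext.none :=
  certNX0 (fam := false) (s1 := false) (s2 := false) (a := 0) (b := 0) (c := 1) (cn := .up) (n1 := ndN1q0) (n2 := ndN1q1) (pc := pcN0) (cut := Cut.none) (xt := Ext.none) (P1 := 67108864) (W1 := 469762048) (P2 := 536870912) (W2 := 536870912) (P3 := 1046898278) (W3 := 26843546) (N0 := 3)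
    rfl k0_mm_001

noncomputable def f_mm_011 : ℕ → ℕ → ℕ → ℕ → Bool := onCell 67108864 469762048 536870912 536870912 1046898278 26843546
    (rowNX 3 0 false false false .pnn 0 1 1 (qsf 67108864 469762048 536870912 536870912 1) ndN1q0 ndN1q1 pcN1 Cut.none Ext.none)

def k0_mm_011 : ∃ t, chk3 f_mm_011 t 1 1 1 = true :=
  ⟨(l 3), by decide +kernel⟩

theorem c_mm_011 : CertNX 67108864 469762048 536870912 536870912 1046898278 26843546 3 false false false .pnn 0 1 1
    ndN1q0 ndN1q1 pcN1 Cut.none Ext.none :=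
  certNX0 (fam := false) (s1 := false) (s2 := false) (a := 0) (b := 1) (c := 1) (cn := .pnn) (n1 := ndN1q0) (n2 := ndN1q1) (pc := pcN1) (cut := Cut.none) (xt := Ext.none) (P1 := 67108864) (W1 := 469762048) (P2 := 536870912) (W2 := 536870912) (P3 := 1046898278) (W3 := 26843546) (N0 := 3)
    rfl k0_mm_011

noncomputable def f_mm_012_a : ℕ → ℕ → ℕ → ℕ → Bool := onCell 67108864 469762048 0 420477299 1046898278 26843546
    (rowNX 3 0 false false false .pnp 0 1 2 (qsf 67108864 469762048 0 420477299 1) ndN1q0 ndN1q2a pcN1 Cut.none Ext.none)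

def k0_mm_012_a : ∃ t, chk3 f_mm_012_a t 1 1 1 = true :=
  ⟨(l 5), by decide +kernel⟩

theorem c_mm_012_a : CertNX 67108864 469762048 0 420477299 1046898278 26843546 3 false false false .pnp 0 1 2
    ndN1q0 ndN1q2a pcN1 Cut.none Ext.none :=
  certNX0 (fam := false) (s1 := false) (s2 := false) (a := 0) (b := 1) (c := 2) (cn := .pnp) (n1 := ndN1q0) (n2 := ndN1q2a) (pc := pcN1) (cut := Cut.none) (xt := Ext.none) (P1 := 67108864) (W1 := 469762048) (P2 := 0) (W2 := 420477299) (P3 := 1046898278) (W3 := 26843546) (N0 := 3)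
    rfl k0_mm_012_a

noncomputable def f_mm_012_b : ℕ → ℕ → ℕ → ℕ → Bool := onCell 67108864 469762048 1239849684 370763052 1046898278 26843546
    (rowNX 3 0 false false false .pnp 0 1 2 (qsf 67108864 469762048 1239849684 370763052 1) ndN1q0 ndN1q2b pcN1 Cut.none Ext.none)

def k0_mm_012_b : ∃ t, chk3 f_mm_012_b t 1 1 1 = true :=
  ⟨(l 5), by decide +kernel⟩

theorem c_mm_012_b : CertNX 67108864 469762048 1239849684 370763052 1046898278 26843546 3 false false false .pnp 0 1 2
    ndN1q0 ndN1q2b pcN1 Cut.none Ext.none :=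
  certNX0 (fam := false) (s1 := false) (s2 := false) (a := 0) (b := 1) (c := 2) (cn := .pnp) (n1 := ndN1q0) (n2 := ndN1q2b) (pc := pcN1) (cut := Cut.none) (xt := Ext.none) (P1 := 67108864) (W1 := 469762048) (P2 := 1239849684) (W2 := 370763052) (P3 := 1046898278) (W3 := 26843546) (N0 := 3)
    rfl k0_mm_012_b

noncomputable def f_mm_022_a : ℕ → ℕ → ℕ → ℕ → Bool := onCell 67108864 469762048 0 420477299 1046898278 26843546
    (rowNX 3 0 false false false .pp 0 2 2 (qsf 67108864 469762048 0 420477299 2) ndN1q0 ndN1q2a pcN2 Cut.none Ext.none)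

def k0_mm_022_a : ∃ t, chk3 f_mm_022_a t 1 1 1 = true :=
  ⟨(l 5), by decide +kernel⟩

theorem c_mm_022_a : CertNX 67108864 469762048 0 420477299 1046898278 26843546 3 false false false .pp 0 2 2
    ndN1q0 ndN1q2a pcN2 Cut.none Ext.none :=
  certNX0 (fam := false) (s1 := false) (s2 := false) (a := 0) (b := 2) (c := 2) (cn := .pp) (n1 := ndN1q0) (n2 := ndN1q2a) (pc := pcN2) (cut := Cut.none) (xt := Ext.none) (P1 := 67108864) (W1 := 469762048) (P2 := 0) (W2 := 420477299) (P3 := 1046898278) (W3 := 26843546) (N0 := 3)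
    rfl k0_mm_022_a

noncomputable def f_mm_022_b : ℕ → ℕ → ℕ → ℕ → Bool := onCell 67108864 469762048 1239849684 370763052 1046898278 26843546
    (rowNX 3 0 false false false .pp 0 2 2 (qsf 67108864 469762048 1239849684 370763052 2) ndN1q0 ndN1q2b pcN2 Cut.none Ext.none)

def k0_mm_022_b : ∃ t, chk3 f_mm_022_b t 1 1 1 = true :=
  ⟨(l 5), by decide +kernel⟩

theorem c_mm_022_b : CertNX 67108864 469762048 1239849684 370763052 1046898278 26843546 3 false false false .pp 0 2 2
    ndN1q0 ndN1q2b pcN2 Cut.none Ext.none :=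
  certNX0 (fam := false) (s1 := false) (s2 := false) (a := 0) (b := 2) (c := 2) (cn := .pp) (n1 := ndN1q0) (n2 := ndN1q2b) (pc := pcN2) (cut := Cut.none) (xt := Ext.none) (P1 := 67108864) (W1 := 469762048) (P2 := 1239849684) (W2 := 370763052) (P3 := 1046898278) (W3 := 26843546) (N0 := 3)
    rfl k0_mm_022_b

noncomputable def f_mm_023 : ℕ → ℕ → ℕ → ℕ → Bool := onCell 67108864 469762048 1610612736 469762048 1046898278 26843546
    (rowNX 3 0 false false false .up 0 2 3 (qsf 67108864 469762048 1610612736 469762048 2) ndN1q0 ndN1q3 pcN2 Cut.none Ext.none)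

def k0_mm_023 : ∃ t, chk3 f_mm_023 t 1 1 1 = true :=
  ⟨(l 5), by decide +kernel⟩

theorem c_mm_023 : CertNX 67108864 469762048 1610612736 469762048 1046898278 26843546 3 false false false .up 0 2 3
    ndN1q0 ndN1q3 pcN2 Cut.none Ext.none :=
  certNX0 (fam := false) (s1 := false) (s2 := false) (a := 0) (b := 2) (c := 3) (cn := .up) (n1 := ndN1q0) (n2 := ndN1q3) (pc := pcN2) (cut := Cut.none) (xt := Ext.none) (P1 := 67108864) (W1 := 469762048) (P2 := 1610612736) (W2 := 469762048) (P3 := 1046898278) (W3 := 26843546) (N0 := 3)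
    rfl k0_mm_023

noncomputable def f_mm_033 : ℕ → ℕ → ℕ → ℕ → Bool := onCell 67108864 469762048 1610612736 469762048 1046898278 26843546
    (rowNX 3 0 false false false .pnn 0 3 3 (qsf 67108864 469762048 1610612736 469762048 3) ndN1q0 ndN1q3 pcN3 Cut.none Ext.none)

def k0_mm_033 : ∃ t, chk3 f_mm_033 t 1 1 1 = true :=
  ⟨(l 5), by decide +kernel⟩

theorem c_mm_033 : CertNX 67108864 469762048 1610612736 469762048 1046898278 26843546 3 false false false .pnn 0 3 3
    ndN1q0 ndN1q3 pcN3 Cut.none Ext.none :=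
  certNX0 (fam := false) (s1 := false) (s2 := false) (a := 0) (b := 3) (c := 3) (cn := .pnn) (n1 := ndN1q0) (n2 := ndN1q3) (pc := pcN3) (cut := Cut.none) (xt := Ext.none) (P1 := 67108864) (W1 := 469762048) (P2 := 1610612736) (W2 := 469762048) (P3 := 1046898278) (W3 := 26843546) (N0 := 3)
    rfl k0_mm_033

noncomputable def f_mm_101 : ℕ → ℕ → ℕ → ℕ → Bool := onCell 536870912 536870912 536870912 536870912 1046898278 26843546
    (rowNX 3 0 false false false .npn 1 0 1 (qsf 536870912 536870912 536870912 536870912 0) ndN1q1 ndN1q1 pcN0 Cut.none Ext.none)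

def k0_mm_101 : ∃ t, chk3 f_mm_101 t 1 1 1 = true :=
  ⟨(l 3), by decide +kernel⟩

theorem c_mm_101 : CertNX 536870912 536870912 536870912 536870912 1046898278 26843546 3 false false false .npn 1 0 1
    ndN1q1 ndN1q1 pcN0 Cut.none Ext.none :=
  certNX0 (fam := false) (s1 := false) (s2 := false) (a := 1) (b := 0) (c := 1) (cn := .npn) (n1 := ndN1q1) (n2 := ndN1q1) (pc := pcN0) (cut := Cut.none) (xt := Ext.none) (P1 := 536870912) (W1 := 536870912) (P2 := 536870912) (W2 := 536870912) (P3 := 1046898278) (W3 := 26843546) (N0 := 3)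
    rfl k0_mm_101

noncomputable def f_mm_102_a : ℕ → ℕ → ℕ → ℕ → Bool := onCell 536870912 536870912 0 420477299 1046898278 26843546
    (rowNX 3 0 false false false .npp 1 0 2 (qsf 536870912 536870912 0 420477299 0) ndN1q1 ndN1q2a pcN0 Cut.none Ext.none)

def k0_mm_102_a : ∃ t, chk3 f_mm_102_a t 1 1 1 = true :=
  ⟨(l 5), by decide +kernel⟩

theorem c_mm_102_a : CertNX 536870912 536870912 0 420477299 1046898278 26843546 3 false false false .npp 1 0 2
    ndN1q1 ndN1q2a pcN0 Cut.none Ext.none :=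
  certNX0 (fam := false) (s1 := false) (s2 := false) (a := 1) (b := 0) (c := 2) (cn := .npp) (n1 := ndN1q1) (n2 := ndN1q2a) (pc := pcN0) (cut := Cut.none) (xt := Ext.none) (P1 := 536870912) (W1 := 536870912) (P2 := 0) (W2 := 420477299) (P3 := 1046898278) (W3 := 26843546) (N0 := 3)
    rfl k0_mm_102_a

noncomputable def f_mm_102_b : ℕ → ℕ → ℕ → ℕ → Bool := onCell 536870912 536870912 1239849684 370763052 1046898278 26843546
    (rowNX 3 0 false false false .npp 1 0 2 (qsf 536870912 536870912 1239849684 370763052 0) ndN1q1 ndN1q2b pcN0 Cut.none Ext.none)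

def k0_mm_102_b : ∃ t, chk3 f_mm_102_b t 1 1 1 = true :=
  ⟨(l 5), by decide +kernel⟩

theorem c_mm_102_b : CertNX 536870912 536870912 1239849684 370763052 1046898278 26843546 3 false false false .npp 1 0 2
    ndN1q1 ndN1q2b pcN0 Cut.none Ext.none :=
  certNX0 (fam := false) (s1 := false) (s2 := false) (a := 1) (b := 0) (c := 2) (cn := .npp) (n1 := ndN1q1) (n2 := ndN1q2b) (pc := pcN0) (cut := Cut.none) (xt := Ext.none) (P1 := 536870912) (W1 := 536870912) (P2 := 1239849684) (W2 := 370763052) (P3 := 1046898278) (W3 := 26843546) (N0 := 3)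
    rfl k0_mm_102_b

noncomputable def f_mm_112_a : ℕ → ℕ → ℕ → ℕ → Bool := onCell 536870912 536870912 0 420477299 1046898278 26843546
    (rowNX 3 0 false false false .dn 1 1 2 (qsf 536870912 536870912 0 420477299 1) ndN1q1 ndN1q2a pcN1 Cut.none Ext.none)

def k0_mm_112_a : ∃ t, chk3 f_mm_112_a t 1 1 1 = true :=
  ⟨(l 5), by decide +kernel⟩

theorem c_mm_112_a : CertNX 536870912 536870912 0 420477299 1046898278 26843546 3 false false false .dn 1 1 2
    ndN1q1 ndN1q2a pcN1 Cut.none Ext.none :=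
  certNX0 (fam := false) (s1 := false) (s2 := false) (a := 1) (b := 1) (c := 2) (cn := .dn) (n1 := ndN1q1) (n2 := ndN1q2a) (pc := pcN1) (cut := Cut.none) (xt := Ext.none) (P1 := 536870912) (W1 := 536870912) (P2 := 0) (W2 := 420477299) (P3 := 1046898278) (W3 := 26843546) (N0 := 3)
    rfl k0_mm_112_a

noncomputable def f_mm_112_b : ℕ → ℕ → ℕ → ℕ → Bool := onCell 536870912 536870912 1239849684 370763052 1046898278 26843546
    (rowNX 3 0 false false false .dn 1 1 2 (qsf 536870912 536870912 1239849684 370763052 1) ndN1q1 ndN1q2b pcN1 Cut.none Ext.none)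

def k0_mm_112_b : ∃ t, chk3 f_mm_112_b t 1 1 1 = true :=
  ⟨(l 5), by decide +kernel⟩

theorem c_mm_112_b : CertNX 536870912 536870912 1239849684 370763052 1046898278 26843546 3 false false false .dn 1 1 2
    ndN1q1 ndN1q2b pcN1 Cut.none Ext.none :=
  certNX0 (fam := false) (s1 := false) (s2 := false) (a := 1) (b := 1) (c := 2) (cn := .dn) (n1 := ndN1q1) (n2 := ndN1q2b) (pc := pcN1) (cut := Cut.none) (xt := Ext.none) (P1 := 536870912) (W1 := 536870912) (P2 := 1239849684) (W2 := 370763052) (P3 := 1046898278) (W3 := 26843546) (N0 := 3)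
    rfl k0_mm_112_b

noncomputable def f_mm_113 : ℕ → ℕ → ℕ → ℕ → Bool := onCell 536870912 536870912 1610612736 469762048 1046898278 26843546
    (rowNX 3 0 false false false .nn 1 1 3 (qsf 536870912 536870912 1610612736 469762048 1) ndN1q1 ndN1q3 pcN1 Cut.none Ext.none)

def k0_mm_113 : ∃ t, chk3 f_mm_113 t 1 1 1 = true :=
  ⟨(l 5), by decide +kernel⟩

theorem c_mm_113 : CertNX 536870912 536870912 1610612736 469762048 1046898278 26843546 3 false false false .nn 1 1 3
    ndN1q1 ndN1q3 pcN1 Cut.none Ext.none :=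
  certNX0 (fam := false) (s1 := false) (s2 := false) (a := 1) (b := 1) (c := 3) (cn := .nn) (n1 := ndN1q1) (n2 := ndN1q3) (pc := pcN1) (cut := Cut.none) (xt := Ext.none) (P1 := 536870912) (W1 := 536870912) (P2 := 1610612736) (W2 := 469762048) (P3 := 1046898278) (W3 := 26843546) (N0 := 3)
    rfl k0_mm_113

noncomputable def f_mm_123 : ℕ → ℕ → ℕ → ℕ → Bool := onCell 536870912 536870912 1610612736 469762048 1046898278 26843546
    (rowNX 3 0 false false false .npn 1 2 3 (qsf 536870912 536870912 1610612736 469762048 2) ndN1q1 ndN1q3 pcN2 Cut.none Ext.none)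

def k0_mm_123 : ∃ t, chk3 f_mm_123 t 1 1 1 = true :=
  ⟨(l 5), by decide +kernel⟩

theorem c_mm_123 : CertNX 536870912 536870912 1610612736 469762048 1046898278 26843546 3 false false false .npn 1 2 3
    ndN1q1 ndN1q3 pcN2 Cut.none Ext.none :=
  certNX0 (fam := false) (s1 := false) (s2 := false) (a := 1) (b := 2) (c := 3) (cn := .npn) (n1 := ndN1q1) (n2 := ndN1q3) (pc := pcN2) (cut := Cut.none) (xt := Ext.none) (P1 := 536870912) (W1 := 536870912) (P2 := 1610612736) (W2 := 469762048) (P3 := 1046898278) (W3 := 26843546) (N0 := 3)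
    rfl k0_mm_123

noncomputable def f_mm_133 : ℕ → ℕ → ℕ → ℕ → Bool := onCell 536870912 536870912 1610612736 469762048 1046898278 26843546
    (rowNX 3 0 false false false .dn 1 3 3 (qsf 536870912 536870912 1610612736 469762048 3) ndN1q1 ndN1q3 pcN3 Cut.none Ext.none)

def k0_mm_133 : ∃ t, chk3 f_mm_133 t 1 1 1 = true :=
  ⟨(l 1), by decide +kernel⟩

theorem c_mm_133 : CertNX 536870912 536870912 1610612736 469762048 1046898278 26843546 3 false false false .dn 1 3 3
    ndN1q1 ndN1q3 pcN3 Cut.none Ext.none :=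
  certNX0 (fam := false) (s1 := false) (s2 := false) (a := 1) (b := 3) (c := 3) (cn := .dn) (n1 := ndN1q1) (n2 := ndN1q3) (pc := pcN3) (cut := Cut.none) (xt := Ext.none) (P1 := 536870912) (W1 := 536870912) (P2 := 1610612736) (W2 := 469762048) (P3 := 1046898278) (W3 := 26843546) (N0 := 3)
    rfl k0_mm_133

noncomputable def f_mm_202_aa : ℕ → ℕ → ℕ → ℕ → Bool := onCell 0 420477299 0 420477299 1046898278 26843546
    (rowNX 3 0 false false false .pp 2 0 2 (qsf 0 420477299 0 420477299 0) ndN1q2a ndN1q2a pcN0 Cut.none Ext.none)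

def k0_mm_202_aa : ∃ t, chk3 f_mm_202_aa t 1 1 1 = true :=
  ⟨(l 3), by decide +kernel⟩

theorem c_mm_202_aa : CertNX 0 420477299 0 420477299 1046898278 26843546 3 false false false .pp 2 0 2
    ndN1q2a ndN1q2a pcN0 Cut.none Ext.none :=
  certNX0 (fam := false) (s1 := false) (s2 := false) (a := 2) (b := 0) (c := 2) (cn := .pp) (n1 := ndN1q2a) (n2 := ndN1q2a) (pc := pcN0) (cut := Cut.none) (xt := Ext.none) (P1 := 0) (W1 := 420477299) (P2 := 0) (W2 := 420477299) (P3 := 1046898278) (W3 := 26843546) (N0 := 3)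
    rfl k0_mm_202_aa

noncomputable def f_mm_202_ab : ℕ → ℕ → ℕ → ℕ → Bool := onCell 0 420477299 1239849684 370763052 1046898278 26843546
    (rowNX 3 0 false false false .pp 2 0 2 (qsf 0 420477299 1239849684 370763052 0) ndN1q2a ndN1q2b pcN0 Cut.none Ext.none)

def k0_mm_202_ab : ∃ t, chk3 f_mm_202_ab t 1 1 1 = true :=
  ⟨(l 3), by decide +kernel⟩

theorem c_mm_202_ab : CertNX 0 420477299 1239849684 370763052 1046898278 26843546 3 false false false .pp 2 0 2
    ndN1q2a ndN1q2b pcN0 Cut.none Ext.none :=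
  certNX0 (fam := false) (s1 := false) (s2 := false) (a := 2) (b := 0) (c := 2) (cn := .pp) (n1 := ndN1q2a) (n2 := ndN1q2b) (pc := pcN0) (cut := Cut.none) (xt := Ext.none) (P1 := 0) (W1 := 420477299) (P2 := 1239849684) (W2 := 370763052) (P3 := 1046898278) (W3 := 26843546) (N0 := 3)
    rfl k0_mm_202_ab

noncomputable def f_mm_202_ba : ℕ → ℕ → ℕ → ℕ → Bool := onCell 1239849684 370763052 0 420477299 1046898278 26843546
    (rowNX 3 0 false false false .pp 2 0 2 (qsf 1239849684 370763052 0 420477299 0) ndN1q2b ndN1q2a pcN0 Cut.none Ext.none)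

def k0_mm_202_ba : ∃ t, chk3 f_mm_202_ba t 1 1 1 = true :=
  ⟨(l 3), by decide +kernel⟩

theorem c_mm_202_ba : CertNX 1239849684 370763052 0 420477299 1046898278 26843546 3 false false false .pp 2 0 2
    ndN1q2b ndN1q2a pcN0 Cut.none Ext.none :=
  certNX0 (fam := false) (s1 := false) (s2 := false) (a := 2) (b := 0) (c := 2) (cn := .pp) (n1 := ndN1q2b) (n2 := ndN1q2a) (pc := pcN0) (cut := Cut.none) (xt := Ext.none) (P1 := 1239849684) (W1 := 370763052) (P2 := 0) (W2 := 420477299) (P3 := 1046898278) (W3 := 26843546) (N0 := 3)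
    rfl k0_mm_202_ba

noncomputable def f_mm_202_bb : ℕ → ℕ → ℕ → ℕ → Bool := onCell 1239849684 370763052 1239849684 370763052 1046898278 26843546
    (rowNX 3 0 false false false .pp 2 0 2 (qsf 1239849684 370763052 1239849684 370763052 0) ndN1q2b ndN1q2b pcN0 Cut.none Ext.none)

def k0_mm_202_bb : ∃ t, chk3 f_mm_202_bb t 1 1 1 = true :=
  ⟨(l 3), by decide +kernel⟩

theorem c_mm_202_bb : CertNX 1239849684 370763052 1239849684 370763052 1046898278 26843546 3 false false false .pp 2 0 2
    ndN1q2b ndN1q2b pcN0 Cut.none Ext.none :=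
  certNX0 (fam := false) (s1 := false) (s2 := false) (a := 2) (b := 0) (c := 2) (cn := .pp) (n1 := ndN1q2b) (n2 := ndN1q2b) (pc := pcN0) (cut := Cut.none) (xt := Ext.none) (P1 := 1239849684) (W1 := 370763052) (P2 := 1239849684) (W2 := 370763052) (P3 := 1046898278) (W3 := 26843546) (N0 := 3)
    rfl k0_mm_202_bb

noncomputable def f_mm_203_a : ℕ → ℕ → ℕ → ℕ → Bool := onCell 0 420477299 1610612736 469762048 1046898278 26843546
    (rowNX 3 0 false false false .up 2 0 3 (qsf 0 420477299 1610612736 469762048 0) ndN1q2a ndN1q3 pcN0 Cut.none Ext.none)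

def k0_mm_203_a : ∃ t, chk3 f_mm_203_a t 1 1 1 = true :=
  ⟨(l 3), by decide +kernel⟩

theorem c_mm_203_a : CertNX 0 420477299 1610612736 469762048 1046898278 26843546 3 false false false .up 2 0 3
    ndN1q2a ndN1q3 pcN0 Cut.none Ext.none :=
  certNX0 (fam := false) (s1 := false) (s2 := false) (a := 2) (b := 0) (c := 3) (cn := .up) (n1 := ndN1q2a) (n2 := ndN1q3) (pc := pcN0) (cut := Cut.none) (xt := Ext.none) (P1 := 0) (W1 := 420477299) (P2 := 1610612736) (W2 := 469762048) (P3 := 1046898278) (W3 := 26843546) (N0 := 3)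
    rfl k0_mm_203_a

noncomputable def f_mm_203_b : ℕ → ℕ → ℕ → ℕ → Bool := onCell 1239849684 370763052 1610612736 469762048 1046898278 26843546
    (rowNX 3 0 false false false .up 2 0 3 (qsf 1239849684 370763052 1610612736 469762048 0) ndN1q2b ndN1q3 pcN0 Cut.none Ext.none)

def k0_mm_203_b : ∃ t, chk3 f_mm_203_b t 1 1 1 = true :=
  ⟨(l 3), by decide +kernel⟩

theorem c_mm_203_b : CertNX 1239849684 370763052 1610612736 469762048 1046898278 26843546 3 false false false .up 2 0 3
    ndN1q2b ndN1q3 pcN0 Cut.none Ext.none :=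
  certNX0 (fam := false) (s1 := false) (s2 := false) (a := 2) (b := 0) (c := 3) (cn := .up) (n1 := ndN1q2b) (n2 := ndN1q3) (pc := pcN0) (cut := Cut.none) (xt := Ext.none) (P1 := 1239849684) (W1 := 370763052) (P2 := 1610612736) (W2 := 469762048) (P3 := 1046898278) (W3 := 26843546) (N0 := 3)
    rfl k0_mm_203_b

noncomputable def f_mm_213_a : ℕ → ℕ → ℕ → ℕ → Bool := onCell 0 420477299 1610612736 469762048 1046898278 26843546
    (rowNX 3 0 false false false .pnn 2 1 3 (qsf 0 420477299 1610612736 469762048 1) ndN1q2a ndN1q3 pcN1 Cut.none Ext.none)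

def k0_mm_213_a : ∃ t, chk3 f_mm_213_a t 1 1 1 = true :=
  ⟨(l 3), by decide +kernel⟩

theorem c_mm_213_a : CertNX 0 420477299 1610612736 469762048 1046898278 26843546 3 false false false .pnn 2 1 3
    ndN1q2a ndN1q3 pcN1 Cut.none Ext.none :=
  certNX0 (fam := false) (s1 := false) (s2 := false) (a := 2) (b := 1) (c := 3) (cn := .pnn) (n1 := ndN1q2a) (n2 := ndN1q3) (pc := pcN1) (cut := Cut.none) (xt := Ext.none) (P1 := 0) (W1 := 420477299) (P2 := 1610612736) (W2 := 469762048) (P3 := 1046898278) (W3 := 26843546) (N0 := 3)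
    rfl k0_mm_213_a

noncomputable def f_mm_213_b : ℕ → ℕ → ℕ → ℕ → Bool := onCell 1239849684 370763052 1610612736 469762048 1046898278 26843546
    (rowNX 3 0 false false false .pnn 2 1 3 (qsf 1239849684 370763052 1610612736 469762048 1) ndN1q2b ndN1q3 pcN1 Cut.none Ext.none)

def k0_mm_213_b : ∃ t, chk3 f_mm_213_b t 1 1 1 = true :=
  ⟨(l 3), by decide +kernel⟩

theorem c_mm_213_b : CertNX 1239849684 370763052 1610612736 469762048 1046898278 26843546 3 false false false .pnn 2 1 3
    ndN1q2b ndN1q3 pcN1 Cut.none Ext.none :=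
  certNX0 (fam := false) (s1 := false) (s2 := false) (a := 2) (b := 1) (c := 3) (cn := .pnn) (n1 := ndN1q2b) (n2 := ndN1q3) (pc := pcN1) (cut := Cut.none) (xt := Ext.none) (P1 := 1239849684) (W1 := 370763052) (P2 := 1610612736) (W2 := 469762048) (P3 := 1046898278) (W3 := 26843546) (N0 := 3)
    rfl k0_mm_213_b

noncomputable def f_mm_303 : ℕ → ℕ → ℕ → ℕ → Bool := onCell 1610612736 469762048 1610612736 469762048 1046898278 26843546
    (rowNX 3 0 false false false .npn 3 0 3 (qsf 1610612736 469762048 1610612736 469762048 0) ndN1q3 ndN1q3 pcN0 Cut.none Ext.none)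

def k0_mm_303 : ∃ t, chk3 f_mm_303 t 1 1 1 = true :=
  ⟨(l 3), by decide +kernel⟩

theorem c_mm_303 : CertNX 1610612736 469762048 1610612736 469762048 1046898278 26843546 3 false false false .npn 3 0 3
    ndN1q3 ndN1q3 pcN0 Cut.none Ext.none :=
  certNX0 (fam := false) (s1 := false) (s2 := false) (a := 3) (b := 0) (c := 3) (cn := .npn) (n1 := ndN1q3) (n2 := ndN1q3) (pc := pcN0) (cut := Cut.none) (xt := Ext.none) (P1 := 1610612736) (W1 := 469762048) (P2 := 1610612736) (W2 := 469762048) (P3 := 1046898278) (W3 := 26843546) (N0 := 3)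
    rfl k0_mm_303

noncomputable def f_mm_313 : ℕ → ℕ → ℕ → ℕ → Bool := onCell 1610612736 469762048 1610612736 469762048 1046898278 26843546
    (rowNX 3 0 false false false .dn 3 1 3 (qsf 1610612736 469762048 1610612736 469762048 1) ndN1q3 ndN1q3 pcN1 Cut.none Ext.none)

def k0_mm_313 : ∃ t, chk3 f_mm_313 t 1 1 1 = true :=
  ⟨(l 1), by decide +kernel⟩

theorem c_mm_313 : CertNX 1610612736 469762048 1610612736 469762048 1046898278 26843546 3 false false false .dn 3 1 3
    ndN1q3 ndN1q3 pcN1 Cut.none Ext.none :=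
  certNX0 (fam := false) (s1 := false) (s2 := false) (a := 3) (b := 1) (c := 3) (cn := .dn) (n1 := ndN1q3) (n2 := ndN1q3) (pc := pcN1) (cut := Cut.none) (xt := Ext.none) (P1 := 1610612736) (W1 := 469762048) (P2 := 1610612736) (W2 := 469762048) (P3 := 1046898278) (W3 := 26843546) (N0 := 3)
    rfl k0_mm_313

end Pool.Agent.Strip051.G.IE1.Tab.C.NB11

namespace Pool.Agent.Strip051.G.IE1.Tab.C.NB12

open Pool.Agent.Strip051.PB Pool.Agent.Strip051.PB.T
open Pool.Agent.Strip051.G.IE1.Tab

noncomputable def f_pp_001 : ℕ → ℕ → ℕ → ℕ → Bool := onCell 67108864 469762048 536870912 536870912 1046898278 26843546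
    (rowNX 3 0 false true true .up 0 0 1 (qsf 67108864 469762048 536870912 536870912 0) ndN1q0 ndN2q1 pcN0 Cut.none Ext.none)

def k0_pp_001 : ∃ t, chk3 f_pp_001 t 1 1 1 = true :=
  ⟨(l 3), by decide +kernel⟩

theorem c_pp_001 : CertNX 67108864 469762048 536870912 536870912 1046898278 26843546 3 false true true .up 0 0 1
    ndN1q0 ndN2q1 pcN0 Cut.none Ext.none :=
  certNX0 (fam := false) (s1 := true) (s2 := true) (a := 0) (b := 0) (c := 1) (cn := .up) (n1 := ndN1q0) (n2 := ndN2q1) (pc := pcN0) (cut := Cut.none) (xt := Ext.none) (P1 := 67108864) (W1 := 469762048) (P2 := 536870912) (W2 := 536870912) (P3 := 1046898278) (W3 := 26843546) (N0 := 3)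
    rfl k0_pp_001

noncomputable def f_pp_011 : ℕ → ℕ → ℕ → ℕ → Bool := onCell 67108864 469762048 536870912 536870912 1046898278 26843546
    (rowNX 3 0 false true true .pnn 0 1 1 (qsf 67108864 469762048 536870912 536870912 1) ndN1q0 ndN2q1 pcN1 Cut.none Ext.none)

def k0_pp_011 : ∃ t, chk3 f_pp_011 t 1 1 1 = true :=
  ⟨(l 3), by decide +kernel⟩

theorem c_pp_011 : CertNX 67108864 469762048 536870912 536870912 1046898278 26843546 3 false true true .pnn 0 1 1
    ndN1q0 ndN2q1 pcN1 Cut.none Ext.none :=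
  certNX0 (fam := false) (s1 := true) (s2 := true) (a := 0) (b := 1) (c := 1) (cn := .pnn) (n1 := ndN1q0) (n2 := ndN2q1) (pc := pcN1) (cut := Cut.none) (xt := Ext.none) (P1 := 67108864) (W1 := 469762048) (P2 := 536870912) (W2 := 536870912) (P3 := 1046898278) (W3 := 26843546) (N0 := 3)
    rfl k0_pp_011

end Pool.Agent.Strip051.G.IE1.Tab.C.NB12

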