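import Pool.Agent.Strip051.G.IE1.Tab

/-! # Certificates N61 (generated) -/

set_option linter.all false
set_option maxRecDepth 100000

namespace Pool.Agent.Strip051.G.IE1.Tab.C.NB12

open Pool.Agent.Strip051.PB Pool.Agent.Strip051.PB.T
open Pool.Agent.Strip051.G.IE1.Tab

noncomputable def f_pp_012_a : ℕ → ℕ → ℕ → ℕ → Bool := onCell 536870912 536870912 0 420477299 1046898278 26843546
    (rowNX 3 2 false true true .pnp 0 1 2 (qsf 67108864 469762048 0 420477299 1) ndN1q0 ndN2q2a pcN1 Cut.none Ext.none)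

def k0_pp_012_a : ∃ t, chk3 f_pp_012_a t 2 1 1 = true :=
  ⟨(l 3), by decide +kernel⟩

def k1_pp_012_a : ∃ t, chk3 f_pp_012_a t 6 1 1 = true :=
  ⟨(b (a (b (a (l 3) (b (l 129016043095) (l 275044832007))) (l 3)) (b (a (b (l 16430272) (c (l 16391912) (l 16378424))) (a (l 16421336) (b (l 16490032) (l 16395552)))) (a (b (l 174113183255) (l 3)) (a (b (l 16383464) (l 16420648)) (b (l 16420120) (a (l 16427416) (l 16473328))))))) (a (l 3) (b (a (l 3) (a (l 3) (b (l 162302056071) (l 3)))) (l 3)))), by decide +kernel⟩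

def k2_pp_012_a : ∃ t, chk3 f_pp_012_a t 14 1 1 = true :=
  ⟨(a (b (b (c (l 16419648) (l 16438008)) (b (l 16462136) (a (l 16561056) (l 16666800)))) (b (b (a (l 16545040) (a (l 16674240) (l 16561168))) (a (c (l 268602847047) (l 195051525463)) (b (a (l 16642904) (l 16619664)) (l 16637728)))) (l 3))) (b (b (a (l 16400696) (b (l 16282232) (l 16243528))) (b (a (l 16514608) (a (l 16414288) (l 16400808))) (a (a (l 16545248) (l 16490384)) (l 16478224)))) (b (b (a (b (l 16541192) (l 16578040)) (l 16526824)) (a (b (l 16626336) (l 16675584)) (b (l 16640336) (l 16679456)))) (b (c (b (a (b (l 16711528) (l 16710848)) (b (l 16664880) (l 16683632))) (a (l 16661904) (l 54391477143))) (b (b (l 16606888) (l 16627368)) (a (l 16680104) (l 16679992)))) (b (a (l 3) (c (a (l 16604424) (l 16555224)) (a (l 16641888) (l 16592672)))) (l 3)))))), by decide +kernel⟩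

def k3_pp_012_a : ∃ t, chk3 f_pp_012_a t 15 4 1 = true :=
  ⟨(a (a (b (l 16237040) (l 16314848)) (a (l 16291976) (c (b (l 16285288) (l 16351648)) (l 16308656)))) (a (c (c (c (a (a (b (l 16228416) (l 16322224)) (b (l 16325800) (l 16402824))) (l 16280208)) (a (a (l 16324400) (b (l 16217768) (l 16315040))) (b (l 16237008) (l 16423168)))) (a (l 16264432) (a (c (b (l 16228352) (l 16413304)) (l 16349808)) (c (b (l 16346176) (l 16430600)) (b (l 16259672) (l 16428304)))))) (b (l 16293296) (l 16353416))) (c (a (c (b (l 16367112) (l 16455264)) (b (l 16194736) (a (l 16445184) (l 16461584)))) (l 16274632)) (a (c (a (c (b (l 16269144) (l 16380248)) (l 16377048)) (b (l 16363112) (c (l 16459776) (a (l 16454432) (l 16463128))))) (l 16381568)) (b (l 16379768) (c (a (l 16476464) (l 16493792)) (a (c (a (l 16470536) (c (l 16479760) (l 16479176))) (l 16473416)) (b (l 16458896) (c (l 16522640) (a (l 16517608) (l 16505848))))))))))), by decide +kernel⟩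

def k4_pp_012_a : ∃ t, chk3 f_pp_012_a t 15 5 1 = true :=
  ⟨(a (a (b (l 16395856) (l 16471264)) (c (a (l 16298184) (b (l 16420352) (l 16482696))) (b (l 16401048) (l 16403856)))) (a (c (a (a (c (c (b (l 16459296) (l 16527144)) (l 16485088)) (l 16482616)) (c (b (c (l 16480320) (l 16475512)) (c (l 16551416) (l 16545544))) (l 16482672))) (c (b (l 16501600) (l 16572264)) (b (a (l 16407000) (c (l 16511984) (l 16509680))) (c (a (l 16564496) (l 16574872)) (a (l 16557600) (l 16575872)))))) (b (l 16473600) (l 16544304))) (c (a (b (c (l 16537288) (l 16537448)) (c (l 16554064) (l 16466896))) (b (l 16546920) (l 16526600))) (a (c (a (b (l 16505824) (c (l 16554904) (l 16556408))) (c (b (l 16546792) (l 16539368)) (b (l 16546360) (l 16538328)))) (l 16440536)) (c (b (l 16544904) (l 16523392)) (a (c (b (a (l 16554744) (l 16545072)) (a (l 16528104) (l 16524368))) (l 16539288)) (c (b (l 16534184) (l 16517336)) (b (a (l 16536288) (l 16529600)) (a (l 16519224) (l 16514160)))))))))), by decide +kernel⟩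

def k5_pp_012_a : ∃ t, chk3 f_pp_012_a t 30 3 1 = true :=
  ⟨(b (b (a (l 16492472) (a (l 16536032) (c (l 16553352) (l 16549584)))) (a (b (l 16621856) (l 16656216)) (a (l 16590136) (c (b (l 16603016) (l 16617616)) (l 16606576))))) (b (a (b (b (c (l 16646016) (l 16644064)) (c (l 16672752) (l 16671584))) (c (c (l 16517152) (l 16536608)) (l 16534304))) (a (b (b (l 16641208) (l 16615136)) (l 16461792)) (c (b (b (l 16533976) (l 16506816)) (c (l 16395936) (l 16517968))) (b (l 16601240) (l 16512784))))) (a (b (c (a (l 16546456) (l 16512304)) (l 16416080)) (c (a (l 187534857319) (b (l 16423072) (l 16355408))) (a (l 16373936) (l 16312448)))) (c (a (b (l 16441408) (b (l 16346944) (l 16276048))) (b (a (l 16403600) (c (l 16395008) (l 16409208))) (c (a (b (l 16309744) (l 16220000)) (b (l 16276944) (c (a (l 16260416) (l 16263560)) (l 16269056)))) (b (l 16305992) (a (l 16231656) (l 16262520)))))) (b (a (l 16430616) (l 16396144)) (a (l 16274192) (b (l 16294072) (a (l 16217464) (l 16249256))))))))),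 by decide +kernel⟩

def k6_pp_012_a : ∃ t, chk3 f_pp_012_a t 31 6 1 = true :=
  ⟨(a (c (a (c (b (a (c (l 16497312) (l 16588656)) (c (l 16584256) (l 16483808))) (a (c (a (l 16620296) (l 16605272)) (l 16622944)) (c (l 16594656) (c (l 16598112) (l 16606048))))) (b (l 16595576) (l 16616576))) (c (b (b (l 16567632) (l 16569056)) (b (l 16580968) (l 16598712))) (b (a (c (l 16508272) (l 16576792)) (c (l 16556048) (l 16557360))) (a (c (a (l 16597224) (l 16585200)) (l 16597784)) (c (l 16577592) (b (l 16571376) (l 16588640))))))) (b (a (l 16594016) (l 16568928)) (a (l 16615488) (l 16590240)))) (c (c (b (l 16539384) (l 16561112)) (a (b (l 16545608) (a (l 16572880) (l 16564312))) (l 16536056))) (a (c (c (a (b (l 16547008) (c (l 16567800) (l 16569720))) (b (l 16538512) (l 16538992))) (a (l 16559760) (b (l 16537208) (a (l 16560744) (l 16554664))))) (l 16552856)) (c (b (l 16524128) (a (l 16550184) (l 16539024))) (a (c (b (a (l 16529072) (l 16525264)) (a (l 16549712) (c (l 16544792) (l 16523080))))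 (l 16514712)) (c (l 16525888) (b (a (l 16519664) (l 16513808)) (a (l 16539904) (c (l 16533096) (l 16532760)))))))))), by decide +kernel⟩

def k7_pp_012_a : ∃ t, chk3 f_pp_012_a t 62 7 2 = true :=
  ⟨(b (a (c (b (c (a (b (c (l 16635712) (l 16641672)) (l 16521144)) (b (l 16621104) (l 16641664))) (a (l 16577768) (b (l 16544304) (l 16547248)))) (c (a (a (l 16502736) (c (l 16573064) (l 16552888))) (l 16510304)) (a (l 16535456) (a (c (l 16555184) (l 16542480)) (l 16483328))))) (b (l 16560104) (l 16537208))) (c (b (b (c (l 16617584) (l 16614520)) (l 16550576)) (c (l 16563584) (a (l 16553096) (l 16566944)))) (b (a (c (b (l 16575328) (l 16573344)) (l 16636672)) (c (l 16582696) (b (l 16606320) (l 16620368)))) (c (a (b (l 16485520) (l 16434632)) (l 16574864)) (a (l 16550144) (b (l 16531752) (l 16459024))))))) (a (c (b (a (c (c (l 16370504) (l 16393872)) (l 16423768)) (c (a (l 16424792) (l 16470328)) (a (l 16397208) (c (l 16447864) (l 16428336))))) (a (c (a (b (c (l 16350824) (l 16332648)) (l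 16323048)) (b (c (l 16386472) (l 16362360)) (l 16307440))) (b (l 16317296) (l 16322288))) (c (a (b (l 16404512) (l 16408032)) (l 16431280)) (a (b (l 16374728) (l 16377176)) (c (l 16429432) (l 16408152)))))) (b (a (l 16418696) (l 16388896)) (b (a (l 16331784) (l 16374856)) (l 16346456)))) (c (b (a (c (l 16452472) (b (l 16494184) (l 16419664))) (l 16436856)) (c (l 16479088) (a (a (l 16455144) (l 16479904)) (l 16507456)))) (b (a (c (a (b (l 16473888) (l 16429560)) (b (l 16468696) (l 16422024))) (l 16432944)) (b (c (l 16488808) (a (l 16407152) (l 16470616))) (c (l 16506072) (c (l 16481936) (l 16474904))))) (a (c (a (l 16409656) (c (l 16480896) (l 16463520))) (l 16435088)) (c (l 16474320) (c (a (l 16494504) (l 16533504)) (a (l 16480704) (l 16522824))))))))), by decide +kernel⟩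

def k8_pp_012_a : ∃ t, chk3 f_pp_012_a t 62 7 3 = true :=
  ⟨(b (b (a (l 16621200) (l 16535400)) (a (l 16532480) (l 16509280))) (b (a (l 16417352) (b (l 16372608) (a (l 16426008) (l 16482152)))) (a (b (l 16346328) (l 16335392)) (c (l 16462064) (l 16457192))))), by decide +kernel⟩

def k9_pp_012_a : ∃ t, chk3 f_pp_012_a t 63 7 2 = true :=
  ⟨(b (a (b (c (l 16599960) (b (a (l 16599328) (l 16590432)) (l 16552400))) (a (c (l 16570112) (b (l 16595848) (l 16468984))) (c (l 16596784) (l 16599208)))) (b (b (l 16572936) (l 16515696)) (a (l 16578128) (l 16592680)))) (a (c (b (a (l 16541872) (l 16599976)) (l 16521896)) (a (b (b (l 16500464) (l 16510112)) (b (l 16517496) (l 16480192))) (b (l 16602616) (l 16595680)))) (b (l 16529768) (b (l 16585536) (a (l 16678536) (l 16625792)))))), by decide +kernel⟩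

def k10_pp_012_a : ∃ t, chk3 f_pp_012_a t 63 7 3 = true :=
  ⟨(b (a (c (b (a (c (b (l 16595344) (l 16596112)) (l 16621392)) (c (l 16585984) (b (l 16521432) (l 16564272)))) (a (c (a (l 16467720) (c (l 16587456) (l 16539712))) (l 16570472)) (c (l 16519432) (a (l 16487840) (c (l 16613280) (l 16610520)))))) (b (l 16614120) (l 16546384))) (c (b (b (l 16547992) (a (l 16616520) (l 16583344))) (a (a (l 16629400) (l 16640720)) (l 16590304))) (a (b (c (a (l 16554656) (b (l 16571168) (l 16528184))) (l 16593512)) (c (a (l 16630768) (c (l 16637832) (l 16637312))) (l 16642944))) (b (c (b (l 16561176) (l 16581400)) (a (b (l 16565152) (l 16596472)) (c (l 16561400) (b (l 16556936) (l 16570536))))) (c (l 16588256) (a (l 16585384) (c (l 16570352) (l 16570160)))))))) (a (c (a (c (b (a (l 16472552) (l 16505136)) (a (c (l 16530416) (l 16540408)) (c (l 16587144) (l 16559208)))) (b (l 16540976) (l 16554744))) (c (b (l 16607128) (l 16558800)) (b (c (a (l 16573416) (l 16626568)) (l 16585536)) (c (a (l 16567256)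 (l 16641680)) (l 16537264))))) (b (l 16549344) (l 16563352))) (c (b (a (l 16580536) (l 16597384)) (a (a (l 16622928) (l 16670696)) (b (l 16610536) (l 16623296)))) (a (c (a (b (l 16651984) (l 16624864)) (c (b (l 16646160) (l 16667176)) (b (l 16645568) (l 16645600)))) (l 16629632)) (c (b (l 16595160) (b (l 16587304) (l 16621048))) (a (c (b (l 16612336) (a (l 16639944) (l 16623552))) (l 16622312)) (a (c (l 16554136) (b (l 16586064) (l 16584880))) (b (l 16526168) (b (l 16559800) (l 16551744)))))))))), by decide +kernel⟩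

theorem s11_pp_012_a : ∃ t, chk3 f_pp_012_a t 63 7 1 = true := ex3_c k9_pp_012_a k10_pp_012_a

theorem s12_pp_012_a : ∃ t, chk3 f_pp_012_a t 62 7 1 = true := ex3_c k7_pp_012_a k8_pp_012_a

theorem s13_pp_012_a : ∃ t, chk3 f_pp_012_a t 31 7 1 = true := ex3_a s12_pp_012_a s11_pp_012_a

theorem s14_pp_012_a : ∃ t, chk3 f_pp_012_a t 31 3 1 = true := ex3_b k6_pp_012_a s13_pp_012_a

theorem s15_pp_012_a : ∃ t, chk3 f_pp_012_a t 15 3 1 = true := ex3_a k5_pp_012_a s14_pp_012_a

theorem s16_pp_012_a : ∃ t, chk3 f_pp_012_a t 15 2 1 = true := ex3_b k3_pp_012_a k4_pp_012_a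

theorem s17_pp_012_a : ∃ t, chk3 f_pp_012_a t 15 1 1 = true := ex3_b s16_pp_012_a s15_pp_012_a

theorem s18_pp_012_a : ∃ t, chk3 f_pp_012_a t 7 1 1 = true := ex3_a k2_pp_012_a s17_pp_012_a

theorem s19_pp_012_a : ∃ t, chk3 f_pp_012_a t 3 1 1 = true := ex3_a k1_pp_012_a s18_pp_012_a

theorem s20_pp_012_a : ∃ t, chk3 f_pp_012_a t 1 1 1 = true := ex3_a k0_pp_012_a s19_pp_012_a

theorem c_pp_012_a : CertNX 67108864 469762048 0 420477299 1046898278 26843546 3 false true true .pnp 0 1 2
    ndN1q0 ndN2q2a pcN1 Cut.none Ext.none :=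
  certNX2 (fam := false) (s1 := true) (s2 := true) (a := 0) (b := 1) (c := 2) (cn := .pnp) (n1 := ndN1q0) (n2 := ndN2q2a) (pc := pcN1) (cut := Cut.none) (xt := Ext.none) (P1 := 67108864) (W1 := 469762048) (P2 := 0) (W2 := 420477299) (P3 := 1046898278) (W3 := 26843546) (N0 := 3)
    rfl (fun _ => rfl) s20_pp_012_a

noncomputable def f_pp_012_b : ℕ → ℕ → ℕ → ℕ → Bool := onCell 536870912 536870912 1239849684 370763052 1046898278 26843546
    (rowNX 3 2 false true true .pnp 0 1 2 (qsf 67108864 469762048 1239849684 370763052 1) ndN1q0 ndN2q2b pcN1 Cut.none Ext.none)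

def k0_pp_012_b : ∃ t, chk3 f_pp_012_b t 1 1 1 = true :=
  ⟨(b (a (l 3) (a (a (a (l 3) (b (b (l 16451320) (l 16708944)) (l 16776216))) (b (a (b (l 16504040) (l 16738448)) (b (a (l 16583520) (l 16478712)) (a (l 16745184) (l 16674712)))) (a (l 16759544) (a (l 16730744) (l 16658816))))) (a (b (a (b (a (l 16647488) (l 16482832)) (l 16253768)) (b (a (l 16317232) (l 16153408)) (a (l 16161448) (l 15989016)))) (a (l 16402504) (l 16051616))) (a (a (b (b (b (a (l 16100928) (l 16062880)) (l 15935112)) (l 15815320)) (l 15790432)) (b (a (b (b (l 16055464) (l 15820848)) (l 15694048)) (b (b (c (l 15938288) (l 16063592)) (a (l 15778376) (l 15757952))) (a (l 15635736) (l 15593832)))) (a (l 15668160) (l 15584680)))) (b (b (b (l 15991896) (a (l 15743576) (l 15752640))) (b (a (l 15522712) (l 15423976)) (l 15377584))) (l 15371208)))))) (a (l 2) (a (a (l 2) (a (l 16766464) (a (l 16740056) (l 16669328)))) (a (a (l 16305232) (b (l 16051816) (l 16055552))) (a (a (l 15791888) (a (l 15666488) (l 15580704)))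 (l 15363624)))))), by decide +kernel⟩

theorem c_pp_012_b : CertNX 67108864 469762048 1239849684 370763052 1046898278 26843546 3 false true true .pnp 0 1 2
    ndN1q0 ndN2q2b pcN1 Cut.none Ext.none :=
  certNX2 (fam := false) (s1 := true) (s2 := true) (a := 0) (b := 1) (c := 2) (cn := .pnp) (n1 := ndN1q0) (n2 := ndN2q2b) (pc := pcN1) (cut := Cut.none) (xt := Ext.none) (P1 := 67108864) (W1 := 469762048) (P2 := 1239849684) (W2 := 370763052) (P3 := 1046898278) (W3 := 26843546) (N0 := 3)
    rfl (fun _ => rfl) k0_pp_012_b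

noncomputable def f_pp_022_a : ℕ → ℕ → ℕ → ℕ → Bool := onCell 1073741824 536870912 0 420477299 1046898278 26843546
    (rowNX 3 2 false true true .pp 0 2 2 (qsf 67108864 469762048 0 420477299 2) ndN1q0 ndN2q2a pcN2 Cut.none Ext.none)

def k0_pp_022_a : ∃ t, chk3 f_pp_022_a t 2 2 1 = true :=
  ⟨(a (a (a (b (b (l 16347344) (l 16251352)) (b (l 16169880) (l 16113864))) (b (a (l 16318496) (c (b (l 16343848) (l 16226304)) (b (l 16334600) (l 16234152)))) (b (c (a (l 16215360) (l 16132120)) (a (l 16199968) (l 16114432))) (b (c (a (l 16163984) (l 16032920)) (l 15971632)) (c (a (a (l 16141320) (c (l 16084576) (l 16074504))) (b (l 15975384) (c (a (l 15981320) (l 15898112)) (l 15927152)))) (a (a (l 16122568) (l 16058744)) (b (l 15951632) (l 15761016)))))))) (b (a (a (c (l 16033216) (l 16100016)) (c (a (l 15971592) (b (l 15942592) (a (l 15875864) (a (l 15677344) (l 1))))) (b (l 15955848) (l 15879000)))) (l 1)) (a (a (b (c (l 15952944) (l 15929504)) (b (c (a (l 15902560) (c (l 15832312) (l 15814640)))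 (l 15829376)) (c (a (b (l 15847728) (a (l 15827832) (l 15786008))) (a (b (l 15788024) (b (l 15769304) (a (l 15714896) (l 1)))) (c (b (l 15770968) (l 1)) (l 15765520)))) (b (l 15787336) (a (l 15776640) (l 267393020503)))))) (b (c (c (a (a (l 15852752) (b (l 15838800) (l 15822616))) (a (b (l 15839608) (l 1)) (l 1))) (l 15831472)) (l 15811192)) (b (a (a (b (c (l 15793968) (l 15761664)) (l 1)) (l 1)) (l 1)) (l 1)))) (l 1)))) (l 1)), by decide +kernel⟩

def k1_pp_022_a : ∃ t, chk3 f_pp_022_a t 8 12 1 = true :=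
  ⟨(a (c (a (a (c (l 16087336) (b (l 16064560) (l 16088992))) (c (a (l 16076728) (l 16105080)) (a (l 16087328) (l 16095408)))) (c (a (b (l 16114344) (l 16112688)) (b (l 16123040) (l 16070240))) (a (b (l 16104824) (l 16105296)) (b (l 16114296) (l 16063656))))) (a (a (c (a (l 16061168) (l 16068968)) (c (l 15952384) (l 16030952))) (c (l 16082136) (l 16072592))) (c (a (b (l 16095360) (l 16098624)) (b (l 16105048) (l 16055616))) (b (l 16088512) (l 16061048))))) (c (a (c (b (l 15993920) (l 15936504)) (a (b (l 16068328) (l 15974768)) (c (l 15933544) (l 15927440)))) (a (c (c (l 15853064) (l 15826152)) (l 15837056)) (b (c (l 15712808) (l 15803136)) (c (c (a (l 15729232) (b (l 15714112) (c (a (l 15681152) (l 15692408)) (l 15672240)))) (l 15707520)) (l 15694912))))) (a (a (b (l 16052680) (l 15957544)) (l 15722696)) (a (b (l 15873232) (l 15756584)) (b (l 15780528) (c (l 15677920) (l 15660696))))))), by decide +kernel⟩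

def k2_pp_022_a : ∃ t, chk3 f_pp_022_a t 8 13 1 = true :=
  ⟨(a (c (a (a (c (b (l 16130624) (l 16119464)) (b (l 16120352) (a (l 16162000) (l 16145816)))) (c (b (a (l 16128408) (l 16120944)) (a (c (l 16125128) (l 16120440)) (l 16075400))) (b (a (l 16119432) (l 16113328)) (a (l 16114408) (l 16068200))))) (a (c (b (a (l 16096856) (l 16055600)) (l 15928224)) (b (l 16068312) (l 15986176))) (c (b (l 15980840) (l 15880672)) (l 15925760)))) (a (a (c (a (l 16130824) (b (l 16110368) (l 16137568))) (a (c (l 16123608) (l 16119840)) (b (l 16102904) (l 16132080)))) (c (b (l 16108776) (l 16063632)) (b (l 16102600) (l 16080016)))) (c (a (b (l 16063856) (l 15983296)) (l 15813752)) (b (l 16004896) (l 15916040))))) (b (c (a (c (l 15787840) (a (l 15873728) (l 15767920))) (c (b (a (c (l 15711120) (l 15702696)) (c (a (c (b (l 15668456) (l 15666200)) (l 15655800)) (l 1)) (l 15649288))) (a (c (a (l 15675776) (c (b (l 15654640) (l 15652464)) (l 15643520))) (l 15656800)) (l 1))) (a (l 15650616) (l 15627320))))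 (a (c (l 15807640) (l 15792216)) (a (a (l 15660352) (l 15620784)) (l 243233541671)))) (a (c (a (c (l 15771192) (l 15765544)) (c (b (a (l 15717824) (l 15666328)) (c (a (l 15664960) (c (b (a (l 15639208) (l 15634728)) (l 324838041239)) (l 15631800))) (l 15647288))) (a (l 15638288) (b (l 15653672) (l 15617256))))) (a (l 15744848) (a (l 15654632) (l 15611928)))) (a (a (b (c (c (c (c (b (l 15624232) (l 15645088)) (l 15635288)) (l 15629952)) (l 15617904)) (l 15589648)) (l 1)) (l 1)) (l 1))))), by decide +kernel⟩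

def k3_pp_022_a : ∃ t, chk3 f_pp_022_a t 16 14 1 = true :=
  ⟨(c (a (a (b (c (b (a (l 16190864) (l 16138320)) (l 16162704)) (b (a (l 16181552) (l 16128336)) (l 16153056))) (c (l 16178992) (c (l 16171840) (l 16167264)))) (c (b (b (a (l 16032056) (l 16011536)) (a (l 16060712) (l 15994864))) (a (c (l 16070520) (l 16065640)) (l 15997120))) (b (b (c (l 16036328) (l 16033664)) (c (l 16021472) (l 16019128))) (a (l 16060056) (l 15991248))))) (b (c (b (a (c (l 15921984) (l 15918536)) (l 15802128)) (a (l 15899296) (l 15775344))) (b (a (l 15916200) (l 15800136)) (l 15688992))) (a (c (a (l 15927848) (b (l 15861656) (c (l 15841448) (l 15859240)))) (a (l 15924792) (l 15856896))) (c (c (b (a (l 15796888) (c (b (l 15742320) (a (l 15756984) (l 15731336))) (l 15747432))) (a (c (b (a (l 15809464) (b (l 15760360) (l 15793608))) (a (a (l 15826664) (l 15824392)) (l 1))) (l 15813120)) (b (c (a (l 15791384) (l 1)) (l 15782384)) (l 1)))) (b (l 15776144) (a (l 15812952) (l 15796208)))) (b (l 15777352) (l 15787360))))))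 (a (a (c (b (b (a (l 16172144) (l 16120200)) (a (l 16177856) (l 16110576))) (a (l 16197656) (l 16124896))) (b (a (b (c (l 16165736) (l 16163048)) (l 16170712)) (b (l 16115560) (l 16106576))) (c (l 16074520) (l 16052192)))) (c (b (b (l 16031280) (l 16017456)) (l 16025216)) (b (b (l 16027336) (l 16014384)) (l 16024024)))) (b (c (b (a (l 15914488) (l 15793768)) (a (l 15895496) (l 15769272))) (b (l 15842552) (l 15820840))) (a (c (b (l 15894656) (a (l 15930160) (l 15865056))) (b (l 15886400) (l 15886624))) (c (b (a (l 15796856) (l 15743008)) (a (l 15816152) (l 15793520))) (b (l 15758424) (l 15792120))))))), by decide +kernel⟩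

def k4_pp_022_a : ∃ t, chk3 f_pp_022_a t 16 30 1 = true :=
  ⟨(a (c (a (c (l 16106184) (a (l 16243360) (l 16160656))) (c (b (a (l 16081912) (l 16005224)) (a (c (l 16097240) (l 16092544)) (c (c (b (l 15997584) (a (a (l 16052680) (l 16040704)) (b (l 16019528) (l 1)))) (l 16028504)) (l 16026600)))) (a (b (l 16074480) (l 16088160)) (b (l 16000632) (c (l 16024328) (l 16023848)))))) (a (c (a (l 16234984) (c (l 16154912) (l 16153320))) (a (c (l 16229864) (l 16229152)) (l 16154336))) (c (b (l 16039272) (a (l 16088056) (l 16029928))) (b (l 16040168) (a (l 16092808) (l 16032392)))))) (a (c (a (c (c (b (a (l 15952616) (b (l 15913152) (b (l 15918464) (l 15890328)))) (a (b (b (l 15964528) (l 153040056247)) (l 1)) (l 1))) (b (l 15935144) (l 15985400))) (b (l 15935664) (l 15987496))) (c (b (c (c (b (a (l 15885384) (b (l 15858208) (l 1))) (a (l 15924248) (l 1))) (b (l 15872832) (l 15910688))) (l 15890008)) (l 1)) (l 179883365911))) (c (b (a (l 15942248) (l 15900264)) (l 243234275735)) (b (l 15919016)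 (l 15985920)))) (l 1))), by decide +kernel⟩

def k5_pp_022_a : ∃ t, chk3 f_pp_022_a t 16 31 1 = true :=
  ⟨(b (a (a (a (c (c (l 16287816) (l 16280088)) (c (l 16272320) (c (l 16267856) (l 16267992)))) (a (c (l 16196296) (c (l 16205832) (l 16207112))) (c (c (b (l 16172120) (c (c (l 16174624) (l 16190096)) (l 16186552))) (l 16172824)) (c (l 16169624) (l 16172584))))) (a (c (a (c (b (l 16130736) (a (b (l 16153608) (l 1)) (l 1))) (l 16077568)) (c (c (b (c (b (l 16093344) (l 16116328)) (l 16098720)) (l 1)) (l 16119784)) (l 16117544))) (c (b (l 16111672) (l 16150032)) (l 16056536))) (l 1))) (l 1)) (a (a (a (c (c (c (b (l 16313928) (c (a (b (l 16347872) (l 16366232)) (b (l 16317736) (l 1))) (l 16342296))) (l 16327560)) (l 16259328)) (c (b (l 16296048) (l 16327720)) (c (a (l 16325544) (l 16290640)) (a (l 16324216) (l 16292960))))) (b (c (c (c (c (a (b (l 16247224) (l 16272240)) (l 16209488)) (l 16245544)) (l 16240944)) (l 16193048)) (c (a (l 16238648) (l 16220984)) (l 308196180695))) (l 1)))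 (l 1)) (l 1))), by decide +kernel⟩

def k6_pp_022_a : ∃ t, chk3 f_pp_022_a t 17 7 1 = true :=
  ⟨(a (b (a (b (c (c (b (b (l 15699696) (a (l 15700776) (a (l 15656664) (a (l 15638120) (b (l 15609200) (l 1)))))) (c (a (a (l 15702992) (b (l 15675008) (a (l 15684200) (l 15640336)))) (b (a (c (l 15638656) (l 15654096)) (l 1)) (l 1))) (l 15681328))) (b (c (l 15686376) (l 15682944)) (a (l 15690624) (l 15660032)))) (b (c (l 15671392) (l 15653368)) (a (l 15670504) (l 15636296)))) (a (a (c (c (b (a (b (b (l 15683752) (l 1)) (l 1)) (l 1)) (l 1)) (l 15758072)) (l 15741856)) (l 1)) (l 1))) (a (b (b (c (c (c (b (c (a (l 15638008) (l 15637368)) (l 15630320)) (c (b (l 15645168) (l 1)) (l 15633552))) (l 15628256)) (l 263634737111)) (l 15594968)) (l 1)) (l 1)) (l 1))) (l 1)) (l 1)), by decide +kernel⟩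

def k7_pp_022_a : ∃ t, chk3 f_pp_022_a t 9 3 1 = true :=
  ⟨(b (b (a (a (a (c (c (b (c (a (l 15678280) (b (l 15755424) (l 189009795319))) (l 15742856)) (a (c (b (a (l 15696536) (l 1)) (l 1)) (l 15674056)) (l 1))) (b (l 15730952) (l 15658080))) (b (c (l 15714912) (l 15698664)) (l 220148140711))) (l 1)) (l 1)) (l 1)) (l 1)) (l 1)), by decide +kernel⟩

def k8_pp_022_a : ∃ t, chk3 f_pp_022_a t 5 3 1 = true :=
  ⟨(l 1), by decide +kernel⟩

def k9_pp_022_a : ∃ t, chk3 f_pp_022_a t 3 1 1 = true :=
  ⟨(l 1), by decide +kernel⟩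

theorem s10_pp_022_a : ∃ t, chk3 f_pp_022_a t 16 15 1 = true := ex3_b k4_pp_022_a k5_pp_022_a

theorem s11_pp_022_a : ∃ t, chk3 f_pp_022_a t 16 7 1 = true := ex3_b k3_pp_022_a s10_pp_022_a

theorem s12_pp_022_a : ∃ t, chk3 f_pp_022_a t 8 7 1 = true := ex3_a s11_pp_022_a k6_pp_022_a

theorem s13_pp_022_a : ∃ t, chk3 f_pp_022_a t 8 6 1 = true := ex3_b k1_pp_022_a k2_pp_022_a

theorem s14_pp_022_a : ∃ t, chk3 f_pp_022_a t 8 3 1 = true := ex3_b s13_pp_022_a s12_pp_022_a

theorem s15_pp_022_a : ∃ t, chk3 f_pp_022_a t 4 3 1 = true := ex3_a s14_pp_022_a k7_pp_022_a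

theorem s16_pp_022_a : ∃ t, chk3 f_pp_022_a t 2 3 1 = true := ex3_a s15_pp_022_a k8_pp_022_a

theorem s17_pp_022_a : ∃ t, chk3 f_pp_022_a t 2 1 1 = true := ex3_b k0_pp_022_a s16_pp_022_a

theorem s18_pp_022_a : ∃ t, chk3 f_pp_022_a t 1 1 1 = true := ex3_a s17_pp_022_a k9_pp_022_a

theorem c_pp_022_a : CertNX 67108864 469762048 0 420477299 1046898278 26843546 3 false true true .pp 0 2 2
    ndN1q0 ndN2q2a pcN2 Cut.none Ext.none :=
  certNX2 (fam := false) (s1 := true) (s2 := true) (a := 0) (b := 2) (c := 2) (cn := .pp) (n1 := ndN1q0) (n2 := ndN2q2a) (pc := pcN2) (cut := Cut.none) (xt := Ext.none) (P1 := 67108864) (W1 := 469762048) (P2 := 0) (W2 := 420477299) (P3 := 1046898278) (W3 := 26843546) (N0 := 3)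
    rfl (fun _ => rfl) s18_pp_022_a

noncomputable def f_pp_022_b : ℕ → ℕ → ℕ → ℕ → Bool := onCell 67108864 469762048 1073741824 536870912 1046898278 26843546
    (rowNX 3 1 false true true .pp 0 2 2 (qsf 67108864 469762048 1239849684 370763052 2) ndN1q0 ndN2q2b pcN2 Cut.none Ext.none)

def k0_pp_022_b : ∃ t, chk3 f_pp_022_b t 1 4 1 = true :=
  ⟨(a (a (a (b (a (l 1) (b (l 1) (a (c (b (l 1) (l 16157752)) (l 308732898231)) (l 297458890823)))) (a (b (b (a (l 1) (c (l 1287985621655) (l 16131168))) (a (c (l 15840056) (l 15921704)) (c (l 16312856) (l 16348440)))) (a (c (b (l 16116592) (l 16253032)) (l 16081544)) (c (l 15930640) (l 15957168)))) (a (b (c (b (l 16440232) (l 16191480)) (l 16085704)) (c (l 15734088) (l 15748176))) (b (l 15990512) (l 15578032))))) (b (b (a (b (l 226055010455) (l 233571184407)) (b (l 186863611319) (l 16214816))) (a (b (l 16407144) (l 16207312)) (b (l 16060816) (l 15828208)))) (b (a (l 15593704) (l 15551024)) (a (l 15407336) (l 15190664))))) (b (a (b (a (b (l 16097680)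 (l 15852136)) (a (l 15657328) (l 15498888))) (a (l 15564320) (l 15268520))) (l 15317528)) (a (b (a (l 15263088) (l 15007808)) (l 14818864)) (l 14785072)))) (b (a (b (l 15444776) (l 15170512)) (l 15287232)) (a (l 14786240) (l 14787376)))), by decide +kernel⟩

def k1_pp_022_b : ∃ t, chk3 f_pp_022_b t 1 5 1 = true :=
  ⟨(a (b (a (a (b (a (b (a (c (l 15969920) (l 15955336)) (c (l 15676744) (l 15647032))) (a (c (l 16013928) (l 16024216)) (l 15607544))) (b (c (l 15362976) (l 15320200)) (a (l 15327280) (l 15453760)))) (a (a (b (l 15844008) (l 15628376)) (c (l 16054664) (l 16085872))) (c (b (l 15984480) (l 16312344)) (l 15939104)))) (b (b (l 15037008) (l 15226152)) (b (l 15698376) (l 16147248)))) (b (b (a (l 14596968) (l 14438752)) (a (l 14809424) (l 14661008))) (a (l 15354232) (l 15407704)))) (a (a (b (a (a (l 14873816) (l 15168576)) (a (c (l 15735640) (l 15702752)) (l 15883880))) (a (a (l 14728256) (l 15060216)) (c (l 15488976) (l 15443760)))) (b (a (l 16048720) (l 16297136)) (l 15887680)))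 (b (a (l 16230112) (l 16322208)) (a (l 16531192) (l 16776576))))) (b (b (b (l 14447680) (l 14670456)) (l 15184064)) (b (l 16262056) (l 16776584)))), by decide +kernel⟩

def k2_pp_022_b : ∃ t, chk3 f_pp_022_b t 1 3 1 = true :=
  ⟨(a (b (a (a (a (c (a (l 14762712) (l 15089272)) (l 14846768)) (c (l 15488520) (l 15443280))) (l 15782424)) (a (l 16447000) (l 16777216))) (a (a (a (a (l 14727736) (l 15059712)) (l 15465952)) (l 15887280)) (l 2))) (l 2)), by decide +kernel⟩

theorem s3_pp_022_b : ∃ t, chk3 f_pp_022_b t 1 2 1 = true := ex3_b k0_pp_022_b k1_pp_022_b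

theorem s4_pp_022_b : ∃ t, chk3 f_pp_022_b t 1 1 1 = true := ex3_b s3_pp_022_b k2_pp_022_b

theorem c_pp_022_b : CertNX 67108864 469762048 1239849684 370763052 1046898278 26843546 3 false true true .pp 0 2 2
    ndN1q0 ndN2q2b pcN2 Cut.none Ext.none :=
  certNX1 (fam := false) (s1 := true) (s2 := true) (a := 0) (b := 2) (c := 2) (cn := .pp) (n1 := ndN1q0) (n2 := ndN2q2b) (pc := pcN2) (cut := Cut.none) (xt := Ext.none) (P1 := 67108864) (W1 := 469762048) (P2 := 1239849684) (W2 := 370763052) (P3 := 1046898278) (W3 := 26843546) (N0 := 3)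
    rfl (fun _ => rfl) s4_pp_022_b

noncomputable def f_pp_023 : ℕ → ℕ → ℕ → ℕ → Bool := onCell 67108864 469762048 1073741824 536870912 1046898278 26843546
    (rowNX 3 1 false true true .up 0 2 3 (qsf 67108864 469762048 1610612736 469762048 2) ndN1q0 ndN2q3 pcN2 Cut.none Ext.none)

def k0_pp_023 : ∃ t, chk3 f_pp_023 t 1 1 1 = true :=
  ⟨(b (b (a (l 1) (b (a (l 1) (l 15287232)) (a (l 14723320) (l 14787376)))) (a (b (l 1) (a (l 1) (b (l 1268121344711) (l 492343439959)))) (b (b (b (l 14447680) (l 14670456)) (l 15184064)) (b (l 16262056) (l 16776584))))) (a (b (a (a (l 1) (l 15782424)) (a (l 16447000) (l 16777216))) (a (a (a (l 206724574663) (l 15444984)) (l 15887280)) (a (l 16530888) (l 16777216)))) (b (l 16777088) (a (l 16777048) (b (l 16749384) (l 16723256)))))), by decide +kernel⟩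

theorem c_pp_023 : CertNX 67108864 469762048 1610612736 469762048 1046898278 26843546 3 false true true .up 0 2 3
    ndN1q0 ndN2q3 pcN2 Cut.none Ext.none :=
  certNX1 (fam := false) (s1 := true) (s2 := true) (a := 0) (b := 2) (c := 3) (cn := .up) (n1 := ndN1q0) (n2 := ndN2q3) (pc := pcN2) (cut := Cut.none) (xt := Ext.none) (P1 := 67108864) (W1 := 469762048) (P2 := 1610612736) (W2 := 469762048) (P3 := 1046898278) (W3 := 26843546) (N0 := 3)
    rfl (fun _ => rfl) k0_pp_023

noncomputable def f_pp_033 : ℕ → ℕ → ℕ → ℕ → Bool := onCell 67108864 469762048 1610612736 536870912 1046898278 26843546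
    (rowNX 3 1 false true true .pnn 0 3 3 (qsf 67108864 469762048 1610612736 469762048 3) ndN1q0 ndN2q3 pcN3 Cut.none Ext.none)

def k0_pp_033 : ∃ t, chk3 f_pp_033 t 1 1 1 = true :=
  ⟨(b (a (a (b (a (a (b (l 14888424) (l 14888424)) (c (l 15488520) (l 15443280))) (b (l 15887280) (l 15887288))) (b (a (a (l 14804536) (l 15445000)) (l 15887440)) (a (c (a (l 14920664) (l 15488696)) (a (l 14846872) (l 15443488))) (b (l 15887552) (l 4))))) (b (b (l 16658288) (a (l 16531032) (l 16774408))) (b (a (l 16524224) (l 16748216)) (a (b (l 16508272) (l 4)) (l 4))))) (b (a (b (l 16748376) (a (l 16737776) (l 16714480))) (b (l 16675960) (l 2))) (a (a (b (l 16704920) (l 2)) (l 2)) (l 2)))) (a (b (a (l 4) (b (l 4) (l 2))) (a (b (l 4) (l 2)) (l 2))) (l 2))), by decide +kernel⟩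

theorem c_pp_033 : CertNX 67108864 469762048 1610612736 469762048 1046898278 26843546 3 false true true .pnn 0 3 3
    ndN1q0 ndN2q3 pcN3 Cut.none Ext.none :=
  certNX1 (fam := false) (s1 := true) (s2 := true) (a := 0) (b := 3) (c := 3) (cn := .pnn) (n1 := ndN1q0) (n2 := ndN2q3) (pc := pcN3) (cut := Cut.none) (xt := Ext.none) (P1 := 67108864) (W1 := 469762048) (P2 := 1610612736) (W2 := 469762048) (P3 := 1046898278) (W3 := 26843546) (N0 := 3)
    rfl (fun _ => rfl) k0_pp_033

noncomputable def f_pp_101 : ℕ → ℕ → ℕ → ℕ → Bool := onCell 536870912 536870912 536870912 536870912 1046898278 26843546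
    (rowNX 3 0 false true true .npn 1 0 1 (qsf 536870912 536870912 536870912 536870912 0) ndN1q1 ndN2q1 pcN0 Cut.none Ext.none)

def k0_pp_101 : ∃ t, chk3 f_pp_101 t 1 1 1 = true :=
  ⟨(l 3), by decide +kernel⟩

theorem c_pp_101 : CertNX 536870912 536870912 536870912 536870912 1046898278 26843546 3 false true true .npn 1 0 1
    ndN1q1 ndN2q1 pcN0 Cut.none Ext.none :=
  certNX0 (fam := false) (s1 := true) (s2 := true) (a := 1) (b := 0) (c := 1) (cn := .npn) (n1 := ndN1q1) (n2 := ndN2q1) (pc := pcN0) (cut := Cut.none) (xt := Ext.none) (P1 := 536870912) (W1 := 536870912) (P2 := 536870912) (W2 := 536870912) (P3 := 1046898278) (W3 := 26843546) (N0 := 3)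
    rfl k0_pp_101

noncomputable def f_pp_102_a : ℕ → ℕ → ℕ → ℕ → Bool := onCell 536870912 536870912 0 420477299 1046898278 26843546
    (rowNX 3 0 false true true .npp 1 0 2 (qsf 536870912 536870912 0 420477299 0) ndN1q1 ndN2q2a pcN0 Cut.none Ext.none)

def k0_pp_102_a : ∃ t, chk3 f_pp_102_a t 1 1 1 = true :=
  ⟨(l 3), by decide +kernel⟩

theorem c_pp_102_a : CertNX 536870912 536870912 0 420477299 1046898278 26843546 3 false true true .npp 1 0 2
    ndN1q1 ndN2q2a pcN0 Cut.none Ext.none :=
  certNX0 (fam := false) (s1 := true) (s2 := true) (a := 1) (b := 0) (c := 2) (cn := .npp) (n1 := ndN1q1) (n2 := ndN2q2a) (pc := pcN0) (cut := Cut.none) (xt := Ext.none) (P1 := 536870912) (W1 := 536870912) (P2 := 0) (W2 := 420477299) (P3 := 1046898278) (W3 := 26843546) (N0 := 3)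
    rfl k0_pp_102_a

noncomputable def f_pp_102_b : ℕ → ℕ → ℕ → ℕ → Bool := onCell 536870912 536870912 0 536870912 1046898278 26843546
    (rowNX 3 1 false true true .npp 1 0 2 (qsf 536870912 536870912 1239849684 370763052 0) ndN1q1 ndN2q2b pcN0 Cut.none Ext.none)

def k0_pp_102_b : ∃ t, chk3 f_pp_102_b t 1 1 1 = true :=
  ⟨(l 3), by decide +kernel⟩

theorem c_pp_102_b : CertNX 536870912 536870912 1239849684 370763052 1046898278 26843546 3 false true true .npp 1 0 2
    ndN1q1 ndN2q2b pcN0 Cut.none Ext.none :=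
  certNX1 (fam := false) (s1 := true) (s2 := true) (a := 1) (b := 0) (c := 2) (cn := .npp) (n1 := ndN1q1) (n2 := ndN2q2b) (pc := pcN0) (cut := Cut.none) (xt := Ext.none) (P1 := 536870912) (W1 := 536870912) (P2 := 1239849684) (W2 := 370763052) (P3 := 1046898278) (W3 := 26843546) (N0 := 3)
    rfl (fun _ => rfl) k0_pp_102_b

noncomputable def f_pp_112_a : ℕ → ℕ → ℕ → ℕ → Bool := onCell 536870912 536870912 0 420477299 1046898278 26843546
    (rowNX 3 0 false true true .dn 1 1 2 (qsf 536870912 536870912 0 420477299 1) ndN1q1 ndN2q2a pcN1 Cut.none Ext.none)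

def k0_pp_112_a : ∃ t, chk3 f_pp_112_a t 1 1 1 = true :=
  ⟨(l 3), by decide +kernel⟩

theorem c_pp_112_a : CertNX 536870912 536870912 0 420477299 1046898278 26843546 3 false true true .dn 1 1 2
    ndN1q1 ndN2q2a pcN1 Cut.none Ext.none :=
  certNX0 (fam := false) (s1 := true) (s2 := true) (a := 1) (b := 1) (c := 2) (cn := .dn) (n1 := ndN1q1) (n2 := ndN2q2a) (pc := pcN1) (cut := Cut.none) (xt := Ext.none) (P1 := 536870912) (W1 := 536870912) (P2 := 0) (W2 := 420477299) (P3 := 1046898278) (W3 := 26843546) (N0 := 3)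
    rfl k0_pp_112_a

noncomputable def f_pp_112_b : ℕ → ℕ → ℕ → ℕ → Bool := onCell 536870912 536870912 1239849684 370763052 1046898278 26843546
    (rowNX 3 2 false true true .dn 1 1 2 (qsf 536870912 536870912 1239849684 370763052 1) ndN1q1 ndN2q2b pcN1 Cut.none Ext.none)

def k0_pp_112_b : ∃ t, chk3 f_pp_112_b t 1 1 1 = true :=
  ⟨(b (a (l 3) (b (l 1) (a (a (a (l 3) (l 16776216)) (a (l 16759544) (l 1))) (l 1)))) (a (l 3) (a (a (a (l 3) (l 16776776)) (a (l 16766464) (a (l 16740056) (l 16669328)))) (a (a (l 16242320) (l 149281781783)) (a (a (l 15791888) (a (l 15666488) (l 15580704))) (l 15363624)))))), by decide +kernel⟩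

theorem c_pp_112_b : CertNX 536870912 536870912 1239849684 370763052 1046898278 26843546 3 false true true .dn 1 1 2
    ndN1q1 ndN2q2b pcN1 Cut.none Ext.none :=
  certNX2 (fam := false) (s1 := true) (s2 := true) (a := 1) (b := 1) (c := 2) (cn := .dn) (n1 := ndN1q1) (n2 := ndN2q2b) (pc := pcN1) (cut := Cut.none) (xt := Ext.none) (P1 := 536870912) (W1 := 536870912) (P2 := 1239849684) (W2 := 370763052) (P3 := 1046898278) (W3 := 26843546) (N0 := 3)
    rfl (fun _ => rfl) k0_pp_112_b

noncomputable def f_pp_113 : ℕ → ℕ → ℕ → ℕ → Bool := onCell 536870912 536870912 1610612736 469762048 1046898278 26843546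
    (rowNX 3 2 false true true .nn 1 1 3 (qsf 536870912 536870912 1610612736 469762048 1) ndN1q1 ndN2q3 pcN1 Cut.none Ext.none)

def k0_pp_113 : ∃ t, chk3 f_pp_113 t 1 1 1 = true :=
  ⟨(a (b (a (l 3) (l 3)) (b (l 3) (l 2))) (a (b (a (b (l 3) (l 3)) (b (a (l 16772336) (l 16725304)) (a (b (l 16724184) (l 3)) (a (l 254107042695) (l 16673792))))) (b (a (l 3) (a (l 3) (b (a (l 3) (l 16328784)) (l 15619264)))) (a (l 2) (a (l 3) (l 3))))) (a (b (a (b (l 16426936) (l 16426688)) (b (l 16064560) (l 16074792))) (b (a (b (l 16283168) (l 15881336)) (b (l 16023560) (l 15792496))) (a (b (l 15356160) (b (l 15021568) (l 2))) (b (l 15356984) (b (l 15029496) (l 14810512)))))) (b (a (a (l 15795840) (a (l 15666736) (c (l 15607528) (l 15566464)))) (a (a (b (l 15497064) (c (a (l 15552584) (l 15508264)) (l 15486800))) (l 15414408)) (l 15280200))) (a (b (a (b (l 15772544) (l 15648152)) (a (l 15597496) (b (l 15581072) (l 15501544)))) (a (b (l 15281408) (l 14905296)) (b (a (l 15232088) (l 15217248)) (a (l 14873872)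 (l 14864744))))) (b (a (c (c (a (l 15576440) (l 15441264)) (b (l 15480504) (l 15425032))) (l 15411392)) (l 15275304)) (b (a (c (a (l 15270816) (c (l 15269192) (l 15215720))) (l 15136120)) (a (c (l 15201640) (a (l 15117840) (l 15095408))) (l 15100144))) (a (c (a (c (l 15105504) (l 14944576)) (c (l 15078568) (l 14932088))) (l 14707928)) (c (a (l 14972984) (l 14929016)) (c (a (a (l 14774640) (l 14766432)) (l 14745184)) (a (l 14632064) (a (l 14625744) (l 14616248))))))))))))), by decide +kernel⟩

theorem c_pp_113 : CertNX 536870912 536870912 1610612736 469762048 1046898278 26843546 3 false true true .nn 1 1 3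
    ndN1q1 ndN2q3 pcN1 Cut.none Ext.none :=
  certNX2 (fam := false) (s1 := true) (s2 := true) (a := 1) (b := 1) (c := 3) (cn := .nn) (n1 := ndN1q1) (n2 := ndN2q3) (pc := pcN1) (cut := Cut.none) (xt := Ext.none) (P1 := 536870912) (W1 := 536870912) (P2 := 1610612736) (W2 := 469762048) (P3 := 1046898278) (W3 := 26843546) (N0 := 3)
    rfl (fun _ => rfl) k0_pp_113

noncomputable def f_pp_123 : ℕ → ℕ → ℕ → ℕ → Bool := onCell 1073741824 536870912 1610612736 469762048 1046898278 26843546
    (rowNX 3 2 false true true .npn 1 2 3 (qsf 536870912 536870912 1610612736 469762048 2) ndN1q1 ndN2q3 pcN2 Cut.none Ext.none)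

def k0_pp_123 : ∃ t, chk3 f_pp_123 t 1 1 1 = true :=
  ⟨(b (a (a (a (b (l 15286984) (l 15289520)) (b (l 14787304) (l 14787936))) (a (a (a (l 14451736) (l 14674096)) (l 15374384)) (a (l 16325072) (l 16776584)))) (l 1)) (a (a (b (a (l 15063016) (l 14788168)) (a (b (a (l 15393640) (l 15146512)) (a (l 15295416) (l 15158288))) (b (l 14786480) (l 14824168)))) (a (a (b (a (l 14457960) (l 14681520)) (a (l 14487456) (l 14711544))) (b (l 15422592) (l 15452080))) (a (b (l 16327784) (l 16355304)) (l 16998800)))) (a (b (l 16777160) (l 16747088)) (b (l 1) (l 16747760))))), by decide +kernel⟩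

theorem c_pp_123 : CertNX 536870912 536870912 1610612736 469762048 1046898278 26843546 3 false true true .npn 1 2 3
    ndN1q1 ndN2q3 pcN2 Cut.none Ext.none :=
  certNX2 (fam := false) (s1 := true) (s2 := true) (a := 1) (b := 2) (c := 3) (cn := .npn) (n1 := ndN1q1) (n2 := ndN2q3) (pc := pcN2) (cut := Cut.none) (xt := Ext.none) (P1 := 536870912) (W1 := 536870912) (P2 := 1610612736) (W2 := 469762048) (P3 := 1046898278) (W3 := 26843546) (N0 := 3)
    rfl (fun _ => rfl) k0_pp_123

noncomputable def f_pp_133 : ℕ → ℕ → ℕ → ℕ → Bool := onCell 536870912 536870912 1610612736 469762048 1046898278 26843546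
    (rowNX 3 0 false true true .dn 1 3 3 (qsf 536870912 536870912 1610612736 469762048 3) ndN1q1 ndN2q3 pcN3 Cut.none Ext.none)

def k0_pp_133 : ∃ t, chk3 f_pp_133 t 1 1 1 = true :=
  ⟨(l 1), by decide +kernel⟩

theorem c_pp_133 : CertNX 536870912 536870912 1610612736 469762048 1046898278 26843546 3 false true true .dn 1 3 3
    ndN1q1 ndN2q3 pcN3 Cut.none Ext.none :=
  certNX0 (fam := false) (s1 := true) (s2 := true) (a := 1) (b := 3) (c := 3) (cn := .dn) (n1 := ndN1q1) (n2 := ndN2q3) (pc := pcN3) (cut := Cut.none) (xt := Ext.none) (P1 := 536870912) (W1 := 536870912) (P2 := 1610612736) (W2 := 469762048) (P3 := 1046898278) (W3 := 26843546) (N0 := 3)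
    rfl k0_pp_133

noncomputable def f_pp_202_aa : ℕ → ℕ → ℕ → ℕ → Bool := onCell 0 420477299 0 420477299 1046898278 26843546
    (rowNX 3 0 false true true .pp 2 0 2 (qsf 0 420477299 0 420477299 0) ndN1q2a ndN2q2a pcN0 Cut.none Ext.none)

def k0_pp_202_aa : ∃ t, chk3 f_pp_202_aa t 1 1 1 = true :=
  ⟨(l 3), by decide +kernel⟩

theorem c_pp_202_aa : CertNX 0 420477299 0 420477299 1046898278 26843546 3 false true true .pp 2 0 2
    ndN1q2a ndN2q2a pcN0 Cut.none Ext.none :=
  certNX0 (fam := false) (s1 := true) (s2 := true) (a := 2) (b := 0) (c := 2) (cn := .pp) (n1 := ndN1q2a) (n2 := ndN2q2a) (pc := pcN0) (cut := Cut.none) (xt := Ext.none) (P1 := 0) (W1 := 420477299) (P2 := 0) (W2 := 420477299) (P3 := 1046898278) (W3 := 26843546) (N0 := 3)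
    rfl k0_pp_202_aa

noncomputable def f_pp_202_ab : ℕ → ℕ → ℕ → ℕ → Bool := onCell 0 420477299 1239849684 370763052 1046898278 26843546
    (rowNX 3 0 false true true .pp 2 0 2 (qsf 0 420477299 1239849684 370763052 0) ndN1q2a ndN2q2b pcN0 Cut.none Ext.none)

def k0_pp_202_ab : ∃ t, chk3 f_pp_202_ab t 1 1 1 = true :=
  ⟨(l 3), by decide +kernel⟩

theorem c_pp_202_ab : CertNX 0 420477299 1239849684 370763052 1046898278 26843546 3 false true true .pp 2 0 2
    ndN1q2a ndN2q2b pcN0 Cut.none Ext.none :=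
  certNX0 (fam := false) (s1 := true) (s2 := true) (a := 2) (b := 0) (c := 2) (cn := .pp) (n1 := ndN1q2a) (n2 := ndN2q2b) (pc := pcN0) (cut := Cut.none) (xt := Ext.none) (P1 := 0) (W1 := 420477299) (P2 := 1239849684) (W2 := 370763052) (P3 := 1046898278) (W3 := 26843546) (N0 := 3)
    rfl k0_pp_202_ab

noncomputable def f_pp_202_ba : ℕ → ℕ → ℕ → ℕ → Bool := onCell 1239849684 370763052 0 420477299 1046898278 26843546
    (rowNX 3 0 false true true .pp 2 0 2 (qsf 1239849684 370763052 0 420477299 0) ndN1q2b ndN2q2a pcN0 Cut.none Ext.none)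

def k0_pp_202_ba : ∃ t, chk3 f_pp_202_ba t 1 1 1 = true :=
  ⟨(l 3), by decide +kernel⟩

theorem c_pp_202_ba : CertNX 1239849684 370763052 0 420477299 1046898278 26843546 3 false true true .pp 2 0 2
    ndN1q2b ndN2q2a pcN0 Cut.none Ext.none :=
  certNX0 (fam := false) (s1 := true) (s2 := true) (a := 2) (b := 0) (c := 2) (cn := .pp) (n1 := ndN1q2b) (n2 := ndN2q2a) (pc := pcN0) (cut := Cut.none) (xt := Ext.none) (P1 := 1239849684) (W1 := 370763052) (P2 := 0) (W2 := 420477299) (P3 := 1046898278) (W3 := 26843546) (N0 := 3)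
    rfl k0_pp_202_ba

noncomputable def f_pp_202_bb : ℕ → ℕ → ℕ → ℕ → Bool := onCell 1239849684 370763052 1239849684 370763052 1046898278 26843546
    (rowNX 3 0 false true true .pp 2 0 2 (qsf 1239849684 370763052 1239849684 370763052 0) ndN1q2b ndN2q2b pcN0 Cut.none Ext.none)

def k0_pp_202_bb : ∃ t, chk3 f_pp_202_bb t 1 1 1 = true :=
  ⟨(l 3), by decide +kernel⟩

theorem c_pp_202_bb : CertNX 1239849684 370763052 1239849684 370763052 1046898278 26843546 3 false true true .pp 2 0 2
    ndN1q2b ndN2q2b pcN0 Cut.none Ext.none :=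
  certNX0 (fam := false) (s1 := true) (s2 := true) (a := 2) (b := 0) (c := 2) (cn := .pp) (n1 := ndN1q2b) (n2 := ndN2q2b) (pc := pcN0) (cut := Cut.none) (xt := Ext.none) (P1 := 1239849684) (W1 := 370763052) (P2 := 1239849684) (W2 := 370763052) (P3 := 1046898278) (W3 := 26843546) (N0 := 3)
    rfl k0_pp_202_bb

noncomputable def f_pp_203_a : ℕ → ℕ → ℕ → ℕ → Bool := onCell 0 420477299 1610612736 469762048 1046898278 26843546
    (rowNX 3 0 false true true .up 2 0 3 (qsf 0 420477299 1610612736 469762048 0) ndN1q2a ndN2q3 pcN0 Cut.none Ext.none)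

def k0_pp_203_a : ∃ t, chk3 f_pp_203_a t 1 1 1 = true :=
  ⟨(l 3), by decide +kernel⟩

theorem c_pp_203_a : CertNX 0 420477299 1610612736 469762048 1046898278 26843546 3 false true true .up 2 0 3
    ndN1q2a ndN2q3 pcN0 Cut.none Ext.none :=
  certNX0 (fam := false) (s1 := true) (s2 := true) (a := 2) (b := 0) (c := 3) (cn := .up) (n1 := ndN1q2a) (n2 := ndN2q3) (pc := pcN0) (cut := Cut.none) (xt := Ext.none) (P1 := 0) (W1 := 420477299) (P2 := 1610612736) (W2 := 469762048) (P3 := 1046898278) (W3 := 26843546) (N0 := 3)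
    rfl k0_pp_203_a

noncomputable def f_pp_203_b : ℕ → ℕ → ℕ → ℕ → Bool := onCell 1239849684 370763052 1610612736 469762048 1046898278 26843546
    (rowNX 3 0 false true true .up 2 0 3 (qsf 1239849684 370763052 1610612736 469762048 0) ndN1q2b ndN2q3 pcN0 Cut.none Ext.none)

def k0_pp_203_b : ∃ t, chk3 f_pp_203_b t 1 1 1 = true :=
  ⟨(l 3), by decide +kernel⟩

theorem c_pp_203_b : CertNX 1239849684 370763052 1610612736 469762048 1046898278 26843546 3 false true true .up 2 0 3
    ndN1q2b ndN2q3 pcN0 Cut.none Ext.none :=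
  certNX0 (fam := false) (s1 := true) (s2 := true) (a := 2) (b := 0) (c := 3) (cn := .up) (n1 := ndN1q2b) (n2 := ndN2q3) (pc := pcN0) (cut := Cut.none) (xt := Ext.none) (P1 := 1239849684) (W1 := 370763052) (P2 := 1610612736) (W2 := 469762048) (P3 := 1046898278) (W3 := 26843546) (N0 := 3)
    rfl k0_pp_203_b

noncomputable def f_pp_213_a : ℕ → ℕ → ℕ → ℕ → Bool := onCell 0 420477299 1610612736 469762048 1046898278 26843546
    (rowNX 3 0 false true true .pnn 2 1 3 (qsf 0 420477299 1610612736 469762048 1) ndN1q2a ndN2q3 pcN1 Cut.none Ext.none)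

def k0_pp_213_a : ∃ t, chk3 f_pp_213_a t 1 1 1 = true :=
  ⟨(l 3), by decide +kernel⟩

theorem c_pp_213_a : CertNX 0 420477299 1610612736 469762048 1046898278 26843546 3 false true true .pnn 2 1 3
    ndN1q2a ndN2q3 pcN1 Cut.none Ext.none :=
  certNX0 (fam := false) (s1 := true) (s2 := true) (a := 2) (b := 1) (c := 3) (cn := .pnn) (n1 := ndN1q2a) (n2 := ndN2q3) (pc := pcN1) (cut := Cut.none) (xt := Ext.none) (P1 := 0) (W1 := 420477299) (P2 := 1610612736) (W2 := 469762048) (P3 := 1046898278) (W3 := 26843546) (N0 := 3)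
    rfl k0_pp_213_a

noncomputable def f_pp_213_b : ℕ → ℕ → ℕ → ℕ → Bool := onCell 1239849684 370763052 1610612736 469762048 1046898278 26843546
    (rowNX 3 0 false true true .pnn 2 1 3 (qsf 1239849684 370763052 1610612736 469762048 1) ndN1q2b ndN2q3 pcN1 Cut.none Ext.none)

def k0_pp_213_b : ∃ t, chk3 f_pp_213_b t 1 1 1 = true :=
  ⟨(l 3), by decide +kernel⟩

theorem c_pp_213_b : CertNX 1239849684 370763052 1610612736 469762048 1046898278 26843546 3 false true true .pnn 2 1 3
    ndN1q2b ndN2q3 pcN1 Cut.none Ext.none :=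
  certNX0 (fam := false) (s1 := true) (s2 := true) (a := 2) (b := 1) (c := 3) (cn := .pnn) (n1 := ndN1q2b) (n2 := ndN2q3) (pc := pcN1) (cut := Cut.none) (xt := Ext.none) (P1 := 1239849684) (W1 := 370763052) (P2 := 1610612736) (W2 := 469762048) (P3 := 1046898278) (W3 := 26843546) (N0 := 3)
    rfl k0_pp_213_b

noncomputable def f_pp_303 : ℕ → ℕ → ℕ → ℕ → Bool := onCell 1610612736 469762048 1610612736 469762048 1046898278 26843546
    (rowNX 3 0 false true true .npn 3 0 3 (qsf 1610612736 469762048 1610612736 469762048 0) ndN1q3 ndN2q3 pcN0 Cut.none Ext.none)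

def k0_pp_303 : ∃ t, chk3 f_pp_303 t 1 1 1 = true :=
  ⟨(l 3), by decide +kernel⟩

theorem c_pp_303 : CertNX 1610612736 469762048 1610612736 469762048 1046898278 26843546 3 false true true .npn 3 0 3
    ndN1q3 ndN2q3 pcN0 Cut.none Ext.none :=
  certNX0 (fam := false) (s1 := true) (s2 := true) (a := 3) (b := 0) (c := 3) (cn := .npn) (n1 := ndN1q3) (n2 := ndN2q3) (pc := pcN0) (cut := Cut.none) (xt := Ext.none) (P1 := 1610612736) (W1 := 469762048) (P2 := 1610612736) (W2 := 469762048) (P3 := 1046898278) (W3 := 26843546) (N0 := 3)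
    rfl k0_pp_303

noncomputable def f_pp_313 : ℕ → ℕ → ℕ → ℕ → Bool := onCell 1610612736 469762048 1610612736 469762048 1046898278 26843546
    (rowNX 3 0 false true true .dn 3 1 3 (qsf 1610612736 469762048 1610612736 469762048 1) ndN1q3 ndN2q3 pcN1 Cut.none Ext.none)

def k0_pp_313 : ∃ t, chk3 f_pp_313 t 1 1 1 = true :=
  ⟨(l 1), by decide +kernel⟩

theorem c_pp_313 : CertNX 1610612736 469762048 1610612736 469762048 1046898278 26843546 3 false true true .dn 3 1 3
    ndN1q3 ndN2q3 pcN1 Cut.none Ext.none :=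
  certNX0 (fam := false) (s1 := true) (s2 := true) (a := 3) (b := 1) (c := 3) (cn := .dn) (n1 := ndN1q3) (n2 := ndN2q3) (pc := pcN1) (cut := Cut.none) (xt := Ext.none) (P1 := 1610612736) (W1 := 469762048) (P2 := 1610612736) (W2 := 469762048) (P3 := 1046898278) (W3 := 26843546) (N0 := 3)
    rfl k0_pp_313

noncomputable def f_pm_001 : ℕ → ℕ → ℕ → ℕ → Bool := onCell 67108864 469762048 536870912 536870912 1046898278 26843546
    (rowNX 3 0 false true false .up 0 0 1 (qsf 67108864 469762048 536870912 536870912 0) ndN1q0 ndN2q1 pcN0 Cut.none Ext.none)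

def k0_pm_001 : ∃ t, chk3 f_pm_001 t 1 1 1 = true :=
  ⟨(l 4), by decide +kernel⟩

theorem c_pm_001 : CertNX 67108864 469762048 536870912 536870912 1046898278 26843546 3 false true false .up 0 0 1
    ndN1q0 ndN2q1 pcN0 Cut.none Ext.none :=
  certNX0 (fam := false) (s1 := true) (s2 := false) (a := 0) (b := 0) (c := 1) (cn := .up) (n1 := ndN1q0) (n2 := ndN2q1) (pc := pcN0) (cut := Cut.none) (xt := Ext.none) (P1 := 67108864) (W1 := 469762048) (P2 := 536870912) (W2 := 536870912) (P3 := 1046898278) (W3 := 26843546) (N0 := 3)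
    rfl k0_pm_001

noncomputable def f_pm_011 : ℕ → ℕ → ℕ → ℕ → Bool := onCell 67108864 469762048 536870912 536870912 1046898278 26843546
    (rowNX 3 0 false true false .pnn 0 1 1 (qsf 67108864 469762048 536870912 536870912 1) ndN1q0 ndN2q1 pcN1 Cut.none Ext.none)

def k0_pm_011 : ∃ t, chk3 f_pm_011 t 1 1 1 = true :=
  ⟨(l 4), by decide +kernel⟩

theorem c_pm_011 : CertNX 67108864 469762048 536870912 536870912 1046898278 26843546 3 false true false .pnn 0 1 1
    ndN1q0 ndN2q1 pcN1 Cut.none Ext.none :=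
  certNX0 (fam := false) (s1 := true) (s2 := false) (a := 0) (b := 1) (c := 1) (cn := .pnn) (n1 := ndN1q0) (n2 := ndN2q1) (pc := pcN1) (cut := Cut.none) (xt := Ext.none) (P1 := 67108864) (W1 := 469762048) (P2 := 536870912) (W2 := 536870912) (P3 := 1046898278) (W3 := 26843546) (N0 := 3)
    rfl k0_pm_011

noncomputable def f_pm_012_a : ℕ → ℕ → ℕ → ℕ → Bool := onCell 536870912 536870912 0 420477299 1046898278 26843546
    (rowNX 3 2 false true false .pnp 0 1 2 (qsf 67108864 469762048 0 420477299 1) ndN1q0 ndN2q2a pcN1 Cut.none Ext.none)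

def k0_pm_012_a : ∃ t, chk3 f_pm_012_a t 2 1 1 = true :=
  ⟨(b (a (l 2) (b (l 16400216) (l 16398760))) (b (a (l 16554784) (l 16554784)) (a (a (b (l 2) (l 16262632)) (b (l 16713464) (l 16220688))) (b (a (l 16671528) (l 16713464)) (a (l 16157776) (l 16262632)))))), by decide +kernel⟩

def k1_pm_012_a : ∃ t, chk3 f_pm_012_a t 6 1 1 = true :=
  ⟨(b (a (a (b (l 16400392) (l 16398960)) (b (l 16441304) (l 16423192))) (a (b (l 16147128) (l 16099944)) (b (a (l 15886232) (l 15587056)) (a (l 15812952) (l 15481608))))) (a (b (a (l 16555008) (l 16489512)) (a (b (l 16713656) (b (l 16394448) (l 16028632))) (b (l 16632840) (b (l 16541112) (b (a (c (l 16299936) (l 16282200)) (l 16429880)) (a (c (a (l 16130592) (l 16213168)) (l 16149976)) (c (c (a (l 16289896) (l 16371376)) (a (l 16287568) (l 16349520))) (b (l 16316104) (l 16173424))))))))) (a (b (l 16145968) (b (l 16244384) (b (l 16467968) (a (b (l 16581128) (b (l 16485616) (c (c (a (l 16406368) (b (l 16480848) (l 16459376))) (l 16344440)) (c (l 16238800)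 (l 16433928))))) (l 16536664))))) (b (a (l 15840904) (l 15482808)) (b (a (a (l 16055408) (l 15897152)) (b (l 15551792) (l 15680480))) (a (b (l 16087496) (a (l 16428352) (l 16330104))) (b (l 15887248) (l 16172872)))))))), by decide +kernel⟩

def k2_pm_012_a : ∃ t, chk3 f_pm_012_a t 7 2 1 = true :=
  ⟨(a (a (b (l 15068480) (b (l 14943432) (l 14902272))) (b (a (l 14642160) (l 14430104)) (b (a (l 14503928) (l 14332952)) (a (l 14477296) (l 14371800))))) (a (b (c (a (l 14322544) (l 14164824)) (l 14184728)) (c (a (b (l 14259496) (l 14313600)) (b (l 14091216) (l 14142312))) (l 13939968))) (b (a (c (b (l 14035936) (l 13934584)) (l 13982544)) (c (c (l 13892640) (l 13695808)) (a (l 13858616) (c (l 13817648) (l 13798176))))) (a (c (b (l 13858624) (a (l 13993464) (l 13894920))) (b (l 13905280) (l 13961680))) (c (b (a (l 13783120) (l 13782056)) (a (c (l 13817480) (l 13808168)) (l 13803840))) (a (b (l 13773320) (l 13815672)) (b (l 13715896) (c (l 13744688) (l 13730448))))))))), by decide +kernel⟩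

def k3_pm_012_a : ∃ t, chk3 f_pm_012_a t 14 3 1 = true :=
  ⟨(b (a (a (l 15051368) (b (l 14699104) (l 14792392))) (b (a (l 14536832) (l 14489872)) (l 14697336))) (b (a (a (b (l 15204784) (l 15402064)) (b (l 14968744) (l 15188880))) (b (c (l 14936344) (l 14872496)) (c (l 15167360) (l 15112400)))) (a (a (l 15643512) (b (l 15453768) (l 15761560))) (a (b (l 15418904) (l 15732616)) (b (l 15412120) (l 15710656)))))), by decide +kernel⟩

def k4_pm_012_a : ∃ t, chk3 f_pm_012_a t 15 6 1 = true :=
  ⟨(a (c (a (b (l 14434080) (c (l 14642120) (l 14629944))) (b (l 14262400) (c (l 14434168) (l 14469272)))) (b (l 14303872) (l 14502664))) (a (c (b (a (l 14107000) (c (l 13972832) (l 14003016))) (a (l 14265152) (c (l 14110544) (l 14148256)))) (b (l 14075736) (l 14242008))) (c (c (b (l 13878768) (l 14040672)) (a (a (l 13980672) (l 13931832)) (l 13930056))) (a (c (b (l 13909920) (l 14058856)) (l 14001928)) (c (b (l 13823216) (l 13974896)) (b (l 13812992) (a (l 13982992) (l 13943816)))))))), by decide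 +kernel⟩

def k5_pm_012_a : ∃ t, chk3 f_pm_012_a t 15 7 1 = true :=
  ⟨(a (a (b (b (c (a (l 14888248) (l 14807752)) (l 14793440)) (a (l 15051160) (l 14960952))) (c (c (a (b (l 15380112) (l 15665072)) (l 15186456)) (l 15472512)) (l 15440640))) (b (c (b (c (l 14615616) (l 14657520)) (l 14715712)) (l 14551584)) (c (a (b (l 15162640) (l 15270072)) (b (l 15039536) (c (l 15314096) (l 15331664)))) (b (l 15116576) (l 15437264))))) (b (a (c (b (a (l 14431536) (c (l 14085488) (l 14318544))) (a (l 14644592) (c (l 14486512) (l 14537064)))) (b (l 14420688) (l 14646632))) (c (b (a (c (l 14195712) (a (l 14221256) (l 14174160))) (b (l 14155520) (l 14261608))) (a (c (a (l 14420664) (l 14426560)) (a (l 14447544) (l 14422768))) (c (l 14529616) (l 14494640)))) (a (b (c (l 14237080) (l 14262752)) (c (l 14485576) (l 14517560))) (b (c (b (l 14109312) (l 14218592)) (a (l 14169320) (b (l 14082696) (l 14201976)))) (c (l 14477056) (a (l 14468104) (l 14484408))))))) (a (a (c (b (c (l 14867368) (l 14946624)) (c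 (b (l 15116600) (l 15340800)) (l 15320680))) (b (l 14981296) (l 15157792))) (c (b (c (a (b (l 14700104) (l 14868000)) (l 14766896)) (a (l 14855528) (l 14816912))) (c (a (l 15060656) (l 15212456)) (l 15258864))) (b (c (l 14911944) (l 14920144)) (l 15217976)))) (c (a (c (b (l 14793040) (l 15106352)) (b (a (l 14803320) (l 14813384)) (a (l 15271032) (l 15284808)))) (b (l 14861368) (b (l 15271856) (a (l 15476072) (l 15572400))))) (a (c (b (l 14863120) (l 15217280)) (b (l 14903680) (l 15393920))) (b (c (l 14900320) (a (l 14897424) (l 14836776))) (c (a (l 15350192) (l 15425368)) (a (l 15392664) (b (l 15286392) (c (l 15542840) (l 15557264))))))))))), by decide +kernel⟩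

theorem s6_pm_012_a : ∃ t, chk3 f_pm_012_a t 15 3 1 = true := ex3_b k4_pm_012_a k5_pm_012_a

theorem s7_pm_012_a : ∃ t, chk3 f_pm_012_a t 7 3 1 = true := ex3_a k3_pm_012_a s6_pm_012_a

theorem s8_pm_012_a : ∃ t, chk3 f_pm_012_a t 7 1 1 = true := ex3_b k2_pm_012_a s7_pm_012_a

theorem s9_pm_012_a : ∃ t, chk3 f_pm_012_a t 3 1 1 = true := ex3_a k1_pm_012_a s8_pm_012_a

theorem s10_pm_012_a : ∃ t, chk3 f_pm_012_a t 1 1 1 = true := ex3_a k0_pm_012_a s9_pm_012_a

theorem c_pm_012_a : CertNX 67108864 469762048 0 420477299 1046898278 26843546 3 false true false .pnp 0 1 2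
    ndN1q0 ndN2q2a pcN1 Cut.none Ext.none :=
  certNX2 (fam := false) (s1 := true) (s2 := false) (a := 0) (b := 1) (c := 2) (cn := .pnp) (n1 := ndN1q0) (n2 := ndN2q2a) (pc := pcN1) (cut := Cut.none) (xt := Ext.none) (P1 := 67108864) (W1 := 469762048) (P2 := 0) (W2 := 420477299) (P3 := 1046898278) (W3 := 26843546) (N0 := 3)
    rfl (fun _ => rfl) s10_pm_012_a

noncomputable def f_pm_012_b : ℕ → ℕ → ℕ → ℕ → Bool := onCell 536870912 536870912 1239849684 370763052 1046898278 26843546
    (rowNX 3 2 false true false .pnp 0 1 2 (qsf 67108864 469762048 1239849684 370763052 1) ndN1q0 ndN2q2b pcN1 Cut.none Ext.none)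

def k0_pm_012_b : ∃ t, chk3 f_pm_012_b t 1 1 1 = true :=
  ⟨(a (b (a (l 2) (b (b (l 16555232) (l 16750264)) (l 16777216))) (l 2)) (a (b (a (b (a (l 16656096) (l 16509568)) (l 16722368)) (b (a (l 16249904) (b (l 15746752) (l 15996704))) (a (l 16428440) (l 16093328)))) (a (l 2) (a (l 16493752) (a (l 16314424) (l 16103528))))) (b (a (b (a (b (l 15264624) (l 15430752)) (b (l 14742032) (l 14919696))) (a (l 15505472) (l 14995184))) (b (a (b (a (b (c (l 14394784) (l 14320688)) (l 14412568)) (b (l 14163768) (l 14118584))) (c (l 14416792) (l 14366072))) (b (a (c (b (l 14019536) (l 13892688)) (l 13943672)) (c (l 13843392) (a (l 13813160) (l 13764088)))) (a (c (l 13917432) (l 13900800)) (a (c (l 13690520) (l 13657832)) (b (l 13600352) (l 13568440)))))) (a (a (l 14618840) (l 14307200)) (a (l 13752728) (c (l 13700344) (l 13435680)))))) (a (a (l 15562280) (l 15182568)) (a (b (l 14565456) (l 14720048)) (b (a (l 14074160) (l 13555760)) (a (l 14242328) (l 13952712)))))))), by decide +kernel⟩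

theorem c_pm_012_b : CertNX 67108864 469762048 1239849684 370763052 1046898278 26843546 3 false true false .pnp 0 1 2
    ndN1q0 ndN2q2b pcN1 Cut.none Ext.none :=
  certNX2 (fam := false) (s1 := true) (s2 := false) (a := 0) (b := 1) (c := 2) (cn := .pnp) (n1 := ndN1q0) (n2 := ndN2q2b) (pc := pcN1) (cut := Cut.none) (xt := Ext.none) (P1 := 67108864) (W1 := 469762048) (P2 := 1239849684) (W2 := 370763052) (P3 := 1046898278) (W3 := 26843546) (N0 := 3)
    rfl (fun _ => rfl) k0_pm_012_b

noncomputable def f_pm_022_a : ℕ → ℕ → ℕ → ℕ → Bool := onCell 1073741824 536870912 0 420477299 1046898278 26843546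
    (rowNX 3 2 false true false .pp 0 2 2 (qsf 67108864 469762048 0 420477299 2) ndN1q0 ndN2q2a pcN2 Cut.none Ext.none)

def k0_pm_022_a : ∃ t, chk3 f_pm_022_a t 8 2 1 = true :=
  ⟨(c (a (b (b (l 14094120) (l 13993392)) (b (l 13951736) (l 13981768))) (b (a (c (l 14377168) (b (l 14405952) (l 14308336))) (c (b (l 14687152) (l 14575968)) (a (c (l 14573888) (b (l 14576400) (l 14495792))) (b (l 14737024) (l 14551240))))) (c (a (b (l 14294496) (a (l 14278120) (l 14446808))) (b (l 14637888) (l 14774248))) (c (a (b (l 14283888) (l 14363056)) (b (a (l 14543224) (l 14734312)) (a (l 14682008) (l 14876760)))) (a (b (l 14273312) (a (l 14262856) (l 14454776))) (a (b (l 14508856) (l 14647928)) (l 14554840))))))) (a (b (c (a (l 13864296) (c (l 14110912) (a (l 14031264) (l 14153528)))) (a (c (a (l 13769904) (l 13892008)) (a (l 13744872) (l 13869200))) (l 14052312))) (c (a (l 13786768) (c (l 14036856) (a (l 13954912) (b (l 14062152) (l 14097120))))) (b (a (c (l 13735064) (l 13704944)) (l 13957288))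 (a (c (l 13765696) (a (l 13679784) (l 13802424))) (l 13991152))))) (b (a (c (c (a (l 14293256) (l 14395168)) (l 14302840)) (l 14269056)) (l 14549200)) (a (c (b (a (l 14183928) (l 14303568)) (c (a (l 14258168) (l 14419368)) (l 14300200))) (b (l 14183632) (l 14265960))) (b (l 14524496) (l 14665960)))))), by decide +kernel⟩

def k1_pm_022_a : ∃ t, chk3 f_pm_022_a t 9 2 1 = true :=
  ⟨(a (b (c (a (c (c (b (l 15083088) (l 15028448)) (b (l 15054920) (a (l 14919912) (l 15084824)))) (b (l 14994360) (l 14934248))) (a (c (c (b (l 15335032) (l 15283240)) (l 15244344)) (l 15224432)) (c (c (b (l 15418392) (b (l 109551997751) (a (l 15324992) (l 1)))) (l 15363960)) (l 15348064)))) (a (l 14916432) (b (l 15288120) (l 15218032)))) (c (a (c (b (c (l 15064904) (a (l 14956096) (l 15120664))) (a (c (l 15063768) (a (l 15063896) (l 15151784))) (c (b (a (l 15228784) (l 15308216)) (a (c (l 15299312) (l 15316600)) (c (l 307120582727) (l 15349472)))) (a (l 315173146663) (l 15141752))))) (b (l 14967472) (a (b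 (l 14968344) (l 15067248)) (l 15169840)))) (b (c (a (c (a (b (l 15267400) (l 15309240)) (c (l 383893037639) (l 15282040))) (l 15232064)) (c (b (a (l 15313776) (l 1)) (l 1)) (l 15304904))) (l 15253112)) (b (c (a (c (a (a (l 15345400) (l 1)) (l 1)) (l 15279960)) (l 1)) (l 15292264)) (l 1)))) (a (b (l 14916072) (l 14983616)) (b (l 15217984) (l 15281088))))) (b (l 1) (l 1))), by decide +kernel⟩

def k2_pm_022_a : ∃ t, chk3 f_pm_022_a t 8 6 1 = true :=
  ⟨(b (c (a (a (l 13961872) (c (b (l 14170992) (l 14264320)) (l 14189688))) (c (a (l 14573896) (a (l 14894400) (b (l 15046424) (c (a (l 15113792) (b (l 15189408) (l 15239728))) (l 15199152))))) (a (a (l 14457656) (c (l 14681688) (l 14692232))) (a (c (l 14923016) (l 14701432)) (c (b (l 15043880) (a (l 15149512) (l 15218008))) (l 14813632)))))) (a (c (a (l 13892616) (c (l 14177832) (a (l 14069896) (c (l 14249096) (l 14227616))))) (a (c (a (l 13798936) (l 13920744)) (a (l 13774448) (l 13898752))) (a (l 13950568) (l 14185528)))) (a (c (c (a (c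 (l 14469248) (l 14450592)) (l 14658064)) (l 14512904)) (l 14481440)) (b (l 14835728) (l 14980848))))) (c (b (a (a (l 14076576) (a (l 14287912) (l 14491344))) (a (c (l 14815536) (a (l 14704288) (c (l 14928920) (l 14942904)))) (a (c (c (b (l 15077880) (a (l 15118064) (l 15195336))) (l 15131880)) (c (l 15160680) (c (l 15143456) (l 15098728)))) (a (c (c (b (l 15211864) (l 1)) (l 15279512)) (c (l 15282280) (l 15205712))) (l 1))))) (a (a (c (l 14233304) (l 14190624)) (l 14592712)) (a (a (l 14918880) (c (b (l 15063064) (c (a (l 15117680) (l 15192064)) (l 15156840))) (c (l 15122064) (l 127805050839)))) (a (a (c (b (a (l 15184024) (l 15196008)) (l 1)) (c (l 15274560) (l 15256952))) (l 1)) (l 1))))) (a (c (a (l 14088592) (c (l 14282656) (a (l 14341776) (c (l 14581648) (l 14561056))))) (a (c (a (l 13971728) (c (l 14139032) (a (l 14078376) (l 14172520)))) (a (c (l 13956328) (l 13837056)) (l 14110016))) (a (b (l 14204312) (l 14410840)) (l 14521912)))) (a (c (a (c (c (l 14825992) (l 14808456)) (l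 14768232)) (b (l 14730064) (c (a (l 15070408) (l 15130496)) (l 15064232)))) (l 148742363015)) (b (l 15118448) (l 15250384)))))), by decide +kernel⟩

def k3_pm_022_a : ∃ t, chk3 f_pm_022_a t 8 14 1 = true :=
  ⟨(b (a (c (a (b (l 14350112) (l 14501224)) (c (l 14854264) (l 14831176))) (c (a (l 14371424) (c (l 14809200) (a (l 14702176) (c (l 14926848) (l 14928424))))) (a (c (a (l 14231920) (b (l 14291184) (l 14390792))) (a (c (l 14071576) (a (l 14150936) (l 14261320))) (l 14439648))) (a (b (l 14572304) (l 14693808)) (l 14892784))))) (a (a (c (c (b (l 15076808) (c (a (l 15175296) (l 428453104423)) (l 15208800))) (b (l 15084200) (l 15219000))) (c (c (a (l 14933272) (b (l 15149192) (l 15276024))) (b (l 15050336) (l 15188136))) (l 15089208))) (a (b (c (c (a (l 15191224) (l 15175032)) (l 15228688)) (c (c (l 15219808) (l 15174824)) (l 15155952))) (l 1)) (l 1))) (l 1))) (a (c (a (l 14784208) (a (b (l 14998952) (l 15069976)) (c (c (b (a (l 15170024) (l 15251200)) (c (a (l 410736522407) (l 15305824))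 (l 419863349527))) (l 404830711767)) (l 15248648)))) (a (c (l 14737936) (c (a (l 14601368) (c (l 14840224) (l 14766672))) (a (c (l 14590384) (l 14494760)) (l 14819024)))) (c (a (a (l 15020608) (l 14986096)) (c (l 15281704) (a (c (l 15256168) (l 15240424)) (c (l 15337568) (l 15300440))))) (a (c (a (l 15012512) (l 15128488)) (l 15050400)) (l 15237168))))) (a (a (a (c (b (b (c (l 428990117223) (l 15289656)) (l 1)) (l 1)) (c (c (l 15412640) (l 15369960)) (l 15346552))) (l 1)) (l 1)) (l 1)))), by decide +kernel⟩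

def k4_pm_022_a : ∃ t, chk3 f_pm_022_a t 8 15 1 = true :=
  ⟨(a (a (c (b (a (l 15101464) (b (l 15199664) (c (a (l 15383864) (c (b (l 15431120) (l 15526328)) (l 15469832))) (l 15405032)))) (c (b (a (b (l 15404360) (l 15522088)) (a (c (b (l 15552480) (l 428990853959)) (l 15593424)) (l 1))) (a (a (a (l 15635560) (b (l 15626552) (l 420937989079))) (b (a (l 15666808) (l 15670352)) (l 1))) (l 1))) (b (l 147133126727) (l 244844089911)))) (c (b (a (l 15061200) (l 15173648)) (a (l 166997420055) (l 15537704))) (b (c (a (l 15042096) (a (l 15224800) (c (l 15331784) (l 15183312)))) (a (c (l 15034104) (a (l 14968296) (l 15087088))) (a (l 15151760) (l 15309936)))) (a (c (l 15333288) (c (a (l 15475104) (b (l 15460016) (l 15664464))) (a (b (l 15341272) (c (l 15601032) (l 15597304))) (l 15439080)))) (a (c (l 15484840) (l 525627412007)) (l 1)))))) (a (b (c (c (b (c (a (l 15362680) (b (l 15398616) (l 15465568))) (l 15389624)) (c (b (a (l 15497976) (l 1)) (l 1)) (l 15447760))) (l 15352952)) (c (a (l 15423840)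 (l 424695377511)) (c (c (a (l 15242584) (l 15500800)) (l 15440984)) (l 15431120)))) (l 1)) (l 1))) (l 1)), by decide +kernel⟩

def k5_pm_022_a : ∃ t, chk3 f_pm_022_a t 9 3 1 = true :=
  ⟨(b (b (a (a (a (c (b (c (c (a (l 15203168) (l 262023172647)) (l 15204464)) (l 15121048)) (a (a (b (c (l 260949492919) (l 15201752)) (l 1)) (l 1)) (l 1))) (l 15155536)) (l 1)) (l 1)) (l 1)) (l 1)) (l 1)), by decide +kernel⟩

def k6_pm_022_a : ∃ t, chk3 f_pm_022_a t 5 1 1 = true :=
  ⟨(l 1), by decide +kernel⟩

def k7_pm_022_a : ∃ t, chk3 f_pm_022_a t 3 1 1 = true :=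
  ⟨(l 1), by decide +kernel⟩

theorem s8_pm_022_a : ∃ t, chk3 f_pm_022_a t 8 7 1 = true := ex3_b k3_pm_022_a k4_pm_022_a

theorem s9_pm_022_a : ∃ t, chk3 f_pm_022_a t 8 3 1 = true := ex3_b k2_pm_022_a s8_pm_022_a

theorem s10_pm_022_a : ∃ t, chk3 f_pm_022_a t 4 3 1 = true := ex3_a s9_pm_022_a k5_pm_022_a

theorem s11_pm_022_a : ∃ t, chk3 f_pm_022_a t 4 2 1 = true := ex3_a k0_pm_022_a k1_pm_022_a

theorem s12_pm_022_a : ∃ t, chk3 f_pm_022_a t 4 1 1 = true := ex3_b s11_pm_022_a s10_pm_022_a

theorem s13_pm_022_a : ∃ t, chk3 f_pm_022_a t 2 1 1 = true := ex3_a s12_pm_022_a k6_pm_022_a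

theorem s14_pm_022_a : ∃ t, chk3 f_pm_022_a t 1 1 1 = true := ex3_a s13_pm_022_a k7_pm_022_a

theorem c_pm_022_a : CertNX 67108864 469762048 0 420477299 1046898278 26843546 3 false true false .pp 0 2 2
    ndN1q0 ndN2q2a pcN2 Cut.none Ext.none :=
  certNX2 (fam := false) (s1 := true) (s2 := false) (a := 0) (b := 2) (c := 2) (cn := .pp) (n1 := ndN1q0) (n2 := ndN2q2a) (pc := pcN2) (cut := Cut.none) (xt := Ext.none) (P1 := 67108864) (W1 := 469762048) (P2 := 0) (W2 := 420477299) (P3 := 1046898278) (W3 := 26843546) (N0 := 3)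
    rfl (fun _ => rfl) s14_pm_022_a

noncomputable def f_pm_022_b : ℕ → ℕ → ℕ → ℕ → Bool := onCell 67108864 469762048 1073741824 536870912 1046898278 26843546
    (rowNX 3 1 false true false .pp 0 2 2 (qsf 67108864 469762048 1239849684 370763052 2) ndN1q0 ndN2q2b pcN2 Cut.none Ext.none)

def k0_pm_022_b : ∃ t, chk3 f_pm_022_b t 4 4 1 = true :=
  ⟨(a (a (b (l 1) (b (b (a (l 1) (c (c (b (l 15129152) (l 473013103079)) (l 15083576)) (l 15036488))) (c (c (a (b (a (l 320005517959) (l 381208558407)) (l 15395416)) (c (l 15227664) (l 15174000))) (l 401609494903)) (a (l 15344600) (l 15115552)))) (c (a (l 15401488) (l 15298440)) (a (l 15450944) (l 15253456))))) (b (b (l 1) (b (a (l 1) (c (c (l 14538736) (l 14520880)) (c (c (l 14272680) (l 14469704)) (l 14438392)))) (c (c (a (l 14712912) (l 14676216)) (c (b (l 460664156615) (l 444558130135)) (a (l 467106706759) (l 14634992)))) (l 14511912)))) (b (c (b (c (c (l 14910976) (a (l 14923192) (l 14840208))) (l 14819856)) (c (c (b (l 15000528) (l 14988184))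 (l 14948632)) (l 14925104))) (b (l 14765192) (l 14880232))) (a (c (l 15120512) (l 15068288)) (l 14995448))))) (b (b (c (a (b (l 14242232) (l 433282971303)) (l 389259025575)) (c (b (a (l 14179664) (l 13906352)) (a (c (l 14256704) (b (l 14201024) (l 14260448))) (c (l 14096184) (l 14069984)))) (b (a (c (l 353288856551) (b (l 1) (l 14127936))) (c (l 13872792) (b (l 13803088) (l 13891344)))) (a (l 14138704) (l 14037448))))) (c (a (c (l 14489128) (b (l 14411168) (l 14526272))) (c (l 14412200) (b (l 14296656) (l 14383440)))) (b (c (a (l 14377344) (l 14260792)) (l 14265520)) (l 14441304)))) (b (c (b (c (a (l 14770888) (l 14639912)) (l 14487616)) (c (a (l 14879696) (l 14689760)) (l 14706808))) (b (l 14574744) (l 14655928))) (a (l 14870104) (l 14658816))))), by decide +kernel⟩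

def k1_pm_022_b : ∃ t, chk3 f_pm_022_b t 5 4 1 = true :=
  ⟨(b (c (b (a (a (l 13868760) (l 13655464)) (l 13608064)) (a (c (a (l 14185784) (l 13933808)) (b (l 13951928) (a (l 14218960) (l 13956760)))) (c (l 13878496) (b (l 13767144) (l 13901744))))) (b (a (c (b (l 13607864) (b (l 13732120) (a (l 13930808) (l 13682560)))) (b (b (a (l 13610352) (l 13294680)) (c (l 13448008) (l 13590136))) (a (l 13842824) (l 13602888)))) (c (b (l 13468232) (l 13591104)) (b (c (l 13427992) (l 13395488)) (l 13538464)))) (a (b (c (a (l 14045216) (l 13780408)) (l 13847512)) (l 13987040)) (l 13746144)))) (b (a (c (b (c (l 14249440) (l 14164736)) (c (l 14308832) (l 14226304))) (l 14125648)) (c (b (l 14037960) (l 14118400)) (l 13951736))) (a (l 14292000) (l 14133832)))), by decide +kernel⟩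

def k2_pm_022_b : ∃ t, chk3 f_pm_022_b t 3 4 1 = true :=
  ⟨(b (c (b (a (l 13683512) (l 13848288)) (a (c (l 13953352) (b (l 13843032) (l 13976472))) (c (l 14112880) (l 14060800)))) (b (a (c (b (l 13544688) (l 13668112)) (b (a (l 13455240) (l 13519760)) (l 13616600))) (c (l 13775552) (l 13550248))) (a (b (l 13764024) (l 13876832)) (l 13991992)))) (b (a (c (b (c (l 14151520) (l 14068744)) (l 14188352)) (l 14029416)) (c (b (l 14268744) (l 14333864)) (l 14191376))) (a (l 14186432) (l 14293976)))), by decide +kernel⟩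

def k3_pm_022_b : ∃ t, chk3 f_pm_022_b t 1 5 1 = true :=
  ⟨(a (a (b (a (b (b (a (c (a (l 15747632) (l 15565304)) (l 15487792)) (c (l 15301728) (l 15256544))) (a (a (c (l 16026840) (l 16014744)) (l 15577808)) (c (l 15544632) (l 15508664)))) (a (a (c (l 15877704) (l 15882008)) (c (l 16226680) (l 16198672))) (c (l 15823112) (l 15845656)))) (b (b (l 14972600) (l 15232392)) (b (l 15557680) (l 15811632)))) (a (c (b (a (a (l 15653872) (l 15943336)) (l 16284912)) (a (a (l 15370736) (l 15670936)) (l 16028848))) (b (a (a (l 15619776) (l 15924072)) (l 16279064)) (a (l 15469800) (l 16010872)))) (b (l 16122848) (l 16353656)))) (b (b (b (a (l 14530080) (l 14373840)) (a (l 14812152) (l 14663248))) (a (l 15305928) (l 15178728))) (b (a (l 15797000) (l 15703456)) (a (l 16130360) (l 16060984))))) (a (b (b (b (l 14391504) (l 14674584)) (l 15208040)) (b (l 15766856) (l 16133880))) (l 2))), by decide +kernel⟩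

def k4_pm_022_b : ∃ t, chk3 f_pm_022_b t 1 3 1 = true :=
  ⟨(a (b (a (a (b (a (c (a (l 15060264) (l 15372568)) (l 14962904)) (c (l 15728712) (l 15718192))) (a (c (b (l 14939872) (l 14920576)) (l 14814992)) (c (l 15497072) (l 15452320)))) (b (b (l 16189552) (l 16030432)) (b (l 15901560) (l 15887280)))) (b (a (l 16311464) (l 16425272)) (a (l 16451776) (l 2)))) (a (a (l 4) (b (l 15887280) (l 2))) (l 2))) (l 2)), by decide +kernel⟩

theorem s5_pm_022_b : ∃ t, chk3 f_pm_022_b t 2 4 1 = true := ex3_a k0_pm_022_b k1_pm_022_b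

theorem s6_pm_022_b : ∃ t, chk3 f_pm_022_b t 1 4 1 = true := ex3_a s5_pm_022_b k2_pm_022_b

theorem s7_pm_022_b : ∃ t, chk3 f_pm_022_b t 1 2 1 = true := ex3_b s6_pm_022_b k3_pm_022_b

theorem s8_pm_022_b : ∃ t, chk3 f_pm_022_b t 1 1 1 = true := ex3_b s7_pm_022_b k4_pm_022_b

theorem c_pm_022_b : CertNX 67108864 469762048 1239849684 370763052 1046898278 26843546 3 false true false .pp 0 2 2
    ndN1q0 ndN2q2b pcN2 Cut.none Ext.none :=
  certNX1 (fam := false) (s1 := true) (s2 := false) (a := 0) (b := 2) (c := 2) (cn := .pp) (n1 := ndN1q0) (n2 := ndN2q2b) (pc := pcN2) (cut := Cut.none) (xt := Ext.none) (P1 := 67108864) (W1 := 469762048) (P2 := 1239849684) (W2 := 370763052) (P3 := 1046898278) (W3 := 26843546) (N0 := 3)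
    rfl (fun _ => rfl) s8_pm_022_b

noncomputable def f_pm_023 : ℕ → ℕ → ℕ → ℕ → Bool := onCell 67108864 469762048 1073741824 536870912 1046898278 26843546
    (rowNX 3 1 false true false .up 0 2 3 (qsf 67108864 469762048 1610612736 469762048 2) ndN1q0 ndN2q3 pcN2 Cut.none Ext.none)

def k0_pm_023 : ∃ t, chk3 f_pm_023 t 1 1 1 = true :=
  ⟨(b (b (a (l 1) (a (b (l 1) (b (l 1) (l 14186432))) (b (c (b (l 13848288) (l 199206770087)) (b (c (l 13775552) (l 13655104)) (l 13991992))) (b (c (l 194375360119) (l 14191376)) (l 14293976))))) (a (b (l 1) (a (l 1) (b (l 323764150871) (a (l 1) (l 16060984))))) (b (b (b (l 14410600) (l 14686736)) (a (l 15208040) (l 15266032))) (b (a (l 15766856) (l 15890544)) (l 16209328))))) (a (b (a (a (l 1) (b (l 1) (l 361882280087))) (b (a (l 16311464) (l 16425272)) (a (l 16451776) (l 16765248)))) (a (a (l 4) (b (l 15887280) (l 4))) (b (a (l 16530888) (l 16777216)) (l 16469480)))) (b (b (a (l 16463288) (l 16535096)) (l 16768176)) (a (b (l 16777176) (l 16777016))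 (b (l 16749384) (l 16723256)))))), by decide +kernel⟩

theorem c_pm_023 : CertNX 67108864 469762048 1610612736 469762048 1046898278 26843546 3 false true false .up 0 2 3
    ndN1q0 ndN2q3 pcN2 Cut.none Ext.none :=
  certNX1 (fam := false) (s1 := true) (s2 := false) (a := 0) (b := 2) (c := 3) (cn := .up) (n1 := ndN1q0) (n2 := ndN2q3) (pc := pcN2) (cut := Cut.none) (xt := Ext.none) (P1 := 67108864) (W1 := 469762048) (P2 := 1610612736) (W2 := 469762048) (P3 := 1046898278) (W3 := 26843546) (N0 := 3)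
    rfl (fun _ => rfl) k0_pm_023

noncomputable def f_pm_033 : ℕ → ℕ → ℕ → ℕ → Bool := onCell 1610612736 536870912 1610612736 469762048 1046898278 26843546
    (rowNX 3 2 false true false .pnn 0 3 3 (qsf 67108864 469762048 1610612736 469762048 3) ndN1q0 ndN2q3 pcN3 Cut.none Ext.none)

def k0_pm_033 : ∃ t, chk3 f_pm_033 t 1 1 1 = true :=
  ⟨(a (b (a (l 4) (b (l 1) (l 4))) (a (b (a (l 4) (l 4)) (a (l 16747760) (l 118346914775))) (l 4))) (b (l 1) (a (b (a (l 4) (l 1)) (l 4)) (b (l 1) (a (l 4) (l 1)))))), by decide +kernel⟩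

theorem c_pm_033 : CertNX 67108864 469762048 1610612736 469762048 1046898278 26843546 3 false true false .pnn 0 3 3
    ndN1q0 ndN2q3 pcN3 Cut.none Ext.none :=
  certNX2 (fam := false) (s1 := true) (s2 := false) (a := 0) (b := 3) (c := 3) (cn := .pnn) (n1 := ndN1q0) (n2 := ndN2q3) (pc := pcN3) (cut := Cut.none) (xt := Ext.none) (P1 := 67108864) (W1 := 469762048) (P2 := 1610612736) (W2 := 469762048) (P3 := 1046898278) (W3 := 26843546) (N0 := 3)
    rfl (fun _ => rfl) k0_pm_033

noncomputable def f_pm_101 : ℕ → ℕ → ℕ → ℕ → Bool := onCell 536870912 536870912 536870912 536870912 1046898278 26843546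
    (rowNX 3 0 false true false .npn 1 0 1 (qsf 536870912 536870912 536870912 536870912 0) ndN1q1 ndN2q1 pcN0 Cut.none Ext.none)

def k0_pm_101 : ∃ t, chk3 f_pm_101 t 1 1 1 = true :=
  ⟨(l 4), by decide +kernel⟩

theorem c_pm_101 : CertNX 536870912 536870912 536870912 536870912 1046898278 26843546 3 false true false .npn 1 0 1
    ndN1q1 ndN2q1 pcN0 Cut.none Ext.none :=
  certNX0 (fam := false) (s1 := true) (s2 := false) (a := 1) (b := 0) (c := 1) (cn := .npn) (n1 := ndN1q1) (n2 := ndN2q1) (pc := pcN0) (cut := Cut.none) (xt := Ext.none) (P1 := 536870912) (W1 := 536870912) (P2 := 536870912) (W2 := 536870912) (P3 := 1046898278) (W3 := 26843546) (N0 := 3)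
    rfl k0_pm_101

noncomputable def f_pm_102_a : ℕ → ℕ → ℕ → ℕ → Bool := onCell 0 536870912 0 420477299 1046898278 26843546
    (rowNX 3 2 false true false .npp 1 0 2 (qsf 536870912 536870912 0 420477299 0) ndN1q1 ndN2q2a pcN0 Cut.none Ext.none)

def k0_pm_102_a : ∃ t, chk3 f_pm_102_a t 2 2 1 = true :=
  ⟨(a (l 2) (a (a (b (a (l 2) (a (l 2) (b (c (l 16456080) (l 16450688)) (b (l 431207310215) (c (b (l 16496688) (l 16470696)) (b (l 16492640) (l 16465520))))))) (b (a (l 2) (a (a (b (l 2) (l 16310672)) (l 16346528)) (l 16185464))) (a (b (l 16202792) (l 16008096)) (a (l 15987920) (l 15927928))))) (b (a (b (a (c (l 16418904) (l 16411784)) (c (b (l 16373728) (l 16375096)) (l 16317680))) (b (a (c (b (l 16434376) (l 16432072)) (l 16358080)) (c (l 16354568) (l 16344480))) (l 16300528))) (b (c (a (b (l 16330816) (l 16320280)) (b (l 16285072) (l 16254360))) (a (b (l 16319640) (l 16308632)) (l 16258944))) (l 16220504))) (b (a (l 16098368) (l 16110784)) (a (b (l 15978280) (l 15849488)) (b (l 16003488)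 (l 15958272)))))) (a (b (a (b (c (l 16206256) (l 16189280)) (l 16177824)) (l 16130024)) (b (a (l 16141128) (l 16230536)) (a (l 16108768) (l 16256696)))) (b (a (l 16281600) (l 16422600)) (a (l 16216720) (l 16526504)))))), by decide +kernel⟩

def k1_pm_102_a : ∃ t, chk3 f_pm_102_a t 4 3 1 = true :=
  ⟨(a (b (l 2) (b (l 2) (b (l 2) (a (l 2) (a (l 2) (a (l 2) (a (l 2) (c (l 16363544) (l 16416288))))))))) (a (b (l 2) (a (b (l 2) (a (b (l 2) (c (l 16335136) (l 16338760))) (b (c (l 16397560) (l 16396624)) (l 16203984)))) (b (b (l 2) (c (a (l 16392128) (l 16216896)) (a (l 16391320) (l 16202304)))) (c (b (l 16004024) (l 16011776)) (l 15812992))))) (b (a (a (l 2) (b (l 2) (b (l 2) (l 15831552)))) (b (b (l 2) (b (l 705009613303) (a (l 2) (l 15630776)))) (l 15791736))) (a (b (a (b (c (b (l 16042968) (a (l 16146536) (l 16058200))) (b (l 16019616) (l 193909166487))) (a (l 16074464) (a (l 16007280) (l 15977032)))) (b (b (l 15974168) (l 16032344)) (l 15977232))) (c (a (b (a (l 15970832) (l 15898432))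 (l 15820000)) (l 15830016)) (a (l 15845712) (l 15809688)))) (b (b (b (l 15990992) (l 16032536)) (c (l 15999528) (l 15965984))) (b (l 15887576) (l 15806384))))))), by decide +kernel⟩

def k2_pm_102_a : ∃ t, chk3 f_pm_102_a t 5 3 1 = true :=
  ⟨(a (b (a (b (a (b (a (l 15794616) (l 15725376)) (b (l 15654112) (l 15689592))) (b (a (l 15695320) (l 15711200)) (l 15745024))) (a (l 15847296) (l 15898800))) (b (a (b (l 15827000) (l 15894736)) (l 16020080)) (l 16075880))) (c (a (b (b (a (l 16040256) (b (l 16042064) (l 16056784))) (a (l 16011152) (l 16032616))) (b (a (l 15932352) (l 15967000)) (l 15893384))) (b (b (l 16116200) (l 16150752)) (b (l 16092448) (l 16043208)))) (b (a (b (a (l 16013208) (l 16030216)) (l 15777248)) (b (l 16157120) (l 16122816))) (a (l 15852664) (l 16046120))))) (b (a (b (l 16241984) (l 16313856)) (a (l 16455768) (l 16621584))) (a (b (c (b (l 16364904) (l 16329928)) (l 16140192)) (b (l 16054200) (a (l 16163552) (l 16210872)))) (b (a (b (l 16484456) (l 16475696)) (l 16550504))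 (b (l 16272336) (l 16218848)))))), by decide +kernel⟩

def k3_pm_102_a : ∃ t, chk3 f_pm_102_a t 3 1 1 = true :=
  ⟨(b (a (a (b (a (l 16635824) (l 16502440)) (a (l 16543272) (l 16480208))) (b (l 16432088) (l 16422328))) (b (a (l 16400224) (l 16400216)) (l 16398760))) (b (a (a (a (l 16550296) (l 16607584)) (l 16534368)) (l 16554784)) (a (b (a (l 16512016) (a (l 16652736) (l 16713464))) (a (l 16291544) (c (l 16271552) (l 16253744)))) (b (a (l 16671528) (l 16713464)) (a (l 16220688) (l 16241664)))))), by decide +kernel⟩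

theorem s4_pm_102_a : ∃ t, chk3 f_pm_102_a t 2 3 1 = true := ex3_a k1_pm_102_a k2_pm_102_a

theorem s5_pm_102_a : ∃ t, chk3 f_pm_102_a t 2 1 1 = true := ex3_b k0_pm_102_a s4_pm_102_a

theorem s6_pm_102_a : ∃ t, chk3 f_pm_102_a t 1 1 1 = true := ex3_a s5_pm_102_a k3_pm_102_a

theorem c_pm_102_a : CertNX 536870912 536870912 0 420477299 1046898278 26843546 3 false true false .npp 1 0 2
    ndN1q1 ndN2q2a pcN0 Cut.none Ext.none :=
  certNX2 (fam := false) (s1 := true) (s2 := false) (a := 1) (b := 0) (c := 2) (cn := .npp) (n1 := ndN1q1) (n2 := ndN2q2a) (pc := pcN0) (cut := Cut.none) (xt := Ext.none) (P1 := 536870912) (W1 := 536870912) (P2 := 0) (W2 := 420477299) (P3 := 1046898278) (W3 := 26843546) (N0 := 3)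
    rfl (fun _ => rfl) s6_pm_102_a

noncomputable def f_pm_102_b : ℕ → ℕ → ℕ → ℕ → Bool := onCell 536870912 536870912 1239849684 370763052 1046898278 26843546
    (rowNX 3 0 false true false .npp 1 0 2 (qsf 536870912 536870912 1239849684 370763052 0) ndN1q1 ndN2q2b pcN0 Cut.none Ext.none)

def k0_pm_102_b : ∃ t, chk3 f_pm_102_b t 2 1 1 = true :=
  ⟨(a (l 2) (b (b (b (a (l 16555232) (l 16555232)) (l 16750264)) (l 16777216)) (l 2))), by decide +kernel⟩

def k1_pm_102_b : ∃ t, chk3 f_pm_102_b t 6 1 1 = true :=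
  ⟨(b (b (a (b (l 16542272) (l 16756584)) (b (a (l 16604160) (l 16655872)) (l 16474952))) (a (l 16762416) (l 16647760))) (a (l 2) (a (l 16690904) (l 16604192)))), by decide +kernel⟩

def k2_pm_102_b : ∃ t, chk3 f_pm_102_b t 7 1 1 = true :=
  ⟨(b (a (b (b (a (l 16487352) (a (l 16265672) (l 16119648))) (l 15938552)) (a (l 16325936) (l 16013888))) (a (b (b (a (b (b (l 16087688) (l 16009968)) (l 15924792)) (a (b (l 16041544) (l 15820368)) (b (c (l 16000040) (l 16062352)) (b (c (l 15837048) (l 15805520)) (c (l 15719520) (l 15705016)))))) (a (l 15806408) (c (b (l 15701024) (l 15653000)) (b (l 15663640) (l 15613536))))) (a (l 15783432) (c (b (l 15652968) (l 15652968)) (b (l 15613512) (l 15613512))))) (b (b (a (b (c (l 15951376) (l 16058448)) (c (a (b (l 15859464) (l 15711032)) (l 15809104)) (a (l 15754256) (l 15777280)))) (c (b (a (l 16194968) (l 16125960)) (a (l 15843568) (l 15878408))) (b (a (l 16178968) (l 16174664)) (a (l 15813616) (l 15850328))))) (a (b (a (c (b (l 15623552) (l 15570424))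 (l 15535528)) (b (c (l 15587016) (l 15546056)) (c (l 15504624) (l 15460200)))) (c (l 15509248) (l 15464744))) (b (a (c (b (l 15595336) (l 15463400)) (b (l 15555192) (l 15417728))) (c (b (l 15626448) (l 15468112)) (l 15505520))) (c (b (a (l 15406520) (a (l 15366552) (l 15354256))) (l 15370520)) (b (a (l 15358424) (l 15312624)) (l 15321144)))))) (c (b (c (l 15325264) (l 15427960)) (a (l 15509216) (l 15370464))) (b (c (l 15404488) (l 15380656)) (a (l 15464712) (l 15321080))))))) (a (a (l 16325936) (l 16013888)) (a (b (a (l 15783432) (c (b (l 15652968) (l 15652968)) (l 15613512))) (c (b (l 15726584) (l 15726584)) (b (l 15689704) (l 15689704)))) (b (c (b (l 15439536) (l 15439536)) (b (l 15392584) (l 15392584))) (c (c (l 15451088) (l 15427960)) (b (l 15392584) (l 15392584))))))), by decide +kernel⟩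

theorem s3_pm_102_b : ∃ t, chk3 f_pm_102_b t 3 1 1 = true := ex3_a k1_pm_102_b k2_pm_102_b

theorem s4_pm_102_b : ∃ t, chk3 f_pm_102_b t 1 1 1 = true := ex3_a k0_pm_102_b s3_pm_102_b

theorem c_pm_102_b : CertNX 536870912 536870912 1239849684 370763052 1046898278 26843546 3 false true false .npp 1 0 2
    ndN1q1 ndN2q2b pcN0 Cut.none Ext.none :=
  certNX0 (fam := false) (s1 := true) (s2 := false) (a := 1) (b := 0) (c := 2) (cn := .npp) (n1 := ndN1q1) (n2 := ndN2q2b) (pc := pcN0) (cut := Cut.none) (xt := Ext.none) (P1 := 536870912) (W1 := 536870912) (P2 := 1239849684) (W2 := 370763052) (P3 := 1046898278) (W3 := 26843546) (N0 := 3)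
    rfl s4_pm_102_b

noncomputable def f_pm_112_a : ℕ → ℕ → ℕ → ℕ → Bool := onCell 536870912 536870912 0 420477299 1046898278 26843546
    (rowNX 3 0 false true false .dn 1 1 2 (qsf 536870912 536870912 0 420477299 1) ndN1q1 ndN2q2a pcN1 Cut.none Ext.none)

def k0_pm_112_a : ∃ t, chk3 f_pm_112_a t 1 1 1 = true :=
  ⟨(a (b (a (b (l 16400216) (l 16398760)) (b (l 16400216) (l 16398760))) (b (a (l 16554784) (l 16554784)) (a (b (c (l 16714568) (l 16712360)) (c (l 16229608) (l 16232768))) (l 1)))) (l 1)), by decide +kernel⟩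

theorem c_pm_112_a : CertNX 536870912 536870912 0 420477299 1046898278 26843546 3 false true false .dn 1 1 2
    ndN1q1 ndN2q2a pcN1 Cut.none Ext.none :=
  certNX0 (fam := false) (s1 := true) (s2 := false) (a := 1) (b := 1) (c := 2) (cn := .dn) (n1 := ndN1q1) (n2 := ndN2q2a) (pc := pcN1) (cut := Cut.none) (xt := Ext.none) (P1 := 536870912) (W1 := 536870912) (P2 := 0) (W2 := 420477299) (P3 := 1046898278) (W3 := 26843546) (N0 := 3)
    rfl k0_pm_112_a

noncomputable def f_pm_112_b : ℕ → ℕ → ℕ → ℕ → Bool := onCell 536870912 536870912 1239849684 370763052 1046898278 26843546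
    (rowNX 3 2 false true false .dn 1 1 2 (qsf 536870912 536870912 1239849684 370763052 1) ndN1q1 ndN2q2b pcN1 Cut.none Ext.none)

def k0_pm_112_b : ∃ t, chk3 f_pm_112_b t 1 1 1 = true :=
  ⟨(b (b (a (a (b (l 16555232) (l 16687352)) (b (l 16555232) (l 16750264))) (l 1)) (a (a (a (l 16764296) (l 16777216)) (l 16777216)) (a (a (l 16722368) (a (l 16428440) (l 1))) (l 1)))) (a (a (b (a (b (l 16699360) (l 16478656)) (l 16747560)) (a (a (c (b (l 16049784) (l 15428144)) (b (l 16024256) (l 15597872))) (b (l 16344568) (a (l 15842344) (l 15996000)))) (b (l 16621640) (a (l 16229656) (l 16498952))))) (a (b (l 16776792) (l 16706856)) (l 16773552))) (a (a (a (l 16777096) (l 16688800)) (a (l 16493752) (a (l 16314424) (l 16103528)))) (a (a (l 15520336) (l 15182568)) (b (l 1) (a (l 14720048) (a (l 14242328) (l 13952712)))))))), by decide +kernel⟩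

theorem c_pm_112_b : CertNX 536870912 536870912 1239849684 370763052 1046898278 26843546 3 false true false .dn 1 1 2
    ndN1q1 ndN2q2b pcN1 Cut.none Ext.none :=
  certNX2 (fam := false) (s1 := true) (s2 := false) (a := 1) (b := 1) (c := 2) (cn := .dn) (n1 := ndN1q1) (n2 := ndN2q2b) (pc := pcN1) (cut := Cut.none) (xt := Ext.none) (P1 := 536870912) (W1 := 536870912) (P2 := 1239849684) (W2 := 370763052) (P3 := 1046898278) (W3 := 26843546) (N0 := 3)
    rfl (fun _ => rfl) k0_pm_112_b

noncomputable def f_pm_113 : ℕ → ℕ → ℕ → ℕ → Bool := onCell 536870912 536870912 536870912 536870912 1046898278 26843546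
    (rowNX 3 1 false true false .nn 1 1 3 (qsf 536870912 536870912 1610612736 469762048 1) ndN1q1 ndN2q3 pcN1 Cut.none Ext.none)

def k0_pm_113 : ∃ t, chk3 f_pm_113 t 1 1 1 = true :=
  ⟨(b (a (b (l 1) (l 262026559495)) (a (b (a (l 1) (l 16647760)) (l 16572752)) (b (a (l 16169936) (c (b (a (l 15726584) (l 15439536)) (a (l 15726584) (l 15439536))) (b (l 15519272) (l 15540240)))) (a (l 16169936) (b (c (l 15582184) (l 15540240)) (l 15561248)))))) (b (a (b (a (l 1) (l 16739608)) (b (l 88079865671) (a (l 16216904) (l 16366712)))) (a (b (a (l 16731888) (l 16622520)) (a (l 16501296) (l 16427912))) (b (a (l 16150056) (b (l 15561216) (l 15533976))) (a (l 16000336) (b (l 15482192) (b (l 15442936) (l 15347920))))))) (a (a (b (l 190619712695) (b (l 14858784) (a (l 14253816) (l 14441264)))) (b (a (l 15760328) (l 15866400)) (a (b (l 15122408) (l 14664832)) (b (l 15274312) (l 14860032))))) (a (b (a (l 15912808) (l 15870184)) (a (l 15150560) (l 15143760))) (b (a (l 15516360) (a (l 15161680) (b (l 15055240)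 (l 14860760)))) (b (a (l 15038728) (a (l 14816536) (b (l 14778296) (b (l 14778184) (l 14805448))))) (a (l 14704456) (a (l 14667632) (a (l 14900376) (l 2)))))))))), by decide +kernel⟩

theorem c_pm_113 : CertNX 536870912 536870912 1610612736 469762048 1046898278 26843546 3 false true false .nn 1 1 3
    ndN1q1 ndN2q3 pcN1 Cut.none Ext.none :=
  certNX1 (fam := false) (s1 := true) (s2 := false) (a := 1) (b := 1) (c := 3) (cn := .nn) (n1 := ndN1q1) (n2 := ndN2q3) (pc := pcN1) (cut := Cut.none) (xt := Ext.none) (P1 := 536870912) (W1 := 536870912) (P2 := 1610612736) (W2 := 469762048) (P3 := 1046898278) (W3 := 26843546) (N0 := 3)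
    rfl (fun _ => rfl) k0_pm_113

noncomputable def f_pm_123 : ℕ → ℕ → ℕ → ℕ → Bool := onCell 1073741824 536870912 1610612736 469762048 1046898278 26843546
    (rowNX 3 2 false true false .npn 1 2 3 (qsf 536870912 536870912 1610612736 469762048 2) ndN1q1 ndN2q3 pcN2 Cut.none Ext.none)

def k0_pm_123 : ∃ t, chk3 f_pm_123 t 1 1 1 = true :=
  ⟨(b (a (a (a (b (c (a (l 14057448) (l 14044048)) (a (c (l 13989064) (l 13936760)) (l 14125096))) (a (c (l 14401536) (b (l 14202336) (l 14409840))) (c (l 14505536) (l 14427440)))) (a (c (b (l 14144152) (l 14601800)) (l 140688460631)) (l 153036463319))) (a (a (a (l 14443952) (l 14703608)) (l 202967235079)) (a (l 243771068807) (l 16190096)))) (l 1)) (a (a (b (a (b (a (l 14599880) (c (l 14759408) (l 14688824))) (l 14776992)) (a (b (l 14806624) (l 14893712)) (l 14657344))) (a (b (a (l 14852528) (l 14883200)) (a (l 14885144) (l 14932040))) (b (l 14808264) (a (l 14901144) (l 14679848))))) (a (a (a (b (l 14533464) (l 14513856)) (b (l 14757840) (l 14736200)))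 (b (l 15394656) (l 15228232))) (a (b (l 16098336) (b (l 16278088) (l 16307712))) (b (l 16442136) (l 16664888))))) (a (a (b (l 16574552) (l 16666592)) (b (l 16768816) (l 16742920))) (a (l 212097788327) (l 222835426759))))), by decide +kernel⟩

theorem c_pm_123 : CertNX 536870912 536870912 1610612736 469762048 1046898278 26843546 3 false true false .npn 1 2 3
    ndN1q1 ndN2q3 pcN2 Cut.none Ext.none :=
  certNX2 (fam := false) (s1 := true) (s2 := false) (a := 1) (b := 2) (c := 3) (cn := .npn) (n1 := ndN1q1) (n2 := ndN2q3) (pc := pcN2) (cut := Cut.none) (xt := Ext.none) (P1 := 536870912) (W1 := 536870912) (P2 := 1610612736) (W2 := 469762048) (P3 := 1046898278) (W3 := 26843546) (N0 := 3)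
    rfl (fun _ => rfl) k0_pm_123

noncomputable def f_pm_133 : ℕ → ℕ → ℕ → ℕ → Bool := onCell 536870912 536870912 1610612736 469762048 1046898278 26843546
    (rowNX 3 0 false true false .dn 1 3 3 (qsf 536870912 536870912 1610612736 469762048 3) ndN1q1 ndN2q3 pcN3 Cut.none Ext.none)

def k0_pm_133 : ∃ t, chk3 f_pm_133 t 1 1 1 = true :=
  ⟨(l 1), by decide +kernel⟩

theorem c_pm_133 : CertNX 536870912 536870912 1610612736 469762048 1046898278 26843546 3 false true false .dn 1 3 3
    ndN1q1 ndN2q3 pcN3 Cut.none Ext.none :=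
  certNX0 (fam := false) (s1 := true) (s2 := false) (a := 1) (b := 3) (c := 3) (cn := .dn) (n1 := ndN1q1) (n2 := ndN2q3) (pc := pcN3) (cut := Cut.none) (xt := Ext.none) (P1 := 536870912) (W1 := 536870912) (P2 := 1610612736) (W2 := 469762048) (P3 := 1046898278) (W3 := 26843546) (N0 := 3)
    rfl k0_pm_133

noncomputable def f_pm_202_aa : ℕ → ℕ → ℕ → ℕ → Bool := onCell 0 420477299 0 420477299 1046898278 26843546
    (rowNX 3 0 false true false .pp 2 0 2 (qsf 0 420477299 0 420477299 0) ndN1q2a ndN2q2a pcN0 Cut.none Ext.none)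

def k0_pm_202_aa : ∃ t, chk3 f_pm_202_aa t 1 1 1 = true :=
  ⟨(l 3), by decide +kernel⟩

theorem c_pm_202_aa : CertNX 0 420477299 0 420477299 1046898278 26843546 3 false true false .pp 2 0 2
    ndN1q2a ndN2q2a pcN0 Cut.none Ext.none :=
  certNX0 (fam := false) (s1 := true) (s2 := false) (a := 2) (b := 0) (c := 2) (cn := .pp) (n1 := ndN1q2a) (n2 := ndN2q2a) (pc := pcN0) (cut := Cut.none) (xt := Ext.none) (P1 := 0) (W1 := 420477299) (P2 := 0) (W2 := 420477299) (P3 := 1046898278) (W3 := 26843546) (N0 := 3)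
    rfl k0_pm_202_aa

noncomputable def f_pm_202_ab : ℕ → ℕ → ℕ → ℕ → Bool := onCell 0 420477299 1239849684 370763052 1046898278 26843546
    (rowNX 3 0 false true false .pp 2 0 2 (qsf 0 420477299 1239849684 370763052 0) ndN1q2a ndN2q2b pcN0 Cut.none Ext.none)

def k0_pm_202_ab : ∃ t, chk3 f_pm_202_ab t 1 1 1 = true :=
  ⟨(l 3), by decide +kernel⟩

theorem c_pm_202_ab : CertNX 0 420477299 1239849684 370763052 1046898278 26843546 3 false true false .pp 2 0 2
    ndN1q2a ndN2q2b pcN0 Cut.none Ext.none :=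
  certNX0 (fam := false) (s1 := true) (s2 := false) (a := 2) (b := 0) (c := 2) (cn := .pp) (n1 := ndN1q2a) (n2 := ndN2q2b) (pc := pcN0) (cut := Cut.none) (xt := Ext.none) (P1 := 0) (W1 := 420477299) (P2 := 1239849684) (W2 := 370763052) (P3 := 1046898278) (W3 := 26843546) (N0 := 3)
    rfl k0_pm_202_ab

noncomputable def f_pm_202_ba : ℕ → ℕ → ℕ → ℕ → Bool := onCell 1239849684 370763052 0 420477299 1046898278 26843546
    (rowNX 3 0 false true false .pp 2 0 2 (qsf 1239849684 370763052 0 420477299 0) ndN1q2b ndN2q2a pcN0 Cut.none Ext.none)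

def k0_pm_202_ba : ∃ t, chk3 f_pm_202_ba t 1 1 1 = true :=
  ⟨(l 3), by decide +kernel⟩

theorem c_pm_202_ba : CertNX 1239849684 370763052 0 420477299 1046898278 26843546 3 false true false .pp 2 0 2
    ndN1q2b ndN2q2a pcN0 Cut.none Ext.none :=
  certNX0 (fam := false) (s1 := true) (s2 := false) (a := 2) (b := 0) (c := 2) (cn := .pp) (n1 := ndN1q2b) (n2 := ndN2q2a) (pc := pcN0) (cut := Cut.none) (xt := Ext.none) (P1 := 1239849684) (W1 := 370763052) (P2 := 0) (W2 := 420477299) (P3 := 1046898278) (W3 := 26843546) (N0 := 3)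
    rfl k0_pm_202_ba

noncomputable def f_pm_202_bb : ℕ → ℕ → ℕ → ℕ → Bool := onCell 1239849684 370763052 1239849684 370763052 1046898278 26843546
    (rowNX 3 0 false true false .pp 2 0 2 (qsf 1239849684 370763052 1239849684 370763052 0) ndN1q2b ndN2q2b pcN0 Cut.none Ext.none)

def k0_pm_202_bb : ∃ t, chk3 f_pm_202_bb t 1 1 1 = true :=
  ⟨(l 3), by decide +kernel⟩

theorem c_pm_202_bb : CertNX 1239849684 370763052 1239849684 370763052 1046898278 26843546 3 false true false .pp 2 0 2
    ndN1q2b ndN2q2b pcN0 Cut.none Ext.none :=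
  certNX0 (fam := false) (s1 := true) (s2 := false) (a := 2) (b := 0) (c := 2) (cn := .pp) (n1 := ndN1q2b) (n2 := ndN2q2b) (pc := pcN0) (cut := Cut.none) (xt := Ext.none) (P1 := 1239849684) (W1 := 370763052) (P2 := 1239849684) (W2 := 370763052) (P3 := 1046898278) (W3 := 26843546) (N0 := 3)
    rfl k0_pm_202_bb

noncomputable def f_pm_203_a : ℕ → ℕ → ℕ → ℕ → Bool := onCell 0 420477299 1610612736 469762048 1046898278 26843546
    (rowNX 3 0 false true false .up 2 0 3 (qsf 0 420477299 1610612736 469762048 0) ndN1q2a ndN2q3 pcN0 Cut.none Ext.none)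

def k0_pm_203_a : ∃ t, chk3 f_pm_203_a t 1 1 1 = true :=
  ⟨(l 3), by decide +kernel⟩

theorem c_pm_203_a : CertNX 0 420477299 1610612736 469762048 1046898278 26843546 3 false true false .up 2 0 3
    ndN1q2a ndN2q3 pcN0 Cut.none Ext.none :=
  certNX0 (fam := false) (s1 := true) (s2 := false) (a := 2) (b := 0) (c := 3) (cn := .up) (n1 := ndN1q2a) (n2 := ndN2q3) (pc := pcN0) (cut := Cut.none) (xt := Ext.none) (P1 := 0) (W1 := 420477299) (P2 := 1610612736) (W2 := 469762048) (P3 := 1046898278) (W3 := 26843546) (N0 := 3)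
    rfl k0_pm_203_a

noncomputable def f_pm_203_b : ℕ → ℕ → ℕ → ℕ → Bool := onCell 1239849684 370763052 1610612736 469762048 1046898278 26843546
    (rowNX 3 0 false true false .up 2 0 3 (qsf 1239849684 370763052 1610612736 469762048 0) ndN1q2b ndN2q3 pcN0 Cut.none Ext.none)

def k0_pm_203_b : ∃ t, chk3 f_pm_203_b t 1 1 1 = true :=
  ⟨(l 3), by decide +kernel⟩

theorem c_pm_203_b : CertNX 1239849684 370763052 1610612736 469762048 1046898278 26843546 3 false true false .up 2 0 3
    ndN1q2b ndN2q3 pcN0 Cut.none Ext.none :=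
  certNX0 (fam := false) (s1 := true) (s2 := false) (a := 2) (b := 0) (c := 3) (cn := .up) (n1 := ndN1q2b) (n2 := ndN2q3) (pc := pcN0) (cut := Cut.none) (xt := Ext.none) (P1 := 1239849684) (W1 := 370763052) (P2 := 1610612736) (W2 := 469762048) (P3 := 1046898278) (W3 := 26843546) (N0 := 3)
    rfl k0_pm_203_b

noncomputable def f_pm_213_a : ℕ → ℕ → ℕ → ℕ → Bool := onCell 0 420477299 1610612736 469762048 1046898278 26843546
    (rowNX 3 0 false true false .pnn 2 1 3 (qsf 0 420477299 1610612736 469762048 1) ndN1q2a ndN2q3 pcN1 Cut.none Ext.none)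

def k0_pm_213_a : ∃ t, chk3 f_pm_213_a t 1 1 1 = true :=
  ⟨(l 3), by decide +kernel⟩

theorem c_pm_213_a : CertNX 0 420477299 1610612736 469762048 1046898278 26843546 3 false true false .pnn 2 1 3
    ndN1q2a ndN2q3 pcN1 Cut.none Ext.none :=
  certNX0 (fam := false) (s1 := true) (s2 := false) (a := 2) (b := 1) (c := 3) (cn := .pnn) (n1 := ndN1q2a) (n2 := ndN2q3) (pc := pcN1) (cut := Cut.none) (xt := Ext.none) (P1 := 0) (W1 := 420477299) (P2 := 1610612736) (W2 := 469762048) (P3 := 1046898278) (W3 := 26843546) (N0 := 3)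
    rfl k0_pm_213_a

noncomputable def f_pm_213_b : ℕ → ℕ → ℕ → ℕ → Bool := onCell 1239849684 370763052 1610612736 469762048 1046898278 26843546
    (rowNX 3 0 false true false .pnn 2 1 3 (qsf 1239849684 370763052 1610612736 469762048 1) ndN1q2b ndN2q3 pcN1 Cut.none Ext.none)

def k0_pm_213_b : ∃ t, chk3 f_pm_213_b t 1 1 1 = true :=
  ⟨(l 3), by decide +kernel⟩

theorem c_pm_213_b : CertNX 1239849684 370763052 1610612736 469762048 1046898278 26843546 3 false true false .pnn 2 1 3
    ndN1q2b ndN2q3 pcN1 Cut.none Ext.none :=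
  certNX0 (fam := false) (s1 := true) (s2 := false) (a := 2) (b := 1) (c := 3) (cn := .pnn) (n1 := ndN1q2b) (n2 := ndN2q3) (pc := pcN1) (cut := Cut.none) (xt := Ext.none) (P1 := 1239849684) (W1 := 370763052) (P2 := 1610612736) (W2 := 469762048) (P3 := 1046898278) (W3 := 26843546) (N0 := 3)
    rfl k0_pm_213_b

noncomputable def f_pm_303 : ℕ → ℕ → ℕ → ℕ → Bool := onCell 1610612736 469762048 1610612736 469762048 1046898278 26843546
    (rowNX 3 0 false true false .npn 3 0 3 (qsf 1610612736 469762048 1610612736 469762048 0) ndN1q3 ndN2q3 pcN0 Cut.none Ext.none)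

def k0_pm_303 : ∃ t, chk3 f_pm_303 t 1 1 1 = true :=
  ⟨(l 3), by decide +kernel⟩

theorem c_pm_303 : CertNX 1610612736 469762048 1610612736 469762048 1046898278 26843546 3 false true false .npn 3 0 3
    ndN1q3 ndN2q3 pcN0 Cut.none Ext.none :=
  certNX0 (fam := false) (s1 := true) (s2 := false) (a := 3) (b := 0) (c := 3) (cn := .npn) (n1 := ndN1q3) (n2 := ndN2q3) (pc := pcN0) (cut := Cut.none) (xt := Ext.none) (P1 := 1610612736) (W1 := 469762048) (P2 := 1610612736) (W2 := 469762048) (P3 := 1046898278) (W3 := 26843546) (N0 := 3)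
    rfl k0_pm_303

noncomputable def f_pm_313 : ℕ → ℕ → ℕ → ℕ → Bool := onCell 1610612736 469762048 1610612736 469762048 1046898278 26843546
    (rowNX 3 0 false true false .dn 3 1 3 (qsf 1610612736 469762048 1610612736 469762048 1) ndN1q3 ndN2q3 pcN1 Cut.none Ext.none)

def k0_pm_313 : ∃ t, chk3 f_pm_313 t 1 1 1 = true :=
  ⟨(l 1), by decide +kernel⟩

theorem c_pm_313 : CertNX 1610612736 469762048 1610612736 469762048 1046898278 26843546 3 false true false .dn 3 1 3
    ndN1q3 ndN2q3 pcN1 Cut.none Ext.none :=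
  certNX0 (fam := false) (s1 := true) (s2 := false) (a := 3) (b := 1) (c := 3) (cn := .dn) (n1 := ndN1q3) (n2 := ndN2q3) (pc := pcN1) (cut := Cut.none) (xt := Ext.none) (P1 := 1610612736) (W1 := 469762048) (P2 := 1610612736) (W2 := 469762048) (P3 := 1046898278) (W3 := 26843546) (N0 := 3)
    rfl k0_pm_313

noncomputable def f_mm_001 : ℕ → ℕ → ℕ → ℕ → Bool := onCell 67108864 469762048 536870912 536870912 1046898278 26843546
    (rowNX 3 0 false false false .up 0 0 1 (qsf 67108864 469762048 536870912 536870912 0) ndN1q0 ndN2q1 pcN0 Cut.none Ext.none)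

def k0_mm_001 : ∃ t, chk3 f_mm_001 t 1 1 1 = true :=
  ⟨(l 3), by decide +kernel⟩

theorem c_mm_001 : CertNX 67108864 469762048 536870912 536870912 1046898278 26843546 3 false false false .up 0 0 1
    ndN1q0 ndN2q1 pcN0 Cut.none Ext.none :=
  certNX0 (fam := false) (s1 := false) (s2 := false) (a := 0) (b := 0) (c := 1) (cn := .up) (n1 := ndN1q0) (n2 := ndN2q1) (pc := pcN0) (cut := Cut.none) (xt := Ext.none) (P1 := 67108864) (W1 := 469762048) (P2 := 536870912) (W2 := 536870912) (P3 := 1046898278) (W3 := 26843546) (N0 := 3)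
    rfl k0_mm_001

noncomputable def f_mm_011 : ℕ → ℕ → ℕ → ℕ → Bool := onCell 67108864 469762048 536870912 536870912 1046898278 26843546
    (rowNX 3 0 false false false .pnn 0 1 1 (qsf 67108864 469762048 536870912 536870912 1) ndN1q0 ndN2q1 pcN1 Cut.none Ext.none)

def k0_mm_011 : ∃ t, chk3 f_mm_011 t 1 1 1 = true :=
  ⟨(l 3), by decide +kernel⟩

theorem c_mm_011 : CertNX 67108864 469762048 536870912 536870912 1046898278 26843546 3 false false false .pnn 0 1 1
    ndN1q0 ndN2q1 pcN1 Cut.none Ext.none :=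
  certNX0 (fam := false) (s1 := false) (s2 := false) (a := 0) (b := 1) (c := 1) (cn := .pnn) (n1 := ndN1q0) (n2 := ndN2q1) (pc := pcN1) (cut := Cut.none) (xt := Ext.none) (P1 := 67108864) (W1 := 469762048) (P2 := 536870912) (W2 := 536870912) (P3 := 1046898278) (W3 := 26843546) (N0 := 3)
    rfl k0_mm_011

noncomputable def f_mm_012_a : ℕ → ℕ → ℕ → ℕ → Bool := onCell 67108864 469762048 0 420477299 1046898278 26843546
    (rowNX 3 0 false false false .pnp 0 1 2 (qsf 67108864 469762048 0 420477299 1) ndN1q0 ndN2q2a pcN1 Cut.none Ext.none)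

def k0_mm_012_a : ∃ t, chk3 f_mm_012_a t 1 1 1 = true :=
  ⟨(l 5), by decide +kernel⟩

theorem c_mm_012_a : CertNX 67108864 469762048 0 420477299 1046898278 26843546 3 false false false .pnp 0 1 2
    ndN1q0 ndN2q2a pcN1 Cut.none Ext.none :=
  certNX0 (fam := false) (s1 := false) (s2 := false) (a := 0) (b := 1) (c := 2) (cn := .pnp) (n1 := ndN1q0) (n2 := ndN2q2a) (pc := pcN1) (cut := Cut.none) (xt := Ext.none) (P1 := 67108864) (W1 := 469762048) (P2 := 0) (W2 := 420477299) (P3 := 1046898278) (W3 := 26843546) (N0 := 3)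
    rfl k0_mm_012_a

noncomputable def f_mm_012_b : ℕ → ℕ → ℕ → ℕ → Bool := onCell 67108864 469762048 1239849684 370763052 1046898278 26843546
    (rowNX 3 0 false false false .pnp 0 1 2 (qsf 67108864 469762048 1239849684 370763052 1) ndN1q0 ndN2q2b pcN1 Cut.none Ext.none)

def k0_mm_012_b : ∃ t, chk3 f_mm_012_b t 1 1 1 = true :=
  ⟨(l 5), by decide +kernel⟩

theorem c_mm_012_b : CertNX 67108864 469762048 1239849684 370763052 1046898278 26843546 3 false false false .pnp 0 1 2
    ndN1q0 ndN2q2b pcN1 Cut.none Ext.none :=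
  certNX0 (fam := false) (s1 := false) (s2 := false) (a := 0) (b := 1) (c := 2) (cn := .pnp) (n1 := ndN1q0) (n2 := ndN2q2b) (pc := pcN1) (cut := Cut.none) (xt := Ext.none) (P1 := 67108864) (W1 := 469762048) (P2 := 1239849684) (W2 := 370763052) (P3 := 1046898278) (W3 := 26843546) (N0 := 3)
    rfl k0_mm_012_b

noncomputable def f_mm_022_a : ℕ → ℕ → ℕ → ℕ → Bool := onCell 67108864 469762048 0 420477299 1046898278 26843546
    (rowNX 3 0 false false false .pp 0 2 2 (qsf 67108864 469762048 0 420477299 2) ndN1q0 ndN2q2a pcN2 Cut.none Ext.none)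

def k0_mm_022_a : ∃ t, chk3 f_mm_022_a t 1 1 1 = true :=
  ⟨(l 5), by decide +kernel⟩

theorem c_mm_022_a : CertNX 67108864 469762048 0 420477299 1046898278 26843546 3 false false false .pp 0 2 2
    ndN1q0 ndN2q2a pcN2 Cut.none Ext.none :=
  certNX0 (fam := false) (s1 := false) (s2 := false) (a := 0) (b := 2) (c := 2) (cn := .pp) (n1 := ndN1q0) (n2 := ndN2q2a) (pc := pcN2) (cut := Cut.none) (xt := Ext.none) (P1 := 67108864) (W1 := 469762048) (P2 := 0) (W2 := 420477299) (P3 := 1046898278) (W3 := 26843546) (N0 := 3)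
    rfl k0_mm_022_a

noncomputable def f_mm_022_b : ℕ → ℕ → ℕ → ℕ → Bool := onCell 67108864 469762048 1239849684 370763052 1046898278 26843546
    (rowNX 3 0 false false false .pp 0 2 2 (qsf 67108864 469762048 1239849684 370763052 2) ndN1q0 ndN2q2b pcN2 Cut.none Ext.none)

def k0_mm_022_b : ∃ t, chk3 f_mm_022_b t 1 1 1 = true :=
  ⟨(l 5), by decide +kernel⟩

theorem c_mm_022_b : CertNX 67108864 469762048 1239849684 370763052 1046898278 26843546 3 false false false .pp 0 2 2
    ndN1q0 ndN2q2b pcN2 Cut.none Ext.none :=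
  certNX0 (fam := false) (s1 := false) (s2 := false) (a := 0) (b := 2) (c := 2) (cn := .pp) (n1 := ndN1q0) (n2 := ndN2q2b) (pc := pcN2) (cut := Cut.none) (xt := Ext.none) (P1 := 67108864) (W1 := 469762048) (P2 := 1239849684) (W2 := 370763052) (P3 := 1046898278) (W3 := 26843546) (N0 := 3)
    rfl k0_mm_022_b

noncomputable def f_mm_023 : ℕ → ℕ → ℕ → ℕ → Bool := onCell 67108864 469762048 1610612736 469762048 1046898278 26843546
    (rowNX 3 0 false false false .up 0 2 3 (qsf 67108864 469762048 1610612736 469762048 2) ndN1q0 ndN2q3 pcN2 Cut.none Ext.none)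

def k0_mm_023 : ∃ t, chk3 f_mm_023 t 1 1 1 = true :=
  ⟨(l 5), by decide +kernel⟩

theorem c_mm_023 : CertNX 67108864 469762048 1610612736 469762048 1046898278 26843546 3 false false false .up 0 2 3
    ndN1q0 ndN2q3 pcN2 Cut.none Ext.none :=
  certNX0 (fam := false) (s1 := false) (s2 := false) (a := 0) (b := 2) (c := 3) (cn := .up) (n1 := ndN1q0) (n2 := ndN2q3) (pc := pcN2) (cut := Cut.none) (xt := Ext.none) (P1 := 67108864) (W1 := 469762048) (P2 := 1610612736) (W2 := 469762048) (P3 := 1046898278) (W3 := 26843546) (N0 := 3)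
    rfl k0_mm_023

noncomputable def f_mm_033 : ℕ → ℕ → ℕ → ℕ → Bool := onCell 67108864 469762048 1610612736 469762048 1046898278 26843546
    (rowNX 3 0 false false false .pnn 0 3 3 (qsf 67108864 469762048 1610612736 469762048 3) ndN1q0 ndN2q3 pcN3 Cut.none Ext.none)

def k0_mm_033 : ∃ t, chk3 f_mm_033 t 1 1 1 = true :=
  ⟨(l 5), by decide +kernel⟩

theorem c_mm_033 : CertNX 67108864 469762048 1610612736 469762048 1046898278 26843546 3 false false false .pnn 0 3 3
    ndN1q0 ndN2q3 pcN3 Cut.none Ext.none :=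
  certNX0 (fam := false) (s1 := false) (s2 := false) (a := 0) (b := 3) (c := 3) (cn := .pnn) (n1 := ndN1q0) (n2 := ndN2q3) (pc := pcN3) (cut := Cut.none) (xt := Ext.none) (P1 := 67108864) (W1 := 469762048) (P2 := 1610612736) (W2 := 469762048) (P3 := 1046898278) (W3 := 26843546) (N0 := 3)
    rfl k0_mm_033

noncomputable def f_mm_101 : ℕ → ℕ → ℕ → ℕ → Bool := onCell 536870912 536870912 536870912 536870912 1046898278 26843546
    (rowNX 3 0 false false false .npn 1 0 1 (qsf 536870912 536870912 536870912 536870912 0) ndN1q1 ndN2q1 pcN0 Cut.none Ext.none)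

def k0_mm_101 : ∃ t, chk3 f_mm_101 t 1 1 1 = true :=
  ⟨(l 3), by decide +kernel⟩

theorem c_mm_101 : CertNX 536870912 536870912 536870912 536870912 1046898278 26843546 3 false false false .npn 1 0 1
    ndN1q1 ndN2q1 pcN0 Cut.none Ext.none :=
  certNX0 (fam := false) (s1 := false) (s2 := false) (a := 1) (b := 0) (c := 1) (cn := .npn) (n1 := ndN1q1) (n2 := ndN2q1) (pc := pcN0) (cut := Cut.none) (xt := Ext.none) (P1 := 536870912) (W1 := 536870912) (P2 := 536870912) (W2 := 536870912) (P3 := 1046898278) (W3 := 26843546) (N0 := 3)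
    rfl k0_mm_101

noncomputable def f_mm_102_a : ℕ → ℕ → ℕ → ℕ → Bool := onCell 536870912 536870912 0 420477299 1046898278 26843546
    (rowNX 3 0 false false false .npp 1 0 2 (qsf 536870912 536870912 0 420477299 0) ndN1q1 ndN2q2a pcN0 Cut.none Ext.none)

def k0_mm_102_a : ∃ t, chk3 f_mm_102_a t 1 1 1 = true :=
  ⟨(l 3), by decide +kernel⟩

theorem c_mm_102_a : CertNX 536870912 536870912 0 420477299 1046898278 26843546 3 false false false .npp 1 0 2
    ndN1q1 ndN2q2a pcN0 Cut.none Ext.none :=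
  certNX0 (fam := false) (s1 := false) (s2 := false) (a := 1) (b := 0) (c := 2) (cn := .npp) (n1 := ndN1q1) (n2 := ndN2q2a) (pc := pcN0) (cut := Cut.none) (xt := Ext.none) (P1 := 536870912) (W1 := 536870912) (P2 := 0) (W2 := 420477299) (P3 := 1046898278) (W3 := 26843546) (N0 := 3)
    rfl k0_mm_102_a

noncomputable def f_mm_102_b : ℕ → ℕ → ℕ → ℕ → Bool := onCell 536870912 536870912 1239849684 370763052 1046898278 26843546
    (rowNX 3 0 false false false .npp 1 0 2 (qsf 536870912 536870912 1239849684 370763052 0) ndN1q1 ndN2q2b pcN0 Cut.none Ext.none)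

def k0_mm_102_b : ∃ t, chk3 f_mm_102_b t 1 1 1 = true :=
  ⟨(l 5), by decide +kernel⟩

theorem c_mm_102_b : CertNX 536870912 536870912 1239849684 370763052 1046898278 26843546 3 false false false .npp 1 0 2
    ndN1q1 ndN2q2b pcN0 Cut.none Ext.none :=
  certNX0 (fam := false) (s1 := false) (s2 := false) (a := 1) (b := 0) (c := 2) (cn := .npp) (n1 := ndN1q1) (n2 := ndN2q2b) (pc := pcN0) (cut := Cut.none) (xt := Ext.none) (P1 := 536870912) (W1 := 536870912) (P2 := 1239849684) (W2 := 370763052) (P3 := 1046898278) (W3 := 26843546) (N0 := 3)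
    rfl k0_mm_102_b

noncomputable def f_mm_112_a : ℕ → ℕ → ℕ → ℕ → Bool := onCell 536870912 536870912 0 420477299 1046898278 26843546
    (rowNX 3 0 false false false .dn 1 1 2 (qsf 536870912 536870912 0 420477299 1) ndN1q1 ndN2q2a pcN1 Cut.none Ext.none)

def k0_mm_112_a : ∃ t, chk3 f_mm_112_a t 1 1 1 = true :=
  ⟨(l 3), by decide +kernel⟩

theorem c_mm_112_a : CertNX 536870912 536870912 0 420477299 1046898278 26843546 3 false false false .dn 1 1 2
    ndN1q1 ndN2q2a pcN1 Cut.none Ext.none :=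
  certNX0 (fam := false) (s1 := false) (s2 := false) (a := 1) (b := 1) (c := 2) (cn := .dn) (n1 := ndN1q1) (n2 := ndN2q2a) (pc := pcN1) (cut := Cut.none) (xt := Ext.none) (P1 := 536870912) (W1 := 536870912) (P2 := 0) (W2 := 420477299) (P3 := 1046898278) (W3 := 26843546) (N0 := 3)
    rfl k0_mm_112_a

noncomputable def f_mm_112_b : ℕ → ℕ → ℕ → ℕ → Bool := onCell 536870912 536870912 1239849684 370763052 1046898278 26843546
    (rowNX 3 0 false false false .dn 1 1 2 (qsf 536870912 536870912 1239849684 370763052 1) ndN1q1 ndN2q2b pcN1 Cut.none Ext.none)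

def k0_mm_112_b : ∃ t, chk3 f_mm_112_b t 1 1 1 = true :=
  ⟨(l 5), by decide +kernel⟩

theorem c_mm_112_b : CertNX 536870912 536870912 1239849684 370763052 1046898278 26843546 3 false false false .dn 1 1 2
    ndN1q1 ndN2q2b pcN1 Cut.none Ext.none :=
  certNX0 (fam := false) (s1 := false) (s2 := false) (a := 1) (b := 1) (c := 2) (cn := .dn) (n1 := ndN1q1) (n2 := ndN2q2b) (pc := pcN1) (cut := Cut.none) (xt := Ext.none) (P1 := 536870912) (W1 := 536870912) (P2 := 1239849684) (W2 := 370763052) (P3 := 1046898278) (W3 := 26843546) (N0 := 3)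
    rfl k0_mm_112_b

noncomputable def f_mm_113 : ℕ → ℕ → ℕ → ℕ → Bool := onCell 536870912 536870912 1610612736 469762048 1046898278 26843546
    (rowNX 3 0 false false false .nn 1 1 3 (qsf 536870912 536870912 1610612736 469762048 1) ndN1q1 ndN2q3 pcN1 Cut.none Ext.none)

def k0_mm_113 : ∃ t, chk3 f_mm_113 t 1 1 1 = true :=
  ⟨(l 5), by decide +kernel⟩

theorem c_mm_113 : CertNX 536870912 536870912 1610612736 469762048 1046898278 26843546 3 false false false .nn 1 1 3
    ndN1q1 ndN2q3 pcN1 Cut.none Ext.none :=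
  certNX0 (fam := false) (s1 := false) (s2 := false) (a := 1) (b := 1) (c := 3) (cn := .nn) (n1 := ndN1q1) (n2 := ndN2q3) (pc := pcN1) (cut := Cut.none) (xt := Ext.none) (P1 := 536870912) (W1 := 536870912) (P2 := 1610612736) (W2 := 469762048) (P3 := 1046898278) (W3 := 26843546) (N0 := 3)
    rfl k0_mm_113

noncomputable def f_mm_123 : ℕ → ℕ → ℕ → ℕ → Bool := onCell 536870912 536870912 1610612736 469762048 1046898278 26843546
    (rowNX 3 0 false false false .npn 1 2 3 (qsf 536870912 536870912 1610612736 469762048 2) ndN1q1 ndN2q3 pcN2 Cut.none Ext.none)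

def k0_mm_123 : ∃ t, chk3 f_mm_123 t 1 1 1 = true :=
  ⟨(l 5), by decide +kernel⟩

theorem c_mm_123 : CertNX 536870912 536870912 1610612736 469762048 1046898278 26843546 3 false false false .npn 1 2 3
    ndN1q1 ndN2q3 pcN2 Cut.none Ext.none :=
  certNX0 (fam := false) (s1 := false) (s2 := false) (a := 1) (b := 2) (c := 3) (cn := .npn) (n1 := ndN1q1) (n2 := ndN2q3) (pc := pcN2) (cut := Cut.none) (xt := Ext.none) (P1 := 536870912) (W1 := 536870912) (P2 := 1610612736) (W2 := 469762048) (P3 := 1046898278) (W3 := 26843546) (N0 := 3)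
    rfl k0_mm_123

noncomputable def f_mm_133 : ℕ → ℕ → ℕ → ℕ → Bool := onCell 536870912 536870912 1610612736 469762048 1046898278 26843546
    (rowNX 3 0 false false false .dn 1 3 3 (qsf 536870912 536870912 1610612736 469762048 3) ndN1q1 ndN2q3 pcN3 Cut.none Ext.none)

def k0_mm_133 : ∃ t, chk3 f_mm_133 t 1 1 1 = true :=
  ⟨(l 1), by decide +kernel⟩

theorem c_mm_133 : CertNX 536870912 536870912 1610612736 469762048 1046898278 26843546 3 false false false .dn 1 3 3
    ndN1q1 ndN2q3 pcN3 Cut.none Ext.none :=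
  certNX0 (fam := false) (s1 := false) (s2 := false) (a := 1) (b := 3) (c := 3) (cn := .dn) (n1 := ndN1q1) (n2 := ndN2q3) (pc := pcN3) (cut := Cut.none) (xt := Ext.none) (P1 := 536870912) (W1 := 536870912) (P2 := 1610612736) (W2 := 469762048) (P3 := 1046898278) (W3 := 26843546) (N0 := 3)
    rfl k0_mm_133

noncomputable def f_mm_202_aa : ℕ → ℕ → ℕ → ℕ → Bool := onCell 0 420477299 0 420477299 1046898278 26843546
    (rowNX 3 0 false false false .pp 2 0 2 (qsf 0 420477299 0 420477299 0) ndN1q2a ndN2q2a pcN0 Cut.none Ext.none)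

def k0_mm_202_aa : ∃ t, chk3 f_mm_202_aa t 1 1 1 = true :=
  ⟨(l 3), by decide +kernel⟩

theorem c_mm_202_aa : CertNX 0 420477299 0 420477299 1046898278 26843546 3 false false false .pp 2 0 2
    ndN1q2a ndN2q2a pcN0 Cut.none Ext.none :=
  certNX0 (fam := false) (s1 := false) (s2 := false) (a := 2) (b := 0) (c := 2) (cn := .pp) (n1 := ndN1q2a) (n2 := ndN2q2a) (pc := pcN0) (cut := Cut.none) (xt := Ext.none) (P1 := 0) (W1 := 420477299) (P2 := 0) (W2 := 420477299) (P3 := 1046898278) (W3 := 26843546) (N0 := 3)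
    rfl k0_mm_202_aa

noncomputable def f_mm_202_ab : ℕ → ℕ → ℕ → ℕ → Bool := onCell 0 420477299 1239849684 370763052 1046898278 26843546
    (rowNX 3 0 false false false .pp 2 0 2 (qsf 0 420477299 1239849684 370763052 0) ndN1q2a ndN2q2b pcN0 Cut.none Ext.none)

def k0_mm_202_ab : ∃ t, chk3 f_mm_202_ab t 1 1 1 = true :=
  ⟨(l 3), by decide +kernel⟩

theorem c_mm_202_ab : CertNX 0 420477299 1239849684 370763052 1046898278 26843546 3 false false false .pp 2 0 2
    ndN1q2a ndN2q2b pcN0 Cut.none Ext.none :=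
  certNX0 (fam := false) (s1 := false) (s2 := false) (a := 2) (b := 0) (c := 2) (cn := .pp) (n1 := ndN1q2a) (n2 := ndN2q2b) (pc := pcN0) (cut := Cut.none) (xt := Ext.none) (P1 := 0) (W1 := 420477299) (P2 := 1239849684) (W2 := 370763052) (P3 := 1046898278) (W3 := 26843546) (N0 := 3)
    rfl k0_mm_202_ab

noncomputable def f_mm_202_ba : ℕ → ℕ → ℕ → ℕ → Bool := onCell 1239849684 370763052 0 420477299 1046898278 26843546
    (rowNX 3 0 false false false .pp 2 0 2 (qsf 1239849684 370763052 0 420477299 0) ndN1q2b ndN2q2a pcN0 Cut.none Ext.none)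

def k0_mm_202_ba : ∃ t, chk3 f_mm_202_ba t 1 1 1 = true :=
  ⟨(l 3), by decide +kernel⟩

theorem c_mm_202_ba : CertNX 1239849684 370763052 0 420477299 1046898278 26843546 3 false false false .pp 2 0 2
    ndN1q2b ndN2q2a pcN0 Cut.none Ext.none :=
  certNX0 (fam := false) (s1 := false) (s2 := false) (a := 2) (b := 0) (c := 2) (cn := .pp) (n1 := ndN1q2b) (n2 := ndN2q2a) (pc := pcN0) (cut := Cut.none) (xt := Ext.none) (P1 := 1239849684) (W1 := 370763052) (P2 := 0) (W2 := 420477299) (P3 := 1046898278) (W3 := 26843546) (N0 := 3)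
    rfl k0_mm_202_ba

noncomputable def f_mm_202_bb : ℕ → ℕ → ℕ → ℕ → Bool := onCell 1239849684 370763052 1239849684 370763052 1046898278 26843546
    (rowNX 3 0 false false false .pp 2 0 2 (qsf 1239849684 370763052 1239849684 370763052 0) ndN1q2b ndN2q2b pcN0 Cut.none Ext.none)

def k0_mm_202_bb : ∃ t, chk3 f_mm_202_bb t 1 1 1 = true :=
  ⟨(l 3), by decide +kernel⟩

theorem c_mm_202_bb : CertNX 1239849684 370763052 1239849684 370763052 1046898278 26843546 3 false false false .pp 2 0 2
    ndN1q2b ndN2q2b pcN0 Cut.none Ext.none :=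
  certNX0 (fam := false) (s1 := false) (s2 := false) (a := 2) (b := 0) (c := 2) (cn := .pp) (n1 := ndN1q2b) (n2 := ndN2q2b) (pc := pcN0) (cut := Cut.none) (xt := Ext.none) (P1 := 1239849684) (W1 := 370763052) (P2 := 1239849684) (W2 := 370763052) (P3 := 1046898278) (W3 := 26843546) (N0 := 3)
    rfl k0_mm_202_bb

noncomputable def f_mm_203_a : ℕ → ℕ → ℕ → ℕ → Bool := onCell 0 420477299 1610612736 469762048 1046898278 26843546
    (rowNX 3 0 false false false .up 2 0 3 (qsf 0 420477299 1610612736 469762048 0) ndN1q2a ndN2q3 pcN0 Cut.none Ext.none)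

def k0_mm_203_a : ∃ t, chk3 f_mm_203_a t 1 1 1 = true :=
  ⟨(l 3), by decide +kernel⟩

theorem c_mm_203_a : CertNX 0 420477299 1610612736 469762048 1046898278 26843546 3 false false false .up 2 0 3
    ndN1q2a ndN2q3 pcN0 Cut.none Ext.none :=
  certNX0 (fam := false) (s1 := false) (s2 := false) (a := 2) (b := 0) (c := 3) (cn := .up) (n1 := ndN1q2a) (n2 := ndN2q3) (pc := pcN0) (cut := Cut.none) (xt := Ext.none) (P1 := 0) (W1 := 420477299) (P2 := 1610612736) (W2 := 469762048) (P3 := 1046898278) (W3 := 26843546) (N0 := 3)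
    rfl k0_mm_203_a

noncomputable def f_mm_203_b : ℕ → ℕ → ℕ → ℕ → Bool := onCell 1239849684 370763052 1610612736 469762048 1046898278 26843546
    (rowNX 3 0 false false false .up 2 0 3 (qsf 1239849684 370763052 1610612736 469762048 0) ndN1q2b ndN2q3 pcN0 Cut.none Ext.none)

def k0_mm_203_b : ∃ t, chk3 f_mm_203_b t 1 1 1 = true :=
  ⟨(l 3), by decide +kernel⟩

theorem c_mm_203_b : CertNX 1239849684 370763052 1610612736 469762048 1046898278 26843546 3 false false false .up 2 0 3
    ndN1q2b ndN2q3 pcN0 Cut.none Ext.none :=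
  certNX0 (fam := false) (s1 := false) (s2 := false) (a := 2) (b := 0) (c := 3) (cn := .up) (n1 := ndN1q2b) (n2 := ndN2q3) (pc := pcN0) (cut := Cut.none) (xt := Ext.none) (P1 := 1239849684) (W1 := 370763052) (P2 := 1610612736) (W2 := 469762048) (P3 := 1046898278) (W3 := 26843546) (N0 := 3)
    rfl k0_mm_203_b

noncomputable def f_mm_213_a : ℕ → ℕ → ℕ → ℕ → Bool := onCell 0 420477299 1610612736 469762048 1046898278 26843546
    (rowNX 3 0 false false false .pnn 2 1 3 (qsf 0 420477299 1610612736 469762048 1) ndN1q2a ndN2q3 pcN1 Cut.none Ext.none)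

def k0_mm_213_a : ∃ t, chk3 f_mm_213_a t 1 1 1 = true :=
  ⟨(l 3), by decide +kernel⟩

theorem c_mm_213_a : CertNX 0 420477299 1610612736 469762048 1046898278 26843546 3 false false false .pnn 2 1 3
    ndN1q2a ndN2q3 pcN1 Cut.none Ext.none :=
  certNX0 (fam := false) (s1 := false) (s2 := false) (a := 2) (b := 1) (c := 3) (cn := .pnn) (n1 := ndN1q2a) (n2 := ndN2q3) (pc := pcN1) (cut := Cut.none) (xt := Ext.none) (P1 := 0) (W1 := 420477299) (P2 := 1610612736) (W2 := 469762048) (P3 := 1046898278) (W3 := 26843546) (N0 := 3)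
    rfl k0_mm_213_a

noncomputable def f_mm_213_b : ℕ → ℕ → ℕ → ℕ → Bool := onCell 1239849684 370763052 1610612736 469762048 1046898278 26843546
    (rowNX 3 0 false false false .pnn 2 1 3 (qsf 1239849684 370763052 1610612736 469762048 1) ndN1q2b ndN2q3 pcN1 Cut.none Ext.none)

def k0_mm_213_b : ∃ t, chk3 f_mm_213_b t 1 1 1 = true :=
  ⟨(l 3), by decide +kernel⟩

theorem c_mm_213_b : CertNX 1239849684 370763052 1610612736 469762048 1046898278 26843546 3 false false false .pnn 2 1 3
    ndN1q2b ndN2q3 pcN1 Cut.none Ext.none :=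
  certNX0 (fam := false) (s1 := false) (s2 := false) (a := 2) (b := 1) (c := 3) (cn := .pnn) (n1 := ndN1q2b) (n2 := ndN2q3) (pc := pcN1) (cut := Cut.none) (xt := Ext.none) (P1 := 1239849684) (W1 := 370763052) (P2 := 1610612736) (W2 := 469762048) (P3 := 1046898278) (W3 := 26843546) (N0 := 3)
    rfl k0_mm_213_b

noncomputable def f_mm_303 : ℕ → ℕ → ℕ → ℕ → Bool := onCell 1610612736 469762048 1610612736 469762048 1046898278 26843546
    (rowNX 3 0 false false false .npn 3 0 3 (qsf 1610612736 469762048 1610612736 469762048 0) ndN1q3 ndN2q3 pcN0 Cut.none Ext.none)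

def k0_mm_303 : ∃ t, chk3 f_mm_303 t 1 1 1 = true :=
  ⟨(l 3), by decide +kernel⟩

theorem c_mm_303 : CertNX 1610612736 469762048 1610612736 469762048 1046898278 26843546 3 false false false .npn 3 0 3
    ndN1q3 ndN2q3 pcN0 Cut.none Ext.none :=
  certNX0 (fam := false) (s1 := false) (s2 := false) (a := 3) (b := 0) (c := 3) (cn := .npn) (n1 := ndN1q3) (n2 := ndN2q3) (pc := pcN0) (cut := Cut.none) (xt := Ext.none) (P1 := 1610612736) (W1 := 469762048) (P2 := 1610612736) (W2 := 469762048) (P3 := 1046898278) (W3 := 26843546) (N0 := 3)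
    rfl k0_mm_303

noncomputable def f_mm_313 : ℕ → ℕ → ℕ → ℕ → Bool := onCell 1610612736 469762048 1610612736 469762048 1046898278 26843546
    (rowNX 3 0 false false false .dn 3 1 3 (qsf 1610612736 469762048 1610612736 469762048 1) ndN1q3 ndN2q3 pcN1 Cut.none Ext.none)

def k0_mm_313 : ∃ t, chk3 f_mm_313 t 1 1 1 = true :=
  ⟨(l 1), by decide +kernel⟩

theorem c_mm_313 : CertNX 1610612736 469762048 1610612736 469762048 1046898278 26843546 3 false false false .dn 3 1 3
    ndN1q3 ndN2q3 pcN1 Cut.none Ext.none :=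
  certNX0 (fam := false) (s1 := false) (s2 := false) (a := 3) (b := 1) (c := 3) (cn := .dn) (n1 := ndN1q3) (n2 := ndN2q3) (pc := pcN1) (cut := Cut.none) (xt := Ext.none) (P1 := 1610612736) (W1 := 469762048) (P2 := 1610612736) (W2 := 469762048) (P3 := 1046898278) (W3 := 26843546) (N0 := 3)
    rfl k0_mm_313

end Pool.Agent.Strip051.G.IE1.Tab.C.NB12

namespace Pool.Agent.Strip051.G.IE1.Tab.C.NB13

open Pool.Agent.Strip051.PB Pool.Agent.Strip051.PB.T
open Pool.Agent.Strip051.G.IE1.Tab

noncomputable def f_pp_001 : ℕ → ℕ → ℕ → ℕ → Bool := onCell 67108864 469762048 536870912 536870912 1046898278 26843546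
    (rowNX 3 0 false true true .up 0 0 1 (qsf 67108864 469762048 536870912 536870912 0) ndN1q0 ndN3q1 pcN0 Cut.none Ext.none)

def k0_pp_001 : ∃ t, chk3 f_pp_001 t 1 1 1 = true :=
  ⟨(l 3), by decide +kernel⟩

theorem c_pp_001 : CertNX 67108864 469762048 536870912 536870912 1046898278 26843546 3 false true true .up 0 0 1
    ndN1q0 ndN3q1 pcN0 Cut.none Ext.none :=
  certNX0 (fam := false) (s1 := true) (s2 := true) (a := 0) (b := 0) (c := 1) (cn := .up) (n1 := ndN1q0) (n2 := ndN3q1) (pc := pcN0) (cut := Cut.none) (xt := Ext.none) (P1 := 67108864) (W1 := 469762048) (P2 := 536870912) (W2 := 536870912) (P3 := 1046898278) (W3 := 26843546) (N0 := 3)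
    rfl k0_pp_001

noncomputable def f_pp_011 : ℕ → ℕ → ℕ → ℕ → Bool := onCell 67108864 469762048 536870912 536870912 1046898278 26843546
    (rowNX 3 0 false true true .pnn 0 1 1 (qsf 67108864 469762048 536870912 536870912 1) ndN1q0 ndN3q1 pcN1 Cut.none Ext.none)

def k0_pp_011 : ∃ t, chk3 f_pp_011 t 1 1 1 = true :=
  ⟨(l 3), by decide +kernel⟩

theorem c_pp_011 : CertNX 67108864 469762048 536870912 536870912 1046898278 26843546 3 false true true .pnn 0 1 1
    ndN1q0 ndN3q1 pcN1 Cut.none Ext.none :=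
  certNX0 (fam := false) (s1 := true) (s2 := true) (a := 0) (b := 1) (c := 1) (cn := .pnn) (n1 := ndN1q0) (n2 := ndN3q1) (pc := pcN1) (cut := Cut.none) (xt := Ext.none) (P1 := 67108864) (W1 := 469762048) (P2 := 536870912) (W2 := 536870912) (P3 := 1046898278) (W3 := 26843546) (N0 := 3)
    rfl k0_pp_011

noncomputable def f_pp_012 : ℕ → ℕ → ℕ → ℕ → Bool := onCell 536870912 536870912 1073741824 536870912 1046898278 26843546
    (rowNX 3 2 false true true .pnp 0 1 2 (qsf 67108864 469762048 1073741824 536870912 1) ndN1q0 ndN3q2 pcN1 Cut.none Ext.none)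

def k0_pp_012 : ∃ t, chk3 f_pp_012 t 2 1 1 = true :=
  ⟨(l 3), by decide +kernel⟩

def k1_pp_012 : ∃ t, chk3 f_pp_012 t 6 1 1 = true :=
  ⟨(l 3), by decide +kernel⟩

def k2_pp_012 : ∃ t, chk3 f_pp_012 t 14 2 1 = true :=
  ⟨(l 3), by decide +kernel⟩

def k3_pp_012 : ∃ t, chk3 f_pp_012 t 30 4 1 = true :=
  ⟨(l 3), by decide +kernel⟩

def k4_pp_012 : ∃ t, chk3 f_pp_012 t 62 4 1 = true :=
  ⟨(b (l 3) (a (a (l 3) (b (l 3) (b (l 3) (c (c (c (l 16144696) (l 1015389068535)) (l 16177184)) (l 16162376))))) (b (a (l 3) (c (c (b (l 16321928) (b (b (l 16313112) (l 16331464)) (l 16395760))) (b (c (l 16293240) (c (l 927879614631) (l 1032569419559))) (c (b (a (l 16332880) (l 16343864)) (l 16410216)) (b (a (l 1054581098647) (c (l 16348168) (l 16333784))) (l 16337392))))) (b (l 1463676790471) (b (l 16261192) (l 16377200))))) (c (c (b (b (c (l 16458624) (a (l 16431768) (l 16484792))) (c (l 16414464) (l 16333576))) (c (l 16213016) (l 89823689735))) (b (b (a (c (a (l 3) (l 16405896)) (l 16458968)) (c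 (l 16496608) (c (l 16429992) (l 16441824)))) (c (a (l 16352512) (l 16429808)) (l 16241880))) (c (a (l 16106256) (l 16223384)) (a (l 16186456) (l 16191128))))) (b (b (l 16418296) (l 16392032)) (l 16180168)))))), by decide +kernel⟩

def k5_pp_012 : ∃ t, chk3 f_pp_012 t 126 8 1 = true :=
  ⟨(b (l 1) (a (a (l 3) (b (l 1) (b (b (l 3) (c (c (l 16577264) (l 16578200)) (c (c (c (l 16591848) (l 16561680)) (l 16569744)) (l 16567424)))) (c (c (l 16466416) (l 16472344)) (c (c (c (l 16484800) (l 16433216)) (l 16461584)) (l 16457856)))))) (b (l 1) (b (b (a (a (a (l 3) (l 1)) (l 1)) (l 1)) (c (c (c (c (a (b (c (l 16569848) (l 16630680)) (l 16600296)) (b (l 16611712) (l 16560184))) (l 16589248)) (l 16558368)) (l 16539888)) (c (c (a (c (l 16608744) (l 16593208)) (l 16619016)) (a (c (a (l 16596856) (l 16575184)) (l 16596848)) (c (l 16606256) (b (l 16630344) (l 16574896))))) (l 16581016)))) (c (c (b (l 16548296) (l 16475160)) (l 16431848)) (c (c (a (l 16460304) (l 16530896)) (a (l 16397408) (c (l 16538472)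 (l 16491728)))) (l 16469928))))))), by decide +kernel⟩

def k6_pp_012 : ∃ t, chk3 f_pp_012 t 126 9 1 = true :=
  ⟨(b (c (c (b (l 16360320) (b (l 16390104) (a (l 16397808) (l 16425360)))) (c (b (l 16385272) (b (l 16393984) (l 16378504))) (a (b (a (l 16377248) (l 16398416)) (b (l 16370000) (l 16408824))) (b (l 16434168) (l 16405376))))) (c (a (b (c (a (c (l 16367224) (l 16352176)) (c (l 16405656) (l 16395800))) (l 16365664)) (c (b (a (l 16353016) (l 16386096)) (a (l 16402072) (l 16393216))) (l 16357184))) (c (b (l 16437328) (b (l 16423928) (l 16431272))) (c (b (a (l 16424328) (l 16458064)) (a (l 16333616) (l 16444512))) (b (l 16371856) (b (l 16421344) (l 16407888)))))) (b (l 16393520) (b (l 16381224) (l 16409168))))) (c (b (b (c (l 16486192) (c (l 16491536) (l 16432256))) (c (l 16419680) (l 16362360))) (c (l 16213704) (l 16068544))) (c (b (a (b (c (a (l 16448856) (l 16457672)) (l 16480296)) (l 16294816)) (c (b (l 16498568) (l 16429664)) (b (a (l 16455264) (l 16419872)) (l 16344824))))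 (a (l 16018968) (c (l 16215880) (l 16108104)))) (b (b (l 16483688) (l 16413648)) (l 16195952))))), by decide +kernel⟩

def k7_pp_012 : ∃ t, chk3 f_pp_012 t 127 8 1 = true :=
  ⟨(b (l 1) (b (l 1) (b (a (a (a (c (c (c (b (l 1) (c (l 222834583879) (l 16627648))) (l 16626752)) (l 16621728)) (c (l 16627280) (l 16609400))) (l 1)) (l 1)) (l 1)) (c (c (c (b (a (c (a (b (l 16573320) (l 16584824)) (b (l 16595832) (l 16565240))) (l 16576440)) (a (c (l 222297653511) (l 16612288)) (l 1))) (a (l 16541656) (c (b (a (l 16557944) (l 16580024)) (a (l 16572448) (l 16552448))) (l 16589880)))) (a (l 16499424) (l 16558624))) (a (l 16476712) (l 16557024))) (c (a (a (a (l 16486344) (l 16521864)) (l 16512832)) (l 16534032)) (a (c (a (c (a (l 16511408) (l 16484344)) (l 16552320)) (c (l 16495168) (b (c (l 16568456) (l 16587184)) (l 16534216)))) (l 16497456)) (c (b (l 16612296) (a (l 16557560) (l 16595832))) (c (a (b (l 16589520) (a (l 16575752) (l 16542984))) (l 16583456)) (a (l 16571904) (a (l 16538504) (l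 16542912))))))))))), by decide +kernel⟩

def k8_pp_012 : ∃ t, chk3 f_pp_012 t 127 9 1 = true :=
  ⟨(b (c (b (b (a (l 16498704) (l 16545624)) (l 16460760)) (c (l 16491232) (l 16488176))) (a (c (a (b (l 16458800) (l 16462712)) (l 16478752)) (c (a (b (l 16459024) (l 16462848)) (c (l 16502256) (b (l 16510792) (l 16492872)))) (l 16418904))) (c (b (b (l 16565080) (l 16552632)) (l 16539112)) (c (b (b (l 16522864) (l 16552280)) (l 16538704)) (a (b (c (l 16496672) (l 16538656)) (l 16475640)) (a (c (l 16554896) (l 16510744)) (b (b (l 16561640) (l 16574840)) (l 16540400)))))))) (c (b (b (c (b (l 16515608) (l 16533176)) (l 16441968)) (l 16442376)) (l 16230760)) (c (b (b (a (c (l 16504520) (l 16445016)) (l 16515192)) (l 16397264)) (l 16179776)) (b (a (b (c (a (l 16461272) (c (l 16511368) (b (l 16494496) (l 16526576)))) (l 16503704)) (c (a (l 16432640) (l 16349072)) (l 16429264))) (b (c (b (l 16528032) (l 16515952)) (a (b (l 16465680) (c (l 16507128) (l 16528200))) (c (l 16521536) (b (l 16519232)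 (b (l 16519488) (l 16493400)))))) (c (l 16441608) (a (l 16391664) (c (l 16442824) (l 16399264)))))) (a (c (a (l 16213528) (l 16129104)) (l 16207752)) (c (l 16220216) (a (l 16168792) (c (l 16219464) (l 16195888))))))))), by decide +kernel⟩

def k9_pp_012 : ∃ t, chk3 f_pp_012 t 30 5 1 = true :=
  ⟨(a (l 3) (b (a (l 3) (a (l 3) (b (l 3) (c (l 703465730023) (l 15361672))))) (b (c (a (l 3) (l 15459288)) (l 15487960)) (c (a (l 15694880) (l 15592552)) (l 15603504))))), by decide +kernel⟩

def k10_pp_012 : ∃ t, chk3 f_pp_012 t 31 10 1 = true :=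
  ⟨(a (b (c (c (a (a (a (l 3) (b (l 3) (b (l 15562608) (c (l 15568568) (l 15523792))))) (b (c (l 15937600) (l 38820250279)) (b (c (l 15703160) (l 15678472)) (c (l 15588872) (l 15563168))))) (b (c (l 15934840) (a (l 15943272) (l 15939008))) (b (l 15701624) (c (l 15589096) (l 15583968))))) (a (b (l 15866392) (b (l 15627568) (l 15511328))) (b (a (c (l 15799248) (l 15897992)) (c (l 15945256) (l 15910496))) (b (c (a (l 15686776) (l 15711160)) (l 15679576)) (c (a (l 15569200) (l 15592416)) (l 15560352)))))) (b (l 15653608) (b (l 15621328) (l 15500520)))) (c (a (c (c (a (c (l 15487560) (l 15459928)) (l 15508560)) (a (l 15438408) (l 15482368))) (l 15430304)) (c (c (l 15508016) (l 15502008)) (c (a (l 15486800) (l 15509056)) (l 15476888)))) (l 15416224))) (c (b (b (a (c (l 15944104) (a (l 15938264) (l 15941328))) (l 15957280)) (a (b (c (l 15727680) (l 15719728)) (c (l 15609536) (l 15599184))) (b (l 15753336) (l 15643352)))) (a (c (l 15526640) (l 15514496)) (l 15558216))) (b (a (c (b (a (l 15739328)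 (c (l 15938952) (l 15933424))) (a (b (l 15696400) (l 15573704)) (c (b (l 15719456) (l 15596680)) (b (l 15711816) (l 15587840))))) (b (l 15910688) (l 15492624))) (c (b (l 15940488) (b (l 15730616) (l 15617400))) (c (b (a (l 15779776) (l 15933800)) (a (b (l 15712784) (l 15570880)) (b (l 15724632) (l 15613384)))) (b (a (l 15921216) (a (l 15922376) (l 15927840))) (a (l 15643472) (b (l 15568016) (a (l 15595728) (l 15608080)))))))) (a (c (a (l 15487736) (c (l 15510296) (l 15500616))) (l 15468288)) (c (l 15529760) (a (c (l 15503072) (l 15493632)) (c (l 15524184) (a (l 15505504) (l 15517936))))))))), by decide +kernel⟩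

def k11_pp_012 : ∃ t, chk3 f_pp_012 t 31 11 1 = true :=
  ⟨(b (a (c (a (c (b (a (c (l 15425000) (l 15406568)) (c (l 15448304) (l 15421848))) (c (l 15536160) (l 15513504))) (l 15435784)) (c (b (c (l 15426304) (l 15419360)) (l 15464912)) (b (a (l 15396072) (l 15385136)) (c (l 15455912) (l 15437072))))) (b (l 15358840) (l 15421368))) (c (a (c (b (l 15432568) (l 15419432)) (b (l 15418304) (l 15404744))) (l 15435304)) (a (c (a (b (l 15390072) (l 15386424)) (c (l 15397752) (l 15386920))) (l 15366552)) (c (l 15403072) (a (c (l 15313080) (l 15365256)) (c (l 15389568) (l 15292736))))))) (a (c (c (a (c (a (l 15604112) (l 15591800)) (l 15573280)) (l 15524864)) (a (l 15539784) (c (l 15516624) (l 15498600)))) (l 15484520)) (c (c (l 15439184) (a (l 15447704) (l 15391264))) (a (c (a (l 15442168) (l 15407784)) (l 15399120)) (c (l 15369808) (a (l 15352952) (c (l 15338168) (l 15324736)))))))), by decide +kernel⟩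

def k12_pp_012 : ∃ t, chk3 f_pp_012 t 7 3 1 = true :=
  ⟨(a (b (l 3) (l 3)) (a (a (b (l 1082497453063) (l 15884384)) (b (a (l 15675776) (c (l 15594120) (l 15552392))) (c (l 15631136) (l 15604928)))) (a (c (b (a (c (b (l 15560256) (l 15579792)) (l 15539544)) (c (l 15522056) (b (l 15503648) (l 15501120)))) (a (l 15499104) (c (l 15517536) (l 15497536)))) (b (l 15483280) (l 15481128))) (c (b (b (c (l 15436176) (l 15417064)) (l 15423640)) (l 15417760)) (c (a (b (a (l 15437816) (b (l 15404992) (l 15401192))) (l 15346536)) (b (l 15363288) (l 15353392))) (a (l 15391368) (b (a (b (l 15349720) (l 15345344)) (b (l 15325976) (l 15320464))) (a (l 15339080) (l 15312568))))))))), by decide +kernel⟩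

theorem s13_pp_012 : ∃ t, chk3 f_pp_012 t 31 5 1 = true := ex3_b k10_pp_012 k11_pp_012

theorem s14_pp_012 : ∃ t, chk3 f_pp_012 t 15 5 1 = true := ex3_a k9_pp_012 s13_pp_012

theorem s15_pp_012 : ∃ t, chk3 f_pp_012 t 127 4 1 = true := ex3_b k7_pp_012 k8_pp_012

theorem s16_pp_012 : ∃ t, chk3 f_pp_012 t 126 4 1 = true := ex3_b k5_pp_012 k6_pp_012

theorem s17_pp_012 : ∃ t, chk3 f_pp_012 t 63 4 1 = true := ex3_a s16_pp_012 s15_pp_012

theorem s18_pp_012 : ∃ t, chk3 f_pp_012 t 31 4 1 = true := ex3_a k4_pp_012 s17_pp_012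

theorem s19_pp_012 : ∃ t, chk3 f_pp_012 t 15 4 1 = true := ex3_a k3_pp_012 s18_pp_012

theorem s20_pp_012 : ∃ t, chk3 f_pp_012 t 15 2 1 = true := ex3_b s19_pp_012 s14_pp_012

theorem s21_pp_012 : ∃ t, chk3 f_pp_012 t 7 2 1 = true := ex3_a k2_pp_012 s20_pp_012

theorem s22_pp_012 : ∃ t, chk3 f_pp_012 t 7 1 1 = true := ex3_b s21_pp_012 k12_pp_012

theorem s23_pp_012 : ∃ t, chk3 f_pp_012 t 3 1 1 = true := ex3_a k1_pp_012 s22_pp_012

theorem s24_pp_012 : ∃ t, chk3 f_pp_012 t 1 1 1 = true := ex3_a k0_pp_012 s23_pp_012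

theorem c_pp_012 : CertNX 67108864 469762048 1073741824 536870912 1046898278 26843546 3 false true true .pnp 0 1 2
    ndN1q0 ndN3q2 pcN1 Cut.none Ext.none :=
  certNX2 (fam := false) (s1 := true) (s2 := true) (a := 0) (b := 1) (c := 2) (cn := .pnp) (n1 := ndN1q0) (n2 := ndN3q2) (pc := pcN1) (cut := Cut.none) (xt := Ext.none) (P1 := 67108864) (W1 := 469762048) (P2 := 1073741824) (W2 := 536870912) (P3 := 1046898278) (W3 := 26843546) (N0 := 3)
    rfl (fun _ => rfl) s24_pp_012

noncomputable def f_pp_022 : ℕ → ℕ → ℕ → ℕ → Bool := onCell 67108864 469762048 1073741824 536870912 1046898278 26843546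
    (rowNX 3 1 false true true .pp 0 2 2 (qsf 67108864 469762048 1073741824 536870912 2) ndN1q0 ndN3q2 pcN2 Cut.none Ext.none)

def k0_pp_022 : ∃ t, chk3 f_pp_022 t 16 32 1 = true :=
  ⟨(c (b (a (c (a (l 16490552) (l 16475560)) (b (a (l 16637136) (l 16620504)) (a (l 16424184) (l 16410552)))) (c (l 16433936) (b (l 16576440) (c (l 16476040) (l 16474976))))) (a (c (a (b (l 16344304) (l 16271224)) (b (l 16354744) (l 16263400))) (c (a (l 16330536) (l 16321080)) (a (l 16295176) (l 16327320)))) (c (b (b (l 16389744) (c (l 16334968) (l 16334432))) (a (l 16256440) (a (l 16218544) (l 16289688)))) (b (b (l 16389000) (l 16337984)) (a (l 16262664) (c (l 16295920) (l 16217248))))))) (c (b (b (a (c (l 16493872) (a (c (l 16635192) (l 16531504)) (c (l 16619608) (l 16618752)))) (c (l 16574232) (c (l 16596312) (l 16595304)))) (c (a (a (l 16445592) (l 16410248)) (b (l 16461176) (l 16446368))) (a (c (a (l 16510096) (l 16497104)) (l 16478696)) (l 16479568)))) (a (c (a (l 16302480) (l 16270624)) (c (a (l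 16353512) (l 16343592)) (l 16348392))) (a (c (l 16219568) (l 16337320)) (c (b (l 16325200) (l 16228232)) (b (l 16377440) (l 16327128)))))) (a (b (b (a (c (l 16616568) (l 16601768)) (c (l 16620504) (l 16605408))) (a (l 16505168) (l 16511472))) (a (l 16370040) (l 16358752))) (b (b (b (l 16607536) (l 16529536)) (l 16470336)) (a (l 16348416) (b (l 16392576) (a (l 16302200) (l 16354288)))))))), by decide +kernel⟩

def k1_pp_022 : ∃ t, chk3 f_pp_022 t 17 32 1 = true :=
  ⟨(c (c (a (b (a (b (l 16578760) (a (l 16467424) (l 16480576))) (a (b (l 16559792) (l 16582832)) (l 16627640))) (b (a (b (l 16385000) (l 16379592)) (l 16478432)) (l 16315424))) (b (l 16437896) (b (b (l 16468608) (l 16398760)) (l 16423816)))) (b (a (a (b (l 16576896) (c (l 16446368) (b (l 16498296) (l 16401976)))) (c (l 16481440) (b (l 16588112) (l 16576960)))) (c (l 16477152) (a (l 16483824) (l 16331976)))) (a (b (c (a (l 16365160) (l 16607272)) (l 16354280)) (c (l 16426896) (l 16370616))) (c (b (l 16415352) (l 16431456))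 (b (l 16449888) (l 16398440)))))) (c (b (a (c (b (a (l 16576280) (a (l 16579888) (l 16628360))) (a (b (c (l 16496744) (l 16455544)) (l 16383832)) (c (l 16536792) (l 16621616)))) (a (b (l 16574696) (l 16408088)) (b (l 16524592) (l 16626096)))) (a (a (c (c (l 16541632) (l 16561816)) (l 16557152)) (l 16476464)) (l 16385600))) (a (c (b (c (l 16316832) (l 16362576)) (l 16384760)) (a (l 16419720) (l 16593176))) (l 16365464))) (a (a (b (b (b (l 16605816) (l 16530368)) (c (l 16438184) (l 16426496))) (a (l 16339792) (l 16519888))) (b (b (a (b (l 16523920) (l 16525888)) (l 16580144)) (l 16529928)) (l 16511032))) (b (b (c (l 16450496) (a (l 16503736) (l 16400592))) (l 16373784)) (l 16355976))))), by decide +kernel⟩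

def k2_pp_022 : ∃ t, chk3 f_pp_022 t 9 32 1 = true :=
  ⟨(c (a (b (c (a (l 16249216) (b (l 16030008) (l 16024352))) (c (a (l 16243320) (l 16020624)) (b (l 16125776) (b (l 16119640) (a (l 16230016) (l 15941448)))))) (c (a (b (l 16213328) (l 16214776)) (b (a (l 16066408) (b (l 15977944) (l 15990528))) (a (l 16055688) (l 16016504)))) (a (c (l 16211768) (l 16069792)) (b (c (a (l 16054520) (l 15931552)) (l 15982752)) (c (l 15980608) (l 16006424)))))) (b (c (a (a (b (l 15888160) (l 15923088)) (l 15878640)) (l 15845152)) (b (a (a (c (l 15877720) (l 15869664)) (l 15830904)) (l 15794024)) (c (l 15879552) (l 15872784)))) (c (b (c (l 15948080) (l 15940800)) (l 15987600)) (c (b (l 15906712) (l 15966144)) (l 15931896))))) (a (b (c (b (l 16120544) (a (l 16220896) (l 15992112))) (b (l 15893880) (a (l 16193808) (l 15961192)))) (a (c (l 16169584) (l 16135384)) (c (a (l 16002648) (l 15943080)) (a (l 15965800) (l 15905432))))) (b (b (a (c (l 15757568) (a (b (l 15830800) (l 15836136)) (l 15797136)))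 (l 15748320)) (c (l 15855064) (l 15822264))) (c (l 15902456) (l 15864888))))), by decide +kernel⟩

def k3_pp_022 : ∃ t, chk3 f_pp_022 t 8 33 1 = true :=
  ⟨(c (a (a (b (c (a (l 16071512) (l 16109352)) (a (l 16130656) (l 16125688))) (a (c (l 15923344) (l 15948056)) (c (b (a (l 15966656) (l 15929208)) (a (l 15913048) (l 15994288))) (b (l 16008696) (l 15982296))))) (c (b (a (b (a (l 16154936) (l 16166280)) (a (c (l 16072456) (l 16078400)) (l 16142096))) (b (l 16273664) (l 16292904))) (l 16046560)) (b (a (b (c (l 16169256) (l 16180504)) (l 16136128)) (l 16134976)) (l 16158016)))) (c (a (b (c (l 16382712) (l 16348672)) (l 16377360)) (b (l 16317424) (l 16326112))) (a (b (a (l 16377568) (l 16410976)) (l 16376840)) (b (l 16179048) (l 16279360))))) (a (a (b (c (c (l 16140312) (c (a (l 16161576) (l 16155440)) (l 16153048))) (l 16148736)) (a (c (c (l 15962672) (l 15961320)) (l 15951584)) (c (c (b (l 15963704) (l 15974144)) (b (l 16027504) (l 15990552))) (b (l 16018528) (l 15981288))))) (c (c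 (b (a (b (l 16194552) (l 16156704)) (l 16323824)) (c (l 16174600) (l 16156448))) (b (a (b (l 16207928) (l 16164752)) (l 16334280)) (l 16260200))) (b (a (b (l 16207952) (l 16159392)) (l 16334320)) (l 16212992)))) (a (c (c (b (l 16455184) (a (l 16484152) (l 16438136))) (l 16360472)) (l 16334600)) (c (l 16202040) (l 16268248))))), by decide +kernel⟩

def k4_pp_022 : ∃ t, chk3 f_pp_022 t 9 33 1 = true :=
  ⟨(c (a (b (c (a (b (l 16188640) (a (l 16214072) (l 16115704))) (b (l 16058712) (l 16085672))) (a (b (l 16092904) (l 16039072)) (b (c (l 16036136) (l 16013048)) (l 16041480)))) (a (c (a (b (l 16177712) (l 16154496)) (l 16124656)) (a (l 15995704) (l 16075744))) (c (l 16121048) (l 16073288)))) (c (b (c (l 16044648) (l 16029504)) (l 16042040)) (c (b (l 16009432) (l 16049328)) (l 16005848)))) (c (a (a (b (l 15948632) (a (l 16083864) (l 16037488))) (b (l 15987152) (l 16035312))) (l 15977664)) (a (a (b (l 16070848) (l 15927816)) (l 15992376)) (l 15955336)))), by decide +kernel⟩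

def k5_pp_022 : ∃ t, chk3 f_pp_022 t 16 17 1 = true :=
  ⟨(c (b (a (c (a (b (b (a (l 15793704) (l 15834640)) (l 15763704)) (l 15846600)) (l 16023696)) (b (a (b (c (l 15837640) (l 15805808)) (c (l 15822288) (l 15827360))) (l 15949864)) (c (l 15747800) (l 15955784)))) (c (l 16122480) (c (l 16120240) (c (l 16168280) (l 16170160))))) (c (a (b (a (l 15908368) (l 16117928)) (a (l 15880464) (l 16111240))) (b (l 16195504) (b (l 16302144) (a (l 16394640) (l 16487152))))) (a (a (l 15930952) (l 16082720)) (a (l 16168192) (b (l 16517568) (l 16332032)))))) (b (a (b (a (c (b (c (l 15847048) (l 15838808)) (c (l 15821832) (l 15812864))) (b (l 15828064) (l 15802152))) (l 15876616)) (c (a (l 15648344) (l 15967952)) (l 15933264))) (c (c (l 16167464) (l 16228688)) (l 16203640))) (a (c (c (a (l 15921112) (l 16093784)) (l 15974536)) (l 15882112)) (c (c (a (l 16243032) (b (l 16533872) (l 16543752))) (l 16242896)) (l 16198544))))), by decide +kernel⟩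

def k6_pp_022 : ∃ t, chk3 f_pp_022 t 17 17 1 = true :=
  ⟨(c (b (c (a (b (l 16349488) (l 16258248)) (b (a (l 16295528) (l 16181664)) (a (l 16214704) (l 16202432)))) (a (c (a (l 16454456) (l 16220256)) (b (a (l 16543632) (l 16328016)) (l 16243344))) (b (c (l 16028232) (a (l 16241576) (b (l 16148040) (l 16135008)))) (c (a (l 16099800) (l 16170824)) (a (l 16197192) (l 16163624)))))) (c (a (b (a (a (l 16481232) (l 16320248)) (b (l 16174312) (l 16232000))) (a (b (l 16283592) (l 16370416)) (l 16283584))) (b (l 16243600) (l 16286264))) (a (b (a (c (l 16416256) (l 16414416)) (c (l 16264184) (l 16199416))) (a (b (l 16252472) (l 16322008)) (l 16254152))) (c (l 16251264) (l 16251952))))) (b (a (a (b (l 16460000) (l 16483400)) (l 16196256)) (b (a (l 16226272) (l 16129720)) (a (l 16185328) (l 16151048)))) (a (a (b (l 16388120) (b (l 16352008) (l 16379352))) (b (a (l 16270128) (l 16223504)) (l 16285688))) (l 16239688)))), by decide +kernel⟩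

def k7_pp_022 : ∃ t, chk3 f_pp_022 t 9 17 1 = true :=
  ⟨(b (c (c (a (b (l 16160608) (l 16193464)) (c (l 16141824) (l 16121376))) (b (c (a (l 16125128) (l 16083720)) (a (b (l 16093256) (l 16115896)) (l 16063408))) (a (c (l 16166160) (l 16155960)) (l 16112960)))) (a (b (l 16087592) (l 16144616)) (l 16070736))) (c (c (a (c (l 16149616) (b (l 16217712) (l 16259584))) (b (c (a (l 16210152) (l 16144016)) (a (l 16195792) (a (l 16152640) (l 16109016)))) (a (c (l 16214072) (l 16232624)) (c (b (l 16083784) (l 16141440)) (l 16133736))))) (a (c (l 16196888) (l 16231728)) (a (l 16204576) (b (l 16116712) (l 16126880))))) (a (l 16180536) (a (l 16192864) (b (l 16102288) (l 16112936)))))), by decide +kernel⟩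

def k8_pp_022 : ∃ t, chk3 f_pp_022 t 5 8 1 = true :=
  ⟨(b (c (a (b (c (a (b (c (l 15776984) (l 15766976)) (b (c (l 15852008) (l 15840736)) (l 15885912))) (b (a (l 15679808) (a (c (l 15659616) (l 15649736)) (l 15627040))) (a (c (b (l 15774576) (l 15719016)) (l 15627048)) (c (b (l 15681376) (l 15692488)) (l 15674616))))) (a (b (l 15754264) (l 15838848)) (a (b (l 15683304) (b (l 15744912) (l 15766120))) (b (a (l 15634648) (l 15610168)) (l 15650992))))) (a (c (b (b (l 15918552) (c (l 15955080) (l 15937288))) (a (l 16002784) (a (l 15937712) (l 15845744)))) (a (l 15937360) (b (l 15865048) (l 15881648)))) (c (c (b (a (l 15819440) (l 15697264)) (l 15750320)) (a (l 15794712) (l 15670480))) (a (l 15759896) (l 15634368))))) (b (c (c (b (l 15649560) (b (l 15673504) (l 15681344))) (l 15654808)) (b (l 15627832) (l 15642520))) (c (l 15660560) (l 15616600)))) (a (b (b (a (c (l 15732584) (l 15702560)) (a (c (l 15660336) (l 15629312)) (c (l 15553984) (a (l 15578888) (l 15553544))))) (a (l 15682328)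 (a (c (l 15713264) (l 15674072)) (l 15595320)))) (a (a (l 15887160) (b (l 15805728) (l 15834912))) (a (c (l 15717760) (l 15691152)) (l 15577256)))) (b (c (l 15602448) (l 15569192)) (l 15561008)))) (a (c (b (c (a (a (b (a (l 16047184) (l 16014008)) (c (l 15980648) (l 16021200))) (c (l 15919792) (l 15895208))) (a (l 15764064) (l 15633520))) (a (a (b (l 15985120) (l 15998408)) (l 15867960)) (l 15654216))) (a (c (c (b (l 15950352) (l 15731192)) (l 15919584)) (l 15905424)) (c (l 15576400) (l 15612400)))) (a (b (a (b (l 15954576) (l 15977368)) (l 15837224)) (l 15884576)) (b (l 15617160) (l 15582312)))) (c (b (l 15477192) (c (l 15530536) (l 15502224))) (b (l 15520728) (l 15468752))))), by decide +kernel⟩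

def k9_pp_022 : ∃ t, chk3 f_pp_022 t 3 8 1 = true :=
  ⟨(b (c (b (a (b (l 15682384) (c (l 15695704) (l 15668888))) (b (l 15739088) (l 15714016))) (a (l 15512984) (l 15640824))) (a (b (b (a (l 15619520) (l 15650616)) (l 15619672)) (l 15569568)) (b (b (l 15696040) (l 15659680)) (l 15580560)))) (c (a (b (l 15384248) (c (l 15464576) (l 15436736))) (b (l 15513168) (l 15302520))) (a (b (l 15493856) (l 15401560)) (l 15389256)))), by decide +kernel⟩

def k10_pp_022 : ∃ t, chk3 f_pp_022 t 8 18 2 = true :=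
  ⟨(a (c (a (b (a (l 15946064) (b (l 16179760) (l 16025736))) (a (b (b (l 15895576) (l 15858576)) (l 15761464)) (b (l 16025752) (l 15876184)))) (a (b (b (a (l 16336392) (l 16431576)) (l 16199792)) (l 15976592)) (b (b (l 16409336) (l 16388592)) (l 16062712)))) (b (b (a (a (l 15955680) (l 16133112)) (c (a (l 16357712) (l 16513184)) (a (a (l 16331496) (l 16428008)) (l 16343464)))) (a (a (l 15916360) (c (l 16123800) (l 15911872))) (c (a (l 16279048) (l 16387248)) (a (l 16107376) (l 16379584))))) (a (c (a (b (l 15862240) (l 15749528)) (l 15919168)) (b (a (b (l 15882168) (l 15844352)) (l 15865384)) (a (l 15638432) (l 15855024)))) (c (c (l 16111088) (l 15962056)) (c (l 15910992) (l 15993576)))))) (a (c (b (b (l 16377768) (l 16464072)) (b (l 16260432) (c (l 16255800) (l 16215248)))) (b (c (b (l 16372184) (l 16422752)) (c (l 16264392) (l 16469928))) (c (b (l 16214328) (l 16013136)) (l 16254504)))) (c (b (b (l 16378080) (l 16490888)) (c (l 16395616) (b (l 16458800) (l 16313472)))) (c (b (l 16199968)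 (c (l 16324408) (l 16390952))) (l 16287816))))), by decide +kernel⟩

def k11_pp_022 : ∃ t, chk3 f_pp_022 t 9 18 2 = true :=
  ⟨(b (a (c (c (b (l 16349264) (l 16281872)) (b (l 16307664) (a (l 16490224) (l 16445536)))) (c (b (l 16310256) (l 16267768)) (l 16305096))) (a (c (b (c (a (l 16322368) (l 16238248)) (a (l 16325304) (l 16277808))) (c (a (l 16419024) (l 16350888)) (l 16380560))) (b (l 16187952) (l 16377456))) (c (c (l 16053528) (l 16191432)) (l 16185432)))) (c (a (a (c (b (l 16478416) (a (l 16361656) (l 16359968))) (b (l 16471168) (c (l 16353384) (l 16365888)))) (c (b (a (l 16494664) (l 16523408)) (l 16276808)) (b (a (l 16487208) (l 16522416)) (l 16444960)))) (c (b (l 16187048) (l 16273080)) (l 16369256))) (a (a (l 16255072) (b (l 16508752) (l 16442776))) (l 16324008)))), by decide +kernel⟩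

def k12_pp_022 : ∃ t, chk3 f_pp_022 t 4 38 2 = true :=
  ⟨(a (a (c (b (a (b (l 15683640) (b (l 15650880) (l 15481400))) (c (l 15788616) (l 15760992))) (a (l 15574448) (l 15805160))) (b (c (a (b (l 15691360) (b (l 15638296) (l 15616328))) (b (l 15933304) (b (l 15881720) (l 15859504)))) (a (b (a (l 15625120) (l 15740592)) (b (l 15407968) (c (l 15601536) (l 15596448)))) (b (l 15919384) (l 15864080)))) (c (a (l 15521776) (l 15865528)) (a (c (l 15608176) (l 15608488)) (l 15863504))))) (b (c (b (c (l 16125696) (a (l 16164032) (l 16245400))) (c (a (l 16108960) (l 16207256)) (a (b (l 16118672) (l 16057488)) (b (l 16202616) (l 16184680))))) (a (c (b (l 16083744) (b (l 16101088) (l 16040648))) (l 16121720)) (l 16217432))) (c (a (c (l 16109376) (l 16064440)) (c (a (l 16197712) (l 16187824)) (a (l 16183176) (l 16215952)))) (a (c (l 16092800) (l 16094904)) (l 16201672))))) (a (c (b (c (a (b (a (l 16284464) (l 16321928)) (b (l 16193992) (l 16145776))) (b (l 16409728) (c (l 16397928) (l 16400432))))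 (a (b (l 16189592) (l 16271424)) (l 16405816))) (c (b (l 16124352) (l 16240512)) (l 16376264))) (b (a (b (l 16295216) (l 16266496)) (l 16403016)) (l 16373184))) (b (c (l 16413544) (l 16410088)) (l 16252200)))), by decide +kernel⟩

def k13_pp_022 : ∃ t, chk3 f_pp_022 t 4 39 2 = true :=
  ⟨(a (a (c (a (c (l 15670184) (l 15659912)) (c (l 15910064) (c (l 15911888) (l 15903680)))) (c (a (a (l 15594832) (l 15711384)) (c (l 15892288) (l 15893024))) (a (a (l 15572232) (l 15707080)) (l 15890744)))) (c (a (c (a (l 16090232) (b (l 16181992) (l 16091240))) (a (l 15950160) (b (l 16167200) (l 16118856)))) (c (b (a (l 16186496) (l 16280584)) (l 16314280)) (b (a (l 16214432) (l 16278144)) (l 16315704)))) (a (a (l 16072768) (l 16104416)) (b (l 16246856) (l 16312152))))) (a (c (c (a (l 16281296) (l 16400184)) (l 16472568)) (l 16471528)) (c (l 16157344) (l 16149360)))), by decide +kernel⟩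

def k14_pp_022 : ∃ t, chk3 f_pp_022 t 5 9 2 = true :=
  ⟨(b (a (b (c (a (c (b (l 15932480) (l 15978672)) (l 15948600)) (l 15655592)) (a (l 15938816) (l 15636336))) (c (a (l 16030392) (l 15716912)) (a (l 16018832) (l 15698744)))) (b (l 15488304) (c (l 15542040) (l 15520480)))) (a (b (b (a (c (l 16059672) (l 16048680)) (c (l 15732224) (l 15714336))) (a (l 15977040) (l 15644704))) (c (l 15388816) (l 15558648))) (b (b (l 15515464) (l 15427624)) (l 15247344)))), by decide +kernel⟩

def k15_pp_022 : ∃ t, chk3 f_pp_022 t 2 9 3 = true :=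
  ⟨(a (b (a (a (a (a (b (c (c (c (l 15924752) (l 15920192)) (l 15917504)) (l 15907760)) (b (c (c (c (l 15804608) (l 15846408)) (l 15841072)) (l 15830312)) (l 15595224))) (c (b (c (b (l 16161600) (b (l 16131400) (l 16101552))) (l 16049360)) (l 15840392)) (b (b (l 16154728) (l 16102856)) (l 15911384)))) (b (b (a (c (l 16341680) (l 16368632)) (b (l 16496624) (l 16501024))) (a (b (l 16265464) (l 16233512)) (l 16356904))) (c (l 16053184) (l 16085328)))) (b (a (b (l 16285416) (l 16376272)) (b (l 16368928) (l 16514112))) (b (c (l 16288288) (l 16326456)) (a (l 16110608) (l 16321304))))) (a (c (b (l 16197472) (a (l 16351088) (b (l 16507184) (l 16439808)))) (b (b (l 16336128) (l 16469128)) (a (l 16410336) (l 16369536)))) (b (a (b (a (l 16310288) (l 16242752)) (l 16308224)) (l 16131280)) (c (l 16361480) (l 16356936))))) (a (a (b (b (a (c (l 15632368) (l 15614088)) (c (l 15884104) (l 15870296))) (a (l 15587448) (l 15845848))) (a (c (l 15624128) (l 15606240)) (l 15874280))) (b (b (c (l 15910968)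 (l 16028072)) (a (l 16082560) (l 16168952))) (a (c (l 15915456) (l 16011560)) (b (l 16174080) (l 16304880))))) (b (a (b (a (c (l 16193112) (l 16249592)) (l 16397304)) (l 16324928)) (b (l 16320880) (l 16326384))) (a (l 16364528) (l 16116152))))) (b (a (b (a (l 15856016) (l 15606888)) (a (l 15938232) (l 15670960))) (b (l 15464728) (l 15487520))) (a (b (b (a (l 16031856) (l 15686976)) (l 15629256)) (a (l 15766928) (l 15424544))) (b (b (l 15471176) (l 15380248)) (l 15193648))))), by decide +kernel⟩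

def k16_pp_022 : ∃ t, chk3 f_pp_022 t 3 9 1 = true :=
  ⟨(a (b (c (b (a (l 15425296) (l 15342712)) (a (l 15390504) (l 15251536))) (b (l 15334488) (l 15101136))) (c (b (b (a (l 15329752) (l 15145912)) (l 15127168)) (a (l 15036432) (l 14826704))) (b (b (l 15183184) (l 15069248)) (l 14865280)))) (a (b (c (a (l 15200096) (l 15165952)) (l 15136936)) (a (b (b (l 14977312) (l 14846200)) (l 14624744)) (l 2))) (l 2))), by decide +kernel⟩

def k17_pp_022 : ∃ t, chk3 f_pp_022 t 8 20 1 = true :=
  ⟨(c (b (a (c (a (c (l 15707040) (a (l 15645640) (l 15764448))) (c (b (l 15944368) (a (l 15906128) (l 15962760))) (b (a (l 15872024) (l 15986432)) (a (l 15825856) (l 15988240))))) (a (c (c (l 15575288) (l 15676600)) (l 15676184)) (b (l 15923936) (l 15877576)))) (c (c (a (b (a (l 16054392) (l 16275176)) (l 16060264)) (l 16267224)) (a (a (b (l 16081016) (l 16197152)) (l 16310168)) (l 16422984))) (a (l 15982952) (l 16421624)))) (a (c (b (a (c (a (l 15630232) (l 15760296)) (a (l 15622744) (c (l 15749128)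 (l 15743296)))) (c (a (l 15883488) (l 16059376)) (a (l 15887448) (l 16056224)))) (a (a (b (c (l 15576912) (b (l 15579008) (l 15549744))) (c (l 15522776) (l 15504624))) (b (b (c (l 15730312) (l 15713208)) (l 15596416)) (c (l 15679088) (l 15665600)))) (c (b (b (l 15966536) (l 15949048)) (l 15914984)) (l 15934680)))) (a (b (l 15561848) (a (l 15526864) (l 15677840))) (b (l 15968128) (l 15926288)))) (c (c (a (b (l 16138896) (b (b (l 16274496) (l 16261120)) (l 16228360))) (l 16202048)) (b (l 16362024) (l 16210024))) (b (l 16276480) (l 16123768))))) (b (a (a (c (l 15663896) (l 15647336)) (c (l 15683584) (l 15818808))) (a (c (l 16040032) (l 16117968)) (l 16418800))) (a (b (a (c (l 15650472) (l 15634000)) (l 15826352)) (a (c (a (l 15508040) (l 15661808)) (l 15395136)) (l 15846288))) (b (a (l 16281856) (l 16342248)) (a (l 16109256) (l 16386160)))))), by decide +kernel⟩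

def k18_pp_022 : ∃ t, chk3 f_pp_022 t 8 21 1 = true :=
  ⟨(a (c (c (a (b (c (a (l 15278024) (l 15563728)) (a (l 15344096) (l 15558128))) (c (a (l 15217776) (l 15383736)) (l 15285128))) (b (c (l 15655880) (l 15802840)) (l 15622232))) (a (b (l 15452896) (l 15267160)) (l 15532256))) (b (a (c (l 15432488) (l 15411784)) (l 15771128)) (a (l 15230648) (l 15577168)))) (c (c (b (l 15952312) (l 15871712)) (b (l 16030064) (l 15903280))) (b (b (l 16068080) (l 16019328)) (a (l 15899712) (l 16082936))))), by decide +kernel⟩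

def k19_pp_022 : ∃ t, chk3 f_pp_022 t 9 10 1 = true :=
  ⟨(b (b (c (a (c (l 16229896) (l 16224144)) (c (l 15916536) (l 15904296))) (a (l 16152392) (l 15843608))) (c (b (a (l 16004432) (l 15827864)) (a (l 16045760) (l 15758592))) (b (a (l 16115208) (l 15800136)) (a (l 16174640) (l 15880592))))) (c (b (a (l 16245520) (l 15986672)) (a (l 16279664) (l 16354872))) (b (a (l 16344416) (l 16073792)) (a (l 16269536) (l 16347520))))), by decide +kernel⟩

def k20_pp_022 : ∃ t, chk3 f_pp_022 t 5 10 1 = true :=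
  ⟨(b (b (a (c (a (l 15560632) (l 15237232)) (a (l 15520928) (l 15183856))) (c (l 15008080) (l 14945984))) (a (c (b (a (l 15494232) (l 15186552)) (a (l 15593288) (l 15306584))) (b (l 15247072) (l 15192744))) (b (c (l 14970208) (l 14906784)) (c (l 15113992) (l 15055616))))) (a (c (b (a (l 15804184) (l 15541424)) (a (l 16080816) (l 15871992))) (b (l 15423336) (a (l 16081656) (l 15840920)))) (c (b (l 15373096) (l 15737816)) (b (l 15323808) (l 15701248))))), by decide +kernel⟩

def k21_pp_022 : ∃ t, chk3 f_pp_022 t 2 11 1 = true :=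
  ⟨(b (a (a (c (a (a (b (c (l 15103568) (l 15071928)) (l 14885944)) (b (l 15418144) (l 15213048))) (b (a (l 15728256) (l 15904704)) (l 15423240))) (a (b (a (l 15029216) (l 15373512)) (l 14766144)) (b (l 15724216) (l 15572408)))) (c (b (a (l 16085752) (l 16349744)) (l 15769912)) (b (a (l 16065824) (l 16340312)) (l 15828896)))) (a (b (c (l 16128024) (l 16302920)) (a (l 16377176) (l 16399648))) (b (c (l 16081008) (l 16099920)) (c (l 16536784) (l 16528248))))) (a (a (a (c (a (b (l 14763416) (l 14762712)) (l 15089624)) (a (l 14688352) (l 15030360))) (c (b (l 15405328) (l 15488520)) (l 15443648))) (c (b (l 15777440) (l 15902600)) (l 15767400))) (a (b (a (l 16349464) (l 16603552)) (l 16488944)) (b (l 16775896) (l 16777216))))), by decide +kernel⟩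

def k22_pp_022 : ∃ t, chk3 f_pp_022 t 3 5 1 = true :=
  ⟨(a (b (b (b (a (c (l 14783088) (l 14713096)) (c (l 14551640) (l 14473752))) (a (b (c (l 14757744) (l 14686856)) (c (l 14930288) (l 14865464))) (a (b (l 14564360) (l 14638360)) (l 2)))) (b (a (c (l 15027888) (l 15161728)) (c (l 15055640) (l 15102576))) (a (c (l 15566520) (l 15610440)) (l 2)))) (b (b (a (a (l 15897288) (l 16079848)) (l 2)) (l 16528560)) (l 16776560))) (l 2)), by decide +kernel⟩

def k23_pp_022 : ∃ t, chk3 f_pp_022 t 1 3 1 = true :=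
  ⟨(a (a (a (b (c (a (b (a (l 14762712) (l 15089272)) (b (l 14920576) (l 14920576))) (b (l 15488520) (l 15404632))) (a (b (l 14846768) (l 14846768)) (b (l 15443280) (l 15443280)))) (a (a (l 14727736) (l 15059712)) (l 15319152))) (b (b (c (l 15860656) (l 15871904)) (l 15887280)) (l 15887280))) (b (a (b (a (b (l 16369808) (l 16369808)) (l 16686864)) (l 16530888)) (l 16777216)) (l 2))) (l 2)), by decide +kernel⟩

theorem s24_pp_022 : ∃ t, chk3 f_pp_022 t 8 10 1 = true := ex3_b k17_pp_022 k18_pp_022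

theorem s25_pp_022 : ∃ t, chk3 f_pp_022 t 4 10 1 = true := ex3_a s24_pp_022 k19_pp_022

theorem s26_pp_022 : ∃ t, chk3 f_pp_022 t 2 10 1 = true := ex3_a s25_pp_022 k20_pp_022

theorem s27_pp_022 : ∃ t, chk3 f_pp_022 t 2 5 1 = true := ex3_b s26_pp_022 k21_pp_022

theorem s28_pp_022 : ∃ t, chk3 f_pp_022 t 1 5 1 = true := ex3_a s27_pp_022 k22_pp_022

theorem s29_pp_022 : ∃ t, chk3 f_pp_022 t 4 19 2 = true := ex3_b k12_pp_022 k13_pp_022

theorem s30_pp_022 : ∃ t, chk3 f_pp_022 t 4 18 2 = true := ex3_a k10_pp_022 k11_pp_022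

theorem s31_pp_022 : ∃ t, chk3 f_pp_022 t 4 9 2 = true := ex3_b s30_pp_022 s29_pp_022

theorem s32_pp_022 : ∃ t, chk3 f_pp_022 t 2 9 2 = true := ex3_a s31_pp_022 k14_pp_022

theorem s33_pp_022 : ∃ t, chk3 f_pp_022 t 2 9 1 = true := ex3_c s32_pp_022 k15_pp_022

theorem s34_pp_022 : ∃ t, chk3 f_pp_022 t 1 9 1 = true := ex3_a s33_pp_022 k16_pp_022

theorem s35_pp_022 : ∃ t, chk3 f_pp_022 t 8 17 1 = true := ex3_a k5_pp_022 k6_pp_022

theorem s36_pp_022 : ∃ t, chk3 f_pp_022 t 4 17 1 = true := ex3_a s35_pp_022 k7_pp_022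

theorem s37_pp_022 : ∃ t, chk3 f_pp_022 t 4 33 1 = true := ex3_a k3_pp_022 k4_pp_022

theorem s38_pp_022 : ∃ t, chk3 f_pp_022 t 8 32 1 = true := ex3_a k0_pp_022 k1_pp_022

theorem s39_pp_022 : ∃ t, chk3 f_pp_022 t 4 32 1 = true := ex3_a s38_pp_022 k2_pp_022

theorem s40_pp_022 : ∃ t, chk3 f_pp_022 t 4 16 1 = true := ex3_b s39_pp_022 s37_pp_022

theorem s41_pp_022 : ∃ t, chk3 f_pp_022 t 4 8 1 = true := ex3_b s40_pp_022 s36_pp_022

theorem s42_pp_022 : ∃ t, chk3 f_pp_022 t 2 8 1 = true := ex3_a s41_pp_022 k8_pp_022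

theorem s43_pp_022 : ∃ t, chk3 f_pp_022 t 1 8 1 = true := ex3_a s42_pp_022 k9_pp_022

theorem s44_pp_022 : ∃ t, chk3 f_pp_022 t 1 4 1 = true := ex3_b s43_pp_022 s34_pp_022

theorem s45_pp_022 : ∃ t, chk3 f_pp_022 t 1 2 1 = true := ex3_b s44_pp_022 s28_pp_022

theorem s46_pp_022 : ∃ t, chk3 f_pp_022 t 1 1 1 = true := ex3_b s45_pp_022 k23_pp_022

theorem c_pp_022 : CertNX 67108864 469762048 1073741824 536870912 1046898278 26843546 3 false true true .pp 0 2 2
    ndN1q0 ndN3q2 pcN2 Cut.none Ext.none :=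
  certNX1 (fam := false) (s1 := true) (s2 := true) (a := 0) (b := 2) (c := 2) (cn := .pp) (n1 := ndN1q0) (n2 := ndN3q2) (pc := pcN2) (cut := Cut.none) (xt := Ext.none) (P1 := 67108864) (W1 := 469762048) (P2 := 1073741824) (W2 := 536870912) (P3 := 1046898278) (W3 := 26843546) (N0 := 3)
    rfl (fun _ => rfl) s46_pp_022

noncomputable def f_pp_023 : ℕ → ℕ → ℕ → ℕ → Bool := onCell 67108864 469762048 1073741824 536870912 1046898278 26843546
    (rowNX 3 1 false true true .up 0 2 3 (qsf 67108864 469762048 1610612736 536870912 2) ndN1q0 ndN3q3 pcN2 Cut.none Ext.none)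

def k0_pp_023 : ∃ t, chk3 f_pp_023 t 1 1 1 = true :=
  ⟨(b (b (a (l 1) (a (a (l 1) (b (l 1) (b (l 1) (b (c (l 388724210695) (l 15027520)) (c (l 14826704) (l 14758240)))))) (b (b (c (b (l 192767607303) (l 15640824)) (b (l 493415092391) (l 15580560))) (c (b (l 15513168) (l 15260576)) (l 15347312))) (b (b (c (l 15155440) (l 15163440)) (a (c (l 15112584) (l 15054144)) (c (l 14969784) (l 14906240)))) (b (a (c (b (l 14961560) (l 14830456)) (l 14830128)) (b (c (l 14804944) (l 14735152)) (a (l 14671416) (l 14649528)))) (c (a (l 14637392) (l 14587304)) (a (l 14561560) (l 14508152)))))))) (b (a (l 1) (a (a (b (l 1) (b (c (l 14985944) (l 15161728)) (c (l 15566520) (l 15610440)))) (b (b (c (l 14530664) (l 14473752)) (b (c (l 14562112) (l 14483808)) (c (l 14771896) (l 14722560)))) (b (c (l 15055640) (l 15102576)) (l 15611000)))) (b (a (b (c (l 14367752) (l 14368528)) (l 14605032)) (l 14459680)) (l 15375344)))) (a (a (l 1) (a (l 1) (b (b (l 1) (l 1163968804759)) (b (l 16775896) (l 16777216)))))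 (b (a (b (a (a (l 15876320) (l 16079848)) (l 16082168)) (l 16528560)) (l 16312128)) (l 16776560))))) (a (a (b (a (l 1) (b (l 1) (l 15887280))) (a (a (a (l 14727736) (l 15059712)) (l 203504504247)) (l 15887280))) (b (a (b (a (l 302290717047) (l 16686864)) (l 16530888)) (l 16777216)) (a (l 16530888) (l 16777216)))) (b (b (l 16777216) (l 16777176)) (a (l 16777184) (b (l 16722864) (a (l 16722648) (l 16697128))))))), by decide +kernel⟩

theorem c_pp_023 : CertNX 67108864 469762048 1610612736 536870912 1046898278 26843546 3 false true true .up 0 2 3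
    ndN1q0 ndN3q3 pcN2 Cut.none Ext.none :=
  certNX1 (fam := false) (s1 := true) (s2 := true) (a := 0) (b := 2) (c := 3) (cn := .up) (n1 := ndN1q0) (n2 := ndN3q3) (pc := pcN2) (cut := Cut.none) (xt := Ext.none) (P1 := 67108864) (W1 := 469762048) (P2 := 1610612736) (W2 := 536870912) (P3 := 1046898278) (W3 := 26843546) (N0 := 3)
    rfl (fun _ => rfl) k0_pp_023

noncomputable def f_pp_033 : ℕ → ℕ → ℕ → ℕ → Bool := onCell 67108864 469762048 1610612736 536870912 1046898278 26843546
    (rowNX 3 1 false true true .pnn 0 3 3 (qsf 67108864 469762048 1610612736 536870912 3) ndN1q0 ndN3q3 pcN3 Cut.none Ext.none)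

def k0_pp_033 : ∃ t, chk3 f_pp_033 t 1 1 1 = true :=
  ⟨(b (a (a (b (a (a (a (l 14727736) (l 15059712)) (c (l 15488520) (l 15443280))) (b (l 15887280) (l 15887280))) (a (b (a (l 14741624) (l 15403032)) (c (a (l 14920544) (l 15488472)) (a (l 14846736) (l 15443224)))) (b (l 15887240) (b (l 15887240) (l 15863192))))) (b (b (l 16637232) (a (l 16530840) (l 16772040))) (b (a (l 16519304) (b (l 16739080) (l 16710208))) (a (b (l 16489384) (l 4)) (b (l 16690968) (l 4)))))) (b (a (b (a (l 16777184) (l 16717688)) (a (l 16711672) (l 16684240))) (b (a (l 16691352) (l 16733208)) (a (l 16733096) (l 2)))) (a (b (a (b (l 16695928) (l 16649128)) (l 16732704)) (b (l 4) (l 4))) (l 2)))) (a (b (b (a (a (b (a (l 14888360) (l 15465936)) (l 4)) (l 4)) (l 4)) (a (l 4) (a (l 4) (l 2)))) (a (b (l 4) (a (l 4) (l 2))) (l 2))) (l 2))), by decide +kernel⟩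

theorem c_pp_033 : CertNX 67108864 469762048 1610612736 536870912 1046898278 26843546 3 false true true .pnn 0 3 3
    ndN1q0 ndN3q3 pcN3 Cut.none Ext.none :=
  certNX1 (fam := false) (s1 := true) (s2 := true) (a := 0) (b := 3) (c := 3) (cn := .pnn) (n1 := ndN1q0) (n2 := ndN3q3) (pc := pcN3) (cut := Cut.none) (xt := Ext.none) (P1 := 67108864) (W1 := 469762048) (P2 := 1610612736) (W2 := 536870912) (P3 := 1046898278) (W3 := 26843546) (N0 := 3)
    rfl (fun _ => rfl) k0_pp_033

noncomputable def f_pp_101 : ℕ → ℕ → ℕ → ℕ → Bool := onCell 536870912 536870912 536870912 536870912 1046898278 26843546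
    (rowNX 3 0 false true true .npn 1 0 1 (qsf 536870912 536870912 536870912 536870912 0) ndN1q1 ndN3q1 pcN0 Cut.none Ext.none)

def k0_pp_101 : ∃ t, chk3 f_pp_101 t 1 1 1 = true :=
  ⟨(l 3), by decide +kernel⟩

theorem c_pp_101 : CertNX 536870912 536870912 536870912 536870912 1046898278 26843546 3 false true true .npn 1 0 1
    ndN1q1 ndN3q1 pcN0 Cut.none Ext.none :=
  certNX0 (fam := false) (s1 := true) (s2 := true) (a := 1) (b := 0) (c := 1) (cn := .npn) (n1 := ndN1q1) (n2 := ndN3q1) (pc := pcN0) (cut := Cut.none) (xt := Ext.none) (P1 := 536870912) (W1 := 536870912) (P2 := 536870912) (W2 := 536870912) (P3 := 1046898278) (W3 := 26843546) (N0 := 3)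
    rfl k0_pp_101

noncomputable def f_pp_102 : ℕ → ℕ → ℕ → ℕ → Bool := onCell 536870912 536870912 0 536870912 1046898278 26843546
    (rowNX 3 1 false true true .npp 1 0 2 (qsf 536870912 536870912 1073741824 536870912 0) ndN1q1 ndN3q2 pcN0 Cut.none Ext.none)

def k0_pp_102 : ∃ t, chk3 f_pp_102 t 1 1 1 = true :=
  ⟨(l 3), by decide +kernel⟩

theorem c_pp_102 : CertNX 536870912 536870912 1073741824 536870912 1046898278 26843546 3 false true true .npp 1 0 2
    ndN1q1 ndN3q2 pcN0 Cut.none Ext.none :=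
  certNX1 (fam := false) (s1 := true) (s2 := true) (a := 1) (b := 0) (c := 2) (cn := .npp) (n1 := ndN1q1) (n2 := ndN3q2) (pc := pcN0) (cut := Cut.none) (xt := Ext.none) (P1 := 536870912) (W1 := 536870912) (P2 := 1073741824) (W2 := 536870912) (P3 := 1046898278) (W3 := 26843546) (N0 := 3)
    rfl (fun _ => rfl) k0_pp_102

noncomputable def f_pp_112 : ℕ → ℕ → ℕ → ℕ → Bool := onCell 536870912 536870912 1073741824 536870912 1046898278 26843546
    (rowNX 3 2 false true true .dn 1 1 2 (qsf 536870912 536870912 1073741824 536870912 1) ndN1q1 ndN3q2 pcN1 Cut.none Ext.none)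

def k0_pp_112 : ∃ t, chk3 f_pp_112 t 1 1 1 = true :=
  ⟨(a (l 3) (a (l 3) (b (l 1) (b (a (l 3) (l 1)) (a (l 3) (a (a (l 15884384) (l 84856323063)) (b (l 1) (a (c (c (l 15349080) (l 15517736)) (l 15480592)) (c (l 15415760) (a (l 15387792) (l 181492537271))))))))))), by decide +kernel⟩

theorem c_pp_112 : CertNX 536870912 536870912 1073741824 536870912 1046898278 26843546 3 false true true .dn 1 1 2
    ndN1q1 ndN3q2 pcN1 Cut.none Ext.none :=
  certNX2 (fam := false) (s1 := true) (s2 := true) (a := 1) (b := 1) (c := 2) (cn := .dn) (n1 := ndN1q1) (n2 := ndN3q2) (pc := pcN1) (cut := Cut.none) (xt := Ext.none) (P1 := 536870912) (W1 := 536870912) (P2 := 1073741824) (W2 := 536870912) (P3 := 1046898278) (W3 := 26843546) (N0 := 3)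
    rfl (fun _ => rfl) k0_pp_112

noncomputable def f_pp_113 : ℕ → ℕ → ℕ → ℕ → Bool := onCell 536870912 536870912 536870912 536870912 1046898278 26843546
    (rowNX 3 1 false true true .nn 1 1 3 (qsf 536870912 536870912 1610612736 536870912 1) ndN1q1 ndN3q3 pcN1 Cut.none Ext.none)

def k0_pp_113 : ∃ t, chk3 f_pp_113 t 1 1 1 = true :=
  ⟨(b (l 3) (b (a (l 3) (l 3)) (a (b (b (l 3) (a (l 16196416) (l 16194008))) (b (b (a (l 15881048) (l 15874240)) (a (c (l 15632680) (l 15605536)) (b (l 15674608) (l 15579224)))) (b (c (b (a (l 15539416) (l 15495432)) (c (l 78413851239) (a (l 15493512) (l 15488800)))) (l 15457336)) (c (a (l 15410264) (l 15402328)) (c (b (a (l 15403680) (l 15397312)) (l 15338888)) (b (l 15378144) (a (l 15212920) (l 15203176)))))))) (b (b (l 3) (a (a (l 16178920) (l 16074584)) (a (l 15649016) (a (l 15238320) (b (l 3) (l 14913872)))))) (a (b (b (a (l 15855320) (l 15750944)) (a (l 15456008) (b (l 15560208) (l 15468472)))) (b (c (b (a (l 15523168) (l 15515984)) (c (l 15442616)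 (a (l 15472112) (l 15375352)))) (a (l 15461336) (l 15351344))) (c (a (l 15383592) (l 15290568)) (b (a (l 15486824) (c (l 15376112) (l 15237288))) (c (l 15103808) (a (l 15285520) (b (l 15183008) (l 15148688)))))))) (b (a (b (l 15349776) (b (l 15174440) (l 15093496))) (b (a (l 15001160) (l 14797760)) (b (a (l 14874544) (l 14756824)) (a (l 14827784) (l 14789104))))) (b (a (c (b (a (l 15231696) (l 15072072)) (c (l 15142240) (a (l 15138552) (l 14971688)))) (l 14935952)) (c (b (a (l 15030776) (c (l 15490920) (l 15083080))) (c (l 15321576) (a (l 14930248) (l 15279136)))) (l 14502392))) (c (a (a (l 15080592) (l 14980400)) (a (l 15069920) (l 16215896))) (a (b (c (a (l 14997208) (l 14796736)) (l 14795192)) (c (l 14844760) (a (l 14852672) (l 14613840)))) (b (c (a (l 14684040) (l 14931952)) (l 14283512)) (c (l 14668288) (a (l 14306120) (b (l 14301840) (l 14352240)))))))))))))), by decide +kernel⟩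

theorem c_pp_113 : CertNX 536870912 536870912 1610612736 536870912 1046898278 26843546 3 false true true .nn 1 1 3
    ndN1q1 ndN3q3 pcN1 Cut.none Ext.none :=
  certNX1 (fam := false) (s1 := true) (s2 := true) (a := 1) (b := 1) (c := 3) (cn := .nn) (n1 := ndN1q1) (n2 := ndN3q3) (pc := pcN1) (cut := Cut.none) (xt := Ext.none) (P1 := 536870912) (W1 := 536870912) (P2 := 1610612736) (W2 := 536870912) (P3 := 1046898278) (W3 := 26843546) (N0 := 3)
    rfl (fun _ => rfl) k0_pp_113

noncomputable def f_pp_123 : ℕ → ℕ → ℕ → ℕ → Bool := onCell 1073741824 536870912 1610612736 536870912 1046898278 26843546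
    (rowNX 3 2 false true true .npn 1 2 3 (qsf 536870912 536870912 1610612736 536870912 2) ndN1q1 ndN3q3 pcN2 Cut.none Ext.none)

def k0_pp_123 : ∃ t, chk3 f_pp_123 t 1 1 1 = true :=
  ⟨(a (a (b (a (a (b (c (a (a (l 15796040) (l 15744656)) (l 15642496)) (a (a (l 15757200) (l 15697304)) (l 15589664))) (a (c (a (l 15863720) (l 15633496)) (a (l 15829560) (l 15741704))) (c (b (l 15644256) (l 15637640)) (l 15593936)))) (b (c (a (l 15486208) (b (l 15342248) (l 15292728))) (a (l 15434952) (l 15261952))) (c (a (b (l 15450408) (l 15431288)) (b (l 15255256) (l 15233544))) (a (l 15394048) (l 15177184))))) (a (b (b (c (l 212630630583) (l 15068352)) (a (c (l 15103016) (l 15044040)) (c (l 14921376) (l 14855648)))) (a (b (a (l 15086752) (l 14989128)) (l 15028160)) (l 14861136))) (b (b (l 1) (a (b (a (l 14748176) (l 1)) (l 14691072)) (l 14532536))) (l 14618224)))) (a (b (a (b (a (c (a (l 15882528) (l 15776000)) (a (l 15849816) (l 15740000))) (l 15589784)) (l 15603960)) (l 15092848)) (b (a (b (l 15462400)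 (l 15412880)) (b (l 15209736) (l 15259584))) (b (a (l 15843160) (l 15388672)) (a (l 16047456) (l 15510984))))) (b (a (l 14938784) (l 14630760)) (b (a (l 14978456) (l 14687312)) (b (a (l 15114824) (l 14766728)) (a (l 15445896) (l 14936056))))))) (b (a (a (b (b (l 1) (l 14498488)) (a (l 14399928) (l 14623320))) (b (l 1) (l 15382824))) (b (l 1) (a (l 16313672) (l 16776568)))) (a (b (a (a (l 14421032) (l 14645288)) (l 15398600)) (a (a (b (l 14481984) (l 14572528)) (b (l 14705160) (l 14767688))) (b (l 15452240) (l 15457544)))) (b (a (l 16319656) (l 16776624)) (a (b (l 16363712) (l 16283296)) (l 16697792)))))) (b (a (b (l 1) (l 16777216)) (l 1)) (a (b (l 16777168) (a (l 16698304) (l 16698064))) (b (l 16777168) (b (l 16729592) (l 16685896)))))), by decide +kernel⟩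

theorem c_pp_123 : CertNX 536870912 536870912 1610612736 536870912 1046898278 26843546 3 false true true .npn 1 2 3
    ndN1q1 ndN3q3 pcN2 Cut.none Ext.none :=
  certNX2 (fam := false) (s1 := true) (s2 := true) (a := 1) (b := 2) (c := 3) (cn := .npn) (n1 := ndN1q1) (n2 := ndN3q3) (pc := pcN2) (cut := Cut.none) (xt := Ext.none) (P1 := 536870912) (W1 := 536870912) (P2 := 1610612736) (W2 := 536870912) (P3 := 1046898278) (W3 := 26843546) (N0 := 3)
    rfl (fun _ => rfl) k0_pp_123

noncomputable def f_pp_133 : ℕ → ℕ → ℕ → ℕ → Bool := onCell 536870912 536870912 1610612736 536870912 1046898278 26843546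
    (rowNX 3 0 false true true .dn 1 3 3 (qsf 536870912 536870912 1610612736 536870912 3) ndN1q1 ndN3q3 pcN3 Cut.none Ext.none)

def k0_pp_133 : ∃ t, chk3 f_pp_133 t 1 1 1 = true :=
  ⟨(b (l 1) (a (b (l 1) (a (b (l 1) (l 598108059303)) (l 1))) (l 1))), by decide +kernel⟩

theorem c_pp_133 : CertNX 536870912 536870912 1610612736 536870912 1046898278 26843546 3 false true true .dn 1 3 3
    ndN1q1 ndN3q3 pcN3 Cut.none Ext.none :=
  certNX0 (fam := false) (s1 := true) (s2 := true) (a := 1) (b := 3) (c := 3) (cn := .dn) (n1 := ndN1q1) (n2 := ndN3q3) (pc := pcN3) (cut := Cut.none) (xt := Ext.none) (P1 := 536870912) (W1 := 536870912) (P2 := 1610612736) (W2 := 536870912) (P3 := 1046898278) (W3 := 26843546) (N0 := 3)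
    rfl k0_pp_133

noncomputable def f_pp_202_a : ℕ → ℕ → ℕ → ℕ → Bool := onCell 0 420477299 1073741824 536870912 1046898278 26843546
    (rowNX 3 0 false true true .pp 2 0 2 (qsf 0 420477299 1073741824 536870912 0) ndN1q2a ndN3q2 pcN0 Cut.none Ext.none)

def k0_pp_202_a : ∃ t, chk3 f_pp_202_a t 1 1 1 = true :=
  ⟨(l 3), by decide +kernel⟩

theorem c_pp_202_a : CertNX 0 420477299 1073741824 536870912 1046898278 26843546 3 false true true .pp 2 0 2
    ndN1q2a ndN3q2 pcN0 Cut.none Ext.none :=
  certNX0 (fam := false) (s1 := true) (s2 := true) (a := 2) (b := 0) (c := 2) (cn := .pp) (n1 := ndN1q2a) (n2 := ndN3q2) (pc := pcN0) (cut := Cut.none) (xt := Ext.none) (P1 := 0) (W1 := 420477299) (P2 := 1073741824) (W2 := 536870912) (P3 := 1046898278) (W3 := 26843546) (N0 := 3)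
    rfl k0_pp_202_a

noncomputable def f_pp_202_b : ℕ → ℕ → ℕ → ℕ → Bool := onCell 1239849684 370763052 1073741824 536870912 1046898278 26843546
    (rowNX 3 0 false true true .pp 2 0 2 (qsf 1239849684 370763052 1073741824 536870912 0) ndN1q2b ndN3q2 pcN0 Cut.none Ext.none)

def k0_pp_202_b : ∃ t, chk3 f_pp_202_b t 1 1 1 = true :=
  ⟨(l 3), by decide +kernel⟩

theorem c_pp_202_b : CertNX 1239849684 370763052 1073741824 536870912 1046898278 26843546 3 false true true .pp 2 0 2
    ndN1q2b ndN3q2 pcN0 Cut.none Ext.none :=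
  certNX0 (fam := false) (s1 := true) (s2 := true) (a := 2) (b := 0) (c := 2) (cn := .pp) (n1 := ndN1q2b) (n2 := ndN3q2) (pc := pcN0) (cut := Cut.none) (xt := Ext.none) (P1 := 1239849684) (W1 := 370763052) (P2 := 1073741824) (W2 := 536870912) (P3 := 1046898278) (W3 := 26843546) (N0 := 3)
    rfl k0_pp_202_b

noncomputable def f_pp_203_a : ℕ → ℕ → ℕ → ℕ → Bool := onCell 0 420477299 1610612736 536870912 1046898278 26843546
    (rowNX 3 0 false true true .up 2 0 3 (qsf 0 420477299 1610612736 536870912 0) ndN1q2a ndN3q3 pcN0 Cut.none Ext.none)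

def k0_pp_203_a : ∃ t, chk3 f_pp_203_a t 1 1 1 = true :=
  ⟨(l 3), by decide +kernel⟩

theorem c_pp_203_a : CertNX 0 420477299 1610612736 536870912 1046898278 26843546 3 false true true .up 2 0 3
    ndN1q2a ndN3q3 pcN0 Cut.none Ext.none :=
  certNX0 (fam := false) (s1 := true) (s2 := true) (a := 2) (b := 0) (c := 3) (cn := .up) (n1 := ndN1q2a) (n2 := ndN3q3) (pc := pcN0) (cut := Cut.none) (xt := Ext.none) (P1 := 0) (W1 := 420477299) (P2 := 1610612736) (W2 := 536870912) (P3 := 1046898278) (W3 := 26843546) (N0 := 3)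
    rfl k0_pp_203_a

noncomputable def f_pp_203_b : ℕ → ℕ → ℕ → ℕ → Bool := onCell 1239849684 370763052 1610612736 536870912 1046898278 26843546
    (rowNX 3 0 false true true .up 2 0 3 (qsf 1239849684 370763052 1610612736 536870912 0) ndN1q2b ndN3q3 pcN0 Cut.none Ext.none)

def k0_pp_203_b : ∃ t, chk3 f_pp_203_b t 1 1 1 = true :=
  ⟨(l 3), by decide +kernel⟩

theorem c_pp_203_b : CertNX 1239849684 370763052 1610612736 536870912 1046898278 26843546 3 false true true .up 2 0 3
    ndN1q2b ndN3q3 pcN0 Cut.none Ext.none :=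
  certNX0 (fam := false) (s1 := true) (s2 := true) (a := 2) (b := 0) (c := 3) (cn := .up) (n1 := ndN1q2b) (n2 := ndN3q3) (pc := pcN0) (cut := Cut.none) (xt := Ext.none) (P1 := 1239849684) (W1 := 370763052) (P2 := 1610612736) (W2 := 536870912) (P3 := 1046898278) (W3 := 26843546) (N0 := 3)
    rfl k0_pp_203_b

noncomputable def f_pp_213_a : ℕ → ℕ → ℕ → ℕ → Bool := onCell 0 420477299 1610612736 536870912 1046898278 26843546
    (rowNX 3 0 false true true .pnn 2 1 3 (qsf 0 420477299 1610612736 536870912 1) ndN1q2a ndN3q3 pcN1 Cut.none Ext.none)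

def k0_pp_213_a : ∃ t, chk3 f_pp_213_a t 1 1 1 = true :=
  ⟨(l 3), by decide +kernel⟩

theorem c_pp_213_a : CertNX 0 420477299 1610612736 536870912 1046898278 26843546 3 false true true .pnn 2 1 3
    ndN1q2a ndN3q3 pcN1 Cut.none Ext.none :=
  certNX0 (fam := false) (s1 := true) (s2 := true) (a := 2) (b := 1) (c := 3) (cn := .pnn) (n1 := ndN1q2a) (n2 := ndN3q3) (pc := pcN1) (cut := Cut.none) (xt := Ext.none) (P1 := 0) (W1 := 420477299) (P2 := 1610612736) (W2 := 536870912) (P3 := 1046898278) (W3 := 26843546) (N0 := 3)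
    rfl k0_pp_213_a

noncomputable def f_pp_213_b : ℕ → ℕ → ℕ → ℕ → Bool := onCell 1239849684 370763052 1610612736 536870912 1046898278 26843546
    (rowNX 3 0 false true true .pnn 2 1 3 (qsf 1239849684 370763052 1610612736 536870912 1) ndN1q2b ndN3q3 pcN1 Cut.none Ext.none)

def k0_pp_213_b : ∃ t, chk3 f_pp_213_b t 1 1 1 = true :=
  ⟨(l 3), by decide +kernel⟩

theorem c_pp_213_b : CertNX 1239849684 370763052 1610612736 536870912 1046898278 26843546 3 false true true .pnn 2 1 3
    ndN1q2b ndN3q3 pcN1 Cut.none Ext.none :=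
  certNX0 (fam := false) (s1 := true) (s2 := true) (a := 2) (b := 1) (c := 3) (cn := .pnn) (n1 := ndN1q2b) (n2 := ndN3q3) (pc := pcN1) (cut := Cut.none) (xt := Ext.none) (P1 := 1239849684) (W1 := 370763052) (P2 := 1610612736) (W2 := 536870912) (P3 := 1046898278) (W3 := 26843546) (N0 := 3)
    rfl k0_pp_213_b

noncomputable def f_pp_303 : ℕ → ℕ → ℕ → ℕ → Bool := onCell 1610612736 469762048 1610612736 536870912 1046898278 26843546
    (rowNX 3 0 false true true .npn 3 0 3 (qsf 1610612736 469762048 1610612736 536870912 0) ndN1q3 ndN3q3 pcN0 Cut.none Ext.none)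

def k0_pp_303 : ∃ t, chk3 f_pp_303 t 1 1 1 = true :=
  ⟨(l 3), by decide +kernel⟩

theorem c_pp_303 : CertNX 1610612736 469762048 1610612736 536870912 1046898278 26843546 3 false true true .npn 3 0 3
    ndN1q3 ndN3q3 pcN0 Cut.none Ext.none :=
  certNX0 (fam := false) (s1 := true) (s2 := true) (a := 3) (b := 0) (c := 3) (cn := .npn) (n1 := ndN1q3) (n2 := ndN3q3) (pc := pcN0) (cut := Cut.none) (xt := Ext.none) (P1 := 1610612736) (W1 := 469762048) (P2 := 1610612736) (W2 := 536870912) (P3 := 1046898278) (W3 := 26843546) (N0 := 3)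
    rfl k0_pp_303

noncomputable def f_pp_313 : ℕ → ℕ → ℕ → ℕ → Bool := onCell 1610612736 469762048 1610612736 536870912 1046898278 26843546
    (rowNX 3 0 false true true .dn 3 1 3 (qsf 1610612736 469762048 1610612736 536870912 1) ndN1q3 ndN3q3 pcN1 Cut.none Ext.none)

def k0_pp_313 : ∃ t, chk3 f_pp_313 t 1 1 1 = true :=
  ⟨(l 3), by decide +kernel⟩

theorem c_pp_313 : CertNX 1610612736 469762048 1610612736 536870912 1046898278 26843546 3 false true true .dn 3 1 3
    ndN1q3 ndN3q3 pcN1 Cut.none Ext.none :=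
  certNX0 (fam := false) (s1 := true) (s2 := true) (a := 3) (b := 1) (c := 3) (cn := .dn) (n1 := ndN1q3) (n2 := ndN3q3) (pc := pcN1) (cut := Cut.none) (xt := Ext.none) (P1 := 1610612736) (W1 := 469762048) (P2 := 1610612736) (W2 := 536870912) (P3 := 1046898278) (W3 := 26843546) (N0 := 3)
    rfl k0_pp_313

noncomputable def f_pm_001 : ℕ → ℕ → ℕ → ℕ → Bool := onCell 67108864 469762048 536870912 536870912 1046898278 26843546
    (rowNX 3 0 false true false .up 0 0 1 (qsf 67108864 469762048 536870912 536870912 0) ndN1q0 ndN3q1 pcN0 Cut.none Ext.none)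

def k0_pm_001 : ∃ t, chk3 f_pm_001 t 1 1 1 = true :=
  ⟨(l 4), by decide +kernel⟩

theorem c_pm_001 : CertNX 67108864 469762048 536870912 536870912 1046898278 26843546 3 false true false .up 0 0 1
    ndN1q0 ndN3q1 pcN0 Cut.none Ext.none :=
  certNX0 (fam := false) (s1 := true) (s2 := false) (a := 0) (b := 0) (c := 1) (cn := .up) (n1 := ndN1q0) (n2 := ndN3q1) (pc := pcN0) (cut := Cut.none) (xt := Ext.none) (P1 := 67108864) (W1 := 469762048) (P2 := 536870912) (W2 := 536870912) (P3 := 1046898278) (W3 := 26843546) (N0 := 3)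
    rfl k0_pm_001

noncomputable def f_pm_011 : ℕ → ℕ → ℕ → ℕ → Bool := onCell 67108864 469762048 536870912 536870912 1046898278 26843546
    (rowNX 3 0 false true false .pnn 0 1 1 (qsf 67108864 469762048 536870912 536870912 1) ndN1q0 ndN3q1 pcN1 Cut.none Ext.none)

def k0_pm_011 : ∃ t, chk3 f_pm_011 t 1 1 1 = true :=
  ⟨(l 4), by decide +kernel⟩

theorem c_pm_011 : CertNX 67108864 469762048 536870912 536870912 1046898278 26843546 3 false true false .pnn 0 1 1
    ndN1q0 ndN3q1 pcN1 Cut.none Ext.none :=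
  certNX0 (fam := false) (s1 := true) (s2 := false) (a := 0) (b := 1) (c := 1) (cn := .pnn) (n1 := ndN1q0) (n2 := ndN3q1) (pc := pcN1) (cut := Cut.none) (xt := Ext.none) (P1 := 67108864) (W1 := 469762048) (P2 := 536870912) (W2 := 536870912) (P3 := 1046898278) (W3 := 26843546) (N0 := 3)
    rfl k0_pm_011

end Pool.Agent.Strip051.G.IE1.Tab.C.NB13

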