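import Pool.Agent.Strip051.G.IE1.Tab

/-! # Certificates N86 (generated) -/

set_option linter.all false
set_option maxRecDepth 100000

namespace Pool.Agent.Strip051.G.IE1.Tab.C.NB72

open Pool.Agent.Strip051.PB Pool.Agent.Strip051.PB.T
open Pool.Agent.Strip051.G.IE1.Tab

noncomputable def f_pp_202_b : ℕ → ℕ → ℕ → ℕ → Bool := onCell 1073741824 536870912 0 536870912 1046898278 26843546
    (rowNX 3 1 false true true .pp 2 0 2 (qsf 1073741824 536870912 1239849684 370763052 0) ndN7q2 ndN2q2b pcN0 Cut.none Ext.none)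

def k0_pp_202_b : ∃ t, chk3 f_pp_202_b t 4 8 1 = true :=
  ⟨(a (l 1) (a (a (l 1) (a (l 1) (b (l 1) (b (l 1) (c (c (b (l 1) (l 14722688)) (l 14720144)) (l 14669624)))))) (b (a (l 1) (a (l 1) (b (l 1) (b (l 1) (c (l 15306264) (l 15224936)))))) (c (b (c (a (l 14996120) (l 15218872)) (a (l 525089111127) (l 15159264))) (c (b (l 15000232) (l 14968872)) (l 14972520))) (b (a (l 14872944) (l 15107904)) (l 14929352)))))), by decide +kernel⟩

def k1_pp_202_b : ∃ t, chk3 f_pp_202_b t 10 8 1 = true :=
  ⟨(a (b (b (b (a (l 1) (c (b (l 15928496) (c (l 15907184) (l 15734008))) (b (c (l 15885552) (l 15717608)) (b (l 15665904) (c (l 15654784) (l 15853144)))))) (b (a (l 1) (c (c (l 15633432) (l 15797768)) (c (l 15668928) (l 15847768)))) (c (c (a (l 15592504) (l 15896632)) (a (l 15471464) (l 15864888))) (c (l 15540824) (l 15606272))))) (b (c (b (c (l 15622552) (a (l 15459696) (l 15922880))) (c (a (l 15524728) (l 15936504)) (l 15742616))) (c (l 84856462599) (l 15672792))) (c (c (a (l 15604576) (l 15959016))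 (l 15727880)) (l 15486784)))) (c (b (c (l 15752288) (l 15558064)) (c (b (l 15714960) (l 15694840)) (l 15681856))) (b (l 15669872) (l 15659336)))) (b (b (c (c (b (l 16275992) (b (a (l 16224736) (l 16169760)) (l 16179952))) (b (a (b (l 16238544) (l 16198224)) (l 16144464)) (b (a (l 16228120) (l 16152136)) (a (l 16254912) (l 16102376))))) (b (a (c (b (l 16217344) (b (l 16210712) (l 16109832))) (b (a (l 16114264) (c (l 16290552) (b (l 16200160) (l 16286400)))) (c (l 16211184) (l 16200368)))) (c (b (l 16176384) (b (l 16175688) (l 16164312))) (b (c (l 16078928) (b (l 15981784) (l 16180640))) (l 16017280)))) (c (a (b (l 16190096) (l 16237304)) (l 15919520)) (l 16136936)))) (c (c (b (a (l 16196752) (l 16061576)) (l 16098800)) (a (l 16006328) (l 15971408))) (c (a (l 16226584) (l 16112464)) (l 16292968)))) (c (b (a (l 16035880) (l 15914280)) (c (b (a (l 16219224) (l 16111272)) (c (l 16070824) (l 16277192))) (l 16043136))) (b (l 16083448) (l 16261800))))), by decide +kernel⟩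

def k2_pp_202_b : ∃ t, chk3 f_pp_202_b t 11 8 1 = true :=
  ⟨(b (b (c (b (a (c (l 15696272) (l 15454816)) (l 14956592)) (c (a (b (l 15544544) (l 15714240)) (b (l 15275592) (l 15272008))) (b (a (l 15602272) (l 15240232)) (a (l 15604640) (l 15215848))))) (b (c (b (a (l 15705496) (l 15189888)) (a (c (l 15607456) (l 15511008)) (c (l 15220304) (l 15202896)))) (b (a (c (b (l 15708784) (l 15665432)) (c (l 15455168) (l 15496992))) (c (l 15184192) (b (l 15175816) (l 15180160)))) (c (a (l 15693520) (l 15191960)) (l 15380184)))) (c (a (b (l 15512216) (l 15674536)) (l 15213304)) (a (l 15696208) (l 15218160))))) (c (b (c (b (l 15321464) (a (l 15635672) (l 15211648))) (a (l 15513720) (l 15226592))) (a (l 15502280) (l 15141216))) (c (a (l 15608136) (l 15279448)) (l 15408160)))) (c (b (c (a (l 15674272) (l 15363144)) (a (l 15517936) (l 15310440))) (a (c (b (l 15769368) (l 15841760)) (l 15796296)) (c (b (b (l 15456400) (l 15295936)) (b (l 15429096) (l 15541784))) (l 15469256)))) (b (a (l 15772256)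 (l 15343888)) (a (l 15803944) (l 15430408))))), by decide +kernel⟩

def k3_pp_202_b : ∃ t, chk3 f_pp_202_b t 2 9 1 = true :=
  ⟨(a (b (b (a (l 1) (c (a (c (a (c (l 14535592) (l 726414828823)) (c (l 14607504) (l 14523616))) (a (l 14403232) (l 14493416))) (b (l 14912544) (l 14798968))) (a (l 14397240) (l 14794728)))) (a (a (l 1) (a (l 1) (a (l 1) (c (c (l 14036800) (l 13991624)) (l 13869432))))) (a (c (c (a (c (l 14191376) (l 14146624)) (l 14332104)) (l 14144944)) (l 14070592)) (c (l 14615576) (l 14538088))))) (b (a (a (l 1) (a (b (l 1) (c (l 13424840) (l 418785442935))) (c (c (b (l 13708784) (l 13625952)) (b (c (l 13699456) (l 13646640)) (l 13586568))) (l 13505000)))) (a (c (a (c (b (l 13938320) (l 13869272)) (l 13791832)) (b (a (l 13916384) (l 14091056)) (l 13878320))) (l 13810000)) (b (a (l 14192696) (l 14520472)) (l 14286376)))) (a (c (a (l 13183712) (c (l 13474648) (a (l 13315280) (l 13542056)))) (a (a (l 1) (a (l 1) (c (l 13132936) (l 13072064)))) (a (c (l 13265128) (l 13183496))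 (l 13418936)))) (a (c (c (a (l 13838248) (l 14029720)) (l 13821968)) (l 13734200)) (c (l 14251592) (l 14162240)))))) (b (b (a (c (a (b (c (l 15582072) (l 15613960)) (l 15510528)) (b (l 15959496) (l 16038576))) (a (l 15418240) (l 15878656))) (b (c (a (l 15839264) (l 15663640)) (a (l 15981480) (l 15645464))) (a (c (l 16232320) (l 16221656)) (l 15939000)))) (a (a (c (l 15282064) (l 15237656)) (c (b (l 15889168) (l 15722320)) (b (l 15868128) (l 15691416)))) (a (c (l 15977768) (l 16005496)) (c (l 16338968) (l 16332960))))) (b (a (b (a (c (l 15043288) (l 14983312)) (c (l 15356640) (l 15421080))) (a (l 14911608) (l 15409040))) (b (c (l 15859344) (l 15875032)) (l 15826712))) (a (a (c (l 14832680) (l 14764400)) (l 15286232)) (a (l 15603912) (l 15907336)))))), by decide +kernel⟩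

def k4_pp_202_b : ∃ t, chk3 f_pp_202_b t 12 4 1 = true :=
  ⟨(b (b (b (c (a (b (c (l 14782080) (l 14802200)) (c (b (a (l 14978976) (c (l 14792792) (l 14780000))) (c (l 14895256) (l 14858568))) (b (l 14839264) (l 14806328)))) (b (c (l 14431264) (c (l 14406416) (l 14185096))) (c (a (b (l 14599440) (l 14595240)) (l 14408648)) (b (c (l 14214128) (l 14432200)) (l 14460816))))) (b (c (b (l 14572104) (c (a (l 14809480) (l 14402048)) (l 14588672))) (b (c (l 14515744) (b (l 14457896) (l 14549328))) (c (l 14571648) (l 14567496)))) (c (a (l 14806112) (l 14357896)) (l 14600400)))) (c (c (b (b (a (l 14826696) (l 14517080)) (a (l 14857880) (l 14542672))) (l 14754480)) (a (l 14711712) (l 14313928))) (c (a (l 14872216) (b (c (l 14484240) (l 14473232)) (l 14560776))) (l 14659072)))) (c (b (c (a (l 15015416) (b (l 14703360) (c (l 14762856) (l 14752440)))) (b (c (l 14834072) (l 14590832)) (a (l 14962288) (b (l 14715768) (l 14700120))))) (c (a (b (c (l 15150360) (l 15152536)) (l 15201392)) (b (a (l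 14915120) (c (l 14788336) (l 14696104))) (c (b (l 14901544) (l 14919688)) (l 14882632)))) (a (l 15163416) (l 14818256)))) (b (a (l 14965760) (l 14627472)) (a (l 15118608) (l 14769144))))) (b (a (b (b (l 15228096) (c (l 15718088) (l 15687456))) (a (l 16240544) (c (b (l 16040472) (l 16398976)) (l 16197928)))) (b (c (b (l 15086352) (l 15424264)) (b (l 15029912) (l 15380024))) (c (b (l 15730544) (l 16015904)) (l 15806000)))) (b (a (b (c (l 16244072) (l 16336808)) (l 16288160)) (c (l 16264880) (l 16315776))) (a (l 16279856) (l 16401560))))), by decide +kernel⟩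

def k5_pp_202_b : ∃ t, chk3 f_pp_202_b t 13 4 1 = true :=
  ⟨(b (b (b (b (c (a (c (l 14129712) (a (l 14048888) (l 14034672))) (c (l 14092856) (l 14045672))) (c (b (a (l 14058096) (l 13984408)) (a (c (a (l 14142248) (l 14038896)) (l 14000376)) (l 13891168))) (c (b (a (l 14028216) (l 13949104)) (l 14007776)) (a (b (l 14017144) (l 14035944)) (b (c (l 13933016) (l 13920824)) (l 13961208)))))) (c (a (a (c (l 14229624) (a (l 14243792) (l 14163320))) (b (l 14116848) (l 14154640))) (l 14128416)) (c (a (a (l 14172584) (l 14092920)) (l 14079056)) (b (c (c (l 14054568) (l 13918416)) (l 14023176)) (a (l 14103712) (l 14057704)))))) (c (b (a (a (c (l 14308304) (l 14288296)) (l 14227304)) (l 14209256)) (c (l 14324560) (c (l 14307416) (b (l 14277640) (l 14325608))))) (c (b (c (a (l 14220072) (l 14171656)) (a (a (l 14236728) (l 14145432)) (c (l 14161320) (l 14143752)))) (c (a (c (l 14308752) (l 14293064)) (c (l 14264960) (l 14245208))) (l 14236488))) (l 14170440)))) (c (b (c (c (l 14469016) (b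 (l 14412672) (a (l 14538200) (l 14484592)))) (c (b (a (l 14434024) (l 14387288)) (a (a (l 14529992) (l 14465672)) (c (l 14456184) (l 14419168)))) (b (b (a (l 14389672) (l 14342344)) (l 14297416)) (l 14430760)))) (c (b (c (a (l 14628416) (l 14582848)) (a (l 14590928) (c (l 14548336) (l 14507536)))) (c (a (l 14468560) (b (l 14616968) (l 14615352))) (l 14598304))) (l 14533848))) (b (a (l 14387760) (l 14317416)) (l 14475080)))) (b (b (a (c (b (l 14797336) (l 15052976)) (l 14854784)) (c (b (l 14677040) (l 14846280)) (a (l 14716776) (l 14644632)))) (a (c (l 15414720) (l 15367216)) (c (l 15142448) (l 15085008)))) (b (a (c (l 15809832) (l 15776240)) (c (l 15484024) (l 15438608))) (a (l 15933952) (l 15648160))))), by decide +kernel⟩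

def k6_pp_202_b : ∃ t, chk3 f_pp_202_b t 7 4 1 = true :=
  ⟨(a (b (a (a (a (b (l 3) (c (b (b (l 3) (c (l 14440920) (l 14411528))) (b (l 14499200) (l 14567936))) (l 14366336))) (l 3)) (l 3)) (l 3)) (b (b (c (b (l 14642440) (l 14781184)) (l 14634408)) (c (l 15038672) (l 14977544))) (b (c (l 15356792) (l 15306848)) (l 15495872)))) (l 3)), by decide +kernel⟩

def k7_pp_202_b : ∃ t, chk3 f_pp_202_b t 2 5 1 = true :=
  ⟨(a (b (a (c (b (a (b (l 12983840) (l 12867056)) (c (b (l 13417808) (l 13348504)) (a (l 13214832) (b (l 13492952) (c (l 13459424) (l 13406424)))))) (a (b (l 12840016) (l 12846824)) (c (l 13315984) (a (l 13161096) (c (l 13410288) (l 13353224)))))) (b (a (c (a (l 12758888) (c (l 12944592) (a (l 12861448) (l 12975408)))) (a (c (l 329663660455) (a (l 12632384) (l 12704800))) (l 12866288))) (a (b (l 13148120) (b (l 13091888) (l 13072752))) (b (l 13354984) (l 13293408)))) (a (c (a (l 12625776) (c (l 12895064) (l 12853592))) (a (c (l 12575168) (a (l 12477192) (l 12603952))) (l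 12804176))) (a (b (l 12902832) (l 13048480)) (l 13241344))))) (b (a (c (b (c (a (l 13788544) (l 13950856)) (l 13749416)) (c (a (l 13475400) (l 13841736)) (l 13653944))) (b (l 13660512) (l 13562912))) (b (c (l 14132032) (l 14037792)) (l 13931568))) (a (c (c (a (l 13596752) (l 13712768)) (l 13537592)) (l 13445288)) (l 13837608)))) (a (b (c (a (l 12827328) (c (l 13234968) (a (l 13090312) (l 13279176)))) (a (c (a (l 12634592) (l 12842584)) (a (c (l 12585752) (l 12543040)) (l 12779128))) (l 12903520))) (c (a (l 12823920) (c (l 13206728) (a (l 13058160) (l 13253512)))) (a (c (a (l 12641344) (l 12816856)) (a (c (l 12592600) (l 12549960)) (l 12752848))) (l 13041520)))) (b (a (c (c (l 13566944) (l 13463664)) (l 13369056)) (l 13792376)) (a (c (c (l 13550648) (l 13447008)) (l 13351864)) (l 13786160))))) (b (a (b (a (l 14576960) (l 15112304)) (l 14663656)) (b (a (b (l 15509336) (l 15438832)) (b (l 15854880) (l 15824040))) (a (l 15435544) (l 15840136)))) (b (a (a (l 14435096) (l 15031856)) (l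 15648976)) (a (l 14744984) (l 15646440))))), by decide +kernel⟩

def k8_pp_202_b : ∃ t, chk3 f_pp_202_b t 3 5 1 = true :=
  ⟨(b (a (a (b (a (l 16255336) (l 16503224)) (l 16384920)) (b (a (l 16121776) (c (l 15901984) (l 15871256))) (a (l 16398744) (l 16254768)))) (a (b (l 15752360) (l 2)) (l 2))) (a (a (b (l 16363016) (l 16342144)) (b (l 16638120) (l 2))) (l 2))), by decide +kernel⟩

def k9_pp_202_b : ∃ t, chk3 f_pp_202_b t 1 3 1 = true :=
  ⟨(a (a (a (c (c (b (l 13038680) (l 13038680)) (a (l 12790680) (b (a (l 13058136) (l 13253488)) (l 13131520)))) (a (b (c (a (l 12641376) (l 12816816)) (a (b (l 12570688) (l 12570688)) (l 12752808))) (c (l 12729864) (l 12457976))) (b (c (l 13066264) (l 12998944)) (l 13041488)))) (a (c (b (c (a (l 13497456) (l 13634312)) (l 13447000)) (l 13507200)) (l 13351848)) (b (l 13786160) (l 13786160)))) (a (b (a (l 14437696) (l 15040368)) (l 14744992)) (b (l 15646432) (l 2)))) (a (b (a (l 16342120) (l 2)) (l 2)) (l 2))), by decide +kernel⟩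

theorem s10_pp_202_b : ∃ t, chk3 f_pp_202_b t 1 5 1 = true := ex3_a k7_pp_202_b k8_pp_202_b

theorem s11_pp_202_b : ∃ t, chk3 f_pp_202_b t 6 4 1 = true := ex3_a k4_pp_202_b k5_pp_202_b

theorem s12_pp_202_b : ∃ t, chk3 f_pp_202_b t 3 4 1 = true := ex3_a s11_pp_202_b k6_pp_202_b

theorem s13_pp_202_b : ∃ t, chk3 f_pp_202_b t 5 8 1 = true := ex3_a k1_pp_202_b k2_pp_202_b

theorem s14_pp_202_b : ∃ t, chk3 f_pp_202_b t 2 8 1 = true := ex3_a k0_pp_202_b s13_pp_202_b

theorem s15_pp_202_b : ∃ t, chk3 f_pp_202_b t 2 4 1 = true := ex3_b s14_pp_202_b k3_pp_202_b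

theorem s16_pp_202_b : ∃ t, chk3 f_pp_202_b t 1 4 1 = true := ex3_a s15_pp_202_b s12_pp_202_b

theorem s17_pp_202_b : ∃ t, chk3 f_pp_202_b t 1 2 1 = true := ex3_b s16_pp_202_b s10_pp_202_b

theorem s18_pp_202_b : ∃ t, chk3 f_pp_202_b t 1 1 1 = true := ex3_b s17_pp_202_b k9_pp_202_b

theorem c_pp_202_b : CertNX 1073741824 536870912 1239849684 370763052 1046898278 26843546 3 false true true .pp 2 0 2
    ndN7q2 ndN2q2b pcN0 Cut.none Ext.none :=
  certNX1 (fam := false) (s1 := true) (s2 := true) (a := 2) (b := 0) (c := 2) (cn := .pp) (n1 := ndN7q2) (n2 := ndN2q2b) (pc := pcN0) (cut := Cut.none) (xt := Ext.none) (P1 := 1073741824) (W1 := 536870912) (P2 := 1239849684) (W2 := 370763052) (P3 := 1046898278) (W3 := 26843546) (N0 := 3)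
    rfl (fun _ => rfl) s18_pp_202_b

noncomputable def f_pp_203 : ℕ → ℕ → ℕ → ℕ → Bool := onCell 0 536870912 1610612736 469762048 1046898278 26843546
    (rowNX 3 2 false true true .up 2 0 3 (qsf 1073741824 536870912 1610612736 469762048 0) ndN7q2 ndN2q3 pcN0 Cut.none Ext.none)

def k0_pp_203 : ∃ t, chk3 f_pp_203 t 1 1 1 = true :=
  ⟨(b (b (a (a (a (l 3) (a (l 3) (b (a (c (l 15356792) (l 15306848)) (l 15537816)) (l 3)))) (a (a (b (a (l 15764112) (l 15902664)) (l 15710416)) (b (c (l 16183152) (l 16187080)) (l 16103536))) (a (b (l 16565400) (c (l 16583568) (l 16576760))) (b (l 16456576) (l 16753248))))) (a (a (b (l 15903352) (l 16495392)) (b (a (l 15403096) (l 14932592)) (l 15877688))) (a (b (a (l 14351280) (b (l 13401648) (l 13904424))) (l 14889752)) (b (c (a (b (c (l 13324672) (l 13242536)) (l 13553776)) (b (l 12974552) (c (l 13289792) (l 13194456)))) (a (l 13355368) (b (c (l 12863736) (l 12778944)) (l 13119464)))) (c (a (l 14364664) (b (l 13510920) (l 13856480))) (l 13943152))))))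 (a (a (l 3) (a (a (l 3) (c (l 16188992) (l 16168304))) (a (b (l 16564344) (l 16539256)) (c (l 16771376) (l 16771168))))) (a (a (b (l 16744800) (l 16777216)) (b (l 16436744) (l 16725120))) (a (b (l 15787480) (l 16371776)) (b (l 14908208) (l 15695048)))))) (b (a (a (l 2) (a (l 2) (a (l 3) (a (l 195052133383) (l 16777160))))) (a (c (a (l 16777160) (l 16777160)) (a (l 16777152) (l 16777152))) (a (b (l 16700432) (l 16777104)) (b (l 16300296) (l 16670664))))) (a (l 2) (a (a (l 2) (c (l 16748264) (l 16747248))) (b (l 16776896) (l 16745904)))))), by decide +kernel⟩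

theorem c_pp_203 : CertNX 1073741824 536870912 1610612736 469762048 1046898278 26843546 3 false true true .up 2 0 3
    ndN7q2 ndN2q3 pcN0 Cut.none Ext.none :=
  certNX2 (fam := false) (s1 := true) (s2 := true) (a := 2) (b := 0) (c := 3) (cn := .up) (n1 := ndN7q2) (n2 := ndN2q3) (pc := pcN0) (cut := Cut.none) (xt := Ext.none) (P1 := 1073741824) (W1 := 536870912) (P2 := 1610612736) (W2 := 469762048) (P3 := 1046898278) (W3 := 26843546) (N0 := 3)
    rfl (fun _ => rfl) k0_pp_203

noncomputable def f_pp_213 : ℕ → ℕ → ℕ → ℕ → Bool := onCell 1073741824 536870912 1610612736 469762048 1046898278 26843546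
    (rowNX 3 0 false true true .pnn 2 1 3 (qsf 1073741824 536870912 1610612736 469762048 1) ndN7q2 ndN2q3 pcN1 Cut.none Ext.none)

def k0_pp_213 : ∃ t, chk3 f_pp_213 t 1 1 1 = true :=
  ⟨(a (b (a (a (c (a (l 12823936) (b (l 13159144) (l 13159144))) (a (c (l 12541120) (a (l 12570688) (l 12752808))) (l 13041488))) (a (c (l 507906330935) (l 13351848)) (l 500927629911))) (a (b (l 1) (l 14744992)) (l 481603997623))) (a (b (a (a (c (l 12777400) (b (l 12687112) (l 12595336))) (c (l 13155288) (l 13036992))) (a (l 13425176) (l 13786216))) (a (b (a (c (l 12449656) (b (l 12355360) (l 12088112))) (c (l 13061464) (l 12908904))) (a (c (l 12207896) (a (l 11233208) (l 11916768))) (c (b (l 13026216) (l 13121856)) (l 12752504)))) (a (b (l 13409256) (b (l 13410472) (l 13480744))) (l 13766840)))) (b (a (l 14745048) (l 15646488)) (a (b (l 14745280) (l 14730968)) (l 15620064))))) (b (l 1) (a (b (a (l 16342176) (l 16763800)) (a (l 16315000) (l 16734656))) (b (l 1) (a (l 16747760) (b (l 1) (l 16745904))))))),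 by decide +kernel⟩

theorem c_pp_213 : CertNX 1073741824 536870912 1610612736 469762048 1046898278 26843546 3 false true true .pnn 2 1 3
    ndN7q2 ndN2q3 pcN1 Cut.none Ext.none :=
  certNX0 (fam := false) (s1 := true) (s2 := true) (a := 2) (b := 1) (c := 3) (cn := .pnn) (n1 := ndN7q2) (n2 := ndN2q3) (pc := pcN1) (cut := Cut.none) (xt := Ext.none) (P1 := 1073741824) (W1 := 536870912) (P2 := 1610612736) (W2 := 469762048) (P3 := 1046898278) (W3 := 26843546) (N0 := 3)
    rfl k0_pp_213

noncomputable def f_pp_303 : ℕ → ℕ → ℕ → ℕ → Bool := onCell 0 1230186008 1610612736 469762048 1046898278 26843546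
    (rowNX 3 0 false true true .npn 3 0 3 (qsf 0 1230186008 1610612736 469762048 0) ndN7q3 ndN2q3 pcN0 Cut.none Ext.none)

def k0_pp_303 : ∃ t, chk3 f_pp_303 t 1 1 1 = true :=
  ⟨(a (l 3) (a (l 3) (b (a (l 3) (l 3)) (a (l 3) (b (a (l 3) (b (a (l 3) (b (a (l 3) (l 16680744)) (a (l 16733272) (l 16776536)))) (a (a (a (l 3) (l 392620839895)) (l 16773832)) (l 16777104)))) (a (b (a (l 3) (l 16776512)) (c (l 16746504) (l 16745432))) (c (b (l 16776896) (l 16746504)) (b (l 16776888) (l 16745432))))))))), by decide +kernel⟩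

theorem c_pp_303 : CertNX 0 1230186008 1610612736 469762048 1046898278 26843546 3 false true true .npn 3 0 3
    ndN7q3 ndN2q3 pcN0 Cut.none Ext.none :=
  certNX0 (fam := false) (s1 := true) (s2 := true) (a := 3) (b := 0) (c := 3) (cn := .npn) (n1 := ndN7q3) (n2 := ndN2q3) (pc := pcN0) (cut := Cut.none) (xt := Ext.none) (P1 := 0) (W1 := 1230186008) (P2 := 1610612736) (W2 := 469762048) (P3 := 1046898278) (W3 := 26843546) (N0 := 3)
    rfl k0_pp_303

noncomputable def f_pp_313 : ℕ → ℕ → ℕ → ℕ → Bool := onCell 0 1230186008 1610612736 469762048 1046898278 26843546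
    (rowNX 3 0 false true true .dn 3 1 3 (qsf 0 1230186008 1610612736 469762048 1) ndN7q3 ndN2q3 pcN1 Cut.none Ext.none)

def k0_pp_313 : ∃ t, chk3 f_pp_313 t 1 1 1 = true :=
  ⟨(l 1), by decide +kernel⟩

theorem c_pp_313 : CertNX 0 1230186008 1610612736 469762048 1046898278 26843546 3 false true true .dn 3 1 3
    ndN7q3 ndN2q3 pcN1 Cut.none Ext.none :=
  certNX0 (fam := false) (s1 := true) (s2 := true) (a := 3) (b := 1) (c := 3) (cn := .dn) (n1 := ndN7q3) (n2 := ndN2q3) (pc := pcN1) (cut := Cut.none) (xt := Ext.none) (P1 := 0) (W1 := 1230186008) (P2 := 1610612736) (W2 := 469762048) (P3 := 1046898278) (W3 := 26843546) (N0 := 3)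
    rfl k0_pp_313

noncomputable def f_pm_001 : ℕ → ℕ → ℕ → ℕ → Bool := onCell 0 536870912 536870912 536870912 1046898278 26843546
    (rowNX 3 0 false true false .up 0 0 1 (qsf 0 536870912 536870912 536870912 0) ndN7q0 ndN2q1 pcN0 Cut.none Ext.none)

def k0_pm_001 : ∃ t, chk3 f_pm_001 t 1 1 1 = true :=
  ⟨(l 4), by decide +kernel⟩

theorem c_pm_001 : CertNX 0 536870912 536870912 536870912 1046898278 26843546 3 false true false .up 0 0 1
    ndN7q0 ndN2q1 pcN0 Cut.none Ext.none :=
  certNX0 (fam := false) (s1 := true) (s2 := false) (a := 0) (b := 0) (c := 1) (cn := .up) (n1 := ndN7q0) (n2 := ndN2q1) (pc := pcN0) (cut := Cut.none) (xt := Ext.none) (P1 := 0) (W1 := 536870912) (P2 := 536870912) (W2 := 536870912) (P3 := 1046898278) (W3 := 26843546) (N0 := 3)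
    rfl k0_pm_001

noncomputable def f_pm_011 : ℕ → ℕ → ℕ → ℕ → Bool := onCell 0 536870912 536870912 536870912 1046898278 26843546
    (rowNX 3 0 false true false .pnn 0 1 1 (qsf 0 536870912 536870912 536870912 1) ndN7q0 ndN2q1 pcN1 Cut.none Ext.none)

def k0_pm_011 : ∃ t, chk3 f_pm_011 t 1 1 1 = true :=
  ⟨(l 4), by decide +kernel⟩

theorem c_pm_011 : CertNX 0 536870912 536870912 536870912 1046898278 26843546 3 false true false .pnn 0 1 1
    ndN7q0 ndN2q1 pcN1 Cut.none Ext.none :=
  certNX0 (fam := false) (s1 := true) (s2 := false) (a := 0) (b := 1) (c := 1) (cn := .pnn) (n1 := ndN7q0) (n2 := ndN2q1) (pc := pcN1) (cut := Cut.none) (xt := Ext.none) (P1 := 0) (W1 := 536870912) (P2 := 536870912) (W2 := 536870912) (P3 := 1046898278) (W3 := 26843546) (N0 := 3)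
    rfl k0_pm_011

noncomputable def f_pm_012_a : ℕ → ℕ → ℕ → ℕ → Bool := onCell 0 536870912 0 420477299 1046898278 26843546
    (rowNX 3 0 false true false .pnp 0 1 2 (qsf 0 536870912 0 420477299 1) ndN7q0 ndN2q2a pcN1 Cut.none Ext.none)

def k0_pm_012_a : ∃ t, chk3 f_pm_012_a t 1 1 1 = true :=
  ⟨(l 4), by decide +kernel⟩

theorem c_pm_012_a : CertNX 0 536870912 0 420477299 1046898278 26843546 3 false true false .pnp 0 1 2
    ndN7q0 ndN2q2a pcN1 Cut.none Ext.none :=
  certNX0 (fam := false) (s1 := true) (s2 := false) (a := 0) (b := 1) (c := 2) (cn := .pnp) (n1 := ndN7q0) (n2 := ndN2q2a) (pc := pcN1) (cut := Cut.none) (xt := Ext.none) (P1 := 0) (W1 := 536870912) (P2 := 0) (W2 := 420477299) (P3 := 1046898278) (W3 := 26843546) (N0 := 3)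
    rfl k0_pm_012_a

noncomputable def f_pm_012_b : ℕ → ℕ → ℕ → ℕ → Bool := onCell 0 536870912 1239849684 370763052 1046898278 26843546
    (rowNX 3 0 false true false .pnp 0 1 2 (qsf 0 536870912 1239849684 370763052 1) ndN7q0 ndN2q2b pcN1 Cut.none Ext.none)

def k0_pm_012_b : ∃ t, chk3 f_pm_012_b t 1 1 1 = true :=
  ⟨(l 4), by decide +kernel⟩

theorem c_pm_012_b : CertNX 0 536870912 1239849684 370763052 1046898278 26843546 3 false true false .pnp 0 1 2
    ndN7q0 ndN2q2b pcN1 Cut.none Ext.none :=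
  certNX0 (fam := false) (s1 := true) (s2 := false) (a := 0) (b := 1) (c := 2) (cn := .pnp) (n1 := ndN7q0) (n2 := ndN2q2b) (pc := pcN1) (cut := Cut.none) (xt := Ext.none) (P1 := 0) (W1 := 536870912) (P2 := 1239849684) (W2 := 370763052) (P3 := 1046898278) (W3 := 26843546) (N0 := 3)
    rfl k0_pm_012_b

noncomputable def f_pm_022_a : ℕ → ℕ → ℕ → ℕ → Bool := onCell 0 536870912 0 420477299 1046898278 26843546
    (rowNX 3 0 false true false .pp 0 2 2 (qsf 0 536870912 0 420477299 2) ndN7q0 ndN2q2a pcN2 Cut.none Ext.none)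

def k0_pm_022_a : ∃ t, chk3 f_pm_022_a t 1 1 1 = true :=
  ⟨(l 4), by decide +kernel⟩

theorem c_pm_022_a : CertNX 0 536870912 0 420477299 1046898278 26843546 3 false true false .pp 0 2 2
    ndN7q0 ndN2q2a pcN2 Cut.none Ext.none :=
  certNX0 (fam := false) (s1 := true) (s2 := false) (a := 0) (b := 2) (c := 2) (cn := .pp) (n1 := ndN7q0) (n2 := ndN2q2a) (pc := pcN2) (cut := Cut.none) (xt := Ext.none) (P1 := 0) (W1 := 536870912) (P2 := 0) (W2 := 420477299) (P3 := 1046898278) (W3 := 26843546) (N0 := 3)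
    rfl k0_pm_022_a

noncomputable def f_pm_022_b : ℕ → ℕ → ℕ → ℕ → Bool := onCell 0 536870912 1239849684 370763052 1046898278 26843546
    (rowNX 3 0 false true false .pp 0 2 2 (qsf 0 536870912 1239849684 370763052 2) ndN7q0 ndN2q2b pcN2 Cut.none Ext.none)

def k0_pm_022_b : ∃ t, chk3 f_pm_022_b t 1 1 1 = true :=
  ⟨(l 4), by decide +kernel⟩

theorem c_pm_022_b : CertNX 0 536870912 1239849684 370763052 1046898278 26843546 3 false true false .pp 0 2 2
    ndN7q0 ndN2q2b pcN2 Cut.none Ext.none :=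
  certNX0 (fam := false) (s1 := true) (s2 := false) (a := 0) (b := 2) (c := 2) (cn := .pp) (n1 := ndN7q0) (n2 := ndN2q2b) (pc := pcN2) (cut := Cut.none) (xt := Ext.none) (P1 := 0) (W1 := 536870912) (P2 := 1239849684) (W2 := 370763052) (P3 := 1046898278) (W3 := 26843546) (N0 := 3)
    rfl k0_pm_022_b

noncomputable def f_pm_023 : ℕ → ℕ → ℕ → ℕ → Bool := onCell 0 536870912 1610612736 469762048 1046898278 26843546
    (rowNX 3 0 false true false .up 0 2 3 (qsf 0 536870912 1610612736 469762048 2) ndN7q0 ndN2q3 pcN2 Cut.none Ext.none)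

def k0_pm_023 : ∃ t, chk3 f_pm_023 t 1 1 1 = true :=
  ⟨(l 4), by decide +kernel⟩

theorem c_pm_023 : CertNX 0 536870912 1610612736 469762048 1046898278 26843546 3 false true false .up 0 2 3
    ndN7q0 ndN2q3 pcN2 Cut.none Ext.none :=
  certNX0 (fam := false) (s1 := true) (s2 := false) (a := 0) (b := 2) (c := 3) (cn := .up) (n1 := ndN7q0) (n2 := ndN2q3) (pc := pcN2) (cut := Cut.none) (xt := Ext.none) (P1 := 0) (W1 := 536870912) (P2 := 1610612736) (W2 := 469762048) (P3 := 1046898278) (W3 := 26843546) (N0 := 3)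
    rfl k0_pm_023

noncomputable def f_pm_033 : ℕ → ℕ → ℕ → ℕ → Bool := onCell 0 536870912 1610612736 469762048 1046898278 26843546
    (rowNX 3 0 false true false .pnn 0 3 3 (qsf 0 536870912 1610612736 469762048 3) ndN7q0 ndN2q3 pcN3 Cut.none Ext.none)

def k0_pm_033 : ∃ t, chk3 f_pm_033 t 1 1 1 = true :=
  ⟨(l 4), by decide +kernel⟩

theorem c_pm_033 : CertNX 0 536870912 1610612736 469762048 1046898278 26843546 3 false true false .pnn 0 3 3
    ndN7q0 ndN2q3 pcN3 Cut.none Ext.none :=
  certNX0 (fam := false) (s1 := true) (s2 := false) (a := 0) (b := 3) (c := 3) (cn := .pnn) (n1 := ndN7q0) (n2 := ndN2q3) (pc := pcN3) (cut := Cut.none) (xt := Ext.none) (P1 := 0) (W1 := 536870912) (P2 := 1610612736) (W2 := 469762048) (P3 := 1046898278) (W3 := 26843546) (N0 := 3)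
    rfl k0_pm_033

noncomputable def f_pm_101 : ℕ → ℕ → ℕ → ℕ → Bool := onCell 536870912 536870912 536870912 536870912 1046898278 26843546
    (rowNX 3 0 false true false .npn 1 0 1 (qsf 536870912 536870912 536870912 536870912 0) ndN7q1 ndN2q1 pcN0 Cut.none Ext.none)

def k0_pm_101 : ∃ t, chk3 f_pm_101 t 1 1 1 = true :=
  ⟨(l 4), by decide +kernel⟩

theorem c_pm_101 : CertNX 536870912 536870912 536870912 536870912 1046898278 26843546 3 false true false .npn 1 0 1
    ndN7q1 ndN2q1 pcN0 Cut.none Ext.none :=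
  certNX0 (fam := false) (s1 := true) (s2 := false) (a := 1) (b := 0) (c := 1) (cn := .npn) (n1 := ndN7q1) (n2 := ndN2q1) (pc := pcN0) (cut := Cut.none) (xt := Ext.none) (P1 := 536870912) (W1 := 536870912) (P2 := 536870912) (W2 := 536870912) (P3 := 1046898278) (W3 := 26843546) (N0 := 3)
    rfl k0_pm_101

noncomputable def f_pm_102_a : ℕ → ℕ → ℕ → ℕ → Bool := onCell 536870912 536870912 0 420477299 1046898278 26843546
    (rowNX 3 0 false true false .npp 1 0 2 (qsf 536870912 536870912 0 420477299 0) ndN7q1 ndN2q2a pcN0 Cut.none Ext.none)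

def k0_pm_102_a : ∃ t, chk3 f_pm_102_a t 1 1 1 = true :=
  ⟨(l 4), by decide +kernel⟩

theorem c_pm_102_a : CertNX 536870912 536870912 0 420477299 1046898278 26843546 3 false true false .npp 1 0 2
    ndN7q1 ndN2q2a pcN0 Cut.none Ext.none :=
  certNX0 (fam := false) (s1 := true) (s2 := false) (a := 1) (b := 0) (c := 2) (cn := .npp) (n1 := ndN7q1) (n2 := ndN2q2a) (pc := pcN0) (cut := Cut.none) (xt := Ext.none) (P1 := 536870912) (W1 := 536870912) (P2 := 0) (W2 := 420477299) (P3 := 1046898278) (W3 := 26843546) (N0 := 3)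
    rfl k0_pm_102_a

noncomputable def f_pm_102_b : ℕ → ℕ → ℕ → ℕ → Bool := onCell 536870912 536870912 1239849684 370763052 1046898278 26843546
    (rowNX 3 0 false true false .npp 1 0 2 (qsf 536870912 536870912 1239849684 370763052 0) ndN7q1 ndN2q2b pcN0 Cut.none Ext.none)

def k0_pm_102_b : ∃ t, chk3 f_pm_102_b t 1 1 1 = true :=
  ⟨(l 4), by decide +kernel⟩

theorem c_pm_102_b : CertNX 536870912 536870912 1239849684 370763052 1046898278 26843546 3 false true false .npp 1 0 2
    ndN7q1 ndN2q2b pcN0 Cut.none Ext.none :=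
  certNX0 (fam := false) (s1 := true) (s2 := false) (a := 1) (b := 0) (c := 2) (cn := .npp) (n1 := ndN7q1) (n2 := ndN2q2b) (pc := pcN0) (cut := Cut.none) (xt := Ext.none) (P1 := 536870912) (W1 := 536870912) (P2 := 1239849684) (W2 := 370763052) (P3 := 1046898278) (W3 := 26843546) (N0 := 3)
    rfl k0_pm_102_b

noncomputable def f_pm_112_a : ℕ → ℕ → ℕ → ℕ → Bool := onCell 536870912 536870912 0 420477299 1046898278 26843546
    (rowNX 3 0 false true false .dn 1 1 2 (qsf 536870912 536870912 0 420477299 1) ndN7q1 ndN2q2a pcN1 Cut.none Ext.none)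

def k0_pm_112_a : ∃ t, chk3 f_pm_112_a t 1 1 1 = true :=
  ⟨(l 4), by decide +kernel⟩

theorem c_pm_112_a : CertNX 536870912 536870912 0 420477299 1046898278 26843546 3 false true false .dn 1 1 2
    ndN7q1 ndN2q2a pcN1 Cut.none Ext.none :=
  certNX0 (fam := false) (s1 := true) (s2 := false) (a := 1) (b := 1) (c := 2) (cn := .dn) (n1 := ndN7q1) (n2 := ndN2q2a) (pc := pcN1) (cut := Cut.none) (xt := Ext.none) (P1 := 536870912) (W1 := 536870912) (P2 := 0) (W2 := 420477299) (P3 := 1046898278) (W3 := 26843546) (N0 := 3)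
    rfl k0_pm_112_a

noncomputable def f_pm_112_b : ℕ → ℕ → ℕ → ℕ → Bool := onCell 536870912 536870912 1239849684 370763052 1046898278 26843546
    (rowNX 3 0 false true false .dn 1 1 2 (qsf 536870912 536870912 1239849684 370763052 1) ndN7q1 ndN2q2b pcN1 Cut.none Ext.none)

def k0_pm_112_b : ∃ t, chk3 f_pm_112_b t 1 1 1 = true :=
  ⟨(l 4), by decide +kernel⟩

theorem c_pm_112_b : CertNX 536870912 536870912 1239849684 370763052 1046898278 26843546 3 false true false .dn 1 1 2
    ndN7q1 ndN2q2b pcN1 Cut.none Ext.none :=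
  certNX0 (fam := false) (s1 := true) (s2 := false) (a := 1) (b := 1) (c := 2) (cn := .dn) (n1 := ndN7q1) (n2 := ndN2q2b) (pc := pcN1) (cut := Cut.none) (xt := Ext.none) (P1 := 536870912) (W1 := 536870912) (P2 := 1239849684) (W2 := 370763052) (P3 := 1046898278) (W3 := 26843546) (N0 := 3)
    rfl k0_pm_112_b

noncomputable def f_pm_113 : ℕ → ℕ → ℕ → ℕ → Bool := onCell 536870912 536870912 1610612736 469762048 1046898278 26843546
    (rowNX 3 0 false true false .nn 1 1 3 (qsf 536870912 536870912 1610612736 469762048 1) ndN7q1 ndN2q3 pcN1 Cut.none Ext.none)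

def k0_pm_113 : ∃ t, chk3 f_pm_113 t 1 1 1 = true :=
  ⟨(a (l 4) (b (l 4) (l 4))), by decide +kernel⟩

theorem c_pm_113 : CertNX 536870912 536870912 1610612736 469762048 1046898278 26843546 3 false true false .nn 1 1 3
    ndN7q1 ndN2q3 pcN1 Cut.none Ext.none :=
  certNX0 (fam := false) (s1 := true) (s2 := false) (a := 1) (b := 1) (c := 3) (cn := .nn) (n1 := ndN7q1) (n2 := ndN2q3) (pc := pcN1) (cut := Cut.none) (xt := Ext.none) (P1 := 536870912) (W1 := 536870912) (P2 := 1610612736) (W2 := 469762048) (P3 := 1046898278) (W3 := 26843546) (N0 := 3)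
    rfl k0_pm_113

noncomputable def f_pm_123 : ℕ → ℕ → ℕ → ℕ → Bool := onCell 1073741824 536870912 1610612736 469762048 1046898278 26843546
    (rowNX 3 2 false true false .npn 1 2 3 (qsf 536870912 536870912 1610612736 469762048 2) ndN7q1 ndN2q3 pcN2 Cut.none Ext.none)

def k0_pm_123 : ∃ t, chk3 f_pm_123 t 1 1 1 = true :=
  ⟨(l 4), by decide +kernel⟩

theorem c_pm_123 : CertNX 536870912 536870912 1610612736 469762048 1046898278 26843546 3 false true false .npn 1 2 3
    ndN7q1 ndN2q3 pcN2 Cut.none Ext.none :=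
  certNX2 (fam := false) (s1 := true) (s2 := false) (a := 1) (b := 2) (c := 3) (cn := .npn) (n1 := ndN7q1) (n2 := ndN2q3) (pc := pcN2) (cut := Cut.none) (xt := Ext.none) (P1 := 536870912) (W1 := 536870912) (P2 := 1610612736) (W2 := 469762048) (P3 := 1046898278) (W3 := 26843546) (N0 := 3)
    rfl (fun _ => rfl) k0_pm_123

noncomputable def f_pm_133 : ℕ → ℕ → ℕ → ℕ → Bool := onCell 536870912 536870912 1610612736 469762048 1046898278 26843546
    (rowNX 3 0 false true false .dn 1 3 3 (qsf 536870912 536870912 1610612736 469762048 3) ndN7q1 ndN2q3 pcN3 Cut.none Ext.none)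

def k0_pm_133 : ∃ t, chk3 f_pm_133 t 1 1 1 = true :=
  ⟨(l 1), by decide +kernel⟩

theorem c_pm_133 : CertNX 536870912 536870912 1610612736 469762048 1046898278 26843546 3 false true false .dn 1 3 3
    ndN7q1 ndN2q3 pcN3 Cut.none Ext.none :=
  certNX0 (fam := false) (s1 := true) (s2 := false) (a := 1) (b := 3) (c := 3) (cn := .dn) (n1 := ndN7q1) (n2 := ndN2q3) (pc := pcN3) (cut := Cut.none) (xt := Ext.none) (P1 := 536870912) (W1 := 536870912) (P2 := 1610612736) (W2 := 469762048) (P3 := 1046898278) (W3 := 26843546) (N0 := 3)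
    rfl k0_pm_133

noncomputable def f_pm_202_a : ℕ → ℕ → ℕ → ℕ → Bool := onCell 0 536870912 0 420477299 1046898278 26843546
    (rowNX 3 2 false true false .pp 2 0 2 (qsf 1073741824 536870912 0 420477299 0) ndN7q2 ndN2q2a pcN0 Cut.none Ext.none)

def k0_pm_202_a : ∃ t, chk3 f_pm_202_a t 1 1 1 = true :=
  ⟨(a (b (b (a (a (a (a (c (a (l 15032008) (c (l 14881168) (l 14847984))) (a (c (l 14985960) (a (l 14997208) (l 14910264))) (l 14797200))) (c (a (l 14695976) (l 14525848)) (l 14536328))) (c (a (l 14273448) (l 4)) (l 14069664))) (l 4)) (l 4)) (l 4)) (l 4)) (l 1)), by decide +kernel⟩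

theorem c_pm_202_a : CertNX 1073741824 536870912 0 420477299 1046898278 26843546 3 false true false .pp 2 0 2
    ndN7q2 ndN2q2a pcN0 Cut.none Ext.none :=
  certNX2 (fam := false) (s1 := true) (s2 := false) (a := 2) (b := 0) (c := 2) (cn := .pp) (n1 := ndN7q2) (n2 := ndN2q2a) (pc := pcN0) (cut := Cut.none) (xt := Ext.none) (P1 := 1073741824) (W1 := 536870912) (P2 := 0) (W2 := 420477299) (P3 := 1046898278) (W3 := 26843546) (N0 := 3)
    rfl (fun _ => rfl) k0_pm_202_a

noncomputable def f_pm_202_b : ℕ → ℕ → ℕ → ℕ → Bool := onCell 1073741824 536870912 0 536870912 1046898278 26843546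
    (rowNX 3 1 false true false .pp 2 0 2 (qsf 1073741824 536870912 1239849684 370763052 0) ndN7q2 ndN2q2b pcN0 Cut.none Ext.none)

def k0_pm_202_b : ∃ t, chk3 f_pm_202_b t 2 1 1 = true :=
  ⟨(a (a (b (l 4) (l 4)) (a (b (b (l 4) (l 4)) (b (c (l 13507200) (l 13351848)) (l 13425120))) (b (b (b (a (l 4) (b (b (l 1) (c (l 14278360) (l 14190344))) (c (l 14255864) (l 14167168)))) (b (l 13952672) (l 13831968))) (b (l 13792904) (l 13787576))) (b (l 13786160) (l 13786160))))) (b (b (b (b (b (a (c (b (l 15035992) (a (c (l 14838792) (l 14805032)) (l 15337120))) (b (c (a (l 14763864) (l 15341616)) (a (b (l 14728976) (l 14738024)) (l 15127448))) (c (l 15038664) (l 15007712)))) (c (b (l 15849464) (c (l 15839320) (l 15823824))) (b (c (l 15760976) (b (l 15704480) (l 15799760))) (l 15630720)))) (a (c (b (l 375839211479) (l 15024936)) (l 14976216)) (c (l 15777112) (l 15781968)))) (a (c (a (l 14677136) (l 15192616)) (l 14881312)) (c (l 15778952) (l 15764096)))) (b (a (c (l 14866256) (l 14799240))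 (l 15771800)) (a (l 14804984) (l 15762864)))) (a (b (l 14789408) (l 14751904)) (b (l 15726760) (l 15657816)))) (a (b (l 14744992) (l 14744992)) (b (l 15646432) (l 2))))), by decide +kernel⟩

def k1_pm_202_b : ∃ t, chk3 f_pm_202_b t 3 1 1 = true :=
  ⟨(b (b (b (a (b (b (c (a (b (l 16544792) (l 16539800)) (l 16122848)) (a (b (c (l 16538872) (l 16534976)) (l 16533872)) (c (l 16111760) (l 16104280)))) (c (a (l 16536336) (l 16131040)) (l 16417408))) (a (c (l 16518296) (l 16509696)) (l 16166832))) (b (b (a (c (l 15875264) (l 15853816)) (c (b (l 15622096) (l 15516568)) (c (l 15610656) (l 15597248)))) (c (a (l 15881736) (l 15645904)) (l 15707560))) (c (a (l 15935912) (l 15712240)) (l 15677536)))) (b (a (a (l 16496144) (l 16203168)) (a (l 16008944) (l 15849976))) (a (l 16386344) (l 16103064)))) (b (a (a (l 16431936) (l 16398216)) (a (l 16361784) (l 2))) (a (a (l 16353760) (l 16729544)) (l 2)))) (a (b (a (l 16342120) (l 2)) (l 2)) (l 2))), by decide +kernel⟩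

theorem s2_pm_202_b : ∃ t, chk3 f_pm_202_b t 1 1 1 = true := ex3_a k0_pm_202_b k1_pm_202_b

theorem c_pm_202_b : CertNX 1073741824 536870912 1239849684 370763052 1046898278 26843546 3 false true false .pp 2 0 2
    ndN7q2 ndN2q2b pcN0 Cut.none Ext.none :=
  certNX1 (fam := false) (s1 := true) (s2 := false) (a := 2) (b := 0) (c := 2) (cn := .pp) (n1 := ndN7q2) (n2 := ndN2q2b) (pc := pcN0) (cut := Cut.none) (xt := Ext.none) (P1 := 1073741824) (W1 := 536870912) (P2 := 1239849684) (W2 := 370763052) (P3 := 1046898278) (W3 := 26843546) (N0 := 3)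
    rfl (fun _ => rfl) s2_pm_202_b

noncomputable def f_pm_203 : ℕ → ℕ → ℕ → ℕ → Bool := onCell 1073741824 536870912 0 536870912 1046898278 26843546
    (rowNX 3 1 false true false .up 2 0 3 (qsf 1073741824 536870912 1610612736 469762048 0) ndN7q2 ndN2q3 pcN0 Cut.none Ext.none)

def k0_pm_203 : ∃ t, chk3 f_pm_203 t 1 1 1 = true :=
  ⟨(b (b (a (l 1) (b (a (l 1) (b (a (l 1) (b (a (l 1) (c (l 15399672) (l 15517200))) (c (l 15645904) (l 15635768)))) (c (a (l 15935912) (l 15712240)) (l 15677536)))) (b (a (l 1) (a (l 16008944) (l 15849976))) (a (l 16407312) (l 16103064))))) (a (a (l 1) (a (l 1) (b (l 1) (l 15657816)))) (b (a (a (l 16431936) (l 16398216)) (a (l 16361784) (l 16365048))) (a (a (l 16353760) (l 16729544)) (b (l 16671456) (l 16777080)))))) (a (a (a (l 4) (c (b (l 426302433079) (l 13569328)) (l 440260736855))) (a (b (l 14744992) (l 14744992)) (b (l 15646432) (l 15646432)))) (a (b (a (l 16342120) (l 16763744)) (a (l 16342104) (l 16763584))) (b (l 16777072) (a (l 16748840) (l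 16726376)))))), by decide +kernel⟩

theorem c_pm_203 : CertNX 1073741824 536870912 1610612736 469762048 1046898278 26843546 3 false true false .up 2 0 3
    ndN7q2 ndN2q3 pcN0 Cut.none Ext.none :=
  certNX1 (fam := false) (s1 := true) (s2 := false) (a := 2) (b := 0) (c := 3) (cn := .up) (n1 := ndN7q2) (n2 := ndN2q3) (pc := pcN0) (cut := Cut.none) (xt := Ext.none) (P1 := 1073741824) (W1 := 536870912) (P2 := 1610612736) (W2 := 469762048) (P3 := 1046898278) (W3 := 26843546) (N0 := 3)
    rfl (fun _ => rfl) k0_pm_203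

noncomputable def f_pm_213 : ℕ → ℕ → ℕ → ℕ → Bool := onCell 1073741824 536870912 1610612736 469762048 1046898278 26843546
    (rowNX 3 0 false true false .pnn 2 1 3 (qsf 1073741824 536870912 1610612736 469762048 1) ndN7q2 ndN2q3 pcN1 Cut.none Ext.none)

def k0_pm_213 : ∃ t, chk3 f_pm_213 t 1 1 1 = true :=
  ⟨(a (b (a (a (b (l 4) (b (l 4) (l 4))) (a (b (l 13425120) (c (l 13500632) (l 13344608))) (l 402680253015))) (a (b (l 1) (l 14744992)) (l 372082331575))) (a (b (a (a (l 4) (a (b (l 4) (c (l 871567087543) (b (l 4) (l 12136624)))) (b (l 12585128) (l 12663224)))) (a (b (l 13321672) (l 13255968)) (b (l 13771088) (l 13772768)))) (a (b (a (l 4) (a (b (c (l 12348808) (l 12044544)) (c (l 12337080) (l 11965224))) (b (c (l 12814720) (l 12573088)) (l 12625632)))) (a (a (l 4) (b (c (l 11776800) (l 11124112)) (c (c (b (l 12176992) (l 12495760)) (l 11951064)) (l 11337072)))) (b (a (c (l 12412064) (l 11942400)) (a (l 12544032) (l 12779664))) (a (c (a (l 12629600) (l 12917248)) (l 12214584))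 (c (l 13076976) (l 12853912)))))) (b (a (b (l 13304832) (a (l 13139888) (l 13494144))) (b (l 13779664) (l 13785320))) (a (b (a (l 13192600) (l 13537488)) (b (l 13579384) (a (l 13656232) (a (l 13903792) (l 13922480))))) (b (l 13828552) (b (l 13985432) (a (l 13940872) (l 14137152)))))))) (b (a (b (l 14744504) (a (l 14436624) (l 15040264))) (l 15646272)) (a (b (l 14744704) (a (b (l 14439472) (a (b (l 14325056) (l 14406992)) (l 14653208))) (l 15065504))) (l 15672528))))) (b (l 1) (a (a (b (l 16342064) (l 16368536)) (l 195991868583)) (b (l 1) (l 16747760))))), by decide +kernel⟩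

theorem c_pm_213 : CertNX 1073741824 536870912 1610612736 469762048 1046898278 26843546 3 false true false .pnn 2 1 3
    ndN7q2 ndN2q3 pcN1 Cut.none Ext.none :=
  certNX0 (fam := false) (s1 := true) (s2 := false) (a := 2) (b := 1) (c := 3) (cn := .pnn) (n1 := ndN7q2) (n2 := ndN2q3) (pc := pcN1) (cut := Cut.none) (xt := Ext.none) (P1 := 1073741824) (W1 := 536870912) (P2 := 1610612736) (W2 := 469762048) (P3 := 1046898278) (W3 := 26843546) (N0 := 3)
    rfl k0_pm_213

noncomputable def f_pm_303 : ℕ → ℕ → ℕ → ℕ → Bool := onCell 0 1230186008 0 536870912 1046898278 26843546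
    (rowNX 3 1 false true false .npn 3 0 3 (qsf 0 1230186008 1610612736 469762048 0) ndN7q3 ndN2q3 pcN0 Cut.none Ext.none)

def k0_pm_303 : ∃ t, chk3 f_pm_303 t 2 2 1 = true :=
  ⟨(a (l 2) (b (l 3) (l 2))), by decide +kernel⟩

def k1_pm_303 : ∃ t, chk3 f_pm_303 t 6 2 1 = true :=
  ⟨(a (l 3) (a (l 3) (a (l 3) (b (b (b (c (b (c (l 316378929831) (b (l 14049088) (l 14073248))) (c (l 14269968) (l 13992656))) (b (c (b (l 13962032) (l 14081304)) (b (c (l 13972112) (b (l 309936088343) (l 13962816))) (c (b (l 14007640) (l 14071600)) (l 14025960)))) (c (b (c (l 14176544) (l 14008400)) (l 316916030903)) (l 14152544)))) (c (b (c (l 14166536) (c (b (l 14377400) (l 14436168)) (l 320674386071))) (b (c (l 326044465255) (l 14461504)) (l 3))) (l 14366416))) (l 3)) (l 3))))), by decide +kernel⟩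

def k2_pm_303 : ∃ t, chk3 f_pm_303 t 14 4 1 = true :=
  ⟨(b (b (c (b (b (a (a (l 14093568) (l 14355936)) (l 14527416)) (a (c (a (a (l 14177512) (l 14277624)) (l 14379096)) (a (l 14174176) (l 14366288))) (a (a (l 14520888) (l 14603704)) (l 14731344)))) (c (a (a (a (l 14274392) (l 14351632)) (l 14406504)) (l 14618168)) (a (b (a (l 14228040) (l 14356904)) (l 14298288)) (l 14562776)))) (b (a (b (a (c (l 14115856) (b (l 14089808) (l 14097264))) (c (l 14314352) (b (l 14276576) (l 14280232)))) (a (c (l 14144576) (l 14115112)) (l 14311264))) (a (a (b (a (c (l 14413952) (l 14196784)) (l 14445096)) (l 14446312)) (l 14525448)) (b (l 14644944) (l 14663472)))) (a (c (a (b (c (l 14206576) (l 14189112)) (l 14233760)) (l 14384912)) (l 14062664)) (l 14350336)))) (c (a (b (a (c (l 14386800) (b (c (l 14398984) (l 14368424)) (l 14219224))) (l 14530856)) (c (c (b (l 14607520) (l 14663208)) (b (l 14578832) (l 14619112))) (l 14561208))) (b (c (l 14669184) (l 14775536)) (c (l 14856512) (l 14823792))))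 (a (b (c (l 14242080) (l 14218464)) (a (l 14483240) (l 14565592))) (b (l 14728280) (l 14756296))))) (a (a (b (b (c (b (l 14718344) (l 14933552)) (b (l 14645920) (l 14868744))) (a (l 14798576) (c (l 15153808) (l 15096768)))) (b (b (a (l 15265272) (l 15353904)) (l 15398296)) (l 15559048))) (b (b (c (l 15004016) (l 14948072)) (a (l 15463656) (a (b (l 15600936) (l 15866096)) (b (l 15605344) (l 15998200))))) (b (a (c (l 15622712) (l 15582152)) (c (l 16171872) (l 16150624))) (a (l 15669936) (l 16057008))))) (b (c (b (l 15109560) (l 15659456)) (b (l 15041600) (l 15616840))) (a (a (b (c (l 16218848) (l 16372912)) (l 16469160)) (b (l 16217728) (l 16541904))) (b (b (l 16062856) (l 16198864)) (l 16297408)))))), by decide +kernel⟩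

def k3_pm_303 : ∃ t, chk3 f_pm_303 t 15 4 1 = true :=
  ⟨(b (b (b (c (b (l 15124824) (a (l 14985800) (l 15323048))) (a (c (l 14786392) (l 14828112)) (a (l 15184224) (l 15358168)))) (c (a (l 14995448) (l 15330232)) (l 15147632))) (a (l 14912848) (c (l 15431648) (l 15404512)))) (b (a (c (l 15487944) (l 15435056)) (l 15676920)) (a (b (l 15989160) (l 16147008)) (l 16044632)))), by decide +kernel⟩

def k4_pm_303 : ∃ t, chk3 f_pm_303 t 7 5 1 = true :=
  ⟨(a (b (b (a (a (l 15815576) (a (l 15860112) (l 15974360))) (a (a (l 16318544) (l 16627344)) (a (l 16668920) (l 16476880)))) (a (a (l 16166384) (a (l 16178968) (l 16213856))) (a (l 16390136) (b (l 16753264) (l 16732456))))) (b (a (l 330342560983) (a (l 16585584) (l 16717904))) (a (l 334638730599) (l 16734696)))) (b (a (b (l 16482320) (l 16636304)) (l 16441904)) (b (a (l 16710400) (l 16726520)) (l 16776976)))), by decide +kernel⟩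

def k5_pm_303 : ∃ t, chk3 f_pm_303 t 1 3 1 = true :=
  ⟨(a (l 2) (a (l 2) (a (b (b (a (c (l 16752656) (l 16878232)) (l 16747896)) (l 2)) (l 2)) (b (a (b (l 16747696) (l 16723184)) (l 16748496)) (a (l 2) (b (l 16724000) (l 606764896583))))))), by decide +kernel⟩

theorem s6_pm_303 : ∃ t, chk3 f_pm_303 t 7 4 1 = true := ex3_a k2_pm_303 k3_pm_303

theorem s7_pm_303 : ∃ t, chk3 f_pm_303 t 7 2 1 = true := ex3_b s6_pm_303 k4_pm_303

theorem s8_pm_303 : ∃ t, chk3 f_pm_303 t 3 2 1 = true := ex3_a k1_pm_303 s7_pm_303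

theorem s9_pm_303 : ∃ t, chk3 f_pm_303 t 1 2 1 = true := ex3_a k0_pm_303 s8_pm_303

theorem s10_pm_303 : ∃ t, chk3 f_pm_303 t 1 1 1 = true := ex3_b s9_pm_303 k5_pm_303

theorem c_pm_303 : CertNX 0 1230186008 1610612736 469762048 1046898278 26843546 3 false true false .npn 3 0 3
    ndN7q3 ndN2q3 pcN0 Cut.none Ext.none :=
  certNX1 (fam := false) (s1 := true) (s2 := false) (a := 3) (b := 0) (c := 3) (cn := .npn) (n1 := ndN7q3) (n2 := ndN2q3) (pc := pcN0) (cut := Cut.none) (xt := Ext.none) (P1 := 0) (W1 := 1230186008) (P2 := 1610612736) (W2 := 469762048) (P3 := 1046898278) (W3 := 26843546) (N0 := 3)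
    rfl (fun _ => rfl) s10_pm_303

noncomputable def f_pm_313 : ℕ → ℕ → ℕ → ℕ → Bool := onCell 0 1230186008 1610612736 469762048 1046898278 26843546
    (rowNX 3 0 false true false .dn 3 1 3 (qsf 0 1230186008 1610612736 469762048 1) ndN7q3 ndN2q3 pcN1 Cut.none Ext.none)

def k0_pm_313 : ∃ t, chk3 f_pm_313 t 1 1 1 = true :=
  ⟨(l 1), by decide +kernel⟩

theorem c_pm_313 : CertNX 0 1230186008 1610612736 469762048 1046898278 26843546 3 false true false .dn 3 1 3
    ndN7q3 ndN2q3 pcN1 Cut.none Ext.none :=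
  certNX0 (fam := false) (s1 := true) (s2 := false) (a := 3) (b := 1) (c := 3) (cn := .dn) (n1 := ndN7q3) (n2 := ndN2q3) (pc := pcN1) (cut := Cut.none) (xt := Ext.none) (P1 := 0) (W1 := 1230186008) (P2 := 1610612736) (W2 := 469762048) (P3 := 1046898278) (W3 := 26843546) (N0 := 3)
    rfl k0_pm_313

noncomputable def f_mm_001 : ℕ → ℕ → ℕ → ℕ → Bool := onCell 0 536870912 536870912 536870912 1046898278 26843546
    (rowNX 3 0 false false false .up 0 0 1 (qsf 0 536870912 536870912 536870912 0) ndN7q0 ndN2q1 pcN0 Cut.none Ext.none)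

def k0_mm_001 : ∃ t, chk3 f_mm_001 t 1 1 1 = true :=
  ⟨(l 5), by decide +kernel⟩

theorem c_mm_001 : CertNX 0 536870912 536870912 536870912 1046898278 26843546 3 false false false .up 0 0 1
    ndN7q0 ndN2q1 pcN0 Cut.none Ext.none :=
  certNX0 (fam := false) (s1 := false) (s2 := false) (a := 0) (b := 0) (c := 1) (cn := .up) (n1 := ndN7q0) (n2 := ndN2q1) (pc := pcN0) (cut := Cut.none) (xt := Ext.none) (P1 := 0) (W1 := 536870912) (P2 := 536870912) (W2 := 536870912) (P3 := 1046898278) (W3 := 26843546) (N0 := 3)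
    rfl k0_mm_001

noncomputable def f_mm_011 : ℕ → ℕ → ℕ → ℕ → Bool := onCell 0 536870912 536870912 536870912 1046898278 26843546
    (rowNX 3 0 false false false .pnn 0 1 1 (qsf 0 536870912 536870912 536870912 1) ndN7q0 ndN2q1 pcN1 Cut.none Ext.none)

def k0_mm_011 : ∃ t, chk3 f_mm_011 t 1 1 1 = true :=
  ⟨(l 5), by decide +kernel⟩

theorem c_mm_011 : CertNX 0 536870912 536870912 536870912 1046898278 26843546 3 false false false .pnn 0 1 1
    ndN7q0 ndN2q1 pcN1 Cut.none Ext.none :=
  certNX0 (fam := false) (s1 := false) (s2 := false) (a := 0) (b := 1) (c := 1) (cn := .pnn) (n1 := ndN7q0) (n2 := ndN2q1) (pc := pcN1) (cut := Cut.none) (xt := Ext.none) (P1 := 0) (W1 := 536870912) (P2 := 536870912) (W2 := 536870912) (P3 := 1046898278) (W3 := 26843546) (N0 := 3)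
    rfl k0_mm_011

noncomputable def f_mm_012_a : ℕ → ℕ → ℕ → ℕ → Bool := onCell 0 536870912 0 420477299 1046898278 26843546
    (rowNX 3 0 false false false .pnp 0 1 2 (qsf 0 536870912 0 420477299 1) ndN7q0 ndN2q2a pcN1 Cut.none Ext.none)

def k0_mm_012_a : ∃ t, chk3 f_mm_012_a t 1 1 1 = true :=
  ⟨(l 5), by decide +kernel⟩

theorem c_mm_012_a : CertNX 0 536870912 0 420477299 1046898278 26843546 3 false false false .pnp 0 1 2
    ndN7q0 ndN2q2a pcN1 Cut.none Ext.none :=
  certNX0 (fam := false) (s1 := false) (s2 := false) (a := 0) (b := 1) (c := 2) (cn := .pnp) (n1 := ndN7q0) (n2 := ndN2q2a) (pc := pcN1) (cut := Cut.none) (xt := Ext.none) (P1 := 0) (W1 := 536870912) (P2 := 0) (W2 := 420477299) (P3 := 1046898278) (W3 := 26843546) (N0 := 3)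
    rfl k0_mm_012_a

noncomputable def f_mm_012_b : ℕ → ℕ → ℕ → ℕ → Bool := onCell 0 536870912 1239849684 370763052 1046898278 26843546
    (rowNX 3 0 false false false .pnp 0 1 2 (qsf 0 536870912 1239849684 370763052 1) ndN7q0 ndN2q2b pcN1 Cut.none Ext.none)

def k0_mm_012_b : ∃ t, chk3 f_mm_012_b t 1 1 1 = true :=
  ⟨(l 5), by decide +kernel⟩

theorem c_mm_012_b : CertNX 0 536870912 1239849684 370763052 1046898278 26843546 3 false false false .pnp 0 1 2
    ndN7q0 ndN2q2b pcN1 Cut.none Ext.none :=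
  certNX0 (fam := false) (s1 := false) (s2 := false) (a := 0) (b := 1) (c := 2) (cn := .pnp) (n1 := ndN7q0) (n2 := ndN2q2b) (pc := pcN1) (cut := Cut.none) (xt := Ext.none) (P1 := 0) (W1 := 536870912) (P2 := 1239849684) (W2 := 370763052) (P3 := 1046898278) (W3 := 26843546) (N0 := 3)
    rfl k0_mm_012_b

noncomputable def f_mm_022_a : ℕ → ℕ → ℕ → ℕ → Bool := onCell 0 536870912 0 420477299 1046898278 26843546
    (rowNX 3 0 false false false .pp 0 2 2 (qsf 0 536870912 0 420477299 2) ndN7q0 ndN2q2a pcN2 Cut.none Ext.none)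

def k0_mm_022_a : ∃ t, chk3 f_mm_022_a t 1 1 1 = true :=
  ⟨(l 5), by decide +kernel⟩

theorem c_mm_022_a : CertNX 0 536870912 0 420477299 1046898278 26843546 3 false false false .pp 0 2 2
    ndN7q0 ndN2q2a pcN2 Cut.none Ext.none :=
  certNX0 (fam := false) (s1 := false) (s2 := false) (a := 0) (b := 2) (c := 2) (cn := .pp) (n1 := ndN7q0) (n2 := ndN2q2a) (pc := pcN2) (cut := Cut.none) (xt := Ext.none) (P1 := 0) (W1 := 536870912) (P2 := 0) (W2 := 420477299) (P3 := 1046898278) (W3 := 26843546) (N0 := 3)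
    rfl k0_mm_022_a

noncomputable def f_mm_022_b : ℕ → ℕ → ℕ → ℕ → Bool := onCell 0 536870912 1239849684 370763052 1046898278 26843546
    (rowNX 3 0 false false false .pp 0 2 2 (qsf 0 536870912 1239849684 370763052 2) ndN7q0 ndN2q2b pcN2 Cut.none Ext.none)

def k0_mm_022_b : ∃ t, chk3 f_mm_022_b t 1 1 1 = true :=
  ⟨(l 5), by decide +kernel⟩

theorem c_mm_022_b : CertNX 0 536870912 1239849684 370763052 1046898278 26843546 3 false false false .pp 0 2 2
    ndN7q0 ndN2q2b pcN2 Cut.none Ext.none :=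
  certNX0 (fam := false) (s1 := false) (s2 := false) (a := 0) (b := 2) (c := 2) (cn := .pp) (n1 := ndN7q0) (n2 := ndN2q2b) (pc := pcN2) (cut := Cut.none) (xt := Ext.none) (P1 := 0) (W1 := 536870912) (P2 := 1239849684) (W2 := 370763052) (P3 := 1046898278) (W3 := 26843546) (N0 := 3)
    rfl k0_mm_022_b

noncomputable def f_mm_023 : ℕ → ℕ → ℕ → ℕ → Bool := onCell 0 536870912 1610612736 469762048 1046898278 26843546
    (rowNX 3 0 false false false .up 0 2 3 (qsf 0 536870912 1610612736 469762048 2) ndN7q0 ndN2q3 pcN2 Cut.none Ext.none)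

def k0_mm_023 : ∃ t, chk3 f_mm_023 t 1 1 1 = true :=
  ⟨(l 5), by decide +kernel⟩

theorem c_mm_023 : CertNX 0 536870912 1610612736 469762048 1046898278 26843546 3 false false false .up 0 2 3
    ndN7q0 ndN2q3 pcN2 Cut.none Ext.none :=
  certNX0 (fam := false) (s1 := false) (s2 := false) (a := 0) (b := 2) (c := 3) (cn := .up) (n1 := ndN7q0) (n2 := ndN2q3) (pc := pcN2) (cut := Cut.none) (xt := Ext.none) (P1 := 0) (W1 := 536870912) (P2 := 1610612736) (W2 := 469762048) (P3 := 1046898278) (W3 := 26843546) (N0 := 3)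
    rfl k0_mm_023

noncomputable def f_mm_033 : ℕ → ℕ → ℕ → ℕ → Bool := onCell 0 536870912 1610612736 469762048 1046898278 26843546
    (rowNX 3 0 false false false .pnn 0 3 3 (qsf 0 536870912 1610612736 469762048 3) ndN7q0 ndN2q3 pcN3 Cut.none Ext.none)

def k0_mm_033 : ∃ t, chk3 f_mm_033 t 1 1 1 = true :=
  ⟨(l 5), by decide +kernel⟩

theorem c_mm_033 : CertNX 0 536870912 1610612736 469762048 1046898278 26843546 3 false false false .pnn 0 3 3
    ndN7q0 ndN2q3 pcN3 Cut.none Ext.none :=
  certNX0 (fam := false) (s1 := false) (s2 := false) (a := 0) (b := 3) (c := 3) (cn := .pnn) (n1 := ndN7q0) (n2 := ndN2q3) (pc := pcN3) (cut := Cut.none) (xt := Ext.none) (P1 := 0) (W1 := 536870912) (P2 := 1610612736) (W2 := 469762048) (P3 := 1046898278) (W3 := 26843546) (N0 := 3)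
    rfl k0_mm_033

noncomputable def f_mm_101 : ℕ → ℕ → ℕ → ℕ → Bool := onCell 536870912 536870912 536870912 536870912 1046898278 26843546
    (rowNX 3 0 false false false .npn 1 0 1 (qsf 536870912 536870912 536870912 536870912 0) ndN7q1 ndN2q1 pcN0 Cut.none Ext.none)

def k0_mm_101 : ∃ t, chk3 f_mm_101 t 1 1 1 = true :=
  ⟨(l 3), by decide +kernel⟩

theorem c_mm_101 : CertNX 536870912 536870912 536870912 536870912 1046898278 26843546 3 false false false .npn 1 0 1
    ndN7q1 ndN2q1 pcN0 Cut.none Ext.none :=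
  certNX0 (fam := false) (s1 := false) (s2 := false) (a := 1) (b := 0) (c := 1) (cn := .npn) (n1 := ndN7q1) (n2 := ndN2q1) (pc := pcN0) (cut := Cut.none) (xt := Ext.none) (P1 := 536870912) (W1 := 536870912) (P2 := 536870912) (W2 := 536870912) (P3 := 1046898278) (W3 := 26843546) (N0 := 3)
    rfl k0_mm_101

noncomputable def f_mm_102_a : ℕ → ℕ → ℕ → ℕ → Bool := onCell 536870912 536870912 0 420477299 1046898278 26843546
    (rowNX 3 0 false false false .npp 1 0 2 (qsf 536870912 536870912 0 420477299 0) ndN7q1 ndN2q2a pcN0 Cut.none Ext.none)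

def k0_mm_102_a : ∃ t, chk3 f_mm_102_a t 1 1 1 = true :=
  ⟨(l 5), by decide +kernel⟩

theorem c_mm_102_a : CertNX 536870912 536870912 0 420477299 1046898278 26843546 3 false false false .npp 1 0 2
    ndN7q1 ndN2q2a pcN0 Cut.none Ext.none :=
  certNX0 (fam := false) (s1 := false) (s2 := false) (a := 1) (b := 0) (c := 2) (cn := .npp) (n1 := ndN7q1) (n2 := ndN2q2a) (pc := pcN0) (cut := Cut.none) (xt := Ext.none) (P1 := 536870912) (W1 := 536870912) (P2 := 0) (W2 := 420477299) (P3 := 1046898278) (W3 := 26843546) (N0 := 3)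
    rfl k0_mm_102_a

noncomputable def f_mm_102_b : ℕ → ℕ → ℕ → ℕ → Bool := onCell 536870912 536870912 1239849684 370763052 1046898278 26843546
    (rowNX 3 0 false false false .npp 1 0 2 (qsf 536870912 536870912 1239849684 370763052 0) ndN7q1 ndN2q2b pcN0 Cut.none Ext.none)

def k0_mm_102_b : ∃ t, chk3 f_mm_102_b t 1 1 1 = true :=
  ⟨(l 5), by decide +kernel⟩

theorem c_mm_102_b : CertNX 536870912 536870912 1239849684 370763052 1046898278 26843546 3 false false false .npp 1 0 2
    ndN7q1 ndN2q2b pcN0 Cut.none Ext.none :=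
  certNX0 (fam := false) (s1 := false) (s2 := false) (a := 1) (b := 0) (c := 2) (cn := .npp) (n1 := ndN7q1) (n2 := ndN2q2b) (pc := pcN0) (cut := Cut.none) (xt := Ext.none) (P1 := 536870912) (W1 := 536870912) (P2 := 1239849684) (W2 := 370763052) (P3 := 1046898278) (W3 := 26843546) (N0 := 3)
    rfl k0_mm_102_b

noncomputable def f_mm_112_a : ℕ → ℕ → ℕ → ℕ → Bool := onCell 536870912 536870912 0 420477299 1046898278 26843546
    (rowNX 3 0 false false false .dn 1 1 2 (qsf 536870912 536870912 0 420477299 1) ndN7q1 ndN2q2a pcN1 Cut.none Ext.none)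

def k0_mm_112_a : ∃ t, chk3 f_mm_112_a t 1 1 1 = true :=
  ⟨(l 5), by decide +kernel⟩

theorem c_mm_112_a : CertNX 536870912 536870912 0 420477299 1046898278 26843546 3 false false false .dn 1 1 2
    ndN7q1 ndN2q2a pcN1 Cut.none Ext.none :=
  certNX0 (fam := false) (s1 := false) (s2 := false) (a := 1) (b := 1) (c := 2) (cn := .dn) (n1 := ndN7q1) (n2 := ndN2q2a) (pc := pcN1) (cut := Cut.none) (xt := Ext.none) (P1 := 536870912) (W1 := 536870912) (P2 := 0) (W2 := 420477299) (P3 := 1046898278) (W3 := 26843546) (N0 := 3)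
    rfl k0_mm_112_a

noncomputable def f_mm_112_b : ℕ → ℕ → ℕ → ℕ → Bool := onCell 536870912 536870912 1239849684 370763052 1046898278 26843546
    (rowNX 3 0 false false false .dn 1 1 2 (qsf 536870912 536870912 1239849684 370763052 1) ndN7q1 ndN2q2b pcN1 Cut.none Ext.none)

def k0_mm_112_b : ∃ t, chk3 f_mm_112_b t 1 1 1 = true :=
  ⟨(l 5), by decide +kernel⟩

theorem c_mm_112_b : CertNX 536870912 536870912 1239849684 370763052 1046898278 26843546 3 false false false .dn 1 1 2
    ndN7q1 ndN2q2b pcN1 Cut.none Ext.none :=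
  certNX0 (fam := false) (s1 := false) (s2 := false) (a := 1) (b := 1) (c := 2) (cn := .dn) (n1 := ndN7q1) (n2 := ndN2q2b) (pc := pcN1) (cut := Cut.none) (xt := Ext.none) (P1 := 536870912) (W1 := 536870912) (P2 := 1239849684) (W2 := 370763052) (P3 := 1046898278) (W3 := 26843546) (N0 := 3)
    rfl k0_mm_112_b

noncomputable def f_mm_113 : ℕ → ℕ → ℕ → ℕ → Bool := onCell 536870912 536870912 1610612736 469762048 1046898278 26843546
    (rowNX 3 0 false false false .nn 1 1 3 (qsf 536870912 536870912 1610612736 469762048 1) ndN7q1 ndN2q3 pcN1 Cut.none Ext.none)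

def k0_mm_113 : ∃ t, chk3 f_mm_113 t 1 1 1 = true :=
  ⟨(l 5), by decide +kernel⟩

theorem c_mm_113 : CertNX 536870912 536870912 1610612736 469762048 1046898278 26843546 3 false false false .nn 1 1 3
    ndN7q1 ndN2q3 pcN1 Cut.none Ext.none :=
  certNX0 (fam := false) (s1 := false) (s2 := false) (a := 1) (b := 1) (c := 3) (cn := .nn) (n1 := ndN7q1) (n2 := ndN2q3) (pc := pcN1) (cut := Cut.none) (xt := Ext.none) (P1 := 536870912) (W1 := 536870912) (P2 := 1610612736) (W2 := 469762048) (P3 := 1046898278) (W3 := 26843546) (N0 := 3)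
    rfl k0_mm_113

noncomputable def f_mm_123 : ℕ → ℕ → ℕ → ℕ → Bool := onCell 536870912 536870912 1610612736 469762048 1046898278 26843546
    (rowNX 3 0 false false false .npn 1 2 3 (qsf 536870912 536870912 1610612736 469762048 2) ndN7q1 ndN2q3 pcN2 Cut.none Ext.none)

def k0_mm_123 : ∃ t, chk3 f_mm_123 t 1 1 1 = true :=
  ⟨(l 5), by decide +kernel⟩

theorem c_mm_123 : CertNX 536870912 536870912 1610612736 469762048 1046898278 26843546 3 false false false .npn 1 2 3
    ndN7q1 ndN2q3 pcN2 Cut.none Ext.none :=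
  certNX0 (fam := false) (s1 := false) (s2 := false) (a := 1) (b := 2) (c := 3) (cn := .npn) (n1 := ndN7q1) (n2 := ndN2q3) (pc := pcN2) (cut := Cut.none) (xt := Ext.none) (P1 := 536870912) (W1 := 536870912) (P2 := 1610612736) (W2 := 469762048) (P3 := 1046898278) (W3 := 26843546) (N0 := 3)
    rfl k0_mm_123

noncomputable def f_mm_133 : ℕ → ℕ → ℕ → ℕ → Bool := onCell 536870912 536870912 1610612736 469762048 1046898278 26843546
    (rowNX 3 0 false false false .dn 1 3 3 (qsf 536870912 536870912 1610612736 469762048 3) ndN7q1 ndN2q3 pcN3 Cut.none Ext.none)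

def k0_mm_133 : ∃ t, chk3 f_mm_133 t 1 1 1 = true :=
  ⟨(l 1), by decide +kernel⟩

theorem c_mm_133 : CertNX 536870912 536870912 1610612736 469762048 1046898278 26843546 3 false false false .dn 1 3 3
    ndN7q1 ndN2q3 pcN3 Cut.none Ext.none :=
  certNX0 (fam := false) (s1 := false) (s2 := false) (a := 1) (b := 3) (c := 3) (cn := .dn) (n1 := ndN7q1) (n2 := ndN2q3) (pc := pcN3) (cut := Cut.none) (xt := Ext.none) (P1 := 536870912) (W1 := 536870912) (P2 := 1610612736) (W2 := 469762048) (P3 := 1046898278) (W3 := 26843546) (N0 := 3)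
    rfl k0_mm_133

noncomputable def f_mm_202_a : ℕ → ℕ → ℕ → ℕ → Bool := onCell 1073741824 536870912 0 420477299 1046898278 26843546
    (rowNX 3 0 false false false .pp 2 0 2 (qsf 1073741824 536870912 0 420477299 0) ndN7q2 ndN2q2a pcN0 Cut.none Ext.none)

def k0_mm_202_a : ∃ t, chk3 f_mm_202_a t 1 1 1 = true :=
  ⟨(l 5), by decide +kernel⟩

theorem c_mm_202_a : CertNX 1073741824 536870912 0 420477299 1046898278 26843546 3 false false false .pp 2 0 2
    ndN7q2 ndN2q2a pcN0 Cut.none Ext.none :=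
  certNX0 (fam := false) (s1 := false) (s2 := false) (a := 2) (b := 0) (c := 2) (cn := .pp) (n1 := ndN7q2) (n2 := ndN2q2a) (pc := pcN0) (cut := Cut.none) (xt := Ext.none) (P1 := 1073741824) (W1 := 536870912) (P2 := 0) (W2 := 420477299) (P3 := 1046898278) (W3 := 26843546) (N0 := 3)
    rfl k0_mm_202_a

noncomputable def f_mm_202_b : ℕ → ℕ → ℕ → ℕ → Bool := onCell 1073741824 536870912 1239849684 370763052 1046898278 26843546
    (rowNX 3 0 false false false .pp 2 0 2 (qsf 1073741824 536870912 1239849684 370763052 0) ndN7q2 ndN2q2b pcN0 Cut.none Ext.none)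

def k0_mm_202_b : ∃ t, chk3 f_mm_202_b t 1 1 1 = true :=
  ⟨(l 5), by decide +kernel⟩

theorem c_mm_202_b : CertNX 1073741824 536870912 1239849684 370763052 1046898278 26843546 3 false false false .pp 2 0 2
    ndN7q2 ndN2q2b pcN0 Cut.none Ext.none :=
  certNX0 (fam := false) (s1 := false) (s2 := false) (a := 2) (b := 0) (c := 2) (cn := .pp) (n1 := ndN7q2) (n2 := ndN2q2b) (pc := pcN0) (cut := Cut.none) (xt := Ext.none) (P1 := 1073741824) (W1 := 536870912) (P2 := 1239849684) (W2 := 370763052) (P3 := 1046898278) (W3 := 26843546) (N0 := 3)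
    rfl k0_mm_202_b

noncomputable def f_mm_203 : ℕ → ℕ → ℕ → ℕ → Bool := onCell 1073741824 536870912 1610612736 469762048 1046898278 26843546
    (rowNX 3 0 false false false .up 2 0 3 (qsf 1073741824 536870912 1610612736 469762048 0) ndN7q2 ndN2q3 pcN0 Cut.none Ext.none)

def k0_mm_203 : ∃ t, chk3 f_mm_203 t 1 1 1 = true :=
  ⟨(l 5), by decide +kernel⟩

theorem c_mm_203 : CertNX 1073741824 536870912 1610612736 469762048 1046898278 26843546 3 false false false .up 2 0 3
    ndN7q2 ndN2q3 pcN0 Cut.none Ext.none :=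
  certNX0 (fam := false) (s1 := false) (s2 := false) (a := 2) (b := 0) (c := 3) (cn := .up) (n1 := ndN7q2) (n2 := ndN2q3) (pc := pcN0) (cut := Cut.none) (xt := Ext.none) (P1 := 1073741824) (W1 := 536870912) (P2 := 1610612736) (W2 := 469762048) (P3 := 1046898278) (W3 := 26843546) (N0 := 3)
    rfl k0_mm_203

noncomputable def f_mm_213 : ℕ → ℕ → ℕ → ℕ → Bool := onCell 1073741824 536870912 1610612736 469762048 1046898278 26843546
    (rowNX 3 0 false false false .pnn 2 1 3 (qsf 1073741824 536870912 1610612736 469762048 1) ndN7q2 ndN2q3 pcN1 Cut.none Ext.none)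

def k0_mm_213 : ∃ t, chk3 f_mm_213 t 1 1 1 = true :=
  ⟨(l 5), by decide +kernel⟩

theorem c_mm_213 : CertNX 1073741824 536870912 1610612736 469762048 1046898278 26843546 3 false false false .pnn 2 1 3
    ndN7q2 ndN2q3 pcN1 Cut.none Ext.none :=
  certNX0 (fam := false) (s1 := false) (s2 := false) (a := 2) (b := 1) (c := 3) (cn := .pnn) (n1 := ndN7q2) (n2 := ndN2q3) (pc := pcN1) (cut := Cut.none) (xt := Ext.none) (P1 := 1073741824) (W1 := 536870912) (P2 := 1610612736) (W2 := 469762048) (P3 := 1046898278) (W3 := 26843546) (N0 := 3)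
    rfl k0_mm_213

noncomputable def f_mm_303 : ℕ → ℕ → ℕ → ℕ → Bool := onCell 0 1230186008 1610612736 469762048 1046898278 26843546
    (rowNX 3 0 false false false .npn 3 0 3 (qsf 0 1230186008 1610612736 469762048 0) ndN7q3 ndN2q3 pcN0 Cut.none Ext.none)

def k0_mm_303 : ∃ t, chk3 f_mm_303 t 1 1 1 = true :=
  ⟨(a (l 3) (l 5)), by decide +kernel⟩

theorem c_mm_303 : CertNX 0 1230186008 1610612736 469762048 1046898278 26843546 3 false false false .npn 3 0 3
    ndN7q3 ndN2q3 pcN0 Cut.none Ext.none :=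
  certNX0 (fam := false) (s1 := false) (s2 := false) (a := 3) (b := 0) (c := 3) (cn := .npn) (n1 := ndN7q3) (n2 := ndN2q3) (pc := pcN0) (cut := Cut.none) (xt := Ext.none) (P1 := 0) (W1 := 1230186008) (P2 := 1610612736) (W2 := 469762048) (P3 := 1046898278) (W3 := 26843546) (N0 := 3)
    rfl k0_mm_303

noncomputable def f_mm_313 : ℕ → ℕ → ℕ → ℕ → Bool := onCell 0 1230186008 1610612736 469762048 1046898278 26843546
    (rowNX 3 0 false false false .dn 3 1 3 (qsf 0 1230186008 1610612736 469762048 1) ndN7q3 ndN2q3 pcN1 Cut.none Ext.none)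

def k0_mm_313 : ∃ t, chk3 f_mm_313 t 1 1 1 = true :=
  ⟨(l 1), by decide +kernel⟩

theorem c_mm_313 : CertNX 0 1230186008 1610612736 469762048 1046898278 26843546 3 false false false .dn 3 1 3
    ndN7q3 ndN2q3 pcN1 Cut.none Ext.none :=
  certNX0 (fam := false) (s1 := false) (s2 := false) (a := 3) (b := 1) (c := 3) (cn := .dn) (n1 := ndN7q3) (n2 := ndN2q3) (pc := pcN1) (cut := Cut.none) (xt := Ext.none) (P1 := 0) (W1 := 1230186008) (P2 := 1610612736) (W2 := 469762048) (P3 := 1046898278) (W3 := 26843546) (N0 := 3)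
    rfl k0_mm_313

end Pool.Agent.Strip051.G.IE1.Tab.C.NB72

namespace Pool.Agent.Strip051.G.IE1.Tab.C.NB73

open Pool.Agent.Strip051.PB Pool.Agent.Strip051.PB.T
open Pool.Agent.Strip051.G.IE1.Tab

noncomputable def f_pp_001 : ℕ → ℕ → ℕ → ℕ → Bool := onCell 0 536870912 536870912 536870912 1046898278 26843546
    (rowNX 3 0 false true true .up 0 0 1 (qsf 0 536870912 536870912 536870912 0) ndN7q0 ndN3q1 pcN0 Cut.none Ext.none)

def k0_pp_001 : ∃ t, chk3 f_pp_001 t 1 1 1 = true :=
  ⟨(l 3), by decide +kernel⟩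

theorem c_pp_001 : CertNX 0 536870912 536870912 536870912 1046898278 26843546 3 false true true .up 0 0 1
    ndN7q0 ndN3q1 pcN0 Cut.none Ext.none :=
  certNX0 (fam := false) (s1 := true) (s2 := true) (a := 0) (b := 0) (c := 1) (cn := .up) (n1 := ndN7q0) (n2 := ndN3q1) (pc := pcN0) (cut := Cut.none) (xt := Ext.none) (P1 := 0) (W1 := 536870912) (P2 := 536870912) (W2 := 536870912) (P3 := 1046898278) (W3 := 26843546) (N0 := 3)
    rfl k0_pp_001

noncomputable def f_pp_011 : ℕ → ℕ → ℕ → ℕ → Bool := onCell 0 536870912 536870912 536870912 1046898278 26843546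
    (rowNX 3 0 false true true .pnn 0 1 1 (qsf 0 536870912 536870912 536870912 1) ndN7q0 ndN3q1 pcN1 Cut.none Ext.none)

def k0_pp_011 : ∃ t, chk3 f_pp_011 t 1 1 1 = true :=
  ⟨(l 3), by decide +kernel⟩

theorem c_pp_011 : CertNX 0 536870912 536870912 536870912 1046898278 26843546 3 false true true .pnn 0 1 1
    ndN7q0 ndN3q1 pcN1 Cut.none Ext.none :=
  certNX0 (fam := false) (s1 := true) (s2 := true) (a := 0) (b := 1) (c := 1) (cn := .pnn) (n1 := ndN7q0) (n2 := ndN3q1) (pc := pcN1) (cut := Cut.none) (xt := Ext.none) (P1 := 0) (W1 := 536870912) (P2 := 536870912) (W2 := 536870912) (P3 := 1046898278) (W3 := 26843546) (N0 := 3)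
    rfl k0_pp_011

noncomputable def f_pp_012 : ℕ → ℕ → ℕ → ℕ → Bool := onCell 536870912 536870912 1073741824 536870912 1046898278 26843546
    (rowNX 3 2 false true true .pnp 0 1 2 (qsf 0 536870912 1073741824 536870912 1) ndN7q0 ndN3q2 pcN1 Cut.none Ext.none)

def k0_pp_012 : ∃ t, chk3 f_pp_012 t 1 1 1 = true :=
  ⟨(a (b (b (b (b (a (c (l 15563208) (l 15478632)) (c (l 15563208) (l 15478632))) (a (l 99956192695) (l 15709632))) (a (b (l 16072016) (l 16540528)) (b (l 16134928) (l 16540528)))) (b (a (b (l 16296768) (l 2)) (b (l 16296768) (l 16398440))) (a (l 2) (l 16610528)))) (a (l 2) (b (l 16777216) (l 2)))) (b (a (b (b (a (b (c (l 15600136) (l 15520848)) (l 15749000)) (b (a (l 15660936) (l 15127368)) (a (l 15806240) (l 15490832)))) (a (b (l 16195088) (l 16579400)) (b (a (l 16111712) (l 15819112)) (a (l 16362120) (l 16092712))))) (b (a (b (l 16335728) (l 16437320)) (b (l 16038776) (l 16152456))) (a (l 16708688) (b (l 16312168) (l 16388344))))) (b (b (a (b (a (l 14786680) (l 14239056))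 (l 14446968)) (a (b (c (l 13732736) (l 13605760)) (l 13842744)) (b (c (l 13088864) (l 12954648)) (c (l 13258616) (l 13144664))))) (a (b (l 14918232) (l 15290560)) (b (a (l 14247728) (l 13597552)) (a (l 14592408) (l 13860384))))) (a (b (b (l 15186624) (l 15268392)) (b (l 15461512) (l 15554064))) (b (a (b (l 14374600) (l 14462728)) (b (l 13768592) (l 13860256))) (a (l 14733928) (b (l 14093400) (l 14203872))))))) (a (a (b (l 16736312) (l 2)) (b (l 16385848) (l 16373784))) (a (b (l 15540256) (l 15499992)) (a (b (l 14759336) (l 14698488)) (b (l 14169768) (l 14090536))))))), by decide +kernel⟩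

theorem c_pp_012 : CertNX 0 536870912 1073741824 536870912 1046898278 26843546 3 false true true .pnp 0 1 2
    ndN7q0 ndN3q2 pcN1 Cut.none Ext.none :=
  certNX2 (fam := false) (s1 := true) (s2 := true) (a := 0) (b := 1) (c := 2) (cn := .pnp) (n1 := ndN7q0) (n2 := ndN3q2) (pc := pcN1) (cut := Cut.none) (xt := Ext.none) (P1 := 0) (W1 := 536870912) (P2 := 1073741824) (W2 := 536870912) (P3 := 1046898278) (W3 := 26843546) (N0 := 3)
    rfl (fun _ => rfl) k0_pp_012

noncomputable def f_pp_022 : ℕ → ℕ → ℕ → ℕ → Bool := onCell 1073741824 536870912 1073741824 536870912 1046898278 26843546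
    (rowNX 3 2 false true true .pp 0 2 2 (qsf 0 536870912 1073741824 536870912 2) ndN7q0 ndN3q2 pcN2 Cut.none Ext.none)

def k0_pp_022 : ∃ t, chk3 f_pp_022 t 1 1 1 = true :=
  ⟨(a (b (a (b (b (b (a (a (c (l 12767864) (c (l 12635376) (a (l 12492008) (l 12596856)))) (a (c (l 12913936) (l 12741016)) (l 1))) (l 1)) (a (c (a (l 12940256) (c (l 13178368) (l 13089720))) (a (c (l 12816488) (l 12742912)) (l 12982536))) (a (c (a (l 13288512) (l 1)) (l 13142960)) (l 1)))) (a (b (c (a (l 13366944) (l 13558712)) (a (l 13016304) (l 13449048))) (c (a (l 13739336) (l 13930152)) (a (l 13402136) (l 13833576)))) (b (a (c (l 13731576) (l 13608448)) (l 13681464)) (a (c (l 14103200) (l 13992184)) (l 14061416))))) (a (b (c (b (a (l 13494760) (l 13683592)) (l 13681656)) (a (b (l 13378608) (l 13473840)) (b (l 13577776) (l 13671784)))) (c (a (l 13881680) (l 13963528)) (a (b (l 13720104) (l 13837080)) (l 13976816)))) (b (a (b (c (l 13855464) (l 13735200)) (l 13885232)) (b (l 13810952) (l 13905112))) (a (b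 (l 14125664) (l 14239048)) (l 14208832))))) (b (a (b (l 1) (b (l 1) (a (a (l 14186432) (l 1)) (l 1)))) (l 1)) (a (b (a (b (l 14013184) (l 14175672)) (b (l 14760376) (l 14857560))) (a (b (l 14425352) (l 14549032)) (l 15166664))) (b (a (l 348996350919) (l 1)) (a (l 15724848) (l 16069464)))))) (a (a (c (b (a (l 13901024) (l 14085008)) (l 13915136)) (b (a (l 13800824) (l 13994552)) (a (l 13720008) (l 13911488)))) (a (b (c (l 14256392) (l 14148576)) (l 14119216)) (b (l 14237904) (l 14180816)))) (a (a (b (l 14541280) (l 14525344)) (b (l 15209400) (l 15177272))) (a (b (l 15744808) (l 15675344)) (l 16000096))))) (b (b (l 1) (a (b (l 1) (a (l 494490371015) (l 1))) (l 1))) (a (a (b (l 16418880) (l 16380112)) (b (l 16764504) (l 16763896))) (a (l 478922407943) (l 4))))), by decide +kernel⟩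

theorem c_pp_022 : CertNX 0 536870912 1073741824 536870912 1046898278 26843546 3 false true true .pp 0 2 2
    ndN7q0 ndN3q2 pcN2 Cut.none Ext.none :=
  certNX2 (fam := false) (s1 := true) (s2 := true) (a := 0) (b := 2) (c := 2) (cn := .pp) (n1 := ndN7q0) (n2 := ndN3q2) (pc := pcN2) (cut := Cut.none) (xt := Ext.none) (P1 := 0) (W1 := 536870912) (P2 := 1073741824) (W2 := 536870912) (P3 := 1046898278) (W3 := 26843546) (N0 := 3)
    rfl (fun _ => rfl) k0_pp_022

noncomputable def f_pp_023 : ℕ → ℕ → ℕ → ℕ → Bool := onCell 1073741824 536870912 1610612736 536870912 1046898278 26843546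
    (rowNX 3 2 false true true .up 0 2 3 (qsf 0 536870912 1610612736 536870912 2) ndN7q0 ndN3q3 pcN2 Cut.none Ext.none)

def k0_pp_023 : ∃ t, chk3 f_pp_023 t 1 1 1 = true :=
  ⟨(a (a (b (a (b (c (l 13802304) (a (l 13603728) (l 13795000))) (l 2)) (a (b (l 14007824) (l 2)) (l 14050008))) (l 2)) (b (a (a (b (l 14504248) (l 14476224)) (l 15107328)) (a (l 15539904) (l 15878760))) (a (l 2) (b (l 4) (l 2))))) (b (a (a (b (l 16352192) (l 4)) (l 4)) (l 4)) (l 4))), by decide +kernel⟩

theorem c_pp_023 : CertNX 0 536870912 1610612736 536870912 1046898278 26843546 3 false true true .up 0 2 3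
    ndN7q0 ndN3q3 pcN2 Cut.none Ext.none :=
  certNX2 (fam := false) (s1 := true) (s2 := true) (a := 0) (b := 2) (c := 3) (cn := .up) (n1 := ndN7q0) (n2 := ndN3q3) (pc := pcN2) (cut := Cut.none) (xt := Ext.none) (P1 := 0) (W1 := 536870912) (P2 := 1610612736) (W2 := 536870912) (P3 := 1046898278) (W3 := 26843546) (N0 := 3)
    rfl (fun _ => rfl) k0_pp_023

noncomputable def f_pp_033 : ℕ → ℕ → ℕ → ℕ → Bool := onCell 1610612736 536870912 1610612736 536870912 1046898278 26843546
    (rowNX 3 2 false true true .pnn 0 3 3 (qsf 0 536870912 1610612736 536870912 3) ndN7q0 ndN3q3 pcN3 Cut.none Ext.none)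

def k0_pp_033 : ∃ t, chk3 f_pp_033 t 1 1 1 = true :=
  ⟨(l 4), by decide +kernel⟩

theorem c_pp_033 : CertNX 0 536870912 1610612736 536870912 1046898278 26843546 3 false true true .pnn 0 3 3
    ndN7q0 ndN3q3 pcN3 Cut.none Ext.none :=
  certNX2 (fam := false) (s1 := true) (s2 := true) (a := 0) (b := 3) (c := 3) (cn := .pnn) (n1 := ndN7q0) (n2 := ndN3q3) (pc := pcN3) (cut := Cut.none) (xt := Ext.none) (P1 := 0) (W1 := 536870912) (P2 := 1610612736) (W2 := 536870912) (P3 := 1046898278) (W3 := 26843546) (N0 := 3)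
    rfl (fun _ => rfl) k0_pp_033

noncomputable def f_pp_101 : ℕ → ℕ → ℕ → ℕ → Bool := onCell 536870912 536870912 536870912 536870912 1046898278 26843546
    (rowNX 3 0 false true true .npn 1 0 1 (qsf 536870912 536870912 536870912 536870912 0) ndN7q1 ndN3q1 pcN0 Cut.none Ext.none)

def k0_pp_101 : ∃ t, chk3 f_pp_101 t 1 1 1 = true :=
  ⟨(l 3), by decide +kernel⟩

theorem c_pp_101 : CertNX 536870912 536870912 536870912 536870912 1046898278 26843546 3 false true true .npn 1 0 1
    ndN7q1 ndN3q1 pcN0 Cut.none Ext.none :=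
  certNX0 (fam := false) (s1 := true) (s2 := true) (a := 1) (b := 0) (c := 1) (cn := .npn) (n1 := ndN7q1) (n2 := ndN3q1) (pc := pcN0) (cut := Cut.none) (xt := Ext.none) (P1 := 536870912) (W1 := 536870912) (P2 := 536870912) (W2 := 536870912) (P3 := 1046898278) (W3 := 26843546) (N0 := 3)
    rfl k0_pp_101

noncomputable def cut_pp_102 : Cut := Cut.of [[⟨0, 1, 0, 67108864⟩, ⟨1, 0, 0, 67108864⟩, ⟨2, 1, 0, 67108864⟩]]

noncomputable def f_pp_102 : ℕ → ℕ → ℕ → ℕ → Bool := onCell 536870912 536870912 0 536870912 1046898278 26843546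
    (rowNX 3 1 false true true .npp 1 0 2 (qsf 536870912 536870912 1073741824 536870912 0) ndN7q1 ndN3q2 pcN0 cut_pp_102 Ext.none)

def k0_pp_102 : ∃ t, chk3 f_pp_102 t 2 4 1 = true :=
  ⟨(l 1), by decide +kernel⟩

def k1_pp_102 : ∃ t, chk3 f_pp_102 t 6 8 1 = true :=
  ⟨(l 1), by decide +kernel⟩

def k2_pp_102 : ∃ t, chk3 f_pp_102 t 7 8 1 = true :=
  ⟨(a (a (l 1) (a (l 1) (a (l 1) (a (l 1) (b (l 1) (b (l 1) (b (l 1) (c (c (c (b (l 1) (b (l 1) (l 974990598567))) (l 964253064663)) (c (c (l 966937539575) (l 901439338855)) (l 16663904))) (l 16621128))))))))) (a (b (a (l 1) (l 6)) (b (a (a (l 1) (l 6)) (l 6)) (b (a (a (a (l 1) (l 6)) (l 6)) (l 6)) (b (a (a (a (a (l 1) (l 6)) (l 6)) (l 6)) (l 6)) (b (a (a (a (a (a (l 1) (l 6)) (l 6)) (l 6)) (l 6)) (l 6)) (c (a (a (c (b (a (l 16454104) (l 6)) (l 16367000)) (c (c (l 16522824) (a (l 16566040) (l 16562560))) (a (l 16550824) (l 16407304)))) (b (l 6) (c (c (l 16298744) (l 16394536)) (c (l 16386248) (c (a (l 16469000) (l 16442272)) (l 16350368))))))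 (b (l 6) (c (c (l 16088480) (l 16218560)) (a (c (l 16303648) (l 16295520)) (l 16231320))))) (a (a (c (l 16518120) (l 16423128)) (c (l 16415592) (l 16435264))) (c (c (a (c (a (l 16356768) (l 16360256)) (l 16338384)) (c (l 16306792) (a (l 16320816) (l 16293408)))) (a (l 16345912) (l 16270112))) (l 16303752))))))))) (b (l 6) (b (l 6) (b (l 6) (b (l 6) (b (l 6) (b (l 6) (b (l 6) (c (a (c (l 16058232) (l 16093520)) (c (l 15926224) (l 15926808))) (c (a (c (l 16125424) (a (c (l 16088544) (l 16094048)) (l 16070752))) (l 15917600)) (a (a (l 16152736) (c (c (a (l 16103240) (l 16058648)) (l 16061320)) (l 16054872))) (c (a (c (l 15969600) (a (l 15999432) (l 15940776))) (l 15862624)) (a (l 15918464) (c (a (l 15885840) (l 15834576)) (a (l 15883824) (c (l 15833336) (l 15830008)))))))))))))))))), by decide +kernel⟩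

def k3_pp_102 : ∃ t, chk3 f_pp_102 t 6 9 1 = true :=
  ⟨(b (l 1) (a (l 1) (b (l 1) (a (l 1) (a (l 1) (l 597031475495)))))), by decide +kernel⟩

def k4_pp_102 : ∃ t, chk3 f_pp_102 t 14 36 1 = true :=
  ⟨(a (l 1) (a (a (l 1) (b (l 1) (b (l 1) (c (c (c (c (l 921839701159) (l 920228997703)) (l 918081332903)) (l 16230056)) (l 16217088))))) (a (c (c (a (b (l 1) (c (c (l 16301952) (l 657699128871)) (c (l 16204368) (l 672731250727)))) (b (c (l 572337222135) (c (l 679711392695) (l 540124820455))) (c (l 16189176) (c (l 16159968) (l 16080296))))) (b (b (l 1) (l 16376112)) (l 612601630855))) (b (b (l 1) (l 16432576)) (c (l 636760811335) (b (l 16121712) (l 354366686951))))) (c (c (b (c (b (l 16491448) (l 16397456)) (c (a (l 227666051159) (l 16379176)) (b (a (l 16580520) (l 16522160)) (l 308196403575)))) (c (l 15980816) (a (c (l 16141280) (l 16141896)) (b (l 16147936) (l 16036168))))) (b (a (c (b (b (l 1) (l 1008813216471)) (l 623339534023)) (l 16373960)) (c (c (c (l 16396440) (l 16328600))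 (l 16233280)) (l 16330904))) (c (c (a (b (l 16235048) (l 16070792)) (l 15942096)) (a (l 16132888) (l 15902920))) (l 15924176)))) (b (a (b (l 16553664) (l 427381682695)) (c (l 16226440) (b (l 16399880) (l 16333488)))) (c (b (l 16192808) (l 16045520)) (b (l 16180856) (l 16057016)))))))), by decide +kernel⟩

def k5_pp_102 : ∃ t, chk3 f_pp_102 t 14 37 1 = true :=
  ⟨(b (a (l 1) (c (a (c (a (c (c (l 866004533319) (l 864930702135)) (l 16073008)) (c (c (a (l 16073512) (l 15990520)) (a (l 15860864) (l 16058712))) (c (a (l 16007544) (l 15854640)) (l 15980328)))) (l 660919626823)) (c (a (c (a (c (l 16056704) (l 15968144)) (l 15890632)) (c (a (l 15977616) (b (l 16061240) (l 15911688))) (a (l 15834248) (b (l 15981304) (l 15832752))))) (c (l 15812416) (a (c (l 15943256) (l 15924536)) (l 15790128)))) (a (a (l 15906232) (l 15702264)) (c (c (a (l 15749280) (l 15875264)) (a (l 15838312) (l 15819456))) (l 15837624))))) (a (a (l 15942232) (c (l 15711464) (b (l 16038224) (l 15834296)))) (a (c (b (l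 15962496) (l 15820192)) (l 15687496)) (c (l 15846744) (l 15854136)))))) (a (a (l 1) (a (l 1) (c (c (l 786010163399) (l 15809584)) (l 15785480)))) (c (c (a (c (a (c (a (l 571798652007) (l 15801344)) (l 529922598615)) (a (c (l 15818680) (l 15730544)) (c (b (l 15880360) (l 15732936)) (l 15748920)))) (a (l 15743648) (a (l 15685256) (b (l 15555760) (l 15505200))))) (a (c (a (c (l 15760720) (l 15589216)) (l 15717840)) (a (c (l 15683520) (l 15625656)) (c (l 15711096) (l 15634600)))) (c (l 15644648) (c (l 15690344) (l 15508344))))) (a (a (l 15731096) (l 15515688)) (a (l 15555888) (c (c (a (l 15604424) (l 15643984)) (l 15592312)) (l 15597576))))) (a (a (c (l 15696400) (b (l 15785152) (l 15628752))) (c (l 15576904) (l 15639192))) (c (l 15613824) (l 15613480)))))), by decide +kernel⟩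

def k6_pp_102 : ∃ t, chk3 f_pp_102 t 30 18 2 = true :=
  ⟨(b (a (c (b (a (a (l 16164792) (c (l 16113552) (l 16209072))) (b (a (l 16224040) (l 16259680)) (l 16053552))) (a (a (l 15894072) (l 15894600)) (l 15738144))) (b (a (a (c (c (b (c (l 16496552) (l 16515472)) (l 16309552)) (b (l 16433328) (l 16284184))) (l 16229128)) (c (c (l 16213472) (b (l 16373864) (l 16300984))) (b (c (l 16309912) (l 16377976)) (l 16174296)))) (c (a (b (l 16342520) (l 16262600)) (l 16267776)) (c (a (a (l 16288528) (l 16314568)) (l 16220560)) (a (l 16223600) (l 16197632))))) (c (a (a (c (l 15959976) (l 15959272)) (c (l 16117304) (l 16098912))) (l 15924520)) (a (a (l 16057800) (l 15891352)) (c (a (l 16062704) (l 16068560)) (l 15941456)))))) (b (c (a (l 16037576) (a (l 16060912) (l 16030216))) (a (c (l 16178352) (c (l 16232288) (l 16038080))) (a (l 16136584) (l 16026976)))) (c (a (l 15895656) (b (l 15895736) (l 15796480))) (a (c (l 15957992) (c (l 16010552) (l 15874664))) (b (l 15747240) (l 15849928))))))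 (c (a (b (a (l 15716656) (l 15745216)) (l 15324856)) (a (b (l 15696296) (l 15503072)) (b (l 15646992) (l 15450576)))) (a (c (a (c (b (l 15734928) (l 15666176)) (a (b (l 15832376) (l 15614064)) (l 15694680))) (b (l 15832056) (l 15624344))) (a (b (l 15810376) (l 15589872)) (c (a (b (l 15840880) (l 15627096)) (l 15573824)) (b (l 15759200) (l 15581000))))) (a (c (b (l 15752216) (l 15547632)) (a (c (l 15713920) (l 15685360)) (l 15510328))) (b (l 15687608) (l 15475976)))))), by decide +kernel⟩

def k7_pp_102 : ∃ t, chk3 f_pp_102 t 30 18 3 = true :=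
  ⟨(b (a (b (a (c (b (l 16312880) (l 16264456)) (b (l 16305208) (l 16280216))) (c (l 16137080) (l 16278344))) (c (a (l 16059392) (l 16011712)) (l 16040592))) (a (b (c (c (c (a (l 16223568) (l 16104736)) (l 16181264)) (l 16202896)) (l 16200728)) (c (c (c (a (l 15990848) (l 16000216)) (l 15964256)) (l 15957744)) (l 15948384))) (c (b (c (a (c (l 16209840) (l 15976112)) (c (l 16150960) (l 16118736))) (a (l 16146248) (l 15926328))) (c (a (c (l 15941520) (a (l 15941504) (l 15887352))) (c (l 15924416) (l 15910696))) (a (l 15911376) (l 15674912)))) (b (l 16120224) (l 15882984))))) (a (b (c (l 15792424) (l 15786248)) (l 15364712)) (c (c (a (a (l 15557912) (c (b (l 15775712) (l 15556464)) (l 15594928))) (a (c (l 15645736) (b (l 15726960) (l 15507728))) (l 15592800))) (a (l 15615656) (a (l 15570088) (l 15549784)))) (b (l 15684856) (l 15455136))))), by decide +kernel⟩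

def k8_pp_102 : ∃ t, chk3 f_pp_102 t 31 18 2 = true :=
  ⟨(b (b (a (c (a (l 15989840) (l 15939336)) (a (l 15964552) (l 15953056))) (a (c (l 15881984) (l 15881128)) (b (a (l 15867888) (c (l 15819280) (l 15806360))) (a (l 15777192) (l 15692936))))) (a (c (b (l 15830488) (l 15730448)) (a (l 15824672) (l 15757944))) (a (b (a (l 15771376) (l 15726872)) (a (l 15649816) (l 15571728))) (l 15513088)))) (a (b (a (c (l 15601216) (l 15607968)) (c (b (l 15595992) (l 15458240)) (b (l 15582760) (l 15440600)))) (a (c (b (l 15438360) (l 15302208)) (a (l 15397408) (l 15326472))) (l 15203000))) (b (l 15262496) (l 14918040)))), by decide +kernel⟩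

def k9_pp_102 : ∃ t, chk3 f_pp_102 t 62 18 3 = true :=
  ⟨(b (c (a (b (c (l 16065160) (c (a (l 16020688) (l 16062272)) (a (l 16066848) (l 15987144)))) (c (l 15850616) (c (a (l 15821976) (l 15849472)) (a (l 15846256) (l 15731520))))) (b (c (l 15956080) (l 15863096)) (c (l 15755464) (l 15618888)))) (b (a (l 16035992) (c (c (a (l 15996784) (l 15937320)) (l 15957472)) (l 15950392))) (a (l 15816984) (c (c (a (l 15747688) (l 15695600)) (l 15753128)) (l 15744792))))) (c (a (c (b (l 15628144) (a (l 15421784) (l 15333968))) (b (c (l 15638568) (l 15620800)) (a (c (b (l 15494080) (l 15367104)) (l 15387136)) (c (l 15359552) (b (l 15427528) (l 15267128)))))) (a (b (a (l 15354128) (l 15515144)) (l 15234816)) (b (l 15393840) (l 15135104)))) (a (b (l 15589816) (l 15205032)) (a (b (a (l 15545688) (b (l 15598640) (l 15253008))) (l 15224816)) (c (c (b (b (l 15447056) (l 15409832)) (l 15141952)) (b (l 15465712) (l 15117800))) (l 15172608)))))), by decide +kernel⟩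

def k10_pp_102 : ∃ t, chk3 f_pp_102 t 63 18 3 = true :=
  ⟨(b (c (b (a (l 15872064) (b (l 15818568) (l 15709520))) (a (b (l 15582120) (l 15585784)) (l 15484248))) (c (a (b (c (l 15878320) (a (l 15841888) (l 15852232))) (a (c (l 15594824) (b (l 15767448) (a (l 15660032) (l 15626576)))) (b (a (l 15723080) (l 15688432)) (l 15541792)))) (b (a (l 15791632) (l 15716168)) (l 15471040))) (a (b (a (l 15887096) (l 15699448)) (a (l 15681256) (b (c (a (l 15725872) (l 15606096)) (l 15693984)) (l 15534648)))) (b (c (a (a (c (l 15815440) (l 15815960)) (l 15757088)) (l 15711096)) (a (b (l 15840456) (l 15743608)) (c (a (b (l 15799384) (l 15677624)) (l 15688640)) (a (l 15734832) (b (l 15713848) (l 15618984)))))) (c (a (c (l 15523320) (l 15456448)) (l 15412176)) (a (l 15516440) (c (l 15409600) (l 15279552)))))))) (c (b (l 15229688) (l 14875984)) (c (a (c (l 15149616) (a (l 15035576) (l 15089744))) (l 14930280)) (a (a (l 15181144) (l 14890088)) (c (a (l 14807776) (l 14868128)) (a (l 14969632) (c (l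 14863776) (l 14858360)))))))), by decide +kernel⟩

def k11_pp_102 : ∃ t, chk3 f_pp_102 t 14 38 1 = true :=
  ⟨(a (b (a (l 1) (c (c (b (l 600252543575) (a (l 15505472) (l 240011909927))) (b (l 15601120) (l 15451592))) (a (l 700110285671) (b (l 15497560) (c (l 15399856) (l 310341873783)))))) (a (l 622264108951) (c (a (l 15405504) (c (l 15352912) (l 15336392))) (a (c (l 15374384) (l 15359624)) (c (l 15328352) (l 15321248)))))) (c (c (a (b (c (a (b (c (l 15571192) (l 15524152)) (c (a (l 15421528) (l 15435864)) (a (l 15393648) (l 15373192)))) (a (c (b (l 15596904) (l 15470192)) (b (l 15509424) (l 15383736))) (c (b (l 15597544) (l 15477944)) (l 15482384)))) (a (b (l 15511216) (l 15374200)) (a (b (l 15465496) (l 15340760)) (b (l 15455592) (l 15276424))))) (c (a (c (a (l 15337072) (l 15358976)) (l 15307968)) (c (l 15401504) (l 15348416))) (a (l 15300760) (l 15285104)))) (c (b (a (c (l 15487736) (b (l 15550184) (l 15442864))) (l 15428528)) (a (l 15377256) (l 15325224))) (a (b (c (a (l 15436200)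 (l 15480528)) (a (l 15381664) (l 15407312))) (c (l 15353328) (l 15295200))) (b (c (l 15478128) (l 15339440)) (l 15358624))))) (a (b (b (a (l 15498984) (l 15456176)) (a (l 15365536) (l 15339352))) (l 15298392)) (a (b (l 15384568) (l 15277552)) (c (b (c (a (l 15391744) (l 15437352)) (l 15382192)) (c (l 15322136) (l 15272424))) (b (l 15382568) (l 15265352)))))) (b (a (b (a (c (l 15489272) (l 15484952)) (l 15453944)) (c (l 15357000) (l 15352608))) (l 15291176)) (a (l 15291824) (l 15250096))))), by decide +kernel⟩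

def k12_pp_102 : ∃ t, chk3 f_pp_102 t 15 38 1 = true :=
  ⟨(a (c (a (c (b (a (l 15402248) (l 15351656)) (l 15266712)) (c (a (b (c (l 15464824) (a (l 15409336) (l 15448768))) (c (l 15348776) (l 15312672))) (b (l 15420912) (l 15292512))) (a (b (l 15313048) (l 15248888)) (b (c (l 15414264) (l 15364968)) (c (l 15281288) (l 15231440)))))) (a (b (c (a (l 15322512) (l 15294832)) (c (l 15338512) (a (l 15390040) (l 15352792)))) (c (a (l 15185176) (l 15118520)) (c (l 14933160) (a (b (l 15277912) (l 15207712)) (l 15166360))))) (b (c (b (l 15289344) (l 15158360)) (b (l 15303336) (l 15168104))) (l 14989712)))) (a (b (l 15329320) (l 15194480)) (c (c (a (b (a (l 15321944) (c (l 15339920) (l 15286272))) (a (l 15086456) (c (l 15152288) (l 15097832)))) (b (a (c (l 15312080) (b (l 15343136) (l 15221904))) (b (l 15302648) (l 15149488))) (c (l 15011248) (l 14994520)))) (a (b (l 15286272) (l 15107096)) (b (a (l 15232856) (l 14967288)) (l 14950072)))) (b (a (l 15268392) (l 15175984)) (a (l 15086920)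 (l 14920360)))))) (c (a (b (c (l 14971232) (l 14950856)) (l 14674936)) (b (a (l 14674696) (l 14485496)) (a (l 14376176) (l 14280008)))) (a (c (c (b (l 14955080) (l 14660024)) (a (c (a (l 14935264) (l 14873992)) (b (l 15047544) (l 14753584))) (l 14538536))) (a (l 14861192) (c (c (a (l 14736800) (l 14636336)) (l 14660936)) (l 14645440)))) (c (b (l 14529584) (a (l 14320376) (l 14196448))) (c (a (a (c (l 14518984) (l 14514328)) (l 14402208)) (b (l 14401792) (l 14166088))) (a (a (l 14487544) (l 14154296)) (a (c (b (l 14440992) (l 14159536)) (l 14168600)) (c (l 14241184) (b (l 14327328) (l 14116104)))))))))), by decide +kernel⟩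

def k13_pp_102 : ∃ t, chk3 f_pp_102 t 14 39 1 = true :=
  ⟨(a (a (c (b (l 15499448) (a (l 15484144) (l 15322760))) (b (a (l 15541960) (c (l 15385504) (l 15370848))) (a (l 15366280) (l 15214192)))) (c (a (b (l 15314656) (l 15234912)) (c (b (l 15268568) (l 15197472)) (l 15239784))) (a (c (l 15265424) (l 15256792)) (l 15230856)))) (c (c (a (c (a (c (l 15250208) (l 15209672)) (c (l 15312760) (l 15262520))) (a (l 15207432) (l 15201864))) (c (a (l 15290280) (l 15226728)) (a (c (l 15265176) (l 15204272)) (c (l 15267808) (l 15248104))))) (a (l 15199896) (c (a (l 15176328) (c (l 15203216) (l 15148816))) (l 15150000)))) (a (l 15187336) (l 15122104)))), by decide +kernel⟩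

def k14_pp_102 : ∃ t, chk3 f_pp_102 t 15 39 1 = true :=
  ⟨(a (c (a (c (a (b (l 15216784) (a (l 15142432) (l 15067896))) (b (b (l 15161304) (l 15085376)) (l 14932568))) (a (c (b (l 15236168) (a (c (l 15171768) (l 15097824)) (l 15101952))) (b (l 15156448) (l 14925288))) (c (b (a (l 15208904) (l 15134560)) (l 14974824)) (b (a (c (l 15174984) (l 15112480)) (c (l 15151904) (l 15093112))) (c (l 14961528) (l 14910288)))))) (c (b (l 14839496) (l 14608816)) (a (c (l 14841944) (b (l 14982800) (l 14748848))) (l 14613720)))) (a (a (b (l 15114848) (l 14985856)) (b (a (l 15077000) (l 15028360)) (l 14851696))) (c (c (a (c (b (l 14957576) (l 14722040)) (l 14791816)) (c (l 14637336) (b (l 14741760) (l 14497136)))) (b (l 14796592) (l 14556416))) (l 14642376)))) (c (a (b (a (l 14515808) (l 14306320)) (a (l 14274280) (l 14137112))) (b (a (l 14179312) (l 14166104)) (l 14126304))) (c (a (a (c (l 14383664) (a (l 14281408) (a (l 14350336) (l 14169880)))) (b (c (l 14264352) (l 14261392)) (a (l 14100048)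 (l 14062488)))) (b (l 14116840) (l 14063056))) (a (a (l 14317624) (a (b (l 14289808) (l 14069656)) (c (b (l 14193160) (l 14043656)) (l 14092520)))) (c (a (a (c (l 14084896) (b (l 14111384) (l 14035616))) (l 14050912)) (l 14053528)) (a (b (l 14075568) (l 14010784)) (c (l 14039400) (l 13899128)))))))), by decide +kernel⟩

def k15_pp_102 : ∃ t, chk3 f_pp_102 t 2 5 1 = true :=
  ⟨(b (l 1) (a (l 1) (b (l 1) (a (l 1) (a (l 1) (l 1330934491063)))))), by decide +kernel⟩

def k16_pp_102 : ∃ t, chk3 f_pp_102 t 6 5 1 = true :=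
  ⟨(b (a (b (l 1) (a (l 1) (b (l 1) (l 456909405095)))) (b (a (b (l 1) (a (l 1) (l 580925897879))) (b (a (l 583073111943) (c (b (l 15635832) (l 243233097943)) (b (l 619579721767) (a (l 15588296) (l 15433688))))) (a (c (b (l 15766752) (l 15609184)) (b (l 15553792) (a (l 15726536) (l 15570656)))) (c (b (a (l 15519504) (l 15370656)) (l 15373608)) (b (l 15310184) (l 15365056)))))) (a (a (b (l 15992864) (c (l 15846144) (a (l 16067648) (l 15871408)))) (b (c (l 539586510215) (b (l 15853944) (l 15667192))) (c (b (l 15742776) (l 15667728)) (l 15619904)))) (b (a (c (b (l 15569960) (l 15517032)) (b (l 15580984) (l 15512168))) (c (l 15269712) (l 15256128))) (c (a (l 15412320) (l 15125280)) (l 15241592)))))) (a (b (a (l 1064109994679) (b (a (l 16329472) (c (l 16085648) (l 347924007255))) (a (c (l 16153208) (l 16086896)) (c (l 15921048) (l 15920624))))) (a (b (a (l 16211704) (c (l 16246248) (l 16246456))) (a (l 636761139559) (c (l 16148824) (l 16155280)))) (b (c (a (l 16018168) (l 15811520))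 (l 15791664)) (c (l 15858744) (l 15847800))))) (b (a (a (b (c (l 15659808) (l 15825464)) (c (l 15704344) (l 15702072))) (c (b (l 15563616) (l 15426784)) (l 15474640))) (a (b (l 15252240) (a (l 15051744) (l 14942784))) (b (c (b (l 14989744) (l 14854152)) (l 14791632)) (l 14556704)))) (a (a (b (l 15594704) (a (l 15584560) (l 15416992))) (b (a (l 15362864) (l 15154144)) (l 15057568))) (b (a (l 14778464) (l 14268856)) (a (l 14567864) (l 14213944))))))), by decide +kernel⟩

def k17_pp_102 : ∃ t, chk3 f_pp_102 t 28 10 1 = true :=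
  ⟨(b (a (b (b (c (a (l 15388600) (l 15241264)) (a (l 15365904) (l 15222592))) (c (l 15201600) (l 15231824))) (c (b (l 15172512) (l 15103648)) (l 15121728))) (c (b (c (l 15122152) (l 15120216)) (c (l 14989496) (l 14976192))) (b (l 15104528) (l 14941544)))) (a (a (b (l 15044912) (b (l 14917912) (l 14799888))) (b (l 14896456) (b (l 14732176) (l 14556232)))) (b (a (b (l 14852216) (l 14728264)) (c (a (l 14745000) (l 14678568)) (l 14639000))) (c (l 14395720) (l 14314400))))), by decide +kernel⟩

def k18_pp_102 : ∃ t, chk3 f_pp_102 t 29 10 1 = true :=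
  ⟨(b (c (a (c (b (c (a (l 15116392) (c (l 15189000) (l 15134272))) (a (l 15086864) (l 15064472))) (a (b (c (l 15016976) (l 14977176)) (c (a (l 14918392) (l 14895728)) (l 14861624))) (c (b (a (l 15037856) (l 15016136)) (l 14843616)) (b (l 14916416) (l 14736784))))) (b (l 15057152) (b (l 14917088) (l 14765136)))) (c (b (a (c (b (l 15189224) (a (l 15122104) (l 15062168))) (b (c (l 15156056) (l 15090032)) (a (l 15019872) (l 15010952)))) (b (c (l 15082128) (a (l 15130584) (l 15086280))) (l 14905256))) (c (l 14485656) (a (c (l 14760648) (l 14689168)) (l 14597768)))) (b (a (b (l 15048472) (l 14927408)) (c (a (b (l 15024672) (l 14853120)) (c (l 14928872) (l 14861296))) (l 14871088))) (c (b (l 14505512) (l 14352600)) (l 14546872))))) (b (a (l 15025112) (b (l 14963448) (l 14807576))) (a (b (l 14870808) (l 14714760)) (l 14500024)))) (b (c (a (c (c (a (l 14619240) (l 14516336)) (l 14489512)) (l 14453288)) (c (a (c (l 14364896) (l 14170560)) (b (l 14253680) (l 14094440))) (a (l 14190944) (a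 (l 14081344) (b (l 14048216) (l 13992632)))))) (a (l 14394208) (l 14068728))) (c (a (c (a (l 14174512) (c (b (l 14193864) (l 14047328)) (l 14017304))) (l 14051440)) (c (a (c (l 14079208) (a (l 13975880) (l 14003072))) (l 14018768)) (a (l 13898624) (l 13937368)))) (a (l 13981056) (l 13825112))))), by decide +kernel⟩

def k19_pp_102 : ∃ t, chk3 f_pp_102 t 14 11 1 = true :=
  ⟨(a (b (a (b (l 14392712) (a (l 14143176) (l 13903456))) (c (b (a (l 14080208) (l 13941480)) (l 13824520)) (b (l 13925992) (l 13721696)))) (a (l 13949288) (c (l 13878832) (l 13778792)))) (b (c (a (c (c (a (l 13738704) (l 13960560)) (l 13852848)) (l 13807848)) (c (a (c (l 13980120) (l 13908240)) (b (l 13958488) (l 13886904))) (a (l 13797704) (c (b (l 13893576) (l 13821176)) (l 13777992))))) (b (l 13756872) (l 13689024))) (c (a (c (b (a (l 13869032) (c (l 13941968) (l 13827008))) (a (l 13910032) (l 13876200))) (l 13607312)) (c (a (b (c (l 13909088) (l 13836712)) (l 13779744)) (l 13712424)) (a (l 13679072) (l 13625800))))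 (b (a (l 13708744) (l 13594288)) (l 13603648))))), by decide +kernel⟩

def k20_pp_102 : ∃ t, chk3 f_pp_102 t 30 10 1 = true :=
  ⟨(c (b (a (c (b (a (l 14813728) (l 14601856)) (a (l 14388216) (b (l 14279080) (l 14128040)))) (a (c (b (l 14795824) (a (l 14425232) (l 14353480))) (b (l 14733360) (l 14297984))) (b (c (l 14639600) (c (l 14624024) (l 14571248))) (c (b (l 14312352) (l 14159248)) (b (l 14190632) (a (l 14125360) (l 14103064))))))) (b (a (c (l 14377104) (c (l 14384640) (l 14402264))) (b (l 14274120) (c (l 14118416) (l 14108208)))) (a (c (l 14100912) (c (l 14104720) (l 14119840))) (l 14070520)))) (a (a (c (l 14044072) (c (b (a (l 14076544) (l 14078952)) (l 13989840)) (l 13925136))) (c (l 14001928) (c (l 14031656) (l 13991424)))) (a (c (l 13978224) (l 13970328)) (b (l 14007352) (l 13920536))))) (b (a (b (a (l 14682368) (l 14505704)) (a (l 14236944) (b (l 14167816) (l 14009784)))) (c (c (b (a (c (l 14373104) (l 14325120)) (a (b (l 14324816) (l 14128136)) (l 14158168))) (a (a (l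 14056904) (l 14061056)) (l 14058752))) (b (b (l 14319408) (l 13906576)) (l 14018024))) (b (l 13993904) (l 13977960)))) (a (a (l 13877192) (l 13878664)) (c (a (l 13932440) (c (b (l 13994544) (l 13906064)) (l 13891272))) (l 13849144))))), by decide +kernel⟩

def k21_pp_102 : ∃ t, chk3 f_pp_102 t 31 10 1 = true :=
  ⟨(c (b (b (a (a (b (l 14117240) (l 14071192)) (l 14080864)) (l 14099264)) (a (l 14053552) (l 14052408))) (a (b (l 13980576) (a (l 13849632) (l 13756288))) (b (l 13875928) (l 13582600)))) (b (a (c (a (b (c (l 14082272) (c (l 13935648) (l 14057800))) (c (l 14032896) (l 14019208))) (l 14019312)) (a (l 13986696) (c (l 13996400) (l 13962432)))) (c (b (l 14035680) (l 13988048)) (c (a (c (l 13998216) (l 13983720)) (l 13978928)) (a (l 13967784) (b (c (l 13993792) (l 13979232)) (c (l 13939416) (a (l 13941896) (l 13924648)))))))) (c (a (a (c (b (l 13968800) (l 13827168)) (b (l 13954688) (b (l 13878328) (l 13759640)))) (b (l 13926672) (l 13701920))) (b (l 13806864) (l 13505112)))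 (a (b (a (l 13894264) (c (l 13860904) (l 13868272))) (a (l 13749584) (l 13655056))) (c (a (b (b (l 13651872) (l 13782056)) (l 13536240)) (l 13564728)) (a (b (l 13813632) (l 13511744)) (c (l 13547512) (l 13530992)))))))), by decide +kernel⟩

def k22_pp_102 : ∃ t, chk3 f_pp_102 t 15 11 1 = true :=
  ⟨(a (c (b (a (c (b (l 13905672) (l 13735712)) (b (a (l 13885192) (c (l 13906912) (l 13865728))) (a (c (l 13792328) (l 13699816)) (l 13460408)))) (a (b (b (l 13774400) (l 13745520)) (l 13520848)) (l 13553584))) (a (c (l 13489480) (c (l 13479928) (l 13426512))) (c (l 13200432) (b (l 13229520) (l 13118128))))) (b (a (b (l 13751976) (l 13574120)) (c (a (b (c (l 13772288) (l 13711680)) (l 13470104)) (c (l 13530408) (l 13468968))) (l 13465752))) (a (l 13315640) (c (b (c (l 13203128) (l 13147192)) (l 13064856)) (l 13036376))))) (c (b (l 13245640) (b (a (l 12988568) (l 12775312)) (a (l 12897640) (l 12733864)))) (b (c (a (c (l 13315712) (a (l 13364936) (l 13221232))) (l 13035744)) (a (l 13238288)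 (c (a (l 13058896) (l 12926992)) (a (l 13029752) (l 12894976))))) (c (a (a (c (l 12951544) (b (l 12980968) (l 12870928))) (b (l 12846320) (l 12759392))) (b (l 12673272) (l 12630496))) (a (b (l 12847688) (l 12751936)) (b (c (a (l 12674208) (l 12566264)) (a (l 12641176) (b (l 12547264) (l 12509032)))) (c (l 12581720) (l 12539000)))))))), by decide +kernel⟩

def k23_pp_102 : ∃ t, chk3 f_pp_102 t 2 3 1 = true :=
  ⟨(a (b (b (l 1) (a (l 1) (a (l 1) (l 568038251351)))) (b (a (a (l 1) (l 565890767703)) (b (a (l 14909712) (c (l 15300456) (l 15104576))) (a (c (l 15363376) (l 15209432)) (c (l 15621992) (l 15571712))))) (a (b (a (l 14909712) (c (l 15363376) (l 15293320))) (a (c (l 15363376) (l 15293320)) (c (l 15621992) (l 15571712)))) (a (b (c (l 15621992) (l 15571712)) (a (l 15801488) (l 15920208))) (b (b (l 15738576) (l 15878264)) (b (l 16118616) (l 16473080))))))) (b (a (b (a (l 1) (b (l 1) (l 15055960))) (a (b (l 14769704) (a (l 547101470471) (c (l 15578288) (l 15510296)))) (b (a (l 568039903687)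 (c (l 15781728) (l 15683536))) (a (l 15643856) (l 15996128))))) (b (a (b (l 632464517847) (a (l 641054897751) (b (l 15824272) (l 16148368)))) (b (a (b (l 15987832) (l 948146030583)) (b (l 799432920663) (l 16314152))) (a (c (l 16343024) (l 16295408)) (l 16316504)))) (a (b (a (b (l 15947872) (l 16112984)) (l 16247480)) (a (b (l 16149528) (l 16279760)) (l 16247712))) (b (a (b (l 16406728) (l 16339560)) (l 16098320)) (a (l 16176920) (l 15938176)))))) (a (b (a (b (a (l 15515720) (l 15768464)) (a (l 15602120) (b (l 15956104) (l 16242968)))) (b (a (b (l 15915952) (l 16058120)) (l 16088176)) (a (l 16421680) (l 16484864)))) (a (b (a (l 16253528) (l 16551536)) (l 16420256)) (b (l 16560904) (l 16508816)))) (b (a (b (a (l 16434112) (l 16223400)) (l 16313408)) (b (l 16041456) (l 16044056))) (a (l 16236176) (l 15920704)))))), by decide +kernel⟩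

def k24_pp_102 : ∃ t, chk3 f_pp_102 t 6 3 1 = true :=
  ⟨(b (a (b (a (b (a (c (l 16245424) (l 16254392)) (l 15997920)) (a (b (l 16166424) (l 16084128)) (b (l 15947344) (l 15793040)))) (b (a (b (l 15896368) (l 15804608)) (b (l 15655960) (l 15482344))) (a (l 15339256) (l 15297504)))) (a (b (a (l 15811816) (l 15629512)) (l 15745864)) (b (a (l 15462024) (l 15354136)) (l 15394712)))) (b (a (b (a (b (l 15310112) (l 15120672)) (b (l 14857704) (l 14808128))) (a (l 15110400) (l 14917168))) (b (a (l 14557352) (l 14336584)) (a (l 14661568) (l 14339320)))) (a (b (a (l 15201400) (l 14917880)) (l 14939728)) (b (l 14366456) (l 14243840))))) (a (b (a (b (l 15752088) (l 15668448)) (b (l 15340304) (l 15246352))) (a (l 15579840) (l 15217152))) (b (a (b (l 14831432) (l 14797312)) (l 14204752)) (l 14504672)))), by decide +kernel⟩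

def k25_pp_102 : ∃ t, chk3 f_pp_102 t 7 3 1 = true :=
  ⟨(b (a (a (b (a (b (b (l 14076376) (l 14080144)) (l 13951344)) (a (l 13791176) (l 13689968))) (b (a (l 13787360) (c (l 13582560) (l 13470408))) (l 13598824))) (b (c (b (c (a (l 13769704) (l 13558528)) (l 13568136)) (b (a (l 13584552) (c (a (l 13488752) (l 13389408)) (l 13348088))) (a (c (l 13556320) (l 13432424)) (c (l 13409960) (l 13321424))))) (b (l 13453944) (l 13299552))) (c (c (a (l 13531448) (l 13409824)) (l 13370072)) (l 13249496)))) (c (b (a (a (c (b (l 13296664) (l 13227680)) (b (a (l 13306008) (b (l 13238440) (l 13166512))) (l 13183464))) (b (a (b (l 13096688) (l 13058200)) (l 12995240)) (l 13026808))) (l 12802320)) (a (c (l 13145464) (a (l 13183368) (l 13005936))) (l 12802264))) (a (b (b (a (l 13112688) (c (b (c (l 12796264) (l 12948008)) (l 12950432)) (l 12882392))) (c (l 12814960) (l 12934896))) (l 12788416)) (b (c (a (c (l 12810192) (a (l 12829024) (l 12735912))) (l 12630320)) (a (l 12719904) (c (l 12581536)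 (a (l 12587184) (l 12505976))))) (c (a (l 12784696) (l 12630320)) (a (l 12719832) (c (l 12581536) (l 12538824)))))))) (a (c (a (l 13652976) (c (a (l 13531400) (l 13409824)) (l 13370024))) (l 13409280)) (c (a (c (l 13145464) (a (l 13183368) (l 13005936))) (l 12802264)) (a (c (l 13003624) (l 12934816)) (c (a (l 12784696) (l 12630320)) (a (l 12719832) (b (l 12559560) (l 12559560)))))))), by decide +kernel⟩

theorem s26_pp_102 : ∃ t, chk3 f_pp_102 t 3 3 1 = true := ex3_a k24_pp_102 k25_pp_102

theorem s27_pp_102 : ∃ t, chk3 f_pp_102 t 1 3 1 = true := ex3_a k23_pp_102 s26_pp_102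

theorem s28_pp_102 : ∃ t, chk3 f_pp_102 t 15 10 1 = true := ex3_a k20_pp_102 k21_pp_102

theorem s29_pp_102 : ∃ t, chk3 f_pp_102 t 15 5 1 = true := ex3_b s28_pp_102 k22_pp_102

theorem s30_pp_102 : ∃ t, chk3 f_pp_102 t 14 10 1 = true := ex3_a k17_pp_102 k18_pp_102

theorem s31_pp_102 : ∃ t, chk3 f_pp_102 t 14 5 1 = true := ex3_b s30_pp_102 k19_pp_102

theorem s32_pp_102 : ∃ t, chk3 f_pp_102 t 7 5 1 = true := ex3_a s31_pp_102 s29_pp_102

theorem s33_pp_102 : ∃ t, chk3 f_pp_102 t 3 5 1 = true := ex3_a k16_pp_102 s32_pp_102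

theorem s34_pp_102 : ∃ t, chk3 f_pp_102 t 1 5 1 = true := ex3_a k15_pp_102 s33_pp_102

theorem s35_pp_102 : ∃ t, chk3 f_pp_102 t 7 39 1 = true := ex3_a k13_pp_102 k14_pp_102

theorem s36_pp_102 : ∃ t, chk3 f_pp_102 t 7 38 1 = true := ex3_a k11_pp_102 k12_pp_102

theorem s37_pp_102 : ∃ t, chk3 f_pp_102 t 7 19 1 = true := ex3_b s36_pp_102 s35_pp_102

theorem s38_pp_102 : ∃ t, chk3 f_pp_102 t 31 18 3 = true := ex3_a k9_pp_102 k10_pp_102

theorem s39_pp_102 : ∃ t, chk3 f_pp_102 t 31 18 1 = true := ex3_c k8_pp_102 s38_pp_102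

theorem s40_pp_102 : ∃ t, chk3 f_pp_102 t 30 18 1 = true := ex3_c k6_pp_102 k7_pp_102

theorem s41_pp_102 : ∃ t, chk3 f_pp_102 t 15 18 1 = true := ex3_a s40_pp_102 s39_pp_102

theorem s42_pp_102 : ∃ t, chk3 f_pp_102 t 14 18 1 = true := ex3_b k4_pp_102 k5_pp_102

theorem s43_pp_102 : ∃ t, chk3 f_pp_102 t 7 18 1 = true := ex3_a s42_pp_102 s41_pp_102

theorem s44_pp_102 : ∃ t, chk3 f_pp_102 t 7 9 1 = true := ex3_b s43_pp_102 s37_pp_102

theorem s45_pp_102 : ∃ t, chk3 f_pp_102 t 3 9 1 = true := ex3_a k3_pp_102 s44_pp_102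

theorem s46_pp_102 : ∃ t, chk3 f_pp_102 t 3 8 1 = true := ex3_a k1_pp_102 k2_pp_102

theorem s47_pp_102 : ∃ t, chk3 f_pp_102 t 3 4 1 = true := ex3_b s46_pp_102 s45_pp_102

theorem s48_pp_102 : ∃ t, chk3 f_pp_102 t 1 4 1 = true := ex3_a k0_pp_102 s47_pp_102

theorem s49_pp_102 : ∃ t, chk3 f_pp_102 t 1 2 1 = true := ex3_b s48_pp_102 s34_pp_102

theorem s50_pp_102 : ∃ t, chk3 f_pp_102 t 1 1 1 = true := ex3_b s49_pp_102 s27_pp_102

theorem c_pp_102 : CertNX 536870912 536870912 1073741824 536870912 1046898278 26843546 3 false true true .npp 1 0 2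
    ndN7q1 ndN3q2 pcN0 cut_pp_102 Ext.none :=
  certNX1 (fam := false) (s1 := true) (s2 := true) (a := 1) (b := 0) (c := 2) (cn := .npp) (n1 := ndN7q1) (n2 := ndN3q2) (pc := pcN0) (cut := cut_pp_102) (xt := Ext.none) (P1 := 536870912) (W1 := 536870912) (P2 := 1073741824) (W2 := 536870912) (P3 := 1046898278) (W3 := 26843546) (N0 := 3)
    rfl (fun _ => rfl) s50_pp_102

noncomputable def f_pp_112 : ℕ → ℕ → ℕ → ℕ → Bool := onCell 536870912 536870912 1073741824 536870912 1046898278 26843546
    (rowNX 3 0 false true true .dn 1 1 2 (qsf 536870912 536870912 1073741824 536870912 1) ndN7q1 ndN3q2 pcN1 Cut.none Ext.none)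

def k0_pp_112 : ∃ t, chk3 f_pp_112 t 1 1 1 = true :=
  ⟨(b (a (b (a (b (b (c (l 15563208) (l 15478632)) (l 15709632)) (b (l 16030072) (l 16540528))) (b (l 1) (b (l 1) (l 688837668039)))) (a (b (b (l 16296768) (l 16398440)) (b (l 16650576) (l 16777040))) (b (a (l 16326952) (l 539587124679)) (a (l 16578200) (l 422549421895))))) (a (b (l 1) (b (l 1) (a (l 547101796023) (l 1)))) (l 1))) (a (b (a (a (b (l 16756960) (l 16553720)) (b (l 16777216) (l 16756944))) (a (l 16592392) (l 16041696))) (a (b (a (b (l 16184480) (l 15781656)) (l 16551088)) (a (a (b (l 14955640) (l 14387152)) (l 15215200)) (a (l 15765672) (l 16168200)))) (a (b (l 16572360) (l 16365048)) (b (l 16041696) (l 16021456))))) (a (a (b (l 15393264) (l 15393264)) (b (l 467106199479) (l 14504672))) (a (b (a (l 542803186247) (l 1)) (a (l 13598760) (c (l 464419654279) (l 13249456)))) (b (l 1) (c (a (c (l 13145464) (l 462808363991)) (l 12802264)) (a (l 12977160) (c (l 462807638887) (l 471397406583))))))))), by decide +kernel⟩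

theorem c_pp_112 : CertNX 536870912 536870912 1073741824 536870912 1046898278 26843546 3 false true true .dn 1 1 2
    ndN7q1 ndN3q2 pcN1 Cut.none Ext.none :=
  certNX0 (fam := false) (s1 := true) (s2 := true) (a := 1) (b := 1) (c := 2) (cn := .dn) (n1 := ndN7q1) (n2 := ndN3q2) (pc := pcN1) (cut := Cut.none) (xt := Ext.none) (P1 := 536870912) (W1 := 536870912) (P2 := 1073741824) (W2 := 536870912) (P3 := 1046898278) (W3 := 26843546) (N0 := 3)
    rfl k0_pp_112

noncomputable def f_pp_113 : ℕ → ℕ → ℕ → ℕ → Bool := onCell 536870912 536870912 536870912 536870912 1046898278 26843546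
    (rowNX 3 1 false true true .nn 1 1 3 (qsf 536870912 536870912 1610612736 536870912 1) ndN7q1 ndN3q3 pcN1 Cut.none Ext.none)

def k0_pp_113 : ∃ t, chk3 f_pp_113 t 1 1 1 = true :=
  ⟨(b (a (a (l 1) (b (l 1) (l 16326640))) (a (a (l 462813009351) (b (l 14504672) (l 14504672))) (a (a (b (l 13598760) (l 13598760)) (c (b (l 13409360) (l 13409360)) (l 514885284087))) (c (a (c (l 512737508583) (b (l 13070576) (l 13070576))) (b (l 12802264) (l 12802264))) (b (a (l 12977160) (c (l 12708024) (l 334495219159))) (a (l 12977160) (c (l 12708024) (l 12624584)))))))) (b (a (a (b (l 1) (l 16374936)) (b (l 16285576) (l 15912608))) (a (b (l 70896250823) (a (l 14971000) (l 14072240))) (a (b (c (l 13533560) (l 13362600)) (a (l 13157504) (c (l 12994728) (l 12764944)))) (b (c (a (l 13055472) (l 12758832)) (a (l 12928872) (l 12615472))) (c (a (l 12678872) (l 12378136)) (a (l 12479232) (b (l 12324768) (l 11963568)))))))) (a (a (b (l 15479344) (b (l 14640512) (l 13985568))) (b (l 14822808) (b (l 14090864)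 (l 13396464)))) (a (b (a (l 14009448) (l 13111376)) (b (l 12673808) (a (l 12396192) (l 11530608)))) (b (a (a (l 12212000) (l 11705488)) (c (a (l 11898168) (l 11647464)) (a (l 11418248) (b (l 11313120) (l 10771704))))) (b (a (c (l 11652656) (l 11003096)) (c (a (l 11520224) (l 11753048)) (a (l 10605608) (l 10407624)))) (a (a (l 10784344) (c (l 11201864) (l 10199728))) (a (c (l 11592744) (l 10062336)) (b (c (l 12765984) (l 10312568)) (c (l 15229752) (a (l 10326480) (b (l 11205056) (b (l 12256672) (l 13763504)))))))))))))), by decide +kernel⟩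

theorem c_pp_113 : CertNX 536870912 536870912 1610612736 536870912 1046898278 26843546 3 false true true .nn 1 1 3
    ndN7q1 ndN3q3 pcN1 Cut.none Ext.none :=
  certNX1 (fam := false) (s1 := true) (s2 := true) (a := 1) (b := 1) (c := 3) (cn := .nn) (n1 := ndN7q1) (n2 := ndN3q3) (pc := pcN1) (cut := Cut.none) (xt := Ext.none) (P1 := 536870912) (W1 := 536870912) (P2 := 1610612736) (W2 := 536870912) (P3 := 1046898278) (W3 := 26843546) (N0 := 3)
    rfl (fun _ => rfl) k0_pp_113

noncomputable def f_pp_123 : ℕ → ℕ → ℕ → ℕ → Bool := onCell 1073741824 536870912 1610612736 536870912 1046898278 26843546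
    (rowNX 3 2 false true true .npn 1 2 3 (qsf 536870912 536870912 1610612736 536870912 2) ndN7q1 ndN3q3 pcN2 Cut.none Ext.none)

def k0_pp_123 : ∃ t, chk3 f_pp_123 t 1 1 1 = true :=
  ⟨(a (a (b (a (b (c (l 13802304) (a (l 13603728) (l 13795000))) (a (b (l 13259976) (l 12799360)) (c (l 13467904) (l 13501160)))) (a (b (l 14007824) (b (l 13900704) (l 13749648))) (l 452609769255))) (b (a (a (c (l 12239488) (b (l 12260128) (l 11582624))) (c (l 12929872) (l 12704760))) (a (c (l 13442352) (l 13231712)) (l 13740576))) (a (a (b (c (b (l 11674488) (l 12005352)) (a (l 10605768) (l 11447816))) (c (b (c (l 14266744) (l 13872744)) (l 15187408)) (b (c (l 13471616) (l 13043760)) (c (a (l 14306512) (l 13747544)) (a (l 13180344) (l 13093160)))))) (b (c (a (l 12733992) (l 13123376)) (l 12497808)) (b (c (c (l 14023440) (l 13758232)) (l 13370864)) (l 4)))) (b (a (c (l 13661320) (l 13337888)) (l 14060992)) (l 4))))) (b (a (a (l 456905622071) (l 15107328)) (a (l 15539904) (l 15878760))) (b (a (a (l 14412792)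 (l 15043968)) (l 4)) (l 4)))) (b (a (a (l 462814925719) (l 1)) (l 1)) (l 4))), by decide +kernel⟩

theorem c_pp_123 : CertNX 536870912 536870912 1610612736 536870912 1046898278 26843546 3 false true true .npn 1 2 3
    ndN7q1 ndN3q3 pcN2 Cut.none Ext.none :=
  certNX2 (fam := false) (s1 := true) (s2 := true) (a := 1) (b := 2) (c := 3) (cn := .npn) (n1 := ndN7q1) (n2 := ndN3q3) (pc := pcN2) (cut := Cut.none) (xt := Ext.none) (P1 := 536870912) (W1 := 536870912) (P2 := 1610612736) (W2 := 536870912) (P3 := 1046898278) (W3 := 26843546) (N0 := 3)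
    rfl (fun _ => rfl) k0_pp_123

noncomputable def f_pp_133 : ℕ → ℕ → ℕ → ℕ → Bool := onCell 1610612736 536870912 1610612736 536870912 1046898278 26843546
    (rowNX 3 2 false true true .dn 1 3 3 (qsf 536870912 536870912 1610612736 536870912 3) ndN7q1 ndN3q3 pcN3 Cut.none Ext.none)

def k0_pp_133 : ∃ t, chk3 f_pp_133 t 1 1 1 = true :=
  ⟨(l 4), by decide +kernel⟩

theorem c_pp_133 : CertNX 536870912 536870912 1610612736 536870912 1046898278 26843546 3 false true true .dn 1 3 3
    ndN7q1 ndN3q3 pcN3 Cut.none Ext.none :=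
  certNX2 (fam := false) (s1 := true) (s2 := true) (a := 1) (b := 3) (c := 3) (cn := .dn) (n1 := ndN7q1) (n2 := ndN3q3) (pc := pcN3) (cut := Cut.none) (xt := Ext.none) (P1 := 536870912) (W1 := 536870912) (P2 := 1610612736) (W2 := 536870912) (P3 := 1046898278) (W3 := 26843546) (N0 := 3)
    rfl (fun _ => rfl) k0_pp_133

noncomputable def cut_pp_202 : Cut := Cut.of [[⟨0, 1, 0, 67108864⟩, ⟨1, 0, 0, 67108864⟩, ⟨2, 1, 0, 67108864⟩]]

noncomputable def f_pp_202 : ℕ → ℕ → ℕ → ℕ → Bool := onCell 1073741824 536870912 0 536870912 1046898278 26843546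
    (rowNX 3 1 false true true .pp 2 0 2 (qsf 1073741824 536870912 1073741824 536870912 0) ndN7q2 ndN3q2 pcN0 cut_pp_202 Ext.none)

def k0_pp_202 : ∃ t, chk3 f_pp_202 t 32 8 1 = true :=
  ⟨(a (b (l 6) (b (l 6) (b (a (l 6) (a (l 6) (l 3))) (c (c (c (b (c (a (l 15868368) (l 15855072)) (a (l 15916432) (b (l 15920120) (l 15891632)))) (a (c (b (l 15868056) (l 15840504)) (l 15862512)) (l 15802840))) (b (l 15918096) (l 15828992))) (b (l 15908888) (l 15818728))) (c (b (l 15896488) (l 15804856)) (c (a (l 15859024) (l 15803328)) (c (a (l 15854840) (a (l 15755280) (c (l 15820464) (l 15779008)))) (a (c (a (l 15860480) (b (l 15896296) (l 15814056))) (a (b (l 6) (l 15764312)) (l 15830704))) (b (a (l 15892184) (l 3)) (l 15769856)))))))))) (l 3)), by decide +kernel⟩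

def k1_pp_202 : ∃ t, chk3 f_pp_202 t 32 9 1 = true :=
  ⟨(b (c (b (b (a (l 15648224) (l 15516776)) (a (l 15364304) (l 15250408))) (b (a (l 15020912) (l 14921640)) (a (l 14682120) (b (l 14710560) (l 14620568))))) (b (c (b (l 15452400) (l 15170024)) (a (c (b (l 15611464) (l 15316592)) (a (c (l 15256136) (b (c (l 15634416) (l 15525824)) (c (l 15331512) (l 15306160)))) (c (b (c (l 15582176) (l 15578336)) (l 15203400)) (b (l 15575640) (l 15282792))))) (c (a (b (l 15521160) (l 15242520)) (l 3)) (b (l 15333472) (l 15012504))))) (c (a (l 14804720) (b (l 14881328) (l 14627096))) (a (c (l 14782632) (c (b (l 14867352) (l 14344624)) (a (c (l 14788232) (l 14782664)) (l 14745688)))) (c (a (b (l 14894096) (l 14584880)) (c (l 14584392) (b (l 14852504) (l 14627208)))) (b (l 14751288) (a (l 14569488) (l 14601344)))))))) (c (b (b (a (b (l 14465992) (l 14374888)) (l 14542696)) (l 14384384)) (l 14294032)) (c (b (b (a (l 14371664) (l 14492336)) (l 14328592)) (l 14236088)) (a (c (b (l 14288560) (l 14134768))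 (b (c (a (l 14238840) (l 14296184)) (a (b (c (l 14295184) (l 14288520)) (l 14156896)) (l 14287336))) (c (l 14121248) (l 13960424)))) (c (c (l 14278568) (b (l 14257448) (l 14280872))) (b (l 14412336) (l 14267112))))))), by decide +kernel⟩

def k2_pp_202 : ∃ t, chk3 f_pp_202 t 33 4 1 = true :=
  ⟨(b (l 3) (a (b (a (l 3) (l 3)) (c (b (l 14634600) (l 14489496)) (c (b (c (l 14601552) (l 14601664)) (l 14455368)) (c (b (c (l 14598248) (l 14576544)) (l 14438864)) (l 14480608))))) (b (l 3) (b (l 3) (c (b (l 14642808) (l 14576904)) (c (c (l 14537632) (b (l 14630056) (a (l 14551352) (l 14589608)))) (l 14540360))))))), by decide +kernel⟩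

def k3_pp_202 : ∃ t, chk3 f_pp_202 t 17 4 1 = true :=
  ⟨(b (l 3) (b (l 3) (l 3))), by decide +kernel⟩

def k4_pp_202 : ∃ t, chk3 f_pp_202 t 9 4 1 = true :=
  ⟨(l 3), by decide +kernel⟩

def k5_pp_202 : ∃ t, chk3 f_pp_202 t 5 4 1 = true :=
  ⟨(l 3), by decide +kernel⟩

def k6_pp_202 : ∃ t, chk3 f_pp_202 t 8 10 1 = true :=
  ⟨(c (a (b (b (a (b (l 14250664) (l 14213544)) (a (b (l 14417336) (l 14306664)) (l 14384936))) (a (b (l 14135752) (l 14013680)) (l 14084744))) (l 13632472)) (c (b (a (l 14253104) (l 14307720)) (a (b (l 13826472) (l 13574488)) (b (a (l 13878368) (l 13952096)) (l 13738632)))) (a (b (b (l 14375560) (l 14098600)) (b (l 13810224) (a (l 13522496) (c (l 13592632) (l 13599816))))) (b (a (c (l 14316808) (l 14211912)) (l 3)) (b (a (c (l 13904864) (l 13775040)) (c (l 623468721095) (l 13848864))) (c (l 13730168) (l 13677936))))))) (a (b (c (a (b (l 14169032) (l 14003544)) (a (b (b (l 14339600) (l 14267896)) (l 14036016)) (c (l 14218184) (b (l 14322256) (l 14052800))))) (a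 (c (a (b (l 14081688) (l 13964152)) (b (a (l 14186968) (c (l 14254752) (l 14249000))) (l 13958632))) (a (b (c (l 14067936) (l 14053760)) (c (a (l 13941864) (l 13970208)) (a (l 13930752) (l 13960104)))) (b (l 14191664) (l 13980536)))) (a (b (a (b (l 14330984) (l 14231392)) (l 14309632)) (l 13995816)) (l 14149368)))) (c (a (l 13547496) (c (l 13600456) (a (l 13564584) (l 13596600)))) (a (c (a (l 13504704) (l 13520000)) (a (c (l 13487040) (l 13470240)) (l 13495448))) (l 13425360)))) (b (a (c (c (a (l 13992256) (l 14237744)) (l 14186432)) (l 14150496)) (l 14172472)) (a (c (b (c (a (l 13797712) (l 13801096)) (l 13741200)) (c (a (l 13515864) (l 13551832)) (l 13477880))) (l 13337808)) (b (l 13769128) (l 13575216)))))), by decide +kernel⟩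

def k7_pp_202 : ∃ t, chk3 f_pp_202 t 8 11 1 = true :=
  ⟨(a (c (b (b (a (l 13173952) (l 13128824)) (a (l 12909736) (l 13036192))) (b (l 12839720) (l 12823936))) (b (c (a (b (l 13084408) (l 12812016)) (a (b (l 13131744) (l 12914640)) (c (l 13123584) (b (l 13191024) (l 13009040))))) (a (c (a (l 12879576) (b (l 13055632) (l 12790704))) (a (c (l 12857312) (l 12690632)) (l 12727112))) (b (a (l 13074008) (l 13119888)) (l 12897216)))) (c (a (l 12647816) (c (l 12850296) (a (l 12770688) (l 12874640)))) (a (c (a (l 12553624) (l 12644136)) (a (b (l 12525584) (l 12511576)) (l 12610840))) (l 12656168))))) (c (b (c (l 13316664) (a (l 13278456) (c (l 13501376) (l 13446784)))) (c (l 13090672) (a (l 13067488) (c (l 13294632) (l 13237824))))) (b (c (a (c (a (l 13222408) (l 13296488)) (l 13196088)) (l 13367320)) (l 13227872)) (a (b (c (l 13023968) (l 12937544)) (l 12809904)) (l 13123528))))), by decide +kernel⟩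

def k8_pp_202 : ∃ t, chk3 f_pp_202 t 9 5 1 = true :=
  ⟨(b (a (b (l 3) (a (c (c (a (l 13943024) (l 727084991367)) (l 13877352)) (l 13793208)) (l 3))) (l 3)) (a (c (b (c (a (c (l 13740248) (l 13691240)) (c (l 13858696) (l 13767592))) (l 13659992)) (c (a (c (l 13541528) (l 13490344)) (c (l 13665872) (l 13572624))) (l 13459288))) (b (l 13571864) (l 13364560))) (b (l 438248351495) (b (l 13816336) (l 13786160))))), by decide +kernel⟩

def k9_pp_202 : ∃ t, chk3 f_pp_202 t 5 5 1 = true :=
  ⟨(b (l 3) (a (b (l 3) (a (l 14388536) (l 15052840))) (l 3))), by decide +kernel⟩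

def k10_pp_202 : ∃ t, chk3 f_pp_202 t 2 3 1 = true :=
  ⟨(a (b (a (c (a (b (l 12823936) (l 12823936)) (c (b (l 13206704) (l 13206704)) (b (a (l 13058136) (l 13064752)) (a (l 13058136) (l 13253488))))) (a (c (b (a (l 12641376) (c (l 12842304) (l 12801800))) (a (l 12641376) (l 12816816))) (b (a (c (l 12592632) (a (l 12511576) (l 12603872))) (l 12752808)) (a (c (l 12592632) (l 12549992)) (l 12752808)))) (b (c (a (l 13002800) (l 13144088)) (l 12998944)) (c (l 13066264) (l 12998944))))) (c (a (c (b (a (l 13497456) (l 13634312)) (a (l 13497456) (l 13634312))) (b (l 13447000) (l 13447000))) (b (l 13837936) (l 13837936))) (b (a (l 13351848) (l 13734504)) (l 13504224)))) (a (c (a (l 12823936) (c (l 13206704) (a (l 13058136) (l 13253488)))) (a (c (a (l 12641376) (l 12816816)) (a (b (l 12570688) (l 12570688)) (l 12752808))) (l 13041488))) (a (c (c (l 13550640) (l 13447000)) (l 13351848)) (l 13786160)))) (b (a (b (c (l 14591472) (a (l 14397296) (l 15010376))) (c (l 14780216) (l 14709896)))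 (b (b (l 15646432) (l 15646432)) (c (l 15666048) (l 15626904)))) (b (a (b (l 14744992) (l 2)) (l 2)) (l 2)))), by decide +kernel⟩

def k11_pp_202 : ∃ t, chk3 f_pp_202 t 3 1 1 = true :=
  ⟨(a (b (l 3) (b (b (b (l 3) (l 2)) (l 2)) (l 2))) (b (l 3) (l 2))), by decide +kernel⟩

theorem s12_pp_202 : ∃ t, chk3 f_pp_202 t 8 5 1 = true := ex3_b k6_pp_202 k7_pp_202

theorem s13_pp_202 : ∃ t, chk3 f_pp_202 t 4 5 1 = true := ex3_a s12_pp_202 k8_pp_202

theorem s14_pp_202 : ∃ t, chk3 f_pp_202 t 2 5 1 = true := ex3_a s13_pp_202 k9_pp_202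

theorem s15_pp_202 : ∃ t, chk3 f_pp_202 t 32 4 1 = true := ex3_b k0_pp_202 k1_pp_202

theorem s16_pp_202 : ∃ t, chk3 f_pp_202 t 16 4 1 = true := ex3_a s15_pp_202 k2_pp_202

theorem s17_pp_202 : ∃ t, chk3 f_pp_202 t 8 4 1 = true := ex3_a s16_pp_202 k3_pp_202

theorem s18_pp_202 : ∃ t, chk3 f_pp_202 t 4 4 1 = true := ex3_a s17_pp_202 k4_pp_202

theorem s19_pp_202 : ∃ t, chk3 f_pp_202 t 2 4 1 = true := ex3_a s18_pp_202 k5_pp_202

theorem s20_pp_202 : ∃ t, chk3 f_pp_202 t 2 2 1 = true := ex3_b s19_pp_202 s14_pp_202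

theorem s21_pp_202 : ∃ t, chk3 f_pp_202 t 2 1 1 = true := ex3_b s20_pp_202 k10_pp_202

theorem s22_pp_202 : ∃ t, chk3 f_pp_202 t 1 1 1 = true := ex3_a s21_pp_202 k11_pp_202

theorem c_pp_202 : CertNX 1073741824 536870912 1073741824 536870912 1046898278 26843546 3 false true true .pp 2 0 2
    ndN7q2 ndN3q2 pcN0 cut_pp_202 Ext.none :=
  certNX1 (fam := false) (s1 := true) (s2 := true) (a := 2) (b := 0) (c := 2) (cn := .pp) (n1 := ndN7q2) (n2 := ndN3q2) (pc := pcN0) (cut := cut_pp_202) (xt := Ext.none) (P1 := 1073741824) (W1 := 536870912) (P2 := 1073741824) (W2 := 536870912) (P3 := 1046898278) (W3 := 26843546) (N0 := 3)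
    rfl (fun _ => rfl) s22_pp_202

noncomputable def f_pp_203 : ℕ → ℕ → ℕ → ℕ → Bool := onCell 1073741824 536870912 0 536870912 1046898278 26843546
    (rowNX 3 1 false true true .up 2 0 3 (qsf 1073741824 536870912 1610612736 536870912 0) ndN7q2 ndN3q3 pcN0 Cut.none Ext.none)

def k0_pp_203 : ∃ t, chk3 f_pp_203 t 1 1 1 = true :=
  ⟨(a (b (a (l 1) (a (l 1) (a (l 1) (l 3)))) (a (b (a (l 1) (a (l 1) (b (l 1) (l 721581574743)))) (a (c (a (l 12823936) (c (l 13206704) (l 468714065911))) (a (c (l 427374202375) (a (l 12549720) (l 12752808))) (l 13041488))) (a (c (c (l 13487720) (l 13447000)) (l 13351848)) (l 13786160)))) (b (a (b (c (l 760238268519) (l 797282220807)) (c (l 14780216) (l 14709896))) (b (b (l 15646432) (l 15646432)) (c (l 15666048) (l 15626904)))) (b (a (b (l 14744992) (l 14744992)) (b (l 15646432) (l 15646432))) (a (l 14744992) (l 15646432)))))) (a (b (l 3) (b (b (b (l 3) (a (l 16342120) (l 16763744))) (a (c (l 16349672) (l 16334608)) (l 16742768))) (a (b (b (l 16342120)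 (l 16342120)) (l 16342112)) (c (l 16763936) (l 16742496))))) (b (l 3) (b (c (l 301889225463) (b (l 16777208) (l 16777176))) (b (a (l 16777168) (b (l 16771984) (l 16724152))) (a (l 16725920) (l 16698240))))))), by decide +kernel⟩

theorem c_pp_203 : CertNX 1073741824 536870912 1610612736 536870912 1046898278 26843546 3 false true true .up 2 0 3
    ndN7q2 ndN3q3 pcN0 Cut.none Ext.none :=
  certNX1 (fam := false) (s1 := true) (s2 := true) (a := 2) (b := 0) (c := 3) (cn := .up) (n1 := ndN7q2) (n2 := ndN3q3) (pc := pcN0) (cut := Cut.none) (xt := Ext.none) (P1 := 1073741824) (W1 := 536870912) (P2 := 1610612736) (W2 := 536870912) (P3 := 1046898278) (W3 := 26843546) (N0 := 3)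
    rfl (fun _ => rfl) k0_pp_203

noncomputable def f_pp_213 : ℕ → ℕ → ℕ → ℕ → Bool := onCell 1073741824 536870912 1610612736 536870912 1046898278 26843546
    (rowNX 3 0 false true true .pnn 2 1 3 (qsf 1073741824 536870912 1610612736 536870912 1) ndN7q2 ndN3q3 pcN1 Cut.none Ext.none)

def k0_pp_213 : ∃ t, chk3 f_pp_213 t 1 1 1 = true :=
  ⟨(a (b (a (a (c (b (a (l 12823936) (c (l 13206704) (l 521864286199))) (a (l 12823936) (c (l 13206704) (l 13131520)))) (b (a (c (l 12729864) (a (l 12570688) (l 12752808))) (l 13041488)) (a (c (l 12729864) (l 12437008)) (l 13041488)))) (b (a (c (l 520254424823) (l 13351848)) (l 13786160)) (a (c (l 13381376) (l 13351848)) (l 13786160)))) (b (a (a (b (l 1) (l 14437696)) (l 1)) (l 1)) (a (l 14744992) (b (c (l 15666048) (l 15626904)) (l 15646432))))) (a (b (a (b (c (a (l 12800280) (l 13159104)) (a (c (l 12703456) (l 12618448)) (l 13041448))) (a (c (l 12582768) (b (l 12503096) (l 12271856))) (c (l 13101688) (l 12966360)))) (a (b (l 13404136) (l 13416256))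 (l 13786072))) (a (b (a (b (c (l 12290584) (l 11933680)) (c (l 12229384) (l 11626808))) (c (b (l 13041760) (l 13092808)) (b (l 12839696) (l 12766056)))) (a (b (c (l 13656528) (l 12895992)) (a (b (l 14134888) (a (b (l 15852240) (c (l 16753024) (a (b (l 15883912) (l 16736928)) (l 15273408)))) (l 15318944))) (c (l 14723816) (l 13328680)))) (c (b (l 13621576) (l 14245016)) (b (l 13127336) (l 13386112))))) (b (a (b (l 13407600) (l 13440248)) (l 13775608)) (a (b (l 13836872) (l 14951672)) (b (l 14058944) (l 14887792)))))) (b (a (b (l 14744976) (l 14744936)) (l 15646384)) (b (a (l 14713976) (l 15605072)) (a (b (l 14798136) (a (l 15045936) (l 15310328))) (l 15608816)))))) (b (a (a (a (b (l 1) (b (l 1) (l 16177152))) (l 1)) (l 1)) (l 1)) (b (a (a (l 16342072) (c (l 674343144311) (l 690449268103))) (a (b (l 1) (l 790307536519)) (l 1))) (a (a (b (l 16298952) (l 16266024)) (b (l 16716560) (l 16673008))) (b (a (l 16729592) (l 797286639655)) (l 16685896)))))), by decide +kernel⟩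

theorem c_pp_213 : CertNX 1073741824 536870912 1610612736 536870912 1046898278 26843546 3 false true true .pnn 2 1 3
    ndN7q2 ndN3q3 pcN1 Cut.none Ext.none :=
  certNX0 (fam := false) (s1 := true) (s2 := true) (a := 2) (b := 1) (c := 3) (cn := .pnn) (n1 := ndN7q2) (n2 := ndN3q3) (pc := pcN1) (cut := Cut.none) (xt := Ext.none) (P1 := 1073741824) (W1 := 536870912) (P2 := 1610612736) (W2 := 536870912) (P3 := 1046898278) (W3 := 26843546) (N0 := 3)
    rfl k0_pp_213

noncomputable def f_pp_303 : ℕ → ℕ → ℕ → ℕ → Bool := onCell 0 1230186008 1610612736 536870912 1046898278 26843546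
    (rowNX 3 0 false true true .npn 3 0 3 (qsf 0 1230186008 1610612736 536870912 0) ndN7q3 ndN3q3 pcN0 Cut.none Ext.none)

def k0_pp_303 : ∃ t, chk3 f_pp_303 t 1 1 1 = true :=
  ⟨(a (l 3) (a (l 3) (b (l 3) (a (b (l 3) (b (l 3) (a (l 3) (c (l 415705403847) (l 429664087991))))) (b (a (l 3) (b (l 3) (c (l 16777152) (l 16777152)))) (c (a (b (l 16730632) (l 16691672)) (b (l 16730632) (l 16691672))) (a (b (l 16729000) (l 16686984)) (b (l 16729000) (l 16686984))))))))), by decide +kernel⟩

theorem c_pp_303 : CertNX 0 1230186008 1610612736 536870912 1046898278 26843546 3 false true true .npn 3 0 3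
    ndN7q3 ndN3q3 pcN0 Cut.none Ext.none :=
  certNX0 (fam := false) (s1 := true) (s2 := true) (a := 3) (b := 0) (c := 3) (cn := .npn) (n1 := ndN7q3) (n2 := ndN3q3) (pc := pcN0) (cut := Cut.none) (xt := Ext.none) (P1 := 0) (W1 := 1230186008) (P2 := 1610612736) (W2 := 536870912) (P3 := 1046898278) (W3 := 26843546) (N0 := 3)
    rfl k0_pp_303

noncomputable def f_pp_313 : ℕ → ℕ → ℕ → ℕ → Bool := onCell 0 1230186008 536870912 536870912 1046898278 26843546
    (rowNX 3 1 false true true .dn 3 1 3 (qsf 0 1230186008 1610612736 536870912 1) ndN7q3 ndN3q3 pcN1 Cut.none Ext.none)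

def k0_pp_313 : ∃ t, chk3 f_pp_313 t 1 1 1 = true :=
  ⟨(a (l 2) (a (l 2) (b (a (l 2) (b (a (l 2) (b (l 16745912) (l 2))) (l 2))) (l 2)))), by decide +kernel⟩

theorem c_pp_313 : CertNX 0 1230186008 1610612736 536870912 1046898278 26843546 3 false true true .dn 3 1 3
    ndN7q3 ndN3q3 pcN1 Cut.none Ext.none :=
  certNX1 (fam := false) (s1 := true) (s2 := true) (a := 3) (b := 1) (c := 3) (cn := .dn) (n1 := ndN7q3) (n2 := ndN3q3) (pc := pcN1) (cut := Cut.none) (xt := Ext.none) (P1 := 0) (W1 := 1230186008) (P2 := 1610612736) (W2 := 536870912) (P3 := 1046898278) (W3 := 26843546) (N0 := 3)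
    rfl (fun _ => rfl) k0_pp_313

noncomputable def f_pm_001 : ℕ → ℕ → ℕ → ℕ → Bool := onCell 0 536870912 536870912 536870912 1046898278 26843546
    (rowNX 3 0 false true false .up 0 0 1 (qsf 0 536870912 536870912 536870912 0) ndN7q0 ndN3q1 pcN0 Cut.none Ext.none)

def k0_pm_001 : ∃ t, chk3 f_pm_001 t 1 1 1 = true :=
  ⟨(l 4), by decide +kernel⟩

theorem c_pm_001 : CertNX 0 536870912 536870912 536870912 1046898278 26843546 3 false true false .up 0 0 1
    ndN7q0 ndN3q1 pcN0 Cut.none Ext.none :=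
  certNX0 (fam := false) (s1 := true) (s2 := false) (a := 0) (b := 0) (c := 1) (cn := .up) (n1 := ndN7q0) (n2 := ndN3q1) (pc := pcN0) (cut := Cut.none) (xt := Ext.none) (P1 := 0) (W1 := 536870912) (P2 := 536870912) (W2 := 536870912) (P3 := 1046898278) (W3 := 26843546) (N0 := 3)
    rfl k0_pm_001

noncomputable def f_pm_011 : ℕ → ℕ → ℕ → ℕ → Bool := onCell 0 536870912 536870912 536870912 1046898278 26843546
    (rowNX 3 0 false true false .pnn 0 1 1 (qsf 0 536870912 536870912 536870912 1) ndN7q0 ndN3q1 pcN1 Cut.none Ext.none)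

def k0_pm_011 : ∃ t, chk3 f_pm_011 t 1 1 1 = true :=
  ⟨(l 4), by decide +kernel⟩

theorem c_pm_011 : CertNX 0 536870912 536870912 536870912 1046898278 26843546 3 false true false .pnn 0 1 1
    ndN7q0 ndN3q1 pcN1 Cut.none Ext.none :=
  certNX0 (fam := false) (s1 := true) (s2 := false) (a := 0) (b := 1) (c := 1) (cn := .pnn) (n1 := ndN7q0) (n2 := ndN3q1) (pc := pcN1) (cut := Cut.none) (xt := Ext.none) (P1 := 0) (W1 := 536870912) (P2 := 536870912) (W2 := 536870912) (P3 := 1046898278) (W3 := 26843546) (N0 := 3)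
    rfl k0_pm_011

noncomputable def f_pm_012 : ℕ → ℕ → ℕ → ℕ → Bool := onCell 0 536870912 1073741824 536870912 1046898278 26843546
    (rowNX 3 0 false true false .pnp 0 1 2 (qsf 0 536870912 1073741824 536870912 1) ndN7q0 ndN3q2 pcN1 Cut.none Ext.none)

def k0_pm_012 : ∃ t, chk3 f_pm_012 t 1 1 1 = true :=
  ⟨(l 4), by decide +kernel⟩

theorem c_pm_012 : CertNX 0 536870912 1073741824 536870912 1046898278 26843546 3 false true false .pnp 0 1 2
    ndN7q0 ndN3q2 pcN1 Cut.none Ext.none :=
  certNX0 (fam := false) (s1 := true) (s2 := false) (a := 0) (b := 1) (c := 2) (cn := .pnp) (n1 := ndN7q0) (n2 := ndN3q2) (pc := pcN1) (cut := Cut.none) (xt := Ext.none) (P1 := 0) (W1 := 536870912) (P2 := 1073741824) (W2 := 536870912) (P3 := 1046898278) (W3 := 26843546) (N0 := 3)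
    rfl k0_pm_012

noncomputable def f_pm_022 : ℕ → ℕ → ℕ → ℕ → Bool := onCell 0 536870912 1073741824 536870912 1046898278 26843546
    (rowNX 3 0 false true false .pp 0 2 2 (qsf 0 536870912 1073741824 536870912 2) ndN7q0 ndN3q2 pcN2 Cut.none Ext.none)

def k0_pm_022 : ∃ t, chk3 f_pm_022 t 1 1 1 = true :=
  ⟨(l 4), by decide +kernel⟩

theorem c_pm_022 : CertNX 0 536870912 1073741824 536870912 1046898278 26843546 3 false true false .pp 0 2 2
    ndN7q0 ndN3q2 pcN2 Cut.none Ext.none :=
  certNX0 (fam := false) (s1 := true) (s2 := false) (a := 0) (b := 2) (c := 2) (cn := .pp) (n1 := ndN7q0) (n2 := ndN3q2) (pc := pcN2) (cut := Cut.none) (xt := Ext.none) (P1 := 0) (W1 := 536870912) (P2 := 1073741824) (W2 := 536870912) (P3 := 1046898278) (W3 := 26843546) (N0 := 3)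
    rfl k0_pm_022

noncomputable def f_pm_023 : ℕ → ℕ → ℕ → ℕ → Bool := onCell 0 536870912 1610612736 536870912 1046898278 26843546
    (rowNX 3 0 false true false .up 0 2 3 (qsf 0 536870912 1610612736 536870912 2) ndN7q0 ndN3q3 pcN2 Cut.none Ext.none)

def k0_pm_023 : ∃ t, chk3 f_pm_023 t 1 1 1 = true :=
  ⟨(l 4), by decide +kernel⟩

theorem c_pm_023 : CertNX 0 536870912 1610612736 536870912 1046898278 26843546 3 false true false .up 0 2 3
    ndN7q0 ndN3q3 pcN2 Cut.none Ext.none :=
  certNX0 (fam := false) (s1 := true) (s2 := false) (a := 0) (b := 2) (c := 3) (cn := .up) (n1 := ndN7q0) (n2 := ndN3q3) (pc := pcN2) (cut := Cut.none) (xt := Ext.none) (P1 := 0) (W1 := 536870912) (P2 := 1610612736) (W2 := 536870912) (P3 := 1046898278) (W3 := 26843546) (N0 := 3)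
    rfl k0_pm_023

noncomputable def f_pm_033 : ℕ → ℕ → ℕ → ℕ → Bool := onCell 0 536870912 1610612736 536870912 1046898278 26843546
    (rowNX 3 0 false true false .pnn 0 3 3 (qsf 0 536870912 1610612736 536870912 3) ndN7q0 ndN3q3 pcN3 Cut.none Ext.none)

def k0_pm_033 : ∃ t, chk3 f_pm_033 t 1 1 1 = true :=
  ⟨(l 4), by decide +kernel⟩

theorem c_pm_033 : CertNX 0 536870912 1610612736 536870912 1046898278 26843546 3 false true false .pnn 0 3 3
    ndN7q0 ndN3q3 pcN3 Cut.none Ext.none :=
  certNX0 (fam := false) (s1 := true) (s2 := false) (a := 0) (b := 3) (c := 3) (cn := .pnn) (n1 := ndN7q0) (n2 := ndN3q3) (pc := pcN3) (cut := Cut.none) (xt := Ext.none) (P1 := 0) (W1 := 536870912) (P2 := 1610612736) (W2 := 536870912) (P3 := 1046898278) (W3 := 26843546) (N0 := 3)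
    rfl k0_pm_033

noncomputable def f_pm_101 : ℕ → ℕ → ℕ → ℕ → Bool := onCell 536870912 536870912 536870912 536870912 1046898278 26843546
    (rowNX 3 0 false true false .npn 1 0 1 (qsf 536870912 536870912 536870912 536870912 0) ndN7q1 ndN3q1 pcN0 Cut.none Ext.none)

def k0_pm_101 : ∃ t, chk3 f_pm_101 t 1 1 1 = true :=
  ⟨(l 4), by decide +kernel⟩

theorem c_pm_101 : CertNX 536870912 536870912 536870912 536870912 1046898278 26843546 3 false true false .npn 1 0 1
    ndN7q1 ndN3q1 pcN0 Cut.none Ext.none :=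
  certNX0 (fam := false) (s1 := true) (s2 := false) (a := 1) (b := 0) (c := 1) (cn := .npn) (n1 := ndN7q1) (n2 := ndN3q1) (pc := pcN0) (cut := Cut.none) (xt := Ext.none) (P1 := 536870912) (W1 := 536870912) (P2 := 536870912) (W2 := 536870912) (P3 := 1046898278) (W3 := 26843546) (N0 := 3)
    rfl k0_pm_101

noncomputable def f_pm_102 : ℕ → ℕ → ℕ → ℕ → Bool := onCell 536870912 536870912 1073741824 536870912 1046898278 26843546
    (rowNX 3 0 false true false .npp 1 0 2 (qsf 536870912 536870912 1073741824 536870912 0) ndN7q1 ndN3q2 pcN0 Cut.none Ext.none)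

def k0_pm_102 : ∃ t, chk3 f_pm_102 t 1 1 1 = true :=
  ⟨(l 4), by decide +kernel⟩

theorem c_pm_102 : CertNX 536870912 536870912 1073741824 536870912 1046898278 26843546 3 false true false .npp 1 0 2
    ndN7q1 ndN3q2 pcN0 Cut.none Ext.none :=
  certNX0 (fam := false) (s1 := true) (s2 := false) (a := 1) (b := 0) (c := 2) (cn := .npp) (n1 := ndN7q1) (n2 := ndN3q2) (pc := pcN0) (cut := Cut.none) (xt := Ext.none) (P1 := 536870912) (W1 := 536870912) (P2 := 1073741824) (W2 := 536870912) (P3 := 1046898278) (W3 := 26843546) (N0 := 3)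
    rfl k0_pm_102

noncomputable def f_pm_112 : ℕ → ℕ → ℕ → ℕ → Bool := onCell 536870912 536870912 1073741824 536870912 1046898278 26843546
    (rowNX 3 0 false true false .dn 1 1 2 (qsf 536870912 536870912 1073741824 536870912 1) ndN7q1 ndN3q2 pcN1 Cut.none Ext.none)

def k0_pm_112 : ∃ t, chk3 f_pm_112 t 1 1 1 = true :=
  ⟨(l 4), by decide +kernel⟩

theorem c_pm_112 : CertNX 536870912 536870912 1073741824 536870912 1046898278 26843546 3 false true false .dn 1 1 2
    ndN7q1 ndN3q2 pcN1 Cut.none Ext.none :=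
  certNX0 (fam := false) (s1 := true) (s2 := false) (a := 1) (b := 1) (c := 2) (cn := .dn) (n1 := ndN7q1) (n2 := ndN3q2) (pc := pcN1) (cut := Cut.none) (xt := Ext.none) (P1 := 536870912) (W1 := 536870912) (P2 := 1073741824) (W2 := 536870912) (P3 := 1046898278) (W3 := 26843546) (N0 := 3)
    rfl k0_pm_112

noncomputable def f_pm_113 : ℕ → ℕ → ℕ → ℕ → Bool := onCell 536870912 536870912 536870912 536870912 1046898278 26843546
    (rowNX 3 1 false true false .nn 1 1 3 (qsf 536870912 536870912 1610612736 536870912 1) ndN7q1 ndN3q3 pcN1 Cut.none Ext.none)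

def k0_pm_113 : ∃ t, chk3 f_pm_113 t 1 1 1 = true :=
  ⟨(b (l 4) (b (l 4) (a (l 4) (b (l 4) (a (l 4) (b (l 4) (b (l 4) (b (l 4) (a (l 4) (b (l 4) (c (l 13231312) (c (l 10840024) (l 9237344))))))))))))), by decide +kernel⟩

theorem c_pm_113 : CertNX 536870912 536870912 1610612736 536870912 1046898278 26843546 3 false true false .nn 1 1 3
    ndN7q1 ndN3q3 pcN1 Cut.none Ext.none :=
  certNX1 (fam := false) (s1 := true) (s2 := false) (a := 1) (b := 1) (c := 3) (cn := .nn) (n1 := ndN7q1) (n2 := ndN3q3) (pc := pcN1) (cut := Cut.none) (xt := Ext.none) (P1 := 536870912) (W1 := 536870912) (P2 := 1610612736) (W2 := 536870912) (P3 := 1046898278) (W3 := 26843546) (N0 := 3)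
    rfl (fun _ => rfl) k0_pm_113

noncomputable def f_pm_123 : ℕ → ℕ → ℕ → ℕ → Bool := onCell 536870912 536870912 1610612736 536870912 1046898278 26843546
    (rowNX 3 0 false true false .npn 1 2 3 (qsf 536870912 536870912 1610612736 536870912 2) ndN7q1 ndN3q3 pcN2 Cut.none Ext.none)

def k0_pm_123 : ∃ t, chk3 f_pm_123 t 1 1 1 = true :=
  ⟨(a (l 4) (b (l 4) (b (l 4) (a (l 4) (a (l 4) (b (l 4) (a (l 4) (a (l 4) (a (l 4) (a (l 4) (l 17089968))))))))))), by decide +kernel⟩

theorem c_pm_123 : CertNX 536870912 536870912 1610612736 536870912 1046898278 26843546 3 false true false .npn 1 2 3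
    ndN7q1 ndN3q3 pcN2 Cut.none Ext.none :=
  certNX0 (fam := false) (s1 := true) (s2 := false) (a := 1) (b := 2) (c := 3) (cn := .npn) (n1 := ndN7q1) (n2 := ndN3q3) (pc := pcN2) (cut := Cut.none) (xt := Ext.none) (P1 := 536870912) (W1 := 536870912) (P2 := 1610612736) (W2 := 536870912) (P3 := 1046898278) (W3 := 26843546) (N0 := 3)
    rfl k0_pm_123

noncomputable def f_pm_133 : ℕ → ℕ → ℕ → ℕ → Bool := onCell 1610612736 536870912 1610612736 536870912 1046898278 26843546
    (rowNX 3 2 false true false .dn 1 3 3 (qsf 536870912 536870912 1610612736 536870912 3) ndN7q1 ndN3q3 pcN3 Cut.none Ext.none)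

def k0_pm_133 : ∃ t, chk3 f_pm_133 t 1 1 1 = true :=
  ⟨(l 4), by decide +kernel⟩

theorem c_pm_133 : CertNX 536870912 536870912 1610612736 536870912 1046898278 26843546 3 false true false .dn 1 3 3
    ndN7q1 ndN3q3 pcN3 Cut.none Ext.none :=
  certNX2 (fam := false) (s1 := true) (s2 := false) (a := 1) (b := 3) (c := 3) (cn := .dn) (n1 := ndN7q1) (n2 := ndN3q3) (pc := pcN3) (cut := Cut.none) (xt := Ext.none) (P1 := 536870912) (W1 := 536870912) (P2 := 1610612736) (W2 := 536870912) (P3 := 1046898278) (W3 := 26843546) (N0 := 3)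
    rfl (fun _ => rfl) k0_pm_133

noncomputable def f_pm_202 : ℕ → ℕ → ℕ → ℕ → Bool := onCell 0 536870912 1073741824 536870912 1046898278 26843546
    (rowNX 3 2 false true false .pp 2 0 2 (qsf 1073741824 536870912 1073741824 536870912 0) ndN7q2 ndN3q2 pcN0 Cut.none Ext.none)

def k0_pm_202 : ∃ t, chk3 f_pm_202 t 1 1 1 = true :=
  ⟨(a (b (l 4) (b (a (b (l 4) (b (l 4) (a (a (a (c (l 16744256) (l 16743472)) (c (l 16762648) (l 16762096))) (l 16628056)) (l 4)))) (l 4)) (a (a (a (a (c (l 16410168) (a (l 16385416) (l 16417336))) (c (l 16470560) (l 16467808))) (c (l 16561384) (l 16557200))) (a (b (l 16690792) (l 16553032)) (b (l 16488008) (l 16652248)))) (b (l 4) (a (l 16363880) (l 193506372967)))))) (l 4)), by decide +kernel⟩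

theorem c_pm_202 : CertNX 1073741824 536870912 1073741824 536870912 1046898278 26843546 3 false true false .pp 2 0 2
    ndN7q2 ndN3q2 pcN0 Cut.none Ext.none :=
  certNX2 (fam := false) (s1 := true) (s2 := false) (a := 2) (b := 0) (c := 2) (cn := .pp) (n1 := ndN7q2) (n2 := ndN3q2) (pc := pcN0) (cut := Cut.none) (xt := Ext.none) (P1 := 1073741824) (W1 := 536870912) (P2 := 1073741824) (W2 := 536870912) (P3 := 1046898278) (W3 := 26843546) (N0 := 3)
    rfl (fun _ => rfl) k0_pm_202

noncomputable def f_pm_203 : ℕ → ℕ → ℕ → ℕ → Bool := onCell 1073741824 536870912 0 536870912 1046898278 26843546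
    (rowNX 3 1 false true false .up 2 0 3 (qsf 1073741824 536870912 1610612736 536870912 0) ndN7q2 ndN3q3 pcN0 Cut.none Ext.none)

def k0_pm_203 : ∃ t, chk3 f_pm_203 t 1 1 1 = true :=
  ⟨(a (b (l 4) (a (l 4) (b (l 349734518183) (l 108679300439)))) (a (b (b (b (l 1) (b (l 1) (l 519723694215))) (b (a (l 16343272) (l 16697560)) (a (l 16342776) (l 16762696)))) (b (l 16353800) (l 16563552))) (b (b (b (b (a (l 1) (c (l 16226888) (l 16214816))) (l 16364800)) (b (l 16362872) (l 16351408))) (b (a (l 16537120) (l 16397160)) (l 16737392))) (b (l 16777176) (a (l 16721336) (b (l 16725920) (l 16698240))))))), by decide +kernel⟩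

theorem c_pm_203 : CertNX 1073741824 536870912 1610612736 536870912 1046898278 26843546 3 false true false .up 2 0 3
    ndN7q2 ndN3q3 pcN0 Cut.none Ext.none :=
  certNX1 (fam := false) (s1 := true) (s2 := false) (a := 2) (b := 0) (c := 3) (cn := .up) (n1 := ndN7q2) (n2 := ndN3q3) (pc := pcN0) (cut := Cut.none) (xt := Ext.none) (P1 := 1073741824) (W1 := 536870912) (P2 := 1610612736) (W2 := 536870912) (P3 := 1046898278) (W3 := 26843546) (N0 := 3)
    rfl (fun _ => rfl) k0_pm_203

noncomputable def f_pm_213 : ℕ → ℕ → ℕ → ℕ → Bool := onCell 536870912 536870912 1610612736 536870912 1046898278 26843546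
    (rowNX 3 2 false true false .pnn 2 1 3 (qsf 1073741824 536870912 1610612736 536870912 1) ndN7q2 ndN3q3 pcN1 Cut.none Ext.none)

def k0_pm_213 : ∃ t, chk3 f_pm_213 t 1 2 1 = true :=
  ⟨(a (a (b (l 4) (b (l 4) (a (l 15213552) (a (l 14419096) (l 4))))) (l 4)) (l 4)), by decide +kernel⟩

def k1_pm_213 : ∃ t, chk3 f_pm_213 t 1 6 1 = true :=
  ⟨(a (a (a (l 16097832) (l 15476064)) (a (b (b (l 4) (l 14406744)) (l 15220032)) (b (l 4) (a (l 14420024) (b (l 13491328) (l 14120792)))))) (a (a (a (b (l 4) (b (l 4) (a (l 13659464) (l 13399232)))) (l 4)) (l 4)) (l 4))), by decide +kernel⟩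

def k2_pm_213 : ∃ t, chk3 f_pm_213 t 1 14 1 = true :=
  ⟨(b (a (a (l 16612728) (a (l 15834056) (a (l 15301592) (l 14801376)))) (a (a (a (l 14018016) (a (l 13750824) (l 13463136))) (a (c (a (l 13258640) (l 4)) (l 12791328)) (l 4))) (l 4))) (a (a (l 16658608) (l 15892832)) (b (a (a (a (l 14690272) (l 14102528)) (a (l 13703136) (c (l 13122648) (l 12728968)))) (l 4)) (a (a (a (l 14971976) (l 14518160)) (a (l 14155384) (a (l 13849192) (l 13386448)))) (a (a (a (l 12859088) (l 4)) (l 4)) (l 4)))))), by decide +kernel⟩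

def k3_pm_213 : ∃ t, chk3 f_pm_213 t 1 15 1 = true :=
  ⟨(b (a (a (l 16690216) (l 16164464)) (a (a (a (l 15300576) (a (l 15034528) (l 14884280))) (a (a (b (l 14562088) (l 14847320)) (b (l 14485680) (a (l 14694840) (c (l 14693896) (l 14418320))))) (b (a (l 14507040) (l 14215736)) (a (b (a (b (l 14617944) (l 14505320)) (l 14471648)) (a (l 14426680) (l 14522088))) (b (l 14636912) (b (c (l 14737448) (l 14476520)) (l 14413328))))))) (a (a (a (b (l 13772880) (b (l 14489912) (c (l 14811776) (l 14473328)))) (c (a (l 14158904) (l 13973824)) (b (l 13096792) (l 14129984)))) (c (c (a (l 13780912) (l 13281672)) (a (l 13467776) (l 12845088))) (a (l 12968872) (l 12137144)))) (a (a (c (c (l 12965248) (l 12268272)) (l 11179632)) (l 4)) (l 4))))) (a (a (l 16763544) (l 16429104)) (a (a (l 15526248) (a (l 15210160) (a (l 15014960) (a (l 14999184) (l 15166680))))) (a (b (c (a (a (l 15088912) (b (a (l 14982864) (c (l 15034512) (l 14828992))) (l 15212104))) (a (c (l 15063112) (l 14892256)) (c (a (l 14929696)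 (l 14818168)) (b (l 14447576) (l 14890000))))) (a (a (l 14785096) (a (l 14834800) (a (l 14811616) (l 14755928)))) (a (l 14584520) (l 14237608)))) (a (l 15437416) (c (l 15711192) (l 15451656)))) (a (c (a (c (l 15314648) (b (a (l 14400680) (l 14220184)) (l 15693952))) (c (l 15065608) (l 14409296))) (a (b (c (l 13891320) (l 13506176)) (l 15361840)) (c (b (l 13109520) (b (a (l 14891424) (l 14697128)) (l 15875448))) (l 13056704)))) (c (a (l 15920408) (l 16772168)) (c (a (c (l 14509456) (a (l 13798808) (l 14173608))) (l 16696312)) (a (b (l 13057328) (l 13204760)) (c (l 14753816) (a (l 12970760) (l 13772040))))))))))), by decide +kernel⟩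

theorem s4_pm_213 : ∃ t, chk3 f_pm_213 t 1 7 1 = true := ex3_b k2_pm_213 k3_pm_213

theorem s5_pm_213 : ∃ t, chk3 f_pm_213 t 1 3 1 = true := ex3_b k1_pm_213 s4_pm_213

theorem s6_pm_213 : ∃ t, chk3 f_pm_213 t 1 1 1 = true := ex3_b k0_pm_213 s5_pm_213

theorem c_pm_213 : CertNX 1073741824 536870912 1610612736 536870912 1046898278 26843546 3 false true false .pnn 2 1 3
    ndN7q2 ndN3q3 pcN1 Cut.none Ext.none :=
  certNX2 (fam := false) (s1 := true) (s2 := false) (a := 2) (b := 1) (c := 3) (cn := .pnn) (n1 := ndN7q2) (n2 := ndN3q3) (pc := pcN1) (cut := Cut.none) (xt := Ext.none) (P1 := 1073741824) (W1 := 536870912) (P2 := 1610612736) (W2 := 536870912) (P3 := 1046898278) (W3 := 26843546) (N0 := 3)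
    rfl (fun _ => rfl) s6_pm_213

noncomputable def f_pm_303 : ℕ → ℕ → ℕ → ℕ → Bool := onCell 0 1230186008 0 536870912 1046898278 26843546
    (rowNX 3 1 false true false .npn 3 0 3 (qsf 0 1230186008 1610612736 536870912 0) ndN7q3 ndN3q3 pcN0 Cut.none Ext.none)

def k0_pm_303 : ∃ t, chk3 f_pm_303 t 2 4 1 = true :=
  ⟨(a (l 3) (l 3)), by decide +kernel⟩

def k1_pm_303 : ∃ t, chk3 f_pm_303 t 6 4 1 = true :=
  ⟨(a (l 3) (b (a (a (l 3) (a (l 3) (b (c (b (c (l 14122672) (b (l 14049304) (l 14115168))) (c (l 14262936) (l 14090952))) (b (c (b (l 14004808) (l 14081272)) (b (c (l 13973936) (b (l 13872216) (l 13963752))) (c (b (l 14028496) (l 14071560)) (l 14025856)))) (c (b (c (l 14171616) (l 14108736)) (l 14040352)) (l 14145328)))) (l 3)))) (b (b (c (b (a (l 13988704) (l 14386928)) (b (a (a (l 14161920) (l 14251000)) (l 14456896)) (c (l 14205864) (l 14170848)))) (b (c (a (l 14069368) (b (l 14353552) (l 14372792))) (a (b (l 14110528) (l 14112136)) (c (l 14340464) (l 14326144)))) (b (a (l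 13890088) (l 14288192)) (c (l 14137976) (l 14095008))))) (a (c (b (a (l 14218216) (l 14274088)) (l 14480416)) (c (b (c (l 14189352) (l 14171568)) (l 14254640)) (l 14104584))) (c (c (l 14406504) (l 14336016)) (l 14200808)))) (c (b (c (l 14458464) (a (b (c (l 14398952) (l 14368392)) (l 315843717031)) (l 14520728))) (c (b (c (l 14607472) (l 14578792)) (b (l 311012170279) (l 14651368))) (a (l 14541904) (l 14627704)))) (b (c (l 14367880) (l 14323296)) (a (l 14483152) (l 14565552)))))) (a (l 3) (b (b (b (c (l 314233378023) (l 312085245239)) (a (c (l 331413059735) (l 326580966055)) (a (l 14913480) (c (l 15158584) (l 15101656))))) (a (l 333023737943) (a (b (c (l 15093752) (l 15034576)) (l 15212416)) (b (c (l 15499560) (l 15454640)) (l 15627872))))) (a (c (l 345372646167) (l 340003844359)) (a (b (c (l 15451560) (l 15404976)) (l 15558776)) (b (c (l 15639536) (l 15599552)) (l 15660088)))))))), by decide +kernel⟩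

def k2_pm_303 : ∃ t, chk3 f_pm_303 t 7 4 1 = true :=
  ⟨(b (b (b (a (c (a (b (l 14689264) (c (l 14670312) (l 14613072))) (l 15093768)) (b (a (l 14639992) (l 15048472)) (a (c (l 14442200) (l 14545256)) (l 15053840)))) (a (c (l 15500784) (b (l 15465560) (l 15456736))) (a (c (l 15769608) (c (l 15752144) (l 15740360))) (l 15965104)))) (a (a (c (c (l 14657568) (l 14644200)) (l 14620696)) (a (l 14984632) (l 15182032))) (c (a (l 15492504) (l 15854928)) (l 15692376)))) (a (a (c (b (l 14684984) (a (l 14724568) (l 14961848))) (b (l 14748624) (l 14676328))) (l 15177648)) (a (l 15543960) (c (l 15908888) (l 15891376))))) (b (a (a (b (c (l 15111472) (l 15043648)) (a (b (c (l 15447272) (l 15397936)) (c (l 15728864) (l 15693280))) (l 15638168))) (c (l 15509064) (l 15456936))) (a (l 15735144) (l 15980168))) (a (a (a (a (b (b (c (l 16248368) (l 16229784)) (l 16211920)) (l 15973704)) (b (b (l 16247424) (l 16465200)) (l 16460888))) (b (b (a (l 15998112) (l 15927024)) (l 16198832)) (l 16225056))) (b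 (l 15990944) (l 16293432))) (a (l 16050712) (l 16101984))))), by decide +kernel⟩

def k3_pm_303 : ∃ t, chk3 f_pm_303 t 1 5 1 = true :=
  ⟨(a (l 2) (a (a (l 3) (b (a (l 3) (b (b (a (l 3) (l 15731440)) (l 15856456)) (l 351279530279))) (l 3))) (a (b (a (a (b (b (a (l 15874944) (l 16296096)) (a (l 15940880) (l 16129760))) (a (l 16153336) (l 16232888))) (b (b (a (l 16624976) (l 16601520)) (a (l 16535392) (l 16751288))) (a (l 16405048) (l 16596240)))) (b (b (l 16421368) (l 16550824)) (b (l 16546624) (l 16613424)))) (b (a (a (l 16469688) (b (l 16515184) (l 16615400))) (l 16719792)) (a (c (l 16911584) (l 16836208)) (a (l 16722768) (l 16762768))))) (b (a (b (l 16294360) (l 16628056)) (l 16362144)) (b (l 16726112) (l 16777080)))))), by decide +kernel⟩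

def k4_pm_303 : ∃ t, chk3 f_pm_303 t 1 3 1 = true :=
  ⟨(a (l 2) (a (a (l 2) (b (b (l 3) (l 2)) (l 2))) (a (b (b (a (b (l 333564833975) (l 358797763911)) (c (l 16703296) (l 16695104))) (a (l 3) (c (l 16740096) (l 16730600)))) (l 2)) (b (a (b (l 16723920) (l 16693000)) (b (l 16777176) (l 16724400))) (a (b (l 1067937116999) (l 2)) (b (l 16693336) (a (l 16740816) (l 16624672)))))))), by decide +kernel⟩

theorem s5_pm_303 : ∃ t, chk3 f_pm_303 t 3 4 1 = true := ex3_a k1_pm_303 k2_pm_303

theorem s6_pm_303 : ∃ t, chk3 f_pm_303 t 1 4 1 = true := ex3_a k0_pm_303 s5_pm_303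

theorem s7_pm_303 : ∃ t, chk3 f_pm_303 t 1 2 1 = true := ex3_b s6_pm_303 k3_pm_303

theorem s8_pm_303 : ∃ t, chk3 f_pm_303 t 1 1 1 = true := ex3_b s7_pm_303 k4_pm_303

theorem c_pm_303 : CertNX 0 1230186008 1610612736 536870912 1046898278 26843546 3 false true false .npn 3 0 3
    ndN7q3 ndN3q3 pcN0 Cut.none Ext.none :=
  certNX1 (fam := false) (s1 := true) (s2 := false) (a := 3) (b := 0) (c := 3) (cn := .npn) (n1 := ndN7q3) (n2 := ndN3q3) (pc := pcN0) (cut := Cut.none) (xt := Ext.none) (P1 := 0) (W1 := 1230186008) (P2 := 1610612736) (W2 := 536870912) (P3 := 1046898278) (W3 := 26843546) (N0 := 3)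
    rfl (fun _ => rfl) s8_pm_303

noncomputable def f_pm_313 : ℕ → ℕ → ℕ → ℕ → Bool := onCell 0 1230186008 1610612736 536870912 1046898278 26843546
    (rowNX 3 0 false true false .dn 3 1 3 (qsf 0 1230186008 1610612736 536870912 1) ndN7q3 ndN3q3 pcN1 Cut.none Ext.none)

def k0_pm_313 : ∃ t, chk3 f_pm_313 t 1 1 1 = true :=
  ⟨(a (l 1) (a (l 1) (b (l 1) (b (l 1) (a (l 1) (a (l 1) (l 16687784))))))), by decide +kernel⟩

theorem c_pm_313 : CertNX 0 1230186008 1610612736 536870912 1046898278 26843546 3 false true false .dn 3 1 3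
    ndN7q3 ndN3q3 pcN1 Cut.none Ext.none :=
  certNX0 (fam := false) (s1 := true) (s2 := false) (a := 3) (b := 1) (c := 3) (cn := .dn) (n1 := ndN7q3) (n2 := ndN3q3) (pc := pcN1) (cut := Cut.none) (xt := Ext.none) (P1 := 0) (W1 := 1230186008) (P2 := 1610612736) (W2 := 536870912) (P3 := 1046898278) (W3 := 26843546) (N0 := 3)
    rfl k0_pm_313

noncomputable def f_mm_001 : ℕ → ℕ → ℕ → ℕ → Bool := onCell 0 536870912 536870912 536870912 1046898278 26843546
    (rowNX 3 0 false false false .up 0 0 1 (qsf 0 536870912 536870912 536870912 0) ndN7q0 ndN3q1 pcN0 Cut.none Ext.none)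

def k0_mm_001 : ∃ t, chk3 f_mm_001 t 1 1 1 = true :=
  ⟨(l 3), by decide +kernel⟩

theorem c_mm_001 : CertNX 0 536870912 536870912 536870912 1046898278 26843546 3 false false false .up 0 0 1
    ndN7q0 ndN3q1 pcN0 Cut.none Ext.none :=
  certNX0 (fam := false) (s1 := false) (s2 := false) (a := 0) (b := 0) (c := 1) (cn := .up) (n1 := ndN7q0) (n2 := ndN3q1) (pc := pcN0) (cut := Cut.none) (xt := Ext.none) (P1 := 0) (W1 := 536870912) (P2 := 536870912) (W2 := 536870912) (P3 := 1046898278) (W3 := 26843546) (N0 := 3)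
    rfl k0_mm_001

noncomputable def f_mm_011 : ℕ → ℕ → ℕ → ℕ → Bool := onCell 0 536870912 536870912 536870912 1046898278 26843546
    (rowNX 3 0 false false false .pnn 0 1 1 (qsf 0 536870912 536870912 536870912 1) ndN7q0 ndN3q1 pcN1 Cut.none Ext.none)

def k0_mm_011 : ∃ t, chk3 f_mm_011 t 1 1 1 = true :=
  ⟨(l 3), by decide +kernel⟩

theorem c_mm_011 : CertNX 0 536870912 536870912 536870912 1046898278 26843546 3 false false false .pnn 0 1 1
    ndN7q0 ndN3q1 pcN1 Cut.none Ext.none :=
  certNX0 (fam := false) (s1 := false) (s2 := false) (a := 0) (b := 1) (c := 1) (cn := .pnn) (n1 := ndN7q0) (n2 := ndN3q1) (pc := pcN1) (cut := Cut.none) (xt := Ext.none) (P1 := 0) (W1 := 536870912) (P2 := 536870912) (W2 := 536870912) (P3 := 1046898278) (W3 := 26843546) (N0 := 3)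
    rfl k0_mm_011

noncomputable def f_mm_012 : ℕ → ℕ → ℕ → ℕ → Bool := onCell 0 536870912 1073741824 536870912 1046898278 26843546
    (rowNX 3 0 false false false .pnp 0 1 2 (qsf 0 536870912 1073741824 536870912 1) ndN7q0 ndN3q2 pcN1 Cut.none Ext.none)

def k0_mm_012 : ∃ t, chk3 f_mm_012 t 1 1 1 = true :=
  ⟨(l 5), by decide +kernel⟩

theorem c_mm_012 : CertNX 0 536870912 1073741824 536870912 1046898278 26843546 3 false false false .pnp 0 1 2
    ndN7q0 ndN3q2 pcN1 Cut.none Ext.none :=
  certNX0 (fam := false) (s1 := false) (s2 := false) (a := 0) (b := 1) (c := 2) (cn := .pnp) (n1 := ndN7q0) (n2 := ndN3q2) (pc := pcN1) (cut := Cut.none) (xt := Ext.none) (P1 := 0) (W1 := 536870912) (P2 := 1073741824) (W2 := 536870912) (P3 := 1046898278) (W3 := 26843546) (N0 := 3)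
    rfl k0_mm_012

noncomputable def f_mm_022 : ℕ → ℕ → ℕ → ℕ → Bool := onCell 0 536870912 1073741824 536870912 1046898278 26843546
    (rowNX 3 0 false false false .pp 0 2 2 (qsf 0 536870912 1073741824 536870912 2) ndN7q0 ndN3q2 pcN2 Cut.none Ext.none)

def k0_mm_022 : ∃ t, chk3 f_mm_022 t 1 1 1 = true :=
  ⟨(l 5), by decide +kernel⟩

theorem c_mm_022 : CertNX 0 536870912 1073741824 536870912 1046898278 26843546 3 false false false .pp 0 2 2
    ndN7q0 ndN3q2 pcN2 Cut.none Ext.none :=
  certNX0 (fam := false) (s1 := false) (s2 := false) (a := 0) (b := 2) (c := 2) (cn := .pp) (n1 := ndN7q0) (n2 := ndN3q2) (pc := pcN2) (cut := Cut.none) (xt := Ext.none) (P1 := 0) (W1 := 536870912) (P2 := 1073741824) (W2 := 536870912) (P3 := 1046898278) (W3 := 26843546) (N0 := 3)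
    rfl k0_mm_022

noncomputable def f_mm_023 : ℕ → ℕ → ℕ → ℕ → Bool := onCell 0 536870912 1610612736 536870912 1046898278 26843546
    (rowNX 3 0 false false false .up 0 2 3 (qsf 0 536870912 1610612736 536870912 2) ndN7q0 ndN3q3 pcN2 Cut.none Ext.none)

def k0_mm_023 : ∃ t, chk3 f_mm_023 t 1 1 1 = true :=
  ⟨(l 5), by decide +kernel⟩

theorem c_mm_023 : CertNX 0 536870912 1610612736 536870912 1046898278 26843546 3 false false false .up 0 2 3
    ndN7q0 ndN3q3 pcN2 Cut.none Ext.none :=
  certNX0 (fam := false) (s1 := false) (s2 := false) (a := 0) (b := 2) (c := 3) (cn := .up) (n1 := ndN7q0) (n2 := ndN3q3) (pc := pcN2) (cut := Cut.none) (xt := Ext.none) (P1 := 0) (W1 := 536870912) (P2 := 1610612736) (W2 := 536870912) (P3 := 1046898278) (W3 := 26843546) (N0 := 3)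
    rfl k0_mm_023

noncomputable def f_mm_033 : ℕ → ℕ → ℕ → ℕ → Bool := onCell 0 536870912 1610612736 536870912 1046898278 26843546
    (rowNX 3 0 false false false .pnn 0 3 3 (qsf 0 536870912 1610612736 536870912 3) ndN7q0 ndN3q3 pcN3 Cut.none Ext.none)

def k0_mm_033 : ∃ t, chk3 f_mm_033 t 1 1 1 = true :=
  ⟨(l 5), by decide +kernel⟩

theorem c_mm_033 : CertNX 0 536870912 1610612736 536870912 1046898278 26843546 3 false false false .pnn 0 3 3
    ndN7q0 ndN3q3 pcN3 Cut.none Ext.none :=
  certNX0 (fam := false) (s1 := false) (s2 := false) (a := 0) (b := 3) (c := 3) (cn := .pnn) (n1 := ndN7q0) (n2 := ndN3q3) (pc := pcN3) (cut := Cut.none) (xt := Ext.none) (P1 := 0) (W1 := 536870912) (P2 := 1610612736) (W2 := 536870912) (P3 := 1046898278) (W3 := 26843546) (N0 := 3)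
    rfl k0_mm_033

noncomputable def f_mm_101 : ℕ → ℕ → ℕ → ℕ → Bool := onCell 536870912 536870912 536870912 536870912 1046898278 26843546
    (rowNX 3 0 false false false .npn 1 0 1 (qsf 536870912 536870912 536870912 536870912 0) ndN7q1 ndN3q1 pcN0 Cut.none Ext.none)

def k0_mm_101 : ∃ t, chk3 f_mm_101 t 1 1 1 = true :=
  ⟨(l 3), by decide +kernel⟩

theorem c_mm_101 : CertNX 536870912 536870912 536870912 536870912 1046898278 26843546 3 false false false .npn 1 0 1
    ndN7q1 ndN3q1 pcN0 Cut.none Ext.none :=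
  certNX0 (fam := false) (s1 := false) (s2 := false) (a := 1) (b := 0) (c := 1) (cn := .npn) (n1 := ndN7q1) (n2 := ndN3q1) (pc := pcN0) (cut := Cut.none) (xt := Ext.none) (P1 := 536870912) (W1 := 536870912) (P2 := 536870912) (W2 := 536870912) (P3 := 1046898278) (W3 := 26843546) (N0 := 3)
    rfl k0_mm_101

noncomputable def f_mm_102 : ℕ → ℕ → ℕ → ℕ → Bool := onCell 536870912 536870912 1073741824 536870912 1046898278 26843546
    (rowNX 3 0 false false false .npp 1 0 2 (qsf 536870912 536870912 1073741824 536870912 0) ndN7q1 ndN3q2 pcN0 Cut.none Ext.none)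

def k0_mm_102 : ∃ t, chk3 f_mm_102 t 1 1 1 = true :=
  ⟨(l 5), by decide +kernel⟩

theorem c_mm_102 : CertNX 536870912 536870912 1073741824 536870912 1046898278 26843546 3 false false false .npp 1 0 2
    ndN7q1 ndN3q2 pcN0 Cut.none Ext.none :=
  certNX0 (fam := false) (s1 := false) (s2 := false) (a := 1) (b := 0) (c := 2) (cn := .npp) (n1 := ndN7q1) (n2 := ndN3q2) (pc := pcN0) (cut := Cut.none) (xt := Ext.none) (P1 := 536870912) (W1 := 536870912) (P2 := 1073741824) (W2 := 536870912) (P3 := 1046898278) (W3 := 26843546) (N0 := 3)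
    rfl k0_mm_102

noncomputable def f_mm_112 : ℕ → ℕ → ℕ → ℕ → Bool := onCell 536870912 536870912 1073741824 536870912 1046898278 26843546
    (rowNX 3 0 false false false .dn 1 1 2 (qsf 536870912 536870912 1073741824 536870912 1) ndN7q1 ndN3q2 pcN1 Cut.none Ext.none)

def k0_mm_112 : ∃ t, chk3 f_mm_112 t 1 1 1 = true :=
  ⟨(l 5), by decide +kernel⟩

theorem c_mm_112 : CertNX 536870912 536870912 1073741824 536870912 1046898278 26843546 3 false false false .dn 1 1 2
    ndN7q1 ndN3q2 pcN1 Cut.none Ext.none :=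
  certNX0 (fam := false) (s1 := false) (s2 := false) (a := 1) (b := 1) (c := 2) (cn := .dn) (n1 := ndN7q1) (n2 := ndN3q2) (pc := pcN1) (cut := Cut.none) (xt := Ext.none) (P1 := 536870912) (W1 := 536870912) (P2 := 1073741824) (W2 := 536870912) (P3 := 1046898278) (W3 := 26843546) (N0 := 3)
    rfl k0_mm_112

noncomputable def f_mm_113 : ℕ → ℕ → ℕ → ℕ → Bool := onCell 536870912 536870912 1610612736 536870912 1046898278 26843546
    (rowNX 3 0 false false false .nn 1 1 3 (qsf 536870912 536870912 1610612736 536870912 1) ndN7q1 ndN3q3 pcN1 Cut.none Ext.none)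

def k0_mm_113 : ∃ t, chk3 f_mm_113 t 1 1 1 = true :=
  ⟨(l 5), by decide +kernel⟩

theorem c_mm_113 : CertNX 536870912 536870912 1610612736 536870912 1046898278 26843546 3 false false false .nn 1 1 3
    ndN7q1 ndN3q3 pcN1 Cut.none Ext.none :=
  certNX0 (fam := false) (s1 := false) (s2 := false) (a := 1) (b := 1) (c := 3) (cn := .nn) (n1 := ndN7q1) (n2 := ndN3q3) (pc := pcN1) (cut := Cut.none) (xt := Ext.none) (P1 := 536870912) (W1 := 536870912) (P2 := 1610612736) (W2 := 536870912) (P3 := 1046898278) (W3 := 26843546) (N0 := 3)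
    rfl k0_mm_113

noncomputable def f_mm_123 : ℕ → ℕ → ℕ → ℕ → Bool := onCell 536870912 536870912 1610612736 536870912 1046898278 26843546
    (rowNX 3 0 false false false .npn 1 2 3 (qsf 536870912 536870912 1610612736 536870912 2) ndN7q1 ndN3q3 pcN2 Cut.none Ext.none)

def k0_mm_123 : ∃ t, chk3 f_mm_123 t 1 1 1 = true :=
  ⟨(l 5), by decide +kernel⟩

theorem c_mm_123 : CertNX 536870912 536870912 1610612736 536870912 1046898278 26843546 3 false false false .npn 1 2 3
    ndN7q1 ndN3q3 pcN2 Cut.none Ext.none :=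
  certNX0 (fam := false) (s1 := false) (s2 := false) (a := 1) (b := 2) (c := 3) (cn := .npn) (n1 := ndN7q1) (n2 := ndN3q3) (pc := pcN2) (cut := Cut.none) (xt := Ext.none) (P1 := 536870912) (W1 := 536870912) (P2 := 1610612736) (W2 := 536870912) (P3 := 1046898278) (W3 := 26843546) (N0 := 3)
    rfl k0_mm_123

noncomputable def f_mm_133 : ℕ → ℕ → ℕ → ℕ → Bool := onCell 536870912 536870912 1610612736 536870912 1046898278 26843546
    (rowNX 3 0 false false false .dn 1 3 3 (qsf 536870912 536870912 1610612736 536870912 3) ndN7q1 ndN3q3 pcN3 Cut.none Ext.none)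

def k0_mm_133 : ∃ t, chk3 f_mm_133 t 1 1 1 = true :=
  ⟨(l 5), by decide +kernel⟩

theorem c_mm_133 : CertNX 536870912 536870912 1610612736 536870912 1046898278 26843546 3 false false false .dn 1 3 3
    ndN7q1 ndN3q3 pcN3 Cut.none Ext.none :=
  certNX0 (fam := false) (s1 := false) (s2 := false) (a := 1) (b := 3) (c := 3) (cn := .dn) (n1 := ndN7q1) (n2 := ndN3q3) (pc := pcN3) (cut := Cut.none) (xt := Ext.none) (P1 := 536870912) (W1 := 536870912) (P2 := 1610612736) (W2 := 536870912) (P3 := 1046898278) (W3 := 26843546) (N0 := 3)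
    rfl k0_mm_133

noncomputable def f_mm_202 : ℕ → ℕ → ℕ → ℕ → Bool := onCell 1073741824 536870912 1073741824 536870912 1046898278 26843546
    (rowNX 3 0 false false false .pp 2 0 2 (qsf 1073741824 536870912 1073741824 536870912 0) ndN7q2 ndN3q2 pcN0 Cut.none Ext.none)

def k0_mm_202 : ∃ t, chk3 f_mm_202 t 1 1 1 = true :=
  ⟨(l 5), by decide +kernel⟩

theorem c_mm_202 : CertNX 1073741824 536870912 1073741824 536870912 1046898278 26843546 3 false false false .pp 2 0 2
    ndN7q2 ndN3q2 pcN0 Cut.none Ext.none :=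
  certNX0 (fam := false) (s1 := false) (s2 := false) (a := 2) (b := 0) (c := 2) (cn := .pp) (n1 := ndN7q2) (n2 := ndN3q2) (pc := pcN0) (cut := Cut.none) (xt := Ext.none) (P1 := 1073741824) (W1 := 536870912) (P2 := 1073741824) (W2 := 536870912) (P3 := 1046898278) (W3 := 26843546) (N0 := 3)
    rfl k0_mm_202

noncomputable def f_mm_203 : ℕ → ℕ → ℕ → ℕ → Bool := onCell 1073741824 536870912 1610612736 536870912 1046898278 26843546
    (rowNX 3 0 false false false .up 2 0 3 (qsf 1073741824 536870912 1610612736 536870912 0) ndN7q2 ndN3q3 pcN0 Cut.none Ext.none)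

def k0_mm_203 : ∃ t, chk3 f_mm_203 t 1 1 1 = true :=
  ⟨(l 5), by decide +kernel⟩

theorem c_mm_203 : CertNX 1073741824 536870912 1610612736 536870912 1046898278 26843546 3 false false false .up 2 0 3
    ndN7q2 ndN3q3 pcN0 Cut.none Ext.none :=
  certNX0 (fam := false) (s1 := false) (s2 := false) (a := 2) (b := 0) (c := 3) (cn := .up) (n1 := ndN7q2) (n2 := ndN3q3) (pc := pcN0) (cut := Cut.none) (xt := Ext.none) (P1 := 1073741824) (W1 := 536870912) (P2 := 1610612736) (W2 := 536870912) (P3 := 1046898278) (W3 := 26843546) (N0 := 3)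
    rfl k0_mm_203

noncomputable def f_mm_213 : ℕ → ℕ → ℕ → ℕ → Bool := onCell 1073741824 536870912 1610612736 536870912 1046898278 26843546
    (rowNX 3 0 false false false .pnn 2 1 3 (qsf 1073741824 536870912 1610612736 536870912 1) ndN7q2 ndN3q3 pcN1 Cut.none Ext.none)

def k0_mm_213 : ∃ t, chk3 f_mm_213 t 1 1 1 = true :=
  ⟨(l 5), by decide +kernel⟩

theorem c_mm_213 : CertNX 1073741824 536870912 1610612736 536870912 1046898278 26843546 3 false false false .pnn 2 1 3
    ndN7q2 ndN3q3 pcN1 Cut.none Ext.none :=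
  certNX0 (fam := false) (s1 := false) (s2 := false) (a := 2) (b := 1) (c := 3) (cn := .pnn) (n1 := ndN7q2) (n2 := ndN3q3) (pc := pcN1) (cut := Cut.none) (xt := Ext.none) (P1 := 1073741824) (W1 := 536870912) (P2 := 1610612736) (W2 := 536870912) (P3 := 1046898278) (W3 := 26843546) (N0 := 3)
    rfl k0_mm_213

noncomputable def f_mm_303 : ℕ → ℕ → ℕ → ℕ → Bool := onCell 0 1230186008 1610612736 536870912 1046898278 26843546
    (rowNX 3 0 false false false .npn 3 0 3 (qsf 0 1230186008 1610612736 536870912 0) ndN7q3 ndN3q3 pcN0 Cut.none Ext.none)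

def k0_mm_303 : ∃ t, chk3 f_mm_303 t 1 1 1 = true :=
  ⟨(a (l 3) (a (l 3) (l 5))), by decide +kernel⟩

theorem c_mm_303 : CertNX 0 1230186008 1610612736 536870912 1046898278 26843546 3 false false false .npn 3 0 3
    ndN7q3 ndN3q3 pcN0 Cut.none Ext.none :=
  certNX0 (fam := false) (s1 := false) (s2 := false) (a := 3) (b := 0) (c := 3) (cn := .npn) (n1 := ndN7q3) (n2 := ndN3q3) (pc := pcN0) (cut := Cut.none) (xt := Ext.none) (P1 := 0) (W1 := 1230186008) (P2 := 1610612736) (W2 := 536870912) (P3 := 1046898278) (W3 := 26843546) (N0 := 3)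
    rfl k0_mm_303

noncomputable def f_mm_313 : ℕ → ℕ → ℕ → ℕ → Bool := onCell 0 1230186008 1610612736 536870912 1046898278 26843546
    (rowNX 3 0 false false false .dn 3 1 3 (qsf 0 1230186008 1610612736 536870912 1) ndN7q3 ndN3q3 pcN1 Cut.none Ext.none)

def k0_mm_313 : ∃ t, chk3 f_mm_313 t 1 1 1 = true :=
  ⟨(a (l 1) (a (l 1) (l 5))), by decide +kernel⟩

theorem c_mm_313 : CertNX 0 1230186008 1610612736 536870912 1046898278 26843546 3 false false false .dn 3 1 3
    ndN7q3 ndN3q3 pcN1 Cut.none Ext.none :=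
  certNX0 (fam := false) (s1 := false) (s2 := false) (a := 3) (b := 1) (c := 3) (cn := .dn) (n1 := ndN7q3) (n2 := ndN3q3) (pc := pcN1) (cut := Cut.none) (xt := Ext.none) (P1 := 0) (W1 := 1230186008) (P2 := 1610612736) (W2 := 536870912) (P3 := 1046898278) (W3 := 26843546) (N0 := 3)
    rfl k0_mm_313

end Pool.Agent.Strip051.G.IE1.Tab.C.NB73

namespace Pool.Agent.Strip051.G.IE1.Tab.C.NB75

open Pool.Agent.Strip051.PB Pool.Agent.Strip051.PB.T
open Pool.Agent.Strip051.G.IE1.Tab

noncomputable def f_pp_001 : ℕ → ℕ → ℕ → ℕ → Bool := onCell 0 536870912 536870912 469762048 1046898278 26843546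
    (rowNX 3 0 false true true .up 0 0 1 (qsf 0 536870912 536870912 469762048 0) ndN7q0 ndN5q1 pcN0 Cut.none Ext.none)

def k0_pp_001 : ∃ t, chk3 f_pp_001 t 1 1 1 = true :=
  ⟨(l 3), by decide +kernel⟩

theorem c_pp_001 : CertNX 0 536870912 536870912 469762048 1046898278 26843546 3 false true true .up 0 0 1
    ndN7q0 ndN5q1 pcN0 Cut.none Ext.none :=
  certNX0 (fam := false) (s1 := true) (s2 := true) (a := 0) (b := 0) (c := 1) (cn := .up) (n1 := ndN7q0) (n2 := ndN5q1) (pc := pcN0) (cut := Cut.none) (xt := Ext.none) (P1 := 0) (W1 := 536870912) (P2 := 536870912) (W2 := 469762048) (P3 := 1046898278) (W3 := 26843546) (N0 := 3)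
    rfl k0_pp_001

noncomputable def f_pp_011 : ℕ → ℕ → ℕ → ℕ → Bool := onCell 0 536870912 536870912 469762048 1046898278 26843546
    (rowNX 3 0 false true true .pnn 0 1 1 (qsf 0 536870912 536870912 469762048 1) ndN7q0 ndN5q1 pcN1 Cut.none Ext.none)

def k0_pp_011 : ∃ t, chk3 f_pp_011 t 1 1 1 = true :=
  ⟨(l 3), by decide +kernel⟩

theorem c_pp_011 : CertNX 0 536870912 536870912 469762048 1046898278 26843546 3 false true true .pnn 0 1 1
    ndN7q0 ndN5q1 pcN1 Cut.none Ext.none :=
  certNX0 (fam := false) (s1 := true) (s2 := true) (a := 0) (b := 1) (c := 1) (cn := .pnn) (n1 := ndN7q0) (n2 := ndN5q1) (pc := pcN1) (cut := Cut.none) (xt := Ext.none) (P1 := 0) (W1 := 536870912) (P2 := 536870912) (W2 := 469762048) (P3 := 1046898278) (W3 := 26843546) (N0 := 3)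
    rfl k0_pp_011

noncomputable def f_pp_012 : ℕ → ℕ → ℕ → ℕ → Bool := onCell 536870912 536870912 1073741824 536870912 1046898278 26843546
    (rowNX 3 2 false true true .pnp 0 1 2 (qsf 0 536870912 1073741824 536870912 1) ndN7q0 ndN5q2 pcN1 Cut.none Ext.none)

def k0_pp_012 : ∃ t, chk3 f_pp_012 t 1 1 1 = true :=
  ⟨(a (b (b (a (b (a (l 15522248) (l 15522248)) (a (l 14772512) (l 14772512))) (b (a (l 15522248) (l 15522248)) (l 14667656))) (a (b (b (b (l 14377320) (l 2)) (l 2)) (l 2)) (b (b (b (l 14377320) (l 14597512)) (l 15362176)) (b (l 16304928) (l 16776552))))) (a (l 2) (b (l 16777216) (l 2)))) (b (a (b (a (b (l 15548136) (l 14798768)) (a (l 15079712) (a (l 15341272) (l 15052952)))) (b (a (b (l 14515032) (l 15388960)) (b (b (l 14606736) (l 14827928)) (l 15592360))) (a (b (l 16331896) (l 16748352)) (b (l 16229088) (l 16515968))))) (b (a (b (l 14667264) (l 14313304)) (b (a (l 14181648) (l 13680936)) (l 13174776))) (b (a (b (b (l 14016952) (l 14200200)) (l 14810464)) (b (b (l 12875024)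 (l 13080968)) (l 13781032))) (a (b (l 15543296) (l 15898816)) (b (l 14642648) (l 15066368)))))) (a (a (b (l 16748248) (l 2)) (b (l 16512280) (l 16502928))) (a (b (l 15890528) (l 15855016)) (b (a (l 15267584) (l 14806968)) (a (l 15209696) (l 14677800))))))), by decide +kernel⟩

theorem c_pp_012 : CertNX 0 536870912 1073741824 536870912 1046898278 26843546 3 false true true .pnp 0 1 2
    ndN7q0 ndN5q2 pcN1 Cut.none Ext.none :=
  certNX2 (fam := false) (s1 := true) (s2 := true) (a := 0) (b := 1) (c := 2) (cn := .pnp) (n1 := ndN7q0) (n2 := ndN5q2) (pc := pcN1) (cut := Cut.none) (xt := Ext.none) (P1 := 0) (W1 := 536870912) (P2 := 1073741824) (W2 := 536870912) (P3 := 1046898278) (W3 := 26843546) (N0 := 3)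
    rfl (fun _ => rfl) k0_pp_012

noncomputable def f_pp_022 : ℕ → ℕ → ℕ → ℕ → Bool := onCell 1073741824 536870912 1073741824 536870912 1046898278 26843546
    (rowNX 3 2 false true true .pp 0 2 2 (qsf 0 536870912 1073741824 536870912 2) ndN7q0 ndN5q2 pcN2 Cut.none Ext.none)

def k0_pp_022 : ∃ t, chk3 f_pp_022 t 1 1 1 = true :=
  ⟨(a (a (b (b (a (b (a (l 13327016) (c (l 13551168) (l 13439360))) (a (l 12560896) (b (l 12905704) (l 12548856)))) (b (a (b (l 1) (l 13402176)) (l 1)) (a (b (l 13012272) (l 12659296)) (l 12650048)))) (b (a (b (b (l 12236736) (l 12449672)) (a (l 13122576) (l 13266272))) (b (a (l 12523592) (l 12351912)) (a (l 13378728) (l 13212592)))) (a (b (l 14115424) (l 14562736)) (b (a (l 14300472) (l 14140920)) (l 14664312))))) (a (b (c (l 14540920) (l 14460160)) (c (l 14418960) (l 14332104))) (b (a (l 14688224) (l 14554672)) (a (l 14569104) (l 14472944))))) (b (b (a (a (b (l 1) (b (l 1) (l 12478952))) (l 1)) (l 1)) (b (a (b (a (b (l 12247552) (l 12466448)) (l 13121200))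 (a (l 13228576) (l 13988784))) (b (l 1) (a (l 14728664) (l 1)))) (a (b (a (l 14167424) (l 14923880)) (a (l 14634576) (l 15386976))) (a (b (l 15655072) (l 16108568)) (l 805338382983))))) (a (b (a (l 14623456) (l 15364152)) (a (l 14601128) (l 15319992))) (a (b (l 16058912) (l 15965024)) (l 16158216))))) (b (b (l 1) (a (b (l 1) (a (b (l 1) (l 16607136)) (l 1))) (l 1))) (a (a (b (l 16579000) (l 16525752)) (b (l 16769440) (l 16767592))) (c (l 16777216) (l 16777216))))), by decide +kernel⟩

theorem c_pp_022 : CertNX 0 536870912 1073741824 536870912 1046898278 26843546 3 false true true .pp 0 2 2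
    ndN7q0 ndN5q2 pcN2 Cut.none Ext.none :=
  certNX2 (fam := false) (s1 := true) (s2 := true) (a := 0) (b := 2) (c := 2) (cn := .pp) (n1 := ndN7q0) (n2 := ndN5q2) (pc := pcN2) (cut := Cut.none) (xt := Ext.none) (P1 := 0) (W1 := 536870912) (P2 := 1073741824) (W2 := 536870912) (P3 := 1046898278) (W3 := 26843546) (N0 := 3)
    rfl (fun _ => rfl) k0_pp_022

noncomputable def f_pp_023 : ℕ → ℕ → ℕ → ℕ → Bool := onCell 1073741824 536870912 0 1230186008 1046898278 26843546
    (rowNX 3 2 false true true .up 0 2 3 (qsf 0 536870912 0 1230186008 2) ndN7q0 ndN5q3 pcN2 Cut.none Ext.none)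

def k0_pp_023 : ∃ t, chk3 f_pp_023 t 1 1 1 = true :=
  ⟨(b (a (l 2) (l 4)) (a (a (b (l 2) (b (l 2) (a (c (l 14252928) (l 14157768)) (a (l 14409720) (l 14364760))))) (b (a (l 2) (a (l 2) (l 15868664))) (a (b (l 14878280) (a (l 14571856) (l 15262616))) (a (l 15753400) (l 16102952))))) (b (a (a (l 16348480) (l 4)) (l 4)) (a (a (b (l 16387368) (l 16458400)) (b (l 16764000) (l 16765392))) (c (l 16777216) (l 16777216)))))), by decide +kernel⟩

theorem c_pp_023 : CertNX 0 536870912 0 1230186008 1046898278 26843546 3 false true true .up 0 2 3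
    ndN7q0 ndN5q3 pcN2 Cut.none Ext.none :=
  certNX2 (fam := false) (s1 := true) (s2 := true) (a := 0) (b := 2) (c := 3) (cn := .up) (n1 := ndN7q0) (n2 := ndN5q3) (pc := pcN2) (cut := Cut.none) (xt := Ext.none) (P1 := 0) (W1 := 536870912) (P2 := 0) (W2 := 1230186008) (P3 := 1046898278) (W3 := 26843546) (N0 := 3)
    rfl (fun _ => rfl) k0_pp_023

noncomputable def f_pp_033 : ℕ → ℕ → ℕ → ℕ → Bool := onCell 1610612736 536870912 0 1230186008 1046898278 26843546
    (rowNX 3 2 false true true .pnn 0 3 3 (qsf 0 536870912 0 1230186008 3) ndN7q0 ndN5q3 pcN3 Cut.none Ext.none)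

def k0_pp_033 : ∃ t, chk3 f_pp_033 t 1 1 1 = true :=
  ⟨(b (l 4) (b (l 4) (l 4))), by decide +kernel⟩

theorem c_pp_033 : CertNX 0 536870912 0 1230186008 1046898278 26843546 3 false true true .pnn 0 3 3
    ndN7q0 ndN5q3 pcN3 Cut.none Ext.none :=
  certNX2 (fam := false) (s1 := true) (s2 := true) (a := 0) (b := 3) (c := 3) (cn := .pnn) (n1 := ndN7q0) (n2 := ndN5q3) (pc := pcN3) (cut := Cut.none) (xt := Ext.none) (P1 := 0) (W1 := 536870912) (P2 := 0) (W2 := 1230186008) (P3 := 1046898278) (W3 := 26843546) (N0 := 3)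
    rfl (fun _ => rfl) k0_pp_033

noncomputable def f_pp_101 : ℕ → ℕ → ℕ → ℕ → Bool := onCell 536870912 536870912 536870912 469762048 1046898278 26843546
    (rowNX 3 0 false true true .npn 1 0 1 (qsf 536870912 536870912 536870912 469762048 0) ndN7q1 ndN5q1 pcN0 Cut.none Ext.none)

def k0_pp_101 : ∃ t, chk3 f_pp_101 t 1 1 1 = true :=
  ⟨(l 3), by decide +kernel⟩

theorem c_pp_101 : CertNX 536870912 536870912 536870912 469762048 1046898278 26843546 3 false true true .npn 1 0 1
    ndN7q1 ndN5q1 pcN0 Cut.none Ext.none :=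
  certNX0 (fam := false) (s1 := true) (s2 := true) (a := 1) (b := 0) (c := 1) (cn := .npn) (n1 := ndN7q1) (n2 := ndN5q1) (pc := pcN0) (cut := Cut.none) (xt := Ext.none) (P1 := 536870912) (W1 := 536870912) (P2 := 536870912) (W2 := 469762048) (P3 := 1046898278) (W3 := 26843546) (N0 := 3)
    rfl k0_pp_101

noncomputable def f_pp_102 : ℕ → ℕ → ℕ → ℕ → Bool := onCell 536870912 536870912 0 536870912 1046898278 26843546
    (rowNX 3 1 false true true .npp 1 0 2 (qsf 536870912 536870912 1073741824 536870912 0) ndN7q1 ndN5q2 pcN0 Cut.none Ext.none)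

def k0_pp_102 : ∃ t, chk3 f_pp_102 t 2 2 1 = true :=
  ⟨(a (l 1) (a (l 1) (a (l 1) (l 3)))), by decide +kernel⟩

def k1_pp_102 : ∃ t, chk3 f_pp_102 t 2 3 1 = true :=
  ⟨(b (a (b (l 1) (a (l 1) (a (l 1) (a (l 1) (b (l 1) (l 366178043959)))))) (b (a (b (l 1) (a (l 1) (c (l 16453664) (l 16470496)))) (a (b (c (l 331818601015) (l 16190304)) (c (l 16290224) (l 16350576))) (b (l 3) (c (b (l 16386512) (l 16168288)) (l 16176016))))) (a (b (a (a (l 1) (l 367252033463)) (c (l 16137008) (l 16164984))) (c (a (l 15921056) (l 15814096)) (a (l 16000520) (l 15784512)))) (b (c (a (l 15954872) (l 15784136)) (a (l 16020728) (l 15846184))) (c (a (l 15622152) (l 15442448)) (a (l 15588968) (l 15405936))))))) (a (b (a (b (l 1) (a (l 1) (c (l 16417440) (l 16404808)))) (b (a (c (l 16417440) (l 16404808)) (c (l 15964064) (l 15935520))) (c (l 15561360) (l 15630168)))) (a (b (a (l 16411120) (c (l 15964064) (l 15935520))) (l 15627256)) (c (b (l 15347064) (l 14978664)) (b (l 15296864) (l 14915536))))) (b (a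 (c (b (a (l 15599528) (l 15399720)) (a (l 15207400) (l 15020448))) (b (a (l 15559168) (l 15355656)) (l 15015552))) (b (a (c (l 15219760) (l 15172576)) (b (l 15123384) (a (l 14974160) (c (l 14954992) (l 15054440))))) (a (b (l 14912968) (a (l 14775520) (c (l 14908064) (l 14850912)))) (b (a (c (l 15002024) (l 14949696)) (l 15406240)) (a (l 15310016) (l 15868400)))))) (a (b (a (c (l 14850344) (l 14783688)) (b (l 14726160) (c (l 14466408) (l 14650152)))) (a (b (l 14568336) (a (l 14459128) (l 14427192))) (b (a (c (l 14661112) (l 14590352)) (l 15056504)) (l 15183288)))) (b (a (b (a (c (l 14819928) (l 14758096)) (l 15219648)) (l 15187752)) (b (c (l 16052816) (l 16040976)) (l 16117928))) (a (c (l 15864736) (l 15935144)) (b (l 15882632) (l 15913720)))))))), by decide +kernel⟩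

def k2_pp_102 : ∃ t, chk3 f_pp_102 t 3 1 1 = true :=
  ⟨(b (b (l 3) (l 3)) (a (b (b (a (b (l 3) (a (l 3) (l 3))) (l 3)) (b (a (a (c (l 15688496) (l 15663168)) (a (l 581596008695) (b (l 3) (b (l 3) (a (l 15387552) (l 15654120)))))) (l 3)) (a (a (b (l 15357400) (a (l 15196400) (c (b (l 15251784) (l 15329848)) (l 15114040)))) (a (b (c (a (l 15340256) (l 15391496)) (b (l 15336392) (l 15414536))) (c (l 15739704) (l 15720304))) (b (c (l 15814584) (l 15842784)) (l 15859672)))) (a (a (b (l 15657824) (l 15445200)) (l 14837552)) (b (a (l 14651632) (l 3)) (a (c (l 14475096) (l 14395008)) (l 14049104))))))) (b (a (b (a (b (a (c (b (l 15138888) (l 15219928)) (l 15123208)) (c (l 15628648) (l 15603760))) (a (l 15445416) (l 16002920))) (a (l 15715784) (l 15438624))) (a (b (l 15800488) (l 15849456)) (b (a (l 15524456) (l 15187944)) (a (l 15362512) (l 15127080))))) (b (a (a (b (l 15188776) (l 14999456)) (b (l 14562880) (l 14659880))) (l 14204920)) (c (l 14544168) (l 14465544)))) (a (b (a (b (a (l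 15828616) (l 15531256)) (l 15596152)) (l 15217272)) (l 15393344)) (c (l 14544056) (l 14465424))))) (b (a (b (l 3) (b (l 3) (c (a (l 528978869127) (l 3)) (l 13409432)))) (l 3)) (a (c (a (b (l 13652976) (l 13652976)) (b (c (a (l 13531400) (l 13409824)) (l 13370024)) (c (l 13456464) (l 13370024)))) (b (l 13409280) (l 13409280))) (c (c (b (l 12997424) (l 12997424)) (a (a (b (l 13183368) (l 13183368)) (l 239604215959)) (l 12768792))) (a (b (c (l 12751968) (l 12934816)) (l 12977160)) (c (b (a (l 12784696) (l 12630320)) (l 12708024)) (b (a (l 12719832) (c (l 12581536) (l 12538824))) (a (l 12719832) (l 12559560)))))))))), by decide +kernel⟩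

theorem s3_pp_102 : ∃ t, chk3 f_pp_102 t 2 1 1 = true := ex3_b k0_pp_102 k1_pp_102

theorem s4_pp_102 : ∃ t, chk3 f_pp_102 t 1 1 1 = true := ex3_a s3_pp_102 k2_pp_102

theorem c_pp_102 : CertNX 536870912 536870912 1073741824 536870912 1046898278 26843546 3 false true true .npp 1 0 2
    ndN7q1 ndN5q2 pcN0 Cut.none Ext.none :=
  certNX1 (fam := false) (s1 := true) (s2 := true) (a := 1) (b := 0) (c := 2) (cn := .npp) (n1 := ndN7q1) (n2 := ndN5q2) (pc := pcN0) (cut := Cut.none) (xt := Ext.none) (P1 := 536870912) (W1 := 536870912) (P2 := 1073741824) (W2 := 536870912) (P3 := 1046898278) (W3 := 26843546) (N0 := 3)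
    rfl (fun _ => rfl) s4_pp_102

noncomputable def f_pp_112 : ℕ → ℕ → ℕ → ℕ → Bool := onCell 536870912 536870912 1073741824 536870912 1046898278 26843546
    (rowNX 3 2 false true true .dn 1 1 2 (qsf 536870912 536870912 1073741824 536870912 1) ndN7q1 ndN5q2 pcN1 Cut.none Ext.none)

def k0_pp_112 : ∃ t, chk3 f_pp_112 t 1 1 1 = true :=
  ⟨(a (b (b (a (b (a (l 15522248) (l 15522248)) (a (l 14772512) (l 14772512))) (b (l 1) (l 14667656))) (a (b (b (a (b (l 14378648) (l 14610088)) (l 14488456)) (a (l 15185712) (l 15362176))) (a (a (b (l 16236656) (l 16041864)) (b (l 16372160) (l 16331072))) (b (l 16311456) (l 16656296)))) (b (b (b (l 14377320) (l 14597512)) (l 15362176)) (b (l 16304928) (l 16776552))))) (a (b (a (a (b (l 15563264) (c (l 14783272) (l 14713056))) (b (l 15887528) (l 15199768))) (b (l 16326640) (l 15727160))) (a (a (b (c (b (l 13861160) (c (l 13479536) (l 13590192))) (l 13665472)) (c (b (c (a (l 13207832) (l 13340240)) (a (l 13124768) (l 13287848))) (c (l 12997424) (a (l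 12851704) (l 12993608)))) (b (l 13128632) (c (a (l 12608336) (l 12900248)) (a (l 12688904) (l 12847976)))))) (b (b (l 14504672) (l 13811328)) (c (b (l 13455920) (c (a (l 13207832) (l 13340240)) (a (l 13124768) (l 13287848)))) (l 13164656)))) (b (l 14834456) (c (a (b (l 13861160) (l 13539800)) (b (l 14544056) (l 13861160))) (l 13921232))))) (b (a (b (l 16688216) (l 16326640)) (l 16720216)) (a (b (l 15727160) (l 14960280)) (b (l 16326640) (l 15727160)))))) (b (a (b (l 1) (b (l 1) (a (l 623876643991) (l 1)))) (l 1)) (a (b (a (l 16748248) (l 16512280)) (a (b (l 16659072) (l 16297304)) (l 16446976))) (a (b (l 15890528) (l 15855016)) (b (l 1) (a (l 15209696) (l 14677800))))))), by decide +kernel⟩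

theorem c_pp_112 : CertNX 536870912 536870912 1073741824 536870912 1046898278 26843546 3 false true true .dn 1 1 2
    ndN7q1 ndN5q2 pcN1 Cut.none Ext.none :=
  certNX2 (fam := false) (s1 := true) (s2 := true) (a := 1) (b := 1) (c := 2) (cn := .dn) (n1 := ndN7q1) (n2 := ndN5q2) (pc := pcN1) (cut := Cut.none) (xt := Ext.none) (P1 := 536870912) (W1 := 536870912) (P2 := 1073741824) (W2 := 536870912) (P3 := 1046898278) (W3 := 26843546) (N0 := 3)
    rfl (fun _ => rfl) k0_pp_112

noncomputable def f_pp_113 : ℕ → ℕ → ℕ → ℕ → Bool := onCell 536870912 536870912 0 1230186008 1046898278 26843546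
    (rowNX 3 0 false true true .nn 1 1 3 (qsf 536870912 536870912 0 1230186008 1) ndN7q1 ndN5q3 pcN1 Cut.none Ext.none)

def k0_pp_113 : ∃ t, chk3 f_pp_113 t 1 2 1 = true :=
  ⟨(a (l 2) (a (l 2) (b (a (l 2) (a (l 2) (b (c (l 16786288) (a (l 2) (b (l 16767880) (l 16711480)))) (c (l 16601536) (a (l 11868312) (l 11808800)))))) (a (b (a (l 2) (c (l 12409448) (l 10241152))) (a (b (l 2) (l 10875688)) (b (c (l 11599328) (l 10285832)) (c (l 11554824) (l 10607400))))) (b (a (c (b (l 13302424) (l 12135776)) (b (l 10417648) (l 10273296))) (c (b (l 13240600) (l 12087720)) (b (a (l 10458448) (l 10513728)) (l 10451696)))) (a (c (b (a (l 11672976) (l 11747040)) (l 11724136)) (b (l 10515064) (l 10923080))) (c (l 11670376) (b (l 10692296) (l 11101352))))))))), by decide +kernel⟩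

def k1_pp_113 : ∃ t, chk3 f_pp_113 t 2 3 1 = true :=
  ⟨(b (a (l 2) (b (l 2) (a (l 2) (b (l 2) (l 12732200))))) (b (a (l 2) (a (b (l 13165424) (a (l 13785744) (l 13973280))) (b (a (l 13331944) (l 13549664)) (b (l 14181960) (l 14690392))))) (a (b (a (l 2) (b (l 13869120) (l 193368898631))) (a (b (l 13976592) (a (l 14294944) (l 14826280))) (b (l 14759376) (l 15532712)))) (b (a (b (l 14579752) (l 15256992)) (b (l 15179424) (l 15545376))) (a (b (l 15766440) (l 16138832)) (b (l 15809168) (l 15954632))))))), by decide +kernel⟩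

def k2_pp_113 : ∃ t, chk3 f_pp_113 t 3 3 1 = true :=
  ⟨(b (a (b (a (l 2) (b (a (l 2) (l 11257608)) (a (l 11800376) (l 11770672)))) (a (b (a (l 12256408) (l 12320600)) (a (l 12891232) (l 13131856))) (b (a (l 12498504) (l 12477496)) (l 13259744)))) (b (a (a (b (l 11206544) (l 11776200)) (c (b (l 11840720) (l 12246408)) (l 11474240))) (a (c (b (l 11946552) (l 12329656)) (b (l 11424640) (l 12010392))) (b (c (l 12001856) (l 11613464)) (c (l 12376720) (c (l 12209624) (l 12076992)))))) (a (b (a (l 12405472) (l 12585704)) (a (l 13025728) (c (l 13141264) (l 12937064)))) (b (a (c (l 12742320) (l 12551784)) (c (l 12635280) (c (l 12519208) (l 12421024)))) (c (a (l 12822384) (l 12775352)) (a (l 12852912) (c (l 12678328) (l 12593000)))))))) (a (b (a (b (l 13913776) (a (l 14730520) (l 14750864))) (b (a (l 14068576) (l 13812856)) (a (l 14569936) (l 14111336)))) (b (a (b (l 15144160) (l 15292272)) (l 14462864)) (a (l 15373456) (l 14504672)))) (b (a (b (a (l 13420560) (c (l 13307264) (l 13181568)))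 (a (l 13577504) (l 13154856))) (c (a (b (l 12943336) (l 13098104)) (l 12802264)) (a (b (l 12968232) (l 12977160)) (c (l 12708024) (l 12435840))))) (a (a (l 13598760) (c (b (l 13409360) (l 13409360)) (l 13249456))) (c (a (c (l 13145464) (a (l 13183368) (l 13005936))) (b (l 12802264) (l 12802264))) (a (b (l 12977160) (l 12977160)) (b (c (l 12708024) (l 12624584)) (b (a (l 12698528) (l 12584560)) (c (l 12708024) (l 12456808)))))))))), by decide +kernel⟩

theorem s3_pp_113 : ∃ t, chk3 f_pp_113 t 1 3 1 = true := ex3_a k1_pp_113 k2_pp_113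

theorem s4_pp_113 : ∃ t, chk3 f_pp_113 t 1 1 1 = true := ex3_b k0_pp_113 s3_pp_113

theorem c_pp_113 : CertNX 536870912 536870912 0 1230186008 1046898278 26843546 3 false true true .nn 1 1 3
    ndN7q1 ndN5q3 pcN1 Cut.none Ext.none :=
  certNX0 (fam := false) (s1 := true) (s2 := true) (a := 1) (b := 1) (c := 3) (cn := .nn) (n1 := ndN7q1) (n2 := ndN5q3) (pc := pcN1) (cut := Cut.none) (xt := Ext.none) (P1 := 536870912) (W1 := 536870912) (P2 := 0) (W2 := 1230186008) (P3 := 1046898278) (W3 := 26843546) (N0 := 3)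
    rfl s4_pp_113

noncomputable def f_pp_123 : ℕ → ℕ → ℕ → ℕ → Bool := onCell 1073741824 536870912 0 1230186008 1046898278 26843546
    (rowNX 3 2 false true true .npn 1 2 3 (qsf 536870912 536870912 0 1230186008 2) ndN7q1 ndN5q3 pcN2 Cut.none Ext.none)

def k0_pp_123 : ∃ t, chk3 f_pp_123 t 1 1 1 = true :=
  ⟨(b (a (a (b (b (a (a (c (l 16770944) (c (l 14793032) (a (l 13857304) (l 15813800)))) (l 4)) (l 4)) (a (c (a (l 15181768) (c (l 15516880) (a (l 15191248) (l 15485288)))) (a (c (a (l 14359016) (l 14332712)) (l 13196632)) (l 15011136))) (a (c (l 15837088) (l 15664744)) (l 4)))) (a (b (c (a (b (l 13597880) (l 12794696)) (c (l 14228792) (l 13970328))) (a (c (l 13670512) (l 13236472)) (l 13597888))) (c (a (b (l 12292928) (l 11992904)) (a (l 13022784) (l 13420624))) (a (b (l 11392680) (l 11312536)) (l 12790696)))) (b (a (c (l 14753600) (l 14421136)) (l 14982344)) (a (l 13748904) (l 14203744))))) (b (l 4) (a (b (l 4) (a (l 14863752) (l 15444112))) (l 4)))) (l 4)) (a (b (a (a (b (a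 (c (l 12222376) (l 11777216)) (c (l 13082208) (l 12793880))) (c (l 13202296) (a (l 12654584) (l 13281808)))) (b (a (l 13527432) (l 13899280)) (a (l 13785424) (l 14017712)))) (a (b (l 14617624) (a (l 14478872) (l 15126664))) (a (l 15454104) (l 15874400)))) (a (a (b (b (a (l 13425896) (l 13818408)) (a (l 13860936) (l 14083456))) (c (l 14252912) (l 14052896))) (b (a (l 14047560) (l 14237072)) (a (l 14409720) (l 14364760)))) (a (b (l 14878280) (l 476770723015)) (a (l 15753400) (l 16102952))))) (b (a (a (b (l 4) (l 16348744)) (l 4)) (l 4)) (l 1)))), by decide +kernel⟩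

theorem c_pp_123 : CertNX 536870912 536870912 0 1230186008 1046898278 26843546 3 false true true .npn 1 2 3
    ndN7q1 ndN5q3 pcN2 Cut.none Ext.none :=
  certNX2 (fam := false) (s1 := true) (s2 := true) (a := 1) (b := 2) (c := 3) (cn := .npn) (n1 := ndN7q1) (n2 := ndN5q3) (pc := pcN2) (cut := Cut.none) (xt := Ext.none) (P1 := 536870912) (W1 := 536870912) (P2 := 0) (W2 := 1230186008) (P3 := 1046898278) (W3 := 26843546) (N0 := 3)
    rfl (fun _ => rfl) k0_pp_123

noncomputable def f_pp_133 : ℕ → ℕ → ℕ → ℕ → Bool := onCell 1610612736 536870912 0 1230186008 1046898278 26843546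
    (rowNX 3 2 false true true .dn 1 3 3 (qsf 536870912 536870912 0 1230186008 3) ndN7q1 ndN5q3 pcN3 Cut.none Ext.none)

def k0_pp_133 : ∃ t, chk3 f_pp_133 t 1 1 1 = true :=
  ⟨(b (l 4) (l 1)), by decide +kernel⟩

theorem c_pp_133 : CertNX 536870912 536870912 0 1230186008 1046898278 26843546 3 false true true .dn 1 3 3
    ndN7q1 ndN5q3 pcN3 Cut.none Ext.none :=
  certNX2 (fam := false) (s1 := true) (s2 := true) (a := 1) (b := 3) (c := 3) (cn := .dn) (n1 := ndN7q1) (n2 := ndN5q3) (pc := pcN3) (cut := Cut.none) (xt := Ext.none) (P1 := 536870912) (W1 := 536870912) (P2 := 0) (W2 := 1230186008) (P3 := 1046898278) (W3 := 26843546) (N0 := 3)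
    rfl (fun _ => rfl) k0_pp_133

noncomputable def f_pp_202 : ℕ → ℕ → ℕ → ℕ → Bool := onCell 1073741824 536870912 1073741824 536870912 1046898278 26843546
    (rowNX 3 0 false true true .pp 2 0 2 (qsf 1073741824 536870912 1073741824 536870912 0) ndN7q2 ndN5q2 pcN0 Cut.none Ext.none)

def k0_pp_202 : ∃ t, chk3 f_pp_202 t 1 1 1 = true :=
  ⟨(a (b (l 3) (a (b (l 3) (a (a (c (b (l 12823936) (l 12823936)) (a (c (l 12641376) (b (c (l 12592632) (l 12549992)) (l 12570688))) (c (b (l 262152353111) (l 12816816)) (b (l 12752808) (l 12752808))))) (b (a (c (l 13077936) (l 260005149239)) (l 3)) (c (c (l 13206704) (a (l 13058136) (l 13253488))) (c (l 226182500903) (l 12998944))))) (b (l 3) (c (a (c (a (l 13497456) (l 13634312)) (l 13447000)) (l 270207459031)) (a (l 13351848) (l 268596639431)))))) (l 3))) (l 3)), by decide +kernel⟩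

theorem c_pp_202 : CertNX 1073741824 536870912 1073741824 536870912 1046898278 26843546 3 false true true .pp 2 0 2
    ndN7q2 ndN5q2 pcN0 Cut.none Ext.none :=
  certNX0 (fam := false) (s1 := true) (s2 := true) (a := 2) (b := 0) (c := 2) (cn := .pp) (n1 := ndN7q2) (n2 := ndN5q2) (pc := pcN0) (cut := Cut.none) (xt := Ext.none) (P1 := 1073741824) (W1 := 536870912) (P2 := 1073741824) (W2 := 536870912) (P3 := 1046898278) (W3 := 26843546) (N0 := 3)
    rfl k0_pp_202

noncomputable def f_pp_203 : ℕ → ℕ → ℕ → ℕ → Bool := onCell 0 536870912 0 1230186008 1046898278 26843546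
    (rowNX 3 2 false true true .up 2 0 3 (qsf 1073741824 536870912 0 1230186008 0) ndN7q2 ndN5q3 pcN0 Cut.none Ext.none)

def k0_pp_203 : ∃ t, chk3 f_pp_203 t 1 1 1 = true :=
  ⟨(b (a (l 2) (a (l 2) (a (b (l 2) (b (l 16705992) (l 16730136))) (b (l 16746096) (c (l 16721928) (l 16712016)))))) (a (a (l 3) (l 3)) (b (a (l 3) (b (a (c (l 16777168) (l 16777168)) (c (l 16776032) (l 16775992))) (a (a (l 16777200) (b (l 16777184) (l 16734008))) (a (b (l 16765392) (l 16569504)) (b (l 16647704) (l 16275800)))))) (a (b (l 3) (l 3)) (b (a (b (a (l 3) (l 16430872)) (a (l 3) (l 15864448))) (b (a (l 16104664) (l 15751120)) (a (l 15491592) (l 14874992)))) (a (b (a (l 3) (b (l 15342264) (l 14868064))) (a (b (l 3) (l 14165192)) (b (l 14227840) (c (c (a (l 13905608) (l 13565864)) (l 13731416)) (l 13583888))))) (b (a (b (l 14864536) (l 14255672)) (b (l 14249008) (c (a (l 13807432) (l 13655856)) (l 13647888)))) (b (c (a (a (l 13793976) (l 13638376)) (c (b (l 13433040) (l 13321584)) (b (l 13438712) (l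 13217072)))) (a (l 13629048) (l 13285392))) (c (a (c (b (a (l 13586752) (l 13397576)) (l 13286936)) (b (l 13409008) (a (l 13331456) (l 13143208)))) (c (l 13057680) (b (a (l 13164080) (l 13002976)) (l 12895920)))) (a (l 13237688) (c (b (l 12833352) (a (l 12898096) (l 12742288))) (b (l 12943080) (l 12607344))))))))))))), by decide +kernel⟩

theorem c_pp_203 : CertNX 1073741824 536870912 0 1230186008 1046898278 26843546 3 false true true .up 2 0 3
    ndN7q2 ndN5q3 pcN0 Cut.none Ext.none :=
  certNX2 (fam := false) (s1 := true) (s2 := true) (a := 2) (b := 0) (c := 3) (cn := .up) (n1 := ndN7q2) (n2 := ndN5q3) (pc := pcN0) (cut := Cut.none) (xt := Ext.none) (P1 := 1073741824) (W1 := 536870912) (P2 := 0) (W2 := 1230186008) (P3 := 1046898278) (W3 := 26843546) (N0 := 3)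
    rfl (fun _ => rfl) k0_pp_203

noncomputable def f_pp_213 : ℕ → ℕ → ℕ → ℕ → Bool := onCell 1073741824 536870912 0 1230186008 1046898278 26843546
    (rowNX 3 0 false true true .pnn 2 1 3 (qsf 1073741824 536870912 0 1230186008 1) ndN7q2 ndN5q3 pcN1 Cut.none Ext.none)

def k0_pp_213 : ∃ t, chk3 f_pp_213 t 1 2 1 = true :=
  ⟨(a (b (a (a (a (b (a (b (a (c (l 16775840) (a (l 16738480) (l 16701200))) (l 16662408)) (l 16576856)) (c (l 16459264) (l 15675304))) (c (l 15040120) (c (l 13817248) (l 12979280)))) (c (b (l 16062280) (l 15018144)) (b (l 15751752) (l 14438872)))) (b (a (l 15735928) (l 15448024)) (a (l 14901752) (l 14803536)))) (a (b (l 15347160) (l 14924600)) (l 15683368))) (a (a (b (a (c (l 13678232) (b (l 13016256) (l 11775160))) (c (a (l 13540072) (l 13799080)) (l 13192192))) (a (c (l 12333208) (b (l 11712408) (l 11927264))) (c (b (l 13136136) (l 13061968)) (b (l 12810584) (l 12846136))))) (b (a (b (l 14126504) (l 13686576)) (l 14073680)) (a (b (l 13456152) (l 13412664)) (l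 13784992)))) (b (a (l 14810912) (l 15594904)) (a (b (l 14701008) (l 14734496)) (l 15606112))))) (a (b (a (l 16327232) (l 16733248)) (a (b (l 16281944) (l 16299824)) (b (l 16693072) (l 16717120)))) (b (l 16746096) (c (b (l 16713816) (l 322692800727)) (b (l 16692592) (l 333967091895)))))), by decide +kernel⟩

def k1_pp_213 : ∃ t, chk3 f_pp_213 t 1 3 1 = true :=
  ⟨(b (b (a (a (a (a (c (b (l 12490240) (l 12664376)) (b (a (l 12010776) (l 12414104)) (l 12490544))) (c (b (l 13078824) (l 13125088)) (b (l 12922832) (l 12997512)))) (a (b (l 13411840) (l 13423048)) (l 13785704))) (a (l 14744952) (l 15646392))) (a (a (l 16342072) (c (l 16763936) (l 16763464))) (c (l 795676245607) (a (l 16777168) (l 1))))) (a (a (a (a (a (b (l 12603320) (l 12581480)) (c (l 12887456) (b (l 12709432) (l 12730512)))) (c (a (l 13075808) (l 13233360)) (l 12997464))) (a (c (l 13507184) (l 13351832)) (l 13786144))) (a (l 14744976) (a (l 15455472) (c (l 15845736) (l 15812920))))) (a (a (c (l 674342061463) (l 685616320487))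 (c (l 653405178791) (l 664679464391))) (l 1)))) (a (a (a (b (c (a (l 12823936) (c (l 13206704) (l 13068608))) (a (c (l 12729864) (a (l 12570688) (l 12752808))) (l 13041488))) (c (a (b (l 12823936) (l 12823936)) (a (b (l 13077936) (l 13077936)) (c (l 474620584087) (b (l 13253488) (l 13253488))))) (a (b (c (l 12729864) (l 12646720)) (c (a (l 12641376) (l 12816816)) (a (l 374223663735) (l 12752808)))) (b (a (l 12956704) (l 13112504)) (c (l 467103322663) (l 12998944)))))) (a (b (c (c (l 13550640) (l 13447000)) (l 13351848)) (c (c (b (l 13466752) (l 462272453207)) (l 456366665895)) (b (l 13351848) (l 13351848)))) (b (b (l 13786160) (b (l 13786160) (l 13786160))) (b (c (l 13837936) (l 13734504)) (l 1))))) (b (a (c (b (l 14780216) (l 375301824615)) (b (l 14605040) (a (l 14397296) (l 15010376)))) (b (c (l 15666048) (l 15626904)) (l 1))) (a (b (c (l 463885525095) (a (l 14397296) (l 1))) (l 1)) (l 1)))) (l 1))), by decide +kernel⟩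

theorem s2_pp_213 : ∃ t, chk3 f_pp_213 t 1 1 1 = true := ex3_b k0_pp_213 k1_pp_213

theorem c_pp_213 : CertNX 1073741824 536870912 0 1230186008 1046898278 26843546 3 false true true .pnn 2 1 3
    ndN7q2 ndN5q3 pcN1 Cut.none Ext.none :=
  certNX0 (fam := false) (s1 := true) (s2 := true) (a := 2) (b := 1) (c := 3) (cn := .pnn) (n1 := ndN7q2) (n2 := ndN5q3) (pc := pcN1) (cut := Cut.none) (xt := Ext.none) (P1 := 1073741824) (W1 := 536870912) (P2 := 0) (W2 := 1230186008) (P3 := 1046898278) (W3 := 26843546) (N0 := 3)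
    rfl s2_pp_213

noncomputable def f_pp_303 : ℕ → ℕ → ℕ → ℕ → Bool := onCell 0 1230186008 0 1230186008 1046898278 26843546
    (rowNX 3 0 false true true .npn 3 0 3 (qsf 0 1230186008 0 1230186008 0) ndN7q3 ndN5q3 pcN0 Cut.none Ext.none)

def k0_pp_303 : ∃ t, chk3 f_pp_303 t 1 1 1 = true :=
  ⟨(a (b (l 3) (l 3)) (b (a (l 3) (a (b (c (l 374367130551) (a (l 3) (l 16743304))) (l 3)) (b (a (c (l 16754832) (l 16743304)) (b (l 16759448) (l 16753712))) (a (b (l 338396195495) (l 3)) (b (c (l 16713816) (l 16692592)) (c (l 16731112) (l 16729176))))))) (a (l 3) (b (a (l 3) (b (a (l 3) (c (l 322290318951) (l 328732769879))) (l 3))) (l 3))))), by decide +kernel⟩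

theorem c_pp_303 : CertNX 0 1230186008 0 1230186008 1046898278 26843546 3 false true true .npn 3 0 3
    ndN7q3 ndN5q3 pcN0 Cut.none Ext.none :=
  certNX0 (fam := false) (s1 := true) (s2 := true) (a := 3) (b := 0) (c := 3) (cn := .npn) (n1 := ndN7q3) (n2 := ndN5q3) (pc := pcN0) (cut := Cut.none) (xt := Ext.none) (P1 := 0) (W1 := 1230186008) (P2 := 0) (W2 := 1230186008) (P3 := 1046898278) (W3 := 26843546) (N0 := 3)
    rfl k0_pp_303

end Pool.Agent.Strip051.G.IE1.Tab.C.NB75

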