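import Pool.Agent.Strip051.G.IE1.Tab

/-! # Certificates N87 (generated) -/

set_option linter.all false
set_option maxRecDepth 100000

namespace Pool.Agent.Strip051.G.IE1.Tab.C.NB75

open Pool.Agent.Strip051.PB Pool.Agent.Strip051.PB.T
open Pool.Agent.Strip051.G.IE1.Tab

noncomputable def f_pp_313 : ℕ → ℕ → ℕ → ℕ → Bool := onCell 0 1230186008 0 1230186008 1046898278 26843546
    (rowNX 3 0 false true true .dn 3 1 3 (qsf 0 1230186008 0 1230186008 1) ndN7q3 ndN5q3 pcN1 Cut.none Ext.none)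

def k0_pp_313 : ∃ t, chk3 f_pp_313 t 1 1 1 = true :=
  ⟨(a (l 1) (b (a (l 1) (a (l 1) (b (a (l 1) (l 1782445144183)) (l 1)))) (l 1))), by decide +kernel⟩

theorem c_pp_313 : CertNX 0 1230186008 0 1230186008 1046898278 26843546 3 false true true .dn 3 1 3
    ndN7q3 ndN5q3 pcN1 Cut.none Ext.none :=
  certNX0 (fam := false) (s1 := true) (s2 := true) (a := 3) (b := 1) (c := 3) (cn := .dn) (n1 := ndN7q3) (n2 := ndN5q3) (pc := pcN1) (cut := Cut.none) (xt := Ext.none) (P1 := 0) (W1 := 1230186008) (P2 := 0) (W2 := 1230186008) (P3 := 1046898278) (W3 := 26843546) (N0 := 3)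
    rfl k0_pp_313

noncomputable def f_pm_001 : ℕ → ℕ → ℕ → ℕ → Bool := onCell 0 536870912 536870912 469762048 1046898278 26843546
    (rowNX 3 0 false true false .up 0 0 1 (qsf 0 536870912 536870912 469762048 0) ndN7q0 ndN5q1 pcN0 Cut.none Ext.none)

def k0_pm_001 : ∃ t, chk3 f_pm_001 t 1 1 1 = true :=
  ⟨(l 4), by decide +kernel⟩

theorem c_pm_001 : CertNX 0 536870912 536870912 469762048 1046898278 26843546 3 false true false .up 0 0 1
    ndN7q0 ndN5q1 pcN0 Cut.none Ext.none :=
  certNX0 (fam := false) (s1 := true) (s2 := false) (a := 0) (b := 0) (c := 1) (cn := .up) (n1 := ndN7q0) (n2 := ndN5q1) (pc := pcN0) (cut := Cut.none) (xt := Ext.none) (P1 := 0) (W1 := 536870912) (P2 := 536870912) (W2 := 469762048) (P3 := 1046898278) (W3 := 26843546) (N0 := 3)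
    rfl k0_pm_001

noncomputable def f_pm_011 : ℕ → ℕ → ℕ → ℕ → Bool := onCell 0 536870912 536870912 469762048 1046898278 26843546
    (rowNX 3 0 false true false .pnn 0 1 1 (qsf 0 536870912 536870912 469762048 1) ndN7q0 ndN5q1 pcN1 Cut.none Ext.none)

def k0_pm_011 : ∃ t, chk3 f_pm_011 t 1 1 1 = true :=
  ⟨(l 4), by decide +kernel⟩

theorem c_pm_011 : CertNX 0 536870912 536870912 469762048 1046898278 26843546 3 false true false .pnn 0 1 1
    ndN7q0 ndN5q1 pcN1 Cut.none Ext.none :=
  certNX0 (fam := false) (s1 := true) (s2 := false) (a := 0) (b := 1) (c := 1) (cn := .pnn) (n1 := ndN7q0) (n2 := ndN5q1) (pc := pcN1) (cut := Cut.none) (xt := Ext.none) (P1 := 0) (W1 := 536870912) (P2 := 536870912) (W2 := 469762048) (P3 := 1046898278) (W3 := 26843546) (N0 := 3)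
    rfl k0_pm_011

noncomputable def f_pm_012 : ℕ → ℕ → ℕ → ℕ → Bool := onCell 0 536870912 1073741824 536870912 1046898278 26843546
    (rowNX 3 0 false true false .pnp 0 1 2 (qsf 0 536870912 1073741824 536870912 1) ndN7q0 ndN5q2 pcN1 Cut.none Ext.none)

def k0_pm_012 : ∃ t, chk3 f_pm_012 t 1 1 1 = true :=
  ⟨(l 4), by decide +kernel⟩

theorem c_pm_012 : CertNX 0 536870912 1073741824 536870912 1046898278 26843546 3 false true false .pnp 0 1 2
    ndN7q0 ndN5q2 pcN1 Cut.none Ext.none :=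
  certNX0 (fam := false) (s1 := true) (s2 := false) (a := 0) (b := 1) (c := 2) (cn := .pnp) (n1 := ndN7q0) (n2 := ndN5q2) (pc := pcN1) (cut := Cut.none) (xt := Ext.none) (P1 := 0) (W1 := 536870912) (P2 := 1073741824) (W2 := 536870912) (P3 := 1046898278) (W3 := 26843546) (N0 := 3)
    rfl k0_pm_012

noncomputable def f_pm_022 : ℕ → ℕ → ℕ → ℕ → Bool := onCell 0 536870912 1073741824 536870912 1046898278 26843546
    (rowNX 3 0 false true false .pp 0 2 2 (qsf 0 536870912 1073741824 536870912 2) ndN7q0 ndN5q2 pcN2 Cut.none Ext.none)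

def k0_pm_022 : ∃ t, chk3 f_pm_022 t 1 1 1 = true :=
  ⟨(l 4), by decide +kernel⟩

theorem c_pm_022 : CertNX 0 536870912 1073741824 536870912 1046898278 26843546 3 false true false .pp 0 2 2
    ndN7q0 ndN5q2 pcN2 Cut.none Ext.none :=
  certNX0 (fam := false) (s1 := true) (s2 := false) (a := 0) (b := 2) (c := 2) (cn := .pp) (n1 := ndN7q0) (n2 := ndN5q2) (pc := pcN2) (cut := Cut.none) (xt := Ext.none) (P1 := 0) (W1 := 536870912) (P2 := 1073741824) (W2 := 536870912) (P3 := 1046898278) (W3 := 26843546) (N0 := 3)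
    rfl k0_pm_022

noncomputable def f_pm_023 : ℕ → ℕ → ℕ → ℕ → Bool := onCell 0 536870912 0 1230186008 1046898278 26843546
    (rowNX 3 0 false true false .up 0 2 3 (qsf 0 536870912 0 1230186008 2) ndN7q0 ndN5q3 pcN2 Cut.none Ext.none)

def k0_pm_023 : ∃ t, chk3 f_pm_023 t 1 1 1 = true :=
  ⟨(b (l 4) (l 4)), by decide +kernel⟩

theorem c_pm_023 : CertNX 0 536870912 0 1230186008 1046898278 26843546 3 false true false .up 0 2 3
    ndN7q0 ndN5q3 pcN2 Cut.none Ext.none :=
  certNX0 (fam := false) (s1 := true) (s2 := false) (a := 0) (b := 2) (c := 3) (cn := .up) (n1 := ndN7q0) (n2 := ndN5q3) (pc := pcN2) (cut := Cut.none) (xt := Ext.none) (P1 := 0) (W1 := 536870912) (P2 := 0) (W2 := 1230186008) (P3 := 1046898278) (W3 := 26843546) (N0 := 3)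
    rfl k0_pm_023

noncomputable def f_pm_033 : ℕ → ℕ → ℕ → ℕ → Bool := onCell 0 536870912 0 1230186008 1046898278 26843546
    (rowNX 3 0 false true false .pnn 0 3 3 (qsf 0 536870912 0 1230186008 3) ndN7q0 ndN5q3 pcN3 Cut.none Ext.none)

def k0_pm_033 : ∃ t, chk3 f_pm_033 t 1 1 1 = true :=
  ⟨(b (l 4) (l 4)), by decide +kernel⟩

theorem c_pm_033 : CertNX 0 536870912 0 1230186008 1046898278 26843546 3 false true false .pnn 0 3 3
    ndN7q0 ndN5q3 pcN3 Cut.none Ext.none :=
  certNX0 (fam := false) (s1 := true) (s2 := false) (a := 0) (b := 3) (c := 3) (cn := .pnn) (n1 := ndN7q0) (n2 := ndN5q3) (pc := pcN3) (cut := Cut.none) (xt := Ext.none) (P1 := 0) (W1 := 536870912) (P2 := 0) (W2 := 1230186008) (P3 := 1046898278) (W3 := 26843546) (N0 := 3)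
    rfl k0_pm_033

noncomputable def f_pm_101 : ℕ → ℕ → ℕ → ℕ → Bool := onCell 536870912 536870912 536870912 469762048 1046898278 26843546
    (rowNX 3 0 false true false .npn 1 0 1 (qsf 536870912 536870912 536870912 469762048 0) ndN7q1 ndN5q1 pcN0 Cut.none Ext.none)

def k0_pm_101 : ∃ t, chk3 f_pm_101 t 1 1 1 = true :=
  ⟨(l 4), by decide +kernel⟩

theorem c_pm_101 : CertNX 536870912 536870912 536870912 469762048 1046898278 26843546 3 false true false .npn 1 0 1
    ndN7q1 ndN5q1 pcN0 Cut.none Ext.none :=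
  certNX0 (fam := false) (s1 := true) (s2 := false) (a := 1) (b := 0) (c := 1) (cn := .npn) (n1 := ndN7q1) (n2 := ndN5q1) (pc := pcN0) (cut := Cut.none) (xt := Ext.none) (P1 := 536870912) (W1 := 536870912) (P2 := 536870912) (W2 := 469762048) (P3 := 1046898278) (W3 := 26843546) (N0 := 3)
    rfl k0_pm_101

noncomputable def f_pm_102 : ℕ → ℕ → ℕ → ℕ → Bool := onCell 536870912 536870912 1073741824 536870912 1046898278 26843546
    (rowNX 3 0 false true false .npp 1 0 2 (qsf 536870912 536870912 1073741824 536870912 0) ndN7q1 ndN5q2 pcN0 Cut.none Ext.none)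

def k0_pm_102 : ∃ t, chk3 f_pm_102 t 1 1 1 = true :=
  ⟨(l 4), by decide +kernel⟩

theorem c_pm_102 : CertNX 536870912 536870912 1073741824 536870912 1046898278 26843546 3 false true false .npp 1 0 2
    ndN7q1 ndN5q2 pcN0 Cut.none Ext.none :=
  certNX0 (fam := false) (s1 := true) (s2 := false) (a := 1) (b := 0) (c := 2) (cn := .npp) (n1 := ndN7q1) (n2 := ndN5q2) (pc := pcN0) (cut := Cut.none) (xt := Ext.none) (P1 := 536870912) (W1 := 536870912) (P2 := 1073741824) (W2 := 536870912) (P3 := 1046898278) (W3 := 26843546) (N0 := 3)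
    rfl k0_pm_102

noncomputable def f_pm_112 : ℕ → ℕ → ℕ → ℕ → Bool := onCell 536870912 536870912 1073741824 536870912 1046898278 26843546
    (rowNX 3 0 false true false .dn 1 1 2 (qsf 536870912 536870912 1073741824 536870912 1) ndN7q1 ndN5q2 pcN1 Cut.none Ext.none)

def k0_pm_112 : ∃ t, chk3 f_pm_112 t 1 1 1 = true :=
  ⟨(l 4), by decide +kernel⟩

theorem c_pm_112 : CertNX 536870912 536870912 1073741824 536870912 1046898278 26843546 3 false true false .dn 1 1 2
    ndN7q1 ndN5q2 pcN1 Cut.none Ext.none :=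
  certNX0 (fam := false) (s1 := true) (s2 := false) (a := 1) (b := 1) (c := 2) (cn := .dn) (n1 := ndN7q1) (n2 := ndN5q2) (pc := pcN1) (cut := Cut.none) (xt := Ext.none) (P1 := 536870912) (W1 := 536870912) (P2 := 1073741824) (W2 := 536870912) (P3 := 1046898278) (W3 := 26843546) (N0 := 3)
    rfl k0_pm_112

noncomputable def f_pm_113 : ℕ → ℕ → ℕ → ℕ → Bool := onCell 536870912 536870912 0 1230186008 1046898278 26843546
    (rowNX 3 0 false true false .nn 1 1 3 (qsf 536870912 536870912 0 1230186008 1) ndN7q1 ndN5q3 pcN1 Cut.none Ext.none)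

def k0_pm_113 : ∃ t, chk3 f_pm_113 t 1 1 1 = true :=
  ⟨(b (a (l 2) (a (l 2) (b (a (l 2) (a (l 2) (a (l 4) (b (a (l 2) (b (l 16761784) (l 4))) (l 4))))) (l 4)))) (l 4)), by decide +kernel⟩

theorem c_pm_113 : CertNX 536870912 536870912 0 1230186008 1046898278 26843546 3 false true false .nn 1 1 3
    ndN7q1 ndN5q3 pcN1 Cut.none Ext.none :=
  certNX0 (fam := false) (s1 := true) (s2 := false) (a := 1) (b := 1) (c := 3) (cn := .nn) (n1 := ndN7q1) (n2 := ndN5q3) (pc := pcN1) (cut := Cut.none) (xt := Ext.none) (P1 := 536870912) (W1 := 536870912) (P2 := 0) (W2 := 1230186008) (P3 := 1046898278) (W3 := 26843546) (N0 := 3)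
    rfl k0_pm_113

noncomputable def f_pm_123 : ℕ → ℕ → ℕ → ℕ → Bool := onCell 536870912 536870912 0 1230186008 1046898278 26843546
    (rowNX 3 0 false true false .npn 1 2 3 (qsf 536870912 536870912 0 1230186008 2) ndN7q1 ndN5q3 pcN2 Cut.none Ext.none)

def k0_pm_123 : ∃ t, chk3 f_pm_123 t 1 1 1 = true :=
  ⟨(b (a (l 4) (b (a (l 4) (a (l 4) (a (l 4) (a (l 4) (b (a (l 4) (l 16779960)) (l 4)))))) (l 4))) (l 4)), by decide +kernel⟩

theorem c_pm_123 : CertNX 536870912 536870912 0 1230186008 1046898278 26843546 3 false true false .npn 1 2 3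
    ndN7q1 ndN5q3 pcN2 Cut.none Ext.none :=
  certNX0 (fam := false) (s1 := true) (s2 := false) (a := 1) (b := 2) (c := 3) (cn := .npn) (n1 := ndN7q1) (n2 := ndN5q3) (pc := pcN2) (cut := Cut.none) (xt := Ext.none) (P1 := 536870912) (W1 := 536870912) (P2 := 0) (W2 := 1230186008) (P3 := 1046898278) (W3 := 26843546) (N0 := 3)
    rfl k0_pm_123

noncomputable def f_pm_133 : ℕ → ℕ → ℕ → ℕ → Bool := onCell 1610612736 536870912 0 1230186008 1046898278 26843546
    (rowNX 3 2 false true false .dn 1 3 3 (qsf 536870912 536870912 0 1230186008 3) ndN7q1 ndN5q3 pcN3 Cut.none Ext.none)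

def k0_pm_133 : ∃ t, chk3 f_pm_133 t 1 1 1 = true :=
  ⟨(b (l 4) (l 1)), by decide +kernel⟩

theorem c_pm_133 : CertNX 536870912 536870912 0 1230186008 1046898278 26843546 3 false true false .dn 1 3 3
    ndN7q1 ndN5q3 pcN3 Cut.none Ext.none :=
  certNX2 (fam := false) (s1 := true) (s2 := false) (a := 1) (b := 3) (c := 3) (cn := .dn) (n1 := ndN7q1) (n2 := ndN5q3) (pc := pcN3) (cut := Cut.none) (xt := Ext.none) (P1 := 536870912) (W1 := 536870912) (P2 := 0) (W2 := 1230186008) (P3 := 1046898278) (W3 := 26843546) (N0 := 3)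
    rfl (fun _ => rfl) k0_pm_133

noncomputable def f_pm_202 : ℕ → ℕ → ℕ → ℕ → Bool := onCell 0 536870912 1073741824 536870912 1046898278 26843546
    (rowNX 3 2 false true false .pp 2 0 2 (qsf 1073741824 536870912 1073741824 536870912 0) ndN7q2 ndN5q2 pcN0 Cut.none Ext.none)

def k0_pm_202 : ∃ t, chk3 f_pm_202 t 1 1 1 = true :=
  ⟨(a (b (l 4) (b (l 4) (b (l 4) (a (a (a (a (c (l 16679056) (l 16676720)) (l 16715112)) (l 16747560)) (a (l 16773328) (l 4))) (l 4))))) (l 4)), by decide +kernel⟩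

theorem c_pm_202 : CertNX 1073741824 536870912 1073741824 536870912 1046898278 26843546 3 false true false .pp 2 0 2
    ndN7q2 ndN5q2 pcN0 Cut.none Ext.none :=
  certNX2 (fam := false) (s1 := true) (s2 := false) (a := 2) (b := 0) (c := 2) (cn := .pp) (n1 := ndN7q2) (n2 := ndN5q2) (pc := pcN0) (cut := Cut.none) (xt := Ext.none) (P1 := 1073741824) (W1 := 536870912) (P2 := 1073741824) (W2 := 536870912) (P3 := 1046898278) (W3 := 26843546) (N0 := 3)
    rfl (fun _ => rfl) k0_pm_202

noncomputable def f_pm_203 : ℕ → ℕ → ℕ → ℕ → Bool := onCell 1073741824 536870912 0 1230186008 1046898278 26843546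
    (rowNX 3 0 false true false .up 2 0 3 (qsf 1073741824 536870912 0 1230186008 0) ndN7q2 ndN5q3 pcN0 Cut.none Ext.none)

def k0_pm_203 : ∃ t, chk3 f_pm_203 t 1 1 1 = true :=
  ⟨(b (a (l 2) (a (l 2) (b (l 16746096) (l 16906032)))) (b (a (a (l 2) (a (l 2) (l 15646464))) (a (a (l 16342152) (l 16763776)) (c (l 16777184) (l 16777184)))) (a (l 4) (b (a (l 16563512) (a (l 16771016) (b (l 16753752) (l 16623264)))) (a (a (l 4) (b (l 16763768) (l 4))) (b (a (l 16734688) (l 16553968)) (a (a (l 16768168) (b (l 16714656) (b (l 16739592) (l 16756008)))) (b (a (l 16618616) (l 16508248)) (a (b (l 16649152) (l 16668824)) (a (l 16571936) (c (l 16509504) (l 16503920)))))))))))), by decide +kernel⟩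

theorem c_pm_203 : CertNX 1073741824 536870912 0 1230186008 1046898278 26843546 3 false true false .up 2 0 3
    ndN7q2 ndN5q3 pcN0 Cut.none Ext.none :=
  certNX0 (fam := false) (s1 := true) (s2 := false) (a := 2) (b := 0) (c := 3) (cn := .up) (n1 := ndN7q2) (n2 := ndN5q3) (pc := pcN0) (cut := Cut.none) (xt := Ext.none) (P1 := 1073741824) (W1 := 536870912) (P2 := 0) (W2 := 1230186008) (P3 := 1046898278) (W3 := 26843546) (N0 := 3)
    rfl k0_pm_203

noncomputable def f_pm_213 : ℕ → ℕ → ℕ → ℕ → Bool := onCell 536870912 536870912 0 1230186008 1046898278 26843546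
    (rowNX 3 2 false true false .pnn 2 1 3 (qsf 1073741824 536870912 0 1230186008 1) ndN7q2 ndN5q3 pcN1 Cut.none Ext.none)

def k0_pm_213 : ∃ t, chk3 f_pm_213 t 2 2 1 = true :=
  ⟨(b (a (l 16746096) (a (l 16670592) (l 16220640))) (a (b (l 16701288) (l 16656624)) (b (l 16191336) (a (b (l 16252704) (l 15985944)) (a (l 15619872) (l 15098456)))))), by decide +kernel⟩

def k1_pm_213 : ∃ t, chk3 f_pm_213 t 6 2 1 = true :=
  ⟨(a (b (a (l 15699120) (b (l 15570384) (l 15449984))) (b (a (b (l 15429320) (l 15229328)) (b (l 14946992) (a (l 15200080) (l 15085128)))) (a (b (l 15046888) (l 14480744)) (b (a (l 14647456) (l 14493208)) (l 4))))) (b (b (l 15406216) (b (l 15276176) (a (b (l 15198336) (a (l 15221776) (l 15109824))) (a (a (b (l 15145784) (a (l 15019672) (l 15162712))) (b (l 14994992) (l 15152616))) (b (c (l 15251008) (l 15057968)) (l 15370312)))))) (b (a (b (a (l 15008472) (l 15211080)) (l 14835960)) (b (a (l 15277000) (l 15080728)) (l 14454520))) (a (b (l 14129256) (l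 4)) (l 4))))), by decide +kernel⟩

def k2_pm_213 : ∃ t, chk3 f_pm_213 t 7 2 1 = true :=
  ⟨(a (b (a (b (l 15531016) (a (b (l 15445696) (b (c (l 15308448) (l 15082080)) (l 15477288))) (a (b (c (l 15711336) (l 15472344)) (l 15474480)) (b (a (c (l 15769160) (l 15517536)) (c (l 15789024) (l 15496576))) (l 15462208))))) (c (b (a (l 15840064) (a (l 15909464) (l 15931200))) (c (a (b (l 15821888) (l 15420872)) (a (l 15403192) (l 15348232))) (b (a (l 15634496) (b (l 15723760) (l 15631720))) (a (l 15302288) (l 14939456))))) (b (l 15823808) (b (a (l 15419240) (l 15269088)) (l 14877928))))) (b (b (a (a (l 14908536) (c (l 14738768) (l 14446120))) (c (c (a (l 14538968) (l 4)) (l 14069424)) (l 13616584))) (l 4)) (l 4))) (b (b (a (a (c (c (l 16131120) (l 16075696)) (l 15933984)) (b (l 16202304) (c (l 16316088) (c (c (l 15998296) (l 15880072)) (l 15693000))))) (c (a (l 16609720) (l 16773968)) (c (a (a (b (l 16413232) (l 15901136)) (l 16063008)) (l 16719272)) (a (l 15495368) (c (l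 15109856) (a (l 13145480) (l 14196112))))))) (a (c (a (c (l 15290240) (b (a (l 15554480) (l 15553928)) (l 14597520))) (l 14740200)) (a (b (l 15186800) (l 14014296)) (c (b (l 15023600) (l 4)) (l 13065016)))) (b (l 4) (l 4)))) (l 4))), by decide +kernel⟩

def k3_pm_213 : ∃ t, chk3 f_pm_213 t 1 3 1 = true :=
  ⟨(a (b (a (b (a (l 16619104) (l 16137928)) (a (l 15998352) (l 15177680))) (b (a (l 15388992) (b (l 14689720) (l 4))) (l 4))) (l 4)) (b (b (l 4) (l 4)) (l 1))), by decide +kernel⟩

theorem s4_pm_213 : ∃ t, chk3 f_pm_213 t 3 2 1 = true := ex3_a k1_pm_213 k2_pm_213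

theorem s5_pm_213 : ∃ t, chk3 f_pm_213 t 1 2 1 = true := ex3_a k0_pm_213 s4_pm_213

theorem s6_pm_213 : ∃ t, chk3 f_pm_213 t 1 1 1 = true := ex3_b s5_pm_213 k3_pm_213

theorem c_pm_213 : CertNX 1073741824 536870912 0 1230186008 1046898278 26843546 3 false true false .pnn 2 1 3
    ndN7q2 ndN5q3 pcN1 Cut.none Ext.none :=
  certNX2 (fam := false) (s1 := true) (s2 := false) (a := 2) (b := 1) (c := 3) (cn := .pnn) (n1 := ndN7q2) (n2 := ndN5q3) (pc := pcN1) (cut := Cut.none) (xt := Ext.none) (P1 := 1073741824) (W1 := 536870912) (P2 := 0) (W2 := 1230186008) (P3 := 1046898278) (W3 := 26843546) (N0 := 3)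
    rfl (fun _ => rfl) s6_pm_213

noncomputable def f_pm_303 : ℕ → ℕ → ℕ → ℕ → Bool := onCell 0 1230186008 0 1230186008 1046898278 26843546
    (rowNX 3 0 false true false .npn 3 0 3 (qsf 0 1230186008 0 1230186008 0) ndN7q3 ndN5q3 pcN0 Cut.none Ext.none)

def k0_pm_303 : ∃ t, chk3 f_pm_303 t 2 1 1 = true :=
  ⟨(b (l 3) (b (l 3) (l 1))), by decide +kernel⟩

def k1_pm_303 : ∃ t, chk3 f_pm_303 t 3 2 1 = true :=
  ⟨(a (b (l 3) (a (l 3) (a (b (l 3) (l 3)) (b (a (l 3) (b (l 3) (l 16426304))) (b (a (l 15928048) (l 16188776)) (a (b (l 15760208) (a (l 15572224) (l 15741888))) (b (l 16062992) (a (l 15899352) (l 16172704))))))))) (a (b (a (c (l 16754832) (l 16743304)) (c (l 16754832) (l 16743304))) (a (b (a (b (l 16725344) (a (l 16598264) (l 16667560))) (l 16708664)) (b (a (a (l 16419008) (l 16562688)) (a (l 16671328) (l 16699104))) (a (a (l 16391024) (l 16561088)) (b (l 16706160) (l 16733368))))) (b (l 16705992) (b (l 16701296) (a (b (l 16748368) (l 16774208)) (l 16763048))))))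 (b (a (b (l 16759448) (l 16753712)) (l 16746096)) (a (l 16717288) (l 16885064))))), by decide +kernel⟩

def k2_pm_303 : ∃ t, chk3 f_pm_303 t 12 6 1 = true :=
  ⟨(b (b (l 3) (l 3)) (b (b (b (b (b (l 3) (l 1)) (l 1)) (l 1)) (l 1)) (l 1))), by decide +kernel⟩

def k3_pm_303 : ∃ t, chk3 f_pm_303 t 26 24 1 = true :=
  ⟨(a (l 3) (b (c (l 15090072) (l 15030752)) (a (c (b (l 14742072) (a (a (l 3) (l 14566160)) (l 14645600))) (l 14607744)) (b (c (l 15028856) (l 14967416)) (c (l 14876056) (l 14809224)))))), by decide +kernel⟩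

def k4_pm_303 : ∃ t, chk3 f_pm_303 t 26 25 1 = true :=
  ⟨(a (a (b (l 3) (a (b (l 3) (c (l 14088608) (c (l 14027472) (c (b (c (l 14023336) (l 14005896)) (l 13975648)) (b (l 13982880) (c (a (l 13943784) (l 13966152)) (l 13945328))))))) (c (b (l 14221336) (b (l 14151568) (l 14112408))) (c (b (b (l 3) (c (l 14151160) (c (l 14134392) (l 14128432)))) (c (l 14087968) (b (l 14088736) (l 14051176)))) (b (l 14111704) (c (b (l 208467979079) (c (l 14034016) (l 13936368))) (l 14013784))))))) (c (b (b (a (l 3) (c (c (l 14540448) (l 14509232)) (l 14445504))) (c (l 14408080) (c (a (b (l 3) (l 14333824)) (b (l 14429480) (l 14402144))) (a (l 406037798087) (l 14381560))))) (b (c (l 14320816) (c (l 14300872) (a (l 14252408) (b (l 14334368) (l 14285400))))) (b (l 14245928) (l 14202072)))) (b (l 14329720) (c (b (c (a (b (l 14264312) (c (l 14218024) (l 14214360))) (l 14274744)) (l 14231992)) (c (a (l 14142552) (l 14210808)) (a (b (c (l 14152760) (l 14147184)) (l 14108368)) (l 14181248))))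 (b (l 14192608) (b (l 14140360) (l 14106448))))))) (a (c (b (c (b (b (a (l 14570704) (l 14607696)) (c (l 14596264) (l 14557944))) (c (a (l 14503152) (l 14568856)) (a (l 14489712) (l 14533808)))) (b (l 14544536) (c (l 14487576) (l 14446448)))) (c (b (l 14458120) (l 14362184)) (b (c (a (l 14399984) (l 14460304)) (l 14404872)) (a (l 14295016) (l 14381680))))) (b (l 14416424) (b (l 14349184) (b (l 14290712) (l 14261400))))) (b (b (c (b (l 14768640) (l 14708784)) (l 14680520)) (c (a (l 14592584) (b (l 14685848) (l 14647040))) (l 14564152))) (c (b (c (c (l 14576288) (l 14561760)) (l 14529752)) (c (l 14507912) (l 14475848))) (l 14424216))))), by decide +kernel⟩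

def k5_pm_303 : ∃ t, chk3 f_pm_303 t 27 12 1 = true :=
  ⟨(b (a (b (a (c (l 15498168) (l 15453232)) (l 15697144)) (a (b (c (l 15346240) (l 15295952)) (l 15316112)) (c (l 15839272) (l 15871456)))) (b (l 16197616) (a (c (l 16348408) (l 16333344)) (l 16565576)))) (b (a (a (b (l 15187184) (a (c (b (l 14892424) (l 14754480)) (l 14764064)) (l 15045568))) (b (c (l 15825328) (l 15791856)) (c (l 15465792) (l 15419656)))) (b (a (b (c (l 16444888) (l 16433208)) (l 16277472)) (l 16488304)) (a (l 15895352) (l 16198664)))) (b (a (a (c (a (l 14662184) (l 14774568)) (l 14649296)) (a (l 14908632) (l 15167968))) (a (l 15448664) (l 15620344))) (a (a (c (l 14618032) (l 14550888)) (b (a (l 14747744) (l 14885456)) (c (l 14797216) (l 14702808)))) (c (l 15336464) (l 15270336)))))), by decide +kernel⟩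

def k6_pm_303 : ∃ t, chk3 f_pm_303 t 13 26 1 = true :=
  ⟨(a (a (b (c (b (a (b (l 14058928) (l 14023688)) (b (b (l 14168216) (l 14165136)) (a (l 14131016) (l 14191312)))) (a (l 13907728) (l 14077968))) (a (b (b (a (c (l 13965344) (c (l 13931376) (c (l 13915216) (a (l 13888424) (l 13830016))))) (c (l 13942224) (c (l 13993672) (l 13972824)))) (c (l 13940688) (c (l 13916168) (l 13906016)))) (l 13608672)) (b (c (a (b (l 14068584) (l 14062128)) (l 14151824)) (b (l 14072624) (l 14069304))) (c (l 14055976) (b (l 14050008) (l 13873456)))))) (c (l 13822024) (l 1423271790423))) (b (c (b (a (b (l 14304264) (c (l 14301392) (l 14248944))) (l 14409688)) (a (c (l 14248656) (b (l 14232480) (l 14236280))) (b (l 14347288) (l 14377208)))) (b (l 14297272) (a (c (b (l 14221888) (l 14206880)) (l 14183096)) (l 14295968)))) (a (b (c (l 14195080) (c (a (l 14119064) (l 14211832)) (b (a (l 14123168) (l 14195936)) (l 14129344)))) (l 1379249000967)) (b (b (c (l 14370392) (l 14302464)) (c (l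 14357160) (c (l 14313696) (l 14285264)))) (c (l 14301000) (b (c (l 14292664) (a (l 14231920) (l 14304064))) (a (l 14191760) (c (l 14307912) (l 14286360))))))))) (a (b (c (b (l 14640440) (l 14559880)) (l 14562352)) (c (b (a (c (l 14493888) (l 14460384)) (l 14580736)) (a (b (c (l 14489216) (l 14456936)) (a (l 14429832) (l 14510704))) (b (l 14570896) (c (l 14592664) (l 14556216))))) (b (l 14509304) (b (c (l 14503992) (l 14474512)) (a (c (a (l 14389912) (l 14456640)) (l 14396296)) (l 14509992)))))) (c (b (b (a (l 14897736) (l 15236616)) (a (l 14821560) (l 15045200))) (b (a (l 14763880) (l 14922312)) (c (l 14781376) (l 14789096)))) (b (a (l 14822344) (l 15094232)) (b (l 14793424) (l 14760632)))))), by decide +kernel⟩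

def k7_pm_303 : ∃ t, chk3 f_pm_303 t 13 27 1 = true :=
  ⟨(a (a (l 1) (b (b (c (l 14091816) (l 14058888)) (l 1)) (l 1))) (a (b (a (b (b (c (l 14428584) (b (a (l 14366288) (a (l 14425312) (l 14464640))) (l 14382776))) (l 14382064)) (l 14287592)) (c (l 14536528) (b (l 14509656) (l 14476824)))) (l 1205840102327)) (b (c (b (l 14767560) (a (l 14673584) (l 14799456))) (c (l 14717736) (l 14694136))) (b (a (c (l 14621664) (l 14585712)) (c (l 14778176) (l 14724008))) (a (l 14509736) (c (l 14728568) (b (l 14710208) (l 14685528)))))))), by decide +kernel⟩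

def k8_pm_303 : ∃ t, chk3 f_pm_303 t 6 7 1 = true :=
  ⟨(a (l 1) (b (a (l 1) (b (b (a (l 1) (l 1312677998311)) (l 1)) (l 1))) (l 1))), by decide +kernel⟩

def k9_pm_303 : ∃ t, chk3 f_pm_303 t 7 6 1 = true :=
  ⟨(a (b (a (b (a (b (l 16693440) (b (l 16755520) (l 16679256))) (b (l 16770560) (l 16726568))) (a (b (l 16385112) (b (a (b (l 16100456) (l 16006896)) (l 16177320)) (a (l 15836744) (l 16069352)))) (b (l 16495688) (l 16281176)))) (b (a (l 16752736) (a (l 16766384) (l 16770816))) (a (b (l 16595456) (l 16468528)) (l 16669928)))) (b (a (a (a (b (l 15458840) (b (c (l 15161384) (l 15106248)) (b (b (l 14857280) (l 15005584)) (l 14992344)))) (b (b (l 15893360) (l 15659928)) (b (l 15427272) (l 15242216)))) (b (a (b (l 16073760) (l 15932016)) (l 16123912)) (b (a (l 15735576) (l 15966256)) (l 15667528)))) (a (b (l 16279376) (b (l 16144784) (l 16061360))) (l 16396216))) (a (a (b (c (l 15004384) (l 14971024)) (c (a (b (l 14902792) (l 14882720)) (l 15025360)) (a (b (l 14825744)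 (l 14831120)) (l 14984008)))) (b (l 15428336) (b (l 15228712) (l 15183704)))) (a (b (l 15870440) (a (l 15492656) (l 15704024))) (l 16014992))))) (b (a (b (l 16777200) (a (b (l 16769040) (l 16723104)) (l 16777136))) (l 16777168)) (a (b (a (l 16569368) (l 16710824)) (l 16386056)) (b (l 16775176) (l 16700184))))), by decide +kernel⟩

def k10_pm_303 : ∃ t, chk3 f_pm_303 t 14 7 1 = true :=
  ⟨(b (b (a (b (b (a (a (c (l 14835552) (b (l 14818536) (l 14795168))) (c (l 14987200) (l 14938168))) (c (l 15180040) (l 15141904))) (a (a (l 14733328) (c (l 14942592) (b (l 14926864) (l 14904904)))) (a (c (l 15090760) (l 15052960)) (l 15174552)))) (a (l 14599984) (b (a (c (l 15050000) (b (l 15036560) (l 15014488))) (c (l 15195104) (l 15054888))) (a (l 14968992) (c (l 15157640) (a (l 15096616) (l 15171720))))))) (a (b (a (l 15331216) (l 15485040)) (a (b (l 15278064) (c (l 15299296) (c (l 15276216) (l 15259560)))) (c (l 15421368) (l 15401480)))) (b (a (l 15677688) (l 15848688)) (a (l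 15529224) (l 15680640))))) (a (b (a (l 1) (l 14959976)) (l 1)) (b (a (a (b (b (c (l 15281856) (l 15462712)) (l 15246600)) (l 15194488)) (b (c (l 15403312) (c (l 15381936) (l 15366464))) (c (l 15372776) (a (l 15316408) (b (l 15394320) (l 15384584)))))) (a (b (l 15484488) (c (l 15507112) (a (l 15450472) (l 15509544)))) (c (l 15623328) (l 15607144)))) (a (l 15196224) (b (a (c (l 15480232) (a (l 15426296) (b (l 15501384) (l 15493200)))) (c (l 15610680) (a (l 15556936) (l 15614600)))) (a (l 15420904) (c (l 15591448) (b (a (l 15547472) (l 15608256)) (l 15566192))))))))) (a (l 1) (b (b (a (l 1) (b (l 15450888) (l 1))) (l 1)) (l 1)))), by decide +kernel⟩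

def k11_pm_303 : ∃ t, chk3 f_pm_303 t 15 7 1 = true :=
  ⟨(b (a (b (a (b (l 16053576) (a (l 15837528) (l 15960272))) (l 16178168)) (a (b (a (l 15726808) (l 15860784)) (a (b (l 15689904) (c (b (l 15718696) (l 15712976)) (a (l 15667768) (l 15720720)))) (c (l 15825728) (l 15813072)))) (b (a (l 15969440) (l 16054896)) (b (a (l 15937552) (l 16027416)) (l 15967928))))) (b (l 16493968) (b (l 16294632) (a (l 16174392) (l 16337056))))) (a (b (b (a (a (b (l 15686688) (l 15647968)) (b (l 15801840) (l 15794416))) (a (b (l 15893944) (l 15905800)) (l 16016256))) (a (l 15674112) (a (b (l 15901984) (l 15875584)) (b (l 16009408) (l 16009376))))) (b (a (l 1) (l 15915512)) (l 1))) (b (a (b (l 16159032) (a (b (l 16096400) (l 16112640)) (l 16210272))) (b (l 16325512) (l 16342320))) (a (b (a (b (l 16116552) (l 16103680)) (b (c (l 16224672) (l 16212680)) (c (l 16227896) (l 16218672)))) (l 16158360)) (b (a (c (l 16319480) (l 16309936)) (l 16400336)) (a (b (c (l 16333768) (l 16326280)) (l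 16332104)) (b (c (l 16425800) (l 16418232)) (c (l 16439312) (l 16433568))))))))), by decide +kernel⟩

theorem s12_pm_303 : ∃ t, chk3 f_pm_303 t 7 7 1 = true := ex3_a k10_pm_303 k11_pm_303

theorem s13_pm_303 : ∃ t, chk3 f_pm_303 t 7 3 1 = true := ex3_b k9_pm_303 s12_pm_303

theorem s14_pm_303 : ∃ t, chk3 f_pm_303 t 13 13 1 = true := ex3_b k6_pm_303 k7_pm_303

theorem s15_pm_303 : ∃ t, chk3 f_pm_303 t 26 12 1 = true := ex3_b k3_pm_303 k4_pm_303

theorem s16_pm_303 : ∃ t, chk3 f_pm_303 t 13 12 1 = true := ex3_a s15_pm_303 k5_pm_303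

theorem s17_pm_303 : ∃ t, chk3 f_pm_303 t 13 6 1 = true := ex3_b s16_pm_303 s14_pm_303

theorem s18_pm_303 : ∃ t, chk3 f_pm_303 t 6 6 1 = true := ex3_a k2_pm_303 s17_pm_303

theorem s19_pm_303 : ∃ t, chk3 f_pm_303 t 6 3 1 = true := ex3_b s18_pm_303 k8_pm_303

theorem s20_pm_303 : ∃ t, chk3 f_pm_303 t 3 3 1 = true := ex3_a s19_pm_303 s13_pm_303

theorem s21_pm_303 : ∃ t, chk3 f_pm_303 t 3 1 1 = true := ex3_b k1_pm_303 s20_pm_303

theorem s22_pm_303 : ∃ t, chk3 f_pm_303 t 1 1 1 = true := ex3_a k0_pm_303 s21_pm_303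

theorem c_pm_303 : CertNX 0 1230186008 0 1230186008 1046898278 26843546 3 false true false .npn 3 0 3
    ndN7q3 ndN5q3 pcN0 Cut.none Ext.none :=
  certNX0 (fam := false) (s1 := true) (s2 := false) (a := 3) (b := 0) (c := 3) (cn := .npn) (n1 := ndN7q3) (n2 := ndN5q3) (pc := pcN0) (cut := Cut.none) (xt := Ext.none) (P1 := 0) (W1 := 1230186008) (P2 := 0) (W2 := 1230186008) (P3 := 1046898278) (W3 := 26843546) (N0 := 3)
    rfl s22_pm_303

noncomputable def f_pm_313 : ℕ → ℕ → ℕ → ℕ → Bool := onCell 0 1230186008 0 1230186008 1046898278 26843546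
    (rowNX 3 0 false true false .dn 3 1 3 (qsf 0 1230186008 0 1230186008 1) ndN7q3 ndN5q3 pcN1 Cut.none Ext.none)

def k0_pm_313 : ∃ t, chk3 f_pm_313 t 1 1 1 = true :=
  ⟨(a (l 1) (b (a (l 1) (b (a (l 1) (a (l 1) (l 16745448))) (l 1))) (l 1))), by decide +kernel⟩

theorem c_pm_313 : CertNX 0 1230186008 0 1230186008 1046898278 26843546 3 false true false .dn 3 1 3
    ndN7q3 ndN5q3 pcN1 Cut.none Ext.none :=
  certNX0 (fam := false) (s1 := true) (s2 := false) (a := 3) (b := 1) (c := 3) (cn := .dn) (n1 := ndN7q3) (n2 := ndN5q3) (pc := pcN1) (cut := Cut.none) (xt := Ext.none) (P1 := 0) (W1 := 1230186008) (P2 := 0) (W2 := 1230186008) (P3 := 1046898278) (W3 := 26843546) (N0 := 3)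
    rfl k0_pm_313

noncomputable def f_mm_001 : ℕ → ℕ → ℕ → ℕ → Bool := onCell 0 536870912 536870912 469762048 1046898278 26843546
    (rowNX 3 0 false false false .up 0 0 1 (qsf 0 536870912 536870912 469762048 0) ndN7q0 ndN5q1 pcN0 Cut.none Ext.none)

def k0_mm_001 : ∃ t, chk3 f_mm_001 t 1 1 1 = true :=
  ⟨(l 3), by decide +kernel⟩

theorem c_mm_001 : CertNX 0 536870912 536870912 469762048 1046898278 26843546 3 false false false .up 0 0 1
    ndN7q0 ndN5q1 pcN0 Cut.none Ext.none :=
  certNX0 (fam := false) (s1 := false) (s2 := false) (a := 0) (b := 0) (c := 1) (cn := .up) (n1 := ndN7q0) (n2 := ndN5q1) (pc := pcN0) (cut := Cut.none) (xt := Ext.none) (P1 := 0) (W1 := 536870912) (P2 := 536870912) (W2 := 469762048) (P3 := 1046898278) (W3 := 26843546) (N0 := 3)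
    rfl k0_mm_001

noncomputable def f_mm_011 : ℕ → ℕ → ℕ → ℕ → Bool := onCell 0 536870912 536870912 469762048 1046898278 26843546
    (rowNX 3 0 false false false .pnn 0 1 1 (qsf 0 536870912 536870912 469762048 1) ndN7q0 ndN5q1 pcN1 Cut.none Ext.none)

def k0_mm_011 : ∃ t, chk3 f_mm_011 t 1 1 1 = true :=
  ⟨(l 3), by decide +kernel⟩

theorem c_mm_011 : CertNX 0 536870912 536870912 469762048 1046898278 26843546 3 false false false .pnn 0 1 1
    ndN7q0 ndN5q1 pcN1 Cut.none Ext.none :=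
  certNX0 (fam := false) (s1 := false) (s2 := false) (a := 0) (b := 1) (c := 1) (cn := .pnn) (n1 := ndN7q0) (n2 := ndN5q1) (pc := pcN1) (cut := Cut.none) (xt := Ext.none) (P1 := 0) (W1 := 536870912) (P2 := 536870912) (W2 := 469762048) (P3 := 1046898278) (W3 := 26843546) (N0 := 3)
    rfl k0_mm_011

noncomputable def f_mm_012 : ℕ → ℕ → ℕ → ℕ → Bool := onCell 0 536870912 1073741824 536870912 1046898278 26843546
    (rowNX 3 0 false false false .pnp 0 1 2 (qsf 0 536870912 1073741824 536870912 1) ndN7q0 ndN5q2 pcN1 Cut.none Ext.none)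

def k0_mm_012 : ∃ t, chk3 f_mm_012 t 1 1 1 = true :=
  ⟨(l 5), by decide +kernel⟩

theorem c_mm_012 : CertNX 0 536870912 1073741824 536870912 1046898278 26843546 3 false false false .pnp 0 1 2
    ndN7q0 ndN5q2 pcN1 Cut.none Ext.none :=
  certNX0 (fam := false) (s1 := false) (s2 := false) (a := 0) (b := 1) (c := 2) (cn := .pnp) (n1 := ndN7q0) (n2 := ndN5q2) (pc := pcN1) (cut := Cut.none) (xt := Ext.none) (P1 := 0) (W1 := 536870912) (P2 := 1073741824) (W2 := 536870912) (P3 := 1046898278) (W3 := 26843546) (N0 := 3)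
    rfl k0_mm_012

noncomputable def f_mm_022 : ℕ → ℕ → ℕ → ℕ → Bool := onCell 0 536870912 1073741824 536870912 1046898278 26843546
    (rowNX 3 0 false false false .pp 0 2 2 (qsf 0 536870912 1073741824 536870912 2) ndN7q0 ndN5q2 pcN2 Cut.none Ext.none)

def k0_mm_022 : ∃ t, chk3 f_mm_022 t 1 1 1 = true :=
  ⟨(l 5), by decide +kernel⟩

theorem c_mm_022 : CertNX 0 536870912 1073741824 536870912 1046898278 26843546 3 false false false .pp 0 2 2
    ndN7q0 ndN5q2 pcN2 Cut.none Ext.none :=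
  certNX0 (fam := false) (s1 := false) (s2 := false) (a := 0) (b := 2) (c := 2) (cn := .pp) (n1 := ndN7q0) (n2 := ndN5q2) (pc := pcN2) (cut := Cut.none) (xt := Ext.none) (P1 := 0) (W1 := 536870912) (P2 := 1073741824) (W2 := 536870912) (P3 := 1046898278) (W3 := 26843546) (N0 := 3)
    rfl k0_mm_022

noncomputable def f_mm_023 : ℕ → ℕ → ℕ → ℕ → Bool := onCell 0 536870912 0 1230186008 1046898278 26843546
    (rowNX 3 0 false false false .up 0 2 3 (qsf 0 536870912 0 1230186008 2) ndN7q0 ndN5q3 pcN2 Cut.none Ext.none)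

def k0_mm_023 : ∃ t, chk3 f_mm_023 t 1 1 1 = true :=
  ⟨(l 5), by decide +kernel⟩

theorem c_mm_023 : CertNX 0 536870912 0 1230186008 1046898278 26843546 3 false false false .up 0 2 3
    ndN7q0 ndN5q3 pcN2 Cut.none Ext.none :=
  certNX0 (fam := false) (s1 := false) (s2 := false) (a := 0) (b := 2) (c := 3) (cn := .up) (n1 := ndN7q0) (n2 := ndN5q3) (pc := pcN2) (cut := Cut.none) (xt := Ext.none) (P1 := 0) (W1 := 536870912) (P2 := 0) (W2 := 1230186008) (P3 := 1046898278) (W3 := 26843546) (N0 := 3)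
    rfl k0_mm_023

noncomputable def f_mm_033 : ℕ → ℕ → ℕ → ℕ → Bool := onCell 0 536870912 0 1230186008 1046898278 26843546
    (rowNX 3 0 false false false .pnn 0 3 3 (qsf 0 536870912 0 1230186008 3) ndN7q0 ndN5q3 pcN3 Cut.none Ext.none)

def k0_mm_033 : ∃ t, chk3 f_mm_033 t 1 1 1 = true :=
  ⟨(l 5), by decide +kernel⟩

theorem c_mm_033 : CertNX 0 536870912 0 1230186008 1046898278 26843546 3 false false false .pnn 0 3 3
    ndN7q0 ndN5q3 pcN3 Cut.none Ext.none :=
  certNX0 (fam := false) (s1 := false) (s2 := false) (a := 0) (b := 3) (c := 3) (cn := .pnn) (n1 := ndN7q0) (n2 := ndN5q3) (pc := pcN3) (cut := Cut.none) (xt := Ext.none) (P1 := 0) (W1 := 536870912) (P2 := 0) (W2 := 1230186008) (P3 := 1046898278) (W3 := 26843546) (N0 := 3)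
    rfl k0_mm_033

noncomputable def f_mm_101 : ℕ → ℕ → ℕ → ℕ → Bool := onCell 536870912 536870912 536870912 469762048 1046898278 26843546
    (rowNX 3 0 false false false .npn 1 0 1 (qsf 536870912 536870912 536870912 469762048 0) ndN7q1 ndN5q1 pcN0 Cut.none Ext.none)

def k0_mm_101 : ∃ t, chk3 f_mm_101 t 1 1 1 = true :=
  ⟨(l 3), by decide +kernel⟩

theorem c_mm_101 : CertNX 536870912 536870912 536870912 469762048 1046898278 26843546 3 false false false .npn 1 0 1
    ndN7q1 ndN5q1 pcN0 Cut.none Ext.none :=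
  certNX0 (fam := false) (s1 := false) (s2 := false) (a := 1) (b := 0) (c := 1) (cn := .npn) (n1 := ndN7q1) (n2 := ndN5q1) (pc := pcN0) (cut := Cut.none) (xt := Ext.none) (P1 := 536870912) (W1 := 536870912) (P2 := 536870912) (W2 := 469762048) (P3 := 1046898278) (W3 := 26843546) (N0 := 3)
    rfl k0_mm_101

noncomputable def f_mm_102 : ℕ → ℕ → ℕ → ℕ → Bool := onCell 536870912 536870912 1073741824 536870912 1046898278 26843546
    (rowNX 3 0 false false false .npp 1 0 2 (qsf 536870912 536870912 1073741824 536870912 0) ndN7q1 ndN5q2 pcN0 Cut.none Ext.none)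

def k0_mm_102 : ∃ t, chk3 f_mm_102 t 1 1 1 = true :=
  ⟨(l 5), by decide +kernel⟩

theorem c_mm_102 : CertNX 536870912 536870912 1073741824 536870912 1046898278 26843546 3 false false false .npp 1 0 2
    ndN7q1 ndN5q2 pcN0 Cut.none Ext.none :=
  certNX0 (fam := false) (s1 := false) (s2 := false) (a := 1) (b := 0) (c := 2) (cn := .npp) (n1 := ndN7q1) (n2 := ndN5q2) (pc := pcN0) (cut := Cut.none) (xt := Ext.none) (P1 := 536870912) (W1 := 536870912) (P2 := 1073741824) (W2 := 536870912) (P3 := 1046898278) (W3 := 26843546) (N0 := 3)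
    rfl k0_mm_102

noncomputable def f_mm_112 : ℕ → ℕ → ℕ → ℕ → Bool := onCell 536870912 536870912 1073741824 536870912 1046898278 26843546
    (rowNX 3 0 false false false .dn 1 1 2 (qsf 536870912 536870912 1073741824 536870912 1) ndN7q1 ndN5q2 pcN1 Cut.none Ext.none)

def k0_mm_112 : ∃ t, chk3 f_mm_112 t 1 1 1 = true :=
  ⟨(l 5), by decide +kernel⟩

theorem c_mm_112 : CertNX 536870912 536870912 1073741824 536870912 1046898278 26843546 3 false false false .dn 1 1 2
    ndN7q1 ndN5q2 pcN1 Cut.none Ext.none :=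
  certNX0 (fam := false) (s1 := false) (s2 := false) (a := 1) (b := 1) (c := 2) (cn := .dn) (n1 := ndN7q1) (n2 := ndN5q2) (pc := pcN1) (cut := Cut.none) (xt := Ext.none) (P1 := 536870912) (W1 := 536870912) (P2 := 1073741824) (W2 := 536870912) (P3 := 1046898278) (W3 := 26843546) (N0 := 3)
    rfl k0_mm_112

noncomputable def f_mm_113 : ℕ → ℕ → ℕ → ℕ → Bool := onCell 536870912 536870912 0 1230186008 1046898278 26843546
    (rowNX 3 0 false false false .nn 1 1 3 (qsf 536870912 536870912 0 1230186008 1) ndN7q1 ndN5q3 pcN1 Cut.none Ext.none)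

def k0_mm_113 : ∃ t, chk3 f_mm_113 t 1 1 1 = true :=
  ⟨(l 5), by decide +kernel⟩

theorem c_mm_113 : CertNX 536870912 536870912 0 1230186008 1046898278 26843546 3 false false false .nn 1 1 3
    ndN7q1 ndN5q3 pcN1 Cut.none Ext.none :=
  certNX0 (fam := false) (s1 := false) (s2 := false) (a := 1) (b := 1) (c := 3) (cn := .nn) (n1 := ndN7q1) (n2 := ndN5q3) (pc := pcN1) (cut := Cut.none) (xt := Ext.none) (P1 := 536870912) (W1 := 536870912) (P2 := 0) (W2 := 1230186008) (P3 := 1046898278) (W3 := 26843546) (N0 := 3)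
    rfl k0_mm_113

noncomputable def f_mm_123 : ℕ → ℕ → ℕ → ℕ → Bool := onCell 536870912 536870912 0 1230186008 1046898278 26843546
    (rowNX 3 0 false false false .npn 1 2 3 (qsf 536870912 536870912 0 1230186008 2) ndN7q1 ndN5q3 pcN2 Cut.none Ext.none)

def k0_mm_123 : ∃ t, chk3 f_mm_123 t 1 1 1 = true :=
  ⟨(l 5), by decide +kernel⟩

theorem c_mm_123 : CertNX 536870912 536870912 0 1230186008 1046898278 26843546 3 false false false .npn 1 2 3
    ndN7q1 ndN5q3 pcN2 Cut.none Ext.none :=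
  certNX0 (fam := false) (s1 := false) (s2 := false) (a := 1) (b := 2) (c := 3) (cn := .npn) (n1 := ndN7q1) (n2 := ndN5q3) (pc := pcN2) (cut := Cut.none) (xt := Ext.none) (P1 := 536870912) (W1 := 536870912) (P2 := 0) (W2 := 1230186008) (P3 := 1046898278) (W3 := 26843546) (N0 := 3)
    rfl k0_mm_123

noncomputable def f_mm_133 : ℕ → ℕ → ℕ → ℕ → Bool := onCell 536870912 536870912 0 1230186008 1046898278 26843546
    (rowNX 3 0 false false false .dn 1 3 3 (qsf 536870912 536870912 0 1230186008 3) ndN7q1 ndN5q3 pcN3 Cut.none Ext.none)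

def k0_mm_133 : ∃ t, chk3 f_mm_133 t 1 1 1 = true :=
  ⟨(l 5), by decide +kernel⟩

theorem c_mm_133 : CertNX 536870912 536870912 0 1230186008 1046898278 26843546 3 false false false .dn 1 3 3
    ndN7q1 ndN5q3 pcN3 Cut.none Ext.none :=
  certNX0 (fam := false) (s1 := false) (s2 := false) (a := 1) (b := 3) (c := 3) (cn := .dn) (n1 := ndN7q1) (n2 := ndN5q3) (pc := pcN3) (cut := Cut.none) (xt := Ext.none) (P1 := 536870912) (W1 := 536870912) (P2 := 0) (W2 := 1230186008) (P3 := 1046898278) (W3 := 26843546) (N0 := 3)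
    rfl k0_mm_133

noncomputable def f_mm_202 : ℕ → ℕ → ℕ → ℕ → Bool := onCell 1073741824 536870912 1073741824 536870912 1046898278 26843546
    (rowNX 3 0 false false false .pp 2 0 2 (qsf 1073741824 536870912 1073741824 536870912 0) ndN7q2 ndN5q2 pcN0 Cut.none Ext.none)

def k0_mm_202 : ∃ t, chk3 f_mm_202 t 1 1 1 = true :=
  ⟨(l 5), by decide +kernel⟩

theorem c_mm_202 : CertNX 1073741824 536870912 1073741824 536870912 1046898278 26843546 3 false false false .pp 2 0 2
    ndN7q2 ndN5q2 pcN0 Cut.none Ext.none :=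
  certNX0 (fam := false) (s1 := false) (s2 := false) (a := 2) (b := 0) (c := 2) (cn := .pp) (n1 := ndN7q2) (n2 := ndN5q2) (pc := pcN0) (cut := Cut.none) (xt := Ext.none) (P1 := 1073741824) (W1 := 536870912) (P2 := 1073741824) (W2 := 536870912) (P3 := 1046898278) (W3 := 26843546) (N0 := 3)
    rfl k0_mm_202

noncomputable def f_mm_203 : ℕ → ℕ → ℕ → ℕ → Bool := onCell 1073741824 536870912 0 1230186008 1046898278 26843546
    (rowNX 3 0 false false false .up 2 0 3 (qsf 1073741824 536870912 0 1230186008 0) ndN7q2 ndN5q3 pcN0 Cut.none Ext.none)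

def k0_mm_203 : ∃ t, chk3 f_mm_203 t 1 1 1 = true :=
  ⟨(l 5), by decide +kernel⟩

theorem c_mm_203 : CertNX 1073741824 536870912 0 1230186008 1046898278 26843546 3 false false false .up 2 0 3
    ndN7q2 ndN5q3 pcN0 Cut.none Ext.none :=
  certNX0 (fam := false) (s1 := false) (s2 := false) (a := 2) (b := 0) (c := 3) (cn := .up) (n1 := ndN7q2) (n2 := ndN5q3) (pc := pcN0) (cut := Cut.none) (xt := Ext.none) (P1 := 1073741824) (W1 := 536870912) (P2 := 0) (W2 := 1230186008) (P3 := 1046898278) (W3 := 26843546) (N0 := 3)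
    rfl k0_mm_203

noncomputable def f_mm_213 : ℕ → ℕ → ℕ → ℕ → Bool := onCell 1073741824 536870912 0 1230186008 1046898278 26843546
    (rowNX 3 0 false false false .pnn 2 1 3 (qsf 1073741824 536870912 0 1230186008 1) ndN7q2 ndN5q3 pcN1 Cut.none Ext.none)

def k0_mm_213 : ∃ t, chk3 f_mm_213 t 1 1 1 = true :=
  ⟨(l 5), by decide +kernel⟩

theorem c_mm_213 : CertNX 1073741824 536870912 0 1230186008 1046898278 26843546 3 false false false .pnn 2 1 3
    ndN7q2 ndN5q3 pcN1 Cut.none Ext.none :=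
  certNX0 (fam := false) (s1 := false) (s2 := false) (a := 2) (b := 1) (c := 3) (cn := .pnn) (n1 := ndN7q2) (n2 := ndN5q3) (pc := pcN1) (cut := Cut.none) (xt := Ext.none) (P1 := 1073741824) (W1 := 536870912) (P2 := 0) (W2 := 1230186008) (P3 := 1046898278) (W3 := 26843546) (N0 := 3)
    rfl k0_mm_213

noncomputable def f_mm_303 : ℕ → ℕ → ℕ → ℕ → Bool := onCell 0 1230186008 0 1230186008 1046898278 26843546
    (rowNX 3 0 false false false .npn 3 0 3 (qsf 0 1230186008 0 1230186008 0) ndN7q3 ndN5q3 pcN0 Cut.none Ext.none)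

def k0_mm_303 : ∃ t, chk3 f_mm_303 t 1 1 1 = true :=
  ⟨(a (b (l 3) (l 3)) (b (l 5) (a (l 3) (l 5)))), by decide +kernel⟩

theorem c_mm_303 : CertNX 0 1230186008 0 1230186008 1046898278 26843546 3 false false false .npn 3 0 3
    ndN7q3 ndN5q3 pcN0 Cut.none Ext.none :=
  certNX0 (fam := false) (s1 := false) (s2 := false) (a := 3) (b := 0) (c := 3) (cn := .npn) (n1 := ndN7q3) (n2 := ndN5q3) (pc := pcN0) (cut := Cut.none) (xt := Ext.none) (P1 := 0) (W1 := 1230186008) (P2 := 0) (W2 := 1230186008) (P3 := 1046898278) (W3 := 26843546) (N0 := 3)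
    rfl k0_mm_303

noncomputable def f_mm_313 : ℕ → ℕ → ℕ → ℕ → Bool := onCell 0 1230186008 0 1230186008 1046898278 26843546
    (rowNX 3 0 false false false .dn 3 1 3 (qsf 0 1230186008 0 1230186008 1) ndN7q3 ndN5q3 pcN1 Cut.none Ext.none)

def k0_mm_313 : ∃ t, chk3 f_mm_313 t 1 1 1 = true :=
  ⟨(a (l 1) (b (l 5) (l 1))), by decide +kernel⟩

theorem c_mm_313 : CertNX 0 1230186008 0 1230186008 1046898278 26843546 3 false false false .dn 3 1 3
    ndN7q3 ndN5q3 pcN1 Cut.none Ext.none :=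
  certNX0 (fam := false) (s1 := false) (s2 := false) (a := 3) (b := 1) (c := 3) (cn := .dn) (n1 := ndN7q3) (n2 := ndN5q3) (pc := pcN1) (cut := Cut.none) (xt := Ext.none) (P1 := 0) (W1 := 1230186008) (P2 := 0) (W2 := 1230186008) (P3 := 1046898278) (W3 := 26843546) (N0 := 3)
    rfl k0_mm_313

end Pool.Agent.Strip051.G.IE1.Tab.C.NB75

namespace Pool.Agent.Strip051.G.IE1.Tab.C.NB76

open Pool.Agent.Strip051.PB Pool.Agent.Strip051.PB.T
open Pool.Agent.Strip051.G.IE1.Tab

noncomputable def f_pp_001 : ℕ → ℕ → ℕ → ℕ → Bool := onCell 0 536870912 536870912 469762048 1046898278 26843546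
    (rowNX 3 0 false true true .up 0 0 1 (qsf 0 536870912 536870912 469762048 0) ndN7q0 ndN6q1 pcN0 Cut.none Ext.none)

def k0_pp_001 : ∃ t, chk3 f_pp_001 t 1 1 1 = true :=
  ⟨(l 3), by decide +kernel⟩

theorem c_pp_001 : CertNX 0 536870912 536870912 469762048 1046898278 26843546 3 false true true .up 0 0 1
    ndN7q0 ndN6q1 pcN0 Cut.none Ext.none :=
  certNX0 (fam := false) (s1 := true) (s2 := true) (a := 0) (b := 0) (c := 1) (cn := .up) (n1 := ndN7q0) (n2 := ndN6q1) (pc := pcN0) (cut := Cut.none) (xt := Ext.none) (P1 := 0) (W1 := 536870912) (P2 := 536870912) (W2 := 469762048) (P3 := 1046898278) (W3 := 26843546) (N0 := 3)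
    rfl k0_pp_001

noncomputable def f_pp_011 : ℕ → ℕ → ℕ → ℕ → Bool := onCell 0 536870912 536870912 469762048 1046898278 26843546
    (rowNX 3 0 false true true .pnn 0 1 1 (qsf 0 536870912 536870912 469762048 1) ndN7q0 ndN6q1 pcN1 Cut.none Ext.none)

def k0_pp_011 : ∃ t, chk3 f_pp_011 t 1 1 1 = true :=
  ⟨(l 3), by decide +kernel⟩

theorem c_pp_011 : CertNX 0 536870912 536870912 469762048 1046898278 26843546 3 false true true .pnn 0 1 1
    ndN7q0 ndN6q1 pcN1 Cut.none Ext.none :=
  certNX0 (fam := false) (s1 := true) (s2 := true) (a := 0) (b := 1) (c := 1) (cn := .pnn) (n1 := ndN7q0) (n2 := ndN6q1) (pc := pcN1) (cut := Cut.none) (xt := Ext.none) (P1 := 0) (W1 := 536870912) (P2 := 536870912) (W2 := 469762048) (P3 := 1046898278) (W3 := 26843546) (N0 := 3)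
    rfl k0_pp_011

noncomputable def f_pp_012 : ℕ → ℕ → ℕ → ℕ → Bool := onCell 536870912 536870912 1073741824 536870912 1046898278 26843546
    (rowNX 3 2 false true true .pnp 0 1 2 (qsf 0 536870912 1073741824 536870912 1) ndN7q0 ndN6q2 pcN1 Cut.none Ext.none)

def k0_pp_012 : ∃ t, chk3 f_pp_012 t 1 1 1 = true :=
  ⟨(a (b (l 3) (b (l 3) (l 2))) (a (a (b (l 3) (b (l 16776984) (l 2))) (b (b (b (l 3) (a (l 3) (l 688432304551))) (b (b (a (l 3) (l 14698168)) (l 15352680)) (b (a (l 16347896) (l 16376640)) (l 16757232)))) (b (a (l 16766944) (l 16712208)) (l 16730160)))) (b (a (b (b (a (l 14826360) (l 14367904)) (a (l 14974376) (l 14510064))) (b (b (a (l 14878104) (l 14401800)) (a (l 15511472) (l 15070256))) (b (a (l 16151584) (l 15762928)) (l 16270896)))) (b (a (a (b (l 13964744) (l 14115296)) (b (c (l 13719880) (l 13623752)) (c (l 13883064) (l 13787352)))) (a (c (b (c (a (l 13618120) (l 13521592)) (l 13509496)) (a (l 13746576) (c (l 13678120) (l 13623152)))) (b (l 13421600)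 (l 13582792))) (c (b (l 13348056) (l 13502536)) (a (c (b (l 13305576) (l 13462744)) (l 13262784)) (b (c (l 13208224) (l 13144680)) (c (l 13362808) (b (l 13393432) (l 13213016)))))))) (a (b (a (b (l 14001728) (l 14710728)) (b (b (l 13618112) (l 13820512)) (l 14462152))) (a (l 15555064) (b (l 15242016) (l 15627688)))) (b (a (c (b (b (l 13218240) (l 13443384)) (a (l 14374560) (l 14281160))) (l 13791728)) (c (b (l 13370640) (l 14145200)) (b (a (l 13167880) (c (l 13221528) (l 13155120))) (a (l 14091640) (l 13955600))))) (a (c (b (a (l 15159664) (l 15080816)) (l 15405336)) (l 15268120)) (c (b (l 14962496) (l 15364744)) (b (a (l 14937800) (l 14688096)) (a (l 15354776) (l 15276888))))))))) (a (b (a (l 16420560) (l 16066384)) (a (l 16360720) (l 16014344))) (a (a (b (l 15794784) (l 15754952)) (b (l 15518608) (l 15575536))) (b (b (a (c (a (l 15542096) (l 15466096)) (l 15458112)) (c (l 15344128) (a (l 15336792) (l 15249000)))) (l 15367168)) (l 15306712))))))), by decide +kernel⟩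

theorem c_pp_012 : CertNX 0 536870912 1073741824 536870912 1046898278 26843546 3 false true true .pnp 0 1 2
    ndN7q0 ndN6q2 pcN1 Cut.none Ext.none :=
  certNX2 (fam := false) (s1 := true) (s2 := true) (a := 0) (b := 1) (c := 2) (cn := .pnp) (n1 := ndN7q0) (n2 := ndN6q2) (pc := pcN1) (cut := Cut.none) (xt := Ext.none) (P1 := 0) (W1 := 536870912) (P2 := 1073741824) (W2 := 536870912) (P3 := 1046898278) (W3 := 26843546) (N0 := 3)
    rfl (fun _ => rfl) k0_pp_012

noncomputable def f_pp_022 : ℕ → ℕ → ℕ → ℕ → Bool := onCell 0 536870912 1073741824 536870912 1046898278 26843546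
    (rowNX 3 1 false true true .pp 0 2 2 (qsf 0 536870912 1073741824 536870912 2) ndN7q0 ndN6q2 pcN2 Cut.none Ext.none)

def k0_pp_022 : ∃ t, chk3 f_pp_022 t 1 1 1 = true :=
  ⟨(b (b (a (a (b (b (a (b (c (b (l 13829296) (l 13781136)) (b (a (l 13606808) (l 13837728)) (l 13673280))) (c (a (l 13607880) (l 13761624)) (a (l 13495008) (l 13654320)))) (a (l 13738384) (l 13599920))) (a (b (a (c (l 13503288) (l 13387816)) (l 13488680)) (l 13246104)) (a (l 13213784) (l 13588400)))) (a (a (b (l 12983808) (l 12545560)) (b (l 12870928) (l 12937792))) (b (a (l 13258800) (l 14093560)) (a (l 13777536) (l 14420488))))) (b (a (b (a (l 13960280) (l 14764800)) (a (l 14408784) (l 15031264))) (b (a (l 15370984) (l 15547016)) (l 15215024))) (a (b (l 14741024) (l 14635200)) (l 14784256)))) (b (a (l 15299656) (l 15181240)) (a (l 14789032) (l 14796248)))) (a (b (a (a (b (b (a (l 12500456) (l 13340320)) (l 13561736)) (a (l 14536360) (l 15096192))) (b (b (l 14250760) (l 14596968)) (l 15395680)))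 (b (b (l 14435376) (l 14660336)) (l 15410072))) (b (a (a (a (l 15854208) (l 16316384)) (l 16319104)) (l 16324360)) (l 16776528))) (b (b (b (l 14482984) (l 14709144)) (l 15444800)) (b (l 16324496) (l 16732520))))) (b (a (a (l 16777216) (l 16772960)) (b (a (l 16761576) (l 2)) (l 2))) (a (b (l 16777216) (l 16777216)) (l 2)))), by decide +kernel⟩

theorem c_pp_022 : CertNX 0 536870912 1073741824 536870912 1046898278 26843546 3 false true true .pp 0 2 2
    ndN7q0 ndN6q2 pcN2 Cut.none Ext.none :=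
  certNX1 (fam := false) (s1 := true) (s2 := true) (a := 0) (b := 2) (c := 2) (cn := .pp) (n1 := ndN7q0) (n2 := ndN6q2) (pc := pcN2) (cut := Cut.none) (xt := Ext.none) (P1 := 0) (W1 := 536870912) (P2 := 1073741824) (W2 := 536870912) (P3 := 1046898278) (W3 := 26843546) (N0 := 3)
    rfl (fun _ => rfl) k0_pp_022

noncomputable def f_pp_023 : ℕ → ℕ → ℕ → ℕ → Bool := onCell 1073741824 536870912 0 1230186008 1046898278 26843546
    (rowNX 3 2 false true true .up 0 2 3 (qsf 0 536870912 0 1230186008 2) ndN7q0 ndN6q3 pcN2 Cut.none Ext.none)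

def k0_pp_023 : ∃ t, chk3 f_pp_023 t 1 1 1 = true :=
  ⟨(a (b (l 2) (a (b (l 2) (b (l 2) (a (l 15076640) (l 14798312)))) (a (b (l 2) (a (a (l 14518064) (l 14739800)) (b (l 15470936) (l 15447112)))) (b (a (l 2) (l 16412952)) (a (b (l 16326328) (l 16335768)) (l 16739832)))))) (b (a (l 2) (b (l 4) (l 4))) (b (a (a (l 16561320) (l 16768384)) (l 16777168)) (a (b (l 16744056) (l 16769720)) (b (l 16777216) (l 16777216)))))), by decide +kernel⟩

theorem c_pp_023 : CertNX 0 536870912 0 1230186008 1046898278 26843546 3 false true true .up 0 2 3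
    ndN7q0 ndN6q3 pcN2 Cut.none Ext.none :=
  certNX2 (fam := false) (s1 := true) (s2 := true) (a := 0) (b := 2) (c := 3) (cn := .up) (n1 := ndN7q0) (n2 := ndN6q3) (pc := pcN2) (cut := Cut.none) (xt := Ext.none) (P1 := 0) (W1 := 536870912) (P2 := 0) (W2 := 1230186008) (P3 := 1046898278) (W3 := 26843546) (N0 := 3)
    rfl (fun _ => rfl) k0_pp_023

noncomputable def f_pp_033 : ℕ → ℕ → ℕ → ℕ → Bool := onCell 1610612736 536870912 0 1230186008 1046898278 26843546
    (rowNX 3 2 false true true .pnn 0 3 3 (qsf 0 536870912 0 1230186008 3) ndN7q0 ndN6q3 pcN3 Cut.none Ext.none)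

def k0_pp_033 : ∃ t, chk3 f_pp_033 t 1 1 1 = true :=
  ⟨(b (l 4) (b (a (a (l 16777168) (l 4)) (l 4)) (a (a (c (l 16777216) (l 16777216)) (c (l 16777216) (l 16777216))) (l 1)))), by decide +kernel⟩

theorem c_pp_033 : CertNX 0 536870912 0 1230186008 1046898278 26843546 3 false true true .pnn 0 3 3
    ndN7q0 ndN6q3 pcN3 Cut.none Ext.none :=
  certNX2 (fam := false) (s1 := true) (s2 := true) (a := 0) (b := 3) (c := 3) (cn := .pnn) (n1 := ndN7q0) (n2 := ndN6q3) (pc := pcN3) (cut := Cut.none) (xt := Ext.none) (P1 := 0) (W1 := 536870912) (P2 := 0) (W2 := 1230186008) (P3 := 1046898278) (W3 := 26843546) (N0 := 3)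
    rfl (fun _ => rfl) k0_pp_033

noncomputable def f_pp_101 : ℕ → ℕ → ℕ → ℕ → Bool := onCell 536870912 536870912 536870912 469762048 1046898278 26843546
    (rowNX 3 0 false true true .npn 1 0 1 (qsf 536870912 536870912 536870912 469762048 0) ndN7q1 ndN6q1 pcN0 Cut.none Ext.none)

def k0_pp_101 : ∃ t, chk3 f_pp_101 t 1 1 1 = true :=
  ⟨(l 3), by decide +kernel⟩

theorem c_pp_101 : CertNX 536870912 536870912 536870912 469762048 1046898278 26843546 3 false true true .npn 1 0 1
    ndN7q1 ndN6q1 pcN0 Cut.none Ext.none :=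
  certNX0 (fam := false) (s1 := true) (s2 := true) (a := 1) (b := 0) (c := 1) (cn := .npn) (n1 := ndN7q1) (n2 := ndN6q1) (pc := pcN0) (cut := Cut.none) (xt := Ext.none) (P1 := 536870912) (W1 := 536870912) (P2 := 536870912) (W2 := 469762048) (P3 := 1046898278) (W3 := 26843546) (N0 := 3)
    rfl k0_pp_101

noncomputable def f_pp_102 : ℕ → ℕ → ℕ → ℕ → Bool := onCell 536870912 536870912 0 536870912 1046898278 26843546
    (rowNX 3 1 false true true .npp 1 0 2 (qsf 536870912 536870912 1073741824 536870912 0) ndN7q1 ndN6q2 pcN0 Cut.none Ext.none)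

def k0_pp_102 : ∃ t, chk3 f_pp_102 t 1 1 1 = true :=
  ⟨(l 3), by decide +kernel⟩

theorem c_pp_102 : CertNX 536870912 536870912 1073741824 536870912 1046898278 26843546 3 false true true .npp 1 0 2
    ndN7q1 ndN6q2 pcN0 Cut.none Ext.none :=
  certNX1 (fam := false) (s1 := true) (s2 := true) (a := 1) (b := 0) (c := 2) (cn := .npp) (n1 := ndN7q1) (n2 := ndN6q2) (pc := pcN0) (cut := Cut.none) (xt := Ext.none) (P1 := 536870912) (W1 := 536870912) (P2 := 1073741824) (W2 := 536870912) (P3 := 1046898278) (W3 := 26843546) (N0 := 3)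
    rfl (fun _ => rfl) k0_pp_102

noncomputable def f_pp_112 : ℕ → ℕ → ℕ → ℕ → Bool := onCell 536870912 536870912 1073741824 536870912 1046898278 26843546
    (rowNX 3 2 false true true .dn 1 1 2 (qsf 536870912 536870912 1073741824 536870912 1) ndN7q1 ndN6q2 pcN1 Cut.none Ext.none)

def k0_pp_112 : ∃ t, chk3 f_pp_112 t 1 1 1 = true :=
  ⟨(a (b (l 3) (a (l 3) (b (l 3) (l 3)))) (a (a (b (l 3) (b (l 16776984) (b (l 16687232) (l 16324320)))) (b (l 1) (b (a (l 16766944) (l 16712208)) (a (l 16675008) (l 16655552))))) (b (l 1) (b (a (l 364030797127) (l 1)) (a (a (l 16360720) (l 16014344)) (a (a (l 15754952) (l 15575536)) (l 15306712))))))), by decide +kernel⟩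

theorem c_pp_112 : CertNX 536870912 536870912 1073741824 536870912 1046898278 26843546 3 false true true .dn 1 1 2
    ndN7q1 ndN6q2 pcN1 Cut.none Ext.none :=
  certNX2 (fam := false) (s1 := true) (s2 := true) (a := 1) (b := 1) (c := 2) (cn := .dn) (n1 := ndN7q1) (n2 := ndN6q2) (pc := pcN1) (cut := Cut.none) (xt := Ext.none) (P1 := 536870912) (W1 := 536870912) (P2 := 1073741824) (W2 := 536870912) (P3 := 1046898278) (W3 := 26843546) (N0 := 3)
    rfl (fun _ => rfl) k0_pp_112

noncomputable def f_pp_113 : ℕ → ℕ → ℕ → ℕ → Bool := onCell 536870912 536870912 0 1230186008 1046898278 26843546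
    (rowNX 3 0 false true true .nn 1 1 3 (qsf 536870912 536870912 0 1230186008 1) ndN7q1 ndN6q3 pcN1 Cut.none Ext.none)

def k0_pp_113 : ∃ t, chk3 f_pp_113 t 1 2 1 = true :=
  ⟨(a (l 2) (a (l 2) (a (b (l 2) (c (b (a (l 2) (l 13270144)) (a (l 12179280) (b (l 12393528) (l 12349008)))) (b (l 10853144) (b (l 10980664) (l 11376672))))) (a (b (l 2) (b (c (b (l 14114336) (l 12782392)) (b (l 11074752) (l 10961040))) (c (b (a (l 12340840) (l 12264952)) (l 12287736)) (b (l 11222376) (l 11644968))))) (b (b (c (l 16702952) (b (c (l 16767472) (l 16752008)) (l 16594232))) (c (l 16232776) (b (l 13950504) (c (l 12760728) (l 10433952))))) (b (c (b (l 13410928) (l 12354832)) (b (c (l 11600392) (l 10373576)) (l 11000048))) (c (l 12087304) (b (l 11302096) (c (l 11827240) (l 11584560)))))))))), by decide +kernel⟩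

def k1_pp_113 : ∃ t, chk3 f_pp_113 t 2 3 1 = true :=
  ⟨(b (a (l 2) (b (l 2) (a (l 2) (b (l 2) (a (l 2) (l 13632848)))))) (b (a (l 2) (a (b (a (l 2) (l 14019736)) (a (l 14619760) (l 14794600))) (b (l 14265968) (l 14972592)))) (a (b (a (l 2) (b (l 14685496) (l 15110608))) (a (b (l 14771000) (l 15224552)) (a (l 15564304) (b (l 15715568) (l 16131888))))) (b (a (l 15325464) (b (a (l 15460960) (l 15507544)) (a (l 15815912) (l 15742432)))) (a (a (b (l 15969776) (l 16392496)) (b (l 16113408) (l 16363864))) (b (a (l 16055896) (l 15847904)) (l 16025528))))))), by decide +kernel⟩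

def k2_pp_113 : ∃ t, chk3 f_pp_113 t 3 3 1 = true :=
  ⟨(b (a (b (a (l 2) (b (a (l 2) (l 12203768)) (a (l 12759096) (l 12673272)))) (a (b (a (l 13095784) (l 13246528)) (l 13824752)) (b (l 13238344) (l 13728640)))) (b (a (b (a (l 12127792) (c (l 12498880) (l 11923424))) (a (l 12490080) (l 12406328))) (a (c (b (l 12419408) (l 12666496)) (b (l 12029184) (l 12427864))) (c (b (l 12355120) (l 12572616)) (b (c (l 12153440) (l 11997504)) (c (l 12438720) (l 12328512)))))) (a (b (a (l 12873528) (c (l 13028960) (l 12782848))) (a (l 13274416) (c (l 13276328) (l 13093936)))) (b (c (a (a (l 12945832) (l 12879552)) (l 12720232)) (a (l 12750264) (c (l 12615240) (l 12524536)))) (c (a (a (l 13096944) (l 12987424)) (l 12789688)) (a (l 12849296) (c (a (l 12766504) (l 12625504)) (a (l 12700472) (l 12554440))))))))) (b (a (b (a (l 14437808) (a (l 14359104) (l 13995992))) (a (b (l 14883864) (a (l 15194632) (l 15069208))) (a (b (l 14654944) (l 14737296)) (l 14042176)))) (a (b (a (b (l 13484840)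 (l 13547584)) (c (a (l 13455776) (l 13168504)) (l 13220544))) (a (a (l 13717496) (l 13508976)) (c (c (l 13456456) (l 13370024)) (l 13249448)))) (c (a (b (c (l 13141600) (a (l 13178512) (l 13005496))) (c (l 13145464) (l 184306578391))) (l 12802264)) (a (b (l 12951728) (l 190211971591)) (c (b (l 12708024) (l 194506400615)) (a (l 12719832) (b (l 12559560) (l 12559560)))))))) (b (a (a (b (a (l 15414368) (l 15157520)) (l 15351744)) (b (l 14497736) (l 14504528))) (a (c (a (l 13652976) (a (l 13488192) (l 13351096))) (l 13409280)) (l 3))) (a (a (b (l 15389064) (l 15393240)) (c (l 14397256) (l 293294163223))) (l 3))))), by decide +kernel⟩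

theorem s3_pp_113 : ∃ t, chk3 f_pp_113 t 1 3 1 = true := ex3_a k1_pp_113 k2_pp_113

theorem s4_pp_113 : ∃ t, chk3 f_pp_113 t 1 1 1 = true := ex3_b k0_pp_113 s3_pp_113

theorem c_pp_113 : CertNX 536870912 536870912 0 1230186008 1046898278 26843546 3 false true true .nn 1 1 3
    ndN7q1 ndN6q3 pcN1 Cut.none Ext.none :=
  certNX0 (fam := false) (s1 := true) (s2 := true) (a := 1) (b := 1) (c := 3) (cn := .nn) (n1 := ndN7q1) (n2 := ndN6q3) (pc := pcN1) (cut := Cut.none) (xt := Ext.none) (P1 := 536870912) (W1 := 536870912) (P2 := 0) (W2 := 1230186008) (P3 := 1046898278) (W3 := 26843546) (N0 := 3)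
    rfl s4_pp_113

noncomputable def f_pp_123 : ℕ → ℕ → ℕ → ℕ → Bool := onCell 1073741824 536870912 0 1230186008 1046898278 26843546
    (rowNX 3 2 false true true .npn 1 2 3 (qsf 536870912 536870912 0 1230186008 2) ndN7q1 ndN6q3 pcN2 Cut.none Ext.none)

def k0_pp_123 : ∃ t, chk3 f_pp_123 t 1 1 1 = true :=
  ⟨(b (b (a (a (a (c (a (b (l 16692440) (l 15345232)) (b (c (l 16542456) (l 16498512)) (c (l 15710168) (l 15564640)))) (a (b (c (l 14841384) (a (l 13962752) (l 15934440))) (c (a (l 14664904) (l 14641080)) (a (l 13692760) (l 14205952)))) (b (l 16445728) (l 15332912)))) (a (c (b (c (l 16679872) (l 16657688)) (l 16023168)) (l 16032288)) (b (l 4) (l 16113088)))) (a (b (l 4) (a (l 16340976) (l 16575616))) (l 4))) (l 4)) (a (a (a (b (c (a (b (l 14000864) (l 13321608)) (b (l 14784784) (l 14307792))) (a (b (l 12782000) (l 12301264)) (l 14105136))) (c (a (b (l 12943800) (l 12773120)) (l 13911504)) (a (b (l 12098392) (l 12146248)) (l 13501184)))) (b (a (c (l 15126576) (l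 14871064)) (l 15216760)) (a (l 14375696) (l 14605032)))) (a (b (l 15812416) (l 15286256)) (a (l 16118432) (l 16314688)))) (a (a (b (l 16642008) (l 16471248)) (l 16756968)) (l 4)))) (a (a (b (a (b (b (a (l 12732912) (l 13730232)) (a (l 13161192) (l 13953976))) (l 14042976)) (b (a (l 14339552) (l 14429040)) (a (l 14634680) (l 14601064)))) (b (a (l 14718736) (l 14786784)) (a (l 15076624) (l 14798312)))) (b (a (b (l 15024600) (a (a (l 14516784) (l 14756280)) (l 15430880))) (b (l 16162792) (l 16366232))) (a (a (a (l 14518064) (l 14739800)) (l 405367946999)) (a (l 410201510071) (l 16739832))))) (b (a (a (l 16561936) (l 16768384)) (l 16777168)) (l 1)))), by decide +kernel⟩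

theorem c_pp_123 : CertNX 536870912 536870912 0 1230186008 1046898278 26843546 3 false true true .npn 1 2 3
    ndN7q1 ndN6q3 pcN2 Cut.none Ext.none :=
  certNX2 (fam := false) (s1 := true) (s2 := true) (a := 1) (b := 2) (c := 3) (cn := .npn) (n1 := ndN7q1) (n2 := ndN6q3) (pc := pcN2) (cut := Cut.none) (xt := Ext.none) (P1 := 536870912) (W1 := 536870912) (P2 := 0) (W2 := 1230186008) (P3 := 1046898278) (W3 := 26843546) (N0 := 3)
    rfl (fun _ => rfl) k0_pp_123

noncomputable def f_pp_133 : ℕ → ℕ → ℕ → ℕ → Bool := onCell 1610612736 536870912 0 1230186008 1046898278 26843546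
    (rowNX 3 2 false true true .dn 1 3 3 (qsf 536870912 536870912 0 1230186008 3) ndN7q1 ndN6q3 pcN3 Cut.none Ext.none)

def k0_pp_133 : ∃ t, chk3 f_pp_133 t 1 1 1 = true :=
  ⟨(b (l 4) (l 1)), by decide +kernel⟩

theorem c_pp_133 : CertNX 536870912 536870912 0 1230186008 1046898278 26843546 3 false true true .dn 1 3 3
    ndN7q1 ndN6q3 pcN3 Cut.none Ext.none :=
  certNX2 (fam := false) (s1 := true) (s2 := true) (a := 1) (b := 3) (c := 3) (cn := .dn) (n1 := ndN7q1) (n2 := ndN6q3) (pc := pcN3) (cut := Cut.none) (xt := Ext.none) (P1 := 536870912) (W1 := 536870912) (P2 := 0) (W2 := 1230186008) (P3 := 1046898278) (W3 := 26843546) (N0 := 3)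
    rfl (fun _ => rfl) k0_pp_133

noncomputable def f_pp_202 : ℕ → ℕ → ℕ → ℕ → Bool := onCell 1073741824 536870912 1073741824 536870912 1046898278 26843546
    (rowNX 3 0 false true true .pp 2 0 2 (qsf 1073741824 536870912 1073741824 536870912 0) ndN7q2 ndN6q2 pcN0 Cut.none Ext.none)

def k0_pp_202 : ∃ t, chk3 f_pp_202 t 1 1 1 = true :=
  ⟨(l 3), by decide +kernel⟩

theorem c_pp_202 : CertNX 1073741824 536870912 1073741824 536870912 1046898278 26843546 3 false true true .pp 2 0 2
    ndN7q2 ndN6q2 pcN0 Cut.none Ext.none :=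
  certNX0 (fam := false) (s1 := true) (s2 := true) (a := 2) (b := 0) (c := 2) (cn := .pp) (n1 := ndN7q2) (n2 := ndN6q2) (pc := pcN0) (cut := Cut.none) (xt := Ext.none) (P1 := 1073741824) (W1 := 536870912) (P2 := 1073741824) (W2 := 536870912) (P3 := 1046898278) (W3 := 26843546) (N0 := 3)
    rfl k0_pp_202

noncomputable def f_pp_203 : ℕ → ℕ → ℕ → ℕ → Bool := onCell 0 536870912 0 1230186008 1046898278 26843546
    (rowNX 3 2 false true true .up 2 0 3 (qsf 1073741824 536870912 0 1230186008 0) ndN7q2 ndN6q3 pcN0 Cut.none Ext.none)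

def k0_pp_203 : ∃ t, chk3 f_pp_203 t 1 1 1 = true :=
  ⟨(b (a (l 2) (a (l 2) (a (b (l 2) (c (l 407116090791) (l 396915533559))) (b (b (l 16721712) (l 16702872)) (c (l 374366900935) (l 360945123463)))))) (a (l 3) (b (l 3) (l 3)))), by decide +kernel⟩

theorem c_pp_203 : CertNX 1073741824 536870912 0 1230186008 1046898278 26843546 3 false true true .up 2 0 3
    ndN7q2 ndN6q3 pcN0 Cut.none Ext.none :=
  certNX2 (fam := false) (s1 := true) (s2 := true) (a := 2) (b := 0) (c := 3) (cn := .up) (n1 := ndN7q2) (n2 := ndN6q3) (pc := pcN0) (cut := Cut.none) (xt := Ext.none) (P1 := 1073741824) (W1 := 536870912) (P2 := 0) (W2 := 1230186008) (P3 := 1046898278) (W3 := 26843546) (N0 := 3)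
    rfl (fun _ => rfl) k0_pp_203

noncomputable def f_pp_213 : ℕ → ℕ → ℕ → ℕ → Bool := onCell 1073741824 536870912 0 1230186008 1046898278 26843546
    (rowNX 3 0 false true true .pnn 2 1 3 (qsf 1073741824 536870912 0 1230186008 1) ndN7q2 ndN6q3 pcN1 Cut.none Ext.none)

def k0_pp_213 : ∃ t, chk3 f_pp_213 t 1 2 1 = true :=
  ⟨(a (a (b (a (a (b (a (b (a (c (l 16714368) (a (l 16676864) (l 16639272))) (l 16600416)) (l 16392352)) (c (l 16345000) (l 15578208))) (c (l 14924864) (c (l 13736824) (l 12925192)))) (b (c (l 15968776) (l 15625192)) (c (l 14573200) (l 14233456)))) (b (a (l 15647312) (l 15373240)) (a (c (l 14846608) (l 14455992)) (l 14585600)))) (b (a (a (c (l 13512664) (a (l 11728632) (l 12408928))) (c (a (l 13463216) (l 13667408)) (l 13169392))) (a (b (l 13936632) (c (l 13734352) (l 13478768))) (b (l 14088720) (l 13893520)))) (a (a (a (b (l 12005080) (l 12177952)) (c (l 12680688) (b (l 12299312) (l 12429488)))) (c (b (l 13162760) (l 13109808)) (b (l 12921608) (l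 12937864)))) (a (b (c (l 13559688) (l 13351832)) (l 13419976)) (l 13789920))))) (b (a (b (a (l 15298560) (l 15476040)) (a (l 14841088) (l 15201184))) (b (l 15727192) (l 15635000))) (b (a (a (l 14514464) (l 15040144)) (l 15612064)) (a (l 14544488) (b (l 15617568) (l 15641048)))))) (b (a (b (l 16519448) (l 16393768)) (a (l 16688536) (b (l 16721712) (l 16702872)))) (a (a (b (l 16301872) (c (l 16332128) (l 16313712))) (b (a (l 16702032) (l 16728152)) (c (l 144048862407) (b (l 16728200) (l 16757320))))) (c (b (a (l 16732104) (l 16732104)) (a (l 16755968) (l 16755968))) (b (a (l 16721576) (l 16721576)) (a (l 16755072) (l 1078607137127))))))), by decide +kernel⟩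

def k1_pp_213 : ∃ t, chk3 f_pp_213 t 1 3 1 = true :=
  ⟨(b (a (a (b (a (a (c (b (l 12643976) (l 12739536)) (b (a (l 12281112) (l 12562584)) (c (l 12630776) (l 12537720)))) (c (b (l 13115888) (l 13142232)) (l 12997112))) (a (c (b (l 13502560) (l 13506312)) (l 13343880)) (b (l 13786136) (l 13786088)))) (a (c (a (b (l 12803952) (l 12823856)) (c (l 13184504) (a (l 13056536) (l 13253480)))) (a (b (c (l 12707256) (l 12475536)) (c (l 12729776) (a (l 12570592) (l 12752808)))) (b (l 13040272) (l 13041488)))) (a (c (c (b (l 13550608) (l 13550640)) (l 13446984)) (l 13351832)) (b (l 13786136) (l 13786160))))) (b (a (c (l 14780160) (l 14709832)) (b (l 15646384) (a (l 15455408) (l 15829232)))) (a (c (b (l 14780192) (l 224038445159)) (b (l 14709864) (l 222964562695))) (b (c (l 15666016) (l 15626872)) (l 3))))) (a (b (a (c (l 207398701015) (b (l 16334552) (l 16334520))) (c (l 230485117783) (l 240148790631))) (l 3)) (l 3))) (b (a (a (a (a (c (l 12823936) (c (a (l 12641376) (l 193969747287))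 (a (b (l 12570688) (l 12570688)) (l 12752808)))) (b (c (c (l 13206704) (l 181622261831)) (l 197728293015)) (l 3))) (a (b (c (c (l 13487720) (l 13447000)) (l 13351848)) (l 3)) (l 3))) (l 3)) (l 1)) (l 3))), by decide +kernel⟩

theorem s2_pp_213 : ∃ t, chk3 f_pp_213 t 1 1 1 = true := ex3_b k0_pp_213 k1_pp_213

theorem c_pp_213 : CertNX 1073741824 536870912 0 1230186008 1046898278 26843546 3 false true true .pnn 2 1 3
    ndN7q2 ndN6q3 pcN1 Cut.none Ext.none :=
  certNX0 (fam := false) (s1 := true) (s2 := true) (a := 2) (b := 1) (c := 3) (cn := .pnn) (n1 := ndN7q2) (n2 := ndN6q3) (pc := pcN1) (cut := Cut.none) (xt := Ext.none) (P1 := 1073741824) (W1 := 536870912) (P2 := 0) (W2 := 1230186008) (P3 := 1046898278) (W3 := 26843546) (N0 := 3)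
    rfl s2_pp_213

noncomputable def f_pp_303 : ℕ → ℕ → ℕ → ℕ → Bool := onCell 0 1230186008 0 1230186008 1046898278 26843546
    (rowNX 3 0 false true true .npn 3 0 3 (qsf 0 1230186008 0 1230186008 0) ndN7q3 ndN6q3 pcN0 Cut.none Ext.none)

def k0_pp_303 : ∃ t, chk3 f_pp_303 t 1 1 1 = true :=
  ⟨(a (b (l 3) (a (l 1) (l 3))) (b (a (l 3) (b (a (a (l 3) (b (l 326048029495) (l 3))) (a (c (l 297057719511) (l 299205201271)) (c (l 156397498631) (l 16712088)))) (a (l 3) (a (l 3) (b (c (l 16732104) (l 16721576)) (l 3)))))) (l 3))), by decide +kernel⟩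

theorem c_pp_303 : CertNX 0 1230186008 0 1230186008 1046898278 26843546 3 false true true .npn 3 0 3
    ndN7q3 ndN6q3 pcN0 Cut.none Ext.none :=
  certNX0 (fam := false) (s1 := true) (s2 := true) (a := 3) (b := 0) (c := 3) (cn := .npn) (n1 := ndN7q3) (n2 := ndN6q3) (pc := pcN0) (cut := Cut.none) (xt := Ext.none) (P1 := 0) (W1 := 1230186008) (P2 := 0) (W2 := 1230186008) (P3 := 1046898278) (W3 := 26843546) (N0 := 3)
    rfl k0_pp_303

noncomputable def f_pp_313 : ℕ → ℕ → ℕ → ℕ → Bool := onCell 0 1230186008 0 1230186008 1046898278 26843546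
    (rowNX 3 0 false true true .dn 3 1 3 (qsf 0 1230186008 0 1230186008 1) ndN7q3 ndN6q3 pcN1 Cut.none Ext.none)

def k0_pp_313 : ∃ t, chk3 f_pp_313 t 1 1 1 = true :=
  ⟨(a (l 1) (b (a (l 1) (b (a (l 1) (a (l 1) (c (l 3899864125751) (l 16689328)))) (l 1))) (l 1))), by decide +kernel⟩

theorem c_pp_313 : CertNX 0 1230186008 0 1230186008 1046898278 26843546 3 false true true .dn 3 1 3
    ndN7q3 ndN6q3 pcN1 Cut.none Ext.none :=
  certNX0 (fam := false) (s1 := true) (s2 := true) (a := 3) (b := 1) (c := 3) (cn := .dn) (n1 := ndN7q3) (n2 := ndN6q3) (pc := pcN1) (cut := Cut.none) (xt := Ext.none) (P1 := 0) (W1 := 1230186008) (P2 := 0) (W2 := 1230186008) (P3 := 1046898278) (W3 := 26843546) (N0 := 3)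
    rfl k0_pp_313

noncomputable def f_pm_001 : ℕ → ℕ → ℕ → ℕ → Bool := onCell 0 536870912 536870912 469762048 1046898278 26843546
    (rowNX 3 0 false true false .up 0 0 1 (qsf 0 536870912 536870912 469762048 0) ndN7q0 ndN6q1 pcN0 Cut.none Ext.none)

def k0_pm_001 : ∃ t, chk3 f_pm_001 t 1 1 1 = true :=
  ⟨(l 4), by decide +kernel⟩

theorem c_pm_001 : CertNX 0 536870912 536870912 469762048 1046898278 26843546 3 false true false .up 0 0 1
    ndN7q0 ndN6q1 pcN0 Cut.none Ext.none :=
  certNX0 (fam := false) (s1 := true) (s2 := false) (a := 0) (b := 0) (c := 1) (cn := .up) (n1 := ndN7q0) (n2 := ndN6q1) (pc := pcN0) (cut := Cut.none) (xt := Ext.none) (P1 := 0) (W1 := 536870912) (P2 := 536870912) (W2 := 469762048) (P3 := 1046898278) (W3 := 26843546) (N0 := 3)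
    rfl k0_pm_001

noncomputable def f_pm_011 : ℕ → ℕ → ℕ → ℕ → Bool := onCell 0 536870912 536870912 469762048 1046898278 26843546
    (rowNX 3 0 false true false .pnn 0 1 1 (qsf 0 536870912 536870912 469762048 1) ndN7q0 ndN6q1 pcN1 Cut.none Ext.none)

def k0_pm_011 : ∃ t, chk3 f_pm_011 t 1 1 1 = true :=
  ⟨(l 4), by decide +kernel⟩

theorem c_pm_011 : CertNX 0 536870912 536870912 469762048 1046898278 26843546 3 false true false .pnn 0 1 1
    ndN7q0 ndN6q1 pcN1 Cut.none Ext.none :=
  certNX0 (fam := false) (s1 := true) (s2 := false) (a := 0) (b := 1) (c := 1) (cn := .pnn) (n1 := ndN7q0) (n2 := ndN6q1) (pc := pcN1) (cut := Cut.none) (xt := Ext.none) (P1 := 0) (W1 := 536870912) (P2 := 536870912) (W2 := 469762048) (P3 := 1046898278) (W3 := 26843546) (N0 := 3)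
    rfl k0_pm_011

noncomputable def f_pm_012 : ℕ → ℕ → ℕ → ℕ → Bool := onCell 0 536870912 1073741824 536870912 1046898278 26843546
    (rowNX 3 0 false true false .pnp 0 1 2 (qsf 0 536870912 1073741824 536870912 1) ndN7q0 ndN6q2 pcN1 Cut.none Ext.none)

def k0_pm_012 : ∃ t, chk3 f_pm_012 t 1 1 1 = true :=
  ⟨(l 4), by decide +kernel⟩

theorem c_pm_012 : CertNX 0 536870912 1073741824 536870912 1046898278 26843546 3 false true false .pnp 0 1 2
    ndN7q0 ndN6q2 pcN1 Cut.none Ext.none :=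
  certNX0 (fam := false) (s1 := true) (s2 := false) (a := 0) (b := 1) (c := 2) (cn := .pnp) (n1 := ndN7q0) (n2 := ndN6q2) (pc := pcN1) (cut := Cut.none) (xt := Ext.none) (P1 := 0) (W1 := 536870912) (P2 := 1073741824) (W2 := 536870912) (P3 := 1046898278) (W3 := 26843546) (N0 := 3)
    rfl k0_pm_012

noncomputable def f_pm_022 : ℕ → ℕ → ℕ → ℕ → Bool := onCell 0 536870912 1073741824 536870912 1046898278 26843546
    (rowNX 3 0 false true false .pp 0 2 2 (qsf 0 536870912 1073741824 536870912 2) ndN7q0 ndN6q2 pcN2 Cut.none Ext.none)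

def k0_pm_022 : ∃ t, chk3 f_pm_022 t 1 1 1 = true :=
  ⟨(l 4), by decide +kernel⟩

theorem c_pm_022 : CertNX 0 536870912 1073741824 536870912 1046898278 26843546 3 false true false .pp 0 2 2
    ndN7q0 ndN6q2 pcN2 Cut.none Ext.none :=
  certNX0 (fam := false) (s1 := true) (s2 := false) (a := 0) (b := 2) (c := 2) (cn := .pp) (n1 := ndN7q0) (n2 := ndN6q2) (pc := pcN2) (cut := Cut.none) (xt := Ext.none) (P1 := 0) (W1 := 536870912) (P2 := 1073741824) (W2 := 536870912) (P3 := 1046898278) (W3 := 26843546) (N0 := 3)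
    rfl k0_pm_022

noncomputable def f_pm_023 : ℕ → ℕ → ℕ → ℕ → Bool := onCell 0 536870912 0 1230186008 1046898278 26843546
    (rowNX 3 0 false true false .up 0 2 3 (qsf 0 536870912 0 1230186008 2) ndN7q0 ndN6q3 pcN2 Cut.none Ext.none)

def k0_pm_023 : ∃ t, chk3 f_pm_023 t 1 1 1 = true :=
  ⟨(l 4), by decide +kernel⟩

theorem c_pm_023 : CertNX 0 536870912 0 1230186008 1046898278 26843546 3 false true false .up 0 2 3
    ndN7q0 ndN6q3 pcN2 Cut.none Ext.none :=
  certNX0 (fam := false) (s1 := true) (s2 := false) (a := 0) (b := 2) (c := 3) (cn := .up) (n1 := ndN7q0) (n2 := ndN6q3) (pc := pcN2) (cut := Cut.none) (xt := Ext.none) (P1 := 0) (W1 := 536870912) (P2 := 0) (W2 := 1230186008) (P3 := 1046898278) (W3 := 26843546) (N0 := 3)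
    rfl k0_pm_023

noncomputable def f_pm_033 : ℕ → ℕ → ℕ → ℕ → Bool := onCell 0 536870912 0 1230186008 1046898278 26843546
    (rowNX 3 0 false true false .pnn 0 3 3 (qsf 0 536870912 0 1230186008 3) ndN7q0 ndN6q3 pcN3 Cut.none Ext.none)

def k0_pm_033 : ∃ t, chk3 f_pm_033 t 1 1 1 = true :=
  ⟨(l 4), by decide +kernel⟩

theorem c_pm_033 : CertNX 0 536870912 0 1230186008 1046898278 26843546 3 false true false .pnn 0 3 3
    ndN7q0 ndN6q3 pcN3 Cut.none Ext.none :=
  certNX0 (fam := false) (s1 := true) (s2 := false) (a := 0) (b := 3) (c := 3) (cn := .pnn) (n1 := ndN7q0) (n2 := ndN6q3) (pc := pcN3) (cut := Cut.none) (xt := Ext.none) (P1 := 0) (W1 := 536870912) (P2 := 0) (W2 := 1230186008) (P3 := 1046898278) (W3 := 26843546) (N0 := 3)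
    rfl k0_pm_033

noncomputable def f_pm_101 : ℕ → ℕ → ℕ → ℕ → Bool := onCell 536870912 536870912 536870912 469762048 1046898278 26843546
    (rowNX 3 0 false true false .npn 1 0 1 (qsf 536870912 536870912 536870912 469762048 0) ndN7q1 ndN6q1 pcN0 Cut.none Ext.none)

def k0_pm_101 : ∃ t, chk3 f_pm_101 t 1 1 1 = true :=
  ⟨(l 4), by decide +kernel⟩

theorem c_pm_101 : CertNX 536870912 536870912 536870912 469762048 1046898278 26843546 3 false true false .npn 1 0 1
    ndN7q1 ndN6q1 pcN0 Cut.none Ext.none :=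
  certNX0 (fam := false) (s1 := true) (s2 := false) (a := 1) (b := 0) (c := 1) (cn := .npn) (n1 := ndN7q1) (n2 := ndN6q1) (pc := pcN0) (cut := Cut.none) (xt := Ext.none) (P1 := 536870912) (W1 := 536870912) (P2 := 536870912) (W2 := 469762048) (P3 := 1046898278) (W3 := 26843546) (N0 := 3)
    rfl k0_pm_101

noncomputable def f_pm_102 : ℕ → ℕ → ℕ → ℕ → Bool := onCell 536870912 536870912 1073741824 536870912 1046898278 26843546
    (rowNX 3 0 false true false .npp 1 0 2 (qsf 536870912 536870912 1073741824 536870912 0) ndN7q1 ndN6q2 pcN0 Cut.none Ext.none)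

def k0_pm_102 : ∃ t, chk3 f_pm_102 t 1 1 1 = true :=
  ⟨(l 4), by decide +kernel⟩

theorem c_pm_102 : CertNX 536870912 536870912 1073741824 536870912 1046898278 26843546 3 false true false .npp 1 0 2
    ndN7q1 ndN6q2 pcN0 Cut.none Ext.none :=
  certNX0 (fam := false) (s1 := true) (s2 := false) (a := 1) (b := 0) (c := 2) (cn := .npp) (n1 := ndN7q1) (n2 := ndN6q2) (pc := pcN0) (cut := Cut.none) (xt := Ext.none) (P1 := 536870912) (W1 := 536870912) (P2 := 1073741824) (W2 := 536870912) (P3 := 1046898278) (W3 := 26843546) (N0 := 3)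
    rfl k0_pm_102

noncomputable def f_pm_112 : ℕ → ℕ → ℕ → ℕ → Bool := onCell 536870912 536870912 1073741824 536870912 1046898278 26843546
    (rowNX 3 0 false true false .dn 1 1 2 (qsf 536870912 536870912 1073741824 536870912 1) ndN7q1 ndN6q2 pcN1 Cut.none Ext.none)

def k0_pm_112 : ∃ t, chk3 f_pm_112 t 1 1 1 = true :=
  ⟨(l 4), by decide +kernel⟩

theorem c_pm_112 : CertNX 536870912 536870912 1073741824 536870912 1046898278 26843546 3 false true false .dn 1 1 2
    ndN7q1 ndN6q2 pcN1 Cut.none Ext.none :=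
  certNX0 (fam := false) (s1 := true) (s2 := false) (a := 1) (b := 1) (c := 2) (cn := .dn) (n1 := ndN7q1) (n2 := ndN6q2) (pc := pcN1) (cut := Cut.none) (xt := Ext.none) (P1 := 536870912) (W1 := 536870912) (P2 := 1073741824) (W2 := 536870912) (P3 := 1046898278) (W3 := 26843546) (N0 := 3)
    rfl k0_pm_112

noncomputable def f_pm_113 : ℕ → ℕ → ℕ → ℕ → Bool := onCell 536870912 536870912 0 1230186008 1046898278 26843546
    (rowNX 3 0 false true false .nn 1 1 3 (qsf 536870912 536870912 0 1230186008 1) ndN7q1 ndN6q3 pcN1 Cut.none Ext.none)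

def k0_pm_113 : ∃ t, chk3 f_pm_113 t 1 1 1 = true :=
  ⟨(b (a (l 2) (a (l 2) (b (a (l 2) (a (l 2) (a (l 4) (b (a (l 2) (b (l 16742040) (l 4))) (l 4))))) (l 4)))) (l 4)), by decide +kernel⟩

theorem c_pm_113 : CertNX 536870912 536870912 0 1230186008 1046898278 26843546 3 false true false .nn 1 1 3
    ndN7q1 ndN6q3 pcN1 Cut.none Ext.none :=
  certNX0 (fam := false) (s1 := true) (s2 := false) (a := 1) (b := 1) (c := 3) (cn := .nn) (n1 := ndN7q1) (n2 := ndN6q3) (pc := pcN1) (cut := Cut.none) (xt := Ext.none) (P1 := 536870912) (W1 := 536870912) (P2 := 0) (W2 := 1230186008) (P3 := 1046898278) (W3 := 26843546) (N0 := 3)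
    rfl k0_pm_113

noncomputable def f_pm_123 : ℕ → ℕ → ℕ → ℕ → Bool := onCell 536870912 536870912 0 1230186008 1046898278 26843546
    (rowNX 3 0 false true false .npn 1 2 3 (qsf 536870912 536870912 0 1230186008 2) ndN7q1 ndN6q3 pcN2 Cut.none Ext.none)

def k0_pm_123 : ∃ t, chk3 f_pm_123 t 1 1 1 = true :=
  ⟨(b (a (l 4) (b (a (l 4) (a (l 4) (b (a (l 4) (c (l 16724816) (a (l 4) (c (l 16735808) (l 14185216))))) (l 4)))) (l 4))) (l 4)), by decide +kernel⟩

theorem c_pm_123 : CertNX 536870912 536870912 0 1230186008 1046898278 26843546 3 false true false .npn 1 2 3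
    ndN7q1 ndN6q3 pcN2 Cut.none Ext.none :=
  certNX0 (fam := false) (s1 := true) (s2 := false) (a := 1) (b := 2) (c := 3) (cn := .npn) (n1 := ndN7q1) (n2 := ndN6q3) (pc := pcN2) (cut := Cut.none) (xt := Ext.none) (P1 := 536870912) (W1 := 536870912) (P2 := 0) (W2 := 1230186008) (P3 := 1046898278) (W3 := 26843546) (N0 := 3)
    rfl k0_pm_123

noncomputable def f_pm_133 : ℕ → ℕ → ℕ → ℕ → Bool := onCell 1610612736 536870912 0 1230186008 1046898278 26843546
    (rowNX 3 2 false true false .dn 1 3 3 (qsf 536870912 536870912 0 1230186008 3) ndN7q1 ndN6q3 pcN3 Cut.none Ext.none)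

def k0_pm_133 : ∃ t, chk3 f_pm_133 t 1 1 1 = true :=
  ⟨(l 4), by decide +kernel⟩

theorem c_pm_133 : CertNX 536870912 536870912 0 1230186008 1046898278 26843546 3 false true false .dn 1 3 3
    ndN7q1 ndN6q3 pcN3 Cut.none Ext.none :=
  certNX2 (fam := false) (s1 := true) (s2 := false) (a := 1) (b := 3) (c := 3) (cn := .dn) (n1 := ndN7q1) (n2 := ndN6q3) (pc := pcN3) (cut := Cut.none) (xt := Ext.none) (P1 := 536870912) (W1 := 536870912) (P2 := 0) (W2 := 1230186008) (P3 := 1046898278) (W3 := 26843546) (N0 := 3)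
    rfl (fun _ => rfl) k0_pm_133

noncomputable def f_pm_202 : ℕ → ℕ → ℕ → ℕ → Bool := onCell 1073741824 536870912 1073741824 536870912 1046898278 26843546
    (rowNX 3 0 false true false .pp 2 0 2 (qsf 1073741824 536870912 1073741824 536870912 0) ndN7q2 ndN6q2 pcN0 Cut.none Ext.none)

def k0_pm_202 : ∃ t, chk3 f_pm_202 t 1 1 1 = true :=
  ⟨(l 4), by decide +kernel⟩

theorem c_pm_202 : CertNX 1073741824 536870912 1073741824 536870912 1046898278 26843546 3 false true false .pp 2 0 2
    ndN7q2 ndN6q2 pcN0 Cut.none Ext.none :=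
  certNX0 (fam := false) (s1 := true) (s2 := false) (a := 2) (b := 0) (c := 2) (cn := .pp) (n1 := ndN7q2) (n2 := ndN6q2) (pc := pcN0) (cut := Cut.none) (xt := Ext.none) (P1 := 1073741824) (W1 := 536870912) (P2 := 1073741824) (W2 := 536870912) (P3 := 1046898278) (W3 := 26843546) (N0 := 3)
    rfl k0_pm_202

noncomputable def f_pm_203 : ℕ → ℕ → ℕ → ℕ → Bool := onCell 1073741824 536870912 0 1230186008 1046898278 26843546
    (rowNX 3 0 false true false .up 2 0 3 (qsf 1073741824 536870912 0 1230186008 0) ndN7q2 ndN6q3 pcN0 Cut.none Ext.none)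

def k0_pm_203 : ∃ t, chk3 f_pm_203 t 1 1 1 = true :=
  ⟨(a (b (l 2) (l 4)) (b (a (l 2) (b (b (l 16721712) (l 16702872)) (b (l 16728152) (l 16755512)))) (b (a (l 22782528695) (l 16777168)) (l 4)))), by decide +kernel⟩

theorem c_pm_203 : CertNX 1073741824 536870912 0 1230186008 1046898278 26843546 3 false true false .up 2 0 3
    ndN7q2 ndN6q3 pcN0 Cut.none Ext.none :=
  certNX0 (fam := false) (s1 := true) (s2 := false) (a := 2) (b := 0) (c := 3) (cn := .up) (n1 := ndN7q2) (n2 := ndN6q3) (pc := pcN0) (cut := Cut.none) (xt := Ext.none) (P1 := 1073741824) (W1 := 536870912) (P2 := 0) (W2 := 1230186008) (P3 := 1046898278) (W3 := 26843546) (N0 := 3)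
    rfl k0_pm_203

noncomputable def f_pm_213 : ℕ → ℕ → ℕ → ℕ → Bool := onCell 536870912 536870912 0 1230186008 1046898278 26843546
    (rowNX 3 2 false true false .pnn 2 1 3 (qsf 1073741824 536870912 0 1230186008 1) ndN7q2 ndN6q3 pcN1 Cut.none Ext.none)

def k0_pm_213 : ∃ t, chk3 f_pm_213 t 1 1 1 = true :=
  ⟨(b (b (b (a (a (l 16721712) (l 16487792)) (a (a (a (l 15756640) (l 15529800)) (b (l 15448768) (a (b (l 15477792) (a (l 15593424) (l 15612240))) (a (b (l 15368536) (a (b (l 15522816) (l 15826360)) (b (l 15599632) (l 16277616)))) (b (l 15636992) (a (a (l 15840720) (l 15959872)) (l 15962888))))))) (a (a (b (l 15565024) (a (b (b (l 15750792) (c (l 15836184) (l 15763584))) (l 16411472)) (b (a (b (l 15880720) (l 16177928)) (c (l 16060688) (l 15994816))) (l 16603864)))) (c (c (a (b (l 16091320) (l 16106136)) (a (l 16089832) (l 16027784))) (a (l 15999424) (b (l 16048736) (l 16300240)))) (a (a (l 15959568) (l 15955584)) (l 15935944)))) (a (c (c (a (l 16130880) (l 16345040))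 (a (b (a (l 16112512) (l 16201744)) (l 16318072)) (l 16278504))) (a (l 15994720) (c (b (c (l 16271992) (l 16284312)) (l 16170304)) (l 15880272)))) (b (c (a (l 16603704) (l 16763192)) (c (a (c (l 16500520) (l 16460992)) (l 16705192)) (a (l 16327344) (c (l 15153504) (l 13427216))))) (l 4)))))) (a (a (l 16702872) (a (l 16617712) (a (l 16282744) (b (l 16002768) (l 16035400))))) (a (a (a (b (l 15653608) (l 15863888)) (b (l 15527968) (l 15893344))) (a (a (b (l 15776096) (l 16024208)) (l 15956656)) (l 16174032))) (b (a (a (a (l 16295168) (l 16268520)) (a (a (l 16128936) (l 4)) (l 4))) (l 4)) (l 4))))) (b (a (a (l 16723448) (a (l 16510888) (a (l 16183592) (l 15876624)))) (a (a (a (l 15740080) (l 15501304)) (l 4)) (l 4))) (a (a (l 16680784) (a (l 16158104) (l 4))) (l 4)))) (a (b (a (b (l 16365624) (l 4)) (l 4)) (l 4)) (l 4))), by decide +kernel⟩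

theorem c_pm_213 : CertNX 1073741824 536870912 0 1230186008 1046898278 26843546 3 false true false .pnn 2 1 3
    ndN7q2 ndN6q3 pcN1 Cut.none Ext.none :=
  certNX2 (fam := false) (s1 := true) (s2 := false) (a := 2) (b := 1) (c := 3) (cn := .pnn) (n1 := ndN7q2) (n2 := ndN6q3) (pc := pcN1) (cut := Cut.none) (xt := Ext.none) (P1 := 1073741824) (W1 := 536870912) (P2 := 0) (W2 := 1230186008) (P3 := 1046898278) (W3 := 26843546) (N0 := 3)
    rfl (fun _ => rfl) k0_pm_213

noncomputable def f_pm_303 : ℕ → ℕ → ℕ → ℕ → Bool := onCell 0 1230186008 0 1230186008 1046898278 26843546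
    (rowNX 3 0 false true false .npn 3 0 3 (qsf 0 1230186008 0 1230186008 0) ndN7q3 ndN6q3 pcN0 Cut.none Ext.none)

def k0_pm_303 : ∃ t, chk3 f_pm_303 t 2 1 1 = true :=
  ⟨(b (l 3) (a (l 1) (b (a (l 1) (b (b (b (b (l 3) (l 1)) (l 1)) (l 1)) (l 1))) (l 1)))), by decide +kernel⟩

def k1_pm_303 : ∃ t, chk3 f_pm_303 t 6 4 1 = true :=
  ⟨(a (l 3) (a (l 3) (b (l 3) (a (b (l 3) (l 16543896)) (b (l 16694680) (l 16704176)))))), by decide +kernel⟩

def k2_pm_303 : ∃ t, chk3 f_pm_303 t 12 10 1 = true :=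
  ⟨(b (l 3) (a (l 3) (a (l 3) (a (l 3) (l 15581608))))), by decide +kernel⟩

def k3_pm_303 : ∃ t, chk3 f_pm_303 t 24 11 1 = true :=
  ⟨(b (l 3) (a (a (l 3) (a (l 3) (b (l 3) (b (l 3) (c (l 14173776) (c (c (l 14142488) (c (l 14123240) (l 392078312167))) (l 14081160))))))) (c (b (a (l 3) (c (c (b (l 401742457351) (l 14501728)) (b (l 396373706967) (a (l 14462072) (l 14507816)))) (c (b (l 14464072) (b (l 14449160) (l 14450496))) (l 14432472)))) (c (a (l 14294512) (l 14394168)) (a (b (c (l 14313320) (a (l 14262088) (l 321211613255))) (l 14235872)) (b (c (a (a (l 14377336) (l 14398328)) (l 14421616)) (l 14375800)) (c (l 14357136) (a (l 14305128) (l 14360712))))))) (b (l 397984251063) (c (a (b (c (a (l 14246368) (l 14289312)) (l 14240680)) (c (a (l 14183752) (b (l 14248672) (l 14217184))) (a (c (l 14156656) (l 14151400)) (l 14194664)))) (b (l 14326432) (l 14300896))) (l 14228776)))))), by decide +kernel⟩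

def k4_pm_303 : ∃ t, chk3 f_pm_303 t 25 11 1 = true :=
  ⟨(b (a (b (c (l 14976008) (l 14900440)) (a (a (l 3) (c (l 318527650407) (l 14611056))) (b (l 14847960) (c (l 14843760) (l 14769632))))) (a (b (c (l 15249680) (l 15184216)) (b (c (l 15184920) (l 15120656)) (c (l 15144632) (l 15081232)))) (b (c (l 15525832) (l 15470496)) (b (c (l 15528968) (l 15477048)) (l 15700376))))) (a (b (c (a (c (b (a (c (l 14602432) (l 14536880)) (l 14604680)) (c (a (l 14573064) (l 14610928)) (a (l 14535192) (l 14556896)))) (b (l 14582104) (l 14503232))) (b (a (l 14651944) (l 14774592)) (a (b (l 14623184) (l 14627216)) (l 14584376)))) (a (b (l 14521464) (l 14440528)) (b (l 14682784) (l 14628464)))) (c (c (a (c (l 14523480) (b (l 14539192) (l 14468136))) (b (c (l 14650040) (l 14621952)) (l 14611096))) (a (b (l 14502792) (b (l 14461312) (l 14454000))) (l 14560592))) (b (l 14489024) (l 14443040)))) (b (a (b (l 15152744) (c (a (l 14921464) (l 15151200)) (l 14963160))) (c (b (l 15719336) (l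 15471304)) (b (l 15678488) (l 15423856)))) (b (a (a (l 14703824) (l 14843904)) (l 15147128)) (a (c (c (l 14727144) (l 14697120)) (l 14634624)) (b (l 14932840) (c (l 14900928) (l 14813096)))))))), by decide +kernel⟩

def k5_pm_303 : ∃ t, chk3 f_pm_303 t 13 5 1 = true :=
  ⟨(b (a (b (l 429125688007) (a (b (l 15794320) (a (l 15631296) (l 15808976))) (b (l 16083720) (a (l 16002408) (l 16280616))))) (a (b (a (l 16382952) (l 16514960)) (a (l 16421328) (l 16576848))) (b (b (l 16672136) (l 16691792)) (b (l 16694416) (l 16732424))))) (a (b (a (b (a (l 15695800) (l 16009104)) (a (b (l 16024416) (c (l 16272736) (l 16249512))) (l 16429104))) (b (l 16475912) (a (l 16564888) (l 16630064)))) (a (b (a (b (c (l 16205696) (l 16182088)) (l 15805872)) (b (l 16406296) (l 16082160))) (b (a (l 15452760) (l 15758968)) (l 15374368))) (b (b (l 16404776) (l 16192592)) (a (b (a (l 15964144) (l 16032168)) (l 15823344)) (l 16072944))))) (b (a (b (l 16720952) (l 16654496)) (b (l 16719840) (l 16609040)))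 (b (a (l 16397912) (l 16516040)) (l 16301120))))), by decide +kernel⟩

def k6_pm_303 : ∃ t, chk3 f_pm_303 t 7 2 1 = true :=
  ⟨(b (a (c (a (l 263234852055) (l 241223144663)) (a (l 263771721079) (l 16691120))) (a (b (l 16721712) (l 16702872)) (l 16688536))) (a (a (b (a (b (l 16738240) (b (l 16744128) (l 16733184))) (l 16728152)) (b (a (l 16675664) (b (l 16734680) (l 16731232))) (a (l 16548648) (l 16667784)))) (b (l 16728152) (b (l 16742256) (a (l 16751328) (l 16771008))))) (a (l 16740592) (l 16740592)))), by decide +kernel⟩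

def k7_pm_303 : ∃ t, chk3 f_pm_303 t 12 24 1 = true :=
  ⟨(a (a (b (a (c (b (l 14040224) (l 13962624)) (b (a (l 3) (c (l 13980984) (c (l 13947808) (b (l 3) (c (l 13912536) (l 13899392)))))) (l 1894108813863))) (c (b (b (l 14112320) (l 14088888)) (l 14059168)) (c (b (b (l 14056616) (a (l 13996192) (l 14046608))) (l 13994880)) (b (c (b (c (l 392615071079) (a (l 13994920) (l 14029288))) (a (l 13965944) (l 14015408))) (a (b (l 13968504) (c (l 13948480) (l 13934392))) (l 13991304))) (b (a (l 13942272) (l 14007816)) (l 13963712)))))) (c (l 1986450245975) (l 13806048))) (b (c (b (a (c (b (l 14218760) (l 14194216)) (a (l 14142720) (l 14210344))) (l 14315176)) (a (c (l 14209128) (a (l 14133528) (l 14188776))) (c (a (l 14287368) (l 14328376)) (l 14268600)))) (a (c (b (a (c (l 14120152) (l 14100520)) (l 14173896)) (b (l 14128216) (l 14134344))) (b (b (l 14115824) (l 14088552)) (l 14101832))) (b (l 14230392) (l 14217040)))) (c (b (a (l 14115240) (b (l 14305136) (l 14300232)))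 (l 14179128)) (b (a (c (l 14114608) (b (l 14100584) (l 14088728))) (c (b (l 14255896) (l 14256856)) (l 14225728))) (a (l 14053288) (b (a (l 14209872) (l 14283184)) (l 1789419198903))))))) (a (b (c (b (l 14497984) (c (l 14447552) (l 14433600))) (b (l 14440104) (l 14427024))) (c (b (a (c (l 14424280) (l 14397048)) (l 14498712)) (a (b (l 14424384) (l 14422328)) (a (b (l 14487760) (l 14525048)) (l 14548080)))) (b (l 14421536) (a (c (b (l 14378120) (l 14379440)) (b (l 14349976) (l 14351648))) (c (l 14494664) (l 14478200)))))) (b (c (b (a (l 14687656) (l 14824280)) (l 14711064)) (l 14681248)) (c (b (l 14703568) (a (l 14619920) (l 14749752))) (l 14682096))))), by decide +kernel⟩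

def k8_pm_303 : ∃ t, chk3 f_pm_303 t 12 25 1 = true :=
  ⟨(a (b (a (l 1) (b (c (l 14125128) (l 14092144)) (l 1))) (l 1)) (a (b (b (b (c (a (l 14407752) (a (l 14518640) (l 14582392))) (a (c (l 14374248) (a (l 14320376) (l 14381728))) (b (l 14471672) (l 14482784)))) (c (l 14457072) (l 14415368))) (a (l 14314616) (l 14506896))) (l 14340736)) (b (c (b (l 14710896) (l 14711656)) (a (l 14603824) (l 14725304))) (c (b (l 14704192) (l 14675552)) (b (a (l 14601464) (l 14726736)) (a (l 14562000) (l 14726560))))))), by decide +kernel⟩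

def k9_pm_303 : ∃ t, chk3 f_pm_303 t 12 13 1 = true :=
  ⟨(b (a (l 1) (b (l 1542458501095) (l 1))) (l 1)), by decide +kernel⟩

def k10_pm_303 : ∃ t, chk3 f_pm_303 t 13 6 1 = true :=
  ⟨(b (b (a (a (b (c (b (l 15208208) (a (l 14961536) (l 15196184))) (a (l 14961960) (l 15219128))) (a (c (l 14905736) (l 14864320)) (b (c (b (l 15106632) (l 15058560)) (l 15031112)) (l 15011672)))) (b (a (l 15514216) (l 15717432)) (b (l 15416096) (l 15312576)))) (b (a (a (l 15983392) (l 16083000)) (l 16232176)) (l 15941848))) (a (a (b (c (l 14933712) (l 14914624)) (c (b (l 14948832) (a (l 14899728) (l 15009160))) (a (b (l 14824808) (l 14849976)) (l 14968064)))) (b (l 15194488) (c (l 15168960) (l 15152784)))) (a (b (l 15591904) (a (l 15344840) (l 15512704))) (b (l 15939208) (l 15769440))))) (b (a (b (a (b (c (l 14822400) (a (l 14851808) (l 14973208))) (a (l 14824344) (c (l 15007576) (l 14977184)))) (c (a (b (l 15128080) (l 15139992)) (l 15244240)) (a (b (l 15068472) (l 15096416)) (l 15209664))))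 (a (l 14865608) (b (a (c (l 15130864) (c (l 15110912) (l 15096056))) (c (l 15260072) (l 15219584))) (a (l 15081944) (c (l 15254256) (c (l 15236024) (l 15222200))))))) (a (b (c (l 15401784) (l 15388192)) (c (a (b (l 15365152) (l 15380104)) (l 15479520)) (a (b (l 15311768) (l 15342704)) (l 15449888)))) (b (a (l 15575648) (l 15725160)) (c (l 15631136) (l 15609088))))) (a (b (a (l 1) (l 15132384)) (l 1)) (b (a (a (b (c (l 15377752) (b (l 15356280) (l 15355976))) (l 15341312)) (b (c (l 15500064) (l 15465752)) (c (l 15501344) (b (l 15481048) (l 15482624))))) (c (a (b (l 15600920) (l 15619936)) (l 15720432)) (a (b (l 15554608) (c (l 15600528) (l 15587384))) (l 15696464)))) (a (c (l 15419224) (l 15402688)) (b (a (c (l 15629280) (b (l 15608160) (l 15608032))) (b (c (l 15733784) (l 15704040)) (l 15742064))) (l 15678360))))))), by decide +kernel⟩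

def k11_pm_303 : ∃ t, chk3 f_pm_303 t 6 7 1 = true :=
  ⟨(a (l 1) (b (a (l 1) (b (b (l 15544424) (l 1)) (l 1))) (l 1))), by decide +kernel⟩

def k12_pm_303 : ∃ t, chk3 f_pm_303 t 7 3 1 = true :=
  ⟨(b (a (b (a (b (a (l 16343144) (l 16478408)) (l 16159504)) (b (l 16685976) (l 16509080))) (a (b (a (b (l 15911896) (a (l 15795328) (l 15908096))) (l 16083040)) (b (a (c (b (l 15859584) (l 15857256)) (l 15842376)) (b (l 16026280) (l 16053352))) (a (c (l 15893752) (l 15875408)) (l 16067656)))) (b (l 16325392) (a (b (l 16188768) (l 16247680)) (l 16375288))))) (b (a (b (l 16777160) (l 16750280)) (l 16777152)) (a (b (a (l 16606496) (l 16731344)) (l 16609608)) (l 16748768)))) (a (b (b (a (b (c (a (l 15929560) (a (l 16082336) (l 16169248))) (a (a (l 15861528) (l 15969440)) (l 16113792))) (a (l 15947880) (a (b (l 16116312) (l 16133336)) (b (l 16209080) (l 16241368))))) (a (b (l 16289456) (a (b (l 16289280) (l 16329784)) (l 16395664))) (b (l 16449928) (l 16508120)))) (a (b (l 16120176)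 (l 1)) (a (b (a (b (l 16366464) (l 16398200)) (b (c (l 16455056) (l 16447888)) (l 16491592))) (l 16507800)) (b (a (c (l 16551808) (l 16547056)) (l 16622840)) (a (b (l 16616728) (l 16664664)) (b (c (l 16692048) (l 16690160)) (c (l 16738576) (l 16737952)))))))) (a (l 1) (b (b (a (l 1) (l 16743320)) (l 1)) (l 1)))) (b (b (a (a (b (l 16576120) (l 16646200)) (l 16713984)) (l 16832248)) (a (a (b (l 16714384) (a (b (l 16751336) (c (l 16773760) (l 16773688))) (l 16776496))) (b (a (l 16771528) (l 4)) (l 4))) (l 4))) (a (l 4) (l 4))))), by decide +kernel⟩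

theorem s13_pm_303 : ∃ t, chk3 f_pm_303 t 12 12 1 = true := ex3_b k7_pm_303 k8_pm_303

theorem s14_pm_303 : ∃ t, chk3 f_pm_303 t 12 6 1 = true := ex3_b s13_pm_303 k9_pm_303

theorem s15_pm_303 : ∃ t, chk3 f_pm_303 t 6 6 1 = true := ex3_a s14_pm_303 k10_pm_303

theorem s16_pm_303 : ∃ t, chk3 f_pm_303 t 6 3 1 = true := ex3_b s15_pm_303 k11_pm_303

theorem s17_pm_303 : ∃ t, chk3 f_pm_303 t 3 3 1 = true := ex3_a s16_pm_303 k12_pm_303

theorem s18_pm_303 : ∃ t, chk3 f_pm_303 t 12 11 1 = true := ex3_a k3_pm_303 k4_pm_303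

theorem s19_pm_303 : ∃ t, chk3 f_pm_303 t 12 5 1 = true := ex3_b k2_pm_303 s18_pm_303

theorem s20_pm_303 : ∃ t, chk3 f_pm_303 t 6 5 1 = true := ex3_a s19_pm_303 k5_pm_303

theorem s21_pm_303 : ∃ t, chk3 f_pm_303 t 6 2 1 = true := ex3_b k1_pm_303 s20_pm_303

theorem s22_pm_303 : ∃ t, chk3 f_pm_303 t 3 2 1 = true := ex3_a s21_pm_303 k6_pm_303

theorem s23_pm_303 : ∃ t, chk3 f_pm_303 t 3 1 1 = true := ex3_b s22_pm_303 s17_pm_303

theorem s24_pm_303 : ∃ t, chk3 f_pm_303 t 1 1 1 = true := ex3_a k0_pm_303 s23_pm_303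

theorem c_pm_303 : CertNX 0 1230186008 0 1230186008 1046898278 26843546 3 false true false .npn 3 0 3
    ndN7q3 ndN6q3 pcN0 Cut.none Ext.none :=
  certNX0 (fam := false) (s1 := true) (s2 := false) (a := 3) (b := 0) (c := 3) (cn := .npn) (n1 := ndN7q3) (n2 := ndN6q3) (pc := pcN0) (cut := Cut.none) (xt := Ext.none) (P1 := 0) (W1 := 1230186008) (P2 := 0) (W2 := 1230186008) (P3 := 1046898278) (W3 := 26843546) (N0 := 3)
    rfl s24_pm_303

noncomputable def f_pm_313 : ℕ → ℕ → ℕ → ℕ → Bool := onCell 0 1230186008 0 1230186008 1046898278 26843546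
    (rowNX 3 0 false true false .dn 3 1 3 (qsf 0 1230186008 0 1230186008 1) ndN7q3 ndN6q3 pcN1 Cut.none Ext.none)

def k0_pm_313 : ∃ t, chk3 f_pm_313 t 1 1 1 = true :=
  ⟨(a (l 1) (b (a (l 1) (b (a (l 1) (a (l 1) (l 16686688))) (l 1))) (l 1))), by decide +kernel⟩

theorem c_pm_313 : CertNX 0 1230186008 0 1230186008 1046898278 26843546 3 false true false .dn 3 1 3
    ndN7q3 ndN6q3 pcN1 Cut.none Ext.none :=
  certNX0 (fam := false) (s1 := true) (s2 := false) (a := 3) (b := 1) (c := 3) (cn := .dn) (n1 := ndN7q3) (n2 := ndN6q3) (pc := pcN1) (cut := Cut.none) (xt := Ext.none) (P1 := 0) (W1 := 1230186008) (P2 := 0) (W2 := 1230186008) (P3 := 1046898278) (W3 := 26843546) (N0 := 3)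
    rfl k0_pm_313

noncomputable def f_mm_001 : ℕ → ℕ → ℕ → ℕ → Bool := onCell 0 536870912 536870912 469762048 1046898278 26843546
    (rowNX 3 0 false false false .up 0 0 1 (qsf 0 536870912 536870912 469762048 0) ndN7q0 ndN6q1 pcN0 Cut.none Ext.none)

def k0_mm_001 : ∃ t, chk3 f_mm_001 t 1 1 1 = true :=
  ⟨(l 3), by decide +kernel⟩

theorem c_mm_001 : CertNX 0 536870912 536870912 469762048 1046898278 26843546 3 false false false .up 0 0 1
    ndN7q0 ndN6q1 pcN0 Cut.none Ext.none :=
  certNX0 (fam := false) (s1 := false) (s2 := false) (a := 0) (b := 0) (c := 1) (cn := .up) (n1 := ndN7q0) (n2 := ndN6q1) (pc := pcN0) (cut := Cut.none) (xt := Ext.none) (P1 := 0) (W1 := 536870912) (P2 := 536870912) (W2 := 469762048) (P3 := 1046898278) (W3 := 26843546) (N0 := 3)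
    rfl k0_mm_001

noncomputable def f_mm_011 : ℕ → ℕ → ℕ → ℕ → Bool := onCell 0 536870912 536870912 469762048 1046898278 26843546
    (rowNX 3 0 false false false .pnn 0 1 1 (qsf 0 536870912 536870912 469762048 1) ndN7q0 ndN6q1 pcN1 Cut.none Ext.none)

def k0_mm_011 : ∃ t, chk3 f_mm_011 t 1 1 1 = true :=
  ⟨(l 3), by decide +kernel⟩

theorem c_mm_011 : CertNX 0 536870912 536870912 469762048 1046898278 26843546 3 false false false .pnn 0 1 1
    ndN7q0 ndN6q1 pcN1 Cut.none Ext.none :=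
  certNX0 (fam := false) (s1 := false) (s2 := false) (a := 0) (b := 1) (c := 1) (cn := .pnn) (n1 := ndN7q0) (n2 := ndN6q1) (pc := pcN1) (cut := Cut.none) (xt := Ext.none) (P1 := 0) (W1 := 536870912) (P2 := 536870912) (W2 := 469762048) (P3 := 1046898278) (W3 := 26843546) (N0 := 3)
    rfl k0_mm_011

noncomputable def f_mm_012 : ℕ → ℕ → ℕ → ℕ → Bool := onCell 0 536870912 1073741824 536870912 1046898278 26843546
    (rowNX 3 0 false false false .pnp 0 1 2 (qsf 0 536870912 1073741824 536870912 1) ndN7q0 ndN6q2 pcN1 Cut.none Ext.none)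

def k0_mm_012 : ∃ t, chk3 f_mm_012 t 1 1 1 = true :=
  ⟨(l 5), by decide +kernel⟩

theorem c_mm_012 : CertNX 0 536870912 1073741824 536870912 1046898278 26843546 3 false false false .pnp 0 1 2
    ndN7q0 ndN6q2 pcN1 Cut.none Ext.none :=
  certNX0 (fam := false) (s1 := false) (s2 := false) (a := 0) (b := 1) (c := 2) (cn := .pnp) (n1 := ndN7q0) (n2 := ndN6q2) (pc := pcN1) (cut := Cut.none) (xt := Ext.none) (P1 := 0) (W1 := 536870912) (P2 := 1073741824) (W2 := 536870912) (P3 := 1046898278) (W3 := 26843546) (N0 := 3)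
    rfl k0_mm_012

noncomputable def f_mm_022 : ℕ → ℕ → ℕ → ℕ → Bool := onCell 0 536870912 1073741824 536870912 1046898278 26843546
    (rowNX 3 0 false false false .pp 0 2 2 (qsf 0 536870912 1073741824 536870912 2) ndN7q0 ndN6q2 pcN2 Cut.none Ext.none)

def k0_mm_022 : ∃ t, chk3 f_mm_022 t 1 1 1 = true :=
  ⟨(l 5), by decide +kernel⟩

theorem c_mm_022 : CertNX 0 536870912 1073741824 536870912 1046898278 26843546 3 false false false .pp 0 2 2
    ndN7q0 ndN6q2 pcN2 Cut.none Ext.none :=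
  certNX0 (fam := false) (s1 := false) (s2 := false) (a := 0) (b := 2) (c := 2) (cn := .pp) (n1 := ndN7q0) (n2 := ndN6q2) (pc := pcN2) (cut := Cut.none) (xt := Ext.none) (P1 := 0) (W1 := 536870912) (P2 := 1073741824) (W2 := 536870912) (P3 := 1046898278) (W3 := 26843546) (N0 := 3)
    rfl k0_mm_022

noncomputable def f_mm_023 : ℕ → ℕ → ℕ → ℕ → Bool := onCell 0 536870912 0 1230186008 1046898278 26843546
    (rowNX 3 0 false false false .up 0 2 3 (qsf 0 536870912 0 1230186008 2) ndN7q0 ndN6q3 pcN2 Cut.none Ext.none)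

def k0_mm_023 : ∃ t, chk3 f_mm_023 t 1 1 1 = true :=
  ⟨(l 5), by decide +kernel⟩

theorem c_mm_023 : CertNX 0 536870912 0 1230186008 1046898278 26843546 3 false false false .up 0 2 3
    ndN7q0 ndN6q3 pcN2 Cut.none Ext.none :=
  certNX0 (fam := false) (s1 := false) (s2 := false) (a := 0) (b := 2) (c := 3) (cn := .up) (n1 := ndN7q0) (n2 := ndN6q3) (pc := pcN2) (cut := Cut.none) (xt := Ext.none) (P1 := 0) (W1 := 536870912) (P2 := 0) (W2 := 1230186008) (P3 := 1046898278) (W3 := 26843546) (N0 := 3)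
    rfl k0_mm_023

noncomputable def f_mm_033 : ℕ → ℕ → ℕ → ℕ → Bool := onCell 0 536870912 0 1230186008 1046898278 26843546
    (rowNX 3 0 false false false .pnn 0 3 3 (qsf 0 536870912 0 1230186008 3) ndN7q0 ndN6q3 pcN3 Cut.none Ext.none)

def k0_mm_033 : ∃ t, chk3 f_mm_033 t 1 1 1 = true :=
  ⟨(l 5), by decide +kernel⟩

theorem c_mm_033 : CertNX 0 536870912 0 1230186008 1046898278 26843546 3 false false false .pnn 0 3 3
    ndN7q0 ndN6q3 pcN3 Cut.none Ext.none :=
  certNX0 (fam := false) (s1 := false) (s2 := false) (a := 0) (b := 3) (c := 3) (cn := .pnn) (n1 := ndN7q0) (n2 := ndN6q3) (pc := pcN3) (cut := Cut.none) (xt := Ext.none) (P1 := 0) (W1 := 536870912) (P2 := 0) (W2 := 1230186008) (P3 := 1046898278) (W3 := 26843546) (N0 := 3)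
    rfl k0_mm_033

noncomputable def f_mm_101 : ℕ → ℕ → ℕ → ℕ → Bool := onCell 536870912 536870912 536870912 469762048 1046898278 26843546
    (rowNX 3 0 false false false .npn 1 0 1 (qsf 536870912 536870912 536870912 469762048 0) ndN7q1 ndN6q1 pcN0 Cut.none Ext.none)

def k0_mm_101 : ∃ t, chk3 f_mm_101 t 1 1 1 = true :=
  ⟨(l 3), by decide +kernel⟩

theorem c_mm_101 : CertNX 536870912 536870912 536870912 469762048 1046898278 26843546 3 false false false .npn 1 0 1
    ndN7q1 ndN6q1 pcN0 Cut.none Ext.none :=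
  certNX0 (fam := false) (s1 := false) (s2 := false) (a := 1) (b := 0) (c := 1) (cn := .npn) (n1 := ndN7q1) (n2 := ndN6q1) (pc := pcN0) (cut := Cut.none) (xt := Ext.none) (P1 := 536870912) (W1 := 536870912) (P2 := 536870912) (W2 := 469762048) (P3 := 1046898278) (W3 := 26843546) (N0 := 3)
    rfl k0_mm_101

noncomputable def f_mm_102 : ℕ → ℕ → ℕ → ℕ → Bool := onCell 536870912 536870912 1073741824 536870912 1046898278 26843546
    (rowNX 3 0 false false false .npp 1 0 2 (qsf 536870912 536870912 1073741824 536870912 0) ndN7q1 ndN6q2 pcN0 Cut.none Ext.none)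

def k0_mm_102 : ∃ t, chk3 f_mm_102 t 1 1 1 = true :=
  ⟨(l 5), by decide +kernel⟩

theorem c_mm_102 : CertNX 536870912 536870912 1073741824 536870912 1046898278 26843546 3 false false false .npp 1 0 2
    ndN7q1 ndN6q2 pcN0 Cut.none Ext.none :=
  certNX0 (fam := false) (s1 := false) (s2 := false) (a := 1) (b := 0) (c := 2) (cn := .npp) (n1 := ndN7q1) (n2 := ndN6q2) (pc := pcN0) (cut := Cut.none) (xt := Ext.none) (P1 := 536870912) (W1 := 536870912) (P2 := 1073741824) (W2 := 536870912) (P3 := 1046898278) (W3 := 26843546) (N0 := 3)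
    rfl k0_mm_102

noncomputable def f_mm_112 : ℕ → ℕ → ℕ → ℕ → Bool := onCell 536870912 536870912 1073741824 536870912 1046898278 26843546
    (rowNX 3 0 false false false .dn 1 1 2 (qsf 536870912 536870912 1073741824 536870912 1) ndN7q1 ndN6q2 pcN1 Cut.none Ext.none)

def k0_mm_112 : ∃ t, chk3 f_mm_112 t 1 1 1 = true :=
  ⟨(l 5), by decide +kernel⟩

theorem c_mm_112 : CertNX 536870912 536870912 1073741824 536870912 1046898278 26843546 3 false false false .dn 1 1 2
    ndN7q1 ndN6q2 pcN1 Cut.none Ext.none :=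
  certNX0 (fam := false) (s1 := false) (s2 := false) (a := 1) (b := 1) (c := 2) (cn := .dn) (n1 := ndN7q1) (n2 := ndN6q2) (pc := pcN1) (cut := Cut.none) (xt := Ext.none) (P1 := 536870912) (W1 := 536870912) (P2 := 1073741824) (W2 := 536870912) (P3 := 1046898278) (W3 := 26843546) (N0 := 3)
    rfl k0_mm_112

noncomputable def f_mm_113 : ℕ → ℕ → ℕ → ℕ → Bool := onCell 536870912 536870912 0 1230186008 1046898278 26843546
    (rowNX 3 0 false false false .nn 1 1 3 (qsf 536870912 536870912 0 1230186008 1) ndN7q1 ndN6q3 pcN1 Cut.none Ext.none)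

def k0_mm_113 : ∃ t, chk3 f_mm_113 t 1 1 1 = true :=
  ⟨(l 5), by decide +kernel⟩

theorem c_mm_113 : CertNX 536870912 536870912 0 1230186008 1046898278 26843546 3 false false false .nn 1 1 3
    ndN7q1 ndN6q3 pcN1 Cut.none Ext.none :=
  certNX0 (fam := false) (s1 := false) (s2 := false) (a := 1) (b := 1) (c := 3) (cn := .nn) (n1 := ndN7q1) (n2 := ndN6q3) (pc := pcN1) (cut := Cut.none) (xt := Ext.none) (P1 := 536870912) (W1 := 536870912) (P2 := 0) (W2 := 1230186008) (P3 := 1046898278) (W3 := 26843546) (N0 := 3)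
    rfl k0_mm_113

noncomputable def f_mm_123 : ℕ → ℕ → ℕ → ℕ → Bool := onCell 536870912 536870912 0 1230186008 1046898278 26843546
    (rowNX 3 0 false false false .npn 1 2 3 (qsf 536870912 536870912 0 1230186008 2) ndN7q1 ndN6q3 pcN2 Cut.none Ext.none)

def k0_mm_123 : ∃ t, chk3 f_mm_123 t 1 1 1 = true :=
  ⟨(l 5), by decide +kernel⟩

theorem c_mm_123 : CertNX 536870912 536870912 0 1230186008 1046898278 26843546 3 false false false .npn 1 2 3
    ndN7q1 ndN6q3 pcN2 Cut.none Ext.none :=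
  certNX0 (fam := false) (s1 := false) (s2 := false) (a := 1) (b := 2) (c := 3) (cn := .npn) (n1 := ndN7q1) (n2 := ndN6q3) (pc := pcN2) (cut := Cut.none) (xt := Ext.none) (P1 := 536870912) (W1 := 536870912) (P2 := 0) (W2 := 1230186008) (P3 := 1046898278) (W3 := 26843546) (N0 := 3)
    rfl k0_mm_123

noncomputable def f_mm_133 : ℕ → ℕ → ℕ → ℕ → Bool := onCell 536870912 536870912 0 1230186008 1046898278 26843546
    (rowNX 3 0 false false false .dn 1 3 3 (qsf 536870912 536870912 0 1230186008 3) ndN7q1 ndN6q3 pcN3 Cut.none Ext.none)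

def k0_mm_133 : ∃ t, chk3 f_mm_133 t 1 1 1 = true :=
  ⟨(l 5), by decide +kernel⟩

theorem c_mm_133 : CertNX 536870912 536870912 0 1230186008 1046898278 26843546 3 false false false .dn 1 3 3
    ndN7q1 ndN6q3 pcN3 Cut.none Ext.none :=
  certNX0 (fam := false) (s1 := false) (s2 := false) (a := 1) (b := 3) (c := 3) (cn := .dn) (n1 := ndN7q1) (n2 := ndN6q3) (pc := pcN3) (cut := Cut.none) (xt := Ext.none) (P1 := 536870912) (W1 := 536870912) (P2 := 0) (W2 := 1230186008) (P3 := 1046898278) (W3 := 26843546) (N0 := 3)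
    rfl k0_mm_133

noncomputable def f_mm_202 : ℕ → ℕ → ℕ → ℕ → Bool := onCell 1073741824 536870912 1073741824 536870912 1046898278 26843546
    (rowNX 3 0 false false false .pp 2 0 2 (qsf 1073741824 536870912 1073741824 536870912 0) ndN7q2 ndN6q2 pcN0 Cut.none Ext.none)

def k0_mm_202 : ∃ t, chk3 f_mm_202 t 1 1 1 = true :=
  ⟨(l 3), by decide +kernel⟩

theorem c_mm_202 : CertNX 1073741824 536870912 1073741824 536870912 1046898278 26843546 3 false false false .pp 2 0 2
    ndN7q2 ndN6q2 pcN0 Cut.none Ext.none :=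
  certNX0 (fam := false) (s1 := false) (s2 := false) (a := 2) (b := 0) (c := 2) (cn := .pp) (n1 := ndN7q2) (n2 := ndN6q2) (pc := pcN0) (cut := Cut.none) (xt := Ext.none) (P1 := 1073741824) (W1 := 536870912) (P2 := 1073741824) (W2 := 536870912) (P3 := 1046898278) (W3 := 26843546) (N0 := 3)
    rfl k0_mm_202

noncomputable def f_mm_203 : ℕ → ℕ → ℕ → ℕ → Bool := onCell 1073741824 536870912 0 1230186008 1046898278 26843546
    (rowNX 3 0 false false false .up 2 0 3 (qsf 1073741824 536870912 0 1230186008 0) ndN7q2 ndN6q3 pcN0 Cut.none Ext.none)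

def k0_mm_203 : ∃ t, chk3 f_mm_203 t 1 1 1 = true :=
  ⟨(l 5), by decide +kernel⟩

theorem c_mm_203 : CertNX 1073741824 536870912 0 1230186008 1046898278 26843546 3 false false false .up 2 0 3
    ndN7q2 ndN6q3 pcN0 Cut.none Ext.none :=
  certNX0 (fam := false) (s1 := false) (s2 := false) (a := 2) (b := 0) (c := 3) (cn := .up) (n1 := ndN7q2) (n2 := ndN6q3) (pc := pcN0) (cut := Cut.none) (xt := Ext.none) (P1 := 1073741824) (W1 := 536870912) (P2 := 0) (W2 := 1230186008) (P3 := 1046898278) (W3 := 26843546) (N0 := 3)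
    rfl k0_mm_203

noncomputable def f_mm_213 : ℕ → ℕ → ℕ → ℕ → Bool := onCell 1073741824 536870912 0 1230186008 1046898278 26843546
    (rowNX 3 0 false false false .pnn 2 1 3 (qsf 1073741824 536870912 0 1230186008 1) ndN7q2 ndN6q3 pcN1 Cut.none Ext.none)

def k0_mm_213 : ∃ t, chk3 f_mm_213 t 1 1 1 = true :=
  ⟨(l 5), by decide +kernel⟩

theorem c_mm_213 : CertNX 1073741824 536870912 0 1230186008 1046898278 26843546 3 false false false .pnn 2 1 3
    ndN7q2 ndN6q3 pcN1 Cut.none Ext.none :=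
  certNX0 (fam := false) (s1 := false) (s2 := false) (a := 2) (b := 1) (c := 3) (cn := .pnn) (n1 := ndN7q2) (n2 := ndN6q3) (pc := pcN1) (cut := Cut.none) (xt := Ext.none) (P1 := 1073741824) (W1 := 536870912) (P2 := 0) (W2 := 1230186008) (P3 := 1046898278) (W3 := 26843546) (N0 := 3)
    rfl k0_mm_213

noncomputable def f_mm_303 : ℕ → ℕ → ℕ → ℕ → Bool := onCell 0 1230186008 0 1230186008 1046898278 26843546
    (rowNX 3 0 false false false .npn 3 0 3 (qsf 0 1230186008 0 1230186008 0) ndN7q3 ndN6q3 pcN0 Cut.none Ext.none)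

def k0_mm_303 : ∃ t, chk3 f_mm_303 t 1 1 1 = true :=
  ⟨(a (b (l 3) (a (l 1) (l 3))) (b (l 5) (l 3))), by decide +kernel⟩

theorem c_mm_303 : CertNX 0 1230186008 0 1230186008 1046898278 26843546 3 false false false .npn 3 0 3
    ndN7q3 ndN6q3 pcN0 Cut.none Ext.none :=
  certNX0 (fam := false) (s1 := false) (s2 := false) (a := 3) (b := 0) (c := 3) (cn := .npn) (n1 := ndN7q3) (n2 := ndN6q3) (pc := pcN0) (cut := Cut.none) (xt := Ext.none) (P1 := 0) (W1 := 1230186008) (P2 := 0) (W2 := 1230186008) (P3 := 1046898278) (W3 := 26843546) (N0 := 3)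
    rfl k0_mm_303

noncomputable def f_mm_313 : ℕ → ℕ → ℕ → ℕ → Bool := onCell 0 1230186008 0 1230186008 1046898278 26843546
    (rowNX 3 0 false false false .dn 3 1 3 (qsf 0 1230186008 0 1230186008 1) ndN7q3 ndN6q3 pcN1 Cut.none Ext.none)

def k0_mm_313 : ∃ t, chk3 f_mm_313 t 1 1 1 = true :=
  ⟨(a (l 1) (b (l 5) (l 1))), by decide +kernel⟩

theorem c_mm_313 : CertNX 0 1230186008 0 1230186008 1046898278 26843546 3 false false false .dn 3 1 3
    ndN7q3 ndN6q3 pcN1 Cut.none Ext.none :=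
  certNX0 (fam := false) (s1 := false) (s2 := false) (a := 3) (b := 1) (c := 3) (cn := .dn) (n1 := ndN7q3) (n2 := ndN6q3) (pc := pcN1) (cut := Cut.none) (xt := Ext.none) (P1 := 0) (W1 := 1230186008) (P2 := 0) (W2 := 1230186008) (P3 := 1046898278) (W3 := 26843546) (N0 := 3)
    rfl k0_mm_313

end Pool.Agent.Strip051.G.IE1.Tab.C.NB76

namespace Pool.Agent.Strip051.G.IE1.Tab.C.NB77

open Pool.Agent.Strip051.PB Pool.Agent.Strip051.PB.T
open Pool.Agent.Strip051.G.IE1.Tab

noncomputable def f_pp_001 : ℕ → ℕ → ℕ → ℕ → Bool := onCell 0 536870912 536870912 536870912 1046898278 26843546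
    (rowNX 3 0 false true true .up 0 0 1 (qsf 0 536870912 536870912 536870912 0) ndN7q0 ndN7q1 pcN0 Cut.none Ext.none)

def k0_pp_001 : ∃ t, chk3 f_pp_001 t 1 1 1 = true :=
  ⟨(l 3), by decide +kernel⟩

theorem c_pp_001 : CertNX 0 536870912 536870912 536870912 1046898278 26843546 3 false true true .up 0 0 1
    ndN7q0 ndN7q1 pcN0 Cut.none Ext.none :=
  certNX0 (fam := false) (s1 := true) (s2 := true) (a := 0) (b := 0) (c := 1) (cn := .up) (n1 := ndN7q0) (n2 := ndN7q1) (pc := pcN0) (cut := Cut.none) (xt := Ext.none) (P1 := 0) (W1 := 536870912) (P2 := 536870912) (W2 := 536870912) (P3 := 1046898278) (W3 := 26843546) (N0 := 3)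
    rfl k0_pp_001

noncomputable def f_pp_011 : ℕ → ℕ → ℕ → ℕ → Bool := onCell 0 536870912 536870912 536870912 1046898278 26843546
    (rowNX 3 0 false true true .pnn 0 1 1 (qsf 0 536870912 536870912 536870912 1) ndN7q0 ndN7q1 pcN1 Cut.none Ext.none)

def k0_pp_011 : ∃ t, chk3 f_pp_011 t 1 1 1 = true :=
  ⟨(l 3), by decide +kernel⟩

theorem c_pp_011 : CertNX 0 536870912 536870912 536870912 1046898278 26843546 3 false true true .pnn 0 1 1
    ndN7q0 ndN7q1 pcN1 Cut.none Ext.none :=
  certNX0 (fam := false) (s1 := true) (s2 := true) (a := 0) (b := 1) (c := 1) (cn := .pnn) (n1 := ndN7q0) (n2 := ndN7q1) (pc := pcN1) (cut := Cut.none) (xt := Ext.none) (P1 := 0) (W1 := 536870912) (P2 := 536870912) (W2 := 536870912) (P3 := 1046898278) (W3 := 26843546) (N0 := 3)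
    rfl k0_pp_011

noncomputable def f_pp_012 : ℕ → ℕ → ℕ → ℕ → Bool := onCell 0 536870912 536870912 536870912 1046898278 26843546
    (rowNX 3 1 false true true .pnp 0 1 2 (qsf 0 536870912 1073741824 536870912 1) ndN7q0 ndN7q2 pcN1 Cut.none Ext.none)

def k0_pp_012 : ∃ t, chk3 f_pp_012 t 1 1 1 = true :=
  ⟨(b (l 3) (b (l 3) (a (l 3) (b (l 3) (a (l 3) (b (l 3) (b (l 3) (c (l 15445808) (l 737288264087))))))))), by decide +kernel⟩

theorem c_pp_012 : CertNX 0 536870912 1073741824 536870912 1046898278 26843546 3 false true true .pnp 0 1 2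
    ndN7q0 ndN7q2 pcN1 Cut.none Ext.none :=
  certNX1 (fam := false) (s1 := true) (s2 := true) (a := 0) (b := 1) (c := 2) (cn := .pnp) (n1 := ndN7q0) (n2 := ndN7q2) (pc := pcN1) (cut := Cut.none) (xt := Ext.none) (P1 := 0) (W1 := 536870912) (P2 := 1073741824) (W2 := 536870912) (P3 := 1046898278) (W3 := 26843546) (N0 := 3)
    rfl (fun _ => rfl) k0_pp_012

noncomputable def f_pp_022 : ℕ → ℕ → ℕ → ℕ → Bool := onCell 1073741824 536870912 1073741824 536870912 1046898278 26843546
    (rowNX 3 2 false true true .pp 0 2 2 (qsf 0 536870912 1073741824 536870912 2) ndN7q0 ndN7q2 pcN2 Cut.none Ext.none)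

def k0_pp_022 : ∃ t, chk3 f_pp_022 t 4 1 1 = true :=
  ⟨(a (b (l 3) (a (b (l 3) (a (c (b (l 15360936) (l 15312104)) (c (a (l 15423360) (a (l 15349496) (l 15511272))) (a (a (l 731382644967) (l 15405864)) (l 15456712)))) (c (c (a (l 15624096) (l 15685936)) (a (l 15468424) (l 15636368))) (b (l 15564992) (l 15552640))))) (b (a (b (l 3) (c (l 15793824) (l 15750256))) (b (c (l 15668528) (l 15627560)) (c (l 678771158567) (l 15864048)))) (b (a (c (l 15792072) (l 15745072)) (c (l 15929656) (l 15894624))) (c (a (l 15679632) (l 15721192)) (l 15667640)))))) (b (b (a (l 3) (b (l 1) (a (b (a (l 3) (l 1)) (c (l 13833080) (l 13729760))) (b (l 1) (c (l 13852624) (l 13750656)))))) (a (b (a (l 3) (c (l 14517776) (l 742655278759))) (a (c (l 15270688) (l 15215728)) (c (l 15483528) (l 15353248)))) (b (a (a (c (l 14767536) (l 14675784)) (c (l 14790064) (l 14720096))) (c (b (l 14509496) (l 15137256)) (b (l 14429664) (l 15079536)))) (a (a (c (l 15652048) (l 15612344)) (l 15681376)) (l 15768808)))))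 (a (b (a (b (c (l 15750952) (l 15634120)) (b (a (l 16199752) (l 16301360)) (l 16189000))) (b (b (l 16000776) (l 16285872)) (c (l 16491624) (l 16481464)))) (a (b (c (b (l 16130344) (l 15968112)) (l 16109992)) (c (l 15915792) (l 15774424))) (b (c (l 16299112) (l 16317272)) (c (l 15968368) (l 16046192))))) (b (b (a (a (l 16335752) (l 16417952)) (b (l 16347640) (l 16574544))) (a (a (l 16729608) (l 16749832)) (l 16765808))) (b (b (l 16647800) (c (b (l 16552936) (l 16495136)) (a (l 16542288) (l 16431168)))) (a (c (a (l 16116784) (l 16091920)) (l 16194184)) (b (l 16127648) (l 15991216)))))))), by decide +kernel⟩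

def k1_pp_022 : ∃ t, chk3 f_pp_022 t 5 1 1 = true :=
  ⟨(b (b (a (a (a (b (l 1) (b (l 1) (l 13891504))) (l 1)) (l 1)) (l 1)) (a (a (b (a (b (l 14594472) (l 15248048)) (a (b (l 14727720) (l 15378080)) (a (b (l 14793336) (l 15404712)) (a (b (l 14776536) (l 15330352)) (b (l 14731112) (l 15255640)))))) (a (b (l 15712536) (l 16097232)) (a (l 15944344) (a (l 15878304) (l 15760840))))) (b (l 14824592) (l 15684848))) (b (b (l 1) (l 15057968)) (a (l 15655104) (l 15645760))))) (b (a (a (a (b (b (l 16398320) (l 16605784)) (l 16673608)) (b (a (l 16414672) (a (l 16333312) (l 16259216))) (a (l 16566552) (a (l 16501832) (l 16473144))))) (b (l 16248888) (l 16532032))) (b (a (l 16305632) (l 16342064)) (a (l 16679648) (l 16763616)))) (a (c (a (b (a (l 16294112) (a (l 16200008) (a (l 16171696) (l 16210496)))) (a (l 15808808) (b (l 15897848) (l 15774624)))) (b (c (l 16349168) (l 16329128)) (l 16075952))) (b (a (a (l 16306256) (a (l 16203440) (a (l 16169768) (l 16207264)))) (l 16344264))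 (a (a (l 15804440) (l 15772752)) (l 16052864)))) (a (c (b (b (l 16635936) (l 16585048)) (l 16529392)) (b (l 16625712) (l 16500216))) (l 16797936))))), by decide +kernel⟩

def k2_pp_022 : ∃ t, chk3 f_pp_022 t 3 1 1 = true :=
  ⟨(b (b (l 1) (b (l 1) (a (a (l 15644680) (l 1)) (l 1)))) (b (a (b (l 16341616) (c (l 16763968) (l 16763504))) (b (l 1) (l 16763712))) (a (c (l 16777216) (l 16777216)) (l 16777216)))), by decide +kernel⟩

theorem s3_pp_022 : ∃ t, chk3 f_pp_022 t 2 1 1 = true := ex3_a k0_pp_022 k1_pp_022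

theorem s4_pp_022 : ∃ t, chk3 f_pp_022 t 1 1 1 = true := ex3_a s3_pp_022 k2_pp_022

theorem c_pp_022 : CertNX 0 536870912 1073741824 536870912 1046898278 26843546 3 false true true .pp 0 2 2
    ndN7q0 ndN7q2 pcN2 Cut.none Ext.none :=
  certNX2 (fam := false) (s1 := true) (s2 := true) (a := 0) (b := 2) (c := 2) (cn := .pp) (n1 := ndN7q0) (n2 := ndN7q2) (pc := pcN2) (cut := Cut.none) (xt := Ext.none) (P1 := 0) (W1 := 536870912) (P2 := 1073741824) (W2 := 536870912) (P3 := 1046898278) (W3 := 26843546) (N0 := 3)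
    rfl (fun _ => rfl) s4_pp_022

noncomputable def f_pp_023 : ℕ → ℕ → ℕ → ℕ → Bool := onCell 1073741824 536870912 0 1230186008 1046898278 26843546
    (rowNX 3 2 false true true .up 0 2 3 (qsf 0 536870912 0 1230186008 2) ndN7q0 ndN7q3 pcN2 Cut.none Ext.none)

def k0_pp_023 : ∃ t, chk3 f_pp_023 t 1 1 1 = true :=
  ⟨(b (a (l 2) (a (l 2) (b (l 4) (l 16766408)))) (a (a (b (l 2) (b (l 2) (b (a (l 2) (b (a (l 2) (b (l 14614496) (l 14449344))) (a (l 14933632) (c (l 14798240) (l 14728176))))) (a (c (a (a (l 15628832) (l 15636480)) (l 15536208)) (a (l 15577360) (l 15492320))) (a (c (a (l 15573592) (l 15448608)) (l 15475880)) (c (l 15193960) (l 15333800))))))) (b (a (l 2) (a (l 2) (l 16735736))) (a (b (a (l 14535440) (l 15397696)) (b (b (l 14948504) (a (a (l 14465936) (b (l 14602416) (l 14656200))) (b (l 15368240) (l 15385712)))) (b (a (a (l 14828472) (l 14911456)) (c (l 15510688) (l 15466672))) (a (a (l 15246632) (l 15263608)) (l 15661784))))) (a (b (l 16318752) (b (l 16309144)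 (b (l 16328064) (l 16399024)))) (b (l 16776576) (l 16776656)))))) (b (a (b (l 16741384) (l 16770680)) (b (l 16777216) (l 16777216))) (a (b (l 16777216) (c (l 16777216) (l 16777216))) (b (l 16777216) (l 16777216)))))), by decide +kernel⟩

theorem c_pp_023 : CertNX 0 536870912 0 1230186008 1046898278 26843546 3 false true true .up 0 2 3
    ndN7q0 ndN7q3 pcN2 Cut.none Ext.none :=
  certNX2 (fam := false) (s1 := true) (s2 := true) (a := 0) (b := 2) (c := 3) (cn := .up) (n1 := ndN7q0) (n2 := ndN7q3) (pc := pcN2) (cut := Cut.none) (xt := Ext.none) (P1 := 0) (W1 := 536870912) (P2 := 0) (W2 := 1230186008) (P3 := 1046898278) (W3 := 26843546) (N0 := 3)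
    rfl (fun _ => rfl) k0_pp_023

noncomputable def f_pp_033 : ℕ → ℕ → ℕ → ℕ → Bool := onCell 1610612736 536870912 0 1230186008 1046898278 26843546
    (rowNX 3 2 false true true .pnn 0 3 3 (qsf 0 536870912 0 1230186008 3) ndN7q0 ndN7q3 pcN3 Cut.none Ext.none)

def k0_pp_033 : ∃ t, chk3 f_pp_033 t 1 1 1 = true :=
  ⟨(b (b (l 4) (a (a (l 16766408) (l 4)) (l 4))) (b (a (a (c (l 16777216) (l 16777216)) (c (l 16777216) (l 16777216))) (l 4)) (a (a (b (l 16777216) (l 16777216)) (c (l 16777216) (l 508450308103))) (l 1)))), by decide +kernel⟩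

theorem c_pp_033 : CertNX 0 536870912 0 1230186008 1046898278 26843546 3 false true true .pnn 0 3 3
    ndN7q0 ndN7q3 pcN3 Cut.none Ext.none :=
  certNX2 (fam := false) (s1 := true) (s2 := true) (a := 0) (b := 3) (c := 3) (cn := .pnn) (n1 := ndN7q0) (n2 := ndN7q3) (pc := pcN3) (cut := Cut.none) (xt := Ext.none) (P1 := 0) (W1 := 536870912) (P2 := 0) (W2 := 1230186008) (P3 := 1046898278) (W3 := 26843546) (N0 := 3)
    rfl (fun _ => rfl) k0_pp_033

noncomputable def f_pp_101 : ℕ → ℕ → ℕ → ℕ → Bool := onCell 536870912 536870912 536870912 536870912 1046898278 26843546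
    (rowNX 3 0 false true true .npn 1 0 1 (qsf 536870912 536870912 536870912 536870912 0) ndN7q1 ndN7q1 pcN0 Cut.none Ext.none)

def k0_pp_101 : ∃ t, chk3 f_pp_101 t 1 1 1 = true :=
  ⟨(l 3), by decide +kernel⟩

theorem c_pp_101 : CertNX 536870912 536870912 536870912 536870912 1046898278 26843546 3 false true true .npn 1 0 1
    ndN7q1 ndN7q1 pcN0 Cut.none Ext.none :=
  certNX0 (fam := false) (s1 := true) (s2 := true) (a := 1) (b := 0) (c := 1) (cn := .npn) (n1 := ndN7q1) (n2 := ndN7q1) (pc := pcN0) (cut := Cut.none) (xt := Ext.none) (P1 := 536870912) (W1 := 536870912) (P2 := 536870912) (W2 := 536870912) (P3 := 1046898278) (W3 := 26843546) (N0 := 3)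
    rfl k0_pp_101

noncomputable def f_pp_102 : ℕ → ℕ → ℕ → ℕ → Bool := onCell 536870912 536870912 0 536870912 1046898278 26843546
    (rowNX 3 1 false true true .npp 1 0 2 (qsf 536870912 536870912 1073741824 536870912 0) ndN7q1 ndN7q2 pcN0 Cut.none Ext.none)

def k0_pp_102 : ∃ t, chk3 f_pp_102 t 1 1 1 = true :=
  ⟨(l 3), by decide +kernel⟩

theorem c_pp_102 : CertNX 536870912 536870912 1073741824 536870912 1046898278 26843546 3 false true true .npp 1 0 2
    ndN7q1 ndN7q2 pcN0 Cut.none Ext.none :=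
  certNX1 (fam := false) (s1 := true) (s2 := true) (a := 1) (b := 0) (c := 2) (cn := .npp) (n1 := ndN7q1) (n2 := ndN7q2) (pc := pcN0) (cut := Cut.none) (xt := Ext.none) (P1 := 536870912) (W1 := 536870912) (P2 := 1073741824) (W2 := 536870912) (P3 := 1046898278) (W3 := 26843546) (N0 := 3)
    rfl (fun _ => rfl) k0_pp_102

noncomputable def f_pp_112 : ℕ → ℕ → ℕ → ℕ → Bool := onCell 536870912 536870912 1073741824 536870912 1046898278 26843546
    (rowNX 3 2 false true true .dn 1 1 2 (qsf 536870912 536870912 1073741824 536870912 1) ndN7q1 ndN7q2 pcN1 Cut.none Ext.none)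

def k0_pp_112 : ∃ t, chk3 f_pp_112 t 1 1 1 = true :=
  ⟨(a (l 3) (a (l 3) (b (l 1) (a (l 3) (a (l 3) (b (l 1) (b (l 1) (c (a (l 15525056) (l 15444784)) (l 698633623079))))))))), by decide +kernel⟩

theorem c_pp_112 : CertNX 536870912 536870912 1073741824 536870912 1046898278 26843546 3 false true true .dn 1 1 2
    ndN7q1 ndN7q2 pcN1 Cut.none Ext.none :=
  certNX2 (fam := false) (s1 := true) (s2 := true) (a := 1) (b := 1) (c := 2) (cn := .dn) (n1 := ndN7q1) (n2 := ndN7q2) (pc := pcN1) (cut := Cut.none) (xt := Ext.none) (P1 := 536870912) (W1 := 536870912) (P2 := 1073741824) (W2 := 536870912) (P3 := 1046898278) (W3 := 26843546) (N0 := 3)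
    rfl (fun _ => rfl) k0_pp_112

noncomputable def f_pp_113 : ℕ → ℕ → ℕ → ℕ → Bool := onCell 536870912 536870912 0 1230186008 1046898278 26843546
    (rowNX 3 2 false true true .nn 1 1 3 (qsf 536870912 536870912 0 1230186008 1) ndN7q1 ndN7q3 pcN1 Cut.none Ext.none)

def k0_pp_113 : ∃ t, chk3 f_pp_113 t 1 2 1 = true :=
  ⟨(a (l 2) (a (l 2) (b (a (l 2) (a (l 2) (b (a (l 2) (a (l 2) (c (l 16505864) (b (a (l 2) (l 16618992)) (l 16307936))))) (c (l 15674224) (c (l 13113672) (b (l 11013752) (l 10718952))))))) (a (b (b (l 2) (l 11640112)) (c (b (l 12034672) (l 12254712)) (b (a (l 2) (c (l 11749864) (l 11488152))) (a (c (l 11995240) (l 11833848)) (c (a (l 11984568) (l 11987248)) (l 11753040)))))) (b (a (c (l 12368224) (b (l 11202808) (c (l 11649448) (l 11165936)))) (c (b (l 13698656) (a (l 12855544) (l 13264088))) (b (c (l 11984744) (l 10823296)) (a (l 11459232) (l 11501520))))) (c (a (b (l 12379544) (c (l 12643304) (l 12313608))) (b (c (l 13062200) (l 12488240)) (l 12665824)))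 (a (b (c (l 11806344) (l 11406608)) (l 11844752)) (l 11703736)))))))), by decide +kernel⟩

def k1_pp_113 : ∃ t, chk3 f_pp_113 t 2 3 1 = true :=
  ⟨(b (b (l 2) (l 3)) (l 3)), by decide +kernel⟩

def k2_pp_113 : ∃ t, chk3 f_pp_113 t 3 6 1 = true :=
  ⟨(a (b (a (l 2) (a (b (l 2) (c (l 12528392) (c (l 12417904) (b (l 12240488) (a (l 12358040) (l 12466440)))))) (a (c (l 12552272) (b (l 12201536) (b (l 12420888) (c (l 12662232) (l 12570712))))) (b (c (l 12438256) (l 12361352)) (c (l 12760664) (b (c (l 12537384) (l 12433384)) (l 12581624))))))) (a (b (c (l 12504536) (a (l 12215880) (b (l 616419192887) (c (l 12612672) (a (l 12463856) (l 12578672)))))) (a (l 3) (a (l 3) (b (c (l 12974112) (c (l 12864608) (l 12803264))) (l 3))))) (b (a (a (c (l 12822464) (b (c (l 12618048) (l 12536112)) (c (l 12807440) (l 12734568)))) (c (b (l 12848232) (l 13034408)) (b (c (l 12737424) (l 12651680)) (l 12850080)))) (c (b (a (l 12959920) (l 13014392)) (a (c (l 13211888) (l 13119600)) (l 13174160)))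 (b (c (l 12858384) (l 12813352)) (l 13059464)))) (a (c (b (c (l 12987656) (l 91428436583)) (c (l 13401736) (l 13366720))) (l 134914577511)) (c (b (l 13430000) (l 13654640)) (l 13442832)))))) (a (b (b (c (a (l 12475408) (c (l 12649000) (b (l 12392104) (l 12519992)))) (a (c (b (l 12200568) (l 12353232)) (b (l 12054008) (l 12207552))) (c (l 12233336) (l 12087536)))) (b (c (a (l 12704088) (c (l 12843024) (l 12694360))) (a (l 12441600) (l 12433360))) (a (c (c (l 12934736) (l 12802840)) (l 12683104)) (l 12782288)))) (b (a (c (b (c (l 13089232) (l 13011568)) (l 13283312)) (l 12959104)) (b (l 12971328) (l 13351192))) (a (b (l 13412264) (l 13930608)) (l 13966200)))) (b (c (b (a (c (l 12767040) (l 12542464)) (l 12799768)) (a (l 12965960) (l 13219328))) (b (l 12190304) (l 12707584))) (a (b (l 13446424) (a (l 14100960) (l 14137808))) (l 13858800))))), by decide +kernel⟩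

def k3_pp_113 : ∃ t, chk3 f_pp_113 t 3 7 1 = true :=
  ⟨(a (b (a (l 3) (b (a (b (c (l 301345596903) (l 13524272)) (l 3)) (l 40427620167)) (l 3))) (l 3)) (a (b (b (a (l 14587064) (l 14674440)) (l 15276256)) (b (l 15857184) (l 3))) (a (b (a (l 14930680) (b (l 14631120) (l 15104920))) (b (a (l 15694736) (l 15517168)) (l 15505136))) (a (b (c (c (l 14702600) (l 14820488)) (l 14826552)) (c (b (l 15375088) (l 15523248)) (l 15456320))) (b (c (l 14915456) (b (a (l 14570584) (l 14563048)) (l 15069992))) (c (l 15413080) (b (l 15201736) (l 15378288)))))))), by decide +kernel⟩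

theorem s4_pp_113 : ∃ t, chk3 f_pp_113 t 3 3 1 = true := ex3_b k2_pp_113 k3_pp_113

theorem s5_pp_113 : ∃ t, chk3 f_pp_113 t 1 3 1 = true := ex3_a k1_pp_113 s4_pp_113

theorem s6_pp_113 : ∃ t, chk3 f_pp_113 t 1 1 1 = true := ex3_b k0_pp_113 s5_pp_113

theorem c_pp_113 : CertNX 536870912 536870912 0 1230186008 1046898278 26843546 3 false true true .nn 1 1 3
    ndN7q1 ndN7q3 pcN1 Cut.none Ext.none :=
  certNX2 (fam := false) (s1 := true) (s2 := true) (a := 1) (b := 1) (c := 3) (cn := .nn) (n1 := ndN7q1) (n2 := ndN7q3) (pc := pcN1) (cut := Cut.none) (xt := Ext.none) (P1 := 536870912) (W1 := 536870912) (P2 := 0) (W2 := 1230186008) (P3 := 1046898278) (W3 := 26843546) (N0 := 3)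
    rfl (fun _ => rfl) s6_pp_113

noncomputable def f_pp_123 : ℕ → ℕ → ℕ → ℕ → Bool := onCell 1073741824 536870912 0 1230186008 1046898278 26843546
    (rowNX 3 2 false true true .npn 1 2 3 (qsf 536870912 536870912 0 1230186008 2) ndN7q1 ndN7q3 pcN2 Cut.none Ext.none)

def k0_pp_123 : ∃ t, chk3 f_pp_123 t 1 2 1 = true :=
  ⟨(a (a (b (a (b (c (a (l 16609952) (c (l 16588488) (a (l 16554648) (l 16643760)))) (a (c (a (l 16317784) (l 16217584)) (a (l 14058992) (l 16057400))) (l 16551256))) (c (a (l 15449560) (c (l 15869048) (a (l 15643704) (l 15955024)))) (a (c (a (l 14907472) (l 14896400)) (a (l 14038768) (l 14548320))) (l 15643048)))) (b (a (c (a (l 16703960) (l 16716392)) (l 16701432)) (l 16679416)) (a (b (l 16451816) (l 16035096)) (l 16306056)))) (a (b (c (a (b (l 14307264) (l 13742936)) (b (l 15063352) (l 14664656))) (a (b (l 13212160) (l 12816200)) (l 14527496))) (b (a (c (l 13439320) (l 12660536)) (l 14252312)) (a (l 13000520) (l 14149432)))) (b (a (b (l 15582152)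 (l 15193056)) (l 15459872)) (a (l 14847344) (l 14941544))))) (a (b (b (a (l 16658224) (l 4)) (a (l 16417736) (l 16665304))) (b (l 15888112) (a (a (l 14899256) (l 15135992)) (l 15755432)))) (b (b (l 4) (l 16716240)) (b (l 16588640) (l 16520096))))) (b (a (b (l 4) (a (l 16678680) (l 4))) (l 4)) (a (a (b (l 16687512) (l 16638256)) (b (l 16764648) (l 16768784))) (l 16766408)))), by decide +kernel⟩

def k1_pp_123 : ∃ t, chk3 f_pp_123 t 1 3 1 = true :=
  ⟨(a (b (a (b (a (a (l 13486096) (l 14192816)) (l 14624088)) (a (b (l 14311040) (l 14661504)) (l 14634400))) (a (b (a (l 14670000) (l 15519440)) (a (a (l 14444208) (l 14685640)) (l 15431064))) (a (b (l 16358120) (l 16331568)) (b (l 16746056) (l 16776592))))) (b (a (a (a (b (l 15080200) (b (l 15465296) (a (l 15752600) (l 15587048)))) (l 14962768)) (b (l 14757576) (l 14778168))) (a (a (l 14535440) (l 15397696)) (a (l 16318752) (l 16776576)))) (b (a (a (a (c (l 15711048) (l 15665144)) (c (l 15352880) (l 15342600))) (b (a (c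 (l 15009104) (l 14945928)) (b (l 14614496) (l 14449344))) (a (l 14933632) (c (l 14798240) (l 14728176))))) (a (b (l 14948504) (l 1)) (l 1))) (a (a (c (a (a (l 15628832) (l 15636480)) (l 15536208)) (a (l 15577360) (l 15492320))) (a (b (l 15376536) (l 1)) (l 1))) (l 1))))) (b (a (b (l 16762616) (l 16770680)) (b (l 16777216) (l 1))) (l 1))), by decide +kernel⟩

theorem s2_pp_123 : ∃ t, chk3 f_pp_123 t 1 1 1 = true := ex3_b k0_pp_123 k1_pp_123

theorem c_pp_123 : CertNX 536870912 536870912 0 1230186008 1046898278 26843546 3 false true true .npn 1 2 3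
    ndN7q1 ndN7q3 pcN2 Cut.none Ext.none :=
  certNX2 (fam := false) (s1 := true) (s2 := true) (a := 1) (b := 2) (c := 3) (cn := .npn) (n1 := ndN7q1) (n2 := ndN7q3) (pc := pcN2) (cut := Cut.none) (xt := Ext.none) (P1 := 536870912) (W1 := 536870912) (P2 := 0) (W2 := 1230186008) (P3 := 1046898278) (W3 := 26843546) (N0 := 3)
    rfl (fun _ => rfl) s2_pp_123

noncomputable def f_pp_133 : ℕ → ℕ → ℕ → ℕ → Bool := onCell 1610612736 536870912 0 1230186008 1046898278 26843546
    (rowNX 3 2 false true true .dn 1 3 3 (qsf 536870912 536870912 0 1230186008 3) ndN7q1 ndN7q3 pcN3 Cut.none Ext.none)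

def k0_pp_133 : ∃ t, chk3 f_pp_133 t 1 1 1 = true :=
  ⟨(b (b (l 4) (l 1)) (l 1)), by decide +kernel⟩

theorem c_pp_133 : CertNX 536870912 536870912 0 1230186008 1046898278 26843546 3 false true true .dn 1 3 3
    ndN7q1 ndN7q3 pcN3 Cut.none Ext.none :=
  certNX2 (fam := false) (s1 := true) (s2 := true) (a := 1) (b := 3) (c := 3) (cn := .dn) (n1 := ndN7q1) (n2 := ndN7q3) (pc := pcN3) (cut := Cut.none) (xt := Ext.none) (P1 := 536870912) (W1 := 536870912) (P2 := 0) (W2 := 1230186008) (P3 := 1046898278) (W3 := 26843546) (N0 := 3)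
    rfl (fun _ => rfl) k0_pp_133

noncomputable def f_pp_202 : ℕ → ℕ → ℕ → ℕ → Bool := onCell 1073741824 536870912 1073741824 536870912 1046898278 26843546
    (rowNX 3 0 false true true .pp 2 0 2 (qsf 1073741824 536870912 1073741824 536870912 0) ndN7q2 ndN7q2 pcN0 Cut.none Ext.none)

def k0_pp_202 : ∃ t, chk3 f_pp_202 t 1 1 1 = true :=
  ⟨(l 3), by decide +kernel⟩

theorem c_pp_202 : CertNX 1073741824 536870912 1073741824 536870912 1046898278 26843546 3 false true true .pp 2 0 2
    ndN7q2 ndN7q2 pcN0 Cut.none Ext.none :=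
  certNX0 (fam := false) (s1 := true) (s2 := true) (a := 2) (b := 0) (c := 2) (cn := .pp) (n1 := ndN7q2) (n2 := ndN7q2) (pc := pcN0) (cut := Cut.none) (xt := Ext.none) (P1 := 1073741824) (W1 := 536870912) (P2 := 1073741824) (W2 := 536870912) (P3 := 1046898278) (W3 := 26843546) (N0 := 3)
    rfl k0_pp_202

noncomputable def f_pp_203 : ℕ → ℕ → ℕ → ℕ → Bool := onCell 0 536870912 0 1230186008 1046898278 26843546
    (rowNX 3 2 false true true .up 2 0 3 (qsf 1073741824 536870912 0 1230186008 0) ndN7q2 ndN7q3 pcN0 Cut.none Ext.none)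

def k0_pp_203 : ∃ t, chk3 f_pp_203 t 1 1 1 = true :=
  ⟨(b (a (l 2) (b (a (l 2) (a (l 2) (a (l 2) (b (l 16688176) (l 16657680))))) (l 3))) (l 3)), by decide +kernel⟩

theorem c_pp_203 : CertNX 1073741824 536870912 0 1230186008 1046898278 26843546 3 false true true .up 2 0 3
    ndN7q2 ndN7q3 pcN0 Cut.none Ext.none :=
  certNX2 (fam := false) (s1 := true) (s2 := true) (a := 2) (b := 0) (c := 3) (cn := .up) (n1 := ndN7q2) (n2 := ndN7q3) (pc := pcN0) (cut := Cut.none) (xt := Ext.none) (P1 := 1073741824) (W1 := 536870912) (P2 := 0) (W2 := 1230186008) (P3 := 1046898278) (W3 := 26843546) (N0 := 3)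
    rfl (fun _ => rfl) k0_pp_203

noncomputable def f_pp_213 : ℕ → ℕ → ℕ → ℕ → Bool := onCell 1073741824 536870912 0 1230186008 1046898278 26843546
    (rowNX 3 0 false true true .pnn 2 1 3 (qsf 1073741824 536870912 0 1230186008 1) ndN7q2 ndN7q3 pcN1 Cut.none Ext.none)

def k0_pp_213 : ∃ t, chk3 f_pp_213 t 1 2 1 = true :=
  ⟨(b (a (a (a (b (a (a (b (a (c (l 16659672) (a (l 16621936) (l 16584296))) (l 16545400)) (l 16228656)) (c (l 16243688) (l 15491168))) (c (a (l 15994592) (l 15764880)) (l 15512696))) (a (c (l 14793216) (c (l 13651320) (l 12872496))) (c (c (l 14803744) (l 14492088)) (l 14046360)))) (b (a (l 15395616) (l 15306936)) (a (c (l 14564736) (l 14225968)) (l 14269112)))) (b (a (a (l 15268120) (l 15443472)) (l 15674912)) (a (b (l 15025752) (l 14870184)) (l 15470632)))) (a (b (a (l 16279736) (l 16675352)) (a (l 16243704) (l 16644824))) (c (b (l 16689552) (a (l 16659752) (l 16659752))) (b (l 16687512) (a (l 16655616) (l 16655616)))))) (b (a (a (a (a (a (b (l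 12482776) (l 12200584)) (c (l 13107056) (b (l 12661736) (l 12456504)))) (c (b (l 13703736) (l 13359768)) (b (l 13313040) (l 13077432)))) (a (b (l 13790352) (c (l 13689936) (l 13470880))) (b (l 13998600) (l 13883840)))) (a (a (l 14504240) (l 15051280)) (b (l 15625808) (l 15646432)))) (a (a (c (l 16337952) (l 16318072)) (c (l 16620880) (l 142974930135))) (c (a (l 16759192) (l 16759192)) (a (l 238001453191) (l 16716616))))) (a (c (a (a (a (l 12603088) (b (l 13180744) (a (l 13024592) (l 13219864)))) (a (b (l 13560552) (l 13513536)) (l 13854720))) (a (b (l 14787608) (l 14780720)) (l 15666048))) (a (a (a (b (c (l 12332576) (l 12131792)) (c (l 12430768) (l 12291208))) (b (l 12973576) (l 12973208))) (b (l 13576280) (l 13547728))) (a (b (l 14716168) (l 14710296)) (l 15626904)))) (a (a (c (l 205787973047) (l 218135973911)) (c (l 229411376071) (l 241222532583))) (l 3))))), by decide +kernel⟩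

def k1_pp_213 : ∃ t, chk3 f_pp_213 t 1 3 1 = true :=
  ⟨(b (a (a (b (a (a (b (a (c (l 12581672) (l 12382976)) (c (l 12825808) (b (l 12609952) (l 12654872)))) (c (l 12784536) (c (l 12641648) (a (l 12501920) (l 12717472))))) (c (b (c (l 13186280) (l 13105448)) (c (l 13202160) (l 13126272))) (b (l 13006856) (l 13035160)))) (a (c (c (b (l 13548944) (l 13319688)) (l 176254259511)) (b (l 13346640) (l 13351432))) (b (l 13786168) (l 13786160)))) (b (a (c (a (l 12816528) (a (l 13077888) (l 250878897079))) (a (a (c (l 12637240) (l 12566248)) (c (l 12816032) (l 12751960))) (l 255710350743))) (l 3)) (l 3))) (b (b (a (a (l 14437696) (l 15040368)) (c (l 15666048) (l 15626904))) (a (c (l 245513281639) (l 222964562695)) (l 3))) (l 3))) (l 3)) (l 3)), by decide +kernel⟩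

theorem s2_pp_213 : ∃ t, chk3 f_pp_213 t 1 1 1 = true := ex3_b k0_pp_213 k1_pp_213

theorem c_pp_213 : CertNX 1073741824 536870912 0 1230186008 1046898278 26843546 3 false true true .pnn 2 1 3
    ndN7q2 ndN7q3 pcN1 Cut.none Ext.none :=
  certNX0 (fam := false) (s1 := true) (s2 := true) (a := 2) (b := 1) (c := 3) (cn := .pnn) (n1 := ndN7q2) (n2 := ndN7q3) (pc := pcN1) (cut := Cut.none) (xt := Ext.none) (P1 := 1073741824) (W1 := 536870912) (P2 := 0) (W2 := 1230186008) (P3 := 1046898278) (W3 := 26843546) (N0 := 3)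
    rfl s2_pp_213

noncomputable def f_pp_303 : ℕ → ℕ → ℕ → ℕ → Bool := onCell 0 1230186008 0 1230186008 1046898278 26843546
    (rowNX 3 0 false true true .npn 3 0 3 (qsf 0 1230186008 0 1230186008 0) ndN7q3 ndN7q3 pcN0 Cut.none Ext.none)

def k0_pp_303 : ∃ t, chk3 f_pp_303 t 1 1 1 = true :=
  ⟨(a (b (l 3) (a (l 1) (l 3))) (b (a (l 3) (b (b (a (a (l 3) (l 333564052951)) (a (c (l 16689552) (l 16687512)) (c (l 16689552) (l 16687512)))) (a (l 3) (a (l 322826810951) (c (l 16659752) (l 16655616))))) (l 3))) (l 3))), by decide +kernel⟩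

theorem c_pp_303 : CertNX 0 1230186008 0 1230186008 1046898278 26843546 3 false true true .npn 3 0 3
    ndN7q3 ndN7q3 pcN0 Cut.none Ext.none :=
  certNX0 (fam := false) (s1 := true) (s2 := true) (a := 3) (b := 0) (c := 3) (cn := .npn) (n1 := ndN7q3) (n2 := ndN7q3) (pc := pcN0) (cut := Cut.none) (xt := Ext.none) (P1 := 0) (W1 := 1230186008) (P2 := 0) (W2 := 1230186008) (P3 := 1046898278) (W3 := 26843546) (N0 := 3)
    rfl k0_pp_303

noncomputable def f_pp_313 : ℕ → ℕ → ℕ → ℕ → Bool := onCell 0 1230186008 0 1230186008 1046898278 26843546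
    (rowNX 3 0 false true true .dn 3 1 3 (qsf 0 1230186008 0 1230186008 1) ndN7q3 ndN7q3 pcN1 Cut.none Ext.none)

def k0_pp_313 : ∃ t, chk3 f_pp_313 t 1 1 1 = true :=
  ⟨(a (l 1) (b (a (l 1) (a (l 1) (a (l 1) (b (b (l 11743547585255) (l 1)) (l 1))))) (l 1))), by decide +kernel⟩

theorem c_pp_313 : CertNX 0 1230186008 0 1230186008 1046898278 26843546 3 false true true .dn 3 1 3
    ndN7q3 ndN7q3 pcN1 Cut.none Ext.none :=
  certNX0 (fam := false) (s1 := true) (s2 := true) (a := 3) (b := 1) (c := 3) (cn := .dn) (n1 := ndN7q3) (n2 := ndN7q3) (pc := pcN1) (cut := Cut.none) (xt := Ext.none) (P1 := 0) (W1 := 1230186008) (P2 := 0) (W2 := 1230186008) (P3 := 1046898278) (W3 := 26843546) (N0 := 3)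
    rfl k0_pp_313

noncomputable def f_pm_001 : ℕ → ℕ → ℕ → ℕ → Bool := onCell 0 536870912 536870912 536870912 1046898278 26843546
    (rowNX 3 0 false true false .up 0 0 1 (qsf 0 536870912 536870912 536870912 0) ndN7q0 ndN7q1 pcN0 Cut.none Ext.none)

def k0_pm_001 : ∃ t, chk3 f_pm_001 t 1 1 1 = true :=
  ⟨(l 4), by decide +kernel⟩

theorem c_pm_001 : CertNX 0 536870912 536870912 536870912 1046898278 26843546 3 false true false .up 0 0 1
    ndN7q0 ndN7q1 pcN0 Cut.none Ext.none :=
  certNX0 (fam := false) (s1 := true) (s2 := false) (a := 0) (b := 0) (c := 1) (cn := .up) (n1 := ndN7q0) (n2 := ndN7q1) (pc := pcN0) (cut := Cut.none) (xt := Ext.none) (P1 := 0) (W1 := 536870912) (P2 := 536870912) (W2 := 536870912) (P3 := 1046898278) (W3 := 26843546) (N0 := 3)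
    rfl k0_pm_001

noncomputable def f_pm_011 : ℕ → ℕ → ℕ → ℕ → Bool := onCell 0 536870912 536870912 536870912 1046898278 26843546
    (rowNX 3 0 false true false .pnn 0 1 1 (qsf 0 536870912 536870912 536870912 1) ndN7q0 ndN7q1 pcN1 Cut.none Ext.none)

def k0_pm_011 : ∃ t, chk3 f_pm_011 t 1 1 1 = true :=
  ⟨(l 4), by decide +kernel⟩

theorem c_pm_011 : CertNX 0 536870912 536870912 536870912 1046898278 26843546 3 false true false .pnn 0 1 1
    ndN7q0 ndN7q1 pcN1 Cut.none Ext.none :=
  certNX0 (fam := false) (s1 := true) (s2 := false) (a := 0) (b := 1) (c := 1) (cn := .pnn) (n1 := ndN7q0) (n2 := ndN7q1) (pc := pcN1) (cut := Cut.none) (xt := Ext.none) (P1 := 0) (W1 := 536870912) (P2 := 536870912) (W2 := 536870912) (P3 := 1046898278) (W3 := 26843546) (N0 := 3)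
    rfl k0_pm_011

noncomputable def f_pm_012 : ℕ → ℕ → ℕ → ℕ → Bool := onCell 0 536870912 1073741824 536870912 1046898278 26843546
    (rowNX 3 0 false true false .pnp 0 1 2 (qsf 0 536870912 1073741824 536870912 1) ndN7q0 ndN7q2 pcN1 Cut.none Ext.none)

def k0_pm_012 : ∃ t, chk3 f_pm_012 t 1 1 1 = true :=
  ⟨(l 4), by decide +kernel⟩

theorem c_pm_012 : CertNX 0 536870912 1073741824 536870912 1046898278 26843546 3 false true false .pnp 0 1 2
    ndN7q0 ndN7q2 pcN1 Cut.none Ext.none :=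
  certNX0 (fam := false) (s1 := true) (s2 := false) (a := 0) (b := 1) (c := 2) (cn := .pnp) (n1 := ndN7q0) (n2 := ndN7q2) (pc := pcN1) (cut := Cut.none) (xt := Ext.none) (P1 := 0) (W1 := 536870912) (P2 := 1073741824) (W2 := 536870912) (P3 := 1046898278) (W3 := 26843546) (N0 := 3)
    rfl k0_pm_012

noncomputable def f_pm_022 : ℕ → ℕ → ℕ → ℕ → Bool := onCell 0 536870912 1073741824 536870912 1046898278 26843546
    (rowNX 3 0 false true false .pp 0 2 2 (qsf 0 536870912 1073741824 536870912 2) ndN7q0 ndN7q2 pcN2 Cut.none Ext.none)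

def k0_pm_022 : ∃ t, chk3 f_pm_022 t 1 1 1 = true :=
  ⟨(l 4), by decide +kernel⟩

theorem c_pm_022 : CertNX 0 536870912 1073741824 536870912 1046898278 26843546 3 false true false .pp 0 2 2
    ndN7q0 ndN7q2 pcN2 Cut.none Ext.none :=
  certNX0 (fam := false) (s1 := true) (s2 := false) (a := 0) (b := 2) (c := 2) (cn := .pp) (n1 := ndN7q0) (n2 := ndN7q2) (pc := pcN2) (cut := Cut.none) (xt := Ext.none) (P1 := 0) (W1 := 536870912) (P2 := 1073741824) (W2 := 536870912) (P3 := 1046898278) (W3 := 26843546) (N0 := 3)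
    rfl k0_pm_022

noncomputable def f_pm_023 : ℕ → ℕ → ℕ → ℕ → Bool := onCell 0 536870912 0 1230186008 1046898278 26843546
    (rowNX 3 0 false true false .up 0 2 3 (qsf 0 536870912 0 1230186008 2) ndN7q0 ndN7q3 pcN2 Cut.none Ext.none)

def k0_pm_023 : ∃ t, chk3 f_pm_023 t 1 1 1 = true :=
  ⟨(l 4), by decide +kernel⟩

theorem c_pm_023 : CertNX 0 536870912 0 1230186008 1046898278 26843546 3 false true false .up 0 2 3
    ndN7q0 ndN7q3 pcN2 Cut.none Ext.none :=
  certNX0 (fam := false) (s1 := true) (s2 := false) (a := 0) (b := 2) (c := 3) (cn := .up) (n1 := ndN7q0) (n2 := ndN7q3) (pc := pcN2) (cut := Cut.none) (xt := Ext.none) (P1 := 0) (W1 := 536870912) (P2 := 0) (W2 := 1230186008) (P3 := 1046898278) (W3 := 26843546) (N0 := 3)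
    rfl k0_pm_023

noncomputable def f_pm_033 : ℕ → ℕ → ℕ → ℕ → Bool := onCell 0 536870912 0 1230186008 1046898278 26843546
    (rowNX 3 0 false true false .pnn 0 3 3 (qsf 0 536870912 0 1230186008 3) ndN7q0 ndN7q3 pcN3 Cut.none Ext.none)

def k0_pm_033 : ∃ t, chk3 f_pm_033 t 1 1 1 = true :=
  ⟨(l 4), by decide +kernel⟩

theorem c_pm_033 : CertNX 0 536870912 0 1230186008 1046898278 26843546 3 false true false .pnn 0 3 3
    ndN7q0 ndN7q3 pcN3 Cut.none Ext.none :=
  certNX0 (fam := false) (s1 := true) (s2 := false) (a := 0) (b := 3) (c := 3) (cn := .pnn) (n1 := ndN7q0) (n2 := ndN7q3) (pc := pcN3) (cut := Cut.none) (xt := Ext.none) (P1 := 0) (W1 := 536870912) (P2 := 0) (W2 := 1230186008) (P3 := 1046898278) (W3 := 26843546) (N0 := 3)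
    rfl k0_pm_033

noncomputable def f_pm_101 : ℕ → ℕ → ℕ → ℕ → Bool := onCell 536870912 536870912 536870912 536870912 1046898278 26843546
    (rowNX 3 0 false true false .npn 1 0 1 (qsf 536870912 536870912 536870912 536870912 0) ndN7q1 ndN7q1 pcN0 Cut.none Ext.none)

def k0_pm_101 : ∃ t, chk3 f_pm_101 t 1 1 1 = true :=
  ⟨(l 4), by decide +kernel⟩

theorem c_pm_101 : CertNX 536870912 536870912 536870912 536870912 1046898278 26843546 3 false true false .npn 1 0 1
    ndN7q1 ndN7q1 pcN0 Cut.none Ext.none :=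
  certNX0 (fam := false) (s1 := true) (s2 := false) (a := 1) (b := 0) (c := 1) (cn := .npn) (n1 := ndN7q1) (n2 := ndN7q1) (pc := pcN0) (cut := Cut.none) (xt := Ext.none) (P1 := 536870912) (W1 := 536870912) (P2 := 536870912) (W2 := 536870912) (P3 := 1046898278) (W3 := 26843546) (N0 := 3)
    rfl k0_pm_101

noncomputable def f_pm_102 : ℕ → ℕ → ℕ → ℕ → Bool := onCell 536870912 536870912 1073741824 536870912 1046898278 26843546
    (rowNX 3 0 false true false .npp 1 0 2 (qsf 536870912 536870912 1073741824 536870912 0) ndN7q1 ndN7q2 pcN0 Cut.none Ext.none)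

def k0_pm_102 : ∃ t, chk3 f_pm_102 t 1 1 1 = true :=
  ⟨(l 4), by decide +kernel⟩

theorem c_pm_102 : CertNX 536870912 536870912 1073741824 536870912 1046898278 26843546 3 false true false .npp 1 0 2
    ndN7q1 ndN7q2 pcN0 Cut.none Ext.none :=
  certNX0 (fam := false) (s1 := true) (s2 := false) (a := 1) (b := 0) (c := 2) (cn := .npp) (n1 := ndN7q1) (n2 := ndN7q2) (pc := pcN0) (cut := Cut.none) (xt := Ext.none) (P1 := 536870912) (W1 := 536870912) (P2 := 1073741824) (W2 := 536870912) (P3 := 1046898278) (W3 := 26843546) (N0 := 3)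
    rfl k0_pm_102

noncomputable def f_pm_112 : ℕ → ℕ → ℕ → ℕ → Bool := onCell 536870912 536870912 1073741824 536870912 1046898278 26843546
    (rowNX 3 0 false true false .dn 1 1 2 (qsf 536870912 536870912 1073741824 536870912 1) ndN7q1 ndN7q2 pcN1 Cut.none Ext.none)

def k0_pm_112 : ∃ t, chk3 f_pm_112 t 1 1 1 = true :=
  ⟨(l 4), by decide +kernel⟩

theorem c_pm_112 : CertNX 536870912 536870912 1073741824 536870912 1046898278 26843546 3 false true false .dn 1 1 2
    ndN7q1 ndN7q2 pcN1 Cut.none Ext.none :=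
  certNX0 (fam := false) (s1 := true) (s2 := false) (a := 1) (b := 1) (c := 2) (cn := .dn) (n1 := ndN7q1) (n2 := ndN7q2) (pc := pcN1) (cut := Cut.none) (xt := Ext.none) (P1 := 536870912) (W1 := 536870912) (P2 := 1073741824) (W2 := 536870912) (P3 := 1046898278) (W3 := 26843546) (N0 := 3)
    rfl k0_pm_112

noncomputable def f_pm_113 : ℕ → ℕ → ℕ → ℕ → Bool := onCell 536870912 536870912 0 1230186008 1046898278 26843546
    (rowNX 3 0 false true false .nn 1 1 3 (qsf 536870912 536870912 0 1230186008 1) ndN7q1 ndN7q3 pcN1 Cut.none Ext.none)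

def k0_pm_113 : ∃ t, chk3 f_pm_113 t 1 1 1 = true :=
  ⟨(b (a (l 2) (a (l 2) (b (a (l 2) (a (l 2) (a (l 4) (b (a (l 2) (b (l 16724112) (l 4))) (l 4))))) (l 4)))) (l 4)), by decide +kernel⟩

theorem c_pm_113 : CertNX 536870912 536870912 0 1230186008 1046898278 26843546 3 false true false .nn 1 1 3
    ndN7q1 ndN7q3 pcN1 Cut.none Ext.none :=
  certNX0 (fam := false) (s1 := true) (s2 := false) (a := 1) (b := 1) (c := 3) (cn := .nn) (n1 := ndN7q1) (n2 := ndN7q3) (pc := pcN1) (cut := Cut.none) (xt := Ext.none) (P1 := 536870912) (W1 := 536870912) (P2 := 0) (W2 := 1230186008) (P3 := 1046898278) (W3 := 26843546) (N0 := 3)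
    rfl k0_pm_113

noncomputable def f_pm_123 : ℕ → ℕ → ℕ → ℕ → Bool := onCell 536870912 536870912 0 1230186008 1046898278 26843546
    (rowNX 3 0 false true false .npn 1 2 3 (qsf 536870912 536870912 0 1230186008 2) ndN7q1 ndN7q3 pcN2 Cut.none Ext.none)

def k0_pm_123 : ∃ t, chk3 f_pm_123 t 1 1 1 = true :=
  ⟨(b (a (l 4) (b (a (l 4) (a (l 4) (b (a (l 4) (a (l 4) (a (l 4) (b (l 16730736) (l 4))))) (l 4)))) (l 4))) (l 4)), by decide +kernel⟩

theorem c_pm_123 : CertNX 536870912 536870912 0 1230186008 1046898278 26843546 3 false true false .npn 1 2 3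
    ndN7q1 ndN7q3 pcN2 Cut.none Ext.none :=
  certNX0 (fam := false) (s1 := true) (s2 := false) (a := 1) (b := 2) (c := 3) (cn := .npn) (n1 := ndN7q1) (n2 := ndN7q3) (pc := pcN2) (cut := Cut.none) (xt := Ext.none) (P1 := 536870912) (W1 := 536870912) (P2 := 0) (W2 := 1230186008) (P3 := 1046898278) (W3 := 26843546) (N0 := 3)
    rfl k0_pm_123

noncomputable def f_pm_133 : ℕ → ℕ → ℕ → ℕ → Bool := onCell 1610612736 536870912 0 1230186008 1046898278 26843546
    (rowNX 3 2 false true false .dn 1 3 3 (qsf 536870912 536870912 0 1230186008 3) ndN7q1 ndN7q3 pcN3 Cut.none Ext.none)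

def k0_pm_133 : ∃ t, chk3 f_pm_133 t 1 1 1 = true :=
  ⟨(l 4), by decide +kernel⟩

theorem c_pm_133 : CertNX 536870912 536870912 0 1230186008 1046898278 26843546 3 false true false .dn 1 3 3
    ndN7q1 ndN7q3 pcN3 Cut.none Ext.none :=
  certNX2 (fam := false) (s1 := true) (s2 := false) (a := 1) (b := 3) (c := 3) (cn := .dn) (n1 := ndN7q1) (n2 := ndN7q3) (pc := pcN3) (cut := Cut.none) (xt := Ext.none) (P1 := 536870912) (W1 := 536870912) (P2 := 0) (W2 := 1230186008) (P3 := 1046898278) (W3 := 26843546) (N0 := 3)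
    rfl (fun _ => rfl) k0_pm_133

noncomputable def f_pm_202 : ℕ → ℕ → ℕ → ℕ → Bool := onCell 1073741824 536870912 1073741824 536870912 1046898278 26843546
    (rowNX 3 0 false true false .pp 2 0 2 (qsf 1073741824 536870912 1073741824 536870912 0) ndN7q2 ndN7q2 pcN0 Cut.none Ext.none)

def k0_pm_202 : ∃ t, chk3 f_pm_202 t 1 1 1 = true :=
  ⟨(l 4), by decide +kernel⟩

theorem c_pm_202 : CertNX 1073741824 536870912 1073741824 536870912 1046898278 26843546 3 false true false .pp 2 0 2
    ndN7q2 ndN7q2 pcN0 Cut.none Ext.none :=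
  certNX0 (fam := false) (s1 := true) (s2 := false) (a := 2) (b := 0) (c := 2) (cn := .pp) (n1 := ndN7q2) (n2 := ndN7q2) (pc := pcN0) (cut := Cut.none) (xt := Ext.none) (P1 := 1073741824) (W1 := 536870912) (P2 := 1073741824) (W2 := 536870912) (P3 := 1046898278) (W3 := 26843546) (N0 := 3)
    rfl k0_pm_202

noncomputable def f_pm_203 : ℕ → ℕ → ℕ → ℕ → Bool := onCell 1073741824 536870912 0 1230186008 1046898278 26843546
    (rowNX 3 0 false true false .up 2 0 3 (qsf 1073741824 536870912 0 1230186008 0) ndN7q2 ndN7q3 pcN0 Cut.none Ext.none)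

def k0_pm_203 : ∃ t, chk3 f_pm_203 t 1 1 1 = true :=
  ⟨(b (a (l 2) (a (l 2) (b (b (l 16688176) (l 16657680)) (c (l 16766592) (l 16766216))))) (b (a (l 4) (a (l 4) (l 4))) (l 4))), by decide +kernel⟩

theorem c_pm_203 : CertNX 1073741824 536870912 0 1230186008 1046898278 26843546 3 false true false .up 2 0 3
    ndN7q2 ndN7q3 pcN0 Cut.none Ext.none :=
  certNX0 (fam := false) (s1 := true) (s2 := false) (a := 2) (b := 0) (c := 3) (cn := .up) (n1 := ndN7q2) (n2 := ndN7q3) (pc := pcN0) (cut := Cut.none) (xt := Ext.none) (P1 := 1073741824) (W1 := 536870912) (P2 := 0) (W2 := 1230186008) (P3 := 1046898278) (W3 := 26843546) (N0 := 3)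
    rfl k0_pm_203

noncomputable def f_pm_213 : ℕ → ℕ → ℕ → ℕ → Bool := onCell 536870912 536870912 0 1230186008 1046898278 26843546
    (rowNX 3 2 false true false .pnn 2 1 3 (qsf 1073741824 536870912 0 1230186008 1) ndN7q2 ndN7q3 pcN1 Cut.none Ext.none)

def k0_pm_213 : ∃ t, chk3 f_pm_213 t 1 1 1 = true :=
  ⟨(a (b (b (a (b (l 16688176) (l 16657680)) (b (l 16454312) (a (l 16683128) (a (l 16256616) (b (l 16010992) (l 16113256)))))) (a (b (l 16754168) (l 16676472)) (b (a (l 16552120) (l 16147088)) (l 4)))) (l 4)) (b (b (b (b (a (a (l 15679328) (a (l 15499712) (b (l 15407184) (b (l 15421736) (a (a (l 15382608) (l 15582000)) (a (l 15633056) (c (l 15782912) (l 15706104)))))))) (c (a (a (b (l 15616176) (a (l 15865656) (a (l 15967080) (l 16059992)))) (c (a (l 16105232) (a (l 16118096) (l 16106520))) (a (l 16018312) (c (l 16057952) (l 16013144))))) (a (c (l 16273136) (a (b (l 16135904) (l 16487856)) (l 16303152))) (a (l 16585416) (l 16744144)))) (a (a (b (l 15572520) (a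 (a (l 15769176) (l 15817296)) (a (l 15896440) (b (l 16002816) (l 16611184))))) (a (l 15977272) (l 15987904))) (a (a (l 16078744) (c (c (l 16256272) (l 16268400)) (l 16247168))) (c (a (c (l 16481944) (l 16442240)) (l 16685576)) (a (l 16344344) (c (l 15171008) (l 13445992)))))))) (a (a (a (l 15676192) (l 15551544)) (a (b (a (l 15650336) (b (l 15643648) (l 16190464))) (l 16527400)) (b (b (a (a (b (l 15554120) (l 15851520)) (b (l 15632400) (l 16303544))) (l 16026992)) (l 16761576)) (l 16758704)))) (a (a (a (l 16739960) (l 16727104)) (c (c (a (l 16651160) (l 16555880)) (l 16523368)) (l 16457720))) (l 4)))) (a (a (a (b (l 15910616) (l 16142480)) (b (l 16023824) (l 4))) (a (l 16257472) (l 16281208))) (l 4))) (l 4)) (l 4))), by decide +kernel⟩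

theorem c_pm_213 : CertNX 1073741824 536870912 0 1230186008 1046898278 26843546 3 false true false .pnn 2 1 3
    ndN7q2 ndN7q3 pcN1 Cut.none Ext.none :=
  certNX2 (fam := false) (s1 := true) (s2 := false) (a := 2) (b := 1) (c := 3) (cn := .pnn) (n1 := ndN7q2) (n2 := ndN7q3) (pc := pcN1) (cut := Cut.none) (xt := Ext.none) (P1 := 1073741824) (W1 := 536870912) (P2 := 0) (W2 := 1230186008) (P3 := 1046898278) (W3 := 26843546) (N0 := 3)
    rfl (fun _ => rfl) k0_pm_213

noncomputable def f_pm_303 : ℕ → ℕ → ℕ → ℕ → Bool := onCell 0 1230186008 0 1230186008 1046898278 26843546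
    (rowNX 3 0 false true false .npn 3 0 3 (qsf 0 1230186008 0 1230186008 0) ndN7q3 ndN7q3 pcN0 Cut.none Ext.none)

def k0_pm_303 : ∃ t, chk3 f_pm_303 t 2 4 1 = true :=
  ⟨(l 3), by decide +kernel⟩

def k1_pm_303 : ∃ t, chk3 f_pm_303 t 4 5 1 = true :=
  ⟨(l 3), by decide +kernel⟩

def k2_pm_303 : ∃ t, chk3 f_pm_303 t 10 5 1 = true :=
  ⟨(b (l 3) (b (l 3) (l 1))), by decide +kernel⟩

def k3_pm_303 : ∃ t, chk3 f_pm_303 t 11 10 1 = true :=
  ⟨(a (l 3) (a (l 3) (a (l 3) (b (l 3) (c (b (l 3) (b (l 3) (c (c (l 14553072) (l 394225997911)) (l 14451024)))) (l 14455968)))))), by decide +kernel⟩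

def k4_pm_303 : ∃ t, chk3 f_pm_303 t 22 11 1 = true :=
  ⟨(a (b (l 3) (l 1)) (a (b (l 3) (l 1)) (b (b (l 3) (b (l 3) (b (l 3) (b (l 3) (c (l 14021448) (l 13928720)))))) (a (l 1) (b (c (l 13938416) (l 13869088)) (l 1)))))), by decide +kernel⟩

def k5_pm_303 : ∃ t, chk3 f_pm_303 t 46 11 1 = true :=
  ⟨(b (b (b (l 3) (a (l 3) (a (l 3) (a (l 3) (c (l 14279512) (c (l 14226160) (l 14166552))))))) (c (b (l 14181640) (a (b (l 14097432) (l 14078832)) (c (b (l 14187680) (l 14170208)) (b (l 14150728) (l 14136136))))) (c (a (b (b (l 3) (l 14061576)) (b (l 14040544) (l 14014392))) (c (b (l 14166576) (l 14102288)) (b (a (c (l 14128768) (l 14108592)) (l 14160936)) (a (l 14065776) (l 14113648))))) (a (a (b (l 3) (c (l 13975464) (c (b (l 13968272) (l 13943080)) (l 13941920)))) (c (b (l 383487940423) (c (l 14015552) (l 14001064))) (l 352886143383))) (c (b (l 14120232) (b (l 14083464) (l 14074968))) (l 14061160)))))) (b (c (b (a (l 14063144) (c (l 14198432) (l 14150952))) (l 14065416))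 (b (a (c (l 13998672) (b (a (l 13942680) (l 14001592)) (l 13974624))) (c (b (l 14114008) (l 14134760)) (l 14095528))) (a (l 13964096) (c (l 14133784) (b (l 14113408) (l 14115528)))))) (c (l 14056816) (l 2136236952599)))), by decide +kernel⟩

def k6_pm_303 : ∃ t, chk3 f_pm_303 t 47 11 1 = true :=
  ⟨(b (c (b (c (a (l 14388976) (c (l 14481000) (b (l 350739398423) (l 14435096)))) (a (c (b (l 393688869495) (l 14333832)) (b (l 389930771175) (a (l 355034005479) (l 14335368)))) (c (b (l 14453184) (a (l 14397968) (l 14457376))) (l 349665484679)))) (b (c (l 14348752) (a (l 14263840) (c (l 14379408) (l 14358840)))) (a (l 14276248) (l 14372864)))) (c (b (c (a (l 14304504) (l 14374288)) (l 14317840)) (b (c (a (b (l 14264952) (l 14247656)) (l 14332528)) (l 14273136)) (l 14257312))) (b (l 14285832) (l 14176064)))) (a (b (c (b (c (l 14290440) (l 14250752)) (c (l 14332048) (l 14294296))) (b (l 14209944) (c (l 14264360) (l 14235360)))) (b (c (l 14309848) (c (l 14277040) (b (l 14253720)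 (l 14258488)))) (l 2004704108647))) (b (c (b (l 14359064) (c (l 14433888) (l 14398704))) (c (l 14356920) (l 14335640))) (b (c (b (l 14445744) (l 14453736)) (a (c (l 14382416) (l 14123488)) (c (l 14436328) (l 14409208)))) (l 14432304))))), by decide +kernel⟩

def k7_pm_303 : ∃ t, chk3 f_pm_303 t 2 3 1 = true :=
  ⟨(a (l 1) (b (a (l 1) (b (b (a (l 1) (b (l 1962291047159) (l 1))) (l 1)) (l 1))) (l 1))), by decide +kernel⟩

def k8_pm_303 : ∃ t, chk3 f_pm_303 t 6 4 1 = true :=
  ⟨(a (b (l 3) (a (l 3) (b (l 3) (l 434493809127)))) (b (a (l 3) (a (l 3) (l 462950065943))) (a (b (l 493551036231) (a (a (l 16007304) (b (l 16147168) (l 16118112))) (b (l 16336208) (l 16343464)))) (a (b (a (l 16531248) (l 16631496)) (b (l 16565176) (l 16610824))) (b (l 16649072) (l 16678136)))))), by decide +kernel⟩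

def k9_pm_303 : ∃ t, chk3 f_pm_303 t 12 10 1 = true :=
  ⟨(b (a (a (l 3) (c (l 421071140903) (l 424829097511))) (a (b (l 15575288) (a (l 15440736) (l 15651232))) (a (b (l 15717424) (l 15813360)) (b (l 15859448) (l 16063296))))) (b (b (a (c (l 414091120615) (l 412480380551)) (a (a (c (l 15512680) (l 15468248)) (l 15795256)) (l 16338024))) (a (a (a (l 3) (l 399058279783)) (a (l 333560498087) (c (l 15251184) (l 15197552)))) (a (a (c (l 15668688) (l 15629728)) (l 16177432)) (l 16533824)))) (b (a (a (a (a (l 3) (c (l 14600072) (l 14520936))) (a (l 14614120) (l 14722664))) (a (c (l 14942000) (l 14877496)) (l 15388160))) (a (a (c (l 15965640) (l 15937128)) (c (l 16410504) (l 16397632))) (l 16513560))) (a (a (c (a (c (c (a (l 14598312) (l 14557504)) (l 14572296)) (l 14535088)) (a (l 14353888) (l 14683304))) (a (l 14476144) (a (l 14525544) (l 14609336)))) (a (l 14970224) (c (l 15455768) (l 15409304)))) (a (a (c (l 15882536) (l 15851080)) (l 16190000)) (l 16259584)))))), by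 decide +kernel⟩

def k10_pm_303 : ∃ t, chk3 f_pm_303 t 12 11 1 = true :=
  ⟨(a (b (b (b (a (c (a (c (c (l 14582832) (l 14544936)) (l 14488384)) (a (l 14403232) (a (l 14648000) (l 14645896)))) (l 14510912)) (a (c (a (b (l 14829976) (l 14753752)) (l 14975200)) (l 14782032)) (c (l 15255184) (l 15201632)))) (a (c (c (a (c (l 14556576) (l 14538392)) (l 14512296)) (l 14569600)) (l 14497248)) (a (b (l 14742440) (a (l 14732072) (l 14759456))) (c (l 15015104) (l 14950768))))) (a (c (b (c (l 14565216) (l 14542072)) (l 14538624)) (l 14474768)) (a (c (l 14762968) (l 14670600)) (c (b (l 14908896) (l 14844240)) (l 14816552))))) (a (b (c (b (l 14521696) (a (l 14498784) (l 14599600))) (l 14532936)) (b (b (c (a (c (l 14557880) (l 14511456)) (l 14612696)) (l 14546064)) (a (c (a (l 14542824) (l 14599408)) (l 14487736)) (l 14618384))) (c (l 14628336) (l 14579408)))) (b (c (l 14803136) (l 14778008)) (c (l 14818896) (l 14795176))))) (b (a (b (a (l 15208512) (b (l 15798600) (l 15561024)))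 (b (l 15253168) (c (l 15183424) (l 15127560)))) (b (b (a (c (l 16027976) (l 15982352)) (l 16114320)) (a (l 15829712) (l 16022888))) (a (l 15589856) (l 15789960)))) (b (a (b (c (a (l 15004656) (l 15201752)) (l 14994824)) (a (l 14965648) (l 15111016))) (b (l 15512928) (l 15421568))) (a (l 15044344) (l 15338080))))), by decide +kernel⟩

def k11_pm_303 : ∃ t, chk3 f_pm_303 t 13 5 1 = true :=
  ⟨(b (a (b (a (b (a (l 16006832) (l 16211856)) (a (l 16369584) (l 16619312))) (b (l 16518464) (l 16740464))) (a (b (b (l 16728064) (l 16691728)) (l 16413552)) (b (l 16711120) (l 16497352)))) (b (a (b (l 16707368) (l 16756608)) (b (l 16724640) (l 16756920))) (a (l 16639824) (l 16705016)))) (b (a (a (b (l 16189288) (a (l 15969808) (l 16085400))) (l 16303928)) (a (l 16399192) (l 16532504))) (a (l 15885176) (l 16273280)))), by decide +kernel⟩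

def k12_pm_303 : ∃ t, chk3 f_pm_303 t 7 2 1 = true :=
  ⟨(b (a (b (a (c (l 16689552) (l 16687512)) (c (l 16689552) (l 16687512))) (a (l 16657680) (l 16657680))) (b (a (l 16688176) (l 16688176)) (l 16657680))) (a (a (b (a (b (l 16743968) (l 16757328)) (l 16758880)) (b (a (l 16666056) (l 16757352)) (l 16576560))) (b (l 16758880) (b (l 16777216) (l 16763648)))) (c (l 16766592) (l 16766216)))), by decide +kernel⟩

def k13_pm_303 : ∃ t, chk3 f_pm_303 t 12 6 1 = true :=
  ⟨(b (b (a (b (a (c (l 14636864) (b (a (l 14543552) (l 14661560)) (l 14506528))) (c (b (l 14871280) (l 14898040)) (c (l 14622464) (l 14831576)))) (a (l 14609392) (c (b (l 14916720) (l 14920112)) (b (a (l 14824136) (l 14938456)) (a (l 14819736) (l 14964512)))))) (a (b (c (l 15084648) (l 15065440)) (c (a (b (l 15086376) (l 15120328)) (l 15203744)) (a (b (l 15031704) (l 15076728)) (l 15168936)))) (b (l 15295968) (c (l 15347848) (l 15332464))))) (a (b (l 1647148967415) (l 1)) (b (a (c (b (l 15190448) (l 15200448))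 (b (a (l 15104936) (l 15214888)) (a (l 15107872) (l 15140568)))) (c (a (b (l 15352536) (l 15389552)) (l 15468512)) (a (b (l 15305040) (l 15185152)) (l 15439464)))) (a (l 15197560) (c (b (a (l 15409592) (l 15523976)) (l 15481632)) (a (b (l 15385968) (l 15397528)) (b (l 15490832) (c (l 15532400) (l 15521496))))))))) (b (a (l 1) (b (a (l 1) (l 1575746907367)) (l 1))) (l 1))), by decide +kernel⟩

def k14_pm_303 : ∃ t, chk3 f_pm_303 t 13 6 1 = true :=
  ⟨(b (a (b (a (b (l 15590184) (a (l 15506816) (l 15614528))) (b (l 15870160) (l 15808160))) (b (a (c (l 15608152) (l 15596056)) (a (l 15754208) (l 15857896))) (a (c (b (l 15666328) (a (l 15665008) (l 15750048))) (a (b (l 15577624) (c (l 15645528) (l 15632760))) (l 15718160))) (c (l 15859224) (l 15850016))))) (b (a (l 16023456) (l 16181376)) (a (b (l 16000472) (a (l 15996896) (l 16090816))) (b (l 16115616) (l 16197672))))) (a (b (a (b (b (a (c (l 15679352) (b (l 15656552) (l 15676400))) (l 15788984)) (l 15759280)) (l 15797048))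 (b (c (l 15946400) (l 15928792)) (c (l 16026928) (b (l 15994776) (l 16037576))))) (b (l 15992760) (l 1))) (b (a (b (l 16087024) (c (l 16209024) (l 16197072))) (c (b (l 16288080) (l 16367960)) (l 16309632))) (b (a (c (l 16305800) (b (l 16273096) (l 16325408))) (c (a (l 16432112) (l 16508056)) (l 16463600))) (a (l 16408512) (a (b (l 16516368) (l 16572736)) (b (l 16593992) (l 16655352)))))))), by decide +kernel⟩

def k15_pm_303 : ∃ t, chk3 f_pm_303 t 6 7 1 = true :=
  ⟨(a (l 1) (b (a (l 1) (b (b (l 878891423783) (l 1)) (l 1))) (l 1))), by decide +kernel⟩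

def k16_pm_303 : ∃ t, chk3 f_pm_303 t 7 3 1 = true :=
  ⟨(b (a (b (a (b (l 16417920) (l 16394592)) (b (l 16714680) (l 16675200))) (a (b (a (b (l 16416136) (l 16512904)) (l 16590752)) (a (b (c (l 16612144) (l 16609032)) (c (a (l 16694080) (l 16744040)) (a (l 16692280) (l 16743256)))) (b (l 16725216) (b (l 16770984) (l 4))))) (b (l 16721696) (b (l 16773080) (l 4))))) (b (a (l 16766112) (l 16777216)) (a (b (l 16818216) (l 4)) (l 4)))) (a (b (b (a (a (b (a (b (c (l 16766688) (l 16766512)) (l 4)) (l 4)) (l 4)) (l 4)) (l 4)) (l 4)) (l 4)) (l 4))), by decide +kernel⟩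

theorem s17_pm_303 : ∃ t, chk3 f_pm_303 t 6 6 1 = true := ex3_a k13_pm_303 k14_pm_303

theorem s18_pm_303 : ∃ t, chk3 f_pm_303 t 6 3 1 = true := ex3_b s17_pm_303 k15_pm_303

theorem s19_pm_303 : ∃ t, chk3 f_pm_303 t 3 3 1 = true := ex3_a s18_pm_303 k16_pm_303

theorem s20_pm_303 : ∃ t, chk3 f_pm_303 t 12 5 1 = true := ex3_b k9_pm_303 k10_pm_303

theorem s21_pm_303 : ∃ t, chk3 f_pm_303 t 6 5 1 = true := ex3_a s20_pm_303 k11_pm_303

theorem s22_pm_303 : ∃ t, chk3 f_pm_303 t 6 2 1 = true := ex3_b k8_pm_303 s21_pm_303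

theorem s23_pm_303 : ∃ t, chk3 f_pm_303 t 3 2 1 = true := ex3_a s22_pm_303 k12_pm_303

theorem s24_pm_303 : ∃ t, chk3 f_pm_303 t 3 1 1 = true := ex3_b s23_pm_303 s19_pm_303

theorem s25_pm_303 : ∃ t, chk3 f_pm_303 t 23 11 1 = true := ex3_a k5_pm_303 k6_pm_303

theorem s26_pm_303 : ∃ t, chk3 f_pm_303 t 11 11 1 = true := ex3_a k4_pm_303 s25_pm_303

theorem s27_pm_303 : ∃ t, chk3 f_pm_303 t 11 5 1 = true := ex3_b k3_pm_303 s26_pm_303

theorem s28_pm_303 : ∃ t, chk3 f_pm_303 t 5 5 1 = true := ex3_a k2_pm_303 s27_pm_303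

theorem s29_pm_303 : ∃ t, chk3 f_pm_303 t 2 5 1 = true := ex3_a k1_pm_303 s28_pm_303

theorem s30_pm_303 : ∃ t, chk3 f_pm_303 t 2 2 1 = true := ex3_b k0_pm_303 s29_pm_303

theorem s31_pm_303 : ∃ t, chk3 f_pm_303 t 2 1 1 = true := ex3_b s30_pm_303 k7_pm_303

theorem s32_pm_303 : ∃ t, chk3 f_pm_303 t 1 1 1 = true := ex3_a s31_pm_303 s24_pm_303

theorem c_pm_303 : CertNX 0 1230186008 0 1230186008 1046898278 26843546 3 false true false .npn 3 0 3
    ndN7q3 ndN7q3 pcN0 Cut.none Ext.none :=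
  certNX0 (fam := false) (s1 := true) (s2 := false) (a := 3) (b := 0) (c := 3) (cn := .npn) (n1 := ndN7q3) (n2 := ndN7q3) (pc := pcN0) (cut := Cut.none) (xt := Ext.none) (P1 := 0) (W1 := 1230186008) (P2 := 0) (W2 := 1230186008) (P3 := 1046898278) (W3 := 26843546) (N0 := 3)
    rfl s32_pm_303

noncomputable def f_pm_313 : ℕ → ℕ → ℕ → ℕ → Bool := onCell 0 1230186008 0 1230186008 1046898278 26843546
    (rowNX 3 0 false true false .dn 3 1 3 (qsf 0 1230186008 0 1230186008 1) ndN7q3 ndN7q3 pcN1 Cut.none Ext.none)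

def k0_pm_313 : ∃ t, chk3 f_pm_313 t 1 1 1 = true :=
  ⟨(a (l 1) (b (a (l 1) (b (a (l 1) (b (a (l 1) (l 16687712)) (l 1))) (l 1))) (l 1))), by decide +kernel⟩

theorem c_pm_313 : CertNX 0 1230186008 0 1230186008 1046898278 26843546 3 false true false .dn 3 1 3
    ndN7q3 ndN7q3 pcN1 Cut.none Ext.none :=
  certNX0 (fam := false) (s1 := true) (s2 := false) (a := 3) (b := 1) (c := 3) (cn := .dn) (n1 := ndN7q3) (n2 := ndN7q3) (pc := pcN1) (cut := Cut.none) (xt := Ext.none) (P1 := 0) (W1 := 1230186008) (P2 := 0) (W2 := 1230186008) (P3 := 1046898278) (W3 := 26843546) (N0 := 3)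
    rfl k0_pm_313

noncomputable def f_mm_001 : ℕ → ℕ → ℕ → ℕ → Bool := onCell 0 536870912 536870912 536870912 1046898278 26843546
    (rowNX 3 0 false false false .up 0 0 1 (qsf 0 536870912 536870912 536870912 0) ndN7q0 ndN7q1 pcN0 Cut.none Ext.none)

def k0_mm_001 : ∃ t, chk3 f_mm_001 t 1 1 1 = true :=
  ⟨(l 3), by decide +kernel⟩

theorem c_mm_001 : CertNX 0 536870912 536870912 536870912 1046898278 26843546 3 false false false .up 0 0 1
    ndN7q0 ndN7q1 pcN0 Cut.none Ext.none :=
  certNX0 (fam := false) (s1 := false) (s2 := false) (a := 0) (b := 0) (c := 1) (cn := .up) (n1 := ndN7q0) (n2 := ndN7q1) (pc := pcN0) (cut := Cut.none) (xt := Ext.none) (P1 := 0) (W1 := 536870912) (P2 := 536870912) (W2 := 536870912) (P3 := 1046898278) (W3 := 26843546) (N0 := 3)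
    rfl k0_mm_001

noncomputable def f_mm_011 : ℕ → ℕ → ℕ → ℕ → Bool := onCell 0 536870912 536870912 536870912 1046898278 26843546
    (rowNX 3 0 false false false .pnn 0 1 1 (qsf 0 536870912 536870912 536870912 1) ndN7q0 ndN7q1 pcN1 Cut.none Ext.none)

def k0_mm_011 : ∃ t, chk3 f_mm_011 t 1 1 1 = true :=
  ⟨(l 3), by decide +kernel⟩

theorem c_mm_011 : CertNX 0 536870912 536870912 536870912 1046898278 26843546 3 false false false .pnn 0 1 1
    ndN7q0 ndN7q1 pcN1 Cut.none Ext.none :=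
  certNX0 (fam := false) (s1 := false) (s2 := false) (a := 0) (b := 1) (c := 1) (cn := .pnn) (n1 := ndN7q0) (n2 := ndN7q1) (pc := pcN1) (cut := Cut.none) (xt := Ext.none) (P1 := 0) (W1 := 536870912) (P2 := 536870912) (W2 := 536870912) (P3 := 1046898278) (W3 := 26843546) (N0 := 3)
    rfl k0_mm_011

noncomputable def f_mm_012 : ℕ → ℕ → ℕ → ℕ → Bool := onCell 0 536870912 1073741824 536870912 1046898278 26843546
    (rowNX 3 0 false false false .pnp 0 1 2 (qsf 0 536870912 1073741824 536870912 1) ndN7q0 ndN7q2 pcN1 Cut.none Ext.none)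

def k0_mm_012 : ∃ t, chk3 f_mm_012 t 1 1 1 = true :=
  ⟨(l 5), by decide +kernel⟩

theorem c_mm_012 : CertNX 0 536870912 1073741824 536870912 1046898278 26843546 3 false false false .pnp 0 1 2
    ndN7q0 ndN7q2 pcN1 Cut.none Ext.none :=
  certNX0 (fam := false) (s1 := false) (s2 := false) (a := 0) (b := 1) (c := 2) (cn := .pnp) (n1 := ndN7q0) (n2 := ndN7q2) (pc := pcN1) (cut := Cut.none) (xt := Ext.none) (P1 := 0) (W1 := 536870912) (P2 := 1073741824) (W2 := 536870912) (P3 := 1046898278) (W3 := 26843546) (N0 := 3)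
    rfl k0_mm_012

noncomputable def f_mm_022 : ℕ → ℕ → ℕ → ℕ → Bool := onCell 0 536870912 1073741824 536870912 1046898278 26843546
    (rowNX 3 0 false false false .pp 0 2 2 (qsf 0 536870912 1073741824 536870912 2) ndN7q0 ndN7q2 pcN2 Cut.none Ext.none)

def k0_mm_022 : ∃ t, chk3 f_mm_022 t 1 1 1 = true :=
  ⟨(l 5), by decide +kernel⟩

theorem c_mm_022 : CertNX 0 536870912 1073741824 536870912 1046898278 26843546 3 false false false .pp 0 2 2
    ndN7q0 ndN7q2 pcN2 Cut.none Ext.none :=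
  certNX0 (fam := false) (s1 := false) (s2 := false) (a := 0) (b := 2) (c := 2) (cn := .pp) (n1 := ndN7q0) (n2 := ndN7q2) (pc := pcN2) (cut := Cut.none) (xt := Ext.none) (P1 := 0) (W1 := 536870912) (P2 := 1073741824) (W2 := 536870912) (P3 := 1046898278) (W3 := 26843546) (N0 := 3)
    rfl k0_mm_022

noncomputable def f_mm_023 : ℕ → ℕ → ℕ → ℕ → Bool := onCell 0 536870912 0 1230186008 1046898278 26843546
    (rowNX 3 0 false false false .up 0 2 3 (qsf 0 536870912 0 1230186008 2) ndN7q0 ndN7q3 pcN2 Cut.none Ext.none)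

def k0_mm_023 : ∃ t, chk3 f_mm_023 t 1 1 1 = true :=
  ⟨(l 5), by decide +kernel⟩

theorem c_mm_023 : CertNX 0 536870912 0 1230186008 1046898278 26843546 3 false false false .up 0 2 3
    ndN7q0 ndN7q3 pcN2 Cut.none Ext.none :=
  certNX0 (fam := false) (s1 := false) (s2 := false) (a := 0) (b := 2) (c := 3) (cn := .up) (n1 := ndN7q0) (n2 := ndN7q3) (pc := pcN2) (cut := Cut.none) (xt := Ext.none) (P1 := 0) (W1 := 536870912) (P2 := 0) (W2 := 1230186008) (P3 := 1046898278) (W3 := 26843546) (N0 := 3)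
    rfl k0_mm_023

noncomputable def f_mm_033 : ℕ → ℕ → ℕ → ℕ → Bool := onCell 0 536870912 0 1230186008 1046898278 26843546
    (rowNX 3 0 false false false .pnn 0 3 3 (qsf 0 536870912 0 1230186008 3) ndN7q0 ndN7q3 pcN3 Cut.none Ext.none)

def k0_mm_033 : ∃ t, chk3 f_mm_033 t 1 1 1 = true :=
  ⟨(l 5), by decide +kernel⟩

theorem c_mm_033 : CertNX 0 536870912 0 1230186008 1046898278 26843546 3 false false false .pnn 0 3 3
    ndN7q0 ndN7q3 pcN3 Cut.none Ext.none :=
  certNX0 (fam := false) (s1 := false) (s2 := false) (a := 0) (b := 3) (c := 3) (cn := .pnn) (n1 := ndN7q0) (n2 := ndN7q3) (pc := pcN3) (cut := Cut.none) (xt := Ext.none) (P1 := 0) (W1 := 536870912) (P2 := 0) (W2 := 1230186008) (P3 := 1046898278) (W3 := 26843546) (N0 := 3)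
    rfl k0_mm_033

noncomputable def f_mm_101 : ℕ → ℕ → ℕ → ℕ → Bool := onCell 536870912 536870912 536870912 536870912 1046898278 26843546
    (rowNX 3 0 false false false .npn 1 0 1 (qsf 536870912 536870912 536870912 536870912 0) ndN7q1 ndN7q1 pcN0 Cut.none Ext.none)

def k0_mm_101 : ∃ t, chk3 f_mm_101 t 1 1 1 = true :=
  ⟨(l 3), by decide +kernel⟩

theorem c_mm_101 : CertNX 536870912 536870912 536870912 536870912 1046898278 26843546 3 false false false .npn 1 0 1
    ndN7q1 ndN7q1 pcN0 Cut.none Ext.none :=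
  certNX0 (fam := false) (s1 := false) (s2 := false) (a := 1) (b := 0) (c := 1) (cn := .npn) (n1 := ndN7q1) (n2 := ndN7q1) (pc := pcN0) (cut := Cut.none) (xt := Ext.none) (P1 := 536870912) (W1 := 536870912) (P2 := 536870912) (W2 := 536870912) (P3 := 1046898278) (W3 := 26843546) (N0 := 3)
    rfl k0_mm_101

noncomputable def f_mm_102 : ℕ → ℕ → ℕ → ℕ → Bool := onCell 536870912 536870912 0 536870912 1046898278 26843546
    (rowNX 3 1 false false false .npp 1 0 2 (qsf 536870912 536870912 1073741824 536870912 0) ndN7q1 ndN7q2 pcN0 Cut.none Ext.none)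

def k0_mm_102 : ∃ t, chk3 f_mm_102 t 1 1 1 = true :=
  ⟨(l 3), by decide +kernel⟩

theorem c_mm_102 : CertNX 536870912 536870912 1073741824 536870912 1046898278 26843546 3 false false false .npp 1 0 2
    ndN7q1 ndN7q2 pcN0 Cut.none Ext.none :=
  certNX1 (fam := false) (s1 := false) (s2 := false) (a := 1) (b := 0) (c := 2) (cn := .npp) (n1 := ndN7q1) (n2 := ndN7q2) (pc := pcN0) (cut := Cut.none) (xt := Ext.none) (P1 := 536870912) (W1 := 536870912) (P2 := 1073741824) (W2 := 536870912) (P3 := 1046898278) (W3 := 26843546) (N0 := 3)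
    rfl (fun _ => rfl) k0_mm_102

noncomputable def f_mm_112 : ℕ → ℕ → ℕ → ℕ → Bool := onCell 536870912 536870912 536870912 536870912 1046898278 26843546
    (rowNX 3 1 false false false .dn 1 1 2 (qsf 536870912 536870912 1073741824 536870912 1) ndN7q1 ndN7q2 pcN1 Cut.none Ext.none)

def k0_mm_112 : ∃ t, chk3 f_mm_112 t 1 1 1 = true :=
  ⟨(l 5), by decide +kernel⟩

theorem c_mm_112 : CertNX 536870912 536870912 1073741824 536870912 1046898278 26843546 3 false false false .dn 1 1 2
    ndN7q1 ndN7q2 pcN1 Cut.none Ext.none :=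
  certNX1 (fam := false) (s1 := false) (s2 := false) (a := 1) (b := 1) (c := 2) (cn := .dn) (n1 := ndN7q1) (n2 := ndN7q2) (pc := pcN1) (cut := Cut.none) (xt := Ext.none) (P1 := 536870912) (W1 := 536870912) (P2 := 1073741824) (W2 := 536870912) (P3 := 1046898278) (W3 := 26843546) (N0 := 3)
    rfl (fun _ => rfl) k0_mm_112

noncomputable def f_mm_113 : ℕ → ℕ → ℕ → ℕ → Bool := onCell 536870912 536870912 0 1230186008 1046898278 26843546
    (rowNX 3 0 false false false .nn 1 1 3 (qsf 536870912 536870912 0 1230186008 1) ndN7q1 ndN7q3 pcN1 Cut.none Ext.none)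

def k0_mm_113 : ∃ t, chk3 f_mm_113 t 1 1 1 = true :=
  ⟨(l 5), by decide +kernel⟩

theorem c_mm_113 : CertNX 536870912 536870912 0 1230186008 1046898278 26843546 3 false false false .nn 1 1 3
    ndN7q1 ndN7q3 pcN1 Cut.none Ext.none :=
  certNX0 (fam := false) (s1 := false) (s2 := false) (a := 1) (b := 1) (c := 3) (cn := .nn) (n1 := ndN7q1) (n2 := ndN7q3) (pc := pcN1) (cut := Cut.none) (xt := Ext.none) (P1 := 536870912) (W1 := 536870912) (P2 := 0) (W2 := 1230186008) (P3 := 1046898278) (W3 := 26843546) (N0 := 3)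
    rfl k0_mm_113

noncomputable def f_mm_123 : ℕ → ℕ → ℕ → ℕ → Bool := onCell 536870912 536870912 0 1230186008 1046898278 26843546
    (rowNX 3 0 false false false .npn 1 2 3 (qsf 536870912 536870912 0 1230186008 2) ndN7q1 ndN7q3 pcN2 Cut.none Ext.none)

def k0_mm_123 : ∃ t, chk3 f_mm_123 t 1 1 1 = true :=
  ⟨(l 5), by decide +kernel⟩

theorem c_mm_123 : CertNX 536870912 536870912 0 1230186008 1046898278 26843546 3 false false false .npn 1 2 3
    ndN7q1 ndN7q3 pcN2 Cut.none Ext.none :=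
  certNX0 (fam := false) (s1 := false) (s2 := false) (a := 1) (b := 2) (c := 3) (cn := .npn) (n1 := ndN7q1) (n2 := ndN7q3) (pc := pcN2) (cut := Cut.none) (xt := Ext.none) (P1 := 536870912) (W1 := 536870912) (P2 := 0) (W2 := 1230186008) (P3 := 1046898278) (W3 := 26843546) (N0 := 3)
    rfl k0_mm_123

noncomputable def f_mm_133 : ℕ → ℕ → ℕ → ℕ → Bool := onCell 536870912 536870912 0 1230186008 1046898278 26843546
    (rowNX 3 0 false false false .dn 1 3 3 (qsf 536870912 536870912 0 1230186008 3) ndN7q1 ndN7q3 pcN3 Cut.none Ext.none)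

def k0_mm_133 : ∃ t, chk3 f_mm_133 t 1 1 1 = true :=
  ⟨(l 5), by decide +kernel⟩

theorem c_mm_133 : CertNX 536870912 536870912 0 1230186008 1046898278 26843546 3 false false false .dn 1 3 3
    ndN7q1 ndN7q3 pcN3 Cut.none Ext.none :=
  certNX0 (fam := false) (s1 := false) (s2 := false) (a := 1) (b := 3) (c := 3) (cn := .dn) (n1 := ndN7q1) (n2 := ndN7q3) (pc := pcN3) (cut := Cut.none) (xt := Ext.none) (P1 := 536870912) (W1 := 536870912) (P2 := 0) (W2 := 1230186008) (P3 := 1046898278) (W3 := 26843546) (N0 := 3)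
    rfl k0_mm_133

noncomputable def f_mm_202 : ℕ → ℕ → ℕ → ℕ → Bool := onCell 1073741824 536870912 1073741824 536870912 1046898278 26843546
    (rowNX 3 0 false false false .pp 2 0 2 (qsf 1073741824 536870912 1073741824 536870912 0) ndN7q2 ndN7q2 pcN0 Cut.none Ext.none)

def k0_mm_202 : ∃ t, chk3 f_mm_202 t 1 1 1 = true :=
  ⟨(l 3), by decide +kernel⟩

theorem c_mm_202 : CertNX 1073741824 536870912 1073741824 536870912 1046898278 26843546 3 false false false .pp 2 0 2
    ndN7q2 ndN7q2 pcN0 Cut.none Ext.none :=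
  certNX0 (fam := false) (s1 := false) (s2 := false) (a := 2) (b := 0) (c := 2) (cn := .pp) (n1 := ndN7q2) (n2 := ndN7q2) (pc := pcN0) (cut := Cut.none) (xt := Ext.none) (P1 := 1073741824) (W1 := 536870912) (P2 := 1073741824) (W2 := 536870912) (P3 := 1046898278) (W3 := 26843546) (N0 := 3)
    rfl k0_mm_202

noncomputable def f_mm_203 : ℕ → ℕ → ℕ → ℕ → Bool := onCell 0 536870912 0 1230186008 1046898278 26843546
    (rowNX 3 2 false false false .up 2 0 3 (qsf 1073741824 536870912 0 1230186008 0) ndN7q2 ndN7q3 pcN0 Cut.none Ext.none)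

def k0_mm_203 : ∃ t, chk3 f_mm_203 t 1 1 1 = true :=
  ⟨(b (a (l 2) (l 5)) (l 3)), by decide +kernel⟩

theorem c_mm_203 : CertNX 1073741824 536870912 0 1230186008 1046898278 26843546 3 false false false .up 2 0 3
    ndN7q2 ndN7q3 pcN0 Cut.none Ext.none :=
  certNX2 (fam := false) (s1 := false) (s2 := false) (a := 2) (b := 0) (c := 3) (cn := .up) (n1 := ndN7q2) (n2 := ndN7q3) (pc := pcN0) (cut := Cut.none) (xt := Ext.none) (P1 := 1073741824) (W1 := 536870912) (P2 := 0) (W2 := 1230186008) (P3 := 1046898278) (W3 := 26843546) (N0 := 3)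
    rfl (fun _ => rfl) k0_mm_203

noncomputable def f_mm_213 : ℕ → ℕ → ℕ → ℕ → Bool := onCell 536870912 536870912 0 1230186008 1046898278 26843546
    (rowNX 3 2 false false false .pnn 2 1 3 (qsf 1073741824 536870912 0 1230186008 1) ndN7q2 ndN7q3 pcN1 Cut.none Ext.none)

def k0_mm_213 : ∃ t, chk3 f_mm_213 t 1 1 1 = true :=
  ⟨(b (l 5) (l 5)), by decide +kernel⟩

theorem c_mm_213 : CertNX 1073741824 536870912 0 1230186008 1046898278 26843546 3 false false false .pnn 2 1 3
    ndN7q2 ndN7q3 pcN1 Cut.none Ext.none :=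
  certNX2 (fam := false) (s1 := false) (s2 := false) (a := 2) (b := 1) (c := 3) (cn := .pnn) (n1 := ndN7q2) (n2 := ndN7q3) (pc := pcN1) (cut := Cut.none) (xt := Ext.none) (P1 := 1073741824) (W1 := 536870912) (P2 := 0) (W2 := 1230186008) (P3 := 1046898278) (W3 := 26843546) (N0 := 3)
    rfl (fun _ => rfl) k0_mm_213

noncomputable def f_mm_303 : ℕ → ℕ → ℕ → ℕ → Bool := onCell 0 1230186008 0 1230186008 1046898278 26843546
    (rowNX 3 0 false false false .npn 3 0 3 (qsf 0 1230186008 0 1230186008 0) ndN7q3 ndN7q3 pcN0 Cut.none Ext.none)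

def k0_mm_303 : ∃ t, chk3 f_mm_303 t 1 1 1 = true :=
  ⟨(a (b (l 3) (a (l 1) (l 3))) (b (a (l 3) (l 5)) (l 3))), by decide +kernel⟩

theorem c_mm_303 : CertNX 0 1230186008 0 1230186008 1046898278 26843546 3 false false false .npn 3 0 3
    ndN7q3 ndN7q3 pcN0 Cut.none Ext.none :=
  certNX0 (fam := false) (s1 := false) (s2 := false) (a := 3) (b := 0) (c := 3) (cn := .npn) (n1 := ndN7q3) (n2 := ndN7q3) (pc := pcN0) (cut := Cut.none) (xt := Ext.none) (P1 := 0) (W1 := 1230186008) (P2 := 0) (W2 := 1230186008) (P3 := 1046898278) (W3 := 26843546) (N0 := 3)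
    rfl k0_mm_303

noncomputable def f_mm_313 : ℕ → ℕ → ℕ → ℕ → Bool := onCell 0 1230186008 0 1230186008 1046898278 26843546
    (rowNX 3 0 false false false .dn 3 1 3 (qsf 0 1230186008 0 1230186008 1) ndN7q3 ndN7q3 pcN1 Cut.none Ext.none)

def k0_mm_313 : ∃ t, chk3 f_mm_313 t 1 1 1 = true :=
  ⟨(a (l 1) (b (a (l 1) (l 5)) (l 1))), by decide +kernel⟩

theorem c_mm_313 : CertNX 0 1230186008 0 1230186008 1046898278 26843546 3 false false false .dn 3 1 3
    ndN7q3 ndN7q3 pcN1 Cut.none Ext.none :=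
  certNX0 (fam := false) (s1 := false) (s2 := false) (a := 3) (b := 1) (c := 3) (cn := .dn) (n1 := ndN7q3) (n2 := ndN7q3) (pc := pcN1) (cut := Cut.none) (xt := Ext.none) (P1 := 0) (W1 := 1230186008) (P2 := 0) (W2 := 1230186008) (P3 := 1046898278) (W3 := 26843546) (N0 := 3)
    rfl k0_mm_313

end Pool.Agent.Strip051.G.IE1.Tab.C.NB77

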