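import Pool.Agent.Strip051.G.IE1.Tab

/-! # Certificates N62 (generated) -/

set_option linter.all false
set_option maxRecDepth 100000

namespace Pool.Agent.Strip051.G.IE1.Tab.C.NB13

open Pool.Agent.Strip051.PB Pool.Agent.Strip051.PB.T
open Pool.Agent.Strip051.G.IE1.Tab

noncomputable def f_pm_012 : ℕ → ℕ → ℕ → ℕ → Bool := onCell 536870912 536870912 1073741824 536870912 1046898278 26843546
    (rowNX 3 2 false true false .pnp 0 1 2 (qsf 67108864 469762048 1073741824 536870912 1) ndN1q0 ndN3q2 pcN1 Cut.none Ext.none)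

def k0_pm_012 : ∃ t, chk3 f_pm_012 t 2 1 1 = true :=
  ⟨(b (b (b (a (b (c (b (l 15507848) (l 15631264)) (l 15289888)) (l 15709632)) (b (a (c (l 15563208) (l 15478632)) (b (b (l 15427272) (l 15505000)) (l 15593688))) (c (l 15736560) (l 15673728)))) (b (a (l 16155904) (l 16009104)) (a (l 16540528) (l 16540528)))) (b (a (b (l 16254824) (l 2)) (b (l 16296768) (l 16398440))) (a (l 2) (b (l 16650576) (l 16777040))))) (a (l 2) (b (l 16777216) (l 2)))), by decide +kernel⟩

def k1_pm_012 : ∃ t, chk3 f_pm_012 t 6 4 1 = true :=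
  ⟨(a (b (a (b (b (b (c (l 15464896) (l 15296704)) (c (l 15558272) (l 15468312))) (l 15489544)) (l 15689312)) (b (b (c (a (b (l 15672856) (l 15808848)) (l 15850160)) (a (b (l 15471584) (l 15729616)) (b (l 15895584) (l 16104184)))) (a (l 15693408) (c (l 16083944) (a (l 16148120) (l 16350368))))) (a (l 15896232) (b (l 16317416) (l 16430432))))) (a (b (l 16135520) (l 16541040)) (b (a (l 16211632) (l 16299560)) (a (l 16583248) (l 16136832))))) (b (a (b (b (b (a (a (l 16038360) (l 16170992)) (b (l 16239520) (l 16110712))) (a (c (l 16413392) (l 16383720)) (c (l 16128512) (a (l 16336144) (l 16163072))))) (a (c (l 16323528) (l 16375240)) (c (l 16008608) (l 16028272)))) (a (b (a (l 16274008) (l 16063448)) (l 16069624)) (b (l 15784608) (l 15433952)))) (b (a (a (b (c (b (l 16010408) (a (l 16019880) (l 15938616))) (b (a (l 16192352) (a (l 16126640) (l 16073960))) (l 15841112))) (c (l 15660400) (l 15734592))) (b (c (b (l 16081856) (l 15912112)) (b (l 16010600) (l 15918648))) (c (l 15693600) (l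 15703184)))) (b (c (b (l 16019096) (l 15865992)) (b (c (l 16006536) (l 16007856)) (l 15871752))) (c (l 15665504) (l 15675472)))) (b (a (a (c (l 15514888) (l 15498408)) (l 15425384)) (l 15397928)) (a (a (l 15252584) (l 15167248)) (l 15131904))))) (a (b (a (l 15823864) (l 15271496)) (b (l 15069064) (l 15382464))) (b (a (a (b (l 14969888) (l 14719888)) (l 14687640)) (b (l 14776440) (l 14380208))) (a (a (b (l 14567600) (l 14662360)) (l 14416152)) (b (l 14155712) (l 14242952))))))), by decide +kernel⟩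

def k2_pm_012 : ∃ t, chk3 f_pm_012 t 6 5 1 = true :=
  ⟨(a (a (b (b (l 16297200) (l 16398800)) (b (l 16650832) (l 16776896))) (b (b (a (l 16464840) (l 16289840)) (l 16446600)) (b (b (l 16411472) (a (l 16496552) (a (l 16208424) (l 16045464)))) (a (a (l 16695136) (l 16568464)) (b (a (l 16289160) (l 16020248)) (b (l 16289984) (l 16393064))))))) (a (b (b (b (l 15487912) (l 15495688)) (l 15539648)) (b (l 15481776) (b (a (c (a (l 15880632) (l 15659184)) (l 15509280)) (b (l 15237680) (c (l 15127104) (l 15285504)))) (a (c (c (l 15943040) (l 15980904)) (l 15960024)) (c (a (l 15686960) (l 15464784)) (l 15537680)))))) (b (b (a (a (l 14840960) (l 14638472)) (l 14408336)) (a (l 14746736) (l 14399360))) (b (a (l 14734512) (l 14315496)) (b (b (l 14439072) (a (b (l 14780192) (a (a (l 14999360) (l 14873792)) (l 14635920))) (l 14324808))) (a (a (c (a (l 15284728) (l 14910904)) (a (l 15231336) (l 15086024))) (c (b (l 14820592) (l 15067352)) (l 14867584))) (c (b (a (l 14558568) (l 14310384)) (l 14640200))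 (b (a (l 14479856) (l 14222328)) (l 14563192))))))))), by decide +kernel⟩

def k3_pm_012 : ∃ t, chk3 f_pm_012 t 6 3 1 = true :=
  ⟨(b (a (a (l 16776904) (b (b (b (a (l 16654416) (c (b (l 16413496) (l 16477584)) (l 16458304))) (l 16589784)) (l 16593928)) (l 16603456))) (b (b (b (a (a (c (c (b (l 16161072) (l 16275040)) (l 16155640)) (b (l 16166808) (l 16262248))) (c (b (c (l 15716744) (l 15888272)) (c (l 16065976) (l 15909928))) (b (l 15845832) (l 15904984)))) (a (a (c (b (b (l 15508368) (a (l 15751232) (c (l 15600656) (l 15568760)))) (a (l 15746408) (a (l 15696600) (l 15445792)))) (b (l 15526760) (l 15526736))) (c (c (b (l 15278800) (l 15532560)) (l 15390680)) (l 15360064))) (c (b (c (a (l 15051816) (l 14781392)) (l 14893112)) (c (c (l 15001832) (l 15139408)) (l 15119464))) (c (l 14935688) (l 14977312))))) (b (a (a (l 16312080) (c (l 16029328) (l 16064504))) (b (c (a (a (b (l 15958472) (l 15977408)) (l 15731896)) (c (l 15416728) (l 15169416))) (a (a (l 15787264) (l 15727592)) (l 15382576)))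 (a (l 15878400) (c (l 15272088) (l 15408656))))) (a (l 16219208) (l 15681816)))) (a (l 16228616) (l 15699032))) (a (l 16254336) (l 15746480)))) (a (l 2) (a (l 2) (a (l 2) (l 15697120))))), by decide +kernel⟩

def k4_pm_012 : ∃ t, chk3 f_pm_012 t 28 4 1 = true :=
  ⟨(b (a (b (b (c (b (l 15934696) (l 15786032)) (b (c (l 15919744) (l 15919864)) (l 15790104))) (c (l 15613728) (l 15623680))) (b (c (l 15388056) (l 15369544)) (l 15112288))) (a (b (b (c (b (l 15877920) (l 15733144)) (b (c (l 15861384) (l 15860744)) (l 15736232))) (c (l 15569064) (l 15578792))) (b (c (l 15375032) (l 15356888)) (l 15116528))) (b (c (b (c (a (a (b (l 15864136) (l 15715864)) (b (l 15884952) (l 15732440))) (b (l 15946952) (l 15773712))) (a (a (b (l 15849976) (l 15711384)) (b (l 15870648) (l 15727784))) (b (c (l 15936200) (l 15926544)) (l 15768688)))) (a (a (a (l 15555496) (l 15554064)) (l 15570608)) (c (l 15600320) (l 15613336)))) (b (b (a (a (c (l 15840056) (b (l 15867960) (l 15805448))) (b (l 15897008) (l 15823376)))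 (b (l 15842528) (l 15807208))) (a (a (l 15717808) (l 15733856)) (l 15774000))) (a (a (l 15564496) (l 15579904)) (l 15616864)))) (c (b (a (a (l 15366488) (l 15380240)) (c (l 15411648) (l 15418560))) (c (l 15186080) (l 15169256))) (b (a (l 15354688) (l 15393104)) (l 15128320)))))) (a (b (b (l 14740792) (l 14284360)) (b (b (l 13970864) (l 13920952)) (l 13978616))) (b (a (l 14498352) (c (c (l 14587176) (l 14549352)) (l 14491304))) (a (b (l 13880664) (l 13829504)) (c (b (c (l 13973968) (l 13924584)) (l 13859936)) (l 13803552)))))), by decide +kernel⟩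

def k5_pm_012 : ∃ t, chk3 f_pm_012 t 58 8 2 = true :=
  ⟨(b (c (b (b (a (l 16011976) (l 16167616)) (a (b (l 15911896) (l 15821800)) (b (l 16106656) (l 15980512)))) (a (l 15526728) (b (c (l 15682008) (l 15764640)) (l 15709504)))) (b (a (b (c (a (l 16030968) (l 16140024)) (l 16072496)) (c (a (l 15824720) (l 15750672)) (l 15859600))) (b (c (c (l 16230512) (l 16186904)) (l 16224344)) (c (c (l 16047032) (l 16025152)) (l 16027688)))) (c (a (c (l 15683168) (l 15675864)) (b (c (l 15848816) (l 15768688)) (l 15719592))) (a (l 15683488) (l 15718584))))) (c (b (a (l 15476464) (c (l 15552936) (l 15566376))) (a (l 15278680) (c (l 15363920) (l 15354608)))) (c (b (c (l 15530096) (l 15516432)) (l 15301432)) (l 15244472)))), by decide +kernel⟩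

def k6_pm_012 : ∃ t, chk3 f_pm_012 t 59 8 2 = true :=
  ⟨(b (b (a (c (b (l 16281688) (b (l 16252888) (l 16097904))) (c (b (c (l 16327976) (l 16275552)) (c (l 16107864) (l 16034704))) (b (l 16313272) (l 16205296)))) (c (a (b (l 16475984) (b (l 16406416) (l 16331928))) (b (a (l 16423888) (a (l 16408456) (l 16321328))) (c (l 16272320) (b (a (l 16542064) (l 16468456)) (l 16323176))))) (b (c (c (a (l 16488760) (a (l 16435016) (l 16406080))) (a (l 16477112) (a (l 16434456) (l 16365160)))) (b (l 16429768) (l 16551272))) (c (c (a (l 16305520) (a (l 16382872) (l 16413376))) (a (l 16225064) (b (b (l 16469592) (l 16441952)) (l 16399136)))) (b (l 16424360) (l 16354392)))))) (a (c (b (c (l 15922336) (a (l 15962416) (l 16059688))) (c (l 15795536) (l 15699856))) (c (b (c (l 15988168) (l 15836848)) (c (l 15821648) (l 15799528))) (b (l 15991432) (l 15806904)))) (c (a (b (l 16076608) (l 15865640)) (a (b (l 16208456) (l 15969960)) (b (l 16021824) (l 15904624)))) (c (c (a (l 15909000) (b (l 16205352)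 (l 16013184))) (b (l 16017256) (l 15828904))) (l 15991976))))) (c (a (b (c (l 15627760) (l 15649864)) (c (l 15430040) (l 15430576))) (a (b (c (l 15667040) (l 15706504)) (l 15399856)) (b (a (l 15625312) (b (l 15584528) (l 15652520))) (c (l 15455464) (c (l 15492088) (l 15506064)))))) (c (a (b (l 15460120) (l 15388760)) (c (a (b (l 15685480) (l 15435368)) (b (b (l 15804032) (l 15662776)) (l 15469592))) (b (b (a (l 15716704) (l 15761456)) (l 15604592)) (l 15407264)))) (b (l 15414880) (l 15379920))))), by decide +kernel⟩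

def k7_pm_012 : ∃ t, chk3 f_pm_012 t 29 8 3 = true :=
  ⟨(b (a (b (b (c (b (l 16138944) (l 15942104)) (b (l 16012280) (l 15993464))) (a (c (l 15870008) (l 15881728)) (c (l 16040712) (l 16055912)))) (a (l 15687080) (b (c (l 15857600) (l 15858208)) (l 15715712)))) (b (b (c (a (l 16252992) (b (l 16385568) (l 16516160))) (a (b (l 16413160) (l 16383504)) (b (b (l 16410384) (l 16452888)) (l 16514904)))) (a (c (l 16179408) (l 16198656)) (b (a (l 16379784) (l 16418208)) (c (l 16358528) (l 16360376))))) (a (b (l 15802928) (l 15808040)) (b (l 16154104) (l 15943616))))) (a (l 15200992) (b (a (l 15590744) (l 15652368)) (l 15351888)))), by decide +kernel⟩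

def k8_pm_012 : ∃ t, chk3 f_pm_012 t 29 9 1 = true :=
  ⟨(c (a (b (c (a (l 14664208) (b (c (l 15032512) (l 15005856)) (l 14544240))) (c (b (l 14938040) (l 14453456)) (l 14665488))) (c (b (a (l 14059528) (b (l 14196192) (l 14098600))) (l 14008760)) (c (b (l 14055264) (l 13955848)) (l 13971744)))) (b (c (c (a (b (l 15103464) (l 14633936)) (l 14733952)) (a (b (l 15087304) (l 14610592)) (a (l 14660720) (b (l 15077120) (l 14675064))))) (c (a (b (l 15033440) (l 14550232)) (c (a (l 14832752) (b (l 15101536) (l 14631288))) (b (l 15040616) (l 14564552)))) (l 14559848))) (c (a (b (c (l 14230552) (l 14202840)) (l 14112088)) (a (b (l 14245680) (l 14143640)) (a (l 13992472) (a (l 14200680) (l 14008384))))) (c (a (b (l 14138248) (l 14037848)) (c (a (l 14131104) (l 14101752)) (b (l 14148472) (l 14045328)))) (l 14067376))))) (b (a (l 14621232) (b (l 14980480) (l 14485592))) (a (l 13911392) (b (l 14060864) (l 13956176))))), by decide +kernel⟩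

def k9_pm_012 : ∃ t, chk3 f_pm_012 t 120 16 2 = true :=
  ⟨(c (c (b (b (a (c (b (a (c (b (a (l 16428056) (l 16414248)) (l 16493216)) (l 16452392)) (b (c (l 16463128) (l 16419448)) (c (l 16457392) (l 16483040)))) (l 16442752)) (l 16362952)) (b (a (c (b (l 1) (l 16453896)) (l 497175169079)) (l 1)) (c (a (b (l 16492872) (l 16615808)) (b (l 16536944) (l 16581000))) (b (l 16476656) (l 16533856))))) (b (a (a (l 16502176) (l 16513016)) (b (l 16585312) (l 16593872))) (l 16390072))) (b (l 16057104) (l 15888280))) (b (b (b (a (l 16415008) (l 16442112)) (l 199211936439)) (b (l 16516240) (l 16519800))) (l 16007560))) (a (b (b (c (a (c (a (l 16333408) (l 16279600)) (c (l 16387184) (l 508986295047))) (c (b (l 510059949111) (l 16497480)) (b (l 16391520) (l 16494488)))) (b (l 16397176) (l 16526056))) (a (c (c (b (l 16524936) (l 16487880)) (b (l 16499960) (l 16461368))) (l 16478728)) (c (c (l 16442264) (l 16423464)) (l 16468328)))) (c (b (c (l 16092848) (l 16159752)) (c (l 16003536) (l 16047688)))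 (l 16115392))) (b (b (c (b (c (l 16414512) (l 16405472)) (c (l 500933368887) (a (l 16487208) (l 497175255207)))) (b (l 510596937831) (c (b (l 498249072087) (b (l 16507800) (l 16517536))) (l 16507488)))) (c (b (c (l 16567112) (l 16514928)) (l 16407488)) (c (a (l 16431112) (l 16455576)) (l 16483344)))) (c (c (l 16058128) (b (l 16274080) (l 16119640))) (b (l 16093648) (l 15935008)))))), by decide +kernel⟩

def k10_pm_012 : ∃ t, chk3 f_pm_012 t 121 16 2 = true :=
  ⟨(a (b (b (b (l 1) (a (c (c (c (l 488048701143) (l 1205308320903)) (l 16516704)) (c (l 16459752) (c (l 16508144) (l 16573528)))) (l 1))) (c (c (b (a (b (l 16605104) (l 16611256)) (b (l 16583720) (l 16562800))) (l 16506784)) (b (l 16558136) (l 16550576))) (c (b (c (l 16587032) (l 499859824279)) (l 16533416)) (c (a (l 16466088) (l 473553054583)) (b (l 16554584) (l 16522744)))))) (c (c (l 15939168) (b (l 16322312) (l 16095024))) (c (b (l 16230480) (l 16115040)) (c (c (l 16095312) (l 16047928)) (b (l 16324360) (l 16120488))))))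 (b (b (l 1) (c (c (b (b (l 1) (c (l 1064648128359) (l 16583200))) (a (l 16393576) (b (l 16434528) (l 16475192)))) (b (l 16599872) (b (l 16589320) (l 16531032)))) (c (l 16488704) (c (b (l 16603000) (a (l 16568896) (l 16621648))) (a (b (l 16654072) (l 16520160)) (l 493954202775)))))) (c (b (a (l 16191168) (l 16224352)) (l 15984528)) (c (b (l 16362792) (l 16176416)) (b (c (b (l 16452760) (l 16372008)) (a (l 16323864) (l 16360768))) (c (l 16106776) (l 16055416))))))), by decide +kernel⟩

def k11_pm_012 : ∃ t, chk3 f_pm_012 t 60 17 2 = true :=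
  ⟨(c (b (a (a (b (l 15809688) (l 15636136)) (b (l 15820824) (l 15550408))) (c (l 15603096) (a (l 15747936) (l 15759840)))) (a (c (a (l 15428800) (l 15385224)) (l 15455832)) (c (b (l 15409768) (l 15273992)) (b (a (l 15454592) (l 15430656)) (l 15299768))))) (a (c (b (a (c (b (l 15755752) (l 15600560)) (b (l 15817472) (l 15632832))) (c (l 15563560) (b (l 15887408) (l 15670304)))) (a (c (l 15486000) (l 15425424)) (c (l 15468248) (l 15443000)))) (b (a (l 15640392) (c (b (l 15844056) (l 15616072)) (l 15717256))) (a (l 15389440) (l 15123272)))) (c (b (a (b (l 15923344) (l 15607000)) (l 15819800)) (a (c (l 15424536) (l 15439296)) (l 15398288))) (b (c (a (a (l 15705408) (l 15807480)) (c (l 15814896) (l 15596568))) (a (c (l 15559696) (l 15741712)) (c (l 15817008) (l 15556184)))) (c (a (a (l 15389048) (l 15404760)) (b (l 15346616) (l 15332432))) (a (l 15346456) (a (l 15243264) (l 15365456)))))))), by decide +kernel⟩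

def k12_pm_012 : ∃ t, chk3 f_pm_012 t 122 8 2 = true :=
  ⟨(a (b (b (a (b (l 1) (b (l 1) (c (c (c (l 16397152) (l 16514968)) (l 16545872)) (c (l 16592584) (l 494491142263))))) (l 1)) (c (b (b (c (a (l 16364368) (b (l 16384392) (l 16384104))) (l 16438456)) (l 16300936)) (l 16113704)) (c (b (b (l 16424464) (l 16374224)) (l 16190248)) (b (c (l 16415432) (b (b (a (l 16548216) (l 16578048)) (l 16437320)) (l 16349408))) (c (l 16243936) (c (l 16238784) (l 16245312))))))) (c (b (l 15762152) (b (l 15419760) (l 15241032))) (c (b (l 15723384) (b (l 15463992) (l 15270704))) (b (c (l 15876264) (c (b (l 16014320) (l 15758696)) (l 15759232))) (c (l 15410520) (b (l 15239136) (a (l 15292736) (l 15304480)))))))) (b (b (l 1) (c (b (c (b (c (a (l 16348824) (l 1)) (l 16282912)) (a (l 16254696) (b (l 16316312) (l 16275944)))) (l 16272200)) (l 16145056)) (b (c (b (l 16463880) (l 16337368)) (b (l 16505760) (l 16362288))) (c (l 16107808) (l 16090896))))) (c (b (l 15790448) (b (l 15452488) (l 15253040))) (b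 (b (c (l 15964744) (l 15983616)) (c (l 15721376) (l 15770088))) (b (c (l 15480280) (l 15522248)) (c (l 15266000) (l 190283781159))))))), by decide +kernel⟩

def k13_pm_012 : ∃ t, chk3 f_pm_012 t 123 8 2 = true :=
  ⟨(b (b (l 1) (b (a (a (c (c (b (l 1) (c (l 16262200) (l 16293888))) (l 16255672)) (l 492343095847)) (l 1)) (l 1)) (c (c (a (b (a (l 16157368) (b (l 16133528) (l 16185280))) (l 16097416)) (b (c (b (l 1) (l 16153440)) (l 489121556071)) (c (a (l 16112016) (l 460130386039)) (l 16130424)))) (a (l 16182752) (l 16127040))) (a (c (l 16200832) (l 476773509159)) (c (l 16226104) (b (l 16312240) (l 16168160))))))) (b (a (c (b (l 15938704) (l 15715552)) (c (b (l 15987880) (l 15752520)) (b (l 16037032) (l 15787520)))) (b (c (a (l 15969696) (l 15997064)) (c (l 16032808) (a (l 16008240) (l 16026720)))) (l 4))) (l 4))), by decide +kernel⟩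

def k14_pm_012 : ∃ t, chk3 f_pm_012 t 30 9 2 = true :=
  ⟨(a (a (c (b (b (c (l 15051328) (l 15088152)) (l 14436320)) (b (b (l 14255056) (l 14150112)) (l 14097072))) (b (c (a (c (b (l 15113784) (l 14645368)) (b (l 15048904) (l 14576640))) (c (l 14855824) (b (l 15063904) (l 14591072)))) (a (l 14769272) (b (l 14885120) (l 14511712)))) (b (c (a (c (l 14234856) (l 14163488)) (c (l 14219552) (l 14186448))) (a (l 14115752) (c (l 14114776) (l 14087840)))) (c (a (l 13929240) (l 14088704)) (l 14005072))))) (a (c (b (b (l 14997216) (l 14525872)) (b (b (l 14187880) (l 14086336)) (l 14031328))) (b (b (c (l 15046472) (c (l 14992160) (l 14953704))) (c (l 14570352) (c (l 14532896) (l 14469320)))) (c (b (b (l 14228368) (l 14125664)) (l 14069976)) (c (a (l 14069344) (l 13857936)) (b (l 14070048) (l 13962032)))))) (b (c (b (l 14874824) (l 14493576)) (c (l 14765736) (c (b (a (l 15020784) (l 15017392)) (l 14395424)) (b (c (l 14973936) (l 14936320)) (l 14396984))))) (l 4)))) (a (a (a (b (c (l 14522536)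 (c (l 14734712) (c (l 14771480) (b (l 14981688) (l 4))))) (l 4)) (l 4)) (l 4)) (l 4))), by decide +kernel⟩

def k15_pm_012 : ∃ t, chk3 f_pm_012 t 60 8 3 = true :=
  ⟨(b (a (b (b (b (c (a (l 16435856) (l 16466552)) (a (b (l 16373752) (l 16425256)) (l 16411472))) (c (b (l 16480296) (l 16514232)) (a (l 16510960) (b (l 16507336) (l 16510616))))) (a (b (l 16533640) (l 16434808)) (a (l 16433296) (l 16454656)))) (b (l 16242856) (l 16063056))) (a (b (b (b (l 1) (c (l 16548568) (l 16522184))) (c (l 16490048) (l 16490264))) (l 16022360)) (b (b (l 1) (c (b (l 16652824) (l 16566088)) (l 453688961479))) (b (c (l 16305704) (l 16401400)) (l 15951280))))) (a (b (l 15551136) (l 15349832)) (b (c (l 15666752) (l 15734536)) (c (l 15325944) (l 15302624))))), by decide +kernel⟩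

def k16_pm_012 : ∃ t, chk3 f_pm_012 t 122 8 3 = true :=
  ⟨(b (b (a (a (b (l 1) (c (l 503617932823) (l 16640896))) (l 1)) (l 1)) (c (c (c (a (b (b (a (l 16466040) (l 16441112)) (l 16320312)) (c (l 16155848) (l 16205816))) (b (b (c (l 16528608) (l 16529568)) (c (l 16343152) (l 16363632))) (a (c (l 16281960) (l 16248688)) (l 16155864)))) (b (a (l 16414408) (b (l 16516600) (l 493416967175))) (a (l 16206032) (a (l 16235856) (l 16155720))))) (b (b (l 16486544) (l 16421592)) (l 16193280))) (b (a (l 16386456) (l 16421568)) (l 16145584)))) (c (c (a (b (c (b (l 15743560) (l 15543568)) (l 15804360)) (c (b (c (l 15442888) (l 15421040)) (a (l 15227640) (l 15238640))) (l 15321480))) (b (b (c (c (l 16017360) (l 16005928)) (l 15935840)) (c (c (l 15776216) (l 15741272)) (l 15710624))) (a (c (c (l 15402656) (b (l 15461696) (l 15245512))) (l 15333720)) (b (c (l 15488304) (l 15470136)) (l 4))))) (b (l 15817104) (l 15083328))) (b (l 15806032) (b (l 15412744) (l 15205104))))), by decide +kernel⟩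

def k17_pm_012 : ∃ t, chk3 f_pm_012 t 123 8 3 = true :=
  ⟨(b (b (l 1) (b (a (c (c (c (l 502007014951) (c (l 504154483959) (l 505765078935))) (l 16471832)) (l 16475208)) (l 1)) (c (c (a (c (a (c (l 16330568) (l 16204392)) (l 16252576)) (c (a (l 16255992) (l 16188608)) (a (l 16233136) (l 443487532679)))) (c (l 16319928) (a (c (l 454225149159) (l 16268336)) (c (l 16342832) (l 438655890295))))) (a (l 16274520) (c (c (a (l 429528926599) (l 16275536)) (a (l 16289512) (l 16249264))) (l 16285704)))) (l 433286968151)))) (b (a (c (c (c (a (c (l 15945472) (b (l 16069496) (l 15809032))) (l 15771688)) (c (a (l 15794800) (b (l 16077984) (l 15823448))) (a (l 15703712) (b (l 16036992) (l 15780240))))) (l 15836768)) (l 15868424)) (b (c (c (c (l 16106160) (a (c (l 16111536) (l 16086904)) (b (l 16085040) (l 4)))) (c (a (c (l 15944736) (l 16040288)) (c (l 16098656) (l 16049336))) (l 16058464))) (l 16051864)) (l 4))) (l 4))), by decide +kernel⟩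

def k18_pm_012 : ∃ t, chk3 f_pm_012 t 30 9 3 = true :=
  ⟨(b (a (a (l 14712336) (c (b (l 14919480) (l 14434496)) (l 14644288))) (a (a (a (b (b (c (l 15019688) (l 14989376)) (l 4)) (l 4)) (l 4)) (l 4)) (l 4))) (a (a (l 13993624) (a (l 13958592) (l 4))) (l 4))), by decide +kernel⟩

def k19_pm_012 : ∃ t, chk3 f_pm_012 t 31 4 1 = true :=
  ⟨(b (b (b (l 1) (b (l 1) (a (a (a (a (c (c (c (b (l 1) (c (l 16106928) (l 16134536))) (l 490195244599)) (l 16236264)) (c (c (l 16267352) (c (c (l 16187352) (l 575557890199)) (l 16281288))) (l 16276936))) (l 1)) (l 1)) (l 1)) (l 1)))) (b (b (a (a (a (a (a (c (c (l 15870280) (l 16069896)) (c (c (l 16129608) (c (c (l 16141592) (l 16015152)) (l 16087256))) (l 16080976))) (l 4)) (l 4)) (l 4)) (l 4)) (l 1)) (l 4)) (l 4))) (l 4)), by decide +kernel⟩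

def k20_pm_012 : ∃ t, chk3 f_pm_012 t 7 10 1 = true :=
  ⟨(a (b (a (a (l 14127504) (a (l 13947056) (a (b (l 13843800) (l 13917032)) (c (b (l 13895896) (l 13974640)) (l 13833680))))) (a (c (c (b (c (l 13986552) (l 13962696)) (a (l 14010632) (l 14016904))) (b (l 13914424) (a (l 13958296) (l 13952552)))) (b (l 13831784) (l 13873928))) (a (c (c (b (l 14048392) (l 14021808)) (b (l 13962448) (l 13753152))) (l 13871992)) (c (c (a (b (l 14081456) (l 14022088)) (b (l 14086808) (l 14020536))) (c (c (a (l 13995760) (l 14020624)) (b (l 13985560) (l 13929160))) (l 13935632))) (l 13875240))))) (a (a (l 14073592) (a (l 13856744) (c (l 13833968) (l 13730824)))) (a (c (c (l 13900768) (c (l 13858256) (l 13821632))) (l 13758480)) (c (c (a (l 13910712) (a (l 13888016) (l 13862208))) (c (a (l 13859432) (c (l 13844928) (l 13787216))) (l 13798920))) (a (l 13749472) (l 13697176)))))) (a (a (c (c (b (a (b (l 14035464) (l 13967560)) (b (l 13961064) (l 13735296))) (a (l 13759864) (l 13538816))) (c (a (b (c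 (b (l 14051912) (l 13919104)) (a (l 13963376) (l 13979712))) (a (l 13771904) (l 13717816))) (b (a (b (l 14003008) (l 13929232)) (l 13934008)) (l 13518200))) (b (a (b (l 13943296) (l 13791888)) (c (a (b (l 13961792) (l 13888336)) (b (l 13984624) (l 13897656))) (a (l 13861136) (b (l 13920720) (l 13834072))))) (a (l 13667104) (c (a (l 13616656) (l 13584704)) (b (l 13611544) (l 13471320))))))) (b (a (l 13841632) (b (l 13837312) (l 13756168))) (a (l 13592776) (l 13465264)))) (a (b (l 4) (c (c (l 13357624) (a (c (l 13511296) (b (l 13621408) (l 13410096))) (b (l 4) (l 13177008)))) (c (b (a (l 13520392) (l 4)) (c (a (l 13327240) (c (l 13333936) (l 13271800))) (l 13275568))) (l 13358040)))) (l 4))) (l 4))), by decide +kernel⟩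

def k21_pm_012 : ∃ t, chk3 f_pm_012 t 14 11 1 = true :=
  ⟨(a (a (b (l 13925448) (b (l 13866912) (a (b (c (l 14067552) (l 13969888)) (c (l 14169000) (l 14076944))) (b (l 13767928) (c (l 13888544) (l 13786096)))))) (b (a (l 13654408) (c (l 13615752) (l 13504048))) (b (a (l 13549032) (l 13437360)) (b (a (l 13541160) (l 13421216)) (b (l 13474520) (a (c (l 13625480) (l 13513960)) (a (a (l 13402056) (l 13386984)) (l 13426280)))))))) (c (a (b (c (l 13718152) (l 13660696)) (c (l 13633296) (l 13575560))) (b (a (c (l 13757696) (l 13694536)) (c (a (l 13757352) (l 13750416)) (c (a (l 13709280) (l 13705168)) (l 13648872)))) (c (a (l 13734768) (l 13781208)) (c (l 13721272) (l 13674632))))) (b (a (l 13571624) (l 13588384)) (l 13365736)))), by decide +kernel⟩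

def k22_pm_012 : ∃ t, chk3 f_pm_012 t 15 11 1 = true :=
  ⟨(a (b (c (a (c (a (a (l 13699184) (l 13606040)) (b (l 13471368) (l 13441248))) (a (c (a (l 13668616) (l 13603544)) (a (l 13597216) (l 13527328))) (c (l 13478080) (a (l 13366128) (l 13391920))))) (c (a (l 13284360) (l 13177624)) (a (a (c (l 13313232) (l 13316056)) (l 13216768)) (l 13018480)))) (a (a (l 13490088) (l 13327568)) (c (c (a (a (l 13240312) (c (l 13202576) (l 13145368))) (c (l 13171288) (a (b (l 13114904) (l 13066528)) (l 13133816)))) (a (l 13182184) (a (l 13046200) (b (l 4) (l 12945696))))) (l 13090136)))) (a (c (a (c (l 13696848) (l 13442544)) (b (c (l 13444392) (c (l 13454728) (l 13416208))) (c (l 13536488) (l 13524296)))) (b (l 13396016) (l 13505000))) (a (c (b (c (l 13258688) (c (l 13264016) (l 13262960))) (c (l 13321584) (l 13320600))) (a (l 13228120) (b (c (l 13154912) (l 13072696)) (l 13193864)))) (c (b (l 13069792) (c (l 13134944) (l 13136328))) (c (c (b (a (l 13091928) (l 13003696)) (a (l 13169960) (l 13088064)))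 (b (l 12985976) (l 13075064))) (l 13032176)))))) (a (a (c (b (c (l 13088512) (l 13059400)) (a (b (l 12938712) (l 12997656)) (l 12921216))) (c (c (b (l 13053776) (a (l 13037904) (l 12889312))) (a (b (c (c (l 13079912) (l 13057472)) (l 13022344)) (b (c (l 12897776) (l 12848328)) (l 12957768))) (b (l 4) (c (l 12895512) (l 12787136))))) (b (l 12963424) (l 12914016)))) (b (l 4) (c (l 598300716391) (c (c (l 12798192) (l 455492931671)) (c (c (a (l 12798792) (l 12753200)) (l 12745008)) (l 12716800)))))) (l 4))), by decide +kernel⟩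

def k23_pm_012 : ∃ t, chk3 f_pm_012 t 14 6 1 = true :=
  ⟨(a (b (b (b (a (c (b (l 14312928) (c (c (a (l 14763632) (l 14360384)) (l 14454936)) (l 14534400))) (a (l 14546432) (l 14233064))) (a (b (c (l 13829280) (l 13724008)) (c (c (b (l 14106168) (l 14163568)) (l 14150240)) (l 14081360))) (b (c (a (b (l 13506232) (l 13679336)) (l 13575096)) (a (l 13473528) (l 13461000))) (c (a (c (a (l 13962680) (l 13955960)) (l 13927288)) (l 13902816)) (l 13826896))))) (b (c (a (b (c (l 14641448) (l 14816128)) (l 14775864)) (a (b (c (l 14425584) (l 14455304)) (c (l 14653688) (l 14563240))) (a (c (a (l 14195864) (l 14270352)) (l 14270520)) (c (l 14243416) (l 14242232))))) (a (b (l 14843760) (l 14946920)) (a (c (l 14539712) (l 14487464)) (b (l 14107840) (l 14324520))))) (b (a (l 15035792) (c (a (l 14652976) (b (l 14510608) (l 14544832))) (a (l 14620816) (l 14422080)))) (l 14825024)))) (l 14849096)) (l 14922728)) (b (b (a (a (b (c (b (c (l 13641072) (l 13584928)) (l 13856464)) (b (a (l 13478240) (l 13508688))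 (l 13752216))) (c (b (c (l 14168672) (l 14172808)) (l 14378752)) (b (l 14106712) (l 14299144)))) (b (c (b (c (l 13714248) (l 13658112)) (c (l 13839072) (l 13786480))) (b (l 13407640) (l 13703608))) (c (c (b (l 14125992) (l 14301784)) (b (l 14089248) (l 14245192))) (b (l 14003192) (l 14196064))))) (c (b (b (l 13803808) (a (c (l 13856872) (l 13803056)) (c (l 13945760) (l 13870080)))) (a (b (b (l 13960704) (l 14080432)) (b (l 14113144) (l 14196080))) (a (c (l 14111128) (l 14070288)) (a (l 13961128) (l 14049520))))) (b (b (l 13688432) (a (l 13721336) (l 13786680))) (a (b (l 13908048) (l 14093944)) (a (l 13924416) (l 13968848)))))) (b (l 14250368) (l 14272552))) (l 14338184))), by decide +kernel⟩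

def k24_pm_012 : ∃ t, chk3 f_pm_012 t 15 6 1 = true :=
  ⟨(b (a (c (a (c (a (b (c (a (l 14003976) (l 13903880)) (l 13945112)) (l 14007368)) (b (l 13718616) (l 13811920))) (b (b (a (l 13817104) (l 13619952)) (l 13823216)) (l 13873888))) (b (b (a (l 13418320) (l 13218872)) (c (l 13419352) (a (l 13555824) (l 13351176)))) (c (l 13471872) (l 13483216)))) (a (b (b (l 13642688) (l 13767296)) (l 13799888)) (b (a (b (l 13346912) (l 13484448)) (b (c (l 13196688) (l 13123856)) (l 13274656))) (l 13450824)))) (c (a (a (b (b (a (l 13056568) (l 12954208)) (l 13087736)) (l 13155072)) (b (c (l 12659144) (a (l 12932720) (l 12819288))) (c (l 12917192) (l 12943648)))) (a (c (l 12759096) (a (l 12779040) (l 12694080))) (l 12682440))) (c (b (a (c (a (b (l 12999136) (l 13124664)) (l 12902352)) (a (b (a (l 13037064) (b (l 12934408) (l 12974008))) (l 13023928)) (a (b (l 12878248) (l 12982544)) (l 12808152)))) (a (l 12679688) (l 12591576))) (a (a (l 13202616) (a (l 13040344) (l 12931072))) (a (l 12677392) (l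 12599952)))) (c (a (a (b (l 13029408) (l 13167392)) (b (c (a (b (l 12860200) (l 12964376)) (l 12802248)) (l 12875056)) (l 12723536))) (a (c (l 12774368) (a (b (l 12719760) (l 12831464)) (l 12724408))) (a (l 12608976) (l 12528416)))) (a (b (l 12902736) (l 13032664)) (a (b (a (l 12685864) (l 12625848)) (l 12759848)) (c (a (b (l 12568992) (l 12473712)) (l 12516400)) (a (l 12606264) (c (l 12512816) (l 247186462055)))))))))) (a (c (l 13766704) (l 13718896)) (a (l 13116672) (c (l 12814640) (l 12771648))))), by decide +kernel⟩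

def k25_pm_012 : ∃ t, chk3 f_pm_012 t 7 7 1 = true :=
  ⟨(a (a (l 15117504) (l 14543344)) (b (a (l 13860784) (a (l 13257264) (l 12732832))) (a (l 14021480) (a (l 13435192) (l 13120720))))), by decide +kernel⟩

theorem s26_pm_012 : ∃ t, chk3 f_pm_012 t 7 6 1 = true := ex3_a k23_pm_012 k24_pm_012

theorem s27_pm_012 : ∃ t, chk3 f_pm_012 t 7 3 1 = true := ex3_b s26_pm_012 k25_pm_012

theorem s28_pm_012 : ∃ t, chk3 f_pm_012 t 7 11 1 = true := ex3_a k21_pm_012 k22_pm_012

theorem s29_pm_012 : ∃ t, chk3 f_pm_012 t 7 5 1 = true := ex3_b k20_pm_012 s28_pm_012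

theorem s30_pm_012 : ∃ t, chk3 f_pm_012 t 61 8 3 = true := ex3_a k16_pm_012 k17_pm_012

theorem s31_pm_012 : ∃ t, chk3 f_pm_012 t 30 8 3 = true := ex3_a k15_pm_012 s30_pm_012

theorem s32_pm_012 : ∃ t, chk3 f_pm_012 t 30 4 3 = true := ex3_b s31_pm_012 k18_pm_012

theorem s33_pm_012 : ∃ t, chk3 f_pm_012 t 61 8 2 = true := ex3_a k12_pm_012 k13_pm_012

theorem s34_pm_012 : ∃ t, chk3 f_pm_012 t 60 16 2 = true := ex3_a k9_pm_012 k10_pm_012

theorem s35_pm_012 : ∃ t, chk3 f_pm_012 t 60 8 2 = true := ex3_b s34_pm_012 k11_pm_012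

theorem s36_pm_012 : ∃ t, chk3 f_pm_012 t 30 8 2 = true := ex3_a s35_pm_012 s33_pm_012

theorem s37_pm_012 : ∃ t, chk3 f_pm_012 t 30 4 2 = true := ex3_b s36_pm_012 k14_pm_012

theorem s38_pm_012 : ∃ t, chk3 f_pm_012 t 30 4 1 = true := ex3_c s37_pm_012 s32_pm_012

theorem s39_pm_012 : ∃ t, chk3 f_pm_012 t 15 4 1 = true := ex3_a s38_pm_012 k19_pm_012

theorem s40_pm_012 : ∃ t, chk3 f_pm_012 t 29 8 2 = true := ex3_a k5_pm_012 k6_pm_012

theorem s41_pm_012 : ∃ t, chk3 f_pm_012 t 29 8 1 = true := ex3_c s40_pm_012 k7_pm_012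

theorem s42_pm_012 : ∃ t, chk3 f_pm_012 t 29 4 1 = true := ex3_b s41_pm_012 k8_pm_012

theorem s43_pm_012 : ∃ t, chk3 f_pm_012 t 14 4 1 = true := ex3_a k4_pm_012 s42_pm_012

theorem s44_pm_012 : ∃ t, chk3 f_pm_012 t 7 4 1 = true := ex3_a s43_pm_012 s39_pm_012

theorem s45_pm_012 : ∃ t, chk3 f_pm_012 t 7 2 1 = true := ex3_b s44_pm_012 s29_pm_012

theorem s46_pm_012 : ∃ t, chk3 f_pm_012 t 7 1 1 = true := ex3_b s45_pm_012 s27_pm_012

theorem s47_pm_012 : ∃ t, chk3 f_pm_012 t 6 2 1 = true := ex3_b k1_pm_012 k2_pm_012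

theorem s48_pm_012 : ∃ t, chk3 f_pm_012 t 6 1 1 = true := ex3_b s47_pm_012 k3_pm_012

theorem s49_pm_012 : ∃ t, chk3 f_pm_012 t 3 1 1 = true := ex3_a s48_pm_012 s46_pm_012

theorem s50_pm_012 : ∃ t, chk3 f_pm_012 t 1 1 1 = true := ex3_a k0_pm_012 s49_pm_012

theorem c_pm_012 : CertNX 67108864 469762048 1073741824 536870912 1046898278 26843546 3 false true false .pnp 0 1 2
    ndN1q0 ndN3q2 pcN1 Cut.none Ext.none :=
  certNX2 (fam := false) (s1 := true) (s2 := false) (a := 0) (b := 1) (c := 2) (cn := .pnp) (n1 := ndN1q0) (n2 := ndN3q2) (pc := pcN1) (cut := Cut.none) (xt := Ext.none) (P1 := 67108864) (W1 := 469762048) (P2 := 1073741824) (W2 := 536870912) (P3 := 1046898278) (W3 := 26843546) (N0 := 3)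
    rfl (fun _ => rfl) s50_pm_012

noncomputable def f_pm_022 : ℕ → ℕ → ℕ → ℕ → Bool := onCell 67108864 469762048 1073741824 536870912 1046898278 26843546
    (rowNX 3 1 false true false .pp 0 2 2 (qsf 67108864 469762048 1073741824 536870912 2) ndN1q0 ndN3q2 pcN2 Cut.none Ext.none)

def k0_pm_022 : ∃ t, chk3 f_pm_022 t 1 1 1 = true :=
  ⟨(b (b (a (a (l 4) (b (b (l 4) (l 4)) (l 4))) (b (c (b (a (l 12886696) (l 13107528)) (a (c (l 13246232) (b (l 13100600) (a (l 13254744) (l 13308736)))) (c (l 13451400) (b (l 13314816) (l 13489392))))) (b (a (c (b (l 12710128) (a (l 12598128) (l 12906696))) (b (a (c (l 12615528) (l 12573168)) (l 12680368)) (l 12808496))) (c (b (l 12939216) (l 13096192)) (b (a (l 12798632) (l 12943768)) (l 13036288)))) (a (a (a (l 4) (l 13048184)) (l 13107640)) (l 13298160)))) (b (a (c (b (c (l 158067914535) (l 13398648)) (c (l 151088852839) (l 13534048))) (l 13376904)) (c (b (l 13407064) (l 13789896)) (l 13573680))) (a (l 13691112) (l 13918032))))) (a (l 4) (a (b (b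 (b (l 14271800) (l 14602760)) (l 15041744)) (b (l 15456624) (l 15829616))) (l 2)))) (a (l 4) (l 2))), by decide +kernel⟩

theorem c_pm_022 : CertNX 67108864 469762048 1073741824 536870912 1046898278 26843546 3 false true false .pp 0 2 2
    ndN1q0 ndN3q2 pcN2 Cut.none Ext.none :=
  certNX1 (fam := false) (s1 := true) (s2 := false) (a := 0) (b := 2) (c := 2) (cn := .pp) (n1 := ndN1q0) (n2 := ndN3q2) (pc := pcN2) (cut := Cut.none) (xt := Ext.none) (P1 := 67108864) (W1 := 469762048) (P2 := 1073741824) (W2 := 536870912) (P3 := 1046898278) (W3 := 26843546) (N0 := 3)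
    rfl (fun _ => rfl) k0_pm_022

noncomputable def f_pm_023 : ℕ → ℕ → ℕ → ℕ → Bool := onCell 67108864 469762048 1073741824 536870912 1046898278 26843546
    (rowNX 3 1 false true false .up 0 2 3 (qsf 67108864 469762048 1610612736 536870912 2) ndN1q0 ndN3q3 pcN2 Cut.none Ext.none)

def k0_pm_023 : ∃ t, chk3 f_pm_023 t 1 1 1 = true :=
  ⟨(b (b (a (l 1) (a (b (l 1) (b (l 1) (l 13565288))) (b (c (b (l 13107528) (c (l 13451400) (b (l 13314816) (l 13489392)))) (b (c (l 176656065463) (b (l 12726720) (l 13036288))) (l 13298160))) (b (c (b (l 206185244343) (l 13789896)) (l 13573680)) (l 13918032))))) (a (l 4) (b (b (b (a (l 14271800) (l 14310352)) (l 14616256)) (a (l 15041744) (l 15098056))) (b (a (l 15456624) (l 15567344)) (a (l 15829616) (l 15946120)))))) (a (l 4) (a (a (l 4) (b (b (l 16342152) (l 4)) (l 4))) (b (b (l 16397296) (l 16765544)) (b (l 16848688) (a (l 16722648) (l 16697128))))))), by decide +kernel⟩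

theorem c_pm_023 : CertNX 67108864 469762048 1610612736 536870912 1046898278 26843546 3 false true false .up 0 2 3
    ndN1q0 ndN3q3 pcN2 Cut.none Ext.none :=
  certNX1 (fam := false) (s1 := true) (s2 := false) (a := 0) (b := 2) (c := 3) (cn := .up) (n1 := ndN1q0) (n2 := ndN3q3) (pc := pcN2) (cut := Cut.none) (xt := Ext.none) (P1 := 67108864) (W1 := 469762048) (P2 := 1610612736) (W2 := 536870912) (P3 := 1046898278) (W3 := 26843546) (N0 := 3)
    rfl (fun _ => rfl) k0_pm_023

noncomputable def f_pm_033 : ℕ → ℕ → ℕ → ℕ → Bool := onCell 1610612736 536870912 1610612736 536870912 1046898278 26843546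
    (rowNX 3 2 false true false .pnn 0 3 3 (qsf 67108864 469762048 1610612736 536870912 3) ndN1q0 ndN3q3 pcN3 Cut.none Ext.none)

def k0_pm_033 : ∃ t, chk3 f_pm_033 t 1 1 1 = true :=
  ⟨(a (b (a (l 4) (b (l 1) (l 4))) (b (l 4) (a (c (l 17415107175) (a (l 16695952) (l 16695952))) (l 4)))) (b (l 1) (a (l 4) (b (l 1) (l 4))))), by decide +kernel⟩

theorem c_pm_033 : CertNX 67108864 469762048 1610612736 536870912 1046898278 26843546 3 false true false .pnn 0 3 3
    ndN1q0 ndN3q3 pcN3 Cut.none Ext.none :=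
  certNX2 (fam := false) (s1 := true) (s2 := false) (a := 0) (b := 3) (c := 3) (cn := .pnn) (n1 := ndN1q0) (n2 := ndN3q3) (pc := pcN3) (cut := Cut.none) (xt := Ext.none) (P1 := 67108864) (W1 := 469762048) (P2 := 1610612736) (W2 := 536870912) (P3 := 1046898278) (W3 := 26843546) (N0 := 3)
    rfl (fun _ => rfl) k0_pm_033

noncomputable def f_pm_101 : ℕ → ℕ → ℕ → ℕ → Bool := onCell 536870912 536870912 536870912 536870912 1046898278 26843546
    (rowNX 3 0 false true false .npn 1 0 1 (qsf 536870912 536870912 536870912 536870912 0) ndN1q1 ndN3q1 pcN0 Cut.none Ext.none)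

def k0_pm_101 : ∃ t, chk3 f_pm_101 t 1 1 1 = true :=
  ⟨(l 4), by decide +kernel⟩

theorem c_pm_101 : CertNX 536870912 536870912 536870912 536870912 1046898278 26843546 3 false true false .npn 1 0 1
    ndN1q1 ndN3q1 pcN0 Cut.none Ext.none :=
  certNX0 (fam := false) (s1 := true) (s2 := false) (a := 1) (b := 0) (c := 1) (cn := .npn) (n1 := ndN1q1) (n2 := ndN3q1) (pc := pcN0) (cut := Cut.none) (xt := Ext.none) (P1 := 536870912) (W1 := 536870912) (P2 := 536870912) (W2 := 536870912) (P3 := 1046898278) (W3 := 26843546) (N0 := 3)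
    rfl k0_pm_101

noncomputable def f_pm_102 : ℕ → ℕ → ℕ → ℕ → Bool := onCell 0 536870912 1073741824 536870912 1046898278 26843546
    (rowNX 3 2 false true false .npp 1 0 2 (qsf 536870912 536870912 1073741824 536870912 0) ndN1q1 ndN3q2 pcN0 Cut.none Ext.none)

def k0_pm_102 : ∃ t, chk3 f_pm_102 t 8 2 1 = true :=
  ⟨(b (b (b (b (a (a (c (a (b (l 16000920) (l 15961264)) (c (a (l 15869720) (l 16039456)) (a (l 16004112) (l 16044048)))) (c (a (a (l 15954192) (c (l 15965256) (l 15866160))) (b (l 15899576) (l 15992568))) (a (b (a (c (l 15918584) (a (l 15892464) (l 15898960))) (l 15836168)) (a (l 2) (l 15917824))) (l 15927208)))) (c (a (c (a (l 16088728) (l 16123944)) (b (l 16013464) (l 16084808))) (l 16072864)) (c (b (l 15764504) (l 16003984)) (l 15952184)))) (c (a (c (l 15953440) (l 15852216)) (c (l 15725736) (l 15627824))) (a (l 15710096) (l 15461128)))) (a (a (a (l 2) (a (l 2) (a (l 2) (c (l 16072160) (l 15953976))))) (c (a (c (l 16096768) (l 16069248)) (l 16113240)) (c (l 15976696)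 (l 15935856)))) (c (a (l 16035248) (l 16076848)) (a (l 15975680) (l 16007192))))) (a (a (l 2) (a (l 2) (b (c (l 16081152) (l 15951400)) (l 2)))) (c (a (b (l 15927416) (a (l 2) (l 16015864))) (c (l 15812936) (l 15996896))) (a (l 15956336) (l 15963880))))) (b (b (a (l 2) (a (l 2) (b (l 16019376) (l 2)))) (l 2)) (l 2))) (l 2)), by decide +kernel⟩

def k1_pm_102 : ∃ t, chk3 f_pm_102 t 9 2 1 = true :=
  ⟨(b (a (b (b (b (a (c (l 15544432) (l 15359656)) (l 15429744)) (c (l 15973960) (l 15897112))) (a (c (l 15937712) (l 15883704)) (l 15758512))) (a (b (a (b (c (l 15993648) (l 16033152)) (l 2)) (b (l 15937640) (l 16182336))) (l 2)) (b (b (l 15782464) (c (l 16009368) (l 15984240))) (b (c (l 16123128) (l 16125136)) (l 2))))) (b (b (b (a (l 15431536) (l 15369536)) (l 15832024)) (a (l 15651088) (l 15705464))) (b (b (l 15653296) (a (a (a (l 15851464) (l 15800504)) (l 15802128)) (l 15831032))) (a (a (b (c (l 15938880) (l 15911584)) (l 2)) (b (l 15887632) (l 15622896))) (b (l 15904040) (l 15633000))))))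 (a (l 2) (b (a (l 2) (b (b (c (l 15346856) (l 15298576)) (l 2)) (l 2))) (l 2)))), by decide +kernel⟩

def k2_pm_102 : ∃ t, chk3 f_pm_102 t 5 2 1 = true :=
  ⟨(b (a (b (b (a (b (c (l 15355896) (l 15228664)) (l 15636864)) (b (l 15312448) (l 15538048))) (a (l 15817032) (l 15871064))) (a (b (b (l 15765312) (a (l 15874616) (l 15924688))) (b (a (l 15932896) (l 15908136)) (a (l 15654976) (l 15689064)))) (b (a (l 15846648) (l 16011080)) (b (c (l 16081024) (l 16056632)) (l 15775848))))) (b (b (a (b (l 15417848) (l 15588168)) (b (l 15469240) (l 15611616))) (a (l 15777736) (l 15761616))) (a (b (l 16111744) (a (l 15791816) (l 16033744))) (b (l 16226688) (b (a (l 16349944) (l 16477488)) (l 16192968)))))) (a (b (a (b (a (b (l 15327936) (c (l 325440525959) (l 15010528))) (c (b (l 15382720) (b (l 15154056) (l 15051640))) (b (l 15344864) (l 15038840)))) (b (a (l 2) (c (l 417245352391) (l 14926880))) (l 2))) (b (c (b (l 15503824) (b (l 15277560) (l 15173720))) (b (l 15466768) (l 15169512))) (b (c (a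 (l 15078480) (l 15179624)) (l 15065952)) (l 15021224)))) (a (l 2) (b (a (l 2) (l 14984328)) (l 2)))) (a (b (b (c (b (l 15687456) (l 15420640)) (l 15511000)) (a (c (l 15256016) (l 15194648)) (l 15328360))) (b (l 15034320) (a (l 2) (l 570790556343)))) (b (b (b (l 15923008) (l 15624520)) (a (l 15457192) (l 15624032))) (b (l 15445416) (l 15280264)))))), by decide +kernel⟩

def k3_pm_102 : ∃ t, chk3 f_pm_102 t 3 2 1 = true :=
  ⟨(b (b (a (b (c (l 15395448) (l 15457664)) (a (l 15718672) (l 15709632))) (b (c (l 15542240) (l 15478632)) (l 15709632))) (a (b (a (l 16190952) (l 16155912)) (a (b (l 16593064) (l 16481672)) (b (l 16596048) (l 16500056)))) (b (l 16134928) (l 16540528)))) (a (b (a (b (a (l 16040080) (l 16335872)) (l 15806720)) (b (l 16080600) (l 16349032))) (a (b (l 15914464) (l 15710936)) (b (a (l 16379136) (l 16570952)) (a (l 16169800) (l 16465328))))) (b (b (a (l 16296776) (l 16296768)) (a (l 16407696) (l 16398440))) (b (a (l 16674960) (l 16650592)) (a (l 16681296) (l 16767384)))))),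 by decide +kernel⟩

def k4_pm_102 : ∃ t, chk3 f_pm_102 t 1 3 1 = true :=
  ⟨(a (a (l 2) (a (l 2) (b (b (a (l 2) (a (l 2) (l 735072841031))) (l 2)) (l 2)))) (a (b (a (b (a (l 657226915047) (l 15421216)) (a (l 2) (b (l 15030064) (l 2)))) (b (a (l 15711088) (l 16015512)) (b (l 15421216) (l 14904944)))) (a (l 2) (b (a (l 2) (b (l 15030064) (l 2))) (l 2)))) (b (a (b (a (l 16315248) (l 16541240)) (b (l 16015512) (l 15711088))) (b (l 16698584) (a (l 16315248) (l 16541240)))) (a (b (a (l 15156600) (l 15421216)) (a (l 2) (b (l 15030064) (l 2)))) (b (a (l 15711088) (l 16015512)) (a (b (l 15280432) (l 523545804887)) (l 15421216))))))), by decide +kernel⟩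

theorem s5_pm_102 : ∃ t, chk3 f_pm_102 t 4 2 1 = true := ex3_a k0_pm_102 k1_pm_102

theorem s6_pm_102 : ∃ t, chk3 f_pm_102 t 2 2 1 = true := ex3_a s5_pm_102 k2_pm_102

theorem s7_pm_102 : ∃ t, chk3 f_pm_102 t 1 2 1 = true := ex3_a s6_pm_102 k3_pm_102

theorem s8_pm_102 : ∃ t, chk3 f_pm_102 t 1 1 1 = true := ex3_b s7_pm_102 k4_pm_102

theorem c_pm_102 : CertNX 536870912 536870912 1073741824 536870912 1046898278 26843546 3 false true false .npp 1 0 2
    ndN1q1 ndN3q2 pcN0 Cut.none Ext.none :=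
  certNX2 (fam := false) (s1 := true) (s2 := false) (a := 1) (b := 0) (c := 2) (cn := .npp) (n1 := ndN1q1) (n2 := ndN3q2) (pc := pcN0) (cut := Cut.none) (xt := Ext.none) (P1 := 536870912) (W1 := 536870912) (P2 := 1073741824) (W2 := 536870912) (P3 := 1046898278) (W3 := 26843546) (N0 := 3)
    rfl (fun _ => rfl) s8_pm_102

noncomputable def f_pm_112 : ℕ → ℕ → ℕ → ℕ → Bool := onCell 536870912 536870912 1073741824 536870912 1046898278 26843546
    (rowNX 3 2 false true false .dn 1 1 2 (qsf 536870912 536870912 1073741824 536870912 1) ndN1q1 ndN3q2 pcN1 Cut.none Ext.none)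

def k0_pm_112 : ∃ t, chk3 f_pm_112 t 1 1 1 = true :=
  ⟨(a (b (b (b (a (b (a (l 15328688) (l 1)) (l 15709632)) (l 1)) (b (a (l 16134928) (l 1)) (a (l 16540528) (l 16540528)))) (b (a (b (l 16233848) (l 16398440)) (b (l 16296768) (l 16398440))) (a (b (l 16650576) (l 16777040)) (b (l 16650576) (l 16777040))))) (a (b (b (l 16772520) (l 16841904)) (a (b (b (l 16541240) (l 16315248)) (l 357654340327)) (b (l 16698584) (b (l 16541240) (l 16315248))))) (b (l 16777216) (a (l 16716080) (l 16772520))))) (a (b (b (l 1) (a (a (b (l 1) (b (l 1) (l 16776896))) (l 1)) (l 1))) (b (a (a (l 16776904) (b (b (b (l 1) (l 16589784)) (l 16593928)) (l 16603456))) (b (a (b (l 1) (l 16228616)) (l 1)) (a (l 16254336) (l 15746480)))) (a (l 16705272) (a (l 16320784) (a (l 16037320) (l 15697120)))))) (b (l 1) (b (a (a (b (l 1) (l 14922728)) (l 1)) (l 1)) (a (a (l 15117504) (l 14543344)) (a (a (l 14133936) (l 13765952)) (a (l 214774560343) (c (l 13049568) (l 225511286535))))))))), by decide +kernel⟩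

theorem c_pm_112 : CertNX 536870912 536870912 1073741824 536870912 1046898278 26843546 3 false true false .dn 1 1 2
    ndN1q1 ndN3q2 pcN1 Cut.none Ext.none :=
  certNX2 (fam := false) (s1 := true) (s2 := false) (a := 1) (b := 1) (c := 2) (cn := .dn) (n1 := ndN1q1) (n2 := ndN3q2) (pc := pcN1) (cut := Cut.none) (xt := Ext.none) (P1 := 536870912) (W1 := 536870912) (P2 := 1073741824) (W2 := 536870912) (P3 := 1046898278) (W3 := 26843546) (N0 := 3)
    rfl (fun _ => rfl) k0_pm_112

noncomputable def f_pm_113 : ℕ → ℕ → ℕ → ℕ → Bool := onCell 536870912 536870912 536870912 536870912 1046898278 26843546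
    (rowNX 3 1 false true false .nn 1 1 3 (qsf 536870912 536870912 1610612736 536870912 1) ndN1q1 ndN3q3 pcN1 Cut.none Ext.none)

def k0_pm_113 : ∃ t, chk3 f_pm_113 t 1 1 1 = true :=
  ⟨(b (a (b (l 1) (a (l 1) (l 16777216))) (a (b (l 16572752) (a (l 16762416) (l 16647760))) (b (a (l 16148960) (l 15561248)) (a (l 16169936) (l 15561248))))) (b (a (b (a (l 1) (l 16710040)) (b (l 16341352) (a (l 15658768) (l 16060744)))) (a (b (a (l 16712520) (l 16611568)) (a (l 16365896) (b (l 16436688) (l 16270272)))) (b (a (l 16141888) (l 15540544)) (a (l 15927504) (b (l 15447144) (l 15356448)))))) (a (b (a (b (l 15154744) (l 14668376)) (b (l 15523488) (l 15096504))) (b (a (l 165384083111) (l 14472480)) (a (b (l 13670736) (a (l 13309672) (l 13566032))) (a (l 13830640) (l 14340408))))) (a (b (a (l 15701088) (l 15760104)) (a (b (l 15127328) (a (l 14630072) (l 14801512))) (l 14951616))) (a (b (l 15444720) (b (l 14960800) (a (l 14703248) (l 14574864)))) (b (a (l 15110152) (b (l 15014432) (l 14832072)))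 (b (a (l 14766672) (l 14720720)) (a (l 14627680) (b (l 14897616) (b (l 15221168) (b (l 15531696) (b (l 15758856) (c (l 16634424) (l 14864152)))))))))))))), by decide +kernel⟩

theorem c_pm_113 : CertNX 536870912 536870912 1610612736 536870912 1046898278 26843546 3 false true false .nn 1 1 3
    ndN1q1 ndN3q3 pcN1 Cut.none Ext.none :=
  certNX1 (fam := false) (s1 := true) (s2 := false) (a := 1) (b := 1) (c := 3) (cn := .nn) (n1 := ndN1q1) (n2 := ndN3q3) (pc := pcN1) (cut := Cut.none) (xt := Ext.none) (P1 := 536870912) (W1 := 536870912) (P2 := 1610612736) (W2 := 536870912) (P3 := 1046898278) (W3 := 26843546) (N0 := 3)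
    rfl (fun _ => rfl) k0_pm_113

noncomputable def f_pm_123 : ℕ → ℕ → ℕ → ℕ → Bool := onCell 1073741824 536870912 1610612736 536870912 1046898278 26843546
    (rowNX 3 2 false true false .npn 1 2 3 (qsf 536870912 536870912 1610612736 536870912 2) ndN1q1 ndN3q3 pcN2 Cut.none Ext.none)

def k0_pm_123 : ∃ t, chk3 f_pm_123 t 1 1 1 = true :=
  ⟨(a (a (b (a (b (c (a (l 13416640) (c (l 13648968) (a (l 13541848) (l 13662240)))) (a (c (a (l 13283984) (l 13382816)) (a (l 13224072) (l 13327120))) (l 13400528))) (c (a (l 13937048) (b (l 13895272) (l 14211424))) (a (b (c (l 13706088) (l 13646856)) (l 13800912)) (l 13988264)))) (a (b (c (a (l 167530788807) (l 13866224)) (l 13680664)) (c (a (l 14100952) (l 14241808)) (l 14108048))) (b (l 13932560) (l 14192152)))) (b (a (b (a (c (l 14447224) (b (l 14255592) (l 14444848))) (c (l 14532600) (l 14455296))) (a (l 14544904) (b (l 14746088) (l 14800800)))) (a (b (l 14564984) (b (l 14811248) (l 14889504))) (b (l 14445624) (l 14651880)))) (a (b (a (b (l 14739584)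 (l 14764648)) (b (l 14854792) (l 14881024))) (b (a (l 15411080) (l 15112608)) (a (l 15957008) (l 15443016)))) (b (a (l 14880096) (l 14677936)) (b (a (l 14996016) (l 14701768)) (a (l 15433656) (l 14948136))))))) (b (a (a (a (b (l 14302608) (l 14382912)) (l 146594542359)) (b (l 1) (l 15169768))) (b (l 1) (a (l 15649112) (l 15968048)))) (a (b (a (a (l 14496296) (l 14734248)) (l 15335576)) (a (a (b (l 14510264) (l 14530744)) (b (l 14730312) (l 14725976))) (b (l 15423672) (l 15425144)))) (b (a (l 15974944) (l 16305136)) (a (b (l 16238344) (l 16275832)) (b (l 16600224) (l 16673016))))))) (b (a (a (b (l 1) (a (l 16229704) (l 1))) (l 1)) (l 1)) (a (b (a (l 16507472) (l 16766592)) (a (b (l 16613840) (l 16662488)) (b (l 16723696) (l 16683896)))) (b (a (l 16777168) (l 1)) (a (l 16698304) (l 16698304)))))), by decide +kernel⟩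

theorem c_pm_123 : CertNX 536870912 536870912 1610612736 536870912 1046898278 26843546 3 false true false .npn 1 2 3
    ndN1q1 ndN3q3 pcN2 Cut.none Ext.none :=
  certNX2 (fam := false) (s1 := true) (s2 := false) (a := 1) (b := 2) (c := 3) (cn := .npn) (n1 := ndN1q1) (n2 := ndN3q3) (pc := pcN2) (cut := Cut.none) (xt := Ext.none) (P1 := 536870912) (W1 := 536870912) (P2 := 1610612736) (W2 := 536870912) (P3 := 1046898278) (W3 := 26843546) (N0 := 3)
    rfl (fun _ => rfl) k0_pm_123

noncomputable def f_pm_133 : ℕ → ℕ → ℕ → ℕ → Bool := onCell 536870912 536870912 1610612736 536870912 1046898278 26843546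
    (rowNX 3 0 false true false .dn 1 3 3 (qsf 536870912 536870912 1610612736 536870912 3) ndN1q1 ndN3q3 pcN3 Cut.none Ext.none)

def k0_pm_133 : ∃ t, chk3 f_pm_133 t 1 1 1 = true :=
  ⟨(b (l 1) (a (b (l 1) (a (b (l 1) (l 432751755479)) (l 1))) (l 1))), by decide +kernel⟩

theorem c_pm_133 : CertNX 536870912 536870912 1610612736 536870912 1046898278 26843546 3 false true false .dn 1 3 3
    ndN1q1 ndN3q3 pcN3 Cut.none Ext.none :=
  certNX0 (fam := false) (s1 := true) (s2 := false) (a := 1) (b := 3) (c := 3) (cn := .dn) (n1 := ndN1q1) (n2 := ndN3q3) (pc := pcN3) (cut := Cut.none) (xt := Ext.none) (P1 := 536870912) (W1 := 536870912) (P2 := 1610612736) (W2 := 536870912) (P3 := 1046898278) (W3 := 26843546) (N0 := 3)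
    rfl k0_pm_133

noncomputable def f_pm_202_a : ℕ → ℕ → ℕ → ℕ → Bool := onCell 0 420477299 1073741824 536870912 1046898278 26843546
    (rowNX 3 0 false true false .pp 2 0 2 (qsf 0 420477299 1073741824 536870912 0) ndN1q2a ndN3q2 pcN0 Cut.none Ext.none)

def k0_pm_202_a : ∃ t, chk3 f_pm_202_a t 1 1 1 = true :=
  ⟨(l 3), by decide +kernel⟩

theorem c_pm_202_a : CertNX 0 420477299 1073741824 536870912 1046898278 26843546 3 false true false .pp 2 0 2
    ndN1q2a ndN3q2 pcN0 Cut.none Ext.none :=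
  certNX0 (fam := false) (s1 := true) (s2 := false) (a := 2) (b := 0) (c := 2) (cn := .pp) (n1 := ndN1q2a) (n2 := ndN3q2) (pc := pcN0) (cut := Cut.none) (xt := Ext.none) (P1 := 0) (W1 := 420477299) (P2 := 1073741824) (W2 := 536870912) (P3 := 1046898278) (W3 := 26843546) (N0 := 3)
    rfl k0_pm_202_a

noncomputable def f_pm_202_b : ℕ → ℕ → ℕ → ℕ → Bool := onCell 1239849684 370763052 1073741824 536870912 1046898278 26843546
    (rowNX 3 0 false true false .pp 2 0 2 (qsf 1239849684 370763052 1073741824 536870912 0) ndN1q2b ndN3q2 pcN0 Cut.none Ext.none)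

def k0_pm_202_b : ∃ t, chk3 f_pm_202_b t 1 1 1 = true :=
  ⟨(l 3), by decide +kernel⟩

theorem c_pm_202_b : CertNX 1239849684 370763052 1073741824 536870912 1046898278 26843546 3 false true false .pp 2 0 2
    ndN1q2b ndN3q2 pcN0 Cut.none Ext.none :=
  certNX0 (fam := false) (s1 := true) (s2 := false) (a := 2) (b := 0) (c := 2) (cn := .pp) (n1 := ndN1q2b) (n2 := ndN3q2) (pc := pcN0) (cut := Cut.none) (xt := Ext.none) (P1 := 1239849684) (W1 := 370763052) (P2 := 1073741824) (W2 := 536870912) (P3 := 1046898278) (W3 := 26843546) (N0 := 3)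
    rfl k0_pm_202_b

noncomputable def f_pm_203_a : ℕ → ℕ → ℕ → ℕ → Bool := onCell 0 420477299 0 536870912 1046898278 26843546
    (rowNX 3 1 false true false .up 2 0 3 (qsf 0 420477299 1610612736 536870912 0) ndN1q2a ndN3q3 pcN0 Cut.none Ext.none)

def k0_pm_203_a : ∃ t, chk3 f_pm_203_a t 1 1 1 = true :=
  ⟨(l 3), by decide +kernel⟩

theorem c_pm_203_a : CertNX 0 420477299 1610612736 536870912 1046898278 26843546 3 false true false .up 2 0 3
    ndN1q2a ndN3q3 pcN0 Cut.none Ext.none :=
  certNX1 (fam := false) (s1 := true) (s2 := false) (a := 2) (b := 0) (c := 3) (cn := .up) (n1 := ndN1q2a) (n2 := ndN3q3) (pc := pcN0) (cut := Cut.none) (xt := Ext.none) (P1 := 0) (W1 := 420477299) (P2 := 1610612736) (W2 := 536870912) (P3 := 1046898278) (W3 := 26843546) (N0 := 3)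
    rfl (fun _ => rfl) k0_pm_203_a

noncomputable def f_pm_203_b : ℕ → ℕ → ℕ → ℕ → Bool := onCell 1239849684 370763052 1610612736 536870912 1046898278 26843546
    (rowNX 3 0 false true false .up 2 0 3 (qsf 1239849684 370763052 1610612736 536870912 0) ndN1q2b ndN3q3 pcN0 Cut.none Ext.none)

def k0_pm_203_b : ∃ t, chk3 f_pm_203_b t 1 1 1 = true :=
  ⟨(l 3), by decide +kernel⟩

theorem c_pm_203_b : CertNX 1239849684 370763052 1610612736 536870912 1046898278 26843546 3 false true false .up 2 0 3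
    ndN1q2b ndN3q3 pcN0 Cut.none Ext.none :=
  certNX0 (fam := false) (s1 := true) (s2 := false) (a := 2) (b := 0) (c := 3) (cn := .up) (n1 := ndN1q2b) (n2 := ndN3q3) (pc := pcN0) (cut := Cut.none) (xt := Ext.none) (P1 := 1239849684) (W1 := 370763052) (P2 := 1610612736) (W2 := 536870912) (P3 := 1046898278) (W3 := 26843546) (N0 := 3)
    rfl k0_pm_203_b

noncomputable def f_pm_213_a : ℕ → ℕ → ℕ → ℕ → Bool := onCell 0 420477299 1610612736 536870912 1046898278 26843546
    (rowNX 3 0 false true false .pnn 2 1 3 (qsf 0 420477299 1610612736 536870912 1) ndN1q2a ndN3q3 pcN1 Cut.none Ext.none)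

def k0_pm_213_a : ∃ t, chk3 f_pm_213_a t 1 1 1 = true :=
  ⟨(b (l 3) (l 3)), by decide +kernel⟩

theorem c_pm_213_a : CertNX 0 420477299 1610612736 536870912 1046898278 26843546 3 false true false .pnn 2 1 3
    ndN1q2a ndN3q3 pcN1 Cut.none Ext.none :=
  certNX0 (fam := false) (s1 := true) (s2 := false) (a := 2) (b := 1) (c := 3) (cn := .pnn) (n1 := ndN1q2a) (n2 := ndN3q3) (pc := pcN1) (cut := Cut.none) (xt := Ext.none) (P1 := 0) (W1 := 420477299) (P2 := 1610612736) (W2 := 536870912) (P3 := 1046898278) (W3 := 26843546) (N0 := 3)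
    rfl k0_pm_213_a

noncomputable def f_pm_213_b : ℕ → ℕ → ℕ → ℕ → Bool := onCell 1239849684 370763052 1610612736 536870912 1046898278 26843546
    (rowNX 3 0 false true false .pnn 2 1 3 (qsf 1239849684 370763052 1610612736 536870912 1) ndN1q2b ndN3q3 pcN1 Cut.none Ext.none)

def k0_pm_213_b : ∃ t, chk3 f_pm_213_b t 1 1 1 = true :=
  ⟨(l 3), by decide +kernel⟩

theorem c_pm_213_b : CertNX 1239849684 370763052 1610612736 536870912 1046898278 26843546 3 false true false .pnn 2 1 3
    ndN1q2b ndN3q3 pcN1 Cut.none Ext.none :=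
  certNX0 (fam := false) (s1 := true) (s2 := false) (a := 2) (b := 1) (c := 3) (cn := .pnn) (n1 := ndN1q2b) (n2 := ndN3q3) (pc := pcN1) (cut := Cut.none) (xt := Ext.none) (P1 := 1239849684) (W1 := 370763052) (P2 := 1610612736) (W2 := 536870912) (P3 := 1046898278) (W3 := 26843546) (N0 := 3)
    rfl k0_pm_213_b

noncomputable def f_pm_303 : ℕ → ℕ → ℕ → ℕ → Bool := onCell 1610612736 469762048 1610612736 536870912 1046898278 26843546
    (rowNX 3 0 false true false .npn 3 0 3 (qsf 1610612736 469762048 1610612736 536870912 0) ndN1q3 ndN3q3 pcN0 Cut.none Ext.none)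

def k0_pm_303 : ∃ t, chk3 f_pm_303 t 1 1 1 = true :=
  ⟨(l 3), by decide +kernel⟩

theorem c_pm_303 : CertNX 1610612736 469762048 1610612736 536870912 1046898278 26843546 3 false true false .npn 3 0 3
    ndN1q3 ndN3q3 pcN0 Cut.none Ext.none :=
  certNX0 (fam := false) (s1 := true) (s2 := false) (a := 3) (b := 0) (c := 3) (cn := .npn) (n1 := ndN1q3) (n2 := ndN3q3) (pc := pcN0) (cut := Cut.none) (xt := Ext.none) (P1 := 1610612736) (W1 := 469762048) (P2 := 1610612736) (W2 := 536870912) (P3 := 1046898278) (W3 := 26843546) (N0 := 3)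
    rfl k0_pm_303

noncomputable def f_pm_313 : ℕ → ℕ → ℕ → ℕ → Bool := onCell 1610612736 469762048 1610612736 536870912 1046898278 26843546
    (rowNX 3 0 false true false .dn 3 1 3 (qsf 1610612736 469762048 1610612736 536870912 1) ndN1q3 ndN3q3 pcN1 Cut.none Ext.none)

def k0_pm_313 : ∃ t, chk3 f_pm_313 t 1 1 1 = true :=
  ⟨(l 3), by decide +kernel⟩

theorem c_pm_313 : CertNX 1610612736 469762048 1610612736 536870912 1046898278 26843546 3 false true false .dn 3 1 3
    ndN1q3 ndN3q3 pcN1 Cut.none Ext.none :=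
  certNX0 (fam := false) (s1 := true) (s2 := false) (a := 3) (b := 1) (c := 3) (cn := .dn) (n1 := ndN1q3) (n2 := ndN3q3) (pc := pcN1) (cut := Cut.none) (xt := Ext.none) (P1 := 1610612736) (W1 := 469762048) (P2 := 1610612736) (W2 := 536870912) (P3 := 1046898278) (W3 := 26843546) (N0 := 3)
    rfl k0_pm_313

noncomputable def f_mm_001 : ℕ → ℕ → ℕ → ℕ → Bool := onCell 67108864 469762048 536870912 536870912 1046898278 26843546
    (rowNX 3 0 false false false .up 0 0 1 (qsf 67108864 469762048 536870912 536870912 0) ndN1q0 ndN3q1 pcN0 Cut.none Ext.none)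

def k0_mm_001 : ∃ t, chk3 f_mm_001 t 1 1 1 = true :=
  ⟨(l 3), by decide +kernel⟩

theorem c_mm_001 : CertNX 67108864 469762048 536870912 536870912 1046898278 26843546 3 false false false .up 0 0 1
    ndN1q0 ndN3q1 pcN0 Cut.none Ext.none :=
  certNX0 (fam := false) (s1 := false) (s2 := false) (a := 0) (b := 0) (c := 1) (cn := .up) (n1 := ndN1q0) (n2 := ndN3q1) (pc := pcN0) (cut := Cut.none) (xt := Ext.none) (P1 := 67108864) (W1 := 469762048) (P2 := 536870912) (W2 := 536870912) (P3 := 1046898278) (W3 := 26843546) (N0 := 3)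
    rfl k0_mm_001

noncomputable def f_mm_011 : ℕ → ℕ → ℕ → ℕ → Bool := onCell 67108864 469762048 536870912 536870912 1046898278 26843546
    (rowNX 3 0 false false false .pnn 0 1 1 (qsf 67108864 469762048 536870912 536870912 1) ndN1q0 ndN3q1 pcN1 Cut.none Ext.none)

def k0_mm_011 : ∃ t, chk3 f_mm_011 t 1 1 1 = true :=
  ⟨(l 3), by decide +kernel⟩

theorem c_mm_011 : CertNX 67108864 469762048 536870912 536870912 1046898278 26843546 3 false false false .pnn 0 1 1
    ndN1q0 ndN3q1 pcN1 Cut.none Ext.none :=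
  certNX0 (fam := false) (s1 := false) (s2 := false) (a := 0) (b := 1) (c := 1) (cn := .pnn) (n1 := ndN1q0) (n2 := ndN3q1) (pc := pcN1) (cut := Cut.none) (xt := Ext.none) (P1 := 67108864) (W1 := 469762048) (P2 := 536870912) (W2 := 536870912) (P3 := 1046898278) (W3 := 26843546) (N0 := 3)
    rfl k0_mm_011

noncomputable def f_mm_012 : ℕ → ℕ → ℕ → ℕ → Bool := onCell 67108864 469762048 1073741824 536870912 1046898278 26843546
    (rowNX 3 0 false false false .pnp 0 1 2 (qsf 67108864 469762048 1073741824 536870912 1) ndN1q0 ndN3q2 pcN1 Cut.none Ext.none)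

def k0_mm_012 : ∃ t, chk3 f_mm_012 t 1 1 1 = true :=
  ⟨(l 5), by decide +kernel⟩

theorem c_mm_012 : CertNX 67108864 469762048 1073741824 536870912 1046898278 26843546 3 false false false .pnp 0 1 2
    ndN1q0 ndN3q2 pcN1 Cut.none Ext.none :=
  certNX0 (fam := false) (s1 := false) (s2 := false) (a := 0) (b := 1) (c := 2) (cn := .pnp) (n1 := ndN1q0) (n2 := ndN3q2) (pc := pcN1) (cut := Cut.none) (xt := Ext.none) (P1 := 67108864) (W1 := 469762048) (P2 := 1073741824) (W2 := 536870912) (P3 := 1046898278) (W3 := 26843546) (N0 := 3)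
    rfl k0_mm_012

noncomputable def f_mm_022 : ℕ → ℕ → ℕ → ℕ → Bool := onCell 67108864 469762048 1073741824 536870912 1046898278 26843546
    (rowNX 3 0 false false false .pp 0 2 2 (qsf 67108864 469762048 1073741824 536870912 2) ndN1q0 ndN3q2 pcN2 Cut.none Ext.none)

def k0_mm_022 : ∃ t, chk3 f_mm_022 t 1 1 1 = true :=
  ⟨(l 5), by decide +kernel⟩

theorem c_mm_022 : CertNX 67108864 469762048 1073741824 536870912 1046898278 26843546 3 false false false .pp 0 2 2
    ndN1q0 ndN3q2 pcN2 Cut.none Ext.none :=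
  certNX0 (fam := false) (s1 := false) (s2 := false) (a := 0) (b := 2) (c := 2) (cn := .pp) (n1 := ndN1q0) (n2 := ndN3q2) (pc := pcN2) (cut := Cut.none) (xt := Ext.none) (P1 := 67108864) (W1 := 469762048) (P2 := 1073741824) (W2 := 536870912) (P3 := 1046898278) (W3 := 26843546) (N0 := 3)
    rfl k0_mm_022

noncomputable def f_mm_023 : ℕ → ℕ → ℕ → ℕ → Bool := onCell 67108864 469762048 1610612736 536870912 1046898278 26843546
    (rowNX 3 0 false false false .up 0 2 3 (qsf 67108864 469762048 1610612736 536870912 2) ndN1q0 ndN3q3 pcN2 Cut.none Ext.none)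

def k0_mm_023 : ∃ t, chk3 f_mm_023 t 1 1 1 = true :=
  ⟨(l 5), by decide +kernel⟩

theorem c_mm_023 : CertNX 67108864 469762048 1610612736 536870912 1046898278 26843546 3 false false false .up 0 2 3
    ndN1q0 ndN3q3 pcN2 Cut.none Ext.none :=
  certNX0 (fam := false) (s1 := false) (s2 := false) (a := 0) (b := 2) (c := 3) (cn := .up) (n1 := ndN1q0) (n2 := ndN3q3) (pc := pcN2) (cut := Cut.none) (xt := Ext.none) (P1 := 67108864) (W1 := 469762048) (P2 := 1610612736) (W2 := 536870912) (P3 := 1046898278) (W3 := 26843546) (N0 := 3)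
    rfl k0_mm_023

noncomputable def f_mm_033 : ℕ → ℕ → ℕ → ℕ → Bool := onCell 67108864 469762048 1610612736 536870912 1046898278 26843546
    (rowNX 3 0 false false false .pnn 0 3 3 (qsf 67108864 469762048 1610612736 536870912 3) ndN1q0 ndN3q3 pcN3 Cut.none Ext.none)

def k0_mm_033 : ∃ t, chk3 f_mm_033 t 1 1 1 = true :=
  ⟨(l 5), by decide +kernel⟩

theorem c_mm_033 : CertNX 67108864 469762048 1610612736 536870912 1046898278 26843546 3 false false false .pnn 0 3 3
    ndN1q0 ndN3q3 pcN3 Cut.none Ext.none :=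
  certNX0 (fam := false) (s1 := false) (s2 := false) (a := 0) (b := 3) (c := 3) (cn := .pnn) (n1 := ndN1q0) (n2 := ndN3q3) (pc := pcN3) (cut := Cut.none) (xt := Ext.none) (P1 := 67108864) (W1 := 469762048) (P2 := 1610612736) (W2 := 536870912) (P3 := 1046898278) (W3 := 26843546) (N0 := 3)
    rfl k0_mm_033

noncomputable def f_mm_101 : ℕ → ℕ → ℕ → ℕ → Bool := onCell 536870912 536870912 536870912 536870912 1046898278 26843546
    (rowNX 3 0 false false false .npn 1 0 1 (qsf 536870912 536870912 536870912 536870912 0) ndN1q1 ndN3q1 pcN0 Cut.none Ext.none)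

def k0_mm_101 : ∃ t, chk3 f_mm_101 t 1 1 1 = true :=
  ⟨(l 3), by decide +kernel⟩

theorem c_mm_101 : CertNX 536870912 536870912 536870912 536870912 1046898278 26843546 3 false false false .npn 1 0 1
    ndN1q1 ndN3q1 pcN0 Cut.none Ext.none :=
  certNX0 (fam := false) (s1 := false) (s2 := false) (a := 1) (b := 0) (c := 1) (cn := .npn) (n1 := ndN1q1) (n2 := ndN3q1) (pc := pcN0) (cut := Cut.none) (xt := Ext.none) (P1 := 536870912) (W1 := 536870912) (P2 := 536870912) (W2 := 536870912) (P3 := 1046898278) (W3 := 26843546) (N0 := 3)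
    rfl k0_mm_101

noncomputable def f_mm_102 : ℕ → ℕ → ℕ → ℕ → Bool := onCell 536870912 536870912 1073741824 536870912 1046898278 26843546
    (rowNX 3 0 false false false .npp 1 0 2 (qsf 536870912 536870912 1073741824 536870912 0) ndN1q1 ndN3q2 pcN0 Cut.none Ext.none)

def k0_mm_102 : ∃ t, chk3 f_mm_102 t 1 1 1 = true :=
  ⟨(l 5), by decide +kernel⟩

theorem c_mm_102 : CertNX 536870912 536870912 1073741824 536870912 1046898278 26843546 3 false false false .npp 1 0 2
    ndN1q1 ndN3q2 pcN0 Cut.none Ext.none :=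
  certNX0 (fam := false) (s1 := false) (s2 := false) (a := 1) (b := 0) (c := 2) (cn := .npp) (n1 := ndN1q1) (n2 := ndN3q2) (pc := pcN0) (cut := Cut.none) (xt := Ext.none) (P1 := 536870912) (W1 := 536870912) (P2 := 1073741824) (W2 := 536870912) (P3 := 1046898278) (W3 := 26843546) (N0 := 3)
    rfl k0_mm_102

noncomputable def f_mm_112 : ℕ → ℕ → ℕ → ℕ → Bool := onCell 536870912 536870912 1073741824 536870912 1046898278 26843546
    (rowNX 3 0 false false false .dn 1 1 2 (qsf 536870912 536870912 1073741824 536870912 1) ndN1q1 ndN3q2 pcN1 Cut.none Ext.none)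

def k0_mm_112 : ∃ t, chk3 f_mm_112 t 1 1 1 = true :=
  ⟨(l 5), by decide +kernel⟩

theorem c_mm_112 : CertNX 536870912 536870912 1073741824 536870912 1046898278 26843546 3 false false false .dn 1 1 2
    ndN1q1 ndN3q2 pcN1 Cut.none Ext.none :=
  certNX0 (fam := false) (s1 := false) (s2 := false) (a := 1) (b := 1) (c := 2) (cn := .dn) (n1 := ndN1q1) (n2 := ndN3q2) (pc := pcN1) (cut := Cut.none) (xt := Ext.none) (P1 := 536870912) (W1 := 536870912) (P2 := 1073741824) (W2 := 536870912) (P3 := 1046898278) (W3 := 26843546) (N0 := 3)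
    rfl k0_mm_112

noncomputable def f_mm_113 : ℕ → ℕ → ℕ → ℕ → Bool := onCell 536870912 536870912 1610612736 536870912 1046898278 26843546
    (rowNX 3 0 false false false .nn 1 1 3 (qsf 536870912 536870912 1610612736 536870912 1) ndN1q1 ndN3q3 pcN1 Cut.none Ext.none)

def k0_mm_113 : ∃ t, chk3 f_mm_113 t 1 1 1 = true :=
  ⟨(l 5), by decide +kernel⟩

theorem c_mm_113 : CertNX 536870912 536870912 1610612736 536870912 1046898278 26843546 3 false false false .nn 1 1 3
    ndN1q1 ndN3q3 pcN1 Cut.none Ext.none :=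
  certNX0 (fam := false) (s1 := false) (s2 := false) (a := 1) (b := 1) (c := 3) (cn := .nn) (n1 := ndN1q1) (n2 := ndN3q3) (pc := pcN1) (cut := Cut.none) (xt := Ext.none) (P1 := 536870912) (W1 := 536870912) (P2 := 1610612736) (W2 := 536870912) (P3 := 1046898278) (W3 := 26843546) (N0 := 3)
    rfl k0_mm_113

noncomputable def f_mm_123 : ℕ → ℕ → ℕ → ℕ → Bool := onCell 536870912 536870912 1610612736 536870912 1046898278 26843546
    (rowNX 3 0 false false false .npn 1 2 3 (qsf 536870912 536870912 1610612736 536870912 2) ndN1q1 ndN3q3 pcN2 Cut.none Ext.none)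

def k0_mm_123 : ∃ t, chk3 f_mm_123 t 1 1 1 = true :=
  ⟨(l 5), by decide +kernel⟩

theorem c_mm_123 : CertNX 536870912 536870912 1610612736 536870912 1046898278 26843546 3 false false false .npn 1 2 3
    ndN1q1 ndN3q3 pcN2 Cut.none Ext.none :=
  certNX0 (fam := false) (s1 := false) (s2 := false) (a := 1) (b := 2) (c := 3) (cn := .npn) (n1 := ndN1q1) (n2 := ndN3q3) (pc := pcN2) (cut := Cut.none) (xt := Ext.none) (P1 := 536870912) (W1 := 536870912) (P2 := 1610612736) (W2 := 536870912) (P3 := 1046898278) (W3 := 26843546) (N0 := 3)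
    rfl k0_mm_123

noncomputable def f_mm_133 : ℕ → ℕ → ℕ → ℕ → Bool := onCell 536870912 536870912 1610612736 536870912 1046898278 26843546
    (rowNX 3 0 false false false .dn 1 3 3 (qsf 536870912 536870912 1610612736 536870912 3) ndN1q1 ndN3q3 pcN3 Cut.none Ext.none)

def k0_mm_133 : ∃ t, chk3 f_mm_133 t 1 1 1 = true :=
  ⟨(l 5), by decide +kernel⟩

theorem c_mm_133 : CertNX 536870912 536870912 1610612736 536870912 1046898278 26843546 3 false false false .dn 1 3 3
    ndN1q1 ndN3q3 pcN3 Cut.none Ext.none :=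
  certNX0 (fam := false) (s1 := false) (s2 := false) (a := 1) (b := 3) (c := 3) (cn := .dn) (n1 := ndN1q1) (n2 := ndN3q3) (pc := pcN3) (cut := Cut.none) (xt := Ext.none) (P1 := 536870912) (W1 := 536870912) (P2 := 1610612736) (W2 := 536870912) (P3 := 1046898278) (W3 := 26843546) (N0 := 3)
    rfl k0_mm_133

noncomputable def f_mm_202_a : ℕ → ℕ → ℕ → ℕ → Bool := onCell 0 420477299 1073741824 536870912 1046898278 26843546
    (rowNX 3 0 false false false .pp 2 0 2 (qsf 0 420477299 1073741824 536870912 0) ndN1q2a ndN3q2 pcN0 Cut.none Ext.none)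

def k0_mm_202_a : ∃ t, chk3 f_mm_202_a t 1 1 1 = true :=
  ⟨(l 3), by decide +kernel⟩

theorem c_mm_202_a : CertNX 0 420477299 1073741824 536870912 1046898278 26843546 3 false false false .pp 2 0 2
    ndN1q2a ndN3q2 pcN0 Cut.none Ext.none :=
  certNX0 (fam := false) (s1 := false) (s2 := false) (a := 2) (b := 0) (c := 2) (cn := .pp) (n1 := ndN1q2a) (n2 := ndN3q2) (pc := pcN0) (cut := Cut.none) (xt := Ext.none) (P1 := 0) (W1 := 420477299) (P2 := 1073741824) (W2 := 536870912) (P3 := 1046898278) (W3 := 26843546) (N0 := 3)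
    rfl k0_mm_202_a

noncomputable def f_mm_202_b : ℕ → ℕ → ℕ → ℕ → Bool := onCell 1239849684 370763052 1073741824 536870912 1046898278 26843546
    (rowNX 3 0 false false false .pp 2 0 2 (qsf 1239849684 370763052 1073741824 536870912 0) ndN1q2b ndN3q2 pcN0 Cut.none Ext.none)

def k0_mm_202_b : ∃ t, chk3 f_mm_202_b t 1 1 1 = true :=
  ⟨(l 3), by decide +kernel⟩

theorem c_mm_202_b : CertNX 1239849684 370763052 1073741824 536870912 1046898278 26843546 3 false false false .pp 2 0 2
    ndN1q2b ndN3q2 pcN0 Cut.none Ext.none :=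
  certNX0 (fam := false) (s1 := false) (s2 := false) (a := 2) (b := 0) (c := 2) (cn := .pp) (n1 := ndN1q2b) (n2 := ndN3q2) (pc := pcN0) (cut := Cut.none) (xt := Ext.none) (P1 := 1239849684) (W1 := 370763052) (P2 := 1073741824) (W2 := 536870912) (P3 := 1046898278) (W3 := 26843546) (N0 := 3)
    rfl k0_mm_202_b

noncomputable def f_mm_203_a : ℕ → ℕ → ℕ → ℕ → Bool := onCell 0 420477299 1610612736 536870912 1046898278 26843546
    (rowNX 3 0 false false false .up 2 0 3 (qsf 0 420477299 1610612736 536870912 0) ndN1q2a ndN3q3 pcN0 Cut.none Ext.none)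

def k0_mm_203_a : ∃ t, chk3 f_mm_203_a t 1 1 1 = true :=
  ⟨(l 3), by decide +kernel⟩

theorem c_mm_203_a : CertNX 0 420477299 1610612736 536870912 1046898278 26843546 3 false false false .up 2 0 3
    ndN1q2a ndN3q3 pcN0 Cut.none Ext.none :=
  certNX0 (fam := false) (s1 := false) (s2 := false) (a := 2) (b := 0) (c := 3) (cn := .up) (n1 := ndN1q2a) (n2 := ndN3q3) (pc := pcN0) (cut := Cut.none) (xt := Ext.none) (P1 := 0) (W1 := 420477299) (P2 := 1610612736) (W2 := 536870912) (P3 := 1046898278) (W3 := 26843546) (N0 := 3)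
    rfl k0_mm_203_a

noncomputable def f_mm_203_b : ℕ → ℕ → ℕ → ℕ → Bool := onCell 1239849684 370763052 1610612736 536870912 1046898278 26843546
    (rowNX 3 0 false false false .up 2 0 3 (qsf 1239849684 370763052 1610612736 536870912 0) ndN1q2b ndN3q3 pcN0 Cut.none Ext.none)

def k0_mm_203_b : ∃ t, chk3 f_mm_203_b t 1 1 1 = true :=
  ⟨(l 3), by decide +kernel⟩

theorem c_mm_203_b : CertNX 1239849684 370763052 1610612736 536870912 1046898278 26843546 3 false false false .up 2 0 3
    ndN1q2b ndN3q3 pcN0 Cut.none Ext.none :=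
  certNX0 (fam := false) (s1 := false) (s2 := false) (a := 2) (b := 0) (c := 3) (cn := .up) (n1 := ndN1q2b) (n2 := ndN3q3) (pc := pcN0) (cut := Cut.none) (xt := Ext.none) (P1 := 1239849684) (W1 := 370763052) (P2 := 1610612736) (W2 := 536870912) (P3 := 1046898278) (W3 := 26843546) (N0 := 3)
    rfl k0_mm_203_b

noncomputable def f_mm_213_a : ℕ → ℕ → ℕ → ℕ → Bool := onCell 0 420477299 1610612736 536870912 1046898278 26843546
    (rowNX 3 0 false false false .pnn 2 1 3 (qsf 0 420477299 1610612736 536870912 1) ndN1q2a ndN3q3 pcN1 Cut.none Ext.none)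

def k0_mm_213_a : ∃ t, chk3 f_mm_213_a t 1 1 1 = true :=
  ⟨(l 3), by decide +kernel⟩

theorem c_mm_213_a : CertNX 0 420477299 1610612736 536870912 1046898278 26843546 3 false false false .pnn 2 1 3
    ndN1q2a ndN3q3 pcN1 Cut.none Ext.none :=
  certNX0 (fam := false) (s1 := false) (s2 := false) (a := 2) (b := 1) (c := 3) (cn := .pnn) (n1 := ndN1q2a) (n2 := ndN3q3) (pc := pcN1) (cut := Cut.none) (xt := Ext.none) (P1 := 0) (W1 := 420477299) (P2 := 1610612736) (W2 := 536870912) (P3 := 1046898278) (W3 := 26843546) (N0 := 3)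
    rfl k0_mm_213_a

noncomputable def f_mm_213_b : ℕ → ℕ → ℕ → ℕ → Bool := onCell 1239849684 370763052 1610612736 536870912 1046898278 26843546
    (rowNX 3 0 false false false .pnn 2 1 3 (qsf 1239849684 370763052 1610612736 536870912 1) ndN1q2b ndN3q3 pcN1 Cut.none Ext.none)

def k0_mm_213_b : ∃ t, chk3 f_mm_213_b t 1 1 1 = true :=
  ⟨(l 3), by decide +kernel⟩

theorem c_mm_213_b : CertNX 1239849684 370763052 1610612736 536870912 1046898278 26843546 3 false false false .pnn 2 1 3
    ndN1q2b ndN3q3 pcN1 Cut.none Ext.none :=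
  certNX0 (fam := false) (s1 := false) (s2 := false) (a := 2) (b := 1) (c := 3) (cn := .pnn) (n1 := ndN1q2b) (n2 := ndN3q3) (pc := pcN1) (cut := Cut.none) (xt := Ext.none) (P1 := 1239849684) (W1 := 370763052) (P2 := 1610612736) (W2 := 536870912) (P3 := 1046898278) (W3 := 26843546) (N0 := 3)
    rfl k0_mm_213_b

noncomputable def f_mm_303 : ℕ → ℕ → ℕ → ℕ → Bool := onCell 1610612736 469762048 1610612736 536870912 1046898278 26843546
    (rowNX 3 0 false false false .npn 3 0 3 (qsf 1610612736 469762048 1610612736 536870912 0) ndN1q3 ndN3q3 pcN0 Cut.none Ext.none)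

def k0_mm_303 : ∃ t, chk3 f_mm_303 t 1 1 1 = true :=
  ⟨(l 3), by decide +kernel⟩

theorem c_mm_303 : CertNX 1610612736 469762048 1610612736 536870912 1046898278 26843546 3 false false false .npn 3 0 3
    ndN1q3 ndN3q3 pcN0 Cut.none Ext.none :=
  certNX0 (fam := false) (s1 := false) (s2 := false) (a := 3) (b := 0) (c := 3) (cn := .npn) (n1 := ndN1q3) (n2 := ndN3q3) (pc := pcN0) (cut := Cut.none) (xt := Ext.none) (P1 := 1610612736) (W1 := 469762048) (P2 := 1610612736) (W2 := 536870912) (P3 := 1046898278) (W3 := 26843546) (N0 := 3)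
    rfl k0_mm_303

noncomputable def f_mm_313 : ℕ → ℕ → ℕ → ℕ → Bool := onCell 1610612736 469762048 1610612736 536870912 1046898278 26843546
    (rowNX 3 0 false false false .dn 3 1 3 (qsf 1610612736 469762048 1610612736 536870912 1) ndN1q3 ndN3q3 pcN1 Cut.none Ext.none)

def k0_mm_313 : ∃ t, chk3 f_mm_313 t 1 1 1 = true :=
  ⟨(l 3), by decide +kernel⟩

theorem c_mm_313 : CertNX 1610612736 469762048 1610612736 536870912 1046898278 26843546 3 false false false .dn 3 1 3
    ndN1q3 ndN3q3 pcN1 Cut.none Ext.none :=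
  certNX0 (fam := false) (s1 := false) (s2 := false) (a := 3) (b := 1) (c := 3) (cn := .dn) (n1 := ndN1q3) (n2 := ndN3q3) (pc := pcN1) (cut := Cut.none) (xt := Ext.none) (P1 := 1610612736) (W1 := 469762048) (P2 := 1610612736) (W2 := 536870912) (P3 := 1046898278) (W3 := 26843546) (N0 := 3)
    rfl k0_mm_313

end Pool.Agent.Strip051.G.IE1.Tab.C.NB13

namespace Pool.Agent.Strip051.G.IE1.Tab.C.NB15

open Pool.Agent.Strip051.PB Pool.Agent.Strip051.PB.T
open Pool.Agent.Strip051.G.IE1.Tab

noncomputable def f_pp_001 : ℕ → ℕ → ℕ → ℕ → Bool := onCell 67108864 469762048 536870912 469762048 1046898278 26843546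
    (rowNX 3 0 false true true .up 0 0 1 (qsf 67108864 469762048 536870912 469762048 0) ndN1q0 ndN5q1 pcN0 Cut.none Ext.none)

def k0_pp_001 : ∃ t, chk3 f_pp_001 t 1 1 1 = true :=
  ⟨(l 3), by decide +kernel⟩

theorem c_pp_001 : CertNX 67108864 469762048 536870912 469762048 1046898278 26843546 3 false true true .up 0 0 1
    ndN1q0 ndN5q1 pcN0 Cut.none Ext.none :=
  certNX0 (fam := false) (s1 := true) (s2 := true) (a := 0) (b := 0) (c := 1) (cn := .up) (n1 := ndN1q0) (n2 := ndN5q1) (pc := pcN0) (cut := Cut.none) (xt := Ext.none) (P1 := 67108864) (W1 := 469762048) (P2 := 536870912) (W2 := 469762048) (P3 := 1046898278) (W3 := 26843546) (N0 := 3)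
    rfl k0_pp_001

noncomputable def f_pp_011 : ℕ → ℕ → ℕ → ℕ → Bool := onCell 67108864 469762048 536870912 469762048 1046898278 26843546
    (rowNX 3 0 false true true .pnn 0 1 1 (qsf 67108864 469762048 536870912 469762048 1) ndN1q0 ndN5q1 pcN1 Cut.none Ext.none)

def k0_pp_011 : ∃ t, chk3 f_pp_011 t 1 1 1 = true :=
  ⟨(l 3), by decide +kernel⟩

theorem c_pp_011 : CertNX 67108864 469762048 536870912 469762048 1046898278 26843546 3 false true true .pnn 0 1 1
    ndN1q0 ndN5q1 pcN1 Cut.none Ext.none :=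
  certNX0 (fam := false) (s1 := true) (s2 := true) (a := 0) (b := 1) (c := 1) (cn := .pnn) (n1 := ndN1q0) (n2 := ndN5q1) (pc := pcN1) (cut := Cut.none) (xt := Ext.none) (P1 := 67108864) (W1 := 469762048) (P2 := 536870912) (W2 := 469762048) (P3 := 1046898278) (W3 := 26843546) (N0 := 3)
    rfl k0_pp_011

noncomputable def f_pp_012 : ℕ → ℕ → ℕ → ℕ → Bool := onCell 536870912 536870912 1073741824 536870912 1046898278 26843546
    (rowNX 3 2 false true true .pnp 0 1 2 (qsf 67108864 469762048 1073741824 536870912 1) ndN1q0 ndN5q2 pcN1 Cut.none Ext.none)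

def k0_pp_012 : ∃ t, chk3 f_pp_012 t 1 1 1 = true :=
  ⟨(a (l 3) (b (l 3) (l 3))), by decide +kernel⟩

theorem c_pp_012 : CertNX 67108864 469762048 1073741824 536870912 1046898278 26843546 3 false true true .pnp 0 1 2
    ndN1q0 ndN5q2 pcN1 Cut.none Ext.none :=
  certNX2 (fam := false) (s1 := true) (s2 := true) (a := 0) (b := 1) (c := 2) (cn := .pnp) (n1 := ndN1q0) (n2 := ndN5q2) (pc := pcN1) (cut := Cut.none) (xt := Ext.none) (P1 := 67108864) (W1 := 469762048) (P2 := 1073741824) (W2 := 536870912) (P3 := 1046898278) (W3 := 26843546) (N0 := 3)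
    rfl (fun _ => rfl) k0_pp_012

noncomputable def f_pp_022 : ℕ → ℕ → ℕ → ℕ → Bool := onCell 67108864 469762048 1073741824 536870912 1046898278 26843546
    (rowNX 3 1 false true true .pp 0 2 2 (qsf 67108864 469762048 1073741824 536870912 2) ndN1q0 ndN5q2 pcN2 Cut.none Ext.none)

def k0_pp_022 : ∃ t, chk3 f_pp_022 t 2 8 1 = true :=
  ⟨(a (b (l 3) (b (l 3) (a (b (l 3) (a (l 3) (b (a (l 3) (l 15636720)) (c (a (c (l 15617160) (l 15597128)) (l 15873648)) (a (l 15482632) (l 15842656)))))) (b (b (a (l 3) (a (l 3) (c (l 16362320) (l 16291824)))) (a (a (l 3) (l 15979120)) (a (c (l 16323336) (l 16271872)) (c (a (l 16591904) (l 16597624)) (a (l 16547136) (l 16553656)))))) (a (b (c (l 119888259927) (l 278265096999)) (c (l 16068352) (l 16032648))) (b (a (c (l 16541520) (l 16453496)) (c (l 16557448) (a (l 16535680) (l 16557416)))) (a (c (l 16477408) (l 16410776)) (c (a (l 16478832) (l 16548232)) (a (l 16429792) (l 16543968)))))))))) (b (l 3) (b (b (a (l 3) (c (b (l 15711184) (l 15781704)) (b (l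 15668952) (l 15743072)))) (a (a (a (l 3) (b (l 3) (l 16246536))) (c (c (l 15994512) (l 15935768)) (a (l 15873800) (l 282022815287)))) (c (b (l 15853512) (l 15926808)) (b (l 15816608) (l 15872472))))) (a (b (a (b (b (c (l 16386840) (l 16312816)) (c (l 16419840) (l 16388728))) (c (l 16408744) (a (l 16528808) (l 16357136)))) (a (b (l 16055872) (c (l 16212400) (l 16192496))) (c (b (l 16031544) (l 16079280)) (b (l 16003752) (l 16053432))))) (b (c (a (l 16406360) (l 16164984)) (a (a (l 16543704) (l 16379544)) (l 16143280))) (a (c (l 16465272) (l 16353024)) (l 16170232)))) (b (a (b (c (l 16004520) (l 15975152)) (l 16016832)) (c (l 15976512) (l 15944504))) (c (l 16039424) (l 16012280))))))), by decide +kernel⟩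

def k1_pp_022 : ∃ t, chk3 f_pp_022 t 3 8 1 = true :=
  ⟨(a (b (b (l 3) (c (b (a (l 3) (b (l 3) (c (c (l 15656016) (l 1011092969879)) (c (l 991228693975) (l 15588680))))) (c (b (b (c (l 847884507383) (l 852179394695)) (c (a (l 709908633479) (l 15698288)) (l 15659872))) (a (c (l 757690171783) (l 15682320)) (l 15692696))) (l 15642184))) (a (l 812450854759) (l 15566496)))) (a (b (b (c (b (a (l 15711184) (l 15707744)) (a (l 15774200) (l 15767248))) (b (l 15654824) (l 15720872))) (b (c (l 15834528) (l 15794240)) (l 15850272))) (b (c (b (l 15903848) (l 15932008)) (l 15880672)) (c (b (l 15952768) (l 15972576)) (l 15933520)))) (b (c (b (b (l 15704392) (l 15738264)) (b (l 15778992) (l 15815112))) (b (b (l 15654824) (l 15683616)) (l 15749064))) (b (b (c (l 15845016) (l 15804448)) (l 15844448)) (l 15867960))))) (b (b (c (b (l 15446416) (c (l 15540904) (b (l 15499920) (a (l 907476628023) (l 15539280))))) (b (c (l 862379224151) (b (l 3) (a (l 3) (c (l 779164227495) (l 15395392))))) (c (b (a (l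 3) (c (l 15482944) (l 15465760))) (a (l 870969349191) (l 15506512))) (l 15451736)))) (c (b (c (b (l 15605896) (c (l 15659304) (l 15560384))) (b (c (l 15550704) (l 262694768567)) (c (l 15491824) (l 15588152)))) (b (c (c (l 15651120) (l 15659240)) (l 15624272)) (l 15662928))) (a (l 15387952) (l 15537440)))) (a (b (b (c (l 15708704) (l 15645632)) (l 15722192)) (c (a (l 15815448) (l 15775432)) (l 15739160))) (c (b (l 15702816) (c (l 15750416) (l 15725456))) (b (l 15632752) (l 15700040)))))), by decide +kernel⟩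

def k2_pp_022 : ∃ t, chk3 f_pp_022 t 8 18 1 = true :=
  ⟨(b (a (a (a (b (c (c (l 15794912) (l 15779016)) (l 15754696)) (c (b (a (l 15819536) (c (l 15760296) (l 15743784))) (a (c (l 15863048) (l 15848616)) (l 15867072))) (b (a (l 15788712) (l 15718536)) (a (l 15826544) (l 15837904))))) (b (b (b (l 3) (c (a (l 15640640) (l 15564008)) (l 15502240))) (c (a (c (l 15663864) (l 15645408)) (l 15644872)) (a (l 15617200) (l 15606808)))) (c (c (l 15815120) (l 15842240)) (b (l 15740312) (l 15901432))))) (c (b (b (c (l 90896237991) (l 15586936)) (l 15742728)) (c (l 15788816) (l 15943736))) (b (b (b (l 15456128) (l 15595304)) (l 15707896)) (b (l 15865872) (l 16028704))))) (a (c (b (b (c (l 15764704) (l 15747440)) (l 15774640)) (c (b (l 16057824) (l 16215576)) (l 16002056))) (b (b (l 15721064) (l 15870936)) (b (l 15923376) (l 16130720)))) (b (c (b (l 16009624) (l 16152792)) (b (l 15983888) (l 16132592))) (b (c (l 16245064) (l 16230888)) (l 16332184))))) (a (c (a (b (b (a (l 16006888) (l 16089744))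 (l 16152424)) (a (l 16295840) (l 16401152))) (b (l 16167704) (l 16409680))) (b (a (b (a (l 15983272) (l 16068824)) (l 16202792)) (l 16216992)) (a (l 16212896) (l 16469472)))) (c (a (b (l 16222416) (l 16241288)) (b (l 16426464) (l 16229808))) (b (a (l 16256240) (l 16422040)) (a (l 16316936) (l 16212408)))))), by decide +kernel⟩

def k3_pp_022 : ∃ t, chk3 f_pp_022 t 9 18 1 = true :=
  ⟨(b (a (a (b (c (b (l 16292160) (l 16311448)) (b (l 16277280) (l 16302344))) (l 16337744)) (b (c (b (l 16433256) (l 16500072)) (b (l 16387248) (l 16453400))) (c (b (l 16400024) (l 16258696)) (l 16171336)))) (a (b (b (c (a (l 16486264) (l 16405128)) (a (l 16458400) (l 16373968))) (c (l 16331128) (l 16276792))) (c (l 16208232) (l 16170648))) (b (l 16426112) (l 16392880)))) (a (b (a (l 16025096) (c (a (l 16103888) (l 16066712)) (a (l 16081552) (l 16042880)))) (a (c (l 15774984) (l 15915776)) (c (l 15931232) (l 15902048)))) (c (b (l 16230600) (l 16134496)) (b (l 16212664) (l 16112480))))), by decide +kernel⟩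

def k4_pp_022 : ∃ t, chk3 f_pp_022 t 5 18 1 = true :=
  ⟨(b (a (b (a (l 16344672) (l 16046832)) (a (l 16493592) (l 16265632))) (b (c (l 16115600) (l 16092304)) (c (l 16268288) (l 16250360)))) (a (a (b (l 16384928) (l 16276784)) (c (b (l 16522048) (l 16664264)) (b (l 16513784) (l 16661088)))) (b (c (l 16412624) (l 16399784)) (l 16549760)))), by decide +kernel⟩

def k5_pp_022 : ∃ t, chk3 f_pp_022 t 2 19 1 = true :=
  ⟨(a (a (b (a (b (c (a (a (l 16168608) (l 16158696)) (l 15959728)) (a (b (l 16360968) (l 16198720)) (l 16131608))) (c (a (l 15950344) (l 15905720)) (a (l 15964112) (l 15877024)))) (b (c (a (c (l 16016520) (l 16110776)) (l 15863120)) (a (l 15989696) (l 15875080))) (a (c (l 15819104) (l 15786200)) (a (l 15658800) (c (l 15596648) (l 15555016)))))) (a (c (a (b (l 15691496) (a (l 15426528) (l 15398968))) (b (l 15617272) (l 15369528))) (b (a (l 15651768) (l 15577560)) (a (l 15360088) (l 15320448)))) (a (c (b (c (l 15560536) (l 15539320)) (a (l 15347344) (l 15385104))) (b (l 15506872)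 (l 15327440))) (b (a (b (l 15475584) (l 15420352)) (l 15483728)) (l 15453968))))) (b (b (a (c (a (b (l 15789976) (l 15653952)) (l 15822352)) (a (b (l 15755544) (l 15657864)) (l 15788840))) (c (l 15937304) (l 15953464))) (a (c (l 15702712) (l 15664752)) (l 15986280))) (a (l 15672664) (l 15994000)))) (a (b (b (a (l 16384408) (l 16649816)) (l 16273656)) (a (l 16371248) (l 16693560))) (b (b (l 16691288) (l 16720256)) (l 16646312)))), by decide +kernel⟩

def k6_pp_022 : ∃ t, chk3 f_pp_022 t 3 9 1 = true :=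
  ⟨(a (a (b (b (b (b (l 16003672) (l 16075896)) (l 16190048)) (l 16418312)) (a (b (l 16664432) (l 16570520)) (b (l 16635680) (c (l 16496720) (c (l 16448784) (l 16482888)))))) (b (b (l 16040584) (a (l 16374672) (c (l 16291376) (c (c (l 16329760) (l 16214976)) (l 16206472))))) (c (b (a (b (l 16593016) (l 16586192)) (b (l 16551032) (l 16509032))) (c (l 16300496) (a (l 16436520) (l 16299768)))) (b (b (c (b (l 16498752) (b (l 16557488) (l 16578448))) (a (l 16578064) (l 16546016))) (c (a (l 16537088) (l 16498656)) (l 16533552))) (a (c (c (l 16416360) (l 16405360)) (l 16436664)) (a (l 16311832) (l 16285560))))))) (a (b (b (b (c (l 15893552) (l 15831600)) (c (l 16046304) (l 15785520))) (a (c (l 16159552) (b (l 15937280) (l 16058560))) (b (c (l 16136656) (l 16073456)) (l 2)))) (a (b (c (c (l 16323832) (l 16400952)) (b (c (l 16402528) (l 16460952)) (l 16393256))) (a (c (c (l 16207264) (l 16180584)) (l 16252952)) (l 2))) (l 2))) (l 2))), by decide +kernel⟩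

def k7_pp_022 : ∃ t, chk3 f_pp_022 t 2 10 1 = true :=
  ⟨(a (b (a (b (a (a (c (b (l 15198248) (l 15023544)) (l 15049192)) (c (b (l 15180568) (a (l 15026416) (l 15107000))) (b (l 15124432) (l 15019016)))) (a (c (b (a (l 15242896) (l 15377776)) (l 15344312)) (b (l 15263144) (l 15293712))) (l 15506168))) (b (a (a (c (a (l 14885728) (l 14898760)) (l 14822072)) (c (l 15077640) (l 15017872))) (c (l 15428256) (l 15467880))) (a (b (a (c (a (l 14802064) (l 14882880)) (l 14775600)) (c (l 15138040) (l 15080768))) (a (b (c (a (l 14788976) (l 14922872)) (l 14783888)) (c (a (a (a (l 14751520) (l 14765696)) (l 14822568)) (l 14951592)) (l 14800408))) (c (b (l 15179992) (l 15205912)) (b (l 15124472) (l 15151496))))) (b (c (l 15530416) (l 15530640)) (c (b (l 15606584) (a (l 15531024) (l 15722088))) (b (l 15566336) (l 15587960))))))) (b (a (l 15734096) (l 16058328)) (b (l 15747656) (b (l 15838864) (b (l 16007096) (l 15851464)))))) (a (a (c (a (a (l 14777304) (l 14945952)) (l 15196000)) (a (l 14787704)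 (l 15141264))) (c (l 15609768) (l 15569792))) (l 15821520))) (b (a (b (a (l 16394456) (l 16653512)) (b (l 16403520) (b (l 16562424) (b (l 16565664) (l 16557688))))) (b (l 16497392) (b (l 16364864) (b (l 16303816) (b (l 16305432) (l 16315640)))))) (a (l 16513040) (b (a (l 16380080) (c (l 16327448) (c (l 16256112) (l 16308704)))) (c (c (l 16450104) (l 16427120)) (b (l 16232120) (l 16462112))))))), by decide +kernel⟩

def k8_pp_022 : ∃ t, chk3 f_pp_022 t 2 11 1 = true :=
  ⟨(b (a (a (a (c (a (l 14804824) (l 15135000)) (l 14892712)) (c (l 15538712) (l 15495728))) (l 15860352)) (a (a (l 16427816) (c (b (a (l 16686640) (l 16606344)) (l 16719400)) (b (l 16628832) (l 16718992)))) (c (b (a (l 16574504) (l 16500480)) (l 16668480)) (b (l 16557880) (l 16680416))))) (a (a (a (a (l 14706840) (l 15059792)) (c (l 15488608) (l 15443368))) (b (l 15887464) (c (l 15902600) (l 15871904)))) (a (c (b (l 16346576) (l 16535128)) (a (l 16362600) (l 16684928))) (c (l 16776904) (l 16776920))))), by decide +kernel⟩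

def k9_pp_022 : ∃ t, chk3 f_pp_022 t 3 5 1 = true :=
  ⟨(a (b (b (b (c (a (a (l 16336800) (l 16189448)) (c (l 16113136) (a (l 16175304) (c (l 16022776) (l 15856304))))) (a (c (c (b (l 16087496) (l 16051016)) (l 16155368)) (a (l 16214096) (l 16158960))) (c (a (l 15931496) (l 15876968)) (l 16016352)))) (a (a (b (c (l 16254920) (c (l 16058360) (l 16226912))) (b (c (l 16204960) (c (l 16062264) (l 16179216))) (b (c (l 16216272) (l 16054744)) (c (l 16230264) (l 16033144))))) (c (b (l 16139064) (l 16051536)) (b (l 15844048) (c (l 15901848) (l 16106224))))) (a (c (c (l 15833736) (b (l 15993880) (c (l 15971704) (l 15960592)))) (b (l 15811096) (c (l 15897760) (l 15945832)))) (l 2)))) (b (c (a (c (l 16222192) (a (l 16259336) (l 16013056))) (a (c (l 16053584) (l 15958016)) (l 2))) (a (a (c (l 16135384) (l 16270320)) (l 16072608)) (l 15886088))) (a (c (b (c (l 16291160) (l 16190560)) (l 16150072)) (l 16209984)) (l 2)))) (a (b (c (b (l 16473592) (l 16658344)) (l 16341168)) (c (l 16776856) (l 16776800)))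 (l 2))) (l 2)), by decide +kernel⟩

def k10_pp_022 : ∃ t, chk3 f_pp_022 t 1 3 1 = true :=
  ⟨(a (a (b (a (c (a (b (a (l 14762712) (l 15089272)) (b (l 14920576) (l 14920576))) (b (l 15488520) (l 15488520))) (a (b (l 14846768) (l 14846768)) (b (l 15443280) (l 15443280)))) (b (c (l 15860656) (l 15871904)) (b (l 15887280) (l 15887280)))) (a (a (c (a (l 14762712) (l 15089272)) (l 14846768)) (c (l 15488520) (l 15443280))) (l 15866312))) (b (a (b (c (l 16472216) (l 16526632)) (b (l 16488944) (l 2))) (b (l 16777216) (l 2))) (l 2))) (l 2)), by decide +kernel⟩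

theorem s11_pp_022 : ∃ t, chk3 f_pp_022 t 2 5 1 = true := ex3_b k7_pp_022 k8_pp_022

theorem s12_pp_022 : ∃ t, chk3 f_pp_022 t 1 5 1 = true := ex3_a s11_pp_022 k9_pp_022

theorem s13_pp_022 : ∃ t, chk3 f_pp_022 t 4 18 1 = true := ex3_a k2_pp_022 k3_pp_022

theorem s14_pp_022 : ∃ t, chk3 f_pp_022 t 2 18 1 = true := ex3_a s13_pp_022 k4_pp_022

theorem s15_pp_022 : ∃ t, chk3 f_pp_022 t 2 9 1 = true := ex3_b s14_pp_022 k5_pp_022

theorem s16_pp_022 : ∃ t, chk3 f_pp_022 t 1 9 1 = true := ex3_a s15_pp_022 k6_pp_022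

theorem s17_pp_022 : ∃ t, chk3 f_pp_022 t 1 8 1 = true := ex3_a k0_pp_022 k1_pp_022

theorem s18_pp_022 : ∃ t, chk3 f_pp_022 t 1 4 1 = true := ex3_b s17_pp_022 s16_pp_022

theorem s19_pp_022 : ∃ t, chk3 f_pp_022 t 1 2 1 = true := ex3_b s18_pp_022 s12_pp_022

theorem s20_pp_022 : ∃ t, chk3 f_pp_022 t 1 1 1 = true := ex3_b s19_pp_022 k10_pp_022

theorem c_pp_022 : CertNX 67108864 469762048 1073741824 536870912 1046898278 26843546 3 false true true .pp 0 2 2
    ndN1q0 ndN5q2 pcN2 Cut.none Ext.none :=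
  certNX1 (fam := false) (s1 := true) (s2 := true) (a := 0) (b := 2) (c := 2) (cn := .pp) (n1 := ndN1q0) (n2 := ndN5q2) (pc := pcN2) (cut := Cut.none) (xt := Ext.none) (P1 := 67108864) (W1 := 469762048) (P2 := 1073741824) (W2 := 536870912) (P3 := 1046898278) (W3 := 26843546) (N0 := 3)
    rfl (fun _ => rfl) s20_pp_022

noncomputable def f_pp_023 : ℕ → ℕ → ℕ → ℕ → Bool := onCell 1073741824 536870912 0 1230186008 1046898278 26843546
    (rowNX 3 2 false true true .up 0 2 3 (qsf 67108864 469762048 0 1230186008 2) ndN1q0 ndN5q3 pcN2 Cut.none Ext.none)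

def k0_pp_023 : ∃ t, chk3 f_pp_023 t 2 2 1 = true :=
  ⟨(l 2), by decide +kernel⟩

def k1_pp_023 : ∃ t, chk3 f_pp_023 t 4 3 1 = true :=
  ⟨(b (l 2) (b (l 2) (a (b (l 2) (a (b (l 2) (a (b (l 2) (c (a (l 15449096) (a (l 15511856) (l 15559904))) (a (c (l 15413512) (a (l 3) (l 15208936))) (c (a (c (l 15478528) (l 15464000)) (l 15503400)) (l 15444784))))) (c (a (l 15466592) (l 15651776)) (l 15536624)))) (c (a (b (l 15672712) (l 15692288)) (c (l 15595344) (l 15723728))) (a (l 15630528) (l 15695712))))) (a (b (b (l 2) (c (c (a (l 15779056) (l 15949664)) (a (l 15745224) (c (l 15960128) (l 15962400)))) (a (l 15798760) (l 15928544)))) (c (b (c (l 15972688) (a (l 15830160) (c (l 16059368) (l 16056608)))) (c (l 16066720) (l 15969104))) (a (c (l 15778744) (l 15851272)) (c (b (l 15976136) (l 16004624)) (l 16042328))))) (c (c (a (b (a (b (c (l 15936544) (l 15916040)) (l 15929208)) (b (l 15883976) (l 16009448))) (a (l 16251200) (l 16237664))) (b (b (l 15714568) (l 15866312)) (b (l 15997472) (l 16193136))))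 (b (b (l 15771592) (b (l 15889712) (a (a (l 15864208) (l 16064736)) (l 15876336)))) (c (b (a (a (l 16192896) (l 16152088)) (l 16009424)) (l 16213176)) (a (b (a (l 16206088) (l 16170360)) (l 16126224)) (b (l 15933040) (l 16162752)))))) (b (a (l 15907552) (l 15726200)) (a (a (c (b (l 16298400) (l 16378136)) (b (l 16184888) (l 16412536))) (c (c (l 16049352) (l 16185008)) (l 16214360))) (b (l 15985600) (c (b (l 16113392) (l 16134784)) (l 16162112)))))))))), by decide +kernel⟩

def k2_pp_023 : ∃ t, chk3 f_pp_023 t 5 3 1 = true :=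
  ⟨(a (b (l 2) (b (b (a (l 2) (a (l 2) (c (l 15689280) (l 15650920)))) (a (b (l 2) (a (l 15096104) (a (l 15207112) (l 15318072)))) (c (l 15429576) (l 15621792)))) (c (c (a (a (b (b (l 15470288) (l 15674760)) (b (l 15801904) (l 16004024))) (b (c (a (l 15514656) (l 15369048)) (l 15517480)) (a (b (l 15727128) (l 15904848)) (b (l 15649728) (l 15910656))))) (b (l 15887576) (b (a (l 15941616) (l 16167288)) (a (l 16038720) (l 16235456))))) (a (b (a (l 15536288) (l 15501040)) (b (a (c (l 15824064) (l 15799992)) (c (a (l 15736576) (l 15771424)) (l 15729584))) (a (c (l 15977008) (l 15978552)) (a (c (l 15878288) (l 15888360)) (c (l 15899760) (l 15910408)))))) (b (l 15872072) (b (l 16028512) (a (l 15833776) (l 16193896)))))) (a (b (a (l 15503760) (l 15425640)) (c (b (l 15581608) (a (l 15848920) (a (l 15939928) (l 15821808)))) (a (l 15867568) (l 15783312)))) (b (l 15806400) (a (l 15783104) (l 16174792))))))) (a (b (l 2) (b (b (a (c (l 16090768) (l 16088096)) (l 16532624)) (c (l 16378768) (l 16364624)))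 (b (c (l 16450512) (l 16439048)) (c (a (l 16439992) (l 16652888)) (l 16518296))))) (b (l 16776600) (c (b (l 16776600) (l 16776856)) (b (l 16776576) (l 16776760)))))), by decide +kernel⟩

def k3_pp_023 : ∃ t, chk3 f_pp_023 t 3 1 1 = true :=
  ⟨(b (a (l 2) (b (l 16746096) (b (l 16705992) (l 16730136)))) (b (a (l 16777184) (l 16777184)) (b (a (a (l 16777216) (l 16777216)) (b (l 16743768) (a (l 16745040) (b (l 16541776) (l 16220848))))) (a (a (b (l 16777216) (a (l 16777128) (l 16719216))) (b (a (l 16777216) (l 16737544)) (a (b (l 16707632) (l 16419576)) (b (l 16457456) (l 16047256))))) (b (a (b (l 16578544) (a (l 16474208) (l 16099456))) (b (l 15937856) (a (l 15761088) (c (l 15385760) (l 15336904))))) (b (c (a (l 15854448) (a (l 15359528) (b (a (l 15116832) (l 14689680)) (a (l 14583192) (c (l 14536088) (l 14507512)))))) (a (l 15908888) (a (l 15309752) (l 161090242279)))) (b (a (a (l 15797248) (l 15346072)) (b (a (l 14695232) (a (l 241620416311) (l 1))) (a (a (l 14916816) (l 14438248))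 (l 1)))) (a (a (l 15625016) (a (l 15311912) (l 14962288))) (a (c (a (l 256653093927) (c (l 14496112) (l 14470392))) (l 14510288)) (l 1)))))))))), by decide +kernel⟩

theorem s4_pp_023 : ∃ t, chk3 f_pp_023 t 2 3 1 = true := ex3_a k1_pp_023 k2_pp_023

theorem s5_pp_023 : ∃ t, chk3 f_pp_023 t 2 1 1 = true := ex3_b k0_pp_023 s4_pp_023

theorem s6_pp_023 : ∃ t, chk3 f_pp_023 t 1 1 1 = true := ex3_a s5_pp_023 k3_pp_023

theorem c_pp_023 : CertNX 67108864 469762048 0 1230186008 1046898278 26843546 3 false true true .up 0 2 3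
    ndN1q0 ndN5q3 pcN2 Cut.none Ext.none :=
  certNX2 (fam := false) (s1 := true) (s2 := true) (a := 0) (b := 2) (c := 3) (cn := .up) (n1 := ndN1q0) (n2 := ndN5q3) (pc := pcN2) (cut := Cut.none) (xt := Ext.none) (P1 := 67108864) (W1 := 469762048) (P2 := 0) (W2 := 1230186008) (P3 := 1046898278) (W3 := 26843546) (N0 := 3)
    rfl (fun _ => rfl) s6_pp_023

noncomputable def f_pp_033 : ℕ → ℕ → ℕ → ℕ → Bool := onCell 67108864 469762048 0 1230186008 1046898278 26843546
    (rowNX 3 0 false true true .pnn 0 3 3 (qsf 67108864 469762048 0 1230186008 3) ndN1q0 ndN5q3 pcN3 Cut.none Ext.none)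

def k0_pp_033 : ∃ t, chk3 f_pp_033 t 1 1 1 = true :=
  ⟨(b (a (b (l 4) (b (a (l 4) (a (c (l 16488576) (l 16448392)) (c (l 16713816) (l 16692592)))) (a (a (l 4) (b (l 4) (a (l 15733160) (l 16013864)))) (a (c (l 16434488) (l 16292672)) (l 16730136))))) (b (a (c (l 16754832) (l 16743304)) (b (l 16759448) (l 16753712))) (a (b (a (l 16705992) (l 16705992)) (a (l 16730136) (l 16730136))) (b (l 16705992) (l 16730136))))) (b (a (a (a (b (c (a (a (l 14762672) (l 15089232)) (l 15488480)) (a (b (l 14846752) (l 14846688)) (l 15422264))) (a (b (l 14825480) (l 14888424)) (c (l 15488504) (l 15443264)))) (b (b (l 15866296) (l 15887208)) (b (l 15887256) (l 15887280)))) (b (a (b (l 16530872) (l 16530816)) (l 16777168)) (a (l 16530872) (l 16777200)))) (b (a (l 16777168) (l 1)) (l 16777200))) (a (a (a (b (a (b (l 14888424) (l 14888424)) (l 15319152)) (a (b (l 14888424) (c (l 14920576) (l 14846768))) (c (l 15488520) (l 15443280)))) (b (l 15887280) (b (l 15887280) (l 1)))) (b (a (l 16530888) (l 16777216))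 (l 1))) (l 1)))), by decide +kernel⟩

theorem c_pp_033 : CertNX 67108864 469762048 0 1230186008 1046898278 26843546 3 false true true .pnn 0 3 3
    ndN1q0 ndN5q3 pcN3 Cut.none Ext.none :=
  certNX0 (fam := false) (s1 := true) (s2 := true) (a := 0) (b := 3) (c := 3) (cn := .pnn) (n1 := ndN1q0) (n2 := ndN5q3) (pc := pcN3) (cut := Cut.none) (xt := Ext.none) (P1 := 67108864) (W1 := 469762048) (P2 := 0) (W2 := 1230186008) (P3 := 1046898278) (W3 := 26843546) (N0 := 3)
    rfl k0_pp_033

noncomputable def f_pp_101 : ℕ → ℕ → ℕ → ℕ → Bool := onCell 536870912 536870912 536870912 469762048 1046898278 26843546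
    (rowNX 3 0 false true true .npn 1 0 1 (qsf 536870912 536870912 536870912 469762048 0) ndN1q1 ndN5q1 pcN0 Cut.none Ext.none)

def k0_pp_101 : ∃ t, chk3 f_pp_101 t 1 1 1 = true :=
  ⟨(l 3), by decide +kernel⟩

theorem c_pp_101 : CertNX 536870912 536870912 536870912 469762048 1046898278 26843546 3 false true true .npn 1 0 1
    ndN1q1 ndN5q1 pcN0 Cut.none Ext.none :=
  certNX0 (fam := false) (s1 := true) (s2 := true) (a := 1) (b := 0) (c := 1) (cn := .npn) (n1 := ndN1q1) (n2 := ndN5q1) (pc := pcN0) (cut := Cut.none) (xt := Ext.none) (P1 := 536870912) (W1 := 536870912) (P2 := 536870912) (W2 := 469762048) (P3 := 1046898278) (W3 := 26843546) (N0 := 3)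
    rfl k0_pp_101

noncomputable def f_pp_102 : ℕ → ℕ → ℕ → ℕ → Bool := onCell 536870912 536870912 0 536870912 1046898278 26843546
    (rowNX 3 1 false true true .npp 1 0 2 (qsf 536870912 536870912 1073741824 536870912 0) ndN1q1 ndN5q2 pcN0 Cut.none Ext.none)

def k0_pp_102 : ∃ t, chk3 f_pp_102 t 1 1 1 = true :=
  ⟨(l 3), by decide +kernel⟩

theorem c_pp_102 : CertNX 536870912 536870912 1073741824 536870912 1046898278 26843546 3 false true true .npp 1 0 2
    ndN1q1 ndN5q2 pcN0 Cut.none Ext.none :=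
  certNX1 (fam := false) (s1 := true) (s2 := true) (a := 1) (b := 0) (c := 2) (cn := .npp) (n1 := ndN1q1) (n2 := ndN5q2) (pc := pcN0) (cut := Cut.none) (xt := Ext.none) (P1 := 536870912) (W1 := 536870912) (P2 := 1073741824) (W2 := 536870912) (P3 := 1046898278) (W3 := 26843546) (N0 := 3)
    rfl (fun _ => rfl) k0_pp_102

noncomputable def f_pp_112 : ℕ → ℕ → ℕ → ℕ → Bool := onCell 536870912 536870912 1073741824 536870912 1046898278 26843546
    (rowNX 3 2 false true true .dn 1 1 2 (qsf 536870912 536870912 1073741824 536870912 1) ndN1q1 ndN5q2 pcN1 Cut.none Ext.none)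

def k0_pp_112 : ∃ t, chk3 f_pp_112 t 1 1 1 = true :=
  ⟨(a (l 3) (b (l 3) (l 3))), by decide +kernel⟩

theorem c_pp_112 : CertNX 536870912 536870912 1073741824 536870912 1046898278 26843546 3 false true true .dn 1 1 2
    ndN1q1 ndN5q2 pcN1 Cut.none Ext.none :=
  certNX2 (fam := false) (s1 := true) (s2 := true) (a := 1) (b := 1) (c := 2) (cn := .dn) (n1 := ndN1q1) (n2 := ndN5q2) (pc := pcN1) (cut := Cut.none) (xt := Ext.none) (P1 := 536870912) (W1 := 536870912) (P2 := 1073741824) (W2 := 536870912) (P3 := 1046898278) (W3 := 26843546) (N0 := 3)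
    rfl (fun _ => rfl) k0_pp_112

noncomputable def f_pp_113 : ℕ → ℕ → ℕ → ℕ → Bool := onCell 536870912 536870912 0 1230186008 1046898278 26843546
    (rowNX 3 2 false true true .nn 1 1 3 (qsf 536870912 536870912 0 1230186008 1) ndN1q1 ndN5q3 pcN1 Cut.none Ext.none)

def k0_pp_113 : ∃ t, chk3 f_pp_113 t 1 2 1 = true :=
  ⟨(a (l 2) (a (l 2) (a (b (l 2) (b (l 3) (l 3))) (a (b (l 2) (b (a (b (l 2) (l 14742080)) (a (l 14821792) (c (l 15234744) (l 14461632)))) (a (b (l 14840056) (l 15007312)) (a (l 14860336) (b (l 14793328) (l 14893616)))))) (b (b (a (l 2) (c (l 16693936) (a (l 2) (c (l 16746240) (b (l 16728560) (l 16063680)))))) (a (c (a (c (l 16452064) (l 16160416)) (c (l 16623720) (l 16458224))) (l 14849992)) (c (l 16611112) (a (c (b (l 16279768) (l 15184256)) (l 14412240)) (c (l 15526352) (b (l 14649576) (l 14338280))))))) (b (a (c (a (b (l 15482352) (l 15148968)) (c (l 15479240) (b (l 15282120) (l 14999888)))) (l 14494160)) (c (a (l 15262928) (l 15208632)) (a (c (b (l 14786680) (l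 14690760)) (l 14340592)) (c (l 14702728) (b (l 14309824) (l 14418112)))))) (a (c (a (b (l 15036312) (l 15056304)) (c (l 15104640) (b (l 14935728) (l 14987368)))) (l 14701608)) (c (b (l 15001440) (l 15022840)) (a (c (b (l 14740216) (l 14857280)) (l 14653648)) (c (l 14799224) (b (l 14578424) (l 14649464)))))))))))), by decide +kernel⟩

def k1_pp_113 : ∃ t, chk3 f_pp_113 t 1 3 1 = true :=
  ⟨(a (b (l 3) (a (l 3) (l 3))) (a (b (l 3) (l 3)) (b (a (l 3) (a (b (a (l 15345304) (a (l 15237448) (b (l 15074336) (l 15325360)))) (a (l 3) (b (a (l 3) (l 15481848)) (l 15576216)))) (b (a (c (a (b (l 15186016) (l 15430888)) (c (l 15465352) (b (l 15148536) (l 15312544)))) (b (l 15019640) (l 15282880))) (c (b (l 15169408) (l 15317256)) (c (a (b (l 15074432) (l 15157976)) (l 15158576)) (a (l 15126208) (b (l 14791560) (l 15109992)))))) (a (c (c (a (l 15331200) (l 15491352)) (b (l 15453904) (l 15425968))) (l 15438152)) (c (b (l 15382640) (l 15426904)) (a (b (l 15295848) (l 15330232)) (c (l 15342280) (b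 (l 15290536) (l 15340256))))))))) (a (l 3) (a (b (l 3) (l 3)) (b (a (c (a (l 15567216) (c (l 15529624) (l 15510576))) (l 15486472)) (c (l 15438520) (a (c (l 15426960) (l 15406520)) (c (l 15378408) (l 15330856))))) (a (l 3) (c (l 15403592) (a (c (l 799565470519) (l 15411520)) (b (l 15120640) (l 15145008))))))))))), by decide +kernel⟩

theorem s2_pp_113 : ∃ t, chk3 f_pp_113 t 1 1 1 = true := ex3_b k0_pp_113 k1_pp_113

theorem c_pp_113 : CertNX 536870912 536870912 0 1230186008 1046898278 26843546 3 false true true .nn 1 1 3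
    ndN1q1 ndN5q3 pcN1 Cut.none Ext.none :=
  certNX2 (fam := false) (s1 := true) (s2 := true) (a := 1) (b := 1) (c := 3) (cn := .nn) (n1 := ndN1q1) (n2 := ndN5q3) (pc := pcN1) (cut := Cut.none) (xt := Ext.none) (P1 := 536870912) (W1 := 536870912) (P2 := 0) (W2 := 1230186008) (P3 := 1046898278) (W3 := 26843546) (N0 := 3)
    rfl (fun _ => rfl) s2_pp_113

noncomputable def f_pp_123 : ℕ → ℕ → ℕ → ℕ → Bool := onCell 1073741824 536870912 0 1230186008 1046898278 26843546
    (rowNX 3 2 false true true .npn 1 2 3 (qsf 536870912 536870912 0 1230186008 2) ndN1q1 ndN5q3 pcN2 Cut.none Ext.none)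

def k0_pp_123 : ∃ t, chk3 f_pp_123 t 4 2 1 = true :=
  ⟨(a (b (a (b (l 16333064) (l 16088864)) (b (l 16227184) (l 15871168))) (a (a (a (b (c (b (l 15940136) (l 15666336)) (b (l 15300360) (l 15264632))) (c (b (l 15544104) (l 15517288)) (b (l 15288896) (l 15354144)))) (b (b (l 15652448) (c (l 15683120) (l 15386952))) (c (b (l 15587144) (l 15555928)) (b (l 15384000) (l 15417688))))) (b (a (c (l 15733192) (l 15467088)) (l 15585608)) (c (b (l 15569352) (l 15541168)) (b (l 15419688) (l 15435264))))) (b (l 15462120) (a (b (a (l 15585248) (l 15371000)) (c (l 15418208) (l 15339888))) (b (l 15258816) (a (b (l 15259584) (l 15248040)) (l 15162944))))))) (b (b (l 15143568) (a (l 15443208) (l 14914392))) (b (a (l 15131992) (l 14758416)) (b (l 14860688) (l 14792504))))), by decide +kernel⟩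

def k1_pp_123 : ∃ t, chk3 f_pp_123 t 8 3 1 = true :=
  ⟨(b (a (b (a (c (b (a (l 15607368) (l 15625992)) (l 15657392)) (b (a (l 15518736) (l 15542360)) (a (l 15596800) (l 15589320)))) (c (b (l 15578296) (l 15605296)) (b (l 15503008) (l 15537496)))) (c (a (b (l 15668744) (a (l 15600704) (l 15665744))) (l 15634520)) (a (b (a (l 15613120) (l 15612080)) (l 15596464)) (l 15543984)))) (b (a (c (l 15463296) (l 15403000)) (c (b (l 15257864) (l 15324600)) (b (l 15196048) (l 15270784)))) (c (a (l 15542784) (l 15421368)) (a (l 15485392) (l 15370888))))) (a (b (c (a (a (b (l 15406640) (l 15453824)) (c (b (l 15634424) (l 15635488)) (l 15582208))) (c (l 15661736) (l 15611664))) (a (c (b (l 15575968) (a (l 15504592) (l 15544552))) (l 15519000)) (l 15551120))) (a (c (b (a (l 15525576) (c (l 15606336) (l 15585896))) (a (l 15453880) (a (l 15516712) (l 15398608)))) (b (a (c (l 15480600) (l 15302504)) (l 15479832)) (a (c (l 15334456) (a (c (l 15378888) (b (l 15131920) (l 931635464711))) (c (b (l 15424312)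 (l 15410256)) (l 15396272)))) (c (a (c (l 15486576) (l 15468152)) (l 15507088)) (l 15454392))))) (b (c (l 15638384) (l 15538856)) (c (b (l 15632160) (a (l 15487568) (l 15651776))) (l 15537480))))) (b (c (a (c (l 15637016) (l 15592568)) (b (l 15515304) (c (c (l 15604856) (l 15592456)) (l 15596248)))) (a (l 15538464) (l 15500832))) (c (a (b (l 15437104) (b (l 15672712) (l 15692288))) (b (c (l 15654992) (l 15644200)) (c (l 15616312) (l 15723728)))) (b (l 15510880) (a (l 15630528) (l 15695712))))))), by decide +kernel⟩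

def k2_pp_123 : ∃ t, chk3 f_pp_123 t 9 3 1 = true :=
  ⟨(b (a (b (a (b (c (l 15075360) (l 15010736)) (c (l 15132760) (l 15074792))) (b (l 14858456) (c (a (l 14976424) (l 14878560)) (l 14868968)))) (c (a (l 15310480) (b (l 15081952) (l 15276088))) (a (l 15217032) (b (l 15022144) (l 15223384))))) (b (a (b (l 14695400) (a (c (l 14787800) (l 14716464)) (l 14651024))) (l 14538896)) (b (a (a (c (l 14901976) (l 14836768)) (c (l 14775752) (l 14705024))) (c (l 14455536) (l 14546664))) (a (c (a (l 15165160) (l 15043896)) (l 15047168)) (c (l 14840664) (l 14772424)))))) (a (b (c (b (a (l 15488440) (l 15476544)) (c (b (l 15623272) (a (l 15669208) (l 15619632))) (l 15647000))) (b (l 15319880) (l 15428600))) (a (b (c (a (c (l 15695200) (l 15718152)) (c (l 15784680) (l 15724408))) (l 15563912)) (c (c (l 15890296) (l 226590645063)) (l 244844350119))) (b (c (c (b (l 15761904) (l 15949664)) (b (l 15837512) (c (l 15960128) (l 15962400)))) (l 15871600)) (l 1)))) (b (a (c (b (a (l 15428008) (l 15326272))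 (a (l 15700704) (l 15619216))) (b (l 15329312) (l 15622032))) (c (b (l 15135360) (l 15441392)) (l 15049728))) (b (b (c (c (a (a (c (l 15936544) (l 15916040)) (l 15883976)) (l 15714568)) (l 15771592)) (l 15703288)) (c (a (a (c (l 15929208) (c (l 16072456) (l 16049432))) (l 1)) (l 1)) (l 15846024))) (l 1))))), by decide +kernel⟩

def k3_pp_123 : ∃ t, chk3 f_pp_123 t 5 1 1 = true :=
  ⟨(b (a (b (a (a (b (l 14647560) (l 14572112)) (b (l 14798600) (l 14762624))) (l 15413264)) (a (b (a (l 14520568) (l 14730336)) (a (l 14457160) (l 14679688))) (b (l 15460920) (l 15434416)))) (b (a (l 16141920) (l 16746360)) (a (b (l 16301328) (l 16356552)) (l 16716768)))) (b (a (b (a (a (l 14396592) (l 14621456)) (l 15383016)) (a (a (b (b (l 14384696) (b (l 14381008) (l 14400960))) (c (l 14337744) (l 14490872))) (b (l 14606672) (a (c (l 14581160) (l 14503392)) (c (l 14681800) (l 14737832))))) (b (l 15372608) (b (l 15367208) (a (c (l 15165944) (l 15108968)) (l 15450080)))))) (a (b (l 16314392) (l 16309160))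 (l 16776600))) (b (b (a (a (a (c (l 14885312) (l 14818912)) (c (a (l 14854616) (l 15016824)) (l 14828448))) (a (c (l 15299304) (l 15246608)) (c (l 15689280) (l 15650920)))) (a (a (c (l 16090768) (l 16088096)) (l 16532624)) (l 16839480))) (a (a (a (c (l 15208480) (l 15153416)) (c (a (l 15157408) (l 15277192)) (l 15141056))) (c (l 15429576) (l 15621792))) (l 1))) (a (a (a (b (b (l 15184176) (l 1)) (l 1)) (l 1)) (l 1)) (l 1))))), by decide +kernel⟩

def k4_pp_123 : ∃ t, chk3 f_pp_123 t 3 1 1 = true :=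
  ⟨(b (a (b (a (l 16746096) (l 16745752)) (b (l 16705992) (l 16730136))) (b (l 16746096) (b (l 16705992) (l 16730136)))) (b (a (l 16777184) (l 16777184)) (l 1))), by decide +kernel⟩

theorem s5_pp_123 : ∃ t, chk3 f_pp_123 t 4 3 1 = true := ex3_a k1_pp_123 k2_pp_123

theorem s6_pp_123 : ∃ t, chk3 f_pp_123 t 4 1 1 = true := ex3_b k0_pp_123 s5_pp_123

theorem s7_pp_123 : ∃ t, chk3 f_pp_123 t 2 1 1 = true := ex3_a s6_pp_123 k3_pp_123

theorem s8_pp_123 : ∃ t, chk3 f_pp_123 t 1 1 1 = true := ex3_a s7_pp_123 k4_pp_123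

theorem c_pp_123 : CertNX 536870912 536870912 0 1230186008 1046898278 26843546 3 false true true .npn 1 2 3
    ndN1q1 ndN5q3 pcN2 Cut.none Ext.none :=
  certNX2 (fam := false) (s1 := true) (s2 := true) (a := 1) (b := 2) (c := 3) (cn := .npn) (n1 := ndN1q1) (n2 := ndN5q3) (pc := pcN2) (cut := Cut.none) (xt := Ext.none) (P1 := 536870912) (W1 := 536870912) (P2 := 0) (W2 := 1230186008) (P3 := 1046898278) (W3 := 26843546) (N0 := 3)
    rfl (fun _ => rfl) s8_pp_123

noncomputable def f_pp_133 : ℕ → ℕ → ℕ → ℕ → Bool := onCell 536870912 536870912 0 1230186008 1046898278 26843546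
    (rowNX 3 0 false true true .dn 1 3 3 (qsf 536870912 536870912 0 1230186008 3) ndN1q1 ndN5q3 pcN3 Cut.none Ext.none)

def k0_pp_133 : ∃ t, chk3 f_pp_133 t 1 1 1 = true :=
  ⟨(b (a (b (a (l 893387013527) (l 1)) (l 1)) (l 1)) (l 1)), by decide +kernel⟩

theorem c_pp_133 : CertNX 536870912 536870912 0 1230186008 1046898278 26843546 3 false true true .dn 1 3 3
    ndN1q1 ndN5q3 pcN3 Cut.none Ext.none :=
  certNX0 (fam := false) (s1 := true) (s2 := true) (a := 1) (b := 3) (c := 3) (cn := .dn) (n1 := ndN1q1) (n2 := ndN5q3) (pc := pcN3) (cut := Cut.none) (xt := Ext.none) (P1 := 536870912) (W1 := 536870912) (P2 := 0) (W2 := 1230186008) (P3 := 1046898278) (W3 := 26843546) (N0 := 3)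
    rfl k0_pp_133

noncomputable def f_pp_202_a : ℕ → ℕ → ℕ → ℕ → Bool := onCell 0 420477299 1073741824 536870912 1046898278 26843546
    (rowNX 3 0 false true true .pp 2 0 2 (qsf 0 420477299 1073741824 536870912 0) ndN1q2a ndN5q2 pcN0 Cut.none Ext.none)

def k0_pp_202_a : ∃ t, chk3 f_pp_202_a t 1 1 1 = true :=
  ⟨(l 3), by decide +kernel⟩

theorem c_pp_202_a : CertNX 0 420477299 1073741824 536870912 1046898278 26843546 3 false true true .pp 2 0 2
    ndN1q2a ndN5q2 pcN0 Cut.none Ext.none :=
  certNX0 (fam := false) (s1 := true) (s2 := true) (a := 2) (b := 0) (c := 2) (cn := .pp) (n1 := ndN1q2a) (n2 := ndN5q2) (pc := pcN0) (cut := Cut.none) (xt := Ext.none) (P1 := 0) (W1 := 420477299) (P2 := 1073741824) (W2 := 536870912) (P3 := 1046898278) (W3 := 26843546) (N0 := 3)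
    rfl k0_pp_202_a

noncomputable def f_pp_202_b : ℕ → ℕ → ℕ → ℕ → Bool := onCell 1239849684 370763052 1073741824 536870912 1046898278 26843546
    (rowNX 3 0 false true true .pp 2 0 2 (qsf 1239849684 370763052 1073741824 536870912 0) ndN1q2b ndN5q2 pcN0 Cut.none Ext.none)

def k0_pp_202_b : ∃ t, chk3 f_pp_202_b t 1 1 1 = true :=
  ⟨(l 3), by decide +kernel⟩

theorem c_pp_202_b : CertNX 1239849684 370763052 1073741824 536870912 1046898278 26843546 3 false true true .pp 2 0 2
    ndN1q2b ndN5q2 pcN0 Cut.none Ext.none :=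
  certNX0 (fam := false) (s1 := true) (s2 := true) (a := 2) (b := 0) (c := 2) (cn := .pp) (n1 := ndN1q2b) (n2 := ndN5q2) (pc := pcN0) (cut := Cut.none) (xt := Ext.none) (P1 := 1239849684) (W1 := 370763052) (P2 := 1073741824) (W2 := 536870912) (P3 := 1046898278) (W3 := 26843546) (N0 := 3)
    rfl k0_pp_202_b

noncomputable def f_pp_203_a : ℕ → ℕ → ℕ → ℕ → Bool := onCell 0 420477299 0 1230186008 1046898278 26843546
    (rowNX 3 0 false true true .up 2 0 3 (qsf 0 420477299 0 1230186008 0) ndN1q2a ndN5q3 pcN0 Cut.none Ext.none)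

def k0_pp_203_a : ∃ t, chk3 f_pp_203_a t 1 1 1 = true :=
  ⟨(b (l 2) (l 3)), by decide +kernel⟩

theorem c_pp_203_a : CertNX 0 420477299 0 1230186008 1046898278 26843546 3 false true true .up 2 0 3
    ndN1q2a ndN5q3 pcN0 Cut.none Ext.none :=
  certNX0 (fam := false) (s1 := true) (s2 := true) (a := 2) (b := 0) (c := 3) (cn := .up) (n1 := ndN1q2a) (n2 := ndN5q3) (pc := pcN0) (cut := Cut.none) (xt := Ext.none) (P1 := 0) (W1 := 420477299) (P2 := 0) (W2 := 1230186008) (P3 := 1046898278) (W3 := 26843546) (N0 := 3)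
    rfl k0_pp_203_a

noncomputable def f_pp_203_b : ℕ → ℕ → ℕ → ℕ → Bool := onCell 1239849684 370763052 0 1230186008 1046898278 26843546
    (rowNX 3 0 false true true .up 2 0 3 (qsf 1239849684 370763052 0 1230186008 0) ndN1q2b ndN5q3 pcN0 Cut.none Ext.none)

def k0_pp_203_b : ∃ t, chk3 f_pp_203_b t 1 1 1 = true :=
  ⟨(b (l 3) (l 3)), by decide +kernel⟩

theorem c_pp_203_b : CertNX 1239849684 370763052 0 1230186008 1046898278 26843546 3 false true true .up 2 0 3
    ndN1q2b ndN5q3 pcN0 Cut.none Ext.none :=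
  certNX0 (fam := false) (s1 := true) (s2 := true) (a := 2) (b := 0) (c := 3) (cn := .up) (n1 := ndN1q2b) (n2 := ndN5q3) (pc := pcN0) (cut := Cut.none) (xt := Ext.none) (P1 := 1239849684) (W1 := 370763052) (P2 := 0) (W2 := 1230186008) (P3 := 1046898278) (W3 := 26843546) (N0 := 3)
    rfl k0_pp_203_b

noncomputable def f_pp_213_a : ℕ → ℕ → ℕ → ℕ → Bool := onCell 0 420477299 0 1230186008 1046898278 26843546
    (rowNX 3 0 false true true .pnn 2 1 3 (qsf 0 420477299 0 1230186008 1) ndN1q2a ndN5q3 pcN1 Cut.none Ext.none)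

def k0_pp_213_a : ∃ t, chk3 f_pp_213_a t 1 1 1 = true :=
  ⟨(b (l 3) (l 3)), by decide +kernel⟩

theorem c_pp_213_a : CertNX 0 420477299 0 1230186008 1046898278 26843546 3 false true true .pnn 2 1 3
    ndN1q2a ndN5q3 pcN1 Cut.none Ext.none :=
  certNX0 (fam := false) (s1 := true) (s2 := true) (a := 2) (b := 1) (c := 3) (cn := .pnn) (n1 := ndN1q2a) (n2 := ndN5q3) (pc := pcN1) (cut := Cut.none) (xt := Ext.none) (P1 := 0) (W1 := 420477299) (P2 := 0) (W2 := 1230186008) (P3 := 1046898278) (W3 := 26843546) (N0 := 3)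
    rfl k0_pp_213_a

noncomputable def f_pp_213_b : ℕ → ℕ → ℕ → ℕ → Bool := onCell 1239849684 370763052 0 1230186008 1046898278 26843546
    (rowNX 3 0 false true true .pnn 2 1 3 (qsf 1239849684 370763052 0 1230186008 1) ndN1q2b ndN5q3 pcN1 Cut.none Ext.none)

def k0_pp_213_b : ∃ t, chk3 f_pp_213_b t 1 1 1 = true :=
  ⟨(b (l 3) (l 3)), by decide +kernel⟩

theorem c_pp_213_b : CertNX 1239849684 370763052 0 1230186008 1046898278 26843546 3 false true true .pnn 2 1 3
    ndN1q2b ndN5q3 pcN1 Cut.none Ext.none :=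
  certNX0 (fam := false) (s1 := true) (s2 := true) (a := 2) (b := 1) (c := 3) (cn := .pnn) (n1 := ndN1q2b) (n2 := ndN5q3) (pc := pcN1) (cut := Cut.none) (xt := Ext.none) (P1 := 1239849684) (W1 := 370763052) (P2 := 0) (W2 := 1230186008) (P3 := 1046898278) (W3 := 26843546) (N0 := 3)
    rfl k0_pp_213_b

noncomputable def f_pp_303 : ℕ → ℕ → ℕ → ℕ → Bool := onCell 1610612736 469762048 0 1230186008 1046898278 26843546
    (rowNX 3 0 false true true .npn 3 0 3 (qsf 1610612736 469762048 0 1230186008 0) ndN1q3 ndN5q3 pcN0 Cut.none Ext.none)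

def k0_pp_303 : ∃ t, chk3 f_pp_303 t 1 1 1 = true :=
  ⟨(b (l 3) (l 3)), by decide +kernel⟩

theorem c_pp_303 : CertNX 1610612736 469762048 0 1230186008 1046898278 26843546 3 false true true .npn 3 0 3
    ndN1q3 ndN5q3 pcN0 Cut.none Ext.none :=
  certNX0 (fam := false) (s1 := true) (s2 := true) (a := 3) (b := 0) (c := 3) (cn := .npn) (n1 := ndN1q3) (n2 := ndN5q3) (pc := pcN0) (cut := Cut.none) (xt := Ext.none) (P1 := 1610612736) (W1 := 469762048) (P2 := 0) (W2 := 1230186008) (P3 := 1046898278) (W3 := 26843546) (N0 := 3)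
    rfl k0_pp_303

noncomputable def f_pp_313 : ℕ → ℕ → ℕ → ℕ → Bool := onCell 1610612736 469762048 0 1230186008 1046898278 26843546
    (rowNX 3 0 false true true .dn 3 1 3 (qsf 1610612736 469762048 0 1230186008 1) ndN1q3 ndN5q3 pcN1 Cut.none Ext.none)

def k0_pp_313 : ∃ t, chk3 f_pp_313 t 1 1 1 = true :=
  ⟨(b (l 3) (l 1)), by decide +kernel⟩

theorem c_pp_313 : CertNX 1610612736 469762048 0 1230186008 1046898278 26843546 3 false true true .dn 3 1 3
    ndN1q3 ndN5q3 pcN1 Cut.none Ext.none :=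
  certNX0 (fam := false) (s1 := true) (s2 := true) (a := 3) (b := 1) (c := 3) (cn := .dn) (n1 := ndN1q3) (n2 := ndN5q3) (pc := pcN1) (cut := Cut.none) (xt := Ext.none) (P1 := 1610612736) (W1 := 469762048) (P2 := 0) (W2 := 1230186008) (P3 := 1046898278) (W3 := 26843546) (N0 := 3)
    rfl k0_pp_313

noncomputable def f_pm_001 : ℕ → ℕ → ℕ → ℕ → Bool := onCell 67108864 469762048 536870912 469762048 1046898278 26843546
    (rowNX 3 0 false true false .up 0 0 1 (qsf 67108864 469762048 536870912 469762048 0) ndN1q0 ndN5q1 pcN0 Cut.none Ext.none)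

def k0_pm_001 : ∃ t, chk3 f_pm_001 t 1 1 1 = true :=
  ⟨(l 4), by decide +kernel⟩

theorem c_pm_001 : CertNX 67108864 469762048 536870912 469762048 1046898278 26843546 3 false true false .up 0 0 1
    ndN1q0 ndN5q1 pcN0 Cut.none Ext.none :=
  certNX0 (fam := false) (s1 := true) (s2 := false) (a := 0) (b := 0) (c := 1) (cn := .up) (n1 := ndN1q0) (n2 := ndN5q1) (pc := pcN0) (cut := Cut.none) (xt := Ext.none) (P1 := 67108864) (W1 := 469762048) (P2 := 536870912) (W2 := 469762048) (P3 := 1046898278) (W3 := 26843546) (N0 := 3)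
    rfl k0_pm_001

noncomputable def f_pm_011 : ℕ → ℕ → ℕ → ℕ → Bool := onCell 67108864 469762048 536870912 469762048 1046898278 26843546
    (rowNX 3 0 false true false .pnn 0 1 1 (qsf 67108864 469762048 536870912 469762048 1) ndN1q0 ndN5q1 pcN1 Cut.none Ext.none)

def k0_pm_011 : ∃ t, chk3 f_pm_011 t 1 1 1 = true :=
  ⟨(l 4), by decide +kernel⟩

theorem c_pm_011 : CertNX 67108864 469762048 536870912 469762048 1046898278 26843546 3 false true false .pnn 0 1 1
    ndN1q0 ndN5q1 pcN1 Cut.none Ext.none :=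
  certNX0 (fam := false) (s1 := true) (s2 := false) (a := 0) (b := 1) (c := 1) (cn := .pnn) (n1 := ndN1q0) (n2 := ndN5q1) (pc := pcN1) (cut := Cut.none) (xt := Ext.none) (P1 := 67108864) (W1 := 469762048) (P2 := 536870912) (W2 := 469762048) (P3 := 1046898278) (W3 := 26843546) (N0 := 3)
    rfl k0_pm_011

noncomputable def f_pm_012 : ℕ → ℕ → ℕ → ℕ → Bool := onCell 67108864 469762048 1073741824 536870912 1046898278 26843546
    (rowNX 3 0 false true false .pnp 0 1 2 (qsf 67108864 469762048 1073741824 536870912 1) ndN1q0 ndN5q2 pcN1 Cut.none Ext.none)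

def k0_pm_012 : ∃ t, chk3 f_pm_012 t 1 1 1 = true :=
  ⟨(a (l 4) (a (b (l 4) (l 4)) (a (b (b (b (a (l 4) (b (l 15731520) (l 4))) (l 4)) (l 4)) (l 4)) (b (b (b (c (l 15543856) (l 15500560)) (b (c (l 14753360) (l 14921264)) (a (l 4) (l 14620864)))) (a (l 4) (b (b (b (l 14437184) (l 14716984)) (a (l 4) (l 15534736))) (b (a (l 4) (l 16253136)) (l 4))))) (b (l 4) (l 4)))))), by decide +kernel⟩

theorem c_pm_012 : CertNX 67108864 469762048 1073741824 536870912 1046898278 26843546 3 false true false .pnp 0 1 2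
    ndN1q0 ndN5q2 pcN1 Cut.none Ext.none :=
  certNX0 (fam := false) (s1 := true) (s2 := false) (a := 0) (b := 1) (c := 2) (cn := .pnp) (n1 := ndN1q0) (n2 := ndN5q2) (pc := pcN1) (cut := Cut.none) (xt := Ext.none) (P1 := 67108864) (W1 := 469762048) (P2 := 1073741824) (W2 := 536870912) (P3 := 1046898278) (W3 := 26843546) (N0 := 3)
    rfl k0_pm_012

noncomputable def f_pm_022 : ℕ → ℕ → ℕ → ℕ → Bool := onCell 67108864 469762048 1073741824 536870912 1046898278 26843546
    (rowNX 3 0 false true false .pp 0 2 2 (qsf 67108864 469762048 1073741824 536870912 2) ndN1q0 ndN5q2 pcN2 Cut.none Ext.none)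

def k0_pm_022 : ∃ t, chk3 f_pm_022 t 1 1 1 = true :=
  ⟨(a (l 4) (b (l 1) (a (l 4) (b (l 1) (l 4))))), by decide +kernel⟩

theorem c_pm_022 : CertNX 67108864 469762048 1073741824 536870912 1046898278 26843546 3 false true false .pp 0 2 2
    ndN1q0 ndN5q2 pcN2 Cut.none Ext.none :=
  certNX0 (fam := false) (s1 := true) (s2 := false) (a := 0) (b := 2) (c := 2) (cn := .pp) (n1 := ndN1q0) (n2 := ndN5q2) (pc := pcN2) (cut := Cut.none) (xt := Ext.none) (P1 := 67108864) (W1 := 469762048) (P2 := 1073741824) (W2 := 536870912) (P3 := 1046898278) (W3 := 26843546) (N0 := 3)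
    rfl k0_pm_022

noncomputable def f_pm_023 : ℕ → ℕ → ℕ → ℕ → Bool := onCell 67108864 469762048 0 1230186008 1046898278 26843546
    (rowNX 3 0 false true false .up 0 2 3 (qsf 67108864 469762048 0 1230186008 2) ndN1q0 ndN5q3 pcN2 Cut.none Ext.none)

def k0_pm_023 : ∃ t, chk3 f_pm_023 t 1 1 1 = true :=
  ⟨(a (b (l 2) (l 4)) (a (b (b (l 2) (l 4)) (b (l 4) (l 4))) (a (b (b (l 2) (b (l 16705992) (l 16730136))) (b (l 4) (l 4))) (b (b (l 16746096) (b (l 16705992) (l 16730136))) (b (b (l 16776024) (a (l 4) (b (l 16641992) (l 16257688)))) (b (b (b (l 16028248) (l 4)) (l 4)) (l 4))))))), by decide +kernel⟩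

theorem c_pm_023 : CertNX 67108864 469762048 0 1230186008 1046898278 26843546 3 false true false .up 0 2 3
    ndN1q0 ndN5q3 pcN2 Cut.none Ext.none :=
  certNX0 (fam := false) (s1 := true) (s2 := false) (a := 0) (b := 2) (c := 3) (cn := .up) (n1 := ndN1q0) (n2 := ndN5q3) (pc := pcN2) (cut := Cut.none) (xt := Ext.none) (P1 := 67108864) (W1 := 469762048) (P2 := 0) (W2 := 1230186008) (P3 := 1046898278) (W3 := 26843546) (N0 := 3)
    rfl k0_pm_023

noncomputable def f_pm_033 : ℕ → ℕ → ℕ → ℕ → Bool := onCell 1610612736 536870912 0 1230186008 1046898278 26843546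
    (rowNX 3 2 false true false .pnn 0 3 3 (qsf 67108864 469762048 0 1230186008 3) ndN1q0 ndN5q3 pcN3 Cut.none Ext.none)

def k0_pm_033 : ∃ t, chk3 f_pm_033 t 1 1 1 = true :=
  ⟨(a (b (b (a (a (l 16746096) (l 16746096)) (l 4)) (a (c (l 16826784) (l 16774928)) (l 4))) (b (l 4) (b (l 4) (a (l 4) (l 1))))) (b (l 4) (a (b (l 4) (l 1)) (l 1)))), by decide +kernel⟩

theorem c_pm_033 : CertNX 67108864 469762048 0 1230186008 1046898278 26843546 3 false true false .pnn 0 3 3
    ndN1q0 ndN5q3 pcN3 Cut.none Ext.none :=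
  certNX2 (fam := false) (s1 := true) (s2 := false) (a := 0) (b := 3) (c := 3) (cn := .pnn) (n1 := ndN1q0) (n2 := ndN5q3) (pc := pcN3) (cut := Cut.none) (xt := Ext.none) (P1 := 67108864) (W1 := 469762048) (P2 := 0) (W2 := 1230186008) (P3 := 1046898278) (W3 := 26843546) (N0 := 3)
    rfl (fun _ => rfl) k0_pm_033

noncomputable def f_pm_101 : ℕ → ℕ → ℕ → ℕ → Bool := onCell 536870912 536870912 536870912 469762048 1046898278 26843546
    (rowNX 3 0 false true false .npn 1 0 1 (qsf 536870912 536870912 536870912 469762048 0) ndN1q1 ndN5q1 pcN0 Cut.none Ext.none)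

def k0_pm_101 : ∃ t, chk3 f_pm_101 t 1 1 1 = true :=
  ⟨(l 4), by decide +kernel⟩

theorem c_pm_101 : CertNX 536870912 536870912 536870912 469762048 1046898278 26843546 3 false true false .npn 1 0 1
    ndN1q1 ndN5q1 pcN0 Cut.none Ext.none :=
  certNX0 (fam := false) (s1 := true) (s2 := false) (a := 1) (b := 0) (c := 1) (cn := .npn) (n1 := ndN1q1) (n2 := ndN5q1) (pc := pcN0) (cut := Cut.none) (xt := Ext.none) (P1 := 536870912) (W1 := 536870912) (P2 := 536870912) (W2 := 469762048) (P3 := 1046898278) (W3 := 26843546) (N0 := 3)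
    rfl k0_pm_101

noncomputable def f_pm_102 : ℕ → ℕ → ℕ → ℕ → Bool := onCell 0 536870912 1073741824 536870912 1046898278 26843546
    (rowNX 3 2 false true false .npp 1 0 2 (qsf 536870912 536870912 1073741824 536870912 0) ndN1q1 ndN5q2 pcN0 Cut.none Ext.none)

def k0_pm_102 : ∃ t, chk3 f_pm_102 t 4 2 1 = true :=
  ⟨(a (b (a (b (b (a (a (b (c (l 15805856) (a (c (l 15761552) (a (l 15605696) (l 15523952))) (c (l 15641592) (l 15748504)))) (l 2)) (c (c (a (a (l 15658440) (l 15659152)) (l 15681056)) (a (l 15649056) (l 15682056))) (c (a (l 15616784) (l 15650136)) (l 15605832)))) (c (a (c (b (l 15778688) (l 15563184)) (l 15454080)) (c (l 15769344) (l 15714264))) (c (l 15666040) (l 15637200)))) (a (l 2) (a (l 2) (a (l 2) (c (l 15143840) (l 15039040)))))) (l 2)) (a (b (c (b (c (l 15780416) (l 15629672)) (c (l 15177208) (l 15117744))) (b (l 15696392) (l 15062296))) (l 2)) (a (b (c (b (l 15717168) (l 15160688)) (l 15401248)) (l 2)) (b (c (b (l 15802760) (l 15179504)) (l 15407680)) (b (a (l 2)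 (l 14534032)) (l 2)))))) (l 2)) (b (a (b (a (a (b (l 15745792) (l 15162488)) (l 15317312)) (b (l 15873504) (l 15188432))) (a (b (c (l 14558320) (l 14479512)) (l 2)) (b (l 14495784) (l 13816384)))) (a (b (b (l 15896280) (l 15240544)) (b (l 14515096) (l 13790880))) (b (l 15466816) (l 14149416)))) (b (a (l 2) (b (b (l 13298600) (l 2)) (l 2))) (l 2)))), by decide +kernel⟩

def k1_pm_102 : ∃ t, chk3 f_pm_102 t 5 2 1 = true :=
  ⟨(b (a (b (a (b (l 15664968) (l 15507344)) (b (l 15619016) (l 15476632))) (a (b (l 14794032) (l 14062712)) (b (l 15014136) (l 14304160)))) (b (a (l 15543136) (l 15556840)) (a (b (l 15193976) (l 14548256)) (b (l 15060208) (l 14858064))))) (a (b (b (b (a (l 13511680) (l 13761896)) (a (l 13513864) (l 13740616))) (a (a (l 2) (l 14052080)) (l 14173392))) (a (l 2) (a (l 2) (b (l 359799751607) (l 2))))) (b (b (a (b (l 14026208) (l 13990552)) (b (l 14385784) (l 14342640))) (a (l 14362504) (l 14662056))) (a (b (b (l 14767456) (l 376443220679)) (c (l 434962322967) (l 15080016)))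 (b (l 15129016) (l 15133112)))))), by decide +kernel⟩

def k2_pm_102 : ∃ t, chk3 f_pm_102 t 3 2 1 = true :=
  ⟨(b (a (b (a (l 15445088) (l 15522248)) (a (b (l 14981248) (l 14693744)) (l 14779320))) (b (a (l 15522248) (l 15522248)) (a (l 14772512) (l 14772512)))) (a (b (b (a (b (l 14535136) (l 14830912)) (l 14314368)) (a (l 15244768) (l 15450024))) (a (b (l 15638064) (l 15710512)) (b (a (l 16141256) (l 16354600)) (l 16314776)))) (b (b (b (l 14377320) (l 14597520)) (l 15178912)) (b (l 16242472) (l 16708648))))), by decide +kernel⟩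

def k3_pm_102 : ∃ t, chk3 f_pm_102 t 1 3 1 = true :=
  ⟨(a (a (l 2) (a (l 2) (a (l 2) (b (b (a (l 2) (l 14978480)) (l 2)) (l 2))))) (a (b (a (b (l 390939213911) (b (l 14892064) (l 2))) (b (a (l 15711088) (l 16015512)) (b (l 15421216) (l 15156600)))) (a (l 2) (b (a (l 2) (l 838151967207)) (l 2)))) (b (a (b (a (l 16315248) (l 16541240)) (l 15633488)) (b (l 16698584) (b (l 16541240) (l 16315248)))) (a (b (a (l 15156600) (l 15421216)) (a (l 2) (l 877880414695))) (b (l 15864176) (a (l 15156600) (l 15421216))))))), by decide +kernel⟩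

theorem s4_pm_102 : ∃ t, chk3 f_pm_102 t 2 2 1 = true := ex3_a k0_pm_102 k1_pm_102

theorem s5_pm_102 : ∃ t, chk3 f_pm_102 t 1 2 1 = true := ex3_a s4_pm_102 k2_pm_102

theorem s6_pm_102 : ∃ t, chk3 f_pm_102 t 1 1 1 = true := ex3_b s5_pm_102 k3_pm_102

theorem c_pm_102 : CertNX 536870912 536870912 1073741824 536870912 1046898278 26843546 3 false true false .npp 1 0 2
    ndN1q1 ndN5q2 pcN0 Cut.none Ext.none :=
  certNX2 (fam := false) (s1 := true) (s2 := false) (a := 1) (b := 0) (c := 2) (cn := .npp) (n1 := ndN1q1) (n2 := ndN5q2) (pc := pcN0) (cut := Cut.none) (xt := Ext.none) (P1 := 536870912) (W1 := 536870912) (P2 := 1073741824) (W2 := 536870912) (P3 := 1046898278) (W3 := 26843546) (N0 := 3)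
    rfl (fun _ => rfl) s6_pm_102

noncomputable def f_pm_112 : ℕ → ℕ → ℕ → ℕ → Bool := onCell 536870912 536870912 1073741824 536870912 1046898278 26843546
    (rowNX 3 2 false true false .dn 1 1 2 (qsf 536870912 536870912 1073741824 536870912 1) ndN1q1 ndN5q2 pcN1 Cut.none Ext.none)

def k0_pm_112 : ∃ t, chk3 f_pm_112 t 2 1 1 = true :=
  ⟨(b (b (a (b (a (l 317858121095) (c (l 15543856) (l 15500560))) (a (l 14772512) (c (l 14807016) (l 14737856)))) (a (a (b (l 1) (b (l 1) (l 14647624))) (l 1)) (l 1))) (a (b (b (a (l 14488456) (b (l 14377320) (l 14597512))) (a (l 15362176) (l 15362176))) (b (a (l 16304928) (l 16304928)) (a (l 16776552) (l 16776552)))) (b (a (b (a (b (l 14411408) (l 14626296)) (b (l 1) (l 14764152))) (a (l 15382744) (l 15411256))) (a (b (l 1) (l 1299258648487)) (l 1))) (a (b (a (l 16316232) (l 16389448)) (l 16710168)) (a (b (l 16162264) (l 16350616)) (b (l 4) (l 209612381319))))))) (a (a (b (b (l 16769976) (l 16698584)) (b (b (l 16541240) (l 16315248)) (l 15864176)))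 (b (l 16772520) (b (l 16698584) (l 16410152)))) (b (b (a (a (l 16773360) (l 16737896)) (a (l 16617264) (b (l 16132472) (l 16426640)))) (a (l 16777216) (b (a (l 16761768) (l 16691784)) (l 16777216)))) (a (b (l 16769976) (l 16698584)) (l 16772520))))), by decide +kernel⟩

def k1_pm_112 : ∃ t, chk3 f_pm_112 t 6 2 1 = true :=
  ⟨(b (l 1) (l 4)), by decide +kernel⟩

def k2_pm_112 : ∃ t, chk3 f_pm_112 t 12 3 1 = true :=
  ⟨(a (b (b (b (a (l 15729672) (l 15491200)) (l 125860370071)) (b (l 16394704) (l 16691136))) (l 16776864)) (b (b (b (l 4) (a (l 15380320) (l 15129936))) (a (b (l 15752048) (l 16285240)) (b (l 15276800) (l 15651544)))) (b (b (a (l 16491744) (l 15916152)) (a (l 16559192) (l 16147096))) (b (a (l 16655256) (b (l 16333960) (l 16437784))) (l 16598432))))), by decide +kernel⟩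

def k3_pm_112 : ∃ t, chk3 f_pm_112 t 13 3 1 = true :=
  ⟨(b (b (l 4) (a (a (a (l 15234648) (l 15033544)) (l 14701072)) (l 13977848))) (a (b (a (b (l 15330080) (l 15548936)) (b (l 14748720) (l 14930648))) (b (a (b (a (b (l 15810040) (l 16172656)) (c (l 15717152) (l 15543032))) (a (l 16267032) (c (l 16146248) (l 16154960)))) (b (b (l 15164728) (c (a (l 15508664) (l 15140856)) (a (l 15424808) (l 15139312)))) (a (c (l 16026592) (c (l 16034184) (l 16039768))) (b (b (l 15330928) (c (l 15679240) (l 15566712))) (c (a (l 15935248) (l 16125328)) (b (l 15833424) (l 15989696))))))) (l 16234368))) (b (a (b (l 14282312) (a (l 14454984) (l 14234032))) (l 14084656)) (b (b (l 14343224) (b (b (a (a (a (l 15055008) (l 14896112)) (a (l 14751848) (l 14588368))) (l 14276416)) (a (a (c (l 15240120) (l 15184784)) (l 14695656)) (a (a (l 14550840) (l 14380064)) (l 14193128)))) (a (b (a (c (a (l 15667648) (l 15511240)) (l 15478656)) (l 14912440)) (a (c (a (l 15878208) (l 15671136)) (l 15775672)) (c (c (l 15459576)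 (l 15459928)) (l 15413224)))) (a (b (a (l 14712080) (l 14509136)) (c (c (l 15089128) (l 14960296)) (l 14912648))) (c (l 14244016) (b (l 14236112) (l 14404856))))))) (b (a (b (a (b (c (l 15908384) (l 15889664)) (l 15969720)) (c (b (b (l 15645648) (l 15732344)) (l 15736544)) (b (l 15673568) (l 15723944)))) (l 15891008)) (b (b (c (c (c (l 14927368) (l 14874344)) (a (l 15296472) (l 14911832))) (a (l 15278424) (l 14785320))) (a (c (c (l 15523504) (l 15484000)) (l 15479280)) (c (c (b (l 15090080) (l 15311144)) (l 15228856)) (l 15193672)))) (b (b (a (l 15584024) (c (l 15312792) (l 15277360))) (l 15479008)) (l 15485408)))) (l 15711080)))))), by decide +kernel⟩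

def k4_pm_112 : ∃ t, chk3 f_pm_112 t 7 2 1 = true :=
  ⟨(l 1), by decide +kernel⟩

def k5_pm_112 : ∃ t, chk3 f_pm_112 t 7 6 1 = true :=
  ⟨(l 4), by decide +kernel⟩

def k6_pm_112 : ∃ t, chk3 f_pm_112 t 7 14 1 = true :=
  ⟨(a (a (a (l 13782640) (a (l 13567968) (c (l 13555312) (l 13440832)))) (a (c (c (l 13572088) (l 13479192)) (l 13387176)) (l 4))) (l 4)), by decide +kernel⟩

def k7_pm_112 : ∃ t, chk3 f_pm_112 t 14 30 1 = true :=
  ⟨(a (a (b (l 13793128) (a (b (l 13947840) (b (l 13982024) (c (l 14084464) (l 14027120)))) (l 13751576))) (a (l 13565616) (c (l 13536848) (l 13421648)))) (c (c (a (l 13599568) (a (l 13627248) (l 13536200))) (a (l 13523712) (a (l 13543440) (a (l 13555488) (l 13418040))))) (l 13442072))), by decide +kernel⟩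

def k8_pm_112 : ∃ t, chk3 f_pm_112 t 28 31 1 = true :=
  ⟨(a (b (b (b (c (c (l 14152472) (l 13922768)) (a (l 14248712) (l 13819576))) (c (c (l 14368552) (a (l 14774816) (l 14238040))) (a (l 14709864) (l 14133912)))) (a (b (c (b (a (l 15115896) (l 14873136)) (l 15096176)) (c (l 15026200) (l 15012256))) (l 15151696)) (c (c (b (a (l 14848704) (l 14544736)) (l 14881592)) (c (b (l 14736568) (l 14876280)) (b (l 14715336) (l 14832248)))) (c (b (l 14676096) (l 14821704)) (b (l 14611576) (l 14812928)))))) (l 15065072)) (b (b (a (c (l 13590600) (b (a (l 13564848) (l 13429784)) (l 13619528))) (a (b (l 13411224) (b (l 13397056) (b (l 13389928) (l 13421104)))) (l 13440408))) (a (c (b (c (l 14262264) (l 14103648)) (b (c (l 14410424) (l 14415896)) (a (l 14708328) (l 14530104)))) (b (l 14013520) (b (l 14372584) (l 14557640)))) (b (a (a (l 13695496) (l 13572016)) (a (l 13533032) (l 13514568))) (b (a (l 14128992) (l 13809160)) (c (a (l 14259168) (l 14152544)) (l 14142024)))))) (b (b (b (a (c (l 14654808)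 (l 14595768)) (c (a (c (l 14500912) (l 14443864)) (l 14245200)) (l 14353392))) (a (l 14703856) (c (l 14477672) (l 14401336)))) (l 14615232)) (l 14634560)))), by decide +kernel⟩

def k9_pm_112 : ∃ t, chk3 f_pm_112 t 29 31 1 = true :=
  ⟨(c (a (b (c (l 13763864) (l 13495992)) (b (a (a (b (b (l 14169968) (b (l 14263576) (l 14378648))) (l 14404800)) (c (l 14265840) (l 14031048))) (a (c (l 14234592) (l 14206408)) (b (l 13804280) (l 14187536)))) (l 14350128))) (b (a (l 13686608) (b (c (l 13650824) (l 13584888)) (l 13740088))) (b (a (l 13836120) (l 13894760)) (a (l 14146232) (l 14077344))))) (a (b (a (a (a (l 13425728) (l 13647264)) (l 13662760)) (l 13681944)) (a (b (b (a (l 14214576) (l 14017392)) (b (a (l 14334424) (l 14264424)) (l 14362080))) (l 14378696)) (a (b (l 13975272) (l 14290752)) (b (b (l 13721872) (l 14124696)) (l 14137184))))) (b (l 13452552) (a (b (l 13871104) (l 14073944)) (l 13957176))))), by decide +kernel⟩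

def k10_pm_112 : ∃ t, chk3 f_pm_112 t 15 15 1 = true :=
  ⟨(a (c (a (c (b (l 13361072) (a (b (l 13574312) (l 13949920)) (l 13683632))) (a (b (c (l 13401976) (l 13319480)) (b (b (l 13457728) (l 13576520)) (b (l 13767064) (l 13925520)))) (c (l 13647992) (a (c (l 16334239575) (l 13538200)) (a (l 13396744) (l 13511792)))))) (a (c (l 13407456) (c (l 13427192) (l 13421808))) (l 13147960))) (a (b (l 13190992) (b (l 13351632) (a (l 13836168) (l 13504632)))) (c (c (a (a (l 13413072) (l 13220544)) (l 13136080)) (l 13025872)) (l 13231616)))) (a (c (l 12728224) (c (c (l 12925576) (a (l 12978208) (l 12787336))) (a (l 12913840) (l 12737096)))) (l 4))), by decide +kernel⟩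

theorem s11_pm_112 : ∃ t, chk3 f_pm_112 t 14 31 1 = true := ex3_a k8_pm_112 k9_pm_112

theorem s12_pm_112 : ∃ t, chk3 f_pm_112 t 14 15 1 = true := ex3_b k7_pm_112 s11_pm_112

theorem s13_pm_112 : ∃ t, chk3 f_pm_112 t 7 15 1 = true := ex3_a s12_pm_112 k10_pm_112

theorem s14_pm_112 : ∃ t, chk3 f_pm_112 t 7 7 1 = true := ex3_b k6_pm_112 s13_pm_112

theorem s15_pm_112 : ∃ t, chk3 f_pm_112 t 7 3 1 = true := ex3_b k5_pm_112 s14_pm_112

theorem s16_pm_112 : ∃ t, chk3 f_pm_112 t 7 1 1 = true := ex3_b k4_pm_112 s15_pm_112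

theorem s17_pm_112 : ∃ t, chk3 f_pm_112 t 6 3 1 = true := ex3_a k2_pm_112 k3_pm_112

theorem s18_pm_112 : ∃ t, chk3 f_pm_112 t 6 1 1 = true := ex3_b k1_pm_112 s17_pm_112

theorem s19_pm_112 : ∃ t, chk3 f_pm_112 t 3 1 1 = true := ex3_a s18_pm_112 s16_pm_112

theorem s20_pm_112 : ∃ t, chk3 f_pm_112 t 1 1 1 = true := ex3_a k0_pm_112 s19_pm_112

theorem c_pm_112 : CertNX 536870912 536870912 1073741824 536870912 1046898278 26843546 3 false true false .dn 1 1 2
    ndN1q1 ndN5q2 pcN1 Cut.none Ext.none :=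
  certNX2 (fam := false) (s1 := true) (s2 := false) (a := 1) (b := 1) (c := 2) (cn := .dn) (n1 := ndN1q1) (n2 := ndN5q2) (pc := pcN1) (cut := Cut.none) (xt := Ext.none) (P1 := 536870912) (W1 := 536870912) (P2 := 1073741824) (W2 := 536870912) (P3 := 1046898278) (W3 := 26843546) (N0 := 3)
    rfl (fun _ => rfl) s20_pm_112

noncomputable def f_pm_113 : ℕ → ℕ → ℕ → ℕ → Bool := onCell 536870912 536870912 0 1230186008 1046898278 26843546
    (rowNX 3 2 false true false .nn 1 1 3 (qsf 536870912 536870912 0 1230186008 1) ndN1q1 ndN5q3 pcN1 Cut.none Ext.none)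

def k0_pm_113 : ∃ t, chk3 f_pm_113 t 1 2 1 = true :=
  ⟨(a (l 2) (a (l 2) (a (b (l 2) (b (a (l 2) (b (l 2) (l 995991299687))) (a (b (l 2) (l 14810544)) (b (l 14714368) (l 14795776))))) (a (b (l 2) (b (a (b (l 2) (l 14718856)) (a (l 14748128) (l 14780488))) (l 14528328))) (b (b (a (l 2) (c (l 1645072454359) (a (l 2) (c (l 16746560) (b (l 2425145956343) (a (l 15987112) (l 16066304))))))) (b (a (l 2) (a (l 16713192) (l 16728880))) (a (a (b (l 2) (l 15273152)) (l 15535408)) (l 15540312)))) (b (l 14739536) (l 14486704))))))), by decide +kernel⟩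

def k1_pm_113 : ∃ t, chk3 f_pm_113 t 2 3 1 = true :=
  ⟨(b (a (l 2) (b (l 2) (a (l 2) (b (l 2) (a (l 2) (l 15081184)))))) (a (b (l 2) (a (b (l 2) (b (l 15114904) (l 15402488))) (b (l 553074120519) (l 341548080103)))) (b (a (b (a (l 2) (l 614276875303)) (l 15056712)) (b (l 15347416) (l 15751704))) (b (a (l 15611272) (l 16362664)) (a (l 16377520) (l 16685048)))))), by decide +kernel⟩

def k2_pm_113 : ∃ t, chk3 f_pm_113 t 3 3 1 = true :=
  ⟨(a (b (a (b (l 2) (a (b (l 791444328199) (l 15337704)) (l 15241896))) (b (a (b (l 2) (l 15081584)) (b (l 14987896) (l 15227320))) (a (l 15377096) (b (l 15529664) (l 15873488))))) (b (a (a (b (l 15776064) (l 16292592)) (b (l 16013896) (l 16435752))) (a (b (l 16155640) (l 16356840)) (b (l 16101096) (l 16070248)))) (a (a (l 16694576) (l 16606264)) (a (l 16321216) (a (l 16043968) (l 15701240)))))) (b (a (b (a (l 15108120) (l 15043952)) (b (a (l 15504560) (l 15348040)) (a (l 15734664) (l 15375792)))) (b (b (l 14727368) (a (l 14979808) (b (l 14701056) (l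 14641120)))) (a (b (b (l 15076456) (l 15028368)) (l 14860896)) (b (a (l 14672880) (l 14386280)) (a (l 14395064) (l 14090704)))))) (b (a (a (b (l 15671272) (l 15470312)) (l 15038424)) (a (b (l 14603248) (l 14313792)) (a (l 13703072) (b (l 13756776) (l 13423488))))) (a (a (l 14942736) (b (l 14642976) (a (l 14501624) (l 14264616)))) (b (a (l 14028648) (a (l 13426056) (l 13099760))) (a (b (l 13821360) (c (a (c (l 13930200) (l 13911224)) (c (l 13485032) (l 13324992))) (a (l 13838208) (a (l 13421648) (c (l 13397944) (l 13338904)))))) (b (a (l 13193992) (l 12865272)) (c (a (a (l 13160320) (l 12947144)) (l 12745048)) (c (a (a (a (l 13259320) (c (l 13160016) (l 13150168))) (l 12992832)) (a (l 12771200) (l 12609112))) (a (a (l 13146728) (c (l 12731736) (l 12950040))) (c (a (b (l 12823560) (l 12765408)) (l 12585368)) (a (l 12767368) (c (l 12578352) (l 12572120)))))))))))))), by decide +kernel⟩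

theorem s3_pm_113 : ∃ t, chk3 f_pm_113 t 1 3 1 = true := ex3_a k1_pm_113 k2_pm_113

theorem s4_pm_113 : ∃ t, chk3 f_pm_113 t 1 1 1 = true := ex3_b k0_pm_113 s3_pm_113

theorem c_pm_113 : CertNX 536870912 536870912 0 1230186008 1046898278 26843546 3 false true false .nn 1 1 3
    ndN1q1 ndN5q3 pcN1 Cut.none Ext.none :=
  certNX2 (fam := false) (s1 := true) (s2 := false) (a := 1) (b := 1) (c := 3) (cn := .nn) (n1 := ndN1q1) (n2 := ndN5q3) (pc := pcN1) (cut := Cut.none) (xt := Ext.none) (P1 := 536870912) (W1 := 536870912) (P2 := 0) (W2 := 1230186008) (P3 := 1046898278) (W3 := 26843546) (N0 := 3)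
    rfl (fun _ => rfl) s4_pm_113

noncomputable def f_pm_123 : ℕ → ℕ → ℕ → ℕ → Bool := onCell 1073741824 536870912 0 1230186008 1046898278 26843546
    (rowNX 3 2 false true false .npn 1 2 3 (qsf 536870912 536870912 0 1230186008 2) ndN1q1 ndN5q3 pcN2 Cut.none Ext.none)

def k0_pm_123 : ∃ t, chk3 f_pm_123 t 1 2 1 = true :=
  ⟨(a (a (b (a (b (a (l 16320328) (l 16224408)) (a (l 15882784) (l 15723864))) (b (a (l 15684352) (l 15101480)) (a (l 15419376) (l 14942160)))) (a (b (a (l 15338720) (l 15099808)) (a (b (l 14639848) (l 14584608)) (b (l 14830344) (l 14788456)))) (b (a (l 15021904) (l 14734096)) (a (b (l 14879272) (l 14884320)) (l 14670240))))) (a (b (a (a (b (l 14686648) (l 14621712)) (b (l 14836448) (l 14811200))) (l 15410752)) (a (a (b (l 14530336) (l 14517048)) (b (l 14738112) (l 14734080))) (b (l 15433480) (l 15398992)))) (b (a (l 16220648) (l 16746248)) (a (b (l 16267144) (l 16135008)) (b (l 16653904) (l 16469408)))))) (a (b (a (l 16730504) (l 16744600)) (a (b (l 16636400) (l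 16554248)) (b (l 16701320) (l 16722336)))) (b (l 16746096) (a (l 16717288) (l 16717288))))), by decide +kernel⟩

def k1_pm_123 : ∃ t, chk3 f_pm_123 t 1 3 1 = true :=
  ⟨(a (a (b (a (b (b (a (l 14519880) (c (l 14745336) (l 14664120))) (a (c (l 14448352) (l 14147360)) (c (l 14554640) (l 14475120)))) (c (a (l 14057104) (c (l 14212176) (l 14162600))) (a (b (l 14015856) (c (l 13852344) (l 13796696))) (l 14096056)))) (b (a (b (a (l 14819376) (l 14789680)) (l 14584024)) (l 14522352)) (a (c (a (l 14292752) (l 14314368)) (l 14193152)) (l 14237104)))) (a (b (c (a (l 13502864) (c (l 13710264) (a (l 13609888) (l 13718152)))) (a (c (a (l 13378488) (l 13464336)) (a (l 13278208) (l 13409840))) (l 13464824))) (c (a (l 12993096) (c (l 13295296) (a (l 13157560) (b (l 13363304) (l 13254392))))) (a (a (c (l 12831712) (b (l 12881672) (l 12633032))) (c (b (l 13053656) (l 12846976)) (l 12896864))) (b (l 13187160) (l 13050536))))) (b (a (c (a (c (l 13876480) (l 13776184)) (l 13900264)) (l 13723120)) (l 13950016))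 (b (a (c (a (l 13505096) (l 13628904)) (l 13409328)) (l 13794096)) (l 4))))) (b (a (a (a (l 14440768) (l 14699792)) (b (l 15315576) (l 15183688))) (a (l 15655784) (l 16016328))) (b (a (a (a (l 14306680) (l 14619216)) (l 15068080)) (a (l 15478776) (l 15834136))) (b (l 4) (l 1))))) (b (a (a (a (l 16317896) (l 16546072)) (a (l 16753008) (l 16777184))) (c (l 16777184) (l 16777184))) (l 1))), by decide +kernel⟩

theorem s2_pm_123 : ∃ t, chk3 f_pm_123 t 1 1 1 = true := ex3_b k0_pm_123 k1_pm_123

theorem c_pm_123 : CertNX 536870912 536870912 0 1230186008 1046898278 26843546 3 false true false .npn 1 2 3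
    ndN1q1 ndN5q3 pcN2 Cut.none Ext.none :=
  certNX2 (fam := false) (s1 := true) (s2 := false) (a := 1) (b := 2) (c := 3) (cn := .npn) (n1 := ndN1q1) (n2 := ndN5q3) (pc := pcN2) (cut := Cut.none) (xt := Ext.none) (P1 := 536870912) (W1 := 536870912) (P2 := 0) (W2 := 1230186008) (P3 := 1046898278) (W3 := 26843546) (N0 := 3)
    rfl (fun _ => rfl) s2_pm_123

noncomputable def f_pm_133 : ℕ → ℕ → ℕ → ℕ → Bool := onCell 536870912 536870912 0 1230186008 1046898278 26843546
    (rowNX 3 0 false true false .dn 1 3 3 (qsf 536870912 536870912 0 1230186008 3) ndN1q1 ndN5q3 pcN3 Cut.none Ext.none)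

def k0_pm_133 : ∃ t, chk3 f_pm_133 t 1 1 1 = true :=
  ⟨(b (a (b (a (l 394633925799) (l 1)) (l 1)) (l 1)) (l 1)), by decide +kernel⟩

theorem c_pm_133 : CertNX 536870912 536870912 0 1230186008 1046898278 26843546 3 false true false .dn 1 3 3
    ndN1q1 ndN5q3 pcN3 Cut.none Ext.none :=
  certNX0 (fam := false) (s1 := true) (s2 := false) (a := 1) (b := 3) (c := 3) (cn := .dn) (n1 := ndN1q1) (n2 := ndN5q3) (pc := pcN3) (cut := Cut.none) (xt := Ext.none) (P1 := 536870912) (W1 := 536870912) (P2 := 0) (W2 := 1230186008) (P3 := 1046898278) (W3 := 26843546) (N0 := 3)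
    rfl k0_pm_133

end Pool.Agent.Strip051.G.IE1.Tab.C.NB15

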